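import Mathlib

/-! The trace anomaly: the endgame. -/

noncomputable section

namespace Pool.Agent.Lib.MP_7f377f_mp.Ta

open Filter Topology Set Real

theorem lg_top : Tendsto (fun t : ℝ => log t⁻¹) (𝓝[>] 0) atTop :=
  tendsto_log_atTop.comp tendsto_inv_nhdsGT_zero

theorem lg_pos : ∀ᶠ t : ℝ in 𝓝[>] 0, 0 < t ∧ 0 < log t⁻¹ :=
  eventually_mem_nhdsWithin.and (lg_top.eventually_gt_atTop 0)

theorem lg_inv : Tendsto (fun t : ℝ => (log t⁻¹)⁻¹) (𝓝[>] 0) (𝓝 0) := lg_top.inv_tendsto_atTop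

/-- powers of the logarithm are smaller than any power -/
theorem lg_pow (n : ℕ) {δ : ℝ} (h : 0 < δ) :
    Tendsto (fun t : ℝ => log t⁻¹ ^ n * t ^ δ) (𝓝[>] 0) (𝓝 0) := by
  have := (isLittleO_log_rpow_rpow_atTop n h).tendsto_div_nhds_zero.comp tendsto_inv_nhdsGT_zero
  refine this.congr' (eventually_mem_nhdsWithin.mono fun t (e : 0 < t) => ?_)
  simp only [Function.comp, rpow_natCast, inv_rpow e.le, div_inv_eq_mul]

theorem hop1 {G G1 : ℝ → ℝ} (n : ℕ) {c : ℝ} (hd : ∀ᶠ t in 𝓝[>] 0, HasDerivAt G (G1 t) t)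
    (h0 : Tendsto G (𝓝[>] 0) (𝓝 0))
    (h : Tendsto (fun t => log t⁻¹ ^ (n + 2) * (t * G1 t)) (𝓝[>] 0) (𝓝 c)) :
    Tendsto (fun t => log t⁻¹ ^ (n + 1) * G t) (𝓝[>] 0) (𝓝 (c / (n + 1))) := by
  have := HasDerivAt.lhopital_zero_nhdsGT (g := fun t => (log t⁻¹)⁻¹ ^ (n + 1))
    (g' := fun t => (n + 1) * (log t⁻¹)⁻¹ ^ (n + 2) * t⁻¹) hd (lg_pos.mono fun t e => ?_)
    (lg_pos.mono fun t e => by have := e.1; have := e.2; positivity) h0
    (by simpa using lg_inv.pow (n + 1)) ((h.div_const (n + 1)).congr' (lg_pos.mono fun t e => ?_))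
  · exact this.congr fun t => by rw [inv_pow, div_inv_eq_mul, mul_comm]
  · have k : HasDerivAt (fun t : ℝ => log t⁻¹) (-t⁻¹) t := by
      simpa only [log_inv] using (hasDerivAt_log e.1.ne').fun_neg
    refine ((k.fun_inv e.2.ne').fun_pow (n + 1)).congr_deriv ?_
    have := e.2.ne'
    simp only [add_tsub_cancel_right, Nat.cast_add, Nat.cast_one, div_eq_mul_inv, ← inv_pow]
    ring
  · have := e.1.ne'
    have := e.2.ne'
    simp only [inv_pow]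
    generalize log t⁻¹ = L at *
    field_simp

/-- the Callan-Symanzik equation determines the coefficients -/
theorem hop {G G1 : ℝ → ℝ} {a b g : ℝ} (hg : g ≠ 0) (hd : ∀ᶠ t in 𝓝[>] 0, HasDerivAt G (G1 t) t)
    (h2 : Tendsto (fun t => log t⁻¹ ^ 2 * G t) (𝓝[>] 0) (𝓝 g))
    (h3 : Tendsto (fun t => log t⁻¹ ^ 3 * (t * G1 t - a * G t)) (𝓝[>] 0) (𝓝 b)) :
    a = 0 ∧ b = 2 * g := by
  have dn : ∀ {F : ℝ → ℝ} {n : ℕ} {c : ℝ}, Tendsto (fun t => log t⁻¹ ^ (n + 1) * F t) (𝓝[>] 0) (𝓝 c) →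
      Tendsto (fun t => log t⁻¹ ^ n * F t) (𝓝[>] 0) (𝓝 0) := fun h => by
    have := lg_inv.mul h
    rw [zero_mul] at this
    exact this.congr' (lg_pos.mono fun t e => by
      simp only [pow_succ', mul_assoc, inv_mul_cancel_left₀ e.2.ne'])
  have h0 : Tendsto G (𝓝[>] 0) (𝓝 0) := by simpa using dn (dn h2)
  have a0 : a = 0 := by
    have := tendsto_nhds_unique (hop1 0 hd h0 (((dn h3).add (h2.const_mul a)).congr fun t => by ring))
      (dn h2)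
    simpa [hg] using this
  have := tendsto_nhds_unique (hop1 1 hd h0 (by simpa [a0] using h3)) h2
  exact ⟨a0, by norm_num at this; linarith⟩

/-- an iterated limit -/
def Lim2 (C : ℝ → ℝ → ℝ) (c : ℝ) : Prop :=
  ∀ η > (0 : ℝ), ∀ᶠ t in 𝓝[>] (0 : ℝ), ∀ᶠ ε in 𝓝[>] (0 : ℝ), |C t ε - c| < η

theorem Lim2.lim {C : ℝ → ℝ → ℝ} {c s : ℝ} (h : Lim2 C c) {E : ℝ → ℝ}
    (hE : ∀ᶠ t in 𝓝[>] 0, Tendsto (fun ε => s * C t ε) (𝓝[>] 0) (𝓝 (E t))) :
    Tendsto E (𝓝[>] 0) (𝓝 (s * c)) := by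
  refine Metric.tendsto_nhds.2 fun η e => ?_
  have p : 0 < |s| + 1 := by positivity
  filter_upwards [h (η / (|s| + 1)) (by positivity), hE] with t h1 h2
  have := le_of_tendsto ((h2.sub_const (s * c)).abs) (b := |s| * (η / (|s| + 1)))
    (h1.mono fun ε k => by
      rw [← mul_sub, abs_mul]
      exact mul_le_mul_of_nonneg_left k.le (abs_nonneg s))
  refine this.trans_lt ?_
  rw [← mul_div_assoc, div_lt_iff₀ p]
  linarith

/-- the endgame: `t G' - a G = - s C + R`, `C ~ c / L ^ 3` and `R` is smaller than a power -/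
theorem fin {G G1 R : ℝ → ℝ} {C : ℝ → ℝ → ℝ} {a s c g δ : ℝ} (hg : g ≠ 0)
    (hd : ∀ᶠ t in 𝓝[>] 0, HasDerivAt G (G1 t) t)
    (h2 : Tendsto (fun t => log t⁻¹ ^ 2 * G t) (𝓝[>] 0) (𝓝 g))
    (hC : Lim2 (fun t ε => log t⁻¹ ^ 3 * C t ε) c) (hδ : 0 < δ) (hR : R =O[𝓝[>] 0] fun t => t ^ δ)
    (h : ∀ᶠ t in 𝓝[>] 0, Tendsto (fun ε => s * C t ε) (𝓝[>] 0) (𝓝 (a * G t - t * G1 t + R t))) :
    a = 0 ∧ -(s * c) = 2 * g := by
  have r : Tendsto (fun t => log t⁻¹ ^ 3 * R t) (𝓝[>] 0) (𝓝 0) :=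
    ((Asymptotics.isBigO_refl (fun t : ℝ => log t⁻¹ ^ 3) _).mul hR).trans_tendsto (lg_pow 3 hδ)
  have := r.sub (hC.lim (s := s) (h.mono fun t e => (e.const_mul (log t⁻¹ ^ 3)).congr fun ε => by ring))
  rw [zero_sub] at this
  exact hop hg hd h2 (this.congr fun t => by ring)

end Pool.Agent.Lib.MP_7f377f_mp.Ta
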