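import Pool.Agent.Lib.MP_7f377f_mp.G.ZoB

/-! Linearity and integrability of the remainder of the operator product expansion. -/

noncomputable section

namespace Pool.Agent.Lib.MP_7f377f_mp.Zo
variable [Pool.Agent.Lib.MP_7f377f_mp.GD]
set_option linter.unusedSectionVars false

open MeasureTheory Filter Topology Set YM7 Pur Wm Lm Wv S3 Matrix Sw Function Asymptotics Module
open Ro (Iso)

variable {V P ι : Type} [NormedAddCommGroup V] [NormedSpace ℝ V] [CommRing P] [Algebra ℂ P]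
  {Φ : Fil V} {N : Net P} {x : V → (R4 → ℝ) → P} {W : P →ₗ[ℂ] ℂ} {ρ : Iso →* V →ₗ[ℝ] V}
  {A : ℝ → V ≃ₗ[ℝ] V} {S T : Cor V} {sc : ℝ → V →ₗ[ℝ] V} {k m D : ℕ} {l : Filter ι}
  {u : Fin 2 → R4 → ℝ} {f : R4 → ℝ} {g : Fin k → R4 → ℝ} {t : ℝ}

theorem Ml.slot {F : (Fin k → V) → ℂ} (h : Ml F) {κ : Type} [Fintype κ] (c i) (w : κ → ℝ) (b : κ → V) :
    F (update c i (∑ j, w j • b j)) = ∑ j, w j • F (update c i (b j)) := by
  obtain ⟨L, rfl⟩ := h
  simp only [L.map_update_sum, L.map_update_smul]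

theorem Ml.sum {F : (Fin k → V) → ℂ} (h : Ml F) {κ : Type} [Fintype κ] [DecidableEq κ]
    (y : Fin k → κ → ℝ) (b : κ → V) :
    F (fun i => ∑ j, y i j • b j) = ∑ I : Fin k → κ, (∏ i, y i (I i)) • F fun i => b (I i) := by
  obtain ⟨L, rfl⟩ := h
  simp only [L.map_sum, L.map_smul_univ]

theorem Ml.head {F : (Fin (k + 1) → V) → ℂ} (h : Ml F) {κ : Type} [Fintype κ] (c) (w : κ → ℝ)
    (b : κ → V) : F (vecCons (∑ j, w j • b j) c) = ∑ j, w j • F (vecCons (b j) c) := by
  simpa only [vecCons, Fin.update_cons_zero] using h.slot (vecCons 0 c) 0 w b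

theorem Ml.left {F : (Fin (m + k) → V) → ℂ} (h : Ml F) (c : Fin k → V) :
    Ml fun a => F (Fin.append a c) :=
  ml_of fun a i t v w => by
    have e : ∀ v, Fin.append (update a i v) c = update (Fin.append a c) (Fin.castAdd k i) v :=
      fun v => funext fun j => by
        induction j using Fin.addCases with
        | left j => simp [update_apply, Fin.ext_iff]
        | right j =>
          rw [update_of_ne (fun e => by have := Fin.ext_iff.1 e; simp at this; omega)]
          simp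
    simp only [e, h.eq]

theorem app_last {α : Type} (a : Fin 2 → α) (v w : α) :
    Fin.append a ![v] = update (Fin.append a ![w]) (Fin.natAdd 2 0) v := by
  funext j
  fin_cases j <;> rfl

theorem rm_sum {κ : Type} [Fintype κ] (w : κ → ℝ) {a : κ → Fin 2 → V} {b : κ → V}
    {c : κ → Fin k → V} {a₀ b₀ c₀} (hi : ∀ j, Integrable (pp T u (a j) t (c j) f g))
    (h1 : ∀ z ∈ tsupport f, T _ (Fin.append a₀ c₀) (Fin.append (fun i y => u i (t⁻¹ • (y - z))) g) =
      ∑ j, w j • T _ (Fin.append (a j) (c j)) (Fin.append (fun i y => u i (t⁻¹ • (y - z))) g))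
    (h2 : T _ (vecCons b₀ c₀) (vecCons f g) = ∑ j, w j • T _ (vecCons (b j) (c j)) (vecCons f g)) :
    Integrable (pp T u a₀ t c₀ f g) ∧
      rm T u a₀ b₀ t c₀ f g = ∑ j, w j • rm T u (a j) (b j) t (c j) f g := by
  have e : pp T u a₀ t c₀ f g = fun z => ∑ j, w j • pp T u (a j) t (c j) f g z := funext fun z => by
    by_cases c : z ∈ tsupport f
    · simp only [pp, h1 z c, Finset.mul_sum, mul_smul_comm]
    · simp [pp, image_eq_zero_of_notMem_tsupport c]
  have hj : ∀ j ∈ Finset.univ, Integrable fun z => w j • pp T u (a j) t (c j) f g z :=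
    fun j _ => (hi j).smul (w j)
  refine ⟨e ▸ integrable_finsetSum _ hj, ?_⟩
  rw [rm, e, integral_finsetSum _ hj, h2]
  simp only [rm, integral_smul, smul_sub, Finset.sum_sub_distrib, Finset.mul_sum, mul_smul_comm]

theorem adm_app (hu : Adm u) (hg : Adm (vecCons f g)) : ∀ᶠ t : ℝ in 𝓝[>] 0, ∀ z ∈ tsupport f,
    Adm (Fin.append (fun i y => u i (t⁻¹ • (y - z))) g) := by
  obtain ⟨R, -, hR, -⟩ := hu.data
  obtain ⟨-, q, -, -, hq⟩ := hg.data
  filter_upwards [Ioo_mem_nhdsGT (show (0 : ℝ) < 1 / (q + 1) / (R + 1) by positivity)] with t ht z hz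
  refine (hu.comp ((Homeomorph.subRight z).trans (.smulOfNeZero _ (inv_pos.2 ht.1).ne'))
    (show ContDiff ℝ 1 fun y : R4 => t⁻¹ • (y - z) by fun_prop)).append
    ⟨fun i => hg.1 i.succ, fun i j e => hg.2 ((Fin.succ_injective _).ne e)⟩
    fun i j => disjoint_left.2 fun y h1 h2 => ?_
  have := hR i _ (tsupport_comp (θ := fun y => t⁻¹ • (y - z)) (by fun_prop) h1)
  rw [norm_smul, norm_inv, Real.norm_of_nonneg ht.1.le, inv_mul_le_iff₀ ht.1, ← dist_eq_norm'] at this
  nlinarith [hq 0 j.succ (Fin.succ_ne_zero j).symm z hz y h2, (lt_div_iff₀ (by positivity)).1 ht.2,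
    ht.1]

theorem cv_app (hu : Adm u) (hg : ∀ i, ContDiff ℝ 1 (g i)) (t0 : t ≠ 0) (z : R4) (i : Fin (2 + k)) :
    Cv1 (𝓝 z) (fun z => Fin.append (fun i y => u i (t⁻¹ • (y - z))) g i)
      (Fin.append (fun i y => u i (t⁻¹ • (y - z))) g i) := by
  induction i using Fin.addCases with
  | left i =>
    simpa only [Fin.append_left, id] using ((cv1_const (hu.1 i).2).aff (hu.1 i).1
      (hu.1 i).2.continuous tendsto_const_nhds t0 tendsto_id)
  | right i => simpa only [Fin.append_right] using cv1_const (hg i)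

theorem int_cor (h : Rg Φ N x W ρ A S) (hu : Adm u) (hg : Adm (vecCons f g)) (t0 : t ≠ 0)
    (ha : ∀ z ∈ tsupport f, Adm (Fin.append (fun i y => u i (t⁻¹ • (y - z))) g)) (a c) :
    Integrable (pp (cor x W) u a t c f g) :=
  (integrableOn_iff_integrable_of_support_subset (s := tsupport f) fun z hz => subset_tsupport _
    fun e => hz (by simp [pp, e])).1 (ContinuousOn.integrableOn_compact (hg.1 0).1
      ((Complex.continuous_ofReal.comp (hg.1 0).2.continuous).continuousOn.mul fun z hz =>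
        (cor_cont h _ (ha z hz) (cv_app hu (fun i => (hg.1 i.succ).2) t0 z)).mono_left nhdsWithin_le_nhds))

theorem app_sc {r s : ℝ} (s0 : s ≠ 0) (z g : _) :
    (fun i y => Fin.append (fun i y => u i (r⁻¹ • (y - z))) ![g] i (s⁻¹ • y)) =
      Fin.append (fun i y => u i ((r * s)⁻¹ • (y - s • z))) ![fun y => g (s⁻¹ • y)] := by
  funext i y
  fin_cases i
  iterate 2
    refine congrArg (u _) ?_
    rw [mul_inv, mul_smul, smul_sub s⁻¹, inv_smul_smul₀ s0]
  rfl

end Pool.Agent.Lib.MP_7f377f_mp.Zo
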