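import Pool.Agent.Lib.MP_7f377f_mp.G.ZoC
import Pool.Agent.Lib.MP_7f377f_mp.G.ZoE

/-! Slow renormalisation and the limit of the coefficients of the operator product expansion. -/

noncomputable section

namespace Pool.Agent.Lib.MP_7f377f_mp.Zo
variable [Pool.Agent.Lib.MP_7f377f_mp.GD]
set_option linter.unusedSectionVars false

open MeasureTheory Filter Topology Set YM7 Pur Wm Lm Wv S3 Matrix Sw Asymptotics
open Ro (Iso)

variable {V P : Type} [NormedAddCommGroup V] [NormedSpace ℝ V] [CommRing P] [Algebra ℂ P]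
  {Φ : Fil V} {N : Net P} {x : V → (R4 → ℝ) → P} {W : P →ₗ[ℂ] ℂ} {ρ : Iso →* V →ₗ[ℝ] V}
  {A A' : ℝ → V ≃ₗ[ℝ] V} {S : Cor V} {sc : ℝ → V →ₗ[ℝ] V}

/-- a change of the renormalisation which tends to the identity -/
theorem af' (h : Rg Φ N x W ρ A S) (up : ∀ t, Φ.Up 0 (A' t))
    (lim : ∀ c, Tendsto (fun t => (A t).symm (A' t c)) (𝓝[>] 0) (𝓝 c)) (k) (c : Fin k → V) (f)
    (hf : Adm f) : Tendsto (fun t : ℝ => cor x W k (fun i => A' t (c i)) fun i y => f i (t⁻¹ • y))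
      (𝓝[>] 0) (𝓝 (S k c f)) := by
  obtain ⟨D, hD⟩ := exF Φ c
  simpa only [LinearEquiv.apply_symm_apply] using mapp' (l := 𝓝[>] 0)
    (eventually_mem_nhdsWithin.mono fun _ e => ml_A h hf e) (fun c => h.af k c f hf)
    (fun t i => (h.up t).2 D _ (up t D _ (hD i))) hD fun i => lim (c i)

theorem slow (h : Rg Φ N x W ρ A S) (hs : Sc Φ S sc) (hb : Bdu x W A)
    (gr : ∀ R d c, Φ.π d (ρ R c) = ρ R (Φ.π d c)) {J : V ≃ₗ[ℝ] V} {X : ℝ → V →ₗ[ℝ] V}
    (upJ : Φ.Up 0 J ∧ Φ.Up 0 J.symm) (upX : ∀ t, Φ.Up 0 (X t))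
    (lim : ∀ c, Tendsto (fun t => X t c) (𝓝[>] 0) (𝓝 c))
    (comm : ∀ t R c, J.symm (A t (X t (ρ R c))) = ρ R (J.symm (A t (X t c)))) :
    ∃ M, Slow Φ ρ A sc J M :=
  let ⟨_, h1, e⟩ := hs.to1
  (slow' h h1 hb gr upJ upX lim comm).imp fun _ m => ⟨m.gr, m.comm, fun c => (m.lim c).congr'
    (eventually_mem_nhdsWithin.mono fun t ht => by simp only [e t ht]), m.slow⟩

theorem Ex.congr {u a a' b b' p q} (h : Ex S u a b p) (e : ∀ t > 0, a t = a' t ∧ b t = b' t) (hq : q ≤ p) :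
    Ex S u a' b' q := fun k c f g hg =>
  ⟨((h k c f g hg).1.and self_mem_nhdsWithin).mono fun t p => (e t p.2).1 ▸ p.1,
    ((h k c f g hg).2.congr' (eventually_mem_nhdsWithin.mono fun t p => by
      simp only [e t p]) .rfl).trans (.of_bound' (mem_of_superset (Ioo_mem_nhdsGT one_pos)
        fun t p => (Real.norm_of_nonneg (Real.rpow_nonneg p.1.le _)).trans_le
          ((Real.rpow_le_rpow_of_exponent_ge p.1 p.2.le hq).trans (le_abs_self _))))⟩

theorem ex_sum {κ : Type} [Fintype κ] [DecidableEq κ] (hT : ∀ k f, Adm f → Ml fun c => S k c f)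
    {u} (hu : Adm u) (L : ℝ → V →ₗ[ℝ] V) {e : κ → V} {b : (Fin 2 → κ) → ℝ → V} {p : ℝ}
    (h : ∀ I, Ex S u (fun t i => L t (e (I i))) (fun t => L t (b I t)) p)
    {y : ℝ → Fin 2 → κ → ℝ} {y₀ : Fin 2 → κ → ℝ}
    (hy : ∀ i j, Tendsto (fun t => y t i j) (𝓝[>] 0) (𝓝 (y₀ i j))) :
    Ex S u (fun t i => L t (∑ j, y t i j • e j))
      (fun t => L t (∑ I : Fin 2 → κ, (∏ i, y t i (I i)) • b I t)) p := fun k c f g hg => by
  have := ((eventually_all.2 fun I => (h I k c f g hg).1).and (adm_app hu hg)).mono fun t p =>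
    rm_sum (a₀ := fun i => L t (∑ j, y t i j • e j)) (c₀ := c) (b := fun I => L t (b I t))
      (b₀ := L t (∑ I : Fin 2 → κ, (∏ i, y t i (I i)) • b I t)) (fun I => ∏ i, y t i (I i)) p.1
      (fun z hz => by simpa only [map_sum, map_smul] using
        ((hT _ _ (p.2 z hz)).left c).sum (y t) fun j => L t (e j))
      (by simpa only [map_sum, map_smul] using (hT _ _ hg).head c _ fun I => L t (b I t))
  exact ⟨this.mono fun _ e => e.1, (IsBigO.fun_sum fun I _ => (((tendsto_finsetProd _ fun i _ =>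
    hy i (I i)).isBigO_one ℝ).smul (h I k c f g hg).2).congr_right fun _ => one_smul ..).congr'
      (this.mono fun _ e => e.2.symm) .rfl⟩

theorem Fo.all {a u D B} (h : Fo Φ S sc a u D B) (hs : Sc Φ S sc) (sc') (hs' : Sc Φ S sc') :
    Fo Φ S sc' a u D B := ⟨h.1, h.2.congr (fun t t0 => by
  simp only [Sc.ind Φ fun d c => (hs.eq t t0 d c).trans (hs'.eq t t0 d c).symm, and_self]) le_rfl⟩

theorem ope2 (h : Rg Φ N x W ρ A S) (hs : Sc Φ S sc) (hm : Mu2 Φ x W A S)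
    (up : ∀ t, Φ.Up 0 (A' t) ∧ Φ.Up 0 (A' t).symm)
    (lim : ∀ c, Tendsto (fun t => (A t).symm (A' t c)) (𝓝[>] 0) (𝓝 c)) (a : Fin 2 → V) (u) (D : ℕ)
    (hu : Adm u) : ∃ δ ∈ Ioc (0 : ℝ) 1, ∃ (C : ℝ → V) (B : V), (∀ t, C t ∈ Φ.F D) ∧
      Tendsto C (𝓝[>] 0) (𝓝 B) ∧ Fo Φ S sc a u D B ∧
      Ex (cor x W) u (fun t i => A' t (a i)) (fun t => A' t (C t)) (D + δ) := by
  obtain ⟨D₀, hD⟩ := exF Φ a
  let b := Module.finBasis ℝ (Φ.F D₀)
  choose δ δ0 C B hC h3 hB h2 using fun I : Fin 2 → Fin _ => hm (fun i => b (I i)) u D hu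
  replace hB := fun I => hB I sc hs
  obtain ⟨ε, ε0, hε⟩ := (((eventually_all.2 fun I => Ioc_mem_nhdsGT (δ0 I)).and
    (Ioc_mem_nhdsGT one_pos)).exists : ∃ ε : ℝ, (∀ I, ε ∈ Ioc 0 (δ I)) ∧ ε ∈ Ioc 0 1)
  let v : ℝ → Fin 2 → Φ.F D₀ := fun t i =>
    ⟨(A t).symm (A' t (a i)), (h.up t).2 _ _ ((up t).1 _ _ (hD i))⟩
  have hy : ∀ i j, Tendsto (fun t => b.coord j (v t i)) (𝓝[>] 0) (𝓝 (b.coord j ⟨a i, hD i⟩)) :=
    fun i j => ((b.coord j).continuous_of_finiteDimensional.tendsto _).comp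
      (tendsto_subtype_rng.2 (lim (a i)))
  have eb : ∀ w : Φ.F D₀, ∑ j, b.coord j w • (b j : V) = w := fun w => by
    simpa only [Submodule.coe_sum, Submodule.coe_smul, b.coord_apply] using
      congrArg Subtype.val (b.sum_repr w)
  have m : ∀ {c : _ → V} {w : (Fin 2 → Fin (Module.finrank ℝ (Φ.F D₀))) → ℝ},
      (∀ I, c I ∈ Φ.F D) → ∑ I, w I • c I ∈ Φ.F D :=
    fun m => sum_mem fun I _ => (Φ.F D).smul_mem _ (m I)
  have m1 := fun t => (up t).2 D _ ((h.up t).1 D _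
    (m (w := fun I => ∏ i, b.coord (I i) (v t i)) fun I => hC I t))
  have m2 := m (w := fun I => ∏ i, b.coord (I i) ⟨a i, hD i⟩) fun I => (hB I).1
  refine ⟨ε, hε, _, _, m1, ?_, ⟨m2, ?_⟩, ?_⟩
  · refine tendsto_sub_nhds_zero_iff.1 (tendsto_subtype_rng.1 (sep (l := 𝓝[>] 0)
      (L := fun t => (A t).symm.toLinearMap ∘ₗ (A' t).toLinearMap ∘ₗ (Φ.F D).subtype)
      (fun c => lim c) (fun c e => Subtype.coe_ne_coe.2 e)
      (w := fun t => ⟨_, sub_mem (m1 t) m2⟩) ?_))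
    have := (tendsto_finsetSum .univ fun I _ => (tendsto_finsetProd .univ fun i _ => hy i (I i)).smul
      (h3 I)).sub (lim (∑ I : Fin 2 → _, (∏ i, b.coord (I i) ⟨a i, hD i⟩) • B I))
    rw [sub_self] at this
    simpa only [LinearMap.comp_apply, Submodule.subtype_apply, LinearEquiv.coe_coe, map_sub,
      LinearEquiv.apply_symm_apply, LinearEquiv.symm_apply_apply] using this
  · simpa only [eb] using ex_sum (fun _ _ => ml_S h) hu sc (e := fun j => b j) (b := fun I _ => B I)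
      (fun I => (hB I).2) (y := fun _ i j => b.coord j ⟨a i, hD i⟩) fun _ _ => tendsto_const_nhds
  · simpa only [eb, v, LinearEquiv.coe_coe, LinearEquiv.apply_symm_apply] using ex_sum
      (fun _ _ => ml_cor h) hu (fun t => (A t).toLinearMap) (e := fun j => b j) (b := C)
      (fun I => Ex.congr (a := fun t i => A t (b (I i))) (b := fun t => A t (C I t)) (fun k c f g hg =>
        ⟨((adm_app hu hg).and self_mem_nhdsWithin).mono fun t p =>
          int_cor h hu hg (ne_of_gt p.2) p.1 _ _, h2 I k c f g hg⟩) (fun _ _ => ⟨rfl, rfl⟩)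
            (add_le_add le_rfl (ε0 I).2)) hy

end Pool.Agent.Lib.MP_7f377f_mp.Zo
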