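import Pool.Agent.Lib.MP_7f377f_mp.G.AnD
import Pool.Agent.Lib.MP_7f377f_mp.G.Zo
import Pool.Agent.Lib.MP_7f377f_mp.G.S23S0

/-! The trace of the stress tensor: the flux through a far surface. -/

noncomputable section

namespace Pool.Agent.Lib.MP_7f377f_mp.An
variable [Pool.Agent.Lib.MP_7f377f_mp.GD]
set_option linter.unusedSectionVars false

open MeasureTheory Filter Topology Set YM7 Pur Wm Lm Wv S3 Sw Function Matrix Real
open Ro (Iso prm)
open scoped ContDiff NNReal Pointwise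

variable {V P : Type} [NormedAddCommGroup V] [NormedSpace ℝ V] [CommRing P] [Algebra ℂ P]
  {Φ : Fil V} {N : Net P} {x : V → (R4 → ℝ) → P} {W : P →ₗ[ℂ] ℂ} {ρ : Iso →* V →ₗ[ℝ] V}
  {A : ℝ → V ≃ₗ[ℝ] V} {S : Cor V} {T : Fin 4 → Fin 4 → V} {D δ : Fin 4 → V →ₗ[ℝ] V}
  {σ : Mat → V →ₗ[ℝ] V} {φ u lg c : V} {f g ξ η v : R4 → ℝ}

/-- convolution -/
def cn (w b : R4 → ℝ) (y : R4) : ℝ := ∫ z, w z * b (y - z)

theorem ds_cn {w b : R4 → ℝ} (hw : Ds univ w) (hb : Ds univ b) :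
    Ds (tsupport w + tsupport b) (cn w b) :=
  have c := c1_cv (dc hw) (dc hb)
  ⟨hb.2.1.contDiff_convolution_right (.mul ℝ ℝ) hw.1.continuous.locallyIntegrable hb.1, c.1, c.2.2⟩

theorem pd_cn {w b : R4 → ℝ} (hw : Ds univ w) (hb : Ds univ b) (μ : Fin 4) :
    pd μ (cn w b) = cn w (pd μ b) := by
  have i := hw.1.continuous.locallyIntegrable (μ := volume)
  have b1 := (dc hb).2.1
  rw [pd_eq (ds_cn hw hb).1, pd_eq hb.1]
  funext y
  exact (congrArg (· (ax μ 1)) (hb.2.1.hasFDerivAt_convolution_right (.mul ℝ ℝ) i b1 y).fderiv).trans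
    (convolution_precompR_apply _ i (hb.2.1.fderiv ℝ) (b1.continuous_fderiv one_ne_zero) _ _)

theorem km_cn {w b : R4 → ℝ} (hw : Ds univ w) (hb : Ds univ b) (ν : Fin 4) :
    km 1 0 ν (cn w b) = cn w (km 1 0 ν b) + (1 : ℝ) • cn (km 1 0 ν w) b := by
  have i : ∀ {w b : R4 → ℝ}, Ds univ w → Ds univ b → ∀ y, Integrable fun z => w z * b (y - z) :=
    fun hw hb y => Continuous.integrable_of_hasCompactSupport (hw.1.continuous.mul
      (hb.1.continuous.comp (by fun_prop))) hw.2.1.mul_right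
  funext y
  simp only [one_smul, Pi.add_apply, cn]
  rw [← integral_add (i hw (ds_km hb ν) y) (i (ds_km hw ν) hb y), km, cn,
    ← integral_const_mul]
  refine congrArg _ (funext fun z => ?_)
  simp [km, act]
  ring

theorem sc_ball (hf : Ds univ f) : ∀ᶠ t : ℝ in 𝓝[>] 0, Ds (Metric.ball 0 1000⁻¹) (sc t f) := by
  filter_upwards [small isCompact_singleton hf.2.1 (Metric.isOpen_ball.mem_nhdsSet.2
    (singleton_subset_iff.2 (Metric.mem_ball_self (x := (0 : R4)) (ε := 1000⁻¹) (by simp)))),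
    self_mem_nhdsWithin]
    with t h t0
  exact (ds_sc hf.self t0).mono fun y hy => h 0 rfl y (by simpa using hy)

theorem two_mem (h : Rg Φ N x W ρ A S) (hg : Ds (tsupport f)ᶜ g) {t : ℝ} (t0 : 0 < t) {O : Set R4}
    (f1 : Ds O (sc t f)) (g1 : Ds O (sc t g)) (hf : Ds univ f) (a b : V) :
    x a (sc t f) * x b (sc t g) ∈ N.loc O := by
  simpa using gen_mem h.gen ![a, b] (adm_sc (adm_two (dc hf.self) (dc hg)) t0)
    (Fin.forall_fin_two.2 ⟨f1.2.2, g1.2.2⟩)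

theorem one (h : Rg Φ N x W ρ A S) (mu : Zo.Mu2 Φ x W A S) (f0 : ∀ c ∈ Φ.F 0, ∃ a : ℝ, c = a • u)
    (un : ∀ f, C1 univ f → ∀ Z ∈ N.loc (tsupport f)ᶜ, W (x u f * Z) = (∫ y, f y : ℝ) * W Z)
    (hf : Ds univ f) (hg : Ds (tsupport f)ᶜ g) (a : Fin 2 → V) (c : V) {w b : R4 → ℝ}
    (hw : Ds univ w) (hb : Ds univ b) (hd : tsupport w + tsupport b ⊆ (Metric.ball 0 1000⁻¹)ᶜ) :
    Tendsto (fun t : ℝ => (log t⁻¹ : ℂ) *
      cv W (x c (cn w b)) (x (A t (a 0)) (sc t f) * x (A t (a 1)) (sc t g))) (𝓝[>] 0) (𝓝 0) := by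
  obtain ⟨δ, d0, C, B, c1, -, -, c2⟩ := mu a _ 0 (adm_two (dc hf.self) (dc hg))
  have w1 : Ds (tsupport b)ᶜ fun z => w (-z) := hw.self.comp (G := fun z => -z) contDiff_neg
    continuous_neg neg_neg fun z hz e => hd ⟨z, hz, _, e, rfl⟩ (by simp)
  have w2 := N.mono (h.mem c (dc hb.self)) (subset_compl_comm.1 w1.2.2)
  have r1 := c2 1 ![c] _ ![b] (adm_two (dc w1.self) (dc (hb.self.mono (subset_compl_comm.1 w1.2.2))))
  have r0 := c2 0 ![] _ ![] (adm_c1 (K := fun _ => univ) Subsingleton.pairwise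
    (Fin.forall_fin_one.2 (dc w1.univ)))
  have := ((Asymptotics.isBigO_refl (fun t : ℝ => log t⁻¹ ^ 1) _).smul
    (r1.sub (r0.const_mul_left (W (x c b))))).trans_tendsto (Ta.lg_pow 1 (by positivity))
  refine this.congr' ?_
  filter_upwards [sc_ball hf, sc_ball hg.univ, self_mem_nhdsWithin] with t f1 g1 t0
  obtain ⟨α, e⟩ := f0 _ ((h.up t).1 0 _ (c1 t))
  have m := two_mem h hg t0 f1 g1 hf (A t (a 0)) (A t (a 1))
  have tr : ∀ {X}, X ∈ N.loc univ → ∀ z, W X = W (N.τ (-z) X) := fun hX z => (h.st.ti _ hX).symm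
  have k1 := (h.conv c (dc hw) (dc hb) (N.mono m (subset_compl_comm.1 hd))).2
  have k0 := (h.conv c (dc hw) (dc hb) (N.one _)).2
  have j : ∀ {F G : R4 → ℂ}, (∀ z ∈ tsupport w, F z = G (-z)) →
      ∫ z, w z * F z = ∫ z, w (-z) * G z := fun {F G} e => by
    rw [← integral_neg_eq_self (fun z => w (-z) * G z)]
    refine congrArg _ (funext fun z => ?_)
    by_cases hz : z ∈ tsupport w
    · rw [e z hz, neg_neg]
    · simp [image_eq_zero_of_notMem_tsupport hz]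
  rw [j (G := fun z => W (x c b * (x (A t (a 0)) (bz t z f) * x (A t (a 1)) (bz t z g)))) fun z hz => by
    rw [tr (Net.adm (N.mul (h.mem c (c1_tr (dc hb) hz)) m
      (disjoint_compl_left.mono_left hd))) z]
    simp only [map_mul, h.gen.tau, sub_neg_eq_add, add_sub_cancel_right]
    unfold bz
    simp only [sc, sub_neg_eq_add]] at k1
  rw [j (G := fun _ => W (x c b)) fun z hz => by
    rw [mul_one, tr (Net.adm (h.mem c (c1_tr (dc hb) hz))) z]
    simp only [h.gen.tau, sub_neg_eq_add, add_sub_cancel_right], mul_one] at k0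
  have k2 : ∀ z, W (x (A t (a 0)) (bz t z f) * x (A t (a 1)) (bz t z g)) =
      W (x (A t (a 0)) (sc t f) * x (A t (a 1)) (sc t g)) := fun z => by
    rw [← h.st.ti z (Net.adm m), map_mul (N.τ z), h.gen.tau, h.gen.tau]
  have u1 : ∀ {Z}, Z ∈ N.loc (tsupport fun z => w (-z))ᶜ → W (x (α • u) (fun z => w (-z)) * Z) =
      α * ((∫ z, w (-z) : ℝ) * W Z) := fun m => by
    rw [← un _ (dc w1.univ) _ m]
    exact map_smul (h.lab (dc w1.self) m) _ _
  have u0 := u1 (N.one _)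
  rw [mul_one, h.st.one] at u0
  simp only [Zo.rm, Zo.pp, Zo.cor, Fin.prod_univ_add (a := 2), Fin.append_left, Fin.append_right]
  simp only [Fin.prod_univ_succ, Fin.prod_univ_zero, cons_val_zero, cons_val_succ, mul_one, e,
    u0, cv, Fin.succ_zero_eq_one, cons_val_one, k2, mul_comm _ (x c b), k1,
    integral_mul_const, pow_one, Complex.real_smul] at k0 ⊢
  unfold cn
  rw [← k0, integral_complex_ofReal, mul_comm (x c b), u1 w2]
  ring

theorem bdry (h : Rg Φ N x W ρ A S) (mu : Zo.Mu2 Φ x W A S) (hd : φ ∈ Φ.F 4)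
    (sg : Tendsto (fun t => (A t).symm ((q0 * log t⁻¹) • φ)) (𝓝[>] 0) (𝓝 lg))
    (f0 : ∀ c ∈ Φ.F 0, ∃ a : ℝ, c = a • u)
    (un : ∀ f, C1 univ f → ∀ Z ∈ N.loc (tsupport f)ᶜ, W (x u f * Z) = (∫ y, f y : ℝ) * W Z)
    (hf : Ds univ f) (hg : Ds (tsupport f)ᶜ g) : ∃ ξ, Ds Sb ξ ∧ (∀ᶠ y in 𝓝 0, ξ y = 1) ∧
      Tendsto (fun t : ℝ => (log t⁻¹ : ℂ) ^ 3 *
        cv W (fl x T 1 0 ξ) (x φ (sc t f) * x φ (sc t g))) (𝓝[>] 0) (𝓝 0) := by
  obtain ⟨w, w0, w1⟩ : ∃ w, Ds (Metric.closedBall 0 500⁻¹) w ∧ ∫ y, w y = 1 :=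
    let b : ContDiffBump (0 : R4) := ⟨1000⁻¹, 500⁻¹, by simp, by norm_num⟩
    ⟨b.normed volume, ⟨b.contDiff_normed, b.hasCompactSupport_normed, b.tsupport_normed_eq.le⟩,
      b.integral_normed⟩
  have hw := w0.univ
  obtain ⟨ζ, z0, z2⟩ := bump ((isCompact_closedBall (0 : R4) 1000⁻¹).add hw.2.1.isCompact.neg)
    (Metric.isOpen_ball (x := 0) (ε := 200⁻¹)) (by
      rintro _ ⟨y, hy, z, hz, rfl⟩
      have := mem_closedBall_zero_iff.1 (w0.2.2 hz)
      rw [norm_neg] at this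
      exact mem_ball_zero_iff.2 ((norm_add_le_of_le (mem_closedBall_zero_iff.1 hy) this).trans_lt
        (by norm_num)))
  have z1 := z0.univ
  have z3 := gs_diff z1 z2
  have sub : ∀ {y z : R4}, y ∈ Metric.ball 0 1000⁻¹ → z ∈ tsupport w →
      y - z ∈ Metric.closedBall (0 : R4) 1000⁻¹ + -tsupport w := fun {y z} hy hz =>
    ⟨y, Metric.ball_subset_closedBall hy, -z, by simpa using hz, (sub_eq_add_neg y z).symm⟩
  have far : ∀ {w' b : R4 → ℝ}, Ds (tsupport w) w' →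
      Ds (univ \ (Metric.closedBall (0 : R4) 1000⁻¹ + -tsupport w)) b →
      tsupport w' + tsupport b ⊆ (Metric.ball 0 1000⁻¹)ᶜ := fun h1 h2 => by
    rintro _ ⟨z, hz, y, hy, rfl⟩ e
    exact (h2.2.2 hy).2 (by simpa using sub e (h1.2.2 hz))
  have hξ : Ds Sb (cn w ζ) := (ds_cn hw z1).mono (by
    rintro _ ⟨y, hy, z, hz, rfl⟩
    exact mem_ball_zero_iff.2 ((norm_add_le_of_le (mem_closedBall_zero_iff.1 (w0.2.2 hy))
      (mem_ball_zero_iff.1 (z0.2.2 hz)).le).trans_lt (by norm_num)))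
  have gs : Gs (Metric.ball 0 1000⁻¹)ᶜ (cn w ζ) := fun μ =>
    pd_cn hw z1 μ ▸ (ds_cn hw (z3 μ).univ).mono (far hw.self (z3 μ))
  refine ⟨_, hξ, eventually_of_mem (Metric.ball_mem_nhds 0 (ε := 1000⁻¹) (by simp)) fun y hy => w1 ▸
    congrArg _ (funext fun z => ?_), ?_⟩
  · by_cases hz : z ∈ tsupport w
    · rw [z2.self_of_nhdsSet _ (sub hy hz), mul_one]
    · simp [image_eq_zero_of_notMem_tsupport hz]
  have ev := ((sc_ball hf).and (sc_ball hg.univ)).and (self_mem_nhdsWithin (s := Ioi (0 : ℝ)))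
  have ml : ∀ᶠ t : ℝ in 𝓝[>] 0, Zo.Ml fun a : Fin 2 → V => (log t⁻¹ : ℂ) *
      cv W (fl x T 1 0 (cn w ζ)) (x (a 0) (sc t f) * x (a 1) (sc t g)) := ev.mono fun t e => by
    have a := adm_sc (adm_two (dc hf.self) (dc hg)) e.2
    refine ⟨(log t⁻¹ : ℂ) • (h.ml a.2 (c1_adm a) (N.mono (h.fl_mem (T := T) (Λ := 1) (e := 0) gs)
      (compl_subset_compl.2 (iUnion_subset (Fin.forall_fin_two.2 ⟨e.1.1.2.2, e.1.2.2.2⟩)))) -
        W (fl x T 1 0 (cn w ζ)) • h.ml a.2 (c1_adm a) (N.one _)), funext fun c => ?_⟩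
    simp [Rg.ml, cv, mul_comm (fl ..)]
  have m := fun t => (h.up t).2 4 _ ((Φ.F 4).smul_mem (q0 * log t⁻¹) hd)
  have := Zo.mapp' (F₀ := 0) (ml.mono fun t e => e.comp (A t).toLinearMap) (fun a => ?_)
    (v := fun t _ => _) (fun t _ => m t) (fun _ => (Φ.F 4).closed_of_finiteDimensional.mem_of_tendsto
      sg (.of_forall m)) fun _ => sg
  · have q : q0 ≠ 0 := by have := GD.b0_pos; unfold q0; positivity
    have := this.const_mul ((q0 : ℂ) ^ 2)⁻¹
    simp only [Pi.zero_apply, mul_zero, LinearEquiv.coe_coe, LinearEquiv.apply_symm_apply] at this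
    refine this.congr' (ml.mono fun t ⟨L, e⟩ => ?_)
    have := L.map_smul_univ (fun _ => q0 * log t⁻¹) fun _ => φ
    simp only [e] at this
    rw [this]
    simp only [Finset.prod_const, Finset.card_fin, Complex.real_smul]
    have : (q0 : ℂ) ≠ 0 := by simpa using q
    push_cast
    field_simp
  · have := tendsto_finsetSum Finset.univ fun μ _ => tendsto_finsetSum Finset.univ fun ν _ =>
      (one h mu f0 un hf hg a (T μ ν) hw (ds_km (Λ := 1) (e := 0) (z3 μ).univ ν)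
        (far hw.self (ds_km (z3 μ) ν))).add (one h mu f0 un hf hg a (T μ ν)
          (ds_km (Λ := 1) (e := 0) hw ν) (z3 μ).univ (far (ds_km hw.self ν) (z3 μ)))
    simp only [add_zero, Finset.sum_const_zero] at this
    refine this.congr' (ev.mono fun t e => ?_)
    have m := two_mem h hg e.2 e.1.1 e.1.2 hf (A t (a 0)) (A t (a 1))
    have l : ∀ μ ν {Z}, Z ∈ N.loc (Metric.ball 0 1000⁻¹) → W (x (T μ ν) (km 1 0 ν (pd μ (cn w ζ))) * Z) =
        W (x (T μ ν) (cn w (km 1 0 ν (pd μ ζ))) * Z) + W (x (T μ ν) (cn (km 1 0 ν w) (pd μ ζ)) * Z) :=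
      fun μ ν Z hZ => by
        rw [pd_cn hw z1, km_cn hw (z3 μ).univ, h.lf (O := (Metric.ball 0 1000⁻¹)ᶜ) _ _
          (dc ((ds_cn hw (ds_km (z3 μ).univ ν)).mono (far hw.self (ds_km (z3 μ) ν))))
          (dc ((ds_cn (ds_km hw ν) (z3 μ).univ).mono (far (ds_km hw.self ν) (z3 μ))))
          (by rwa [compl_compl]), Complex.ofReal_one, one_mul]
    have l1 := fun μ ν => l μ ν (N.one _)
    simp only [mul_one] at l1
    simp only [cv, fl, Finset.sum_mul, map_sum, LinearEquiv.coe_coe, l _ _ m, l1, ← Finset.sum_sub_distrib,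
      Finset.mul_sum]
    exact Finset.sum_congr rfl fun μ _ => Finset.sum_congr rfl fun ν _ => by ring

end Pool.Agent.Lib.MP_7f377f_mp.An
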