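import Pool.Agent.Lib.MP_7f377f_mp.G.PurA

/-! Calculus of the operator bounds on the orthant. -/

noncomputable section

namespace Pool.Agent.Lib.MP_7f377f_mp.Pur
variable [GD]

open Filter Topology Set ComplexConjugate YM7

variable {P : Type} [CommRing P] [Algebra ℂ P] {N : Net P} {S : P →ₗ[ℂ] ℂ} {X Y : P} {R R' c c' : ℝ}

theorem Net.QB.of_rep (hS : N.St S) (hX : X ∈ N.loc (Bx R)) (R0 : 0 ≤ R) (c0 : 0 ≤ c)
    (h : ∀ (μ : Fin 4) (H : Type) [NormedAddCommGroup H] [InnerProductSpace ℂ H] (r : N.Rep S μ H),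
      ∀ b ∈ N.loc (Ot 0), ‖r.Ψ (N.τ (ax μ R) (X * N.τ (dg R) b))‖ ≤ c * ‖r.Ψ b‖) :
    N.QB S X R c := by
  refine ⟨hX, R0, c0, fun μ b hb => ?_⟩
  obtain ⟨H, _, _, _, ⟨r⟩⟩ := hS.exists_rep μ
  rw [r.nq (Net.qb_hs hX (Net.dg_ot hb) R0 (by simp)), r.nq (N.mono hb (Ot.hs μ le_rfl)), ← mul_pow]
  exact pow_le_pow_left₀ (norm_nonneg _) (h μ H r b hb) 2

theorem Net.QB.mono (hS : N.St S) (h : N.QB S X R c) (hR : R ≤ R') (hc : c ≤ c') :
    N.QB S X R' c' := by
  refine .of_rep hS (N.mono h.1 (Bx.mono hR)) (h.2.1.trans hR) (h.2.2.1.trans hc)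
    fun μ H _ _ r b hb => ?_
  refine (r.qb h (N.mono (Net.dg_ot hb) (Ot.mono hR)) (by simpa using hR)).trans ?_
  rw [N.τ_τ]
  exact mul_le_mul hc (r.le (by simpa using hR) (N.mono hb (Ot.hs μ le_rfl))) (norm_nonneg _)
    (h.2.2.1.trans hc)

theorem Net.QB.tau (hS : N.St S) (h : N.QB S X R c) (v : R4) :
    N.QB S (N.τ v X) (R + ‖v‖) c := by
  have hv : ∀ l, -‖v‖ ≤ v l ∧ v l ≤ ‖v‖ := fun l => abs_le.1 (PiLp.norm_apply_le v l)
  refine .of_rep hS (N.mono (N.τ_mem v h.1) fun y hy l => ?_) (add_nonneg h.2.1 (norm_nonneg _))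
    h.2.2.1 fun μ H _ _ r b hb => ?_
  · have := abs_lt.1 (hy l)
    simp only [PiLp.sub_apply] at this
    rw [abs_lt]
    constructor <;> linarith [(hv l).1, (hv l).2]
  · have e : N.τ (ax μ (R + ‖v‖)) (N.τ v X * N.τ (dg (R + ‖v‖)) b) =
        N.τ (ax μ (R + ‖v‖) + v) (X * N.τ (dg (R + ‖v‖) - v) b) := by
      rw [← N.τ_τ _ v, map_mul (N.τ v), N.τ_τ v, add_sub_cancel]
    rw [e]
    refine (r.qb h (Net.τ_ot hb fun l => ?_) ?_).trans ?_
    · simp only [PiLp.sub_apply, dg_apply]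
      linarith [(hv l).2]
    · simp only [PiLp.add_apply, PiLp.single_apply, if_true]
      linarith [(hv μ).1]
    · rw [N.τ_τ]
      refine mul_le_mul_of_nonneg_left (r.le ?_ (N.mono hb (Ot.hs μ le_rfl))) h.2.2.1
      simp only [PiLp.add_apply, PiLp.sub_apply, dg_apply]
      linarith [(hv μ).2]

theorem Net.QB.rep {μ : Fin 4} {H : Type} [NormedAddCommGroup H] [InnerProductSpace ℂ H]
    (r : N.Rep S μ H) (h : N.QB S X R c) {b : P} (hb : b ∈ N.loc (Ot 0)) :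
    ‖r.Ψ (N.τ (ax μ R) (X * N.τ (dg R) b))‖ ≤ c * ‖r.Ψ b‖ := by
  have := r.qb (v := ax μ R) h (Net.dg_ot hb) (by simp)
  rwa [N.τ_τ, show dg (-R) + dg R = 0 by ext; simp, N.τ_zero] at this

theorem Net.QB.add (hS : N.St S) (h : N.QB S X R c) (h' : N.QB S Y R c') :
    N.QB S (X + Y) R (c + c') := by
  refine .of_rep hS (Submodule.add_mem _ h.1 h'.1) h.2.1 (add_nonneg h.2.2.1 h'.2.2.1)
    fun μ H _ _ r b hb => ?_
  rw [add_mul, map_add, map_add, add_mul]
  exact (norm_add_le _ _).trans (add_le_add (h.rep r hb) (h'.rep r hb))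

theorem Net.nq_smul (μ : Fin 4) (a : ℂ) (Z : P) : N.nq S μ (a • Z) = ‖a‖ ^ 2 * N.nq S μ Z := by
  rw [Net.nq, Net.nq, N.Θ_smul, smul_mul_smul_comm, map_smul, smul_eq_mul,
    ← Complex.normSq_eq_conj_mul_self, Complex.re_ofReal_mul, Complex.normSq_eq_norm_sq]

theorem Net.QB.smul (h : N.QB S X R c) (a : ℂ) : N.QB S (a • X) R (‖a‖ * c) := by
  refine ⟨Submodule.smul_mem _ a h.1, h.2.1, mul_nonneg (norm_nonneg _) h.2.2.1, fun μ b hb => ?_⟩
  rw [smul_mul_assoc, map_smul, Net.nq_smul, mul_pow, mul_assoc]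
  exact mul_le_mul_of_nonneg_left (h.2.2.2 μ b hb) (sq_nonneg _)

theorem Net.QB.zero (R0 : 0 ≤ R) : N.QB S 0 R 0 :=
  ⟨Submodule.zero_mem _, R0, le_rfl, fun μ b _ => by simp [Net.nq]⟩

theorem Net.QB.sum (hS : N.St S) {I : Type} (s : Finset I) {Z : I → P} {c : I → ℝ} (R0 : 0 ≤ R)
    (h : ∀ i ∈ s, N.QB S (Z i) R (c i)) : N.QB S (∑ i ∈ s, Z i) R (∑ i ∈ s, c i) := by
  classical
  induction s using Finset.induction_on with
  | empty => simpa using Net.QB.zero R0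
  | insert i s hi ih =>
    rw [Finset.sum_insert hi, Finset.sum_insert hi]
    exact (h i (Finset.mem_insert_self _ _)).add hS
      (ih fun j hj => h j (Finset.mem_insert_of_mem hj))

/-- null elements -/
theorem Net.qb_null (hX : X ∈ N.loc (Bx R)) (R0 : 0 ≤ R) (hS : N.St S)
    (h : ∀ Z ∈ N.loc (Bx R)ᶜ, S (X * Z) = 0) : N.QB S X R 0 := by
  refine ⟨hX, R0, le_rfl, fun μ b hb => ?_⟩
  have h1 := Net.qb_hs (v := ax μ R) (μ := μ) hX (Net.dg_ot hb) R0 (by simp)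
  have h2 : N.τ (dg R) b * N.τ (ax μ (-R)) (N.Θ μ (N.τ (ax μ R) (X * N.τ (dg R) b))) ∈
      N.loc (Bx R)ᶜ := by
    refine N.mono (N.mul (Net.dg_ot hb) (N.τ_mem _ (N.Θ_mem μ h1)) (disjoint_left.2
      fun y e e' => ?_)) fun y e e' => ?_
    · simp only [Hs, mem_ofPred_eq, rf_self, PiLp.sub_apply, PiLp.single_apply,
        if_true] at e'
      linarith [e μ]
    · rcases e with e | e
      · linarith [e μ, (abs_lt.1 (e' μ)).2]
      · simp only [Hs, mem_ofPred_eq, rf_self, PiLp.sub_apply, PiLp.single_apply,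
          if_true] at e
        linarith [(abs_lt.1 (e' μ)).1]
  have h3 := hS.ti (ax μ (-R)) (Net.rp_adm h1 h1)
  rw [map_mul (N.τ _), N.τ_τ, ax_add, neg_add_cancel, ax_zero, N.τ_zero, mul_comm, mul_assoc,
    h _ h2] at h3
  rw [Net.nq, ← h3]
  simp

theorem dbl_le {x : ℕ → ℝ} {β η M : ℝ} (hβ : 0 ≤ β) (hη : 0 ≤ η)
    (h1 : ∀ j, x j ^ 2 ≤ β * x (j + 1)) (h2 : ∀ j, x j ≤ η ^ 2 ^ j * M) : x 0 ≤ η * β := by
  by_contra hc
  rw [not_le] at hc
  have p0 : 0 < x 0 := (mul_nonneg hη hβ).trans_lt hc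
  have b0 : 0 < β := hβ.lt_of_ne fun e => by
    have := h1 0
    rw [← e, zero_mul] at this
    exact this.not_gt (pow_pos p0 2)
  have e0 : 0 < η := hη.lt_of_ne fun e => by
    have := h2 0
    rw [← e, pow_zero, pow_one, zero_mul] at this
    exact this.not_gt p0
  have h3 : ∀ j, β * (x 0 / β) ^ 2 ^ j ≤ x j := fun j => by
    induction j with
    | zero => rw [pow_zero, pow_one, mul_div_cancel₀ _ b0.ne']
    | succ j ih =>
      refine le_of_mul_le_mul_left (le_trans (le_of_eq ?_) ((pow_le_pow_left₀ (by positivity) ih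
        2).trans (h1 j))) b0
      rw [pow_succ, pow_mul]
      ring
  have h4 : 1 < x 0 / β / η := by
    rw [div_div, one_lt_div (by positivity), mul_comm]
    exact hc
  obtain ⟨j, hj⟩ := (((tendsto_pow_atTop_atTop_of_one_lt h4).comp
    (tendsto_pow_atTop_atTop_of_one_lt (one_lt_two (α := ℕ)))).eventually_gt_atTop (M / β)).exists
  have h5 := (h3 j).trans (h2 j)
  rw [Function.comp_apply, div_pow, div_lt_div_iff₀ b0 (by positivity)] at hj
  nlinarith

theorem rf_ax_ne {μ ν : Fin 4} (h : μ ≠ ν) (t : ℝ) : rf ν (ax μ t) = ax μ t := by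
  ext l
  by_cases e : l = ν
  · simp [e, h.symm]
  · exact rf_ne e _

theorem rf_add (μ : Fin 4) (u v : R4) : rf μ (u + v) = rf μ u + rf μ v := by
  ext l
  by_cases h : l = μ <;> simp [rf, h, add_comm]

theorem Net.Rep.col {μ ν : Fin 4} {H : Type} [NormedAddCommGroup H] [InnerProductSpace ℂ H]
    (r : N.Rep S μ H) (hS : N.St S) (hν : μ ≠ ν) {η : ℝ} (hη : 0 ≤ η) {col : ℕ → P} {n : ℕ → ℝ}
    (n0 : ∀ j, 0 ≤ n j) (hn : ∀ j, n (j + 1) = n j + n j)
    (c0 : col 0 ∈ N.loc {y | 0 < y μ ∧ y μ < n 0 ∧ y ν < 0})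
    (hr : ∀ j, col (j + 1) = N.τ (ax μ (n j)) (N.Θ μ (col j) * col j))
    (hb : ∀ j, ∃ v, ‖S (N.τ v (col j * N.Θ ν (col j)))‖ ≤ η ^ 2 ^ (j + 1)) {b : P}
    (h : b ∈ N.loc (Hs μ 0 ∩ Hs ν 0)) :
    ‖r.Ψ (col 0 * N.τ (ax μ (n 0)) b)‖ ≤ η * ‖r.Ψ b‖ := by
  obtain ⟨H', _, _, _, ⟨r'⟩⟩ := hS.exists_rep ν
  have hμ := N.mono h inter_subset_left
  have hc : ∀ j, col j ∈ N.loc {y | 0 < y μ ∧ y μ < n j ∧ y ν < 0} := fun j => by
    induction j with
    | zero => exact c0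
    | succ j ih =>
      rw [hr, hn]
      refine N.mono (N.τ_mem _ (N.mul (N.Θ_mem μ ih) ih (disjoint_left.2 fun y e e' => ?_)))
        fun y e => ?_
      · simp only [mem_ofPred_eq, rf_self] at e e'
        linarith [e.1, e'.1]
      · simp only [mem_ofPred_eq, mem_union, rf_self, rf_ne hν.symm, PiLp.sub_apply,
          PiLp.single_apply, if_true, if_neg hν.symm, sub_zero] at e ⊢
        rcases e with e | e <;> exact ⟨by linarith [e.1, e.2.1, n0 j],
          by linarith [e.1, e.2.1, n0 j], e.2.2⟩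
  have m1 : ∀ j, col j * N.τ (ax μ (n j)) b ∈ N.loc (Hs μ 0) := fun j => by
    have := Net.τ_hs (v := ax μ (n j)) (t' := n j) hμ (by simp)
    refine N.mono (N.mul (hc j) this (disjoint_left.2 fun y e e' => e.2.1.not_gt e')) ?_
    exact union_subset (fun _ e => e.1) fun _ e => (n0 j).trans_lt e
  have m2 : ∀ j, N.Θ μ b * N.τ (ax μ (n j)) b ∈ N.loc (Hs ν 0) := fun j => by
    refine N.mono (N.mul (N.Θ_mem μ h) (N.τ_mem _ h) (disjoint_left.2 fun y e e' => ?_))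
      (union_subset (fun y e => ?_) fun y e => ?_)
    · have e1 := e.1
      have e2 := e'.1
      simp only [Hs, mem_ofPred_eq, rf_self, PiLp.sub_apply, PiLp.single_apply, if_true] at e1 e2
      linarith [n0 j]
    · exact (show 0 < rf μ y ν from e.2).trans_eq (rf_ne hν.symm _)
    · simpa [Hs, hν.symm] using e.2
  have m3 : ∀ j, N.Θ ν (col j) ∈ N.loc (Hs ν 0) := fun j =>
    N.mono (N.Θ_mem ν (hc j)) fun y e => by simpa [Hs] using e.2.2
  have m4 : N.Θ ν b * b ∈ N.loc (Hs μ 0) := by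
    refine N.mono (N.mul (N.Θ_mem ν h) h (disjoint_left.2 fun y e e' => ?_))
      (union_subset (fun y e => ?_) inter_subset_left)
    · have e1 := e.2
      have e2 := e'.2
      simp only [Hs, mem_ofPred_eq, rf_self] at e1 e2
      linarith
    · exact (show 0 < rf ν y μ from e.1).trans_eq (rf_ne hν _)
  have key : ∀ j, ‖r.Ψ (col j * N.τ (ax μ (n j)) b)‖ ^ 2 ≤
      ‖S (N.Θ μ b * (col (j + 1) * N.τ (ax μ (n (j + 1))) b))‖ := fun j => by
    rw [← r.nq (m1 j), Net.nq, ← hS.ti (ax μ (n j)) (Net.rp_adm (m1 j) (m1 j))]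
    refine (Complex.re_le_norm _).trans_eq (congrArg (‖S ·‖) ?_)
    simp only [hr, hn, map_mul, N.Θ_τ, N.τ_τ, rf_ax, ax_add, add_neg_cancel, ax_zero, N.τ_zero]
    ring
  refine dbl_le (x := fun j => ‖r.Ψ (col j * N.τ (ax μ (n j)) b)‖)
    (M := √‖r.Ψ (N.Θ ν b * b)‖) (norm_nonneg _) hη (fun j => ?_) fun j => ?_
  · refine (key j).trans ?_
    rw [← r.inn hμ (m1 _)]
    exact norm_inner_le_norm _ _
  · have a1 : ‖r'.Ψ (N.Θ ν (col (j + 1)))‖ ≤ η ^ 2 ^ (j + 1) := by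
      refine le_of_sq_le_sq ?_ (by positivity)
      rw [← r'.nq (m3 _), Net.nq, N.Θ_Θ, ← pow_mul, ← pow_succ]
      obtain ⟨v, hv⟩ := hb (j + 1)
      have := Net.rp_adm (m3 (j + 1)) (m3 (j + 1))
      rw [N.Θ_Θ] at this
      exact (Complex.re_le_norm _).trans (hS.ti v this ▸ hv)
    have a2 : ‖r'.Ψ (N.Θ μ b * N.τ (ax μ (n (j + 1))) b)‖ ≤ ‖r.Ψ (N.Θ ν b * b)‖ := by
      refine le_of_sq_le_sq ?_ (norm_nonneg _)
      have e : N.Θ ν (N.Θ μ b * N.τ (ax μ (n (j + 1))) b) * (N.Θ μ b * N.τ (ax μ (n (j + 1))) b) =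
          N.Θ μ (N.Θ ν b * b) * N.τ (ax μ (n (j + 1))) (N.Θ ν b * b) := by
        simp only [map_mul, N.Θ_τ, rf_ax_ne hν, N.Θ_comm ν μ]
        ring
      rw [← r'.nq (m2 _), Net.nq, e, ← r.inn m4 (Net.τ_hs m4 (by simpa using n0 _)), sq]
      exact (Complex.re_le_norm _).trans ((norm_inner_le_norm _ _).trans
        (mul_le_mul_of_nonneg_left (r.le (by simpa using n0 _) m4) (norm_nonneg _)))
    refine le_of_sq_le_sq ((key j).trans ?_) (by positivity)
    rw [mul_left_comm, ← N.Θ_Θ ν (col (j + 1)), ← r'.inn (m3 _) (m2 _), mul_pow,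
      Real.sq_sqrt (norm_nonneg _), ← pow_mul, ← pow_succ]
    exact (norm_inner_le_norm _ _).trans (mul_le_mul a1 a2 (norm_nonneg _) (by positivity))

omit [Algebra ℂ P] in
theorem cells_two {μ ν : Fin 4} (hν : μ ≠ ν) (m : ℕ) :
    ∃ lo hi : Fin 4 → ℤ, (cells lo hi).card = m * 2 ∧ ∀ a : (Fin 4 → ℤ) → P,
      ∏ c ∈ cells lo hi, a c = (∏ i ∈ Finset.range m, a (Pi.single μ (-(i : ℤ)) + Pi.single ν 0)) *
        ∏ i ∈ Finset.range m, a (Pi.single μ (-(i : ℤ)) + Pi.single ν 1) := by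
  let φ : ℕ × ℕ → Fin 4 → ℤ := fun p => Pi.single μ (-(p.1 : ℤ)) + Pi.single ν (p.2 : ℤ)
  have h1 : ∀ p, φ p μ = -(p.1 : ℤ) := fun p => by simp [φ, hν]
  have h2 : ∀ p, φ p ν = p.2 := fun p => by simp [φ, hν.symm]
  have h3 : ∀ p l, l ≠ μ → l ≠ ν → φ p l = 0 := fun p l e e' => by simp [φ, e, e']
  have hφ : Function.Injective φ := fun p q e => by
    have e1 := h1 p
    have e2 := h2 p
    rw [e, h1] at e1
    rw [e, h2] at e2
    exact Prod.ext (by omega) (by omega)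
  have hc : cells (fun l => if l = μ then 1 - m else 0) (fun l => if l = ν then 2 else 1) =
      (Finset.range m ×ˢ Finset.range 2).image φ := by
    ext c
    simp only [Fintype.mem_piFinset, Finset.mem_Ico, Finset.mem_image, Finset.mem_product,
      Finset.mem_range]
    constructor
    · intro h
      have a1 := h μ
      have a2 := h ν
      rw [if_pos rfl, if_neg hν] at a1
      rw [if_neg hν.symm, if_pos rfl] at a2
      refine ⟨((-c μ).toNat, (c ν).toNat), ⟨by omega, by omega⟩, funext fun l => ?_⟩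
      by_cases e : l = μ
      · rw [e, h1]
        omega
      by_cases e' : l = ν
      · rw [e', h2]
        omega
      · have := h l
        rw [if_neg e, if_neg e'] at this
        rw [h3 _ _ e e']
        omega
    · rintro ⟨p, hp, rfl⟩ l
      by_cases e : l = μ
      · rw [e, h1, if_pos rfl, if_neg hν]
        omega
      by_cases e' : l = ν
      · rw [e', h2, if_neg hν.symm, if_pos rfl]
        omega
      · rw [h3 _ _ e e', if_neg e, if_neg e']
        omega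
  refine ⟨_, _, by rw [hc, Finset.card_image_of_injective _ hφ]; simp, fun a => ?_⟩
  rw [hc, Finset.prod_image hφ.injOn, Finset.prod_product, ← Finset.prod_mul_distrib]
  simp [Finset.prod_range_succ, φ]

/-- array bounds give operator bounds -/
theorem Net.qb_of_arr (hS : N.St S) {w η : ℝ} (hw : 0 < w) (hη : 0 ≤ η) (a : (Fin 4 → ℤ) → P)
    (ha : ∀ c, a c ∈ N.loc {y | ∀ l, c l * w < y l ∧ y l < (c l + 1) * w})
    (hΘ : ∀ μ c, N.Θ μ (a c) = a (Function.update c μ (-c μ - 1)))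
    (hτ : ∀ μ c, N.τ (ax μ (2 * w)) (a c) = a (c + Pi.single μ 2))
    (hb : ∀ lo hi : Fin 4 → ℤ, ‖S (∏ c ∈ cells lo hi, a c)‖ ≤ η ^ (cells lo hi).card) :
    N.QB S (a 0) (2 * w) η := by
  have a0 : a 0 ∈ N.loc {y | ∀ l, 0 < y l ∧ y l < w} := by simpa using ha 0
  refine .of_rep hS (N.mono a0 fun y hy l => abs_lt.2 ⟨by linarith [(hy l).1],
    by linarith [(hy l).2]⟩) (by linarith) hη fun μ H _ _ r b h => ?_
  obtain ⟨ν, hν⟩ := exists_ne μ
  replace hν := hν.symm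
  obtain ⟨g, hg⟩ : ∃ g : ℤ → ℤ → P, ∀ i k, g i k = a (Pi.single μ i + Pi.single ν k) :=
    ⟨_, fun _ _ => rfl⟩
  have g1 : ∀ i k, N.Θ μ (g i k) = g (-i - 1) k := fun i k => by
    rw [hg, hg, hΘ]
    congr 1
    funext l
    by_cases e : l = μ <;> simp [e, hν]
  have g2 : ∀ i k, N.Θ ν (g i k) = g i (-k - 1) := fun i k => by
    rw [hg, hg, hΘ]
    congr 1
    funext l
    by_cases e : l = ν <;> simp [e, hν.symm]
  have g3 : ∀ (s : ℕ) i k, N.τ (ax μ (s * (2 * w))) (g i k) = g (i + 2 * s) k := fun s i k => by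
    induction s with
    | zero => simp [N.τ_zero]
    | succ s ih =>
      rw [Nat.cast_succ, add_one_mul, add_comm, ← ax_add, ← N.τ_τ, ih, hg, hg, hτ, add_right_comm,
        ← Pi.single_add]
      congr 3
      push_cast
      ring
  have g4 : ∀ i k, N.τ (ax ν (2 * w)) (g i k) = g i (k + 2) := fun i k => by
    rw [hg, hg, hτ, add_assoc, ← Pi.single_add]
  obtain ⟨C, hC⟩ : ∃ C : ℕ → P, ∀ m : ℕ, C m = N.τ (ax μ ((m - 1) * w) + ax ν (-w))
    (∏ i ∈ Finset.range m, g (-i) 0) := ⟨_, fun _ => rfl⟩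
  have c1 : ∀ s : ℕ, C (s + 1 + (s + 1)) =
      N.τ (ax μ ((s + 1 : ℕ) * w)) (N.Θ μ (C (s + 1)) * C (s + 1)) := fun s => by
    have e : N.τ (ax μ (s * (2 * w))) (∏ i ∈ Finset.range (s + 1), g (-(s + 1 + i : ℕ)) 0) =
        N.Θ μ (∏ i ∈ Finset.range (s + 1), g (-i) 0) := by
      rw [map_prod, map_prod, ← Finset.prod_range_reflect]
      refine Finset.prod_congr rfl fun i hi => ?_
      rw [g3, g1]
      congr 1
      have := Finset.mem_range.1 hi
      omega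
    rw [hC, hC, Finset.prod_range_add, map_mul, map_mul, N.Θ_τ, ← e, N.τ_τ, N.τ_τ, N.τ_τ, mul_comm,
      rf_add, rf_ax, rf_ax_ne hν.symm]
    congr 1 <;> refine congrArg (fun v => N.τ v _) ?_ <;> ext l <;>
      simp only [PiLp.add_apply, PiLp.single_apply] <;> push_cast <;> split_ifs <;> ring
  have c2 : C 1 = N.τ (ax ν (-w)) (a 0) := by simp [hC, hg]
  let u : R4 := dg (2 * w) - ax ν w - ax μ w
  have u1 : ∀ l, 0 ≤ u l := fun l => by
    simp only [u, PiLp.sub_apply, dg_apply, PiLp.single_apply]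
    split_ifs <;> linarith
  have b1 : N.τ u b ∈ N.loc (Ot 0) := Net.τ_ot h fun l => by simpa using u1 l
  have key := r.col hS hν hη (col := fun j => C (2 ^ j)) (n := fun j => (2 ^ j : ℕ) * w)
    (fun j => by positivity) (fun j => by push_cast; ring) ?_ (fun j => ?_) (fun j => ?_)
    (b := N.τ u b) (N.mono b1 fun y e => ⟨e μ, e ν⟩)
  · simp only [pow_zero, c2, Nat.cast_one, one_mul] at key
    have e : N.τ (ax μ (2 * w)) (a 0 * N.τ (dg (2 * w)) b) = N.τ (ax μ (2 * w) + ax ν w)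
        (N.τ (ax ν (-w)) (a 0) * N.τ (ax μ w) (N.τ u b)) := by
      rw [← N.τ_τ _ (ax ν w), map_mul (N.τ (ax ν w)), N.τ_τ (ax ν w), N.τ_τ (ax μ w), N.τ_τ (ax ν w),
        ax_add, add_neg_cancel, ax_zero, N.τ_zero]
      rw [show ax ν w + (ax μ w + u) = dg (2 * w) by simp only [u]; abel_nf]
    rw [e]
    refine (r.le (by simp [hν, hw.le]) ?_).trans (key.trans (mul_le_mul_of_nonneg_left
      (r.le (u1 μ) (N.mono h (Ot.hs μ le_rfl))) hη))
    refine N.mono (N.mul (N.τ_mem _ a0) (Net.τ_hs (v := ax μ w) (t' := w)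
      (N.mono b1 (Ot.hs μ le_rfl)) (by simp)) (disjoint_left.2 fun y e e' => ?_))
      (union_subset (fun y e => ?_) fun _ e => hw.trans e)
    · have := (e μ).2
      simp only [PiLp.sub_apply, PiLp.single_apply, if_neg hν, sub_zero] at this
      exact this.not_gt e'
    · simpa [Hs, hν] using (e μ).1
  · simp only [pow_zero, c2, Nat.cast_one, one_mul]
    refine N.mono (N.τ_mem _ a0) fun y e => ?_
    have e1 := e μ
    have e2 := (e ν).2
    simp only [PiLp.sub_apply, PiLp.single_apply, if_neg hν, sub_zero, if_true] at e1 e2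
    exact ⟨e1.1, e1.2, by linarith⟩
  · obtain ⟨s, hs⟩ : ∃ s, 2 ^ j = s + 1 := Nat.exists_eq_add_one_of_ne_zero (by positivity)
    simp only [pow_succ, mul_two, hs, c1]
  · obtain ⟨lo, hi, h1, h2⟩ := cells_two (P := P) hν (2 ^ j)
    refine ⟨-(ax μ (((2 ^ j : ℕ) - 1) * w) + ax ν (-w)), ?_⟩
    rw [pow_succ, ← h1]
    refine le_trans (le_of_eq (congrArg (‖S ·‖) ?_)) (hb lo hi)
    simp only [h2, ← hg]
    rw [hC, map_mul, N.Θ_τ, N.τ_τ, N.τ_τ, neg_add_cancel, N.τ_zero, rf_add, rf_ax, rf_ax_ne hν,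
      show -(ax μ (((2 ^ j : ℕ) - 1) * w) + ax ν (-w)) + (ax μ (((2 ^ j : ℕ) - 1) * w) +
        ax ν (- -w)) = ax ν (2 * w) by
        ext l
        simp only [PiLp.add_apply, PiLp.neg_apply, PiLp.single_apply]
        split_ifs <;> ring]
    simp only [map_prod, g2, g4]
    rfl

end Pool.Agent.Lib.MP_7f377f_mp.Pur
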