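import Pool.Agent.Lib.MP_7f377f_mp.G.LgPI
import Pool.Agent.Lib.MP_7f377f_mp.G.PurQ

/-! Simultaneous purification of a net and of a subnet. -/

noncomputable section

namespace Pool.Agent.Lib.MP_7f377f_mp.Pur
variable [GD]

open Filter Topology Set ComplexConjugate YM7 Lg Lg.PI

set_option linter.unusedSectionVars false

theorem ext_cone {V : Type} [AddCommGroup V] [Module ℂ V] {C : Set V} {e : V} (he : e ∈ C)
    {f₀ : V →ₗ[ℂ] ℂ} (h1 : f₀ e = 1) (h2 : ∀ Z ∈ C, 0 ≤ (f₀ Z).re)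
    (hb : ∀ X, ∃ c : ℝ, ∀ f : V →ₗ[ℂ] ℂ, f e = 1 → (∀ Z ∈ C, 0 ≤ (f Z).re) → ‖f X‖ ≤ c) :
    ∃ f : V →ₗ[ℂ] ℂ, f e = 1 ∧ (∀ Z ∈ C, 0 ≤ (f Z).re) ∧ ∀ (W : V → ℂ) (c : ℝ),
      IsLinearMap ℂ W → (W e).im = 0 → (∀ Z ∈ C, |(W Z).re| ≤ c * (f Z).re) →
        ∀ X, W X = W e * f X := by
  let K : Set (V → ℂ) := {f | ((∀ X Y, f (X + Y) = f X + f Y) ∧
    ∀ (c : ℂ) X, f (c • X) = c • f X) ∧ f e = 1 ∧ ∀ Z ∈ C, 0 ≤ (f Z).re}
  choose c hc using hb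
  have h3 : IsCompact K := by
    refine (isCompact_univ_pi fun X => isCompact_closedBall (0 : ℂ) (c X)).of_isClosed_subset ?_
      fun f hf X _ => ?_
    · simp only [K, ofPred_and, ofPred_forall]
      refine ((isClosed_iInter fun _ => isClosed_iInter fun _ => ?_).inter
        (isClosed_iInter fun _ => isClosed_iInter fun _ => ?_)).inter (IsClosed.inter ?_ ?_)
      iterate 3 exact isClosed_eq (by fun_prop) (by fun_prop)
      iterate 2 refine isClosed_iInter fun _ => ?_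
      exact isClosed_le continuous_const (by fun_prop)
    · rw [mem_closedBall_zero_iff]
      exact hc X (IsLinearMap.mk' f ⟨hf.1.1, hf.1.2⟩) hf.2.1 hf.2.2
  obtain ⟨f, hf, h3⟩ := h3.extremePoints_nonempty ⟨f₀, ⟨fun X Y => by simp,
    fun c X => by simp⟩, h1, h2⟩
  refine ⟨IsLinearMap.mk' f ⟨hf.1.1, hf.1.2⟩, hf.2.1, hf.2.2, fun W c h4 h5 h6 X => ?_⟩
  simp only [IsLinearMap.mk'_apply] at h6 ⊢
  obtain ⟨w, hw⟩ : ∃ w : ℝ, W e = w := ⟨_, Complex.ext rfl (by simpa using h5)⟩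
  have h7 : |w| ≤ c := by simpa [hw, hf.2.1] using h6 e he
  have h8 : ∀ ε : ℝ, |ε| * c < 1 → 0 < 1 + ε * w ∧
      (fun X => (((1 + ε * w)⁻¹ : ℝ) : ℂ) * (f X + ε * W X)) ∈ K := fun ε hε => by
    have e4 : 0 < 1 + ε * w := by
      linarith [neg_abs_le (ε * w), abs_mul ε w, mul_le_mul_of_nonneg_left h7 (abs_nonneg ε)]
    refine ⟨e4, ⟨fun X Y => ?_, fun a X => ?_⟩, ?_, fun Z hZ => ?_⟩
    · simp only [hf.1.1, h4.1]
      ring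
    · simp only [hf.1.2, h4.2, smul_eq_mul]
      ring
    · simp only [hf.2.1, hw]
      exact_mod_cast inv_mul_cancel₀ e4.ne'
    · have e5 := h6 Z hZ
      have e6 := hf.2.2 Z hZ
      simp only [Complex.re_ofReal_mul, Complex.add_re]
      refine mul_nonneg (inv_pos.2 e4).le ?_
      nlinarith [neg_abs_le (ε * (W Z).re), abs_mul ε (W Z).re,
        mul_le_mul_of_nonneg_left e5 (abs_nonneg ε)]
  have c0 : 0 < c + 1 := by linarith [abs_nonneg w]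
  have h9 : |(c + 1)⁻¹| * c < 1 := by
    rw [abs_of_pos (inv_pos.2 c0), inv_mul_lt_iff₀ c0]
    linarith
  obtain ⟨ε, ε0, h9⟩ : ∃ ε : ℝ, ε ≠ 0 ∧ |ε| * c < 1 := ⟨_, (inv_pos.2 c0).ne', h9⟩
  obtain ⟨p1, p2⟩ := h8 ε h9
  obtain ⟨q1, q2⟩ := h8 (-ε) (by rwa [abs_neg])
  have := congrFun (h3 p2 q2 ⟨(1 + ε * w) / 2, (1 + -ε * w) / 2, by positivity, by positivity,
    by ring, funext fun X => ?_⟩) X
  · rw [Complex.ofReal_inv, inv_mul_eq_iff_eq_mul₀ (Complex.ofReal_ne_zero.2 p1.ne')] at this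
    refine mul_left_cancel₀ (Complex.ofReal_ne_zero.2 ε0) ?_
    rw [hw]
    push_cast at this
    linear_combination this
  · simp only [Pi.add_apply, Pi.smul_apply, Complex.real_smul, ← mul_assoc, ← Complex.ofReal_mul,
      div_mul_eq_mul_div, mul_inv_cancel₀ p1.ne', mul_inv_cancel₀ q1.ne']
    push_cast
    ring

variable {P P₀ : Type} [CommRing P] [Algebra ℂ P] [CommRing P₀] [Algebra ℂ P₀] {N : Net P}
  {N₀ : Net P₀} {S S' : P →ₗ[ℂ] ℂ} {ι : P₀ →ₐ[ℂ] P}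

namespace Net

/-- uniqueness of the vacuum -/
def Vac (N : Net P) (W : P →ₗ[ℂ] ℂ) : Prop := ∀ (H : Fin 4 → Type)
  [∀ ν, NormedAddCommGroup (H ν)] [∀ ν, InnerProductSpace ℂ (H ν)] [∀ ν, CompleteSpace (H ν)]
  (r : ∀ ν, N.Rep W ν (H ν)) (x : H 0),
    (∀ v : R4, 0 ≤ v 0 → (r 0).T v x = x) → x = inner ℂ ((r 0).Ψ 1) x • (r 0).Ψ 1

/-- the elements which are positive for all far boundary conditions -/
def cone (N : Net P) (S : P →ₗ[ℂ] ℂ) : Set P := {X | ∃ (μ : Fin 4) (m : ℕ) (Z : Fin m → P)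
  (s s' : Fin m → R4) (R : ℝ), (∀ j, Z j ∈ N.loc univ) ∧ (∀ B ∈ N.loc (Ot R),
    0 ≤ (∑ j, S (N.Θ μ (N.τ (s j) B) * Z j * N.τ (s' j) B)).re) ∧ ∑ j, Z j = X}

/-- a subnet -/
structure Emb (N₀ : Net P₀) (N : Net P) (ι : P₀ →ₐ[ℂ] P) : Prop where
  τ : ∀ v X, ι (N₀.τ v X) = N.τ v (ι X)
  Θ : ∀ μ X, ι (N₀.Θ μ X) = N.Θ μ (ι X)
  mem : ∀ {O X}, X ∈ N₀.loc O → ι X ∈ N.loc O

theorem dom_iff : N.Dom S S' ↔ ∀ X ∈ N.cone S, 0 ≤ (S' X).re :=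
  ⟨by
    rintro h _ ⟨μ, m, Z, s, s', R, a, b, rfl⟩
    exact map_sum S' Z _ ▸ h μ m Z s s' R a b,
  fun h μ m Z s s' R a b => map_sum S' Z _ ▸ h _ ⟨μ, m, Z, s, s', R, a, b, rfl⟩⟩

theorem cone_adm {X : P} (h : X ∈ N.cone S) : X ∈ N.loc univ := by
  obtain ⟨μ, m, Z, s, s', R, a, -, rfl⟩ := h
  exact Submodule.sum_mem _ fun j _ => a j

theorem St.one_cone (hS : N.St S) : 1 ∈ N.cone S :=
  ⟨0, 1, fun _ => 1, 0, 0, 0, fun _ => N.one _, fun B hB => by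
    simpa [N.τ_zero, nq] using hS.pos 0 (N.mono hB (Ot.hs 0 le_rfl)), by simp⟩

theorem Dom.refl : N.Dom S S := fun μ m Z s s' R _ hB => by simpa using hB 1 (N.one _)

theorem Emb.st (h : Emb N₀ N ι) (hS : N.St S) : N₀.St (S ∘ₗ ι.toLinearMap) where
  one := by simpa using hS.one
  ti v hX := by simpa [h.τ] using hS.ti v (h.mem hX)
  herm μ hX := by simpa [h.Θ] using hS.herm μ (h.mem hX)
  pos μ hX := by simpa [nq, h.Θ] using hS.pos μ (h.mem hX)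
  con μ hX hv := by simpa [nq, h.Θ, h.τ] using hS.con μ (h.mem hX) hv

theorem Emb.qb (h : Emb N₀ N ι) {X : P₀} {R c : ℝ} (hX : X ∈ N₀.loc (Bx R))
    (hQ : N.QB S (ι X) R c) : N₀.QB (S ∘ₗ ι.toLinearMap) X R c :=
  ⟨hX, hQ.2.1, hQ.2.2.1, fun μ b hb => by
    simpa [nq, h.Θ, h.τ] using hQ.2.2.2 μ _ (h.mem hb)⟩

theorem Emb.all (h : Emb N₀ N ι) (hS : N.St S) (hA : ∀ X ∈ N.loc univ, ∃ R c, N.QB S X R c) :
    ∀ X ∈ N₀.loc univ, ∃ R c, N₀.QB (S ∘ₗ ι.toLinearMap) X R c := fun X hX => by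
  obtain ⟨R, c, hQ⟩ := hA _ (h.mem hX)
  obtain ⟨R', a, b⟩ := ((box hX).and (eventually_ge_atTop R)).exists
  exact ⟨R', c, h.qb (N₀.mono a inter_subset_right) (hQ.mono hS b le_rfl)⟩

theorem Rep.ext {μ : Fin 4} {H : Type} [NormedAddCommGroup H] [InnerProductSpace ℂ H]
    (r : N.Rep S μ H) {x y : H}
    (e : ∀ X ∈ N.loc (Hs μ 0), inner ℂ (r.Ψ X) x = inner ℂ (r.Ψ X) y) : x = y :=
  ext_inner_left ℂ fun u => r.dense.induction_on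
    (p := fun u => inner ℂ u x = inner ℂ u y) u (isClosed_eq (by fun_prop) (by fun_prop))
    fun X => e X X.2

theorem Emb.iso (h : Emb N₀ N ι) {μ : Fin 4} {H H₀ : Type} [NormedAddCommGroup H]
    [InnerProductSpace ℂ H] [CompleteSpace H] [NormedAddCommGroup H₀] [InnerProductSpace ℂ H₀]
    (r : N.Rep S μ H) (r₀ : N₀.Rep (S ∘ₗ ι.toLinearMap) μ H₀) :
    ∃ J : H₀ →L[ℂ] H, ∀ X ∈ N₀.loc (Hs μ 0), J (r₀.Ψ X) = r.Ψ (ι X) := by
  let A := N₀.loc (Hs μ 0)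
  have h1 : ∀ x : A, ‖(r.Ψ ∘ₗ ι.toLinearMap ∘ₗ A.subtype) x‖ ≤ 1 * ‖(r₀.Ψ ∘ₗ A.subtype) x‖ :=
    fun x => by
      rw [one_mul, ← sq_le_sq₀ (norm_nonneg _) (norm_nonneg _)]
      exact ((r.nq (h.mem x.2)).symm.trans (by simp [nq, h.Θ])).trans_le (r₀.nq x.2).le
  exact ⟨(r.Ψ ∘ₗ ι.toLinearMap ∘ₗ A.subtype).extendOfNorm (r₀.Ψ ∘ₗ A.subtype), fun X hX =>
    LinearMap.extendOfNorm_eq r₀.dense ⟨1, h1⟩ ⟨X, hX⟩⟩

theorem Emb.cv (h : Emb N₀ N ι) {U X : P₀} {t : ℝ} (hX : N₀.Cv U t X) : N.Cv (ι U) t (ι X) := by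
  induction hX with
  | base v hv => exact h.τ v U ▸ .base v hv
  | mid _ _ e e' => rw [map_smul, map_add]; exact e.mid e'

variable {H : Fin 4 → Type} [∀ ν, NormedAddCommGroup (H ν)] [∀ ν, InnerProductSpace ℂ (H ν)]
  [∀ ν, CompleteSpace (H ν)] {r : ∀ ν, N.Rep S ν (H ν)} {Y : ℕ → P} {z : ∀ ν, H ν} {U : P}
  {R c : ℝ}

theorem Emb.avg (h : Emb N₀ N ι) {H₀ : Fin 4 → Type} [∀ ν, NormedAddCommGroup (H₀ ν)]
    [∀ ν, InnerProductSpace ℂ (H₀ ν)] [∀ ν, CompleteSpace (H₀ ν)] (r : ∀ ν, N.Rep S ν (H ν))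
    {r₀ : ∀ ν, N₀.Rep (S ∘ₗ ι.toLinearMap) ν (H₀ ν)} {Y : ℕ → P₀} {z : ∀ ν, H₀ ν} {U : P₀}
    (hY : Avg r₀ U R Y z) : ∃ z', Avg r (ι U) R (fun n => ι (Y n)) z' := by
  choose J hJ using fun ν => h.iso (r ν) (r₀ ν)
  refine ⟨fun ν => J ν (z ν), h.mem hY.box, fun n => h.cv (hY.hull n), fun s ν => ?_⟩
  refine (((J ν).continuous.tendsto _).comp (hY.lim s ν)).congr' ((hY.far s 0).mono fun n e => ?_)
  exact (hJ ν _ (N₀.mono e (Ot.hs ν le_rfl))).trans (congrArg _ (h.τ _ _))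

section
variable (h : Avg r U R Y z) (hS : N.St S) (hQ : N.QB S U R c) (hΘ : ∀ μ, N.Θ μ U = U)
  (hA : ∀ X ∈ N.loc univ, ∃ R c, N.QB S X R c)
include h hS hQ hΘ hA

theorem Avg.lim1 {Z : P} (hZ : Z ∈ N.loc univ) :
    Tendsto (fun n => S (Z * Y n)) atTop (𝓝 (WW S Y 1 Z)) := by
  simpa [N.τ_zero, WW] using h.limA hS hQ hΘ hA 0 _ (h.gd_tau 0) Z hZ

theorem Avg.inn1 {X : P} (hX : X ∈ N.loc (Hs 0 0)) :
    inner ℂ ((r 0).Ψ X) (z 0) = WW S Y 1 (N.Θ 0 X) :=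
  tendsto_nhds_unique_of_eventuallyEq (tendsto_const_nhds.inner (h.lim0 0))
    (h.lim1 hS hQ hΘ hA (Θ_adm 0 hX)) ((h.far0 0).mono fun _ e => (r 0).inn hX e)

theorem Avg.one1 : WW S Y 1 1 = S U := by
  rw [← h.vac hS 0, h.inn1 hS hQ hΘ hA (N.one _), map_one]

theorem Avg.lin1 : IsLinearMap ℂ fun X : N.loc univ => WW S Y 1 X :=
  have e1 := fun X : N.loc univ => h.lim1 hS hQ hΘ hA X.2
  ⟨fun X X' => tendsto_nhds_unique (e1 (X + X')) (by simpa [add_mul] using (e1 X).add (e1 X')),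
    fun a X => tendsto_nhds_unique (e1 (a • X)) (by simpa using (e1 X).const_mul a)⟩

theorem Avg.im1 : (WW S Y 1 1).im = 0 := by
  rw [h.one1 hS hQ hΘ hA, ← Complex.conj_eq_iff_im, ← hS.herm 0 (adm h.box), hΘ]

theorem Avg.tilt1 {S₀ : P →ₗ[ℂ] ℂ} (hD : N.Dom S₀ S) {X : P} (hX : X ∈ N.cone S₀) :
    |(WW S Y 1 X).re| ≤ c * (S X).re := by
  obtain ⟨μ, m, Z, s, s', R, a, b, rfl⟩ := hX
  have := map_sum (IsLinearMap.mk' _ (h.lin1 hS hQ hΘ hA)) (fun j => ⟨Z j, a j⟩) Finset.univ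
  simp only [IsLinearMap.mk'_apply, AddSubmonoidClass.coe_finsetSum] at this
  rw [this, map_sum]
  exact h.tilt hS hQ hΘ hA hD μ m Z s s' R a b

end

theorem vac_of (hS : N.St S) (hA : ∀ X ∈ N.loc univ, ∃ R c, N.QB S X R c)
    (h3 : ∀ (H : Fin 4 → Type) [∀ ν, NormedAddCommGroup (H ν)] [∀ ν, InnerProductSpace ℂ (H ν)]
      [∀ ν, CompleteSpace (H ν)] (r : ∀ ν, N.Rep S ν (H ν)) U R c Y z, Avg r U R Y z →
      N.QB S U R c → (∀ μ, N.Θ μ U = U) → ∀ X ∈ N.loc univ, WW S Y 1 X = WW S Y 1 1 * S X) :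
    N.Vac S := fun H _ _ _ r x hx => by
  have key := sym_induction (N := N) (p := fun X => ∀ᶠ t in atTop,
    inner ℂ ((r 0).Ψ (N.τ (ax 0 t) X)) x = conj (S X) * inner ℂ ((r 0).Ψ 1) x)
    (fun c X e => e.mono fun t e => by simp [e, mul_comm, mul_left_comm])
    (fun X Y e e' => (e.and e').mono fun t e => by simp [e.1, e.2, add_mul])
    (fun U hU hΘ => ?_) fun U hU μ e e' => ?_
  · refine (r 0).ext fun X hX => ?_
    obtain ⟨t, e1, e2⟩ := ((key X (adm hX)).and (eventually_ge_atTop 0)).exists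
    have e3 : 0 ≤ ax 0 t 0 := by simpa
    rw [← (r 0).act e3 hX, (r 0).adj hS e3, hx _ (by simpa)] at e1
    rw [e1, inner_smul_right, ← (r 0).vac hX, inner_conj_symm, mul_comm]
  · obtain ⟨R, c, hQ⟩ := hA U hU
    obtain ⟨Y, z, h⟩ := exists_avg r hQ.1 hQ.2.1
    have e5 : z 0 = S U • (r 0).Ψ 1 := (r 0).ext fun X hX => by
      rw [h.inn1 hS hQ hΘ hA hX, inner_smul_right, (r 0).inn hX (N.one _), mul_one,
        ← h.one1 hS hQ hΘ hA]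
      exact h3 H r U R c Y z h hQ hΘ _ (Θ_adm 0 hX)
    filter_upwards [eventually_ge_atTop R] with t ht
    rw [h.inner_inv hS hx (by simpa), e5, inner_smul_left]
  · obtain ⟨R, c, hQ⟩ := hA U hU
    obtain ⟨Y, z, h⟩ := exists_avg r hQ.1 hQ.2.1
    filter_upwards [eventually_ge_atTop R] with t ht
    rw [h.inner_inv hS hx (by simpa), ← h.vac hS 0, h.anti hS e e']
    simp

/-- one sided clustering -/
theorem Emb.fac (e : Emb N₀ N ι) (hV : N₀.Vac (S ∘ₗ ι.toLinearMap)) (h : Avg r U R Y z)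
    (hS : N.St S) (hQ : N.QB S U R c) (hΘ : ∀ μ, N.Θ μ U = U)
    (hA : ∀ X ∈ N.loc univ, ∃ R c, N.QB S X R c) {X : P₀} (hX : X ∈ N₀.loc univ) :
    WW S Y 1 (ι X) = S U * S (ι X) := by
  have hS₀ := e.st hS
  choose H₀ i1 i2 i3 r₀ using hS₀.exists_rep
  let r₀ := fun ν => (r₀ ν).some
  obtain ⟨J, hJ⟩ := e.iso (r 0) (r₀ 0)
  have e1 := hV H₀ r₀ (J.adjoint (z 0)) fun v hv => (r₀ 0).ext fun X hX => by
    have hw : 0 ≤ (-rf 0 v) 0 := by simpa using hv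
    have := (r₀ 0).adj hS₀ hw ((r₀ 0).Ψ X) (J.adjoint (z 0))
    rw [rf_neg, rf_rf, neg_neg] at this
    rw [← this, (r₀ 0).act hw hX, J.adjoint_inner_right, J.adjoint_inner_right, hJ _ hX,
      hJ _ (τ_hs hX (by simpa using hv)), e.τ, ← (r 0).act hw (e.mem hX), (r 0).adj hS hw,
      h.inv (by simpa using hv)]
  rw [J.adjoint_inner_right, hJ _ (N₀.one _), map_one, h.vac hS 0] at e1
  obtain ⟨R', b⟩ := (box hX).exists
  replace b := N₀.mono b inter_subset_right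
  have e2 : N₀.τ (ax 0 R') (N₀.Θ 0 X) ∈ N₀.loc (Hs 0 0) := τ_hs (bx_hs (Θ_bx b 0) 0) (by simp)
  have e3 := J.adjoint_inner_right ((r₀ 0).Ψ (N₀.τ (ax 0 R') (N₀.Θ 0 X))) (z 0)
  rw [e1, inner_smul_right, (r₀ 0).inn e2 (N₀.one _), mul_one, N₀.Θ_τ, N₀.Θ_Θ, hS₀.ti _ hX,
    hJ _ e2, e.τ, e.Θ] at e3
  refine tendsto_nhds_unique_of_eventuallyEq (h.lim1 hS hQ hΘ hA (e.mem hX))
    (e3 ▸ tendsto_const_nhds.inner (h.lim (-ax 0 R') 0)) ((h.far (-ax 0 R') 0).mono fun n a => ?_)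
  have := (r 0).shift (X := ι X) (Y := Y n) (v := ax 0 R') hS
  rw [neg_rf_ax] at this
  exact this (e.Θ 0 X ▸ e.τ _ _ ▸ e.mem e2) (N.mono a (Ot.hs 0 le_rfl))

end Net

open Net in
/-- a dominated functional with a unique vacuum whose restriction to the subnet is dominated on the
subnet, rotation invariant and has a unique vacuum -/
theorem pure2 {ι : Pol →ₐ[ℂ] P} (e : Emb net N ι) (hS : N.St S)
    (hA : ∀ X ∈ N.loc univ, ∃ R c, N.QB S X R c) (hR : Rot (S ∘ₗ ι.toLinearMap)) :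
    ∃ W : P →ₗ[ℂ] ℂ, W 1 = 1 ∧ N.Dom S W ∧ N.Vac W ∧
      net.Dom (S ∘ₗ ι.toLinearMap) (W ∘ₗ ι.toLinearMap) ∧ Vac (W ∘ₗ ι.toLinearMap) ∧
      Rot (W ∘ₗ ι.toLinearMap) := by
  let D : Set Pol := {Z | ∃ n, Dir n ∧ ∃ X ∈ net.loc univ, ∃ a : ℂ,
    a • Th (rn n) X - conj a • X = Z}
  let C : Set (N.loc univ) := {Z | Z.1 ∈ N.cone S ∨
    ∃ X, (X ∈ net.cone (S ∘ₗ ι.toLinearMap) ∨ X ∈ D) ∧ ι X = Z}
  have d1 : ∀ X, (X ∈ net.cone (S ∘ₗ ι.toLinearMap) ∨ X ∈ D) → X ∈ net.loc univ := by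
    rintro _ (h | ⟨n, -, X, hX, a, rfl⟩)
    · exact cone_adm h
    · exact Submodule.sub_mem _ (Submodule.smul_mem _ _ (Th_adm _ hX)) (Submodule.smul_mem _ _ hX)
  have d2 : ∀ {x y a : ℂ}, x = conj y → (a * x - conj a * y).re = 0 := by
    rintro _ y a rfl
    simp
  have h1 : ∀ f : N.loc univ →ₗ[ℂ] ℂ, f ⟨1, N.one _⟩ = 1 → (∀ Z ∈ C, 0 ≤ (f Z).re) →
      ∃ W : P →ₗ[ℂ] ℂ, (∀ X : N.loc univ, W X = f X) ∧ W 1 = 1 ∧ N.Dom S W ∧
        net.Dom (S ∘ₗ ι.toLinearMap) (W ∘ₗ ι.toLinearMap) ∧ ∀ X ∈ D, 0 ≤ (W (ι X)).re :=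
    fun f f1 f2 => by
      obtain ⟨W, a⟩ := f.exists_extend
      replace a : ∀ X : N.loc univ, W X = f X := fun X => LinearMap.congr_fun a X
      exact ⟨W, a, (a ⟨1, N.one _⟩).trans f1, dom_iff.2 fun X hX =>
        (f2 ⟨X, cone_adm hX⟩ (.inl hX)).trans_eq (congrArg _ (a _).symm), dom_iff.2 fun X hX =>
        (f2 ⟨ι X, e.mem (cone_adm hX)⟩ (.inr ⟨X, .inl hX, rfl⟩)).trans_eq
          (congrArg _ (a _).symm), fun X hX => (f2 ⟨ι X, e.mem (d1 X (.inr hX))⟩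
            (.inr ⟨X, .inr hX, rfl⟩)).trans_eq (congrArg _ (a _).symm)⟩
  obtain ⟨f, f1, f2, f3⟩ := ext_cone (C := C) (e := ⟨1, N.one _⟩) (.inl hS.one_cone)
    (f₀ := S ∘ₗ (N.loc univ).subtype) hS.one (by
      rintro Z (h | ⟨X, h | ⟨n, hn, X, hX, a, rfl⟩, h'⟩)
      · exact dom_iff.1 Dom.refl _ h
      · exact (dom_iff.1 Dom.refl _ h).trans_eq (congrArg (fun x => (S x).re) h')
      · refine (d2 (a := a) (hm_of_rot (e.st hS) hR hn.1 X hX)).ge.trans_eq ?_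
        simp [← h']) fun X => by
      obtain ⟨R, c, hQ⟩ := hA X X.2
      refine ⟨c, fun f f1 f2 => ?_⟩
      obtain ⟨W, a, w1, w2, -⟩ := h1 f f1 f2
      exact a X ▸ (w2.st hS w1).bound (w2.qb hQ)
  obtain ⟨W, a, w1, w2, w3, w4⟩ := h1 f f1 f2
  have hW := w2.st hS w1
  have hW₀ := e.st hW
  replace hA : ∀ X ∈ N.loc univ, ∃ R c, N.QB W X R c := fun X hX =>
    (hA X hX).imp fun _ e => e.imp fun _ => w2.qb
  have hA₀ := e.all hW hA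
  have hH : ∀ n ≠ 0, Hm (W ∘ₗ ι.toLinearMap) (rn n) := fun n =>
    hm_all hW₀ fun n hn X hX => eq_of_re fun c => by
      simpa [sub_eq_add_neg] using w4 _ ⟨n, hn, X, hX, c, rfl⟩
  have w5 : net.Vac (W ∘ₗ ι.toLinearMap) := vac_of hW₀ hA₀ fun H₀ _ _ _ r₀ U R c Y z h hQ hΘ X hX => by
    choose H i1 i2 i3 r using hW.exists_rep
    have hΘ' : ∀ μ, N.Θ μ (ι U) = ι U := fun μ => by rw [← e.Θ, hΘ]
    obtain ⟨R', c', hQ'⟩ := hA _ (e.mem (adm h.box))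
    obtain ⟨z', h'⟩ := e.avg (fun ν => (r ν).some) h
    replace h' : Avg (fun ν => (r ν).some) (ι U) R' (fun n => ι (Y n)) z' := ⟨hQ'.1, h'.2, h'.3⟩
    have e0 : ∀ X, WW W (fun n => ι (Y n)) 1 (ι X) = WW (W ∘ₗ ι.toLinearMap) Y 1 X := fun X => by
      simp [WW]
    have := f3 _ (max c c') (h'.lin1 hW hQ' hΘ' hA) (h'.im1 hW hQ' hΘ' hA) (by
      rintro Z (h0 | ⟨X, h0 | ⟨n, hn, X, hX, b, rfl⟩, h1⟩) <;> rw [← a]
      · exact (h'.tilt1 hW hQ' hΘ' hA w2 h0).trans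
          (mul_le_mul_of_nonneg_right (le_max_right _ _) (dom_iff.1 w2 _ h0))
      · rw [← h1, e0]
        exact (h.tilt1 hW₀ hQ hΘ hA₀ w3 h0).trans
          (mul_le_mul_of_nonneg_right (le_max_left _ _) (dom_iff.1 w3 _ h0))
      · have g1 := gd_rn h hW₀ hH hn hΘ
        have g2 : WW (W ∘ₗ ι.toLinearMap) Y 1 (Th (rn n) X) =
            conj (WW (W ∘ₗ ι.toLinearMap) Y 1 X) := by
          refine tendsto_nhds_unique_of_eventuallyEq (h.lim1 hW₀ hQ hΘ hA₀ (Th_adm _ hX))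
            ((Complex.continuous_conj.tendsto _).comp (h.limA hW₀ hQ hΘ hA₀ 0 _ g1 X hX))
            ((g1.adm hX).mono fun k e => ?_)
          have := hH n hn.1 _ e
          rwa [map_mul, Th_Th, rn_mul, Ro.act_one] at this
        have l := h.lin1 hW₀ hQ hΘ hA₀
        have g3 := (l.map_sub (b • ⟨_, Th_adm (rn n) hX⟩) (conj b • ⟨X, hX⟩)).trans
          (congrArg₂ _ (l.map_smul _ _) (l.map_smul _ _))
        rw [← h1, e0]
        refine le_trans (le_of_eq ?_) (mul_nonneg (le_max_of_le_left hQ.2.2.1)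
          (w4 _ ⟨n, hn, X, hX, b, rfl⟩))
        exact abs_eq_zero.2 ((congrArg Complex.re g3).trans (d2 g2))) ⟨ι X, e.mem hX⟩
    rw [← e0, ← e0, map_one]
    exact this.trans (congrArg _ (a _).symm)
  refine ⟨W, w1, w2, vac_of hW hA fun H _ _ _ r U R c Y z h hQ hΘ X hX => ?_, w3, w5,
    rot_iff.2 fun g hg => (rot_of hH g).elim (·.2) fun e => absurd (hg ▸ e.1) (by norm_num)⟩
  refine a ⟨X, hX⟩ ▸ f3 _ c (h.lin1 hW hQ hΘ hA) (h.im1 hW hQ hΘ hA) ?_ ⟨X, hX⟩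
  rintro Z (h0 | ⟨X, h0, h1⟩) <;> rw [← a]
  · exact h.tilt1 hW hQ hΘ hA w2 h0
  · have g1 := h.im1 hW hQ hΘ hA
    rw [h.one1 hW hQ hΘ hA] at g1
    have g2 : 0 ≤ (W (ι X)).re := h0.elim (dom_iff.1 w3 _) (w4 _)
    rw [← h1, e.fac w5 h hW hQ hΘ hA (d1 X h0), Complex.mul_re, g1, zero_mul, sub_zero, abs_mul,
      abs_of_nonneg g2]
    exact mul_le_mul_of_nonneg_right ((Complex.abs_re_le_norm _).trans (hW.bound hQ)) g2

end Pool.Agent.Lib.MP_7f377f_mp.Pur
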