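import Pool.Agent.Lib.MP_7f377f_mp.G.ZoD
import Pool.Agent.Lib.MP_7f377f_mp.G.PuX
import Pool.Agent.Lib.MP_7f377f_mp.YZ

/-! All gauge invariant local polynomials as fields: the interfaces of the final assembly. -/

noncomputable section

namespace Pool.Agent.Lib.MP_7f377f_mp.Zg
variable [Pool.Agent.Lib.MP_7f377f_mp.GD]
set_option linter.unusedSectionVars false

open MeasureTheory Filter Topology Set YM7 Pur Wm Lm Wv S3 Matrix Sw MvPolynomial Complex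
open Ro (Iso)
open YZ (Lab rho FF lag)

variable {V P : Type} [NormedAddCommGroup V] [NormedSpace ℝ V] [CommRing P] [Algebra ℂ P]
  (Φ : Fil V) (N : Net P) (x : V → (R4 → ℝ) → P) (S W : P →ₗ[ℂ] ℂ) (ρ : Iso →* V →ₗ[ℝ] V)
  (A : ℝ → V ≃ₗ[ℝ] V) (S₀ : Cor V)

/-- the action density at the origin -/
def dz (U : YZ.Cfg SU2 ℤ) : ℝ := ∑ i, ∑ j, if i < j then 2 - 2 * GD.re1 (U (0, i) *
  U (Pi.single i 1, j) * (U (Pi.single j 1, i))⁻¹ * (U (0, j))⁻¹) else 0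

/-- smeared lattice observables -/
def fld {n : ℕ} [NeZero n] (a : ℝ) (O : YZ.Cfg SU2 ℤ → ℝ) (f : R4 → ℝ) (U : Cfg n) : ℝ :=
  ∑ z : Fin 4 → ZMod n, a ^ 4 * f (WithLp.toLp 2 fun i => a * (z i).valMinAbs) * O (YZ.sh U z)

/-- the functional `S` is a continuum limit, `φ` is the action density -/
structure Lat [MeasurableSpace SU2] (h : Measure SU2) (φ : V) (n : ℕ → ℕ+) (a b : ℕ → ℝ)
    (O : ℕ → V →ₗ[ℝ] YZ.Cfg SU2 ℤ → ℝ) : Prop where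
  a0 : Tendsto a atTop (𝓝[>] 0)
  vol : Tendsto (fun j => a j * n j) atTop atTop
  cpl : Tendsto (fun j => b j / Real.log (a j)⁻¹) atTop (𝓝 (11 * GD.b0 / (48 * Real.pi ^ 2)))
  obs : ∀ c, ∃ R, ∀ j, YZ.Obs R fun U => (O j c U : ℂ)
  ph : ∀ j, ∃ m : ℝ, O j φ = fun U => (dz U - m) / a j ^ 4
  lim : ∀ k (c : Fin k → V) f, Adm f → Tendsto
    (fun j => ((∫ U, ∏ i, fld (a j) (O j (c i)) (f i) U ∂wilson h (b j) (n j) : ℝ) : ℂ)) atTop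
    (𝓝 (S (∏ i, x (c i) (f i))))

/-- the functional `W` is a limit of far insertions and has a unique vacuum -/
structure Pu : Prop where
  ins : ∃ (r : ℕ → ℕ) (B : ∀ j, Fin (r j) → P), (∀ (j : ℕ) i, B j i ∈ N.loc (Hs 0 j)) ∧
    ∀ Z ∈ N.loc univ, Tendsto (fun j => S (∑ i, N.Θ 0 (B j i) * (Z * B j i))) atTop (𝓝 (W Z))
  vac : N.Vac W
  q1 : Q1L N x W

/-- the action density `φ` and the unit `u` -/
structure Ph (φ u lg : V) : Prop where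
  af : ∃ γ : ℝ, γ ≠ 0 ∧ ∀ k (f : Fin k → R4 → ℝ), Adm f → Tendsto
    (fun t : ℝ => (Real.log t⁻¹ : ℂ) ^ k * W (∏ i, x φ fun y => f i (t⁻¹ • y))) (𝓝[>] 0)
    (𝓝 (γ ^ k * ∫ y : Fin k → R4, (∏ i, f i (y i)) * free y : ℝ))
  sg : Tendsto (fun t => (A t).symm ((11 * GD.b0 / (48 * Real.pi ^ 2) * Real.log t⁻¹) • φ)) (𝓝[>] 0)
    (𝓝 lg)
  mem : φ ∈ Φ.F 4
  unit : ∀ f, C1 univ f → ∀ Z ∈ N.loc (tsupport f)ᶜ, W (x u f * Z) = (∫ y, f y : ℝ) * W Z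

/-- the final normalisation of the fields -/
structure Fx (sc : ℝ → V →ₗ[ℝ] V) (T t0 : Fin 4 → Fin 4 → V) (β : ℝ) (φ u lg : V) (J : V ≃ₗ[ℝ] V)
    (M : ℝ → V ≃ₗ[ℝ] V) : Prop where
  up : Φ.Up 0 J ∧ Φ.Up 0 J.symm
  cov : RotL (fun c => x (J c)) W fun R => ρ R
  refl : ∀ μ c, J (ρ (rfL μ) c) = ρ (rfL μ) (J c)
  slow : Zo.Slow Φ ρ A sc J M
  jl : J lg = φ
  ml : ∀ t ∈ Ioo (0 : ℝ) 1, M t lg = (β * Real.log t⁻¹) • lg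
  mt : ∀ t ∈ Ioo (0 : ℝ) 1, ∀ μ ν, M t (t0 μ ν) = t0 μ ν
  jt : ∃ s s' γ : ℝ, ∀ μ ν, T μ ν = J (s • t0 μ ν) + if μ = ν then s' • φ + γ • u else 0

/-- multilinearity in the labels -/
def Ml : Prop := ∀ k f, Adm f → ∃ m : MultilinearMap ℝ (fun _ : Fin k => V) ℂ, ∀ c, S₀ k c f = m c

variable {d : ℕ}

/-- the complex multilinear extension -/
def ext (p : Fin 2 → Lab d →ₗ[ℝ] V) : YZ.Cor d := fun k c f =>
  ∑ s : Fin k → Fin 2, (∏ i, I ^ (s i : ℕ)) * S₀ k (fun i => p (s i) (c i)) f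

/-- the real labels `V` and the complex labels `L`; `p 0`, `p 1` are the real and imaginary parts
modulo the null ideal -/
structure Br (L : Subalgebra ℂ (Lab d)) (p : Fin 2 → Lab d →ₗ[ℝ] V) (inc : V →ₗ[ℝ] Lab d) (lg : V)
    (t0 : Fin 4 → Fin 4 → V) : Prop where
  mem : ∀ v, inc v ∈ L
  star : ∀ c ∈ L, map (starRingEnd ℂ) c ∈ L
  rho_mem : ∀ g, ∀ c ∈ L, rho g c ∈ L
  real : ∀ v, map (starRingEnd ℂ) (inc v) = inc v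
  p_inc : ∀ v, p 0 (inc v) = v ∧ p 1 (inc v) = 0
  p_I : ∀ c ∈ L, p 0 (I • c) = -p 1 c ∧ p 1 (I • c) = p 0 c
  p_star : ∀ c ∈ L, p 0 (map (starRingEnd ℂ) c) = p 0 c ∧ p 1 (map (starRingEnd ℂ) c) = -p 1 c
  nul : ∀ (g : Mat) (s : ℝ), gᵀ * g = s • 1 → ∀ c ∈ L, (∀ b, p b c = 0) →
    ∀ b, p b (rho (cm g) c) = 0
  rot : ∀ R v, rho (cm (mat R)) (inc v) = inc (ρ R v)
  hom : ∀ (l : ℂ) n v, rho (l • 1) (inc (Φ.π n v)) = l ^ n • inc (Φ.π n v)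
  gr : ∀ R n v, Φ.π n (ρ R v) = ρ R (Φ.π n v)
  deg : ∀ D, ∀ v ∈ Φ.F D, (inc v).weightedTotalDegree (fun q => q.1.1 + 2) ≤ D
  ml : Ml S₀
  free : ∀ k (c : Fin k → Lab d) f, (∀ i, c i ∈ L) → Adm f → YZ.free k c f = ext S₀ p k c f
  ilg : inc lg = lag
  it0 : ∀ μ ν, inc (t0 μ ν) = FF μ ν - if μ = ν then lag else 0
  rlg : ∀ R, ρ R lg = lg

/-- the statement -/
def Out {G : Type} [Group G] [TopologicalSpace G] [MeasurableSpace G] (h : Measure G) {m : ℕ}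
    (ρ : G →* unitaryGroup (Fin m) ℂ) (L : Subalgebra ℂ (Lab d)) (β : ℝ) : Prop :=
  ∃ (n : ℕ → ℕ+) (a b : ℕ → ℝ) (O : ℕ → Lab d → YZ.Cfg G ℤ → ℂ) (S W : YZ.Fp d →ₗ[ℂ] ℂ) (r : ℕ → ℕ)
    (B : ∀ j, Fin (r j) → YZ.Fp d) (T : YZ.Cor d) (M : ℝ → L ≃ₗ[ℂ] L),
    Tendsto a atTop (𝓝[>] 0) ∧ Tendsto (fun j => a j * n j) atTop atTop ∧
    Tendsto (fun j => b j / Real.log (a j)⁻¹) atTop (𝓝 β) ∧
    (∀ P ∈ L, ∃ R, ∀ j, YZ.Obs R (O j P)) ∧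
    (∀ j, ∃ m : ℝ, O j lag = fun U => ↑((YZ.dens ρ U - m) / a j ^ 4)) ∧
    (∀ (j : ℕ) i, B j i ∈ YZ.Loc L {y | j < y 0}) ∧
    (∀ Z ∈ YZ.Loc L univ,
      Tendsto (fun j => YZ.vev ρ h (b j) (n j) (a j) (O j) Z) atTop (𝓝 (S Z)) ∧
      Tendsto (fun j => S (YZ.ins (B j) Z)) atTop (𝓝 (W Z)) ∧
      ∀ᶠ j in atTop, YZ.ins (B j) Z ∈ YZ.Loc L univ) ∧
    (∀ k P f, T k P f = W (∏ i, X (P i, f i))) ∧
    YZ.Wightman L T ∧ YZ.AF L β T M ∧ YZ.Ope L T M ∧ YZ.Ward L T ∧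
    ∃ (f : Fin 4 → R4 → ℝ) (Y : Fin 4 → YZ.Fp d), YZ.Adm f ∧
      (∀ i j, i < j → ∀ x ∈ tsupport (f i), ∀ y ∈ tsupport (f j), x 0 < y 0) ∧
      (∀ i, Y i = X (lag, f i) - C (W (X (lag, f i)))) ∧ W (Y 0 * Y 1 * Y 2 * Y 3) ≠
        W (Y 0 * Y 1) * W (Y 2 * Y 3) + W (Y 0 * Y 2) * W (Y 1 * Y 3) +
          W (Y 0 * Y 3) * W (Y 1 * Y 2)

end Pool.Agent.Lib.MP_7f377f_mp.Zg
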