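import Pool.Agent.Lib.MP_7f377f_mp.G.ZfD

/-! The Fischer product of polynomials. -/

noncomputable section

namespace Pool.Agent.Lib.MP_7f377f_mp.Zf

open MvPolynomial

variable {σ τ K : Type} [CommRing K]

/-- the factorial of a multi-index -/
def fc (m : σ →₀ ℕ) : ℕ := m.prod fun _ n => n.factorial

theorem fc_pos (m : σ →₀ ℕ) : 0 < fc m := Finset.prod_pos fun _ _ => Nat.factorial_pos _

theorem fc_add (m : σ →₀ ℕ) (u : σ) : fc (m + Finsupp.single u 1) = fc m * (m u + 1) := by
  classical
  have e : ∀ n : σ →₀ ℕ, fc n = (n u).factorial * fc (n.erase u) := fun n => by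
    rw [fc, ← Finsupp.mul_prod_erase' n u _ fun _ => rfl]
    rfl
  rw [e, e m, Finsupp.erase_add, Finsupp.erase_single, add_zero, Finsupp.add_apply,
    Finsupp.single_eq_same, Nat.factorial_succ]
  ring

/-- the Fischer product -/
def fis : MvPolynomial σ K →ₗ[K] MvPolynomial σ K →ₗ[K] K :=
  (basisMonomials σ K).constr K fun m => (fc m : K) • lcoeff K m

theorem fis_mon (m : σ →₀ ℕ) (a : K) (Q : MvPolynomial σ K) :
    fis (monomial m a) Q = a * (fc m * coeff m Q) := by
  have := (basisMonomials σ K).constr_basis K (fun m => (fc m : K) • lcoeff K m) m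
  rw [coe_basisMonomials] at this
  rw [← mul_one a, ← smul_eq_mul, ← smul_monomial, map_smul, fis, this]
  simp

theorem fis_eq (P Q : MvPolynomial σ K) :
    fis P Q = ∑ m ∈ P.support, coeff m P * (fc m * coeff m Q) := by
  conv_lhs => rw [P.as_sum]
  simp only [map_sum, LinearMap.sum_apply, fis_mon]

theorem fis_symm (P Q : MvPolynomial σ K) : fis P Q = fis Q P := by
  classical
  induction P using MvPolynomial.induction_on' with
  | add p q hp hq => simp [hp, hq]
  | monomial m a =>
    induction Q using MvPolynomial.induction_on' with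
    | add p q hp hq => simp only [map_add, LinearMap.add_apply, hp, hq]
    | monomial n b =>
      rw [fis_mon, fis_mon, coeff_monomial, coeff_monomial]
      by_cases h : n = m
      · simp [h]; ring
      · simp [h, Ne.symm h]

theorem fis_C (a : K) (Q : MvPolynomial σ K) : fis (C a) Q = a * constantCoeff Q := by
  rw [C_apply, fis_mon]
  simp [fc, constantCoeff_eq]

theorem fis_X (u : σ) (P Q : MvPolynomial σ K) : fis (X u * P) Q = fis P (pderiv u Q) := by
  induction P using MvPolynomial.induction_on' with
  | add p q hp hq => simp [mul_add, hp, hq]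
  | monomial m a =>
    rw [X, monomial_mul, fis_mon, fis_mon, coeff_pderiv, add_comm, fc_add]
    push_cast
    ring

theorem fis_zero {P Q : MvPolynomial σ K} (h : ∀ m, coeff m P = 0 ∨ coeff m Q = 0) :
    fis P Q = 0 := by
  rw [fis_eq]
  exact Finset.sum_eq_zero fun m _ => by rcases h m with e | e <;> simp [e]

theorem fis_pos {P : MvPolynomial σ ℝ} (h : P ≠ 0) : 0 < fis P P := by
  rw [fis_eq]
  refine Finset.sum_pos (fun m hm => ?_) (support_nonempty.2 h)
  have := mul_self_pos.2 (mem_support_iff.1 hm)
  have := fc_pos m
  rw [mul_left_comm]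
  positivity

/-- adjoint linear substitutions -/
theorem fis_adj (φ : MvPolynomial σ K →ₐ[K] MvPolynomial τ K)
    (ψ : MvPolynomial τ K →ₐ[K] MvPolynomial σ K)
    (h1 : ∀ u, φ (X u) ∈ Submodule.span K (Set.range X))
    (h2 : ∀ v, ψ (X v) ∈ Submodule.span K (Set.range X))
    (h : ∀ u v, fis (φ (X u)) (X v) = fis (X u) (ψ (X v))) (P Q) :
    fis (φ P) Q = fis P (ψ Q) := by
  classical
  have k : ∀ l ∈ Submodule.span K (Set.range (X : τ → MvPolynomial τ K)), ∀ R Q,
      fis (l * R) Q = fis R (mkDerivation K (fun v => C (fis l (X v))) Q) := fun l hl => by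
    induction hl using Submodule.span_induction with
    | mem l hl =>
      obtain ⟨u, rfl⟩ := hl
      intro R Q
      rw [fis_X]
      congr 1
      refine DFunLike.congr_fun (derivation_ext fun v => ?_) Q
      rw [mkDerivation_X, ← mul_one (X u), fis_X, pderiv_X, ← C_1, fis_C]
      by_cases e : v = u <;> simp [e, Pi.single_apply]
    | zero =>
      intro R Q
      rw [show mkDerivation K (fun v => C (fis (0 : MvPolynomial τ K) (X v))) =
        (0 : Derivation K (MvPolynomial τ K) (MvPolynomial τ K)) from
          derivation_ext fun v => by simp [mkDerivation_X]]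
      simp
    | add a b _ _ ha hb =>
      intro R Q
      rw [add_mul, map_add, LinearMap.add_apply, ha, hb, ← map_add, ← Derivation.add_apply]
      congr 1
      exact DFunLike.congr_fun (derivation_ext fun v => by simp [mkDerivation_X]) Q
    | smul a b _ hb =>
      intro R Q
      rw [smul_mul_assoc, map_smul, LinearMap.smul_apply, hb, ← map_smul, ← Derivation.smul_apply]
      congr 1
      exact DFunLike.congr_fun (derivation_ext fun v => by simp [mkDerivation_X, ← smul_eq_C_mul, C_mul']) Q
  have d : ∀ u, ∀ l ∈ Submodule.span K (Set.range (X : σ → MvPolynomial σ K)),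
      pderiv u l = C (fis (X u) l) ∧ constantCoeff l = 0 := fun u l hl => by
    induction hl using Submodule.span_induction with
    | mem l hl =>
      obtain ⟨v, rfl⟩ := hl
      rw [← mul_one (X u), fis_X, pderiv_X, ← C_1, fis_C]
      by_cases e : v = u <;> simp [e, Pi.single_apply]
    | zero => simp
    | add a b _ _ ha hb => simp [ha, hb]
    | smul a b _ hb => simp [hb, C_mul']
  induction P using MvPolynomial.induction_on generalizing Q with
  | C a =>
    rw [algHom_C, algebraMap_eq, fis_C, fis_C]
    congr 1
    induction Q using MvPolynomial.induction_on with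
    | C b => simp
    | add p q hp hq => simp [hp, hq]
    | mul_X p v hp =>
      have : constantCoeff (ψ (X v)) = 0 := by
        have := h2 v
        generalize ψ (X v) = l at this
        induction this using Submodule.span_induction with
        | mem l hl => obtain ⟨v, rfl⟩ := hl; simp
        | zero => simp
        | add a b _ _ ha hb => simp [ha, hb]
        | smul a b _ hb => simp [hb]
      simp [this]
  | add p q hp hq => simp [hp, hq]
  | mul_X p u hp =>
    rw [map_mul, mul_comm, k _ (h1 u), hp, mul_comm, fis_X]
    congr 1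
    induction Q using MvPolynomial.induction_on with
    | C b => simp
    | add p q hp hq => simp [hp, hq]
    | mul_X q v hq =>
      simp only [Derivation.leibniz, smul_eq_mul, map_add, map_mul, hq, mkDerivation_X, algHom_C,
        algebraMap_eq, h u v, (d u _ (h2 v)).1]

end Pool.Agent.Lib.MP_7f377f_mp.Zf
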