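import Pool.Agent.Lib.MP_7f377f_mp.G.ZfN1
import Pool.Agent.Lib.MP_7f377f_mp.G.ZfF

/-! The free two point function is not degenerate modulo the null ideal. -/

noncomputable section

namespace Pool.Agent.Lib.MP_7f377f_mp.Zf

open MvPolynomial Filter Topology Matrix
open YZ (R4 Var pr alt)

variable {K : Type} [RCLike K] {d n : ℕ} {v : R4}

/-- jets of bounded order -/
abbrev Jn (n : ℕ) : Type := {I : Jx // I.1 ≤ n}

instance (n : ℕ) : Finite (Jn n) :=
  .of_surjective (fun I : Σ m : Fin (n + 1), Fin (m + 2) → Fin 4 =>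
    (⟨⟨I.1, I.2⟩, Nat.lt_succ_iff.1 I.1.2⟩ : Jn n)) fun I =>
      ⟨⟨⟨I.1.1, Nat.lt_succ_iff.2 I.2⟩, I.1.2⟩, rfl⟩

instance (n : ℕ) : Fintype (Jn n) := .ofFinite _

/-- the orthogonal projection onto the jets of solutions is a combination of propagators -/
theorem proj_ex (n : ℕ) (hv : v ≠ 0) : ∃ (P : Jn n → Jn n → ℝ) (t : Jn n → Jx →₀ ℝ),
    (∀ I J, P I J = P J I) ∧ (∀ I J, ∑ L, P I L * P J L = P I J) ∧
    (∀ d, ∀ ξ ∈ On d, ∀ I a, ∑ J, P I J * ξ (J, a) = ξ (I, a)) ∧
    ∀ I J : Jn n, ∑ L ∈ (t I).support, t I L * pr0 L J v = P I J := by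
  classical
  let W : Submodule ℝ (EuclideanSpace ℝ (Jn n)) :=
    .span ℝ (Set.range fun L : Jx => WithLp.toLp 2 fun J : Jn n => pr0 L J v)
  choose t ht using fun I : Jn n => Finsupp.mem_span_range_iff_exists_finsupp.1
    (W.starProjection_apply_mem (EuclideanSpace.single I 1))
  have h1 : ∀ x ∈ W, ∀ I, ∑ J, W.starProjection (EuclideanSpace.single I 1) J * x J = x I :=
    fun x hx I => by
      have := W.inner_starProjection_left_eq_right (EuclideanSpace.single I 1) x
      rw [Submodule.starProjection_eq_self_iff.2 hx, EuclideanSpace.inner_single_left,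
        PiLp.inner_apply] at this
      simpa [mul_comm] using this
  have h2 (I J : Jn n) : W.starProjection (EuclideanSpace.single I 1) J =
      W.starProjection (EuclideanSpace.single J 1) I := by
    simpa [EuclideanSpace.inner_single_left, EuclideanSpace.inner_single_right] using
      W.inner_starProjection_left_eq_right (EuclideanSpace.single I 1) (EuclideanSpace.single J 1)
  refine ⟨fun I J => W.starProjection (EuclideanSpace.single I 1) J, t, h2, fun I J =>
    (h1 _ (W.starProjection_apply_mem _) I).trans (h2 J I), fun d ξ hξ I a =>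
    h1 (WithLp.toLp 2 fun J : Jn n => ξ (J, a)) ?_ I, fun I J => ?_⟩
  · rw [← W.orthogonal_orthogonal, Submodule.mem_orthogonal]
    intro u hu
    have := one_null hv Finset.univ u (fun J : Jn n => J.1) (fun L => by
      have := (Submodule.mem_orthogonal' _ _).1 hu _ (Submodule.subset_span ⟨L, rfl⟩)
      simpa [PiLp.inner_apply, mul_comm] using this) hξ a
    simpa [PiLp.inner_apply, mul_comm] using this
  · simp [← ht I, Finsupp.sum]

theorem fis_XX {σ : Type} [DecidableEq σ] (a b : σ) :
    fis (X a) (X b : MvPolynomial σ K) = if a = b then 1 else 0 := by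
  rw [← mul_one (X a), fis_X, pderiv_X, ← C_1, fis_C]
  by_cases e : a = b <;> simp [e, Ne.symm]

theorem fis_conj {σ : Type} {R : MvPolynomial σ K} (h : R ≠ 0) :
    0 < RCLike.re (fis (map (starRingEnd K) R) R) := by
  rw [fis_symm, fis_eq, map_sum]
  refine Finset.sum_pos (fun m hm => ?_) (support_nonempty.2 h)
  have := norm_pos_iff.2 (mem_support_iff.1 hm)
  have := fc_pos m
  rw [coeff_map, mul_left_comm, RCLike.mul_conj]
  norm_cast
  positivity

theorem s_low : S_low K d := fun n v hv => by
  classical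
  obtain ⟨P, t, h1, h2, h3, h4⟩ := proj_ex n hv
  let τ : Lb d K →ₐ[K] Lb d K := aeval fun p => if h : p.1.1 ≤ n then
    ∑ L ∈ (t ⟨p.1, h⟩).support, (t ⟨p.1, h⟩ L : K) • X (L, p.2) else 0
  let π : MvPolynomial (Jn n × Fin d) K →ₐ[K] MvPolynomial (Jn n × Fin d) K :=
    aeval fun p => ∑ J, (P p.1 J : K) • X (J, p.2)
  let e : Jn n × Fin d → Var d := fun p => (p.1.1, p.2)
  have hτ (p) : τ (X (e p)) = ∑ L ∈ (t p.1).support, (t p.1 L : K) • X (L, p.2) := by
    simp only [τ, aeval_X, e, dif_pos p.1.2]
  have hπ (p) : π (X p) = ∑ J, (P p.1 J : K) • X (J, p.2) := aeval_X _ _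
  have hl (p) : π (X p) ∈ Lin _ K :=
    hπ p ▸ Submodule.sum_mem _ fun _ _ => Submodule.smul_mem _ _ (X_mem_Lin _)
  have key (A B : MvPolynomial (Jn n × Fin d) K) : Ek ![v, 0] (rename (Prod.mk 0) (τ (rename e A)) *
      rename (Prod.mk 1 ∘ e) B) = fis A (π B) := by
    induction A using MvPolynomial.induction_on generalizing B with
    | C a =>
      rw [rename_C, algHom_C, algebraMap_eq, rename_C, ← smul_eq_C_mul, map_smul, Ek, E_rename,
        E_zero (by ext; simp [sy, kr]), fis_C, smul_eq_mul]
      exact congrArg _ (DFunLike.congr_fun (ringHom_ext (g := constantCoeff.comp π.toRingHom)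
        (fun a => by simp) fun p => by simp [hπ]) B)
    | add p q hp hq => simp only [map_add, add_mul, hp, hq, LinearMap.add_apply]
    | mul_X A u ih =>
      have k (q) : E (fun p q => kr K ![v, 0] p q / 2) (rename (Prod.mk 0) (τ (X (e u))) * X q) =
          ∑ L ∈ (t u.1).support, (t u.1 L : K) * kr K ![v, 0] (0, L, u.2) q := by
        simp only [hτ, map_sum, map_smul, rename_X, Finset.sum_mul, smul_mul_assoc, E_X_X, sy_kr,
          smul_eq_mul]
      rw [mul_comm A, map_mul (rename e), map_mul τ, map_mul (rename _), rename_X, mul_assoc, Ek,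
        E_lin_mul (rename_Lin _ (by
          rw [hτ]; exact Submodule.sum_mem _ fun _ _ => Submodule.smul_mem _ _ (X_mem_Lin _))),
        Derivation.leibniz, D_map (rename (Prod.mk 0)) (c' := 0) (fun q => by
          rw [rename_X, D_X, k]; simp [kr]),
        D_map (rename _) (c' := fun q => if u.2 = q.2 then (P u.1 q.1 : K) else 0) (fun q => by
          rw [rename_X, D_X, k]
          simp only [kr, Function.comp, cons_val_zero, cons_val_one, if_neg hv, e, pr_col, sub_zero]
          split_ifs
          · rw [← h4]; push_cast; rfl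
          · simp), show D (0 : Var d → K) = 0 from derivation_ext fun q => by simp, fis_X,
        ← D_single, D_map π (c' := fun q => if u.2 = q.2 then (P u.1 q.1 : K) else 0) fun q => by
          obtain ⟨I, a⟩ := u
          by_cases h : a = q.2 <;> simp [hπ, Pi.single_apply, h, h1 I, C_eq_smul_one, eq_comm (a := q.2)],
        ← ih]
      simp [Ek]
  refine ⟨τ, fun A c => DFunLike.congr_fun (algHom_ext (f := τ.comp (ad A))
    (g := (ad A).comp τ) fun p => ?_) c, fun c hc hn => ?_⟩
  · simp only [AlgHom.comp_apply, ad, aeval_X, map_sum, map_smul, τ]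
    split_ifs
    · simp only [map_sum, map_smul, aeval_X, Finset.smul_sum]
      rw [Finset.sum_comm]
      simp only [smul_comm (A _ _ : K)]
    · simp
  obtain ⟨B, rfl⟩ := exists_rename_eq_of_vars_subset_range c e
    (fun p q h => Prod.ext (Subtype.ext (Prod.ext_iff.1 h).1) (Prod.ext_iff.1 h).2)
    fun p hp => ⟨(⟨p.1, hc p hp⟩, p.2), rfl⟩
  have e1 : π (π B) = π B := DFunLike.congr_fun (algHom_ext (f := π.comp π) fun p => by
    simp only [AlgHom.comp_apply, hπ, map_sum, map_smul, Finset.smul_sum, smul_smul]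
    rw [Finset.sum_comm]
    refine Finset.sum_congr rfl fun J _ => ?_
    rw [← Finset.sum_smul, ← h2]
    simp only [h1 J]
    push_cast
    rfl) B
  have e2 : π (map (starRingEnd K) B) = map (starRingEnd K) (π B) :=
    DFunLike.congr_fun (ringHom_ext (f := π.toRingHom.comp (map (starRingEnd K)))
      (g := (MvPolynomial.map (starRingEnd K)).comp π.toRingHom) (fun a => by simp) fun p => by
        simp only [RingHom.comp_apply, AlgHom.toRingHom_eq_coe, RingHom.coe_coe, map_X, hπ, map_sum,
          smul_eq_C_mul, map_mul, map_C, RCLike.conj_ofReal]) B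
  have e3 : π B ≠ 0 := fun h => hn (mem_Nl.2 fun ξ hξ => by
    rw [← map_zero (eval fun p => (ξ (e p) : K)), ← h, eval_rename]
    exact DFunLike.congr_fun (ringHom_ext (g := (eval _).comp π.toRingHom) (fun a => by simp)
      fun p => by
        simp only [RingHom.comp_apply, AlgHom.toRingHom_eq_coe, RingHom.coe_coe, hπ, map_sum,
          smul_eval, eval_X, Function.comp, e]
        rw [← h3 d ξ hξ]; push_cast; rfl) B)
  rw [fp_eq, Rn, Fin.prod_univ_two, cons_val_zero, cons_val_one, cons_val_zero, rename_rename,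
    map_rename, key, ← e1, ← fis_adj π π hl hl (fun p q => by
      obtain ⟨I, a⟩ := p
      obtain ⟨J, b⟩ := q
      by_cases h : a = b <;> simp [hπ, fis_XX, h, h1 I]), e2]
  exact fis_conj e3

end Pool.Agent.Lib.MP_7f377f_mp.Zf
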