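import Pool.Agent.Lib.MP_7f377f_mp.G.ZfE
import Pool.Agent.Lib.MP_7f377f_mp.G.ZfN

/-! The smeared free correlation functions. -/

noncomputable section

namespace Pool.Agent.Lib.MP_7f377f_mp.Zf

open MvPolynomial Filter Topology Matrix MeasureTheory Function Set
open YZ (R4 Var pr Adm)
open scoped ContDiff

set_option linter.unusedSectionVars false

variable {K : Type} [RCLike K] {d k : ℕ} {ι κ : Type} [Fintype ι] [Fintype κ]
  {f : ι → R4 → ℝ}

/-- continuous functions with pairwise disjoint compact supports -/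
def Ad (f : ι → R4 → ℝ) : Prop := (∀ i, HasCompactSupport (f i) ∧ Continuous (f i)) ∧
  Pairwise fun i j => Disjoint (tsupport (f i)) (tsupport (f j))

theorem Ad.of {f : Fin k → R4 → ℝ} (h : Adm f) : Ad f :=
  ⟨fun i => ⟨(h.1 i).1, (h.1 i).2.continuous⟩, h.2⟩

theorem Ad.mono (h : Ad f) {g : ι → R4 → ℝ} (hg : ∀ i, Continuous (g i))
    (e : ∀ i, tsupport (g i) ⊆ tsupport (f i)) : Ad g :=
  ⟨fun i => ⟨(h.1 i).1.isCompact.of_isClosed_subset (isClosed_tsupport _) (e i), hg i⟩,
    fun i j a => (h.2 a).mono (e i) (e j)⟩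

theorem Ad.upd [DecidableEq ι] (h : Ad f) (i) {g : R4 → ℝ} (hg : Continuous g)
    (e : tsupport g ⊆ tsupport (f i)) : Ad (update f i g) :=
  h.mono (fun j => by by_cases a : j = i <;> simp [a, hg, (h.1 j).2])
    fun j => by by_cases a : j = i <;> simp [a, e]

theorem Ad.opt (h : Ad f) {g : R4 → ℝ} (hg : Continuous g) (hc : HasCompactSupport g)
    (e : ∀ i, Disjoint (tsupport g) (tsupport (f i))) : Ad fun i : Option ι => i.elim g f :=
  ⟨fun i => by cases i; exacts [⟨hc, hg⟩, h.1 _], fun i j a => by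
    rcases i with _ | i <;> rcases j with _ | j
    exacts [(a rfl).elim, e j, (e i).symm, h.2 fun b => a (congrArg _ b)]⟩

theorem Ad.inj (h : Ad f) {y : ι → R4} (hy : ∀ i, y i ∈ tsupport (f i)) : Injective y :=
  fun i j a => by_contra fun n => Set.disjoint_left.1 (h.2 n) (hy i) (a ▸ hy j)

theorem prod_supp (f : ι → R4 → ℝ) :
    tsupport (fun y : ι → R4 => ∏ i, (f i (y i) : K)) ⊆ univ.pi fun i => tsupport (f i) :=
  closure_minimal (fun y hy i _ => subset_tsupport _ fun z : f i (y i) = 0 =>
    hy (Finset.prod_eq_zero (Finset.mem_univ i) (by simp [z])))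
    (isClosed_set_pi fun _ _ => isClosed_tsupport _)

theorem Ad.int (h : Ad f) {F : (ι → R4) → K} (hF : ∀ y, Injective y → ContinuousAt F y) :
    Integrable fun y : ι → R4 => (∏ i, (f i (y i) : K)) * F y := by
  have c : Continuous fun y : ι → R4 => ∏ i, (f i (y i) : K) := continuous_finsetProd _ fun i _ =>
    RCLike.continuous_ofReal.comp ((h.1 i).2.comp (continuous_apply i))
  refine Continuous.integrable_of_hasCompactSupport (continuous_of_tsupport fun y hy =>
    c.continuousAt.mul (hF y (h.inj fun i => prod_supp f (tsupport_mul_subset_left hy) i trivial)))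
    (HasCompactSupport.mul_right ?_)
  exact (isCompact_univ_pi fun i => (h.1 i).1.isCompact).of_isClosed_subset (isClosed_tsupport _)
    (prod_supp f)

theorem fr_int (h : Ad f) (c : ι → Lb d K) :
    Integrable fun y : ι → R4 => (∏ i, (f i (y i) : K)) * fp c y :=
  h.int fun _ hy => (fp_smooth hy c).continuousAt

/-- multilinearity in the labels -/
def frm (h : Ad f) : MultilinearMap K (fun _ : ι => Lb d K) K where
  toFun c := fr c f
  map_update_add' c i a b := by
    rw [fr, fr, fr, ← integral_add (fr_int (K := K) h _) (fr_int (K := K) h _)]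
    simp only [← fm_apply, MultilinearMap.map_update_add, mul_add]
  map_update_smul' c i t a := by
    simp only [fr, ← fm_apply, MultilinearMap.map_update_smul, mul_smul_comm, integral_smul]

theorem frm_apply (h : Ad f) (c : ι → Lb d K) : frm h c = fr c f := rfl

theorem fr_null {c : ι → Lb d K} (i) (h : c i ∈ Nl d K) (f) : fr c f = 0 := by
  simp [fr, (s_null _ h).2.2.2.2.2.2 ι c _ i rfl]

theorem fr_real (c : ι → Lb d ℝ) (f) :
    fr (fun i => map (algebraMap ℝ ℂ) (c i)) f = (fr c f : ℝ) := by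
  simp only [fr, s_real ι c, ← integral_complex_ofReal]
  simp

theorem fr_map (e : κ ≃ ι) (T : R4 ≃ᵐ R4) (hT : MeasurePreserving T) {c : κ → Lb d K}
    {c' : ι → Lb d K} (h : ∀ y, fp c' (fun i => T (y (e.symm i))) = fp c y) (f) :
    fr c' f = fr c fun i y => f (e i) (T y) := by
  rw [fr, ← (volume_preserving_arrowCongr' e T hT).integral_comp']
  refine integral_congr_ae (.of_forall fun y => congrArg₂ _ ?_ (h y))
  rw [← e.prod_comp]
  exact Finset.prod_congr rfl fun i _ => by simp [MeasurableEquiv.arrowCongr']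

theorem fr_perm (e : κ ≃ ι) (c : ι → Lb d K) (f) : fr (c ∘ e) (f ∘ e) = fr c f := by
  classical
  refine (fr_map e (.refl _) (.id _) (fun y => ?_) f).symm
  simpa [comp_def] using ((s_alg ι fun i => y (e.symm i)).2.1 κ e c).symm

theorem fr_cons (b : Lb d K) (c : Fin k → Lb d K) (g : R4 → ℝ) (f : Fin k → R4 → ℝ) :
    fr (vecCons b c) (vecCons g f) = fr (fun i : Option (Fin k) => i.elim b c) fun i => i.elim g f := by
  rw [← fr_perm (finSuccEquiv k)]
  congr 1 <;> ext1 i <;> cases i using Fin.cases <;> simp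

theorem fr_shift (v : R4) (c : ι → Lb d K) (f) : fr c (fun i y => f i (y + v)) = fr c f :=
  (fr_map (.refl _) (.addRight v) (measurePreserving_add_right _ v)
    (fun y => (s_cov ι c y).1 v) f).symm

theorem fr_iso {g : Matrix (Fin 4) (Fin 4) ℝ} (Q : R4 ≃ₗᵢ[ℝ] R4) (hg : gᵀ * g = (1 : ℝ) • 1)
    (hQ : ∀ y, ac g y = Q y) (c : ι → Lb d K) (f) :
    fr (fun i => rh (g.map (↑)) (c i)) f = fr c fun i y => f i (Q y) :=
  fr_map (.refl _) Q.toHomeomorph.toMeasurableEquiv Q.measurePreserving
    (fun y => (by simpa only [hQ] using (s_cov ι c y).2.1 g 1 one_ne_zero hg :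
      fp _ (fun i => Q (y i)) = _)) f

theorem fr_scale {s : ℝ} (hs : 0 < s) (c : ι → Lb d K) (f : ι → R4 → ℝ) :
    fr (fun i => rh ((s : K) • 1) (c i)) (fun i y => f i (s⁻¹ • y)) =
      (s ^ 4) ^ Fintype.card ι * fr c f := by
  have := Measure.integral_comp_smul_of_nonneg volume (fun y : ι → R4 =>
    (∏ i, (f i (s⁻¹ • y i) : K)) * fp (fun i => rh ((s : K) • 1) (c i)) y) s (hR := hs.le)
  have e (y : ι → R4) : fp (fun i => rh ((s : K) • 1) (c i)) (s • y) = fp c y := by
    refine Eq.trans ?_ ((s_cov ι c y).2.1 (s • 1) (s * s) (by positivity) (by simp [smul_smul]))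
    congr 1
    · ext1 i; congr 2; ext i j; by_cases h : i = j <;> simp [h]
    · ext; simp [ac, smul_mulVec]
  simp only [e, Pi.smul_apply, inv_smul_smul₀ hs.ne', Module.finrank_pi_fintype,
    finrank_euclideanSpace_fin, Finset.sum_const, Finset.card_univ, smul_eq_mul,
    mul_comm _ 4, pow_mul] at this
  rw [fr, fr, this, RCLike.real_smul_eq_coe_mul]
  push_cast
  rw [mul_inv_cancel_left₀ (by simp [hs.ne'])]

theorem prod_upd [DecidableEq ι] (f : ι → R4 → ℝ) (i) (g : R4 → ℝ) (y : ι → R4) :
    ∏ j, (update f i g j (y j) : K) = g (y i) * ∏ j ∈ Finset.univ.erase i, (f j (y j) : K) := by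
  rw [← Finset.mul_prod_erase _ _ (Finset.mem_univ i), update_self]
  exact congrArg _ (Finset.prod_congr rfl fun j a => by rw [update_of_ne (Finset.ne_of_mem_erase a)])

theorem pd_c1 {g : R4 → ℝ} (h : ContDiff ℝ 1 g) (μ) : pd μ g = fun y => fderiv ℝ g y (ee μ) :=
  funext fun y => (h.differentiable one_ne_zero y).lineDeriv_eq_fderiv

theorem pd_cont {g : R4 → ℝ} (h : ContDiff ℝ 1 g) (μ) : Continuous (pd μ g) :=
  pd_c1 h μ ▸ (h.continuous_fderiv one_ne_zero).clm_apply continuous_const

theorem pd_supp {g : R4 → ℝ} (h : ContDiff ℝ 1 g) (μ) : tsupport (pd μ g) ⊆ tsupport g :=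
  pd_c1 h μ ▸ tsupport_fderiv_apply_subset ℝ _

/-- the derivative of a label -/
theorem fr_der [DecidableEq ι] (h : Ad f) (c : ι → Lb d K) (i) (hi : ContDiff ℝ 1 (f i)) (μ) :
    fr (update c i (Dv μ (c i))) f = -fr c (update f i (pd μ (f i))) := by
  have e (y : ι → R4) (t : ℝ) : y + t • (Pi.single i (ee μ) : ι → R4) =
      update y i (y i + EuclideanSpace.single μ t) := by
    ext1 j
    by_cases a : j = i <;> simp [a, single_eq μ t, ee]
  refine integral_bilinear_hasLineDerivAt_right_eq_neg_left_of_integrable (v := Pi.single i (ee μ))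
    (B := ContinuousLinearMap.mul ℝ K) (fr_int (h.upd i (pd_cont hi μ) (pd_supp hi μ)) c)
    (fr_int h _) (fr_int h c) (fun y _ => ?_) fun y hy => ?_
  · have := ((RCLike.ofRealCLM (K := K)).hasFDerivAt.comp_hasDerivAt _ (show HasDerivAt
      (fun t : ℝ => f i (y i + t • ee μ)) (pd μ (f i) (y i)) 0 from
      (hi.differentiable one_ne_zero (y i)).lineDifferentiableAt.hasLineDerivAt)).mul_const
      (∏ j ∈ Finset.univ.erase i, (f j (y j) : K))
    rw [prod_upd]
    refine HasDerivAt.congr_of_eventuallyEq this (.of_forall fun t => ?_)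
    simp only [← Finset.mul_prod_erase _ _ (Finset.mem_univ i)]
    exact congrArg₂ _ (by simp) (Finset.prod_congr rfl fun j a => by
      simp [Finset.ne_of_mem_erase a])
  · simp only [HasLineDerivAt, e]
    exact (s_der ι c y (h.inj fun j => prod_supp f hy j trivial)).2 i μ

theorem fr_opt {g : R4 → ℝ} (h : Ad fun i : Option ι => i.elim g f) (b : Lb d K) (c : ι → Lb d K) :
    (Integrable fun y : ι → R4 => (∏ i, (f i (y i) : K)) * ∫ z, g z *
      fp (fun i : Option ι => i.elim b c) fun i => i.elim z y) ∧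
    fr (fun i : Option ι => i.elim b c) (fun i => i.elim g f) = ∫ y : ι → R4,
      (∏ i, (f i (y i) : K)) * ∫ z, g z * fp (fun i : Option ι => i.elim b c) fun i => i.elim z y := by
  have m : MeasurePreserving (MeasurableEquiv.piOptionEquivProd fun _ : Option ι => R4).symm
      (Measure.prod volume volume) volume :=
    ⟨MeasurableEquiv.measurable _, Measure.pi_map_piOptionEquivProd fun _ => volume⟩
  have e (y : ι → R4) (z : R4) : (MeasurableEquiv.piOptionEquivProd fun _ : Option ι => R4).symm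
      (y, z) = fun i => i.elim z y := by ext1 i; cases i <;> rfl
  have i := m.integrable_comp_of_integrable (fr_int h fun i : Option ι => i.elim b c)
  have i' := i.integral_prod_left
  have i2 := integral_prod _ i
  simp only [comp_def] at i2
  rw [fr, ← m.integral_comp', i2]
  simp only [comp_def, e, Fintype.prod_option, Option.elim, mul_comm (g _ : K), mul_assoc,
    integral_const_mul] at i' ⊢
  exact ⟨i', trivial⟩

/-- the Ward identity -/
theorem fr_ward [DecidableEq ι] (h : Ad f) (c : ι → Lb d K) {ξ : R4 → ℝ} (e : ι → ℝ) (a : R4)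
    {w : Matrix (Fin 4) (Fin 4) ℝ} (hw : wᵀ = -w) (hξ : ContDiff ℝ ∞ ξ) (hc : HasCompactSupport ξ)
    (he : ∀ i, ∀ᶠ z in 𝓝ˢ (tsupport (f i)), ξ z = e i) :
    ∑ μ, ∑ ν, fr (fun i : Option ι => i.elim (t0 μ ν) c)
      (fun i => i.elim (fun z => (a + ac w z) ν * pd μ ξ z) f) =
    kap * ∑ i, e i * (∑ ν, fr (update c i (Dv ν (c i)))
      (update f i fun z => (a + ac w z) ν * f i z) + fr (update c i (Sp w (c i))) f) := by
  have h1 : ContDiff ℝ 1 ξ := hξ.of_le (by simp)
  have ck (ν) : Continuous fun z => (a + ac w z) ν := funext (kk_val a w ν) ▸ (sm _).continuous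
  have o (μ ν) : Ad fun i : Option ι => i.elim (fun z => (a + ac w z) ν * pd μ ξ z) f :=
    h.opt ((ck ν).mul (pd_cont h1 μ)) (HasCompactSupport.mul_left
      (hc.isCompact.of_isClosed_subset (isClosed_tsupport _) (pd_supp h1 μ))) fun i =>
      Set.disjoint_right.2 fun z hz => notMem_tsupport_iff_eventuallyEq.2
        ((eventually_nhdsSet_iff_forall.1 (he i) z hz).eventually_nhds.mono fun v hv => by
          simp [pd_c1 h1, EventuallyEq.fderiv_eq (f := fun _ => e i) hv])
  have u (i ν) : Ad (update f i fun z => (a + ac w z) ν * f i z) :=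
    h.upd i ((ck ν).mul (h.1 i).2) tsupport_mul_subset_right
  have i1 (μ ν) := (fr_opt (o μ ν) (t0 μ ν) c).1
  have i2 (i ν) := fr_int (u i ν) (update c i (Dv ν (c i)))
  have i3 (i) := integrable_finsetSum Finset.univ fun ν _ => i2 i ν
  have i4 (i) := fr_int h (update c i (Sp w (c i)))
  have a1 (μ) := integral_finsetSum Finset.univ fun ν _ => i1 μ ν
  have a2 (i) := integral_finsetSum Finset.univ fun ν _ => i2 i ν
  have a3 (i) := integral_add (i3 i) (i4 i)
  simp only [(fr_opt (o _ _) _ c).2, ← a1,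
    ← integral_finsetSum _ fun μ _ => integrable_finsetSum _ fun ν _ => i1 μ ν]
  simp only [fr, ← a2, ← a3, ← integral_const_mul (e _ : K)]
  rw [← integral_finsetSum _ fun i _ => ((i3 i).fun_add (i4 i)).const_mul _, ← integral_const_mul]
  refine integral_congr_ae (.of_forall fun y => ?_)
  simp only [prod_upd, ← Finset.mul_sum, RCLike.ofReal_mul, mul_assoc,
    Finset.mul_prod_erase _ (fun i => (f i (y i) : K)) (Finset.mem_univ _)]
  by_cases z : ∏ i, (f i (y i) : K) = 0
  · simp [z]
  have := ward c y e a hw hξ hc fun i => eventually_nhdsSet_iff_forall.1 (he i) _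
    (prod_supp f (subset_tsupport _ z) i trivial)
  simp only [RCLike.ofReal_mul, mul_assoc, mul_left_comm (pd _ ξ _ : K)] at this
  rw [this]
  simp only [← fm_apply, MultilinearMap.map_update_add, MultilinearMap.map_update_sum,
    MultilinearMap.map_update_smul, smul_eq_mul, Finset.mul_sum, mul_add, mul_left_comm (∏ _, _)]

end Pool.Agent.Lib.MP_7f377f_mp.Zf
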