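import Pool.Agent.Lib.MP_7f377f_mp.G.ZgB
import Pool.Agent.Lib.MP_7f377f_mp.G.ZfS

/-! The Ward identities and the scale invariance of the free theory on the space of labels. -/

noncomputable section

namespace Pool.Agent.Lib.MP_7f377f_mp.Zf

open MvPolynomial Matrix MeasureTheory Function
open YZ (R4 Var)

variable {K : Type} [RCLike K] {d : ℕ} {ι : Type} [Fintype ι]

theorem fr_smul (t : ι → K) (c : ι → Lb d K) (f) :
    fr (fun i => t i • c i) f = (∏ i, t i) * fr c f := by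
  classical
  simp only [fr, ← fm_apply, MultilinearMap.map_smul_univ, smul_eq_mul, mul_left_comm _ (∏ i, t i),
    integral_const_mul]

theorem fr_smul0 {k : ℕ} (t : K) (b : Lb d K) (c : Fin k → Lb d K) (f) :
    fr (vecCons (t • b) c) f = t * fr (vecCons b c) f := by
  have := fr_smul (vecCons t fun _ => 1) (vecCons b c) f
  rw [Fin.prod_univ_succ] at this
  refine Eq.trans (congrArg (fr · f) (funext fun i => ?_)) (this.trans (by simp))
  cases i using Fin.cases <;> simp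

theorem fp_mod {c c' : ι → Lb d K} (h : ∀ i, c i - c' i ∈ Nl d K) (y) : fp c y = fp c' y := by
  classical
  rw [← sub_add_cancel c c', ← fm_apply, MultilinearMap.map_add_univ, Finset.sum_eq_single ∅
    (fun s _ e => ?_) (by simp), Finset.piecewise_empty, fm_apply]
  obtain ⟨i, hi⟩ := Finset.nonempty_iff_ne_empty.2 e
  exact (fm_apply _ _).trans ((s_null _ (h i)).2.2.2.2.2.2 ι _ _ i (by simp [hi]))

theorem fr_mod {c c' : ι → Lb d K} (h : ∀ i, c i - c' i ∈ Nl d K) (f) : fr c f = fr c' f := by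
  simp only [fr, fp_mod h]

theorem fr_zero (c : ι → Lb d K) {f : ι → R4 → ℝ} (i) (h : f i = 0) : fr c f = 0 := by
  simp [fr, Finset.prod_eq_zero (f := fun j => ((f j _ : ℝ) : K)) (Finset.mem_univ i), h]

theorem fp_one [Unique ι] (c : ι → Lb d K) (y) : fp c y = constantCoeff (c default) := by
  rw [fp_eq, Ek, E_zero (by rw [sy_kr]; ext p q; simp [kr, Subsingleton.elim p.1 q.1])]
  simp [Rn]

/-- the derivative of the action of matrices -/
theorem rh_der {E : Type} [NormedAddCommGroup E] [NormedSpace ℝ E]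
    {g : ℝ → Matrix (Fin 4) (Fin 4) ℝ} {w : Matrix (Fin 4) (Fin 4) ℝ} (h0 : g 0 = 1)
    (h : ∀ i j, HasDerivAt (fun t => g t i j) (w i j) 0) (c : Lb d ℝ) (L : Lb d ℝ →ₗ[ℝ] E) :
    HasDerivAt (fun t => L (rh (g t) c)) (L (Sp w c)) 0 := by
  induction c using MvPolynomial.induction_on generalizing L with
  | C a => simpa using hasDerivAt_const (0 : ℝ) _
  | add p q a b => simpa using (a L).fun_add (b L)
  | mul_X c p a =>
    simp only [map_mul, rh_X, Finset.mul_sum, mul_smul_comm, map_sum, map_smul]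
    refine (HasDerivAt.fun_sum fun J _ => (HasDerivAt.fun_finsetProd fun r _ =>
      h (J r) (p.1.2 r)).fun_smul (a (L ∘ₗ LinearMap.mulRight ℝ _))).congr_deriv ?_
    have e (J : Fin (p.1.1 + 2) → Fin 4) (r) : (∏ s ∈ Finset.univ.erase r,
        (1 : Matrix _ _ ℝ) (J s) (p.1.2 s)) • w (J r) (p.1.2 r) =
        ∑ l, if J = update p.1.2 r l then w l (p.1.2 r) else 0 := by
      by_cases k : J = update p.1.2 r (J r)
      · rw [Finset.sum_eq_single (J r) (fun l _ b => if_neg fun e => b (by simp [e])) (by simp),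
          if_pos k, Finset.prod_eq_one fun s b => ?_, one_smul]
        rw [k, update_of_ne (Finset.ne_of_mem_erase b), one_apply_eq]
      · obtain ⟨s, b⟩ := ne_iff.1 k
        have n : s ≠ r := by rintro rfl; simp at b
        rw [Finset.prod_eq_zero (f := fun s => (1 : Matrix _ _ ℝ) (J s) (p.1.2 s)) (i := s)
          (by simp [n]) (one_apply_ne (by simpa [n] using b)),
          zero_smul, Finset.sum_eq_zero fun l _ => if_neg fun e => k (by simp [e])]
    have := congrArg (fun x => L (Sp w c * x)) (rh_one (X p)).symm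
    simp only [rh_X, Finset.mul_sum, mul_smul_comm, map_sum, map_smul] at this
    simp only [h0, rh_one, e, Finset.sum_add_distrib, Finset.sum_smul, LinearMap.comp_apply,
      LinearMap.mulRight_apply, ← this, Derivation.leibniz, Sp_X, smul_eq_mul, map_add,
      Finset.mul_sum, mul_smul_comm, map_sum, map_smul, mul_comm (X p), ite_smul, zero_smul]
    rw [add_comm, Finset.sum_comm, Finset.sum_congr rfl fun _ _ => Finset.sum_comm]
    simp

end Pool.Agent.Lib.MP_7f377f_mp.Zf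

namespace Pool.Agent.Lib.MP_7f377f_mp.Zg
variable [Pool.Agent.Lib.MP_7f377f_mp.GD]
set_option linter.unusedSectionVars false

open MeasureTheory MvPolynomial Filter Topology Set YM7 Pur Wm Lm Wv Matrix Sw Zf Function
open S3 (Ds)
open Ro (Iso rot)

variable {d : ℕ} {𝒜 : Set (Matrix (Fin d) (Fin d) ℝ)} [o : Og 𝒜]

theorem r0_up (R : Iso) : (fil 𝒜).Up 0 (r0 𝒜 R) := fun _ _ h =>
  Fd_up (L := (rh (mat R)).toLinearMap) (fun _ _ => hm_rh _) h

theorem r0_hd (l : Fin 3) (c : V0 𝒜) : HasDerivAt (fun θ => r0 𝒜 (rot l θ) c) (s0 𝒜 l c) 0 := by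
  obtain ⟨L, e⟩ := LinearMap.exists_extend (p := V0 𝒜) LinearMap.id
  have k (v : V0 𝒜) : L v = v := LinearMap.congr_fun e v
  have := rh_der (g := fun θ => mat (rot l θ)) (w := om l) ?_ (fun i j => ?_) c.1 (L ∘ₗ pj)
  · simp only [LinearMap.comp_apply, ← r0_val, pj_of (r0 𝒜 _ c).2.2, k] at this
    exact this.congr_deriv (k (s0 𝒜 l c))
  · exact act_ext fun y => by rw [act_mat, act_one]; exact Ro.rv_zero l y
  · change HasDerivAt (fun θ => Ro.rv l θ _ i) _ _
    have c := Real.hasDerivAt_cos 0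
    have s := Real.hasDerivAt_sin 0
    have := l.succ_ne_zero.symm
    simp only [Ro.rv, om]
    split_ifs
    all_goals first
      | exact hasDerivAt_const _ _
      | exact (((c.mul_const _).sub (s.mul_const _)).congr_deriv (by simp_all))
      | exact (((s.mul_const _).add (c.mul_const _)).congr_deriv (by simp_all))
      | simp_all

theorem om_t (l : Fin 3) : (om l)ᵀ = -om l := by
  ext i j
  fin_cases l <;> fin_cases i <;> fin_cases j <;> simp [om]

theorem ad2 {O : Set R4} {f f' : R4 → ℝ} (h : Ds univ f) (h' : Ds O f') (e : tsupport f ⊆ Oᶜ) :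
    Ad ![f, f'] := ⟨Fin.forall_fin_two.2 ⟨⟨h.2.1, h.1.continuous⟩, h'.2.1, h'.1.continuous⟩, by
  have : Disjoint (tsupport f) (tsupport f') := disjoint_compl_left.mono e h'.2.2
  intro i j
  fin_cases i <;> fin_cases j <;> simp [this, this.symm]⟩

theorem far0 {ξ f : R4 → ℝ} (h : Ds (tsupport ξ)ᶜ f) : ∀ᶠ z in 𝓝ˢ (tsupport f), ξ z = 0 :=
  mem_of_superset ((isClosed_tsupport ξ).isOpen_compl.mem_nhdsSet.2 h.2.2)
    fun _ => image_eq_zero_of_notMem_tsupport

theorem One.sub {ξ f : R4 → ℝ} (h : One ξ f) : tsupport f ⊆ (tsupport ξ)ᶜᶜ := fun z hz => by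
  simpa using subset_tsupport ξ (by simp [h.2.self_of_nhdsSet z hz])

theorem S0_cons (b : V0 𝒜) {k} (c : Fin k → V0 𝒜) (f) :
    S0 𝒜 (k + 1) (vecCons b c) f = (fr (vecCons b.1 fun i => (c i).1) f : ℝ) :=
  congrArg (fun c => ((fr c f : ℝ) : ℂ)) (funext fun i => by cases i using Fin.cases <;> rfl)

theorem S0_d0 (ν) (b : V0 𝒜) {k} (c : Fin k → V0 𝒜) (f) :
    S0 𝒜 (k + 1) (vecCons (d0 𝒜 ν b) c) f = (-fr (vecCons (Dv ν b.1) fun i => (c i).1) f : ℝ) := by
  rw [S0_cons, ← neg_one_mul (fr _ _), ← fr_smul0, fr_mod fun i => ?_]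
  cases i using Fin.cases
  · simpa [d0, p0_val, add_comm, sub_eq_add_neg] using sub_pj (Dv ν b.1)
  · simp

theorem S0_s0 (l) (b : V0 𝒜) {k} (c : Fin k → V0 𝒜) (f) :
    S0 𝒜 (k + 1) (vecCons (s0 𝒜 l b) c) f = (fr (vecCons (Sp (om l) b.1) fun i => (c i).1) f : ℝ) := by
  rw [S0_cons, ← fr_mod fun i => ?_]
  cases i using Fin.cases
  · exact sub_pj _
  · simp

theorem km_eq (w : Mat) (a : R4) (ν) (g) : km w a ν g = fun y => (a + ac w y) ν * g y := by
  ext y; rw [add_comm]; rfl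

theorem km_ax (ν α) (g) : km 0 (ax ν 1) α g = if α = ν then g else 0 := by
  ext y
  by_cases h : α = ν <;> simp [km, act, h]

/-- the normalised stress tensor -/
def T0 (𝒜 : Set (Matrix (Fin d) (Fin d) ℝ)) [Og 𝒜] (μ ν : Fin 4) : V0 𝒜 := -Zf.kap⁻¹ • tt 𝒜 μ ν

theorem wardk {w : Mat} (hw : wᵀ = -w) (a : R4) {k} (c : Fin k → V0 𝒜) {f : Fin k → R4 → ℝ}
    (h : Ad f) {ξ : R4 → ℝ} (hξ : Ds univ ξ) (e : Fin k → ℝ)
    (he : ∀ i, ∀ᶠ z in 𝓝ˢ (tsupport (f i)), ξ z = e i) :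
    ∑ μ, ∑ ν, S0 𝒜 (k + 1) (vecCons (T0 𝒜 μ ν) c) (vecCons (km w a ν (S3.pd μ ξ)) f) =
      (-∑ i, e i * (∑ ν, fr (update (fun i => (c i).1) i (Dv ν (c i).1))
        (update f i (km w a ν (f i))) + fr (update (fun i => (c i).1) i (Sp w (c i).1)) f) : ℝ) := by
  have := fr_ward h (fun i => (c i).1) e a hw hξ.1 hξ.2.1 he
  simp only [← fr_cons, ← km_eq, RCLike.ofReal_real_eq_id, id] at this
  simp only [S0_cons, T0, Submodule.coe_smul, tt_val, fr_smul0, ← Complex.ofReal_sum,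
    ← Finset.mul_sum]
  exact congrArg _ ((congrArg _ this).trans (by rw [neg_mul, inv_mul_cancel_left₀ kap_ne]))

theorem ward3 {w : Mat} (hw : wᵀ = -w) (a : R4) (c c' : V0 𝒜) {f f' ξ : R4 → ℝ} (h : Ds univ f)
    (h' : Ds (tsupport ξ)ᶜ f') (e : One ξ f) :
    ∑ μ, ∑ ν, S0 𝒜 3 ![T0 𝒜 μ ν, c, c'] ![km w a ν (S3.pd μ ξ), f, f'] =
      ∑ ν, S0 𝒜 2 ![d0 𝒜 ν c, c'] ![km w a ν f, f'] -
        (fr (vecCons (Sp w c.1) fun i => (![c'] i).1) ![f, f'] : ℝ) := by
  have u (b) : update (fun i => (![c, c'] i).1) 0 b = vecCons b fun i => (![c'] i).1 := by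
    ext1 i; fin_cases i <;> rfl
  have v (g) : update ![f, f'] 0 g = ![g, f'] := by ext1 i; fin_cases i <;> rfl
  rw [wardk hw a ![c, c'] (ad2 h h' (One.sub e)) e.1 ![1, 0] (Fin.forall_fin_two.2 ⟨e.2, far0 h'⟩)]
  simp [S0_d0, u, v, sub_eq_add_neg, add_comm]

theorem S0_ax {k} (c : Fin 4 → Fin (k + 1) → V0 𝒜) (ν g) (f : Fin k → R4 → ℝ) :
    ∑ α, S0 𝒜 (k + 1) (c α) (vecCons (km 0 (ax ν 1) α g) f) = S0 𝒜 (k + 1) (c ν) (vecCons g f) := by
  rw [Finset.sum_eq_single ν (fun α _ h => ?_) (by simp), km_ax, if_pos rfl]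
  rw [S0, fr_zero _ 0 (by simp [km_ax, h]), Complex.ofReal_zero]

theorem Sp_zero : (Sp 0 : Derivation ℝ (Lb d ℝ) _) = 0 := derivation_ext fun p => by simp [Sp_X]

theorem fr1 : Fr (fil 𝒜) (r0 𝒜) (S0 𝒜) (T0 𝒜) (d0 𝒜) (s0 𝒜) where
  up := r0_up
  gr := r0_gr
  der := r0_hd
  upδ ν _ _ h := neg_mem (pj_Fd (Fd_up (L := (Dv ν).toLinearMap) (hm_Dv ν) h))
  tr ν c c' f f' ξ h h' e := by
    have := ward3 (w := 0) (by simp) (ax ν 1) c c' h h' e
    simp only [S0_ax fun α => ![T0 𝒜 _ α, c, c'], S0_ax fun α => ![d0 𝒜 α c, c']] at this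
    rw [this, fr_null 0 (by simp [Sp_zero])]
    simp
  ro l c c' f f' ξ h h' e := by rw [ward3 (om_t l) 0 c c' h h' e, S0_s0]

theorem fr0 : ∃ κ : ℝ, κ ≠ 0 ∧
    Fr (fil 𝒜) (r0 𝒜) (S0 𝒜) (fun μ ν => κ • tt 𝒜 μ ν) (d0 𝒜) (s0 𝒜) :=
  ⟨_, neg_ne_zero.2 (inv_ne_zero kap_ne), fr1⟩

theorem sc0 : Zo.Sc (fil 𝒜) (S0 𝒜) (sc 𝒜) where
  pi D D' c := Subtype.ext (by
    rw [π_val, π_val, (hc_hm _ _).hc_eq]
    split_ifs with h
    · rw [h, π_val]
    · rfl)
  eq s hs D c := Subtype.ext (by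
    rw [sc_val, π_val, rh_smul (hc_hm _ _), smul_smul, zpow_sub₀ hs.ne', div_eq_inv_mul]
    norm_cast)
  inv s hs k c f _ := by
    have := fr_scale hs (fun i => (c i).1) f
    simp only [S0, sc_val, fr_smul]
    simp only [RCLike.ofReal_real_eq_id, id] at this
    simp [this, hs.ne']

end Pool.Agent.Lib.MP_7f377f_mp.Zg
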