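import Pool.Agent.Lib.MP_7f377f_mp.G.ZhK
import Pool.Agent.Lib.MP_7f377f_mp.G.ZhA0
import Pool.Agent.Lib.MP_7f377f_mp.G.Zo
import Pool.Agent.Lib.MP_7f377f_mp.G.ZgD

/-! Normalisation of the Lagrangian and of the stress tensor. -/

noncomputable section

namespace Pool.Agent.Lib.MP_7f377f_mp.Zg
variable [Pool.Agent.Lib.MP_7f377f_mp.GD]
set_option linter.unusedSectionVars false

open MeasureTheory MvPolynomial Filter Topology Set YM7 Pur Wm Lm Wv Matrix Sw Zf S3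
open Ro (Iso rot)
open YZ (Var)

theorem ratio {E ι : Type} [NormedAddCommGroup E] [InnerProductSpace ℝ E] {l : Filter ι} {v : ι → E}
    {w : E} {x : ι → ℝ} (h0 : w ≠ 0) (h : Tendsto v l (𝓝 w))
    (h' : Tendsto (fun t => x t • v t) l (𝓝 w)) : Tendsto x l (𝓝 1) := by
  have e : inner ℝ w w ≠ 0 := inner_self_ne_zero.2 h0
  have a := (tendsto_const_nhds (x := w)).inner (𝕜 := ℝ) h
  have := ((tendsto_const_nhds (x := w)).inner (𝕜 := ℝ) h').div a e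
  rw [div_self e] at this
  exact this.congr' ((a.eventually_ne e).mono fun t k => by simp [inner_smul_right, k])

theorem proj_comm {E : Type} [NormedAddCommGroup E] [InnerProductSpace ℝ E] {U : Submodule ℝ E}
    [U.HasOrthogonalProjection] {L L' : E →ₗ[ℝ] E} (h : ∀ x y, inner ℝ (L' x) y = inner ℝ x (L y))
    (h1 : ∀ a ∈ U, L a ∈ U) (h2 : ∀ a ∈ U, L' a ∈ U) (c : E) :
    U.starProjection (L c) = L (U.starProjection c) :=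
  Submodule.eq_starProjection_of_mem_of_inner_eq_zero (h1 _ (U.starProjection_apply_mem c))
    fun w hw => by
      rw [← map_sub, real_inner_comm, ← h]
      exact U.sub_starProjection_mem_orthogonal c _ (h2 w hw)

variable {d : ℕ} {𝒜 : Set (Matrix (Fin d) (Fin d) ℝ)} [o : Og 𝒜]

theorem fis_lg (μ ν : Fin 4) : fis (lg : Lb d ℝ) (ff μ ν) = if μ = ν then 2 * (d : ℝ) else 0 := by
  have k : ∀ p q r : Var d, fis (X p * X p : Lb d ℝ) (X q * X r) =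
      if q = r then if p = q then 2 else 0 else 0 := fun p q r => by
    rw [fis_X, Derivation.leibniz, pderiv_X, pderiv_X]
    by_cases a : p = q <;> by_cases b : p = r <;> by_cases c : q = r <;>
      simp_all [fis_XX, Pi.single_apply, eq_comm, one_add_one_eq_two]
  simp only [lg, ff, map_smul, map_sum, LinearMap.smul_apply, LinearMap.sum_apply, k]
  by_cases e : μ = ν
  · simp [e, Prod.ext_iff, ite_and]
    ring
  · simp [e]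

theorem tt_tr : ∑ μ, tt 𝒜 μ μ = 0 := by simp [tt, l0, ← Nat.cast_smul_eq_nsmul ℝ, smul_smul]

theorem π_hm {c : V0 𝒜} {D : ℕ} (h : Hm c.1 D) (n : ℕ) :
    (fil 𝒜).π n c = if n = D then c else 0 :=
  Subtype.ext ((h.hc_eq n).trans (by split_ifs <;> rfl))

theorem hm_l0 : Hm (l0 𝒜).1 4 := l0_val (𝒜 := 𝒜) ▸ hm_lg

theorem hm_tt (μ ν : Fin 4) : Hm (tt 𝒜 μ ν).1 4 := (hm_ff μ ν).sub (by
  split_ifs
  · exact hm_l0
  · exact isWeightedHomogeneous_zero _ _ _)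

theorem hm_u0 : Hm (u0 𝒜).1 0 := isWeightedHomogeneous_one _ _

theorem sc_hm {c : V0 𝒜} {D : ℕ} (h : Hm c.1 D) (t : ℝ) : sc 𝒜 t c = ((t ^ 4)⁻¹ * t ^ D) • c :=
  Subtype.ext ((congrArg _ (rh_smul h t)).trans (smul_smul _ _ _))

theorem gr_sc {M : V0 𝒜 →ₗ[ℝ] V0 𝒜} (h : ∀ D c, M ((fil 𝒜).π D c) = (fil 𝒜).π D (M c)) (t : ℝ)
    (c : V0 𝒜) : M (sc 𝒜 t c) = sc 𝒜 t (M c) := by
  obtain ⟨D, hD⟩ := (fil 𝒜).ex c
  have e : ∀ n c, sc 𝒜 t ((fil 𝒜).π n c) = _ := fun n c => sc_hm (hc_hm n c.1) t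
  rw [← (fil 𝒜).π_sum hD]
  simp only [map_sum, e, map_smul, h]

theorem gr_up {M : V0 𝒜 → V0 𝒜} (h0 : M 0 = 0) (h : ∀ D c, M ((fil 𝒜).π D c) = (fil 𝒜).π D (M c)) :
    (fil 𝒜).Up 0 M := fun D c hc => mem_Fd'.2 fun n e => by
  exact congrArg Subtype.val ((h n c).symm.trans (by rw [(fil 𝒜).π_zero hc e, h0]))

variable (𝒜)

/-- the coefficient of the Lagrangian -/
def el : V0 𝒜 →L[ℝ] ℝ := (2 * (d : ℝ))⁻¹ • innerSL ℝ (l0 𝒜)

/-- the span of the stress tensor -/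
def Tt : Submodule ℝ (V0 𝒜) := .span ℝ (range fun p : Fin 4 × Fin 4 => tt 𝒜 p.1 p.2)

instance : FiniteDimensional ℝ (Tt 𝒜) := FiniteDimensional.span_of_finite ℝ (finite_range _)

/-- rescaling of the Lagrangian and of the stress tensor -/
def nn (a b e : ℝ) : V0 𝒜 →L[ℝ] V0 𝒜 := ContinuousLinearMap.id ℝ _ +
  (el 𝒜).smulRight ((a - 1) • l0 𝒜 + e • u0 𝒜) + (b - 1) • (Tt 𝒜).starProjection

variable {𝒜}

theorem el_eq (c : V0 𝒜) : el 𝒜 c = (2 * (d : ℝ))⁻¹ * fis lg c.1 := by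
  rw [← l0_val (𝒜 := 𝒜)]
  rfl

theorem el_f0 (μ ν : Fin 4) : el 𝒜 (f0 𝒜 μ ν) = if μ = ν then 1 else 0 := by
  have : (d : ℝ) ≠ 0 := Nat.cast_ne_zero.2 (by have := o.two; omega)
  rw [el_eq, f0, fis_lg]
  split_ifs
  · field_simp
  · simp

theorem el_l0 : el 𝒜 (l0 𝒜) = 1 := by simp [l0, el_f0]

theorem el_tt (μ ν : Fin 4) : el 𝒜 (tt 𝒜 μ ν) = 0 := by
  rw [tt, map_sub, el_f0]
  split_ifs <;> simp [el_l0]

theorem el_π (n : ℕ) (c : V0 𝒜) : el 𝒜 ((fil 𝒜).π n c) = if n = 4 then el 𝒜 c else 0 := by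
  rw [el_eq, π_val, ← fis_hc, hm_lg.hc_eq, el_eq]
  split_ifs <;> simp

theorem el_u0 : el 𝒜 (u0 𝒜) = 0 := by simpa [π_hm hm_u0] using el_π 0 (u0 𝒜)

theorem adj_r0 (R : Iso) (x y : V0 𝒜) : inner ℝ (r0 𝒜 R⁻¹ x) y = inner ℝ x (r0 𝒜 R y) := by
  have e : mat R⁻¹ = (mat R)ᵀ := by
    rw [← one_mul (mat R⁻¹), ← one_smul ℝ (1 : Mat), ← mat_o R, mul_assoc, ← mat_mul,
      mul_inv_cancel, mat_one, mul_one]
  exact (congrArg (fun g => fis (rh g x.1) y.1) e).trans (fis_rh _ _ _)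

theorem el_r0 (R : Iso) (c : V0 𝒜) : el 𝒜 (r0 𝒜 R c) = el 𝒜 c :=
  congrArg ((2 * (d : ℝ))⁻¹ * ·) ((adj_r0 R _ _).symm.trans (by rw [r0_l0]; rfl))

theorem tt_Tt (μ ν : Fin 4) : tt 𝒜 μ ν ∈ Tt 𝒜 := Submodule.subset_span ⟨(μ, ν), rfl⟩

theorem Tt_le {S : Submodule ℝ (V0 𝒜)} (h : ∀ μ ν, tt 𝒜 μ ν ∈ S) : Tt 𝒜 ≤ S :=
  Submodule.span_le.2 (by rintro _ ⟨p, rfl⟩; exact h _ _)

theorem Q_r0 (R : Iso) (c : V0 𝒜) :
    (Tt 𝒜).starProjection (r0 𝒜 R c) = r0 𝒜 R ((Tt 𝒜).starProjection c) := by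
  have k : ∀ R, ∀ a ∈ Tt 𝒜, r0 𝒜 R a ∈ Tt 𝒜 := fun R =>
    Tt_le (S := (Tt 𝒜).comap (r0 𝒜 R)) fun μ ν => by
      rw [Submodule.mem_comap, r0_tt]
      exact Submodule.sum_mem _ fun _ _ => Submodule.sum_mem _ fun _ _ =>
        Submodule.smul_mem _ _ (tt_Tt _ _)
  exact proj_comm (adj_r0 R) (k R) (k _) c

theorem Q_π (n : ℕ) (c : V0 𝒜) :
    (Tt 𝒜).starProjection ((fil 𝒜).π n c) = (fil 𝒜).π n ((Tt 𝒜).starProjection c) := by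
  have k : ∀ a ∈ Tt 𝒜, (fil 𝒜).π n a ∈ Tt 𝒜 := Tt_le (S := (Tt 𝒜).comap _) fun μ ν => by
    rw [Submodule.mem_comap, π_hm (hm_tt μ ν)]
    split_ifs <;> simp [tt_Tt]
  exact proj_comm (fun x y => fis_hc n x.1 y.1) k k c

theorem Q_hm (c : V0 𝒜) : Hm ((Tt 𝒜).starProjection c).1 4 :=
  Tt_le (S := (weightedHomogeneousSubmodule ℝ wt 4).comap (V0 𝒜).subtype) hm_tt
    ((Tt 𝒜).starProjection_apply_mem c)

theorem el_Q (c : V0 𝒜) : el 𝒜 ((Tt 𝒜).starProjection c) = 0 :=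
  Tt_le (S := (el 𝒜).ker) el_tt ((Tt 𝒜).starProjection_apply_mem c)

theorem Q_l0 : (Tt 𝒜).starProjection (l0 𝒜) = 0 := by
  have : (2 * (d : ℝ))⁻¹ ≠ 0 := by have := o.two; positivity
  refine (Submodule.starProjection_apply_eq_zero_iff _).2 fun u hu => ?_
  rw [real_inner_comm]
  exact (mul_eq_zero.1 (Tt_le (S := (el 𝒜).ker) el_tt hu)).resolve_left this

theorem Q_u0 : (Tt 𝒜).starProjection (u0 𝒜) = 0 := by
  simpa [π_hm hm_u0, π_hm (Q_hm _)] using Q_π 0 (u0 𝒜)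

theorem Q_tt (μ ν : Fin 4) : (Tt 𝒜).starProjection (tt 𝒜 μ ν) = tt 𝒜 μ ν :=
  Submodule.starProjection_eq_self_iff.2 (tt_Tt μ ν)

theorem nn_eq (a b e : ℝ) (c : V0 𝒜) : nn 𝒜 a b e c =
    c + el 𝒜 c • ((a - 1) • l0 𝒜 + e • u0 𝒜) + (b - 1) • (Tt 𝒜).starProjection c := rfl

theorem nn_nn (a b e a' b' e' : ℝ) (c : V0 𝒜) :
    nn 𝒜 a b e (nn 𝒜 a' b' e' c) = nn 𝒜 (a * a') (b * b') (e' + a' * e) c := by
  simp only [nn_eq, map_add, map_smul, el_l0, el_u0, el_Q, Q_l0, Q_u0,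
    Submodule.starProjection_eq_self_iff.2 ((Tt 𝒜).starProjection_apply_mem c), smul_eq_mul]
  module

theorem nn_one (c : V0 𝒜) : nn 𝒜 1 1 0 c = c := by simp [nn_eq]

theorem nn_l0 (a b e : ℝ) : nn 𝒜 a b e (l0 𝒜) = a • l0 𝒜 + e • u0 𝒜 := by
  rw [nn_eq, el_l0, Q_l0]
  module

theorem nn_tt (a b e : ℝ) (μ ν : Fin 4) : nn 𝒜 a b e (tt 𝒜 μ ν) = b • tt 𝒜 μ ν := by
  rw [nn_eq, el_tt, Q_tt]
  module

theorem nn_r0 (a b e : ℝ) (R : Iso) (c : V0 𝒜) :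
    nn 𝒜 a b e (r0 𝒜 R c) = r0 𝒜 R (nn 𝒜 a b e c) := by
  simp only [nn_eq, map_add, map_smul, el_r0, Q_r0, r0_l0, r0_u0]

theorem nn_π (a b : ℝ) (n : ℕ) (c : V0 𝒜) :
    nn 𝒜 a b 0 ((fil 𝒜).π n c) = (fil 𝒜).π n (nn 𝒜 a b 0 c) := by
  simp only [nn_eq, map_add, map_smul, el_π, Q_π, π_hm hm_l0, zero_smul, add_zero]
  split_ifs <;> simp

theorem nn_up (a b e : ℝ) : (fil 𝒜).Up 0 (nn 𝒜 a b e) := fun D c h => by
  have := gr_up (map_zero _) (nn_π a b) D c h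
  have u : u0 𝒜 ∈ (fil 𝒜).F (D + 0) := (fil 𝒜).mono (Nat.zero_le _) (mem_F.2 hm_u0.mem)
  convert add_mem this (Submodule.smul_mem _ (el 𝒜 c * e) u) using 1
  simp only [nn_eq]
  module

theorem nn_lim {ι : Type} {l : Filter ι} {a b : ι → ℝ} {c : ι → V0 𝒜} {a₀ b₀ : ℝ} {c₀ : V0 𝒜} (e : ℝ)
    (ha : Tendsto a l (𝓝 a₀)) (hb : Tendsto b l (𝓝 b₀)) (hc : Tendsto c l (𝓝 c₀)) :
    Tendsto (fun t => nn 𝒜 (a t) (b t) e (c t)) l (𝓝 (nn 𝒜 a₀ b₀ e c₀)) :=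
  (hc.add ((((el 𝒜).continuous.tendsto _).comp hc).smul
    (((ha.sub_const 1).smul_const _).add_const _))).add
      ((hb.sub_const 1).smul (((Tt 𝒜).starProjection.continuous.tendsto _).comp hc))

/-- the rescaling as an equivalence -/
def nE {a b : ℝ} (ha : a ≠ 0) (hb : b ≠ 0) (e : ℝ) : V0 𝒜 ≃ₗ[ℝ] V0 𝒜 :=
  .ofLinear (nn 𝒜 a b e).toLinearMap (nn 𝒜 a⁻¹ b⁻¹ (-(e / a))).toLinearMap
    (LinearMap.ext fun c => by simp [nn_nn, ha, hb, div_eq_inv_mul, nn_one])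
    (LinearMap.ext fun c => by simp [nn_nn, ha, hb, mul_div_cancel₀, nn_one])

theorem nE_apply {a b : ℝ} (ha : a ≠ 0) (hb : b ≠ 0) (e : ℝ) (c : V0 𝒜) :
    nE ha hb e c = nn 𝒜 a b e c := by simp [nE]

theorem nE_symm {a b : ℝ} (ha : a ≠ 0) (hb : b ≠ 0) (e : ℝ) (c : V0 𝒜) :
    (nE ha hb e).symm c = nn 𝒜 a⁻¹ b⁻¹ (-(e / a)) c := by simp [nE]

theorem el_sc {t : ℝ} (h : t ≠ 0) (c : V0 𝒜) : el 𝒜 (sc 𝒜 t c) = el 𝒜 c := by
  have := fis_rh (t • 1) lg c.1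
  rw [rh_smul hm_lg, transpose_smul, transpose_one] at this
  rw [el_eq, el_eq, sc_val, map_smul, ← this]
  simp [h]

variable {P : Type} [CommRing P] [Algebra ℂ P] {x : V0 𝒜 → (R4 → ℝ) → P} {W : P →ₗ[ℂ] ℂ}
  {T : Fin 4 → Fin 4 → V0 𝒜} {A : ℝ → V0 𝒜 ≃ₗ[ℝ] V0 𝒜} {N : Net P}
  {D δ : Fin 4 → V0 𝒜 →ₗ[ℝ] V0 𝒜} {σ : Mat → V0 𝒜 →ₗ[ℝ] V0 𝒜}
  {J : V0 𝒜 ≃ₗ[ℝ] V0 𝒜} {X : ℝ → V0 𝒜 →ₗ[ℝ] V0 𝒜} {φ : V0 𝒜} {β κ : ℝ}

theorem fix (h : Rg (fil 𝒜) N x W (r0 𝒜) A (S0 𝒜)) (hb : Zo.Bdu x W A)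
    (hf : Fr (fil 𝒜) (r0 𝒜) (S0 𝒜) (fun μ ν => κ • tt 𝒜 μ ν) (d0 𝒜) (s0 𝒜)) (hκ : κ ≠ 0)
    (hc : Cu (fil 𝒜) N x W (r0 𝒜) T) (hw : Wt T A D δ σ fun μ ν => κ • tt 𝒜 μ ν)
    (ho : Sw.Out (fil 𝒜) x W (r0 𝒜) A (S0 𝒜) D δ σ (s0 𝒜) J X) (hβ : β ≠ 0)
    (p1 : φ ∈ (fil 𝒜).F 4) (p2 : ∀ l, r0 𝒜 (rfL l) φ = φ) (p3 : ∀ l, σ (om l) φ = 0)
    (p4 : Tendsto (fun t : ℝ => (A t).symm ((β * Real.log t⁻¹) • φ)) (𝓝[>] 0) (𝓝 (l0 𝒜))) :
    ∃ J M, Fx (fil 𝒜) x W (r0 𝒜) A (sc 𝒜) T (tt 𝒜) β φ (u0 𝒜) (l0 𝒜) J M := by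
  obtain ⟨M, m⟩ := Zo.slow h sc0 hb hf.gr ho.upJ ho.upX ho.lim ho.comm
  have z : ∀ c : V0 𝒜, c ∈ (fil 𝒜).F 0 → ∃ a : ℝ, c = a • u0 𝒜 := fun c e =>
    cl3 ((fil 𝒜).mono (by simp) e)
  have u : u0 𝒜 ∈ (fil 𝒜).F 0 := mem_F.2 hm_u0.mem
  have mi : ∀ t n c, (M t).symm ((fil 𝒜).π n c) = (fil 𝒜).π n ((M t).symm c) := fun t n c => by
    rw [LinearEquiv.symm_apply_eq, m.gr, LinearEquiv.apply_symm_apply]
  have mu := fun t => gr_up (map_zero (M t)) (m.gr t)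
  obtain ⟨s, a, b, e1⟩ := cl_tensor (τ := fun μ ν => J.symm (T μ ν))
    (fun μ ν => ho.upJ.2 4 _ (hc.mem μ ν)) (cov_tensor
      (fun l μ α => J.injective (by simp [← ho.gen, hw.ro]))
      (fun l μ ν => J.injective (by simp [ho.refl, hc.refl])) hf.der)
  obtain ⟨a', b', e2⟩ := cl_scalar (ho.upJ.2 4 _ p1) (cov_scalar
    (fun l => J.injective (by simp [← ho.gen, p3]))
    (fun l => J.injective (by simp [ho.refl, p2])) hf.der)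
  obtain ⟨γ, e3⟩ := z _ (ho.upJ.1 0 _ u)
  choose ν e4 using fun t => z _ (gr_up (map_zero (M t).symm) (mi t) 0 _ u)
  have k5 : ∀ t, ∃ a : ℝ, M t (l0 𝒜) = a • l0 𝒜 := fun t => by
    obtain ⟨a, b, e⟩ := cl_scalar (mu t 4 _ (mem_F.2 hm_l0.mem)) fun R => by rw [← m.comm, r0_l0]
    have := m.gr t 4 (l0 𝒜)
    rw [e] at this
    exact ⟨b, by simpa [π_hm hm_l0, π_hm hm_u0, e] using this⟩
  have k6 : ∀ t, ∃ a : ℝ, ∀ μ ν, M t (tt 𝒜 μ ν) = a • tt 𝒜 μ ν := fun t => by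
    obtain ⟨s, a, b, e⟩ := cl_tensor (τ := fun μ ν => M t (tt 𝒜 μ ν))
      (fun μ ν => mu t 4 _ (tt_mem μ ν)) fun R μ ν => by simp [← m.comm, r0_tt]
    generalize a • u0 𝒜 + b • l0 𝒜 = w at e
    have : ∑ μ, M t (tt 𝒜 μ μ) = 0 := by rw [← map_sum, tt_tr, map_zero]
    simp only [e, if_true, Finset.sum_add_distrib, ← Finset.smul_sum, tt_tr, smul_zero, zero_add,
      Finset.sum_const, Finset.card_univ, Fintype.card_fin, ← Nat.cast_smul_eq_nsmul ℝ] at this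
    exact ⟨s, fun μ ν => by simp [e, (smul_eq_zero.1 this).resolve_left (by simp)]⟩
  choose lam e5 using k5
  choose mu' e6 using k6
  have n5 : ∀ t, lam t ≠ 0 := fun t e => l0_ne ((M t).injective (by simp [e5, e]))
  have n6 : ∀ t, mu' t ≠ 0 := fun t e => tt_ne ((M t).injective (by simp [e6, e]))
  have pos : ∀ᶠ t : ℝ in 𝓝[>] 0, t ∈ Ioo (0 : ℝ) 1 := Ioo_mem_nhdsGT one_pos
  have s4 : ∀ᶠ t : ℝ in 𝓝[>] 0, ∀ c : V0 𝒜, Hm c.1 4 → sc 𝒜 t c = c := pos.mono fun t ht c e => by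
    rw [sc_hm e, inv_mul_cancel₀ (pow_ne_zero _ ht.1.ne'), one_smul]
  have U : ∀ {g : ℝ → ℝ}, Tendsto (fun t => t * g t) (𝓝[>] 0) (𝓝 0) →
      Tendsto (fun t => g t • (A t).symm (J (u0 𝒜))) (𝓝[>] 0) (𝓝 0) := fun {g} hg => by
    have i : Tendsto (fun t : ℝ => t) (𝓝[>] 0) (𝓝 0) := tendsto_nhdsWithin_of_tendsto_nhds tendsto_id
    have k : Tendsto (fun t => t * ν t) (𝓝[>] 0) (𝓝 0) := by
      have := (((coeff_cont 0).comp continuous_subtype_val).tendsto _).comp (m.slow 1 one_pos (u0 𝒜)).2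
      simp only [Function.comp_def, e4] at this
      simpa [u0] using this
    have := (((hg.mul k).mul i).mul i).smul (m.lim (u0 𝒜))
    simp only [mul_zero, zero_smul] at this
    refine this.congr' (pos.mono fun t ht => ?_)
    have e : u0 𝒜 = ν t • M t (u0 𝒜) := by rw [← map_smul, ← e4, LinearEquiv.apply_symm_apply]
    have := ht.1.ne'
    have e' : sc 𝒜 t (M t (u0 𝒜)) = (t ^ 4)⁻¹ • M t (u0 𝒜) :=
      (gr_sc (M := (M t).toLinearMap) (m.gr t) t _).symm.trans (by simp [sc_hm hm_u0])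
    conv_rhs => rw [e]
    simp only [e', map_smul, smul_smul]
    congr 1
    field_simp
  have l1 : Tendsto (fun t : ℝ => (β * Real.log t⁻¹ * b') • (A t).symm (J (l0 𝒜))) (𝓝[>] 0)
      (𝓝 (l0 𝒜)) := by
    have k : Tendsto (fun t : ℝ => t * (β * Real.log t⁻¹ * a')) (𝓝[>] 0) (𝓝 0) := by
      have := (tendsto_log_mul_rpow_nhdsGT_zero one_pos).const_mul (-β * a')
      simp only [mul_zero, Real.rpow_one] at this
      exact this.congr fun t => by rw [Real.log_inv]; ring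
    have := p4.sub (U k)
    rw [sub_zero] at this
    refine this.congr fun t => ?_
    rw [(J.symm_apply_eq.1 e2 :)]
    simp only [map_add, map_smul]
    module
  have l2 : Tendsto (fun t : ℝ => (s / κ) • (A t).symm (J (tt 𝒜 0 1))) (𝓝[>] 0) (𝓝 (tt 𝒜 0 1)) := by
    have := (hw.af 0 1).const_smul κ⁻¹
    rw [inv_smul_smul₀ hκ] at this
    refine this.congr fun t => ?_
    rw [(J.symm_apply_eq.1 (e1 0 1) :)]
    simp [smul_smul, div_eq_inv_mul]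
  have n1 : b' ≠ 0 := fun e => l0_ne (tendsto_nhds_unique l1 (by simp [e]))
  have n2 : s / κ ≠ 0 := fun e => tt_ne (tendsto_nhds_unique l2 (by simp [e]))
  classical
  let ξ : ℝ → ℝ := fun t => if t ∈ Ioo (0 : ℝ) 1 then β * Real.log t⁻¹ * b' / lam t else 1
  let η : ℝ → ℝ := fun t => s / κ / mu' t
  have n3 : ∀ t, ξ t ≠ 0 := fun t => by
    simp only [ξ]
    split_ifs with e
    · exact div_ne_zero (mul_ne_zero (mul_ne_zero hβ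
        (Real.log_pos ((one_lt_inv₀ e.1).2 e.2)).ne') n1) (n5 t)
    · exact one_ne_zero
  have n4 : ∀ t, η t ≠ 0 := fun t => div_ne_zero n2 (n6 t)
  have l3 : Tendsto ξ (𝓝[>] 0) (𝓝 1) := ratio l0_ne (m.lim _) (l1.congr' ((pos.and s4).mono
    fun t ht => by simp only [ξ, if_pos ht.1, e5, map_smul, ht.2 _ hm_l0, smul_smul,
      div_mul_cancel₀ _ (n5 t)]))
  have l4 : Tendsto η (𝓝[>] 0) (𝓝 1) := ratio tt_ne (m.lim _) (l2.congr' (s4.mono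
    fun t ht => by simp only [η, e6, map_smul, ht _ (hm_tt 0 1), smul_smul,
      div_mul_cancel₀ _ (n6 t)]))
  have sl : ∀ {L : ℝ → V0 𝒜 →ₗ[ℝ] V0 𝒜} {L₀ : V0 𝒜 →ₗ[ℝ] V0 𝒜},
      (∀ c, Tendsto (fun t => L t c) (𝓝[>] 0) (𝓝 (L₀ c))) → ∀ c,
      Tendsto (fun t => L t (nn 𝒜 (ξ t) (η t) 0 c)) (𝓝[>] 0) (𝓝 (L₀ c)) := fun hL c => by
    have := ((hL c).add (((l3.sub_const 1).const_mul (el 𝒜 c)).smul (hL (l0 𝒜)))).add
      ((l4.sub_const 1).smul (hL ((Tt 𝒜).starProjection c)))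
    simpa [nn_eq, smul_smul] using this
  have sl' := fun ε e => sl (L := fun t : ℝ => t ^ ε • (M t).toLinearMap) (L₀ := 0)
    fun c => (m.slow ε e c).1
  refine ⟨(nE n1 n2 a').trans J, fun t => (nE (n3 t) (n4 t) 0).trans ((M t).trans
    (nE (inv_ne_zero n1) (inv_ne_zero n2) 0)), ⟨fun D c e => ?_, fun D c e => ?_⟩,
    fun R hR k c f hf => ?_, fun μ c => ?_,
    ⟨fun t n c => ?_, fun t R c => ?_, fun c => ?_, fun ε e c => ⟨?_, ?_⟩⟩, ?_, fun t ht => ?_,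
    fun t _ μ ν => ?_, κ, b / b', (a - b / b' * a') * γ, fun μ ν => ?_⟩
  all_goals simp only [LinearEquiv.trans_apply, LinearEquiv.symm_trans_apply, nE_apply, nE_symm]
  · exact ho.upJ.1 D _ (nn_up _ _ _ D c e)
  · exact nn_up _ _ _ D _ (ho.upJ.2 D c e)
  · simpa only [nn_r0] using ho.cov R hR k (fun i => nn 𝒜 b' (s / κ) a' (c i)) f hf
  · rw [nn_r0, ho.refl]
  · rw [nn_π, m.gr, nn_π]
  · rw [nn_r0, m.comm, nn_r0]
  · have k := ((el 𝒜).continuous.tendsto _).comp (sl' 1 one_pos c)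
    have := (sl (L := fun t => (A t).symm.toLinearMap ∘ₗ J.toLinearMap ∘ₗ sc 𝒜 t ∘ₗ (M t).toLinearMap)
      (L₀ := .id) m.lim c).add ((U (g := fun t => el 𝒜 (M t (nn 𝒜 (ξ t) (η t) 0 c)))
        (by simpa [Function.comp_def] using k)).const_smul (b'⁻¹ * a'))
    simp only [smul_zero, add_zero, LinearMap.id_apply] at this
    refine this.congr' (pos.mono fun t ht => ?_)
    have e := gr_sc (M := (nn 𝒜 b'⁻¹ (s / κ)⁻¹ 0).toLinearMap) (nn_π _ _) t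
    simp only [ContinuousLinearMap.coe_coe] at e
    simp only [← e, nn_nn, mul_inv_cancel₀ n1, mul_inv_cancel₀ n2]
    rw [nn_eq 1, el_sc ht.1.ne']
    simp [smul_smul, mul_comm]
  · simpa [Function.comp_def] using
      ((nn 𝒜 b'⁻¹ (s / κ)⁻¹ 0).continuous.tendsto _).comp (sl' ε e c)
  · simpa using nn_lim 0 (l3.inv₀ one_ne_zero) (l4.inv₀ one_ne_zero) (m.slow ε e _).2
  · rw [nn_l0, add_comm, ← e2, LinearEquiv.apply_symm_apply]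
  · simp only [nn_l0, zero_smul, add_zero, map_smul, e5, smul_smul, ξ, if_pos ht]
    congr 1
    field_simp [n5 t]
  · simp only [nn_tt, map_smul, e6, smul_smul, η]
    rw [div_mul_cancel₀ _ (n6 t), mul_inv_cancel₀ n2, one_smul]
  · rw [(J.symm_apply_eq.1 (e1 μ ν) :), (J.symm_apply_eq.1 e2 :)]
    simp only [map_add, map_smul, nn_tt, apply_ite J, map_zero, e3, smul_smul,
      mul_div_cancel₀ _ hκ]
    split_ifs
    · match_scalars <;> field_simp <;> ring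
    · rfl

end Pool.Agent.Lib.MP_7f377f_mp.Zg
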