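import Pool.Agent.Lib.MP_7f377f_mp.G.AnD
import Pool.Agent.Lib.MP_7f377f_mp.G.ZhF

/-! The trace of the stress tensor: invariant functionals. -/

noncomputable section

namespace Pool.Agent.Lib.MP_7f377f_mp.An
variable [Pool.Agent.Lib.MP_7f377f_mp.GD]
set_option linter.unusedSectionVars false

open MeasureTheory Filter Topology Set YM7 Pur Wm Lm Wv S3 Sw Function Matrix Real
open Ro (Iso prm)
open scoped ContDiff NNReal

variable {V P : Type} [NormedAddCommGroup V] [NormedSpace ℝ V] [CommRing P] [Algebra ℂ P]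
  {Φ : Fil V} {N : Net P} {x : V → (R4 → ℝ) → P} {W : P →ₗ[ℂ] ℂ} {ρ : Iso →* V →ₗ[ℝ] V}
  {A : ℝ → V ≃ₗ[ℝ] V} {S : Cor V} {T : Fin 4 → Fin 4 → V} {D δ : Fin 4 → V →ₗ[ℝ] V}
  {σ : Mat → V →ₗ[ℝ] V} {φ u lg c : V} {f g ξ η v : R4 → ℝ}

theorem pair : ∃ f g, Ds univ f ∧ Ds (tsupport f)ᶜ g ∧ (∀ (R : Iso) y, f (R y) = f y ∧ g (R y) = g y) ∧
    kap ![f, g] ≠ 0 := by
  let f : R4 → ℝ := fun y => expNegInvGlue (1 - ‖y‖ ^ 2)
  let g : R4 → ℝ := fun y => expNegInvGlue (‖y‖ ^ 2 - 4) * expNegInvGlue (9 - ‖y‖ ^ 2)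
  have n2 : ContDiff ℝ ∞ fun y : R4 => ‖y‖ ^ 2 := contDiff_norm_sq ℝ
  have cf : ContDiff ℝ ∞ f := expNegInvGlue.contDiff.comp (contDiff_const.sub n2)
  have cg : ContDiff ℝ ∞ g := (expNegInvGlue.contDiff.comp (n2.sub contDiff_const)).mul
    (expNegInvGlue.contDiff.comp (contDiff_const.sub n2))
  have z : ∀ t, expNegInvGlue t ≠ 0 → 0 < t := fun t e =>
    not_le.1 fun u => e (expNegInvGlue.zero_of_nonpos u)
  have f1 : ∀ y, f y ≠ 0 → ‖y‖ ≤ 1 := fun y e => by nlinarith [z _ e, norm_nonneg y]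
  have g1 : ∀ y, g y ≠ 0 → 2 ≤ ‖y‖ ∧ ‖y‖ ≤ 3 := fun y e => by
    constructor <;> nlinarith [z _ (left_ne_zero_of_mul e), z _ (right_ne_zero_of_mul e), norm_nonneg y]
  have k : ∀ (u : R4 → ℝ) (r : ℝ), (∀ y, u y ≠ 0 → ‖y‖ ≤ r) → HasCompactSupport u := fun u r e =>
    .intro (isCompact_closedBall 0 r) fun y hy => by_contra fun v => hy (by simpa using e y v)
  have f2 : tsupport f ⊆ {y | ‖y‖ ≤ 1} := closure_minimal f1 (isClosed_le (by fun_prop) (by fun_prop))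
  have g2 : tsupport g ⊆ {y | 2 ≤ ‖y‖} :=
    closure_minimal (fun y e => (g1 y e).1) (isClosed_le (by fun_prop) (by fun_prop))
  refine ⟨f, g, ⟨cf, k f 1 f1, subset_univ _⟩, ⟨cg, k g 3 fun y e => (g1 y e).2, fun y e e' => by
    linarith [show ‖y‖ ≤ 1 from f2 e', show 2 ≤ ‖y‖ from g2 e]⟩,
    fun R y => by simp only [f, g, R.norm_map, and_self], ?_⟩
  have d0 : (0 : ℝ) < GD.d := by exact_mod_cast GD.d3.trans_lt' three_pos
  have b0 := GD.b0_pos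
  have e : (fun y : Fin 2 → R4 => (∏ i, ![f, g] i (y i)) * free y) =
      fun y => f (y 0) * g (y 1) * (3 * GD.d / max 1 ‖y 0 - y 1‖ ^ 8) := funext fun y => by
    rw [Fin.prod_univ_two]
    change f (y 0) * g (y 1) * _ = _
    by_cases u : f (y 0) * g (y 1) = 0
    · rw [u, zero_mul, zero_mul]
    · have : 1 ≤ ‖y 0 - y 1‖ := by
        linarith [f1 _ (left_ne_zero_of_mul u), (g1 _ (right_ne_zero_of_mul u)).1,
          norm_sub_norm_le (y 1) (y 0), norm_sub_rev (y 0) (y 1)]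
      rw [max_eq_right this, show free y = _ from YM5.free_two y
        (sub_ne_zero.1 (norm_pos_iff.1 (one_pos.trans_le this)))]
  have := cf.continuous
  have := cg.continuous
  rw [kap, e]
  refine mul_ne_zero (by positivity) (Continuous.integral_pos_of_hasCompactSupport_nonneg_nonzero
    (x := ![0, EuclideanSpace.single 0 (5 / 2)]) ?_
    (.intro (isCompact_closedBall 0 3) fun y hy => by_contra fun v => hy ?_) (fun y => ?_) ?_).ne'
  · exact ((by fun_prop : Continuous fun y : Fin 2 → R4 => f (y 0) * g (y 1)).mul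
      (continuous_const.div (by fun_prop) fun y => by positivity))
  · have u := left_ne_zero_of_mul v
    rw [mem_closedBall_zero_iff, pi_norm_le_iff_of_nonneg (by norm_num), Fin.forall_fin_two]
    exact ⟨(f1 _ (left_ne_zero_of_mul u)).trans (by norm_num), (g1 _ (right_ne_zero_of_mul u)).2⟩
  · exact mul_nonneg (mul_nonneg (expNegInvGlue.nonneg _)
      (mul_nonneg (expNegInvGlue.nonneg _) (expNegInvGlue.nonneg _))) (by positivity)
  · refine mul_ne_zero (mul_ne_zero ?_ (mul_ne_zero ?_ ?_)) (by positivity) <;>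
      refine (expNegInvGlue.pos_of_pos ?_).ne' <;> simp <;> norm_num

theorem cl {d : ℕ} {𝒜 : Set (Matrix (Fin d) (Fin d) ℝ)} [Zg.Og 𝒜] {φ c : Zg.V0 𝒜}
    {A : ℝ → Zg.V0 𝒜 ≃ₗ[ℝ] Zg.V0 𝒜} (la : Zg.La (Zg.fil 𝒜) (Zg.r0 𝒜) A φ (Zg.l0 𝒜))
    (hc : c ∈ (Zg.fil 𝒜).F 4) : ∃ a b : ℝ, ∀ l : Zg.V0 𝒜 →ₗ[ℝ] ℂ,
      (∀ μ c, l (Zg.r0 𝒜 (rfL μ) c) = l c) → (∀ w c, l (Zg.r0 𝒜 (prm w) c) = l c) →
        l c = a * l (Zg.u0 𝒜) + b * l φ := by
  have up : ∀ R, ∀ c ∈ (Zg.fil 𝒜).F 4, Zg.r0 𝒜 R c ∈ (Zg.fil 𝒜).F 4 := fun R c e => by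
    rw [← (Zg.fil 𝒜).π_sum e, map_sum]
    exact Submodule.sum_mem _ fun n hn => Zg.r0_gr R n c ▸ (Zg.fil 𝒜).mono
      (Nat.lt_succ_iff.1 (Finset.mem_range.1 hn)) ((Zg.fil 𝒜).π_mem _ _)
  let K : Submodule ℝ (Zg.V0 𝒜) := .span ℝ {v | ∃ R ∈ range rfL ∪ range prm, ∃ c ∈ (Zg.fil 𝒜).F 4,
    v = Zg.r0 𝒜 R c - c}
  have k1 : K ≤ (Zg.fil 𝒜).F 4 := Submodule.span_le.2 (by
    rintro _ ⟨R, -, c, e, rfl⟩
    exact sub_mem (up R c e) e)
  have := (Zg.fil 𝒜).fin 4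
  have : FiniteDimensional ℝ K := Submodule.finiteDimensional_of_le k1
  have m := sub_mem hc (k1 (K.starProjection_apply_mem c))
  have i : ∀ R ∈ range rfL ∪ range prm,
      Zg.r0 𝒜 R (c - K.starProjection c) = c - K.starProjection c := fun R hR => by
    have := K.starProjection_inner_eq_zero c _ (Submodule.subset_span ⟨R, hR, _, m, rfl⟩)
    generalize c - K.starProjection c = y at *
    rw [inner_sub_right, real_inner_self_eq_norm_sq] at this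
    rw [eq_comm, ← sub_eq_zero, ← norm_eq_zero, ← sq_eq_zero_iff, norm_sub_sq_real, Zg.r0_norm]
    linarith
  obtain ⟨a, b, e⟩ := Zg.cl_b4 m (fun μ => i _ (.inl ⟨μ, rfl⟩)) fun w => i _ (.inr ⟨w, rfl⟩)
  obtain ⟨a', b', e'⟩ := Zg.cl_b4 la.mem la.rf la.pm
  have b0 : b' ≠ 0 := fun z => by
    have := (Zg.fil 𝒜).fin 0
    have u := ((Zg.fil 𝒜).F 0).closed_of_finiteDimensional.mem_of_tendsto la.sg (.of_forall fun t =>
      (la.up t).2 0 _ (Submodule.smul_mem _ _ (by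
        rw [e', z, zero_smul, add_zero]; exact Submodule.smul_mem _ _ (Zg.u0_mem 0))))
    exact Zg.l0_ne (by simpa [Zg.π_hm Zg.hm_l0] using (Zg.fil 𝒜).π_zero u four_pos)
  refine ⟨a - b / b' * a', b / b', fun l h1 h2 => ?_⟩
  have z : K ≤ LinearMap.ker l := Submodule.span_le.2 (by
    rintro _ ⟨_, ⟨μ, rfl⟩ | ⟨w, rfl⟩, c, -, rfl⟩ <;> simp [h1, h2])
  have u := congrArg l e
  rw [map_sub, show l (K.starProjection c) = 0 from z (K.starProjection_apply_mem c), sub_zero] at u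
  have : (b' : ℂ) ≠ 0 := by exact_mod_cast b0
  rw [u, e']
  simp only [map_add, map_smul, Complex.real_smul]
  push_cast
  field_simp
  ring

end Pool.Agent.Lib.MP_7f377f_mp.An
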