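import Pool.Agent.Lib.MP_7f377f_mp.G.LgDefs

/-! Exchange of a bounded functional with the Fourier inversion integral. -/

noncomputable section

namespace Pool.Agent.Lib.MP_7f377f_mp.Lg
variable [Pool.Agent.Lib.MP_7f377f_mp.GD]
set_option linter.unusedSectionVars false

open MeasureTheory Filter Topology Set Real
open scoped NNReal ContDiff Nat FourierTransform

variable {m : ℕ}

variable {V : Type} [NormedAddCommGroup V] [InnerProductSpace ℝ V] [FiniteDimensional ℝ V]
  [MeasurableSpace V] [BorelSpace V]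

namespace LgX

theorem char_smooth : ContDiff ℝ ∞ fun t : ℝ => (Real.fourierChar t : ℂ) := by
  simp only [Real.fourierChar_apply]
  exact Complex.contDiff_exp.comp
    ((Complex.ofRealCLM.contDiff.comp (contDiff_const.mul contDiff_id)).mul contDiff_const)

theorem char_deriv (l : ℕ) : iteratedDeriv l (fun t : ℝ => (Real.fourierChar t : ℂ)) =
    fun t => (2 * π * Complex.I) ^ l * Real.fourierChar t := by
  induction l with
  | zero => simp
  | succ l ih =>
    rw [iteratedDeriv_succ, ih]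
    funext t
    rw [((Real.hasDerivAt_fourierChar t).const_mul _).deriv]
    ring

/-- the multilinear form of a frequency -/
def pw (l : ℕ) (p : V) : V [×l]→L[ℝ] ℂ :=
  VectorFourier.fourierPowSMulRight (-innerSL ℝ) (fun _ : V => (1 : ℂ)) p l

omit [FiniteDimensional ℝ V] [MeasurableSpace V] [BorelSpace V] in
theorem wave_D (l : ℕ) (p x : V) : iteratedFDeriv ℝ l (wave p) x = wave p x • pw l p := by
  have e : wave p = (fun t : ℝ => (Real.fourierChar t : ℂ)) ∘ innerSL ℝ p := rfl
  rw [e, (innerSL ℝ p).iteratedFDeriv_comp_right char_smooth x (mod_cast le_top)]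
  ext v
  simp only [ContinuousMultilinearMap.compContinuousLinearMap_apply,
    iteratedFDeriv_apply_eq_iteratedDeriv_mul_prod, char_deriv, pw, smul_apply,
    VectorFourier.fourierPowSMulRight_apply, neg_apply, Finset.prod_neg, Function.comp,
    Complex.real_smul, smul_eq_mul, Finset.card_univ, Fintype.card_fin]
  push_cast
  rw [neg_pow, mul_one, mul_mul_mul_comm, ← mul_pow]
  simp only [mul_neg, mul_one, neg_neg, one_pow]
  ring

omit [FiniteDimensional ℝ V] [MeasurableSpace V] [BorelSpace V] in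
theorem cont_D (l : ℕ) : Continuous fun z : V × V => iteratedFDeriv ℝ l (wave z.1) z.2 := by
  simp only [wave_D]
  have c : Continuous (pw l : V → _) :=
    Continuous.fourierPowSMulRight (-innerSL ℝ : V →L[ℝ] V →L[ℝ] ℝ) continuous_const l
  have d : Continuous fun z : V × V => wave z.1 z.2 := char_smooth.continuous.comp continuous_inner
  exact d.smul (c.comp continuous_fst)

end LgX

open LgX

omit [FiniteDimensional ℝ V] [MeasurableSpace V] [BorelSpace V] in
theorem wave_smooth (p : V) : ContDiff ℝ ∞ (wave p) :=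
  char_smooth.comp (innerSL ℝ p).contDiff

omit [FiniteDimensional ℝ V] [MeasurableSpace V] [BorelSpace V] in
theorem wave_le (p x : V) (l : ℕ) : ‖iteratedFDeriv ℝ l (wave p) x‖ ≤ (2 * π * ‖p‖) ^ l := by
  rw [wave_D, norm_smul, wave, Circle.norm_coe, one_mul]
  refine (VectorFourier.norm_fourierPowSMulRight_le _ _ _ _).trans ?_
  rw [norm_one, mul_one, ← mul_pow]
  have := (ContinuousLinearMap.opNorm_neg _).trans_le (norm_innerSL_le ℝ (E := V))
  exact pow_le_pow_left₀ (by positivity) (mul_le_mul_of_nonneg_right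
    (mul_le_of_le_one_right (by positivity) this) (norm_nonneg _)) _

omit [FiniteDimensional ℝ V] [MeasurableSpace V] [BorelSpace V] in
theorem wave_near {K : Set V} (hK : IsCompact K) (l : ℕ) (q : V) {ε : ℝ} (e0 : 0 < ε) :
    ∀ᶠ p in 𝓝 q, ∀ x ∈ K, ‖iteratedFDeriv ℝ l (wave p - wave q) x‖ ≤ ε := by
  refine hK.eventually_forall_of_forall_eventually fun y _ => ?_
  have c : Continuous fun z : V × V =>
      ‖iteratedFDeriv ℝ l (wave z.1) z.2 - iteratedFDeriv ℝ l (wave q) z.2‖ :=
    ((cont_D l).sub ((cont_D l).comp (continuous_const.prodMk continuous_snd))).norm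
  filter_upwards [c.continuousAt.eventually_lt (continuousAt_const (y := ε)) (x₀ := (q, y))
    (by simpa using e0)] with z hz
  rw [iteratedFDeriv_sub_apply ((wave_smooth _).contDiffAt.of_le (mod_cast le_top))
    ((wave_smooth _).contDiffAt.of_le (mod_cast le_top))]
  exact hz.le

namespace LgX

theorem inv_D (F : SchwartzMap V ℂ) (l : ℕ) (x : V) :
    iteratedFDeriv ℝ l F x = ∫ p, 𝓕 F p • iteratedFDeriv ℝ l (wave p) x := by
  have e : (F : V → ℂ) = VectorFourier.fourierIntegral Real.fourierChar volume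
      (-innerSL ℝ : V →L[ℝ] V →L[ℝ] ℝ).toLinearMap₁₂ (𝓕 F : SchwartzMap V ℂ) := by
    funext w
    conv_lhs => rw [← FourierTransform.fourierInv_fourier_eq (F := SchwartzMap V ℂ) F]
    rw [SchwartzMap.fourierInv_coe, Real.fourierInv_eq]
    simp [VectorFourier.fourierIntegral]
  conv_lhs => rw [e]
  rw [VectorFourier.iteratedFDeriv_fourierIntegral (N := ⊤) _
    (fun n _ => (𝓕 F : SchwartzMap V ℂ).integrable_pow_mul volume n)
    (𝓕 F : SchwartzMap V ℂ).continuous.aestronglyMeasurable le_top]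
  refine integral_congr_ae (Eventually.of_forall fun p => ?_)
  ext v
  simp [wave_D, pw, Circle.smul_def]
  rw [show wave p x = Real.fourierChar (innerSL ℝ p x) from rfl]
  ring

/-- smooth functions -/
def Sm (V : Type) [NormedAddCommGroup V] [NormedSpace ℝ V] : Submodule ℂ (V → ℂ) where
  carrier := {g | ContDiff ℝ ∞ g}
  add_mem' h h' := ContDiff.add (𝕜 := ℝ) (n := ∞) h h'
  zero_mem' := contDiff_const (𝕜 := ℝ) (n := ∞) (c := (0 : ℂ))
  smul_mem' c _ h := ContDiff.const_smul (𝕜 := ℝ) (n := ∞) c h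

theorem sm {V : Type} [NormedAddCommGroup V] [NormedSpace ℝ V] (g : Sm V) :
    ContDiff ℝ ∞ (g : V → ℂ) := g.2

/-- a derivative at a point -/
def jet (l : ℕ) (x : V) : Sm V →ₗ[ℂ] V [×l]→L[ℝ] ℂ where
  toFun g := iteratedFDeriv ℝ l g x
  map_add' g g' := iteratedFDeriv_add_apply ((sm g).contDiffAt.of_le (mod_cast le_top))
    ((sm g').contDiffAt.of_le (mod_cast le_top))
  map_smul' _ g := iteratedFDeriv_const_smul_apply ((sm g).contDiffAt.of_le (mod_cast le_top))

theorem factor {S E : Type} [AddCommGroup S] [Module ℂ S] [NormedAddCommGroup E] [NormedSpace ℂ E]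
    (J : S →ₗ[ℂ] E) (f : S →ₗ[ℂ] ℂ) {A : ℝ} (h : ∀ s, ‖f s‖ ≤ A * ‖J s‖) :
    ∃ g : E →L[ℂ] ℂ, ∀ s, g (J s) = f s := by
  obtain ⟨σ, hσ⟩ := J.rangeRestrict.exists_rightInverse_of_surjective J.range_rangeRestrict
  have e : ∀ y, J (σ y) = y := fun y => congrArg Subtype.val (LinearMap.congr_fun hσ y)
  obtain ⟨g, hg, -⟩ := exists_extension_norm_eq J.range
    ((f ∘ₗ σ).mkContinuous A fun y => (h _).trans_eq (by rw [e]; rfl))
  refine ⟨g, fun s => (hg ⟨J s, s, rfl⟩).trans ?_⟩
  have := h (σ ⟨J s, s, rfl⟩ - s)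
  rw [map_sub J, e, sub_self, norm_zero, mul_zero, map_sub, norm_le_zero_iff, sub_eq_zero] at this
  exact this

theorem swap {S ι K : Type} [AddCommGroup S] [Module ℂ S] [Fintype ι] [TopologicalSpace K]
    [CompactSpace K] {Y : ι → Type} [∀ l, NormedAddCommGroup (Y l)] [∀ l, NormedSpace ℂ (Y l)]
    [∀ l, NormedSpace ℝ (Y l)] [∀ l, CompleteSpace (Y l)] (j : ∀ l, K → S →ₗ[ℂ] Y l)
    (hj : ∀ l s, Continuous fun x => j l x s) (f : S →ₗ[ℂ] ℂ) {A : ℝ}
    (hf : ∀ s M, 0 ≤ M → (∀ l x, ‖j l x s‖ ≤ M) → ‖f s‖ ≤ A * M) (w : V → S) (c : V → ℂ)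
    (hc : Continuous c) (hw : ∀ l, Continuous fun z : V × K => j l z.2 (w z.1)) (b : ι → V → ℝ)
    (b0 : ∀ l p, 0 ≤ b l p) (hb : ∀ l, Integrable fun p => ‖c p‖ * b l p)
    (hb' : ∀ l p x, ‖j l x (w p)‖ ≤ b l p) (s : S) (hs : ∀ l x, j l x s = ∫ p, c p • j l x (w p)) :
    f s = ∫ p, c p * f (w p) := by
  let J : S →ₗ[ℂ] ∀ l, C(K, Y l) :=
    { toFun := fun s l => ⟨_, hj l s⟩
      map_add' := fun s t => funext fun l => ContinuousMap.ext fun x => map_add (j l x) s t
      map_smul' := fun a s => funext fun l => ContinuousMap.ext fun x => map_smul (j l x) a s }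
  obtain ⟨g, hg⟩ := factor J f fun s => hf s _ (norm_nonneg _) fun l x =>
    ((J s l).norm_coe_le_norm x).trans (norm_le_pi_norm (J s) l)
  have hi : Integrable fun p : V => c p • J (w p) := by
    refine Integrable.of_eval fun l => ?_
    have c' : Continuous fun p : V => J (w p) l :=
      ContinuousMap.continuous_of_continuous_uncurry _ (hw l)
    refine (hb l).mono' (hc.smul c').aestronglyMeasurable (Eventually.of_forall fun p => ?_)
    rw [Pi.smul_apply, norm_smul]
    exact mul_le_mul_of_nonneg_left ((ContinuousMap.norm_le _ (b0 l p)).2 (hb' l p)) (norm_nonneg _)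
  have e : J s = ∫ p : V, c p • J (w p) := funext fun l => ContinuousMap.ext fun x =>
    (hs l x).trans (((ContinuousMap.evalCLM ℂ x).comp (ContinuousLinearMap.proj l :
      (∀ l, C(K, Y l)) →L[ℂ] C(K, Y l))).integral_comp_comm hi)
  rw [← hg, e, ← g.integral_comp_comm hi]
  simp only [map_smul, hg, smul_eq_mul]

end LgX

theorem exch {K : Set V} (hK : IsCompact K) {A : ℝ} (ph : (V → ℂ) → ℂ)
    (h1 : ∀ g g' (c : ℂ), ContDiff ℝ ∞ g → ContDiff ℝ ∞ g' → ph (g + c • g') = ph g + c * ph g')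
    (h2 : ∀ g (M : ℝ), ContDiff ℝ ∞ g → 0 ≤ M → (∀ l ≤ m, ∀ x ∈ K, ‖iteratedFDeriv ℝ l g x‖ ≤ M) →
      ‖ph g‖ ≤ A * M) (F : SchwartzMap V ℂ) : ph F = ∫ p, 𝓕 F p * ph (wave p) := by
  have : CompactSpace K := isCompact_iff_compactSpace.1 hK
  have h0 : ph 0 = 0 := by
    simpa using h1 0 0 1 contDiff_const contDiff_const
  refine swap (S := Sm V) (K := K) (Y := fun l : Fin (m + 1) => V [×l]→L[ℝ] ℂ) (A := A)
    (fun l x => jet l x)
    (fun l s => ((sm s).continuous_iteratedFDeriv (mod_cast le_top)).comp continuous_subtype_val)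
    { toFun := fun s => ph s
      map_add' := fun s t => by simpa using h1 s t 1 s.2 t.2
      map_smul' := fun c s => by simpa [h0] using h1 0 s c contDiff_const s.2 }
    (fun s M hM h => h2 s M s.2 hM fun l hl x hx => h ⟨l, by omega⟩ ⟨x, hx⟩)
    (fun p => ⟨wave p, wave_smooth p⟩) (𝓕 F : SchwartzMap V ℂ) (𝓕 F : SchwartzMap V ℂ).continuous
    (fun l => (cont_D l).comp (continuous_fst.prodMk (continuous_subtype_val.comp continuous_snd)))
    (fun l p => (2 * π * ‖p‖) ^ (l : ℕ)) (fun l p => by positivity) (fun l => ?_)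
    (fun l p x => wave_le p x l) ⟨F, F.smooth ⊤⟩ fun l x => inv_D F l x
  refine (((𝓕 F : SchwartzMap V ℂ).integrable_pow_mul volume l).const_mul
    ((2 * π) ^ (l : ℕ))).congr (Eventually.of_forall fun p => ?_)
  simp only [mul_pow]
  ring

end Pool.Agent.Lib.MP_7f377f_mp.Lg
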