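import Pool.Agent.Lib.MP_7f377f_mp.G.LgG2

/-! Explicit bounds for the pieces of the Whitney decomposition. -/

noncomputable section

namespace Pool.Agent.Lib.MP_7f377f_mp.Lg
variable [Pool.Agent.Lib.MP_7f377f_mp.GD]
set_option linter.unusedSectionVars false

open MeasureTheory Filter Topology Set Real YM7 Pur MvPolynomial
open scoped NNReal ContDiff Nat FourierTransform

variable {n m : ℕ}

namespace LgEX1

/-- the one point weight -/
def w1 (y : R4) : ℝ := ((1 + ‖y‖) ^ 5)⁻¹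

theorem w1_int : Integrable w1 := by
  have := integrable_one_add_norm (E := R4) (μ := volume) (r := 5) (by simp; norm_num)
  refine this.congr (Eventually.of_forall fun y => ?_)
  have h : (0 : ℝ) ≤ 1 + ‖y‖ := by positivity
  simp only [w1]
  rw [Real.rpow_neg h, ← Real.rpow_natCast]
  norm_num

theorem w1_pos (y : R4) : 0 < w1 y := by unfold w1; positivity

theorem w_le (x : Fin n → R4) : ((1 + ‖x‖) ^ (5 * n))⁻¹ ≤ ∏ i, w1 (x i) := by
  have : ((1 + ‖x‖) ^ (5 * n))⁻¹ = ∏ _i : Fin n, ((1 + ‖x‖) ^ 5)⁻¹ := by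
    simp [pow_mul]
  rw [this]
  refine Finset.prod_le_prod (fun i _ => by positivity) fun i _ => ?_
  have := norm_le_pi_norm x i
  unfold w1
  gcongr

theorem decay {s k l : ℕ} (hk : k ≤ s) (hl : l ≤ s) (F : Sw n) (x : Fin n → R4) :
    (1 + ‖x‖) ^ k * ‖iteratedFDeriv ℝ l F x‖ ≤ 2 ^ k * nrm s F := by
  have h0 := norm_nonneg (iteratedFDeriv ℝ l F x)
  rcases le_total ‖x‖ 1 with h | h
  · have := le_nrm (Nat.zero_le s) hl F x
    rw [pow_zero, one_mul] at this
    gcongr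
    linarith
  · have := le_nrm hk hl F x
    calc _ ≤ (2 * ‖x‖) ^ k * ‖iteratedFDeriv ℝ l F x‖ := by gcongr; linarith
      _ ≤ _ := by rw [mul_pow, mul_assoc]; gcongr

theorem near {s l : ℕ} (hk : 5 * n ≤ s) (hl : l ≤ s) (F : Sw n) {x z : Fin n → R4}
    (h : ‖x - z‖ ≤ 8) : ‖iteratedFDeriv ℝ l F z‖ ≤ 18 ^ (5 * n) * nrm s F * ∏ i, w1 (x i) := by
  have h1 := decay hk hl F z
  have h2 : 1 + ‖x‖ ≤ 9 * (1 + ‖z‖) := by
    have := norm_sub_norm_le x z
    have := norm_nonneg z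
    linarith
  have h3 := nrm_nonneg s F
  refine le_trans ?_ (mul_le_mul_of_nonneg_left (w_le x) (by positivity))
  rw [← div_eq_mul_inv, le_div_iff₀ (by positivity)]
  calc _ ≤ ‖iteratedFDeriv ℝ l F z‖ * (9 * (1 + ‖z‖)) ^ (5 * n) := by gcongr
    _ = 9 ^ (5 * n) * ((1 + ‖z‖) ^ (5 * n) * ‖iteratedFDeriv ℝ l F z‖) := by rw [mul_pow]; ring
    _ ≤ 9 ^ (5 * n) * (2 ^ (5 * n) * nrm s F) := by gcongr
    _ = _ := by rw [← mul_assoc, ← mul_pow]; norm_num

theorem small (M : ℕ) {e a : ℕ} {F : Sw n} (hF : Off F) {x : Fin n → R4}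
    (hx : x ∈ tsupport (shel (n := n) e)) (ha : a ≤ 6 * n) :
    ‖iteratedFDeriv ℝ a F x‖ ≤ 16 ^ ((M + 7) * n) / (2 ^ (e * (6 * n)) * 2 ^ (e * (M * n + 1))) *
      (18 ^ (5 * n) * nrm (n * (M + 30)) F * ∏ i, w1 (x i)) := by
  have h0 : 0 ≤ 18 ^ (5 * n) * nrm (n * (M + 30)) F * ∏ i, w1 (x i) :=
    mul_nonneg (mul_nonneg (by positivity) (nrm_nonneg _ _))
      (Finset.prod_nonneg fun i _ => (w1_pos _).le)
  have h5 : 5 * n ≤ n * (M + 30) := by nlinarith
  cases e with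
  | zero =>
    refine (near h5 (by nlinarith) F (x := x) (z := x) (by simp)).trans
      (le_mul_of_one_le_left h0 ?_)
    simp only [zero_mul, pow_zero, mul_one, div_one]
    exact one_le_pow₀ (by norm_num)
  | succ e =>
    obtain ⟨y, hy, hd⟩ := shel_near hx
    have hn : 1 ≤ n := by
      rcases Nat.eq_zero_or_pos n with rfl | h
      · exact absurd (Function.injective_of_subsingleton y) hy
      · exact h
    have h8 : ‖x - y‖ ≤ 8 := hd.trans (div_le_self (by norm_num) (one_le_pow₀ (by norm_num)))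
    refine (taylor_le (F.smooth ⊤) (hF y hy) a ((M + 7) * n) fun z hz =>
      near h5 (by nlinarith) F (x := x) (z := z) ?_).trans (mul_le_mul_of_nonneg_right ?_ h0)
    · rw [norm_sub_rev]
      exact (norm_sub_le_of_mem_segment hz).trans (by rwa [norm_sub_rev])
    · calc ‖x - y‖ ^ ((M + 7) * n) ≤ (16 / 2 ^ (e + 1)) ^ ((M + 7) * n) := by
            gcongr
            refine hd.trans (le_of_eq ?_)
            rw [pow_succ]
            field_simp
            norm_num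
        _ ≤ _ := by
            rw [div_pow, ← pow_mul, ← pow_add]
            gcongr
            · norm_num
            · rw [← mul_add]
              exact Nat.mul_le_mul_left _ (by nlinarith)

end LgEX1

open LgEX1 in
theorem shell_le (M : ℕ) : ∃ (C : ℝ) (s : ℕ), 0 ≤ C ∧ ∀ (n e D : ℕ) (F : Sw n), Off F →
    ∑ z ∈ lab n D, dI (6 * n) (mul (chn e z) (mul (shel e) F)) ≤
      (C * (n + 1) ^ s) ^ n / 2 ^ (e * (M * n + 1)) * nrm (n * s) F := by
  obtain ⟨c, c1, hc⟩ := cl_cut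
  have I0 : 0 ≤ ∫ y, w1 y := integral_nonneg fun y => (w1_pos y).le
  refine ⟨7 * 81 * (648 * c) ^ 6 * 16 ^ (M + 7) * 18 ^ 5 * ∫ y, w1 y, M + 30, by positivity,
    fun n e D F hF => ?_⟩
  have c2 : ∀ m (z : Fin n → Fin 4 → ℤ), Cl m (c * (n + 1) ^ 2 * (m + 1) ^ 3 * 2 ^ e) (chn e z) :=
    fun m z => (hc m e).2 n _ (.inr (.inr (.inr (.inr ⟨z, rfl⟩))))
  have c3 : ∀ m, Cl m (c * (n + 1) ^ 2 * (m + 1) ^ 3 * 2 ^ e) (shel (n := n) e) :=
    fun m => (hc m e).2 n _ (.inr (.inl rfl))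
  have ap : ∀ z : Fin n → Fin 4 → ℤ, ⇑(mul (chn e z) (mul (shel e) F)) =
      fun x => ((chn e z x * shel e x : ℝ) : ℂ) * F x := fun z => funext fun x => by
    rw [mul_apply fun m => ⟨_, c2 m z⟩, mul_apply fun m => ⟨_, c3 m⟩]
    push_cast
    ring
  obtain ⟨r, hr⟩ : ∃ r : ℝ, r = c * (n + 1) ^ 2 * ((6 * n : ℕ) + 1) ^ 3 * 2 ^ e := ⟨_, rfl⟩
  have n0 : (0 : ℝ) ≤ n := Nat.cast_nonneg n
  have r1 : 1 ≤ r := by
    rw [hr]
    have : (0 : ℝ) ≤ (6 * n : ℕ) := Nat.cast_nonneg _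
    exact one_le_mul_of_one_le_of_one_le (one_le_mul_of_one_le_of_one_le
      (one_le_mul_of_one_le_of_one_le c1 (one_le_pow₀ (by linarith))) (one_le_pow₀ (by linarith)))
      (one_le_pow₀ (by norm_num))
  have r2 : 1 + (r + r) ≤ 648 * c * (n + 1) ^ 5 * 2 ^ e := by
    have : r ≤ c * (n + 1) ^ 2 * (6 * (n + 1)) ^ 3 * 2 ^ e := by
      rw [hr]
      gcongr
      push_cast
      linarith
    have e1 : 648 * c * (n + 1) ^ 5 * 2 ^ e = 3 * (c * (n + 1) ^ 2 * (6 * (n + 1)) ^ 3 * 2 ^ e) := by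
      ring
    linarith
  obtain ⟨K, hK⟩ : ∃ K : ℝ, K = (648 * c * (n + 1) ^ 5 * 2 ^ e) ^ (6 * n) *
    (16 ^ ((M + 7) * n) / (2 ^ (e * (6 * n)) * 2 ^ (e * (M * n + 1))) *
      (18 ^ (5 * n) * nrm (n * (M + 30)) F)) := ⟨_, rfl⟩
  have N0 := nrm_nonneg (n * (M + 30)) F
  have K0 : 0 ≤ K := by rw [hK]; positivity
  have W0 : ∀ x : Fin n → R4, 0 ≤ ∏ i, w1 (x i) := fun x =>
    Finset.prod_nonneg fun i _ => (w1_pos _).le
  have pt : ∀ l ≤ 6 * n, ∀ x : Fin n → R4, ∑ z ∈ lab n D,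
      ‖iteratedFDeriv ℝ l (mul (chn e z) (mul (shel e) F)) x‖ ≤ 81 ^ n * K * ∏ i, w1 (x i) := by
    intro l hl x
    have a1 : ∀ z : Fin n → Fin 4 → ℤ, ‖iteratedFDeriv ℝ l (mul (chn e z) (mul (shel e) F)) x‖ ≤
        if ∀ i μ, |8 * 2 ^ e * x i μ - z i μ| ≤ 1 then K * ∏ i, w1 (x i) else 0 := by
      intro z
      rw [ap]
      by_cases h0 : iteratedFDeriv ℝ l (fun x => ((chn e z x * shel e x : ℝ) : ℂ) * F x) x = 0
      · rw [h0, norm_zero]
        split_ifs
        · exact mul_nonneg K0 (W0 x)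
        · exact le_rfl
      have hx : x ∈ tsupport fun x => chn e z x * shel e x :=
        closure_mono (Function.support_subset_iff'.2 fun y hy => by
          rw [Function.notMem_support.1 hy, Complex.ofReal_zero, zero_mul])
          (support_iteratedFDeriv_subset l h0)
      rw [if_pos (chn_supp (tsupport_mul_subset_left hx))]
      have a2 := ((hr ▸ c2 (6 * n) z : Cl (6 * n) r _).mul (hr ▸ c3 (6 * n) : Cl (6 * n) r _)
        (by linarith) (by linarith)).mul_le (by linarith) (F.smooth ⊤) hl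
        fun a ha => small M hF (tsupport_mul_subset_right hx) (ha.trans hl)
      refine a2.trans ?_
      have a3 : (1 + (r + r)) ^ l ≤ (648 * c * (n + 1) ^ 5 * 2 ^ e) ^ (6 * n) :=
        (pow_le_pow_right₀ (by linarith) hl).trans (pow_le_pow_left₀ (by linarith) r2 _)
      have := W0 x
      refine (mul_le_mul_of_nonneg_right a3 (by positivity)).trans (le_of_eq ?_)
      rw [hK]
      ring
    refine (Finset.sum_le_sum fun z _ => a1 z).trans ?_
    rw [← Finset.sum_filter, Finset.sum_const, nsmul_eq_mul, mul_assoc]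
    refine mul_le_mul_of_nonneg_right ?_ (mul_nonneg K0 (W0 x))
    exact_mod_cast card_chn x
  have it : ∀ l ∈ Finset.range (6 * n + 1), ∑ z ∈ lab n D,
      ∫ x, ‖iteratedFDeriv ℝ l (mul (chn e z) (mul (shel e) F)) x‖ ≤
        81 ^ n * K * (∫ y, w1 y) ^ n := by
    intro l hl
    have : (volume : Measure (Fin n → R4)).IsAddHaarMeasure := Measure.pi.isAddHaarMeasure _
    rw [← integral_finsetSum _ fun z _ => by
      simpa using (mul (chn e z) (mul (shel e) F)).integrable_pow_mul_iteratedFDeriv volume 0 l]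
    refine (integral_mono_of_nonneg (Eventually.of_forall fun x => by positivity)
      ((Integrable.fintype_prod fun _ => w1_int).const_mul _)
      (Eventually.of_forall (pt l (by have := Finset.mem_range.1 hl; omega)))).trans (le_of_eq ?_)
    rw [integral_const_mul, integral_fintype_prod_eq_pow, Fintype.card_fin]
  unfold dI
  rw [Finset.sum_comm]
  refine (Finset.sum_le_card_nsmul _ _ _ it).trans ?_
  rw [Finset.card_range, nsmul_eq_mul]
  have b1 : ((6 * n + 1 : ℕ) : ℝ) ≤ 7 ^ n := by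
    have := one_add_mul_le_pow (show (-2 : ℝ) ≤ 6 by norm_num) n
    push_cast
    norm_num at this
    linarith
  have b2 : ((n : ℝ) + 1) ^ 30 ≤ (n + 1) ^ (M + 30) := pow_le_pow_right₀ (by linarith) (by omega)
  calc _ ≤ 7 ^ n * (81 ^ n * K * (∫ y, w1 y) ^ n) := by gcongr
    _ = ((7 * 81 * (648 * c) ^ 6 * 16 ^ (M + 7) * 18 ^ 5 * ∫ y, w1 y) * (n + 1) ^ 30) ^ n /
        2 ^ (e * (M * n + 1)) * nrm (n * (M + 30)) F := by
      rw [hK, mul_pow _ ((2 : ℝ) ^ e), ← pow_mul, mul_pow (648 * c), ← pow_mul]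
      simp only [mul_pow _ _ n, ← pow_mul]
      rw [show 5 * (6 * n) = 30 * n by ring]
      field_simp
    _ ≤ _ := by gcongr

theorem fac_le (C : ℝ) (s : ℕ) :
    ∃ (α : ℝ) (β : ℕ), ∀ n : ℕ, (C * (n + 1) ^ s) ^ n ≤ α * n ! ^ β := by
  refine ⟨exp s * exp (|C| * exp s), s + 1, fun n => ?_⟩
  have f0 : (0 : ℝ) < n ! := by positivity
  have p : ∀ x : ℝ, 0 ≤ x → x ^ n ≤ exp x * n ! := fun x hx =>
    (div_le_iff₀ f0).1 (pow_div_factorial_le_exp x hx n)
  calc _ ≤ (|C| * (n + 1) ^ s) ^ n := by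
        refine (le_abs_self _).trans (le_of_eq ?_)
        rw [abs_pow, abs_mul, abs_of_nonneg (a := ((n : ℝ) + 1) ^ s) (by positivity)]
    _ = |C| ^ n * ((n + 1) ^ n) ^ s := by rw [mul_pow, ← pow_mul, ← pow_mul, mul_comm s]
    _ ≤ |C| ^ n * (exp (n + 1) * n !) ^ s := by
        have := p (n + 1) (by positivity)
        gcongr
    _ = exp s * (|C| * exp s) ^ n * n ! ^ s := by
        rw [mul_pow, mul_pow, ← exp_nat_mul, ← exp_nat_mul, mul_add, exp_add, mul_one, mul_comm (s : ℝ)]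
        ring
    _ ≤ exp s * (exp (|C| * exp s) * n !) * n ! ^ s := by
        have := p (|C| * exp s) (by positivity)
        gcongr
    _ = _ := by ring

end Pool.Agent.Lib.MP_7f377f_mp.Lg
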