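import Pool.Agent.Lib.MP_7f377f_mp.G.LgFR
import Pool.Agent.Lib.MP_7f377f_mp.G.LgD
import Pool.Agent.Lib.MP_7f377f_mp.G.LgEX1

/-! Extension of the Schwinger functions to tempered distributions with linear growth. -/

noncomputable section

namespace Pool.Agent.Lib.MP_7f377f_mp.Lg
variable [Pool.Agent.Lib.MP_7f377f_mp.GD]
set_option linter.unusedSectionVars false

open MeasureTheory Filter Topology Set Real YM7 Pur MvPolynomial Metric
open scoped NNReal ContDiff Nat Manifold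

variable {n : ℕ} {W : Pol →ₗ[ℂ] ℂ}

namespace EX2

theorem dI_nonneg (m : ℕ) (F : Sw n) : 0 ≤ dI m F :=
  Finset.sum_nonneg fun _ _ => integral_nonneg fun _ => norm_nonneg _

theorem cl_of {E : Type} [NormedAddCommGroup E] [NormedSpace ℝ E] {g : E → ℝ}
    (h1 : ContDiff ℝ ∞ g) (h2 : HasCompactSupport g) (h3 : ∀ x, 0 ≤ g x ∧ g x ≤ 1) (m : ℕ) :
    ∃ r, 0 ≤ r ∧ Cl m r g := by
  have hb : ∀ l : ℕ, ∃ B, ∀ x, ‖iteratedFDeriv ℝ l g x‖ ≤ B := fun l =>
    (h1.continuous_iteratedFDeriv (by exact_mod_cast le_top)).bounded_above_of_compact_support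
      (h2.iteratedFDeriv l)
  choose B hB using hb
  have s0 : 0 ≤ ∑ l ∈ Finset.range (m + 1), |B l| := Finset.sum_nonneg fun _ _ => abs_nonneg _
  refine ⟨1 + ∑ l ∈ Finset.range (m + 1), |B l|, by positivity, h1, h3, fun l hl x => ?_⟩
  rcases Nat.eq_zero_or_pos l with rfl | l0
  · rw [norm_iteratedFDeriv_zero, pow_zero, Real.norm_of_nonneg (h3 x).1]
    exact (h3 x).2
  · refine le_trans ?_ (le_self_pow₀ (by linarith) l0.ne')
    have := Finset.single_le_sum (f := fun l => |B l|) (fun _ _ => abs_nonneg _)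
      (Finset.mem_range.2 (Nat.lt_succ_of_le hl))
    linarith [hB l x, le_abs_self (B l)]

theorem sep_of {f : Fin n → R4 → ℝ} (hf : Adm f) : ∃ δ > (0 : ℝ), ∀ i j, i ≠ j →
    Disjoint (cthickening δ (tsupport (f i))) (cthickening δ (tsupport (f j))) := by
  have : ∀ᶠ δ in 𝓝[>] (0 : ℝ), ∀ i j, i ≠ j →
      Disjoint (cthickening δ (tsupport (f i))) (cthickening δ (tsupport (f j))) := by
    refine eventually_all.2 fun i => eventually_all.2 fun j => ?_
    by_cases h : i = j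
    · exact .of_forall fun _ e => (e h).elim
    · obtain ⟨δ, d0, hd⟩ := (hf.2 h).exists_cthickenings (hf.1 i).1 (isClosed_tsupport _)
      filter_upwards [Ioc_mem_nhdsGT d0] with ε he _
      exact hd.mono (cthickening_mono he.2 _) (cthickening_mono he.2 _)
  obtain ⟨δ, h1, h2⟩ := (this.and self_mem_nhdsWithin).exists
  exact ⟨δ, h2, h1⟩

theorem dist_of {f : Fin n → R4 → ℝ} (hf : Adm f) : ∃ δ > (0 : ℝ), ∀ i j, i ≠ j → ∀ x y,
    f i x ≠ 0 → f j y ≠ 0 → δ ≤ dist x y := by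
  obtain ⟨δ, d0, hd⟩ := sep_of hf
  refine ⟨δ, d0, fun i j hij x y hx hy => not_lt.1 fun h => ?_⟩
  exact disjoint_left.1 (hd i j hij) (self_subset_cthickening _ (subset_tsupport _ hx))
    (mem_cthickening_of_dist_le x y δ _ (subset_tsupport _ hy) h.le)

theorem norm_of {f : Fin n → R4 → ℝ} (hf : Adm f) : ∃ R : ℝ, ∀ i y, f i y ≠ 0 → ‖y‖ ≤ R := by
  obtain ⟨R, hR⟩ := (isCompact_iUnion fun i => (hf.1 i).1).isBounded.exists_norm_le
  exact ⟨R, fun i y h => hR y (mem_iUnion.2 ⟨i, subset_tsupport _ h⟩)⟩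

theorem exists_om {f : Fin n → R4 → ℝ} (hf : Adm f) : ∃ om : Fin n → R4 → ℝ, Adm om ∧
    ∀ i, ContDiff ℝ ∞ (om i) ∧ (∀ y, 0 ≤ om i y ∧ om i y ≤ 1) ∧ ∀ y, f i y ≠ 0 → om i y = 1 := by
  obtain ⟨δ, d0, hd⟩ := sep_of hf
  have : ∀ i, ∃ u : R4 → ℝ, ContDiff ℝ ∞ u ∧ tsupport u ⊆ cthickening δ (tsupport (f i)) ∧
      (∀ y, 0 ≤ u y ∧ u y ≤ 1) ∧ ∀ y, f i y ≠ 0 → u y = 1 := fun i => by
    obtain ⟨u, u0, u1, u2⟩ := exists_contMDiffMap_zero_one_of_isClosed (n := ⊤) 𝓘(ℝ, R4)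
      (isOpen_thickening (δ := δ) (E := tsupport (f i))).isClosed_compl (isClosed_tsupport (f i))
      (disjoint_compl_left.mono_right (self_subset_thickening d0 _))
    refine ⟨u, u.contMDiff.contDiff, closure_minimal (fun y hy => ?_) isClosed_cthickening,
      fun y => u2 y, fun y hy => u1 (subset_tsupport _ hy)⟩
    exact thickening_subset_cthickening _ _ (not_not.1 fun h => hy (u0 h))
  choose u u1 u2 u3 u4 using this
  exact ⟨u, ⟨fun i => ⟨((hf.1 i).1.cthickening).of_isClosed_subset (isClosed_tsupport _) (u2 i),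
    (u1 i).of_le (by exact_mod_cast le_top)⟩, fun i j h => (hd i j h).mono (u2 i) (u2 j)⟩,
    fun i => ⟨u1 i, u3 i, u4 i⟩⟩

theorem off_of {f : Fin n → R4 → ℝ} {F : Sw n} (h : Ten f F) (hf : Adm f) : Off F := by
  intro x hx l
  obtain ⟨i, j, e, hij⟩ := Function.not_injective_iff.1 hx
  have : ∃ i, x i ∉ tsupport (f i) := by
    by_contra c
    push Not at c
    exact disjoint_left.1 (hf.2 hij) (c i) (e ▸ c j)
  obtain ⟨i, hi⟩ := this
  have e0 : (F : (Fin n → R4) → ℂ) =ᶠ[𝓝 x] fun _ => 0 := by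
    filter_upwards [(continuous_apply i).continuousAt.tendsto.eventually
      (notMem_tsupport_iff_eventuallyEq.1 hi)] with y hy
    rw [h.2]
    exact Finset.prod_eq_zero (Finset.mem_univ i) (by simpa using hy)
  rw [(e0.iteratedFDeriv ℝ l).eq_of_nhds, iteratedFDeriv_fun_zero]
  rfl

theorem Ten.mul {f u : Fin n → R4 → ℝ} {F : Sw n} (h : Ten f F) (hu : ∀ i, ContDiff ℝ ∞ (u i))
    (hc : ∀ m, ∃ r, Cl m r fun x : Fin n → R4 => ∏ i, u i (x i)) :
    Ten (fun i y => u i y * f i y) (mul (fun x => ∏ i, u i (x i)) F) := by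
  refine ⟨fun i => ⟨(h.1 i).1.mul_left, (hu i).mul (h.1 i).2⟩, fun x => ?_⟩
  rw [mul_apply hc, h.2]
  push_cast
  rw [Finset.prod_mul_distrib]

theorem cl_chn (e : ℕ) (z : Fin n → Fin 4 → ℤ) (m : ℕ) : ∃ r, Cl m r (chn e z) := by
  obtain ⟨c, -, hc⟩ := cl_cut
  exact ⟨_, (hc m e).2 n _ (.inr (.inr (.inr (.inr ⟨z, rfl⟩))))⟩

theorem cl_shel (e m : ℕ) : ∃ r, Cl m r (shel (n := n) e) := by
  obtain ⟨c, -, hc⟩ := cl_cut
  exact ⟨_, (hc m e).2 n _ (.inr (.inl rfl))⟩

theorem smooth_chi (e : ℕ) (w : Fin 4 → ℤ) : ContDiff ℝ ∞ (chi e w) := by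
  obtain ⟨c, -, hc⟩ := cl_cut
  exact ((hc 0 e).1 w).1.1

/-- the Whitney sum -/
def wsum (T : ℕ → (Fin n → Fin 4 → ℤ) → Sw n →L[ℂ] ℂ) (E D : ℕ) : Sw n →L[ℂ] ℂ :=
  ∑ e ∈ Finset.range (E + 1), ∑ z ∈ lab n D, T e z ∘L mul (chn e z) ∘L mul (shel e)

theorem wsum_eq (hL : LinP W) (hQ : Qual W) {T : ℕ → (Fin n → Fin 4 → ℤ) → Sw n →L[ℂ] ℂ}
    (hT : ∀ e z, Good z → ∀ f F, Ten f F → T e z F = W (mon fun i y => frm e (z i) y * f i y))
    {f : Fin n → R4 → ℝ} {F : Sw n} (h : Ten f F) (hf : Adm f) :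
    ∀ᶠ E in atTop, ∀ᶠ D in atTop, wsum T E D F = W (mon f) := by
  obtain ⟨om, o1, o2⟩ := exists_om hf
  obtain ⟨δ, d0, hd⟩ := dist_of o1
  obtain ⟨R, hR⟩ := norm_of o1
  obtain ⟨A, hA⟩ := hQ n R δ d0
  obtain ⟨C, -, hC⟩ := frame
  choose r r0 hr using fun i => cl_of (o2 i).1 (o1.1 i).1 (o2 i).2.1 1
  have hc : ∀ m, ∃ r, Cl m r fun x : Fin n → R4 => ∏ i, om i (x i) := fun m => by
    refine (cl_of (contDiff_prod fun i _ => (o2 i).1.comp (contDiff_apply ℝ R4 i))
      (.intro (isCompact_univ_pi fun i => (o1.1 i).1) fun x hx => ?_) (fun x =>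
        ⟨Finset.prod_nonneg fun i _ => ((o2 i).2.1 _).1, Finset.prod_le_one
          (fun i _ => ((o2 i).2.1 _).1) fun i _ => ((o2 i).2.1 _).2⟩) m).imp fun _ => And.right
    obtain ⟨i, hi⟩ := not_forall.1 fun c => hx (mem_univ_pi.2 c)
    exact Finset.prod_eq_zero (Finset.mem_univ i) (image_eq_zero_of_notMem_tsupport (f := om i) hi)
  obtain ⟨T0, -, t0⟩ := hC W n om |A| (∑ i, r i) hL o1 (fun i => (hr i).mono (r0 i)
    (Finset.single_le_sum (fun i _ => r0 i) (Finset.mem_univ i))) (abs_nonneg _)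
    (Finset.sum_nonneg fun i _ => r0 i) fun g L g1 g2 => (hA g L g1
      (fun i => ⟨(g2 i).1, fun y hy => hR i y ((g2 i).2 y hy)⟩) fun i j hij x y hx hy =>
        hd i j hij x y ((g2 i).2 x hx) ((g2 j).2 y hy)).trans (by gcongr; exact le_abs_self A)
  have supp : ∀ x, F x ≠ 0 → ∀ i, om i (x i) = 1 := fun x hx i => (o2 i).2.2 _ fun c => hx (by
    rw [h.2]
    exact Finset.prod_eq_zero (Finset.mem_univ i) (by simpa using c))
  have key : ∀ e z, T e z (mul (chn e z) (mul (shel e) F)) =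
      T0 (mul (chn e z) (mul (shel e) F)) := fun e z => by
    by_cases hz : Good z
    · have : T e z ∘L mul (chn e z) ∘L mul (fun x => ∏ i, om i (x i)) = T0 ∘L mul (chn e z) := by
        refine ContinuousLinearMap.ext_on (dense_ten n) fun G ⟨g, hg⟩ => ?_
        have a1 := Ten.mul (Ten.mul hg (fun i => (o2 i).1) hc) (fun i => smooth_chi e (z i))
          (cl_chn e z)
        have a2 := Ten.mul hg (fun i => smooth_chi e (z i)) (cl_chn e z)
        refine (hT e z hz _ _ a1).trans (Eq.trans ?_ (t0 _ _ a2).symm)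
        congr 2
        funext i y
        rw [← mul_assoc, frm_chi, mul_left_comm]
      have b := congrArg (fun U : Sw n →L[ℂ] ℂ => U (mul (shel e) F)) this
      have c : mul (fun x => ∏ i, om i (x i)) (mul (shel e) F) = mul (shel e) F := by
        ext x
        rw [mul_apply hc, mul_apply (cl_shel e)]
        by_cases hx : F x = 0
        · simp [hx]
        · simp [supp x hx]
      simpa only [ContinuousLinearMap.comp_apply, c] using b
    · have : mul (chn e z) (mul (shel e) F) = 0 := by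
        ext x
        rw [mul_apply (cl_chn e z), mul_apply (cl_shel e)]
        by_cases h1 : chn e z x = 0
        · simp [h1]
        by_cases h2 : shel e x = 0
        · simp [h2]
        exact (hz (good_of (shel_sepr h2) h1)).elim
      rw [this, map_zero, map_zero]
  have t1 : Tendsto (fun E : ℕ => (16 : ℝ) / 2 ^ E) atTop (𝓝 0) :=
    tendsto_const_nhds.div_atTop (tendsto_pow_atTop_atTop_of_one_lt one_lt_two)
  filter_upwards [t1.eventually (gt_mem_nhds d0)] with E hE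
  filter_upwards [tendsto_natCast_atTop_atTop.eventually_ge_atTop (8 * 2 ^ E * |R|)] with D hD
  have e1 : ∑ e ∈ Finset.range (E + 1), ∑ z ∈ lab n D, mul (chn e z) (mul (shel e) F) = F := by
    ext x
    simp only [sum_apply, mul_apply (cl_chn _ _), mul_apply (cl_shel _)]
    by_cases hx : F x = 0
    · simp [hx]
    have s1 : sepr E x = 1 := by
      by_contra c
      obtain ⟨y, y1, y2⟩ := sepr_near c
      obtain ⟨i, j, e, hij⟩ := Function.not_injective_iff.1 y1
      have a1 := hd i j hij _ _ ((supp x hx i).trans_ne one_ne_zero)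
        ((supp x hx j).trans_ne one_ne_zero)
      have a2 : ∀ i, dist (x i) (y i) ≤ 8 / 2 ^ E := fun i =>
        (dist_le_pi_dist x y i).trans ((dist_eq_norm x y).trans_le y2)
      have a3 := dist_triangle_right (x i) (x j) (y i)
      have a4 : (16 : ℝ) / 2 ^ E = 8 / 2 ^ E + 8 / 2 ^ E := by ring
      have a5 := a2 j
      rw [← e] at a5
      linarith [a2 i]
    have s2 : ∀ e ∈ Finset.range (E + 1), ∑ z ∈ lab n D, (chn e z x : ℂ) * (shel e x * F x) =
        shel e x * F x := fun e he => by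
      rw [← Finset.sum_mul, ← Complex.ofReal_sum, sum_chn, Complex.ofReal_one, one_mul]
      intro i μ
      refine le_trans ?_ hD
      have a1 : |x i μ| ≤ |R| := ((PiLp.norm_apply_le (x i) μ).trans
        (hR i _ ((supp x hx i).trans_ne one_ne_zero))).trans (le_abs_self R)
      have a2 : e ≤ E := Nat.le_of_lt_succ (Finset.mem_range.1 he)
      rw [abs_mul, abs_of_nonneg (by positivity)]
      gcongr
      norm_num
    rw [Finset.sum_congr rfl s2, ← Finset.sum_mul, ← Complex.ofReal_sum, sum_shel, s1,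
      Complex.ofReal_one, one_mul]
  simp only [wsum, sum_apply, ContinuousLinearMap.comp_apply, key, ← map_sum, e1]
  rw [t0 f F h]
  congr 2
  funext i y
  by_cases c : f i y = 0
  · simp [c]
  · simp [(o2 i).2.2 y c]

theorem exists_T (hL : LinP W) (hG : Grow W) : ∃ (C : ℝ) (s : ℕ), 0 ≤ C ∧ ∀ n,
    ∃ T : ℕ → (Fin n → Fin 4 → ℤ) → Sw n →L[ℂ] ℂ,
      (∀ e z, Good z → ∀ f F, Ten f F → T e z F = W (mon fun i y => frm e (z i) y * f i y)) ∧
      ∀ E D F, Off F → ‖wsum T E D F‖ ≤ 2 * (C * (n + 1) ^ s) ^ n * nrm (n * s) F := by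
  obtain ⟨C1, s1, c1, h1⟩ := hG
  obtain ⟨C2, c2, h2⟩ := frame
  obtain ⟨c, c0, hc⟩ := cl_cut
  obtain ⟨C3, s3, c3, h3⟩ := shell_le (s1 + 1)
  refine ⟨C1 * (C2 * (1 + c * 8)) * C3, s1 + s3, by positivity, fun n => ?_⟩
  have : ∀ (e : ℕ) (z : Fin n → Fin 4 → ℤ), ∃ T : Sw n →L[ℂ] ℂ,
      (Good z → ∀ f F, Ten f F → T F = W (mon fun i y => frm e (z i) y * f i y)) ∧
      ∀ F, ‖T F‖ ≤ (C1 * (n + 1) ^ s1 * (C2 * (1 + c * 8))) ^ n * 2 ^ (e * ((s1 + 1) * n)) *
        dI (6 * n) F := fun e z => by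
    by_cases hz : Good z
    · obtain ⟨T, t1, t2⟩ := h2 W n (fun i => frm e (z i)) ((C1 * ((n + 1) / (2 ^ e)⁻¹) ^ s1) ^ n)
        _ hL hz.adm.1 (fun i => ((hc 1 e).1 (z i)).2) (by positivity) (by positivity)
        fun f L f1 f2 => h1 n _ (by positivity) (inv_le_one_of_one_le₀ (one_le_pow₀ one_le_two))
          f L ⟨f1, fun i => ⟨(f2 i).1, fun x y hx hy => frm_diam
            (subset_tsupport _ ((f2 i).2 x hx)) (subset_tsupport _ ((f2 i).2 y hy))⟩,
            fun i j hij x y hx hy => hz.far hij (subset_tsupport _ ((f2 i).2 x hx))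
              (subset_tsupport _ ((f2 j).2 y hy))⟩
      refine ⟨T, fun _ => t2, fun F => (t1 F).trans (mul_le_mul_of_nonneg_right ?_ (dI_nonneg _ _))⟩
      rw [← mul_assoc e, pow_mul (2 : ℝ), ← mul_pow, ← mul_pow]
      refine pow_le_pow_left₀ (by positivity) ?_ n
      have a1 : (1 : ℝ) ≤ 2 ^ e := one_le_pow₀ one_le_two
      calc _ = C1 * (n + 1) ^ s1 * (C2 * (1 + c * 8 * 2 ^ e)) * (2 ^ e) ^ s1 := by
            rw [div_inv_eq_mul, mul_pow]
            norm_num
            ring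
        _ ≤ C1 * (n + 1) ^ s1 * (C2 * (2 ^ e + c * 8 * 2 ^ e)) * (2 ^ e) ^ s1 := by gcongr
        _ = _ := by rw [pow_mul]; ring
    · exact ⟨0, fun h => (hz h).elim, fun F => by
        have := dI_nonneg (6 * n) F
        rw [zero_apply, norm_zero]
        positivity⟩
  choose T t1 t2 using this
  refine ⟨T, t1, fun E D F hF => ?_⟩
  have n0 := nrm_nonneg (n * s3) F
  have n1 : nrm (n * s3) F ≤ nrm (n * (s1 + s3)) F := by
    have : n * s3 ≤ n * (s1 + s3) := Nat.mul_le_mul_left _ (Nat.le_add_left _ _)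
    exact Seminorm.le_def.1 (Finset.sup_mono (Finset.Iic_subset_Iic.2 (Prod.mk_le_mk.2 ⟨this, this⟩))) F
  simp only [wsum, sum_apply, ContinuousLinearMap.comp_apply]
  calc _ ≤ ∑ e ∈ Finset.range (E + 1), (1 / 2) ^ e *
        ((C1 * (C2 * (1 + c * 8)) * C3 * (n + 1) ^ (s1 + s3)) ^ n * nrm (n * s3) F) := by
        refine norm_sum_le_of_le _ fun e _ => (norm_sum_le_of_le _ fun z _ => t2 e z _).trans ?_
        rw [← Finset.mul_sum]
        refine (mul_le_mul_of_nonneg_left (h3 n e D F hF) (by positivity)).trans_eq ?_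
        rw [mul_add e, pow_add (2 : ℝ), mul_one, show C1 * (C2 * (1 + c * 8)) * C3 *
          ((n : ℝ) + 1) ^ (s1 + s3) = C1 * (n + 1) ^ s1 * (C2 * (1 + c * 8)) *
            (C3 * (n + 1) ^ s3) by ring, mul_pow _ (C3 * _), one_div, inv_pow]
        field_simp
    _ ≤ _ := by
        rw [← Finset.sum_mul, mul_assoc 2]
        gcongr
        exact sum_geometric_two_le _

end EX2

open EX2 in
theorem exists_S (hL : LinP W) (hQ : Qual W) (hG : Grow W) : ∃ S : ∀ n, Sw n →L[ℂ] ℂ,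
    (∃ (α : ℝ) (β s : ℕ), ∀ n F, ‖S n F‖ ≤ α * n ! ^ β * nrm (n * s) F) ∧
    ∀ n f F, Ten f F → Adm f → S n F = W (mon f) := by
  obtain ⟨C, s, c0, h⟩ := exists_T hL hG
  obtain ⟨α, β, hα⟩ := fac_le C s
  have : ∀ n, ∃ S : Sw n →L[ℂ] ℂ, (∀ F, ‖S F‖ ≤ 2 * α * n ! ^ β * nrm (n * s) F) ∧
      ∀ f F, Ten f F → Adm f → S F = W (mon f) := fun n => by
    obtain ⟨T, t1, t2⟩ := h n
    let Γ : Submodule ℂ (Sw n × ℂ) := .span ℂ {q | ∃ f, Ten f q.1 ∧ Adm f ∧ q.2 = W (mon f)}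
    have g1 : ∀ q ∈ Γ, Off q.1 ∧ ∀ᶠ E in atTop, ∀ᶠ D in atTop, wsum T E D q.1 = q.2 := by
      intro q hq
      induction hq using Submodule.span_induction with
      | mem q hq =>
        obtain ⟨f, f1, f2, f3⟩ := hq
        exact ⟨off_of f1 f2, f3 ▸ wsum_eq hL hQ t1 f1 f2⟩
      | zero =>
        refine ⟨fun x _ l => ?_, .of_forall fun _ => .of_forall fun _ => map_zero _⟩
        exact congrFun iteratedFDeriv_fun_zero x
      | add p q _ _ hp hq =>
        refine ⟨fun x hx l => ?_, ?_⟩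
        · have := iteratedFDeriv_add_apply (i := l) (x := x) (p.1.smooth l).contDiffAt
            (q.1.smooth l).contDiffAt
          rw [hp.1 x hx l, hq.1 x hx l, add_zero] at this
          exact this
        · filter_upwards [hp.2, hq.2] with E a b
          filter_upwards [a, b] with D a b
          rw [Prod.fst_add, Prod.snd_add, map_add, a, b]
      | smul c p _ hp =>
        refine ⟨fun x hx l => ?_, ?_⟩
        · have := iteratedFDeriv_const_smul_apply (i := l) (x := x) (a := c)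
            (p.1.smooth l).contDiffAt
          rw [hp.1 x hx l, smul_zero] at this
          exact this
        · filter_upwards [hp.2] with E a
          filter_upwards [a] with D a
          rw [Prod.smul_fst, Prod.smul_snd, map_smul, a]
    have k0 : 0 ≤ 2 * (C * (n + 1) ^ s) ^ n := by positivity
    obtain ⟨g, g2, g3⟩ := Module.Dual.exists_extension_of_le_seminorm Γ
      ((LinearMap.snd ℂ _ _).domRestrict Γ) (p := (NNReal.mk _ k0 • (Finset.Iic (n * s, n * s)).sup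
        (schwartzSeminormFamily ℂ _ _)).comp (LinearMap.fst ℂ (Sw n) ℂ)) fun q => by
      obtain ⟨E, a⟩ := (g1 q q.2).2.exists
      obtain ⟨D, a⟩ := a.exists
      exact (congrArg _ a).symm.trans_le (t2 E D _ (g1 q q.2).1)
    have g4 : ∀ F, ‖g (F, 0)‖ ≤ 2 * (C * (n + 1) ^ s) ^ n * nrm (n * s) F := fun F => g3 _
    refine ⟨SchwartzMap.mkCLMtoNormedSpace (σ := RingHom.id ℂ) (fun F => g (F, 0))
      (fun F G => by rw [← map_add, Prod.mk_add_mk, add_zero])
      (fun c F => by rw [RingHom.id_apply, ← map_smul, Prod.smul_mk, smul_zero])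
      ⟨_, _, k0, g4⟩, fun F => (g4 F).trans ?_, fun f F f1 f2 => ?_⟩
    · have := nrm_nonneg (n * s) F
      rw [mul_assoc 2 α]
      gcongr
      exact hα n
    · have a1 : g (0, W (mon f)) = 0 := norm_le_zero_iff.1 ((g3 _).trans_eq (by simp))
      have a2 := g2 ⟨(F, W (mon f)), Submodule.subset_span ⟨f, f1, f2, rfl⟩⟩
      have a3 := map_add g (F, 0) (0, W (mon f))
      rw [Prod.mk_add_mk, add_zero, zero_add, a1, add_zero] at a3
      exact a3.symm.trans a2
  choose S s1 s2 using this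
  exact ⟨S, ⟨2 * α, β, s, s1⟩, s2⟩

end Pool.Agent.Lib.MP_7f377f_mp.Lg
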