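import Pool.Agent.Lib.MP_7f377f_mp.G.SwK
import Pool.Agent.Lib.MP_7f377f_mp.G.LgEX2

/-! Rotation covariance from the stress tensor: integration of the Ward identity. -/

noncomputable section

namespace Pool.Agent.Lib.MP_7f377f_mp.Sw
variable [Pool.Agent.Lib.MP_7f377f_mp.GD]
set_option linter.unusedSectionVars false

open Filter Topology Set YM7 Pur Wm Lm Wv S3 Function Matrix Real
open Ro (Iso rot)
open scoped ContDiff

variable {k : ℕ} {Λ : Mat} {e : R4}

theorem om_anti (l : Fin 3) : (om l)ᵀ = -om l := by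
  ext i j
  fin_cases l <;> fin_cases i <;> fin_cases j <;> simp [om]

/-- the derivative along a Killing field -/
def lie (Λ : Mat) (e : R4) (f : R4 → ℝ) (y : R4) : ℝ := fderiv ℝ f y (-(act Λ y + e))

theorem lie_eq (hΛ : Λᵀ = -Λ) (e : R4) (f : Sm) : lie Λ e f = (-∑ ν, wl.d ν (kk Λ e ν * f)).1 := by
  have : ∀ ν, Λ ν ν = 0 := fun ν => by
    have : Λ ν ν = -Λ ν ν := congrFun₂ hΛ ν ν
    linarith
  funext y
  simp only [d_kk, this, zero_smul, zero_add, NegMemClass.coe_neg, Pi.neg_apply,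
    AddSubmonoidClass.coe_finset_sum, Finset.sum_apply, MulMemClass.coe_mul, Pi.mul_apply, kk_val]
  simp only [d_val, pd_eq f.2, lie, map_neg, ← smul_eq_mul, ← map_smul, ← map_sum]
  refine congrArg (fun v => -fderiv ℝ f.1 y v) ?_
  ext i
  simp [Pi.single_apply]

theorem rot_der (l : Fin 3) (y : R4) : HasDerivAt (fun t => rot l t y) (act (om l) y) 0 := by
  refine (PiLp.continuousLinearEquiv 2 ℝ fun _ : Fin 4 => ℝ).symm.hasFDerivAt.comp_hasDerivAt (0 : ℝ)
    (hasDerivAt_pi.2 fun i => ?_)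
  have c := fun a b => ((hasDerivAt_cos 0).mul_const a).fun_sub ((hasDerivAt_sin 0).mul_const b)
  have s := fun a b => ((hasDerivAt_sin 0).mul_const a).fun_add ((hasDerivAt_cos 0).mul_const b)
  split_ifs with h1 h2
  · exact (c _ _).congr_deriv (by simp [h1, om, mulVec, dotProduct, (Fin.succ_ne_zero l).symm])
  · exact (s _ _).congr_deriv (by simp [h2, om, mulVec, dotProduct])
  · exact (hasDerivAt_const _ _).congr_deriv (by simp [h1, h2, om, mulVec, dotProduct])

/-- `F` is the backward flow of the Killing field -/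
structure Fw (Λ : Mat) (e : R4) (F G : ℝ → R4 → R4) : Prop where
  an : Λᵀ = -Λ
  sm : ContDiff ℝ ∞ (uncurry F)
  co : Continuous fun p : ℝ × R4 => G p.1 p.2
  F0 : ∀ y, F 0 y = y
  G0 : ∀ y, G 0 y = y
  GF : ∀ t y, G t (F t y) = y
  der : ∀ y, HasDerivAt (fun t => F t y) (-(act Λ y + e)) 0

theorem fw_tr (e : R4) : Fw 0 e (fun t y => y - t • e) fun t y => y + t • e :=
  ⟨by simp, by unfold uncurry; fun_prop, by fun_prop, by simp, by simp, by simp,
    fun y => by simpa [act] using ((hasDerivAt_id (0 : ℝ)).smul_const e).const_sub y⟩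

theorem fw_rot (l : Fin 3) : Fw (om l) 0 (fun t => rot l (-t)) fun t => rot l t :=
  ⟨om_anti l, contDiff_euclidean.2 fun i => by
      simp only [uncurry, Ro.rot_apply, Ro.rv]
      split_ifs <;> fun_prop,
    (PiLp.continuous_toLp 2 _).comp (continuous_pi fun i => by split_ifs <;> fun_prop),
    by simp, by simp, fun t => (rot l t).apply_symm_apply, fun y =>
    ((rot_der l y).scomp_of_eq 0 (hasDerivAt_neg (0 : ℝ)) (by simp)).congr_deriv (by simp)⟩

variable {V P : Type} [NormedAddCommGroup V] [NormedSpace ℝ V] [CommRing P] [Algebra ℂ P]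
  {Φ : Fil V} {N : Net P} {x : V → (R4 → ℝ) → P} {W : P →ₗ[ℂ] ℂ} {ρ : Iso →* V →ₗ[ℝ] V}
  {A : ℝ → V ≃ₗ[ℝ] V} {S : Cor V} {T : Fin 4 → Fin 4 → V} {D δ : Fin 4 → V →ₗ[ℝ] V}
  {σ : Mat → V →ₗ[ℝ] V} {g : Fin k → R4 → ℝ}

theorem ds_lie (hΛ : Λᵀ = -Λ) (e : R4) {O : Set R4} {f : R4 → ℝ} (hf : Ds O f) : Ds O (lie Λ e f) :=
  lie_eq hΛ e ⟨f, hf.1⟩ ▸ neg_mem (sum_mem fun _ _ =>
    Id.st _ _ _ ((S3.Id O).mul_mem_left _ (b := ⟨f, hf.1⟩) hf))

namespace Rg
variable (h : Rg Φ N x W ρ A S)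
include h

theorem lie (d : Der Φ N x W D) (hΛ : Λᵀ = -Λ) (e : R4) (b : V) {f : R4 → ℝ} (hf : Ds univ f) {Z : P}
    (hZ : Z ∈ N.loc (tsupport f)ᶜ) :
    ∑ ν, W (x (D ν b) (km Λ e ν f) * Z) = -W (x b (lie Λ e f) * Z) := by
  lift f to Sm using hf.1
  have m : ∀ ν, wl.d ν (kk Λ e ν * f) ∈ S3.Id (tsupport f.1) := fun ν =>
    Id.st _ _ _ ((S3.Id _).mul_mem_left _ hf.self)
  obtain ⟨B, hB⟩ := h.bil hZ
  rw [lie_eq hΛ, ← hB _ (neg_mem (sum_mem fun ν _ => m ν)), map_neg, map_sum, LinearMap.neg_apply,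
    neg_neg, LinearMap.sum_apply]
  exact Finset.sum_congr rfl fun ν _ => by
    have k := ds_km (Λ := Λ) (e := e) hf.self ν
    rw [hB _ (m ν), d.der _ _ _ k.univ _ (N.mono hZ (compl_subset_compl.2 k.2.2)), km_eq, d_val]

theorem tot (hc : Cu Φ N x W ρ T) (ho : Ops Φ N x W T D δ σ) (hΛ : Λᵀ = -Λ)
    (hn : ∀ r, ∀ Z ∈ N.loc (Bx r), ∀ ξ, Ds univ ξ → (∀ μ, Ds {y | ∃ l, r < |y l|} (pd μ ξ)) →
      ∑ μ, ∑ ν, cv W (x (T μ ν) (km Λ e ν (pd μ ξ))) Z = 0)
    (c : Fin k → V) (hg : Adm g) (hs : ∀ i, Ds univ (g i)) :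
    ∑ i, W ((∑ ν, x (δ ν (c i)) (km Λ e ν (g i)) - x (σ Λ (c i)) (g i)) *
      ∏ j ∈ Finset.univ.erase i, x (c j) (g j)) = 0 := by
  obtain ⟨s, h1⟩ := (isCompact_iUnion fun i => (hs i).2.1.isCompact).isBounded.subset_ball 0
  have h2 : ∀ i, tsupport (g i) ⊆ Bx s := fun i y hy l => (PiLp.norm_apply_le y l).trans_lt
    (mem_ball_zero_iff.1 (h1 (mem_iUnion.2 ⟨i, hy⟩)))
  obtain ⟨ξ, x1, x2⟩ := bump ((PiLp.homeomorph 2 fun _ : Fin 4 => ℝ).isCompact_preimage.2
    (isCompact_univ_pi fun _ => isCompact_Icc (a := -s) (b := s))) isOpen_univ (subset_univ _)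
  have := hn s _ (gen_mem h.gen c hg h2) ξ x1 fun μ => (gs_diff x1 x2 μ).mono fun y hy =>
    by_contra fun n => hy.2 fun l _ => abs_le.1 (not_lt.1 fun e => n ⟨l, e⟩)
  have z := h.kill (e := e) hc hΛ x1 (N.one _)
  have w := h.ward (e := e) hc ho hΛ c hg hs x1 (a := 1) fun i =>
    x2.filter_mono (nhdsSet_mono fun y hy => by exact fun l _ => abs_le.1 (h2 i hy l).le)
  simp only [Pi.one_apply, Complex.ofReal_one, one_mul, mul_one, fl, Finset.sum_mul, map_sum] at w z ⊢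
  simp only [cv, Finset.sum_sub_distrib, ← Finset.sum_mul, z, zero_mul, sub_zero] at this
  exact w.symm.trans this

theorem fd {F G : ℝ → R4 → R4} (w : Fw Λ e F G) {n : ℕ} {c : ℝ → Fin k → V} {c' : Fin k → V}
    (c1 : ∀ t i, c t i ∈ Φ.F n) (c2 : ∀ i, c' i ∈ Φ.F n) (c3 : ∀ i, HasDerivAt (fun t => c t i) (c' i) 0)
    (hg : Adm g) (hs : ∀ i, Ds univ (g i)) :
    HasDerivAt (fun t => W (∏ i, x (c t i) fun y => g i (F t y)))
      (∑ i, W ((x (c' i) (g i) + x (c 0 i) (Sw.lie Λ e (g i))) *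
        ∏ j ∈ Finset.univ.erase i, x (c 0 j) (g j))) 0 := by
  obtain ⟨s, s0, e⟩ := Lg.EX2.sep_of hg
  choose K k1 k2 k3 using fun i => flow (f := ⟨_, (hs i).1⟩) Metric.isOpen_thickening
    ((hs i).self.mono (Metric.self_subset_thickening s0 _))
    (fun t => w.sm.comp (contDiff_const.prodMk contDiff_id)) w.co w.G0 w.GF
  simpa only [mul_one, w.F0] using h.md (F := fun i t y => g i (F t y)) k1
    (fun i j n => (e i j n).mono ((k2 i).trans (Metric.thickening_subset_cthickening _ _))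
      ((k2 j).trans (Metric.thickening_subset_cthickening _ _))) (N.one _) c1 c2 c3
    (fun i => ((hs i).1.comp w.sm).of_le (by simp))
    (fun i => dc (ds_lie w.an _ ⟨(hs i).1, (hs i).2.1, by
      have : tsupport (fun y => g i (F 0 y)) ⊆ K i := (k3 i).self_of_nhds.2.2
      simpa only [w.F0] using this⟩))
    (fun i y => ((hs i).1.differentiable (by simp) y).hasFDerivAt.comp_hasDerivAt_of_eq _ (w.der y)
      (w.F0 y).symm) fun i => (k3 i).mono fun t => dc

theorem sup (c : Fin k → V) (hg : Adm g) {u : ℕ → Fin k → R4 → ℝ}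
    (h1 : ∀ n i, C1 (tsupport (g i)) (u n i)) (h2 : ∀ n i y, dist (u n i y) (g i y) ≤ 1 / (n + 1)) :
    Tendsto (fun n => W (∏ i, x (c i) (u n i))) atTop (𝓝 (W (∏ i, x (c i) (g i)))) := by
  obtain ⟨M, hM⟩ := h.cmm c (fun i => (hg.1 i).1.isCompact) hg.2 (N.one _)
  have := (M.cont.tendsto fun i => cb (c1_adm hg i)).comp
    (tendsto_pi_nhds.2 fun i => tendsto_iff_dist_tendsto_zero.2 (squeeze_zero (fun _ => dist_nonneg)
      (fun n => (BoundedContinuousFunction.dist_le (f := (cb (h1 n i)).1) (by positivity)).2 (h2 n i))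
      tendsto_one_div_add_atTop_nhds_zero_nat) : Tendsto (fun n i => cb (h1 n i)) atTop _)
  exact (this.congr fun n => (hM _).trans (congrArg W (mul_one _))).trans
    (congrArg 𝓝 ((hM _).trans (congrArg W (mul_one _)))).le

theorem dense (R : Iso) {c c' : Fin k → V} (e : ∀ f, Adm f → (∀ i, Ds univ (f i)) →
    W (∏ i, x (c i) fun y => f i (R y)) = W (∏ i, x (c' i) (f i))) (hg : Adm g) :
    W (∏ i, x (c i) fun y => g i (R y)) = W (∏ i, x (c' i) (g i)) := by
  choose u u1 u2 u3 using fun (n : ℕ) i => (hg.1 i).2.continuous.exists_contDiff_approx ⊤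
    (ε := fun _ => 1 / (n + 1)) continuous_const fun _ => by positivity
  have d : ∀ n i, Ds (tsupport (g i)) (u n i) := fun n i =>
    ⟨u1 n i, (hg.1 i).1.mono (u3 n i), closure_mono (u3 n i)⟩
  refine tendsto_nhds_unique ((h.sup c (Ro.adm_act hg R.symm) (fun n i => dc ?_)
    fun n i y => (u2 n i _).le).congr fun n => e _ (adm_c1 hg.2 fun i => dc (d n i)) fun i =>
      (d n i).univ) (h.sup c' hg (fun n i => dc (d n i)) fun n i y => (u2 n i y).le)
  exact (d n i).comp R.contDiff R.symm.continuous R.symm_apply_apply fun z hz =>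
    (tsupport_comp_eq_preimage (g i) R.toHomeomorph).ge (by simpa using hz)

theorem rotc (hc : Cu Φ N x W ρ T) (ho : Ops Φ N x W T D δ σ) (eq : δ = D) (hn : Nsb N x W T)
    (l : Fin 3) (θ : ℝ) (c : Fin k → V) (hg : Adm g) : W (∏ i, x (c i) fun y => g i (rot l θ y)) =
      W (∏ i, x ((Fil.exp (θ • (⟨σ (om l), ho.upσ _⟩ : Φ.alg))).1 (c i)) (g i)) := by
  refine h.dense _ (fun f hf hs => ?_) hg
  generalize hM : (⟨σ (om l), ho.upσ _⟩ : Φ.alg) = M
  choose d hd using fun i => Φ.ex (c i)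
  have := is_const_of_deriv_eq_zero (f := fun s : ℝ =>
    W (∏ i, x ((Fil.exp (s • M)).1 (c i)) fun y => f i (rot l (θ - s) y))) ?_ ?_ 0 θ
  · simpa [-zero_smul, Fil.exp_zero] using this
  all_goals
    intro s
    have m := fun i => (Fil.exp (s • M)).2 _ _
      (Φ.mono (Finset.le_sup (f := d) (Finset.mem_univ i)) (hd i))
    have a : Adm fun i y => f i (rot l (θ - s) y) := Ro.adm_act hf (rot l (θ - s)).symm
    have b : ∀ i, Ds univ fun y => f i (rot l (θ - s) y) := fun i => (hs i).comp (rot _ _).contDiff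
      (rot _ _).symm.continuous (rot _ _).symm_apply_apply fun _ _ => trivial
    have e1 := h.fd (fw_rot l) (fun t i => (Fil.exp (t • M)).2 _ _ (m i)) (fun i => M.2 _ _ (m i))
      (fun i => Fil.exp_der M _) a b
    have e2 := h.tot hc ho (om_anti l) (hn l) (fun i => (Fil.exp (s • M)).1 (c i)) a b
    have e3 : HasDerivAt (fun s : ℝ => W (∏ i, x ((Fil.exp (s • M)).1 (c i))
        fun y => f i (rot l (θ - s) y))) 0 s := by
      refine (HasDerivAt.comp_sub_const s s ((sub_self s).symm ▸ e1)).congr_deriv ?_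
        |>.congr_of_eventuallyEq (.of_forall fun t => ?_)
      · rw [← neg_eq_zero, ← Finset.sum_neg_distrib, ← e2]
        refine Finset.sum_congr rfl fun i _ => ?_
        have p := h.prodE (fun i => (Fil.exp (s • M)).1 (c i)) a i fun j n => (a.2 n).subset_compl_right
        simp only [sub_self, Fil.exp_zero, OneMemClass.coe_one, Module.End.one_apply, add_mul, sub_mul,
          Finset.sum_mul, map_add, map_sub, map_sum, eq, ← hM]
        rw [h.lie ho.toDer (om_anti l) 0 _ (b i) (hM ▸ p)]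
        ring
      · simp only [← Module.End.mul_apply, ← MulMemClass.coe_mul, ← Fil.exp_add, sub_add_cancel,
          Ro.rot_apply, Ro.rv_rv, neg_sub, sub_add_sub_cancel]
    first | exact e3.differentiableAt | exact e3.deriv

end Rg

end Pool.Agent.Lib.MP_7f377f_mp.Sw
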