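import Pool.Agent.Lib.MP_7f377f_mp.G.AnD
import Pool.Agent.Lib.MP_7f377f_mp.G.SwC

/-! The trace of the stress tensor: the derivative of the two point function. -/

noncomputable section

namespace Pool.Agent.Lib.MP_7f377f_mp.An
variable [Pool.Agent.Lib.MP_7f377f_mp.GD]
set_option linter.unusedSectionVars false

open MeasureTheory Filter Topology Set YM7 Pur Wm Lm Wv S3 Sw Function Matrix Real
open Ro (Iso prm)
open scoped ContDiff NNReal

variable {V P : Type} [NormedAddCommGroup V] [NormedSpace ℝ V] [CommRing P] [Algebra ℂ P]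
  {Φ : Fil V} {N : Net P} {x : V → (R4 → ℝ) → P} {W : P →ₗ[ℂ] ℂ} {ρ : Iso →* V →ₗ[ℝ] V}
  {A : ℝ → V ≃ₗ[ℝ] V} {S : Cor V} {T : Fin 4 → Fin 4 → V} {D δ : Fin 4 → V →ₗ[ℝ] V}
  {σ : Mat → V →ₗ[ℝ] V} {φ u lg c : V} {f g ξ η v : R4 → ℝ}

theorem lie1 (f : Sm) : lie 1 0 f = ((4 : ℝ) • f - ∑ ν, wl.d ν (kk 1 0 ν * f)).1 := by
  funext y
  simp only [d_kk, one_apply_eq, Finset.sum_add_distrib, ← Finset.sum_smul, Finset.sum_const,
    Finset.card_univ, Fintype.card_fin, nsmul_eq_mul, mul_one, Nat.cast_ofNat, sub_add_cancel_left,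
    NegMemClass.coe_neg, Pi.neg_apply, AddSubmonoidClass.coe_finset_sum, Finset.sum_apply,
    MulMemClass.coe_mul, Pi.mul_apply, kk_val]
  simp only [d_val, pd_eq f.2, lie, map_neg, ← smul_eq_mul, ← map_smul, ← map_sum]
  refine congrArg (fun v => -fderiv ℝ f.1 y v) ?_
  ext i
  simp [Pi.single_apply]

theorem ds_lie1 {O : Set R4} (hf : Ds O f) : Ds O (lie 1 0 f) :=
  lie1 ⟨f, hf.1⟩ ▸ sub_mem ((S3.Id O).smul_of_tower_mem _ (x := ⟨f, hf.1⟩) hf) (sum_mem fun _ _ =>
    Id.st _ _ _ ((S3.Id O).mul_mem_left _ (b := ⟨f, hf.1⟩) hf))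

theorem w_lie1 (h : Rg Φ N x W ρ A S) (d : Der Φ N x W D) (b : V) (hf : Ds univ f) {Z : P}
    (hZ : Z ∈ N.loc (tsupport f)ᶜ) : W (x b (lie 1 0 f) * Z) =
      4 * W (x b f * Z) - ∑ ν, W (x (D ν b) (km 1 0 ν f) * Z) := by
  lift f to Sm using hf.1
  have m : ∀ ν, wl.d ν (kk 1 0 ν * f) ∈ S3.Id (tsupport f.1) := fun ν =>
    Id.st _ _ _ ((S3.Id _).mul_mem_left _ hf.self)
  obtain ⟨B, hB⟩ := h.bil hZ
  rw [lie1, ← hB _ (sub_mem ((S3.Id _).smul_of_tower_mem _ hf.self) (sum_mem fun ν _ => m ν)),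
    map_sub, map_sum, map_smul, LinearMap.sub_apply, LinearMap.smul_apply, LinearMap.sum_apply,
    hB _ hf.self, Complex.real_smul, Complex.ofReal_ofNat]
  exact congrArg _ (Finset.sum_congr rfl fun ν _ => by
    have k := ds_km (Λ := 1) (e := 0) hf.self ν
    rw [hB _ (m ν), d.der _ _ _ k.univ _ (N.mono hZ (compl_subset_compl.2 k.2.2)), km_eq, d_val])

theorem dil (h : Rg Φ N x W ρ A S) {k : ℕ} (c : Fin k → V) {g : Fin k → R4 → ℝ} (hg : Adm g)
    (hs : ∀ i, Ds univ (g i)) :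
    HasDerivAt (fun s : ℝ => W (∏ i, x (c i) fun y => g i (exp (-s) • y)))
      (∑ i, W ((x 0 (g i) + x (c i) (lie 1 0 (g i))) *
        ∏ j ∈ Finset.univ.erase i, x (c j) (g j))) 0 := by
  obtain ⟨s, s0, e⟩ := Lg.EX2.sep_of hg
  obtain ⟨n, hn⟩ := Φ.exs c
  have sm : ContDiff ℝ ∞ (uncurry fun (s : ℝ) (y : R4) => exp (-s) • y) := by
    unfold uncurry
    fun_prop
  choose K k1 k2 k3 using fun i => flow (f := ⟨_, (hs i).1⟩) Metric.isOpen_thickening
    ((hs i).self.mono (Metric.self_subset_thickening s0 _)) (G := fun s y => exp s • y)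
    (H := fun s y => exp (-s) • y)
    (fun t => sm.comp (contDiff_const.prodMk contDiff_id)) (by fun_prop) (by simp)
    fun t y => by simp [smul_smul, ← exp_add]
  simpa only [mul_one, neg_zero, exp_zero, one_smul, Pi.zero_apply] using h.md (c := fun _ => c) (c' := 0)
    (F := fun i s y => g i (exp (-s) • y)) (F' := fun i => lie 1 0 (g i)) k1
    (fun i j n => (e i j n).mono ((k2 i).trans (Metric.thickening_subset_cthickening _ _))
      ((k2 j).trans (Metric.thickening_subset_cthickening _ _))) (N.one _) (fun _ => hn)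
    (fun _ => zero_mem _) (fun _ => hasDerivAt_const ..)
    (fun i => ((hs i).1.comp sm).of_le (by simp))
    (fun i => dc (ds_lie1 ⟨(hs i).1, (hs i).2.1, by
      have : tsupport (fun y => g i (exp (-0) • y)) ⊆ K i := (k3 i).self_of_nhds.2.2
      simpa only [neg_zero, exp_zero, one_smul] using this⟩))
    (fun i y => ((hs i).1.differentiable (by simp) y).hasFDerivAt.comp_hasDerivAt_of_eq _
      (((hasDerivAt_neg (0 : ℝ)).exp.smul_const y).congr_deriv (by simp [act])) (by simp))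
    fun i => (k3 i).mono fun t => dc

theorem gder (h : Rg Φ N x W ρ A S) (hD : Der Φ N x W D) (hf : Ds univ f)
    (hg : Ds (tsupport f)ᶜ g) {t : ℝ} (t0 : 0 < t) :
    HasDerivAt (fun t : ℝ => W (x c (sc t f) * x c (sc t g)))
      ((8 * W (x c (sc t f) * x c (sc t g)) -
        ∑ ν, W (x (D ν c) (km 1 0 ν (sc t f)) * x c (sc t g)) -
        ∑ ν, W (x (D ν c) (km 1 0 ν (sc t g)) * x c (sc t f))) / t) t := by
  have a := adm_sc (adm_two (dc hf.self) (dc hg)) t0
  have f1 := (ds_sc hf t0).univ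
  have g1 := (ds_sc hg t0).univ
  have d : Disjoint (tsupport (sc t f)) (tsupport (sc t g)) := a.2 (show (0 : Fin 2) ≠ 1 by simp)
  have m1 := h.mem c (c1m (c1s (dc g1)) d.subset_compl_left)
  have m2 := h.mem c (c1m (c1s (dc f1)) d.subset_compl_right)
  have z : ∀ {u Z}, Ds univ u → Z ∈ N.loc (tsupport u)ᶜ → W (x 0 u * Z) = 0 := fun hu hZ =>
    (h.lab (dc hu.self) hZ).map_zero
  have := (dil h ![c, c] a (Fin.forall_fin_two.2 ⟨f1, g1⟩)).scomp_of_eq t
    ((hasDerivAt_log t0.ne').sub_const (log t)) (sub_self _).symm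
  have p0 : Finset.univ.erase (0 : Fin 2) = {1} := by decide
  have p1 : Finset.univ.erase (1 : Fin 2) = {0} := by decide
  simp only [Fin.sum_univ_two, Fin.prod_univ_two, p0, p1, Finset.prod_singleton, cons_val_zero,
    cons_val_one, add_mul, map_add, z f1 m1, z g1 m2, w_lie1 h hD c f1 m1, w_lie1 h hD c g1 m2,
    mul_comm (x c (sc t g)) (x c (sc t f))] at this
  refine (this.congr_of_eventuallyEq ((lt_mem_nhds t0).mono fun s (e : 0 < s) => ?_)).congr_deriv ?_
  · have : ∀ y : R4, t⁻¹ • exp (-(log s - log t)) • y = s⁻¹ • y := fun y => by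
      rw [smul_smul, neg_sub, exp_sub, exp_log t0, exp_log e, div_eq_mul_inv,
        inv_mul_cancel_left₀ t0.ne']
    simp only [Function.comp_apply, sc, this]
  · rw [Complex.real_smul, Complex.ofReal_inv]
    ring

end Pool.Agent.Lib.MP_7f377f_mp.An
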