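import Pool.Agent.Lib.MP_7f377f_mp.G.SwT
import Pool.Agent.Lib.MP_7f377f_mp.G.SwC

/-! Rotation covariance from the stress tensor: the contour maps are the derivatives. -/

noncomputable section

namespace Pool.Agent.Lib.MP_7f377f_mp.Sw
variable [Pool.Agent.Lib.MP_7f377f_mp.GD]
set_option linter.unusedSectionVars false

open Filter Topology Set YM7 Pur Wm Lm Wv S3 Function Matrix Real ComplexConjugate
open Ro (Iso rot)
open scoped ContDiff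

variable {O : Set R4} {f g ξ : R4 → ℝ} {t : ℝ} {Λ : Mat} {e : R4}

theorem hs_op : IsOpen (Hs 0 0) := isOpen_lt continuous_const (by fun_prop)

theorem One.mono (h : One ξ f) (hg : Ds (tsupport f) g) : One ξ g :=
  ⟨h.1, h.2.filter_mono (nhdsSet_mono hg.2.2)⟩

theorem One.rf (h : One ξ f) (μ : Fin 4) : One (fun y => ξ (rf μ y)) fun y => f (rf μ y) :=
  ⟨h.1.rf μ, ((rf_sm μ).continuous.tendsto_nhdsSet
    (tsupport_comp_subset_preimage f (rf_sm μ).continuous)).eventually h.2⟩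

theorem pd_rf (h : ContDiff ℝ ∞ f) (μ ν : Fin 4) :
    pd ν (fun y => f (rf μ y)) = sr μ ν • fun y => pd ν f (rf μ y) := by
  funext y
  refine (pd_has (h.comp (rf_sm μ)) ν y).unique ?_
  have := HasDerivAt.scomp (0 : ℝ) (h := fun s => s * sr μ ν)
    (by simpa using pd_has h ν (rf μ y)) (hasDerivAt_mul_const (sr μ ν))
  refine this.congr_of_eventuallyEq (.of_forall fun s => congrArg f ?_)
  ext i
  by_cases e : i = ν <;> simp [rf_eq, e, mul_add, mul_comm]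

theorem km_sct (ht : 0 < t) (ν : Fin 4) : km Λ 0 ν (sc t f) = t • sc t (km Λ 0 ν f) := by
  funext y
  simp [km, act_apply, Finset.mul_sum, mul_left_comm _ t⁻¹, ← mul_assoc, ht.ne']

theorem rot_pi (l : Fin 3) : rot l π = rfL 0 * rfL l.succ := LinearIsometryEquiv.ext fun y => by
  ext i
  simp only [LinearIsometryEquiv.coe_mul, Function.comp_apply, rfL_eq, rf_eq, Ro.rot_apply, Ro.rv,
    sr]
  fin_cases l <;> fin_cases i <;> simp

variable {V P : Type} [NormedAddCommGroup V] [NormedSpace ℝ V] [CommRing P] [Algebra ℂ P]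
  {Φ : Fil V} {N : Net P} {x : V → (R4 → ℝ) → P} {W : P →ₗ[ℂ] ℂ} {ρ : Iso →* V →ₗ[ℝ] V}
  {T T₀ : Fin 4 → Fin 4 → V} {A : ℝ → V ≃ₗ[ℝ] V} {S : Cor V} {D δ : Fin 4 → V →ₗ[ℝ] V}
  {σ : Mat → V →ₗ[ℝ] V} {δ₀ : Fin 4 → V → V} {σ₀ : Fin 3 → V →ₗ[ℝ] V} {Z : P}

theorem rr (μ : Fin 4) (c : V) : ρ (rfL μ) (ρ (rfL μ) c) = c := by
  rw [← Module.End.mul_apply, ← map_mul, Lg.PI.rfL_mul, map_one, Module.End.one_apply]

variable (x W δ σ) in
/-- the commutation relation of `E` with the contour maps -/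
def Cm (Λ : Mat) (e : R4) (α : Fin 4) (E : V →ₗ[ℝ] V) : Prop :=
  ∀ c c' f g, Ds (Hs 0 0) f → Ds (Hs 0 0)ᶜ g →
    ∑ ν, W (x (δ ν (E c)) (km Λ e ν f) * x c' g) - W (x (σ Λ (E c)) f * x c' g) =
      ∑ ν, W (x (E (δ ν c)) (km Λ e ν f) * x c' g) - W (x (E (σ Λ c)) f * x c' g) -
        ∑ β, Λ β α * W (x (δ β c) f * x c' g)

namespace Rg
variable (h : Rg Φ N x W ρ A S)
include h

theorem smf (c : V) (t : ℝ) (hf : Ds O f) (hZ : Z ∈ N.loc Oᶜ) :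
    W (x c (t • f) * Z) = t * W (x c f * Z) := by
  simpa [h.lf0 c hZ] using h.lf c t (Cb O).zero_mem (dc hf) hZ

theorem smc (c : V) (t : ℝ) (hf : Ds O f) (hZ : Z ∈ N.loc Oᶜ) :
    W (x (t • c) f * Z) = t * W (x c f * Z) := map_smul (h.lab (dc hf) hZ) t c

theorem trl (hZ : Z ∈ N.loc O) (u : Fin 4 → V) (ν : Fin 4) (f : R4 → ℝ) :
    ∑ α, W (x (u α) (km 0 (ax ν 1) α f) * Z) = W (x (u ν) f * Z) := by
  rw [Finset.sum_eq_single ν (fun α _ e => by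
    rw [km_tr, if_neg e, h.lf0 _ (O := ∅) (N.mono hZ (by simp))]) (by simp), km_tr, if_pos rfl]

theorem mz (c : V) (hf : Ds univ f) (hξ : One ξ f) (hZ : Z ∈ N.loc (tsupport ξ)ᶜ) :
    x c f * Z ∈ N.loc (tsupport ξ \ tsupport f)ᶜ :=
  N.mono (N.mul (h.mem c (dc hf.self)) hZ (disjoint_compl_right.mono_left hξ.sub))
    (union_subset (fun _ a b => b.2 a) fun _ a b => a b.1)

theorem fz (hξ : One ξ f) (hO : Ds O ξ) (hZ : Z ∈ N.loc Oᶜ) :
    fl x T Λ e ξ * Z ∈ N.loc (tsupport f)ᶜ :=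
  N.mono (N.mul (h.fl_mem hξ.gs) hZ (disjoint_compl_right.mono_left (diff_subset.trans hO.2.2)))
    (union_subset (diff_subset_compl _ _) (compl_subset_compl.2 (hξ.sub.trans hO.2.2)))

theorem qt (ho : Ops Φ N x W T D δ σ) (ν : Fin 4) (c : V) (hf : Ds univ f) (hξ : One ξ f)
    (hZ : Z ∈ N.loc (tsupport ξ)ᶜ) :
    ∑ μ, W (x (T μ ν) (pd μ ξ) * (x c f * Z)) = W (x (δ ν c) f * Z) := by
  have := ho.q 0 (ax ν 1) c f ξ (by simp) hf hξ Z hZ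
  simp only [fl, Finset.sum_mul, map_sum, mul_assoc, h.trl (h.mz c hf hξ hZ), h.trl hZ, ho.σ0,
    LinearMap.zero_apply] at this
  rw [this, sub_eq_self]
  exact (h.lab (dc hf.self) (N.mono hZ (compl_subset_compl.2 hξ.sub))).map_zero

theorem thw (μ : Fin 4) (c : V) (hf : Ds O f) (hZ : Z ∈ N.loc Oᶜ) :
    W (x (ρ (rfL μ) c) f * Z) = conj (W (x c (fun y => f (rf μ y)) * N.Θ μ Z)) := by
  have := h.st.herm μ (Net.adm (N.mul (h.mem (ρ (rfL μ) c) (dc hf)) hZ disjoint_compl_right))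
  rw [map_mul, h.gen.refl, rr] at this
  rw [this, Complex.conj_conj]

theorem ext2 {a b : V} (e : ∀ c f g, Ds (Hs 0 0) f → Ds (Hs 0 0)ᶜ g →
    W (x a f * x c g) = W (x b f * x c g)) : a = b :=
  sub_eq_zero.1 (h.nd' _ fun c f hf => (map_sub (h.lab (dc hf) (h.mem c (dc (ds_rf hf)))) a b).trans
    (sub_eq_zero.2 (e c f _ hf (ds_rf hf))))

theorem cmD (ho : Ops Φ N x W T D δ σ) (hΛ : Λᵀ = -Λ) (α : Fin 4) : Cm x W δ σ Λ e α (D α) := by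
  intro c c' f g hf hg
  have hZ := h.mem c' (dc hg)
  obtain ⟨ξ, x1, x2⟩ := exists_one hf hs_op
  have z : ∀ {u}, Ds (Hs 0 0) u → x c' g ∈ N.loc (tsupport u)ᶜ := fun hu =>
    N.mono hZ (compl_subset_compl.2 hu.2.2)
  have e1 := ho.q Λ e (D α c) f ξ hΛ hf.univ x2 _ (z x1)
  have e2 := ho.q Λ e c _ ξ hΛ (hf.pd α).univ (x2.mono (hf.self.pd α)) _ (z x1)
  have e3 := ho.der α c f hf.univ _ (h.fz (T := T) (Λ := Λ) (e := e) x2 x1 hZ)
  rw [mul_left_comm, mul_left_comm (x c _), ← mul_assoc, ← mul_assoc, e1, e2] at e3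
  obtain ⟨B, hB⟩ := h.bil hZ
  lift f to Sm using hf.1
  have m := fun ν => (S3.Id _).mul_mem_left (kk Λ e ν) hf
  rw [e3]
  simp only [ho.der _ _ _ hf.univ _ (z hf), fun ν c => ho.der α c _ (ds_km hf ν).univ _
    (z (ds_km (Λ := Λ) (e := e) hf ν))]
  simp only [← d_val, km_eq, ← hB _ (Id.st _ _ _ (m _)), ← hB _ (Id.st _ _ _ hf), ← hB _ hf,
    ← hB _ ((S3.Id _).mul_mem_left _ (Id.st _ _ _ hf))]
  simp only [d_kk, map_add, map_smul, LinearMap.add_apply, LinearMap.smul_apply,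
    Finset.sum_add_distrib, Complex.real_smul]
  ring

theorem cmδ (hc : Cu Φ N x W ρ T) (ho : Ops Φ N x W T D δ σ) (hΛ : Λᵀ = -Λ)
    (tr : ∀ ν μ α, δ ν (T μ α) = D ν (T μ α))
    (ro : ∀ μ α, σ Λ (T μ α) = ∑ β, (Λ β μ • T β α + Λ β α • T μ β)) (α : Fin 4) :
    Cm x W δ σ Λ e α (δ α) := by
  intro c c' f g hf hg
  have hZ := h.mem c' (dc hg)
  obtain ⟨ζ, z1, z2⟩ := exists_one hf hs_op
  obtain ⟨ξ, x1, x2⟩ := exists_one z1 hs_op
  have z : ∀ {u}, Ds (Hs 0 0) u → x c' g ∈ N.loc (tsupport u)ᶜ := fun hu =>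
    N.mono hZ (compl_subset_compl.2 hu.2.2)
  have x3 : One ξ f := ⟨x2.1, x2.2.filter_mono (nhdsSet_mono z2.sub)⟩
  have e1 := ho.q Λ e (δ α c) f ξ hΛ hf.univ x3 _ (z x1)
  have e2 := h.qt ho α c hf.univ z2 (h.fz (T := T) (Λ := Λ) (e := e) x2 x1 hZ)
  have dj : ∀ {u}, Ds (Hs 0 0) u → Disjoint (tsupport u) (tsupport g) := fun hu =>
    disjoint_compl_right.mono hu.2.2 hg.2.2
  have e3 := fun μ => h.ward (e := e) hc ho hΛ ![T μ α, c, c'] (g := ![pd μ ζ, f, g])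
    (PN.adm_cons (z1.pd μ).2.1 (dc (z1.pd μ)).2.1 (adm_two (dc hf) (dc hg)) (Fin.forall_fin_two.2
      ⟨disjoint_sdiff_left.mono_left (z2.gs μ).2.2, dj (z1.pd μ)⟩))
    (Fin.forall_fin_succ.2 ⟨(z1.pd μ).univ, Fin.forall_fin_two.2 ⟨hf.univ, hg.univ⟩⟩) x1.univ
    (a := ![1, 1, 0]) (Fin.forall_fin_succ.2 ⟨(x2.mono (z1.self.pd μ)).2,
      Fin.forall_fin_two.2 ⟨x3.2, zero_near (dj x1)⟩⟩)
  have p0 : Finset.univ.erase (0 : Fin 3) = {1, 2} := by decide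
  have p1 : Finset.univ.erase (1 : Fin 3) = {0, 2} := by decide
  simp only [Fin.sum_univ_three, Fin.prod_univ_three, p0, p1, cons_val, ne_eq, Fin.reduceEq,
    not_false_eq_true, Finset.prod_pair, Complex.ofReal_one, Complex.ofReal_zero, one_mul, zero_mul,
    add_zero, sub_mul, Finset.sum_mul, map_sub, map_sum, tr, ro] at e3
  rw [mul_left_comm (x (δ α c) f), ← mul_assoc (fl ..), e1] at e2
  simp only [mul_left_comm _ (fl x T Λ e ξ), ← mul_assoc (x (T _ _) _), e3, Finset.sum_add_distrib,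
    Finset.sum_sub_distrib, mul_left_comm _ (x (T _ α) _)] at e2
  have q := Finset.sum_comm.trans (Finset.sum_congr (s₁ := .univ) rfl fun ν _ => h.qt ho α (δ ν c)
    (ds_km hf ν).univ (z2.mono (ds_km (Λ := Λ) (e := e) hf.self ν)) (z z1))
  simp only [mul_assoc, q, h.qt ho α _ hf.univ z2 (z z1)] at e2
  have hY := h.mz c hf.univ z2 (z z1)
  obtain ⟨B, hB⟩ := h.bil hY
  lift ζ to Sm using z1.1
  have m : ∀ μ, wl.d μ ζ ∈ S3.Id _ := z2.gs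
  have m' := fun ν μ => (S3.Id _).mul_mem_left (kk Λ e ν) (m μ)
  have y : ∀ u ∈ S3.Id _, x c f * x c' g ∈ N.loc (tsupport u.1)ᶜ := fun u hu =>
    N.mono hY (compl_subset_compl.2 hu.2.2)
  have s := sum_mem (t := Finset.univ) fun ν _ => m' ν ν
  have e4 := hc.con α _ (Ds.univ s) _ (y _ s)
  have d0 : ∀ ν, Λ ν ν = 0 := fun ν => by
    have : Λ ν ν = -Λ ν ν := congrFun₂ hΛ ν ν
    linarith
  have e5 : ∑ μ, ∑ ν, Λ ν μ • B (wl.d ν ζ) (T μ α) = -∑ μ, ∑ ν, Λ ν μ • B (wl.d μ ζ) (T ν α) := by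
    rw [Finset.sum_comm]
    simp only [← Finset.sum_neg_distrib, ← neg_smul]
    exact Finset.sum_congr rfl fun μ _ => Finset.sum_congr rfl fun ν _ =>
      congrArg (· • _) (congrFun₂ hΛ ν μ)
  have e6 : ∑ μ, ∑ ν, Λ ν α • B (wl.d μ ζ) (T μ ν) = ∑ β, Λ β α * W (x (δ β c) f * x c' g) := by
    rw [Finset.sum_comm]
    simp only [← Finset.mul_sum, hB _ (m _), d_val, h.qt ho _ c hf.univ z2 (z z1), Complex.real_smul]
  simp only [← d_val, km_eq, fun ν μ a => ho.der ν a _ (Ds.univ (m' ν μ)) _ (y _ (m' ν μ)),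
    ← hB _ (Id.st _ _ _ (m' _ _)), ← hB _ (m _), ← hB _ (Id.st _ _ _ s)] at e2 e4
  simp only [map_sum, d_kk, d0, zero_smul, zero_add, map_add, map_smul, LinearMap.add_apply,
    LinearMap.smul_apply, LinearMap.sum_apply, Finset.sum_add_distrib] at e2 e4
  rw [Finset.sum_congr rfl fun μ _ => Finset.sum_congr rfl fun ν _ =>
    congrArg (fun u => B (kk Λ e ν * u) (T μ α)) (wl.cm ν μ ζ)] at e2
  linear_combination e4 - e2 - e5 - e6

theorem cmε (hc : Cu Φ N x W ρ T) (ho : Ops Φ N x W T D δ σ) (hw : Wt T A D δ σ T₀) (l : Fin 3)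
    (α : Fin 4) (c : V) : σ (om l) ((δ α - D α) c) = (δ α - D α) (σ (om l) c) := by
  have k : ∀ {Λ : Mat} e, Λᵀ = -Λ → (∀ μ α, σ Λ (T μ α) = ∑ β, (Λ β μ • T β α + Λ β α • T μ β)) →
      ∀ c c' f g, Ds (Hs 0 0) f → Ds (Hs 0 0)ᶜ g →
      ∑ ν, W (x (δ ν ((δ α - D α) c)) (km Λ e ν f) * x c' g) -
        W (x (σ Λ ((δ α - D α) c)) f * x c' g) =
      ∑ ν, W (x ((δ α - D α) (δ ν c)) (km Λ e ν f) * x c' g) -
        W (x ((δ α - D α) (σ Λ c)) f * x c' g) := fun {Λ} e hΛ ro c c' f g hf hg => by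
    have e1 := h.cmδ (e := e) hc ho hΛ hw.tr ro α c c' f g hf hg
    have e2 := h.cmD (e := e) ho hΛ α c c' f g hf hg
    obtain ⟨B, hB⟩ := h.bil (h.mem c' (dc hg))
    lift f to Sm using hf.1
    simp only [km_eq, ← hB _ hf, ← hB _ ((S3.Id _).mul_mem_left _ hf), LinearMap.sub_apply, map_sub,
      Finset.sum_sub_distrib] at e1 e2 ⊢
    linear_combination e1 - e2
  have k0 : ∀ ν c, δ ν ((δ α - D α) c) = (δ α - D α) (δ ν c) := fun ν c =>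
    h.ext2 fun c' f g hf hg => by
      simpa only [h.trl (h.mem c' (dc hg)), ho.σ0, LinearMap.zero_apply, map_zero, sub_left_inj]
        using k (Λ := 0) (ax ν 1) (by simp) (by simp [ho.σ0]) c c' f g hf hg
  exact h.ext2 fun c' f g hf hg => by
    simpa only [k0, sub_right_inj] using k 0 (om_anti l) (hw.ro l) c c' f g hf hg

theorem rfD (d : Der Φ N x W D) (μ ν : Fin 4) (c : V) :
    ρ (rfL μ) (D ν c) = sr μ ν • D ν (ρ (rfL μ) c) := h.ext fun f hf Z hZ => by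
  have z := N.Θ_mem μ hZ
  rw [h.smc _ _ hf hZ, d.der _ _ _ hf.univ _ (N.mono hZ (compl_subset_compl.2 hf.2.2)),
    h.thw μ _ hf hZ, h.thw μ _ (hf.pd ν) hZ, d.der _ _ _ (hf.rf μ).univ _
    (N.mono z (compl_subset_compl.2 (hf.rf μ).2.2)), pd_rf hf.1, h.smf _ _ ((hf.pd ν).rf μ) z, map_mul,
    Complex.conj_ofReal]

theorem rfδ (hc : Cu Φ N x W ρ T) (ho : Ops Φ N x W T D δ σ) (μ ν : Fin 4) (c : V) :
    ρ (rfL μ) (δ ν c) = sr μ ν • δ ν (ρ (rfL μ) c) := h.ext fun f hf Z hZ => by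
  obtain ⟨ξ, x1, x2⟩ := exists_one hf hs_op
  have z := N.mono hZ (compl_subset_compl.2 x1.2.2)
  have z' : N.Θ μ Z ∈ N.loc (tsupport fun y => ξ (rf μ y))ᶜ :=
    N.mono (N.Θ_mem μ hZ) (compl_subset_compl.2 (x1.rf μ).2.2)
  rw [h.smc _ _ hf hZ, h.thw μ _ hf hZ, ← h.qt ho ν _ hf.univ x2 z,
    ← h.qt ho ν _ (hf.rf μ).univ (x2.rf μ) z', map_sum, Finset.mul_sum]
  refine Finset.sum_congr rfl fun a _ => ?_
  have m := h.mz (ρ (rfL μ) c) hf.univ x2 z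
  have e := h.thw μ (T a ν) (x2.gs a) m
  have m' := N.Θ_mem μ m
  rw [map_mul (N.Θ μ), h.gen.refl, rr] at e m'
  rw [hc.refl, h.smc _ _ (x2.gs a) m] at e
  rw [pd_rf x1.1, h.smf _ _ ((x2.gs a).rf μ) m', map_mul, Complex.conj_ofReal, ← e, ← mul_assoc,
    ← Complex.ofReal_mul]
  unfold sr
  split_ifs <;> simp

theorem af2 {n : ℕ} {v : ℝ → V} {v₀ : V} (v1 : ∀ t, v t ∈ Φ.F n) (v2 : Tendsto v (𝓝[>] 0) (𝓝 v₀))
    (c : V) (hf : Ds O f) (hg : Ds Oᶜ g) : Tendsto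
      (fun t => W (x (A t (v t)) (sc t f) * x (A t c) (sc t g))) (𝓝[>] 0) (𝓝 (S 2 ![v₀, c] ![f, g])) := by
  obtain ⟨d, hd⟩ := Φ.ex c
  simpa using h.afv (D := max n d) (adm_two (dc hf) (dc hg)) (c := fun t => ![v t, c]) (c₀ := ![v₀, c])
    (fun t => Fin.forall_fin_two.2 ⟨Φ.mono (le_max_left _ _) (v1 t), Φ.mono (le_max_right _ _) hd⟩)
    (Fin.forall_fin_two.2 ⟨v2, tendsto_const_nhds⟩)

theorem af3 (hc : Cu Φ N x W ρ T) (hw : Wt T A D δ σ T₀) (μ ν : Fin 4) (c c' : V) {u : R4 → ℝ}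
    (hu : Ds (Hs 0 0 \ tsupport f) u) (hf : Ds (Hs 0 0) f) (hg : Ds (Hs 0 0)ᶜ g) :
    Tendsto (fun t => W (x (T μ ν) (sc t u) * (x (A t c) (sc t f) * x (A t c') (sc t g)))) (𝓝[>] 0)
      (𝓝 (S 3 ![T₀ μ ν, c, c'] ![u, f, g])) := by
  obtain ⟨d, hd⟩ := Φ.exs ![T μ ν, c, c']
  simpa [Fin.prod_univ_succ] using h.afv (D := d) (PN.adm_cons hu.2.1 (dc hu).2.1
    (adm_two (dc hf) (dc hg)) (Fin.forall_fin_two.2 ⟨disjoint_sdiff_left.mono_left hu.2.2,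
      disjoint_compl_right.mono (hu.2.2.trans diff_subset) hg.2.2⟩))
    (c := fun t => ![(A t).symm (T μ ν), c, c']) (c₀ := ![T₀ μ ν, c, c'])
    (fun t => Fin.forall_fin_succ.2 ⟨(h.up t).2 d _ (hd 0), Fin.forall_fin_two.2 ⟨hd 1, hd 2⟩⟩)
    (Fin.forall_fin_succ.2 ⟨hw.af μ ν, Fin.forall_fin_two.2 ⟨tendsto_const_nhds, tendsto_const_nhds⟩⟩)

theorem sepB {n : ℕ} {v : ℝ → V} {v₀ : V} (v1 : ∀ t, v t ∈ Φ.F n) (v2 : ∀ c f g, Ds (Hs 0 0) f →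
    Ds (Hs 0 0)ᶜ g → Tendsto (fun t => W (x (A t (v t)) (sc t f) * x (A t c) (sc t g))) (𝓝[>] 0)
      (𝓝 (S 2 ![v₀, c] ![f, g]))) : Tendsto v (𝓝[>] 0) (𝓝 v₀) := by
  obtain ⟨d, hd⟩ := Φ.ex v₀
  refine tendsto_sub_nhds_zero_iff.1 (h.sepA (D := max n d) (fun t => sub_mem
    (Φ.mono (le_max_left _ _) (v1 t)) (Φ.mono (le_max_right _ _) hd)) fun c f hf => ?_)
  refine .congr' (eventually_mem_nhdsWithin.mono fun t ht => ?_) (((v2 c f _ hf (ds_rf hf)).sub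
    (h.af2 (fun _ => hd) tendsto_const_nhds c hf (ds_rf hf))).trans (congrArg 𝓝 (sub_self _)).le)
  simp only [map_sub (A t), sc_rf]
  exact (map_sub (h.lab (dc (ds_hs hf ht)) (h.mem _ (dc (ds_rf (ds_hs hf ht))))) _ _).symm

variable (hc : Cu Φ N x W ρ T) (ho : Ops Φ N x W T D δ σ) (hf : Fr Φ ρ S T₀ δ₀ σ₀)
  (hw : Wt T A D δ σ T₀)
include hc ho hf hw

theorem afδ (ν : Fin 4) (c : V) :
    Tendsto (fun t => t • (A t).symm (δ ν (A t c))) (𝓝[>] 0) (𝓝 (δ₀ ν c)) := by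
  obtain ⟨d, hd⟩ := Φ.ex c
  refine h.sepB (fun t => (Φ.F _).smul_mem t ((h.up t).2 _ _ (ho.upδ ν _ _ ((h.up t).1 _ _ hd))))
    fun c' f g f1 g1 => ?_
  obtain ⟨ξ, x1, x2⟩ := exists_one f1 hs_op
  have g2 := g1.mono (compl_subset_compl.2 x1.2.2)
  rw [← hf.tr ν c c' f g ξ f1.univ g2 x2]
  refine (tendsto_finsetSum _ fun μ _ => h.af3 hc hw μ ν c c' ((x2.gs μ).mono
    (diff_subset_diff_left x1.2.2)) f1 g1).congr' (eventually_mem_nhdsWithin.mono fun t ht => ?_)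
  have z := N.mono (h.mem (A t c') (dc (ds_sc g2 ht))) (compl_subset_compl.2 (ds_sc x1.self ht).2.2)
  have m := h.mz (A t c) (ds_hs f1 ht).univ (x2.sc ht) z
  simp only [map_smul, LinearEquiv.apply_symm_apply]
  rw [h.smc _ _ (ds_hs f1 ht).self (N.mono z (compl_subset_compl.2 (x2.sc ht).sub)),
    ← h.qt ho ν _ (ds_hs f1 ht).univ (x2.sc ht) z, Finset.mul_sum]
  refine Finset.sum_congr rfl fun μ _ => ?_
  rw [← h.smf _ _ ((x2.sc ht).gs μ) m, pd_sc x1.1, smul_inv_smul₀ (ne_of_gt ht)]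

theorem afσ (l : Fin 3) (c : V) :
    Tendsto (fun t => (A t).symm (σ (om l) (A t c))) (𝓝[>] 0) (𝓝 (σ₀ l c)) := by
  obtain ⟨d, hd⟩ := Φ.ex c
  refine h.sepB (fun t => (h.up t).2 _ _ (ho.upσ _ _ _ ((h.up t).1 _ _ hd))) fun c' f g f1 g1 => ?_
  obtain ⟨ξ, x1, x2⟩ := exists_one f1 hs_op
  have g2 := g1.mono (compl_subset_compl.2 x1.2.2)
  rw [(sub_sub_cancel _ _).symm.trans (congrArg _ (hf.ro l c c' f g ξ f1.univ g2 x2).symm)]
  refine ((tendsto_finsetSum _ fun ν _ => h.af2 (fun t => (Φ.F _).smul_mem t ((h.up t).2 _ _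
    (ho.upδ ν _ _ ((h.up t).1 _ _ hd)))) (h.afδ hc ho hf hw ν c) c' (ds_km f1 ν) g1).sub
    (tendsto_finsetSum _ fun μ _ => tendsto_finsetSum _ fun ν _ => h.af3 hc hw μ ν c c'
      (ds_km ((x2.gs μ).mono (diff_subset_diff_left x1.2.2)) ν) f1 g1)).congr'
    (eventually_mem_nhdsWithin.mono fun t ht => ?_)
  have z := N.mono (h.mem (A t c') (dc (ds_sc g2 ht))) (compl_subset_compl.2 (ds_sc x1.self ht).2.2)
  have z' := N.mono (h.mem (A t c') (dc (ds_sc g1 ht))) (O' := {y | t⁻¹ • y ∈ Hs 0 0}ᶜ) subset_rfl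
  have := ho.q (om l) 0 (A t c) _ _ (om_anti l) (ds_hs f1 ht).univ (x2.sc ht) _ z
  simp only [fl, pd_sc x1.1, km_sct ht, Finset.sum_mul, map_sum, mul_assoc,
    fun ν => h.smf (δ ν (A t c)) t (ds_sc (ds_km (Λ := om l) (e := 0) f1 ν) ht) z'] at this
  simp only [map_smul, LinearEquiv.apply_symm_apply,
    fun ν => h.smc (δ ν (A t c)) t (ds_sc (ds_km (Λ := om l) (e := 0) f1 ν) ht) z']
  rw [sub_eq_iff_eq_add', ← sub_eq_iff_eq_add, ← this]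
  refine Finset.sum_congr rfl fun μ _ => Finset.sum_congr rfl fun ν _ => ?_
  rw [← inv_smul_smul₀ (show 0 < t from ht).ne' (sc t (km _ _ _ _)), ← km_sct ht]
  congr 3
  funext y
  simp [km, mul_left_comm]

theorem up0 (l : Fin 3) : Φ.Up 0 (σ₀ l) := fun d c hd =>
  (Φ.F d).closed_of_finiteDimensional.mem_of_tendsto (h.afσ hc ho hf hw l c)
    (.of_forall fun t => (h.up t).2 _ _ (ho.upσ _ _ _ ((h.up t).1 _ _ hd)))

theorem cvσ (l : Fin 3) : Φ.Cv (𝓝[>] 0) (fun t => (Φ.un (A t) (h.up t))⁻¹.1 * ⟨σ (om l), ho.upσ _⟩ *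
    (Φ.un (A t) (h.up t)).1) ⟨σ₀ l, h.up0 hc ho hf hw l⟩ := Fil.cv_iff.2 (h.afσ hc ho hf hw l)

theorem rex (l : Fin 3) (θ : ℝ) : (⟨ρ (rot l θ), hf.up _⟩ : Φ.alg) =
    Fil.exp (θ • ⟨σ₀ l, h.up0 hc ho hf hw l⟩) :=
  Fil.eq_exp (U := fun s => ⟨ρ (rot l s), hf.up _⟩) (Subtype.ext (by simp))
    (fun s t => Subtype.ext (by simp [← Ro.rot_mul])) (hf.der l) θ

theorem eqD : δ = D := by
  refine funext fun α => sub_eq_zero.1 (LinearMap.ext fun c => ?_)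
  obtain ⟨l, hl⟩ : ∃ l : Fin 3, sr 0 α * sr l.succ α = -1 :=
    Fin.cases ⟨0, by simp [sr]⟩ (fun l => ⟨l, by simp [sr]⟩) α
  obtain ⟨d, hd⟩ := Φ.ex c
  let r : Φ.alg := ⟨ρ (rot l π), hf.up _⟩
  let a : ℝ → V →ₗ[ℝ] V := fun t => (A t).symm ∘ₗ (δ α - D α) ∘ₗ A t
  have ua : ∀ t, Φ.Up 1 (a t) := fun t d c hd => (h.up t).2 _ _
    (sub_mem (ho.upδ α _ _ ((h.up t).1 _ _ hd)) (ho.upD α _ _ ((h.up t).1 _ _ hd)))
  have r1 : ∀ t μ c, ρ (rfL μ) (a t c) = sr μ α • a t (ρ (rfL μ) c) := fun t μ c =>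
    (A t).injective (by simp [a, h.comm, h.rfδ hc ho, h.rfD ho.toDer, smul_sub])
  have r2 : r * r = 1 := Subtype.ext (by
    simp [r, ← map_mul, Ro.rot_mul, show rot l (π + π) = 1 from LinearIsometryEquiv.ext fun y => by
      ext i
      simp [Ro.rot_apply, Ro.rv, ← two_mul]
      grind])
  have u := (Fil.Cv.exp fun D => by
    simpa only [← map_smul] using (h.cvσ hc ho hf hw l D).const_smul π).mul (Fil.Cv.const (M := r))
  rw [← h.rex hc ho hf hw, r2] at u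
  have k : ∀ t (M : Φ.alg), (∀ c, a t (M.1 c) = M.1 (a t c)) → ∀ c,
      a t ((Fil.exp M * r).1 c) = -(Fil.exp M * r).1 (a t c) := fun t M e c =>
    (Fil.exp_semi (ua t) e _).trans ((congrArg _ (by
      simp [r, rot_pi, r1, smul_smul, mul_comm (sr l.succ α), hl])).trans (map_neg _ _))
  obtain ⟨t, e⟩ := anti (E := Φ.F d) (F := Φ.F (d + 1)) (u d) (u (d + 1))
    (a := fun t => LinearMap.toContinuousLinearMap ((a t).restrict (ua t d))) fun t c =>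
      Subtype.ext (k t _ (fun c => by
        simpa [a, Fil.un, -LinearMap.sub_apply] using (h.cmε hc ho hw l α _).symm) c)
  exact (A t).symm.injective (by simpa [a] using congrArg (fun L => (L ⟨_, (h.up t).2 _ _ hd⟩).1) e)

end Rg

end Pool.Agent.Lib.MP_7f377f_mp.Sw
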