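import Pool.Agent.Lib.MP_7f377f_mp.G.AnK
import Pool.Agent.Lib.MP_7f377f_mp.G.AnB
import Pool.Agent.Lib.MP_7f377f_mp.G.AnG
import Pool.Agent.Lib.MP_7f377f_mp.G.AnC
import Pool.Agent.Lib.MP_7f377f_mp.G.S23S0
import Pool.Agent.Lib.MP_7f377f_mp.G.SwE

/-! The trace of the stress tensor. -/

noncomputable section

namespace Pool.Agent.Lib.MP_7f377f_mp.An
variable [Pool.Agent.Lib.MP_7f377f_mp.GD]
set_option linter.unusedSectionVars false

open MeasureTheory Filter Topology Set YM7 Pur Wm Lm Wv S3 Sw Function Matrix Real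
open Ro (Iso prm)
open scoped ContDiff NNReal

variable {V P : Type} [NormedAddCommGroup V] [NormedSpace ℝ V] [CommRing P] [Algebra ℂ P]
  {Φ : Fil V} {N : Net P} {x : V → (R4 → ℝ) → P} {W : P →ₗ[ℂ] ℂ} {ρ : Iso →* V →ₗ[ℝ] V}
  {A : ℝ → V ≃ₗ[ℝ] V} {S : Cor V} {T : Fin 4 → Fin 4 → V} {D δ : Fin 4 → V →ₗ[ℝ] V}
  {σ : Mat → V →ₗ[ℝ] V} {φ u lg c : V} {f g ξ η v : R4 → ℝ}

theorem ds_sw (hf : Ds univ f) (hg : Ds (tsupport f)ᶜ g) : Ds (tsupport g)ᶜ f :=
  hf.self.mono (subset_compl_comm.1 hg.2.2)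

theorem kappa (h : Rg Φ N x W ρ A S) (hc : Cu Φ N x W ρ T) (ho : Ops Φ N x W T D D σ)
    (mu : Zo.Mu2 Φ x W A S) (hd : φ ∈ Φ.F 4)
    (sg : Tendsto (fun t => (A t).symm ((q0 * log t⁻¹) • φ)) (𝓝[>] 0) (𝓝 lg))
    (f0 : ∀ c ∈ Φ.F 0, ∃ a : ℝ, c = a • u)
    (un : ∀ f, C1 univ f → ∀ Z ∈ N.loc (tsupport f)ᶜ, W (x u f * Z) = (∫ y, f y : ℝ) * W Z)
    (cen : ∀ f, Ds univ f → W (x φ f) = 0)
    (re : ∀ k (c : Fin k → V) f, Adm f → (W (∏ i, x (c i) (f i))).im = 0)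
    (iv : ∀ w, Bw.Iv x W ρ (prm w)) (pr : ∀ μ, ρ (rfL μ) φ = φ) (pm : ∀ w, ρ (prm w) φ = φ)
    (cl : ∀ c ∈ Φ.F 4, ∃ a b : ℝ, ∀ l : V →ₗ[ℝ] ℂ, (∀ μ c, l (ρ (rfL μ) c) = l c) →
      (∀ w c, l (ρ (prm w) c) = l c) → l c = a * l u + b * l φ)
    (af : ∀ f : Fin 2 → R4 → ℝ, Adm f → Tendsto
      (fun t : ℝ => (log t⁻¹ : ℂ) ^ 2 * W (∏ i, x φ (sc t (f i)))) (𝓝[>] 0) (𝓝 (kap f)))
    {κ γ : ℝ} (tr : ∑ μ, T μ μ = κ • φ + γ • u) {K}
    (ov : Ov (fun f => W (∏ i, x φ (f i))) K) : κ = -q0 := by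
  obtain ⟨f, g, hf, hg, inv, k0⟩ := pair
  obtain ⟨ξ, x0, x2, x3⟩ := bdry (T := T) h mu hd sg f0 un hf hg
  have x1 := x0.univ
  obtain ⟨m, m1, m2⟩ := key2 h hc ho hd tr un ov
  choose a b hb using fun s => cl _ (m1 s)
  have ad : ∀ {f g}, Ds univ f → Ds (tsupport f)ᶜ g → Adm ![f, g] := fun hf hg =>
    adm_two (dc hf.self) (dc hg)
  have lam : ∀ {f g}, Ds univ f → Ds (tsupport f)ᶜ g → (∀ (R : Iso) y, f (R y) = f y) →
      (∀ (R : Iso) y, g (R y) = g y) → ∀ s, W (x (m s) f * x φ g) = b s * W (x φ f * x φ g) :=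
    fun {f g} hf hg i1 i2 s => by
      have z := h.mem φ (dc hg)
      have := hb s (h.lab (dc hf.self) z) (fun μ c => by
        have e1 : (fun y => f (rf μ y)) = f := funext fun y => rfL_eq μ ▸ i1 (rfL μ) y
        have e2 : (fun y => g (rf μ y)) = g := funext fun y => rfL_eq μ ▸ i2 (rfL μ) y
        refine (h.thw μ c hf.self z).trans ?_
        rw [h.gen.refl, pr, e1, e2]
        exact Complex.conj_eq_iff_im.2 (by simpa using re 2 ![c, φ] _ (ad hf hg))) fun w c => by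
        simpa [i1, i2, pm] using! (iv w 2 ![c, φ] _ (ad hf hg)).symm
      change W _ = a s * W (x u f * _) + b s * W _ at this
      rwa [un f (dc hf) _ z, cen g hg.univ, mul_zero, mul_zero, zero_add] at this
  have tw : ∀ {O e Z}, Ds O e → Z ∈ N.loc Oᶜ → W (x (∑ μ, T μ μ) e * Z) =
      κ * W (x φ e * Z) + γ * (∫ y, e y : ℝ) * W Z := fun {O e Z} he hZ => by
    have z := N.mono hZ (compl_subset_compl.2 he.2.2)
    rw [tr, add_comm, h.linc γ _ _ _ (dc he.univ) _ z, h.smc _ _ he hZ, un _ (dc he.univ) _ z]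
    ring
  have i : ∀ {O f}, Ds O f → Integrable f := fun h =>
    h.1.continuous.integrable_of_hasCompactSupport h.2.1
  have id : ∀ {f g}, Ds univ f → Ds (tsupport f)ᶜ g → (∀ (R : Iso) y, f (R y) = f y) →
      (∀ (R : Iso) y, g (R y) = g y) → (∀ᶠ y in 𝓝ˢ (tsupport f ∪ tsupport g), ξ y = 1) →
      Tendsto (fun s => 2 * b s * W (x φ f * x φ g)) (𝓝[>] 0)
        (𝓝 (cv W (fl x T 1 0 ξ) (x φ f * x φ g) + κ * K ξ f g -
          ∑ ν, W (x (D ν φ) (km 1 0 ν f) * x φ g) - ∑ ν, W (x (D ν φ) (km 1 0 ν g) * x φ f))) :=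
    fun {f g} hf hg i1 i2 o => by
      have hf' := ds_sw hf hg
      have sb : tsupport f ∪ tsupport g ⊆ Sb := fun y hy =>
        x0.2.2 (subset_tsupport _ (by simp [o.self_of_nhdsSet y hy]))
      have s1 := hf.self.mono (subset_union_left.trans sb)
      have s2 := hg.self.mono (subset_union_right.trans sb)
      obtain ⟨a1, p0, p2⟩ := exists_one (hf.self.mono (subset_inter hf'.2.2 s1.2.2))
        ((isClosed_tsupport g).isOpen_compl.inter Metric.isOpen_ball)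
      obtain ⟨a2, q0, q2⟩ := exists_one (hg.self.mono (subset_inter hg.2.2 s2.2.2))
        ((isClosed_tsupport f).isOpen_compl.inter Metric.isOpen_ball)
      have p1 := p0.mono inter_subset_left
      have q1 := q0.mono inter_subset_left
      have p3 := p0.mono inter_subset_right
      have q3 := q0.mono inter_subset_right
      have z1 := zero_near (subset_compl_iff_disjoint_right.1 p1.2.2)
      have z2 := zero_near (subset_compl_iff_disjoint_right.1 q1.2.2)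
      have he : Ds (tsupport f ∪ tsupport g)ᶜ (ξ - a1 - a2) := by
        rw [compl_eq_univ_diff]
        refine ds_diff ((S3.Id _).sub_mem (a := ⟨_, x1.1.sub p1.1⟩) (b := ⟨_, q1.1⟩)
          ((S3.Id _).sub_mem (a := ⟨_, x1.1⟩) (b := ⟨_, p1.1⟩) x1 p1.univ) q1.univ) ?_
        rw [nhdsSet_union, eventually_sup] at o ⊢
        exact ⟨by filter_upwards [o.1, p2.2, z2] with y e1 e2 e3; simp [e1, e2, e3],
          by filter_upwards [o.2, q2.2, z1] with y e1 e2 e3; simp [e1, e2, e3]⟩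
      have e : a1 + a2 + (ξ - a1 - a2) = ξ := by abel
      have hZ : x φ f * x φ g ∈ N.loc (tsupport f ∪ tsupport g)ᶜᶜ := by
        rw [compl_compl]
        exact N.mul (h.mem φ (dc hf.self)) (h.mem φ (dc hg.self))
          (subset_compl_iff_disjoint_left.1 hg.2.2)
      have gs : ∀ {a f g : R4 → ℝ}, Ds (tsupport g)ᶜ a → One a f →
          Gs ((tsupport f)ᶜ ∩ (tsupport g)ᶜ) a := fun p1 p2 μ =>
        (gs_diff p1 p2.2 μ).mono fun _ e => ⟨e.2, e.1⟩
      have e1 := flx1 h hc p1.univ q1.univ (compl_union _ _ ▸ gs p1 p2)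
        (compl_union _ _ ▸ inter_comm _ _ ▸ gs q1 q2) he hZ
      have e2 := ov.add _ _ _ f g p3 q3 s1 s2 hg p1 q1 he
      have e3 := kill1 h hc x1 (N.one _)
      have e4 : ∫ y, ξ y = (∫ y, a1 y) + (∫ y, a2 y) + ∫ y, (ξ - a1 - a2) y := by
        rw [← integral_add' (i p1) (i q1), ← integral_add' ((i p1).add (i q1)) (i he), e]
      rw [tw x1 (N.one _), mul_one, mul_one, cen ξ x1, h.st.one] at e3
      rw [e, tw he hZ] at e1
      rw [e, Fin.prod_univ_three, mul_assoc] at e2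
      have := (m2 f a1 g hf p2 p3 s2 (ds_sw hg.univ p1)).add
        (m2 g a2 f hg.univ q2 q3 s1 (ds_sw hf q1))
      simp only [lam hf hg i1 i2, lam hg.univ hf' i2 i1, mul_comm (x φ g) (x φ f)] at this
      convert this using 2
      · ring
      · rw [cv, e1, e2, e3, e4]
        simp
        ring
  have pos : ∀ᶠ t : ℝ in 𝓝[>] 0, 0 < t := self_mem_nhdsWithin
  have sd : ∀ {t : ℝ}, 0 < t → Ds univ (sc t f) ∧ Ds (tsupport (sc t f))ᶜ (sc t g) := fun t0 =>
    ⟨ds_sc hf t0, (ds_sc hg t0).mono fun y e e' => e ((ds_sc hf.self t0).2.2 e')⟩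
  have id' : ∀ᶠ t : ℝ in 𝓝[>] 0, _ := ((small isCompact_singleton (hf.2.1.union hg.2.1)
    (U := {y | ∀ᶠ z in 𝓝 y, ξ z = 1}) (by rw [nhdsSet_singleton]; exact x2.eventually_nhds)).and pos).mono
    fun t ⟨e, t0⟩ => id (sd t0).1 (sd t0).2 (fun R y => (congrArg f (map_smul R _ y).symm).trans (inv R _).1)
      (fun R y => (congrArg g (map_smul R _ y).symm).trans (inv R _).2) (eventually_nhdsSet_iff_forall.2 fun y hy =>
        e 0 rfl y (by simpa using hy.imp (@(ds_sc hf.self t0).2.2 y) (@(ds_sc hg.self t0).2.2 y)))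
  have a2 := af _ (ad hf hg)
  simp only [Fin.prod_univ_two, cons_val_zero, cons_val_one] at a2
  obtain ⟨t, e1, e2⟩ := (id'.and (a2.eventually_ne (Complex.ofReal_ne_zero.2 k0))).exists
  have e3 := right_ne_zero_of_mul e2
  obtain ⟨c, e4⟩ : ∃ c : ℂ, Tendsto (fun s => 2 * (b s : ℂ)) (𝓝[>] 0) (𝓝 c) :=
    ⟨_, (e1.div_const _).congr fun s => mul_div_cancel_right₀ _ e3⟩
  have c0 : (c.re : ℂ) = c := Complex.conj_eq_iff_re.1 (Complex.conj_eq_iff_im.2
    (tendsto_nhds_unique ((Complex.continuous_im.tendsto _).comp e4)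
      (by simpa [comp_def] using tendsto_const_nhds)))
  have r := fun {F : ℝ → ℂ} {z} (e : Tendsto F (𝓝[>] 0) (𝓝 z)) =>
    (Complex.continuous_re.tendsto _).comp e
  have := (Ta.hop (a := 8 + c.re) (b := -κ * (2 / q0 * kap ![f, g])) k0 (pos.mono fun t t0 =>
    Complex.reCLM.hasFDerivAt.comp_hasDerivAt t (gder (c := φ) h ho.toDer hf hg t0))
    (by simpa [comp_def, ← Complex.ofReal_pow] using r a2) (by
      have := r (x3.neg.sub ((ov.mn ξ f g x0 x2 hf hg).const_mul (κ : ℂ)))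
      simp only [neg_zero, zero_sub, ← Complex.ofReal_mul, Complex.neg_re, Complex.ofReal_re,
        ← neg_mul] at this
      refine this.congr' ((id'.and pos).mono fun t ⟨e, t0⟩ => ?_)
      have e' := tendsto_nhds_unique e (e4.mul_const _)
      simp only [comp_def, Complex.reCLM_apply, ← Complex.re_ofReal_mul, ← Complex.sub_re]
      congr 1
      have : (t : ℂ) ≠ 0 := by simpa using t0.ne'
      push_cast
      rw [c0, mul_div_cancel₀ _ this]
      linear_combination (-(log t⁻¹ : ℂ) ^ 3) * e')).2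
  have q : 0 < q0 := by have := GD.b0_pos; unfold q0; positivity
  field_simp at this
  linarith

end Pool.Agent.Lib.MP_7f377f_mp.An
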