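import Pool.Agent.Lib.MP_7f377f_mp.G.SwU

/-! Rotation covariance from the stress tensor: derivatives and contour maps. -/

noncomputable section

namespace Pool.Agent.Lib.MP_7f377f_mp.Sw
variable [Pool.Agent.Lib.MP_7f377f_mp.GD]
set_option linter.unusedSectionVars false

open MeasureTheory Filter Topology Set YM7 Pur Wm Lm Wv S3 Function Matrix
open Ro (Iso rot)
open scoped ContDiff

variable {O : Set R4} {f u v ξ η : R4 → ℝ} {Λ : Mat} {e z : R4} {s : ℝ}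

theorem One.of (h : One ξ f) (e : tsupport u ⊆ tsupport f) : One ξ u :=
  ⟨h.1, h.2.filter_mono (nhdsSet_mono e)⟩

theorem km_sc (hη : ContDiff ℝ ∞ η) (μ ν : Fin 4) :
    km Λ e ν (pd μ fun y => η (s⁻¹ • (y - z))) = (fun y => km Λ 0 ν (pd μ η) (s⁻¹ • (y - z))) +
      (s⁻¹ * (act Λ z + e) ν) • fun y => pd μ η (s⁻¹ • (y - z)) := by
  funext y
  have : pd μ (fun y => η (s⁻¹ • (y - z))) y = pd μ (sc s η) (y - z) := by
    simp only [pd, lineDeriv, add_sub_right_comm]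
  simp [km, this, pd_sc hη, act_smul, act_sub]
  ring

theorem open_hs : IsOpen (Hs 0 0) := isOpen_lt continuous_const (by fun_prop)

variable {V P : Type} [NormedAddCommGroup V] [NormedSpace ℝ V] [CommRing P] [Algebra ℂ P]
  {Φ : Fil V} {N : Net P} {x : V → (R4 → ℝ) → P} {W : P →ₗ[ℂ] ℂ} {ρ : Iso →* V →ₗ[ℝ] V}
  {A : ℝ → V ≃ₗ[ℝ] V} {S : Cor V} {Z : P} {T : Fin 4 → Fin 4 → V} {D : Fin 4 → V →ₗ[ℝ] V}

variable (x W) in
/-- two fields at a short distance -/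
def pr2 (a c : V) (u v f : R4 → ℝ) (Z : P) (s : ℝ) : ℂ :=
  ∫ z, f z * W (x a (fun y => u (s⁻¹ • (y - z))) * x c (fun y => v (s⁻¹ • (y - z))) * Z)

namespace Rg
variable (h : Rg Φ N x W ρ A S)
include h

theorem mkop {I : Type} {f : I → R4 → ℝ} {Z : I → P} (hf : ∀ i, Ds univ (f i))
    (hZ : ∀ i, Z i ∈ N.loc (tsupport (f i))ᶜ)
    (su : ∀ g, Ds (Hs 0 0) g → ∀ Y ∈ N.loc (Hs 0 0)ᶜ, ∃ i, f i = g ∧ Z i = Y) (Q : I → V →ₗ[ℝ] ℂ)
    {n : ℕ} (hm : ∀ d, ∀ c ∈ Φ.F d, ∃ m : ℝ → V, (∀ s, m s ∈ Φ.F (d + n)) ∧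
      ∀ i, Tendsto (fun s => W (x (m s) (f i) * Z i)) (𝓝[>] 0) (𝓝 (Q i c))) :
    ∃ M : V →ₗ[ℝ] V, Φ.Up n M ∧ ∀ c i, W (x (M c) (f i) * Z i) = Q i c := by
  let ev := LinearMap.pi fun i => h.lab (dc (hf i).self) (hZ i)
  have inj : Injective ev := fun a b e => h.ext fun g hg Y hY => by
    obtain ⟨i, rfl, rfl⟩ := su g hg Y hY
    exact congrFun e i
  have k : ∀ d, ∀ c ∈ Φ.F d, ∃ a ∈ Φ.F (d + n), ev a = LinearMap.pi Q c := fun d c hc => by
    obtain ⟨m, m1, m2⟩ := hm d c hc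
    have := Φ.fin (d + n)
    exact ((Φ.F (d + n)).map ev).closed_of_finiteDimensional.mem_of_tendsto (tendsto_pi_nhds.2 m2)
      (.of_forall fun s => ⟨_, m1 s, rfl⟩)
  choose M hM using fun c => ((Φ.ex c).elim fun d hc => (k d c hc).imp fun _ => And.right : ∃ a, _)
  exact ⟨{ toFun := M
           map_add' a b := inj (by simp only [hM, map_add])
           map_smul' t a := inj (by simp only [hM, map_smul, RingHom.id_apply]) },
    fun d c hc => (k d c hc).elim fun a e => inj ((hM c).trans e.2.symm) ▸ e.1,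
    fun c i => congrFun (hM c) i⟩

theorem der' : ∃ D, Der Φ N x W D := by
  obtain ⟨v, hv, h1⟩ := exists_mo
  choose D d1 d2 using fun ν => h.mkop (n := 1)
    (I := {p : (R4 → ℝ) × P // Ds univ p.1 ∧ p.2 ∈ N.loc (tsupport p.1)ᶜ})
    (fun i => i.2.1) (fun i => i.2.2) (fun g hg Y hY => ⟨⟨(g, Y), hg.univ,
      N.mono hY (compl_subset_compl.2 hg.2.2)⟩, rfl, rfl⟩)
    (fun i => h.lab (dc (i.2.1.self.pd ν)) i.2.2) fun d c hc => by
      obtain ⟨m, m1, m2⟩ := h.mg1 d c hc ![pd ν v] (adm_c1 (K := fun _ => univ) Subsingleton.pairwise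
        (by simpa using dc (hv.pd ν))) (by simpa using hv.pd ν)
      refine ⟨m, m1, fun i => ?_⟩
      simpa using! (h.mol c 1 (dc i.2.1) (hv.pd ν) (dc (i.2.1.self.pd ν)) hv h1
        (fun s => by rw [mo_pd i.2.1 hv, pow_one]) i.2.2).sub (m2 _ i.2.1 _ i.2.2)
  exact ⟨D, d1, fun ν c f hf Z hZ => d2 ν c ⟨(f, Z), hf, hZ⟩⟩

theorem key (hc : Cu Φ N x W ρ T) (hΛ : Λᵀ = -Λ) (c : V) (hv : Ds univ v) (h1 : ∫ w, v w = 1)
    (hη : One η v) (hf : Ds univ f) (hξ : One ξ f) (hZ : Z ∈ N.loc (tsupport ξ)ᶜ) :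
    Tendsto (fun s : ℝ => ∑ μ, ∑ ν, (pr2 x W (T μ ν) c (km Λ 0 ν (pd μ η)) v f Z s / s ^ 4 +
      pr2 x W (T μ ν) c (pd μ η) v (km Λ e ν f) Z s / s ^ 5)) (𝓝[>] 0)
      (𝓝 (W (fl x T Λ e ξ * x c f * Z))) := by
  rw [mul_comm (fl ..), mul_assoc]
  refine (h.mol c 0 (dc hf) hv (dc hf.self) hv h1 (by simp) (N.mono (N.mul (h.fl_mem hξ.gs) hZ
    (disjoint_compl_right.mono_left sdiff_subset)) (union_subset (fun _ => And.right)
      (compl_subset_compl.2 hξ.sub)))).congr' ?_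
  filter_upwards [small hf.2.1 hη.1.2.1 (eventually_nhdsSet_iff_forall.2 fun y hy =>
    (hξ.2.filter_mono (nhds_le_nhdsSet hy)).eventually_nhds), self_mem_nhdsWithin]
    with s m (s0 : 0 < s)
  have m' : ∀ z ∈ tsupport f, ∀ y, s⁻¹ • (y - z) ∈ tsupport η → y ∈ tsupport ξ := fun z hz y hy =>
    subset_tsupport _ (by simp [(m z hz y hy).self_of_nhds])
  have i : ∀ a {u g}, Ds (tsupport η \ tsupport v) u → Ds (tsupport f) g → Integrable fun z =>
      g z * W (x a (fun y => u (s⁻¹ • (y - z))) * x c (fun y => v (s⁻¹ • (y - z))) * Z) :=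
    fun a u g hu hg => by
      simpa using h.intg ![a, c] (adm_sc (adm_two (O := (tsupport v)ᶜ) (dc (hu.mono fun _ => And.right))
        (by simpa using dc hv.self)) s0) (dc hg.univ) hZ (Fin.forall_fin_two.2 ⟨fun z hz y hy =>
          m' z (hg.2.2 hz) y ((ds_sc hu s0).2.2 hy).1, fun z hz y hy => m' z (hg.2.2 hz) y
            (hη.sub ((ds_sc hv.self s0).2.2 hy))⟩)
  have i3 := fun μ ν => And.intro ((i (T μ ν) (ds_km (Λ := Λ) (e := 0) (hη.gs μ) ν) hf.self).div_const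
    (s ^ 4)) ((i (T μ ν) (hη.gs μ) (ds_km (Λ := Λ) (e := e) hf.self ν)).div_const (s ^ 5))
  rw [← integral_div]
  refine .trans (integral_congr_ae (.of_forall fun z => ?_)) ((integral_finsetSum _ fun μ _ =>
    integrable_finsetSum _ fun ν _ => (i3 μ ν).1.add (i3 μ ν).2).trans (Finset.sum_congr rfl fun μ _ =>
      (integral_finsetSum _ fun ν _ => (i3 μ ν).1.add (i3 μ ν).2).trans (Finset.sum_congr rfl
        fun ν _ => (integral_add (i3 μ ν).1 (i3 μ ν).2).trans (by rw [integral_div, integral_div]; rfl))))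
  by_cases hz : z ∈ tsupport f; swap
  · simp [km, c1z (dc hf.self) hz]
  have q : ∀ {O u}, Ds O u → Ds {y | s⁻¹ • (y - z) ∈ O} fun y => u (s⁻¹ • (y - z)) := fun hu =>
    hu.comp (G := fun y => s • y + z) (by fun_prop) (by fun_prop) (by simp [s0.ne'])
      (by simp [s0.ne'])
  have o := ((by fun_prop : Continuous fun y : R4 => s⁻¹ • (y - z)).tendsto_nhdsSet
    (mapsTo_preimage _ _)).eventually hη.2
  have t := (q hη.1.self).mono (m' z hz)
  have hY := N.mono (N.mul (h.mem c (dc (q hv.self))) hZ (disjoint_compl_right.mono_left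
    fun y hy => m' z hz y (hη.sub hy))) Set.compl_sdiff.ge
  have r : ∀ {u}, Ds (tsupport η \ tsupport v) u → C1 (tsupport ξ \ _) _ := fun hu =>
    dc ((q hu).mono fun y hy => ⟨m' z hz y hy.1, hy.2⟩)
  have := h.flx (e := e) hc hΛ ⟨ξ, hξ.1.1⟩ (fun _ : Unit => ⟨_, t.1⟩) 1 (fun _ => gs_diff t o)
    (ds_diff ((S3.Id _).sub_mem hξ.1.self (by simpa using! t)) (by
      filter_upwards [o, isOpen_setOfPred_eventually_nhds.mem_nhdsSet.2
        fun y hy => m z hz y (hη.sub hy)] with y h1 h2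
      simp [h1, h2.self_of_nhds])) hY
  simp only [Finset.univ_unique, Finset.sum_singleton, Pi.one_apply, Complex.ofReal_one, one_mul]
    at this
  dsimp only [Pi.add_apply]
  rw [mul_left_comm (x c _), this, fl, Finset.sum_mul, map_sum, Finset.mul_sum, Finset.sum_div]
  refine Finset.sum_congr rfl fun μ _ => ?_
  rw [Finset.sum_mul, map_sum, Finset.mul_sum, Finset.sum_div]
  refine Finset.sum_congr rfl fun ν _ => ?_
  rw [km_sc hη.1.1, h.lf _ _ (r (ds_km (hη.gs μ) ν)) (r (hη.gs μ)) hY, mul_assoc (x _ _),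
    mul_assoc (x _ _), km]
  have : (s : ℂ) ≠ 0 := by simpa using s0.ne'
  push_cast
  field_simp

theorem ops' (hc : Cu Φ N x W ρ T) (hD : Der Φ N x W D) : ∃ δ σ, Ops Φ N x W T D δ σ := by
  obtain ⟨v, hv, h1⟩ := exists_mo
  obtain ⟨η, -, hη⟩ := exists_one hv isOpen_univ
  let I := {p : R4 × (R4 → ℝ) × (R4 → ℝ) × P //
    Ds univ p.2.1 ∧ One p.2.2.1 p.2.1 ∧ p.2.2.2 ∈ N.loc (tsupport p.2.2.1)ᶜ}
  have z : ∀ i : I, i.1.2.2.2 ∈ N.loc (tsupport i.1.2.1)ᶜ := fun i =>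
    N.mono i.2.2.2 (compl_subset_compl.2 i.2.2.1.sub)
  have su : ∀ g, Ds (Hs 0 0) g → ∀ Y ∈ N.loc (Hs 0 0)ᶜ, ∃ i : I, i.1.2.1 = g ∧ i.1.2.2.2 = Y :=
    fun g hg Y hY => (exists_one hg open_hs).elim fun ξ e => ⟨⟨(0, g, ξ, Y), hg.univ, e.2,
      N.mono hY (compl_subset_compl.2 e.1.2.2)⟩, rfl, rfl⟩
  have fz : ∀ Λ e (i : I), fl x T Λ e i.1.2.2.1 * i.1.2.2.2 ∈ N.loc (tsupport i.1.2.1)ᶜ :=
    fun Λ e i => N.mono (N.mul (h.fl_mem i.2.2.1.gs) i.2.2.2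
      (disjoint_compl_right.mono_left sdiff_subset)) (union_subset (fun _ => And.right)
        (compl_subset_compl.2 i.2.2.1.sub))
  have ad : ∀ {u}, Ds (tsupport η \ tsupport v) u → Adm ![u, v] ∧ ∀ i, Ds univ (![u, v] i) :=
    fun hu => ⟨adm_two (O := (tsupport v)ᶜ) (dc (hu.mono fun _ => And.right))
      (by simpa using dc hv.self), Fin.forall_fin_two.2 ⟨hu.univ, hv⟩⟩
  have k := fun Λ e c hΛ (i : I) => h.key (Λ := Λ) (e := e) hc hΛ c hv h1 hη i.2.1 i.2.2.1 i.2.2.2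
  have p0 : ∀ a c u Z s, pr2 x W a c u v 0 Z s = 0 := fun a c u Z s => by simp [pr2]
  have z0 : ∀ ν f, km 0 0 ν f = 0 := fun ν f => funext fun y => by simp [km, act_apply]
  have k0 : ∀ c (i : I), Tendsto (fun s : ℝ => ∑ μ, ∑ ν,
      pr2 x W (T μ ν) c (km 0 0 ν (pd μ η)) v i.1.2.1 i.1.2.2.2 s / s ^ 4) (𝓝[>] 0) (𝓝 0) :=
    fun c i => by
      have := k 0 0 c (by simp) i
      simp only [fl, z0 _ i.1.2.1, z0 _ (pd _ i.1.2.2.1), p0, Finset.sum_mul, map_sum, mul_assoc,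
        h.lf0 (O := ∅) _ (N.mono (N.mul (h.mem c (dc i.2.1.self)) (z i) disjoint_compl_right)
          (by simp))] at this
      simpa using this
  have kb : ∀ ν c (i : I), Tendsto (fun s : ℝ => ∑ μ,
      pr2 x W (T μ ν) c (pd μ η) v i.1.2.1 i.1.2.2.2 s / s ^ 5) (𝓝[>] 0)
      (𝓝 (h.lab (dc i.2.1.self) (fz 0 (ax ν 1) i) c)) := fun ν c i => by
    have := (k 0 (ax ν 1) c (by simp) i).sub (k0 c i)
    rw [mul_comm (fl ..), mul_assoc, sub_zero] at this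
    refine this.congr fun s => ?_
    simp only [Finset.sum_add_distrib, add_sub_cancel_left]
    exact Finset.sum_congr rfl fun μ _ => (Finset.sum_eq_single ν (fun α _ e => by
      rw [km_tr, if_neg e, p0, zero_div]) (by simp)).trans (by rw [km_tr, if_pos rfl])
  choose δ d1 d2 using fun ν => h.mkop (n := 1) (fun i : I => i.2.1) z su
    (fun i => h.lab (dc i.2.1.self) (fz 0 (ax ν 1) i)) fun d c hd => by
      choose m m1 m2 using fun μ => (h.mg2 _ (hc.mem μ ν) d c hd).1 _ (ad (hη.gs μ)).1 (ad (hη.gs μ)).2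
      refine ⟨fun s => ∑ μ, m μ s, fun s => sum_mem fun μ _ => m1 μ s, fun i => ?_⟩
      have := (kb ν c i).sub (tendsto_finsetSum Finset.univ fun μ _ => m2 μ _ i.2.1 _ (z i))
      simp only [Fin.prod_univ_two, Finset.sum_sub_distrib, Finset.sum_const_zero, sub_zero] at this
      exact this.congr fun s => (sub_sub_cancel _ _).trans
        (map_sum (h.lab (dc i.2.1.self) (z i)) _ _).symm
  let Q := fun Λ (i : I) => ∑ ν, h.lab (dc (ds_km (Λ := Λ) (e := i.1.1) i.2.1.self ν)) (z i) ∘ₗ δ ν -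
    h.lab (dc i.2.1.self) (fz Λ i.1.1 i)
  have qe : ∀ Λ c (i : I), Q Λ i c = ∑ ν, W (x (δ ν c) (km Λ i.1.1 ν i.1.2.1) * i.1.2.2.2) -
      W (x c i.1.2.1 * (fl x T Λ i.1.1 i.1.2.2.1 * i.1.2.2.2)) := fun Λ c i => by
    simp only [Q, LinearMap.sub_apply, LinearMap.sum_apply]
    rfl
  clear_value Q
  have ka : ∀ Λ c (i : I), Λᵀ = -Λ → Tendsto (fun s : ℝ => -∑ μ, ∑ ν,
      pr2 x W (T μ ν) c (km Λ 0 ν (pd μ η)) v i.1.2.1 i.1.2.2.2 s / s ^ 4) (𝓝[>] 0) (𝓝 (Q Λ i c)) :=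
    fun Λ c i hΛ => by
      have := (tendsto_finsetSum Finset.univ fun ν _ => show Tendsto _ _ (𝓝 _) from d2 ν c _ ▸
        kb ν c ⟨(0, km Λ i.1.1 ν i.1.2.1, i.1.2.2), ds_km i.2.1 ν,
          i.2.2.1.of (ds_km i.2.1.self ν).2.2, i.2.2.2⟩).sub (k Λ i.1.1 c hΛ i)
      rw [mul_comm (fl ..), mul_assoc, ← qe] at this
      refine this.congr fun s => ?_
      rw [Finset.sum_comm]
      simp only [Finset.sum_add_distrib, sub_add_cancel_right]
  have : ∀ Λ, ∃ M : V →ₗ[ℝ] V, Φ.Up 0 M ∧ (Λᵀ = -Λ → ∀ c (i : I),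
      W (x (M c) i.1.2.1 * i.1.2.2.2) = Q Λ i c) := fun Λ => by
    by_cases hΛ : Λᵀ = -Λ; swap
    · exact ⟨0, fun _ _ _ => zero_mem _, fun e => absurd e hΛ⟩
    refine (h.mkop (n := 0) (fun i : I => i.2.1) z su (Q Λ) fun d c hd => ?_).imp
      fun _ e => ⟨e.1, fun _ => e.2⟩
    have a := fun μ ν => ad (ds_km (Λ := Λ) (e := 0) (hη.gs μ) ν)
    choose m m1 m2 using fun μ ν => (h.mg2 _ (hc.mem μ ν) d c hd).2 _ (a μ ν).1 (a μ ν).2
    refine ⟨fun s => -∑ μ, ∑ ν, m μ ν s, fun s => neg_mem (sum_mem fun μ _ => sum_mem fun ν _ =>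
      m1 μ ν s), fun i => ?_⟩
    have := (ka Λ c i hΛ).add (tendsto_finsetSum Finset.univ fun μ _ =>
      tendsto_finsetSum Finset.univ fun ν _ => m2 μ ν _ i.2.1 _ (z i))
    simp only [Fin.prod_univ_two, Finset.sum_sub_distrib, Finset.sum_const_zero, add_zero] at this
    refine this.congr fun s => (neg_add_eq_sub _ _).trans ((sub_sub_cancel_left _ _).trans ?_)
    change _ = h.lab (dc i.2.1.self) (z i) _
    simp only [map_neg, map_sum]
    rfl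
  choose σ s1 s2 using this
  refine ⟨δ, σ, hD, d1, s1, LinearMap.ext fun c => h.ext fun g hg Y hY => ?_,
    fun Λ e c f ξ hΛ hf hξ Z hZ => ?_⟩
  · obtain ⟨i, rfl, rfl⟩ := su g hg Y hY
    rw [s2 0 (by simp), tendsto_nhds_unique (ka 0 c i (by simp)) (k0 c i).neg, neg_zero]
    exact (map_zero (h.lab (dc i.2.1.self) (z i))).symm
  · rw [s2 Λ hΛ c ⟨(e, f, ξ, Z), hf, hξ, hZ⟩, mul_comm (fl ..), mul_assoc, qe, sub_sub_cancel]

end Rg

end Pool.Agent.Lib.MP_7f377f_mp.Sw
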