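import Pool.Agent.Lib.MP_7f377f_mp.G.ZgI
import Pool.Agent.Lib.MP_7f377f_mp.G.SwM

/-! The trace of the stress tensor: definitions. -/

noncomputable section

namespace Pool.Agent.Lib.MP_7f377f_mp.An
variable [Pool.Agent.Lib.MP_7f377f_mp.GD]
set_option linter.unusedSectionVars false

open MeasureTheory Filter Topology Set YM7 Pur S3 Sw Real
open scoped NNReal

/-- the slope of the inverse coupling -/
def q0 : ℝ := 11 * GD.b0 / (48 * π ^ 2)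

/-- a test function at the scale `s` near `z` -/
abbrev bz (s : ℝ) (z : R4) (u : R4 → ℝ) : R4 → ℝ := fun y => u (s⁻¹ • (y - z))

/-- invariant functions -/
def Rad (u : R4 → ℝ) : Prop := ∀ (R : Ro.Iso) y, u (R y) = u y

/-- a small ball -/
def Sb : Set R4 := Metric.ball 0 (1 / 100)

/-- third moments `c p` whose first source overlaps the others -/
structure Tri {ι : Type} (l : Filter ι) (c : ι → (Fin 3 → R4 → ℝ) → ℝ) : Prop where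
  bd : ∀ g B, Ds Sb g → IsCompact B → B ⊆ Sb → Disjoint B (tsupport g) → ∃ C : ℝ,
    ∀ a f (La Lf : ℝ≥0), Ds B a → Ds B f → LipschitzWith La a → LipschitzWith Lf f →
      ∀ᶠ p in l, |c p ![a, f, g]| ≤ C * La * Lf
  nr : ∀ a v f g, Ds univ a → Ds univ v → Rad a → Rad v → ∀ hf : Adm ![f], Ds Sb f → Ds Sb g →
    Ds (tsupport f)ᶜ g → ∀ δ > (0 : ℝ), ∀ᶠ s : ℝ in 𝓝[>] 0, ∀ᶠ e : ℕ in atTop, ∀ᶠ p in l,
      |∑ x ∈ (Ope.fin_gp hf e).toFinset, (3 ^ e)⁻¹ ^ 4 * f (Ope.gp e x) *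
        c p ![bz s (Ope.gp e x) a, bz s (Ope.gp e x) v, g]| ≤ δ * s ^ 4
  mn : ∀ ξ f g, Ds Sb ξ → (∀ᶠ y in 𝓝 0, ξ y = 1) → Ds univ f → Ds (tsupport f)ᶜ g →
    ∀ δ > (0 : ℝ), ∀ᶠ t : ℝ in 𝓝[>] 0, ∀ᶠ p in l,
      |log t⁻¹ ^ 3 * c p ![ξ, sc t f, sc t g] - 2 / q0 * kap ![f, g]| ≤ δ

/-- the third moment without the neighbourhood of the diagonal -/
def nn (E : (Fin 3 → R4 → ℝ) → ℂ) (ξ η v f g : R4 → ℝ) (s : ℝ) : ℂ :=
  (∫ z, f z * E ![ξ - bz s z η, bz s z v, g]) / s ^ 4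

/-- the extension `K` of the three point function `E` to an overlapping source -/
structure Ov (E : (Fin 3 → R4 → ℝ) → ℂ) (K : (R4 → ℝ) → (R4 → ℝ) → (R4 → ℝ) → ℂ) : Prop where
  add : ∀ a b c f g, Ds Sb a → Ds Sb b → Ds Sb f → Ds Sb g → Ds (tsupport f)ᶜ g →
    Ds (tsupport g)ᶜ a → Ds (tsupport f)ᶜ b → Ds (tsupport f ∪ tsupport g)ᶜ c →
      K (a + b + c) f g = K a f g + K b g f + E ![c, f, g]
  lim : ∀ ξ η v f g, Rad η → Rad v → Ds univ v → ∫ w, v w = 1 → One η v → Ds univ f → One ξ f →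
    Ds Sb ξ → Ds Sb g → Ds (tsupport ξ)ᶜ g → Tendsto (nn E ξ η v f g) (𝓝[>] 0) (𝓝 (K ξ f g))
  mn : ∀ ξ f g, Ds Sb ξ → (∀ᶠ y in 𝓝 0, ξ y = 1) → Ds univ f → Ds (tsupport f)ᶜ g →
    Tendsto (fun t : ℝ => (log t⁻¹ : ℂ) ^ 3 * K ξ (sc t f) (sc t g)) (𝓝[>] 0)
      (𝓝 (2 / q0 * kap ![f, g] : ℝ))

end Pool.Agent.Lib.MP_7f377f_mp.An
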