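import Pool.Agent.Lib.MP_7f377f_mp.G.AnD
import Pool.Agent.Lib.MP_7f377f_mp.G.SwE

/-! The trace of the stress tensor: the flux of the dilation near one point. -/

noncomputable section

namespace Pool.Agent.Lib.MP_7f377f_mp.An
variable [Pool.Agent.Lib.MP_7f377f_mp.GD]
set_option linter.unusedSectionVars false

open MeasureTheory Filter Topology Set YM7 Pur Wm Lm Wv S3 Sw Function Matrix Real
open Ro (Iso prm)
open scoped ContDiff NNReal

variable {V P : Type} [NormedAddCommGroup V] [NormedSpace ℝ V] [CommRing P] [Algebra ℂ P]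
  {Φ : Fil V} {N : Net P} {x : V → (R4 → ℝ) → P} {W : P →ₗ[ℂ] ℂ} {ρ : Iso →* V →ₗ[ℝ] V}
  {A : ℝ → V ≃ₗ[ℝ] V} {S : Cor V} {T : Fin 4 → Fin 4 → V} {D δ : Fin 4 → V →ₗ[ℝ] V}
  {σ : Mat → V →ₗ[ℝ] V} {φ u lg c : V} {f g ξ η v : R4 → ℝ}

theorem kill1 (h : Rg Φ N x W ρ A S) (hc : Cu Φ N x W ρ T) {O : Set R4} {Z : P} (hξ : Ds O ξ)
    (hZ : Z ∈ N.loc Oᶜ) : W (fl x T 1 0 ξ * Z) = -W (x (∑ μ, T μ μ) ξ * Z) := by
  obtain ⟨B, hB⟩ := h.bil hZ
  lift ξ to Sm using hξ.1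
  have c : ∀ ν, ∑ μ, B (wl.d μ (kk 1 0 ν * ξ)) (T μ ν) = 0 := fun ν => by
    have m := (S3.Id O).mul_mem_left (kk 1 0 ν) hξ
    simp only [hB _ (S3.Id.st O _ _ m)]
    exact hc.con ν _ (Ds.univ m) Z (N.mono hZ (compl_subset_compl.2 m.2.2))
  have := Finset.sum_eq_zero (s := Finset.univ) fun ν _ => c ν
  simp only [d_kk, map_add, map_smul, LinearMap.add_apply, LinearMap.smul_apply,
    Finset.sum_add_distrib] at this
  simp only [one_apply, ite_smul, one_smul, zero_smul, Finset.sum_ite_eq, Finset.mem_univ,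
    if_true] at this
  rw [Rg.fl_eq hB ξ hξ.pd, Finset.sum_comm, ← hB _ hξ, map_sum]
  linear_combination this

theorem flx1 (h : Rg Φ N x W ρ A S) (hc : Cu Φ N x W ρ T) {O : Set R4} {Z : P} {a b e : R4 → ℝ}
    (ha : Ds univ a) (hb : Ds univ b) (ga : Gs O a) (gb : Gs O b) (he : Ds O e)
    (hZ : Z ∈ N.loc Oᶜ) : W (fl x T 1 0 (a + b + e) * Z) =
      W (fl x T 1 0 a * Z) + W (fl x T 1 0 b * Z) - W (x (∑ μ, T μ μ) e * Z) := by
  obtain ⟨B, hB⟩ := h.bil hZ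
  let L : Sm →ₗ[ℝ] ℂ := ∑ μ, ∑ ν, B.flip (T μ ν) ∘ₗ LinearMap.mulLeft ℝ (kk 1 0 ν) ∘ₗ wl.d μ
  have l : ∀ ξ : Sm, Gs O ξ → W (fl x T 1 0 ξ * Z) = L ξ := fun ξ g => by
    simp [Rg.fl_eq hB ξ g, L]
  lift a to Sm using ha.1
  lift b to Sm using hb.1
  lift e to Sm using he.1
  rw [sub_eq_add_neg, ← kill1 h hc he hZ, l a ga, l b gb, l e he.pd, ← map_add, ← map_add]
  refine l (a + b + e) fun μ => ?_
  have := (S3.Id O).add_mem ((S3.Id O).add_mem (a := wl.d μ a) (b := wl.d μ b) (ga μ) (gb μ))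
    (S3.Id.st O μ _ he)
  simp only [← map_add] at this
  exact this

theorem in1 {y : R4} (h : y ∈ interior {y | ξ y = 1}) : ξ y = 1 :=
  interior_subset (s := {y | ξ y = 1}) h

theorem ds_bz {O : Set R4} {s : ℝ} (s0 : 0 < s) (z : R4) (hf : Ds O f) :
    Ds {y | s⁻¹ • (y - z) ∈ O} (bz s z f) :=
  hf.comp (G := fun y => s • y + z) (by fun_prop) (by fun_prop) (by simp [s0.ne'])
    (by simp [s0.ne'])

theorem km_bz (hη : ContDiff ℝ ∞ η) (s : ℝ) (z : R4) (μ ν : Fin 4) :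
    km 1 0 ν (pd μ (bz s z η)) = bz s z (km 1 0 ν (pd μ η)) + z ν • pd μ (bz s z η) := by
  funext y
  have : pd μ (bz s z η) y = pd μ (sc s η) (y - z) := by
    simp only [pd, lineDeriv, bz, sc, add_sub_right_comm]
  simp [km, this, pd_sc hη, act]
  ring

theorem pt0 (hv : Ds univ v) (hη : One η v) (hξ : Ds univ ξ) {s : ℝ} (s0 : 0 < s) {z : R4}
    (m : ∀ y, s⁻¹ • (y - z) ∈ tsupport η → y ∈ interior {y | ξ y = 1}) :
    One (bz s z η) (bz s z v) ∧ Ds (tsupport ξ) (bz s z η) ∧ One ξ (bz s z v) ∧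
      Ds (tsupport ξ \ tsupport (bz s z v)) (ξ - bz s z η) := by
  have v1 := ds_bz s0 z hv.self
  have o : One (bz s z η) (bz s z v) := ⟨(ds_bz s0 z hη.1).univ, (((by fun_prop :
    Continuous fun y : R4 => s⁻¹ • (y - z)).tendsto_nhdsSet (mapsTo_preimage _ _)).eventually
      hη.2).filter_mono (nhdsSet_mono v1.2.2)⟩
  have t := (ds_bz s0 z hη.1.self).mono (O' := tsupport ξ) fun y hy =>
    subset_tsupport _ (by simp [in1 (m y hy)])
  have o' : One ξ (bz s z v) := ⟨hξ, eventually_of_mem (isOpen_interior.mem_nhdsSet.2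
    fun y hy => m y (hη.sub (v1.2.2 hy))) fun y hy => in1 hy⟩
  refine ⟨o, t, o', ds_diff ((S3.Id _).sub_mem (a := ⟨ξ, hξ.1⟩) (b := ⟨_, t.1⟩) hξ.self t) ?_⟩
  filter_upwards [o.2, o'.2] with y h1 h2
  simp [h1, h2]

theorem pt1 (h : Rg Φ N x W ρ A S) (hc : Cu Φ N x W ρ T) (ho : Ops Φ N x W T D δ σ)
    (hv : Ds univ v) (hη : One η v) (hξ : Ds univ ξ) {Z : P} (hZ : Z ∈ N.loc (tsupport ξ)ᶜ) {s : ℝ}
    (s0 : 0 < s) {z : R4} (m : ∀ y, s⁻¹ • (y - z) ∈ tsupport η → y ∈ interior {y | ξ y = 1}) :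
    W (x (∑ μ, T μ μ) (ξ - bz s z η) * x c (bz s z v) * Z) =
      ∑ μ, ∑ ν, W (x (T μ ν) (bz s z (km 1 0 ν (pd μ η))) * x c (bz s z v) * Z) +
        ∑ ν, z ν * W (x (δ ν c) (bz s z v) * Z) - W (x c (bz s z v) * (fl x T 1 0 ξ * Z)) := by
  obtain ⟨o, t, o', d⟩ := pt0 hv hη hξ s0 m
  have v1 := ds_bz s0 z hv
  have hY := h.mz c v1.univ o' hZ
  have g : Gs (tsupport ξ \ tsupport (bz s z v)) (bz s z η) := gs_diff t o.2
  have := flx1 h hc (b := 0) o.1 (S3.Id univ).zero_mem g (Ds.pd (S3.Id _).zero_mem) d hY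
  rw [add_zero, add_sub_cancel, kill1 h hc (ξ := 0) (S3.Id _).zero_mem hY, h.lf0 _ hY] at this
  have r : ∀ μ ν, C1 (tsupport ξ \ tsupport (bz s z v)) (bz s z (km 1 0 ν (pd μ η))) := fun μ ν => by
    have := (S3.Id _).sub_mem (a := ⟨_, (ds_km (Λ := 1) (e := 0) (g μ) ν).1⟩) (ds_km (g μ) ν)
      ((S3.Id _).smul_of_tower_mem (z ν) (x := ⟨_, (g μ).1⟩) (g μ))
    rw [eq_sub_of_add_eq (km_bz hη.1.1 s z μ ν).symm]
    exact dc this
  have q := fun ν => h.qt ho ν c v1.univ o (N.mono hZ (compl_subset_compl.2 t.2.2))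
  rw [mul_left_comm, this, mul_assoc, fl, Finset.sum_mul, map_sum]
  simp only [Finset.sum_mul, map_sum, km_bz hη.1.1, h.lf _ _ (r _ _) (dc (g _)) hY, ← q,
    Finset.mul_sum, Finset.sum_add_distrib, mul_assoc]
  rw [Finset.sum_comm (f := fun ν μ => (z ν : ℂ) * _)]
  ring

theorem key0 (h : Rg Φ N x W ρ A S) (hc : Cu Φ N x W ρ T) (ho : Ops Φ N x W T D δ σ)
    (hv : Ds univ v) (hη : One η v) (hf : Ds univ f) (hξ : One ξ f) {Z : P}
    (hZ : Z ∈ N.loc (tsupport ξ)ᶜ) : ∀ᶠ s : ℝ in 𝓝[>] 0,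
      (Integrable fun z => f z * W (x (∑ μ, T μ μ) (ξ - bz s z η) * x c (bz s z v) * Z)) ∧
      ∫ z, f z * W (x (∑ μ, T μ μ) (ξ - bz s z η) * x c (bz s z v) * Z) =
        ∑ μ, ∑ ν, pr2 x W (T μ ν) c (km 1 0 ν (pd μ η)) v f Z s +
          ∑ ν, (∫ z, km 1 0 ν f z * W (x (δ ν c) (bz s z v) * Z)) -
            ∫ z, f z * W (x c (bz s z v) * (fl x T 1 0 ξ * Z)) := by
  have u : interior {y | ξ y = 1} ⊆ tsupport ξ := fun y hy =>
    subset_tsupport _ (by simp [show ξ y = 1 from in1 hy])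
  filter_upwards [small hf.2.1 hη.1.2.1 (isOpen_interior.mem_nhdsSet.2
    (subset_interior_iff_mem_nhdsSet.2 hξ.2)), self_mem_nhdsWithin] with s m (s0 : 0 < s)
  have hZ' := N.mono hZ (compl_subset_compl.2 u)
  have i1 : ∀ μ ν, Integrable fun z => f z *
      W (x (T μ ν) (bz s z (km 1 0 ν (pd μ η))) * x c (bz s z v) * Z) := fun μ ν => by
    have hu := ds_km (Λ := 1) (e := 0) (hη.gs μ) ν
    simpa using h.intg ![T μ ν, c] (adm_sc (adm_two (O := (tsupport v)ᶜ)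
      (dc (hu.mono fun _ => And.right)) (by simpa using dc hv.self)) s0) (dc hf) hZ'
      (Fin.forall_fin_two.2 ⟨fun z hz y hy => m z hz y ((ds_sc hu s0).2.2 hy).1,
        fun z hz y hy => m z hz y (hη.sub ((ds_sc hv.self s0).2.2 hy))⟩)
  have i2 : ∀ (a : V) {g Y}, Ds (tsupport f) g → Y ∈ N.loc (interior {y | ξ y = 1})ᶜ →
      Integrable fun z => g z * W (x a (bz s z v) * Y) := fun a g Y hg hY => by
    simpa using h.intg ![a] (adm_c1 (K := fun _ => univ) (g := ![sc s v]) Subsingleton.pairwise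
      (by simpa using dc (ds_sc hv s0).univ)) (dc hg.univ) hY (by
        simpa using fun z hz y hy => m z (hg.2.2 hz) y (hη.sub ((ds_sc hv.self s0).2.2 hy)))
  have i3 := i2 c hf.self (N.mono (N.mul (h.fl_mem (T := T) (Λ := 1) (e := 0) (gs_diff hξ.1.self
    (eventually_of_mem isOpen_interior.mem_nhdsSet_self fun y hy => in1 hy))) hZ
    (disjoint_compl_right.mono_left diff_subset)) (union_subset (fun _ => And.right)
      (compl_subset_compl.2 u)))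
  have i4 := fun ν => i2 (δ ν c) (ds_km (Λ := 1) (e := 0) hf.self ν) hZ'
  have j1 := fun μ => integrable_finsetSum Finset.univ fun ν _ => i1 μ ν
  have j2 := integrable_finsetSum Finset.univ fun μ _ => j1 μ
  have j4 := integrable_finsetSum Finset.univ fun ν _ => i4 ν
  have e : ∀ z, f z * W (x (∑ μ, T μ μ) (ξ - bz s z η) * x c (bz s z v) * Z) =
      ∑ μ, ∑ ν, f z * W (x (T μ ν) (bz s z (km 1 0 ν (pd μ η))) * x c (bz s z v) * Z) +
        ∑ ν, km 1 0 ν f z * W (x (δ ν c) (bz s z v) * Z) -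
          f z * W (x c (bz s z v) * (fl x T 1 0 ξ * Z)) := fun z => by
    by_cases hz : z ∈ tsupport f; swap
    · simp [km, c1z (dc hf.self) hz]
    rw [pt1 h hc ho hv hη hξ.1 hZ s0 (m z hz)]
    simp [km, act, mul_add, mul_sub, Finset.mul_sum, mul_assoc, mul_left_comm]
  simp only [e]
  refine ⟨(j2.add j4).sub i3, ?_⟩
  refine (integral_sub (j2.add j4) i3).trans ?_
  simp only [Pi.add_apply]
  rw [integral_add j2 j4, integral_finsetSum _ fun μ _ => j1 μ, integral_finsetSum _ fun ν _ => i4 ν]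
  simp only [integral_finsetSum _ fun ν _ => i1 _ ν]
  rfl

theorem key1 (h : Rg Φ N x W ρ A S) (hc : Cu Φ N x W ρ T) (ho : Ops Φ N x W T D δ σ)
    (hd : c ∈ Φ.F 4) (hv : Ds univ v) (h1 : ∫ w, v w = 1) (hη : One η v) :
    ∃ m : ℝ → V, (∀ s, m s ∈ Φ.F 4) ∧ ∀ f ξ, Ds univ f → One ξ f → ∀ Z ∈ N.loc (tsupport ξ)ᶜ,
      Tendsto (fun s : ℝ => W (x (m s) f * Z) -
        (∫ z, f z * W (x (∑ μ, T μ μ) (ξ - bz s z η) * x c (bz s z v) * Z)) / s ^ 4) (𝓝[>] 0)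
        (𝓝 (W (fl x T 1 0 ξ * x c f * Z) - ∑ ν, W (x (δ ν c) (km 1 0 ν f) * Z))) := by
  have a := fun μ ν => ds_km (Λ := 1) (e := 0) (hη.gs μ) ν
  choose m m1 m2 using fun μ ν => (h.mg2 _ (hc.mem μ ν) 4 c hd).2 ![km 1 0 ν (pd μ η), v]
    (adm_two (O := (tsupport v)ᶜ) (dc ((a μ ν).mono fun _ => And.right)) (by simpa using dc hv.self))
    (Fin.forall_fin_two.2 ⟨(a μ ν).univ, hv⟩)
  refine ⟨fun s => ∑ μ, ∑ ν, m μ ν s, fun s => sum_mem fun μ _ => sum_mem fun ν _ => m1 μ ν s,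
    fun f ξ hf hξ Z hZ => ?_⟩
  have z := N.mono hZ (compl_subset_compl.2 hξ.sub)
  have k := fun ν => ds_km (Λ := 1) (e := 0) hf.self ν
  have := ((h.mol c 0 (dc hf) hv (dc hf.self) hv h1 (by simp)
    (h.fz (T := T) (Λ := 1) (e := 0) hξ hξ.1.self hZ)).sub (tendsto_finsetSum Finset.univ fun ν _ =>
      h.mol (δ ν c) 0 (dc (k ν).univ) hv (dc (k ν).self) hv h1 (by simp)
        (N.mono z (compl_subset_compl.2 (k ν).2.2)))).sub
    (tendsto_finsetSum Finset.univ fun μ _ => tendsto_finsetSum Finset.univ fun ν _ =>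
      m2 μ ν f hf Z z)
  simp only [Finset.sum_const_zero, sub_zero] at this
  rw [mul_comm (fl ..), mul_assoc]
  refine this.congr' ((key0 (c := c) h hc ho hv hη hf hξ hZ).mono fun s e => ?_)
  have l : W (x (∑ μ, ∑ ν, m μ ν s) f * Z) = ∑ μ, ∑ ν, W (x (m μ ν s) f * Z) := by
    change h.lab (dc hf.self) z _ = _
    simp only [map_sum]
    rfl
  simp only [e.2, l, Fin.prod_univ_two, Finset.sum_sub_distrib, sub_div, add_div, Finset.sum_div, pr2,
    cons_val_zero, cons_val_one, add_zero]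
  ring

theorem exists_rad : ∃ η v, Rad η ∧ Rad v ∧ Ds univ v ∧ ∫ w, v w = 1 ∧ One η v := by
  let f : R4 → ℝ := fun y => expNegInvGlue (1 - ‖y‖ ^ 2)
  let η : R4 → ℝ := fun y => smoothTransition (3 - ‖y‖ ^ 2)
  have n2 : ContDiff ℝ ∞ fun y : R4 => ‖y‖ ^ 2 := contDiff_norm_sq ℝ
  have cf : ContDiff ℝ ∞ f := expNegInvGlue.contDiff.comp (contDiff_const.sub n2)
  have f1 : ∀ y ∉ Metric.closedBall (0 : R4) 1, f y = 0 := fun y e =>
    expNegInvGlue.zero_of_nonpos (by simp at e; nlinarith)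
  have df : Ds (Metric.closedBall 0 1) f := .of cf (isCompact_closedBall _ _) f1
  have p : 0 < ∫ y, f y := cf.continuous.integral_pos_of_hasCompactSupport_nonneg_nonzero df.2.1
    (fun y => expNegInvGlue.nonneg _) (x := 0) (expNegInvGlue.pos_of_pos (by simp)).ne'
  have dv : Ds (Metric.closedBall 0 1) ((∫ y, f y)⁻¹ • f) :=
    (S3.Id _).smul_of_tower_mem (∫ y, f y)⁻¹ (x := ⟨f, cf⟩) df
  refine ⟨η, _, fun R y => by simp only [η, R.norm_map], fun R y => by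
    simp only [f, Pi.smul_apply, R.norm_map], dv.univ, by simp [integral_const_mul, p.ne'],
    (Ds.of (smoothTransition.contDiff.comp (contDiff_const.sub n2)) (isCompact_closedBall 0 2)
      fun y e => smoothTransition.zero_of_nonpos (by simp at e; nlinarith)).univ,
    eventually_of_mem ((isOpen_lt n2.continuous (continuous_const (y := 2))).mem_nhdsSet.2
      fun y e => ?_) fun y (e : ‖y‖ ^ 2 < 2) => smoothTransition.one_of_one_le (by linarith)⟩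
  have := mem_closedBall_zero_iff.1 (dv.2.2 e)
  change ‖y‖ ^ 2 < 2
  nlinarith [norm_nonneg y]

theorem key2 (h : Rg Φ N x W ρ A S) (hc : Cu Φ N x W ρ T) (ho : Ops Φ N x W T D δ σ)
    (hd : φ ∈ Φ.F 4) {κ γ : ℝ} (tr : ∑ μ, T μ μ = κ • φ + γ • u)
    (un : ∀ f, C1 univ f → ∀ Z ∈ N.loc (tsupport f)ᶜ, W (x u f * Z) = (∫ y, f y : ℝ) * W Z) {K}
    (ov : Ov (fun f => W (∏ i, x φ (f i))) K) :
    ∃ m : ℝ → V, (∀ s, m s ∈ Φ.F 4) ∧ ∀ f ξ g, Ds univ f → One ξ f → Ds Sb ξ → Ds Sb g →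
      Ds (tsupport ξ)ᶜ g → Tendsto (fun s : ℝ => W (x (m s) f * x φ g)) (𝓝[>] 0)
        (𝓝 (W (fl x T 1 0 ξ * (x φ f * x φ g)) - ∑ ν, W (x (δ ν φ) (km 1 0 ν f) * x φ g) +
          κ * K ξ f g + γ * (∫ y, ξ y : ℝ) * W (x φ f * x φ g))) := by
  obtain ⟨η, v, r1, r2, hv, h1, hη⟩ := exists_rad
  obtain ⟨m, m1, m2⟩ := key1 h hc ho hd hv h1 hη
  refine ⟨m, m1, fun f ξ g hf hξ b1 b2 hg => ?_⟩
  have hZ := h.mem φ (dc hg)
  have k : Tendsto (fun s : ℝ => (((∫ y, ξ y) - s ^ 4 * ∫ y, η y : ℝ) : ℂ)) (𝓝[>] 0)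
      (𝓝 (∫ y, ξ y : ℝ)) := tendsto_nhdsWithin_of_tendsto_nhds
    (Continuous.tendsto' (by fun_prop) _ _ (by simp))
  have := ((m2 f ξ hf hξ _ hZ).add ((ov.lim ξ η v f g r1 r2 hv h1 hη hf hξ b1 b2
    hg).const_mul (κ : ℂ))).add
    ((k.const_mul (γ : ℂ)).mul (h.mol φ 0 (dc hf) hv (dc hf.self) hv h1 (by simp)
      (N.mono hZ (compl_subset_compl.2 hξ.sub))))
  rw [mul_assoc (fl ..)] at this
  refine this.congr' ?_
  filter_upwards [key0 (c := φ) h hc ho hv hη hf hξ hZ, small hf.2.1 hη.1.2.1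
    (isOpen_interior.mem_nhdsSet.2 (subset_interior_iff_mem_nhdsSet.2 hξ.2)),
    self_mem_nhdsWithin] with s e m (s0 : 0 < s)
  have i : Integrable fun z => f z * W (x φ (bz s z v) * x φ g) := by
    simpa using h.intg ![φ] (adm_c1 (K := fun _ => univ) (g := ![sc s v]) Subsingleton.pairwise
      (by simpa using dc (ds_sc hv s0).univ)) (dc hf) hZ (by
        simpa using fun z hz y hy => subset_tsupport ξ (by
          simp [in1 (m z hz y (hη.sub ((ds_sc hv.self s0).2.2 hy)))]))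
  have p : ∀ z, κ * (f z * W (∏ i, x φ (![ξ - bz s z η, bz s z v, g] i))) =
      f z * W (x (∑ μ, T μ μ) (ξ - bz s z η) * x φ (bz s z v) * x φ g) -
        γ * (((∫ y, ξ y) - s ^ 4 * ∫ y, η y : ℝ) : ℂ) * (f z * W (x φ (bz s z v) * x φ g)) :=
    fun z => by
      by_cases hz : z ∈ tsupport f; swap
      · simp [c1z (dc hf.self) hz]
      obtain ⟨o, t, o', d⟩ := pt0 hv hη hξ.1 s0 (m z hz)
      have hY := N.mono (h.mz φ (ds_bz s0 z hv).univ o' hZ) (compl_subset_compl.2 d.2.2)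
      have j : ∀ {f : R4 → ℝ} {O}, Ds O f → Integrable f := fun h =>
        h.1.continuous.integrable_of_hasCompactSupport h.2.1
      have a : ∫ y, (ξ - bz s z η) y = (∫ y, ξ y) - s ^ 4 * ∫ y, η y := by
        have := Measure.integral_comp_inv_smul_of_nonneg volume η s0.le
        simp only [finrank_euclideanSpace_fin, smul_eq_mul] at this
        rw [← this, ← integral_sub_right_eq_self (fun y => η (s⁻¹ • y)) z]
        exact integral_sub (j hξ.1) (j t)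
      rw [tr, mul_assoc (x _ _), h.linc _ _ _ _ (dc d.univ) _ hY, h.smc _ _ d.self hY,
        un _ (dc d.univ) _ hY, a, Fin.prod_univ_three, mul_assoc (x _ _)]
      simp only [cons_val_zero, cons_val_one, cons_val]
      ring
  rw [nn, ← mul_div_assoc, ← integral_const_mul]
  simp only [p]
  rw [integral_sub e.1 (i.const_mul _), integral_const_mul]
  ring

end Pool.Agent.Lib.MP_7f377f_mp.An
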