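import Pool.Agent.Lib.MP_7f377f_mp.G.Q6Rot

/-! The continuum limit together with the run which produces it. -/

noncomputable section

set_option linter.unusedSectionVars false
variable [Pool.Agent.Lib.MP_7f377f_mp.GD]

namespace Pool.Agent.Lib.MP_7f377f_mp.RG.Q4.En

open YM7 Filter MeasureTheory Topology Real L6 Pur Set

/-- the limit `S` of the run `G` along `U` -/
structure Rn (G : Gl) (β : ℕ × ℕ → ℝ) (U : Ultrafilter (ℕ × ℕ))
    (S₀ : ∀ {k : ℕ}, (Fin k → R4 → ℝ) → ℝ) (S : Pol →ₗ[ℂ] ℂ) : Prop where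
  ok : G.Oks
  ht : G.HT
  tu : G.Tus β
  lim : Lim (Fi.tr haar) fast G.nn G.aa β U S₀ S
  lim' : Lim (Fi.tr haar) (atTop ×ˢ atTop) G.nn G.aa β U S₀ S
  inp : Lg.Inp S
  rot : Lg.Rot S
  inv : ∀ g, Ro.Inv S g
  arr : ArrS S₀
  prod : Lg.ProdS S₀

theorem Rn.lift {G : Gl} {β : ℕ × ℕ → ℝ} {U : Ultrafilter (ℕ × ℕ)}
    {S₀ : ∀ {k : ℕ}, (Fin k → R4 → ℝ) → ℝ} {S : Pol →ₗ[ℂ] ℂ} (R : Rn G β U S₀ S) {k : ℕ}
    {f : Fin k → R4 → ℝ} (hf : Adm f) : S (mon f) = S₀ f := R.lim.lift hf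

theorem out_run [m : MeasurableSpace SU2] [BorelSpace SU2] (h : Measure SU2) [h.IsHaarMeasure]
    [IsProbabilityMeasure h] : ∃ (n : ℕ → ℕ+) (a b : ℕ → ℝ) (S : Pol →ₗ[ℂ] ℂ),
      Tendsto a atTop (𝓝[>] 0) ∧ Tendsto (fun j => a j * n j) atTop atTop ∧
      Tendsto (fun j => b j / log (a j)⁻¹) atTop (𝓝 (11 * GD.b0 / (48 * π ^ 2))) ∧
      (∀ Z ∈ Loc univ, Tendsto (fun j => vev h (b j) (n j) (a j) Z) atTop (𝓝 (S Z))) ∧
      ∃ G β U S₀, Rn G β U S₀ S := by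
  obtain ⟨G, β, o, ht, hβ, e⟩ := out_all h
  obtain rfl : m = Fi.mS := BorelSpace.measurable_eq
  have : (Fi.tr haar).IsHaarMeasure := (inferInstance : haar.IsHaarMeasure)
  obtain rfl := Measure.isHaarMeasure_eq_of_isProbabilityMeasure h (Fi.tr haar)
  have hF := o.fam hβ
  have hC := cellA_of_poly2 hF (e _).1
  have hA := fun K => shortA_of hF ((e _).2 K) (o.arr2 hβ _ K)
  have z := fun (p : ℕ × ℕ) k (e : k ≤ p.2) => ((o p.1).1.tan_main (o p.1).2 (hβ p) e).1.sz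
  have hP := Lg.polyC_of hF (o.poly3 hβ z _)
  have hB := hC.cell.bd7 hF
  obtain ⟨U, S₀, S, n', a', b', e0, e1, e2, e3, e4, e5, e6, e7, e8⟩ := lim10 (Φ := fast)
    ⟨hF.a0.mono_left fast_le, hF.vol.mono_left fast_le, hF.cpl.mono_left fast_le,
      hF.tau.mono_left fast_le⟩
    (fun k R δ δ0 => (hB k R δ δ0).imp fun _ e => ⟨e.1, e.2.filter_mono fast_le⟩)
    (fun K k hk f hf η η0 => (hA K k hk f hf η η0).mono fun _ => .imp fun _ e =>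
      ⟨e.1, e.2.1, fun lo hi => (e.2.2 lo hi).filter_mono fast_le⟩)
    (hP.imp fun _ e => ⟨e.1, e.2.mono fun _ => .filter_mono fast_le⟩)
    (swapL_of thD hF (N := G.e) (fun _ => rfl) fun _ => rfl)
  have u := e0.le.trans fast_le
  have e9 := Ro.o4 e5.st e5.lin (Lg.qual_of e5.st e5.lin e5.grow) e6 e7 e8
    (Th.thinQ_of e5.st e5.lin e0.lift (Th.arrT_of hF (o.poly4 hβ z _) u e0.cv))
  refine ⟨n', a', b', S, e1, e2, e3, e4, G, β, U, S₀, o, ht, hβ, e0,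
    ⟨u, e0.cv, fun hf _ e => e0.nr hf (e.filter_mono fast_le), e0.lift⟩, e5,
    fun R _ k f hf => ?_, e9, arrS_of hF hC u e0.cv, Lg.prodS_of hF hP u e0.cv⟩
  have := e9 R.symm _ (mon_mem hf fun _ => subset_univ _)
  rwa [Ro.act_mon] at this

end Pool.Agent.Lib.MP_7f377f_mp.RG.Q4.En
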