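import Pool.Agent.Lib.MP_7f377f_mp.G.AnK
import Pool.Agent.Lib.MP_7f377f_mp.G.S15A

/-! The trace of the stress tensor: from the lattice to the continuum. -/

noncomputable section

namespace Pool.Agent.Lib.MP_7f377f_mp.An
variable [Pool.Agent.Lib.MP_7f377f_mp.GD]
set_option linter.unusedSectionVars false

open MeasureTheory Filter Topology Set YM7 Pur Wm Lm Wv S3 Sw Function Matrix Real
open Ro (Iso prm)
open scoped ContDiff NNReal BoundedContinuousFunction

variable {V P : Type} [NormedAddCommGroup V] [NormedSpace ℝ V] [CommRing P] [Algebra ℂ P]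
  {Φ : Fil V} {N : Net P} {x : V → (R4 → ℝ) → P} {W : P →ₗ[ℂ] ℂ} {ρ : Iso →* V →ₗ[ℝ] V}
  {A : ℝ → V ≃ₗ[ℝ] V} {S : Cor V} {T : Fin 4 → Fin 4 → V} {D δ : Fin 4 → V →ₗ[ℝ] V}
  {σ : Mat → V →ₗ[ℝ] V} {φ u lg c : V} {f g ξ η v : R4 → ℝ}

theorem lb {ι : Type} (U : Ultrafilter ι) {u : ι → ℂ} {w : ℂ} {r : ℝ}
    (h : ∀ᶠ p in U, ‖u p - w‖ ≤ r) : Tendsto u U (𝓝 (limUnder U u)) ∧ ‖limUnder U u - w‖ ≤ r := by
  obtain ⟨y, m, e⟩ := (isCompact_closedBall w r).ultrafilter_le_nhds' (U.map u)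
    (h.mono fun p => mem_closedBall_iff_norm.2)
  have e' : Tendsto u U (𝓝 y) := e
  rw [e'.limUnder_eq]
  exact ⟨e', mem_closedBall_iff_norm.1 m⟩

theorem lip (hf : ContDiff ℝ ∞ f) {M : ℝ≥0} (h : ∀ μ y, |pd μ f y| ≤ M) :
    LipschitzWith (4 * M) f :=
  lipschitzWith_of_nnnorm_fderiv_le (hf.differentiable (by simp)) fun y =>
    (fderiv ℝ f y).opNorm_le_bound (NNReal.coe_nonneg (4 * M)) fun w => by
      have e : w = ∑ μ, w μ • ax μ 1 := by
        ext ν
        simp [Pi.single_apply]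
      conv_lhs => rw [e, map_sum]
      refine (norm_sum_le_of_le _ (n := fun _ => ‖w‖ * M) fun μ _ => ?_).trans (by simp; linarith)
      rw [map_smul, norm_smul]
      exact mul_le_mul (PiLp.norm_apply_le w μ) (by simpa [pd_eq hf] using h μ y) (norm_nonneg _)
        (norm_nonneg _)

/-- the functional `L` is continuous in the gradient -/
def Rp (B : Set R4) (L : (R4 → ℝ) → ℂ) (Λ : (Fin 4 → R4 →ᵇ ℝ) →L[ℝ] ℂ) : Prop :=
  ∀ f, Ds B f → ∀ γ : Fin 4 → R4 →ᵇ ℝ, (∀ μ, ⇑(γ μ) = pd μ f) → Λ γ = L f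

variable {B : Set R4} {L : (R4 → ℝ) → ℂ} {Λ : (Fin 4 → R4 →ᵇ ℝ) →L[ℝ] ℂ}

theorem rep {C : ℝ} (h1 : ∀ f g (t : ℝ), Ds B f → Ds B g → L (f + t • g) = L f + t • L g)
    (h2 : ∀ f (M : ℝ≥0), Ds B f → LipschitzWith M f → ‖L f‖ ≤ C * M) : ∃ Λ, Rp B L Λ := by
  obtain ⟨L', e⟩ := ext_lin h1
  let D : (S3.Id B).restrictScalars ℝ →ₗ[ℝ] Fin 4 → R4 →ᵇ ℝ :=
    { toFun f μ := (cb (dc (S3.Id.st B μ _ f.2))).1
      map_add' f g := funext fun μ => DFunLike.coe_injective
        (congrArg Subtype.val (map_add (wl.d μ) f.1 g.1))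
      map_smul' t f := funext fun μ => DFunLike.coe_injective
        (congrArg Subtype.val (map_smul (wl.d μ) t f.1)) }
  have b : ∀ f, ‖L' f.1‖ ≤ C * 4 * ‖D f‖ := fun f => by
    rw [e _ f.2, mul_assoc]
    exact h2 _ (4 * ‖D f‖₊) f.2 (lip f.1.2 fun μ y =>
      ((D f μ).norm_coe_le_norm y).trans (norm_le_pi_norm (D f) μ))
  have := Module.Free.of_divisionRing ℝ D.range
  obtain ⟨G, hG⟩ := D.rangeRestrict.exists_rightInverse_of_surjective D.range_rangeRestrict
  have g : ∀ y, D (G y) = y := fun y => congrArg Subtype.val (LinearMap.congr_fun hG y)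
  let M : D.range →L[ℝ] ℂ := (L' ∘ₗ ((S3.Id B).restrictScalars ℝ).subtype ∘ₗ G).mkContinuous (C * 4)
    fun y => (b (G y)).trans_eq (by rw [g]; rfl)
  obtain ⟨Λ, hΛ⟩ := ContinuousLinearMap.exist_extension_of_finiteDimensional_range (S := D.range) M
  refine ⟨Λ, fun f hf γ hγ => ?_⟩
  let F : (S3.Id B).restrictScalars ℝ := ⟨⟨f, hf.1⟩, hf⟩
  obtain rfl : γ = D F := funext fun μ => DFunLike.coe_injective (hγ μ)
  have z : D (G ⟨D F, F, rfl⟩ - F) = 0 := (map_sub D _ _).trans (sub_eq_zero.2 (g _))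
  have := norm_le_zero_iff.1 ((b _).trans_eq ((congrArg (C * 4 * ‖·‖) z).trans (by simp)))
  exact (DFunLike.congr_fun hΛ ⟨D F, F, rfl⟩).symm.trans
    ((sub_eq_zero.1 ((L'.map_sub _ _).symm.trans this)).trans (e _ hf))

theorem Rp.cv (h : Rp B L Λ) (hB : IsCompact B) (hf : Ds univ f) (hv : Ds univ v)
    (m : ∀ z ∈ tsupport f, ∀ y, y - z ∈ tsupport v → y ∈ B) :
    ∃ Γ : R4 → Fin 4 → R4 →ᵇ ℝ, Continuous Γ ∧ Integrable Γ ∧
      (∀ z, Λ (Γ z) = f z * L fun y => v (y - z)) ∧ ∀ z μ y, Γ z μ y = f z * pd μ v (y - z) := by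
  have := hf.1.continuous
  choose γ c1 e using fun μ => have := (hv.pd μ).1.continuous
    bcf (F := fun z y => f z * pd μ v (y - z)) (by fun_prop) hB fun z y hy => by
      by_cases hz : z ∈ tsupport f
      · rw [c1z (dc (hv.self.pd μ)) fun e => hy (m z hz y e), mul_zero]
      · rw [c1z (dc hf.self) hz, zero_mul]
  have z0 : ∀ z ∉ tsupport f, (fun μ => γ μ z) = 0 := fun z hz => funext fun μ =>
    DFunLike.coe_injective ((e μ z).trans (funext fun y => by simp [c1z (dc hf.self) hz]))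
  have c2 := continuous_pi c1
  refine ⟨fun z μ => γ μ z, c2, c2.integrable_of_hasCompactSupport (.intro hf.2.1 z0),
    fun z => ?_, fun z μ y => congrFun (e μ z) y⟩
  by_cases hz : z ∈ tsupport f; swap
  · simp [z0 z hz, c1z (dc hf.self) hz]
  have d : Ds B fun y => v (y - z) := hv.self.comp (G := fun y => y + z) (by fun_prop) (by fun_prop)
    (by simp) fun y hy => m z hz _ (by simpa using hy)
  rw [← Complex.real_smul, ← h _ d (fun μ => (cb (dc (d.pd μ))).1) fun _ => rfl, ← map_smul]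
  refine congrArg Λ (funext fun μ => DFunLike.coe_injective ((e μ z).trans (funext fun y => ?_)))
  change _ = f z * pd μ (fun y => v (y - z)) y
  simp only [pd, lineDeriv, add_sub_right_comm]

theorem Rp.mol (h : Rp B L Λ) (hB : IsCompact B) (hf : Ds univ f) (hv : Ds univ v)
    (h1 : ∫ w, v w = 1) (hU : B ∈ 𝓝ˢ (tsupport f)) :
    Tendsto (fun s : ℝ => (∫ z, f z * L (bz s z v)) / s ^ 4) (𝓝[>] 0) (𝓝 (L f)) := by
  have d := hf.self.mono (subset_of_mem_nhdsSet hU)
  choose γ g1 g2 using fun μ => cb_cont (F := mo (pd μ f) v) (nhdsWithin_le_nhds (s := Ioi 0))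
    (mo_cont (d.pd μ).1.continuous (dc hv)) hB ((mo_ds (dc (hf.pd μ)) hv
      (nhdsSet_mono (hf.self.pd μ).2.2 hU)).mono fun s m => dc m.2)
      (by rw [mo_zero h1]; exact dc (d.pd μ))
  have := (Λ.continuous.tendsto _).comp (tendsto_pi_nhds.2 fun μ =>
    (continuous_subtype_val.tendsto _).comp (g2 μ))
  rw [h f d _ fun μ => mo_zero h1] at this
  refine this.congr' ?_
  filter_upwards [eventually_all.2 g1, small hf.2.1 hv.2.1 hU, self_mem_nhdsWithin]
    with s e m (s0 : 0 < s)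
  obtain ⟨Γ, -, i, a, b⟩ := h.cv hB hf (ds_sc hv s0).univ fun z hz y hy =>
    m z hz y ((ds_sc hv.self s0).2.2 hy)
  have : ∫ z, Γ z = s ^ 4 • fun μ => (γ μ s).1 := funext fun μ => DFunLike.ext _ _ fun y => by
    refine (((BoundedContinuousFunction.evalCLM ℝ y).comp (.proj μ)).integral_comp_comm i).symm.trans ?_
    have := congrFun (mo_eq (g := f) (u := pd μ v) s0) y
    simp [b, e, pd_sc hv.1, mul_left_comm _ s⁻¹, integral_const_mul, this, mo_pd hf hv]
    field_simp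
  rw [eq_div_iff (by simp [s0.ne']), ← funext a, Λ.integral_comp_comm i, this, map_smul]
  simp [mul_comm]

theorem lip_tr (hv : Ds univ v) (z : R4) {ε : ℝ≥0} (ε0 : 0 < ε) :
    ∀ᶠ w in 𝓝 z, LipschitzWith (4 * ε) ((fun y => v (y - w)) - fun y => v (y - z)) := by
  choose δ δ0 e using fun μ => Metric.uniformContinuous_iff.1
    ((hv.pd μ).2.1.uniformContinuous_of_continuous (hv.pd μ).1.continuous) ε ε0
  filter_upwards [eventually_all.2 fun μ => Metric.ball_mem_nhds z (δ0 μ)] with w m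
  have c : ∀ w, ContDiff ℝ ∞ fun y => v (y - w) := fun w => hv.1.comp (by fun_prop)
  have p : ∀ μ w y, pd μ (fun y => v (y - w)) y = pd μ v (y - w) := fun μ w y => by
    simp only [pd, lineDeriv, add_sub_right_comm]
  refine lip ((c w).sub (c z)) fun μ y => ?_
  have := congrFun (congrArg Subtype.val (map_sub (wl.d μ) ⟨_, c w⟩ ⟨_, c z⟩)) y
  exact ((congrArg abs (this.trans (congrArg₂ (· - ·) (p ..) (p ..)))).trans_lt
    (e μ ((dist_sub_left ..).trans_lt (m μ)))).le

theorem Tri.ov' {ι : Type} {U : Ultrafilter ι} {c : ι → (Fin 3 → R4 → ℝ) → ℝ}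
    {E : (Fin 3 → R4 → ℝ) → ℂ} (H : Tri U c)
    (l : ∀ p a f f' g (t : ℝ), c p ![a, f + t • f', g] = c p ![a, f, g] + t * c p ![a, f', g])
    (s1 : ∀ p a f g, c p ![a, f, g] = c p ![f, a, g])
    (s2 : ∀ p a f g, c p ![a, f, g] = c p ![a, g, f])
    (cv : ∀ f, Adm f → Tendsto (fun p => (c p f : ℂ)) U (𝓝 (E f))) : ∃ K, Ov E K := by
  let K := fun a f g => limUnder U fun p => (c p ![a, f, g] : ℂ)
  have l0 : ∀ p a a' f g (t : ℝ), c p ![a + t • a', f, g] = c p ![a, f, g] + t * c p ![a', f, g] :=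
    fun p a a' f g t => by rw [s1, l, s1, s1 p f]
  have lp : ∀ {f O}, Ds O f → ∃ M, LipschitzWith M f := fun hf =>
    (dc hf).2.1.lipschitzWith_of_hasCompactSupport hf.2.1 one_ne_zero
  have kc : ∀ {g B}, Ds Sb g → IsCompact B → B ⊆ (tsupport g)ᶜ ∩ Sb → ∃ C : ℝ, ∀ a f (M M' : ℝ≥0),
      Ds B a → Ds B f → LipschitzWith M a → LipschitzWith M' f →
        Tendsto (fun p => (c p ![a, f, g] : ℂ)) U (𝓝 (K a f g)) ∧ ‖K a f g‖ ≤ C * M * M' :=
    fun {g B} hg hB b => (H.bd g B hg hB (b.trans inter_subset_right)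
      (subset_compl_iff_disjoint_right.1 (b.trans inter_subset_left))).imp
      fun C e a f M M' ha hf m m' => by
        simpa using lb U (w := 0) (u := fun p => c p ![a, f, g])
          (by simpa using e a f M M' ha hf m m')
  have k : ∀ {a f g}, Ds ((tsupport g)ᶜ ∩ Sb) a → Ds ((tsupport g)ᶜ ∩ Sb) f → Ds Sb g →
      Tendsto (fun p => (c p ![a, f, g] : ℂ)) U (𝓝 (K a f g)) := fun {a f g} ha hf hg => by
    obtain ⟨C, e⟩ := kc hg (ha.2.1.isCompact.union hf.2.1) (union_subset ha.2.2 hf.2.2)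
    obtain ⟨M, m⟩ := lp ha
    obtain ⟨M', m'⟩ := lp hf
    exact (e a f M M' (ha.self.mono subset_union_left) (hf.self.mono subset_union_right) m m').1
  have kl : ∀ {a f f' g} (t : ℝ), Ds ((tsupport g)ᶜ ∩ Sb) a → Ds ((tsupport g)ᶜ ∩ Sb) f →
      Ds ((tsupport g)ᶜ ∩ Sb) f' → Ds Sb g → K a (f + t • f') g = K a f g + t • K a f' g :=
    fun t ha hf hf' hg =>
      Tendsto.limUnder_eq (by simpa [l] using (k ha hf hg).add ((k ha hf' hg).const_mul (t : ℂ)))
  have n2 : ∀ {O f}, Ds O f → Ds Sb f → Ds (O ∩ Sb) f := fun h h' =>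
    h.self.mono (subset_inter h.2.2 h'.2.2)
  have ks : ∀ a f g, K a f g = K f a g := fun a f g => by simp only [K, s1 _ a]
  have a3 : ∀ {a f g}, Ds (tsupport f ∪ tsupport g)ᶜ a → Ds univ f → Ds (tsupport f)ᶜ g →
      Adm ![a, f, g] := fun {a f g} ha hf hg => by
    have := ha.2.2
    rw [compl_union, subset_inter_iff, subset_compl_iff_disjoint_right,
      subset_compl_iff_disjoint_right] at this
    have := subset_compl_iff_disjoint_right.1 hg.2.2
    refine adm_c1 (K := ![tsupport a, tsupport f, tsupport g]) (fun i j e => ?_) fun i => ?_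
    · fin_cases i <;> fin_cases j <;> simp_all [disjoint_comm]
    · fin_cases i
      exacts [dc ha.self, dc hf.self, dc hg.self]
  refine ⟨K, fun a b e f g a1 b1 hf g1 hg ha hb he => Tendsto.limUnder_eq ?_,
    fun ξ η v f g r1 r2 hv h1 hη hf hξ x1 g1 hg => ?_, fun ξ f g hξ h0 hf hg => ?_⟩
  · have := ((k (n2 ha a1) (n2 (hf.self.mono (subset_compl_comm.1 hg.2.2)) hf) g1).add
      (k (n2 hb b1) (n2 hg g1) hf)).add (cv _ (a3 he hf.univ hg))
    refine this.congr fun p => ?_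
    rw [← one_smul ℝ e, l0, ← one_smul ℝ b, l0, s2 p b, one_smul, one_smul]
    simp
  · have b := subset_inter (subset_compl_comm.1 hg.2.2) x1.2.2
    have hU : tsupport ξ ∈ 𝓝ˢ (tsupport f) :=
      mem_of_superset hξ.2 fun y hy => subset_tsupport _ (by simp [show ξ y = 1 from hy])
    obtain ⟨C, hC⟩ := kc g1 hξ.1.2.1 b
    replace hC := fun a f M M' h1 h2 h3 h4 => (hC a f M M' h1 h2 h3 h4).2
    obtain ⟨M, hM⟩ := lp hξ.1
    obtain ⟨Λ, hΛ⟩ := rep (L := (K ξ · g)) (C := C * M) (fun f f' t hf hf' =>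
      kl t (hξ.1.self.mono b) (hf.mono b) (hf'.mono b) g1) fun f M' => (hC _ _ _ _ hξ.1.self · hM)
    refine (hΛ.mol hξ.1.2.1 hf hv h1 hU).congr_dist (Metric.tendsto_nhds.2 fun ε ε0 => ?_)
    have ad : Adm ![f] := Ope.adm_one.2 ⟨hf.2.1, (dc hf).2.1⟩
    filter_upwards [H.nr η v f g hη.1 hv r1 r2 ad (hf.self.mono (hξ.sub.trans x1.2.2)) g1
      (hg.mono (compl_subset_compl.2 hξ.sub)) _
      (half_pos ε0), small hf.2.1 hη.1.2.1
      (isOpen_interior.mem_nhdsSet.2 (subset_interior_iff_mem_nhdsSet.2 hξ.2)),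
      self_mem_nhdsWithin] with s n m (s0 : 0 < s)
    have q := fun z hz => pt0 hv hη hξ.1 s0 (m z hz)
    have q0 := fun z hz => (ds_bz s0 z hv).self.mono (q z hz).2.2.1.sub
    have q1 := fun z hz => (q z hz).2.1.mono b
    have q2 := fun z hz => (q0 z hz).mono b
    have i : Integrable fun z => f z * K ξ (bz s z v) g := by
      obtain ⟨Γ, -, c2, e, -⟩ := hΛ.cv hξ.1.2.1 hf (ds_sc hv s0).univ fun z hz y hy =>
        subset_tsupport ξ (by simp [in1 (m z hz y (hη.sub ((ds_sc hv.self s0).2.2 hy)))])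
      simp only [← e]
      exact Λ.integrable_comp c2
    have gc : ContinuousOn (fun z => K (bz s z η) (bz s z v) g) (tsupport f) := fun z hz => by
      obtain ⟨M, hM⟩ := lp (q1 z hz)
      obtain ⟨M', hM'⟩ := lp (ds_sc hv s0)
      refine Metric.tendsto_nhds.2 fun δ δ0 => ?_
      obtain ⟨t, t0, d⟩ := exists_pos_mul_lt δ0 (C * 4 * M' + C * M * 4)
      lift t to ℝ≥0 using t0.le
      filter_upwards [self_mem_nhdsWithin, nhdsWithin_le_nhds (lip_tr (ds_sc hη.1 s0).univ z t0),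
        nhdsWithin_le_nhds (lip_tr (ds_sc hv s0).univ z t0)] with w hw e1 e2
      have sb : ∀ {a a'}, Ds (tsupport ξ) a → Ds (tsupport ξ) a' → Ds (tsupport ξ) (a - a') :=
        fun h h' => (S3.Id _).sub_mem (a := ⟨_, h.1⟩) (b := ⟨_, h'.1⟩) h h'
      have e3 := kl (-1) (q2 w hw) (q1 w hw) (q1 z hz) g1
      have e4 := kl (-1) (q1 z hz) (q2 w hw) (q2 z hz) g1
      simp only [neg_one_smul, ← sub_eq_add_neg, ks (bz s w v)] at e3 e4
      rw [dist_eq_norm, ← sub_add_sub_cancel _ (K (bz s z η) (bz s w v) g), ← e3, ← e4]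
      refine (norm_add_le_of_le (hC _ _ _ _ (sb (q w hw).2.1 (q z hz).2.1) (q0 w hw) e1
        (hM'.comp (IsometryEquiv.subRight w).isometry.lipschitz)) (hC _ _ _ _ (q z hz).2.1
          (sb (q0 w hw) (q0 z hz)) hM e2)).trans_lt (d.trans_eq' ?_)
      push_cast
      ring
    have fc := hf.1.continuous
    have ct : Continuous fun z => f z * K (bz s z η) (bz s z v) g :=
      continuousOn_univ.1 ((((Complex.continuous_ofReal.comp fc).continuousOn.mul
        gc).union_of_isClosed ((continuousOn_const (c := 0)).congr (s := {y | f y = 0})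
          fun y hy => by simp [show f y = 0 from hy]) (isClosed_tsupport _)
          (isClosed_eq fc continuous_const)).mono fun y _ =>
            or_iff_not_imp_right.2 (subset_tsupport _ ·))
    have cs : HasCompactSupport fun z => f z * K (bz s z η) (bz s z v) g :=
      hf.2.1.mono fun z => mt fun e : f z = 0 => by simp [e]
    have j := ct.integrable_of_hasCompactSupport (μ := volume) cs
    have nb : ‖∫ z, f z * K (bz s z η) (bz s z v) g‖ ≤ ε / 2 * s ^ 4 := by
      refine le_of_tendsto ((St.riem ct cs).comp ((tendsto_inv_atTop_nhdsGT_zero.comp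
        (tendsto_pow_atTop_atTop_of_one_lt (by norm_num : (1 : ℝ) < 3))))).norm
        (n.mono fun e n => ?_)
      have z := fun x hx => subset_tsupport f (((Ope.fin_gp ad e).mem_toFinset (a := x)).1 hx)
      refine (congrArg norm ?_).trans_le (le_of_tendsto (tendsto_finsetSum _ fun x hx =>
        (k (q1 _ (z x hx)) (q2 _ (z x hx)) g1).const_mul
          (((3 ^ e)⁻¹ ^ 4 * f (Ope.gp e x) : ℝ) : ℂ)).norm (n.mono fun p n => by exact_mod_cast n))
      simp only [Complex.ofReal_mul, mul_assoc]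
      rw [← Finset.mul_sum, ← tsum_eq_sum (L := .unconditional _) fun x hx => by
        simp [not_not.1 fun e => hx ((Finite.mem_toFinset _).2 e)], Complex.ofReal_pow]
      rfl
    have e : ∀ z, f z * E ![ξ - bz s z η, bz s z v, g] =
        f z * K ξ (bz s z v) g - f z * K (bz s z η) (bz s z v) g := fun z => by
      by_cases hz : z ∈ tsupport f; swap
      · simp [c1z (dc hf.self) hz]
      rw [← mul_sub]
      refine congrArg _ (tendsto_nhds_unique (cv _ (a3 ((q z hz).2.2.2.mono fun y hy e =>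
        e.elim hy.2 (b hy.1).1) (q2 z hz).univ (hg.mono (compl_subset_compl.2 (q0 z hz).2.2))))
        (((k (hξ.1.self.mono b) (q2 z hz) g1).sub
          (k (q1 z hz) (q2 z hz) g1)).congr fun p => ?_))
      rw [sub_eq_add_neg ξ, ← neg_one_smul ℝ (bz s z η), l0]
      simp [sub_eq_add_neg]
    rw [dist_zero_right, Real.norm_of_nonneg dist_nonneg, dist_eq_norm, nn, funext e,
      integral_sub i j, ← sub_div, sub_sub_cancel, norm_div, norm_pow,
      Complex.norm_real, Real.norm_of_nonneg s0.le, div_lt_iff₀ (by positivity)]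
    exact nb.trans_lt (mul_lt_mul_of_pos_right (half_lt_self ε0) (by positivity))
  · refine Metric.nhds_basis_closedBall.tendsto_right_iff.2 fun δ δ0 => ?_
    filter_upwards [H.mn ξ f g hξ h0 hf hg δ δ0, Ioo_mem_nhdsGT one_pos] with t e ht
    have n : (log t⁻¹ : ℂ) ^ 3 ≠ 0 := pow_ne_zero _ (by
      exact_mod_cast (log_pos ((one_lt_inv₀ ht.1).2 ht.2)).ne')
    obtain ⟨e1, e2⟩ := lb U (u := fun p => (log t⁻¹ : ℂ) ^ 3 * c p ![ξ, sc t f, sc t g])
      (w := (2 / q0 * kap ![f, g] : ℝ)) (r := δ) (e.mono fun p e => by exact_mod_cast e)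
    have := e1.const_mul ((log t⁻¹ : ℂ) ^ 3)⁻¹
    simp only [inv_mul_cancel_left₀ n] at this
    rwa [mem_closedBall_iff_norm, show K ξ _ _ = _ from this.limUnder_eq, mul_inv_cancel_left₀ n]

theorem Tri.ov [MeasurableSpace SU2] [BorelSpace SU2] {h : Measure SU2} [h.IsHaarMeasure]
    [IsProbabilityMeasure h]
    {ι : Type} {U : Ultrafilter ι} {n : ι → ℕ+} {a b : ι → ℝ} {E : (Fin 3 → R4 → ℝ) → ℂ}
    (H : Tri U fun p => corr h (b p) (n p) (a p)) (cv : ∀ f, Adm f →
      Tendsto (fun p => (corr h (b p) (n p) (a p) f : ℂ)) U (𝓝 (E f))) : ∃ K, Ov E K := by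
  refine H.ov' (fun p u f f' g t => ?_) (fun p u f g => ?_) (fun p u f g => ?_) cv
  · let M := (gM h (b p) 3).compLinearMap fun _ => (LinearMap.pi fun x => LinearMap.pi fun _ =>
      LinearMap.pi fun _ => .proj (WithLp.toLp 2 fun l => a p * (x l).valMinAbs) :
        (R4 → ℝ) →ₗ[ℝ] Src (n p))
    have e : ∀ f, corr h (b p) (n p) (a p) ![u, f, g] = M (update ![u, 0, g] 1 f) := fun f => by
      rw [corr_eq, ← gM_apply, show update ![u, 0, g] 1 f = ![u, f, g] from
        funext fun i => by fin_cases i <;> rfl]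
      rfl
    simp only [e, M.map_update_add, M.map_update_smul, smul_eq_mul]
  all_goals simp only [corr, Fin.prod_univ_three, cons_val_zero, cons_val_one, cons_val,
    mul_assoc, mul_comm, mul_left_comm]

end Pool.Agent.Lib.MP_7f377f_mp.An
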