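import Pool.Agent.Lib.MP_7f377f_mp.G.ZfE

/-! The normalisation of the free stress tensor. -/

noncomputable section

namespace Pool.Agent.Lib.MP_7f377f_mp.Zf

open MvPolynomial Filter Topology Matrix MeasureTheory Function Real
open YZ (R4)
open scoped ContDiff

theorem In_out {g g' : Sm} (h : Out g 0 1) (h' : Out g' 0 1) :
    In (op sq4 g) = In (op sq4 g') := by
  have c : g - g' ∈ Cs := HasCompactSupport.intro (isCompact_closedBall 0 1) fun z hz => by
    have : 1 < ‖z - 0‖ := by simpa using hz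
    rw [ev_eq, map_sub, h.2 z this, h'.2 z this, sub_self]
  rw [← sub_eq_zero, ← map_sub, ← map_sub]
  simp only [sq4, map_sum, LinearMap.sum_apply, op_mul, op_X]
  exact Finset.sum_eq_zero fun μ _ => In_dd (dd_Cs c μ) μ

theorem ex_g1 : ∃ g : Sm, Out g 0 1 ∧ In (op sq4 g) = -1 := by
  set c := (4 * π ^ 2)⁻¹ with hc
  have c0 : 0 < c := by positivity
  set ψ := fun u : ℝ => smoothTransition (2 * u - 1)
  have hψ : ContDiff ℝ ∞ ψ := smoothTransition.contDiff.comp (by fun_prop)
  set φ := fun u : ℝ => c * ψ u / u ^ 2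
  have hφ : ContDiff ℝ ∞ φ := contDiff_iff_contDiffAt.2 fun u => by
    by_cases h : u = 0
    · refine (contDiffAt_const (c := 0)).congr_of_eventuallyEq
        ((eventually_lt_nhds (show u < 1 / 2 by norm_num [h])).mono fun v a => ?_)
      simp [φ, ψ, smoothTransition.zero_of_nonpos (show 2 * v - 1 ≤ 0 by linarith)]
    · exact (contDiffAt_const.mul hψ.contDiffAt).div (by fun_prop) (pow_ne_zero _ h)
  set γ := fun s : ℝ => c - ∫ u in (1 : ℝ)..s, φ u
  have dγ (s) : HasDerivAt γ (-φ s) s :=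
    (hφ.continuous.integral_hasStrictDerivAt 1 s).hasDerivAt.const_sub c
  have hγ : ContDiff ℝ ∞ γ := contDiff_infty_iff_deriv.2 ⟨fun s => (dγ s).differentiableAt, by
    rw [show deriv γ = fun s => -φ s from funext fun s => (dγ s).deriv]; exact hφ.neg⟩
  let N : (ℝ → ℝ) → R4 → ℝ := fun f v => f (‖v‖ ^ 2)
  have hN {f} (h : ContDiff ℝ ∞ f) : ContDiff ℝ ∞ (N f) := h.comp (contDiff_norm_sq ℝ)
  have dN {f} (h : ContDiff ℝ ∞ f) (μ) : dd μ ⟨N f, hN h⟩ =
      (2 : ℝ) • (xx μ * ⟨N (deriv f), hN (contDiff_infty_iff_deriv.1 h).2⟩) :=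
    Subtype.ext (funext fun v => by
      have := ((h.differentiable (by simp) (‖v‖ ^ 2)).hasDerivAt.comp_hasFDerivAt v
        (hasStrictFDerivAt_norm_sq v).hasFDerivAt).fderiv
      change pd μ _ v = 2 * (v μ * deriv f (‖v‖ ^ 2))
      rw [pd_eq]
      refine (congrArg (· (ee μ)) this).trans ?_
      simp [ee, EuclideanSpace.inner_single_right]
      ring)
  have o : Out ⟨N γ, hN hγ⟩ 0 1 := ⟨zero_le_one, fun z hz => by
    rw [sub_zero] at hz ⊢
    have h1 : 1 < ‖z‖ ^ 2 := by nlinarith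
    change c - _ = _
    rw [intervalIntegral.integral_eq_sub_of_hasDerivAt (f := fun u => -(c * u⁻¹))
      (fun u hu => ?_) (hφ.continuous.intervalIntegrable _ _)]
    · simp [G0, hc, mul_comm]
    · rw [Set.uIcc_of_le h1.le] at hu
      refine ((hasDerivAt_inv (by linarith [hu.1])).const_mul c).neg.congr_deriv ?_
      simp [φ, ψ, smoothTransition.one_of_one_le (show 1 ≤ 2 * u - 1 by linarith [hu.1]),
        div_eq_mul_inv]⟩
  refine ⟨_, o, ?_⟩
  have val (v : R4) : (-op sq4 ⟨N γ, hN hγ⟩).1 v = 4 * c * deriv ψ (‖v‖ ^ 2) / ‖v‖ ^ 2 := by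
    have e : deriv γ = fun s => -φ s := funext fun s => (dγ s).deriv
    simp only [sq4, map_sum, LinearMap.sum_apply, op_mul, op_X, dN hγ,
      Derivation.leibniz, dN (contDiff_infty_iff_deriv.1 hγ).2, dd_xx, if_true, ev_eq, map_neg,
      map_smul, map_add, smul_eq_mul, map_mul (ev v), map_one]
    change -∑ μ, 2 * (v μ * (2 * (v μ * deriv (deriv γ) (‖v‖ ^ 2))) + deriv γ (‖v‖ ^ 2) * 1) = _
    have : ∑ μ, 2 * (v μ * (2 * (v μ * deriv (deriv γ) (‖v‖ ^ 2))) + deriv γ (‖v‖ ^ 2) * 1) =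
        4 * ‖v‖ ^ 2 * deriv (deriv γ) (‖v‖ ^ 2) + 8 * deriv γ (‖v‖ ^ 2) := by
      generalize deriv (deriv γ) _ = a, deriv γ _ = b
      rw [nsq, Fin.sum_univ_four, Fin.sum_univ_four]
      ring
    rw [this, e]
    generalize ‖v‖ ^ 2 = s
    by_cases h : s = 0
    · simp [h, φ]
    · rw [((((hψ.differentiable (by simp) s).hasDerivAt.const_mul c).fun_div
        (hasDerivAt_pow 2 s) (pow_ne_zero _ h)).fun_neg).deriv]
      simp only [φ]
      field_simp
      ring
  have d (y : ℝ) : HasDerivAt (fun y : ℝ => ψ (y ^ 2)) (deriv ψ (y ^ 2) * (2 * y)) y := by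
    have := (hψ.differentiable (by simp) (y ^ 2)).hasDerivAt.comp y (hasDerivAt_pow 2 y)
    exact this.congr_deriv (by simp)
  have i : ∫ y in Set.Ioi (0 : ℝ), deriv ψ (y ^ 2) * (2 * y) = 1 - ψ (0 ^ 2) :=
    integral_Ioi_of_hasDerivAt_of_nonneg' (fun y _ => d y) (fun y (e : 0 < y) => mul_nonneg
      (Monotone.deriv_nonneg fun a b h => smoothTransition.monotone (by linarith)) (by positivity))
      (tendsto_const_nhds.congr' ((eventually_ge_atTop 1).mono fun y e =>
        (smoothTransition.one_of_one_le (by nlinarith)).symm))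
  have z : ψ (0 ^ 2) = 0 := smoothTransition.zero_of_nonpos (by norm_num)
  have v : (volume : Measure R4).real (Metric.ball 0 1) = π ^ 2 / 2 := by
    rw [Measure.real, InnerProductSpace.volume_ball_of_dim_even (k := 2) (by simp)]
    simp [ENNReal.toReal_ofReal (show 0 ≤ π ^ 2 / 2 by positivity)]
  rw [← neg_eq_iff_eq_neg, ← map_neg, In_eq (Cs.neg_mem o.cs), funext val,
    integral_fun_norm_addHaar volume fun y => 4 * c * deriv ψ (y ^ 2) / y ^ 2, v,
    setIntegral_congr_fun (g := fun y => 2 * c * (deriv ψ (y ^ 2) * (2 * y))) measurableSet_Ioi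
      fun y (e : 0 < y) => by
        simp only [finrank_euclideanSpace_fin, smul_eq_mul]
        field_simp
        ring,
    integral_const_mul, i, z, hc]
  simp
  field_simp

theorem kap_one : kap = 1 := by
  obtain ⟨g, a, b⟩ := ex_g1
  rw [kap, In_out g1_out a, b, neg_neg]

end Pool.Agent.Lib.MP_7f377f_mp.Zf
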