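import Mathlib

/-! Rotation covariance from the stress tensor: finite dimensional analysis. -/

noncomputable section

namespace Pool.Agent.Lib.MP_7f377f_mp.Sw
set_option linter.unusedSectionVars false

open Filter Topology Set Metric NormedSpace Module

section
variable {ι E G : Type} [NormedAddCommGroup E] [NormedSpace ℝ E] [FiniteDimensional ℝ E]
  [AddCommGroup G] [Module ℝ G] [TopologicalSpace G] [IsTopologicalAddGroup G] [ContinuousSMul ℝ G]
  {l : Filter ι} {L : ι → E →ₗ[ℝ] G} {L₀ : E → G}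

theorem app (h : ∀ c, Tendsto (fun t => L t c) l (𝓝 (L₀ c))) {v : ι → E} {v₀ : E}
    (hv : Tendsto v l (𝓝 v₀)) : Tendsto (fun t => L t (v t)) l (𝓝 (L₀ v₀)) := by
  let b := finBasis ℝ E
  have := (h v₀).add (tendsto_finsetSum Finset.univ fun i _ =>
    (((b.coord i).continuous_of_finiteDimensional.tendsto _).comp
      (tendsto_sub_nhds_zero_iff.2 hv)).smul (h (b i)))
  simp only [map_zero, zero_smul, Finset.sum_const_zero, add_zero] at this
  refine this.congr fun t => ?_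
  simp only [Function.comp, ← map_smul, ← map_sum, Basis.coord_apply, b.sum_repr, ← map_add,
    add_sub_cancel]

theorem sep [T2Space G] (h : ∀ c, Tendsto (fun t => L t c) l (𝓝 (L₀ c))) (h0 : ∀ c ≠ 0, L₀ c ≠ 0)
    {w : ι → E} (hw : Tendsto (fun t => L t (w t)) l (𝓝 0)) : Tendsto w l (𝓝 0) := by
  refine tendsto_iff_ultrafilter _ _ _ |>.2 fun U hU => Metric.tendsto_nhds.2 fun ε ε0 => ?_
  refine U.eventually_or.1 (.of_forall fun t => lt_or_ge (dist (w t) 0) ε) |>.elim id fun e => ?_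
  simp only [dist_zero_right] at e
  obtain ⟨⟨a, u⟩, ⟨-, m⟩, hu⟩ := ((isCompact_Icc (a := (0 : ℝ)) (b := ε⁻¹)).prod
    (isCompact_sphere (0 : E) 1)).ultrafilter_le_nhds' (U.map fun t => (‖w t‖⁻¹, ‖w t‖⁻¹ • w t))
    (e.mono fun t e => ⟨⟨by positivity, inv_anti₀ ε0 e⟩, by
      simp [norm_smul, (ε0.trans_le e).ne']⟩)
  have h1 := app (fun c => (h c).mono_left hU) ((continuous_snd.tendsto _).comp hu)
  have h2 := ((continuous_fst.tendsto _).comp hu).smul (hw.mono_left hU)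
  simp only [Function.comp_def, map_smul, smul_zero] at h1 h2
  exact (h0 u (by rintro rfl; simp at m) (tendsto_nhds_unique h1 h2)).elim

theorem sep' [T2Space G] [l.NeBot] (h : ∀ c, Tendsto (fun t => L t c) l (𝓝 (L₀ c)))
    (h0 : ∀ c ≠ 0, L₀ c ≠ 0) {w : ι → E} (hw : ∀ᶠ t in l, L t (w t) = 0) : ∃ t, w t = 0 := by
  by_contra! c
  have := (sep h h0 (w := fun t => ‖w t‖⁻¹ • w t) (tendsto_const_nhds.congr'
    (hw.mono fun t e => by simp [e]))).norm
  simp [norm_smul, c] at this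

end

section
variable {ι E F : Type} [NormedAddCommGroup E] [NormedSpace ℝ E] [FiniteDimensional ℝ E]
  [NormedAddCommGroup F] [NormedSpace ℝ F] [FiniteDimensional ℝ F] {l : Filter ι}

theorem ptw {L : ι → E →L[ℝ] F} {L₀ : E →L[ℝ] F} (h : ∀ c, Tendsto (fun t => L t c) l (𝓝 (L₀ c))) :
    Tendsto L l (𝓝 L₀) := by
  let b := finBasis ℝ E
  have := (((LinearMap.toContinuousLinearMap (𝕜 := ℝ) (E := E) (F' := F)).toLinearMap ∘ₗ
    (b.constr ℝ).toLinearMap).continuous_of_finiteDimensional.tendsto _).comp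
    (tendsto_pi_nhds.2 fun i => h (b i))
  have e : ∀ M : E →L[ℝ] F, LinearMap.toContinuousLinearMap (b.constr ℝ fun i => M (b i)) = M :=
    fun M => ContinuousLinearMap.coe_injective (b.ext fun i => by simp)
  simpa only [Function.comp_def, LinearMap.comp_apply, LinearEquiv.coe_coe, e] using this

theorem exp_semi {i : E →ₗ[ℝ] F} {a : E →L[ℝ] E} {b : F →L[ℝ] F} (h : ∀ c, i (a c) = b (i c))
    (c : E) : i (exp a c) = exp b (i c) := by
  have h1 := (exp_series_hasSum_exp' (𝕂 := ℝ) a).mapL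
    (i.toContinuousLinearMap ∘L ContinuousLinearMap.apply ℝ E c)
  have h2 := (exp_series_hasSum_exp' (𝕂 := ℝ) b).mapL (ContinuousLinearMap.apply ℝ F (i c))
  have e : ∀ n, i ((a ^ n) c) = (b ^ n) (i c) := fun n => by
    induction n with
    | zero => rfl
    | succ n ih => rw [pow_succ', pow_succ', mul_apply_eq_comp, h, ih]; rfl
  exact h1.unique (h2.congr_fun fun n => (map_smul i _ _).trans (congrArg _ (e n)))

theorem anti {u : ι → E →L[ℝ] E} {u' : ι → F →L[ℝ] F} {a : ι → E →L[ℝ] F} [l.NeBot]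
    (h : Tendsto u l (𝓝 1)) (h' : Tendsto u' l (𝓝 1)) (ha : ∀ t c, a t (u t c) = -u' t (a t c)) :
    ∃ t, a t = 0 := by
  obtain ⟨t, h1, h2⟩ := ((Metric.tendsto_nhds.1 h _ one_pos).and
    (Metric.tendsto_nhds.1 h' _ one_pos)).exists
  rw [dist_eq_norm'] at h1 h2
  have : (2 : ℝ) • a t = a t ∘L (1 - u t) + (1 - u' t) ∘L a t := by
    ext c
    simp [ha, two_smul]
  have h3 := (congrArg norm this).trans_le (norm_add_le_of_le
    (ContinuousLinearMap.opNorm_comp_le _ _) (ContinuousLinearMap.opNorm_comp_le _ _))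
  rw [norm_smul, Real.norm_two] at h3
  exact ⟨t, norm_le_zero_iff.1 (by nlinarith [norm_nonneg (a t)])⟩

theorem fix {Γ : Type} [Group Γ] (π : Γ →* E →L[ℝ] E) {M : ℝ} (hM : ∀ g, ‖π g‖ ≤ M) (v : E) :
    ∃ w ∈ closure (convexHull ℝ (range fun g => π g v)), ∀ g, π g w = w := by
  let e := toEuclidean (E := E)
  let K := closure (convexHull ℝ (range fun g => π g v))
  let n := fun w => ⨆ g, ‖e (π g w)‖ ^ 2
  have b : ∀ w, BddAbove (range fun g => ‖e (π g w)‖ ^ 2) := fun w =>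
    ⟨(‖e.toContinuousLinearMap‖ * (M * ‖w‖)) ^ 2, by
      rintro _ ⟨g, rfl⟩
      exact pow_le_pow_left₀ (norm_nonneg _) (e.toContinuousLinearMap.le_opNorm_of_le
        ((π g).le_of_opNorm_le (hM g) w)) 2⟩
  have c : IsCompact K := (isBounded_convexHull.2 (isBounded_iff_forall_norm_le.2 ⟨M * ‖v‖, by
    rintro _ ⟨g, rfl⟩
    exact (π g).le_of_opNorm_le (hM g) v⟩)).isCompact_closure
  have m : ∀ g, MapsTo (π g) K K := fun g => MapsTo.closure (fun w hw => by
    refine convexHull_mono ?_ ((π g).toLinearMap.image_convexHull _ ▸ mem_image_of_mem _ hw)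
    rintro _ ⟨_, ⟨g', rfl⟩, rfl⟩
    exact ⟨g * g', by simp⟩) (π g).continuous
  obtain ⟨w, hw, h⟩ := (LowerSemicontinuous.lowerSemicontinuousOn (f := n)
    (lowerSemicontinuous_ciSup b fun g => Continuous.lowerSemicontinuous (by fun_prop))
    K).exists_isMinOn ⟨_, subset_closure (subset_convexHull _ _ (mem_range_self 1))⟩ c
  refine ⟨w, hw, fun g => ?_⟩
  have h1 : n w ≤ n ((1 / 2 : ℝ) • w + (1 / 2 : ℝ) • π g w) :=
    h ((convex_convexHull _ _).closure hw (m g hw) (by norm_num) (by norm_num) (by norm_num))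
  let δ := ‖w - π g w‖
  let C := M * ‖e.symm.toContinuousLinearMap‖
  have h2 : ∀ g', δ ≤ C * ‖e (π g' w) - e (π g' (π g w))‖ := fun g' => by
    have := (π g'⁻¹).le_of_opNorm_le_of_le (hM _)
      (e.symm.toContinuousLinearMap.le_opNorm (e (π g' (w - π g w))))
    rwa [ContinuousLinearEquiv.coe_coe, e.symm_apply_apply, ← mul_apply_eq_comp,
      ← map_mul, inv_mul_cancel, map_one, ← mul_assoc, map_sub (π g'), map_sub e] at this
  by_contra ne
  have δ0 : 0 < δ := norm_pos_iff.2 (sub_ne_zero.2 (Ne.symm ne))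
  have C0 : 0 < C := pos_of_mul_pos_left (δ0.trans_le (h2 1)) (norm_nonneg _)
  refine (h1.trans (ciSup_le (c := n w - (δ / C) ^ 2 / 4) fun g' => ?_)).not_gt
    (sub_lt_self _ (by positivity))
  have h3 := le_ciSup (b w) g'
  have h4 := le_ciSup (b w) (g' * g)
  have h5 := pow_le_pow_left₀ (by positivity) ((div_le_iff₀' C0).2 (h2 g')) 2
  have h6 := parallelogram_law_with_norm ℝ (e (π g' w)) (e (π g' (π g w)))
  rw [map_mul, mul_apply_eq_comp] at h4
  rw [← smul_add, map_smul, map_smul, map_add, map_add, norm_smul]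
  simp only [n]
  norm_num
  nlinarith

theorem tr0 {I : Type} (B : I → LinearMap.BilinForm ℝ E) (h1 : ∀ i, LinearMap.IsSymm (B i))
    (h2 : ∀ i c, 0 ≤ B i c c) (h3 : ∀ c, (∀ i, B i c = 0) → c = 0) {M Q : E →ₗ[ℝ] E}
    (h4 : ∀ i c, B i (M c) (M c) = B i c (Q c)) (h5 : LinearMap.trace ℝ E Q = 0) : M = 0 := by
  classical
  obtain ⟨_, ⟨s, rfl⟩, hs⟩ := (wellFounded_lt (α := Submodule ℝ E)).has_min
    (range fun s : Finset I => ⨅ i ∈ s, LinearMap.ker (B i)) (range_nonempty _)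
  let b := ∑ i ∈ s, B i
  have e : ∀ c c', b c c' = ∑ i ∈ s, B i c c' := fun c c' => by simp [b, LinearMap.sum_apply]
  have b0 : ∀ c, 0 ≤ b c c := fun c => e c c ▸ Finset.sum_nonneg fun i _ => h2 i c
  have b1 : ∀ c, b c c = 0 → c = 0 := fun c hc => h3 c fun i => by
    have := (eq_of_le_of_not_lt (biInf_mono fun j hj => Finset.mem_insert_of_mem hj)
      (hs _ ⟨insert i s, rfl⟩)).ge (x := c) (by
        simp only [Submodule.mem_iInf]
        exact fun j hj => ((B j).apply_apply_same_eq_zero_iff (h2 j) (h1 j)).1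
          ((Finset.sum_eq_zero_iff_of_nonneg fun i _ => h2 i c).1 (e c c ▸ hc) j hj))
    simp only [Submodule.mem_iInf] at this
    exact this i (Finset.mem_insert_self i s)
  obtain ⟨v, hv⟩ := LinearMap.BilinForm.exists_orthogonal_basis (B := b)
    ⟨fun c c' => by simp only [e, RingHom.id_apply]; exact Finset.sum_congr rfl fun i _ => (h1 i).eq c c'⟩
  have p : ∀ i, 0 < b (v i) (v i) := fun i => (b0 _).lt_of_ne' fun e => v.ne_zero i (b1 _ e)
  have q : ∀ i, LinearMap.toMatrix v v Q i i = b (M (v i)) (M (v i)) / b (v i) (v i) := fun i => by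
    rw [eq_div_iff (p i).ne', e (M _), LinearMap.toMatrix_apply]
    simp only [h4, ← e]
    conv_rhs => rw [← v.sum_repr (Q (v i))]
    rw [map_sum, Finset.sum_eq_single i (fun j _ n => by rw [map_smul, hv n.symm, smul_zero])
      (by simp), map_smul, smul_eq_mul]
  rw [LinearMap.trace_eq_matrix_trace ℝ v, Matrix.trace] at h5
  simp only [Matrix.diag, q] at h5
  exact v.ext fun i => b1 _ ((div_eq_zero_iff.1 ((Finset.sum_eq_zero_iff_of_nonneg fun i _ =>
    div_nonneg (b0 _) (p i).le).1 h5 i (Finset.mem_univ i))).resolve_right (p i).ne')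

end

section
variable {𝔸 : Type} [NormedRing 𝔸] [NormedAlgebra ℝ 𝔸] [CompleteSpace 𝔸]

theorem exp_cont : Continuous (exp : 𝔸 → 𝔸) :=
  continuous_iff_continuousAt.2 fun a => (exp_analytic (𝕂 := ℝ) a).continuousAt

theorem exp_ad (a : 𝔸) (s t : ℝ) : exp ((s + t) • a) = exp (s • a) * exp (t • a) := by
  rw [add_smul]
  exact exp_add_of_commute_of_mem_ball (𝕂 := ℝ) (((Commute.refl a).smul_left s).smul_right t)
    ((expSeries_radius_eq_top ℝ 𝔸).symm ▸ edist_lt_top _ _)
    ((expSeries_radius_eq_top ℝ 𝔸).symm ▸ edist_lt_top _ _)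

theorem eq_exp {U : ℝ → 𝔸} {a : 𝔸} (h0 : U 0 = 1) (h1 : ∀ s t, U (s + t) = U s * U t)
    (h : HasDerivAt U a 0) (t : ℝ) : U t = exp (t • a) := by
  have d : ∀ s, HasDerivAt U (a * U s) s := fun s => by
    have := HasDerivAt.comp_sub_const s s (f := fun u => U u * U s)
      (by simpa using h.mul_const (U s))
    simpa only [← h1, sub_add_cancel] using this
  have := is_const_of_deriv_eq_zero (𝕜 := ℝ) (f := fun s => exp (s • -a) * U s)
    (fun s => ((hasDerivAt_exp_smul_const (-a) s).mul (d s)).differentiableAt)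
    (fun s => ((hasDerivAt_exp_smul_const (-a) s).mul (d s)).deriv.trans (by
      simp [mul_assoc])) t 0
  simp only [zero_smul, exp_zero, h0, mul_one] at this
  rw [smul_neg, ← neg_smul] at this
  rw [← mul_one (exp _), ← this, ← mul_assoc, ← exp_ad, add_neg_cancel, zero_smul, exp_zero, one_mul]

theorem avg [FiniteDimensional ℝ 𝔸] {Γ ι : Type} [Group Γ] {l : Filter ι} [l.NeBot] (a a' : Γ →* 𝔸)
    (A : ι → 𝔸ˣ) {C : ℝ} (hC : ∀ g, ‖a g‖ ≤ C)
    (un : ∀ ε > 0, ∀ᶠ t in l, ∀ g, ‖↑(A t)⁻¹ * a' g * A t - a g‖ ≤ ε) :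
    ∃ Y : ι → 𝔸, (∀ t g, Y t * a g = a' g * Y t) ∧ Tendsto (fun t => ↑(A t)⁻¹ * Y t) l (𝓝 1) ∧
      ∀ t K, IsClosed K → Convex ℝ K → (∀ g, a' g * A t * a g⁻¹ ∈ K) → Y t ∈ K := by
  obtain ⟨s, hs⟩ := (un 1 one_pos).exists
  have C0 := (norm_nonneg _).trans (hC 1)
  let π : Γ →* 𝔸 →L[ℝ] 𝔸 :=
    { toFun g := ContinuousLinearMap.mulLeftRight ℝ _ (a' g) (a g⁻¹)
      map_one' := by ext1; simp
      map_mul' g g' := by ext1; simp [mul_assoc] }
  choose Y m hY using fun t => fix π (M := ‖(A s).1‖ * (1 + C) * ‖(A s)⁻¹.1‖ * C) (fun g =>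
    (ContinuousLinearMap.opNorm_mulLeftRight_apply_apply_le ..).trans (mul_le_mul (by
      rw [show a' g = A s * (↑(A s)⁻¹ * a' g * A s) * ↑(A s)⁻¹ by simp [mul_assoc]]
      exact norm_mul_le_of_le (norm_mul_le_of_le le_rfl
        ((norm_le_norm_sub_add _ _).trans (add_le_add (hs g) (hC g)))) le_rfl) (hC _)
      (norm_nonneg _) (by positivity))) (A t)
  have sub : ∀ t K, IsClosed K → Convex ℝ K → (∀ g, a' g * A t * a g⁻¹ ∈ K) → Y t ∈ K :=
    fun t K h1 h2 h3 =>
      closure_minimal (convexHull_min (by rintro _ ⟨g, rfl⟩; exact h3 g) h2) h1 (m _)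
  refine ⟨Y, fun t g => ?_, Metric.nhds_basis_closedBall.tendsto_right_iff.2 fun ε ε0 => ?_, sub⟩
  · conv_lhs => rw [← hY t g]
    simp [π, mul_assoc, ← map_mul]
  filter_upwards [un (ε / (C + 1)) (by positivity)] with t ht
  refine sub t (ContinuousLinearMap.mul ℝ _ ↑(A t)⁻¹ ⁻¹' closedBall 1 ε)
    (isClosed_closedBall.preimage (ContinuousLinearMap.continuous _))
    ((convex_closedBall _ _).linear_preimage (ContinuousLinearMap.mul ℝ 𝔸 _).toLinearMap)
    fun g => mem_closedBall_iff_norm.2 ?_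
  rw [ContinuousLinearMap.mul_apply', ← mul_assoc, ← mul_assoc, ← map_one a, ← mul_inv_cancel g,
    map_mul, ← sub_mul]
  refine (norm_mul_le_of_le (ht g) (hC _)).trans ?_
  rw [div_mul_eq_mul_div, div_le_iff₀ (by positivity)]
  nlinarith

end

end Pool.Agent.Lib.MP_7f377f_mp.Sw
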