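import Pool.Agent.Lib.MP_7f377f_mp.G.SwN

/-! Rotation covariance from the stress tensor: fluxes. -/

noncomputable section

namespace Pool.Agent.Lib.MP_7f377f_mp.Sw
variable [Pool.Agent.Lib.MP_7f377f_mp.GD]
set_option linter.unusedSectionVars false

open Filter Topology Set YM7 Pur Wm Lm Wv S3 Function Matrix
open Ro (Iso rot)
open scoped ContDiff Manifold

variable {O U K : Set R4} {f ξ : R4 → ℝ} {k : ℕ} {Λ : Mat} {e : R4}

/-- the components of a Killing field -/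
def kk (Λ : Mat) (e : R4) (ν : Fin 4) : Sm := ∑ α, Λ ν α • wl.x α + e ν • 1

theorem kk_val (ν : Fin 4) (y : R4) : (kk Λ e ν).1 y = (act Λ y + e) ν := by
  simp [kk, act_apply, wl]

theorem km_eq (ν : Fin 4) (f : Sm) : km Λ e ν f = (kk Λ e ν * f).1 :=
  funext fun y => congrArg (· * f.1 y) (kk_val ν y).symm

theorem d_kk (μ ν : Fin 4) (f : Sm) :
    wl.d μ (kk Λ e ν * f) = Λ ν μ • f + kk Λ e ν * wl.d μ f := by
  have : wl.d μ 1 = 0 := by simpa using wl.mul μ 1 1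
  simp [wl.mul, kk, wl.dx, this]

theorem km_tr (μ ν : Fin 4) (f : R4 → ℝ) : km 0 (ax μ 1) ν f = if ν = μ then f else 0 := by
  funext y
  by_cases h : ν = μ <;> simp [km, act_apply, h]

theorem ds_km (h : Ds O f) (ν : Fin 4) : Ds O (km Λ e ν f) :=
  km_eq ν ⟨f, h.1⟩ ▸ (S3.Id O).mul_mem_left _ (b := ⟨f, h.1⟩) h

/-- the gradient is supported in `O` -/
def Gs (O : Set R4) (ξ : R4 → ℝ) : Prop := ∀ μ, Ds O (pd μ ξ)

theorem ds_diff (h : Ds U f) (h0 : ∀ᶠ y in 𝓝ˢ K, f y = 0) : Ds (U \ K) f :=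
  ⟨h.1, h.2.1, fun _ hy => ⟨h.2.2 hy, fun m => notMem_tsupport_iff_eventuallyEq.2
    (h0.filter_mono (nhds_le_nhdsSet m)) hy⟩⟩

theorem gs_diff (h : Ds U ξ) {a : ℝ} (h0 : ∀ᶠ y in 𝓝ˢ K, ξ y = a) : Gs (U \ K) ξ := fun μ =>
  ds_diff (h.pd μ) ((eventually_nhdsSet_iff_forall.2 fun y hy =>
    (h0.filter_mono (nhds_le_nhdsSet hy)).eventually_nhds).mono fun y hy => by
      rw [pd_eq h.1]
      simp [EventuallyEq.fderiv_eq (f := fun _ => a) hy])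

theorem zero_near (h : Disjoint (tsupport f) K) : ∀ᶠ y in 𝓝ˢ K, f y = 0 :=
  eventually_of_mem ((isClosed_tsupport f).isOpen_compl.mem_nhdsSet.2 h.subset_compl_left)
    fun _ => image_eq_zero_of_notMem_tsupport

theorem bump (hK : IsCompact K) (hU : IsOpen U) (h : K ⊆ U) :
    ∃ ξ, Ds U ξ ∧ ∀ᶠ y in 𝓝ˢ K, ξ y = 1 := by
  obtain ⟨L, l1, l2, l3⟩ := exists_compact_between hK hU h
  obtain ⟨ξ, h1, h2, -⟩ := exists_contMDiffMap_one_nhds_of_subset_interior (n := ⊤) 𝓘(ℝ, R4)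
    hK.isClosed l2
  exact ⟨ξ, (Ds.of ξ.contMDiff.contDiff l1 h2).mono l3, h1⟩

theorem One.sub (h : One ξ f) : tsupport f ⊆ tsupport ξ := fun y hy =>
  subset_tsupport ξ (by simp [h.2.self_of_nhdsSet y hy])

theorem One.gs (h : One ξ f) : Gs (tsupport ξ \ tsupport f) ξ := gs_diff h.1.self h.2

theorem exists_one (hf : Ds U f) (hU : IsOpen U) : ∃ ξ, Ds U ξ ∧ One ξ f :=
  (bump hf.2.1 hU hf.2.2).imp fun _ h => ⟨h.1, h.1.univ, h.2⟩

variable {V P : Type} [NormedAddCommGroup V] [NormedSpace ℝ V] [CommRing P] [Algebra ℂ P]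
  {Φ : Fil V} {N : Net P} {x : V → (R4 → ℝ) → P} {W : P →ₗ[ℂ] ℂ} {ρ : Iso →* V →ₗ[ℝ] V}
  {A : ℝ → V ≃ₗ[ℝ] V} {S : Cor V} {Z : P} {T : Fin 4 → Fin 4 → V} {D δ : Fin 4 → V →ₗ[ℝ] V}
  {σ : Mat → V →ₗ[ℝ] V}

theorem fl_tr (ν : Fin 4) {B : Sm →ₗ[ℝ] V →ₗ[ℝ] ℂ} (ξ : Sm) :
    ∑ μ, ∑ α, B (kk 0 (ax ν 1) α * wl.d μ ξ) (T μ α) = ∑ μ, B (wl.d μ ξ) (T μ ν) := by
  simp [kk, ite_smul, ite_mul, apply_ite B, DFunLike.ite_apply]

namespace Rg
variable (h : Rg Φ N x W ρ A S)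
include h

theorem bil (hZ : Z ∈ N.loc Oᶜ) :
    ∃ B : Sm →ₗ[ℝ] V →ₗ[ℝ] ℂ, ∀ f ∈ S3.Id O, ∀ c, B f c = W (x c f * Z) := by
  classical
  obtain ⟨B, hB⟩ := ext_lin (O := O) (V := fun f => if hf : C1 O f then h.lab hf hZ else 0)
    fun f g t hf hg => by
      have : C1 O (f + t • g) := dc ((S3.Id O).add_mem (a := ⟨f, hf.1⟩) hf
        ((S3.Id O).smul_of_tower_mem t (x := ⟨g, hg.1⟩) hg))
      simp only [dif_pos (dc hf), dif_pos (dc hg), dif_pos this]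
      exact LinearMap.ext fun c => h.lf c t (dc hf) (dc hg) hZ
  exact ⟨B, fun f hf c => by rw [hB f hf, dif_pos (dc hf)]; rfl⟩

theorem fl_mem (hξ : Gs O ξ) : fl x T Λ e ξ ∈ N.loc O :=
  Submodule.sum_mem _ fun μ _ => Submodule.sum_mem _ fun ν _ => h.mem _ (dc (ds_km (hξ μ) ν))

omit h in
theorem fl_eq {B : Sm →ₗ[ℝ] V →ₗ[ℝ] ℂ} (hB : ∀ f ∈ S3.Id O, ∀ c, B f c = W (x c f * Z)) (ξ : Sm)
    (hξ : Gs O ξ) : W (fl x T Λ e ξ * Z) = ∑ μ, ∑ ν, B (kk Λ e ν * wl.d μ ξ) (T μ ν) := by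
  simp only [fl, Finset.sum_mul, map_sum, ← d_val, km_eq, 
    hB _ ((S3.Id O).mul_mem_left _ (b := wl.d _ ξ) (hξ _))]

theorem kill (hc : Cu Φ N x W ρ T) (hΛ : Λᵀ = -Λ) (hξ : Ds O ξ) (hZ : Z ∈ N.loc Oᶜ) :
    W (fl x T Λ e ξ * Z) = 0 := by
  obtain ⟨B, hB⟩ := h.bil hZ
  lift ξ to Sm using hξ.1
  have c : ∀ ν, ∑ μ, B (wl.d μ (kk Λ e ν * ξ)) (T μ ν) = 0 := fun ν => by
    have m := (S3.Id O).mul_mem_left (kk Λ e ν) hξ
    simp only [hB _ (S3.Id.st O _ _ m)]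
    exact hc.con ν _ (Ds.univ m) Z (N.mono hZ (compl_subset_compl.2 m.2.2))
  have s : ∑ ν, ∑ μ, Λ ν μ • B ξ (T μ ν) = -∑ ν, ∑ μ, Λ ν μ • B ξ (T μ ν) := by
    conv_lhs => rw [Finset.sum_comm]
    simp only [← Finset.sum_neg_distrib, ← neg_smul]
    exact Finset.sum_congr rfl fun μ _ => Finset.sum_congr rfl fun ν _ => by
      rw [hc.sym]
      exact congrArg (· • _) (congrFun₂ hΛ μ ν)
  have := Finset.sum_eq_zero (s := Finset.univ) fun ν _ => c ν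
  simp only [d_kk, map_add, map_smul, LinearMap.add_apply, LinearMap.smul_apply,
    Finset.sum_add_distrib] at this
  rw [fl_eq hB ξ hξ.pd, Finset.sum_comm]
  linear_combination this - s / 2

theorem flx (hc : Cu Φ N x W ρ T) (hΛ : Λᵀ = -Λ) {I : Type} [Fintype I] (ξ : Sm) (ζ : I → Sm)
    (a : I → ℝ) (hζ : ∀ i, Gs O (ζ i)) (hη : ξ - ∑ i, a i • ζ i ∈ S3.Id O) (hZ : Z ∈ N.loc Oᶜ) :
    W (fl x T Λ e ξ * Z) = ∑ i, a i * W (fl x T Λ e (ζ i) * Z) := by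
  obtain ⟨B, hB⟩ := h.bil hZ
  let L : Sm →ₗ[ℝ] ℂ := ∑ μ, ∑ ν, B.flip (T μ ν) ∘ₗ LinearMap.mulLeft ℝ (kk Λ e ν) ∘ₗ wl.d μ
  have l : ∀ ξ : Sm, Gs O ξ → W (fl x T Λ e ξ * Z) = L ξ := fun ξ g => by
    simp [fl_eq hB ξ g, L]
  have := (l _ (Ds.pd hη)).symm.trans (h.kill hc hΛ hη hZ)
  rw [map_sub, sub_eq_zero] at this
  refine (l ξ fun μ => ?_).trans (this.trans (by simp [l _ (hζ _)]))
  have := add_mem (S3.Id.st O μ _ hη) (sum_mem (t := Finset.univ) fun i _ =>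
    (S3.Id O).smul_of_tower_mem (a i) (x := wl.d μ (ζ i)) (hζ i μ))
  simp only [map_sub, map_sum, map_smul, sub_add_cancel] at this
  exact this

theorem prodE (c : Fin k → V) {g : Fin k → R4 → ℝ} (hg : Adm g) (i : Fin k)
    (hO : ∀ j ≠ i, tsupport (g j) ⊆ O) : ∏ j ∈ Finset.univ.erase i, x (c j) (g j) ∈ N.loc O := by
  have := prod_mem (N := N) (U := update (fun j => tsupport (g j)) i ∅)
    (X := update (fun j => x (c j) (g j)) i 1) (O := O) (fun j => by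
      by_cases e : j = i
      · simpa [e] using N.one _
      · simpa [e] using h.mem _ (c1_adm hg j)) (fun a b e => by
      by_cases e1 : a = i <;> by_cases e2 : b = i <;> simp [e1, e2, hg.2 e]) fun j => by
      by_cases e : j = i
      · simp [e]
      · simpa [e] using hO j e
  rwa [Finset.prod_update_of_mem (Finset.mem_univ i), one_mul, ← Finset.erase_eq] at this

theorem ward (hc : Cu Φ N x W ρ T) (ho : Ops Φ N x W T D δ σ) (hΛ : Λᵀ = -Λ) (c : Fin k → V)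
    {g : Fin k → R4 → ℝ} (hg : Adm g) (hs : ∀ i, Ds univ (g i)) (hξ : Ds univ ξ) {a : Fin k → ℝ}
    (ha : ∀ i, ∀ᶠ y in 𝓝ˢ (tsupport (g i)), ξ y = a i) :
    W (fl x T Λ e ξ * ∏ i, x (c i) (g i)) = ∑ i, a i *
      W ((∑ ν, x (δ ν (c i)) (km Λ e ν (g i)) - x (σ Λ (c i)) (g i)) *
        ∏ j ∈ Finset.univ.erase i, x (c j) (g j)) := by
  choose ζ z1 z2 using fun i => exists_one (f := g i) (U := ⋂ j : {j // j ≠ i}, (tsupport (g j))ᶜ)
    ((hs i).self.mono (subset_iInter fun j => (hg.2 j.2).subset_compl_left))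
    (isOpen_iInter_of_finite fun j => (isClosed_tsupport _).isOpen_compl)
  have dj : ∀ i, ∀ j ≠ i, Disjoint (tsupport (ζ i)) (tsupport (g j)) := fun i j e =>
    subset_compl_iff_disjoint_right.1 ((z1 i).2.2.trans (iInter_subset _ (⟨j, e⟩ : {j // j ≠ i})))
  rw [h.flx (O := (⋃ i, tsupport (g i))ᶜ) hc hΛ ⟨ξ, hξ.1⟩ (fun i => ⟨ζ i, (z1 i).1⟩) a
    (fun i μ => ((z2 i).gs μ).mono fun y hy m => by
      obtain ⟨j, m⟩ := mem_iUnion.1 m
      by_cases e : j = i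
      exacts [hy.2 (e ▸ m), disjoint_left.1 (dj i j e) hy.1 m])
    (compl_eq_univ_sdiff _ ▸ ds_diff ((S3.Id univ).sub_mem hξ ((S3.Id univ).sum_mem fun i _ =>
      (S3.Id univ).smul_of_tower_mem _ (z1 i).univ)) (by
      rw [nhdsSet_iUnion, eventually_iSup]
      intro j
      filter_upwards [ha j, (z2 j).2, eventually_all.2 fun i : {i // j ≠ i} => zero_near (dj i j i.2)]
        with y h1 h2 h3
      simp [h1, h2, Finset.sum_eq_single (s := Finset.univ) (f := fun i => a i * ζ i y) j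
        fun i _ e => by rw [h3 ⟨i, e.symm⟩, mul_zero]]))
    (by simpa using gen_mem h.gen c hg (subset_iUnion fun i => tsupport (g i)))]
  refine Finset.sum_congr rfl fun i _ => congrArg _ ?_
  rw [← Finset.mul_prod_erase _ _ (Finset.mem_univ i), ← mul_assoc, ho.q Λ e _ _ _ hΛ (hs i) (z2 i)
    _ (h.prodE c hg i fun j e => (dj i j e).subset_compl_left), sub_mul, Finset.sum_mul, map_sub,
    map_sum]

end Rg

end Pool.Agent.Lib.MP_7f377f_mp.Sw
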