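import Pool.Agent.Lib.MP_7f377f_mp.G.BwC
import Pool.Agent.Lib.MP_7f377f_mp.G.SwK
import Pool.Agent.Lib.MP_7f377f_mp.G.SwA

/-! The stress tensor as a field with a label: the short distance limit. -/

noncomputable section

namespace Pool.Agent.Lib.MP_7f377f_mp.Bw
variable [Pool.Agent.Lib.MP_7f377f_mp.GD]
set_option linter.unusedSectionVars false

open Filter Topology Set YM7 Pur Wm Lm Wv S3 Sw Matrix MvPolynomial Real
open Ro (Iso rot prm)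
open Ope (Rd hn pr Ai Dt Tn ee)
open scoped ContDiff

variable {V P : Type} [NormedAddCommGroup V] [NormedSpace ℝ V] [CommRing P] [Algebra ℂ P]
  {Φ : Fil V} {N : Net P} {x : V → (R4 → ℝ) → P} {U W : P →ₗ[ℂ] ℂ} {ρ : Iso →* V →ₗ[ℝ] V}
  {A : ℝ → V ≃ₗ[ℝ] V} {S : Cor V} {ι : Pol →ₐ[ℂ] P} {φ o : V} {T T₀ : Fin 4 → Fin 4 → V}
  {H : Type} [NormedAddCommGroup H] [InnerProductSpace ℂ H] [CompleteSpace H] {r : N.Rep W 0 H}
  {h : R4 → ℝ} {M c : ℝ → ℝ} {L : Tn} {m : R4 → ℝ → V} {D δ : Fin 4 → V →ₗ[ℝ] V}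
  {σ : Mat → V →ₗ[ℝ] V} {g : Iso} {w : Equiv.Perm (Fin 4)} {ε : Fin 4 → ℝ}

/-- a function on the scale `t` -/
abbrev sl (t : ℝ) (f : R4 → ℝ) : R4 → ℝ := fun y => f (t⁻¹ • y)

section
variable {t : ℝ} {f f' ξ : R4 → ℝ} {O : Set R4}

theorem ts_sl (t0 : 0 < t) (f : R4 → ℝ) : tsupport (sl t f) = (t⁻¹ • ·) ⁻¹' tsupport f :=
  tsupport_comp_eq_preimage f (Homeomorph.smulOfNeZero t⁻¹ (inv_pos.2 t0).ne')

theorem ds_sl (t0 : 0 < t) (a : Ds O f) : Ds ((t⁻¹ • ·) ⁻¹' O) (sl t f) :=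
  ⟨a.1.comp (by fun_prop), a.2.1.comp_homeomorph (Homeomorph.smulOfNeZero t⁻¹ (inv_pos.2 t0).ne'),
    ts_sl t0 f ▸ preimage_mono a.2.2⟩

theorem ds_slc (t0 : 0 < t) (a : Ds (tsupport f)ᶜ f') : Ds (tsupport (sl t f))ᶜ (sl t f') :=
  ts_sl t0 f ▸ ds_sl t0 a

theorem one_sl (t0 : 0 < t) (a : One ξ f) : One (sl t ξ) (sl t f) :=
  ⟨ds_sl t0 a.1, ts_sl t0 f ▸ (Continuous.tendsto_nhdsSet (f := (t⁻¹ • ·)) (by fun_prop)
    (mapsTo_preimage _ _)).eventually a.2⟩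

theorem pd_sl (a : Ds O f) (t : ℝ) (μ : Fin 4) : pd μ (sl t f) = t⁻¹ • sl t (pd μ f) :=
  funext fun y => (pd_has (f := sl t f) (a.1.comp (by fun_prop)) μ y).unique (by
    have := (pd_has a.1 μ (t⁻¹ • y)).comp_of_eq 0 (hasDerivAt_const_mul t⁻¹) (mul_zero _).symm
    simpa only [Function.comp_def, smul_add, mul_smul, mul_comm, Pi.smul_apply, smul_eq_mul, sl,
      smul_comm t⁻¹] using this)

theorem ds_pdc (a : Ds O f) (b : Ds (tsupport f)ᶜ f') (μ : Fin 4) : Ds (tsupport (pd μ f))ᶜ f' :=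
  b.mono (compl_subset_compl.2 (a.self.pd μ).2.2)

theorem adm2 (a : Ds O f) (b : Ds (tsupport f)ᶜ f') : Adm ![f, f'] :=
  Ope.adm_two.2 ⟨⟨a.2.1, a.c1.2.1⟩, ⟨b.2.1, b.c1.2.1⟩, disjoint_compl_right.mono_right b.2.2⟩

theorem bdd0 {s : ℝ → ℝ} {z : ℝ → ℂ} {l : Filter ℝ} (hs : ∀ t, |s t| ≤ 1) (hz : Tendsto z l (𝓝 0)) :
    Tendsto (fun t => -(s t * z t)) l (𝓝 0) :=
  squeeze_zero_norm (fun t => by
    rw [norm_neg, norm_mul, Complex.norm_real]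
    exact mul_le_of_le_one_left (norm_nonneg _) (hs t)) (norm_zero (E := ℂ) ▸ hz.norm)

end

section
variable (R : Rg Φ N x W ρ A S)
include R

/-- the short distance limit with moving labels -/
theorem afm {k d : ℕ} {c : ℝ → Fin k → V} {c₀ : Fin k → V} (hc : ∀ t i, c t i ∈ Φ.F d)
    (h0 : ∀ i, Tendsto (fun t => c t i) (𝓝[>] 0) (𝓝 (c₀ i))) {f : Fin k → R4 → ℝ} (hf : Adm f) :
    Tendsto (fun t => W (∏ i, x (A t (c t i)) (sl t (f i)))) (𝓝[>] 0) (𝓝 (S k c₀ f)) := by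
  have := Φ.fin d
  let b := Module.finBasis ℝ (Φ.F d)
  have k1 : ∀ {a : ℝ → Fin k → Φ.F d} {a₀ : Fin k → Φ.F d},
      (∀ i, Tendsto (fun t => a t i) (𝓝[>] 0) (𝓝 (a₀ i))) →
      Tendsto (fun t => W (∏ i, x (A t (a t i)) (sl t (f i)))) (𝓝[>] 0)
        (𝓝 (∑ r : Fin k → _, (∏ i, b.repr (a₀ i) (r i)) • S k (fun i => b (r i)) f)) := by
    intro a a₀ ha
    refine (tendsto_finsetSum _ fun r _ => (tendsto_finsetProd _ fun i _ =>
      ((b.coord (r i)).continuous_of_finiteDimensional.tendsto _).comp (ha i)).smul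
        (R.af k _ f hf)).congr' (eventually_mem_nhdsWithin.mono fun t t0 => ?_)
    have g := hf.smul (inv_pos.2 t0).ne'
    let m := (R.ml g.2 (c1_adm g) (N.one _)).compLinearMap fun _ =>
      (A t).toLinearMap ∘ₗ (Φ.F d).subtype
    have e : ∀ a : Fin k → Φ.F d, W (∏ i, x (A t (a i)) (sl t (f i))) = m a := fun a =>
      congrArg W (mul_one _).symm
    simp only [e]
    conv_rhs => rw [show a t = fun i => ∑ j, b.repr (a t i) j • b j from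
      funext fun i => (b.sum_repr _).symm]
    simp only [MultilinearMap.map_sum, MultilinearMap.map_smul_univ]
    rfl
  have m : ∀ i, c₀ i ∈ Φ.F d := fun i =>
    (Φ.F d).closed_of_finiteDimensional.mem_of_tendsto (h0 i) (.of_forall fun t => hc t i)
  rw [tendsto_nhds_unique (R.af k c₀ f hf)
    (k1 (a := fun _ i => ⟨c₀ i, m i⟩) fun _ => tendsto_const_nhds)]
  exact k1 (a := fun t i => ⟨c t i, hc t i⟩) fun i => tendsto_subtype_rng.2 (h0 i)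

theorem af1 (c : V) {f : R4 → ℝ} (hf : Ds univ f) :
    Tendsto (fun t => W (x (A t c) (sl t f) * 1)) (𝓝[>] 0) (𝓝 (S 1 ![c] ![f])) := by
  simpa using R.af 1 ![c] _ (Ope.adm_one.2 ⟨hf.2.1, hf.c1.2.1⟩)

theorem af2 (c c' : V) {f f' : R4 → ℝ} (hf : Ds univ f) (hf' : Ds (tsupport f)ᶜ f') :
    Tendsto (fun t => W (x (A t c) (sl t f) * x (A t c') (sl t f'))) (𝓝[>] 0)
      (𝓝 (S 2 ![c, c'] ![f, f'])) := by
  simpa using R.af 2 ![c, c'] _ (adm2 hf hf')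

theorem sepm (F : Fb Φ ρ S T₀) (ν : Fin 4) {w : ℝ → V} (hw : ∀ t, w t ∈ Φ.F 4)
    (h1 : ∀ f, Ds univ f → Tendsto (fun t => W (x (A t (w t)) (sl t f) * 1)) (𝓝[>] 0) (𝓝 0))
    (h2 : ∀ c' f f', Ds univ f → Ds (tsupport f)ᶜ f' → Tendsto (fun t =>
      W (x (A t (w t)) (sl t (pd ν f)) * x (A t c') (sl t f'))) (𝓝[>] 0) (𝓝 0)) :
    Tendsto w (𝓝[>] 0) (𝓝 0) := by
  have := Φ.fin 4
  let I := {p : V × (R4 → ℝ) × (R4 → ℝ) // Ds univ p.2.1 ∧ Ds (tsupport p.2.1)ᶜ p.2.2}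
  have : ∀ t : ℝ, ∃ L : Φ.F 4 →ₗ[ℝ] I → ℂ × ℂ, 0 < t → ∀ a p, L a p =
      (W (x (A t a) (sl t p.1.2.1) * 1),
        W (x (A t a) (sl t (pd ν p.1.2.1)) * x (A t p.1.1) (sl t p.1.2.2))) := fun t => by
    by_cases t0 : 0 < t
    · exact ⟨(LinearMap.pi fun p : I => (R.lab (ds_sl t0 p.2.1).c1 (N.one _)).prod
        (R.lab (ds_sl t0 (p.2.1.pd ν)).self.c1 (R.memd _ (ds_slc t0 (ds_pdc p.2.1 p.2.2 ν))))) ∘ₗ
          (A t).toLinearMap ∘ₗ (Φ.F 4).subtype, fun _ _ _ => rfl⟩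
    · exact ⟨0, fun e => (t0 e).elim⟩
  choose L hL using this
  refine (continuous_subtype_val.tendsto _).comp (sep (L := L) (w := fun t => ⟨w t, hw t⟩)
    (L₀ := fun a p => (S 1 ![a] ![p.1.2.1], S 2 ![a, p.1.1] ![pd ν p.1.2.1, p.1.2.2]))
    (fun a => tendsto_pi_nhds.2 fun p => ((af1 R _ p.2.1).prodMk_nhds (af2 R _ _ (p.2.1.pd ν)
      (ds_pdc p.2.1 p.2.2 ν))).congr' (eventually_mem_nhdsWithin.mono fun t t0 => (hL t t0 _ _).symm))
    (fun a a0 e => a0 (Subtype.ext (F.fc ν a a.2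
      (fun f hf => congrArg Prod.fst (congrFun e ⟨(0, f, 0), hf, contDiff_const, .zero, by simp⟩))
      fun c' f f' hf hf' => congrArg Prod.snd (congrFun e ⟨(c', f, f'), hf, hf'⟩))))
    (tendsto_pi_nhds.2 fun p => ((h1 _ p.2.1).prodMk_nhds (h2 _ _ _ p.2.1 p.2.2)).congr'
      (eventually_mem_nhdsWithin.mono fun t t0 => (hL t t0 _ _).symm)))

theorem aft_key (hc : Cu Φ N x W ρ T) (F : Fb Φ ρ S T₀) (h0 : T ≠ 0)
    (cen : ∀ μ ν f, Ds univ f → W (x (T μ ν) f) = 0) {a : ℝ → ℝ}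
    (ha : ∀ t μ ν, μ ≠ ν → (A t).symm (T μ ν) = a t • T₀ μ ν) : (∀ᶠ t in 𝓝[>] 0, a t ≠ 0) ∧
      ∀ μ ν, Tendsto (fun t => (a t)⁻¹ • (A t).symm (T μ ν)) (𝓝[>] 0) (𝓝 (T₀ μ ν)) := by
  have k1 : ∀ s : ℝ → ℝ, (∀ t, |s t * a t| ≤ 1) → ∀ ν, Tendsto
      (fun t => s t • ((A t).symm (T ν ν) - a t • T₀ ν ν)) (𝓝[>] 0) (𝓝 0) := fun s hs ν => by
    refine sepm R F ν (fun t => Submodule.smul_mem _ _ (sub_mem ((R.up t).2 4 _ (hc.mem _ _))
      (Submodule.smul_mem _ _ (F.mem _ _)))) (fun f hf => ?_) fun c' f f' hf hf' => ?_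
    · refine (bdd0 hs (F.one ν ν f hf ▸ af1 R _ hf)).congr'
        (eventually_mem_nhdsWithin.mono fun t t0 => ?_)
      obtain ⟨ℓ, hℓ⟩ := labx R (ds_sl t0 hf) (N.one _)
      have := hℓ (T ν ν)
      rw [mul_one, cen _ _ _ (ds_sl t0 hf)] at this
      simp only [← hℓ, map_smul, map_sub, LinearEquiv.apply_symm_apply, this, Complex.real_smul]
      push_cast
      ring
    · refine (bdd0 hs (F.con ν c' f f' hf hf' ▸ tendsto_finsetSum _ fun μ _ =>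
        af2 R _ _ (hf.pd μ) (ds_pdc hf hf' μ))).congr'
        (eventually_mem_nhdsWithin.mono fun t t0 => ?_)
      have z := fun μ => R.memd (A t c') (ds_slc t0 (ds_pdc hf hf' μ))
      have e := hc.con ν _ (ds_sl t0 hf) _ (R.memd (A t c') (ds_slc t0 hf'))
      simp only [pd_sl hf, R.smulf _ _ (ds_sl t0 (hf.pd _)) (z _), ← Finset.mul_sum, mul_eq_zero,
        Complex.ofReal_eq_zero, (inv_pos.2 (show 0 < t from t0)).ne', false_or] at e
      choose ℓ hℓ using fun μ => labx R (ds_sl t0 (hf.pd μ)) (z μ)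
      simp only [← hℓ] at e ⊢
      rw [← Finset.sum_eq_single_of_mem ν (Finset.mem_univ _)
        (f := fun μ => ℓ μ (A t (s t • ((A t).symm (T μ ν) - a t • T₀ μ ν))))
        fun μ _ e => by rw [ha t μ ν e]; simp]
      simp only [map_smul, map_sub, LinearEquiv.apply_symm_apply, Complex.real_smul,
        ← Finset.mul_sum, Finset.sum_sub_distrib, e]
      push_cast
      ring
  have k2 : ∀ᶠ t in 𝓝[>] 0, a t ≠ 0 := by
    have := tendsto_finsetSum Finset.univ fun ν _ => (k1 (fun t => if a t = 0 then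
      (∑ ν, ‖(A t).symm (T ν ν)‖)⁻¹ else 0) (fun t => by split_ifs with e <;> simp [*]) ν).norm
    simp only [norm_zero, Finset.sum_const_zero] at this
    filter_upwards [this.eventually (gt_mem_nhds one_pos)] with t ht e
    simp only [e, if_true, zero_smul, sub_zero, norm_smul, norm_inv, ← Finset.mul_sum,
      Real.norm_of_nonneg (Finset.sum_nonneg fun _ _ => norm_nonneg _)] at ht
    refine ht.ne (inv_mul_cancel₀ fun q => h0 (funext fun μ => funext fun ν => ?_))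
    refine (A t).symm.map_eq_zero_iff.1 ?_
    by_cases p : μ = ν
    · exact p ▸ norm_eq_zero.1 ((Finset.sum_eq_zero_iff_of_nonneg fun _ _ => norm_nonneg _).1 q μ
        (Finset.mem_univ _))
    · rw [ha t μ ν p, e, zero_smul]
  refine ⟨k2, fun μ ν => ?_⟩
  by_cases p : μ = ν
  · subst p
    refine (zero_add (T₀ μ μ) ▸ (k1 (fun t => (a t)⁻¹) (fun t => by
      by_cases e : a t = 0 <;> simp [e]) μ).add_const _).congr' (k2.mono fun t e => ?_)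
    simp [smul_sub, e]
  · exact tendsto_const_nhds.congr' (k2.mono fun t e => by simp [ha t μ ν p, e])

end

theorem aft (R : Rg Φ N x W ρ A S) (hc : Cu Φ N x W ρ T) (q : Ops Φ N x W T D δ σ)
    (F : Fb Φ ρ S T₀) (h0 : T ≠ 0) (cen : ∀ μ ν f, Ds univ f → W (x (T μ ν) f) = 0)
    (cov : ∀ w μ ν, ρ (prm w) (T μ ν) = T (w μ) (w ν))
    (comm : ∀ t w c, A t (ρ (prm w) c) = ρ (prm w) (A t c))
    (tr : ∀ ν μ α, δ ν (T μ α) = D ν (T μ α)) (μ ν : Fin 4) :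
    Tendsto (fun t => (A t).symm (T μ ν)) (𝓝[>] 0) (𝓝 (T₀ μ ν)) := by
  have cs : ∀ {t g}, (∀ c, A t (ρ g c) = ρ g (A t c)) → ∀ c,
      ρ g ((A t).symm c) = (A t).symm (ρ g c) := fun e c => by
    rw [LinearEquiv.eq_symm_apply, e, LinearEquiv.apply_symm_apply]
  have mem : ∀ t μ ν, (A t).symm (T μ ν) ∈ Φ.F 4 := fun t μ ν => (R.up t).2 4 _ (hc.mem _ _)
  choose a ha using fun t => F.cl1 ((A t).symm (T 0 1)) (by
    refine ⟨mem t 0 1, ?_, ?_, ?_, ?_⟩ <;> rw [cs (R.comm t _), hc.refl] <;> simp [sr])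
    (by rw [cs (comm t _), cov]; rfl)
  replace ha : ∀ t μ ν, μ ≠ ν → (A t).symm (T μ ν) = a t • T₀ μ ν := fun t μ ν e => by
    obtain ⟨w, rfl, rfl⟩ : ∃ w : Equiv.Perm (Fin 4), w 0 = μ ∧ w 1 = ν :=
      ⟨Equiv.swap 0 μ * Equiv.swap 1 (Equiv.swap 0 μ ν), by revert μ ν; decide⟩
    rw [← cov, ← cs (comm t _), ha, map_smul, F.cov]
  obtain ⟨k1, k2⟩ := aft_key R hc F h0 cen ha
  obtain ⟨κ, α, n0⟩ : ∃ κ α, T₀ κ α ≠ 0 := by
    by_contra! e
    simpa using (aft_key R hc F h0 cen (a := 0) fun t μ ν p => by simp [ha t μ ν p, e]).1.exists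
  obtain ⟨c', f, f', hf, hf', s0⟩ : ∃ c' f f', Ds univ f ∧ Ds (tsupport f)ᶜ f' ∧
      S 2 ![T₀ κ α, c'] ![pd 0 f, f'] ≠ 0 := by
    by_contra! e
    exact n0 (F.fc 0 _ (F.mem _ _) (F.one _ _) e)
  obtain ⟨ξ, x1, x2⟩ := ury (isClosed_tsupport f').isOpen_compl
    (hf.self.mono (subset_compl_comm.1 hf'.2.2))
  have x3 : Ds (tsupport ξ)ᶜ f' := hf'.self.mono (subset_compl_comm.1 x1.2.2)
  obtain ⟨d, hd⟩ := Φ.ex c'
  have m4 := fun t μ ν => Φ.mono (le_max_left 4 d) ((Φ.F 4).smul_mem (a t)⁻¹ (mem t μ ν))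
  replace hd := Φ.mono (le_max_right 4 d) hd
  have t1 := tendsto_finsetSum Finset.univ fun μ _ => afm R
    (c := fun t => ![(a t)⁻¹ • (A t).symm (T μ 0), (a t)⁻¹ • (A t).symm (T κ α), c'])
    (c₀ := ![T₀ μ 0, T₀ κ α, c']) (f := ![pd μ ξ, f, f'])
    (fun t i => by fin_cases i; exacts [m4 _ _ _, m4 _ _ _, hd])
    (fun i => by fin_cases i; exacts [k2 _ _, k2 _ _, tendsto_const_nhds])
    (PN.adm_cons (x1.pd μ).2.1 (x1.pd μ).c1.2.1 (adm2 hf hf') fun i => by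
      fin_cases i
      exacts [disjoint_sdiff_left.mono_left (one_pd x2 μ).2.2,
        disjoint_compl_left.mono_left (x1.pd μ).2.2])
  have t2 := afm R (c := fun t => ![(a t)⁻¹ • (A t).symm (T κ α), c']) (c₀ := ![T₀ κ α, c'])
    (fun t i => by fin_cases i; exacts [m4 _ _ _, hd])
    (fun i => by fin_cases i; exacts [k2 _ _, tendsto_const_nhds])
    (adm2 (hf.pd 0) (ds_pdc hf hf' 0))
  rw [F.wd 0 _ _ _ _ _ hf x3 x2] at t1
  have t3 : Tendsto (fun t => (a t : ℂ)) (𝓝[>] 0) (𝓝 1) := by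
    refine (div_self s0 ▸ t2.div t1 s0).congr' ?_
    filter_upwards [k1, t1.eventually_ne s0, self_mem_nhdsWithin] with t a0 p t0
    rw [Pi.div_apply, div_eq_iff p]
    have z0 := R.memd (A t c') (ds_slc t0 x3)
    have z1 := R.memd (A t c') (ds_slc t0 hf')
    have z2 := R.memd (A t c') (ds_slc t0 (ds_pdc hf hf' 0))
    have z3 : ∀ μ c, x c (sl t f) * x (A t c') (sl t f') ∈ N.loc (tsupport (sl t (pd μ ξ)))ᶜ :=
      fun μ c => N.mono (N.mul (R.memd c (ds_sl t0 hf).self) (R.memd _ (ds_slc t0 hf').self)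
        (disjoint_compl_right.mono_right (ds_slc t0 hf').2.2)) (union_subset
          (ds_slc t0 (hf.self.mono fun y hy q => ((one_pd x2 μ).2.2 q).2 hy)).2.2
          (ds_slc t0 (ds_pdc x1 x3 μ)).2.2)
    have e := q.q 0 (ax 0 1) (T κ α) _ _ (by simp) (ds_sl t0 hf) (one_sl t0 x2) _ z0
    choose ℓ hℓ using fun μ c => labx R (ds_sl t0 (x1.univ.pd μ)) (z3 μ c)
    choose ℓ' hℓ' using fun μ c => labx R (ds_sl t0 hf) (Z := x c (sl t (pd μ ξ)) * x (A t c') (sl t f'))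
      (N.mono (N.mul (R.memd c (ds_sl t0 (x1.pd μ)).self) (R.memd _ (ds_slc t0 hf').self)
        (disjoint_compl_right.mono_right (ds_slc t0 (ds_pdc x1 x3 μ)).2.2)) (union_subset
          (ds_slc t0 ((one_pd x2 μ).mono fun y hy => hy.2)).2.2 (ds_slc t0 hf').2.2))
    obtain ⟨ℓ1, h1⟩ := labx R (ds_sl t0 hf) z1
    obtain ⟨ℓ2, h2⟩ := labx R (ds_sl t0 (hf.pd 0)) z2
    simp only [fl, km_tr, Finset.sum_mul, map_sum, mul_assoc, apply_ite (x _), ite_mul, apply_ite W,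
      R.lf0 _ z1, R.lf0 _ (z3 0 _), Finset.sum_ite_eq', Finset.mem_univ, if_true, q.σ0,
      LinearMap.zero_apply, tr, q.der _ _ _ (ds_sl t0 hf) _ z1, pd_sl hf, pd_sl x1,
      R.smulf _ _ (ds_sl t0 (hf.pd 0)) z2, R.smulf _ _ (ds_sl t0 (x1.univ.pd _)) (z3 _ _)] at e
    rw [← h1, map_zero, sub_zero, ← Finset.mul_sum, mul_right_inj'
      (Complex.ofReal_ne_zero.2 (inv_pos.2 (show 0 < t from t0)).ne')] at e
    have e3 : ∀ μ, W (x ((a t)⁻¹ • T μ 0) (sl t (pd μ ξ)) * (x ((a t)⁻¹ • T κ α) (sl t f) *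
        x (A t c') (sl t f'))) = (a t : ℂ)⁻¹ * ((a t : ℂ)⁻¹ * W (x (T μ 0) (sl t (pd μ ξ)) *
          (x (T κ α) (sl t f) * x (A t c') (sl t f')))) := fun μ => by
      rw [← hℓ, map_smul, hℓ, mul_left_comm (x _ _), ← hℓ', map_smul, hℓ', mul_left_comm (x _ _)]
      simp
    simp only [Fin.prod_univ_succ, Fin.prod_univ_zero, mul_one, cons_val_zero, cons_val_succ,
      map_smul, LinearEquiv.apply_symm_apply, e3, ← Finset.mul_sum, e]
    rw [← h2, map_smul, h2, mul_inv_cancel_left₀ (Complex.ofReal_ne_zero.2 a0)]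
    simp
  refine (one_smul ℝ (T₀ μ ν) ▸ (((Complex.continuous_re.tendsto _).comp t3).smul
    (k2 μ ν))).congr' (k1.mono fun t e => ?_)
  simp [e]

end Pool.Agent.Lib.MP_7f377f_mp.Bw
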