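import Pool.Agent.Lib.MP_7f377f_mp.G.BwL
import Pool.Agent.Lib.MP_7f377f_mp.StS

/-! The stress tensor as a field with a label: the two point function. -/

noncomputable section

namespace Pool.Agent.Lib.MP_7f377f_mp.Bw
variable [Pool.Agent.Lib.MP_7f377f_mp.GD]
set_option linter.unusedSectionVars false

open Filter Topology Set YM7 Pur Wm Lm Wv S3 Sw Matrix MvPolynomial Real
open Ro (Iso rot prm)
open Ope (Rd hn pr Ai Dt Tn ee)
open scoped ContDiff

variable {V P : Type} [NormedAddCommGroup V] [NormedSpace ℝ V] [CommRing P] [Algebra ℂ P]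
  {Φ : Fil V} {N : Net P} {x : V → (R4 → ℝ) → P} {U W : P →ₗ[ℂ] ℂ} {ρ : Iso →* V →ₗ[ℝ] V}
  {A : ℝ → V ≃ₗ[ℝ] V} {S : Cor V} {ι : Pol →ₐ[ℂ] P} {φ o : V} {T T₀ : Fin 4 → Fin 4 → V}
  {H : Type} [NormedAddCommGroup H] [InnerProductSpace ℂ H] [CompleteSpace H] {r : N.Rep W 0 H}
  {h : R4 → ℝ} {M c : ℝ → ℝ} {L : Tn} {m : R4 → ℝ → V} {D δ : Fin 4 → V →ₗ[ℝ] V}
  {σ : Mat → V →ₗ[ℝ] V} {g : Iso} {w : Equiv.Perm (Fin 4)} {ε : Fin 4 → ℝ}

theorem clo {F : ℝ → H → ℂ} {G : H → ℂ} {C : ℝ}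
    (hF : ∀ t ≥ 0, ∀ u v, ‖F t u - F t v‖ ≤ C * ‖u - v‖) (hG : Continuous G) {s : Set H}
    (h : ∀ u ∈ s, Tendsto (F · u) atTop (𝓝 (G u))) {u : H} (hu : u ∈ closure s) :
    Tendsto (F · u) atTop (𝓝 (G u)) := by
  have e : ∀ u, (fun t => F (max t 0) u) =ᶠ[atTop] (F · u) := fun u =>
    (eventually_ge_atTop 0).mono fun t ht => by simp only [max_eq_left ht]
  exact (closure_minimal (t := {u | Tendsto (fun t => F (max t 0) u) atTop (𝓝 (G u))})
    (fun u hu => (h u hu).congr' (e u).symm) ((LipschitzWith.uniformEquicontinuous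
      (fun t => F (max t 0)) C.toNNReal fun t => .of_dist_le' fun u v => by
        simpa only [dist_eq_norm] using hF _ (le_max_right _ _) u v).equicontinuous
      |>.isClosed_setOf_tendsto hG) hu).congr' (e u)

variable (a : Al Φ x U ρ A S ι φ o T r h M c L m)
include a

theorem Al.ope {n : R4} (n1 : ‖n‖ = 1) {f : R4 → ℝ} (hf : Ds univ f) {Z : P}
    (hZ : Z ∈ N.loc (tsupport f)ᶜ) (z0 : W Z = 0) : Tendsto (fun s : ℝ =>
      M s * ((∫ z, f z * W (ι (pr (hn h n) s z) * Z)) / s ^ 4) - c s * W (ι (X f) * Z))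
      (𝓝[>] 0) (𝓝 (∑ μ, ∑ ν, (n μ * n ν : ℝ) * W (x (T μ ν) f * Z))) := by
  obtain ⟨k, hk⟩ := a.tl.lim n n1
  obtain ⟨B, hB⟩ := a.sm.lg
  have e : ∀ v, W (x v f * Z) = a.bg.rW.lab hf.self.c1 hZ v := fun _ => rfl
  have t := a.bg.rW.tend (fun s => sub_mem (sub_mem ((Φ.F 4).smul_mem _ ((a.mg n n1).mem s))
    ((Φ.F 4).smul_mem _ a.bg.mφ)) ((Φ.F 4).smul_mem _ a.bg.mo)) hk hf hZ
  simp only [e, map_sub, map_smul, map_sum] at t
  simp only [← e, a.bg.unitW hf hZ, z0, mul_zero, smul_zero, sub_zero, Complex.real_smul] at t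
  have := t.add (squeeze_zero_norm' (f := fun s : ℝ => M s *
    ((∫ z, f z * W (ι (pr (hn h n) s z) * Z)) / s ^ 4 - W (x (m n s) f * Z))) (hB.mono fun s hs => ?_)
    (by simpa using ((a.mg n n1).pW f hf Z hZ).norm.const_mul B))
  · rw [add_zero] at this
    exact this.congr fun s => by rw [a.bg.phi]; ring
  · rw [norm_mul, Complex.norm_real, ← mul_assoc]
    exact mul_le_mul_of_nonneg_right (by simpa using hs) (norm_nonneg _)

theorem Al.rot2 : Tc W x T := fun R hR α β γ δ f g hf hg d => by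
  obtain ⟨Q, q1, q2⟩ := hR.iso
  have qs : ∀ y, act Rᵀ y = Q.symm y := fun y => by
    rw [eq_comm, LinearIsometryEquiv.symm_apply_eq, q2, ← act_mul, hR.mul_transpose, act_one]
  have qe : ∀ μ i, Q (ee μ) i = R i μ := fun μ i => by simp [q2, act]
  have f' := (ds_iso hf Q.symm).univ
  have g' := ds_iso hg.self Q.symm
  obtain ⟨e, e0, he⟩ := hf.2.1.isCompact.exists_thickening_subset_open
    (isClosed_tsupport g).isOpen_compl d.subset_compl_right
  set Z := ∑ κ, ∑ σ, ((R κ γ * R σ δ : ℝ) : ℂ) • x (T κ σ) fun y => g (Q.symm y) with hZ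
  have k : ∀ Y ∈ net.loc (tsupport g)ᶜ, W (ι Y * x (T γ δ) g) = W (ι (Ro.act Q Y) * Z) :=
    fun Y hY => by
      have b : Dt g Y := ⟨Ope.adm_one.2 ⟨hg.2.1, hg.c1.2.1⟩, hY⟩
      simp only [mul_comm (ι _), hZ, Finset.sum_mul, map_sum, smul_mul_assoc, map_smul,
        a.tl.rep _ _ _ hg _ hY, a.tl.rep _ _ _ g'.univ _ (b.act Q).2, a.sm.cov Q q1 g Y b γ δ, qe,
        smul_eq_mul]
  have m1 := N.mono (a.bg.rW.memd (T γ δ) hg.self) d.subset_compl_left
  have m2 : Z ∈ N.loc (tsupport fun y => f (Q.symm y))ᶜ := Submodule.sum_mem _ fun κ _ =>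
    Submodule.sum_mem _ fun σ _ => Submodule.smul_mem _ _ (N.mono (a.bg.rW.memd _ g')
      fun y b b' => disjoint_left.1 d (tsupport_comp Q.symm.continuous b') b)
  have := St.pol ⊥ (A := fun μ ν => W (x (T μ ν) f * x (T γ δ) g) - ∑ i, ∑ j,
    (R i μ * R j ν : ℝ) * W (x (T i j) (fun y => f (Q.symm y)) * Z)) (fun μ ν => by
      rw [a.tl.sym, Finset.sum_comm]
      simp only [a.tl.sym _ (_ : Fin 4), mul_comm (R _ μ)]) (fun n n1 => ?_) α β
  · simp only [cv, qs, a.tl.cen _ _ _ hf, a.tl.cen _ _ _ f', zero_mul, sub_zero,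
      sub_eq_zero.1 (Submodule.mem_bot ℂ |>.1 this), hZ, Finset.mul_sum, map_sum, mul_smul_comm,
      map_smul, smul_eq_mul, Complex.ofReal_mul, mul_assoc]
  have := tendsto_nhds_unique_of_eventuallyEq (a.ope n1 hf m1 (a.tl.cen _ _ _ hg))
    (a.ope (n := Q n) (by simpa) f' m2 (by simp [hZ, a.tl.cen _ _ _ g'.univ])) (by
      filter_upwards [Ioo_mem_nhdsGT (half_pos e0)] with s hs
      rw [k _ (ns_le (X_ns (hf.self.mono d.subset_compl_right))), Ro.act_X,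
        ← Q.measurePreserving.integral_comp Q.toHomeomorph.measurableEmbedding
          fun z => (f (Q.symm z) : ℂ) * _]
      congr 4
      funext z
      by_cases hz : z ∈ tsupport f
      · rw [k _ (net.mono ((a.sm.rd.pb n1).mem hs.1 z) (((Metric.ball_subset_ball
          (by linarith [hs.2])).trans (Metric.ball_subset_thickening hz e)).trans he)),
          Ope.pr_act, a.sm.rd.act, Q.symm_apply_apply]
      · simp [image_eq_zero_of_notMem_tsupport hz])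
  simp only [Submodule.mem_bot, smul_eq_mul, mul_sub, Finset.sum_sub_distrib, this, q2, act,
    mulVec, dotProduct, Finset.sum_mul_sum, Complex.ofReal_sum, sub_eq_zero, Finset.sum_mul]
  simp only [Finset.mul_sum, Complex.ofReal_sum, Finset.sum_mul]
  refine Finset.sum_comm_cycle.trans (Finset.sum_congr rfl fun _ _ => Finset.sum_comm_cycle.trans
    (Finset.sum_congr rfl fun _ _ => Finset.sum_congr rfl fun _ _ => Finset.sum_congr rfl
      fun _ _ => ?_))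
  push_cast
  ring

theorem Al.clu : ∀ μ ν f, Ds (Hs 0 0) f → Tendsto
    (fun t => cv W (N.Θ 0 (x (T μ ν) f)) (N.τ (ax 0 t) (x (T μ ν) f))) atTop (𝓝 0) := by
  intro μ ν f hf
  have m := a.bg.rW.memd (T μ ν) hf
  have p : ∀ {t : ℝ}, 0 ≤ t → 0 ≤ ax 0 t 0 := fun ht => by simpa using ht
  have i1 : inner ℂ (r.Ψ 1) (r.Ψ (x (T μ ν) f)) = 0 := by
    rw [r.inn (N.one _) m, map_one, one_mul, a.tl.cen _ _ _ hf.univ]
  have k := a.bg.mem_one (a.tl.kk μ ν) hf
  refine .congr' (f₁ := fun t => inner ℂ (r.Ψ (x (T μ ν) f)) (r.T (ax 0 t) (r.Ψ (x (T μ ν) f))))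
    ((eventually_ge_atTop 0).mono fun t ht => by
      simp only [cv, r.act (p ht) m, r.inn m (Net.τ_hs m ((p ht).trans_eq (zero_add _).symm)),
        a.bg.rW.st.ti _ (Net.adm m), a.tl.cen _ _ _ hf.univ, mul_zero, sub_zero]) ?_
  generalize r.Ψ (x (T μ ν) f) = v at *
  have n : ∀ t ≥ 0, ∀ u w, ‖inner ℂ u (r.T (ax 0 t) w)‖ ≤ ‖u‖ * ‖w‖ := fun t ht u w =>
    (norm_inner_le_norm _ _).trans (mul_le_mul_of_nonneg_left
      (((r.T _).le_of_opNorm_le (r.nrm (p ht)) w).trans_eq (one_mul _)) (norm_nonneg _))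
  refine clo (F := fun t u => inner ℂ u (r.T (ax 0 t) v)) (C := ‖v‖) (fun t ht u w => by
    rw [← inner_sub_left, mul_comm]; exact n t ht _ _) continuous_const ?_ k
  rintro _ ⟨Y, hY, rfl⟩
  have := clo (F := fun t u => inner ℂ (r.Ψ (ι Y)) (r.T (ax 0 t) u)) (C := ‖r.Ψ (ι Y)‖)
    (G := fun u => W (ι (net.Θ 0 Y)) * inner ℂ (r.Ψ 1) u) (fun t ht u w => by
      rw [← inner_sub_right, ← map_sub]; exact n t ht _ _) (by fun_prop) ?_ k
  · rwa [i1, mul_zero] at this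
  rintro _ ⟨Z, hZ, rfl⟩
  have y := a.bg.emb.mem (ns_le hY)
  have z := a.bg.emb.mem (ns_le hZ)
  have := a.sm.clu _ (Net.Θ_adm 0 (ns_le hY)) _ (Net.adm (ns_le hZ))
  rw [show inner ℂ (r.Ψ 1) ((r.Ψ ∘ₗ ι.toLinearMap) Z) = W (ι Z) from
    (r.inn (N.one _) z).trans (by rw [map_one, one_mul])]
  refine this.congr' ((eventually_ge_atTop 0).mono fun t ht => ?_)
  simp [r.act (p ht) z, r.inn y (Net.τ_hs z ((p ht).trans_eq (zero_add _).symm)), a.bg.emb.τ,
    a.bg.emb.Θ]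

theorem Al.cur (hc : Cu Φ N x W ρ T) : Cur N W fun μ ν => x (T μ ν) := a.bg.rW.cur hc a.rot2 a.clu

end Pool.Agent.Lib.MP_7f377f_mp.Bw
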