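import Pool.Agent.Lib.MP_7f377f_mp.G.BwP
import Pool.Agent.Lib.MP_7f377f_mp.G.BwR

/-! The stress tensor as a field with a label: the Ward identity for the tensor. -/

noncomputable section

namespace Pool.Agent.Lib.MP_7f377f_mp.Bw
variable [Pool.Agent.Lib.MP_7f377f_mp.GD]
set_option linter.unusedSectionVars false

open Filter Topology Set YM7 Pur Wm Lm Wv S3 Sw Matrix MvPolynomial Real
open Ro (Iso rot prm)
open Ope (Rd hn pr Ai Dt Tn ee)
open scoped ContDiff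

variable {V P : Type} [NormedAddCommGroup V] [NormedSpace ℝ V] [CommRing P] [Algebra ℂ P]
  {Φ : Fil V} {N : Net P} {x : V → (R4 → ℝ) → P} {U W : P →ₗ[ℂ] ℂ} {ρ : Iso →* V →ₗ[ℝ] V}
  {A : ℝ → V ≃ₗ[ℝ] V} {S : Cor V} {ι : Pol →ₐ[ℂ] P} {φ o : V} {T T₀ : Fin 4 → Fin 4 → V}
  {H : Type} [NormedAddCommGroup H] [InnerProductSpace ℂ H] [CompleteSpace H] {r : N.Rep W 0 H}
  {h : R4 → ℝ} {M c : ℝ → ℝ} {L : Tn} {m : R4 → ℝ → V} {D δ : Fin 4 → V →ₗ[ℝ] V}
  {σ : Mat → V →ₗ[ℝ] V} {g : Iso} {w : Equiv.Perm (Fin 4)} {ε : Fin 4 → ℝ}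

/-- the derivative along a Killing field -/
def lie (Λ : Mat) (e : R4) (f : R4 → ℝ) (y : R4) : ℝ := fderiv ℝ f y (-(act Λ y + e))

theorem lie_eq {Λ : Mat} (hΛ : Λᵀ = -Λ) (e : R4) (f : S3.Sm) :
    lie Λ e f = (-∑ ν, wl.d ν (kk Λ e ν * f)).1 := by
  have : ∀ ν, Λ ν ν = 0 := fun ν => by
    have : Λ ν ν = -Λ ν ν := congrFun₂ hΛ ν ν
    linarith
  funext y
  simp only [d_kk, this, zero_smul, zero_add, NegMemClass.coe_neg, Pi.neg_apply,
    AddSubmonoidClass.coe_finset_sum, Finset.sum_apply, MulMemClass.coe_mul, Pi.mul_apply, kk_val]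
  simp only [d_val, pd_eq f.2, lie, map_neg, ← smul_eq_mul, ← map_smul, ← map_sum]
  refine congrArg (fun v => -fderiv ℝ f.1 y v) ?_
  ext i
  simp [Pi.single_apply]

theorem lie_w (R : Rg Φ N x W ρ A S) (d : Der Φ N x W D) {Λ : Mat} (hΛ : Λᵀ = -Λ) (e : R4) (b : V)
    {f : R4 → ℝ} (hf : Ds univ f) : Ds (tsupport f) (lie Λ e f) ∧ ∀ Z ∈ N.loc (tsupport f)ᶜ,
      ∑ ν, W (x (D ν b) (km Λ e ν f) * Z) = -W (x b (lie Λ e f) * Z) := by
  lift f to S3.Sm using hf.1
  have m : ∀ ν, wl.d ν (kk Λ e ν * f) ∈ S3.Id (tsupport f.1) := fun ν =>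
    S3.Id.st _ _ _ ((S3.Id _).mul_mem_left _ hf.self)
  have m' := neg_mem (sum_mem (t := Finset.univ) fun ν _ => m ν)
  rw [lie_eq hΛ]
  refine ⟨m', fun Z hZ => ?_⟩
  obtain ⟨B, hB⟩ := R.bil hZ
  rw [← hB _ m', map_neg, map_sum, LinearMap.neg_apply, neg_neg, LinearMap.sum_apply]
  exact Finset.sum_congr rfl fun ν _ => by
    have k := ds_km hf.self Λ e ν
    rw [hB _ (m ν), d.der _ _ _ k.univ _ (N.mono hZ (compl_subset_compl.2 k.2.2)), km_eq, d_val]

theorem rot_der (l : Fin 3) (y : R4) : HasDerivAt (fun t => rot l t y) (act (om l) y) 0 := by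
  refine (PiLp.continuousLinearEquiv 2 ℝ fun _ : Fin 4 => ℝ).symm.hasFDerivAt.comp_hasDerivAt (0 : ℝ)
    (hasDerivAt_pi.2 fun i => ?_)
  have c := fun a b => ((hasDerivAt_cos 0).mul_const a).fun_sub ((hasDerivAt_sin 0).mul_const b)
  have s := fun a b => ((hasDerivAt_sin 0).mul_const a).fun_add ((hasDerivAt_cos 0).mul_const b)
  split_ifs with h1 h2
  · exact (c _ _).congr_deriv (by simp [h1, om, mulVec, dotProduct, (Fin.succ_ne_zero l).symm])
  · exact (s _ _).congr_deriv (by simp [h2, om, mulVec, dotProduct])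
  · exact (hasDerivAt_const _ _).congr_deriv (by simp [h1, h2, om, mulVec, dotProduct])

theorem dt_rot (l : Fin 3) (t : ℝ) : Lg.PI.dt (rot l t) = 1 := by
  rw [← add_halves t, ← Ro.rot_mul, Lg.PI.dt_mul, ← abs_mul_abs_self, Lg.PI.dt,
    ← LinearMap.normDet_eq_abs_det]
  exact (congrArg₂ (· * ·) (LinearIsometry.normDet_eq_one (rot l (t / 2)).toLinearIsometry)
    (LinearIsometry.normDet_eq_one (rot l (t / 2)).toLinearIsometry)).trans (mul_one _)

variable (a : Al Φ x U ρ A S ι φ o T r h M c L m) (q : Ops Φ N x U T D δ σ)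
include a q

theorem Al.tot {Λ : Mat} (hΛ : Λᵀ = -Λ) (e : R4) {k : ℕ} (b : Fin k → V) {f : Fin k → R4 → ℝ}
    (hf : Adm f) (hs : ∀ i, Ds univ (f i)) :
    ∑ i, W ((∑ ν, x (δ ν (b i)) (km Λ e ν (f i)) - x (σ Λ (b i)) (f i)) *
      ∏ j ∈ Finset.univ.erase i, x (b j) (f j)) = 0 := by
  obtain ⟨s, h1⟩ := (isCompact_iUnion fun i => (hs i).2.1.isCompact).isBounded.subset_ball 0
  have h2 : ∀ i, tsupport (f i) ⊆ Bx s := fun i y hy l => (PiLp.norm_apply_le y l).trans_lt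
    (mem_ball_zero_iff.1 (h1 (mem_iUnion.2 ⟨i, hy⟩)))
  obtain ⟨ξ, x1, x2⟩ := bump ((PiLp.homeomorph 2 fun _ : Fin 4 => ℝ).isCompact_preimage.2
    (isCompact_univ_pi fun _ => isCompact_Icc (a := -s) (b := s))) isOpen_univ (subset_univ _)
  have d : ∀ μ, Ds {y | ∃ l, s < |y l|} (pd μ ξ) := fun μ => (gs_diff x1 x2 μ).mono fun y hy =>
    by_contra fun n => hy.2 fun l _ => abs_le.1 (not_lt.1 fun e => n ⟨l, e⟩)
  have := (a.cur (a.cuW q.toDer)).flux' (gen_mem a.bg.rW.gen b hf h2) x1.1 d hΛ e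
  have z := fun μ ν => a.tl.cen μ ν _ (ds_km (d μ) Λ e ν).univ
  have w := a.bg.rW.ward (e := e) (a.cuW q.toDer) (a.bg.opsW q) hΛ b hf hs x1 (a := 1) fun i =>
    x2.filter_mono (nhdsSet_mono fun y hy => by exact fun l _ => abs_le.1 (h2 i hy l).le)
  simp only [Pi.one_apply, Complex.ofReal_one, one_mul] at w
  rw [← w, ← this]
  simp only [fl, Finset.sum_mul, map_sum, cv]
  exact Finset.sum_congr rfl fun μ _ => Finset.sum_congr rfl fun ν _ =>
    (sub_zero _).symm.trans (congrArg _ (mul_eq_zero_of_left (z μ ν) _).symm)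

theorem Al.flow {Λ : Mat} (hΛ : Λᵀ = -Λ) {e : R4} (h1 : σ Λ φ = 0) {F G : ℝ → R4 → R4}
    (hF : ContDiff ℝ ∞ (Function.uncurry F)) (hG : Continuous fun p : ℝ × R4 => G p.1 p.2)
    (F0 : ∀ y, F 0 y = y) (G0 : ∀ y, G 0 y = y) (GF : ∀ t y, G t (F t y) = y)
    (hd : ∀ y, HasDerivAt (fun t => F t y) (-(act Λ y + e)) 0) {b : ℝ → V} {b' : V}
    (b1 : ∀ t, b t ∈ Φ.F 4) (b2 : b' ∈ Φ.F 4) (b3 : HasDerivAt b b' 0) (b4 : Mem x ι r (b 0))
    (iv : ∀ t k f (g : Fin k → R4 → ℝ), Adm (Fin.cons f g : Fin (k + 1) → _) → Ds univ f →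
      W (x (b t) (fun y => f (F t y)) * ι (mon fun i y => g i (F t y))) = W (x (b 0) f * ι (mon g)))
    {f : R4 → ℝ} (hf : Ds (Hs 0 0) f) {Y : P} (y1 : Y ∈ N.loc (Hs 0 0)) (y2 : r.Ψ Y ∈ Kk ι r)
    (y3 : ∀ Z ∈ N.loc (tsupport f)ᶜ, W (Y * Z) = W (x b' f * Z)) {Z : P}
    (hZ : Z ∈ N.loc {y | y 0 < 0}) :
    ∑ ν, W (x (δ ν (b 0)) (km Λ e ν f) * Z) - W (x (σ Λ (b 0)) f * Z) =
      ∑ ν, W (x (D ν (b 0)) (km Λ e ν f) * Z) - W (x b' f * Z) := by
  have B := a.bg
  have R := B.rW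
  have d := B.derW q.toDer
  obtain ⟨l1, l2⟩ := lie_w R d hΛ e (b 0) hf.univ
  have m := N.mono hZ (neg_sub hf)
  have l3 := l1.mono hf.2.2
  rw [a.key q b4 hf hΛ (Y := -x (b 0) (lie Λ e f) - Y) (sub_mem (neg_mem (R.memd _ l3)) y1)
    (by rw [map_sub, map_neg]; exact sub_mem (neg_mem (B.mem_one b4 l3)) y2)
    (fun ξ x1 x2 k g g1 g2 => ?_) hZ, l2 _ m, sub_mul, neg_mul, map_sub, map_neg, y3 _ m]
  have z : ι (mon g) ∈ N.loc {y | y 0 < 0} := B.emb.mem (mon_mem g1 fun i => (g2 i).2.2)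
  have ad := PN.adm_cons hf.2.1 hf.c1.2.1 g1 fun i =>
    (subset_compl_iff_disjoint_left.1 ((g2 i).2.2.trans (neg_sub hf)))
  have ds : ∀ i, Ds univ ((Fin.cons f g : Fin (k + 1) → _) i) :=
    Fin.forall_fin_succ.2 ⟨hf.univ, fun i => (g2 i).univ⟩
  obtain ⟨s, s0, hs⟩ := Lg.EX2.sep_of ad
  have sm : ∀ t, ContDiff ℝ ∞ (F t) := fun t => hF.comp (contDiff_const.prodMk contDiff_id)
  choose K k1 k2 k3 using fun i => S3.flow (f := ⟨_, (ds i).1⟩) Metric.isOpen_thickening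
    ((ds i).self.mono (Metric.self_subset_thickening s0 _)) sm hG G0 GF
  have k4 : ∀ i, tsupport ((Fin.cons f g : Fin (k + 1) → _) i) ⊆ K i := fun i => by
    simpa only [S3.cmp, LinearMap.coe_mk, AddHom.coe_mk, F0] using (k3 i).self_of_nhds.2.2
  have e1 := R.md (c := fun t => Fin.cons (b t) fun _ => φ) (c' := Fin.cons b' 0)
    (F := fun i t y => (Fin.cons f g : Fin (k + 1) → _) i (F t y)) k1
    (fun i j n => (hs i j n).mono ((k2 i).trans (Metric.thickening_subset_cthickening _ _))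
      ((k2 j).trans (Metric.thickening_subset_cthickening _ _))) (N.one _)
    (fun t => Fin.forall_fin_succ.2 ⟨b1 t, fun _ => B.mφ⟩)
    (Fin.forall_fin_succ.2 ⟨b2, fun _ => zero_mem _⟩)
    (Fin.forall_fin_succ.2 ⟨b3, fun _ => hasDerivAt_const _ _⟩)
    (fun i => ((ds i).1.comp hF).of_le (by simp))
    (fun i => ((lie_w R d hΛ e φ (ds i)).1.mono (k4 i)).c1)
    (fun i y => ((ds i).1.differentiable (by simp) y).hasFDerivAt.comp_hasDerivAt_of_eq _ (hd y)
      (F0 y).symm) fun i => (k3 i).mono fun t => Ds.c1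
  have e2 := a.tot q hΛ e (Fin.cons (b 0) fun _ => φ) ad ds
  simp only [mul_one, Fin.prod_univ_succ, Fin.cons_zero, Fin.cons_succ, ← B.mon, iv _ _ _ _ ad hf.univ,
    F0] at e1
  have e3 := congrArg₂ (· + ·) (e1.unique (hasDerivAt_const _ _)) e2
  simp only [← Finset.sum_add_distrib] at e3
  rw [Fin.sum_univ_succ, Finset.sum_eq_zero fun (i : Fin k) _ => by
      have p := R.prodE (Fin.cons (b 0) fun _ => φ) ad i.succ fun j n => (ad.2 n).subset_compl_right
      simp only [Fin.cons_succ] at p ⊢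
      simp only [add_mul, sub_mul, Finset.sum_mul, map_add, map_sub, map_sum, a.eps q, h1,
        Pi.zero_apply, lab0 R (g2 i).univ p, (lie_w R d hΛ e φ (g2 i).univ).2 _ p]
      ring,
    show Finset.univ.erase 0 = Finset.univ.map (Fin.succEmb k) by
      ext i
      cases i using Fin.cases <;> simp] at e3
  simp only [Finset.prod_map, Fin.coe_succEmb, Fin.cons_zero, Fin.cons_succ, ← B.mon, add_mul, sub_mul,
    Finset.sum_mul, map_add, map_sub, map_sum] at e3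
  rw [(B.opsW q).q Λ e _ f ξ hΛ hf.univ x2 _ (N.mono z (neg_sub x1)), sub_mul, neg_mul, map_sub,
    map_neg, y3 _ (N.mono z (neg_sub hf))]
  linear_combination e3

theorem Al.wtr (ν μ α : Fin 4) : δ ν (T μ α) = D ν (T μ α) := by
  have R := a.bg.rW
  refine R.eq_of fun f hf b => ?_
  have m := mir' R hf b
  have m' := N.mono m (neg_sub hf)
  have := a.flow q (Λ := 0) (by simp) (e := ax ν 1) (by simp [q.σ0]) (F := fun t y => y - t • ax ν 1)
    (G := fun t y => y + t • ax ν 1) (by unfold Function.uncurry; fun_prop) (by fun_prop)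
    (by simp) (by simp) (by simp)
    (fun y => by simpa [act] using ((hasDerivAt_id (0 : ℝ)).smul_const (ax ν 1)).const_sub y)
    (fun _ => a.tl.mem μ α) (zero_mem _) (hasDerivAt_const _ _) (a.tl.kk μ α)
    (fun t k f g ad hf => by
      rw [← R.st.ti (t • ax ν 1) (Net.adm (N.mul (R.memd _ hf.self) (a.bg.emb.mem (Ope.dt_of ad).2)
        disjoint_compl_right))]
      simp only [a.bg.mon, map_mul, map_prod, R.gen.tau])
    hf (zero_mem _) (by simp) (fun Z hZ => by simp [lab0 R hf.univ hZ]) m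
  rwa [trl R m fun β => δ β _, trl R m fun β => D β _, q.σ0, LinearMap.zero_apply, sub_left_inj] at this

theorem Al.wro (cl : ∀ c, Sec Φ ρ c → ρ (prm (Equiv.swap 0 1)) c = -c → c = 0) (l : Fin 3)
    (μ α : Fin 4) : σ (om l) (T μ α) = ∑ β, (om l β μ • T β α + om l β α • T μ β) := by
  have R := a.bg.rW
  refine R.eq_of fun f hf b => ?_
  have b0 : ∑ i, ∑ j, (rot l 0 (ee μ) i * rot l 0 (ee α) j) • T i j = T μ α := by
    simp [ite_smul]
  have dv := fun μ i => (EuclideanSpace.proj i).hasFDerivAt.comp_hasDerivAt (0 : ℝ) (rot_der l (ee μ))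
  have := a.flow q (Λ := om l) (by
      ext i j
      fin_cases l <;> fin_cases i <;> fin_cases j <;> simp [om]) (e := 0) (a.sig q cl l)
    (F := fun t => (rot l t).symm) (G := fun t => rot l t)
    (b := fun t => ∑ i, ∑ j, (rot l t (ee μ) i * rot l t (ee α) j) • T i j)
    (b' := ∑ β, (om l β μ • T β α + om l β α • T μ β))
    (contDiff_euclidean.2 fun i => by
      simp only [Function.uncurry, Ro.rot_symm, Ro.rot_apply, Ro.rv]
      split_ifs <;> fun_prop)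
    ((PiLp.continuous_toLp 2 _).comp (continuous_pi fun i => by split_ifs <;> fun_prop))
    (fun y => by rw [Ro.rot_symm, neg_zero, Ro.rot_zero]; rfl) (by simp) (by simp)
    (fun y => ((rot_der l y).scomp_of_eq 0 (hasDerivAt_neg (0 : ℝ)) (by simp)).congr_deriv (by simp))
    (fun t => sum_mem fun i _ => sum_mem fun j _ => Submodule.smul_mem _ _ (a.tl.mem i j))
    (sum_mem fun β _ => add_mem (Submodule.smul_mem _ _ (a.tl.mem _ _))
      (Submodule.smul_mem _ _ (a.tl.mem _ _)))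
    ((HasDerivAt.fun_sum fun i _ => .fun_sum fun j _ =>
      ((dv μ i).fun_mul (dv α j)).smul_const (T i j)).congr_deriv (by
        simp [act_apply, add_smul, Finset.sum_add_distrib, ite_smul]))
    (b0.symm ▸ a.tl.kk μ α)
    (fun t k f g ad hf => by
      have d := ds_iso hf (rot l t).symm
      have z := (Ope.dt_of (f := fun y => f ((rot l t).symm y)) (g := fun i y => g i ((rot l t).symm y))
        (by convert Ro.adm_act ad (rot l t) using 1; funext i; cases i using Fin.cases <;> rfl)).2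
      obtain ⟨ℓ, hℓ⟩ := labx R d (a.bg.emb.mem z)
      rw [b0, a.tl.rep _ _ _ hf _ (Ope.dt_of ad).2, a.sm.cov _ (dt_rot l t) _ _ (Ope.dt_of ad),
        Ro.act_mon]
      refine (hℓ _).symm.trans ?_
      simp only [map_sum, map_smul]
      simp only [hℓ, Complex.real_smul]
      exact Finset.sum_congr rfl fun i _ => Finset.sum_congr rfl fun j _ =>
        congrArg _ (a.tl.rep _ _ _ d _ z))
    hf (Y := ∑ β, ((om l β μ : ℂ) • x (T β α) f + (om l β α : ℂ) • x (T μ β) f))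
    (sum_mem fun β _ => add_mem (Submodule.smul_mem _ _ (R.memd _ hf))
      (Submodule.smul_mem _ _ (R.memd _ hf)))
    (by
      simp only [map_sum, map_add, map_smul]
      exact sum_mem fun β _ => add_mem (Submodule.smul_mem _ _ (a.bg.mem_one (a.tl.kk _ _) hf))
        (Submodule.smul_mem _ _ (a.bg.mem_one (a.tl.kk _ _) hf)))
    (fun Z hZ => by
      obtain ⟨ℓ, hℓ⟩ := labx R hf.univ hZ
      simp [Finset.sum_mul, add_mul, ← hℓ]) (mir' R hf b)
  simpa only [b0, a.wtr q, sub_right_inj] using this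

end Pool.Agent.Lib.MP_7f377f_mp.Bw
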