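import Pool.Agent.Lib.MP_7f377f_mp.G.BwM
import Pool.Agent.Lib.MP_7f377f_mp.G.BwW
import Pool.Agent.Lib.MP_7f377f_mp.G.BwF

/-! The stress tensor as a field with a label. -/

noncomputable section

namespace Pool.Agent.Lib.MP_7f377f_mp.Bw
variable [Pool.Agent.Lib.MP_7f377f_mp.GD]
set_option linter.unusedSectionVars false

open Filter Topology Set YM7 Pur Wm Lm Wv S3 Sw Matrix MvPolynomial Real
open Ro (Iso rot prm)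
open Ope (Rd hn pr Ai Dt Tn ee)
open scoped ContDiff

variable {V P : Type} [NormedAddCommGroup V] [NormedSpace ℝ V] [CommRing P] [Algebra ℂ P]
  {Φ : Fil V} {N : Net P} {x : V → (R4 → ℝ) → P} {U W : P →ₗ[ℂ] ℂ} {ρ : Iso →* V →ₗ[ℝ] V}
  {A : ℝ → V ≃ₗ[ℝ] V} {S : Cor V} {ι : Pol →ₐ[ℂ] P} {φ o : V} {T T₀ : Fin 4 → Fin 4 → V}
  {H : Type} [NormedAddCommGroup H] [InnerProductSpace ℂ H] [CompleteSpace H] {r : N.Rep W 0 H}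
  {h : R4 → ℝ} {M c : ℝ → ℝ} {L : Tn} {m : R4 → ℝ → V} {D δ : Fin 4 → V →ₗ[ℝ] V}
  {σ : Mat → V →ₗ[ℝ] V} {g : Iso} {w : Equiv.Perm (Fin 4)} {ε : Fin 4 → ℝ}

theorem main (B : Bg Φ N x U W ρ A S ι φ o) (s : Sm (W ∘ₗ ι.toLinearMap) h M c L)
    (F : Fb Φ ρ S T₀) : ∃ T D δ σ, Cu Φ N x W ρ T ∧ Ops Φ N x W T D δ σ ∧ Ops Φ N x U T D δ σ ∧
      Wt T A D δ σ T₀ ∧ Nsb N x W T ∧ (∀ μ ν f, Ds univ f → W (x (T μ ν) f) = 0) ∧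
        (∀ w μ ν, ρ (prm w) (T μ ν) = T (w μ) (w ν)) ∧ (∀ ν, δ ν φ = D ν φ) ∧
          ∀ l, σ (om l) φ = 0 := by
  obtain ⟨H, _, _, _, ⟨r⟩⟩ := B.rW.st.exists_rep 0
  have := fun n : R4 => (em (‖n‖ = 1)).elim (fun e => (B.mg h n s.rd s.sm e).imp fun _ a _ => a)
    fun e => ⟨0, fun e' => (e e').elim⟩
  choose m hm using this
  obtain ⟨T, t⟩ := exists_tl B s hm r
  have a : Al Φ x U ρ A S ι φ o T r h M c L m := ⟨B, s, hm, F.up, t⟩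
  obtain ⟨D, d⟩ := B.rU.der
  obtain ⟨δ, σ, q⟩ := B.rU.ops (a.cuU d) d
  have cov := fun w μ ν => by simpa using a.cov (B.sy_prm w) μ ν
  exact ⟨T, D, δ, σ, a.cuW d, B.opsW q, q, ⟨a.wtr q, a.wro q F.cl2, aft B.rW (a.cuW d) (B.opsW q) F
    a.ne t.cen cov B.comm (a.wtr q)⟩, nsb_of (a.cur (a.cuW d)), t.cen, cov, a.eps q,
    a.sig q F.cl2⟩

end Pool.Agent.Lib.MP_7f377f_mp.Bw
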