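import Pool.Agent.Lib.MP_7f377f_mp.G.PurB

/-! Existence of a dominated functional with a unique vacuum. -/

noncomputable section

namespace Pool.Agent.Lib.MP_7f377f_mp.Pur
variable [GD]

open Filter Topology Set ComplexConjugate YM7

set_option linter.unusedSectionVars false

variable {P : Type} [CommRing P] [Algebra ℂ P] {N : Net P} {S S' : P →ₗ[ℂ] ℂ}

namespace Net

variable {U X Z : P} {R c t : ℝ} {s v : R4} {μ ν : Fin 4}

theorem far_two (μ : Fin 4) (s s' : R4) (hX : X ∈ N.loc univ) : ∀ᶠ R in atTop, ∀ B ∈ N.loc (Ot R),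
    ∀ B' ∈ N.loc (Ot R), N.Θ μ (N.τ s B) * X * N.τ s' B' ∈ N.loc univ := by
  obtain ⟨R, h1, h2⟩ := ((box hX).and (eventually_ge_atTop 0)).exists
  filter_upwards [eventually_ge_atTop (R - s μ), eventually_ge_atTop (R - s' μ)]
    with R' e e' B hB B' hB'
  exact sand (N.mono h1 inter_subset_right) h2 (τ_hs (N.mono hB (Ot.hs μ le_rfl)) (by linarith))
    (τ_hs (N.mono hB' (Ot.hs μ le_rfl)) (by linarith))

theorem ot_of (h : N.τ (dg (-R) + s) X ∈ N.loc (Ot 0)) : N.τ s X ∈ N.loc (Ot R) := by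
  simpa only [N.τ_τ, show dg R + (dg (-R) + s) = s by ext; simp] using dg_ot (R := R) h

variable {H : Fin 4 → Type} [∀ ν, NormedAddCommGroup (H ν)] [∀ ν, InnerProductSpace ℂ (H ν)]
  [∀ ν, CompleteSpace (H ν)] {r : ∀ ν, N.Rep S ν (H ν)} {Y : ℕ → P} {z : ∀ ν, H ν}

theorem sand_le (hS : N.St S) (hZ : N.QB S Z R c) (μ : Fin 4) (s s' : R4) {G G' : Filter P}
    {M M' : ℝ} (h : ∀ s, ∀ᶠ V in G, N.τ s V ∈ N.loc (Ot 0) ∧ ∀ ν, ‖(r ν).Ψ (N.τ s V)‖ ≤ M)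
    (h' : ∀ s, ∀ᶠ V in G', N.τ s V ∈ N.loc (Ot 0) ∧ ∀ ν, ‖(r ν).Ψ (N.τ s V)‖ ≤ M') :
    ∃ A ∈ G, ∃ A' ∈ G', ∀ B ∈ A, ∀ B' ∈ A',
      ‖S (N.Θ μ (N.τ s B) * Z * N.τ s' B')‖ ≤ M * (c * M') := by
  refine ⟨_, h (-ax μ R + s), _, h' (dg (-R) + s'), fun B e B' e' => ?_⟩
  have e1 := (r μ).shift (X := N.Θ μ (N.τ s B)) (Y := Z * N.τ s' B') (v := -ax μ R) hS
  rw [rf_neg, neg_rf_ax, N.Θ_Θ, N.τ_τ, neg_neg] at e1
  rw [mul_assoc, e1 (N.mono e.1 (Ot.hs μ le_rfl)) (qb_hs hZ.1 (ot_of e'.1) hZ.2.1 (by simp))]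
  refine (norm_inner_le_norm _ _).trans (mul_le_mul (e.2 μ) (((r μ).qb hZ (ot_of e'.1)
    (by simp)).trans ?_) (norm_nonneg _) ((norm_nonneg _).trans (e.2 μ)))
  rw [N.τ_τ]
  exact mul_le_mul_of_nonneg_left (e'.2 μ) hZ.2.2.1

section
variable (h : Avg r U R Y z) (hS : N.St S) (hQ : N.QB S U R c) (hΘ : ∀ μ, N.Θ μ U = U)
  (hA : ∀ X ∈ N.loc univ, ∃ R c, N.QB S X R c)
include h hS hQ hΘ hA

theorem Avg.limB {g : P →+* P} (hg : Gd r Y z g) (j k : ℕ) (hZ : Z ∈ N.loc univ) :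
    Tendsto (fun V => WW S Y j (Z * g V)) (GG Y k) (𝓝 (WW S Y (j + k) Z)) :=
  hg.step j k (fun _ _ => h.limA hS hQ hΘ hA _ g hg) Z hZ

theorem Avg.two {g g' : P →+* P} (hg : Gd r Y z g) (hg' : Gd r Y z g') (k : ℕ) (a b : ℝ)
    (l : ∀ V, g ((a : ℂ) • 1 + (b : ℂ) • V) = (a : ℂ) • 1 + (b : ℂ) • g V)
    (l' : ∀ V, g' ((a : ℂ) • 1 + (b : ℂ) • V) = (a : ℂ) • 1 + (b : ℂ) • g' V)
    (hZ : Z ∈ N.loc univ) (h1 : ∀ᶠ R in atTop, ∀ B ∈ N.loc (Ot R), Z * g B ∈ N.loc univ) :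
    ∃ φ : P → ℂ, Tendsto φ (GG Y k) (𝓝 (a ^ 2 * WW S Y 0 Z + 2 * a * b * WW S Y k Z +
      b ^ 2 * WW S Y (k + k) Z)) ∧ ∀ᶠ V' in GG Y k, Tendsto (fun V =>
        S (Z * g ((a : ℂ) • 1 + (b : ℂ) • V') * g' ((a : ℂ) • 1 + (b : ℂ) • V))) (GG Y k)
          (𝓝 (φ V')) := by
  refine ⟨fun V' => a ^ 2 * WW S Y 0 Z + a * b * WW S Y 0 (Z * g V') + a * b * WW S Y (0 + k) Z +
    b ^ 2 * WW S Y (0 + k) (Z * g V'), ?_, ?_⟩
  · convert (((((h.limB hS hQ hΘ hA hg 0 k hZ).const_mul (a * b : ℂ)).const_add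
      (a ^ 2 * WW S Y 0 Z)).add_const (a * b * WW S Y (0 + k) Z)).add
      ((h.limB hS hQ hΘ hA hg (0 + k) k hZ).const_mul (b ^ 2 : ℂ))) using 2
    rw [zero_add]
    ring
  · obtain ⟨R', h2⟩ := h1.exists
    filter_upwards [h.nb hS hQ k (dg (-R') + 0)] with V' e
    refine ((((h.limB hS hQ hΘ hA hg' 0 k hZ).const_mul (a * b : ℂ)).const_add _).add
      ((h.limB hS hQ hΘ hA hg' 0 k (h2 _ (N.τ_zero V' ▸ ot_of e.1))).const_mul _)).congr
      fun V => ?_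
    simp only [l, l', WW, mul_add, add_mul, mul_smul_comm, smul_mul_assoc, mul_one, map_add,
      map_smul, smul_eq_mul]
    ring

theorem Avg.tilt {S₀ : P →ₗ[ℂ] ℂ} (hD : N.Dom S₀ S) (μ : Fin 4) (m : ℕ) (Z : Fin m → P)
    (s s' : Fin m → R4) (R₀ : ℝ) (hZ : ∀ j, Z j ∈ N.loc univ) (hB : ∀ B ∈ N.loc (Ot R₀),
      0 ≤ (∑ j, S₀ (N.Θ μ (N.τ (s j) B) * Z j * N.τ (s' j) B)).re) :
    |(∑ j, WW S Y 1 (Z j)).re| ≤ c * (∑ j, S (Z j)).re := by
  choose R' c' hZ' using fun j => hA _ (hZ j)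
  have c0 := hQ.2.2.1
  have h1 := fun j => far_two μ (s j) (s' j) (hZ j)
  refine mom_le (m := fun k => (∑ j, WW S Y k (Z j)).re) (C := ∑ j, c' j) c0
    (fun k a b => ?_) fun k => ?_
  · by_contra! h2
    obtain ⟨R₁, h3, h4⟩ := ((eventually_all.2 h1).and (eventually_ge_atTop R₀)).exists
    have h5 : ∀ s, ∀ᶠ V in (GG Y k).map fun V => (a : ℂ) • (1 : P) + (b : ℂ) • V,
        N.τ s V ∈ N.loc (Ot 0) ∧ ∀ ν, ‖(r ν).Ψ (N.τ s V)‖ ≤ |a| + |b| * c ^ k := fun s =>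
      eventually_map.2 <| (h.nb hS hQ k s).mono fun V e => by
        simp only [map_add, map_smul, map_one]
        refine ⟨Submodule.add_mem _ (Submodule.smul_mem _ _ (N.one _)) (Submodule.smul_mem _ _ e.1),
          fun ν => (norm_add_le _ _).trans ?_⟩
        rw [norm_smul, norm_smul, (r ν).one hS, mul_one, Complex.norm_real, Complex.norm_real]
        exact add_le_add_right (mul_le_mul_of_nonneg_left (e.2 ν) (abs_nonneg b)) _
    choose A hA1 A' hA2 h6 using fun j => sand_le hS (hZ' j) μ (s j) (s' j) h5 h5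
    refine psd_lim (F := fun B B' => (∑ j, S (N.Θ μ (N.τ (s j) B) * Z j * N.τ (s' j) B')).re)
      (N.loc (Ot R₁)).toAddSubgroup (G := (GG Y k).map fun V => (a : ℂ) • (1 : P) + (b : ℂ) • V)
      (C := ∑ j, (|a| + |b| * c ^ k) * (c' j * (|a| + |b| * c ^ k)))
      (fun _ _ _ => by simp only [map_add, add_mul, Finset.sum_add_distrib, Complex.add_re])
      (fun _ _ _ => by simp only [map_add, mul_add, Finset.sum_add_distrib, Complex.add_re])
      (fun B e => ?_) ?_ (neg_pos.2 h2) ?_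
    · obtain ⟨R₂, e1, e2⟩ := ((Net.box e).and (eventually_ge_atTop R₁)).exists
      refine hD μ m _ s s' R₂ (fun j => h3 j B e B e) fun B' e' => ?_
      refine (hB _ (N.mono (mul_far e1 e' (Ot.mono e2)) (Ot.mono h4))).trans_eq ?_
      simp only [map_mul]
      exact congrArg _ (Finset.sum_congr rfl fun j _ => congrArg _ (by ring))
    · filter_upwards [h5 (dg (-R₁) + 0), eventually_all.2 hA1, eventually_all.2 hA2] with B e e1 e2
      exact ⟨N.τ_zero B ▸ ot_of e.1, (Complex.re_le_norm _).trans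
        (norm_sum_le_of_le _ fun j _ => h6 j B (e1 j) B (e2 j))⟩
    have l : ∀ s (V : P), ((N.Θ μ).comp (N.τ s : P →+* P)) ((a : ℂ) • 1 + (b : ℂ) • V) =
        (a : ℂ) • 1 + (b : ℂ) • ((N.Θ μ).comp (N.τ s : P →+* P)) V := fun s V => by
      simp only [RingHom.comp_apply, RingHom.coe_coe, map_add, map_smul, map_one, N.Θ_smul,
        Complex.conj_ofReal]
    have l' : ∀ s (V : P), (N.τ s : P →+* P) ((a : ℂ) • 1 + (b : ℂ) • V) =
        (a : ℂ) • 1 + (b : ℂ) • (N.τ s : P →+* P) V := fun s V => by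
      simp only [RingHom.coe_coe, map_add, map_smul, map_one]
    choose φ p1 p2 using fun j => h.two hS hQ hΘ hA (h.gd_th hS (hΘ μ) (s j)) (h.gd_tau (s' j))
      k a b (l _) (l' _) (hZ j) ((h1 j).mono fun _ e B hB => by
        simpa [mul_comm] using e B hB 1 (N.one _))
    choose ψ q1 q2 using fun j => h.two hS hQ hΘ hA (h.gd_tau (s' j)) (h.gd_th hS (hΘ μ) (s j))
      k a b (l' _) (l _) (hZ j) ((h1 j).mono fun _ e B hB => by simpa using e 1 (N.one _) B hB)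
    have re : ∀ {f : Fin m → P → ℂ} {w : Fin m → ℂ}, (∀ j, Tendsto (f j) (GG Y k) (𝓝 (w j))) →
        Tendsto (fun V => (∑ j, f j V).re) (GG Y k) (𝓝 (∑ j, w j).re) := fun e =>
      (Complex.continuous_re.tendsto _).comp (tendsto_finsetSum _ fun j _ => e j)
    refine eventually_map.2 ?_
    filter_upwards [eventually_all.2 p2, eventually_all.2 q2, ((re p1).add (re q1)).eventually
      (gt_mem_nhds (b := _) (a := a ^ 2 * (∑ j, WW S Y 0 (Z j)).re + 2 * a * b *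
        (∑ j, WW S Y k (Z j)).re + b ^ 2 * (∑ j, WW S Y (k + k) (Z j)).re) (by
          simp only [Finset.sum_add_distrib, ← Finset.mul_sum, Complex.add_re]
          norm_cast
          simp only [Complex.re_ofReal_mul]
          linarith))] with V' e1 e2 e3
    refine eventually_map.2 ((((re e1).add (re e2)).eventually (gt_mem_nhds e3)).mono
      fun V e => ?_)
    rw [neg_neg]
    refine le_of_eq_of_le ?_ e.le
    congr 2 <;> exact Finset.sum_congr rfl fun j _ => congrArg _ (by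
      simp only [RingHom.comp_apply, RingHom.coe_coe]
      ring)
  · refine (Complex.abs_re_le_norm _).trans ?_
    rw [Finset.sum_mul]
    refine norm_sum_le_of_le _ fun j _ => ?_
    obtain ⟨A, e1, A', e2, e3⟩ := sand_le hS (hZ' j) μ 0 0 (h.nb hS hQ 0) (h.nb hS hQ k)
    refine le_of_tendsto (zero_add k ▸ (h.limB hS hQ hΘ hA (h.gd_tau 0) 0 k (hZ j)).norm)
      (mem_of_superset e2 fun V e => ?_)
    simpa [WW] using e3 1 e1 V e

end

theorem exists_ext (hS : N.St S) (hA : ∀ X ∈ N.loc univ, ∃ R c, N.QB S X R c) :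
    ∃ S' : P →ₗ[ℂ] ℂ, S' 1 = 1 ∧ N.Dom S S' ∧ ∀ (W : N.loc univ → ℂ) (c : ℝ), IsLinearMap ℂ W →
      (W ⟨1, N.one _⟩).im = 0 → (∀ (μ : Fin 4) (m : ℕ) (Z : Fin m → N.loc univ)
        (s s' : Fin m → R4) (R : ℝ), (∀ B ∈ N.loc (Ot R),
          0 ≤ (∑ j, S (N.Θ μ (N.τ (s j) B) * Z j * N.τ (s' j) B)).re) →
        |(∑ j, W (Z j)).re| ≤ c * (∑ j, S' (Z j)).re) →
      ∀ X, W X = W ⟨1, N.one _⟩ * S' X := by
  let K : Set (N.loc univ → ℂ) := {f | ((∀ X Y, f (X + Y) = f X + f Y) ∧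
    ∀ (c : ℂ) X, f (c • X) = c • f X) ∧ f ⟨1, N.one _⟩ = 1 ∧ ∀ (μ : Fin 4) (m : ℕ)
      (Z : Fin m → N.loc univ) (s s' : Fin m → R4) (R : ℝ), (∀ B ∈ N.loc (Ot R),
        0 ≤ (∑ j, S (N.Θ μ (N.τ (s j) B) * Z j * N.τ (s' j) B)).re) → 0 ≤ (∑ j, f (Z j)).re}
  have h1 : ∀ f ∈ K, ∃ S' : P →ₗ[ℂ] ℂ, (∀ X : N.loc univ, S' X = f X) ∧ S' 1 = 1 ∧ N.Dom S S' :=
    fun f hf => by
      obtain ⟨S', e⟩ := (IsLinearMap.mk' f ⟨hf.1.1, hf.1.2⟩).exists_extend
      replace e : ∀ X : N.loc univ, S' X = f X := fun X => LinearMap.congr_fun e X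
      exact ⟨S', e, (e ⟨1, N.one _⟩).trans hf.2.1, fun μ m Z s s' R hZ hB => by
        simpa only [← e] using hf.2.2 μ m (fun j => ⟨Z j, hZ j⟩) s s' R hB⟩
  choose R c hc using fun X : N.loc univ => hA X X.2
  have h2 : IsCompact K := by
    refine (isCompact_univ_pi fun X => isCompact_closedBall (0 : ℂ) (c X)).of_isClosed_subset ?_
      fun f hf X _ => ?_
    · simp only [K, ofPred_and, ofPred_forall]
      refine ((isClosed_iInter fun _ => isClosed_iInter fun _ => ?_).inter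
        (isClosed_iInter fun _ => isClosed_iInter fun _ => ?_)).inter (IsClosed.inter ?_ ?_)
      iterate 3 exact isClosed_eq (by fun_prop) (by fun_prop)
      iterate 7 refine isClosed_iInter fun _ => ?_
      exact isClosed_le continuous_const (by fun_prop)
    · obtain ⟨S', e1, e2, e3⟩ := h1 f hf
      rw [mem_closedBall_zero_iff, ← e1]
      exact (e3.st hS e2).bound (e3.qb (hc X))
  obtain ⟨f, hf, h3⟩ := h2.extremePoints_nonempty ⟨fun X => S X, ⟨fun X Y => by simp,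
    fun c X => by simp⟩, hS.one, fun μ m Z s s' R hB => by simpa using hB 1 (N.one _)⟩
  obtain ⟨S', e1, e2, e3⟩ := h1 f hf
  refine ⟨S', e2, e3, fun W c h4 h5 h6 X => ?_⟩
  obtain ⟨w, hw⟩ : ∃ w : ℝ, W ⟨1, N.one _⟩ = w := ⟨_, Complex.ext rfl (by simpa using h5)⟩
  have h7 : |w| ≤ c := by
    simpa [hw, e2] using h6 0 1 (fun _ => ⟨1, N.one _⟩) 0 0 0 fun B hB => by
      simpa [N.τ_zero, nq] using hS.pos 0 (N.mono hB (Ot.hs 0 le_rfl))
  have h8 : ∀ ε : ℝ, |ε| * c < 1 → 0 < 1 + ε * w ∧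
      (fun X => (((1 + ε * w)⁻¹ : ℝ) : ℂ) * (f X + ε * W X)) ∈ K := fun ε hε => by
    have e4 : 0 < 1 + ε * w := by
      linarith [neg_abs_le (ε * w), abs_mul ε w, mul_le_mul_of_nonneg_left h7 (abs_nonneg ε)]
    refine ⟨e4, ⟨fun X Y => ?_, fun a X => ?_⟩, ?_, fun μ m Z s s' R hB => ?_⟩
    · simp only [hf.1.1, h4.1]
      ring
    · simp only [hf.1.2, h4.2, smul_eq_mul]
      ring
    · simp only [hf.2.1, hw]
      exact_mod_cast inv_mul_cancel₀ e4.ne'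
    · have e5 := h6 μ m Z s s' R hB
      have e6 := hf.2.2 μ m Z s s' R hB
      simp only [e1] at e5
      simp only [← Finset.mul_sum, Finset.sum_add_distrib, Complex.re_ofReal_mul, Complex.add_re]
      refine mul_nonneg (inv_pos.2 e4).le ?_
      nlinarith [neg_abs_le (ε * (∑ j, W (Z j)).re), abs_mul ε (∑ j, W (Z j)).re,
        mul_le_mul_of_nonneg_left e5 (abs_nonneg ε)]
  have c0 : 0 < c + 1 := by linarith [abs_nonneg w]
  have h9 : |(c + 1)⁻¹| * c < 1 := by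
    rw [abs_of_pos (inv_pos.2 c0), inv_mul_lt_iff₀ c0]
    linarith
  obtain ⟨ε, ε0, h9⟩ : ∃ ε : ℝ, ε ≠ 0 ∧ |ε| * c < 1 := ⟨_, (inv_pos.2 c0).ne', h9⟩
  obtain ⟨p1, p2⟩ := h8 ε h9
  obtain ⟨q1, q2⟩ := h8 (-ε) (by rwa [abs_neg])
  have := congrFun (h3 p2 q2 ⟨(1 + ε * w) / 2, (1 + -ε * w) / 2, by positivity, by positivity,
    by ring, funext fun X => ?_⟩) X
  · rw [Complex.ofReal_inv, inv_mul_eq_iff_eq_mul₀ (Complex.ofReal_ne_zero.2 p1.ne')] at this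
    refine mul_left_cancel₀ (Complex.ofReal_ne_zero.2 ε0) ?_
    rw [hw, e1]
    push_cast at this
    linear_combination this
  · simp only [Pi.add_apply, Pi.smul_apply, Complex.real_smul, ← mul_assoc, ← Complex.ofReal_mul,
      div_mul_eq_mul_div, mul_inv_cancel₀ p1.ne', mul_inv_cancel₀ q1.ne']
    push_cast
    ring

theorem Avg.vac (h : Avg r U R Y z) (hS : N.St S) (ν : Fin 4) :
    inner ℂ ((r ν).Ψ 1) (z ν) = S U := by
  refine tendsto_nhds_unique_of_eventuallyEq (tendsto_const_nhds.inner (h.lim0 ν))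
    tendsto_const_nhds ((h.far0 ν).mono fun n e => ((r ν).vac e).trans ?_)
  exact (h.hull n).const (φ := S) (fun X Y => by simp [mul_add]) fun v _ => hS.ti v (adm h.box)

theorem Avg.anti (h : Avg r U R Y z) (hS : N.St S) (h1 : N.Θ ν U = U) (h2 : N.Θ μ U = -U) :
    z ν = 0 := by
  have e : ∀ μ, Tendsto (fun n => S (N.τ (dg (-R)) (N.Θ μ U) * Y n)) atTop
      (𝓝 ((‖z μ‖ : ℂ) ^ 2)) := fun μ => by
    have e1 : R ≤ rf μ (dg (-R)) μ := by simp
    have e2 := h.inner_inv hS (fun _ => h.inv) e1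
    rw [inner_self_eq_norm_sq_to_K] at e2
    refine (e2 ▸ tendsto_const_nhds.inner (h.lim0 μ)).congr' ((h.far0 μ).mono fun n e => ?_)
    simp only [(r μ).inn (τ_hs (bx_hs h.box μ) (by linarith)) e, N.Θ_τ, rf_rf]
  have e1 := (e μ).neg
  have e2 := e ν
  simp only [h1, h2, map_neg, neg_mul, neg_neg] at e1 e2
  have e3 : ‖z ν‖ ^ 2 = -‖z μ‖ ^ 2 := by exact_mod_cast tendsto_nhds_unique e2 e1
  exact norm_eq_zero.1 (by nlinarith [norm_nonneg (z ν)])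

theorem sym_induction {p : P → Prop} (h1 : ∀ (c : ℂ) X, p X → p (c • X))
    (h2 : ∀ X Y, p X → p Y → p (X + Y)) (h3 : ∀ X ∈ N.loc univ, (∀ μ, N.Θ μ X = X) → p X)
    (h4 : ∀ X ∈ N.loc univ, ∀ μ, N.Θ 0 X = X → N.Θ μ X = -X → p X) :
    ∀ X ∈ N.loc univ, p X := by
  have key : ∀ s : Finset (Fin 4), ∀ X ∈ N.loc univ, N.Θ 0 X = X → (∀ μ ∉ s, N.Θ μ X = X) → p X := by
    intro s
    induction s using Finset.induction_on with
    | empty => exact fun X hX _ e => h3 X hX fun μ => e μ (Finset.notMem_empty μ)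
    | insert ν s _ ih =>
      intro X hX e0 e
      have e1 : ∀ μ, N.Θ μ X = X → N.Θ μ (N.Θ ν X) = N.Θ ν X := fun μ e => by rw [N.Θ_comm, e]
      rw [show X = (2⁻¹ : ℂ) • (X + N.Θ ν X + (X - N.Θ ν X)) by module]
      refine h1 _ _ (h2 _ _ (ih _ (Submodule.add_mem _ hX (Θ_adm ν hX)) (by
        rw [map_add, e1 0 e0, e0]) fun μ hμ => ?_) (h4 _ (Submodule.sub_mem _ hX (Θ_adm ν hX)) ν
        (by rw [map_sub, e1 0 e0, e0]) (by rw [map_sub, N.Θ_Θ, neg_sub])))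
      by_cases e2 : μ = ν
      · rw [e2, map_add, N.Θ_Θ, add_comm]
      · have := e μ (by simp [e2, hμ])
        rw [map_add, e1 μ this, this]
  intro X hX
  rw [show X = (2⁻¹ : ℂ) • (X + N.Θ 0 X) + (2⁻¹ * -Complex.I) • (Complex.I • (X - N.Θ 0 X)) by
    rw [smul_smul, mul_assoc, neg_mul, Complex.I_mul_I]
    module]
  refine h2 _ _ (h1 _ _ (key Finset.univ _ (Submodule.add_mem _ hX (Θ_adm 0 hX)) ?_ (by simp)))
    (h1 _ _ (key Finset.univ _ (Submodule.smul_mem _ _ (Submodule.sub_mem _ hX (Θ_adm 0 hX))) ?_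
      (by simp)))
  · rw [map_add, N.Θ_Θ, add_comm]
  · rw [N.Θ_smul, map_sub, N.Θ_Θ, Complex.conj_I]
    module

theorem pure (hS : N.St S) (hA : ∀ X ∈ N.loc univ, ∃ R c, N.QB S X R c) :
    ∃ S' : P →ₗ[ℂ] ℂ, S' 1 = 1 ∧ N.Dom S S' ∧ ∀ (H : Fin 4 → Type)
      [∀ ν, NormedAddCommGroup (H ν)] [∀ ν, InnerProductSpace ℂ (H ν)] [∀ ν, CompleteSpace (H ν)]
      (r : ∀ ν, N.Rep S' ν (H ν)) (x : H 0), (∀ v : R4, 0 ≤ v 0 → (r 0).T v x = x) →
        x = inner ℂ ((r 0).Ψ 1) x • (r 0).Ψ 1 := by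
  obtain ⟨S', h1, h2, h3⟩ := exists_ext hS hA
  refine ⟨S', h1, h2, fun H _ _ _ r x hx => ?_⟩
  replace hS := h2.st hS h1
  replace hA : ∀ X ∈ N.loc univ, ∃ R c, N.QB S' X R c := fun X hX =>
    (hA X hX).imp fun _ e => e.imp fun _ => h2.qb
  have ext : ∀ {x y : H 0}, (∀ X ∈ N.loc (Hs 0 0), inner ℂ ((r 0).Ψ X) x = inner ℂ ((r 0).Ψ X) y) →
      x = y := fun {x y} e => ext_inner_left ℂ fun u => (r 0).dense.induction_on
        (p := fun u => inner ℂ u x = inner ℂ u y) u (isClosed_eq (by fun_prop) (by fun_prop))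
        fun X => e X X.2
  have key := sym_induction (N := N) (p := fun X => ∀ᶠ t in atTop,
    inner ℂ ((r 0).Ψ (N.τ (ax 0 t) X)) x = conj (S' X) * inner ℂ ((r 0).Ψ 1) x)
    (fun c X e => e.mono fun t e => by simp [e, mul_comm, mul_left_comm])
    (fun X Y e e' => (e.and e').mono fun t e => by simp [e.1, e.2, add_mul])
    (fun U hU hΘ => ?_) fun U hU μ e e' => ?_
  · refine ext fun X hX => ?_
    obtain ⟨t, e1, e2⟩ := ((key X (adm hX)).and (eventually_ge_atTop 0)).exists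
    have e3 : 0 ≤ ax 0 t 0 := by simpa
    rw [← (r 0).act e3 hX, (r 0).adj hS e3, hx _ (by simpa)] at e1
    rw [e1, inner_smul_right, ← (r 0).vac hX, inner_conj_symm, mul_comm]
  · obtain ⟨R, c, hQ⟩ := hA U hU
    obtain ⟨Y, z, h⟩ := exists_avg r hQ.1 hQ.2.1
    have e1 : ∀ Z ∈ N.loc univ, Tendsto (fun n => S' (Z * Y n)) atTop (𝓝 (WW S' Y 1 Z)) :=
      fun Z hZ => by simpa [N.τ_zero, WW] using h.limA hS hQ hΘ hA 0 _ (h.gd_tau 0) Z hZ
    have e2 : ∀ X ∈ N.loc (Hs 0 0), inner ℂ ((r 0).Ψ X) (z 0) = WW S' Y 1 (N.Θ 0 X) := fun X hX =>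
      tendsto_nhds_unique_of_eventuallyEq (tendsto_const_nhds.inner (h.lim0 0))
        (e1 _ (Θ_adm 0 hX)) ((h.far0 0).mono fun n e => (r 0).inn hX e)
    have e3 : WW S' Y 1 1 = S' U := by rw [← h.vac hS 0, e2 1 (N.one _), map_one]
    have e4 := h3 (fun X => WW S' Y 1 X) c ⟨fun X X' => tendsto_nhds_unique (e1 _ (X + X').2) (by
      simpa [add_mul] using (e1 _ X.2).add (e1 _ X'.2)), fun a X => tendsto_nhds_unique
        (e1 _ (a • X).2) (by simpa using (e1 _ X.2).const_mul a)⟩ (by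
      rw [e3, ← Complex.conj_eq_iff_im, ← hS.herm 0 hU, hΘ])
      fun μ m Z s s' R hB => h.tilt hS hQ hΘ hA h2 μ m _ s s' R (fun j => (Z j).2) hB
    have e5 : z 0 = S' U • (r 0).Ψ 1 := ext fun X hX => by
      rw [e2 X hX, inner_smul_right, (r 0).inn hX (N.one _), mul_one, ← e3]
      exact e4 ⟨_, Θ_adm 0 hX⟩
    filter_upwards [eventually_ge_atTop R] with t ht
    rw [h.inner_inv hS hx (by simpa), e5, inner_smul_left]
  · obtain ⟨R, c, hQ⟩ := hA U hU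
    obtain ⟨Y, z, h⟩ := exists_avg r hQ.1 hQ.2.1
    filter_upwards [eventually_ge_atTop R] with t ht
    rw [h.inner_inv hS hx (by simpa), ← h.vac hS 0, h.anti hS e e']
    simp

end Net

end Pool.Agent.Lib.MP_7f377f_mp.Pur
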