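import Pool.Agent.Lib.MP_7f377f_mp.G.LgDefs

/-! Rotation invariance from diagonal reflection positivity: definitions and elementary facts. -/

noncomputable section

namespace Pool.Agent.Lib.MP_7f377f_mp.Ro
variable [Pool.Agent.Lib.MP_7f377f_mp.GD]
set_option linter.unusedSectionVars false

open Filter Topology Set Real YM7 Pur MvPolynomial
open scoped NNReal

/-- linear isometries -/
abbrev Iso : Type := R4 ≃ₗᵢ[ℝ] R4

/-- the action on polynomials -/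
def act (g : Iso) : Pol →ₐ[ℂ] Pol := rename fun f y => f (g.symm y)

/-- the transformed functional -/
def cmp (W : Pol →ₗ[ℂ] ℂ) (g : Iso) : Pol →ₗ[ℂ] ℂ := W ∘ₗ (act g).toLinearMap

/-- rotation in the plane `(0, l + 1)` -/
def rv (l : Fin 3) (φ : ℝ) (y : R4) : R4 := WithLp.toLp 2 fun i =>
  if i = 0 then cos φ * y 0 - sin φ * y l.succ
  else if i = l.succ then sin φ * y 0 + cos φ * y l.succ else y i

theorem rv_rv (l : Fin 3) (φ ψ : ℝ) (y : R4) : rv l φ (rv l ψ y) = rv l (φ + ψ) y := by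
  ext i
  simp only [rv, if_true, Fin.succ_ne_zero, if_false, cos_add, sin_add]
  split_ifs <;> ring

theorem rv_zero (l : Fin 3) (y : R4) : rv l 0 y = y := by
  ext i
  simp only [rv, cos_zero, sin_zero]
  split_ifs with h h' <;> simp [*]

/-- rotation in the plane `(0, l + 1)` as an isometry -/
def rot (l : Fin 3) (φ : ℝ) : Iso where
  toFun := rv l φ
  invFun := rv l (-φ)
  map_add' x y := by
    ext i
    simp only [rv, PiLp.add_apply]
    split_ifs <;> ring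
  map_smul' c x := by
    ext i
    simp only [rv, PiLp.smul_apply, smul_eq_mul, RingHom.id_apply]
    split_ifs <;> ring
  left_inv y := by rw [rv_rv, neg_add_cancel, rv_zero]
  right_inv y := by rw [rv_rv, add_neg_cancel, rv_zero]
  norm_map' y := by
    change ‖rv l φ y‖ = _
    rw [EuclideanSpace.norm_eq, EuclideanSpace.norm_eq]
    congr 1
    have := sin_sq_add_cos_sq φ
    fin_cases l <;> simp [rv, Fin.sum_univ_four] <;>
      first
      | linear_combination (y 0 ^ 2 + y 1 ^ 2) * this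
      | linear_combination (y 0 ^ 2 + y 2 ^ 2) * this
      | linear_combination (y 0 ^ 2 + y 3 ^ 2) * this

/-- permutation of the axes -/
def prm (σ : Equiv.Perm (Fin 4)) : Iso := LinearIsometryEquiv.piLpCongrLeft 2 ℝ ℝ σ

/-- invariance -/
def Inv (W : Pol →ₗ[ℂ] ℂ) (g : Iso) : Prop := ∀ Z ∈ net.loc univ, W (act g Z) = W Z

/-- invariance of the `k` point function -/
def InvN (W : Pol →ₗ[ℂ] ℂ) (k : ℕ) (g : Iso) : Prop :=
  ∀ f : Fin k → R4 → ℝ, Adm f → W (act g (mon f)) = W (mon f)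

/-- test functions in a thin box -/
def Tn (δ R : ℝ) (L : ℝ≥0) (u : R4 → ℝ) : Prop := HasCompactSupport u ∧ ContDiff ℝ 1 u ∧
  LipschitzWith L u ∧ ∀ y ∈ tsupport u, |y 0| < δ ∧ |y 1| < δ ∧ ‖y‖ ≤ R

/-- the operator bound for thin boxes, on a quadrant -/
def ThinQ (W : Pol →ₗ[ℂ] ℂ) : Prop := ∃ c ≥ 1, ∃ δ : ℕ → ℝ, Tendsto δ atTop (𝓝[>] 0) ∧
  ∀ R, ∃ R', ∀ ε > 0, ∀ᶠ n in atTop, ∀ u L, Tn (δ n) R L u → ∀ b ∈ net.loc (Hs 0 0 ∩ Hs 2 R'),
    net.nq W 0 (net.τ (ax 0 (c * δ n)) (X u * net.τ (ax 0 (c * δ n)) b)) ≤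
      (ε * L / δ n) ^ 2 * net.nq W 0 b

/-- the hypotheses in one frame -/
structure H0 (W : Pol →ₗ[ℂ] ℂ) : Prop where
  st : net.St W
  lin : LinP W
  qual : Lg.Qual W
  dg : ∀ l, net.St (cmp W (rot l (π / 4)))
  thin : ThinQ W

/-- the hypotheses in all frames -/
def HH (W : Pol →ₗ[ℂ] ℂ) : Prop := ∀ σ, H0 (cmp W (prm σ))

/-- reflection positivity for the exchange of the axes `0` and `1` -/
def SwapRP (W : Pol →ₗ[ℂ] ℂ) : Prop := ∀ Z ∈ net.loc {y | y 1 < y 0},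
  0 ≤ (W (act (prm (Equiv.swap 0 1)) (map (starRingEnd ℂ) Z) * Z)).re

/-- narrow forward cones -/
def Cz (m : ℝ) : Set R4 := {y | 4 * |y 1| + m < y 0}

/-- families which are ordered by the cone -/
def Ord {k : ℕ} (f : Fin k → R4 → ℝ) : Prop := Adm f ∧ (∀ i, tsupport (f i) ⊆ Cz 8) ∧
  ∀ i j, i < j → ∀ x ∈ tsupport (f i), ∀ y ∈ tsupport (f j), y - x ∈ Cz 8

/-- the direction of separation -/
def ell : R4 := WithLp.toLp 2 ![8, 1, 1, 1]

/-- invariance for families which are far apart -/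
def Far (W : Pol →ₗ[ℂ] ℂ) (k : ℕ) : Prop := ∀ f : Fin k → R4 → ℝ, Adm f → ∃ T : ℝ,
  ∀ s : Fin k → ℝ, (∀ i j, i ≠ j → T ≤ |s i - s j|) → ∀ φ : ℝ, |φ| < 1 →
    W (act (rot 0 φ) (mon fun i y => f i (y - s i • ell))) = W (mon fun i y => f i (y - s i • ell))

/-- sums of thin radial functions which are centred near `K` -/
def Atm (δ R A : ℝ) (K : Set R4) (F : R4 → ℝ) : Prop :=
  ∃ (N : ℕ) (w : Fin N → ℝ) (a : Fin N → R4) (u : Fin N → R4 → ℝ), (∀ i, 0 ≤ w i) ∧ ∑ i, w i ≤ 1 ∧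
    (∀ i, a i 2 = 0 ∧ a i 3 = 0 ∧ (∃ x ∈ K, |a i 0 - x 0| ≤ 1 / 4 ∧ |a i 1 - x 1| ≤ 1 / 4) ∧
      (∃ L : ℝ≥0, L ≤ A / δ ^ 3 ∧ Tn δ R L (u i)) ∧ ∀ φ y, u i (rot 0 φ y) = u i y) ∧
    F = ∑ i, w i • fun y => u i (y - a i)

section
variable {W : Pol →ₗ[ℂ] ℂ} {H : Type} [NormedAddCommGroup H] [InnerProductSpace ℂ H]
  (r : net.Rep W 0 H)

/-- the translations in the plane `(0, l + 1)` at complex points -/
structure Cone (l : Fin 3) (θ : ℝ) (A : ℂ × ℂ → H →L[ℂ] H) : Prop where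
  diff : DifferentiableOn ℂ A {z | |z.2.im| < θ * z.1.re}
  nrm : ∀ z : ℂ × ℂ, |z.2.im| < θ * z.1.re → ‖A z‖ ≤ 1
  real : ∀ t s : ℝ, 0 < t → A (t, s) = r.T (ax 0 t + ax l.succ s)

/-- `M` is the operator of the field `u` with margins `m` -/
def Fop (m : ℝ) (u : R4 → ℝ) (M : H →L[ℂ] H) : Prop :=
  ∀ b ∈ net.loc (Hs 0 0), M (r.Ψ b) = r.Ψ (net.τ (ax 0 m) (X u * net.τ (ax 0 m) b))

/-- small operators for thin boxes -/
def ThinO (c : ℝ) (δ : ℕ → ℝ) : Prop := ∀ R, ∀ ε > 0, ∀ᶠ n in atTop, ∀ u L, Tn (δ n) R L u →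
  ∃ M, Fop r (c * δ n) u M ∧ ‖M‖ ≤ ε * L / δ n

/-- continuation to complex angles -/
def Ext (Y β : ℝ) (Z : Pol) : Prop := ∃ V : ℂ → H,
  DifferentiableOn ℂ V {z | |z.re| < 1 ∧ |z.im| < Y} ∧
  (∀ z : ℂ, |z.re| < 1 ∧ |z.im| < Y → ‖V z‖ ≤ β) ∧
  ∀ φ : ℝ, |φ| < 1 → V φ = r.Ψ (act (rot 0 φ) Z)

/-- approximation by vectors with slowly growing continuations -/
def App (Y : ℕ → ℝ) (Z : Pol) : Prop := ∀ ε > 0, ∀ᶠ n in atTop, ∃ Z' ∈ net.loc (Cz 0),
  Ext r (Y n) (ε * exp (4 * Y n)) Z' ∧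
    ∀ φ : ℝ, |φ| < 1 → ‖r.Ψ (act (rot 0 φ) Z') - r.Ψ (act (rot 0 φ) Z)‖ ≤ ε

end

variable {k : ℕ} {g g' : Iso} {W : Pol →ₗ[ℂ] ℂ} {Z : Pol} {O : Set R4} {l : Fin 3} {φ : ℝ}

@[simp] theorem cmp_apply (W : Pol →ₗ[ℂ] ℂ) (g : Iso) (Z : Pol) : cmp W g Z = W (act g Z) := rfl

theorem act_X (g : Iso) (f : R4 → ℝ) : act g (X f) = X fun y => f (g.symm y) := rename_X _ _

theorem act_mon (g : Iso) (f : Fin k → R4 → ℝ) : act g (mon f) = mon fun i y => f i (g.symm y) :=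
  rename_mon _ f

theorem act_act (g g' : Iso) (Z : Pol) : act g (act g' Z) = act (g * g') Z := by
  simp only [act, rename_rename]
  rfl

@[simp] theorem act_one (Z : Pol) : act 1 Z = Z := rename_id_apply Z

theorem cmp_cmp (W : Pol →ₗ[ℂ] ℂ) (g g' : Iso) : cmp (cmp W g) g' = cmp W (g * g') :=
  LinearMap.ext fun Z => congrArg W (act_act g g' Z)

theorem cmp_one (W : Pol →ₗ[ℂ] ℂ) : cmp W 1 = W := LinearMap.ext fun Z => congrArg W (act_one Z)

theorem act_τ (g : Iso) (v : R4) (Z : Pol) : act g (net.τ v Z) = net.τ (g v) (act g Z) := by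
  simp only [act, net, rename_rename, Function.comp_def, map_sub, g.symm_apply_apply]

theorem adm_act {f : Fin k → R4 → ℝ} (hf : Adm f) (g : Iso) : Adm fun i y => f i (g.symm y) :=
  hf.comp g.symm.toHomeomorph g.symm.contDiff

theorem act_mem (g : Iso) (h : Z ∈ net.loc O) : act g Z ∈ net.loc {y | g.symm y ∈ O} :=
  span_map (map_add _) (fun c X => ⟨c, map_smul _ c X⟩) (fun _ ⟨k, f, h1, h2, h3⟩ =>
    ⟨k, _, adm_act h1 g, fun i _ hy => h2 i (tsupport_comp g.symm.continuous hy),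
      by rw [← h3, act_mon]⟩) h

theorem act_adm (g : Iso) (h : Z ∈ net.loc O) : act g Z ∈ net.loc univ := Net.adm (act_mem g h)

theorem Θ_act {μ ν : Fin 4} (h : ∀ y, rf μ (g y) = g' (rf ν y)) (Z : Pol) :
    net.Θ μ (act g Z) = act g' (net.Θ ν Z) := by
  have e : ∀ y, g.symm (rf μ y) = rf ν (g'.symm y) := fun y => by
    rw [g.symm_apply_eq, ← rf_rf μ (g _), h, rf_rf, g'.apply_symm_apply]
  simp only [act, net, thP, RingHom.comp_apply, map_rename, AlgHom.toRingHom_eq_coe,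
    RingHom.coe_coe, rename_rename, Function.comp_def, e]

theorem rot_apply (l : Fin 3) (φ : ℝ) (y : R4) : rot l φ y = rv l φ y := rfl

theorem rot_zero' (l : Fin 3) (φ : ℝ) (y : R4) :
    rot l φ y 0 = cos φ * y 0 - sin φ * y l.succ := by simp [rot_apply, rv]

theorem rot_succ (l : Fin 3) (φ : ℝ) (y : R4) :
    rot l φ y l.succ = sin φ * y 0 + cos φ * y l.succ := by simp [rot_apply, rv]

theorem rot_ne {i : Fin 4} (h0 : i ≠ 0) (h1 : i ≠ l.succ) (φ : ℝ) (y : R4) :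
    rot l φ y i = y i := by simp [rot_apply, rv, h0, h1]

theorem rot_mul (l : Fin 3) (φ ψ : ℝ) : rot l φ * rot l ψ = rot l (φ + ψ) :=
  LinearIsometryEquiv.ext (rv_rv l φ ψ)

@[simp] theorem rot_zero (l : Fin 3) : rot l 0 = 1 := LinearIsometryEquiv.ext (rv_zero l)

theorem rot_symm (l : Fin 3) (φ : ℝ) : (rot l φ).symm = rot l (-φ) :=
  LinearIsometryEquiv.ext fun _ => rfl

theorem rf_rot (l : Fin 3) (φ : ℝ) (y : R4) : rf 0 (rot l φ y) = rot l (-φ) (rf 0 y) := by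
  ext i
  by_cases h : i = 0
  · rw [h, rf_self, rot_zero', rot_zero', rf_self, rf_ne (Fin.succ_ne_zero l), cos_neg, sin_neg]
    ring
  by_cases h' : i = l.succ
  · rw [rf_ne h, h', rot_succ, rot_succ, rf_self, rf_ne (Fin.succ_ne_zero l), cos_neg, sin_neg]
    ring
  · rw [rf_ne h, rot_ne h h', rot_ne h h', rf_ne h]

theorem Θ_rot (l : Fin 3) (φ : ℝ) (Z : Pol) :
    net.Θ 0 (act (rot l φ) Z) = act (rot l (-φ)) (net.Θ 0 Z) := Θ_act (rf_rot l φ) Z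

theorem prm_apply (σ : Equiv.Perm (Fin 4)) (y : R4) (i : Fin 4) : prm σ y i = y (σ.symm i) := by
  simp [prm, LinearIsometryEquiv.piLpCongrLeft_apply, Equiv.piCongrLeft'_apply]

theorem prm_mul (σ σ' : Equiv.Perm (Fin 4)) : prm σ * prm σ' = prm (σ * σ') := by
  ext y i
  simp [prm_apply, Equiv.Perm.mul_def]

theorem prm_one : prm 1 = 1 := by
  ext y i
  simp [prm_apply, Equiv.Perm.one_def]

theorem HH.h0 (h : HH W) : H0 W := by simpa only [prm_one, cmp_one] using h 1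

theorem HH.prm (h : HH W) (σ : Equiv.Perm (Fin 4)) : HH (cmp W (prm σ)) := fun σ' => by
  rw [cmp_cmp, prm_mul]
  exact h _

theorem Cz.mono {m m' : ℝ} (h : m ≤ m') : Cz m' ⊆ Cz m := fun _ hy =>
  (add_le_add_right h _).trans_lt hy

theorem rot_cz {m : ℝ} {y : R4} (hm : 0 ≤ m) (hy : y ∈ Cz m) (hφ : |φ| < 1) :
    y 0 / 4 + m / 4 < rot 0 φ y 0 := by
  have h1 : 1 / 2 ≤ cos φ := by
    nlinarith [one_sub_sq_div_two_le_cos (x := φ), sq_abs φ, abs_nonneg φ]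
  have h2 : sin φ * y 1 ≤ |y 1| := (le_abs_self _).trans
    ((abs_mul _ _).trans_le (mul_le_of_le_one_left (abs_nonneg _) (abs_sin_le_one φ)))
  have h3 : 4 * |y 1| + m < y 0 := hy
  rw [rot_zero']
  change _ < _ - sin φ * y 1
  nlinarith [abs_nonneg (y 1)]

theorem act_cz (h : Z ∈ net.loc (Cz 0)) (hφ : |φ| < 1) : act (rot 0 φ) Z ∈ net.loc (Hs 0 0) :=
  net.mono (act_mem _ h) fun y hy => by
    have h1 := rot_cz le_rfl hy hφ
    have h2 : 4 * |(rot 0 φ).symm y 1| + 0 < (rot 0 φ).symm y 0 := hy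
    rw [LinearIsometryEquiv.apply_symm_apply] at h1
    change 0 < y 0
    linarith [abs_nonneg ((rot 0 φ).symm y 1)]

theorem Inv.of_mon (h : ∀ k, InvN W k g) : Inv W g := fun Z hZ => by
  obtain ⟨m, c, k, f, f1, -, rfl⟩ := PN.exists_sum hZ
  simp only [map_sum, map_smul, h _ _ (f1 _)]

theorem Inv.mul (h : Inv W g) (h' : Inv W g') : Inv W (g * g') := fun Z hZ => by
  rw [← act_act, h _ (act_adm _ hZ), h' _ hZ]

/-- quarter turns are free -/
theorem H0.quarter (h : H0 W) (l : Fin 3) : Inv W (rot l (π / 2)) := fun Z hZ => by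
  have h1 := (h.dg l).herm 0 (act_adm (rot l (-(π / 4))) (Net.Θ_adm 0 hZ))
  rw [cmp_apply, cmp_apply, Θ_rot, net.Θ_Θ, neg_neg, act_act, act_act, rot_mul, rot_mul,
    show π / 4 + π / 4 = π / 2 by ring, add_neg_cancel, rot_zero, act_one, h.st.herm 0 hZ, Complex.conj_conj] at h1
  exact h1

end Pool.Agent.Lib.MP_7f377f_mp.Ro
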