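import Pool.Agent.Lib.MP_7f377f_mp.G.LgFin
import Pool.Agent.Lib.MP_7f377f_mp.G.LgPI

/-! All Osterwalder-Schrader axioms for a rotation invariant functional. -/

noncomputable section

namespace Pool.Agent.Lib.MP_7f377f_mp.Lg
variable [Pool.Agent.Lib.MP_7f377f_mp.GD]
set_option linter.unusedSectionVars false

open Filter Topology Set YM7 Pur Ro PI Matrix

variable {S W : Pol →ₗ[ℂ] ℂ} {Y Z : Pol} {a : R4}

theorem cluster_gen (hS : net.St W) (hu : Vac W) (a0 : 0 < a 0) (ha : ∀ μ, a μ ≠ 0)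
    (hY : Y ∈ net.loc univ) (hZ : Z ∈ net.loc univ) :
    (∀ᶠ t : ℝ in atTop, Y * net.τ (t • a) Z ∈ net.loc univ) ∧
      Tendsto (fun t : ℝ => W (Y * net.τ (t • a) Z)) atTop (𝓝 (W Y * W Z)) := by
  obtain ⟨R, h1, h2⟩ := ((Net.box hY).and (Net.box hZ)).exists
  replace h1 := net.mono h1 inter_subset_right
  replace h2 := net.mono h2 inter_subset_right
  obtain ⟨s, hs⟩ : ∃ s, s * a 0 = R := ⟨_, div_mul_cancel₀ _ a0.ne'⟩
  have m1 : net.Θ 0 (net.τ (-(s • a)) Y) ∈ net.loc (Hs 0 0) := by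
    rw [net.Θ_τ]
    exact Net.τ_hs (Net.bx_hs (Net.Θ_bx h1 0) 0) (by simp [hs])
  have m2 : net.τ (s • a) Z ∈ net.loc (Hs 0 0) := Net.τ_hs (Net.bx_hs h2 0) (by simp [hs])
  have e : ∀ t : ℝ, Y * net.τ (t • a) Z = net.τ (s • a) (net.Θ 0 (net.Θ 0 (net.τ (-(s • a)) Y)) *
      net.τ ((t + -(2 * s)) • a) (net.τ (s • a) Z)) := fun t => by
    rw [net.Θ_Θ, map_mul, net.τ_τ, net.τ_τ, net.τ_τ, add_neg_cancel, net.τ_zero]
    congr 3
    module
  have m3 : ∀ᶠ t : ℝ in atTop, net.Θ 0 (net.Θ 0 (net.τ (-(s • a)) Y)) *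
      net.τ ((t + -(2 * s)) • a) (net.τ (s • a) Z) ∈ net.loc univ :=
    (eventually_ge_atTop (2 * s)).mono fun t ht => Net.rp_adm m1 (Net.τ_hs m2 (by
      simpa [sub_eq_add_neg] using mul_nonneg (sub_nonneg.2 ht) a0.le))
  refine ⟨m3.mono fun t ht => e t ▸ Net.τ_adm _ ht, ?_⟩
  have := (cluster hS hu a0 ha m1 m2).comp (tendsto_atTop_add_const_right _ (-(2 * s)) tendsto_id)
  rw [net.Θ_Θ, hS.ti _ hY, hS.ti _ hZ] at this
  refine this.congr' (m3.mono fun t ht => ?_)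
  beta_reduce
  rw [e, hS.ti _ ht, net.Θ_Θ]
  rfl

theorem exists_gen (ha : a ≠ 0) : ∃ g : Iso, dt g = 1 ∧ 0 < g a 0 ∧ ∀ μ, g a μ ≠ 0 := by
  have h0 : 0 < ‖a‖ / 2 := by positivity
  by_cases h : a = dg (‖a‖ / 2)
  · exact ⟨1, dt_one, by rw [h]; exact h0, fun μ => by rw [h]; exact h0.ne'⟩
  have e : rn (a - dg (‖a‖ / 2)) a = dg (‖a‖ / 2) := Submodule.reflection_sub (by
    rw [EuclideanSpace.norm_eq (dg _)]
    simp only [dg_apply, Finset.sum_const, Finset.card_univ, Fintype.card_fin, Real.norm_eq_abs,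
      sq_abs, nsmul_eq_mul]
    exact (Real.sqrt_eq_iff_mul_self_eq (by positivity) (norm_nonneg _)).2 (by push_cast; ring)
      |>.symm)
  refine ⟨rfL 1 * rn (a - dg (‖a‖ / 2)), ?_, ?_, fun μ => ?_⟩
  · rw [dt_mul, ← rn_ax 1 one_ne_zero, dt_rn (sub_ne_zero.2 h), dt_rn (by simp)]
    norm_num
  · rw [LinearIsometryEquiv.coe_mul, Function.comp, e, rfL_eq, rf_ne zero_ne_one]
    exact h0
  · rw [LinearIsometryEquiv.coe_mul, Function.comp, e, rfL_eq, ← abs_pos, abs_rf, abs_pos]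
    exact h0.ne'

theorem cluster_all (hS : net.St W) (hu : Vac W) (hR : Rot W) (ha : a ≠ 0)
    (hY : Y ∈ net.loc univ) (hZ : Z ∈ net.loc univ) :
    Tendsto (fun t : ℝ => W (Y * net.τ (t • a) Z)) atTop (𝓝 (W Y * W Z)) := by
  obtain ⟨g, g1, g2, g3⟩ := exists_gen ha
  have i := rot_iff.1 hR g g1
  obtain ⟨h1, h2⟩ := cluster_gen hS hu g2 g3 (act_adm g hY) (act_adm g hZ)
  rw [i _ hY, i _ hZ] at h2
  refine h2.congr' (h1.mono fun t ht => ?_)
  have e : act g Y * net.τ (t • g a) (act g Z) = act g (Y * net.τ (t • a) Z) := by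
    rw [map_mul, act_τ, map_smul]
  have := act_adm g⁻¹ ht
  rw [e, act_act, inv_mul_cancel, act_one] at this
  simp only [e, i _ this]

theorem exists_iso {A : Matrix (Fin 4) (Fin 4) ℝ} (hA : A ∈ specialOrthogonalGroup (Fin 4) ℝ) :
    ∃ g : Iso, dt g = 1 ∧ ∀ y i, g y i = ∑ j, A i j * y j := by
  obtain ⟨h1, h2⟩ := mem_specialOrthogonalGroup_iff.1 hA
  refine ⟨((toEuclideanLin A).isometryOfInner fun x y => ?_).toLinearIsometryEquiv rfl,
    (LinearMap.det_toLpLin 2 A).trans h2, fun y i => rfl⟩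
  simp only [EuclideanSpace.inner_eq_star_dotProduct, star_trivial, toLpLin_apply]
  rw [dotProduct_mulVec, vecMul_mulVec, (mem_orthogonalGroup_iff' _ _).1 h1, vecMul_one]

theorem Inp.pure_rot (h : Inp S) (hR : Rot S) :
    ∃ W : Pol →ₗ[ℂ] ℂ, W 1 = 1 ∧ net.Dom S W ∧ Vac W ∧ Rot W := Lg.pure_rot h.st h.all hR

theorem Inp.schwinger_rot (h : Inp W) (hW : Vac W) (hR : Rot W) :
    Schwinger (fun y : R4 => y 0) (fun y => WithLp.toLp 2 (Function.update y 0 (-y 0)))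
      {g | ∃ A ∈ specialOrthogonalGroup (Fin 4) ℝ, ∃ v : R4, ∀ y i, g y i = ∑ j, A i j * y j + v i}
      {v | 0 ≤ v 0 ∧ v ≠ 0} (fun _ => Adm) fun _ f => W (fld f) := by
  have key : ∀ g ∈ {g : R4 → R4 | ∃ A ∈ specialOrthogonalGroup (Fin 4) ℝ, ∃ v : R4,
      ∀ y i, g y i = ∑ j, A i j * y j + v i}, (∃ e : R4 ≃ᵃⁱ[ℝ] R4, ⇑e = g) ∧
      ∀ k (f : Fin k → R4 → ℝ), Adm f → W (mon fun i y => f i (g y)) = W (mon f) := by
    rintro g ⟨A, hA, v, e⟩
    obtain ⟨u, u1, u2⟩ := exists_iso hA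
    obtain rfl : g = fun y => u y + v := funext fun y => PiLp.ext fun i => by
      rw [e, PiLp.add_apply, u2]
    refine ⟨⟨u.toAffineIsometryEquiv.trans (AffineIsometryEquiv.vaddConst ℝ v), rfl⟩,
      fun k f hf => ?_⟩
    have e1 := hR u u1 k _ (adm_sub hf (-v))
    have e2 := h.st.ti (-v) (mon_mem hf fun _ => subset_univ _)
    simp only [τ_mon, sub_neg_eq_add] at e1 e2
    exact e1.trans e2
  exact schwinger_of (fun g hg => (key g hg).1) (h.os key fun a ha => ⟨ha.1, fun Y hY Z hZ =>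
    cluster_all h.st hW hR ha.2 (Net.Θ_adm 0 hY) (Net.adm hZ)⟩)

end Pool.Agent.Lib.MP_7f377f_mp.Lg
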