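import Pool.Agent.Lib.MP_7f377f_mp.G.YM5Defs

/-! Riemann sums of continuously convergent families of lattice functions. -/

noncomputable section

namespace Pool.Agent.Lib.MP_7f377f_mp.YM5
variable [GD]

open MeasureTheory Filter Topology Set

variable {k : ℕ}

theorem tendsto_of_seq {F : ℝ → ℝ} {a : ℝ} (h : ∀ ε : ℕ → ℝ, (∀ n, 0 < ε n) →
    Tendsto ε atTop (𝓝 0) → Tendsto (fun n => F (ε n)) atTop (𝓝 a)) :
    Tendsto F (𝓝[>] 0) (𝓝 a) := by
  refine tendsto_iff_seq_tendsto.2 fun u hu => ?_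
  have e : ∀ᶠ n in atTop, (if 0 < u n then u n else 1) = u n :=
    (hu.eventually self_mem_nhdsWithin).mono fun n (hn : 0 < u n) => if_pos hn
  refine (h (fun n => if 0 < u n then u n else 1) (fun n => ?_)
    ((hu.mono_right nhdsWithin_le_nhds).congr' (e.mono fun n hn => hn.symm))).congr'
    (e.mono fun n hn => congrArg F hn)
  split_ifs with h
  exacts [h, one_pos]

/-- corner of the lattice cube containing a point -/
def fl (ε : ℝ) (y : Fin k → R4) (i : Fin k) (l : Fin 4) : ℤ := ⌊y i l / ε⌋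

theorem measurable_fl (ε : ℝ) : Measurable (fl (k := k) ε) :=
  measurable_pi_lambda _ fun i => measurable_pi_lambda _ fun l =>
    Measurable.floor (Measurable.div_const (by fun_prop) _)

theorem fl_near {ε : ℝ} (hε : 0 < ε) (y : Fin k → R4) (i : Fin k) (l : Fin 4) :
    |ε * fl ε y i l - y i l| ≤ ε := by
  have h1 := (le_div_iff₀ hε).1 (Int.floor_le (y i l / ε))
  have h2 := (div_lt_iff₀ hε).1 (Int.lt_floor_add_one (y i l / ε))
  rw [fl, abs_le]
  constructor <;> linarith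

theorem volume_fl {ε : ℝ} (hε : 0 < ε) (z : Fin k → Fin 4 → ℤ) :
    volume (fl ε ⁻¹' {z}) = ENNReal.ofReal (ε ^ (4 * k)) := by
  have e : fl ε ⁻¹' {z} = univ.pi fun i => WithLp.ofLp ⁻¹'
      (univ.pi fun l => Ico (z i l * ε) ((z i l + 1) * ε)) := by
    ext y
    simp only [mem_preimage, mem_singleton_iff, funext_iff, fl, Int.floor_eq_iff, Set.mem_pi, mem_univ,
      true_imp_iff, mem_Ico, le_div_iff₀ hε, div_lt_iff₀ hε]
  rw [e, volume_pi_pi]
  have : ∀ i, volume ((WithLp.ofLp : R4 → Fin 4 → ℝ) ⁻¹'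
      (univ.pi fun l => Ico (z i l * ε) ((z i l + 1) * ε))) = ENNReal.ofReal (ε ^ 4) := by
    intro i
    rw [(PiLp.volume_preserving_ofLp (Fin 4)).measure_preimage
      (MeasurableSet.univ_pi fun _ => measurableSet_Ico).nullMeasurableSet, Real.volume_pi_Ico]
    simp only [add_mul, one_mul, add_sub_cancel_left, Finset.prod_const, Finset.card_univ,
      Fintype.card_fin, ENNReal.ofReal_pow hε.le]
  simp only [this, Finset.prod_const, Finset.card_univ, Fintype.card_fin, pow_mul,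
    ENNReal.ofReal_pow (pow_pos hε 4).le]

theorem integral_fl {ε : ℝ} (hε : 0 < ε) (g : (Fin k → Fin 4 → ℤ) → ℝ)
    (hg : Integrable fun y => g (fl ε y)) : ∫ y, g (fl ε y) = ε ^ (4 * k) * ∑' z, g z := by
  have hm := (measurable_fl (k := k) ε).aemeasurable (μ := volume)
  have h0 : AEStronglyMeasurable g (Measure.map (fl ε) volume) :=
    (Measurable.of_discrete (f := g)).aestronglyMeasurable
  rw [← integral_map hm h0, integral_countable ((integrable_map_measure h0 hm).2 hg),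
    ← tsum_mul_left]
  refine tsum_congr fun z => ?_
  rw [Measure.real, Measure.map_apply (measurable_fl ε) (measurableSet_singleton z), volume_fl hε,
    ENNReal.toReal_ofReal (pow_pos hε _).le, smul_eq_mul]

theorem compact_cube (R : ℝ) : IsCompact {y : Fin k → R4 | ∀ i l, |y i l| ≤ R} := by
  have e : {y : Fin k → R4 | ∀ i l, |y i l| ≤ R} = (fun w i => WithLp.toLp 2 (w i)) ''
      Icc (fun _ _ => -R : Fin k → Fin 4 → ℝ) fun _ _ => R := by
    ext y
    constructor
    · intro h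
      exact ⟨fun i l => y i l, ⟨fun i l => (abs_le.1 (h i l)).1, fun i l => (abs_le.1 (h i l)).2⟩,
        rfl⟩
    · rintro ⟨w, hw, rfl⟩ i l
      exact abs_le.2 ⟨hw.1 i l, hw.2 i l⟩
  rw [e]
  exact isCompact_Icc.image (by fun_prop)

theorem riemann (g : ℝ → (Fin k → Fin 4 → ℤ) → ℝ) (Φ : (Fin k → R4) → ℝ) (R : ℝ)
    (hg : ∀ (y : Fin k → R4) (ε : ℕ → ℝ) (z : ℕ → Fin k → Fin 4 → ℤ), (∀ n, 0 < ε n) →
      Tendsto ε atTop (𝓝 0) → (∀ i l, Tendsto (fun n => ε n * z n i l) atTop (𝓝 (y i l))) →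
      Tendsto (fun n => g (ε n) (z n)) atTop (𝓝 (Φ y)))
    (hs : ∀ ε z, 0 < ε → g ε z ≠ 0 → ∀ i l, |ε * z i l| ≤ R) :
    Tendsto (fun ε => ε ^ (4 * k) * ∑' z, g ε z) (𝓝[>] 0) (𝓝 (∫ y, Φ y)) ∧ Integrable Φ := by
  obtain ⟨N, hN⟩ : ∃ N : ℕ, ∀ ε z, 0 < ε → ε < 1 / (N + 1 : ℝ) → |g ε z| ≤ N := by
    by_contra hc
    push Not at hc
    choose ε z h0 h1 h2 using hc
    have hz : ∀ n i l, |ε n * z n i l| ≤ R := fun n =>
      hs _ _ (h0 n) (abs_pos.1 ((Nat.cast_nonneg n).trans_lt (h2 n)))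
    obtain ⟨y, -, φ, hφ, hy⟩ := (compact_cube (k := k) R).tendsto_subseq
      (x := fun n i => WithLp.toLp 2 fun l => ε n * z n i l) hz
    have h3 : Tendsto ε atTop (𝓝 0) :=
      squeeze_zero (fun n => (h0 n).le) (fun n => (h1 n).le) tendsto_one_div_add_atTop_nhds_zero_nat
    have h4 := (hg y (ε ∘ φ) (z ∘ φ) (fun n => h0 _) (h3.comp hφ.tendsto_atTop) fun i l =>
      ((show Continuous fun w : Fin k → R4 => w i l by fun_prop).tendsto y).comp hy).abs
    refine not_tendsto_atTop_of_tendsto_nhds h4 (tendsto_atTop_mono (fun n => (h2 (φ n)).le) ?_)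
    exact tendsto_natCast_atTop_atTop.comp hφ.tendsto_atTop
  have hK := compact_cube (k := k) (R + 1)
  have hb : Integrable ({y : Fin k → R4 | ∀ i l, |y i l| ≤ R + 1}.indicator fun _ => (N : ℝ)) :=
    (integrable_indicator_iff hK.measurableSet).2 (integrableOn_const hK.measure_lt_top.ne)
  have hm : ∀ ε, AEStronglyMeasurable (fun y : Fin k → R4 => g ε (fl ε y)) volume := fun ε =>
    ((Measurable.of_discrete (f := g ε)).comp (measurable_fl ε)).aestronglyMeasurable
  have N1 : 1 / (N + 1 : ℝ) ≤ 1 := by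
    rw [div_le_one (by positivity)]
    linarith [Nat.cast_nonneg (α := ℝ) N]
  have hd : ∀ᶠ ε in 𝓝[>] (0 : ℝ), 0 < ε ∧ ∀ y : Fin k → R4, ‖g ε (fl ε y)‖ ≤
      {y : Fin k → R4 | ∀ i l, |y i l| ≤ R + 1}.indicator (fun _ => (N : ℝ)) y := by
    filter_upwards [Ioo_mem_nhdsGT (show (0 : ℝ) < 1 / (N + 1 : ℝ) by positivity)] with ε hε
    refine ⟨hε.1, fun y => ?_⟩
    by_cases h : g ε (fl ε y) = 0
    · rw [h, norm_zero]
      exact indicator_nonneg (fun _ _ => Nat.cast_nonneg N) y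
    · rw [indicator_of_mem]
      · exact hN _ _ hε.1 hε.2
      · intro i l
        have h1 := abs_le.1 (hs _ _ hε.1 h i l)
        have h2 := abs_le.1 (fl_near hε.1 y i l)
        rw [abs_le]
        constructor <;> linarith [hε.2]
  have hl : ∀ y : Fin k → R4, Tendsto (fun ε => g ε (fl ε y)) (𝓝[>] 0) (𝓝 (Φ y)) := fun y =>
    tendsto_of_seq fun ε h0 h1 => hg y ε _ h0 h1 fun i l =>
      tendsto_sub_nhds_zero_iff.1 (squeeze_zero_norm (fun n => fl_near (h0 n) y i l) h1)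
  constructor
  · refine (tendsto_integral_filter_of_dominated_convergence _ (Eventually.of_forall hm)
      (hd.mono fun ε h => ae_of_all _ h.2) hb (ae_of_all _ hl)).congr' (hd.mono fun ε h => ?_)
    exact integral_fl h.1 _ (hb.mono' (hm ε) (ae_of_all _ h.2))
  · exact hb.mono' (aestronglyMeasurable_of_tendsto_ae _ hm (ae_of_all _ hl))
      (ae_of_all _ fun y => le_of_tendsto (hl y).norm (hd.mono fun ε h => h.2 y))

end Pool.Agent.Lib.MP_7f377f_mp.YM5
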