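import Pool.Agent.Lib.MP_7f377f_mp.G.ScB
import Pool.Agent.Lib.MP_7f377f_mp.G.SmeC
import Pool.Agent.Lib.MP_7f377f_mp.StFy

/-! The conservation law from a nontrivial relation. -/

noncomputable section

namespace Pool.Agent.Lib.MP_7f377f_mp.Ope
variable [Pool.Agent.Lib.MP_7f377f_mp.GD]
set_option linter.unusedSectionVars false

open MeasureTheory Filter Topology Set Real YM7 Pur MvPolynomial Metric Fx Lg
open scoped ContDiff NNReal

/-- the conserved current -/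
def cur (S : Pol →ₗ[ℂ] ℂ) (T : Tn) (c : ℂ) : Vn := dv T + c • cd S

variable {S : Pol →ₗ[ℂ] ℂ} {h₀ f ξ : R4 → ℝ} {D M : ℝ → ℝ} {κ : (R4 → ℝ) → ℝ} {F : Fr} {C t : ℝ}
  {T : (Pol →ₗ[ℂ] ℂ) → Tn} {k : ℕ} {g : Fin k → R4 → ℝ} {Z : Pol} {l : Fin 4} {V : Vn}

theorem adm_pd (a : Adm (Fin.cons f g : Fin (k + 1) → _)) (hf : ContDiff ℝ ∞ f) (l : Fin 4) :
    Adm (Fin.cons (pd l f) g : Fin (k + 1) → _) :=
  PN.adm_cons (St.pd_cpt (a.1 0).1) ((pd_smooth hf l).of_le (by simp))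
    ⟨fun i => a.1 i.succ, fun _ _ e => a.2 ((Fin.succ_injective _).ne e)⟩
    fun i => (a.2 (Fin.succ_ne_zero i).symm).mono_left St.pd_ts

theorem adm_sc (a : Adm (Fin.cons f g : Fin (k + 1) → _)) (t0 : 0 < t) :
    Adm (Fin.cons (sc t f) fun i => sc t (g i) : Fin (k + 1) → _) := by
  convert a.smul (inv_pos.2 t0).ne' using 1
  funext i
  induction i using Fin.cases <;> rfl

theorem sm_sc' (hf : ContDiff ℝ ∞ f) (t : ℝ) : ContDiff ℝ ∞ (sc t f) := hf.comp (by fun_prop)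

theorem pd_sc (hf : ContDiff ℝ ∞ f) (t : ℝ) (l : Fin 4) :
    pd l (sc t f) = ∑ _i : Fin 1, t⁻¹ • sc t (pd l f) :=
  (St.pd_sc (hf.differentiable (by simp))).trans (Fin.sum_univ_one fun _ => _).symm

theorem Dt.gd (a : Dt f Z) : PN.Gd (tsupport f) f :=
  ⟨(adm_one.1 a.1).1, (adm_one.1 a.1).2, subset_rfl⟩

theorem src_adm {g : Fin 2 → R4 → ℝ} (h : Src g) : Adm (Fin.cons (g 0) ![g 1] : Fin 2 → _) :=
  adm_two.2 ⟨⟨(h 0).2.1, (h 0).1.of_le (by simp)⟩, ⟨(h 1).2.1, (h 1).1.of_le (by simp)⟩,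
    disjoint_left.2 fun _ a b => (far (z := 0) ((h 0).2.2 a) ((h 1).2.2 b)).1 rfl⟩

theorem kap_src {g : Fin 2 → R4 → ℝ} (h : Src g) :
    kap (Fin.cons (pd 0 (g 0)) ![g 1] : Fin 2 → _) = (48 / (11 * GD.b0)) ^ 2 * (3 * GD.d *
      ∫ y : Fin 2 → R4, pd 0 (g 0) (y 0) * g 1 (y 1) / ‖y 0 - y 1‖ ^ 8) := by
  rw [kap, ← integral_const_mul (3 * GD.d : ℝ)]
  congr 2
  funext y
  rw [Fin.prod_univ_two]
  change pd 0 (g 0) (y 0) * g 1 (y 1) * _ = _
  by_cases e : y 0 = y 1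
  · by_cases e' : y 0 ∈ tsupport (g 0)
    · rw [← e, image_eq_zero_of_notMem_tsupport (disjoint_left.1 (adm_two.1 (src_adm h)).2.2 e')]
      simp
    · simp [image_eq_zero_of_notMem_tsupport fun a => e' (St.pd_ts a)]
  · rw [show free y = _ from YM5.free_two y e]
    ring

theorem kap_ne : ∃ g : Fin 2 → R4 → ℝ, Src g ∧
    kap (Fin.cons (pd 0 (g 0)) ![g 1] : Fin 2 → _) ≠ 0 := by
  by_contra! h
  have d : (0 : ℝ) < GD.d := by exact_mod_cast GD.d3.trans_lt' (by norm_num)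
  have b := GD.b0_pos
  have := pin (m := 0) fun g hg => by
    have := h g hg
    rw [kap_src hg] at this
    rw [eq_comm]
    simpa [d.ne', b.ne'] using this
  simp at this

variable (H : CIn S h₀ D κ F C M T)
include H

theorem CIn.pos : Tendsto D (𝓝[>] 0) (𝓝[>] 0) := tendsto_nhdsWithin_iff.2
  ⟨H.ts.lim, (H.ts.le.and self_mem_nhdsWithin).mono fun _ h => lt_of_lt_of_le h.2 h.1⟩

theorem CIn.pos' : ∀ᶠ d in 𝓝[>] (0 : ℝ), 0 < D d := H.pos.eventually self_mem_nhdsWithin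

theorem CIn.tsd (hk : k ≤ 2) (hf : ContDiff ℝ ∞ f) (a : Adm (Fin.cons (pd l f) g : Fin (k + 1) → _))
    (μ ν : Fin 4) : Tendsto (fun d => ((log d⁻¹ ^ (k + 2) / M d * D d : ℝ) : ℂ) *
      T S μ ν (pd l (sc (D d) f)) (mon fun i => sc (D d) (g i))) (𝓝[>] 0)
      (𝓝 (F k μ ν (pd l f) g)) :=
  (H.out.ts k hk μ ν _ g a).congr' (H.pos'.mono fun d hd => by
    have b := dt_of (adm_sc a hd)
    have : (D d : ℂ) ≠ 0 := Complex.ofReal_ne_zero.2 hd.ne'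
    beta_reduce
    rw [pd_sc hf, H.ax.sum _ (fun _ => b.gd) _ b.2, Fin.sum_univ_one]
    push_cast
    field_simp)

theorem CIn.af (a : Adm g) : Tendsto (fun d => ((log d⁻¹ ^ k : ℝ) : ℂ) *
    S (mon fun i => sc (D d) (g i))) (𝓝[>] 0) (𝓝 (kap g)) := by
  have := ((Complex.continuous_ofReal.tendsto _).comp ((H.lg.inv₀ one_ne_zero).pow k)).mul
    ((H.inp.af k g a).comp H.pos)
  simp only [inv_one, one_pow, Complex.ofReal_one, one_mul] at this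
  refine this.congr' ((H.pos.eventually (Ioo_mem_nhdsGT one_pos)).mono fun d hd => ?_)
  have : ((log (D d) : ℝ) : ℂ) ≠ 0 := Complex.ofReal_ne_zero.2 (log_neg hd.1 hd.2).ne
  simp only [Function.comp, log_inv, ← mul_assoc, Complex.ofReal_pow, ← mul_pow]
  congr 2
  push_cast
  field_simp

theorem CIn.cvd (hf : ContDiff ℝ ∞ f) (a : Adm (Fin.cons (pd l f) g : Fin (k + 1) → _)) :
    Tendsto (fun d => ((log d⁻¹ ^ (k + 1) * D d : ℝ) : ℂ) *
      cd S l (sc (D d) f) (mon fun i => sc (D d) (g i))) (𝓝[>] 0)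
      (𝓝 (kap (Fin.cons (pd l f) g : Fin (k + 1) → _))) :=
  (H.af a).congr' (H.pos'.mono fun d hd => by
    have b := dt_of (adm_sc a hd)
    have : (D d : ℂ) ≠ 0 := Complex.ofReal_ne_zero.2 hd.ne'
    beta_reduce
    rw [cd, pd_sc hf, cv_lin H.inp.lin _ (fun _ => b.gd) _ b.2, Fin.sum_univ_one, cv, H.cen _ b.1,
      mon, Fin.prod_univ_succ]
    simp only [Fin.cons_zero, Fin.cons_succ, mon]
    push_cast
    field_simp
    ring)

theorem CIn.ck {A : ℂ} (hV : V ∈ Vec S Ds)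
    (h : ∀ f Z, Ds f Z → V 0 f Z = A * T S 0 0 (pd 0 f) Z) : A = 0 := by
  obtain ⟨ξ, g, h1, h2, h3⟩ := ck_ne
  change I3 1 1 _ g - I3 0 0 _ g + 2 * I3 0 1 _ g ≠ 0 at h3
  have e : ![ξ, g 0, g 1] = Fin.cons ξ g := funext fun i => by fin_cases i <;> rfl
  have a : Adm (Fin.cons ξ g : Fin 3 → _) := e ▸ ⟨fun i => ⟨(h1 i).2, (h1 i).1.of_le (by simp)⟩, h2⟩
  have s : ContDiff ℝ ∞ ξ := (h1 0).1
  have t := fun l μ ν => H.tsd le_rfl s (adm_pd a s l) μ ν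
  have := tendsto_nhds_unique ((((t 0 1 1).sub (t 0 0 0)).add ((t 1 0 1).const_mul 2)).const_mul A)
    ((tendsto_const_nhds (x := 0)).congr' (H.pos'.mono fun d hd => by
      linear_combination -(log d⁻¹ ^ (2 + 2) / M d * D d : ℝ) *
        H.ax.ck hV h ⟨sm_sc' s _, dt_of (adm_sc a hd)⟩))
  simp only [H.fre.two _ _ _ _ (adm_pd a s _)] at this
  refine (mul_eq_zero.1 this).resolve_right fun e => mul_ne_zero H.fre.ne h3 ?_
  exact_mod_cast (show _ = (0 : ℂ) by push_cast at e ⊢; linear_combination e :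
    ((C * (I3 1 1 (pd 0 ξ) g - I3 0 0 (pd 0 ξ) g + 2 * I3 0 1 (pd 1 ξ) g) : ℝ) : ℂ) = 0)

theorem CIn.rel {a : Fin 3 → ℂ} (hV : V ∈ Vec S Ds)
    (h : ∀ f Z, Ds f Z → V 0 f Z = ∑ i, a i * Jv S (T S) f Z i) : a 0 = a 1 :=
  sub_eq_zero.1 (H.ck ((Vec S Ds).sub_mem hV (Vec.ds ((Vec S Dp).add_mem ((Vec S Dp).smul_mem (a 1)
    H.ax.dv) ((Vec S Dp).smul_mem (a 2) (cd_vec H.inp))))) fun f Z b => by
      simp only [Pi.sub_apply, Pi.add_apply, Pi.smul_apply, smul_eq_mul, h f Z b, jv_eq]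
      ring)

theorem CIn.ind {a : Fin 3 → ℂ} (h1 : a 1 = 0)
    (h : ∀ x : Sd, ∑ i, a i * Jv S (T S) x.f (mon x.g) i = 0) : a = 0 := by
  have h0 := (H.rel (Submodule.zero_mem _) fun f Z b => (Lz.ext (H.ax.jv_lz a) h b).symm).trans h1
  obtain ⟨g, g1, g2⟩ := kap_ne
  have := tendsto_nhds_unique ((H.cvd (g1 0).1 (adm_pd (src_adm g1) (g1 0).1 0)).const_mul (a 2))
    ((tendsto_const_nhds (x := 0)).congr' (H.pos'.mono fun d hd => by
      have := h ⟨_, _, _, adm_sc (src_adm g1) hd, sm_sc' (g1 0).1 _⟩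
      rw [jv_eq, h0, h1] at this
      linear_combination -(log d⁻¹ ^ (1 + 1) * D d : ℝ) * this))
  funext i
  fin_cases i
  exacts [h0, h1, (mul_eq_zero.1 this).resolve_right (Complex.ofReal_ne_zero.2 g2)]

theorem CIn.cons : ∃ c : ℂ, ∀ ν f Z, Ds f Z → cur S (T S) c ν f Z = 0 := by
  obtain ⟨h, ξ, -, hc⟩ := H.cc
  obtain ⟨a, a1, a2⟩ := St.relC (A := fun x : Sd => Jv S (T S) x.f (mon x.g))
    (isCompact_sphere (0 : Fin 3 → ℂ) 1) fun s ε e0 => by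
      obtain ⟨d, hd⟩ := (hc s 1 one_pos).exists
      obtain ⟨e, B, he⟩ := hd.exists
      obtain ⟨a, c, w, h1, -, h2⟩ := he ε e0
      exact ⟨a, by simpa using h1, fun x hx => (h2 x hx).1⟩
  have a3 := fun f Z (b : Ds f Z) => Lz.ext (H.ax.jv_lz a) a2 b
  have a4 := H.rel (Submodule.zero_mem _) fun f Z b => (a3 f Z b).symm
  have a5 : a 1 ≠ 0 := fun e => by simp [H.ind e a2] at a1
  refine ⟨a 2 / a 1, fun ν f Z b => H.ax.all (Vec.ds ((Vec S Dp).add_mem H.ax.dv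
    ((Vec S Dp).smul_mem _ (cd_vec H.inp)))) (fun f Z b => ?_) b ν⟩
  have := a3 f Z b
  simp only [jv_eq, a4] at this
  simp only [Pi.add_apply, Pi.smul_apply, smul_eq_mul]
  field_simp
  linear_combination this

theorem CIn.dvd (hk : k ≤ 2) (hf : ContDiff ℝ ∞ f)
    (a : ∀ l, Adm (Fin.cons (pd l f) g : Fin (k + 1) → _)) :
    Tendsto (fun d => ((log d⁻¹ ^ (k + 2) / M d * D d : ℝ) : ℂ) *
      dv (T S) 0 (sc (D d) f) (mon fun i => sc (D d) (g i))) (𝓝[>] 0)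
      (𝓝 (∑ μ, F k μ 0 (pd μ f) g : ℝ)) := by
  simpa only [dv, Finset.mul_sum, Complex.ofReal_sum] using
    tendsto_finsetSum Finset.univ fun μ _ => H.tsd hk hf (a μ) μ 0

theorem CIn.small {c : ℂ} (hc : ∀ ν f Z, Ds f Z → cur S (T S) c ν f Z = 0) :
    Tendsto (fun d => c * (log d⁻¹ / M d : ℝ)) (𝓝[>] 0) (𝓝 0) := by
  obtain ⟨g, g1, g2⟩ := kap_ne
  have a := adm_pd (src_adm g1) (g1 0).1
  have t := H.cvd (g1 0).1 (a 0)
  have := (H.dvd one_le_two (g1 0).1 a).neg.div t (Complex.ofReal_ne_zero.2 g2)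
  simp only [H.fre.one _ _ _ _ (a _), Finset.sum_const_zero, Complex.ofReal_zero, neg_zero,
    zero_div] at this
  refine this.congr' ?_
  filter_upwards [H.pos', t.eventually_ne (Complex.ofReal_ne_zero.2 g2)] with d hd e
  have := hc 0 _ _ ⟨sm_sc' (g1 0).1 _, dt_of (adm_sc (src_adm g1) hd)⟩
  simp only [cur, Pi.add_apply, Pi.smul_apply, smul_eq_mul] at this
  rw [Pi.div_apply, div_eq_iff e]
  push_cast
  linear_combination -(log d⁻¹ : ℂ) ^ 3 / M d * D d * this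

end Pool.Agent.Lib.MP_7f377f_mp.Ope
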