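import Pool.Agent.Lib.MP_7f377f_mp.G.BwD
import Pool.Agent.Lib.MP_7f377f_mp.G.ScC
import Pool.Agent.Lib.MP_7f377f_mp.G.LgE1
import Pool.Agent.Lib.MP_7f377f_mp.StK

/-! The stress tensor as a field with a label: the theory of the scalar field. -/

noncomputable section

namespace Pool.Agent.Lib.MP_7f377f_mp.Bw
variable [Pool.Agent.Lib.MP_7f377f_mp.GD]
set_option linter.unusedSectionVars false

open Filter Topology Set YM7 Pur Wm Lm Wv S3 Sw Matrix MvPolynomial Real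
open Ro (Iso rot prm)
open Ope (Rd hn pr Ai Dt Tn ee)
open scoped ContDiff

variable {W : Pol →ₗ[ℂ] ℂ} {h : R4 → ℝ}

theorem nt2 (i : Lg.Inp W) : ∃ f g, Ds univ f ∧ Ds (tsupport f)ᶜ g ∧
    W (X (pd 0 f) * X g) ≠ 0 ∧ Ope.cv W (X (pd 0 f)) (X g) ≠ 0 := by
  obtain ⟨g, g1, g2⟩ := Ope.kap_ne
  have a := Ope.adm_pd (Ope.src_adm g1) (g1 0).1 0
  have t := i.af 2 _ a
  have t0 := (i.af 1 ![Fx.pd 0 (g 0)] (Ope.adm_one.2 (a.1 0))).mul
    (i.af 1 ![g 1] (Ope.adm_one.2 (a.1 1)))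
  simp only [Lg.NG.free_one, mul_zero, MeasureTheory.integral_zero, Complex.ofReal_zero] at t0
  have k := Complex.ofReal_ne_zero.2 g2
  rw [kap] at k
  obtain ⟨d, ⟨h1, h2⟩, d0⟩ := (((t.eventually_ne k).and ((t.sub t0).eventually_ne
    (sub_ne_zero.2 k))).and self_mem_nhdsWithin).exists
  replace d0 : 0 < d := d0
  have b := Ope.adm_sc (Ope.src_adm g1) d0
  have b' : Disjoint (tsupport (Ope.sc d (g 0))) (tsupport (Ope.sc d (g 1))) :=
    b.2 (i := 0) (j := 1) (by decide)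
  have e : pd 0 (d • Ope.sc d (g 0)) = fun y => Fx.pd 0 (g 0) (d⁻¹ • y) := by
    have := St.pd_sc (μ := 0) (D := d⁻¹) ((g1 0).1.differentiable (by simp))
    funext y
    refine (deriv_const_mul_field d).trans ((congrArg (d * ·) (congrFun this y)).trans ?_)
    simp [d0.ne']
  simp only [mon, Fin.prod_univ_succ, Fin.prod_univ_zero, mul_one, pow_one, Fin.cons_zero,
    Fin.cons_succ, cons_val_zero] at h1 h2
  refine ⟨d • Ope.sc d (g 0), Ope.sc d (g 1), ⟨(Ope.sm_sc' (g1 0).1 d).const_smul d,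
    (b.1 0).1.smul_left (f := fun _ => d), subset_univ _⟩, ⟨Ope.sm_sc' (g1 1).1 d, (b.1 1).1,
    (b'.mono_left (tsupport_smul_subset_right (fun _ => d) _)).subset_compl_left⟩,
    e ▸ right_ne_zero_of_mul h1, e ▸ fun z => h2 ?_⟩
  rw [mul_mul_mul_comm, ← sq, ← mul_sub]
  exact mul_eq_zero_of_right _ z

theorem pr_re (a : Rd h) (hS : net.St W) (hR : Lg.Rot W) {s : ℝ} (s0 : 0 < s) :
    ∃ p : ℝ, ∀ n : R4, ‖n‖ = 1 → W (pr (hn h n) s 0) = p := by
  have k : ∀ m ≠ 0, W (pr (hn h (Lg.PI.rn m (ee 0))) s 0) = starRingEnd ℂ (W (pr (hn h (ee 0)) s 0)) :=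
    fun m m0 => by
      rw [← Lg.PI.hm_of_rot hS hR m0 _ (Net.adm ((a.pb (by simp)).mem s0 0)), ← a.act,
        ← map_zero (Lg.PI.rn m), ← Ope.pr_act]
      simp [Lg.PI.Th, pr]
  have k1 := k (ee 1) (by simp)
  rw [Lg.PI.rn_apply, show inner ℝ (ee 1) (ee 0) = 0 by simp [EuclideanSpace.inner_single_left],
    zero_div, mul_zero, zero_smul, sub_zero] at k1
  refine ⟨_, fun n n1 => .trans ?_ (Complex.conj_eq_iff_re.1 k1.symm).symm⟩
  by_cases e : ee 0 = n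
  · rw [e]
  · rw [k1, ← k _ (sub_ne_zero.2 e), Lg.PI.rn, Submodule.reflection_sub (by simp [n1])]

theorem exists_sm {S₀ W₀ : Pol →ₗ[ℂ] ℂ} {D₀ M₀ : ℝ → ℝ} {F : Ope.Fr} {T₁ : (Pol →ₗ[ℂ] ℂ) → Tn} {C : ℝ}
    (o : Ope.Out S₀ D₀ Fx.kap F M₀ T₁) (hc : Ope.COut S₀ C M₀ T₁) (hC : C ≠ 0) (s : Ope.Sub S₀ W₀)
    (i : Lg.Inp W₀) (v : Lg.Vac W₀) (i₀ : Lg.Inp S₀) (r₀ : Lg.Rot S₀)
    (re : ∀ k (f : Fin k → R4 → ℝ), Adm f → (S₀ (mon f)).im = 0) :
    ∃ h M c L, Sm W₀ h M c L := by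
  obtain ⟨m, c, m0, hm, wd⟩ := hc
  obtain ⟨h, h1, h2, h3⟩ : ∃ h, Rd h ∧ ContDiff ℝ ∞ h ∧ Fx.kap h ≠ 0 := by
    have c : ContDiff ℝ ∞ fun x : R4 => expNegInvGlue (8⁻¹ - ‖x‖ ^ 2) :=
      expNegInvGlue.contDiff.comp (contDiff_const.sub (contDiff_norm_sq ℝ))
    have s := (Ds.of c (isCompact_closedBall 0 (2 / 5)) fun x hx => expNegInvGlue.zero_of_nonpos (by
      have := not_le.1 (mt mem_closedBall_zero_iff.2 hx)
      nlinarith)).2.2.trans (Metric.closedBall_subset_ball (show (2 / 5 : ℝ) < 2⁻¹ by norm_num))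
    exact ⟨_, ⟨c.of_le (by simp), s.trans (Metric.ball_subset_ball (by norm_num)),
      fun x y e => by rw [e]⟩, c, (Fx.kap_pos c.continuous s (fun _ => expNegInvGlue.nonneg _)
        fun e => (expNegInvGlue.pos_of_pos (by simp)).ne' (congrFun e 0)).ne'⟩
  obtain ⟨c₁, -, op⟩ := o.ope h h1
  have s₀ := Ope.sub_rfl i₀ r₀
  have rl : ∀ Y ∈ net.loc univ, starRingEnd ℂ (S₀ Y) = S₀ (map (starRingEnd ℂ) Y) := fun Y hY => by
    obtain ⟨m, c, k, g, g1, -, rfl⟩ := PN.exists_sum hY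
    simp only [map_sum]
    refine Finset.sum_congr rfl fun a _ => ?_
    rw [show map (starRingEnd ℂ) (c a • mon (g a)) = starRingEnd ℂ (c a) • mon (g a) by
      simp [mon, smul_eq_C_mul], S₀.map_smul, S₀.map_smul, smul_eq_mul, smul_eq_mul, map_mul,
      Complex.conj_eq_iff_im.2 (re _ _ (g1 a))]
  have cr : ∀ {O Y Z}, Y ∈ net.loc O → Z ∈ net.loc Oᶜ → map (starRingEnd ℂ) Y = Y →
      map (starRingEnd ℂ) Z = Z → starRingEnd ℂ (Ope.cv S₀ Y Z) = Ope.cv S₀ Y Z :=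
    fun hY hZ e e' => by
      rw [Ope.cv, map_sub, map_mul (starRingEnd ℂ), rl _ (Ope.mul_adm hY hZ), rl _ (Net.adm hY),
        rl _ (Net.adm hZ), RingHom.map_mul, e, e']
  have tr : ∀ μ ν f g, Dt f (X g) → starRingEnd ℂ (T₁ S₀ μ ν f (X g)) = T₁ S₀ μ ν f (X g) :=
    fun μ ν f g b => by
      refine sub_eq_zero.1 (St.pol ⊥ (A := fun μ ν => starRingEnd ℂ (T₁ S₀ μ ν f (X g)) -
        T₁ S₀ μ ν f (X g)) (fun μ ν => by rw [o.sym]) (fun n n1 => ?_) μ ν)
      have t := op S₀ s₀ n n1 f _ b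
      have := tendsto_nhds_unique_of_eventuallyEq ((Complex.continuous_conj.tendsto _).comp t) t
        (b.sm.mono fun d hd => by
          simp only [Function.comp, map_sub, map_mul, Complex.conj_ofReal, Ai, ← integral_conj,
            cr b.X b.2 (map_X _ _) (map_X _ _)]
          congr 4
          funext z
          by_cases hz : z ∈ tsupport f
          · rw [cr (hd.pr (h1.pb n1) hz) hd.2.2 (by simp [pr]) (map_X _ _)]
          · simp [image_eq_zero_of_notMem_tsupport hz])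
      simp only [map_mul, map_sum, Complex.conj_ofReal,
        mul_right_inj' (Complex.ofReal_ne_zero.2 h3)] at this
      simp only [Submodule.mem_bot, smul_eq_mul, mul_sub, Finset.sum_sub_distrib, this, sub_self]
  obtain ⟨c, rfl⟩ : ∃ r : ℝ, c = r := by
    obtain ⟨f, g, hf, hg, -, e⟩ := nt2 i₀
    have b : ∀ μ, Dt (pd μ f) (X g) := fun μ => ⟨Ope.adm_one.2 ⟨(hf.pd μ).2.1, (hf.pd μ).c1.2.1⟩,
      Ope.Dt.X (Z := 1) ⟨Ope.adm_one.2 ⟨hg.2.1, hg.c1.2.1⟩, net.one _⟩ |> (net.mono ·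
        (hg.2.2.trans (compl_subset_compl.2 (hf.self.pd μ).2.2)))⟩
    have w := wd S₀ s₀ 1 ![g] f 0 0 (Ope.adm_one.2 ⟨hg.2.1, hg.c1.2.1⟩) (fun j => by
      fin_cases j
      exact ⟨hg.1, mem_of_superset ((isClosed_tsupport f).isOpen_compl.mem_nhdsSet.2 hg.2.2)
        fun y hy => image_eq_zero_of_notMem_tsupport hy⟩) hf.1 hf.2.1
    simp only [mon, Fin.prod_univ_one, cons_val_zero, Pi.zero_apply, Complex.ofReal_zero, zero_mul,
      Finset.sum_const_zero, mul_zero] at w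
    change ∑ μ, T₁ S₀ μ 0 (pd μ f) (X g) + c * Ope.cv S₀ (X (pd 0 f)) (X g) = 0 at w
    have w' := congrArg (starRingEnd ℂ) w
    simp only [map_add, map_sum, map_mul, map_zero, tr _ _ _ _ (b _),
      cr (b 0).X (b 0).2 (map_X _ _) (map_X _ _)] at w'
    exact Complex.conj_eq_iff_real.1 (mul_right_cancel₀ e (by linear_combination w' - w))
  have d0 : (0 : ℝ) < GD.d := by exact_mod_cast GD.d3.trans_lt' (by norm_num)
  have b0 := GD.b0_pos
  obtain ⟨α, hα, a0⟩ : ∃ α, m * C * π ^ 2 / (8 * GD.d * (48 / (11 * GD.b0)) ^ 2) = α ∧ α ≠ 0 :=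
    ⟨_, rfl, by positivity⟩
  have a1 := Complex.ofReal_ne_zero.2 a0
  have k1 := Complex.ofReal_ne_zero.2 h3
  have iv := Lg.PI.rot_iff.1 s.rot
  rw [hα] at wd
  refine ⟨h, fun d => M₀ d / (Fx.kap h * α), fun d => c₁ d / (Fx.kap h * α) - c / α,
    fun μ ν f Z => (T₁ W₀ μ ν f Z + if μ = ν then c * Ope.cv W₀ (X f) Z else 0) / α, h1, h2,
    ⟨(|m| + 1) / |Fx.kap h * α|, ?_⟩, fun μ ν f Z => by simp only [o.sym _ μ, eq_comm],
    fun n n1 f Z b => ?_, iv, fun s' => pr_re h1 i.st s.rot, fun g g1 f Z b μ ν => ?_,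
    fun k g ξ e ν a1 a2 a3 a4 => ?_, fun Y hY Z hZ => ?_,
    (nt2 i).imp fun _ => .imp fun _ e => ⟨e.1, e.2.1, e.2.2.1⟩⟩
  · filter_upwards [hm.abs.eventually_lt_const (lt_add_one _), Ioo_mem_nhdsGT one_pos] with d e hd
    rw [abs_div, abs_of_pos (sq_pos_of_neg (log_neg hd.1 hd.2)),
      div_lt_iff₀ (sq_pos_of_neg (log_neg hd.1 hd.2))] at e
    rw [abs_div, div_mul_eq_mul_div]
    exact div_le_div_of_nonneg_right e.le (abs_nonneg _)
  · have n2 : ∑ μ, (n μ : ℂ) * n μ = 1 := by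
      exact_mod_cast (show ∑ μ, n μ * n μ = 1 by
        simpa [n1, sq] using (EuclideanSpace.real_norm_sq_eq n).symm)
    convert ((op W₀ s n n1 f Z b).div_const (Fx.kap h * α)).add_const (c / α * Ope.cv W₀ (X f) Z)
      using 2
    · simp only [cv, Ope.cv]
      push_cast
      ring
    · simp only [add_div, mul_add, Finset.sum_add_distrib, mul_div_mul_left _ _ k1, Finset.sum_div,
        mul_div_assoc, ite_div, zero_div, mul_ite, mul_zero, Finset.sum_ite_eq, Finset.mem_univ,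
        if_true, ← Finset.sum_mul, Complex.ofReal_mul, n2]
      ring
  · have e := Ope.cv_act (iv g g1) b.X b.2
    have e' : ∑ i, (g (ee μ) i : ℂ) * g (ee ν) i = if μ = ν then 1 else 0 := by
      have := g.inner_map_map (ee ν) (ee μ)
      rw [PiLp.inner_apply] at this
      simpa [EuclideanSpace.inner_single_left, PiLp.single_apply, eq_comm, apply_ite] using
        congrArg Complex.ofReal this
    rw [Ro.act_X] at e
    simp only [o.cov W₀ s g (iv g g1) f Z b μ ν, e, add_div, mul_add, Finset.sum_add_distrib,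
      Finset.sum_div, mul_div_assoc, ite_div, zero_div, mul_ite, mul_zero, Finset.sum_ite_eq,
      Finset.mem_univ, if_true, ← Finset.sum_mul, Complex.ofReal_mul, e', ite_mul, one_mul, zero_mul]
  · rw [← Finset.sum_div, Finset.sum_add_distrib, Finset.sum_ite_eq', if_pos (Finset.mem_univ _),
      wd W₀ s k g ξ e ν a1 a2 a3 a4, zero_mul, add_zero, one_mul, mul_div_cancel_left₀ _ ‹_›]
  · simpa only [smul_e0] using Lg.cluster_all i.st v s.rot (a := e0) (fun e => by simpa using congrArg (· 0) e) hY hZ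

end Pool.Agent.Lib.MP_7f377f_mp.Bw
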