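import Pool.Agent.Lib.MP_7f377f_mp.G.RoDef

/-! From one plane to all rotations. -/

noncomputable section

namespace Pool.Agent.Lib.MP_7f377f_mp.Ro
variable [Pool.Agent.Lib.MP_7f377f_mp.GD]
set_option linter.unusedSectionVars false

open Filter Topology Set Real YM7 Pur MvPolynomial
open scoped NNReal

variable {W : Pol →ₗ[ℂ] ℂ} {H : Type} [NormedAddCommGroup H] [InnerProductSpace ℂ H]
  [CompleteSpace H] {r : net.Rep W 0 H} {k : ℕ} {Z Z' : Pol}

namespace RoG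

/-- the determinant -/
def dt (g : Iso) : ℝ := LinearMap.det (g.toLinearEquiv : R4 →ₗ[ℝ] R4)

theorem dt_mul (g g' : Iso) : dt (g * g') = dt g * dt g' := by
  rw [dt, dt, dt, ← map_mul]
  rfl

theorem dt_rf : dt (rfL 0) = -1 := by
  have e : LinearMap.toMatrix (PiLp.basisFun 2 ℝ (Fin 4)) (PiLp.basisFun 2 ℝ (Fin 4))
      ((rfL 0).toLinearEquiv : R4 →ₗ[ℝ] R4) = Matrix.diagonal ![-1, 1, 1, 1] := by
    ext i j
    rw [LinearMap.toMatrix_apply, PiLp.basisFun_repr, PiLp.basisFun_apply]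
    change rfL 0 _ i = _
    rw [rfL_eq]
    fin_cases i <;> fin_cases j <;> simp [rf]
  rw [dt, ← LinearMap.det_toMatrix (PiLp.basisFun 2 ℝ (Fin 4)), e, Matrix.det_diagonal]
  simp [Fin.prod_univ_four]

/-- good isometries -/
def Gd (W : Pol →ₗ[ℂ] ℂ) (g : Iso) : Prop := Inv W g ∧ 0 ≤ dt g

theorem Gd.mul {g g' : Iso} (h : Gd W g) (h' : Gd W g') : Gd W (g * g') :=
  ⟨h.1.mul h'.1, dt_mul g g' ▸ mul_nonneg h.2 h'.2⟩

theorem inv_of {g g' : Iso} (h : Inv W g) (h' : Inv W (g * g')) : Inv W g' := fun Z hZ => by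
  rw [← h _ (act_adm _ hZ), act_act, h' _ hZ]

theorem gd_rot (h : ∀ σ φ, Inv (cmp W (prm σ)) (rot 0 φ)) (l : Fin 3) (φ : ℝ) :
    Gd W (rot l φ) := by
  refine ⟨fun Z hZ => ?_, ?_⟩
  · have e : prm (Equiv.swap 1 l.succ) * (rot 0 φ * prm (Equiv.swap 1 l.succ)) = rot l φ := by
      ext y i
      fin_cases l <;> fin_cases i <;>
        simp [prm_apply, rot_apply, rv, Equiv.swap_apply_def]
    have := h (Equiv.swap 1 l.succ) φ _ (act_adm (prm (Equiv.swap 1 l.succ)) hZ)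
    rwa [cmp_apply, cmp_apply, act_act, act_act, act_act, mul_assoc, e, prm_mul,
      Equiv.swap_mul_self, prm_one, act_one] at this
  · rw [← add_halves φ, ← rot_mul, dt_mul]
    exact mul_self_nonneg _

theorem polar (a b : ℝ) : ∃ φ, cos φ * a - sin φ * b = 0 ∧ 0 ≤ sin φ * a + cos φ * b := by
  have h1 := Complex.norm_mul_cos_arg ⟨a, b⟩
  have h2 := Complex.norm_mul_sin_arg ⟨a, b⟩
  have h3 := sin_sq_add_cos_sq (Complex.arg ⟨a, b⟩)
  have h4 := norm_nonneg (⟨a, b⟩ : ℂ)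
  refine ⟨π / 2 - Complex.arg ⟨a, b⟩, ?_⟩
  rw [cos_pi_div_two_sub, sin_pi_div_two_sub]
  generalize Complex.arg ⟨a, b⟩ = θ at *
  generalize ‖(⟨a, b⟩ : ℂ)‖ = ρ at *
  dsimp only at h1 h2
  subst h1 h2
  exact ⟨by ring, h4.trans_eq (by linear_combination (-ρ) * h3)⟩

theorem up (l : Fin 3) (v : R4) : ∃ φ, rot l φ v 0 = 0 ∧ 0 ≤ rot l φ v l.succ := by
  simpa only [rot_zero', rot_succ] using polar (v 0) (v l.succ)

theorem down (l : Fin 3) (v : R4) : ∃ φ, rot l φ v l.succ = 0 := by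
  obtain ⟨φ, h, -⟩ := polar (v l.succ) (v 0)
  exact ⟨-φ, by rw [rot_succ, sin_neg, cos_neg]; linarith⟩

/-- the coordinate `i` is fixed -/
def Fx (g : Iso) (i : Fin 4) : Prop := ∀ y, g y i = y i

theorem fx_of {g : Iso} {i : Fin 4} (h : ∀ j, j ≠ i → g (ax i 1) j = 0) (h0 : 0 ≤ g (ax i 1) i) :
    Fx g i := by
  have e : g (ax i 1) = ax i (g (ax i 1) i) := by
    ext j
    by_cases hj : j = i
    · simp [hj]
    · simp [hj, h j hj]
  have n := g.norm_map (ax i 1)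
  rw [e, PiLp.norm_single, PiLp.norm_single, norm_one, norm_of_nonneg h0] at n
  rw [n] at e
  intro y
  have := g.inner_map_map (ax i 1) y
  rw [e, EuclideanSpace.inner_single_left, EuclideanSpace.inner_single_left] at this
  simpa using this

theorem move (h : ∀ l φ, Gd W (rot l φ)) (l : Fin 3) (v : R4) : ∃ g, Gd W g ∧
    (∀ i, l.succ < i → Fx g i) ∧ (∀ i < l.succ, g v i = 0) ∧ 0 ≤ g v l.succ := by
  obtain ⟨a, ha⟩ := down 0 v
  obtain ⟨b, hb⟩ := down 1 (rot 0 a v)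
  fin_cases l
  · obtain ⟨c, h1, h2⟩ := up 0 v
    refine ⟨_, h 0 c, fun i hi y => rot_ne (ne_zero_of_lt hi) hi.ne' _ _, fun i hi => ?_, h2⟩
    fin_cases i <;> first | exact h1 | exact absurd hi (by decide)
  · obtain ⟨c, h1, h2⟩ := up 1 (rot 0 a v)
    refine ⟨_, (h 1 c).mul (h 0 a), fun i hi y => ?_, fun i hi => ?_, h2⟩
    · fin_cases i <;> first | exact absurd hi (by decide) | rfl
    · fin_cases i <;> first | exact h1 | exact ha | exact absurd hi (by decide)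
  · obtain ⟨c, h1, h2⟩ := up 2 (rot 1 b (rot 0 a v))
    refine ⟨_, (h 2 c).mul ((h 1 b).mul (h 0 a)), fun i hi y => ?_, fun i hi => ?_, h2⟩
    · fin_cases i <;> exact absurd hi (by decide)
    · fin_cases i <;> first | exact h1 | exact ha | exact hb | exact absurd hi (by decide)

theorem step (h : ∀ l φ, Gd W (rot l φ)) (l : Fin 3) {g : Iso} (hg : ∀ i, l.succ < i → Fx g i) :
    ∃ g', Gd W g' ∧ ∀ i, l.castSucc < i → Fx (g' * g) i := by
  obtain ⟨g', h1, h2, h3, h4⟩ := move h l (g (ax l.succ 1))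
  have h5 : ∀ i, l.succ < i → Fx (g' * g) i := fun i hi y => (h2 i hi _).trans (hg i hi y)
  refine ⟨g', h1, fun i hi => ?_⟩
  rcases (Fin.castSucc_lt_iff_succ_le.1 hi).eq_or_lt with rfl | hi
  · refine fx_of (fun j hj => ?_) h4
    rcases hj.lt_or_gt with hj | hj
    · exact h3 j hj
    · rw [h5 j hj]
      simp [hj.ne']
  · exact h5 i hi

theorem last {g : Iso} (hg : ∀ i, 0 < i → Fx g i) (h0 : 0 ≤ g (ax 0 1) 0) : g = 1 := by
  have h : Fx g 0 := fx_of (fun j hj => by rw [hg j (Fin.pos_iff_ne_zero.2 hj)]; simp [hj]) h0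
  ext y i
  rcases (Fin.zero_le i).eq_or_lt with rfl | hi
  · exact h y
  · exact hg i hi y

theorem red (h : ∀ l φ, Gd W (rot l φ)) (g : Iso) :
    ∃ g', Gd W g' ∧ (g' * g = 1 ∨ rfL 0 * (g' * g) = 1) := by
  obtain ⟨a, a1, a2⟩ := step h 2 (g := g) fun i hi => absurd hi (Fin.le_last i).not_gt
  obtain ⟨b, b1, b2⟩ := step h 1 a2
  obtain ⟨c, c1, c2⟩ := step h 0 b2
  refine ⟨c * (b * a), c1.mul (b1.mul a1), ?_⟩
  rw [mul_assoc c, mul_assoc b]
  rcases le_total 0 ((c * (b * (a * g))) (ax 0 1) 0) with h0 | h0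
  · exact .inl (last c2 h0)
  · refine .inr (last (fun i hi y => ?_) ?_)
    · change rfL 0 _ i = _
      rw [rfL_eq, rf_ne hi.ne']
      exact c2 i hi y
    · rw [← neg_nonneg, ← rf_self, ← rfL_eq] at h0
      exact h0

theorem inv_one : Inv W 1 := fun Z _ => by rw [act_one]

end RoG

theorem so4_of (h : ∀ σ φ, Inv (cmp W (prm σ)) (rot 0 φ)) {g : Iso}
    (hg : LinearMap.det (g.toLinearEquiv : R4 →ₗ[ℝ] R4) = 1) : Inv W g := by
  obtain ⟨g', h1, e | e⟩ := RoG.red (RoG.gd_rot h) g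
  · exact RoG.inv_of h1.1 (e ▸ RoG.inv_one)
  · have h2 := congrArg RoG.dt e
    have h3 : RoG.dt 1 = 1 := LinearMap.det_id
    rw [RoG.dt_mul, RoG.dt_mul, RoG.dt_rf, show RoG.dt g = 1 from hg, h3] at h2
    linarith [h1.2]

theorem o4_of (h : ∀ σ φ, Inv (cmp W (prm σ)) (rot 0 φ)) (hS : net.St W)
    (hr : ∀ {k} (f : Fin k → R4 → ℝ), Adm f → (W (mon f)).im = 0) (g : Iso) : Inv W g := by
  have h0 : Inv W (rfL 0) := Inv.of_mon fun k f hf => by
    have e : ∀ y, (rfL 0).symm y = rf 0 y := fun y => by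
      rw [LinearIsometryEquiv.symm_apply_eq, rfL_eq, rf_rf]
    simp only [act_mon, e]
    rw [← Θ_mon, hS.herm 0 (mon_mem hf fun _ => subset_univ _), Complex.conj_eq_iff_im.2 (hr f hf)]
  obtain ⟨g', h1, e | e⟩ := RoG.red (RoG.gd_rot h) g
  · exact RoG.inv_of h1.1 (e ▸ RoG.inv_one)
  · exact RoG.inv_of h1.1 (RoG.inv_of h0 (e ▸ RoG.inv_one))

end Pool.Agent.Lib.MP_7f377f_mp.Ro
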