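import Pool.Agent.Lib.MP_7f377f_mp.G.SwB
import Pool.Agent.Lib.MP_7f377f_mp.G.RoG

/-! Rotation covariance from the stress tensor: the representation of the orthogonal group. -/

noncomputable section

namespace Pool.Agent.Lib.MP_7f377f_mp.Sw
variable [Pool.Agent.Lib.MP_7f377f_mp.GD]
set_option linter.unusedSectionVars false

open Filter Topology Set YM7 Pur NormedSpace
open Real hiding exp
open Ro (Iso rot rot_ne rot_zero)
open Ro.RoG (Fx up down fx_of last)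
open scoped Pointwise

/-- the generators -/
def gens : Set Iso := insert (rfL 0) (range fun p : Fin 3 × ℝ => rot p.1 p.2)

theorem one_gens : 1 ∈ gens := .inr ⟨(0, 0), rot_zero 0⟩

theorem rot_gens (l φ) : rot l φ ∈ gens := .inr ⟨(l, φ), rfl⟩

theorem move (l : Fin 3) (v : R4) : ∃ g ∈ gens ^ 3,
    (∀ i, l.succ < i → Fx g i) ∧ (∀ i < l.succ, g v i = 0) ∧ 0 ≤ g v l.succ := by
  obtain ⟨a, ha⟩ := down 0 v
  obtain ⟨b, hb⟩ := down 1 (rot 0 a v)
  have m : ∀ {a b c}, a ∈ gens → b ∈ gens → c ∈ gens → a * (b * c) ∈ gens ^ 3 := fun a b c => by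
    rw [pow_three]
    exact mul_mem_mul a (mul_mem_mul b c)
  fin_cases l
  · obtain ⟨c, h1, h2⟩ := up 0 v
    refine ⟨_, m (rot_gens 0 c) one_gens one_gens,
      fun i hi y => rot_ne (ne_zero_of_lt hi) hi.ne' _ _, fun i hi => ?_, h2⟩
    fin_cases i <;> first | exact h1 | exact absurd hi (by decide)
  · obtain ⟨c, h1, h2⟩ := up 1 (rot 0 a v)
    refine ⟨_, m (rot_gens 1 c) (rot_gens 0 a) one_gens, fun i hi y => ?_, fun i hi => ?_, h2⟩
    · fin_cases i <;> first | exact absurd hi (by decide) | rfl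
    · fin_cases i <;> first | exact h1 | exact ha | exact absurd hi (by decide)
  · obtain ⟨c, h1, h2⟩ := up 2 (rot 1 b (rot 0 a v))
    refine ⟨_, m (rot_gens 2 c) (rot_gens 1 b) (rot_gens 0 a), fun i hi y => ?_, fun i hi => ?_, h2⟩
    · fin_cases i <;> exact absurd hi (by decide)
    · fin_cases i <;> first | exact h1 | exact ha | exact hb | exact absurd hi (by decide)

theorem step (l : Fin 3) {g : Iso} (hg : ∀ i, l.succ < i → Fx g i) :
    ∃ g' ∈ gens ^ 3, ∀ i, l.castSucc < i → Fx (g' * g) i := by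
  obtain ⟨g', h1, h2, h3, h4⟩ := move l (g (ax l.succ 1))
  have h5 : ∀ i, l.succ < i → Fx (g' * g) i := fun i hi y => (h2 i hi _).trans (hg i hi y)
  refine ⟨g', h1, fun i hi => ?_⟩
  rcases (Fin.castSucc_lt_iff_succ_le.1 hi).eq_or_lt with rfl | hi
  · refine fx_of (fun j hj => ?_) h4
    rcases hj.lt_or_gt with hj | hj
    · exact h3 j hj
    · rw [h5 j hj]
      simp [hj.ne']
  · exact h5 i hi

theorem euler (g : Iso) : g ∈ gens ^ 10 := by
  obtain ⟨a, a1, a2⟩ := step 2 (g := g⁻¹) fun i hi => absurd hi (Fin.le_last i).not_gt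
  obtain ⟨b, b1, b2⟩ := step 1 a2
  obtain ⟨c, c1, c2⟩ := step 0 b2
  have m : ∀ e ∈ gens, e * (c * (b * (a * g⁻¹))) = 1 → g ∈ gens ^ 10 := fun e he h => by
    rw [show g = e * (c * (b * a)) from (mul_inv_eq_one.1 (by simpa only [mul_assoc] using h)).symm,
      pow_succ', show 9 = 3 + (3 + 3) from rfl, pow_add, pow_add]
    exact mul_mem_mul he (mul_mem_mul c1 (mul_mem_mul b1 a1))
  rcases le_total 0 ((c * (b * (a * g⁻¹))) (ax 0 1) 0) with h0 | h0
  · exact m 1 one_gens (last c2 h0)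
  · refine m _ (.inl rfl) (last (fun i hi y => ?_) ?_)
    · change rfL 0 _ i = _
      rw [rfL_eq, rf_ne hi.ne']
      exact c2 i hi y
    · rw [← neg_nonneg, ← rf_self, ← rfL_eq] at h0
      exact h0

theorem unif {ι 𝔸 : Type} [NormedRing 𝔸] [NormedAlgebra ℝ 𝔸] [CompleteSpace 𝔸] {l : Filter ι}
    {a : Iso →* 𝔸} {b : ι → Iso →* 𝔸} {s : Fin 3 → 𝔸} {s' : ι → Fin 3 → 𝔸}
    (h0 : ∀ t, b t (rfL 0) = a (rfL 0)) (h1 : ∀ m θ, a (rot m θ) = exp (θ • s m))
    (h2 : ∀ t m θ, b t (rot m θ) = exp (θ • s' t m)) (h : Tendsto s' l (𝓝 s)) :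
    (∃ C, ∀ g, ‖a g‖ ≤ C) ∧ ∀ ε > 0, ∀ᶠ t in l, ∀ g, ‖b t g - a g‖ ≤ ε := by
  let U := fun K : Set Iso => (∃ C, 0 ≤ C ∧ ∀ g ∈ K, ‖a g‖ ≤ C) ∧
    ∀ ε > 0, ∀ᶠ t in l, ∀ g ∈ K, ‖b t g - a g‖ ≤ ε
  have c : Continuous fun p : (Fin 3 → 𝔸) × Fin 3 × ℝ => exp (p.2.2 • p.1 p.2.1) :=
    exp_cont.comp (continuous_snd.snd.smul ((continuous_prod_of_discrete_right
      (f := fun q : (Fin 3 → 𝔸) × Fin 3 => q.1 q.2)).2 continuous_apply |>.comp
        (continuous_fst.prodMk continuous_snd.fst)))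
  have k := (isCompact_univ (X := Fin 3)).prod (isCompact_Icc (a := 0) (b := 2 * π))
  have per : ∀ g ∈ gens, g = rfL 0 ∨ ∃ p ∈ univ ×ˢ Icc 0 (2 * π), rot p.1 p.2 = g := by
    rintro _ (rfl | ⟨p, rfl⟩)
    · exact .inl rfl
    refine .inr ⟨(p.1, toIcoMod two_pi_pos 0 p.2), ⟨trivial, Ico_subset_Icc_self
      (toIcoMod_mem_Ico' _ _)⟩, LinearIsometryEquiv.ext fun y => ?_⟩
    simp only [Ro.rot_apply, Ro.rv, ← self_sub_toIcoDiv_zsmul, cos_periodic.sub_zsmul_eq,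
      sin_periodic.sub_zsmul_eq]
  have u1 : U gens := by
    obtain ⟨C, hC⟩ := k.exists_bound_of_continuousOn (f := fun p => exp (p.2 • s p.1))
      (c.comp (.prodMk_right s)).continuousOn
    refine ⟨⟨max C ‖a (rfL 0)‖, by positivity, fun g hg => ?_⟩, fun ε ε0 => ?_⟩
    · obtain rfl | ⟨p, hp, rfl⟩ := per g hg
      exacts [le_max_right _ _, h1 _ _ ▸ (hC p hp).trans (le_max_left _ _)]
    obtain ⟨v, hv, e⟩ := k.mem_uniformity_of_prod (f := fun (s : Fin 3 → 𝔸) (p : Fin 3 × ℝ) =>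
      exp (p.2 • s p.1))
      c.continuousOn (mem_univ s) (Metric.dist_mem_uniformity ε0)
    rw [nhdsWithin_univ] at hv
    filter_upwards [h hv] with t ht g hg
    obtain rfl | ⟨p, hp, rfl⟩ := per g hg
    · simpa [h0] using ε0.le
    · rw [h1, h2, ← dist_eq_norm]
      exact (e _ ht p hp).le
  have u2 : ∀ n, U (gens ^ (n + 1)) := fun n => by
    induction n with
    | zero => rwa [zero_add, pow_one]
    | succ n ih =>
      obtain ⟨⟨C, C0, hC⟩, h⟩ := u1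
      obtain ⟨⟨C', C1, hC'⟩, h'⟩ := ih
      rw [pow_succ']
      refine ⟨⟨C * C', by positivity, ?_⟩, fun ε ε0 => ?_⟩
      · rintro _ ⟨g, hg, g', hg', rfl⟩
        exact map_mul a g g' ▸ norm_mul_le_of_le (hC g hg) (hC' g' hg')
      obtain ⟨δ, δ0, e⟩ := (((show ContinuousAt (fun δ : ℝ => δ * (δ + C') + C * δ) 0 by
        fun_prop).tendsto.eventually_le_const (u := ε) (by simpa)).filter_mono nhdsWithin_le_nhds |>.and
        (self_mem_nhdsWithin (s := Ioi 0))).exists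
      filter_upwards [h δ e, h' δ e]
      rintro t ht ht' _ ⟨g, hg, g', hg', rfl⟩
      rw [show b t (g * g') - a (g * g') = (b t g - a g) * b t g' + a g * (b t g' - a g') by
        simp only [map_mul]; noncomm_ring]
      exact (norm_add_le_of_le (norm_mul_le_of_le (ht g hg) ((norm_le_norm_sub_add _ _).trans
        (add_le_add (ht' g' hg') (hC' g' hg')))) (norm_mul_le_of_le (hC g hg) (ht' g' hg'))).trans δ0
  obtain ⟨⟨C, -, hC⟩, h⟩ := u2 9
  exact ⟨⟨C, fun g => hC g (euler g)⟩, fun ε e => (h ε e).mono fun t h g => h g (euler g)⟩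

variable {V ι I : Type} [NormedAddCommGroup V] [NormedSpace ℝ V] {Φ : Fil V} {l : Filter ι}

theorem grp [l.NeBot] (ρ : Iso →* Φ.algˣ) (A : ι → Φ.algˣ) (Cov : Φ.algˣ → Iso → Prop)
    (c1 : Cov 1 1) (c2 : ∀ {M R M' R'}, Cov M R → Cov M' R' → Cov (M * M') (R * R'))
    (c3 : ∀ {M R}, Cov M R → Cov M⁻¹ R⁻¹) {σ σ₀ : Fin 3 → Φ.alg}
    (c4 : ∀ m θ (M : Φ.algˣ), M.1 = Fil.exp (θ • σ m) → Cov M (rot m θ))
    (c5 : ∀ μ, Cov (ρ (rfL μ)) (rfL μ)) (h1 : ∀ t μ, Commute (A t) (ρ (rfL μ)))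
    (h2 : ∀ m, Φ.Cv l (fun t => (A t)⁻¹.1 * σ m * (A t).1) (σ₀ m))
    (h3 : ∀ m θ, (ρ (rot m θ)).1 = Fil.exp (θ • σ₀ m))
    (gr : ∀ g d c, Φ.π d ((ρ g).1.1 c) = (ρ g).1.1 (Φ.π d c))
    (B : I → LinearMap.BilinForm ℝ V) (b1 : ∀ i, LinearMap.IsSymm (B i)) (b2 : ∀ i c, 0 ≤ B i c c)
    (b3 : ∀ c, (∀ i, B i c c = 0) → c = 0) (b4 : ∀ M, Cov M 1 → ∀ i c c',
      B i (M.1.1 c) c' = B i c ((ρ (rfL 0) * M⁻¹ * ρ (rfL 0)).1.1 c')) :
    ∃ (J : Φ.algˣ) (X : ι → Φ.alg), Φ.Cv l X 1 ∧ (∀ g, Cov (J * ρ g * J⁻¹) g) ∧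
      (∀ μ, Commute J (ρ (rfL μ))) ∧ (∀ m, σ m * J = J * σ₀ m) ∧
      ∀ t g, Commute (J⁻¹.1 * (A t * X t)) (ρ g) := by
  let T := fun (M : Φ.algˣ) R => Φ.Cv l (fun t => ((A t)⁻¹ * M * A t).1) (ρ R).1
  have t2 : ∀ {M R M' R'}, T M R → T M' R' → T (M * M') (R * R') := fun h h' => by
    simpa only [T, map_mul, ← Units.val_mul, mul_assoc, mul_inv_cancel_left] using h.mul h'
  have t1 : T 1 1 := by simpa [T] using Fil.Cv.const
  let S : Subgroup (Φ.algˣ × Iso) :=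
    { carrier := {p | Cov p.1 p.2 ∧ T p.1 p.2 ∧ T p.1⁻¹ p.2⁻¹}
      mul_mem' a b := ⟨c2 a.1 b.1, t2 a.2.1 b.2.1, by simpa using t2 b.2.2 a.2.2⟩
      one_mem' := ⟨c1, t1, by simpa using t1⟩
      inv_mem' a := ⟨c3 a.1, a.2.2, by simpa using a.2.1⟩ }
  have sr : ∀ μ, (ρ (rfL μ), rfL μ) ∈ S := fun μ => ⟨c5 μ,
    by simpa [T, mul_assoc, ← Units.val_mul, ← (h1 _ μ).eq] using Fil.Cv.const,
    by simpa [T, mul_assoc, ← Units.val_mul, ← (h1 _ μ).inv_right.eq] using Fil.Cv.const⟩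
  let E : Fin 3 → ℝ → Φ.algˣ := fun m θ => ⟨Fil.exp (θ • σ m), Fil.exp ((-θ) • σ m),
    by rw [← Fil.exp_add, add_neg_cancel, Fil.exp_zero],
    by rw [← Fil.exp_add, neg_add_cancel, Fil.exp_zero]⟩
  have cj : ∀ (J : Φ.algˣ) m θ, (J⁻¹ * E m θ * J).1 = Fil.exp (θ • (J⁻¹.1 * σ m * J.1)) :=
    fun J m θ => (Fil.exp_cj J _).trans (by rw [mul_smul_comm, smul_mul_assoc])
  have te : ∀ m θ, T (E m θ) (rot m θ) := fun m θ => by
    simp only [T, cj, h3]
    exact Fil.Cv.exp fun D => by simpa only [map_smul] using (h2 m D).const_smul θ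
  have se : ∀ m θ, (E m θ, rot m θ) ∈ S := fun m θ => ⟨c4 m θ _ rfl, te m θ, by
    rw [← (Units.ext rfl : E m (-θ) = (E m θ)⁻¹), LinearIsometryEquiv.inv_def, Ro.rot_symm]
    exact te m (-θ)⟩
  have K : ∀ M, (M, 1) ∈ S → M = 1 := fun M hM => Units.ext (Fil.ext fun D => by
    have tr : ∀ M, (M, 1) ∈ S → Φ.tr D (Φ.res D M.1) = Φ.tr D 1 := fun M hM => by
      have := ((Φ.tr D).continuous_of_finiteDimensional.tendsto _).comp (hM.2.1 D)
      rw [map_one, Units.val_one, map_one] at this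
      refine tendsto_nhds_unique (tendsto_const_nhds.congr fun t => ?_) this
      dsimp only [Function.comp]
      rw [Units.val_mul, map_mul]
      refine .trans ?_ (Φ.tr_comm _ _)
      rw [← map_mul, ← Units.val_mul, mul_inv_cancel_left]
    let M' := ρ (rfL 0) * M⁻¹ * ρ (rfL 0)
    have m' : (M', 1) ∈ S := by
      simpa [Lg.PI.rfL_mul] using S.mul_mem (S.mul_mem (sr 0) (S.inv_mem hM)) (sr 0)
    refine sub_eq_zero.1 (ContinuousLinearMap.coe_injective (tr0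
      (fun i => (B i).restrict (Φ.F D)) (fun i => ⟨fun a b => (b1 i).eq a b⟩) (fun i c => b2 i c)
      (fun c h => Subtype.ext (b3 c fun i => LinearMap.congr_fun (h i) c))
      (Q := (Φ.res D ((M' * M).1 - M' - M + 1)).op) (fun i c => ?_) ?_))
    · change B i (M.1.1 c - c) (M.1.1 c - c) = B i c (M'.1.1 (M.1.1 c) - M'.1.1 c - M.1.1 c + c)
      simp only [map_sub, map_add, LinearMap.sub_apply, b4 M hM.1, M']
      ring
    · change Φ.tr D (Φ.res D ((M' * M).1 - M' - M + 1)) = 0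
      simp only [map_add, map_sub, map_one, tr _ m', tr _ hM,
        tr _ (by simpa using S.mul_mem m' hM : (M' * M, 1) ∈ S)]
      ring)
  have uq : ∀ {M M' g}, (M, g) ∈ S → (M', g) ∈ S → M = M' := fun h h' =>
    mul_inv_eq_one.1 (K _ (by simpa using S.mul_mem h (S.inv_mem h')))
  have on : ∀ n, ∀ g ∈ gens ^ n, ∃ M, (M, g) ∈ S := fun n => by
    induction n with
    | zero => rintro g rfl; exact ⟨1, S.one_mem⟩
    | succ n ih =>
      rw [pow_succ]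
      rintro _ ⟨g, hg, _, rfl | ⟨p, rfl⟩, rfl⟩
      exacts [(ih g hg).elim fun M h => ⟨_, S.mul_mem h (sr 0)⟩,
        (ih g hg).elim fun M h => ⟨_, S.mul_mem h (se _ _)⟩]
  choose r hr using fun g => on _ g (euler g)
  let ρ' := MonoidHom.mk' r fun g g' => uq (hr _) (S.mul_mem (hr g) (hr g'))
  have u := fun D => unif (l := l) (a := ((Φ.res D).toMonoidHom.comp (Units.coeHom _)).comp ρ)
    (b := fun t => ((Φ.res D).toMonoidHom.comp (Units.coeHom _)).comp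
      ((MulAut.conj (A t)⁻¹).toMonoidHom.comp ρ'))
    (fun t => congrArg (fun M : Φ.algˣ => Φ.res D M) (by
      simp [ρ', uq (hr _) (sr 0), mul_assoc, ← (h1 t 0).eq]))
    (fun m θ => (congrArg (Φ.res D) (h3 m θ)).trans (by rw [Fil.res_exp, map_smul]))
    (fun t m θ => (congrArg (Φ.res D) ((by simp [ρ', uq (hr _) (se m θ)] : _ = _).trans
      (cj (A t) m θ))).trans (by rw [Fil.res_exp, map_smul])) (tendsto_pi_nhds.2 fun m => h2 m D)
  obtain ⟨J, X, j1, j2, j3⟩ := Fil.equi ((Units.coeHom _).comp ρ) ((Units.coeHom _).comp ρ') A gr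
    (fun D => (u D).1) fun D => by simpa using (u D).2
  have j : ∀ g, J * ρ g = r g * J := fun g => Units.ext (j2 g)
  refine ⟨J, X, j1, fun g => by simpa [j] using (hr g).1, fun μ => by
    rw [Commute, SemiconjBy, j, uq (hr _) (sr μ)], fun m => ?_, fun t g => ?_⟩
  · rw [← Units.inv_mul_eq_iff_eq_mul, ← mul_assoc]
    refine Subtype.ext (LinearMap.ext fun c => (Fil.exp_der _ c).unique ?_)
    simp only [← cj]
    simpa only [← uq (hr _) (se m _), mul_assoc, ← j, inv_mul_cancel_left, h3] using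
      Fil.exp_der (σ₀ m) c
  · rw [Commute, SemiconjBy, mul_assoc, Units.inv_mul_eq_iff_eq_mul, ← mul_assoc J.1]
    refine (j3 t g).trans ?_
    rw [show J.1 * (ρ g).1 = _ from j2 g]
    simp [mul_assoc]

end Pool.Agent.Lib.MP_7f377f_mp.Sw
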