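import Pool.Agent.Lib.MP_7f377f_mp.G.SwE
import Pool.Agent.Lib.MP_7f377f_mp.G.SwG

/-! Rotation covariance from the stress tensor: the covariant fields. -/

noncomputable section

namespace Pool.Agent.Lib.MP_7f377f_mp.Sw
variable [Pool.Agent.Lib.MP_7f377f_mp.GD]
set_option linter.unusedSectionVars false

open Filter Topology Set YM7 Pur Wm Lm Wv S3 Function Matrix ComplexConjugate Lg.PI
open Ro (Iso rot)

variable {V P : Type} [NormedAddCommGroup V] [NormedSpace ℝ V] [CommRing P] [Algebra ℂ P]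
  {Φ : Fil V} {N : Net P} {x : V → (R4 → ℝ) → P} {W : P →ₗ[ℂ] ℂ} {ρ : Iso →* V →ₗ[ℝ] V}
  {T T₀ : Fin 4 → Fin 4 → V} {A : ℝ → V ≃ₗ[ℝ] V} {S : Cor V} {D δ : Fin 4 → V →ₗ[ℝ] V}
  {σ : Mat → V →ₗ[ℝ] V} {δ₀ : Fin 4 → V → V} {σ₀ : Fin 3 → V →ₗ[ℝ] V} {f : R4 → ℝ}
  {M M' : Φ.algˣ} {R R' : Iso}

theorem dt_rt (l : Fin 3) (t : ℝ) : dt (rot l t) = 1 := by
  rw [← add_halves t, ← Ro.rot_mul, dt_mul, ← abs_mul_abs_self, dt, ← LinearMap.normDet_eq_abs_det]
  exact (congrArg₂ (· * ·) (LinearIsometry.normDet_eq_one (rot l (t / 2)).toLinearIsometry)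
    (LinearIsometry.normDet_eq_one (rot l (t / 2)).toLinearIsometry)).trans (mul_one _)

variable (x W) in
/-- covariance of the correlation functions -/
def Cov (M : Φ.algˣ) (R : Iso) : Prop := ∀ k (c : Fin k → V) g, Adm g →
  (W (∏ i, x (c i) fun y => g i (R y))).re = (W (∏ i, x (M.1.1 (c i)) (g i))).re ∧
  (W (∏ i, x (c i) fun y => g i (R y))).im = dt R * (W (∏ i, x (M.1.1 (c i)) (g i))).im

theorem Cov.mul (h : Cov x W M R) (h' : Cov x W M' R') : Cov x W (M * M') (R * R') :=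
  fun k c g hg => by
    have a := h' k c _ (Ro.adm_act hg R.symm)
    have b := h k (fun i => M'.1.1 (c i)) g hg
    exact ⟨a.1.trans b.1, a.2.trans ((congrArg _ b.2).trans (by
      rw [dt_mul, mul_left_comm, mul_assoc]
      rfl))⟩

theorem Cov.inv (h : Cov x W M R) : Cov x W M⁻¹ R⁻¹ := fun k c g hg => by
  have a := h k (fun i => M⁻¹.1.1 (c i)) _ (Ro.adm_act hg R)
  simp only [R.symm_apply_apply, ← Module.End.mul_apply, ← MulMemClass.coe_mul, Units.mul_inv,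
    OneMemClass.coe_one, Module.End.one_apply] at a
  exact ⟨a.1.symm, by rw [a.2, ← mul_assoc, ← dt_mul, inv_mul_cancel, dt_one, one_mul]; rfl⟩

theorem Cov.eq (h : Cov x W M R) (e : dt R = 1) {k : ℕ} (c : Fin k → V) {g : Fin k → R4 → ℝ}
    (hg : Adm g) : W (∏ i, x (c i) fun y => g i (R y)) = W (∏ i, x (M.1.1 (c i)) (g i)) :=
  Complex.ext (h k c g hg).1 (by rw [(h k c g hg).2, e, one_mul])

namespace Rg
variable (h : Rg Φ N x W ρ A S)
include h

/-- the reflection positive form -/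
def bf (hf : Ds (Hs 0 0) f) : LinearMap.BilinForm ℝ V :=
  LinearMap.mk₂ ℝ (fun c c' => (W (x c f * x (ρ (rfL 0) c') fun y => f (rf 0 y))).re)
    (fun c c' d => congrArg Complex.re (map_add
      (h.lab (dc hf) (h.mem (ρ (rfL 0) d) (dc (ds_rf hf)))) c c'))
    (fun t c d => (congrArg Complex.re (h.smc c t hf (h.mem _ (dc (ds_rf hf))))).trans (by simp))
    (fun c d d' => by
      simp only [mul_comm (x c f), map_add (ρ _)]
      exact congrArg Complex.re (map_add (h.lab (dc (ds_rf hf))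
        (h.mem c (dc (hf.mono (compl_compl _).ge)))) _ _))
    fun t c d => by
      simp [mul_comm (x c f), h.smc _ t (ds_rf hf) (h.mem c (dc (hf.mono (compl_compl _).ge)))]

theorem bf_eq (hf : Ds (Hs 0 0) f) (c c' : V) :
    h.bf hf c c' = (W (N.Θ 0 (x c' f) * x c f)).re := by
  rw [h.gen.refl, mul_comm]
  rfl

theorem out' (hc : Cu Φ N x W ρ T) (ho : Ops Φ N x W T D δ σ) (hf : Fr Φ ρ S T₀ δ₀ σ₀)
    (hw : Wt T A D δ σ T₀) (hn : Nsb N x W T) : ∃ J X, Out Φ x W ρ A S D δ σ σ₀ J X := by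
  have eq := h.eqD hc ho hf hw
  let r : Iso →* Φ.algˣ := (ρ.codRestrict Φ.alg hf.up).toHomUnits
  obtain ⟨H, _, _, _, ⟨q⟩⟩ := h.st.exists_rep 0
  obtain ⟨J, X, j1, j2, j3, j4, j5⟩ := grp (l := 𝓝[>] 0) r (fun t => Φ.un (A t) (h.up t)) (Cov x W)
    (fun k c g _ => ⟨rfl, by rw [dt_one, one_mul]; rfl⟩) Cov.mul Cov.inv
    (σ := fun l => ⟨σ (om l), ho.upσ _⟩) (σ₀ := fun l => ⟨σ₀ l, h.up0 hc ho hf hw l⟩)
    (fun l θ M e k c g hg => by
      rw [dt_rt, one_mul, e, h.rotc hc ho eq hn l θ c hg]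
      exact ⟨rfl, rfl⟩)
    (fun μ k c g hg => by
      have := h.st.herm μ (gen_mem h.gen (fun i => ρ (rfL μ) (c i)) hg fun _ => subset_univ _)
      simp only [map_prod, h.gen.refl, rr] at this
      rw [← rn_ax μ one_ne_zero, dt_rn (by simp), rn_ax μ one_ne_zero, rfL_eq, this]
      exact ⟨rfl, (neg_one_mul _).symm⟩)
    (fun t μ => Units.ext (Subtype.ext (LinearMap.ext (h.comm t μ)))) (h.cvσ hc ho hf hw)
    (h.rex hc ho hf hw) hf.gr (fun f : {f // Ds (Hs 0 0) f} => h.bf f.2)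
    (fun f => ⟨fun c c' => by
      have := h.st.herm 0 (Net.rp_adm (h.mem c (dc f.2)) (h.mem c' (dc f.2)))
      rw [map_mul, N.Θ_Θ, mul_comm] at this
      rw [RingHom.id_apply, bf_eq, bf_eq, this, Complex.conj_re]⟩)
    (fun f c => h.bf_eq f.2 c c ▸ h.st.pos 0 (h.mem c (dc f.2)))
    (fun c e => h.nd' c fun c' f hf => by
      have m := h.mem c (dc hf)
      have := (q.nq m).symm.trans ((h.bf_eq hf c c).symm.trans (e ⟨f, hf⟩))
      have e := q.inn (h.mem (ρ (rfL 0) c') (dc hf)) m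
      rw [norm_eq_zero.1 (pow_eq_zero_iff two_ne_zero |>.1 this), inner_zero_right, h.gen.refl, rr,
        mul_comm] at e
      exact e.symm)
    (fun M e f c c' => by
      have := (e 2 ![c, M⁻¹.1.1 (ρ (rfL 0) c')] _ (adm_two (dc f.2) (dc (ds_rf f.2)))).1
      simp only [Fin.prod_univ_two, cons_val_zero, cons_val_one, ← Module.End.mul_apply,
        ← MulMemClass.coe_mul, Units.mul_inv, OneMemClass.coe_one, ← mul_assoc] at this
      exact this.symm.trans (congrArg (fun c' => (W (x c f * x c' _)).re) (rr 0 _).symm))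
  let J' : V ≃ₗ[ℝ] V := LinearEquiv.ofLinear J.1.1 J⁻¹.1.1 (congrArg Subtype.val J.mul_inv)
    (congrArg Subtype.val J.inv_mul)
  refine ⟨J', fun t => (X t).1, eq, ⟨J.1.2, J⁻¹.1.2⟩, fun t => (X t).2, Fil.cv_iff.1 j1,
    fun R e k c g hg => ((j2 R).eq e _ hg).trans ?_,
    fun μ c => congrArg (fun M : Φ.algˣ => M.1.1 c) (j3 μ),
    fun l c => congrArg (fun M : Φ.alg => M.1 c) (j4 l),
    fun t R c => congrArg (fun M : Φ.alg => M.1 c) (j5 t R), fun k c g hg => ?_⟩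
  · exact congrArg W (Finset.prod_congr rfl fun i _ => congrArg (fun a => x (J' (ρ R a)) _)
      (J'.symm_apply_apply _))
  · obtain ⟨d, hd⟩ := Φ.exs c
    exact h.afv hg (fun t i => (X t).2 d _ (hd i)) fun i => Fil.cv_iff.1 j1 _

end Rg

end Pool.Agent.Lib.MP_7f377f_mp.Sw
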