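import Pool.Agent.Lib.MP_7f377f_mp.G.SwM
import Pool.Agent.Lib.MP_7f377f_mp.G.SwF

/-! Rotation covariance from the stress tensor. -/

noncomputable section

namespace Pool.Agent.Lib.MP_7f377f_mp.Sw
variable [Pool.Agent.Lib.MP_7f377f_mp.GD]
set_option linter.unusedSectionVars false

open Filter Topology Set YM7 Pur Wm Lm Wv S3 Matrix
open Ro (Iso rot)

variable {V P : Type} [NormedAddCommGroup V] [NormedSpace ℝ V] [CommRing P] [Algebra ℂ P]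
  {Φ : Fil V} {N : Net P} {x : V → (R4 → ℝ) → P} {W : P →ₗ[ℂ] ℂ} {ρ : Iso →* V →ₗ[ℝ] V}
  {T T₀ : Fin 4 → Fin 4 → V} {A : ℝ → V ≃ₗ[ℝ] V} {S : Cor V} {D δ : Fin 4 → V →ₗ[ℝ] V}
  {σ : Mat → V →ₗ[ℝ] V} {δ₀ : Fin 4 → V → V} {σ₀ : Fin 3 → V →ₗ[ℝ] V}

theorem Rg.nd (h : Rg Φ N x W ρ A S) : Nd x W := h.nd'

theorem Rg.der (h : Rg Φ N x W ρ A S) : ∃ D, Der Φ N x W D := h.der'

theorem Rg.ops (h : Rg Φ N x W ρ A S) (hc : Cu Φ N x W ρ T) (hD : Der Φ N x W D) :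
    ∃ δ σ, Ops Φ N x W T D δ σ := h.ops' hc hD

theorem Rg.out (h : Rg Φ N x W ρ A S) (hc : Cu Φ N x W ρ T) (ho : Ops Φ N x W T D δ σ)
    (hf : Fr Φ ρ S T₀ δ₀ σ₀) (hw : Wt T A D δ σ T₀) (hn : Nsb N x W T) :
    ∃ J X, Out Φ x W ρ A S D δ σ σ₀ J X := h.out' hc ho hf hw hn

end Pool.Agent.Lib.MP_7f377f_mp.Sw
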