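import Pool.Agent.Lib.MP_7f377f_mp.G.PurD

/-! Complexification of the Schwinger functions to the polynomial algebra. -/

noncomputable section

namespace Pool.Agent.Lib.MP_7f377f_mp.Pur
variable [GD]

open MeasureTheory Filter Topology Set Real YM7 MvPolynomial
open scoped NNReal

variable {S : ∀ {k : ℕ}, (Fin k → R4 → ℝ) → ℝ} {S' S'' : Pol →ₗ[ℂ] ℂ}

/-- linearity in each smeared field -/
def LinP (S' : Pol →ₗ[ℂ] ℂ) : Prop := ∀ (g g' : R4 → ℝ) (c : ℝ), HasCompactSupport g →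
  ContDiff ℝ 1 g → HasCompactSupport g' → ContDiff ℝ 1 g' →
  ∀ Z ∈ net.loc (tsupport g ∪ tsupport g')ᶜ,
    S' (X (g + c • g') * Z) = S' (X g * Z) + c * S' (X g' * Z)

namespace PN

variable {k l : ℕ}

theorem mon_eq (f : Fin k → R4 → ℝ) : mon f = monomial (∑ i, Finsupp.single (f i) 1) 1 := by
  rw [mon, monomial_sum_one]
  rfl

theorem exists_equiv {f : Fin k → R4 → ℝ} {g : Fin l → R4 → ℝ} (h : mon f = mon g) :
    ∃ e : Fin l ≃ Fin k, f ∘ e = g := by
  classical
  rw [mon_eq, mon_eq, monomial_left_inj one_ne_zero] at h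
  have h1 : ∀ u, Fintype.card {j // g j = u} = Fintype.card {i // f i = u} := fun u => by
    have := congrArg (fun d : (R4 → ℝ) →₀ ℕ => d u) h
    simp only [Finsupp.finsetSum_apply, Finsupp.single_apply, Finset.sum_boole, Nat.cast_id] at this
    rw [Fintype.card_subtype, Fintype.card_subtype, this]
  exact ⟨Equiv.ofFiberEquiv fun u => Fintype.equivOfCardEq (h1 u),
    funext (Equiv.ofFiberEquiv_map _)⟩

theorem mon_cons (u : R4 → ℝ) (f : Fin k → R4 → ℝ) : mon (Fin.cons u f) = X u * mon f := by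
  simp only [mon, Fin.prod_univ_succ, Fin.cons_zero, Fin.cons_succ]

theorem adm_cons {u : R4 → ℝ} {f : Fin k → R4 → ℝ} (h1 : HasCompactSupport u) (h2 : ContDiff ℝ 1 u)
    (hf : Adm f) (h : ∀ i, Disjoint (tsupport u) (tsupport (f i))) :
    Adm (Fin.cons u f : Fin (k + 1) → R4 → ℝ) :=
  ⟨Fin.forall_fin_succ.2 ⟨⟨h1, h2⟩, hf.1⟩,
    pairwise_fin_succ_iff.2 ⟨fun i => (h i).symm, h, hf.2⟩⟩

/-- the exchange of the axes `0` and `μ` -/
def sw (μ : Fin 4) (y : R4) : R4 := WithLp.toLp 2 (y ∘ Equiv.swap 0 μ)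

theorem sw_eq (μ : Fin 4) :
    ⇑(LinearIsometryEquiv.piLpCongrLeft 2 ℝ ℝ (Equiv.swap 0 μ)) = sw μ := by
  funext y
  ext l
  simp [sw, LinearIsometryEquiv.piLpCongrLeft_apply, Equiv.piCongrLeft'_apply]

theorem sw_self (μ : Fin 4) (y : R4) : sw μ y μ = y 0 := by simp [sw]

theorem sw_zero (μ : Fin 4) (y : R4) : sw μ y 0 = y μ := by simp [sw]

theorem sw_sub (μ : Fin 4) (y v : R4) : sw μ (y - sw μ v) = sw μ y - v := by
  ext l
  simp [sw]

theorem rf_sw (μ : Fin 4) (y : R4) : rf μ (sw μ y) = sw μ (th y) := by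
  ext l
  by_cases h : l = μ
  · simp [rf, sw, th, h]
  · have : Equiv.swap 0 μ l ≠ 0 := fun e => h (by simpa using Equiv.swap_apply_eq_iff.1 e)
    simp [rf, sw, th, h, this]

theorem adm_sw {f : Fin k → R4 → ℝ} (hf : Adm f) (μ : Fin 4) : Adm fun i y => f i (sw μ y) := by
  have := hf.comp (LinearIsometryEquiv.piLpCongrLeft 2 ℝ ℝ (Equiv.swap 0 μ)).toHomeomorph
    (LinearIsometryEquiv.contDiff _)
  rwa [LinearIsometryEquiv.coe_toHomeomorph, sw_eq] at this

theorem pos_sw {f : Fin k → R4 → ℝ} (hf : Adm f) {μ : Fin 4} (h : ∀ i, tsupport (f i) ⊆ Hs μ 0) :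
    Pos fun i y => f i (sw μ y) :=
  ⟨adm_sw hf μ, fun i y hy => (show (0 : ℝ) < _ from h i (tsupport_comp (θ := sw μ)
    (sw_eq μ ▸ LinearIsometryEquiv.continuous _) hy)).trans_eq (sw_self μ y)⟩

theorem exists_sum {O : Set R4} {Z : Pol} (h : Z ∈ net.loc O) : ∃ (m : ℕ) (c : Fin m → ℂ)
    (k : Fin m → ℕ) (f : ∀ a, Fin (k a) → R4 → ℝ), (∀ a, Adm (f a)) ∧
      (∀ a i, tsupport (f a i) ⊆ O) ∧ ∑ a, c a • mon (f a) = Z := by
  obtain ⟨m, c, g, e⟩ := Submodule.mem_span_set'.1 h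
  choose k f h1 h2 h3 using fun a => (g a).2
  exact ⟨m, c, k, f, h1, h2, by simp only [h3, e]⟩

/-- test functions supported in a set -/
def Gd (O : Set R4) (u : R4 → ℝ) : Prop := HasCompactSupport u ∧ ContDiff ℝ 1 u ∧ tsupport u ⊆ O

theorem Gd.zero (O : Set R4) : Gd O 0 := ⟨HasCompactSupport.zero, contDiff_const, by simp⟩

theorem Gd.comb {O : Set R4} {u u' : R4 → ℝ} (h : Gd O u) (h' : Gd O u') (c : ℝ) :
    Gd O (u + c • u') :=
  ⟨h.1.add (h'.1.smul_left (f := fun _ => c)), h.2.1.add (h'.2.1.const_smul c),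
    (tsupport_add _ _).trans (union_subset h.2.2
      ((tsupport_smul_subset_right (fun _ => c) u').trans h'.2.2))⟩

theorem Gd.sum {O : Set R4} {I : Type} (s : Finset I) {g : I → R4 → ℝ} (h : ∀ z, Gd O (g z))
    (c : I → ℝ) : Gd O (∑ z ∈ s, c z • g z) := by
  classical
  induction s using Finset.induction_on with
  | empty => exact Gd.zero O
  | insert a s ha ih => rw [Finset.sum_insert ha, add_comm]; exact ih.comb (h a) _

theorem Gd.mem {O : Set R4} {u : R4 → ℝ} (h : Gd O u) : X u ∈ net.loc O := by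
  have := mon_mem (f := fun _ : Fin 1 => u) (O := O)
    ⟨fun _ => ⟨h.1, h.2.1⟩, Subsingleton.pairwise⟩ fun _ => h.2.2
  rwa [mon, Fin.prod_univ_one] at this

theorem one_slot (h : LinP S') {O : Set R4} {I : Type} (s : Finset I) {g : I → R4 → ℝ}
    (hg : ∀ z, Gd O (g z)) (c : I → ℝ) {Z : Pol} (hZ : Z ∈ net.loc Oᶜ) :
    S' (X (∑ z ∈ s, c z • g z) * Z) = ∑ z ∈ s, c z * S' (X (g z) * Z) := by
  classical
  have e : ∀ {u u' : R4 → ℝ} (c : ℝ), Gd O u → Gd O u' →
      S' (X (u + c • u') * Z) = S' (X u * Z) + c * S' (X u' * Z) := fun c h1 h2 =>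
    h _ _ c h1.1 h1.2.1 h2.1 h2.2.1 Z
      (net.mono hZ (compl_subset_compl.2 (union_subset h1.2.2 h2.2.2)))
  induction s using Finset.induction_on with
  | empty =>
    have := e 1 (Gd.zero O) (Gd.zero O)
    rw [smul_zero, add_zero, left_eq_add] at this
    simpa using this
  | insert a s ha ih =>
    rw [Finset.sum_insert ha, Finset.sum_insert ha, add_comm, e _ (Gd.sum s hg c) (hg a), ih,
      add_comm]

end PN

open PN

theorem exists_lift (hS : OS S) :
    ∃ S' : Pol →ₗ[ℂ] ℂ, ∀ {k} {f : Fin k → R4 → ℝ}, Adm f → S' (mon f) = S f := by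
  classical
  refine ⟨(basisMonomials (R4 → ℝ) ℂ).constr ℂ fun d =>
    if h : ∃ p : Σ k, Fin k → R4 → ℝ, Adm p.2 ∧ mon p.2 = monomial d 1 then S h.choose.2 else 0,
    fun {k f} hf => ?_⟩
  have h : ∃ p : Σ k, Fin k → R4 → ℝ,
      Adm p.2 ∧ mon p.2 = monomial (∑ i, Finsupp.single (f i) 1) 1 := ⟨⟨k, f⟩, hf, mon_eq f⟩
  obtain ⟨e, he⟩ := exists_equiv (h.choose_spec.2.trans (mon_eq f).symm)
  rw [mon_eq, ← congrFun (coe_basisMonomials (R4 → ℝ) ℂ), Module.Basis.constr_basis, dif_pos h,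
    ← hS.perm e h.choose_spec.1, he]

theorem st_of (hS : OS S) (hp : ∀ {k} {f : Fin k → R4 → ℝ}, Adm f → ∀ σ : Equiv.Perm (Fin 4),
    S (fun i y => f i (WithLp.toLp 2 (y ∘ σ))) = S f)
    (h : ∀ {k} {f : Fin k → R4 → ℝ}, Adm f → S' (mon f) = S f) : net.St S' := by
  obtain ⟨H, _, _, _, Ψ, T, -, h1, -, -, h2, -⟩ := hS.reconstruct
  have key : ∀ (μ : Fin 4) {m : ℕ} (c : Fin m → ℂ) {k : Fin m → ℕ} {f : ∀ a, Fin (k a) → R4 → ℝ},
      (∀ a, Adm (f a)) → (∀ a i, tsupport (f a i) ⊆ Hs μ 0) →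
      net.nq S' μ (∑ a, c a • mon (f a)) = ‖∑ a, c a • Ψ fun i y => f a i (sw μ y)‖ ^ 2 := by
    intro μ m c k f f1 f2
    rw [Net.nq, ← inner_self_eq_norm_sq (𝕜 := ℂ), map_sum, Finset.sum_mul, map_sum, sum_inner]
    refine congrArg Complex.re (Finset.sum_congr rfl fun a _ => ?_)
    rw [Finset.mul_sum, map_sum, inner_sum]
    refine Finset.sum_congr rfl fun a' _ => ?_
    have e1 : Adm (Fin.append (fun i y => f a i (rf μ y)) (f a')) :=
      (adm_rf (f1 a) μ).append (f1 a') fun i j => disjoint_left.2 fun y hy hy' => by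
        have e := f2 a i (tsupport_comp (rfL_eq μ ▸ (rfL μ).continuous) hy)
        have e' := f2 a' j hy'
        simp only [Hs, mem_ofPred_eq, rf_self] at e e'
        linarith
    rw [net.Θ_smul, smul_mul_smul_comm, map_smul, Θ_mon, ← mon_append, h e1, inner_smul_left,
      inner_smul_right, h1 _ _ _ _ (pos_sw (f1 a) (f2 a)) (pos_sw (f1 a') (f2 a')),
      ← hp e1 (Equiv.swap 0 μ), smul_eq_mul, mul_assoc]
    congr 4
    funext i y
    induction i using Fin.addCases with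
    | left i =>
      simp only [Fin.append_left]
      exact congrArg _ (rf_sw μ y)
    | right i =>
      simp only [Fin.append_right]
      rfl
  refine ⟨?_, fun {Z} v hZ => ?_, fun {Z} μ hZ => ?_, fun {Z} μ hZ => ?_,
    fun {Z v} μ hZ hv => ?_⟩
  · have := h (f := ![]) ⟨fun i => i.elim0, fun i => i.elim0⟩
    rwa [mon, Fin.prod_univ_zero, hS.nil] at this
  · obtain ⟨m, c, k, f, f1, -, rfl⟩ := exists_sum hZ
    simp only [map_sum, map_smul, τ_mon]
    refine Finset.sum_congr rfl fun a _ => ?_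
    rw [h (adm_sub (f1 a) v), h (f1 a), ← hS.trans (f1 a) (-v)]
    simp only [sub_eq_add_neg]
  · obtain ⟨m, c, k, f, f1, -, rfl⟩ := exists_sum hZ
    simp only [map_sum, map_smul, net.Θ_smul, Θ_mon, smul_eq_mul, map_mul]
    refine Finset.sum_congr rfl fun a _ => ?_
    rw [h (adm_rf (f1 a) μ), h (f1 a), Complex.conj_ofReal, ← hp (f1 a) (Equiv.swap 0 μ),
      ← hp (adm_rf (f1 a) μ) (Equiv.swap 0 μ)]
    refine congrArg _ (congrArg _ (Eq.trans ?_ (hS.refl (adm_sw (f1 a) μ))))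
    exact congrArg S (funext fun i => funext fun y => congrArg _ (rf_sw μ y))
  · obtain ⟨m, c, k, f, f1, f2, rfl⟩ := exists_sum hZ
    rw [key μ c f1 f2]
    positivity
  · obtain ⟨m, c, k, f, f1, f2, rfl⟩ := exists_sum hZ
    obtain ⟨t1, -, -, t2⟩ := h2 (sw μ v) (hv.trans_eq (sw_zero μ v).symm)
    simp only [map_sum, map_smul, τ_mon]
    rw [key μ c f1 f2, key μ c (fun a => adm_sub (f1 a) v) fun a i y hy => by
      have := f2 a i (tsupport_comp (θ := fun y => y - v) (by fun_prop) hy)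
      simp only [Hs, mem_ofPred_eq, PiLp.sub_apply] at this ⊢
      linarith]
    gcongr
    refine le_trans (le_of_eq (congrArg _ ?_))
      (((T (sw μ v)).le_of_opNorm_le t1 _).trans_eq (one_mul _))
    rw [map_sum]
    refine Finset.sum_congr rfl fun a _ => ?_
    rw [map_smul, t2 _ _ (pos_sw (f1 a) (f2 a))]
    simp only [sw_sub]

theorem linP_of [MeasurableSpace SU2] [BorelSpace SU2] {h : Measure SU2} [h.IsHaarMeasure]
    [IsProbabilityMeasure h] {n : ℕ → ℕ+} {a b : ℕ → ℝ} (cv : ∀ {k} {f : Fin k → R4 → ℝ}, Adm f →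
      Tendsto (fun j => corr h (b j) (n j) (a j) f) atTop (𝓝 (S f)))
    (h : ∀ {k} {f : Fin k → R4 → ℝ}, Adm f → S' (mon f) = S f) : LinP S' := by
  rename_i m _ _
  intro g g' c g1 g2 g3 g4 Z hZ
  obtain ⟨r, d, k, f, f1, f2, rfl⟩ := exists_sum hZ
  simp only [Finset.mul_sum, mul_smul_comm, map_sum, map_smul, ← Finset.sum_add_distrib]
  refine Finset.sum_congr rfl fun i _ => ?_
  have a1 : Gd (tsupport g ∪ tsupport g') g := ⟨g1, g2, subset_union_left⟩
  have a2 : Gd (tsupport g ∪ tsupport g') g' := ⟨g3, g4, subset_union_right⟩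
  have a3 : ∀ {u}, Gd (tsupport g ∪ tsupport g') u → Adm (Fin.cons u (f i) : Fin (k i + 1) → _) :=
    fun hu => adm_cons hu.1 hu.2.1 (f1 i) fun j => disjoint_compl_right.mono hu.2.2 (f2 i j)
  have e : S (Fin.cons (g + c • g') (f i)) = S (Fin.cons g (f i)) + c * S (Fin.cons g' (f i)) := by
    refine tendsto_nhds_unique (cv (a3 (a1.comb a2 c)))
      (((cv (a3 a1)).add ((cv (a3 a2)).const_mul c)).congr fun j => ?_)
    have e1 : ∀ u : R4 → ℝ, corr m (b j) (n j) (a j) (Fin.cons u (f i)) = gM m (b j) (k i + 1)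
        (Fin.cons (fun x _ _ => u (xp (a j) x)) fun l x _ _ => f i l (xp (a j) x)) := fun u => by
      rw [corr_eq, ← gM_apply]
      exact congrArg _ (funext fun l => Fin.cases rfl (fun _ => rfl) l)
    rw [e1, e1, e1, ← smul_eq_mul, ← MultilinearMap.cons_smul, ← MultilinearMap.cons_add]
    rfl
  rw [← mon_cons, ← mon_cons, ← mon_cons, h (a3 (a1.comb a2 c)), h (a3 a1), h (a3 a2), e]
  simp only [smul_eq_mul]
  push_cast
  ring

theorem LinP.dom (h : LinP S') (hd : net.Dom S' S'') : LinP S'' := by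
  intro g g' c g1 g2 g3 g4 Z hZ
  have a1 : Gd (tsupport g ∪ tsupport g') g := ⟨g1, g2, subset_union_left⟩
  have a2 : Gd (tsupport g ∪ tsupport g') g' := ⟨g3, g4, subset_union_right⟩
  have a3 : ∀ {u}, Gd (tsupport g ∪ tsupport g') u → X u * Z ∈ net.loc univ := fun hu =>
    Net.adm (net.mul hu.mem hZ disjoint_compl_right)
  obtain ⟨D, hD⟩ := (IsCompact.union g1 g3).isBounded.exists_norm_le
  have key := hd.eq_zero (μ := 0) (X := X (g + c • g') * Z - (X g * Z + (c : ℂ) • (X g' * Z)))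
    (Submodule.sub_mem _ (a3 (a1.comb a2 c))
      (Submodule.add_mem _ (a3 a1) (Submodule.smul_mem _ _ (a3 a2)))) ?_
  · rwa [map_sub, map_add, map_smul, sub_eq_zero] at key
  filter_upwards [Net.box hZ, eventually_ge_atTop D, eventually_ge_atTop 0] with R h1 h2 h3 B hB
  have b1 : ∀ y ∈ tsupport g ∪ tsupport g', |y 0| ≤ R := fun y hy =>
    ((PiLp.norm_apply_le y 0).trans (hD y hy)).trans h2
  have b2 : net.Θ 0 B * Z * B ∈ net.loc (tsupport g ∪ tsupport g')ᶜ := by
    refine net.mono (net.mul (net.mul (net.Θ_mem 0 hB) h1 (disjoint_left.2 fun y e e' => ?_)) hB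
      (disjoint_left.2 fun y e e' => ?_)) fun y e hy => ?_
    · have := e 0
      rw [rf_self] at this
      linarith [(abs_lt.1 (e'.2 0)).1]
    · rcases e with e | e
      · have := e 0
        rw [rf_self] at this
        linarith [e' 0]
      · linarith [e' 0, (abs_lt.1 (e.2 0)).2]
    · rcases e with (e | e) | e
      · have := e 0
        rw [rf_self] at this
        linarith [(abs_le.1 (b1 y hy)).1]
      · exact e.1 hy
      · linarith [e 0, (abs_le.1 (b1 y hy)).2]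
  rw [show net.Θ 0 B * (X (g + c • g') * Z - (X g * Z + (c : ℂ) • (X g' * Z))) * B =
    X (g + c • g') * (net.Θ 0 B * Z * B) - (X g * (net.Θ 0 B * Z * B) +
      (c : ℂ) • (X g' * (net.Θ 0 B * Z * B))) by simp only [smul_eq_C_mul]; ring,
    map_sub, map_add, map_smul, h g g' c g1 g2 g3 g4 _ b2, smul_eq_mul, sub_self]

/-- expansion in all slots -/
theorem LinP.sum (h : LinP S') {k : ℕ} {I : Type} [Fintype I] {g : Fin k → I → R4 → ℝ}
    {O : Fin k → Set R4} (hO : Pairwise fun i j => Disjoint (O i) (O j))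
    (hg : ∀ i z, HasCompactSupport (g i z) ∧ ContDiff ℝ 1 (g i z) ∧ tsupport (g i z) ⊆ O i)
    (c : Fin k → I → ℝ) : ∀ Z ∈ net.loc (⋃ i, O i)ᶜ, S' (mon (fun i => ∑ z, c i z • g i z) * Z) =
      ∑ z : Fin k → I, (∏ i, c i (z i) : ℝ) * S' (mon (fun i => g i (z i)) * Z) := by
  induction k with
  | zero => intro Z _; simp [mon]
  | succ k ih =>
    intro Z hZ
    obtain ⟨o1, -, o2⟩ := pairwise_fin_succ_iff.1 hO
    have s1 : ∀ i, Gd (O i) (∑ z, c i z • g i z) := fun i => Gd.sum _ (hg i) _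
    have u1 : ⋃ i : Fin k, O i.succ ⊆ ⋃ i, O i := iUnion_subset fun i => subset_iUnion O _
    have u2 : Disjoint (⋃ i : Fin k, O i.succ) (O 0) := disjoint_iUnion_left.2 o1
    have m1 : mon (fun i : Fin k => ∑ z, c i.succ z • g i.succ z) * Z ∈ net.loc (O 0)ᶜ :=
      net.mono (net.mul (mon_mem ⟨fun i => ⟨(s1 _).1, (s1 _).2.1⟩, fun i j e =>
        (o2 e).mono (s1 _).2.2 (s1 _).2.2⟩ fun i => (s1 _).2.2.trans
          (subset_iUnion (fun i : Fin k => O i.succ) i)) hZ (disjoint_compl_right.mono_left u1))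
        (union_subset u2.subset_compl_right (compl_subset_compl.2 (subset_iUnion O 0)))
    have m2 : ∀ z, X (g 0 z) * Z ∈ net.loc (⋃ i : Fin k, O i.succ)ᶜ := fun z =>
      net.mono (net.mul (Gd.mem (hg 0 z)) hZ (disjoint_compl_right.mono_left (subset_iUnion O 0)))
        (union_subset u2.subset_compl_left (compl_subset_compl.2 u1))
    rw [mon, Fin.prod_univ_succ, mul_assoc, ← mon, one_slot h _ (hg 0) _ m1,
      ← (Fin.consEquiv fun _ => I).sum_comp, Fintype.sum_prod_type]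
    refine Finset.sum_congr rfl fun z _ => ?_
    rw [mul_left_comm, ih o2 (fun i => hg i.succ) _ _ (m2 z), Finset.mul_sum]
    refine Finset.sum_congr rfl fun w _ => ?_
    simp only [mon, Fin.prod_univ_succ, Fin.consEquiv_apply, Fin.cons_zero, Fin.cons_succ]
    rw [mul_left_comm (∏ i, _), ← mul_assoc (X _)]
    push_cast
    ring

end Pool.Agent.Lib.MP_7f377f_mp.Pur
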