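import Pool.Agent.Lib.MP_7f377f_mp.G.PurQ
import Pool.Agent.Lib.MP_7f377f_mp.G.PurN

/-! Operator bounds for all local polynomials: smooth partition of unity and folding into arrays. -/

noncomputable section

namespace Pool.Agent.Lib.MP_7f377f_mp.Pur
variable [GD]

open MeasureTheory Filter Topology Set Real YM7 MvPolynomial
open scoped NNReal

variable {S : ∀ {k : ℕ}, (Fin k → R4 → ℝ) → ℝ} {S' : Pol →ₗ[ℂ] ℂ}

theorem closed_box (lo hi : Fin 4 → ℝ) : IsClosed {y : R4 | ∀ l, lo l ≤ y l ∧ y l ≤ hi l} := by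
  simp only [ofPred_forall]
  exact isClosed_iInter fun l => IsClosed.and (isClosed_le (by fun_prop) (by fun_prop))
    (isClosed_le (by fun_prop) (by fun_prop))

theorem tsupp_box {f : R4 → ℝ} {lo hi : Fin 4 → ℝ}
    (h : ∀ y, f y ≠ 0 → ∀ l, lo l ≤ y l ∧ y l ≤ hi l) {y : R4} (hy : y ∈ tsupport f) (l : Fin 4) :
    lo l ≤ y l ∧ y l ≤ hi l := closure_minimal h (closed_box lo hi) hy l

theorem cpt_box {f : R4 → ℝ} {lo hi : Fin 4 → ℝ}
    (h : ∀ y, f y ≠ 0 → ∀ l, lo l ≤ y l ∧ y l ≤ hi l) : HasCompactSupport f :=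
  .of_support_subset_isCompact (isCompact_closedBall 0 (2 * ∑ l, (|lo l| + |hi l|))) fun y hy =>
    dist_le_two fun l => by
      have h1 := Finset.single_le_sum (f := fun l => |lo l| + |hi l|) (fun _ _ => by positivity)
        (Finset.mem_univ l)
      have h2 := h y hy l
      rw [PiLp.zero_apply, sub_zero, abs_le]
      constructor <;> linarith [neg_abs_le (lo l), le_abs_self (hi l), abs_nonneg (lo l),
        abs_nonneg (hi l), h2.1, h2.2]

theorem adm_cells {k : ℕ} {F : Fin k → R4 → ℝ} {d : Fin k → Fin 4 → ℤ} {s δ : ℝ} (s0 : 0 < s)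
    (δ0 : 0 < δ) (h1 : ∀ i, ContDiff ℝ 1 (F i)) (h2 : Function.Injective d)
    (h3 : ∀ i y, F i y ≠ 0 → ∀ l, d i l * s + δ ≤ y l ∧ y l ≤ (d i l + 1) * s - δ) : Adm F := by
  refine ⟨fun i => ⟨cpt_box (h3 i), h1 i⟩, fun i j hij => disjoint_left.2 fun y hi hj =>
    hij (h2 (funext fun l => ?_))⟩
  have e1 := tsupp_box (h3 i) hi l
  have e2 := tsupp_box (h3 j) hj l
  have e3 : (d i l : ℝ) < d j l + 1 := lt_of_mul_lt_mul_right (by linarith [e1.1, e2.2]) s0.le
  have e4 : (d j l : ℝ) < d i l + 1 := lt_of_mul_lt_mul_right (by linarith [e1.2, e2.1]) s0.le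
  have e5 : d i l < d j l + 1 := by exact_mod_cast e3
  have e6 : d j l < d i l + 1 := by exact_mod_cast e4
  omega

/-- the folding of the cell `c` onto the cell `0` -/
def fo (w : ℝ) (c : Fin 4 → ℤ) (y : R4) : R4 :=
  WithLp.toLp 2 fun l => if Even (c l) then y l - c l * w else (c l + 1) * w - y l

theorem fo_zero (w : ℝ) (y : R4) : fo w 0 y = y := by
  ext l
  simp [fo]

theorem fo_rf (w : ℝ) (c : Fin 4 → ℤ) (μ : Fin 4) (y : R4) :
    fo w c (rf μ y) = fo w (Function.update c μ (-c μ - 1)) y := by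
  ext l
  by_cases h : l = μ
  · subst h
    by_cases e : Even (c l) <;> simp [fo, e, ← Int.not_even_iff_odd] <;> ring
  · simp [fo, rf_ne h, h]

theorem fo_ax (w : ℝ) (c : Fin 4 → ℤ) (μ : Fin 4) (y : R4) :
    fo w c (y - ax μ (2 * w)) = fo w (c + Pi.single μ 2) y := by
  ext l
  by_cases h : l = μ
  · subst h
    by_cases e : Even (c l) <;> simp [fo, e, Int.even_add] <;> ring
  · simp [fo, h]

theorem fo_lip (w : ℝ) (c : Fin 4 → ℤ) : LipschitzWith 1 (fo w c) :=
  .of_dist_le_mul fun x y => by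
    rw [NNReal.coe_one, one_mul, EuclideanSpace.dist_eq, EuclideanSpace.dist_eq]
    refine (congrArg _ (Finset.sum_congr rfl fun l _ => ?_)).le
    by_cases e : Even (c l) <;> simp only [fo, e, if_true, if_false, dist_sub_left, dist_sub_right]

theorem fo_smooth (w : ℝ) (c : Fin 4 → ℤ) : ContDiff ℝ 1 (fo w c) :=
  contDiff_euclidean.2 fun l => by
    by_cases e : Even (c l) <;> simp only [fo, e, if_true, if_false] <;> fun_prop

theorem card_cells (M : ℕ) (lo hi : Fin 4 → ℤ) :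
    (cells (fun l => lo l * M) fun l => hi l * M).card = M ^ 4 * (cells lo hi).card := by
  have e : ∀ x : ℤ, (x * M).toNat = M * x.toNat := fun x => by
    rcases le_total 0 x with h | h
    · rw [Int.toNat_mul h (Int.natCast_nonneg M), Int.toNat_natCast, mul_comm]
    · rw [Int.toNat_eq_zero.2 h, Int.toNat_eq_zero.2 (mul_nonpos_of_nonpos_of_nonneg h
        (Int.natCast_nonneg M)), mul_zero]
  simp only [Fintype.card_piFinset, Int.card_Ico, ← sub_mul, e, Finset.prod_mul_distrib,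
    Finset.prod_const, Finset.card_univ, Fintype.card_fin]

theorem qb_cell (hS : net.St S') (h : ∀ {k} {f : Fin k → R4 → ℝ}, Adm f → S' (mon f) = S f)
    (hA : ArrS S) (e M : ℕ) {δ : ℝ} (δ0 : 0 < δ) (M0 : 0 < M) : ∃ C : ℝ, ∀ {k : ℕ}
    (g : Fin k → R4 → ℝ) (c : Fin k → Fin 4 → ℤ), (∀ i, ContDiff ℝ 1 (g i)) →
      Function.Injective c → (∀ i l, 0 ≤ c i l ∧ c i l < M) →
      (∀ i, LipschitzWith 1 (g i) ∧ ∀ y, |g i y| ≤ 1 ∧ (g i y ≠ 0 → ∀ l,
        c i l * (3 ^ e)⁻¹ + δ ≤ y l ∧ y l ≤ (c i l + 1) * (3 ^ e)⁻¹ - δ)) →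
      net.QB S' (mon g) (2 * (M * (3 ^ e)⁻¹)) C := by
  obtain ⟨C, hC⟩ := hA e δ δ0
  refine ⟨exp (C * M ^ 4), fun {k} g c g1 c1 c2 g2 => ?_⟩
  obtain ⟨s, hs⟩ : ∃ s : ℝ, (3 ^ e)⁻¹ = s := ⟨_, rfl⟩
  have s0 : 0 < s := by rw [← hs]; positivity
  simp only [hs] at hC g2 ⊢
  obtain ⟨d, d1, d2⟩ : ∃ d : (Fin 4 → ℤ) → Fin k → Fin 4 → ℤ,
      (∀ a i l, d a i l = if Even (a l) then a l * M + c i l else (a l + 1) * M - c i l - 1) ∧
      ∀ a i y, g i (fo (M * s) a y) ≠ 0 → ∀ l,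
        d a i l * s + δ ≤ y l ∧ y l ≤ (d a i l + 1) * s - δ := by
    refine ⟨_, fun _ _ _ => rfl, fun a i y hy l => ?_⟩
    have := ((g2 i).2 _).2 hy l
    by_cases e : Even (a l) <;> simp only [fo, e, if_true, if_false] at this ⊢ <;> push_cast <;>
      constructor <;> linarith [this.1, this.2]
  have d3 : ∀ a i l, a l * M ≤ d a i l ∧ d a i l < (a l + 1) * M := fun a i l => by
    have := c2 i l
    rw [d1]
    split_ifs <;> constructor <;> linarith [this.1, this.2]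
  have d4 : ∀ a i a' i', d a i = d a' i' → a = a' ∧ i = i' := fun a i a' i' u => by
    have M1 : (0 : ℤ) ≤ M := Int.natCast_nonneg M
    obtain rfl : a = a' := funext fun l => by
      have e1 := d3 a i l
      have e2 := d3 a' i' l
      rw [u] at e1
      have e3 := lt_of_mul_lt_mul_right (e1.1.trans_lt e2.2) M1
      have e4 := lt_of_mul_lt_mul_right (e2.1.trans_lt e1.2) M1
      omega
    refine ⟨rfl, c1 (funext fun l => ?_)⟩
    have := congrFun u l
    rw [d1, d1] at this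
    split_ifs at this <;> omega
  have := Net.qb_of_arr hS (w := M * s) (η := exp (C * M ^ 4)) (by positivity) (exp_pos _).le
    (fun a => mon fun i y => g i (fo (M * s) a y)) (fun a => ?_)
    (fun μ a => by simp only [Θ_mon, fo_rf]) (fun μ a => by simp only [τ_mon, fo_ax])
    fun lo hi => ?_
  · simpa only [fo_zero] using this
  · refine mon_mem (adm_cells s0 δ0 (fun i => (g1 i).comp (fo_smooth _ a))
      (fun i j u => (d4 a i a j u).2) (d2 a)) fun i y hy l => ?_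
    have e1 := tsupp_box (d2 a i) hy l
    have e2 : (a l * M : ℝ) ≤ d a i l := by exact_mod_cast (d3 a i l).1
    have e3 : (d a i l + 1 : ℝ) ≤ (a l + 1) * M := by exact_mod_cast (d3 a i l).2
    constructor <;> nlinarith [e1.1, e1.2]
  · let φ := (Fintype.equivFin (cells lo hi × Fin k)).symm
    have e1 : Function.Injective fun j => d (φ j).1 (φ j).2 := fun j j' u =>
      φ.injective (Prod.ext (Subtype.ext (d4 _ _ _ _ u).1) (d4 _ _ _ _ u).2)
    have e2 := adm_cells (F := fun j y => g (φ j).2 (fo (M * s) (φ j).1 y)) s0 δ0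
      (fun j => (g1 _).comp (fo_smooth _ _)) e1 fun j => d2 _ _
    have e3 : ∏ a ∈ cells lo hi, mon (fun i y => g i (fo (M * s) a y)) =
        mon fun j y => g (φ j).2 (fo (M * s) (φ j).1 y) := by
      rw [← Finset.prod_coe_sort, mon, φ.prod_comp fun p : cells lo hi × Fin k =>
        (X fun y => g p.2 (fo (M * s) p.1 y) : Pol), Fintype.prod_prod_type]
      rfl
    rw [e3, h e2, Complex.norm_real, norm_eq_abs, ← exp_nat_mul]
    refine (hC (fun l => lo l * M) (fun l => hi l * M) _ _ _ e2 e1 (fun j => ?_) fun j =>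
      ⟨one_mul (1 : ℝ≥0) ▸ (g2 _).1.comp (fo_lip _ _), fun y => ⟨((g2 _).2 _).1, d2 _ _ y⟩⟩).trans_eq ?_
    · refine Fintype.mem_piFinset.2 fun l => Finset.mem_Ico.2 ?_
      have u1 := Finset.mem_Ico.1 (Fintype.mem_piFinset.1 (φ j).1.2 l)
      have u2 := d3 (φ j).1 (φ j).2 l
      have M1 : (0 : ℤ) ≤ M := Int.natCast_nonneg M
      exact ⟨(mul_le_mul_of_nonneg_right u1.1 M1).trans u2.1,
        u2.2.trans_le (mul_le_mul_of_nonneg_right u1.2 M1)⟩
    · rw [card_cells]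
      push_cast
      congr 1
      ring

theorem qb_zero (hS : net.St S') (hL : LinP S') {k : ℕ} {g : Fin k → R4 → ℝ} (hg : Adm g) {R : ℝ}
    (R0 : 0 ≤ R) (hR : ∀ i, tsupport (g i) ⊆ Bx R) {i : Fin k} (hi : g i = 0) :
    net.QB S' (mon g) R 0 := by
  refine Net.qb_null (mon_mem hg hR) R0 hS fun Z hZ => ?_
  have := hL.sum (I := Unit) (g := fun j _ => g j) hg.2
    (fun j _ => ⟨(hg.1 j).1, (hg.1 j).2, subset_rfl⟩) (fun j _ => if j = i then 0 else 1) Z
    (net.mono hZ (compl_subset_compl.2 (iUnion_subset hR)))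
  rw [show (fun j => ∑ _z : Unit, (if j = i then (0 : ℝ) else 1) • g j) = g from funext fun j => by
    by_cases e : j = i <;> simp [e, hi]] at this
  rw [this]
  refine Finset.sum_eq_zero fun z _ => ?_
  rw [Finset.prod_eq_zero (Finset.mem_univ i) (by simp), Complex.ofReal_zero, zero_mul]

theorem qb_piece (hS : net.St S') (h : ∀ {k} {f : Fin k → R4 → ℝ}, Adm f → S' (mon f) = S f)
    (hL : LinP S') (hA : ArrS S) (k D e : ℕ) {η δ : ℝ} (η0 : 0 < η)
    (hw : (3 ^ e)⁻¹ = η * (3 * k + 1)) (hδ : 2 * (3 ^ e)⁻¹ < δ) : ∃ C R' : ℝ, 0 ≤ R' ∧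
    ∀ (g : Fin k → R4 → ℝ) (c : Fin k → Fin 4 → ℤ), Adm g → (∀ i l, 0 ≤ c i l ∧ c i l ≤ 2 * D) →
      (∀ i, LipschitzWith 1 (g i) ∧ ∀ y, |g i y| ≤ 1 ∧ (g i y ≠ 0 → ∀ l,
        |y l - η * (c i l - D : ℤ)| ≤ η)) →
      (∀ i j, i ≠ j → ∀ x y, g i x ≠ 0 → g j y ≠ 0 → δ ≤ dist x y) →
      net.QB S' (mon g) R' C := by
  obtain ⟨C, hC⟩ := qb_cell hS h hA e (2 * D + (3 * k + 1)) η0 (by omega)
  obtain ⟨w, hs⟩ : ∃ s : ℝ, (3 ^ e)⁻¹ = s := ⟨_, rfl⟩
  simp only [hs] at hC hw hδ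
  have w0 : 0 < w := by rw [hw]; positivity
  have D0 : 0 ≤ η * D := by positivity
  obtain ⟨W, hW⟩ : ∃ W, W = 2 * ((2 * D + (3 * k + 1) : ℕ) * w) := ⟨_, rfl⟩
  have W0 : 0 ≤ W := by rw [hW]; positivity
  have k0 : 0 ≤ η * k := by positivity
  rw [← hW] at hC
  refine ⟨max C 0, W + 2 * (η * D + w + η), by positivity, fun g c g1 c1 g2 g3 => ?_⟩
  by_cases h0 : ∃ i, g i = 0
  · obtain ⟨i, hi⟩ := h0
    refine (qb_zero hS hL g1 (by positivity) (fun j y hy l => ?_) hi).mono hS le_rfl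
      (le_max_right _ _)
    have e1 := tsupp_box (lo := fun l => η * (c j l - D : ℤ) - η) (hi := fun l =>
      η * (c j l - D : ℤ) + η) (fun y hy l => abs_sub_le_iff.1 (((g2 j).2 y).2 hy l) |>.symm.imp
        (by intro; linarith) (by intro; linarith)) hy l
    have e2 : (0 : ℝ) ≤ c j l := by exact_mod_cast (c1 j l).1
    have e3 : (c j l : ℝ) ≤ 2 * D := by exact_mod_cast (c1 j l).2
    push_cast at e1
    rw [abs_lt]
    constructor <;> nlinarith [e1.1, e1.2]
  choose j j0 j1 hj using fun l => exists_residue fun i => c i l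
  obtain ⟨v, hv⟩ : ∃ v : R4, ∀ l, v l = η * (D + j l) := ⟨WithLp.toLp 2 _, fun _ => rfl⟩
  have key : ∀ i y, g i (y - v) ≠ 0 → ∀ l,
      ((c i l + j l) / (3 * k + 1) : ℤ) * w + η ≤ y l ∧
      y l ≤ (((c i l + j l) / (3 * k + 1) : ℤ) + 1) * w - η := by
    intro i y hy l
    have e1 : ((3 * k + 1) * ((c i l + j l) / (3 * k + 1) : ℤ) +
        ((c i l + j l) % (3 * k + 1) : ℤ) : ℝ) = c i l + j l := by
      exact_mod_cast Int.mul_ediv_add_emod (c i l + j l) (3 * k + 1)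
    have e2 : (2 : ℝ) ≤ ((c i l + j l) % (3 * k + 1) : ℤ) := by exact_mod_cast (hj l i).1
    have e3 : (((c i l + j l) % (3 * k + 1) : ℤ) : ℝ) ≤ 3 * k - 1 := by exact_mod_cast (hj l i).2
    have e4 := abs_le.1 (((g2 i).2 _).2 hy l)
    have e5 := congrArg (η * ·) e1
    have e6 := mul_le_mul_of_nonneg_left e2 η0.le
    have e7 := mul_le_mul_of_nonneg_left e3 η0.le
    rw [PiLp.sub_apply, hv, Int.cast_sub, Int.cast_natCast] at e4
    rw [hw]
    constructor <;> linarith [e4.1, e4.2]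
  have := (hC (fun i y => g i (y - v)) (fun i l => (c i l + j l) / (3 * k + 1))
    (fun i => ((adm_sub g1 v).1 i).2) (fun i i' u => ?_) (fun i l => ?_) fun i => ⟨?_, fun y =>
      ⟨((g2 i).2 _).1, key i y⟩⟩).tau hS (-v)
  · rw [τ_mon] at this
    simp only [sub_neg_eq_add, add_sub_cancel_right] at this
    refine this.mono hS ?_ (le_max_left _ _)
    rw [norm_neg, ← dist_zero_right]
    refine add_le_add_right (dist_le_two fun l => ?_) _
    have e4 : (0 : ℝ) ≤ j l := by exact_mod_cast j0 l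
    have e5 : (j l : ℝ) ≤ 3 * k + 1 := by exact_mod_cast (j1 l).le
    rw [PiLp.zero_apply, sub_zero, hv, abs_of_nonneg (by positivity), hw]
    nlinarith
  · by_contra hi
    simp only [not_exists, _root_.funext_iff, not_forall] at h0
    obtain ⟨x, hx⟩ := h0 i
    obtain ⟨y, hy⟩ := h0 i'
    refine (g3 i i' hi x y hx hy).not_gt ((dist_le_two fun l => ?_).trans_lt hδ)
    have e1 := key i (x + v) (by rwa [add_sub_cancel_right]) l
    have e2 := key i' (y + v) (by rwa [add_sub_cancel_right]) l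
    rw [show (c i l + j l) / (3 * k + 1) = (c i' l + j l) / (3 * k + 1) from congrFun u l] at e1
    rw [PiLp.add_apply] at e1 e2
    rw [abs_le]
    constructor <;> linarith [e1.1, e1.2, e2.1, e2.2]
  · have e1 := c1 i l
    have e2 := j0 l
    have e3 := j1 l
    exact ⟨Int.ediv_nonneg (by omega) (by omega),
      (Int.ediv_le_self _ (by omega)).trans_lt (by omega)⟩
  · exact .of_dist_le_mul fun x y => ((g2 i).1.dist_le_mul _ _).trans_eq (by rw [dist_sub_right])

/-- the smooth hat function -/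
def hatS (t : ℝ) : ℝ := smoothTransition (t + 1) - smoothTransition t

/-- the smooth partition of unity -/
def bumpS (η : ℝ) (c : Fin 4 → ℤ) (y : R4) : ℝ := ∏ l, hatS (y l / η - c l)

theorem abs_bumpS (η : ℝ) (c : Fin 4 → ℤ) (y : R4) : |bumpS η c y| ≤ 1 := by
  rw [bumpS, Finset.abs_prod]
  refine Finset.prod_le_one (fun _ _ => abs_nonneg _) fun l _ => ?_
  exact abs_sub_le_of_nonneg_of_le (smoothTransition.nonneg _) (smoothTransition.le_one _)
    (smoothTransition.nonneg _) (smoothTransition.le_one _)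

theorem bumpS_smooth (η : ℝ) (c : Fin 4 → ℤ) : ContDiff ℝ 1 (bumpS η c) :=
  contDiff_prod fun l _ => (smoothTransition.contDiff.comp (by fun_prop)).sub
    (smoothTransition.contDiff.comp (by fun_prop))

theorem bumpS_supp {η : ℝ} (hη : 0 < η) {c : Fin 4 → ℤ} {y : R4} (h : bumpS η c y ≠ 0) (l : Fin 4) :
    |y l - η * c l| ≤ η := by
  have h := Finset.prod_ne_zero_iff.1 h l (Finset.mem_univ l)
  have : |y l / η - c l| ≤ 1 := by
    by_contra h1
    rcases lt_abs.1 (not_le.1 h1) with h2 | h2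
    · exact h (by rw [hatS, smoothTransition.one_of_one_le h2.le,
        smoothTransition.one_of_one_le (by linarith), sub_self])
    · exact h (by rw [hatS, smoothTransition.zero_of_nonpos (by linarith),
        smoothTransition.zero_of_nonpos (by linarith), sub_self])
  rwa [div_sub' hη.ne', abs_div, abs_of_pos hη, div_le_one hη] at this

theorem sum_bumpS {η : ℝ} (hη : 0 < η) {D : ℕ} {y : R4} (h : ∀ l, |y l| ≤ η * D) :
    ∑ z : Fin 4 → Fin (2 * D + 1), bumpS η (fun l => z l - D) y = 1 := by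
  simp only [bumpS]
  rw [← Fintype.prod_sum fun (l : Fin 4) (j : Fin (2 * D + 1)) =>
    hatS (y l / η - (((j : ℤ) - D : ℤ) : ℝ))]
  refine Finset.prod_eq_one fun l _ => ?_
  have h : |y l / η| ≤ D := by
    rw [abs_div, abs_of_pos hη, div_le_iff₀' hη]
    exact h l
  generalize y l / η = t at h
  have := Finset.sum_range_sub' (fun j : ℕ => smoothTransition (t + D + 1 - j)) (2 * D + 1)
  rw [abs_le] at h
  rw [smoothTransition.one_of_one_le (x := t + D + 1 - (0 : ℕ)) (by push_cast; linarith),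
    smoothTransition.zero_of_nonpos (x := t + D + 1 - (2 * D + 1 : ℕ)) (by push_cast; linarith),
    sub_zero, ← Fin.sum_univ_eq_sum_range fun j =>
      smoothTransition (t + D + 1 - j) - smoothTransition (t + D + 1 - (j + 1 : ℕ))] at this
  rw [← this]
  refine Finset.sum_congr rfl fun j _ => ?_
  rw [hatS]
  congr 2 <;> push_cast <;> ring

theorem norm_piece {b f : R4 → ℝ} {K L : ℝ≥0} {A : ℝ} (A0 : 0 ≤ A) (hb : LipschitzWith K b)
    (hb' : ∀ y, |b y| ≤ 1) (hf : LipschitzWith L f) (hf' : ∀ y, |f y| ≤ L * A) :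
    LipschitzWith 1 (fun y => ((1 + A + A * K) * L)⁻¹ * (b y * f y)) ∧
      ∀ y, |((1 + A + A * K) * L)⁻¹ * (b y * f y)| ≤ 1 := by
  have K0 := K.coe_nonneg
  have L0 := L.coe_nonneg
  have e : (0 : ℝ) ≤ (1 + A + A * K) * L := by positivity
  refine ⟨.of_dist_le_mul fun x y => ?_, fun y => ?_⟩
  · have e1 := hb.dist_le_mul x y
    have e2 := hf.dist_le_mul x y
    rw [Real.dist_eq] at e1 e2 ⊢
    rw [← mul_sub, abs_mul, abs_of_nonneg (inv_nonneg.2 e), NNReal.coe_one, one_mul]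
    refine inv_mul_le_of_le_mul₀ e dist_nonneg ?_
    rw [show b x * f x - b y * f y = b x * (f x - f y) + f y * (b x - b y) by ring]
    refine (abs_add_le _ _).trans ?_
    rw [abs_mul, abs_mul]
    have e3 := mul_le_mul (hb' x) e2 (abs_nonneg _) zero_le_one
    have e4 := mul_le_mul (hf' y) e1 (abs_nonneg _) (by positivity)
    have e5 : 0 ≤ A * L * dist x y := by positivity
    linarith
  · rw [abs_mul, abs_of_nonneg (inv_nonneg.2 e), abs_mul]
    refine inv_mul_le_of_le_mul₀ e zero_le_one ?_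
    have e3 := mul_le_mul (hb' y) (hf' y) (abs_nonneg _) zero_le_one
    have e5 : 0 ≤ A * K * L := by positivity
    linarith

theorem qb_mon (hS : net.St S') (h : ∀ {k} {f : Fin k → R4 → ℝ}, Adm f → S' (mon f) = S f)
    (hL : LinP S') (hA : ArrS S) (k : ℕ) (R : ℝ) {δ : ℝ} (δ0 : 0 < δ) : ∃ C R' : ℝ,
    ∀ (f : Fin k → R4 → ℝ) (L : Fin k → ℝ≥0), Adm f →
      (∀ i, LipschitzWith (L i) (f i) ∧ ∀ y, f i y ≠ 0 → ‖y‖ ≤ R) →
      (∀ i j, i ≠ j → ∀ x y, f i x ≠ 0 → f j y ≠ 0 → δ ≤ dist x y) →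
      net.QB S' (mon f) R' (C * ∏ i, L i) := by
  wlog R0 : 0 ≤ R generalizing R
  · obtain ⟨C, R', H⟩ := this 0 le_rfl
    exact ⟨C, R', fun f L f1 f2 => H f L f1 fun i =>
      ⟨(f2 i).1, fun y hy => ((f2 i).2 y hy).trans (not_le.1 R0).le⟩⟩
  obtain ⟨e, he⟩ := exists_pow_lt_of_lt_one (half_pos δ0) (show (3⁻¹ : ℝ) < 1 by norm_num)
  obtain ⟨η, hη⟩ : ∃ η : ℝ, η = (3 ^ e)⁻¹ / (3 * k + 1) := ⟨_, rfl⟩
  have η0 : 0 < η := by rw [hη]; positivity
  have hw : (3 ^ e)⁻¹ = η * (3 * k + 1) := by rw [hη, div_mul_cancel₀ _ (by positivity)]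
  obtain ⟨D, hD⟩ := exists_nat_ge (R / η)
  rw [div_le_iff₀' η0] at hD
  obtain ⟨C, R', R1, H⟩ := qb_piece hS h hL hA k D e (δ := δ) η0 hw (by rw [← inv_pow]; linarith)
  choose K hK using fun z : Fin 4 → Fin (2 * D + 1) =>
    (bumpS_smooth η fun l => z l - D).lipschitzWith_of_hasCompactSupport
      (cpt_box (lo := fun l => η * (z l - D : ℤ) - η) (hi := fun l => η * (z l - D : ℤ) + η)
        fun y hy l => abs_sub_le_iff.1 (bumpS_supp η0 hy l) |>.symm.imp
          (by intro; linarith) (by intro; linarith)) one_ne_zero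
  obtain ⟨Λ, hΛ⟩ : ∃ Λ : (Fin 4 → Fin (2 * D + 1)) → ℝ,
    ∀ z, Λ z = 1 + (2 * R + 1) + (2 * R + 1) * K z := ⟨_, fun _ => rfl⟩
  have Λ0 : ∀ z, 0 < Λ z := fun z => by rw [hΛ]; positivity
  refine ⟨∑ z : Fin k → Fin 4 → Fin (2 * D + 1), (∏ i, Λ (z i)) * C, max (R + 1) R',
    fun f L f1 f2 f3 => ?_⟩
  have R2 : 0 ≤ max (R + 1) R' := le_max_of_le_right R1
  have s1 := fun i => sup_le (f2 i).1 R0 (f2 i).2
  obtain ⟨g, hg⟩ : ∃ g : Fin k → (Fin 4 → Fin (2 * D + 1)) → R4 → ℝ, ∀ i z, g i z =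
    fun y => (Λ z * L i)⁻¹ * (bumpS η (fun l => z l - D) y * f i y) := ⟨_, fun _ _ => rfl⟩
  have g0 : ∀ i z y, g i z y ≠ 0 → bumpS η (fun l => z l - D) y ≠ 0 ∧ f i y ≠ 0 :=
    fun i z y hy => mul_ne_zero_iff.1 (right_ne_zero_of_mul (hg i z ▸ hy :))
  have g1 : ∀ i z, tsupport (g i z) ⊆ tsupport (f i) := fun i z =>
    closure_mono fun y hy => (g0 i z y hy).2
  have g2 : ∀ i z, HasCompactSupport (g i z) ∧ ContDiff ℝ 1 (g i z) := fun i z =>
    ⟨(f1.1 i).1.mono fun y hy => (g0 i z y hy).2,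
      hg i z ▸ contDiff_const.mul ((bumpS_smooth _ _).mul (f1.1 i).2)⟩
  have g3 : f = fun i => ∑ z, (Λ z * L i) • g i z := by
    funext i y
    by_cases e1 : f i y = 0
    · simp [hg, e1]
    · have e2 : (L i : ℝ) ≠ 0 := fun u => e1 (by simpa [u] using s1 i y)
      simp only [Finset.sum_apply, Pi.smul_apply, hg, smul_eq_mul,
        mul_inv_cancel_left₀ (mul_ne_zero (Λ0 _).ne' e2), ← Finset.sum_mul]
      rw [sum_bumpS η0 fun l => ((PiLp.norm_apply_le y l).trans ((f2 i).2 y e1)).trans hD, one_mul]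
  have b1 : ∀ i, tsupport (f i) ⊆ Bx (max (R + 1) R') := fun i y hy l =>
    ((PiLp.norm_apply_le y l).trans (closure_minimal (f2 i).2
      (isClosed_le continuous_norm continuous_const) hy)).trans_lt
      ((lt_add_one R).trans_le (le_max_left _ _))
  have q1 : net.QB S' (∑ z : Fin k → Fin 4 → Fin (2 * D + 1),
      ((∏ i, Λ (z i) * L i : ℝ) : ℂ) • mon fun i => g i (z i)) _ _ :=
    Net.QB.sum hS _ R2 fun z _ => ((H (fun i => g i (z i)) (fun i l => z i l)
      ⟨fun i => g2 i _, fun i j hij => (f1.2 hij).mono (g1 _ _) (g1 _ _)⟩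
      (fun i l => by have := (z i l).2; omega) (fun i => by
        have := norm_piece (by positivity) (hK (z i)) (abs_bumpS _ _) (f2 i).1 (s1 i)
        rw [← hΛ, ← hg] at this
        exact ⟨this.1, fun y => ⟨hg i (z i) ▸ this.2 y, fun hy =>
          bumpS_supp η0 (g0 _ _ y hy).1⟩⟩)
      fun i j hij x y hx hy => f3 i j hij x y (g0 _ _ x hx).2 (g0 _ _ y hy).2).mono hS
        (le_max_right _ _) le_rfl).smul _
  have q2 := (Net.qb_null (Submodule.sub_mem _ (mon_mem f1 b1) q1.1) R2 hS fun Z hZ => ?_).add hS q1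
  · rw [sub_add_cancel, zero_add] at q2
    refine q2.mono hS le_rfl (le_of_eq ?_)
    rw [Finset.sum_mul]
    refine Finset.sum_congr rfl fun z _ => ?_
    rw [Complex.norm_real, norm_of_nonneg (Finset.prod_nonneg fun i _ =>
      mul_nonneg (Λ0 (z i)).le (L i).coe_nonneg), Finset.prod_mul_distrib, NNReal.coe_prod]
    ring
  · have := hL.sum f1.2 (fun i z => ⟨(g2 i z).1, (g2 i z).2, g1 i z⟩) (fun i z => Λ z * L i) Z
      (net.mono hZ (compl_subset_compl.2 (iUnion_subset b1)))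
    rw [← g3] at this
    simp only [sub_mul, map_sub, this, Finset.sum_mul, map_sum, smul_mul_assoc, map_smul,
      smul_eq_mul, sub_self]

theorem qb_all (hS : net.St S') (h : ∀ {k} {f : Fin k → R4 → ℝ}, Adm f → S' (mon f) = S f)
    (hL : LinP S') (hA : ArrS S) : ∀ Z ∈ net.loc univ, ∃ R c, net.QB S' Z R c := by
  intro Z hZ
  induction hZ using Submodule.span_induction with
  | mem Z hZ =>
    obtain ⟨k, f, h1, -, rfl⟩ := hZ
    obtain ⟨D, q, d1, d2, d3⟩ := h1.data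
    obtain ⟨C, R, H⟩ := qb_mon hS h hL hA k D (δ := 1 / (q + 1)) (by positivity)
    exact ⟨R, _, H f (fun _ => D) h1
      (fun i => ⟨(d2 i).1, fun y hy => d1 i y (subset_tsupport _ hy)⟩)
      fun i j hij x y hx hy => d3 i j hij x (subset_tsupport _ hx) y (subset_tsupport _ hy)⟩
  | zero => exact ⟨0, 0, Net.qb_null (Submodule.zero_mem _) le_rfl hS fun Z _ => by simp⟩
  | add X Y _ _ h1 h2 =>
    obtain ⟨R, c, h1⟩ := h1
    obtain ⟨R', c', h2⟩ := h2
    exact ⟨max R R', _, (h1.mono hS (le_max_left _ _) le_rfl).add hS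
      (h2.mono hS (le_max_right _ _) le_rfl)⟩
  | smul a X _ h1 =>
    obtain ⟨R, c, h1⟩ := h1
    exact ⟨R, _, h1.smul a⟩

end Pool.Agent.Lib.MP_7f377f_mp.Pur
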