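import Pool.Agent.Lib.MP_7f377f_mp.G.PurC
import Pool.Agent.Lib.MP_7f377f_mp.G.PurK
import Pool.Agent.Lib.MP_7f377f_mp.G.YM11Defs

/-! Sequences of boundary insertions, the semigroup, and the limit along an ultrafilter. -/

noncomputable section

namespace Pool.Agent.Lib.MP_7f377f_mp.Pur
variable [GD]

open MeasureTheory Filter Topology Set Real YM7 MvPolynomial ComplexConjugate
open scoped NNReal

set_option linter.unusedSectionVars false

section
variable {P : Type} [CommRing P] [Algebra ℂ P] {N : Net P} {S S' : P →ₗ[ℂ] ℂ}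

theorem Net.QB.sand (hS : N.St S) {X B : P} {R c : ℝ} (h : N.QB S X R c) (hB : B ∈ N.loc (Ot R)) :
    ‖S (N.Θ 0 B * X * B)‖ ≤ c * N.nq S 0 (N.τ (dg (-R)) B) := by
  obtain ⟨H, _, _, _, ⟨r⟩⟩ := hS.exists_rep 0
  have e0 : N.τ (dg (-R)) B ∈ N.loc (Hs 0 0) := Net.τ_hs (N.mono hB (Ot.hs 0 le_rfl)) (by simp)
  have e1 := r.shift (X := N.Θ 0 B) (Y := X * B) (v := -ax 0 R) hS
  have e2 := r.le (v := -ax 0 R - dg (-R)) (by simp) e0
  rw [rf_neg, neg_rf_ax, N.Θ_Θ, neg_neg] at e1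
  rw [N.τ_τ, sub_add_cancel] at e2
  rw [mul_assoc, e1 (Net.τ_hs (N.mono hB (Ot.hs 0 le_rfl)) (by simp))
    (Net.qb_hs h.1 hB h.2.1 (by simp)), r.nq e0, sq, mul_left_comm]
  exact (norm_inner_le_norm _ _).trans
    (mul_le_mul e2 (r.qb h hB (by simp)) (norm_nonneg _) (norm_nonneg _))

theorem Net.Dom.close (h : N.Dom S S') {m : ℕ} {Z : Fin m → P} (s : Fin m → R4)
    (hZ : ∀ j, Z j ∈ N.loc univ) (R : ℝ) {ε : ℝ} (hε : 0 < ε) : ∃ (r : ℕ) (B : Fin r → P),
    (∀ i, B i ∈ N.loc (Ot R)) ∧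
    ∀ j, ‖S' (Z j) - ∑ i, S (N.Θ 0 (N.τ (s j) (B i)) * Z j * N.τ (s j) (B i))‖ < ε := by
  let K : Set (Fin m → ℂ) := {x | ∃ (r : ℕ) (B : Fin r → P), (∀ i, B i ∈ N.loc (Ot R)) ∧
    ∀ j, x j = ∑ i, S (N.Θ 0 (N.τ (s j) (B i)) * Z j * N.τ (s j) (B i))}
  have k1 : ∀ t : ℝ, 0 ≤ t → ∀ x ∈ K, t • x ∈ K := fun t ht x ⟨r, B, a, b⟩ =>
    ⟨r, fun i => (√t : ℂ) • B i, fun i => Submodule.smul_mem _ _ (a i), fun j => by
      simp only [N.Θ_smul, smul_mul_assoc, mul_smul_comm, map_smul, smul_eq_mul, ← mul_assoc,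
        Complex.conj_ofReal, ← Complex.ofReal_mul, Real.mul_self_sqrt ht, ← Finset.mul_sum, ← b,
        Pi.smul_apply, Complex.real_smul]⟩
  have k2 : Convex ℝ K := fun x hx y hy s t hs ht _ => by
    obtain ⟨r, B, a, b⟩ := k1 s hs x hx
    obtain ⟨r', B', a', b'⟩ := k1 t ht y hy
    exact ⟨_, Fin.append B B', Fin.addCases (by simpa using a) (by simpa using a'), fun j => by
      simp only [Fin.sum_univ_add, Fin.append_left, Fin.append_right, ← b, ← b', Pi.add_apply]⟩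
  have k3 : (fun j => S' (Z j)) ∈ closure K := by
    by_contra hh
    obtain ⟨f, u, a, b⟩ := RCLike.geometric_hahn_banach_point_closed (𝕜 := ℂ) k2.closure
      isClosed_closure hh
    have e : ∀ x, f x = ∑ j, f (Pi.single j 1) * x j := fun x => by
      conv_lhs => rw [pi_eq_sum_univ' x]
      simp [mul_comm]
    have u0 : u < 0 := by simpa using b 0 (subset_closure ⟨0, ![], nofun, by simp⟩)
    refine absurd (h 0 _ (fun j => f (Pi.single j 1) • Z j) s s R (fun j =>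
      Submodule.smul_mem _ _ (hZ j)) fun B hB => ?_) ?_
    · have c : ∀ t : ℝ, 0 ≤ t →
          u < t * (f fun j => S (N.Θ 0 (N.τ (s j) B) * Z j * N.τ (s j) B)).re := fun t ht => by
        simpa using b _ (subset_closure (k1 t ht _ ⟨1, ![B], by simpa using hB, by simp⟩))
      simp only [smul_mul_assoc, mul_smul_comm, map_smul, smul_eq_mul, ← e]
      by_contra hn
      rw [not_le] at hn
      exact (c _ (div_pos_of_neg_of_neg u0 hn).le).ne (div_mul_cancel₀ _ hn.ne).symm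
    · simp only [map_smul, smul_eq_mul, ← e, not_le]
      exact a.trans u0
  obtain ⟨x, ⟨r, B, a, b⟩, e⟩ := Metric.mem_closure_iff.1 k3 ε hε
  exact ⟨r, B, a, fun j => by
    rw [← dist_eq_norm, ← b]
    exact (dist_le_pi_dist _ _ j).trans_lt e⟩

theorem Net.Dom.seq (hS : N.St S) (h : N.Dom S S') (h1 : S' 1 = 1) {D : Set P} (hD : D.Countable)
    (hD' : D ⊆ N.loc univ) : ∃ (r : ℕ → ℕ) (B : ∀ j, Fin (r j) → P),
      (∀ (j : ℕ) i, B j i ∈ N.loc (Ot j)) ∧ ∀ X, (∀ ε > 0, ∃ Y ∈ D, ∃ R, N.QB S (X - Y) R ε) →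
        Tendsto (fun j => S (∑ i, N.Θ 0 (B j i) * X * B j i)) atTop (𝓝 (S' X)) := by
  obtain ⟨e, he⟩ := (hD.insert 0).exists_eq_range (insert_nonempty _ _)
  have h2 : ∀ m, e m ∈ N.loc univ := fun m => by
    rcases (he ▸ mem_range_self m : e m ∈ insert 0 D) with h | h
    · exact h ▸ Submodule.zero_mem _
    · exact hD' h
  choose r B b1 b2 using fun j : ℕ => h.close (Z := Fin.append (fun m : Fin j => e m) fun _ => 1)
    (Fin.append (fun _ => 0) fun m : Fin j => dg (-m))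
    (Fin.addCases (by simpa using fun _ => h2 _) fun _ => by
      simpa only [Fin.append_right] using N.one _) j
    (Nat.one_div_pos_of_nat (n := j))
  refine ⟨r, B, b1, fun X hX => Metric.tendsto_nhds.2 fun ε ε0 => ?_⟩
  obtain ⟨Y, hY, R, hR⟩ := hX (ε / 4) (by positivity)
  obtain ⟨m, rfl⟩ : Y ∈ range e := he ▸ mem_insert_of_mem _ hY
  obtain ⟨l, hl⟩ := exists_nat_ge R
  filter_upwards [eventually_gt_atTop m, eventually_gt_atTop l,
    (tendsto_one_div_add_atTop_nhds_zero_nat (𝕜 := ℝ)).eventually (gt_mem_nhds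
      (lt_min (show 0 < ε / 4 by positivity) one_pos))] with j e1 e2 e3
  have e4 := (h.st hS h1).bound (h.qb hR)
  have e5 := norm_sum_le_of_le Finset.univ fun i _ => (hR.mono hS hl le_rfl).sand hS
    (N.mono (b1 j i) (Ot.mono (Nat.cast_le.2 e2.le)))
  have e6 := b2 j (Fin.castAdd j ⟨m, e1⟩)
  have e7 := ((neg_le_abs _).trans (Complex.abs_re_le_norm _)).trans_lt (b2 j (Fin.natAdd j ⟨l, e2⟩))
  simp only [← Finset.mul_sum, Net.nq, ← Complex.re_sum, Complex.one_re, mul_one, mul_sub,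
    sub_mul, map_sub, Finset.sum_sub_distrib, Fin.append_left, Fin.append_right, N.τ_zero, h1,
    Complex.sub_re, lt_min_iff] at e3 e4 e5 e6 e7
  rw [map_sum, dist_eq_norm]
  refine lt_of_le_of_lt (le_of_eq_of_le (congrArg _ (by ring)) (norm_sub_le_of_le
    (norm_sub_le_of_le e5 e4) e6.le)) (by nlinarith [e3.1, e3.2])

theorem Net.Rep.semi {H : Type} [NormedAddCommGroup H] [InnerProductSpace ℂ H] [CompleteSpace H]
    (r : N.Rep S 0 H) (hS : N.St S) {D : Set P} (h1 : N.loc (Hs 0 0) = Submodule.span ℂ D)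
    (h2 : ∀ X ∈ D, ∀ s : R4, 0 ≤ s 0 → ContinuousAt (fun v => S (N.Θ 0 X * N.τ v X)) s) :
    r.T 0 = 1 ∧ (∀ v : R4, 0 ≤ v 0 → ∀ w : R4, 0 ≤ w 0 → r.T (v + w) = r.T v * r.T w) ∧
      (∀ x, ContinuousOn (fun v => r.T v x) {v | 0 ≤ v 0}) ∧
      (∀ v : R4, v 0 = 0 → r.T v ∈ unitary (H →L[ℂ] H)) ∧
      ∀ t ≥ 0, (r.T (EuclideanSpace.single 0 t)).IsPositive := by
  have ext : ∀ {A B : H →L[ℂ] H}, (∀ X ∈ N.loc (Hs 0 0), A (r.Ψ X) = B (r.Ψ X)) → A = B :=
    fun {A B} e => DFunLike.coe_injective (r.dense.equalizer A.continuous B.continuous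
      (funext fun X => e X X.2))
  have T0 : r.T 0 = 1 := ext fun X hX => by rw [r.act le_rfl hX, N.τ_zero, one_apply_eq_self]
  have mul : ∀ {v w : R4}, 0 ≤ v 0 → 0 ≤ w 0 → r.T (v + w) = r.T v * r.T w := fun hv hw =>
    ext fun X hX => by
      rw [mul_apply_eq_comp, r.act hw hX, r.act hv (Net.τ_hs hX (by simpa)),
        r.act (add_nonneg hv hw) hX, N.τ_τ]
  have neg : ∀ {v : R4}, 0 ≤ v 0 → 0 ≤ (-rf 0 v) 0 := fun hv => by simpa
  have adj : ∀ {v : R4}, 0 ≤ v 0 → star (r.T v) = r.T (-rf 0 v) := fun hv =>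
    ((ContinuousLinearMap.eq_adjoint_iff _ _).2 fun x y => by
      rw [← inner_conj_symm, ← r.adj hS hv, inner_conj_symm]).symm
  have hD : ∀ X ∈ D, X ∈ N.loc (Hs 0 0) := fun X hX => h1 ▸ Submodule.subset_span hX
  refine ⟨T0, fun v hv w hw => mul hv hw, cont_ext (Ψ := fun X : D => r.Ψ X) (r.dense.mono ?_)
    (fun v hv => r.nrm hv) fun ⟨X, hX⟩ w hw => ?_, fun v hv => ?_, fun t ht => ?_⟩
  · rintro _ ⟨⟨X, hX⟩, rfl⟩
    rw [h1] at hX
    exact Submodule.span_mono (by rintro _ ⟨X, e, rfl⟩; exact ⟨⟨X, e⟩, rfl⟩)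
      (Submodule.map_span r.Ψ D ▸ Submodule.mem_map_of_mem hX)
  · have c1 := (Complex.continuous_re.tendsto _).comp
      (h2 X hX (-rf 0 w + w) (add_nonneg (neg hw) hw)).tendsto
    have c2 : Continuous (rf 0) := rfL_eq 0 ▸ (rfL 0).continuous
    have c3 := ((c1.comp ((c2.neg.add continuous_id).tendsto w)).sub
      ((c1.comp ((c2.neg.add_const w).tendsto w)).const_mul 2)).add_const
      (S (N.Θ 0 X * N.τ (-rf 0 w + w) X)).re
    rw [show ∀ a : ℝ, a - 2 * a + a = 0 from fun a => by ring] at c3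
    refine tendsto_iff_norm_sub_tendsto_zero.2 ?_
    have c4 := (c3.mono_left (nhdsWithin_le_nhds (s := {v | 0 ≤ v 0}))).sqrt
    rw [sqrt_zero] at c4
    refine c4.congr' (eventually_mem_nhdsWithin.mono fun v hv => ?_)
    refine (congrArg _ ?_).trans (sqrt_sq (norm_nonneg _))
    have e : ∀ {v w : R4}, 0 ≤ v 0 → 0 ≤ w 0 → inner ℂ (r.T v (r.Ψ X)) (r.T w (r.Ψ X)) =
        S (N.Θ 0 X * N.τ (-rf 0 v + w) X) := fun hv hw => by
      have := add_nonneg (neg hv) hw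
      rw [r.adj hS hv, ← mul_apply_eq_comp, ← mul (neg hv) hw, r.act this (hD X hX),
        r.inn (hD X hX) (Net.τ_hs (hD X hX) (by simpa using this))]
    beta_reduce
    rw [norm_sub_sq (𝕜 := ℂ), ← inner_self_eq_norm_sq (𝕜 := ℂ), ← inner_self_eq_norm_sq (𝕜 := ℂ),
      e hv hv, e hv hw, e hw hw]
    rfl
  · have e : -rf 0 v = -v := by
      ext l
      by_cases h : l = 0 <;> simp [rf, h, hv]
    have hv' : 0 ≤ (-v) 0 := e ▸ neg hv.ge
    rw [Unitary.mem_iff, adj hv.ge, e, ← mul hv' hv.ge, ← mul hv.ge hv', neg_add_cancel,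
      add_neg_cancel, T0]
    exact ⟨rfl, rfl⟩
  · have hv : 0 ≤ ax 0 (t / 2) 0 := by simpa using div_nonneg ht zero_le_two
    have := ContinuousLinearMap.isPositive_adjoint_comp_self (r.T (ax 0 (t / 2)))
    rwa [← ContinuousLinearMap.star_eq_adjoint, adj hv, ← ContinuousLinearMap.mul_def,
      ← mul (neg hv) hv, neg_rf_ax, ax_add, add_halves] at this

end

end Pool.Agent.Lib.MP_7f377f_mp.Pur
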