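import Pool.Agent.Lib.MP_7f377f_mp.G.WvNet

/-! Words of fields with labels: multilinearity. -/

noncomputable section

namespace Pool.Agent.Lib.MP_7f377f_mp.Wx
variable [Pool.Agent.Lib.MP_7f377f_mp.GD]
set_option linter.unusedSectionVars false

open Filter Topology Set YM7 Pur Lg Wm Lm Wv

variable {V P : Type} [CommRing P] [Algebra ℂ P] {N : Net P} {x : V → (R4 → ℝ) → P}
  {S : P →ₗ[ℂ] ℂ} {θ : Fin 4 → V → V} {k : ℕ}

theorem exists_sum (hG : Gen N x θ) {O : Set R4} {Z : P} (h : Z ∈ N.loc O) : ∃ (m : ℕ)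
    (c : Fin m → ℂ) (k : Fin m → ℕ) (a : ∀ j, Fin (k j) → V) (f : ∀ j, Fin (k j) → R4 → ℝ),
      (∀ j, Adm (f j)) ∧ (∀ j i, tsupport (f j i) ⊆ O) ∧ ∑ j, c j • ∏ i, x (a j i) (f j i) = Z := by
  obtain ⟨m, c, g, e⟩ := Submodule.mem_span_set'.1 (hG.loc O ▸ h)
  choose k f q h1 h2 h3 using fun a => (g a).2
  choose a ha using fun j i => (h2 j i).2
  exact ⟨m, c, k, a, f, h1, fun j i => (h2 j i).1, by simp only [ha, h3, e]⟩

theorem adm_of {O : Fin k → Set R4} (hO : Pairwise fun i j => Disjoint (O i) (O j))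
    {g : Fin k → R4 → ℝ} (hg : ∀ i, C1 (O i) (g i)) : Adm g :=
  ⟨fun i => ⟨(hg i).1, (hg i).2.1⟩, fun i j e => (hO e).mono (hg i).2.2 (hg j).2.2⟩

theorem c1_of {g : Fin k → R4 → ℝ} (hg : Adm g) (i) : C1 (tsupport (g i)) (g i) :=
  ⟨(hg.1 i).1, (hg.1 i).2, subset_rfl⟩

theorem c1_mem (hG : Gen N x θ) {O : Set R4} {g : R4 → ℝ} (hg : C1 O g) (c : V) :
    x c g ∈ N.loc O := by
  simpa using gen_mem hG (fun _ : Fin 1 => c) (f := fun _ => g)
    ⟨fun _ => ⟨hg.1, hg.2.1⟩, Subsingleton.pairwise⟩ fun _ => hg.2.2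

theorem τ_word (hG : Gen N x θ) (v : R4) (a : Fin k → V) (f : Fin k → R4 → ℝ) :
    N.τ v (∏ i, x (a i) (f i)) = ∏ i, x (a i) fun y => f i (y - v) := by
  simp only [map_prod, hG.tau]

theorem Θ_word (hG : Gen N x θ) (μ) (a : Fin k → V) (f : Fin k → R4 → ℝ) :
    N.Θ μ (∏ i, x (a i) (f i)) = ∏ i, x (θ μ (a i)) fun y => f i (rf μ y) := by
  simp only [map_prod, hG.refl]

variable (hL : LinF N x S)
include hL

theorem one_slot {O : Set R4} {I : Type} (s : Finset I) (a : V) {g : I → R4 → ℝ}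
    (hg : ∀ z, C1 O (g z)) (c : I → ℝ) {Z : P} (hZ : Z ∈ N.loc Oᶜ) :
    S (x a (∑ z ∈ s, c z • g z) * Z) = ∑ z ∈ s, c z * S (x a (g z) * Z) := by
  classical
  have e : ∀ {u u' : R4 → ℝ} (c : ℝ), C1 O u → C1 O u' →
      S (x a (u + c • u') * Z) = S (x a u * Z) + c * S (x a u' * Z) := fun c h1 h2 =>
    hL _ _ _ c ⟨h1.1, h1.2.1, subset_univ _⟩ ⟨h2.1, h2.2.1, subset_univ _⟩ Z
      (N.mono hZ (compl_subset_compl.2 (union_subset h1.2.2 h2.2.2)))
  induction s using Finset.induction_on with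
  | empty =>
    have := e 1 (PN.Gd.zero O) (PN.Gd.zero O)
    rw [smul_zero, add_zero, left_eq_add] at this
    simpa using this
  | insert a s ha ih =>
    rw [Finset.sum_insert ha, Finset.sum_insert ha, add_comm, e _ (PN.Gd.sum s hg c) (hg a), ih,
      add_comm]

theorem lin_sum (hG : Gen N x θ) {I : Type} [Fintype I] (a : Fin k → V) {g : Fin k → I → R4 → ℝ}
    {O : Fin k → Set R4} (hO : Pairwise fun i j => Disjoint (O i) (O j))
    (hg : ∀ i z, C1 (O i) (g i z)) (c : Fin k → I → ℝ) : ∀ Z ∈ N.loc (⋃ i, O i)ᶜ,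
      S ((∏ i, x (a i) (∑ z, c i z • g i z)) * Z) =
        ∑ z : Fin k → I, (∏ i, c i (z i) : ℝ) * S ((∏ i, x (a i) (g i (z i))) * Z) := by
  induction k with
  | zero => intro Z _; simp
  | succ k ih =>
    intro Z hZ
    obtain ⟨o1, -, o2⟩ := pairwise_fin_succ_iff.1 hO
    have s1 : ∀ i, C1 (O i) (∑ z, c i z • g i z) := fun i => PN.Gd.sum _ (hg i) _
    have u1 : ⋃ i : Fin k, O i.succ ⊆ ⋃ i, O i := iUnion_subset fun i => subset_iUnion O _
    have u2 : Disjoint (⋃ i : Fin k, O i.succ) (O 0) := disjoint_iUnion_left.2 o1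
    have m1 : (∏ i : Fin k, x (a i.succ) (∑ z, c i.succ z • g i.succ z)) * Z ∈ N.loc (O 0)ᶜ :=
      N.mono (N.mul (gen_mem hG _ (adm_of o2 fun i => s1 _) fun i => (s1 _).2.2.trans
          (subset_iUnion (fun i : Fin k => O i.succ) i)) hZ (disjoint_compl_right.mono_left u1))
        (union_subset u2.subset_compl_right (compl_subset_compl.2 (subset_iUnion O 0)))
    have m2 : ∀ z, x (a 0) (g 0 z) * Z ∈ N.loc (⋃ i : Fin k, O i.succ)ᶜ := fun z =>
      N.mono (N.mul (c1_mem hG (hg 0 z) _) hZ (disjoint_compl_right.mono_left (subset_iUnion O 0)))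
        (union_subset u2.subset_compl_left (compl_subset_compl.2 u1))
    rw [Fin.prod_univ_succ, mul_assoc, one_slot hL _ _ (hg 0) _ m1,
      ← (Fin.consEquiv fun _ => I).sum_comp, Fintype.sum_prod_type]
    refine Finset.sum_congr rfl fun z _ => ?_
    rw [mul_left_comm, ih _ o2 (fun i => hg i.succ) _ _ (m2 z), Finset.mul_sum]
    refine Finset.sum_congr rfl fun w _ => ?_
    simp only [Fin.prod_univ_succ, Fin.consEquiv_apply, Fin.cons_zero, Fin.cons_succ]
    rw [mul_left_comm (∏ i, _), ← mul_assoc (x _ _)]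
    push_cast
    ring

/-- the operator bound of a word from the bounds of its pieces -/
theorem qb_sum (hG : Gen N x θ) (hS : N.St S) {I : Type} [Fintype I] (a : Fin k → V)
    {g : Fin k → I → R4 → ℝ} {O : Fin k → Set R4} (hO : Pairwise fun i j => Disjoint (O i) (O j))
    (hg : ∀ i z, C1 (O i) (g i z)) (c : Fin k → I → ℝ) {R : ℝ} (R0 : 0 ≤ R) (hR : ∀ i, O i ⊆ Bx R)
    {B : (Fin k → I) → ℝ} (hB : ∀ z, N.QB S (∏ i, x (a i) (g i (z i))) R (B z)) :
    N.QB S (∏ i, x (a i) (∑ z, c i z • g i z)) R (∑ z : Fin k → I, |∏ i, c i (z i)| * B z) := by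
  have s1 : ∀ i, C1 (O i) (∑ z, c i z • g i z) := fun i => PN.Gd.sum _ (hg i) _
  have q1 := Net.QB.sum hS Finset.univ R0 fun z _ => (hB z).smul ((∏ i, c i (z i) : ℝ) : ℂ)
  have q2 := (Net.qb_null (Submodule.sub_mem _ (gen_mem hG a (adm_of hO s1)
    fun i => (s1 i).2.2.trans (hR i)) q1.1) R0 hS fun Z hZ => ?_).add hS q1
  · simpa only [sub_add_cancel, zero_add, Complex.norm_real, Real.norm_eq_abs] using q2
  · simp only [sub_mul, map_sub, lin_sum hL hG a hO hg c Z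
      (N.mono hZ (compl_subset_compl.2 (iUnion_subset hR))), Finset.sum_mul, map_sum,
      smul_mul_assoc, map_smul, smul_eq_mul, sub_self]

theorem zero_slot (hG : Gen N x θ) (a : Fin k → V) {g : Fin k → R4 → ℝ} (hg : Adm g) {i : Fin k}
    (hi : g i = 0) {Z : P} (hZ : Z ∈ N.loc (⋃ i, tsupport (g i))ᶜ) :
    S ((∏ i, x (a i) (g i)) * Z) = 0 := by
  have := lin_sum hL hG (I := Unit) a (g := fun j _ => g j) hg.2 (fun j _ => c1_of hg j)
    (fun j _ => if j = i then 0 else 1) Z hZ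
  simp only [show ∀ j, ∑ _z : Unit, (if j = i then (0 : ℝ) else 1) • g j = g j from fun j => by
    by_cases e : j = i <;> simp [e, hi]] at this
  rw [this]
  refine Finset.sum_eq_zero fun z _ => ?_
  rw [Finset.prod_eq_zero (Finset.mem_univ i) (by simp), Complex.ofReal_zero, zero_mul]

theorem qb_zero (hG : Gen N x θ) (hS : N.St S) (a : Fin k → V) {g : Fin k → R4 → ℝ} (hg : Adm g)
    {R : ℝ} (R0 : 0 ≤ R) (hR : ∀ i, tsupport (g i) ⊆ Bx R) {i : Fin k} (hi : g i = 0) :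
    N.QB S (∏ i, x (a i) (g i)) R 0 :=
  Net.qb_null (gen_mem hG a hg hR) R0 hS fun _ hZ => zero_slot hL hG a hg hi
    (N.mono hZ (compl_subset_compl.2 (iUnion_subset hR)))

/-- the difference of two words -/
theorem lin_diff (hG : Gen N x θ) (a : Fin k → V) {f g : Fin k → R4 → ℝ} {O : Fin k → Set R4}
    (hO : Pairwise fun i j => Disjoint (O i) (O j)) (hf : ∀ i, C1 (O i) (f i))
    (hg : ∀ i, C1 (O i) (g i)) {Z : P} (hZ : Z ∈ N.loc (⋃ i, O i)ᶜ) :
    (∀ i, C1 (O i) (f i - g i)) ∧ S ((∏ i, x (a i) (f i) - ∏ i, x (a i) (g i)) * Z) =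
      ∑ z ∈ Finset.univ.erase fun _ : Fin k => false,
        S ((∏ i, x (a i) (bif z i then f i - g i else g i)) * Z) := by
  have d : ∀ i, C1 (O i) (f i - g i) := fun i => by
    have := PN.Gd.comb (hf i) (hg i) (-1)
    rwa [neg_smul, one_smul, ← sub_eq_add_neg] at this
  have := lin_sum hL hG a hO (g := fun i z => bif z then f i - g i else g i)
    (fun i z => by cases z; exacts [hg i, d i]) (fun _ _ => 1) Z hZ
  rw [← Finset.add_sum_erase _ _ (Finset.mem_univ fun _ => false)] at this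
  simp only [one_smul, Fintype.sum_bool, cond_true, cond_false, sub_add_cancel,
    Finset.prod_const_one, Complex.ofReal_one, one_mul] at this
  exact ⟨d, by rw [sub_mul, map_sub, this, add_sub_cancel_left]⟩

end Pool.Agent.Lib.MP_7f377f_mp.Wx
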