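import Pool.Agent.Lib.MP_7f377f_mp.G.WxB
import Pool.Agent.Lib.MP_7f377f_mp.G.WxB0
import Pool.Agent.Lib.MP_7f377f_mp.G.PurH

/-! Separability and far insertions for a net of fields with labels. -/

noncomputable section

namespace Pool.Agent.Lib.MP_7f377f_mp.Wx
variable [Pool.Agent.Lib.MP_7f377f_mp.GD]
set_option linter.unusedSectionVars false

open Filter Topology Set YM7 Pur Lg Wm Lm Wv Function Metric
open scoped Pointwise

variable {V P : Type} [CommRing P] [Algebra ℂ P] {N : Net P} {x : V → (R4 → ℝ) → P}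
  {S W : P →ₗ[ℂ] ℂ} {θ : Fin 4 → V → V} {k : ℕ} {A : Set V}

theorem QBd.near (h : QBd N x S) (hG : Gen N x θ) (hS : N.St S) (hL : LinF N x S) (c : Fin k → V)
    {f : Fin k → R4 → ℝ} (hf : Adm f) {ε : ℝ} (e0 : 0 < ε) : ∃ η > (0 : ℝ), ∃ R,
      ∀ g : Fin k → R4 → ℝ, (∀ i, C1 (closedBall 0 η + tsupport (f i)) (g i) ∧
        ∀ y, |g i y - f i y| ≤ η) → N.QB S (∏ i, x (c i) (g i) - ∏ i, x (c i) (f i)) R ε := by
  obtain ⟨D, q, e1, e2, e3⟩ := hf.data
  obtain ⟨δ, δ0, hδ⟩ : ∃ δ : ℝ, 0 < δ ∧ 2 * δ < 1 / (q + 1 : ℝ) :=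
    ⟨1 / (q + 1) / 3, by positivity, by linarith [show 0 < 1 / (q + 1 : ℝ) by positivity]⟩
  let K := fun i => closedBall (0 : R4) δ + tsupport (f i)
  have hK : Pairwise fun i j => Disjoint (K i) (K j) := fun i j e => disjoint_left.2 (by
    rintro _ ⟨u, h1, y, h2, rfl⟩ ⟨u', h3, y', h4, h5⟩
    have := e3 i j e y h2 y' h4
    rw [dist_eq_norm, show y - y' = u' - u by linear_combination (norm := module) -h5] at this
    linarith [norm_sub_le u' u, mem_closedBall_zero_iff.1 h1, mem_closedBall_zero_iff.1 h3])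
  obtain ⟨R, C, -, hC⟩ := h k c K (fun i => (isCompact_closedBall _ _).add (hf.1 i).1) hK
  obtain ⟨η, ⟨h1, h2⟩, η0⟩ := ((((Continuous.tendsto' (f := fun η : ℝ =>
    ∑ z ∈ Finset.univ.erase fun _ : Fin k => false, C * ∏ i, bif z i then η else D)
    (continuous_finsetSum _ fun z _ => continuous_const.mul (continuous_finsetProd _ fun i _ => by
      cases z i <;> simp only [cond_true, cond_false] <;> fun_prop)) 0 0
    (Finset.sum_eq_zero fun z hz => by
      obtain ⟨j, hj⟩ := ne_iff.1 (Finset.ne_of_mem_erase hz)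
      rw [Finset.prod_eq_zero (Finset.mem_univ j) (by simp [eq_true_of_ne_false hj]),
        mul_zero])).eventually_le_const e0).and (Iic_mem_nhds δ0)).filter_mono
    nhdsWithin_le_nhds).and (self_mem_nhdsWithin (s := Ioi 0)) |>.exists
  have R0 : 0 ≤ max R (δ + D + 1) := le_max_of_le_right (by positivity)
  have b : ⋃ i, K i ⊆ Bx (max R (δ + D + 1)) := iUnion_subset fun i => by
    rintro _ ⟨u, h1, y, h2, rfl⟩ l
    refine ((PiLp.norm_apply_le _ l).trans (norm_add_le_of_le (mem_closedBall_zero_iff.1 h1)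
      (e1 i y h2))).trans_lt ((lt_add_one _).trans_le (le_max_right _ _))
  refine ⟨η, η0, max R (δ + D + 1), fun g hg => ?_⟩
  have m : ∀ i, C1 (K i) (g i) := fun i => ⟨(hg i).1.1, (hg i).1.2.1,
    (hg i).1.2.2.trans (add_subset_add_right (closedBall_subset_closedBall h2))⟩
  have m0 : ∀ i, C1 (K i) (f i) := fun i => ⟨(hf.1 i).1, (hf.1 i).2, fun y hy =>
    ⟨0, mem_closedBall_self δ0.le, y, hy, zero_add y⟩⟩
  have w : ∀ {u : Fin k → R4 → ℝ}, (∀ i, C1 (K i) (u i)) → ∏ i, x (c i) (u i) ∈ N.loc (Bx _) :=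
    fun e => gen_mem hG c (adm_of hK e) fun i => (e i).2.2.trans ((subset_iUnion K i).trans b)
  have q1 := Net.QB.sum hS (Finset.univ.erase fun _ : Fin k => false) R0 fun z _ =>
    (hC (fun i => bif z i then g i - f i else f i) (fun i => bif z i then η else D) fun i => by
      cases z i
      · exact ⟨m0 i, (e2 i).2⟩
      · exact ⟨(lin_diff hL hG c hK m m0 (N.one _)).1 i, (hg i).2⟩).mono hS (le_max_left _ _) le_rfl
  simpa only [sub_add_cancel, zero_add] using ((Net.qb_null (Submodule.sub_mem _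
    (Submodule.sub_mem _ (w m) (w m0)) q1.1) R0 hS fun Z hZ => by
      rw [sub_mul, map_sub, (lin_diff hL hG c hK m m0 (N.mono hZ (compl_subset_compl.2 b))).2,
        Finset.sum_mul, map_sum, sub_self]).add hS q1).mono hS le_rfl ((zero_add _).trans_le h1)

/-- a countable dense set of families of test functions -/
theorem exists_dense (k : ℕ) : ∃ E : Set (Fin k → R4 → ℝ), E.Countable ∧ (∀ g ∈ E, Adm g) ∧
    ∀ f, Adm f → (∀ i, f i ≠ 0) → ∀ η > (0 : ℝ), ∃ g ∈ E, ∀ i,
      C1 (closedBall 0 η + tsupport (f i)) (g i) ∧ ∀ y, |g i y - f i y| ≤ η := by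
  have hD : ∀ I, ∃ D : Set (Cls I), D.Countable ∧
      ∀ x, ∀ r > 0, ∃ y ∈ D, dist (jet I x) (jet I y) < r := fun I => by
    let _ := PseudoMetricSpace.induced (jet I) inferInstance
    have : SecondCountableTopology (Cls I) := TopologicalSpace.secondCountableTopology_induced _ _ _
    obtain ⟨D, h, h'⟩ := TopologicalSpace.exists_countable_dense (Cls I)
    exact ⟨D, h, fun x r hr => Metric.mem_closure_iff.1 (h' x) r hr⟩
  choose E E1 E2 using hD
  refine ⟨⋃ I : ℕ × ℕ, Subtype.val '' E (k, I), countable_iUnion fun I => (E1 _).image _,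
    iUnion_subset fun I => image_subset_iff.2 fun g _ => g.2.1, fun f hf f2 η η0 => ?_⟩
  obtain ⟨D, q, f3, f4, f5⟩ := hf.data
  replace f2 : ∀ i, (tsupport (f i)).Nonempty := fun i =>
    nonempty_iff_ne_empty.2 fun e => f2 i (tsupport_eq_empty_iff.1 e)
  obtain ⟨g, hg, hρ⟩ := E2 (k, D, q) ⟨f, hf, f2, f3, f4, f5⟩ η η0
  refine ⟨_, mem_iUnion.2 ⟨_, g, hg, rfl⟩, fun i => ?_⟩
  have hj := fun y => ((ContinuousMap.dist_apply_le_dist y).trans
    (dist_le_pi_dist (jet (k, D, q) _) (jet _ g) i)).trans_lt hρ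
  obtain ⟨g, g1, g2, g3, g4, g5⟩ := g
  simp only [jet, ContinuousMap.coe_mk, Prod.dist_eq, max_lt_iff, Subtype.forall,
    mem_closedBall_zero_iff] at hj
  refine ⟨⟨(g1.1 i).1, (g1.1 i).2, fun y hy => ?_⟩, fun y => ?_⟩
  · have h6 := (hj _ (g3 i _ hy)).2.1
    rw [infDist_zero_of_mem hy, dist_zero_right] at h6
    obtain ⟨u, hu, h7⟩ := (infDist_lt_iff (f2 i)).1 ((le_abs_self _).trans_lt h6)
    exact ⟨y - u, mem_closedBall_zero_iff.2 (dist_eq_norm y u ▸ h7.le), u, hu, sub_add_cancel _ _⟩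
  by_cases hy : ‖y‖ ≤ D
  · exact (abs_sub_comm _ _).trans_le (hj y hy).1.le
  · simpa [image_eq_zero_of_notMem_tsupport fun e => hy (f3 i y e),
      image_eq_zero_of_notMem_tsupport fun e => hy (g3 i y e)] using η0.le

variable (N x S A) in
/-- every field is a linear combination of the fields with labels in `A` -/
def Sp : Prop := ∀ c, ∃ (m : ℕ) (t : Fin m → ℂ) (a : Fin m → V), (∀ j, a j ∈ A) ∧
  ∀ g, C1 univ g → ∀ Z ∈ N.loc (tsupport g)ᶜ, S (x c g * Z) = ∑ j, t j * S (x (a j) g * Z)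

theorem sp_of {K : Type} [RCLike K] [Algebra K ℂ] [AddCommGroup V] [Module K V]
    (hA : Submodule.span K A = ⊤) (h : ∀ (t : K) a b g, C1 univ g → ∀ Z ∈ N.loc (tsupport g)ᶜ,
      S (x (t • a + b) g * Z) = algebraMap K ℂ t * S (x a g * Z) + S (x b g * Z)) : Sp N x S A := by
  intro c
  obtain ⟨m, t, a, rfl⟩ := Submodule.mem_span_set'.1 (hA ▸ Submodule.mem_top : c ∈ _)
  refine ⟨m, fun j => algebraMap K ℂ (t j), fun j => a j, fun j => (a j).2, fun g hg Z hZ => ?_⟩
  induction (Finset.univ : Finset (Fin m)) using Finset.induction_on with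
  | empty => simpa using h 1 0 0 g hg Z hZ
  | insert j s hj ih => rw [Finset.sum_insert hj, Finset.sum_insert hj, h _ _ _ g hg Z hZ, ih]

/-- a subspace which contains the limits of a countable set of words contains everything -/
theorem sep (hG : Gen N x θ) (hS : N.St S) (hL : LinF N x S) (hQ : QBd N x S) (hA : A.Countable)
    (hp : Sp N x S A) : ∃ D : Set P, D.Countable ∧ D ⊆ N.loc univ ∧ ∀ T : Submodule ℂ P,
      (∀ X, (∀ ε > 0, ∃ Y ∈ D, ∃ R, N.QB S (X - Y) R ε) → X ∈ T) → N.loc univ ≤ T := by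
  choose E E1 E2 E3 using exists_dense
  haveI := hA.to_subtype
  refine ⟨insert 0 (⋃ k, ⋃ c : Fin k → A, (fun g : Fin k → R4 → ℝ => ∏ i, x (c i) (g i)) '' E k),
    (countable_iUnion fun k => countable_iUnion fun c => (E1 k).image _).insert _,
    insert_subset (Submodule.zero_mem _) (iUnion₂_subset fun k c => image_subset_iff.2 fun g hg =>
      gen_mem hG _ (E2 k g hg) fun _ => subset_univ _), fun T hT Z hZ => ?_⟩
  obtain ⟨m, t, k, c, f, f1, -, rfl⟩ := exists_sum hG hZ
  refine T.sum_mem fun j _ => T.smul_mem _ ?_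
  generalize c j = c, f1 j = hf
  generalize f j = f at hf
  generalize k j = k at c f hf
  obtain ⟨R, R0, hR⟩ : ∃ R, 0 ≤ R ∧ ∀ i, tsupport (f i) ⊆ Bx R :=
    let ⟨D, _, h, _⟩ := hf.data
    ⟨D + 1, by positivity, fun i y hy l =>
      ((PiLp.norm_apply_le y l).trans (h i y hy)).trans_lt (lt_add_one _)⟩
  have z : ∀ X, N.QB S X R 0 → X ∈ T := fun X h => hT X fun ε e0 =>
    ⟨0, mem_insert _ _, R, (sub_zero X).symm ▸ h.mono hS le_rfl e0.le⟩
  by_cases f2 : ∀ i, f i ≠ 0
  swap
  · obtain ⟨i, hi⟩ := not_forall.1 f2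
    exact z _ (qb_zero hL hG hS c hf R0 hR (not_not.1 hi))
  have key : ∀ (s : Finset (Fin k)) (c : Fin k → V), (∀ i ∉ s, c i ∈ A) →
      ∏ i, x (c i) (f i) ∈ T := fun s => by
    induction s using Finset.induction_on with
    | empty =>
      refine fun c hc => hT _ fun ε e0 => ?_
      obtain ⟨η, η0, R, h⟩ := hQ.near hG hS hL c hf e0
      obtain ⟨g, g1, g2⟩ := E3 k f hf f2 η η0
      exact ⟨_, mem_insert_of_mem _ (mem_iUnion₂.2 ⟨k, fun i => ⟨c i, hc i (by simp)⟩, g, g1, rfl⟩),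
        R, by simpa using (h g g2).smul (-1)⟩
    | insert i s hi ih =>
      intro c hc
      obtain ⟨m, t, a, a1, a2⟩ := hp (c i)
      have up : ∀ b, ∏ l, x (update c i b l) (f l) =
          x b (f i) * ∏ l ∈ Finset.univ.erase i, x (c l) (f l) := fun b => by
        rw [← Finset.mul_prod_erase _ _ (Finset.mem_univ i), update_self]
        exact congrArg _ (Finset.prod_congr rfl fun l hl => by
          rw [update_of_ne (Finset.ne_of_mem_erase hl)])
      refine (T.sub_mem_iff_left (T.sum_mem (t := Finset.univ) fun j _ => T.smul_mem (t j)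
        (ih (update c i (a j)) fun l hl => ?_))).1 (z _ (Net.qb_null (Submodule.sub_mem _
          (gen_mem hG c hf hR) (Submodule.sum_mem _ fun j _ => Submodule.smul_mem _ _
            (gen_mem hG _ hf hR))) R0 hS fun Z hZ => ?_))
      · by_cases e : l = i
        · simpa [e] using a1 j
        · simpa [e] using hc l (by simp [e, hl])
      have m := prod_mem (N := N) (U := update (fun l => tsupport (f l)) i ∅)
        (X := update (fun l => x (c l) (f l)) i 1) (O := (tsupport (f i))ᶜ ∩ Bx R) (fun l => by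
          by_cases e : l = i
          · simpa [e] using N.one _
          · simpa [e] using c1_mem hG (c1_of hf l) _) (fun l n e => by
          by_cases e1 : l = i <;> by_cases e2 : n = i <;> simp [e1, e2]
          exact hf.2 e) fun l => by
          by_cases e : l = i
          · simp [e]
          · simpa [e] using ⟨(hf.2 e).subset_compl_right, hR l⟩
      rw [Finset.prod_update_of_mem (Finset.mem_univ i), one_mul,
        Finset.sdiff_singleton_eq_erase] at m
      conv_lhs => rw [← update_eq_self i c]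
      simp only [up, update_idem, sub_mul, map_sub, Finset.sum_mul, map_sum, smul_mul_assoc, map_smul,
        mul_assoc, smul_eq_mul]
      exact sub_eq_zero.2 (a2 _ ⟨(hf.1 i).1, (hf.1 i).2, subset_univ _⟩ _ (N.mono
        (N.mul m hZ (disjoint_compl_right.mono_left inter_subset_right))
        (union_subset inter_subset_left (compl_subset_compl.2 (hR i)))))
  exact key Finset.univ c fun i hi => absurd (Finset.mem_univ i) hi

/-- the dominated functional is a limit of far insertions -/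
theorem ins_of (hG : Gen N x θ) (hS : N.St S) (hL : LinF N x S) (hQ : QBd N x S) (hA : A.Countable)
    (hp : Sp N x S A) (hD : N.Dom S W) (w1 : W 1 = 1) :
    ∃ (r : ℕ → ℕ) (B : ∀ j, Fin (r j) → P), (∀ (j : ℕ) i, B j i ∈ N.loc (Ot j)) ∧
      ∀ Z ∈ N.loc univ, Tendsto (fun j => S (∑ i, N.Θ 0 (B j i) * (Z * B j i))) atTop (𝓝 (W Z)) ∧
        ∀ᶠ j in atTop, ∑ i, N.Θ 0 (B j i) * (Z * B j i) ∈ N.loc univ := by
  obtain ⟨D, d1, d2, d3⟩ := sep hG hS hL hQ hA hp
  obtain ⟨r, B, b1, b2⟩ := hD.seq hS w1 d1 d2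
  simp only [mul_assoc] at b2
  refine ⟨r, B, b1, fun Z hZ => ⟨d3
    { carrier := {Z | Tendsto (fun j => S (∑ i, N.Θ 0 (B j i) * (Z * B j i))) atTop (𝓝 (W Z))}
      add_mem' := fun a b => by
        simpa only [mem_ofPred_eq, add_mul, mul_add, Finset.sum_add_distrib, map_add] using a.add b
      zero_mem' := by simp
      smul_mem' := fun t _ a => by
        simpa only [mem_ofPred_eq, smul_mul_assoc, mul_smul_comm, ← Finset.smul_sum, map_smul]
          using a.const_smul t } b2 hZ, ?_⟩⟩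
  filter_upwards [tendsto_natCast_atTop_atTop.eventually (Net.far_adm 0 hZ)] with j e
  exact Submodule.sum_mem _ fun i _ => mul_assoc (N.Θ 0 _) Z _ ▸ e _ (b1 j i)

end Pool.Agent.Lib.MP_7f377f_mp.Wx
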