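import Pool.Agent.Lib.MP_7f377f_mp.G.WxD
import Pool.Agent.Lib.MP_7f377f_mp.G.WxE
import Pool.Agent.Lib.MP_7f377f_mp.G.ZgD

/-! Purification of a net of fields with labels. -/

noncomputable section

namespace Pool.Agent.Lib.MP_7f377f_mp.Wx
variable [Pool.Agent.Lib.MP_7f377f_mp.GD]
set_option linter.unusedSectionVars false

open Filter Topology Set YM7 Pur Lg Wm Lm Wv MvPolynomial

variable {V P : Type} [CommRing P] [Algebra ℂ P] {N : Net P} {x : V → (R4 → ℝ) → P}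
  {S W : P →ₗ[ℂ] ℂ} {θ : Fin 4 → V → V} {A : Set V}

/-- null elements stay null -/
theorem dom_null (hD : N.Dom S W) {O : Set R4} (hO : Bornology.IsBounded O) {E : P}
    (hE : E ∈ N.loc O) (h0 : ∀ Z ∈ N.loc Oᶜ, S (E * Z) = 0) : ∀ Z ∈ N.loc Oᶜ, W (E * Z) = 0 := by
  intro Z hZ
  obtain ⟨D, hd⟩ := hO.exists_norm_le
  refine hD.eq_zero (μ := 0) (Net.adm (N.mul hE hZ disjoint_compl_right)) ?_
  filter_upwards [Net.box hZ, eventually_ge_atTop D, eventually_ge_atTop 0] with R h1 h2 h3 B hB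
  have b1 : ∀ y ∈ O, |y 0| ≤ R := fun y hy => ((PiLp.norm_apply_le y 0).trans (hd y hy)).trans h2
  rw [show N.Θ 0 B * (E * Z) * B = E * (N.Θ 0 B * Z * B) by ring]
  refine h0 _ (N.mono (N.mul (N.mul (N.Θ_mem 0 hB) h1 (disjoint_left.2 fun y e e' => ?_)) hB
    (disjoint_left.2 fun y e e' => ?_)) fun y e hy => ?_)
  · have := e 0
    rw [rf_self] at this
    linarith [(abs_lt.1 (e'.2 0)).1]
  · rcases e with e | e
    · have := e 0
      rw [rf_self] at this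
      linarith [e' 0]
    · linarith [e' 0, (abs_lt.1 (e.2 0)).2]
  · rcases e with (e | e) | e
    · have := e 0
      rw [rf_self] at this
      linarith [(abs_le.1 (b1 y hy)).1]
    · exact e.1 hy
    · linarith [e 0, (abs_le.1 (b1 y hy)).2]

/-- linear relations between three local elements -/
theorem dom_rel (hD : N.Dom S W) {O : Set R4} (hO : Bornology.IsBounded O) {X Y Y' : P} {s t : ℂ}
    (hX : X ∈ N.loc O) (hY : Y ∈ N.loc O) (hY' : Y' ∈ N.loc O)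
    (h0 : ∀ Z ∈ N.loc Oᶜ, S (X * Z) = s * S (Y * Z) + t * S (Y' * Z)) :
    ∀ Z ∈ N.loc Oᶜ, W (X * Z) = s * W (Y * Z) + t * W (Y' * Z) := fun Z hZ => by
  simpa [sub_mul, add_mul, sub_eq_zero] using dom_null hD hO (E := X - (s • Y + t • Y'))
    (Submodule.sub_mem _ hX (Submodule.add_mem _ (Submodule.smul_mem _ _ hY)
      (Submodule.smul_mem _ _ hY')))
    (fun Z hZ => by simpa [sub_mul, add_mul, sub_eq_zero] using h0 Z hZ) Z hZ

theorem linF_dom (hG : Gen N x θ) (h : LinF N x S) (hD : N.Dom S W) : LinF N x W := by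
  intro c g g' t a b Z hZ
  have a1 : C1 (tsupport g ∪ tsupport g') g := ⟨a.1, a.2.1, subset_union_left⟩
  have a2 : C1 (tsupport g ∪ tsupport g') g' := ⟨b.1, b.2.1, subset_union_right⟩
  simpa only [one_mul] using dom_rel hD (s := 1) (IsCompact.union a.1 b.1).isBounded
    (c1_mem hG (PN.Gd.comb a1 a2 t) c) (c1_mem hG a1 c) (c1_mem hG a2 c)
    (fun Z hZ => by simpa only [one_mul] using h c g g' t a b Z hZ) Z hZ

/-- relations between three labels, in particular real or complex linearity in the label -/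
theorem lab_dom (hG : Gen N x θ) (hD : N.Dom S W) {a b c : V} {t : ℂ} {g : R4 → ℝ} (hg : C1 univ g)
    (h : ∀ Z ∈ N.loc (tsupport g)ᶜ, S (x c g * Z) = t * S (x a g * Z) + S (x b g * Z)) :
    ∀ Z ∈ N.loc (tsupport g)ᶜ, W (x c g * Z) = t * W (x a g * Z) + W (x b g * Z) := fun Z hZ => by
  have m := c1_mem hG (O := tsupport g) ⟨hg.1, hg.2.1, subset_rfl⟩
  simpa only [one_mul] using dom_rel hD (t := 1) (IsCompact.isBounded hg.1) (m c) (m a) (m b)
    (fun Z hZ => by simpa only [one_mul] using h Z hZ) Z hZ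

theorem unit_dom (hG : Gen N x θ) (hD : N.Dom S W) {u : V} {t : ℂ} {g : R4 → ℝ} (hg : C1 univ g)
    (h : ∀ Z ∈ N.loc (tsupport g)ᶜ, S (x u g * Z) = t * S Z) :
    ∀ Z ∈ N.loc (tsupport g)ᶜ, W (x u g * Z) = t * W Z := fun Z hZ => by
  simpa using dom_rel hD (s := t) (t := 0) (IsCompact.isBounded hg.1)
    (c1_mem hG (O := tsupport g) ⟨hg.1, hg.2.1, subset_rfl⟩ u) (N.one _) (N.one _)
    (fun Z hZ => by simpa using h Z hZ) Z hZ

theorem q1l_dom (h : Q1L N x S) (hD : N.Dom S W) : Q1L N x W :=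
  h.imp fun _ => .imp_right fun e c => (e c).imp fun _ => .imp fun _ => .imp_right
    fun e d hd g L a b => hD.qb (e d hd g L a b)

/-- the polynomials in the field with the label `φ` form a subnet -/
theorem emb_of (hG : Gen N x θ) {φ : V} (h : ∀ μ, θ μ φ = φ) : Net.Emb net N (aeval (x φ)) where
  τ v := AlgHom.congr_fun (φ₁ := (aeval (x φ)).comp (net.τ v)) (φ₂ := (N.τ v).comp (aeval (x φ)))
    (algHom_ext fun f => by simp [net, hG.tau])
  Θ μ := RingHom.congr_fun (f := (aeval (x φ) : Pol →ₐ[ℂ] P).toRingHom.comp (net.Θ μ))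
    (g := (N.Θ μ).comp (aeval (x φ) : Pol →ₐ[ℂ] P).toRingHom) (ringHom_ext
      (fun c => by simp [net, thP, Algebra.algebraMap_eq_smul_one, N.Θ_smul])
      fun f => by simp [net, thP, hG.refl, h])
  mem hX := by
    obtain ⟨m, c, k, f, f1, f2, rfl⟩ := PN.exists_sum hX
    simp only [map_sum, map_smul, mon, map_prod, aeval_X]
    exact Submodule.sum_mem _ fun a _ => Submodule.smul_mem _ _ (gen_mem hG _ (f1 a) (f2 a))

/-- the pure state below `S` -/
theorem pur {V : Type} [NormedAddCommGroup V] [NormedSpace ℝ V] {x : V → (R4 → ℝ) → P}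
    {θ : Fin 4 → V → V} {A : Set V} {ι : Pol →ₐ[ℂ] P} (hG : Gen N x θ) (hS : N.St S)
    (hL : LinF N x S) (hQ : QBd N x S) (hq : Q1S N x S) (hA : A.Countable)
    (hA' : Submodule.span ℝ A = ⊤) (hc : ∀ (t : ℝ) a b g, C1 univ g → ∀ Z ∈ N.loc (tsupport g)ᶜ,
      S (x (t • a + b) g * Z) = t * S (x a g * Z) + S (x b g * Z))
    (e : Net.Emb net N ι) (hR : Rot (S ∘ₗ ι.toLinearMap)) :
    ∃ W : P →ₗ[ℂ] ℂ, W 1 = 1 ∧ N.Dom S W ∧ N.St W ∧ Zg.Pu N x S W ∧ LinF N x W ∧ QBd N x W ∧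
      BdW x W ∧ (∀ (t : ℝ) a b g, C1 univ g → ∀ Z ∈ N.loc (tsupport g)ᶜ,
        W (x (t • a + b) g * Z) = t * W (x a g * Z) + W (x b g * Z)) ∧
      net.Dom (S ∘ₗ ι.toLinearMap) (W ∘ₗ ι.toLinearMap) ∧ Vac (W ∘ₗ ι.toLinearMap) ∧
      Rot (W ∘ₗ ι.toLinearMap) := by
  obtain ⟨W, w1, w2, w3, w4⟩ := pure2 e hS (hQ.all hG hS) hR
  obtain ⟨r, B, b1, b2⟩ := ins_of hG hS hL hQ hA (sp_of (K := ℝ) hA' hc) w2 w1
  exact ⟨W, w1, w2, w2.st hS w1, ⟨⟨r, B, fun j i => N.mono (b1 j i) (Ot.hs 0 le_rfl), fun Z hZ => by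
    simpa only [mul_assoc] using (b2 Z hZ).1⟩, w3, q1l_dom (hq.q1l hS) w2⟩, linF_dom hG hL w2,
    hQ.dom w2, (hQ.dom w2).bd (w2.st hS w1), fun t a b g hg => lab_dom hG w2 hg (hc t a b g hg), w4⟩

end Pool.Agent.Lib.MP_7f377f_mp.Wx
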