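import Pool.Agent.Lib.MP_7f377f_mp.G.LgDefs

/-! The truncated four point function is not zero. -/

noncomputable section

namespace Pool.Agent.Lib.MP_7f377f_mp.Lg
variable [Pool.Agent.Lib.MP_7f377f_mp.GD]
set_option linter.unusedSectionVars false

open MeasureTheory Filter Topology Set Real YM7 Pur MvPolynomial

namespace NG

variable {k : ℕ}

/-- the bump of radius `1 / (n + 3)` -/
def bp (n : ℕ) (c : R4) : ContDiffBump c :=
  ⟨((n : ℝ) + 3)⁻¹ / 2, ((n : ℝ) + 3)⁻¹, by positivity, half_lt_self (by positivity)⟩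

/-- the normalised bump -/
def bu (n : ℕ) (c : R4) : R4 → ℝ := (bp n c).normed volume

theorem conc (p : Fin k → R4) {F : (Fin k → R4) → ℝ} (hm : Measurable F) (hc : ContinuousAt F p) :
    Tendsto (fun n => ∫ y : Fin k → R4, (∏ i, bu n (p i) (y i)) * F y) atTop (𝓝 (F p)) := by
  refine Metric.tendsto_nhds.2 fun η η0 => ?_
  obtain ⟨δ, δ0, hδ⟩ := Metric.continuousAt_iff.1 hc (η / 2) (half_pos η0)
  have h0 : Tendsto (fun n : ℕ => ((n : ℝ) + 3)⁻¹) atTop (𝓝 0) :=
    (tendsto_atTop_add_const_right _ _ tendsto_natCast_atTop_atTop).inv_tendsto_atTop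
  filter_upwards [h0.eventually_le_const δ0] with n hn
  have gi : Integrable fun y : Fin k → R4 => ∏ i, bu n (p i) (y i) :=
    Integrable.fintype_prod fun i => (bp n (p i)).integrable_normed
  have g1 : ∫ y : Fin k → R4, ∏ i, bu n (p i) (y i) = 1 := by
    rw [integral_fintype_prod_volume_eq_prod]
    exact Finset.prod_eq_one fun i _ => (bp n (p i)).integral_normed
  have b : ∀ y : Fin k → R4, ‖(∏ i, bu n (p i) (y i)) * (F y - F p)‖ ≤
      (∏ i, bu n (p i) (y i)) * (η / 2) := by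
    intro y
    have g0 : 0 ≤ ∏ i, bu n (p i) (y i) :=
      Finset.prod_nonneg fun i _ => (bp n (p i)).nonneg_normed _
    by_cases c : ∏ i, bu n (p i) (y i) = 0
    · simp [c]
    rw [norm_mul, Real.norm_of_nonneg g0]
    refine mul_le_mul_of_nonneg_left (hδ ((dist_pi_lt_iff δ0).2 fun i => ?_)).le g0
    have : y i ∈ Function.support (bu n (p i)) :=
      Finset.prod_ne_zero_iff.1 c i (Finset.mem_univ i)
    rw [bu, ContDiffBump.support_normed_eq] at this
    exact lt_of_lt_of_le this hn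
  have hi : Integrable fun y : Fin k → R4 => (∏ i, bu n (p i) (y i)) * (F y - F p) :=
    (gi.mul_const _).mono' (gi.1.mul (hm.sub_const _).aestronglyMeasurable) (.of_forall b)
  have e : ∫ y : Fin k → R4, (∏ i, bu n (p i) (y i)) * F y =
      (∫ y : Fin k → R4, (∏ i, bu n (p i) (y i)) * (F y - F p)) + F p := by
    have e1 : ∫ y : Fin k → R4, (∏ i, bu n (p i) (y i)) * F p = F p := by
      rw [integral_mul_const, g1, one_mul]
    rw [← sub_eq_iff_eq_add', ← sub_eq_zero, sub_sub]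
    nth_rewrite 2 [← e1]
    rw [← integral_add hi (gi.mul_const _)]
    simp only [← mul_add, sub_add_cancel, sub_self]
  have := norm_integral_le_of_norm_le (gi.mul_const _) (.of_forall b)
  rw [integral_mul_const, g1, one_mul] at this
  rw [e, dist_eq_norm, add_sub_cancel_right]
  linarith

theorem free_meas : Measurable (free : (Fin k → R4) → ℝ) := by
  refine Finset.measurable_sum _ fun σ _ => ?_
  split_ifs
  · refine (Finset.measurable_sum _ fun a _ => Finset.measurable_prod _ fun i _ => ?_).const_mul _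
    unfold mirror
    split_ifs <;> fun_prop
  · exact measurable_const

theorem free_cont {p : Fin k → R4} (hp : p.Injective) : ContinuousAt free p := by
  refine tendsto_finsetSum _ fun σ _ => ?_
  split_ifs with h
  · refine (tendsto_finsetSum _ fun a _ => tendsto_finsetProd _ fun i _ => ?_).const_mul _
    have h1 : ‖p (σ i) - p i‖ ≠ 0 := norm_ne_zero_iff.2 (sub_ne_zero.2 (hp.ne (h i)))
    have h2 : ∀ u v, ContinuousAt (fun y : Fin k → R4 => mirror (y (σ i) - y i) u v) p := by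
      intro u v
      unfold mirror
      exact continuousAt_const.sub (ContinuousAt.div (by fun_prop) (by fun_prop) (pow_ne_zero _ h1))
    split_ifs
    · exact ContinuousAt.div (((h2 _ _).mul (h2 _ _)).sub ((h2 _ _).mul (h2 _ _))) (by fun_prop)
        (pow_ne_zero _ h1)
    · exact tendsto_const_nhds
  · exact tendsto_const_nhds

theorem free_one (y : Fin 1 → R4) : free y = 0 :=
  Finset.sum_eq_zero fun _ _ => if_neg fun h => h 0 (Subsingleton.elim _ _)

/-- four points on a line -/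
def pt (i : Fin 4) : R4 := EuclideanSpace.single 0 ((i : ℕ) : ℝ)

theorem pt_sub (i j : Fin 4) : pt j - pt i = EuclideanSpace.single 0 (((j : ℕ) : ℝ) - (i : ℕ)) := by
  ext l; by_cases h : l = 0 <;> simp [pt, h]

theorem pt_far {i j : Fin 4} (h : j ≠ i) : 1 ≤ ‖pt j - pt i‖ := by
  rw [pt_sub, PiLp.norm_single, Real.norm_eq_abs]
  have : (1 : ℤ) ≤ |((j : ℕ) : ℤ) - (i : ℕ)| := Int.one_le_abs (by
    rw [sub_ne_zero]; exact_mod_cast fun e => h (Fin.ext e))
  exact_mod_cast this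

theorem pt_inj : pt.Injective := fun i j e => by
  by_contra h
  have := pt_far h
  rw [e, sub_self, norm_zero] at this
  linarith

theorem mirror_pt {i j : Fin 4} (h : j ≠ i) (u v : Fin 4) :
    mirror (pt j - pt i) u v = if u = v then if u = 0 then -1 else 1 else 0 := by
  have h1 := pt_far h
  unfold mirror
  rw [pt_sub] at h1 ⊢
  generalize ((j : ℕ) : ℝ) - (i : ℕ) = t at h1
  rw [PiLp.norm_single, Real.norm_eq_abs] at h1 ⊢
  have h2 : t ≠ 0 := by rintro rfl; norm_num at h1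
  by_cases hu : u = 0 <;> by_cases hv : v = 0 <;> simp [hu, hv, eq_comm]
  field_simp; norm_num

/-- sign free kernel -/
def uu (a b : Fin 4 × Fin 4) : ℝ := if a = b then if a.1 < a.2 then 1 else 0 else 0

theorem uu_nonneg (a b : Fin 4 × Fin 4) : 0 ≤ uu a b := by unfold uu; split_ifs <;> norm_num

theorem parity : ∀ (σ : Equiv.Perm (Fin 4)) (t : Fin 4 → Bool), (∀ i, σ i ≠ i) →
    (∀ i, t (σ i) = t i) → ∏ i, (if t i then -1 else 1 : ℤ) = 1 := by decide

theorem kern : ∀ a b : Fin 4 × Fin 4, a.1 < a.2 → b.1 < b.2 →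
    ((if a.1 = b.1 then if a.1 = 0 then -1 else 1 else 0) *
      (if a.2 = b.2 then if a.2 = 0 then -1 else 1 else 0) -
    (if a.1 = b.2 then if a.1 = 0 then -1 else 1 else 0) *
      (if a.2 = b.1 then if a.2 = 0 then -1 else 1 else 0) : ℤ) =
    if a = b then if a.1 = 0 then -1 else 1 else 0 := by decide

/-- the term of a permutation -/
def tm (σ : Equiv.Perm (Fin 4)) : ℝ := if ∀ i, σ i ≠ i then (GD.d / 2) ^ σ.cycleType.card *
  ((∑ a : Fin 4 → Fin 4 × Fin 4, ∏ i, uu (a i) (a (σ i))) * ∏ i, (‖pt (σ i) - pt i‖ ^ 4)⁻¹) else 0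

theorem tm_nonneg (σ : Equiv.Perm (Fin 4)) : 0 ≤ tm σ := by
  unfold tm
  split_ifs
  · exact mul_nonneg (by positivity) (mul_nonneg (Finset.sum_nonneg fun a _ =>
      Finset.prod_nonneg fun i _ => uu_nonneg _ _) (by positivity))
  · exact le_rfl

theorem free_pt : free pt = ∑ σ, tm σ := by
  refine Finset.sum_congr rfl fun σ _ => ?_
  unfold tm
  split_ifs with h
  swap
  · rfl
  congr 1
  rw [Finset.sum_mul]
  refine Finset.sum_congr rfl fun a _ => ?_
  by_cases c : ∀ i, (a i).1 < (a i).2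
  swap
  · obtain ⟨i, hi⟩ := not_forall.1 c
    rw [Finset.prod_eq_zero (Finset.mem_univ i) (if_neg hi),
      Finset.prod_eq_zero (Finset.mem_univ i) (by simp [uu, hi]), zero_mul]
  have e : ∀ i, mirror (pt (σ i) - pt i) (a i).1 (a (σ i)).1 *
      mirror (pt (σ i) - pt i) (a i).2 (a (σ i)).2 - mirror (pt (σ i) - pt i) (a i).1 (a (σ i)).2 *
      mirror (pt (σ i) - pt i) (a i).2 (a (σ i)).1 =
      if a i = a (σ i) then if (a i).1 = 0 then -1 else 1 else 0 := by
    intro i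
    simp only [mirror_pt (h i)]
    exact_mod_cast kern _ _ (c i) (c (σ i))
  simp only [c, if_true, e, div_eq_mul_inv, Finset.prod_mul_distrib, uu]
  congr 1
  by_cases c1 : ∀ i, a i = a (σ i)
  · have := parity σ (fun i => decide ((a i).1 = 0)) h fun i => by rw [← c1 i]
    simp only [← c1, if_true, Finset.prod_const_one]
    simp only [decide_eq_true_eq] at this
    exact_mod_cast this
  · obtain ⟨i, hi⟩ := not_forall.1 c1
    rw [Finset.prod_eq_zero (Finset.mem_univ i) (if_neg hi),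
      Finset.prod_eq_zero (Finset.mem_univ i) (if_neg hi)]

theorem sum_four {A : Type} [Fintype A] (F : (Fin 4 → A) → ℝ) :
    ∑ a, F a = ∑ x, ∑ y, ∑ z, ∑ w, F ![x, y, z, w] := by
  have h : ∀ (n : ℕ) (G : (Fin (n + 1) → A) → ℝ), ∑ a, G a = ∑ x, ∑ t, G (Matrix.vecCons x t) :=
    fun n G => by
      rw [← (Fin.consEquiv fun _ => A).sum_comp, Fintype.sum_prod_type]; rfl
  simp only [h, Fintype.sum_unique]
  rfl

theorem uu_sum : ∑ a, ∑ b, uu a b * uu b a = 6 := by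
  simp only [uu, ite_mul, zero_mul, Finset.sum_ite_eq, Finset.mem_univ, if_true, one_mul]
  simp [Fintype.sum_prod_type, Fin.sum_univ_four]
  norm_num

theorem tm_pair {i j l : Fin 4} (h : (i = 1 ∧ j = 2 ∧ l = 3) ∨ (i = 2 ∧ j = 1 ∧ l = 3) ∨
    (i = 3 ∧ j = 1 ∧ l = 2)) :
    tm (Equiv.swap 0 i * Equiv.swap j l) = free ![pt 0, pt i] * free ![pt j, pt l] := by
  obtain ⟨hn, h1, h2, hd, v0, v1, v2, v3⟩ : [0, i, j, l].Nodup ∧ 0 ≠ i ∧ j ≠ l ∧
      (∀ x, (Equiv.swap 0 i * Equiv.swap j l) x ≠ x) ∧ (Equiv.swap 0 i * Equiv.swap j l) 0 = i ∧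
      (Equiv.swap 0 i * Equiv.swap j l) i = 0 ∧ (Equiv.swap 0 i * Equiv.swap j l) j = l ∧
      (Equiv.swap 0 i * Equiv.swap j l) l = j := by revert i j l; decide
  have hc : (Equiv.swap 0 i * Equiv.swap j l).cycleType.card = 2 := by
    rw [(Equiv.Perm.disjoint_swap_swap hn).cycleType_mul, Multiset.card_add,
      Equiv.Perm.card_cycleType_eq_one.2 (Equiv.Perm.isCycle_swap h1),
      Equiv.Perm.card_cycleType_eq_one.2 (Equiv.Perm.isCycle_swap h2)]
  have e1 : free ![pt 0, pt i] = 3 * GD.d / ‖pt 0 - pt i‖ ^ 8 := YM5.free_two _ (pt_inj.ne h1)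
  have e2 : free ![pt j, pt l] = 3 * GD.d / ‖pt j - pt l‖ ^ 8 := YM5.free_two _ (pt_inj.ne h2)
  have hp : ∀ G : Fin 4 → ℝ, ∏ x, G x = G 0 * G i * (G j * G l) := fun G => by
    rw [Fin.prod_univ_four]
    rcases h with ⟨rfl, rfl, rfl⟩ | ⟨rfl, rfl, rfl⟩ | ⟨rfl, rfl, rfl⟩ <;> ring
  have hN : ∑ a : Fin 4 → Fin 4 × Fin 4, uu (a 0) (a i) * uu (a i) (a 0) *
      (uu (a j) (a l) * uu (a l) (a j)) = 6 * 6 := by
    rw [sum_four]
    rcases h with ⟨rfl, rfl, rfl⟩ | ⟨rfl, rfl, rfl⟩ | ⟨rfl, rfl, rfl⟩ <;>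
      simp only [Matrix.cons_val, ← Finset.mul_sum, uu_sum, ← Finset.sum_mul]
  rw [tm, if_pos hd, hc, e1, e2]
  simp only [hp, v0, v1, v2, v3, hN, norm_sub_rev (pt i) (pt 0), norm_sub_rev (pt l) (pt j)]
  ring

theorem free_ne : free pt ≠ free ![pt 0, pt 1] * free ![pt 2, pt 3] +
    free ![pt 0, pt 2] * free ![pt 1, pt 3] + free ![pt 0, pt 3] * free ![pt 1, pt 2] := by
  rw [← tm_pair (by decide), ← tm_pair (by decide), ← tm_pair (by decide), free_pt]
  have h := Finset.sum_le_sum_of_subset_of_nonneg (Finset.subset_univ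
    {Equiv.swap 0 1 * Equiv.swap 2 3, Equiv.swap 0 2 * Equiv.swap 1 3,
      Equiv.swap 0 3 * Equiv.swap 1 2, finRotate 4}) fun σ _ _ => tm_nonneg σ
  rw [Finset.sum_insert (by decide), Finset.sum_insert (by decide), Finset.sum_insert (by decide),
    Finset.sum_singleton] at h
  have hd : ∀ x, finRotate 4 x ≠ x := by decide
  have p : 0 < tm (finRotate 4) := by
    have d0 : (0 : ℝ) < GD.d := Nat.cast_pos.2 (by have := GD.d3; omega)
    rw [tm, if_pos hd]
    refine mul_pos (by positivity) (mul_pos ?_ (Finset.prod_pos fun x _ => ?_))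
    · refine lt_of_lt_of_le ?_ (Finset.single_le_sum (fun a _ => Finset.prod_nonneg fun i _ =>
        uu_nonneg _ _) (Finset.mem_univ fun _ => (0, 1)))
      simp [uu]
    · have := pt_far (hd x)
      positivity
  exact ne_of_gt (by linarith)

theorem adm_bu (n : ℕ) : Adm fun i => bu n (pt i) := by
  refine ⟨fun i => ⟨(bp n _).hasCompactSupport_normed, (bp n _).contDiff_normed⟩, fun i j h => ?_⟩
  simp only [bu, ContDiffBump.tsupport_normed_eq]
  refine Metric.closedBall_disjoint_closedBall (lt_of_lt_of_le ?_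
    ((pt_far h).trans_eq (dist_eq_norm _ _).symm))
  have : ((n : ℝ) + 3)⁻¹ ≤ 3⁻¹ := inv_anti₀ (by norm_num) (by linarith [n.cast_nonneg (α := ℝ)])
  change ((n : ℝ) + 3)⁻¹ + ((n : ℝ) + 3)⁻¹ < 1
  linarith

/-- the free value -/
def iv (f : Fin k → R4 → ℝ) : ℝ := ∫ y : Fin k → R4, (∏ i, f i (y i)) * free y

theorem wick {W : Pol →ₗ[ℂ] ℂ} (h1 : W 1 = 1) {γ : ℝ} (hγ : γ ≠ 0)
    (af : ∀ k (f : Fin k → R4 → ℝ), Adm f →
      Tendsto (fun d : ℝ => (log d⁻¹ : ℂ) ^ k * W (mon fun i y => f i (d⁻¹ • y))) (𝓝[>] 0)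
        (𝓝 (γ ^ k * iv f : ℝ)))
    (h : ∀ (f : Fin 4 → R4 → ℝ) (Y : Fin 4 → Pol), Adm f → (∀ i, ContDiff ℝ (⊤ : ℕ∞) (f i)) →
      (∀ i, Y i = X (f i) - C (W (X (f i)))) →
      W (Y 0 * Y 1 * Y 2 * Y 3) = W (Y 0 * Y 1) * W (Y 2 * Y 3) + W (Y 0 * Y 2) * W (Y 1 * Y 3) +
        W (Y 0 * Y 3) * W (Y 1 * Y 2)) {f : Fin 4 → R4 → ℝ} (hf : Adm f)
    (hs : ∀ i, ContDiff ℝ (⊤ : ℕ∞) (f i)) :
    iv f = iv ![f 0, f 1] * iv ![f 2, f 3] + iv ![f 0, f 2] * iv ![f 1, f 3] +
      iv ![f 0, f 3] * iv ![f 1, f 2] := by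
  have sub : ∀ l (e : Fin l → Fin 4), e.Injective → Adm fun i => f (e i) := fun l e he =>
    ⟨fun i => hf.1 _, fun _ _ c => hf.2 (he.ne c)⟩
  set x : ℝ → Fin 4 → Pol := fun d i => X fun y => f i (d⁻¹ • y) with hx
  have a1 : ∀ i, Tendsto (fun d : ℝ => (log d⁻¹ : ℂ) * W (x d i)) (𝓝[>] 0) (𝓝 0) := fun i => by
    simpa [mon, iv, free_one] using af 1 _ (sub 1 (fun _ => i) fun _ _ _ => Subsingleton.elim _ _)
  have a2 : ∀ i j, i ≠ j → Tendsto (fun d : ℝ => (log d⁻¹ : ℂ) ^ 2 * W (x d i * x d j)) (𝓝[>] 0)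
      (𝓝 (γ ^ 2 * iv ![f i, f j] : ℝ)) := fun i j c => by
    have := af 2 _ (sub 2 ![i, j] (by revert i j; decide))
    rw [show iv (fun a => f (![i, j] a)) = iv ![f i, f j] by
      congr 1; funext a; fin_cases a <;> rfl] at this
    simp only [mon, Fin.prod_univ_two] at this
    exact this
  have a3 : ∀ i j l, i < j → j < l → ∃ c : ℂ, Tendsto (fun d : ℝ => (log d⁻¹ : ℂ) ^ 3 *
      W (x d i * x d j * x d l)) (𝓝[>] 0) (𝓝 c) := fun i j l c c' => by
    have := af 3 _ (sub 3 ![i, j, l] (by revert i j l; decide))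
    simp only [mon, Fin.prod_univ_three] at this
    exact ⟨_, this⟩
  have a4 : Tendsto (fun d : ℝ => (log d⁻¹ : ℂ) ^ 4 * W (x d 0 * x d 1 * x d 2 * x d 3)) (𝓝[>] 0)
      (𝓝 (γ ^ 4 * iv f : ℝ)) := by simpa only [mon, Fin.prod_univ_four] using af 4 f hf
  obtain ⟨c0, b0⟩ := a3 1 2 3 (by decide) (by decide)
  obtain ⟨c1, b1⟩ := a3 0 2 3 (by decide) (by decide)
  obtain ⟨c2, b2⟩ := a3 0 1 3 (by decide) (by decide)
  obtain ⟨c3, b3⟩ := a3 0 1 2 (by decide) (by decide)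
  have t := ((((((a2 0 1 (by decide)).mul (a2 2 3 (by decide))).add
    ((a2 0 2 (by decide)).mul (a2 1 3 (by decide)))).add
    ((a2 0 3 (by decide)).mul (a2 1 2 (by decide)))).add
    (((((a1 0).mul b0).add ((a1 1).mul b1)).add ((a1 2).mul b2)).add ((a1 3).mul b3))).sub
    (((((((((a1 0).mul (a1 1)).mul (a2 2 3 (by decide))).add
      (((a1 0).mul (a1 2)).mul (a2 1 3 (by decide)))).add
      (((a1 0).mul (a1 3)).mul (a2 1 2 (by decide)))).add
      (((a1 1).mul (a1 2)).mul (a2 0 3 (by decide)))).add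
      (((a1 1).mul (a1 3)).mul (a2 0 2 (by decide)))).add
      (((a1 2).mul (a1 3)).mul (a2 0 1 (by decide)))).const_mul 2)).add
    (((((a1 0).mul (a1 1)).mul (a1 2)).mul (a1 3)).const_mul 6)
  have u := tendsto_nhds_unique a4 (t.congr' ?_)
  · simp only [zero_mul, add_zero, mul_zero, sub_zero] at u
    have u' : γ ^ 4 * iv f = γ ^ 2 * iv ![f 0, f 1] * (γ ^ 2 * iv ![f 2, f 3]) +
        γ ^ 2 * iv ![f 0, f 2] * (γ ^ 2 * iv ![f 1, f 3]) +
        γ ^ 2 * iv ![f 0, f 3] * (γ ^ 2 * iv ![f 1, f 2]) := by exact_mod_cast u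
    exact mul_left_cancel₀ (pow_ne_zero 4 hγ) (by linear_combination u')
  filter_upwards [self_mem_nhdsWithin] with d hd
  have := h (fun i y => f i (d⁻¹ • y)) (fun i => x d i - C (W (x d i)))
    (hf.smul (inv_ne_zero (ne_of_gt hd))) (fun i => (hs i).comp (contDiff_const_smul _)) fun _ => rfl
  simp only [C_eq_smul_one, sub_mul, mul_sub, smul_mul_assoc, mul_smul_comm, one_mul, mul_one,
    map_sub, map_smul, smul_eq_mul, h1] at this
  linear_combination (-(log d⁻¹ : ℂ) ^ 4) * this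

end NG

open NG in
theorem non_gauss {W : Pol →ₗ[ℂ] ℂ} (h1 : W 1 = 1) {γ : ℝ} (hγ : γ ≠ 0)
    (af : ∀ k (f : Fin k → R4 → ℝ), Adm f →
    Tendsto (fun d : ℝ => (log d⁻¹ : ℂ) ^ k * W (mon fun i y => f i (d⁻¹ • y))) (𝓝[>] 0)
      (𝓝 (γ ^ k * ∫ y : Fin k → R4, (∏ i, f i (y i)) * free y : ℝ))) :
    ∃ (f : Fin 4 → R4 → ℝ) (Y : Fin 4 → Pol), Adm f ∧ (∀ i, ContDiff ℝ (⊤ : ℕ∞) (f i)) ∧
      (∀ i, Y i = X (f i) - C (W (X (f i)))) ∧ W (Y 0 * Y 1 * Y 2 * Y 3) ≠ W (Y 0 * Y 1) * W (Y 2 * Y 3) + W (Y 0 * Y 2) * W (Y 1 * Y 3) +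
        W (Y 0 * Y 3) * W (Y 1 * Y 2) := by
  by_contra! h
  have c2 : ∀ i j, i ≠ j → Tendsto (fun n => iv ![bu n (pt i), bu n (pt j)]) atTop
      (𝓝 (free ![pt i, pt j])) := fun i j c => by
    have hi : Function.Injective ![pt i, pt j] := by
      rw [show ![pt i, pt j] = pt ∘ ![i, j] by funext a; fin_cases a <;> rfl]
      exact pt_inj.comp (by revert i j; decide)
    have := conc _ free_meas (free_cont hi)
    simp only [iv, Fin.prod_univ_two] at this ⊢
    exact this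
  exact free_ne (tendsto_nhds_unique (conc pt free_meas (free_cont pt_inj))
    (((((c2 0 1 (by decide)).mul (c2 2 3 (by decide))).add
      ((c2 0 2 (by decide)).mul (c2 1 3 (by decide)))).add
      ((c2 0 3 (by decide)).mul (c2 1 2 (by decide)))).congr fun n =>
        (wick h1 hγ af h (adm_bu n) fun _ => (bp n _).contDiff_normed).symm))

end Pool.Agent.Lib.MP_7f377f_mp.Lg
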