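import Pool.Agent.Lib.MP_7f377f_mp.G.LgInp
import Pool.Agent.Lib.MP_7f377f_mp.G.PurG

/-! Operator bounds for all local polynomials from the explicit bound. -/

noncomputable section

namespace Pool.Agent.Lib.MP_7f377f_mp.Lg
variable [Pool.Agent.Lib.MP_7f377f_mp.GD]
set_option linter.unusedSectionVars false

open MeasureTheory Filter Topology Set Real YM7 Pur MvPolynomial
open scoped NNReal

variable {S : Pol →ₗ[ℂ] ℂ} {Y Z : Pol} {c c' : ℝ}

theorem QE.mono (h : QE S Z c) (hS : net.St S) (hc : c ≤ c') : QE S Z c' :=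
  h.imp fun _ e => e.mono hS le_rfl hc

theorem QE.add (h : QE S Y c) (hS : net.St S) (h' : QE S Z c') : QE S (Y + Z) (c + c') :=
  let ⟨R, h⟩ := h
  let ⟨R', h'⟩ := h'
  ⟨max R R', (h.mono hS (le_max_left _ _) le_rfl).add hS (h'.mono hS (le_max_right _ _) le_rfl)⟩

theorem QE.smul (h : QE S Z c) (a : ℂ) : QE S (a • Z) (‖a‖ * c) := h.imp fun _ e => e.smul a

theorem QE.sum (hS : net.St S) {I : Type} (s : Finset I) {Z : I → Pol} {c : I → ℝ}
    (h : ∀ i ∈ s, QE S (Z i) (c i)) : QE S (∑ i ∈ s, Z i) (∑ i ∈ s, c i) := by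
  classical
  induction s using Finset.induction_on with
  | empty => exact ⟨0, by simpa using Net.QB.zero le_rfl⟩
  | insert i s hi ih =>
    rw [Finset.sum_insert hi, Finset.sum_insert hi]
    exact (h i (Finset.mem_insert_self _ _)).add hS
      (ih fun j hj => h j (Finset.mem_insert_of_mem hj))

theorem QE.congr (h : QE S Z c) (hS : net.St S) {O : Set R4} {D : ℝ} (hO : ∀ y ∈ O, ‖y‖ ≤ D)
    (hY : Y ∈ net.loc O) (e : ∀ B ∈ net.loc Oᶜ, S (Y * B) = S (Z * B)) : QE S Y c := by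
  obtain ⟨R, h⟩ := h
  have o : O ⊆ Bx (max (D + 1) R) := fun y hy l => ((PiLp.norm_apply_le y l).trans
    (hO y hy)).trans_lt ((lt_add_one D).trans_le (le_max_left _ _))
  replace h := h.mono hS (le_max_right (D + 1) R) le_rfl
  have := (Net.qb_null (Submodule.sub_mem _ (net.mono hY o) h.1) h.2.1 hS fun B hB => by
    rw [sub_mul, map_sub, e B (net.mono hB (compl_subset_compl.2 o)), sub_self]).add hS h
  rw [sub_add_cancel, zero_add] at this
  exact ⟨_, this⟩

variable (hS : net.St S) (hL : LinP S) (hG : QG S)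
include hS hL hG

theorem qe_mon (k : ℕ) (R : ℝ) {δ : ℝ} (δ0 : 0 < δ) : ∃ C : ℝ,
    ∀ (f : Fin k → R4 → ℝ) (L : Fin k → ℝ≥0), Adm f →
      (∀ i, LipschitzWith (L i) (f i) ∧ ∀ y, f i y ≠ 0 → ‖y‖ ≤ R) →
      (∀ i j, i ≠ j → ∀ x y, f i x ≠ 0 → f j y ≠ 0 → δ ≤ dist x y) →
      QE S (mon f) (C * ∏ i, L i) := by
  wlog R0 : 0 ≤ R generalizing R
  · obtain ⟨C, H⟩ := this 0 le_rfl
    exact ⟨C, fun f L f1 f2 => H f L f1 fun i =>
      ⟨(f2 i).1, fun y hy => ((f2 i).2 y hy).trans (not_le.1 R0).le⟩⟩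
  obtain ⟨C₀, s, -, H⟩ := hG
  replace H := H k (min δ 1) (lt_min δ0 one_pos) (min_le_right _ _)
  generalize (C₀ * ((k + 1) / min δ 1) ^ s) ^ k = C at H
  obtain ⟨η, hη⟩ : ∃ η : ℝ, η = min δ 1 / 4 := ⟨_, rfl⟩
  have η0 : 0 < η := by rw [hη]; positivity
  obtain ⟨D, hD⟩ := exists_nat_ge (R / η)
  rw [div_le_iff₀' η0] at hD
  choose K hK using fun z : Fin 4 → Fin (2 * D + 1) =>
    (bumpS_smooth η fun l => z l - D).lipschitzWith_of_hasCompactSupport
      (cpt_box (lo := fun l => η * (z l - D : ℤ) - η) (hi := fun l => η * (z l - D : ℤ) + η)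
        fun y hy l => abs_sub_le_iff.1 (bumpS_supp η0 hy l) |>.symm.imp
          (by intro; linarith) (by intro; linarith)) one_ne_zero
  obtain ⟨Λ, hΛ⟩ : ∃ Λ : (Fin 4 → Fin (2 * D + 1)) → ℝ,
    ∀ z, Λ z = 1 + (2 * R + 1) + (2 * R + 1) * K z := ⟨_, fun _ => rfl⟩
  have Λ0 : ∀ z, 0 < Λ z := fun z => by rw [hΛ]; positivity
  refine ⟨∑ z : Fin k → Fin 4 → Fin (2 * D + 1), (∏ i, Λ (z i)) * C, fun f L f1 f2 f3 => ?_⟩
  have s1 := fun i => sup_le (f2 i).1 R0 (f2 i).2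
  obtain ⟨g, hg⟩ : ∃ g : Fin k → (Fin 4 → Fin (2 * D + 1)) → R4 → ℝ, ∀ i z, g i z =
    fun y => (Λ z * L i)⁻¹ * (bumpS η (fun l => z l - D) y * f i y) := ⟨_, fun _ _ => rfl⟩
  have g0 : ∀ i z y, g i z y ≠ 0 → bumpS η (fun l => z l - D) y ≠ 0 ∧ f i y ≠ 0 :=
    fun i z y hy => mul_ne_zero_iff.1 (right_ne_zero_of_mul (hg i z ▸ hy :))
  have g1 : ∀ i z, tsupport (g i z) ⊆ tsupport (f i) := fun i z =>
    closure_mono fun y hy => (g0 i z y hy).2
  have g2 : ∀ i z, HasCompactSupport (g i z) ∧ ContDiff ℝ 1 (g i z) := fun i z =>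
    ⟨(f1.1 i).1.mono fun y hy => (g0 i z y hy).2,
      hg i z ▸ contDiff_const.mul ((bumpS_smooth _ _).mul (f1.1 i).2)⟩
  have g3 : f = fun i => ∑ z, (Λ z * L i) • g i z := by
    funext i y
    by_cases e1 : f i y = 0
    · simp [hg, e1]
    · have e2 : (L i : ℝ) ≠ 0 := fun u => e1 (by simpa [u] using s1 i y)
      simp only [Finset.sum_apply, Pi.smul_apply, hg, smul_eq_mul,
        mul_inv_cancel_left₀ (mul_ne_zero (Λ0 _).ne' e2), ← Finset.sum_mul]
      rw [sum_bumpS η0 fun l => ((PiLp.norm_apply_le y l).trans ((f2 i).2 y e1)).trans hD, one_mul]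
  have q1 : QE S (∑ z : Fin k → Fin 4 → Fin (2 * D + 1),
      ((∏ i, Λ (z i) * L i : ℝ) : ℂ) • mon fun i => g i (z i)) _ :=
    QE.sum hS _ fun z _ => (H (fun i => g i (z i)) (fun _ => 1)
      ⟨⟨fun i => g2 i _, fun i j hij => (f1.2 hij).mono (g1 _ _) (g1 _ _)⟩, fun i => ⟨by
        have := norm_piece (by positivity) (hK (z i)) (abs_bumpS _ _) (f2 i).1 (s1 i)
        rw [← hΛ, ← hg] at this
        exact this.1, fun x y hx hy => (dist_le_two (w := 2 * η) fun l => by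
          have u1 := abs_le.1 (bumpS_supp η0 (g0 _ _ x hx).1 l)
          have u2 := abs_le.1 (bumpS_supp η0 (g0 _ _ y hy).1 l)
          rw [abs_le]
          constructor <;> linarith [u1.1, u1.2, u2.1, u2.2]).trans (by linarith)⟩,
      fun i j hij x y hx hy => (min_le_left _ _).trans
        (f3 i j hij x y (g0 _ _ x hx).2 (g0 _ _ y hy).2)⟩).smul _
  refine (q1.congr hS (O := ⋃ i, tsupport (f i)) (D := R) (fun y hy => ?_)
    (mon_mem f1 (subset_iUnion fun i => tsupport (f i))) fun Z hZ => ?_).mono hS (le_of_eq ?_)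
  · obtain ⟨i, hi⟩ := mem_iUnion.1 hy
    exact closure_minimal (f2 i).2 (isClosed_le continuous_norm continuous_const) hi
  · have := hL.sum f1.2 (fun i z => ⟨(g2 i z).1, (g2 i z).2, g1 i z⟩) (fun i z => Λ z * L i) Z hZ
    rw [← g3] at this
    simp only [this, Finset.sum_mul, map_sum, smul_mul_assoc, map_smul, smul_eq_mul]
  · rw [Finset.sum_mul]
    refine Finset.sum_congr rfl fun z _ => ?_
    rw [Complex.norm_real, norm_of_nonneg (Finset.prod_nonneg fun i _ =>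
      mul_nonneg (Λ0 (z i)).le (L i).coe_nonneg), Finset.prod_mul_distrib,
      Finset.prod_const_one, NNReal.coe_one, NNReal.coe_prod]
    ring

theorem qual_of : Qual S := fun k R _ δ0 =>
  (qe_mon hS hL hG k R δ0).imp fun _ e f L f1 f2 f3 => (e f L f1 f2 f3).bound hS

theorem qe_all : ∀ Z ∈ net.loc univ, ∃ R c, net.QB S Z R c := by
  intro Z hZ
  rw [exists_comm]
  obtain ⟨m, c, k, f, f1, -, rfl⟩ := PN.exists_sum hZ
  choose D q d1 d2 d3 using fun a => (f1 a).data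
  choose C H using fun a => qe_mon hS hL hG (k a) (D a) (δ := 1 / (q a + 1)) (by positivity)
  exact ⟨_, QE.sum hS _ fun a _ => (H a (f a) (fun _ => D a) (f1 a)
    (fun i => ⟨(d2 a i).1, fun y hy => d1 a i y (subset_tsupport _ hy)⟩) fun i j hij x y hx hy =>
      d3 a i j hij x (subset_tsupport _ hx) y (subset_tsupport _ hy)).smul _⟩

theorem qe_diff (k : ℕ) (R : ℝ) {δ : ℝ} (δ0 : 0 < δ) (L : ℝ≥0) : ∃ C : ℝ,
    ∀ (f g : Fin k → R4 → ℝ) (O : Fin k → Set R4) (ε : ℝ≥0), ε ≤ 1 →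
      (∀ i, PN.Gd (O i) (f i) ∧ PN.Gd (O i) (g i) ∧ LipschitzWith L (g i) ∧
        LipschitzWith ε (f i - g i)) → (∀ i, ∀ y ∈ O i, ‖y‖ ≤ R) →
      (∀ i j, i ≠ j → ∀ x ∈ O i, ∀ y ∈ O j, δ ≤ dist x y) →
      QE S (mon f - mon g) (C * ε) := by
  obtain ⟨C, H⟩ := qe_mon hS hL hG k R δ0
  refine ⟨∑ _z : Fin k → Bool, |C| * (L + 1) ^ k, fun f g O ε ε1 h1 h2 h3 => ?_⟩
  have o1 : Pairwise fun i j => Disjoint (O i) (O j) := fun i j hij => disjoint_left.2
    fun y hy hy' => (h3 i j hij y hy y hy').not_gt ((dist_self y).trans_lt δ0)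
  have o3 : ∀ {u : Fin k → R4 → ℝ}, (∀ i, PN.Gd (O i) (u i)) → Adm u := fun hu =>
    ⟨fun i => ⟨(hu i).1, (hu i).2.1⟩, fun i j hij => (o1 hij).mono (hu i).2.2 (hu j).2.2⟩
  obtain ⟨G, hG⟩ : ∃ G : Fin k → Bool → R4 → ℝ, ∀ i z, G i z = bif z then f i - g i else g i :=
    ⟨_, fun _ _ => rfl⟩
  have g1 : ∀ i z, PN.Gd (O i) (G i z) := fun i z => by
    cases z
    · exact hG i _ ▸ (h1 i).2.1
    · simpa only [hG, cond_true, neg_smul, one_smul, sub_eq_add_neg] using
        (h1 i).1.comb (h1 i).2.1 (-1)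
  have q1 : QE S (∑ z ∈ Finset.univ.erase fun _ => false, mon fun i => G i (z i))
      (∑ _z ∈ Finset.univ.erase fun _ : Fin k => false, |C| * (L + 1) ^ k * ε) :=
    QE.sum hS _ fun z hz => by
      obtain ⟨j, hj⟩ := Function.ne_iff.1 (Finset.ne_of_mem_erase hz)
      refine (H _ (fun i => bif z i then ε else L) (o3 fun i => g1 i _) (fun i => ⟨?_, fun y hy =>
        h2 i y ((g1 i _).2.2 (subset_tsupport _ hy))⟩) fun i j hij x y hx hy =>
          h3 i j hij x ((g1 i _).2.2 (subset_tsupport _ hx)) y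
            ((g1 j _).2.2 (subset_tsupport _ hy))).mono hS ?_
      · rw [hG]
        cases z i
        · exact (h1 i).2.2.1
        · exact (h1 i).2.2.2
      · have : ∏ i, (bif z i then ε else L) ≤ ∏ i, (L + 1) * if i = j then ε else 1 :=
          Finset.prod_le_prod' fun i _ => by
            split_ifs with e
            · rw [e, eq_true_of_ne_false hj]
              exact le_mul_of_one_le_left' le_add_self
            · rw [mul_one]
              cases z i
              · exact le_self_add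
              · exact ε1.trans le_add_self
        rw [Finset.prod_mul_distrib, Finset.prod_ite_eq', if_pos (Finset.mem_univ j),
          Fin.prod_const] at this
        rw [mul_assoc]
        exact mul_le_mul (le_abs_self C) (by exact_mod_cast this) (by positivity) (abs_nonneg C)
  refine (q1.congr hS (O := ⋃ i, O i) (D := R) (fun y hy => ?_) (Submodule.sub_mem _
    (mon_mem (o3 fun i => (h1 i).1) fun i => (h1 i).1.2.2.trans (subset_iUnion O i))
    (mon_mem (o3 fun i => (h1 i).2.1) fun i => (h1 i).2.1.2.2.trans (subset_iUnion O i)))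
    fun Z hZ => ?_).mono hS ?_
  · obtain ⟨i, hi⟩ := mem_iUnion.1 hy
    exact h2 i y hi
  · have := hL.sum o1 g1 (fun _ _ => 1) Z hZ
    rw [← Finset.add_sum_erase _ _ (Finset.mem_univ fun _ => false)] at this
    simp only [hG, one_smul, Fintype.sum_bool, cond_true, cond_false, sub_add_cancel,
      Finset.prod_const_one, Complex.ofReal_one, one_mul] at this
    simp only [hG, sub_mul, map_sub, this, Finset.sum_mul, map_sum, add_sub_cancel_left]
  · rw [Finset.sum_mul]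
    exact Finset.sum_le_sum_of_subset_of_nonneg (Finset.subset_univ _) fun _ _ _ => by positivity

theorem qe_near {k : ℕ} {f : Fin k → R4 → ℝ} (hf : Adm f) {ε : ℝ} (e0 : 0 < ε) :
    ∃ η : ℝ≥0, 0 < η ∧ ∀ g : Fin k → R4 → ℝ, (∀ i, HasCompactSupport (g i) ∧
      ContDiff ℝ 1 (g i) ∧ LipschitzWith η (g i - f i) ∧
        ∀ y ∈ tsupport (g i), ∃ x ∈ tsupport (f i), dist x y ≤ η) →
      QE S (mon g - mon f) ε := by
  obtain ⟨D, q, e1, e2, e3⟩ := hf.data
  obtain ⟨C, H⟩ := qe_diff hS hL hG k (D + 1) (δ := 1 / (q + 1 : ℝ) / 3) (by positivity) D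
  obtain ⟨η, η0, η1, η2, η3⟩ : ∃ η : ℝ, 0 < η ∧ η ≤ 1 ∧ η ≤ 1 / (q + 1 : ℝ) / 3 ∧
      η ≤ ε / (|C| + 1) := ⟨min 1 (min _ _), by positivity, min_le_left _ _,
    (min_le_right _ _).trans (min_le_left _ _), (min_le_right _ _).trans (min_le_right _ _)⟩
  refine ⟨⟨η, η0.le⟩, η0, fun g hg => (H g f
    (fun i => {y | ∃ x ∈ tsupport (f i), dist x y ≤ η}) ⟨η, η0.le⟩ η1 (fun i =>
      ⟨⟨(hg i).1, (hg i).2.1, (hg i).2.2.2⟩, ⟨(hf.1 i).1, (hf.1 i).2, fun y hy =>
        ⟨y, hy, (dist_self y).trans_le η0.le⟩⟩, (e2 i).1, (hg i).2.2.1⟩) ?_ ?_).mono hS ?_⟩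
  · rintro i y ⟨x, q1, q2⟩
    rw [dist_comm, dist_eq_norm] at q2
    linarith [e1 i x q1, norm_sub_norm_le y x]
  · rintro i j hij x ⟨x', q1, q2⟩ y ⟨y', q3, q4⟩
    linarith [e3 i j hij x' q1 y' q3, dist_triangle4_right x' y' x y]
  · rw [le_div_iff₀ (by positivity)] at η3
    change C * η ≤ ε
    nlinarith [le_abs_self C]

theorem qe_shift {k : ℕ} {f : Fin k → R4 → ℝ} (hf : Adm f) {ε : ℝ} (e0 : 0 < ε) :
    ∀ᶠ u : Fin k → R4 in 𝓝 0, QE S (mon (fun i y => f i (y - u i)) - mon f) ε := by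
  obtain ⟨η, η0, H⟩ := qe_near hS hL hG hf e0
  filter_upwards [eventually_all.2 fun i => ((continuous_apply i).tendsto' 0 0 rfl).eventually
    (lip_shift (hf.1 i).1 (hf.1 i).2 η0), Metric.closedBall_mem_nhds 0 (NNReal.coe_pos.2 η0)]
    with u hu hu'
  refine H _ fun i => ⟨(hf.1 i).1.comp_homeomorph (Homeomorph.subRight (u i)),
    (hf.1 i).2.comp (contDiff_id.sub contDiff_const), hu i, fun y hy =>
      ⟨_, tsupport_comp (θ := fun y => y - u i) (by fun_prop) hy, ?_⟩⟩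
  rw [dist_eq_norm, sub_sub_cancel_left, norm_neg]
  exact (norm_le_pi_norm u i).trans (mem_closedBall_zero_iff.1 hu')

theorem qe_sep : ∃ D : Set Pol, D.Countable ∧ D ⊆ net.loc univ ∧ ∀ k (f : Fin k → R4 → ℝ),
    Adm f → ∀ ε > 0, ∃ Y ∈ D, ∃ R, net.QB S (mon f - Y) R ε := by
  have hD : ∀ I, ∃ D : Set (Cls I), D.Countable ∧
      ∀ x, ∀ r > 0, ∃ y ∈ D, dist (jet I x) (jet I y) < r := fun I => by
    let _ := PseudoMetricSpace.induced (jet I) inferInstance
    have : SecondCountableTopology (Cls I) := TopologicalSpace.secondCountableTopology_induced _ _ _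
    obtain ⟨D, h, h'⟩ := TopologicalSpace.exists_countable_dense (Cls I)
    exact ⟨D, h, fun x r hr => Metric.mem_closure_iff.1 (h' x) r hr⟩
  choose E E1 E2 using hD
  refine ⟨insert 0 (⋃ I, (fun g : Cls I => mon g.1) '' E I),
    (countable_iUnion fun I => (E1 I).image _).insert _, insert_subset (Submodule.zero_mem _)
      (iUnion_subset fun I => image_subset_iff.2 fun g _ => mon_mem g.2.1 fun _ => subset_univ _),
    fun k f hf ε e0 => ?_⟩
  obtain ⟨D, q, f3, f4, f5⟩ := hf.data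
  by_cases f2 : ∀ i, (tsupport (f i)).Nonempty
  · obtain ⟨η, η0, H⟩ := qe_near hS hL hG hf e0
    obtain ⟨g, hg, hρ⟩ := E2 (k, D, q) ⟨f, hf, f2, f3, f4, f5⟩ η η0
    refine ⟨_, mem_insert_of_mem _ (mem_iUnion.2 ⟨_, g, hg, rfl⟩), ?_⟩
    have hj := fun i y => ((ContinuousMap.dist_apply_le_dist y).trans
      (dist_le_pi_dist (jet (k, D, q) _) (jet _ g) i)).trans_lt hρ
    obtain ⟨g, g1, g2, g3, g4, g5⟩ := g
    simp only [jet, ContinuousMap.coe_mk, Prod.dist_eq, max_lt_iff, Subtype.forall,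
      mem_closedBall_zero_iff] at hj
    have := (H g fun i => ⟨(g1.1 i).1, (g1.1 i).2, ?_, fun y hy => ?_⟩).smul (-1)
    · rwa [neg_smul, one_smul, neg_sub, norm_neg, norm_one, one_mul] at this
    · have d1 := (hf.1 i).2.differentiable one_ne_zero
      have d2 := (g1.1 i).2.differentiable one_ne_zero
      refine lipschitzWith_of_nnnorm_fderiv_le (d2.sub d1) fun y => ?_
      rw [fderiv_sub (d2 y) (d1 y), ← NNReal.coe_le_coe, coe_nnnorm, ← dist_eq_norm, dist_comm]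
      by_cases hy : ‖y‖ ≤ D
      · exact (hj i y hy).2.2.le
      · rw [fderiv_of_notMem_tsupport _ fun e => hy (f3 i y e),
          fderiv_of_notMem_tsupport _ fun e => hy (g3 i y e), dist_self]
        exact η.coe_nonneg
    · have h6 := (hj i _ (g3 i _ hy)).2.1
      rw [Metric.infDist_zero_of_mem hy, dist_zero_right] at h6
      obtain ⟨x, hx, h7⟩ := (Metric.infDist_lt_iff (f2 i)).1 ((le_abs_self _).trans_lt h6)
      exact ⟨x, hx, (dist_comm _ _).trans_le h7.le⟩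
  · obtain ⟨i, hi⟩ := not_forall.1 f2
    refine ⟨0, mem_insert _ _, D + 1, ?_⟩
    rw [sub_zero]
    exact (qb_zero hS hL hf (by positivity) (fun j y hy l => ((PiLp.norm_apply_le y l).trans
      (f3 j y hy)).trans_lt (lt_add_one _)) (i := i) (tsupport_eq_empty_iff.1
        (not_nonempty_iff_eq_empty.1 hi))).mono hS le_rfl e0.le

end Pool.Agent.Lib.MP_7f377f_mp.Lg
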