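import Pool.Agent.Lib.MP_7f377f_mp.G.SbDef
import Pool.Agent.Lib.MP_7f377f_mp.G.LgAbs
import Pool.Agent.Lib.MP_7f377f_mp.StR

/-! The smeared pair: continuity, Riemann sums, covariance. -/

noncomputable section

namespace Pool.Agent.Lib.MP_7f377f_mp.Ope
variable [Pool.Agent.Lib.MP_7f377f_mp.GD]
set_option linter.unusedSectionVars false

open MeasureTheory Filter Topology Set Real YM7 Pur MvPolynomial Metric Lg

/-- profiles of pairs -/
def Pb (u : R4 → ℝ) : Prop := Adm ![u, fun y => u (-y)] ∧ tsupport u ⊆ ball 0 2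

/-- the scale `d` is small for the data -/
def Sm (d : ℝ) (f : R4 → ℝ) (Z : Pol) : Prop :=
  0 < d ∧ Adm ![f] ∧ Z ∈ net.loc (thickening (3 * d) (tsupport f))ᶜ

variable {h u f f' : R4 → ℝ} {n z : R4} {d D : ℝ} {W : Pol →ₗ[ℂ] ℂ} {Y Y' Z Z' : Pol} {O : Set R4}
  {k e : ℕ} {g : Fin k → R4 → ℝ}

theorem adm_one : Adm ![f] ↔ HasCompactSupport f ∧ ContDiff ℝ 1 f :=
  ⟨fun a => a.1 0, fun a => ⟨fun i => by fin_cases i; exact a, Subsingleton.pairwise⟩⟩

theorem adm_two : Adm ![f, u] ↔ (HasCompactSupport f ∧ ContDiff ℝ 1 f) ∧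
    (HasCompactSupport u ∧ ContDiff ℝ 1 u) ∧ Disjoint (tsupport f) (tsupport u) :=
  ⟨fun a => ⟨a.1 0, a.1 1, a.2 (i := 0) (j := 1) (by decide)⟩, fun a =>
    PN.adm_cons a.1.1 a.1.2 (adm_one.2 a.2.1) fun i => by fin_cases i; exact a.2.2⟩

theorem dt_of (a : Adm (Fin.cons f g : Fin (k + 1) → _)) : Dt f (mon g) :=
  ⟨adm_one.2 (a.1 0), mon_mem ⟨fun i => a.1 i.succ, fun _ _ e => a.2 ((Fin.succ_injective _).ne e)⟩
    fun i => (a.2 (Fin.succ_ne_zero i)).subset_compl_right⟩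

theorem Dt.one (a : Dt f Z) : Dt f 1 := ⟨a.1, net.one _⟩

theorem Dt.adm (a : Dt f Z) : Z ∈ net.loc univ := Net.adm a.2

theorem Dt.sum (a : Dt f Z) : ∃ (m : ℕ) (c : Fin m → ℂ) (k : Fin m → ℕ)
    (g : ∀ i, Fin (k i) → R4 → ℝ), (∀ i, Adm (Fin.cons f (g i) : Fin (k i + 1) → _)) ∧
      ∑ i, c i • mon (g i) = Z := by
  obtain ⟨m, c, k, g, g1, g2, e⟩ := PN.exists_sum a.2
  exact ⟨m, c, k, g, fun i => PN.adm_cons (adm_one.1 a.1).1 (adm_one.1 a.1).2 (g1 i) fun j =>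
    disjoint_left.2 fun y h1 h2 => g2 i j h2 h1, e⟩

theorem Rd.pb (a : Rd h) (hn1 : ‖n‖ = 1) : Pb (hn h n) := by
  have s : ∀ y ∈ tsupport (hn h n), ‖y - n‖ < 1 := fun y hy =>
    mem_ball_zero_iff.1 (a.2.1 (tsupport_comp (θ := fun y => y - n) (by fun_prop) hy))
  have c : HasCompactSupport (hn h n) := (isCompact_closedBall n 1).of_isClosed_subset
    (isClosed_tsupport _) fun y hy => mem_closedBall_iff_norm.2 (s y hy).le
  have r : ContDiff ℝ 1 (hn h n) := a.1.comp (contDiff_id.sub contDiff_const)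
  refine ⟨adm_two.2 ⟨⟨c, r⟩, ⟨c.comp_homeomorph (Homeomorph.neg R4), r.comp contDiff_neg⟩,
    disjoint_left.2 fun y h1 h2 => ?_⟩, fun y hy => mem_ball_zero_iff.2 ?_⟩
  · have e1 := s y h1
    have e2 := s _ (tsupport_comp (θ := fun y : R4 => -y) continuous_neg h2)
    have e3 := norm_add_le (y - n) (-y - n)
    rw [show y - n + (-y - n) = (-2 : ℝ) • n by module, norm_smul, hn1] at e3
    norm_num at e3
    linarith
  · linarith [s y hy, norm_sub_norm_le y n]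

theorem pr_eq (u : R4 → ℝ) (d : ℝ) (z : R4) :
    pr u d z = mon fun i y => ![u, fun y => u (-y)] i (d⁻¹ • (y - z)) := by
  simp [pr, mon, Fin.prod_univ_two, ← smul_neg]

theorem pr_tau (u : R4 → ℝ) (d : ℝ) (z v : R4) : net.τ v (pr u d z) = pr u d (z + v) := by
  simp only [pr_eq, τ_mon, sub_sub, add_comm]

theorem pr_neg (u : R4 → ℝ) (d : ℝ) (z : R4) : pr (fun y => u (-y)) d z = pr u d z := by
  simp only [pr, ← smul_neg, neg_sub, mul_comm]

theorem pr_act (g : Ro.Iso) (u : R4 → ℝ) (d : ℝ) (z : R4) :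
    Ro.act g (pr u d z) = pr (fun y => u (g.symm y)) d (g z) := by
  simp only [pr, map_mul, Ro.act_X, map_smul, map_sub, g.symm_apply_apply]

theorem Pb.mem (a : Pb u) (d0 : 0 < d) (z : R4) : pr u d z ∈ net.loc (ball z (2 * d)) := by
  rw [pr_eq]
  refine mon_mem (adm_sub (a.1.smul (inv_pos.2 d0).ne') z) fun i y hy => ?_
  have e := tsupport_comp (θ := fun y => d⁻¹ • (y - z)) (by fun_prop) hy
  have : ‖d⁻¹ • (y - z)‖ < 2 := by
    fin_cases i
    · exact mem_ball_zero_iff.1 (a.2 e)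
    · exact norm_neg (d⁻¹ • (y - z)) ▸ mem_ball_zero_iff.1
        (a.2 (tsupport_comp (θ := fun y : R4 => -y) continuous_neg e))
  rwa [norm_smul, norm_inv, Real.norm_of_nonneg d0.le, inv_mul_lt_iff₀ d0, mul_comm,
    ← mem_ball_iff_norm] at this

theorem mul_adm (hY : Y ∈ net.loc O) (hZ : Z ∈ net.loc Oᶜ) : Y * Z ∈ net.loc univ :=
  Net.adm (net.mul hY hZ disjoint_compl_right)

theorem cont_tau (hW : Inp W) (hY : Y ∈ net.loc O) (hZ : Z ∈ net.loc Oᶜ) :
    Tendsto (fun v => W (net.τ v Y * Z)) (𝓝 0) (𝓝 (W (Y * Z))) := by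
  obtain ⟨m, c, k, f, f1, f2, rfl⟩ := PN.exists_sum hY
  obtain ⟨m', c', k', g, g1, g2, rfl⟩ := PN.exists_sum hZ
  simp only [map_sum, map_smul, Finset.sum_mul_sum, smul_mul_smul_comm, τ_mon, ← mon_append]
  refine tendsto_finsetSum _ fun a _ => tendsto_finsetSum _ fun b _ => Tendsto.const_smul ?_ _
  have h1 : Tendsto (fun v : R4 => (Fin.append (fun _ => v) (fun _ => 0) : Fin (k a + k' b) → R4))
      (𝓝 0) (𝓝 0) := tendsto_pi_nhds.2 fun i => by
    induction i using Fin.addCases with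
    | left i => simp only [Fin.append_left, Pi.zero_apply]; exact tendsto_id
    | right i => simpa only [Fin.append_right, Pi.zero_apply] using tendsto_const_nhds
  refine Metric.tendsto_nhds.2 fun ε ε0 => (h1.eventually (qe_shift hW.st hW.lin hW.grow
    ((f1 a).append (g1 b) fun i j => disjoint_compl_right.mono (f2 a i) (g2 b j))
    (half_pos ε0))).mono fun v hv => ?_
  rw [dist_eq_norm, ← map_sub]
  refine lt_of_eq_of_lt (congrArg (fun g => ‖W (mon g - _)‖) (funext fun i => funext fun y => ?_))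
    ((hv.bound hW.st).trans_lt (half_lt_self ε0))
  induction i using Fin.addCases with
  | left i => simp only [Fin.append_left]
  | right i => simp only [Fin.append_right, sub_zero]

theorem Dt.sep (a : Dt f Z) : ∃ δ > 0, Z ∈ net.loc (thickening δ (tsupport f))ᶜ := by
  obtain ⟨m, c, k, g, g1, g2, rfl⟩ := PN.exists_sum a.2
  obtain ⟨δ, δ0, e⟩ := (adm_one.1 a.1).1.isCompact.exists_thickening_subset_open
    (isClosed_iUnion_of_finite fun j : Σ i, Fin (k i) => isClosed_tsupport (g j.1 j.2)).isOpen_compl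
    fun y hy hy' => let ⟨j, hj⟩ := mem_iUnion.1 hy'; g2 _ _ hj hy
  exact ⟨δ, δ0, Submodule.sum_mem _ fun i _ => Submodule.smul_mem _ _ (mon_mem (g1 i)
    fun j y hy hy' => e hy' (mem_iUnion.2 ⟨⟨i, j⟩, hy⟩))⟩

theorem Dt.sm (a : Dt f Z) : ∀ᶠ d in 𝓝[>] (0 : ℝ), Sm d f Z := by
  obtain ⟨δ, δ0, e⟩ := a.sep
  filter_upwards [Ioo_mem_nhdsGT (show 0 < δ / 3 by positivity)] with d hd
  exact ⟨hd.1, a.1, net.mono e (compl_subset_compl.2 (thickening_mono (by linarith [hd.2]) _))⟩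

theorem Sm.dt (a : Sm d f Z) : Dt f Z := ⟨a.2.1, net.mono a.2.2 (compl_subset_compl.2
  (self_subset_thickening (by linarith [a.1]) _))⟩

theorem Sm.mono (a : Sm d f Z) {d' : ℝ} (h : d' ∈ Ioc 0 d) : Sm d' f Z :=
  ⟨h.1, a.2.1, net.mono a.2.2 (compl_subset_compl.2 (thickening_mono (by linarith [h.2]) _))⟩

theorem Sm.pr (a : Sm d f Z) (hu : Pb u) (hz : z ∈ tsupport f) :
    pr u d z ∈ net.loc (thickening (3 * d) (tsupport f)) :=
  net.mono (hu.mem a.1 z) ((ball_subset_ball (by linarith [a.1])).trans (ball_subset_thickening hz _))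

theorem Sm.cont (a : Sm d f Z) (hW : Inp W) (hu : Pb u) :
    Continuous fun z => f z * cv W (Ope.pr u d z) Z := by
  refine continuous_iff_continuousAt.2 fun z => ?_
  by_cases hz : z ∈ tsupport f
  · have t : Tendsto (fun y => y - z) (𝓝 z) (𝓝 0) := tendsto_sub_nhds_zero_iff.2 tendsto_id
    have c1 := (cont_tau hW (a.pr hu hz) a.2.2).comp t
    have c2 := (cont_tau hW (a.pr hu hz) (net.one _)).comp t
    simp only [Function.comp_def, pr_tau, add_sub_cancel, mul_one] at c1 c2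
    exact (Complex.continuous_ofReal.comp (adm_one.1 a.2.1).2.continuous).continuousAt.mul
      (c1.sub (c2.mul_const _))
  · refine (continuousAt_const (y := (0 : ℂ))).congr ((notMem_tsupport_iff_eventuallyEq.1 hz).mono fun y hy => ?_)
    simp only [hy, Pi.zero_apply, Complex.ofReal_zero, zero_mul]

theorem cpt_mul (hf : Adm ![f]) (F : R4 → ℂ) : HasCompactSupport fun z => f z * F z :=
  (adm_one.1 hf).1.mono fun z hz e => hz (by simp [e])

theorem Sm.int (a : Sm d f Z) (hW : Inp W) (hu : Pb u) :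
    Integrable fun z => f z * cv W (Ope.pr u d z) Z :=
  (a.cont hW hu).integrable_of_hasCompactSupport (cpt_mul a.2.1 _)

theorem fin_gp (hf : Adm ![f]) (e : ℕ) : {x | f (gp e x) ≠ 0}.Finite := by
  obtain ⟨R, hR⟩ := (adm_one.1 hf).1.isCompact.isBounded.exists_norm_le
  obtain ⟨M, hM⟩ := exists_nat_ge (3 ^ e * R)
  refine (Fintype.piFinset fun _ : Fin 4 => Finset.Icc (-M : ℤ) M).finite_toSet.subset
    fun x hx => Fintype.mem_piFinset.2 fun l => Finset.mem_Icc.2 (abs_le.1 ?_)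
  have := (PiLp.norm_apply_le _ l).trans (hR _ (subset_tsupport _ hx))
  simp only [gp, Real.norm_eq_abs, abs_mul, abs_inv, abs_pow, Nat.abs_ofNat] at this
  rw [inv_mul_le_iff₀ (by positivity)] at this
  exact_mod_cast this.trans hM

theorem Yr_eq (hf : Adm ![f]) (u : R4 → ℝ) (d : ℝ) (e : ℕ) : Yr u d e f = ∑ x ∈ (fin_gp hf e).toFinset,
    ((((3 ^ e)⁻¹ / d) ^ 4 * f (gp e x) : ℝ) : ℂ) • pr u d (gp e x) :=
  finsum_eq_sum_of_support_subset _ fun x hx => by
    simp only [Finite.coe_toFinset, mem_ofPred_eq]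
    exact fun e => hx (by simp [e])

theorem Sm.Yr (a : Sm d f Z) (hu : Pb u) (e : ℕ) :
    Yr u d e f ∈ net.loc (thickening (3 * d) (tsupport f)) := by
  rw [Yr_eq a.2.1]
  exact Submodule.sum_mem _ fun x hx => Submodule.smul_mem _ _
    (a.pr hu (subset_tsupport _ (((fin_gp a.2.1 e).mem_toFinset).1 hx)))

theorem cv_add (W : Pol →ₗ[ℂ] ℂ) (Y Y' Z : Pol) : cv W (Y + Y') Z = cv W Y Z + cv W Y' Z := by
  simp only [cv, add_mul, map_add]
  ring

theorem cv_sub (W : Pol →ₗ[ℂ] ℂ) (Y Y' Z : Pol) : cv W (Y - Y') Z = cv W Y Z - cv W Y' Z := by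
  simp only [cv, sub_mul, map_sub]
  ring

theorem cv_smul (W : Pol →ₗ[ℂ] ℂ) (c : ℂ) (Y Z : Pol) : cv W (c • Y) Z = c * cv W Y Z := by
  simp only [cv, smul_mul_assoc, map_smul, smul_eq_mul]
  ring

theorem cv_sum {I : Type} (W : Pol →ₗ[ℂ] ℂ) (s : Finset I) (Y : I → Pol) (Z : Pol) :
    cv W (∑ i ∈ s, Y i) Z = ∑ i ∈ s, cv W (Y i) Z := by
  simp only [cv, Finset.sum_mul, map_sum, Finset.sum_sub_distrib]

theorem cv_comm (W : Pol →ₗ[ℂ] ℂ) (Y Z : Pol) : cv W Y Z = cv W Z Y := by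
  simp only [cv, mul_comm]

theorem cv_C (w1 : W 1 = 1) (κ : ℂ) (Y Z : Pol) : cv W (Y - C κ) Z = cv W Y Z := by
  rw [cv_sub, show (C κ : Pol) = κ • 1 by simp [smul_eq_C_mul], cv_smul]
  simp [cv, w1]

theorem Sm.riem (a : Sm d f Z) (hW : Inp W) (hu : Pb u) :
    Tendsto (fun e => cv W (Ope.Yr u d e f) Z) atTop (𝓝 (Ai W u d f Z)) := by
  have t : Tendsto (fun e : ℕ => ((3 : ℝ) ^ e)⁻¹) atTop (𝓝[>] 0) :=
    tendsto_inv_atTop_nhdsGT_zero.comp (tendsto_pow_atTop_atTop_of_one_lt (by norm_num))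
  refine (((St.riem (a.cont hW hu) (cpt_mul a.2.1 _)).comp t).const_mul _).congr fun e => ?_
  rw [Yr_eq a.2.1, cv_sum, Function.comp, tsum_eq_sum (s := (fin_gp a.2.1 e).toFinset)
    fun x hx => by
      have : f (gp e x) = 0 := not_not.1 fun e => hx ((Finite.mem_toFinset _).2 e)
      exact mul_eq_zero_of_left (Complex.ofReal_eq_zero.2 this) _]
  simp only [Finset.mul_sum, cv_smul]
  refine Finset.sum_congr rfl fun x _ => ?_
  change _ * (_ * ((f (gp e x) : ℂ) * cv W (Ope.pr u d (gp e x)) Z)) = _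
  push_cast
  ring

theorem Dt.act (a : Dt f Z) (g : Ro.Iso) : Dt (fun y => f (g.symm y)) (Ro.act g Z) :=
  ⟨adm_one.2 ((Ro.adm_act a.1 g).1 0), net.mono (Ro.act_mem g a.2) fun y hy hy' =>
    hy (tsupport_comp g.symm.continuous hy')⟩

theorem cv_act {g : Ro.Iso} (hg : Ro.Inv W g) (hY : Y ∈ net.loc O) (hZ : Z ∈ net.loc Oᶜ) :
    cv W (Ro.act g Y) (Ro.act g Z) = cv W Y Z := by
  rw [cv, cv, ← map_mul, hg _ (mul_adm hY hZ), hg _ (Net.adm hY), hg _ (Net.adm hZ)]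

theorem Sm.cov (a : Sm d f Z) (hu : Pb u) {g : Ro.Iso} (hg : Ro.Inv W g) :
    Ai W (fun y => u (g.symm y)) d (fun y => f (g.symm y)) (Ro.act g Z) = Ai W u d f Z := by
  rw [Ai, Ai, ← g.measurePreserving.integral_comp g.toHomeomorph.measurableEmbedding]
  congr 2
  funext z
  by_cases hz : z ∈ tsupport f
  · rw [← pr_act, cv_act hg (a.pr hu hz) a.2.2, g.symm_apply_apply]
  · simp [image_eq_zero_of_notMem_tsupport hz]

theorem Rd.act (a : Rd h) (g : Ro.Iso) (n : R4) : (fun y => hn h n (g.symm y)) = hn h (g n) :=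
  funext fun y => a.2.2 _ _ (by rw [← g.norm_map, map_sub, g.apply_symm_apply])

theorem Rd.neg (a : Rd h) (n : R4) : hn h (-n) = fun y => hn h n (-y) :=
  funext fun y => a.2.2 _ _ (by rw [← norm_neg]; congr 1; abel)

theorem Sm.rot (a : Sm d f Z) (hh : Rd h) (hn1 : ‖n‖ = 1) {g : Ro.Iso} (hg : Ro.Inv W g) :
    Ai W (hn h (g n)) d (fun y => f (g.symm y)) (Ro.act g Z) = Ai W (hn h n) d f Z := by
  rw [← hh.act, a.cov (hh.pb hn1) hg]

theorem Rd.Ai_neg (a : Rd h) (n : R4) : Ai W (hn h (-n)) d f Z = Ai W (hn h n) d f Z := by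
  simp only [Ai, a.neg, pr_neg]

theorem Rd.Yr_neg (a : Rd h) (n : R4) : Yr (hn h (-n)) d e f = Yr (hn h n) d e f := by
  simp only [Yr, a.neg, pr_neg]

theorem Sm.lin (a : Sm d f Z) (a' : Sm d f' Z) (hW : Inp W) (hu : Pb u) (c : ℝ) :
    Ai W u d (f + c • f') Z = Ai W u d f Z + c * Ai W u d f' Z := by
  rw [Ai, Ai, Ai, mul_left_comm, ← mul_add, ← integral_const_mul (c : ℂ),
    ← integral_add (a.int hW hu) ((a'.int hW hu).const_mul _)]
  congr 2
  funext z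
  simp only [Pi.add_apply, Pi.smul_apply, smul_eq_mul]
  push_cast
  ring

theorem Sm.linZ (a : Sm d f Z) (a' : Sm d f Z') (hW : Inp W) (hu : Pb u) (c : ℂ) :
    Ai W u d f (Z + c • Z') = Ai W u d f Z + c * Ai W u d f Z' := by
  rw [Ai, Ai, Ai, mul_left_comm, ← mul_add, ← integral_const_mul c,
    ← integral_add (a.int hW hu) ((a'.int hW hu).const_mul _)]
  congr 2
  funext z
  rw [cv_comm, cv_add, cv_smul, cv_comm W Z, cv_comm W Z']
  ring

theorem sc_act (g : Ro.Iso) (D : ℝ) (f : R4 → ℝ) :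
    (fun y => sc D f (g.symm y)) = sc D fun y => f (g.symm y) := by
  funext y
  simp only [sc, map_smul]

theorem sm_sc (a : Adm (Fin.cons f g : Fin (k + 1) → _)) : ∃ δ > 0, ∀ d D, 0 < d → 0 < D →
    d / D ≤ δ → Sm d (sc D f) (mon fun i => sc D (g i)) := by
  obtain ⟨δ, δ0, e⟩ := (a.1 0).1.isCompact.exists_thickening_subset_open
    (isClosed_iUnion_of_finite fun j => isClosed_tsupport (g j)).isOpen_compl
    fun y hy hy' => let ⟨j, hj⟩ := mem_iUnion.1 hy'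
      disjoint_left.1 (a.2 (Fin.succ_ne_zero j)) hj hy
  refine ⟨δ / 3, by positivity, fun d D d0 D0 hd => ?_⟩
  have b := a.smul (inv_pos.2 D0).ne'
  refine ⟨d0, adm_one.2 (b.1 0), mon_mem ⟨fun i => b.1 i.succ, fun _ _ e =>
    b.2 ((Fin.succ_injective _).ne e)⟩ fun i y hy hy' => ?_⟩
  obtain ⟨x, hx, e1⟩ := mem_thickening_iff.1 hy'
  refine e (mem_thickening_iff.2 ⟨D⁻¹ • x, tsupport_comp (θ := fun y => D⁻¹ • y) (by fun_prop) hx,
    ?_⟩) (mem_iUnion.2 ⟨i, tsupport_comp (θ := fun y => D⁻¹ • y) (by fun_prop) hy⟩)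
  rw [dist_smul₀, norm_inv, Real.norm_of_nonneg D0.le, inv_mul_lt_iff₀ D0]
  rw [div_le_iff₀ D0] at hd
  linarith

end Pool.Agent.Lib.MP_7f377f_mp.Ope
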