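import Pool.Agent.Lib.MP_7f377f_mp.G.SbA
import Pool.Agent.Lib.MP_7f377f_mp.StFx

/-! Conservation law and Ward identity: definitions and interfaces. -/

noncomputable section

namespace Pool.Agent.Lib.MP_7f377f_mp.Ope
variable [Pool.Agent.Lib.MP_7f377f_mp.GD]
set_option linter.unusedSectionVars false

open MeasureTheory Filter Topology Set Real YM7 Pur MvPolynomial Metric Fx
open scoped ContDiff

/-- tensor fields inserted into correlation functions -/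
abbrev Tn : Type := Fin 4 → Fin 4 → (R4 → ℝ) → Pol → ℂ

/-- data: a smooth function and further sources -/
structure Sd where
  k : ℕ
  f : R4 → ℝ
  g : Fin k → R4 → ℝ
  ad : Adm (Fin.cons f g : Fin (k + 1) → _)
  sm : ContDiff ℝ ∞ f

/-- the three vector fields of dimension five in the direction `0` -/
def Jv (S : Pol →ₗ[ℂ] ℂ) (T : Tn) (f : R4 → ℝ) (Z : Pol) : Fin 3 → ℂ :=
  ![T 0 0 (pd 0 f) Z, ∑ l : Fin 3, T l.succ 0 (pd l.succ f) Z, cv S (X (pd 0 f)) Z]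

/-- a small even source `h` and an even cutoff `ξ` which is one near its support -/
structure Bmp (h ξ : R4 → ℝ) : Prop where
  ts : St.Ts (ball 0 1) h
  int : ∫ y, h y = 1
  ev : ∀ y, h (-y) = h y ∧ ξ (-y) = ξ y
  sm : ContDiff ℝ ∞ ξ
  sup : tsupport ξ ⊆ ball 0 2
  one : ∀ᶠ y in 𝓝ˢ (tsupport h), ξ y = 1

/-- the cutoff at the position `z` and the scale `d` -/
def bx (ξ : R4 → ℝ) (d : ℝ) (z y : R4) : ℝ := ξ (d⁻¹ • (y - z))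

/-- the charges of small sources, summed over a grid with the weight `g` -/
def Cm (S : Pol →ₗ[ℂ] ℂ) (T : Tn) (h ξ : R4 → ℝ) (d : ℝ) (e : ℕ) (g : R4 → ℝ) (Z : Pol)
    (i : Fin 3) : ℂ :=
  ∑ᶠ x : Fin 4 → ℤ, (((3 ^ e)⁻¹ ^ 4 * g (gp e x) : ℝ) : ℂ) *
    (Jv S T (bx ξ d (gp e x)) (X (St.sc h d (gp e x)) * Z) i -
      Jv S T (bx ξ d (gp e x)) (X (St.sc h d (gp e x))) i * S Z)

/-- the equation of motion is a nontrivial relation `a`, and the corresponding charge of small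
sources is asymptotically a combination of the three vector fields -/
def Cc (S : Pol →ₗ[ℂ] ℂ) (T : Tn) (h ξ : R4 → ℝ) : Prop :=
  ∀ s : Finset Sd, ∀ η > 0, ∃ᶠ d in 𝓝[>] (0 : ℝ), ∃ᶠ e in atTop, ∃ B : ℝ, ∀ δ > 0,
    ∃ (a c : Fin 3 → ℂ) (w : Sd → Fin 3 → ℂ), ‖a‖ = 1 ∧ ‖c 1‖ ≤ B ∧ ∀ x ∈ s,
      ‖∑ i, a i * Jv S T x.f (mon x.g) i‖ ≤ δ ∧ ‖w x - Jv S T x.f (mon x.g)‖ ≤ δ ∧
      ‖∑ i, a i * Cm S T h ξ d e x.f (mon x.g) i - ∑ j, c j * w x j‖ ≤ η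

/-- the smeared free three point function -/
def I3 (μ ν : Fin 4) (f : R4 → ℝ) (g : Fin 2 → R4 → ℝ) : ℝ :=
  ∫ y : Fin 3 → R4, (∏ i, ![f, g 0, g 1] i (y i)) * tt μ ν (y 0) (y 1) (y 2)

/-- the free correlation functions of the tensor field -/
structure Fre (F : Fr) (C : ℝ) : Prop where
  ne : C ≠ 0
  one : ∀ μ ν f g, Adm (Fin.cons f g : Fin 2 → _) → F 1 μ ν f g = 0
  two : ∀ μ ν f g, Adm (Fin.cons f g : Fin 3 → _) → F 2 μ ν f g = C * I3 μ ν f g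

/-- the Ward identity -/
def Wd (W : Pol →ₗ[ℂ] ℂ) (T : Tn) (c α : ℂ) : Prop :=
  ∀ (k : ℕ) (g : Fin k → R4 → ℝ) (ξ : R4 → ℝ) (e : Fin k → ℝ) (ν : Fin 4), Adm g →
    (∀ i, ContDiff ℝ ∞ (g i) ∧ ∀ᶠ y in 𝓝ˢ (tsupport (g i)), ξ y = e i) → ContDiff ℝ ∞ ξ →
    HasCompactSupport ξ → ∑ μ, T μ ν (pd μ ξ) (mon g) + c * cv W (X (pd ν ξ)) (mon g) =
      α * ∑ i, e i * W (mon (Function.update g i (pd ν (g i))))

/-- the input of the last step -/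
structure CIn (S : Pol →ₗ[ℂ] ℂ) (h₀ : R4 → ℝ) (D : ℝ → ℝ) (κ : (R4 → ℝ) → ℝ) (F : Fr) (C : ℝ)
    (M : ℝ → ℝ) (T : (Pol →ₗ[ℂ] ℂ) → Tn) : Prop where
  inp : Lg.Inp S
  rot : Lg.Rot S
  cen : ∀ f, Adm ![f] → S (X f) = 0
  ts : TsS S h₀ D κ F
  out : Out S D κ F M T
  fre : Fre F C
  lg : Tendsto (fun d => log (D d) / log d) (𝓝[>] 0) (𝓝 1)
  cc : ∃ h ξ, Bmp h ξ ∧ Cc S (T S) h ξ

/-- the output of the last step -/
def COut (S : Pol →ₗ[ℂ] ℂ) (C : ℝ) (M : ℝ → ℝ) (T : (Pol →ₗ[ℂ] ℂ) → Tn) : Prop :=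
  ∃ (m : ℝ) (c : ℂ), m ≠ 0 ∧ Tendsto (fun d => M d / log d ^ 2) (𝓝[>] 0) (𝓝 m) ∧
    ∀ W, Sub S W → Wd W (T W) c (m * C * π ^ 2 / (8 * GD.d * (48 / (11 * GD.b0)) ^ 2) : ℝ)

end Pool.Agent.Lib.MP_7f377f_mp.Ope
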