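import Pool.Agent.Lib.MP_7f377f_mp.G.S3N
import Pool.Agent.Lib.MP_7f377f_mp.G.PuX
import Pool.Agent.Lib.MP_7f377f_mp.G.ScDef
import Pool.Agent.Lib.MP_7f377f_mp.G.SbA

/-! The stress tensor as a field with a label: definitions. -/

noncomputable section

namespace Pool.Agent.Lib.MP_7f377f_mp.Bw
variable [Pool.Agent.Lib.MP_7f377f_mp.GD]
set_option linter.unusedSectionVars false

open Filter Topology Set YM7 Pur Wm Lm Wv S3 Sw Matrix MvPolynomial Real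
open Ro (Iso rot prm)
open Ope (Rd hn pr Ai Dt Tn ee)
open scoped ContDiff

/-- the theory of the scalar field with its stress tensor `L` -/
structure Sm (W : Pol →ₗ[ℂ] ℂ) (h : R4 → ℝ) (M c : ℝ → ℝ) (L : Tn) : Prop where
  rd : Rd h
  sm : ContDiff ℝ ∞ h
  lg : ∃ B, ∀ᶠ d in 𝓝[>] (0 : ℝ), |M d| ≤ B * log d ^ 2
  sym : ∀ μ ν f Z, L μ ν f Z = L ν μ f Z
  ope : ∀ n : R4, ‖n‖ = 1 → ∀ f Z, Dt f Z →
    Tendsto (fun d => M d * Ai W (hn h n) d f Z - c d * cv W (X f) Z) (𝓝[>] 0)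
      (𝓝 (∑ μ, ∑ ν, (n μ * n ν : ℝ) * L μ ν f Z))
  inv : ∀ g, Lg.PI.dt g = 1 → Ro.Inv W g
  pr0 : ∀ s > (0 : ℝ), ∃ p : ℝ, ∀ n : R4, ‖n‖ = 1 → W (pr (hn h n) s 0) = p
  cov : ∀ g : Iso, Lg.PI.dt g = 1 → ∀ f Z, Dt f Z → ∀ μ ν, L μ ν f Z =
    ∑ i, ∑ j, (g (ee μ) i * g (ee ν) j : ℝ) * L i j (fun y => f (g.symm y)) (Ro.act g Z)
  wd : Ope.Wd W L 0 1
  clu : ∀ Y ∈ net.loc univ, ∀ Z ∈ net.loc univ,
    Tendsto (fun t => W (Y * net.τ (ax 0 t) Z)) atTop (𝓝 (W Y * W Z))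
  nt : ∃ f g, Ds univ f ∧ Ds (tsupport f)ᶜ g ∧ W (X (pd 0 f) * X g) ≠ 0

variable {V P : Type} [NormedAddCommGroup V] [NormedSpace ℝ V] [CommRing P] [Algebra ℂ P]
  (Φ : Fil V) (N : Net P) (x : V → (R4 → ℝ) → P) (U W : P →ₗ[ℂ] ℂ) (ρ : Iso →* V →ₗ[ℝ] V)
  (A : ℝ → V ≃ₗ[ℝ] V) (S : Cor V) (ι : Pol →ₐ[ℂ] P) (φ o : V) (T : Fin 4 → Fin 4 → V)

/-- the pair `pr u s z` merges into the field with the label `m s` -/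
def Mp (u : R4 → ℝ) (m : ℝ → V) : Prop :=
  ∀ f, Ds univ f → ∀ Z ∈ N.loc (tsupport f)ᶜ, Tendsto (fun s : ℝ => (log s ^ 2 : ℝ) *
    ((∫ z, f z * W (ι (pr u s z) * Z)) / s ^ 4 - W (x (m s) f * Z))) (𝓝[>] 0) (𝓝 0)

/-- the same in the reflection positive norm, with finite sums of pairs -/
def Mu (u : R4 → ℝ) (m : ℝ → V) : Prop :=
  ∀ f, Ds (Hs 0 0) f → ∀ Z ∈ N.loc (Hs 0 0 \ tsupport f), ∀ ε > 0, ∀ᶠ s in 𝓝[>] (0 : ℝ),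
    ∃ Y ∈ Submodule.span ℂ (pr u s '' tsupport f),
      log s ^ 4 * N.nq W 0 ((x (m s) f - ι Y) * Z) ≤ ε

/-- the merged labels -/
structure Mg (u : R4 → ℝ) (m : ℝ → V) : Prop where
  mem : ∀ s, m s ∈ Φ.F 4
  pU : Mp N x U ι u m
  pW : Mp N x W ι u m
  ap : Mu N x W ι u m

/-- invariance of the correlation functions -/
def Iv (g : Iso) : Prop := ∀ k (c : Fin k → V) f, Adm f →
  W (∏ i, x (c i) fun y => f i (g y)) = W (∏ i, x (ρ g (c i)) (f i))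

/-- the symmetric state `U`, the state `W` below it, the scalar field `φ` and the unit `o` -/
structure Bg : Prop where
  rU : Rg Φ N x U ρ A S
  rW : Rg Φ N x W ρ A S
  real : ∀ k (c : Fin k → V) f, Adm f → (U (∏ i, x (c i) (f i))).im = 0
  dom : N.Dom U W
  emb : Net.Emb net N ι
  phi : ∀ f, ι (X f) = x φ f
  mφ : φ ∈ Φ.F 4
  mo : o ∈ Φ.F 4
  ρφ : (∀ μ, ρ (rfL μ) φ = φ) ∧ ∀ σ, ρ (prm σ) φ = φ
  ρo : ∀ g, ρ g o = o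
  unit : ∀ f, C1 univ f → ∀ Z ∈ N.loc (tsupport f)ᶜ, U (x o f * Z) = (∫ y, f y : ℝ) * U Z
  iv : ∀ σ, Iv x U ρ (prm σ)
  comm : ∀ t σ c, A t (ρ (prm σ) c) = ρ (prm σ) (A t c)
  mg : ∀ h n, Rd h → ContDiff ℝ ∞ h → ‖n‖ = 1 → ∃ m, Mg Φ N x U W ι (hn h n) m

/-- the parities of the component `0, 1` of a tensor -/
def Sec (c : V) : Prop := c ∈ Φ.F 4 ∧ ρ (rfL 0) c = -c ∧ ρ (rfL 1) c = -c ∧ ρ (rfL 2) c = c ∧
  ρ (rfL 3) c = c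

/-- the free theory -/
structure Fb : Prop where
  up : ∀ R, Φ.Up 0 (ρ R)
  mem : ∀ μ ν, T μ ν ∈ Φ.F 4
  cov : ∀ σ μ ν, ρ (prm σ) (T μ ν) = T (σ μ) (σ ν)
  one : ∀ μ ν f, Ds univ f → S 1 ![T μ ν] ![f] = 0
  con : ∀ ν c f f', Ds univ f → Ds (tsupport f)ᶜ f' → ∑ μ, S 2 ![T μ ν, c] ![pd μ f, f'] = 0
  wd : ∀ ν c c' f f' ξ, Ds univ f → Ds (tsupport ξ)ᶜ f' → One ξ f →
    ∑ μ, S 3 ![T μ ν, c, c'] ![pd μ ξ, f, f'] = S 2 ![c, c'] ![pd ν f, f']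
  fc : ∀ ν, ∀ c ∈ Φ.F 4, (∀ f, Ds univ f → S 1 ![c] ![f] = 0) → (∀ c' f f', Ds univ f →
    Ds (tsupport f)ᶜ f' → S 2 ![c, c'] ![pd ν f, f'] = 0) → c = 0
  cl1 : ∀ c, Sec Φ ρ c → ρ (prm (Equiv.swap 2 3)) c = c → ∃ a : ℝ, c = a • T 0 1
  cl2 : ∀ c, Sec Φ ρ c → ρ (prm (Equiv.swap 0 1)) c = -c → c = 0

/-- polynomials in the scalar field with smooth test functions -/
def ns : Net Pol := gen net.τ net.Θ (fun f q => ContDiff ℝ ∞ f ∧ X f = q) net.τ_zero net.τ_τ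
  net.Θ_smul net.Θ_Θ net.Θ_comm net.Θ_τ
  (by rintro v f _ - ⟨h, rfl⟩; exact ⟨h.comp (sub_sm v), by simp [net]⟩)
  (by
    rintro μ f _ - ⟨h, rfl⟩
    exact ⟨h.comp (rfL_eq μ ▸ (rfL μ).contDiff), by simp [net, thP]⟩)

/-- signed permutations -/
def Sp (g : Iso) (σ : Equiv.Perm (Fin 4)) (ε : Fin 4 → ℝ) : Prop :=
  (∀ μ, ε μ * ε μ = 1) ∧ ∀ y μ, g y (σ μ) = ε μ * y μ

/-- the symmetries of the state `U` -/
structure Sy (g : Iso) (σ : Equiv.Perm (Fin 4)) (ε : Fin 4 → ℝ) : Prop where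
  sp : Sp g σ ε
  iv : Iv x U ρ g
  phi : ρ g φ = φ

variable {N W} {H : Type} [NormedAddCommGroup H] [InnerProductSpace ℂ H] (r : N.Rep W 0 H)

/-- the vectors generated by the scalar field -/
def Kk : Submodule ℂ H := ((ns.loc (Hs 0 0)).map (r.Ψ ∘ₗ ι.toLinearMap)).topologicalClosure

/-- the field with the label `a` does not lead out of `Kk` -/
def Mem (a : V) : Prop := ∀ f B Z, Ds (Hs 0 0) f → IsCompact B → B ⊆ Hs 0 0 →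
  Disjoint B (tsupport f) → Z ∈ N.loc B → (∀ Y ∈ ns.loc (Hs 0 0 \ B), r.Ψ (ι Y * Z) ∈ Kk ι r) →
    r.Ψ (x a f * Z) ∈ Kk ι r

/-- the labels of the tensor `L` -/
structure Tl (M c : ℝ → ℝ) (L : Tn) (m : R4 → ℝ → V) : Prop where
  mem : ∀ μ ν, T μ ν ∈ Φ.F 4
  sym : ∀ μ ν, T μ ν = T ν μ
  cen : ∀ μ ν f, Ds univ f → W (x (T μ ν) f) = 0
  rep : ∀ μ ν f, Ds univ f → ∀ Z ∈ net.loc (tsupport f)ᶜ, W (x (T μ ν) f * ι Z) = L μ ν f Z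
  kk : ∀ μ ν, Mem x ι r (T μ ν)
  lim : ∀ n : R4, ‖n‖ = 1 → ∃ k : ℝ → ℝ, Tendsto (fun s => M s • m n s - c s • φ - k s • o)
    (𝓝[>] 0) (𝓝 (∑ μ, ∑ ν, (n μ * n ν) • T μ ν))

/-- all data -/
structure Al (h : R4 → ℝ) (M c : ℝ → ℝ) (L : Tn) (m : R4 → ℝ → V) : Prop where
  bg : Bg Φ N x U W ρ A S ι φ o
  sm : Sm (W ∘ₗ ι.toLinearMap) h M c L
  mg : ∀ n, ‖n‖ = 1 → Mg Φ N x U W ι (hn h n) (m n)
  up : ∀ R, Φ.Up 0 (ρ R)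
  tl : Tl Φ x ι φ o T r M c L m

end Pool.Agent.Lib.MP_7f377f_mp.Bw
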