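import Pool.Agent.Lib.MP_7f377f_mp.G.ZgB
import Pool.Agent.Lib.MP_7f377f_mp.G.ZfS

/-! The free theory has no constant fields besides the unit. -/

noncomputable section

namespace Pool.Agent.Lib.MP_7f377f_mp.Zf

open MeasureTheory MvPolynomial Filter Topology Set Function Matrix Metric
open YZ (R4 Var)
open scoped ContDiff

variable {d D : ℕ} {ι : Type} [Fintype ι]

theorem fp_loc {a : ι → Lb d ℝ} {U : ι → Set R4} (h : ∀ f : ι → R4 → ℝ,
    (∀ i, ContDiff ℝ ∞ (f i) ∧ HasCompactSupport (f i)) → (∀ i, tsupport (f i) ⊆ U i) →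
    (Pairwise fun i j => Disjoint (tsupport (f i)) (tsupport (f j))) → fr a f = 0)
    {y : ι → R4} (hy : Injective y) (hU : ∀ i, U i ∈ 𝓝 (y i)) : fp a y = 0 := by
  by_contra k
  have e1 : ∀ᶠ z in 𝓝 y, 0 < fp a z * fp a y :=
    ((fp_smooth hy a).continuousAt.mul continuousAt_const).eventually
      (lt_mem_nhds (mul_self_pos.2 k))
  have e2 : ∀ᶠ z in 𝓝 y, ContinuousAt (fp a) z :=
    ((fp_smooth hy a).of_le (m := 0) (by simp)).eventually (by simp) |>.mono fun _ e =>
      e.continuousAt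
  obtain ⟨ε, ε0, e3⟩ := Metric.eventually_nhds_iff_ball.1 (e1.and e2)
  have e4 : ∀ᶠ r in 𝓝[>] (0 : ℝ), ∀ i j, i ≠ j → r + r < dist (y i) (y j) := by
    simp only [eventually_all]
    exact fun i j e => nhdsWithin_le_nhds (((continuous_id.add continuous_id).tendsto' 0 0
      (by simp)).eventually (gt_mem_nhds (dist_pos.2 (hy.ne e))))
  obtain ⟨r, ⟨e4, e5⟩, r0, r1⟩ := ((e4.and (eventually_all.2 fun i => nhdsWithin_le_nhds
    (eventually_closedBall_subset (hU i)))).and (Ioo_mem_nhdsGT ε0)).exists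
  let b : ∀ i, ContDiffBump (y i) := fun i => ⟨r / 2, r, by positivity, by linarith⟩
  set F : (ι → R4) → ℝ := fun z => ∏ i, b i (z i)
  have s : tsupport F ⊆ closedBall y r := closure_minimal (fun z hz =>
    (mem_closedBall.2 ((dist_pi_le_iff r0.le).2 fun i => le_of_lt (mem_ball.1 (by
      rw [show ball (y i) r = support (b i) from (b i).support_eq.symm]
      exact Finset.prod_ne_zero_iff.1 hz i (Finset.mem_univ _)))))) isClosed_closedBall
  have s' : tsupport (fun z => F z * (fp a z * fp a y)) ⊆ closedBall y r :=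
    (tsupport_mul_subset_left ..).trans s
  have := Continuous.integral_pos_of_hasCompactSupport_nonneg_nonzero (μ := volume) (x := y)
    (f := fun z => F z * (fp a z * fp a y))
    (ContinuousOn.continuous_of_tsupport_subset (fun z hz => (ContinuousAt.mul
      (continuous_finsetProd _ fun i _ => (b i).continuous.comp (continuous_apply i)).continuousAt
        ((e3 z hz).2.mul continuousAt_const)).continuousWithinAt) isOpen_ball
          (s'.trans (closedBall_subset_ball r1)))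
    ((isCompact_closedBall y r).of_isClosed_subset (isClosed_tsupport _) s') (fun z => by
      by_cases e : z ∈ tsupport F
      · exact mul_nonneg (Finset.prod_nonneg fun i _ => (b i).nonneg)
          (e3 z (closedBall_subset_ball r1 (s e))).1.le
      · simp [image_eq_zero_of_notMem_tsupport e])
    (mul_ne_zero (Finset.prod_ne_zero_iff.2 fun i _ => by
      rw [(b i).one_of_mem_closedBall (mem_closedBall_self (b i).rIn_pos.le)]; simp)
        (mul_self_ne_zero.2 k))
  simp only [← mul_assoc, integral_mul_const] at this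
  have z := h (fun i => b i) (fun i => ⟨(b i).contDiff, (b i).hasCompactSupport⟩)
    (fun i => (b i).tsupport_eq ▸ e5 i) fun i j e => by
    simp only [ContDiffBump.tsupport_eq]
    exact closedBall_disjoint_closedBall (e4 i j e)
  exact this.ne' (mul_eq_zero_of_left z _)

theorem fp_of_fr {a : ι → Lb d ℝ} (h : ∀ f : ι → R4 → ℝ,
    (∀ i, ContDiff ℝ ∞ (f i) ∧ HasCompactSupport (f i)) →
    (Pairwise fun i j => Disjoint (tsupport (f i)) (tsupport (f j))) → fr a f = 0)
    {y : ι → R4} (hy : Injective y) : fp a y = 0 :=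
  fp_loc (U := fun _ => univ) (fun f a _ => h f a) hy fun _ => univ_mem

theorem low_null {c : Lb d ℝ} {v : R4} (hv : v ≠ 0) {𝒜 : Set (Matrix (Fin d) (Fin d) ℝ)}
    (hc : c ∈ Iv ℝ 𝒜) (h : ∀ b ∈ Iv ℝ 𝒜, fp ![b, c] ![v, 0] = 0) : c ∈ Nl d ℝ := by
  classical
  by_contra k
  obtain ⟨τ, h1, h2⟩ := s_low (K := ℝ) (d := d) (c.vars.sup fun p => p.1.1) v hv
  have := h2 c (fun p hp => Finset.le_sup (f := fun p : Var d => p.1.1) hp) k
  rw [show starRingEnd ℝ = RingHom.id ℝ from rfl, MvPolynomial.map_id,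
    h _ (mem_Iv.2 fun A a => by rw [← h1, mem_Iv.1 hc A a])] at this
  simp at this

theorem inj2 {x y : R4} (h : x ≠ y) : Injective ![x, y] := fun i j e => by
  fin_cases i <;> fin_cases j <;> first | rfl | exact (h e).elim | exact (h e.symm).elim

theorem hom_null {c : Lb d ℝ} {ν : Fin 4} (hc : Hm c (D + 1)) (h : Dv ν c ∈ Nl d ℝ) :
    c ∈ Nl d ℝ := by
  set v : R4 := EuclideanSpace.single (ν + 1) 1
  have n : ∀ s : ℝ, v ≠ EuclideanSpace.single ν s := fun s e => by
    have := congrArg (· (ν + 1)) e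
    simp [v] at this
  have z : (EuclideanSpace.single ν 0 : R4) = 0 := by ext; simp
  refine low_null (𝒜 := ∅) (v := v) (z ▸ n 0) (mem_Iv.2 (by simp)) fun b _ => ?_
  suffices ∀ E b, Hm b E → fp ![b, c] ![v, 0] = 0 by
    have u : ∀ b, ![b, c] = update ![b, c] 0 b := by simp
    have w : ∀ b b' : Lb d ℝ, update ![b, c] 0 b' = ![b', c] := fun b b' => by
      ext1 i; fin_cases i <;> rfl
    rw [u, ← fm_apply, ← sum_hc (mem_Fd.2 (le_refl (b.weightedTotalDegree wt))),
      MultilinearMap.map_update_sum]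
    exact Finset.sum_eq_zero fun E _ => by rw [w, fm_apply, this E _ (hc_hm _ _)]
  intro E b hb
  have g : ∀ s : ℝ, fp ![b, c] ![v, EuclideanSpace.single ν s] = fp ![b, c] ![v, 0] := fun s => by
    have := is_const_of_deriv_eq_zero (𝕜 := ℝ)
      (f := fun s : ℝ => fp ![b, c] ![v, EuclideanSpace.single ν s]) ?_ ?_ s 0
    · exact z ▸ this
    all_goals
      have k (s : ℝ) : HasDerivAt (fun s : ℝ => fp ![b, c] ![v, EuclideanSpace.single ν s]) 0 s := by
        have := (s_der (K := ℝ) (d := d) _ ![b, c] _ (inj2 (n s))).2 1 ν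
        rw [Nl_fp _ _ 1 (by simpa using h)] at this
        refine (HasDerivAt.comp_sub_const s s (by rwa [sub_self])).congr_of_eventuallyEq
          (.of_forall fun t => congrArg _ (funext fun i => ?_))
        fin_cases i
        · rfl
        · ext μ; by_cases e : μ = ν <;> simp [e]
    · exact fun s => (k s).differentiableAt
    · exact fun s => (k s).deriv
  have k : ∀ t : ℝ, t ≠ 0 → t ^ E * (t ^ (D + 1) *
      fp ![b, c] ![t • v, EuclideanSpace.single ν 1]) = fp ![b, c] ![v, 0] := fun t t0 => by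
    rw [← g t⁻¹, ← (s_cov (K := ℝ) (d := d) _ ![b, c] ![v, EuclideanSpace.single ν t⁻¹]).2.1 (t • 1)
      (t * t) (mul_ne_zero t0 t0) (by simp [smul_smul])]
    have := (fm ![t • v, EuclideanSpace.single ν 1]).map_smul_univ ![t ^ E, t ^ (D + 1)] ![b, c]
    simp only [fm_apply, Fin.prod_univ_two, cons_val_zero, cons_val_one, smul_eq_mul] at this
    rw [← mul_assoc, ← this]
    congr 1 <;> ext1 i <;> fin_cases i
    · exact (rh_smul hb t).symm
    · exact (rh_smul hc t).symm
    · ext μ; simp [ac, smul_mulVec]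
    · ext μ; by_cases e : μ = ν <;> simp [ac, e, t0]
  have l : ContinuousAt (fun t : ℝ => t ^ E * (t ^ (D + 1) *
      fp ![b, c] ![t • v, EuclideanSpace.single ν 1])) 0 :=
    (continuousAt_pow _ _).mul ((continuousAt_pow _ _).mul (ContinuousAt.comp'
      (fp_smooth (inj2 (by simp [eq_comm])) _).continuousAt (by fun_prop)))
  simpa using tendsto_nhds_unique (l := 𝓝[≠] 0) (tendsto_const_nhds.congr'
    (eventually_mem_nhdsWithin.mono fun t e => (k t e).symm))
      (l.tendsto.mono_left nhdsWithin_le_nhds)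

theorem null_of_Dv [GD] {c : Lb d ℝ} {ν : Fin 4} (h0 : constantCoeff c = 0)
    (h : Dv ν c ∈ Nl d ℝ) : c ∈ Nl d ℝ := by
  rw [← sum_hc (mem_Fd.2 (le_refl (c.weightedTotalDegree wt)))]
  refine Submodule.sum_mem _ fun n _ => ?_
  cases n with
  | zero =>
    rw [hc, weightedHomogeneousComponent_zero _ (by simp [wt]), ← constantCoeff_eq, h0, C_0]
    exact zero_mem _
  | succ n =>
    refine hom_null (ν := ν) (hc_hm _ _) ?_
    exact (hc_shift (L := (Dv ν).toLinearMap) (Zg.hm_Dv ν) _ c).symm ▸ Nl_wt _ h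

end Pool.Agent.Lib.MP_7f377f_mp.Zf

namespace Pool.Agent.Lib.MP_7f377f_mp.Zg
variable [Pool.Agent.Lib.MP_7f377f_mp.GD]

open MvPolynomial Set YM7 Matrix Sw Zf Function
open S3 (Ds)

variable {d : ℕ} {𝒜 : Set (Matrix (Fin d) (Fin d) ℝ)} [o : Og 𝒜]

theorem fc (ν : Fin 4) (c : V0 𝒜) (h1 : ∀ f, Ds univ f → S0 𝒜 1 ![c] ![f] = 0)
    (h2 : ∀ c' f f', Ds univ f → Ds (tsupport f)ᶜ f' → S0 𝒜 2 ![c, c'] ![S3.pd ν f, f'] = 0) :
    c = 0 := by
  refine v0_null (null_of_Dv (ν := ν) ?_ (low_null (v := EuclideanSpace.single 0 1) (𝒜 := 𝒜)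
    (by simp) (mem_Iv.2 fun A a => by rw [ad_Dv, mem_Iv.1 c.2.1 A a]) fun b hb => ?_))
  · rw [← (s_alg (K := ℝ) (d := d) Unit fun _ => 0).2.2.2.2 c.1 0,
      ← (s_alg (K := ℝ) (d := d) _ _).2.1 (Fin 1) (Equiv.ofUnique _ _)]
    refine fp_of_fr (fun f hf _ => ?_) fun _ _ _ => Subsingleton.elim _ _
    convert Complex.ofReal_eq_zero.1 (h1 (f 0) ⟨(hf 0).1, (hf 0).2, subset_univ _⟩) using 2 <;>
      ext1 i <;> fin_cases i <;> rfl
  · rw [← (s_alg (K := ℝ) (d := d) _ _).2.1 _ (Equiv.swap 0 1)]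
    refine fp_of_fr (fun f hf hp => ?_) ((inj2 (by simp)).comp (Equiv.injective _))
    have a : Ds univ (f 0) := ⟨(hf 0).1, (hf 0).2, subset_univ _⟩
    have a' : Ds (tsupport (f 0))ᶜ (f 1) :=
      ⟨(hf 1).1, (hf 1).2, (hp (by decide)).subset_compl_right⟩
    have e := fr_der (f := f) ⟨fun i => ⟨(hf i).2, (hf i).1.continuous⟩, hp⟩ ![c.1, pj b] 0
      ((hf 0).1.of_le (by simp)) ν
    rw [show fr ![c.1, pj b] _ = 0 by
      convert Complex.ofReal_eq_zero.1 (h2 (p0 𝒜 ⟨b, hb⟩) _ _ a a') using 2 <;>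
        ext1 i <;> fin_cases i <;> rfl, neg_zero, show update ![c.1, pj b] 0 _ =
          ![Dv ν c.1, pj b] by ext1 i; fin_cases i <;> rfl] at e
    have u : ∀ x, ![Dv ν c.1, x] = update ![Dv ν c.1, b] 1 x := fun x => by
      ext1 i; fin_cases i <;> rfl
    have w : ∀ y, fp ![Dv ν c.1, b] y = fp ![Dv ν c.1, pj b] y := fun y => by
      rw [← sub_eq_zero, u, u (pj b), ← fm_apply, ← fm_apply, ← MultilinearMap.map_update_sub,
        fm_apply]
      exact Nl_fp _ _ 1 (by simpa using sub_pj b)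
    rw [show ![b, Dv ν c.1] ∘ Equiv.swap 0 1 = ![Dv ν c.1, b] by ext1 i; fin_cases i <;> rfl, ← e]
    simp only [fr, w]

end Pool.Agent.Lib.MP_7f377f_mp.Zg
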