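import Pool.Agent.Lib.MP_7f377f_mp.G.ZhK0

/-! Classification of the labels of dimension at most four. -/

noncomputable section

namespace Pool.Agent.Lib.MP_7f377f_mp.Zg
variable [Pool.Agent.Lib.MP_7f377f_mp.GD]
set_option linter.unusedSectionVars false

open MvPolynomial Set YM7 Pur Wm Wv Matrix Sw Zf S3
open Ro (Iso rot prm)

variable {d : ℕ} {𝒜 : Set (Matrix (Fin d) (Fin d) ℝ)} [o : Og 𝒜]

theorem tt_mem (μ ν : Fin 4) : tt 𝒜 μ ν ∈ (fil 𝒜).F 4 := by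
  rw [mem_F, tt_val, t0]
  refine sub_mem (hm_ff μ ν).mem ?_
  split_ifs
  exacts [hm_lg.mem, zero_mem _]

theorem l0_mem : l0 𝒜 ∈ (fil 𝒜).F 4 := mem_F.2 (l0_val (𝒜 := 𝒜) ▸ hm_lg.mem)

theorem u0_mem (D : ℕ) : u0 𝒜 ∈ (fil 𝒜).F D :=
  Fd_mono D.zero_le (Hm.mem (isWeightedHomogeneous_one ℝ wt))

theorem cl1 {c : V0 𝒜} (h : c ∈ (fil 𝒜).F 4 ∧ r0 𝒜 (rfL 0) c = -c ∧ r0 𝒜 (rfL 1) c = -c ∧
    r0 𝒜 (rfL 2) c = c ∧ r0 𝒜 (rfL 3) c = c) (e : r0 𝒜 (prm (Equiv.swap 2 3)) c = c) :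
    ∃ a : ℝ, c = a • tt 𝒜 0 1 := by
  obtain ⟨a, b, k⟩ := ev_sec h.1 h.2.1 h.2.2.2.1 h.2.2.2.2
  have := ev_prm (.swap 2 3) (x := ![0, 1, 0, 1, 0, 0]) (y := ![0, 0, 1, 0, 1, 0])
    (by ext i j; fin_cases i <;> fin_cases j <;> simp [am, Equiv.swap_apply_def]) c
  rw [e, k, k] at this
  refine ⟨a, sub_eq_zero.1 (ev_inj (sub_mem h.1 (Submodule.smul_mem _ _ (tt_mem 0 1))) fun x => ?_)⟩
  simp at this
  simp [k, ev_tt, this, mul_add]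

theorem cl2 {c : V0 𝒜} (h : c ∈ (fil 𝒜).F 4 ∧ r0 𝒜 (rfL 0) c = -c ∧ r0 𝒜 (rfL 1) c = -c ∧
    r0 𝒜 (rfL 2) c = c ∧ r0 𝒜 (rfL 3) c = c) (e : r0 𝒜 (prm (Equiv.swap 0 1)) c = -c) : c = 0 := by
  obtain ⟨a, b, k⟩ := ev_sec h.1 h.2.1 h.2.2.2.1 h.2.2.2.2
  refine ev_inj h.1 fun x => ?_
  have := ev_prm (.swap 0 1) (x := x) (y := ![-x 0, x 3, x 4, x 1, x 2, x 5])
    (by ext i j; fin_cases i <;> fin_cases j <;> simp [am, Equiv.swap_apply_def]) c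
  rw [e, map_neg, k, k] at this
  simp at this
  rw [k]
  linarith

theorem cl_b4 {c : V0 𝒜} (h : c ∈ (fil 𝒜).F 4) (h1 : ∀ l, r0 𝒜 (rfL l) c = c)
    (h2 : ∀ σ, r0 𝒜 (prm σ) c = c) : ∃ a b : ℝ, c = a • u0 𝒜 + b • l0 𝒜 := by
  obtain ⟨a, n, k⟩ := ev_even h h1
  have e (σ : Equiv.Perm (Fin 4)) (i j : Fin 6)
      (e : (am (Pi.single i 1)).submatrix σ σ = am (Pi.single j 1)) : n j = n i := by
    have := ev_prm σ e c
    rw [h2, k, k] at this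
    simpa [Pi.single_apply] using this.symm
  have e1 := e (.swap 1 2) 0 1
    (by ext i j; fin_cases i <;> fin_cases j <;> simp [am, Equiv.swap_apply_def])
  have e2 := e (.swap 1 3) 0 2
    (by ext i j; fin_cases i <;> fin_cases j <;> simp [am, Equiv.swap_apply_def])
  have e3 := e (.swap 0 1) 1 3
    (by ext i j; fin_cases i <;> fin_cases j <;> simp [am, Equiv.swap_apply_def])
  have e4 := e (.swap 0 1) 2 4
    (by ext i j; fin_cases i <;> fin_cases j <;> simp [am, Equiv.swap_apply_def])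
  have e5 := e (.swap 1 2) 4 5
    (by ext i j; fin_cases i <;> fin_cases j <;> simp [am, Equiv.swap_apply_def])
  refine ⟨a, 2 * n 0, sub_eq_zero.1 (ev_inj (sub_mem h (add_mem (Submodule.smul_mem _ _ (u0_mem 4))
    (Submodule.smul_mem _ _ l0_mem))) fun x => ?_)⟩
  simp [k, ev_u0, ev_l0, Fin.sum_univ_six, e1, e2, e3, e4, e5]
  ring

theorem cl_scalar {c : V0 𝒜} (h : c ∈ (fil 𝒜).F 4) (h1 : ∀ R, r0 𝒜 R c = c) :
    ∃ a b : ℝ, c = a • u0 𝒜 + b • l0 𝒜 := cl_b4 h (fun _ => h1 _) fun _ => h1 _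

theorem mat_col (R : Iso) (μ ν : Fin 4) :
    ∑ α, mat R α μ * mat R α ν = if μ = ν then 1 else 0 := by
  simpa [mul_apply, one_apply] using congrFun₂ (mat_o R) μ ν

theorem cov_diag (R : Iso) (ψ : V0 𝒜) (μ ν : Fin 4) :
    ∑ α, ∑ β, (mat R α μ * mat R β ν) • (if α = β then ψ else 0) = if μ = ν then ψ else 0 := by
  simp [← Finset.sum_smul, mat_col]

theorem r0_u0 (R : Iso) : r0 𝒜 R (u0 𝒜) = u0 𝒜 := Subtype.ext (map_one (rh _))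

theorem r0_l0 (R : Iso) : r0 𝒜 R (l0 𝒜) = l0 𝒜 := by
  have e (α β) : ∑ μ, mat R α μ * mat R β μ = if α = β then 1 else 0 := by
    have : mat R * (mat R)ᵀ = 1 := mul_eq_one_comm.1 ((mat_o R).trans (one_smul _ _))
    simpa [mul_apply, one_apply] using congrFun₂ this α β
  simp only [l0, map_smul, map_sum, r0_f0]
  rw [Finset.sum_comm, Finset.sum_congr rfl fun _ _ => Finset.sum_comm]
  simp [← Finset.sum_smul, e]

theorem r0_tt (R : Iso) (μ ν : Fin 4) :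
    r0 𝒜 R (tt 𝒜 μ ν) = ∑ α, ∑ β, (mat R α μ * mat R β ν) • tt 𝒜 α β := by
  simp only [tt, smul_sub, Finset.sum_sub_distrib, cov_diag, map_sub, r0_f0]
  split_ifs <;> simp [r0_l0]

theorem cl_tensor {τ : Fin 4 → Fin 4 → V0 𝒜} (h : ∀ μ ν, τ μ ν ∈ (fil 𝒜).F 4)
    (h1 : ∀ R μ ν, r0 𝒜 R (τ μ ν) = ∑ α, ∑ β, (mat R α μ * mat R β ν) • τ α β) :
    ∃ s a b : ℝ, ∀ μ ν, τ μ ν = s • tt 𝒜 μ ν + if μ = ν then a • u0 𝒜 + b • l0 𝒜 else 0 := by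
  have h0 (l) : r0 𝒜 (rfL l) (τ 0 1) = (sr l 0 * sr l 1) • τ 0 1 := by
    simp [h1, mat_rfL, mul_comm]
  obtain ⟨s, hs⟩ := cl1 (c := τ 0 1) ⟨h 0 1, (h0 0).trans (by norm_num [sr]; module),
    (h0 1).trans (by norm_num [sr]; module), by simp [h0, sr], by simp [h0, sr]⟩
      (by simp [h1, mat_prm, Equiv.swap_apply_def])
  obtain ⟨ω, hω⟩ : ∃ ω : Fin 4 → Fin 4 → V0 𝒜, ∀ μ ν, ω μ ν = τ μ ν - s • tt 𝒜 μ ν := ⟨_, fun _ _ => rfl⟩
  have h2 (R μ ν) : r0 𝒜 R (ω μ ν) = ∑ α, ∑ β, (mat R α μ * mat R β ν) • ω α β := by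
    simp only [hω, map_sub, map_smul, h1, r0_tt, smul_sub, Finset.sum_sub_distrib, Finset.smul_sum,
      smul_comm s]
  have h3 (σ μ ν) : r0 𝒜 (prm σ) (ω μ ν) = ω (σ μ) (σ ν) := by simp [h2, mat_prm]
  have h4 (μ ν) (e : μ ≠ ν) : ω μ ν = 0 := by
    obtain ⟨σ, rfl, rfl⟩ : ∃ σ : Equiv.Perm (Fin 4), σ 0 = μ ∧ σ 1 = ν := by
      revert μ ν; decide
    rw [← h3, hω, hs, sub_self, map_zero]
  have h5 : ω 1 1 = ω 0 0 := by
    have := h2 (rot 0 1) 0 1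
    rw [h4 0 1 (by decide), map_zero] at this
    simp [Fin.sum_univ_four, mat, rot, Ro.rv, h4] at this
    have c := mul_ne_zero (Real.cos_one_pos).ne' (Real.sin_pos_of_pos_of_le_two one_pos one_le_two).ne'
    refine smul_right_injective _ c ?_
    linear_combination (norm := module) -this
  have h6 (μ ν) : ω μ ν = if μ = ν then ω 0 0 else 0 := by
    split_ifs with e
    · subst e
      by_cases k : μ = 0
      · rw [k]
      obtain ⟨σ, e, rfl⟩ : ∃ σ : Equiv.Perm (Fin 4), σ 0 = 0 ∧ σ 1 = μ := by revert μ; decide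
      rw [← h3, h5, h3, e]
    · exact h4 _ _ e
  obtain ⟨a, b, k⟩ := cl_scalar (c := ω 0 0)
    (hω 0 0 ▸ sub_mem (h 0 0) (Submodule.smul_mem _ _ (tt_mem 0 0))) fun R => by
      rw [h2, Finset.sum_congr rfl fun α _ => Finset.sum_congr rfl fun β _ => by rw [h6 α β],
        cov_diag, if_pos rfl]
  exact ⟨s, a, b, fun μ ν => by rw [← k, ← h6, hω, add_sub_cancel]⟩

theorem l0_ne : l0 𝒜 ≠ 0 := fun e => by simpa [e] using ev_l0 (𝒜 := 𝒜) 1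

theorem tt_ne : tt 𝒜 0 1 ≠ 0 := fun e => by
  have := ev_tt (𝒜 := 𝒜) 1
  norm_num [e] at this

end Pool.Agent.Lib.MP_7f377f_mp.Zg
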