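import Pool.Agent.Lib.MP_7f377f_mp.G.ZhA0
import Pool.Agent.Lib.MP_7f377f_mp.G.ZgFc
import Pool.Agent.Lib.MP_7f377f_mp.G.ZhK
import Pool.Agent.Lib.MP_7f377f_mp.G.BwD

/-! The free stress tensor on the space of labels. -/

noncomputable section

namespace Pool.Agent.Lib.MP_7f377f_mp.Zg
variable [Pool.Agent.Lib.MP_7f377f_mp.GD]
set_option linter.unusedSectionVars false

open MeasureTheory MvPolynomial Filter Topology Set YM7 Pur Wm Lm Wv Matrix Sw Zf Function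
open S3 (Ds)
open Ro (Iso rot prm)

variable {d : ℕ} {𝒜 : Set (Matrix (Fin d) (Fin d) ℝ)} [o : Og 𝒜]

theorem prm_f0 (σ : Equiv.Perm (Fin 4)) (μ ν) : r0 𝒜 (prm σ) (f0 𝒜 μ ν) = f0 𝒜 (σ μ) (σ ν) := by
  simp [r0_f0, mat, Ro.prm_apply, Equiv.symm_apply_eq]

theorem prm_tt (σ : Equiv.Perm (Fin 4)) (μ ν) : r0 𝒜 (prm σ) (tt 𝒜 μ ν) = tt 𝒜 (σ μ) (σ ν) := by
  simp only [tt, map_sub, apply_ite (r0 𝒜 _), map_zero, l0, map_smul, map_sum, prm_f0,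
    σ.apply_eq_iff_eq, Equiv.sum_comp σ fun μ => f0 𝒜 μ μ]

theorem S0_der (ν) (c : V0 𝒜) {k} (b : Fin k → V0 𝒜) {f : R4 → ℝ} {g : Fin k → R4 → ℝ}
    (h : Ad (vecCons f g)) (hf : ContDiff ℝ 1 f) : S0 𝒜 (k + 1) (vecCons (d0 𝒜 ν c) b) (vecCons f g) =
      S0 𝒜 (k + 1) (vecCons c b) (vecCons (S3.pd ν f) g) := by
  have := fr_der h (vecCons c.1 fun i => (b i).1) 0 hf ν
  simp only [vecCons, Fin.update_cons_zero, Fin.cons_zero] at this
  rw [S0_d0, S0_cons]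
  exact congrArg _ (neg_eq_iff_eq_neg.2 this)

theorem fb1 : Bw.Fb (fil 𝒜) (r0 𝒜) (S0 𝒜) (T0 𝒜) where
  up := r0_up
  mem μ ν := Submodule.smul_mem _ _ (tt_mem μ ν)
  cov σ μ ν := by simp only [T0, map_smul, prm_tt]
  one μ ν f _ := by
    have : constantCoeff (T0 𝒜 μ ν).1 = 0 := by
      simp [T0, tt_val, t0, apply_ite, lg, ff]
    simp [S0, fr, fp_one, this]
  con ν c f f' h h' := by
    have := wardk (w := 0) (by simp) (ax ν 1) ![c] (f := ![f']) ⟨fun i => by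
      simpa using ⟨h'.2.1, h'.1.continuous⟩, Subsingleton.pairwise⟩ h 0 fun i => by
        simpa using far0 h'
    simpa [S0_ax fun α => ![T0 𝒜 _ α, c]] using this
  wd ν c c' f f' ξ h h' e := (fr1.tr ν c c' f f' ξ h h' e).trans
    (S0_der ν c _ (ad2 h h' (One.sub e)) (h.1.of_le (by simp)))
  fc ν c _ := fc ν c
  cl1 c a b := (cl1 a b).elim fun t e => ⟨-(t * Zf.kap), by
    rw [e, T0, smul_smul, neg_mul_neg, mul_inv_cancel_right₀ kap_ne]⟩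
  cl2 _ := cl2

end Pool.Agent.Lib.MP_7f377f_mp.Zg
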