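import Pool.Agent.Lib.MP_7f377f_mp.G.GLocM

/-! The Schur property in group form: a bilinear form on the Lie algebra which is invariant under the
adjoint action of the group is a multiple of the trace form. -/

noncomputable section

namespace Pool.Agent.Lib.MP_7f377f_mp.GE

open NormedSpace Set Matrix

attribute [local instance 100] LieRing.ofAssociativeRing

set_option backward.isDefEq.respectTransparency false in
theorem deriv_ad {N : ℕ} (P X Z : MR N) :
    HasDerivAt (fun s : ℝ => trace (P * (exp (s • Z) * X * (exp (s • Z))ᵀ)))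
      (trace (P * (Z * X + X * Zᵀ))) 0 := by
  open scoped Matrix.Norms.Frobenius in
  have h1 := ((hasDerivAt_exp_smul_const (𝕂 := ℝ) Z 0).mul_const X).mul
    (hasDerivAt_exp_smul_const (𝕂 := ℝ) Zᵀ 0)
  open scoped Matrix.Norms.Frobenius in
  have h2 := (LinearMap.toContinuousLinearMap (traceLinearMap (Fin N) ℝ ℝ ∘ₗ
    LinearMap.mulLeft ℝ P)).hasFDerivAt.comp_hasDerivAt (0 : ℝ) h1
  simp only [zero_smul, exp_zero, one_mul, mul_one] at h2
  refine h2.congr_of_eventuallyEq (.of_forall fun s => ?_)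
  simp [← exp_transpose]

variable {G : Type*} {N d : ℕ} (ρ : G → MR N) (g : LieSubalgebra ℝ (MR N)) (ha : ∀ X ∈ g, Xᵀ = -X)
  (u : Fin d → MR N) (hu : ∀ k j, trace ((u k)ᵀ * u j) = if k = j then 1 else 0)
  (hs : Submodule.span ℝ (range u) = g.toSubmodule) (hexp : ∀ X ∈ g, exp X ∈ range ρ)
  (hsch : ∀ T : g →ₗ[ℝ] g, (∀ X Y : g, T ⁅X, Y⁆ = ⁅X, T Y⁆) → ∃ c : ℝ, ∀ Y, T Y = c • Y)

include ha hu hs hexp hsch in
theorem grp_schur (M : Matrix (Fin d) (Fin d) ℝ)
    (h : ∀ a i j, ∑ k, ∑ l, trace ((u k)ᵀ * (ρ a * u i * (ρ a)ᵀ)) *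
      trace ((u l)ᵀ * (ρ a * u j * (ρ a)ᵀ)) * M k l = M i j) : ∃ c : ℝ, M = c • 1 := by
  let b : Module.Basis (Fin d) ℝ g := bas u hu g.toSubmodule hs
  have hb : ∀ k, (b k : MR N) = u k := bas_coe u hu g.toSubmodule hs
  have hr : ∀ (X : g) k, b.repr X k = trace ((u k)ᵀ * X.1) := fun X k => rfl
  have key : ∀ Z : g, M * LinearMap.toMatrix b b (LieAlgebra.ad ℝ g Z) =
      LinearMap.toMatrix b b (LieAlgebra.ad ℝ g Z) * M := fun Z => by
    have hA : ∀ k i, LinearMap.toMatrix b b (LieAlgebra.ad ℝ g Z) k i =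
        trace ((u k)ᵀ * (Z.1 * u i + u i * Z.1ᵀ)) := fun k i => by
      rw [LinearMap.toMatrix_apply, hr, ha _ Z.2, ← hb i]
      simp [Ring.lie_def, sub_eq_add_neg]
    have hA' : ∀ k i, trace ((u k)ᵀ * (Z.1 * u i + u i * Z.1ᵀ)) =
        -trace ((u i)ᵀ * (Z.1 * u k + u k * Z.1ᵀ)) := fun k i => by
      have h1 := ha _ (b k).2
      have h2 := ha _ (b i).2
      rw [hb] at h1 h2
      simp only [h1, h2, ha _ Z.2, mul_add, neg_mul, mul_neg, neg_neg, trace_add, trace_neg]
      rw [trace_mul_comm (u k), trace_mul_comm (u k), trace_mul_comm (u i), trace_mul_comm (u i),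
        mul_assoc (u i), trace_mul_comm (u i), mul_assoc (u k), trace_mul_comm (u k)]
      ring
    ext i j
    have h1 : HasDerivAt (fun s : ℝ => ∑ k, ∑ l,
        trace ((u k)ᵀ * (exp (s • Z.1) * u i * (exp (s • Z.1))ᵀ)) *
          trace ((u l)ᵀ * (exp (s • Z.1) * u j * (exp (s • Z.1))ᵀ)) * M k l) _ 0 :=
      .fun_sum fun k _ => .fun_sum fun l _ =>
        ((deriv_ad (u k)ᵀ (u i) Z.1).fun_mul (deriv_ad (u l)ᵀ (u j) Z.1)).mul_const (M k l)
    have h2 := h1.unique ((hasDerivAt_const (0 : ℝ) (M i j)).congr_of_eventuallyEq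
      (.of_forall fun s => by
        obtain ⟨a, e⟩ := hexp _ (g.smul_mem s Z.2)
        simpa only [e] using h a i j))
    simp only [zero_smul, exp_zero, one_mul, transpose_one, mul_one, hu, add_mul, ite_mul, mul_ite,
      zero_mul, mul_zero, Finset.sum_add_distrib, Finset.sum_ite_eq', Finset.mem_univ, if_true,
      Finset.sum_ite_irrel, Finset.sum_const_zero] at h2
    simp only [mul_apply, hA]
    rw [Finset.sum_congr rfl fun k _ => congrArg (· * M k j) (hA' i k)]
    simp only [neg_mul, Finset.sum_neg_distrib, mul_comm (M i _)]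
    linarith
  obtain ⟨c, hc⟩ := hsch (toLin b b M) fun X Y => by
    have := congrArg (fun A => toLin b b A Y) (key X)
    simpa [toLin_mul b b b] using this
  refine ⟨c, (toLin b b).injective (LinearMap.ext fun Y => ?_)⟩
  simp [hc]

include ha hexp hsch in
/-- the same for a basis which is orthonormal for a multiple of the trace form -/
theorem grp_schur' (t : ℝ) (e : Fin d → MR N)
    (he : ∀ k j, t ^ 2 * trace ((e k)ᵀ * e j) = if k = j then 1 else 0)
    (hs : Submodule.span ℝ (range e) = g.toSubmodule) (M : Matrix (Fin d) (Fin d) ℝ)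
    (h : ∀ a i j, ∑ k, ∑ l, t ^ 2 * trace ((e k)ᵀ * (ρ a * e i * (ρ a)ᵀ)) *
      (t ^ 2 * trace ((e l)ᵀ * (ρ a * e j * (ρ a)ᵀ))) * M k l = M i j) : ∃ c : ℝ, M = c • 1 := by
  rcases eq_or_ne t 0 with rfl | ht
  · exact ⟨0, by ext i j; simpa using he i i⟩
  refine grp_schur ρ g ha (fun k => t • e k) (fun k j => by simpa [← mul_assoc, sq] using he k j)
    (hs ▸ le_antisymm (Submodule.span_le.2 ?_) (Submodule.span_le.2 ?_)) hexp hsch M fun a i j => by
      simpa [← mul_assoc, sq] using h a i j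
  · rintro _ ⟨k, rfl⟩
    exact Submodule.smul_mem _ _ (Submodule.subset_span ⟨k, rfl⟩)
  · rintro _ ⟨k, rfl⟩
    exact (Submodule.smul_mem_iff _ ht).1 (Submodule.subset_span ⟨k, rfl⟩)

section Abs

variable (A : G → Fin d → Fin d → ℝ) (hA : ∀ M : Matrix (Fin d) (Fin d) ℝ,
  (∀ a i j, ∑ k, ∑ l, A a k i * A a l j * M k l = M i j) → ∃ c : ℝ, M = c • 1)

include hA in
/-- invariant complex forms -/
theorem schur_cpx (M : Fin d → Fin d → ℂ)
    (h : ∀ a i j, ∑ k, ∑ l, (A a k i * A a l j) • M k l = M i j) (k0 i j : Fin d) :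
    M i j = if i = j then M k0 k0 else 0 := by
  obtain ⟨c, hc⟩ := hA (fun i j => (M i j).re) fun a i j => by
    simpa using congrArg Complex.re (h a i j)
  obtain ⟨c', hc'⟩ := hA (fun i j => (M i j).im) fun a i j => by
    simpa using congrArg Complex.im (h a i j)
  have h1 : ∀ i j, (M i j).re = c * if i = j then 1 else 0 := fun i j => congrFun₂ hc i j
  have h2 : ∀ i j, (M i j).im = c' * if i = j then 1 else 0 := fun i j => congrFun₂ hc' i j
  split_ifs with e <;> apply Complex.ext <;> simp [h1, h2, e]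

include hA in
/-- no invariant vector -/
theorem schur_vec (hd : 2 ≤ d) (v : Fin d → ℝ) (h : ∀ a i, ∑ k, A a k i * v k = v i) (i : Fin d) :
    v i = 0 := by
  obtain ⟨c, hc⟩ := hA (fun i j => v i * v j) fun a i j => by
    rw [← h a i, ← h a j, Finset.sum_mul_sum]
    exact Finset.sum_congr rfl fun k _ => Finset.sum_congr rfl fun l _ => by ring
  have h1 : ∀ i j, v i * v j = c * if i = j then 1 else 0 := fun i j => congrFun₂ hc i j
  have : Nontrivial (Fin d) := Fin.nontrivial_iff_two_le.2 hd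
  obtain ⟨j, hj⟩ := exists_ne i
  have h2 := h1 j i
  have h3 := h1 i i
  have h4 := h1 j j
  simp only [hj, if_true, if_false, mul_one, mul_zero] at h2 h3 h4
  refine pow_eq_zero_iff (n := 3) (by norm_num) |>.1 ?_
  linear_combination v j * h2 + v i * h3 - v i * h4

open MeasureTheory in
include hA in
/-- zero is an affine combination of group elements -/
theorem schur_aff [Group G] [TopologicalSpace G] [IsTopologicalGroup G] [CompactSpace G] (hd : 2 ≤ d)
    (hm : ∀ a b i j, A (a * b) i j = ∑ k, A a i k * A b k j) (hc : Continuous A) :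
    ∃ (s : Finset G) (c : G → ℝ), ∑ a ∈ s, c a = 1 ∧ ∀ i j, ∑ a ∈ s, c a * A a i j = 0 := by
  borelize G
  let μ : Measure G := Measure.haarMeasure ⊤
  have : IsProbabilityMeasure μ := ⟨by
    have := Measure.haarMeasure_self (G := G) (K₀ := ⊤)
    rwa [TopologicalSpace.PositiveCompacts.coe_top] at this⟩
  have c1 : Continuous fun a : G => (A a⁻¹, (1 : ℝ)) := by fun_prop
  have hi : ∀ {F : Type} [NormedAddCommGroup F] [SecondCountableTopology F] {f : G → F},
      Continuous f → Integrable f μ := fun hf =>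
    hf.integrable_of_hasCompactSupport (HasCompactSupport.of_compactSpace _)
  let W := Submodule.span ℝ (range fun a : G => (A a, (1 : ℝ)))
  have h2 : ∫ a, (A a⁻¹, (1 : ℝ)) ∂μ ∈ W :=
    W.convex.integral_mem W.closed_of_finiteDimensional
      (.of_forall fun a => Submodule.subset_span ⟨a⁻¹, rfl⟩) (hi c1)
  have h3 : ∀ j i, ∫ a, A a⁻¹ j i ∂μ = 0 := fun j => schur_vec A hA hd _ fun b i => by
    simp only [← integral_const_mul]
    rw [← integral_finsetSum _ fun k _ => hi (by fun_prop),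
      ← integral_mul_left_eq_self (fun a => A a⁻¹ j i) b⁻¹]
    simp [hm, mul_comm]
  rw [integral_pair (hi (by fun_prop)) (integrable_const _)] at h2
  obtain ⟨c, hc'⟩ := Finsupp.mem_span_range_iff_exists_finsupp.1 h2
  refine ⟨c.support, c, ?_, fun i j => ?_⟩
  · simpa [Finsupp.sum, Prod.snd_sum] using congrArg Prod.snd hc'
  · have := congrArg (fun p => p.1 i j) hc'
    simp only [Finsupp.sum, Prod.fst_sum, Prod.smul_fst, Finset.sum_apply, Pi.smul_apply,
      smul_eq_mul] at this
    rw [this, eval_integral fun _ => hi (by fun_prop), eval_integral fun _ => hi (by fun_prop), h3]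

end Abs

end Pool.Agent.Lib.MP_7f377f_mp.GE
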