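import Pool.Agent.Lib.MP_7f377f_mp.KitHol

/-! An invariant function has no linear term: affine form. -/

namespace Pool.Agent.Lib.MP_7f377f_mp.Kit.Dom

open Finset

variable {E F : Type} [AddCommGroup E] [Module ℂ E] [NormedAddCommGroup F] [NormedSpace ℂ F]
  {O : Dom E} {k : E → F} {M : ℝ}

theorem LH.deriv_sum (h : O.LH k) (hM : ∀ B ∈ O.D 1, ‖k B‖ ≤ M) {ι : Type} (s : Finset ι) (c : ι → ℂ)
    {A : ι → E} {θ : ℝ} (h0 : 0 ∈ O.D θ) (hA : ∀ i, ∃ θ, A i ∈ O.D θ) :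
    (∃ θ, ∑ i ∈ s, c i • A i ∈ O.D θ) ∧ deriv (fun t : ℂ => k (t • ∑ i ∈ s, c i • A i)) 0 =
      ∑ i ∈ s, c i • deriv (fun t : ℂ => k (t • A i)) 0 := by
  induction s using Finset.cons_induction with
  | empty => exact ⟨⟨θ, by simpa using h0⟩, by simp⟩
  | cons i s hi ih =>
    obtain ⟨⟨a, ha⟩, ih⟩ := ih
    obtain ⟨b, hb⟩ := hA i
    have h1 := O.smul (c i) hb
    rw [sum_cons, sum_cons, h.deriv_add hM (O.mono (le_max_left _ a) h1) (O.mono (le_max_right _ a) ha),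
      ih]
    refine ⟨⟨_, O.add h1 ha⟩, congrArg (· + _) ?_⟩
    have := deriv_comp_mul_left (c i) (fun t : ℂ => k (t • A i)) 0
    simpa only [zero_mul, smul_smul, mul_comm (c i)] using this

/-- an invariant function has no linear term -/
theorem LH.deriv_aff (h : O.LH k) (hM : ∀ B ∈ O.D 1, ‖k B‖ ≤ M) {ι : Type} {s : Finset ι} {c : ι → ℂ}
    (hc : ∑ i ∈ s, c i = 1) {A : ι → E} (hA : ∀ i, ∃ θ, A i ∈ O.D θ) {B : E}
    (e : ∀ i (t : ℂ), k (t • A i) = k (t • B)) (hs : ∑ i ∈ s, c i • A i = 0) :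
    deriv (fun t : ℂ => k (t • B)) 0 = 0 := by
  obtain ⟨i, -⟩ := nonempty_of_sum_ne_zero (hc.trans_ne one_ne_zero)
  obtain ⟨θ, hθ⟩ := hA i
  have := (h.deriv_sum hM s c (zero hθ le_rfl) hA).2
  simp only [hs, e, ← sum_smul, hc, one_smul, smul_zero, deriv_const] at this
  exact this.symm

end Pool.Agent.Lib.MP_7f377f_mp.Kit.Dom
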