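import Mathlib

/-! A subspace invariant under the bracket with an element is invariant under conjugation by its
exponential. -/

noncomputable section

namespace Pool.Agent.Lib.MP_7f377f_mp.GE

open NormedSpace

/-- solutions of a linear differential equation -/
theorem lin_ode {𝕜 V : Type*} [RCLike 𝕜] [NormedAddCommGroup V] [NormedSpace 𝕜 V] [CompleteSpace V]
    (T : V →L[𝕜] V) (v : V) : ∃ z : 𝕜 → V, z 0 = v ∧ ∀ r, HasDerivAt z (T (z r)) r := by
  refine ⟨fun r => exp (r • T) v, by simp, fun r => ?_⟩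
  have d1 := (hasDerivAt_exp_smul_const' (𝕂 := 𝕜) T r).clm_apply (hasDerivAt_const r v)
  simpa using d1

/-- conjugation by an exponential preserves a subspace invariant under the bracket -/
theorem exp_conj_mem {𝕜 A : Type*} [RCLike 𝕜] [NormedRing A] [NormedAlgebra 𝕜 A]
    [FiniteDimensional 𝕜 A] (S : Submodule 𝕜 A) {X : A} (hX : ∀ Y ∈ S, X * Y - Y * X ∈ S) {Y : A}
    (hY : Y ∈ S) : exp X * Y * exp (-X) ∈ S := by
  have : CompleteSpace A := FiniteDimensional.complete 𝕜 A
  let : NormedAlgebra ℚ A := NormedAlgebra.restrictScalars ℚ 𝕜 A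
  let T0 : A →ₗ[𝕜] A := LinearMap.mulLeft 𝕜 X - LinearMap.mulRight 𝕜 X
  let T : S →L[𝕜] S := LinearMap.toContinuousLinearMap (T0.restrict (p := S) (q := S) hX)
  have : CompleteSpace S := FiniteDimensional.complete 𝕜 S
  obtain ⟨z0, hz0, hz1⟩ := lin_ode T ⟨Y, hY⟩
  let z : 𝕜 → A := fun r => (z0 r : A)
  have hz : ∀ r, HasDerivAt z (X * z r - z r * X) r := fun r =>
    S.subtypeL.hasFDerivAt.comp_hasDerivAt r (hz1 r)
  let y : 𝕜 → A := fun r => exp (r • (-X)) * z r * exp (r • X)
  have hd : ∀ r, HasDerivAt y 0 r := by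
    intro r
    have d1 := ((hasDerivAt_exp_smul_const (𝕂 := 𝕜) (-X) r).mul (hz r)).mul
      (hasDerivAt_exp_smul_const' (𝕂 := 𝕜) X r)
    refine d1.congr_deriv ?_
    simp only [Pi.mul_apply]
    noncomm_ring
  have hc : y 1 = y 0 := is_const_of_deriv_eq_zero (fun r => (hd r).differentiableAt)
    (fun r => (hd r).deriv) 1 0
  have h0 : y 0 = Y := by simp [y, z, hz0]
  have i1 : exp X * exp (-X) = 1 := by
    rw [← exp_add_of_commute (Commute.refl _).neg_right]
    simp
  have h4 : exp X * y 1 * exp (-X) = z 1 := by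
    simp only [y, one_smul, ← mul_assoc, i1, one_mul]
    rw [mul_assoc, i1, mul_one]
  rw [← h0, ← hc, h4]
  exact (z0 1).2

end Pool.Agent.Lib.MP_7f377f_mp.GE
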