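import Mathlib

/-! Remainder estimates for the exponential in a Banach algebra. -/

noncomputable section

namespace Pool.Agent.Lib.MP_7f377f_mp.GE

open NormedSpace Finset

variable {A : Type*} [NormedRing A] [NormedAlgebra ℝ A] [CompleteSpace A]

theorem exp_tail (x : A) (n : ℕ) :
    ‖exp x - ∑ i ∈ range (n + 1), ((i.factorial : ℝ)⁻¹) • x ^ i‖ ≤
      Real.exp ‖x‖ - ∑ i ∈ range (n + 1), ‖x‖ ^ i / i.factorial := by
  have h1 := (hasSum_nat_add_iff' (n + 1)).2 (exp_series_hasSum_exp' (𝕂 := ℝ) x)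
  have h2 := (hasSum_nat_add_iff' (n + 1)).2 (exp_series_hasSum_exp' (𝕂 := ℝ) ‖x‖)
  rw [← Real.exp_eq_exp_ℝ] at h2
  simp only [smul_eq_mul, ← div_eq_inv_mul] at h2
  refine h1.norm_le_of_bounded h2 fun i => ?_
  rw [norm_smul, norm_inv, Real.norm_natCast, div_eq_inv_mul]
  exact mul_le_mul_of_nonneg_left (norm_pow_le' x (by omega)) (by positivity)

theorem exp_rem1 {x : A} (h : ‖x‖ ≤ 1) : ‖exp x - 1‖ ≤ 2 * ‖x‖ := by
  have h1 := exp_tail x 0
  have h2 := (abs_le.1 (Real.abs_exp_sub_one_le (x := ‖x‖) (by rwa [abs_norm]))).2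
  rw [abs_norm] at h2
  simp only [zero_add, range_one, sum_singleton, Nat.factorial_zero, Nat.cast_one, inv_one, pow_zero,
    one_smul, div_one] at h1
  linarith

theorem exp_rem2 {x : A} (h : ‖x‖ ≤ 1) : ‖exp x - 1 - x‖ ≤ ‖x‖ ^ 2 := by
  have h1 := exp_tail x 1
  have h2 := (abs_le.1 (Real.abs_exp_sub_one_sub_id_le (x := ‖x‖) (by rwa [abs_norm]))).2
  simp only [sum_range_succ, range_zero, sum_empty, Nat.factorial_zero, Nat.factorial_one, Nat.cast_one,
    inv_one, pow_zero, pow_one, one_smul, div_one, zero_add, ← sub_sub] at h1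
  linarith

theorem exp_rem3 {x : A} (h : ‖x‖ ≤ 1) : ‖exp x - 1 - x - (2⁻¹ : ℝ) • (x * x)‖ ≤ ‖x‖ ^ 3 := by
  have h1 := exp_tail x 2
  have h2 := Real.exp_bound' (norm_nonneg x) h (n := 3) (by norm_num)
  simp only [sum_range_succ, range_zero, sum_empty, Nat.factorial_zero, Nat.factorial_one,
    Nat.factorial_two, Nat.cast_one, Nat.cast_ofNat, inv_one, pow_zero, pow_one, one_smul, div_one,
    zero_add, ← sub_sub, sq] at h1 h2
  have h3 : ((3 : ℕ).factorial : ℝ) = 6 := by norm_num [Nat.factorial]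
  rw [h3] at h2
  nlinarith [pow_nonneg (norm_nonneg x) 3]

omit [NormedAlgebra ℝ A] [CompleteSpace A] in
theorem pow_lip {x y : A} {r : ℝ} (hx : ‖x‖ ≤ r) (hy : ‖y‖ ≤ r) (k : ℕ) :
    ‖x ^ (k + 1) - y ^ (k + 1)‖ ≤ (k + 1) * r ^ k * ‖x - y‖ := by
  have r0 := (norm_nonneg x).trans hx
  induction k with
  | zero => simp
  | succ k ih =>
    have e : x ^ (k + 1 + 1) - y ^ (k + 1 + 1) =
        x * (x ^ (k + 1) - y ^ (k + 1)) + (x - y) * y ^ (k + 1) := by
      rw [pow_succ' x (k + 1), pow_succ' y (k + 1)]; noncomm_ring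
    have h1 : ‖y ^ (k + 1)‖ ≤ r ^ (k + 1) :=
      (norm_pow_le' y (by omega)).trans (pow_le_pow_left₀ (norm_nonneg _) hy _)
    rw [e]
    refine (norm_add_le_of_le (norm_mul_le_of_le hx ih) (norm_mul_le_of_le le_rfl h1)).trans_eq ?_
    push_cast
    ring

theorem exp_lip {x y : A} {r : ℝ} (hx : ‖x‖ ≤ r) (hy : ‖y‖ ≤ r) (h1 : r ≤ 1) :
    ‖exp x - exp y - (x - y)‖ ≤ 2 * r * ‖x - y‖ := by
  have r0 := (norm_nonneg x).trans hx
  have a1 := (hasSum_nat_add_iff' 2).2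
    ((exp_series_hasSum_exp' (𝕂 := ℝ) x).sub (exp_series_hasSum_exp' (𝕂 := ℝ) y))
  have a2 := ((hasSum_nat_add_iff' 1).2 (exp_series_hasSum_exp' (𝕂 := ℝ) r)).mul_right ‖x - y‖
  rw [← Real.exp_eq_exp_ℝ] at a2
  simp only [sum_range_succ, range_zero, sum_empty, Nat.factorial_zero, Nat.factorial_one, Nat.cast_one,
    inv_one, pow_zero, pow_one, one_smul, zero_add, sub_self] at a1 a2
  have h2 := (abs_le.1 (Real.abs_exp_sub_one_le (x := r) (by rwa [abs_of_nonneg r0]))).2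
  rw [abs_of_nonneg r0] at h2
  refine (a1.norm_le_of_bounded a2 fun i => ?_).trans
    (mul_le_mul_of_nonneg_right h2 (norm_nonneg _))
  rw [← smul_sub, norm_smul, norm_inv, Real.norm_natCast, smul_eq_mul]
  refine (mul_le_mul_of_nonneg_left (pow_lip hx hy (i + 1)) (by positivity)).trans_eq ?_
  rw [Nat.factorial_succ (i + 1)]
  push_cast
  field_simp

end Pool.Agent.Lib.MP_7f377f_mp.GE
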