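import Pool.Agent.Lib.MP_7f377f_mp.G.GAlg1
import Pool.Agent.Lib.MP_7f377f_mp.G.GConj
import Pool.Agent.Lib.MP_7f377f_mp.G.GExp0

/-! The inverse `ex` of the chart and the holomorphic projection `pjq` onto the group. -/

noncomputable section

set_option linter.unusedSectionVars false
variable [Pool.Agent.Lib.MP_7f377f_mp.GD]

namespace Pool.Agent.Lib.MP_7f377f_mp.RG

open Finset Matrix NormedSpace GE Filter Topology
open scoped Matrix.Norms.Frobenius

namespace Un

variable {K : Type} [RCLike K]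

instance : ProperSpace (Un K) := FiniteDimensional.proper_rclike K (Un K)
instance : MeasurableSpace (Un K) := borel _
instance : BorelSpace (Un K) := ⟨rfl⟩

theorem continuous_re : Continuous (re : Un K → K) :=
  (⟨⟨re, re_add⟩, re_smul⟩ : Un K →ₗ[K] K).continuous_of_finiteDimensional

theorem continuous_m : Continuous (m : Un K → Matrix (Fin GD.n) (Fin GD.n) K) :=
  (⟨⟨m, m_add⟩, m_smul⟩ : Un K →ₗ[K] Matrix (Fin GD.n) (Fin GD.n) K).continuous_of_finiteDimensional

theorem exp_re0 {q : Un K} (h : q.re = 0) : exp q = ⟨1, exp q.m - 1⟩ := by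
  have h1 := map_exp reH continuous_re q
  have h2 := map_exp mat ((continuous_re.smul continuous_const).add continuous_m) q
  rw [show reH q = 0 from h, exp_zero] at h1
  exact ext' h1 (by rw [h2, mat_of_re h, mat_def, one_smul, add_sub_cancel]; rfl)

theorem exp_lip {p q : Un K} {r : ℝ} (hp : p.re = 0) (hq : q.re = 0) (h1 : ‖p‖ ≤ r) (h2 : ‖q‖ ≤ r)
    (h3 : r ≤ 1000) : ‖exp p - exp q - (p - q)‖ ≤ r / 500 * ‖p - q‖ := by
  have t0 := GD.t_ge
  have a : ∀ x : Un K, ‖x‖ ≤ r → ‖x.m‖ ≤ r / 1000 := fun x hx => by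
    nlinarith [norm_m x, norm_nonneg x.m]
  have := mul_le_mul_of_nonneg_left (GE.exp_lip (a p h1) (a q h2) (by linarith)) GD.t_pos.le
  rw [exp_re0 hp, exp_re0 hq, norm_of_re (by simp [hp, hq]), norm_of_re (q := p - q) (by simp [hp, hq])]
  simp only [m_sub, sub_sub_sub_cancel_right]
  exact this.trans_eq (by ring)

theorem exp_rem {p : Un K} (hp : p.re = 0) (h : ‖p‖ ≤ 1000) : ‖exp p - 1 - p‖ ≤ ‖p‖ ^ 2 / 500 := by
  have := exp_lip hp re_zero le_rfl (by simp) h
  rw [exp_zero, sub_zero] at this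
  linarith

theorem exp_conj {h : Un K} (hh : h * star h = 1) (x : Un K) :
    exp (h * x * star h) = h * exp x * star h :=
  exp_units_conj ⟨h, star h, hh, star_mul_of hh⟩ x

end Un

theorem br_io (a b : C3) : ∃ c, io a * io b - io b * io a = io c := by
  have e : ∀ a : C3, io a = ∑ k, a k • cq ⟨0, GD.e k⟩ := fun a =>
    Un.ext (by simp [Un.re_sum]) (by simp [Un.m_sum, io_m, cq_m, eC])
  have : io a * io b - io b * io a ∈ LinearMap.range ioL.toLinearMap := by
    rw [e a, e b, sum_mul_sum, sum_mul_sum, sum_comm (f := fun j k => b j • _ * a k • _),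
      ← sum_sub_distrib]
    refine Submodule.sum_mem _ fun k _ => ?_
    rw [← sum_sub_distrib]
    refine Submodule.sum_mem _ fun j _ => ?_
    obtain ⟨v, hv⟩ := exists_ioR (GD.br_mem k j)
    rw [smul_mul_smul_comm, smul_mul_smul_comm, mul_comm (b j), ← smul_sub, ← cq_mul, ← cq_mul,
      ← cq_sub]
    exact Submodule.smul_mem _ _ ⟨cE v, (cq_ioR v).symm.trans
      (congrArg cq (hv.trans (Un.ext (by simp) (by simp))))⟩
  exact this.imp fun c hc => hc.symm

theorem star_exp_io (b : C3) : star (exp (io b)) = exp (-io b) := by rw [star_exp, star_io]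

theorem uni_exp (b : C3) : Uni (exp (io b)) := by
  refine .of_mem ?_ fun k => ?_
  · rw [star_exp_io, ← NormedSpace.exp_add_of_commute (Commute.refl _).neg_right, add_neg_cancel, exp_zero]
  · rw [star_exp_io]
    refine (exp_conj_mem (LinearMap.range ioL.toLinearMap) ?_ ⟨_, rfl⟩).imp fun c hc => hc.symm
    rintro _ ⟨c, rfl⟩
    exact (br_io b c).imp fun c hc => hc.symm

theorem re_exp_io (b : C3) : (exp (io b)).re = 1 := by rw [Un.exp_re0 rfl]

theorem cq_exp (q : Hr) : cq (exp q) = exp (cq q) :=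
  map_exp cqH (AddMonoidHomClass.isometry_of_norm cqH norm_cq').continuous q

theorem exp_real (v : E3) : ∃ g : S3, cS g = exp (io (cE v)) := by
  obtain ⟨g, hg⟩ := GD.exp_mem (ioR_mem v)
  exact ⟨g, by rw [← cq_ioR, ← cq_exp, Un.exp_re0 rfl, ← hg]; rfl⟩

theorem exists_log {g : S3} (h : ‖g.q - 1‖ ≤ 100) :
    ∃ v, cS g = exp (io (cE v)) ∧ ‖v‖ ≤ 2 * ‖g.q - 1‖ := by
  have e : ∀ X : Matrix (Fin GD.n) (Fin GD.n) ℝ, √(∑ i, ∑ j, X i j ^ 2) = ‖X‖ := fun X => by
    rw [← Real.sqrt_sq (norm_nonneg X), Un.fro_sq]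
    simp
  rw [norm_q_sub] at h ⊢
  obtain ⟨X, hX, h1, h2⟩ := GD.loc g (by rwa [e])
  obtain ⟨v, hv⟩ := exists_ioR hX
  rw [e, e] at h2
  refine ⟨v, by rw [← cq_ioR, ← cq_exp, hv, Un.exp_re0 rfl, ← h1]; rfl, ?_⟩
  rw [← norm_cE', ← norm_io', ← cq_ioR, norm_cq', hv, Un.norm_of_re rfl]
  linarith [mul_le_mul_of_nonneg_left h2 GD.t_pos.le]

theorem exp_io_lip {u v : C3} {r : ℝ} (hu : ‖u‖ ≤ r) (hv : ‖v‖ ≤ r) (h : r ≤ 1000) :
    ‖exp (io u) - exp (io v) - io (u - v)‖ ≤ r / 500 * ‖u - v‖ := by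
  rw [← norm_io' (u - v), io_sub]
  exact Un.exp_lip rfl rfl (by rwa [norm_io']) (by rwa [norm_io']) h

theorem exp_io_rem {u : C3} (h : ‖u‖ ≤ 1000) : ‖exp (io u) - 1 - io u‖ ≤ ‖u‖ ^ 2 / 500 := by
  rw [← norm_io'] at h ⊢
  exact Un.exp_rem rfl h

theorem exp_adq {h : Hc} (hh : Uni h) (u : C3) : exp (io (adq h u)) = h * exp (io u) * star h := by
  rw [io_adq hh, Un.exp_conj hh.mul_star]

/-- the adjoint action as an equivalence -/
def adE {h : Hc} (hh : Uni h) : C3 ≃L[ℂ] C3 := LinearEquiv.toContinuousLinearEquiv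
  { adL h with invFun := adq (star h), left_inv := adq_star_adq hh, right_inv := adq_adq_star hh }

theorem fixp_real {F : C3 → C3} (h : ∀ v, ∃ w, cE w = F (cE v)) : ∃ v, cE v = fixp F := by
  let S : AddSubgroup C3 :=
    { carrier := {b | ∀ k, (b k).im = 0}
      add_mem' := fun ha hb k => by simp [ha k, hb k]
      zero_mem' := fun _ => rfl
      neg_mem' := fun ha k => by simp [ha k] }
  refine exists_cE (fixp_mem S ?_ fun u hu => ?_)
  · rw [show (S : Set C3) = ⋂ k, {b | (b k).im = 0} from Set.setOf_forall _]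
    exact isClosed_iInter fun k => isClosed_eq (by fun_prop) continuous_const
  · obtain ⟨v, rfl⟩ := exists_cE hu
    obtain ⟨w, hw⟩ := h v
    exact hw ▸ cE_real w

theorem differentiable_exp_io : Differentiable ℂ fun u => exp (io u) :=
  Differentiable.comp (fun x => (exp_analytic x).differentiableAt) ioL.differentiable

section ex

/-- the logarithm of `ex` -/
def lex (b : C3) : C3 := fixp fun u => u + b - co (exp (io u))

theorem ex_def (b : C3) : ex b = exp (io (lex b)) := rfl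

theorem ctr_ex {b : C3} (h : ‖b‖ ≤ 20) : Ctr 40 fun u => u + b - co (exp (io u)) := by
  refine ⟨by simpa using h.trans (by norm_num), fun u v hu hv => ?_⟩
  have e : u + b - co (exp (io u)) - (v + b - co (exp (io v))) =
      -co (exp (io u) - exp (io v) - io (u - v)) := by
    rw [co_sub, co_sub, co_io]; abel
  rw [e, norm_neg]
  linarith [norm_co (exp (io u) - exp (io v) - io (u - v)), exp_io_lip hu hv (by norm_num),
    norm_nonneg (u - v)]

theorem norm_lex {b : C3} (h : ‖b‖ ≤ 20) : ‖lex b‖ ≤ 2 * ‖b‖ := by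
  simpa [lex] using (ctr_ex h).norm_le

theorem uni_ex (b : C3) : Uni (ex b) := uni_exp _

@[simp] theorem ex_re (b : C3) : (ex b).re = 1 := re_exp_io _

theorem ex_adq {h : Hc} (hh : Uni h) (b : C3) : ex (adq h b) = h * ex b * star h := by
  have : lex (adq h b) = adq h (lex b) := fixp_map (adE hh).toContinuousAddEquiv fun u => by
    change adq h u + _ - co (exp (io (adq h u))) = adq h _
    rw [exp_adq hh, co_conj hh, adq_sub, adq_add]
  rw [ex_def, this, exp_adq hh, ex_def]

theorem star_ex (b : C3) : star (ex b) = ex (-b) := by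
  have : lex (-b) = -lex b := fixp_map (ContinuousLinearEquiv.neg ℂ (M := C3)).toContinuousAddEquiv
    (F := fun u => u + b - co (exp (io u))) fun u => by
    change -u + _ - co (exp (io (-u))) = -_
    rw [io_neg, ← star_exp_io, co_star]
    abel
  rw [ex_def, ex_def, this, io_neg, star_exp_io]

@[simp] theorem ex_zero : ex 0 = 1 := by
  rw [ex_def, lex, fixp_zero (by simp), io_zero, exp_zero]

theorem co_ex {b : C3} (h : ‖b‖ ≤ 10) : co (ex b) = b := by
  have := (ctr_ex (h.trans (by norm_num))).spec.2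
  rw [add_sub_assoc, add_eq_left, sub_eq_zero] at this
  exact this.symm

theorem ch_ex {b : C3} (h : ‖b‖ ≤ 10) : ch (ex b) = b := by rw [ch_of_re (ex_re b), co_ex h]

theorem ex_near' {b : C3} (h : ‖b‖ ≤ 10) : ‖ex b - 1 - io b‖ ≤ ‖b‖ ^ 2 / 50 := by
  have h1 := norm_lex (h.trans (by norm_num))
  have h2 := exp_io_rem (u := lex b) (by linarith)
  have h3 := (norm_co _).trans h2
  rw [co_sub, co_sub, ← ex_def, co_ex h, co_one, co_io, sub_zero, ← norm_io', io_sub] at h3
  have h4 := norm_sub_le (ex b - 1 - io (lex b)) (io b - io (lex b))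
  rw [sub_sub_sub_cancel_right] at h4
  rw [← ex_def] at h2
  nlinarith [pow_le_pow_left₀ (norm_nonneg _) h1 2]

theorem ex_near {b : C3} {δ : ℝ} (h : ‖b‖ ≤ δ) (h1 : δ ≤ 1 / 100) :
    ‖ex b - 1 - io b‖ ≤ 10 * δ ^ 2 := by
  nlinarith [ex_near' (b := b) (by linarith), pow_le_pow_left₀ (norm_nonneg _) h 2]

theorem norm_ex_sub {b : C3} (h : ‖b‖ ≤ 10) : ‖ex b - 1‖ ≤ 2 * ‖b‖ := by
  have h1 := norm_add_le (ex b - 1 - io b) (io b)
  rw [sub_add_cancel, norm_io'] at h1
  nlinarith [ex_near' h, norm_nonneg b]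

theorem ex_real' {b : C3} (h : ∀ k, (b k).im = 0) : ∃ g : S3, cS g = ex b := by
  obtain ⟨v, rfl⟩ := exists_cE h
  obtain ⟨w, hw⟩ := fixp_real (F := fun u => u + cE v - co (exp (io u))) fun u => exists_cE fun k => by
    rw [← cq_ioR, ← cq_exp]
    simp [cE_real, co_real]
  rw [ex, ← hw]
  exact exp_real w

theorem ex_real (v : E3) : ∃ g : S3, cS g = ex (cE v) ∧ (‖v‖ ≤ 2 → ‖g.q - 1‖ ≤ 2 * ‖v‖) :=
  (ex_real' (cE_real v)).imp fun g hg => ⟨hg, fun h => by
    rw [← norm_cS_sub, hg, ← norm_cE']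
    exact norm_ex_sub (by linarith [norm_cE' v])⟩

theorem ex_co_exp {u : C3} (h : ‖u‖ ≤ 10) : ex (co (exp (io u))) = exp (io u) := by
  have h1 := (norm_co _).trans (exp_io_rem (u := u) (by linarith))
  have h2 := norm_add_le (co (exp (io u)) - u) u
  rw [co_sub, co_sub, co_one, co_io, sub_zero] at h1
  rw [sub_add_cancel] at h2
  rw [ex, (ctr_ex (by nlinarith [norm_nonneg u])).uniq (h.trans (by norm_num)) (by simp)]

theorem ex_ch {g : S3} (hg : ‖g.q - 1‖ ≤ 5) : ex (ch (cS g)) = cS g := by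
  obtain ⟨v, h1, h2⟩ := exists_log (hg.trans (by norm_num))
  rw [ch_cS, h1, ex_co_exp (by linarith [norm_cE' v])]

theorem differentiableAt_ex {b : C3} (h : ‖b‖ ≤ 10) : DifferentiableAt ℂ ex b := by
  refine (differentiable_exp_io _).comp b (differentiableAt_fixp (R := 40)
    (F := fun b u => u + b - co (exp (io u))) ?_ ?_ ?_)
  · filter_upwards [(isOpen_lt continuous_norm continuous_const).mem_nhds
      (h.trans_lt (by norm_num : (10 : ℝ) < 20))] with c hc using ctr_ex hc.le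
  · exact (norm_lex (h.trans (by norm_num))).trans_lt (by linarith)
  · exact (differentiableAt_snd.add differentiableAt_fst).sub
      ((coL.differentiable.comp (differentiable_exp_io.comp differentiable_snd)) _)

theorem differentiableOn_ex : DifferentiableOn ℂ ex (Metric.ball 0 10) := fun _ h =>
  (differentiableAt_ex (mem_ball_zero_iff.1 h).le).differentiableWithinAt

theorem measurable_ex : Measurable ex :=
  differentiable_exp_io.continuous.measurable.comp (measurable_fixp fun _ hu =>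
    (hu.add measurable_id).sub
      ((coL.continuous.comp differentiable_exp_io.continuous).measurable.comp hu))

end ex

section pjq

theorem exp_neg_io (u : C3) : exp (-io u) = exp (io (-u)) := by rw [io_neg]

theorem co_mul_exp (q : Hc) (u v : C3) : u + co (q * exp (-io u)) - (v + co (q * exp (-io v))) =
    co (exp (io (-u)) - exp (io (-v)) - io (-u - -v)) +
      co ((q - 1) * (exp (io (-u)) - exp (io (-v)) - io (-u - -v))) + co ((q - 1) * io (-u - -v)) := by
  simp only [mul_sub, sub_mul, one_mul, co_sub, co_io, exp_neg_io]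
  abel

theorem lip_prq {q : Hc} {s : ℝ} (h : ‖q - 1‖ ≤ s) {u v : C3} (hu : ‖u‖ ≤ 1) (hv : ‖v‖ ≤ 1) :
    ‖u + co (q * exp (-io u)) - (v + co (q * exp (-io v)))‖ ≤ (1 / 500 + 501 / 500 * s) * ‖u - v‖ := by
  have h1 := exp_io_lip (u := -u) (v := -v) (r := 1) (by rwa [norm_neg]) (by rwa [norm_neg]) (by norm_num)
  have h2 : ‖-u - -v‖ = ‖u - v‖ := by rw [neg_sub_neg, norm_sub_rev]
  have s0 := (norm_nonneg _).trans h
  have h3 := (norm_co _).trans ((norm_mul_le _ _).trans (mul_le_mul h h1 (norm_nonneg _) s0))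
  have h4 := (norm_co _).trans ((norm_mul_le _ _).trans
    (mul_le_mul h (norm_io' (-u - -v)).le (norm_nonneg _) s0))
  rw [co_mul_exp]
  refine norm_add₃_le.trans ?_
  rw [h2] at h1 h3 h4
  linarith [(norm_co _).trans h1]

theorem norm_co_le (q : Hc) : ‖co q‖ ≤ ‖q - 1‖ := by
  simpa only [co_sub, co_one, sub_zero] using norm_co (q - 1)

theorem ctr_prq {q : Hc} (h : ‖q - 1‖ ≤ 1 / 3) : Ctr 1 fun u => u + co (q * exp (-io u)) :=
  ⟨by simpa using (norm_co_le q).trans (h.trans (by norm_num : (1 / 3 : ℝ) ≤ 2⁻¹)),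
    fun u v hu hv => by linarith [lip_prq h hu hv, norm_nonneg (u - v)]⟩

theorem uni_pjq (q : Hc) : Uni (pjq q) := uni_exp _

@[simp] theorem pjq_re (q : Hc) : (pjq q).re = 1 := re_exp_io _

theorem pjq_conj {h : Hc} (hh : Uni h) (q : Hc) : pjq (h * q * star h) = h * pjq q * star h := by
  have : prq (h * q * star h) = adq h (prq q) := fixp_map (adE hh).toContinuousAddEquiv fun u => by
    change adq h u + co (_ * exp (-io (adq h u))) = adq h _
    rw [exp_neg_io, ← adq_neg, exp_adq hh, adq_add, ← co_conj hh, exp_neg_io]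
    simp only [mul_assoc, ← mul_assoc (star h) h, hh.star_mul, one_mul]
  rw [pjq, this, exp_adq hh, pjq]

theorem pjq_real (q : Hr) : ∃ g : S3, cS g = pjq (cq q) := by
  obtain ⟨w, hw⟩ := fixp_real (F := fun u => u + co (cq q * exp (-io u))) fun u => exists_cE fun k => by
    rw [← cq_ioR, ← cq_neg, ← cq_exp, ← cq_mul]
    simp [cE_real, co_real]
  rw [pjq, prq, ← hw]
  exact exp_real w

theorem pjq_of_co {q : Hc} (h : co q = 0) : pjq q = 1 := by
  rw [pjq, prq, fixp_zero (by simpa), io_zero, exp_zero]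

@[simp] theorem pjq_one : pjq 1 = 1 := pjq_of_co co_one

theorem pjq_crit {q : Hc} (h : ‖q - 1‖ ≤ 1 / 4) : co (q * star (pjq q)) = 0 := by
  have := (ctr_prq (h.trans (by norm_num))).spec.2
  rwa [add_eq_left, ← star_exp_io] at this

theorem prq_uniq {q : Hc} (h : ‖q - 1‖ ≤ 1 / 3) {u : C3} (hu : ‖u‖ ≤ 1)
    (hc : co (q * exp (-io u)) = 0) : prq q = u :=
  (ctr_prq h).uniq hu (by rw [hc, add_zero])

theorem pjq_eq_cS {q : Hc} (h : ‖q - 1‖ ≤ 1 / 3) {g : S3} (hg : ‖g.q - 1‖ ≤ 1 / 2)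
    (hc : co (q * star (cS g)) = 0) : pjq q = cS g := by
  obtain ⟨v, h1, h2⟩ := exists_log (hg.trans (by norm_num))
  rw [h1, star_exp_io] at hc
  rw [pjq, prq_uniq h (by linarith [norm_cE' v]) hc, h1]

theorem prq_near {q : Hc} {s : ℝ} (h : ‖q - 1‖ ≤ s) (hs : s ≤ 1 / 4) :
    ‖prq q‖ ≤ 3 / 2 * s ∧ ‖prq q - co q‖ ≤ 2 * s ^ 2 := by
  obtain ⟨h1, h2⟩ := (ctr_prq (h.trans (hs.trans (by norm_num)))).spec
  have s0 := (norm_nonneg _).trans h
  have h3 := lip_prq h h1 (v := 0) (by simp)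
  rw [h2] at h3
  simp only [io_zero, neg_zero, exp_zero, mul_one, zero_add, sub_zero] at h3
  change ‖prq q - _‖ ≤ _ * ‖prq q‖ at h3
  have h4 := norm_add_le (prq q - co q) (co q)
  rw [sub_add_cancel] at h4
  have h5 : ‖prq q‖ ≤ 3 / 2 * s := by nlinarith [(norm_co_le q).trans h, norm_nonneg (prq q)]
  refine ⟨h5, ?_⟩
  have a1 := exp_io_rem (u := -prq q) (by rw [norm_neg]; linarith)
  have a2 := (norm_co _).trans ((norm_mul_le _ _).trans (mul_le_mul h a1 (norm_nonneg _) s0))
  have a3 := (norm_co _).trans ((norm_mul_le _ _).trans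
    (mul_le_mul h (norm_io' (-prq q)).le (norm_nonneg _) s0))
  have e := co_mul_exp q (prq q) 0
  rw [show prq q + co (q * exp (-io (prq q))) = prq q from h2] at e
  simp only [io_zero, neg_zero, exp_zero, mul_one, zero_add, sub_zero] at e
  rw [e]
  refine norm_add₃_le.trans ?_
  rw [norm_neg] at a1 a2 a3
  have a4 := pow_le_pow_left₀ (norm_nonneg _) h5 2
  nlinarith [(norm_co _).trans a1, mul_le_mul_of_nonneg_left h5 s0, mul_le_mul hs a4 (sq_nonneg _) (by norm_num)]

theorem pjq_near {q : Hc} {b : C3} {s u : ℝ} (h : ‖q - 1‖ ≤ s) (hs : s ≤ 1 / 4)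
    (hb : ‖q - 1 - io b‖ ≤ u) : ‖pjq q - 1‖ ≤ 2 * s ∧ ‖pjq q - 1 - io b‖ ≤ u + 10 * s ^ 2 := by
  obtain ⟨h1, h2⟩ := prq_near h hs
  have s0 := (norm_nonneg _).trans h
  have h3 : ‖pjq q - 1 - io (prq q)‖ ≤ _ := exp_io_rem (by linarith)
  have h4 := pow_le_pow_left₀ (norm_nonneg _) h1 2
  have h5 := (norm_co _).trans hb
  rw [co_sub, co_sub, co_one, co_io, sub_zero] at h5
  have h6 := norm_add_le (pjq q - 1 - io (prq q)) (io (prq q))
  have h7 := norm_add₃_le (a := pjq q - 1 - io (prq q)) (b := io (prq q - co q)) (c := io (co q - b))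
  rw [sub_add_cancel, norm_io'] at h6
  rw [norm_io', norm_io', add_assoc, ← io_add, sub_add_sub_cancel, io_sub, sub_add_sub_cancel] at h7
  constructor <;> nlinarith

theorem differentiableAt_pjq {q : Hc} (h : ‖q - 1‖ ≤ 1 / 4) : DifferentiableAt ℂ pjq q := by
  refine (differentiable_exp_io _).comp q (differentiableAt_fixp (R := 1)
    (F := fun q u => u + co (q * exp (-io u))) ?_ ?_ ?_)
  · filter_upwards [(isOpen_lt (continuous_id.sub continuous_const).norm continuous_const).mem_nhds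
      (h.trans_lt (by norm_num : (1 / 4 : ℝ) < 1 / 3))] with c hc using ctr_prq hc.le
  · exact (prq_near h le_rfl).1.trans_lt (by norm_num)
  · simp only [exp_neg_io]
    exact differentiableAt_snd.add ((coL.differentiable.comp
      (differentiable_fst.mul (differentiable_exp_io.comp differentiable_snd.neg))) _)

theorem diff_pjq {Ω : Set ℂ} {f : ℂ → Hc} (hf : DifferentiableOn ℂ f Ω)
    (h : ∀ z ∈ Ω, ‖f z - 1‖ ≤ 1 / 5) : DifferentiableOn ℂ (fun z => pjq (f z)) Ω := fun z hz =>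
  (differentiableAt_pjq ((h z hz).trans (by norm_num))).comp_differentiableWithinAt z (hf z hz)

theorem measurable_pjq : Measurable pjq :=
  differentiable_exp_io.continuous.measurable.comp (measurable_fixp fun _ hu => by
    simp only [exp_neg_io]
    exact hu.add (coL.continuous.measurable.comp
      (measurable_id.mul (differentiable_exp_io.continuous.measurable.comp hu.neg))))

end pjq

end Pool.Agent.Lib.MP_7f377f_mp.RG
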