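import Pool.Agent.Lib.MP_7f377f_mp.G.RGDefs
import Pool.Agent.Lib.MP_7f377f_mp.G.GEx

/-! The algebra of the gauge group: charts, adjoint action, real elements (see `GAlg1`, `GEx`). -/
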