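import Pool.Agent.Lib.MP_7f377f_mp.G.RGHol1
import Pool.Agent.Lib.MP_7f377f_mp.RGHol2
import Pool.Agent.Lib.MP_7f377f_mp.G.RGAp1
import Pool.Agent.Lib.MP_7f377f_mp.G.GSchur
import Pool.Agent.Lib.MP_7f377f_mp.G.KitAff

/-! Extraction of the quadratic part of a local term. -/

noncomputable section

set_option linter.unusedSectionVars false
variable [Pool.Agent.Lib.MP_7f377f_mp.GD]

namespace Pool.Agent.Lib.MP_7f377f_mp.RG

open Finset MeasureTheory Filter
open scoped Topology Matrix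

namespace Ho

/-- the matrix of the adjoint action -/
def Ad (g : S3) (k i : Fin GD.d) : ℝ :=
  GD.t ^ 2 * Matrix.trace ((GD.e k)ᵀ * (GD.rho g * GD.e i * (GD.rho g)ᵀ))

theorem adq_Ad (g : S3) (b : C3) (k : Fin GD.d) : adq (cS g) b k = ∑ i, Ad g k i * b i := by
  have : (cS g * io b * star (cS g)).m =
      ∑ i, b i • (GD.rho g * GD.e i * (GD.rho g)ᵀ).map (↑) := by
    have e : ∀ A B : Matrix (Fin GD.n) (Fin GD.n) ℝ, (A * B).map ((↑) : ℝ → ℂ) =
        A.map (↑) * B.map (↑) := fun A B => Matrix.map_mul (f := Complex.ofRealHom)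
    have e1 : (GD.rho g - 1).map ((↑) : ℝ → ℂ) = (GD.rho g).map (↑) - 1 := by
      ext i j
      by_cases h : i = j <;> simp [h]
    have e2 : ∀ (P : Matrix (Fin GD.n) (Fin GD.n) ℂ) (X : Fin GD.d → Matrix (Fin GD.n) (Fin GD.n) ℂ),
        ∑ i, b i • (P * X i * Pᵀ) = P * (∑ i, b i • X i) * Pᵀ := fun P X => by
      simp [mul_sum, sum_mul]
    simp only [e, Matrix.transpose_map, e2, cS, cq, S3.q, io, Un.m_mul, Un.re_mul, Un.m_star,
      Un.re_star, e1, Complex.ofReal_one, one_smul, zero_smul, mul_zero, Matrix.transpose_sub,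
      Matrix.transpose_one]
    noncomm_ring
  simp only [adq, co, this, mul_sum, mul_smul_comm, Matrix.trace_sum, Matrix.trace_smul, Ad]
  refine sum_congr rfl fun i _ => ?_
  simp [Matrix.trace, Matrix.mul_apply, mul_comm (b i)]

theorem Ad_exp (g : S3) (j : Fin GD.d) :
    GD.rho g * GD.e j * (GD.rho g)ᵀ = ∑ k, Ad g k j • GD.e k := by
  obtain ⟨c, hc⟩ := (Submodule.mem_span_range_iff_exists_fun ℝ).1 (GD.ad_mem g j)
  simp only [Ad, ← hc, mul_sum, mul_smul_comm, Matrix.trace_sum, Matrix.trace_smul, smul_eq_mul,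
    mul_left_comm _ (c _), GD.on]
  simp

theorem Ad_mul (g h : S3) (i j : Fin GD.d) : Ad (g * h) i j = ∑ k, Ad g i k * Ad h k j := by
  have : GD.rho (g * h) * GD.e j * (GD.rho (g * h))ᵀ =
      GD.rho g * (GD.rho h * GD.e j * (GD.rho h)ᵀ) * (GD.rho g)ᵀ := by
    erw [map_mul]
    simp only [Matrix.transpose_mul, mul_assoc]
  rw [Ad, this, Ad_exp]
  simp only [mul_sum, sum_mul, mul_smul_comm, smul_mul_assoc, Matrix.trace_sum, Matrix.trace_smul,
    smul_eq_mul, Ad]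
  exact sum_congr rfl fun k _ => by ring

theorem cont_Ad : Continuous Ad := by
  have := GD.cont
  unfold Ad
  fun_prop

/-- zero is an affine combination of rotations -/
theorem sum_adq : ∃ (s : Finset S3) (c : S3 → ℝ), ∑ g ∈ s, c g = 1 ∧
    ∀ b : C3, ∑ g ∈ s, (c g : ℂ) • adq (cS g) b = 0 := by
  obtain ⟨s, c, h1, h2⟩ := GE.schur_aff Ad GD.schur (by linarith [GD.d3]) Ad_mul cont_Ad
  refine ⟨s, c, h1, fun b => funext fun k => ?_⟩
  have h3 : ∀ i, ∑ g ∈ s, (c g : ℂ) * Ad g k i = 0 := fun i => by exact_mod_cast h2 k i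
  simp only [Finset.sum_apply, Pi.smul_apply, smul_eq_mul, adq_Ad, mul_sum, ← mul_assoc]
  rw [sum_comm]
  simp [← sum_mul, h3]

/-- a scalar field in the colour direction `j` -/
def em (j : Fin GD.d) (a : V) : Fld := fun e => Pi.single j (a e : ℂ)

theorem em_add (j : Fin GD.d) (a b : V) : em j (a + b) = em j a + em j b := by
  funext e; simp [em, Pi.single_add]

theorem em_smul (j : Fin GD.d) (c : ℝ) (a : V) : em j (c • a) = (c : ℂ) • em j a := by
  funext e k; by_cases h : k = j <;> simp [em, h]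

theorem dd_em (j : Fin GD.d) (a : V) (x : St) (μ ν : Fin 4) :
    dd (em j a) x μ ν = Pi.single j ((dd a x μ ν : ℝ) : ℂ) := by
  funext k; by_cases h : k = j <;> simp [em, dd, h]

theorem norm_sg (j : Fin GD.d) (x : ℂ) : ‖(Pi.single j x : C3)‖ = ‖x‖ :=
  EuclideanSpace.norm_single j x

theorem cv_em (j : Fin GD.d) {R : ℕ} {δ : ℝ} {a : V} (h : Cv R δ a) : Cv R δ (em j a) :=
  fun x hx μ ν => by
    rw [dd_em, norm_sg, Complex.norm_real]
    exact h x hx μ ν

theorem real_em (j : Fin GD.d) (a : V) : RealF (em j a) := fun e k => by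
  by_cases h : k = j <;> simp [em, h]

theorem sum_em (A : Fld) : A = ∑ j, (em j (reF A j) + Complex.I • em j (imF A j)) := by
  funext e k
  simp only [Finset.sum_apply, Pi.add_apply, Pi.smul_apply, em, reF, imF, smul_eq_mul]
  rw [sum_eq_single k (fun j _ h => by simp [Pi.single_eq_of_ne h.symm]) (by simp)]
  simp [mul_comm Complex.I]

theorem ad_em (g : S3) (i : Fin GD.d) (a : V) :
    adF (fun _ => cS g) (em i a) = ∑ k, (Ad g k i : ℂ) • em k a := by
  funext e k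
  simp [adF, adq_Ad, em, Pi.single_apply]

/-- invariant bilinear forms are diagonal in the colours -/
theorem bil_em {E : Type} [AddCommGroup E] [Module ℝ E] (m : Fin GD.d → V → E) (T : S3 → E → E)
    (hT : ∀ g i a, T g (m i a) = ∑ k, Ad g k i • m k a) (K : E →ₗ[ℝ] E →ₗ[ℝ] ℂ)
    (hK : ∀ g v w, K (T g v) (T g w) = K v w) (i j : Fin GD.d) (a b : V) :
    K (m i a) (m j b) = if i = j then K (m GD.k0 a) (m GD.k0 b) else 0 :=
  GE.schur_cpx Ad GD.schur (fun i j => K (m i a) (m j b)) (fun g i j => by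
    rw [← hK g (m i a), hT, hT]
    simp only [map_sum, map_smul, LinearMap.sum_apply, LinearMap.smul_apply, smul_sum, smul_smul]
    rw [sum_comm]
    simp only [mul_comm]) _ i j

theorem adF_add (h : St → Hc) (A B : Fld) : adF h (A + B) = adF h A + adF h B := by
  funext e; simp [adF, adq_add]

theorem adF_smul (h : St → Hc) (c : ℂ) (A : Fld) : adF h (c • A) = c • adF h A := by
  funext e; simp [adF, adq_smul]

theorem sum_ad : ∃ (s : Finset S3) (c : S3 → ℝ), ∑ g ∈ s, c g = 1 ∧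
    ∀ B : Fld, ∑ g ∈ s, (c g : ℂ) • adF (fun _ => cS g) B = 0 :=
  let ⟨s, c, h1, h2⟩ := sum_adq
  ⟨s, c, h1, fun B => funext fun e => by simpa [adF] using h2 (B e)⟩

/-- invariant linear maps vanish -/
theorem lin_inv {F : Type} [AddCommGroup F] [Module ℂ F] (L : Fld →ₗ[ℂ] F) {B : Fld}
    (h : ∀ g, L (adF (fun _ => cS g) B) = L B) : L B = 0 := by
  obtain ⟨s, c, h1, h2⟩ := sum_ad
  have := congrArg L (h2 B)
  simp only [map_sum, map_smul, h, ← sum_smul, map_zero] at this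
  rwa [← Complex.ofReal_sum, h1, Complex.ofReal_one, one_smul] at this

/-- an invariant holomorphic function has no linear term -/
theorem deriv_inv {F : Type} [NormedAddCommGroup F] [NormedSpace ℂ F] {O : Kit.Dom Fld} {k : Fld → F}
    {M : ℝ} (h : O.LH k) (hM : ∀ B ∈ O.D 1, ‖k B‖ ≤ M) {B : Fld}
    (hB : ∀ g, ∃ θ, adF (fun _ => cS g) B ∈ O.D θ)
    (e : ∀ g (t : ℂ), k (t • adF (fun _ => cS g) B) = k (t • B)) :
    deriv (fun t : ℂ => k (t • B)) 0 = 0 :=
  let ⟨_, _, h1, h2⟩ := sum_ad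
  h.deriv_aff hM (by exact_mod_cast h1) hB e (h2 B)

theorem dd_eq_zero {W : Type} [AddCommGroup W] {R : ℕ} {v : Lk → W}
    (h : ∀ e ∈ lbox (R + 1), v e = 0) {x : St} (hx : x ∈ box R) (μ ν : Fin 4) : dd v x μ ν = 0 := by
  have h0 : ∀ μ, v (x, μ) = 0 := fun μ => h _ (Li.mem_lbox.2 (Li.box_mono (Nat.le_succ R) hx))
  have h1 : ∀ μ ν, v (x + un μ, ν) = 0 := fun μ ν =>
    h _ (Li.mem_lbox.2 (Li.add_mem_box hx (Li.un_mem_box le_rfl μ)))
  simp [dd, h0, h1]

variable {R : ℕ} {ρ κ : ℝ} {φ : Fld → ℂ}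

theorem hall (hρ : 0 < ρ) (B : Fld) : ∃ θ, B ∈ (dom R ρ hρ).D θ :=
  let ⟨_, h⟩ := cv_exists R B; ⟨_, mem_dom hρ h⟩

end Ho

open Ho

end Pool.Agent.Lib.MP_7f377f_mp.RG
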