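import Pool.Agent.Lib.MP_7f377f_mp.G.ZgE
import Pool.Agent.Lib.MP_7f377f_mp.G.ZhA0
import Pool.Agent.Lib.MP_7f377f_mp.G.ZhK
import Pool.Agent.Lib.MP_7f377f_mp.G.RGHol3

/-! The real labels and the complex invariant polynomials. -/

noncomputable section

namespace Pool.Agent.Lib.MP_7f377f_mp.Zg
variable [Pool.Agent.Lib.MP_7f377f_mp.GD]
set_option linter.unusedSectionVars false

open Set YM7 Wm Wv Matrix Sw MvPolynomial Complex Zf ComplexConjugate
open YZ (Lab)

/-- the matrices of the adjoint representation -/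
def AdG : Set (Matrix (Fin GD.d) (Fin GD.d) ℝ) := range fun g => of (RG.Ho.Ad g)

theorem Ad_one : of (RG.Ho.Ad 1) = 1 := by
  ext i j
  rw [of_apply, RG.Ho.Ad]
  erw [map_one]
  simpa [one_apply] using GD.on i j

instance : Og AdG where
  orth := by
    rintro _ ⟨g, rfl⟩
    ext i j
    have : ∀ k, RG.Ho.Ad g j k = RG.Ho.Ad g⁻¹ k j := fun k => by
      rw [RG.Ho.Ad, RG.Ho.Ad, ← trace_transpose]
      erw [GD.rho_inv]
      simp only [transpose_mul, transpose_transpose, mul_assoc]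
      rw [trace_mul_comm]
      simp only [mul_assoc]
    simp only [mul_apply, transpose_apply, of_apply, this, ← RG.Ho.Ad_mul, mul_inv_cancel, ← Ad_one]
  schur M h := GD.schur M fun g i j => by
    simpa only [mul_apply, Finset.sum_mul, transpose_apply, of_apply, mul_right_comm _ (M _ _),
      Finset.sum_comm (f := fun x y => _ * M y x), RG.Ho.Ad] using congrFun₂ (h _ ⟨g, rfl⟩) i j
  two := by linarith [GD.d3]

variable {d : ℕ} {𝒜 : Set (Matrix (Fin d) (Fin d) ℝ)} [o : Og 𝒜] {O : Matrix (Fin d) (Fin d) ℝ}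

/-- real polynomials -/
def io : Lb d ℝ →ₐ[ℝ] Lab d := mapAlgHom (Algebra.ofId ℝ ℂ)

/-- real and imaginary parts -/
def rp (b : Fin 2) : Lab d →ₗ[ℝ] Lb d ℝ where
  toFun c := AddMonoidAlgebra.map (![reLm, imLm] b).toAddMonoidHom c
  map_add' _ _ := by ext; simp
  map_smul' _ _ := by ext; simp [-real_smul]

theorem coeff_rp (b m) (c : Lab d) : coeff m (rp b c) = ![re, im] b (coeff m c) := by
  fin_cases b <;> rfl

theorem coeff_io (m) (c : Lb d ℝ) : coeff m (io c) = (coeff m c : ℝ) := coeff_map _ _ _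

theorem io_X (q) : io (X q : Lb d ℝ) = X q := map_X _ _

theorem rp_dec (c : Lab d) : ∑ b : Fin 2, I ^ (b : ℕ) • io (rp b c) = c := by
  ext
  simp [coeff_rp, coeff_io, mul_comm I]

theorem rp_comm {F : Lab d →ₐ[ℂ] Lab d} {F' : Lb d ℝ →ₐ[ℝ] Lb d ℝ}
    (h : ∀ q, F (X q) = io (F' (X q))) : (∀ v, F (io v) = io (F' v)) ∧
      ∀ b c, rp b (F c) = F' (rp b c) := by
  have a := AlgHom.congr_fun (φ₁ := (F.restrictScalars ℝ).comp io) (φ₂ := io.comp F')
    (algHom_ext fun q => by simpa [io_X] using h q)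
  refine ⟨a, fun b c => ?_⟩
  conv_lhs => rw [← rp_dec c]
  simp only [AlgHom.comp_apply, AlgHom.restrictScalars_apply] at a
  ext
  fin_cases b <;> simp [a, coeff_rp, coeff_io]

theorem ad_io (A : Matrix (Fin d) (Fin d) ℝ) : (∀ v, ad A (io v) = io (ad A v)) ∧
    ∀ b c, rp b (ad A c) = ad A (rp b c) := rp_comm fun q => by simp [ad_X, io_X]

theorem rh_io (g : Mat) : (∀ v : Lb d ℝ, rh (cm g) (io v) = io (rh g v)) ∧
    ∀ b (c : Lab d), rp b (rh (cm g) c) = rh g (rp b c) := rp_comm fun q => by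
  simp [rh_X, io_X, ← ofReal_prod]

theorem ad_star (A : Matrix (Fin d) (Fin d) ℝ) (c : Lab d) :
    ad A (map conj c) = map conj (ad A c) := by
  induction c using MvPolynomial.induction_on with
  | C a => simp
  | add p q a b => simp [a, b]
  | mul_X p q a => simp [a, ad_X, smul_eq_C_mul]

theorem br0 (hO : O * Oᵀ = 1) : ∃ p inc,
    Br (fil 𝒜) (r0 𝒜) (S0 𝒜) ((Iv ℂ 𝒜).comap (ad O)) p inc (l0 𝒜) (tt 𝒜) := by
  obtain ⟨E, e⟩ := LinearMap.exists_extend (p := V0 𝒜) LinearMap.id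
  have k (v : V0 𝒜) : E v = v := LinearMap.congr_fun e v
  have hO' := mul_eq_one_comm.1 hO
  have a (c : Lab d) : ad O (ad Oᵀ c) = c := by rw [← ad_mul, hO', ad_one]
  have n {c : Lab d} : c ∈ (Iv ℂ 𝒜).comap (ad O) ↔ ∀ A ∈ 𝒜, ad A (ad O c) = ad O c := mem_Iv
  have m {c : Lab d} (h : c ∈ (Iv ℂ 𝒜).comap (ad O)) (b) :
      (E (pj (rp b (ad O c)))).1 = pj (rp b (ad O c)) :=
    congrArg _ (k ⟨_, pj_v0 (mem_Iv.2 fun A hA => ((ad_io A).2 _ _).symm.trans
      (congrArg _ (n.1 h A hA)))⟩)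
  have f (μ ν) : ad Oᵀ (io (ff μ ν)) = YZ.FF μ ν := by
    rw [(ad_io _).1, ad_ff hO']
    simp [ff, YZ.FF, io_X]
  have l : ad Oᵀ (io lg) = YZ.lag := by
    simp only [lg, map_smul, map_sum, AlgHom.map_smul_of_tower, f, YZ.lag]
    rw [← algebraMap_smul ℂ]
    simp
  refine ⟨fun b => E ∘ₗ pj ∘ₗ rp b ∘ₗ (ad O).toLinearMap.restrictScalars ℝ,
    (ad Oᵀ).toLinearMap.restrictScalars ℝ ∘ₗ io.toLinearMap ∘ₗ (V0 𝒜).subtype, fun v => ?_,
    fun c h => ?_, fun g c h => ?_, fun v => ?_, fun v => ?_, fun c _ => ?_, fun c _ => ?_,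
    fun g s hg c h z b => ?_, fun R v => ?_, fun t n v => ?_, fun R n v => r0_gr R n v,
    fun D v h => ?_, fun _ f hf => ?_, fun _ c f h hf => ?_, ?_, fun μ ν => ?_, r0_l0⟩
  · exact n.2 fun A hA => by simp only [LinearMap.comp_apply, LinearMap.restrictScalars_apply,
      AlgHom.toLinearMap_apply, a, (ad_io A).1, Submodule.subtype_apply, mem_Iv.1 v.2.1 A hA]
  · exact n.2 fun A hA => by rw [ad_star, ad_star, n.1 h A hA]
  · exact n.2 fun A hA => by
      change ad A (ad O (rh g c)) = ad O (rh g c)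
      rw [ad_rh, ad_rh, n.1 h A hA]
  · ext
    simp [(ad_io _).1, coeff_map, coeff_io]
  · have r (b) (v : Lb d ℝ) : rp b (io v) = if b = 0 then v else 0 := by
      ext
      fin_cases b <;> simp [coeff_rp, coeff_io]
    simp [a, r, pj_of v.2.2, k]
  · have r (c : Lab d) : rp 0 (I • c) = -rp 1 c ∧ rp 1 (I • c) = rp 0 c := by
      constructor <;> ext <;> simp [coeff_rp]
    simp [r]
  · have r (c : Lab d) : rp 0 (map conj c) = rp 0 c ∧ rp 1 (map conj c) = -rp 1 c := by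
      constructor <;> ext <;> simp [coeff_rp, coeff_map]
    simp [ad_star, r]
  · change E (pj (rp b (ad O (rh _ c)))) = 0
    rw [ad_rh, (rh_io g).2, pj_rh hg, ← m h, show E (pj (rp b (ad O c))) = 0 from z b]
    simp
  · exact (ad_rh _ _ _).symm.trans (congrArg _ ((rh_io _).1 _))
  · exact rh_smul (hm_ad _ fun m e => hc_hm n v.1 fun z => e (by simp [coeff_io, π_val, z])) t
  · exact mem_Fd.1 (Fd_up (n := 0) (L := (ad Oᵀ).toLinearMap) (fun _ _ => hm_ad _)
      (mem_Fd0.2 fun m e => mem_Fd0.1 h m fun z => e ((coeff_io _ _).trans (by simpa using z))))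
  · exact ⟨ofRealAm.toLinearMap.compMultilinearMap ((frm (.of hf)).compLinearMap
      fun _ => (V0 𝒜).subtype), fun _ => rfl⟩
  · have : fr c f = fr (fun i => ad O (c i)) f := by simp only [fr, (s_cov _ c _).2.2 O hO]
    rw [s_link _ _ _ hf, this, ← frm_apply (.of hf), ← funext fun i => rp_dec (ad O (c i)),
      MultilinearMap.map_sum]
    refine Finset.sum_congr rfl fun s _ => ?_
    rw [MultilinearMap.map_smul_univ, frm_apply]
    exact congrArg _ ((fr_real _ f).trans (congrArg _ (fr_mod (fun i => by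
      exact (m (h i) _).symm ▸ sub_pj _) f)))
  · exact (congrArg (fun c => ad Oᵀ (io c)) l0_val).trans l
  · change ad Oᵀ (io (tt 𝒜 μ ν).1) = _
    rw [tt_val, t0]
    split_ifs <;> simp [f, l]

theorem inv_eq {N : ℕ} {ρ : GD.G →* unitaryGroup (Fin N) ℂ} {e : Fin GD.d → Matrix (Fin N) (Fin N) ℂ}
    (r : Matrix (Fin N) (Fin N) ℂ →ₐ[ℝ] Matrix (Fin GD.n) (Fin GD.n) ℝ)
    (h1 : ∀ A, r (star A) = (r A)ᵀ) (h2 : ∀ A, trace (r A) = 2 * (trace A).re)
    (h3 : ∀ g, r (ρ g) = GD.rho g) (h4 : ∀ a, r (e a) ∈ Submodule.span ℝ (range GD.e))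
    (he : ∀ a b, -(e a * e b).trace.re = if a = b then 1 else 0) :
    ∃ O, O * Oᵀ = 1 ∧ YZ.Inv ρ e = (Iv ℂ AdG).comap (ad O) := by
  choose c hc using fun a => (Submodule.mem_span_range_iff_exists_fun ℝ).1 (h4 a)
  have t := GD.t_pos
  obtain ⟨O, hO⟩ : ∃ O : Matrix _ _ ℝ, ∀ g : GD.G, O * of (RG.Ho.Ad g) * Oᵀ =
      of fun a b => -(e a * (ρ g).1 * e b * (ρ g).1ᴴ).trace.re := by
    refine ⟨(√2 * GD.t)⁻¹ • of c, fun g => ?_⟩
    ext a b
    have := h2 (e a * (ρ g).1 * e b * star (ρ g).1)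
    simp only [map_mul, h1, h3, ← hc, Finset.sum_mul, Finset.mul_sum, smul_mul_assoc, mul_smul_comm,
      trace_sum, trace_smul, smul_eq_mul] at this
    rw [of_apply, ← mul_right_inj' two_ne_zero, mul_neg, ← star_eq_conjTranspose, ← this]
    simp only [mul_apply, Finset.sum_mul, Finset.mul_sum, of_apply, RG.Ho.Ad, GD.anti,
      Matrix.smul_apply, transpose_apply, neg_mul, trace_neg, ← Finset.sum_neg_distrib, mul_assoc, smul_eq_mul]
    refine Finset.sum_congr rfl fun _ _ => Finset.sum_congr rfl fun _ _ => ?_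
    field_simp
    simp
  have o : O * Oᵀ = 1 := by
    ext a b
    simpa [show of (RG.Ho.Ad (1 : GD.G)) = 1 from Ad_one, he, one_apply] using congrFun₂ (hO 1) a b
  refine ⟨O, o, SetLike.ext fun x => Algebra.mem_iInf.trans (.trans (forall_congr' fun g => ?_)
    (forall_mem_range.symm.trans mem_Iv.symm))⟩
  have : ∀ y, ad Oᵀ (ad O y) = y := fun y : Lab GD.d => by rw [← ad_mul, o, ad_one]
  refine .trans (b := x = ad Oᵀ (ad (of (RG.Ho.Ad g)) (ad O x))) ?_ ⟨fun h => ?_, fun h => ?_⟩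
  · rw [← ad_mul, ← ad_mul, ← mul_assoc, hO]
    simp [ad]
  · refine .symm ((congrArg (ad O) h).trans ?_)
    rw [← ad_mul, mul_eq_one_comm.1 o, ad_one]
    rfl
  · rw [show ad _ (ad O x) = ad O x from h, this]

end Pool.Agent.Lib.MP_7f377f_mp.Zg
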