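import Pool.Agent.Lib.MP_7f377f_mp.G.LmD

/-! Limits of local composite fields: polynomials in fields with labels. -/

noncomputable section

namespace Pool.Agent.Lib.MP_7f377f_mp.Lm
variable [Pool.Agent.Lib.MP_7f377f_mp.GD]
set_option linter.unusedSectionVars false

open Filter Topology Set Function YM7 Pur Lg Wm Lg.PI ComplexConjugate MvPolynomial
open Ro (Iso)

/-- polynomials in smeared fields with labels -/
abbrev PolL (V : Type) : Type := MvPolynomial (V × (R4 → ℝ)) ℂ

variable {V ι : Type} {θ : Fin 4 → V → V}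

/-- commuting involutions of the labels -/
def Inv4 (θ : Fin 4 → V → V) : Prop :=
  (∀ μ c, θ μ (θ μ c) = c) ∧ ∀ μ ν c, θ μ (θ ν c) = θ ν (θ μ c)

/-- the antilinear reflection -/
def thL (θ : Fin 4 → V → V) (μ : Fin 4) : PolL V →+* PolL V :=
  (rename fun p : V × (R4 → ℝ) => (θ μ p.1, fun y => p.2 (rf μ y))).toRingHom.comp
    (map (starRingEnd ℂ))

theorem rf_comm (μ ν : Fin 4) (y : R4) : rf μ (rf ν y) = rf ν (rf μ y) := by
  ext l
  by_cases h : l = μ <;> by_cases h' : l = ν <;> simp_all [rf, Function.update_apply]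

/-- the net of local polynomials in fields with labels -/
def netL (hθ : Inv4 θ) : Net (PolL V) :=
  gen (fun v => rename fun p => (p.1, fun y => p.2 (y - v))) (thL θ) (fun f q => ∃ c, X (c, f) = q)
    (fun Z => by simp only [sub_zero]; exact rename_id_apply Z)
    (fun u v Z => by simp only [rename_rename, Function.comp_def, sub_sub])
    (fun μ c Z => by simp [thL, smul_eq_C_mul])
    (fun μ Z => RingHom.congr_fun (f := (thL θ μ).comp (thL θ μ)) (g := RingHom.id _)
      (ringHom_ext (by simp [thL]) (by simp [thL, hθ.1])) Z)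
    (fun μ ν Z => RingHom.congr_fun (f := (thL θ μ).comp (thL θ ν)) (g := (thL θ ν).comp (thL θ μ))
      (ringHom_ext (by simp [thL]) (by simp [thL, hθ.2 μ ν, rf_comm μ ν])) Z)
    (fun μ v Z => by
      have e : ∀ y, rf μ (y - rf μ v) = rf μ y - v := fun y => by
        rw [← rfL_eq, map_sub, rfL_eq, rf_rf]
      simp only [thL, RingHom.comp_apply, map_rename, AlgHom.toRingHom_eq_coe, RingHom.coe_coe,
        rename_rename, Function.comp_def, e])
    (fun v f _ _ ⟨c, e⟩ => ⟨c, by rw [← e, rename_X]⟩)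
    (fun μ f _ _ ⟨c, e⟩ => ⟨θ μ c, by simp [← e, thL]⟩)

theorem gen_netL (hθ : Inv4 θ) : Gen (netL hθ) (fun c f => X (c, f)) θ :=
  ⟨fun _ => rfl, fun _ _ _ => rename_X _ _, fun _ _ _ => by simp [netL, gen, thL]⟩

/-- the field `X f` has the label `c₀` -/
def emb (c₀ : V) : Pol →ₐ[ℂ] PolL V := rename fun f => (c₀, f)

theorem emb_mem (hθ : Inv4 θ) (c₀ : V) {U : Set R4} {Z : Pol} (h : Z ∈ net.loc U) :
    emb c₀ Z ∈ (netL hθ).loc U :=
  span_map' (A := Mon U) (map_add _) (fun c X => ⟨c, map_smul _ c X⟩) (by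
    rintro _ ⟨k, f, a, b, rfl⟩
    exact Submodule.subset_span ⟨k, f, fun i => X (c₀, f i), a, fun i => ⟨b i, c₀, rfl⟩,
      by simp [emb, mon]⟩) h

/-- substitution of the approximants -/
def sub (O : V → (R4 → ℝ) → Pol) : PolL V →ₐ[ℂ] Pol := aeval fun p => O p.1 p.2

end Pool.Agent.Lib.MP_7f377f_mp.Lm
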