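import Pool.Agent.Lib.MP_7f377f_mp.G.WxB0
import Pool.Agent.Lib.MP_7f377f_mp.G.LgQM
import Pool.Agent.Lib.MP_7f377f_mp.G.LmE

/-! Operator bounds for words of fields with labels from the product bound for cells. -/

noncomputable section

namespace Pool.Agent.Lib.MP_7f377f_mp.Wx
variable [Pool.Agent.Lib.MP_7f377f_mp.GD]
set_option linter.unusedSectionVars false

open Filter Topology Set YM7 Pur Lg Wm Lm Wv
open scoped NNReal Pointwise

variable {V P : Type} [CommRing P] [Algebra ℂ P] (N : Net P) (x : V → (R4 → ℝ) → P)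
  (S : P →ₗ[ℂ] ℂ)

/-- the product bound for sources of size `h` whose coordinates are close or well separated -/
def PBT (A : Set V) (h B : ℝ) : Prop :=
  ∀ (k : ℕ) (a : Fin k → V) (z : Fin k → R4) (f : Fin k → R4 → ℝ), Adm f → (∀ i, a i ∈ A) →
    (∀ i y, |f i y| ≤ 1 ∧ (f i y ≠ 0 → ∀ l, |y l - z i l| ≤ h)) →
    (∀ i j l, |z i l - z j l| ≤ h ∨ 100 * h ≤ |z i l - z j l|) →
    (∀ i j, i ≠ j → ∃ l, 100 * h ≤ |z i l - z j l|) → ‖S (∏ i, x (a i) (f i))‖ ≤ B ^ k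

/-- the product bound with polynomial growth -/
def ProdL : Prop := ∀ A : Set V, A.Finite → ∃ (C : ℝ) (s : ℕ), 0 ≤ C ∧
  ∀ h ∈ Ioc (0 : ℝ) 1, PBT x S A h (C / h ^ s)

/-- the operator bound for words in the supremum norm -/
def QBd : Prop := ∀ k (c : Fin k → V) (K : Fin k → Set R4), (∀ i, IsCompact (K i)) →
  (Pairwise fun i j => Disjoint (K i) (K j)) → ∃ R C : ℝ, 0 ≤ C ∧
    ∀ (g : Fin k → R4 → ℝ) (b : Fin k → ℝ), (∀ i, C1 (K i) (g i) ∧ ∀ y, |g i y| ≤ b i) →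
      N.QB S (∏ i, x (c i) (g i)) R (C * ∏ i, b i)

/-- the operator bound for one field in the supremum norm with an explicit radius -/
def Q1S : Prop := ∃ K : ℝ, 1 ≤ K ∧ ∀ c, ∃ (C : ℝ) (s : ℕ), 0 ≤ C ∧ ∀ d ∈ Ioc (0 : ℝ) 1,
  ∀ (g : R4 → ℝ) (b : ℝ), C1 (Bx d) g → (∀ y, |g y| ≤ b) →
    N.QB S (x c g) (K * d) (C / d ^ s * b)

variable {N x S} {θ : Fin 4 → V → V}

/-- powers of an involution -/
def pw (f : V → V) (b : Bool) : V → V := bif b then id else f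

/-- the labels in the reflected cells -/
def tw (θ : Fin 4 → V → V) (e : Fin 4 → Bool) (c : V) : V :=
  pw (θ 0) (e 0) (pw (θ 1) (e 1) (pw (θ 2) (e 2) (pw (θ 3) (e 3) c)))

theorem θ_tw (hθ : Inv4 θ) (μ e c) : θ μ (tw θ e c) = tw θ (Function.update e μ (!e μ)) c := by
  have a : ∀ μ ν b c, θ μ (pw (θ ν) b c) = pw (θ ν) b (θ μ c) := fun μ ν b c => by
    cases b <;> simp [pw, hθ.2 μ ν]
  have b : ∀ μ b c, pw (θ μ) (!b) c = pw (θ μ) b (θ μ c) := fun μ b c => by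
    cases b <;> simp [pw, hθ.1]
  fin_cases μ <;> simp [tw, a, b]

theorem tw_mem {A : Set V} (hA : ∀ μ, ∀ c ∈ A, θ μ c ∈ A) (e) {c : V} (h : c ∈ A) :
    tw θ e c ∈ A := by
  have a : ∀ μ b c, c ∈ A → pw (θ μ) b c ∈ A := fun μ b c h => by
    cases b
    exacts [hA μ c h, h]
  exact a _ _ _ (a _ _ _ (a _ _ _ (a _ _ _ h)))

theorem fin_cl (hθ : Inv4 θ) {k : ℕ} (a : Fin k → V) :
    ∃ A : Set V, A.Finite ∧ (∀ μ, ∀ c ∈ A, θ μ c ∈ A) ∧ ∀ i, a i ∈ A :=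
  ⟨range fun p : (Fin 4 → Bool) × Fin k => tw θ p.1 (a p.2), finite_range _, by
    rintro μ _ ⟨p, rfl⟩
    exact ⟨(_, p.2), (θ_tw hθ μ _ _).symm⟩, fun i => ⟨(fun _ => true, i), rfl⟩⟩

theorem adm_ctr {k : ℕ} {f : Fin k → R4 → ℝ} {z : Fin k → R4} {h : ℝ} (h0 : 0 < h)
    (h1 : ∀ i, ContDiff ℝ 1 (f i)) (h2 : ∀ i y, f i y ≠ 0 → ∀ l, |y l - z i l| ≤ h)
    (h3 : ∀ i j, i ≠ j → ∃ l, 100 * h ≤ |z i l - z j l|) : Adm f := by
  have e : ∀ i y, f i y ≠ 0 → ∀ l, z i l - h ≤ y l ∧ y l ≤ z i l + h := fun i y hy l =>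
    (abs_sub_le_iff.1 (h2 i y hy l)).symm.imp (by intro; linarith) (by intro; linarith)
  refine ⟨fun i => ⟨cpt_box (e i), h1 i⟩, fun i j hij => disjoint_left.2 fun y hi hj => ?_⟩
  obtain ⟨l, hl⟩ := h3 i j hij
  have e1 := tsupp_box (e i) hi l
  have e2 := tsupp_box (e j) hj l
  rcases le_abs.1 hl with a | a <;> linarith [e1.1, e1.2, e2.1, e2.2]

theorem cell (hG : Gen N x θ) (hθ : Inv4 θ) (hS : N.St S) {A : Set V} {w h B : ℝ} (B0 : 0 ≤ B)
    (hA : ∀ μ, ∀ c ∈ A, θ μ c ∈ A) (hP : PBT x S A h B) (w0 : 0 < w) (h0 : 0 < h) {k : ℕ}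
    (b : Fin k → V) (hb : ∀ i, b i ∈ A) (g : Fin k → R4 → ℝ) (z : Fin k → R4)
    (g1 : ∀ i, ContDiff ℝ 1 (g i))
    (g2 : ∀ i y, |g i y| ≤ 1 ∧ (g i y ≠ 0 → ∀ l, |y l - z i l| ≤ h))
    (z1 : ∀ i j l, |z i l - z j l| ≤ h ∨ 100 * h ≤ |z i l - z j l|)
    (z2 : ∀ i j, i ≠ j → ∃ l, 100 * h ≤ |z i l - z j l|)
    (z3 : ∀ i l, 50 * h ≤ z i l ∧ z i l ≤ w - 50 * h) :
    N.QB S (∏ i, x (b i) (g i)) (2 * w) (B ^ k) := by
  obtain ⟨Z, d1, d2, d3⟩ : ∃ Z : (Fin 4 → ℤ) → Fin k → R4,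
      (∀ a i y, g i (fo w a y) ≠ 0 → ∀ l, |y l - Z a i l| ≤ h) ∧
      (∀ a i l, a l * w + 50 * h ≤ Z a i l ∧ Z a i l ≤ (a l + 1) * w - 50 * h) ∧
      ∀ a a' i j l, a l = a' l → |Z a i l - Z a' j l| = |z i l - z j l| := by
    refine ⟨fun a i => WithLp.toLp 2 fun l =>
      if Even (a l) then z i l + a l * w else (a l + 1) * w - z i l, fun a i y hy l => ?_,
      fun a i l => ?_, fun a a' i j l e => ?_⟩
    · have := abs_le.1 ((g2 i _).2 hy l)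
      rw [abs_le]
      by_cases e : Even (a l) <;> simp only [fo, e, if_true, if_false] at this ⊢ <;>
        constructor <;> linarith [this.1, this.2]
    · by_cases e : Even (a l) <;> simp only [e, if_true, if_false] <;>
        constructor <;> linarith [(z3 i l).1, (z3 i l).2]
    · by_cases e' : Even (a l) <;> simp [← e, e', abs_sub_comm]
  have d4 : ∀ a a' i j l, a l ≠ a' l → 100 * h ≤ |Z a i l - Z a' j l| := fun a a' i j l e => by
    have e1 := d2 a i l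
    have e2 := d2 a' j l
    rw [le_abs]
    rcases lt_or_gt_of_ne e with u | u
    · have : (a l + 1 : ℝ) ≤ a' l := by exact_mod_cast u
      exact .inr (by nlinarith [e1.2, e2.1])
    · have : (a' l + 1 : ℝ) ≤ a l := by exact_mod_cast u
      exact .inl (by nlinarith [e1.1, e2.2])
  have d5 : ∀ a a' i j, (a, i) ≠ (a', j) → ∃ l, 100 * h ≤ |Z a i l - Z a' j l| :=
    fun a a' i j e => by
      by_cases u : a = a'
      · exact (z2 i j fun v => e (Prod.ext u v)).imp fun l v => by rwa [d3 _ _ _ _ _ (congrFun u l)]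
      · exact (Function.ne_iff.1 u).imp fun l => d4 _ _ _ _ l
  have := Net.qb_of_arr hS w0 (η := B ^ k) (by positivity)
    (fun a => ∏ i, x (tw θ (fun l => Even (a l)) (b i)) fun y => g i (fo w a y)) (fun a => ?_)
    (fun μ a => ?_) (fun μ a => ?_) fun lo hi => ?_
  · simpa [fo_zero, tw, pw] using this
  · refine gen_mem hG _ (adm_ctr h0 (fun i => (g1 i).comp (fo_smooth _ a)) (d1 a)
      fun i j u => d5 a a i j (by simpa using u)) fun i y hy l => ?_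
    have e1 := tsupp_box (lo := fun l => Z a i l - h) (hi := fun l => Z a i l + h) (fun y hy l =>
      (abs_sub_le_iff.1 (d1 a i y hy l)).symm.imp (by intro; linarith) (by intro; linarith)) hy l
    constructor <;> linarith [e1.1, e1.2, (d2 a i l).1, (d2 a i l).2]
  · simp only [Θ_word hG, fo_rf, θ_tw hθ]
    refine Finset.prod_congr rfl fun i _ => congrArg (fun e => x (tw θ e _) _) (funext fun l => ?_)
    by_cases e : l = μ <;> simp [e, ← Int.not_even_iff_odd, Int.even_sub_one]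
  · simp only [τ_word hG, fo_ax]
    refine Finset.prod_congr rfl fun i _ => congrArg (fun e => x (tw θ e _) _) (funext fun l => ?_)
    by_cases e : l = μ <;> simp [e, Int.even_add]
  · let ψ := (Fintype.equivFin (cells lo hi × Fin k)).symm
    have e1 : ∀ j j', j ≠ j' → ∃ l, 100 * h ≤ |Z (ψ j).1 (ψ j).2 l - Z (ψ j').1 (ψ j').2 l| :=
      fun j j' u => d5 _ _ _ _ fun v => u (ψ.injective
        (Prod.ext (Subtype.ext (Prod.ext_iff.1 v).1) (Prod.ext_iff.1 v).2))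
    rw [← Finset.prod_coe_sort, ← Fintype.prod_prod_type', ← ψ.prod_comp]
    refine (hP _ _ (fun j => Z (ψ j).1 (ψ j).2) _
      (adm_ctr (f := fun j y => g (ψ j).2 (fo w (ψ j).1 y)) h0
        (fun j => (g1 _).comp (fo_smooth _ _)) (fun j => d1 _ _) e1) (fun j => tw_mem hA _ (hb _))
      (fun j y => ⟨(g2 _ _).1, d1 _ _ y⟩) (fun j j' l => ?_) e1).trans_eq ?_
    · by_cases u : (ψ j).1.1 l = (ψ j').1.1 l
      · exact d3 _ _ _ _ _ u ▸ z1 _ _ l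
      · exact .inr (d4 _ _ _ _ l u)
    · rw [Fintype.card_prod, Fintype.card_coe, Fintype.card_fin, mul_comm, pow_mul]

theorem gap {I : Type} [Fintype I] (d : I → ℝ) {c : ℝ} (c0 : 0 < c) :
    ∃ n ≤ Fintype.card I, ∀ p, d p ≤ c / 100 ^ n ∨ 100 * (c / 100 ^ n) ≤ d p := by
  by_contra! H
  choose p h1 h2 using fun n : Fin (Fintype.card I + 1) => H n (Nat.lt_succ_iff.1 n.2)
  have e : ∀ n m, n < m → p n ≠ p m := fun n m u v => by
    have : 100 * (c / 100 ^ (m : ℕ)) ≤ c / 100 ^ (n : ℕ) := by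
      rw [← mul_div_assoc, div_le_div_iff₀ (by positivity) (by positivity), mul_comm 100, mul_assoc,
        ← pow_succ']
      exact mul_le_mul_of_nonneg_left (pow_le_pow_right₀ (by norm_num) u) c0.le
    linarith [h1 n, h2 m, congrArg d v]
  obtain ⟨n, m, u, v⟩ := Fintype.exists_ne_map_eq_of_card_lt p (by simp)
  exact (lt_or_gt_of_ne u).elim (e n m · v) (e m n · v.symm)

/-- the scale covariant form -/
theorem qb_scale (hG : Gen N x θ) (hθ : Inv4 θ) (hS : N.St S) (hL : LinF N x S) {k : ℕ}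
    (K : Fin k → Set R4) (hK : ∀ i, IsCompact (K i))
    (hd : Pairwise fun i j => Disjoint (K i) (K j)) :
    ∃ H : Finset ℝ, (∀ h ∈ H, h ∈ Ioc (0 : ℝ) 1) ∧ ∃ R M : ℝ, 0 ≤ M ∧ ∀ t > (0 : ℝ),
      ∀ (A : Set V) (B : ℝ), 0 ≤ B → (∀ μ, ∀ c ∈ A, θ μ c ∈ A) → (∀ h ∈ H, PBT x S A (t * h) B) →
      ∀ (a : Fin k → V) (g : Fin k → R4 → ℝ) (b : Fin k → ℝ), (∀ i, a i ∈ A) →
        (∀ i, C1 (K i) (g i) ∧ ∀ y, |g i y| ≤ b i) →
        N.QB S (∏ i, x (a i) fun y => g i (t⁻¹ • y)) (t * R) (M * B ^ k * ∏ i, b i) := by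
  obtain ⟨δ, δ0, hδ⟩ := (isCompact_iUnion fun p : {p : Fin k × Fin k // p.1 ≠ p.2} =>
    (hK p.1.1).prod (hK p.1.2)).exists_forall_le' (f := fun q => dist q.1 q.2) (a := 0)
    (by fun_prop) fun q hq => by
      obtain ⟨p, h1, h2⟩ := mem_iUnion.1 hq
      exact dist_pos.2 fun e => disjoint_left.1 (hd p.2) h1 (e ▸ h2)
  obtain ⟨r, hr⟩ := (isCompact_iUnion hK).isBounded.exists_norm_le
  obtain ⟨c, c0, c1, c2⟩ : ∃ c > (0 : ℝ), c ≤ 1 ∧ 7 * c ≤ δ :=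
    ⟨min 1 (δ / 7), by positivity, min_le_left _ _, by linarith [min_le_right 1 (δ / 7)]⟩
  obtain ⟨n, hn⟩ : ∃ n, n = Fintype.card (Fin k × Fin k × Fin 4) := ⟨_, rfl⟩
  obtain ⟨η, η0, η1⟩ : ∃ η > (0 : ℝ), ∀ m ≤ n, η ≤ c / 100 ^ m :=
    ⟨c / 100 ^ n, by positivity, fun m hm => by gcongr; norm_num⟩
  have η2 : ∀ m : ℕ, c / 100 ^ m ≤ c := fun m => div_le_self c0.le (one_le_pow₀ (by norm_num))
  obtain ⟨D, hD⟩ := exists_nat_ge (r / η)
  rw [div_le_iff₀' η0] at hD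
  obtain ⟨R, hR⟩ : ∃ R, R = 2 * (2 * (η * D + 50)) + ‖dg (η * D + 50)‖ := ⟨_, rfl⟩
  refine ⟨(Finset.range (n + 1)).image (c / 100 ^ ·), fun h hh => ?_, max R (|r| + 1),
    Fintype.card (Fin k → Fin 4 → Fin (2 * D + 1)), by positivity,
    fun t t0 A B B0 hA hP a g b ha hg => ?_⟩
  · obtain ⟨m, -, rfl⟩ := Finset.mem_image.1 hh
    exact ⟨by positivity, (η2 m).trans c1⟩
  have R0 : 0 ≤ t * max R (|r| + 1) := by positivity
  obtain ⟨p, hp⟩ : ∃ p : Fin k → (Fin 4 → Fin (2 * D + 1)) → R4 → ℝ, ∀ i z y, p i z y =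
    (b i)⁻¹ * (bumpS η (fun l => z l - D) (t⁻¹ • y) * g i (t⁻¹ • y)) := ⟨_, fun _ _ _ => rfl⟩
  have p0 : ∀ i z y, p i z y ≠ 0 → bumpS η (fun l => z l - D) (t⁻¹ • y) ≠ 0 ∧ g i (t⁻¹ • y) ≠ 0 :=
    fun i z y hy => mul_ne_zero_iff.1 (right_ne_zero_of_mul (hp i z y ▸ hy :))
  have p1 : ∀ i z y, p i z y ≠ 0 → t⁻¹ • y ∈ K i := fun i z y hy =>
    (hg i).1.2.2 (subset_tsupport _ (p0 i z y hy).2)
  have p2 : ∀ i z, C1 {y | t⁻¹ • y ∈ K i} (p i z) := fun i z =>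
    ⟨((hg i).1.1.comp_homeomorph (Homeomorph.smulOfNeZero t⁻¹ (inv_ne_zero t0.ne'))).mono
      fun y hy => (p0 i z y hy).2, funext (hp i z) ▸ contDiff_const.mul
        (((bumpS_smooth _ _).mul (hg i).1.2.1).comp (contDiff_id.const_smul _)),
      closure_minimal (p1 i z) ((hK i).isClosed.preimage (by fun_prop))⟩
  have b0 : ∀ i, 0 ≤ b i := fun i => (abs_nonneg _).trans ((hg i).2 0)
  have nr : ∀ i y, y ∈ K i → ∀ l, |y l| ≤ r := fun i y hy l =>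
    (PiLp.norm_apply_le y l).trans (hr y (mem_iUnion.2 ⟨i, hy⟩))
  have p3 : ∀ i, (fun y => g i (t⁻¹ • y)) = ∑ z, b i • p i z := fun i => by
    funext y
    by_cases e1 : g i (t⁻¹ • y) = 0
    · simp [hp, e1]
    · have e2 : b i ≠ 0 := fun u => e1 (by simpa [u] using (hg i).2 (t⁻¹ • y))
      simp only [Finset.sum_apply, Pi.smul_apply, hp, smul_eq_mul, mul_inv_cancel_left₀ e2,
        ← Finset.sum_mul]
      rw [sum_bumpS η0 fun l => (nr i _ ((hg i).1.2.2 (subset_tsupport _ e1)) l).trans hD, one_mul]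
  have o1 : Pairwise fun i j => Disjoint {y : R4 | t⁻¹ • y ∈ K i} {y | t⁻¹ • y ∈ K j} :=
    fun i j e => (hd e).preimage _
  have o2 : ∀ i, {y : R4 | t⁻¹ • y ∈ K i} ⊆ Bx (t * max R (|r| + 1)) := fun i y hy l => by
    have := nr i _ hy l
    rw [PiLp.smul_apply, smul_eq_mul, abs_mul, abs_of_pos (inv_pos.2 t0), inv_mul_le_iff₀ t0] at this
    exact this.trans_lt (mul_lt_mul_of_pos_left (((le_abs_self r).trans_lt (lt_add_one _)).trans_le
      (le_max_right _ _)) t0)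
  simp only [p3]
  refine (qb_sum hL hG hS a o1 p2 (fun i _ => b i) R0 o2 (B := fun _ => B ^ k) fun z => ?_).mono hS
    le_rfl (by simp [abs_of_nonneg (Finset.prod_nonneg fun i _ => b0 i), mul_assoc, mul_comm])
  by_cases h0 : ∃ i, p i (z i) = 0
  · exact (qb_zero hL hG hS a (adm_of o1 fun i => p2 i _) R0 (fun i => (p2 i _).2.2.trans (o2 i))
      h0.choose_spec).mono hS le_rfl (by positivity)
  obtain ⟨Z, hZ⟩ : ∃ Z : Fin k → Fin 4 → ℝ, ∀ i l, Z i l = η * ((z i l : ℤ) - D : ℤ) :=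
    ⟨_, fun _ _ => rfl⟩
  have key : ∀ i y, p i (z i) y ≠ 0 → ∀ l, |(t⁻¹ • y) l - Z i l| ≤ η := fun i y hy l =>
    hZ i l ▸ bumpS_supp η0 (p0 _ _ y hy).1 l
  obtain ⟨m, m1, m2⟩ := gap (fun q : Fin k × Fin k × Fin 4 => |Z q.1 q.2.2 - Z q.2.1 q.2.2|) c0
  have e0 := η1 m (hn ▸ m1)
  have e1 := η2 m
  replace hP := hP _ (Finset.mem_image_of_mem _ (Finset.mem_range_succ_iff.2 (hn ▸ m1)))
  generalize c / 100 ^ m = h at *
  have sc : ∀ i j l, |t * (Z i l + (η * D + 50)) - t * (Z j l + (η * D + 50))| =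
      t * |Z i l - Z j l| := fun i j l => by
    rw [← mul_sub, add_sub_add_right_eq_sub, abs_mul, abs_of_pos t0]
  have := (cell hG hθ hS B0 hA hP (w := t * (2 * (η * D + 50))) (by positivity)
    (mul_pos t0 (η0.trans_le e0)) a ha (fun i y => p i (z i) (y - t • dg (η * D + 50)))
    (fun i => WithLp.toLp 2 fun l => t * (Z i l + (η * D + 50)))
    (fun i => (p2 i _).2.1.comp (contDiff_id.sub contDiff_const)) (fun i y => ⟨?_, fun hy l => ?_⟩)
    (fun i j l => ?_) (fun i j e => ?_) fun i l => ?_).tau hS (-(t • dg (η * D + 50)))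
  · simp only [τ_word hG, sub_neg_eq_add, add_sub_cancel_right] at this
    refine this.mono hS ?_ le_rfl
    rw [norm_neg, norm_smul_of_nonneg t0.le]
    linarith [mul_le_mul_of_nonneg_left (hR.ge.trans (le_max_left R (|r| + 1))) t0.le]
  · rw [hp, abs_mul, abs_mul, abs_of_nonneg (inv_nonneg.2 (b0 i))]
    exact (mul_le_mul_of_nonneg_left ((mul_le_of_le_one_left (abs_nonneg _) (abs_bumpS _ _ _)).trans
      ((hg i).2 _)) (inv_nonneg.2 (b0 i))).trans inv_mul_le_one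
  · have e := mul_le_mul_of_nonneg_left ((key i _ hy l).trans e0) t0.le
    rw [← abs_of_pos t0, ← abs_mul, abs_of_pos t0] at e
    refine le_of_eq_of_le (congrArg _ ?_) e
    simp [mul_sub, mul_add, t0.ne', sub_sub, add_comm]
  · simp only [sc, mul_left_comm (100 : ℝ), mul_le_mul_iff_right₀ t0]
    exact m2 (i, j, l)
  · simp only [sc, mul_left_comm (100 : ℝ), mul_le_mul_iff_right₀ t0]
    by_contra! hi
    simp only [not_exists, funext_iff, not_forall] at h0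
    obtain ⟨y, hy⟩ := h0 i
    obtain ⟨y', hy'⟩ := h0 j
    refine (hδ (_, _) (mem_iUnion.2 ⟨⟨(i, j), e⟩, p1 _ _ y hy, p1 _ _ y' hy'⟩)).not_gt
      ((dist_le_two (w := 3 * h) fun l => ?_).trans_lt (by linarith))
    have e1 := abs_le.1 (key i y hy l)
    have e2 := abs_le.1 (key j y' hy' l)
    have e3 := abs_le.1 ((m2 (i, j, l)).resolve_right (hi l).not_ge)
    rw [abs_le]
    constructor <;> linarith [e1.1, e1.2, e2.1, e2.2, e3.1, e3.2]
  · have e2 : (0 : ℝ) ≤ z i l := by positivity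
    have e3 : (z i l : ℝ) ≤ 2 * D := by exact_mod_cast Nat.lt_succ_iff.1 (z i l).2
    have e4 : |Z i l| ≤ η * D := by
      rw [hZ, abs_mul, abs_of_pos η0]
      push_cast
      exact mul_le_mul_of_nonneg_left (abs_le.2 ⟨by linarith, by linarith⟩) η0.le
    constructor <;> nlinarith [abs_le.1 e4]

theorem ProdL.fin (hP : ProdL x S) {H : Finset ℝ} (hH : ∀ h ∈ H, h ∈ Ioc (0 : ℝ) 1) {A : Set V}
    (hA : A.Finite) : ∃ (C : ℝ) (s : ℕ), 0 ≤ C ∧ ∀ t ∈ Ioc (0 : ℝ) 1, ∀ h ∈ H,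
      PBT x S A (t * h) (C / t ^ s) := by
  obtain ⟨C, s, C0, e⟩ := hP A hA
  have p : ∀ h ∈ H, 0 ≤ C / h ^ s := fun h hh => div_nonneg C0 (pow_pos (hH h hh).1 s).le
  refine ⟨∑ h ∈ H, C / h ^ s, s, Finset.sum_nonneg p, fun t ht h hh k a z f f1 f2 f3 f4 f5 =>
    (e _ ⟨mul_pos ht.1 (hH h hh).1, mul_le_one₀ ht.2 (hH h hh).1.le (hH h hh).2⟩ k a z f f1 f2 f3 f4
      f5).trans (pow_le_pow_left₀ (div_nonneg C0 (pow_pos (mul_pos ht.1 (hH h hh).1) s).le) ?_ k)⟩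
  rw [mul_pow, mul_comm, ← div_div]
  exact div_le_div_of_nonneg_right (Finset.single_le_sum p hh) (pow_pos ht.1 s).le

theorem qbd_of (hG : Gen N x θ) (hθ : Inv4 θ) (hS : N.St S) (hL : LinF N x S) (hP : ProdL x S) :
    QBd N x S := fun k c K hK hd => by
  obtain ⟨H, hH, R, M, M0, h⟩ := qb_scale hG hθ hS hL K hK hd
  obtain ⟨A, a1, a2, a3⟩ := fin_cl hθ c
  obtain ⟨C, s, C0, e⟩ := hP.fin hH a1
  exact ⟨R, M * C ^ k, by positivity, fun g b hg => by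
    simpa using h 1 one_pos A _ (by positivity) a2 (e 1 ⟨one_pos, le_rfl⟩) c g b a3 hg⟩

theorem q1s_of (hG : Gen N x θ) (hθ : Inv4 θ) (hS : N.St S) (hL : LinF N x S) (hP : ProdL x S) :
    Q1S N x S := by
  obtain ⟨H, hH, R, M, M0, h⟩ := qb_scale hG hθ hS hL (fun _ : Fin 1 => Metric.closedBall 0 2)
    (fun _ => isCompact_closedBall 0 2) Subsingleton.pairwise
  refine ⟨max 1 R, le_max_left _ _, fun c => ?_⟩
  obtain ⟨A, a1, a2, a3⟩ := fin_cl hθ fun _ : Fin 1 => c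
  obtain ⟨C, s, C0, e⟩ := hP.fin hH a1
  refine ⟨M * C, s, by positivity, fun d ⟨d0, d1⟩ g b hg hb => ?_⟩
  have := h d d0 A _ (by positivity) a2 (e d ⟨d0, d1⟩) (fun _ => c)
    (fun _ y => g (d • y)) (fun _ => b) a3 fun _ =>
      ⟨⟨hg.1.comp_homeomorph (Homeomorph.smulOfNeZero d d0.ne'),
        hg.2.1.comp (contDiff_id.const_smul d), fun y hy =>
          (dist_le_two (w := 1) fun l => ?_).trans_eq (mul_one 2)⟩, fun _ => hb _⟩
  · simp only [smul_inv_smul₀ d0.ne', Fin.prod_univ_one, pow_one] at this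
    exact this.mono hS (mul_comm d R ▸ mul_le_mul_of_nonneg_right (le_max_right _ _) d0.le)
      (le_of_eq (by ring))
  · have := hg.2.2 (tsupport_comp (θ := fun y => d • y) (by fun_prop) hy) l
    rw [PiLp.smul_apply, smul_eq_mul, abs_mul, abs_of_pos d0] at this
    simpa using ((mul_lt_iff_lt_one_right d0).1 this).le

theorem QBd.all (h : QBd N x S) (hG : Gen N x θ) (hS : N.St S) :
    ∀ Z ∈ N.loc univ, ∃ R c, N.QB S Z R c := fun Z hZ => by
  obtain ⟨m, c, k, a, f, f1, -, rfl⟩ := exists_sum hG hZ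
  choose R C _ H using fun j => h _ (a j) _ (fun i => ((f1 j).1 i).1) (f1 j).2
  choose D q _ d2 _ using fun j => (f1 j).data
  have e := fun j => H j (f j) (fun _ => D j) fun i => ⟨c1_of (f1 j) i, (d2 j i).2⟩
  exact ⟨∑ j, R j, _, Net.QB.sum hS _ (Finset.sum_nonneg fun j _ => (e j).2.1) fun j _ =>
    ((e j).mono hS (Finset.single_le_sum (fun j _ => (e j).2.1) (Finset.mem_univ j)) le_rfl).smul _⟩

theorem Q1S.q1l (h : Q1S N x S) (hS : N.St S) : Q1L N x S := h.imp fun _ h => ⟨h.1, fun c =>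
  let ⟨C, s, C0, H⟩ := h.2 c
  ⟨C * 5, s, by positivity, fun d hd g L g1 g2 => (H d hd g _ g1 (sup_le g2 zero_le_two fun y hy => by
    simpa using dist_le_two (z := 0) (w := 1) fun l => by
      simpa using (g1.2.2 (subset_tsupport _ hy) l).le.trans hd.2)).mono hS le_rfl
    (le_of_eq (by ring))⟩⟩

theorem QBd.bd (h : QBd N x S) (hS : N.St S) (k : ℕ) (c : Fin k → V) (K : Fin k → Set R4)
    (hK : ∀ i, IsCompact (K i)) (hd : Pairwise fun i j => Disjoint (K i) (K j)) :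
    ∃ C : ℝ, ∀ (g : Fin k → R4 → ℝ) (b : Fin k → ℝ), (∀ i, C1 (K i) (g i) ∧ ∀ y, |g i y| ≤ b i) →
      ‖S (∏ i, x (c i) (g i))‖ ≤ C * ∏ i, b i :=
  let ⟨_, C, _, H⟩ := h k c K hK hd
  ⟨C, fun g b hg => hS.bound (H g b hg)⟩

theorem QBd.dom {W : P →ₗ[ℂ] ℂ} (h : QBd N x S) (hD : N.Dom S W) : QBd N x W :=
  fun k c K hK hd =>
    let ⟨R, C, C0, H⟩ := h k c K hK hd
    ⟨R, C, C0, fun g b hg => hD.qb (H g b hg)⟩

theorem Q1S.dom {W : P →ₗ[ℂ] ℂ} (h : Q1S N x S) (hD : N.Dom S W) : Q1S N x W :=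
  h.imp fun _ h => ⟨h.1, fun c =>
    let ⟨C, s, C0, H⟩ := h.2 c
    ⟨C, s, C0, fun d hd g b g1 g2 => hD.qb (H d hd g b g1 g2)⟩⟩

end Pool.Agent.Lib.MP_7f377f_mp.Wx
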