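import Pool.Agent.Lib.MP_7f377f_mp.G.ZgD
import Pool.Agent.Lib.MP_7f377f_mp.G.BwD
import Pool.Agent.Lib.MP_7f377f_mp.G.WxB

/-! The input for the continuum limit of all fields. -/

noncomputable section

namespace Pool.Agent.Lib.MP_7f377f_mp.Zg
variable [Pool.Agent.Lib.MP_7f377f_mp.GD]

open Filter Topology Set YM7 Pur Wm Lm Wv S3 Sw MvPolynomial
open Ro (Iso prm)
open scoped ContDiff

variable {V P : Type} [NormedAddCommGroup V] [NormedSpace ℝ V] [CommRing P] [Algebra ℂ P]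
  (Φ : Fil V) (N : Net P) (x : V → (R4 → ℝ) → P) (S : P →ₗ[ℂ] ℂ) (ρ : Iso →* V →ₗ[ℝ] V)
  (A : ℝ → V ≃ₗ[ℝ] V) (S₀ : Cor V) (φ u lg : V)

/-- short distance expansions -/
structure Bl : Prop where
  mg1 : ∀ d, ∀ c ∈ Φ.F d, Merge Φ N x S 1 ![c] 5 (d + 1)
  mg2 : ∀ a ∈ Φ.F 4, ∀ d, ∀ c ∈ Φ.F d,
    Merge Φ N x S 2 ![a, c] 5 (d + 1) ∧ Merge Φ N x S 2 ![a, c] 4 d
  af : ∀ k (c : Fin k → V) f, Adm f →
    Tendsto (fun t : ℝ => S (∏ i, x (A t (c i)) fun y => f i (t⁻¹ • y))) (𝓝[>] 0) (𝓝 (S₀ k c f))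
  bd : Zo.Bdu x S A
  mu : Zo.Mu2 Φ x S A S₀

/-- the expansions hold in all states below `S` -/
structure Bs : Prop where
  bl : ∀ W : P →ₗ[ℂ] ℂ, W 1 = 1 → N.Dom S W → Bl Φ N x W A S₀
  mg : ∀ h n, Ope.Rd h → ContDiff ℝ ∞ h → ‖n‖ = 1 → ∃ m, ∀ W : P →ₗ[ℂ] ℂ, W 1 = 1 → N.Dom S W →
    Bw.Mg Φ N x S W (aeval (x φ)) (Ope.hn h n) m

/-- the labels -/
structure La : Prop where
  mem : φ ∈ Φ.F 4
  rf : ∀ μ, ρ (rfL μ) φ = φ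
  pm : ∀ σ, ρ (prm σ) φ = φ
  up : ∀ t, Φ.Up 0 (A t) ∧ Φ.Up 0 (A t).symm
  c1 : ∀ t μ c, A t (ρ (rfL μ) c) = ρ (rfL μ) (A t c)
  c2 : ∀ t σ c, A t (ρ (prm σ) c) = ρ (prm σ) (A t c)
  sg : Tendsto (fun t => (A t).symm ((11 * GD.b0 / (48 * Real.pi ^ 2) * Real.log t⁻¹) • φ)) (𝓝[>] 0)
    (𝓝 lg)

/-- the limit state -/
structure Sl : Prop where
  gen : Gen N x fun μ => ρ (rfL μ)
  st : N.St S
  lin : LinF N x S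
  linc : ∀ (t : ℝ) a b g, C1 univ g → ∀ Z ∈ N.loc (tsupport g)ᶜ,
    S (x (t • a + b) g * Z) = t * S (x a g * Z) + S (x b g * Z)
  prod : Wx.ProdL x S
  real : ∀ k (c : Fin k → V) f, Adm f → (S (∏ i, x (c i) (f i))).im = 0
  iv : ∀ σ, Bw.Iv x S ρ (prm σ)
  unit : ∀ f, C1 univ f → ∀ Z ∈ N.loc (tsupport f)ᶜ, S (x u f * Z) = (∫ y, f y : ℝ) * S Z

end Pool.Agent.Lib.MP_7f377f_mp.Zg
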