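import Pool.Agent.Lib.MP_7f377f_mp.G.SwK

/-! Rotation covariance from the stress tensor: short distances. -/

noncomputable section

namespace Pool.Agent.Lib.MP_7f377f_mp.Sw
variable [Pool.Agent.Lib.MP_7f377f_mp.GD]
set_option linter.unusedSectionVars false

open Filter Topology Set YM7 Pur Wm Lm Wv S3 Function Matrix
open Ro (Iso rot)
open scoped ContDiff

variable {O : Set R4} {f ξ : R4 → ℝ} {k : ℕ} {t : ℝ}

theorem appM {ι E : Type} [NormedAddCommGroup E] [NormedSpace ℝ E] [FiniteDimensional ℝ E]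
    {l : Filter ι} [l.NeBot] {M : ι → MultilinearMap ℝ (fun _ : Fin k => E) ℂ}
    {M₀ : (Fin k → E) → ℂ} (h : ∀ c, Tendsto (fun t => M t c) l (𝓝 (M₀ c))) {v : ι → Fin k → E}
    {v₀ : Fin k → E} (hv : ∀ i, Tendsto (fun t => v t i) l (𝓝 (v₀ i))) :
    Tendsto (fun t => M t (v t)) l (𝓝 (M₀ v₀)) := by
  let b := Module.finBasis ℝ E
  have e : ∀ t c, M t c = ∑ r : Fin k → _, (∏ i, b.coord (r i) (c i)) • M t fun i => b (r i) :=
    fun t c => (congrArg (M t) (funext fun i => (b.sum_repr (c i)).symm)).trans (by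
      simp only [MultilinearMap.map_sum, MultilinearMap.map_smul_univ, Module.Basis.coord_apply])
  have k : ∀ {v : ι → Fin k → E}, (∀ i, Tendsto (fun t => v t i) l (𝓝 (v₀ i))) →
      Tendsto (fun t => M t (v t)) l
        (𝓝 (∑ r : Fin k → _, (∏ i, b.coord (r i) (v₀ i)) • M₀ fun i => b (r i))) := fun hv =>
    (tendsto_finsetSum _ fun r _ => (tendsto_finsetProd _ fun i _ =>
      ((b.coord (r i)).continuous_of_finiteDimensional.tendsto _).comp (hv i)).smul (h _)).congr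
      fun t => (e t _).symm
  exact tendsto_nhds_unique (k fun _ => tendsto_const_nhds) (h v₀) ▸ k hv

/-- scaling of test functions -/
abbrev sc (t : ℝ) (f : R4 → ℝ) : R4 → ℝ := fun y => f (t⁻¹ • y)

theorem adm_sc {g : Fin k → R4 → ℝ} (h : Adm g) (ht : 0 < t) : Adm fun i => sc t (g i) :=
  h.comp (Homeomorph.smulOfNeZero t⁻¹ (inv_ne_zero ht.ne')) (contDiff_const_smul t⁻¹)

theorem ds_sc (h : Ds O f) (ht : 0 < t) : Ds {y | t⁻¹ • y ∈ O} (sc t f) :=
  h.comp (G := fun y => t • y) (contDiff_const_smul _) (by fun_prop)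
    (fun y => smul_inv_smul₀ ht.ne' y) fun z hz => by simpa [inv_smul_smul₀ ht.ne'] using hz

theorem ds_hs (h : Ds (Hs 0 0) f) (ht : 0 < t) : Ds (Hs 0 0) (sc t f) :=
  (ds_sc h ht).mono fun _ hy => by simpa [Hs, ht] using hy

theorem sc_rf (μ : Fin 4) : sc t (fun y => f (rf μ y)) = fun y => sc t f (rf μ y) :=
  funext fun y => congrArg f (rfL_eq μ ▸ map_smul (rfL μ) _ _)

theorem pd_sc (h : ContDiff ℝ ∞ f) (μ : Fin 4) : pd μ (sc t f) = t⁻¹ • sc t (pd μ f) := by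
  funext y
  refine (pd_has (h.comp (contDiff_const_smul _)) μ y).unique ?_
  have := HasDerivAt.scomp (0 : ℝ) (h := fun s => s * t⁻¹) (by simpa using pd_has h μ (t⁻¹ • y))
    (hasDerivAt_mul_const t⁻¹)
  simpa only [comp_def, smul_add, smul_smul, mul_comm t⁻¹] using! this

theorem One.sc (h : One ξ f) (ht : 0 < t) : One (sc t ξ) (sc t f) :=
  ⟨ds_sc h.1 ht, ((continuous_const_smul t⁻¹).tendsto_nhdsSet
    (tsupport_comp_subset_preimage f (continuous_const_smul t⁻¹))).eventually h.2⟩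

theorem adm_two {g : R4 → ℝ} (hf : C1 O f) (hg : C1 Oᶜ g) : Adm ![f, g] :=
  adm_c1 (K := ![O, Oᶜ]) (fun i j e => by
    fin_cases i <;> fin_cases j <;> simp_all [disjoint_compl_right, disjoint_compl_left])
    (Fin.forall_fin_two.2 ⟨hf, hg⟩)

theorem ds_rf (h : Ds (Hs 0 0) f) : Ds (Hs 0 0)ᶜ fun y => f (rf 0 y) := (h.rf 0).mono rf_hs

variable {V P : Type} [NormedAddCommGroup V] [NormedSpace ℝ V] [CommRing P] [Algebra ℂ P]
  {Φ : Fil V} {N : Net P} {x : V → (R4 → ℝ) → P} {W : P →ₗ[ℂ] ℂ} {ρ : Iso →* V →ₗ[ℝ] V}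
  {A : ℝ → V ≃ₗ[ℝ] V} {S : Cor V} {D : ℕ}

theorem Fil.exs (Φ : Fil V) (c : Fin k → V) : ∃ D, ∀ i, c i ∈ Φ.F D := by
  choose d hd using fun i => Φ.ex (c i)
  exact ⟨Finset.univ.sup d, fun i => Φ.mono (Finset.le_sup (Finset.mem_univ i)) (hd i)⟩

namespace Rg
variable (h : Rg Φ N x W ρ A S)
include h

theorem mt {g : Fin k → R4 → ℝ} (hg : Adm g) :
    ∃ M : ℝ → MultilinearMap ℝ (fun _ : Fin k => V) ℂ,
      (∀ t > 0, ∀ c, M t c = W (∏ i, x (A t (c i)) (sc t (g i)))) ∧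
      ∀ c, Tendsto (fun t => M t c) (𝓝[>] 0) (𝓝 (S k c g)) := by
  let M : ℝ → MultilinearMap ℝ (fun _ : Fin k => V) ℂ := fun t => if ht : 0 < t then
    (h.ml (adm_sc hg ht).2 (c1_adm (adm_sc hg ht)) (N.one _)).compLinearMap fun _ => A t else 0
  have e : ∀ t > 0, ∀ c, M t c = W (∏ i, x (A t (c i)) (sc t (g i))) := fun t ht c => by
    simp only [M, dif_pos ht]
    exact congrArg W (mul_one _)
  exact ⟨M, e, fun c => (h.af k c g hg).congr'
    (eventually_mem_nhdsWithin.mono fun t ht => (e t ht c).symm)⟩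

theorem afv {g : Fin k → R4 → ℝ} (hg : Adm g) {c : ℝ → Fin k → V} {c₀ : Fin k → V}
    (c1 : ∀ t i, c t i ∈ Φ.F D) (c2 : ∀ i, Tendsto (fun t => c t i) (𝓝[>] 0) (𝓝 (c₀ i))) :
    Tendsto (fun t => W (∏ i, x (A t (c t i)) (sc t (g i)))) (𝓝[>] 0) (𝓝 (S k c₀ g)) := by
  obtain ⟨M, m1, m2⟩ := h.mt hg
  exact (appM (M := fun t => (M t).compLinearMap fun _ => (Φ.F D).subtype)
    (M₀ := fun c => S k (fun i => c i) g) (fun c => m2 _) (v := fun t i => ⟨c t i, c1 t i⟩)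
    (v₀ := fun i => ⟨c₀ i, (Φ.F D).closed_of_finiteDimensional.mem_of_tendsto (c2 i)
      (.of_forall fun t => c1 t i)⟩) fun i => tendsto_subtype_rng.2 (c2 i)).congr'
    (eventually_mem_nhdsWithin.mono fun t ht => m1 t ht _)

theorem sepA {w : ℝ → V} (hw : ∀ t, w t ∈ Φ.F D) (h0 : ∀ c f, Ds (Hs 0 0) f → Tendsto
    (fun t => W (x (A t (w t)) (sc t f) * x (A t c) (sc t fun y => f (rf 0 y)))) (𝓝[>] 0) (𝓝 0)) :
    Tendsto w (𝓝[>] 0) (𝓝 0) := by
  choose M m1 m2 using fun f : {f // Ds (Hs 0 0) f} => h.mt (adm_two (dc f.2) (dc (ds_rf f.2)))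
  have u : ∀ a c : V, update ![0, c] 0 a = ![a, c] := fun a c =>
    Fin.update_cons_zero (α := fun _ => V) ..
  refine (continuous_subtype_val.tendsto _).comp (sep (E := Φ.F D)
    (L := fun t => LinearMap.pi fun p : V × _ => (M p.2 t).toLinearMap ![0, p.1] 0 ∘ₗ
      (Φ.F D).subtype) (L₀ := fun a p => S 2 ![a, p.1] ![p.2.1, fun y => p.2.1 (rf 0 y)])
    (fun a => tendsto_pi_nhds.2 fun p => by simpa [u] using m2 p.2 _) (fun a n e => ?_)
    (w := fun t => ⟨w t, hw t⟩) (tendsto_pi_nhds.2 fun p => (h0 p.1 _ p.2.2).congr'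
      (eventually_mem_nhdsWithin.mono fun t ht => by simp [u, m1 _ t ht])))
  obtain ⟨f, hf, n⟩ := h.low a (by simpa using n)
  exact n (congrFun e (_, ⟨f, hf⟩))

theorem nd' : Nd x W := fun c hc => by
  by_contra n
  obtain ⟨D, hD⟩ := Φ.ex c
  have := (h.sepA (w := fun t => ‖(A t).symm c‖⁻¹ • (A t).symm c)
    (fun t => (Φ.F D).smul_mem _ ((h.up t).2 D c hD)) fun c' f hf => tendsto_const_nhds.congr'
      (eventually_mem_nhdsWithin.mono fun t ht => by
        simp only [map_smul, LinearEquiv.apply_symm_apply, sc_rf]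
        exact ((congrArg _ (hc _ _ (ds_hs hf ht))).trans (smul_zero _)).symm.trans (map_smul
          (h.lab (dc (ds_hs hf ht)) (h.mem _ (dc (ds_rf (ds_hs hf ht))))) _ c).symm)).norm
  simp [norm_smul, n] at this

theorem ext {a b : V} (e : ∀ f, Ds (Hs 0 0) f → ∀ Z ∈ N.loc (Hs 0 0)ᶜ,
    W (x a f * Z) = W (x b f * Z)) : a = b :=
  sub_eq_zero.1 (h.nd' _ fun c f hf => have m := h.mem c (dc (ds_rf hf))
    (map_sub (h.lab (dc hf) m) a b).trans (sub_eq_zero.2 (e f hf _ m)))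

end Rg

end Pool.Agent.Lib.MP_7f377f_mp.Sw
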