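import Pool.Agent.Lib.MP_7f377f_mp.G.ZhA0
import Pool.Agent.Lib.MP_7f377f_mp.G.ZgFc
import Pool.Agent.Lib.MP_7f377f_mp.G.SwT

/-! The free theory on the space of labels. -/

noncomputable section

namespace Pool.Agent.Lib.MP_7f377f_mp.Zg
variable [Pool.Agent.Lib.MP_7f377f_mp.GD]
set_option linter.unusedSectionVars false

open MeasureTheory MvPolynomial Filter Topology Set YM7 Pur Wm Lm Wv Matrix Sw Zf S3
open Ro (Iso rot)

variable {d : ℕ} {𝒜 : Set (Matrix (Fin d) (Fin d) ℝ)} [o : Og 𝒜]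

theorem low_of {P : Type} [CommRing P] [Algebra ℂ P] {N : Net P} {x : V0 𝒜 → (R4 → ℝ) → P}
    {W : P →ₗ[ℂ] ℂ} {A : ℝ → V0 𝒜 ≃ₗ[ℝ] V0 𝒜} (gen : Gen N x fun μ => r0 𝒜 (rfL μ)) (st : N.St W)
    (comm : ∀ t c, A t (r0 𝒜 (rfL 0) c) = r0 𝒜 (rfL 0) (A t c))
    (af : ∀ (c : Fin 2 → V0 𝒜) f, Adm f → Tendsto (fun t : ℝ =>
      W (∏ i, x (A t (c i)) fun y => f i (t⁻¹ • y))) (𝓝[>] 0) (𝓝 (S0 𝒜 2 c f))) :
    ∀ c ≠ 0, ∃ f, Ds (Hs 0 0) f ∧
      S0 𝒜 2 ![c, r0 𝒜 (rfL 0) c] ![f, fun y => f (rf 0 y)] ≠ 0 := fun c hc => by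
  by_contra! k
  obtain ⟨H, _, _, _, ⟨r⟩⟩ := st.exists_rep 0
  have m : ∀ {f}, Ds (Hs 0 0) f → ∀ b, x b f ∈ N.loc (Hs 0 0) := fun {f} hf b => by
    simpa using gen_mem gen (fun _ : Fin 1 => b) (f := fun _ => f)
      ⟨fun _ => ⟨hf.2.1, (dc hf).2.1⟩, Subsingleton.pairwise⟩ fun _ => hf.2.2
  have lim : ∀ a b {f g}, Ds (Hs 0 0) f → Ds (Hs 0 0) g → Tendsto (fun t : ℝ =>
      inner ℂ (r.Ψ (x (A t b) (Sw.sc t g))) (r.Ψ (x (A t a) (Sw.sc t f)))) (𝓝[>] 0)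
      (𝓝 (S0 𝒜 2 ![a, r0 𝒜 (rfL 0) b] ![f, fun y => g (rf 0 y)])) := fun a b f g hf hg =>
    (af _ _ (adm_two (dc hf) (dc (ds_rf hg)))).congr' (eventually_mem_nhdsWithin.mono fun t ht => by
      simp only [r.inn (m (ds_hs hg ht) _) (m (ds_hs hf ht) _), gen.refl, ← comm, ← sc_rf,
        Fin.prod_univ_two, mul_comm]
      rfl)
  have z : ∀ b {f g}, Ds (Hs 0 0) f → Ds (Hs 0 0) g →
      S0 𝒜 2 ![c, r0 𝒜 (rfL 0) b] ![f, fun y => g (rf 0 y)] = 0 := fun b f g hf hg => by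
    have := (lim b b hg hg).norm.mul (lim c c hf hf).norm
    rw [k f hf, norm_zero, mul_zero] at this
    refine norm_eq_zero.1 (pow_eq_zero_iff two_ne_zero |>.1 (le_antisymm (le_of_tendsto_of_tendsto'
      ((lim c b hf hg).norm.pow 2) this fun t => ?_) (by positivity)))
    rw [inner_self_eq_norm_sq_to_K, inner_self_eq_norm_sq_to_K]
    simpa [← mul_pow] using pow_le_pow_left₀ (norm_nonneg _) (norm_inner_le_norm (𝕜 := ℂ) _ _) 2
  refine hc (v0_null (low_null (v := ax 0 (-2)) (fun e => by simpa using congrArg (· 0) e) c.2.1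
    fun b hb => ?_))
  rw [← (s_cov _ _ _).1 (ax 0 1)]
  refine fp_loc (U := ![{y | rf 0 y ∈ Hs 0 0}, Hs 0 0]) (fun f h1 h2 _ => ?_)
    ((add_left_injective _).comp (inj2 fun e => by simpa using congrArg (· 0) e))
    (Fin.forall_fin_two.2 ⟨?_, ?_⟩)
  · have := z (r0 𝒜 (rfL 0) (p0 𝒜 ⟨b, hb⟩)) ⟨(h1 1).1, (h1 1).2, h2 1⟩
      ((Ds.rf ⟨(h1 0).1, (h1 0).2, h2 0⟩ 0).mono fun y hy => by simpa using hy)
    rw [← Module.End.mul_apply, ← map_mul, Lg.PI.rfL_mul, map_one] at this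
    rw [← fr_perm (Equiv.swap 0 1), ← Complex.ofReal_eq_zero.1 this]
    refine (fr_mod fun i => ?_) _ |>.trans (congrArg _ (funext fun i => ?_))
    · fin_cases i
      · simp
      · exact sub_pj b
    · fin_cases i <;> simp
  all_goals
    simp only [Hs, mem_setOf_eq, rf_self, cons_val_zero, cons_val_one]
    exact (isOpen_lt continuous_const (by fun_prop)).mem_nhds (by norm_num)

end Pool.Agent.Lib.MP_7f377f_mp.Zg
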