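import Pool.Agent.Lib.MP_7f377f_mp.G.ZgM
import Pool.Agent.Lib.MP_7f377f_mp.G.ZgH
import Pool.Agent.Lib.MP_7f377f_mp.G.ZgI
import Pool.Agent.Lib.MP_7f377f_mp.G.ZgF
import Pool.Agent.Lib.MP_7f377f_mp.G.ZhA
import Pool.Agent.Lib.MP_7f377f_mp.G.ZhF
import Pool.Agent.Lib.MP_7f377f_mp.G.Bw
import Pool.Agent.Lib.MP_7f377f_mp.G.BwS
import Pool.Agent.Lib.MP_7f377f_mp.G.Sw
import Pool.Agent.Lib.MP_7f377f_mp.G.WxC
import Pool.Agent.Lib.MP_7f377f_mp.G.S15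

/-! From the continuum limit to the statement. -/

noncomputable section

namespace Pool.Agent.Lib.MP_7f377f_mp.Zg
variable [Pool.Agent.Lib.MP_7f377f_mp.GD]
set_option linter.unusedSectionVars false

open MeasureTheory Filter Topology Set YM7 Pur Wm Lm Wv Matrix Sw MvPolynomial
open Ro (Iso)

theorem fil_count {V : Type} [AddCommGroup V] [Module ℝ V] (Φ : Fil V) :
    ∃ A : Set V, A.Countable ∧ Submodule.span ℝ A = ⊤ := by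
  choose s hs using fun D => (Submodule.fg_iff_finiteDimensional _).2 (Φ.fin D)
  exact ⟨⋃ D, s D, countable_iUnion fun D => (s D).countable_toSet, eq_top_iff.2 fun c _ =>
    (Φ.ex c).elim fun D e => Submodule.span_mono (subset_iUnion _ D) ((hs D).ge e)⟩

theorem inv4 {V : Type} [AddCommGroup V] [Module ℝ V] (ρ : Iso →* V →ₗ[ℝ] V) :
    Inv4 fun μ => ρ (rfL μ) := by
  simp only [Inv4, ← Module.End.mul_apply, ← map_mul]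
  refine ⟨fun μ c => by simp [Lg.PI.rfL_mul], fun μ ν c => ?_⟩
  congr 2
  ext1 y
  simp only [LinearIsometryEquiv.coe_mul, Function.comp_apply, rfL_eq, Wv.rf_comm μ]

variable {d m : ℕ} {𝒜 : Set (Matrix (Fin d) (Fin d) ℝ)} [o : Og 𝒜] {P : Type} [CommRing P]
  [Algebra ℂ P] {N : Net P} {x : V0 𝒜 → (R4 → ℝ) → P} {S : P →ₗ[ℂ] ℂ} {A : ℝ → V0 𝒜 ≃ₗ[ℝ] V0 𝒜}
  {φ : V0 𝒜}

theorem top [MeasurableSpace SU2] [BorelSpace SU2] {h : Measure SU2} [h.IsHaarMeasure]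
    [IsProbabilityMeasure h] {n : ℕ → ℕ+} {a b : ℕ → ℝ} {F : ℕ → V0 𝒜 →ₗ[ℝ] YZ.Cfg SU2 ℤ → ℝ}
    {r : GD.G →* unitaryGroup (Fin m) ℂ} (hn : GD.n = m + m)
    (ht : ∀ a, (GD.rho a).trace = 2 * (r a).1.trace.re) {O : Matrix (Fin d) (Fin d) ℝ}
    (hO : O * Oᵀ = 1) {G β U S₀} (R : RG.Q4.En.Rn G β U S₀ (S ∘ₗ (aeval (x φ)).toLinearMap))
    (lat : Lat x S h φ n a b F) (sl : Sl N x S (r0 𝒜) (u0 𝒜))
    (la : La (fil 𝒜) (r0 𝒜) A φ (l0 𝒜)) (bs : Bs (fil 𝒜) N x S A (S0 𝒜) φ) :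
    Out h r ((Zf.Iv ℂ 𝒜).comap (Zf.ad O))
      (4 * GD.t ^ 2 * (11 * GD.b0 / (48 * Real.pi ^ 2))) := by
  have b0 := GD.b0_pos
  have t0 := GD.t_pos
  obtain ⟨p, inc, br⟩ := br0 (𝒜 := 𝒜) hO
  obtain ⟨B, b1, b2⟩ := fil_count (fil 𝒜)
  have e := Wx.emb_of sl.gen la.rf
  have q := Wx.qbd_of sl.gen (inv4 _) sl.st sl.lin sl.prod
  obtain ⟨W, w1, w2, w3, w4, w5, -, w6, w7, w8, w9, w10⟩ := Wx.pur sl.gen sl.st sl.lin q
    (Wx.q1s_of sl.gen (inv4 _) sl.st sl.lin sl.prod) b1 b2 sl.linc e R.rot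
  have u := bs.bl S sl.st.one Net.Dom.refl
  have w := bs.bl W w1 w2
  have l := low_of sl.gen sl.st (fun t => la.c1 t 0) (u.af 2)
  have rW : Rg (fil 𝒜) N x W (r0 𝒜) A (S0 𝒜) :=
    ⟨sl.gen, w3, w5, w7, w6, w.mg1, w.mg2, la.up, la.c1, w.af, l⟩
  have v1 : (W ∘ₗ (aeval (x φ) : Pol →ₐ[ℂ] P).toLinearMap) 1 = 1 := by simpa using w1
  have i := R.inp.dom w8 v1
  obtain ⟨_, D₀, M₀, T₁, -, o1, o2, -⟩ := R.main
  have d0 : (0 : ℝ) < GD.d := by exact_mod_cast GD.d3.trans_lt' three_pos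
  obtain ⟨k, M, c, L, sm⟩ := Bw.exists_sm o1 o2 (by rw [Ope.qc]; positivity) ⟨v1, w8, w10⟩ i w9
    R.inp R.rot fun k f hf => by simpa [mon] using sl.real k (fun _ => φ) f hf
  obtain ⟨T, D, δ, σ, cu, op, -, wt, ns, -, -, -, sφ⟩ := Bw.main (o := u0 𝒜)
    ⟨⟨sl.gen, sl.st, sl.lin, sl.linc, q.bd sl.st, u.mg1, u.mg2, la.up, la.c1, u.af, l⟩, rW, sl.real,
      w2, e, fun f => aeval_X _ _, la.mem, u0_mem 4, ⟨la.rf, la.pm⟩, r0_u0, sl.unit, sl.iv, la.c2,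
      fun h n h1 h2 h3 => (bs.mg h n h1 h2 h3).imp fun _ e => e W w1 w2⟩ sm fb1
  obtain ⟨J, X, ou⟩ := rW.out cu op fr1 wt ns
  obtain ⟨J, M, fx⟩ := fix (φ := (4 * GD.t ^ 2)⁻¹ • φ)
    (β := 4 * GD.t ^ 2 * (11 * GD.b0 / (48 * Real.pi ^ 2))) rW w.bd fr1
    (neg_ne_zero.2 (inv_ne_zero Zf.kap_ne)) cu wt ou (by positivity)
    (Submodule.smul_mem _ _ la.mem) (fun l => by rw [map_smul, la.rf])
    (fun l => by rw [map_smul, sφ, smul_zero]) (la.sg.congr fun t => by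
      rw [smul_smul]
      congr 2
      field_simp)
  exact core hn ht rfl br sc0 lat w4 ⟨⟨48 / (11 * GD.b0), by positivity, fun k f hf => by
    simpa [mon] using i.af k f hf⟩, la.sg, la.mem, fun f hf =>
      Wx.unit_dom sl.gen w2 hf (sl.unit f hf)⟩ rW w.mu cu (ou.eq ▸ op) fx

end Pool.Agent.Lib.MP_7f377f_mp.Zg
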