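import Pool.Agent.Lib.MP_7f377f_mp.G.An
import Pool.Agent.Lib.MP_7f377f_mp.G.AnT
import Pool.Agent.Lib.MP_7f377f_mp.G.S23K
import Pool.Agent.Lib.MP_7f377f_mp.G.ZgN

/-! The trace anomaly for the invariant local polynomials. -/

noncomputable section

namespace Pool.Agent.Lib.MP_7f377f_mp.An
variable [Pool.Agent.Lib.MP_7f377f_mp.GD]
set_option linter.unusedSectionVars false

open MeasureTheory Filter Topology Set YM7 Pur Wm Lm Wv Matrix Sw MvPolynomial Zg RG RG.Q4 RG.Q4.En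
open Ro (Iso)

variable {d : ℕ} {𝒜 : Set (Matrix (Fin d) (Fin d) ℝ)} [o : Og 𝒜] {P : Type} [CommRing P]
  [Algebra ℂ P] {N : Net P} {x : V0 𝒜 → (R4 → ℝ) → P} {S W : P →ₗ[ℂ] ℂ}
  {A M : ℝ → V0 𝒜 ≃ₗ[ℝ] V0 𝒜} {φ : V0 𝒜} {T : Fin 4 → Fin 4 → V0 𝒜}
  {D : Fin 4 → V0 𝒜 →ₗ[ℝ] V0 𝒜} {σ : Mat → V0 𝒜 →ₗ[ℝ] V0 𝒜} {J : V0 𝒜 ≃ₗ[ℝ] V0 𝒜}

theorem corr_one [MeasurableSpace SU2] [BorelSpace SU2] (h : Measure SU2) [h.IsHaarMeasure]
    [IsProbabilityMeasure h] (b : ℝ) (n : ℕ) [NeZero n] (a : ℝ) (f : Fin 1 → R4 → ℝ) :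
    YM7.corr h b n a f = 0 := by
  simp only [YM7.corr, Fin.prod_univ_one]
  by_cases i : Integrable (field a (f 0)) (wilson h b n)
  · simp [integral_sub i]
  · simp [integral_undef i]

theorem jt {G β U S₀} (R : Rn G β U S₀ (S ∘ₗ (aeval (x φ)).toLinearMap))
    (H : Tri U fun p => YM7.corr (Fi.tr haar) (β p) (G.nn p) (G.aa p))
    (sl : Sl N x S (r0 𝒜) (u0 𝒜)) (la : La (fil 𝒜) (r0 𝒜) A φ (l0 𝒜))
    (bs : Bs (fil 𝒜) N x S A (S0 𝒜) φ) (cS : Cu (fil 𝒜) N x S (r0 𝒜) T)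
    (oS : Ops (fil 𝒜) N x S T D D σ) (af : ∀ μ ν, Tendsto (fun t => (A t).symm (T μ ν)) (𝓝[>] 0)
      (𝓝 ((-Zf.kap⁻¹) • tt 𝒜 μ ν))) {q : ℝ}
    (hq : q = 4 * GD.t ^ 2 * (11 * GD.b0 / (48 * Real.pi ^ 2)))
    (fx : Fx (fil 𝒜) x W (r0 𝒜) A (Zg.sc 𝒜) T (tt 𝒜) q ((4 * GD.t ^ 2)⁻¹ • φ) (u0 𝒜) (l0 𝒜) J M) :
    ∃ γ : ℝ, ∀ μ ν, T μ ν = J ((-1 : ℝ) • tt 𝒜 μ ν) +
      if μ = ν then (-(q / 4)) • ((4 * GD.t ^ 2)⁻¹ • φ) + γ • u0 𝒜 else 0 := by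
  obtain ⟨s, s', γ, e⟩ := fx.jt
  have t0 := GD.t_pos
  have u := bs.bl S sl.st.one Net.Dom.refl
  have l : ∀ {k} {f : Fin k → R4 → ℝ}, Adm f → S (∏ i, x φ (f i)) = S₀ f := fun hf => by
    simpa [mon] using R.lift hf
  have : (Fi.tr haar).IsHaarMeasure := (inferInstance : haar.IsHaarMeasure)
  obtain ⟨K, ov⟩ := Tri.ov (n := fun p => ⟨G.nn p, NeZero.pos _⟩) (E := fun f => S (∏ i, x φ (f i)))
    H fun f hf => l hf ▸ (Complex.continuous_ofReal.tendsto _).comp (R.lim.cv hf)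
  have k := kappa (κ := s' / GD.t ^ 2) (γ := 4 * γ) ⟨sl.gen, sl.st, sl.lin, sl.linc,
    (Wx.qbd_of sl.gen (inv4 _) sl.st sl.lin sl.prod).bd sl.st, u.mg1, u.mg2, la.up, la.c1, u.af,
    low_of sl.gen sl.st (fun t => la.c1 t 0) (u.af 2)⟩ cS oS u.mu la.mem la.sg
    (fun c h => cl3 ((fil 𝒜).mono (by simp) h)) sl.unit (fun f hf => by
      have a : Adm ![f] := adm_c1 (K := fun _ => univ) Subsingleton.pairwise (by simpa using dc hf)
      simpa using (l a).trans (congrArg _ (tendsto_nhds_unique (R.lim.cv a)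
        (tendsto_const_nhds.congr fun p => (corr_one ..).symm))))
    sl.real sl.iv la.rf la.pm (fun c => cl la)
    (fun f hf => by simpa [mon, Pur.kap] using R.inp.af 2 f hf) (by
      simp only [e, if_true, Finset.sum_add_distrib, ← map_sum, ← Finset.smul_sum, tt_tr,
        Finset.sum_const, Finset.card_univ, Fintype.card_fin, ← Nat.cast_smul_eq_nsmul ℝ]
      simp only [smul_zero, map_zero, zero_add]
      match_scalars <;> field_simp) ov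
  have s1 : s = -1 := by
    have := (fx.slow.lim (tt 𝒜 0 1)).const_smul s
    have := tendsto_nhds_unique (af 0 1) (this.congr' (mem_of_superset (Ioo_mem_nhdsGT one_pos)
      fun t ht => by
        simp [e, fx.mt t ht, sc_hm (hm_tt 0 1), ht.1.ne']))
    simpa [Zf.kap_one] using (smul_left_injective ℝ tt_ne this).symm
  refine ⟨γ, fun μ ν => ?_⟩
  rw [e, s1, show s' = -(q / 4) by
    rw [div_eq_iff (by positivity)] at k
    rw [k, hq, q0]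
    ring]

end Pool.Agent.Lib.MP_7f377f_mp.An
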