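import Pool.Agent.Lib.MP_7f377f_mp.G.ZfD
import Pool.Agent.Lib.MP_7f377f_mp.G.GSchur

/-! The invariant polynomials of dimension at most four. -/

noncomputable section

namespace Pool.Agent.Lib.MP_7f377f_mp.Zf

open MvPolynomial Matrix
open YZ (R4 Var)

variable {K : Type} [RCLike K] {d : ℕ} {𝒜 : Set (Matrix (Fin d) (Fin d) ℝ)} {c : Lb d K}

/-- invariant forms are multiples of the unit -/
def Sch (𝒜 : Set (Matrix (Fin d) (Fin d) ℝ)) : Prop := ∀ M : Matrix (Fin d) (Fin d) ℝ,
  (∀ A ∈ 𝒜, ∀ i j, ∑ k, ∑ l, A k i * A l j * M k l = M i j) → ∃ c : ℝ, M = c • 1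

/-- the invariant quadratic monomials -/
def qd (I J : Fin 2 → Fin 4) : Lb d K := ∑ a, X (⟨0, I⟩, a) * X (⟨0, J⟩, a)

/-- the reflection of an axis -/
def rm (μ : Fin 4) : Matrix (Fin 4) (Fin 4) ℝ := diagonal fun i => if i = μ then -1 else 1

/-- the permutation of the axes -/
def pm (σ : Equiv.Perm (Fin 4)) : Matrix (Fin 4) (Fin 4) ℝ := of fun i j => if i = σ j then 1 else 0

/-- polynomials of dimension at most four -/
def Lf (c : Lb d K) : Prop := ∃ (a : K) (l : Var d →₀ K)
  (m : (Fin 2 → Fin 4) × Fin d → (Fin 2 → Fin 4) × Fin d → K), (∀ p q, m p q = m q p) ∧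
    c = C a + l.sum (fun p t => t • X p) +
      ∑ p, ∑ q, m p q • (X (⟨0, p.1⟩, p.2) * X (⟨0, q.1⟩, q.2))

theorem low_form (h : c.weightedTotalDegree wt ≤ 4) : Lf c := by
  classical
  refine (congrArg Lf c.as_sum).mpr (Finset.sum_induction _ Lf ?_ ⟨0, 0, 0, by simp, by simp⟩
    fun s hs => ?_)
  · rintro _ _ ⟨a, l, m, e, rfl⟩ ⟨a', l', m', e', rfl⟩
    refine ⟨a + a', l + l', m + m', fun p q => by simp [e p, e' p], ?_⟩
    rw [Finsupp.sum_add_index' (by simp) (by simp [add_smul])]
    simp only [map_add, Pi.add_apply, add_smul, Finset.sum_add_distrib]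
    abel
  have w := (le_weightedTotalDegree wt hs).trans h
  generalize coeff s c = t
  have sp : ∀ s : Var d →₀ ℕ, s = 0 ∨ ∃ p s', s = Finsupp.single p 1 + s' := fun s => by
    by_cases e : s = 0
    · exact .inl e
    obtain ⟨p, hp⟩ := Finsupp.support_nonempty_iff.2 e
    exact .inr ⟨p, s - Finsupp.single p 1, (add_tsub_cancel_of_le
      (Finsupp.single_le_iff.2 (Nat.one_le_iff_ne_zero.2 (Finsupp.mem_support_iff.1 hp)))).symm⟩
  rcases sp s with rfl | ⟨p, s, rfl⟩
  · exact ⟨t, 0, 0, by simp, by simp⟩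
  rcases sp s with rfl | ⟨q, s, rfl⟩
  · exact ⟨0, .single p t, 0, by simp, by simp [X, smul_monomial]⟩
  obtain ⟨⟨n, I⟩, a⟩ := p
  obtain ⟨⟨k, J⟩, b⟩ := q
  simp only [map_add, Finsupp.weight_single, one_smul, wt] at w
  obtain rfl : n = 0 := by omega
  obtain rfl : k = 0 := by omega
  rcases sp s with rfl | ⟨q, s, rfl⟩
  swap
  · simp only [map_add, Finsupp.weight_single, one_smul, wt] at w
    omega
  refine ⟨0, 0, fun p q => (if p = (I, a) ∧ q = (J, b) then t / 2 else 0) +
    if q = (I, a) ∧ p = (J, b) then t / 2 else 0, fun p q => add_comm _ _, ?_⟩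
  simp only [add_smul, Finset.sum_add_distrib, ite_smul, zero_smul, ite_and, Finset.sum_ite_irrel,
    Finset.sum_ite_eq', Finset.mem_univ, if_true, Finset.sum_const_zero, map_zero,
    Finsupp.sum_zero_index, zero_add, add_zero]
  simp only [X, monomial_mul, smul_monomial, add_comm (Finsupp.single (_, b) 1), ← map_add]
  simp

theorem pd_ad (A : Matrix (Fin d) (Fin d) ℝ) (I) (b : Fin d) (c : Lb d K) :
    pderiv (I, b) (ad A c) = ∑ a, (A a b : K) • ad A (pderiv (I, a) c) := by
  classical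
  induction c using MvPolynomial.induction_on with
  | C t => simp [ad]
  | add p q e e' => simp only [map_add, e, e', smul_add, Finset.sum_add_distrib]
  | mul_X p q e =>
    obtain ⟨J, a⟩ := q
    have : pderiv (I, b) (ad A (X (J, a)) : Lb d K) =
        ∑ a', (A a' b : K) • ad A (pderiv (I, a') (X (J, a))) := by
      by_cases k : J = I <;> simp [ad, pderiv_X, Pi.single_apply, k, apply_ite (aeval _)]
    simp only [map_mul, Derivation.leibniz, e, this, map_add, smul_eq_mul, smul_add,
      Finset.sum_add_distrib, Finset.mul_sum, mul_smul_comm]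

theorem cc_ad (A : Matrix (Fin d) (Fin d) ℝ) (c : Lb d K) :
    constantCoeff (ad A c) = constantCoeff c := by
  induction c using MvPolynomial.induction_on with
  | C t => simp [ad]
  | add p q e e' => simp only [map_add, e, e']
  | mul_X p q e => simp [ad, e]

theorem schur_K (hA : Sch 𝒜) (M : Fin d → Fin d → K)
    (h : ∀ A ∈ 𝒜, ∀ i j, ∑ k, ∑ l, ((A k i * A l j : ℝ) : K) * M k l = M i j) :
    ∃ t : K, ∀ i j, M i j = if i = j then t else 0 := by
  obtain ⟨c, hc⟩ := hA (fun i j => RCLike.re (M i j)) fun a ha i j => by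
    simpa using congrArg RCLike.re (h a ha i j)
  obtain ⟨c', hc'⟩ := hA (fun i j => RCLike.im (M i j)) fun a ha i j => by
    simpa using congrArg RCLike.im (h a ha i j)
  have h1 : ∀ i j, RCLike.re (M i j) = c * if i = j then 1 else 0 := fun i j => congrFun₂ hc i j
  have h2 : ∀ i j, RCLike.im (M i j) = c' * if i = j then 1 else 0 := fun i j => congrFun₂ hc' i j
  refine ⟨c + c' * RCLike.I, fun i j => ?_⟩
  rw [← RCLike.re_add_im (M i j), h1, h2]
  split_ifs <;> simp

/-- the classification -/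
theorem cl0 (hA : Sch 𝒜) (hd : 2 ≤ d) (hc : c ∈ Iv K 𝒜) (h : c.weightedTotalDegree wt ≤ 4) :
    ∃ (a : K) (m : (Fin 2 → Fin 4) → (Fin 2 → Fin 4) → K), c = C a + ∑ I, ∑ J, m I J • qd I J := by
  classical
  replace hc : ∀ A ∈ 𝒜, ad A c = c := fun A h => by
    simp only [Iv, Algebra.mem_iInf, AlgHom.mem_equalizer] at hc
    exact (hc A h).symm
  obtain ⟨a, l, m, e, f⟩ := low_form h
  have e1 : ∀ p, constantCoeff (pderiv p c) = l p := fun p => by
    simp [f, Finsupp.sum, pderiv_X, Pi.single_apply, apply_ite constantCoeff, eq_comm]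
  have e2 : ∀ p q : (Fin 2 → Fin 4) × Fin d,
      constantCoeff (pderiv (⟨0, p.1⟩, p.2) (pderiv (⟨0, q.1⟩, q.2) c)) = 2 * m p q := fun p q => by
    simp [f, Finsupp.sum, pderiv_X, Pi.single_apply, apply_ite constantCoeff, ← Prod.ext_iff,
      apply_ite (pderiv _), Finset.sum_add_distrib, e q, two_mul]
  have l0 : l = 0 := Finsupp.ext fun p => by
    obtain ⟨t, ht⟩ := schur_K hA (fun i j => l (p.1, i) * l (p.1, j)) fun A h i j => by
      have : ∀ i, l (p.1, i) = ∑ k, (A k i : K) * l (p.1, k) := fun i => by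
        rw [← e1, ← hc A h, pd_ad]
        simp [cc_ad, e1, RCLike.real_smul_eq_coe_mul]
      rw [this i, this j, Finset.sum_mul_sum]
      exact Finset.sum_congr rfl fun k _ => Finset.sum_congr rfl fun l _ => by push_cast; ring
    have : Nontrivial (Fin d) := Fin.nontrivial_iff_two_le.2 hd
    obtain ⟨j, hj⟩ := exists_ne p.2
    have h2 := ht j p.2
    have h3 := ht p.2 p.2
    have h4 := ht j j
    simp only [hj, if_true, if_false] at h2 h3 h4
    refine pow_eq_zero_iff (n := 3) (by norm_num) |>.1 ?_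
    linear_combination l (p.1, j) * h2 + l p * h3 - l p * h4
  choose t ht using fun I J => schur_K hA (fun i j => m (I, i) (J, j)) fun A h i j => by
    refine mul_left_cancel₀ (two_ne_zero' K) ?_
    rw [← e2, ← hc A h, pd_ad]
    simp only [map_sum, Derivation.map_smul, pd_ad, map_smul, cc_ad, Finset.mul_sum, Finset.smul_sum,
      smul_eq_mul, constantCoeff_smul]
    rw [Finset.sum_comm]
    refine Finset.sum_congr rfl fun k _ => Finset.sum_congr rfl fun l _ => ?_
    rw [e2 (I, l) (J, k)]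
    push_cast
    ring
  refine ⟨a, t, ?_⟩
  simp only [f, l0, Finsupp.sum_zero_index, add_zero, Fintype.sum_prod_type, ht, ite_smul, zero_smul,
    Finset.sum_ite_eq, Finset.mem_univ, if_true, qd, Finset.smul_sum]
  exact congrArg _ (Finset.sum_congr rfl fun _ _ => Finset.sum_comm)

end Pool.Agent.Lib.MP_7f377f_mp.Zf
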