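import Pool.Agent.Lib.MP_7f377f_mp.G.BwL

/-! The stress tensor as a field with a label: symmetries and conservation. -/

noncomputable section

namespace Pool.Agent.Lib.MP_7f377f_mp.Bw
variable [Pool.Agent.Lib.MP_7f377f_mp.GD]
set_option linter.unusedSectionVars false

open Filter Topology Set YM7 Pur Wm Lm Wv S3 Sw Matrix MvPolynomial Real
open Ro (Iso rot prm)
open Ope (Rd hn pr Ai Dt Tn ee)
open scoped ContDiff

variable {V P : Type} [NormedAddCommGroup V] [NormedSpace ℝ V] [CommRing P] [Algebra ℂ P]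
  {Φ : Fil V} {N : Net P} {x : V → (R4 → ℝ) → P} {U W : P →ₗ[ℂ] ℂ} {ρ : Iso →* V →ₗ[ℝ] V}
  {A : ℝ → V ≃ₗ[ℝ] V} {S : Cor V} {ι : Pol →ₐ[ℂ] P} {φ o : V} {T T₀ : Fin 4 → Fin 4 → V}
  {H : Type} [NormedAddCommGroup H] [InnerProductSpace ℂ H] [CompleteSpace H] {r : N.Rep W 0 H}
  {h : R4 → ℝ} {M c : ℝ → ℝ} {L : Tn} {m : R4 → ℝ → V} {D δ : Fin 4 → V →ₗ[ℝ] V}
  {σ : Mat → V →ₗ[ℝ] V} {g : Iso} {w : Equiv.Perm (Fin 4)} {ε : Fin 4 → ℝ}

theorem pol0 {B : Fin 4 → Fin 4 → V} (hs : ∀ μ ν, B μ ν = B ν μ)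
    (h0 : ∀ n : R4, ‖n‖ = 1 → ∑ μ, ∑ ν, (n μ * n ν) • B μ ν = 0) (μ ν : Fin 4) : B μ ν = 0 := by
  have h1 : ∀ n : R4, ∑ μ, ∑ ν, (n μ * n ν) • B μ ν = 0 := fun n => by
    by_cases e : n = 0
    · simp [e]
    have := congrArg ((‖n‖ * ‖n‖) • ·) (h0 (‖n‖⁻¹ • n) (norm_smul_inv_norm (𝕜 := ℝ) e))
    have n0 := norm_ne_zero_iff.2 e
    simp only [Finset.smul_sum, smul_smul, smul_zero, PiLp.smul_apply, smul_eq_mul] at this
    refine Eq.trans (Finset.sum_congr rfl fun μ _ => Finset.sum_congr rfl fun ν _ => ?_) this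
    congr 1
    field_simp
  have h2 : ∀ μ, B μ μ = 0 := fun μ => by simpa [ite_smul] using h1 (ax μ 1)
  have h3 := h1 (ax μ 1 + ax ν 1)
  simp only [PiLp.add_apply, add_mul, mul_add, add_smul, Finset.sum_add_distrib,
    EuclideanSpace.single_apply, ite_mul, mul_ite, one_mul, zero_mul, mul_zero, ite_smul, zero_smul,
    one_smul, Finset.sum_ite_eq', Finset.mem_univ, if_true, h2, hs ν μ, zero_add, add_zero] at h3
  rwa [← two_smul ℝ, smul_eq_zero_iff_right two_ne_zero] at h3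

theorem labx (R : Rg Φ N x W ρ A S) {f : R4 → ℝ} (hf : Ds univ f) {Z : P}
    (hZ : Z ∈ N.loc (tsupport f)ᶜ) : ∃ ℓ : V →ₗ[ℝ] ℂ, ∀ a, ℓ a = W (x a f * Z) :=
  ⟨R.lab hf.self.c1 hZ, fun _ => rfl⟩

theorem pb_fam {u : R4 → ℝ} (a : Ope.Pb u) {d : ℝ} (d0 : 0 < d) (z : R4) :
    Adm ![fun y => u (d⁻¹ • (y - z)), fun y => u (d⁻¹ • (z - y))] ∧ ∀ i, tsupport
      (![fun y => u (d⁻¹ • (y - z)), fun y => u (d⁻¹ • (z - y))] i) ⊆ Metric.ball z (2 * d) := by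
  have q : ![fun y => u (d⁻¹ • (y - z)), fun y => u (d⁻¹ • (z - y))] =
      fun i y => ![u, fun y => u (-y)] i (d⁻¹ • (y - z)) := by
    funext i y
    fin_cases i <;> simp [← smul_neg]
  rw [q]
  refine ⟨adm_sub (a.1.smul (inv_pos.2 d0).ne') z, fun i y hy => ?_⟩
  have e := tsupport_comp (θ := fun y => d⁻¹ • (y - z)) (by fun_prop) hy
  have : ‖d⁻¹ • (y - z)‖ < 2 := by
    fin_cases i
    · exact mem_ball_zero_iff.1 (a.2 e)
    · exact norm_neg (d⁻¹ • (y - z)) ▸ mem_ball_zero_iff.1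
        (a.2 (tsupport_comp (θ := fun y : R4 => -y) continuous_neg e))
  rwa [norm_smul, norm_inv, Real.norm_of_nonneg d0.le, inv_mul_lt_iff₀ d0, mul_comm,
    ← mem_ball_iff_norm] at this

section
variable (R : Rg Φ N x W ρ A S) (lg : ∃ B, ∀ᶠ d in 𝓝[>] (0 : ℝ), |M d| ≤ B * log d ^ 2)
  (mφ : φ ∈ Φ.F 4) (mo : o ∈ Φ.F 4) (un : ∀ {f}, Ds univ f → ∀ {Z}, Z ∈ N.loc (tsupport f)ᶜ →
    W (x o f * Z) = (∫ y, f y : ℝ) * W Z)
include R lg mφ mo un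

/-- the field with the label `b` as a limit of pairs -/
theorem lim_pair {u f : R4 → ℝ} {p : ℝ → V} {k : ℝ → ℝ} {b : V} {Z : P} (m1 : ∀ s, p s ∈ Φ.F 4)
    (m2 : Mp N x W ι u p) (t : Tendsto (fun s => M s • p s - c s • φ - k s • o) (𝓝[>] 0) (𝓝 b))
    (hf : Ds univ f) (hZ : Z ∈ N.loc (tsupport f)ᶜ) :
    Tendsto (fun s : ℝ => M s * ((∫ z, f z * W (ι (pr u s z) * Z)) / s ^ 4) - c s * W (x φ f * Z) -
      k s * ((∫ y, f y : ℝ) * W Z)) (𝓝[>] 0) (𝓝 (W (x b f * Z))) := by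
  obtain ⟨B, hB⟩ := lg
  obtain ⟨ℓ, hℓ⟩ := labx R hf hZ
  have t1 := R.tend (d := 4) (fun s => sub_mem (sub_mem (Submodule.smul_mem _ _ (m1 s))
    (Submodule.smul_mem _ _ mφ)) (Submodule.smul_mem _ _ mo)) t hf hZ
  have t2 : Tendsto (fun s : ℝ => M s * ((∫ z, f z * W (ι (pr u s z) * Z)) / s ^ 4 -
      W (x (p s) f * Z))) (𝓝[>] 0) (𝓝 0) := by
    refine squeeze_zero_norm' (hB.mono fun s hs => ?_)
      (by simpa using (m2 f hf Z hZ).norm.const_mul B)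
    simp only [norm_mul, Complex.norm_real, Real.norm_eq_abs, ← mul_assoc, norm_pow,
      Complex.ofReal_pow, sq_abs]
    exact mul_le_mul_of_nonneg_right hs (norm_nonneg _)
  refine (add_zero (W (x b f * Z)) ▸ t1.add t2).congr fun s => ?_
  rw [← un hf hZ]
  simp only [← hℓ, map_sub, map_smul, Complex.real_smul]
  ring

theorem lim_two {u u' f : R4 → ℝ} {p p' : ℝ → V} {k k' : ℝ → ℝ} {b b' : V} {Z Z' : P}
    (m1 : ∀ s, p s ∈ Φ.F 4) (m2 : Mp N x W ι u p)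
    (t : Tendsto (fun s => M s • p s - c s • φ - k s • o) (𝓝[>] 0) (𝓝 b))
    (m1' : ∀ s, p' s ∈ Φ.F 4) (m2' : Mp N x W ι u' p')
    (t' : Tendsto (fun s => M s • p' s - c s • φ - k' s • o) (𝓝[>] 0) (𝓝 b'))
    (hf : Ds univ f) (hZ : Z ∈ N.loc (tsupport fun y => f (g y))ᶜ) (hZ' : Z' ∈ N.loc (tsupport f)ᶜ)
    (e1 : ∀ᶠ s in 𝓝[>] (0 : ℝ), ∀ z, g z ∈ tsupport f →
      W (ι (pr u s z) * Z) = W (ι (pr u' s (g z)) * Z'))
    (e2 : W (x φ (fun y => f (g y)) * Z) = W (x φ f * Z')) (e3 : W Z = W Z') :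
    Tendsto (fun s => (k' s - k s) * ((∫ y, f y : ℝ) * W Z')) (𝓝[>] 0)
      (𝓝 (W (x b (fun y => f (g y)) * Z) - W (x b' f * Z'))) := by
  have i := fun {E : Type} [NormedAddCommGroup E] [NormedSpace ℝ E] (F : R4 → E) =>
    g.measurePreserving.integral_comp g.toHomeomorph.measurableEmbedding F
  refine ((lim_pair R lg mφ mo un m1 m2 t (ds_iso hf g) hZ).sub
    (lim_pair R lg mφ mo un m1' m2' t' hf hZ')).congr' (e1.mono fun s hs => ?_)
  have : ∫ z, f (g z) * W (ι (pr u s z) * Z) = ∫ z, f z * W (ι (pr u' s z) * Z') := by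
    rw [← i fun z => f z * W (ι (pr u' s z) * Z')]
    congr 1
    funext z
    by_cases hz : g z ∈ tsupport f
    · rw [hs z hz]
    · simp [image_eq_zero_of_notMem_tsupport hz]
  simp only [this, e2, e3, i f]
  ring

end

variable (a : Al Φ x U ρ A S ι φ o T r h M c L m)
include a

theorem Al.quad (s : Sy x U ρ φ g w ε) {n : R4} (n1 : ‖n‖ = 1) :
    ρ g (∑ μ, ∑ ν, (n μ * n ν) • T μ ν) = ∑ μ, ∑ ν, (g n μ * g n ν) • T μ ν := by
  have B := a.bg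
  have n2 : ‖g n‖ = 1 := (g.norm_map n).trans n1
  obtain ⟨k, t⟩ := a.tl.lim n n1
  obtain ⟨k', t'⟩ := a.tl.lim _ n2
  have hu := a.sm.rd.act g n
  have cen : ∀ (n : R4) f, Ds univ f → W (x (∑ μ, ∑ ν, (n μ * n ν) • T μ ν) f * 1) = 0 :=
    fun n f hf => by
      obtain ⟨ℓ, hℓ⟩ := labx B.rW hf (N.one _)
      simp only [← hℓ, map_sum, map_smul]
      simp [hℓ, a.tl.cen _ _ f hf]
  refine B.rU.eq_of fun f hf c' => ?_
  have hf' : Ds (tsupport f)ᶜ fun y => f (rf 0 y) := (hf.rf 0).mono fun y hy q => by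
    have := hf.2.2 q
    simp only [Hs, rf, mem_setOf_eq, Function.update_self] at hy this
    linarith
  generalize (fun y => f (rf 0 y)) = f' at hf'
  replace hf := hf.univ
  obtain ⟨c'', rfl⟩ : ∃ c'', ρ g c'' = c' :=
    ⟨ρ g⁻¹ c', by rw [← Module.End.mul_apply, ← map_mul, mul_inv_cancel, map_one]; rfl⟩
  have t1 := lim_two (g := g) B.rW a.sm.lg B.mφ B.mo B.unitW (a.mg n n1).mem (a.mg n n1).pW t
    (a.mg _ n2).mem (a.mg _ n2).pW t' hf (N.one _) (N.one _)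
    (eventually_mem_nhdsWithin.mono fun d d0 z _ => by
      obtain ⟨p, hp⟩ := a.sm.pr0 d d0
      have e : ∀ n : R4, ‖n‖ = 1 → ∀ z, W (ι (pr (hn h n) d z) * 1) = p := fun n n1 z => by
        rw [mul_one, ← zero_add z, ← Ope.pr_tau, B.emb.τ,
          B.rW.st.ti _ (B.emb.mem (Net.adm ((a.sm.rd.pb n1).mem d0 0)))]
        exact hp n n1
      rw [e _ n1, e _ n2])
    (by
      obtain ⟨e, he⟩ := B.rW.pt
      rw [mul_one, mul_one, he _ _ hf, he _ _ (ds_iso hf g),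
        g.measurePreserving.integral_comp g.toHomeomorph.measurableEmbedding f]) rfl
  rw [cen _ _ hf, cen _ _ (ds_iso hf g), sub_zero, B.rW.st.one] at t1
  have ad : Adm ![f, f'] := Ope.adm_two.2 ⟨⟨hf.2.1, hf.c1.2.1⟩, ⟨hf'.2.1, hf'.c1.2.1⟩,
    disjoint_compl_right.mono_right hf'.2.2⟩
  have iv : ∀ b, U (x b (fun y => f (g y)) * x c'' fun y => f' (g y)) =
      U (x (ρ g b) f * x (ρ g c'') f') := fun b => by
    simpa [Fin.prod_univ_two] using s.iv 2 ![b, c''] _ ad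
  obtain ⟨δ, δ0, hδ⟩ := hf.2.1.isCompact.exists_thickening_subset_open
    (isClosed_tsupport f').isOpen_compl (subset_compl_comm.1 hf'.2.2)
  have t2 := lim_two (g := g) B.rU a.sm.lg B.mφ B.mo (fun hf _ hZ => B.unit _ hf.c1 _ hZ)
    (a.mg n n1).mem (a.mg n n1).pU t (a.mg _ n2).mem (a.mg _ n2).pU t' hf
    (B.rU.memd c'' ((ds_iso hf' g).mono fun y hy q => hy (tsupport_comp g.continuous q)))
    (B.rU.memd (ρ g c'') hf') ?_ (by rw [iv, s.phi])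
    (by simpa using s.iv 1 ![c''] _ (Ope.adm_one.2 ⟨hf'.2.1, hf'.c1.2.1⟩))
  · rw [iv] at t2
    refine sub_eq_zero.1 (tendsto_nhds_unique t2 ?_)
    simpa only [mul_one, zero_mul, mul_assoc] using t1.mul_const (U (x (ρ g c'') f'))
  filter_upwards [Ioo_mem_nhdsGT (half_pos δ0)] with d hd z hz
  obtain ⟨p1, p2⟩ := pb_fam (a.sm.rd.pb n2) hd.1 (g z)
  have := s.iv 3 ![c'', φ, φ] _ (PN.adm_cons hf'.2.1 hf'.c1.2.1 p1 fun i => disjoint_left.2
    fun y h1 h2 => hδ (Metric.ball_subset_thickening hz _ (Metric.ball_subset_ball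
      (by linarith [hd.2]) (p2 i h2))) h1)
  rw [pr, pr, map_mul ι, map_mul ι, B.phi, B.phi, B.phi, B.phi, mul_comm, mul_comm _ (x _ f')]
  simpa [Fin.prod_univ_succ, s.phi, ← hu, ← map_sub, ← map_smul] using this

theorem Al.cov (s : Sy x U ρ φ g w ε) (μ ν : Fin 4) :
    ρ g (T μ ν) = (ε μ * ε ν) • T (w μ) (w ν) := by
  refine sub_eq_zero.1 (pol0 (B := fun μ ν => ρ g (T μ ν) - (ε μ * ε ν) • T (w μ) (w ν))
    (fun μ ν => by rw [a.tl.sym μ, a.tl.sym (w μ), mul_comm]) (fun n n1 => ?_) μ ν)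
  have := a.quad s n1
  simp only [map_sum, map_smul] at this
  simp only [smul_sub, Finset.sum_sub_distrib, this, sub_eq_zero]
  refine (Equiv.sum_comp w _).symm.trans (Finset.sum_congr rfl fun μ _ => ?_)
  refine (Equiv.sum_comp w _).symm.trans (Finset.sum_congr rfl fun ν _ => ?_)
  rw [s.sp.2, s.sp.2, smul_smul]
  congr 1
  ring

theorem Al.con (d : Der Φ N x U D) (ν : Fin 4) : ∑ μ, D μ (T μ ν) = 0 := by
  have B := a.bg
  refine B.rW.eq_of fun f hf c' => ?_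
  have hf' : Ds {y | y 0 < 0} fun y => f (rf 0 y) := (hf.rf 0).mono fun y hy => by
    simpa [Hs, rf] using hy
  have o : {y : R4 | y 0 < 0} ⊆ (tsupport f)ᶜ := fun y hy q =>
    lt_asymm (show y 0 < 0 from hy) (hf.2.2 q)
  have hZ := B.rW.memd c' hf'
  generalize x c' _ = Z at hZ
  obtain ⟨ℓ, hℓ⟩ := labx B.rW hf.univ (N.mono hZ o)
  rw [← hℓ, ← hℓ, map_zero, map_sum]
  simp only [hℓ, (B.derW d).der _ _ _ hf.univ _ (N.mono hZ o)]
  rw [← map_sum, ← Finset.sum_mul]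
  refine B.kn (r := r) (sum_mem fun μ _ => B.rW.memd _ (hf.pd μ)) ?_ (fun k f' a1 a2 => ?_) Z hZ
  · rw [map_sum]
    exact sum_mem fun μ _ => B.mem_one (a.tl.kk μ ν) (hf.pd μ)
  · have := a.sm.wd k f' f 0 ν a1 (fun i => ⟨(a2 i).1, mem_of_superset
      ((isClosed_tsupport f).isOpen_compl.mem_nhdsSet.2 ((a2 i).2.2.trans o))
      fun y hy => image_eq_zero_of_notMem_tsupport hy⟩) hf.1 hf.2.1
    rw [Finset.sum_mul, map_sum, Finset.sum_congr rfl fun μ _ => a.tl.rep μ ν _ (hf.pd μ).univ _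
      (mon_mem a1 fun i => (a2 i).2.2.trans (o.trans (compl_subset_compl.2 (hf.self.pd μ).2.2)))]
    simp only [Pi.zero_apply, Complex.ofReal_zero, zero_mul, add_zero, Finset.sum_const_zero,
      mul_zero] at this
    exact this

omit a in
theorem Al.cu (a : Al Φ x U ρ A S ι φ o T r h M c L m) (d : Der Φ N x U D) {W' : P →ₗ[ℂ] ℂ}
    (R : Rg Φ N x W' ρ A S) (d' : Der Φ N x W' D) : Cu Φ N x W' ρ T :=
  ⟨a.tl.mem, a.tl.sym, fun l μ ν => a.cov (a.bg.sy_rfl l) μ ν, fun ν f hf Z hZ => by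
    obtain ⟨ℓ, hℓ⟩ := labx R hf hZ
    simp only [← d'.der _ _ _ hf _ hZ]
    simp only [← hℓ]
    rw [← map_sum, a.con d, map_zero]⟩

theorem Al.cuU (d : Der Φ N x U D) : Cu Φ N x U ρ T := a.cu d a.bg.rU d

theorem Al.cuW (d : Der Φ N x U D) : Cu Φ N x W ρ T := a.cu d a.bg.rW (a.bg.derW d)

theorem Al.ne : T ≠ 0 := by
  rintro rfl
  obtain ⟨f, f', hf, hf', e⟩ := a.sm.nt
  obtain ⟨ξ, x1, x2⟩ := ury (isClosed_tsupport f').isOpen_compl
    (hf.self.mono (subset_compl_comm.1 hf'.2.2))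
  have ad : Adm ![f, f'] := Ope.adm_two.2 ⟨⟨hf.2.1, hf.c1.2.1⟩, ⟨hf'.2.1, hf'.c1.2.1⟩,
    disjoint_compl_right.mono_right hf'.2.2⟩
  have := a.sm.wd 2 _ ξ ![1, 0] 0 ad (fun i => by
    fin_cases i
    exacts [⟨hf.1, x2.2⟩, ⟨hf'.1, mem_of_superset ((isClosed_tsupport ξ).isOpen_compl.mem_nhdsSet.2
      (subset_compl_comm.1 x1.2.2)) fun y hy => image_eq_zero_of_notMem_tsupport hy⟩])
    x1.1 x1.2.1
  rw [Finset.sum_eq_zero fun μ _ => ?_] at this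
  · refine e ?_
    simp [mon, Fin.prod_univ_two, eq_comm] at this ⊢
    exact this
  have z : mon ![f, f'] ∈ net.loc (tsupport (pd μ ξ))ᶜ := mon_mem ad fun i => by
    fin_cases i
    exacts [fun y hy q => ((one_pd x2 μ).2.2 q).2 hy, subset_compl_comm.1 (x1.pd μ).2.2]
  obtain ⟨ℓ, hℓ⟩ := labx a.bg.rW (x1.pd μ).univ (a.bg.emb.mem z)
  exact (a.tl.rep μ 0 _ (x1.pd μ).univ _ z).symm.trans ((hℓ 0).symm.trans (map_zero ℓ))

end Pool.Agent.Lib.MP_7f377f_mp.Bw
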