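import Pool.Agent.Lib.MP_7f377f_mp.G.S3E

/-! No spontaneous breaking of the Euclidean group. -/

noncomputable section

namespace Pool.Agent.Lib.MP_7f377f_mp.S3
variable [Pool.Agent.Lib.MP_7f377f_mp.GD]
set_option linter.unusedSectionVars false

open Filter Topology Set YM7 Pur Wm Matrix ComplexConjugate
open scoped ContDiff

variable {P : Type} [CommRing P] [Algebra ℂ P] {K : Type} [NormedAddCommGroup K]
  [InnerProductSpace ℂ K] [CompleteSpace K] {N : Net P} {W : P →ₗ[ℂ] ℂ}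
  {T : Fin 4 → Fin 4 → (R4 → ℝ) → P} {U : R4 → K →L[ℂ] K} {V : Fin 4 → Fin 4 → (R4 → ℝ) → K}

theorem exB {ι : Type} {u : ι → K} {c : ι → ℂ} {C : ℝ} (h : ∀ z,
    ‖Finsupp.linearCombination ℂ c z‖ ≤ C * ‖Finsupp.linearCombination ℂ u z‖) :
    ∃ y, ∀ a, c a = inner ℂ y (u a) := by
  let S := (LinearMap.range (Finsupp.linearCombination ℂ u)).topologicalClosure
  let e := (Finsupp.linearCombination ℂ u).codRestrict S fun z =>
    Submodule.le_topologicalClosure _ ⟨z, rfl⟩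
  have h1 : DenseRange e := by
    rw [DenseRange, Subtype.dense_iff, ← range_comp]
    exact subset_rfl
  refine ⟨(InnerProductSpace.toDual ℂ K).symm ((Finsupp.linearCombination ℂ c).extendOfNorm e ∘L
    S.orthogonalProjectionOnto), fun a => ?_⟩
  have e1 : u a = e (Finsupp.single a 1) := by simp [e]
  rw [InnerProductSpace.toDual_symm_apply, e1, ContinuousLinearMap.comp_apply,
    S.orthogonalProjectionOnto_mem_subspace_eq_self, LinearMap.extendOfNorm_eq h1 ⟨C, h⟩]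
  simp

/-- centring -/
def ct (W : P →ₗ[ℂ] ℂ) (X : P) : P := X - W X • 1

theorem ct_mem {O X} (h : X ∈ N.loc O) : ct W X ∈ N.loc O :=
  (N.loc O).sub_mem h ((N.loc O).smul_mem _ (N.one O))

theorem cv_r (X Y : P) : cv W X Y = W (X * ct W Y) := by simp [cv, ct, mul_sub, mul_comm]

theorem cv_l (X Y : P) : cv W X Y = W (Y * ct W X) := by simp [cv, ct, mul_sub, mul_comm]

theorem cv_ct (hS : N.St W) (i) {O X} (h : X ∈ N.loc O) (Y : P) :
    cv W (N.Θ i X) Y = W (N.Θ i (ct W X) * ct W Y) := by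
  simp [cv, ct, mul_sub, sub_mul, N.Θ_smul, hS.one, hS.herm i (Net.adm h), mul_comm]

theorem rf_eq (l y i) : rf l y i = sr l i * y i := by
  by_cases h : i = l <;> simp [sr, h, rf_ne]

theorem riesz (hS : N.St W) (i) {s : ℝ} (hs : s * s = 1) {ι : Type} {X : ι → P}
    (hX : ∀ a, X a ∈ N.loc {y | 0 < s * y i}) {u : ι → K}
    (hu : ∀ a b, inner ℂ (u a) (u b) = cv W (N.Θ i (X a)) (X b)) {Y : P}
    (hY : Y ∈ N.loc {y | s * y i < 0}) : ∃ y, ∀ a, cv W (X a) Y = inner ℂ y (u a) := by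
  obtain ⟨H, _, _, _, ⟨r⟩⟩ := hS.exists_rep i
  have cs : ∃ C, ∀ L ∈ N.loc {y | 0 < s * y i}, ∀ x : K, N.nq W i L = ‖x‖ ^ 2 →
      ‖W (L * Y)‖ ≤ C * ‖x‖ := by
    rcases mul_self_eq_one_iff.1 hs with rfl | rfl
    · refine ⟨‖r.Ψ (N.Θ i Y)‖, fun L hL x e => ?_⟩
      have m : L ∈ N.loc (Hs i 0) := N.mono hL fun y hy => by simpa [Hs] using hy
      rw [r.nq m, sq_eq_sq₀ (norm_nonneg _) (norm_nonneg _)] at e
      rw [mul_comm L, ← N.Θ_Θ i Y, ← r.inn (N.mono (N.Θ_mem i hY) fun y hy => by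
        simpa [Hs] using hy) m, N.Θ_Θ, ← e]
      exact norm_inner_le_norm _ _
    · refine ⟨‖r.Ψ Y‖, fun L hL x e => ?_⟩
      have m : N.Θ i L ∈ N.loc (Hs i 0) := N.mono (N.Θ_mem i hL) fun y hy => by simpa [Hs] using hy
      rw [show N.nq W i L = N.nq W i (N.Θ i L) by rw [Net.nq, Net.nq, N.Θ_Θ, mul_comm], r.nq m,
        sq_eq_sq₀ (norm_nonneg _) (norm_nonneg _)] at e
      rw [← N.Θ_Θ i L, ← r.inn m (N.mono hY fun y hy => by simpa [Hs] using hy), ← e, mul_comm]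
      exact norm_inner_le_norm _ _
  obtain ⟨C, hC⟩ := cs
  refine exB (C := C) fun z => ?_
  convert hC (Finsupp.linearCombination ℂ (fun a => ct W (X a)) z)
    (Submodule.sum_mem _ fun a _ => Submodule.smul_mem _ _ (ct_mem (hX a))) _ ?_ using 2
  · simp only [Finsupp.linearCombination_apply, Finsupp.sum, Finset.sum_mul, smul_mul_assoc,
      map_sum, map_smul, cv_l, mul_comm Y]
  · rw [Net.nq, ← inner_self_eq_norm_sq (𝕜 := ℂ)]
    simp only [Finsupp.linearCombination_apply, Finsupp.sum, Finset.sum_mul, smul_mul_assoc,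
      map_sum (N.Θ i), map_sum W, map_smul, N.Θ_smul, sum_inner, inner_smul_left]
    simp only [inner_sum, inner_smul_right, hu, cv_ct hS i (hX _), Finset.mul_sum, mul_smul_comm,
      map_sum W, map_smul, smul_eq_mul]
    rfl

theorem rf_sm (l) : ContDiff ℝ ∞ (rf l) := contDiff_euclidean.2 fun i => by
  simp only [rf_eq]
  fun_prop

theorem rf_hs : {y | rf 0 y ∈ Hs 0 0} ⊆ (Hs 0 0)ᶜ := fun y a b => by
  simp only [Hs, mem_ofPred_eq, rf_self] at a b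
  linarith

theorem Ds.rf {O f} (h : Ds O f) (l) : Ds {y | rf l y ∈ O} fun y => f (rf l y) :=
  h.comp (rf_sm l) (rf_sm l).continuous (rf_rf l) fun z hz => by simpa using hz

theorem Ds.univ {O f} (h : Ds O f) : Ds univ f := h.mono (subset_univ _)

theorem Ds.self {O f} (h : Ds O f) : Ds (tsupport f) f := ⟨h.1, h.2.1, subset_rfl⟩

/-- the part of `Vc` without translations -/
structure V0 (V : Fin 4 → Fin 4 → (R4 → ℝ) → K) : Prop where
  lin : ∀ μ ν f g (t : ℝ), Ds (Hs 0 0) f → Ds (Hs 0 0) g → V μ ν (f + t • g) = V μ ν f + t • V μ ν g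
  sym : ∀ μ ν f, Ds (Hs 0 0) f → V μ ν f = V ν μ f
  con : ∀ ν f, Ds (Hs 0 0) f → ∑ μ, V μ ν (pd μ f) = 0
  bd : ∀ μ ν (A : Set R4), IsCompact A → A ⊆ Hs 0 0 → ∃ C : ℝ,
    ∀ f (a : ℝ), Ds A f → (∀ y, |f y| ≤ a) → ‖V μ ν f‖ ≤ C * a
  rot : ∀ R R', SO R → (∀ i j, R' i j = sr 0 i * sr 0 j * R i j) → ∀ α β γ δ f g, Ds (Hs 0 0) f →
    Ds (Hs 0 0) g → Ds (Hs 0 0) (fun y => f (act R'ᵀ y)) → Ds (Hs 0 0) (fun y => g (act Rᵀ y)) →
    inner ℂ (V α β f) (V γ δ g) = ∑ μ, ∑ ν, ∑ ρ, ∑ σ, (R' μ α * R' ν β * (R ρ γ * R σ δ) : ℝ) *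
      inner ℂ (V μ ν fun y => f (act R'ᵀ y)) (V ρ σ fun y => g (act Rᵀ y))

namespace Cur
variable (h : Cur N W T)
include h

theorem refl' {l μ ν O f X} (hf : Ds O f) (hX : X ∈ N.loc {y | rf l y ∈ O}ᶜ) :
    cv W (N.Θ l (T μ ν f)) X = (sr l μ * sr l ν : ℝ) * cv W (T μ ν fun y => f (rf l y)) X := by
  rw [cv_r, cv_r, h.refl l μ ν f hf.univ _
    (ct_mem (N.mono hX (compl_subset_compl.2 (hf.rf l).2.2)))]

theorem v0 (hV : ∀ μ ν ρ σ f g, Ds (Hs 0 0) f → Ds (Hs 0 0) g →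
      inner ℂ (V μ ν f) (V ρ σ g) = cv W (N.Θ 0 (T μ ν f)) (T ρ σ g)) : V0 V := by
  let S := Submodule.span ℂ {x | ∃ μ ν f, Ds (Hs 0 0) f ∧ V μ ν f = x}
  have m : ∀ μ ν {f}, Ds (Hs 0 0) f → V μ ν f ∈ S := fun μ ν f hf =>
    Submodule.subset_span ⟨μ, ν, f, hf, rfl⟩
  have z : ∀ x ∈ S, (∀ μ ν f, Ds (Hs 0 0) f → inner ℂ (V μ ν f) x = 0) → x = 0 := fun x hx e =>
    inner_self_eq_zero.1 (Submodule.span_induction (p := fun y _ => inner ℂ y x = 0)
      (by rintro _ ⟨μ, ν, f, hf, rfl⟩; exact e μ ν f hf) (inner_zero_left _)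
      (fun _ _ _ _ a b => by rw [inner_add_left, a, b, add_zero])
      (fun _ _ _ a => by rw [inner_smul_left, a, mul_zero]) hx)
  have c := rf_hs
  have k : ∀ μ ν {f O}, Ds (Hs 0 0) f → O ⊆ Hs 0 0 → ct W (N.Θ 0 (T μ ν f)) ∈ N.loc Oᶜ :=
    fun μ ν f O hf e => ct_mem (N.mono (N.Θ_mem 0 (h.mem μ ν hf)) (c.trans (compl_subset_compl.2 e)))
  have q : ∀ μ ν ρ σ f g, Ds (Hs 0 0) f → Ds (Hs 0 0) g → inner ℂ (V μ ν f) (V ρ σ g) =
      (sr 0 μ * sr 0 ν : ℝ) * cv W (T μ ν fun y => f (rf 0 y)) (T ρ σ g) :=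
    fun μ ν ρ σ f g hf hg => (hV _ _ _ _ _ _ hf hg).trans
      (h.refl' hf (N.mono (h.mem ρ σ hg) (subset_compl_comm.1 c)))
  refine ⟨fun μ ν f g t hf hg => ?_, fun μ ν f hf => ?_, fun ν f hf => ?_,
    fun μ ν A hA AO => ?_, fun R R' hR e α β γ δ f g hf hg hf' hg' => ?_⟩
  · have a : Ds (Hs 0 0) (f + t • g) := (Id _).add_mem (a := ⟨f, hf.1⟩) hf
      ((Id _).smul_of_tower_mem t (x := ⟨g, hg.1⟩) hg)
    rw [← Complex.coe_smul]
    refine sub_eq_zero.1 (z _ (S.sub_mem (m _ _ a) (S.add_mem (m _ _ hf) (S.smul_mem _ (m _ _ hg))))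
      fun ρ σ b hb => ?_)
    rw [inner_sub_right, inner_add_right, inner_smul_right, hV _ _ _ _ _ _ hb a,
      hV _ _ _ _ _ _ hb hf, hV _ _ _ _ _ _ hb hg, cv_l, cv_l, cv_l,
      h.lin μ ν f g t hf.univ hg.univ _ (k ρ σ hb (union_subset hf.2.2 hg.2.2)), sub_self]
  · refine sub_eq_zero.1 (z _ (S.sub_mem (m _ _ hf) (m _ _ hf)) fun ρ σ b hb => ?_)
    rw [inner_sub_right, hV _ _ _ _ _ _ hb hf, hV _ _ _ _ _ _ hb hf, cv_l, cv_l,
      h.sym μ ν f hf.univ _ (k ρ σ hb hf.2.2), sub_self]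
  · refine z _ (S.sum_mem fun μ _ => m _ _ (hf.pd μ)) fun ρ σ b hb => ?_
    simp only [inner_sum, hV _ _ _ _ _ _ hb (hf.pd _), cv_l]
    exact h.con ν f hf.univ _ (k ρ σ hb hf.2.2)
  · obtain ⟨C, hC⟩ := h.bd μ ν μ ν {y | rf 0 y ∈ A} A ((hA.image (rf_sm 0).continuous).of_isClosed_subset
      (hA.isClosed.preimage (rf_sm 0).continuous) fun y hy => ⟨_, hy, rf_rf 0 y⟩) hA (disjoint_left.2 fun y a b => c (AO a) (AO b))
    refine ⟨√|C|, fun f a hf ha => ?_⟩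
    have a0 := (abs_nonneg _).trans (ha 0)
    refine le_of_sq_le_sq ?_ (by positivity)
    rw [← inner_self_eq_norm_sq (𝕜 := ℂ), mul_pow, Real.sq_sqrt (abs_nonneg C)]
    refine (RCLike.re_le_norm _).trans ?_
    rw [q _ _ _ _ _ _ (hf.mono AO) (hf.mono AO), norm_mul, show ‖((sr 0 μ * sr 0 ν : ℝ) : ℂ)‖ = 1 by
      unfold sr; split_ifs <;> simp, one_mul]
    refine (hC _ _ a a (hf.rf 0) hf (fun y => ha _) ha).trans ?_
    rw [mul_assoc, sq]
    gcongr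
    exact le_abs_self C
  · have p : ∀ y, act R'ᵀ (rf 0 y) = rf 0 (act Rᵀ y) := fun y => by
      ext i
      simp only [rf_eq, act_apply, transpose_apply, e, Finset.mul_sum]
      exact Finset.sum_congr rfl fun j _ => by
        linear_combination sr 0 i * R j i * y j * sr_sq 0 j
    rw [q _ _ _ _ _ _ hf hg, h.rot R hR _ _ _ _ _ _ (hf.rf 0).univ hg.univ
      (disjoint_left.2 fun y a b => c ((hf.rf 0).2.2 a) (hg.2.2 b))]
    simp only [q _ _ _ _ _ _ hf' hg', p, e, Finset.mul_sum, ← mul_assoc, ← Complex.ofReal_mul]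
    refine Finset.sum_congr rfl fun μ _ => Finset.sum_congr rfl fun ν _ =>
      Finset.sum_congr rfl fun ρ _ => Finset.sum_congr rfl fun σ _ =>
        congrArg₂ (fun (a : ℝ) (b : ℂ) => a * b) ?_ rfl
    linear_combination -sr 0 α * sr 0 β * R μ α * R ν β * R ρ γ * R σ δ *
      (sr 0 ν * sr 0 ν * sr_sq 0 μ + sr_sq 0 ν)

theorem vc (h1 : Sg U) (h2 : ConeH U)
    (hV : ∀ μ ν ρ σ f g, Ds (Hs 0 0) f → Ds (Hs 0 0) g →
      inner ℂ (V μ ν f) (V ρ σ g) = cv W (N.Θ 0 (T μ ν f)) (T ρ σ g))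
    (hU : ∀ μ ν f (u : R4), Ds (Hs 0 0) f → 0 ≤ u 0 → U u (V μ ν f) = V μ ν fun y => f (y - u)) :
    Vc U V := by
  have v := h.v0 hV
  refine ⟨h1, h2, hU, v.lin, v.sym, v.con, v.bd, v.rot, fun μ ν f hf => ?_⟩
  have t := (((h.clu μ ν f hf).comp (tendsto_id.atTop_add_atTop tendsto_id)).norm).sqrt
  rw [norm_zero, Real.sqrt_zero] at t
  refine tendsto_zero_iff_norm_tendsto_zero.2 (t.congr' ?_)
  filter_upwards [eventually_ge_atTop 0] with t ht
  have p : 0 ≤ ax 0 t 0 := by simpa using ht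
  have p' : 0 ≤ ax 0 (t + t) 0 := by simpa using ht
  rw [Function.comp, id, h.tau, ← hV _ _ _ _ _ _ hf (hf.comp (sub_sm _) (G := fun z => z + ax 0 (t + t))
    (by fun_prop) (sub_add_cancel · _) fun z (hz : 0 < z 0) => add_pos_of_pos_of_nonneg hz p'),
    ← hU _ _ _ _ hf p', ← ax_add, h1.mul _ _ p p, ContinuousLinearMap.mul_apply]
  have := h1.adj _ p (V μ ν f) (U (ax 0 t) (V μ ν f))
  rw [rf_ax, show -ax 0 (-t) = ax 0 t by ext j; by_cases e : j = 0 <;> simp [e]] at this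
  rw [← this, inner_self_eq_norm_sq_to_K, norm_pow, Real.sqrt_sq (norm_nonneg _)]
  simp

end Cur

theorem Cur.flux (h : Cur N W T) (h1 : Sg U) (h2 : ConeH U)
    (hV : ∀ μ ν ρ σ f g, Ds (Hs 0 0) f → Ds (Hs 0 0) g →
      inner ℂ (V μ ν f) (V ρ σ g) = cv W (N.Θ 0 (T μ ν f)) (T ρ σ g))
    (hU : ∀ μ ν f (u : R4), Ds (Hs 0 0) f → 0 ≤ u 0 → U u (V μ ν f) = V μ ν fun y => f (y - u))
    {r : ℝ} {Z : P} (hZ : Z ∈ N.loc (Bx r)) {ξ : R4 → ℝ} (hξ : ContDiff ℝ ∞ ξ)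
    (hs : ∀ μ, Ds {y | ∃ l, r < |y l|} (pd μ ξ)) {Λ : Mat} (hΛ : Λᵀ = -Λ) (e : R4) :
    ∑ μ, ∑ ν, cv W (T μ ν fun y => (act Λ y + e) ν * pd μ ξ y) Z = 0 := by
  refine (h.vc h1 h2 hV hU).flux (g := fun μ ν f => cv W (T μ ν f) Z)
    (fun μ ν f g t hf hg => ?_) (fun i s s2 => ?_) hξ hs hΛ e
  · simp only [cv_r, Complex.real_smul]
    exact h.lin μ ν f g t hf.univ hg.univ _ (ct_mem (N.mono hZ fun y a b =>
      let ⟨l, c⟩ := union_subset hf.2.2 hg.2.2 b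
      (a l).not_gt c))
  let σ := Equiv.swap 0 i
  let ε : Fin 4 → ℝ := ![s, s * Equiv.Perm.sign σ, 1, 1]
  have sg : ((Equiv.Perm.sign σ : ℤ) : ℝ) * (Equiv.Perm.sign σ : ℤ) = 1 := by
    rcases Int.units_eq_one_or (Equiv.Perm.sign σ) with e | e <;> simp [e]
  have ε2 : ∀ l, ε l * ε l = 1 := fun l => by
    fin_cases l <;> simp [ε, s2]
    linear_combination s * s * sg + s2
  have σ0 : σ 0 = i := Equiv.swap_apply_left _ _
  have ε0 : ε 0 = s := rfl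
  let M : Mat := (diagonal ε).submatrix σ.symm id
  have M1 : ∀ j l, M j l = if j = σ l then ε l else 0 := fun j l => by
    simp only [M, submatrix_apply, id, diagonal_apply, Equiv.symm_apply_eq]
    split_ifs with e <;> simp [e]
  have M2 : SO M := ⟨by
      ext j l
      by_cases e : j = l <;> simp [Matrix.mul_apply, M1, e, ε2, eq_comm, one_apply], by
    rw [det_permute, det_diagonal, Fin.prod_univ_four, Equiv.Perm.sign_symm]
    simp only [ε, cons_val]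
    linear_combination s * s * sg + s2⟩
  have M3 : ∀ y l, act Mᵀ y l = ε l * y (σ l) := fun y l => by simp [act_apply, M1]
  have sσ : ∀ l, sr i (σ l) = sr 0 l := fun l => by simp only [sr, ← σ0, σ.apply_eq_iff_eq]
  have c1 : ∀ y, chart σ ε r (act Mᵀ y) = y - -ax i (s * r) := fun y => by
    ext j
    obtain ⟨j, rfl⟩ := σ.surjective j
    by_cases e : j = 0 <;> simp [chart, M3, mul_add, ← mul_assoc, ε2, ← σ0, e, ε0, s2]
  have c2 : ∀ y, rf 0 (act Mᵀ y) = act Mᵀ (rf i y) := fun y => by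
    ext j
    simp only [rf_eq, M3, sσ, mul_left_comm]
  clear_value σ ε M
  have d1 : ∀ {f}, Ds {y | r < s * y i} f → Ds (Hs 0 0) fun z => f (chart σ ε r z) := fun {f} hf =>
    (ch_of ε2 r).mem ⟨f, hf.1⟩ (by rwa [σ0, ε0])
  have d2 : ∀ {f}, Ds {y | r < s * y i} f → Ds {y | 0 < s * y i} fun z => f (z - -ax i (s * r)) :=
    fun {f} hf => hf.comp (sub_sm _) (G := fun z => z + _) (by fun_prop) (sub_add_cancel · _)
      fun z hz => by simpa [mul_add, ← mul_assoc, s2] using hz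
  obtain ⟨y, hy⟩ := riesz h.st i s2 (ι := Fin 4 × Fin 4 × {f // Ds {y | r < s * y i} f})
    (X := fun a => N.τ (-ax i (s * r)) (T (σ a.1) (σ a.2.1) a.2.2))
    (fun a => h.tau .. ▸ h.mem _ _ (d2 a.2.2.2))
    (u := fun a => ((ε a.1 * ε a.2.1 : ℝ) : ℂ) • V a.1 a.2.1 fun z => a.2.2.1 (chart σ ε r z))
    (Y := N.τ (-ax i (s * r)) Z) (fun ⟨μ, ν, f, hf⟩ ⟨ρ, τ, g, hg⟩ => by
      have c := rf_hs
      simp only [inner_smul_left, inner_smul_right, Complex.conj_ofReal, h.tau]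
      rw [hV _ _ _ _ _ _ (d1 hf) (d1 hg), h.refl' (d1 hf) (N.mono (h.mem _ _ (d1 hg))
        (subset_compl_comm.1 c)), h.rot M M2 _ _ _ _ _ _ ((d1 hf).rf 0).univ (d1 hg).univ
        (disjoint_left.2 fun y a b => c (((d1 hf).rf 0).2.2 a) ((d1 hg).2.2 b)),
        h.refl' (d2 hf) (N.mono (h.mem _ _ (d2 hg)) fun y a b => by
          simp only [mem_ofPred_eq, rf_self] at a b
          linarith)]
      simp only [M1, c2, c1, sσ, ite_mul, mul_ite, zero_mul, mul_zero, apply_ite Complex.ofReal,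
        Complex.ofReal_zero, Finset.sum_ite_eq', Finset.mem_univ, if_true, Finset.sum_ite_irrel,
        Finset.sum_const_zero, ← mul_assoc, ← Complex.ofReal_mul]
      refine congrArg₂ (fun (a : ℝ) (b : ℂ) => a * b) ?_ rfl
      linear_combination sr 0 μ * sr 0 ν * (ε ν * ε ν * (ε ρ * ε ρ) * (ε τ * ε τ) * ε2 μ +
        ε ρ * ε ρ * (ε τ * ε τ) * ε2 ν + ε τ * ε τ * ε2 ρ + ε2 τ))
    (N.mono (N.τ_mem _ hZ) fun y hy => by
      have := abs_lt.1 (hy i)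
      simp only [sub_neg_eq_add, PiLp.add_apply, PiLp.single_apply, if_true] at this
      rcases mul_self_eq_one_iff.1 s2 with e | e <;> simp only [e, mem_ofPred_eq] at this ⊢ <;>
        linarith [this.1, this.2])
  refine ⟨σ, ε, y, σ0, ε0, ε2, fun μ ν f hf => ?_⟩
  rw [← inner_smul_right, ← hy ⟨μ, ν, f, hf⟩, cv, cv, ← map_mul (N.τ _), h.st.ti _ (Net.adm hZ),
    h.st.ti _ (h.mem _ _ hf.univ), h.st.ti _ (Net.adm (N.mul (h.mem _ _ hf) hZ
      (disjoint_left.2 fun z (a : r < s * z i) b => ?_)))]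
  have := abs_lt.1 (b i)
  rcases mul_self_eq_one_iff.1 s2 with e | e <;> rw [e] at a <;> linarith [this.1, this.2]

end Pool.Agent.Lib.MP_7f377f_mp.S3
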