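import Pool.Agent.Lib.MP_7f377f_mp.G.SwB
import Pool.Agent.Lib.MP_7f377f_mp.G.S3

/-! Rotation covariance from the stress tensor: multilinearity and continuity. -/

noncomputable section

namespace Pool.Agent.Lib.MP_7f377f_mp.Sw
variable [Pool.Agent.Lib.MP_7f377f_mp.GD]
set_option linter.unusedSectionVars false

open MeasureTheory Filter Topology Set YM7 Pur Wm Lm Wv S3 Function BoundedContinuousFunction
open Ro (Iso rot)
open scoped Pointwise

variable {O : Set R4} {f u : R4 → ℝ} {k : ℕ} {K : Fin k → Set R4}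

theorem dc (h : Ds O f) : C1 O f := ⟨h.2.1, h.1.of_le (by simp), h.2.2⟩

theorem c1m {O' : Set R4} (h : C1 O f) (e : O ⊆ O') : C1 O' f := ⟨h.1, h.2.1, h.2.2.trans e⟩

theorem c1s (h : C1 O f) : C1 (tsupport f) f := ⟨h.1, h.2.1, subset_rfl⟩

theorem c1z (h : C1 O f) {y : R4} (hy : y ∉ O) : f y = 0 :=
  image_eq_zero_of_notMem_tsupport fun e => hy (h.2.2 e)

theorem adm_c1 {g : Fin k → R4 → ℝ} (hK : Pairwise fun i j => Disjoint (K i) (K j))
    (h : ∀ i, C1 (K i) (g i)) : Adm g :=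
  ⟨fun i => ⟨(h i).1, (h i).2.1⟩, fun i j e => (hK e).mono (h i).2.2 (h j).2.2⟩

theorem c1_adm {g : Fin k → R4 → ℝ} (h : Adm g) (i) : C1 (tsupport (g i)) (g i) :=
  ⟨(h.1 i).1, (h.1 i).2, subset_rfl⟩

/-- test functions with the supremum norm -/
def Cb (O : Set R4) : Submodule ℝ (R4 →ᵇ ℝ) where
  carrier := {g | C1 O g}
  add_mem' h h' := ⟨h.1.add h'.1, h.2.1.add h'.2.1,
    (tsupport_add _ _).trans (union_subset h.2.2 h'.2.2)⟩
  zero_mem' := ⟨HasCompactSupport.zero, contDiff_const, by simp⟩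
  smul_mem' c _ h := ⟨h.1.smul_left (f := fun _ => c), h.2.1.const_smul c,
    (tsupport_smul_subset_right (fun _ => c) _).trans h.2.2⟩

/-- the normed space of the test functions -/
def CB (O : Set R4) : Type := Cb O

instance : NormedAddCommGroup (CB O) := inferInstanceAs (NormedAddCommGroup (Cb O))

instance : NormedSpace ℝ (CB O) := inferInstanceAs (NormedSpace ℝ (Cb O))

/-- a test function as an element of the normed space -/
def cb (h : C1 O f) : CB O := ⟨ofCompactSupport f h.2.1.continuous h.1, h⟩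

theorem bcf {X : Type} [TopologicalSpace X] {F : X → R4 → ℝ} (hF : Continuous (uncurry F))
    (hO : IsCompact O) (h : ∀ p, ∀ y ∉ O, F p y = 0) :
    ∃ γ : X → R4 →ᵇ ℝ, Continuous γ ∧ ∀ p, ⇑(γ p) = F p := by
  refine ⟨fun p => ofCompactSupport (F p) (hF.comp (.prodMk_right p)) (.intro hO (h p)),
    continuous_iff_continuousAt.2 fun p => Metric.nhds_basis_closedBall.tendsto_right_iff.2
      fun ε ε0 => ?_, fun _ => rfl⟩
  obtain ⟨v, hv, e⟩ := hO.mem_uniformity_of_prod hF.continuousOn (mem_univ p)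
    (Metric.dist_mem_uniformity ε0)
  rw [nhdsWithin_univ] at hv
  filter_upwards [hv] with q hq
  refine (dist_le ε0.le).2 fun y => ?_
  by_cases hy : y ∈ O
  · exact (e q hq y hy).le
  · exact ((congrArg₂ dist (h q y hy) (h p y hy)).trans (dist_self _)).trans_le ε0.le

theorem cb_der {F : ℝ → R4 → ℝ} (hF : ContDiff ℝ 1 (uncurry F)) (hO : IsCompact O) (hf : C1 O f)
    (hd : ∀ y, HasDerivAt (fun t => F t y) (f y) 0) (hs : ∀ᶠ t in 𝓝 0, C1 O (F t)) :
    ∃ γ : ℝ → CB O, (∀ᶠ t in 𝓝 0, ⇑(γ t).1 = F t) ∧ HasDerivAt γ (cb hf) 0 := by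
  classical
  let G : ℝ × R4 → ℝ := fun p => fderiv ℝ (uncurry F) p (1, 0)
  have g1 : Continuous G := (hF.continuous_fderiv one_ne_zero).clm_apply continuous_const
  have g2 : ∀ t y, HasDerivAt (fun t => F t y) (G (t, y)) t := fun t y =>
    HasFDerivAt.comp_hasDerivAt (f := fun t => (t, y)) t
      (hF.differentiable one_ne_zero (t, y)).hasFDerivAt
      ((hasDerivAt_id t).prodMk (hasDerivAt_const t y))
  refine ⟨fun t => if h : C1 O (F t) then cb h else 0, hs.mono fun t h => by simp only [dif_pos h]; rfl,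
    hasDerivAt_iff_isLittleO_nhds_zero.2 (Asymptotics.isLittleO_iff.2 fun ε ε0 => ?_)⟩
  have k := hO.eventually_forall_of_forall_eventually (x₀ := (0 : ℝ))
    (P := fun t y => |G (t, y) - G (0, y)| < ε) fun y _ =>
      (by fun_prop : ContinuousAt (fun z : ℝ × R4 => |G (z.1, z.2) - G (0, z.2)|)
        (0, y)).eventually_lt continuousAt_const (by simpa using ε0)
  obtain ⟨δ, δ0, hδ⟩ := Metric.eventually_nhds_iff_ball.1 (hs.and k)
  filter_upwards [Metric.ball_mem_nhds 0 δ0] with t ht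
  rw [zero_add, dif_pos (hδ t ht).1, dif_pos hs.self_of_nhds]
  refine (norm_le (by positivity)).2 fun y => ?_
  change |F t y - F 0 y - t * f y| ≤ _
  by_cases hy : y ∈ O
  · have := (convex_ball (0 : ℝ) δ).norm_image_sub_le_of_norm_hasDerivWithin_le
      (f := fun s => F s y - s * G (0, y)) (fun s _ => ((g2 s y).sub
        ((hasDerivAt_id s).mul_const _)).hasDerivWithinAt) (C := ε)
      (fun s hs => by simpa using ((hδ s hs).2 y hy).le) (Metric.mem_ball_self δ0) ht
    rw [(hd y).unique (g2 0 y)]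
    simpa [sub_right_comm] using this
  · simp only [c1z (hδ t ht).1 hy, c1z hs.self_of_nhds hy, c1z hf hy, sub_zero, mul_zero, abs_zero]
    positivity

theorem c1_cv (hf : C1 univ f) (hu : C1 univ u) :
    C1 (tsupport f + tsupport u) fun y => ∫ z, f z * u (y - z) :=
  ⟨hf.1.convolution (.mul ℝ ℝ) hu.1, hu.1.contDiff_convolution_right (.mul ℝ ℝ)
    hf.2.1.continuous.locallyIntegrable hu.2.1, closure_minimal
      ((support_convolution_subset (.mul ℝ ℝ)).trans (add_subset_add subset_closure subset_closure))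
      (hf.1.isCompact.add hu.1).isClosed⟩

theorem c1_tr (hu : C1 univ u) {z : R4} (hz : z ∈ O) : C1 (O + tsupport u) fun y => u (y - z) :=
  ⟨hu.1.comp_homeomorph (.subRight z), hu.2.1.comp (by fun_prop), fun y hy =>
    ⟨z, hz, _, tsupport_comp_subset_preimage u (f := fun y => y - z) (by fun_prop) hy,
      add_sub_cancel z y⟩⟩

theorem md0 {β : Type} [Fintype β] {E : Fin k → Type} [∀ i, NormedAddCommGroup (E i)]
    [∀ i, NormedSpace ℝ (E i)] (M : (Fin k → β) → ContinuousMultilinearMap ℝ E ℂ)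
    {a : ℝ → Fin k → β → ℝ} {a' : Fin k → β → ℝ} {γ : ∀ i, ℝ → E i} {γ' : ∀ i, E i}
    (ha : ∀ i j, HasDerivAt (fun t => a t i j) (a' i j) 0) (hγ : ∀ i, HasDerivAt (γ i) (γ' i) 0) :
    HasDerivAt (fun t => ∑ r : Fin k → β, (∏ i, a t i (r i)) • M r fun i => γ i t)
      (∑ i, ((∑ r : Fin k → β, (∏ j, update (a 0) i (a' i) j (r j)) • M r fun i => γ i 0) +
        ∑ r : Fin k → β, (∏ j, a 0 j (r j)) • M r (update (fun i => γ i 0) i (γ' i)))) 0 := by
  simp only [← Finset.sum_add_distrib]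
  rw [Finset.sum_comm]
  refine .fun_sum fun r _ => HasDerivAt.congr_deriv (((HasDerivAt.fun_finsetProd
    (u := Finset.univ) fun i _ => ha i (r i)).fun_smul (f := fun t => M r fun i => γ i t)
    (((M r).hasFDerivAt _).comp_hasDerivAt (0 : ℝ) (hasDerivAt_pi.2 hγ)))) ?_
  rw [ContinuousMultilinearMap.linearDeriv_apply, Finset.sum_add_distrib, ← Finset.sum_smul,
    ← Finset.smul_sum, add_comm]
  congr 2
  refine Finset.sum_congr rfl fun i _ => ?_
  simp only [apply_update (fun j (a : β → ℝ) => a (r j)),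
    Finset.prod_update_of_mem (Finset.mem_univ i), Finset.erase_eq, smul_eq_mul, mul_comm]

variable {V P : Type} [NormedAddCommGroup V] [NormedSpace ℝ V] [CommRing P] [Algebra ℂ P]
  {Φ : Fil V} {N : Net P} {x : V → (R4 → ℝ) → P} {W : P →ₗ[ℂ] ℂ} {ρ : Iso →* V →ₗ[ℝ] V}
  {A : ℝ → V ≃ₗ[ℝ] V} {S : Cor V} {Z : P}

theorem prod_upd (c : Fin k → V) (g : Fin k → R4 → ℝ) (i : Fin k) (a : V) (f : R4 → ℝ) :
    ∏ j, x (update c i a j) (update g i f j) = x a f * ∏ j ∈ Finset.univ.erase i, x (c j) (g j) := by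
  rw [← Finset.mul_prod_erase _ _ (Finset.mem_univ i), update_self, update_self]
  exact congrArg _ (Finset.prod_congr rfl fun m hm => by
    rw [update_of_ne (Finset.ne_of_mem_erase hm), update_of_ne (Finset.ne_of_mem_erase hm)])

namespace Rg
variable (h : Rg Φ N x W ρ A S)
include h

theorem mem (c : V) (hf : C1 O f) : x c f ∈ N.loc O := by
  simpa using gen_mem h.gen ![c] (adm_c1 (K := ![O]) (g := ![f]) Subsingleton.pairwise
    (by simpa using hf)) (O := O) (by simpa using hf.2.2)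

theorem rest (c : Fin k → V) {g : Fin k → R4 → ℝ} (hK : Pairwise fun i j => Disjoint (K i) (K j))
    (i : Fin k) (hg : ∀ j ≠ i, C1 (K j) (g j)) (hZ : Z ∈ N.loc (⋃ i, K i)ᶜ) :
    (∏ j ∈ Finset.univ.erase i, x (c j) (g j)) * Z ∈ N.loc (K i)ᶜ := by
  have := prod_mem (N := N) (U := update K i ∅) (X := update (fun j => x (c j) (g j)) i 1)
    (O := (K i)ᶜ ∩ ⋃ i, K i) (fun j => by
      by_cases e : j = i
      · simpa [e] using N.one _
      · simpa [e] using h.mem _ (hg j e)) (fun a b e => by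
      by_cases e1 : a = i <;> by_cases e2 : b = i <;> simp [e1, e2, hK e]) fun j => by
      by_cases e : j = i
      · simp [e]
      · simpa [e] using ⟨(hK e).subset_compl_right, subset_iUnion K j⟩
  rw [Finset.prod_update_of_mem (Finset.mem_univ i), one_mul, ← Finset.erase_eq] at this
  exact N.mono (N.mul this hZ (disjoint_compl_right.mono_left inter_subset_right))
    (union_subset inter_subset_left (compl_subset_compl.2 (subset_iUnion K i)))

theorem lf (c : V) {g : R4 → ℝ} (t : ℝ) (hf : C1 O f) (hg : C1 O g) (hZ : Z ∈ N.loc Oᶜ) :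
    W (x c (f + t • g) * Z) = W (x c f * Z) + t * W (x c g * Z) :=
  h.lin c f g t (c1m hf (subset_univ _)) (c1m hg (subset_univ _)) Z
    (N.mono hZ (compl_subset_compl.2 (union_subset hf.2.2 hg.2.2)))

theorem lf0 (c : V) (hZ : Z ∈ N.loc Oᶜ) : W (x c 0 * Z) = 0 := by
  simpa using h.lf c 1 (Cb O).zero_mem (Cb O).zero_mem hZ

/-- the field as a linear function of the label -/
def lab (hf : C1 O f) (hZ : Z ∈ N.loc Oᶜ) : V →ₗ[ℝ] ℂ :=
  have e := fun t a b => h.linc t a b f (c1m hf (subset_univ _)) Z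
    (N.mono hZ (compl_subset_compl.2 hf.2.2))
  { toFun c := W (x c f * Z)
    map_add' a b := by simpa using e 1 a b
    map_smul' t a := by simpa [show W (x 0 f * Z) = 0 by simpa using e 1 0 0] using e t a 0 }

/-- the correlation functions as multilinear functions of the labels -/
def ml {g : Fin k → R4 → ℝ} (hK : Pairwise fun i j => Disjoint (K i) (K j))
    (hg : ∀ i, C1 (K i) (g i)) (hZ : Z ∈ N.loc (⋃ i, K i)ᶜ) :
    MultilinearMap ℝ (fun _ : Fin k => V) ℂ :=
  have e : ∀ c i a, W ((∏ j, x (update c i a j) (g j)) * Z) =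
      h.lab (hg i) (h.rest c hK i (fun j _ => hg j) hZ) a := fun c i a => by
    conv_lhs => rw [← update_eq_self i g, prod_upd, mul_assoc]
    rfl
  .mk' (fun c => W ((∏ i, x (c i) (g i)) * Z)) (fun c i a b => by simp only [e, map_add])
    fun c i t a => by simp only [e, map_smul]

theorem bdz (c : Fin k → V) (hc : ∀ i, IsCompact (K i))
    (hK : Pairwise fun i j => Disjoint (K i) (K j)) (hZ : Z ∈ N.loc (⋃ i, K i)ᶜ) :
    ∃ C : ℝ, ∀ (g : Fin k → R4 → ℝ) (b : Fin k → ℝ), (∀ i, C1 (K i) (g i) ∧ ∀ y, |g i y| ≤ b i) →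
      ‖W ((∏ i, x (c i) (g i)) * Z)‖ ≤ C * ∏ i, b i := by
  rw [h.gen.loc] at hZ
  induction hZ using Submodule.span_induction with
  | mem Z hZ =>
    obtain ⟨m, f, q, h1, h2, rfl⟩ := hZ
    choose a ha using fun i => (h2 i).2
    obtain ⟨C, hC⟩ := h.bd _ (Fin.append c a) (Fin.append K fun i => tsupport (f i))
      (Fin.addCases (by simpa using hc) (by simpa using fun i => (h1.1 i).1.isCompact))
      fun i j => by
        have e : ∀ i j, Disjoint (K i) (tsupport (f j)) := fun i j => disjoint_compl_right.mono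
          (subset_iUnion K i) (h2 j).1
        induction i using Fin.addCases <;> induction j using Fin.addCases <;>
          simp only [Fin.append_left, Fin.append_right]
        exacts [fun n => hK fun e => n (e ▸ rfl), fun _ => e _ _, fun _ => (e _ _).symm,
          fun n => h1.2 fun e => n (e ▸ rfl)]
    refine ⟨C * ∏ i, ‖cb (c1_adm h1 i)‖, fun g b hg => ?_⟩
    simpa [Fin.prod_univ_add, ha, mul_right_comm C, mul_assoc C] using hC (Fin.append g f)
      (Fin.append b fun i => ‖cb (c1_adm h1 i)‖) (Fin.addCases (by simpa using hg) fun i => by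
        simpa only [Fin.append_right] using
          ⟨c1_adm h1 i, (cb (c1_adm h1 i)).1.norm_coe_le_norm⟩)
  | zero => exact ⟨0, by simp⟩
  | add X Y _ _ a b =>
    obtain ⟨C, a⟩ := a
    obtain ⟨C', b⟩ := b
    exact ⟨C + C', fun g s hg => by
      rw [mul_add, map_add, add_mul]
      exact norm_add_le_of_le (a g s hg) (b g s hg)⟩
  | smul t X _ a =>
    obtain ⟨C, a⟩ := a
    exact ⟨‖t‖ * C, fun g s hg => by
      rw [mul_smul_comm, map_smul, norm_smul, mul_assoc]
      exact mul_le_mul_of_nonneg_left (a g s hg) (norm_nonneg t)⟩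

theorem cmm (c : Fin k → V) (hc : ∀ i, IsCompact (K i))
    (hK : Pairwise fun i j => Disjoint (K i) (K j)) (hZ : Z ∈ N.loc (⋃ i, K i)ᶜ) :
    ∃ M : ContinuousMultilinearMap ℝ (fun i => CB (K i)) ℂ,
      ∀ g, M g = W ((∏ i, x (c i) (g i).1) * Z) := by
  obtain ⟨C, hC⟩ := h.bdz c hc hK hZ
  have e : ∀ (g : ∀ i, CB (K i)) i a, W ((∏ j, x (c j) (update g i a j).1) * Z) =
      W (x (c i) a.1 * ((∏ j ∈ Finset.univ.erase i, x (c j) (g j).1) * Z)) := fun g i a => by
    rw [← mul_assoc, ← prod_upd, update_eq_self]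
    simp only [apply_update (fun i (g : CB (K i)) => ⇑g.1)]
  have r := fun (g : ∀ i, CB (K i)) i => h.rest c hK i (fun j _ => (g j).2) hZ
  exact ⟨(MultilinearMap.mk' (fun g : ∀ i, CB (K i) => W ((∏ i, x (c i) (g i).1) * Z))
    (fun g i a b => by simpa [e] using! h.lf (c i) 1 a.2 b.2 (r g i))
    (fun g i t a => by simpa [e, h.lf0 _ (r g i)] using!
      (h.lf (c i) t (Cb _).zero_mem a.2 (r g i)))).mkContinuous C fun g : ∀ i, CB (K i) =>
        hC _ _ fun i => ⟨(g i).2, (g i).1.norm_coe_le_norm⟩, fun _ => rfl⟩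

theorem ext1 (c : V) (hO : IsCompact O) (hZ : Z ∈ N.loc Oᶜ) :
    ∃ L : (R4 →ᵇ ℝ) →L[ℝ] ℂ, ∀ g : R4 →ᵇ ℝ, C1 O g → L g = W (x c g * Z) := by
  obtain ⟨M, hM⟩ := h.cmm (K := fun _ : Fin 1 => O) (fun _ => c) (fun _ => hO)
    Subsingleton.pairwise (by rwa [iUnion_const])
  obtain ⟨L, hL⟩ := ContinuousLinearMap.exist_extension_of_finiteDimensional_range (S := Cb O)
    (M.toContinuousLinearMap 0 0)
  exact ⟨L, fun g hg => (DFunLike.congr_fun hL ⟨g, hg⟩).symm.trans ((hM _).trans (by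
    rw [Fin.prod_univ_one]; rfl))⟩

theorem conv (c : V) (hf : C1 univ f) (hu : C1 univ u)
    (hZ : Z ∈ N.loc (tsupport f + tsupport u)ᶜ) :
    Integrable (fun z => f z * W (x c (fun y => u (y - z)) * Z)) ∧
    ∫ z, f z * W (x c (fun y => u (y - z)) * Z) = W (x c (fun y => ∫ z, f z * u (y - z)) * Z) := by
  have hO := hf.1.isCompact.add hu.1
  obtain ⟨L, hL⟩ := h.ext1 c hO hZ
  have := hf.2.1.continuous
  have := hu.2.1.continuous
  obtain ⟨γ, c1, e⟩ := bcf (F := fun z y => f z * u (y - z)) (by fun_prop) hO fun z y hy => by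
    by_cases hz : z ∈ tsupport f
    · rw [c1z (c1_tr hu hz) hy, mul_zero]
    · rw [c1z (c1s hf) hz, zero_mul]
  have i : Integrable γ := c1.integrable_of_hasCompactSupport (.intro hf.1 fun z hz =>
    DFunLike.coe_injective ((e z).trans (funext fun y => by simp [c1z (c1s hf) hz])))
  have e1 : ⇑(∫ z, γ z) = fun y => ∫ z, f z * u (y - z) := funext fun y =>
    ((evalCLM ℝ y).integral_comp_comm i).symm.trans (by simp [e])
  have e2 : ∀ z, L (γ z) = f z * W (x c (fun y => u (y - z)) * Z) := fun z => by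
    by_cases hz : z ∈ tsupport f
    · rw [show γ z = f z • (cb (c1_tr hu hz)).1 from DFunLike.coe_injective (e z), map_smul,
        hL _ (cb _).2]
      rfl
    · rw [show γ z = 0 from DFunLike.coe_injective ((e z).trans (funext fun y => by
        simp [c1z (c1s hf) hz])), c1z (c1s hf) hz]
      simp
  simp only [← e2, ← e1]
  exact ⟨L.integrable_comp i, (L.integral_comp_comm i).trans (hL _ (e1 ▸ c1_cv hf hu))⟩

theorem md {D : ℕ} {c : ℝ → Fin k → V} {c' : Fin k → V} {F : Fin k → ℝ → R4 → ℝ}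
    {F' : Fin k → R4 → ℝ} (hc : ∀ i, IsCompact (K i))
    (hK : Pairwise fun i j => Disjoint (K i) (K j)) (hZ : Z ∈ N.loc (⋃ i, K i)ᶜ)
    (c1 : ∀ t i, c t i ∈ Φ.F D) (c2 : ∀ i, c' i ∈ Φ.F D)
    (c3 : ∀ i, HasDerivAt (fun t => c t i) (c' i) 0) (f1 : ∀ i, ContDiff ℝ 1 (uncurry (F i)))
    (f2 : ∀ i, C1 (K i) (F' i)) (f3 : ∀ i y, HasDerivAt (fun t => F i t y) (F' i y) 0)
    (f4 : ∀ i, ∀ᶠ t in 𝓝 0, C1 (K i) (F i t)) :
    HasDerivAt (fun t => W ((∏ i, x (c t i) (F i t)) * Z))
      (∑ i, W ((x (c' i) (F i 0) + x (c 0 i) (F' i)) *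
        (∏ j ∈ Finset.univ.erase i, x (c 0 j) (F j 0)) * Z)) 0 := by
  let b := Module.finBasis ℝ (Φ.F D)
  choose M hM using fun r : Fin k → _ => h.cmm (fun i => (b (r i) : V)) hc hK hZ
  have e : ∀ (a : Fin k → Φ.F D) (g : ∀ i, CB (K i)), ∑ r : Fin k → _,
      (∏ i, b.repr (a i) (r i)) • M r g = W ((∏ i, x (a i) (g i).1) * Z) := fun a g => by
    refine .trans ?_ (congrArg (h.ml hK (fun i => (g i).2) hZ) (funext fun i =>
      (congrArg Subtype.val (b.sum_repr (a i))).symm.trans (Submodule.coe_sum ..))).symm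
    simp only [MultilinearMap.map_sum, Submodule.coe_smul, MultilinearMap.map_smul_univ, hM]
    rfl
  choose γ g1 g2 using fun i => cb_der (f1 i) (hc i) (f2 i) (f3 i) (f4 i)
  have := md0 M (a := fun t i j => b.repr ⟨c t i, c1 t i⟩ j) (a' := fun i j => b.repr ⟨c' i, c2 i⟩ j)
    (fun i j => (b.coord j).toContinuousLinearMap.hasFDerivAt.comp_hasDerivAt (0 : ℝ)
      (f := fun t => (⟨c t i, c1 t i⟩ : Φ.F D)) (hasDerivAt_iff_tendsto_slope.2
        (tendsto_subtype_rng.2 (hasDerivAt_iff_tendsto_slope.1 (c3 i))))) g2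
  simp only [← apply_update (fun _ (a : Φ.F D) j => b.repr a j), e] at this
  simp only [apply_update (fun i (g : CB (K i)) => ⇑g.1), apply_update (fun _ => Subtype.val),
    (g1 _).self_of_nhds] at this
  refine (this.congr_of_eventuallyEq ((eventually_all.2 g1).mono fun t ht => by
    simp only [ht])).congr_deriv (Finset.sum_congr rfl fun i _ => ?_)
  rw [add_mul, add_mul, map_add, ← prod_upd, ← prod_upd, update_eq_self, update_eq_self]
  rfl

end Rg

end Pool.Agent.Lib.MP_7f377f_mp.Sw
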