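import Pool.Agent.Lib.MP_7f377f_mp.G.BwD
import Pool.Agent.Lib.MP_7f377f_mp.G.SwN
import Pool.Agent.Lib.MP_7f377f_mp.G.Sw
import Pool.Agent.Lib.MP_7f377f_mp.G.WxB0

/-! The stress tensor as a field with a label: general lemmas. -/

noncomputable section

namespace Pool.Agent.Lib.MP_7f377f_mp.Bw
variable [Pool.Agent.Lib.MP_7f377f_mp.GD]
set_option linter.unusedSectionVars false

open Filter Topology Set YM7 Pur Wm Lm Wv S3 Sw Matrix MvPolynomial Real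
open Ro (Iso rot prm)
open Ope (Rd hn pr Ai Dt Tn ee)
open scoped ContDiff

variable {V P : Type} [NormedAddCommGroup V] [NormedSpace ℝ V] [CommRing P] [Algebra ℂ P]
  {Φ : Fil V} {N : Net P} {x : V → (R4 → ℝ) → P} {U W : P →ₗ[ℂ] ℂ} {ρ : Iso →* V →ₗ[ℝ] V}
  {A : ℝ → V ≃ₗ[ℝ] V} {S : Cor V} {ι : Pol →ₐ[ℂ] P} {φ o : V} {T T₀ : Fin 4 → Fin 4 → V}
  {H : Type} [NormedAddCommGroup H] [InnerProductSpace ℂ H] [CompleteSpace H] {r : N.Rep W 0 H}
  {h : R4 → ℝ} {M c : ℝ → ℝ} {L : Tn} {m : R4 → ℝ → V} {D δ : Fin 4 → V →ₗ[ℝ] V}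
  {σ : Mat → V →ₗ[ℝ] V} {g : Iso} {w : Equiv.Perm (Fin 4)} {ε : Fin 4 → ℝ}

theorem lim_of_sep {E I J : Type} [NormedAddCommGroup E] [NormedSpace ℝ E] [FiniteDimensional ℝ E]
    {l : Filter J} [l.NeBot] (ℓ : I → E →ₗ[ℝ] ℂ) (h0 : ∀ a, (∀ i, ℓ i a = 0) → a = 0) {a : J → E}
    (h1 : ∀ i, ∃ z, Tendsto (fun s => ℓ i (a s)) l (𝓝 z)) : ∃ b, Tendsto a l (𝓝 b) := by
  choose z hz using h1
  have e := LinearMap.isClosedEmbedding_of_injective (f := LinearMap.pi ℓ)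
    (LinearMap.ker_eq_bot'.2 fun a e => h0 a (congrFun e))
  have t : Tendsto (fun s => LinearMap.pi ℓ (a s)) l (𝓝 z) := tendsto_pi_nhds.2 hz
  obtain ⟨b, rfl⟩ := e.isClosed_range.mem_of_tendsto t (.of_forall fun s => ⟨_, rfl⟩)
  exact ⟨b, e.isInducing.tendsto_nhds_iff.2 t⟩

theorem ury {O : Set R4} (hO : IsOpen O) {f : R4 → ℝ} (hf : Ds O f) : ∃ ξ, Ds O ξ ∧ One ξ f := by
  obtain ⟨K, k1, k2, k3⟩ := exists_compact_between hf.2.1.isCompact hO hf.2.2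
  obtain ⟨K', l1, l2, l3⟩ := exists_compact_between hf.2.1.isCompact isOpen_interior k2
  obtain ⟨ξ, a, b, -⟩ := exists_contMDiffMap_zero_one_of_isClosed (n := ⊤) (modelWithCornersSelf ℝ R4)
    isOpen_interior.isClosed_compl l1.isClosed (disjoint_left.2 fun y e e' => e (l3 e'))
  have d := Ds.of ξ.contMDiff.contDiff k1 fun y hy => a fun e => hy (interior_subset e)
  exact ⟨ξ, d.mono k3, d.univ, (mem_of_superset (isOpen_interior.mem_nhdsSet.2 l2)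
    fun y hy => b (interior_subset hy))⟩

theorem dom_null (hD : N.Dom U W) {O : Set R4} (hO : IsCompact O) {E : P} (hE : E ∈ N.loc O)
    (h0 : ∀ Z ∈ N.loc Oᶜ, U (E * Z) = 0) : ∀ Z ∈ N.loc Oᶜ, W (E * Z) = 0 := fun Z hZ => by
  obtain ⟨R₀, h1⟩ := hO.isBounded.subset_ball 0
  refine hD.eq_zero (μ := 0) (Net.adm (N.mul hE hZ disjoint_compl_right)) ?_
  filter_upwards [Net.box hZ, eventually_ge_atTop 0, eventually_ge_atTop R₀] with R a b c B hB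
  have o : ∀ y ∈ O, |y 0| < R := fun y hy =>
    ((PiLp.norm_apply_le y 0).trans_lt (mem_ball_zero_iff.1 (h1 hy))).trans_le c
  rw [show N.Θ 0 B * (E * Z) * B = E * (N.Θ 0 B * Z * B) by ring]
  refine h0 _ (N.mono (N.mul (N.mul (N.Θ_mem 0 hB) a (disjoint_left.2 fun y e e' => ?_)) hB
    (disjoint_left.2 fun y e e' => ?_)) ?_)
  · linarith [(abs_lt.1 (e'.2 0)).1, (e 0).trans_eq (rf_self 0 y)]
  · rcases e with e | e
    · linarith [(e 0).trans_eq (rf_self 0 y), e' 0]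
    · linarith [(abs_lt.1 (e.2 0)).2, e' 0]
  · rintro y ((e | e) | e) hy
    · linarith [(abs_lt.1 (o y hy)).1, (e 0).trans_eq (rf_self 0 y)]
    · exact e.1 hy
    · linarith [(abs_lt.1 (o y hy)).2, e 0]

theorem sp_rfl (l : Fin 4) : Sp (rfL l) 1 (sr l) :=
  ⟨sr_sq l, fun y μ => by simp [rfL_eq, rf_eq]⟩

theorem sp_prm (w : Equiv.Perm (Fin 4)) : Sp (prm w) w 1 :=
  ⟨by simp, fun y μ => by simp [Ro.prm_apply]⟩

theorem Sp.ee (a : Sp g w ε) (μ : Fin 4) : g (ee μ) = ε μ • ee (w μ) := by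
  ext i
  obtain ⟨i, rfl⟩ := w.surjective i
  by_cases e : i = μ <;> simp [a.2, e]

theorem Sp.pd (a : Sp g w ε) {f : R4 → ℝ} (hf : ContDiff ℝ ∞ f) (ν : Fin 4) :
    pd ν (fun y => f (g y)) = ε ν • fun y => pd (w ν) f (g y) := by
  funext y
  have := a.ee ν
  rw [pd_eq (f := fun y => f (g y)) (hf.comp g.contDiff), pd_eq hf]
  simp only [Pi.smul_apply]
  rw [← map_smul, ← this]
  exact congrFun (congrArg _ (g.toContinuousLinearEquiv.comp_right_fderiv (f := f) (x := y))) _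

theorem ds_iso {O : Set R4} {f : R4 → ℝ} (hf : Ds O f) (g : Iso) : Ds (g ⁻¹' O) fun y => f (g y) :=
  hf.comp g.contDiff g.symm.continuous g.symm_apply_apply fun z hz => by simpa using hz

theorem ds_km {O : Set R4} {f : R4 → ℝ} (hf : Ds O f) (Λ : Mat) (e : R4) (ν : Fin 4) :
    Ds O (km Λ e ν f) :=
  ⟨((contDiff_euclidean.1 ((act_sm Λ).add contDiff_const)) ν).mul hf.1, hf.2.1.mul_left,
    tsupport_mul_subset_right.trans hf.2.2⟩

theorem one_sub {ξ f : R4 → ℝ} (a : One ξ f) : tsupport f ⊆ tsupport ξ := fun y hy =>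
  subset_tsupport _ (by simp [a.2.self_of_nhdsSet y hy])

theorem one_pd {ξ f : R4 → ℝ} (a : One ξ f) (μ : Fin 4) : Ds (tsupport ξ \ tsupport f) (pd μ ξ) :=
  ⟨(a.1.pd μ).1, (a.1.pd μ).2.1, fun y hy => ⟨(a.1.self.pd μ).2.2 hy, fun e => by
    refine notMem_tsupport_iff_eventuallyEq.2 ?_ hy
    filter_upwards [(a.2.filter_mono (nhds_le_nhdsSet e)).eventually_nhds] with z hz
    rw [pd_eq a.1.1]
    simp [EventuallyEq.fderiv_eq (f := fun _ => (1 : ℝ)) hz]⟩⟩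

theorem ns_gen {O : Set R4} : ns.loc O = Submodule.span ℂ
    {Y | ∃ (k : ℕ) (f : Fin k → R4 → ℝ), Adm f ∧ (∀ i, Ds O (f i)) ∧ mon f = Y} :=
  congrArg (Submodule.span ℂ) (Set.ext fun Y => ⟨by
    rintro ⟨k, f, q, a, b, rfl⟩
    exact ⟨k, f, a, fun i => ⟨(b i).2.1, (a.1 i).1, (b i).1⟩,
      Finset.prod_congr rfl fun i _ => (b i).2.2⟩, by
    rintro ⟨k, f, a, b, rfl⟩
    exact ⟨k, f, _, a, fun i => ⟨(b i).2.2, (b i).1, rfl⟩, rfl⟩⟩)

theorem ns_le {O : Set R4} {Y : Pol} (hY : Y ∈ ns.loc O) : Y ∈ net.loc O :=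
  Submodule.span_le.2 (by rintro _ ⟨k, f, a, b, rfl⟩; exact mon_mem a fun i => (b i).2.2)
    (ns_gen ▸ hY)

theorem mon_ns {O : Set R4} {k : ℕ} {f : Fin k → R4 → ℝ} (a : Adm f) (b : ∀ i, Ds O (f i)) :
    mon f ∈ ns.loc O := ns_gen ▸ Submodule.subset_span ⟨k, f, a, b, rfl⟩

theorem X_ns {O : Set R4} {f : R4 → ℝ} (b : Ds O f) : X f ∈ ns.loc O := by
  simpa [mon] using mon_ns (f := ![f]) (Ope.adm_one.2 ⟨b.2.1, b.c1.2.1⟩) (by simpa using b)

theorem ns_ind {O : Set R4} {p : Pol → ℂ} (hp : IsLinearMap ℂ p)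
    (h0 : ∀ k (f : Fin k → R4 → ℝ), Adm f → (∀ i, Ds O (f i)) → p (mon f) = 0) :
    ∀ Y ∈ ns.loc O, p Y = 0 := fun _ hY =>
  Submodule.span_le (p := LinearMap.ker (hp.mk' p)).2
    (by rintro _ ⟨k, f, a, b, rfl⟩; exact h0 k f a b) (ns_gen ▸ hY)

theorem ns_cpt {O : Set R4} {Y : Pol} (hY : Y ∈ ns.loc O) :
    ∃ B, IsCompact B ∧ B ⊆ O ∧ Y ∈ ns.loc B := by
  rw [ns_gen] at hY
  induction hY using Submodule.span_induction with
  | mem Y hY =>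
    obtain ⟨k, f, a, b, rfl⟩ := hY
    exact ⟨_, isCompact_iUnion fun i => (b i).2.1, iUnion_subset fun i => (b i).2.2,
      mon_ns a fun i => (b i).self.mono (subset_iUnion (fun i => tsupport (f i)) i)⟩
  | zero => exact ⟨∅, isCompact_empty, empty_subset _, Submodule.zero_mem _⟩
  | add X Y _ _ h h' =>
    obtain ⟨B, a, b, c⟩ := h
    obtain ⟨B', a', b', c'⟩ := h'
    exact ⟨_, a.union a', union_subset b b',
      Submodule.add_mem _ (ns.mono c subset_union_left) (ns.mono c' subset_union_right)⟩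
  | smul c X _ h => exact h.imp fun _ e => ⟨e.1, e.2.1, Submodule.smul_mem _ _ e.2.2⟩

theorem pr_ns (a : Rd h) (b : ContDiff ℝ ∞ h) {n : R4} (hn1 : ‖n‖ = 1) {s : ℝ} (s0 : 0 < s) (z : R4) :
    pr (hn h n) s z ∈ ns.loc (Metric.ball z (2 * s)) := by
  have a := a.pb hn1
  have m := adm_sub (a.1.smul (inv_pos.2 s0).ne') z
  rw [Ope.pr_eq]
  refine mon_ns m fun i => ⟨?_, (m.1 i).1, fun y hy => ?_⟩
  · fin_cases i <;> exact b.comp (by fun_prop)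
  have e := tsupport_comp (θ := fun y => s⁻¹ • (y - z)) (by fun_prop) hy
  have : ‖s⁻¹ • (y - z)‖ < 2 := by
    fin_cases i
    · exact mem_ball_zero_iff.1 (a.2 e)
    · exact norm_neg (s⁻¹ • (y - z)) ▸ mem_ball_zero_iff.1
        (a.2 (tsupport_comp (θ := fun y : R4 => -y) continuous_neg e))
  rwa [norm_smul, norm_inv, Real.norm_of_nonneg s0.le, inv_mul_lt_iff₀ s0, mul_comm,
    ← mem_ball_iff_norm] at this

section
variable (R : Rg Φ N x W ρ A S)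
include R

theorem _root_.Pool.Agent.Lib.MP_7f377f_mp.Sw.Rg.iv_rfl
    (re : ∀ k (c : Fin k → V) f, Adm f → (W (∏ i, x (c i) (f i))).im = 0) (μ : Fin 4) :
    Iv x W ρ (rfL μ) :=
  fun k c f a => by
    have e : ∀ c, ρ (rfL μ) (ρ (rfL μ) c) = c := fun c => by
      rw [← Module.End.mul_apply, ← map_mul, show rfL μ * rfL μ = 1 from
        LinearIsometryEquiv.ext fun y => by simp [rfL_eq], map_one, Module.End.one_apply]
    have := R.st.herm μ (gen_mem R.gen (fun i => ρ (rfL μ) (c i)) a fun _ => subset_univ _)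
    simp only [Wx.Θ_word R.gen, e] at this
    rw [rfL_eq, this, Complex.conj_eq_iff_im.2 (re _ _ _ a)]

theorem _root_.Pool.Agent.Lib.MP_7f377f_mp.Sw.Rg.tend {J : Type} {l : Filter J} {a : J → V} {b : V}
    {d : ℕ} (ha : ∀ s, a s ∈ Φ.F d) (hb : Tendsto a l (𝓝 b)) {f : R4 → ℝ} (hf : Ds univ f) {Z : P}
    (hZ : Z ∈ N.loc (tsupport f)ᶜ) : Tendsto (fun s => W (x (a s) f * Z)) l (𝓝 (W (x b f * Z))) := by
  have := Φ.fin d
  rcases l.eq_or_neBot with rfl | _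
  · exact tendsto_bot
  exact (((R.lab hf.self.c1 hZ).domRestrict (Φ.F d)).continuous_of_finiteDimensional.tendsto
    ⟨b, (Φ.F d).closed_of_finiteDimensional.mem_of_tendsto hb (.of_forall ha)⟩).comp
    (tendsto_subtype_rng.2 hb : Tendsto (fun s => (⟨a s, ha s⟩ : Φ.F d)) l _)

theorem _root_.Pool.Agent.Lib.MP_7f377f_mp.Sw.Rg.mir {f : R4 → ℝ} (hf : Ds (Hs 0 0) f) (c : V) :
    (x c fun y => f (rf 0 y)) ∈ N.loc (Hs 0 0)ᶜ := N.mono (R.memd c (hf.rf 0)) rf_hs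

theorem _root_.Pool.Agent.Lib.MP_7f377f_mp.Sw.Rg.eq_of {a b : V} (e : ∀ f, Ds (Hs 0 0) f → ∀ c',
    W (x a f * x c' fun y => f (rf 0 y)) = W (x b f * x c' fun y => f (rf 0 y))) : a = b :=
  sub_eq_zero.1 (R.nd _ fun c' f hf =>
    ((R.lab hf.c1 (R.mir hf c')).map_sub a b).trans (sub_eq_zero.2 (e f hf c')))

theorem _root_.Pool.Agent.Lib.MP_7f377f_mp.Sw.Rg.zero_of {J : Type} {l : Filter J} [l.NeBot] {a : J → V}
    {d : ℕ} (ha : ∀ s, a s ∈ Φ.F d) (e : ∀ f, Ds (Hs 0 0) f → ∀ c',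
      Tendsto (fun s => W (x (a s) f * x c' fun y => f (rf 0 y))) l (𝓝 0)) : Tendsto a l (𝓝 0) := by
  have := Φ.fin d
  obtain ⟨b, hb⟩ := lim_of_sep (I := {f // Ds (Hs 0 0) f} × V) (a := fun s => ⟨a s, ha s⟩)
    (fun i => (R.lab i.1.2.c1 (R.mir i.1.2 i.2)).domRestrict (Φ.F d))
    (fun a e => Subtype.ext (R.nd _ fun c' f hf => e (⟨f, hf⟩, c'))) fun i => ⟨_, e _ i.1.2 i.2⟩
  have hb := (continuous_subtype_val.tendsto _).comp hb
  rwa [← R.nd b fun c' f hf => tendsto_nhds_unique (R.tend ha hb hf.univ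
    (N.mono (R.mir hf c') (compl_subset_compl.2 hf.2.2))) (e f hf c')]

theorem _root_.Pool.Agent.Lib.MP_7f377f_mp.Sw.Rg.smulf (t : ℝ) (a : V) {f : R4 → ℝ} (hf : Ds univ f)
    {Z : P} (hZ : Z ∈ N.loc (tsupport f)ᶜ) : W (x a (t • f) * Z) = t * W (x a f * Z) := by
  simpa [R.lf0 a hZ] using R.lf a t (Cb _).zero_mem hf.self.c1 hZ

theorem _root_.Pool.Agent.Lib.MP_7f377f_mp.Sw.Rg.flm {O : Set R4} {ξ : R4 → ℝ}
    (a : ∀ μ, Ds O (pd μ ξ)) (Λ : Mat) (e : R4) : fl x T Λ e ξ ∈ N.loc O :=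
  Submodule.sum_mem _ fun μ _ => Submodule.sum_mem _ fun ν _ => R.memd _ (ds_km (a μ) Λ e ν)

open MeasureTheory in
theorem _root_.Pool.Agent.Lib.MP_7f377f_mp.Sw.Rg.pt : ∃ e : V →ₗ[ℝ] ℂ, ∀ a f, Ds univ f →
    W (x a f) = e a * (∫ y, f y : ℝ) := by
  let b : ContDiffBump (0 : R4) := ⟨1, 2, one_pos, one_lt_two⟩
  have u : Ds univ (b.normed volume) := ⟨b.contDiff_normed, b.hasCompactSupport_normed, subset_univ _⟩
  have k : ∀ a {f u}, Ds univ f → Ds univ u →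
      (∫ y, f y : ℝ) * W (x a u) = W (x a fun y => ∫ z, f z * u (y - z)) := fun a f u hf hu => by
    have := (R.conv a hf.c1 hu.c1 (N.one _)).2
    simp only [mul_one, ← R.gen.tau, R.st.ti _ (R.memd a hu)] at this
    rw [← this, integral_mul_const, integral_complex_ofReal]
  refine ⟨R.lab u.c1 (N.one _), fun a f hf => ?_⟩
  have e := k a u hf
  rw [b.integral_normed, Complex.ofReal_one, one_mul] at e
  rw [e, mul_comm, show R.lab u.c1 (N.one _) a = W (x a (b.normed volume)) from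
    congrArg W (mul_one _), k a hf u]
  congr 2
  funext y
  rw [← integral_sub_left_eq_self _ _ y]
  simp [mul_comm]

end

section
variable (B : Bg Φ N x U W ρ A S ι φ o)
include B

theorem Bg.unitW {f : R4 → ℝ} (hf : Ds univ f) {Z : P} (hZ : Z ∈ N.loc (tsupport f)ᶜ) :
    W (x o f * Z) = (∫ y, f y : ℝ) * W Z := by
  have := dom_null B.dom hf.2.1 ((N.loc _).sub_mem (B.rU.memd o hf.self)
    ((N.loc _).smul_mem ((∫ y, f y : ℝ) : ℂ) (N.one _)))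
    (fun Z hZ => by simp [sub_mul, B.unit f hf.c1 Z hZ]) Z hZ
  simpa [sub_mul, sub_eq_zero] using this

theorem Bg.derW (a : Der Φ N x U D) : Der Φ N x W D :=
  ⟨a.upD, fun ν c f hf Z hZ => by
    have := dom_null B.dom hf.2.1 ((N.loc _).sub_mem (B.rU.memd (D ν c) hf.self)
      (B.rU.memd c (hf.self.pd ν))) (fun Z hZ => by simp [sub_mul, a.der ν c f hf Z hZ]) Z hZ
    simpa [sub_mul, sub_eq_zero] using this⟩

theorem Bg.opsW (a : Ops Φ N x U T D δ σ) : Ops Φ N x W T D δ σ :=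
  ⟨B.derW a.toDer, a.upδ, a.upσ, a.σ0, fun Λ e c f ξ hΛ hf hξ Z hZ => by
    have d := hf.self.mono (one_sub hξ)
    have := dom_null B.dom hξ.1.2.1 ((N.loc _).sub_mem (N.mono (N.mul (B.rU.flm (T := T)
      (one_pd hξ) Λ e) (B.rU.memd c hf.self) disjoint_sdiff_left) (union_subset diff_subset d.2.2))
      ((N.loc _).sub_mem (Submodule.sum_mem _ (t := Finset.univ) fun ν _ => B.rU.memd (δ ν c)
        (ds_km d Λ e ν)) (B.rU.memd (σ Λ c) d))) (fun Z hZ => by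
          simp [sub_mul, Finset.sum_mul, a.q Λ e c f ξ hΛ hf hξ Z hZ]) Z hZ
    simpa [sub_mul, Finset.sum_mul, sub_eq_zero] using this⟩

theorem Bg.sy_rfl (l : Fin 4) : Sy x U ρ φ (rfL l) 1 (sr l) := ⟨sp_rfl l, B.rU.iv_rfl B.real l, B.ρφ.1 l⟩

theorem Bg.sy_prm (w : Equiv.Perm (Fin 4)) : Sy x U ρ φ (prm w) w 1 := ⟨sp_prm w, B.iv w, B.ρφ.2 w⟩

/-- a vector in `Kk` which is orthogonal to the generators vanishes -/
theorem Bg.kn {E : P} (hE : E ∈ N.loc (Hs 0 0)) (hK : r.Ψ E ∈ Kk ι r)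
    (h0 : ∀ k (f : Fin k → R4 → ℝ), Adm f → (∀ i, Ds {y | y 0 < 0} (f i)) → W (E * ι (mon f)) = 0) :
    ∀ Z ∈ N.loc {y | y 0 < 0}, W (E * Z) = 0 := fun Z hZ => by
  have m := N.mono (N.Θ_mem 0 hZ) (O' := Hs 0 0) fun y hy => by simpa [Hs] using hy
  have : Kk ι r ≤ (ℂ ∙ r.Ψ E)ᗮ := Submodule.topologicalClosure_minimal _ (by
    rintro _ ⟨Y, hY, rfl⟩
    rw [Submodule.mem_orthogonal_singleton_iff_inner_left]
    refine (r.inn (B.emb.mem (ns_le hY)) hE).trans ?_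
    rw [← B.emb.Θ, mul_comm]
    exact ns_ind (p := fun Y => W (E * ι Y)) ⟨by simp [mul_add], by simp⟩ h0 _
      (ns.mono (ns.Θ_mem 0 hY) fun y hy => by simpa [Hs] using hy)) (Submodule.isClosed_orthogonal _)
  rw [mul_comm, ← N.Θ_Θ 0 Z, ← r.inn m hE, inner_self_eq_zero.1
    (Submodule.mem_orthogonal_singleton_iff_inner_left.1 (this hK)), inner_zero_right]

theorem Bg.kk_of {Y : Pol} (hY : Y ∈ ns.loc (Hs 0 0)) : r.Ψ (ι Y) ∈ Kk ι r :=
  Submodule.le_topologicalClosure _ ⟨Y, hY, rfl⟩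

theorem Bg.mem_one {a : V} (ha : Mem x ι r a) {f : R4 → ℝ} (hf : Ds (Hs 0 0) f) :
    r.Ψ (x a f) ∈ Kk ι r := by
  simpa using ha f ∅ 1 hf isCompact_empty (empty_subset _) (empty_disjoint _) (N.one _)
    fun Y hY => by simpa using B.kk_of (ns.mono hY diff_subset)

theorem Bg.mem_ns {a : V} (ha : Mem x ι r a) {f : R4 → ℝ} (hf : Ds (Hs 0 0) f) {Y : Pol}
    (hY : Y ∈ ns.loc (Hs 0 0 \ tsupport f)) : r.Ψ (x a f * ι Y) ∈ Kk ι r := by
  obtain ⟨K, k1, k2, k3⟩ := ns_cpt hY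
  exact ha f K _ hf k1 (k2.trans diff_subset) (disjoint_sdiff_left.mono_left k2)
    (B.emb.mem (ns_le k3)) fun Z hZ => map_mul ι Z Y ▸ B.kk_of (ns.mono
      (ns.mul hZ k3 disjoint_sdiff_left) (union_subset diff_subset (k2.trans diff_subset)))

theorem Bg.mem_two {a b : V} (ha : Mem x ι r a) (hb : Mem x ι r b) {f f' : R4 → ℝ}
    (hf : Ds (Hs 0 0) f) (hf' : Ds (Hs 0 0 \ tsupport f) f') : r.Ψ (x a f * x b f') ∈ Kk ι r :=
  ha f _ _ hf hf'.2.1 (hf'.2.2.trans diff_subset) (disjoint_sdiff_left.mono_left hf'.2.2)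
    (B.rW.memd b hf'.self) fun _ hY => mul_comm (x b f') _ ▸ B.mem_ns hb (hf'.mono diff_subset) hY

end

end Pool.Agent.Lib.MP_7f377f_mp.Bw
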