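import Pool.Agent.Lib.MP_7f377f_mp.G.BwL

/-! The stress tensor as a field with a label: construction. -/

noncomputable section

namespace Pool.Agent.Lib.MP_7f377f_mp.Bw
variable [Pool.Agent.Lib.MP_7f377f_mp.GD]
set_option linter.unusedSectionVars false

open Filter Topology Set YM7 Pur Wm Lm Wv S3 Sw Matrix MvPolynomial Real
open Ro (Iso rot prm)
open Ope (Rd hn pr Ai Dt Tn ee)
open scoped ContDiff

variable {V P : Type} [NormedAddCommGroup V] [NormedSpace ℝ V] [CommRing P] [Algebra ℂ P]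
  {Φ : Fil V} {N : Net P} {x : V → (R4 → ℝ) → P} {U W : P →ₗ[ℂ] ℂ} {ρ : Iso →* V →ₗ[ℝ] V}
  {A : ℝ → V ≃ₗ[ℝ] V} {S : Cor V} {ι : Pol →ₐ[ℂ] P} {φ o : V} {T T₀ : Fin 4 → Fin 4 → V}
  {H : Type} [NormedAddCommGroup H] [InnerProductSpace ℂ H] [CompleteSpace H] {r : N.Rep W 0 H}
  {h : R4 → ℝ} {M c : ℝ → ℝ} {L : Tn} {m : R4 → ℝ → V} {D δ : Fin 4 → V →ₗ[ℝ] V}
  {σ : Mat → V →ₗ[ℝ] V} {g : Iso} {w : Equiv.Perm (Fin 4)} {ε : Fin 4 → ℝ}

theorem vec (R : Rg Φ N x W ρ A S) (r : N.Rep W 0 H) {f : R4 → ℝ} (hf : Ds (Hs 0 0) f) {Z : P}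
    (hZ : Z ∈ N.loc (Hs 0 0 \ tsupport f)) : ∃ Γ : V →ₗ[ℝ] H, (∀ a, Γ a = r.Ψ (x a f * Z)) ∧
      ∀ a, ∀ Y ∈ N.loc (Hs 0 0), ∃ e : N.Θ 0 Y * Z ∈ N.loc (tsupport f)ᶜ,
        inner ℂ (r.Ψ Y) (Γ a) = R.lab hf.self.c1 e a := by
  have k : ∀ a, ∀ Y ∈ N.loc (Hs 0 0), ∃ e : N.Θ 0 Y * Z ∈ N.loc (tsupport f)ᶜ,
      inner ℂ (r.Ψ Y) (r.Ψ (x a f * Z)) = R.lab hf.self.c1 e a := fun a Y hY =>
    ⟨N.mono (N.mul (N.Θ_mem 0 hY) hZ (disjoint_left.2 fun y e e' => rf_hs e e'.1))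
      (union_subset (rf_hs.trans (compl_subset_compl.2 hf.2.2)) fun y e => e.2),
      (r.inn hY (N.mono (N.mul (R.memd a hf.self) hZ disjoint_sdiff_right)
        (union_subset hf.2.2 diff_subset))).trans (congrArg W (mul_left_comm _ _ _))⟩
  choose e he using k
  exact ⟨{ toFun a := r.Ψ (x a f * Z)
           map_add' a b := r.ext fun Y hY => by
             rw [inner_add_right, he _ _ hY, he _ _ hY, he _ _ hY, map_add]
           map_smul' t a := r.ext fun Y hY => by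
             rw [RingHom.id_apply, ← Complex.coe_smul, inner_smul_right, he _ _ hY, he _ _ hY,
               map_smul, Complex.real_smul] }, fun _ => rfl, fun a Y hY => ⟨_, he a Y hY⟩⟩

variable (Φ x ι r) in
/-- labels together with the functionals which they represent -/
def Rs (R : Rg Φ N x W ρ A S) : Submodule ℝ (V × ((R4 → ℝ) → Pol → ℂ)) where
  carrier := {p | p.1 ∈ Φ.F 4 ∧ Mem x ι r p.1 ∧ (∀ f, Ds univ f → W (x p.1 f * 1) = 0) ∧
    ∀ f, Ds univ f → ∀ Z, ι Z ∈ N.loc (tsupport f)ᶜ → Z ∈ net.loc (tsupport f)ᶜ →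
      W (x p.1 f * ι Z) = p.2 f Z}
  add_mem' {p q} a b := ⟨add_mem a.1 b.1, fun f K Z hf k1 k2 k3 hZ e => by
      obtain ⟨Γ, h1, -⟩ := vec R r hf (N.mono hZ (subset_diff.2 ⟨k2, k3⟩))
      rw [← h1, Prod.fst_add, map_add, h1, h1]
      exact add_mem (a.2.1 f K Z hf k1 k2 k3 hZ e) (b.2.1 f K Z hf k1 k2 k3 hZ e),
    fun f hf => ((R.lab hf.c1 (N.one _)).map_add _ _).trans
      ((congrArg₂ _ (a.2.2.1 f hf) (b.2.2.1 f hf)).trans (add_zero 0)),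
    fun f hf Z e hZ => ((R.lab hf.self.c1 e).map_add _ _).trans
      (congrArg₂ _ (a.2.2.2 f hf Z e hZ) (b.2.2.2 f hf Z e hZ))⟩
  zero_mem' := ⟨zero_mem _, fun f K Z hf k1 k2 k3 hZ e => by
      obtain ⟨Γ, h1, -⟩ := vec R r hf (N.mono hZ (subset_diff.2 ⟨k2, k3⟩))
      rw [← h1, Prod.fst_zero, map_zero]
      exact zero_mem _, fun f hf => (R.lab hf.c1 (N.one _)).map_zero,
    fun f hf Z e _ => (R.lab hf.self.c1 e).map_zero⟩
  smul_mem' t p a := ⟨Submodule.smul_mem _ _ a.1, fun f K Z hf k1 k2 k3 hZ e => by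
      obtain ⟨Γ, h1, -⟩ := vec R r hf (N.mono hZ (subset_diff.2 ⟨k2, k3⟩))
      rw [← h1, Prod.smul_fst, map_smul, h1]
      exact Submodule.smul_of_tower_mem _ _ (a.2.1 f K Z hf k1 k2 k3 hZ e),
    fun f hf => ((R.lab hf.c1 (N.one _)).map_smul _ _).trans
      ((congrArg _ (a.2.2.1 f hf)).trans (smul_zero t)),
    fun f hf Z e hZ => ((R.lab hf.self.c1 e).map_smul _ _).trans (congrArg _ (a.2.2.2 f hf Z e hZ))⟩

theorem neg_hs {f : R4 → ℝ} (hf : Ds (Hs 0 0) f) : {y : R4 | y 0 < 0} ⊆ (tsupport f)ᶜ :=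
  fun y e e' => lt_asymm (show y 0 < 0 from e) (hf.2.2 e')

theorem kk_iff {v : H} : v ∈ Kk ι r ↔ ∀ y ∈ (Kk ι r)ᗮ, inner ℂ y v = 0 := by
  rw [← Submodule.mem_orthogonal, Submodule.orthogonal_orthogonal_eq_closure,
    IsClosed.submodule_topologicalClosure_eq (s := Kk ι r) (Submodule.isClosed_topologicalClosure _)]

/-- the scalar product as a real linear function -/
def ip (y : H) : H →ₗ[ℝ] ℂ := (innerSL ℂ y).toLinearMap.restrictScalars ℝ

theorem small {E : ℝ → ℂ} (lg : ∃ B, ∀ᶠ d in 𝓝[>] (0 : ℝ), |M d| ≤ B * log d ^ 2)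
    (e : Tendsto (fun s => (log s ^ 2 : ℝ) * E s) (𝓝[>] 0) (𝓝 0)) :
    Tendsto (fun s => M s * E s) (𝓝[>] 0) (𝓝 0) := by
  obtain ⟨B, hB⟩ := lg
  refine squeeze_zero_norm' (hB.mono fun s hs => ?_) (by simpa using e.norm.const_mul B)
  rw [norm_mul, Complex.norm_real]
  simpa [← mul_assoc] using mul_le_mul_of_nonneg_right hs (norm_nonneg (E s))

variable (B : Bg Φ N x U W ρ A S ι φ o)
include B

theorem Bg.uq {a : V} (h1 : ∀ f, Ds (Hs 0 0) f → r.Ψ (x a f) ∈ Kk ι r)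
    (h2 : ∀ f, Ds (Hs 0 0) f → ∀ Z ∈ net.loc {y | y 0 < 0}, W (x a f * ι Z) = 0) : a = 0 :=
  B.rW.nd _ fun c f hf => B.kn (B.rW.memd a hf) (h1 f hf)
    (fun _ _ g1 g2 => h2 f hf _ (mon_mem g1 fun i => (g2 i).2.2)) _
    (N.mono (B.rW.memd c (hf.rf 0)) fun y hy => by simpa [Hs] using hy)

theorem Bg.rs_uq {a b : V} {F} (ha : (a, F) ∈ Rs Φ x ι r B.rW) (hb : (b, F) ∈ Rs Φ x ι r B.rW) :
    a = b := by
  have := sub_mem ha hb
  exact sub_eq_zero.1 (B.uq (fun f hf => B.mem_one this.2.1 hf) fun f hf Z hZ => by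
    have m := net.mono hZ (neg_hs hf)
    simpa using this.2.2.2 f hf.univ Z (B.emb.mem m) m)

theorem Bg.phi_re {f : R4 → ℝ} (hf : Ds univ f) : (W (x φ f)).im = 0 := by
  obtain ⟨e, he⟩ := B.rW.pt
  have := B.rW.st.herm 0 (B.rW.memd φ hf)
  rw [B.rW.gen.refl, B.ρφ.1, he _ _ (hf.rf 0).univ, ← rfL_eq,
    (rfL 0).measurePreserving.integral_comp (rfL 0).toHomeomorph.measurableEmbedding f,
    ← he _ _ hf] at this
  exact Complex.conj_eq_iff_im.1 this.symm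

variable (s : Sm (W ∘ₗ ι.toLinearMap) h M c L) {n : R4} (n1 : ‖n‖ = 1) {μ : ℝ → V}
  (hm : Mg Φ N x U W ι (hn h n) μ)
include s n1 hm

theorem Bg.mc {f : R4 → ℝ} {K : Set R4} {Z : P} (hf : Ds (Hs 0 0) f) (k1 : IsCompact K)
    (k2 : K ⊆ Hs 0 0) (k3 : Disjoint K (tsupport f)) (hZ : Z ∈ N.loc K)
    (e : ∀ Y ∈ ns.loc (Hs 0 0 \ K), r.Ψ (ι Y * Z) ∈ Kk ι r) {y : H} (hy : y ∈ (Kk ι r)ᗮ) (k : ℝ → ℝ) :
    Tendsto (fun t => inner ℂ y (r.Ψ (x (M t • μ t - c t • φ - k t • o) f * Z))) (𝓝[>] 0) (𝓝 0) := by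
  have z := N.mono hZ (subset_diff.2 ⟨k2, k3⟩)
  have d : Ds (Hs 0 0 \ K) f := hf.self.mono (subset_diff.2 ⟨hf.2.2, k3.symm⟩)
  obtain ⟨Γ, h1, h2⟩ := vec B.rW r hf z
  have e0 : ∀ Y ∈ ns.loc (Hs 0 0 \ K), inner ℂ y (r.Ψ (ι Y * Z)) = 0 := fun Y hY =>
    Submodule.inner_left_of_mem_orthogonal (e Y hY) hy
  have e1 : inner ℂ y (Γ φ) = 0 := by rw [h1, ← B.phi, e0 _ (X_ns d)]
  have e2 : Γ o = ((∫ y, f y : ℝ) : ℂ) • r.Ψ (ι 1 * Z) := r.ext fun Y hY => by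
    obtain ⟨a, b⟩ := h2 o Y hY
    rw [b, inner_smul_right, map_one, one_mul, r.inn hY (N.mono hZ k2)]
    exact B.unitW hf.univ a
  simp only [← h1, map_sub, map_smul, ← Complex.coe_smul, inner_sub_right, inner_smul_right, e1, e2,
    e0 _ (ns.one _), mul_zero, sub_zero]
  refine small s.lg (tendsto_zero_iff_norm_tendsto_zero.2 ?_)
  obtain ⟨δ, δ0, hδ⟩ := hf.2.1.isCompact.exists_thickening_subset_open
    (hs_open.sdiff k1.isClosed) d.2.2
  refine (tendsto_order.2 ⟨fun _ a => .of_forall fun _ => a.trans_le (norm_nonneg _), fun η η0 => ?_⟩)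
  have p : 0 < η / (‖y‖ + 1) := by positivity
  filter_upwards [hm.ap f hf Z z _ (pow_pos p 2), Ioo_mem_nhdsGT (half_pos δ0)] with t ⟨Y, a, b⟩ ht
  have m : Y ∈ ns.loc (Hs 0 0 \ K) := Submodule.span_le.2 (by
    rintro _ ⟨z, hz, rfl⟩
    exact ns.mono (pr_ns s.rd s.sm n1 ht.1 z) (((Metric.ball_subset_ball (by linarith [ht.2])).trans
      (Metric.ball_subset_thickening hz δ)).trans hδ)) a
  rw [r.nq (N.mono (N.mul (sub_mem (B.rW.memd _ d) (B.emb.mem (ns_le m))) hZ disjoint_sdiff_left)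
    (union_subset diff_subset k2)), show log t ^ 4 = (log t ^ 2) ^ 2 by ring, ← mul_pow,
    sq_le_sq₀ (by positivity) p.le, le_div_iff₀ (by positivity)] at b
  rw [h1, ← sub_zero (inner ℂ y _), ← e0 _ m, ← inner_sub_right, ← map_sub, ← sub_mul, norm_mul,
    Complex.norm_real, Real.norm_of_nonneg (sq_nonneg _)]
  have := norm_inner_le_norm (𝕜 := ℂ) y (r.Ψ ((x (μ t) f - ι Y) * Z))
  rcases (mul_nonneg (sq_nonneg (log t)) (norm_nonneg (r.Ψ ((x (μ t) f - ι Y) * Z)))).eq_or_lt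
    with q | q <;> nlinarith [sq_nonneg (log t), norm_nonneg y]

theorem Bg.one_dir (r : N.Rep W 0 H) : ∃ (b : V) (k : ℝ → ℝ),
    Tendsto (fun t => M t • μ t - c t • φ - k t • o) (𝓝[>] 0) (𝓝 b) ∧
    (b, fun f Z => ∑ α, ∑ β, (n α * n β : ℝ) * L α β f Z) ∈ Rs Φ x ι r B.rW := by
  obtain ⟨e, he⟩ := B.rW.pt
  let k : ℝ → ℝ := fun t => (e (M t • μ t - c t • φ)).re
  let a : ℝ → V := fun t => M t • μ t - c t • φ - k t • o
  have a4 : ∀ t, a t ∈ Φ.F 4 := fun t => sub_mem (sub_mem (Submodule.smul_mem _ _ (hm.mem t))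
    (Submodule.smul_mem _ _ B.mφ)) (Submodule.smul_mem _ _ B.mo)
  have ex : ∀ {f}, Ds univ f → ∀ {Z}, Z ∈ N.loc (tsupport f)ᶜ → ∀ t, W (x (a t) f * Z) =
      M t * W (x (μ t) f * Z) - c t * W (x φ f * Z) - k t * ((∫ y, f y : ℝ) * W Z) :=
    fun hf Z hZ t => by
      rw [← B.unitW hf hZ]
      exact (by simp [a] : B.rW.lab hf.self.c1 hZ (a t) = M t * B.rW.lab hf.self.c1 hZ (μ t) -
        c t * B.rW.lab hf.self.c1 hZ φ - k t * B.rW.lab hf.self.c1 hZ o)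
  have c0 : ∀ {f}, Ds univ f → Tendsto (fun t => W (x (a t) f * 1)) (𝓝[>] 0) (𝓝 0) := fun {f} hf => by
    have t := (Complex.continuous_ofReal.tendsto _).comp ((Complex.continuous_im.tendsto _).comp
      (small s.lg (hm.pW f hf 1 (N.one _))))
    have t := t.mul_const (-Complex.I)
    simp only [Complex.zero_im, Complex.ofReal_zero, zero_mul] at t
    refine t.congr' (eventually_mem_nhdsWithin.mono fun t (t0 : 0 < t) => ?_)
    obtain ⟨p, hp⟩ := s.pr0 t t0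
    have q : ∀ z, W (ι (pr (hn h n) t z)) = p := fun z => by
      rw [← hp n n1, ← zero_add z, ← Ope.pr_tau, B.emb.τ,
        B.rW.st.ti _ (B.emb.mem (Net.adm ((s.rd.pb n1).mem t0 0)))]
      rfl
    have i := B.phi_re hf
    simp only [Function.comp, mul_one, q, MeasureTheory.integral_mul_const, integral_complex_ofReal]
    rw [← mul_one (x (a t) f), ex hf (N.one _), B.rW.st.one]
    simp only [mul_one, he _ _ hf, k, map_sub, map_smul] at i ⊢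
    apply Complex.ext <;> simp [← Complex.ofReal_pow, ← Complex.ofReal_mul, ← Complex.ofReal_div] at i ⊢
    · ring
    · rcases i with i | i <;> simp [i]
  have c1 : ∀ {f}, Ds univ f → ∀ {Z}, Z ∈ net.loc (tsupport f)ᶜ → Tendsto
      (fun t => W (x (a t) f * ι Z)) (𝓝[>] 0) (𝓝 (∑ α, ∑ β, (n α * n β : ℝ) * L α β f Z)) :=
    fun {f} hf Z hZ => by
      have z := ct_mem (W := W) (B.emb.mem hZ)
      have := ((s.ope n n1 f Z ⟨Ope.adm_one.2 ⟨hf.2.1, hf.c1.2.1⟩, hZ⟩).sub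
        (small s.lg (hm.pW f hf _ z))).add ((c0 hf).const_mul (W (ι Z)))
      rw [sub_zero, mul_zero, add_zero] at this
      refine this.congr fun t => ?_
      have e1 := ex hf z t
      have e2 : W (ct W (ι Z)) = 0 := by simp [ct, B.rW.st.one]
      have e3 : ∀ Y, Ope.cv (W ∘ₗ ι.toLinearMap) Y Z = W (ι Y * ct W (ι Z)) := fun Y => by
        rw [← cv_r]
        simp [cv, Ope.cv]
      have e4 : cv (W ∘ₗ ι.toLinearMap) (X f) Z = W (x φ f * ct W (ι Z)) := B.phi f ▸ e3 _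
      have e5 := cv_r (W := W) (x (a t) f) (ι Z)
      rw [cv] at e5
      simp only [Ai, e3, e4, mul_one]
      push_cast
      linear_combination -e1 - e5 + k t * (∫ y, f y : ℝ) * e2
  choose Γ h1 h2 using fun f : {f // Ds (Hs 0 0) f} => vec B.rW r f.2 (N.one _)
  have := Φ.fin 4
  obtain ⟨b, hb⟩ := lim_of_sep
    (I := {f // Ds (Hs 0 0) f} × ((Kk ι r)ᗮ ⊕ net.loc {y | y 0 < 0})) (a := fun t => ⟨a t, a4 t⟩)
    (fun i => (i.2.elim (fun y : (Kk ι r)ᗮ => ip y.1 ∘ₗ Γ i.1) fun Z : net.loc {y | y 0 < 0} =>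
      B.rW.lab i.1.2.self.c1 (B.emb.mem (net.mono Z.2 (neg_hs i.1.2)))).domRestrict (Φ.F 4))
    (fun a e => Subtype.ext (B.uq (r := r) (fun f hf => by
      rw [← mul_one (x _ f), ← h1 ⟨f, hf⟩, kk_iff]
      exact fun y hy => e (⟨f, hf⟩, .inl ⟨y, hy⟩)) fun f hf Z hZ => e (⟨f, hf⟩, .inr ⟨Z, hZ⟩))) (by
      rintro ⟨f, y | Z⟩
      · exact ⟨0, (B.mc s n1 hm f.2 isCompact_empty (empty_subset _) (empty_disjoint _) (N.one _)
          (fun Y hY => by simpa using B.kk_of (ns.mono hY diff_subset)) y.2 k).congr fun t =>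
            congrArg (inner ℂ y.1) (h1 _ _).symm⟩
      · exact ⟨_, c1 f.2.univ (net.mono Z.2 (neg_hs f.2))⟩)
  have hb' := (continuous_subtype_val.tendsto _).comp hb
  refine ⟨b, k, hb', b.2, fun f K Z hf k1 k2 k3 hZ e => ?_,
    fun f hf => tendsto_nhds_unique (B.rW.tend a4 hb' hf (N.one _)) (c0 hf),
    fun f hf Z z hZ => tendsto_nhds_unique (B.rW.tend a4 hb' hf z) (c1 hf hZ)⟩
  obtain ⟨G, g1, -⟩ := vec B.rW r hf (N.mono hZ (subset_diff.2 ⟨k2, k3⟩))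
  rw [kk_iff, ← g1]
  exact fun y hy => tendsto_nhds_unique ((((ip y ∘ₗ G).domRestrict
    (Φ.F 4)).continuous_of_finiteDimensional.tendsto b).comp hb)
    ((B.mc s n1 hm hf k1 k2 k3 hZ e hy k).congr fun t => congrArg (inner ℂ y) (g1 _).symm)

omit n1 hm in
theorem exists_tl (hm : ∀ n, ‖n‖ = 1 → Mg Φ N x U W ι (hn h n) (m n)) (r : N.Rep W 0 H) :
    ∃ T, Tl Φ x ι φ o T r M c L m := by
  let Q : R4 → (R4 → ℝ) → Pol → ℂ := fun n f Z => ∑ α, ∑ β, (n α * n β : ℝ) * L α β f Z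
  have h1 : ∀ v : R4, ∃ b, (b, Q v) ∈ Rs Φ x ι r B.rW := fun v => by
    rcases eq_or_ne v 0 with rfl | v0
    · exact ⟨0, (show 0 = Q 0 by funext; simp [Q]) ▸ zero_mem _⟩
    have n1 := norm_smul_inv_norm (𝕜 := ℝ) v0
    obtain ⟨b, -, -, hb⟩ := B.one_dir s n1 (hm _ n1) r
    refine ⟨(‖v‖ ^ 2) • b, ?_⟩
    convert Submodule.smul_mem _ (‖v‖ ^ 2) hb using 1
    refine Prod.ext rfl ?_
    funext f Z
    simp only [Q, Prod.smul_mk, Pi.smul_apply, Finset.smul_sum, Complex.real_smul, ← mul_assoc,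
      ← Complex.ofReal_mul, PiLp.smul_apply, smul_eq_mul]
    refine Finset.sum_congr rfl fun α _ => Finset.sum_congr rfl fun β _ => ?_
    have := norm_ne_zero_iff.2 v0
    congr 2
    simp only [RCLike.ofReal_real_eq_id, id]
    field_simp
  have h2 : ∀ α β, ∃ b, (b, L α β) ∈ Rs Φ x ι r B.rW := fun α β => by
    obtain ⟨a, ha⟩ := h1 (ee α + ee β)
    obtain ⟨b, hb⟩ := h1 (ee α - ee β)
    refine ⟨(4⁻¹ : ℝ) • (a - b), ?_⟩
    convert Submodule.smul_mem _ (4⁻¹ : ℝ) (sub_mem ha hb) using 1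
    refine Prod.ext rfl ?_
    funext f Z
    simp [Q, add_mul, mul_add, sub_mul, mul_sub, Finset.sum_add_distrib, Pi.single_apply,
      apply_ite Complex.ofReal, s.sym β α]
    ring
  choose T hT using h2
  refine ⟨T, fun α β => (hT α β).1, fun α β => B.rs_uq (hT α β)
    ((funext₂ (s.sym α β) : L α β = L β α) ▸ hT β α), fun α β f hf => mul_one (x _ f) ▸
    (hT α β).2.2.1 f hf, fun α β f hf Z hZ => (hT α β).2.2.2 f hf Z (B.emb.mem hZ) hZ,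
    fun α β => (hT α β).2.1, fun n n1 => ?_⟩
  obtain ⟨b, k, hk, hb⟩ := B.one_dir s n1 (hm _ n1) r
  refine ⟨k, hk.trans (congrArg _ (B.rs_uq hb ?_)).le⟩
  convert Submodule.sum_mem _ (t := Finset.univ) fun α _ => Submodule.sum_mem _ (t := Finset.univ)
    fun β _ => Submodule.smul_mem _ (n α * n β) (hT α β) using 1
  refine Prod.ext ?_ ?_
  · simp [Prod.fst_sum]
  · ext
    simp [Prod.snd_sum]

end Pool.Agent.Lib.MP_7f377f_mp.Bw
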