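import Pool.Agent.Lib.MP_7f377f_mp.G.BwC
import Pool.Agent.Lib.MP_7f377f_mp.G.SwK

/-! The stress tensor as a field with a label: the Ward identity for the scalar field. -/

noncomputable section

namespace Pool.Agent.Lib.MP_7f377f_mp.Bw
variable [Pool.Agent.Lib.MP_7f377f_mp.GD]
set_option linter.unusedSectionVars false

open Filter Topology Set YM7 Pur Wm Lm Wv S3 Sw Matrix MvPolynomial Real
open Ro (Iso rot prm)
open Ope (Rd hn pr Ai Dt Tn ee)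
open scoped ContDiff

variable {V P : Type} [NormedAddCommGroup V] [NormedSpace ℝ V] [CommRing P] [Algebra ℂ P]
  {Φ : Fil V} {N : Net P} {x : V → (R4 → ℝ) → P} {U W : P →ₗ[ℂ] ℂ} {ρ : Iso →* V →ₗ[ℝ] V}
  {A : ℝ → V ≃ₗ[ℝ] V} {S : Cor V} {ι : Pol →ₐ[ℂ] P} {φ o : V} {T T₀ : Fin 4 → Fin 4 → V}
  {H : Type} [NormedAddCommGroup H] [InnerProductSpace ℂ H] [CompleteSpace H] {r : N.Rep W 0 H}
  {h : R4 → ℝ} {M c : ℝ → ℝ} {L : Tn} {m : R4 → ℝ → V} {D δ : Fin 4 → V →ₗ[ℝ] V}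
  {σ : Mat → V →ₗ[ℝ] V} {g : Iso} {w : Equiv.Perm (Fin 4)} {ε : Fin 4 → ℝ}

theorem neg_sub {f : R4 → ℝ} (hf : Ds (Hs 0 0) f) : {y : R4 | y 0 < 0} ⊆ (tsupport f)ᶜ :=
  fun y a b => lt_asymm (show y 0 < 0 from a) (hf.2.2 b)

theorem mir' (R : Rg Φ N x W ρ A S) {f : R4 → ℝ} (hf : Ds (Hs 0 0) f) (b : V) :
    (x b fun y => f (rf 0 y)) ∈ N.loc {y | y 0 < 0} :=
  N.mono (R.memd b (hf.rf 0)) fun y hy => by simpa [Hs] using hy

theorem trl (R : Rg Φ N x W ρ A S) {O : Set R4} {Z : P} (hZ : Z ∈ N.loc O) (u : Fin 4 → V)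
    (ν : Fin 4) (f : R4 → ℝ) :
    ∑ α, W (x (u α) (km 0 (ax ν 1) α f) * Z) = W (x (u ν) f * Z) := by
  rw [Finset.sum_eq_single ν (fun α _ e => by
    rw [km_tr, if_neg e, R.lf0 _ (O := ∅) (N.mono hZ (by simp))]) (by simp), km_tr, if_pos rfl]

theorem lab0 (R : Rg Φ N x W ρ A S) {f : R4 → ℝ} (hf : Ds univ f) {Z : P}
    (hZ : Z ∈ N.loc (tsupport f)ᶜ) : W (x 0 f * Z) = 0 := (R.lab hf.self.c1 hZ).map_zero

theorem Bg.mem_phi (B : Bg Φ N x U W ρ A S ι φ o) : Mem x ι r φ := fun f _ _ hf _ _ d _ e =>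
  B.phi f ▸ e _ (X_ns ⟨hf.1, hf.2.1, subset_diff.2 ⟨hf.2.2, d.symm⟩⟩)

theorem Bg.mon (B : Bg Φ N x U W ρ A S ι φ o) {k : ℕ} (f : Fin k → R4 → ℝ) :
    ι (mon f) = ∏ i, x φ (f i) := by simp only [Pur.mon, map_prod, B.phi]

variable (a : Al Φ x U ρ A S ι φ o T r h M c L m) (q : Ops Φ N x U T D δ σ)
include a q

theorem Al.key {b : V} (hb : Mem x ι r b) {f : R4 → ℝ} (hf : Ds (Hs 0 0) f) {Λ : Mat} {e : R4}
    (hΛ : Λᵀ = -Λ) {Y : P} (hY : Y ∈ N.loc (Hs 0 0)) (hK : r.Ψ Y ∈ Kk ι r)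
    (h0 : ∀ ξ, Ds (Hs 0 0) ξ → One ξ f → ∀ k (g : Fin k → R4 → ℝ), Adm g →
      (∀ i, Ds {y | y 0 < 0} (g i)) → W (fl x T Λ e ξ * x b f * ι (mon g)) = W (Y * ι (mon g)))
    {Z : P} (hZ : Z ∈ N.loc {y | y 0 < 0}) :
    ∑ ν, W (x (δ ν b) (km Λ e ν f) * Z) - W (x (σ Λ b) f * Z) = W (Y * Z) := by
  have B := a.bg
  obtain ⟨ξ, h1, h2⟩ := ury hs_open hf
  have d := fun μ => (one_pd h2 μ).mono (diff_subset_diff_left h1.2.2)
  have := B.kn (r := r) (E := fl x T Λ e ξ * x b f - Y) (sub_mem (N.mono (N.mul (B.rW.flm d Λ e)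
    (B.rW.memd b hf.self) disjoint_sdiff_left) (union_subset diff_subset hf.2.2)) hY) (by
      simp only [map_sub, fl, Finset.sum_mul, map_sum]
      exact sub_mem (sum_mem fun μ _ => sum_mem fun ν _ => mul_comm (x b f) _ ▸
        B.mem_two hb (a.tl.kk μ ν) hf (ds_km (d μ) Λ e ν)) hK)
    (fun k g g1 g2 => by rw [sub_mul, map_sub, h0 ξ h1 h2 k g g1 g2, sub_self]) Z hZ
  rwa [sub_mul, map_sub, sub_eq_zero, (B.opsW q).q Λ e b f ξ hΛ hf.univ h2 Z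
    (N.mono hZ (neg_sub h1))] at this

theorem Al.eps (ν : Fin 4) : δ ν φ = D ν φ := by
  have B := a.bg
  refine B.rW.eq_of fun f hf b => ?_
  have m := mir' B.rW hf b
  have m' := N.mono m (neg_sub hf)
  have := a.key q B.mem_phi hf (Λ := 0) (e := ax ν 1) (by simp) (B.rW.memd φ (hf.pd ν))
    (B.mem_one B.mem_phi (hf.pd ν)) (fun ξ h1 h2 k g g1 g2 => ?_) m
  · rwa [trl B.rW m fun α => δ α φ, q.σ0, LinearMap.zero_apply, lab0 B.rW hf.univ m', sub_zero,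
      ← (B.derW q.toDer).der ν φ f hf.univ _ m'] at this
  have dj : ∀ {u}, Ds (Hs 0 0) u → ∀ i, Disjoint (tsupport u) (tsupport (g i)) := fun hu i =>
    (subset_compl_iff_disjoint_left.1 ((g2 i).2.2.trans (neg_sub hu)))
  have G := PN.adm_cons hf.2.1 hf.c1.2.1 g1 (dj hf)
  have z : ∀ μ, mon (Fin.cons f g) ∈ net.loc (tsupport (pd μ ξ))ᶜ := fun μ =>
    mon_mem G (Fin.forall_fin_succ.2 ⟨subset_compl_comm.1 ((one_pd h2 μ).2.2.trans
      (diff_subset_compl _ _)), fun i => (dj (h1.pd μ) i).subset_compl_left⟩)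
  have := a.sm.wd _ _ ξ (Fin.cons 1 0) ν G (Fin.forall_fin_succ.2 ⟨⟨hf.1, h2.2⟩,
    fun i => ⟨(g2 i).1, zero_near (dj h1 i)⟩⟩) h1.1 h1.2.1
  simp only [Fin.sum_univ_succ (n := k), Fin.cons_zero, Fin.cons_succ, Pi.zero_apply, Complex.ofReal_zero,
    zero_mul, Finset.sum_const_zero, add_zero, one_mul, Complex.ofReal_one, Fin.update_cons_zero,
    PN.mon_cons _ g] at this
  simp only [fl, Finset.sum_mul, map_sum, mul_assoc, ← B.phi f, ← B.phi (pd ν f), ← map_mul,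
    ← PN.mon_cons, trl B.rW (B.emb.mem (z 0)), fun μ => a.tl.rep μ ν _ (h1.pd μ).univ _ (z μ)]
  simp only [PN.mon_cons]
  exact this

theorem Al.sym (s : Sy x U ρ φ g w ε) {Λ Λ' : Mat} {η : ℝ} (hΛ : Λᵀ = -Λ) (hΛ' : Λ'ᵀ = -Λ')
    (hk : ∀ y ν, act Λ' y ν = η * ε ν * act Λ (g y) (w ν)) : ρ g (σ Λ' φ) = η • σ Λ φ := by
  have R := a.bg.rU
  refine R.eq_of fun f hf b => ?_
  have hv : Ds {y | y 0 < 0} fun y => f (rf 0 y) := (hf.rf 0).mono fun y hy => by simpa [Hs] using hy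
  generalize (fun y => f (rf 0 y)) = v at hv
  obtain ⟨b, rfl⟩ : ∃ b', ρ g b' = b := ⟨ρ g⁻¹ b, by
    rw [← Module.End.mul_apply, ← map_mul, mul_inv_cancel, map_one, Module.End.one_apply]⟩
  obtain ⟨ξ, h1, h2⟩ := ury hs_open hf
  have z : ∀ {u}, Ds (Hs 0 0) u → x (ρ g b) v ∈ N.loc (tsupport u)ᶜ := fun hu =>
    R.memd _ (hv.mono (neg_sub hu))
  have ts : ∀ u : R4 → ℝ, tsupport (fun y => u (g y)) = g ⁻¹' tsupport u := fun u =>
    tsupport_comp_eq_preimage u g.toHomeomorph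
  have z' : ∀ {u}, Ds (Hs 0 0) u → (x b fun y => v (g y)) ∈ N.loc (tsupport fun y => u (g y))ᶜ :=
    fun hu => ts _ ▸ R.memd _ (ds_iso (hv.mono (neg_sub hu)) g)
  have ad : ∀ {u}, Ds (Hs 0 0) u → Adm ![u, v] := fun hu => Ope.adm_two.2 ⟨⟨hu.2.1, hu.c1.2.1⟩,
    ⟨hv.2.1, hv.c1.2.1⟩, subset_compl_iff_disjoint_left.1 (hv.2.2.trans (neg_sub hu))⟩
  have i2 : ∀ c {u}, Ds (Hs 0 0) u → U (x c (fun y => u (g y)) * x b fun y => v (g y)) =
      U (x (ρ g c) u * x (ρ g b) v) := fun c u hu => by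
    simpa [Fin.prod_univ_succ] using s.iv 2 ![c, b] _ (ad hu)
  have k1 : ∀ ν (t : ℝ) (u : R4 → ℝ), km Λ' 0 ν (t • fun y => u (g y)) =
      (η * ε ν * t) • fun y => km Λ 0 (w ν) u (g y) := fun ν t u => funext fun y => by
    simp [km, hk]
    ring
  have e1 := q.q Λ 0 φ f ξ hΛ hf.univ h2 _ (z h1)
  have e2 := q.q Λ' 0 φ _ (fun y => ξ (g y)) hΛ' (ds_iso hf g).univ ⟨(ds_iso h1 g).univ,
    ts f ▸ (g.continuous.tendsto_nhdsSet (mapsTo_preimage _ _)).eventually h2.2⟩ _ (z' h1)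
  have e3 : ∑ ν, U (x (δ ν φ) (km Λ' 0 ν fun y => f (g y)) * x b fun y => v (g y)) =
      η * ∑ ν, U (x (δ ν φ) (km Λ 0 ν f) * x (ρ g b) v) := by
    rw [Finset.mul_sum]
    refine (Finset.sum_congr rfl fun ν _ => ?_).trans (Equiv.sum_comp w _)
    have d := ds_km hf Λ 0 (w ν)
    rw [← one_smul ℝ fun y => f (g y), k1, R.smulf _ _ (ds_iso d g).univ (z' d), a.eps q, a.eps q,
      q.der _ _ _ (ds_iso d g).univ _ (z' d), q.der _ _ _ d.univ _ (z d), s.sp.pd d.1,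
      R.smulf _ _ (ds_iso (d.pd _) g).univ (z' (d.pd _)), i2 _ (d.pd _), s.phi, ← mul_assoc,
      ← Complex.ofReal_mul, mul_one, mul_assoc η, s.sp.1, mul_one]
  have e4 : U (fl x T Λ' 0 (fun y => ξ (g y)) * x φ (fun y => f (g y)) * x b fun y => v (g y)) =
      η * U (fl x T Λ 0 ξ * x φ f * x (ρ g b) v) := by
    simp only [fl, Finset.sum_mul, map_sum, Finset.mul_sum]
    refine (Finset.sum_congr rfl fun μ _ => ?_).trans (Equiv.sum_comp w _)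
    refine (Finset.sum_congr rfl fun ν _ => ?_).trans (Equiv.sum_comp w _)
    have d := ds_km (one_pd h2 (w μ)) Λ 0 (w ν)
    have d' := d.mono (diff_subset.trans h1.2.2)
    have dj := subset_compl_iff_disjoint_right.1 (d.2.2.trans (diff_subset_compl _ _))
    have G := PN.adm_cons d.2.1 d.c1.2.1 (ad hf) (Fin.forall_fin_two.2 ⟨dj, (ad d').2 zero_ne_one⟩)
    have i3 := s.iv 3 ![T μ ν, φ, b] _ G
    simp only [Fin.prod_univ_succ, Fin.cons_zero, Fin.cons_succ, cons_val_zero, cons_val_succ,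
      Fin.prod_univ_zero, mul_one, s.phi, a.cov s] at i3
    obtain ⟨ℓ, hℓ⟩ := labx R d.univ (N.mono (N.mul (R.memd φ hf.self) (R.memd (ρ g b) hv.self)
      ((ad hf).2 zero_ne_one)) (union_subset dj.subset_compl_left
        ((ad d').2 zero_ne_one).subset_compl_left))
    rw [s.sp.pd h1.1, k1, mul_assoc (x _ _), mul_assoc (x _ _), R.smulf _ _ (ds_iso d g).univ (ts _ ▸ N.mono
      (N.mul (R.memd φ (ds_iso hf.self g)) (R.memd b (ds_iso hv.self g))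
        (((ad hf).2 zero_ne_one).preimage g)) (union_subset (dj.preimage g).subset_compl_left
        (((ad d').2 zero_ne_one).preimage g).subset_compl_left)), i3, ← hℓ, ← hℓ, map_smul,
      Complex.real_smul, ← mul_assoc, ← Complex.ofReal_mul]
    congr 2
    linear_combination η * ε ν * ε ν * s.sp.1 μ + η * s.sp.1 ν
  obtain ⟨ℓ, hℓ⟩ := labx R hf.univ (z hf)
  rw [← i2 _ hf, ← hℓ, map_smul, hℓ, Complex.real_smul]
  linear_combination e2 - e4 + e3 - η * e1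

theorem Al.sig (cl : ∀ c, Sec Φ ρ c → ρ (prm (Equiv.swap 0 1)) c = -c → c = 0) (l : Fin 3) :
    σ (om l) φ = 0 := by
  have an : ∀ l, (om l)ᵀ = -om l := fun l => by
    ext i j
    fin_cases l <;> fin_cases i <;> fin_cases j <;> simp [om]
  have r1 : ∀ μ, ρ (rfL μ) (σ (om 0) φ) = (sr μ 0 * sr μ 1) • σ (om 0) φ := fun μ =>
    a.sym q (a.bg.sy_rfl μ) (an 0) (an 0) fun y ν => by
      fin_cases μ <;> fin_cases ν <;> simp [act_apply, om, rfL_eq, rf_eq, sr, Fin.sum_univ_four]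
  have := cl _ ⟨q.upσ _ 4 _ a.bg.mφ, by simp [r1, sr], by simp [r1, sr], by simp [r1, sr],
    by simp [r1, sr]⟩ ((a.sym q (η := -1) (a.bg.sy_prm _) (an 0) (an 0) fun y ν => by
      fin_cases ν <;> simp [act_apply, om, Ro.prm_apply, Equiv.swap_apply_def,
      Fin.sum_univ_four]).trans (neg_one_smul _ _))
  rw [← one_smul ℝ (σ _ φ), ← a.sym q (a.bg.sy_prm (.swap 1 l.succ)) (an l) (an 0) fun y ν => by
    fin_cases l <;> fin_cases ν <;> simp [act_apply, om, Ro.prm_apply, Equiv.swap_apply_def,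
      Fin.sum_univ_four], this,
    map_zero]

end Pool.Agent.Lib.MP_7f377f_mp.Bw
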