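import Pool.Agent.Lib.MP_7f377f_mp.G.Q4Sh
import Pool.Agent.Lib.MP_7f377f_mp.JetB

/-! Supports of sources along the flow. -/

noncomputable section

open Pool.Agent.Lib.MP_7f377f_mp.Jet

set_option linter.unusedSectionVars false
variable [Pool.Agent.Lib.MP_7f377f_mp.GD]

namespace Pool.Agent.Lib.MP_7f377f_mp.RG.Q4.Sg

open Finset Function

section ind

variable {ι α β : Type} [DecidableEq ι] {i : ι} {g : (ι → ℂ) → ℂ} {A T : Finset ι}

/-- `g` does not depend on the variable `i` -/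
def Ind (i : ι) (g : (ι → ℂ) → α) : Prop := ∀ s t, g (update s i t) = g s

theorem Ind.const (i : ι) (a : α) : Ind i fun _ => a := fun _ _ => rfl

theorem Ind.comp {g : (ι → ℂ) → α} (h : Ind i g) (φ : α → β) : Ind i fun s => φ (g s) :=
  fun s t => congrArg φ (h s t)

theorem Ind.comp₂ {γ : Type} {g : (ι → ℂ) → α} {g' : (ι → ℂ) → β} (h : Ind i g) (h' : Ind i g')
    (φ : α → β → γ) : Ind i fun s => φ (g s) (g' s) := fun s t => congrArg₂ φ (h s t) (h' s t)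

theorem ind_pi {γ : Type} {g : (ι → ℂ) → γ → α} : Ind i g ↔ ∀ x, Ind i (g · x) :=
  ⟨fun h x s t => congrFun (h s t) x, fun h s t => funext fun x => h x s t⟩

theorem Ind.pd (h : Ind i g) (j : ι) : Ind i (Jet.pd j g) := fun s t => by
  rcases eq_or_ne j i with rfl | e
  · simp only [Jet.pd, update_idem]
  · simp only [Jet.pd, ← update_comm e, h _ t]

theorem Ind.jd (h : Ind i g) (hi : i ∈ T) : jd T g = 0 := by
  have : ∀ l : List ι, Ind i (l.foldr Jet.pd g) ∧ (i ∈ l → l.foldr Jet.pd g = 0) := fun l => by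
    induction l with
    | nil => exact ⟨h, by simp⟩
    | cons j l ih =>
      refine ⟨ih.1.pd j, fun hj => funext fun s => ?_⟩
      rcases List.mem_cons.1 hj with rfl | hl
      · simp [Jet.pd, ih.1 s]
      · simp [Jet.pd, ih.2 hl]
  rw [Jet.jd, (this _).2 (mem_toList.2 hi)]
  rfl

theorem ind_ma {V : Type} [AddCommMonoid V] [Module ℂ V] {a : Finset ι → V}
    (h : ∀ T ⊆ A, i ∈ T → a T = 0) : Ind i (ma A a) := fun _ _ => sum_congr rfl fun T hT => by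
  by_cases e : i ∈ T
  · simp [h T (mem_powerset.1 hT) e]
  · rw [mon_upd e]

theorem Ind.tr (h : Ind i g) (A : Finset ι) : Ind i (tr A g) := ind_ma fun _ _ => h.jd

end ind

section geo

variable {l n D : ℕ} {d d' : ℝ} {X X' Y Y' Z : Finset St} {x y : St} {S : Sd} {a : ℕ}

theorem near_up (h : nearT n D (yo l x) y) : nearT (LL l * n) (LL l * D + l) x (up l y) := by
  obtain ⟨v, hv⟩ := nearT_iff.1 h
  refine nearT_iff.2 ⟨v, fun i => ?_⟩
  have h0 : (0 : ℤ) ≤ (LL l : ℤ) := Int.natCast_nonneg _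
  have h1 := mem_box.1 (sub_up_yo_mem l x) i
  have h2 := mul_le_mul_of_nonneg_left (hv i).1 h0
  have h3 := mul_le_mul_of_nonneg_left (hv i).2 h0
  simp only [up, Pi.sub_apply, Pi.smul_apply, smul_eq_mul] at h1 ⊢
  push_cast
  constructor <;> nlinarith [h1.1, h1.2]

theorem near_yo (h : nearT n D (yo l x) (yo l y)) : nearT (LL l * n) (LL l * D + 2 * l) x y :=
  ((near_up h).trans (show nearT _ l (up l (yo l y)) y from
    ⟨0, by simpa using sub_up_yo_mem l y⟩)).mono (by omega)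

/-- the support at the next level -/
def nxt (S : Sd) (Z : Finset St) : Finset St := tb S.n S.D0 (dn S.l S.n Z)

theorem mem_nxt : y ∈ nxt S Z ↔ rc S.n y = y ∧ ∃ x ∈ Z, nearT S.n S.D0 (yo S.l x) y := by
  simp [nxt, mem_tb, dn, nearT_rc_left]

theorem nxt_mono (h : X ⊆ Y) : nxt S X ⊆ nxt S Y := tb_mono (image_subset_image h) le_rfl

theorem dn_sub_nxt : dn S.l S.n Z ⊆ nxt S Z := sub_tb fun _ h => by
  obtain ⟨x, -, rfl⟩ := mem_image.1 h
  exact rc_rc _ _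

/-- the sets are at distance at least `d` -/
def Sep (n : ℕ) (d : ℝ) (X Y : Finset St) : Prop :=
  ∀ x ∈ X, ∀ y ∈ Y, ∀ D : ℕ, nearT n D x y → d ≤ D

theorem Sep.symm (h : Sep n d X Y) : Sep n d Y X := fun y hy x hx D e => h x hx y hy D e.symm

theorem Sep.mono (h : Sep n d X Y) (hd : d' ≤ d) (hX : X' ⊆ X) (hY : Y' ⊆ Y) : Sep n d' X' Y' :=
  fun x hx y hy D e => hd.trans (h x (hX hx) y (hY hy) D e)

theorem Sep.disj (h : Sep n d X Y) (hd : 0 < d) : Disjoint X Y :=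
  disjoint_left.2 fun x hx hy => hd.not_ge (by simpa using h x hx x hy 0 (nearT.refl _ _ _))

theorem Sep.tb (h : Sep n d X Y) (R R' : ℕ) : Sep n (d - R - R') (tb n R X) (tb n R' Y) :=
  fun _ hx _ hy D e => by
    obtain ⟨-, x, h1, h2⟩ := mem_tb.1 hx
    obtain ⟨-, y, h3, h4⟩ := mem_tb.1 hy
    have := h x h1 y h3 _ ((h2.trans e).trans h4.symm)
    push_cast at this
    linarith

theorem Sep.dn (h : Sep (LL l * n) d X Y) : Sep n (d / LL l - 1) (dn l n X) (dn l n Y) :=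
  fun _ hx _ hy D e => by
    obtain ⟨x, h1, rfl⟩ := mem_image.1 hx
    obtain ⟨y, h2, rfl⟩ := mem_image.1 hy
    have := h x h1 y h2 _ (near_yo (nearT_rc_right.1 (nearT_rc_left.1 e)))
    have h0 : (0 : ℝ) < LL l := by exact_mod_cast LL_pos l
    rw [sub_le_iff_le_add, div_le_iff₀ h0]
    simp only [LL] at this ⊢
    push_cast at this ⊢
    linarith

theorem Sep.step (u : S.Nu a) (h : Sep S.nf (d - 6 * (S.M : ℝ) ^ S.K0) X Y) :
    Sep S.n (d / S.L - 6 * S.D0) (nxt S X) (nxt S Y) := by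
  refine (h.dn.tb S.D0 S.D0).mono ?_ Subset.rfl Subset.rfl
  have h1 : 1000 * (S.M : ℝ) ^ S.K0 ≤ S.L * S.D0 := by
    unfold Td.L
    exact_mod_cast u.lens.2.2.2.2.2.2.2.2
  have h2 : (1 : ℝ) ≤ S.D0 := by exact_mod_cast Sd.D1 S.toTd
  have h3 : 6 * (S.M : ℝ) ^ S.K0 / S.L ≤ S.D0 := by
    rw [div_le_iff₀ (Sd.L0 _)]
    nlinarith [Sd.L0 S.toTd]
  rw [show ((LL S.l : ℕ) : ℝ) = S.L from rfl, sub_div]
  linarith

theorem tau_two (hD : 1 ≤ D) (h : Sep n d Y Y') (h1 : ¬ Disjoint Y X) (h2 : ¬ Disjoint Y' X) :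
    d ≤ (tau n D X + 2) * D := by
  obtain ⟨x, a1, a2⟩ := not_disjoint_iff.1 h1
  obtain ⟨y, b1, b2⟩ := not_disjoint_iff.1 h2
  exact_mod_cast h x a1 y b1 _ (tau_diam hD a2 b2)

variable {ι κ : Type} [DecidableEq κ] {A : Finset ι} {Z : ι → Finset St} {cl : ι → κ} {m k : ℕ}

/-- the sources which are met by `X` -/
def tch (A : Finset ι) (Z : ι → Finset St) (X : Finset St) : Finset ι :=
  A.filter fun i => ¬ Disjoint (Z i) X

theorem mem_tch {i : ι} : i ∈ tch A Z X ↔ i ∈ A ∧ ¬ Disjoint (Z i) X := mem_filter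

/-- different clusters are at distance at least `d` -/
def Cls (n : ℕ) (d : ℝ) (A : Finset ι) (cl : ι → κ) (Z : ι → Finset St) : Prop :=
  ∀ i ∈ A, ∀ j ∈ A, cl i ≠ cl j → Sep n d (Z i) (Z j)

omit [DecidableEq κ] in
theorem one_cluster (h : Cls n d A cl Z) (hd : 0 < d) {i j : ι} (hi : i ∈ A) (hj : j ∈ A)
    (h1 : x ∈ Z i) (h2 : x ∈ Z j) : cl i = cl j :=
  by_contra fun e => disjoint_left.1 ((h i hi j hj e).disj hd) h1 h2

theorem tch_card (hD : 1 ≤ D) (h : Cls n d A cl Z) (hm : (m + 2 : ℝ) * D ≤ d) (X : Finset St) :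
    ((tch A Z X).image cl).card * m + 1 ≤ tau n D X + m := by
  obtain ⟨h0, p, -, h2, h3⟩ := tau_spec (n := n) hD X
  generalize tau n D X = τ at *
  rcases m.eq_zero_or_pos with rfl | m0
  · omega
  have : ∀ c ∈ (tch A Z X).image cl, ∃ t < τ, ∃ i ∈ A, cl i = c ∧ ∃ x ∈ Z i, nearT n D (p t) x :=
    fun c hc => by
      obtain ⟨i, hi, rfl⟩ := mem_image.1 hc
      obtain ⟨x, a1, a2⟩ := not_disjoint_iff.1 (mem_tch.1 hi).2
      obtain ⟨t, b1, b2⟩ := h3 x a2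
      exact ⟨t, b1, i, (mem_tch.1 hi).1, rfl, x, a1, b2⟩
  choose! t t1 t2 using this
  have := card_le_card_of_injOn (s := (tch A Z X).image cl) (t := range ((τ - 1) / m + 1))
    (fun c => t c / m) (fun c hc => by
      simpa using Nat.lt_succ_of_le (Nat.div_le_div_right (Nat.le_sub_one_of_lt (t1 c hc))))
    fun c hc c' hc' e => by_contra fun ne => by
      obtain ⟨i, hi, rfl, x, a1, a2⟩ := t2 c hc
      obtain ⟨j, hj, rfl, y, b1, b2⟩ := t2 c' hc'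
      have c1 := Nat.div_add_mod (t (cl i)) m
      have c2 := Nat.div_add_mod (t (cl j)) m
      have c3 := Nat.mod_lt (t (cl i)) m0
      have c4 := Nat.mod_lt (t (cl j)) m0
      simp only at e
      rw [e] at c1
      obtain ⟨m, rfl⟩ : ∃ k, m = k + 1 := ⟨m - 1, by omega⟩
      have := h i hi j hj ne x a1 y b1 _ ((a2.symm.trans (Ta.chain' h2 (m := m) (t1 _ hc).le
        (t1 _ hc').le (by omega) (by omega))).trans b2)
      have D1 : (1 : ℝ) ≤ D := by exact_mod_cast hD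
      push_cast at this hm
      linarith
  rw [card_range] at this
  have h4 := Nat.div_mul_le_self (τ - 1) m
  have h5 := Nat.mul_le_mul_right m this
  rw [add_mul] at h5
  omega

theorem tch_le (hk : ∀ c, (A.filter (cl · = c)).card ≤ k) (X : Finset St) :
    (tch A Z X).card ≤ k * ((tch A Z X).image cl).card :=
  card_le_mul_card_image _ _ fun c _ =>
    (card_le_card (filter_subset_filter _ (filter_subset _ _))).trans (hk c)

theorem tch_pow (hD : 1 ≤ D) (h : Cls n d A cl Z) (hm : (m + 2 : ℝ) * D ≤ d)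
    (hk : ∀ c, (A.filter (cl · = c)).card ≤ k) {ρ : ℝ} (ρ0 : 0 ≤ ρ) (hρ : k * ρ ≤ m)
    (X : Finset St) :
    (1 + ρ) ^ (tch A Z X).card ≤ (1 + ρ) ^ k * Real.exp (tau n D X) := by
  have h1 := tch_card hD h hm X
  refine (pow_le_pow_right₀ (by linarith) (tch_le hk X)).trans ?_
  generalize ((tch A Z X).image cl).card = c at *
  rcases c with _ | c
  · simpa using one_le_mul_of_one_le_of_one_le (one_le_pow₀ (by linarith))
      (Real.one_le_exp (Nat.cast_nonneg _))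
  rw [mul_add, mul_one, pow_add, mul_comm]
  refine mul_le_mul_of_nonneg_left ?_ (by positivity)
  refine (pow_le_pow_left₀ (by positivity) (by linarith [Real.add_one_le_exp ρ] :
    1 + ρ ≤ Real.exp ρ) _).trans ?_
  rw [← Real.exp_nat_mul, Real.exp_le_exp]
  have h2 : (c : ℝ) * m ≤ tau n D X := by exact_mod_cast (by nlinarith : c * m ≤ tau n D X)
  push_cast
  nlinarith [mul_le_mul_of_nonneg_left hρ (c.cast_nonneg : (0 : ℝ) ≤ c)]

theorem kN_tch {p : Pa} {w : Mj} {θ : ℝ} (hD : 1 ≤ p.D) (h : Cls n d A cl Z)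
    (hm : (m + 2 : ℝ) * p.D ≤ d) (hk : ∀ c, (A.filter (cl · = c)).card ≤ k) {ρ : ℝ} (ρ0 : 0 ≤ ρ)
    (hρ : k * ρ ≤ m) (hw : kN p.up n w θ) :
    kN p n (fun X c => (1 + ρ) ^ (tch A Z X).card * w X c) ((1 + ρ) ^ k * θ) := by
  refine ⟨fun X c => mul_nonneg (by positivity) (hw.1 X c), fun x =>
    le_trans ?_ (mul_le_mul_of_nonneg_left (hw.2 x) (by positivity))⟩
  rw [mul_sum]
  refine sum_le_sum fun o _ => ?_
  have e : wgt p.up n o.1 o.2 = Real.exp (tau n p.D o.1) * wgt p n o.1 o.2 := by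
    simp only [wgt, Pa.up, ← Real.exp_add]
    congr 1
    ring
  have h0 : 0 ≤ w o.1 o.2 * wgt p n o.1 o.2 := mul_nonneg (hw.1 _ _) (Real.exp_pos _).le
  rw [e]
  linarith [mul_le_mul_of_nonneg_right (tch_pow hD h hm hk ρ0 hρ o.1) h0]

end geo

section loc

variable {ι : Type} [DecidableEq ι] {n a : ℕ} {Z Z' : ι → Finset St} {ψ ψ' : (ι → ℂ) → Lx}
  {K K' : (ι → ℂ) → Ac} {S : Sd} {i : ι}

/-- the data depend on the source `i` only near `Z i` -/
structure Loc (n : ℕ) (Z : ι → Finset St) (ψ : (ι → ℂ) → Lx) (K : (ι → ℂ) → Ac) : Prop where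
  psi : ∀ i x, rc n x ∉ Z i → Ind i (ψ · x)
  act : ∀ i X c, Disjoint (Z i) X → Ind i (K · X c)

theorem Loc.mono (h : Loc n Z ψ K) (e : ∀ i, Z i ⊆ Z' i) : Loc n Z' ψ K :=
  ⟨fun i x hx => h.psi i x fun h => hx (e i h),
    fun i X c hX => h.act i X c (hX.mono_left (e i))⟩

theorem Loc.add (h : Loc n Z ψ K) (φ : Lx) : Loc n Z (fun s => ψ s + φ) K :=
  ⟨fun i x hx => (h.psi i x hx).comp (· + φ x), h.act⟩

theorem Loc.trunc (h : Loc n Z ψ K) (A : Finset ι) :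
    Loc n Z ψ fun s X c U => tr A (K · X c U) s :=
  ⟨h.psi, fun i X c hX => ind_pi.2 fun U => (ind_pi.1 (h.act i X c hX) U).tr A⟩

omit [DecidableEq ι] in
theorem tch_one {κ : Type} [DecidableEq κ] {A : Finset ι} {cl : ι → κ} {d : ℝ} {k : ℕ}
    (h : Cls n d A cl Z) (hd : 0 < d) (hk : ∀ c, (A.filter (cl · = c)).card ≤ k) (x : St) :
    (tch A Z {x}).card ≤ k := by
  rcases (tch A Z {x}).eq_empty_or_nonempty with e | ⟨i, hi⟩
  · simp [e]
  refine (card_le_card fun j hj => mem_filter.2 ⟨(mem_tch.1 hj).1, one_cluster (x := x) h hd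
    (mem_tch.1 hj).1 (mem_tch.1 hi).1 ?_ ?_⟩).trans (hk (cl i))
  exacts [by simpa using (mem_tch.1 hj).2, by simpa using (mem_tch.1 hi).2]

theorem Loc.jdA (h : Loc n Z ψ K) {T : Finset ι} (hi : i ∈ T) {X : Finset St}
    (hX : Disjoint (Z i) X) (c : Finset (Finset St)) (U : Conf) : jd T (K · X c U) = 0 :=
  (ind_pi.1 (h.act i X c hX) U).jd hi

theorem Loc.ag (h : Loc S.nf Z ψ K) (hn : Odd S.n) {Y : Finset St}
    (hY : Disjoint (dn S.l S.n (Z i)) Y) (s : ι → ℂ) (t : ℂ) :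
    S.AgD Y (ψ (update s i t)) (ψ s) (K (update s i t)) (K s) := by
  refine ⟨fun x hx h1 => h.psi i x (fun h2 => disjoint_left.1 hY ?_ h1) s t,
    fun o _ h1 => h.act i _ _ (disjoint_left.2 fun x h2 h3 => disjoint_left.1 hY
      (mem_image_of_mem _ h2) (h1 (mem_image_of_mem _ h3))) s t⟩
  rw [rc_eq (Sh.onf hn) hx] at h2
  rw [Sd.nf_half hn, Op.mem_fb] at hx
  exact mem_image.2 ⟨x, h2, rc_eq hn hx⟩

theorem PL_rc (S : Sd) (ψ : Lx) (K : Ac) (y : St) : S.PL ψ K (rc S.n y) = S.PL ψ K y := by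
  simp only [Sd.PL, Sd.ψy, Sd.Ky, Sd.nf, Sh.trL_up_rc, Sh.trA_up_rc]

theorem Ey_rc (S : Sd) (ψ : Lx) (K : Ac) (y : St) : S.Ey ψ K (rc S.n y) = S.Ey ψ K y := by
  simp only [Sd.Ey, Sd.ψy, Sd.Ky, Sd.nf, Sh.trL_up_rc, Sh.trA_up_rc]

theorem Loc.ag0 (h : Loc S.nf Z ψ K) (u : S.Nu a) {y : St} (hy : rc S.n y ∉ nxt S (Z i))
    (s : ι → ℂ) (t : ℂ) : Sh.Ag0 S (S.ψy (ψ (update s i t)) (rc S.n y)) (S.ψy (ψ s) (rc S.n y))
      (S.Ky (K (update s i t)) (rc S.n y)) (S.Ky (K s) (rc S.n y)) :=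
  Sh.ag0 (h.ag u.ok.odd (disjoint_left.2 fun z h1 h2 =>
    hy (mem_tb.2 ⟨rc_rc _ _, z, h1, (mem_tb_single.1 h2).2.symm⟩)) s t) (u.mono a.zero_le)
    (rc_mem u.ok.odd y) Subset.rfl

theorem Loc.step (h : Loc S.nf Z ψ K) (u : S.Nu a) :
    Loc S.n (fun i => nxt S (Z i)) (fun s => S.PL (ψ s) (K s)) fun s => S.KK (ψ s) (K s) :=
  ⟨fun _ _ hy s t => (PL_rc _ _ _ _).symm.trans ((Sh.Pl_ag (h.ag0 u hy s t)).trans (PL_rc _ _ _ _)),
    fun _ _ _ hY s t =>
      Sh.KK_ag (h.ag u.ok.odd (hY.mono_left dn_sub_nxt) s t) (u.mono a.zero_le)⟩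

theorem Loc.ey (h : Loc S.nf Z ψ K) (u : S.Nu a) {y : St} (hy : rc S.n y ∉ nxt S (Z i)) :
    Ind i fun s => S.Ey (ψ s) (K s) y := fun s t => by
  simp only
  rw [← Ey_rc, ← Ey_rc S (ψ s), Sd.Ey, Sd.Ey, Sh.cX_ag (h.ag0 u hy s t)]

end loc

end Pool.Agent.Lib.MP_7f377f_mp.RG.Q4.Sg
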