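import Pool.Agent.Lib.MP_7f377f_mp.G.RGMeasRho

/-! Reduction of a step to an integral over the links outside the trees. -/

noncomputable section

set_option linter.unusedSectionVars false
variable [Pool.Agent.Lib.MP_7f377f_mp.GD]

namespace Pool.Agent.Lib.MP_7f377f_mp.RG

open MeasureTheory Measure Set
open scoped ENNReal

namespace Ms

section grp
variable {G : Type} [Group G]

theorem ln_zero (U : Lk → G) (p : St) (μ : Fin 4) : ln Inv.inv U p μ 0 = 1 := by
  simp [ln, lnP, lnN]

theorem cmb_zero (U : Lk → G) : cmb Inv.inv U 0 = 1 := by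
  simp [cmb, ln_zero]

theorem ln_succ (U : Lk → G) (p : St) (μ : Fin 4) (n : ℤ) :
    ln Inv.inv U p μ (n + 1) = ln Inv.inv U p μ n * U (p + n • un μ, μ) := by
  rcases le_or_gt 0 n with h | h
  · obtain ⟨k, rfl⟩ := Int.eq_ofNat_of_zero_le h
    have h1 : ((k : ℤ) + 1).toNat = k + 1 := by omega
    have h2 : (-((k : ℤ) + 1)).toNat = 0 := by omega
    have h3 : (-(k : ℤ)).toNat = 0 := by omega
    rw [ln, ln, h1, h2, h3, Int.toNat_natCast]
    simp [lnP, lnN]
  · obtain ⟨k, rfl⟩ : ∃ k : ℕ, n = -((k : ℤ) + 1) := ⟨(-n - 1).toNat, by omega⟩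
    have h1 : (-((k : ℤ) + 1) + 1).toNat = 0 := by omega
    have h2 : (-((k : ℤ) + 1)).toNat = 0 := by omega
    have h3 : (-(-((k : ℤ) + 1) + 1)).toNat = k := by omega
    have h4 : (-(-((k : ℤ) + 1))).toNat = k + 1 := by omega
    rw [ln, ln, h1, h2, h3, h4, lnN, neg_smul, ← sub_eq_add_neg]
    simp [lnP]

theorem cmb_succ (U : Lk → G) (t : St) (μ : Fin 4) (h : ∀ ν, μ < ν → t ν = 0) :
    cmb Inv.inv U (t + un μ) = cmb Inv.inv U t * U (t, μ) := by
  have e : ∀ ν, ν ≤ μ → pre (t + un μ) ν = pre t ν := fun ν hν => by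
    funext i
    simp only [pre, un, Pi.add_apply]
    split_ifs with hi
    · rw [Pi.single_eq_of_ne (hi.trans_le hν).ne, add_zero]
    · rfl
  have e1 : ∀ ν, ν ≠ μ → (t + un μ) ν = t ν := fun ν hν => by
    simp only [un, Pi.add_apply, Pi.single_eq_of_ne hν, add_zero]
  have e2 : (t + un μ) μ = t μ + 1 := by simp [un]
  have e3 : pre t μ + t μ • un μ = t := by
    funext i
    rcases lt_trichotomy i μ with hi | rfl | hi
    · simp [pre, un, hi, Pi.single_eq_of_ne hi.ne]
    · simp [pre, un]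
    · simp [pre, un, hi.not_gt, Pi.single_eq_of_ne hi.ne', h i hi]
  have e4 := ln_succ U (pre t μ) μ (t μ)
  rw [e3, ← e2] at e4
  unfold cmb
  fin_cases μ
  · simp only [Fin.zero_eta] at *
    rw [e1 1 (by decide), e1 2 (by decide), e1 3 (by decide), h 1 (by decide), h 2 (by decide),
      h 3 (by decide), e 0 le_rfl, e4]
    simp only [ln_zero, mul_one]
  · simp only [Fin.mk_one] at *
    rw [e1 0 (by decide), e1 2 (by decide), e1 3 (by decide), h 2 (by decide),
      h 3 (by decide), e 0 (by decide), e 1 le_rfl, e4]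
    simp only [ln_zero, mul_one, mul_assoc]
  · simp only [Fin.reduceFinMk] at *
    rw [e1 0 (by decide), e1 1 (by decide), e1 3 (by decide), h 3 (by decide), e 0 (by decide),
      e 1 (by decide), e 2 le_rfl, e4]
    simp only [ln_zero, mul_one, mul_assoc]
  · simp only [Fin.reduceFinMk] at *
    rw [e1 0 (by decide), e1 1 (by decide), e1 2 (by decide), e 0 (by decide),
      e 1 (by decide), e 2 (by decide), e 3 le_rfl, e4]
    simp only [mul_assoc]

theorem ln_congr {U U' : Lk → G} (p : St) (μ : Fin 4) (n : ℤ)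
    (h : ∀ k : ℤ, min n 0 ≤ k → k < max n 0 → U (p + k • un μ, μ) = U' (p + k • un μ, μ)) :
    ln Inv.inv U p μ n = ln Inv.inv U' p μ n := by
  induction n using Int.induction_on with
  | zero => rw [ln_zero, ln_zero]
  | succ k ih =>
    rw [ln_succ, ln_succ, ih fun k' h1 h2 => h k' (by omega) (by omega), h k (by omega) (by omega)]
  | pred k ih =>
    have h1 := ln_succ U p μ (-(k : ℤ) - 1)
    have h2 := ln_succ U' p μ (-(k : ℤ) - 1)
    rw [sub_add_cancel] at h1 h2
    rw [ih fun k' h1 h2 => h k' (by omega) (by omega), h _ (by omega) (by omega), h2] at h1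
    exact (mul_right_cancel h1).symm

theorem tree_of {l : ℕ} {t : St} (ht : ∀ i, -(l : ℤ) ≤ t i ∧ t i ≤ l) (μ : Fin 4) {k : ℤ}
    (h1 : min (t μ) 0 ≤ k) (h2 : k < max (t μ) 0) : tree l (pre t μ + k • un μ, μ) := by
  have hμ := ht μ
  have b1 : yo l (pre t μ + k • un μ) = 0 := yo_box fun i => by
    have := ht i
    rcases lt_trichotomy i μ with hi | rfl | hi
    · simpa [pre, un, hi, Pi.single_eq_of_ne hi.ne] using this
    · simp only [pre, un, Pi.add_apply, lt_irrefl, if_false, Pi.smul_apply, Pi.single_eq_same,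
        smul_eq_mul]
      omega
    · simp [pre, un, hi.not_gt, Pi.single_eq_of_ne hi.ne']
  have b2 : yo l (pre t μ + k • un μ + un μ) = 0 := yo_box fun i => by
    have := ht i
    rcases lt_trichotomy i μ with hi | rfl | hi
    · simpa [pre, un, hi, Pi.single_eq_of_ne hi.ne] using this
    · simp only [pre, un, Pi.add_apply, lt_irrefl, if_false, Pi.smul_apply, Pi.single_eq_same,
        smul_eq_mul]
      omega
    · simp [pre, un, hi.not_gt, Pi.single_eq_of_ne hi.ne']
  refine ⟨b2.trans b1.symm, fun ν hν => ?_⟩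
  have hν' : μ < ν := hν
  simp only [b1]
  simp [pre, un, up, hν'.not_gt, Pi.single_eq_of_ne hν'.ne']

/-- the transport from the centre of the block -/
def hb (l : ℕ) (V : Lk → G) (x : St) : G :=
  cmb Inv.inv (sh (up l (yo l x)) V) (x - up l (yo l x))

theorem hb_up (l : ℕ) (V : Lk → G) (y : St) : hb l V (up l y) = 1 := by
  rw [hb, yo_up, sub_self, cmb_zero]

theorem hb_congr {l : ℕ} {V V' : Lk → G} (h : ∀ e, tree l e → V e = V' e) (x : St) :
    hb l V x = hb l V' x := by
  have : ∀ μ, ln Inv.inv (sh (up l (yo l x)) V) (pre (x - up l (yo l x)) μ) μ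
      ((x - up l (yo l x)) μ) = ln Inv.inv (sh (up l (yo l x)) V') (pre (x - up l (yo l x)) μ) μ
      ((x - up l (yo l x)) μ) := fun μ => ln_congr _ _ _ fun k h1 h2 =>
    h _ ((tree_add_up l _ _ μ).2 (tree_of (rel_box l x) μ h1 h2))
  simp only [hb, cmb, this]

theorem hb_tree {l : ℕ} (V : Lk → G) {f : Lk} (hf : tree l f) :
    gauge Inv.inv (hb l V) V f = 1 := by
  rw [gauge, hb, hb, hf.1, add_sub_right_comm, cmb_succ _ _ _ fun ν hν => by
    rw [Pi.sub_apply, hf.2 ν hν, sub_self]]
  simp [sh]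

theorem hb_per {l n : ℕ} {V : Lk → G} (hV : PL (LL l * n) V) : PS (LL l * n) (hb l V) := by
  intro x y h
  obtain ⟨k, hk, rfl⟩ := h.ex
  have e1 : y + up l k - up l (yo l (y + up l k)) = y - up l (yo l y) := by
    rw [yo_add_up]
    simp only [up, smul_add, add_sub_add_right_eq_sub]
  have e2 : sh (up l (yo l (y + up l k))) V = sh (up l (yo l y)) V := by
    funext e
    refine hV _ _ _ fun i => ?_
    obtain ⟨c, hc⟩ := hk i
    refine ⟨c, ?_⟩
    rw [yo_add_up]
    simp only [up, Pi.add_apply, Pi.smul_apply, smul_eq_mul, hc]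
    push_cast
    ring
  rw [hb, hb, e1, e2]

end grp

theorem cont_hb (l : ℕ) (x : St) : Continuous fun V : Conf => hb l V x :=
  (cont_cmb _).comp (cont_sh _)

theorem gauge_one {u : St → S3} (h : ∀ y, u y = 1) (W : Conf) : gauge Inv.inv u W = W := by
  funext e
  simp [gauge, h]

end Ms

end Pool.Agent.Lib.MP_7f377f_mp.RG
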