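import Pool.Agent.Lib.MP_7f377f_mp.G.Q4Model
import Pool.Agent.Lib.MP_7f377f_mp.G.RGMeasTree
import Pool.Agent.Lib.MP_7f377f_mp.RGAp0

/-! Covariance of the symmetric block spin map. -/

noncomputable section

set_option linter.unusedSectionVars false
variable [Pool.Agent.Lib.MP_7f377f_mp.GD]

namespace Pool.Agent.Lib.MP_7f377f_mp.RG.Q4

open Finset Ms

namespace Mx

/-- action of a permutation of the axes on sites -/
def pz (σ : Equiv.Perm (Fin 4)) (x : St) : St := fun i => x (σ.symm i)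

/-- reflection of sites -/
def rz (k : Fin 4) (x : St) : St := fun i => if i = k then -x i else x i

section sites
variable (σ τ : Equiv.Perm (Fin 4)) (k : Fin 4) (x y : St)

theorem pz_add : pz σ (x + y) = pz σ x + pz σ y := rfl
theorem pz_sub : pz σ (x - y) = pz σ x - pz σ y := rfl
theorem pz_smul (c : ℤ) : pz σ (c • x) = c • pz σ x := rfl
theorem pz_zero : pz σ 0 = 0 := rfl
theorem pz_up (l : ℕ) : pz σ (up l x) = up l (pz σ x) := rfl
theorem pz_un (μ : Fin 4) : pz σ (un μ) = un (σ μ) := by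
  funext i
  simp only [pz, un_apply, Equiv.symm_apply_eq]
theorem pz_inv : pz σ⁻¹ (pz σ x) = x := funext fun i => congrArg x (σ.symm_apply_apply i)
theorem inv_pz : pz σ (pz σ⁻¹ x) = x := funext fun i => congrArg x (σ.apply_symm_apply i)
theorem pz_box {r : ℕ} : pz σ x ∈ box r ↔ x ∈ box r := by
  simp only [mem_box]
  exact ⟨fun h i => by simpa [pz] using h (σ i), fun h i => h _⟩

theorem rz_add : rz k (x + y) = rz k x + rz k y := by
  funext i
  simp only [rz, Pi.add_apply]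
  split_ifs <;> ring
theorem rz_sub : rz k (x - y) = rz k x - rz k y := by
  funext i
  simp only [rz, Pi.sub_apply]
  split_ifs <;> ring
theorem rz_smul (c : ℤ) : rz k (c • x) = c • rz k x := by
  funext i
  simp only [rz, Pi.smul_apply, smul_eq_mul]
  split_ifs <;> ring
theorem rz_zero : rz k 0 = 0 := by funext i; simp [rz]
theorem rz_rz : rz k (rz k x) = x := by
  funext i
  simp only [rz]
  split_ifs <;> ring
theorem rz_up (l : ℕ) : rz k (up l x) = up l (rz k x) := rz_smul _ _ _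
theorem rz_un_self : rz k (un k) = -un k := by
  funext i
  by_cases h : i = k <;> simp [rz, un_apply, h]
theorem rz_un_ne {μ : Fin 4} (h : μ ≠ k) : rz k (un μ) = un μ := by
  funext i
  by_cases hi : i = k
  · simp [rz, hi, un_ne h.symm]
  · simp [rz, hi]
theorem rz_box {r : ℕ} : rz k x ∈ box r ↔ x ∈ box r := by
  simp only [mem_box, rz]
  refine forall_congr' fun i => ?_
  split_ifs <;> omega

end sites

theorem pm_apply {α : Type} (σ : Equiv.Perm (Fin 4)) (U : Lk → α) (x : St) (μ : Fin 4) :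
    pm σ U (x, μ) = U (pz σ x, σ μ) := rfl

theorem rfl1_self {α : Type} (iv : α → α) (k : Fin 4) (U : Lk → α) (x : St) :
    rfl1 iv k U (x, k) = iv (U (rz k x - un k, k)) := by
  rw [rfl1, if_pos rfl]
  congr 3
  funext i
  by_cases h : i = k
  · subst h; simp [rz]
  · simp [rz, h, un_ne h]

theorem rfl1_ne {α : Type} (iv : α → α) {k μ : Fin 4} (h : μ ≠ k) (U : Lk → α) (x : St) :
    rfl1 iv k U (x, μ) = U (rz k x, μ) := by
  rw [rfl1, if_neg h]
  congr 2
  funext i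
  by_cases h : i = k
  · subst h; simp [rz]
  · simp [rz, h]

theorem sh_pm {α : Type} (σ : Equiv.Perm (Fin 4)) (v : St) (U : Lk → α) :
    sh v (pm σ U) = pm σ (sh (pz σ v) U) := rfl

theorem pm_pm {α : Type} (σ τ : Equiv.Perm (Fin 4)) (U : Lk → α) :
    pm τ (pm σ U) = pm (σ * τ) U := rfl

theorem sh_rfl {α : Type} (iv : α → α) (k : Fin 4) (v : St) (U : Lk → α) :
    sh v (rfl1 iv k U) = rfl1 iv k (sh (rz k v) U) := by
  funext ⟨x, μ⟩
  by_cases h : μ = k
  · subst h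
    simp only [sh_apply, rfl1_self, rz_add, add_sub_right_comm]
  · simp only [sh_apply, rfl1_ne _ h, rz_add]

theorem pm_rfl {α : Type} (iv : α → α) (σ : Equiv.Perm (Fin 4)) (k : Fin 4) (U : Lk → α) :
    pm σ (rfl1 iv k U) = rfl1 iv (σ.symm k) (pm σ U) := by
  have e : ∀ x, rz k (pz σ x) = pz σ (rz (σ.symm k) x) := fun x => by
    funext i
    simp [rz, pz]
  funext ⟨x, μ⟩
  obtain ⟨k, rfl⟩ := σ.surjective k
  rw [σ.symm_apply_apply] at *
  by_cases h : μ = k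
  · subst h
    rw [pm_apply, rfl1_self, rfl1_self, pm_apply, pz_sub, pz_un, e]
  · rw [pm_apply, rfl1_ne _ h, rfl1_ne _ (σ.injective.ne h), pm_apply, e]

section grp
variable {G : Type} [Group G]

theorem ln_uniq {U : Lk → G} {p : St} {μ : Fin 4} (g : ℤ → G) (h0 : g 0 = 1)
    (h : ∀ n, g (n + 1) = g n * U (p + n • un μ, μ)) (n : ℤ) : ln Inv.inv U p μ n = g n := by
  induction n using Int.induction_on with
  | zero => rw [Ms.ln_zero, h0]
  | succ k ih => rw [ln_succ, h, ih]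
  | pred k ih =>
    have h1 := ln_succ U p μ (-(k : ℤ) - 1)
    have h2 := h (-(k : ℤ) - 1)
    rw [sub_add_cancel] at h1 h2
    rw [ih, h2] at h1
    exact (mul_right_cancel h1).symm

theorem lnP_eq (U : Lk → G) (p : St) (μ : Fin 4) (k : ℕ) :
    lnP U p μ k = ln Inv.inv U p μ k := by
  have : (-(k : ℤ)).toNat = 0 := by omega
  simp [ln, this, lnN]

theorem lnP_pm (σ : Equiv.Perm (Fin 4)) (U : Lk → G) (p : St) (μ : Fin 4) (k : ℕ) :
    lnP (pm σ U) p μ k = lnP U (pz σ p) (σ μ) k := by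
  induction k with
  | zero => rfl
  | succ k ih => rw [lnP, lnP, ih, pm_apply, pz_add, pz_smul, pz_un]

theorem ln_rfl_ne {k μ : Fin 4} (h : μ ≠ k) (U : Lk → G) (p : St) (n : ℤ) :
    ln Inv.inv (rfl1 Inv.inv k U) p μ n = ln Inv.inv U (rz k p) μ n :=
  ln_uniq _ (Ms.ln_zero _ _ _) (fun n => by
    rw [ln_succ, rfl1_ne _ h, rz_add, rz_smul, rz_un_ne _ h]) n

theorem ln_rfl_self (k : Fin 4) (U : Lk → G) (p : St) (n : ℤ) :
    ln Inv.inv (rfl1 Inv.inv k U) p k n = ln Inv.inv U (rz k p) k (-n) := by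
  refine ln_uniq (fun n => ln Inv.inv U (rz k p) k (-n)) (Ms.ln_zero _ _ _) (fun n => ?_) n
  have := ln_succ U (rz k p) k (-(n + 1))
  rw [show -(n + 1) + 1 = -n by ring] at this
  have e : rz k (p + n • un k) - un k = rz k p + -(n + 1) • un k := by
    rw [rz_add, rz_smul, rz_un_self]
    module
  rw [this, rfl1_self, e, mul_inv_cancel_right]

theorem lnP_rfl_self (k : Fin 4) (U : Lk → G) (p : St) (m : ℕ) :
    lnP (rfl1 Inv.inv k U) p k m = (lnP (sh (-((m : ℤ) • un k)) U) (rz k p) k m)⁻¹ := by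
  set V := sh (-((m : ℤ) • un k)) U with hV
  have h : ∀ n : ℤ, ln Inv.inv V (rz k p) k n =
      (ln Inv.inv U (rz k p) k (-m))⁻¹ * ln Inv.inv U (rz k p) k (-m + n) :=
    ln_uniq _ (by simp) fun n => by
      rw [← add_assoc, ln_succ, mul_assoc, hV, sh_apply]
      congr 4
      module
  rw [lnP_eq, lnP_eq, ln_rfl_self, h, neg_add_cancel, Ms.ln_zero, mul_one, inv_inv]

theorem cmb_rfl (k : Fin 4) (U : Lk → G) (x : St) :
    cmb Inv.inv (rfl1 Inv.inv k U) x = cmb Inv.inv U (rz k x) := by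
  have h : ∀ μ, ln Inv.inv (rfl1 Inv.inv k U) (pre x μ) μ (x μ) =
      ln Inv.inv U (pre (rz k x) μ) μ (rz k x μ) := fun μ => by
    have e : rz k (pre x μ) = pre (rz k x) μ := by
      funext i
      simp only [rz, pre]
      split_ifs <;> simp
    by_cases h : μ = k
    · subst h
      rw [ln_rfl_self, e, rz, if_pos rfl]
    · rw [ln_rfl_ne h, e, rz, if_neg h]
  simp only [cmb, h]

theorem cms_rfl (k : Fin 4) (σ : Equiv.Perm (Fin 4)) (U : Lk → G) (p t : St) :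
    cms Inv.inv σ (rfl1 Inv.inv k U) p t = cms Inv.inv σ U (rz k p) (rz k t) := by
  rw [cms, cms, sh_rfl, pm_rfl, cmb_rfl, ← rz_sub]
  congr 1
  funext j
  simp only [rz, Equiv.eq_symm_apply]

theorem cms_pm (σ τ : Equiv.Perm (Fin 4)) (U : Lk → G) (p t : St) :
    cms Inv.inv τ (pm σ U) p t = cms Inv.inv (σ * τ) U (pz σ p) (pz σ t) := by
  rw [cms, cms, sh_pm, pm_pm]
  congr 1
  funext j
  simp [pz]

theorem cms_gauge (σ : Equiv.Perm (Fin 4)) (u : St → G) (U : Lk → G) (p t : St) :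
    cms Inv.inv σ (gauge Inv.inv u U) p t = u p * cms Inv.inv σ U p t * (u t)⁻¹ := by
  have e : pm σ (sh p (gauge Inv.inv u U)) =
      gauge Inv.inv (fun y => u (pz σ y + p)) (pm σ (sh p U)) := by
    funext ⟨x, μ⟩
    simp only [pm_apply, sh_apply, gauge, pz_add, pz_un, add_right_comm]
  have e2 : pz σ (fun j => (t - p) (σ j)) + p = t := by funext i; simp [pz]
  rw [cms, cms, e, Ms.cmb_gauge, pz_zero, zero_add, e2]

end grp

theorem fq_gauge (u : St → S3) (U : Conf) (x : St) (μ ν : Fin 4) :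
    fq (gauge Inv.inv u U) x μ ν = fq U x μ ν := by
  rw [fq, fq, Ms.hol_gauge, norm_sub_conj]

theorem fq_sh (v : St) (U : Conf) (x : St) (μ ν : Fin 4) :
    fq (sh v U) x μ ν = fq U (x + v) μ ν := by
  simp only [fq, hol, sh_apply, add_right_comm]

theorem fq_pm (σ : Equiv.Perm (Fin 4)) (U : Conf) (x : St) (μ ν : Fin 4) :
    fq (pm σ U) x μ ν = fq U (pz σ x) (σ μ) (σ ν) := by
  simp only [fq, hol, pm_apply, pz_add, pz_un]

theorem norm_sub_inv (g : S3) : ‖(g⁻¹).q - 1‖ = ‖g.q - 1‖ := by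
  rw [q_inv, ← norm_star (g.q - 1), star_sub, star_one]

theorem fq_self (U : Conf) (x : St) (μ : Fin 4) : fq U x μ μ = 0 := by
  simp [fq, hol, q_one]

theorem fq_symm (U : Conf) (x : St) (μ ν : Fin 4) : fq U x μ ν = fq U x ν μ := by
  rw [fq, fq, ← norm_sub_inv]
  congr 3
  simp only [hol]
  group

/-- reflection of plaquettes -/
def rq (k μ ν : Fin 4) (x : St) : St := fun i => if i = k then -(x + un μ + un ν) i else x i

theorem rq_rq (k μ ν : Fin 4) (x : St) : rq k μ ν (rq k μ ν x) = x := by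
  funext i
  simp only [rq, Pi.add_apply]
  split_ifs <;> ring

theorem rq_box {k μ ν : Fin 4} {x : St} {R : ℕ} (h : x ∈ box R) (h' : x + un μ + un ν ∈ box R) :
    rq k μ ν x ∈ box R ∧ rq k μ ν x + un μ + un ν ∈ box R := by
  simp only [mem_box, rq, Pi.add_apply] at *
  constructor <;> intro i <;> have := h i <;> have := h' i <;> split_ifs <;> omega

theorem fq_rfl (k : Fin 4) (U : Conf) (x : St) (μ ν : Fin 4) :
    fq (rfl1 Inv.inv k U) x μ ν = fq U (rq k μ ν x) μ ν := by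
  have key : ∀ ν, ν ≠ k → fq (rfl1 Inv.inv k U) x k ν = fq U (rq k k ν x) k ν := fun ν h => by
    have e : rz k x = rq k k ν x + un k := by
      funext i
      by_cases hi : i = k
      · simp [rq, rz, hi, un_ne h.symm]
      · simp [rq, rz, hi, un_ne hi]
    rw [fq_symm U, fq, fq, ← norm_sub_conj (U (rq k k ν x, k))⁻¹ (hol _ U _ _ _)]
    congr 3
    simp only [hol, rfl1_self, rfl1_ne _ h, rz_add, rz_un_self, rz_un_ne _ h, e,
      add_neg_cancel_right, add_sub_cancel_right, add_right_comm _ (un k) (un ν)]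
    group
  by_cases hμ : μ = k <;> by_cases hν : ν = k
  · rw [hμ, hν, fq_self, fq_self]
  · rw [hμ, key ν hν]
  · rw [hν, fq_symm, key μ hμ, fq_symm]
    congr 1
    funext i
    simp only [rq, add_right_comm]
  · have e : rq k μ ν x = rz k x := by
      funext i
      by_cases hi : i = k
      · simp [rq, rz, hi, un_ne (Ne.symm hμ), un_ne (Ne.symm hν)]
      · simp [rq, rz, hi]
    simp only [fq, hol, rfl1_ne _ hμ, rfl1_ne _ hν, rz_add, rz_un_ne _ hμ, rz_un_ne _ hν, e]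

theorem Fl_pm (σ : Equiv.Perm (Fin 4)) (R : ℕ) (ε : ℝ) (U : Conf) :
    Fl R ε (pm σ U) ↔ Fl R ε U := by
  have key : ∀ (σ : Equiv.Perm (Fin 4)) (U : Conf), Fl R ε U → Fl R ε (pm σ U) :=
    fun σ U h x μ ν h1 h2 => by
      rw [fq_pm]
      refine h _ _ _ ((pz_box _ _).2 h1) ?_
      rw [← pz_un, ← pz_un, ← pz_add, ← pz_add]
      exact (pz_box _ _).2 h2
  refine ⟨fun h => ?_, key σ U⟩
  have := key σ⁻¹ _ h
  rwa [pm_pm, mul_inv_cancel] at this

theorem Fl_rfl (k : Fin 4) (R : ℕ) (ε : ℝ) (U : Conf) :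
    Fl R ε (rfl1 Inv.inv k U) ↔ Fl R ε U := by
  refine ⟨fun h x μ ν h1 h2 => ?_, fun h x μ ν h1 h2 => ?_⟩
  · rw [← rq_rq k μ ν x, ← fq_rfl]
    exact h _ _ _ (rq_box h1 h2).1 (rq_box h1 h2).2
  · rw [fq_rfl]
    exact h _ _ _ (rq_box h1 h2).1 (rq_box h1 h2).2

theorem ms_pm (σ : Equiv.Perm (Fin 4)) (l : ℕ) (U : Conf) (μ : Fin 4) (s : ℤ) :
    ms l (pm σ U) μ s = ms l U (σ μ) s := by
  refine sum_nbij' (pz σ) (pz σ⁻¹) (fun x hx => (pz_box _ _).2 hx) (fun x hx => (pz_box _ _).2 hx)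
    (fun x _ => pz_inv _ _) (fun x _ => inv_pz _ _) fun x _ => ?_
  refine Fintype.sum_equiv σ _ _ fun ν => Fintype.sum_equiv σ _ _ fun κ => ?_
  rw [fq_pm, ← pz_un, ← pz_un, ← pz_add, ← pz_add]
  simp only [pz_box, Ne, σ.injective.eq_iff]
  simp only [pz, Equiv.symm_apply_apply]

theorem ms_rfl (k : Fin 4) (l : ℕ) (U : Conf) (μ : Fin 4) (s : ℤ) :
    ms l (rfl1 Inv.inv k U) μ s = ms l U μ (if μ = k then -s else s) := by
  rw [ms, ms, sum_comm, sum_comm (s := box _)]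
  refine sum_congr rfl fun ν _ => ?_
  rw [sum_comm, sum_comm (s := box _)]
  refine sum_congr rfl fun κ _ => ?_
  have e : ∀ x s, ν ≠ μ → κ ≠ μ → x μ = s → rq k ν κ x μ = if μ = k then -s else s :=
    fun x s h1 h2 h => by simp [rq, un_ne h1.symm, un_ne h2.symm, h]
  rw [← sum_filter, ← sum_filter]
  refine sum_nbij' (rq k ν κ) (rq k ν κ) (fun x hx => ?_) (fun x hx => ?_)
    (fun x _ => rq_rq _ _ _ _) (fun x _ => rq_rq _ _ _ _) fun x _ => fq_rfl _ _ _ _ _
  all_goals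
    obtain ⟨h0, h1, h2, h3, h4⟩ := mem_filter.1 hx
    refine mem_filter.2 ⟨(rq_box h0 h4).1, ?_, h2, h3, (rq_box h0 h4).2⟩
    rw [e _ _ h2 h3 h1]
  split_ifs <;> simp

/-- action of a permutation on the base data -/
def opm (σ : Equiv.Perm (Fin 4)) (ω : Om) : Om := (pz σ ω.1, σ * ω.2)

/-- action of a reflection on the base data -/
def orf (k : Fin 4) (ω : Om) : Om := (rz k ω.1, ω.2)

open Classical in
/-- the weight as a function of the base point -/
def wp (l : ℕ) (U : Conf) (p : St) : ℝ :=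
  if Fl l ((LL l : ℝ) ^ 4)⁻¹ U then (if p = 0 then (LL l : ℝ) ^ 4 else 0)
  else ∏ μ, if p μ ∈ adm l U μ then (LL l : ℝ) / (adm l U μ).card else 0

theorem wt_eq (l : ℕ) (U : Conf) (ω : Om) : wt l U ω = wp l U ω.1 := by
  rw [wt, wp]

theorem wt_gauge (l : ℕ) (u : St → S3) (U : Conf) (ω : Om) :
    wt l (gauge Inv.inv u U) ω = wt l U ω := by
  have h1 : adm l (gauge Inv.inv u U) = adm l U := by
    funext μ
    simp only [adm, ms, fq_gauge]
  have h2 : ∀ ε, Fl l ε (gauge Inv.inv u U) ↔ Fl l ε U := fun ε => by simp only [Fl, fq_gauge]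
  classical
  rw [wt_eq, wt_eq, wp, wp, h1]
  exact if_congr (h2 _) rfl rfl

theorem wp_pm (σ : Equiv.Perm (Fin 4)) (l : ℕ) (U : Conf) (p : St) :
    wp l (pm σ U) p = wp l U (pz σ p) := by
  have h1 : ∀ μ, adm l (pm σ U) μ = adm l U (σ μ) := fun μ => by simp only [adm, ms_pm]
  have h2 : p = 0 ↔ pz σ p = 0 :=
    ⟨fun h => congrArg (pz σ) h, fun h => by rw [← pz_inv σ p]; exact congrArg _ h⟩
  classical
  rw [wp, wp]
  refine if_congr (Fl_pm _ _ _ _) (if_congr h2 rfl rfl) (Fintype.prod_equiv σ _ _ fun μ => ?_)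
  simp only [h1, pz, Equiv.symm_apply_apply]

theorem wt_pm (σ : Equiv.Perm (Fin 4)) (l : ℕ) (U : Conf) (ω : Om) :
    wt l (pm σ U) ω = wt l U (opm σ ω) := by
  rw [wt_eq, wt_eq, wp_pm]
  rfl

theorem wp_rfl (k : Fin 4) (l : ℕ) (U : Conf) (p : St) :
    wp l (rfl1 Inv.inv k U) p = wp l U (rz k p) := by
  have h2 : p = 0 ↔ rz k p = 0 := ⟨fun h => (congrArg (rz k) h).trans (rz_zero k),
    fun h => by rw [← rz_rz k p, ← rz_zero k]; exact congrArg _ h⟩
  classical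
  rw [wp, wp]
  refine if_congr (Fl_rfl _ _ _ _) (if_congr h2 rfl rfl) (prod_congr rfl fun μ _ => ?_)
  by_cases h : μ = k
  · have h3 : ∑ s ∈ Icc (-(l : ℤ)) l, ms l U μ (-s) = ∑ s ∈ Icc (-(l : ℤ)) l, ms l U μ s :=
      sum_nbij' (- ·) (- ·) (by simp; omega) (by simp; omega) (by simp) (by simp) (by simp)
    have h4 : ∀ s, s ∈ adm l (rfl1 Inv.inv k U) μ ↔ -s ∈ adm l U μ := fun s => by
      simp only [adm, ms_rfl, if_pos h, h3, mem_filter, mem_Icc]
      exact and_congr_left' (by omega)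
    have h5 : (adm l (rfl1 Inv.inv k U) μ).card = (adm l U μ).card :=
      card_nbij' (- ·) (- ·) (fun s hs => (h4 s).1 hs) (fun s hs => (h4 _).2 (by simpa using hs))
        (by simp [Set.LeftInvOn]) (by simp [Set.RightInvOn, Set.LeftInvOn])
    simp only [h4, h5, rz, if_pos h]
  · have h4 : adm l (rfl1 Inv.inv k U) μ = adm l U μ := by simp only [adm, ms_rfl, if_neg h]
    simp only [h4, rz, if_neg h]

theorem wt_rfl (k : Fin 4) (l : ℕ) (U : Conf) (ω : Om) :
    wt l (rfl1 Inv.inv k U) ω = wt l U (orf k ω) := by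
  rw [wt_eq, wt_eq, wp_rfl]
  rfl

theorem avq_gauge (l : ℕ) (μ : Fin 4) (u : St → S3) (U : Conf) (p p' : St) :
    avq l μ (gauge Inv.inv u U) p p' =
      (u p).q * avq l μ U p p' * ((u (p' + up l (un μ)))⁻¹).q := by
  rw [avq, avq, mul_smul_comm, smul_mul_assoc, mul_sum, sum_mul]
  congr 1
  refine sum_congr rfl fun σ _ => ?_
  rw [mul_sum, sum_mul]
  refine sum_congr rfl fun t _ => ?_
  rw [← q_mul, ← q_mul, sh_gauge, cms_gauge, cms_gauge, lnP_gauge]
  congr 1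
  rw [show t + up l (un μ) = t + ((LL l : ℕ) : ℤ) • un μ from rfl]
  group

theorem av_gauge (l : ℕ) (μ : Fin 4) (u : St → S3) (U : Conf) (ω ω' : Om) :
    av l μ (gauge Inv.inv u U) ω ω' = u 0 * av l μ U ω ω' * (u (up l (un μ)))⁻¹ := by
  rw [av, av, avq_gauge]
  by_cases h : Off (avq l μ U ω.1 ω'.1)
  · rw [if_pos h, if_pos ((off_mul _ _).2 h), lnP_gauge, zero_add]
    rfl
  · rw [if_neg h, if_neg ((off_mul _ _).not.2 h), nr_mul h, sh_gauge,
      cms_gauge, cms_gauge, zero_add]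
    group

theorem uh_gauge (l : ℕ) (u : St → S3) (U : Conf) :
    uh l (gauge Inv.inv u U) = u 0 * uh l U * (u 0)⁻¹ := by
  have e : ∑ σ : Equiv.Perm (Fin 4), ∑ t ∈ box l, (cms Inv.inv σ (gauge Inv.inv u U) 0 t *
      (cmb Inv.inv (gauge Inv.inv u U) t)⁻¹).q = (u 0).q * (∑ σ : Equiv.Perm (Fin 4),
        ∑ t ∈ box l, (cms Inv.inv σ U 0 t * (cmb Inv.inv U t)⁻¹).q) * ((u 0)⁻¹).q := by
    simp only [mul_sum, sum_mul, ← q_mul, cms_gauge, Ms.cmb_gauge]
    congr! 3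
    group
  rw [uh, uh, e, ← smul_mul_assoc, ← mul_smul_comm, nr_conj]

theorem avq_pm (σ : Equiv.Perm (Fin 4)) (l : ℕ) (μ : Fin 4) (U : Conf) (p p' : St) :
    avq l μ (pm σ U) p p' = avq l (σ μ) U (pz σ p) (pz σ p') := by
  rw [avq, avq]
  refine congrArg (HSMul.hSMul _) (sum_equiv (Equiv.mulLeft σ) (by simp) fun τ _ => ?_)
  refine sum_nbij' (pz σ) (pz σ⁻¹) (fun x hx => (pz_box _ _).2 hx) (fun x hx => (pz_box _ _).2 hx)
    (fun x _ => pz_inv _ _) (fun x _ => inv_pz _ _) fun t _ => ?_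
  rw [sh_pm, cms_pm, cms_pm, lnP_pm, pz_up, pz_un, Equiv.coe_mulLeft]

theorem av_pm (σ : Equiv.Perm (Fin 4)) (l : ℕ) (μ : Fin 4) (U : Conf) (ω ω' : Om) :
    av l μ (pm σ U) ω ω' = av l (σ μ) U (opm σ ω) (opm σ ω') := by
  rw [av, av, avq_pm, sh_pm, cms_pm, cms_pm, lnP_pm, pz_up, pz_un]
  rfl

theorem av_rfl_ne {k μ : Fin 4} (h : μ ≠ k) (l : ℕ) (U : Conf) (ω ω' : Om) :
    av l μ (rfl1 Inv.inv k U) ω ω' = av l μ U (orf k ω) (orf k ω') := by
  have e : avq l μ (rfl1 Inv.inv k U) ω.1 ω'.1 = avq l μ U (rz k ω.1) (rz k ω'.1) := by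
    rw [avq, avq]
    congr 1
    refine sum_congr rfl fun σ _ => ?_
    refine sum_nbij' (rz k) (rz k) (fun x hx => (rz_box _ _).2 hx) (fun x hx => (rz_box _ _).2 hx)
      (fun x _ => rz_rz _ _) (fun x _ => rz_rz _ _) fun t _ => ?_
    rw [sh_rfl, cms_rfl, cms_rfl, lnP_eq, lnP_eq, ln_rfl_ne h, rz_up, rz_un_ne _ h]
  rw [av, av, e, sh_rfl, cms_rfl, cms_rfl, lnP_eq, lnP_eq, ln_rfl_ne h, rz_up, rz_un_ne _ h,
    rz_zero]
  rfl

theorem av_rfl_self (k : Fin 4) (l : ℕ) (U : Conf) (ω ω' : Om) :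
    av l k (rfl1 Inv.inv k U) ω ω' =
      (av l k (sh (-up l (un k)) U) (orf k ω') (orf k ω))⁻¹ := by
  have e0 : sh (up l (un k)) (sh (-up l (un k)) U) = U := by rw [sh_sh, add_neg_cancel, sh_zero]
  have e : avq l k (rfl1 Inv.inv k U) ω.1 ω'.1 =
      star (avq l k (sh (-up l (un k)) U) (rz k ω'.1) (rz k ω.1)) := by
    rw [avq, avq, Un.star_smul, star_sum]
    congr 1
    refine sum_congr rfl fun σ _ => ?_
    rw [star_sum]
    refine sum_nbij' (rz k) (rz k) (fun x hx => (rz_box _ _).2 hx) (fun x hx => (rz_box _ _).2 hx)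
      (fun x _ => rz_rz _ _) (fun x _ => rz_rz _ _) fun t _ => ?_
    rw [sh_rfl, cms_rfl, cms_rfl, lnP_rfl_self, rz_up, rz_un_self, up_neg, e0, ← q_inv]
    congr 1
    rw [mul_inv_rev, mul_inv_rev, inv_inv, mul_assoc]
    rfl
  rw [av, av, e, sh_rfl, cms_rfl, cms_rfl, lnP_rfl_self, rz_up, rz_un_self, up_neg, e0, rz_zero]
  by_cases h : Off (avq l k (sh (-up l (un k)) U) (rz k ω'.1) (rz k ω.1))
  · exact (if_pos (off_star.2 h)).trans (congrArg _ (if_pos h).symm)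
  · refine (if_neg (off_star.not.2 h)).trans (Eq.trans ?_ (congrArg _ (if_neg h).symm))
    rw [nr_star h, mul_inv_rev, mul_inv_rev, inv_inv, mul_assoc]
    rfl

theorem blk_sh (l : ℕ) (x : St) (U : Conf) (ω : St → Om) :
    blk l (sh (up l x) U) (fun y => ω (y + x)) = sh x (blk l U ω) := by
  funext b
  simp only [blk, sh_apply, sh_sh, up_add, add_right_comm]

theorem blk_pm (σ : Equiv.Perm (Fin 4)) (l : ℕ) (U : Conf) {ω ω' : St → Om}
    (h : ∀ y, opm σ (ω' y) = ω (pz σ y)) : blk l (pm σ U) ω' = pm σ (blk l U ω) := by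
  funext ⟨y, μ⟩
  simp only [blk, pm_apply, sh_pm, av_pm, h, pz_up, pz_add, pz_un]

theorem blk_rfl (k : Fin 4) (l : ℕ) (U : Conf) {ω ω' : St → Om}
    (h : ∀ y, orf k (ω' y) = ω (rz k y)) :
    blk l (rfl1 Inv.inv k U) ω' = rfl1 Inv.inv k (blk l U ω) := by
  funext ⟨y, μ⟩
  by_cases hμ : μ = k
  · subst hμ
    simp only [blk, rfl1_self, sh_rfl, av_rfl_self, h, rz_up, rz_add, rz_un_self, sh_sh,
      sub_eq_add_neg, add_comm (-up l _)]
    simp only [up_add, up_neg, neg_add_cancel_right]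
  · simp only [blk, rfl1_ne _ hμ, sh_rfl, av_rfl_ne hμ, h, rz_up, rz_add, rz_un_ne _ hμ]

end Mx

open Mx in
theorem blk_gauge (l : ℕ) (u : St → S3) (U : Conf) (ω : St → Om) :
    blk l (gauge Inv.inv u U) ω = gauge Inv.inv (fun y => u (up l y)) (blk l U ω) ∧
    blkN l (gauge Inv.inv u U) ω = gauge Inv.inv (fun y => u (up l y)) (blkN l U ω) ∧
    ∀ o, wt l (gauge Inv.inv u U) o = wt l U o := by
  have h : blk l (gauge Inv.inv u U) ω = gauge Inv.inv (fun y => u (up l y)) (blk l U ω) := by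
    funext b
    rw [blk, sh_gauge, Mx.av_gauge, gauge, zero_add, blk, up_add, add_comm (up l b.1)]
  refine ⟨h, ?_, wt_gauge l u U⟩
  funext b
  simp only [blkN, h, sh_gauge, uh_gauge, gauge, zero_add]
  group

end Pool.Agent.Lib.MP_7f377f_mp.RG.Q4
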