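import Pool.Agent.Lib.MP_7f377f_mp.G.Q4RobA

/-! The curvature of the block field is bounded by the total curvature divided by the side. -/

noncomputable section

set_option linter.unusedSectionVars false
variable [Pool.Agent.Lib.MP_7f377f_mp.GD]

namespace Pool.Agent.Lib.MP_7f377f_mp.RG.Q4

open Finset

namespace Rb

def tot (U : Conf) (S : Finset St) : ℝ := ∑ x ∈ S, ∑ κ, ∑ κ', fq U x κ κ'

theorem tot_nonneg (U : Conf) (S : Finset St) : 0 ≤ tot U S :=
  sum_nonneg fun _ _ => sum_nonneg fun _ _ => sum_nonneg fun _ _ => fq_nonneg _ _ _ _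

theorem sum_hm_le (U : Conf) (S : Finset St) (κ : Fin 4) (I : Finset ℤ) (d : ℤ) :
    ∑ c ∈ I, hm U S κ (c + d) ≤ tot U S := by
  unfold hm tot
  rw [sum_comm]
  refine sum_le_sum fun z _ => ?_
  rw [sum_comm]
  refine sum_le_sum fun μ _ => ?_
  rw [sum_comm]
  refine sum_le_sum fun ν _ => ?_
  refine (sum_le_sum (g := fun c => if c = z κ - d then fq U z μ ν else 0) fun c _ => ?_).trans ?_
  · split_ifs with h1 h2
    exacts [le_rfl, absurd (by rw [h1.1]; ring) h2, fq_nonneg _ _ _ _, le_rfl]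
  · rw [sum_ite_eq']
    split_ifs
    exacts [le_rfl, fq_nonneg _ _ _ _]

theorem hm_le (U : Conf) (S : Finset St) (κ : Fin 4) (c : ℤ) : hm U S κ c ≤ tot U S := by
  simpa using sum_hm_le U S κ {c} 0

theorem fq_sh (U : Conf) (v x : St) (μ ν : Fin 4) : fq (sh v U) x μ ν = fq U (x + v) μ ν := by
  simp only [fq, hol, sh_apply, add_right_comm x v]

theorem sum_le_sh {f : St → ℝ} {g : St → ℝ} {S T : Finset St} (v : St) (h0 : ∀ z, 0 ≤ g z)
    (h : ∀ z ∈ S, z + v ∈ T ∧ f z ≤ g (z + v)) : ∑ z ∈ S, f z ≤ ∑ z ∈ T, g z := by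
  refine (sum_le_sum fun z hz => (h z hz).2).trans ?_
  rw [← sum_image (g := fun z => z + v) fun _ _ _ _ e => add_right_cancel e]
  refine sum_le_sum_of_subset_of_nonneg (fun z hz => ?_) fun z _ _ => h0 z
  obtain ⟨w, hw, rfl⟩ := mem_image.1 hz
  exact (h w hw).1

theorem tot_sh {U : Conf} {S T : Finset St} {v : St} (h : ∀ z ∈ S, z + v ∈ T) :
    tot (sh v U) S ≤ tot U T :=
  sum_le_sh v (fun _ => sum_nonneg fun _ _ => sum_nonneg fun _ _ => fq_nonneg _ _ _ _)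
    fun z hz => ⟨h z hz, by simp only [fq_sh, le_refl]⟩

theorem hm_sh {U : Conf} {S T : Finset St} {v : St} (h : ∀ z ∈ T, z + -v ∈ S) (κ : Fin 4) (c : ℤ) :
    hm U T κ (c + v κ) ≤ hm (sh v U) S κ c := by
  refine sum_le_sh (-v) (fun _ => sum_nonneg fun _ _ => sum_nonneg fun _ _ => ?_) fun z hz =>
    ⟨h z hz, sum_le_sum fun μ _ => sum_le_sum fun ν _ => ?_⟩
  · split_ifs
    exacts [fq_nonneg _ _ _ _, le_rfl]
  · split_ifs with h1 h2
    · rw [fq_sh, neg_add_cancel_right]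
    · refine absurd ⟨by simp [h1.1], h1.2.1, h1.2.2.1, ?_⟩ h2
      rw [add_right_comm z, add_right_comm _ (-v)]
      exact h _ h1.2.2.2
    exacts [fq_nonneg _ _ _ _, le_rfl]

/-- the cube with coordinates between `a` and `b` -/
def cb (a b : ℤ) : Finset St := Fintype.piFinset fun _ => Icc a b

theorem mem_cb {a b : ℤ} {x : St} : x ∈ cb a b ↔ ∀ i, a ≤ x i ∧ x i ≤ b := by simp [cb]

theorem rect_mem {lo hi : ℤ} {A : Fin 4 → Set ℤ} (hA : ∀ κ, ∀ c ∈ A κ, lo ≤ c ∧ c ≤ hi) {x : St}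
    {μ ν : Fin 4} {a b : ℕ} (hx : Al A x) (hne : μ ≠ ν) (ha : x μ + a ∈ A μ) (hb : x ν + b ∈ A ν)
    {i j : ℤ} (hi0 : 0 ≤ i) (hi1 : i ≤ a) (hj0 : 0 ≤ j) (hj1 : j ≤ b) :
    x + i • un μ + j • un ν ∈ cb lo hi := mem_cb.2 fun k => by
  have := hA k _ (hx k)
  have := hA μ _ ha
  have := hA ν _ hb
  simp only [Pi.add_apply, Pi.smul_apply, un_apply, smul_eq_mul]
  split_ifs with h1 h2 h2
  · exact absurd (h1.symm.trans h2) hne
  · subst h1; omega
  · subst h2; omega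
  · omega

theorem rect_mem' {lo hi : ℤ} {A : Fin 4 → Set ℤ} (hA : ∀ κ, ∀ c ∈ A κ, lo ≤ c ∧ c ≤ hi) {x : St}
    {μ ν : Fin 4} {a b : ℕ} (hx : Al A x) (hne : μ ≠ ν) (ha : x μ + a ∈ A μ) (hb : x ν + b ∈ A ν)
    {i j : ℕ} (hi1 : i < a) (hj1 : j < b) :
    x + (i : ℤ) • un μ + (j : ℤ) • un ν ∈ cb lo hi ∧
      x + (i : ℤ) • un μ + (j : ℤ) • un ν + un μ + un ν ∈ cb lo hi := by
  refine ⟨rect_mem hA hx hne ha hb (by omega) (by omega) (by omega) (by omega), ?_⟩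
  have := rect_mem hA hx hne ha hb (i := i + 1) (j := j + 1) (by omega) (by omega) (by omega)
    (by omega)
  rwa [add_smul, add_smul, one_smul, one_smul, ← add_assoc, ← add_assoc,
    add_right_comm _ (un μ)] at this

theorem sw_hm {U : Conf} {lo hi : ℤ} {A : Fin 4 → Set ℤ} {η : ℝ}
    (hA : ∀ κ, ∀ c ∈ A κ, lo ≤ c ∧ c ≤ hi) (h : ∀ κ, ∀ c ∈ A κ, hm U (cb lo hi) κ c ≤ η) :
    Sw U A η := by
  refine sw_of fun x μ ν a b hx hne ha hb => ?_
  obtain ⟨κ, h1, h2⟩ := (by decide : ∀ μ ν : Fin 4, ∃ κ, μ ≠ κ ∧ ν ≠ κ) μ ν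
  refine le_trans ?_ (h κ _ (hx κ))
  have inj : Set.InjOn (fun q : ℕ × ℕ => x + (q.1 : ℤ) • un μ + (q.2 : ℤ) • un ν)
      (range a ×ˢ range b : Finset _) := fun q _ q' _ e => by
    have e1 := congrFun e μ
    have e2 := congrFun e ν
    simp only [Pi.add_apply, Pi.smul_apply, un_self, un_ne hne, un_ne hne.symm, smul_eq_mul] at e1 e2
    exact Prod.ext (by omega) (by omega)
  rw [← sum_product', ← sum_image (f := fun z => fq U z μ ν) inj]
  obtain ⟨F, hF⟩ : ∃ F : St → Fin 4 → Fin 4 → ℝ, F = fun z μ' ν' => if z κ = x κ ∧ μ' ≠ κ ∧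
    ν' ≠ κ ∧ z + un μ' + un ν' ∈ cb lo hi then fq U z μ' ν' else 0 := ⟨_, rfl⟩
  have nn : ∀ z μ' ν', 0 ≤ F z μ' ν' := fun z μ' ν' => by
    simp only [hF]
    split_ifs
    exacts [fq_nonneg _ _ _ _, le_rfl]
  rw [show hm U (cb lo hi) κ (x κ) = ∑ z ∈ cb lo hi, ∑ μ', ∑ ν', F z μ' ν' by rw [hF, hm]]
  refine (sum_le_sum fun z hz => ?_).trans (sum_le_sum_of_subset_of_nonneg (fun z hz => ?_)
    fun z _ _ => sum_nonneg fun _ _ => sum_nonneg fun _ _ => nn _ _ _) <;>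
    obtain ⟨q, hq, e⟩ := mem_image.1 hz <;>
    have := rect_mem' hA hx hne ha hb (mem_range.1 (mem_product.1 hq).1)
      (mem_range.1 (mem_product.1 hq).2) <;> rw [e] at this
  · refine le_trans (le_trans (le_of_eq ?_)
      (single_le_sum (f := F z μ) (fun _ _ => nn _ _ _) (mem_univ ν)))
      (single_le_sum (f := fun μ' => ∑ ν', F z μ' ν')
        (fun _ _ => sum_nonneg fun _ _ => nn _ _ _) (mem_univ μ))
    rw [hF]
    exact (if_pos ⟨by simp [← e, un_ne h1.symm, un_ne h2.symm], h1, h2, this.2⟩).symm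
  · exact this.1

theorem sw_fl {U : Conf} {l : ℕ} {ε : ℝ} (h : Fl l ε U) (h0 : 0 ≤ ε) :
    Sw U (fun _ => Set.Icc (-(l : ℤ)) l) ((LL l : ℝ) ^ 2 * ε) := by
  refine sw_of fun x μ ν a b hx hne ha hb => ?_
  refine (sum_le_sum fun i hi => sum_le_sum fun j hj => ?_).trans
    (?_ : ∑ _i ∈ range a, ∑ _j ∈ range b, ε ≤ _)
  · have := rect_mem' (fun _ _ h => h) hx hne ha hb (mem_range.1 hi) (mem_range.1 hj)
    exact h _ _ _ this.1 this.2
  · have h1 : (a : ℝ) ≤ LL l := by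
      have := (hx μ).1
      have := ha.2
      exact_mod_cast (by unfold LL; omega : a ≤ LL l)
    have h2 : (b : ℝ) ≤ LL l := by
      have := (hx ν).1
      have := hb.2
      exact_mod_cast (by unfold LL; omega : b ≤ LL l)
    simp only [sum_const, card_range, nsmul_eq_mul]
    rw [← mul_assoc, sq]
    gcongr

section avs
variable {l : ℕ}

theorem LR (l : ℕ) : (0 : ℝ) < LL l := by exact_mod_cast LL_pos l

theorem avs_const {E : Type} [AddCommGroup E] [Module ℝ E] (e : E) : avs l (fun _ _ => e) = e := by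
  have := LR l
  simp only [avs, sum_const, card_box, card_univ, Fintype.card_perm, Fintype.card_fin,
    ← Nat.cast_smul_eq_nsmul ℝ, smul_smul]
  rw [show (24 * (LL l : ℝ) ^ 4)⁻¹ * ((Nat.factorial 4 : ℕ) * (((2 * l + 1) ^ 4 : ℕ) : ℝ)) = 1 by
    rw [show 2 * l + 1 = LL l from rfl]; push_cast [Nat.factorial]; field_simp, one_smul]

theorem avs_add {E : Type} [AddCommGroup E] [Module ℝ E] (f g : Pm → St → E) :
    avs l (fun s t => f s t + g s t) = avs l f + avs l g := by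
  simp only [avs, sum_add_distrib, smul_add]

theorem avs_sub {E : Type} [AddCommGroup E] [Module ℝ E] (f g : Pm → St → E) :
    avs l (fun s t => f s t - g s t) = avs l f - avs l g := by
  simp only [avs, sum_sub_distrib, smul_sub]

theorem avs_mul (f : Pm → St → Hr) (a b : Hr) : avs l (fun s t => a * f s t * b) = a * avs l f * b := by
  simp only [avs, mul_smul_comm, smul_mul_assoc, mul_sum, sum_mul]

theorem avs_star (f : Pm → St → Hr) : avs l (fun s t => star (f s t)) = star (avs l f) := by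
  simp only [avs, Un.star_smul, star_sum]

theorem norm_avs {f : Pm → St → Hr} {b : Pm → St → ℝ} (h : ∀ s, ∀ t ∈ box l, ‖f s t‖ ≤ b s t) :
    ‖avs l f‖ ≤ avs l b := by
  have := LR l
  rw [avs, avs, norm_smul, smul_eq_mul, Real.norm_of_nonneg (by positivity)]
  gcongr
  exact norm_sum_le_of_le _ fun s _ => norm_sum_le_of_le _ (h s)

theorem avs_coord (f : ℤ → ℝ) (κ : Fin 4) :
    avs l (fun _ t => f (t κ)) = (∑ c ∈ Icc (-(l : ℤ)) l, f c) / LL l := by
  have := LR l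
  have e : (Icc (-(l : ℤ)) l).card = LL l := by rw [Int.card_Icc, LL]; omega
  simp only [avs, box, Fintype.sum_piFinset_apply, sum_const, card_univ, Fintype.card_perm,
    Fintype.card_fin, e, nsmul_eq_mul, smul_eq_mul]
  push_cast [Nat.factorial]
  field_simp

theorem avs_sum (f : Fin 4 → Pm → St → ℝ) :
    avs l (fun s t => ∑ κ, f κ s t) = ∑ κ, avs l (f κ) := by
  simp only [Fin.sum_univ_four, avs_add]

theorem avs_smul (c : ℝ) (f : Pm → St → ℝ) : avs l (fun s t => c * f s t) = c * avs l f := by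
  simp only [avs, ← mul_sum, smul_eq_mul]
  ring

theorem avs_re (g : Pm → St → S3) : (avs l fun s t => (g s t).q).re = 1 := by
  have e : (avs l fun s t => (g s t).q).re = avs l fun s t => (g s t).q.re := by
    simp only [avs, Un.re_smul, Un.re_sum]
  rw [e]
  exact avs_const 1

theorem avs_near {g : Pm → St → S3} {g0 : S3} {γ : ℝ} (h : ∀ s, ∀ t ∈ box l, Nr γ (g s t) g0)
    (h1 : γ ≤ 2⁻¹) : ‖(avs l fun s t => (g s t).q) - (nr (avs l fun s t => (g s t).q) 1).q‖ ≤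
      γ ^ 2 := by
  have := LR l
  have e := avs_const (l := l) (1 : ℝ)
  obtain ⟨b, hb⟩ := avg_near (univ ×ˢ box l) (fun _ => (24 * (LL l : ℝ) ^ 4)⁻¹)
    (fun _ _ => by positivity) (by rwa [avs, ← sum_product', smul_sum, smul_eq_mul, mul_one] at e)
    (fun p => g p.1 p.2) g0 (fun p hp => h p.1 p.2 (mem_product.1 hp).2) (by linarith)
  rw [← smul_sum, sum_product' (f := fun s t => (g s t).q)] at hb
  have γ0 : 0 ≤ γ := (norm_nonneg _).trans (h 1 0 (zero_mem_box l))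
  exact (nr_le (not_off (avs_re g) (hb.trans_lt (by nlinarith))) 1 b).trans hb

end avs

theorem nr_near {V a a' : Hr} {X G : S3} {ε δ : ℝ} (h : ‖V - a * X.q * star a'‖ ≤ ε) (r : V.re = 1)
    (ra : a.re = 1) (ra' : a'.re = 1) (ha : ‖a - (nr a 1).q‖ ≤ δ) (ha' : ‖a' - (nr a' 1).q‖ ≤ δ)
    (h1 : δ ≤ 1) (h2 : δ ≤ ε) (hG : ¬Off V → G = nr V 1) :
    Nr (8 * cG * ε) G (nr a 1 * X * (nr a' 1)⁻¹) := by
  generalize nr a 1 = A at *
  generalize nr a' 1 = A' at *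
  have δ0 := (norm_nonneg _).trans ha
  have c1 := GD.cG1
  have z : ∀ {a : Hr} (A : S3), a.re = 1 → (a - A.q).re = 0 := fun A h => by
    rw [Un.re_sub, h, q_re, sub_self]
  have k1 : ‖(a - A.q) * (X * A'⁻¹).q‖ ≤ δ := by rwa [norm_mul_q _ (z A ra)]
  have k2 : ‖(A * X).q * star (a' - A'.q)‖ ≤ δ := by
    rwa [norm_q_mul (p := star _) _ (z A' ra'), norm_star]
  have k3 : ‖(a - A.q) * X.q * star (a' - A'.q)‖ ≤ δ * 1 := (norm_mul_le _ _).trans (mul_le_mul
    (by rwa [norm_mul_q _ (z A ra)]) (by rw [norm_star]; linarith) (norm_nonneg _) δ0)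
  have k4 : ‖V - (A * X * A'⁻¹).q‖ ≤ 4 * ε := by
    refine le_trans (le_of_eq (congrArg _ ?_)) ((norm_add_le_of_le h (norm_add_le_of_le
      (norm_add_le_of_le k1 k2) k3)).trans (by linarith))
    simp only [S3.q_mul, S3.q_inv, star_sub]
    noncomm_ring
  rcases lt_or_ge (4 * ε) 1 with h3 | h3
  · have o := not_off r (k4.trans_lt h3)
    have k5 := (nr_le o 1 _).trans k4
    rw [norm_sub_rev] at k5
    rw [Nr, hG o]
    refine (norm_sub_le_norm_sub_add_norm_sub _ V _).trans ?_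
    nlinarith
  · exact (Nr.two _ _).mono (by nlinarith)

/-- the region containing the blocks around a coarse plaquette -/
def TB (l : ℕ) : Finset St := cb (-(l : ℤ)) (3 * l + 1)

def gg (U : Conf) (c p pt : St) (s : Pm) (t : St) : S3 :=
  cms Inv.inv s (sh c U) p t * (cms Inv.inv s (sh c U) pt t)⁻¹

/-- `pt` is a robust substitute of the base point `p` of the block with centre `c` -/
structure Cor (l : ℕ) (U : Conf) (M γ : ℝ) (c p pt : St) : Prop where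
  pos : ∀ κ, c κ = 0 ∨ c κ = LL l
  mem : pt ∈ box l
  rob : ∀ κ, LL l * hm U (TB l) κ (pt κ + c κ) ≤ M
  near : ∃ g0, ∀ s, ∀ t ∈ box l, Nr γ (gg U c p pt s t) g0

theorem adm_nonempty (l : ℕ) (U : Conf) (κ : Fin 4) : (adm l U κ).Nonempty := by
  have e : (Icc (-(l : ℤ)) l).card = LL l := by rw [Int.card_Icc, LL]; omega
  obtain ⟨c, hc, h⟩ := exists_le_of_sum_le (s := Icc (-(l : ℤ)) l) ⟨0, by simp⟩
    (f := fun c => LL l * ms l U κ c) (g := fun _ => ∑ c' ∈ Icc (-(l : ℤ)) l, ms l U κ c')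
    (by rw [sum_const, e, nsmul_eq_mul, mul_sum])
  exact ⟨c, mem_filter.2 ⟨hc, h⟩⟩

theorem cor_of {l : ℕ} {U : Conf} {c : St} {ω : Om} (hc : ∀ κ, c κ = 0 ∨ c κ = LL l)
    (hw : wt l (sh c U) ω ≠ 0) : ∃ pt, Cor l U (tot U (box (5 * l + 2)))
      (32 * min ((LL l : ℝ) ^ 2)⁻¹ (tot U (box (5 * l + 2)))) c ω.1 pt := by
  have hL := LR l
  have hM := tot_nonneg U (box (5 * l + 2))
  have t1 : ∀ R ≤ 3 * l + 1, tot (sh c U) (box R) ≤ tot U (box (5 * l + 2)) := fun R hR =>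
    tot_sh fun z hz => mem_box.2 fun i => by
      have := mem_box.1 hz i
      have := hc i
      simp only [Pi.add_apply, LL_cast] at *
      omega
  have key : ∀ pt : St, (∀ κ, pt κ ∈ adm l (sh c U) κ) → pt ∈ box l ∧
      ∀ κ, LL l * hm U (TB l) κ (pt κ + c κ) ≤ tot U (box (5 * l + 2)) := fun pt h => by
    refine ⟨mem_box.2 fun κ => mem_Icc.1 (mem_filter.1 (h κ)).1, fun κ => ?_⟩
    have h1 := hm_sh (U := U) (S := box (3 * l + 1)) (T := TB l) (v := c) (fun z hz =>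
      mem_box.2 fun i => by
        have := mem_cb.1 hz i
        have := hc i
        simp only [Pi.add_apply, Pi.neg_apply, LL_cast] at *
        omega) κ (pt κ)
    have h2 := sum_hm_le (sh c U) (box (3 * l + 1)) κ (Icc (-(l : ℤ)) l) 0
    simp only [add_zero] at h2
    exact (mul_le_mul_of_nonneg_left h1 hL.le).trans ((mem_filter.1 (h κ)).2.trans
      (h2.trans (t1 _ le_rfl)))
  rw [wt] at hw
  split_ifs at hw with h1 h2
  · choose pt hpt using adm_nonempty l (sh c U)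
    have s1 := sw_fl h1 (by positivity)
    rw [show (LL l : ℝ) ^ 2 * ((LL l : ℝ) ^ 4)⁻¹ = ((LL l : ℝ) ^ 2)⁻¹ by field_simp] at s1
    have s2 : Sw (sh c U) (fun _ => Set.Icc (-(l : ℤ)) l) (tot U (box (5 * l + 2))) :=
      sw_hm (fun _ _ h => h) fun κ d _ => (hm_le _ _ _ _).trans (t1 l (by omega))
    have s3 : Sw (sh c U) (fun _ => Set.Icc (-(l : ℤ)) l)
        (min ((LL l : ℝ) ^ 2)⁻¹ (tot U (box (5 * l + 2)))) := fun x μ ν d d' a1 a2 a3 a4 =>
      le_min (s1 x μ ν d d' a1 a2 a3 a4) (s2 x μ ν d d' a1 a2 a3 a4)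
    have al : ∀ t ∈ box l, Al (fun _ => Set.Icc (-(l : ℤ)) l) t := fun t ht => mem_box.1 ht
    have z0 := al 0 (zero_mem_box l)
    refine ⟨pt, hc, (key pt hpt).1, (key pt hpt).2,
      (hb (sh c U) 0 0 4)⁻¹ * hb (sh c U) 0 pt 4, fun s t ht => ?_⟩
    have a1 := hc_cms s3 (by positivity) z0 z0 (al t ht) s
    have a2 := hc_cms s3 (by positivity) z0 (al pt (key pt hpt).1) (al t ht) s
    refine (((((a1.mul a2.inv).left (hb (sh c U) 0 0 4)⁻¹).right (hb (sh c U) 0 pt 4)).congr ?_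
      (by group))).mono (le_of_eq (by ring))
    rw [gg, h2]
    group
  · exact absurd rfl hw
  · have h3 : ∀ κ, ω.1 κ ∈ adm l (sh c U) κ := fun κ => by
      by_contra h
      exact hw (prod_eq_zero (mem_univ κ) (if_neg h))
    exact ⟨ω.1, hc, (key _ h3).1, (key _ h3).2, 1, fun s t _ =>
      Nr.rfl' (by positivity) (mul_inv_cancel _)⟩

/-- the gauge transformation which makes the coarse links close to the identity -/
def KK (l : ℕ) (U : Conf) (x c : St) (ω : Om) (pt : St) : S3 :=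
  hb U x (pt + c) 4 * (nr (avs l fun s t => (gg U c ω.1 pt s t).q) 1)⁻¹ *
    cms Inv.inv ω.2 (sh c U) ω.1 0

theorem link {l : ℕ} {U : Conf} {M γ : ℝ} {c pt pt' x : St} {ω ω' : Om} {μ : Fin 4}
    (hM : tot U (TB l) ≤ M) (hγ : γ ≤ 2⁻¹) (h : Cor l U M γ c ω.1 pt)
    (h' : Cor l U M γ (up l (un μ) + c) ω'.1 pt')
    (hx : ∀ κ, (-(l : ℤ) ≤ x κ ∧ x κ ≤ 3 * l + 1) ∧ LL l * hm U (TB l) κ (x κ) ≤ M) :
    Nr (8 * cG * (324 * (M / LL l) + 4 * γ ^ 2)) (av l μ (sh c U) ω ω')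
      ((KK l U x c ω pt)⁻¹ * KK l U x (up l (un μ) + c) ω' pt') := by
  have hL := LR l
  have M0 : 0 ≤ M / LL l := div_nonneg ((tot_nonneg _ _).trans hM) hL.le
  obtain ⟨g0, hg⟩ := h.near
  obtain ⟨g0', hg'⟩ := h'.near
  generalize hc' : up l (un μ) + c = c' at *
  have near : ∀ {g : Pm → St → S3} {g0 : S3}, (∀ s, ∀ t ∈ box l, Nr γ (g s t) g0) →
      ‖(avs l fun s t => (g s t).q) - (nr (avs l fun s t => (g s t).q) 1).q‖ ≤ γ ^ 2 ∧
        ∀ s, ∀ t ∈ box l, ‖(g s t).q - avs l fun s t => (g s t).q‖ ≤ 2 * γ := fun {g g0} hg => by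
    have k := norm_avs (f := fun s t => (g s t).q - g0.q) (b := fun _ _ => γ) hg
    rw [avs_sub, avs_const, avs_const] at k
    refine ⟨avs_near hg hγ, fun s t ht => (norm_sub_le_norm_sub_add_norm_sub _ g0.q _).trans ?_⟩
    rw [norm_sub_rev g0.q]
    linarith [show _ ≤ γ from hg s t ht]
  have γ0 : 0 ≤ γ := (norm_nonneg _).trans (hg 1 0 (zero_mem_box l))
  have ra := avs_re (l := l) (gg U c ω.1 pt)
  have ra' := avs_re (l := l) (gg U c' ω'.1 pt')
  obtain ⟨n1, n2⟩ := near hg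
  obtain ⟨n1', n2'⟩ := near hg'
  obtain ⟨η, hη⟩ : ∃ η : St → ℝ, η = fun t => M / LL l +
    ∑ κ, (hm U (TB l) κ (t κ + c κ) + hm U (TB l) κ (t κ + c' κ)) := ⟨_, rfl⟩
  obtain ⟨X, hX⟩ : ∃ X, X = (hb U x (pt + c) 4)⁻¹ * hb U x (pt' + c') 4 := ⟨_, rfl⟩
  obtain ⟨Y, hY⟩ : ∃ Y : Pm → St → S3, Y = fun s t => cms Inv.inv s (sh c U) pt t *
    lnP (sh c U) t μ (LL l) * (cms Inv.inv s (sh c' U) pt' t)⁻¹ := ⟨_, rfl⟩
  have k1 : ∀ s, ∀ t ∈ box l, Nr (36 * η t) (Y s t) X := fun s t ht => by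
    have nn : ∀ κ, 0 ≤ hm U (TB l) κ (t κ + c κ) + hm U (TB l) κ (t κ + c' κ) := fun κ =>
      add_nonneg (hm_nonneg _ _ _ _) (hm_nonneg _ _ _ _)
    have η0 : 0 ≤ η t := by
      rw [hη]
      exact add_nonneg M0 (sum_nonneg fun κ _ => nn κ)
    have sw : Sw U (fun κ => {d | (-(l : ℤ) ≤ d ∧ d ≤ 3 * l + 1) ∧ hm U (TB l) κ d ≤ η t}) (η t) :=
      sw_hm (fun _ _ h => h.1) fun _ _ h => h.2
    have r1 : ∀ {κ d}, LL l * hm U (TB l) κ d ≤ M → hm U (TB l) κ d ≤ η t := fun {κ d} h => by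
      rw [hη]
      exact ((le_div_iff₀' hL).2 h).trans (le_add_of_nonneg_right (sum_nonneg fun κ _ => nn κ))
    have r2 : ∀ κ, hm U (TB l) κ (t κ + c κ) + hm U (TB l) κ (t κ + c' κ) ≤ η t := fun κ => by
      rw [hη]
      exact (single_le_sum (fun κ _ => nn κ) (mem_univ κ)).trans (le_add_of_nonneg_left M0)
    have r3 : ∀ {z d : St}, z ∈ box l → (∀ κ, d κ = 0 ∨ d κ = LL l) → ∀ κ,
        -(l : ℤ) ≤ (z + d) κ ∧ (z + d) κ ≤ 3 * l + 1 := fun {z d} hz hd κ => by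
      have := mem_box.1 hz κ
      have := hd κ
      simp only [Pi.add_apply, LL_cast] at *
      omega
    have ax : Al (fun κ => {d | (-(l : ℤ) ≤ d ∧ d ≤ 3 * l + 1) ∧ hm U (TB l) κ d ≤ η t}) x :=
      fun κ => ⟨(hx κ).1, r1 (hx κ).2⟩
    have b1 := hc_cms sw η0 ax (p := pt + c) (t := t + c) (fun κ => ⟨r3 h.mem h.pos κ, r1 (h.rob κ)⟩)
      (fun κ => ⟨r3 ht h.pos κ, (le_add_of_nonneg_right (hm_nonneg _ _ _ _)).trans (r2 κ)⟩) s
    have at' : Al (fun κ => {d | (-(l : ℤ) ≤ d ∧ d ≤ 3 * l + 1) ∧ hm U (TB l) κ d ≤ η t})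
        (t + c') := fun κ =>
      ⟨r3 ht h'.pos κ, (le_add_of_nonneg_left (hm_nonneg _ _ _ _)).trans (r2 κ)⟩
    have b2 := hc_cms sw η0 ax (p := pt' + c') (fun κ => ⟨r3 h'.mem h'.pos κ, r1 (h'.rob κ)⟩) at' s
    have b3 := hc_mv sw η0 ax (y := t + c) (fun κ =>
      ⟨r3 ht h.pos κ, (le_add_of_nonneg_right (hm_nonneg _ _ _ _)).trans (r2 κ)⟩) (at' μ)
    have e1 : (t + c') μ - (t + c) μ = (LL l : ℕ) := by simp [← hc', up_apply]
    have e2 : t + c + ((LL l : ℕ) : ℤ) • un μ = t + c' := by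
      rw [← hc', up]
      abel
    rw [upd_eq, mv, e1, e2, ← ln_sh, ln_nat] at b3
    rw [← cms_sh] at b1 b2
    refine ((((((b1.right _).trans b3).mul b2.inv).left (hb U x (pt + c) 4)⁻¹).right
      (hb U x (pt' + c') 4)).congr ?_ ?_).mono (le_of_eq (by ring))
    · rw [hY]
      group
    · rw [hX]
      group
  have k2 : avs l (fun _ t => 36 * η t + 4 * γ ^ 2) ≤ 324 * (M / LL l) + 4 * γ ^ 2 := by
    have : ∀ κ d, avs l (fun _ t => hm U (TB l) κ (t κ + d)) ≤ M / LL l := fun κ d => by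
      rw [avs_coord (fun e => hm U (TB l) κ (e + d))]
      gcongr
      exact (sum_hm_le _ _ _ _ _).trans hM
    rw [avs_add, avs_const, avs_smul, hη, avs_add, avs_const, avs_sum]
    simp only [avs_add, Fin.sum_univ_four]
    linarith [this 0 (c 0), this 0 (c' 0), this 1 (c 1), this 1 (c' 1), this 2 (c 2), this 2 (c' 2),
      this 3 (c 3), this 3 (c' 3)]
  have e0 : avq l μ (sh c U) ω.1 ω'.1 =
      avs l fun s t => (gg U c ω.1 pt s t).q * (Y s t).q * star (gg U c' ω'.1 pt' s t).q := by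
    simp only [avq, avs, sh_sh, hc', hY, ← S3.q_inv, ← S3.q_mul, gg]
    congr! 4
    group
  generalize ha : (avs l fun s t => (gg U c ω.1 pt s t).q) = a at n1 n2 ra
  generalize ha' : (avs l fun s t => (gg U c' ω'.1 pt' s t).q) = a' at n1' n2' ra'
  have k3 : ‖avq l μ (sh c U) ω.1 ω'.1 - a * X.q * star a'‖ ≤ 324 * (M / LL l) + 4 * γ ^ 2 := by
    refine le_trans (le_of_eq (congrArg _ ?_)) ((norm_avs (f := fun s t =>
      (gg U c ω.1 pt s t).q * ((Y s t).q - X.q) * star (gg U c' ω'.1 pt' s t).q +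
      ((gg U c ω.1 pt s t).q - a) * X.q * star ((gg U c' ω'.1 pt' s t).q - a'))
        fun s t ht => ?_).trans k2)
    · have e3 := avs_mul (l := l) (fun s t => (gg U c ω.1 pt s t).q) 1 (X.q * star a')
      have e4 := avs_mul (l := l) (fun s t => star (gg U c' ω'.1 pt' s t).q) (a * X.q) 1
      rw [avs_star, ha'] at e4
      rw [ha] at e3
      have e5 := avs_const (l := l) (a * X.q * star a')
      rw [e0, show ∀ V : Hr, V - a * X.q * star a' =
        V - 1 * a * (X.q * star a') - a * X.q * star a' * 1 + a * X.q * star a' from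
        fun V => by noncomm_ring, ← e3, ← e4, ← avs_sub, ← avs_sub]
      nth_rw 1 [← e5]
      rw [← avs_add]
      congr! 3
      rw [star_sub]
      noncomm_ring
    · refine (norm_add_le _ _).trans (add_le_add ?_ ?_)
      · rw [← S3.q_inv, mul_sub, sub_mul, ← S3.q_mul, ← S3.q_mul, ← S3.q_mul, ← S3.q_mul]
        exact ((k1 s t ht).left _).right _
      · refine (norm_mul_le _ _).trans ?_
        rw [norm_mul_q _ (by rw [Un.re_sub, ra, q_re, sub_self]), norm_star]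
        exact (mul_le_mul (n2 s t ht) (n2' s t ht) (norm_nonneg _)
          ((norm_nonneg _).trans (n2 s t ht))).trans_eq (by ring)
  have k4 := nr_near (G := cms Inv.inv ω.2 (sh c U) ω.1 0 * av l μ (sh c U) ω ω' *
    (cms Inv.inv ω'.2 (sh c' U) ω'.1 0)⁻¹) k3 (avs_re _) ra ra' n1 n1' (by nlinarith)
    (by nlinarith) fun hV => by
      rw [av, if_neg hV, sh_sh, hc']
      group
  refine ((k4.left (cms Inv.inv ω.2 (sh c U) ω.1 0)⁻¹).right
    (cms Inv.inv ω'.2 (sh c' U) ω'.1 0)).congr (by group) ?_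
  rw [KK, KK, ha, ha', hX]
  group

end Rb

open Rb

theorem robust_corners {l : ℕ} (hl : 4 ≤ l) (U : Conf) (ω : St → Om) (μ ν : Fin 4)
    (h : ∀ y : St, (∀ κ, y κ = 0 ∨ y κ = 1) → wt l (sh (up l y) U) (ω y) ≠ 0) :
    fq (blk l U ω) 0 μ ν ≤ 30000 * cG / LL l * ∑ x ∈ box (5 * l + 2), ∑ κ, ∑ κ', fq U x κ κ' := by
  have hL : (9 : ℝ) ≤ LL l := by exact_mod_cast (by unfold LL; omega : 9 ≤ LL l)
  have M0 := tot_nonneg U (box (5 * l + 2))
  have cG1 := GD.cG1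
  change _ ≤ _ * tot U (box (5 * l + 2))
  by_cases hne : μ = ν
  · subst hne
    refine le_trans (le_of_eq ?_) (by positivity : (0 : ℝ) ≤ _)
    simp [fq, hol, S3.q_one]
  have hM : tot U (TB l) ≤ tot U (box (5 * l + 2)) := by
    simpa using tot_sh (U := U) (v := 0) (S := TB l) (T := box (5 * l + 2)) fun z hz =>
      mem_box.2 fun i => by
        have := mem_cb.1 hz i
        simp only [add_zero]
        omega
  have cor : ∀ y : St, (∀ κ, y κ = 0 ∨ y κ = 1) → ∃ pt, Cor l U _ _ (up l y) (ω y).1 pt :=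
    fun y hy => cor_of (fun κ => by simpa [up_apply, (LL_pos l).ne'] using hy κ) (h y hy)
  generalize tot U (box (5 * l + 2)) = M at *
  obtain ⟨γ, hγ⟩ : ∃ γ, γ = 32 * min ((LL l : ℝ) ^ 2)⁻¹ M := ⟨_, rfl⟩
  rw [← hγ] at cor
  have i1 : ((LL l : ℝ) ^ 2)⁻¹ ≤ 81⁻¹ := inv_anti₀ (by norm_num) (by nlinarith)
  have g1 : γ ≤ 2⁻¹ := by linarith [min_le_left ((LL l : ℝ) ^ 2)⁻¹ M]
  have g2 : γ ^ 2 ≤ 114 * (M / LL l) := by
    have h1 : min ((LL l : ℝ) ^ 2)⁻¹ M * min ((LL l : ℝ) ^ 2)⁻¹ M ≤ ((LL l : ℝ) ^ 2)⁻¹ * M :=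
      mul_le_mul (min_le_left _ _) (min_le_right _ _) (by positivity) (by positivity)
    have h2 : ((LL l : ℝ) ^ 2)⁻¹ * M ≤ 9⁻¹ * (M / LL l) := by
      rw [sq, mul_inv, mul_assoc, mul_comm _ M, ← div_eq_mul_inv]
      exact mul_le_mul_of_nonneg_right (inv_anti₀ (by norm_num) hL) (by positivity)
    have : 0 ≤ M / LL l := by positivity
    rw [hγ]
    nlinarith
  have u1 : ∀ μ κ : Fin 4, (0 + un μ) κ = 0 ∨ (0 + un μ) κ = 1 := fun μ κ => by
    rw [zero_add, un_apply]; split_ifs <;> simp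
  obtain ⟨p0, c0⟩ := cor 0 fun _ => Or.inl rfl
  obtain ⟨p1, c1⟩ := cor _ (u1 μ)
  obtain ⟨p2, c2⟩ := cor (0 + un μ + un ν) fun κ => by
    simp only [zero_add, Pi.add_apply, un_apply]
    split_ifs with h1 h2
    · exact absurd (h1.symm.trans h2) hne
    all_goals simp
  obtain ⟨p3, c3⟩ := cor _ (u1 ν)
  have hx : ∀ κ, (-(l : ℤ) ≤ (p0 + up l 0) κ ∧ (p0 + up l 0) κ ≤ 3 * l + 1) ∧
      LL l * hm U (TB l) κ ((p0 + up l 0) κ) ≤ M := fun κ => ⟨by
    have := mem_box.1 c0.mem κ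
    simp only [Pi.add_apply, up_apply, Pi.zero_apply]
    omega, c0.rob κ⟩
  have lk : ∀ {y : St} {κ : Fin 4} {p p' : St}, Cor l U M γ (up l y) (ω y).1 p →
      Cor l U M γ (up l (y + un κ)) (ω (y + un κ)).1 p' →
      Nr (8 * cG * (324 * (M / LL l) + 4 * γ ^ 2)) (blk l U ω (y, κ))
        ((KK l U (p0 + up l 0) (up l y) (ω y) p)⁻¹ *
          KK l U (p0 + up l 0) (up l (y + un κ)) (ω (y + un κ)) p') := fun {y κ p p'} a b => by
    rw [up_add, add_comm (up l y)] at b ⊢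
    exact link hM g1 a b hx
  have a2 := lk c1 c2
  rw [add_right_comm] at c2
  have a3 := lk c3 c2
  rw [add_right_comm] at a3
  have := (((((lk c0 c1).mul a2).mul a3.inv).mul (lk c0 c3).inv).congr (h' := 1) rfl (by group))
  refine le_trans (Nr.one_iff.1 this) ?_
  rw [div_mul_eq_mul_div, mul_div_assoc]
  have : 0 ≤ M / LL l := by positivity
  nlinarith [mul_le_mul_of_nonneg_left g2 (zero_le_one.trans cG1)]

end Pool.Agent.Lib.MP_7f377f_mp.RG.Q4
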