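import Pool.Agent.Lib.MP_7f377f_mp.G.RGMeasKer

/-! Measurability and gauge covariance of the block spin map. -/

noncomputable section

set_option linter.unusedSectionVars false
variable [Pool.Agent.Lib.MP_7f377f_mp.GD]

namespace Pool.Agent.Lib.MP_7f377f_mp.RG

open MeasureTheory Measure Set
open scoped ENNReal

namespace Ms

section grp
variable {G : Type} [Group G]

theorem lnP_gauge (u : St → G) (U : Lk → G) (p : St) (μ : Fin 4) (k : ℕ) :
    lnP (gauge Inv.inv u U) p μ k = u p * lnP U p μ k * (u (p + (k : ℤ) • un μ))⁻¹ := by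
  induction k with
  | zero => simp [lnP]
  | succ k ih =>
    rw [lnP, lnP, ih, gauge]
    simp only [Nat.cast_succ, add_smul, one_smul, add_assoc]
    group

theorem lnN_gauge (u : St → G) (U : Lk → G) (p : St) (μ : Fin 4) (k : ℕ) :
    lnN Inv.inv (gauge Inv.inv u U) p μ k =
      u p * lnN Inv.inv U p μ k * (u (p - (k : ℤ) • un μ))⁻¹ := by
  induction k with
  | zero => simp [lnN]
  | succ k ih =>
    have e : p - ((k : ℤ) + 1) • un μ + un μ = p - (k : ℤ) • un μ := by
      rw [add_smul, one_smul]; abel
    rw [lnN, lnN, ih, gauge]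
    simp only [Nat.cast_succ, e]
    group

theorem ln_gauge (u : St → G) (U : Lk → G) (p : St) (μ : Fin 4) (n : ℤ) :
    ln Inv.inv (gauge Inv.inv u U) p μ n = u p * ln Inv.inv U p μ n * (u (p + n • un μ))⁻¹ := by
  rcases le_total 0 n with h | h
  · have h1 : (-n).toNat = 0 := by omega
    rw [ln, ln, h1, lnP_gauge, Int.toNat_of_nonneg h]
    simp [lnN]
  · have h1 : n.toNat = 0 := by omega
    rw [ln, ln, h1, lnN_gauge, Int.toNat_of_nonneg (by omega)]
    simp [lnP]

theorem pre_0 (x : St) : pre x 0 = 0 := by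
  funext i; simp [pre]

theorem pre_1 (x : St) : pre x 0 + x 0 • un 0 = pre x 1 := by
  funext i; fin_cases i <;> simp [pre, un]

theorem pre_2 (x : St) : pre x 1 + x 1 • un 1 = pre x 2 := by
  funext i; fin_cases i <;> simp [pre, un]

theorem pre_3 (x : St) : pre x 2 + x 2 • un 2 = pre x 3 := by
  funext i; fin_cases i <;> simp [pre, un]

theorem pre_4 (x : St) : pre x 3 + x 3 • un 3 = x := by
  funext i; fin_cases i <;> simp [pre, un]

theorem cmb_gauge (u : St → G) (U : Lk → G) (x : St) :
    cmb Inv.inv (gauge Inv.inv u U) x = u 0 * cmb Inv.inv U x * (u x)⁻¹ := by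
  simp only [cmb, ln_gauge, pre_1, pre_2, pre_3, pre_4]
  rw [pre_0]
  group

theorem sh_gauge (u : St → G) (U : Lk → G) (x : St) :
    sh x (gauge Inv.inv u U) = gauge Inv.inv (fun y => u (y + x)) (sh x U) := by
  funext e
  simp only [sh, gauge, add_right_comm]

theorem hol_gauge (u : St → G) (U : Lk → G) (x : St) (μ ν : Fin 4) :
    hol Inv.inv (gauge Inv.inv u U) x μ ν = u x * hol Inv.inv U x μ ν * (u x)⁻¹ := by
  simp only [hol, gauge, add_right_comm x (un ν) (un μ)]
  group

end grp

theorem cont_lnP (p : St) (μ : Fin 4) (k : ℕ) : Continuous fun U : Conf => lnP U p μ k := by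
  induction k with
  | zero => exact continuous_const
  | succ k ih => exact ih.mul (continuous_apply _)

theorem cont_lnN (p : St) (μ : Fin 4) (k : ℕ) :
    Continuous fun U : Conf => lnN Inv.inv U p μ k := by
  induction k with
  | zero => exact continuous_const
  | succ k ih => exact ih.mul (continuous_apply _).inv

theorem cont_ln (p : St) (μ : Fin 4) (n : ℤ) : Continuous fun U : Conf => ln Inv.inv U p μ n :=
  (cont_lnP _ _ _).mul (cont_lnN _ _ _)

theorem cont_cmb (x : St) : Continuous fun U : Conf => cmb Inv.inv U x :=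
  (((cont_ln _ _ _).mul (cont_ln _ _ _)).mul (cont_ln _ _ _)).mul (cont_ln _ _ _)

theorem cont_sh (x : St) : Continuous fun U : Conf => sh x U :=
  continuous_pi fun _ => continuous_apply _

theorem cont_hol (x : St) (μ ν : Fin 4) : Continuous fun U : Conf => hol Inv.inv U x μ ν := by
  unfold hol
  fun_prop

end Ms

open Ms

namespace Ms

instance prob_PP : IsProbabilityMeasure PP := by unfold PP; infer_instance

end Ms

end Pool.Agent.Lib.MP_7f377f_mp.RG
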