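import Pool.Agent.Lib.MP_7f377f_mp.G.RGAp3
import Pool.Agent.Lib.MP_7f377f_mp.G.RGMeasBlk
import Pool.Agent.Lib.MP_7f377f_mp.PModel

/-! The concrete block spin transformation as a multi-scale model. -/

noncomputable section

set_option linter.unusedSectionVars false
variable [Pool.Agent.Lib.MP_7f377f_mp.GD]

namespace Pool.Agent.Lib.MP_7f377f_mp.RG.Pv

open Finset MeasureTheory
open scoped ENNReal

instance haar_inv : haar.IsInvInvariant := Weak.haar_inv haar

section grp
variable {G : Type} [Group G] {U : Lk → G}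

theorem cmb_step (U : Lk → G) {p : St} {ν : Fin 4} (h : Tr p ν) :
    cmb Inv.inv U (p + un ν) = cmb Inv.inv U p * U (p, ν) := by
  rcases le_or_gt 0 (p ν) with h0 | h0
  · exact cmb_fwd _ _ h h0
  · rw [cmb_bwd _ _ h h0, inv_mul_cancel_right]

end grp

end Pool.Agent.Lib.MP_7f377f_mp.RG.Pv
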