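import Pool.Agent.Lib.MP_7f377f_mp.G.RGSmF
import Pool.Agent.Lib.MP_7f377f_mp.G.PAv

/-! Geometry of real fields in the tree gauge. -/

noncomputable section

set_option linter.unusedSectionVars false
variable [Pool.Agent.Lib.MP_7f377f_mp.GD]

namespace Pool.Agent.Lib.MP_7f377f_mp.RG.JS

open Finset

attribute [local irreducible] box lbox

variable {l : ℕ} {δ : ℝ} {U W : Conf}

theorem lnP_small {η : ℝ} {p : St} {μ : Fin 4} {k : ℕ}
    (h : ∀ i < k, ‖(U (p + (i : ℤ) • un μ, μ)).q - 1‖ ≤ η) : ‖(lnP U p μ k).q - 1‖ ≤ k * η := by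
  induction k with
  | zero => simp [lnP, S3.q_one]
  | succ k ih =>
    refine (S3.norm_mul_sub _ _).trans ?_
    push_cast
    linarith [ih fun i hi => h i (by omega), h k (by omega)]

theorem cmb_tree (hU : ∀ f, tree l f → U f = 1) (y t : St) :
    t ∈ box l → cmb Inv.inv (sh (up l y) U) t = 1 := by
  have key : ∀ p ν, Tr p ν → p ∈ box l → p + un ν ∈ box l → sh (up l y) U (p, ν) = 1 :=
    fun p ν h1 h2 h3 => hU _ ((tree_add_up l p y ν).2 ⟨by rw [yo_of_mem h2, yo_of_mem h3],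
      fun κ hκ => by rw [yo_of_mem h2, up_zero]; exact h1 κ hκ⟩)
  induction t using site_ind with
  | h0 => simp
  | hp p ν h1 h2 ih =>
    intro hx
    rw [Pv.cmb_step _ h1, ih (box_fwd h2 hx), key p ν h1 (box_fwd h2 hx) hx, one_mul]
  | hn p ν h1 h2 ih =>
    intro hx
    have := ih (box_bwd h2 hx)
    rwa [Pv.cmb_step _ h1, key p ν h1 hx (box_bwd h2 hx), mul_one] at this

theorem q_near {g : S3} {η : ℝ} (e : ‖cS g - 1‖ ≤ η) : ‖g.q - 1‖ ≤ η := by
  rw [cS, ← cq_one, ← cq_sub] at e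
  exact (norm_cq _).1.trans e

variable {c R : ℕ} {τ ρ κ P : ℝ}

end Pool.Agent.Lib.MP_7f377f_mp.RG.JS
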