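import Pool.Agent.Lib.MP_7f377f_mp.G.RGDefs

/-! Lattice arithmetic and transports along combs. -/

noncomputable section

set_option linter.unusedSectionVars false
variable [Pool.Agent.Lib.MP_7f377f_mp.GD]

namespace Pool.Agent.Lib.MP_7f377f_mp.RG.Op

open Finset

theorem LL_pos (l : ℕ) : (0 : ℤ) < LL l := by unfold LL; positivity

theorem LL_cast (l : ℕ) : (LL l : ℤ) = 2 * l + 1 := by unfold LL; push_cast; ring

theorem up_neg (l : ℕ) (x : St) : up l (-x) = -up l x := smul_neg _ _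

@[simp] theorem up_zero (l : ℕ) : up l 0 = 0 := smul_zero _

theorem up_apply (l : ℕ) (y : St) (i : Fin 4) : up l y i = LL l * y i := rfl

theorem yo_add_up (l : ℕ) (x y : St) : yo l (x + up l y) = yo l x + y := by
  funext i
  have : x i + LL l * y i + l = x i + l + LL l * y i := by ring
  simp only [yo, Pi.add_apply, up_apply, this]
  exact Int.add_mul_ediv_left _ _ (LL_pos l).ne'

theorem yo_sub_up (l : ℕ) (x y : St) : yo l (x - up l y) = yo l x - y := by
  rw [sub_eq_add_neg, ← up_neg, yo_add_up, sub_eq_add_neg]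

theorem mem_box {r : ℕ} {x : St} : x ∈ box r ↔ ∀ i, -(r : ℤ) ≤ x i ∧ x i ≤ r := by
  simp [box]

theorem mem_lbox {r : ℕ} {e : Lk} : e ∈ lbox r ↔ e.1 ∈ box r := by
  simp [lbox]

theorem box_neg {a : ℕ} {x : St} (hx : x ∈ box a) : -x ∈ box a := by
  rw [mem_box] at hx ⊢
  intro i
  have := hx i
  simp only [Pi.neg_apply]
  omega

theorem mem_fb {l a : ℕ} {x : St} : x ∈ box (fb l a) ↔ yo l x ∈ box a := by
  simp only [mem_box, yo]
  refine forall_congr' fun i => ?_
  rw [Int.le_ediv_iff_mul_le (LL_pos l), ← Int.lt_add_one_iff (a := _ / _),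
    Int.ediv_lt_iff_lt_mul (LL_pos l)]
  have := LL_cast l
  simp only [fb]
  push_cast
  constructor <;> rintro ⟨h1, h2⟩ <;> constructor <;> nlinarith

theorem yo_eq_zero {l : ℕ} {x : St} : yo l x = 0 ↔ x ∈ box l := by
  have := mem_fb (l := l) (a := 0) (x := x)
  simp only [fb, zero_mul, zero_add] at this
  rw [this, mem_box]
  refine ⟨fun h => by simp [h], fun h => funext fun i => ?_⟩
  have := h i
  simp only [Pi.zero_apply]
  omega

theorem sub_up_yo (l : ℕ) (x : St) : x - up l (yo l x) ∈ box l := by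
  rw [← yo_eq_zero, yo_sub_up, sub_self]

theorem yo_add_box {l : ℕ} {t : St} (ht : t ∈ box l) (y : St) : yo l (t + up l y) = y := by
  rw [yo_add_up, yo_eq_zero.2 ht, zero_add]

theorem fb_one (l : ℕ) : fb l 1 = 3 * l + 1 := by unfold fb LL; ring

theorem fb_mono (l : ℕ) {a b : ℕ} (h : a ≤ b) : fb l a ≤ fb l b :=
  Nat.add_le_add_right (Nat.mul_le_mul_right _ h) _

@[simp] theorem sh_zero {α : Type} (U : Lk → α) : sh 0 U = U := by
  funext e
  simp [sh]

/-- regrouping of the sites of a union of blocks -/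
theorem sum_fb {M : Type} [AddCommMonoid M] (l a : ℕ) (g : Lk → M) :
    ∑ e ∈ lbox (fb l a), g e = ∑ y ∈ box a, ∑ t ∈ lbox l, g (t.1 + up l y, t.2) := by
  rw [← sum_product']
  refine sum_bij' (fun e _ => (yo l e.1, (e.1 - up l (yo l e.1), e.2)))
    (fun p _ => (p.2.1 + up l p.1, p.2.2)) ?_ ?_ ?_ ?_ ?_
  · intro e he
    exact mem_product.2 ⟨mem_fb.1 (mem_lbox.1 he), mem_lbox.2 (sub_up_yo l _)⟩
  · intro p hp
    rw [mem_lbox, mem_fb, yo_add_box (mem_lbox.1 (mem_product.1 hp).2)]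
    exact (mem_product.1 hp).1
  · intro e _
    simp
  · intro p hp
    simp [yo_add_box (mem_lbox.1 (mem_product.1 hp).2)]
  · intro e _
    simp

section paths

variable {α β : Type} [Monoid α] [Monoid β]

theorem cmb_map (φ : α →* β) {iv : α → α} {iv' : β → β} (h : ∀ a, φ (iv a) = iv' (φ a))
    (U : Lk → α) (x : St) : φ (cmb iv U x) = cmb iv' (fun e => φ (U e)) x := by
  have h1 : ∀ p μ k, φ (lnP U p μ k) = lnP (fun e => φ (U e)) p μ k := fun p μ k => by
    induction k with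
    | zero => simp [lnP]
    | succ k ih => simp [lnP, ih]
  have h2 : ∀ p μ k, φ (lnN iv U p μ k) = lnN iv' (fun e => φ (U e)) p μ k := fun p μ k => by
    induction k with
    | zero => simp [lnN]
    | succ k ih => simp [lnN, ih, h]
  simp only [cmb, ln, map_mul, h1, h2]

theorem pre_mem {R : ℕ} {x : St} (hx : x ∈ box R) (μ : Fin 4) {s : ℤ} (h1 : -(R : ℤ) ≤ s)
    (h2 : s ≤ R) : pre x μ + s • un μ ∈ box R := by
  rw [mem_box] at hx ⊢
  intro i
  have := hx i
  by_cases h : i = μ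
  · subst h
    simp [pre, un, h1, h2]
  · simp only [pre, un, Pi.add_apply, Pi.smul_apply, Pi.single_eq_of_ne h, smul_zero, add_zero]
    split_ifs
    · exact this
    · omega

theorem cmb_ind {iv : α → α} (P : ℕ → α → Prop) (P1 : ∀ n, P n 1)
    (Pm : ∀ i j a b, P i a → P j b → P (i + j) (a * b)) {R : ℕ} {U : Lk → α}
    (hU : ∀ e ∈ lbox R, P 1 (U e) ∧ P 1 (iv (U e))) {x : St} (hx : x ∈ box R) :
    P (4 * R) (cmb iv U x) := by
  have h3 : ∀ μ, P R (ln iv U (pre x μ) μ (x μ)) := fun μ => by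
    have hμ := mem_box.1 hx μ
    have h1 : ∀ k : ℕ, (k : ℤ) ≤ R → P k (lnP U (pre x μ) μ k) := fun k => by
      induction k with
      | zero => exact fun _ => P1 0
      | succ k ih =>
        intro hk
        exact Pm _ _ _ _ (ih (by omega)) (hU _ (mem_lbox.2 (pre_mem hx μ (by omega) (by omega)))).1
    have h2 : ∀ k : ℕ, (k : ℤ) ≤ R → P k (lnN iv U (pre x μ) μ k) := fun k => by
      induction k with
      | zero => exact fun _ => P1 0
      | succ k ih =>
        intro hk
        refine Pm _ _ _ _ (ih (by omega)) (hU _ (mem_lbox.2 ?_)).2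
        rw [sub_eq_add_neg, ← neg_smul]
        exact pre_mem hx μ (by omega) (by omega)
    have := Pm _ _ _ _ (Pm _ _ _ _ (h1 (x μ).toNat (by omega)) (h2 (-x μ).toNat (by omega)))
      (P1 (R - ((x μ).toNat + (-x μ).toNat)))
    rwa [mul_one, Nat.add_sub_cancel' (by omega)] at this
  have := Pm _ _ _ _ (Pm _ _ _ _ (Pm _ _ _ _ (h3 0) (h3 1)) (h3 2)) (h3 3)
  rwa [show R + R + R + R = 4 * R by ring] at this

theorem cmb_agr {iv : α → α} {R : ℕ} {U U' : Lk → α} (h : Agr R U U') {x : St} (hx : x ∈ box R) :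
    cmb iv U x = cmb iv U' x := by
  have := cmb_ind (iv := Prod.map iv iv) (fun _ (p : α × α) => p.1 = p.2) (fun _ => rfl)
    (fun _ _ a b ha hb => by simp [ha, hb]) (U := fun e => (U e, U' e))
    (fun e he => by simp [h e he]) hx
  have e1 := cmb_map (MonoidHom.fst α α) (iv := Prod.map iv iv) (iv' := iv) (fun _ => rfl)
    (fun e => (U e, U' e)) x
  have e2 := cmb_map (MonoidHom.snd α α) (iv := Prod.map iv iv) (iv' := iv) (fun _ => rfl)
    (fun e => (U e, U' e)) x
  exact e1.symm.trans (this.trans e2)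

end paths

theorem cmb_near {R : ℕ} {U : Cf} {δ : ℝ} (h0 : 0 ≤ δ) (h : ∀ e ∈ lbox R, ‖U e - 1‖ ≤ δ) {x : St}
    (hx : x ∈ box R) : ‖cmb star U x - 1‖ ≤ (1 + δ) ^ (4 * R) - 1 := by
  refine cmb_ind (fun n a => ‖a - 1‖ ≤ (1 + δ) ^ n - 1) (fun n => ?_) (fun i j a b ha hb => ?_)
    (fun e he => ?_) hx
  · simpa using one_le_pow₀ (by linarith)
  · have e : a * b - 1 = (a - 1) * (b - 1) + (a - 1) + (b - 1) := by noncomm_ring
    have := norm_mul_le (a - 1) (b - 1)
    have h3 := norm_add₃_le (a := (a - 1) * (b - 1)) (b := a - 1) (c := b - 1)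
    have := mul_le_mul ha hb (norm_nonneg _) ((norm_nonneg _).trans ha)
    rw [e, pow_add]
    nlinarith
  · have : star (U e) - 1 = star (U e - 1) := by simp
    rw [this, norm_star_Hc, pow_one, add_sub_cancel_left]
    exact ⟨h e he, h e he⟩

end Pool.Agent.Lib.MP_7f377f_mp.RG.Op
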