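import Pool.Agent.Lib.MP_7f377f_mp.G.RGAlg

/-! The block spin transformation and the effective densities. -/

noncomputable section

set_option linter.unusedSectionVars false
variable [Pool.Agent.Lib.MP_7f377f_mp.GD]

namespace Pool.Agent.Lib.MP_7f377f_mp.RG

open Finset MeasureTheory
open scoped ENNReal

abbrev Conf := Lk → S3

/-- product Haar measure -/
def PP : Measure Conf := Measure.infinitePi fun _ => haar

end Pool.Agent.Lib.MP_7f377f_mp.RG
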