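import Pool.Agent.Lib.MP_7f377f_mp.G.GLj
import Pool.Agent.Lib.MP_7f377f_mp.G.RGModel

/-! Haar measure of the group in the chart. -/

noncomputable section

set_option linter.unusedSectionVars false
variable [Pool.Agent.Lib.MP_7f377f_mp.GD]

namespace Pool.Agent.Lib.MP_7f377f_mp.RG

open MeasureTheory Measure Set GD
open scoped ENNReal

namespace Ms

theorem q_mul (g h : S3) : (g * h).q = g.q * h.q := S3.q_mul g h

theorem q_one : (1 : S3).q = 1 := S3.q_one

theorem q_inj {g h : S3} (e : g.q = h.q) : g = h := S3.ext e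

theorem cont_q : Continuous S3.q := S3.continuous_q

theorem q_inv (g : S3) : (g⁻¹).q = star g.q := S3.q_inv g

/-- the chart -/
def e0 (a : E3) : S3 := Classical.choose (ex_real a)

theorem cS_e0 (a : E3) : cS (e0 a) = ex (cE a) := (Classical.choose_spec (ex_real a)).1

theorem cS_inj {g h : S3} (e : cS g = cS h) : g = h := RG.cS_inj e

theorem eq_e0 {e : E3 → S3} (h : ∀ v, cS (e v) = ex (cE v)) : e = e0 :=
  funext fun v => cS_inj ((h v).trans (cS_e0 v).symm)

theorem cont_cS : Continuous cS :=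
  (AddMonoidHomClass.isometry_of_norm cqH norm_cq').continuous.comp cont_q

theorem cont_cE : Continuous cE := AddMonoidHomClass.continuous_of_bound (AddMonoidHom.mk' cE cE_add) 1
  fun v => by simpa using (norm_cE v).1

theorem meas_e0 : Measurable e0 :=
  (cont_cS.isClosedEmbedding fun _ _ => cS_inj).measurableEmbedding.measurable_comp_iff.1
    (by simpa only [Function.comp_def, cS_e0] using measurable_ex.comp cont_cE.measurable)

theorem e0_near {v : E3} (h : ‖v‖ ≤ 2) : ‖(e0 v).q - 1‖ ≤ 2 * ‖v‖ :=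
  (Classical.choose_spec (ex_real v)).2 h

/-- the embedding of the Lie algebra -/
def ioE : E3 →L[ℝ] Hc := LinearMap.toContinuousLinearMap
  { toFun := fun a => io (cE a)
    map_add' := fun a b => by rw [cE_add, io_add]
    map_smul' := fun c a => by rw [cE_smul, io_smul, Complex.coe_smul]; rfl }

/-- the real coordinates -/
def coR : Hc →L[ℝ] E3 := LinearMap.toContinuousLinearMap
  { toFun := fun q => WithLp.toLp 2 fun k => (co q k).re
    map_add' := fun a b => by
      rw [co_add]
      rfl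
    map_smul' := fun c a => by
      rw [← Complex.coe_smul, co_smul]
      ext k
      exact Complex.re_ofReal_mul _ _ }

theorem cE_coR (g : S3) : cE (coR (cS g)) = ch (cS g) := funext fun k =>
  Complex.ext (congrArg (fun b : C3 => (b k).re) (ch_cS g)).symm (ch_real g.q k).symm

theorem coR_e0 {v : E3} (h : ‖v‖ ≤ 2) : coR (cS (e0 v)) = v :=
  cE_inj (by rw [cE_coR, cS_e0, ch_ex (by linarith [norm_cE' v])])

theorem e0_coR {g : S3} (h : ‖g.q - 1‖ ≤ 2) : e0 (coR (cS g)) = g :=
  cS_inj (by rw [cS_e0, cE_coR, ex_ch (by linarith)])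

theorem coR_le (g : S3) : ‖coR (cS g)‖ ≤ ‖g.q - 1‖ := by
  rw [← norm_cE', cE_coR, ch_cS, ← norm_cS_sub]
  exact norm_co_le _

/-- the part of the group covered by the chart -/
def pos : Set S3 := e0 '' Metric.ball 0 2

theorem mem_pos {g : S3} (h : ‖g.q - 1‖ < 2) : g ∈ pos :=
  ⟨_, mem_ball_zero_iff.2 ((coR_le g).trans_lt h), e0_coR h.le⟩

theorem contOn_e0 : ContinuousOn e0 (Metric.closedBall 0 2) := by
  rw [(cont_cS.isClosedEmbedding fun _ _ => cS_inj).isInducing.continuousOn_iff]
  exact (differentiableOn_ex.continuousOn.comp cont_cE.continuousOn fun v hv => mem_ball_zero_iff.2 (by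
    linarith [norm_cE' v, mem_closedBall_zero_iff.1 hv])).congr fun v _ => cS_e0 v

theorem meas_img {s : Set E3} (hs : MeasurableSet s) (h : ∀ v ∈ s, ‖v‖ ≤ 2) :
    MeasurableSet (e0 '' s) :=
  hs.image_of_continuousOn_injOn (contOn_e0.mono fun v hv => mem_closedBall_zero_iff.2 (h v hv))
    fun v hv w hw e => by rw [← coR_e0 (h v hv), e, coR_e0 (h w hw)]

theorem meas_pos : MeasurableSet pos :=
  meas_img measurableSet_ball fun _ h => (mem_ball_zero_iff.1 h).le

/-- the real differential of the right translation -/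
def NR (g : S3) : E3 →L[ℝ] E3 := coR ∘L (ContinuousLinearMap.mul ℝ Hc).flip (cS g) ∘L ioE

theorem det_NR (g : S3) : ((NR g).det : ℂ) = LinearMap.det (Nq (cS g)) := by
  rw [Lj.det_eq, ContinuousLinearMap.det,
    ← LinearMap.det_toMatrix (EuclideanSpace.basisFun (Fin d) ℝ).toBasis]
  refine (Complex.ofRealHom.map_det _).trans (congrArg _ (Matrix.ext fun k j => ?_))
  have e : cE (EuclideanSpace.single j 1) = Lj.bC j := funext fun i => by
    simp [cE, Lj.bC_apply, apply_ite]
  refine Complex.ext ?_ ?_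
  · simp [LinearMap.toMatrix_apply, NR, coR, ioE, e]
  · rw [Matrix.of_apply, ← e, ← cq_ioR, cS, ← cq_mul, co_real]
    rfl

theorem d_e0 : HasFDerivAt (fun v => cS (e0 v)) ioE 0 := by
  refine hasFDerivAt_iff_isLittleO_nhds_zero.2 (Asymptotics.IsBigO.trans_isLittleO
    (.of_bound 10 ?_) (Asymptotics.isLittleO_norm_pow_id one_lt_two))
  filter_upwards [Metric.closedBall_mem_nhds 0 (show (0 : ℝ) < 1 / 100 by norm_num)] with v hv
  rw [zero_add, cS_e0, cS_e0, cE_zero, ex_zero, Real.norm_of_nonneg (sq_nonneg _)]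
  exact ex_near (norm_cE v).1 (mem_closedBall_zero_iff.1 hv)

/-- density of Haar measure in the chart -/
def hd (a : E3) : ℝ := if ‖a‖ < 2 then Real.exp (-(lj (cE a)).re) else 0

theorem measurable_hd : Measurable hd :=
  .ite (measurableSet_lt measurable_norm measurable_const)
    (Complex.measurable_re.comp (meas_lj.comp cont_cE.measurable)).neg.exp measurable_const

theorem hd_nonneg (a : E3) : 0 ≤ hd a := by
  unfold hd
  split_ifs
  exacts [(Real.exp_pos _).le, le_rfl]

theorem hd_bd {a : E3} (h : ‖a‖ < 2) : 1 / 2 ≤ hd a ∧ hd a ≤ 2 := by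
  have h1 := lj_le (b := cE a) ((norm_cE a).1.trans h.le)
  have h2 : ‖cE a‖ ^ 2 ≤ 4 := by nlinarith [(norm_cE a).1, norm_nonneg (cE a)]
  have h3 := (Complex.abs_re_le_norm _).trans h1
  have h4 := abs_le.1 (Real.abs_exp_sub_one_le (x := -(lj (cE a)).re) (by rw [abs_neg]; linarith))
  rw [abs_neg] at h4
  rw [hd, if_pos h]
  constructor <;> linarith

theorem hd_le (a : E3) : hd a ≤ 2 := by
  by_cases h : ‖a‖ < 2
  exacts [(hd_bd h).2, (if_neg h).trans_le zero_le_two]

end Ms

open Ms

theorem lj_real (v : E3) : lj (cE v) = (lj (cE v)).re := Complex.ext rfl (lj_im (cE_real v))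

theorem haar_chart : ∃ cH : ℝ, 0 < cH ∧ MeasurePreserving e0
    ((volume : Measure E3).withDensity fun v => ENNReal.ofReal (cH * hd v)) (haar.restrict pos) := by
  have a : ∀ v ∈ Metric.ball (0 : E3) 2, |(NR (e0 v)).det| = Real.exp (lj (cE v)).re := fun v hv => by
    rw [← Complex.norm_exp, ← (Lj.spec ((norm_cE v).1.trans (mem_ball_zero_iff.1 hv).le)).1, ← cS_e0,
      ← det_NR, Complex.norm_real, Real.norm_eq_abs]
  obtain ⟨c, c0, h⟩ := GH.chart_haar haar (volume : Measure E3) cont_cS cS_mul ioE coR meas_e0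
    Metric.isOpen_ball (contOn_e0.mono Metric.ball_subset_closedBall) d_e0
    (norm_le_zero_iff.1 ((coR_le 1).trans_eq (by rw [q_one, sub_self, norm_zero])))
    (((cont_q.sub continuous_const).norm.continuousAt.eventually_lt continuousAt_const
      (show ‖S3.q 1 - 1‖ < 2 by rw [q_one, sub_self, norm_zero]; exact two_pos)).mono fun g hg =>
      ⟨mem_ball_zero_iff.2 ((coR_le g).trans_lt hg), e0_coR hg.le⟩)
    (fun v hv => coR_e0 (mem_ball_zero_iff.1 hv).le) NR (fun _ _ => rfl)
    (fun v hv => abs_pos.1 (a v hv ▸ Real.exp_pos _)) measurable_hd.ennreal_ofReal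
    (fun v hv => by rw [a v hv, hd, if_pos (mem_ball_zero_iff.1 hv), Real.exp_neg])
    (ne_top_of_le_ne_top (by simpa using ENNReal.mul_ne_top (by simp) measure_ball_lt_top.ne)
      (lintegral_mono (g := fun _ => ENNReal.ofReal 2) fun v => ENNReal.ofReal_le_ofReal (hd_le v)))
  refine ⟨c, c0, ?_⟩
  rw [← withDensity_indicator measurableSet_ball] at h
  refine (congrArg (fun f => MeasurePreserving e0 (volume.withDensity f) _) (funext fun v => ?_)).mp h
  by_cases hv : ‖v‖ < 2
  · rw [indicator_of_mem (mem_ball_zero_iff.2 hv), ENNReal.ofReal_mul c0.le]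
  · rw [indicator_of_notMem (fun h => hv (mem_ball_zero_iff.1 h)), hd, if_neg hv, mul_zero,
      ENNReal.ofReal_zero]

end Pool.Agent.Lib.MP_7f377f_mp.RG
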