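import Pool.Agent.Lib.MP_7f377f_mp.G.RGMeasRho
import Pool.Agent.Lib.MP_7f377f_mp.G.Q4OpDefs

/-! Change of variables from links to Gaussian fluctuation variables. -/

noncomputable section

set_option linter.unusedSectionVars false
variable [Pool.Agent.Lib.MP_7f377f_mp.GD]

namespace Pool.Agent.Lib.MP_7f377f_mp.RG.Q4

open MeasureTheory Measure Set Ms
open scoped ENNReal

/-- density of the Haar measure at the origin of the chart -/
def cHa : ℝ := Classical.choose haar_chart

theorem cHa_pos : 0 < cHa := (Classical.choose_spec haar_chart).1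

/-- density of the Haar measure in the chart -/
def dH (v : E3) : ℝ := cHa * hd v

theorem dH_nonneg (v : E3) : 0 ≤ dH v := mul_nonneg cHa_pos.le (hd_nonneg v)

theorem dH_le (v : E3) : dH v ≤ 2 * cHa :=
  (mul_le_mul_of_nonneg_left (hd_le v) cHa_pos.le).trans_eq (mul_comm _ _)

theorem dH_eq {v : E3} (h : ‖v‖ < 2) : dH v = Real.exp (Real.log cHa - (lj (cE v)).re) := by
  rw [sub_eq_add_neg, Real.exp_add, Real.exp_log cHa_pos, dH, hd, if_pos h]

theorem meas_dH : Measurable dH := measurable_hd.const_mul _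

theorem mp_e0 : MeasurePreserving e0
    ((volume : Measure E3).withDensity fun v => ENNReal.ofReal (dH v)) (haar.restrict pos) :=
  (Classical.choose_spec haar_chart).2

/-- total mass of the truncated Gaussian weight -/
def zn (ζ : ℝ) : ℝ := (nu0 ζ univ).toReal

theorem nu0_fin (ζ : ℝ) : nu0 ζ univ ≠ ∞ := by
  have : IsFiniteMeasure (nu0 ζ) := isFiniteMeasure_withDensity (ne_top_of_le_ne_top
    (by simpa using (measure_closedBall_lt_top (μ := volume) (x := (0 : E3))).ne)
    (lintegral_mono (g := fun _ => 1) fun v =>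
      ENNReal.ofReal_le_one.2 (Real.exp_le_one_iff.2 (neg_nonpos.2 (by positivity)))))
  exact measure_ne_top _ _

theorem nu0_pos {ζ : ℝ} (h : 0 < ζ) : nu0 ζ univ ≠ 0 := by
  rw [nu0, withDensity_apply _ MeasurableSet.univ, Measure.restrict_univ, ← pos_iff_ne_zero,
    lintegral_pos_iff_support (by fun_prop)]
  have : (Function.support fun v : E3 => ENNReal.ofReal (Real.exp (-(‖v‖ ^ 2 / 2)))) = univ :=
    eq_univ_of_forall fun v => (ENNReal.ofReal_pos.mpr (Real.exp_pos _)).ne'
  rw [this, Measure.restrict_apply_univ]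
  exact Metric.measure_closedBall_pos _ _ h

theorem zn_pos {ζ : ℝ} (h : 0 < ζ) : 0 < zn ζ := ENNReal.toReal_pos (nu0_pos h) (nu0_fin ζ)

theorem nu_prob {ζ : ℝ} (h : 0 < ζ) : IsProbabilityMeasure (nu ζ) :=
  ⟨by rw [nu, Measure.smul_apply, smul_eq_mul, ENNReal.inv_mul_cancel (nu0_pos h) (nu0_fin ζ)]⟩

theorem nuI_prob {ζ : ℝ} (h : 0 < ζ) : IsProbabilityMeasure (nuI ζ) := by
  have := nu_prob h
  unfold nuI
  infer_instance

/-- density of the Lebesgue measure with respect to the truncated Gaussian measure -/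
def dG (ζ : ℝ) (v : E3) : ℝ := zn ζ * Real.exp (‖v‖ ^ 2 / 2)

theorem dG_pos {ζ : ℝ} (h : 0 < ζ) (v : E3) : 0 < dG ζ v := mul_pos (zn_pos h) (Real.exp_pos _)

theorem cont_dG (ζ : ℝ) : Continuous (dG ζ) := by
  unfold dG
  fun_prop

theorem nu_dens {ζ : ℝ} (h : 0 < ζ) :
    ((nu ζ).withDensity fun v => ENNReal.ofReal (dG ζ v)) =
      volume.restrict (Metric.closedBall 0 ζ) := by
  have e : (fun v : E3 => ENNReal.ofReal (dG ζ v)) =
      nu0 ζ univ • fun v : E3 => ENNReal.ofReal (Real.exp (‖v‖ ^ 2 / 2)) := by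
    funext v
    rw [dG, ENNReal.ofReal_mul (zn_pos h).le, zn, ENNReal.ofReal_toReal (nu0_fin ζ)]
    rfl
  rw [e, withDensity_smul _ (by fun_prop), nu, withDensity_smul_measure, smul_smul,
    ENNReal.mul_inv_cancel (nu0_pos h) (nu0_fin ζ), one_smul, nu0,
    ← withDensity_mul _ (by fun_prop) (by fun_prop)]
  convert withDensity_one
  funext v
  rw [Pi.mul_apply, ← ENNReal.ofReal_mul (Real.exp_pos _).le, ← Real.exp_add]
  simp

/-- `ν` is a probability measure equivalent to the Lebesgue measure on `B`, with density `1 / d` -/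
structure Ref (ν : Measure E3) (B : Set E3) (d : E3 → ℝ) : Prop where
  prob : IsProbabilityMeasure ν
  mB : MeasurableSet B
  md : Measurable d
  nn : ∀ v, 0 ≤ d v
  dens : (ν.withDensity fun v => ENNReal.ofReal (d v)) = volume.restrict B

theorem ref_nu {ζ : ℝ} (h : 0 < ζ) : Ref (nu ζ) (Metric.closedBall 0 ζ) (dG ζ) :=
  ⟨nu_prob h, measurableSet_closedBall, (cont_dG ζ).measurable, fun v => (dG_pos h v).le, nu_dens h⟩

/-- the Gaussian weight -/
def gam0 : Measure E3 := volume.withDensity fun v => ENNReal.ofReal (Real.exp (-(‖v‖ ^ 2 / 2)))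

/-- total mass of the Gaussian weight -/
def zf : ℝ := (gam0 univ).toReal

theorem gam0_fin : gam0 univ ≠ ∞ := by
  have h := (GaussianFourier.integrable_cexp_neg_mul_sq_norm_add (V := E3) (b := 1 / 2)
    (by norm_num) 0 0).norm
  rw [gam0, withDensity_apply _ MeasurableSet.univ, Measure.restrict_univ]
  refine ne_of_lt (lt_of_eq_of_lt (lintegral_congr fun v => ?_) h.lintegral_lt_top)
  congr 1
  rw [Complex.norm_exp]
  congr 1
  simp [← Complex.ofReal_pow]
  ring

theorem gam0_pos : gam0 univ ≠ 0 := by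
  rw [gam0, withDensity_apply _ MeasurableSet.univ, Measure.restrict_univ, ← pos_iff_ne_zero,
    lintegral_pos_iff_support (by fun_prop)]
  have : (Function.support fun v : E3 => ENNReal.ofReal (Real.exp (-(‖v‖ ^ 2 / 2)))) = univ :=
    eq_univ_of_forall fun v => (ENNReal.ofReal_pos.mpr (Real.exp_pos _)).ne'
  rw [this]
  exact isOpen_univ.measure_pos _ univ_nonempty

theorem zf_pos : 0 < zf := ENNReal.toReal_pos gam0_pos gam0_fin

/-! ### the charts -/

/-- the domain of the chart at the identity -/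
def Uc : Set S3 := e0 '' {v | ‖v‖ ^ 2 ≤ 3}

theorem le_two {v : E3} (h : ‖v‖ ^ 2 ≤ 3) : ‖v‖ < 2 := by nlinarith [norm_nonneg v]

theorem meas_Uc : MeasurableSet Uc :=
  meas_img (measurableSet_le (measurable_norm.pow_const 2) measurable_const) fun _ h => (le_two h).le

theorem mem_Uc {g : S3} (h : ‖g.q - 1‖ ≤ 1) : g ∈ Uc :=
  ⟨_, by have := coR_le g; rw [mem_ofPred]; nlinarith [norm_nonneg (coR (cS g))], e0_coR (by linarith)⟩

theorem ex_cover : ∃ (n : ℕ) (q : Fin (n + 1) → S3), q 0 = 1 ∧ ∀ g, ∃ s, g * (q s)⁻¹ ∈ Uc :=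
  GH.cover (Filter.mem_of_superset ((isOpen_lt (cont_q.sub continuous_const).norm
    continuous_const).mem_nhds (show ‖S3.q 1 - 1‖ < 1 by simp [q_one])) fun _ h => mem_Uc (le_of_lt h))

/-- the number of charts -/
def NG : ℕ := ex_cover.choose + 1

instance : NeZero NG := ⟨Nat.succ_ne_zero _⟩

theorem NG_one : (1 : ℝ) ≤ NG := Nat.one_le_cast.2 (Nat.succ_pos _)

/-- the centres of the charts -/
def q8 : Fin NG → S3 := ex_cover.choose_spec.choose

theorem q8_zero : q8 0 = 1 := ex_cover.choose_spec.choose_spec.1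

theorem ex_q8 (g : S3) : ∃ s, g * (q8 s)⁻¹ ∈ Uc := ex_cover.choose_spec.choose_spec.2 g

/-- the part of the group attributed to the chart `s` -/
def pie (s : Fin NG) : Set S3 := {g | g * (q8 s)⁻¹ ∈ Uc ∧ ∀ t < s, g * (q8 t)⁻¹ ∉ Uc}

theorem meas_pie (s : Fin NG) : MeasurableSet (pie s) := by
  have m : ∀ t, MeasurableSet {g : S3 | g * (q8 t)⁻¹ ∈ Uc} := fun t => measurable_mul_const _ meas_Uc
  simp only [pie, ofPred_and, ofPred_forall]
  exact (m s).inter (MeasurableSet.iInter fun t => MeasurableSet.iInter fun _ => (m t).compl)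

theorem pie_unique (g : S3) : ∃! s, g ∈ pie s := by
  classical
  obtain ⟨s, hs, hm⟩ := (wellFounded_lt (α := Fin NG)).has_min {s | g * (q8 s)⁻¹ ∈ Uc} (ex_q8 g)
  refine ⟨s, ⟨hs, fun t ht h => hm t h ht⟩, fun t ht => ?_⟩
  rcases lt_trichotomy t s with h | h | h
  exacts [absurd h (hm t ht.1), h, absurd hs (ht.2 s h)]

open Classical in
/-- the weight of the chart `s` at the point with coordinate `v` -/
def th (s : Fin NG) (v : E3) : ℝ := if ‖v‖ < 2 ∧ e0 v * q8 s ∈ pie s then 1 else 0

theorem th_cases (s : Fin NG) (v : E3) : th s v = 0 ∨ th s v = 1 := by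
  unfold th
  split_ifs <;> simp

theorem th_nonneg (s : Fin NG) (v : E3) : 0 ≤ th s v := by
  rcases th_cases s v with h | h <;> simp [h]

theorem th_le (s : Fin NG) (v : E3) : th s v ≤ 1 := by
  rcases th_cases s v with h | h <;> simp [h]

theorem meas_th : Measurable fun p : Fin NG × E3 => th p.1 p.2 := by
  refine measurable_from_prod_countable_right fun s => ?_
  have m : Measurable fun v : E3 => e0 v * q8 s := meas_e0.mul_const _
  have m' : MeasurableSet {v : E3 | ‖v‖ < 2 ∧ e0 v * q8 s ∈ pie s} :=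
    (measurableSet_lt measurable_norm measurable_const).inter (m (meas_pie s))
  exact Measurable.ite m' measurable_const measurable_const

theorem half_le {v : E3} (h : ‖v‖ < 2) : e0 v ∈ Uc ↔ ‖v‖ ^ 2 ≤ 3 :=
  ⟨fun ⟨w, hw, e⟩ => by rwa [← coR_e0 h.le, ← e, coR_e0 (le_two hw).le], fun h => ⟨v, h, rfl⟩⟩

theorem th_supp {s : Fin NG} {v : E3} (h : th s v ≠ 0) : ‖v‖ ^ 2 ≤ 3 := by
  have h1 : ‖v‖ < 2 ∧ e0 v * q8 s ∈ pie s := by_contra fun hc => h (if_neg hc)
  have := h1.2.1
  rwa [mul_inv_cancel_right, half_le h1.1] at this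

theorem th_zero (v : E3) : th 0 v = if ‖v‖ ^ 2 ≤ 3 then 1 else 0 := by
  split_ifs with h
  · exact if_pos ⟨le_two h, ⟨v, h, (mul_inv_cancel_right _ _).symm⟩, fun t ht =>
      absurd ht (Fin.not_lt_zero t)⟩
  · exact by_contra fun hc => h (th_supp hc)

/-- near the base point only the first chart is used -/
theorem th_first {s : Fin NG} {v : E3} (h : th s v ≠ 0) (h1 : ‖(e0 v * q8 s).q - 1‖ ≤ 1) : s = 0 := by
  have h2 : ‖v‖ < 2 ∧ e0 v * q8 s ∈ pie s := by_contra fun hc => h (if_neg hc)
  by_contra hs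
  have h3 := h2.2.2 0 (Fin.pos_iff_ne_zero.2 hs)
  rw [q8_zero, inv_one, mul_one] at h3
  exact h3 (mem_Uc h1)

/-- the variable of a link -/
abbrev XQ : Type := E3 × Fin NG

/-- the uniform law of the chart -/
def u8 : Measure (Fin NG) := (NG : ℝ≥0∞)⁻¹ • count

instance : IsProbabilityMeasure u8 :=
  ⟨by simp [u8, ENNReal.inv_mul_cancel, NeZero.ne]⟩

/-- the law of the variable of a link -/
def lq (ν : Measure E3) : Measure XQ := ν.prod u8

/-- the law of the variables of all links -/
def ZQ (ν : Measure E3) : Measure (Lk → XQ) := infinitePi fun _ => lq ν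

instance (ν : Measure E3) [IsProbabilityMeasure ν] : IsProbabilityMeasure (lq ν) := by
  unfold lq
  infer_instance

instance (ν : Measure E3) [IsProbabilityMeasure ν] : IsProbabilityMeasure (ZQ ν) := by
  unfold ZQ
  infer_instance

section fin

variable {ι : Type} [Fintype ι] {ν : Measure E3} {B : Set E3} {d : E3 → ℝ}

/-- the chart map -/
def chm (b : ι → S3) (a : ι → E3) (P : (ι → E3) →ₗ[ℝ] (ι → E3)) (z : ι → E3) : ι → S3 :=
  fun i => e0 (a i + P z i) * b i

/-- the Jacobian with respect to the reference measure -/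
def jac (d : E3 → ℝ) (a : ι → E3) (P : (ι → E3) →ₗ[ℝ] (ι → E3)) (z : ι → E3) : ℝ :=
  |LinearMap.det P| * ∏ i, dH (a i + P z i) * d (z i)

theorem jac_nonneg (h : Ref ν B d) (a : ι → E3) (P : (ι → E3) →ₗ[ℝ] (ι → E3)) (z : ι → E3) :
    0 ≤ jac d a P z :=
  mul_nonneg (abs_nonneg _) (Finset.prod_nonneg fun _ _ => mul_nonneg (dH_nonneg _) (h.nn _))

theorem meas_jac (h : Ref ν B d) (a : ι → E3) (P : (ι → E3) →ₗ[ℝ] (ι → E3)) :
    Measurable (jac d a P) := by
  have := LinearMap.continuous_of_finiteDimensional P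
  exact measurable_const.mul (Finset.measurable_fun_prod _ fun i _ =>
    (meas_dH.comp (by fun_prop)).mul (h.md.comp (measurable_pi_apply i)))

theorem mp_chm (b : ι → S3) (a : ι → E3) {P : (ι → E3) →ₗ[ℝ] (ι → E3)}
    (hP : LinearMap.det P ≠ 0) :
    MeasurePreserving (chm b a P) ((volume : Measure (ι → E3)).withDensity fun z =>
      ENNReal.ofReal (|LinearMap.det P| * ∏ i, dH (a i + P z i)))
      ((Measure.pi fun _ => haar).restrict {u | ∀ i, u i * (b i)⁻¹ ∈ pos}) := by
  set d : E3 → ℝ≥0∞ := fun v => ENNReal.ofReal (dH v) with hd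
  have md : Measurable d := meas_dH.ennreal_ofReal
  have : IsFiniteMeasure ((volume : Measure E3).withDensity d) :=
    ⟨(mp_e0.measure_preimage (s := univ) MeasurableSet.univ.nullMeasurableSet).trans_lt
      (measure_lt_top _ _)⟩
  have h2 := measurePreserving_pi (fun _ : ι => _) (fun _ => _) fun _ => mp_e0
  have h3 := measurePreserving_pi (fun _ : ι => haar) (fun _ => haar)
    fun i => measurePreserving_mul_right haar (b i)
  have hS : MeasurableSet {u : ι → S3 | ∀ i, u i * (b i)⁻¹ ∈ pos} := by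
    rw [ofPred_forall]
    refine MeasurableSet.iInter fun i => ?_
    have m1 : Measurable fun u : ι → S3 => u i * (b i)⁻¹ := (measurable_pi_apply i).mul_const _
    exact m1 meas_pos
  have e1 : (fun (a : ι → S3) i => a i * b i) ⁻¹' {u : ι → S3 | ∀ i, u i * (b i)⁻¹ ∈ pos} =
      Set.pi univ fun _ => pos := by
    ext U
    simp
  have h4 := h3.restrict_preimage hS
  rw [e1, restrict_pi_pi] at h4
  have mD : Measurable fun v : ι → E3 => ∏ i, d (v i) :=
    Finset.measurable_fun_prod _ fun i _ => md.comp (measurable_pi_apply i)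
  have mP : Measurable P := (LinearMap.continuous_of_finiteDimensional P).measurable
  have h5 : MeasurePreserving (fun z => a + P z)
      ((volume : Measure (ι → E3)).withDensity fun z =>
        ENNReal.ofReal (|LinearMap.det P| * ∏ i, dH (a i + P z i)))
      (Measure.pi fun _ : ι => (volume : Measure E3).withDensity d) := by
    have m5 : Measurable fun z => a + P z := mP.const_add a
    refine ⟨m5, Measure.ext fun s hs => ?_⟩
    have mI : Measurable fun v : ι → E3 => s.indicator (fun v => ∏ i, d (v i)) (a + v) :=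
      (mD.indicator hs).comp (measurable_const_add a)
    have hG := lintegral_map (μ := (volume : Measure (ι → E3))) mI mP
    rw [map_linearMap_addHaar_eq_smul_addHaar _ hP, lintegral_smul_measure, smul_eq_mul,
      lintegral_add_left_eq_self (μ := (volume : Measure (ι → E3)))
        (s.indicator fun v => ∏ i, d (v i)) a, lintegral_indicator hs] at hG
    rw [map_apply m5 hs, withDensity_apply _ (m5 hs), pi_dens _ fun _ => md, ← volume_pi,
      withDensity_apply _ hs, ← lintegral_indicator (m5 hs)]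
    have e2 : ∀ z : ι → E3, ((fun z => a + P z) ⁻¹' s).indicator (fun z =>
        ENNReal.ofReal (|LinearMap.det P| * ∏ i, dH (a i + P z i))) z =
        ENNReal.ofReal |LinearMap.det P| * s.indicator (fun v => ∏ i, d (v i)) (a + P z) := by
      intro z
      by_cases hz : a + P z ∈ s
      · rw [indicator_of_mem (show z ∈ (fun z => a + P z) ⁻¹' s from hz), indicator_of_mem hz,
          ENNReal.ofReal_mul (abs_nonneg _),
          ENNReal.ofReal_prod_of_nonneg fun i _ => dH_nonneg _]
        rfl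
      · rw [indicator_of_notMem (show z ∉ (fun z => a + P z) ⁻¹' s from hz),
          indicator_of_notMem hz, mul_zero]
    simp only [e2]
    rw [lintegral_const_mul' _ _ ENNReal.ofReal_ne_top, ← hG, ← mul_assoc,
      ← ENNReal.ofReal_mul (abs_nonneg _), ← abs_mul, mul_inv_cancel₀ hP, abs_one,
      ENNReal.ofReal_one, one_mul]
  exact (h4.comp h2).comp h5

theorem dens_eq (h : Ref ν B d) (a : ι → E3) (P : (ι → E3) →ₗ[ℝ] (ι → E3)) :
    ((Measure.pi fun _ : ι => ν).withDensity fun z => ENNReal.ofReal (jac d a P z)) =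
      ((volume : Measure (ι → E3)).withDensity fun z =>
        ENNReal.ofReal (|LinearMap.det P| * ∏ i, dH (a i + P z i))).restrict
        (Set.pi univ fun _ => B) := by
  have := h.prob
  have mP := LinearMap.continuous_of_finiteDimensional P
  have mg : Measurable fun v => ENNReal.ofReal (d v) := h.md.ennreal_ofReal
  have : SigmaFinite (ν.withDensity fun v => ENNReal.ofReal (d v)) := by
    rw [h.dens]
    infer_instance
  have h1 := pi_dens (ι := ι) ν fun _ => mg
  simp only [h.dens] at h1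
  have m1 : Measurable fun z : ι → E3 => ∏ i, ENNReal.ofReal (d (z i)) :=
    Finset.measurable_fun_prod _ fun i _ => mg.comp (measurable_pi_apply i)
  have m2 : Measurable fun z : ι → E3 =>
      ENNReal.ofReal (|LinearMap.det P| * ∏ i, dH (a i + P z i)) :=
    (measurable_const.mul (Finset.measurable_fun_prod _ fun i _ =>
      meas_dH.comp (by fun_prop))).ennreal_ofReal
  rw [restrict_withDensity (MeasurableSet.univ_pi fun _ => h.mB), volume_pi,
    restrict_pi_pi, h1, ← withDensity_mul _ m1 m2]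
  congr 1
  funext z
  rw [Pi.mul_apply, ← ENNReal.ofReal_prod_of_nonneg fun i _ => h.nn _,
    ← ENNReal.ofReal_mul (Finset.prod_nonneg fun i _ => h.nn _), jac, Finset.prod_mul_distrib]
  congr 1
  ring

/-- one chart -/
theorem lint_chm (h : Ref ν B d) (b : ι → S3) (a : ι → E3) {P : (ι → E3) →ₗ[ℝ] (ι → E3)}
    (hP : LinearMap.det P ≠ 0) {G : (ι → S3) → ℝ≥0∞} (hG : Measurable G)
    (h0 : ∀ u, G u ≠ 0 → ∀ i, u i * (b i)⁻¹ ∈ pos)
    (h1 : ∀ z, (∀ i, ‖a i + P z i‖ < 2) → G (chm b a P z) ≠ 0 → ∀ i, z i ∈ B) :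
    ∫⁻ u, G u ∂(Measure.pi fun _ => haar) =
      ∫⁻ z, ENNReal.ofReal (jac d a P z) * G (chm b a P z) ∂(Measure.pi fun _ => ν) := by
  have hm := mp_chm b a hP
  have mF : Measurable fun z => G (chm b a P z) := hG.comp hm.measurable
  have mP := LinearMap.continuous_of_finiteDimensional P
  have hS : MeasurableSet (Set.pi univ fun _ : ι => B) := MeasurableSet.univ_pi fun _ => h.mB
  have m2 : Measurable fun z : ι → E3 =>
      ENNReal.ofReal (|LinearMap.det P| * ∏ i, dH (a i + P z i)) :=
    (measurable_const.mul (Finset.measurable_fun_prod _ fun i _ =>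
      meas_dH.comp (by fun_prop))).ennreal_ofReal
  rw [← setLIntegral_eq_of_support_subset (s := {u : ι → S3 | ∀ i, u i * (b i)⁻¹ ∈ pos})
    fun u hu => h0 u hu, ← hm.lintegral_comp hG, ← lintegral_add_compl _ hS, ← dens_eq h,
    lintegral_withDensity_eq_lintegral_mul _ (meas_jac h a P).ennreal_ofReal mF,
    setLIntegral_withDensity_eq_setLIntegral_mul _ m2 mF hS.compl,
    setLIntegral_eq_zero hS.compl, add_zero]
  · rfl
  · intro z hz
    by_contra hc
    refine hz fun i _ => h1 z (fun j => by_contra fun hj => left_ne_zero_of_mul hc ?_)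
      (right_ne_zero_of_mul hc) i
    beta_reduce
    rw [Finset.prod_eq_zero (Finset.mem_univ j) (by rw [dH, hd, if_neg hj, mul_zero]), mul_zero,
      ENNReal.ofReal_zero]

/-- the global chart map -/
def chq (b : ι → S3) (a : ι → E3) (P : (ι → E3) →ₗ[ℝ] (ι → E3)) (w : ι → XQ) : ι → S3 :=
  fun i => e0 (a i + P (fun i => (w i).1) i) * q8 (w i).2 * b i

/-- its Jacobian -/
def jq (d : E3 → ℝ) (a : ι → E3) (P : (ι → E3) →ₗ[ℝ] (ι → E3)) (w : ι → XQ) : ℝ :=
  |LinearMap.det P| * ∏ i, NG * th (w i).2 (a i + P (fun i => (w i).1) i) *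
    dH (a i + P (fun i => (w i).1) i) * d (w i).1

theorem jq_eq (d : E3 → ℝ) (a : ι → E3) (P : (ι → E3) →ₗ[ℝ] (ι → E3)) (w : ι → XQ) :
    jq d a P w = jac d a P (fun i => (w i).1) *
      ∏ i, NG * th (w i).2 (a i + P (fun i => (w i).1) i) := by
  simp only [jq, jac, Finset.prod_mul_distrib]
  ring

omit [Fintype ι] in
theorem meas_fst : Measurable fun (w : ι → XQ) i => (w i).1 :=
  measurable_pi_lambda _ fun i => (measurable_pi_apply i).fst

theorem meas_aff (a : ι → E3) (P : (ι → E3) →ₗ[ℝ] (ι → E3)) (i : ι) :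
    Measurable fun w : ι → XQ => a i + P (fun i => (w i).1) i :=
  (((measurable_pi_apply i).comp
    (LinearMap.continuous_of_finiteDimensional P).measurable).comp meas_fst).const_add _

theorem meas_chq (b : ι → S3) (a : ι → E3) (P : (ι → E3) →ₗ[ℝ] (ι → E3)) :
    Measurable (chq b a P) := measurable_pi_lambda _ fun i =>
  ((meas_e0.comp (meas_aff a P i)).mul
    ((measurable_of_countable q8).comp (measurable_pi_apply i).snd)).mul_const _

theorem meas_jq (h : Ref ν B d) (a : ι → E3) (P : (ι → E3) →ₗ[ℝ] (ι → E3)) :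
    Measurable (jq d a P) :=
  measurable_const.mul (Finset.measurable_fun_prod _ fun i _ =>
    (((meas_th.comp ((measurable_pi_apply i).snd.prodMk (meas_aff a P i))).const_mul _).mul
      (meas_dH.comp (meas_aff a P i))).mul (h.md.comp (measurable_pi_apply i).fst))

/-- the global change of variables for finitely many links -/
theorem mp_chq (h : Ref ν B d) (b : ι → S3) (a : ι → E3) {P : (ι → E3) →ₗ[ℝ] (ι → E3)}
    (hP : LinearMap.det P ≠ 0) (hB : ∀ z, (∀ i, ‖a i + P z i‖ ^ 2 ≤ 3) → ∀ i, z i ∈ B) :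
    MeasurePreserving (chq b a P)
      ((Measure.pi fun _ => lq ν).withDensity fun w => ENNReal.ofReal (jq d a P w))
      (Measure.pi fun _ => haar) := by
  classical
  have := h.prob
  have mc := meas_chq b a P
  have mj := (meas_jq h a P).ennreal_ofReal
  refine ⟨mc, Measure.ext_of_lintegral _ fun G hG => ?_⟩
  have mG : Measurable fun w => G (chq b a P w) := hG.comp mc
  have hA := (measurePreserving_arrowProdEquivProdArrow E3 (Fin NG) ι (fun _ => ν)
    fun _ => u8).symm
  set I : (ι → Fin NG) → (ι → S3) → ℝ≥0∞ := fun σ u =>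
    ∏ i, (pie (σ i)).indicator 1 (u i * (b i)⁻¹) with hI
  have mI : ∀ σ, Measurable (I σ) := fun σ => Finset.measurable_fun_prod _ fun i _ =>
    (measurable_one.indicator (meas_pie _)).comp ((measurable_pi_apply i).mul_const _)
  have sI : ∀ u, ∑ σ, I σ u = 1 := by
    intro u
    rw [hI, ← Fintype.piFinset_univ, ← Finset.prod_univ_sum (fun _ => Finset.univ)
      fun i s => (pie s).indicator (1 : S3 → ℝ≥0∞) (u i * (b i)⁻¹)]
    refine Finset.prod_eq_one fun i _ => ?_
    obtain ⟨s, hs, hu⟩ := pie_unique (u i * (b i)⁻¹)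
    rw [Finset.sum_eq_single s (fun t _ ht => indicator_of_notMem (fun hc => ht (hu t hc)) _)
      (by simp), indicator_of_mem hs, Pi.one_apply]
  have nI : ∀ σ u, I σ u ≠ 0 → ∀ i, u i * (b i)⁻¹ ∈ pie (σ i) := fun σ u hu i =>
    by_contra fun hc => hu (Finset.prod_eq_zero (Finset.mem_univ i) (indicator_of_notMem hc _))
  have key : ∀ σ, ∫⁻ u, I σ u * G u ∂(Measure.pi fun _ => haar) =
      ∫⁻ z, ENNReal.ofReal (jac d a P z) * (I σ (chm (fun i => q8 (σ i) * b i) a P z) *
        G (chm (fun i => q8 (σ i) * b i) a P z)) ∂(Measure.pi fun _ => ν) := by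
    intro σ
    refine lint_chm h _ a hP ((mI σ).mul hG) (fun u hu i => ?_) fun z h2 hz => hB z fun i => ?_
    · have := (nI σ u (left_ne_zero_of_mul hu) i).1
      rw [mul_inv_rev, ← mul_assoc]
      exact image_mono (fun v hv => mem_ball_zero_iff.2 (le_two hv)) this
    · have := (nI σ _ (left_ne_zero_of_mul hz) i).1
      rwa [chm, ← mul_assoc, mul_inv_cancel_right, mul_inv_cancel_right, half_le (h2 i)] at this
  have w8 : ∀ σ : ι → Fin NG, (Measure.pi fun _ : ι => u8) {σ} = ∏ _i : ι, (NG : ℝ≥0∞)⁻¹ := by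
    intro σ
    rw [← univ_pi_singleton, pi_pi]
    simp [u8]
  rw [lintegral_map hG mc, lintegral_withDensity_eq_lintegral_mul _ mj mG]
  unfold lq
  rw [← hA.lintegral_comp (mj.mul mG)]
  refine ((lintegral_prod_symm _ ((mj.mul mG).comp hA.measurable).aemeasurable).trans
    (lintegral_fintype _)).trans ?_
  symm
  calc ∫⁻ u, G u ∂(Measure.pi fun _ => haar)
      = ∫⁻ u, ∑ σ, I σ u * G u ∂(Measure.pi fun _ => haar) := by
        simp only [← Finset.sum_mul, sI, one_mul]
    _ = ∑ σ, ∫⁻ u, I σ u * G u ∂(Measure.pi fun _ => haar) :=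
        lintegral_finsetSum _ fun σ _ => (mI σ).mul hG
    _ = _ := by
        refine Finset.sum_congr rfl fun σ _ => ?_
        rw [key, w8, ← lintegral_mul_const' _ _ (ENNReal.prod_ne_top fun _ _ => by simp [NeZero.ne])]
        refine lintegral_congr fun z => ?_
        have e1 : chm (fun i => q8 (σ i) * b i) a P z = chq b a P fun i => (z i, σ i) := by
          funext i
          simp only [chm, chq, mul_assoc]
        by_cases h2 : ∀ i, ‖a i + P z i‖ < 2
        swap
        · obtain ⟨j, hj⟩ := not_forall.1 h2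
          have : jac d a P z = 0 := by
            rw [jac, Finset.prod_eq_zero (Finset.mem_univ j) (by
              rw [dH, hd, if_neg hj, mul_zero, zero_mul]), mul_zero]
          change _ = ENNReal.ofReal (jq d a P fun i => (z i, σ i)) * _ * _
          rw [jq_eq, this, zero_mul, ENNReal.ofReal_zero, zero_mul, zero_mul, zero_mul]
        have e2 : I σ (chq b a P fun i => (z i, σ i)) =
            ENNReal.ofReal (∏ i, NG * th (σ i) (a i + P z i)) * ∏ _i : ι, (NG : ℝ≥0∞)⁻¹ := by
          rw [ENNReal.ofReal_prod_of_nonneg fun i _ => mul_nonneg (Nat.cast_nonneg _) (th_nonneg _ _),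
            ← Finset.prod_mul_distrib, hI]
          refine Finset.prod_congr rfl fun i _ => ?_
          simp only [chq, mul_inv_cancel_right, th, indicator, h2 i, true_and]
          split_ifs
          · simp [ENNReal.mul_inv_cancel, NeZero.ne]
          · simp
        change _ = ENNReal.ofReal (jq d a P fun i => (z i, σ i)) *
          G (chq b a P fun i => (z i, σ i)) * _
        rw [e1, e2, jq_eq, ENNReal.ofReal_mul (jac_nonneg h _ _ _)]
        ring

end fin

end Pool.Agent.Lib.MP_7f377f_mp.RG.Q4
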