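import Pool.Agent.Lib.MP_7f377f_mp.G.GLocM

/-! Nearest points of a compact group of orthogonal matrices. -/

noncomputable section

namespace Pool.Agent.Lib.MP_7f377f_mp.GE

open NormedSpace Filter Topology Set Matrix

theorem exp_rem {A : Type*} [NormedRing A] [NormedAlgebra ℝ A] [CompleteSpace A] {x : A}
    (h : ‖x‖ ≤ 1) : ‖exp x - 1 - x‖ ≤ ‖x‖ ^ 2 := by
  have h1 := (hasSum_nat_add_iff' 2).2 (exp_series_hasSum_exp' (𝕂 := ℝ) x)
  have h2 := (hasSum_nat_add_iff' 2).2 (exp_series_hasSum_exp' (𝕂 := ℝ) ‖x‖)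
  simp only [Finset.sum_range_succ, Finset.range_zero, Finset.sum_empty, Nat.factorial_zero,
    Nat.factorial_one, Nat.cast_one, inv_one, pow_zero, pow_one, one_smul, zero_add, ← sub_sub,
    ← Real.exp_eq_exp_ℝ] at h1 h2
  refine (h1.norm_le_of_bounded h2 fun k => ?_).trans ((le_abs_self _).trans
    (Real.abs_exp_sub_one_sub_id_le (by rwa [abs_norm])))
  rw [norm_smul, smul_eq_mul, Real.norm_of_nonneg (by positivity)]
  exact mul_le_mul_of_nonneg_left (norm_pow_le' x (by omega)) (by positivity)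

/-- a minimiser over a compact space is continuous at the points where it is unique -/
theorem argmin_cont {X G : Type*} [TopologicalSpace X] [TopologicalSpace G] [CompactSpace G]
    (F : X → G → ℝ) (hF : Continuous fun p : X × G => F p.1 p.2) (m : X → G)
    (hm : ∀ x g, F x (m x) ≤ F x g) {x : X} (hu : ∀ g, (∀ h, F x g ≤ F x h) → g = m x) :
    ContinuousAt m x := by
  refine tendsto_nhds_of_unique_mapClusterPt fun y hy => hu y fun h => not_lt.1 fun hl => ?_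
  have ho : IsOpen {p : X × G | F p.1 h < F p.1 p.2} :=
    isOpen_lt (hF.comp (continuous_fst.prodMk continuous_const)) hF
  obtain ⟨U, hU, V, hV, hs⟩ := mem_nhds_prod_iff.1 (ho.mem_nhds (x := (x, y)) hl)
  obtain ⟨z, h1, h2⟩ := ((mapClusterPt_iff_frequently.1 hy V hV).and_eventually hU).exists
  exact not_lt.2 (hm z h) (hs (mk_mem_prod h2 h1))

open scoped Matrix.Norms.Frobenius

variable {N : ℕ}

theorem tr_self (X : MR N) : trace (Xᵀ * X) = ‖X‖ ^ 2 := by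
  rw [fro_eq, Real.sq_sqrt (by positivity), Finset.sum_comm]
  simp [trace, mul_apply, sq]

theorem tr_le (X Y : MR N) : |trace (Xᵀ * Y)| ≤ ‖X‖ * ‖Y‖ := by
  have e : trace (Xᵀ * Y) = ∑ p : Fin N × Fin N, X p.1 p.2 * Y p.1 p.2 := by
    rw [Fintype.sum_prod_type, Finset.sum_comm]
    simp [trace, mul_apply]
  rw [e, fro_eq, fro_eq, ← Fintype.sum_prod_type', ← Fintype.sum_prod_type', ← Real.sqrt_mul
    (by positivity)]
  exact Real.abs_le_sqrt (Finset.sum_mul_sq_le_sq_mul_sq _ _ _)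

theorem fro_r {P : MR N} (h : Pᵀ * P = 1) (X : MR N) : ‖X * P‖ = ‖X‖ := by
  rw [← sq_eq_sq₀ (norm_nonneg _) (norm_nonneg _), ← tr_self, ← tr_self, transpose_mul,
    Matrix.mul_assoc, trace_mul_comm, Matrix.mul_assoc, Matrix.mul_assoc, mul_eq_one_comm.1 h,
    Matrix.mul_one]

theorem fro_l {P : MR N} (h : Pᵀ * P = 1) (X : MR N) : ‖P * X‖ = ‖X‖ := by
  rw [← sq_eq_sq₀ (norm_nonneg _) (norm_nonneg _), ← tr_self, ← tr_self, transpose_mul,
    Matrix.mul_assoc, ← Matrix.mul_assoc Pᵀ, h, Matrix.one_mul]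

set_option backward.isDefEq.respectTransparency false in
theorem exp_rem_mat {X : MR N} (h : ‖X‖ ≤ 1) : ‖exp X - 1 - X‖ ≤ ‖X‖ ^ 2 := exp_rem h

variable {G : Type*} [Group G] (ρ : G →* MR N) (ho : ∀ a, (ρ a)ᵀ * ρ a = 1)
  (g : Submodule ℝ (MR N)) (hm : ∀ X ∈ g, exp X ∈ range ρ) {δ : ℝ}
  (hl : ∀ a, ‖ρ a - 1‖ ≤ δ → ∃ X ∈ g, ρ a = exp X ∧ ‖X‖ ≤ 2 * ‖ρ a - 1‖)

include ho in
theorem fro_sub (a b : G) : ‖ρ (a * b⁻¹) - 1‖ = ‖ρ a - ρ b‖ := by
  rw [← fro_r (ho b), Matrix.sub_mul, ← map_mul, inv_mul_cancel_right, Matrix.one_mul]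

include ho hm in
set_option backward.isDefEq.respectTransparency false in
/-- a nearest point is critical -/
theorem crit_of_min {M : MR N} {a : G} (h : ∀ b, ‖M - ρ a‖ ≤ ‖M - ρ b‖) {X : MR N} (hX : X ∈ g) :
    trace (Xᵀ * (M * (ρ a)ᵀ)) = 0 := by
  have sq : ∀ b, ‖M - ρ b‖ ^ 2 = trace (Mᵀ * M) + N - 2 * trace ((ρ b)ᵀ * M) := fun b => by
    have : trace (Mᵀ * ρ b) = trace ((ρ b)ᵀ * M) := by
      rw [← trace_transpose, transpose_mul, transpose_transpose]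
    rw [← tr_self, transpose_sub, Matrix.sub_mul, Matrix.mul_sub, Matrix.mul_sub, ho, trace_sub,
      trace_sub, trace_sub, this, trace_one, Fintype.card_fin]
    ring
  let L : MR N →L[ℝ] ℝ := LinearMap.toContinuousLinearMap
    { toFun := fun Y => trace (Yᵀ * (M * (ρ a)ᵀ))
      map_add' := fun Y Z => by simp [Matrix.add_mul]
      map_smul' := fun c Y => by simp }
  have hd : HasDerivAt (fun s : ℝ => L (exp (s • X))) (L X) 0 := by
    have := L.hasFDerivAt.comp_hasDerivAt 0 (hasDerivAt_exp_smul_const (𝕂 := ℝ) X 0)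
    rwa [zero_smul, exp_zero, one_mul] at this
  refine IsLocalMax.hasDerivAt_eq_zero (Eventually.of_forall fun s => ?_) hd
  obtain ⟨c, hc⟩ := hm _ (g.smul_mem s hX)
  have e : ∀ c, L (ρ c) = trace ((ρ (c * a))ᵀ * M) := fun c => by
    show trace ((ρ c)ᵀ * (M * (ρ a)ᵀ)) = _
    rw [map_mul, transpose_mul, ← Matrix.mul_assoc, trace_mul_comm, Matrix.mul_assoc]
  have := pow_le_pow_left₀ (norm_nonneg _) (h (c * a)) 2
  rw [sq, sq] at this
  simp only [zero_smul, exp_zero]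
  rw [← hc, ← map_one ρ, e, e, one_mul]
  linarith

include ho hl in
/-- critical points near the matrix are unique -/
theorem crit_uniq (hi : Function.Injective ρ) {M : MR N} {a b : G} {ε : ℝ} (ha : ‖M - ρ a‖ ≤ ε)
    (hb : ‖M - ρ b‖ ≤ ε) (h1 : 2 * ε ≤ δ) (h2 : ε ≤ 1 / 10)
    (ca : ∀ X ∈ g, trace (Xᵀ * (M * (ρ a)ᵀ)) = 0) (cb : ∀ X ∈ g, trace (Xᵀ * (M * (ρ b)ᵀ)) = 0) :
    a = b := by
  have n1 : ‖ρ (a * b⁻¹) - 1‖ ≤ 2 * ε := by
    rw [fro_sub ρ ho]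
    have := norm_sub_le_norm_sub_add_norm_sub (ρ a) M (ρ b)
    rw [norm_sub_rev (ρ a) M] at this
    linarith
  obtain ⟨X, hX, e, n2⟩ := hl _ (n1.trans h1)
  have x0 := norm_nonneg X
  have n3 : ‖X‖ ≤ 2 / 5 := by linarith
  obtain ⟨D, hD⟩ : ∃ D, D = M * (ρ a)ᵀ - 1 := ⟨_, rfl⟩
  have n4 : ‖D‖ ≤ 1 / 10 := by
    rw [← fro_r (ho a), hD, Matrix.sub_mul, Matrix.mul_assoc, ho, Matrix.mul_one, Matrix.one_mul]
    linarith
  obtain ⟨r, hr⟩ : ∃ r, r = exp X - 1 - X := ⟨_, rfl⟩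
  have n5 : ‖r‖ ≤ ‖X‖ ^ 2 := hr ▸ exp_rem_mat (by linarith)
  have e1 : M * (ρ b)ᵀ = M * (ρ a)ᵀ + (X + (r + D * (X + r))) := by
    have : M * (ρ b)ᵀ = M * (ρ a)ᵀ * exp X := by
      rw [← e, map_mul, rho_inv ρ ho, Matrix.mul_assoc, ← Matrix.mul_assoc _ (ρ a), ho,
        Matrix.one_mul]
    rw [this, hD, hr]
    noncomm_ring
  have e2 := cb X hX
  rw [e1, Matrix.mul_add, Matrix.mul_add, trace_add, trace_add, ca X hX, zero_add, tr_self] at e2
  have n6 : ‖r + D * (X + r)‖ ≤ ‖X‖ ^ 2 + 1 / 10 * (‖X‖ + ‖X‖ ^ 2) :=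
    norm_add_le_of_le n5 ((norm_mul_le _ _).trans (mul_le_mul n4 (norm_add_le_of_le le_rfl n5)
      (norm_nonneg _) (by norm_num)))
  have n7 := (neg_le_abs _).trans ((tr_le X _).trans (mul_le_mul_of_nonneg_left n6 x0))
  have n8 : ‖X‖ ^ 2 ≤ 0 := by nlinarith [mul_nonneg x0 x0]
  have x1 : X = 0 := norm_eq_zero.1 (pow_eq_zero_iff two_ne_zero |>.1 (le_antisymm n8 (by positivity)))
  rw [x1, exp_zero, ← map_one ρ] at e
  exact mul_inv_eq_one.1 (hi e)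

include ho hm hl in
/-- an average of close elements of the group is close to the group to second order -/
theorem avg_near {ι : Type*} (s : Finset ι) (w : ι → ℝ) (hw : ∀ i ∈ s, 0 ≤ w i)
    (h1 : ∑ i ∈ s, w i = 1) (a : ι → G) (a0 : G) {ε : ℝ} (ha : ∀ i ∈ s, ‖ρ (a i) - ρ a0‖ ≤ ε)
    (h2 : ε ≤ δ) (h3 : ε ≤ 1 / 2) : ∃ b, ‖∑ i ∈ s, w i • ρ (a i) - ρ b‖ ≤ 8 * ε ^ 2 := by
  classical
  have : ∀ i, ∃ X, i ∈ s → X ∈ g ∧ ρ (a i * a0⁻¹) = exp X ∧ ‖X‖ ≤ 2 * ε := fun i => by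
    by_cases hi : i ∈ s
    · have := ha i hi
      rw [← fro_sub ρ ho] at this
      obtain ⟨X, hX, e, n⟩ := hl _ (this.trans h2)
      exact ⟨X, fun _ => ⟨hX, e, by linarith⟩⟩
    · exact ⟨0, fun h => absurd h hi⟩
  choose X hX using this
  have av : ∀ (f : ι → MR N) (c : ℝ), (∀ i ∈ s, ‖f i‖ ≤ c) → ‖∑ i ∈ s, w i • f i‖ ≤ c :=
    fun f c h => by
    refine (norm_sum_le_of_le (n := fun i => w i * c) _ fun i hi => ?_).trans_eq ?_
    · rw [norm_smul, Real.norm_of_nonneg (hw i hi)]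
      exact mul_le_mul_of_nonneg_left (h i hi) (hw i hi)
    · rw [← Finset.sum_mul, h1, one_mul]
  have rm : ∀ Y : MR N, ‖Y‖ ≤ 2 * ε → ‖exp Y - 1 - Y‖ ≤ 4 * ε ^ 2 := fun Y h =>
    (exp_rem_mat (by linarith)).trans ((pow_le_pow_left₀ (norm_nonneg _) h 2).trans_eq (by ring))
  obtain ⟨c, hc⟩ := hm _ (g.sum_mem fun i hi => g.smul_mem (w i) (hX i hi).1)
  refine ⟨c * a0, ?_⟩
  have n1 := av (fun i => exp (X i) - 1 - X i) _ fun i hi => rm _ (hX i hi).2.2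
  have n2 := rm _ (av X _ fun i hi => (hX i hi).2.2)
  refine le_trans (le_of_eq ?_) ((norm_sub_le_of_le n1 n2).trans_eq (by ring))
  refine Eq.trans (congrArg _ ?_) (fro_r (ho a0) _)
  have e : ∑ i ∈ s, w i • ρ (a i) = (∑ i ∈ s, w i • exp (X i)) * ρ a0 := by
    rw [Finset.sum_mul]
    refine Finset.sum_congr rfl fun i hi => ?_
    rw [← (hX i hi).2.1, smul_mul_assoc, ← map_mul, inv_mul_cancel_right]
  rw [e, map_mul, hc, ← Matrix.sub_mul]
  congr 1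
  simp only [smul_sub, Finset.sum_sub_distrib, ← Finset.sum_smul, h1, one_smul]
  abel

include hl in
/-- second order expansion of the elements near the identity -/
theorem loc_rem (a : G) (h1 : ‖ρ a - 1‖ ≤ δ) (h2 : ‖ρ a - 1‖ ≤ 1 / 2) :
    ∃ X ∈ g, ‖ρ a - 1 - X‖ ≤ 4 * ‖ρ a - 1‖ ^ 2 := by
  obtain ⟨X, hX, e, n⟩ := hl a h1
  refine ⟨X, hX, ?_⟩
  nth_rw 1 [e]
  exact (exp_rem_mat (by linarith)).trans ((pow_le_pow_left₀ (norm_nonneg _) n 2).trans_eq (by ring))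

end Pool.Agent.Lib.MP_7f377f_mp.GE
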