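import Pool.Agent.Lib.MP_7f377f_mp.G.RGAlg
import Pool.Agent.Lib.MP_7f377f_mp.G.GNr0

/-! The projection to the nearest point of the group. -/

noncomputable section

set_option linter.unusedSectionVars false
variable [Pool.Agent.Lib.MP_7f377f_mp.GD]

namespace Pool.Agent.Lib.MP_7f377f_mp.RG.Q4

open Finset MeasureTheory Matrix

/-- not within distance one of the group -/
def Off (q : Hr) : Prop := ¬(q.re = 1 ∧ ∃ g : S3, ‖q - g.q‖ < 1)

/-- a nearest point of the group -/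
def nr0 (q : Hr) : S3 := @Classical.epsilon S3 ⟨1⟩ fun g => ∀ h : S3, ‖q - g.q‖ ≤ ‖q - h.q‖

open Classical in
/-- nearest point of the group, with value `d` far from the group -/
def nr (q : Hr) (d : S3) : S3 := if Off q then d else nr0 q

variable {q : Hr} {g : S3}

namespace Gn
open scoped Matrix.Norms.Frobenius

/-- the representation -/
def rh : S3 →* GE.MR GD.n := GD.rho

theorem orth (g : S3) : (rh g)ᵀ * rh g = 1 := GD.orth g

theorem q_def (g : S3) : g.q = ⟨1, rh g - 1⟩ := rfl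

theorem q_mul (g h : S3) : (g * h).q = g.q * h.q := Un.ext (by simp [q_def]) (by
  simp only [q_def, map_mul, Un.m_mul, one_smul]
  noncomm_ring)

theorem q_one : (1 : S3).q = 1 := Un.ext rfl (by simp [q_def])

theorem q_inv (g : S3) : g⁻¹.q = star g.q := Un.ext rfl (by
  simp only [q_def, GE.rho_inv rh GD.orth, Un.m_star, transpose_sub, transpose_one])

theorem cont_q : Continuous S3.q := (LinearMap.continuous_of_finiteDimensional
  ({ toFun := fun x => ⟨x.1, x.2⟩, map_add' := fun _ _ => rfl, map_smul' := fun _ _ => rfl } :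
    ℝ × GE.MR GD.n →ₗ[ℝ] Hr)).comp (continuous_const.prodMk (GD.cont.sub continuous_const))

theorem cont_re : Continuous (Un.re : Hr → ℝ) := LinearMap.continuous_of_finiteDimensional
  ({ toFun := Un.re, map_add' := fun _ _ => rfl, map_smul' := fun _ _ => rfl } : Hr →ₗ[ℝ] ℝ)

end Gn

open Gn

section mat
open scoped Matrix.Norms.Frobenius

theorem norm_q_mul (g : S3) {p : Hr} (h : p.re = 0) : ‖g.q * p‖ = ‖p‖ := by
  have : (g.q * p).m = rh g * p.m := by simp [q_def, h, Matrix.sub_mul]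
  rw [Un.norm_def, Un.norm_def, this, GE.fro_l (orth g), Un.re_mul, h, mul_zero]

theorem norm_mul_q (g : S3) {p : Hr} (h : p.re = 0) : ‖p * g.q‖ = ‖p‖ := by
  have : (p * g.q).m = p.m * rh g := by simp [q_def, h, Matrix.mul_sub]
  rw [Un.norm_def, Un.norm_def, this, GE.fro_r (orth g), Un.re_mul, h, zero_mul]

theorem q_diam (g h : S3) : ‖g.q - h.q‖ ≤ cG := by
  have n : ∀ g : S3, ‖rh g‖ ≤ GD.n := fun g => by
    have : ‖rh g‖ ^ 2 = GD.n := by rw [← GE.tr_self, orth, trace_one, Fintype.card_fin]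
    exact abs_le_of_sq_le_sq' (by rw [this]; exact_mod_cast Nat.le_self_pow two_ne_zero _)
      (Nat.cast_nonneg _) |>.2
  refine le_trans ?_ GD.tn_le
  simp only [Un.norm_def, q_def, Un.re_sub, Un.m_sub, sub_self, norm_zero, zero_add,
    sub_sub_sub_cancel_right]
  exact mul_le_mul_of_nonneg_left ((norm_sub_le_of_le (n g) (n h)).trans (by linarith)) GD.t_pos.le

end mat

theorem nr0_le (q : Hr) (g : S3) : ‖q - (nr0 q).q‖ ≤ ‖q - g.q‖ := by
  obtain ⟨a, -, ha⟩ := isCompact_univ.exists_isMinOn (f := fun g : S3 => ‖q - g.q‖) ⟨1, trivial⟩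
    (continuous_const.sub cont_q).norm.continuousOn
  exact Classical.epsilon_spec (p := fun g : S3 => ∀ h : S3, ‖q - g.q‖ ≤ ‖q - h.q‖)
    ⟨a, fun h => ha trivial⟩ g

theorem not_off (h1 : q.re = 1) (h : ‖q - g.q‖ < 1) : ¬Off q := fun o => o ⟨h1, g, h⟩

theorem nr_off (h : Off q) (d : S3) : nr q d = d := if_pos h

theorem nr_on (h : ¬Off q) (d : S3) : nr q d = nr0 q := if_neg h

theorem nr_le (h : ¬Off q) (d g : S3) : ‖q - (nr q d).q‖ ≤ ‖q - g.q‖ := nr_on h d ▸ nr0_le q g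

theorem q_re (g : S3) : g.q.re = 1 := rfl

theorem re_q_sub (g h : S3) : (g.q - h.q).re = 0 := by simp [q_def]

theorem re_conj (h : q.re = 1) (a b : S3) : (a.q * q * b.q).re = 1 := by simp [q_def, h]

theorem norm_conj (h : q.re = 1) (a b g : S3) :
    ‖a.q * q * b.q - (a * g * b).q‖ = ‖q - g.q‖ := by
  have z : (q - g.q).re = 0 := by simp [q_def, h]
  rw [q_mul, q_mul, ← sub_mul, ← mul_sub, norm_mul_q _ (by simp only [Un.re_mul, z, mul_zero]),
    norm_q_mul _ z]

theorem off_mul (a b : S3) : Off (a.q * q * b.q) ↔ Off q := by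
  refine not_congr ⟨fun ⟨h, g, hg⟩ => ?_, fun ⟨h, g, hg⟩ =>
    ⟨re_conj h a b, _, (norm_conj h a b g).trans_lt hg⟩⟩
  have h1 : q.re = 1 := by simpa [q_def] using h
  exact ⟨h1, a⁻¹ * g * b⁻¹, by rw [← norm_conj h1 a b]; simpa [mul_assoc] using hg⟩

theorem norm_star_sub (q : Hr) (g : S3) : ‖star q - g⁻¹.q‖ = ‖q - g.q‖ := by
  rw [q_inv, ← star_sub, norm_star]

theorem off_star : Off (star q) ↔ Off q :=
  not_congr ⟨fun ⟨h, g, hg⟩ => ⟨by simpa using h, g⁻¹, by rwa [← norm_star_sub, inv_inv]⟩,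
    fun ⟨h, g, hg⟩ => ⟨by simpa using h, g⁻¹, by rwa [norm_star_sub]⟩⟩

section mat
open scoped Matrix.Norms.Frobenius

theorem norm_mat (h : q.re = 1) (g : S3) : ‖q - g.q‖ = GD.t * ‖q.m + 1 - rh g‖ := by
  simp [Un.norm_def, q_def, h, sub_sub_eq_add_sub]

theorem exp_mem' : ∀ X ∈ Submodule.span ℝ (Set.range GD.e), NormedSpace.exp X ∈ Set.range rh :=
  fun _ => GD.exp_mem

theorem loc' : ∀ a : S3, ‖rh a - 1‖ ≤ 100 / GD.t → ∃ X ∈ Submodule.span ℝ (Set.range GD.e),
    rh a = NormedSpace.exp X ∧ ‖X‖ ≤ 2 * ‖rh a - 1‖ := fun a h => by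
  simp only [GE.fro_eq] at h ⊢
  exact GD.loc a ((le_div_iff₀' GD.t_pos).1 h)

theorem crit_iff (h : q.re = 1) : co (cq q * star (cS g)) = 0 ↔
    ∀ X ∈ Submodule.span ℝ (Set.range GD.e), trace (Xᵀ * ((q.m + 1) * (rh g)ᵀ)) = 0 := by
  have e : ∀ k, co (cq q * star (cS g)) k =
      (GD.t ^ 2 * trace ((GD.e k)ᵀ * ((q.m + 1) * (rh g)ᵀ)) : ℝ) := fun k => by
    have e0 : trace (GD.e k)ᵀ = 0 := by
      have := congrArg trace (GD.anti k)
      rw [trace_neg, ← trace_transpose (GD.e k)] at this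
      linarith
    have e1 : (q * star g.q).m = (q.m + 1) * (rh g)ᵀ - 1 := by
      simp only [Un.m_mul, Un.m_star, Un.re_star, q_def, h, one_smul, transpose_sub, transpose_one]
      noncomm_ring
    have e2 : cq q * star (cS g) = cq (q * star g.q) := by ext <;> simp [cS, cq, mul_apply]
    rw [e2, ← sub_zero (trace _), ← e0, ← Matrix.mul_one (GD.e k)ᵀ,
      Matrix.mul_assoc, Matrix.one_mul, ← trace_sub, ← Matrix.mul_sub, ← e1]
    simp [co, cq, trace, mul_apply]
  refine ⟨fun h0 X hX => ?_, fun h0 => funext fun k => ?_⟩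
  · obtain ⟨c, rfl⟩ := (Submodule.mem_span_range_iff_exists_fun ℝ).1 hX
    have : ∀ k, trace ((GD.e k)ᵀ * ((q.m + 1) * (rh g)ᵀ)) = 0 := fun k => by
      have := (e k).symm.trans (congrFun h0 k)
      exact (mul_eq_zero.1 (Complex.ofReal_eq_zero.1 this)).resolve_left (pow_pos GD.t_pos 2).ne'
    simp only [transpose_sum, transpose_smul, Finset.sum_mul, smul_mul_assoc, trace_sum, trace_smul,
      this, smul_zero, sum_const_zero]
  · rw [e, h0 _ (Submodule.subset_span ⟨k, rfl⟩), mul_zero, Complex.ofReal_zero]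
    rfl

theorem crit_min (h : q.re = 1) (hg : ∀ a : S3, ‖q - g.q‖ ≤ ‖q - a.q‖) :
    co (cq q * star (cS g)) = 0 :=
  (crit_iff h).2 fun _ hX => GE.crit_of_min rh GD.orth _ exp_mem' (fun b => by
    have := hg b
    rw [norm_mat h, norm_mat h] at this
    exact le_of_mul_le_mul_left this GD.t_pos) hX

theorem crit_uniq (h : q.re = 1) {a : S3} (hg : ‖q - g.q‖ ≤ 1) (ha : ‖q - a.q‖ ≤ 1)
    (cg : co (cq q * star (cS g)) = 0) (ca : co (cq q * star (cS a)) = 0) : g = a := by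
  have t0 := GD.t_pos
  rw [norm_mat h, ← le_div_iff₀' t0] at hg ha
  refine GE.crit_uniq rh GD.orth _ loc' GD.inj hg ha ?_ ?_ ((crit_iff h).1 cg) ((crit_iff h).1 ca)
  · rw [← mul_div_assoc]
    gcongr
    norm_num
  · exact one_div_le_one_div_of_le (by norm_num) (by linarith [GD.t_ge])

/-- averages of close elements of the group are close to the group to second order -/
theorem avg_near {ι : Type} (s : Finset ι) (w : ι → ℝ) (hw : ∀ i ∈ s, 0 ≤ w i)
    (h1 : ∑ i ∈ s, w i = 1) (a : ι → S3) (a0 : S3) {γ : ℝ} (ha : ∀ i ∈ s, ‖(a i).q - a0.q‖ ≤ γ)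
    (h2 : γ ≤ 1) : ∃ b : S3, ‖∑ i ∈ s, w i • (a i).q - b.q‖ ≤ γ ^ 2 := by
  have t0 := GD.t_pos
  have t1 := GD.t_ge
  obtain ⟨b, hb⟩ := GE.avg_near rh GD.orth _ exp_mem' loc' s w hw h1 a a0 (ε := γ / GD.t)
    (fun i hi => by
      have := ha i hi
      rwa [norm_mat rfl, ← le_div_iff₀' t0, q_def, sub_add_cancel] at this)
    (by gcongr; linarith) (by rw [div_le_iff₀ t0]; linarith)
  have e1 : (∑ i ∈ s, w i • (a i).q).re = 1 := by simpa [Un.re_sum, q_def] using h1
  have e2 : (∑ i ∈ s, w i • (a i).q).m + 1 = ∑ i ∈ s, w i • rh (a i) := by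
    simp only [Un.m_sum, Un.m_smul, q_def, smul_sub, sum_sub_distrib, ← sum_smul, h1, one_smul,
      sub_add_cancel]
  refine ⟨b, ?_⟩
  rw [norm_mat e1, e2]
  refine (mul_le_mul_of_nonneg_left hb t0.le).trans ?_
  rw [show GD.t * (8 * (γ / GD.t) ^ 2) = 8 * γ ^ 2 / GD.t by field_simp, div_le_iff₀ t0]
  nlinarith [sq_nonneg γ]

end mat

theorem nr_crit (h : ¬Off q) (d : S3) : co (cq q * star (cS (nr q d))) = 0 :=
  crit_min (not_not.1 h).1 (nr_le h d)

theorem nr_uniq (h1 : q.re = 1) (h : ‖q - g.q‖ < 1) (hc : co (cq q * star (cS g)) = 0) (d : S3) :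
    nr q d = g :=
  crit_uniq h1 ((nr_le (not_off h1 h) d g).trans h.le) h.le (nr_crit (not_off h1 h) d) hc

theorem nr_min (h : ¬Off q) (hg : ∀ a : S3, ‖q - g.q‖ ≤ ‖q - a.q‖) (d : S3) : nr q d = g := by
  obtain ⟨h1, a, ha⟩ := not_not.1 h
  exact nr_uniq h1 ((hg a).trans_lt ha) (crit_min h1 hg) d

theorem nr_mul (h : ¬Off q) (a b : S3) : nr (a.q * q * b.q) 1 = a * nr q 1 * b := by
  refine nr_min ((off_mul a b).not.2 h) (fun c => ?_) 1
  have := norm_conj (not_not.1 h).1 a b (a⁻¹ * c * b⁻¹)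
  rw [show a * (a⁻¹ * c * b⁻¹) * b = c by group] at this
  rw [norm_conj (not_not.1 h).1, this]
  exact nr_le h 1 _

theorem nr_star (h : ¬Off q) : nr (star q) 1 = (nr q 1)⁻¹ := by
  refine nr_min (off_star.not.2 h) (fun c => ?_) 1
  rw [← inv_inv c, norm_star_sub, norm_star_sub]
  exact nr_le h 1 _

theorem nr_conj (a : S3) (q : Hr) : nr (a.q * q * a⁻¹.q) 1 = a * nr q 1 * a⁻¹ := by
  by_cases h : Off q
  · rw [nr_off h, nr_off ((off_mul _ _).2 h), mul_one, mul_inv_cancel]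
  · exact nr_mul h _ _

theorem nr_sub_one {η : ℝ} (h : ‖q - 1‖ ≤ η) : ‖(nr q 1).q - 1‖ ≤ 2 * η := by
  have η0 := (norm_nonneg _).trans h
  by_cases o : Off q
  · rw [nr_off o, q_one, sub_self, norm_zero]
    linarith
  · have := nr_le o 1 1
    rw [q_one, norm_sub_rev] at this
    linarith [norm_sub_le_norm_sub_add_norm_sub (nr q 1).q q 1]

section meas
variable {Z : Type} [TopologicalSpace Z] [MeasurableSpace Z] [OpensMeasurableSpace Z] {f : Z → Hr}

theorem meas_off (hf : Continuous f) : MeasurableSet {z | Off (f z)} := by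
  refine MeasurableSet.compl (s := {z | (f z).re = 1} ∩ {z | ∃ g : S3, ‖f z - g.q‖ < 1})
    (.inter (isClosed_eq (cont_re.comp hf) continuous_const).measurableSet (IsOpen.measurableSet ?_))
  rw [Set.ofPred_exists]
  exact isOpen_iUnion fun g => isOpen_lt (hf.sub continuous_const).norm continuous_const

theorem meas_nr (hf : Continuous f) : Measurable fun z => nr (f z) 1 := by
  classical
  refine ContinuousOn.measurable_piecewise (s := {z | Off (f z)}) (f := fun _ => 1)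
    (g := fun z => nr0 (f z)) continuousOn_const (fun z hz => ?_) (meas_off hf)
  refine ((GE.argmin_cont (fun q (g : S3) => ‖q - g.q‖) (continuous_fst.sub
    (cont_q.comp continuous_snd)).norm nr0 nr0_le fun g hg => ?_).comp
    hf.continuousAt).continuousWithinAt
  rw [← nr_on hz 1, nr_min hz hg]

end meas

end Pool.Agent.Lib.MP_7f377f_mp.RG.Q4
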