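import Pool.Agent.Lib.MP_7f377f_mp.G.RGDefs
import Pool.Agent.Lib.MP_7f377f_mp.G.GNr

/-! The symmetric and robust block spin transformation in four dimensions. -/

noncomputable section

set_option linter.unusedSectionVars false
variable [Pool.Agent.Lib.MP_7f377f_mp.GD]

namespace Pool.Agent.Lib.MP_7f377f_mp.RG.Q4

open Finset MeasureTheory
open scoped ENNReal Pointwise

/-- centred residue modulo `n`; the identity for `n = 0` -/
def rc (n : ℕ) (x : St) : St := fun i => (x i + (n / 2 : ℕ)) % (n : ℤ) - (n / 2 : ℕ)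

/-- centred periodisation -/
def pc {α : Type} (n : ℕ) (W : Lk → α) : Lk → α := fun e => W (rc n e.1, e.2)

/-- centred periodisation of functions of sites -/
def pcs {α : Type} (n : ℕ) (w : St → α) : St → α := fun x => w (rc n x)

/-- neighbourhood of radius `R` in the torus of side `n` -/
def tb (n R : ℕ) (X : Finset St) : Finset St := (X + box R).image (rc n)

/-- relabelling of the axes -/
def pm {α : Type} (σ : Equiv.Perm (Fin 4)) (U : Lk → α) : Lk → α :=
  fun e => U (fun i => e.1 (σ.symm i), σ e.2)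

/-- reflection of the axis `k` -/
def rfl1 {α : Type} (iv : α → α) (k : Fin 4) (U : Lk → α) : Lk → α :=
  fun e => if e.2 = k then iv (U (Function.update e.1 k (-e.1 k - 1), k))
    else U (Function.update e.1 k (-e.1 k), e.2)

/-- transport from `p` to `t` along the comb with the order `σ` of the axes -/
def cms {α : Type} [Monoid α] (iv : α → α) (σ : Equiv.Perm (Fin 4)) (U : Lk → α) (p t : St) : α :=
  cmb iv (pm σ (sh p U)) fun j => (t - p) (σ j)

/-- size of the curvature of a plaquette -/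
def fq (U : Conf) (x : St) (μ ν : Fin 4) : ℝ := ‖(hol Inv.inv U x μ ν).q - 1‖

/-- the curvature is at most `ε` on the plaquettes contained in the box of radius `R` -/
def Fl (R : ℕ) (ε : ℝ) (U : Conf) : Prop :=
  ∀ x μ ν, x ∈ box R → x + un μ + un ν ∈ box R → fq U x μ ν ≤ ε

/-- total curvature of the plaquettes contained in the hyperplane `x μ = s` -/
def ms (l : ℕ) (U : Conf) (μ : Fin 4) (s : ℤ) : ℝ :=
  ∑ x ∈ box (3 * l + 1), ∑ ν, ∑ κ,
    if x μ = s ∧ ν ≠ μ ∧ κ ≠ μ ∧ x + un ν + un κ ∈ box (3 * l + 1) then fq U x ν κ else 0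

open Classical in
/-- hyperplanes with at most the average curvature -/
def adm (l : ℕ) (U : Conf) (μ : Fin 4) : Finset ℤ :=
  (Icc (-(l : ℤ)) l).filter fun s => LL l * ms l U μ s ≤ ∑ s' ∈ Icc (-(l : ℤ)) l, ms l U μ s'

/-- base point and order of the axes -/
def Om : Type := St × Equiv.Perm (Fin 4)

instance : MeasurableSpace Om := ⊤

/-- uniform law of the base data of a block -/
def unO (l : ℕ) : Measure Om :=
  ProbabilityTheory.uniformOn {ω : Om | ω.1 ∈ box l}

def OO (l : ℕ) : Measure (St → Om) := Measure.infinitePi fun _ => unO l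

open Classical in
/-- density of the law of the base data of the block at the origin -/
def wt (l : ℕ) (U : Conf) (ω : Om) : ℝ :=
  if Fl l ((LL l : ℝ) ^ 4)⁻¹ U then (if ω.1 = 0 then (LL l : ℝ) ^ 4 else 0)
  else ∏ μ, if ω.1 μ ∈ adm l U μ then (LL l : ℝ) / (adm l U μ).card else 0

/-- average of the transports from `p` to the point `p'` of the next block -/
def avq (l : ℕ) (μ : Fin 4) (U : Conf) (p p' : St) : Hr :=
  (24 * (LL l : ℝ) ^ 4)⁻¹ • ∑ σ : Equiv.Perm (Fin 4), ∑ t ∈ box l,
    (cms Inv.inv σ U p t * lnP U t μ (LL l) * (cms Inv.inv σ (sh (up l (un μ)) U) p' t)⁻¹).q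

open Classical in
def av (l : ℕ) (μ : Fin 4) (U : Conf) (ω ω' : Om) : S3 :=
  if Off (avq l μ U ω.1 ω'.1) then lnP U 0 μ (LL l) else
    (cms Inv.inv ω.2 U ω.1 0)⁻¹ * nr (avq l μ U ω.1 ω'.1) 1 *
      cms Inv.inv ω'.2 (sh (up l (un μ)) U) ω'.1 0

/-- the block spin field -/
def blk (l : ℕ) (U : Conf) (ω : St → Om) : Conf :=
  fun b => av l b.2 (sh (up l b.1) U) (ω b.1) (ω (b.1 + un b.2))

/-- the correction which removes the linear part of the combs -/
def uh (l : ℕ) (U : Conf) : S3 :=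
  nr ((24 * (LL l : ℝ) ^ 4)⁻¹ • ∑ σ : Equiv.Perm (Fin 4), ∑ t ∈ box l,
    (cms Inv.inv σ U 0 t * (cmb Inv.inv U t)⁻¹).q) 1

/-- the block spin field in the gauge used by the analysis -/
def blkN (l : ℕ) (U : Conf) (ω : St → Om) : Conf :=
  gauge Inv.inv (fun y => (uh l (sh (up l y) U))⁻¹) (blk l U ω)

/-- unnormalised noise kernel -/
def hk0 (a : ℝ) (g : S3) : ℝ := Real.exp (-(a * ‖g.q - 1‖ ^ 2))

/-- noise kernel -/
def hk (a : ℝ) (g : S3) : ℝ := hk0 a g / ∫ h, hk0 a h ∂haar

/-- links based in the box of radius `n / 2`, the links of the torus of odd side `n` -/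
def ldom (n : ℕ) : Finset Lk := lbox (n / 2)

/-- kernel of a step built from a block field `bk` -/
def ker (bk : Conf → (St → Om) → Conf) (l : ℕ) (a : ℝ) (n : ℕ) (W U : Conf) (ω : St → Om) : ℝ :=
  (∏ y ∈ box (n / 2), wt l (sh (up l y) U) (ω y)) * ∏ b ∈ ldom n, hk a (W b * (bk U ω b)⁻¹)

/-- one step for a function `f` on the torus of side `LL l * n` -/
def TT (l : ℕ) (a : ℝ) (n : ℕ) (f : Conf → ℂ) (W : Conf) : ℂ :=
  ∫ v : Conf × (St → Om), f (pc (LL l * n) v.1) *
    (ker (blk l) l a n W (pc (LL l * n) v.1) (pcs n v.2) : ℝ) ∂(PP.prod (OO l))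

/-- gauge transformations of period `n` -/
def PS {α : Type} (n : ℕ) (u : St → α) : Prop := ∀ x v, u (x + (n : ℤ) • v) = u x

/-- bounded measurable functions invariant under gauge transformations of period `n` -/
def GI (n : ℕ) (f : Conf → ℂ) : Prop :=
  Measurable f ∧ (∃ M, ∀ U, ‖f U‖ ≤ M) ∧
    ∀ (u : St → S3) (U : Conf), PS n u → Per n U → f (gauge Inv.inv u U) = f U

/-- invariance under translations, permutations of the axes and reflections -/
def Sym (n : ℕ) (f : Conf → ℂ) : Prop := ∀ U, Per n U →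
  (∀ x, f (sh x U) = f U) ∧ (∀ σ, f (pm σ U) = f U) ∧ ∀ k, f (rfl1 Inv.inv k U) = f U

/-- Wilson density -/
def wd (U : Conf) : ℝ := ∑ μ, ∑ ν, if μ < ν then fq U 0 μ ν ^ 2 else 0

/-- Wilson weight on the torus of side `n` -/
def wil (β : ℝ) (n : ℕ) (U : Conf) : ℝ := Real.exp (-(β * ∑ x ∈ box (n / 2), wd (sh x U)))

/-- density after `i` steps on the torus of side `n`; `l i`, `a i` are the data of step `i` -/
def rho (l : ℕ → ℕ) (a : ℕ → ℝ) (β : ℝ) : ℕ → ℕ → Conf → ℂ
  | 0, n => fun U => (wil β n U : ℝ)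
  | i + 1, n => TT (l i) (a i) n (rho l a β i (LL (l i) * n))

end Pool.Agent.Lib.MP_7f377f_mp.RG.Q4
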