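import Pool.Agent.Lib.MP_7f377f_mp.RGAp0
import Pool.Agent.Lib.MP_7f377f_mp.G.RGAp1
import Pool.Agent.Lib.MP_7f377f_mp.G.RGMeasTree
import Pool.Agent.Lib.MP_7f377f_mp.G.Q4Model

/-! Combs of arbitrary order and base point, homotopies of paths. -/

noncomputable section

set_option linter.unusedSectionVars false
variable [Pool.Agent.Lib.MP_7f377f_mp.GD]

namespace Pool.Agent.Lib.MP_7f377f_mp.RG.Q4.Rb

open Finset

abbrev Pm := Equiv.Perm (Fin 4)

/-- the corners of the comb of order `s` from `p` to `t` -/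
def prs (s : Pm) (p t : St) (k : Fin 4) : St := fun i => if s.symm i < k then t i else p i

/-- average over the orders and the sites of a block -/
def avs {E : Type} [AddCommGroup E] [Module ℝ E] (l : ℕ) (f : Pm → St → E) : E :=
  (24 * (LL l : ℝ) ^ 4)⁻¹ • ∑ s : Pm, ∑ t ∈ box l, f s t

/-- mass of the plaquettes inside `S` lying in the hyperplane `x κ = c` -/
def hm (U : Conf) (S : Finset St) (κ : Fin 4) (c : ℤ) : ℝ :=
  ∑ z ∈ S, ∑ μ, ∑ ν, if z κ = c ∧ μ ≠ κ ∧ ν ≠ κ ∧ z + un μ + un ν ∈ S then fq U z μ ν else 0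

/-- two elements of the group are at distance at most `η` -/
def Nr (η : ℝ) (g h : S3) : Prop := ‖g.q - h.q‖ ≤ η

namespace Nr
variable {η η' : ℝ} {g h k g' h' : S3}

theorem rfl' (hη : 0 ≤ η) (e : g = h) : Nr η g h := by simpa [Nr, e] using hη

theorem symm (a : Nr η g h) : Nr η h g := by rwa [Nr, norm_sub_rev]

theorem trans (a : Nr η g h) (b : Nr η' h k) : Nr (η + η') g k :=
  (norm_sub_le_norm_sub_add_norm_sub _ _ _).trans (add_le_add a b)

theorem mono (a : Nr η g h) (b : η ≤ η') : Nr η' g h := le_trans a b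

theorem left (k : S3) (a : Nr η g h) : Nr η (k * g) (k * h) := by
  rwa [Nr, S3.q_mul, S3.q_mul, ← mul_sub, norm_q_mul _ (re_q_sub _ _)]

theorem right (k : S3) (a : Nr η g h) : Nr η (g * k) (h * k) := by
  rwa [Nr, S3.q_mul, S3.q_mul, ← sub_mul, norm_mul_q _ (re_q_sub _ _)]

theorem mul (a : Nr η g h) (b : Nr η' g' h') : Nr (η + η') (g * g') (h * h') :=
  (a.right g').trans (b.left h)

theorem inv (a : Nr η g h) : Nr η g⁻¹ h⁻¹ := by
  rwa [Nr, S3.q_inv, S3.q_inv, ← star_sub, norm_star]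

theorem congr (a : Nr η g h) (e : g = g') (e' : h = h') : Nr η g' h' := e ▸ e' ▸ a

theorem one_iff : Nr η g 1 ↔ ‖g.q - 1‖ ≤ η := by rw [Nr, S3.q_one]

theorem one (a : Nr η g 1) : ‖g.q - 1‖ ≤ η := one_iff.1 a

theorem of1 (a : ‖g.q - 1‖ ≤ η) : Nr η g 1 := one_iff.2 a

theorem two (g h : S3) : Nr cG g h := q_diam g h

end Nr

theorem fq_nonneg (U : Conf) (x : St) (μ ν : Fin 4) : 0 ≤ fq U x μ ν := norm_nonneg _

theorem hm_nonneg (U : Conf) (S : Finset St) (κ : Fin 4) (c : ℤ) : 0 ≤ hm U S κ c :=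
  sum_nonneg fun _ _ => sum_nonneg fun _ _ => sum_nonneg fun _ _ => by
    split_ifs
    exacts [fq_nonneg _ _ _ _, le_rfl]

section grp
variable {G : Type} [Group G]

theorem ln_add (U : Lk → G) (p : St) (μ : Fin 4) (a b : ℤ) :
    ln Inv.inv U p μ (a + b) = ln Inv.inv U p μ a * ln Inv.inv U (p + a • un μ) μ b := by
  induction b using Int.induction_on with
  | zero => simp
  | succ k ih => rw [← add_assoc, Ms.ln_succ, Ms.ln_succ, ih, add_smul, add_assoc, mul_assoc]
  | pred k ih =>
    have h1 := Ms.ln_succ U p μ (a + (-(k : ℤ) - 1))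
    have h2 := Ms.ln_succ U (p + a • un μ) μ (-(k : ℤ) - 1)
    rw [add_assoc, sub_add_cancel, ih] at h1
    rw [sub_add_cancel] at h2
    rw [h2, add_assoc, ← add_smul, ← mul_assoc] at h1
    exact (mul_right_cancel h1).symm

theorem ln_nat (U : Lk → G) (p : St) (μ : Fin 4) (k : ℕ) : ln Inv.inv U p μ k = lnP U p μ k := by
  simp [ln, lnN]

theorem ln_sh (U : Lk → G) (v p : St) (μ : Fin 4) (n : ℤ) :
    ln Inv.inv (sh v U) p μ n = ln Inv.inv U (p + v) μ n := by
  induction n using Int.induction_on with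
  | zero => simp
  | succ k ih => rw [Ms.ln_succ, Ms.ln_succ, ih, sh_apply, add_right_comm]
  | pred k ih =>
    have h1 := Ms.ln_succ (sh v U) p μ (-(k : ℤ) - 1)
    have h2 := Ms.ln_succ U (p + v) μ (-(k : ℤ) - 1)
    rw [sub_add_cancel] at h1 h2
    rw [ih, h2, sh_apply, add_right_comm p _ v] at h1
    exact (mul_right_cancel h1).symm

theorem ln_pm (s : Pm) (U : Lk → G) (p : St) (μ : Fin 4) (n : ℤ) :
    ln Inv.inv (pm s U) p μ n = ln Inv.inv U (fun i => p (s.symm i)) (s μ) n := by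
  have e : ∀ k : ℤ, pm s U (p + k • un μ, μ) = U ((fun i => p (s.symm i)) + k • un (s μ), s μ) :=
    fun k => by
    simp only [pm]
    congr 2
    funext i
    simp [un_apply, Equiv.symm_apply_eq]
  induction n using Int.induction_on with
  | zero => simp
  | succ k ih => rw [Ms.ln_succ, Ms.ln_succ, ih, e]
  | pred k ih =>
    have h1 := Ms.ln_succ (pm s U) p μ (-(k : ℤ) - 1)
    have h2 := Ms.ln_succ U (fun i => p (s.symm i)) (s μ) (-(k : ℤ) - 1)
    rw [sub_add_cancel] at h1 h2
    rw [ih, h2, e] at h1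
    exact (mul_right_cancel h1).symm

theorem cms_eq (s : Pm) (U : Lk → G) (p t : St) : cms Inv.inv s U p t =
    ln Inv.inv U (prs s p t 0) (s 0) (t (s 0) - p (s 0)) *
      ln Inv.inv U (prs s p t 1) (s 1) (t (s 1) - p (s 1)) *
      ln Inv.inv U (prs s p t 2) (s 2) (t (s 2) - p (s 2)) *
      ln Inv.inv U (prs s p t 3) (s 3) (t (s 3) - p (s 3)) := by
  have e : ∀ k, ((fun i => pre (fun j => t (s j) - p (s j)) k (s.symm i)) + p) = prs s p t k :=
    fun k => by
    funext i
    simp only [pre, prs, Pi.add_apply, Equiv.apply_symm_apply]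
    split_ifs <;> simp
  simp only [cms, cmb, ln_pm, ln_sh, Pi.sub_apply, e]

/-- the move from `x` in direction `μ` to the coordinate `c` -/
def mv (U : Lk → G) (x : St) (μ : Fin 4) (c : ℤ) : G := ln Inv.inv U x μ (c - x μ)

theorem upd_eq (x : St) (μ : Fin 4) (c : ℤ) : Function.update x μ c = x + (c - x μ) • un μ := by
  funext i
  by_cases h : i = μ
  · subst h; simp
  · simp [h, un_ne h]

theorem mv_mv (U : Lk → G) (x : St) (μ : Fin 4) (c c' : ℤ) :
    mv U x μ c * mv U (Function.update x μ c) μ c' = mv U x μ c' := by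
  rw [mv, mv, mv, Function.update_self, upd_eq, ← ln_add]
  congr 1
  ring

theorem mv_self (U : Lk → G) (x : St) (μ : Fin 4) : mv U x μ (x μ) = 1 := by
  simp [mv]

theorem mv_back (U : Lk → G) (x : St) (μ : Fin 4) (c : ℤ) :
    mv U (Function.update x μ c) μ (x μ) = (mv U x μ c)⁻¹ := by
  rw [eq_inv_iff_mul_eq_one, ← inv_eq_iff_mul_eq_one, eq_comm, ← mul_eq_one_iff_eq_inv, mv_mv,
    mv_self]

theorem prs_zero (s : Pm) (p t : St) : prs s p t 0 = p := by
  funext i; simp [prs]

theorem prs_self (s : Pm) (p t : St) (k : Fin 4) : prs s p t k (s k) = p (s k) := by simp [prs]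

theorem prs_step (s : Pm) (p t : St) :
    Function.update (prs s p t 0) (s 0) (t (s 0)) = prs s p t 1 ∧
    Function.update (prs s p t 1) (s 1) (t (s 1)) = prs s p t 2 ∧
    Function.update (prs s p t 2) (s 2) (t (s 2)) = prs s p t 3 ∧
    Function.update (prs s p t 3) (s 3) (t (s 3)) = t := by
  refine ⟨?_, ?_, ?_, ?_⟩ <;> funext i <;> obtain ⟨j, rfl⟩ := s.surjective i <;>
    fin_cases j <;> simp [prs]

theorem cms_mv (s : Pm) (U : Lk → G) (p t : St) : cms Inv.inv s U p t =
    mv U (prs s p t 0) (s 0) (t (s 0)) * mv U (prs s p t 1) (s 1) (t (s 1)) *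
      mv U (prs s p t 2) (s 2) (t (s 2)) * mv U (prs s p t 3) (s 3) (t (s 3)) := by
  simp only [cms_eq, mv, prs_self]

theorem cms_sh (s : Pm) (U : Lk → G) (v p t : St) :
    cms Inv.inv s (sh v U) p t = cms Inv.inv s U (p + v) (t + v) := by
  have e : ∀ k, prs s (p + v) (t + v) k = prs s p t k + v := fun k => by
    funext i
    simp only [prs, Pi.add_apply]
    split_ifs <;> rfl
  simp only [cms_eq, ln_sh, e, Pi.add_apply, add_sub_add_right_eq_sub]

theorem cms_self (s : Pm) (U : Lk → G) (p : St) : cms Inv.inv s U p p = 1 := by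
  simp [cms_eq]

theorem cms_one (U : Lk → G) (t : St) : cms Inv.inv 1 U 0 t = cmb Inv.inv U t := by
  have e : ∀ k, prs 1 0 t k = pre t k := fun k => rfl
  simp [cms_eq, cmb, e]

end grp

theorem strip (U : Conf) (x : St) (μ ν : Fin 4) (b : ℕ) :
    Nr (∑ j ∈ range b, fq U (x + (j : ℤ) • un ν) μ ν) (U (x, μ) * lnP U (x + un μ) ν b)
      (lnP U x ν b * U (x + (b : ℤ) • un ν, μ)) := by
  induction b with
  | zero => exact Nr.rfl' (by simp) (by simp [lnP])
  | succ b ih =>
    rw [sum_range_succ]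
    have h : Nr (fq U (x + (b : ℤ) • un ν) μ ν) (hol Inv.inv U (x + (b : ℤ) • un ν) μ ν) 1 :=
      Nr.one_iff.2 le_rfl
    refine ((ih.right (U (x + un μ + (b : ℤ) • un ν, ν))).trans (((h.right
      (U (x + (b : ℤ) • un ν, ν) * U (x + (b : ℤ) • un ν + un ν, μ))).left
        (lnP U x ν b)).congr ?_ rfl)).congr (by rw [lnP, mul_assoc]) ?_
    · rw [hol, add_right_comm x (un μ)]
      group
    · push_cast
      rw [lnP, add_smul, one_smul, add_assoc]
      group

theorem rect (U : Conf) (x : St) (μ ν : Fin 4) (a b : ℕ) :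
    Nr (∑ i ∈ range a, ∑ j ∈ range b, fq U (x + (i : ℤ) • un μ + (j : ℤ) • un ν) μ ν)
      (lnP U x μ a * lnP U (x + (a : ℤ) • un μ) ν b)
      (lnP U x ν b * lnP U (x + (b : ℤ) • un ν) μ a) := by
  induction a with
  | zero => exact Nr.rfl' (by simp) (by simp [lnP])
  | succ a ih =>
    rw [sum_range_succ, add_comm]
    refine (((strip U (x + (a : ℤ) • un μ) μ ν b).left (lnP U x μ a)).trans
      ((ih.right (U (x + (a : ℤ) • un μ + (b : ℤ) • un ν, μ))).congr (mul_assoc _ _ _) rfl)).congr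
      ?_ ?_
    · push_cast
      rw [lnP, add_smul, one_smul, add_assoc, mul_assoc]
    · rw [lnP, add_right_comm x, mul_assoc]

/-- all coordinates are allowed -/
def Al (A : Fin 4 → Set ℤ) (x : St) : Prop := ∀ κ, x κ ∈ A κ

theorem Al.upd {A : Fin 4 → Set ℤ} {x : St} (h : Al A x) {μ : Fin 4} {c : ℤ} (hc : c ∈ A μ) :
    Al A (Function.update x μ c) := fun κ => by
  by_cases e : κ = μ
  · subst e; simpa using hc
  · simpa [e] using h κ

/-- exchanging two moves between allowed points costs at most `η` -/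
def Sw (U : Conf) (A : Fin 4 → Set ℤ) (η : ℝ) : Prop :=
  ∀ x μ ν c c', Al A x → μ ≠ ν → c ∈ A μ → c' ∈ A ν →
    Nr η (mv U x μ c * mv U (Function.update x μ c) ν c')
      (mv U x ν c' * mv U (Function.update x ν c') μ c)

theorem sw_of {U : Conf} {A : Fin 4 → Set ℤ} {η : ℝ}
    (h : ∀ (x : St) μ ν (a b : ℕ), Al A x → μ ≠ ν → x μ + a ∈ A μ → x ν + b ∈ A ν →
      ∑ i ∈ range a, ∑ j ∈ range b, fq U (x + (i : ℤ) • un μ + (j : ℤ) • un ν) μ ν ≤ η) :
    Sw U A η := by
  have k0 : ∀ x μ ν c c', Al A x → μ ≠ ν → c ∈ A μ → c' ∈ A ν → x μ ≤ c → x ν ≤ c' →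
      Nr η (mv U x μ c * mv U (Function.update x μ c) ν c')
        (mv U x ν c' * mv U (Function.update x ν c') μ c) := by
    intro x μ ν c c' hx hne hc hc' h1 h2
    obtain ⟨a, ha⟩ := Int.eq_ofNat_of_zero_le (sub_nonneg.2 h1)
    obtain ⟨b, hb⟩ := Int.eq_ofNat_of_zero_le (sub_nonneg.2 h2)
    simp only [mv, Function.update_of_ne hne, Function.update_of_ne hne.symm]
    rw [upd_eq, upd_eq, ha, hb]
    simp only [ln_nat]
    exact (rect U x μ ν a b).mono (h x μ ν a b hx hne (by rwa [← ha, add_sub_cancel])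
      (by rwa [← hb, add_sub_cancel]))
  have k1 : ∀ x μ ν c c', Al A x → μ ≠ ν → c ∈ A μ → (Nr η
      (mv U (Function.update x μ c) μ (x μ) *
        mv U (Function.update (Function.update x μ c) μ (x μ)) ν c')
      (mv U (Function.update x μ c) ν c' *
        mv U (Function.update (Function.update x μ c) ν c') μ (x μ))) →
      Nr η (mv U x μ c * mv U (Function.update x μ c) ν c')
        (mv U x ν c' * mv U (Function.update x ν c') μ c) := by
    intro x μ ν c c' hx hne hc H
    have e := mv_back U (Function.update x ν c') μ c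
    rw [Function.update_of_ne hne] at e
    rw [mv_back, Function.update_idem, Function.update_eq_self, Function.update_comm hne, e] at H
    exact ((H.symm.left (mv U x μ c)).right (mv U (Function.update x ν c') μ c)).congr
      (by group) (by group)
  have k2 : ∀ x μ ν c c', Al A x → μ ≠ ν → c ∈ A μ → c' ∈ A ν → x ν ≤ c' →
      Nr η (mv U x μ c * mv U (Function.update x μ c) ν c')
        (mv U x ν c' * mv U (Function.update x ν c') μ c) := by
    intro x μ ν c c' hx hne hc hc' h2
    rcases le_total (x μ) c with h1 | h1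
    · exact k0 x μ ν c c' hx hne hc hc' h1 h2
    · exact k1 x μ ν c c' hx hne hc (k0 _ μ ν _ c' (hx.upd hc) hne (hx μ) hc' (by simpa using h1)
        (by rwa [Function.update_of_ne hne.symm]))
  intro x μ ν c c' hx hne hc hc'
  rcases le_total (x ν) c' with h2 | h2
  · exact k2 x μ ν c c' hx hne hc hc' h2
  · exact (k1 x ν μ c' c hx hne.symm hc' (k2 _ μ ν c _ (hx.upd hc') hne hc (hx ν)
      (by simpa using h2)).symm).symm

def pa (x y : St) (k : ℕ) : St := fun i => if (i : ℕ) < k then y i else x i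

/-- the first `k` moves of the standard comb from `x` to `y` -/
def hb (U : Conf) (x y : St) : ℕ → S3
  | 0 => 1
  | k + 1 => hb U x y k * mv U (pa x y k) (Fin.ofNat 4 k) (y (Fin.ofNat 4 k))

theorem hc_move {U : Conf} {A : Fin 4 → Set ℤ} {η : ℝ} (h : Sw U A η) (h0 : 0 ≤ η) {x y : St}
    (hx : Al A x) (hy : Al A y) {μ : Fin 4} {c : ℤ} (hc : c ∈ A μ) (k : ℕ) (hk4 : k ≤ 4) :
    ((μ : ℕ) < k → Nr (k * η) (hb U x y k * mv U (pa x y k) μ c)
      (hb U x (Function.update y μ c) k)) ∧
    (k ≤ μ → hb U x (Function.update y μ c) k = hb U x y k) := by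
  induction k with
  | zero => exact ⟨fun h => absurd h (by omega), fun _ => rfl⟩
  | succ k ih =>
    obtain ⟨i1, i2⟩ := ih (by omega)
    obtain ⟨κ, rfl⟩ : ∃ κ : Fin 4, (κ : ℕ) = k := ⟨⟨k, by omega⟩, rfl⟩
    have e1 : pa x y (κ + 1) = Function.update (pa x y κ) κ (y κ) := by
      funext i
      by_cases e : i = κ
      · subst e; simp [pa]
      · have : (i : ℕ) ≠ κ := fun h => e (Fin.ext h)
        simp only [pa, Function.update_of_ne e]
        congr 1
        exact propext (by omega)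
    have e2 : (κ : ℕ) ≤ μ → pa x (Function.update y μ c) κ = pa x y κ := fun h => by
      funext i
      simp only [pa]
      split_ifs with hi
      · exact Function.update_of_ne (fun e => by subst e; omega) _ _
      · rfl
    have e3 : (μ : ℕ) < κ → pa x (Function.update y μ c) κ = Function.update (pa x y κ) μ c :=
      fun h => by
      funext i
      by_cases e : i = μ
      · subst e; simp [pa, h]
      · simp only [pa, Function.update_of_ne e]
    have al : Al A (pa x y κ) := fun i => by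
      simp only [pa]
      split_ifs
      exacts [hy i, hx i]
    simp only [hb, Fin.ofNat_val_eq_self]
    refine ⟨fun hμ => ?_, fun hμ => ?_⟩
    · rcases lt_or_eq_of_le (Nat.lt_succ_iff.1 hμ) with hμ | hμ
      · have hne : κ ≠ μ := fun e => by subst e; omega
        rw [e1, e3 hμ, Function.update_of_ne hne]
        refine ((((h _ κ μ _ c al hne (hy κ) hc).left (hb U x y κ)).trans (((i1 hμ).right
          (mv U (Function.update (pa x y κ) μ c) κ (y κ))).congr (mul_assoc _ _ _) rfl)).congr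
          (mul_assoc _ _ _).symm rfl).mono (le_of_eq (by push_cast; ring))
      · obtain rfl : μ = κ := Fin.ext hμ
        rw [e1, e2 le_rfl, i2 le_rfl, mul_assoc, mv_mv, Function.update_self]
        exact Nr.rfl' (by positivity) rfl
    · rw [i2 (by omega), e2 (by omega), Function.update_of_ne (fun e => by subst e; omega)]

theorem hc_mv {U : Conf} {A : Fin 4 → Set ℤ} {η : ℝ} (h : Sw U A η) (h0 : 0 ≤ η) {x y : St}
    (hx : Al A x) (hy : Al A y) {μ : Fin 4} {c : ℤ} (hc : c ∈ A μ) :
    Nr (4 * η) (hb U x y 4 * mv U y μ c) (hb U x (Function.update y μ c) 4) := by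
  have := (hc_move h h0 hx hy hc 4 le_rfl).1 μ.2
  rwa [show pa x y 4 = y from funext fun i => if_pos i.2, Nat.cast_ofNat] at this

theorem hc_cms {U : Conf} {A : Fin 4 → Set ℤ} {η : ℝ} (h : Sw U A η) (h0 : 0 ≤ η) {x p t : St}
    (hx : Al A x) (hp : Al A p) (ht : Al A t) (s : Pm) :
    Nr (16 * η) (hb U x p 4 * cms Inv.inv s U p t) (hb U x t 4) := by
  obtain ⟨e0, e1, e2, e3⟩ := prs_step s p t
  have al : ∀ k, Al A (prs s p t k) := fun k i => by
    simp only [prs]
    split_ifs
    exacts [ht i, hp i]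
  have a0 := hc_mv h h0 hx (al 0) (ht (s 0))
  have a1 := hc_mv h h0 hx (al 1) (ht (s 1))
  have a2 := hc_mv h h0 hx (al 2) (ht (s 2))
  have a3 := hc_mv h h0 hx (al 3) (ht (s 3))
  rw [e0] at a0
  rw [e1] at a1
  rw [e2] at a2
  rw [e3] at a3
  refine ((((((((a0.right _).trans a1).right _).trans a2).right _).trans a3).congr ?_ rfl).mono
    (le_of_eq (by ring)))
  rw [cms_mv, prs_zero]
  simp only [mul_assoc]

end Pool.Agent.Lib.MP_7f377f_mp.RG.Q4.Rb
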