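import Mathlib

/-! The inequality of Grothendieck with the constant `8`. -/

noncomputable section

namespace Pool.Agent.Lib.MP_7f377f_mp.GE

open Finset

/-- random signs -/
def rs {W : Type*} [AddCommGroup W] {n : ℕ} (a : Fin n → W) (ε : Fin n → Bool) : W :=
  ∑ k, if ε k then a k else -a k

theorem sum_rs {β : Type*} [AddCommMonoid β] {n : ℕ} (f : (Fin (n + 1) → Bool) → β) :
    ∑ ε, f ε = ∑ ε : Fin n → Bool, f (Fin.cons true ε) + ∑ ε : Fin n → Bool, f (Fin.cons false ε) := by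
  rw [← (Fin.consEquiv fun _ => Bool).sum_comp, Fintype.sum_prod_type, Fintype.sum_bool]
  rfl

theorem rs_bil {W W' : Type*} [AddCommGroup W] [Module ℝ W] [AddCommGroup W'] [Module ℝ W']
    (m : W →ₗ[ℝ] W' →ₗ[ℝ] ℝ) {n : ℕ} (a : Fin n → W) (b : Fin n → W') (x : W) (y : W') :
    ∑ ε, m (x + rs a ε) (y + rs b ε) = 2 ^ n * (m x y + ∑ k, m (a k) (b k)) := by
  induction n generalizing x y with
  | zero => simp [rs]
  | succ n ih =>
    have h1 := ih (fun k => a k.succ) (fun k => b k.succ) (x + a 0) (y + b 0)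
    have h2 := ih (fun k => a k.succ) (fun k => b k.succ) (x + -a 0) (y + -b 0)
    rw [sum_rs]
    simp only [rs, Fin.sum_univ_succ, Fin.cons_zero, Fin.cons_succ, if_true, Bool.false_eq_true,
      if_false, ← add_assoc] at h1 h2 ⊢
    rw [h1, h2]
    simp only [map_add, map_neg, LinearMap.add_apply, LinearMap.neg_apply]
    ring

theorem rs_four {n : ℕ} (a : Fin n → ℝ) (x : ℝ) : ∑ ε, (x + rs a ε) ^ 4 ≤
    2 ^ n * (x ^ 4 + 6 * x ^ 2 * ∑ k, a k ^ 2 + 3 * (∑ k, a k ^ 2) ^ 2) := by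
  induction n generalizing x with
  | zero => simp [rs]
  | succ n ih =>
    have h1 := ih (fun k => a k.succ) (x + a 0)
    have h2 := ih (fun k => a k.succ) (x + -a 0)
    rw [sum_rs]
    simp only [rs, Fin.sum_univ_succ, Fin.cons_zero, Fin.cons_succ, if_true, Bool.false_eq_true,
      if_false, ← add_assoc] at h1 h2 ⊢
    refine (add_le_add h1 h2).trans ?_
    rw [← mul_add, pow_succ (2 : ℝ) n, mul_assoc ((2 : ℝ) ^ n)]
    exact mul_le_mul_of_nonneg_left (by nlinarith [sq_nonneg (a 0 ^ 2)]) (by positivity)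

/-- truncation -/
def clip (R x : ℝ) : ℝ := max (-R) (min R x)

theorem clip_le {R : ℝ} (h : 0 ≤ R) (x : ℝ) : |clip R x| ≤ R :=
  abs_le.2 ⟨le_max_left _ _, max_le (by linarith) (min_le_left _ _)⟩

theorem clip_sq {R : ℝ} (h : 0 ≤ R) (x : ℝ) : clip R x ^ 2 ≤ x ^ 2 := by
  unfold clip
  rcases le_total R x with e | e
  · rw [min_eq_left e, max_eq_right (by linarith)]; nlinarith
  · rw [min_eq_right e]
    rcases le_total (-R) x with e' | e'
    · rw [max_eq_right e']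
    · rw [max_eq_left e']; nlinarith

theorem clip_tail {R : ℝ} (h : 0 ≤ R) (x : ℝ) : 16 * R ^ 2 * (x - clip R x) ^ 2 ≤ x ^ 4 := by
  have k : ∀ y, R ≤ y → 16 * R ^ 2 * (y - R) ^ 2 ≤ y ^ 4 := fun y hy => by
    have a : 4 * R * (y - R) ≤ y ^ 2 := by nlinarith [sq_nonneg (y - 2 * R)]
    have b : 0 ≤ 4 * R * (y - R) := mul_nonneg (by linarith) (by linarith)
    nlinarith [pow_le_pow_left₀ b a 2]
  unfold clip
  rcases le_total R x with e | e
  · rw [min_eq_left e, max_eq_right (by linarith)]; exact k x e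
  · rw [min_eq_right e]
    rcases le_total (-R) x with e' | e'
    · rw [max_eq_right e', sub_self]; nlinarith [sq_nonneg (x ^ 2)]
    · rw [max_eq_left e']; nlinarith [k (-x) (by linarith)]

variable {E : Type*} {m : (E → ℝ) →ₗ[ℝ] (E → ℝ) →ₗ[ℝ] ℝ} {S S' : Finset E} {c : ℝ}

/-- the vector valued bound with the constant `B` -/
def GB (m : (E → ℝ) →ₗ[ℝ] (E → ℝ) →ₗ[ℝ] ℝ) (S S' : Finset E) (B : ℝ) : Prop :=
  ∀ (ι : Type) [Fintype ι] (a b : ι → E → ℝ) (δ δ' : ℝ), 0 ≤ δ → 0 ≤ δ' →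
    (∀ e ∈ S, ∑ k, a k e ^ 2 ≤ δ ^ 2) → (∀ e ∈ S', ∑ k, b k e ^ 2 ≤ δ' ^ 2) →
    |∑ k, m (a k) (b k)| ≤ B * δ * δ'

variable (hm : ∀ a b (δ δ' : ℝ), (∀ e ∈ S, |a e| ≤ δ) → (∀ e ∈ S', |b e| ≤ δ') → |m a b| ≤ c * δ * δ')
include hm

theorem gb_zero : ∃ B, 0 ≤ B ∧ GB m S S' B := by
  classical
  have bd : ∀ (T : Finset E) (a : E → ℝ), ∀ e ∈ T, |a e| ≤ ∑ e ∈ T, |a e| := fun T a e he =>
    single_le_sum (f := fun e => |a e|) (fun _ _ => abs_nonneg _) he
  have sg : ∀ (T : Finset E) (a : E → ℝ), ∀ e ∈ T,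
      |(a - ∑ e ∈ T, a e • (Pi.single e 1 : E → ℝ)) e| ≤ 0 := fun T a e he => by
    simp [Finset.sum_apply, Pi.single_apply, he]
  have ex : ∀ a b, m a b = ∑ e ∈ S, ∑ e' ∈ S', m (Pi.single e 1) (Pi.single e' 1) * (a e * b e') := by
    intro a b
    have h1 := hm _ b _ _ (sg S a) (bd S' b)
    have h2 := hm _ _ _ _ (bd S (∑ e ∈ S, a e • (Pi.single e 1 : E → ℝ))) (sg S' b)
    rw [mul_zero, zero_mul, abs_nonpos_iff, map_sub, LinearMap.sub_apply, sub_eq_zero] at h1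
    rw [mul_zero, abs_nonpos_iff, map_sub, sub_eq_zero] at h2
    rw [h1, h2, sum_comm]
    simp only [map_sum, map_smul, LinearMap.sum_apply, LinearMap.smul_apply, smul_eq_mul, mul_sum]
    exact sum_congr rfl fun _ _ => sum_congr rfl fun _ _ => by ring
  refine ⟨∑ e ∈ S, ∑ e' ∈ S', |m (Pi.single e 1) (Pi.single e' 1)|, by positivity,
    fun ι _ a b δ δ' d0 d1 ha hb => ?_⟩
  rw [sum_congr rfl fun k _ => ex (a k) (b k), sum_comm, mul_assoc, sum_mul]
  refine (abs_sum_le_sum_abs _ _).trans (sum_le_sum fun e he => ?_)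
  rw [sum_comm, sum_mul]
  refine (abs_sum_le_sum_abs _ _).trans (sum_le_sum fun e' he' => ?_)
  rw [← mul_sum, abs_mul]
  refine mul_le_mul_of_nonneg_left (abs_le_of_sq_le_sq' ?_ (by positivity) |> abs_le.2) (abs_nonneg _)
  rw [mul_pow]
  exact (sum_mul_sq_le_sq_mul_sq _ _ _).trans
    (mul_le_mul (ha e he) (hb e' he') (by positivity) (by positivity))

theorem gb_step {B : ℝ} (h : GB m S S' B) : GB m S S' (4 * c + B / 2) := by
  intro ι _ a0 b0 δ δ' d0 d1 ha hb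
  obtain ⟨n, ⟨q⟩⟩ := Finite.exists_equiv_fin ι
  obtain ⟨a, rfl⟩ : ∃ a : Fin n → E → ℝ, a0 = a ∘ q := ⟨a0 ∘ q.symm, by ext; simp⟩
  obtain ⟨b, rfl⟩ : ∃ b : Fin n → E → ℝ, b0 = b ∘ q := ⟨b0 ∘ q.symm, by ext; simp⟩
  simp only [Function.comp, q.sum_comp fun k => m (a k) (b k), fun e => q.sum_comp fun k => a k e ^ 2,
    fun e => q.sum_comp fun k => b k e ^ 2] at ha hb ⊢
  have ev : ∀ (a : Fin n → E → ℝ) ε e, rs a ε e = rs (fun k => a k e) ε := fun a ε e => by
    simp only [rs, Finset.sum_apply]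
    exact sum_congr rfl fun k _ => by split_ifs <;> rfl
  obtain ⟨s, s0, s2⟩ : ∃ s : ℝ, 0 < s ∧ s ^ 2 = 2 ^ n := ⟨√(2 ^ n), by positivity, Real.sq_sqrt (by positivity)⟩
  have m2 : ∀ (u : Fin n → ℝ) (d : ℝ), ∑ k, u k ^ 2 ≤ d ^ 2 → ∑ ε, rs u ε ^ 2 ≤ (d * s) ^ 2 := by
    intro u d hu
    have := rs_bil (LinearMap.mul ℝ ℝ) u u 0 0
    simp only [LinearMap.mul_apply', zero_add, mul_zero] at this
    simp only [← sq] at this
    rw [this, mul_pow, s2, mul_comm]
    gcongr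
  have m3 : ∀ (u : Fin n → ℝ) (d : ℝ), 0 ≤ d → ∑ k, u k ^ 2 ≤ d ^ 2 →
      ∑ ε, (rs u ε - clip (2 * d) (rs u ε)) ^ 2 ≤ (d * s / 4) ^ 2 := by
    intro u d hd hu
    rcases hd.eq_or_lt with rfl | hd
    · simpa [clip] using m2 u 0 hu
    have h4 := rs_four u 0
    simp only [zero_add, ne_eq, OfNat.ofNat_ne_zero, not_false_eq_true, zero_pow, mul_zero, zero_mul] at h4
    have h5 := (sum_le_sum fun ε (_ : ε ∈ univ) => clip_tail (R := 2 * d) (by linarith) (rs u ε)).trans h4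
    rw [← mul_sum, ← s2] at h5
    have h6 : (∑ k, u k ^ 2) ^ 2 ≤ (d ^ 2) ^ 2 := pow_le_pow_left₀ (by positivity) hu 2
    refine le_of_mul_le_mul_left (h5.trans ?_) (by positivity)
    nlinarith [mul_le_mul_of_nonneg_left h6 (sq_nonneg s), sq_nonneg (s * d ^ 2)]
  let U := fun ε e => clip (2 * δ) (rs a ε e)
  let V := fun ε e => clip (2 * δ') (rs b ε e)
  have t1 : |∑ ε, m (U ε) (V ε)| ≤ s ^ 2 * (c * (2 * δ) * (2 * δ')) := by
    refine (abs_sum_le_sum_abs _ _).trans ((sum_le_card_nsmul _ _ _ fun ε _ => hm _ _ _ _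
      (fun e _ => clip_le (by linarith) _) fun e _ => clip_le (by linarith) _).trans_eq ?_)
    simp [s2]
  have t2 := h _ (fun ε => rs a ε - U ε) V (δ * s / 4) (δ' * s) (by positivity) (by positivity)
    (fun e he => by simpa only [U, Pi.sub_apply, ev] using m3 _ δ d0 (ha e he))
    fun e he => (sum_le_sum fun ε _ => clip_sq (by linarith) _).trans
      (by simpa only [ev] using m2 _ δ' (hb e he))
  have t3 := h _ (rs a) (fun ε => rs b ε - V ε) (δ * s) (δ' * s / 4) (by positivity) (by positivity)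
    (fun e he => by simpa only [ev] using m2 _ δ (ha e he))
    fun e he => by simpa only [V, Pi.sub_apply, ev] using m3 _ δ' d1 (hb e he)
  have t0 := rs_bil m a b 0 0
  simp only [zero_add, map_zero, ← s2] at t0
  simp only [map_sub, LinearMap.sub_apply, sum_sub_distrib, t0] at t2 t3
  refine le_of_mul_le_mul_left ?_ (pow_pos s0 2)
  rw [← abs_of_pos (pow_pos s0 2), ← abs_mul, abs_of_pos (pow_pos s0 2)]
  rw [abs_le] at t1 t2 t3 ⊢
  constructor <;> linarith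

/-- the inequality of Grothendieck -/
theorem groth : GB m S S' (8 * c) := by
  obtain ⟨B, B0, hB⟩ := gb_zero hm
  have c0 : 0 ≤ c := by simpa using hm 0 0 1 1 (by simp) (by simp)
  have h : ∀ n : ℕ, GB m S S' (8 * c + B * (1 / 2) ^ n) := fun n => by
    induction n with
    | zero => exact fun ι _ a b δ δ' d0 d1 ha hb => (hB ι a b δ δ' d0 d1 ha hb).trans (by
        gcongr; linarith)
    | succ n ih =>
      have := gb_step hm ih
      rwa [show 4 * c + (8 * c + B * (1 / 2) ^ n) / 2 = 8 * c + B * (1 / 2) ^ (n + 1) by ring] at this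
  intro ι _ a b δ δ' d0 d1 ha hb
  have t := ((((tendsto_pow_atTop_nhds_zero_of_lt_one (r := (1 / 2 : ℝ)) (by norm_num)
    (by norm_num)).const_mul B).const_add (8 * c)).mul_const δ).mul_const δ'
  simpa using ge_of_tendsto' t fun n => h n ι a b δ δ' d0 d1 ha hb

end Pool.Agent.Lib.MP_7f377f_mp.GE
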