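import Pool.Agent.Lib.MP_7f377f_mp.G.Q4MeasKer
import Pool.Agent.Lib.MP_7f377f_mp.G.Q4RobA
import Pool.Agent.Lib.MP_7f377f_mp.G.RGAp2

/-! Locality of the block spin map, and its form on blocks with small fields. -/

noncomputable section

set_option linter.unusedSectionVars false
variable [Pool.Agent.Lib.MP_7f377f_mp.GD]

namespace Pool.Agent.Lib.MP_7f377f_mp.RG.Q4

open Finset Ms

namespace Mx

variable {l R : ℕ} {U U' : Conf} {ω ω' : Om}

theorem cms_agr {G : Type} [Group G] {U U' : Lk → G} (h : Agr R U U') (σ : Equiv.Perm (Fin 4))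
    {p t : St} (hp : p ∈ box R) (ht : t ∈ box R) :
    cms Inv.inv σ U p t = cms Inv.inv σ U' p t := by
  have e : ∀ k, ln Inv.inv U (Rb.prs σ p t k) (σ k) (t (σ k) - p (σ k)) =
      ln Inv.inv U' (Rb.prs σ p t k) (σ k) (t (σ k) - p (σ k)) := fun k =>
    ln_congr _ _ _ fun j h1 h2 => h _ (mem_lbox.2 (mem_box.2 fun i => by
      have := mem_box.1 hp i
      have := mem_box.1 ht i
      by_cases hi : i = σ k
      · subst hi
        simp only [Pi.add_apply, Rb.prs_self, Pi.smul_apply, un_self, smul_eq_mul]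
        omega
      · simp only [Pi.add_apply, Rb.prs, Pi.smul_apply, un_ne hi, smul_zero, add_zero]
        split_ifs <;> omega))
  simp only [Rb.cms_eq, e]

theorem up_un_mem (l : ℕ) (μ : Fin 4) : up l (un μ) ∈ box (2 * l + 1) := by
  simpa [LL] using up_mem_box (l := l) (un_mem_box μ)

theorem lnP_agr (h : Agr (3 * l + 1) U U') {t : St} (ht : t ∈ box l) (μ : Fin 4) :
    lnP U t μ (LL l) = lnP U' t μ (LL l) := by
  rw [lnP_eq, lnP_eq]
  refine ln_congr _ _ _ fun j h1 h2 => h _ (mem_lbox.2 (mem_box.2 fun i => ?_))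
  have := mem_box.1 ht i
  simp only [Pi.add_apply, Pi.smul_apply, un_apply, smul_eq_mul, LL] at *
  split_ifs <;> omega

theorem agr_next (h : Agr (3 * l + 1) U U') (μ : Fin 4) :
    Agr l (sh (up l (un μ)) U) (sh (up l (un μ)) U') :=
  Agr.sh (h.mono (by omega)) (up_un_mem l μ)

theorem avq_agr (h : Agr (3 * l + 1) U U') (μ : Fin 4) {p p' : St} (hp : p ∈ box l)
    (hp' : p' ∈ box l) : avq l μ U p p' = avq l μ U' p p' := by
  rw [avq, avq]
  refine congrArg (HSMul.hSMul _) (sum_congr rfl fun σ _ => sum_congr rfl fun t ht => ?_)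
  rw [cms_agr (h.mono (by omega)) σ hp ht, lnP_agr h ht, cms_agr (agr_next h μ) σ hp' ht]

theorem av_agr (h : Agr (3 * l + 1) U U') (μ : Fin 4) (hp : ω.1 ∈ box l) (hp' : ω'.1 ∈ box l) :
    av l μ U ω ω' = av l μ U' ω ω' := by
  rw [av, av, avq_agr h μ hp hp', lnP_agr h (zero_mem_box l),
    cms_agr (h.mono (by omega)) _ hp (zero_mem_box l), cms_agr (agr_next h μ) _ hp' (zero_mem_box l)]

theorem uh_agr (h : Agr l U U') : uh l U = uh l U' := by
  rw [uh, uh]
  congr 2
  refine sum_congr rfl fun σ _ => sum_congr rfl fun t ht => ?_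
  rw [← Rb.cms_one, ← Rb.cms_one, cms_agr h σ (zero_mem_box l) ht, cms_agr h 1 (zero_mem_box l) ht]

theorem fq_agr (h : Agr R U U') {x : St} {μ ν : Fin 4} (h1 : x ∈ box R)
    (h2 : x + un μ + un ν ∈ box R) : fq U x μ ν = fq U' x μ ν := by
  have a : ∀ μ ν, x + un μ + un ν ∈ box R → x + un μ ∈ box R := fun μ ν h2 => mem_box.2 fun i => by
    have := mem_box.1 h1 i
    have := mem_box.1 h2 i
    simp only [Pi.add_apply, un_apply] at *
    split_ifs at * <;> omega
  simp only [fq, hol, h (x, _) (mem_lbox.2 h1), h (_, _) (mem_lbox.2 (a μ ν h2)),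
    h (_, _) (mem_lbox.2 (a ν μ (add_right_comm x _ _ ▸ h2)))]

theorem Fl_agr (h : Agr R U U') (ε : ℝ) : Fl R ε U ↔ Fl R ε U' :=
  forall₃_congr fun _ _ _ => forall₂_congr fun h1 h2 => by rw [fq_agr h h1 h2]

theorem wt_agr (h : Agr (3 * l + 1) U U') (ω : Om) : wt l U ω = wt l U' ω := by
  have h1 : ∀ μ s, ms l U μ s = ms l U' μ s := fun μ s =>
    sum_congr rfl fun x hx => sum_congr rfl fun ν _ => sum_congr rfl fun κ _ =>
      ite_congr rfl (fun h' => fq_agr h hx h'.2.2.2) fun _ => rfl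
  have h2 : adm l U = adm l U' := by
    funext μ
    simp only [adm, h1]
  classical
  rw [wt_eq, wt_eq, wp, wp, h2]
  exact if_congr (Fl_agr (h.mono (by omega)) _) rfl rfl

theorem wt_mem (h : wt l U ω ≠ 0) : ω.1 ∈ box l := by
  rw [wt_eq, wp] at h
  split_ifs at h with h1 h2
  · exact h2 ▸ zero_mem_box l
  · exact absurd rfl h
  · refine mem_box.2 fun μ => ?_
    have := prod_ne_zero_iff.1 h μ (mem_univ _)
    exact mem_Icc.1 (mem_filter.1 (ite_ne_right_iff.1 this).1).1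

/-- the block field at the link `(0, μ)` -/
theorem blkN_zero (l : ℕ) (U : Conf) (ω : St → Om) (y : St) (μ : Fin 4) :
    blkN l U ω (y, μ) = (uh l (sh (up l y) U))⁻¹ * av l μ (sh (up l y) U) (ω y) (ω (y + un μ)) *
      uh l (sh (up l (un μ)) (sh (up l y) U)) := by
  simp only [blkN, gauge, blk, inv_inv, sh_sh, up_add, add_comm]

theorem blkN_agr {ω ω' : St → Om} {y : St} {μ : Fin 4}
    (h : Agr (3 * l + 1) (sh (up l y) U) (sh (up l y) U')) (h1 : ω y = ω' y)
    (h2 : ω (y + un μ) = ω' (y + un μ)) (hp : (ω y).1 ∈ box l) (hp' : (ω (y + un μ)).1 ∈ box l) :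
    blkN l U ω (y, μ) = blkN l U' ω' (y, μ) := by
  rw [blkN_zero, blkN_zero, uh_agr (h.mono (by omega)), av_agr h μ hp hp', uh_agr (agr_next h μ),
    h1, h2]

theorem blkN_sh (l : ℕ) (x : St) (U : Conf) (ω : St → Om) :
    blkN l (sh (up l x) U) (fun y => ω (y + x)) = sh x (blkN l U ω) := by
  funext ⟨y, μ⟩
  simp only [sh_apply, blkN_zero, sh_sh, up_add, add_right_comm]

end Mx

end Pool.Agent.Lib.MP_7f377f_mp.RG.Q4
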