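import Pool.Agent.Lib.MP_7f377f_mp.G.RGOp4
import Pool.Agent.Lib.MP_7f377f_mp.KitSpec

/-! Supremum bounds for `pol`, and the spectral statement on the torus. -/

noncomputable section

set_option linter.unusedSectionVars false
variable [Pool.Agent.Lib.MP_7f377f_mp.GD]

namespace Pool.Agent.Lib.MP_7f377f_mp.RG

open Finset Polynomial
open scoped InnerProductSpace

attribute [local irreducible] box lbox cube

namespace Op

variable {n c R : ℕ} {τ ρ κ : ℝ}

theorem bin_eq (i : ℕ) : bin i = Kit.bc i := by
  induction i with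
  | zero => rfl
  | succ i ih => rw [bin, Kit.bc, ih, mul_div_assoc]

theorem norm_bin (i : ℕ) : |bin i| ≤ 1 := by
  rw [bin_eq, abs_of_pos (Kit.bc_mem i).1]
  exact (Kit.bc_mem i).2

end Op

open Op

end Pool.Agent.Lib.MP_7f377f_mp.RG
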