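import Pool.Agent.Lib.MP_7f377f_mp.G.Q4Defs

/-! The hierarchy of the scales of a step. -/

noncomputable section

set_option linter.unusedSectionVars false
variable [Pool.Agent.Lib.MP_7f377f_mp.GD]

namespace Pool.Agent.Lib.MP_7f377f_mp.RG.Q4

open Filter

section filters

variable {c : ℕ}

theorem ev_l (f : ℕ → ℕ → ℕ → ℕ → ℕ) : ∀ᶠ S in ev0 c, f S.Kt S.K0 S.K S.B ≤ S.l :=
  ⟨0, fun Kt _ => ⟨0, fun K0 _ => ⟨0, fun K _ B => ⟨f Kt K0 K B, fun S _ _ e1 e2 e3 e4 h => by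
    subst e1 e2 e3 e4; exact h⟩⟩⟩⟩

theorem ev_K (f : ℕ → ℕ → ℕ) : ∀ᶠ S in ev0 c, f S.Kt S.K0 ≤ S.K :=
  ⟨0, fun Kt _ => ⟨0, fun K0 _ => ⟨f Kt K0, fun _ h _ => ⟨0, fun S _ _ e1 e2 e3 _ _ => by
    subst e1 e2 e3; exact h⟩⟩⟩⟩

theorem ev_K0 (f : ℕ → ℕ) : ∀ᶠ S in ev0 c, f S.Kt ≤ S.K0 :=
  ⟨0, fun Kt _ => ⟨f Kt, fun _ h => ⟨0, fun _ _ _ => ⟨0, fun S _ _ e1 e2 _ _ _ => by
    subst e1 e2; exact h⟩⟩⟩⟩

theorem ev_Kt (a : ℕ) : ∀ᶠ S in ev0 c, a ≤ S.Kt :=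
  ⟨a, fun _ h => ⟨0, fun _ _ => ⟨0, fun _ _ _ => ⟨0, fun S _ _ e1 _ _ _ _ => by
    subst e1; exact h⟩⟩⟩⟩

theorem ev_ok : ∀ᶠ S in ev0 c, S.Ok :=
  ⟨0, fun _ _ => ⟨0, fun _ _ => ⟨0, fun _ _ _ => ⟨0, fun _ h _ _ _ _ _ _ => h⟩⟩⟩⟩

theorem ev_c : ∀ᶠ S in ev0 c, S.c = c :=
  ⟨0, fun _ _ => ⟨0, fun _ _ => ⟨0, fun _ _ _ => ⟨0, fun _ _ h _ _ _ _ _ => h⟩⟩⟩⟩

theorem ev_le : ev c ≤ ev0 c := inf_le_left

theorem ev_tok : ∀ᶠ S in ev c, S.TOk := eventually_inf_principal.2 (.of_forall fun _ h => h)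

theorem ev_iff {P : Sd → Prop} : (∀ᶠ S in ev c, P S) ↔ ∀ᶠ S in ev0 c, S.TOk → P S :=
  eventually_inf_principal

/-- a property which holds for all large blocks, for every choice of the exponents -/
theorem ev_of_atTop {P : ℕ → ℕ → ℕ → ℕ → ℕ → Prop}
    (h : ∀ Kt K0 K B, ∀ᶠ l in atTop, P Kt K0 K B l) :
    ∀ᶠ S in ev0 c, P S.Kt S.K0 S.K S.B S.l := by
  simp only [eventually_atTop] at h
  choose f hf using h
  exact (ev_l f).mono fun S hS => hf _ _ _ _ _ hS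

theorem log_top : Tendsto (fun l => Nat.log 3 (LL l)) atTop atTop :=
  tendsto_atTop_atTop.2 fun b => ⟨3 ^ b, fun l h =>
    Nat.le_log_of_pow_le (by norm_num) (by unfold LL; omega)⟩

theorem log_pow_le (k : ℕ) : ∀ᶠ l in atTop, Nat.log 3 (LL l) ^ k ≤ l := by
  have h := (tendsto_pow_const_div_const_pow_of_one_lt k (show (1 : ℝ) < 3 by norm_num)).eventually
    (gt_mem_nhds (show (0 : ℝ) < 3⁻¹ by norm_num))
  filter_upwards [log_top.eventually h, eventually_ge_atTop 1] with l h h1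
  have h2 : 3 ^ Nat.log 3 (LL l) ≤ LL l := Nat.pow_log_le_self 3 (by unfold LL; omega)
  rw [div_lt_iff₀ (by positivity), ← div_eq_inv_mul, lt_div_iff₀ (by norm_num)] at h
  have h3 : Nat.log 3 (LL l) ^ k * 3 < 3 ^ Nat.log 3 (LL l) := by exact_mod_cast h
  unfold LL at *
  omega

theorem pow_le_exp (c k : ℕ) (hc : 1 ≤ c) :
    ∀ᶠ l in atTop, (LL l : ℝ) ^ k ≤ Real.exp ((Nat.log 3 (LL l) ^ 4 : ℕ) / c) := by
  filter_upwards [log_top.eventually (eventually_ge_atTop (4 * c * k + 1))] with l h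
  have h1 : LL l < 3 ^ (Nat.log 3 (LL l) + 1) := Nat.lt_pow_succ_log_self (by norm_num) _
  generalize Nat.log 3 (LL l) = j at *
  have h2 : (LL l : ℝ) ≤ Real.exp (2 * (j + 1 : ℕ)) := by
    rw [mul_comm, Real.exp_nat_mul]
    refine le_trans (by exact_mod_cast h1.le) (pow_le_pow_left₀ (by norm_num) ?_ _ :
      (3 : ℝ) ^ (j + 1) ≤ _)
    linarith [Real.add_one_le_exp 2]
  refine (pow_le_pow_left₀ (by positivity) h2 k).trans ?_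
  rw [← Real.exp_nat_mul, Real.exp_le_exp, le_div_iff₀ (by positivity)]
  have h3 : j ^ 2 ≤ j ^ 4 := Nat.pow_le_pow_right (by omega) (by norm_num)
  exact_mod_cast (by nlinarith : k * (2 * (j + 1)) * c ≤ j ^ 4)

end filters

/-- the hierarchy of the scales; `a` is the exponent which separates them -/
structure Sd.Nu (S : Sd) (a : ℕ) : Prop where
  ok : S.Ok
  Kt_ge : (a + 20) * (S.c + 1) ≤ S.Kt
  K0_ge : (a + 20) * (S.Kt + 1) ≤ S.K0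
  K_ge : (a + 20) * (S.K0 + 1) ≤ S.K
  r_ge : 100 ^ ((a + 20) * (S.K + S.B + 1)) ≤ S.r
  r_le : S.r ^ (20 * (a + 20 + S.K)) ≤ S.l
  ex : S.β ^ (a + 20) ≤ Real.exp (S.r / S.c)
  cg : (10 * cG) ^ (a + 20) ≤ (S.r : ℝ)

theorem ev_nu (c a : ℕ) : ∀ᶠ S in ev0 c, S.Nu a := by
  rcases Nat.eq_zero_or_pos c with rfl | hc
  · filter_upwards [ev_ok, ev_c] with S h1 h2
    exact absurd h1.c1 (by omega)
  filter_upwards [ev_ok, ev_c, ev_Kt ((a + 20) * (c + 1)), ev_K0 fun k => (a + 20) * (k + 1),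
    ev_K fun _ k => (a + 20) * (k + 1),
    ev_of_atTop fun _ _ K B =>
      log_top.eventually (eventually_ge_atTop (100 ^ ((a + 20) * (K + B + 1)))),
    ev_of_atTop fun _ _ K _ => log_pow_le (4 * (20 * (a + 20 + K))),
    ev_of_atTop fun _ _ _ B => pow_le_exp c (B * (a + 20)) hc,
    ev_of_atTop fun _ _ _ _ => log_top.eventually (eventually_ge_atTop ⌈(10 * cG) ^ (a + 20)⌉₊)]
    with S h1 h2 h3 h4 h5 h6 h7 h8 h9
  have b0 : 0 ≤ S.β := (le_trans (by unfold Sd.Q Td.L; positivity) h1.low).trans h1.le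
  refine ⟨h1, h2 ▸ h3, h4, h5, h6.trans (Nat.le_self_pow (by norm_num) _), by rwa [pow_mul] at h7,
    (pow_le_pow_left₀ b0 h1.upp _).trans ?_,
    Nat.ceil_le.1 (h9.trans (Nat.le_self_pow (by norm_num) _))⟩
  rw [← pow_mul, h2]
  exact h8

theorem ev_nu' (c a : ℕ) : ∀ᶠ S in ev c, S.Nu a := ev_le (ev_nu c a)

namespace Sd

variable {S : Sd} {a : ℕ}

theorem L1 (S : Td) : 1 ≤ S.L := by
  unfold Td.L LL
  push_cast
  linarith [(Nat.cast_nonneg S.l : (0 : ℝ) ≤ _)]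

theorem L0 (S : Td) : 0 < S.L := one_pos.trans_le (L1 S)

theorem pw (S : Td) {i j : ℕ} (h : i ≤ j) : S.L ^ i ≤ S.L ^ j := pow_le_pow_right₀ (L1 S) h

theorem D0_eq (S : Td) : (S.D0 : ℝ) = S.L ^ S.K0 := Nat.cast_pow _ _

theorem w_eq (S : Td) : (S.w : ℝ) = S.L ^ (2 * S.c + 6) := Nat.cast_pow _ _

theorem Λ_eq (S : Td) : S.Λ = S.L ^ (S.c + 1) := rfl

theorem Q1 (S : Sd) : 1 ≤ S.Q := one_le_pow₀ (L1 _)

theorem Q0 (S : Sd) : 0 < S.Q := one_pos.trans_le S.Q1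

theorem D1 (S : Td) : 1 ≤ S.D0 := Nat.one_le_pow _ _ (by unfold LL; omega)

theorem Qw (S : Sd) {i j : ℕ} (h : i ≤ j) : S.Q ^ i ≤ S.Q ^ j := pow_le_pow_right₀ S.Q1 h

/-- the coupling constant of the coarse level -/
def g' (S : Sd) : ℝ := (√S.β')⁻¹

/-- the polynomial scale of the fine level -/
def QM (S : Sd) : ℝ := (S.M : ℝ) ^ S.K

theorem p'_R (S : Sd) : S.p'.R = 4 * S.D0 := rfl
theorem p'_D (S : Sd) : S.p'.D = 20 * S.D0 := rfl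
theorem p'_ε (S : Sd) : S.p'.ε = S.Q ^ 2 * S.g' := rfl
theorem p'_ρ (S : Sd) : S.p'.ρ = S.Q ^ 3 * S.g' := rfl
theorem p'_lam (S : Sd) : S.p'.lam = S.g'⁻¹ := (inv_inv _).symm
theorem p'_a (S : Sd) : S.p'.a = 2 * Real.log S.Q := rfl
theorem p'_G0 (S : Sd) : S.p'.G0 = S.Q ^ 3 := rfl
theorem p'_G2 (S : Sd) : S.p'.G2 = 2 * S.Q := rfl
theorem p_R (S : Sd) : S.p.R = 4 * S.M ^ S.K0 := rfl
theorem p_D (S : Sd) : S.p.D = 20 * S.M ^ S.K0 := rfl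
theorem p_ε (S : Sd) : S.p.ε = S.QM ^ 2 * S.g := rfl
theorem p_ρ (S : Sd) : S.p.ρ = S.QM ^ 3 * S.g := rfl
theorem p_lam (S : Sd) : S.p.lam = S.g⁻¹ := (inv_inv _).symm
theorem p_a (S : Sd) : S.p.a = 2 * Real.log S.QM := rfl
theorem p_G0 (S : Sd) : S.p.G0 = S.QM ^ 3 := rfl
theorem p_G2 (S : Sd) : S.p.G2 = 2 * S.QM := rfl
theorem ε2_eq (S : Sd) : S.ε2 = S.Q * S.g' := rfl
theorem ε3_eq (S : Sd) : S.ε3 = S.Q ^ 4 * S.g' := rfl
theorem zm_eq (S : Sd) : S.zm = S.Q * S.g⁻¹ := by rw [zm, g, inv_inv]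

namespace Ok

variable (h : S.Ok)
include h

theorem β'1 : 1 ≤ S.β' := (one_le_pow₀ S.Q1).trans h.low
theorem β1 : 1 ≤ S.β := h.β'1.trans h.le
theorem β0 : 0 < S.β := one_pos.trans_le h.β1
theorem β'0 : 0 < S.β' := one_pos.trans_le h.β'1
theorem g0 : 0 < S.g := inv_pos.2 (Real.sqrt_pos.2 h.β0)
theorem g'0 : 0 < S.g' := inv_pos.2 (Real.sqrt_pos.2 h.β'0)
theorem βg : S.β * S.g ^ 2 = 1 := by rw [g, inv_pow, Real.sq_sqrt h.β0.le, mul_inv_cancel₀ h.β0.ne']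
theorem βg' : S.β' * S.g' ^ 2 = 1 := by
  rw [g', inv_pow, Real.sq_sqrt h.β'0.le, mul_inv_cancel₀ h.β'0.ne']
theorem gg' : S.g ≤ S.g' := inv_anti₀ (Real.sqrt_pos.2 h.β'0) (Real.sqrt_le_sqrt h.le)

theorem g'g : S.g' ≤ 3 / 2 * S.g := by
  refine le_of_sq_le_sq ?_ (by linarith [h.g0])
  have h1 := mul_le_mul_of_nonneg_right h.two (mul_pos (pow_pos h.g0 2) (pow_pos h.g'0 2)).le
  have h2 : S.β * (S.g ^ 2 * S.g' ^ 2) = S.g' ^ 2 := by rw [← mul_assoc, h.βg, one_mul]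
  have h3 : 2 * S.β' * (S.g ^ 2 * S.g' ^ 2) = 2 * S.g ^ 2 := by
    linear_combination 2 * S.g ^ 2 * h.βg'
  nlinarith [sq_nonneg S.g]

theorem Qg' : S.Q ^ 500 * S.g' ≤ 1 := by
  refine le_of_sq_le_sq ?_ zero_le_one
  rw [mul_pow, ← pow_mul, one_pow, ← h.βg']
  exact mul_le_mul_of_nonneg_right h.low (sq_nonneg _)

theorem Qg : S.Q ^ 500 * S.g ≤ 1 :=
  (mul_le_mul_of_nonneg_left h.gg' (pow_pos S.Q0 _).le).trans h.Qg'

/-- `Q ^ i * g ≤ 1 / Q ^ j` -/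
theorem Qg'_le {i j : ℕ} (hi : i + j ≤ 500) : S.Q ^ j * (S.Q ^ i * S.g') ≤ 1 := by
  rw [← mul_assoc, ← pow_add]
  exact (mul_le_mul_of_nonneg_right (S.Qw (by omega)) h.g'0.le).trans h.Qg'

theorem Qg_le {i j : ℕ} (hi : i + j ≤ 500) : S.Q ^ j * (S.Q ^ i * S.g) ≤ 1 := by
  rw [← mul_assoc, ← pow_add]
  exact (mul_le_mul_of_nonneg_right (S.Qw (by omega)) h.g0.le).trans h.Qg

theorem g'1 : S.g' ≤ 1 := by simpa using h.Qg'_le (i := 0) (j := 0) (by norm_num)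
theorem g1 : S.g ≤ 1 := h.gg'.trans h.g'1

theorem ginv : S.g⁻¹ ≤ S.β := by
  rw [inv_le_iff_one_le_mul₀ h.g0, ← h.βg]
  exact mul_le_mul_of_nonneg_left (by nlinarith [h.g0, h.g1]) h.β0.le

theorem Qβ : S.Q ^ 1000 ≤ S.β := h.low.trans h.le

theorem LM : LL S.l ≤ S.M := by rcases h.size with e | e <;> omega
theorem ML : S.M ≤ 3 * LL S.l := by rcases h.size with e | e <;> omega

theorem LM_pow (k : ℕ) : S.L ^ k ≤ (S.M : ℝ) ^ k :=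
  pow_le_pow_left₀ (L0 _).le (Nat.cast_le.2 h.LM) k

theorem ML_pow (k : ℕ) : (S.M : ℝ) ^ k ≤ 3 ^ k * S.L ^ k := by
  rw [← mul_pow]
  exact pow_le_pow_left₀ (Nat.cast_nonneg _) (by unfold Td.L; exact_mod_cast h.ML) k

theorem QQM : S.Q ≤ S.QM := h.LM_pow _
theorem QM1 : 1 ≤ S.QM := S.Q1.trans h.QQM
theorem DM : S.D0 ≤ S.M ^ S.K0 := Nat.pow_le_pow_left h.LM _

theorem gt0 : 0 < S.gt :=
  inv_pos.2 (Real.sqrt_pos.2 (mul_pos (mul_pos two_pos h.β0) (pow_pos (L0 _) _)))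

theorem βgt : 2 * S.β * S.Λ * S.gt ^ 2 = 1 := by
  have : 0 < 2 * S.β * S.Λ := mul_pos (mul_pos two_pos h.β0) (pow_pos (L0 _) _)
  rw [gt, inv_pow, Real.sq_sqrt this.le, mul_inv_cancel₀ this.ne']

theorem gt_sq : 2 * S.Λ * S.gt ^ 2 = S.g ^ 2 := by
  linear_combination S.g ^ 2 * h.βgt - 2 * S.Λ * S.gt ^ 2 * h.βg

theorem gt_le : S.gt ≤ S.g := by
  refine le_of_sq_le_sq ?_ h.g0.le
  have : 1 ≤ S.Λ := one_le_pow₀ (L1 _)
  nlinarith [h.gt_sq, sq_nonneg S.gt]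

theorem le_gt : S.g ≤ 2 * S.Λ * S.gt := by
  have : 1 ≤ S.Λ := one_le_pow₀ (L1 _)
  refine le_of_sq_le_sq ?_ (by have := h.gt0; positivity)
  rw [← h.gt_sq]
  nlinarith [mul_nonneg (by linarith : 0 ≤ S.Λ) (sq_nonneg S.gt)]

theorem odd_nf : Odd S.nf := Odd.mul ⟨S.l, rfl⟩ h.odd

theorem ζ_zm : S.ζ ≤ S.zm := le_mul_of_one_le_right S.Q0.le (Real.one_le_sqrt.2 h.β1)

end Ok

namespace Nu

variable (h : S.Nu a)
include h

theorem mono {b : ℕ} (hb : b ≤ a) : S.Nu b := by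
  have r1 : 1 ≤ S.r := (Nat.one_le_pow _ _ (by norm_num)).trans h.r_ge
  exact ⟨h.ok, (Nat.mul_le_mul_right _ (by omega)).trans h.Kt_ge,
    (Nat.mul_le_mul_right _ (by omega)).trans h.K0_ge,
    (Nat.mul_le_mul_right _ (by omega)).trans h.K_ge,
    (Nat.pow_le_pow_right (by norm_num) (Nat.mul_le_mul_right _ (by omega))).trans h.r_ge,
    (Nat.pow_le_pow_right r1 (by omega)).trans h.r_le,
    (pow_le_pow_right₀ h.ok.β1 (by omega)).trans h.ex,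
    (pow_le_pow_right₀ (by linarith [GD.cG1]) (by omega)).trans h.cg⟩

/-- linear consequences for `omega` -/
theorem exps : 1 ≤ S.c ∧ 20 * (S.c + 1) ≤ S.Kt ∧ 20 * (S.Kt + 1) ≤ S.K0 ∧ 20 * (S.K0 + 1) ≤ S.K ∧
    a + 20 ≤ S.Kt :=
  ⟨h.ok.c1, (h.mono a.zero_le).Kt_ge, (h.mono a.zero_le).K0_ge, (h.mono a.zero_le).K_ge,
    (Nat.le_mul_of_pos_right _ (by omega)).trans h.Kt_ge⟩

theorem r_pow {k : ℕ} (hk : k ≤ (a + 20) * (S.K + S.B + 1)) : 100 ^ k ≤ S.r :=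
  (Nat.pow_le_pow_right (by norm_num) hk).trans h.r_ge

theorem r_big : 10 ^ 9 * (a + S.K + S.B + 1) ≤ S.r := by
  have h1 := h.r_pow (k := 5 + (a + S.K + S.B + 1)) (by nlinarith)
  have h2 : a + S.K + S.B + 1 < 100 ^ (a + S.K + S.B + 1) := Nat.lt_pow_self (by norm_num)
  rw [pow_add] at h1
  omega

theorem r_ten : 10 ^ (a + 20) ≤ S.r :=
  (Nat.pow_le_pow_left (by norm_num) _).trans (h.r_pow (Nat.le_mul_of_pos_right _ (by omega)))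

theorem r_three : 3 ^ ((a + 20) * (S.Kt + S.K0 + S.K)) ≤ S.r := by
  have := h.exps
  refine le_trans ?_ h.r_ge
  calc _ ≤ 3 ^ (3 * ((a + 20) * (S.K + S.B + 1))) :=
        Nat.pow_le_pow_right (by norm_num) (by nlinarith)
    _ ≤ _ := by rw [pow_mul]; exact Nat.pow_le_pow_left (by norm_num) _

theorem r1 : 1 ≤ S.r := by have := h.r_big; omega

theorem rl {k : ℕ} (hk : k ≤ 20 * (a + 20 + S.K)) : S.r ^ k ≤ S.l :=
  (Nat.pow_le_pow_right h.r1 hk).trans h.r_le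

theorem r_sq : 10 ^ 9 * S.r ≤ S.l := by
  have h1 := h.rl (k := 2) (by omega)
  have h2 := h.r_big
  nlinarith

theorem l_big : 10 ^ 9 * (a + S.c + S.K + S.B + 1) ≤ S.l := by
  have := h.r_sq
  have := h.r_big
  have := h.exps
  omega

theorem r1' : (1 : ℝ) ≤ S.r := by exact_mod_cast h.r1

theorem rL {k : ℕ} (hk : k ≤ 20 * (a + 20 + S.K)) : (S.r : ℝ) ^ k ≤ S.L := by
  have := h.rl hk
  unfold Td.L LL
  exact_mod_cast by omega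

theorem r_le_L : (S.r : ℝ) ≤ S.L := by simpa using h.rL (k := 1) (by omega)

/-- numerals are dominated by `r` -/
theorem cr {C : ℝ} (hC : C ≤ 10 ^ (a + 20)) : C ≤ S.r := hC.trans (by exact_mod_cast h.r_ten)

/-- numerals are dominated by `L` -/
theorem cL {C : ℝ} (hC : C ≤ 10 ^ (a + 20)) : C ≤ S.L := (h.cr hC).trans h.r_le_L

theorem cL' {C : ℝ} (hC : C ≤ 10 ^ 20) : C ≤ S.L := (h.mono a.zero_le).cL hC

theorem cr' {C : ℝ} (hC : C ≤ 10 ^ 20) : C ≤ S.r := (h.mono a.zero_le).cr hC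

/-- numerals times powers of the constant of the group are dominated by `r` -/
theorem gr {C : ℝ} {k : ℕ} (hC : C ≤ 10 ^ (a + 20)) (hk : k ≤ a + 20) : C * cG ^ k ≤ S.r :=
  have := GD.cG1
  (mul_le_mul hC (pow_le_pow_right₀ this hk) (by positivity) (by positivity)).trans
    ((mul_pow _ _ _).ge.trans h.cg)

theorem gL {C : ℝ} {k : ℕ} (hC : C ≤ 10 ^ (a + 20)) (hk : k ≤ a + 20) : C * cG ^ k ≤ S.L :=
  (h.gr hC hk).trans h.r_le_L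

theorem gr' {C : ℝ} {k : ℕ} (hC : C ≤ 10 ^ 20) (hk : k ≤ 20) : C * cG ^ k ≤ S.r :=
  (h.mono a.zero_le).gr hC hk

theorem gL' {C : ℝ} {k : ℕ} (hC : C ≤ 10 ^ 20) (hk : k ≤ 20) : C * cG ^ k ≤ S.L :=
  (h.mono a.zero_le).gL hC hk

theorem cgL : 10 ^ 6 * cG ^ 10 ≤ (LL S.l : ℝ) := h.gL' (by norm_num) (by norm_num)

theorem cmul {C x : ℝ} (hC : C ≤ 10 ^ (a + 20)) (hx : 0 ≤ x) : C * x ≤ S.L * x :=
  mul_le_mul_of_nonneg_right (h.cL hC) hx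

/-- `C * r ^ k ≤ L` -/
theorem crL {C : ℝ} {k : ℕ} (hC : C ≤ 10 ^ (a + 20)) (hk : k < 20 * (a + 20 + S.K)) :
    C * (S.r : ℝ) ^ k ≤ S.L :=
  ((mul_le_mul_of_nonneg_right (h.cr hC) (by positivity)).trans_eq (pow_succ' _ _).symm).trans
    (h.rL hk)

theorem three {k : ℕ} (hk : k ≤ (a + 20) * (S.Kt + S.K0 + S.K)) : (3 : ℝ) ^ k ≤ S.r := by
  exact_mod_cast (Nat.pow_le_pow_right (by norm_num) hk).trans h.r_three

/-- powers of `M` -/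
theorem M_pow {k : ℕ} (hk : k ≤ (a + 20) * (S.Kt + S.K0 + S.K)) :
    (S.M : ℝ) ^ k ≤ S.r * S.L ^ k :=
  (h.ok.ML_pow k).trans (mul_le_mul_of_nonneg_right (h.three hk) (pow_pos (L0 _) _).le)

theorem M_pow' {k : ℕ} (hk : k ≤ (a + 20) * (S.Kt + S.K0 + S.K)) :
    (S.M : ℝ) ^ k ≤ S.L ^ (k + 1) :=
  (h.M_pow hk).trans (pow_succ' S.L k ▸
    mul_le_mul_of_nonneg_right h.r_le_L (pow_pos (L0 _) _).le)

theorem QM_pow {k : ℕ} (hk : k ≤ a + 20) : S.QM ^ k ≤ S.r * S.Q ^ k := by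
  rw [QM, Q, ← pow_mul, ← pow_mul]
  exact h.M_pow (by nlinarith)

theorem QM_le : S.QM ≤ S.r * S.Q := by simpa using h.QM_pow (k := 1) (by omega)

theorem LD {k : ℕ} (hk : k ≤ S.K0) : S.L ^ k ≤ S.D0 := D0_eq _ ▸ pw _ hk

theorem LQ {k : ℕ} (hk : k ≤ S.K) : S.L ^ k ≤ S.Q := pw _ hk

theorem L_le_D : S.L ≤ S.D0 := by simpa using h.LD (k := 1) (by have := h.exps; omega)

theorem D_le_Q : (S.D0 : ℝ) ≤ S.Q := D0_eq _ ▸ h.LQ (by have := h.exps; omega)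

theorem L_le_Q : S.L ≤ S.Q := h.L_le_D.trans h.D_le_Q

theorem r_le_Q : (S.r : ℝ) ≤ S.Q := h.r_le_L.trans h.L_le_Q

theorem cQ {C : ℝ} (hC : C ≤ 10 ^ (a + 20)) : C ≤ S.Q := (h.cL hC).trans h.L_le_Q

theorem cQ' {C : ℝ} (hC : C ≤ 10 ^ 20) : C ≤ S.Q := (h.cL' hC).trans h.L_le_Q

theorem gQ {C : ℝ} {k : ℕ} (hC : C ≤ 10 ^ (a + 20)) (hk : k ≤ a + 20) : C * cG ^ k ≤ S.Q :=
  (h.gL hC hk).trans h.L_le_Q

theorem gQ' {C : ℝ} {k : ℕ} (hC : C ≤ 10 ^ 20) (hk : k ≤ 20) : C * cG ^ k ≤ S.Q :=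
  (h.gL' hC hk).trans h.L_le_Q

theorem QM_pow' {k : ℕ} (hk : k ≤ a + 20) : S.QM ^ k ≤ S.Q ^ (k + 1) :=
  (h.QM_pow hk).trans (pow_succ' S.Q k ▸ mul_le_mul_of_nonneg_right h.r_le_Q (pow_pos S.Q0 _).le)

/-- `(L * D0) ^ (a + 20) ≤ Q` -/
theorem DQ : (S.L * S.D0) ^ (a + 20) ≤ S.Q := by
  rw [D0_eq, ← pow_succ', ← pow_mul]
  exact h.LQ (mul_comm (a + 20) _ ▸ h.K_ge)

theorem MT_le : (S.M : ℝ) ^ S.Kt ≤ S.L * S.L ^ S.Kt :=
  pow_succ' S.L S.Kt ▸ h.M_pow' (by nlinarith)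

theorem MD_le : (S.M : ℝ) ^ S.K0 ≤ S.r * S.D0 := D0_eq _ ▸ h.M_pow (by nlinarith)

theorem MD_le' : (S.M : ℝ) ^ S.K0 ≤ S.L * S.D0 :=
  h.MD_le.trans (mul_le_mul_of_nonneg_right h.r_le_L (Nat.cast_nonneg _))

/-- monomials in `L` and `D0` with a numeral in front are at most `Q` -/
theorem mon {C : ℝ} {i j : ℕ} (hC : C ≤ 10 ^ (a + 20)) (hi : i ≤ S.K0) (hj : j ≤ a + 19) :
    C * S.L ^ i * (S.D0 : ℝ) ^ j ≤ S.Q := by
  have h1 := L0 S.toTd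
  calc _ ≤ S.L * S.L ^ i * (S.D0 : ℝ) ^ j := by gcongr; exact h.cL hC
    _ = S.L ^ (i + 1 + S.K0 * j) := by rw [D0_eq]; ring
    _ ≤ _ := h.LQ (by nlinarith [h.K_ge])

/-- the same with a power of the constant of the group -/
theorem mong {C : ℝ} {k i j : ℕ} (hC : C ≤ 10 ^ (a + 20)) (hk : k ≤ a + 20) (hi : i ≤ S.K0)
    (hj : j ≤ a + 19) : C * cG ^ k * S.L ^ i * (S.D0 : ℝ) ^ j ≤ S.Q := by
  have h1 := L0 S.toTd
  calc _ ≤ S.L * S.L ^ i * (S.D0 : ℝ) ^ j := by gcongr; exact h.gL hC hk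
    _ = S.L ^ (i + 1 + S.K0 * j) := by rw [D0_eq]; ring
    _ ≤ _ := h.LQ (by nlinarith [h.K_ge])

/-- `(C * x + C') ^ j ≤ Q` for lengths `x ≤ L * D0` -/
theorem vol {x : ℝ} {j : ℕ} (h0 : 0 ≤ x) (hx : x ≤ (S.L * S.D0) ^ 2) (hj : 2 * j ≤ a + 20) :
    x ^ j ≤ S.Q := by
  have h1 : 1 ≤ S.L * S.D0 := one_le_mul_of_one_le_of_one_le (L1 _) (by exact_mod_cast D1 _)
  refine (pow_le_pow_left₀ h0 hx j).trans ?_
  rw [← pow_mul]
  exact (pow_le_pow_right₀ h1 hj).trans h.DQ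

theorem LL_big : 10 ^ 9 ≤ LL S.l := by have := h.l_big; unfold LL; omega

theorem w_le : 10 ^ 9 * S.w ≤ S.D0 := by
  have := h.exps
  calc _ ≤ LL S.l * S.w := Nat.mul_le_mul_right _ h.LL_big
    _ = LL S.l ^ (2 * S.c + 7) := (pow_succ' _ _).symm
    _ ≤ _ := Nat.pow_le_pow_right (by unfold LL; omega) (by omega)

theorem N_le : 10 ^ 9 * S.N ≤ S.w :=
  (Nat.mul_le_mul_right _ h.LL_big).trans ((pow_succ' _ _).ge.trans
    (Nat.pow_le_pow_right (by unfold LL; omega) (by omega)))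

theorem L_le_N : LL S.l ≤ S.N := Nat.le_self_pow (by omega) _

theorem rA_le : 1000 * (S.t.rA S.r + 4 * S.N + S.l + 100) ≤ S.w := by
  have h1 := h.N_le
  have h2 := h.L_le_N
  have h3 := h.r_sq
  have h4 := h.r1
  have h5 : S.t.rA S.r = S.t.p * (6 * S.N + 3) + S.r / 4 + 4 := rfl
  have h6 := Nat.mul_le_mul_right (6 * S.N + 3) (show S.t.p ≤ 1000 by simp [Td.t])
  unfold LL at h2
  omega

/-- all lengths, for `omega` -/
theorem lens : 10 ^ 9 ≤ S.r ∧ 10 ^ 9 * S.r ≤ S.l ∧ 2 * S.l + 1 ≤ S.N ∧ 10 ^ 9 * S.N ≤ S.w ∧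
    1000 * S.t.rA S.r ≤ S.w ∧ 10 ^ 9 * S.w ≤ S.D0 ∧ 1000 * S.D0 ≤ S.n ∧ S.D0 ≤ S.M ^ S.K0 ∧
      1000 * S.M ^ S.K0 ≤ LL S.l * S.D0 := by
  refine ⟨by have := h.r_big; omega, h.r_sq, h.L_le_N, h.N_le, by have := h.rA_le; omega, h.w_le,
    h.ok.vol, h.ok.DM, ?_⟩
  have h1 : S.M ^ S.K0 ≤ S.r * S.D0 := by exact_mod_cast h.MD_le
  have h2 := h.r_sq
  have h3 : 1000 * S.r ≤ LL S.l := by unfold LL; omega
  nlinarith

theorem cs_le {k : ℕ} (hk : k ≤ a + 20 + S.K) : (S.r : ℝ) ^ k * S.cs ≤ 1 := by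
  have h0 := L0 S.toTd
  rw [cs, Real.rpow_neg h0.le, ← div_eq_mul_inv, div_le_one (by positivity),
    show (1 / 20 : ℝ) = ((20 : ℕ) : ℝ)⁻¹ by norm_num, Real.le_rpow_inv_iff_of_pos (by positivity)
      h0.le (by norm_num), Real.rpow_natCast, ← pow_mul]
  exact h.rL (by omega)

omit h in
theorem cs0 : 0 < S.cs := Real.rpow_pos_of_pos (L0 _) _

omit h in
theorem cs_pow : S.cs ^ 20 * S.L = 1 := by
  rw [cs, ← Real.rpow_natCast, ← Real.rpow_mul (L0 _).le]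
  norm_num
  rw [Real.rpow_neg_one, inv_mul_cancel₀ (L0 _).ne']

theorem ex_r : S.β ^ (a + 20) ≤ Real.exp S.r := h.ex.trans (Real.exp_le_exp.2
  (div_le_self (Nat.cast_nonneg _) (by exact_mod_cast h.ok.c1)))

theorem log_le : (a + 20) * Real.log S.β ≤ S.r := by
  have := Real.log_le_log (pow_pos h.ok.β0 _) h.ex_r
  rw [Real.log_pow, Real.log_exp] at this
  exact_mod_cast this

/-- exponentially small numbers -/
theorem exp_le {x : ℝ} (hx : S.r ≤ x) : Real.exp (-x) * S.β ^ (a + 20) ≤ 1 := by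
  rw [Real.exp_neg, inv_mul_le_iff₀ (Real.exp_pos x), mul_one]
  exact h.ex_r.trans (Real.exp_le_exp.2 hx)

theorem of_β {x : ℝ} {i j k : ℕ} (h0 : 0 ≤ x) (hx : x * S.β ^ k ≤ 1) (hi : i ≤ 1000)
    (hj : j + 2 ≤ 2 * k) : S.Q ^ i * x ≤ S.g ^ j := by
  have g0 := h.ok.g0
  have b1 := h.ok.β1
  obtain ⟨m, rfl⟩ : ∃ m, k = m + 1 := ⟨k - 1, by omega⟩
  calc _ ≤ S.β * x * (S.β * S.g ^ 2) ^ m := by
        rw [h.ok.βg, one_pow, mul_one]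
        exact mul_le_mul_of_nonneg_right ((S.Qw hi).trans h.ok.Qβ) h0
    _ = x * S.β ^ (m + 1) * S.g ^ (2 * m) := by ring
    _ ≤ 1 * S.g ^ j := mul_le_mul hx (pow_le_pow_of_le_one g0.le h.ok.g1 (by omega))
        (by positivity) zero_le_one
    _ = _ := one_mul _

theorem exp_g {x : ℝ} {i j : ℕ} (hx : S.r ≤ x) (hi : i ≤ 1000) (hj : j ≤ 2 * a + 38) :
    S.Q ^ i * Real.exp (-x) ≤ S.g ^ j :=
  h.of_β (Real.exp_nonneg _) (h.exp_le hx) hi (by omega)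

omit h in
theorem τ0 : 0 < S.τ := mul_pos (pow_pos (L0 _) _) (Real.exp_pos _)

theorem τ_β : S.τ * S.β ^ (a + 19) ≤ 1 := by
  have h1 : S.L ^ S.c ≤ S.β := ((h.LQ (by have := h.exps; omega)).trans
    (le_self_pow₀ S.Q1 (by norm_num))).trans h.ok.Qβ
  have h2 := h.ex
  rw [Td.τ, Real.exp_neg, mul_assoc, mul_left_comm, inv_mul_le_iff₀ (Real.exp_pos _), mul_one]
  exact (mul_le_mul_of_nonneg_right h1 (pow_pos h.ok.β0 _).le).trans ((pow_succ' _ _).ge.trans h2)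

theorem τ_g {i j : ℕ} (hi : i ≤ 1000) (hj : j ≤ 2 * a + 36) : S.Q ^ i * S.τ ≤ S.g ^ j :=
  h.of_β τ0.le h.τ_β hi (by omega)

theorem r_le_l : (S.r : ℝ) ≤ S.l := by have := h.r_sq; exact_mod_cast by omega

theorem r_le_D : (S.r : ℝ) ≤ S.D0 := h.r_le_L.trans h.L_le_D

theorem r_le_lsq : (S.r : ℝ) ≤ (S.l : ℝ) ^ 2 := by nlinarith [h.r_le_l, h.r1']

theorem r_le_ζ : (S.r : ℝ) ≤ S.ζ ^ 2 / 4 := by
  have := h.cQ' (C := 4) (by norm_num)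
  unfold ζ
  nlinarith [h.r_le_Q, h.r1']

theorem δ0 : 0 < S.δ := div_pos (pow_pos (by linarith [h.r1']) _) (by exact_mod_cast D1 _)

theorem δ_le {k : ℕ} (hk : k + 1 ≤ S.K0) : S.L ^ k * S.δ ≤ 1 := by
  have h0 : (0 : ℝ) < S.D0 := by exact_mod_cast D1 _
  rw [Td.δ, ← mul_div_assoc, div_le_one h0]
  exact (mul_le_mul_of_nonneg_left (h.rL (by omega)) (pow_pos (L0 _) _).le).trans
    ((pow_succ _ _).ge.trans (h.LD hk))

theorem le_δ : 1 ≤ S.D0 * S.δ := by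
  have h0 : (0 : ℝ) < S.D0 := by exact_mod_cast D1 _
  rw [Td.δ, mul_div_cancel₀ _ h0.ne']
  exact one_le_pow₀ h.r1'

/-- small fields are in the domain of the tree step -/
theorem Qg_δ {i : ℕ} (hi : i ≤ 499) : S.Q ^ i * S.g' ≤ S.δ := by
  have h1 := h.ok.Qg'_le (i := i) (j := 1) (by omega)
  have h2 : 1 ≤ S.Q * S.δ := h.le_δ.trans (mul_le_mul_of_nonneg_right h.D_le_Q h.δ0.le)
  rw [pow_one] at h1
  exact le_of_mul_le_mul_left (h1.trans h2) S.Q0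

theorem ε_ge : S.Q ^ 2 * S.g ≤ S.p.ε :=
  mul_le_mul_of_nonneg_right (pow_le_pow_left₀ S.Q0.le h.ok.QQM 2) h.ok.g0.le

theorem ε_le : S.p.ε ≤ S.r * S.Q ^ 2 * S.g :=
  mul_le_mul_of_nonneg_right (h.QM_pow (by omega)) h.ok.g0.le

theorem ρ_ge : S.Q ^ 3 * S.g ≤ S.p.ρ :=
  mul_le_mul_of_nonneg_right (pow_le_pow_left₀ S.Q0.le h.ok.QQM 3) h.ok.g0.le

theorem ρ_le : S.p.ρ ≤ S.r * S.Q ^ 3 * S.g :=
  mul_le_mul_of_nonneg_right (h.QM_pow (by omega)) h.ok.g0.le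

theorem R_le : (S.p.R : ℝ) ≤ 4 * S.r * S.D0 := by
  rw [p_R]
  push_cast
  linarith [h.MD_le]

theorem D_le : (S.p.D : ℝ) ≤ 20 * S.r * S.D0 := by
  rw [p_D]
  push_cast
  linarith [h.MD_le]

theorem logQ_ge : (10 : ℝ) ≤ Real.log S.Q := by
  rw [Real.le_log_iff_exp_le S.Q0]
  refine le_trans ?_ (h.cQ' (C := 3 ^ 10) (by norm_num))
  rw [show (10 : ℝ) = (10 : ℕ) * 1 by norm_num, Real.exp_nat_mul]
  exact pow_le_pow_left₀ (Real.exp_nonneg _) (Real.exp_one_lt_d9.le.trans (by norm_num)) _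

theorem logQ_le : 1000 * (a + 20) * Real.log S.Q ≤ S.r := by
  have := Real.log_le_log (pow_pos S.Q0 _) h.ok.Qβ
  rw [Real.log_pow] at this
  push_cast at this
  nlinarith [h.log_le]

theorem a_ge : S.p'.a ≤ S.p.a :=
  mul_le_mul_of_nonneg_left (Real.log_le_log S.Q0 h.ok.QQM) zero_le_two

theorem a_le : S.p.a ≤ 4 * Real.log S.Q := by
  have := Real.log_le_log (by linarith [h.ok.QM1]) (pow_one S.QM ▸ h.QM_pow' (k := 1) (by omega))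
  rw [Real.log_pow] at this
  rw [p_a]
  push_cast at this
  linarith

theorem exp_a : Real.exp S.p.a = S.QM ^ 2 := by
  rw [p_a, show (2 : ℝ) = (2 : ℕ) by norm_num, Real.exp_nat_mul,
    Real.exp_log (by linarith [h.ok.QM1])]

omit h in
theorem exp_a' : Real.exp S.p'.a = S.Q ^ 2 := by
  rw [p'_a, show (2 : ℝ) = (2 : ℕ) by norm_num, Real.exp_nat_mul, Real.exp_log S.Q0]

theorem zm_le : S.zm ≤ S.β ^ 2 := by
  rw [zm_eq, sq]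
  exact mul_le_mul ((le_self_pow₀ S.Q1 (by norm_num)).trans h.ok.Qβ) h.ok.ginv
    (inv_pos.2 h.ok.g0).le h.ok.β0.le

end Nu

end Sd

end Pool.Agent.Lib.MP_7f377f_mp.RG.Q4
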