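import Pool.Agent.Lib.MP_7f377f_mp.G.Q4Pos
import Pool.Agent.Lib.MP_7f377f_mp.G.Q4Ini

/-! Level zero with sources which depend on the plaquette. -/

noncomputable section

set_option linter.unusedSectionVars false
variable [Pool.Agent.Lib.MP_7f377f_mp.GD]

namespace Pool.Agent.Lib.MP_7f377f_mp.RG.Q4.En.Pos

open Finset Real JT Metric
open scoped Classical

attribute [local irreducible] box lbox

/-- couplings of the plaquettes -/
abbrev Sr : Type := St → Fin 4 → Fin 4 → ℂ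

/-- the Wilson density of one plaquette in the chart -/
def wp (μ ν : Fin 4) (B : Fld) : ℂ := 2⁻¹ * enq (hol star (exF (cg B)) 0 μ ν)

/-- the local terms of a source -/
def sL (F : Sr) : Lx := fun x B => ∑ μ, ∑ ν, F x μ ν * wp μ ν B

/-- the activities with a source -/
def sK (p : Pa) (n : ℕ) (β : ℝ) (F : Sr) : Ac := KI p n (ww fun x μ ν => β + F x μ ν)

/-- their derivative -/
def dS (p : Pa) (n : ℕ) (β : ℝ) (F : Sr) : Ac := dA fun t => sK p n β (t • F)

/-- the smeared action density -/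
def sO (n : ℕ) (F : Sr) (U : Conf) : ℂ :=
  ∑ x ∈ box (n / 2), ∑ μ, ∑ ν, F x μ ν * (2⁻¹ * fq U x μ ν ^ 2 : ℝ)

variable {p : Pa} {n : ℕ} {β ρ A a τ v : ℝ} {F F' : Sr} {μ ν : Fin 4} {S : Sd} {g : St → ℂ}

theorem wp_sum (B : Fld) : ∑ μ, ∑ ν, wp μ ν B = cx m0 B B + TW B := by
  simp [wp, TW, phi0]

theorem sL_one : sL 1 = fun _ B => cx m0 B B + TW B := by
  funext x B
  simp [sL, wp_sum]

theorem sL_add : sL (F + F') = sL F + sL F' := by
  funext x B
  simp [sL, add_mul, sum_add_distrib]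

theorem sL_smul (t : ℂ) : sL (t • F) = t • sL F := by
  funext x B
  simp [sL, mul_sum, mul_assoc]

theorem sL_zero : sL 0 = 0 := by
  funext x B
  simp [sL]

theorem sL_sum {ι : Type} (A : Finset ι) (s : ι → ℂ) (F : ι → Sr) :
    sL (∑ i ∈ A, s i • F i) = ∑ i ∈ A, s i • sL (F i) := by
  induction A using Finset.cons_induction with
  | empty => exact sL_zero
  | cons i A hi ih => rw [sum_cons, sum_cons, sL_add, sL_smul, ih]

theorem wp_meas : Measurable (wp μ ν) := by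
  have h1 : ∀ e, Measurable fun B : Fld => cg B e := fun e => by
    simp only [cg, gr, lam, pr, Pi.sub_apply]
    fun_prop
  have h2 : ∀ e, MQ fun B : Fld => exF (cg B) e := fun e => mq_ex (h1 e)
  exact ((((h2 _).mul (h2 _)).mul (h2 _).star).mul (h2 _).star).enq.const_mul _

theorem wp_real {B : Fld} (hB : RealF B) : (wp μ ν B).im = 0 := by
  have h2 : ∀ e, ∃ g : S3, cS g = ex (cg B e) := fun e => by
    obtain ⟨v, hv⟩ := exists_cE (b := cg B e) fun k => by
      simp [cg, gr, lam, pr, hB _ k]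
    exact hv ▸ (ex_real v).imp fun _ h => h.1
  choose U hU using h2
  have h3 : exF (cg B) = cC U := funext fun e => (hU e).symm
  simp [wp, h3, hol_cC, enq_cS, ← Complex.ofReal_pow]

theorem wp_ps (h0 : 0 < ρ) (h1 : 10 ^ 7 * ρ ≤ 1) :
    Ps 1 6 ρ (10 ^ 35) (10 ^ 35) (10 ^ 35 * ρ ^ 3) (wp μ ν) := by
  have sm : ∀ B : Fld, Cv 1 (1 / 10 ^ 5) B → Sm 1 (3 * (1 / 10 ^ 5)) (cg B) := fun B hB => by
    simpa using Sm_cg hB
  have m0 : ∀ κ : Fin 4, ((0 : St), κ) ∈ lbox 1 := zero_lbox 1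
  have m1 : ∀ κ κ' : Fin 4, ((0 : St) + un κ, κ') ∈ lbox 1 := un_lbox
  have z : wp μ ν 0 = 0 := by
    have : cg (0 : Fld) = 0 := cg_eq_self fun _ _ _ => rfl
    simp [wp, this, hol, exF, enq_one]
  have := (tb_ball (R := 1) (δ := 1 / 10 ^ 5) (M := 1) (φ := wp μ ν)
    ⟨fun A B _ _ _ h => ?_, fun h B _ _ _ => ?_⟩ (fun Ω γ _ hγ hc => ?_) (fun B hB => ?_)
    (by norm_num)).ps (by norm_num) (by norm_num) h0 (by linarith) 6
  · simp only [z, sub_zero] at this
    refine this.mono' h0 (by norm_num) (by norm_num) ?_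
    rw [div_pow, div_eq_mul_inv]
    norm_num
    nlinarith [pow_pos h0 3]
  · have h2 : Agr 1 (exF (cg A)) (exF (cg B)) := fun e he => congrArg ex (cg_loc h e he)
    simp only [wp, hol_agr star h2]
  · have h2 : cg (adF (fun _ => cS h) B) = adF (fun _ => cS h) (cg B) :=
      cg_map (adL (cS h)).toAddMonoidHom B
    have h3 : hol star (exF (adF (fun _ => cS h) (cg B))) 0 μ ν =
        cS h * hol star (exF (cg B)) 0 μ ν * star (cS h) := by
      have e : ∀ q : Hc, star (cS h) * (cS h * q) = q := fun q => by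
        rw [← mul_assoc, (uni_cS h).star_mul, one_mul]
      simp only [hol, exF, adF, ex_adq (uni_cS h), star_mul, star_star, mul_assoc, e]
    simp only [wp, h2, h3, enq_conj (uni_cS h)]
  · have h2 : ∀ e ∈ lbox 1, DifferentiableOn ℂ (fun t => exF (cg (γ t)) e) Ω := fun e he =>
      diff_ex (hγ.cg e) fun t ht => (sm _ (hc t ht) e he).trans (by norm_num)
    have h3 : ∀ e ∈ lbox 1, DifferentiableOn ℂ (fun t => star (exF (cg (γ t)) e)) Ω := fun e he =>
      stL.differentiable.comp_differentiableOn (h2 e he)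
    exact (diff_enq
      ((((h2 _ (m0 μ)).mul (h2 _ (m1 μ ν))).mul (h3 _ (m1 ν μ))).mul (h3 _ (m0 ν)))).const_mul _
  · have h2 := hol_ap (Ap_exF (sm B hB) (by norm_num)) (by norm_num) (by norm_num) μ ν
    rw [dd_cg] at h2
    have h3 := hB 0 (zero_mem_box 1) μ ν
    have h4 := cubic h3 h2
    have h5 := norm_dot (dd B 0 μ ν) (dd B 0 μ ν)
    have h6 := norm_add_le_of_le h4 (norm_mul_le 2⁻¹ (dot (dd B 0 μ ν) (dd B 0 μ ν)))
    rw [sub_add_cancel, norm_inv, Complex.norm_ofNat] at h6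
    exact h6.trans (by nlinarith [norm_nonneg (dd B 0 μ ν)])

theorem sL_pm (hR : 1 ≤ p.R) (h0 : 0 < p.ρ) (h1 : 10 ^ 7 * p.ρ ≤ 1) (hF : ∀ x μ ν, ‖F x μ ν‖ ≤ A) :
    PM p (10 ^ 37 * A) (10 ^ 37 * A) (10 ^ 37 * A * p.ρ ^ 3) (sL F) := fun x => by
  have A0 := (norm_nonneg _).trans (hF 0 0 0)
  refine ⟨(Ps.sum univ h0 fun μ _ => (Ps.sum univ h0 fun ν _ =>
    (((((wp_ps h0 h1).mono hR h0 le_rfl le_rfl le_rfl (xr' := 10 ^ 35 * p.ρ ^ 3) (by
      rw [div_self h0.ne', one_pow, mul_one])).smul h0 (F x μ ν)).1).mono' h0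
      (mul_le_mul_of_nonneg_right (hF x μ ν) (by norm_num))
      (mul_le_mul_of_nonneg_right (hF x μ ν) (by norm_num))
      (mul_le_mul_of_nonneg_right (hF x μ ν) (by positivity)))).1).1.mono' h0 ?_ ?_ ?_,
    measurable_sum _ fun μ _ => measurable_sum _ fun ν _ => wp_meas.const_mul _⟩ <;>
  simp only [sum_const, card_univ, Fintype.card_fin, nsmul_eq_mul, Nat.cast_ofNat] <;>
  nlinarith [mul_nonneg A0 (pow_pos h0 3).le]

theorem sL_real (hF : ∀ x μ ν, (F x μ ν).im = 0) : RealL (sL F) := fun x B hB => by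
  simp [sL, hF, wp_real hB]

theorem wp_chart {ε : ℝ} {U : Conf} {x : St} (h : ∀ y ∈ box 1, ∀ μ ν, fq U (x + y) μ ν ≤ ε)
    (h1 : 6 * ε ≤ 1) : wp μ ν (Bx x (cC U)) = (2⁻¹ * fq U x μ ν ^ 2 : ℝ) := by
  have h2 := (Bx_loc (R := 1) (U := sh x U) (fun y hy μ ν => by
    rw [Mx.fq_sh, add_comm]; exact h y hy μ ν) (by simpa using h1)).2
  have h3 : Bx x (cC U) = Bx 0 (cC (sh x U)) := by rw [SX.cC_sh, Bx_sh, zero_add]
  rw [wp, h3, cg_Bx]
  simp only [← hol_agr star h2, hol_cC, hol_gauge, cmb_zero, hol_sh, fq, enq_cS]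
  simp

/-- the weight with a source -/
theorem ww_src (U : Conf) : ∏ x ∈ box (n / 2), ww (fun x μ ν => β + F x μ ν) x U =
    wil β n U * Complex.exp (-sO n F U) := by
  rw [wil_eq_prod, sO, ← sum_neg_distrib, Complex.exp_sum, ← prod_mul_distrib]
  refine prod_congr rfl fun x _ => ?_
  simp only [ww, add_mul, sum_add_distrib, neg_add, Complex.exp_add]

theorem sK_zero : sK p n β 0 = KI p n (ww fun _ _ _ => β) := by simp [sK]

/-- the representation at level zero -/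
theorem init_src (h : S.Nu 100) (hm : S.m = v • m0) (hT : S.T = fun B => v * TW B) (F : Sr)
    {U : Conf} (hU : Per S.nf U) : wil (v * S.β) S.nf U * Complex.exp (-sO S.nf F U) =
      Rep S.p S.nf (S.Φ (sL F)) (sK S.p S.nf (v * S.β) F) U := by
  rw [← ww_src]
  refine KI_rep h.ok.odd_nf hU fun x hx => ?_
  have e : ∀ μ ν, wp μ ν (Bx x (cC U)) = _ := fun μ ν => wp_chart (fun y hy μ ν => by
    rw [add_comm, ← Mx.fq_sh]; exact hx y (box_mono (by omega) hy) μ ν)
    (by linarith [h.ε_small, h.ε0])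
  rw [Sd.Φ, hm, hT, cx_smul, ← mul_add, ← wp_sum, ww, sL]
  simp only [← e, add_mul, sum_add_distrib, ← mul_sum]
  congr 2
  push_cast
  ring

theorem sK_km (h : S.Nu 100) (hβ : S.β / 2 ≤ β) (hF : ∀ x μ ν, ‖F x μ ν‖ ≤ S.β / 4) :
    KM S.p S.nf (kI S.p S.nf (S.β / 4)) (sK S.p S.nf β F) :=
  h.KI_km' le_rfl (wz_ww (by linarith [h.ok.β0]) fun x μ ν => by
    have := (neg_le_of_abs_le (Complex.abs_re_le_norm _)).trans' (neg_le_neg (hF x μ ν))
    simp only [Complex.add_re, Complex.ofReal_re]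
    linarith)

/-- the norm of the majorant, with slack -/
theorem kI_up (h : S.Nu 100) : kN S.p.up S.nf (kI S.p S.nf (S.β / 4)) (S.g ^ 31) :=
  h.kI_sum le_rfl zero_le_one S.Q1 le_rfl

theorem sK_real (hF : ∀ x μ ν, (F x μ ν).im = 0) : RealA (sK p n β F) :=
  KI_real fun x _ => ww_real fun μ ν => by simp [hF]

theorem sK_loc (hn : Odd n) {X : Finset St} (h : ∀ y ∈ X, F y = F' y) (c : Finset (Finset St)) :
    sK p n β F X c = sK p n β F' X c :=
  KI_loc hn (fun y hy => funext fun _ => ww_fq (by simp only [h y hy]) fun _ _ => rfl) c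

theorem sK_tr (hn : Odd n) (w : St) {o : LP St} (ho : o ∈ lps (box (n / 2))) :
    trA n w (sK p n β F) o.1 o.2 = sK p n β (fun x => F (rc n (x + w))) o.1 o.2 :=
  KI_tr hn w (fun _ _ _ _ => ww_fq rfl) ho

theorem sK_diff {E : Type} [NormedAddCommGroup E] [NormedSpace ℂ E] {F : E → Sr}
    (h : ∀ x μ ν, Differentiable ℂ (F · x μ ν)) (X : Finset St) (c : Finset (Finset St))
    (U : Conf) : Differentiable ℂ fun z => sK p n β (F z) X c U := by
  have : ∀ x, Differentiable ℂ fun z => ww (fun x μ ν => β + F z x μ ν) x (pc n U) := fun x => by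
    have := h x
    unfold ww
    fun_prop
  have q : ∀ (O : Finset St) (k : St → ℂ), Differentiable ℂ fun z =>
      ∏ x ∈ O, k x * ww (fun x μ ν => β + F z x μ ν) x (pc n U) := fun O k z =>
    (HasFDerivAt.finsetProd fun x _ => ((this x).const_mul (k x) z).hasFDerivAt).differentiableAt
  exact Differentiable.fun_sum fun O _ => (q _ _).mul (q _ _)

theorem dS_smul (t : ℂ) : dS p n β (t • F) = t • dS p n β F := by
  funext X c U
  simp only [dS, dA, smul_smul, Pi.smul_apply, smul_eq_mul]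
  simpa [mul_comm] using deriv_comp_mul_left t (fun s => sK p n β (s • F) X c U) 0

theorem dS_add : dS p n β (F + F') = dS p n β F + dS p n β F' := by
  funext X c U
  have d := (sK_diff (p := p) (n := n) (β := β) (F := fun z : ℂ × ℂ => z.1 • F + z.2 • F')
    (fun x μ ν => by simp only [Pi.add_apply, Pi.smul_apply]; fun_prop) X c U 0).hasFDerivAt
  have e := fun w : ℂ × ℂ => (d.comp_hasDerivAt_of_eq (0 : ℂ)
    ((hasDerivAt_id' (0 : ℂ)).smul_const w) (by simp)).deriv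
  have e1 := e (1, 1)
  have e2 := e (1, 0)
  have e3 := e (0, 1)
  rw [show ((1, 1) : ℂ × ℂ) = (1, 0) + (0, 1) by simp, smul_add (1 : ℂ), map_add, ← e2, ← e3] at e1
  simpa [dS, dA, Function.comp_def] using e1

theorem dS_sub : dS p n β (F - F') = dS p n β F - dS p n β F' := by
  rw [eq_sub_iff_add_eq, ← dS_add, sub_add_cancel]

theorem dS_loc (hn : Odd n) {X : Finset St} (h : ∀ y ∈ X, F y = F' y) (c : Finset (Finset St)) :
    dS p n β F X c = dS p n β F' X c := funext fun U => congrArg (deriv · 0) <| funext fun t =>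
  congrFun (sK_loc hn (fun y hy => by simp only [Pi.smul_apply, h y hy]) c) U

theorem dS_tr (hn : Odd n) (w : St) {o : LP St} (ho : o ∈ lps (box (n / 2))) :
    trA n w (dS p n β F) o.1 o.2 = dS p n β (fun x => F (rc n (x + w))) o.1 o.2 :=
  funext fun U => congrArg (deriv · 0) <| funext fun t => congrFun (sK_tr (F := t • F) hn w ho) U

theorem src_cov (hn : Odd n) : TCov n (sL 1) (dS p n β 1) := fun w => ⟨rfl, fun _ => dS_tr hn w⟩

theorem dS_km (h : S.Nu 100) (hβ : S.β / 2 ≤ β) (hF : ∀ x μ ν, ‖F x μ ν‖ ≤ 1) :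
    KM S.p S.nf ((8 / S.β) • kI S.p S.nf (S.β / 4)) (dS S.p S.nf β F) := by
  have β0 := h.ok.β0
  have := (km_schwarz (e := 4 / S.β) (F := fun t => sK S.p S.nf β (t • F)) (by positivity)
    (fun t ht => sK_km h hβ fun x μ ν => ?_) fun X c U => (sK_diff (fun x μ ν => by
      simp only [Pi.smul_apply]; fun_prop) X c U).differentiableOn).1
  · rwa [show 2 * (4 / S.β) = 8 / S.β by ring] at this
  · rw [inv_div, mem_ball_zero_iff] at ht
    exact (norm_mul_le_of_le ht.le (hF x μ ν)).trans_eq (mul_one _)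

theorem dS_km' (h : S.Nu 100) (hβ : S.β / 2 ≤ β) (hF : ∀ x μ ν, ‖F x μ ν‖ ≤ A) :
    KM S.p S.nf ((8 / S.β * A) • kI S.p S.nf (S.β / 4)) (dS S.p S.nf β F) := by
  rcases ((norm_nonneg _).trans (hF 0 0 0)).eq_or_lt with rfl | A0
  · obtain rfl : F = (0 : ℂ) • 0 := by
      funext x μ ν
      simpa using hF x μ ν
    rw [dS_smul]
    simpa using (dS_km (F := 0) h hβ (by simp)).smul 0
  have := (dS_km (F := (A : ℂ)⁻¹ • F) h hβ fun x μ ν => by
    simpa [abs_of_pos A0, inv_mul_le_one₀ A0] using hF x μ ν).smul A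
  rwa [← dS_smul, smul_smul, smul_smul, mul_inv_cancel₀ (Complex.ofReal_ne_zero.2 A0.ne'), one_smul,
    Complex.norm_real, norm_of_nonneg A0.le, mul_comm] at this

theorem sL_sz (h : S.Nu 100) (hF : ∀ x μ ν, ‖F x μ ν‖ ≤ A) : PM S.p (10 ^ 37 * A)
    (S.QM ^ 2 * A) (S.QM ^ 50 * √S.g * A * S.g ^ 2) (sL F) := fun x => by
  have A0 := (norm_nonneg _).trans (hF 0 0 0)
  have g0 := h.ok.g0
  have M1 := h.ok.QM1
  have c := (h.cQ (C := 10 ^ 37) (by norm_num)).trans h.ok.QQM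
  have q := sL_pm (by have := h.ok.DM.trans' (Sd.D1 _); rw [Sd.p_R]; omega) (rho_pos h) (by
    have h1 := h.ok.Qg_le (i := 4) (j := 1) (by norm_num)
    have h2 := mul_le_mul_of_nonneg_right h.r_le_Q (mul_pos (pow_pos S.Q0 3) g0).le
    have h3 := mul_le_mul_of_nonneg_right (h.cQ' (C := 10 ^ 7) (by norm_num))
      (mul_pos (pow_pos S.Q0 4) g0).le
    nlinarith [h.ρ_le]) hF x
  refine ⟨q.1.mono' (rho_pos h) le_rfl (by gcongr; nlinarith) ?_, q.2⟩
  calc _ = 10 ^ 37 * S.QM ^ 9 * S.g * A * S.g ^ 2 := by rw [Sd.p_ρ]; ring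
    _ ≤ S.QM * S.QM ^ 49 * √S.g * A * S.g ^ 2 := by
      gcongr
      · norm_num
      · exact le_sqrt_of_sq_le (by nlinarith [h.ok.g1])
    _ = _ := by ring

theorem tiny (h : S.Nu 100) : S.Q * (8 / S.β * S.g ^ 31) ≤ √S.g * S.g ^ 2 := by
  have g0 := h.ok.g0
  have g1 := h.ok.g1
  have a := h.ok.Qg_le (i := 2) (j := 0) (by norm_num)
  have b := h.cQ' (C := 8) (by norm_num)
  have c : S.g ≤ √S.g := le_sqrt_of_sq_le (by nlinarith)
  have Q0 := S.Q0
  calc _ ≤ S.Q * (S.Q / 1 * S.g ^ 4) := by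
        have := pow_le_pow_of_le_one g0.le g1 (show 4 ≤ 31 by norm_num)
        gcongr ?_ * (?_ / ?_ * ?_)
        exact h.ok.β1
    _ = S.Q ^ 0 * (S.Q ^ 2 * S.g) * (S.g * S.g ^ 2) := by ring
    _ ≤ 1 * (√S.g * S.g ^ 2) := by gcongr
    _ = _ := one_mul _

/-- the size of the first jet at level zero -/
theorem src_sz (h : S.Nu 100) (hβ : S.β / 2 ≤ β) (hF : ∀ x μ ν, ‖F x μ ν‖ ≤ A) :
    Sz S.p S.nf S.QM S.g (10 ^ 37 * A) A (√S.g) (sL F) (dS S.p S.nf β F) := by
  have A0 := (norm_nonneg _).trans (hF 0 0 0)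
  have β0 := h.ok.β0
  have g0 := h.ok.g0
  refine ⟨sL_sz h hF, _, dS_km' h hβ hF, ((kN_up (kI_up h)).smul (by positivity)).mono ?_⟩
  nlinarith [mul_le_mul_of_nonneg_right (tiny h) A0, mul_le_mul_of_nonneg_right S.Q1
    (by positivity : 0 ≤ 8 / S.β * S.g ^ 31 * A)]

theorem kn_diam {k : Mj} {θ : ℝ} (h : kN p.up n k θ) (τ0 : 0 ≤ τ) (a0 : 0 ≤ a) :
    kN p n (fun X c => (τ + a * ((tau n p.D X + 2) * p.D : ℕ)) * k X c) ((τ + 2 * p.D * a) * θ) := by
  refine ⟨fun X c => mul_nonneg (by positivity) (h.1 X c), fun x => le_trans ?_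
    (mul_le_mul_of_nonneg_left (h.2 x) (by positivity))⟩
  rw [mul_sum]
  refine sum_le_sum fun o _ => ?_
  have e : wgt p.up n o.1 o.2 = exp (tau n p.D o.1) * wgt p n o.1 o.2 := by
    rw [wgt, wgt, ← exp_add]
    exact congrArg exp (by simp only [Pa.up]; ring)
  have := h.1 o.1 o.2
  have := add_one_le_exp (tau n p.D o.1 : ℝ)
  have t0 : (0 : ℝ) ≤ tau n p.D o.1 := Nat.cast_nonneg _
  have : 0 < wgt p n o.1 o.2 := exp_pos _
  have : 0 ≤ a * p.D := by positivity
  rw [e]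
  push_cast
  generalize (tau n p.D o.1 : ℝ) = t at *
  calc _ ≤ (τ + 2 * p.D * a) * exp t * k o.1 o.2 * wgt p n o.1 o.2 := by gcongr; nlinarith
    _ = _ := by ring

/-- the first jet at level zero is close to a slowly varying multiple of the jet of the constant
source -/
theorem src_pos (h : S.Nu 100) (hβ : S.β / 2 ≤ β) (hL : LipT S.nf a g) (a0 : 0 ≤ a)
    (hg : ∀ x, ‖g x‖ ≤ A) (hF : ∀ x μ ν, ‖F x μ ν - g x‖ ≤ τ) :
    Tz S (10 ^ 37 * τ + a) (sL F - mL g (sL 1)) (dS S.p S.nf β F - mA g (dS S.p S.nf β 1)) := by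
  have τ0 := (norm_nonneg _).trans (hF 0 0 0)
  have β0 := h.ok.β0
  have g0 := h.ok.g0
  have M0 := h.ok.QM1
  have hD := h.ok.DM.trans' (Sd.D1 _)
  refine ⟨fun x => ?_, ?_⟩
  · have q := sL_sz (F := fun x μ ν => F x μ ν - g x) h hF x
    rw [show (sL F - mL g (sL 1)) x = sL (fun x μ ν => F x μ ν - g x) x from funext fun B => by
      simp [sL, mL, sub_mul, mul_sum]]
    exact ⟨q.1.mono' (rho_pos h) (by linarith) (by gcongr; linarith) (by gcongr; linarith), q.2⟩
  have j := (dS_km' (F := F) (A := τ + A) h hβ fun x μ ν => (norm_le_insert' _ (g x)).trans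
    (by linarith [hF x μ ν, hg x])).sub (km_mA (dS_km (F := 1) h hβ (by simp)) g)
  refine ⟨_, ⟨j.meas, j.per, j.dep, j.gi, fun X c U hU => ?_⟩,
    (kn_diam ((kI_up h).smul (s := 8 / S.β) (by positivity)) τ0 a0).mono ?_⟩
  · have q := (dS_km' (F := fun y μ ν => if y ∈ X then F y μ ν - g (px X) else 0)
      (A := τ + a * ((tau S.nf S.p.D X + 2) * S.p.D : ℕ)) h hβ fun y μ ν => by
        split_ifs with e
        · exact (norm_sub_le_norm_sub_add_norm_sub _ (g y) _).trans (add_le_add (hF y μ ν)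
            (hL _ _ _ (tau_diam (by rw [Sd.p_D]; omega) e (px_mem ⟨y, e⟩))))
        · rw [norm_zero]
          positivity).bd X c U hU
    rw [← dS_loc (F := F - g (px X) • 1) h.ok.odd_nf (fun y hy => by funext μ ν; simp [hy]),
      dS_sub, dS_smul] at q
    exact q.trans_eq (by simp only [Pi.smul_apply, smul_eq_mul]; ring)
  · have d : 2 * (S.p.D : ℝ) ≤ S.Q := by
      have := h.mon (C := 40) (i := 1) (j := 1) (by norm_num) (by have := h.exps; omega) (by omega)
      have := mul_le_mul_of_nonneg_right h.r_le_L (Nat.cast_nonneg S.D0)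
      linarith [h.D_le]
    calc _ ≤ (S.Q * τ + S.Q * a) * (8 / S.β * S.g ^ 31) := by
          gcongr
          exact le_mul_of_one_le_left τ0 S.Q1
      _ = (τ + a) * (S.Q * (8 / S.β * S.g ^ 31)) := by ring
      _ ≤ (10 ^ 37 * τ + a) * (√S.g * S.g ^ 2) :=
          mul_le_mul (by linarith) (tiny h) (by have := S.Q0; positivity) (by positivity)
      _ = _ := by ring

end Pool.Agent.Lib.MP_7f377f_mp.RG.Q4.En.Pos
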