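import Pool.Agent.Lib.MP_7f377f_mp.G.OddCell
import Pool.Agent.Lib.MP_7f377f_mp.JetB

/-! Generating functions of moments: the interface to the renormalisation group. -/

noncomputable section

namespace Pool.Agent.Lib.MP_7f377f_mp.YM7
variable [GD]

open MeasureTheory Weak Filter Topology Real Jet Finset

variable {n : ℕ} [NeZero n] {κ : Type} [Fintype κ] [DecidableEq κ]

/-- moments with respect to a functional -/
def mom (Λ : (Cfg n → ℝ) → ℝ) (F : κ → Src n) (T : Finset κ) : ℂ :=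
  (Λ fun U => ∏ i ∈ T, -gfield (F i) U : ℝ)

/-- the moments are those of `exp (∑ e T s ^ T)` up to a correction with jets of size `w` -/
def Red (Λ : (Cfg n → ℝ) → ℝ) (F : κ → Src n) (w M : ℝ) (e : Finset κ → ℂ) : Prop :=
  e ∅ = 0 ∧ ∃ q, SH (fun _ => w⁻¹) M q ∧ q 0 = 1 ∧
    ∀ T, mom Λ F T = jd T fun s => Complex.exp (ma univ e s) * q s

/-- normalised functionals with the symmetries of the grid of cells of side `lam` -/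
structure Inv (Λ : (Cfg n → ℝ) → ℝ) (lam : ℕ) : Prop where
  one : Λ (fun _ => 1) = 1
  sh : ∀ O, Continuous O → ∀ v : Site 4 n, (∀ l, ∃ t : ℕ, v l = (lam * t : ℕ)) →
    Λ (fun U => O (shift v U)) = Λ O
  rf : ∀ O, Continuous O → ∀ l, Λ (fun U => O (refl l U)) = Λ O

/-- different sources are at distance at least `D` -/
def Sp (D : ℕ) (F : κ → Src n) : Prop := ∀ i j, i ≠ j → ∀ x μ ν y μ' ν', F i x μ ν ≠ 0 →
  F j y μ' ν' ≠ 0 → ∃ l, D ≤ ((x - y) l).valMinAbs.natAbs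

/-- admissible families of sources in the cell `c` -/
def Cla {m : ℕ} (a a' τ δ : ℝ) (lam D : ℕ) (c : Site 4 m) (F : κ → Src n) : Prop :=
  (∀ i, Nrm a' τ (F i) ∧ InT a δ lam c (F i)) ∧ Sp D F

variable [MeasurableSpace SU2] (h : Measure SU2)

/-- expectation -/
def ex (b : ℝ) (n : ℕ) [NeZero n] (O : Cfg n → ℝ) : ℝ := ∫ U, O U ∂wilson h b n

/-- factorisation over the cells up to a function which is bounded on a polydisc -/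
def Gen (b : ℝ) {m : ℕ} [NeZero m] (Λ : (Cfg n → ℝ) → ℝ) (P : Site 4 m → (κ → Src n) → Prop)
    (w M : ℝ) : Prop :=
  ∀ F : Site 4 m → κ → Src n, (∀ c, P c (F c)) → ∃ g : (Site 4 m × κ → ℂ) → ℂ,
    SH (fun _ => w⁻¹) M g ∧ ∀ B, mom (ex h b n) (fun q : Site 4 m × κ => F q.1 q.2) B =
      jd B fun s => g s * ∏ c, ma univ (mom Λ (F c)) fun i => s (c, i)

variable {ι : Type} (Φ : Filter ι) (n : ι → ℕ) [∀ p, NeZero (n p)] (a b τ : ι → ℝ)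

/-- one source in each cell -/
def Poly2 : Prop :=
  ∀ (e : ℕ) (δ : ℝ), 0 < δ → ∃ C w : ℝ, ∀ᶠ p in Φ, ∃ (m lam : ℕ) (_ : NeZero m), Odd m ∧
    n p = m * lam ∧ a p * lam = (3 ^ e)⁻¹ ∧ ∃ Λ, Inv Λ lam ∧ Gen h (b p) (κ := Unit) (n := n p) Λ
      (Cla (m := m) (a p) (a p) (τ p) δ lam 0) w (exp (C * m ^ 4))

/-- comparison of the exponents with those of a weakly coupled lattice theory -/
def Cmp2 (K C : ℕ) : Prop :=
  ∀ k ≤ K, ∀ f : Fin k → R4 → ℝ, Adm f → ∃ M : ℝ, ∀ η > 0, ∀ D₀ : ℝ, ∀ᶠ d in 𝓝[>] (0 : ℝ),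
    ∀ᶠ p in Φ, ∃ (n₀ : ℕ) (_ : NeZero n₀) (a₀ b₀ γ ρ ε w c : ℝ) (F : Fin k → Src (n p))
      (F₀ : Fin k → Src n₀) (e e₀ : Finset (Fin k) → ℂ), 0 < a₀ ∧ D₀ ≤ d / a₀ ∧ (d / a₀) ^ C ≤ b₀ ∧
      2 * b₀ ≤ n₀ ∧ |b₀ / log a₀⁻¹ - 11 * GD.b0 / (48 * π ^ 2)| ≤ η ∧ |γ - 1| ≤ η ∧
      corr h (b p) (n p) (a p) (fun i y => f i (d⁻¹ • y)) = c * gcorr h (b p) (n p) F ∧
      corr h b₀ n₀ a₀ (fun i y => f i (d⁻¹ • y)) = c * gcorr h b₀ n₀ F₀ ∧ |c| ≤ M ∧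
      Red (ex h (b p) (n p)) F w M e ∧ Red (ex h b₀ n₀) F₀ w M e₀ ∧ 0 < w ∧ 0 < ρ ∧ w ≤ ε * ρ ∧
      ε < 1 ∧ ε * (b₀ * ρ) ^ k ≤ η ∧ ∀ T : Finset (Fin k), 2 ≤ T.card →
        ‖e₀ T‖ ≤ ρ ^ T.card ∧ ‖e T - γ ^ T.card * e₀ T‖ ≤ ε * ρ ^ T.card

end Pool.Agent.Lib.MP_7f377f_mp.YM7
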