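import Pool.Agent.Lib.MP_7f377f_mp.G.Q4FlatA
import Pool.Agent.Lib.MP_7f377f_mp.G.Q4Src
import Pool.Agent.Lib.MP_7f377f_mp.G.Q4SGeo
import Pool.Agent.Lib.MP_7f377f_mp.G.SoftD

/-! From sources on the discrete torus to the data of the renormalisation group. -/

noncomputable section

open Pool.Agent.Lib.MP_7f377f_mp.Jet

set_option linter.unusedSectionVars false
variable [Pool.Agent.Lib.MP_7f377f_mp.GD]

namespace Pool.Agent.Lib.MP_7f377f_mp.RG.Q4

open Finset MeasureTheory Mx Sg En.Pos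
open Fi hiding sO
open scoped Classical

namespace Br

variable {l n : ℕ} {a : ℝ} {f g : Conf → ℂ}

theorem gi_bc (h : GI n f) : BC f := ⟨h.1, h.2.1⟩

theorem bc_int (h : BC f) (n : ℕ) : Integrable (fun U => f (pc n U)) PP :=
  let ⟨_, hM⟩ := h.2
  .of_bound (h.1.comp meas_pc).aestronglyMeasurable _ (.of_forall fun _ => hM _)

theorem gi_comp (h : GI n f) {φ : ℂ → ℂ} (hφ : Continuous φ) : GI n fun U => φ (f U) := by
  obtain ⟨hm, ⟨M, hM⟩, hg⟩ := h
  obtain ⟨C, hC⟩ := (isCompact_closedBall (0 : ℂ) M).exists_bound_of_continuousOn hφ.continuousOn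
  exact ⟨hφ.measurable.comp hm, ⟨C, fun U => hC _ (mem_closedBall_zero_iff.2 (hM U))⟩,
    fun u U a b => congrArg φ (hg u U a b)⟩

theorem int_pos (ha : 0 ≤ a) (hn : Odd n) (h : GI (LL l * n) f) (hi : ∀ U, (f U).im = 0)
    (hp : ∀ U, 0 ≤ (f U).re) :
    ∫ W, TT l a n f (pc n W) ∂PP = ∫ U, f (pc (LL l * n) U) ∂PP := by
  have hm := lint_TT a hn h hp (G := fun _ => 1) measurable_const
  simp only [Pk_one, mul_one] at hm
  have k : ∀ {n g}, BC g → (∀ U, (g U).im = 0) → (∀ U, 0 ≤ (g U).re) → ∫ U, g (pc n U) ∂PP =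
      ((∫⁻ U, ENNReal.ofReal (g (pc n U)).re ∂PP).toReal : ℝ) := fun {n g} b i p => by
    rw [← integral_eq_lintegral_of_nonneg_ae (.of_forall fun U => p _) (bc_int b n).re.1,
      ← integral_complex_ofReal]
    exact integral_congr_ae (.of_forall fun U => Complex.ext rfl (i _))
  rw [k (gi_bc (h.step ha hn)) (TT_real a hi) fun W => ?_, k (gi_bc h) hi hp, hm]
  obtain ⟨C, hC⟩ := ker_bd l a n
  have : f = fun U => ((f U).re : ℂ) := funext fun U => Complex.ext rfl (hi U)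
  rw [this, TT]
  simp only [← Complex.ofReal_mul, integral_complex_ofReal, Complex.ofReal_re]
  exact integral_nonneg fun v => mul_nonneg (hp _) (hC _ _ _ _).1

/-- a step preserves integrals -/
theorem int_TT (ha : 0 ≤ a) (hn : Odd n) (h : GI (LL l * n) f) :
    ∫ W, TT l a n f (pc n W) ∂PP = ∫ U, f (pc (LL l * n) U) ∂PP := by
  have k : ∀ φ : ℂ → ℝ, Continuous φ → (∀ z, 0 ≤ φ z) → BC (fun U => (φ (f U) : ℂ)) ∧
      ∫ W, TT l a n (fun U => φ (f U)) (pc n W) ∂PP = ∫ U, (φ (f (pc (LL l * n) U)) : ℂ) ∂PP :=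
    fun φ c p => have := gi_comp h (Complex.continuous_ofReal.comp c)
      ⟨gi_bc this, int_pos ha hn this (fun _ => rfl) fun _ => p _⟩
  obtain ⟨b1, e1⟩ := k (fun z => ‖z‖ + z.re) (by fun_prop) fun z =>
    neg_le_iff_add_nonneg'.1 (neg_le_of_abs_le z.abs_re_le_norm)
  obtain ⟨b2, e2⟩ := k (fun z => ‖z‖ + z.im) (by fun_prop) fun z =>
    neg_le_iff_add_nonneg'.1 (neg_le_of_abs_le z.abs_im_le_norm)
  obtain ⟨b3, e3⟩ := k (fun z => ‖z‖) (by fun_prop) norm_nonneg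
  have s : ∀ (c : ℂ) {g}, BC g → BC fun U => c * g U := fun c g ⟨m, M, hM⟩ =>
    ⟨m.const_mul c, _, fun U => norm_mul_le_of_le le_rfl (hM U)⟩
  have ad : ∀ {g g'}, BC g → BC g' → BC fun U => g U + g' U := fun ⟨m, M, hM⟩ ⟨m', M', hM'⟩ =>
    ⟨m.add m', _, fun U => norm_add_le_of_le (hM U) (hM' U)⟩
  have e : f = fun U => ((‖f U‖ + (f U).re : ℝ) : ℂ) + Complex.I * (‖f U‖ + (f U).im : ℝ) +
      -(1 + Complex.I) * (‖f U‖ : ℝ) := funext fun U => by
    apply Complex.ext <;> simp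
  conv_lhs => rw [e]
  conv_rhs => rw [e]
  simp only [TT_add a (ad b1 (s _ b2)) (s _ b3), TT_add a b1 (s _ b2), TT_mul]
  rw [integral_add (bc_int (ad (b1.tt l a n) (s _ (b2.tt l a n))) n) (bc_int (s _ (b3.tt l a n)) n),
    integral_add (bc_int (b1.tt l a n) n) (bc_int (s _ (b2.tt l a n)) n),
    integral_add (bc_int (ad b1 (s _ b2)) _) (bc_int (s _ b3) _),
    integral_add (bc_int b1 _) (bc_int (s _ b2) _)]
  simp only [integral_const_mul, e1, e2, e3]

theorem sO_sum {ι : Type} (A : Finset ι) (s : ι → ℂ) (F : ι → Sr) (U : Conf) :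
    sO n (∑ i ∈ A, s i • F i) U = ∑ i ∈ A, s i * sO n (F i) U := by
  simp only [sO, Finset.sum_apply, Pi.smul_apply, smul_eq_mul, sum_mul, mul_sum, mul_assoc]
  simp only [sum_comm (s := A)]

theorem cont_sO (F : Sr) : Continuous (sO n F) := by
  have := Fi.cont_fq
  unfold sO
  fun_prop

theorem sO_gauge (F : Sr) (u : St → S3) (U : Conf) : sO n F (gauge Inv.inv u U) = sO n F U := by
  simp only [sO, fq_gauge]

theorem gi_cont (h : Continuous f) (e : ∀ u U, f (gauge Inv.inv u U) = f U) : GI n f :=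
  ⟨h.measurable, (isCompact_univ.exists_bound_of_continuousOn h.continuousOn).imp
    fun _ h U => h U trivial, fun u U _ _ => e u U⟩

theorem wil_gauge (b : ℝ) (u : St → S3) (U : Conf) : wil b n (gauge Inv.inv u U) = wil b n U := by
  simp only [wil, wd_sh, fq_gauge]

/-- a source on the discrete torus as a periodic symmetric source -/
def symF (F : YM7.Src n) : Sr := fun x μ ν => (F (cst n x) (min μ ν) (max μ ν) : ℝ)

/-- its support in the fundamental domain -/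
def sup (F : YM7.Src n) : Finset St := (box (n / 2)).filter fun x => F (cst n x) ≠ 0

theorem symF_out (hn : Odd n) {F : YM7.Src n} {x : St} (h : rc n x ∉ sup F) : symF F x = 0 := by
  have : F (cst n x) = 0 := by
    simpa [sup, cst_rc, rc_mem hn] using h
  funext μ ν
  simp [symF, this]

/-- the slowly varying part of a normalised source -/
theorem nrm_lip {τ : ℝ} {F : YM7.Src n} (h : YM7.Nrm a τ F) : ∃ g : St → ℂ, LipT n (4 * a) g ∧
    (∀ x, ‖g x‖ ≤ 1) ∧ (∀ x, (g x).im = 0) ∧ ∀ x μ ν, ‖symF F x μ ν - g x‖ ≤ τ := by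
  obtain ⟨g, h1, h2, h3⟩ := h
  refine ⟨_, lipT_zmod h2, fun x => ?_, fun _ => rfl, fun x μ ν => ?_⟩
  · simpa using h1 _
  · rw [symF, ← Complex.ofReal_sub, Complex.norm_real]
    exact h3 _ _ _

theorem nrm_le {τ : ℝ} {F : YM7.Src n} (h : YM7.Nrm a τ F) (x : St) (μ ν : Fin 4) :
    ‖symF F x μ ν‖ ≤ 1 + τ := by
  obtain ⟨g, -, h1, -, h2⟩ := nrm_lip h
  simpa using norm_add_le_of_le (h1 x) (h2 x μ ν)

theorem near_cst {R : ℕ} {x y : St} (h : nearT n R x y) (i : Fin 4) :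
    ∃ t : ℤ, |t| ≤ R ∧ (cst n y - cst n x) i = t := by
  obtain ⟨v, hv⟩ := nearT_iff.1 h
  exact ⟨_, abs_le.2 (hv i), by simp [cst]⟩

theorem mem_sup {F : YM7.Src n} {x : St} (h : x ∈ sup F) : ∃ μ ν, F (cst n x) μ ν ≠ 0 := by
  by_contra! e
  exact (mem_filter.1 h).2 (funext₂ e)

variable [NeZero n]

omit [NeZero n] in
theorem fq_pe (U : YM7.Cfg n) (x : St) (μ ν : Fin 4) :
    fq (Fi.lf U) x μ ν ^ 2 = YM7.pe U (cst n x) μ ν := by
  rw [fq_lf]
  exact GD.norm_q_sq (YM4.plaq U (cst n x) μ ν)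

theorem sO_lf (hn : Odd n) (F : YM7.Src n) (U : YM7.Cfg n) :
    sO n (symF F) (Fi.lf U) = YM7.gfield F U := by
  simp only [sO, symF, ← Complex.ofReal_mul, ← Complex.ofReal_sum]
  rw [sum_vl hn, YM7.gfield]
  refine congrArg _ (sum_congr rfl fun x _ => ?_)
  have e := fq_pe U (vl x)
  rw [cst_vl] at e ⊢
  simp only [← e, Fin.sum_univ_four, fq_self, fq_symm _ _ 1 0, fq_symm _ _ 2 0, fq_symm _ _ 3 0,
    fq_symm _ _ 2 1, fq_symm _ _ 3 1, fq_symm _ _ 3 2]
  simp
  ring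

theorem sO_per (hn : Odd n) (F : YM7.Src n) {U : Conf} (hU : Per n U) :
    sO n (symF F) U = YM7.gfield F (rs n U) := by
  rw [← sO_lf hn, lf_rs, Sh.pc_per hU]

theorem wil_lf (hn : Odd n) (b : ℝ) (U : YM7.Cfg n) :
    wil b n (Fi.lf U) = Real.exp (-b * ∑ x, YM7.dens U x) := by
  rw [wil, sum_vl hn, neg_mul]
  simp only [wd, Fi.fq_sh, zero_add, fq_pe, cst_vl]
  rfl

theorem int_lf {f : Conf → ℝ} (hf : Measurable f) :
    ∫ U : YM7.Cfg n, f (Fi.lf U) ∂(Measure.pi fun _ => Fi.tr haar) = ∫ U, f (pc n U) ∂PP := by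
  rw [← map_res, integral_map (f := fun U => f (Fi.lf U)) meas_rs.aemeasurable
    (hf.comp meas_lf).aestronglyMeasurable]
  simp only [lf_rs, PP]

/-- Wilson expectations -/
theorem ex_eq (hn : Odd n) (b : ℝ) {O : YM7.Cfg n → ℝ} (hO : Measurable O) :
    YM7.ex (Fi.tr haar) b n O =
      (∫ U, O (rs n U) * wil b n (pc n U) ∂PP) / ∫ U, wil b n (pc n U) ∂PP := by
  have w := (cont_wil (n := n) b).measurable
  have := int_lf (n := n) (f := fun U => O (rs n U) * wil b n U) ((hO.comp meas_rs).mul w)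
  simp only [rs_pc, rs_lf] at this
  rw [YM7.ex, YM7.wilson, integral_tilted, ← this, ← int_lf w, ← integral_div]
  simp only [wil_lf hn, smul_eq_mul, mul_comm, mul_div_assoc]

theorem sep_sp {κ : Type} {D : ℕ} {F : κ → YM7.Src n} (h : YM7.Sp D F) {i j : κ} (e : i ≠ j) :
    Sep n D (sup (F i)) (sup (F j)) := fun x hx y hy R hR => by
  obtain ⟨μ, ν, a⟩ := mem_sup hx
  obtain ⟨μ', ν', b⟩ := mem_sup hy
  obtain ⟨l, hl⟩ := h i j e _ _ _ _ _ _ a b
  obtain ⟨t, h1, h2⟩ := near_cst hR.symm l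
  have := ZMod.natAbs_min_of_le_div_two n _ t ((ZMod.coe_valMinAbs _).trans h2)
    (ZMod.natAbs_valMinAbs_le _)
  exact_mod_cast hl.trans (this.trans (by have := abs_le.1 h1; omega))

theorem sep_cell {m lam : ℕ} [NeZero m] (hn : n = m * lam) (a0 : 0 < a) {δ : ℝ}
    {c c' : Weak.Site 4 m} {F F' : YM7.Src n} (h : YM7.InT a δ lam c F) (h' : YM7.InT a δ lam c' F')
    (e : c ≠ c') : Sep n (2 * δ / a) (sup F) (sup F') := fun x hx y hy R hR => by
  obtain ⟨μ, ν, a1⟩ := mem_sup hx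
  obtain ⟨μ', ν', a2⟩ := mem_sup hy
  obtain ⟨l, hl⟩ := Function.ne_iff.1 e
  obtain ⟨t, h1, h2⟩ := near_cst hR l
  obtain ⟨b1, b2⟩ := h _ _ _ a1 l
  obtain ⟨b3, b4⟩ := h' _ _ _ a2 l
  generalize hu : ((cst n x - Weak.corner lam c : Weak.Site 4 n) l) = u at b1 b2
  generalize hv : ((cst n y - Weak.corner lam c' : Weak.Site 4 n) l) = v at b3 b4
  have k : ((lam * ((c' l).val - (c l).val) : ℤ) : ZMod n) = (t - v.val + u.val : ℤ) := by
    simp only [Pi.sub_apply, Weak.corner] at hu hv h2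
    push_cast at hu hv ⊢
    simp only [ZMod.natCast_val, ZMod.cast_id', id] at hu hv ⊢
    rw [← h2, ← hu, ← hv]
    ring
  obtain ⟨q, hq⟩ := (ZMod.intCast_eq_intCast_iff_dvd_sub _ _ _).1 k
  have l0 : 0 < lam := Nat.pos_of_ne_zero fun z => NeZero.ne n (by rw [hn, z, mul_zero])
  have q0 : ((c' l).val - (c l).val + m * q : ℤ) ≠ 0 := fun z => hl (by
    simpa [sub_eq_zero, eq_comm] using congrArg (Int.cast : ℤ → ZMod m) z)
  have r : (lam : ℤ) ≤ |t - v.val + u.val| := by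
    rw [show t - v.val + u.val = lam * ((c' l).val - (c l).val + m * q) by
      rw [show (n : ℤ) = m * lam by exact_mod_cast hn] at hq; linarith, abs_mul, Nat.abs_cast]
    exact le_mul_of_one_le_right (by positivity) (Int.one_le_abs q0)
  have r' : (lam : ℝ) ≤ |(t : ℝ) - v.val + u.val| := by exact_mod_cast r
  have h1' : |(t : ℝ)| ≤ R := by exact_mod_cast h1
  rw [div_le_iff₀ a0]
  rcases le_abs.1 r' with z | z <;> nlinarith [abs_le.1 h1']

section gen

variable {ι : Type} [Fintype ι] [DecidableEq ι]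

/-- the source with the coefficients `s` -/
def sS (F : ι → YM7.Src n) (s : ι → ℂ) : Sr := ∑ i, s i • symF (F i)

/-- the Wilson weight with sources -/
def gen (b : ℝ) (F : ι → YM7.Src n) (s : ι → ℂ) (U : Conf) : ℂ :=
  wil b n U * Complex.exp (-sO n (sS F s) U)

variable (b : ℝ) (F : ι → YM7.Src n)

omit [NeZero n] [DecidableEq ι] in
theorem gen_eq (s : ι → ℂ) (U : Conf) :
    gen b F s U = wil b n U * Complex.exp (∑ i, s i * -sO n (symF (F i)) U) := by
  simp [gen, sS, sO_sum]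

omit [NeZero n] [DecidableEq ι] in
theorem gen_zero : gen b F 0 = fun U => (wil b n U : ℂ) := funext fun U => by simp [gen_eq]

omit [NeZero n] [DecidableEq ι] in
theorem gen_gi (m : ℕ) (s : ι → ℂ) : GI m (gen b F s) :=
  gi_cont ((Complex.continuous_ofReal.comp (cont_wil b)).mul (cont_sO _).neg.cexp) fun u U => by
    rw [gen, gen, sO_gauge, wil_gauge]

omit [NeZero n] in
theorem gen_hd {r : ι → ℝ} (hr : ∀ i, 0 < r i) : HD r (gen b F) := by
  choose C hC using fun i => (gi_cont (n := n) (cont_sO (n := n) (symF (F i))) (sO_gauge _)).2.1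
  obtain ⟨M, hM⟩ := (gen_gi b F n 0).2.1
  rw [gen_zero] at hM
  exact ⟨⟨_, fun U => by
    simpa only [gen_eq] using sh_src hr (fun i _ => (norm_neg _).trans_le (hC i U)) (hM U)⟩, fun s _ => (gen_gi b F n s).1⟩

theorem jd_gen (hn : Odd n) (T : Finset ι) {U : Conf} (hU : Per n U) : jd T (gen b F · U) =
    ((∏ i ∈ T, -YM7.gfield (F i) (rs n U)) * wil b n U : ℝ) := by
  simp only [gen_eq]
  refine (jd_smul _ _ T).trans ?_
  rw [jd_exp_lin _ (subset_univ T), mul_comm]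
  simp [sO_per hn _ hU]

theorem cont_gf (F : YM7.Src n) : Continuous (YM7.gfield F) := by
  have e : YM7.gfield F = fun U => ∑ x, ∑ i, ∑ j,
      if i < j then F x i j * fq (Fi.lf U) (vl x) i j ^ 2 else 0 := by
    simp only [fq_pe, cst_vl]
    rfl
  have c : Continuous (Fi.lf (n := n)) := continuous_pi fun _ => continuous_apply _
  rw [e]
  refine continuous_finsetSum _ fun x _ => continuous_finsetSum _ fun i _ =>
    continuous_finsetSum _ fun j _ => ?_
  split_ifs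
  exacts [(((Fi.cont_fq _ i j).comp c).pow 2).const_mul _, continuous_const]

/-- moments of the Wilson measure are jets -/
theorem mom_ex (hn : Odd n) (T : Finset ι) : YM7.mom (YM7.ex (Fi.tr haar) b n) F T =
    jd T (fun s => ∫ U, gen b F s (pc n U) ∂PP) / ∫ U, gen b F 0 (pc n U) ∂PP := by
  have h := gen_hd b F (r := fun _ => 1) fun _ => one_pos
  rw [jd_int PP h.pos (fun U => h.1.choose_spec (pc n U)) fun s hs => (h.2 s hs).comp meas_pc,
    YM7.mom, ex_eq hn b (O := fun U => ∏ i ∈ T, -YM7.gfield (F i) U)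
      (continuous_finsetProd _ fun i _ => (cont_gf _).neg).measurable]
  simp only [jd_gen b F hn T (per_pc n _), gen_zero, rs_pc, integral_complex_ofReal,
    Complex.ofReal_div]

end gen

end Br

namespace En.Gl

open Br

variable {G : Gl} {J k : ℕ}

theorem Ok.int_tt (h : G.Ok) {f : Conf → ℂ} (hf : GI (G.N J) f) (hk : k ≤ J) :
    GI (G.N k) (G.tt f J k) ∧
      ∫ W, G.tt f J k (pc (G.N k) W) ∂PP = ∫ U, f (pc (G.N J) U) ∂PP :=
  dw_ind (P := fun k => GI (G.N k) (G.tt f J k) ∧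
    ∫ W, G.tt f J k (pc (G.N k) W) ∂PP = ∫ U, f (pc (G.N J) U) ∂PP) (by rw [tt_top]; exact ⟨hf, rfl⟩)
    (fun k e ⟨a, b⟩ => by
      rw [← h.N_succ] at a b
      rw [tt_step f e]
      exact ⟨a.step (h.a0 k) (h.N_odd k), (int_TT (h.a0 k) (h.N_odd k) a).trans b⟩) k hk

variable {ι : Type} [Fintype ι] [DecidableEq ι] [NeZero (G.N J)] {b : ℝ}

/-- moments of the Wilson measure from the density at level `k` -/
theorem Ok.mom_ex (h : G.Ok) (hk : k ≤ J) (F : ι → YM7.Src (G.N J)) (T : Finset ι) :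
    YM7.mom (YM7.ex (Fi.tr haar) b (G.N J)) F T =
      jd T (fun s => ∫ W, G.tt (gen b F s) J k (pc (G.N k) W) ∂PP) /
        ∫ W, G.tt (gen b F 0) J k (pc (G.N k) W) ∂PP := by
  simp only [(h.int_tt (gen_gi b F _ _) hk).2, Br.mom_ex b F (h.N_odd J)]

/-- moments at the flat field -/
theorem Ok.mom_al (h : G.Ok) (b0 : 0 ≤ b) (hk : k ≤ J) (F : ι → YM7.Src (G.N J)) (T : Finset ι) :
    YM7.mom (G.al b J k) F T =
      jd T (fun s => G.tt (gen b F s) J k 1) / G.tt (gen b F 0) J k 1 := by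
  rw [YM7.mom, h.al_eq b0 _ hk, jd_tt (gen_hd b F (r := fun _ => 1) fun _ => one_pos) hk,
    h.tt_congr (fun U hU => jd_gen b F (h.N_odd J) T hU) hk 1 fun _ => rfl, gen_zero, h.f_tt b hk]

omit [NeZero (G.N J)] in
theorem Ok.al_inv (h : G.Ok) (b0 : 0 ≤ b) (hk : k ≤ J) {lam : ℕ} (e : G.N J / G.N k ∣ lam) :
    YM7.Inv (G.al b J k) lam := by
  obtain ⟨q, rfl⟩ := e
  refine ⟨h.al_const b0 1 hk, fun O hO v hv => h.al_shift' hO hk fun i => ?_,
    fun O hO l => h.al_refl hO hk l⟩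
  obtain ⟨t, ht⟩ := hv i
  exact ⟨(q * t : ℕ), by rw [ht, mul_assoc, ← Nat.cast_mul, Int.cast_natCast]⟩

end En.Gl

end Pool.Agent.Lib.MP_7f377f_mp.RG.Q4
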