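import Pool.Agent.Lib.MP_7f377f_mp.G.Q4EOne

/-! Tails of sums along the schedule. -/

noncomputable section

set_option linter.unusedSectionVars false
variable [Pool.Agent.Lib.MP_7f377f_mp.GD]

namespace Pool.Agent.Lib.MP_7f377f_mp.RG.Q4.En

open Finset Real Filter Topology

namespace Gl

/-- the levels which are close to the top or to a jump of the size of the blocks -/
def Bad (G : Gl) (J j : ℕ) : Prop := j = 0 ∨ J ≤ j + G.l j ∨ G.l (j + G.l j) ≠ G.l j

instance (G : Gl) (J : ℕ) : DecidablePred (G.Bad J) := fun _ => by unfold Bad; infer_instance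

namespace Ok

variable {G : Gl} (h : G.Ok) {k J : ℕ}
include h

theorem L_top : Tendsto (fun k => (G.L k : ℝ)) atTop atTop :=
  tendsto_natCast_atTop_atTop.comp (tendsto_atTop_mono (fun k => by unfold L l LL; omega) h.sch.top)

theorem Q_top : Tendsto G.Q atTop atTop := tendsto_atTop_mono h.LQ h.L_top

theorem b_top : Tendsto G.bb atTop atTop := tendsto_atTop_mono
  (fun k => (le_self_pow₀ (h.Q1 k) (by norm_num)).trans (h.Qb k)) h.Q_top

theorem LQ' (k : ℕ) {i : ℕ} (hi : i ≤ 100) : (G.L k : ℝ) ^ i ≤ G.Q k :=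
  have n := (h.sl_all k (G.top0 0 0)).nu
  n.LQ (by have := n.K_ge; omega)

/-- summation by parts -/
theorem abel (hk : k ≤ J) {c : ℕ → ℝ} {a : ℕ} {ε : ℝ} (c0 : 0 ≤ c k)
    (hc : ∀ j ≤ J, c j ≤ ε * G.L j ^ a) (ε0 : 0 ≤ ε) :
    ∑ j ∈ Ico k J, (c (j + 1) - c j) / G.L j ^ (a + 1) ≤ 3 ^ (a + 1) * ε / G.L k := by
  have L0 : ∀ j, (0 : ℝ) < G.L j := fun j => by linarith [h.L1 j]
  have t1 : (1 : ℝ) ≤ 3 ^ (a + 1) := one_le_pow₀ (by norm_num)
  have key : ∀ j, k ≤ j → j ≤ J → ∑ i ∈ Ico k j, (c (i + 1) - c i) / G.L i ^ (a + 1) ≤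
      c j / G.L j ^ (a + 1) + 3 ^ (a + 1) * ε * ((G.L k : ℝ)⁻¹ - (G.L j : ℝ)⁻¹) := fun j h1 => by
    induction h1 with
    | refl => exact fun _ => by have := L0 k; simp; positivity
    | @step j h1 ih =>
      intro h2
      rw [sum_Ico_succ_top h1, sub_div]
      have b := ih (Nat.le_of_succ_le h2)
      rcases h.sch.size j with e | e
      · rw [show G.L (j + 1) = G.L j from e]
        linarith
      · have e' : (G.L (j + 1) : ℝ) = 3 * G.L j := by exact_mod_cast e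
        have := L0 j
        have d := mul_le_mul_of_nonneg_right (hc _ h2) (show 0 ≤ ((G.L j : ℝ) ^ (a + 1))⁻¹ -
          ((3 * G.L j : ℝ) ^ (a + 1))⁻¹ by rw [sub_nonneg]; gcongr; linarith)
        have d2 : ε * (3 * G.L j) ^ a * (((G.L j : ℝ) ^ (a + 1))⁻¹ - ((3 * G.L j : ℝ) ^ (a + 1))⁻¹) =
          3 ^ (a + 1) * ε * (3 * G.L j : ℝ)⁻¹ - ε * (3 * G.L j : ℝ)⁻¹ := by field_simp; ring
        have d3 : (G.L j : ℝ)⁻¹ = 3 * (3 * G.L j : ℝ)⁻¹ := by field_simp
        have d4 : 0 ≤ ε * (3 * G.L j : ℝ)⁻¹ := by positivity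
        rw [e'] at d ⊢
        rw [d3] at b
        simp only [div_eq_mul_inv] at b ⊢
        nlinarith
  refine (key J hk le_rfl).trans ?_
  have := L0 J
  have b : c J / G.L J ^ (a + 1) ≤ ε * (G.L J : ℝ)⁻¹ :=
    (div_le_div_of_nonneg_right (hc J le_rfl) (by positivity)).trans_eq (by field_simp; ring)
  have : 0 ≤ ε * (G.L J : ℝ)⁻¹ := by positivity
  rw [div_eq_mul_inv _ (G.L k : ℝ)]
  nlinarith

theorem tail_b (k J : ℕ) : ∑ j ∈ Ico k J, G.g j ^ 2 / G.L j ^ 2 ≤ (G.L k : ℝ)⁻¹ := by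
  rcases le_or_gt k J with hk | hk
  · have e1 : ∀ j, (1 : ℝ) ≤ G.e j := fun j =>
      ((one_le_pow₀ (h.Q1 j)).trans (h.Qb j)).trans (h.sch.cmp j).2
    have w1 : (10 : ℝ) ≤ wN := by exact_mod_cast wN_10
    have e2 : ∀ j, (G.e j : ℝ) ≤ wN * G.bb j := fun j =>
      (div_le_iff₀' (by positivity)).1 (h.sch.cmp j).1
    refine le_trans (sum_le_sum fun j _ => ?_) (((mul_sum ..).symm.trans_le
      (mul_le_mul_of_nonneg_left (h.abel hk (c := fun j => log (G.e j)) (a := 1) (ε := (18 * wN)⁻¹)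
        (log_nonneg (e1 k)) (fun j _ => ?_) (by positivity))
          (show (0 : ℝ) ≤ 2 * wN by positivity))).trans_eq (by field_simp; norm_num))
    · have a : (G.e j : ℝ) + 1 ≤ G.e (j + 1) := by exact_mod_cast h.sch.mono j.lt_succ_self
      have b := e1 j
      have c := one_sub_inv_le_log_of_pos (show 0 < (G.e j + 1 : ℝ) / G.e j by positivity)
      rw [log_div (by positivity) (by positivity), inv_div] at c
      have d : G.g j ^ 2 ≤ 2 * wN * (1 - G.e j / (G.e j + 1)) := by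
        rw [one_sub_div (by positivity), add_sub_cancel_left, mul_one_div, le_div_iff₀ (by positivity)]
        have := mul_le_mul_of_nonneg_left (show (G.e j : ℝ) + 1 ≤ 2 * (wN * G.bb j) by
          linarith [e2 j]) (sq_nonneg (G.g j))
        rwa [show G.g j ^ 2 * (2 * (wN * G.bb j)) = 2 * wN * (G.bb j * G.g j ^ 2) by ring, h.bg j,
          mul_one] at this
      rw [← mul_div_assoc]
      gcongr
      exact d.trans (mul_le_mul_of_nonneg_left (by linarith [log_le_log (by positivity) a])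
        (by positivity))
    · have n := (h.sl_all j (G.top0 0 0)).nu
      have a : G.bb j ≤ exp (G.td j (G.top0 0 0)).r :=
        ((le_self_pow₀ n.ok.β1 (by norm_num)).trans n.ex).trans (exp_le_exp.2
          (div_le_self (by positivity) (by exact_mod_cast h.c1)))
      have b : 1000 * ((G.td j (G.top0 0 0)).r : ℝ) ^ 2 ≤ G.L j :=
        n.crL (by norm_num) (by omega)
      have c := log_le_log (by linarith [e1 j]) ((e2 j).trans
        (mul_le_mul_of_nonneg_left a (by positivity)))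
      rw [log_mul (by positivity) (exp_pos _).ne', log_exp] at c
      have d : (wN : ℝ) ≤ (G.td j (G.top0 0 0)).r :=
        wN_le.trans (n.gr (C := 71) (k := 1) (by norm_num) (by norm_num))
      rw [pow_one, inv_mul_eq_div, le_div_iff₀ (by positivity)]
      nlinarith [log_le_self (show (0 : ℝ) ≤ wN by positivity)]
  · simp [Ico_eq_empty_of_le hk.le]

theorem tail_w {s : Finset ℕ} (hs : ∀ j ∈ s, k ≤ j) {f w : ℕ → ℝ} {i a : ℕ} (ha : a ≤ 100) {C : ℝ}
    (w0 : ∀ j, 0 ≤ w j) (hw : ∑ j ∈ s, w j / G.L j ^ a ≤ C)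
    (hf : ∀ j ∈ s, f j ≤ w j / G.Q j ^ (i + 1)) : ∑ j ∈ s, f j ≤ C / G.Q k ^ i := by
  have := h.Q0 k
  refine (sum_le_sum fun j hj => (hf j hj).trans ?_).trans
    ((sum_div ..).symm.trans_le (div_le_div_of_nonneg_right hw (by positivity)))
  have := w0 j
  have := h.L1 j
  have := h.Q0 j
  rw [div_div, pow_succ']
  gcongr
  exacts [h.LQ' j ha, h.Q_mono (hs j hj)]

/-- sums over all levels -/
theorem tail_g {f : ℕ → ℝ} {i : ℕ} (hf : ∀ j ∈ Ico k J, f j ≤ G.g j ^ 2 / G.Q j ^ (i + 1)) :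
    ∑ j ∈ Ico k J, f j ≤ (G.L k : ℝ)⁻¹ / G.Q k ^ i :=
  h.tail_w (fun _ hj => (mem_Ico.1 hj).1) (by norm_num) (fun _ => sq_nonneg _) (h.tail_b k J) hf

theorem tail_bad0 (k J : ℕ) :
    ∑ j ∈ (Ico k J).filter (G.Bad J), 1 / (G.L j : ℝ) ^ 4 ≤ (81 : ℝ) / G.L k := by
  rcases le_or_gt k J with hk | hk
  · refine le_of_eq_of_le ?_ ((h.abel hk (c := fun j => ((range j).filter (G.Bad J)).card) (a := 3)
      (ε := 1) (Nat.cast_nonneg _) (fun j hj => ?_) zero_le_one).trans_eq (by norm_num))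
    · rw [sum_filter]
      refine sum_congr rfl fun j _ => ?_
      rw [range_add_one, filter_insert]
      split_ifs
      · rw [card_insert_of_notMem (by simp)]; simp
      · simp
    · rw [one_mul]
      exact_mod_cast h.sch.bad j J hj
  · simp only [Ico_eq_empty_of_le hk.le, filter_empty, sum_empty]
    positivity

/-- sums over the bad levels -/
theorem tail_bad {f : ℕ → ℝ} {i : ℕ} (hf : ∀ j ∈ Ico k J, G.Bad J j → f j ≤ 1 / G.Q j ^ (i + 1)) :
    ∑ j ∈ (Ico k J).filter (G.Bad J), f j ≤ 81 / G.L k / G.Q k ^ i :=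
  h.tail_w (fun _ hj => (mem_Ico.1 (mem_filter.1 hj).1).1) (by norm_num) (fun _ => zero_le_one)
    (h.tail_bad0 k J) fun j hj => hf j (mem_filter.1 hj).1 (mem_filter.1 hj).2

/-- sums with a crude bound at the bad levels and a sharp bound at the good ones -/
theorem tail {f : ℕ → ℝ} {i : ℕ} (h1 : ∀ j ∈ Ico k J, f j ≤ 1 / G.Q j ^ (i + 1))
    (h2 : ∀ j ∈ Ico k J, ¬ G.Bad J j → f j ≤ G.g j ^ 2 / G.Q j ^ (i + 1)) :
    ∑ j ∈ Ico k J, f j ≤ 82 / G.L k / G.Q k ^ i := by
  have a := h.tail_g (k := k) (J := J) (i := i) (f := fun j => if ¬ G.Bad J j then f j else 0)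
    fun j hj => by
      have := h.Q0 j
      split_ifs with c
      exacts [by positivity, h2 j hj c]
  rw [← sum_filter_add_sum_filter_not _ (G.Bad J), sum_filter fun j => ¬ G.Bad J j]
  exact (add_le_add (h.tail_bad fun j hj _ => h1 j hj) a).trans_eq (by ring)

end Ok

end Gl

end Pool.Agent.Lib.MP_7f377f_mp.RG.Q4.En
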