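import Pool.Agent.Lib.MP_7f377f_mp.G.Q4FluxB

/-! Sizes of the local terms which appear in the flow. -/

noncomputable section

set_option linter.unusedSectionVars false
variable [Pool.Agent.Lib.MP_7f377f_mp.GD]

namespace Pool.Agent.Lib.MP_7f377f_mp.RG.Q4.En

open Finset Real Sd

variable {S S' : Sd} {v e v' e' x y u ω ω' σ κ C : ℝ} {ψ ψ' : Lx} {K K' : Ac} {φ φ' : Fld → ℂ}

theorem PM.add {p : Pa} {a b c a' b' c' : ℝ} (h0 : 0 < p.ρ) (h : PM p a b c ψ)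
    (h' : PM p a' b' c' ψ') : PM p (a + a') (b + b') (c + c') (ψ + ψ') ∧
      ∀ x s t, qc ((ψ + ψ') x) s t = qc (ψ x) s t + qc (ψ' x) s t :=
  ⟨fun x => ⟨((h x).1.add (h' x).1 h0).1, (h x).2.add (h' x).2⟩,
    fun x _ _ => ((h x).1.add (h' x).1 h0).2 _ _⟩

theorem PM.sub {p : Pa} {a b c a' b' c' : ℝ} (h0 : 0 < p.ρ) (h : PM p a b c ψ)
    (h' : PM p a' b' c' ψ') : PM p (a + a') (b + b') (c + c') (ψ - ψ') ∧
      ∀ x s t, qc ((ψ - ψ') x) s t = qc (ψ x) s t - qc (ψ' x) s t :=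
  ⟨fun x => ⟨((h x).1.sub (h' x).1 h0).1, (h x).2.sub (h' x).2⟩,
    fun x _ _ => ((h x).1.sub (h' x).1 h0).2 _ _⟩

theorem PM.mono {p : Pa} {a b c a' b' c' : ℝ} (h0 : 0 < p.ρ) (h : PM p a b c ψ) (h1 : a ≤ a')
    (h2 : b ≤ b') (h3 : c ≤ c') : PM p a' b' c' ψ := fun x => ⟨(h x).1.mono' h0 h1 h2 h3, (h x).2⟩

namespace LF

variable (h : LF S v e)
include h

theorem ρ0 : 0 < S.p.ρ := h.nu.p_ok.1.ρ0

theorem ρD : 40 * S.p.ρ ≤ (S.D0 : ℝ)⁻¹ := by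
  have d : (1 : ℝ) ≤ S.D0 := by exact_mod_cast D1 _
  have a := h.nu.mon (C := 40) (i := 0) (j := 1) (by norm_num) (by omega) (by omega)
  rw [h.ρ, inv_eq_one_div, le_div_iff₀ (by linarith)]
  linarith [mul_le_mul_of_nonneg_right a (mul_pos (pow_pos S.Q0 3) h.nu.ok.g0).le,
    h.nu.ok.Qg_le (i := 3) (j := 1) (by norm_num)]

theorem r12 : 4 * ((3 * S.r : ℕ) + 1 : ℝ) ^ (2 * 6) ≤ S.L := by
  refine le_trans ?_ (h.nu.crL (C := 4 * 4 ^ 12) (k := 12) (by norm_num) (by omega))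
  rw [mul_assoc, ← mul_pow]
  push_cast
  gcongr
  linarith [h.nu.r1']

theorem KtQ : 4 * 10 ^ 19 * S.L ^ S.Kt ≤ S.Q := by
  simpa using h.nu.mon (C := 4 * 10 ^ 19) (i := S.Kt) (j := 0) (by norm_num)
    (by have := h.nu.exps; omega) (by omega)

theorem meas_m : Measurable fun B => cx S.m B B :=
  let ⟨_, _, _, _, c⟩ := h.ch
  measurable_cx c.inv.rng measurable_id measurable_id

theorem tree_ps : PM S.p S.L (S.Q / S.L) (S.Q * S.p.ρ ^ 3) (fun _ B => cx S.m B B + S.T B) ∧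
    RealP S.p (fun _ B => cx S.m B B + S.T B) ∧
      ∀ a b, qc (fun B => cx S.m B B + S.T B) a b = S.m (cc a) (cc b) := by
  have r := h.ρ0
  have l := L0 S.toTd
  obtain ⟨a1, a2⟩ := h.cb.ps h.symm 6 r
  obtain ⟨b1, b2⟩ := h.tc.ps r h.ρD 6
  obtain ⟨c1, c2⟩ := a1.add b1 r
  refine ⟨fun _ => ⟨c1.mono h.rR r le_rfl (by simp) ?_ ?_, h.meas_m.add h.tc.meas⟩,
    fun _ B hB _ => by simp [cx_im _ hB hB, h.real B hB], fun a b => by
      rw [qc, c2, a2, b2, add_zero]⟩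
  · rw [le_div_iff₀ l]
    refine le_trans ?_ (h.nu.LQ (k := 3) (by have := h.nu.exps; omega))
    nlinarith [mul_le_mul_of_nonneg_right h.r12 (mul_pos l l).le, pow_pos l 3]
  · rw [div_self r.ne', one_pow, mul_one, zero_add]
    gcongr
    linarith [h.KtQ, pow_pos l S.Kt]

theorem src_ps (o : PM S.p S.Q S.Q (S.Q * S.p.ρ ^ 3) fun _ => φ)
    (r : RealP S.p fun _ => φ) (hκ : |κ| ≤ 4 * S.Q) :
    PM S.p (S.Q ^ 2) (S.Q ^ 2 / 4) (S.Q ^ 50 * √S.g * S.g ^ 2 / 4)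
        (fun _ B => φ B - κ * (cx S.m B B + S.T B)) ∧
      RealP S.p (fun _ B => φ B - κ * (cx S.m B B + S.T B)) ∧
      ∀ a b, qc (fun B => φ B - κ * (cx S.m B B + S.T B)) a b =
        qc φ a b - κ * S.m (cc a) (cc b) := by
  have r0 := h.ρ0
  have l := L0 S.toTd
  have q := S.Q0
  have g := h.nu.ok.g0
  obtain ⟨a1, a2, a3⟩ := h.tree_ps
  obtain ⟨b1, b2⟩ := (a1 0).1.smul r0 κ
  obtain ⟨c1, c2⟩ := (o 0).1.sub b1 r0
  have l1 := h.nu.cL' (C := 100) (by norm_num)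
  have l2 : S.L ^ 2 ≤ S.Q := h.nu.LQ (by have := h.nu.exps; omega)
  rw [Complex.norm_real, norm_eq_abs] at c1
  refine ⟨fun _ => ⟨c1.mono' r0 ?_ ?_ ?_, (o 0).2.sub ((a1 0).2.const_mul _)⟩,
    fun x B hB c => ?_, fun a b => by rw [qc, c2, b2, ← qc, ← qc, a3]⟩
  · nlinarith [mul_le_mul_of_nonneg_right hκ l.le, mul_le_mul_of_nonneg_left l2 q.le,
      mul_le_mul_of_nonneg_left l1 (mul_pos q l).le]
  · have : S.Q / S.L ≤ S.Q / 100 := by gcongr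
    nlinarith [mul_le_mul hκ this (by positivity) (by positivity), h.nu.L_le_Q]
  · have a : S.g ≤ √S.g := le_sqrt_of_sq_le (by nlinarith [h.nu.ok.g1])
    have b : 100 * S.Q ^ 11 ≤ S.Q ^ 50 := le_trans (by
      rw [pow_succ' _ 11]; gcongr; exact l1.trans h.nu.L_le_Q) (S.Qw (i := 12) (by norm_num))
    rw [h.ρ]
    calc _ ≤ S.Q * (S.Q * (S.Q ^ 3 * S.g) ^ 3) + 4 * S.Q * (S.Q * (S.Q ^ 3 * S.g) ^ 3) := by
          gcongr; exact le_mul_of_one_le_left (by positivity) S.Q1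
      _ = 100 * S.Q ^ 11 * S.g * S.g ^ 2 / 20 := by ring
      _ ≤ S.Q ^ 50 * √S.g * S.g ^ 2 / 4 := by gcongr; norm_num
  · simp only [Complex.sub_im, Complex.im_ofReal_mul, r x B hB c, a2 x B hB c]
    simp

/-- change of the tree data -/
theorem hyb_ps (h' : LF S' v' e') (e1 : S'.l = S.l) (e2 : S'.Kt = S.Kt)
    (e3 : S'.K0 = S.K0) (_e4 : S'.K = S.K) (e5 : S'.β = S.β) (hd : Df (3 * S.r) σ S'.m S.m) :
    PM S.p (20 * S.β * (|v - v'| + S.g ^ 2)) (S.β * S.Q * σ) (S.Q ^ 11 * S.g) (S'.Φ 0 - S.Φ 0) ∧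
      RealP S.p (S'.Φ 0 - S.Φ 0) := by
  have r0 := h.ρ0
  have b0 := h.nu.ok.β0
  have q := S.Q0
  have g := h.nu.ok.g0
  have t' := h'.tc
  rw [show S'.r = S.r by rw [Td.r, e1, Td.r], show S'.D0 = S.D0 by rw [Td.D0, e1, e3, Td.D0],
    show S'.L = S.L by rw [Td.L, e1, Td.L], e2] at t'
  obtain ⟨_, _, -, -, c⟩ := h.ch
  obtain ⟨_, _, -, -, c'⟩ := h'.ch
  have s0 : 0 ≤ σ := by simpa using hd 0 1 (Ho.cv_zero _ zero_le_one)
  obtain ⟨a1, -⟩ := Df.ps (m := S'.m - S.m) (σ0 := v * e + v' * e' + |v - v'| / 2)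
    (fun a δ ha => by simpa using hd a δ ha) (fun a ha => by
      have k := abs_le.1 (c.cc a ha)
      have k' := abs_le.1 (c'.cc a ha)
      have m : m0 a a = 2⁻¹ * nd a 0 := by simp only [Li.m0_apply, nd, sq]
      have n : 0 ≤ nd a 0 := by unfold nd; positivity
      simp only [LinearMap.smul_apply, smul_eq_mul, m, LinearMap.sub_apply, LinearMap.zero_apply,
        sub_zero] at *
      exact abs_le.2 ⟨by linarith [mul_le_mul_of_nonneg_right (le_abs_self (v - v')) n],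
        by linarith [mul_le_mul_of_nonneg_right (neg_abs_le (v - v')) n]⟩)
    (fun a b => by simp [h.symm a, h'.symm a]) 6 r0
  have a2 := (a1.add ((t'.ps r0 h.ρD 6).1.sub (h.tc.ps r0 h.ρD 6).1 r0).1 r0).1
  have a3 := (a2.smul r0 S.β).1
  have e : S'.Φ 0 - S.Φ 0 = fun _ B => S.β * (cx (S'.m - S.m) B B + (S'.T B - S.T B)) := by
    funext x B
    have : cx (S'.m - S.m) B B = cx S'.m B B - cx S.m B B := by
      simp only [cx, ← sum_sub_distrib, LinearMap.sub_apply]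
      exact sum_congr rfl fun k _ => by push_cast; ring
    simp only [Pi.sub_apply, Sd.Φ, e5, this, Pi.zero_apply]
    ring
  rw [Complex.norm_real, norm_of_nonneg b0.le] at a3
  refine ⟨fun x => ⟨e ▸ a3.mono h.rR r0 le_rfl ?_ ?_ ?_, (((h'.meas_m.add h'.tc.meas).const_mul _).add
    measurable_const).sub (((h.meas_m.add h.tc.meas).const_mul _).add measurable_const)⟩,
    fun x B hB _ => by simp [Sd.Φ, cx_im _ hB hB, h.real B hB, h'.real B hB]⟩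
  · have k := h.eβ
    have k' := h'.eβ
    rw [Sd.g, e5, ← Sd.g] at k'
    have := h.nu.ok.Qg_le (i := 0) (j := 1) (by norm_num)
    have : S.g ≤ 1 / 10 := by nlinarith [h.nu.cQ' (C := 10) (by norm_num)]
    nlinarith [mul_le_mul_of_nonneg_right h.v2 (mul_nonneg b0.le h.e0), h.nu.ok.βg,
      mul_le_mul_of_nonneg_right h'.v2 (mul_nonneg b0.le h'.e0), mul_nonneg b0.le (abs_nonneg (v - v'))]
  · rw [mul_assoc S.β, add_zero, add_zero]
    gcongr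
    exact h.r12.trans h.nu.L_le_Q
  · rw [div_self r0.ne', one_pow, mul_one, h.ρ]
    calc _ = 4 * 10 ^ 19 * S.L ^ S.Kt * (S.Q ^ 9 * S.g) * (S.β * S.g ^ 2) := by ring
      _ ≤ S.Q * (S.Q ^ 10 * S.g) * 1 := by
        rw [h.nu.ok.βg]; gcongr; exacts [h.KtQ, S.Q1, by norm_num]
      _ = _ := by ring

end LF

/-- the norm of the marginal part -/
def nb (φ : Fld → ℂ) : ℝ :=
  ∑ p : Fin 4 × Fin 4, ∑ q : Fin 4 × Fin 4, ‖qc φ (pt (EE p)) (pt (EE q))‖ / 4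

theorem nb_nonneg (φ : Fld → ℂ) : 0 ≤ nb φ := by unfold nb; positivity

theorem cv_EE (p : Fin 4 × Fin 4) : Cv 0 1 (pt (EE p)) := (cv_pt (as_EE _) 0).mono le_rfl (norm_EE _)

theorem nb_sub (h : ∀ a b δ δ', Cv 0 δ a → Cv 0 δ' b → ‖qc φ' a b - qc φ a b‖ ≤ C * δ * δ') :
    nb φ ≤ nb φ' + 64 * C := by
  have : ∀ p q, ‖qc φ (pt (EE p)) (pt (EE q))‖ / 4 ≤ ‖qc φ' (pt (EE p)) (pt (EE q))‖ / 4 + C / 4 :=
    fun p q => by
      linarith [(norm_sub_norm_le _ _).trans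
        ((norm_sub_rev _ _).trans_le (h _ _ _ _ (cv_EE p) (cv_EE q)))]
  refine (sum_le_sum fun p _ => sum_le_sum fun q _ => this p q).trans_eq ?_
  simp only [sum_add_distrib, nb, sum_const, card_univ, Fintype.card_prod, Fintype.card_fin]
  simp
  ring

theorem nb_le (h : ∀ a b δ δ', Cv 0 δ a → Cv 0 δ' b → ‖qc φ a b‖ ≤ C * δ * δ') :
    nb φ ≤ 64 * C := by
  refine (sum_le_sum fun p _ => sum_le_sum fun q _ => show _ ≤ C / 4 by
    linarith [h _ _ _ _ (cv_EE p) (cv_EE q)]).trans_eq ?_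
  simp
  ring

theorem Ps.nb {R s : ℕ} {ρ xb xk xr : ℝ} (h : Ps R s ρ xb xk xr φ) :
    Ps R s ρ (nb φ) xk xr φ ∧ nb φ ≤ 64 * xb := by
  refine ⟨{ h with cb := fun a b δ δ' ha hb => ?_ }, nb_le h.cb⟩
  obtain ⟨k, -, e⟩ := h.bil
  have s : ∀ a : V, cc a = ∑ p : Fin 4 × Fin 4, (2⁻¹ * dd a 0 p.1 p.2) • pt (EE p) := fun a => by
    conv_lhs => rw [cc_pt, As.eq_sum (F := dd a 0) fun μ ν => by simp only [dd]; ring, map_sum]
    simp only [map_smul]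
  have d : ∀ {a : V} {δ}, Cv 0 δ a → ∀ p : Fin 4 × Fin 4, ‖2⁻¹ * dd a 0 p.1 p.2‖ ≤ δ / 2 :=
    fun ha p => by
      rw [norm_mul, norm_inv, norm_two]; linarith [ha 0 (zero_mem_box 0) p.1 p.2]
  rw [qc, e, s a, s b, LinearMap.map_sum₂, En.nb, sum_mul, sum_mul]
  refine norm_sum_le_of_le _ fun p _ => ?_
  rw [map_sum, sum_mul, sum_mul]
  refine norm_sum_le_of_le _ fun q _ => ?_
  rw [qc, e, cc_eq (as_EE p), cc_eq (as_EE q), LinearMap.map_smul₂, map_smul, norm_smul, norm_smul]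
  exact (mul_le_mul (d ha p) (mul_le_mul_of_nonneg_right (d hb q) (norm_nonneg _)) (by positivity)
    (by linarith [ha.nonneg])).trans_eq (by ring)

end Pool.Agent.Lib.MP_7f377f_mp.RG.Q4.En
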