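import Pool.Agent.Lib.MP_7f377f_mp.G.Q4MeasCov

/-! The kernel of a step: weights, noise, measurability; arithmetic of the torus. -/

noncomputable section

set_option linter.unusedSectionVars false
variable [Pool.Agent.Lib.MP_7f377f_mp.GD]

namespace Pool.Agent.Lib.MP_7f377f_mp.RG.Q4

open Finset Ms MeasureTheory Measure
open scoped ENNReal

namespace Mx

instance : Countable Om := inferInstanceAs (Countable (St × Equiv.Perm (Fin 4)))
instance : DiscreteMeasurableSpace Om := ⟨fun _ => trivial⟩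

/-- the support of the law of the base data -/
def FO (l : ℕ) : Finset Om := (box l ×ˢ univ : Finset (St × Equiv.Perm (Fin 4)))

theorem unO_eq (l : ℕ) : unO l = ProbabilityTheory.uniformOn (FO l : Set Om) := by
  rw [unO]
  congr 1
  ext ω
  exact ⟨fun h => mem_product.2 ⟨h, mem_univ _⟩, fun h => (mem_product.1 h).1⟩

instance prob_unO (l : ℕ) : IsProbabilityMeasure (unO l) := by
  rw [unO_eq]
  exact ProbabilityTheory.isProbabilityMeasure_uniformOn (finite_toSet _)
    ⟨((0, 1) : St × Equiv.Perm (Fin 4)), mem_product.2 ⟨zero_mem_box l, mem_univ _⟩⟩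

instance prob_OO (l : ℕ) : IsProbabilityMeasure (OO l) := by unfold OO; infer_instance

theorem int_unO (l : ℕ) (f : St → ℝ) :
    ∫ ω, f ω.1 ∂unO l = ((LL l : ℝ) ^ 4)⁻¹ * ∑ p ∈ box l, f p := by
  have h1 : (FO l).card = LL l ^ 4 * 24 := by
    refine (card_product _ _).trans ?_
    rw [card_box, card_univ, Fintype.card_perm]
    rfl
  have h2 : ∑ ω ∈ FO l, f ω.1 = 24 * ∑ p ∈ box l, f p := by
    refine (sum_product _ _ fun ω => f ω.1).trans ?_
    simp only [sum_const, card_univ, Fintype.card_perm, mul_sum, nsmul_eq_mul]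
    rfl
  have h3 : IntegrableOn (fun ω : Om => f ω.1) (FO l) count := by
    rw [← Set.biUnion_of_singleton (FO l : Set Om)]
    exact (integrableOn_finite_biUnion (finite_toSet _)).2 fun ω _ =>
      integrableOn_singleton (hx := by simp)
  rw [unO_eq, ProbabilityTheory.uniformOn, ProbabilityTheory.cond, integral_smul_measure,
    setIntegral_finset _ h3, count_apply_finset, h1]
  simp only [count_real_singleton, one_smul]
  rw [h2, ENNReal.toReal_inv, ENNReal.toReal_natCast, smul_eq_mul]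
  push_cast
  field_simp

theorem mp_unO (l : ℕ) {T : Om → Om} (hT : Function.Bijective T)
    (h : ∀ ω, (T ω).1 ∈ box l ↔ ω.1 ∈ box l) : MeasurePreserving T (unO l) (unO l) := by
  refine ⟨Measurable.of_discrete, Measure.ext fun s hs => ?_⟩
  rw [map_apply Measurable.of_discrete hs, unO, ProbabilityTheory.uniformOn,
    ProbabilityTheory.cond_apply .of_discrete, ProbabilityTheory.cond_apply .of_discrete,
    ← count_injective_image hT.1 (_ ∩ _)]
  congr 2
  rw [Set.image_inter_preimage]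
  congr 1
  ext ω
  obtain ⟨ω, rfl⟩ := hT.2 ω
  rw [hT.1.mem_set_image]
  exact (h ω).symm

theorem adm_pos (l : ℕ) (U : Conf) (μ : Fin 4) : 0 < (adm l U μ).card := by
  have h : (Icc (-(l : ℤ)) l).card = LL l := by rw [Int.card_Icc, LL]; omega
  obtain ⟨s, hs, h'⟩ := exists_le_of_sum_le (s := Icc (-(l : ℤ)) l) ⟨0, by simp⟩
    (f := fun s => LL l * ms l U μ s) (g := fun _ => ∑ s' ∈ Icc (-(l : ℤ)) l, ms l U μ s')
    (by rw [← mul_sum, sum_const, h, nsmul_eq_mul])
  classical
  exact card_pos.2 ⟨s, mem_filter.2 ⟨hs, h'⟩⟩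

theorem wp_bd (l : ℕ) (U : Conf) (p : St) : 0 ≤ wp l U p ∧ wp l U p ≤ (LL l : ℝ) ^ 4 := by
  have h : ∀ μ, 0 ≤ (if p μ ∈ adm l U μ then (LL l : ℝ) / (adm l U μ).card else 0) ∧
      (if p μ ∈ adm l U μ then (LL l : ℝ) / (adm l U μ).card else 0) ≤ LL l := fun μ => by
    split_ifs
    · exact ⟨by positivity, div_le_self (by positivity) (by exact_mod_cast adm_pos l U μ)⟩
    · exact ⟨le_rfl, by positivity⟩
  rw [wp]
  split_ifs
  · exact ⟨by positivity, le_rfl⟩
  · exact ⟨le_rfl, by positivity⟩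
  · exact ⟨prod_nonneg fun μ _ => (h μ).1,
      (prod_le_prod (fun μ _ => (h μ).1) fun μ _ => (h μ).2).trans_eq (by simp)⟩

theorem sum_wp (l : ℕ) (U : Conf) : ∑ p ∈ box l, wp l U p = (LL l : ℝ) ^ 4 := by
  unfold wp
  split_ifs
  · rw [sum_ite_eq', if_pos (zero_mem_box l)]
  · rw [box, ← prod_univ_sum (fun _ => Icc (-(l : ℤ)) l)
      fun μ s => if s ∈ adm l U μ then (LL l : ℝ) / (adm l U μ).card else 0]
    refine (prod_congr rfl fun μ _ => ?_).trans (show ∏ _ : Fin 4, (LL l : ℝ) = _ by simp)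
    have := adm_pos l U μ
    rw [sum_ite_mem, inter_eq_right.2 (show adm l U μ ⊆ _ from filter_subset _ _), sum_const,
      nsmul_eq_mul]
    field_simp

theorem cont_fq (x : St) (μ ν : Fin 4) : Continuous fun U => fq U x μ ν :=
  ((cont_q.comp (cont_hol x μ ν)).sub continuous_const).norm

theorem cont_ms (l : ℕ) (μ : Fin 4) (s : ℤ) : Continuous fun U => ms l U μ s := by
  refine continuous_finsetSum _ fun x _ => continuous_finsetSum _ fun ν _ =>
    continuous_finsetSum _ fun κ _ => ?_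
  split_ifs
  · exact cont_fq _ _ _
  · exact continuous_const

theorem meas_Fl (R : ℕ) (ε : ℝ) : MeasurableSet {U | Fl R ε U} := by
  simp only [Fl, Set.ofPred_forall]
  exact .iInter fun x => .iInter fun μ => .iInter fun ν => .iInter fun _ => .iInter fun _ =>
    measurableSet_le (cont_fq _ _ _).measurable measurable_const

theorem meas_adm (l : ℕ) (μ : Fin 4) (s : ℤ) : MeasurableSet {U | s ∈ adm l U μ} := by
  simp only [adm, mem_filter]
  exact (MeasurableSet.const _).inter (measurableSet_le ((cont_ms l μ s).measurable.const_mul _)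
    (continuous_finsetSum _ fun s _ => cont_ms l μ s).measurable)

theorem meas_wp (l : ℕ) (p : St) : Measurable fun U => wp l U p := by
  classical
  refine Measurable.ite (meas_Fl _ _) measurable_const (measurable_fun_prod _ fun μ _ =>
    Measurable.ite (meas_adm l μ _) (measurable_const.div ?_) measurable_const)
  have : ∀ U, ((adm l U μ).card : ℝ) =
      ∑ s ∈ Icc (-(l : ℤ)) l, if s ∈ adm l U μ then 1 else 0 := fun U => by
    rw [sum_ite_mem, inter_eq_right.2 (show adm l U μ ⊆ _ from filter_subset _ _)]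
    simp
  simp only [this]
  exact measurable_fun_sum _ fun s _ =>
    Measurable.ite (meas_adm l μ s) measurable_const measurable_const

theorem cont_hk0 (a : ℝ) : Continuous (hk0 a) := by
  have := cont_q
  unfold hk0
  fun_prop

theorem int_hk0 (a : ℝ) : Integrable (hk0 a) haar :=
  (cont_hk0 a).integrable_of_hasCompactSupport (HasCompactSupport.of_compactSpace _)

theorem Z_pos (a : ℝ) : 0 < ∫ g, hk0 a g ∂haar := integral_exp_pos (int_hk0 a)

theorem cont_hk (a : ℝ) : Continuous (hk a) := (cont_hk0 a).div_const _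

theorem hk_pos (a : ℝ) (g : S3) : 0 < hk a g := div_pos (Real.exp_pos _) (Z_pos a)

theorem hk_one (a : ℝ) : ∫ g, hk a g ∂haar = 1 := by
  simp only [hk]
  rw [integral_div, div_self (Z_pos a).ne']

theorem hk_conj (a : ℝ) (u g : S3) : hk a (u * g * u⁻¹) = hk a g := by
  simp only [hk, hk0, norm_sub_conj]

theorem hk_inv (a : ℝ) (g : S3) : hk a g⁻¹ = hk a g := by simp only [hk, hk0, norm_sub_inv]

theorem hk_bd (a : ℝ) : ∃ c C : ℝ, 0 < c ∧ ∀ g, c ≤ hk a g ∧ hk a g ≤ C := by
  obtain ⟨g, -, hg⟩ := isCompact_univ.exists_isMinOn ⟨1, trivial⟩ (cont_hk a).continuousOn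
  obtain ⟨g', -, hg'⟩ := isCompact_univ.exists_isMaxOn ⟨1, trivial⟩ (cont_hk a).continuousOn
  exact ⟨_, _, hk_pos a g, fun x => ⟨hg trivial, hg' trivial⟩⟩

theorem cont_pm (σ : Equiv.Perm (Fin 4)) : Continuous fun U : Conf => pm σ U :=
  continuous_pi fun _ => continuous_apply _

theorem cont_cms (σ : Equiv.Perm (Fin 4)) (p t : St) :
    Continuous fun U : Conf => cms Inv.inv σ U p t :=
  (cont_cmb _).comp ((cont_pm σ).comp (cont_sh p))

theorem cont_avq (l : ℕ) (μ : Fin 4) (p p' : St) : Continuous fun U => avq l μ U p p' := by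
  have h : Continuous fun U : Conf => ∑ σ : Equiv.Perm (Fin 4), ∑ t ∈ box l, (cms Inv.inv σ U p t *
      lnP U t μ (LL l) * (cms Inv.inv σ (sh (up l (un μ)) U) p' t)⁻¹).q := by
    refine continuous_finsetSum _ fun σ _ => continuous_finsetSum _ fun t _ => ?_
    have h1 : Continuous fun U : Conf => cms Inv.inv σ (sh (up l (un μ)) U) p' t :=
      (cont_cms σ p' t).comp (cont_sh _)
    exact cont_q.comp (((cont_cms σ p t).mul (cont_lnP t μ (LL l))).mul h1.inv)
  exact h.const_smul (24 * (LL l : ℝ) ^ 4)⁻¹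

theorem meas_av (l : ℕ) (μ : Fin 4) (ω ω' : Om) : Measurable fun U => av l μ U ω ω' := by
  classical
  refine Measurable.ite ?_ (cont_lnP _ _ _).measurable (((cont_cms _ _ _).inv.measurable.mul
    (meas_nr (cont_avq _ _ _ _))).mul ((cont_cms _ _ _).comp (cont_sh _)).measurable)
  exact meas_off (cont_avq _ _ _ _)

theorem meas_uh (l : ℕ) : Measurable (uh l) :=
  meas_nr ((continuous_finsetSum _ fun σ _ => continuous_finsetSum _ fun t _ =>
    cont_q.comp ((cont_cms σ 0 t).mul (cont_cmb t).inv)).const_smul (24 * (LL l : ℝ) ^ 4)⁻¹)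

end Mx

open Mx

theorem wt_int (l : ℕ) (U : Conf) : (∀ ω, 0 ≤ wt l U ω ∧ wt l U ω ≤ (LL l : ℝ) ^ 4) ∧
    ∫ ω, wt l U ω ∂unO l = 1 ∧ IsProbabilityMeasure (unO l) := by
  refine ⟨fun ω => wt_eq l U ω ▸ wp_bd l U _, ?_, prob_unO l⟩
  have := LL_pos l
  simp only [wt_eq]
  rw [int_unO, sum_wp, inv_mul_cancel₀ (by positivity)]

theorem measurable_blk (l : ℕ) : Measurable fun v : Conf × (St → Om) => blk l v.1 v.2 := by
  refine measurable_pi_lambda _ fun b => ?_
  have h : Measurable fun v : Conf × Om × Om => av l b.2 v.1 v.2.1 v.2.2 :=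
    measurable_from_prod_countable_left fun ω => meas_av l b.2 ω.1 ω.2
  have h2 : Measurable fun v : Conf × (St → Om) =>
      (sh (up l b.1) v.1, v.2 b.1, v.2 (b.1 + un b.2)) :=
    ((cont_sh _).measurable.comp measurable_fst).prodMk (by fun_prop)
  have h3 := h.comp h2
  simp only [Function.comp_def] at h3
  exact h3

theorem measurable_blkN (l : ℕ) : Measurable fun v : Conf × (St → Om) => blkN l v.1 v.2 := by
  have h : ∀ y, Measurable fun v : Conf × (St → Om) => (uh l (sh (up l y) v.1))⁻¹ := fun y =>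
    ((meas_uh l).comp ((cont_sh _).measurable.comp measurable_fst)).inv
  exact measurable_pi_lambda _ fun b =>
    ((h _).mul ((measurable_pi_apply b).comp (measurable_blk l))).mul (h _).inv

theorem measurable_wt (l : ℕ) : Measurable fun v : Conf × Om => wt l v.1 v.2 :=
  measurable_from_prod_countable_left fun ω => by simpa only [wt_eq] using meas_wp l ω.1

namespace Mx

/-- weight of the base data -/
def Wt (l n : ℕ) (U : Conf) (ω : St → Om) : ℝ := ∏ y ∈ box (n / 2), wt l (sh (up l y) U) (ω y)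

/-- density of the noise -/
def Hk (a : ℝ) (n : ℕ) (W B : Conf) : ℝ := ∏ b ∈ ldom n, hk a (W b * (B b)⁻¹)

theorem ker_eq (bk : Conf → (St → Om) → Conf) (l : ℕ) (a : ℝ) (n : ℕ) (W U : Conf) (ω : St → Om) :
    ker bk l a n W U ω = Wt l n U ω * Hk a n W (bk U ω) := rfl

theorem meas_Wt (l n : ℕ) : Measurable fun v : Conf × (St → Om) => Wt l n v.1 v.2 := by
  refine measurable_fun_prod _ fun y _ => ?_
  have h2 : Measurable fun v : Conf × (St → Om) => (sh (up l y) v.1, v.2 y) :=
    ((cont_sh _).measurable.comp measurable_fst).prodMk (by fun_prop)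
  have h3 := (measurable_wt l).comp h2
  simpa only [Function.comp_def] using h3

theorem cont_Hk (a : ℝ) (n : ℕ) : Continuous fun v : Conf × Conf => Hk a n v.1 v.2 :=
  continuous_finsetProd _ fun b _ => (cont_hk a).comp (by fun_prop)

theorem Wt_bd (l n : ℕ) : ∃ C : ℝ, ∀ U ω, 0 ≤ Wt l n U ω ∧ Wt l n U ω ≤ C :=
  ⟨_, fun _ _ => ⟨prod_nonneg fun _ _ => ((wt_int l _).1 _).1,
    prod_le_prod (fun _ _ => ((wt_int l _).1 _).1) fun _ _ => ((wt_int l _).1 _).2⟩⟩

theorem Hk_bd (a : ℝ) (n : ℕ) : ∃ c C : ℝ, 0 < c ∧ ∀ W B, c ≤ Hk a n W B ∧ Hk a n W B ≤ C := by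
  obtain ⟨c, C, h0, h⟩ := hk_bd a
  exact ⟨∏ _ ∈ ldom n, c, _, prod_pos fun _ _ => h0, fun W B =>
    ⟨prod_le_prod (fun _ _ => h0.le) fun _ _ => (h _).1,
      prod_le_prod (fun _ _ => (hk_pos _ _).le) fun _ _ => (h _).2⟩⟩

theorem ker_bd (l : ℕ) (a : ℝ) (n : ℕ) : ∃ C : ℝ, ∀ bk W U ω,
    0 ≤ ker bk l a n W U ω ∧ ker bk l a n W U ω ≤ C := by
  obtain ⟨C, h⟩ := Wt_bd l n
  obtain ⟨c, C', h0, h'⟩ := Hk_bd a n
  exact ⟨C * C', fun bk W U ω => ⟨mul_nonneg (h _ _).1 (h0.le.trans (h' _ _).1),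
    mul_le_mul (h _ _).2 (h' _ _).2 (h0.le.trans (h' _ _).1) ((h U ω).1.trans (h _ _).2)⟩⟩

theorem int_Wt (l n : ℕ) (U : Conf) : ∫ ω, Wt l n U ω ∂OO l = 1 := by
  have h := integral_restrict_infinitePi (μ := fun _ : St => unO l) (s := box (n / 2))
    (f := fun w => ∏ y : box (n / 2), wt l (sh (up l y) U) (w y))
    Measurable.of_discrete.aestronglyMeasurable
  rw [integral_fintype_prod_eq_prod fun (y : box (n / 2)) o => wt l (sh (up l y) U) o] at h
  simp only [(wt_int l _).2.1, prod_const_one] at h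
  rw [← h]
  exact integral_congr_ae (.of_forall fun ω => (prod_coe_sort _ _).symm)

theorem meas_ker {bk : Conf → (St → Om) → Conf} (l : ℕ) (a : ℝ) (n : ℕ)
    (hb : Measurable fun v : Conf × (St → Om) => bk v.1 v.2) :
    Measurable fun v : Conf × Conf × (St → Om) => ker bk l a n v.1 v.2.1 v.2.2 := by
  have h0 : Measurable fun v : Conf × Conf × (St → Om) => v.2 := measurable_snd
  have h1 := (meas_Wt l n).comp h0
  have h2 := (cont_Hk a n).measurable.comp (measurable_fst.prodMk (hb.comp h0))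
  simp only [Function.comp_def] at h1 h2
  exact h1.mul h2

/-! ### the torus -/

theorem cg_rc (n : ℕ) (x : St) : Cg n (rc n x) x := fun i => by
  have := Int.dvd_emod_sub_self (x := x i + (n / 2 : ℕ)) (m := n)
  rwa [rc, sub_sub, add_comm _ (x i)]

theorem rc_cg {n : ℕ} {x y : St} (h : Cg n x y) : rc n x = rc n y := by
  funext i
  simp only [rc]
  exact congrArg (· - _) (congrFun (h.add fun _ => (n / 2 : ℕ)).mod i)

theorem cg_of_rc {n : ℕ} {x y : St} (h : rc n x = rc n y) : Cg n x y := fun i => by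
  have := dvd_sub (cg_rc n y i) (cg_rc n x i)
  rwa [h, sub_sub_sub_cancel_left] at this

theorem rc_rc (n : ℕ) (x : St) : rc n (rc n x) = rc n x := rc_cg (cg_rc n x)

theorem rc_box {n : ℕ} (hn : Odd n) (x : St) : rc n x ∈ box (n / 2) := mem_box.2 fun i => by
  obtain ⟨k, rfl⟩ := hn
  have h1 := Int.emod_nonneg (x i + ((2 * k + 1) / 2 : ℕ)) (b := ((2 * k + 1 : ℕ) : ℤ)) (by omega)
  have h2 := Int.emod_lt_of_pos (x i + ((2 * k + 1) / 2 : ℕ)) (b := ((2 * k + 1 : ℕ) : ℤ))
    (by omega)
  simp only [rc]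
  omega

theorem rc_id {n : ℕ} (hn : Odd n) {x : St} (hx : x ∈ box (n / 2)) : rc n x = x := by
  funext i
  obtain ⟨k, rfl⟩ := hn
  have := mem_box.1 hx i
  simp only [rc]
  rw [Int.emod_eq_of_lt] <;> omega

theorem cg_ex {n : ℕ} {x y : St} (h : Cg n x y) : ∃ v : St, x = y + (n : ℤ) • v := by
  choose k hk using h
  exact ⟨k, funext fun i => by simpa [add_comm] using sub_eq_iff_eq_add.1 (hk i)⟩

theorem cg_add (n : ℕ) (x v : St) : Cg n (x + (n : ℤ) • v) x := fun i => by simp

theorem PS_iff {α : Type} {n : ℕ} {u : St → α} : PS n u ↔ Ms.PS n u :=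
  ⟨fun h x y hc => by obtain ⟨v, rfl⟩ := cg_ex hc; exact h y v, fun h x v => h _ _ (cg_add n x v)⟩

theorem per_iff {α : Type} {n : ℕ} {U : Lk → α} : Per n U ↔ PL n U :=
  ⟨fun h x y μ hc => by obtain ⟨v, rfl⟩ := cg_ex hc; exact congrFun (h.sh_smul v) (y, μ),
    fun h μ => funext fun e => h _ _ _ (cg_add n _ _)⟩

theorem PL_pc {α : Type} (n : ℕ) (U : Lk → α) : PL n (pc n U) := fun x y μ h => by
  simp only [pc, rc_cg h]

theorem per_pc {α : Type} (n : ℕ) (U : Lk → α) : Per n (pc n U) := per_iff.2 (PL_pc n U)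

theorem PS_pcs {α : Type} (n : ℕ) (w : St → α) : Ms.PS n (pcs n w) := fun x y h => by
  simp only [pcs, rc_cg h]

theorem pc_gauge {n : ℕ} {u : St → S3} (hu : Ms.PS n u) (U : Conf) :
    pc n (gauge Inv.inv u U) = gauge Inv.inv u (pc n U) := by
  funext e
  simp only [pc, gauge]
  rw [hu _ _ (cg_rc n e.1), hu _ _ ((cg_rc n e.1).add _)]

theorem cont_pc (n : ℕ) : Continuous fun U : Conf => pc n U :=
  continuous_pi fun _ => continuous_apply _

theorem meas_pcs {α : Type} [MeasurableSpace α] (n : ℕ) : Measurable (pcs (α := α) n) :=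
  measurable_pi_lambda _ fun _ => measurable_pi_apply _

theorem cg_up {l n : ℕ} {x y : St} (h : Cg n x y) : Cg (LL l * n) (up l x) (up l y) := fun i => by
  rw [up_apply, up_apply, ← mul_sub, Nat.cast_mul]
  exact mul_dvd_mul_left _ (h i)

theorem sh_cg {α : Type} {n : ℕ} {V : Lk → α} (hV : PL n V) {x y : St} (h : Cg n x y) :
    sh x V = sh y V := funext fun e => hV _ _ _ fun i => by simpa using h i

/-- products over a fundamental domain are invariant under bijections of the quotient -/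
theorem prod_rel {ι M : Type} [CommMonoid M] {D : Finset ι} {r φ : ι → ι} (h1 : ∀ i, r i ∈ D)
    (h2 : ∀ i ∈ D, r i = i) (h3 : ∀ i j, r (φ i) = r (φ j) → r i = r j) {g : ι → M}
    (hg : ∀ i, g (r i) = g i) : ∏ i ∈ D, g (φ i) = ∏ i ∈ D, g i := by
  have hi : Set.InjOn (fun i => r (φ i)) D := fun i hi j hj h => by
    rw [← h2 i hi, ← h2 j hj, h3 i j h]
  exact prod_nbij (fun i => r (φ i)) (fun i _ => h1 _) hi
    (surjOn_of_injOn_of_card_le _ (fun i _ => h1 _) hi le_rfl) fun i _ => (hg _).symm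

/-- the law of a periodised field is invariant under bijections of the quotient -/
theorem map_rel {ι X : Type} [MeasurableSpace X] (m : Measure X) [IsProbabilityMeasure m]
    {r φ : ι → ι} {T : ι → X → X} (hT : ∀ i, MeasurePreserving (T i) m m)
    (h1 : ∀ i, r (r i) = r i) (h2 : ∀ i j, r (φ i) = r (φ j) ↔ r i = r j)
    (h3 : ∀ i, T (r i) = T i) :
    (infinitePi fun _ => m).map (fun (U : ι → X) i => T i (U (r (φ i)))) =
      (infinitePi fun _ => m).map fun (U : ι → X) i => U (r i) := by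
  set E : ({i // r i = i} → X) → ι → X := fun w i => w ⟨r i, h1 i⟩ with hE
  have mE : Measurable E := measurable_pi_lambda _ fun _ => measurable_pi_apply _
  have i1 : Function.Injective fun i : {i // r i = i} => r (φ i) := fun i j h =>
    Subtype.ext (by rw [← i.2, ← j.2, (h2 _ _).1 h])
  have e1 := map_infinitePi_infinitePi_of_inj (P := fun _ : ι => m) i1
  have e2 := map_infinitePi_infinitePi_of_inj (P := fun _ : ι => m)
    (Subtype.val_injective (p := fun i => r i = i))
  have e3 := infinitePi_map_pi (fun _ : {i // r i = i} => m) fun i => (hT i).measurable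
  simp only [fun i => (hT i).map_eq] at e3
  have mT : Measurable fun (x : {i // r i = i} → X) (i : {i // r i = i}) => T i (x i) :=
    measurable_pi_lambda _ fun i => (hT i).measurable.comp (measurable_pi_apply i)
  calc _ = (((infinitePi fun _ => m).map fun (U : ι → X) (i : {i // r i = i}) =>
        U (r (φ i))).map fun x (i : {i // r i = i}) => T i (x i)).map E := by
        rw [map_map mT (by fun_prop), map_map mE (mT.comp (by fun_prop))]
        congr 1
        funext U i
        simp only [hE, Function.comp, h3, (h2 (r i) i).2 (h1 i)]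
    _ = _ := by
        rw [e1, e3, ← e2, map_map mE (by fun_prop)]
        rfl

end Mx

end Pool.Agent.Lib.MP_7f377f_mp.RG.Q4
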