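import Pool.Agent.Lib.MP_7f377f_mp.G.Q4FinA
import Pool.Agent.Lib.MP_7f377f_mp.G.Q4MeasKer

/-! Transfer from periodic fields to fields on discrete tori: measures. -/

noncomputable section

set_option linter.unusedSectionVars false
variable [Pool.Agent.Lib.MP_7f377f_mp.GD]

namespace Pool.Agent.Lib.MP_7f377f_mp.RG.Q4.Fi

open MeasureTheory Measure Finset YM4 Ms
open scoped ENNReal

variable {m n : ℕ}

instance mS : MeasurableSpace SU2 := borel _

instance bS : BorelSpace SU2 := ⟨rfl⟩

instance cO : Countable Om := inferInstanceAs (Countable (St × Equiv.Perm (Fin 4)))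

instance sO : MeasurableSingletonClass Om := ⟨fun _ => trivial⟩

/-- change of type -/
def tr (ν : Measure S3) : Measure SU2 := ν

instance (ν : Measure S3) [h : IsProbabilityMeasure ν] : IsProbabilityMeasure (tr ν) := h

theorem meas_rs : Measurable (rs n) := measurable_pi_lambda _ fun _ => measurable_pi_apply _

theorem meas_lf : Measurable (lf (n := n)) := measurable_pi_lambda _ fun _ => measurable_pi_apply _

theorem meas_pc : Measurable (pc n : Conf → Conf) :=
  measurable_pi_lambda _ fun _ => measurable_pi_apply _

variable [NeZero n]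

theorem map_res (ν : Measure S3) [IsProbabilityMeasure ν] :
    (infinitePi fun _ : Lk => ν).map (rs n) = Measure.pi fun _ => tr ν := by
  rw [← infinitePi_eq_pi]
  exact map_infinitePi_infinitePi_of_inj (f := fun b : Site n × Fin 4 => (vl b.1, b.2))
    fun a b h => Prod.ext (vl_inj (Prod.mk.inj h).1) (Prod.mk.inj h).2

omit [NeZero n] in
theorem cont_fq (x : St) (μ ν : Fin 4) : Continuous fun U : Conf => fq U x μ ν :=
  ((cont_q.comp (cont_hol x μ ν)).sub continuous_const).norm

omit [NeZero n] in
theorem cont_wil (β : ℝ) : Continuous (wil β n) := by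
  have h : Continuous wd := by
    refine continuous_finsetSum _ fun μ _ => continuous_finsetSum _ fun ν _ => ?_
    split_ifs
    exacts [(cont_fq 0 μ ν).pow 2, continuous_const]
  exact ((continuous_finsetSum (box (n / 2)) fun x _ => h.comp (cont_sh x)).const_mul β).neg.rexp

end Pool.Agent.Lib.MP_7f377f_mp.RG.Q4.Fi
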