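import Pool.Agent.Lib.MP_7f377f_mp.G.Q4LocK
import Pool.Agent.Lib.MP_7f377f_mp.G.Q4OpK2

/-! The determinant marks of the fluctuation operator: explicit bounds. -/

noncomputable section

set_option linter.unusedSectionVars false
variable [Pool.Agent.Lib.MP_7f377f_mp.GD]

namespace Pool.Agent.Lib.MP_7f377f_mp.RG.Q4

open Finset Polynomial Loc Od

attribute [local irreducible] box lbox cube

variable {c : ℕ} {δ : ℝ} {H : Set St} {ka : St → Kf} {n : Fin 4 → ℕ} {O : Od} {W : Cf}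
  {W0 : Conf} {S : Finset St}

/-- the size of one step of a walk -/
def Od.ed (O : Od) (c : ℕ) : ℝ := (2 * O.N + 1) * O.θ c ^ O.N

/-- the majorant of the determinant marks; it depends on `l`, `N`, `c`, `n` only -/
def Od.kd (O : Od) (c : ℕ) (n : Fin 4 → ℕ) (S : Finset St) : ℝ :=
  kw (blv n (4 * O.N + 2)) (4 * GD.d * LL O.l ^ 4) (O.ed c) S

theorem Od.Ok.ed_nonneg (h : O.Ok c) : 0 ≤ O.ed c :=
  mul_nonneg (by positivity) (pow_nonneg (θ_mem h).1 _)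

theorem Od.Ok.kd_nonneg (h : O.Ok c) (S : Finset St) : 0 ≤ O.kd c n S := kw_nonneg h.ed_nonneg S

theorem Od.Ok.N_pos (h : O.Ok c) : 1 ≤ O.N := by
  have : (1 : ℝ) ≤ O.N := h.N_cast ▸ one_le_pow₀ (by linarith [h.LL_ge])
  exact_mod_cast this

theorem Od.Ok.θ_lt (h : O.Ok c) : O.θ c < 1 :=
  sub_lt_self _ (by have := h.LL_ge; positivity)

theorem Od.Ok.ed_le (h : O.Ok c) : 72 * GD.d * (LL O.l : ℝ) ^ 4 * (8 * O.N + 5) ^ 4 * O.ed c ≤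
    Real.exp (-(O.l : ℝ) ^ 2 - 2 * O.l) := by
  have hL := h.LL_ge
  have N1 : (1 : ℝ) ≤ O.N := by exact_mod_cast h.N_pos
  have hd : (GD.d : ℝ) ≤ LL O.l := by
    linarith [h.cg, GD.d_le, le_self_pow₀ GD.cG1 (n := 10) (by norm_num), GD.cG1]
  refine le_trans ?_ (θ_pow' h (j := 10 * c + 27) (by have := h.big; omega))
  rw [Od.ed, ← mul_assoc]
  refine mul_le_mul_of_nonneg_right ?_ (pow_nonneg (θ_mem h).1 _)
  calc _ ≤ 72 * LL O.l * (LL O.l : ℝ) ^ 4 * (13 * O.N) ^ 4 * (3 * O.N) := by gcongr <;> linarith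
    _ = 6169176 * (LL O.l : ℝ) ^ (10 * c + 25) := by rw [h.N_cast]; ring
    _ ≤ (LL O.l : ℝ) ^ 2 * (LL O.l : ℝ) ^ (10 * c + 25) := by gcongr; nlinarith
    _ = _ := by ring

theorem Od.Ok.one_le_dL (h : O.Ok c) : (1 : ℝ) ≤ GD.d * (LL O.l : ℝ) ^ 4 :=
  one_le_mul_of_one_le_of_one_le (by exact_mod_cast le_trans (by norm_num) GD.d3)
    (one_le_pow₀ (by linarith [h.LL_ge]))

theorem Od.Ok.ed_small (h : O.Ok c) :
    6 * (4 * GD.d * (LL O.l : ℝ) ^ 4 + 1) * (8 * O.N + 5) ^ 4 * O.ed c ≤ 1 ∧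
      (8 * O.N + 5) ^ 4 * O.ed c ≤ 1 / 2 := by
  have h1 := h.ed_le.trans (Real.exp_le_one_iff.2 (by
    nlinarith [Nat.cast_nonneg (α := ℝ) O.l]))
  have h2 := h.one_le_dL
  have h3 : 0 ≤ (8 * O.N + 5 : ℝ) ^ 4 * O.ed c := mul_nonneg (by positivity) h.ed_nonneg
  constructor <;> nlinarith

theorem gk_per (hH : PerS n H) (hk : PerK n ka) (hW : PerV n W) (h0 : PerV n W0) {x y : St}
    (h : Dv n (x - y)) (hg : Gk O δ H ka W W0 y) : Gk O δ H ka W W0 x := by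
  obtain ⟨v, hv⟩ := dv_iff.1 h
  rw [sub_eq_iff_eq_add'.1 hv, ← gk_sh, hH v, hk.shK, hW v, h0 v]
  exact hg

theorem nrK_of (h : O.Ok c) (hδ : (LL O.l : ℝ) ^ (2 * c + 10) * δ ≤ 1) (hn : ∀ i, Odd (n i))
    (hH : PerS n H) (hk : PerK n ka) (hW : PerV n W) (h0 : PerV n W0) {R : ℕ} {y : St}
    (hg : ∀ x ∈ box (R + 1), Gk O δ H ka W W0 (x + y)) : NrK n O.l O.Λ R (O.θ c) H ka y :=
  fun H' h1 h2 h3 _ => topK_l2 h hδ hn h1 h0 (W := W) fun x => ⟨fun hx => by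
    obtain ⟨v, hv, h4⟩ := h3 x hx
    exact (gk_per hH hk hW h0 h4 (hg v (box_mono R.le_succ hv))).1 (hx.anti h2), fun hx => by
    obtain ⟨w, hw, h4⟩ := hx
    obtain ⟨v, hv, h5⟩ := h3 _ h4
    refine (gk_per hH hk hW h0 ?_ (hg (v + -w) (add_mem_box hv (neg_mem_box hw)))).2
      ⟨w, hw, h4.anti h2⟩
    convert h5 using 1
    abel⟩

/-- the bound for a mark -/
theorem dmK_le (h : O.Ok c) (hδ : (LL O.l : ℝ) ^ (2 * c + 10) * δ ≤ 1) (hn : ∀ i, Odd (n i))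
    (hH : PerS n H) (hk : PerK n ka) (hW : PerV n W) (h0 : PerV n W0) (hS : S ⊆ domv n)
    (hg : ∀ y ∈ S, ∀ x ∈ box (4 * O.N + 8), Gk O δ H ka W W0 (x + y)) :
    ‖dmK n O.l O.Λ O.N H ka S‖ ≤ O.kd c n S :=
  dmK_norm hn hH hk (θ_mem h).1 (θ_mem h).2 le_rfl h.ed_small.1 hS
    fun y hy => nrK_of h hδ hn hH hk hW h0 (hg y hy)

/-- the weighted sum of the majorants over the supports which contain a point -/
theorem kd_sum (h : O.Ok c) {n : ℕ} (hn : Odd n) {R D : ℕ} (hD : 4 * O.N + 2 ≤ D) (hR : R ≤ D)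
    {a e : ℝ} (a0 : 0 ≤ a) (e0 : 0 ≤ e) (ha : a + e * (2 * R + 1) ^ 4 ≤ O.l) (x : St) :
    ∑ S ∈ (box (n / 2)).powerset.filter (fun S => x ∈ tb n R S), O.kd c (cu n) S *
      Real.exp (a * tau n D (tb n R S) + e * (tb n R S).card) ≤
      (2 * R + 1) ^ 4 * Real.exp (-(O.l : ℝ) ^ 2) := by
  have ε0 := h.ed_nonneg
  have h1 := h.ed_le
  have h2 := h.one_le_dL
  have h3 : Real.exp (2 * (a + e * (2 * R + 1) ^ 4)) ≤ Real.exp (2 * O.l) := by gcongr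
  have h4 : 72 * GD.d * (LL O.l : ℝ) ^ 4 * (8 * O.N + 5) ^ 4 * O.ed c *
      Real.exp (2 * (a + e * (2 * R + 1) ^ 4)) ≤ Real.exp (-(O.l : ℝ) ^ 2) :=
    (mul_le_mul h1 h3 (by positivity) (by positivity)).trans_eq (by
      rw [← Real.exp_add, sub_add_cancel])
  have e1 : (2 * ((4 * O.N + 2 : ℕ) : ℝ) + 1) = 8 * O.N + 5 := by push_cast; ring
  refine (sum_kw' (fun y hy => rc_eq hn hy) hD hR a0 e0 ε0 ?_ _ x).trans
    (mul_le_mul_of_nonneg_left (le_trans (le_of_eq ?_) h4) (by positivity))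
  · have h5 : Real.exp (a + e * (2 * R + 1) ^ 4) ≤ Real.exp (2 * (a + e * (2 * R + 1) ^ 4)) :=
      Real.exp_le_exp.2 (by linarith [show 0 ≤ a + e * (2 * R + 1) ^ 4 by positivity])
    have h6 := mul_le_mul_of_nonneg_left h5 (show 0 ≤ (8 * O.N + 5 : ℝ) ^ 4 * O.ed c by positivity)
    have h7 : 0 ≤ (8 * O.N + 5 : ℝ) ^ 4 * O.ed c * Real.exp (2 * (a + e * (2 * R + 1) ^ 4)) := by
      positivity
    have h8 := h4.trans h.exp_le
    rw [e1]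
    nlinarith
  · rw [e1]
    push_cast
    ring

/-- the determinant of the preconditioner on the active links -/
theorem det_pAct (h : O.Ok c) (hδ : (LL O.l : ℝ) ^ (2 * c + 10) * δ ≤ 1) (hn : ∀ i, Odd (n i))
    (hN : ∀ i, 2 * O.N < n i) (hH : PerS n H) (hk : PerK n ka) (hr : ∀ y, Nf H y → Kr (ka y))
    (hs : ∀ y, Ks (ka y)) (h0 : PerV n W0) (hg : ∀ y, Gk O δ H ka W W0 y) :
    ((|LinearMap.det (pAct n O.l O.Λ (pP O.N) H ka)| : ℝ) : ℂ) =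
      Complex.exp (∑ y ∈ domv n, dtK O.l O.Λ O.N (shS y H) (shK y ka)) *
        ∏ S ∈ (domv n).powerset, (1 + dmK n O.l O.Λ O.N H ka S) :=
  det_K' hn hN hH hk hr hs (θ_mem h).1 h.θ_lt (fun _ => topK_l2 h hδ hn hH h0 hg) h.N_pos le_rfl
    h.ed_small.2 _ (pAct_spec hn hH hk hr fun i => (Od.coeff_real _ i).1)

theorem det_pAct_exp (h : O.Ok c) (hδ : (LL O.l : ℝ) ^ (2 * c + 10) * δ ≤ 1)
    (hn : ∀ i, Odd (n i)) (hN : ∀ i, 2 * O.N < n i) (hH : PerS n H) (hk : PerK n ka)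
    (hr : ∀ y, Nf H y → Kr (ka y)) (hs : ∀ y, Ks (ka y)) (h0 : PerV n W0)
    (hg : ∀ y, Gk O δ H ka W W0 y) :
    ((|LinearMap.det (pAct n O.l O.Λ (pP O.N) H ka)| : ℝ) : ℂ) =
      Complex.exp (∑ y ∈ domv n, dtK O.l O.Λ O.N (shS y H) (shK y ka) +
        ∑ S ∈ (domv n).powerset, qdK n O.l O.Λ O.N H ka S) :=
  det_K hn hN hH hk hr hs (θ_mem h).1 h.θ_lt (fun _ => topK_l2 h hδ hn hH h0 hg) h.N_pos le_rfl
    h.ed_small.2 _ (pAct_spec hn hH hk hr fun i => (Od.coeff_real _ i).1)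

theorem det_pAct_ne (h : O.Ok c) (hδ : (LL O.l : ℝ) ^ (2 * c + 10) * δ ≤ 1)
    (hn : ∀ i, Odd (n i)) (hN : ∀ i, 2 * O.N < n i) (hH : PerS n H) (hk : PerK n ka)
    (hr : ∀ y, Nf H y → Kr (ka y)) (hs : ∀ y, Ks (ka y)) (h0 : PerV n W0)
    (hg : ∀ y, Gk O δ H ka W W0 y) : LinearMap.det (pAct n O.l O.Λ (pP O.N) H ka) ≠ 0 := fun e => by
  have := det_pAct_exp h hδ hn hN hH hk hr hs h0 hg
  rw [e, abs_zero, Complex.ofReal_zero] at this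
  exact Complex.exp_ne_zero _ this.symm

end Pool.Agent.Lib.MP_7f377f_mp.RG.Q4
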