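import Pool.Agent.Lib.MP_7f377f_mp.G.Q4MeasTT
import Pool.Agent.Lib.MP_7f377f_mp.G.Q4LocO

/-! The Gaussian change of variables built from a family of kernels. -/

noncomputable section

set_option linter.unusedSectionVars false
variable [Pool.Agent.Lib.MP_7f377f_mp.GD]

namespace Pool.Agent.Lib.MP_7f377f_mp.RG.Q4

open MeasureTheory Finset Polynomial

namespace Mx

variable {l n N c : ℕ} {Λ g δ : ℝ} {H : Set St} {ka : St → Kf} {As : Fld} {O : Od} {W : Cf}
  {W0 : Conf}

theorem domv_cu (n : ℕ) : domv (cu n) = box (n / 2) := rfl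

/-- divergences have total sum zero -/
theorem tel_zero {M : Type} [AddCommGroup M] (hn : Odd n) {ξ : St → St → M}
    (h : ∀ y y' w, ξ (y + (n : ℤ) • w) (y' + (n : ℤ) • w) = ξ y y') (r : ℕ) :
    ∑ y ∈ box (n / 2), (∑ w ∈ box r, ξ (y + w) y - ∑ w ∈ box r, ξ y (y + w)) = 0 := by
  rw [sum_sub_distrib, sub_eq_zero, sum_comm, sum_comm (s := box (n / 2))]
  refine sum_nbij' (fun x => -x) (fun x => -x) (fun _ => neg_mem_box) (fun _ => neg_mem_box)
    (fun _ _ => neg_neg _) (fun _ _ => neg_neg _) fun w _ => ?_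
  have := sum_dom_add (n := cu n) (fun _ => hn) (g := fun y => ξ y (y + -w))
    (fun y v => by rw [add_right_comm]; exact h _ _ v) w
  simpa only [add_neg_cancel_right, domv_cu] using this

end Mx

end Pool.Agent.Lib.MP_7f377f_mp.RG.Q4
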