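import Pool.Agent.Lib.MP_7f377f_mp.G.Q4TrA
import Pool.Agent.Lib.MP_7f377f_mp.G.Q4OpDefs
import Pool.Agent.Lib.MP_7f377f_mp.G.RGAp3

/-! The tree step: Newton iteration, Hessian, new tree density. Definitions. -/

noncomputable section

set_option linter.unusedSectionVars false
variable [Pool.Agent.Lib.MP_7f377f_mp.GD]

namespace Pool.Agent.Lib.MP_7f377f_mp.RG.Q4

open Finset

/-- unit fields -/
def eb (f : Lk) (k : Fin GD.d) : Fld := Pi.single f (Pi.single k 1)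

open Classical in
/-- restriction to a domain which is invariant under rotations of the colour -/
def ctf (R : ℕ) (ρ : ℝ) (φ : Fld → ℂ) (B : Fld) : ℂ :=
  if ∀ x ∈ box R, ∀ μ ν, ∑ k, ‖dd B x μ ν k‖ ^ 2 ≤ 3 * ρ ^ 2 then φ B else 0

/-- cubic local terms -/
structure Tc (R : ℕ) (ρ C : ℝ) (T : Fld → ℂ) : Prop where
  loc : ∀ A B, (∀ x ∈ box R, ∀ μ ν, dd A x μ ν = dd B x μ ν) → T A = T B
  hol : ∀ Ω γ, IsOpen Ω → Disc Ω γ → (∀ t ∈ Ω, Cv R ρ (γ t)) →
    DifferentiableOn ℂ (fun t => T (γ t)) Ω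
  bd : ∀ B d, Cv R d B → d ≤ ρ → ‖T B‖ ≤ C * d ^ 3
  ad : ∀ (h : S3) B, T (adF (fun _ => cS h) B) = T B
  meas : Measurable T

/-- near the origin the field is a real gauge transform of a field close to one -/
def Gd (R : ℕ) (d : ℝ) (W : Cf) : Prop := ∃ (u : St → S3) (B : Fld), (∀ e, ‖B e‖ ≤ d) ∧
  Agr R W (gauge star (fun x => cS (u x)) (exF B))

/-- the quadratic part of the energy of a block -/
def Qf (l : ℕ) (m : BF) (s : V →ₗ[ℝ] V) (B A : Fld) : ℂ :=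
  cx (mn l m s) B B + 2 * cx (xx l m s) A B + cx (hh l m) A A

/-- joint holomorphy of a family of block energies -/
def GH (l : ℕ) (δ : ℝ) (S : Set ℂ) (G : ℂ → Cf → Fld → ℂ) : Prop :=
  ∀ (Ω : Set ℂ) (B A : ℂ → Fld), IsOpen Ω → Ω ⊆ S → Disc Ω B → Disc Ω A →
    (∀ t ∈ Ω, (∀ e, ‖B t e‖ ≤ δ) ∧ Sm (3 * l + 1) (δ / LL l) (A t)) →
    DifferentiableOn ℂ (fun t => G t (exF (B t)) (A t)) Ω

/-- reality -/
def GR (G : Cf → Fld → ℂ) : Prop := ∀ (W : Conf) A, RealF A → (G (cC W) A).im = 0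

/-- what is used about the energy `G W A` of the block at the origin -/
structure Ge (l r : ℕ) (m : BF) (s : V →ₗ[ℝ] V) (P δ : ℝ) (G : Cf → Fld → ℂ) : Prop where
  loc : ∀ W W' A A', Agr (r / 4 + 2) W W' → Agr (3 * l + 1) A A' → G W A = G W' A'
  cov : ∀ (u : St → S3) W A, G (gauge star (fun x => cS (u x)) W)
    (adF (fun x => cS (u (yo l x))) A) = G W A
  meas : ∀ (Z : Type) [MeasurableSpace Z] (W : Z → Cf) (A : Z → Fld), (∀ e, MQ fun z => W z e) →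
    Measurable A → Measurable fun z => G (W z) (A z)
  hol : GH l δ Set.univ fun _ => G
  exp : ∀ B A d, d ≤ δ → (∀ e, ‖B e‖ ≤ d) → Sm (3 * l + 1) (d / LL l) A →
    ‖G (exF B) A - Qf l m s B A‖ ≤ P * d ^ 3

/-- the sharper expansion on the background field -/
def Gz (l r : ℕ) (m : BF) (s : V →ₗ[ℝ] V) (C P δ : ℝ) (G : Cf → Fld → ℂ) : Prop :=
  ∀ B d d', d' ≤ δ → (∀ e, ‖B e‖ ≤ d') → Cv r d B →
    ‖G (exF B) 0 - cx (mn l m s) B B‖ ≤ C * d ^ 3 + P * d' ^ 3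

/-- data of the tree step: the operators, the energy of a block, the number of Newton steps -/
structure Nt where
  O : Od
  G : Cf → Fld → ℂ
  p : ℕ

namespace Nt

variable (t : Nt)

/-- the energy of the block `y` -/
def FF (W : Cf) (y : St) (A : Fld) : ℂ := t.G (sh y W) (sh (up t.O.l y) A)

def grad (W : Cf) (A : Fld) : Fld :=
  fun f k => ∑ v ∈ box 2, j1 (t.FF W (yo t.O.l f.1 + v)) A (eb f k)

/-- one Newton step -/
def nw (W : Cf) (A : Fld) : Fld :=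
  A - (2 * t.O.Λ : ℂ)⁻¹ • t.O.pol (pP t.O.N ^ 2) ∅ W (t.grad W A)

/-- the approximate minimiser -/
def As (W : Cf) : Fld := (t.nw W)^[t.p] 0

/-- the correction to the Hessian of the block `y` -/
def Yb (W : Cf) (y : St) (a b : Fld) : ℂ :=
  j2 (t.FF W y) (t.As W) a b - cx t.O.h (Ay t.O.l y W a) (Ay t.O.l y W b)

/-- the part of the differential of the block `y` at `A` carried by the links of the block `y'` -/
def xi (W : Cf) (A v : Fld) (y y' : St) : ℂ := ∑ e ∈ lbox t.O.l, ∑ k,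
  j1 (t.FF W y) A (eb (e.1 + up t.O.l y', e.2) k) * v (e.1 + up t.O.l y', e.2) k

/-- the differential of the block `y` -/
def L1 (W : Cf) (A v : Fld) (y : St) : ℂ := ∑ w ∈ box 2, t.xi W A v y (y + w)

/-- the total gradient on the block `y` -/
def gv (W : Cf) (A v : Fld) (y : St) : ℂ := ∑ w ∈ box 2, t.xi W A v (y + w) y

/-- the correction to the Hessian as a quadratic form -/
def Yq (W : Cf) (v : Fld) (y : St) : ℂ :=
  ∑ e ∈ lbox (3 * t.O.l + 1), ∑ k, ∑ f ∈ lbox (3 * t.O.l + 1), ∑ j,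
    t.Yb W y (eb (e.1 + up t.O.l y, e.2) k) (eb (f.1 + up t.O.l y, f.2) j) *
      (v (e.1 + up t.O.l y, e.2) k * v (f.1 + up t.O.l y, f.2) j)

/-- the cubic remainder of the block `y` -/
def rem3 (W : Cf) (v : Fld) (y : St) : ℂ :=
  t.FF W y (t.As W + v) - t.FF W y (t.As W) - t.L1 W (t.As W) v y -
    (cx t.O.h (Ay t.O.l y W v) (Ay t.O.l y W v) + t.Yq W v y)

/-- the minimal energy of the block at the origin, corrected by a divergence -/
def a0 (W : Cf) : ℂ := t.FF W 0 (t.As W) - t.L1 W 0 (t.As W) 0 + t.gv W 0 (t.As W) 0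

/-- the new tree density -/
def tn (W : Cf) : ℂ := 2⁻¹ * (t.a0 W + ((box 3).card : ℂ)⁻¹ * ∑ z ∈ box 3, t.a0 (sh z W))

def tq (R : ℕ) (k : BF) (B : Fld) : ℂ := t.tn (exF (cut R (cg B))) - cx k B B

/-- the new cubic term; `k` is the new quadratic density -/
def Tn (R : ℕ) (ρ : ℝ) (k : BF) : Fld → ℂ :=
  ctf R ρ fun B => t.tq R k B - kq (t.tq R k) B B

/-- the part of the new tree density which is not kept -/
def rest (R : ℕ) (ρ : ℝ) (k : BF) (W : Cf) : ℂ :=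
  t.tn W - cx k (Bx 0 W) (Bx 0 W) - t.Tn R ρ k (Bx 0 W)

/-- range of the approximate minimiser -/
def rA (r : ℕ) : ℕ := t.p * (6 * t.O.N + 3) + r / 4 + 4

/-- standing assumptions -/
structure Ok (r c : ℕ) (τ : ℝ) (m : BF) (s : V →ₗ[ℝ] V) (P δ : ℝ) : Prop where
  lin : Lin t.O.l r c τ m s
  op : t.O.Ok c
  hO : t.O.h = hh t.O.l m
  ge : Ge t.O.l r m s P δ t.G
  P1 : 1 ≤ P
  τ0 : 0 ≤ τ
  r_ge : 1000 ≤ r
  r_le : 3 * r ≤ t.O.l

end Nt

end Pool.Agent.Lib.MP_7f377f_mp.RG.Q4
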