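import Pool.Agent.Lib.MP_7f377f_mp.G.RGAp3

/-! Background field: lattice arithmetic and the linear background field. -/

noncomputable section

set_option linter.unusedSectionVars false
variable [Pool.Agent.Lib.MP_7f377f_mp.GD]

namespace Pool.Agent.Lib.MP_7f377f_mp.RG.Bg

open Finset

theorem yo_mem {l a : ℕ} {x : St} (h : x ∈ box (fb l a)) : yo l x ∈ box a := yo_mem_box h

theorem tree_loc {l : ℕ} {f : Lk} (h : tree l f) : tree l (f.1 - up l (yo l f.1), f.2) := by
  rw [← tree_add_up l _ (yo l f.1), sub_add_cancel]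
  exact h

theorem dd_agr {α : Type} [AddCommGroup α] {R : ℕ} {a b : Lk → α} (h : Agr (R + 1) a b) {x : St}
    (hx : x ∈ box R) (μ ν : Fin 4) : dd a x μ ν = dd b x μ ν := by
  have h1 := fun μ => h (x, μ) (mem_lbox.2 (box_mono R.le_succ hx))
  have h2 := fun μ ν => h (x + un μ, ν) (mem_lbox.2 (add_un_mem_box hx μ))
  simp only [dd, h1, h2]

theorem cg_sub {α : Type} [AddCommGroup α] (a b : Lk → α) : cg (a - b) = cg a - cg b := by
  rw [eq_sub_iff_add_eq, ← cg_add, sub_add_cancel]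

variable {T : V →ₗ[ℝ] V}

theorem cxL_re (A : Fld) (f : Lk) (k : Fin GD.d) : (cxL T A f k).re = T (reF A k) f := by simp [cxL]

theorem cxL_im (A : Fld) (f : Lk) (k : Fin GD.d) : (cxL T A f k).im = T (imF A k) f := by simp [cxL]

theorem mu_apply (l : ℕ) (s : V →ₗ[ℝ] V) (a : V) (f : Lk) :
    mu l s a f = (if yo l (f.1 + un f.2) = yo l f.1 then 0 else a (yo l f.1, f.2)) +
      s (sh (yo l f.1) a) (f.1 - up l (yo l f.1), f.2) := by
  simp only [mu, iz, LinearMap.add_apply, Pi.add_apply, LinearMap.pi_apply]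
  congr 1
  split_ifs <;> rfl

theorem cxL_mu (l : ℕ) (s : V →ₗ[ℝ] V) (B : Fld) (f : Lk) :
    cxL (mu l s) B f = (if yo l (f.1 + un f.2) = yo l f.1 then 0 else B (yo l f.1, f.2)) +
      cxL s (sh (yo l f.1) B) (f.1 - up l (yo l f.1), f.2) := by
  funext k
  apply Complex.ext
  · simp only [Pi.add_apply, Complex.add_re, cxL_re, mu_apply]
    congr 1
    split_ifs <;> rfl
  · simp only [Pi.add_apply, Complex.add_im, cxL_im, mu_apply]
    congr 1
    split_ifs <;> rfl

theorem mu_sh (l : ℕ) (s : V →ₗ[ℝ] V) (y : St) (a : V) :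
    mu l s (sh y a) = sh (up l y) (mu l s a) := by
  funext f
  simp only [sh, mu_apply]
  rw [add_right_comm f.1, yo_add_up, yo_add_up, up_add, add_sub_add_right_eq_sub]
  simp only [add_left_inj, sh_sh]

theorem dd_cxL_re (A : Fld) (x : St) (μ ν : Fin 4) (k : Fin GD.d) :
    (dd (cxL T A) x μ ν k).re = dd (T (reF A k)) x μ ν := by simp [dd, cxL_re]

theorem dd_cxL_im (A : Fld) (x : St) (μ ν : Fin 4) (k : Fin GD.d) :
    (dd (cxL T A) x μ ν k).im = dd (T (imF A k)) x μ ν := by simp [dd, cxL_im]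

theorem cv_sh {W : Type} [NormedAddCommGroup W] {R a b : ℕ} {δ : ℝ} {A : Lk → W} (h : Cv R δ A)
    {y : St} (hy : y ∈ box a) (hab : b + a ≤ R) : Cv b δ (sh y A) := (h.mono hab le_rfl).sh hy

variable {l r c : ℕ} {τ : ℝ} {m : BF} {s : V →ₗ[ℝ] V}

/-- pointwise bound of the curvature of the linear background field -/
theorem mu_point (h : Lin l r c τ m s) {a R : ℕ} {δ : ℝ} {B : Fld} (hB : Cv R δ B)
    (hR : r / 3 + a ≤ R) : Cv (fb l a) (2 * (δ / (r : ℝ) ^ 12)) (cxL (mu l s) B) := by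
  have key : ∀ b : V, Cv R δ b → Cv (fb l a) (δ / (r : ℝ) ^ 12) (mu l s b) := fun b hb x hx μ ν => by
    have := h.point _ _ (cv_sh hb (yo_mem hx) hR) _ (sub_up_yo_mem l x) μ ν
    rwa [mu_sh, dd_sh, sub_add_cancel] at this
  intro x hx μ ν
  have := norm_le_of_dir (b := dd (cxL (mu l s) B) x μ ν) fun u hu => by
    rw [← dd_reD, reD_cxL]; exact key _ (hB.reD hu) x hx μ ν
  linarith [norm_nonneg (dd (cxL (mu l s) B) x μ ν)]

theorem sum_fb_le (l a : ℕ) {g : St → ℝ} (hg : ∀ x, 0 ≤ g x) :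
    ∑ x ∈ box (fb l a), g x ≤ ∑ y ∈ box a, ∑ t ∈ box l, g (t + up l y) := by
  rw [← sum_product']
  have hi : Set.InjOn (fun x => (yo l x, x - up l (yo l x))) (box (fb l a)) := by
    intro x _ y _ hxy
    simp only [Prod.mk.injEq] at hxy
    have := hxy.2
    rwa [hxy.1, sub_left_inj] at this
  calc _ = ∑ p ∈ (box (fb l a)).image (fun x => (yo l x, x - up l (yo l x))),
        g (p.2 + up l p.1) := by rw [sum_image hi]; simp
    _ ≤ _ := by
      refine sum_le_sum_of_subset_of_nonneg (fun p hp => ?_) fun p _ _ => hg _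
      obtain ⟨x, hx, rfl⟩ := mem_image.1 hp
      exact mem_product.2 ⟨yo_mem hx, sub_up_yo_mem l x⟩

/-- energy bound of the linear background field -/
theorem mu_energy (h : Lin l r c τ m s) {R : ℕ} {δ : ℝ} {B : Fld} (hB : Cv R δ B)
    (hR : r / 3 + 1 ≤ R) :
    ∑ x ∈ box (fb l 1), ∑ μ, ∑ ν, ‖dd (cxL (mu l s) B) x μ ν‖ ^ 2 ≤
      486 * cG * ((r : ℝ) ^ 5 * δ ^ 2) := by
  have key : ∀ b : V, Cv R δ b → ∑ x ∈ box (fb l 1), nd (mu l s b) x ≤
      81 * ((r : ℝ) ^ 5 * δ ^ 2) := fun b hb => by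
    refine (sum_fb_le l 1 fun x => by unfold nd; positivity).trans ?_
    refine (sum_le_card_nsmul _ _ ((r : ℝ) ^ 5 * δ ^ 2) fun y hy => ?_).trans ?_
    · have := h.energy _ _ (cv_sh hb hy hR)
      rw [mu_sh] at this
      simpa only [nd, dd_sh] using this
    · rw [card_box]; norm_num
  have h1 : ∀ b : C3, ‖b‖ ^ 2 ≤ ∑ k, ((b k).re ^ 2 + (b k).im ^ 2) := fun b => by
    rw [sq_C3]
    exact sum_le_sum fun k _ => by rw [Complex.sq_norm, Complex.normSq_apply, ← sq, ← sq]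
  calc _ ≤ ∑ x ∈ box (fb l 1), ∑ k, (nd (mu l s (reF B k)) x + nd (mu l s (imF B k)) x) := by
        refine sum_le_sum fun x _ => ?_
        simp only [nd, ← sum_add_distrib]
        rw [sum_comm (s := (univ : Finset (Fin GD.d)))]
        refine sum_le_sum fun μ _ => ?_
        rw [sum_comm (s := (univ : Finset (Fin GD.d)))]
        refine sum_le_sum fun ν _ => (h1 _).trans_eq ?_
        simp only [dd_cxL_re, dd_cxL_im]
    _ ≤ ∑ _k : Fin GD.d, (81 * ((r : ℝ) ^ 5 * δ ^ 2) + 81 * ((r : ℝ) ^ 5 * δ ^ 2)) := by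
        rw [sum_comm]
        refine sum_le_sum fun k _ => ?_
        rw [sum_add_distrib]
        exact add_le_add (key _ (hB.reF k)) (key _ (hB.imF k))
    _ ≤ _ := by
        rw [sum_const, card_univ, Fintype.card_fin, nsmul_eq_mul]
        have : 0 ≤ (r : ℝ) ^ 5 * δ ^ 2 := by positivity
        nlinarith [mul_le_mul_of_nonneg_right GD.d_le this, mul_nonneg GD.cG_pos.le this]

end Pool.Agent.Lib.MP_7f377f_mp.RG.Bg
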