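import Pool.Agent.Lib.MP_7f377f_mp.G.RGDefs
import Pool.Agent.Lib.MP_7f377f_mp.RGLinInv
import Pool.Agent.Lib.MP_7f377f_mp.KitHol
import Pool.Agent.Lib.MP_7f377f_mp.KitMix

/-! Holomorphic local terms: first estimates, and the decoupling lemma. -/

noncomputable section

set_option linter.unusedSectionVars false
variable [Pool.Agent.Lib.MP_7f377f_mp.GD]

namespace Pool.Agent.Lib.MP_7f377f_mp.RG

open Finset MeasureTheory
open scoped ENNReal Pointwise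

theorem hol_integral {Z : Type} [MeasurableSpace Z] (ν : Measure Z) [IsFiniteMeasure ν] {Ω : Set ℂ}
    (hΩ : IsOpen Ω) {f : ℂ → Z → ℂ} (hf : ∀ z, DifferentiableOn ℂ (fun t => f t z) Ω)
    (hm : ∀ t ∈ Ω, AEStronglyMeasurable (f t) ν) {M : ℝ} (hb : ∀ t ∈ Ω, ∀ z, ‖f t z‖ ≤ M) :
    DifferentiableOn ℂ (fun t => ∫ z, f t z ∂ν) Ω :=
  Kit.holo_integral ν hΩ hm (.of_forall fun z => ⟨hf z, fun t ht => hb t ht z⟩)

namespace Ho

variable {W : Type} [NormedAddCommGroup W]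

theorem dd_add {W : Type} [AddCommGroup W] (a b : Lk → W) (x : St) (μ ν : Fin 4) :
    dd (a + b) x μ ν = dd a x μ ν + dd b x μ ν := by
  simp only [dd, Pi.add_apply]; abel

theorem dd_sub {W : Type} [AddCommGroup W] (a b : Lk → W) (x : St) (μ ν : Fin 4) :
    dd (a - b) x μ ν = dd a x μ ν - dd b x μ ν := by
  simp only [dd, Pi.sub_apply]; abel

theorem dd_smul (c : ℂ) (a : Fld) (x : St) (μ ν : Fin 4) :
    dd (c • a) x μ ν = c • dd a x μ ν := by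
  simp only [dd, Pi.smul_apply, smul_add, smul_sub]

theorem dd_zero {W : Type} [AddCommGroup W] (x : St) (μ ν : Fin 4) :
    dd (0 : Lk → W) x μ ν = 0 := by simp [dd]

theorem cv_nonneg {R : ℕ} {δ : ℝ} {a : Lk → W} (h : Cv R δ a) : 0 ≤ δ :=
  (norm_nonneg _).trans (h 0 (Li.zero_mem_box R) 0 0)

theorem cv_mono {R R' : ℕ} {δ δ' : ℝ} {a : Lk → W} (h : Cv R' δ a) (hR : R ≤ R') (hδ : δ ≤ δ') :
    Cv R δ' a := fun x hx μ ν => (h x (Li.box_mono hR hx) μ ν).trans hδ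

theorem cv_add {R : ℕ} {δ δ' : ℝ} {a b : Lk → W} (h : Cv R δ a) (h' : Cv R δ' b) :
    Cv R (δ + δ') (a + b) := fun x hx μ ν => by
  rw [dd_add]
  exact (norm_add_le _ _).trans (add_le_add (h x hx μ ν) (h' x hx μ ν))

theorem cv_smul {R : ℕ} {δ : ℝ} {a : Fld} (c : ℂ) (h : Cv R δ a) : Cv R (‖c‖ * δ) (c • a) :=
  fun x hx μ ν => by
    rw [dd_smul, norm_smul]
    exact mul_le_mul_of_nonneg_left (h x hx μ ν) (norm_nonneg _)

theorem cv_zero (R : ℕ) {δ : ℝ} (h : 0 ≤ δ) : Cv R δ (0 : Lk → W) := fun x _ μ ν => by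
  rw [dd_zero, norm_zero]; exact h

theorem cv_exists (R : ℕ) (a : Lk → W) : ∃ δ, Cv R δ a :=
  ⟨∑ x ∈ box R, ∑ μ, ∑ ν, ‖dd a x μ ν‖, fun x hx μ ν =>
    ((single_le_sum (f := fun ν => ‖dd a x μ ν‖) (fun _ _ => norm_nonneg _) (mem_univ ν)).trans
      (single_le_sum (f := fun μ => ∑ ν, ‖dd a x μ ν‖)
        (fun _ _ => sum_nonneg fun _ _ => norm_nonneg _) (mem_univ μ))).trans
      (single_le_sum (f := fun x => ∑ μ, ∑ ν, ‖dd a x μ ν‖)
        (fun _ _ => sum_nonneg fun _ _ => sum_nonneg fun _ _ => norm_nonneg _) hx)⟩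

/-- the balls of the curvature seminorm -/
def dom (R : ℕ) (ρ : ℝ) (hρ : 0 < ρ) : Kit.Dom Fld where
  D θ := {B | Cv R (θ * ρ) B}
  smul c θ B h := by simpa only [Set.mem_ofPred_eq, mul_assoc] using cv_smul c h
  add h h' := by simpa only [Set.mem_ofPred_eq, add_mul] using cv_add h h'
  mono h hB := cv_mono hB le_rfl (mul_le_mul_of_nonneg_right h hρ.le)

theorem mem_dom {R : ℕ} {ρ δ : ℝ} (hρ : 0 < ρ) {B : Fld} (h : Cv R δ B) :
    B ∈ (dom R ρ hρ).D (δ / ρ) := by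
  show Cv R (δ / ρ * ρ) B
  rwa [div_mul_cancel₀ _ hρ.ne']

theorem mem_dom_one {R : ℕ} {ρ : ℝ} {hρ : 0 < ρ} {B : Fld} :
    B ∈ (dom R ρ hρ).D 1 ↔ Cv R ρ B := by
  show Cv R (1 * ρ) B ↔ _
  rw [one_mul]

theorem disc_line (Ω : Set ℂ) (B δ : Fld) : Disc Ω fun t => B + t • δ := fun e => by
  simp only [Pi.add_apply, Pi.smul_apply]
  fun_prop

theorem lh {R : ℕ} {ρ κ : ℝ} {φ : Fld → ℂ} (h : Tm R ρ κ φ) (hρ : 0 < ρ) : (dom R ρ hρ).LH φ :=
  fun B δ S hS hD => h.hol S _ hS (disc_line S B δ) fun t ht => mem_dom_one.1 (hD t ht)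

theorem bd_dom {R : ℕ} {ρ κ : ℝ} {φ : Fld → ℂ} (h : Tm R ρ κ φ) (hρ : 0 < ρ) :
    ∀ B ∈ (dom R ρ hρ).D 1, ‖φ B‖ ≤ κ := fun B hB => h.bd B (mem_dom_one.1 hB)

end Ho

open Ho

theorem Tm.nonneg {R : ℕ} {ρ κ : ℝ} {φ : Fld → ℂ} (h : Tm R ρ κ φ) (hρ : 0 ≤ ρ) : 0 ≤ κ :=
  (norm_nonneg _).trans (h.bd 0 (cv_zero R hρ))

theorem Tm.mono {R R' : ℕ} {ρ κ κ' : ℝ} {φ : Fld → ℂ} (h : Tm R ρ κ φ) (hR : R ≤ R')
    (hκ : κ ≤ κ') : Tm R' ρ κ' φ where
  loc A B e := h.loc A B fun x hx => e x (Li.box_mono hR hx)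
  hol Ω γ hΩ hγ hc := h.hol Ω γ hΩ hγ fun t ht => cv_mono (hc t ht) hR le_rfl
  bd B hB := (h.bd B (cv_mono hB hR le_rfl)).trans hκ
  zero := h.zero
  ad := h.ad
  real := h.real

theorem Tm.add {R : ℕ} {ρ κ κ' : ℝ} {φ φ' : Fld → ℂ} (h : Tm R ρ κ φ) (h' : Tm R ρ κ' φ') :
    Tm R ρ (κ + κ') (φ + φ') where
  loc A B e := by simp only [Pi.add_apply, h.loc A B e, h'.loc A B e]
  hol Ω γ hΩ hγ hc := (h.hol Ω γ hΩ hγ hc).add (h'.hol Ω γ hΩ hγ hc)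
  bd B hB := (norm_add_le _ _).trans (add_le_add (h.bd B hB) (h'.bd B hB))
  zero := by simp [h.zero, h'.zero]
  ad g B := by simp only [Pi.add_apply, h.ad, h'.ad]
  real B hB := by simp [h.real B hB, h'.real B hB]

theorem Tm.lip {R : ℕ} {ρ κ δ : ℝ} {φ : Fld → ℂ} (h : Tm R ρ κ φ) (hρ : 0 < ρ) {A B : Fld}
    (hA : Cv R (ρ / 2) A) (hB : Cv R δ (B - A)) (hδ : δ ≤ ρ / 4) :
    ‖φ B - φ A‖ ≤ 8 * κ * δ / ρ := by
  have κ0 := h.nonneg hρ.le
  rcases (cv_nonneg hB).eq_or_lt with rfl | δ0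
  · rw [h.loc B A fun x hx μ ν => by
      have := hB x hx μ ν
      rwa [dd_sub, norm_le_zero_iff, sub_eq_zero] at this]
    simp
  have h1 : δ / ρ ≤ 1 / 4 := by rw [div_le_iff₀ hρ]; linarith
  have h2 : ρ / 2 / ρ = 1 / 2 := by field_simp
  have := (lh h hρ).lip (bd_dom h hρ) (mem_dom hρ hA) (mem_dom hρ hB) (by positivity)
    (by linarith)
  rw [add_sub_cancel, h2] at this
  refine this.trans ?_
  have h3 : 0 ≤ κ * (δ / ρ) := by positivity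
  rw [mul_div_assoc (8 * κ), div_le_iff₀ (by norm_num)]
  linarith

theorem Tm.continuousOn {R : ℕ} {ρ κ : ℝ} {φ : Fld → ℂ} (h : Tm R ρ κ φ) (hρ : 0 < ρ) :
    ContinuousOn φ {A | Cv R (ρ / 2) A} := by
  intro A hA
  have κ0 := h.nonneg hρ.le
  refine ContinuousAt.continuousWithinAt (Metric.continuousAt_iff'.2 fun ε hε => ?_)
  set δ := min (ρ / 4) (ε * ρ / (16 * κ + 1)) with hδ
  have δ0 : 0 < δ := by positivity
  have : ∀ᶠ B in nhds A, Cv R δ (B - A) := by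
    simp only [Cv, Filter.eventually_all_finset, Filter.eventually_all]
    intro x _ μ ν
    have c : Continuous fun B : Fld => ‖dd (B - A) x μ ν‖ := by
      simp only [dd, Pi.sub_apply]; fun_prop
    exact (c.continuousAt.eventually_lt continuousAt_const (by simpa [dd_zero] using δ0)).mono
      fun B hB => hB.le
  filter_upwards [this] with B hB
  rw [dist_eq_norm]
  refine (h.lip hρ hA hB (min_le_left _ _)).trans_lt ?_
  have h3 := (le_div_iff₀ (by positivity)).1 (min_le_right (ρ / 4) (ε * ρ / (16 * κ + 1)))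
  rw [div_lt_iff₀ hρ]
  nlinarith

theorem Tm.measurable {R : ℕ} {ρ κ : ℝ} {φ : Fld → ℂ} (h : Tm R ρ κ φ) (hρ : 0 < ρ) {Z : Type}
    [MeasurableSpace Z] {γ : Z → Fld} (hγ : Measurable γ) (hb : ∀ z, Cv R (ρ / 2) (γ z)) :
    Measurable fun z => φ (γ z) :=
  (continuousOn_iff_continuous_domRestrict.1 (h.continuousOn hρ)).measurable.comp
    (hγ.subtype_mk (h := hb))

end Pool.Agent.Lib.MP_7f377f_mp.RG
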