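import Pool.Agent.Lib.MP_7f377f_mp.G.RGSmD

/-! Bounds on the four parts of the small interaction. -/

noncomputable section

set_option linter.unusedSectionVars false
variable [Pool.Agent.Lib.MP_7f377f_mp.GD]

namespace Pool.Agent.Lib.MP_7f377f_mp.RG.JS

open Finset

attribute [local irreducible] box lbox

variable {c R : ℕ} {τ ρ κ P δ α : ℝ} {A B : Fld}

theorem one_le_LL (l : ℕ) : (1 : ℝ) ≤ LL l := by exact_mod_cast Li.LL_pos l

theorem card_boxR (l : ℕ) : ((box l).card : ℝ) = (LL l : ℝ) ^ 4 := by simp [Li.card_box, LL]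

theorem card_lboxR (l : ℕ) : ((lbox l).card : ℝ) = 4 * (LL l : ℝ) ^ 4 := by simp [card_lbox, LL]

end Pool.Agent.Lib.MP_7f377f_mp.RG.JS
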