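import Pool.Agent.Lib.MP_7f377f_mp.G.RGSmC
import Pool.Agent.Lib.MP_7f377f_mp.G.RGSmE
import Pool.Agent.Lib.MP_7f377f_mp.G.RGOp5
import Pool.Agent.Lib.MP_7f377f_mp.G.RGHol1

/-! Size, measurability and holomorphy of the small interaction. -/

noncomputable section

set_option linter.unusedSectionVars false
variable [Pool.Agent.Lib.MP_7f377f_mp.GD]

namespace Pool.Agent.Lib.MP_7f377f_mp.RG.JS

open Finset

attribute [local irreducible] box lbox

variable {c R : ℕ} {τ ρ κ P δ : ℝ} {B : Fld}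

variable {Ω : Set ℂ}

theorem agr_cut {W : Type} [AddCommGroup W] (n : ℕ) (a : Lk → W) : Agr n (cut n a) a :=
  fun _ he => if_pos he

theorem Bx_disc' (hP : 10 ^ 6 ≤ P) (δ0 : 0 ≤ δ) (h3 : P ^ 3 * δ ≤ 1) {U : ℂ → Cf} (hU : Disc Ω U)
    (h : ∀ t ∈ Ω, ∀ e, ‖U t e - 1‖ ≤ 4 * (P * δ)) {n : ℕ} (hn : n + 1 ≤ P) (x : St) :
    Disc Ω fun t => cut n (Bx x (U t)) := by
  simp only [Bx_eq x]
  refine Bx_disc (fun e => hU _) (fun t ht e _ => h t ht _) ?_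
  have P0 : 0 ≤ P := le_trans (by norm_num) hP
  calc _ ≤ 1000 * P * (4 * (P * δ)) := by gcongr
    _ = 4000 * (P ^ 2 * δ) := by ring
    _ ≤ 1 := by linarith [(pow_small hP δ0 h3).1, mul_nonneg (sq_nonneg P) δ0]

end Pool.Agent.Lib.MP_7f377f_mp.RG.JS
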