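import Pool.Agent.Lib.MP_7f377f_mp.G.Q4EnDefs
import Pool.Agent.Lib.MP_7f377f_mp.G.Q4Tree
import Pool.Agent.Lib.MP_7f377f_mp.G.RGSmF
import Pool.Agent.Lib.MP_7f377f_mp.G.RGBg0

/-! The energy of a block: locality, covariance, holomorphy and expansions. -/

noncomputable section

set_option linter.unusedSectionVars false
variable [Pool.Agent.Lib.MP_7f377f_mp.GD]

namespace Pool.Agent.Lib.MP_7f377f_mp.RG.Q4

open Finset

attribute [local irreducible] box lbox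

namespace En

variable {l r c : ℕ} {τ ρ C P δ : ℝ} {m : BF} {s : V →ₗ[ℝ] V} {T : Fld → ℂ}

theorem srng (h : Lin l r c τ m s) (f : Lk) (a : V) (ha : ∀ e ∈ lbox (r / 4), a e = 0) :
    s a f = 0 := congrFun (h.s_rng a ha) f

theorem Us_sh (y : St) (W : Cf) : Us l s (sh y W) = sh (up l y) (Us l s W) := by
  funext f
  simp only [Us, sh_apply, Bx_sh, add_right_comm f.1 (up l y), yo_add_up, add_left_inj,
    up_add, add_sub_add_right_eq_sub]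

theorem Uz_sh (y : St) (W : Cf) (A : Fld) :
    Uz l s (sh y W) (sh (up l y) A) = sh (up l y) (Uz l s W A) := by
  funext f
  simp only [Uz, Us_sh, sh_apply]

theorem Uz_zero (W : Cf) : Uz l s W 0 = Us l s W := by
  funext f; simp [Uz]

theorem Us_gauge (h : Lin l r c τ m s) {u : St → Hc} (hu : ∀ x, Uni (u x)) (W : Cf) :
    Us l s (gauge star u W) = gauge star (fun x => u (yo l x)) (Us l s W) := by
  funext f
  simp only [Us, Bx_gauge hu, cxL_adF (srng h _), ex_adq (hu _), gauge]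
  split_ifs with hf
  · simp only [hf, mul_one]
  · simp only [JS.yo_add_un _ _ _ hf, mul_assoc, JS.cancel hu]

theorem Uz_gauge (h : Lin l r c τ m s) {u : St → Hc} (hu : ∀ x, Uni (u x)) (W : Cf) (A : Fld) :
    Uz l s (gauge star u W) (adF (fun x => u (yo l x)) A) =
      gauge star (fun x => u (yo l x)) (Uz l s W A) := by
  funext f
  simp only [Uz, Us_gauge h hu, gauge, adF, ex_adq (hu _), mul_assoc, JS.cancel hu]

theorem Us_agr (h : Lin l r c τ m s) {a : ℕ} {W W' : Cf} (hW : Agr (a + r / 4 + 1) W W') :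
    Agr (fb l a) (Us l s W) (Us l s W') := fun f hf => by
  have hy := yo_mem_box (mem_lbox.1 hf)
  rw [Us, Us, hW (yo l f.1, f.2) (mem_lbox.2 (box_mono (by omega) hy)), Bx_eq, Bx_eq _ W',
    cxL_agr (srng h _) (Bx_agr (JS.agr_sh hW hy (by omega)))]

theorem Uz_agr (h : Lin l r c τ m s) {a : ℕ} {W W' : Cf} {A A' : Fld}
    (hW : Agr (a + r / 4 + 1) W W') (hA : Agr (fb l a) A A') :
    Agr (fb l a) (Uz l s W A) (Uz l s W' A') := fun f hf => by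
  rw [Uz, Uz, hA f hf, Us_agr h hW f hf]

theorem Us_tree (h : Lin l r c τ m s) (W : Cf) {f : Lk} (hf : tree l f) : Us l s W f = 1 := by
  have : ∀ A, cxL s A (f.1 - up l (yo l f.1), f.2) = 0 := fun A => funext fun k => by
    simp [cxL, h.s_tree _ _ (Bg.tree_loc hf)]
  rw [Us, if_pos hf.1, this, ex_zero, mul_one]

theorem Uz_real (W : Conf) {A : Fld} (hA : RealF A) : cC (fun f =>
    Ms.e0 (WithLp.toLp 2 fun k => (A f k).re) * Ub l s W f) = Uz l s (cC W) A := by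
  funext f
  rw [cC, cS_mul, Ms.cS_e0, cE_re (hA f), Uz, ← cC_Ub, cC]

theorem mq_Uz (h : Lin l r c τ m s) {Z : Type} [MeasurableSpace Z] {W : Z → Cf} {A : Z → Fld}
    (hW : ∀ e, MQ fun z => W z e) (hA : Measurable A) (f : Lk) :
    MQ fun z => Uz l s (W z) (A z) f := by
  refine (mq_ex hA.eval).mul ((mq_ex ?_).mul ?_)
  · simp only [cxL_eq_sum (srng h _)]
    exact Finset.measurable_fun_sum _ fun e _ => (Bx_measurable hW _).eval.fun_const_smul _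
  · split_ifs
    exacts [mq_const _, hW _]

theorem fb_one (l : ℕ) : fb l 1 = 3 * l + 1 := by simp only [fb, LL]; omega

theorem en_agr (hr : 3 * r + 1 ≤ 2 * l) (hm : Rng (3 * r) (3 * r) m)
    (hT : ∀ A B, (∀ x ∈ box (3 * r), ∀ μ ν, dd A x μ ν = dd B x μ ν) → T A = T B) {W W' U U' : Cf}
    (hW : Agr 0 W W') (hU : Agr (3 * l + 1) U U') : en l m T W U = en l m T W' U' := by
  have k : ∀ x ∈ box l, Agr (3 * r + 1) (Bx x U) (Bx x U') := fun x hx =>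
    JS.Bx_agr' hU hx (by omega)
  refine congrArg₂ (· + ·) (sum_congr rfl fun x hx => ?_)
    (congrArg _ (sum_congr rfl fun μ _ => ?_))
  · rw [cx_agr hm ((k x hx).mono (by omega)) ((k x hx).mono (by omega)),
      hT _ _ fun y hy => Bg.dd_agr (k x hx) hy]
  · rw [Nz.nz_agr hU, hW _ (mem_lbox.2 (zero_mem_box 0))]

theorem en_gauge (hm : Rng (3 * r) (3 * r) m) (hT : ∀ (h : S3) B, T (adF (fun _ => cS h) B) = T B)
    (u : St → S3) (W U : Cf) : en l m T (gauge star (fun x => cS (u x)) W)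
      (gauge star (fun x => cS (u (yo l x))) U) = en l m T W U := by
  have hu : ∀ x, Uni (cS (u x)) := fun x => uni_cS _
  have := fun μ => Nz.nz_gauge (l := l) (μ := μ) hu (W (0, μ)) U
  simp only [en, Bx_gauge fun x => hu (yo l x), hT, cx_adF m hm (hu _)]
  simp only [gauge, zero_add] at this ⊢
  exact congrArg _ (congrArg _ (sum_congr rfl fun μ _ => this μ))

theorem measurable_en (hm : Rng (3 * r) (3 * r) m) (hT : Measurable T) {Z : Type}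
    [MeasurableSpace Z] {W U : Z → Cf} (hW : ∀ e, MQ fun z => W z e) (hU : ∀ e, MQ fun z => U z e) :
    Measurable fun z => en l m T (W z) (U z) :=
  (Finset.measurable_fun_sum _ fun x _ => (measurable_cx hm (Bx_measurable hU x)
    (Bx_measurable hU x)).add (hT.comp (Bx_measurable hU x))).add
    ((Finset.measurable_fun_sum _ fun _ _ => Nz.measurable_nz hU (hW _)).const_mul _)

theorem en_im (hT : ∀ B, RealF B → (T B).im = 0) (W U : Conf) :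
    (en l m T (cC W) (cC U)).im = 0 := by
  have := fun μ => Nz.nz_im (l := l) (μ := μ) (W (0, μ)) U
  simp [en, Complex.im_sum, cx_im m (Bx_real _ U) (Bx_real _ U), hT _ (Bx_real _ U), cC, this,
    ← Complex.ofReal_natCast, ← Complex.ofReal_pow]

theorem en_split (W U : Cf) : en l m T W U = en l m 0 W U + ∑ x ∈ box l, T (Bx x U) := by
  simp only [en, sum_add_distrib, Pi.zero_apply, add_zero]
  ring

theorem m_Bd (h : Lin l r c τ m s) {R : ℕ} (hm : Rng R R m) :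
    Bd R R ((LL l : ℝ) ^ c * (4 * (3 * LL l) ^ 4)) m := fun a b δ δ' ha hb => by
  have q : ∀ a δ, Sm R δ a → m (cut R a) (cut R a) ≤
      (LL l : ℝ) ^ c * (4 * (3 * LL l) ^ 4) * δ * δ := fun a δ ha => by
    have k : Sm (3 * l + 1) δ (cut R a) := fun e _ => by
      rw [cut]
      split_ifs with he
      exacts [ha e he, norm_zero.trans_le ha.nonneg]
    refine le_trans ?_ ((le_abs_self _).trans (JS.hh_Bd h _ _ _ _ k k))
    refine le_trans ?_ (JS.enB_apply _ _).ge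
    refine le_add_of_le_of_nonneg ?_ (mul_nonneg (sq_nonneg _)
      (sum_nonneg fun _ _ => mul_self_nonneg _))
    simpa using single_le_sum (f := fun x => m (sh x (cut R a)) (sh x (cut R a)))
      (fun _ _ => h.psd _) (zero_mem_box l)
  have := ha.nonneg
  have := hb.nonneg
  rw [← hm.congr (agr_cut R a) (agr_cut R b)]
  refine abs_le_of_sq_le_sq ?_ (by positivity)
  refine (LinearMap.BilinForm.apply_sq_le_of_symm m h.psd ⟨h.symm⟩ _ _).trans ?_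
  exact (mul_le_mul (q a δ ha) (q b δ' hb) (h.psd _) (by positivity)).trans_eq (by ring)

/-- standing assumptions; `P` dominates all constants -/
structure Hy (l r c : ℕ) (τ : ℝ) (m : BF) (s : V →ₗ[ℝ] V) (P : ℝ) : Prop where
  lin : Lin l r c τ m s
  r_ge : 1000 ≤ r
  r_le : 3 * r ≤ l
  p0 : 10 ^ 6 ≤ P
  pL : 324 * (LL l : ℝ) ^ 4 ≤ P
  pc : 2 * (LL l : ℝ) ^ c ≤ P

theorem hy_pow (h : Lin l r c τ m s) (h1 : 1000 ≤ r) (h2 : 3 * r ≤ l) {n : ℕ} (hn : c + 5 ≤ n) :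
    Hy l r c τ m s ((LL l : ℝ) ^ n) := by
  have L6 : (1000 : ℝ) ≤ LL l := by exact_mod_cast (by unfold LL; omega : 1000 ≤ LL l)
  have L1 := JS.one_le_LL l
  have pw : ∀ k, k < n → 1000 * (LL l : ℝ) ^ k ≤ LL l ^ n := fun k hk =>
    le_trans (by rw [pow_succ' _ k]; gcongr) (pow_le_pow_right₀ L1 (hk : k + 1 ≤ n))
  have p1 : ∀ n, (1 : ℝ) ≤ LL l ^ n := fun n => one_le_pow₀ L1
  exact ⟨h, h1, h2, by linarith [pw 1 (by omega), pow_one (LL l : ℝ)],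
    by linarith [pw 4 (by omega), p1 4], by linarith [pw c (by omega), p1 c]⟩

namespace Hy

theorem one (b : Hy l r c τ m s P) : 1 ≤ P := le_trans (by norm_num) b.p0

theorem L (b : Hy l r c τ m s P) : 324 * LL l ≤ P := by
  linarith [le_self_pow₀ (JS.one_le_LL l) (show 4 ≠ 0 by norm_num), b.pL]

theorem rr (b : Hy l r c τ m s P) : 100 * (3 * (r : ℝ) + 1) ≤ P := by
  have : 3 * r + 1 ≤ LL l := by have := b.r_le; unfold LL; omega
  have : 3 * (r : ℝ) + 1 ≤ LL l := by exact_mod_cast this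
  linarith [b.L, JS.one_le_LL l]

theorem mono (b : Hy l r c τ m s P) {Q : ℝ} (h : P ≤ Q) : Hy l r c τ m s Q :=
  ⟨b.lin, b.r_ge, b.r_le, b.p0.trans h, b.pL.trans h, b.pc.trans h⟩

theorem cxs_bd (b : Hy l r c τ m s P) {A : Fld} (hA : Sm r δ A) (f : Lk) :
    ‖cxL s A f‖ ≤ P * δ := by
  refine (cxL_bd fun u hu => b.lin.s_bd _ _ f (hA.reD hu)).trans ?_
  rw [← mul_assoc]
  exact mul_le_mul_of_nonneg_right b.pc hA.nonneg

open JS in
theorem Uz_ap (b : Hy l r c τ m s P) (h9 : P ^ 9 * δ ≤ 1) {B A : Fld}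
    (hB : ∀ e, ‖B e‖ ≤ δ) (hA : ∀ e, ‖A e‖ ≤ δ) (f : Lk) :
    ‖cxL s (Bx (yo l f.1) (exF B)) (f.1 - up l (yo l f.1), f.2)‖ ≤ 1 / 2 ∧
    ‖(A + cxL (mu l s) B) f‖ ≤ P ^ 9 * δ ∧
      ‖Uz l s (exF B) A f - 1 - io ((A + cxL (mu l s) B) f)‖ ≤ P ^ 9 * δ ^ 2 := by
  have δ0 : 0 ≤ δ := (norm_nonneg _).trans (hB f)
  have P0 := b.p0
  have P1 := b.one
  have h3 : P ^ 3 * δ ≤ 1 := le_trans (by gcongr; norm_num) h9
  have q1 : 10 ^ 6 * (P ^ 4 * δ) ≤ 1 := by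
    calc _ ≤ P ^ 5 * (P ^ 4 * δ) := by gcongr; linarith [le_self_pow₀ P1 (show 5 ≠ 0 by norm_num)]
      _ = P ^ 9 * δ := by ring
      _ ≤ 1 := h9
  have q2 : δ ≤ P ^ 4 * δ := le_mul_of_one_le_left δ0 (one_le_pow₀ P1)
  have cz := Bx_cz P0 h3 (fun e => (exF_ap P0 h3 hB e).2) (n := r)
    (by linarith [b.rr, r.cast_nonneg (α := ℝ)]) (yo l f.1)
  have s1 := (b.cxs_bd cz.2.1 (f.1 - up l (yo l f.1), f.2)).trans_eq
    (by ring : _ = 2 * (P ^ 4 * δ))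
  have s2 := b.cxs_bd cz.1 (f.1 - up l (yo l f.1), f.2)
  have s3 := b.cxs_bd (A := sh (yo l f.1) B) (fun e _ => hB _) (f.1 - up l (yo l f.1), f.2)
  rw [cxL_sub, cg, cxL_sub, cxL_gr b.lin.s_gauge, sub_zero, Pi.sub_apply] at s2
  rw [Pi.add_apply, Bg.cxL_mu, add_comm (ite _ _ _), Uz, Us]
  set σ := cxL s (Bx (yo l f.1) (exF B)) (f.1 - up l (yo l f.1), f.2)
  set σ' := cxL s (sh (yo l f.1) B) (f.1 - up l (yo l f.1), f.2)
  have a1 := ex_near (hA f) (by linarith)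
  have a2 := ex_near s1 (by linarith)
  have a3 : ‖ex σ - 1 - io σ'‖ ≤ 10 * (2 * (P ^ 4 * δ)) ^ 2 + 3 * (P * (P ^ 5 * δ ^ 2)) := by
    rw [show ex σ - 1 - io σ' = ex σ - 1 - io σ + io (σ - σ') by rw [io_sub]; abel]
    exact norm_add_le_of_le a2 ((RG.norm_io _).trans (by gcongr))
  obtain ⟨w, β, e1, e2, w1, w2⟩ : ∃ w β, (if yo l (f.1 + un f.2) = yo l f.1 then 1 else
      exF B (yo l f.1, f.2)) = w ∧ (if yo l (f.1 + un f.2) = yo l f.1 then 0 else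
      B (yo l f.1, f.2)) = β ∧ ‖β‖ ≤ δ ∧ ‖w - 1 - io β‖ ≤ 10 * δ ^ 2 := by
    split_ifs
    · exact ⟨_, _, rfl, rfl, by simpa using δ0, by simp; positivity⟩
    · exact ⟨_, _, rfl, rfl, hB _, ex_near (hB _) (by linarith)⟩
  rw [e1, e2]
  have n1 : ‖ex (A f) - 1‖ ≤ 4 * (P ^ 4 * δ) := (near_one ⟨hA f, a1⟩).trans (by nlinarith)
  have n2 : ‖ex σ - 1‖ ≤ 8 * (P ^ 4 * δ) := (near_one ⟨s1, a2⟩).trans (by nlinarith)
  have n3 : ‖w - 1‖ ≤ 4 * (P ^ 4 * δ) := (near_one ⟨w1, w2⟩).trans (by nlinarith)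
  have n4 : ‖ex σ * w - 1‖ ≤ 13 * (P ^ 4 * δ) := (mul_near n2 n3).trans (by nlinarith)
  refine ⟨by linarith, (norm_add_le_of_le (hA f) (norm_add_le_of_le s3 w1)).trans ?_,
    (mul_ap n1 n4 a1 (mul_ap n2 n3 a3 w2)).trans ?_⟩
  · have : P ^ 2 * δ ≤ P ^ 9 * δ := by gcongr; norm_num
    nlinarith [mul_le_mul_of_nonneg_right P0 δ0, mul_nonneg (zero_le_one.trans P1) δ0]
  · have p6 : P ^ 6 ≤ P ^ 8 := pow_le_pow_right₀ P1 (by norm_num)
    have p0 : 1 ≤ P ^ 8 := one_le_pow₀ P1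
    calc _ = (124 * P ^ 8 + 3 * P ^ 6 + 20) * δ ^ 2 := by ring
      _ ≤ P * P ^ 8 * δ ^ 2 := by gcongr; nlinarith
      _ = _ := by ring

theorem Uz_disc (b : Hy l r c τ m s P) (h9 : P ^ 9 * δ ≤ 1) {Ω : Set ℂ} {B A : ℂ → Fld}
    (dB : Disc Ω B) (dA : Disc Ω A) (hB : ∀ t ∈ Ω, ∀ e, ‖B t e‖ ≤ δ) (hA : ∀ t ∈ Ω, ∀ e, ‖A t e‖ ≤ δ) :
    Disc Ω fun t => Uz l s (exF (B t)) (A t) := fun f => by
  rcases Ω.eq_empty_or_nonempty with rfl | ⟨t₀, ht₀⟩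
  · exact differentiableOn_empty
  have δ0 : 0 ≤ δ := (norm_nonneg _).trans (hB t₀ ht₀ f)
  have P1 := b.one
  have h3 : P ^ 3 * δ ≤ 1 := le_trans (by gcongr; norm_num) h9
  obtain ⟨s1, s2, s3⟩ := JS.pow_small b.p0 δ0 h3
  have dW := dB.exF fun t ht e => (hB t ht e).trans (by linarith)
  have d1 := Bx_disc (R := r) (dW.sh (yo l f.1))
    (fun t ht e _ => (JS.exF_ap b.p0 h3 (hB t ht) _).1)
    (by nlinarith [b.rr, r.cast_nonneg (α := ℝ)])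
  refine (diff_ex (dA f) fun t ht => (hA t ht f).trans (by linarith)).mul
    ((diff_ex (diff_cxL (srng b.lin _) fun e he => ?_) fun t ht =>
      (b.Uz_ap h9 (hB t ht) (hA t ht) f).1).mul ?_)
  · simpa only [cut_of_mem _ (lbox_mono (Nat.div_le_self _ 4) he), ← RG.Bx_eq] using d1 e
  · split_ifs
    exacts [differentiableOn_const _, dW _]

/-- the quadratic part of the energy of a field close to one -/
theorem en_ap (b : Hy l r c τ m s P) (hm : Rng (3 * r) (3 * r) m) (h3 : P ^ 3 * δ ≤ 1) {B a : Fld}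
    {U : Cf} (hB : ∀ e, ‖B e‖ ≤ δ)
    (hU : ∀ e, ‖a e‖ ≤ P * δ ∧ ‖U e - 1 - io (a e)‖ ≤ P * δ ^ 2) :
    ‖en l m 0 (exF B) U - (∑ x ∈ box l, cx m (sh x a) (sh x a) +
      (LL l : ℂ) ^ 2 * ∑ μ, dot (JS.rs l a B μ) (JS.rs l a B μ))‖ ≤ P ^ 12 * δ ^ 3 := by
  have δ0 : 0 ≤ δ := (norm_nonneg _).trans (hB (0, 0))
  have P1 := b.one
  have P0 := b.p0
  have L1 := JS.one_le_LL l
  have LP : (LL l : ℝ) ≤ P := by linarith [b.L]
  obtain ⟨s1, s2, s3⟩ := JS.pow_small b.p0 δ0 h3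
  have k1 : ∀ x, ‖cx m (Bx x U) (Bx x U) + (0 : Fld → ℂ) (Bx x U) - cx m (sh x a) (sh x a)‖ ≤
      P ^ 11 * δ ^ 3 := fun x => by
    have k := JS.Bx_cz b.p0 h3 hU (n := 3 * r) (by push_cast; linarith [b.rr]) x
    have := JS.Cz.cx (m_Bd b.lin hm) (by
      have := mul_le_mul b.pc b.pL (by positivity) (by linarith)
      nlinarith [sq_nonneg P]) b.p0 δ0 k k
    rwa [JS.cx_cg_left b.lin.gauge, JS.cx_cg_right fun u v => b.lin.symm _ _ ▸ b.lin.gauge u v,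
      ← add_zero (cx m (Bx x U) _)] at this
  have k2 : ∀ μ, ‖nz l μ (exF B (0, μ)) U - dot (JS.rs l a B μ) (JS.rs l a B μ)‖ ≤
      P ^ 9 * δ ^ 3 := fun μ => by
    have q : LL l * (P * δ) ≤ P ^ 2 * δ := by rw [sq, mul_assoc]; gcongr
    have q' : LL l * (P * δ ^ 2) ≤ P ^ 4 * δ ^ 2 := by
      calc _ ≤ P ^ 3 * (P * δ ^ 2) := by gcongr; exact LP.trans (le_self_pow₀ P1 (by norm_num))
        _ = _ := by ring
    refine (Nz.nz_ap (δ := P * δ) (η := P * δ ^ 2) (fun e _ => hU e)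
      (by rw [sq, ← mul_assoc]; exact mul_le_of_le_one_right (by positivity) (by linarith))
      (JS.exF_ap P0 h3 hB _).2.1 (JS.exF_ap P0 h3 hB _).2.2 (by nlinarith)).trans ?_
    calc _ ≤ 10 ^ 9 * (P ^ 2 * δ * (P ^ 4 * δ ^ 2 + (P ^ 2 * δ) ^ 2)) := by gcongr
      _ = 2 * 10 ^ 9 * (P ^ 6 * δ ^ 3) := by ring
      _ ≤ P ^ 3 * (P ^ 6 * δ ^ 3) := by
        gcongr
        nlinarith [pow_le_pow_right₀ P1 (show 2 ≤ 3 by norm_num)]
      _ = _ := by ring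
  rw [en, add_sub_add_comm, ← mul_sub, ← sum_sub_distrib, ← sum_sub_distrib]
  refine (norm_add_le_of_le (norm_sum_le_of_le _ fun x _ => k1 x)
    (norm_mul_le_of_le le_rfl (norm_sum_le_of_le _ fun μ _ => k2 μ))).trans ?_
  simp only [sum_const, nsmul_eq_mul, JS.card_boxR, norm_pow, Complex.norm_natCast, card_univ,
    Fintype.card_fin, Nat.cast_ofNat]
  have q1 : (LL l : ℝ) ^ 2 * (4 * (P ^ 9 * δ ^ 3)) ≤ 4 * (P ^ 11 * δ ^ 3) := by
    calc _ ≤ P ^ 2 * (4 * (P ^ 9 * δ ^ 3)) := by gcongr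
      _ = _ := by ring
  have q2 : 0 ≤ P ^ 11 * δ ^ 3 := by positivity
  have q3 := mul_le_mul_of_nonneg_right b.pL q2
  have q4 := mul_le_mul_of_nonneg_right (one_le_pow₀ L1 : (1 : ℝ) ≤ LL l ^ 4) q2
  rw [show P ^ 12 * δ ^ 3 = P * (P ^ 11 * δ ^ 3) by ring]
  linarith

theorem cv_crude (b : Hy l r c τ m s P) (h3 : P ^ 3 * δ ≤ 1) {a : Fld} {U : Cf}
    (hU : ∀ e, ‖a e‖ ≤ P * δ ∧ ‖U e - 1 - io (a e)‖ ≤ P * δ ^ 2) (x : St) :
    Cv (3 * r) (8 * (P ^ 3 * δ)) (Bx x U) ∧ Cv (3 * r) (4 * (P ^ 5 * δ ^ 2)) (Bx x U - sh x a) := by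
  have k := JS.Bx_cz b.p0 h3 hU (n := 3 * r + 1)
    (by push_cast; linarith [b.rr, r.cast_nonneg (α := ℝ)]) x
  refine ⟨JS.cv_mono (JS.cv_of_sm k.2.1) le_rfl (le_of_eq (by ring)), fun y hy μ ν => ?_⟩
  have := JS.cv_of_sm k.1 y hy μ ν
  rwa [dd_sub, dd_cg, ← dd_sub] at this

theorem cv_fine (b : Hy l r c τ m s P) (hr : r ^ 11 ≤ l) (h7 : P ^ 7 * δ ≤ 1) {B A : Fld} {U : Cf}
    (hB : ∀ e, ‖B e‖ ≤ δ) (hA : ∀ e, ‖A e‖ ≤ δ / LL l) (hU : ∀ e, ‖(A + cxL (mu l s) B) e‖ ≤ P * δ ∧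
      ‖U e - 1 - io ((A + cxL (mu l s) B) e)‖ ≤ P * δ ^ 2) {x : St} (hx : x ∈ box l) :
    Cv (3 * r) (δ / (r : ℝ) ^ 10) (Bx x U) := by
  have δ0 : 0 ≤ δ := (norm_nonneg _).trans (hB (0, 0))
  have P1 := b.one
  have P0 := b.p0
  have r0 : (1000 : ℝ) ≤ r := by exact_mod_cast b.r_ge
  have r1 := b.r_ge
  have r2 := b.r_le
  have r3 : (r : ℝ) * r ^ 10 ≤ LL l := by
    rw [← pow_succ']
    exact_mod_cast hr.trans (by unfold LL; omega)
  have r4 : 0 < (r : ℝ) ^ 10 := by positivity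
  have c1 := (b.cv_crude (le_trans (by gcongr; norm_num) h7) hU x).2
  have c2 : Cv (3 * r) _ (sh x A) := JS.cv_of_sm fun e _ => hA _
  have c3 : Cv (3 * r) _ (sh x (cxL (mu l s) B)) := JS.cv_sh (Bg.mu_point b.lin (a := 1) (R := r)
    (JS.cv_of_sm fun e _ => hB e) (by omega)) hx (by rw [fb_one]; omega)
  have c4 := JS.cv_add c1 (JS.cv_add c2 c3)
  rw [show sh x A + sh x (cxL (mu l s) B) = sh x (A + cxL (mu l s) B) from rfl, sub_add_cancel] at c4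
  refine JS.cv_mono c4 le_rfl ?_
  have e1 : 4 * (P ^ 5 * δ ^ 2) ≤ δ / r ^ 10 / 4 := by
    rw [le_div_iff₀ (by norm_num), le_div_iff₀ r4]
    calc _ = 16 * r ^ 10 * (P ^ 5 * δ) * δ := by ring
      _ ≤ P ^ 2 * (P ^ 5 * δ) * δ := by gcongr; nlinarith [b.L]
      _ = P ^ 7 * δ * δ := by ring
      _ ≤ 1 * δ := by gcongr
      _ = δ := one_mul _
  have e2 : δ / LL l ≤ δ / r ^ 10 / 16 := by
    rw [div_div]
    gcongr
    nlinarith
  have e3 : 4 * δ / r ^ 12 ≤ δ / r ^ 10 / 8 := by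
    rw [div_div, div_le_div_iff₀ (by positivity) (by positivity),
      show (r : ℝ) ^ 12 = r ^ 10 * r ^ 2 by ring]
    nlinarith [mul_le_mul_of_nonneg_left (show 32 ≤ (r : ℝ) ^ 2 by nlinarith) (mul_pos r4 r4).le,
      mul_le_mul_of_nonneg_left (show 32 ≤ (r : ℝ) ^ 2 by nlinarith) (mul_nonneg δ0 r4.le)]
  linarith [div_nonneg δ0 r4.le]

theorem en_diff (b : Hy l r c τ m s P) (hm : Rng (3 * r) (3 * r) m) (h3 : P ^ 3 * δ ≤ 1)
    {Ω : Set ℂ} {B a : ℂ → Fld} {U : ℂ → Cf} (dB : Disc Ω B) (dU : Disc Ω U)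
    (hB : ∀ t ∈ Ω, ∀ e, ‖B t e‖ ≤ δ)
    (hU : ∀ t ∈ Ω, ∀ e, ‖a t e‖ ≤ P * δ ∧ ‖U t e - 1 - io (a t e)‖ ≤ P * δ ^ 2) :
    (∀ x, Disc Ω fun t => cut (3 * r + 1) (Bx x (U t))) ∧
      DifferentiableOn ℂ (fun t => en l m 0 (exF (B t)) (U t)) Ω := by
  rcases Ω.eq_empty_or_nonempty with rfl | ⟨t₀, ht₀⟩
  · exact ⟨fun _ _ => differentiableOn_empty, differentiableOn_empty⟩
  have δ0 : 0 ≤ δ := (norm_nonneg _).trans (hB t₀ ht₀ (0, 0))
  have P1 := b.one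
  obtain ⟨s1, s2, s3⟩ := JS.pow_small b.p0 δ0 h3
  have n1 : ∀ t ∈ Ω, ∀ e, ‖U t e - 1‖ ≤ 4 * (P * δ) := fun t ht e =>
    (JS.near_one (hU t ht e)).trans (by nlinarith)
  have d1 := fun x => JS.Bx_disc' b.p0 δ0 h3 dU n1 (n := 3 * r + 1)
    (by push_cast; linarith [b.rr, r.cast_nonneg (α := ℝ)]) x
  have d2 : ∀ x, ∀ e ∈ lbox (3 * r), DifferentiableOn ℂ (fun t => Bx x (U t) e) Ω := fun x e he => by
    simpa only [cut_of_mem _ (lbox_mono (Nat.le_succ _) he)] using d1 x e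
  refine ⟨d1, (DifferentiableOn.fun_sum fun x _ => ((diff_cx hm (d2 x) (d2 x)).add_const 0)).add
    ((DifferentiableOn.fun_sum fun μ _ => Nz.diff_nz (δ := 4 * (P * δ)) dU
      (dB.exF (fun t ht e => (hB t ht e).trans (by linarith)) _) (fun t ht e _ => n1 t ht e)
      (fun t ht => (JS.exF_ap b.p0 h3 (hB t ht) _).1.trans (by linarith)) ?_).const_mul _)⟩
  have : LL l * (P * δ) ≤ P ^ 2 * δ := by
    rw [sq, mul_assoc]
    gcongr
    linarith [b.L, JS.one_le_LL l]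
  nlinarith

end Hy

theorem Gc_agr (h : Lin l r c τ m s) (hr : 3 * r + 1 ≤ 2 * l) (hm : Rng (3 * r) (3 * r) m)
    (hT : ∀ A B, (∀ x ∈ box (3 * r), ∀ μ ν, dd A x μ ν = dd B x μ ν) → T A = T B) {W W' : Cf}
    {A A' : Fld} (hW : Agr (r / 4 + 2) W W') (hA : Agr (3 * l + 1) A A') :
    Gc l m s T W A = Gc l m s T W' A' :=
  en_agr hr hm hT (hW.mono (by omega))
    (fb_one l ▸ Uz_agr h (hW.mono (by omega)) (fb_one l ▸ hA))

theorem cut_le {R : ℕ} {A : Fld} (h : Sm R δ A) (e : Lk) : ‖cut R A e‖ ≤ δ := by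
  rw [cut]
  split_ifs with he
  exacts [h e he, norm_zero.trans_le h.nonneg]

theorem Qf_cut (h : Lin l r c τ m s) (B A : Fld) :
    Qf l m s B (cut (3 * l + 1) A) = Qf l m s B A := by
  rw [Qf, Qf, cx_agr h.xx_rng (agr_cut _ A) fun _ _ => rfl,
    cx_agr h.hh_rng (agr_cut _ A) (agr_cut _ A)]

end En

open En

/-- joint holomorphy of a family of cubic terms -/
def TH (R : ℕ) (ρ : ℝ) (S : Set ℂ) (T : ℂ → Fld → ℂ) : Prop :=
  (∀ t A B, (∀ x ∈ box R, ∀ μ ν, dd A x μ ν = dd B x μ ν) → T t A = T t B) ∧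
  ∀ Ω γ, IsOpen Ω → Ω ⊆ S → Disc Ω γ → (∀ t ∈ Ω, Cv R ρ (γ t)) →
    DifferentiableOn ℂ (fun t => T t (γ t)) Ω

theorem gr_main {l : ℕ} {m : BF} {s : V →ₗ[ℝ] V} {T : Fld → ℂ}
    (hT : ∀ B, RealF B → (T B).im = 0) : GR (Gc l m s T) := fun W A hA => by
  rw [Gc, ← Uz_real W hA]
  exact en_im hT _ _

theorem ge_main (c : ℕ) : ∃ K : ℕ, ∀ (l r : ℕ) (τ ρ δ : ℝ) (m : BF) (s : V →ₗ[ℝ] V),
    Lin l r c τ m s → Rng (3 * r) (3 * r) m → 1000 ≤ r → r ^ 11 ≤ l → (LL l : ℝ) ^ K * δ ≤ 1 →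
    δ ≤ (r : ℝ) ^ 10 * ρ →
      (∀ S T, TH (3 * r) ρ S T → GH l δ S fun t => Gc l m s (T t)) ∧
      ∀ C T, Tc (3 * r) ρ C T → 0 ≤ C →
        Ge l r m s ((LL l : ℝ) ^ K * (1 + C)) δ (Gc l m s T) ∧
        (C * δ ≤ 1 → Gz l r m s (10 ^ 7 * cG * C / (r : ℝ) ^ 3) ((LL l : ℝ) ^ K) δ (Gc l m s T)) := by
  refine ⟨(c + 5) * 9 * 13, fun l r τ ρ δ m s h hm h1 h11 h3 h4 => ?_⟩
  have h2 : 3 * r ≤ l := le_trans (by
    calc 3 * r ≤ r * r ^ 1 := by nlinarith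
      _ ≤ r * r ^ 10 := by gcongr <;> omega
      _ = r ^ 11 := by ring) h11
  have r0 : (1000 : ℝ) ≤ r := by exact_mod_cast h1
  have L1 := JS.one_le_LL l
  have b := hy_pow h h1 h2 le_rfl
  rw [pow_mul, pow_mul] at h3 ⊢
  generalize (LL l : ℝ) ^ (c + 5) = P at *
  have P1 := b.one
  have PQ : P ≤ P ^ 9 := le_self_pow₀ P1 (by norm_num)
  have bQ := b.mono PQ
  have ap := fun d h {B A : Fld} => b.Uz_ap (δ := d) (B := B) (A := A) h
  have dc := fun d h {Ω : Set ℂ} {B A : ℂ → Fld} => b.Uz_disc (δ := d) (Ω := Ω) (B := B) (A := A) h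
  generalize P ^ 9 = Q at *
  have Q1 := bQ.one
  have Q0 := bQ.p0
  have hr : 3 * r + 1 ≤ 2 * l := by omega
  have sm : ∀ d, 0 ≤ d → d ≤ δ → Q * d ≤ 1 ∧ Q ^ 3 * d ≤ 1 ∧ Q ^ 7 * d ≤ 1 ∧
      d / (r : ℝ) ^ 10 ≤ ρ ∧ d / LL l ≤ d := fun d d0 hd => by
    have e1 : ∀ k ≤ 13, Q ^ k * d ≤ 1 := fun k hk => le_trans (by gcongr) h3
    exact ⟨pow_one Q ▸ e1 1 (by norm_num), e1 3 (by norm_num), e1 7 (by norm_num),
      (div_le_iff₀' (by positivity)).2 (hd.trans h4), div_le_self d0 L1⟩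
  have gh : ∀ S T, TH (3 * r) ρ S T → GH l δ S fun t => Gc l m s (T t) := by
    intro S T hT Ω B A hΩ hS dB dA hb
    rcases Ω.eq_empty_or_nonempty with rfl | ⟨t₀, ht₀⟩
    · exact differentiableOn_empty
    obtain ⟨a1, a2, a7, a3, a4⟩ := sm δ ((norm_nonneg _).trans ((hb t₀ ht₀).1 (0, 0))) le_rfl
    have hA := fun t ht e => (cut_le (hb t ht).2 e).trans a4
    have hU := fun t ht e => (ap δ a1 (hb t ht).1 (hA t ht) e).2
    obtain ⟨d1, d2⟩ := bQ.en_diff hm a2 dB (dc δ a1 dB (Disc.cut fun e _ => dA e)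
      (fun t ht => (hb t ht).1) hA) (fun t ht => (hb t ht).1) hU
    refine (d2.add (DifferentiableOn.fun_sum (u := box l) fun x hx => hT.2 Ω _ hΩ hS (d1 x)
      fun t ht y hy μ ν => ?_)).congr fun t _ => ?_
    · rw [Bg.dd_agr (agr_cut _ _) hy]
      exact (bQ.cv_fine h11 a7 (hb t ht).1 (cut_le (hb t ht).2) (hU t ht) hx y hy μ ν).trans a3
    · beta_reduce
      rw [Gc_agr h hr hm (hT.1 t) (fun _ _ => rfl) (agr_cut (3 * l + 1) (A t)).symm, Gc, en_split]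
      exact congrArg _ (sum_congr rfl fun x _ => hT.1 t _ _ fun y hy μ ν =>
        (Bg.dd_agr (agr_cut _ _) hy μ ν).symm)
  have e0 : ∀ B A d, d ≤ δ → (∀ e, ‖B e‖ ≤ d) → (∀ e, ‖A e‖ ≤ d) →
      ‖en l m 0 (exF B) (Uz l s (exF B) A) - Qf l m s B A‖ ≤ Q ^ 12 * d ^ 3 := fun B A d hd hB hA => by
    obtain ⟨a1, a2, -⟩ := sm d ((norm_nonneg _).trans (hB (0, 0))) hd
    have := bQ.en_ap hm a2 hB fun e => (ap d a1 hB hA e).2
    rwa [JS.square h.symm, show ∀ x y z : ℂ, x + y + z = z + y + x from fun _ _ _ => by ring] at this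
  refine ⟨gh, fun C T hT C0 => ⟨⟨fun W W' A A' => Gc_agr h hr hm hT.loc, fun u W A => ?_,
    fun Z _ W A hW hA => measurable_en hm hT.meas hW (mq_Uz h hW hA),
    gh _ _ ⟨fun _ => hT.loc, fun Ω γ hΩ _ => hT.hol Ω γ hΩ⟩, fun B A d hd hB hA => ?_⟩,
    fun hC B d d' hd hB hc => ?_⟩⟩
  · rw [Gc, Uz_gauge h fun _ => uni_cS _, en_gauge hm hT.ad, Gc]
  · have d0 : 0 ≤ d := (norm_nonneg _).trans (hB (0, 0))
    obtain ⟨a1, a2, a7, a3, a4⟩ := sm d d0 hd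
    have hA' := fun e => (cut_le hA e).trans a4
    rw [Gc_agr h hr hm hT.loc (fun _ _ => rfl) (agr_cut (3 * l + 1) A).symm, ← Qf_cut h, Gc,
      en_split, add_sub_right_comm]
    refine (norm_add_le_of_le (e0 B _ d hd hB hA') (norm_sum_le_of_le _ fun x hx => hT.bd _ _
      (bQ.cv_fine h11 a7 hB (cut_le hA) (fun e => (ap d a1 hB hA' e).2) hx) a3)).trans ?_
    rw [sum_const, nsmul_eq_mul, JS.card_boxR]
    have q1 : (LL l : ℝ) ^ 4 * (C * (d / (r : ℝ) ^ 10) ^ 3) ≤ Q ^ 13 * (C * d ^ 3) := by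
      gcongr
      · linarith [bQ.pL, le_self_pow₀ Q1 (show 13 ≠ 0 by norm_num), pow_nonneg (zero_le_one.trans L1) 4]
      · exact div_le_self d0 (one_le_pow₀ (by linarith))
    have q2 : Q ^ 12 * d ^ 3 ≤ Q ^ 13 * d ^ 3 := by gcongr; norm_num
    linarith
  · have d0 := hc.nonneg
    have d0' : 0 ≤ d' := (norm_nonneg _).trans (hB (0, 0))
    obtain ⟨a1, a2, a7, a3, -⟩ := sm d' d0' hd
    have z0 : ∀ e, ‖(0 : Fld) e‖ ≤ d' := fun e => by simpa using d0'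
    have k0 := e0 B 0 d' hd hB z0
    have hU := fun e => (ap d' a1 hB z0 e).2
    have c1 := fun x => bQ.cv_fine (x := x) h11 a7 hB (fun e => by simp; positivity) hU
    simp only [Qf, cx_zero_left, mul_zero, add_zero] at k0
    rw [zero_add] at hU
    obtain ⟨A, hA⟩ : ∃ A, A = cxL (mu l s) B := ⟨_, rfl⟩
    have p1 := Bg.mu_point h (a := 1) hc (by omega)
    have p2 := Bg.mu_energy h hc (by omega)
    rw [← hA, fb_one] at p1 p2
    rw [← hA] at hU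
    obtain ⟨g, hg⟩ : ∃ g : St → ℝ, g = fun x => ∑ μ, ∑ ν, ‖dd A x μ ν‖ ^ 2 := ⟨_, rfl⟩
    have g0 : ∀ x, 0 ≤ g x := fun x => by rw [hg]; positivity
    have k : ∀ x ∈ box l, ‖T (Bx x (Uz l s (exF B) 0))‖ ≤ C * (4 * (4 * (Q ^ 5 * d' ^ 2)) ^ 3 +
        8 * (d / (r : ℝ) ^ 12) * ∑ t ∈ box (3 * r), g (x + t)) := fun x hx => by
      have S0 : 0 ≤ ∑ t ∈ box (3 * r), g (x + t) := sum_nonneg fun _ _ => g0 _
      obtain ⟨v, v0, v2, v3, v4⟩ : ∃ v, 0 ≤ v ∧ v ≤ 2 * (d / (r : ℝ) ^ 12) ∧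
          v ^ 2 ≤ ∑ t ∈ box (3 * r), g (x + t) ∧ Cv (3 * r) v (sh x A) :=
        ⟨min _ _, le_min (by positivity) (Real.sqrt_nonneg _), min_le_left _ _,
          (Real.le_sqrt (by positivity) S0).1 (min_le_right _ _),
          fun y hy μ ν => le_min (JS.cv_sh p1 hx (by omega) y hy μ ν) (by
            rw [Li.dd_sh, add_comm y]
            refine Real.le_sqrt_of_sq_le (le_trans ?_ (single_le_sum (f := fun t => g (x + t))
              (fun _ _ => g0 _) hy))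
            rw [hg]
            exact (single_le_sum (f := fun ν => ‖dd A (x + y) μ ν‖ ^ 2) (fun _ _ => sq_nonneg _)
              (mem_univ ν)).trans (single_le_sum (f := fun μ => ∑ ν, ‖dd A (x + y) μ ν‖ ^ 2)
                (fun _ _ => by positivity) (mem_univ μ)))⟩
      have c3 := JS.cv_add (bQ.cv_crude a2 hU x).2 v4
      rw [sub_add_cancel] at c3
      have u0 : 0 ≤ 4 * (Q ^ 5 * d' ^ 2) := by positivity
      generalize 4 * (Q ^ 5 * d' ^ 2) = u at *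
      refine (hT.bd _ (min (u + v) (d' / (r : ℝ) ^ 10)) (fun y hy μ ν => le_min (c3 y hy μ ν)
        (c1 x hx y hy μ ν)) ((min_le_right _ _).trans a3)).trans (mul_le_mul_of_nonneg_left
          ((pow_le_pow_left₀ (by positivity) (min_le_left _ _) 3).trans ?_) C0)
      have := mul_le_mul v2 v3 (sq_nonneg _) (v0.trans v2)
      nlinarith [mul_nonneg (add_nonneg u0 v0) (sq_nonneg (u - v))]
    rw [Gc, en_split, add_sub_right_comm]
    refine (norm_add_le_of_le k0 (norm_sum_le_of_le _ k)).trans ?_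
    rw [← mul_sum, sum_add_distrib, sum_const, ← mul_sum, nsmul_eq_mul, JS.card_boxR, sum_comm]
    have e1 : ∑ t ∈ box (3 * r), ∑ x ∈ box l, g (x + t) ≤
        (7 * r) ^ 4 * (486 * cG * ((r : ℝ) ^ 5 * d ^ 2)) := by
      refine (sum_le_card_nsmul _ _ _ fun t ht => (Rb.sum_le_sh t g0 fun x hx =>
        ⟨JS.mem_le hx ht (by omega : _ ≤ 3 * l + 1), le_rfl⟩).trans (hg ▸ p2)).trans ?_
      rw [card_box, nsmul_eq_mul]
      push_cast
      have := GD.cG_pos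
      gcongr
      linarith
    have e2 : 8 * (d / (r : ℝ) ^ 12) * ∑ t ∈ box (3 * r), ∑ x ∈ box l, g (x + t) ≤
        10 ^ 7 * cG / (r : ℝ) ^ 3 * d ^ 3 := by
      have := GD.cG_pos
      calc _ ≤ 8 * (d / (r : ℝ) ^ 12) * ((7 * r) ^ 4 * (486 * cG * ((r : ℝ) ^ 5 * d ^ 2))) := by gcongr
        _ = 8 * 486 * 7 ^ 4 * cG / (r : ℝ) ^ 3 * d ^ 3 := by field_simp
        _ ≤ _ := by gcongr; norm_num
    have e3 : C * ((LL l : ℝ) ^ 4 * (4 * (4 * (Q ^ 5 * d' ^ 2)) ^ 3)) ≤ Q ^ 12 * d' ^ 3 := by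
      calc _ = 256 * (LL l : ℝ) ^ 4 * (C * d') * (Q ^ 3 * d') ^ 2 * (Q ^ 9 * d' ^ 3) := by ring
        _ ≤ Q ^ 3 * 1 * 1 ^ 2 * (Q ^ 9 * d' ^ 3) := by
          gcongr
          · linarith [bQ.pL, le_self_pow₀ Q1 (show 3 ≠ 0 by norm_num),
              pow_nonneg (Nat.cast_nonneg (α := ℝ) (LL l)) 4]
          · exact le_trans (by gcongr) hC
        _ = _ := by ring
    have e4 := mul_le_mul_of_nonneg_left e2 C0
    have e5 := mul_le_mul_of_nonneg_right Q0 (show 0 ≤ Q ^ 12 * d' ^ 3 by positivity)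
    rw [mul_add, show Q ^ 13 * d' ^ 3 = Q * (Q ^ 12 * d' ^ 3) by ring,
      show 10 ^ 7 * cG * C / (r : ℝ) ^ 3 * d ^ 3 = C * (10 ^ 7 * cG / (r : ℝ) ^ 3 * d ^ 3) by ring]
    nlinarith [show 0 ≤ Q ^ 12 * d' ^ 3 by positivity]

end Pool.Agent.Lib.MP_7f377f_mp.RG.Q4
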