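import Pool.Agent.Lib.MP_7f377f_mp.G.Q4TrH
import Pool.Agent.Lib.MP_7f377f_mp.G.Q4TOk

/-! The tree step for admissible tree data. -/

noncomputable section

set_option linter.unusedSectionVars false
variable [Pool.Agent.Lib.MP_7f377f_mp.GD]

namespace Pool.Agent.Lib.MP_7f377f_mp.RG.Q4

open Filter

namespace Sd

variable {S : Sd} {a : ℕ}

theorem TOk.inv (h : S.TOk) : ∃ j cU, cU ≤ 20 ∧ Inv j (3 * S.r) 20 cU S.m :=
  let ⟨j, _, _, _, _, _, _, ⟨⟨_, _, _, h⟩, _, _⟩, _⟩ := h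
  ⟨j, _, by nlinarith, h.inv⟩

theorem D0' (S : Td) : (0 : ℝ) < S.D0 := by exact_mod_cast D1 S

theorem al_eq (S : Td) (d : ℝ) :
    S.t.al S.c S.τ S.P d = S.L ^ (8 * S.c + 24 + 2 * S.Kt) * (d * (d + S.τ)) := by
  simp only [Nt.al, Td.P, Td.L, Td.t]
  ring

namespace Nu

variable (h : S.Nu a)
include h

theorem τ_le : S.τ ≤ (S.D0 : ℝ)⁻¹ := by
  have h1 := h.τ_g (i := 1) (j := 0) (by norm_num) (by omega)
  rw [le_inv_comm₀ τ0 (D0' _), inv_eq_one_div, le_div_iff₀ τ0]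
  simpa using (mul_le_mul_of_nonneg_right h.D_le_Q τ0.le).trans (by simpa using h1)

theorem sz1 : S.t.Sz S.c S.τ S.P S.δ (6 * (S.r + 5 : ℕ) * (S.D0 : ℝ)⁻¹) := by
  have := D0' S.toTd
  have r0 := h.cr' (C := 1000) (by norm_num)
  refine h.sz (by positivity) ?_
  rw [Td.δ, div_eq_mul_inv, ← mul_assoc]
  gcongr
  push_cast
  nlinarith [mul_le_mul r0 r0 (by norm_num) (by linarith)]

theorem Mq_le {η : ℝ} (h0 : S.τ ≤ η) (h1 : η ≤ (S.D0 : ℝ)⁻¹) :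
    12 * S.t.Mq S.c S.τ S.P (S.L ^ S.Kt / S.r) (S.L ^ S.Kt / S.L) (S.r + 5) η ≤
      S.L ^ S.Kt / 2 * η ^ 3 := by
  have η0 := τ0.trans_le h0
  have L0 := L0 S.toTd
  have r0 := h.cr' (C := 1000) (by norm_num)
  have ex := h.exps
  have p1 : 1 ≤ S.L ^ S.Kt := one_le_pow₀ (L1 _)
  have x0 : 0 < S.L ^ S.Kt * η ^ 3 := by positivity
  have R1 : 3 * ((S.r + 5 : ℕ) : ℝ) * η ≤ 4 * S.r * η :=
    mul_le_mul_of_nonneg_right (by push_cast; linarith) η0.le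
  have R2 : η ≤ 3 * ((S.r + 5 : ℕ) : ℝ) * η := le_mul_of_one_le_left η0.le (by push_cast; linarith)
  have b1 : 72 * (S.L ^ S.Kt / S.r * η ^ 3) ≤ S.L ^ S.Kt * η ^ 3 := by
    rw [div_mul_eq_mul_div, ← mul_div_assoc, div_le_iff₀ (by linarith)]
    nlinarith
  have b2 : 72 * (S.L ^ S.Kt / S.L * (3 * ((S.r + 5 : ℕ) : ℝ) * η) ^ 3) ≤ S.L ^ S.Kt * η ^ 3 := by
    rw [div_mul_eq_mul_div, ← mul_div_assoc, div_le_iff₀ L0]
    calc _ ≤ 72 * (S.L ^ S.Kt * (4 * S.r * η) ^ 3) := by gcongr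
      _ = S.L ^ S.Kt * η ^ 3 * (4608 * S.r ^ 3) := by ring
      _ ≤ _ := by gcongr; exact (h.mono a.zero_le).crL (by norm_num) (by omega)
  have b3 : 72 * (S.L ^ (S.c + 7) * (S.P * S.t.al S.c S.τ S.P (3 * ((S.r + 5 : ℕ) : ℝ) * η) ^ 2)) ≤
      S.L ^ S.Kt * η ^ 3 := by
    have := τ0 (S := S)
    rw [al_eq, Td.P]
    calc _ ≤ 72 * (S.L ^ (S.c + 7) * (S.L ^ (2 * S.Kt) * (S.L ^ (8 * S.c + 24 + 2 * S.Kt) *
          (4 * S.r * η * (4 * S.r * η + 4 * S.r * η))) ^ 2)) := by gcongr; linarith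
      _ = 73728 * S.r ^ 4 * S.L ^ (17 * S.c + 55 + 6 * S.Kt) * η * η ^ 3 := by ring
      _ ≤ S.L * S.L ^ (17 * S.c + 55 + 6 * S.Kt) * (S.D0 : ℝ)⁻¹ * η ^ 3 := by
        gcongr; exact (h.mono a.zero_le).crL (by norm_num) (by omega)
      _ ≤ _ := by
        gcongr
        rw [← pow_succ', ← div_eq_mul_inv]
        exact (div_le_one_of_le₀ (h.LD (by omega)) (D0' _).le).trans p1
  simp only [Nt.Mq]
  change 12 * (_ + _ + S.L ^ (S.c + 7) * _) ≤ _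
  linarith

variable (k : S.TK)
include k

theorem T1_tc : Tc (S.r + 5) ((S.D0 : ℝ)⁻¹) (S.L ^ S.Kt / 2) S.T1 := by
  have t := Nt.Tn_tc k.ok k.gz (R := S.r + 5) (by omega) h.sz1
  have := D0' S.toTd
  refine ⟨t.loc, t.hol, fun B d h1 h2 => (t.bd B d h1 h2).trans
    (mul_le_mul_of_nonneg_right ?_ (pow_nonneg h1.nonneg 3)), t.ad, t.meas⟩
  rw [div_le_iff₀ (by positivity)]
  exact h.Mq_le h.τ_le le_rfl

theorem T1_real (B : Fld) (hB : RealF B) : (S.T1 B).im = 0 :=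
  Nt.Tn_real k.ok k.gz (by omega) h.sz1 k.gr hB

theorem rest_num {d ε κ : ℝ} (z : S.t.Sz S.c S.τ S.P S.δ d) (ε0 : 0 ≤ ε) (h1 : ε ≤ κ) (h2 : S.τ ≤ κ)
    (h3 : Real.exp (-(S.l : ℝ) ^ 2) ≤ κ) (h4 : κ ≤ 1) :
    S.L ^ (S.c + 6) * (S.P * S.t.al S.c S.τ S.P d * S.t.et S.c S.τ S.P d ε) + 12 *
      S.t.Mq S.c S.τ S.P (S.L ^ S.Kt / S.r) (S.L ^ S.Kt / S.L) (S.r + 5) S.τ / S.τ ^ 2 *
        (4 * d) ^ 2 ≤ 17 * S.D0 * (d ^ 5 + κ * d ^ 2) := by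
  have t0 := τ0 (S := S)
  have L0 := L0 S.toTd
  have L1 := L1 S.toTd
  have d0 := z.d0
  have ex := h.exps
  have κ0 := t0.trans_le h2
  obtain ⟨θ0, θ1⟩ := k.ok.th_le z
  have b1 : 12 * S.t.Mq S.c S.τ S.P (S.L ^ S.Kt / S.r) (S.L ^ S.Kt / S.L) (S.r + 5) S.τ / S.τ ^ 2 ≤
      S.D0 * κ := by
    rw [div_le_iff₀ (by positivity)]
    refine (h.Mq_le le_rfl h.τ_le).trans ?_
    calc _ = S.L ^ S.Kt / 2 * S.τ * S.τ ^ 2 := by ring
      _ ≤ _ := by gcongr; exact (half_le_self (by positivity)).trans (h.LD (by omega))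
  have p1 : 1 ≤ S.L ^ (9 * S.c + 29 + 2 * S.Kt) := one_le_pow₀ L1
  have b2 : S.t.th S.c S.P d ^ S.t.p + S.L ^ 3 * (S.P * d) + 2 * ε ≤
      3 * (S.L ^ (9 * S.c + 29 + 2 * S.Kt) * (d + κ)) := by
    have e1 : S.t.th S.c S.P d ^ S.t.p ≤ S.t.th S.c S.P d :=
      pow_le_of_le_one θ0.le (by linarith) (by simp [Td.t])
    have e2 : S.t.th S.c S.P d = Real.exp (-(S.l : ℝ) ^ 2) + S.L ^ (9 * S.c + 29 + 2 * S.Kt) * d := by
      simp only [Nt.th, Td.P, Td.L, Td.t]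
      ring
    have e3 : S.L ^ 3 * (S.P * d) ≤ S.L ^ (9 * S.c + 29 + 2 * S.Kt) * d := by
      rw [Td.P, ← mul_assoc, ← pow_add]
      exact mul_le_mul_of_nonneg_right (pw _ (by omega)) d0.le
    nlinarith [mul_le_mul_of_nonneg_right p1 κ0.le, mul_le_mul_of_nonneg_right p1 d0.le]
  have b3 : S.L ^ (S.c + 6) * (S.P * S.t.al S.c S.τ S.P d * S.t.et S.c S.τ S.P d ε) ≤
      S.D0 * (d ^ 5 + κ * d ^ 2) := by
    have e : (d + κ) ^ 3 ≤ 4 * (d ^ 3 + κ) := by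
      nlinarith [mul_nonneg (add_pos d0 κ0).le (sq_nonneg (d - κ)),
        pow_le_of_le_one κ0.le h4 three_ne_zero]
    calc _ ≤ S.L ^ (S.c + 6) * (S.P * (S.L ^ (8 * S.c + 24 + 2 * S.Kt) * (d * (d + κ))) *
          (2 * (S.L ^ 22 * (3 * (S.L ^ (9 * S.c + 29 + 2 * S.Kt) * (d + κ)) *
            (S.L ^ (8 * S.c + 24 + 2 * S.Kt) * (d * (d + κ))))))) := by
          have := P1 S.toTd
          rw [Nt.et, al_eq]
          change _ * (_ * _ * (2 * (S.L ^ 22 * ((_ + S.L ^ 3 * _ + _) * _)))) ≤ _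
          gcongr
      _ = 6 * S.L ^ (26 * S.c + 105 + 8 * S.Kt) * (d ^ 2 * (d + κ) ^ 3) := by rw [Td.P]; ring
      _ ≤ 6 * S.L ^ (26 * S.c + 105 + 8 * S.Kt) * (d ^ 2 * (4 * (d ^ 3 + κ))) := by gcongr
      _ = 24 * S.L ^ (26 * S.c + 105 + 8 * S.Kt) * (d ^ 5 + κ * d ^ 2) := by ring
      _ ≤ _ := by
        gcongr
        exact (mul_le_mul_of_nonneg_right (h.cL' (by norm_num)) (by positivity)).trans
          ((pow_succ' _ _).ge.trans (h.LD (by omega)))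
  have b5 := mul_le_mul_of_nonneg_right b1 (sq_nonneg (4 * d))
  nlinarith [mul_pos (D0' S.toTd) (pow_pos d0 5)]

end Nu

end Sd

open Sd

/-- the new cubic term -/
theorem tc_T1 (c : ℕ) : ∀ᶠ S in ev c, Tc (S.r + 5) ((S.D0 : ℝ)⁻¹) (S.L ^ S.Kt / 2) S.T1 ∧
    ∀ B, RealF B → (S.T1 B).im = 0 := by
  filter_upwards [ev_nu' c 0, tk c] with S h k using ⟨h.T1_tc k, h.T1_real k⟩

theorem ev_dcy (c a : ℕ) : ∀ᶠ S in ev c, ∃ ε, 0 ≤ ε ∧ ε ≤ S.g ^ a ∧ Dcy S.l (S.r / 2) ε S.m := by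
  obtain ⟨c', c1, hc⟩ := dcy_of
  filter_upwards [ev_nu' c ((a + 20) * (3 * c')), ev_tok] with S h k
  obtain ⟨j, cU, h1, h2⟩ := k.inv
  have h3 := h.lens
  have h4 := h.l_big
  have c0 : (1 : ℝ) ≤ c' := by exact_mod_cast c1
  refine ⟨_, (Real.exp_pos _).le, ?_, hc _ _ _ _ _ _ _ (by nlinarith) (by omega) (by omega) le_rfl
    h1 h2⟩
  have h5 := h.log_le
  have h6 := Real.log_nonneg h.ok.β1
  have h7 : (S.r : ℝ) ≤ 3 * (S.r / 2 : ℕ) := by exact_mod_cast (by omega : S.r ≤ 3 * (S.r / 2))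
  simpa using h.of_β (i := 0) (j := a) (k := a + 20) (Real.exp_pos _).le (by
    rw [← Real.exp_log (pow_pos h.ok.β0 _), ← Real.exp_add, Real.exp_le_one_iff, Real.log_pow,
      neg_add_nonpos_iff, le_div_iff₀ (by linarith)]
    push_cast at h5 ⊢
    nlinarith) (by norm_num) (by omega)

/-- the part of the new density which is dropped -/
theorem rest_le (c a : ℕ) : ∀ᶠ S in ev c, ∀ (R : ℕ) (ε d : ℝ) (W : Conf), S.w ≤ R → Fq R ε W →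
    6 * R * ε ≤ d → 0 < d → 4 * d ≤ (S.D0 : ℝ)⁻¹ →
      ‖S.t.rest (S.r + 5) ((S.D0 : ℝ)⁻¹) S.m1 (cC W)‖ ≤
        17 * S.D0 * (d ^ 5 + S.g ^ a * d ^ 2) := by
  filter_upwards [ev_nu' c a, tk c, ev_dcy c a] with S h k ⟨ε, ε0, ε1, dc⟩ R e d W h1 h2 h3 d0 h4
  have h5 := h.lens
  have z := h.sz d0 (by
    have := mul_le_mul_of_nonneg_right (show (2 : ℝ) ≤ S.r ^ 3 by
      nlinarith [h.cr' (C := 2) (by norm_num), one_le_pow₀ h.r1' (n := 2)]) (inv_pos.2 (D0' S.toTd)).le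
    rw [Td.δ, div_eq_mul_inv]
    linarith)
  exact (Nt.rest_real k.ok z k.gz (by omega) h.sz1 dc ε0 (by omega) Nu.τ0 h.τ_le h2 h3 (by omega)
    (by omega) h4).trans (h.rest_num k z ε0 ε1 (by simpa using h.τ_g (i := 0) (j := a) (by omega) (by omega))
      (by simpa using h.exp_g (i := 0) (j := a) h.r_le_lsq (by omega) (by omega))
      (pow_le_one₀ h.ok.g0.le h.ok.g1))

theorem rest_bd (c : ℕ) : ∀ᶠ S in ev c, ∀ (W : Conf) ε, S.g' ≤ ε → ε ≤ S.Q ^ 100 * S.g' →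
    Fq S.D0 ε W → ‖S.t.rest (S.r + 5) ((S.D0 : ℝ)⁻¹) S.m1 (cC W)‖ ≤ S.Q * ε ^ 5 := by
  filter_upwards [ev_nu' c 0, rest_le c 3] with S h k W ε h1 h2 h3
  have h4 := h.lens
  have D0 := D0' S.toTd
  have D1 : (1 : ℝ) ≤ S.D0 := by exact_mod_cast D1 S.toTd
  have g0 := h.ok.g0
  have h5 := h.ok.gg'.trans h1
  have ε0 := g0.trans_le h5
  refine (k S.D0 ε _ W (by omega) h3 le_rfl (by positivity) ?_).trans ?_
  · have h6 := h.mon (C := 24) (i := 0) (j := 2) (by norm_num) (by omega) (by omega)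
    have h7 := h.ok.Qg'_le (i := 100) (j := 1) (by norm_num)
    rw [inv_eq_one_div, le_div_iff₀ D0]
    nlinarith [mul_le_mul h6 h2 ε0.le S.Q0.le]
  · calc _ ≤ 17 * S.D0 * ((6 * S.D0 * ε) ^ 5 + (6 * S.D0 * ε) ^ 3 * (6 * S.D0 * ε) ^ 2) := by
          gcongr
          exact h5.trans (le_mul_of_one_le_left ε0.le (by linarith))
      _ = 264384 * S.L ^ 0 * S.D0 ^ 6 * ε ^ 5 := by ring
      _ ≤ _ := mul_le_mul_of_nonneg_right (h.mon (by norm_num) (by omega) (by omega))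
          (by positivity)

end Pool.Agent.Lib.MP_7f377f_mp.RG.Q4
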