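import Pool.Agent.Lib.MP_7f377f_mp.G.Q4HoN
import Pool.Agent.Lib.MP_7f377f_mp.G.Q4TrZ
import Pool.Agent.Lib.MP_7f377f_mp.G.Q4MeasGs

/-! The step preserves reality; the size of the constants. -/

noncomputable section

set_option linter.unusedSectionVars false
variable [Pool.Agent.Lib.MP_7f377f_mp.GD]

namespace Pool.Agent.Lib.MP_7f377f_mp.RG.Q4

open Finset MeasureTheory Filter Polynomial
open scoped Classical

attribute [local irreducible] box lbox

namespace Im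

variable {a b : ℂ}

theorem mul (ha : a.im = 0) (hb : b.im = 0) : (a * b).im = 0 := by simp [ha, hb]

theorem add (ha : a.im = 0) (hb : b.im = 0) : (a + b).im = 0 := by simp [ha, hb]

theorem sub (ha : a.im = 0) (hb : b.im = 0) : (a - b).im = 0 := by simp [ha, hb]

theorem neg (ha : a.im = 0) : (-a).im = 0 := by simp [ha]

theorem half (ha : a.im = 0) : (a / 2).im = 0 := by simp [ha]

theorem exp (ha : a.im = 0) : (Complex.exp a).im = 0 := by simp [Complex.exp_im, ha]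

theorem log (ha : a.im = 0) (h0 : 0 ≤ a.re) : (Complex.log a).im = 0 := by
  rw [Complex.log_im, Complex.arg_eq_zero_iff]
  exact ⟨h0, ha⟩

theorem sum {ι : Type} {s : Finset ι} {f : ι → ℂ} (h : ∀ i ∈ s, (f i).im = 0) :
    (∑ i ∈ s, f i).im = 0 := by
  rw [Complex.im_sum]
  exact sum_eq_zero h

theorem prod {ι : Type} {s : Finset ι} {f : ι → ℂ} (h : ∀ i ∈ s, (f i).im = 0) :
    (∏ i ∈ s, f i).im = 0 :=
  prod_induction f (fun z => z.im = 0) (fun _ _ => mul) Complex.one_im h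

theorem int_eq {Z : Type} [MeasurableSpace Z] (μ : Measure Z) {f : Z → ℂ} (h : ∀ z, (f z).im = 0) :
    ∫ z, f z ∂μ = (∫ z, (f z).re ∂μ : ℝ) := by
  rw [← integral_complex_ofReal]
  exact congrArg _ (funext fun z => Complex.ext rfl (h z))

theorem int {Z : Type} [MeasurableSpace Z] (μ : Measure Z) {f : Z → ℂ} (h : ∀ z, (f z).im = 0) :
    (∫ z, f z ∂μ).im = 0 := by rw [int_eq μ h, Complex.ofReal_im]

theorem dot {u v : C3} (hu : ∀ k, (u k).im = 0) (hv : ∀ k, (v k).im = 0) : (dot u v).im = 0 :=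
  sum fun k _ => mul (hu k) (hv k)

theorem chi (p : Pa) (U : Conf) (x : St) : (chi p U x).im = 0 := by
  unfold Q4.chi
  split_ifs <;> rfl

end Im

theorem e4_real {l : ℕ} {A : Fld} (h : ∀ f ∈ lbox l, ∀ k, (A f k).im = 0) : (e4 l A).im = 0 :=
  Im.sum fun f hf => lj_im (h f hf)

theorem RealP.tr {p : Pa} {ψ : Lx} (h : RealP p ψ) (n : ℕ) (v : St) : RealP p (trL n v ψ) :=
  fun _ => h _

theorem RealA.tr {K : Ac} (h : RealA K) (n : ℕ) (v : St) : RealA (trA n v K) := fun _ _ _ => h _ _ _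

/-- telescoping sums over a region of the torus reduce to the boundary -/
theorem tel_region {n r : ℕ} (hn : Odd n) {Ω : Finset St} (hΩ : Ω ⊆ box (n / 2)) {f : St → St → ℝ}
    (hp : ∀ y w u, f (y + (n : ℤ) • w) u = f y u)
    (hb : ∀ y ∈ Ω, ∀ u ∈ box r, rc n (y + u) ∉ Ω → f y u = 0 ∧ f (y + u) (-u) = 0) :
    ∑ y ∈ Ω, ∑ u ∈ box r, (f (y + u) (-u) - f y u) = 0 := by
  have h := Mx.tel_zero hn (ξ := fun y y' => if rc n y ∈ Ω ∧ rc n y' ∈ Ω then f y (y' - y) else 0)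
    (fun y y' w => by simp only [rc_add_smul, hp, add_sub_add_right_eq_sub]) r
  rw [← h, ← sum_subset hΩ fun y hy h1 => ?_]
  · refine sum_congr rfl fun y hy => ?_
    rw [← sum_sub_distrib]
    refine sum_congr rfl fun u hu => ?_
    rw [rc_eq hn (hΩ hy), sub_add_cancel_left, add_sub_cancel_left]
    by_cases h1 : rc n (y + u) ∈ Ω
    · simp only [h1, hy, and_self, if_true]
    · simp only [h1, hy, hb y hy u hu h1, ite_self]
  · simp only [rc_eq hn hy, h1, and_false, false_and, if_false, sum_const_zero, sub_self]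

namespace Re

open Sd

variable {S : Sd} {W : Conf} {A : Fld} {p : ℂ[X]} {y : St} {v : VB} {ψ : Lx} {K : Ac}
  {O : Finset Ob}

/-! ### fields which are good everywhere -/

section gw

variable (hr : GR S.t.G) (g : S.t.Gw (cC W))
include hr g

theorem gw_ka (y : St) : Q4.Kr (S.ka (cC W) y) := Nt.kd_real hr (W0 := sh y W) (g.sh y)

theorem gw_pol0 (hp : ∀ k, (p.coeff k).im = 0) (hA : RealF A) : RealF (S.pol0 p (cC W) A) :=
  polK_real hp (fun y _ => gw_ka hr g y) hA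

theorem gw_v0 (z : Lk → E3) : RealF (S.v0 (cC W) z) := fun e k =>
  Im.mul (Complex.ofReal_im _) (gw_pol0 hr g (fun i => (Od.coeff_real _ i).1) (zc_real _ z) e k)

theorem gw_Av (z : Lk → E3) : RealF (S.t.As (cC W) + S.v0 (cC W) z) := fun e k =>
  Im.add (Nt.As_real hr g e k) (gw_v0 hr g z e k)

theorem gw_s1 (z : Lk → E3) : (S.s1 (cC W) z).im = 0 :=
  Im.add (Im.mul (Complex.ofReal_im _) (Nt.rem3_real hr g (gw_v0 hr g z)))
    (e4_real fun f _ => gw_Av hr g z f)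

theorem gw_xf (hA : RealF A) (u : St) : (S.xf (cC W) A u).im = 0 := by
  have := Nt.As_real hr g
  refine Im.add ?_ (Im.mul (by simp) (Nt.a0_real hr g))
  split_ifs
  exacts [Im.add (Nt.xi_real hr (g.As 0) this hA) (Nt.xi_real hr (g.zero 0) (fun _ _ => rfl) this),
    rfl]

end gw

/-- the facts about the data which are used -/
structure Rb (S : Sd) : Prop extends Cm.Hp S where
  pu : S.Pu
  ol : RealP S.p' fun _ => S.ol

namespace Rb

variable (h : Rb S)
include h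

theorem gw_one : S.t.Gw (cC 1) := by
  have := h.gw (B := 0) fun e => by simp
  rwa [show exF 0 = cC 1 from funext fun e => by simp [exF, cC, cS_one]] at this

/-- a field with small curvature agrees locally with a field which is good everywhere -/
theorem gw_loc (hW : Fq (S.p'.R + 1) S.p'.ε W) :
    ∃ W1, S.t.Gw (cC W1) ∧ Agr (S.p'.R + 1) (cC W) (cC W1) := by
  have h1 := h.ε'_le.1.trans (h.Qg_D (by norm_num))
  have h2 := h.D_small.trans (by norm_num : _ ≤ (1 / 2 : ℝ))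
  obtain ⟨u, B, W1, hB, -, e1, e⟩ :=
    ((hW.gd (h1.trans (h2.trans one_half_lt_one.le))).mono le_rfl h1).real h2
  exact ⟨W1, e1 ▸ (h.gw hB).cov h.ok u, e⟩

/-! ### the new small terms and the constants -/

theorem Fs_im (hK : RealA K) {X : Finset St} (hX : X ∈ S.X1s) (B : Fld) : (S.Fs K X B).im = 0 :=
  Fs_real h.nu h.ok h.gr h.pu.P_le hX (hK X ∅) B

theorem PL_real (hψ : RealP S.p ψ) (hK : RealA K) (y : St) (B : Fld) : (S.PL ψ K y B).im = 0 :=
  Im.sub (Im.sub (h.pu.pz_real (hψ.tr _ _) _) (h.pu.pz_real (hψ.tr _ _) _))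
    (Im.sum fun _ hX => Im.sub (h.Fs_im (hK.tr _ _) hX _) (h.Fs_im (hK.tr _ _) hX _))

theorem s1_one (z : Lk → E3) : (S.s1 1 z).im = 0 := by
  rw [← Op.cC_one]
  exact gw_s1 h.gr h.gw_one z

theorem c1_real : S.c1.im = 0 := by
  have h1 := fun z => Im.exp (Im.neg (h.s1_one z))
  refine Im.neg (Im.log (Im.int _ h1) ?_)
  rw [Im.int_eq _ h1, Complex.ofReal_re]
  exact integral_nonneg fun z => by simp [Complex.exp_re, h.s1_one z, Real.exp_nonneg]

theorem c2_real (u : St) : (S.c2 u).im = 0 := by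
  have h1 : ∀ z, (S.f0 1 z).im = 0 := fun z =>
    Im.sub (Im.exp (Im.add (Im.neg (h.s1_one z)) h.c1_real)) rfl
  exact Im.neg (Im.int _ fun z => Im.mul (h1 _) (h1 _))

theorem cX_real (hψ : RealP S.p ψ) (hK : RealA K) : (S.cX ψ K).im = 0 :=
  Im.sub (Im.add (Im.sub (h.fo.dt0_real (Ho.cv_zero _ (by positivity)) fun _ _ => rfl)
    (h.pu.pz_real hψ _)) (Im.sum fun _ hX => h.Fs_im hK hX _)) h.c1_real

theorem Ey_real (hψ : RealP S.p ψ) (hK : RealA K) (y : St) : (S.Ey ψ K y).im = 0 :=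
  Im.sub (Im.add (Complex.ofReal_im _) (h.cX_real (hψ.tr _ _) (hK.tr _ _)))
    (Im.sum fun u _ => Im.half (h.c2_real u))

/-! ### fields with small curvature near the origin -/

section loc

variable (hW : Fq (S.p'.R + 1) S.p'.ε W)
include hW

theorem s1_real (z : Lk → E3) : (S.s1 (cC W) z).im = 0 := by
  obtain ⟨W1, g, e⟩ := h.gw_loc hW
  have l := h.nu.lens
  rw [R_eq] at e
  have e1 := v0_agr h.ok (a := 2) (z := z) (e.mono (by omega)) fun _ _ => rfl
  refine Im.add (Im.mul (Complex.ofReal_im _) ?_) (e4_real fun f hf k => ?_)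
  · rw [Nt.rem3_agr h.ok (zero_mem_box 0) (e.mono (by omega)) e1]
    exact Nt.rem3_real h.gr g (gw_v0 h.gr g z)
  · rw [Pi.add_apply, e1 f (lbox_mono (Nat.le_add_left _ _) hf),
      Nt.As_agr h.ok (n := 0) (e.mono (by omega)) f (mem_fb_zero hf)]
    exact gw_Av h.gr g z f k

theorem sT_real (z : Lk → E3) : (S.sT (cC W) z).im = 0 := by
  obtain ⟨W1, g, e⟩ := h.gw_loc hW
  have l := h.nu.lens
  have l2 : S.r / 4 + 4 ≤ S.t.rA S.r := by simp only [Nt.rA]; omega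
  rw [R_eq] at e
  refine Im.sub (Im.mul (Complex.ofReal_im _) (Im.add ?_ (Im.sub (Im.sub ?_
    (cx_im _ (Bx_real 0 W) (Bx_real 0 W))) (h.nu.T1_real h.tk _ (Bx_real 0 W)))))
    (Im.half (Im.sum fun f hf => ?_))
  · rw [Nt.gv_agr h.ok (zero_mem_box 0) (e.mono (by omega)) (Nt.As_agr h.ok (e.mono (by omega)))
      (v0_agr h.ok (a := 0) (z := z) (e.mono (by omega)) fun _ _ => rfl)]
    exact Nt.gv_real h.gr g.As (Nt.As_real h.gr g) (gw_v0 h.gr g z)
  · rw [Nt.tn_agr h.ok (e.mono (by omega))]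
    exact Nt.tn_real h.gr g
  · rw [Td.pol0_agr h.ok (a := 0) (natDegree_pU _) (e.mono (by omega)) (fun _ _ => rfl) f
      (mem_fb_zero hf)]
    exact Im.dot (zc_real _ z f)
      (gw_pol0 h.gr g (fun i => (Od.coeff_real _ i).2.2) (zc_real _ z) f)

theorem fm_real (hψ : RealP S.p ψ) (z : Lk → E3) : (S.fm ψ (cC W) z).im = 0 :=
  have h1 := fun x hx => h.site_cv (hW.mono (by rw [p'_R]; omega) le_rfl) z (x := x) hx
  Im.sub (Im.exp (Im.add (Im.add (Im.neg (Im.add (Im.add (h.s1_real hW z) (h.sT_real hW z))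
    (Im.sum fun x hx => hψ x _ (h1 x hx).1 (h1 x hx).2))) (h.pu.pz_real hψ _)) h.c1_real)) rfl

theorem xf_im (hA : RealF A) (u : St) : (S.xf (cC W) A u).im = 0 := by
  obtain ⟨W1, g, e⟩ := h.gw_loc hW
  have l := h.nu.lens
  have l2 : S.r / 4 + 4 ≤ S.t.rA S.r := by simp only [Nt.rA]; omega
  rw [R_eq] at e
  rw [← gw_xf h.gr g hA u, Td.xf, Td.xf, Nt.a0_agr h.ok (e.mono (by omega))]
  split_ifs with hu
  · rw [Nt.xi_agr h.ok (zero_mem_box 0) hu (e.mono (by omega)) (Nt.As_agr h.ok (e.mono (by omega)))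
      fun _ _ => rfl, Nt.xi_agr h.ok (zero_mem_box 0) hu (e.mono (by omega)) (fun _ _ => rfl)
      (Nt.As_agr h.ok (e.mono (by omega)))]
  · rfl

end loc

/-- the exponent of a block without the telescoping terms is real -/
theorem Eg_im (W : Conf) (z : Lk → E3) :
    (S.Eg W z).im = -(S.β * (S.tel (cC W) (S.vH W z)).im) := by
  have h1 : (qk S.l (S.kd (cC W)) (S.vH W z) (S.vH W z)).im = 0 :=
    Im.sum fun e he => Im.sum fun i _ => Im.sum fun e' _ => Im.sum fun j _ => by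
      by_cases h2 : Act S.l (S.H W) e
      · have := h.fo.kr W 0 ⟨_, yo_mem_one he, by simpa using h2.2⟩ e i e' j
        rw [Td.ka_zero] at this
        exact Im.mul this (Im.mul (h.fo.vH_real W z e i) (h.fo.vH_real W z e' j))
      · simp [vH_not h2]
  have h2 := Im.add (Im.add (Im.mul (Complex.ofReal_im S.β) h1) (Im.half (Im.sum (s := lbox S.l)
    fun f _ => Im.dot (cF_real z f)
      (h.fo.pol_real (W := W) (fun i => (Od.coeff_real S.N i).2.2) (cF_real z) f)))) (h.fo.dtH_real W)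
  rw [Eg, Complex.sub_im, h2, zero_sub, Complex.im_ofReal_mul]

theorem dZ_real (W : Conf) (Z : Finset St) : (S.dZ W Z).im = 0 := (dmK_real (h.fo.kr W)).1

theorem Ix_real (hψ : RealP S.p ψ) (U : Conf) (x : St) : (Ix S.p (S.Φ ψ) U x).im = 0 := by
  rw [Ix, chi]
  split_ifs with h1
  · refine Im.mul rfl (Im.exp (Im.neg (Im.add (Im.mul (Complex.ofReal_im _) (Im.add
      (cx_im _ (Bx_real _ _) (Bx_real _ _)) (h.tok.real _ (Bx_real _ _))))
      (hψ _ _ (Bx_real _ _) ?_))))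
    rw [Bx_eq, sh_cC]
    exact h.cv_fine h1
  · simp

end Rb

/-! ### the geometry of a family of objects -/

theorem bs_din {o : Ob} (ho : o ∈ O) {a : ℕ} (ha : a + 4 * S.D0 + 2 ≤ 13 * S.D0) :
    tb S.n a (S.bs o) ⊆ S.Din (us S.sp O) := fun y hy => by
  have h1 : tb S.n (13 * S.D0) (S.bs o) ⊆ us S.sp O := fun x hx => mem_us.2 ⟨o, ho, hx⟩
  refine mem_filter.2 ⟨h1 (tb_mono le_rfl (by omega) hy), Subset.trans ?_ h1⟩
  refine (tb_mono (singleton_subset_iff.2 hy) le_rfl).trans ?_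
  rw [tb_tb]
  exact tb_mono le_rfl ha

theorem hd_bs (hO : O ⊆ S.obs) (hy : y ∈ Hh S.l S.n (CC O) (Wk O) ∪ Dbl O) :
    ∃ o ∈ O, y ∈ S.bs o := by
  simp only [Hh, CC, Wk, Dbl, olds, mem_union, mem_biUnion, mem_toLeft, mem_toRight] at hy
  rcases hy with (⟨C, ⟨o, ho, hC⟩, hy⟩ | hy) | hy
  · have := hO ho
    simp only [obs, inl_mem_disjSum] at this
    exact ⟨_, ho, image_subset_image ((mem_fams.1 (mem_lps.1 this).2.2).1 C hC) hy⟩
  · exact ⟨_, hy, mem_singleton_self y⟩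
  · exact ⟨_, hy, mem_singleton_self y⟩

theorem hd_din (hO : O ⊆ S.obs) {a : ℕ} (ha : a + 4 * S.D0 + 2 ≤ 13 * S.D0) :
    tb S.n a (Hh S.l S.n (CC O) (Wk O) ∪ Dbl O) ⊆ S.Din (us S.sp O) := fun y hy => by
  obtain ⟨h1, x, hx, h2⟩ := mem_tb.1 hy
  obtain ⟨o, ho, h3⟩ := hd_bs hO hx
  exact bs_din ho ha (mem_tb.2 ⟨h1, x, h3, h2⟩)

theorem near_Oh {x : St} (hx : x ∈ Wk O) (h : nearT S.n (5 * S.D0) x y) : rc S.n y ∈ S.Oh O :=
  mem_tb.2 ⟨rc_rc _ _, x, mem_union_left _ (mem_union_right _ hx), nearT_rc_right.2 h⟩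

theorem sup_fq (h : S.Sup W O) (hy : y ∈ S.Din (us S.sp O)) (h1 : y ∉ Wk O) :
    Fq (S.p'.R + 1) S.p'.ε (sh y W) := by
  by_cases h2 : y ∈ (S.lab W O).biUnion id
  · by_contra h3
    exact prod_ne_zero_iff.1 (right_ne_zero_of_mul h.1) y (mem_sdiff.2 ⟨h2, h1⟩) (if_neg h3)
  · exact h.2 y (mem_sdiff.2 ⟨hy, h2⟩)

theorem Oh_sub (hn : Odd S.n) : S.Oh O ⊆ box (S.n / 2) := fun y hy =>
  (mem_tb.1 hy).1 ▸ rc_mem hn y

namespace Rb

variable (h : Rb S) (hW : Per S.n W) (hO : O ⊆ S.obs) (hs : S.Sup W O)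
include h hW hO hs

/-- the telescoping terms of the region which is not calm are real -/
theorem tel_real (hA : RealF A) (pA : Per S.nf A) :
    ∑ y ∈ S.Oh O, (S.tel (cC (sh y W)) (sh (up S.l y) A)).im = 0 := by
  have l := h.nu.lens
  refine Eq.trans (sum_congr rfl fun y _ => ?_) (tel_region (r := 3) h.nu.ok.odd
    (Oh_sub (O := O) h.nu.ok.odd) (f := fun y u => (S.xf (cC (sh y W)) (sh (up S.l y) A) u).im)
    (fun y w u => ?_) fun y hy u hu h1 => ⟨?_, ?_⟩)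
  · simp only [Td.tel, Complex.im_sum, Complex.sub_im, sh_cC, sh_sh, ← up_add, add_comm y]
  · simp only [up_add, up_per, ← sh_sh, hW.sh_smul w, (show Per (LL S.l * S.n) A from pA).sh_smul w]
  · exact h.xf_im (sup_fq hs (hd_din hO (by omega) hy) fun h2 =>
      h1 (near_Oh (S := S) h2 ((nearT_add hu).mono (by omega)))) (fun _ => hA _) u
  · obtain ⟨-, x, hx, h2⟩ := mem_tb.1 hy
    have h3 := sup_fq hs (hd_din hO (a := 5 * S.D0 + 3) (by omega) (mem_tb.2 ⟨rc_rc _ (y + u), x, hx,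
      nearT_rc_right.2 (h2.trans (nearT_add hu))⟩)) fun h4 => h1 (by
        simpa only [rc_rc] using near_Oh (S := S) h4 (nearT.refl _ _ _))
    obtain ⟨w, e⟩ := rc_exists S.n (y + u)
    rw [e, ← sh_sh, hW.sh_smul w] at h3
    exact h.xf_im h3 (fun _ => hA _) _

variable (hψ : RealP S.p ψ) (hK : RealA K)
include hψ hK

theorem hf_real (hv : PS S.n v) : (∏ y ∈ S.Oh O, S.hf ψ K W v O y).im = 0 := by
  have l := h.nu.lens
  simp only [hf, Gn, prod_mul_distrib, ← Complex.exp_sum]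
  refine Im.mul (Im.mul (Im.mul (Im.prod fun _ _ => Complex.ofReal_im _) (Im.exp ?_))
    (Im.prod fun y _ => Im.prod fun x _ => h.Ix_real hψ _ _))
    (Im.exp (Im.sum fun y hy => Im.add (Im.neg (h.cX_real (hψ.tr _ _) (hK.tr _ _))) ?_))
  · simp only [Complex.im_sum, h.Eg_im, vz_shv, vH_sh, sum_neg_distrib, ← mul_sum,
      h.tel_real hW hO hs (h.fo.vH_real W _) (vH_per hW (per_vz hv)), mul_zero, neg_zero]
  · split_ifs with h1
    · rfl
    · refine Im.add (Im.add (Im.mul (Complex.ofReal_im _) (Im.add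
        (cx_im _ (Bx_real _ _) (Bx_real _ _)) (h.nu.T1_real h.tk _ (Bx_real _ _))))
        (h.ol y _ (Bx_real _ _) ?_)) (h.PL_real hψ hK _ _)
      rw [Bx_eq, sh_cC]
      exact h.cv_coarse (hs.2 y (mem_sdiff.2 ⟨hd_din hO (by omega) hy, h1⟩))

omit hW in
theorem jm_real {m : Mk} (hm : m ∈ O.toRight) : (S.jm ψ K W v (S.Oh O) m).im = 0 := by
  have l := h.nu.lens
  have h1 := mem_toRight.1 hm
  have h2 := hO h1
  rcases m with y | q | q | Z <;> simp only [jm]
  · split_ifs with h3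
    · rfl
    · simp only [obs, mks, inr_mem_disjSum, inl_mem_disjSum] at h2
      have h4 := rc_eq h.nu.ok.odd h2
      exact h.fm_real (sup_fq hs (bs_din h1 (a := 0) (by omega) (mem_tb_single.2 ⟨h4, nearT.refl _ _ _⟩))
        fun h5 => h3 (h4 ▸ near_Oh (S := S) h5 (nearT.refl _ _ _))) (hψ.tr _ _) _
  · exact Im.sub (Im.exp (Im.half (h.c2_real _))) rfl
  · split_ifs
    · rfl
    · simp only [obs, mks, inr_mem_disjSum, inl_mem_disjSum, mem_product] at h2
      exact Im.sub (Im.exp (Im.neg (h.Fs_im (hK.tr _ _) h2.2 _))) rfl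
  · exact h.dZ_real W Z

theorem FO_real (hv : PS S.n v) : (S.FO ψ K W O v).im = 0 := by
  refine Im.mul (Im.mul (Im.mul ?_ (h.hf_real hW hO hs hψ hK hv))
    (Im.prod fun _ => h.jm_real hO hs hψ hK)) (Im.prod fun _ _ => Complex.ofReal_im _)
  split_ifs
  exacts [Im.prod fun _ _ => hK _ _ _, rfl]

theorem wO_real : (S.wO ψ K W O).im = 0 :=
  Im.mul (Im.mul (Im.prod fun _ _ => Im.sub rfl (Im.chi _ _ _)) (Im.prod fun _ _ => Im.chi _ _ _))
    (Im.int _ fun v => h.FO_real hW hO hs hψ hK (ps_pcs _ v))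

omit hO hs in
theorem Kr_real (Y : Finset St) (c : Finset (Finset St)) : (S.Kr ψ K Y c W).im = 0 := by
  rw [Sd.Kr, sum_mul]
  refine Im.sum fun O hO => ?_
  obtain ⟨h1, rfl⟩ := mem_filter.1 hO
  obtain ⟨h2, -, rfl⟩ := mem_clus.1 h1
  by_cases h3 : S.Sup W O
  · exact Im.mul (h.wO_real hW h2 h3 hψ hK) (Im.prod fun _ _ => Im.chi _ _ _)
  · simp only [Sup, not_and_or, not_not, not_forall] at h3
    rcases h3 with h3 | ⟨y, hy, h3⟩
    · simp [wO, h3]
    · rw [prod_eq_zero hy (if_neg h3), mul_zero, Complex.zero_im]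

omit hW hO hs in
/-- the new activities are real -/
theorem KK_real : RealA (S.KK ψ K) := fun Y c _ =>
  Im.int _ fun _ => h.Kr_real (Mx.per_pc _ _) hψ hK Y c

end Rb

end Re

variable (c : ℕ)

theorem step_real : ∀ᶠ S in ev c, ∀ b θ k ψ K, S.Sml b θ k ψ K → RealP S.p ψ → RealA K →
    RealP S.p' (S.PL ψ K) ∧ RealA (S.KK ψ K) ∧ ∀ y, (S.Ey ψ K y).im = 0 := by
  filter_upwards [Cm.ev_hp c, ev_pu c, ol_ps c] with S h1 h2 h3 _ _ _ ψ K _ hψ hK
  have h : Re.Rb S := ⟨h1, h2, h3.2.1⟩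
  exact ⟨fun y B _ _ => h.PL_real hψ hK y B, h.KK_real hψ hK, h.Ey_real hψ hK⟩

end Pool.Agent.Lib.MP_7f377f_mp.RG.Q4
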