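import Pool.Agent.Lib.MP_7f377f_mp.G.Q4Fam
import Pool.Agent.Lib.MP_7f377f_mp.G.Q4Fs
import Pool.Agent.Lib.MP_7f377f_mp.G.Q4TOk
import Pool.Agent.Lib.MP_7f377f_mp.G.Q4Def2

/-! The new small terms. -/

noncomputable section

set_option linter.unusedSectionVars false
variable [Pool.Agent.Lib.MP_7f377f_mp.GD]

namespace Pool.Agent.Lib.MP_7f377f_mp.RG.Q4

open Finset MeasureTheory

attribute [local irreducible] box lbox

section ctr

variable {R s : ℕ} {ρ xb xk xr : ℝ} {φ : Fld → ℂ} {B : Fld}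

theorem ctr_zero (h0 : 0 ≤ ρ) : ctr R ρ φ 0 = φ 0 := ctr_of realF_zero (Ho.cv_zero R h0)

theorem ctr_le {M : ℝ} (h0 : 0 ≤ ρ) (h : ∀ B, RealF B → Cv R (2 * ρ) B → ‖φ B‖ ≤ M) (B : Fld) :
    ‖ctr R ρ φ B‖ ≤ M := by
  rcases ctr_cases (R := R) h0 B with e | ⟨r, v, e⟩ <;> rw [e]
  exacts [norm_zero.trans_le ((norm_nonneg _).trans
    (h 0 realF_zero (Ho.cv_zero R (by positivity)))), h B r v]

theorem ctr_lin {φ₁ φ₂ : Fld → ℂ} {t : ℂ} (h0 : 0 ≤ ρ)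
    (h : ∀ B, RealF B → Cv R (2 * ρ) B → φ B = φ₁ B + t * φ₂ B) (B : Fld) :
    ctr R ρ φ B = ctr R ρ φ₁ B + t * ctr R ρ φ₂ B := by
  rcases ctr_cases (R := R) h0 B with e | ⟨r, v, e⟩ <;> simp only [e]
  exacts [by simp, h B r v]

theorem ctr_real (h0 : 0 ≤ ρ) (h : ∀ B, RealF B → Cv R (2 * ρ) B → (φ B).im = 0) (B : Fld) :
    (ctr R ρ φ B).im = 0 := by
  rcases ctr_cases (R := R) h0 B with e | ⟨r, v, e⟩ <;> rw [e]
  exacts [rfl, h B r v]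

theorem meas_ctr_one : MeasurableSet {B | ctr R ρ 1 B = 1} := by
  have : {B | ctr R ρ 1 B = 1} =
      {B | RealF B ∧ ∀ x ∈ box R, ∀ μ ν, ∑ k, ‖dd B x μ ν k‖ ^ 2 ≤ 3 * ρ ^ 2} := by
    ext B
    simp only [ctr, ctf, Set.mem_ofPred_eq, Pi.one_apply]
    split_ifs with h1 h2
    exacts [iff_of_true rfl ⟨h1, h2⟩, iff_of_false zero_ne_one fun h => h2 h.2,
      iff_of_false zero_ne_one fun h => h1 h.1]
  rw [this]
  refine IsClosed.measurableSet ?_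
  simp only [RealF, Set.ofPred_and, Set.ofPred_forall, dd]
  refine (isClosed_iInter fun _ => isClosed_iInter fun _ => isClosed_eq ?_ ?_).inter
    (isClosed_iInter fun _ => isClosed_iInter fun _ => isClosed_iInter fun _ =>
      isClosed_iInter fun _ => isClosed_le ?_ ?_) <;> fun_prop

/-- the restriction of a term of the class -/
theorem Ps.ctr (h : Ps R s (3 * ρ) xb xk xr fun B => φ B - φ 0) (h0 : 0 < ρ) :
    Ps R s ρ xb xk (xr / 27) (fun B => ctr R ρ φ B - ctr R ρ φ 0) ∧ Measurable (ctr R ρ φ) ∧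
      ∀ a b, q2 (fun B => ctr R ρ φ B - ctr R ρ φ 0) a b = q2 (fun B => φ B - φ 0) a b := by
  have k := (h.mono (xr' := xr / 27) le_rfl h0 (by linarith) le_rfl le_rfl
    (le_of_eq (by field_simp; norm_num))).congr h0 (ψ := fun B => Q4.ctr R ρ φ B - Q4.ctr R ρ φ 0)
    fun B r c => by rw [ctr_of r c, ctr_zero h0.le]
  refine ⟨k.1, ?_, k.2⟩
  classical
  have m1 := h.measurable_ite (d := 2 * ρ) (by positivity) (by linarith) measurable_id meas_ctr_one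
    fun B hB => ((ctr_cases h0.le B).resolve_left fun e => zero_ne_one ((e 1).symm.trans hB)).imp
      id And.left
  convert m1.add ((measurable_one.indicator (meas_ctr_one (R := R) (ρ := ρ))).mul_const (φ 0))
    using 1
  funext B
  rcases ctr_cases (R := R) h0.le B with e | ⟨-, -, e⟩ <;> simp [e, Set.indicator]

end ctr

namespace Sd

variable {S : Sd} {a : ℕ}

/-- the square root of the coupling constant -/
def u (S : Sd) : ℝ := √S.g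

theorem Ok.u0 (h : S.Ok) : 0 < S.u := Real.sqrt_pos.2 h.g0

theorem Ok.u_sq (h : S.Ok) : S.u ^ 2 = S.g := Real.sq_sqrt h.g0.le

theorem Ok.Qu (h : S.Ok) {i : ℕ} (hi : i ≤ 250) : S.Q ^ i * S.u ≤ 1 := by
  refine (mul_le_mul_of_nonneg_right (S.Qw hi) h.u0.le).trans (le_of_sq_le_sq ?_ zero_le_one)
  rw [mul_pow, h.u_sq, ← pow_mul, one_pow]
  exact h.Qg

theorem Ok.g_le_u (h : S.Ok) {i : ℕ} (hi : i ≤ 250) : S.Q ^ i * S.g ≤ S.u := by
  rw [← h.u_sq, sq, ← mul_assoc]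
  exact mul_le_of_le_one_left h.u0.le (h.Qu hi)

/-- the family of the fine fields -/
theorem fam (h : S.Nu 80) (k : S.TK) {lam : ℝ} (hp : PtC S.l S.r lam S.s) :
    Fam (nuI S.ζ) S.l S.p.R S.p'.R S.s S.u (S.Q * S.u) (S.Q ^ 2 * S.g) S.Gx := by
  have ex := h.exps
  have eK := h.K_ge
  have u0 := h.ok.u0
  have g0 := h.ok.g0
  have Q0 := S.Q0
  have L0 := L0 S.toTd
  have L8 := h.cL' (C := 100) (by norm_num)
  have D1 : (1 : ℝ) ≤ S.D0 := by exact_mod_cast D1 S.toTd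
  have n1 : 8 * (S.gt * S.L ^ (6 * S.c + 16) * S.ζ) ≤ S.Q ^ 2 * S.g :=
    calc _ = 8 * S.L ^ (6 * S.c + 16) * (S.D0 : ℝ) ^ 0 * S.Q * S.gt := by unfold ζ; ring
      _ ≤ S.Q * S.Q * S.g := by
        have := h.mon (C := 8) (i := 6 * S.c + 16) (j := 0) (by norm_num) (by omega) (by omega)
        have := h.ok.gt0
        gcongr
        exact h.ok.gt_le
      _ = _ := by ring
  have t1 : S.τ ≤ S.u := by
    simpa using (h.τ_g (i := 0) (j := 1) (by omega) (by omega)).trans (h.ok.g_le_u (i := 0) (by omega))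
  have hy := En.hy_pow k.ok.lin k.ok.r_ge k.ok.r_le (n := S.K0 + 2) (by omega)
  have p0 : ∀ i ≤ S.K0 + 2, S.L ^ i ≤ S.L ^ (S.K0 + 2) := fun i hi => pw _ hi
  have p2 : S.L ^ (S.K0 + 2) = S.L * S.L * S.D0 := by rw [D0_eq]; ring
  have p3 : (S.L ^ (S.K0 + 2)) ^ 48 ≤ S.Q := (pow_mul _ _ _).ge.trans (h.LQ (by omega))
  change En.Hy _ _ _ _ _ _ (S.L ^ _) at hy
  generalize S.L ^ (S.K0 + 2) = P at *
  have D2 : 100 * (S.D0 : ℝ) ≤ P := by rw [p2]; gcongr; nlinarith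
  have P1 : 100 ≤ P := by linarith
  have p1 : S.L ^ (8 * S.c + 24) * S.P ≤ P := (pow_add _ _ _).ge.trans (p0 _ (by omega))
  have q1 : ∀ i ≤ 47, 100 * (P ^ i * S.u) ≤ S.Q * S.u := fun i hi =>
    calc _ ≤ P * (P ^ 47 * S.u) := by gcongr; linarith
      _ = P ^ 48 * S.u := by ring
      _ ≤ _ := by gcongr
  have q2 : S.Q * S.u ≤ 1 := by simpa using h.ok.Qu (i := 1) (by omega)
  have := Nt.fam (d := P * S.u) (e := 2 * (P ^ 46 * S.u)) (R := S.p.R) (R' := S.p'.R) (ρ := S.u)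
    k.ok k.gr (fun d d0 d1 => k.sz d d0 ?_) hy hp ?_ h.ok.gt0 Q0 ?_ ?_
    (by linarith [q1 46 (by omega)]) ?_ u0.le ?_
  · refine this.mono le_rfl ?_ n1
    rw [p'_R]
    push_cast
    have := mul_le_mul_of_nonneg_right D2 (by positivity : 0 ≤ P ^ 46 * S.u)
    have := q1 47 le_rfl
    rw [pow_succ' P 46] at this
    linarith [show 0 ≤ S.D0 * (P ^ 46 * S.u) by positivity]
  · have h1 : 1 ≤ P * S.δ := h.le_δ.trans (mul_le_mul_of_nonneg_right (by linarith) h.δ0.le)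
    refine le_of_mul_le_mul_left (le_trans ?_ h1) (by linarith)
    nlinarith [q1 2 (by omega), mul_le_mul_of_nonneg_left d1 (by linarith : 0 ≤ P)]
  · have := mul_le_mul_of_nonneg_right h.r_le_L (by linarith : (0 : ℝ) ≤ S.D0)
    nlinarith [h.R_le, mul_le_mul_of_nonneg_right L8 (by positivity : (0 : ℝ) ≤ S.L * S.D0)]
  · have := mul_le_mul_of_nonneg_right (p0 (9 * S.c + 46) (by omega)) (by positivity : 0 ≤ P * S.u)
    change S.L ^ _ * _ ≤ _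
    nlinarith [q1 2 (by omega), show 0 ≤ P ^ 2 * S.u by positivity]
  · have h1 : P * (P * S.u + S.τ) ≤ P ^ 46 * S.u :=
      calc _ ≤ P * (P * S.u + P * S.u) := by gcongr; nlinarith
        _ = 2 * (P ^ 2 * S.u) := by ring
        _ ≤ P * (P ^ 45 * S.u) := by gcongr; exacts [by linarith, by linarith, by norm_num]
        _ = _ := by ring
    have h2 := mul_le_mul_of_nonneg_right p1 (by have := Nu.τ0 (S := S); positivity :
      0 ≤ P * S.u + S.τ)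
    change _ + S.L ^ _ * _ ≤ _
    nlinarith [pow_succ P 45]
  · have := h.lens
    have : S.p.R / LL S.l ≤ S.D0 := Nat.div_le_of_le_mul (by rw [p_R]; omega)
    change _ + (_ / LL S.l + 1) + 1 ≤ 4 * S.D0
    omega
  · have := h.ok.g_le_u (i := 2) (by omega)
    rw [p'_R]
    push_cast
    change _ + 2 * (_ * S.L ^ _ * S.ζ) ≤ _
    nlinarith [mul_le_mul_of_nonneg_right D2 u0.le]

/-- the pointwise contraction of the curvature -/
def lc0 (S : Sd) : ℝ := (S.r : ℝ) ^ 4 / (LL S.l * √(LL S.l))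

/-- what the push uses -/
structure Pu (S : Sd) : Prop where
  nu : S.Nu 80
  tk : S.TK
  grad : Grad S.l S.r ((S.r : ℝ) ^ S.c / LL S.l) S.s
  pt : PtC S.l S.r S.lc0 S.s
  cse : CsE S.l S.g S.s

end Sd

theorem ev_pu (c : ℕ) : ∀ᶠ S in ev c, S.Pu := by
  obtain ⟨c1, h1⟩ := cse_main c
  filter_upwards [ev_nu' c c1, ev_nu' c 80, tk c, ev_tok, ev_le ev_c] with S h h' k
    ⟨j, v, e, _, _, _, _, _, n⟩ hc
  have ex := h.exps
  refine ⟨h', k, n.grad, fun B δ hB => ?_, fun a δ ha R x => ?_⟩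
  · rw [Sd.lc0, div_mul_eq_mul_div]
    exact n.pt B δ hB
  · refine (h1 _ _ _ _ _ (by have := h.l_big; omega) Sd.Nu.τ0.le (hc ▸ n.lin) a δ ha R x).mono
      le_rfl (mul_le_mul_of_nonneg_right ?_ ha.nonneg)
    have := h'.mon (C := 16) (i := c1) (j := 0) (by norm_num) (by omega) (by omega)
    rw [pow_zero, mul_one] at this
    exact (mul_le_mul_of_nonneg_right this Sd.Nu.τ0.le).trans
      (by simpa using h.τ_g (i := 1) (j := 1) (by omega) (by omega))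

namespace Sd.Pu

variable {S : Sd} (h : S.Pu) {xb xk xr b : ℝ} {ψ ψ' : Lx} {B : Fld}
include h

theorem fam : Fam (nuI S.ζ) S.l S.p.R S.p'.R S.s S.u (S.Q * S.u) (S.Q ^ 2 * S.g) S.Gx :=
  Sd.fam h.nu h.tk h.pt

theorem rad : S.r / 3 + (S.p.R / LL S.l + 1) ≤ S.p'.R := by
  have := h.nu.lens
  have : S.p.R / LL S.l ≤ S.D0 := Nat.div_le_of_le_mul (by rw [p_R]; omega)
  rw [p'_R]
  omega

theorem ρ0 : 0 < S.p'.ρ := mul_pos (pow_pos S.Q0 3) h.nu.ok.g'0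

theorem ρ_le : S.p'.ρ ≤ 3 / 2 * S.p.ρ := by
  have := mul_le_mul_of_nonneg_left h.nu.ok.g'g (pow_pos S.Q0 3).le
  rw [p'_ρ]
  linarith [h.nu.ρ_ge]

theorem ρ_u : S.Q * S.p'.ρ ≤ S.u := by
  have h1 := mul_le_mul_of_nonneg_left h.nu.ok.g'g (pow_pos S.Q0 4).le
  have h2 := mul_le_mul_of_nonneg_right (h.nu.cQ' (C := 3 / 2) (by norm_num))
    (mul_pos (pow_pos S.Q0 4) h.nu.ok.g0).le
  have h3 := h.nu.ok.g_le_u (i := 5) (by omega)
  rw [p'_ρ]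
  rw [pow_succ' _ 4] at h3
  rw [pow_succ' _ 3] at h1 h2 h3
  linarith

/-- the contraction factors -/
theorem lc0_le : 0 < S.lc0 ∧ 1 ≤ S.L ^ 2 * S.lc0 ∧ 10 ^ 12 * (S.L ^ 4 * S.lc0 ^ 3) ≤ S.cs ∧
    10 ^ 4 * S.lc0 ≤ 1 := by
  have L1 := L1 S.toTd
  have r1 := h.nu.r1'
  have c0 := Nu.cs0 (S := S)
  have sq : √S.L * S.cs ^ 10 = 1 := by
    rw [← Real.sqrt_sq (pow_pos c0 10).le, ← Real.sqrt_mul (by linarith), ← pow_mul, mul_comm,
      Nu.cs_pow, Real.sqrt_one]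
  have s1 : 1 ≤ √S.L := Real.one_le_sqrt.2 L1
  have s2 : √S.L * √S.L = S.L := Real.mul_self_sqrt (by linarith)
  have e : S.lc0 = (S.r : ℝ) ^ 4 / (S.L * √S.L) := rfl
  have c1 : S.cs ≤ 1 := by simpa using h.nu.cs_le (k := 0) (by omega)
  refine ⟨by rw [e]; positivity, ?_, ?_, ?_⟩
  · rw [e, ← mul_div_assoc, le_div_iff₀ (by positivity)]
    nlinarith [one_le_pow₀ (n := 4) r1, mul_le_mul_of_nonneg_left (show √S.L ≤ S.L by nlinarith)
      (by linarith : 0 ≤ S.L)]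
  · have : S.L ^ 4 * S.lc0 ^ 3 = S.r ^ 12 * S.cs ^ 10 := by
      rw [e]
      field_simp
      linear_combination (-S.L) * sq - S.cs ^ 10 * √S.L * s2
    rw [this]
    calc _ ≤ S.r * (S.r ^ 12 * S.cs ^ 2) := by
          have := pow_le_pow_of_le_one c0.le c1 (by norm_num : 2 ≤ 10)
          have := h.nu.cr' (C := 10 ^ 12) (by norm_num)
          gcongr
      _ = S.r ^ 13 * S.cs * S.cs := by ring
      _ ≤ _ := mul_le_of_le_one_left c0.le (h.nu.cs_le (by omega))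
  · rw [e, ← mul_div_assoc, div_le_one (by positivity)]
    exact (h.nu.crL (by norm_num) (by omega)).trans (le_mul_of_one_le_right (by linarith) s1)

theorem dOne_le : dOne S.lc0 (S.Q * S.u) (S.Q ^ 2 * S.g) (3 * S.p'.ρ) ≤
    2000 * S.lc0 * S.p'.ρ := by
  obtain ⟨l0, l1, -, -⟩ := h.lc0_le
  have ρ0 := h.ρ0
  have u0 := h.nu.ok.u0
  have Q0 := S.Q0
  have g0 := h.nu.ok.g0
  have h1 : 10 ^ 8 * S.L ^ 2 ≤ S.Q := by
    simpa using h.nu.mon (C := 10 ^ 8) (i := 2) (j := 0) (by norm_num) (by have := h.nu.exps; omega)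
      (by omega)
  have h2 : 10 ^ 8 ≤ S.Q * S.lc0 := by nlinarith
  have h3 : 10 ^ 8 * (S.Q * S.u) ≤ S.lc0 :=
    calc _ ≤ S.Q * S.lc0 * (S.Q * S.u) := by gcongr
      _ = S.Q ^ 2 * S.u * S.lc0 := by ring
      _ ≤ _ := mul_le_of_le_one_left l0.le (h.nu.ok.Qu (by omega))
  have h4 : 10 ^ 8 * (S.Q ^ 2 * S.g) ≤ S.lc0 * S.p'.ρ :=
    calc _ ≤ S.Q * S.lc0 * (S.Q ^ 2 * S.g') := by gcongr; exact h.nu.ok.gg'
      _ = _ := by rw [p'_ρ]; ring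
  unfold dOne
  nlinarith [mul_le_mul_of_nonneg_right h3 ρ0.le, mul_pos l0 ρ0]

theorem eOne_le : eOne S.l S.lc0 (S.Q * S.u) (S.Q ^ 2 * S.g) S.u ≤ S.Q ^ 3 * S.u := by
  obtain ⟨l0, -, -, l1⟩ := h.lc0_le
  have u0 := h.nu.ok.u0
  have Q0 := S.Q0
  have h0 : S.Q * S.u ≤ S.Q ^ 2 * S.u :=
    mul_le_mul_of_nonneg_right (le_self_pow₀ S.Q1 (by norm_num)) u0.le
  have h1 : S.Q ^ 2 * S.g / S.u = S.Q ^ 2 * S.u := by
    rw [← h.nu.ok.u_sq, sq S.u, ← mul_assoc, mul_div_cancel_right₀ _ u0.ne']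
  have h2 := h.nu.ok.Qu (i := 2) (by omega)
  have h3 := h.nu.mong (C := 10 ^ 15) (k := 1) (i := 4) (j := 0) (by norm_num) (by omega)
    (by have := h.nu.exps; omega) (by omega)
  have := L0 S.toTd
  have := GD.cG_pos
  calc _ ≤ 2 * 10 ^ 13 * cG * S.L ^ 4 * (2 * (S.Q ^ 2 * S.u)) * 3 := by
        rw [eOne, h1]
        exact mul_le_mul (mul_le_mul_of_nonneg_left (by linarith) (by positivity)) (by linarith)
          (by positivity) (by positivity)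
    _ ≤ 10 ^ 15 * cG ^ 1 * S.L ^ 4 * (S.D0 : ℝ) ^ 0 * (S.Q ^ 2 * S.u) := by
        nlinarith [show 0 ≤ cG * S.L ^ 4 * (S.Q ^ 2 * S.u) by positivity]
    _ ≤ S.Q * (S.Q ^ 2 * S.u) := by gcongr
    _ = _ := by ring

theorem cpk_cs : ∃ r0, 1 ≤ r0 ∧ r0 ≤ S.l ∧
    cpk S.l S.r r0 6 ((S.r : ℝ) ^ S.c / LL S.l) S.lc0 ≤ S.cs := by
  obtain ⟨r0, h1, h2, h3⟩ := cpk_le (l := S.l) (c := S.c) h.nu.r_3.1 (by have := h.nu.l_big; omega)
  refine ⟨r0, h1, h2, h3.trans ?_⟩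
  have c0 := Nu.cs0 (S := S)
  have h4 : (S.L ^ (6⁻¹ : ℝ))⁻¹ ≤ S.cs * S.cs := by
    rw [cs, ← Real.rpow_add (L0 _), ← Real.rpow_neg (L0 _).le]
    exact Real.rpow_le_rpow_of_exponent_le (L1 _) (by norm_num)
  calc _ ≤ S.r ^ (S.c + 22) * (S.cs * S.cs) := mul_le_mul_of_nonneg_left h4 (by positivity)
    _ ≤ _ := by
      rw [← mul_assoc]
      exact mul_le_of_le_one_left c0.le (h.nu.cs_le (by have := h.nu.exps; omega))

theorem dOne_lt : dOne S.lc0 (S.Q * S.u) (S.Q ^ 2 * S.g) (3 * S.p'.ρ) < S.p.ρ := by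
  obtain ⟨l0, -, -, l1⟩ := h.lc0_le
  have := h.ρ0
  nlinarith [h.dOne_le, h.ρ_le]

/-- the fine fields stay in the domain of the small terms -/
theorem Gx_cv {x : St} (hx : x ∈ box S.l) (z : Lk → E3) (r : RealF B) (v : Cv S.p'.R (3 * S.p'.ρ) B) :
    RealF (S.Gx x z B) ∧ Cv S.p.R S.p.ρ (S.Gx x z B) := by
  have h1 : 3 * S.p'.ρ ≤ S.u := le_trans (mul_le_mul_of_nonneg_right (h.nu.cQ' (by norm_num))
    h.ρ0.le) h.ρ_u
  refine ⟨h.fam.real x hx z B r (v.mono le_rfl h1),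
    (h.fam.cv h.pt h.rad hx z v h1).mono le_rfl (le_trans ?_ h.dOne_lt.le)⟩
  have := h.lc0_le.1
  have := h.ρ0
  have := h.nu.ok.u0
  have := h.nu.ok.g0
  have := S.Q0
  unfold dOne
  nlinarith [show 0 ≤ S.lc0 * S.p'.ρ by positivity, show 0 ≤ S.Q * S.u * S.p'.ρ by positivity,
    show 0 ≤ S.Q ^ 2 * S.g by positivity]

theorem pz_le (hψ : ∀ x ∈ box S.l, ∀ B, RealF B → Cv S.p.R S.p.ρ B → ‖ψ x B‖ ≤ b) (B : Fld) :
    ‖S.pz ψ B‖ ≤ S.L ^ 4 * b := ctr_le h.ρ0.le (fun B r v => by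
  have := Smo.nuI_prob (ζ := S.ζ) S.Q0
  refine (norm_integral_le_of_norm_le_const (C := S.L ^ 4 * b) (ae_of_all _ fun z =>
    (norm_sum_le_of_le (n := fun _ => b) _ fun x hx => ?_).trans_eq ?_)).trans_eq (by simp)
  · have := h.Gx_cv hx z r (v.mono le_rfl (by linarith [h.ρ0]))
    exact hψ x hx _ this.1 this.2
  · simp [RG.card_box, Td.L, LL]) B

theorem pz_real (hψ : RealP S.p ψ) (B : Fld) : (S.pz ψ B).im = 0 :=
  ctr_real h.ρ0.le (fun B r v => by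
  refine Complex.conj_eq_iff_im.1 (integral_conj.symm.trans (integral_congr_ae (ae_of_all _ fun z =>
    Complex.conj_eq_iff_im.2 ?_)))
  have := fun x hx => h.Gx_cv (x := x) hx z r (v.mono le_rfl (by linarith [h.ρ0]))
  rw [sP, Complex.im_sum]
  exact sum_eq_zero fun x hx => hψ x _ (this x hx).1 (this x hx).2) B

theorem sP_int (hψ : ∀ x, Measurable (ψ x))
    (hb : ∀ x ∈ box S.l, ∀ B, RealF B → Cv S.p.R S.p.ρ B → ‖ψ x B‖ ≤ b) (r : RealF B)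
    (v : Cv S.p'.R (3 * S.p'.ρ) B) : Integrable (S.sP ψ (S.wB B)) (nuI S.ζ) := by
  have := Smo.nuI_prob (ζ := S.ζ) S.Q0
  have h1 : 3 * S.p'.ρ ≤ S.u := le_trans (mul_le_mul_of_nonneg_right (h.nu.cQ' (by norm_num))
    h.ρ0.le) h.ρ_u
  refine integrable_finsetSum _ fun x hx => .of_bound (C := b)
    ((hψ x).comp (h.fam.meas x hx B (v.mono le_rfl h1))).aestronglyMeasurable
    (ae_of_all _ fun z => hb x hx _ (h.Gx_cv hx z r v).1 (h.Gx_cv hx z r v).2)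

theorem pz_lin {b' : ℝ} (hψ : PU S.p b ψ) (hψ' : PU S.p b' ψ') (t : ℂ) (B : Fld) :
    S.pz (ψ + t • ψ') B = S.pz ψ B + t * S.pz ψ' B := ctr_lin h.ρ0.le (fun B r v => by
  obtain ⟨⟨_, _, _, m⟩, c⟩ := hψ
  obtain ⟨⟨_, _, _, m'⟩, c'⟩ := hψ'
  have v' := v.mono le_rfl (by linarith [h.ρ0] : _ ≤ 3 * S.p'.ρ)
  rw [pzr, pzr, pzr, ← integral_const_mul, ← integral_add
    (h.sP_int (fun x => (m x).2) (fun x _ => c x) r v')
    ((h.sP_int (fun x => (m' x).2) (fun x _ => c' x) r v').const_mul t)]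
  simp [sP, sum_add_distrib, mul_sum]) B

/-- the mean of the small terms -/
theorem pz_ps (hψ : ∀ x ∈ box S.l, Ps S.p.R 6 S.p.ρ xb xk xr (ψ x)) :
    Ps S.p'.R 6 S.p'.ρ (xb + (S.Q ^ 4 * S.u * (xb + xk) + S.cs * xr / S.p.ρ ^ 2))
      (S.r ^ 18 * xb + S.cs * xk + S.Q * (S.Q ^ 3 * S.u * (xb + xk) + xr / S.p.ρ ^ 2))
      (S.Q ^ 3 * S.u * (xb + xk) * S.p.ρ ^ 2 + S.cs * xr) (fun B => S.pz ψ B - S.pz ψ 0) ∧
    Measurable (S.pz ψ) ∧ ∀ a b d d', Cv 0 d a → Cv 0 d' b →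
      ‖qc (fun B => S.pz ψ B - S.pz ψ 0) a b - (S.L ^ 4)⁻¹ • ∑ x ∈ box S.l, qc (ψ x) a b‖ ≤
        (S.Q ^ 4 * S.u * (xb + xk) + S.cs * xr / S.p.ρ ^ 2) * d * d' := by
  have := Smo.nuI_prob (ζ := S.ζ) S.Q0
  obtain ⟨r0, h1, h2, h3⟩ := h.cpk_cs
  obtain ⟨l0, -, l2, -⟩ := h.lc0_le
  have ρ0 := h.ρ0
  have ρ1 := h.ρ_le
  have ρ2 : 0 < S.p.ρ := by linarith
  have u0 := h.nu.ok.u0
  have g0 := h.nu.ok.g0
  have Q0 := S.Q0
  have c0 := Nu.cs0 (S := S)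
  have c1 : S.cs ≤ 1 := by simpa using h.nu.cs_le (k := 0) (by omega)
  have L0 := L0 S.toTd
  have r1 := h.nu.r1'
  have ex := h.nu.exps
  obtain ⟨b0, k0, x0⟩ := (hψ 0 (zero_mem_box _)).nonneg ρ2
  have Q9 := h.nu.cQ' (C := 10 ^ 9) (by norm_num)
  obtain ⟨E, hE⟩ : ∃ E, E = S.Q ^ 3 * S.u * (xb + xk) := ⟨_, rfl⟩
  have E0 : 0 ≤ E := by rw [hE]; positivity
  have d0 : 0 ≤ dOne S.lc0 (S.Q * S.u) (S.Q ^ 2 * S.g) (3 * S.p'.ρ) := by
    unfold dOne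
    positivity
  have kp := h.fam.push_ps (E0 := E) (E1 := E) (E2 := S.cs * xr * (S.p'.ρ / S.p.ρ) ^ 3 / 100)
    (ρ' := 3 * S.p'.ρ) hψ h.tk.ok.lin h.grad (by positivity) h.pt l0.le h.cse h.nu.r_3.1 h1 h2 h.rad
    (by positivity) (by positivity) (by positivity) (by nlinarith [h.ρ_u]) h.dOne_lt
    (hE ▸ mul_le_mul_of_nonneg_right ?_ (by positivity))
    (hE ▸ mul_le_mul_of_nonneg_right h.eOne_le (by positivity)) ?_
  · obtain ⟨k1, k2⟩ := kp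
    obtain ⟨m1, m2, m3⟩ := k1.ctr ρ0
    have e1 : S.cs * xr * (S.p'.ρ / S.p.ρ) ^ 3 / 100 / (3 * S.p'.ρ) ^ 2 ≤ S.cs * xr / S.p.ρ ^ 2 :=
      calc _ = S.cs * xr / S.p.ρ ^ 2 * (S.p'.ρ / (900 * S.p.ρ)) := by field_simp; ring
        _ ≤ _ := mul_le_of_le_one_right (by positivity) ((div_le_one (by positivity)).2 (by linarith))
    have e2 : E + E ≤ S.Q ^ 4 * S.u * (xb + xk) := by
      rw [pow_succ' _ 3, mul_assoc, mul_assoc, ← mul_assoc (S.Q ^ 3), ← hE]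
      nlinarith
    rw [← hE]
    refine ⟨m1.mono' ρ0 (by linarith) (add_le_add (add_le_add ?_ (by gcongr)) ?_) ?_, m2,
      fun a b d d' ha hb => ?_⟩
    · rw [pow_succ' _ 17]
      gcongr
      exact h.nu.cr' (by norm_num)
    · refine mul_le_mul ?_ (add_le_add le_rfl (e1.trans ?_)) (by positivity) Q0.le
      · have D1 : (1 : ℝ) ≤ S.D0 := by exact_mod_cast D1 S.toTd
        refine le_trans ?_ (h.nu.mon (C := 2 * 5 ^ 12) (i := 0) (j := 12) (by norm_num) (by omega)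
          (by omega))
        rw [pow_zero, mul_one, mul_assoc, ← mul_pow, p'_R]
        push_cast
        gcongr
        linarith
      · gcongr
        exact mul_le_of_le_one_left x0 c1
    · have e3 : (S.p'.ρ / S.p.ρ) ^ 3 ≤ (3 / 2) ^ 3 :=
        pow_le_pow_left₀ (by positivity) ((div_le_iff₀ ρ2).2 ρ1) 3
      have e4 : 2 * 10 ^ 7 * E * (3 * S.p'.ρ) ^ 3 / S.u ≤ 27 * (E * S.p.ρ ^ 2) := by
        rw [div_le_iff₀ u0]
        calc _ = 27 * (E * (S.p'.ρ ^ 2 * (2 * 10 ^ 7 * S.p'.ρ))) := by ring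
          _ ≤ 27 * (E * ((3 / 2 * S.p.ρ) ^ 2 * (4 / 9 * S.u))) := by
            have : 2 * 10 ^ 7 * S.p'.ρ ≤ 4 / 9 * S.u := by
              linarith [h.ρ_u, mul_le_mul_of_nonneg_right Q9 ρ0.le]
            gcongr
          _ = _ := by ring
      nlinarith [mul_le_mul_of_nonneg_left e3 (by positivity : 0 ≤ S.cs * xr), mul_nonneg c0.le x0]
    · have := ha.nonneg
      have := hb.nonneg
      rw [qc, show q2 (fun B => S.pz ψ B - S.pz ψ 0) _ _ = _ from m3 _ _]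
      exact (k2 a b d d' ha hb).trans (by gcongr)
  · have h4 := h.nu.mon (C := 3) (i := 4) (j := 0) (by norm_num) (by omega) (by omega)
    have h5 := h.nu.ok.g_le_u (i := 1) (by omega)
    have h6 := h.nu.ok.g1
    calc _ ≤ S.L ^ 4 * S.g * 3 := by unfold Td.L; gcongr; linarith
      _ ≤ S.Q ^ 1 * S.g := by nlinarith
      _ ≤ _ := h5.trans (le_mul_of_one_le_left u0.le (one_le_pow₀ S.Q1))
  · calc _ ≤ S.L ^ 4 * (2000 * S.lc0 * S.p'.ρ / S.p.ρ) ^ 3 * xr := by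
          unfold Td.L
          gcongr
          exact h.dOne_le
      _ = 8 * 10 ^ 9 * (S.L ^ 4 * S.lc0 ^ 3) * (xr * (S.p'.ρ / S.p.ρ) ^ 3) := by ring
      _ ≤ S.cs / 100 * (xr * (S.p'.ρ / S.p.ρ) ^ 3) := by
          gcongr
          linarith [show 0 ≤ S.L ^ 4 * S.lc0 ^ 3 by positivity]
      _ = _ := by ring

theorem P_le : S.P ≤ S.Q := h.nu.LQ (by have := h.nu.exps; omega)

/-- the smoothed activity of a small polymer -/
theorem Fs_ps {X : Finset St} {K : Ac} {κ : ℝ} (hX : X ∈ S.X1s) (k : K1 S.nf X κ (K X ∅)) :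
    Ps S.p'.R 6 S.p'.ρ (S.Q ^ 13 * S.β * (κ / (dn S.l S.n X).card))
      (S.Q ^ 13 * S.β * (κ / (dn S.l S.n X).card)) (S.Q ^ 28 * (κ / (dn S.l S.n X).card))
      (fun B => S.Fs K X B - S.Fs K X 0) ∧ Measurable (S.Fs K X) := by
  have ρ0 := h.ρ0
  have g0 := h.nu.ok.g0
  have Q0 := S.Q0
  have κ0 := (norm_nonneg _).trans (k.bd 1)
  have c0 := X1_card hX
  have ex := h.nu.exps
  have e : S.β = (S.g ^ 2)⁻¹ := eq_inv_of_mul_eq_one_left h.nu.ok.βg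
  have h1 : S.g' ≤ 3 / 2 * S.g := h.nu.ok.g'g
  obtain ⟨m1, m2, -⟩ := ((Fsr_tb h.nu h.tk.ok h.tk.gr h.P_le hX k).ps (ρ := 3 * S.p'.ρ)
    (by positivity) ((div_le_self g0.le (one_le_pow₀ S.Q1)).trans (by
      nlinarith [h.nu.ok.gg', le_mul_of_one_le_left h.nu.ok.g'0.le (one_le_pow₀ (n := 3) S.Q1),
        S.p'_ρ])) (by positivity) (by linarith) 6).ctr ρ0
  refine ⟨(((m1.smul ρ0 ((dn S.l S.n X).card : ℂ)⁻¹).1.congr ρ0 fun B _ _ => by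
    rw [Fs, Fs]; ring).1).mono' ρ0 ?_ ?_ ?_, m2.div_const _⟩ <;>
    rw [norm_inv, Complex.norm_natCast]
  · calc _ = 4 * 10 ^ 11 * (S.Q ^ 12 * S.β * (κ / (dn S.l S.n X).card)) := by rw [e]; field_simp; ring
      _ ≤ S.Q * (S.Q ^ 12 * S.β * (κ / (dn S.l S.n X).card)) := by
        gcongr
        exacts [by rw [e]; positivity, h.nu.cQ' (by norm_num)]
      _ = _ := by ring
  · calc _ = 8 * 10 ^ 11 * (S.p'.R + 1) ^ 12 * (S.Q ^ 12 * S.β * (κ / (dn S.l S.n X).card)) := by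
          rw [e]; field_simp; ring
      _ ≤ S.Q * (S.Q ^ 12 * S.β * (κ / (dn S.l S.n X).card)) := by
        refine mul_le_mul_of_nonneg_right (le_trans ?_ (h.nu.mon (C := 10 ^ 12) (i := 1) (j := 12)
          (by norm_num) (by omega) (by omega))) (by rw [e]; positivity)
        have D1 : (1 : ℝ) ≤ S.D0 := by exact_mod_cast D1 S.toTd
        have := h.nu.cL' (C := 5 ^ 12) (by norm_num)
        calc _ ≤ 10 ^ 12 * (5 * (S.D0 : ℝ)) ^ 12 := by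
              rw [p'_R]
              push_cast
              gcongr <;> [norm_num; linarith]
          _ ≤ _ := by rw [mul_pow, pow_one, mul_assoc]; gcongr
      _ = _ := by ring
  · calc _ = 4 * 10 ^ 18 * (S.g' / S.g) ^ 3 * (S.Q ^ 27 * (κ / (dn S.l S.n X).card)) := by
          rw [p'_ρ]; field_simp; ring
      _ ≤ S.Q * (S.Q ^ 27 * (κ / (dn S.l S.n X).card)) := by
        refine mul_le_mul_of_nonneg_right (le_trans ?_ (h.nu.cQ' le_rfl)) (by positivity)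
        have := pow_le_pow_left₀ (div_pos h.nu.ok.g'0 g0).le ((div_le_iff₀ g0).2 h1) 3
        linarith
      _ = _ := by ring

end Sd.Pu

namespace Sd

variable {S : Sd} {a : ℕ} {k : Mj} {θ : ℝ}

theorem X1_meet (h : S.Ok) {X : Finset St} (hX : X ∈ S.X1s) : ∃ x ∈ box S.l, x ∈ X := by
  obtain ⟨x, h1, h2⟩ := mem_image.1 (mem_filter.1 hX).2.2
  have h3 := X1_dom hX h1
  rw [nf_half h.odd, Op.mem_fb] at h3
  rw [rc_eq h.odd h3] at h2
  exact ⟨x, fb_zero S.l ▸ Op.mem_fb.2 (h2 ▸ zero_mem_box 0), h1⟩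

/-- the total size of the small polymers which meet a block -/
theorem sum_X1 (u : S.Nu a) (hk : kN S.p S.nf k θ) (v : St) :
    ∑ X ∈ S.X1s, k (trS S.nf v X) ∅ ≤ θ / S.Q := by
  have hn := u.ok.odd_nf
  have Q0 := S.Q0
  have inj : Set.InjOn (fun x => rc S.nf (x + v)) (box (S.nf / 2) : Finset St) :=
    fun x hx y hy e => by
      simpa only [rc_add_rc, add_neg_cancel_right, rc_eq hn hx, rc_eq hn hy] using
        congrArg (fun z => rc S.nf (z + -v)) e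
  have h1 : ∀ x, (∑ X ∈ S.X1s with x ∈ X, k (trS S.nf v X) ∅) * S.QM ^ 2 ≤ θ := fun x => by
    refine le_trans ?_ (hk.2 (rc S.nf (x + v)))
    rw [sum_mul]
    refine le_trans (le_of_eq ?_) (sum_le_sum_of_subset_of_nonneg (s := (S.X1s.filter (x ∈ ·)).image
      fun X => (⟨trS S.nf v X, ∅⟩ : LP St)) (image_subset_iff.2 fun X hX => ?_)
      fun o _ _ => mul_nonneg (hk.1 _ _) (Real.exp_nonneg _))
    · rw [sum_image fun X hX Y hY e => (image_eq_image_iff_of_injOn inj (X1_dom (mem_filter.1 hX).1)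
        (X1_dom (mem_filter.1 hY).1)).1 (congrArg Sigma.fst e)]
      refine sum_congr rfl fun X hX => ?_
      simp [wgt, trS, tau_sh, (mem_filter.1 (mem_filter.1 hX).1).2.1, u.exp_a]
    · have h2 : rc S.nf (x + v) ∈ trS S.nf v X := mem_image_of_mem _ (mem_filter.1 hX).2
      exact mem_filter.2 ⟨mem_lps.2 ⟨image_subset_iff.2 fun y _ => rc_mem hn _, ⟨_, h2⟩,
        empty_mem_fams _⟩, h2⟩
  have h2 : ∑ X ∈ S.X1s, k (trS S.nf v X) ∅ ≤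
      ∑ x ∈ box S.l, ∑ X ∈ S.X1s with x ∈ X, k (trS S.nf v X) ∅ := by
    simp only [sum_filter]
    rw [sum_comm]
    refine sum_le_sum fun X hX => ?_
    obtain ⟨x, h3, h4⟩ := X1_meet u.ok hX
    refine le_trans (le_of_eq (if_pos h4).symm) (single_le_sum
      (f := fun x => if x ∈ X then k (trS S.nf v X) ∅ else 0) (fun y _ => ?_) h3)
    split_ifs
    exacts [hk.1 _ _, le_rfl]
  have h3 : S.Q ^ 2 ≤ S.QM ^ 2 := pow_le_pow_left₀ Q0.le u.ok.QQM 2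
  have θ0 : 0 ≤ θ := le_trans (mul_nonneg (sum_nonneg fun _ _ => hk.1 _ _) (sq_nonneg _)) (h1 0)
  refine h2.trans ((sum_le_card_nsmul _ _ (θ / S.Q ^ 2) fun x _ => (le_div_iff₀ (by positivity)).2
    ((mul_le_mul_of_nonneg_left h3 (sum_nonneg fun _ _ => hk.1 _ _)).trans (h1 x))).trans ?_)
  rw [RG.card_box, nsmul_eq_mul, ← mul_div_assoc, div_le_div_iff₀ (by positivity) Q0]
  have h4 : (((2 * S.l + 1) ^ 4 : ℕ) : ℝ) ≤ S.Q :=
    (Nat.cast_pow _ _).trans_le (u.LQ (by have := u.exps; omega))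
  nlinarith [mul_le_mul_of_nonneg_right h4 (mul_nonneg θ0 Q0.le)]

theorem k1y {K : Ac} (h : S.Ok) (hK : KM S.p S.nf k K) (y : St) {X : Finset St} (hX : X ∈ S.X1s) :
    K1 S.nf X (k (trS S.nf (up S.l y) X) ∅) (S.Ky K y X ∅) := hK.k1_tr h.odd_nf (X1_dom hX) _

/-- the smoothed activities of all small polymers -/
theorem Pu.Fs_sum (h : S.Pu) {K : Ac} (hK : KM S.p S.nf k K) (hk : kN S.p S.nf k θ) (y : St) :
    Ps S.p'.R 6 S.p'.ρ (S.Q ^ 12 * θ / S.g ^ 2) (S.Q ^ 12 * θ / S.g ^ 2) (S.Q ^ 27 * θ)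
      fun B => ∑ X ∈ S.X1s, (S.Fs (S.Ky K y) X B - S.Fs (S.Ky K y) X 0) := by
  have Q0 := S.Q0
  have β0 := h.nu.ok.β0
  have e : S.β = (S.g ^ 2)⁻¹ := eq_inv_of_mul_eq_one_left h.nu.ok.βg
  have h1 : ∑ X ∈ S.X1s, k (trS S.nf (up S.l y) X) ∅ / (dn S.l S.n X).card ≤ θ / S.Q :=
    (sum_le_sum fun X hX => div_le_self (hk.1 _ _) (X1_card hX)).trans (sum_X1 h.nu hk _)
  have h2 : ∑ X ∈ S.X1s, S.Q ^ 13 * S.β * (k (trS S.nf (up S.l y) X) ∅ / (dn S.l S.n X).card) ≤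
      S.Q ^ 12 * θ / S.g ^ 2 := (mul_sum _ _ _).ge.trans
    ((mul_le_mul_of_nonneg_left h1 (by positivity)).trans_eq (by rw [e]; field_simp))
  exact (Ps.sum S.X1s h.ρ0 fun X hX => (h.Fs_ps hX (k1y h.nu.ok hK y hX)).1).1.mono' h.ρ0 h2 h2
    ((mul_sum _ _ _).ge.trans ((mul_le_mul_of_nonneg_left h1 (by positivity)).trans_eq
      (by field_simp)))

end Sd

variable (c : ℕ)

theorem fam_gx : ∀ᶠ S in ev c,
    Fam (nuI S.ζ) S.l S.p.R S.p'.R S.s (√S.g) (S.Q * √S.g) (S.Q ^ 2 * S.g) S.Gx :=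
  (ev_pu c).mono fun _ h => h.fam

theorem fs_bd : ∀ᶠ S in ev c, ∀ k K, KM S.p S.nf k K → ∀ y, ∀ X ∈ S.X1s,
    Measurable (S.Fs (S.Ky K y) X) ∧ ∀ B, ‖S.Fs (S.Ky K y) X B‖ ≤
      2 * k (trS S.nf (up S.l y) X) ∅ / (dn S.l S.n X).card :=
  (ev_pu c).mono fun _ h _ _ hK y _ hX => ⟨(h.Fs_ps hX (Sd.k1y h.nu.ok hK y hX)).2,
    Sd.Fs_bd h.nu h.tk.ok h.tk.gr h.P_le hX (Sd.k1y h.nu.ok hK y hX)⟩

theorem x1_sum : ∀ᶠ S in ev c, ∀ k θ, kN S.p S.nf k θ → ∀ y,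
    ∑ X ∈ S.X1s, k (trS S.nf (up S.l y) X) ∅ ≤ S.L ^ 4 * θ :=
  (ev_nu' c 0).mono fun S h k θ hk y => by
    have h1 := Sd.sum_X1 h hk (up S.l y)
    have θ0 := (div_nonneg_iff.1 ((sum_nonneg fun _ _ => hk.1 _ _).trans h1)).elim And.left
      fun e => absurd S.Q0 e.2.not_gt
    exact h1.trans ((div_le_self θ0 S.Q1).trans
      (le_mul_of_one_le_left θ0 (one_le_pow₀ (Sd.L1 _))))

theorem pl_ps : ∀ᶠ S in ev c, ∀ xb xk xr θ k ψ K, PM S.p xb xk xr ψ → KM S.p S.nf k K →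
    kN S.p S.nf k θ →
      PM S.p' (xb + S.xd xb xk xr θ) (S.xk' xb xk xr θ) (S.xr' xb xk xr θ) (S.PL ψ K) ∧
      ∀ y a b d d', Cv 0 d a → Cv 0 d' b → ‖qc (S.PL ψ K y) a b -
        (S.L ^ 4)⁻¹ • ∑ x ∈ box S.l, qc (S.ψy ψ y x) a b‖ ≤ S.xd xb xk xr θ * d * d' := by
  filter_upwards [ev_pu c] with S h xb xk xr θ k ψ K hψ hK hk
  have ρ0 := h.ρ0
  have ρ2 : 0 < S.p.ρ := by linarith [h.ρ_le]
  obtain ⟨b0, k0, x0⟩ := (hψ 0).1.nonneg ρ2
  have a := fun y => h.pz_ps (ψ := S.ψy ψ y) fun x _ => (hψ _).1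
  have f := h.Fs_sum hK hk
  have u0 := h.nu.ok.u0
  have Q0 := S.Q0
  have θ0 : 0 ≤ θ := (mul_nonneg_iff_of_pos_left (pow_pos Q0 27)).1 ((f 0).nonneg ρ0).2.2
  have q1 : ∀ i ≤ 10, S.Q ^ i * S.u * (xb + xk) ≤ S.Q ^ 10 * √S.g * (xb + xk) := fun i hi => by
    have := S.Qw hi
    unfold Sd.u
    gcongr
  have q3 : S.Q ^ 12 * θ / S.g ^ 2 ≤ S.Q ^ 40 * θ / S.g ^ 2 := by
    have := S.Qw (by omega : 12 ≤ 40)
    gcongr
  have e1 : S.Q ^ 4 * S.u * (xb + xk) + S.cs * xr / S.p.ρ ^ 2 + S.Q ^ 12 * θ / S.g ^ 2 ≤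
      S.xd xb xk xr θ := add_le_add (add_le_add (q1 4 (by omega)) le_rfl) q3
  refine ⟨fun y => ⟨((a y).1.sub (f y) ρ0).1.mono' ρ0 (by linarith) ?_ ?_,
    ((a y).2.1.sub_const _).sub (Finset.measurable_fun_sum _ fun X hX =>
      (h.Fs_ps hX (Sd.k1y h.nu.ok hK y hX)).2.sub_const _)⟩, fun y a' b d d' ha hb => ?_⟩
  · have r1 := mul_le_mul_of_nonneg_right (pow_le_pow_right₀ h.nu.r1' (by omega : 18 ≤ 20)) b0
    have r2 := mul_le_mul_of_nonneg_right (S.Qw (by omega : 4 ≤ 40))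
      (by positivity : 0 ≤ S.u * (xb + xk))
    have r3 := mul_le_mul_of_nonneg_right (S.Qw (by omega : 1 ≤ 40))
      (by positivity : 0 ≤ xr / S.p.ρ ^ 2)
    rw [mul_div_assoc _ θ, mul_div_assoc _ θ] at q3
    unfold Sd.xk'
    rw [mul_div_assoc _ θ]
    unfold Sd.u at *
    linarith
  · exact add_le_add (add_le_add (mul_le_mul_of_nonneg_right (q1 3 (by omega)) (sq_nonneg _)) le_rfl)
      (mul_le_mul_of_nonneg_right (S.Qw (by omega)) θ0)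
  · have := ha.nonneg
    have := hb.nonneg
    rw [qc, show q2 (S.PL ψ K y) _ _ = _ from ((a y).1.sub (f y) ρ0).2 _ _, sub_right_comm]
    refine (norm_sub_le_of_le ((a y).2.2 a' b d d' ha hb) ((f y).cb a' b d d' ha hb)).trans ?_
    rw [← add_mul, ← add_mul]
    gcongr

theorem pl_lin : ∀ᶠ S in ev c, ∀ b b' k k' ψ ψ' K K' (t : ℂ), PU S.p b ψ → PU S.p b' ψ' →
    KM S.p S.nf k K → KM S.p S.nf k' K' →
      S.PL (ψ + t • ψ') (K + t • K') = S.PL ψ K + t • S.PL ψ' K' ∧ S.PL 0 0 = 0 ∧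
      ∀ y, S.Ey (ψ + t • ψ') (K + t • K') y =
        S.Ey ψ K y + t * (S.Ey ψ' K' y - S.Ey 0 0 y) := by
  filter_upwards [ev_pu c] with S h b b' k k' ψ ψ' K K' t ⟨⟨_, _, _, m⟩, v⟩ ⟨⟨_, _, _, m'⟩, v'⟩ hK hK'
  have e1 : ∀ y B, S.pz (S.ψy (ψ + t • ψ') y) B = S.pz (S.ψy ψ y) B + t * S.pz (S.ψy ψ' y) B :=
    fun y => h.pz_lin (ψ := S.ψy ψ y) (ψ' := S.ψy ψ' y) ⟨⟨_, _, _, fun _ => m _⟩, fun _ => v _⟩
      ⟨⟨_, _, _, fun _ => m' _⟩, fun _ => v' _⟩ t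
  have e2 : ∀ y B, ∑ X ∈ S.X1s, S.Fs (S.Ky (K + t • K') y) X B =
      ∑ X ∈ S.X1s, S.Fs (S.Ky K y) X B + t * ∑ X ∈ S.X1s, S.Fs (S.Ky K' y) X B := fun y B => by
    rw [mul_sum, ← sum_add_distrib]
    exact sum_congr rfl fun X hX => Sd.Fs_lin (Sd.k1y h.nu.ok hK y hX) (Sd.k1y h.nu.ok hK' y hX) t B
  have e3 : ∀ y B, S.pz (S.ψy 0 y) B = 0 := fun y B => norm_le_zero_iff.1
    ((h.pz_le (b := 0) (fun _ _ _ _ _ => norm_zero.le) B).trans_eq (mul_zero _))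
  have e4 : ∀ y B, ∑ X ∈ S.X1s, S.Fs (S.Ky 0 y) X B = 0 := fun y B =>
    sum_eq_zero fun X _ => Sd.Fs_zero rfl B
  refine ⟨?_, ?_, fun y => ?_⟩
  iterate 2 funext y B; simp only [Sd.PL, Sd.Pl, sum_sub_distrib, e1, e2, e3, e4, Pi.add_apply,
    Pi.smul_apply, Pi.zero_apply, smul_eq_mul]; ring
  simp only [Sd.Ey, Sd.cX, e1, e2, e3, e4]
  ring

end Pool.Agent.Lib.MP_7f377f_mp.RG.Q4
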