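import Pool.Agent.Lib.MP_7f377f_mp.G.Q4CalmE
import Pool.Agent.Lib.MP_7f377f_mp.G.Q4Def2
import Pool.Agent.Lib.MP_7f377f_mp.G.Q4FsB

/-! The factor of a calm block and the bounds of the marks. -/

noncomputable section

set_option linter.unusedSectionVars false
variable [Pool.Agent.Lib.MP_7f377f_mp.GD]

namespace Pool.Agent.Lib.MP_7f377f_mp.RG.Q4

open Finset Polynomial MeasureTheory

namespace Cm

variable {S : Sd} {b : ℝ} {U : Conf} {v : VB} {ψ : Lx} {x : St}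

namespace Hp

variable (h : Hp S) (c : S.Calm U v 0)
include h c

omit h in
theorem fq0 : Fq (S.p'.R + 1) S.p'.ε U := by simpa only [sh_zero] using c.fq (zero_mem_box _)

omit c in
theorem Af_ε : S.D0 * S.Q * S.g ≤ S.p'.ε := by
  have := h.g0
  have := S.Q0
  rw [Sd.p'_ε, sq]
  gcongr
  exacts [h.nu.D_le_Q, h.nu.ok.gg']

theorem Gw_eq : (S.Gw U v : ℂ) = (S.L ^ 4 : ℝ) *
    Complex.exp (-(S.β * ((LL S.l : ℂ) ^ 2 * ∑ μ, nz S.l μ (cC U (0, μ)) (cC (S.Uv U v))))) := by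
  have hl := h.nu.lens
  have e := h.nu.exps
  have R := S.R_eq
  have q0 := S.Q0
  have g0 := h.g0
  obtain ⟨g1, g2⟩ := (geo_out (ω := vo v) (h.nu.hy h.tok (n := S.c + 5) le_rfl) (R := 0)
    (fun _ => Sd.Uv_tree) ((fq0 c).mono (by omega) le_rfl) (fun f hf ht =>
      ⟨c.Uv_eq (by omega) hf ht, c.Af_le h.fo (by omega) f hf⟩) (by positivity) (h.Af_ε) (by
        rw [← pow_mul, Sd.p'_ε]
        exact (mul_le_mul_of_nonneg_right ((h.nu.LQ (by omega)).trans_eq (pow_one _).symm)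
          (mul_pos (pow_pos q0 2) h.nu.ok.g'0).le).trans (h.nu.ok.Qg'_le (by norm_num)))).2 0
            (zero_mem_box _)
  simp only [up_zero, sh_zero] at g1 g2
  have o0 := c.vo (zero_mem_box _)
  rw [Sd.Gw, g1, if_pos o0, Complex.ofReal_mul, Complex.ofReal_prod, mul_sum, mul_sum,
    ← sum_neg_distrib, Complex.exp_sum]
  refine congrArg _ (prod_congr rfl fun μ _ => ?_)
  rw [cC, (g2 μ o0 (c.vo (box_mono (by omega) (add_un_mem_box (zero_mem_box 0) μ)))).2, hk0, Td.L]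
  push_cast
  ring_nf

theorem Jk_eq : (S.Jk U v : ℂ) = ((NG * (S.gt ^ GD.d * zn S.zm)) ^ (ntr S.l).card *
    cHa ^ (ntr S.l).card : ℝ) * Complex.exp (-e4 S.l (S.t.As (cC U) + S.v0 (cC U) (vz S.l v))) := by
  have hl := h.nu.lens
  have m : ∀ t ∈ ntr S.l, t ∈ lbox (fb S.l 0) ∧ ¬ tree S.l t := fun t ht => by
    classical
    exact ⟨mem_fb_zero (mem_filter.1 ht).1, (mem_filter.1 ht).2⟩
  have h1 : ∀ t ∈ ntr S.l, ‖S.Af U (vz S.l v) t‖ ≤ 1 := fun t ht =>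
    ((c.Af_le h.fo (by omega) t (m t ht).1).trans (h.Af_ε)).trans
      (h.fo.size_ε.2.trans (by simpa using h.nu.ok.Qg'_le (i := 100) (j := 0) (by norm_num)))
  have e : ∀ t ∈ ntr S.l, (NG : ℝ) * th (vs S.l v t) (S.Af U (vz S.l v) t) *
      dH (S.Af U (vz S.l v) t) * (S.gt ^ GD.d * zn S.zm) =
      NG * (S.gt ^ GD.d * zn S.zm) * dH (S.Af U (vz S.l v) t) := fun t ht => by
    have h1 := h1 t ht
    rw [(c.vz (lbox_mono (Op.fb_mono _ (Nat.zero_le _)) (m t ht).1) (m t ht).2).2, th_zero,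
      if_pos (by nlinarith [norm_nonneg (S.Af U (vz S.l v) t)])]
    ring
  rw [Sd.Jk, if_pos (c.fr (a := 0) (by omega) (zero_mem_box _)), prod_congr rfl e, prod_mul_distrib,
    prod_const, Complex.ofReal_mul, dH_e4 (fun t ht => c.cE_Af h.fo (by omega) (m t ht).1)
      (fun t ht => (h1 t ht).trans_lt one_lt_two) fun t _ ht => by simp [S.t.As_tree _ ht, Sd.v0_tree ht], Complex.ofReal_mul, mul_assoc]

theorem Uv_fq (hx : x ∈ box S.l) : Fq (S.p.R + 1) S.p.ε (sh x (S.Uv U v)) := by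
  have hl := h.nu.lens
  have R := S.R_eq
  have := h.R_fb
  obtain ⟨U1, h1, h2⟩ := h.fine ((fq0 c).mono (by omega) le_rfl) (vz S.l v)
  have h3 : Agr (fb S.l (S.D0 / 2)) (S.Uv U v) U1 := fun e he =>
    cS_inj ((c.Uv h.fo (by omega) e he).trans (h1 e he).symm)
  exact ((fq_agr_iff (h3.mono (this.trans' (by omega) |>.trans (Op.fb_mono _ (by omega))))).2
    (h2.mono (show S.p.R + 1 + S.l ≤ _ by omega) le_rfl)).sh hx

theorem psi_eq (hψ : PU S.p b ψ) :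
    ∑ x ∈ box S.l, ψ x (Bx x (cC (S.Uv U v))) = S.sP ψ (cC U) (vz S.l v) :=
  sum_congr rfl fun x hx => by
    have hl := h.nu.lens
    obtain ⟨_, _, _, m⟩ := hψ.1
    obtain ⟨r, cv⟩ := cut_Bx (h.Uv_fq c hx) h.ε_le.2 1
    simp only [cS_one, adF_one, ← sh_cC, ← Bx_eq] at r cv
    rw [← Bx_agr_at (c.Uv h.fo (a := S.D0 / 4) (by omega)) hx h.R_fb]
    exact ((m x).1.loc _ _ r (Bx_real _ _) (cv.mono le_rfl h.ε_le.1) fun y hy μ ν =>
      dd_cut hy _ μ ν).symm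

theorem en_eq : en S.l S.m S.T (cC U) (cC (S.Uv U v)) =
    S.t.FF (cC U) 0 (S.t.As (cC U) + S.vH U (vz S.l v)) := by
  have hl := h.nu.lens
  rw [Nt.FF, up_zero, sh_zero, sh_zero]
  refine En.en_agr (by omega) h.tok.rng h.tok.tc.loc (fun _ _ => rfl) fun f hf => ?_
  rw [← En.fb_one] at hf
  rw [c.Uv h.fo (by omega) f hf, Sd.U0, Uz, Uz, Pi.add_apply, Pi.add_apply, c.vH (by omega) f hf]

theorem uu_eq : ∑ f ∈ lbox S.l, dot (cF (vz S.l v) f) (S.pol (pU S.N) U (cF (vz S.l v)) f) =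
    uu S (cC U) (vz S.l v) := sum_congr rfl fun f hf => by
  have hl := h.nu.lens
  rw [c.pol (a := 0) (natDegree_pU S.N) (by omega) f (mem_fb_zero hf)]
  by_cases ht : tree S.l f
  · simp [Td.pol0_tree ht, dot]
  · rw [c.zc (lbox_mono (Op.fb_mono _ (Nat.zero_le _)) (mem_fb_zero hf)) ht]

/-- the factor of the calm block at the origin -/
theorem calm0 (hψ : PU S.p b ψ) : S.Gn U v * ∏ x ∈ box S.l, Ix S.p (S.Φ ψ) (S.Uv U v) x =
    Complex.exp (S.dt0 (cC U) - S.β * (cx S.m1 (Bx 0 (cC U)) (Bx 0 (cC U)) + S.T1 (Bx 0 (cC U))) -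
      (S.s1 (cC U) (vz S.l v) + S.sT (cC U) (vz S.l v) + S.sP ψ (cC U) (vz S.l v))) := by
  have hl := h.nu.lens
  have e1 := en_id h.ok (cC U) (S.vH U (vz S.l v)) (S.r + 5) ((S.D0 : ℝ)⁻¹) S.m1
  rw [← h.en_eq c, Nt.rem3_agr h.ok (n := 0) (zero_mem_box _) (fun _ _ => rfl) (c.vH (by omega)),
    Nt.gv_agr h.ok (n := 0) (zero_mem_box _) (fun _ _ => rfl) (fun _ _ => rfl) (c.vH (by omega)),
    en] at e1
  have e2 : S.p0 / S.C0 * (S.L ^ 4 * ((NG * (S.gt ^ GD.d * zn S.zm)) ^ (ntr S.l).card *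
      cHa ^ (ntr S.l).card)) = 1 := by
    have := h.nu.ok.gt0
    have := cHa_pos
    have := zn_pos (S.Q0.trans_le h.nu.ok.ζ_zm)
    have := zn_pos (ζ := S.ζ) S.Q0
    have : 0 < (LL S.l : ℝ) := Sd.L0 S.toTd
    have := one_pos.trans_le NG_one
    simp only [Sd.p0, cgd, Sd.C0, Td.L, mul_pow, div_pow]
    field_simp
  have e3 : ∏ x ∈ box S.l, Ix S.p (S.Φ ψ) (S.Uv U v) x = Complex.exp (-(S.β * ∑ x ∈ box S.l,
      (cx S.m (Bx x (cC (S.Uv U v))) (Bx x (cC (S.Uv U v))) + S.T (Bx x (cC (S.Uv U v)))) +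
        S.sP ψ (cC U) (vz S.l v))) := by
    rw [← h.psi_eq c hψ, mul_sum, ← sum_add_distrib, ← sum_neg_distrib, Complex.exp_sum]
    exact prod_congr rfl fun x hx => by rw [Ix, chi, if_pos (h.Uv_fq c hx), one_mul, Sd.Φ]
  rw [e3, Sd.Gn, Complex.ofReal_mul, Complex.ofReal_mul, h.Gw_eq c, h.Jk_eq c, mul_mul_mul_comm,
    ← Complex.ofReal_mul, ← mul_assoc, ← Complex.ofReal_mul, e2, Complex.ofReal_one, one_mul,
    ← Complex.exp_add, ← Complex.exp_add, ← Complex.exp_add, Sd.Eg, h.uu_eq c, c.dt (by omega),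
    sT_eq, Sd.s1, gg, Td.T1]
  congr 1
  linear_combination -S.β * e1

end Hp

end Cm

open Cm

variable (c : ℕ)

theorem calm_id : ∀ᶠ S in ev c, ∀ b ψ K W v, PU S.p b ψ → ∀ y ∈ S.Λ', S.Calm W v y →
    S.Gn (sh y W) (shv y v) * S.Ib ψ ∅ (S.Uv W v) y =
      Complex.exp (S.cX (S.ψy ψ y) (S.Ky K y) - S.Φ' ψ K y (Bx y (cC W))) *
        (1 + S.fm (S.ψy ψ y) (sh y (cC W)) (sh (up S.l y) (vz S.l v))) *
        ∏ X ∈ S.X1s, Complex.exp (-S.Fs (S.Ky K y) X (Bx y (cC W))) := by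
  filter_upwards [ev_hp c] with S h b ψ K W v hψ y hy hc
  have c : S.Calm (sh y W) (shv y v) 0 := Sd.calm_sh.2 (by rwa [zero_add])
  have R := S.R_eq
  have e1 : S.Ib ψ ∅ (S.Uv W v) y =
      ∏ x ∈ box S.l, Ix S.p (S.Φ (S.ψy ψ y)) (S.Uv (sh y W) (shv y v)) x := by
    rw [Sd.Ib, filter_true_of_mem fun _ _ => notMem_empty _]
    refine prod_congr rfl fun x hx => ?_
    rw [Sd.Uv_sh, Ix, Ix, chi, chi, sh_sh, ← sh_cC, Bx_sh, Sd.Φ, Sd.Φ, Sd.ψy, trL,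
      rc_eq h.nu.ok.odd_nf (Mx.up_mem h.nu.ok.odd hy hx)]
  rw [e1, h.calm0 (ψ := S.ψy ψ y) c (pu_tr hψ _ _), Sd.fm, add_sub_cancel, ← Complex.exp_sum, ← Complex.exp_add,
    ← Complex.exp_add, Bx_eq y, ← Sd.vz_shv, sh_cC,
    h.dt0_ga (h.ga0 ((Hp.fq0 c).mono (by omega) le_rfl)), ← wB_Bx]
  simp only [Sd.cX, Sd.Φ', Sd.PL, Sd.Pl, Td.ol, sum_sub_distrib, sum_neg_distrib]
  congr 1
  ring

theorem mark_bd : ∀ᶠ S in ev c, ∀ b θ k ψ K, S.Sml b θ k ψ K → ∀ W v, Per S.n W →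
    ∀ Ω, ∀ m ∈ S.mks, (∀ y, m = .inl y → y ∉ Ω → S.Calm W v y) →
      ‖S.jm ψ K W v Ω m‖ ≤ S.wk b k m := by
  filter_upwards [ev_hp c, ev_rs c] with S h r b θ k ψ K s W v hW Ω m hm hc
  have g0 := h.g0
  have q0 := S.Q0
  have q1 := S.Q1
  have b0 := h.b0 s.pu
  rcases m with y | q | q | Z
  · simp only [Sd.jm, Sd.wk, Sd.θ1]
    split_ifs with hy
    · rw [norm_zero]; positivity
    · have c : S.Calm (sh y W) (shv y v) 0 := Sd.calm_sh.2 (by rw [zero_add]; exact hc y rfl hy)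
      exact (h.fm_le r (pu_tr s.pu _ _) s.b_le (Hp.fq0 c) _).trans (by gcongr; norm_num)
  · exact (h.oP_le _).trans (by simp only [Sd.wk]; gcongr; norm_num)
  · have hX : q.2 ∈ S.X1s := by
      simp only [Sd.mks, inr_mem_disjSum, inl_mem_disjSum, mem_product] at hm; exact hm.2
    have k0 := s.kn.1 (trS S.nf (up S.l q.1) q.2) ∅
    have c1 := Sd.X1_card hX
    have h1 : k (trS S.nf (up S.l q.1) q.2) ∅ ≤ θ / S.Q := (single_le_sum
      (f := fun X => k (trS S.nf (up S.l q.1) X) ∅) (fun _ _ => s.kn.1 _ _) hX).trans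
        (Sd.sum_X1 h.nu s.kn _)
    have h2 : 2 ≤ S.Q ^ 100 := (h.nu.cQ' (by norm_num)).trans (le_self_pow₀ q1 (by norm_num))
    have θ0 : 0 ≤ θ := (div_nonneg_iff.1 (k0.trans h1)).elim And.left fun e => absurd q0 e.2.not_gt
    simp only [Sd.jm, Sd.wk]
    split_ifs
    · rw [norm_zero]; positivity
    · refine (exp_le ((norm_neg _).trans_le (Sd.Fs_bd h.nu h.ok h.gr h.fo.PQ hX
        (s.km.k1_tr h.nu.ok.odd_nf (Sd.X1_dom hX) _) _)) ((div_le_self (by positivity) c1).trans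
          ?_)).trans_eq (by ring)
      linarith [s.θ_le, mul_le_mul_of_nonneg_right h2 θ0, div_le_self θ0 q1]
  · have hZ : Z ⊆ S.Λ' := by
      simp only [Sd.mks, inr_mem_disjSum, mem_erase, mem_powerset] at hm; exact hm.2
    exact (dmK_le (n := cu S.n) (W := cC W) h.fo.op h.fo.hδ (fun _ => h.nu.ok.odd) (Sd.H_per hW)
      (Sd.ka_per hW) (perV_cu.2 fun μ => by rw [sh_cC, hW μ]) (perV_cu.2 hW) hZ
        fun _ _ _ _ => h.fo.gk W _ :)

end Pool.Agent.Lib.MP_7f377f_mp.RG.Q4
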