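import Pool.Agent.Lib.MP_7f377f_mp.G.Q4PsD
import Pool.Agent.Lib.MP_7f377f_mp.G.Q4Tree

/-! Conversions into the class of small local terms; numerics of the contraction. -/

noncomputable section

set_option linter.unusedSectionVars false
variable [Pool.Agent.Lib.MP_7f377f_mp.GD]

namespace Pool.Agent.Lib.MP_7f377f_mp.RG.Q4

open Finset La La.Q

variable {R R' s : ℕ} {ρ ρ' σ σ0 C xb xk xr : ℝ} {m : BF} {T ψ : Fld → ℂ}

/-- a real form which is small on constant curvature -/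
theorem Df.ps (h : Df R σ m 0) (h0 : Cd σ0 m 0) (hs : ∀ a b, m a b = m b a) (s : ℕ) (hρ : 0 < ρ) :
    Ps R s ρ (32 * σ0) (4 * (R + 1 : ℝ) ^ (2 * s) * σ) 0 (fun B => cx m B B) ∧
      ∀ a b, q2 (fun B => cx m B B) a b = m a b := by
  have c : Cb R (2 * σ) m := bil hs fun a δ ha => by simpa using h a δ ha
  obtain ⟨g1, g2⟩ := c.ps hs s hρ
  refine ⟨⟨g1.toLA, g1.bil, fun a b δ δ' ha hb => ?_, fun a b δ δ' ha hb =>
    (g1.ck a b δ δ' ha hb).trans_eq (by ring), g1.jr⟩, g2⟩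
  rw [qc, g2, Complex.norm_real]
  simpa [cc_eq'] using cd_bil hs (fun _ _ => rfl) (cd_nonneg h0) h0 a b δ δ' ha hb

theorem Tc.la (h : Tc R ρ C T) (ρ' : ℝ) : LA R ρ' T :=
  ⟨fun A B _ _ _ e => h.loc A B e, fun u B _ _ _ => h.ad u B⟩

/-- cubic terms -/
theorem Tc.ps (h : Tc R ρ' C T) (hρ : 0 < ρ) (h1 : 40 * ρ ≤ ρ') (s : ℕ) :
    Ps R s ρ 0 0 (2 * 10 ^ 19 * C * ρ ^ 3) T ∧ ∀ a b, q2 T a b = 0 := by
  have p : 0 < ρ' := by linarith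
  have z : T 0 = 0 := by simpa using h.bd 0 0 (Ho.cv_zero R le_rfl) p.le
  have C0 : 0 ≤ C := nonneg_of_mul_nonneg_left ((norm_nonneg _).trans
    (h.bd 0 ρ' (Ho.cv_zero R p.le) le_rfl)) (by positivity)
  have := (tb_ball (h.la ρ') h.hol (fun B hB => h.bd B ρ' hB le_rfl) p.le).ps (by positivity)
    (by linarith) hρ (by linarith) s
  simp only [z, sub_zero] at this
  obtain ⟨g1, g2⟩ := this.cubic hρ p fun B d _ c hd => h.bd B d c hd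
  refine ⟨g1.mono' hρ le_rfl le_rfl ?_, g2⟩
  calc _ = 16 * 10 ^ 18 * (C * ρ ^ 3) := by field_simp; ring
    _ ≤ _ := by
      rw [mul_assoc _ C]
      exact mul_le_mul_of_nonneg_right (by norm_num) (by positivity)

theorem Ps.real_q2 (h : Ps R s ρ xb xk xr ψ) (hρ : 0 < ρ)
    (hr : ∀ B, RealF B → Cv R ρ B → (ψ B).im = 0) (a b : V) : (q2 ψ a b).im = 0 := by
  obtain ⟨g1, g2⟩ := h.elim
  have k1 := g2.1
  have c : Cc R (xb + xk) (ofB (reK g1)) := fun a b δ δ' ha hb => by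
    simpa using k1.cc.re a b δ δ' ha hb
  have := q2_of_bd (k := ofB (reK g1)) (ψ := ψ) (M := xr / ρ ^ 3)
    (fun a b => by simp [k1.symm a]) hρ (fun B d hB hd h1 => by
      have e : ψ B - qf (ofB (reK g1)) B = ((ψ B - qf g1 B).re : ℂ) := Complex.ext
        (by simp [qf]) (by simp [qf, hr B hB (hd.mono le_rfl h1)])
      rw [e, Complex.norm_real]
      exact (Complex.abs_re_le_norm _).trans ((g2.2.2.bd hB hd h1).trans_eq (by ring))) a b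
  simp [this]

/-- the contraction factor for the weight exponent six -/
theorem cpk_le {l r c : ℕ} (hr : 1000 ≤ r) (hl : 1 ≤ l) : ∃ r0, 1 ≤ r0 ∧ r0 ≤ l ∧
    cpk l r r0 6 ((r : ℝ) ^ c / LL l) ((r : ℝ) ^ 4 / (LL l * √(LL l))) ≤
      (r : ℝ) ^ (c + 22) / (LL l : ℝ) ^ (6⁻¹ : ℝ) := by
  obtain ⟨x, hx⟩ : ∃ x : ℝ, x = (LL l : ℝ) ^ (6⁻¹ : ℝ) := ⟨_, rfl⟩
  have L0 := LL_posR l
  have L1 : (1 : ℝ) ≤ LL l := by exact_mod_cast Li.LL_pos l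
  have x1 : 1 ≤ x := hx ▸ Real.one_le_rpow L1 (by norm_num)
  have x6 : (LL l : ℝ) = x ^ 6 := by
    rw [hx]; exact (Real.rpow_inv_natCast_pow L0.le (by norm_num)).symm
  have sq : √(LL l : ℝ) = x ^ 3 := by
    rw [x6, show x ^ 6 = (x ^ 3) ^ 2 by ring, Real.sqrt_sq (by positivity)]
  have r1 : (1000 : ℝ) ≤ r := by exact_mod_cast hr
  have f1 : 1 ≤ ⌊x⌋₊ := Nat.one_le_floor_iff _ |>.2 x1
  have f2 : (⌊x⌋₊ : ℝ) ≤ x := Nat.floor_le (by linarith)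
  have f3 : (1 : ℝ) ≤ ⌊x⌋₊ := by exact_mod_cast f1
  have f4 : x ≤ 2 * ⌊x⌋₊ := by linarith [Nat.lt_floor_add_one x]
  refine ⟨⌊x⌋₊, f1, ?_, ?_⟩
  · have h1 : ⌊x⌋₊ ^ 6 ≤ LL l := by
      have : (⌊x⌋₊ : ℝ) ^ 6 ≤ LL l := by rw [x6]; gcongr
      exact_mod_cast this
    by_contra hc
    have h2 : (l + 1) ^ 2 ≤ ⌊x⌋₊ ^ 6 := (Nat.pow_le_pow_left (by omega) 2).trans
      (Nat.pow_le_pow_right f1 (by norm_num))
    simp only [LL] at h1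
    nlinarith
  rw [cpk, ← hx, sq, x6]
  generalize (⌊x⌋₊ : ℝ) = y at *
  have a1 : (x ^ 6) ^ 2 * ((r : ℝ) ^ 4 / (x ^ 6 * x ^ 3)) * (r / y) ^ 6 ≤ 64 * r ^ 10 / x ^ 3 :=
    calc _ ≤ (x ^ 6) ^ 2 * ((r : ℝ) ^ 4 / (x ^ 6 * x ^ 3)) * (r / (x / 2)) ^ 6 := by
          gcongr; linarith
      _ = _ := by field_simp; ring
  have a2 : 36 * y * (2 * y + 1) ^ 2 * ((r : ℝ) ^ c / x ^ 6) * r ^ 6 ≤
      324 * r ^ (c + 10) / x ^ 3 :=
    calc _ ≤ 36 * x * (3 * x) ^ 2 * ((r : ℝ) ^ c / x ^ 6) * r ^ 10 := by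
          gcongr <;> [linarith; linarith; norm_num]
      _ = _ := by field_simp; ring
  have a3 : 64 * (r : ℝ) ^ 10 / x ^ 3 ≤ 64 * r ^ (c + 10) / x ^ 3 := by
    gcongr <;> [linarith; omega]
  have a4 : 9 * (2 * y + 1) ^ 2 * (r : ℝ) ^ (3 + 6) ≤ 81 * r ^ 10 * x ^ 2 :=
    calc _ ≤ 9 * (3 * x) ^ 2 * (r : ℝ) ^ 10 := by gcongr <;> [linarith; linarith; norm_num]
      _ = _ := by ring
  have a5 : 64 * (r : ℝ) ^ 10 / x ^ 3 ≤ 64 * r ^ 10 * x ^ 2 :=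
    (div_le_self (by positivity) (one_le_pow₀ x1)).trans
      (le_mul_of_one_le_right (by positivity) (one_le_pow₀ x1))
  calc _ ≤ 4 * (324 * r ^ (c + 10) / x ^ 3 + 2 * (64 * r ^ (c + 10) / x ^ 3)) *
        (81 * r ^ 10 * x ^ 2 + 64 * r ^ 10 * x ^ 2) :=
        mul_le_mul (by linarith) (add_le_add a4 (a1.trans a5)) (by positivity) (by positivity)
    _ = 262160 * (r : ℝ) ^ (c + 20) / x := by field_simp; ring
    _ ≤ r ^ 2 * (r : ℝ) ^ (c + 20) / x := by gcongr; nlinarith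
    _ = _ := by ring

end Pool.Agent.Lib.MP_7f377f_mp.RG.Q4
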