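import Pool.Agent.Lib.MP_7f377f_mp.G.Q4ExA

/-! Bounds for partition functions of labelled polymers. -/

noncomputable section

set_option linter.unusedSectionVars false
variable [Pool.Agent.Lib.MP_7f377f_mp.GD]

namespace Pool.Agent.Lib.MP_7f377f_mp.RG.Q4.En

open Finset Real

variable {σ : Type} [DecidableEq σ] {Λ : Finset σ} {K K' : Finset σ → Finset (Finset σ) → ℂ}
  {k d : Finset σ → Finset (Finset σ) → ℝ} {I J : σ → ℂ} {θ e : ℝ}

/-- norm of a majorant -/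
def Nm (Λ : Finset σ) (k : Finset σ → Finset (Finset σ) → ℝ) (θ : ℝ) : Prop :=
  ∀ x, ∑ o ∈ (lps Λ).filter (fun o => x ∈ o.1), k o.1 o.2 ≤ θ

theorem sum_lps (f : Finset σ → Finset (Finset σ) → ℝ) (x : σ) :
    ∑ o ∈ (lps Λ).filter (fun o => x ∈ o.1), f o.1 o.2 =
      ∑ X ∈ Λ.powerset.filter (fun X => x ∈ X), ∑ c ∈ fams X, f X c := by
  rw [sum_sigma']
  refine sum_congr (Finset.ext fun o => ?_) fun _ _ => rfl
  simp only [mem_filter, mem_lps, mem_sigma, mem_powerset]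
  exact ⟨fun h => ⟨⟨h.1.1, h.2⟩, h.1.2.2⟩, fun h => ⟨⟨h.1.1, ⟨x, h.1.2⟩, h.2⟩, h.1.2⟩⟩

theorem Nm.mono (h : Nm Λ k θ) (hd : ∀ o ∈ lps Λ, d o.1 o.2 ≤ k o.1 o.2) : Nm Λ d θ := fun x =>
  (sum_le_sum fun o ho => hd o (mem_filter.1 ho).1).trans (h x)

/-- a background factor is taken out -/
theorem ZL_fac (hJ : ∀ y ∈ Λ, J y ≠ 0) : ZL Λ K (fun y => J y * I y) =
    (∏ y ∈ Λ, J y) * ZL Λ (fun X c => K X c * ∏ y ∈ c.biUnion id, (J y)⁻¹) I := by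
  rw [ZL, ZL, Zp, Zp, mul_sum]
  refine sum_congr rfl fun 𝒳 h => ?_
  obtain ⟨a1, -, a3⟩ := mem_fams.1 h
  rw [← prod_sdiff (f := J) (biUnion_subset.2 a1 : 𝒳.biUnion id ⊆ Λ), prod_biUnion a3,
    prod_mul_distrib, mul_comm (∏ y ∈ Λ \ 𝒳.biUnion id, J y) (∏ X ∈ 𝒳, ∏ y ∈ id X, J y),
    mul_mul_mul_comm, ← prod_mul_distrib (s := 𝒳)]
  congr 1
  refine prod_congr rfl fun X hX => ?_
  rw [mul_sum]
  refine sum_congr rfl fun c hc => ?_
  have : ∏ y ∈ c.biUnion id, J y ≠ 0 := prod_ne_zero_iff.2 fun y hy => hJ y (a1 X hX (fams_sub hc hy))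
  rw [id, ← prod_sdiff (f := J) (fams_sub hc), prod_mul_distrib, prod_inv_distrib]
  field_simp

/-- the activity of a polymer -/
def act (Λ : Finset σ) (K : Finset σ → Finset (Finset σ) → ℂ) (I : σ → ℂ) (X : Finset σ) : ℂ :=
  if X ⊆ Λ ∧ X.Nonempty then ∑ c ∈ fams X, K X c * ∏ y ∈ X \ c.biUnion id, I y else 0

def maj (Λ : Finset σ) (k : Finset σ → Finset (Finset σ) → ℝ) (X : Finset σ) : ℝ :=
  if X ⊆ Λ ∧ X.Nonempty then ∑ c ∈ fams X, k X c else 0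

theorem ZL_act : ZL Λ K I = Zp Λ (act Λ K I) (fun y => if y ∈ Λ then I y else 0) :=
  Zp_congr (fun _ a b => (if_pos ⟨a, b⟩).symm) fun _ h => (if_pos h).symm

theorem act_le (hI : ∀ y ∈ Λ, ‖I y‖ ≤ 1) (hK : ∀ o ∈ lps Λ, ‖K o.1 o.2‖ ≤ k o.1 o.2) (X : Finset σ) :
    ‖act Λ K I X‖ ≤ maj Λ k X := by
  unfold act maj
  split_ifs with h
  · refine norm_sum_le_of_le _ fun c hc => ?_
    rw [norm_mul, norm_prod]
    exact (mul_le_of_le_one_right (norm_nonneg _) (prod_le_one (fun _ _ => norm_nonneg _)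
      fun y hy => hI y (h.1 (mem_sdiff.1 hy).1))).trans (hK ⟨X, c⟩ (mem_lps.2 ⟨h.1, h.2, hc⟩))
  · simp

theorem maj_sum {f : Finset σ → ℝ} (h : Nm Λ (fun X c => k X c * f X) θ) (x : σ) :
    ∑ X ∈ Λ.powerset.filter (fun X => x ∈ X), maj Λ k X * f X ≤ θ := by
  refine le_trans (le_of_eq ?_) (h x)
  rw [sum_lps (fun X c => k X c * f X)]
  refine sum_congr rfl fun X hX => ?_
  obtain ⟨a, b⟩ := mem_filter.1 hX
  rw [maj, if_pos ⟨mem_powerset.1 a, x, b⟩, sum_mul]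

theorem ZL_le (hI : ∀ y ∈ Λ, ‖I y‖ ≤ 1) (hK : ∀ o ∈ lps Λ, ‖K o.1 o.2‖ ≤ k o.1 o.2)
    (h : Nm Λ k θ) : ‖ZL Λ K I‖ ≤ exp (θ * Λ.card) := by
  rw [ZL_act]
  refine Zp_bound Λ _ _ (maj Λ k) (fun y => ?_) (act_le hI hK) fun x => ?_
  · split_ifs with h
    exacts [hI y h, by simp]
  · simpa using maj_sum (f := fun _ => 1) (by simpa using h) x

theorem sum_pow_le {w : Finset σ → ℝ} (h0 : ∀ X ⊆ Λ, 0 ≤ w X) (he : w ∅ = 0)
    (h : ∀ x, ∑ X ∈ Λ.powerset.filter (fun X => x ∈ X), w X ≤ θ) :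
    ∑ X ∈ Λ.powerset, w X ≤ θ * Λ.card := by
  calc _ ≤ ∑ X ∈ Λ.powerset, ∑ x ∈ Λ, if x ∈ X then w X else 0 := sum_le_sum fun X hX => by
        have a := mem_powerset.1 hX
        rcases X.eq_empty_or_nonempty with rfl | ⟨x, hx⟩
        · simp [he]
        · exact le_trans (if_pos hx).ge (single_le_sum (f := fun x => if x ∈ X then w X else 0)
            (fun _ _ => by split_ifs; exacts [h0 X a, le_rfl]) (a hx))
    _ ≤ ∑ _x ∈ Λ, θ := by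
        rw [sum_comm]
        exact sum_le_sum fun x _ => by rw [← sum_filter]; exact h x
    _ = _ := by simp [mul_comm]

/-- comparison of two real partition functions -/
theorem ZL_cmp {θ' : ℝ} (e0 : 0 < e) (e1 : e ≤ 1) (hθ : 2 * θ ≤ e)
    (hK : ∀ o ∈ lps Λ, ‖K o.1 o.2‖ ≤ k o.1 o.2 ∧ ‖K' o.1 o.2‖ ≤ k o.1 o.2 ∧
      ‖K' o.1 o.2 - K o.1 o.2‖ ≤ d o.1 o.2 ∧ (K o.1 o.2).im = 0 ∧ (K' o.1 o.2).im = 0)
    (h : Nm Λ (fun X c => k X c * exp (e * X.card)) θ)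
    (h' : Nm Λ (fun X c => d X c * exp (e * X.card)) θ') :
    (ZL Λ K 1).im = 0 ∧ (ZL Λ K' 1).im = 0 ∧ 0 < (ZL Λ K 1).re ∧ 0 < (ZL Λ K' 1).re ∧
      |log (ZL Λ K' 1).re - log (ZL Λ K 1).re| ≤ 2 * θ' * Λ.card := by
  have a : ∀ K : Finset σ → Finset (Finset σ) → ℂ, ZL Λ K 1 = Zp Λ (act Λ K 1) 1 := fun K =>
    Zp_congr (fun _ a b => (if_pos ⟨a, b⟩).symm) fun _ _ => rfl
  have r : ∀ K : Finset σ → Finset (Finset σ) → ℂ, (∀ o ∈ lps Λ, (K o.1 o.2).im = 0) → ∀ X,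
      (act Λ K 1 X).im = 0 := fun K hK X => by
    unfold act
    split_ifs with h
    · rw [Complex.im_sum]
      exact sum_eq_zero fun c hc => by simpa using hK ⟨X, c⟩ (mem_lps.2 ⟨h.1, h.2, hc⟩)
    · rfl
  have o : ∀ y ∈ Λ, ‖(1 : σ → ℂ) y‖ ≤ 1 := by simp
  have s : ∀ X, act Λ K' 1 X - act Λ K 1 X = act Λ (fun X c => K' X c - K X c) 1 X := fun X => by
    unfold act
    split_ifs
    · simp only [← sum_sub_distrib, sub_mul]
    · simp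
  have z : (ZL Λ K 1).im = 0 := by
    rw [a, Zp, Complex.im_sum]
    refine sum_eq_zero fun 𝒳 _ => ?_
    simp only [Pi.one_apply, prod_const_one, mul_one]
    exact prod_induction _ (fun z : ℂ => z.im = 0) (fun a b ha hb => by simp [ha, hb]) rfl
      fun X _ => r K (fun o ho => (hK o ho).2.2.2.1) X
  obtain ⟨ζ, -, hζ⟩ := dobrushin Λ (fun _ => act Λ K 1) (fun _ => act Λ K' 1) (maj Λ k) (maj Λ d)
    isOpen_univ e0 e1 (fun _ => differentiableOn_const _) (fun _ => differentiableOn_const _)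
    (fun _ _ X => ⟨act_le o (fun o ho => (hK o ho).1) X, act_le o (fun o ho => (hK o ho).2.1) X,
      s X ▸ act_le o (fun o ho => (hK o ho).2.2.1) X⟩) fun x => (maj_sum h x).trans (by linarith)
  obtain ⟨h1, h2, -, h4⟩ := hζ 0 trivial
  obtain ⟨h5, h6⟩ := h4 fun X => ⟨r K (fun o ho => (hK o ho).2.2.2.1) X,
    r K' (fun o ho => (hK o ho).2.2.2.2) X⟩
  rw [← a, ← a] at h1
  rw [← a] at h6
  have h7 : (ZL Λ K' 1).re = (ZL Λ K 1).re * exp (ζ 0).re := by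
    simp [h1, z, Complex.exp_re, h5]
  refine ⟨z, by simp [h1, z, Complex.exp_im, h5], h6, by rw [h7]; positivity, ?_⟩
  rw [h7, log_mul h6.ne' (exp_pos _).ne', log_exp, add_sub_cancel_left, mul_assoc]
  refine (Complex.abs_re_le_norm _).trans (h2.trans (mul_le_mul_of_nonneg_left
    (sum_pow_le (fun X _ => mul_nonneg ((norm_nonneg _).trans
      (s X ▸ act_le o (fun o ho => (hK o ho).2.2.1) X)) (exp_pos _).le) (by simp [maj])
      (maj_sum h')) zero_le_two))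

theorem ZL_zero (Λ : Finset σ) : ZL Λ (fun _ _ => 0) 1 = 1 := by
  rw [ZL, Zp, sum_eq_single_of_mem ∅ (empty_mem_fams Λ)]
  · simp
  · intro 𝒳 _ h
    obtain ⟨X, hX⟩ := nonempty_iff_ne_empty.2 h
    rw [prod_eq_zero hX (by simp), zero_mul]

/-- the logarithm of a real partition function -/
theorem ZL_log (e0 : 0 < e) (e1 : e ≤ 1) (hθ : 2 * θ ≤ e)
    (hK : ∀ o ∈ lps Λ, ‖K o.1 o.2‖ ≤ k o.1 o.2 ∧ (K o.1 o.2).im = 0)
    (h : Nm Λ (fun X c => k X c * exp (e * X.card)) θ) :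
    (ZL Λ K 1).im = 0 ∧ 0 < (ZL Λ K 1).re ∧ |log (ZL Λ K 1).re| ≤ 2 * θ * Λ.card := by
  have := ZL_cmp (K := fun _ _ => 0) (K' := K) e0 e1 hθ (fun o ho => ⟨by
    simpa using (norm_nonneg _).trans (hK o ho).1, (hK o ho).1, by simpa using (hK o ho).1, rfl,
      (hK o ho).2⟩) h h
  rw [ZL_zero] at this
  exact ⟨this.2.1, this.2.2.2.1, by simpa using this.2.2.2.2⟩

theorem ZL_diff {Ω : Set ℂ} {K : ℂ → Finset σ → Finset (Finset σ) → ℂ} {I : ℂ → σ → ℂ}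
    (hK : ∀ X c, DifferentiableOn ℂ (K · X c) Ω) (hI : ∀ y, DifferentiableOn ℂ (I · y) Ω) :
    DifferentiableOn ℂ (fun s => ZL Λ (K s) (I s)) Ω :=
  .fun_sum fun _ _ => (DifferentiableOn.fun_finsetProd fun X _ => .fun_sum fun c _ =>
    (hK X c).fun_mul (.fun_finsetProd fun y _ => hI y)).fun_mul (.fun_finsetProd fun y _ => hI y)

end Pool.Agent.Lib.MP_7f377f_mp.RG.Q4.En
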