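import Pool.Agent.Lib.MP_7f377f_mp.G.Q4Kit

/-! Cubes: the algebra of finite difference jets. -/

noncomputable section

set_option linter.unusedSectionVars false
variable [Pool.Agent.Lib.MP_7f377f_mp.GD]

namespace Pool.Agent.Lib.MP_7f377f_mp.RG.Q4

open Finset

section diff
variable {E E' E'' : Type} [AddCommGroup E] [AddCommGroup E'] [AddCommGroup E'']

@[simp] theorem dS_empty (f : Vx → E) (T : Vx) : dS ∅ f T = f T := by simp [dS]

theorem dS_insert {i : Fin 3} {S : Finset (Fin 3)} (hi : i ∉ S) (f : Vx → E) (T : Vx) :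
    dS (insert i S) f T =
      dS S f (Function.update T i true) - dS S f (Function.update T i false) := by
  simp only [dS]
  rw [sum_powerset_insert hi, ← sum_sub_distrib, ← sum_add_distrib]
  refine sum_congr rfl fun S' hS' => ?_
  have hs := mem_powerset.1 hS'
  have hi' : i ∉ S' := fun h => hi (hs h)
  have hc := card_le_card hs
  have e1 : (fun j => if j ∈ insert i S then decide (j ∈ S') else T j) =
      fun j => if j ∈ S then decide (j ∈ S') else Function.update T i false j := by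
    funext j
    by_cases h : j = i
    · subst h; simp [hi, hi']
    · simp [h]
  have e2 : (fun j => if j ∈ insert i S then decide (j ∈ insert i S') else T j) =
      fun j => if j ∈ S then decide (j ∈ S') else Function.update T i true j := by
    funext j
    by_cases h : j = i
    · subst h; simp [hi]
    · simp [h]
  rw [e1, e2, card_insert_of_notMem hi, card_insert_of_notMem hi', Nat.add_sub_add_right,
    Nat.succ_sub hc, pow_succ]
  simp only [mul_neg, mul_one, neg_smul]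
  abel

theorem dS_single (i : Fin 3) (f : Vx → E) (T : Vx) :
    dS {i} f T = f (Function.update T i true) - f (Function.update T i false) := by
  have := dS_insert (notMem_empty i) f T
  simpa using this

theorem dS_map (L : E →+ E') (S : Finset (Fin 3)) (f : Vx → E) (T : Vx) :
    dS S (fun T => L (f T)) T = L (dS S f T) := by simp [dS, map_sum]

theorem dS_add (S : Finset (Fin 3)) (f g : Vx → E) (T : Vx) :
    dS S (fun T => f T + g T) T = dS S f T + dS S g T := by simp [dS, sum_add_distrib]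

theorem dS_neg (S : Finset (Fin 3)) (f : Vx → E) (T : Vx) :
    dS S (fun T => -f T) T = -dS S f T := by simp [dS]

theorem dS_sub (S : Finset (Fin 3)) (f g : Vx → E) (T : Vx) :
    dS S (fun T => f T - g T) T = dS S f T - dS S g T := by
  simp [dS, smul_sub, sum_sub_distrib]

theorem dS_const {S : Finset (Fin 3)} (hS : S ≠ ∅) (c : E) (T : Vx) : dS S (fun _ => c) T = 0 := by
  obtain ⟨i, hi⟩ := nonempty_iff_ne_empty.2 hS
  rw [← insert_erase hi, dS_insert (notMem_erase i S)]
  simp [dS]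

theorem dS_sub_const {S : Finset (Fin 3)} (hS : S ≠ ∅) (f : Vx → E) (c : E) (T : Vx) :
    dS S (fun T => f T - c) T = dS S f T := by
  rw [dS_sub, dS_const hS, sub_zero]

/-- the vertex `T` with the coordinates in `S` set to `b` -/
def stv (S : Finset (Fin 3)) (b : Bool) (T : Vx) : Vx := fun i => if i ∈ S then b else T i

/-- the Leibniz rule -/
theorem dS_leibniz (k : E →+ E' →+ E'') (f : Vx → E) (g : Vx → E') (S : Finset (Fin 3)) (T : Vx) :
    dS S (fun T => k (f T) (g T)) T =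
      ∑ S1 ∈ S.powerset, k (dS S1 f (stv S false T)) (dS (S \ S1) g (stv S true T)) := by
  induction S using Finset.induction_on generalizing T with
  | empty =>
    have e : ∀ b, stv ∅ b T = T := fun b => by funext i; simp [stv]
    simp [e]
  | insert i S hi ih =>
    have e1 : ∀ b c, Function.update (stv (insert i S) b T) i c =
        stv S b (Function.update T i c) := fun b c => by
      funext j
      by_cases h : j = i
      · subst h; simp [stv, hi]
      · simp [stv, h]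
    have e2 : ∀ b, stv (insert i S) b T = stv S b (Function.update T i b) := fun b => by
      rw [← e1]
      funext j
      by_cases h : j = i
      · subst h; simp [stv]
      · simp [h]
    rw [dS_insert hi, ih, ih, sum_powerset_insert hi, ← sum_sub_distrib, ← sum_add_distrib]
    refine sum_congr rfl fun S1 hS1 => ?_
    have hs := mem_powerset.1 hS1
    have hi1 : i ∉ S1 := fun h => hi (hs h)
    have hi2 : i ∉ S \ S1 := fun h => hi (mem_sdiff.1 h).1
    have e3 : insert i S \ S1 = insert i (S \ S1) := insert_sdiff_of_notMem S hi1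
    have e4 : insert i S \ insert i S1 = S \ S1 := by
      rw [insert_sdiff_insert, sdiff_insert_of_notMem hi]
    rw [e3, e4, dS_insert hi1, dS_insert hi2, e1, e1, e1, e1, e2, e2]
    simp only [map_sub, AddMonoidHom.sub_apply]
    abel

end diff

variable {A B : Type} [NormedAddCommGroup A] [NormedAddCommGroup B] {η : Fin 3 → ℝ} {η0 : ℝ}

/-- size of the mixed differences in the directions `S` -/
def sN (S : Finset (Fin 3)) (f : Vx → A) : ℝ := ⨆ T, ‖dS S f T‖

theorem cN_eq (f : Vx → A) : cN η f = ∑ S : Finset (Fin 3), sN S f / ∏ i ∈ S, η i := rfl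

theorem le_sN (S : Finset (Fin 3)) (f : Vx → A) (T : Vx) : ‖dS S f T‖ ≤ sN S f :=
  le_ciSup (f := fun T => ‖dS S f T‖) (Finite.bddAbove_range _) T

theorem sN_le {S : Finset (Fin 3)} {f : Vx → A} {c : ℝ} (h : ∀ T, ‖dS S f T‖ ≤ c) : sN S f ≤ c :=
  ciSup_le h

theorem sN_nonneg (S : Finset (Fin 3)) (f : Vx → A) : 0 ≤ sN S f :=
  (norm_nonneg _).trans (le_sN S f o3)

theorem Eta.pos (h : Eta η0 η) (S : Finset (Fin 3)) : 0 < ∏ i ∈ S, η i :=
  prod_pos fun i _ => (h i).1

theorem Eta.mono (h : Eta η0 η) {η1 : ℝ} (h1 : η0 ≤ η1) : Eta η1 η :=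
  fun i => ⟨(h i).1, (h i).2.trans h1⟩

theorem sN_div_nonneg (h : Eta η0 η) (S : Finset (Fin 3)) (f : Vx → A) :
    0 ≤ sN S f / ∏ i ∈ S, η i := div_nonneg (sN_nonneg S f) (h.pos S).le

/-- termwise bound for the norm of a cube -/
theorem cN_le_sum (h : Eta η0 η) {f : Vx → A} {c : Finset (Fin 3) → ℝ}
    (hc : ∀ S T, ‖dS S f T‖ ≤ c S * ∏ i ∈ S, η i) : cN η f ≤ ∑ S, c S :=
  sum_le_sum fun S _ => (div_le_iff₀ (h.pos S)).2 (sN_le (hc S))

theorem cN_le_of (h : Eta η0 η) {f : Vx → A} {c : ℝ}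
    (hc : ∀ S T, ‖dS S f T‖ ≤ c * ∏ i ∈ S, η i) : cN η f ≤ 8 * c := by
  simpa using cN_le_sum h (c := fun _ => c) hc

theorem cN_nonneg (h : Eta η0 η) (f : Vx → A) : 0 ≤ cN η f :=
  sum_nonneg fun S _ => sN_div_nonneg h S f

theorem sN_le_cN (h : Eta η0 η) (f : Vx → A) (S : Finset (Fin 3)) :
    sN S f ≤ cN η f * ∏ i ∈ S, η i :=
  (div_le_iff₀ (h.pos S)).1
    (single_le_sum (f := fun S => sN S f / ∏ i ∈ S, η i) (fun S _ => sN_div_nonneg h S f)
      (mem_univ S))

theorem dS_le_cN (h : Eta η0 η) (f : Vx → A) (S : Finset (Fin 3)) (T : Vx) :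
    ‖dS S f T‖ ≤ cN η f * ∏ i ∈ S, η i := (le_sN S f T).trans (sN_le_cN h f S)

theorem norm_le_cN (h : Eta η0 η) (f : Vx → A) (T : Vx) : ‖f T‖ ≤ cN η f := by
  simpa using dS_le_cN h f ∅ T

theorem cN_mono (h : Eta η0 η) {f : Vx → A} {g : Vx → B} {C : ℝ}
    (hc : ∀ S, sN S f ≤ C * sN S g) : cN η f ≤ C * cN η g := by
  rw [cN_eq, cN_eq, mul_sum]
  exact sum_le_sum fun S _ => by
    rw [← mul_div_assoc]
    exact div_le_div_of_nonneg_right (hc S) (h.pos S).le

theorem cN_add (h : Eta η0 η) (f g : Vx → A) :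
    cN η (fun T => f T + g T) ≤ cN η f + cN η g := by
  rw [cN_eq, cN_eq, cN_eq, ← sum_add_distrib]
  refine sum_le_sum fun S _ => ?_
  rw [← add_div]
  refine div_le_div_of_nonneg_right (sN_le fun T => ?_) (h.pos S).le
  rw [dS_add]
  exact norm_add_le_of_le (le_sN S f T) (le_sN S g T)

theorem cN_neg (f : Vx → A) : cN η (fun T => -f T) = cN η f := by
  simp only [cN, dS_neg, norm_neg]

theorem cN_sub (h : Eta η0 η) (f g : Vx → A) :
    cN η (fun T => f T - g T) ≤ cN η f + cN η g := by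
  simpa only [sub_eq_add_neg, cN_neg] using cN_add h f fun T => -g T

theorem cN_const (c : A) : cN η (fun _ => c) = ‖c‖ := by
  rw [cN, sum_eq_single ∅]
  · simp
  · intro S _ hS
    simp [dS_const hS]
  · simp

theorem cN_zero : cN η (fun _ => (0 : A)) = 0 := by rw [cN_const, norm_zero]

theorem cN_sum {ι : Type} (h : Eta η0 η) (s : Finset ι) (f : ι → Vx → A) :
    cN η (fun T => ∑ i ∈ s, f i T) ≤ ∑ i ∈ s, cN η (f i) := by
  classical
  induction s using Finset.induction_on with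
  | empty => simp [cN_zero]
  | insert i s hi ih =>
    simp only [sum_insert hi]
    exact (cN_add h _ _).trans (by linarith)

theorem cN_le_cV (h : Eta η0 η) (f : Vx → A) : cN η f ≤ ‖f o3‖ + cV η f := by
  have := cN_add h (fun _ => f o3) fun T => f T - f o3
  simpa only [add_sub_cancel, cN_const, cV] using this

theorem cV_const (c : A) : cV η (fun _ => c) = 0 := by simp [cV, cN_zero]

theorem cV_add (h : Eta η0 η) (f g : Vx → A) :
    cV η (fun T => f T + g T) ≤ cV η f + cV η g := by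
  have := cN_add h (fun T => f T - f o3) fun T => g T - g o3
  simpa only [cV, add_sub_add_comm] using this

theorem dS_le (h : Eta η0 η) (f : Vx → A) {S : Finset (Fin 3)} (hS : S ≠ ∅) (T : Vx) :
    ‖dS S f T‖ ≤ cV η f * ∏ i ∈ S, η i := by
  rw [← dS_sub_const hS f (f o3)]
  exact dS_le_cN h _ S T

/-- additive maps -/
theorem cN_map (h : Eta η0 η) (L : A →+ B) {C : ℝ} (hL : ∀ a, ‖L a‖ ≤ C * ‖a‖) (f : Vx → A) :
    cN η (fun T => L (f T)) ≤ C * cN η f := by
  refine cN_mono h fun S => sN_le fun T => ?_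
  rw [dS_map]
  refine (hL _).trans ?_
  rcases le_or_gt 0 C with hC | hC
  · exact mul_le_mul_of_nonneg_left (le_sN S f T) hC
  · have z : ∀ a : A, ‖a‖ ≤ 0 := fun a => by
      have := (norm_nonneg _).trans (hL a)
      nlinarith [norm_nonneg a]
    rw [le_antisymm (z _) (norm_nonneg _), le_antisymm (sN_le fun T => z _) (sN_nonneg S f)]

/-- an additive map bounded by a family of seminorms -/
theorem cN_map_sup {E J : Type} [AddCommGroup E] (h : Eta η0 η) (ℓ : J → E →+ A) (L : E →+ B)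
    {C : ℝ} (hL : ∀ a δ, (∀ j, ‖ℓ j a‖ ≤ δ) → ‖L a‖ ≤ C * δ) (γ : Vx → E) {d : ℝ}
    (hd : ∀ j, cN η (fun T => ℓ j (γ T)) ≤ d) : cN η (fun T => L (γ T)) ≤ 8 * C * d := by
  rw [mul_assoc]
  refine cN_le_of h fun S T => ?_
  rw [dS_map, mul_assoc]
  refine hL _ _ fun j => ?_
  rw [← dS_map]
  exact (dS_le_cN h _ S T).trans (mul_le_mul_of_nonneg_right (hd j) (h.pos S).le)

/-- biadditive maps of two spaces, bounded by two families of seminorms -/
theorem cN_bilin' {E E' J J' A' : Type} [AddCommGroup E] [AddCommGroup E'] [NormedAddCommGroup A']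
    (h : Eta η0 η) (ℓ : J → E →+ A) (ℓ' : J' → E' →+ A') (k : E →+ E' →+ B) {C : ℝ}
    (hk : ∀ a b δ δ', (∀ j, ‖ℓ j a‖ ≤ δ) → (∀ j, ‖ℓ' j b‖ ≤ δ') → ‖k a b‖ ≤ C * δ * δ')
    (γ : Vx → E) (γ' : Vx → E') {d d' : ℝ} (hd : ∀ j, cN η (fun T => ℓ j (γ T)) ≤ d)
    (hd' : ∀ j, cN η (fun T => ℓ' j (γ' T)) ≤ d') :
    cN η (fun T => k (γ T) (γ' T)) ≤ 64 * C * d * d' := by
  have key : ∀ S1 S2 T1 T2, ‖k (dS S1 γ T1) (dS S2 γ' T2)‖ ≤
      C * (d * ∏ i ∈ S1, η i) * (d' * ∏ i ∈ S2, η i) := fun S1 S2 T1 T2 =>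
    hk _ _ _ _ (fun j => by
      rw [← dS_map]
      exact (dS_le_cN h _ S1 T1).trans (mul_le_mul_of_nonneg_right (hd j) (h.pos S1).le))
      fun j => by
        rw [← dS_map]
        exact (dS_le_cN h _ S2 T2).trans (mul_le_mul_of_nonneg_right (hd' j) (h.pos S2).le)
  have c0 : 0 ≤ C * d * d' := by simpa using (norm_nonneg _).trans (key ∅ ∅ o3 o3)
  have := cN_le_of h (f := fun T => k (γ T) (γ' T)) (c := 8 * (C * d * d')) fun S T => by
    rw [dS_leibniz]
    refine (norm_sum_le_of_le _ (n := fun _ => C * d * d' * ∏ i ∈ S, η i) fun S1 hS1 => ?_).trans ?_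
    · refine (key _ _ _ _).trans (le_of_eq ?_)
      rw [← prod_sdiff (mem_powerset.1 hS1)]
      ring
    · rw [sum_const, nsmul_eq_mul, mul_assoc 8]
      refine mul_le_mul_of_nonneg_right ?_ (mul_nonneg c0 (h.pos S).le)
      have : S.powerset.card ≤ 8 := (card_le_univ _).trans (by simp)
      exact_mod_cast this
  linarith

theorem cN_bilin {E J : Type} [AddCommGroup E] (h : Eta η0 η) (ℓ : J → E →+ A) (k : E →+ E →+ B)
    {C : ℝ} (hk : ∀ a b δ δ', (∀ j, ‖ℓ j a‖ ≤ δ) → (∀ j, ‖ℓ j b‖ ≤ δ') → ‖k a b‖ ≤ C * δ * δ')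
    (γ γ' : Vx → E) {d d' : ℝ} (hd : ∀ j, cN η (fun T => ℓ j (γ T)) ≤ d)
    (hd' : ∀ j, cN η (fun T => ℓ j (γ' T)) ≤ d') :
    cN η (fun T => k (γ T) (γ' T)) ≤ 64 * C * d * d' := cN_bilin' h ℓ ℓ k hk γ γ' hd hd'

/-- bounded biadditive maps of normed groups -/
theorem cN_bil {A' : Type} [NormedAddCommGroup A'] (h : Eta η0 η) (k : A →+ A' →+ B) {C : ℝ}
    (hC : 0 ≤ C) (hk : ∀ a b, ‖k a b‖ ≤ C * ‖a‖ * ‖b‖) (f : Vx → A) (g : Vx → A') :
    cN η (fun T => k (f T) (g T)) ≤ C * cN η f * cN η g := by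
  set a : Finset (Fin 3) → ℝ := fun S => sN S f / ∏ i ∈ S, η i with ha
  set b : Finset (Fin 3) → ℝ := fun S => sN S g / ∏ i ∈ S, η i with hb
  have a0 : ∀ S, 0 ≤ a S := fun S => sN_div_nonneg h S f
  have b0 : ∀ S, 0 ≤ b S := fun S => sN_div_nonneg h S g
  refine (cN_le_sum h (c := fun S => C * ∑ S1 ∈ S.powerset, a S1 * b (S \ S1))
    fun S T => ?_).trans ?_
  · rw [dS_leibniz, mul_assoc, sum_mul, mul_sum]
    refine norm_sum_le_of_le _ fun S1 hS1 => (hk _ _).trans ?_
    have p1 := h.pos S1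
    have p2 := h.pos (S \ S1)
    have e : a S1 * b (S \ S1) * ∏ i ∈ S, η i = sN S1 f * sN (S \ S1) g := by
      rw [← prod_sdiff (mem_powerset.1 hS1), ha, hb]
      field_simp
    rw [e, mul_assoc]
    exact mul_le_mul_of_nonneg_left (mul_le_mul (le_sN _ _ _) (le_sN _ _ _) (norm_nonneg _)
      (sN_nonneg _ _)) hC
  · rw [← mul_sum, mul_assoc]
    refine mul_le_mul_of_nonneg_left ?_ hC
    have e : ∑ S : Finset (Fin 3), ∑ S1 ∈ S.powerset, a S1 * b (S \ S1) =
        ∑ S1 : Finset (Fin 3), ∑ S ∈ univ.filter (S1 ⊆ ·), a S1 * b (S \ S1) :=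
      sum_comm' fun S S1 => by simp
    rw [e, cN_eq, cN_eq, sum_mul]
    refine sum_le_sum fun S1 _ => ?_
    rw [← mul_sum]
    refine mul_le_mul_of_nonneg_left ?_ (a0 S1)
    rw [← sum_image (g := fun S => S \ S1) (f := b) fun S hS S' hS' e => by
      rw [← sdiff_union_of_subset (mem_filter.1 hS).2, ← sdiff_union_of_subset (mem_filter.1 hS').2]
      exact congrArg (· ∪ S1) e]
    exact sum_le_sum_of_subset_of_nonneg (subset_univ _) fun S _ _ => b0 S

theorem cN_mul {R : Type} [NormedRing R] (h : Eta η0 η) (f g : Vx → R) :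
    cN η (fun T => f T * g T) ≤ cN η f * cN η g := by
  simpa using cN_bil h (AddMonoidHom.mul (R := R)) zero_le_one
    (fun a b => by simpa using norm_mul_le a b) f g

theorem cN_smul {𝕜 : Type} [NormedRing 𝕜] [Module 𝕜 A] [IsBoundedSMul 𝕜 A] (h : Eta η0 η)
    (f : Vx → 𝕜) (g : Vx → A) : cN η (fun T => f T • g T) ≤ cN η f * cN η g := by
  simpa using cN_bil h (smulAddHom 𝕜 A) zero_le_one
    (fun a b => by simpa using norm_smul_le a b) f g

theorem cN_const_smul {𝕜 : Type} [NormedRing 𝕜] [Module 𝕜 A] [IsBoundedSMul 𝕜 A] (h : Eta η0 η)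
    (c : 𝕜) (g : Vx → A) : cN η (fun T => c • g T) ≤ ‖c‖ * cN η g := by
  simpa only [cN_const] using cN_smul h (fun _ => c) g

theorem cN_const_mul {R : Type} [NormedRing R] (h : Eta η0 η) (c : R) (g : Vx → R) :
    cN η (fun T => c * g T) ≤ ‖c‖ * cN η g := by
  simpa only [cN_const] using cN_mul h (fun _ => c) g

theorem cN_pow {R : Type} [NormedRing R] [NormOneClass R] (h : Eta η0 η) (f : Vx → R) (n : ℕ) :
    cN η (fun T => f T ^ n) ≤ cN η f ^ n := by
  induction n with
  | zero => simp [cN_const]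
  | succ n ih =>
    simp only [pow_succ]
    exact (cN_mul h _ _).trans (mul_le_mul_of_nonneg_right ih (cN_nonneg h _))

end Pool.Agent.Lib.MP_7f377f_mp.RG.Q4
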