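import Pool.Agent.Lib.MP_7f377f_mp.G.Q4LinA
import Pool.Agent.Lib.MP_7f377f_mp.G.RGAp2

/-! Comparison of two quadratic densities: summation by parts against slowly varying fields. -/

noncomputable section

set_option linter.unusedSectionVars false
variable [Pool.Agent.Lib.MP_7f377f_mp.GD]

namespace Pool.Agent.Lib.MP_7f377f_mp.RG.La.Q

open Finset Q4
open scoped Pointwise

variable {R : ℕ} {k : BF} {σ σ0 E E' N : ℝ} {S T : Finset St} {a b : V}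

theorem dd_anti (a : V) (x : St) (μ ν : Fin 4) : dd a x ν μ = -dd a x μ ν := by
  simp only [dd]; ring

/-- the field with constant curvature equal to the curvature of the argument at the origin -/
def cf4 : V →ₗ[ℝ] V where
  toFun a := fun e => 2⁻¹ * ∑ μ, dd a 0 μ e.2 * e.1 μ
  map_add' a b := by
    funext e
    simp only [dd_add, add_mul, sum_add_distrib, mul_add, Pi.add_apply]
  map_smul' c a := by
    funext e
    simp only [dd, Pi.smul_apply, smul_eq_mul, RingHom.id_apply, Fin.sum_univ_four]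
    ring

theorem cf_apply (a : V) (e : Lk) : cf4 a e = 2⁻¹ * ∑ μ, dd a 0 μ e.2 * e.1 μ := rfl

theorem dd_cf (a : V) (x : St) (μ ν : Fin 4) : dd (cf4 a) x μ ν = dd a 0 μ ν := by
  have h : ∀ μ ν, cf4 a (x + un μ, ν) = cf4 a (x, ν) + 2⁻¹ * dd a 0 μ ν := fun μ ν => by
    simp [cf_apply, mul_add, sum_add_distrib, un_apply]
  rw [dd, h, h, dd_anti a 0 μ ν]
  ring

theorem cv_cf {δ : ℝ} (h : Cv 0 δ a) (R : ℕ) : Cv R δ (cf4 a) := fun x _ μ ν => by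
  rw [dd_cf]
  exact h 0 (zero_mem_box 0) μ ν

def ee (p : Fin 4 × Fin 4) : V := fun e => if e.2 = p.2 then 2⁻¹ * e.1 p.1 else 0

theorem cv_ee (p : Fin 4 × Fin 4) : Cv 0 1 (ee p) := fun x hx μ ν => by
  have : x = 0 := funext fun i => by have := RG.mem_box.1 hx i; simp only [Pi.zero_apply]; omega
  subst this
  simp only [dd, ee, zero_add, un_apply, Pi.zero_apply, Real.norm_eq_abs]
  split_ifs <;> norm_num

theorem cf_eq (a : V) : cf4 a = ∑ p : Fin 4 × Fin 4, dd a 0 p.1 p.2 • cf4 (ee p) := by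
  have h : cf4 a = ∑ p : Fin 4 × Fin 4, dd a 0 p.1 p.2 • ee p := by
    funext e
    simp [cf_apply, ee, Finset.sum_apply, Fintype.sum_prod_type, mul_sum, mul_left_comm]
  have h2 : cf4 (cf4 a) = cf4 a := funext fun e => by simp only [cf_apply, dd_cf]
  rw [← h2]
  conv_lhs => rw [h]
  simp only [map_sum, map_smul]

theorem cs {ι : Type} (S : Finset ι) {f g : ι → ℝ} {A B : ℝ} (hA : 0 ≤ A) (hB : 0 ≤ B)
    (h1 : ∑ i ∈ S, f i ^ 2 ≤ A ^ 2) (h2 : ∑ i ∈ S, g i ^ 2 ≤ B ^ 2) :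
    |∑ i ∈ S, f i * g i| ≤ A * B :=
  abs_le.2 (abs_le_of_sq_le_sq' ((sum_mul_sq_le_sq_mul_sq S f g).trans ((mul_le_mul h1 h2
    (sum_nonneg fun _ _ => sq_nonneg _) (sq_nonneg _)).trans_eq (mul_pow _ _ _).symm))
    (mul_nonneg hA hB))

/-- squared gradient of the curvature -/
def gd (b : V) (x : St) : ℝ := ∑ κ, nd (sh (un κ) b - b) x

theorem gd_nonneg (b : V) (x : St) : 0 ≤ gd b x := sum_nonneg fun _ _ => Li.nd_nonneg _ _

/-- local size -/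
def lc (R : ℕ) (h : St → ℝ) (x : St) : ℝ := √(∑ w ∈ box R, h (w + x))

theorem lc_sum {h : St → ℝ} (h0 : ∀ x, 0 ≤ h x) (hE : ∀ U ⊆ box R + S, ∑ x ∈ U, h x ≤ E ^ 2) :
    ∑ x ∈ S, lc R h x ^ 2 ≤ (√((2 * R + 1) ^ 4) * E) ^ 2 := by
  simp only [lc]
  rw [sum_congr rfl fun x _ => Real.sq_sqrt (sum_nonneg fun _ _ => h0 _), mul_pow,
    Real.sq_sqrt (by positivity)]
  refine (La.sum_conv_le hE).trans_eq ?_
  rw [card_box]
  push_cast
  rfl

theorem cv_lc (R : ℕ) (a : V) (x : St) : Cv R (lc R (nd a) x) (sh x a) := by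
  simpa only [Li.nd_sh, lc] using Li.cv_sqrt R (sh x a)

theorem osc (b : V) (x : St) {z : St} (hz : z ∈ box R) (μ ν : Fin 4) :
    |dd b (z + x) μ ν - dd b x μ ν| ≤ 4 * R * lc R (gd b) x := by
  have := La.lam_gr (fun z => dd b (z + x) μ ν) z
  rw [zero_add] at this
  rw [← this]
  refine La.abs_lam_le hz fun e he => Real.abs_le_sqrt (le_trans ?_
    (single_le_sum (f := fun w => gd b (w + x)) (fun _ _ => gd_nonneg _ _) (mem_lbox.1 he)))
  refine le_trans (le_of_eq ?_) ((Li.sq_le_nd (sh (un e.2) b - b) (e.1 + x) μ ν).trans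
    (single_le_sum (f := fun κ => nd (sh (un κ) b - b) (e.1 + x))
      (fun _ _ => Li.nd_nonneg _ _) (mem_univ e.2)))
  rw [RG.dd_sub, RG.dd_sh, gr, add_right_comm]

theorem cv_osc (R : ℕ) (b : V) (x : St) :
    Cv R (4 * R * lc R (gd b) x) (sh x b - cf4 (sh x b)) := fun z hz μ ν => by
  rw [RG.dd_sub, dd_cf, RG.dd_sh, RG.dd_sh, zero_add]
  exact osc b x hz μ ν

theorem core1 (hk : ∀ a b δ δ', Cv R δ a → Cv R δ' b → |k a b| ≤ σ * δ * δ') (hσ : 0 ≤ σ)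
    (hE : 0 ≤ E) (hN : 0 ≤ N) (h1 : ∀ U ⊆ box R + S, ∑ x ∈ U, nd a x ≤ N ^ 2)
    (h2 : ∀ U ⊆ box R + S, ∑ x ∈ U, gd b x ≤ E ^ 2) {c : St → V}
    (hc : ∀ x, Cv R (lc R (nd a) x) (c x)) :
    |∑ x ∈ S, k (c x) (sh x b - cf4 (sh x b))| ≤ 4 * R * (2 * R + 1) ^ 4 * σ * N * E := by
  refine (abs_sum_le_sum_abs _ _).trans ((sum_le_sum fun x _ =>
    hk _ _ _ _ (hc x) (cv_osc R b x)).trans ?_)
  have h3 := (le_abs_self _).trans (cs S (by positivity) (by positivity)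
    (lc_sum (Li.nd_nonneg a) h1) (lc_sum (gd_nonneg b) h2))
  rw [mul_mul_mul_comm, Real.mul_self_sqrt (by positivity)] at h3
  have h4 := mul_le_mul_of_nonneg_left h3 (by positivity : 0 ≤ 4 * R * σ)
  rw [mul_sum] at h4
  refine le_of_eq_of_le (sum_congr rfl fun x _ => by ring) (h4.trans_eq (by ring))

theorem core2 (hs : ∀ a b, k a b = k b a)
    (hk : ∀ a b δ δ', Cv R δ a → Cv R δ' b → |k a b| ≤ σ * δ * δ')
    (hk0 : ∀ a b δ δ', Cv 0 δ a → Cv 0 δ' b → |k (cf4 a) (cf4 b)| ≤ σ0 * δ * δ') (hσ : 0 ≤ σ)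
    (hσ0 : 0 ≤ σ0) (hE : 0 ≤ E) (hN : 0 ≤ N) (h0 : ∑ x ∈ S, nd b x ≤ N ^ 2)
    (h1 : ∀ U ⊆ box R + S, ∑ x ∈ U, nd b x ≤ N ^ 2)
    (h2 : ∀ U ⊆ box R + S, ∑ x ∈ U, gd b x ≤ E ^ 2) :
    |∑ x ∈ S, k (sh x b) (sh x b)| ≤ 8 * R * (2 * R + 1) ^ 4 * σ * N * E + σ0 * N ^ 2 := by
  have e : ∀ x, k (sh x b) (sh x b) = k (sh x b) (sh x b - cf4 (sh x b)) +
      k (cf4 (sh x b)) (sh x b - cf4 (sh x b)) + k (cf4 (sh x b)) (cf4 (sh x b)) := fun x => by
    simp only [map_sub, hs (cf4 (sh x b)) (sh x b)]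
    ring
  have k1 := core1 hk hσ hE hN h1 h2 (cv_lc R b)
  have k2 := core1 hk hσ hE hN h1 h2 fun x => cv_cf ((cv_lc R b x).mono R.zero_le le_rfl) R
  have k3 : |∑ x ∈ S, k (cf4 (sh x b)) (cf4 (sh x b))| ≤ σ0 * N ^ 2 := by
    refine (abs_sum_le_sum_abs _ _).trans ((sum_le_sum fun x _ => ?_).trans
      ((mul_sum _ _ _).symm.trans_le (mul_le_mul_of_nonneg_left h0 hσ0)))
    have : Cv 0 (√(nd b x)) (sh x b) := by
      have := cv_lc 0 b x
      rwa [lc, show box 0 = {0} by ext; simp [Li.mem_box, funext_iff], sum_singleton,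
        zero_add] at this
    refine (hk0 _ _ _ _ this this).trans_eq ?_
    rw [mul_assoc, Real.mul_self_sqrt (Li.nd_nonneg _ _)]
  simp only [e, sum_add_distrib]
  rw [abs_le] at *
  constructor <;> linarith [k1.1, k1.2, k2.1, k2.2, k3.1, k3.2]

theorem reidx {f g : St → ℝ} (hg : ∀ x ∉ T, g x = 0) (hT : T + box R ⊆ S) {z : St}
    (hz : z ∈ box R) : ∑ x ∈ S, f x * g (z + x) = ∑ x ∈ T, f (-z + x) * g x := by
  have := Li.sum_shift S z fun x => f (-z + x) * g x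
  simp only [neg_add_cancel_left] at this
  rw [this]
  refine (sum_subset (fun x hx => mem_image.2 ⟨x + -z, hT (add_mem_add hx (neg_mem_box hz)),
    by abel⟩) fun x _ hx => by rw [hg x hx, mul_zero]).symm

theorem core3 (hk : ∀ a b δ δ', Cv R δ a → Cv R δ' b → |k a b| ≤ σ * δ * δ')
    (hk0 : ∀ a b δ δ', Cv 0 δ a → Cv 0 δ' b → |k (cf4 a) (cf4 b)| ≤ σ0 * δ * δ') (hσ : 0 ≤ σ)
    (hE : 0 ≤ E) (hE' : 0 ≤ E') (hN : 0 ≤ N) (hT : T + box R ⊆ S)
    (ha : ∀ x ∉ T, nd a x = 0) (h0 : ∑ x ∈ S, nd b x ≤ E' ^ 2) (h1 : ∀ U, ∑ x ∈ U, nd a x ≤ N ^ 2)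
    (h2 : ∀ U ⊆ box R + S, ∑ x ∈ U, gd b x ≤ E ^ 2) :
    |∑ x ∈ S, k (sh x a) (sh x b)| ≤ 68 * R * (2 * R + 1) ^ 4 * σ * N * E + 16 * σ0 * N * E' := by
  have TS : T ⊆ S := fun x hx => hT (by simpa using add_mem_add hx (zero_mem_box R))
  set w : ℝ := (2 * R + 1) ^ 4 with hw
  have w1 : √w ≤ w := Real.sqrt_le_self_iff.2 (.inr (one_le_pow₀ (by
    linarith [(R.cast_nonneg : (0 : ℝ) ≤ R)])))
  have k1 := core1 hk hσ hE hN (fun U _ => h1 U) h2 (cv_lc R a)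
  have k2 : ∀ p : Fin 4 × Fin 4, |k (∑ x ∈ S, dd b x p.1 p.2 • sh x a) (cf4 (ee p))| ≤
      4 * R * w * σ * N * E + σ0 * N * E' := fun p => by
    set Φ := ∑ x ∈ S, dd b x p.1 p.2 • sh x a with hΦ
    have d1 : ∀ z μ ν, dd Φ z μ ν = ∑ x ∈ S, dd b x p.1 p.2 * dd a (z + x) μ ν := fun z μ ν => by
      simp only [← dd_sh]
      simp only [hΦ, dd, Finset.sum_apply, Pi.smul_apply, smul_eq_mul, mul_add, mul_sub,
        sum_add_distrib, sum_sub_distrib]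
    have d2 : ∀ U μ ν, ∑ x ∈ U, dd a x μ ν ^ 2 ≤ N ^ 2 := fun U μ ν =>
      (sum_le_sum fun x _ => Li.sq_le_nd a x μ ν).trans (h1 U)
    have d3 : ∀ μ ν, ∀ x ∉ T, dd a x μ ν = 0 := fun μ ν x hx =>
      pow_eq_zero_iff two_ne_zero |>.1 (le_antisymm ((Li.sq_le_nd a x μ ν).trans_eq (ha x hx))
        (sq_nonneg _))
    have c1 : Cv 0 (E' * N) Φ := fun z hz μ ν => by
      rw [d1, Real.norm_eq_abs]
      refine cs S hE' hN ((sum_le_sum fun x _ => Li.sq_le_nd b x _ _).trans h0) ?_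
      rw [Li.sum_shift S z fun x => dd a x μ ν ^ 2]
      exact d2 _ μ ν
    have c2 : Cv R (4 * R * (√w * E) * N) (Φ - cf4 Φ) := fun z hz μ ν => by
      rw [RG.dd_sub, dd_cf, d1, d1, reidx (d3 μ ν) hT hz, reidx (d3 μ ν) hT (zero_mem_box R),
        ← sum_sub_distrib, Real.norm_eq_abs]
      simp only [← sub_mul, neg_zero, zero_add]
      refine cs T (by positivity) hN ?_ (d2 _ μ ν)
      refine (sum_le_sum fun x _ => sq_le_sq' (abs_le.1 (osc b x (neg_mem_box hz) _ _)).1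
        (abs_le.1 (osc b x (neg_mem_box hz) _ _)).2).trans ?_
      simp only [mul_pow _ (lc _ _ _), ← mul_sum]
      rw [mul_pow _ (√w * E)]
      exact mul_le_mul_of_nonneg_left (lc_sum (gd_nonneg b) fun U hU =>
        h2 U (hU.trans (add_subset_add_left TS))) (sq_nonneg _)
    have c3 := abs_le.1 (hk _ _ _ _ c2 (cv_cf (cv_ee p) R))
    have c4 := abs_le.1 (hk0 _ _ _ _ c1 (cv_ee p))
    have c5 := mul_le_mul_of_nonneg_right w1 (by positivity : 0 ≤ 4 * R * σ * N * E)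
    rw [map_sub, LinearMap.sub_apply] at c3
    rw [abs_le]
    constructor <;> linarith [c3.1, c3.2, c4.1, c4.2]
  have e : ∑ x ∈ S, k (sh x a) (cf4 (sh x b)) =
      ∑ p : Fin 4 × Fin 4, k (∑ x ∈ S, dd b x p.1 p.2 • sh x a) (cf4 (ee p)) := by
    simp only [map_sum, map_smul, LinearMap.sum_apply, LinearMap.smul_apply]
    rw [sum_comm]
    refine sum_congr rfl fun x _ => ?_
    rw [cf_eq]
    simp only [map_sum, map_smul, dd_sh, zero_add]
  have k3 := (abs_sum_le_sum_abs _ _).trans (sum_le_card_nsmul univ _ _ fun p _ => k2 p)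
  rw [← e] at k3
  simp only [map_sub, sum_sub_distrib] at k1
  simp only [card_univ, Fintype.card_prod, Fintype.card_fin, nsmul_eq_mul] at k3
  push_cast at k3
  rw [abs_le] at *
  constructor <;> linarith [k1.1, k1.2, k3.1, k3.2]

theorem cst_cf (a : V) : Cst (cf4 a) := fun x => by funext μ ν; rw [dd_cf, dd_cf]

theorem cd_bil {m m' : BF} (hs : ∀ a b, m a b = m b a) (hs' : ∀ a b, m' a b = m' b a)
    (h0 : 0 ≤ σ0) (h : Cd σ0 m m') (a b : V) (δ δ' : ℝ) (ha : Cv 0 δ a) (hb : Cv 0 δ' b) :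
    |(m - m') (cf4 a) (cf4 b)| ≤ 32 * σ0 * δ * δ' := by
  refine (bil (k := (m - m').compl₁₂ cf4 cf4) (σ := 16 * σ0) (fun a b => ?_) (fun a δ ha => ?_)
    a b δ δ' ha hb).trans_eq (by ring)
  · simp only [LinearMap.compl₁₂_apply, LinearMap.sub_apply, hs (cf4 a), hs' (cf4 a)]
  · have h3 := mul_le_mul_of_nonneg_left (nd_le_of_cv (cv_cf ha 0) (zero_mem_box 0)) h0
    exact (h _ (cst_cf a)).trans (by linarith)

theorem cd_nonneg {m m' : BF} (h : Cd σ0 m m') : 0 ≤ σ0 := by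
  have h1 := (abs_nonneg _).trans (h _ (cst_cf (ee (0, 1))))
  refine nonneg_of_mul_nonneg_left h1 (lt_of_lt_of_le ?_ (Li.sq_le_nd _ 0 0 1))
  rw [dd_cf]
  simp [dd, ee]

theorem blk_sum {l : ℕ} {h : St → ℝ} (h0 : ∀ x, 0 ≤ h x) {M : ℝ} {j : ℕ}
    (hM : ∀ y ∈ box j, ∑ t ∈ box l, h (t + up l y) ≤ M) {U : Finset St}
    (hU : U ⊆ box (j * LL l + l)) : ∑ x ∈ U, h x ≤ (2 * j + 1) ^ 4 * M := by
  refine (sum_le_sum_of_subset_of_nonneg hU fun _ _ _ => h0 _).trans ?_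
  rw [← Blk_box, sum_Blk]
  refine (sum_le_card_nsmul _ _ _ hM).trans_eq ?_
  rw [card_box, nsmul_eq_mul]
  push_cast
  rfl

theorem box_add {i j k : ℕ} (h : i + j ≤ k) : box i + box j ⊆ box k := fun x hx => by
  obtain ⟨y, hy, z, hz, rfl⟩ := mem_add.1 hx
  exact box_mono h (add_mem_box hy hz)

theorem gd_blk {l r : ℕ} {g δ : ℝ} {s : V →ₗ[ℝ] V} {B : V} (hg : Grad l r g s) (y : St)
    (hB : Cv (r / 3) δ (sh y B)) : ∑ t ∈ box l, gd (mu l s B) (t + up l y) ≤ (g * δ) ^ 2 := by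
  have := hg _ _ hB
  simp only [mu_sh, sh_sh, add_comm (un _)] at this
  simpa only [← sh_sh, ← sh_sub, Li.nd_sh, gd] using this

end Pool.Agent.Lib.MP_7f377f_mp.RG.La.Q

namespace Pool.Agent.Lib.MP_7f377f_mp.RG.Q4

open Finset La La.Q
open scoped Pointwise

theorem cx_cb {R : ℕ} {κ δ δ' : ℝ} {k : BF} (hk : Cb R κ k) {A B : Fld} (hA : Cv R δ A)
    (hB : Cv R δ' B) : ‖cx k A B‖ ≤ 12 * cG * κ * δ * δ' := by
  have h0 := (abs_nonneg _).trans (hk _ _ _ _ (hA.reF GD.k0) (hB.reF GD.k0))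
  refine (norm_sum_le _ _).trans ((sum_le_card_nsmul _ _ (4 * (κ * δ * δ')) fun k _ => ?_).trans
    (by simp only [card_univ, Fintype.card_fin, nsmul_eq_mul]; nlinarith [GD.d_le, GD.cG1]))
  refine (norm_add_le _ _).trans ?_
  rw [norm_mul, Complex.norm_I, mul_one, Complex.norm_real, Complex.norm_real, Real.norm_eq_abs,
    Real.norm_eq_abs]
  refine (add_le_add (abs_sub _ _) (abs_add_le _ _)).trans ?_
  linarith [hk _ _ _ _ (hA.reF k) (hB.reF k), hk _ _ _ _ (hA.reF k) (hB.imF k),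
    hk _ _ _ _ (hA.imF k) (hB.reF k), hk _ _ _ _ (hA.imF k) (hB.imF k)]

end Pool.Agent.Lib.MP_7f377f_mp.RG.Q4
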