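import Pool.Agent.Lib.MP_7f377f_mp.G.Q4Obj
import Pool.Agent.Lib.MP_7f377f_mp.G.Q4PsA

/-! The step from its ingredients. -/

noncomputable section

set_option linter.unusedSectionVars false
variable [Pool.Agent.Lib.MP_7f377f_mp.GD]

namespace Pool.Agent.Lib.MP_7f377f_mp.RG.Q4

open Finset MeasureTheory Filter
open scoped Classical

attribute [local irreducible] box lbox tb tau rc

theorem PU.nonneg {p : Pa} {b : ℝ} {ψ : Lx} (h : PU p b ψ) (hρ : 0 ≤ p.ρ) : 0 ≤ b :=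
  (norm_nonneg _).trans (h.2 0 0 (fun _ _ => rfl) (Ho.cv_zero _ hρ))

theorem Sd.Sml.b0 {S : Sd} {b θ : ℝ} {k : Mj} {ψ : Lx} {K : Ac} (h : S.Sml b θ k ψ K) : 0 ≤ b :=
  h.pu.nonneg (by unfold Sd.p lv; positivity)

namespace Xp

variable {S : Sd} {ψ : Lx} {K : Ac} {W : Conf} {v : VB} {y : St}

/-- the identity in the calm region, with a product over the small polymers -/
def CalmP (S : Sd) (ψ : Lx) (K : Ac) (W : Conf) (v : VB) (y : St) : Prop :=
  S.Gn (sh y W) (shv y v) * S.Ib ψ ∅ (S.Uv W v) y =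
    Complex.exp (S.cX (S.ψy ψ y) (S.Ky K y) - S.Φ' ψ K y (Bx y (cC W))) *
      (1 + S.fm (S.ψy ψ y) (sh y (cC W)) (sh (up S.l y) (vz S.l v))) *
      ∏ X ∈ S.X1s, Complex.exp (-S.Fs (S.Ky K y) X (Bx y (cC W)))

theorem CalmP.id (h : CalmP S ψ K W v y) : CalmId S ψ K W v y := by
  rw [CalmId, ← sum_neg_distrib, Complex.exp_sum, ← mul_assoc]
  exact h

/-- the gauge average -/
theorem avg' {F : Conf → ℂ} {E : ℂ} {k : Mj} (hF : GI S.n F)
    (h : ∀ W, Per S.n W → F W = Complex.exp E *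
      ZL S.Λ' (fun Y c => S.Kr ψ K Y c W) (Ix S.p' (S.Φ' ψ K) W))
    (hm : ∀ Y c, (Measurable fun W => S.Kr ψ K Y c (pc S.n W)) ∧
      DependsOn (fun W => S.Kr ψ K Y c (pc S.n W))
        {b | rc S.n b.1 ∈ Y ∧ rc S.n (b.1 + un b.2) ∈ Y})
    (hb : ∀ Y c W, Per S.n W → ‖S.Kr ψ K Y c W‖ ≤ k Y c * Real.exp (-(S.p'.lam * Rg c W)))
    (hI : ∀ u W y, Ix S.p' (S.Φ' ψ K) (gauge Inv.inv u W) y = Ix S.p' (S.Φ' ψ K) W y)
    (hW : Per S.n W) : F W = Complex.exp E * Rep S.p' S.n (S.Φ' ψ K) (S.KK ψ K) W := by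
  have := Mx.ZL_gav S.Λ' (I := fun y W => Ix S.p' (S.Φ' ψ K) (pc S.n W) y) (W := W)
    (Z := Complex.exp (-E) * F W) (fun Y c => (hm Y c).1)
    (fun Y c => ⟨|k Y c|, fun W => (hb Y c _ (Mx.per_pc _ _)).trans ((mul_le_mul_of_nonneg_right
      (le_abs_self _) (Real.exp_pos _).le).trans (mul_le_of_le_one_right (abs_nonneg _)
        (Real.exp_le_one_iff.2 (neg_nonpos.2 (mul_nonneg (Real.sqrt_nonneg _)
          (sum_nonneg fun _ _ => sum_nonneg fun _ _ => fs_nonneg _ _))))))⟩)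
    (fun Y c => (hm Y c).2) (fun u hu y => by rw [pc_gauge' hu, hI]) fun u hu => by
      rw [← hF.2.2 u W hu hW, h _ (per_gauge hu hW), ← mul_assoc, ← Complex.exp_add,
        neg_add_cancel, Complex.exp_zero, one_mul, En.pc_eq (per_gauge hu hW)]
  refine Eq.trans ?_ (congrArg _ this.symm)
  rw [← mul_assoc, ← Complex.exp_add, add_neg_cancel, Complex.exp_zero, one_mul]

/-- the weights of families with disjoint supports multiply -/
theorem wO_union {O O' : Finset Ob} (h0 : S.Ok) (h : O ⊆ S.obs) (h' : O' ⊆ S.obs)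
    (hd : Disjoint (us S.sp O) (us S.sp O'))
    (m : Measurable fun v => S.FO ψ K W O (pcs S.n v))
    (m' : Measurable fun v => S.FO ψ K W O' (pcs S.n v))
    (d : DependsOn (fun v => S.FO ψ K W O (pcs S.n v)) (us S.sp O))
    (d' : DependsOn (fun v => S.FO ψ K W O' (pcs S.n v)) (us S.sp O')) :
    S.wO ψ K W (O ∪ O') = S.wO ψ K W O * S.wO ψ K W O' := by
  have := nu_prob (S.Q0.trans_le h0.ζ_zm)
  simp only [Sd.wO, wf_union h0.odd h h' hd, FO_union h0.odd h h' hd]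
  rw [PB, Mx.int_indep m m' d d' (disjoint_coe.2 hd)]
  ring

/-- measurability in the variables for a fixed block field -/
theorem meas_v {F : Conf → VB → ℂ} (h : Measurable fun x : Conf × VB => F x.1 x.2) (n : ℕ)
    (W : Conf) : Measurable fun v => F W (pcs n v) := by
  have := h.comp (measurable_const.prodMk (Mx.meas_pcs n) : Measurable fun v : VB => (W, pcs n v))
  exact this

end Xp

/-- `wo_mul` from `fo_meas` and `fo_dep` -/
theorem wo_mul_of (c : ℕ)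
    (H1 : ∀ᶠ S in ev c, ∀ b θ k ψ K, S.Sml b θ k ψ K → ∀ O ⊆ S.obs,
      Measurable (fun x : Conf × VB => S.FO ψ K x.1 O x.2))
    (H2 : ∀ᶠ S in ev c, ∀ b θ k ψ K, S.Sml b θ k ψ K → ∀ W, Per S.n W → ∀ O ⊆ S.obs,
      DependsOn (fun v => S.FO ψ K W O (pcs S.n v)) (us S.sp O)) :
    ∀ᶠ S in ev c, ∀ b θ k ψ K, S.Sml b θ k ψ K → ∀ W, Per S.n W →
      S.wO ψ K W ∅ = 1 ∧ ∀ O ⊆ S.obs, ∀ O' ⊆ S.obs, Disjoint (us S.sp O) (us S.sp O') →
        S.wO ψ K W (O ∪ O') = S.wO ψ K W O * S.wO ψ K W O' := by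
  filter_upwards [ev_le ev_ok, H1, H2] with S h0 h1 h2 b θ k ψ K h W hW
  exact ⟨Xp.wO_empty h0, fun O a O' a' d => Xp.wO_union h0 a a' d
    (Xp.meas_v (F := fun W v => S.FO ψ K W O v) (h1 b θ k ψ K h O a) _ W)
    (Xp.meas_v (F := fun W v => S.FO ψ K W O' v) (h1 b θ k ψ K h O' a') _ W)
    (h2 b θ k ψ K h W hW O a) (h2 b θ k ψ K h W hW O' a')⟩

end Pool.Agent.Lib.MP_7f377f_mp.RG.Q4
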