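import Pool.Agent.Lib.MP_7f377f_mp.G.Q4FoB
import Pool.Agent.Lib.MP_7f377f_mp.G.Q4StepB
import Pool.Agent.Lib.MP_7f377f_mp.G.Q4Rep
import Pool.Agent.Lib.MP_7f377f_mp.G.Q4S1

/-! Measurability, locality and factorisation of the weights of the families of objects. -/

noncomputable section

set_option linter.unusedSectionVars false
variable [Pool.Agent.Lib.MP_7f377f_mp.GD]

namespace Pool.Agent.Lib.MP_7f377f_mp.RG.Q4

open Finset MeasureTheory Filter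
open scoped Classical

attribute [local irreducible] box lbox tb tau rc

namespace Fx

variable {S : Sd} {P b θ : ℝ} {k : Mj} {ψ : Lx} {K : Ac} {W W' : Conf} {Y : Finset St} {y : St}

theorem fq_loc {R : ℕ} {x : St} (e : ∀ f : Lk, f.1 ∈ box (R + 1) → f.1 + un f.2 ∈ box (R + 1) →
    W f = W' f) (hx : x ∈ box R) (μ ν : Fin 4) : fq W x μ ν = fq W' x μ ν := by
  by_cases h : μ = ν
  · subst h
    simp [fq, hol]
  have a : ∀ μ, x + un μ ∈ box (R + 1) := add_un_mem_box hx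
  have b : ∀ μ ν, μ ≠ ν → x + un μ + un ν ∈ box (R + 1) := fun μ ν h => mem_box.2 fun i => by
    have := mem_box.1 hx i
    simp only [Pi.add_apply, un_apply]
    split_ifs <;> omega
  simp only [fq, hol, e (x, _) (box_mono R.le_succ hx) (a _), e (_, _) (a μ) (b μ ν h),
    e (_, _) (a ν) (b ν μ (Ne.symm h))]

theorem chi_in (e : AgW S.n Y W W') (hy : y ∈ S.Din Y) : chi S.p' W y = chi S.p' W' y := by
  have m : ∀ x ∈ box (S.p'.R + 2), rc S.n (x + y) ∈ Y := fun x hx => (mem_filter.1 hy).2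
    (mem_tb_single.2 ⟨rc_rc _ _, nearT_rc_right.2 (add_comm y x ▸ nearT_add hx)⟩)
  refine if_congr (forall₂_congr fun x hx => forall₂_congr fun μ ν => ?_) rfl rfl
  rw [fq_loc (W := sh y W) (W' := sh y W')
    (fun f h1 h2 => e _ (m _ h1) (add_right_comm f.1 _ y ▸ m _ h2)) hx]

theorem agW_pc {n : ℕ} (e : ∀ f ∈ {f : Lk | rc n f.1 ∈ Y ∧ rc n (f.1 + un f.2) ∈ Y}, W f = W' f) :
    AgW n Y (pc n W) (pc n W') := fun f h1 h2 =>
  e (rc n f.1, f.2) ⟨by rwa [rc_rc], by rwa [rc_add_rc]⟩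

/-- locality of the new activities -/
theorem Kr_agr (h : S.Fo P) (hI : IxL S.p (S.Φ ψ)) (hK : KM S.p S.nf k K) (hW : Per S.n W)
    (hW' : Per S.n W') (e : AgW S.n Y W W') (c : Finset (Finset St)) :
    S.Kr ψ K Y c W = S.Kr ψ K Y c W' := by
  rw [Sd.Kr, Sd.Kr, prod_congr rfl fun y hy => chi_in e (mem_sdiff.1 hy).1, sum_filter, sum_filter,
    sum_congr rfl fun O hO => ?_]
  obtain ⟨h1, -, rfl⟩ := mem_clus.1 hO
  rw [lab_agr h1 e, wO_agr h hI hK h1 hW hW' e]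

/-- what is used about the data -/
structure Dt (S : Sd) (ψ : Lx) (K : Ac) : Prop where
  fo : S.Fo S.P
  tok : S.TOk
  ix : IxL S.p (S.Φ ψ)
  mψ : ∀ x, Measurable (ψ x)
  mK : ∀ X c, Measurable (K X c)
  mF : ∀ y, ∀ X ∈ S.X1s, Measurable (S.Fs (S.Ky K y) X)

theorem ev_dt (c : ℕ) : ∀ᶠ S in ev c, ∀ b k ψ K, PU S.p b ψ → KM S.p S.nf k K → Dt S ψ K := by
  filter_upwards [ev_fo c, ev_tok, lo_fine c, fs_bd c] with S h ht h1 h2 b k ψ K hψ hK
  exact ⟨h, ht, fun _ _ _ => Ix_agr h1.1 (h1.2.2 b ψ hψ), hψ.lo.meas, hK.meas,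
    fun y X hX => (h2 k K hK y X hX).1⟩

variable {Z : Type} [MeasurableSpace Z] (d : Dt S ψ K) {O : Finset Ob}
include d

theorem Dt.FO (hO : O ⊆ S.obs) {W : Z → Conf} {v : Z → VB} (hW : Measurable W)
    (hv : Measurable v) : Measurable fun x => S.FO ψ K (W x) O (v x) :=
  FO_meas d.fo hW hv d.tok d.mψ d.mK d.mF hO

theorem Dt.wO (hO : O ⊆ S.obs) {W : Z → Conf} (hW : Measurable W) :
    Measurable fun x => S.wO ψ K (W x) O := wO_meas d.fo hW d.tok d.mψ d.mK d.mF hO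

theorem Dt.Kr {W : Z → Conf} (hW : Measurable W) (Y : Finset St) (c : Finset (Finset St)) :
    Measurable fun x => S.Kr ψ K Y c (W x) := by
  simp only [Sd.Kr, sum_filter]
  exact (measurable_fun_sum _ fun O hO => .ite (lab_meas hW O c) (d.wO (mem_clus.1 hO).1 hW)
    measurable_const).mul (measurable_fun_prod _ fun y _ => chi_meas _ hW y)

end Fx

variable (c : ℕ)

theorem fo_meas : ∀ᶠ S in ev c, ∀ b θ k ψ K, S.Sml b θ k ψ K → ∀ O ⊆ S.obs,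
    Measurable (fun x : Conf × VB => S.FO ψ K x.1 O x.2) ∧ (Measurable fun W => S.wf W O) ∧
      (Measurable fun W => S.wO ψ K W O) ∧ ∀ c', MeasurableSet {W | S.lab W O = c'} :=
  (Fx.ev_dt c).mono fun _ h _ _ _ _ _ s O hO =>
    have d := h _ _ _ _ s.pu s.km
    ⟨d.FO hO measurable_fst measurable_snd, Fx.wf_meas measurable_id O, d.wO hO measurable_id,
      Fx.lab_meas measurable_id O⟩

theorem fo_dep : ∀ᶠ S in ev c, ∀ b θ k ψ K, S.Sml b θ k ψ K → ∀ W, Per S.n W → ∀ O ⊆ S.obs,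
    DependsOn (fun v => S.FO ψ K W O (pcs S.n v)) (us S.sp O) :=
  (Fx.ev_dt c).mono fun _ h _ _ _ _ _ s _ hW _ hO =>
    have d := h _ _ _ _ s.pu s.km
    Fx.FO_dep d.fo d.ix s.km hO hW

theorem wo_mul : ∀ᶠ S in ev c, ∀ b θ k ψ K, S.Sml b θ k ψ K → ∀ W, Per S.n W →
    S.wO ψ K W ∅ = 1 ∧ ∀ O ⊆ S.obs, ∀ O' ⊆ S.obs, Disjoint (us S.sp O) (us S.sp O') →
      S.wO ψ K W (O ∪ O') = S.wO ψ K W O * S.wO ψ K W O' :=
  wo_mul_of c ((fo_meas c).mono fun _ h b θ k ψ K s O hO => (h b θ k ψ K s O hO).1) (fo_dep c)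

theorem kr_loc : ∀ᶠ S in ev c, ∀ b θ k ψ K, S.Sml b θ k ψ K → ∀ Y c',
    (Measurable fun W => S.Kr ψ K Y c' (pc S.n W)) ∧ DependsOn (fun W => S.Kr ψ K Y c' (pc S.n W))
      {e | rc S.n e.1 ∈ Y ∧ rc S.n (e.1 + un e.2) ∈ Y} :=
  (Fx.ev_dt c).mono fun _ h _ _ _ _ _ s Y c' =>
    have d := h _ _ _ _ s.pu s.km
    ⟨d.Kr (Cov.meas_pc _) Y c', fun _ _ e =>
      Fx.Kr_agr d.fo d.ix s.km (Mx.per_pc _ _) (Mx.per_pc _ _) (Fx.agW_pc e) c'⟩

end Pool.Agent.Lib.MP_7f377f_mp.RG.Q4
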