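import Pool.Agent.Lib.MP_7f377f_mp.G.Q4HoB

/-! A block with a large fluctuation variable carries a large energy nearby. -/

noncomputable section

set_option linter.unusedSectionVars false
variable [Pool.Agent.Lib.MP_7f377f_mp.GD]

namespace Pool.Agent.Lib.MP_7f377f_mp.RG.Q4.Sd.Hs

open Finset Hj
open scoped Classical

attribute [local irreducible] box tb rc lbox

variable {S : Sd} {W : Conf} {v : VB} {O : Finset Ob} {ψ : Lx} {y : St}
  (h : S.Hs) (H : S.Nv W v O ψ)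
include h H

theorem near_dbl (hy : y ∈ Dbl O) : ¬ Far S.n 0 (S.HD O) y := fun hf => hf.not_mem (by
  rw [rc_eq h.ok.odd (dbl_dom H.sub hy)]
  exact mem_union_right _ hy)

omit H in
theorem exp_zm : Real.exp (-(S.l : ℝ) ^ 2) * S.zm ≤ 1 := by
  have h1 := h.nu.exp_g (x := (S.l : ℝ) ^ 2) (i := 1) (j := 1) h.nu.r_le_lsq (by omega) (by omega)
  have g0 := h.ok.g0
  rw [pow_one, pow_one] at h1
  rw [zm_eq, ← mul_assoc, mul_inv_le_iff₀ g0]
  linarith

/-- the fluctuation field is large somewhere near a block with a large variable -/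
theorem big_vy (hy : y ∈ Dbl O)
    (hf : Far S.n S.D0 (Hh S.l S.n (CC O) (Wk O) ∪ S.Nz W v O) y) :
    ∃ e ∈ lbox (fb S.l (4 * S.N + 2)),
      S.gt * (S.Q / (4 * S.L ^ (6 * S.c + 16))) < ‖S.vy W v y e‖ := by
  have ln := h.nu.lens
  have sg := h.sg H (near_mono (h.near_dbl H hy) (Nat.zero_le _) Subset.rfl) hf
  have g0 : gd S.l S.ζ (shv y v 0) = 0 := by
    rw [shv, zero_add]
    exact H.gd0 h.ok.odd hy
  obtain ⟨f, f0, ft, hz⟩ : ∃ f : Lk, yo S.l f.1 = 0 ∧ ¬ tree S.l f ∧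
      S.ζ < ‖vz S.l (shv y v) f‖ := by
    by_contra hn
    push Not at hn
    refine (Cov.gd_iff.2 ⟨fun f f0 ft => ⟨hn f f0 ft, (sg.vs f ?_ ft).1⟩,
      sg.om 0 (zero_mem_box _)⟩) g0
    exact mem_lbox.2 (Op.mem_fb.2 (f0 ▸ zero_mem_box _))
  have act : Act S.l (S.H (sh y W)) f := act_of (a := 0) sg.fq (by omega)
    (mem_lbox.2 (Op.mem_fb.2 (f0 ▸ zero_mem_box _))) ft
  by_contra hn
  push Not at hn
  have t0 := h.ok.gt0
  have l0 := L0 S.toTd
  have key := polK_inv_loc (f := f) (A := cF (vz S.l (shv y v))) h.fo.op h.fo.hδ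
    (a := S.Q / (4 * S.L ^ (6 * S.c + 16))) (b := S.zm) (fun _ _ => h.fo.gk (sh y W) _)
    (fun e he => by
      have := hn e he
      rw [vy, vH, Pi.smul_apply, norm_smul, Complex.norm_real, Real.norm_of_nonneg t0.le] at this
      rw [show yo S.t.O.l f.1 = 0 from f0, up_zero, sh_zero]
      exact le_of_mul_le_mul_left this t0)
    (fun e _ => (norm_pj _).trans ((norm_cE _).1.trans (by rw [vz_shv]; exact H.zm _)))
  have k1 : ‖cE (vz S.l (shv y v) f)‖ ≤ S.L ^ (6 * S.c + 16) *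
      (S.Q / (4 * S.L ^ (6 * S.c + 16))) / 2 + Real.exp (-(S.l : ℝ) ^ 2) * S.zm := by
    rw [show pj S.t.O.l (S.H (sh y W)) (cF (vz S.l (shv y v))) f = _ from pj_act act] at key
    exact key
  have k2 : S.L ^ (6 * S.c + 16) * (S.Q / (4 * S.L ^ (6 * S.c + 16))) = S.Q / 4 := by field_simp
  have k3 := (norm_cE (vz S.l (shv y v) f)).2
  have k4 := h.exp_zm
  have k5 := h.nu.cQ' (C := 3) (by norm_num)
  rw [k2] at k1
  rw [ζ] at hz
  linarith

theorem bf_big (hy : y ∈ Dbl O)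
    (hf : Far S.n (S.D0 + S.w) (Hh S.l S.n (CC O) (Wk O) ∪ S.Nz W v O) y) :
    (S.D0 : ℝ) ^ 6 * (2 * S.w + 1) ^ 4 ≤ ∑ u ∈ box S.w, S.hE W v (y + u) := by
  have ln := h.nu.lens
  obtain ⟨e, he, hv⟩ := h.big_vy H hy (hf.mono (Nat.le_add_right _ _))
  have hu := Op.mem_fb.1 (mem_lbox.1 he)
  generalize hu0 : yo S.l e.1 = u at hu
  have hw : u ∈ box S.w := box_mono (by omega) hu
  have k1 := h.coer H (near_mono (near_add (h.near_dbl H hy) hw) (by omega) Subset.rfl)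
    (Far.add' hf hw) (zero_mem_box 2)
  simp only [up_zero, add_zero, Prod.mk.eta] at k1
  have rl : ∀ f, ‖S.vy W v (u + y) f‖ ^ 2 ≤ Op.nq (S.vy W v (u + y) f) := fun f =>
    Op.le_nq (h.fo.vH_real _ _ f)
  have k2 : ‖S.vy W v y e‖ ^ 2 ≤ ∑ f ∈ lbox S.l, Op.nq (S.vy W v (u + y) f) := by
    refine le_trans ?_ (single_le_sum (f := fun f => Op.nq (S.vy W v (u + y) f))
      (fun f _ => (sq_nonneg _).trans (rl f)) (a := (e.1 - up S.l u, e.2))
      (mem_lbox.2 (hu0 ▸ sub_up_yo_mem _ _)))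
    refine le_trans (le_of_eq ?_) (rl _)
    rw [vy_add, sh_apply, sub_add_cancel]
  have k3 : ∑ z ∈ box 3, S.hE W v (z + (u + y)) ≤ ∑ u ∈ box S.w, S.hE W v (y + u) := by
    rw [← sum_image (s := box 3) (g := fun z => z + u) (f := fun x => S.hE W v (y + x))
      (fun _ _ _ _ e => add_right_cancel e) |>.trans (sum_congr rfl fun z _ => by
        rw [add_comm y, add_assoc])]
    refine sum_le_sum_of_subset_of_nonneg (fun x hx => ?_) fun x _ _ => h.hE0 _ _ _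
    obtain ⟨z, hz, rfl⟩ := mem_image.1 hx
    exact box_mono (by omega) (add_mem_box hz hu)
  generalize ∑ u ∈ box S.w, S.hE W v (y + u) = X at k3 ⊢
  have l0 := L0 S.toTd
  have l1 := L1 S.toTd
  have t0 := h.ok.gt0
  have b0 := h.ok.β0
  have q1 := S.Q1
  have d1 : (1 : ℝ) ≤ S.D0 := by exact_mod_cast D1 _
  have k4 : S.β * (S.gt * (S.Q / (4 * S.L ^ (6 * S.c + 16)))) ^ 2 ≤ 2 * S.L ^ S.c * X + 1 := by
    refine le_trans ?_ (k1.trans (by gcongr))
    exact mul_le_mul_of_nonneg_left ((pow_le_pow_left₀ (by positivity) hv.le 2).trans k2) b0.le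
  have k5 : S.β * (S.gt * (S.Q / (4 * S.L ^ (6 * S.c + 16)))) ^ 2 =
      S.Q ^ 2 / (32 * S.L ^ (13 * S.c + 33)) := by
    have := h.ok.βgt
    rw [Λ_eq] at this
    field_simp
    linear_combination (16 * S.L ^ (12 * S.c + 32)) * this
  rw [k5, div_le_iff₀ (by positivity)] at k4
  by_contra hn
  have w1 : (1 : ℝ) ≤ S.w := w_eq S.toTd ▸ one_le_pow₀ l1
  have k6 : X ≤ (S.D0 : ℝ) ^ 6 * (3 * S.L ^ (2 * S.c + 6)) ^ 4 := by
    refine (not_le.1 hn).le.trans ?_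
    rw [← w_eq]
    gcongr
    linarith
  have k7 := h.nu.mon (C := 10 ^ 4) (i := 22 * S.c + 57) (j := 6) (by norm_num)
    (by have := h.nu.exps; omega) (by omega)
  have k8 : (1 : ℝ) ≤ S.L ^ (9 * S.c + 24) * (S.D0 : ℝ) ^ 6 :=
    one_le_mul_of_one_le_of_one_le (one_le_pow₀ l1) (one_le_pow₀ d1)
  have k9 : (2 * S.L ^ S.c * X + 1) * (32 * S.L ^ (13 * S.c + 33)) ≤
      5216 * S.L ^ (22 * S.c + 57) * (S.D0 : ℝ) ^ 6 := by
    calc _ ≤ (2 * S.L ^ S.c * ((S.D0 : ℝ) ^ 6 * (3 * S.L ^ (2 * S.c + 6)) ^ 4) +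
          S.L ^ (9 * S.c + 24) * (S.D0 : ℝ) ^ 6) * (32 * S.L ^ (13 * S.c + 33)) := by gcongr
      _ = _ := by ring
  have k10 : 0 < S.L ^ (22 * S.c + 57) * (S.D0 : ℝ) ^ 6 := by positivity
  nlinarith

end Pool.Agent.Lib.MP_7f377f_mp.RG.Q4.Sd.Hs
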