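import Pool.Agent.Lib.MP_7f377f_mp.G.Q4CovC

/-! Constants and tails of the truncated Gaussian measures. -/

noncomputable section

set_option linter.unusedSectionVars false
variable [Pool.Agent.Lib.MP_7f377f_mp.GD]

namespace Pool.Agent.Lib.MP_7f377f_mp.RG.Q4

open MeasureTheory Measure Set Ms
open scoped ENNReal

namespace Cov

theorem nu0_eq (ζ : ℝ) : nu0 ζ = gam0.restrict (Metric.closedBall 0 ζ) := by
  rw [gam0, nu0, restrict_withDensity measurableSet_closedBall]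

theorem zn_mono {ζ ζ' : ℝ} (h : ζ ≤ ζ') : zn ζ ≤ zn ζ' := by
  refine ENNReal.toReal_mono (nu0_fin _) ?_
  rw [nu0_eq, nu0_eq, restrict_apply_univ, restrict_apply_univ]
  exact measure_mono (Metric.closedBall_subset_closedBall h)

theorem zn_le (ζ : ℝ) : zn ζ ≤ zf := by
  refine ENNReal.toReal_mono gam0_fin ?_
  rw [nu0_eq, restrict_apply_univ]
  exact measure_mono (subset_univ _)

theorem card_ntr (l : ℕ) : (ntr l).card ≤ 4 * LL l ^ 4 := by
  refine (Finset.card_filter_le _ _).trans ?_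
  rw [lbox, Finset.card_product, card_box, Finset.card_univ, Fintype.card_fin, mul_comm]
  rfl

theorem gauss_fin {b : ℝ} (hb : 0 < b) :
    Integrable fun v : E3 => Real.exp (-(b * ‖v‖ ^ 2)) := by
  refine (GaussianFourier.integrable_cexp_neg_mul_sq_norm_add (V := E3) (b := b)
    (by simpa using hb) 0 0).norm.congr (.of_forall fun v => ?_)
  simp [Complex.norm_exp, ← Complex.ofReal_pow]

theorem gam0_tail : ∃ C : ℝ, 0 < C ∧ ∀ ζ : ℝ, 0 ≤ ζ →
    gam0 {v | ζ < ‖v‖} ≤ ENNReal.ofReal (C * Real.exp (-(ζ ^ 2 / 4))) := by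
  have hi := gauss_fin (b := 1 / 4) (by norm_num)
  have h0 : 0 ≤ ∫ v : E3, Real.exp (-(1 / 4 * ‖v‖ ^ 2)) :=
    integral_nonneg fun _ => (Real.exp_pos _).le
  refine ⟨(∫ v : E3, Real.exp (-(1 / 4 * ‖v‖ ^ 2))) + 1, by linarith, fun ζ hζ => ?_⟩
  have hs : MeasurableSet {v : E3 | ζ < ‖v‖} := measurableSet_lt measurable_const measurable_norm
  rw [gam0, withDensity_apply _ hs]
  calc _ ≤ ∫⁻ v in {v : E3 | ζ < ‖v‖}, ENNReal.ofReal (Real.exp (-(1 / 4 * ‖v‖ ^ 2))) *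
        ENNReal.ofReal (Real.exp (-(ζ ^ 2 / 4))) := by
        refine setLIntegral_mono' hs fun v hv => ?_
        rw [← ENNReal.ofReal_mul (Real.exp_pos _).le, ← Real.exp_add]
        refine ENNReal.ofReal_le_ofReal (Real.exp_le_exp.2 ?_)
        have : ζ < ‖v‖ := hv
        nlinarith
    _ ≤ ∫⁻ v : E3, ENNReal.ofReal (Real.exp (-(1 / 4 * ‖v‖ ^ 2))) *
        ENNReal.ofReal (Real.exp (-(ζ ^ 2 / 4))) := setLIntegral_le_lintegral _ _
    _ ≤ _ := by
        rw [lintegral_mul_const' _ _ ENNReal.ofReal_ne_top, ← ofReal_integral_eq_lintegral_ofReal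
          hi (.of_forall fun _ => (Real.exp_pos _).le), ← ENNReal.ofReal_mul h0]
        refine ENNReal.ofReal_le_ofReal ?_
        gcongr
        linarith

end Cov

open Cov

/-- the numerical constants of the change of variables -/
theorem cov_const : ∃ C : ℝ, 1 ≤ C ∧ (NG : ℝ) ≤ C ∧ cHa ≤ C ∧ cHa⁻¹ ≤ C ∧ zf ≤ C ∧
    (∀ ζ : ℝ, 1 ≤ ζ → zn ζ ≤ C ∧ (zn ζ)⁻¹ ≤ C) ∧
    (∀ (l : ℕ) (ζ Z : ℝ), 1 ≤ ζ → zn ζ ≤ Z → Z ≤ zf →
      cgd l ζ Z ≤ 1 ∧ (cgd l ζ Z)⁻¹ ≤ Real.exp (C * (LL l : ℝ) ^ 4)) ∧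
    ∀ ζ ζ' : ℝ, 0 ≤ ζ → 1 ≤ ζ' →
      (nu ζ').real {v | ζ < ‖v‖} ≤ C * Real.exp (-(ζ ^ 2 / 4)) := by
  obtain ⟨D, D0, hD⟩ := gam0_tail
  have z1 := zn_pos one_pos
  have c0 := cHa_pos
  have f0 := zf_pos
  set a := (zn 1)⁻¹ with ha
  have a0 : 0 < a := inv_pos.2 z1
  have c1 := inv_pos.2 c0
  have n1 := NG_one
  have k0 : 0 < 4 * (NG * (zf * a)) := by positivity
  have k1 : 0 < D * a := by positivity
  have hz : ∀ ζ : ℝ, 1 ≤ ζ → (zn ζ)⁻¹ ≤ a := fun ζ h => inv_anti₀ z1 (zn_mono h)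
  refine ⟨1 + NG + cHa + cHa⁻¹ + zf + a + 4 * (NG * (zf * a)) + D * a, by linarith, by linarith,
    by linarith, by linarith, by linarith, fun ζ h => ⟨by linarith [zn_le ζ], by linarith [hz ζ h]⟩,
    fun l ζ Z h h1 h2 => ?_, fun ζ ζ' h h' => ?_⟩
  · have p := zn_pos (one_pos.trans_le h)
    have Z0 : 0 < Z := p.trans_le h1
    have L1 : (1 : ℝ) ≤ (LL l : ℝ) ^ 4 := one_le_pow₀ (by simp [LL])
    constructor
    · exact mul_le_one₀ (inv_le_one_of_one_le₀ L1) (by positivity)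
        (pow_le_one₀ (by positivity) ((div_le_one (by positivity)).2 (by nlinarith)))
    · have e1 : (zn ζ / (NG * Z))⁻¹ ≤ Real.exp (NG * (zf * a)) := by
        rw [inv_div, div_eq_mul_inv]
        refine le_trans ?_ ((le_add_of_nonneg_right zero_le_one).trans (Real.add_one_le_exp _))
        rw [mul_assoc]
        gcongr
        exact hz ζ h
      have e2 : ((ntr l).card : ℝ) ≤ 4 * (LL l : ℝ) ^ 4 := by exact_mod_cast card_ntr l
      rw [cgd, mul_inv, inv_inv, ← inv_pow]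
      calc _ ≤ Real.exp ((LL l : ℝ) ^ 4) * Real.exp (NG * (zf * a)) ^ (ntr l).card := by
            gcongr
            linarith [Real.add_one_le_exp ((LL l : ℝ) ^ 4)]
        _ ≤ _ := by
            rw [← Real.exp_nat_mul, ← Real.exp_add]
            refine Real.exp_le_exp.2 ?_
            have : ((ntr l).card : ℝ) * (NG * (zf * a)) ≤ 4 * (LL l : ℝ) ^ 4 * (NG * (zf * a)) := by
              gcongr
            have : 0 ≤ (NG + cHa + cHa⁻¹ + zf + a + D * a) * (LL l : ℝ) ^ 4 := by positivity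
            nlinarith
  · have hs : MeasurableSet {v : E3 | ζ < ‖v‖} := measurableSet_lt measurable_const measurable_norm
    have e : (nu0 ζ' {v | ζ < ‖v‖}).toReal ≤ D * Real.exp (-(ζ ^ 2 / 4)) := by
      refine ENNReal.toReal_le_of_le_ofReal (by positivity) (le_trans ?_ (hD ζ h))
      rw [nu0_eq]
      exact restrict_le_self _
    rw [Measure.real, nu, Measure.smul_apply, smul_eq_mul, ENNReal.toReal_mul, ENNReal.toReal_inv]
    calc _ ≤ a * (D * Real.exp (-(ζ ^ 2 / 4))) :=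
          mul_le_mul (hz ζ' h') e ENNReal.toReal_nonneg a0.le
      _ ≤ _ := by
          rw [← mul_assoc, mul_comm a]
          gcongr
          linarith

end Pool.Agent.Lib.MP_7f377f_mp.RG.Q4
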