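import Pool.Agent.Lib.MP_7f377f_mp.G.Q4HoD
import Pool.Agent.Lib.MP_7f377f_mp.G.Q4CovD
import Pool.Agent.Lib.MP_7f377f_mp.G.Q4Num

/-! The factor of a block and the numbers of the budget. -/

noncomputable section

set_option linter.unusedSectionVars false
variable [Pool.Agent.Lib.MP_7f377f_mp.GD]

namespace Pool.Agent.Lib.MP_7f377f_mp.RG.Q4

open Finset MeasureTheory Ms
open scoped Classical

namespace Sd.Nu

variable {S : Sd} {a : ℕ} (h : S.Nu a)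
include h

/-- powers of polynomial size in `β` with exponent the number of links of a block -/
theorem pw_le {x : ℝ} {k : ℕ} (x0 : 0 ≤ x) (hx : x ≤ S.β ^ (a + 20)) (hk : k ≤ 4 * LL S.l ^ 4) :
    x ^ k ≤ Real.exp (S.L ^ 5 / 2) := by
  have e1 : x ≤ Real.exp S.r := hx.trans h.ex_r
  have e2 : (k : ℝ) ≤ 4 * S.L ^ 4 := by
    unfold Td.L
    exact_mod_cast hk
  have e3 := h.crL (C := 8) (k := 1) (le_trans (by norm_num)
    (pow_le_pow_right₀ (by norm_num) (Nat.le_add_left 20 a))) (by omega)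
  have l0 := L0 S.toTd
  refine (pow_le_pow_left₀ x0 e1 k).trans ?_
  rw [← Real.exp_nat_mul, Real.exp_le_exp]
  calc (k : ℝ) * S.r ≤ 4 * S.L ^ 4 * S.r := by gcongr
    _ = S.L ^ 4 * (8 * (S.r : ℝ) ^ 1) / 2 := by ring
    _ ≤ S.L ^ 4 * S.L / 2 := by gcongr
    _ = _ := by ring

theorem Q_le_β : S.Q ≤ S.β := (le_self_pow₀ S.Q1 (by norm_num)).trans h.ok.Qβ

theorem gt_inv : S.gt⁻¹ ≤ S.β ^ 3 := by
  have g0 := h.ok.g0
  have t0 := h.ok.gt0
  have b0 := h.ok.β0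
  have e1 : S.Λ ≤ S.β := (h.LQ (by have := h.exps; omega)).trans h.Q_le_β
  have e2 : (2 : ℝ) ≤ S.β := (h.cQ' (by norm_num)).trans h.Q_le_β
  have e3 : 0 < S.Λ := pow_pos (L0 _) _
  calc S.gt⁻¹ ≤ 2 * S.Λ * S.g⁻¹ := by
        rw [← div_eq_mul_inv, inv_eq_one_div, div_le_div_iff₀ t0 g0, one_mul]
        exact h.ok.le_gt
    _ ≤ S.β * S.β * S.β := by
        have := h.ok.ginv
        gcongr
    _ = _ := by ring

end Sd.Nu

/-- (G) the factor of a block -/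
theorem gn_bd (c : ℕ) : ∀ᶠ S in ev c, 0 < S.p0 ∧ S.p0⁻¹ ≤ Real.exp (S.L ^ 5) ∧
    ((2 * S.zm) ^ GD.d / zn S.zm) ^ (4 * LL S.l ^ 4) ≤ Real.exp (S.L ^ 5) ∧
    ∀ W v, ‖S.Gn W v‖ ≤ S.p0 * Real.exp (S.L ^ 5 - S.β * (LL S.l : ℝ) ^ 2 *
      ∑ μ, noG S.l (S.Uv W v) W (vo v) μ ^ 2 + (S.Eg W (vz S.l v)).re) := by
  obtain ⟨C, C1, cN, -, c2, -, c4, c5, -⟩ := cov_const
  obtain ⟨a, ha⟩ := pow_unbounded_of_one_lt C (show (1 : ℝ) < 10 by norm_num)
  have hC : C ≤ 10 ^ (a + 3 * GD.d + 20) := ha.le.trans (pow_le_pow_right₀ (by norm_num) (by omega))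
  filter_upwards [ev_nu' c (a + 3 * GD.d)] with S h
  have l0 := Sd.L0 S.toTd
  have l1 := Sd.L1 S.toTd
  have b0 := h.ok.β0
  have b1 := h.ok.β1
  have t0 := h.ok.gt0
  have ch := cHa_pos
  have z1 : 1 ≤ S.ζ := S.Q1
  have z2 : 1 ≤ S.zm := z1.trans h.ok.ζ_zm
  have p1 := zn_pos (one_pos.trans_le z1)
  have p2 := zn_pos (one_pos.trans_le z2)
  have Cβ : C ≤ S.β := (h.cQ hC).trans h.Q_le_β
  have e8 : (NG : ℝ) ≤ S.β := cN.trans Cβ
  have e2 : (2 : ℝ) ≤ S.β := (h.cQ' (by norm_num)).trans h.Q_le_β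
  have n0 : (0 : ℝ) < NG := one_pos.trans_le NG_one
  have hf : Real.exp (S.L ^ 5 / 2) ≤ Real.exp (S.L ^ 5) :=
    Real.exp_le_exp.2 (by linarith [pow_pos l0 5])
  have p0 : 0 < S.p0 := by
    have : (0 : ℝ) < LL S.l := l0
    unfold Sd.p0 cgd
    positivity
  have i1 := (c4 _ z1).2
  have i2 := c4 _ z2
  have i3 := h.gt_inv
  refine ⟨p0, (c5 S.l S.ζ _ z1 (Cov.zn_mono h.ok.ζ_zm) (Cov.zn_le _)).2.trans
    (Real.exp_le_exp.2 ?_), (h.pw_le (by positivity) ?_ le_rfl).trans hf, fun W v => ?_⟩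
  · rw [pow_succ' _ 4]
    exact h.cmul hC (by positivity)
  · have := h.zm_le
    calc _ = (2 * S.zm) ^ GD.d * (zn S.zm)⁻¹ := div_eq_mul_inv _ _
      _ ≤ (S.β * S.β ^ 2) ^ GD.d * S.β := by
        gcongr
        exact i2.2.trans Cβ
      _ = S.β ^ (3 * GD.d + 1) := by ring
      _ ≤ _ := pow_le_pow_right₀ b1 (by omega)
  have c0 : 0 < S.C0 := by
    unfold Sd.C0
    positivity
  have jn : ∀ t, 0 ≤ NG * th (vs S.l v t) (S.Af W (vz S.l v) t) *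
      dH (S.Af W (vz S.l v) t) * (S.gt ^ GD.d * zn S.zm) := fun t => by
    have := th_nonneg (vs S.l v t) (S.Af W (vz S.l v) t)
    have := dH_nonneg (S.Af W (vz S.l v) t)
    positivity
  have j0 : 0 ≤ S.Jk W v := by
    unfold Sd.Jk
    split_ifs
    exacts [prod_nonneg fun t _ => jn t, zero_le_one]
  have j1 : S.Jk W v / S.C0 ≤ Real.exp (S.L ^ 5 / 2) := by
    unfold Sd.Jk Sd.C0
    split_ifs
    · have k1 : ∏ t ∈ ntr S.l, NG * th (vs S.l v t) (S.Af W (vz S.l v) t) *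
          dH (S.Af W (vz S.l v) t) * (S.gt ^ GD.d * zn S.zm) ≤
          (NG * 1 * (2 * cHa) * (S.gt ^ GD.d * zn S.zm)) ^ (ntr S.l).card := by
        rw [← prod_const]
        refine prod_le_prod (fun t _ => jn t) fun t _ => ?_
        have := th_nonneg (vs S.l v t) (S.Af W (vz S.l v) t)
        have := dH_nonneg (S.Af W (vz S.l v) t)
        gcongr
        exacts [th_le _ _, dH_le _]
      refine (div_le_div_of_nonneg_right k1 (by positivity)).trans ?_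
      rw [← div_pow]
      refine h.pw_le (by positivity) ?_ (Cov.card_ntr _)
      calc _ = NG * 2 * zn S.zm * (zn S.ζ)⁻¹ := by field_simp
        _ ≤ S.β * S.β * S.β * S.β := by
          gcongr
          exacts [i2.1.trans Cβ, i1.trans Cβ]
        _ = S.β ^ 4 := by ring
        _ ≤ _ := pow_le_pow_right₀ b1 (by omega)
    · rw [one_div, ← inv_pow]
      refine h.pw_le (by positivity) ?_ (Cov.card_ntr _)
      calc _ = cHa⁻¹ * S.gt⁻¹ ^ GD.d * (zn S.ζ)⁻¹ := by rw [mul_inv, mul_inv, inv_pow]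
        _ ≤ S.β * (S.β ^ 3) ^ GD.d * S.β := by
          gcongr
          exacts [c2.trans Cβ, i1.trans Cβ]
        _ = S.β ^ (3 * GD.d + 2) := by ring
        _ ≤ _ := pow_le_pow_right₀ b1 (by omega)
  have w := (wt_int S.l (S.Uv W v)).1 (vo v 0)
  have w1 : wt S.l (S.Uv W v) (vo v 0) ≤ Real.exp (S.L ^ 5 / 2) := by
    refine w.2.trans (le_trans ?_ (Real.add_one_le_exp _))
    have := h.cmul (C := 2) (x := S.L ^ 4) (le_trans (by norm_num)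
      (pow_le_pow_right₀ (by norm_num) (Nat.le_add_left 20 _))) (by positivity)
    change S.L ^ 4 ≤ _
    linarith [pow_succ' S.L 4]
  have g : S.Gw W v = wt S.l (S.Uv W v) (vo v 0) * Real.exp (-(S.β * (LL S.l : ℝ) ^ 2 *
      ∑ μ, noG S.l (S.Uv W v) W (vo v) μ ^ 2)) := by
    rw [Sd.Gw, mul_sum, ← sum_neg_distrib, Real.exp_sum]
    rfl
  rw [Sd.Gn, norm_mul, Complex.norm_real, Complex.norm_exp, Real.exp_add, ← mul_assoc S.p0, g,
    Real.norm_of_nonneg (by have := w.1; positivity)]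
  refine mul_le_mul_of_nonneg_right ?_ (Real.exp_nonneg _)
  calc _ = S.p0 * (wt S.l (S.Uv W v) (vo v 0) * (S.Jk W v / S.C0) *
        Real.exp (-(S.β * (LL S.l : ℝ) ^ 2 * ∑ μ, noG S.l (S.Uv W v) W (vo v) μ ^ 2))) := by ring
    _ ≤ S.p0 * (Real.exp (S.L ^ 5 / 2) * Real.exp (S.L ^ 5 / 2) *
        Real.exp (-(S.β * (LL S.l : ℝ) ^ 2 * ∑ μ, noG S.l (S.Uv W v) W (vo v) μ ^ 2))) := by
      gcongr
    _ = _ := by rw [← Real.exp_add, ← Real.exp_add, add_halves, sub_eq_add_neg]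

/-- (N) the numbers of the budget -/
theorem bp_ok (c : ℕ) : ∀ᶠ S in ev c, S.bp.Ok := by
  filter_upwards [ev_nu' c 0] with S h
  obtain ⟨a1, a2, a3, a4, -, a6, a7, a8, a9⟩ := h.lens
  have l0 := Sd.L0 S.toTd
  have l1 := Sd.L1 S.toTd
  have q0 := S.Q0
  have q1 := S.Q1
  have qm := h.ok.QQM
  have g0 := h.ok.g'0
  have d2 : S.bp.d2 = S.D0 + 2 * (3 + (S.r + 5) + 2) + S.N := by
    rw [Td.N, pow_succ']
    rfl
  have dl : (10 : ℝ) ^ 9 ≤ S.D0 := by exact_mod_cast (by omega : 10 ^ 9 ≤ S.D0)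
  have d0 : (0 : ℝ) < S.D0 := by linarith
  have rl : (10 : ℝ) ^ 9 ≤ S.r := by exact_mod_cast a1
  have k13 : 2 * ((6 * S.D0 : ℕ) : ℝ) + 1 ≤ 13 * S.D0 := by
    push_cast
    linarith
  have q8 : 8 ≤ S.Q := h.cQ' (by norm_num)
  constructor
  case odd => exact h.ok.odd
  case n5 => change 5 ≤ S.n; omega
  case C1 => exact (pow_pos l0 _).le
  case el =>
    change 100 * (((3 : ℕ) : ℝ) + (S.r + 5 : ℕ) + 2) * (1 + S.L ^ (2 * S.c + 1) *
      (2 * ((3 : ℕ) : ℝ) + 1) ^ 4 * (2 * ((S.r + 5 : ℕ) : ℝ) + 1) ^ 4) ≤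
      (LL S.l ^ (2 * S.c + 3) : ℕ)
    have e := h.crL (C := 10 ^ 8) (k := 5) (by norm_num) (by omega)
    have e1 : (1 : ℝ) ≤ S.L ^ (2 * S.c + 1) * S.r ^ 4 :=
      one_le_mul_of_one_le_of_one_le (one_le_pow₀ l1) (one_le_pow₀ h.r1')
    push_cast
    calc _ ≤ 100 * (2 * S.r) * (S.L ^ (2 * S.c + 1) * S.r ^ 4 + S.L ^ (2 * S.c + 1) *
          (2 * 3 + 1) ^ 4 * (3 * (S.r : ℝ)) ^ 4) := by
          gcongr <;> linarith
      _ = S.L ^ (2 * S.c + 1) * (38896400 * S.r ^ 5) := by ring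
      _ ≤ S.L ^ (2 * S.c + 1) * S.L := by
          gcongr
          linarith [pow_nonneg (Nat.cast_nonneg S.r : (0 : ℝ) ≤ _) 5]
      _ ≤ S.L ^ (2 * S.c + 3) := (pow_succ _ _).ge.trans (Sd.pw _ (by omega))
  case M => exact (h.cQ' (by norm_num)).trans (le_self_pow₀ q1 (by norm_num))
  case j =>
    change S.Q ^ 8 + 1 ≤ Real.exp S.L
    calc _ ≤ S.Q ^ 8 * S.Q := by nlinarith [one_le_pow₀ (n := 8) q1]
      _ ≤ S.β ^ (0 + 20) := ((pow_succ _ _).ge.trans ((S.Qw (by norm_num)).trans h.ok.Qβ)).trans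
          (le_self_pow₀ h.ok.β1 (by norm_num))
      _ ≤ _ := h.ex_r.trans (Real.exp_le_exp.2 h.r_le_L)
  case D1 => rw [d2]; change _ + (S.r + 5) ≤ 3 * S.D0; omega
  case R => change 4 * S.D0 + 1 ≤ 2 * (3 * S.D0); omega
  case D13 => change 3 * S.D0 + 2 ≤ 5 * S.D0; omega
  case dN => rw [d2]; change 2 * S.D0 + _ ≤ 5 * S.D0; omega
  case dD => rw [d2]; change _ + S.w ≤ 6 * S.D0; omega
  case dD3 => change S.w ≤ 5 * S.D0; omega
  case D4 => change 5 * S.D0 ≤ 6 * S.D0; omega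
  case DD0 => change 1 ≤ 20 * S.M ^ S.K0; omega
  case DD =>
    change 4 * (20 * S.M ^ S.K0) / LL S.l + 3 * S.D0 + 3 ≤ 20 * S.D0
    have : 4 * (20 * S.M ^ S.K0) / LL S.l ≤ S.D0 := Nat.div_le_of_le_mul (by omega)
    omega
  case U => exact d0.le
  case U0 => exact d0.le
  case M1 => exact (pow_pos q0 _).le
  case M2 => exact (mul_pos (pow_pos q0 _) d0).le
  case lam => exact Real.sqrt_nonneg _
  case g0 => exact d0.le
  case e12 => exact mul_le_mul_of_nonneg_right (le_self_pow₀ q1 (by norm_num)) g0.le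
  case gD =>
    change ((S.D0 : ℝ) + 2 * S.D0 + 10) * (2 * ((6 * S.D0 : ℕ) : ℝ) + 1) ^ 4 + S.D0 ≤ S.D0 ^ 6
    calc _ ≤ 4 * S.D0 * (13 * (S.D0 : ℝ)) ^ 4 + S.D0 ^ 5 := by
          gcongr
          exacts [by linarith, le_self_pow₀ (by linarith) (by norm_num)]
      _ = 114245 * S.D0 ^ 5 := by ring
      _ ≤ S.D0 * S.D0 ^ 5 := by
          gcongr
          linarith
      _ = _ := by ring
  case gN =>
    change ((S.D0 : ℝ) ^ 6 + S.Q ^ 5) * (2 * ((6 * S.D0 : ℕ) : ℝ) + 1) ^ 4 ≤ S.Q ^ 6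
    have e := h.mon (C := 1) (i := 0) (j := 6) (by norm_num) (by omega) (by omega)
    have e1 := h.mon (C := 57122) (i := 0) (j := 4) (by norm_num) (by omega) (by omega)
    rw [pow_zero, mul_one] at e e1
    calc _ ≤ (S.Q ^ 5 + S.Q ^ 5) * (13 * (S.D0 : ℝ)) ^ 4 := by
          gcongr
          linarith [le_self_pow₀ q1 (show 5 ≠ 0 by norm_num)]
      _ = S.Q ^ 5 * (57122 * S.D0 ^ 4) := by ring
      _ ≤ S.Q ^ 5 * S.Q := by gcongr
      _ = _ := by ring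
  case u =>
    change 2 * (S.D0 : ℝ) ^ 6 * (2 * ((6 * S.D0 : ℕ) : ℝ) + 1) ^ 4 *
      (2 * ((20 * S.M ^ S.K0 : ℕ) : ℝ) + 1) ^ 4 + S.D0 ≤ S.Q
    have e := h.mon (C := 4 * 13 ^ 4 * 41 ^ 4) (i := 4) (j := 14) (by norm_num)
      (by have := h.exps; omega) (by omega)
    have e1 := h.mon (C := 2) (i := 0) (j := 1) (by norm_num) (by omega) (by omega)
    have e2 : 2 * ((20 * S.M ^ S.K0 : ℕ) : ℝ) + 1 ≤ 41 * (S.L * S.D0) := by
      push_cast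
      nlinarith [h.MD_le']
    calc _ ≤ 2 * (S.D0 : ℝ) ^ 6 * (13 * (S.D0 : ℝ)) ^ 4 * (41 * (S.L * S.D0)) ^ 4 + S.D0 := by
          gcongr
      _ ≤ _ := by linarith
  case G2 => exact mul_le_mul_of_nonneg_left qm zero_le_two
  case G0 =>
    change 2 * S.Q + 4 * (2 * S.QM) + S.Q ^ 2 * S.D0 * (2 * ((20 * S.D0 : ℕ) : ℝ) + 1) ^ 4 ≤
      S.QM ^ 3
    have e := h.mon (C := 2 * 41 ^ 4) (i := 0) (j := 5) (by norm_num) (by omega) (by omega)
    have e2 : 2 * ((20 * S.D0 : ℕ) : ℝ) + 1 ≤ 41 * S.D0 := by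
      push_cast
      linarith
    have e3 : S.Q ^ 2 * S.D0 * (2 * ((20 * S.D0 : ℕ) : ℝ) + 1) ^ 4 ≤ S.QM ^ 3 / 2 :=
      calc _ ≤ S.Q ^ 2 * S.D0 * (41 * (S.D0 : ℝ)) ^ 4 := by gcongr
        _ = S.Q ^ 2 * (2 * 41 ^ 4 * S.L ^ 0 * S.D0 ^ 5) / 2 := by ring
        _ ≤ S.QM ^ 2 * S.QM / 2 := by
          gcongr
          exact e.trans qm
        _ = _ := by ring
    have e4 : 8 * 8 * S.QM ≤ S.QM * S.QM * S.QM := by gcongr <;> linarith
    nlinarith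
  case G0' => exact pow_le_pow_left₀ q0.le qm 3
  case G2' => exact ⟨(mul_pos two_pos q0).le, mul_le_mul_of_nonneg_left qm zero_le_two⟩
  case e1 =>
    change (5 * (2 * S.Q) + 2 * S.Q) * (2 * ((4 * S.D0 : ℕ) : ℝ) + 3) ^ 4 ≤ S.p'.lam * S.p'.ε
    rw [Sd.p'_lam, Sd.p'_ε, mul_left_comm S.g'⁻¹, inv_mul_cancel₀ g0.ne', mul_one]
    have e := h.mon (C := 12 * 9 ^ 4) (i := 0) (j := 4) (by norm_num) (by omega) (by omega)
    have e2 : 2 * ((4 * S.D0 : ℕ) : ℝ) + 3 ≤ 9 * S.D0 := by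
      push_cast
      linarith
    calc _ ≤ (5 * (2 * S.Q) + 2 * S.Q) * (9 * (S.D0 : ℝ)) ^ 4 := by gcongr
      _ = S.Q * (12 * 9 ^ 4 * S.L ^ 0 * S.D0 ^ 4) := by ring
      _ ≤ S.Q * S.Q := by gcongr
      _ = _ := by ring
  case e2 =>
    change S.Q ≤ S.p'.lam * S.ε2
    rw [Sd.p'_lam, Sd.ε2_eq, mul_left_comm, inv_mul_cancel₀ g0.ne', mul_one]

end Pool.Agent.Lib.MP_7f377f_mp.RG.Q4
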