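import Pool.Agent.Lib.MP_7f377f_mp.G.Q4HoB

/-! Sites with a large block field, and sites with large noise. -/

noncomputable section

set_option linter.unusedSectionVars false
variable [Pool.Agent.Lib.MP_7f377f_mp.GD]

namespace Pool.Agent.Lib.MP_7f377f_mp.RG.Q4.Sd.Hs

open Finset Hj
open scoped Classical

attribute [local irreducible] box tb rc lbox

variable {S : Sd} {W : Conf} {v : VB} {O : Finset Ob} {ψ : Lx} {y : St}
  (h : S.Hs) (H : S.Nv W v O ψ)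
include h H

theorem bf_bad (hy : y ∈ Wk O) :
    ∃ q ∈ Wk O, nearT S.n (S.p'.R + 1) y q ∧ S.p'.ε < fs W q := by
  have ln := h.nu.lens
  have hb := H.sup.bad hy
  simp only [Fq, not_forall, not_le] at hb
  obtain ⟨x, hx, μ, ν, hb⟩ := hb
  have e : fq (sh y W) x μ ν = fq (sh (x + y) W) 0 μ ν := by rw [Rb.fq_sh, Rb.fq_sh, zero_add]
  have n0 : ¬ Far S.n 0 (S.HD O) y := fun hf =>
    hf y (mem_union_left _ (mem_union_right _ hy)) (nearT.refl _ _ _)
  refine ⟨rc S.n (x + y), by_contra fun hw => ?_, nearT_rc_right.2 (add_comm y x ▸ nearT_add hx),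
    hb.trans_le ?_⟩
  · exact hb.not_ge (e ▸ H.good (near_mono (near_add n0 hx) (by rw [p'_R]; omega) Subset.rfl) hw
      (by omega) 0 (zero_mem_box _) μ ν)
  · rw [e, ← sh_rc H.per, Rb.fq_sh, zero_add]
    exact fq_le_fs _ _ _ _

theorem bf_noi (hy : y ∈ S.Nz W v O) : 4 * S.Q ^ 6 ≤ S.eE W v O y := by
  obtain ⟨⟨μ, hμ⟩, -⟩ := And.intro (mem_filter.1 hy).2 H
  have g0 := h.ok.g0
  have Q0 := S.Q0
  have b0 := h.ok.β0
  have h1 : (S.Q ^ 3 * S.g) ^ 2 ≤ ∑ μ, S.noE W v y μ ^ 2 :=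
    (pow_le_pow_left₀ (a := S.Q ^ 3 * S.g) (by positivity) hμ.le 2).trans
      (single_le_sum (f := fun μ => S.noE W v y μ ^ 2) (fun _ _ => sq_nonneg _) (mem_univ μ))
  have h2 : (4 : ℝ) ≤ (LL S.l : ℝ) ^ 2 := by
    have := h.nu.cL' (C := 2) (by norm_num)
    unfold Td.L at this
    nlinarith
  refine le_trans ?_ (le_add_of_nonneg_left (mul_nonneg b0.le
    (sum_nonneg fun _ _ => cx_Bx_nonneg h.tok.lin.psd _ _)))
  calc _ = S.β * 4 * (S.Q ^ 3 * S.g) ^ 2 := by linear_combination (-4 * S.Q ^ 6) * h.ok.βg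
    _ ≤ _ := by gcongr; exact h1

end Pool.Agent.Lib.MP_7f377f_mp.RG.Q4.Sd.Hs
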