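import Pool.Agent.Lib.MP_7f377f_mp.G.Q4CubeB

/-! Taylor expansion of order two for functions with jets. -/

noncomputable section

set_option linter.unusedSectionVars false
variable [Pool.Agent.Lib.MP_7f377f_mp.GD]

namespace Pool.Agent.Lib.MP_7f377f_mp.RG.Q4

open Finset Filter
open scoped Topology

namespace Ty

variable {W : Type} [AddCommGroup W] [Module ℝ W] {p : Seminorm ℝ W} {φ F : W → ℂ}
  {ρ K K1 K2 K3 s : ℝ} {a b c x : W}

/-- difference operator -/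
def Dv (a : W) (F : W → ℂ) (x : W) : ℂ := F (x + a) - F x

omit [Module ℝ W] in
theorem Dv_comm (a b : W) (F : W → ℂ) : Dv a (Dv b F) = Dv b (Dv a F) := by
  funext x
  simp only [Dv, add_right_comm x a b]
  ring

theorem tele (hs : 0 < s) (h : ∀ x a, p x ≤ ρ → p a ≤ s → ‖Dv a F x‖ ≤ K * p a) (x a : W)
    (hx : p x + p a ≤ ρ) : ‖Dv a F x‖ ≤ K * p a := by
  obtain ⟨n, hn⟩ := exists_nat_gt (p a / s)
  have a0 := apply_nonneg p a
  have n0 : (0 : ℝ) < n := lt_of_le_of_lt (by positivity) hn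
  have e := sum_range_sub (fun k : ℕ => F (x + (k / n : ℝ) • a)) n
  rw [div_self n0.ne', one_smul, Nat.cast_zero, zero_div, zero_smul, add_zero] at e
  rw [Dv, ← e]
  have q : p ((n : ℝ)⁻¹ • a) = p a / n := by
    rw [map_smul_eq_mul, Real.norm_of_nonneg (by positivity), inv_mul_eq_div]
  refine (norm_sum_le _ _).trans ((sum_le_card_nsmul _ _ (K * (p a / n)) fun k hk => ?_).trans_eq ?_)
  · have k1 : (k : ℝ) / n ≤ 1 := (div_le_one n0).2 (by exact_mod_cast (mem_range.1 hk).le)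
    have := h (x + (k / n : ℝ) • a) ((n : ℝ)⁻¹ • a) ((map_add_le_add p _ _).trans (by
      rw [map_smul_eq_mul, Real.norm_of_nonneg (by positivity)]
      nlinarith)) (by rw [q, div_le_iff₀ n0]; rw [div_lt_iff₀ hs] at hn; linarith)
    rwa [q, Dv, add_assoc, ← add_smul, show (k / n : ℝ) + (n : ℝ)⁻¹ = (k + 1 : ℕ) / n by
      push_cast; ring] at this
  · rw [card_range, nsmul_eq_mul]
    field_simp

/-- bounds for the differences of orders one to three in the ball of radius `ρ` -/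
structure Bd (p : Seminorm ℝ W) (ρ K1 K2 K3 : ℝ) (φ : W → ℂ) : Prop where
  b1 : ∀ x a, p x + p a ≤ ρ → ‖Dv a φ x‖ ≤ K1 * p a
  b2 : ∀ x a b, p x + p a + p b ≤ ρ → ‖Dv b (Dv a φ) x‖ ≤ K2 * p a * p b
  b3 : ∀ x a b c, p x + p a + p b + p c ≤ ρ → ‖Dv c (Dv b (Dv a φ)) x‖ ≤ K3 * p a * p b * p c

theorem bd_of_small (hs : 0 < s) (h : ∀ x a b c, p x ≤ ρ → p a ≤ s → p b ≤ s → p c ≤ s →
    ‖Dv a φ x‖ ≤ K1 * p a ∧ ‖Dv b (Dv a φ) x‖ ≤ K2 * p a * p b ∧
      ‖Dv c (Dv b (Dv a φ)) x‖ ≤ K3 * p a * p b * p c) : Bd p ρ K1 K2 K3 φ := by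
  have z : p 0 ≤ s := by rw [map_zero]; exact hs.le
  refine ⟨tele hs fun x a hx ha => (h x a 0 0 hx ha z z).1, fun x a b hx => ?_,
    fun x a b c hx => ?_⟩
  · rw [Dv_comm, mul_right_comm]
    refine tele (ρ := ρ - p b) hs (fun x a hx ha => ?_) x a (by linarith)
    rw [Dv_comm, mul_right_comm]
    exact tele hs (fun x b hx hb => (h x a b 0 hx ha hb z).2.1) x b (by linarith)
  · rw [Dv_comm b a, Dv_comm c a, show K3 * p a * p b * p c = K3 * p b * p c * p a by ring]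
    refine tele (ρ := ρ - p b - p c) hs (fun x a hx ha => ?_) x a (by linarith)
    rw [Dv_comm a c, Dv_comm a b, Dv_comm c b,
      show K3 * p b * p c * p a = K3 * p a * p c * p b by ring]
    refine tele (ρ := ρ - p c) hs (fun x b hx hb => ?_) x b (by linarith)
    rw [Dv_comm b c, mul_right_comm]
    exact tele hs (fun x c hx hc => (h x a b c hx ha hb hc).2.2) x c (by linarith)

/-- the scale `2 ^ (-n)` -/
def tn (n : ℕ) : ℝ := 2⁻¹ ^ n

theorem tn_pos (n : ℕ) : 0 < tn n := by rw [tn]; positivity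

theorem p_tn (n : ℕ) (a : W) : p (tn n • a) = tn n * p a := by
  rw [map_smul_eq_mul, Real.norm_of_nonneg (tn_pos n).le]

theorem tn_succ (n : ℕ) (a : W) : tn n • a = tn (n + 1) • a + tn (n + 1) • a := by
  rw [← add_smul, tn, tn, pow_succ]
  congr 1
  ring

theorem tn_lim : Tendsto tn atTop (𝓝 0) :=
  tendsto_pow_atTop_nhds_zero_of_lt_one (by norm_num) (by norm_num)

theorem tn_ev (hρ : 0 < ρ) (y : ℝ) : ∀ᶠ n in atTop, tn n * y ≤ ρ :=
  (tn_lim.mul_const y).eventually_le_const (by rwa [zero_mul])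

theorem two_tn (n : ℕ) : 2 ^ n * tn n = 1 := by rw [tn, ← mul_pow]; norm_num

def q1 (φ : W → ℂ) (a : W) (n : ℕ) : ℂ := 2 ^ n * Dv (tn n • a) φ 0

def q2 (φ : W → ℂ) (a b : W) (n : ℕ) : ℂ := 4 ^ n / 2 * Dv (tn n • b) (Dv (tn n • a) φ) 0

theorem k1_eq (φ : W → ℂ) (a : W) : k1 φ a = limUnder atTop (q1 φ a) := by
  unfold k1 q1
  simp only [Dv, tn, zero_add]

theorem kq_eq (φ : W → ℂ) (a b : W) : kq φ a b = limUnder atTop (q2 φ a b) := by
  unfold kq q2
  congr 1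
  funext n
  simp only [Dv, tn, zero_add, add_comm (_ • b)]
  ring

theorem geo {u : ℕ → ℂ} {C : ℝ} (h : ∀ n, ‖u n - u (n + 1)‖ ≤ C * tn n) :
    ∃ L, Tendsto u atTop (𝓝 L) ∧ ‖u 0 - L‖ ≤ 2 * C := by
  have h' : ∀ n, dist (u n) (u (n + 1)) ≤ C * 2⁻¹ ^ n := fun n => by rw [dist_eq_norm]; exact h n
  obtain ⟨L, hL⟩ := cauchySeq_tendsto_of_complete
    (cauchySeq_of_le_geometric _ C (by norm_num) h')
  refine ⟨L, hL, ?_⟩
  rw [← dist_eq_norm]
  exact (dist_le_of_le_geometric_of_tendsto₀ _ C (by norm_num) h' hL).trans_eq (by ring)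

theorem lim_zero {u : ℕ → ℂ} {L : ℂ} {C : ℝ} (h : Tendsto u atTop (𝓝 L))
    (hb : ∀ᶠ n in atTop, ‖u n‖ ≤ C * tn n) : L = 0 :=
  tendsto_nhds_unique h (squeeze_zero_norm' hb (by simpa using tn_lim.const_mul C))

theorem nrm2 (n : ℕ) (z : ℂ) : ‖2 ^ n * z‖ = 2 ^ n * ‖z‖ := by simp

theorem nrm4 (n : ℕ) (z : ℂ) : ‖4 ^ n / 2 * z‖ = 2 ^ n * 2 ^ n / 2 * ‖z‖ := by
  rw [← mul_pow]
  norm_num

theorem tn_half (n : ℕ) : tn (n + 1) = tn n / 2 := by rw [tn, tn, pow_succ]; ring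

theorem tn_le (n : ℕ) : tn n ≤ 1 := pow_le_one₀ (by norm_num) (by norm_num)

theorem Bd.lim1 (H : Bd p ρ K1 K2 K3 φ) (hρ : 0 < ρ) (a : W) :
    Tendsto (q1 φ a) atTop (𝓝 (k1 φ a)) := by
  have small : ∀ a, p a ≤ ρ → ∃ L, Tendsto (q1 φ a) atTop (𝓝 L) := fun a ha => by
    refine (geo (C := K2 * p a ^ 2 / 4) fun n => ?_).imp fun _ h => h.1
    have e : q1 φ a n - q1 φ a (n + 1) = 2 ^ n * Dv (tn (n + 1) • a) (Dv (tn (n + 1) • a) φ) 0 := by
      simp only [q1, Dv, zero_add, tn_succ n a]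
      ring
    rw [e, nrm2]
    refine (mul_le_mul_of_nonneg_left (H.b2 _ _ _ (by
      rw [map_zero, p_tn, tn_half]
      nlinarith [tn_le n, apply_nonneg p a])) (by positivity)).trans_eq ?_
    rw [p_tn, tn_half]
    linear_combination K2 * p a ^ 2 / 4 * tn n * two_tn n
  obtain ⟨m, hm⟩ := (tn_ev hρ (p a)).exists
  obtain ⟨L, hL⟩ := small (tn m • a) (by rwa [p_tn])
  rw [k1_eq]
  refine tendsto_nhds_limUnder ⟨2 ^ m * L, (tendsto_add_atTop_iff_nat m).1
    ((hL.const_mul _).congr fun n => ?_)⟩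
  simp only [q1, tn, smul_smul, pow_add]
  ring

theorem Bd.geo2 (H : Bd p ρ K1 K2 K3 φ) (h : p a + p b ≤ ρ) : ∃ L, Tendsto (q2 φ a b) atTop (𝓝 L) ∧
    ‖q2 φ a b 0 - L‖ ≤ 2 * (|K3| * p a * p b * (p a + p b) / 8) := by
  refine geo fun n => ?_
  obtain ⟨u, hu⟩ : ∃ u, u = tn (n + 1) • a := ⟨_, rfl⟩
  obtain ⟨v, hv⟩ : ∃ v, v = tn (n + 1) • b := ⟨_, rfl⟩
  have e : q2 φ a b n - q2 φ a b (n + 1) = 4 ^ n / 2 * (Dv u (Dv v (Dv u φ)) 0 +
      Dv v (Dv v (Dv u φ)) 0 + Dv (u + v) (Dv v (Dv u φ)) 0) := by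
    simp only [q2, Dv, zero_add, tn_succ n a, tn_succ n b, ← hu, ← hv]
    abel_nf
    ring
  have pu : p u = tn n / 2 * p a := by rw [hu, p_tn, tn_half]
  have pv : p v = tn n / 2 * p b := by rw [hv, p_tn, tn_half]
  have a0 := apply_nonneg p a
  have b0 := apply_nonneg p b
  have t0 := tn_pos n
  have u0 := apply_nonneg p u
  have v0 := apply_nonneg p v
  have q : 2 * (p u + p v) ≤ ρ := by rw [pu, pv]; nlinarith [tn_le n]
  have w := map_add_le_add p u v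
  have key : ∀ c, p c ≤ p u + p v → ‖Dv c (Dv v (Dv u φ)) 0‖ ≤ |K3| * p u * p v * p c :=
    fun c hc => (H.b3 _ _ _ _ (by rw [map_zero]; linarith)).trans (by gcongr; exact le_abs_self _)
  rw [e, nrm4]
  refine (mul_le_mul_of_nonneg_left (norm_add₃_le.trans (add_le_add_three (key u (by linarith))
    (key v (by linarith)) ((key _ w).trans (mul_le_mul_of_nonneg_left w (by positivity)))))
    (by positivity)).trans_eq ?_
  rw [pu, pv]
  linear_combination |K3| * p a * p b * (p a + p b) / 8 * tn n * (2 ^ n * tn n + 1) * two_tn n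

theorem Bd.lim2 (H : Bd p ρ K1 K2 K3 φ) (hρ : 0 < ρ) (a b : W) :
    Tendsto (q2 φ a b) atTop (𝓝 (kq φ a b)) := by
  obtain ⟨m, hm⟩ := (tn_ev hρ (p a + p b)).exists
  obtain ⟨L, hL, -⟩ := H.geo2 (a := tn m • a) (b := tn m • b) (by rw [p_tn, p_tn]; linarith)
  rw [kq_eq]
  refine tendsto_nhds_limUnder ⟨4 ^ m * L, (tendsto_add_atTop_iff_nat m).1
    ((hL.const_mul _).congr fun n => ?_)⟩
  simp only [q2, tn, smul_smul, pow_add]
  ring

theorem Bd.k1_le (H : Bd p ρ K1 K2 K3 φ) (hρ : 0 < ρ) (a : W) : ‖k1 φ a‖ ≤ K1 * p a := by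
  refine le_of_tendsto (H.lim1 hρ a).norm ((tn_ev hρ (p a)).mono fun n hn => ?_)
  rw [q1, nrm2]
  refine (mul_le_mul_of_nonneg_left (H.b1 _ _ (by rwa [map_zero, p_tn, zero_add]))
    (by positivity)).trans_eq ?_
  rw [p_tn]
  linear_combination K1 * p a * two_tn n

theorem Bd.kq_le (H : Bd p ρ K1 K2 K3 φ) (hρ : 0 < ρ) (a b : W) :
    ‖kq φ a b‖ ≤ K2 / 2 * p a * p b := by
  refine le_of_tendsto (H.lim2 hρ a b).norm ((tn_ev hρ (p a + p b)).mono fun n hn => ?_)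
  rw [q2, nrm4]
  refine (mul_le_mul_of_nonneg_left (H.b2 _ _ _ (by rw [map_zero, p_tn, p_tn]; linarith))
    (by positivity)).trans_eq ?_
  rw [p_tn, p_tn]
  linear_combination K2 / 2 * p a * p b * (2 ^ n * tn n + 1) * two_tn n

/-- a bounded additive function is linear -/
def lin (p : Seminorm ℝ W) (f : W → ℂ) (K : ℝ) (h1 : ∀ a b, f (a + b) = f a + f b)
    (h2 : ∀ a, ‖f a‖ ≤ K * p a) : W →ₗ[ℝ] ℂ where
  toFun := f
  map_add' := h1
  map_smul' t a := by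
    have := map_real_smul (AddMonoidHom.mk' (fun t : ℝ => f (t • a)) fun s t => by
      rw [add_smul, h1]) (AddMonoidHomClass.continuous_of_bound _ (K * p a) fun t =>
        (h2 _).trans_eq (by rw [map_smul_eq_mul]; ring)) t 1
    simpa using this

theorem Bd.k1_add (H : Bd p ρ K1 K2 K3 φ) (hρ : 0 < ρ) (a b : W) :
    k1 φ (a + b) = k1 φ a + k1 φ b := by
  have := lim_zero (C := K2 * p a * p b) (((H.lim1 hρ (a + b)).sub (H.lim1 hρ a)).sub (H.lim1 hρ b))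
    ((tn_ev hρ (p a + p b)).mono fun n hn => by
      have e : q1 φ (a + b) n - q1 φ a n - q1 φ b n =
          2 ^ n * Dv (tn n • b) (Dv (tn n • a) φ) 0 := by
        simp only [q1, Dv, zero_add, smul_add, add_comm (_ • b)]
        ring
      rw [e, nrm2]
      refine (mul_le_mul_of_nonneg_left (H.b2 _ _ _ (by rw [map_zero, p_tn, p_tn]; linarith))
        (by positivity)).trans_eq ?_
      rw [p_tn, p_tn]
      linear_combination K2 * p a * p b * tn n * two_tn n)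
  linear_combination this

theorem kq_sym (φ : W → ℂ) (a b : W) : kq φ a b = kq φ b a := by
  rw [kq_eq, kq_eq]
  congr 1
  funext n
  rw [q2, q2, Dv_comm]

theorem Bd.kq_add (H : Bd p ρ K1 K2 K3 φ) (hρ : 0 < ρ) (a b c : W) :
    kq φ a (b + c) = kq φ a b + kq φ a c := by
  have := lim_zero (C := K3 / 2 * p a * p b * p c)
    (((H.lim2 hρ a (b + c)).sub (H.lim2 hρ a b)).sub (H.lim2 hρ a c))
    ((tn_ev hρ (p a + p b + p c)).mono fun n hn => by
      have e : q2 φ a (b + c) n - q2 φ a b n - q2 φ a c n =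
          4 ^ n / 2 * Dv (tn n • c) (Dv (tn n • b) (Dv (tn n • a) φ)) 0 := by
        simp only [q2, Dv, zero_add, smul_add, add_comm (_ • c) (_ • b)]
        ring
      rw [e, nrm4]
      refine (mul_le_mul_of_nonneg_left (H.b3 _ _ _ _ (by
        rw [map_zero, p_tn, p_tn, p_tn]; linarith)) (by positivity)).trans_eq ?_
      rw [p_tn, p_tn, p_tn]
      linear_combination K3 / 2 * p a * p b * p c * tn n * (2 ^ n * tn n + 1) * two_tn n)
  linear_combination this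

theorem Bd.forms (H : Bd p ρ K1 K2 K3 φ) (hρ : 0 < ρ) : (∃ L : W →ₗ[ℝ] ℂ, ∀ a, L a = k1 φ a) ∧
    ∃ Q : W →ₗ[ℝ] W →ₗ[ℝ] ℂ, ∀ a b, Q a b = kq φ a b := by
  have l := fun a => lin p (kq φ a) _ (H.kq_add hρ a) (H.kq_le hρ a)
  have sm : ∀ a (t : ℝ) b, kq φ a (t • b) = t • kq φ a b := fun a =>
    (lin p (kq φ a) _ (H.kq_add hρ a) (H.kq_le hρ a)).map_smul
  exact ⟨⟨lin p _ _ (H.k1_add hρ) (H.k1_le hρ), fun _ => rfl⟩, LinearMap.mk₂ ℝ (kq φ)
    (fun a b c => by rw [kq_sym, H.kq_add hρ, kq_sym φ c, kq_sym φ c])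
    (fun t a b => by rw [kq_sym, sm, kq_sym]) (H.kq_add hρ) fun t a b => sm a t b, fun _ _ => rfl⟩

/-- graded bounds for a cubic remainder -/
structure Cub (p : Seminorm ℝ W) (ρ K : ℝ) (F : W → ℂ) : Prop where
  f0 : ∀ a D, p a ≤ D → D ≤ ρ → ‖F a‖ ≤ K * D ^ 3
  f1 : ∀ x a α D, p a ≤ α → p x + α ≤ D → D ≤ ρ → ‖Dv a F x‖ ≤ 2 * K * α * D ^ 2
  f2 : ∀ x a b α β D, p a ≤ α → p b ≤ β → p x + α + β ≤ D → D ≤ ρ →
    ‖Dv b (Dv a F) x‖ ≤ K * α * β * D
  f3 : ∀ x a b c α β γ, p a ≤ α → p b ≤ β → p c ≤ γ → p x + α + β + γ ≤ ρ →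
    ‖Dv c (Dv b (Dv a F)) x‖ ≤ K * α * β * γ

theorem Bd.cub (H : Bd p ρ K1 K2 K3 φ) (hρ : 0 < ρ) (hK : 0 ≤ K3) :
    Cub p ρ K3 fun a => φ a - φ 0 - k1 φ a - kq φ a a := by
  obtain ⟨⟨L, hL⟩, Q, hQ⟩ := H.forms hρ
  have sy : ∀ a b, Q a b = Q b a := fun a b => by rw [hQ, hQ, kq_sym]
  simp only [← hL, ← hQ]
  obtain ⟨F, hF⟩ : ∃ F : W → ℂ, F = fun a => φ a - φ 0 - L a - Q a a := ⟨_, rfl⟩
  rw [← hF]
  have nn := apply_nonneg p
  have e2 : ∀ a b, Dv b (Dv a F) = fun x => Dv b (Dv a φ) x - 2 * Q a b := fun a b => by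
    funext x
    simp only [hF, Dv, map_add, LinearMap.add_apply, sy b a]
    ring
  have f2 : ∀ x a b α β D, p a ≤ α → p b ≤ β → p x + α + β ≤ D → D ≤ ρ →
      ‖Dv b (Dv a F) x‖ ≤ K3 * α * β * D := fun x a b α β D ha hb hD h => by
    obtain ⟨L', h1, h2⟩ := H.geo2 (a := a) (b := b) (by linarith [nn x])
    rw [tendsto_nhds_unique h1 (H.lim2 hρ a b), ← hQ, abs_of_nonneg hK] at h2
    have h3 := H.b3 0 a b x (by rw [map_zero]; linarith)
    have e : Dv b (Dv a F) x = Dv x (Dv b (Dv a φ)) 0 + 2 * (q2 φ a b 0 - Q a b) := by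
      simp only [e2, q2, tn, pow_zero, one_smul, Dv.eq_1 x, zero_add]
      ring
    rw [e]
    refine (norm_add_le _ _).trans ?_
    rw [norm_mul, Complex.norm_two]
    have a0 := nn a
    have b0 := nn b
    have x0 := nn x
    have m := mul_nonneg (mul_nonneg hK a0) b0
    calc _ ≤ K3 * p a * p b * D := by nlinarith
      _ ≤ _ := by
        have := a0.trans ha
        have : 0 ≤ D := by linarith
        gcongr
  have z : F 0 = 0 := by simp [hF]
  have f0 : ∀ a D, p a ≤ D → D ≤ ρ → ‖F a‖ ≤ K3 * D ^ 3 := fun a D ha h => by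
    have a0 := nn a
    obtain ⟨L', h1, h2⟩ := geo (u := fun n => 2 ^ n * F (tn n • a)) (C := K3 * D ^ 3 / 4) fun n => by
      have e : 2 ^ n * F (tn n • a) - 2 ^ (n + 1) * F (tn (n + 1) • a) =
          2 ^ n * Dv (tn (n + 1) • a) (Dv (tn (n + 1) • a) F) 0 := by
        simp only [Dv, zero_add, tn_succ n a, z]
        ring
      have t0 := tn_pos n
      have t1 := tn_le n
      have q : p (tn (n + 1) • a) ≤ tn n / 2 * D := by rw [p_tn, tn_half]; gcongr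
      have D0 := a0.trans ha
      rw [e, nrm2]
      refine (mul_le_mul_of_nonneg_left (f2 _ _ _ _ _ (tn n * D) q q (by rw [map_zero]; linarith)
        (by nlinarith)) (by positivity)).trans ?_
      calc _ = K3 * D ^ 3 / 4 * tn n * tn n := by
            linear_combination K3 * D ^ 3 / 4 * tn n * tn n * two_tn n
        _ ≤ _ := mul_le_of_le_one_right (by positivity) t1
    have h3 : Tendsto (fun n => 2 ^ n * F (tn n • a)) atTop (𝓝 (k1 φ a - L a - (0 : ℝ) • Q a a)) :=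
      (((H.lim1 hρ a).sub_const _).sub (tn_lim.smul_const _)).congr fun n => by
        have : (2 : ℂ) ^ n * (tn n : ℂ) = 1 := by exact_mod_cast two_tn n
        simp only [hF, q1, Dv, zero_add, map_smul, LinearMap.smul_apply, Complex.real_smul]
        linear_combination (L a + tn n * Q a a) * this
    rw [tendsto_nhds_unique h1 h3, hL] at h2
    simp only [tn, pow_zero, one_smul, one_mul, sub_self, zero_smul, sub_zero] at h2
    have : 0 ≤ K3 * D ^ 3 := mul_nonneg hK (pow_nonneg (a0.trans ha) 3)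
    linarith
  refine ⟨f0, fun x a α D ha hD h => ?_, f2, fun x a b c α β γ ha hb hc h => ?_⟩
  · have e : Dv a F x = Dv x (Dv a F) 0 + F a := by simp [Dv, z]
    have x0 := nn x
    have α0 := (nn a).trans ha
    have h1 := f2 0 a x α (p x) D ha le_rfl (by rw [map_zero]; linarith) h
    have h2 := f0 a α ha (by linarith)
    have h3 : K3 * α * p x * D ≤ K3 * α * D * D := by
      have : 0 ≤ D := by linarith
      gcongr
      linarith
    have h4 : K3 * α * α ^ 2 ≤ K3 * α * D ^ 2 := by gcongr; linarith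
    rw [e]
    exact (norm_add_le _ _).trans (by linarith)
  · have e : Dv c (Dv b (Dv a F)) x = Dv c (Dv b (Dv a φ)) x := by
      simp only [e2, Dv.eq_1 c]
      ring
    rw [e]
    refine (H.b3 x a b c (by linarith)).trans ?_
    have := (nn a).trans ha
    have := (nn b).trans hb
    gcongr

theorem Cub.cube (H : Cub p ρ K F) (hK : 0 ≤ K) {η : Fin 3 → ℝ} (h : Eta 1 η) {γ : Vx → W} {d : ℝ}
    (hγ : ∀ S T, p (dS S γ T) ≤ d * ∏ i ∈ S, η i) (hd : 8 * d ≤ ρ) :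
    cN η (fun T => F (γ T)) ≤ 1600 * K * d ^ 3 := by
  have N : ∀ T, p (γ T) ≤ d := fun T => by simpa using hγ ∅ T
  have d0 : 0 ≤ d := (apply_nonneg p _).trans (N o3)
  have p0 := fun i => (h i).1.le
  have p1 : ∀ i, d * η i ≤ d := fun i => mul_le_of_le_one_right d0 (h i).2
  have p2 : ∀ i j, d * (η i * η j) ≤ d * η j := fun i j =>
    mul_le_mul_of_nonneg_left (mul_le_of_le_one_left (p0 j) (h i).2) d0
  have p2' : ∀ i j, d * (η i * η j) ≤ d * η i := fun i j => mul_comm (η i) (η j) ▸ p2 j i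
  have k : 0 ≤ K * d ^ 3 := by positivity
  have D0 := fun a b c => hγ {0} ![a, b, c]
  have D1 := fun a b c => hγ {1} ![a, b, c]
  have D2 := fun a b c => hγ {2} ![a, b, c]
  have D01 := fun a b c => hγ {0, 1} ![a, b, c]
  have D02 := fun a b c => hγ {0, 2} ![a, b, c]
  have D12 := fun a b c => hγ {1, 2} ![a, b, c]
  have D012 := hγ {0, 1, 2} ![false, false, false]
  have P01 : ∏ i ∈ ({0, 1} : Finset (Fin 3)), η i = η 0 * η 1 := prod_pair (by decide)
  have P02 : ∏ i ∈ ({0, 2} : Finset (Fin 3)), η i = η 0 * η 2 := prod_pair (by decide)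
  have P12 : ∏ i ∈ ({1, 2} : Finset (Fin 3)), η i = η 1 * η 2 := prod_pair (by decide)
  have P012 : ∏ i ∈ ({0, 1, 2} : Finset (Fin 3)), η i = η 0 * (η 1 * η 2) := by
    rw [prod_insert (by decide), P12]
  simp only [Cb.d0, Cb.d1, Cb.d2, Cb.d01, Cb.d02, Cb.d12, Cb.d012, prod_singleton, P01, P02, P12,
    P012] at D0 D1 D2 D01 D02 D12 D012
  refine (cN_le_of h (c := 200 * K * d ^ 3) fun S T => ?_).trans (le_of_eq (by ring))
  obtain ⟨a, b, c, rfl⟩ : ∃ a b c, T = ![a, b, c] := ⟨T 0, T 1, T 2, by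
    funext i
    fin_cases i <;> rfl⟩
  have one : ∀ {x y : W} (i : Fin 3), p x ≤ d → p (y - x) ≤ d * η i →
      ‖F y - F x‖ ≤ 200 * K * d ^ 3 * η i := fun {x y} i hx hh => by
    have := H.f1 x (y - x) _ (8 * d) hh (by linarith [p1 i]) hd
    rw [Dv, add_sub_cancel] at this
    nlinarith [mul_nonneg k (p0 i)]
  have two : ∀ {x y z u : W} (i j : Fin 3), p x ≤ d → p z ≤ d → p (y - x) ≤ d * η i →
      p (z - x) ≤ d * η j → p (u - z - (y - x)) ≤ d * (η i * η j) →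
      ‖F u - F z - (F y - F x)‖ ≤ 200 * K * d ^ 3 * (η i * η j) :=
    fun {x y z u} i j hx hz h1 h2 h3 => by
      have a := H.f2 x _ _ _ _ (8 * d) h1 h2 (by linarith [p1 i, p1 j]) hd
      have b := H.f1 (z + (y - x)) _ _ (8 * d) h3 (by
        linarith [map_add_le_add p z (y - x), p1 i, p1 j, p2 i j]) hd
      have e : F u - F z - (F y - F x) = Dv (z - x) (Dv (y - x) F) x +
          Dv (u - z - (y - x)) F (z + (y - x)) := by
        simp only [Dv, add_sub_cancel, sub_sub u]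
        ring
      rw [e]
      exact (norm_add_le _ _).trans (by nlinarith [mul_nonneg k (mul_nonneg (p0 i) (p0 j))])
  have three : ∀ {x a b c d' e f g : W}, p x ≤ d → p a ≤ d * η 0 → p b ≤ d * η 1 → p c ≤ d * η 2 →
      p d' ≤ d * (η 0 * η 1) → p e ≤ d * (η 0 * η 2) → p f ≤ d * (η 1 * η 2) →
      p g ≤ d * (η 0 * (η 1 * η 2)) →
      ‖F (x + a + b + c + d' + e + f + g) - F (x + b + c + f) - (F (x + a + c + e) - F (x + c)) -
        (F (x + a + b + d') - F (x + b) - (F (x + a) - F x))‖ ≤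
        200 * K * d ^ 3 * (η 0 * (η 1 * η 2)) := fun {x a b c d' e f g} hx ha hb hc hd' he hf hg => by
    have A := map_add_le_add p
    have q0 := p1 0
    have q1 := p1 1
    have q2 := p1 2
    have q3 := p2 0 1
    have q4 := p2 0 2
    have q5 := p2 1 2
    have q6 := p2' 1 2
    have q7 := p2' 0 (1 : Fin 3)
    have q8 : d * (η 0 * (η 1 * η 2)) ≤ d * (η 1 * η 2) := mul_le_mul_of_nonneg_left
      (mul_le_of_le_one_left (mul_nonneg (p0 1) (p0 2)) (h 0).2) d0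
    have t1 := H.f1 (x + a + b + c + d' + e + f) g _ (8 * d) hg (by
      linarith [A (x + a + b + c + d' + e) f, A (x + a + b + c + d') e, A (x + a + b + c) d',
        A (x + a + b) c, A (x + a) b, A x a]) hd
    have t2 := H.f2 (x + a + b) d' (c + e + f) _ (3 * (d * η 2)) (8 * d) hd'
      (by linarith [A (c + e) f, A c e]) (by linarith [A (x + a) b, A x a]) hd
    have t3 := H.f2 (x + a + c) e (b + f) _ (2 * (d * η 1)) (8 * d) he
      (by linarith [A b f]) (by linarith [A (x + a) c, A x a]) hd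
    have t4 := H.f2 (x + b + c) a f _ _ (8 * d) ha hf (by linarith [A (x + b) c, A x b]) hd
    have t5 := H.f3 x a b c _ _ _ ha hb hc (by linarith)
    have e : F (x + a + b + c + d' + e + f + g) - F (x + b + c + f) -
        (F (x + a + c + e) - F (x + c)) - (F (x + a + b + d') - F (x + b) - (F (x + a) - F x)) =
        Dv g F (x + a + b + c + d' + e + f) + Dv (c + e + f) (Dv d' F) (x + a + b) +
          Dv (b + f) (Dv e F) (x + a + c) + (Dv f (Dv a F) (x + b + c) +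
            Dv c (Dv b (Dv a F)) x) := by
      simp only [Dv]
      abel_nf
    rw [e]
    refine (norm_add_le _ _).trans ((add_le_add (norm_add₃_le.trans (add_le_add_three t1 t2 t3))
      ((norm_add_le _ _).trans (add_le_add t4 t5))).trans ?_)
    nlinarith [mul_nonneg k (mul_nonneg (p0 0) (mul_nonneg (p0 1) (p0 2)))]
  rcases (by decide : ∀ S : Finset (Fin 3), S = ∅ ∨ S = {0} ∨ S = {1} ∨ S = {2} ∨ S = {0, 1} ∨
    S = {0, 2} ∨ S = {1, 2} ∨ S = {0, 1, 2}) S with rfl | rfl | rfl | rfl | rfl | rfl | rfl | rfl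
  · rw [dS_empty, prod_empty]
    exact (H.f0 _ d (N _) (by linarith)).trans (by linarith)
  · rw [Cb.d0, prod_singleton]
    exact one 0 (N _) (D0 a b c)
  · rw [Cb.d1, prod_singleton]
    exact one 1 (N _) (D1 a b c)
  · rw [Cb.d2, prod_singleton]
    exact one 2 (N _) (D2 a b c)
  · rw [Cb.d01, P01]
    exact two 0 1 (N _) (N _) (D0 a false c) (D1 false b c) (D01 a b c)
  · rw [Cb.d02, P02]
    exact two 0 2 (N _) (N _) (D0 a b false) (D2 false b c) (D02 a b c)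
  · rw [Cb.d12, P12]
    exact two 1 2 (N _) (N _) (D1 a b false) (D2 a false c) (D12 a b c)
  · rw [Cb.d012, P012]
    have := three (N ![false, false, false]) (D0 a false false) (D1 false a false)
      (D2 false false a) (D01 a a false) (D02 a false a) (D12 false a a) D012
    refine le_of_eq_of_le ?_ this
    congr 1
    abel_nf

theorem cV_ind {A : Type} [NormedAddCommGroup A] {η : Fin 3 → ℝ} {η0 : ℝ} (hη : Eta η0 η)
    (h1 : η0 ≤ 1) (i : Fin 3) (u : A) : cV η (fun T => if T i then u else 0) ≤ 2 * (‖u‖ / η i) := by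
  have e : ‖u‖ ≤ ‖u‖ / η i := le_div_self (norm_nonneg _) (hη i).1 ((hη i).2.trans h1)
  simp only [cV, o3, Bool.false_eq_true, if_false, sub_zero]
  refine (cN_le_sum hη (c := fun S => (if S = ∅ then ‖u‖ / η i else 0) +
    if S = {i} then ‖u‖ / η i else 0) fun S T => ?_).trans_eq (by simp [sum_add_distrib]; ring)
  by_cases h1 : S = ∅
  · subst h1
    have := (norm_nonneg _).trans e
    cases h : T i <;> simp [h, this, e]
  by_cases h2 : S = {i}
  · subst h2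
    simp [dS_single, (hη i).1.ne']
  obtain ⟨j, hj, j0⟩ : ∃ j ∈ S, j ≠ i := by
    by_contra hc
    push Not at hc
    rcases subset_singleton_iff.1 (fun j hj => mem_singleton.2 (hc j hj) : S ⊆ {i}) with h | h
    exacts [h1 h, h2 h]
  rw [if_neg h1, if_neg h2, ← insert_erase hj, dS_insert (notMem_erase j S)]
  simp [dS, Function.update_of_ne j0.symm]

end Ty

open Ty

variable {E F J : Type} [AddCommGroup E] [Module ℝ E] [NormedAddCommGroup F] [NormedSpace ℝ F]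
  {η0 : ℝ}

/-- the seminorm of a bounded family of linear maps -/
def Ty.sn [Nonempty J] (P : Submodule ℝ E) (ℓ : J → E →ₗ[ℝ] F) (hb : ∀ a, ∃ δ, ∀ j, ‖ℓ j a‖ ≤ δ) :
    Seminorm ℝ P := Seminorm.of (fun a => ⨆ j, ‖ℓ j a‖)
  (fun a b => ciSup_le fun j => by
    have h : ∀ a : P, ‖ℓ j a‖ ≤ ⨆ j, ‖ℓ j a‖ := fun a => le_ciSup (f := fun j => ‖ℓ j a‖)
      ((hb a).imp fun _ h => Set.forall_mem_range.2 h) j
    rw [Submodule.coe_add, map_add]
    exact (norm_add_le _ _).trans (add_le_add (h a) (h b)))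
  fun t a => by
    simp only [Submodule.coe_smul, map_smul, norm_smul]
    exact (Real.mul_iSup_of_nonneg (norm_nonneg _) _).symm

theorem Ty.sn_le [Nonempty J] {P : Submodule ℝ E} {ℓ : J → E →ₗ[ℝ] F}
    {hb : ∀ a, ∃ δ, ∀ j, ‖ℓ j a‖ ≤ δ} {a : P} {δ : ℝ} : sn P ℓ hb a ≤ δ ↔ ∀ j, ‖ℓ j a‖ ≤ δ :=
  ciSup_le_iff (f := fun j => ‖ℓ j a‖) ((hb a).imp fun _ h => Set.forall_mem_range.2 h)

theorem Ty.bd_jt [Nonempty J] (P : Submodule ℝ E) (ℓ : J → E →ₗ[ℝ] F)
    (hb : ∀ a, ∃ δ, ∀ j, ‖ℓ j a‖ ≤ δ) {h ρ M : ℝ} {φ : E → ℂ} (h0 : 0 < η0) (h1 : η0 ≤ 1)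
    (hh : 0 < h) (H : JtL (· ∈ P) (fun j a => ℓ j a) η0 h ρ φ M) :
    Bd (sn P ℓ hb) ρ (6 * M / h) (36 * M / h ^ 2) (216 * M / h ^ 3) fun a : P => φ a := by
  refine bd_of_small (s := η0 * h / 12) (by positivity) fun x a b c hx ha hb' hc => ?_
  obtain ⟨p, hp⟩ : ∃ p, p = sn P ℓ hb := ⟨_, rfl⟩
  have le : ∀ (a : P) j, ‖ℓ j a‖ ≤ p a := fun a => hp ▸ sn_le.1 le_rfl
  rw [← hp] at ha hb' hc ⊢
  have key : ∀ ε, 0 < ε → ε ≤ η0 * h / 12 →
      ‖Dv a (fun a : P => φ a) x‖ ≤ M * (6 * (p a + ε) / h) ∧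
      ‖Dv b (Dv a fun a : P => φ a) x‖ ≤ M * (6 * (p a + ε) / h * (6 * (p b + ε) / h)) ∧
      ‖Dv c (Dv b (Dv a fun a : P => φ a)) x‖ ≤
        M * (6 * (p a + ε) / h * (6 * (p b + ε) / h * (6 * (p c + ε) / h))) := fun ε ε0 ε1 => by
    have w : ∀ a : P, p a ≤ η0 * h / 12 → 0 < 6 * (p a + ε) / h ∧ 6 * (p a + ε) / h ≤ η0 :=
      fun a ha => ⟨by have := apply_nonneg p a; positivity, by rw [div_le_iff₀ hh]; linarith⟩
    have hη : Eta η0 ![6 * (p a + ε) / h, 6 * (p b + ε) / h, 6 * (p c + ε) / h] := fun i => by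
      fin_cases i
      exacts [w a ha, w b hb', w c hc]
    have v : ∀ (a : P) j, 2 * (‖ℓ j a‖ / (6 * (p a + ε) / h)) ≤ h / 3 := fun a j => by
      have := apply_nonneg p a
      rw [div_div_eq_mul_div, ← mul_div_assoc, div_le_iff₀ (by positivity)]
      nlinarith [le a j]
    have := H _ hη (fun T => x + (if T 2 then (c : E) else 0) + (if T 1 then (b : E) else 0) +
      if T 0 then (a : E) else 0) (fun T => by
        refine P.add_mem (P.add_mem (P.add_mem x.2 ?_) ?_) ?_ <;> split_ifs <;> simp)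
      (fun j => by simpa [o3] using sn_le.1 hx j) fun j => by
        simp only [map_add, apply_ite (ℓ j), map_zero]
        refine (cV_add hη _ _).trans ((add_le_add ((cV_add hη _ _).trans (add_le_add
          ((cV_add hη _ _).trans (add_le_add (cV_const _).le (cV_ind hη h1 2 _)))
          (cV_ind hη h1 1 _))) (cV_ind hη h1 0 _)).trans ?_)
        exact (add_le_add (add_le_add (add_le_add le_rfl (v c j)) (v b j)) (v a j)).trans_eq
          (by ring)
    have D := fun S => (dS_le_cN hη _ S ![false, false, false]).trans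
      (mul_le_mul_of_nonneg_right this (hη.pos S).le)
    refine ⟨?_, ?_, ?_⟩
    · simpa [Cb.d0, Dv] using D {0}
    · simpa [Cb.d01, Dv, prod_pair (show (0 : Fin 3) ≠ 1 by decide), sub_sub_sub_comm] using D {0, 1}
    · have := D {0, 1, 2}
      rw [prod_insert (by decide), prod_pair (by decide), Cb.d012] at this
      simpa [Dv, sub_sub_sub_comm] using this
  have lim : ∀ {y : ℝ} {f : ℝ → ℝ}, Continuous f → (∀ ε, 0 < ε → ε ≤ η0 * h / 12 → y ≤ f ε) →
      y ≤ f 0 := fun hf hy => ge_of_tendsto (hf.continuousAt.tendsto.mono_left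
        (nhdsWithin_le_nhds (s := Set.Ioi 0))) (by
          filter_upwards [Ioc_mem_nhdsGT (show 0 < η0 * h / 12 by positivity)] with ε hε
          exact hy ε hε.1 hε.2)
  exact ⟨(lim (by fun_prop) fun ε a b => (key ε a b).1).trans_eq (by ring),
    (lim (by fun_prop) fun ε a b => (key ε a b).2.1).trans_eq (by ring),
    (lim (by fun_prop) fun ε a b => (key ε a b).2.2).trans_eq (by ring)⟩

theorem kq_comp {E' : Type} [AddCommGroup E'] [Module ℝ E'] (φ : E → ℂ) (g : E' →ₗ[ℝ] E)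
    (a b : E') : kq (fun x => φ (g x)) a b = kq φ (g a) (g b) := by
  simp only [kq, map_add, map_smul, map_zero]

theorem k1_comp {E' : Type} [AddCommGroup E'] [Module ℝ E'] (φ : E → ℂ) (g : E' →ₗ[ℝ] E)
    (a : E') : k1 (fun x => φ (g x)) a = k1 φ (g a) := by
  simp only [k1, map_smul, map_zero]

/-- Taylor expansion of order two for a function with jets; `P` is a real subspace -/
theorem taylor [Nonempty J] (P : Submodule ℝ E) (ℓ : J → E →ₗ[ℝ] F)
    (hb : ∀ a, ∃ δ, ∀ j, ‖ℓ j a‖ ≤ δ)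
    {h ρ M : ℝ} (φ : E → ℂ) (h0 : 0 < η0) (h1 : η0 ≤ 1) (hh : 0 < h) (hρ : h ≤ ρ)
    (H : JtL (· ∈ P) (fun j a => ℓ j a) η0 h ρ φ M) :
    (∃ k : P →ₗ[ℝ] P →ₗ[ℝ] ℂ, (∀ a b : P, k a b = kq φ (a : E) b) ∧ ∀ a b, k a b = k b a) ∧
    (∃ k : P →ₗ[ℝ] ℂ, ∀ a : P, k a = k1 φ (a : E)) ∧
    (∀ a ∈ P, ∀ b ∈ P, ∀ δ δ', (∀ j, ‖ℓ j a‖ ≤ δ) → (∀ j, ‖ℓ j b‖ ≤ δ') →
      ‖kq φ a b‖ ≤ 100 * M * δ * δ' / h ^ 2 ∧ ‖k1 φ a‖ ≤ 10 * M * δ / h) ∧
    (∀ a ∈ P, ∀ δ, (∀ j, ‖ℓ j a‖ ≤ δ) → 2 * δ ≤ ρ →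
      ‖φ a - φ 0‖ ≤ 10 * M * δ / h ∧ ‖φ a + φ (-a) - 2 * φ 0‖ ≤ 1000 * M * (δ / h) ^ 2) ∧
    ∀ η, Eta 1 η → ∀ (γ : Vx → E) (d : ℝ), (∀ T, γ T ∈ P) → (∀ j, cN η (fun T => ℓ j (γ T)) ≤ d) →
      20 * d ≤ ρ → cN η (fun T => φ (γ T) - φ 0 - k1 φ (γ T) - kq φ (γ T) (γ T)) ≤
        10 ^ 6 * M * (d / h) ^ 3 := by
  have B := bd_jt P ℓ hb h0 h1 hh H
  have r0 := hh.trans_le hρ
  have hη0 : Eta η0 fun _ => η0 := fun _ => ⟨h0, le_rfl⟩
  have M0 : 0 ≤ M := (cN_nonneg hη0 _).trans (H _ hη0 (fun _ => 0) (fun _ => P.zero_mem)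
    (fun j => by simpa using r0.le) fun j => by rw [cV_const]; exact hh.le)
  have e1 : ∀ a : P, k1 (fun a : P => φ a) a = k1 φ (a : E) := k1_comp φ P.subtype
  have e2 : ∀ a b : P, kq (fun a : P => φ a) a b = kq φ (a : E) b := kq_comp φ P.subtype
  obtain ⟨⟨L, hL⟩, Q, hQ⟩ := B.forms r0
  have nn := apply_nonneg (sn P ℓ hb)
  refine ⟨⟨Q, fun a b => by rw [hQ, e2], fun a b => by rw [hQ, hQ, kq_sym]⟩,
    ⟨L, fun a => by rw [hL, e1]⟩, fun a ha b hb' δ δ' h2 h3 => ?_, fun a ha δ h2 h3 => ?_,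
    fun η hη γ d hγ hd h2 => ?_⟩
  · have pa : sn P ℓ hb ⟨a, ha⟩ ≤ δ := sn_le.2 h2
    have pb : sn P ℓ hb ⟨b, hb'⟩ ≤ δ' := sn_le.2 h3
    have := (nn _).trans pa
    have := (nn _).trans pb
    refine ⟨(e2 ⟨a, ha⟩ ⟨b, hb'⟩ ▸ B.kq_le r0 _ _).trans ?_, (e1 ⟨a, ha⟩ ▸ B.k1_le r0 _).trans ?_⟩
    · calc _ ≤ 200 * M / h ^ 2 / 2 * δ * δ' := by gcongr; norm_num
        _ = _ := by ring
    · calc _ ≤ 10 * M / h * δ := by gcongr; norm_num
        _ = _ := by ring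
  · have pa : sn P ℓ hb ⟨a, ha⟩ ≤ δ := sn_le.2 h2
    have δ0 := (nn _).trans pa
    have t1 := B.b1 0 ⟨a, ha⟩ (by rw [map_zero]; linarith)
    have t2 := B.b2 0 ⟨a, ha⟩ (-⟨a, ha⟩) (by rw [map_zero, map_neg_eq_map]; linarith)
    rw [map_neg_eq_map] at t2
    refine ⟨le_trans (by simp [Dv]) (t1.trans ?_), le_trans (le_of_eq ?_) (t2.trans ?_)⟩
    · calc _ ≤ 10 * M / h * δ := by gcongr; norm_num
        _ = _ := by ring
    · rw [← norm_neg]
      congr 1
      simp [Dv]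
      ring
    · calc _ ≤ 1000 * M / h ^ 2 * δ * δ := by gcongr; norm_num
        _ = _ := by ring
  · have d0 := (cN_nonneg hη _).trans (hd (Classical.arbitrary J))
    have := (B.cub r0 (by positivity)).cube (by positivity) hη (γ := fun T => ⟨γ T, hγ T⟩) (d := d)
      (fun S T => sn_le.2 fun j => by
        have := dS_map ((ℓ j).comp P.subtype).toAddMonoidHom S (fun T => ⟨γ T, hγ T⟩) T
        exact (congrArg norm this).symm.trans_le ((dS_le_cN hη _ S T).trans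
          (mul_le_mul_of_nonneg_right (hd j) (hη.pos S).le))) (by linarith)
    simp only [e1, e2] at this
    refine this.trans ?_
    calc _ = 345600 * M * (d / h) ^ 3 := by ring
      _ ≤ _ := by gcongr; norm_num

end Pool.Agent.Lib.MP_7f377f_mp.RG.Q4
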