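import Pool.Agent.Lib.MP_7f377f_mp.G.Q4PsA
import Pool.Agent.Lib.MP_7f377f_mp.G.Q4CubeT

/-! Extraction: functions with jets belong to the class of small local terms. -/

noncomputable section

set_option linter.unusedSectionVars false
variable [Pool.Agent.Lib.MP_7f377f_mp.GD]

namespace Pool.Agent.Lib.MP_7f377f_mp.RG.Q4

open Finset Filter La La.Q

variable {R s : ℕ} {ρ ρ' h M d : ℝ} {φ ψ : Fld → ℂ} {A B : Fld}

/-- real fields -/
def RS : Submodule ℝ Fld where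
  carrier := {B | RealF B}
  add_mem' := real_add
  zero_mem' := realF_zero
  smul_mem' t _ := real_rsmul t

/-- the curvature as a real linear map -/
def ddL (R : ℕ) (j : box R × Fin 4 × Fin 4) : Fld →ₗ[ℝ] C3 where
  toFun B := dd B j.1 j.2.1 j.2.2
  map_add' A B := Ho.dd_add A B _ _ _
  map_smul' t A := by simp only [dd, Pi.smul_apply, smul_add, smul_sub, RingHom.id_apply]

theorem ddL_iff : (∀ j, ‖ddL R j B‖ ≤ d) ↔ Cv R d B :=
  ⟨fun h x hx μ ν => h (⟨x, hx⟩, μ, ν), fun h j => h _ j.1.2 _ _⟩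

/-- a scalar field as a real colour field -/
def emL (j : Fin GD.d) : V →ₗ[ℝ] RS where
  toFun a := ⟨Ho.em j a, Ho.real_em j a⟩
  map_add' a b := Subtype.ext (Ho.em_add j a b)
  map_smul' t a := Subtype.ext (Ho.em_smul j t a)

theorem rsm' (t : ℝ) (A : Fld) : t • A = (t : ℂ) • A := (algebraMap_smul ℂ t A).symm

/-- rotations -/
def adL0 (u : S3) : Fld →ₗ[ℝ] Fld where
  toFun B := adF (fun _ => cS u) B
  map_add' := Ho.adF_add _
  map_smul' t a := by rw [RingHom.id_apply, rsm', rsm', Ho.adF_smul]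

/-- rotations of real fields -/
def adR (u : S3) : RS →ₗ[ℝ] RS := (adL0 u).restrict fun _ hB => real_ad u hB

theorem cv_rsmul {t δ : ℝ} (t0 : 0 ≤ t) (hB : Cv R δ B) : Cv R (t * δ) (t • B) := by
  simpa [abs_of_nonneg t0] using hB.smul t

theorem small_ev (hρ : 0 < ρ) (A B : Fld) : ∃ t0 > 0, ∀ s t : ℝ, 0 ≤ s → s ≤ t0 → 0 ≤ t → t ≤ t0 →
    Cv R ρ (s • A + t • B) := by
  obtain ⟨a, ha⟩ := Ho.cv_exists R A
  obtain ⟨b, hb⟩ := Ho.cv_exists R B
  have a0 := ha.nonneg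
  have b0 := hb.nonneg
  refine ⟨ρ / (a + b + 1), by positivity, fun s t s0 s1 t0 t1 =>
    ((cv_rsmul s0 ha).add (cv_rsmul t0 hb)).mono le_rfl ?_⟩
  rw [le_div_iff₀ (by positivity)] at s1 t1
  by_cases c : s ≤ t <;> nlinarith

theorem LA.kq_ad (h : LA R ρ φ) (hρ : 0 < ρ) (u : S3) (A B : RS) :
    kq φ (adR u A : Fld) (adR u B) = kq φ (A : Fld) B ∧ k1 φ (adR u A : Fld) = k1 φ (A : Fld) := by
  obtain ⟨t1, p1, h1⟩ := small_ev (R := R) hρ A B
  obtain ⟨t2, p2, h2⟩ := small_ev (R := R) hρ (adR u A) (adR u B)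
  have key : ∀ s t : ℝ, 0 ≤ s → s ≤ min t1 t2 → 0 ≤ t → t ≤ min t1 t2 →
      φ (s • (adR u A : Fld) + t • (adR u B : Fld)) = φ (s • (A : Fld) + t • (B : Fld)) := by
    intro s t s0 s1 t0 t1
    have e : s • (adR u A : Fld) + t • (adR u B : Fld) =
        adF (fun _ => cS u) (s • (A : Fld) + t • (B : Fld)) :=
      congrArg Subtype.val (show s • adR u A + t • adR u B = adR u (s • A + t • B) by simp)
    rw [le_min_iff] at s1 t1
    have c := h2 s t s0 s1.2 t0 t1.2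
    rw [e] at c ⊢
    exact h.ad u _ (s • A + t • B).2 (h1 s t s0 s1.1 t0 t1.1) c
  exact ⟨kq_congr_ev (lt_min p1 p2) key, k1_congr_ev (lt_min p1 p2) fun t t0 t1 => by
    simpa using key t 0 t0 t1 le_rfl (lt_min p1 p2).le⟩

instance (R : ℕ) : Nonempty (box R × Fin 4 × Fin 4) := ⟨(⟨0, zero_mem_box R⟩, 0, 0)⟩

/-- extraction of the quadratic part -/
theorem JC.ext (H : JC R h ρ' M φ) (hl : LA R ρ φ) (hh : 0 < h) (h1 : h ≤ ρ') (hρ : 0 < ρ)
    (h2 : 20 * ρ ≤ ρ') : ∃ k : CF, (∀ a b, k a b = k b a) ∧ Cc R (100 * M / h ^ 2) k ∧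
      H3 R ρ (10 ^ 6 * M * (ρ / h) ^ 3) fun B => φ B - φ 0 - qf k B := by
  obtain ⟨⟨K, hK, sy⟩, ⟨K1, hK1⟩, b1, -, b2⟩ := taylor RS (ddL R)
    (fun a => by simpa only [ddL_iff] using Ho.cv_exists R a) φ one_pos le_rfl hh h1
    (fun η hη γ r c v => H η hη γ r (ddL_iff.1 c) fun x hx μ ν => v (⟨x, hx⟩, μ, ν))
  have a2 : ∀ u A B, K (adR u A) (adR u B) = K A B := fun u A B => by
    rw [hK, hK, (hl.kq_ad hρ u A B).1]
  have a1 : ∀ A, K1 A = 0 := fun A => by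
    have e : ∀ u, K1 (adR u A) = K1 A := fun u => by rw [hK1, hK1, (hl.kq_ad hρ u A A).2]
    obtain ⟨s, c, c1, c2⟩ := Ho.sum_ad
    have z : ∑ u ∈ s, c u • adR u A = 0 := Subtype.ext (by
      simp only [AddSubmonoidClass.coe_finsetSum, SetLike.val_smul, rsm']
      exact c2 A)
    have := congrArg K1 z
    simpa only [map_sum, map_smul, e, map_zero, ← sum_smul, c1, one_smul] using this
  have kj := Ho.bil_em (fun j a => emL j a) (fun u A => adR u A) (fun u i a => Subtype.ext (by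
    simp only [AddSubmonoidClass.coe_finsetSum, SetLike.val_smul, rsm']
    exact Ho.ad_em u i a)) K a2
  have hq : ∀ B : RS, K B B = qf (K.compl₁₂ (emL GD.k0) (emL GD.k0)) B := fun B => by
    have e : B = ∑ j, emL j (reF B j) := Subtype.ext (by
      conv_lhs => rw [Ho.sum_em B]
      simp only [B.2.imF, AddSubmonoidClass.coe_finsetSum]
      refine sum_congr rfl fun j _ => ?_
      rw [show Ho.em j 0 = 0 from congrArg Subtype.val (emL j).map_zero, smul_zero, add_zero]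
      rfl)
    conv_lhs => rw [e]
    simp only [map_sum, LinearMap.sum_apply, qf, LinearMap.compl₁₂_apply]
    refine sum_congr rfl fun j _ => ?_
    rw [sum_eq_single j (fun i _ hi => (kj _ _ _ _).trans (if_neg hi)) (by simp), kj, if_pos rfl]
  refine ⟨K.compl₁₂ (emL GD.k0) (emL GD.k0), fun a b => sy _ _, fun a b δ δ' ha hb => ?_,
    fun η hη γ d hγ hd => ?_⟩
  · rw [LinearMap.compl₁₂_apply, hK]
    exact (b1 _ (emL GD.k0 a).2 _ (emL GD.k0 b).2 δ δ' (ddL_iff.2 (Ho.cv_em _ ha))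
      (ddL_iff.2 (Ho.cv_em _ hb))).1.trans_eq (by ring)
  · have := b2 η hη γ d hγ.1 (fun j => hγ.2 _ j.1.2 _ _) (by linarith)
    have e : ∀ T, φ (γ T) - φ 0 - k1 φ (γ T) - kq φ (γ T) (γ T) =
        φ (γ T) - φ 0 - qf (K.compl₁₂ (emL GD.k0) (emL GD.k0)) (γ T) := fun T => by
      rw [← hK1 ⟨_, hγ.1 T⟩, a1, ← hK ⟨_, hγ.1 T⟩ ⟨_, hγ.1 T⟩, hq, sub_zero]
    simp only [e] at this
    refine this.trans_eq ?_
    field_simp

theorem JC.ps (H : JC R h ρ' M φ) (hl : LA R ρ φ) (hh : 0 < h) (h1 : h ≤ ρ') (hρ : 0 < ρ)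
    (h2 : 20 * ρ ≤ ρ') (s : ℕ) :
    Ps R s ρ (100 * M / h ^ 2) (2 * (R + 1 : ℝ) ^ (2 * s) * (100 * M / h ^ 2))
      (10 ^ 6 * M * (ρ / h) ^ 3) fun B => φ B - φ 0 :=
  let ⟨_, g1, g2, g3⟩ := H.ext hl hh h1 hρ h2
  Ps.intro hρ (hl.map (· - φ 0)) (g2.fm g1 s) g3

/-- jets of a function which is holomorphic along lines near the base point -/
theorem cV_lines {G : Type} [NormedAddCommGroup G] [NormedSpace ℂ G] [CompleteSpace G]
    {f : Fld → G} {η : Fin 3 → ℝ} (hη : Eta 1 η) (hh : 0 < h) {γ : Vx → Fld}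
    (hol : ∀ A B : Fld, ∀ Ω : Set ℂ, IsOpen Ω → (∀ t ∈ Ω, Cv R h (A + t • B - γ o3)) →
      DifferentiableOn ℂ (fun t : ℂ => f (A + t • B)) Ω)
    (bd : ∀ B, Cv R h (B - γ o3) → ‖f B‖ ≤ M)
    (hv : ∀ x ∈ box R, ∀ μ ν, cV η (fun T => dd (γ T) x μ ν) ≤ h / 1000) :
    cN η (fun T => f (γ T)) ≤ 1001 * M := by
  have := hol_cube hη le_rfl (Ho.dom R h hh) (fun A => f (γ o3 + A)) (M := M) (d := 1000⁻¹)
    (fun A B Ω hΩ hD => by
      simpa only [add_assoc] using hol (γ o3 + A) B Ω hΩ fun t ht => by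
        rw [add_assoc, add_sub_cancel_left]
        exact Ho.mem_dom_one.1 (hD t ht))
    (fun A hA => bd _ (by rw [add_sub_cancel_left]; exact Ho.mem_dom_one.1 hA))
    (fun T => γ T - γ o3) (by rw [sub_self]; exact Ho.cv_zero R (by positivity))
    (fun S hS x hx μ ν => by
      have := dS_le hη (fun T => ddA x μ ν (γ T)) hS o3
      rw [dS_map] at this
      rw [dS_sub_const hS]
      refine this.trans ((mul_le_mul_of_nonneg_right (hv x hx μ ν) (hη.pos S).le).trans_eq ?_)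
      ring) (by norm_num) (by norm_num)
  simp only [add_sub_cancel] at this
  have b := bd (γ o3) (by rw [sub_self]; exact Ho.cv_zero R hh.le)
  linarith [cN_le_cV hη fun T => f (γ T)]

theorem jc_lines (hh : 0 < h) (hol : ∀ A B : Fld, ∀ Ω : Set ℂ, IsOpen Ω →
    (∀ t ∈ Ω, InT R ρ h (A + t • B)) → DifferentiableOn ℂ (fun t : ℂ => φ (A + t • B)) Ω)
    (bd : ∀ B, InT R ρ h B → ‖φ B‖ ≤ M) : JC R (h / 1000) ρ (1001 * M) φ :=
  fun _ hη γ r c v => cV_lines hη hh (fun A B Ω hΩ e => hol A B Ω hΩ fun t ht =>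
    ⟨γ o3, r o3, c, e t ht⟩) (fun B e => bd B ⟨γ o3, r o3, c, e⟩) v

theorem Tb.jc (H : Tb R ρ h M φ) (hh : 0 < h) : JC R (h / 1000) ρ (1001 * M) φ :=
  jc_lines hh (fun A B Ω hΩ e => H.hol Ω _ hΩ (Ho.disc_line Ω A B) e) H.bd

theorem Tb.nonneg (H : Tb R ρ h M φ) (hρ : 0 ≤ ρ) (hh : 0 ≤ h) : 0 ≤ M :=
  (norm_nonneg _).trans (H.bd 0 ⟨0, realF_zero, Ho.cv_zero R hρ, by
    rw [sub_zero]; exact Ho.cv_zero R hh⟩)

theorem JC.ps' (H : JC R (h / 1000) ρ' (1001 * M) φ) (hl : LA R ρ φ) (hM : 0 ≤ M) (hh : 0 < h)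
    (h1 : h ≤ 1000 * ρ') (hρ : 0 < ρ) (h2 : 20 * ρ ≤ ρ') (s : ℕ) :
    Ps R s ρ (2 * 10 ^ 11 * M / h ^ 2) (4 * 10 ^ 11 * (R + 1 : ℝ) ^ (2 * s) * M / h ^ 2)
      (2 * 10 ^ 18 * M * (ρ / h) ^ 3) fun B => φ B - φ 0 := by
  have p : 0 ≤ M / h ^ 2 := by positivity
  refine (H.ps hl (by positivity) (by linarith) hρ h2 s).mono' hρ ?_ ?_ ?_
  · calc _ = 100100000000 * (M / h ^ 2) := by field_simp; ring
      _ ≤ _ := by rw [mul_div_assoc]; gcongr; norm_num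
  · calc _ = 200200000000 * ((R + 1 : ℝ) ^ (2 * s) * (M / h ^ 2)) := by field_simp; ring
      _ ≤ _ := by rw [mul_div_assoc, mul_assoc]; gcongr; norm_num
  · calc _ = 1001000000000000000 * (M * (ρ / h) ^ 3) := by field_simp; ring
      _ ≤ _ := by rw [mul_assoc]; gcongr; norm_num

/-- extraction for functions which are holomorphic on a tube -/
theorem Tb.ps (H : Tb R ρ' h M φ) (hh : 0 < h) (h1 : h ≤ 1000 * ρ') (hρ : 0 < ρ)
    (h2 : 20 * ρ ≤ ρ') (s : ℕ) :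
    Ps R s ρ (2 * 10 ^ 11 * M / h ^ 2) (4 * 10 ^ 11 * (R + 1 : ℝ) ^ (2 * s) * M / h ^ 2)
      (2 * 10 ^ 18 * M * (ρ / h) ^ 3) fun B => φ B - φ 0 :=
  (H.jc hh).ps' (H.toLA.mono le_rfl (by linarith)) (H.nonneg (by linarith) hh.le) hh h1 hρ h2 s

theorem InT.cv (H : InT R ρ h B) : Cv R (ρ + h) B := by
  obtain ⟨B0, -, h1, h2⟩ := H
  simpa using h1.add h2

/-- functions which are holomorphic and bounded on a complex ball -/
theorem tb_ball {δ : ℝ} (hl : LA R δ φ) (hol : ∀ Ω γ, IsOpen Ω → Disc Ω γ →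
    (∀ t ∈ Ω, Cv R δ (γ t)) → DifferentiableOn ℂ (fun t => φ (γ t)) Ω)
    (bd : ∀ B, Cv R δ B → ‖φ B‖ ≤ M) (h0 : 0 ≤ δ) : Tb R (δ / 2) (δ / 2) M φ :=
  ⟨hl.mono le_rfl (by linarith), fun Ω γ hΩ hγ e => hol Ω γ hΩ hγ fun t ht =>
    (e t ht).cv.mono le_rfl (by linarith), fun B e => bd B (e.cv.mono le_rfl (by linarith))⟩

/-- a term of the class which is cubic has no quadratic part -/
theorem Ps.cubic {xb xk xr C : ℝ} (H : Ps R s ρ xb xk xr ψ) (hρ : 0 < ρ) (h0 : 0 < ρ')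
    (h : ∀ B d, RealF B → Cv R d B → d ≤ ρ' → ‖ψ B‖ ≤ C * d ^ 3) :
    Ps R s ρ 0 0 xr ψ ∧ ∀ a b, q2 ψ a b = 0 := by
  have e := q2_of_bd (k := 0) (ψ := ψ) (fun _ _ => rfl) h0 fun B d hB c hd => by
    simpa [qf] using h B d hB c hd
  exact ⟨H.reform hρ (fm_zero R s) e, e⟩

end Pool.Agent.Lib.MP_7f377f_mp.RG.Q4
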