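import Pool.Agent.Lib.MP_7f377f_mp.G.Q4TrZ
import Pool.Agent.Lib.MP_7f377f_mp.G.Q4FldB
import Pool.Agent.Lib.MP_7f377f_mp.G.Q4PsB
import Pool.Agent.Lib.MP_7f377f_mp.G.Q4Def2

/-! The one loop term is a small local term. -/

noncomputable section

set_option linter.unusedSectionVars false
variable [Pool.Agent.Lib.MP_7f377f_mp.GD]

namespace Pool.Agent.Lib.MP_7f377f_mp.RG.Q4

open Filter

theorem Td.ol_zero (S : Td) : S.ol 0 = 0 := sub_self _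

theorem Td.wB_loc (S : Td) {A B : Fld}
    (e : ∀ x ∈ box (4 * S.D0), ∀ μ ν, dd A x μ ν = dd B x μ ν) : S.wB A = S.wB B := by
  rw [Td.wB, JS.cut_cg_loc e, Td.wB]

theorem Td.mq_wB (S : Td) (e : Lk) : MQ fun B => S.wB B e := mq_ex (meas_cut_cg _).eval

namespace Sd.Fo

variable {S : Sd} {P : ℝ} (h : S.Fo P) {B : Fld}
include h

theorem wB_small : 0 < 3 * (4 * S.D0 : ℕ) * (2 / (S.D0 : ℝ) ^ 2) ∧
    8 * (3 * (4 * S.D0 : ℕ) * (2 / (S.D0 : ℝ) ^ 2)) ≤ S.δ := by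
  have := D0' S.toTd
  have := D1 S.toTd
  refine ⟨by positivity, ?_⟩
  calc _ = 192 / (S.D0 : ℝ) := by push_cast; field_simp; norm_num
    _ ≤ _ := div_le_div_of_nonneg_right ((h.nu.cr' (by norm_num)).trans
      (le_self_pow₀ h.nu.r1' three_ne_zero)) (by positivity)

theorem ol_meas : Measurable S.ol := (Td.dt0_meas h.ok S.mq_wB).const_sub _

theorem dt0_hol {Ω : Set ℂ} {γ : ℂ → Fld} (hΩ : IsOpen Ω) (dγ : Disc Ω γ)
    (hγ : ∀ t ∈ Ω, Cv (4 * S.D0) (2 / (S.D0 : ℝ) ^ 2) (γ t)) :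
    DifferentiableOn ℂ (fun t => S.dt0 (S.wB (γ t))) Ω :=
  dtK_diff fun y _ => (Nt.fm_const h.ok (h.sz _ h.wB_small.1 h.wB_small.2) hΩ (JS.cut_cg_disc dγ _)
    fun t ht => JS.cut_cg_bd (hγ t ht) (by positivity)).ka_disc y

variable (hB : Cv (4 * S.D0) (2 / (S.D0 : ℝ) ^ 2) B)
include hB

theorem dt0_wB : ‖S.dt0 (S.wB B)‖ ≤ S.L ^ (2 * S.c + 9) :=
  h.dt0_le h.wB_small.1 h.wB_small.2 (JS.cut_cg_bd hB hB.nonneg)

theorem dt0_ad (u : S3) : S.dt0 (S.wB (adF (fun _ => cS u) B)) = S.dt0 (S.wB B) := by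
  rw [Td.wB, exF_cut_ad]
  exact dtK_rel (fun _ => uni_cS u) (fun _ _ => Iff.rfl) fun y _ _ => Nt.kd_cov h.ok (fun _ => u)
    (Nt.gw_exF h.ok (h.sz _ h.wB_small.1 h.wB_small.2) (JS.cut_cg_bd hB hB.nonneg)) y

theorem dt0_real (rB : RealF B) : (S.dt0 (S.wB B)).im = 0 :=
  dtK_real fun y _ => Nt.kd_real' h.ok (h.sz _ h.wB_small.1 h.wB_small.2) h.gr
    (B := sh y (cut _ (cg B))) (fun _ => JS.cut_cg_bd hB hB.nonneg _)
    fun _ => JS.cut_cg_real rB _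

theorem ol_real (rB : RealF B) : (S.ol B).im = 0 := by
  rw [Td.ol, Complex.sub_im, h.dt0_real hB rB,
    h.dt0_real (Ho.cv_zero _ hB.nonneg) fun _ _ => rfl, sub_zero]

omit hB

theorem ol_tb : Tb (4 * S.D0) (1 / (S.D0 : ℝ) ^ 2) (1 / (S.D0 : ℝ) ^ 2) (2 * S.L ^ (2 * S.c + 9))
    S.ol := by
  have := tb_ball (R := 4 * S.D0) (δ := 2 / (S.D0 : ℝ) ^ 2) (M := 2 * S.L ^ (2 * S.c + 9))
    (φ := S.ol) ⟨fun A B _ _ _ e => by rw [Td.ol, S.wB_loc e, Td.ol],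
      fun u B _ hB _ => by rw [Td.ol, h.dt0_ad hB, Td.ol]⟩
    (fun Ω γ hΩ dγ hγ => (h.dt0_hol hΩ dγ hγ).const_sub _) (fun B hB => (norm_sub_le_of_le
      (h.dt0_wB (Ho.cv_zero _ hB.nonneg)) (h.dt0_wB hB)).trans_eq (two_mul _).symm) (by positivity)
  rwa [div_right_comm, div_self two_ne_zero] at this

theorem ρ_small : 20 * S.p'.ρ ≤ 1 / (S.D0 : ℝ) ^ 2 := by
  have h1 := h.nu.mon (C := 20) (i := 0) (j := 2) (by norm_num) (by omega) (by omega)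
  have h2 := h.nu.ok.Qg'_le (i := 3) (j := 1) (by norm_num)
  have h3 := mul_le_mul_of_nonneg_right h1 (mul_pos (pow_pos S.Q0 3) h.nu.ok.g'0).le
  rw [le_div_iff₀ (pow_pos (D0' _) 2), p'_ρ]
  linarith

theorem ol_ps : Ps S.p'.R 6 S.p'.ρ S.Q S.Q (S.Q * S.p'.ρ ^ 3) S.ol := by
  have d0 := D0' S.toTd
  have d1 : (1 : ℝ) ≤ S.D0 := by exact_mod_cast D1 S.toTd
  have ρ0 : 0 < S.p'.ρ := mul_pos (pow_pos S.Q0 3) h.nu.ok.g'0
  have ex := h.nu.exps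
  have l0 := pow_pos (L0 S.toTd) (2 * S.c + 9)
  have := h.ol_tb.ps (by positivity) (le_mul_of_one_le_left (by positivity) (by norm_num)) ρ0
    h.ρ_small 6
  simp only [Td.ol_zero, sub_zero] at this
  refine this.mono' ρ0 ?_ ?_ ?_
  · exact le_of_eq_of_le (by field_simp; norm_num) (h.nu.mon (C := 4 * 10 ^ 11) (i := 2 * S.c + 9) (j := 4)
      (by norm_num) (by omega) (by omega))
  · refine le_trans ?_ (h.nu.mon (C := 10 ^ 20) (i := 2 * S.c + 10) (j := 16)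
      (by norm_num) (by omega) (by omega))
    have h1 := h.nu.cL' (C := 10) (by norm_num)
    calc _ ≤ 4 * 10 ^ 11 * (5 * S.D0 : ℝ) ^ (2 * 6) * (2 * S.L ^ (2 * S.c + 9)) /
          (1 / (S.D0 : ℝ) ^ 2) ^ 2 := by gcongr; push_cast; linarith
      _ = 8 * 10 ^ 11 * 5 ^ 12 / 10 * (S.L ^ (2 * S.c + 9) * 10) * (S.D0 : ℝ) ^ 16 := by
        field_simp
        ring
      _ ≤ 10 ^ 20 * (S.L ^ (2 * S.c + 9) * S.L) * (S.D0 : ℝ) ^ 16 := by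
        refine mul_le_mul_of_nonneg_right (mul_le_mul (by norm_num) ?_ ?_ ?_) ?_ <;>
          first | positivity | gcongr
      _ = _ := by ring
  · refine le_of_eq_of_le ?_ (mul_le_mul_of_nonneg_right (h.nu.mon (C := 4 * 10 ^ 18)
      (i := 2 * S.c + 9) (j := 6) (by norm_num) (by omega) (by omega)) (pow_pos ρ0 3).le)
    field_simp
    norm_num

theorem two_le : 2 * (1 / (S.D0 : ℝ) ^ 2) = 2 / (S.D0 : ℝ) ^ 2 := mul_one_div _ _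

theorem ol_tq : Tq (4 * S.D0) (1 / (S.D0 : ℝ) ^ 2) S.ol :=
  ⟨fun A B e => by rw [Td.ol, S.wB_loc e, Td.ol], fun _ _ hΩ dγ hγ => (h.dt0_hol hΩ dγ fun t ht =>
    (hγ t ht).mono le_rfl (by gcongr; norm_num)).const_sub _, S.ol_zero,
    fun u B hB => by rw [Td.ol, h.dt0_ad (h.two_le ▸ hB), Td.ol], h.ol_meas⟩

theorem ol_le {d : ℝ} (hB : Cv (4 * S.D0) d B) (hd : d ≤ 1 / (S.D0 : ℝ) ^ 2) :
    ‖S.ol B‖ ≤ S.Q * d ^ 2 := by
  have d0 := D0' S.toTd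
  have ex := h.nu.exps
  refine (h.ol_tq.quad (by positivity) (fun B hB => h.ol_tb.bd B ⟨0, fun _ _ => rfl,
    Ho.cv_zero _ hB.nonneg, by rwa [sub_zero]⟩) hB hd).trans
    (mul_le_mul_of_nonneg_right ?_ (sq_nonneg d))
  exact le_of_eq_of_le (by field_simp; ring) (h.nu.mon (C := 48) (i := 2 * S.c + 9) (j := 4)
    (by norm_num) (by omega) (by omega))

end Sd.Fo

/-- the one loop term -/
theorem ol_ps (c : ℕ) : ∀ᶠ S in ev c, PM S.p' S.Q S.Q (S.Q * S.p'.ρ ^ 3) (fun _ => S.ol) ∧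
    RealP S.p' (fun _ => S.ol) ∧
      ∀ B d, Cv S.p'.R d B → d ≤ 2 * S.p'.ρ → ‖S.ol B‖ ≤ S.Q * d ^ 2 :=
  (ev_fo c).mono fun S h => by
    have h1 := h.ρ_small
    have h2 := h.two_le
    have h3 : 0 < S.p'.ρ := mul_pos (pow_pos S.Q0 3) h.nu.ok.g'0
    exact ⟨fun _ => ⟨h.ol_ps, h.ol_meas⟩, fun _ _ rB hB => h.ol_real (hB.mono le_rfl (by linarith))
      rB, fun B d hB hd => h.ol_le hB (by linarith)⟩

end Pool.Agent.Lib.MP_7f377f_mp.RG.Q4
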