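import Pool.Agent.Lib.MP_7f377f_mp.G.Q4Hole

/-! The budget: slowly varying weights and the weighted energy inequality. -/

noncomputable section

set_option linter.unusedSectionVars false
variable [Pool.Agent.Lib.MP_7f377f_mp.GD]

namespace Pool.Agent.Lib.MP_7f377f_mp.RG.Q4

open Finset

variable {n d d' ρ : ℕ} {Y Y' : Finset St} {y v : St}

theorem Far.mono (h : Far n d Y y) (hd : d' ≤ d) : Far n d' Y y :=
  fun p hp h1 => h p hp (h1.mono hd)

theorem Far.sub (h : Far n d Y y) (hY : Y' ⊆ Y) : Far n d Y' y := fun p hp => h p (hY hp)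

theorem Far.add (h : Far n (d + ρ) Y y) (hv : v ∈ box ρ) : Far n d Y (y + v) :=
  fun p hp h1 => h p hp (h1.trans (nearT_add hv).symm)

theorem far_rc : Far n d Y (rc n y) ↔ Far n d Y y := by simp only [Far, nearT_rc_right]

theorem mem_tb' : y ∈ tb n d Y ↔ rc n y = y ∧ ¬ Far n d Y y := by simp [mem_tb, Far]

theorem tb_dom (hn : Odd n) : tb n d Y ⊆ box (n / 2) :=
  fun y hy => (mem_tb.1 hy).1 ▸ rc_mem hn y

theorem rc_inj {x y : St} (u : St) (hx : rc n x = x) (hy : rc n y = y)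
    (h : rc n (x + u) = rc n (y + u)) : x = y := by
  rw [← hx, ← hy, ← nearT_zero, ← nearT_add_right u, nearT_zero, h]

theorem Pf.sh {α : Type} {f : St → α} (h : Pf n f) (u : St) : Pf n fun y => f (y + u) :=
  fun y => by simp only; rw [← h, rc_add_rc, h]

/-- charging along a translation -/
theorem sum_charge {f : St → ℝ} (hf : Pf n f) {S T : Finset St} (u : St) (hS : ∀ y ∈ S, rc n y = y)
    (hT : ∀ y ∈ S, rc n (y + u) ∈ T) (h0 : ∀ y ∈ T, 0 ≤ f y) :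
    ∑ y ∈ S, f (y + u) ≤ ∑ y ∈ T, f y := by
  rw [← sum_congr rfl fun y _ => hf (y + u), ← sum_image (f := f) (g := fun y => rc n (y + u))
    fun x hx y hy h => rc_inj u (hS x hx) (hS y hy) h]
  exact sum_le_sum_of_subset_of_nonneg (image_subset_iff.2 hT) fun y hy _ => h0 y hy

theorem sum_charge_box {f : St → ℝ} (hf : Pf n f) {S T : Finset St} (r : ℕ)
    (hS : ∀ y ∈ S, rc n y = y) (hT : ∀ y ∈ S, ∀ u ∈ box r, rc n (y + u) ∈ T)
    (h0 : ∀ y ∈ T, 0 ≤ f y) :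
    ∑ y ∈ S, ∑ u ∈ box r, f (y + u) ≤ (2 * r + 1) ^ 4 * ∑ y ∈ T, f y := by
  rw [sum_comm]
  refine (sum_le_card_nsmul _ _ _ fun u hu => sum_charge hf u hS (fun y hy => hT y hy u hu)
    h0).trans_eq ?_
  rw [card_box, nsmul_eq_mul]; push_cast; rfl

theorem sum_shiftP {M : Type} [AddCommMonoid M] (hn : Odd n) {f : St → M} (hf : Pf n f) (u : St) :
    ∑ y ∈ box (n / 2), f (y + u) = ∑ y ∈ box (n / 2), f y :=
  sum_nbij' (fun y => rc n (y + u)) (fun y => rc n (y + -u)) (fun _ _ => rc_mem hn _)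
    (fun _ _ => rc_mem hn _) (fun y hy => by rw [rc_add_rc, add_neg_cancel_right, rc_eq hn hy])
    (fun y hy => by rw [rc_add_rc, neg_add_cancel_right, rc_eq hn hy]) fun y _ => (hf _).symm

/-- slowly varying weights -/
structure Wt (n d0 d1 el : ℕ) (ω : ℝ) (Y : Finset St) (w : St → ℝ) : Prop where
  per : Pf n w
  nn : ∀ y, 0 ≤ w y
  le : ∀ y, w y ≤ 1
  zero : ∀ y, ¬ Far n d0 Y y → w y = 0
  one : ∀ y, Far n d1 Y y → w y = 1
  lip : ∀ y (ρ : ℕ), ∀ v ∈ box ρ, w (y + v) + ω ≤ Real.exp (ρ / el) * (w y + ω)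

theorem exists_wt (n d0 el j : ℕ) {ω : ℝ} (hω : 0 < ω) (hel : 0 < el)
    (hj : 1 + ω ≤ ω * Real.exp j) (Y : Finset St) : ∃ w, Wt n d0 (d0 + j * el) el ω Y w := by
  have e0 : (0 : ℝ) < el := by exact_mod_cast hel
  have e1 : ∀ ρ : ℕ, 1 ≤ Real.exp (ρ / el) := fun ρ => Real.one_le_exp (by positivity)
  rcases Y.eq_empty_or_nonempty with rfl | ⟨p0, hp0⟩
  · exact ⟨fun _ => 1, fun _ => rfl, fun _ => zero_le_one, fun _ => le_rfl,
      fun y h => absurd (fun p hp => absurd hp (notMem_empty p)) h, fun _ _ => rfl,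
      fun y ρ v _ => le_mul_of_one_le_left (by positivity) (e1 ρ)⟩
  obtain ⟨d, hd⟩ : ∃ d : St → ℕ, ∀ y k, Far n k Y y ↔ k < d y := by
    refine ⟨fun y => sInf {k | ¬ Far n k Y y}, fun y k => ⟨fun h => ?_, fun h => ?_⟩⟩
    · obtain ⟨R, hR⟩ := nearT_exists n p0 y
      have := Nat.sInf_mem (s := {k | ¬ Far n k Y y}) ⟨R, fun h => h p0 hp0 hR⟩
      exact not_le.1 fun h1 => this (h.mono h1)
    · exact not_not.1 (Nat.notMem_of_lt_sInf h)
  refine ⟨fun y => min (1 + ω) (max ω (ω * Real.exp ((d y - d0) / el))) - ω, fun y => ?_,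
    fun y => ?_, fun y => ?_, fun y h => ?_, fun y h => ?_, fun y ρ v hv => ?_⟩
  · have : d (rc n y) = d y := eq_of_forall_lt_iff fun k => by rw [← hd, ← hd, far_rc]
    simp only [this]
  · exact sub_nonneg.2 (le_min (by linarith) (le_max_left _ _))
  · linarith [min_le_left (1 + ω) (max ω (ω * Real.exp ((d y - d0) / el)))]
  · have h1 : (d y : ℝ) ≤ d0 := by exact_mod_cast not_lt.1 fun h1 => h ((hd y d0).2 h1)
    rw [max_eq_left (mul_le_of_le_one_right hω.le (Real.exp_le_one_iff.2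
      (div_nonpos_of_nonpos_of_nonneg (by linarith) e0.le))), min_eq_right (by linarith), sub_self]
  · have h1 : (d0 + j * el : ℝ) ≤ d y := by exact_mod_cast ((hd y _).1 h).le
    rw [min_eq_left (le_max_of_le_right (hj.trans (by
      gcongr; rw [le_div_iff₀ e0]; linarith))), add_sub_cancel_right]
  · have h1 : (d (y + v) : ℝ) ≤ d y + ρ := by
      have : ¬ d y + ρ < d (y + v) := fun h => lt_irrefl (d y) (by
        simpa using (hd _ _).1 (((hd _ _).2 h).add (neg_mem_box hv)))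
      exact_mod_cast not_lt.1 this
    rw [sub_add_cancel, sub_add_cancel, mul_min_of_nonneg _ _ (Real.exp_pos _).le,
      mul_max_of_nonneg _ _ (Real.exp_pos _).le]
    refine min_le_min (le_mul_of_one_le_left (by positivity) (e1 ρ))
      (max_le_max (le_mul_of_one_le_left hω.le (e1 ρ)) ?_)
    rw [mul_left_comm, ← Real.exp_add, ← add_div]
    gcongr
    linarith

theorem Wt.dif {d0 d1 el : ℕ} {ω : ℝ} {w : St → ℝ} (h : Wt n d0 d1 el ω Y w) (hω : 0 ≤ ω)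
    (hρ : (ρ : ℝ) / el ≤ 1) (hv : v ∈ box ρ) : |w y - w (y + v)| ≤ 2 * (ρ / el) * (w y + ω) := by
  have h0 : 0 ≤ (ρ : ℝ) / el := by positivity
  have h1 := h.lip y ρ v hv
  have h2 := h.lip (y + v) ρ (-v) (neg_mem_box hv)
  rw [add_neg_cancel_right] at h2
  have a := add_nonneg (h.nn y) hω
  have h3 := (abs_le.1 (Real.abs_exp_sub_one_le (x := ρ / el) (by rwa [abs_of_nonneg h0]))).2
  rw [abs_of_nonneg h0] at h3
  have h4 : (1 - ρ / el) * (w y + ω) ≤ w (y + v) + ω := by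
    have h5 := mul_le_mul_of_nonneg_left h2 (Real.exp_pos (-(ρ / el))).le
    rw [← mul_assoc, ← Real.exp_add, neg_add_cancel, Real.exp_zero, one_mul] at h5
    exact (mul_le_mul_of_nonneg_right (Real.one_sub_le_exp_neg _) a).trans h5
  rw [abs_le]
  constructor <;> nlinarith [mul_le_mul_of_nonneg_right h3 a, mul_nonneg h0 a]

variable {p : Bp} {CC : Finset (Finset St)} {Wm D Nz Om : Finset St} {e rg t t' h rW w : St → ℝ}
  {xi : St → St → ℝ}

theorem Bp.Ok.el_ge (hp : p.Ok) : 100 * ((p.ρ : ℝ) + p.r + 2) ≤ p.el :=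
  (le_mul_of_one_le_right (by positivity) (by have := hp.C1; linarith [show
    0 ≤ p.C1 * (2 * p.ρ + 1) ^ 4 * (2 * p.r + 1) ^ 4 by positivity])).trans hp.el

theorem Bp.Ok.exp_le (hp : p.Ok) {k : ℕ} (hk : k ≤ p.ρ + p.r + 2) :
    (k : ℝ) / p.el ≤ 1 / 100 ∧ Real.exp (k / p.el) ≤ 5 / 4 := by
  have h1 := hp.el_ge
  have h2 : (k : ℝ) ≤ p.ρ + p.r + 2 := by exact_mod_cast hk
  have h3 : (k : ℝ) / p.el ≤ 1 / 100 := by
    rw [div_le_div_iff₀ (lt_of_lt_of_le (by positivity) h1) (by norm_num)]; linarith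
  have h0 : 0 ≤ (k : ℝ) / p.el := by positivity
  have h4 := (abs_le.1 (Real.abs_exp_sub_one_le (x := k / p.el)
    (by rw [abs_of_nonneg h0]; linarith))).2
  rw [abs_of_nonneg h0] at h4
  exact ⟨h3, by linarith⟩

theorem Bf.rc_om (H : Bf p CC Wm D Nz Om e rg t t' h rW xi) (hy : y ∈ Om) : rc p.n y = y :=
  (mem_tb.1 (H.om ▸ hy)).1

theorem Bf.tr_sub (hp : p.Ok) (H : Bf p CC Wm D Nz Om e rg t t' h rW xi) :
    tb p.n p.d2 (Hh p.l p.n CC Wm ∪ Nz) ⊆ Om := by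
  have := hp.D1; have := hp.D13; have := hp.dN
  rw [H.om, tb_union]
  refine union_subset (tb_mono subset_union_left (by omega)) ((tb_mono H.nz le_rfl).trans ?_)
  rw [tb_tb]
  exact tb_mono subset_rfl (by omega)

theorem Bp.Ok.wt (hp : p.Ok) (Y : Finset St) : ∃ w, Wt p.n (p.dt + p.ρ + p.r + 2)
    (p.dt + p.ρ + p.r + 2 + p.j * p.el) p.el p.M⁻¹ Y w := by
  have h1 := hp.M
  refine exists_wt _ _ _ _ (by positivity) ?_ ?_ Y
  · exact_mod_cast (lt_of_lt_of_le (by positivity) hp.el_ge : (0 : ℝ) < p.el)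
  · rw [le_inv_mul_iff₀ (by positivity), mul_add, mul_inv_cancel₀ (by positivity), mul_one]
    exact hp.j

/-- the weighted energy inequality -/
theorem Bf.energy (hp : p.Ok) (H : Bf p CC Wm D Nz Om e rg t t' h rW xi)
    (hw : Wt p.n (p.dt + p.ρ + p.r + 2) (p.dt + p.ρ + p.r + 2 + p.j * p.el) p.el p.M⁻¹
      (Hh p.l p.n CC Wm ∪ Nz) w) :
    ∑ y ∈ Om, (1 - w y) * e y + ∑ y ∈ Om \ tb p.n p.d2 (Hh p.l p.n CC Wm ∪ Nz), (t y + h y) +
      2⁻¹ * ∑ y ∈ tb p.n p.d2 (Hh p.l p.n CC Wm ∪ Nz), w y * (t y + h y) ≤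
    ∑ y ∈ Om, (e y + ∑ v ∈ box p.ρ, (xi (y + v) (-v) - xi y v)) + 3 * Om.card := by
  classical
  have hs := H.tr_sub hp
  have ht := H.tay
  obtain ⟨Y, hY⟩ : ∃ Y, Y = Hh p.l p.n CC Wm ∪ Nz := ⟨_, rfl⟩
  rw [← hY] at hw hs ht ⊢
  have hM := hp.M
  have hC := hp.C1
  have ω0 : 0 < p.M⁻¹ := by positivity
  have hd : p.d2 = p.dt + 2 * (p.ρ + p.r + 2) + p.j * p.el := rfl
  have w1 : ∀ y, rc p.n y = y → y ∉ tb p.n p.d2 Y → w y = 1 := fun y h1 h2 =>
    hw.one y ((not_not.1 fun h3 => h2 (mem_tb'.2 ⟨h1, h3⟩)).mono (by omega))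
  obtain ⟨tl, htl⟩ : ∃ tl : St → ℝ, ∀ y, tl y = ∑ v ∈ box p.ρ, (xi (y + v) (-v) - xi y v) :=
    ⟨_, fun _ => rfl⟩
  simp only [← htl] at ht ⊢
  have a1 : ∑ y ∈ Om, (w y * (t y + h y) - 1) ≤ ∑ y ∈ Om, w y * (e y + tl y) := by
    refine sum_le_sum fun y hy => ?_
    by_cases hf : Far p.n (p.dt + p.ρ + p.r + 2) Y y
    · nlinarith [mul_le_mul_of_nonneg_left (ht y hy (hf.mono (by omega))).1 (hw.nn y), hw.le y]
    · simp [hw.zero y hf]
  have a2 : ∑ y ∈ Om, w y * (t y + h y) = ∑ y ∈ Om \ tb p.n p.d2 Y, (t y + h y) +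
      ∑ y ∈ tb p.n p.d2 Y, w y * (t y + h y) := by
    rw [← sum_sdiff hs]
    congr 1
    exact sum_congr rfl fun y hy => by
      rw [w1 y (H.rc_om (mem_sdiff.1 hy).1) (mem_sdiff.1 hy).2, one_mul]
  have a3 : ∑ y ∈ Om, (1 - w y) * tl y =
      ∑ v ∈ box p.ρ, ∑ y ∈ box (p.n / 2), (w y - w (y + v)) * xi y v := by
    rw [sum_subset (H.om ▸ tb_dom hp.odd : Om ⊆ box (p.n / 2)) fun y h1 h2 => by
      rw [w1 y (rc_eq hp.odd h1) fun h3 => h2 (hs h3), sub_self, zero_mul]]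
    simp only [htl, mul_sum, mul_sub (1 - w _), sum_sub_distrib]
    rw [sum_comm, sum_comm (s := box (p.n / 2)), sum_nbij' (t := box p.ρ) (g := fun v =>
      ∑ y ∈ box (p.n / 2), (1 - w (y + v)) * xi y v) Neg.neg Neg.neg (fun _ => neg_mem_box)
      (fun _ => neg_mem_box) (fun _ _ => neg_neg _) (fun _ _ => neg_neg _) fun v _ => ?_]
    · simp only [← sum_sub_distrib]
      exact sum_congr rfl fun v _ => sum_congr rfl fun y _ => by ring
    · rw [← sum_shiftP hp.odd (f := fun y => (1 - w (y + -v)) * xi y (-v)) (fun y =>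
        congrArg₂ (fun a b => (1 - a) * b) (hw.per.sh (-v) y) (H.pxi (-v) y)) v]
      simp only [add_neg_cancel_right]
  obtain ⟨F, hF⟩ : ∃ F : St → ℝ, ∀ y, F y = (w y + p.M⁻¹) * (t y + h y + 1) := ⟨_, fun _ => rfl⟩
  have pF : Pf p.n F := fun y => by rw [hF, hF, hw.per, H.pt, H.ph]
  set S1 := (box (p.n / 2)).filter fun y => ¬ Far p.n (p.dt + p.ρ + p.r + 2 + p.j * p.el + p.ρ) Y y ∧
    Far p.n (p.dt + p.r) Y y with hS1
  set S2 := (tb p.n p.d2 Y).filter (Far p.n p.dt Y) with hS2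
  have m2 : ∀ y ∈ S1, ∀ u ∈ box p.r, rc p.n (y + u) ∈ S2 := fun y hy u hu => by
    obtain ⟨-, h1, h2⟩ := mem_filter.1 hy
    refine mem_filter.2 ⟨mem_tb'.2 ⟨rc_rc _ _, fun h3 => h1 ?_⟩, far_rc.2 (h2.add hu)⟩
    simpa using ((far_rc.1 h3).mono (by omega)).add (neg_mem_box hu)
  have F0 : ∀ y ∈ S2, 0 ≤ t y + h y + 1 := fun y hy => by
    obtain ⟨-, h1, h2, -⟩ := ht y (hs (mem_filter.1 hy).1) (mem_filter.1 hy).2
    linarith
  have a4 : ∀ v ∈ box p.ρ, -∑ y ∈ box (p.n / 2), (w y - w (y + v)) * xi y v ≤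
      4 * (p.ρ / p.el) * p.C1 * ∑ y ∈ S1, ∑ u ∈ box p.r, F (y + u) := fun v hv => by
    rw [← sum_neg_distrib, mul_sum, hS1, sum_filter]
    refine sum_le_sum fun y hy => ?_
    split_ifs with hc
    · have hy1 : y ∈ S1 := mem_filter.2 ⟨hy, hc⟩
      have hy2 : y ∈ Om := hs (mem_tb'.2 ⟨rc_eq hp.odd hy, fun h => hc.1 (h.mono (by omega))⟩)
      have b1 := (ht y hy2 (hc.2.mono (by omega))).2.2.2.2.2.2 v hv hc.2
      have b2 := hw.dif (y := y) ω0.le ((hp.exp_le (by omega)).1.trans (by norm_num)) hv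
      have b0 := add_nonneg (hw.nn y) ω0.le
      refine ((neg_le_abs _).trans_eq (abs_mul _ _)).trans
        ((mul_le_mul b2 b1 (abs_nonneg _) (by positivity)).trans ?_)
      rw [mul_sum, mul_sum, mul_sum]
      refine sum_le_sum fun u hu => ?_
      have b3 := hw.lip (y + u) p.r (-u) (neg_mem_box hu)
      rw [add_neg_cancel_right] at b3
      have b4 := F0 _ (m2 y hy1 u hu)
      rw [H.pt, H.ph] at b4
      have b5 : w y + p.M⁻¹ ≤ 2 * (w (y + u) + p.M⁻¹) := b3.trans (mul_le_mul_of_nonneg_right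
        ((hp.exp_le (by omega)).2.trans (by norm_num)) (add_nonneg (hw.nn _) ω0.le))
      rw [hF]
      calc _ ≤ 2 * (p.ρ / p.el) * (2 * (w (y + u) + p.M⁻¹)) *
            (p.C1 * (t (y + u) + h (y + u) + 1)) := by gcongr
        _ = _ := by ring
    · rw [not_and_or, not_not] at hc
      rcases hc with hc | hc
      · rw [hw.one y (hc.mono (by omega)), hw.one _ (hc.add hv)]; simp
      · rw [hw.zero y fun h => hc (h.mono (by omega)), hw.zero (y + v) fun h => hc (by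
          simpa using (h.mono (by omega)).add (neg_mem_box hv))]; simp
  have a5 := sum_charge_box pF p.r (fun y hy => rc_eq hp.odd (mem_filter.1 hy).1) m2
    fun y hy => by rw [hF]; exact mul_nonneg (add_nonneg (hw.nn y) ω0.le) (F0 y hy)
  have a6 : ∑ y ∈ S2, F y ≤ ∑ y ∈ tb p.n p.d2 Y, (w y * (t y + h y) + 3) := by
    rw [hS2, sum_filter]
    refine sum_le_sum fun y hy => ?_
    split_ifs with hc
    · have b1 := (ht y (hs hy) hc).2.2.2.1
      have b2 : p.M⁻¹ * (t y + h y + 1) ≤ 2 := by rw [inv_mul_le_iff₀ (by positivity)]; linarith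
      rw [hF]; nlinarith [hw.le y]
    · simp [hw.zero y fun h => hc (h.mono (by omega))]
  have a0 : 0 ≤ ∑ y ∈ S2, F y := sum_nonneg fun y hy => by
    rw [hF]; exact mul_nonneg (add_nonneg (hw.nn y) ω0.le) (F0 y hy)
  have a7 : (2 * p.ρ + 1 : ℝ) ^ 4 * (4 * (p.ρ / p.el) * p.C1 * (2 * p.r + 1) ^ 4) ≤ 2⁻¹ := by
    have b1 := hp.el
    have b2 : (0 : ℝ) < p.el := lt_of_lt_of_le (by positivity) hp.el_ge
    rw [show (2 * p.ρ + 1 : ℝ) ^ 4 * (4 * (p.ρ / p.el) * p.C1 * (2 * p.r + 1) ^ 4) =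
      4 * p.ρ * (p.C1 * (2 * p.ρ + 1) ^ 4 * (2 * p.r + 1) ^ 4) / p.el by ring, div_le_iff₀ b2]
    nlinarith [show 0 ≤ p.C1 * (2 * p.ρ + 1) ^ 4 * (2 * p.r + 1) ^ 4 by positivity,
      show (0 : ℝ) ≤ p.ρ by positivity, show (0 : ℝ) ≤ p.r by positivity]
  have a8 := sum_le_card_nsmul _ _ _ fun v hv => (a4 v hv).trans
    (mul_le_mul_of_nonneg_left a5 (by positivity))
  rw [sum_neg_distrib, ← a3, card_box, nsmul_eq_mul] at a8
  push_cast at a8
  have a9 : (tb p.n p.d2 Y).card ≤ (Om.card : ℝ) := by exact_mod_cast card_le_card hs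
  have a10 : ∑ y ∈ Om, (e y + tl y) = ∑ y ∈ Om, (1 - w y) * e y + ∑ y ∈ Om, w y * (e y + tl y) +
      ∑ y ∈ Om, (1 - w y) * tl y := by
    simp only [← sum_add_distrib]; exact sum_congr rfl fun y _ => by ring
  rw [sum_sub_distrib, a2] at a1
  rw [sum_add_distrib] at a6
  simp only [sum_const, nsmul_eq_mul] at a1 a6
  nlinarith [mul_le_mul_of_nonneg_right a7 a0, show (0 : ℝ) ≤ Om.card by positivity]

end Pool.Agent.Lib.MP_7f377f_mp.RG.Q4
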