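import Pool.Agent.Lib.MP_7f377f_mp.G.RGDefs

/-! Lattice bookkeeping for the renormalisation step: blocks, periodic sums, fundamental domain. -/

noncomputable section

set_option linter.unusedSectionVars false
variable [Pool.Agent.Lib.MP_7f377f_mp.GD]

namespace Pool.Agent.Lib.MP_7f377f_mp.RG.SX

open Finset

theorem sh_sh {α : Type} (x y : St) (U : Lk → α) : sh x (sh y U) = sh (x + y) U := by
  funext e; simp only [sh, add_assoc]

theorem sh_zero {α : Type} (U : Lk → α) : sh 0 U = U := by
  funext e; simp only [sh, add_zero]

theorem per_smul {α : Type} {n : ℕ} {U : Lk → α} (h : Per n U) (v : St) :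
    sh ((n : ℤ) • v) U = U := by
  let H : AddSubgroup St :=
    { carrier := {w | sh w U = U}
      zero_mem' := sh_zero U
      add_mem' := fun {a b} ha hb => by
        show sh (a + b) U = U
        rw [← sh_sh, show sh b U = U from hb]; exact ha
      neg_mem' := fun {a} ha => by
        show sh (-a) U = U
        conv_lhs => rw [← show sh a U = U from ha]
        rw [sh_sh, neg_add_cancel, sh_zero] }
  have : (n : ℤ) • v = ∑ μ, v μ • ((n : ℤ) • un μ) := by
    funext i
    simp [un, Pi.single_apply, mul_comm]
  rw [this]
  exact H.sum_mem fun μ _ => H.zsmul_mem (h μ) _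

theorem per_sh {α : Type} {n : ℕ} {U : Lk → α} (h : Per n U) (y v : St) :
    sh (y + (n : ℤ) • v) U = sh y U := by
  rw [← sh_sh, per_smul h]

end Pool.Agent.Lib.MP_7f377f_mp.RG.SX
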