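import Pool.Agent.Lib.MP_7f377f_mp.G.RGOp2
import Pool.Agent.Lib.MP_7f377f_mp.G.RGStep0

/-! The operator `top` on the torus as a symmetric operator of a Euclidean space. -/

noncomputable section

set_option linter.unusedSectionVars false
variable [Pool.Agent.Lib.MP_7f377f_mp.GD]

namespace Pool.Agent.Lib.MP_7f377f_mp.RG.Op

open Finset Polynomial
open scoped InnerProductSpace

attribute [local irreducible] box lbox cube

variable {n : ℕ}

theorem dot_sum {ι : Type} (s : Finset ι) (a : C3) (b : ι → C3) :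
    dot a (∑ i ∈ s, b i) = ∑ i ∈ s, dot a (b i) := by
  simp only [dot, Finset.sum_apply, mul_sum]
  exact sum_comm

theorem hh_apply (l : ℕ) (m : BF) (a b : V) : hh l m a b = ∑ x ∈ box l, m (sh x a) (sh x b) +
    (LL l : ℝ) ^ 2 * ∑ μ, avgA l a (0, μ) * avgA l b (0, μ) := by
  simp [hh, enB, resL, LinearMap.sum_apply, shL_apply]

variable {c R : ℕ} {τ ρ κ : ℝ}

/-- the square of the length of a real vector -/
def nq (b : C3) : ℝ := (dot b b).re

theorem nq_real {b : C3} (h : ∀ k, (b k).im = 0) : nq b = ∑ k, (b k).re ^ 2 := by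
  simp [nq, dot, h, sq]

theorem nq_adq {h : Hc} (hh : Uni h) (b : C3) : nq (adq h b) = nq b := by
  rw [nq, dot_adq_adq hh, nq]

end Pool.Agent.Lib.MP_7f377f_mp.RG.Op
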