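import Pool.Agent.Lib.MP_7f377f_mp.G.Q4OpDefs
import Pool.Agent.Lib.MP_7f377f_mp.G.RGOp3
import Pool.Agent.Lib.MP_7f377f_mp.G.RGAp3

/-! Algebra, covariance, locality, reality and holomorphy of the fluctuation operator. -/

noncomputable section

set_option linter.unusedSectionVars false
variable [Pool.Agent.Lib.MP_7f377f_mp.GD]

namespace Pool.Agent.Lib.MP_7f377f_mp.RG.Q4

open Finset Polynomial

attribute [local irreducible] box lbox cube

variable {O : Od} {c l : ℕ} {H H' : Set St} {W W' : Cf} {W0 : Conf} {A A' : Fld} {p q : ℂ[X]}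
  {δ : ℝ} {f : Lk} {Ω : Set ℂ}

theorem Od.ok_of_lin {l r : ℕ} {τ : ℝ} {m : BF} {s : V →ₗ[ℝ] V} (h : Lin l r c τ m s)
    (hl : 10 ^ 6 * (c + 1) ≤ l) (hg : 10 ^ 6 * cG ^ 10 ≤ (LL l : ℝ)) :
    Od.Ok ⟨l, hh l m, (LL l : ℝ) ^ (c + 1), LL l ^ (2 * c + 4)⟩ c where
  symm a b := by simp only [Op.hh_apply, h.symm (sh _ a), mul_comm (avgA l a _)]
  psd a := by
    simp only [Op.hh_apply]
    exact add_nonneg (sum_nonneg fun _ _ => h.psd _)
      (mul_nonneg (sq_nonneg _) (sum_nonneg fun _ _ => mul_self_nonneg _))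
  rng := h.hh_rng
  bd := h.hh_bd
  coer := h.coer
  lam := rfl
  num := rfl
  big := hl
  cg := hg

theorem Gp.real (h0 : 0 ≤ δ) (h : ∀ x ∈ box 5, ∀ μ ν, fq W0 x μ ν ≤ δ) : Gp δ (cC W0) W0 :=
  ⟨h, fun e _ => by rw [cC, (uni_cS _).1, sub_self, norm_zero]; exact h0⟩

theorem Gp.nonneg (h : Gp δ W W0) : 0 ≤ δ := (norm_nonneg _).trans (h.1 0 (zero_mem_box 5) 0 0)

theorem Gp.mono {δ' : ℝ} (h : Gp δ W W0) (h' : δ ≤ δ') : Gp δ' W W0 :=
  ⟨fun x hx μ ν => (h.1 x hx μ ν).trans h', fun e he => (h.2 e he).trans h'⟩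

theorem Gp.exF {b : Fld} (h1 : δ ≤ 1 / 100) (h : ∀ x ∈ box 5, ∀ μ ν, fq W0 x μ ν ≤ δ)
    (hb : Sm 5 δ b) : Gp (10 * δ) (fun e => ex (b e) * cS (W0 e)) W0 := by
  have h0 := hb.nonneg
  refine ⟨fun x hx μ ν => (h x hx μ ν).trans (by linarith), fun e he => ?_⟩
  rw [mul_assoc, (uni_cS _).1, mul_one]
  exact ((Ap_exF hb h1).sub_one (by nlinarith) he).trans (by linarith)

theorem shS_shS (x y : St) : shS x (shS y H) = shS (x + y) H := by
  ext z
  simp only [shS, Set.mem_ofPred_eq, add_assoc]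

@[simp] theorem shS_zero : shS 0 H = H := by
  ext z
  simp [shS]

theorem fr_shS {x y : St} : Fr (shS y H) x ↔ Fr H (x + y) := by
  simp only [Fr, shS, Set.mem_ofPred_eq, add_right_comm x]

theorem act_shS {y : St} : Act l (shS y H) f ↔ Act l H (f.1 + up l y, f.2) := by
  simp only [Act, fr_shS, tree_add_up, yo_add_up]

theorem AgS.mono {R R' : ℕ} (h : AgS R H H') (hR : R' ≤ R) : AgS R' H H' :=
  fun x hx => h x (box_mono hR hx)

theorem AgS.symm {R : ℕ} (h : AgS R H H') : AgS R H' H := fun x hx => (h x hx).symm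

theorem AgS.sh {R R' : ℕ} (h : AgS (R + R') H H') {y : St} (hy : y ∈ box R') :
    AgS R (shS y H) (shS y H') := fun _ hx => h _ (add_mem_box hx hy)

theorem AgS.fr {R : ℕ} (h : AgS (R + 3) H H') {y : St} (hy : y ∈ box R) : Fr H y ↔ Fr H' y :=
  forall₂_congr fun _ hv => not_congr (h _ (add_mem_box hy hv))

theorem AgS.act {R : ℕ} (h : AgS (R + 3) H H') (hf : f ∈ lbox (fb l R)) :
    Act l H f ↔ Act l H' f := and_congr_right fun _ => h.fr (Op.mem_fb.1 (mem_lbox.1 hf))

theorem pj_act (hf : Act l H f) : pj l H A f = A f := if_pos hf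

theorem pj_not (hf : ¬ Act l H f) : pj l H A f = 0 := if_neg hf

theorem pj_of (h : ∀ f, ¬ Act l H f → A f = 0) : pj l H A = A := by
  funext f
  by_cases hf : Act l H f
  · exact pj_act hf
  · rw [pj_not hf, h f hf]

theorem pj_pj : pj l H (pj l H A) = pj l H A := pj_of fun _ => pj_not

theorem norm_pj (f : Lk) : ‖pj l H A f‖ ≤ ‖A f‖ := by
  simp only [pj]
  split_ifs <;> simp

theorem pj_sh (y : St) : pj l (shS y H) (sh (up l y) A) = sh (up l y) (pj l H A) := by
  funext f
  by_cases hf : Act l (shS y H) f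
  · rw [pj_act hf, sh, sh, pj_act (act_shS.1 hf)]
  · rw [pj_not hf, sh, pj_not fun h => hf (act_shS.2 h)]

theorem pj_agr {R : ℕ} (hH : AgS (R + 3) H H') (hA : Agr (fb l R) A A') :
    Agr (fb l R) (pj l H A) (pj l H' A') := fun e he => by
  by_cases hf : Act l H e
  · rw [pj_act hf, pj_act ((hH.act he).1 hf), hA e he]
  · rw [pj_not hf, pj_not fun h => hf ((hH.act he).2 h)]

theorem pj_real (hA : RealF A) : RealF (pj l H A) := fun e k => by
  simp only [pj]
  split_ifs
  · exact hA e k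
  · rfl

theorem adF_pj (u : St → Hc) : pj l H (adF u A) = adF u (pj l H A) := by
  funext f
  simp only [pj, adF]
  split_ifs
  · rfl
  · exact (adq_zero _).symm

def pjL (l : ℕ) (H : Set St) : Fld →ₗ[ℂ] Fld where
  toFun := pj l H
  map_add' A B := by funext f; simp only [pj, Pi.add_apply]; split_ifs <;> simp
  map_smul' c A := by funext f; simp only [pj, Pi.smul_apply]; split_ifs <;> simp

theorem pjL_apply : pjL l H A = pj l H A := rfl

def AyL (l : ℕ) (y : St) (W : Cf) : Fld →ₗ[ℂ] Fld where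
  toFun := Ay l y W
  map_add' _ _ := funext fun _ => adq_add _ _ _
  map_smul' _ _ := funext fun _ => adq_smul _ _ _

theorem Ay_sh (x y : St) : Ay l x (sh y W) (sh (up l y) A) = Ay l (x + y) W A := by
  simp only [Ay, sh_sh, up_add]

theorem Ay_gauge {u : St → Hc} (hu : ∀ x, Uni (u x)) (y : St) :
    Ay l y (gauge star u W) (adF (fun x => u (yo l x)) A) = adF (fun _ => u y) (Ay l y W A) := by
  funext e
  simp only [Ay, adF, sh_gauge, cmb_gauge_star fun x => hu (x + y), sh, yo_add_up,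
    adq_mul (hu _).star, adq_mul' (hu _), adq_star_adq (hu _), zero_add]

theorem Ay_real (y : St) (hA : RealF A) : RealF (Ay l y (cC W0) A) := fun e k => by
  simp only [Ay, adF, sh_cC, cmb_cC]
  exact adq_real _ (hA _) k

theorem yo_mem_one {e : Lk} (he : e ∈ lbox (3 * l + 1)) : yo l e.1 ∈ box 1 := by
  rw [← Op.mem_fb, Op.fb_one]
  exact mem_lbox.1 he

theorem natDegree_pU (N : ℕ) : (pU N).natDegree ≤ 2 * N + 1 :=
  (natDegree_sub_le _ _).trans (max_le (by simp) (natDegree_mul_le.trans (add_le_add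
    (natDegree_pow_le.trans (Nat.mul_le_mul_left _ (Op.natDegree_pP N)))
    ((natDegree_sub_le _ _).trans (by simp)))))

namespace Od

/-- matrix elements of the form of a block -/
def kr (O : Od) (f e : Lk) : ℝ := O.h (Pi.single f 1) (Pi.single e 1)

def hamL (O : Od) (W : Cf) : Fld →ₗ[ℂ] Fld := LinearMap.pi fun f => ∑ y ∈ box 2,
  adL (star (cmb star (sh (yo O.l f.1 + y) W) (-y))) ∘ₗ
    LinearMap.proj (f.1 - up O.l (yo O.l f.1 + y), f.2) ∘ₗ cxLL O.hL ∘ₗ AyL O.l (yo O.l f.1 + y) W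

theorem hamL_apply : O.hamL W A = O.ham W A := by
  funext f
  simp only [hamL, ham, LinearMap.pi_apply, LinearMap.coe_sum, Finset.sum_apply]
  rfl

def topL (O : Od) (H : Set St) (W : Cf) : Fld →ₗ[ℂ] Fld :=
  pjL O.l H ∘ₗ (LinearMap.id - (O.Λ : ℂ)⁻¹ • (O.hamL W ∘ₗ pjL O.l H))

theorem topL_apply : O.topL H W A = O.top H W A := by
  rw [top, ← hamL_apply]
  rfl

theorem top_act (hf : Act O.l H f) :
    O.top H W A f = A f - (O.Λ : ℂ)⁻¹ • O.ham W (pj O.l H A) f := pj_act hf

theorem top_not (hf : ¬ Act O.l H f) : O.top H W A f = 0 := pj_not hf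

theorem pj_top : pj O.l H (O.top H W A) = O.top H W A := pj_pj

theorem top_pj : O.top H W (pj O.l H A) = O.top H W A := by
  funext f
  by_cases hf : Act O.l H f
  · rw [top_act hf, top_act hf, pj_pj, pj_act hf]
  · rw [top_not hf, top_not hf]

theorem topL_pow (k : ℕ) : (O.topL H W ^ k) A = (O.top H W)^[k] A := by
  rw [Module.End.pow_apply, show ⇑(O.topL H W) = O.top H W from funext fun _ => topL_apply]

theorem pol_eq : O.pol p H W A = aeval (O.topL H W) p (pj O.l H A) := by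
  simp only [aeval_endomorphism, topL_pow, pol]

theorem pol_apply : O.pol p H W A f =
    ∑ k ∈ p.support, p.coeff k • (O.top H W)^[k] (pj O.l H A) f := by
  simp [pol, Polynomial.sum, Finset.sum_apply]

def polL (O : Od) (p : ℂ[X]) (H : Set St) (W : Cf) : Fld →ₗ[ℂ] Fld :=
  aeval (O.topL H W) p ∘ₗ pjL O.l H

theorem polL_apply : O.polL p H W A = O.pol p H W A := pol_eq.symm

theorem iter_not (k : ℕ) (hf : ¬ Act O.l H f) : (O.top H W)^[k] (pj O.l H A) f = 0 := by
  cases k with
  | zero => exact pj_not hf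
  | succ k => rw [Function.iterate_succ_apply']; exact top_not hf

theorem pol_not (hf : ¬ Act O.l H f) : O.pol p H W A f = 0 := by
  simp only [pol_apply, iter_not _ hf, smul_zero, sum_const_zero]

theorem pj_pol : pj O.l H (O.pol p H W A) = O.pol p H W A := pj_of fun _ => pol_not

theorem pol_pj : O.pol p H W (pj O.l H A) = O.pol p H W A := by rw [pol_eq, pol_eq, pj_pj]

theorem pol_sub : O.pol (p - q) H W A = O.pol p H W A - O.pol q H W A := by
  simp only [pol_eq, map_sub, LinearMap.sub_apply]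

theorem pol_mul : O.pol (p * q) H W A = O.pol p H W (O.pol q H W A) := by
  rw [pol_eq (p := p), pj_pol, pol_eq, pol_eq, map_mul, Module.End.mul_apply]

theorem pol_one : O.pol 1 H W A = pj O.l H A := by rw [pol_eq, map_one, Module.End.one_apply]

theorem pol_X : O.pol X H W A = O.top H W A := by rw [pol_eq, aeval_X, topL_apply, top_pj]

theorem pol_X_pow (k : ℕ) : O.pol (X ^ k) H W A = (O.top H W)^[k] (pj O.l H A) := by
  rw [pol_eq, map_pow, aeval_X, topL_pow]

theorem pol_zero : O.pol p H W 0 = 0 := by rw [← polL_apply, map_zero]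

theorem ham_sh (y : St) : O.ham (sh y W) (sh (up O.l y) A) = sh (up O.l y) (O.ham W A) := by
  funext f
  rw [sh, ham, ham]
  refine sum_congr rfl fun x _ => ?_
  have e1 : yo O.l (f.1 + up O.l y) + x = yo O.l f.1 + x + y := by rw [yo_add_up, add_right_comm]
  simp only [e1]
  rw [Ay_sh, sh_sh, up_add _ _ y, add_sub_add_right_eq_sub]

theorem top_sh (y : St) :
    O.top (shS y H) (sh y W) (sh (up O.l y) A) = sh (up O.l y) (O.top H W A) := by
  rw [top, top, pj_sh, ham_sh, ← pj_sh]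
  rfl

theorem iter_sh (y : St) (k : ℕ) : (O.top (shS y H) (sh y W))^[k] (sh (up O.l y) A) =
    sh (up O.l y) ((O.top H W)^[k] A) := by
  induction k with
  | zero => rfl
  | succ k ih => rw [Function.iterate_succ_apply', Function.iterate_succ_apply', ih, top_sh]

theorem pol_sh (y : St) : O.pol p (shS y H) (sh y W) (sh (up O.l y) A) =
    sh (up O.l y) (O.pol p H W A) := by
  funext f
  simp only [pol_apply, pj_sh, iter_sh, sh]

theorem cxL_hL (h : O.Ok c) (B : Fld) (f : Lk) :
    cxL O.hL B f = ∑ e ∈ lbox (3 * O.l + 1), (O.kr f e : ℂ) • B e :=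
  cxL_eq_sum (fun a ha => h.rng _ a (Or.inr ha)) B

theorem ham_ker (h : O.Ok c) : O.ham W A f = ∑ y ∈ box 2,
    ∑ e ∈ lbox (3 * O.l + 1), (O.kr (f.1 - up O.l (yo O.l f.1 + y), f.2) e : ℂ) •
      adq (star (cmb star (sh (yo O.l f.1 + y) W) (-y)))
        (adq (cmb star (sh (yo O.l f.1 + y) W) (yo O.l e.1))
          (A (e.1 + up O.l (yo O.l f.1 + y), e.2))) := by
  simp only [ham, cxL_hL h, adq_sum, adq_smul]
  rfl

theorem cx_eq (h : O.Ok c) (B' B : Fld) :
    cx O.h B' B = ∑ e ∈ lbox (fb O.l 2), dot (B' e) (cxL O.hL B e) := by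
  have : Rng (fb O.l 2) (3 * O.l + 1) O.h := fun a b h' => h.rng a b (h'.imp_left
    fun h' e he => h' e (lbox_mono (Op.fb_one O.l ▸ Op.fb_mono _ one_le_two) he))
  simp only [cx_eq_sum _ this, cxL_hL h, Op.dot_sum, dot_smul, kr]

theorem dot_ham (h : O.Ok c) (b : C3) : dot b (O.ham W A f) = ∑ y ∈ box 2,
    cx O.h (Ay O.l (yo O.l f.1 + y) W (Pi.single f b)) (Ay O.l (yo O.l f.1 + y) W A) := by
  rw [ham, Op.dot_sum]
  refine sum_congr rfl fun y hy => ?_
  have e1 : yo O.l (f.1 - up O.l (yo O.l f.1 + y)) = -y := by rw [Op.yo_sub_up]; abel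
  rw [cx_eq h, sum_eq_single (f.1 - up O.l (yo O.l f.1 + y), f.2), ← dot_adq]
  · simp only [Ay, adF, sh, sub_add_cancel, e1, Pi.single_eq_same]
  · intro e _ he
    rw [Ay, adF, sh, Pi.single_eq_of_ne, adq_zero, zero_dot]
    intro h2
    exact he (Prod.ext (eq_sub_of_add_eq (congrArg Prod.fst h2)) (congrArg Prod.snd h2 :))
  · exact fun hn => (hn (by rw [mem_lbox, Op.mem_fb, e1]; exact neg_mem_box hy)).elim

theorem ham_agr (h : O.Ok c) {a : ℕ} (hW : Agr (a + 4) W W') (hA : Agr (fb O.l (a + 3)) A A') :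
    Agr (fb O.l a) (O.ham W A) (O.ham W' A') := by
  intro f hf
  have h1 := Op.mem_fb.1 (mem_lbox.1 hf)
  rw [ham_ker h, ham_ker h]
  refine sum_congr rfl fun y hy => sum_congr rfl fun e he => ?_
  have h2 : Agr 2 (sh (yo O.l f.1 + y) W) (sh (yo O.l f.1 + y) W') :=
    Agr.sh (R' := a + 2) (hW.mono (by omega)) (add_mem_box h1 hy)
  have h3 := yo_mem_one he
  rw [Op.cmb_agr h2 (neg_mem_box hy), Op.cmb_agr h2 (box_mono (by norm_num) h3), hA]
  rw [mem_lbox, Op.mem_fb, yo_add_up]
  exact box_mono (by omega) (add_mem_box h3 (add_mem_box h1 hy))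

theorem top_agr (h : O.Ok c) {a : ℕ} (hH : AgS (a + 6) H H') (hW : Agr (a + 4) W W')
    (hA : Agr (fb O.l (a + 3)) A A') : Agr (fb O.l a) (O.top H W A) (O.top H' W' A') :=
  pj_agr (hH.mono (by omega)) fun e he => by
    rw [Pi.sub_apply, Pi.sub_apply, Pi.smul_apply, Pi.smul_apply,
      hA.mono (Op.fb_mono _ (by omega)) e he, ham_agr h hW (pj_agr hH hA) e he]

theorem iter_agr (h : O.Ok c) (k : ℕ) {a : ℕ} (hH : AgS (a + 3 * k + 3) H H')
    (hW : Agr (a + 3 * k + 1) W W') (hA : Agr (fb O.l (a + 3 * k)) A A') :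
    Agr (fb O.l a) ((O.top H W)^[k] A) ((O.top H' W')^[k] A') := by
  induction k generalizing a with
  | zero => exact hA
  | succ k ih =>
    rw [Function.iterate_succ_apply', Function.iterate_succ_apply']
    exact top_agr h (hH.mono (by omega)) (hW.mono (by omega))
      (ih (hH.mono (by omega)) (hW.mono (by omega)) (hA.mono (Op.fb_mono _ (by omega))))

theorem pol_agr (h : O.Ok c) {d a : ℕ} (hp : p.natDegree ≤ d) (hH : AgS (a + 3 * d + 3) H H')
    (hW : Agr (a + 3 * d + 1) W W') (hA : Agr (fb O.l (a + 3 * d)) A A') :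
    Agr (fb O.l a) (O.pol p H W A) (O.pol p H' W' A') := by
  intro f hf
  rw [pol_apply, pol_apply]
  refine sum_congr rfl fun i hi => ?_
  have := (le_natDegree_of_mem_supp i hi).trans hp
  rw [iter_agr h i (hH.mono (by omega)) (hW.mono (by omega))
    ((pj_agr hH hA).mono (Op.fb_mono _ (by omega))) f hf]

theorem ham_gauge (h : O.Ok c) {u : St → Hc} (hu : ∀ x, Uni (u x)) :
    O.ham (gauge star u W) (adF (fun x => u (yo O.l x)) A) =
      adF (fun x => u (yo O.l x)) (O.ham W A) := by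
  funext f
  simp only [ham, Ay_gauge hu, cxL_hL h, adF, adq_sum, adq_smul]
  refine sum_congr rfl fun y _ => sum_congr rfl fun e _ => ?_
  simp only [sh_gauge, cmb_gauge_star fun x => hu (x + _), star_mul, star_star, adq_mul' (hu _),
    adq_mul (hu _).star, zero_add, adq_star_adq (hu _), neg_add_cancel_comm_assoc]

theorem top_gauge (h : O.Ok c) {u : St → Hc} (hu : ∀ x, Uni (u x)) :
    O.top H (gauge star u W) (adF (fun x => u (yo O.l x)) A) =
      adF (fun x => u (yo O.l x)) (O.top H W A) := by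
  rw [top, top, adF_pj, ham_gauge h hu, ← adF_pj]
  congr 1
  funext f
  simp only [adF, Pi.sub_apply, Pi.smul_apply, adq_sub, adq_smul]

theorem pol_gauge (h : O.Ok c) {u : St → Hc} (hu : ∀ x, Uni (u x)) :
    O.pol p H (gauge star u W) (adF (fun x => u (yo O.l x)) A) =
      adF (fun x => u (yo O.l x)) (O.pol p H W A) := by
  have : ∀ (k : ℕ) (B : Fld), (O.top H (gauge star u W))^[k] (adF (fun x => u (yo O.l x)) B) =
      adF (fun x => u (yo O.l x)) ((O.top H W)^[k] B) := fun k B => by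
    induction k with
    | zero => rfl
    | succ k ih => rw [Function.iterate_succ_apply', Function.iterate_succ_apply', ih, top_gauge h hu]
  funext f
  simp only [pol_apply, adF_pj, this, adF, adq_sum, adq_smul]

theorem ham_real (hA : RealF A) : RealF (O.ham (cC W0) A) := fun e k => by
  rw [ham, Finset.sum_apply, Complex.im_sum]
  refine sum_eq_zero fun y _ => ?_
  rw [sh_cC, cmb_cC, ← cS_inv]
  exact adq_real _ (cxL_real _ (Ay_real _ hA) _) k

theorem top_real (hA : RealF A) : RealF (O.top H (cC W0) A) := pj_real fun e k => by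
  simp [← Complex.ofReal_inv, hA e k, ham_real (O := O) (W0 := W0) (pj_real hA) e k]

theorem pol_real (hp : ∀ k, (p.coeff k).im = 0) (hA : RealF A) :
    RealF (O.pol p H (cC W0) A) := fun e k => by
  have : ∀ i, RealF ((O.top H (cC W0))^[i] (pj O.l H A)) := fun i => by
    induction i with
    | zero => exact pj_real hA
    | succ i ih => rw [Function.iterate_succ_apply']; exact top_real ih
  rw [pol_apply, Finset.sum_apply, Complex.im_sum]
  exact sum_eq_zero fun i _ => by simp [hp i, this i e k]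

theorem pj_disc {A : ℂ → Fld} (hA : Disc Ω A) : Disc Ω fun t => pj l H (A t) := fun e => by
  simp only [pj]
  split_ifs
  · exact hA e
  · exact differentiableOn_const _

theorem ham_disc (h : O.Ok c) {W : ℂ → Cf} {A : ℂ → Fld} (hW : Disc Ω W) (hA : Disc Ω A) :
    Disc Ω fun t => O.ham (W t) (A t) := fun e => by
  simp only [ham_ker h]
  exact DifferentiableOn.fun_sum fun y _ => DifferentiableOn.fun_sum fun e' _ =>
    (diff_adq (diff_star (diff_cmb (hW.sh _) _)) (diff_adq (diff_cmb (hW.sh _) _) (hA _))).fun_const_smul _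

theorem pol_disc (h : O.Ok c) {W : ℂ → Cf} {A : ℂ → Fld} (hW : Disc Ω W) (hA : Disc Ω A) :
    Disc Ω fun t => O.pol p H (W t) (A t) := by
  have : ∀ k : ℕ, Disc Ω fun t => (O.top H (W t))^[k] (pj O.l H (A t)) := fun k => by
    induction k with
    | zero => exact pj_disc hA
    | succ k ih =>
      simp only [Function.iterate_succ_apply']
      exact pj_disc fun e => (ih e).sub
        ((ham_disc h hW (pj_disc (l := O.l) (H := H) ih) e).fun_const_smul (O.Λ : ℂ)⁻¹)
  intro f
  simp only [pol_apply]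
  exact DifferentiableOn.fun_sum fun k _ => (this k f).fun_const_smul _

theorem tr_conj {u : Hc} (hu : Uni u) (M : C3 →ₗ[ℂ] C3) :
    ∑ k, adq u (M (adq (star u) (Pi.single k 1))) k = ∑ k, M (Pi.single k 1) k := by
  have tr : ∀ M : C3 →ₗ[ℂ] C3, ∑ k, M (Pi.single k 1) k = LinearMap.trace ℂ C3 M := fun M => by
    rw [LinearMap.trace_eq_matrix_trace ℂ (Pi.basisFun ℂ (Fin GD.d))]
    simp [Matrix.trace]
  have e2 : adL (star u) * adL u = 1 := LinearMap.ext fun b => adq_star_adq hu b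
  rw [tr M]
  refine (tr (adL u * (M * adL (star u)))).trans ?_
  rw [LinearMap.trace_mul_comm, mul_assoc, e2, mul_one]

theorem coeff_real (N k : ℕ) :
    ((pP N).coeff k).im = 0 ∧ ((pQ N).coeff k).im = 0 ∧ ((pU N).coeff k).im = 0 := by
  have h1 : pP N = (∑ i ∈ range (N + 1), monomial i (bin i) : ℝ[X]).map (algebraMap ℝ ℂ) := by
    simp [pP, Polynomial.map_sum]
  have h2 : pQ N = (∑ i ∈ range N, monomial (i + 1) (1 / (2 * (i + 1)) : ℝ) : ℝ[X]).map
      (algebraMap ℝ ℂ) := by simp [pQ, Polynomial.map_sum]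
  have h3 : pU N = (1 - (∑ i ∈ range (N + 1), monomial i (bin i) : ℝ[X]) ^ 2 * (1 - X)).map
      (algebraMap ℝ ℂ) := by
    rw [pU, h1]
    simp only [Polynomial.map_sub, Polynomial.map_mul, Polynomial.map_pow, Polynomial.map_one, map_X]
  rw [h3, h2, h1]
  simp only [coeff_map, Complex.coe_algebraMap, Complex.ofReal_im, and_self]

theorem single_real (f : Lk) (k : Fin GD.d) : RealF (Pi.single f (Pi.single k 1)) := fun e j => by
  by_cases he : e = f
  · by_cases hj : j = k <;> simp [he, hj]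
  · simp [he]

end Od

end Pool.Agent.Lib.MP_7f377f_mp.RG.Q4
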