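import Pool.Agent.Lib.MP_7f377f_mp.G.Q4HolA
import Pool.Agent.Lib.MP_7f377f_mp.G.Q4S1
import Pool.Agent.Lib.MP_7f377f_mp.G.Q4FoC
import Pool.Agent.Lib.MP_7f377f_mp.G.Q4HoC

/-! The step is holomorphic in the data. -/

set_option linter.unusedSectionVars false
variable [Pool.Agent.Lib.MP_7f377f_mp.GD]

namespace Pool.Agent.Lib.MP_7f377f_mp.RG.Q4

theorem step_hol (c : ℕ) : ∀ᶠ S in ev c, ∀ b θ k (Ω : Set ℂ) (ψ : ℂ → Lx) (K : ℂ → Ac), IsOpen Ω →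
    (∀ t ∈ Ω, S.Sml b θ k (ψ t) (K t)) → HolL Ω ψ → HolA Ω K →
      HolA Ω (fun t => S.KK (ψ t) (K t)) ∧ HolL Ω (fun t => S.PL (ψ t) (K t)) ∧
        ∀ y, DifferentiableOn ℂ (fun t => S.Ey (ψ t) (K t) y) Ω :=
  step_hol_of c (fam_gx c) (fo_meas c) (hole_dom c)

end Pool.Agent.Lib.MP_7f377f_mp.RG.Q4
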