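import Pool.Agent.Lib.MP_7f377f_mp.G.Q4CovD
import Pool.Agent.Lib.MP_7f377f_mp.G.Q4LocO

/-! The change of variables for the fluctuation operator built from kernels. -/

noncomputable section

set_option linter.unusedSectionVars false
variable [Pool.Agent.Lib.MP_7f377f_mp.GD]

namespace Pool.Agent.Lib.MP_7f377f_mp.RG.Q4

open MeasureTheory Ms Finset

variable {O : Od} {c n : ℕ} {δ g ζ : ℝ} {H : Set St} {ka : St → Kf} {W : Cf} {W0 b : Conf}
  {As : Fld} {A : (Lk → E3) → Lk → E3}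

theorem det_gP {ι : Type} [Fintype ι] (g : ℝ) (P : (ι → E3) →ₗ[ℝ] (ι → E3)) :
    LinearMap.det (g • P) = (g ^ GD.d) ^ Fintype.card ι * LinearMap.det P := by
  have h1 : Module.finrank ℝ (ι → E3) = GD.d * Fintype.card ι := by
    simp [Module.finrank_pi_fintype, mul_comm]
  rw [LinearMap.det_smul, h1, pow_mul]

theorem pj_pc {l : ℕ} (hn : Odd n) (hH : PerS (cu n) H) (z : Lk → E3) :
    (pj l H fun e => cE (pc (LL l * n) z e)) =
      fun e => cE (exa (cu n) l H 0 (fun i => z i) e) := by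
  funext e
  by_cases he : Act l H e
  · rw [exa_act (fun _ => hn) hH he, pj, if_pos he]
    rfl
  · rw [exa_not (fun _ => hn) hH he, pj, if_neg he, cE_zero]

theorem covOk_K (h : O.Ok c) (hδ : (LL O.l : ℝ) ^ (2 * c + 10) * δ ≤ 1) (hn : Odd n)
    (hN : 2 * O.N < n) (hH : PerS (cu n) H) (hk : PerK (cu n) ka) (hr : ∀ y, Nf H y → Kr (ka y))
    (hs : ∀ y, Ks (ka y)) (h0 : PerV (cu n) W0) (hg : ∀ y, Gk O δ H ka W W0 y)
    (hb : Per (LL O.l * n) b) (hp : Per (LL O.l * n) As) (h1 : ∀ f, Act O.l H f → ‖As f‖ ≤ 1)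
    (g0 : 0 < g) (hζ : 6 * (LL O.l : ℝ) ^ (6 * c + 16) / g ≤ ζ)
    (hA : ∀ z f k, Act O.l H f → A z f k =
      (As f k + g * polK O.l O.Λ (pP O.N) H ka (fun e => cE (z e)) f k).re) :
    CovOk O.l n (Metric.closedBall 0 ζ) (alk (cu n) O.l H) (Act O.l H) b
      (fun i => WithLp.toLp 2 fun k => (As i k).re) (g • pAct (cu n) O.l O.Λ (pP O.N) H ka) A := by
  have hn' : ∀ i, Odd (cu n i) := fun _ => hn
  have hsp := pAct_spec (l := O.l) (Λ := O.Λ) hn' hH hk hr fun i => (Od.coeff_real O.N i).1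
  refine ⟨hn, fun f hf => mem_product.2 ⟨(mem_alk.1 hf).1, mem_univ _⟩,
    fun f => (rcv_alk hn' hH).symm, hb, fun z f hf => ?_, ?_, fun z hz i => ?_⟩
  · have ha := (rcv_alk hn' hH).1 hf
    ext k
    have e : As f = As (rc (LL O.l * n) f.1, f.2) :=
      Mx.per_iff.1 hp _ _ _ (Mx.cg_of_rc (rc_rc _ _).symm)
    rw [hA _ _ _ ha, ← polK_pj, pj_pc hn hH, hsp, e]
    simp only [exa_act hn' hH ha]
    simp only [cE, Complex.add_re, Complex.re_ofReal_mul, Complex.ofReal_re]
    rfl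
  · rw [det_gP]
    exact mul_ne_zero (by positivity) (det_pAct_ne h hδ hn' (fun _ => hN) hH hk hr hs h0 hg)
  · have h2 : ∀ j, ‖cE (pAct (cu n) O.l O.Λ (pP O.N) H ka z j)‖ ≤ 3 / g := by
      intro j
      have h5 : ‖(WithLp.toLp 2 fun k => (As j k).re : E3) +
        (g • pAct (cu n) O.l O.Λ (pP O.N) H ka) z j‖ ≤ 2 :=
        abs_le_of_sq_le_sq' ((hz j).trans (by norm_num)) two_pos.le |>.2
      have h6 : ‖(WithLp.toLp 2 fun k => (As j k).re : E3)‖ ≤ 1 := by
        refine le_trans ?_ (h1 _ (mem_alk.1 j.2).2)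
        rw [norm_C3, EuclideanSpace.norm_eq]
        exact Real.sqrt_le_sqrt (sum_le_sum fun k _ => pow_le_pow_left₀ (norm_nonneg _)
          (Complex.abs_re_le_norm _) 2)
      have h7 := norm_sub_le_of_le h5 h6
      rw [add_sub_cancel_left, LinearMap.smul_apply, Pi.smul_apply, norm_smul,
        Real.norm_of_nonneg g0.le] at h7
      rw [norm_cE', le_div_iff₀' g0]
      linarith
    have h3 := polK_inv (A := fun f => cE (exa (cu n) O.l H 0 z f)) (a := 3 / g) h hδ hg
      ⟨‖z‖, fun e => (norm_cE _).1.trans (by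
        unfold exa
        split_ifs
        exacts [norm_le_pi_norm _ _, norm_zero.trans_le (norm_nonneg _)])⟩ (fun e => by
        rw [hsp]
        simp only [exa]
        split_ifs
        exacts [h2 _, by rw [cE_zero, norm_zero]; positivity]) (mem_alk.1 i.2).2
    simp only [exa_coe hn'] at h3
    rw [mem_closedBall_zero_iff]
    refine ((norm_cE _).2.trans (mul_le_mul_of_nonneg_left h3 two_pos.le)).trans
      (le_of_eq_of_le (by ring) hζ)

end Pool.Agent.Lib.MP_7f377f_mp.RG.Q4
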