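import Pool.Agent.Lib.MP_7f377f_mp.G.Q4Kit

/-! Polymer estimates: sums over connected families and the Dobrushin comparison. -/

noncomputable section

set_option linter.unusedSectionVars false
variable [Pool.Agent.Lib.MP_7f377f_mp.GD]

namespace Pool.Agent.Lib.MP_7f377f_mp.RG.Q4

open Finset

section conn

variable {σ Ω : Type} [DecidableEq σ] [DecidableEq Ω]

/-- families all of whose members are linked to `X` -/
def Att (sp : Ω → Finset σ) (X : Finset σ) (O : Finset Ω) : Prop :=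
  ∀ O1 ⊆ O, O1 ≠ O → ¬ Disjoint (X ∪ us sp O1) (us sp (O \ O1))

theorem Att.erase {sp : Ω → Finset σ} {X : Finset σ} {O : Finset Ω} {o : Ω} (ho : o ∉ O)
    (h : Att sp X (insert o O)) : Att sp (X ∪ sp o) O := by
  intro O1 h1 hne
  have h2 := h (insert o O1) (insert_subset_insert _ h1) (by
    intro h3
    apply hne
    have : (insert o O1).erase o = (insert o O).erase o := by rw [h3]
    rwa [erase_insert (fun h => ho (h1 h)), erase_insert ho] at this)
  have e1 : insert o O \ insert o O1 = O \ O1 := by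
    ext y
    simp only [mem_sdiff, mem_insert, not_or]
    constructor
    · rintro ⟨h4 | h4, h5, h6⟩
      · exact absurd h4 h5
      · exact ⟨h4, h6⟩
    · rintro ⟨h4, h5⟩
      exact ⟨Or.inr h4, fun h6 => ho (h6 ▸ h4), h5⟩
  have e2 : X ∪ us sp (insert o O1) = X ∪ sp o ∪ us sp O1 := by
    simp [us, biUnion_insert, union_assoc]
  rwa [e1, e2] at h2

theorem sum_meet_le {ι : Type} (s : Finset ι) (sp : ι → Finset σ) (u : ι → ℝ) (hu : ∀ o ∈ s, 0 ≤ u o)
    {b : ℝ} (h : ∀ x, ∑ o ∈ s.filter (fun o => x ∈ sp o), u o ≤ b) (X : Finset σ) :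
    ∑ o ∈ s.filter (fun o => ¬ Disjoint X (sp o)), u o ≤ b * X.card := by
  calc ∑ o ∈ s.filter (fun o => ¬ Disjoint X (sp o)), u o
      ≤ ∑ o ∈ s, ∑ x ∈ X, if x ∈ sp o then u o else 0 := by
        rw [sum_filter]
        refine sum_le_sum fun o ho => ?_
        have h0 : ∀ x ∈ X, 0 ≤ if x ∈ sp o then u o else 0 := fun x _ => by
          split_ifs
          exacts [hu o ho, le_rfl]
        split_ifs with hd
        · exact sum_nonneg h0
        · obtain ⟨x, hx, hx'⟩ := not_disjoint_iff.mp hd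
          have := single_le_sum h0 hx
          rwa [if_pos hx'] at this
    _ = ∑ x ∈ X, ∑ o ∈ s.filter (fun o => x ∈ sp o), u o := by
        rw [sum_comm]
        simp only [sum_filter]
    _ ≤ ∑ _x ∈ X, b := sum_le_sum fun x _ => h x
    _ = b * X.card := by simp [mul_comm]

open Classical in
theorem att_sum (sp : Ω → Finset σ) (Ω0 : Finset Ω) (w : Ω → ℝ) (hw : ∀ o, 0 ≤ w o) {b : ℝ}
    (h : ∀ x, ∑ o ∈ Ω0.filter (fun o => x ∈ sp o), w o * Real.exp (b * (sp o).card) ≤ b)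
    (Ω1 : Finset Ω) : Ω1 ⊆ Ω0 → ∀ X : Finset σ,
      ∑ O ∈ Ω1.powerset, (if Att sp X O then ∏ o ∈ O, w o else 0) ≤
        Real.exp (∑ o ∈ Ω1.filter (fun o => ¬ Disjoint X (sp o)),
          w o * Real.exp (b * (sp o).card)) := by
  have hu : ∀ o, 0 ≤ w o * Real.exp (b * (sp o).card) := fun o =>
    mul_nonneg (hw o) (Real.exp_pos _).le
  induction Ω1 using Finset.strongInduction with
  | H Ω1 ih =>
  intro h1 X
  by_cases hm : ∃ o ∈ Ω1, ¬ Disjoint X (sp o)
  · obtain ⟨o, ho, hd⟩ := hm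
    obtain ⟨Ω2, ho2, rfl⟩ : ∃ Ω2, o ∉ Ω2 ∧ Ω1 = insert o Ω2 :=
      ⟨Ω1.erase o, notMem_erase _ _, (insert_erase ho).symm⟩
    have h2 : Ω2 ⊆ Ω0 := (subset_insert _ _).trans h1
    have i1 := ih Ω2 (ssubset_insert ho2) h2 X
    have i2 := ih Ω2 (ssubset_insert ho2) h2 (X ∪ sp o)
    set F := ∑ o ∈ Ω2.filter (fun o => ¬ Disjoint X (sp o)), w o * Real.exp (b * (sp o).card)
      with hF
    have i3 : ∑ o' ∈ Ω2.filter (fun o' => ¬ Disjoint (X ∪ sp o) (sp o')),
        w o' * Real.exp (b * (sp o').card) ≤ F + b * (sp o).card := by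
      have i4 := sum_meet_le Ω0 sp _ (fun o _ => hu o) h (sp o)
      have i5 : ∑ o' ∈ Ω2.filter (fun o' => ¬ Disjoint (sp o) (sp o')),
          w o' * Real.exp (b * (sp o').card) ≤ b * (sp o).card :=
        (sum_le_sum_of_subset_of_nonneg (filter_subset_filter _ h2) fun o _ _ => hu o).trans i4
      refine le_trans ?_ (add_le_add le_rfl i5)
      rw [hF, sum_filter, sum_filter, sum_filter, ← sum_add_distrib]
      refine sum_le_sum fun o' _ => ?_
      have := hu o'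
      simp only [disjoint_union_left]
      by_cases a1 : Disjoint X (sp o') <;> by_cases a2 : Disjoint (sp o) (sp o') <;>
        simp [a1, a2, this]
    rw [sum_powerset_insert ho2, filter_insert, if_pos hd,
      sum_insert (fun h => ho2 (mem_filter.mp h).1), ← hF]
    have i6 : ∑ O ∈ Ω2.powerset, (if Att sp X (insert o O) then ∏ o ∈ insert o O, w o else 0) ≤
        w o * ∑ O ∈ Ω2.powerset, (if Att sp (X ∪ sp o) O then ∏ o ∈ O, w o else 0) := by
      rw [mul_sum]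
      refine sum_le_sum fun O hO => ?_
      have hoO : o ∉ O := fun h => ho2 (mem_powerset.mp hO h)
      split_ifs with a1 a2 a2
      · rw [prod_insert hoO]
      · exact absurd (a1.erase hoO) a2
      · exact mul_nonneg (hw o) (prod_nonneg fun o _ => hw o)
      · simp
    have i7 := mul_le_mul_of_nonneg_left (i2.trans (Real.exp_le_exp.mpr i3)) (hw o)
    have i8 := Real.add_one_le_exp (w o * Real.exp (b * (sp o).card))
    rw [Real.exp_add] at i7 ⊢
    nlinarith [Real.exp_pos F]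
  · have : ∑ O ∈ Ω1.powerset, (if Att sp X O then ∏ o ∈ O, w o else 0) ≤ 1 := by
      rw [sum_eq_single ∅]
      · split_ifs <;> simp
      · intro O hO hne
        rw [if_neg]
        intro ha
        apply ha ∅ (empty_subset _) hne.symm
        simp only [us, biUnion_empty, union_empty, sdiff_empty, disjoint_biUnion_right]
        intro o ho
        by_contra hc
        exact hm ⟨o, mem_powerset.mp hO ho, hc⟩
      · simp
    exact this.trans (Real.one_le_exp (sum_nonneg fun o _ => hu o))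

open Classical in
theorem conn_sum_one (sp : Ω → Finset σ) (Ω0 : Finset Ω) (hs : ∀ o ∈ Ω0, (sp o).Nonempty)
    (w : Ω → ℝ) (hw : ∀ o, 0 ≤ w o) {e : ℝ} (he : 0 < e)
    (h : ∀ x, ∑ o ∈ Ω0.filter (fun o => x ∈ sp o), w o * Real.exp (e * (sp o).card) ≤ e / 4)
    (x : σ) :
    ∑ O ∈ Ω0.powerset.filter (fun O => Conn sp O ∧ x ∈ us sp O), ∏ o ∈ O, w o ≤ e / 2 := by
  set b := e / 4 * Real.exp (-(3 * e / 4)) with hb
  have hb0 : 0 ≤ b := by positivity
  have hb1 : b ≤ e / 4 := mul_le_of_le_one_right (by positivity)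
    (Real.exp_le_one_iff.mpr (by linarith))
  have hb2 : b ≤ 1 := by
    rw [hb, Real.exp_neg, ← div_eq_mul_inv, div_le_one (Real.exp_pos _)]
    linarith [Real.add_one_le_exp (3 * e / 4)]
  have h' : ∀ x, ∑ o ∈ Ω0.filter (fun o => x ∈ sp o), w o * Real.exp (b * (sp o).card) ≤ b := by
    intro y
    calc _ ≤ ∑ o ∈ Ω0.filter (fun o => y ∈ sp o),
          w o * Real.exp (e * (sp o).card) * Real.exp (-(3 * e / 4)) := by
          refine sum_le_sum fun o ho => ?_
          rw [mul_assoc (w o), ← Real.exp_add]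
          refine mul_le_mul_of_nonneg_left (Real.exp_le_exp.mpr ?_) (hw o)
          have : (1 : ℝ) ≤ (sp o).card := by exact_mod_cast (hs o (mem_filter.mp ho).1).card_pos
          nlinarith
      _ ≤ b := by
          rw [← sum_mul]
          exact mul_le_mul_of_nonneg_right (h y) (Real.exp_pos _).le
  have i1 := att_sum sp Ω0 w hw h' Ω0 Subset.rfl {x}
  have i2 := sum_meet_le Ω0 sp _ (fun o _ => mul_nonneg (hw o) (Real.exp_pos _).le) h' {x}
  have i3 : Real.exp b ≤ 1 + 2 * b := by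
    have := Real.abs_exp_sub_one_le (x := b) (by rwa [abs_of_nonneg hb0])
    rw [abs_of_nonneg hb0] at this
    linarith [le_abs_self (Real.exp b - 1)]
  simp only [card_singleton, Nat.cast_one, mul_one] at i2
  have i4 := i1.trans ((Real.exp_le_exp.mpr i2).trans i3)
  have i5 : 1 + ∑ O ∈ Ω0.powerset.filter (fun O => Conn sp O ∧ x ∈ us sp O), ∏ o ∈ O, w o ≤
      ∑ O ∈ Ω0.powerset, (if Att sp {x} O then ∏ o ∈ O, w o else 0) := by
    rw [← sum_filter]
    have e0 : (1 : ℝ) = ∏ o ∈ (∅ : Finset Ω), w o := by simp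
    rw [e0, ← sum_insert (f := fun O : Finset Ω => ∏ o ∈ O, w o) (by simp [us])]
    refine sum_le_sum_of_subset_of_nonneg ?_ fun O _ _ => prod_nonneg fun o _ => hw o
    intro O hO
    rcases mem_insert.mp hO with rfl | hO
    · exact mem_filter.mpr ⟨by simp, fun O1 h1 h2 => absurd (subset_empty.mp h1) h2⟩
    · obtain ⟨h1, h2, h3⟩ := mem_filter.mp hO
      refine mem_filter.mpr ⟨h1, fun O1 h4 h5 h6 => ?_⟩
      rcases O1.eq_empty_or_nonempty with rfl | h7
      · rw [sdiff_empty] at h6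
        exact disjoint_left.mp h6 (by simp) h3
      · exact h2.2 O1 h4 h7 h5 (disjoint_union_left.mp h6).2
  linarith

open Classical in
/-- sums over connected families with at least `j` members -/
theorem conn_sum (sp : Ω → Finset σ) (Ω0 : Finset Ω) (hs : ∀ o ∈ Ω0, (sp o).Nonempty)
    (w : Ω → ℝ) (hw : ∀ o, 0 ≤ w o) {θ e : ℝ} (he : 0 < e) (hθ : 4 * θ ≤ e)
    (h : ∀ x, ∑ o ∈ Ω0.filter (fun o => x ∈ sp o), w o * Real.exp (e * (sp o).card) ≤ θ)
    (j : ℕ) (hj : 1 ≤ j) (x : σ) :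
    ∑ O ∈ Ω0.powerset.filter (fun O => Conn sp O ∧ x ∈ us sp O ∧ j ≤ O.card), ∏ o ∈ O, w o ≤
      2 * θ * (4 * θ / e) ^ (j - 1) := by
  have hu : ∀ o, 0 ≤ w o * Real.exp (e * (sp o).card) := fun o =>
    mul_nonneg (hw o) (Real.exp_pos _).le
  have hθ0 : 0 ≤ θ := (sum_nonneg fun o _ => hu o).trans (h x)
  rcases hθ0.eq_or_lt with rfl | hθ0
  · refine le_trans (le_of_eq (sum_eq_zero fun O hO => ?_)) (by simp)
    obtain ⟨h1, h2, -, -⟩ := mem_filter.mp hO
    obtain ⟨o, ho⟩ := h2.1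
    have ho' := mem_powerset.mp h1 ho
    obtain ⟨y, hy⟩ := hs o ho'
    refine prod_eq_zero ho ?_
    have := (single_le_sum (fun o _ => hu o) (mem_filter.mpr ⟨ho', hy⟩)).trans (h y)
    have := le_antisymm this (hu o)
    exact (mul_eq_zero.mp this).resolve_right (Real.exp_pos _).ne'
  set q := 4 * θ / e with hq
  have hq0 : 0 < q := by positivity
  have hq1 : q ≤ 1 := (div_le_one he).mpr hθ
  have i1 := conn_sum_one sp Ω0 hs (fun o => w o / q) (fun o => div_nonneg (hw o) hq0.le) he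
    (fun y => by
      have : ∑ o ∈ Ω0.filter (fun o => y ∈ sp o), w o / q * Real.exp (e * (sp o).card) =
          (∑ o ∈ Ω0.filter (fun o => y ∈ sp o), w o * Real.exp (e * (sp o).card)) / q := by
        rw [sum_div]
        exact sum_congr rfl fun o _ => by ring
      rw [this, div_le_iff₀ hq0]
      refine (h y).trans (le_of_eq ?_)
      rw [hq]
      field_simp) x
  have hp : ∀ O : Finset Ω, 0 ≤ ∏ o ∈ O, w o / q := fun O =>
    prod_nonneg fun o _ => div_nonneg (hw o) hq0.le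
  calc _ ≤ ∑ O ∈ Ω0.powerset.filter (fun O => Conn sp O ∧ x ∈ us sp O ∧ j ≤ O.card),
        q ^ j * ∏ o ∈ O, w o / q := by
        refine sum_le_sum fun O hO => ?_
        have e1 : ∏ o ∈ O, w o = q ^ O.card * ∏ o ∈ O, w o / q := by
          rw [prod_div_distrib, prod_const]
          field_simp
        rw [e1]
        exact mul_le_mul_of_nonneg_right
          (pow_le_pow_of_le_one hq0.le hq1 (mem_filter.mp hO).2.2.2) (hp O)
    _ ≤ q ^ j * (e / 2) := by
        rw [← mul_sum]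
        refine mul_le_mul_of_nonneg_left (le_trans ?_ i1) (by positivity)
        refine sum_le_sum_of_subset_of_nonneg (fun O hO => ?_) fun O _ _ => hp O
        obtain ⟨h1, h2, h3, -⟩ := mem_filter.mp hO
        exact mem_filter.mpr ⟨h1, h2, h3⟩
    _ = 2 * θ * q ^ (j - 1) := by
        obtain ⟨i, rfl⟩ := Nat.exists_eq_add_of_le' hj
        rw [Nat.add_sub_cancel, pow_succ, mul_assoc, mul_comm (2 * θ)]
        congr 1
        rw [hq]
        field_simp
        ring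

end conn

section dob

variable {σ : Type} [DecidableEq σ]

open Classical in
/-- partition function of the polymers in `P` -/
def ZP (P : Finset (Finset σ)) (K : Finset σ → ℂ) : ℂ :=
  ∑ 𝒳 ∈ P.powerset, if (𝒳 : Set (Finset σ)).PairwiseDisjoint id then ∏ X ∈ 𝒳, K X else 0

theorem Zp_eq_ZP (Λ : Finset σ) (K : Finset σ → ℂ) :
    Zp Λ K 1 = ZP (Λ.powerset.erase ∅) K := by
  classical
  unfold Zp ZP fams
  rw [← sum_filter]
  refine sum_congr ?_ fun 𝒳 _ => by simp
  ext 𝒳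
  simp only [mem_filter, mem_powerset, subset_erase]
  tauto

omit [DecidableEq σ] in
theorem ZP_empty (K : Finset σ → ℂ) : ZP ∅ K = 1 := by simp [ZP]

omit [DecidableEq σ] in
theorem ZP_congr {P : Finset (Finset σ)} {K K' : Finset σ → ℂ} (h : ∀ X ∈ P, K X = K' X) :
    ZP P K = ZP P K' := by
  unfold ZP
  refine sum_congr rfl fun 𝒳 h𝒳 => ?_
  rw [prod_congr rfl fun X hX => h X (mem_powerset.mp h𝒳 hX)]

theorem ZP_insert {P : Finset (Finset σ)} {X : Finset σ} (hX : X ∉ P) (K : Finset σ → ℂ) :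
    ZP (insert X P) K = ZP P K + K X * ZP (P.filter fun Y => Disjoint X Y) K := by
  classical
  unfold ZP
  rw [sum_powerset_insert hX, mul_sum]
  congr 1
  have e1 : (P.filter fun Y => Disjoint X Y).powerset =
      P.powerset.filter fun 𝒳 => ∀ Y ∈ 𝒳, Disjoint X Y := by
    ext 𝒳
    simp only [mem_powerset, mem_filter, subset_iff]
    exact ⟨fun h => ⟨fun _ hY => (h hY).1, fun _ hY => (h hY).2⟩,
      fun h _ hY => ⟨h.1 hY, h.2 _ hY⟩⟩
  rw [e1, sum_filter]
  refine sum_congr rfl fun 𝒳 h𝒳 => ?_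
  have hX' : X ∉ 𝒳 := fun h => hX (mem_powerset.mp h𝒳 h)
  have e2 : ((insert X 𝒳 : Finset (Finset σ)) : Set (Finset σ)).PairwiseDisjoint id ↔
      (𝒳 : Set (Finset σ)).PairwiseDisjoint id ∧ ∀ Y ∈ 𝒳, Disjoint X Y := by
    rw [coe_insert, Set.pairwiseDisjoint_insert_of_notMem (by simpa using hX')]
    simp
  rw [prod_insert hX']
  by_cases a1 : (𝒳 : Set (Finset σ)).PairwiseDisjoint id <;>
    by_cases a2 : ∀ Y ∈ 𝒳, Disjoint X Y
  · rw [if_pos (e2.mpr ⟨a1, a2⟩), if_pos a2, if_pos a1]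
  · rw [if_neg (fun h => a2 (e2.mp h).2), if_neg a2]
  · rw [if_neg (fun h => a1 (e2.mp h).1), if_pos a2, if_neg a1, mul_zero]
  · rw [if_neg (fun h => a1 (e2.mp h).1), if_neg a2]

omit [DecidableEq σ] in
theorem ZP_diff {S : Set ℂ} (P : Finset (Finset σ)) {K : ℂ → Finset σ → ℂ}
    (hK : ∀ X, DifferentiableOn ℂ (fun s => K s X) S) :
    DifferentiableOn ℂ (fun s => ZP P (K s)) S := by
  unfold ZP
  refine DifferentiableOn.fun_sum fun 𝒳 _ => ?_
  split_ifs
  · exact DifferentiableOn.fun_finsetProd fun X _ => hK X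
  · exact differentiableOn_const _

omit [DecidableEq σ] in
theorem ZP_im (P : Finset (Finset σ)) {K : Finset σ → ℂ} (hK : ∀ X, (K X).im = 0) :
    (ZP P K).im = 0 := by
  unfold ZP
  rw [Complex.im_sum]
  refine sum_eq_zero fun 𝒳 _ => ?_
  split_ifs
  · have : ∏ X ∈ 𝒳, K X = ((∏ X ∈ 𝒳, (K X).re : ℝ) : ℂ) := by
      rw [Complex.ofReal_prod]
      exact prod_congr rfl fun X _ => Complex.ext (by simp) (by simp [hK X])
    rw [this, Complex.ofReal_im]
  · simp

/-- the Dobrushin condition on a set of polymers -/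
structure Dob (P0 : Finset (Finset σ)) (K : Finset σ → ℂ) (w : Finset σ → ℝ) (e : ℝ) : Prop where
  ne : ∀ X ∈ P0, X.Nonempty
  bd : ∀ X ∈ P0, ‖K X‖ ≤ w X
  e1 : e ≤ 1
  sm : ∀ x, ∑ X ∈ P0.filter (fun X => x ∈ X), w X * Real.exp (e * X.card) ≤ e / 2

namespace Dob

variable {P0 : Finset (Finset σ)} {K : Finset σ → ℂ} {w : Finset σ → ℝ} {e : ℝ}

theorem u0 (H : Dob P0 K w e) {X : Finset σ} (hX : X ∈ P0) :
    0 ≤ w X * Real.exp (e * X.card) :=
  mul_nonneg ((norm_nonneg _).trans (H.bd X hX)) (Real.exp_pos _).le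

theorem u1 (H : Dob P0 K w e) {X : Finset σ} (hX : X ∈ P0) :
    w X * Real.exp (e * X.card) ≤ 1 / 2 := by
  obtain ⟨x, hx⟩ := H.ne X hX
  have := (single_le_sum (f := fun X : Finset σ => w X * Real.exp (e * X.card))
    (fun Y hY => H.u0 (mem_filter.mp hY).1) (mem_filter.mpr ⟨hX, hx⟩)).trans (H.sm x)
  linarith [H.e1]

theorem meet (H : Dob P0 K w e) {P : Finset (Finset σ)} (hP : P ⊆ P0) (X : Finset σ) :
    ∑ Y ∈ P \ P.filter (fun Y => Disjoint X Y), 2 * (w Y * Real.exp (e * Y.card)) ≤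
      e * X.card := by
  have i1 := sum_meet_le P0 id (fun Y => w Y * Real.exp (e * Y.card)) (fun Y hY => H.u0 hY)
    H.sm X
  have i2 : ∑ Y ∈ P \ P.filter (fun Y => Disjoint X Y), w Y * Real.exp (e * Y.card) ≤
      ∑ Y ∈ P0.filter (fun Y => ¬ Disjoint X (id Y)), w Y * Real.exp (e * Y.card) := by
    refine sum_le_sum_of_subset_of_nonneg (fun Y hY => ?_) fun Y hY _ => H.u0 (mem_filter.mp hY).1
    obtain ⟨h1, h2⟩ := mem_sdiff.mp hY
    exact mem_filter.mpr ⟨hP h1, fun h => h2 (mem_filter.mpr ⟨h1, h⟩)⟩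
  rw [← mul_sum]
  linarith

/-- removing polymers changes the partition function by a controlled factor -/
theorem ratio (H : Dob P0 K w e) (P : Finset (Finset σ)) : P ⊆ P0 → ∀ P' ⊆ P,
    ‖ZP P' K‖ ≤ ‖ZP P K‖ * Real.exp (∑ Y ∈ P \ P', 2 * (w Y * Real.exp (e * Y.card))) := by
  induction P using Finset.strongInduction with
  | H P ih =>
  intro hP P' hP'
  rcases eq_or_ne P' P with rfl | hne
  · simp
  obtain ⟨X, hX, hX'⟩ := exists_of_ssubset (hP'.ssubset_of_ne hne)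
  obtain ⟨Q, hXQ, rfl⟩ : ∃ Q, X ∉ Q ∧ P = insert X Q :=
    ⟨P.erase X, notMem_erase _ _, (insert_erase hX).symm⟩
  have hQ : Q ⊆ P0 := (subset_insert _ _).trans hP
  have hQ' : P' ⊆ Q := (subset_insert_iff_of_notMem hX').mp hP'
  have i1 := ih Q (ssubset_insert hXQ) hQ P' hQ'
  have i2 := (ih Q (ssubset_insert hXQ) hQ _ (filter_subset (fun Y => Disjoint X Y) Q)).trans
    (mul_le_mul_of_nonneg_left (Real.exp_le_exp.mpr (H.meet hQ X)) (norm_nonneg _))
  have hX0 := hP (mem_insert_self X Q)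
  have u0 := H.u0 hX0
  have u1 := H.u1 hX0
  set u := w X * Real.exp (e * X.card) with hu
  have i3 : ‖K X * ZP (Q.filter fun Y => Disjoint X Y) K‖ ≤ ‖ZP Q K‖ * u := by
    rw [norm_mul]
    calc _ ≤ w X * (‖ZP Q K‖ * Real.exp (e * X.card)) :=
          mul_le_mul (H.bd X hX0) i2 (norm_nonneg _) ((norm_nonneg _).trans (H.bd X hX0))
      _ = _ := by rw [hu]; ring
  have i4 : ‖ZP Q K‖ * (1 - u) ≤ ‖ZP (insert X Q) K‖ := by
    rw [ZP_insert hXQ]
    have := norm_sub_le (ZP Q K + K X * ZP (Q.filter fun Y => Disjoint X Y) K)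
      (K X * ZP (Q.filter fun Y => Disjoint X Y) K)
    rw [add_sub_cancel_right] at this
    linarith
  have i5 : ‖ZP Q K‖ ≤ ‖ZP (insert X Q) K‖ * Real.exp (2 * u) := by
    have j1 := Real.add_one_le_exp (2 * u)
    have j2 : 1 ≤ (1 - u) * Real.exp (2 * u) := by nlinarith
    calc _ ≤ ‖ZP Q K‖ * ((1 - u) * Real.exp (2 * u)) := le_mul_of_one_le_right (norm_nonneg _) j2
      _ ≤ _ := by
        rw [← mul_assoc]
        exact mul_le_mul_of_nonneg_right i4 (Real.exp_pos _).le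
  rw [insert_sdiff_of_notMem _ hX', sum_insert (fun h => hXQ (mem_sdiff.mp h).1), Real.exp_add,
    ← mul_assoc]
  exact i1.trans (mul_le_mul_of_nonneg_right i5 (Real.exp_pos _).le)

theorem ne_zero (H : Dob P0 K w e) {P : Finset (Finset σ)} (hP : P ⊆ P0) : ZP P K ≠ 0 := by
  intro h
  have := H.ratio P hP ∅ (empty_subset _)
  rw [h, ZP_empty] at this
  norm_num at this

/-- the probability that no polymer meets `X` -/
theorem hole (H : Dob P0 K w e) {P : Finset (Finset σ)} (hP : P ⊆ P0) (X : Finset σ) :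
    ‖ZP (P.filter fun Y => Disjoint X Y) K / ZP P K‖ ≤ Real.exp (e * X.card) := by
  rw [norm_div, div_le_iff₀ (norm_pos_iff.mpr (H.ne_zero hP)), mul_comm]
  exact (H.ratio P hP _ (filter_subset _ _)).trans
    (mul_le_mul_of_nonneg_left (Real.exp_le_exp.mpr (H.meet hP X)) (norm_nonneg _))

theorem pos (H : Dob P0 K w e) (hK : ∀ X, (K X).im = 0) (P : Finset (Finset σ)) :
    P ⊆ P0 → 0 < (ZP P K).re := by
  induction P using Finset.induction_on with
  | empty => simp [ZP_empty]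
  | insert X Q hXQ ih =>
  intro hP
  have hQ : Q ⊆ P0 := (subset_insert _ _).trans hP
  have hX0 := hP (mem_insert_self X Q)
  have i1 := ih hQ
  have i2 := H.hole hQ X
  rw [norm_div, div_le_iff₀ (norm_pos_iff.mpr (H.ne_zero hQ))] at i2
  have i3 : ‖ZP Q K‖ = (ZP Q K).re := by
    rw [← Complex.abs_re_eq_norm.mpr (ZP_im Q hK), abs_of_pos i1]
  have i4 : ‖K X * ZP (Q.filter fun Y => Disjoint X Y) K‖ ≤ 1 / 2 * (ZP Q K).re := by
    rw [norm_mul]
    calc _ ≤ w X * (Real.exp (e * X.card) * ‖ZP Q K‖) :=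
          mul_le_mul (H.bd X hX0) i2 (norm_nonneg _) ((norm_nonneg _).trans (H.bd X hX0))
      _ ≤ _ := by
          rw [← mul_assoc, i3]
          exact mul_le_mul_of_nonneg_right (H.u1 hX0) i1.le
  have i5 := (Complex.abs_re_le_norm _).trans i4
  rw [ZP_insert hXQ, Complex.add_re]
  linarith [neg_abs_le (K X * ZP (Q.filter fun Y => Disjoint X Y) K).re]

end Dob

theorem log_lip {z z' : ℂ} (h : ‖z‖ ≤ 1 / 2) (h' : ‖z'‖ ≤ 1 / 2) :
    ‖Complex.log (1 + z') - Complex.log (1 + z)‖ ≤ 2 * ‖z' - z‖ := by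
  refine (convex_closedBall (0 : ℂ) (1 / 2)).norm_image_sub_le_of_norm_hasDerivWithin_le
    (f := fun z => Complex.log (1 + z)) (f' := fun z => (1 + z)⁻¹) (fun y hy => ?_)
    (fun y hy => ?_) (by simpa using h) (by simpa using h')
  · have hy' : ‖y‖ < 1 := by
      have : ‖y‖ ≤ 1 / 2 := by simpa using hy
      linarith
    have := ((hasDerivAt_id y).const_add 1).clog (Complex.mem_slitPlane_of_norm_lt_one hy')
    simpa using this.hasDerivWithinAt
  · have h1 : ‖y‖ ≤ 1 / 2 := by simpa using hy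
    have h2 := norm_sub_le (1 + y) y
    rw [add_sub_cancel_right, norm_one] at h2
    rw [norm_inv]
    exact inv_le_of_inv_le₀ (by norm_num) (by linarith)

theorem log_im {z : ℂ} (h : ‖z‖ ≤ 1 / 2) (hz : z.im = 0) : (Complex.log (1 + z)).im = 0 := by
  rw [Complex.log_im, Complex.arg_eq_zero_iff]
  have := (Complex.abs_re_le_norm z).trans h
  constructor
  · simp only [Complex.add_re, Complex.one_re]
    linarith [neg_abs_le z.re]
  · simp [hz]

/-- change of the activities of the polymers in `T` -/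
theorem dob_change (P : Finset (Finset σ)) (K : ℂ → Finset σ → ℂ) (w : Finset σ → ℝ) {e : ℝ}
    {S : Set ℂ} (hK : ∀ X, DifferentiableOn ℂ (fun s => K s X) S)
    (T : Finset (Finset σ)) :
    T ⊆ P → ∀ K' : ℂ → Finset σ → ℂ, (∀ X, DifferentiableOn ℂ (fun s => K' s X) S) →
      (∀ s ∈ S, ∀ K2 : Finset σ → ℂ, (∀ X, K2 X = K s X ∨ K2 X = K' s X) → Dob P K2 w e) →
      (∀ s, ∀ X ∈ P, X ∉ T → K' s X = K s X) →
      ∃ ζ : ℂ → ℂ, DifferentiableOn ℂ ζ S ∧ ∀ s ∈ S,
        ZP P (K' s) = ZP P (K s) * Complex.exp (ζ s) ∧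
        ‖ζ s‖ ≤ 2 * ∑ X ∈ T, ‖K' s X - K s X‖ * Real.exp (e * X.card) ∧
        ((∀ X, (K s X).im = 0 ∧ (K' s X).im = 0) → (ζ s).im = 0) := by
  induction T using Finset.induction_on with
  | empty =>
    intro _ K' _ _ h
    exact ⟨0, differentiableOn_const _, fun s _ =>
      ⟨by simpa using ZP_congr fun X hX => h s X hX (notMem_empty _), by simp, by simp⟩⟩
  | insert X T hXT ih =>
  intro hT K' hK' H h
  have hXP := hT (mem_insert_self X T)
  obtain ⟨Q, hXQ, rfl⟩ : ∃ Q, X ∉ Q ∧ P = insert X Q :=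
    ⟨P.erase X, notMem_erase _ _, (insert_erase hXP).symm⟩
  set K1 : ℂ → Finset σ → ℂ := fun s Y => if Y = X then K s Y else K' s Y with hK1
  have d1 : ∀ Y, DifferentiableOn ℂ (fun s => K1 s Y) S := fun Y => by
    simp only [hK1]
    split_ifs
    exacts [hK Y, hK' Y]
  have c1 : ∀ s Y, K1 s Y = K s Y ∨ K1 s Y = K' s Y := fun s Y => by
    simp only [hK1]
    split_ifs <;> simp
  obtain ⟨ζ, hζ, hz⟩ := ih ((subset_insert _ _).trans hT) K1 d1
    (fun s hs K2 h2 => H s hs K2 fun Y => (h2 Y).elim Or.inl fun h3 => h3 ▸ c1 s Y)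
    (fun s Y hY hYT => by
      simp only [hK1]
      split_ifs with h3
      · rfl
      · exact h s Y hY (by simp [h3, hYT]))
  set r : ℂ → ℂ := fun s => ZP (Q.filter fun Y => Disjoint X Y) (K' s) / ZP Q (K' s) with hr
  have HK' : ∀ s ∈ S, Dob (insert X Q) (K' s) w e := fun s hs => H s hs _ fun _ => Or.inr rfl
  have HK : ∀ s ∈ S, Dob (insert X Q) (K s) w e := fun s hs => H s hs _ fun _ => Or.inl rfl
  have n0 : ∀ s ∈ S, ZP Q (K' s) ≠ 0 := fun s hs => (HK' s hs).ne_zero (subset_insert _ _)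
  have b0 : ∀ s ∈ S, ‖r s‖ ≤ Real.exp (e * X.card) := fun s hs =>
    (HK' s hs).hole (subset_insert _ _) X
  have b1 : ∀ s ∈ S, ∀ a : ℂ, ‖a‖ ≤ w X → ‖a * r s‖ ≤ 1 / 2 := fun s hs a ha => by
    rw [norm_mul]
    exact (mul_le_mul ha (b0 s hs) (norm_nonneg _) ((norm_nonneg _).trans ha)).trans
      ((HK' s hs).u1 hXP)
  have b2 : ∀ s ∈ S, ‖K s X * r s‖ ≤ 1 / 2 := fun s hs => b1 s hs _ ((HK s hs).bd X hXP)
  have b3 : ∀ s ∈ S, ‖K' s X * r s‖ ≤ 1 / 2 := fun s hs => b1 s hs _ ((HK' s hs).bd X hXP)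
  have sl : ∀ z : ℂ, ‖z‖ ≤ 1 / 2 → 1 + z ∈ Complex.slitPlane := fun z hz =>
    Complex.mem_slitPlane_of_norm_lt_one (by linarith)
  have dr : DifferentiableOn ℂ r S := (ZP_diff _ hK').div (ZP_diff _ hK') n0
  refine ⟨fun s => ζ s + (Complex.log (1 + K' s X * r s) - Complex.log (1 + K s X * r s)),
    hζ.add ((((hK' X).mul dr).const_add 1 |>.clog fun s hs => sl _ (b3 s hs)).sub
      (((hK X).mul dr).const_add 1 |>.clog fun s hs => sl _ (b2 s hs))), fun s hs => ?_⟩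
  obtain ⟨z1, z2, z3⟩ := hz s hs
  have q1 : ∀ Y ∈ Q, K1 s Y = K' s Y := fun Y hY => if_neg fun h3 : Y = X => hXQ (h3 ▸ hY)
  have q2 : ZP (insert X Q) (K1 s) = ZP Q (K' s) * (1 + K s X * r s) := by
    rw [ZP_insert hXQ, ZP_congr q1, ZP_congr fun Y hY => q1 Y (mem_filter.mp hY).1]
    simp only [hK1, hr, if_pos]
    field_simp [n0 s hs]
  have q3 : ZP (insert X Q) (K' s) = ZP Q (K' s) * (1 + K' s X * r s) := by
    rw [ZP_insert hXQ]
    simp only [hr]
    field_simp [n0 s hs]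
  refine ⟨?_, ?_, fun hre => ?_⟩
  · have n2 := Complex.slitPlane_ne_zero (sl _ (b2 s hs))
    rw [Complex.exp_add, ← mul_assoc, ← z1, Complex.exp_sub, Complex.exp_log n2,
      Complex.exp_log (Complex.slitPlane_ne_zero (sl _ (b3 s hs))), q2, q3, mul_assoc,
      mul_div_cancel₀ _ n2]
  · have q4 : ∑ Y ∈ T, ‖K1 s Y - K s Y‖ * Real.exp (e * Y.card) =
        ∑ Y ∈ T, ‖K' s Y - K s Y‖ * Real.exp (e * Y.card) :=
      sum_congr rfl fun Y hY => by
        simp only [hK1]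
        rw [if_neg fun h3 : Y = X => hXT (h3 ▸ hY)]
    have q5 := log_lip (b2 s hs) (b3 s hs)
    rw [← sub_mul, norm_mul] at q5
    have q6 := mul_le_mul_of_nonneg_left (b0 s hs) (norm_nonneg (K' s X - K s X))
    rw [sum_insert hXT, ← q4]
    refine (norm_add_le _ _).trans ?_
    linarith
  · have r0 : (r s).im = 0 := by
      simp only [hr]
      rw [Complex.div_im, ZP_im _ fun Y => (hre Y).2, ZP_im _ fun Y => (hre Y).2]
      simp
    rw [Complex.add_im, Complex.sub_im, log_im (b2 s hs) (by simp [r0, (hre X).1]),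
      log_im (b3 s hs) (by simp [r0, (hre X).2]), z3 fun Y => ⟨(hre Y).1, by
        rcases c1 s Y with h3 | h3 <;> rw [h3]
        exacts [(hre Y).1, (hre Y).2]⟩]
    simp

theorem dob_of (Λ : Finset σ) {K : Finset σ → ℂ} {w : Finset σ → ℝ} {e : ℝ} (he1 : e ≤ 1)
    (hw : ∀ X, ‖K X‖ ≤ w X)
    (h : ∀ x, ∑ X ∈ Λ.powerset.filter (fun X => x ∈ X), w X * Real.exp (e * X.card) ≤ e / 2) :
    Dob (Λ.powerset.erase ∅) K w e where
  ne _ hX := nonempty_iff_ne_empty.mpr (mem_erase.mp hX).1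
  bd X _ := hw X
  e1 := he1
  sm x := (sum_le_sum_of_subset_of_nonneg (filter_subset_filter _ (erase_subset _ _))
    fun X _ _ => mul_nonneg ((norm_nonneg _).trans (hw X)) (Real.exp_pos _).le).trans (h x)

theorem Zp_lower (Λ : Finset σ) {K : Finset σ → ℂ} {w : Finset σ → ℝ} {e : ℝ} (he1 : e ≤ 1)
    (hw : ∀ X, ‖K X‖ ≤ w X)
    (h : ∀ x, ∑ X ∈ Λ.powerset.filter (fun X => x ∈ X), w X * Real.exp (e * X.card) ≤ e / 2) :
    Real.exp (-(e * Λ.card)) ≤ ‖Zp Λ K 1‖ := by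
  have H := dob_of Λ he1 hw h
  have i1 := H.hole Subset.rfl Λ
  have e1 : (Λ.powerset.erase ∅).filter (fun Y => Disjoint Λ Y) = ∅ := by
    refine filter_eq_empty_iff.mpr fun Y hY hd => ?_
    obtain ⟨y, hy⟩ := H.ne Y hY
    exact disjoint_left.mp hd (mem_powerset.mp (mem_erase.mp hY).2 hy) hy
  rw [e1, ZP_empty, norm_div, norm_one,
    div_le_iff₀ (norm_pos_iff.mpr (H.ne_zero Subset.rfl))] at i1
  rw [Zp_eq_ZP, Real.exp_neg, inv_le_iff_one_le_mul₀' (Real.exp_pos _)]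
  exact i1

/-- Dobrushin comparison, holomorphic in a parameter -/
theorem dobrushin (Λ : Finset σ) (K K' : ℂ → Finset σ → ℂ) (w δ : Finset σ → ℝ) {e : ℝ}
    {S : Set ℂ} (_hS : IsOpen S) (_he : 0 < e) (he1 : e ≤ 1)
    (hK : ∀ X, DifferentiableOn ℂ (fun s => K s X) S) (hK' : ∀ X, DifferentiableOn ℂ (fun s => K' s X) S)
    (hw : ∀ s ∈ S, ∀ X, ‖K s X‖ ≤ w X ∧ ‖K' s X‖ ≤ w X ∧ ‖K' s X - K s X‖ ≤ δ X)
    (h : ∀ x, ∑ X ∈ Λ.powerset.filter (fun X => x ∈ X), w X * Real.exp (e * X.card) ≤ e / 2) :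
    ∃ ζ : ℂ → ℂ, DifferentiableOn ℂ ζ S ∧ ∀ s ∈ S,
      Zp Λ (K' s) 1 = Zp Λ (K s) 1 * Complex.exp (ζ s) ∧
      ‖ζ s‖ ≤ 2 * ∑ X ∈ Λ.powerset, δ X * Real.exp (e * X.card) ∧
      Real.exp (-(e * Λ.card)) ≤ ‖Zp Λ (K s) 1‖ ∧
      ((∀ X, (K s X).im = 0 ∧ (K' s X).im = 0) → (ζ s).im = 0 ∧ 0 < (Zp Λ (K s) 1).re) := by
  obtain ⟨ζ, hζ, hz⟩ := dob_change (Λ.powerset.erase ∅) K w hK (Λ.powerset.erase ∅) Subset.rfl
    K' hK' (fun s hs K2 h2 => dob_of Λ he1 (fun X => by
      rcases h2 X with h3 | h3 <;> rw [h3]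
      exacts [(hw s hs X).1, (hw s hs X).2.1]) h) (fun _ _ h1 h2 => absurd h1 h2)
  refine ⟨ζ, hζ, fun s hs => ?_⟩
  obtain ⟨z1, z2, z3⟩ := hz s hs
  refine ⟨by rw [Zp_eq_ZP, Zp_eq_ZP, z1], z2.trans ?_,
    Zp_lower Λ he1 (fun X => (hw s hs X).1) h, fun hre => ⟨z3 hre, ?_⟩⟩
  · refine mul_le_mul_of_nonneg_left ?_ (by norm_num)
    calc _ ≤ ∑ X ∈ Λ.powerset.erase ∅, δ X * Real.exp (e * X.card) :=
          sum_le_sum fun X _ => mul_le_mul_of_nonneg_right (hw s hs X).2.2 (Real.exp_pos _).le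
      _ ≤ _ := sum_le_sum_of_subset_of_nonneg (erase_subset _ _) fun X _ _ =>
          mul_nonneg ((norm_nonneg _).trans (hw s hs X).2.2) (Real.exp_pos _).le
  · rw [Zp_eq_ZP]
    exact (dob_of Λ he1 (fun X => (hw s hs X).1) h).pos (fun X => (hre X).1) _ Subset.rfl

end dob

end Pool.Agent.Lib.MP_7f377f_mp.RG.Q4
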