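import Pool.Agent.Lib.MP_7f377f_mp.G.Q4Canc2
import Pool.Agent.Lib.MP_7f377f_mp.G.Q4TrZ

/-! The mean of a Mayer mark; the first order cancellations. -/

noncomputable section

set_option linter.unusedSectionVars false
variable [Pool.Agent.Lib.MP_7f377f_mp.GD]

namespace Pool.Agent.Lib.MP_7f377f_mp.RG.Q4

open Finset MeasureTheory Filter Metric
open scoped Classical

attribute [local irreducible] box lbox

namespace Cm

variable {S : Sd} {b : ℝ} {B : Fld} {W : Cf} {U : Conf} {z : Lk → E3} {y u : St} {ψ : Lx} {K : Ac}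
  {w : St → S3}

/-- balls in the global supremum norm -/
def dG {ρ : ℝ} (hρ : 0 < ρ) : Kit.Dom Fld where
  D θ := {A | ∀ e, ‖A e‖ ≤ θ * ρ}
  smul c θ A h e := by
    rw [Pi.smul_apply, norm_smul, mul_assoc]
    exact mul_le_mul_of_nonneg_left (h e) (norm_nonneg _)
  add h h' e := (norm_add_le_of_le (h e) (h' e)).trans_eq (add_mul _ _ _).symm
  mono h hB e := (hB e).trans (mul_le_mul_of_nonneg_right h hρ.le)

theorem norm_qu (i : S3) (B : Fld) (e : Lk) : ‖adF (fun _ => cS i) B e‖ = ‖B e‖ :=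
  norm_adq_eq _ _

/-- the mean of the leading interaction -/
def mf (S : Sd) (B : Fld) : ℂ := if ∀ e, ‖B e‖ ≤ (S.D0 : ℝ)⁻¹ then
  ∫ z, Complex.exp (-s2 S (exF B) z + S.c1) - 1 ∂nuI S.ζ else 0

namespace Hp

variable (h : Hp S)
include h

theorem c1_aux : ‖∫ z, Complex.exp (-S.s1 1 z) ∂nuI S.ζ - 1‖ ≤ 6 * (S.Q ^ 7 * S.g) := by
  have := nuI_prob (ζ := S.ζ) S.Q0
  have a := h.Qg1 (i := 7) (by norm_num)
  have k : ∀ z, ‖Complex.exp (-S.s1 1 z) - 1‖ ≤ 6 * (S.Q ^ 7 * S.g) := fun z => by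
    have h1 := (norm_neg _).trans_le (h.s1_one' z)
    linarith [Complex.norm_exp_sub_one_le (x := -S.s1 1 z) (by linarith)]
  have i := (Integrable.of_bound (μ := nuI S.ζ) ((h.s1_meas' 1).neg.cexp.sub_const
    1).aestronglyMeasurable _ (ae_of_all _ k)).add (integrable_const 1)
  have k2 := norm_integral_le_of_norm_le_const (μ := nuI S.ζ) (ae_of_all _ k)
  erw [integral_sub (i.congr (ae_of_all _ fun z => sub_add_cancel _ _)) (integrable_const _)] at k2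
  simpa using k2

theorem c1_le' : ‖S.c1‖ ≤ 9 * (S.Q ^ 7 * S.g) := by
  have a := h.Qg1 (i := 7) (by norm_num)
  have k := h.c1_aux
  have := Complex.norm_log_one_add_half_le_self (k.trans (by linarith))
  rw [add_sub_cancel] at this
  rw [Sd.c1, norm_neg]
  linarith

theorem f0_mean : ∫ z, S.f0 1 z ∂nuI S.ζ = 0 := by
  have := nuI_prob (ζ := S.ζ) S.Q0
  have a := h.Qg1 (i := 7) (by norm_num)
  have n0 : ∫ z, Complex.exp (-S.s1 1 z) ∂nuI S.ζ ≠ 0 := fun e => by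
    have k := h.c1_aux
    rw [e, zero_sub, norm_neg, norm_one] at k
    linarith
  have i := (Integrable.of_bound (μ := nuI S.ζ) (h.f0_meas' 1).aestronglyMeasurable _
    (ae_of_all _ (h.f0_one h.c1_le'))).add (integrable_const 1)
  simp only [Sd.f0]
  rw [integral_sub (i.congr (ae_of_all _ fun z => sub_add_cancel _ _)) (integrable_const _)]
  simp only [Complex.exp_add]
  rw [integral_mul_const, Sd.c1, Complex.exp_neg, Complex.exp_log n0, mul_inv_cancel₀ n0]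
  simp

theorem e2_le (hB : ∀ e, ‖B e‖ ≤ (S.D0 : ℝ)⁻¹) (z : Lk → E3) :
    ‖-s2 S (exF B) z + S.c1‖ ≤ 12 * (S.Q ^ 7 * S.g) :=
  (norm_add_le_of_le ((norm_neg _).trans_le (h.s2_le hB z)) h.c1_le').trans_eq (by ring)

theorem e2_le' (hB : ∀ e, ‖B e‖ ≤ (S.D0 : ℝ)⁻¹) (z : Lk → E3) :
    ‖Complex.exp (-s2 S (exF B) z + S.c1) - 1‖ ≤ S.Q ^ 8 * S.g := by
  have a := h.Qg1 (i := 7) (by norm_num)
  have q : (24 : ℝ) ≤ S.Q := h.nu.cQ' (by norm_num)
  have x0 := mul_pos (pow_pos S.Q0 7) h.g0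
  have h1 := h.e2_le hB z
  refine (Complex.norm_exp_sub_one_le (by linarith)).trans ?_
  rw [pow_succ' _ 7, mul_assoc]
  nlinarith

theorem e2_meas (W : Cf) : Measurable fun z => Complex.exp (-s2 S W z + S.c1) - 1 :=
  (((((h.s1_meas' W).sub_const _).add_const _).neg.add_const _).cexp).sub_const _

theorem mf_zero : mf S 0 = 0 := by
  rw [mf, if_pos fun _ => by simp, exF_zero]
  simp only [s2_one]
  exact h.f0_mean

theorem mf_bd (B : Fld) : ‖mf S B‖ ≤ S.Q ^ 8 * S.g := by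
  have := nuI_prob (ζ := S.ζ) S.Q0
  rw [mf]
  split_ifs with hB
  · simpa using norm_integral_le_of_norm_le_const (μ := nuI S.ζ) (ae_of_all _ (h.e2_le' hB))
  · simpa using (mul_pos (pow_pos S.Q0 8) h.g0).le

theorem mf_ad (i : S3) (B : Fld) : mf S (adF (fun _ => cS i) B) = mf S B := by
  simp only [mf, norm_qu]
  split_ifs with hB
  · rw [← int_zi (fun _ => i) (h.e2_meas (exF B))]
    refine integral_congr_ae (ae_of_all _ fun z => ?_)
    simp only [exF_adc, s2]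
    rw [s1_cov h.ok (h.gw hB) (fun _ => i) (zc_zi _ z),
      Nt.As_cov h.ok (fun _ => i) (h.gw hB), show S.t.O.l = S.l from rfl, e4_aS]
  · rfl

theorem mf_lh : (dG h.Di).LH (mf S) := fun B δ Ω hΩ hD => by
  have := nuI_prob (ζ := S.ζ) S.Q0
  have k : ∀ t ∈ Ω, ∀ e, ‖(B + t • δ) e‖ ≤ (S.D0 : ℝ)⁻¹ := fun t ht e =>
    (hD t ht e).trans_eq (one_mul _)
  refine (Kit.holo_integral (nuI S.ζ) hΩ (fun t _ => (h.e2_meas _).aestronglyMeasurable)
    (ae_of_all _ fun z => ⟨((h.s2_diff (B := fun t => B + t • δ) hΩ (fun e => by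
      simp only [Pi.add_apply, Pi.smul_apply]
      fun_prop) k z).neg.add_const _).cexp.sub_const _, fun t ht => h.e2_le' (k t ht) z⟩)).congr
        fun t ht => if_pos (k t ht)

theorem mf_le (hB : ∀ e, ‖B e‖ ≤ S.Q ^ 4 * S.g) : ‖mf S B‖ ≤ S.Q ^ 18 * S.g ^ 3 := by
  have g0 := h.g0
  have q0 := S.Q0
  have D0 := h.D0
  have m : ∀ {B : Fld}, (∀ e, ‖B e‖ ≤ S.Q ^ 4 * S.g) → B ∈ (dG h.Di).D (S.Q ^ 5 * S.g) :=
    fun hB e => (hB e).trans (by
      rw [← div_eq_mul_inv, le_div_iff₀ D0]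
      calc _ ≤ S.Q ^ 4 * S.g * S.Q := by gcongr; exact h.nu.D_le_Q
        _ = _ := by ring)
  have m' := fun i => m (B := adF (fun _ => cS i) B) fun e => (norm_qu i B e).trans_le (hB e)
  have e := fun i (t : ℂ) => (congrArg (mf S) (Ho.adF_smul _ t B).symm).trans (h.mf_ad i (t • B))
  have := h.mf_lh.sq (M := S.Q ^ 8 * S.g) (fun B _ => by rw [h.mf_zero, sub_zero]; exact h.mf_bd B)
    (m hB) (by positivity) (by linarith [h.Qg1 (i := 5) (by norm_num), mul_pos (pow_pos q0 5) g0])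
    (Ho.deriv_inv h.mf_lh (fun B _ => h.mf_bd B) (fun i => ⟨_, m' i⟩) e)
  rw [h.mf_zero, sub_zero] at this
  exact this.trans_eq (by ring)

theorem f0_le' (a : Ga S W w B) (z : Lk → E3) : ‖S.f0 W z‖ ≤ S.Q ^ 8 * S.g := by
  have a' := h.Qg1 (i := 7) (by norm_num)
  have q : (24 : ℝ) ≤ S.Q := h.nu.cQ' (by norm_num)
  have x0 := mul_pos (pow_pos S.Q0 7) h.g0
  have h1 := norm_add_le_of_le ((norm_neg _).trans_le (h.s1_le a z)) h.c1_le'
  refine (Complex.norm_exp_sub_one_le (by linarith)).trans ?_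
  rw [pow_succ' _ 7, mul_assoc]
  nlinarith

/-- the mean of the leading part of a Mayer mark is of third order -/
theorem f0_int (a : Ga S W w B) : ‖∫ z, S.f0 W z ∂nuI S.ζ‖ ≤ S.Q ^ 19 * S.g ^ 3 := by
  have := nuI_prob (ζ := S.ζ) S.Q0
  have a' := h.Qg1 (i := 7) (by norm_num)
  have hB := h.big a.bd
  have k : ∀ z, ‖S.f0 (exF B) z - (Complex.exp (-s2 S (exF B) z + S.c1) - 1)‖ ≤ 8 * S.g ^ 3 :=
    fun z => by
      have h1 := norm_add_le_of_le ((norm_neg _).trans_le (h.s1_flat a.bd z)) h.c1_le'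
      rw [Sd.f0, sub_sub_sub_cancel_right]
      refine (exp_lip (by linarith) (by linarith [h.e2_le hB z])).trans ?_
      rw [add_sub_add_right_eq_sub, neg_sub_neg]
      linarith [h.s12 a.bd z]
  have i1 := Integrable.of_bound (μ := nuI S.ζ) (h.e2_meas (exF B)).aestronglyMeasurable _
    (ae_of_all _ (h.e2_le' hB))
  have i2 := (Integrable.of_bound (μ := nuI S.ζ) ((h.f0_meas' (exF B)).sub
    (h.e2_meas (exF B))).aestronglyMeasurable _ (ae_of_all _ k)).add i1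
  have k2 := norm_integral_le_of_norm_le_const (μ := nuI S.ζ) (ae_of_all _ k)
  rw [integral_sub (i2.congr (ae_of_all _ fun z => sub_add_cancel _ _)) i1, probReal_univ,
    mul_one, ← (if_pos hB : mf S B = _)] at k2
  have e : ∫ z, S.f0 W z ∂nuI S.ζ = ∫ z, S.f0 (exF B) z ∂nuI S.ζ := by
    rw [← int_zi w (h.f0_meas' (exF B))]
    exact integral_congr_ae (ae_of_all _ fun z => by simp only [Sd.f0, h.s1_ga a])
  rw [e, ← sub_add_cancel (∫ z, S.f0 (exF B) z ∂nuI S.ζ) (mf S B)]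
  refine (norm_add_le_of_le k2 (h.mf_le a.bd)).trans ?_
  have q : (9 : ℝ) ≤ S.Q := h.nu.cQ' (by norm_num)
  have g3 := pow_pos h.g0 3
  have h2 : S.g ^ 3 ≤ S.Q ^ 18 * S.g ^ 3 := le_mul_of_one_le_left g3.le (one_le_pow₀ S.Q1)
  rw [pow_succ' _ 18, mul_assoc]
  nlinarith

section rest

variable (hr : ∀ (W : Conf) ε, S.g' ≤ ε → ε ≤ S.Q ^ 100 * S.g' →
  Fq S.D0 ε W → ‖S.t.rest (S.r + 5) ((S.D0 : ℝ)⁻¹) S.m1 (cC W)‖ ≤ S.Q * ε ^ 5)
  (hU : Fq (S.p'.R + 1) S.p'.ε U)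
include hr hU

theorem sT_le' (z : Lk → E3) : ‖S.sT (cC U) z‖ ≤ S.Q ^ 12 * S.g ^ 3 := by
  have R := S.R_eq
  have g0 := h.g0
  have g1 := h.nu.ok.g'0
  have q0 := S.Q0
  have a := h.ga0 (hU.mono (by omega) le_rfl)
  have h1 := hr U S.p'.ε (le_mul_of_one_le_left g1.le (one_le_pow₀ S.Q1))
    (mul_le_mul_of_nonneg_right (Sd.Qw S (by norm_num)) g1.le) (hU.mono (by omega) le_rfl)
  have h2 : ‖(S.β : ℂ) * S.t.rest (S.r + 5) ((S.D0 : ℝ)⁻¹) S.m1 (cC U)‖ ≤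
      8 * (S.Q ^ 11 * S.g ^ 3) := by
    rw [norm_mul, Complex.norm_real, Real.norm_of_nonneg h.nu.ok.β0.le]
    calc _ ≤ S.β * (S.Q * (S.Q ^ 2 * (3 / 2 * S.g)) ^ 5) := by
          refine mul_le_mul_of_nonneg_left (h1.trans ?_) h.nu.ok.β0.le
          rw [Sd.p'_ε]
          gcongr
          exact h.nu.ok.g'g
      _ = (3 / 2) ^ 5 * (S.Q ^ 11 * S.g ^ 3) * (S.β * S.g ^ 2) := by ring
      _ ≤ _ := by rw [h.nu.ok.βg, mul_one]; gcongr; norm_num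
  have h3 : ‖uu S (cC U) z / 2‖ ≤ S.g ^ 3 := by
    rw [norm_div, Complex.norm_two, h.uu_ga a]
    linarith [h.uu_le (h.big a.bd) (zi S (uc U) z), pow_pos g0 3]
  rw [sT_eq, mul_add, h.gg_ga a]
  refine (norm_sub_le_of_le (norm_add_le_of_le (h.gg_le a.bd _) h2) h3).trans ?_
  have q : (10 : ℝ) ≤ S.Q := h.nu.cQ' (by norm_num)
  have g3 := pow_pos g0 3
  have h2 : S.g ^ 3 ≤ S.Q ^ 11 * S.g ^ 3 := le_mul_of_one_le_left g3.le (one_le_pow₀ S.Q1)
  rw [pow_succ' _ 11, mul_assoc]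
  nlinarith

variable (hψ : PU S.p b ψ) (hb : S.Q ^ 100 * b ≤ 1)
include hψ hb

theorem dl_le (z : Lk → E3) :
    ‖-(S.sT (cC U) z + S.sP ψ (cC U) z - S.pz ψ (Bx 0 (cC U)))‖ ≤ S.Q ^ 12 * (S.g ^ 3 + b) ∧
      S.Q ^ 12 * (S.g ^ 3 + b) ≤ 1 ∧ 0 ≤ b := by
  have R := S.R_eq
  have g0 := h.g0
  have q0 := S.Q0
  have b0 := pu_nonneg hψ (by
    rw [Sd.p_ρ]; have := h.nu.ok.QQM; have := S.Q0.trans_le this; positivity)
  have h1 := h.cq (C := 2) (i := 4) (by norm_num) (by have := h.nu.exps; omega)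
  have h2 : S.Q ≤ S.Q ^ 12 := le_self_pow₀ S.Q1 (by norm_num)
  have h3 := h.Qgg (i := 12) (j := 3) (k := 0) (by norm_num) (by norm_num)
  have h4 : 2 * S.Q ^ 12 ≤ S.Q ^ 100 := by
    calc _ ≤ S.Q * S.Q ^ 12 := by gcongr; exact h.nu.cQ' (by norm_num)
      _ = S.Q ^ 13 := by ring
      _ ≤ _ := Sd.Qw S (by norm_num)
  rw [norm_neg]
  refine ⟨(norm_sub_le_of_le (norm_add_le_of_le (h.sT_le' hr hU z) (h.sP_le hψ
    (hU.mono (by omega) le_rfl) z)) (h.pz_le hψ hU)).trans ?_, ?_, b0⟩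
  · nlinarith [mul_le_mul_of_nonneg_right (h1.trans h2) b0]
  · nlinarith [mul_le_mul_of_nonneg_right h4 b0]

omit h hr hU hψ hb in
theorem fm_eq (ψ : Lx) (W : Cf) (z : Lk → E3) : S.fm ψ W z = (S.f0 W z + 1) *
    Complex.exp (-(S.sT W z + S.sP ψ W z - S.pz ψ (Bx 0 W))) - 1 := by
  rw [Sd.fm, Sd.f0, sub_add_cancel, ← Complex.exp_add]
  congr 2
  ring

theorem fm_f0' (z : Lk → E3) :
    ‖S.fm ψ (cC U) z - S.f0 (cC U) z‖ ≤ S.Q ^ 20 * (S.g ^ 3 + b) := by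
  obtain ⟨h1, h2, b0⟩ := h.dl_le hr hU hψ hb z
  have R := S.R_eq
  have h3 := h.f0_le' (h.ga0 (hU.mono (by omega) le_rfl)) z
  have h4 := h.Qg1 (i := 8) (by norm_num)
  have h5 := (Complex.norm_exp_sub_one_le (h1.trans h2)).trans
    (mul_le_mul_of_nonneg_left h1 zero_le_two)
  have g0 := h.g0
  have q0 := S.Q0
  rw [fm_eq, show ∀ f e : ℂ, (f + 1) * e - 1 - f = (f + 1) * (e - 1) from fun _ _ => by ring]
  refine (norm_mul_le_of_le (show _ ≤ (2 : ℝ) by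
    linarith [norm_add_le_of_le h3 norm_one.le]) h5).trans ?_
  calc _ = 4 * (S.Q ^ 12 * (S.g ^ 3 + b)) := by ring
    _ ≤ S.Q ^ 8 * (S.Q ^ 12 * (S.g ^ 3 + b)) := by
        gcongr
        exact (h.nu.cQ' (by norm_num)).trans (le_self_pow₀ S.Q1 (by norm_num))
    _ = _ := by ring

/-- the mean of a Mayer mark -/
theorem fm_int : ‖∫ z, S.fm ψ (cC U) z ∂nuI S.ζ‖ ≤ S.θ2 b := by
  have := nuI_prob (ζ := S.ζ) S.Q0
  have R := S.R_eq
  have a := h.ga0 (hU.mono (by omega) le_rfl)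
  have F := hU.mono (show S.D0 ≤ _ by omega) le_rfl
  have k : ∀ z, ‖S.fm ψ (cC U) z - (S.f0 (cC U) z - (S.sP ψ (cC U) z - S.pz ψ (Bx 0 (cC U))))‖ ≤
      (S.Q ^ 12 * (S.g ^ 3 + b)) ^ 2 + S.Q ^ 8 * S.g * (2 * (S.Q ^ 12 * (S.g ^ 3 + b))) +
        S.Q ^ 12 * S.g ^ 3 := fun z => by
    obtain ⟨h1, h2, b0⟩ := h.dl_le hr hU hψ hb z
    have h5 := (Complex.norm_exp_sub_one_le (h1.trans h2)).trans
      (mul_le_mul_of_nonneg_left h1 zero_le_two)
    have h6 := (Complex.norm_exp_sub_one_sub_id_le (h1.trans h2)).trans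
      (pow_le_pow_left₀ (norm_nonneg _) h1 2)
    refine le_trans (le_of_eq ?_) (norm_sub_le_of_le (norm_add_le_of_le h6
      (norm_mul_le_of_le (h.f0_le' a z) h5)) (h.sT_le' hr hU z))
    rw [fm_eq]
    congr 1
    ring
  have m1 := h.sP_meas hψ (W := fun _ => cC U) (fun _ => mq_const _) measurable_id
  have i1 := Integrable.of_bound (μ := nuI S.ζ) (h.f0_meas' (cC U)).aestronglyMeasurable _
    (ae_of_all _ (h.f0_le' a))
  have i2 := Integrable.of_bound (μ := nuI S.ζ) m1.aestronglyMeasurable _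
    (ae_of_all _ (h.sP_le hψ F))
  have i3 := i1.sub (i2.sub (integrable_const (S.pz ψ (Bx 0 (cC U)))))
  have i4 := (Integrable.of_bound (μ := nuI S.ζ) ((h.fm_meas' hψ (cC U)).sub ((h.f0_meas' (cC U)).sub
    (m1.sub_const _))).aestronglyMeasurable _ (ae_of_all _ k)).add i3
  have k2 := norm_integral_le_of_norm_le_const (μ := nuI S.ζ) (ae_of_all _ k)
  erw [integral_sub (i4.congr (ae_of_all _ fun z => sub_add_cancel _ _)) i3,
    integral_sub i1 (i2.sub (integrable_const _)), integral_sub i2 (integrable_const _),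
    ← h.pz_eq hψ hU, integral_const, probReal_univ, one_smul, sub_self, sub_zero, mul_one] at k2
  rw [← sub_add_cancel (∫ z, S.fm ψ (cC U) z ∂nuI S.ζ) (∫ z, S.f0 (cC U) z ∂nuI S.ζ)]
  refine (norm_add_le_of_le k2 (h.f0_int a)).trans ?_
  obtain ⟨-, -, b0⟩ := h.dl_le hr hU hψ hb 0
  have g0 := h.g0
  have g1 := h.nu.ok.g1
  have q0 := S.Q0
  have gb : 0 ≤ S.g * b := by positivity
  have g3 := pow_pos g0 3
  have b2 := sq_nonneg b
  have e1 : S.g ^ 4 ≤ S.g ^ 3 := pow_le_pow_of_le_one g0.le g1 (by norm_num)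
  have e2 : S.g ^ 6 ≤ S.g ^ 3 := pow_le_pow_of_le_one g0.le g1 (by norm_num)
  have e3 : S.g ^ 3 * b ≤ S.g * b :=
    mul_le_mul_of_nonneg_right (pow_le_of_le_one g0.le g1 (by norm_num)) b0
  have q : ∀ i ≤ 24, ∀ x y : ℝ, 0 ≤ x → x ≤ y → S.Q ^ i * x ≤ S.Q ^ 24 * y := fun i hi x y hx hy =>
    mul_le_mul (Sd.Qw S hi) hy hx (by positivity)
  calc _ = S.Q ^ 24 * (S.g ^ 6 + 2 * (S.g ^ 3 * b) + b ^ 2) + S.Q ^ 20 * (2 * (S.g ^ 4 + S.g * b)) +
        S.Q ^ 12 * S.g ^ 3 + S.Q ^ 19 * S.g ^ 3 := by ring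
    _ ≤ S.Q ^ 24 * (2 * (S.g ^ 3 + S.g * b + b ^ 2)) + S.Q ^ 24 * (2 * (S.g ^ 3 + S.g * b + b ^ 2)) +
        S.Q ^ 24 * (S.g ^ 3 + S.g * b + b ^ 2) + S.Q ^ 24 * (S.g ^ 3 + S.g * b + b ^ 2) :=
        add_le_add (add_le_add (add_le_add (q _ le_rfl _ _ (by positivity) (by linarith))
          (q _ (by norm_num) _ _ (by positivity) (by linarith)))
          (q _ (by norm_num) _ _ g3.le (by linarith))) (q _ (by norm_num) _ _ g3.le (by linarith))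
    _ = 6 * (S.Q ^ 24 * (S.g ^ 3 + S.g * b + b ^ 2)) := by ring
    _ ≤ S.Q ^ 21 * (S.Q ^ 24 * (S.g ^ 3 + S.g * b + b ^ 2)) := by
        gcongr
        exact (h.nu.cQ' (by norm_num)).trans (le_self_pow₀ S.Q1 (by norm_num))
    _ = _ := by rw [Sd.θ2]; ring

end rest

end Hp

end Cm

variable (c : ℕ)

theorem canc1 : ∀ᶠ S in ev c, ∀ b θ k ψ K, S.Sml b θ k ψ K → ∀ W, Per S.n W → ∀ y ∈ S.Λ',
    S.In W {oM y} → ‖S.wO ψ K W {oM y}‖ ≤ S.θ2 b := by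
  filter_upwards [Cm.ev_hp c, rest_bd c] with S h hr b θ k ψ K s W hW y hy i
  rw [h.wO_oM s.pu hy]
  exact h.fm_int hr (Cm.In.fq hW i (mem_singleton_self _)
    ((rc_eq h.nu.ok.odd hy).symm ▸ mem_singleton_self _)) (Cm.pu_tr s.pu _ _) s.b_le

theorem canc2 : ∀ᶠ S in ev c, ∀ b θ k ψ K, S.Sml b θ k ψ K → ∀ W, Per S.n W → ∀ y ∈ S.Λ',
    ∀ u ∈ S.prs, S.In W {oP y u} → ‖S.wO ψ K W {oM y, oM (rc S.n (y + u))} +
      S.wO ψ K W {oP y u} + S.wO ψ K W {oP (rc S.n (y + u)) (-u)}‖ ≤ S.θ2 b := by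
  filter_upwards [Cm.ev_hp c, rest_bd c] with S h hr b θ k ψ K s W hW y hy u hu i
  exact h.c2_main h.c1_le' s.pu hW hy hu i fun ψ U z hψ hU => h.fm_f0' hr hU hψ s.b_le z

theorem canc2far : ∀ᶠ S in ev c, ∀ b θ k ψ K, S.Sml b θ k ψ K → ∀ W, Per S.n W →
    ∀ y ∈ S.Λ', ∀ y' ∈ S.Λ', ¬ nearT S.n (2 * S.D0) y y' → S.In W {oM y, oM y'} →
      ‖S.wO ψ K W {oM y, oM y'}‖ ≤ S.θ2 b ^ 2 := by
  filter_upwards [Cm.ev_hp c, canc1 c] with S h h1 b θ k ψ K s W hW y hy y' hy' far i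
  exact h.far_main s.pu hy hy' far i (h1 b θ k ψ K s W hW)

end Pool.Agent.Lib.MP_7f377f_mp.RG.Q4
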