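import Pool.Agent.Lib.MP_7f377f_mp.G.Q4EDef

/-! One step of the flow in terms of the sizes of the data. -/

noncomputable section

set_option linter.unusedSectionVars false
variable [Pool.Agent.Lib.MP_7f377f_mp.GD]

namespace Pool.Agent.Lib.MP_7f377f_mp.RG.Q4.En

open Finset Filter Topology Real

variable {S : Sd} {x y u ω ω' b θ b' θ' R : ℝ} {ψ ψ' : Lx} {K K' : Ac} {k d : Mj}

theorem kN_up {p : Pa} {n : ℕ} (h : kN p.up n k θ) : kN p n k θ :=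
  ⟨h.1, fun x => (sum_le_sum fun _ _ => mul_le_mul_of_nonneg_left (exp_le_exp.2 (add_le_add
    (mul_le_mul_of_nonneg_right (le_add_of_nonneg_right zero_le_one) (Nat.cast_nonneg _)) le_rfl))
    (h.1 _ _)).trans (h.2 x)⟩

theorem rho_pos (h : S.Nu 100) : 0 < S.p.ρ :=
  (mul_pos (pow_pos S.Q0 3) h.ok.g0).trans_le h.ρ_ge

theorem Sz.nn (h : S.Nu 100) (z : Sz S.p S.nf S.QM S.g x y ω ψ K) : 0 ≤ x ∧ 0 ≤ y :=
  have := (z.1 0).1.nonneg (rho_pos h)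
  ⟨this.1, (mul_nonneg_iff_of_pos_left (pow_pos (one_pos.trans_le h.ok.QM1) 2)).1 this.2.1⟩

theorem pu_nn (h : S.Nu 100) (s : PU S.p b ψ) : 0 ≤ b :=
  (norm_nonneg _).trans (s.2 0 0 (fun _ _ => rfl) (Ho.cv_zero _ (rho_pos h).le))

theorem pu_mono {p : Pa} (s : PU p b ψ) (e : b ≤ b') : PU p b' ψ :=
  ⟨s.1, fun x B r c => (s.2 x B r c).trans e⟩

/-- powers of `Q` -/
theorem qpw (h : S.Nu 100) {i j : ℕ} (e : i < j) : 1000 * S.Q ^ i ≤ S.Q ^ j :=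
  (mul_le_mul_of_nonneg_right (h.cQ' (by norm_num)) (pow_pos S.Q0 i).le).trans
    ((pow_succ' _ _).ge.trans (S.Qw e))

theorem qpg (h : S.Nu 100) {i j : ℕ} (e : i < j) : 1000 * cG * S.Q ^ i ≤ S.Q ^ j :=
  (mul_le_mul_of_nonneg_right (pow_one cG ▸ h.gQ' (k := 1) (by norm_num) (by norm_num))
    (pow_pos S.Q0 i).le).trans ((pow_succ' _ _).ge.trans (S.Qw e))

theorem qom (h : S.Nu 100) (hω : S.Q ^ 100 * ω ≤ 1) {i : ℕ} (e : i < 100) :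
    1000 * (S.Q ^ i * ω) ≤ 1 := by
  rcases le_total ω 0 with h0 | h0
  · nlinarith [pow_pos S.Q0 i]
  · nlinarith [mul_le_mul_of_nonneg_right (qpw h e) h0]

theorem Sz.pu (h : S.Nu 100) (z : Sz S.p S.nf S.QM S.g x y ω ψ K) (hω : S.Q ^ 100 * ω ≤ 1) :
    PU S.p (S.Q ^ 10 * (x + y) * S.g ^ 2) ψ := by
  obtain ⟨x0, y0⟩ := z.nn h
  refine ⟨⟨_, _, _, z.1⟩, fun v B r c => ((z.1 v).1.bd r c le_rfl).trans ?_⟩
  have a1 := (h.QM_pow' (k := 6) (by norm_num)).trans (S.Qw (j := 9) (by norm_num))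
  have a2 : S.QM ^ 8 ≤ S.Q ^ 9 := h.QM_pow' (by norm_num)
  have a3 : S.QM ^ 50 * ω ≤ 1 := by
    rcases le_total ω 0 with h0 | h0
    · nlinarith [pow_pos (one_pos.trans_le h.ok.QM1) 50]
    · exact (mul_le_mul_of_nonneg_right ((h.QM_pow' (by norm_num)).trans
        (S.Qw (by norm_num))) h0).trans hω
  have a4 := qpg h (i := 9) (j := 10) (by norm_num)
  have a5 := one_le_mul_of_one_le_of_one_le GD.cG1 (one_le_pow₀ (n := 9) S.Q1)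
  replace a1 := mul_le_mul_of_nonneg_left a1 GD.cG_pos.le
  replace a2 := mul_le_mul_of_nonneg_left a2 GD.cG_pos.le
  rw [div_self (rho_pos h).ne', Sd.p_ρ]
  calc _ = (3 * (cG * S.QM ^ 6) * x + (3 * (cG * S.QM ^ 8) + S.QM ^ 50 * ω) * y) * S.g ^ 2 := by ring
    _ ≤ (S.Q ^ 10 * x + S.Q ^ 10 * y) * S.g ^ 2 := by gcongr <;> linarith
    _ = _ := by ring

/-- complex lines of small data -/
theorem fam_sml (h : S.Nu 100) (s : S.Sml b θ k ψ K) (h1 : PU S.p b' ψ') (h2 : KM S.p S.nf d K')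
    (h3 : kN S.p S.nf d θ') (R0 : 0 ≤ R) (h4 : S.Q ^ 100 * (b + R * b') ≤ 1)
    (h5 : S.Q ^ 100 * (θ + R * θ') ≤ 1) : ∀ t ∈ Metric.ball (0 : ℂ) R,
      S.Sml (b + R * b') (θ + R * θ') (k + R • d) (ψ + t • ψ') (K + t • K') := fun t ht => by
  have tR := (mem_ball_zero_iff.1 ht).le
  obtain ⟨_, _, _, p⟩ := s.pu.1
  obtain ⟨_, _, _, q⟩ := h1.1
  have ρ0 := rho_pos h
  refine ⟨h4, h5, ⟨⟨_, _, _, fun v => ⟨((p v).1.add ((q v).1.smul ρ0 t).1 ρ0).1,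
    (p v).2.add ((q v).2.const_mul t)⟩⟩, fun v B r c => ?_⟩,
    (s.km.add (h2.smul t)).mono fun X c => ?_, s.kn.add (h3.smul R0)⟩
  · exact norm_add_le_of_le (s.pu.2 v B r c) (norm_mul_le_of_le tR (h1.2 v B r c))
  · exact add_le_add le_rfl (mul_le_mul_of_nonneg_right tR (h3.1 X c))

theorem lin_step (h : S.Nu 100) (f : St2 S) (z : Sz S.p S.nf S.QM S.g x y ω ψ K)
    (h1 : √S.g ≤ ω) (hω : S.Q ^ 100 * ω ≤ 1) :
    PM S.p' (x + S.Q ^ 50 * ω * (x + y)) (S.Q ^ 2 * (x / 400 + y / 8))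
      (S.Q ^ 50 * ω * (x / 400 + y / 8) * S.g ^ 2) (S.PL ψ K) ∧
    ((∀ x, ψ x = ψ 0) → ∀ a b δ δ', Cv 0 δ a → Cv 0 δ' b →
      ‖qc (S.PL ψ K 0) a b - qc (ψ 0) a b‖ ≤ S.Q ^ 50 * ω * (x + y) * δ * δ') := by
  obtain ⟨x0, y0⟩ := z.nn h
  obtain ⟨k, k1, k2⟩ := z.2
  obtain ⟨p1, p2⟩ := f.ps _ _ _ _ k ψ K z.1 k1 k2
  have g0 := h.ok.g0
  have Q0 := S.Q0
  have M0 := one_pos.trans_le h.ok.QM1
  have u0 := sqrt_nonneg S.g
  have ω0 := u0.trans h1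
  have c0 := Sd.Nu.cs0 (S := S)
  have r1 := h.cr' (C := 1000) (by norm_num)
  have c1 : 1000 * (S.r * S.cs) ≤ 1 := by
    nlinarith [h.cs_le (k := 2) (by omega), mul_le_mul_of_nonneg_right r1
      (by positivity : 0 ≤ S.r * S.cs)]
  have c2 : S.cs ≤ 1 := by simpa using h.cs_le (k := 0) (by omega)
  have c3 : ∀ i ≤ 120, S.cs * S.QM ^ i ≤ S.Q ^ i / 1000 := fun i hi => by
    nlinarith [mul_le_mul_of_nonneg_left (h.QM_pow hi) c0.le,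
      mul_le_mul_of_nonneg_right c1 (pow_pos Q0 i).le]
  have m := fun i (hi : i ≤ 120) => h.QM_pow' hi
  have e1 : S.xd x (S.QM ^ 2 * y) (S.QM ^ 50 * ω * y * S.g ^ 2) (ω * y * S.g ^ 2) ≤
      S.Q ^ 50 * ω * (x + y) := by
    calc _ = S.Q ^ 10 * √S.g * (x + S.QM ^ 2 * y) + (S.cs * S.QM ^ 44 + S.Q ^ 40) * (ω * y) := by
          rw [Sd.xd, Sd.p_ρ]; field_simp; ring
      _ ≤ S.Q ^ 10 * ω * (x + S.Q ^ 3 * y) + (S.Q ^ 44 / 1000 + S.Q ^ 40) * (ω * y) := by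
          gcongr
          exacts [m 2 (by norm_num), c3 44 (by norm_num)]
      _ = S.Q ^ 10 * (ω * x) + (S.Q ^ 13 + S.Q ^ 44 / 1000 + S.Q ^ 40) * (ω * y) := by ring
      _ ≤ S.Q ^ 50 * (ω * x) + S.Q ^ 50 * (ω * y) := by
          gcongr
          · exact S.Q1
          · norm_num
          · linarith [qpw h (i := 13) (j := 50) (by norm_num), qpw h (i := 44) (j := 50) (by norm_num),
              qpw h (i := 40) (j := 50) (by norm_num), pow_pos Q0 44]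
      _ = _ := by ring
  refine ⟨fun v => ⟨(p1 v).1.mono' (by rw [Sd.p'_ρ]; have := h.ok.g'0; positivity)
    (by linarith) ?_ ?_, (p1 v).2⟩, fun e a b δ δ' ha hb => ?_⟩
  · have q2 := qpw h (i := 0) (j := 2) (by norm_num)
    calc _ = S.r ^ 20 * x + S.cs * S.QM ^ 2 * y + S.Q ^ 40 * (√S.g * (x + S.QM ^ 2 * y) +
          S.QM ^ 44 * (ω * y) + ω * y) := by rw [Sd.xk', Sd.p_ρ]; field_simp
      _ ≤ S.Q ^ 1 * x + S.Q ^ 2 / 1000 * y + S.Q ^ 40 * (ω * (x + S.Q ^ 3 * y) +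
          S.Q ^ 45 * (ω * y) + ω * y) := by
          gcongr
          exacts [(h.rL (by omega)).trans (h.L_le_Q.trans (pow_one _).ge), c3 2 (by norm_num),
            m 2 (by norm_num), m 44 (by norm_num)]
      _ = (S.Q ^ 1 + S.Q ^ 40 * ω) * x +
          (S.Q ^ 2 / 1000 + S.Q ^ 43 * ω + S.Q ^ 85 * ω + S.Q ^ 40 * ω) * y := by ring
      _ ≤ S.Q ^ 2 / 400 * x + S.Q ^ 2 / 8 * y := by
          have := qom h hω (i := 40) (by norm_num)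
          gcongr
          · linarith [qpw h (i := 1) (j := 2) (by norm_num)]
          · linarith [qom h hω (i := 43) (by norm_num), qom h hω (i := 85) (by norm_num)]
      _ = _ := by ring
  · calc _ = (S.Q ^ 10 * √S.g * (S.QM ^ 6 * x + S.QM ^ 8 * y) + (S.cs * S.QM ^ 50 + S.Q ^ 40) *
          (ω * y)) * S.g ^ 2 := by rw [Sd.xr', Sd.p_ρ]; ring
      _ ≤ (S.Q ^ 10 * ω * (S.Q ^ 7 * x + S.Q ^ 9 * y) + (S.Q ^ 50 / 1000 + S.Q ^ 40) *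
          (ω * y)) * S.g ^ 2 := by
          gcongr
          exacts [m 6 (by norm_num), m 8 (by norm_num), c3 50 (by norm_num)]
      _ = (S.Q ^ 17 * (ω * x) + (S.Q ^ 19 + S.Q ^ 50 / 1000 + S.Q ^ 40) * (ω * y)) * S.g ^ 2 := by
          ring
      _ ≤ (S.Q ^ 50 / 400 * (ω * x) + S.Q ^ 50 / 8 * (ω * y)) * S.g ^ 2 := by
          gcongr
          · linarith [qpw h (i := 17) (j := 50) (by norm_num), pow_pos Q0 17]
          · linarith [qpw h (i := 19) (j := 50) (by norm_num),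
              qpw h (i := 40) (j := 50) (by norm_num), pow_pos Q0 50]
      _ = _ := by ring
  · have q := p2 0 a b δ δ' ha hb
    have e2 : ∀ v, S.ψy ψ 0 v = ψ 0 := fun v => e _
    have L0 := Sd.L0 S.toTd
    rw [sum_congr rfl fun v _ => by rw [e2 v], sum_const, ← Nat.cast_smul_eq_nsmul ℝ, smul_smul,
      La.card_box_LL, show (S.L ^ 4)⁻¹ * (LL S.l : ℝ) ^ 4 = 1 from inv_mul_cancel₀ (by positivity),
      one_smul] at q
    exact q.trans (mul_le_mul_of_nonneg_right (mul_le_mul_of_nonneg_right e1 ha.nonneg) hb.nonneg)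

theorem ball_step (h : S.Nu 100) (f : St2 S) (z : Sz S.p S.nf S.QM S.g u u ω ψ K) (u1 : 1 ≤ u)
    (h1 : √S.g ≤ ω) (hω : S.Q ^ 100 * ω ≤ 1) (h2 : S.Q ^ 115 * u * S.g ^ 2 ≤ ω) :
    (∃ b θ k, S.Sml b θ k ψ K) ∧
      ∃ k', KM S.p' S.n k' (S.KK ψ K) ∧ kN S.p' S.n k' (ω * u * S.g ^ 2 / 2) := by
  obtain ⟨k, k1, k2⟩ := z.2
  have g0 := h.ok.g0
  have Q0 := S.Q0
  have u0 := sqrt_nonneg S.g
  have ω0 := u0.trans h1
  obtain ⟨w, hw⟩ : ∃ w, w = u * S.g ^ 2 := ⟨_, rfl⟩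
  have w0 : 0 < w := by rw [hw]; positivity
  rw [mul_assoc, ← hw] at h2 k2
  have a1 : 1000 * (S.Q ^ 110 * w) ≤ ω := by
    linarith [mul_le_mul_of_nonneg_right (qpw h (i := 110) (j := 115) (by norm_num)) w0.le]
  have a2 : ω ≤ 1 / 1000 := by linarith [qom h hω (i := 0) (by norm_num)]
  have a3 : w ≤ S.Q ^ 110 * w := le_mul_of_one_le_left w0.le (one_le_pow₀ S.Q1)
  have pu : PU S.p (2 * S.Q ^ 10 * w) ψ := pu_mono (z.pu h hω) (by rw [hw]; linarith)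
  have s : S.Sml (2 * S.Q ^ 10 * w) (ω * w) k ψ K :=
    ⟨by linarith, by nlinarith [mul_le_mul_of_nonneg_right hω w0.le], pu, k1, k2⟩
  obtain ⟨k', q1, q2⟩ := f.K _ _ k s.b_le s.θ_le (by positivity) k2
  refine ⟨⟨_, _, _, s⟩, k', q2 _ _ s, (kN_up q1).mono ?_⟩
  have a4 : 1000 * (S.Q ^ 100 * √S.g) ≤ 1 := by
    have : S.Q ^ 101 * √S.g ≤ 1 := by
      refine le_of_sq_le_sq ?_ zero_le_one
      rw [mul_pow, sq_sqrt g0.le, ← pow_mul, one_pow]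
      simpa using h.ok.Qg_le (i := 202) (j := 0) (by norm_num)
    linarith [mul_le_mul_of_nonneg_right (qpw h (i := 100) (j := 101) (by norm_num)) u0]
  have a5 : 1000 * (S.Q ^ 100 * S.g) ≤ ω := by
    have := mul_le_mul a4 h1 u0 zero_le_one
    rwa [mul_assoc, mul_assoc, mul_self_sqrt g0.le, one_mul] at this
  have a6 : S.Q ^ 90 * S.g ≤ S.Q ^ 100 * S.g :=
    mul_le_mul_of_nonneg_right (S.Qw (by norm_num)) g0.le
  have a7 : S.g ^ 2 ≤ w := hw ▸ le_mul_of_one_le_left (by positivity) u1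
  have a8 : ω / S.Q ≤ ω / 1000 := div_le_div_of_nonneg_left ω0 (by norm_num) (h.cQ' (by norm_num))
  have a9 := qom h hω (i := 90) (by norm_num)
  rw [mul_assoc ω, ← hw]
  calc _ = S.Q ^ 90 * S.g * S.g ^ 2 + (2 * (S.Q ^ 100 * S.g) + 4 * (S.Q ^ 110 * w) +
        S.Q ^ 90 * ω * w * ω + S.Q ^ 90 * S.g * ω + ω / S.Q) * w := by rw [Sd.θ']; ring
    _ ≤ ω / 1000 * w + (2 * (ω / 1000) + 4 * (ω / 1000) + 1 / 1000 * 1 * ω + 1 / 1000 * ω +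
        ω / 1000) * w := by gcongr <;> linarith
    _ ≤ _ := by nlinarith [mul_nonneg ω0 w0.le]

theorem lip_step (h : S.Nu 100) (f : St2 S) (z : Sz S.p S.nf S.QM S.g u u ω ψ K)
    (z' : Sz S.p S.nf S.QM S.g x y ω' ψ' K') (hu : S.Q ^ 300 * u * S.g ^ 2 ≤ 1)
    (hω : S.Q ^ 100 * ω ≤ 1) (hω' : S.Q ^ 100 * ω' ≤ 1) (y0 : 0 < y)
    (hx : S.Q ^ 300 * (x + y) * S.g ^ 2 ≤ 1) :
    ∃ d, KM S.p' S.n d (S.KK (ψ + ψ') (K + K') - S.KK ψ K) ∧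
      kN S.p' S.n d ((S.Q ^ 100)⁻¹ * ((x + y) / 100) * S.g ^ 2) := by
  obtain ⟨k, k1, k2⟩ := z.2
  obtain ⟨d, d1, d2⟩ := z'.2
  have x0 := (z'.nn h).1
  have u0 := (z.nn h).1
  have g0 := h.ok.g0
  have Q0 := S.Q0
  obtain ⟨w, hw⟩ : ∃ w, w = (x + y) * S.g ^ 2 := ⟨_, rfl⟩
  have w0 : 0 < w := by rw [hw]; positivity
  obtain ⟨v, hv⟩ : ∃ v, v = u * S.g ^ 2 := ⟨_, rfl⟩
  have v0 : 0 ≤ v := by rw [hv]; positivity
  rw [mul_assoc, ← hw] at hx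
  rw [mul_assoc, ← hv] at hu k2
  have iv : ∀ {t : ℝ} {i : ℕ}, S.Q ^ i * t ≤ 1 → t ≤ (S.Q ^ i)⁻¹ := fun ht => by
    rwa [← one_div, le_div_iff₀' (by positivity)]
  have pw : ∀ {i j : ℕ}, i < j → 1000 * (S.Q ^ j)⁻¹ ≤ (S.Q ^ i)⁻¹ := fun {i j} e => by
    rw [← div_eq_mul_inv, ← one_div, div_le_div_iff₀ (by positivity) (by positivity), one_mul]
    exact qpw h e
  have s : S.Sml (S.Q ^ 210)⁻¹ (S.Q ^ 320)⁻¹ k ψ K := by
    refine ⟨?_, ?_, pu_mono (z.pu h hω) (iv ?_), k1, k2.mono ?_⟩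
    · rw [← div_eq_mul_inv, div_le_one (by positivity)]
      exact S.Qw (by norm_num)
    · rw [← div_eq_mul_inv, div_le_one (by positivity)]
      exact S.Qw (by norm_num)
    · calc _ = 2 * S.Q ^ 220 * v := by rw [hv]; ring
        _ ≤ S.Q ^ 300 * v := by
          gcongr
          linarith [qpw h (i := 220) (j := 300) (by norm_num), pow_pos Q0 220]
        _ ≤ 1 := hu
    · calc _ ≤ (S.Q ^ 100)⁻¹ * (S.Q ^ 300)⁻¹ := mul_le_mul (iv hω) (iv hu) v0 (by positivity)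
        _ = (S.Q ^ 400)⁻¹ := by ring
        _ ≤ _ := inv_anti₀ (by positivity) (S.Qw (by norm_num))
  obtain ⟨R, hR⟩ : ∃ R, R = (S.Q ^ 220 * w)⁻¹ := ⟨_, rfl⟩
  have R1 : 1 < R := by
    rw [hR, one_lt_inv₀ (by positivity)]
    linarith [mul_le_mul_of_nonneg_right (qpw h (i := 220) (j := 300) (by norm_num)) w0.le,
      mul_pos (pow_pos Q0 220) w0]
  have e1 : (S.Q ^ 210)⁻¹ + R * (S.Q ^ 10 * (x + y) * S.g ^ 2) = 2 * (S.Q ^ 210)⁻¹ := by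
    rw [mul_assoc, ← hw, hR]; field_simp; ring
  have e2 : (S.Q ^ 320)⁻¹ + R * ((S.Q ^ 100)⁻¹ * w) = 2 * (S.Q ^ 320)⁻¹ := by
    rw [hR]; field_simp; ring
  have d3 : kN S.p S.nf d ((S.Q ^ 100)⁻¹ * w) := d2.mono (by
    rw [hw, mul_assoc]
    exact mul_le_mul (iv hω') (by gcongr; linarith) (by positivity) (by positivity))
  have b1 : ∀ i, 100 < i → S.Q ^ 100 * (2 * (S.Q ^ i)⁻¹) ≤ 1 := fun i hi => by
    have := mul_le_mul_of_nonneg_left (pw hi) (pow_pos Q0 100).le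
    rw [mul_inv_cancel₀ (by positivity)] at this
    nlinarith [mul_pos (pow_pos Q0 100) (inv_pos.2 (pow_pos Q0 i))]
  have F := fam_sml h s (z'.pu h hω') d1 d3 (by linarith : 0 ≤ R) (e1 ▸ b1 _ (by norm_num))
    (e2 ▸ b1 _ (by norm_num))
  rw [e1, e2] at F
  have m0 : (0 : ℂ) ∈ Metric.ball (0 : ℂ) R := Metric.mem_ball_self (by linarith)
  have m1 : (1 : ℂ) ∈ Metric.ball (0 : ℂ) R := by simpa using R1
  obtain ⟨k', q1, q2⟩ := f.K _ _ _ (F 0 m0).b_le (F 0 m0).θ_le (by positivity) (F 0 m0).kn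
  have H := f.hol _ _ _ _ _ _ Metric.isOpen_ball F
    (fun v B => by simp only [Pi.add_apply, Pi.smul_apply, smul_eq_mul]; fun_prop)
    (fun X c U => by simp only [Pi.add_apply, Pi.smul_apply, smul_eq_mul]; fun_prop)
  have D := (q2 _ _ (F 1 m1)).sub (q2 _ _ (F 0 m0))
  simp only [one_smul, zero_smul, add_zero] at D
  refine ⟨(2 / R) • k', ⟨D.meas, D.per, D.dep, D.gi, fun X c U hU => ?_⟩,
    ((kN_up q1).smul (by positivity)).mono ?_⟩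
  · have := Complex.dist_le_div_mul_dist_of_mapsTo_ball (H X c U)
      (R₂ := 2 * (k' X c * exp (-(S.p'.lam * Rg c U)))) (fun t ht => by
        rw [mem_closedBall_iff_norm, two_mul]
        exact norm_sub_le_of_le ((q2 _ _ (F t ht)).bd X c U hU) ((q2 _ _ (F 0 m0)).bd X c U hU)) m1
    simp only [one_smul, zero_smul, add_zero, dist_eq_norm, sub_zero, norm_one, mul_one] at this
    exact this.trans_eq (by simp only [Pi.smul_apply, smul_eq_mul]; ring)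
  · have g1 : S.g ≤ (S.Q ^ 500)⁻¹ := iv h.ok.Qg
    have : S.θ' (2 * (S.Q ^ 210)⁻¹) (2 * (S.Q ^ 320)⁻¹) ≤ 3 * (S.Q ^ 321)⁻¹ := by
      calc _ ≤ S.Q ^ 90 * ((S.Q ^ 500)⁻¹ ^ 3 + (S.Q ^ 500)⁻¹ * (2 * (S.Q ^ 210)⁻¹) +
            (2 * (S.Q ^ 210)⁻¹) ^ 2 + (2 * (S.Q ^ 320)⁻¹) ^ 2 +
            (S.Q ^ 500)⁻¹ * (2 * (S.Q ^ 320)⁻¹)) + 2 * (S.Q ^ 320)⁻¹ / S.Q := by
            rw [Sd.θ']; gcongr
        _ = (S.Q ^ 1410)⁻¹ + 2 * (S.Q ^ 620)⁻¹ + 4 * (S.Q ^ 330)⁻¹ + 4 * (S.Q ^ 550)⁻¹ +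
            2 * (S.Q ^ 730)⁻¹ + 2 * (S.Q ^ 321)⁻¹ := by field_simp; ring
        _ ≤ _ := by
            linarith [pw (i := 321) (j := 1410) (by norm_num), pw (i := 321) (j := 620) (by norm_num),
              pw (i := 321) (j := 330) (by norm_num), pw (i := 321) (j := 550) (by norm_num),
              pw (i := 321) (j := 730) (by norm_num), inv_pos.2 (pow_pos Q0 321)]
    calc _ ≤ 2 / R * (3 * (S.Q ^ 321)⁻¹) := by gcongr
      _ = 6 * (S.Q ^ 101)⁻¹ * w := by rw [hR]; field_simp; ring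
      _ ≤ (S.Q ^ 100)⁻¹ / 100 * w := by
          gcongr
          linarith [pw (i := 100) (j := 101) (by norm_num), inv_pos.2 (pow_pos Q0 101)]
      _ = _ := by rw [hw]; ring

end Pool.Agent.Lib.MP_7f377f_mp.RG.Q4.En
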