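import Pool.Agent.Lib.MP_7f377f_mp.G.Q4FluxC
import Pool.Agent.Lib.MP_7f377f_mp.G.Q4EStp
import Pool.Agent.Lib.MP_7f377f_mp.G.Q4Ini
import Pool.Agent.Lib.MP_7f377f_mp.G.Q4Tor

/-! The flow through many levels: the construction. -/

noncomputable section

set_option linter.unusedSectionVars false
variable [Pool.Agent.Lib.MP_7f377f_mp.GD]

namespace Pool.Agent.Lib.MP_7f377f_mp.RG.Q4.En

open Finset Real Sd

/-- downward recursion from level `J` -/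
def dw {α : Type} (f : ℕ → α → α) (a : α) (J k : ℕ) : α :=
  Nat.rec a (fun s x => f (J - 1 - s) x) (J - k)

theorem dw_top {α : Type} (f : ℕ → α → α) (a : α) (J : ℕ) : dw f a J J = a := by
  rw [dw, Nat.sub_self]; rfl

theorem dw_step {α : Type} (f : ℕ → α → α) (a : α) {J k : ℕ} (h : k < J) :
    dw f a J k = f k (dw f a J (k + 1)) := by
  rw [dw, dw, show J - k = J - (k + 1) + 1 by omega]
  exact congrArg (f · _) (by omega)

/-- downward induction -/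
theorem dw_ind {P : ℕ → Prop} {J : ℕ} (h0 : P J) (h : ∀ k < J, P (k + 1) → P k) :
    ∀ k ≤ J, P k := fun _ hk => Nat.decreasingInduction (fun k hk => h k hk) h0 hk

/-- what is known about the data of a step -/
structure All (κ : ℕ) (bn : ℕ → ℝ) (S : Sd) : Prop where
  nu : S.Nu 100
  s2 : S.TOk → St2 S
  s1 : St1 S
  df : DfS S
  bd : ∀ (t : Td) M j v e, t.l = S.l → v ≤ 2 → 0 ≤ v → e ≤ 1 → t.Tr M j v e →
    Bd (3 * S.r) (3 * S.r) S.L t.m ∧ Cb (3 * S.r) S.L t.m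
  ln : ∀ t : Td, t.c = S.c → t.l = S.l → ∀ j ρ v e, 2⁻¹ ≤ v → v ≤ 2 → 0 ≤ e → e ≤ 1000⁻¹ →
    Ch j (3 * t.r) ρ v e t.m → ∃ s, Td.Ln { t with s := s } j v e
  af : ∀ N t, S.l ≤ N → Chain S N t (S.L ^ κ)⁻¹ →
    |(qc (t N).ol e1 e1).re + bn S.l| ≤ (S.Q ^ 500)⁻¹
  tor : S.TOk → ∀ n', S.n ∣ n' → Odd n' → S.Tor n'

/-- the part of the new small term which does not depend on the data -/
def src (S : Sd) (κ : ℝ) : Fld → ℂ := fun B => S.ol B - κ * (cx S.m1 B B + S.T1 B)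

/-- the new small terms -/
def stp (S : Sd) (κ : ℝ) (ψ : Lx) (K : Ac) : Lx := S.PL ψ K + fun _ => src S κ

/-- the state at a level -/
structure Z where
  j : ℕ
  v : ℝ
  e : ℝ
  m : BF
  T : Fld → ℂ
  ψ : Lx
  K : Ac

/-- the global parameters; the volumes are `m * 3 ^ e k` -/
structure Gl where
  c : ℕ
  Kt : ℕ
  K0 : ℕ
  K : ℕ
  B0 : ℕ
  κ : ℕ
  l0 : ℕ
  m : ℕ
  e : ℕ → ℕ
  bb : ℕ → ℝ
  bn : ℕ → ℝ
  B : ℕ → ℕ

namespace Gl

variable (G : Gl)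

def l (k : ℕ) : ℕ := ll G.e k

def L (k : ℕ) : ℕ := LL (G.l k)

/-- the exponent relating the coupling to the size of the blocks -/
def Bk (k : ℕ) : ℕ := G.B (G.l k)

def N (k : ℕ) : ℕ := G.m * 3 ^ G.e k

def Q (k : ℕ) : ℝ := (G.L k : ℝ) ^ G.K

def g (k : ℕ) : ℝ := (√(G.bb k))⁻¹

/-- the noise of the step from level `k + 1` to level `k` -/
def a (k : ℕ) : ℝ := G.bb (k + 1) * (G.L k : ℝ) ^ 2

/-- the parameters of level `k` -/
def p (k : ℕ) : Pa := lv G.K0 G.K (G.L k) (G.bb k)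

/-- the density at level `k` of the run from level `J` with bare coupling `b` -/
def f (b : ℝ) (J k : ℕ) : Conf → ℂ :=
  rho (fun s => G.l (J - 1 - s)) (fun s => G.a (J - 1 - s)) b (J - k) (G.N k)

structure Ok : Prop where
  sch : Sch G.K G.B0 G.l0 G.B G.bn G.e G.bb
  all : ∀ S : Sd, S.Ok → S.c = G.c → S.Kt = G.Kt → S.K0 = G.K0 → S.K = G.K →
    S.B = 4 * G.B S.l → G.l0 ≤ S.l → All G.κ G.bn S
  c1 : 1 ≤ G.c
  l1 : 500 ≤ G.l0
  B1 : 4000 * G.K + G.κ + G.K0 + 2 ≤ G.B0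
  odd : Odd G.m

def td (k : ℕ) (z : Z) : Td := ⟨G.c, G.Kt, G.K0, G.l k, z.m, Classical.epsilon fun s =>
  Td.Ln ⟨G.c, G.Kt, G.K0, G.l k, z.m, s, z.T⟩ z.j z.v z.e, z.T⟩

/-- the step from level `k + 1`, where the state is `z`, to level `k` -/
def sd (k : ℕ) (z : Z) : Sd :=
  ⟨G.td k z, G.K, 4 * G.Bk k, G.L (k + 1), G.N k, G.bb (k + 1), G.bb k⟩

/-- level `k` with the state `z` -/
def sl (k : ℕ) (z : Z) : Sd :=
  ⟨G.td k z, G.K, 4 * G.Bk k, G.L k, G.N k / G.L k, G.bb k, G.bb k⟩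

/-- the renormalisation of the coupling -/
def kp (k : ℕ) (z : Z) : ℝ :=
  ((qc (G.sd k z).ol e1 e1).re + (qc ((G.sd k z).PL z.ψ z.K 0) e1 e1).re) / z.v

def lam (k : ℕ) (z : Z) : ℝ := (G.bb (k + 1) + G.kp k z) / G.bb k

/-- the state at level `k` from the state at level `k + 1` -/
def nx (k : ℕ) (z : Z) : Z where
  j := 2 * z.j * G.l k + z.j + G.l k
  v := G.lam k z * z.v
  e := z.e + ((G.L k : ℝ) ^ (4 * G.Bk k))⁻¹
  m := G.lam k z • (G.sd k z).m1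
  T := fun B => G.lam k z * (G.sd k z).T1 B
  ψ := stp (G.sd k z) (G.kp k z) z.ψ z.K
  K := (G.sd k z).KK z.ψ z.K

def top0 (b : ℝ) (J : ℕ) : Z :=
  ⟨0, b / G.bb J, 0, (b / G.bb J) • m0, fun B => (b / G.bb J : ℝ) * TW B, 0, 0⟩

/-- the state at the top -/
def top (b : ℝ) (J : ℕ) : Z :=
  { G.top0 b J with K := KI (G.p J) (G.N J) (ww fun _ _ _ => (b : ℂ)) }

/-- the state at level `k` of the run from level `J` with bare coupling `b` -/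
def zz (b : ℝ) (J k : ℕ) : Z := dw G.nx (G.top b J) J k

/-- the tree data of a run from level `J` at level `k` -/
structure Tz (J k : ℕ) (z : Z) : Prop where
  tr : ∀ i, i = k ∨ i + 1 = k → (G.td i z).Tr (G.L k) z.j z.v z.e
  e : z.e = ∑ i ∈ Ico k J, ((G.L i : ℝ) ^ (4 * G.Bk i))⁻¹
  v : |z.v - 1| ≤ 10⁻¹

/-- sizes at level `k` -/
def Sz (k : ℕ) (x y ω : ℝ) (ψ : Lx) (K : Ac) : Prop := En.Sz (G.p k) (G.N k) (G.Q k) (G.g k) x y ω ψ K

/-- the data `ψ`, `K` with the tree data of `z` represent `f` at level `k` -/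
structure Dt (k : ℕ) (z : Z) (x y ω : ℝ) (ψ : Lx) (K : Ac) (f : Conf → ℂ) : Prop where
  sz : G.Sz k x y ω ψ K
  re : Re (G.p k) (G.N k) ψ K
  rp : Rp (G.sl k z) ψ K f

/-- the invariant of a run -/
structure Gd (b : ℝ) (J k : ℕ) (z : Z) : Prop where
  tz : G.Tz J k z
  dt : G.Dt k z 1 1 √(G.g k) z.ψ z.K (G.f b J k)
  q : |(qc (z.ψ 0) e1 e1).re| ≤ G.g k ^ 2

/-- a run which stays close to the reference couplings -/
structure Tu1 (b : ℝ) (J : ℕ) : Prop where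
  b0 : 0 ≤ b
  gd : ∀ k ≤ J, G.Gd b J k (G.zz b J k)
  v : ∀ k ≤ J, |(G.zz b J k).v - 1| ≤ (G.Q k ^ 409)⁻¹
  lam : ∀ k < J, |G.kp k (G.zz b J (k + 1))| ≤ 2 * G.Q k ∧
    |G.lam k (G.zz b J (k + 1)) - 1| ≤ 3 * G.Q k / G.bb k

/-- the same parameters on the unit torus -/
def one : Gl := { G with m := 1 }

/-- a run which is tuned on the unit torus -/
structure Tu (b : ℝ) (J : ℕ) : Prop extends G.Tu1 b J where
  one : G.one.Tu1 b J
  d0 : bh (G.one.N 0) (G.g 0 / G.Q 0) (G.one.f b J 0) = G.bb 0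

/-- the radius of the ball of data -/
def u (k : ℕ) : ℝ := G.bb k / G.Q k ^ 400

/-- one step for data `d` with the tree data of the state `z` -/
def hs (k : ℕ) (z : Z) (d : Lx × Ac) : Lx × Ac :=
  (stp (G.sd k z) (G.kp k z) d.1 d.2, (G.sd k z).KK d.1 d.2)

variable {G} {b : ℝ} {J k : ℕ} {z : Z}

theorem Tu.to1 (A : G.Tu b J) : G.one.Tu b J := ⟨A.one, A.one, A.d0⟩

theorem zz_top (b : ℝ) (J : ℕ) : G.zz b J J = G.top b J := dw_top ..

theorem zz_step (b : ℝ) (h : k < J) : G.zz b J k = G.nx k (G.zz b J (k + 1)) := dw_step _ _ h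

theorem f_top (b : ℝ) (J : ℕ) : G.f b J J = fun U => ((wil b (G.N J) U : ℝ) : ℂ) := by
  rw [f, Nat.sub_self, rho]

namespace Ok

variable (h : G.Ok)
include h

theorem N_succ (k : ℕ) : G.L k * G.N k = G.N (k + 1) := by
  rw [N, N, mul_left_comm, L, l, LL_mul h.sch.mono.monotone]

theorem N_odd (k : ℕ) : Odd (G.N k) := h.odd.mul (odd3 _)

theorem f_step (b : ℝ) (hk : k < J) :
    G.f b J k = TT (G.l k) (G.a k) (G.N k) (G.f b J (k + 1)) := by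
  rw [f, f, show J - k = J - (k + 1) + 1 by omega, rho,
    show J - 1 - (J - (k + 1)) = k by omega, ← h.N_succ, L]

theorem L_big (k : ℕ) : 1000 ≤ G.L k := by
  have := h.sch.big k; have := h.l1; unfold L l LL; omega

theorem L1 (k : ℕ) : (1000 : ℝ) ≤ G.L k := by exact_mod_cast h.L_big k

theorem Q1 (k : ℕ) : 1 ≤ G.Q k := one_le_pow₀ (by linarith [h.L1 k])

theorem Q0 (k : ℕ) : 0 < G.Q k := one_pos.trans_le (h.Q1 k)

theorem Lbk (k : ℕ) {i : ℕ} (hi : i ≤ G.Bk k) : (G.L k : ℝ) ^ i ≤ G.bb k :=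
  (pow_le_pow_right₀ (by linarith [h.L1 k]) hi).trans (h.sch.low k)

theorem B_lo (k : ℕ) : G.B0 ≤ G.Bk k := h.sch.Blo k

theorem B_mono : Monotone G.Bk := h.sch.Bmo

theorem Lb (k : ℕ) {i : ℕ} (hi : i ≤ G.B0) : (G.L k : ℝ) ^ i ≤ G.bb k :=
  h.Lbk k (hi.trans (h.B_lo k))

theorem Qb (k : ℕ) : G.Q k ^ 4000 ≤ G.bb k := by
  rw [Q, ← pow_mul]; exact h.Lb k (by have := h.B1; omega)

theorem b0 (k : ℕ) : 0 < G.bb k := (pow_pos (h.Q0 k) _).trans_le (h.Qb k)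

theorem a0 (k : ℕ) : 0 ≤ G.a k := mul_nonneg (h.b0 _).le (sq_nonneg _)

theorem f_facts (J k : ℕ) : (∀ b, 0 ≤ b → GI (G.N k) (G.f b J k) ∧ Sym (G.N k) (G.f b J k) ∧
    Pos (G.f b J k)) ∧ ∀ U, Continuous fun b => G.f b J k U :=
  rho_facts _ _ (fun _ => h.a0 _) _ _ (h.N_odd k)

theorem L_mono : Monotone G.L := monotone_nat_of_le_succ fun k => by
  rcases h.sch.size k with e | e <;> unfold L l <;> omega

theorem Q_mono : Monotone G.Q := fun _ _ e =>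
  pow_le_pow_left₀ (Nat.cast_nonneg _) (Nat.cast_le.2 (h.L_mono e)) _

theorem b_mono : Monotone G.bb := monotone_nat_of_le_succ fun k => (h.sch.le k).1

theorem b_succ (k : ℕ) : G.bb (k + 1) ≤ 1001 / 1000 * G.bb k := by
  have := h.Lb k (i := 2) (by have := h.B1; omega)
  have a : G.bb (k + 1) ≤ G.bb k + G.L k := (h.sch.le k).2
  nlinarith [h.L1 k]

theorem vol (k : ℕ) : Odd (G.N k / G.L k) ∧ G.L k * (G.N k / G.L k) = G.N k ∧
    G.bb k ≤ (G.N k / G.L k : ℕ) := by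
  obtain ⟨n, h1, h2, h3⟩ := h.sch.vol k
  have e : G.N k / G.L k = G.m * n := by
    rw [N, ← h2, mul_left_comm]
    exact Nat.mul_div_cancel_left _ (lt_of_lt_of_le (by norm_num) (h.L_big k))
  rw [e]
  exact ⟨h.odd.mul h1, by rw [mul_left_comm, N, ← h2]; rfl,
    h3.trans (Nat.cast_le.2 (Nat.le_mul_of_pos_left _ h.odd.pos))⟩

theorem bN (k : ℕ) : G.bb k ≤ G.N k := (h.vol k).2.2.trans (Nat.cast_le.2 (Nat.div_le_self _ _))

theorem sl_nf (k : ℕ) (z : Z) : (G.sl k z).nf = G.N k := (h.vol k).2.1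

theorem sd_nf (k : ℕ) (z : Z) : (G.sd k z).nf = G.N (k + 1) := h.N_succ k

theorem D_le (k : ℕ) {n : ℕ} (hn : G.bb k ≤ n) : 1000 * G.L k ^ G.K0 ≤ n := by
  have := (h.Lb k (i := G.K0 + 1) (by have := h.B1; omega)).trans hn
  have a : G.L k ^ (G.K0 + 1) ≤ n := by exact_mod_cast this
  rw [pow_succ'] at a
  exact (Nat.mul_le_mul_right _ (h.L_big k)).trans a

theorem Q1000 (k : ℕ) : G.Q k ^ 1000 ≤ G.bb k :=
  (pow_le_pow_right₀ (h.Q1 k) (by norm_num)).trans (h.Qb k)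

theorem sd_all (k : ℕ) (z : Z) : All G.κ G.bn (G.sd k z) :=
  h.all _ ⟨h.c1, h.sch.size k, h.N_odd k, h.D_le k (h.bN k), h.Q1000 k, (h.sch.le k).1,
    show _ ≤ 2 * G.bb k from (h.b_succ k).trans (by linarith [h.b0 k]), h.sch.upp k⟩ rfl rfl rfl rfl rfl (h.sch.big k)

theorem sl_all (k : ℕ) (z : Z) : All G.κ G.bn (G.sl k z) :=
  h.all _ ⟨h.c1, .inl rfl, (h.vol k).1, h.D_le k (h.vol k).2.2, h.Q1000 k, le_rfl,
    (show G.bb k ≤ 2 * G.bb k by linarith [h.b0 k]), (h.sch.le k).1.trans (h.sch.upp k)⟩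
    rfl rfl rfl rfl rfl (h.sch.big k)

theorem bg (k : ℕ) : G.bb k * G.g k ^ 2 = 1 := (h.sl_all k (G.top0 0 0)).nu.ok.βg

theorem g0 (k : ℕ) : 0 < G.g k := (h.sl_all k (G.top0 0 0)).nu.ok.g0

theorem g_succ (k : ℕ) : G.g (k + 1) ≤ G.g k := (h.sd_all k (G.top0 0 0)).nu.ok.gg'

theorem Qg (k : ℕ) : G.Q k ^ 2000 * G.g k ≤ 1 := le_of_sq_le_sq (by
  rw [mul_pow, ← pow_mul, one_pow, ← h.bg k]
  exact mul_le_mul_of_nonneg_right (h.Qb k) (sq_nonneg _)) zero_le_one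

theorem Qsg (k : ℕ) : G.Q k ^ 1000 * √(G.g k) ≤ 1 := le_of_sq_le_sq (by
  rw [mul_pow, ← pow_mul, sq_sqrt (h.g0 k).le, one_pow]; exact h.Qg k) zero_le_one

theorem cQ (k : ℕ) {C : ℝ} (hC : C ≤ 10 ^ 20) : C ≤ G.Q k := (h.sl_all k (G.top0 0 0)).nu.cQ' hC

theorem LQ (k : ℕ) : (G.L k : ℝ) ≤ G.Q k := (h.sl_all k (G.top0 0 0)).nu.L_le_Q

variable (t : G.Tz J k z)
include t

omit h in
theorem ze0 : 0 ≤ z.e := t.e ▸ sum_nonneg fun _ _ => by positivity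

theorem ze1 : z.e * G.bb k ^ 2 ≤ 1 := by
  rw [← le_div_iff₀ (pow_pos (h.b0 k) 2), one_div, t.e]; exact h.sch.sum1 k J

theorem ze2 : z.e ≤ 1000⁻¹ := by
  have a := (h.L1 k).trans (by simpa using h.Lb k (i := 1) (by have := h.B1; omega))
  nlinarith [h.ze1 t, ze0 t, mul_le_mul_of_nonneg_left (show 1000 ≤ G.bb k ^ 2 by nlinarith) (ze0 t)]

omit h in
theorem v12 : 2⁻¹ ≤ z.v ∧ z.v ≤ 2 := by
  have := abs_le.1 t.v; constructor <;> linarith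

/-- a level -/
theorem lf : LF (G.sl k z) z.v z.e :=
  have a := (h.sl_all k z).bd _ _ _ _ _ rfl (v12 t).2 (by linarith [(v12 t).1])
    ((h.ze2 t).trans (by norm_num)) (t.tr k (.inl rfl))
  ⟨(h.sl_all k z).nu, rfl, rfl, (h.bN k).trans_eq (by rw [h.sl_nf]), (v12 t).1, (v12 t).2, ze0 t,
    h.ze1 t, ⟨_, t.tr k (.inl rfl)⟩, a.1, a.2⟩

theorem ln {i : ℕ} (hi : i = k ∨ i + 1 = k) : (G.td i z).Ln z.j z.v z.e := by
  obtain ⟨ρ, -, -, c⟩ := (t.tr i hi).ch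
  exact Classical.epsilon_spec ((h.sd_all i z).ln (G.td i z) rfl rfl _ _ _ _ (v12 t).1 (v12 t).2
    (ze0 t) (h.ze2 t) c)

end Ok

/-- a step -/
theorem Ok.st2 (h : G.Ok) (t : G.Tz J (k + 1) z) : St2 (G.sd k z) :=
  (h.sd_all k z).s2 ⟨_, _, _, (Ok.v12 t).1, (Ok.v12 t).2, Ok.ze0 t, h.ze2 t, t.tr k (.inr rfl),
    h.ln t (.inr rfl)⟩

end Gl

end Pool.Agent.Lib.MP_7f377f_mp.RG.Q4.En
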