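import Pool.Agent.Lib.MP_7f377f_mp.G.Q5FamA
import Pool.Agent.Lib.MP_7f377f_mp.G.Q4PosC
import Pool.Agent.Lib.MP_7f377f_mp.G.Q4EOne
import Pool.Agent.Lib.MP_7f377f_mp.G.Q4FlatA

/-! Multi-affine families of data through many levels. -/

noncomputable section

open Pool.Agent.Lib.MP_7f377f_mp.Jet

set_option linter.unusedSectionVars false
variable [Pool.Agent.Lib.MP_7f377f_mp.GD]

namespace Pool.Agent.Lib.MP_7f377f_mp.RG.Q4.En

open Finset Real Sg Pos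

/-- a family of data with its free energy and the supports of the sources -/
structure Fy (ι : Type) where
  ψ : (ι → ℂ) → Lx
  K : (ι → ℂ) → Ac
  E : (ι → ℂ) → ℂ
  Z : ι → Finset St

variable {ι κ : Type} [DecidableEq ι] [DecidableEq κ]

/-- the base point -/
def Fy.bs (Y : Fy ι) : Lx × Ac := (Y.ψ 0, Y.K 0)

/-- the jets -/
def Fy.jt (Y : Fy ι) (T : Finset ι) : Lx × Ac := (jL T Y.ψ, jA T Y.K)

namespace Gl

variable (G : Gl)

/-- one step for a family -/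
def fs (A : Finset ι) (k : ℕ) (z : Z) (Y : Fy ι) : Fy ι where
  ψ s := stp (G.sd k z) (G.kp k z) (Y.ψ s) (Y.K s)
  K := trK A fun s => (G.sd k z).KK (Y.ψ s) (Y.K s)
  E s := Y.E s + ∑ y ∈ (G.sd k z).Λ', (G.sd k z).Ey (Y.ψ s) (Y.K s) y
  Z a := nxt (G.sd k z) (Y.Z a)

/-- the family at the top -/
def ft (A : Finset ι) (F : ι → Sr) (Z : ι → Finset St) (b : ℝ) (J : ℕ) : Fy ι :=
  ⟨fun s => sL (sF A F s), trK A fun s => sK (G.p J) (G.N J) b (sF A F s), 0, Z⟩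

/-- the flow of a family from level `i` along the run from level `J` -/
def fw (A : Finset ι) (b : ℝ) (J : ℕ) (Y : Fy ι) (i k : ℕ) : Fy ι :=
  dw (fun k => G.fs A k (G.zz b J (k + 1))) Y i k

/-- the family of the sources `F` -/
def fm (A : Finset ι) (F : ι → Sr) (Z : ι → Finset St) (b : ℝ) (J k : ℕ) : Fy ι :=
  G.fw A b J (G.ft A F Z b J) J k

/-- the densities with sources -/
def fr (A : Finset ι) (F : ι → Sr) (b : ℝ) (J k : ℕ) (s : ι → ℂ) : Conf → ℂ :=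
  G.tt (fun U => wil b (G.N J) U * Complex.exp (-sO (G.N J) (sF A F s) U)) J k

/-- the tangent flow along a run -/
def tn (b : ℝ) (J : ℕ) (v : Lx × Ac) (i k : ℕ) : Lx × Ac :=
  dw (fun k => G.ts k (G.zz b J (k + 1)) ((G.zz b J (k + 1)).ψ, (G.zz b J (k + 1)).K)) v i k

/-- the tangent flow of a source -/
def tv (F : Sr) (b : ℝ) (J k : ℕ) : Lx × Ac := G.tn b J (sL F, Pos.dS (G.p J) (G.N J) b F) J k

/-- the family `Y` represents the jets of `f` at level `k` -/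
structure Fd (k : ℕ) (z : Z) (A : Finset ι) (r0 r : ι → ℝ) (θ : ℝ) (Y : Fy ι)
    (f : (ι → ℂ) → Conf → ℂ) : Prop where
  fi : Fi (G.p k) (G.N k) A Y.Z r θ Y.ψ Y.K
  ma : Y.E = ma A fun T => jd T Y.E
  eq : EqD r0 A (G.N k) f fun s U =>
    Complex.exp (Y.E s) * Rep (G.p k) (G.N k) ((G.sl k z).Φ (Y.ψ s)) (Y.K s) U

/-- an admissible step -/
structure Ad (J k : ℕ) (z : Z) : Prop where
  tz : G.Tz J (k + 1) z
  lt : k < J
  v : |z.v - 1| ≤ 20⁻¹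
  kp : |G.kp k z| ≤ 2 * G.Q k
  pu : (G.sd k z).Pu

variable {G} {A T : Finset ι} {F : ι → Sr} {W : ι → Finset St} {b β θ θ' d ρ σ a N ω : ℝ}
  {J i j k m c : ℕ} {z : Z} {Y : Fy ι} {r r' r0 : ι → ℝ} {f : (ι → ℂ) → Conf → ℂ} {cl : ι → κ}

theorem fw_top : G.fw A b J Y i i = Y := dw_top ..

theorem fw_step (h : k < i) :
    G.fw A b J Y i k = G.fs A k (G.zz b J (k + 1)) (G.fw A b J Y i (k + 1)) := dw_step _ _ h

theorem fm_top : G.fm A F W b J J = G.ft A F W b J := fw_top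

theorem fm_step (h : k < J) :
    G.fm A F W b J k = G.fs A k (G.zz b J (k + 1)) (G.fm A F W b J (k + 1)) := fw_step h

omit [DecidableEq ι] in
theorem fr_top : G.fr A F b J J =
    fun s U => wil b (G.N J) U * Complex.exp (-sO (G.N J) (sF A F s) U) :=
  funext fun _ => tt_top _ _

omit [DecidableEq ι] in
theorem fr_step (h : k < J) :
    G.fr A F b J k = fun s => TT (G.l k) (G.a k) (G.N k) (G.fr A F b J (k + 1) s) :=
  funext fun _ => tt_step _ h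

theorem tn_top {v : Lx × Ac} : G.tn b J v i i = v := dw_top ..

theorem tn_step {v : Lx × Ac} (h : k < i) : G.tn b J v i k = G.ts k (G.zz b J (k + 1))
    ((G.zz b J (k + 1)).ψ, (G.zz b J (k + 1)).K) (G.tn b J v i (k + 1)) := dw_step _ _ h

theorem fs_bs : (G.fs A k z Y).bs = G.hs k z Y.bs := Prod.ext rfl trK_zero

/-- without sources the family is the run -/
theorem fm_bs : ∀ k ≤ J, (G.fm A F W b J k).bs = ((G.zz b J k).ψ, (G.zz b J k).K) :=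
  dw_ind (by rw [fm_top, zz_top]; exact Prod.ext (top_zero (p := G.p J) (n := G.N J) (β := b)).1 top_zero.2)
    fun k hk ih => by
    rw [fm_step hk, fs_bs, ih, zz_step b hk]; rfl

theorem ft_jt {x : ι} (hx : x ∈ A) :
    (G.ft A F W b J).jt {x} = (sL (F x), Pos.dS (G.p J) (G.N J) b (F x)) :=
  Prod.ext (jL_top hx) (jA_top hx)

theorem Fd.mono (e : G.Fd k z A r0 r θ Y f) (hr : ∀ x, 0 < r' x) (h1 : ∀ x, r' x ≤ r x)
    (h2 : θ ≤ θ') : G.Fd k z A r0 r' θ' Y f :=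
  ⟨e.fi.mono hr h1 h2 fun _ => Subset.rfl, e.ma, e.eq⟩

namespace Ok

variable (h : G.Ok)
include h

omit [DecidableEq ι] in
theorem fr_zero : ∀ k ≤ J, G.fr A F b J k 0 = G.f b J k :=
  dw_ind (by rw [fr_top, f_top]; ext; simp [sF_zero, sO]) fun k hk ih => by
    rw [fr_step hk, h.f_step b hk, ← ih]

theorem ad (t : G.Tu b J) (hk : k < J) (u : (G.sd k (G.zz b J (k + 1))).Pu) :
    G.Ad J k (G.zz b J (k + 1)) :=
  ⟨(t.gd _ hk).tz, hk, (t.v (k + 1) hk).trans (by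
    have := h.inv_le (k + 1) (i := 0) (j := 409) (by norm_num)
    rw [pow_zero, inv_one] at this
    linarith), (t.lam k hk).1, u⟩

theorem tok_sd (t : G.Tz J (k + 1) z) : (G.sd k z).TOk :=
  ⟨_, _, _, (v12 t).1, (v12 t).2, ze0 t, h.ze2 t, t.tr k (.inr rfl), h.ln t (.inr rfl)⟩

theorem tok_sl (t : G.Tz J k z) : (G.sl k z).TOk :=
  ⟨_, _, _, (v12 t).1, (v12 t).2, ze0 t, h.ze2 t, t.tr k (.inl rfl), h.ln t (.inl rfl)⟩

theorem phi_eq (ψ : Lx) (K : Ac) :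
    (G.sd k z).Φ' ψ K = (G.sl k (G.nx k z)).Φ (stp (G.sd k z) (G.kp k z) ψ K) := by
  funext y B
  have : (G.bb k : ℂ) ≠ 0 := Complex.ofReal_ne_zero.2 (h.b0 k).ne'
  change (G.bb (k + 1) : ℂ) * _ + _ + _ = (G.bb k : ℂ) * (cx (G.lam k z • _) B B +
    G.lam k z * _) + (_ + src _ _ B)
  rw [src, cx_smul, lam]
  push_cast
  field_simp
  ring

/-- the fine level of a step -/
theorem fi_sd {ψ : (ι → ℂ) → Lx} {K : (ι → ℂ) → Ac}
    (e : Fi (G.p (k + 1)) (G.N (k + 1)) A W r θ ψ K) (z : Z) :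
    Fi (G.sd k z).p (G.sd k z).nf A W r θ ψ K := by rw [h.sd_nf]; exact e

theorem fs_jt (t : G.Tz J (k + 1) z) (e : Fi (G.p (k + 1)) (G.N (k + 1)) A W r θ Y.ψ Y.K) {x : ι}
    (hx : x ∈ A) : (G.fs A k z Y).jt {x} = G.ts k z Y.bs (Y.jt {x}) :=
  Prod.ext ((h.fi_sd e z).jL_one (h.sd_all k z).nu (h.st2 t) _ hx) ((h.fi_sd e z).jA_one hx)

/-- one step -/
theorem fam1 (t : G.Ad J k z) (e : G.Fd (k + 1) z A r0 r θ Y f) (h0 : ∀ x, r0 x ≤ r x)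
    (pu : ∀ s ∈ Pd r, PU (G.p (k + 1)) β (Y.ψ s)) (hb : G.Q k ^ 100 * β ≤ 1)
    (hθ : G.Q k ^ 100 * θ ≤ 1) (hc : Cls (G.N k) d A cl (G.fs A k z Y).Z)
    (hm : (m + 2 : ℝ) * (G.p k).D ≤ d) (hk : ∀ a, (A.filter (cl · = a)).card ≤ c) (ρ0 : 0 ≤ ρ)
    (hρ : c * ρ ≤ m) (hr : ∀ x, 0 < r' x) (h1 : ∀ x, r' x ≤ ρ * r x) :
    G.Fd k (G.nx k z) A r0 r' ((1 + ρ) ^ c * (G.sd k z).θ' β θ) (G.fs A k z Y)
      fun s => TT (G.l k) (G.a k) (G.N k) (f s) := by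
  have nu := (h.sd_all k z).nu
  have st := h.st2 t.tz
  have F := h.fi_sd e.fi z
  have p0 := e.eq.fst.pos
  refine ⟨F.step nu st pu hb hθ (h.src_ps t.tz t.lt t.v t.kp).1 hc hm hk ρ0 hρ hr h1, ?_, ?_⟩
  · have : (G.fs A k z Y).E = Jet.ma A (fun T => jd T Y.E + ∑ y ∈ (G.sd k z).Λ', ((G.sd k z).Ey
        (jL T Y.ψ) (jA T Y.K) y - if T = ∅ then 0 else (G.sd k z).Ey 0 0 y)) := funext fun s => by
      simp only [fs, congrFun e.ma s, fun y => congrFun (F.ey nu t.pu y) s, Jet.ma, smul_add,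
        sum_add_distrib, smul_sum]
      rw [sum_comm]
    exact this.trans (ma_congr fun T hT => by rw [this, jd_ma _ hT])
  · have := ((F.mono p0 h0 le_rfl fun _ => Subset.rfl).eqd nu st
      (fun s hs => pu s fun x => (hs x).trans_le (h0 x)) hb hθ t.pu (h.tok_sd t.tz)
      (e.ma ▸ hb_ma p0 _) (by rw [h.sd_nf]; exact e.eq)).2
    simp only [h.phi_eq] at this
    exact this

/-- the top level -/
theorem fam_top (hb : |b / G.bb J - 1| ≤ 10⁻¹) (hr : ∀ x, 0 < r x)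
    (hF : ∀ s ∈ Pd r, ∀ x μ ν, ‖sF A F s x μ ν‖ ≤ G.bb J / 4)
    (hZ : ∀ a x, rc (G.N J) x ∉ W a → F a x = 0) (h1 : ∀ i ∈ A, ∃ a, ∀ x μ ν, ‖F i x μ ν‖ ≤ a)
    (hc : Cls (G.N J) d A cl W) (hd : (m + 2 : ℝ) * (G.p J).D ≤ d)
    (hk : ∀ a, (A.filter (cl · = a)).card ≤ c) (hρ : c ≤ m) :
    G.Fd J (G.top b J) A r r (2 ^ c * G.g J ^ 31) (G.ft A F W b J) (G.fr A F b J J) := by
  have nu := (h.sl_all J (G.top b J)).nu
  have n := h.sl_nf J (G.top b J)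
  have b0 := h.b0 J
  have v : 2⁻¹ ≤ b / G.bb J := by linarith [(abs_le.1 hb).1]
  have e : b / G.bb J * G.bb J = b := div_mul_cancel₀ _ b0.ne'
  have a := fi_top nu hr hF (β := b) (show G.bb J / 2 ≤ b by nlinarith) (by rwa [n]) h1
    (by rwa [n]) hd hk hρ
  have a' := eqd_top nu hr hF (h.tok_sl (h.gd_top hb).tz) (v := b / G.bb J) rfl rfl v a.fl
  rw [n] at a
  rw [n, show b / G.bb J * (G.sl J (G.top b J)).β = b from e] at a'
  refine ⟨a, by ext; simp [ft, ma, jd_zero], ?_⟩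
  rw [fr_top]
  simp only [ft, Pi.zero_apply, Complex.exp_zero, one_mul]
  exact a'

theorem bl_big (k : ℕ) (z : Z) : Bl (G.sd k z) (G.Q k ^ 210)⁻¹ (5 * (G.Q k ^ 329)⁻¹) := by
  have q := h.Q0 k
  have a : ∀ {i : ℕ} {C : ℝ}, 100 < i → C ≤ 1000 → G.Q k ^ 100 * (C * (G.Q k ^ i)⁻¹) ≤ 1 :=
    fun {i C} hi hC => by
      have := mul_le_mul_of_nonneg_left (h.inv_le k hi) (pow_pos q 100).le
      rw [mul_inv_cancel₀ (by positivity)] at this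
      nlinarith [mul_pos (pow_pos q 100) (inv_pos.2 (pow_pos q i))]
  refine ⟨(h.g_succ k).trans ?_, le_of_eq ?_, a (by norm_num) (by norm_num), ?_⟩
  · rw [← one_div, le_div_iff₀' (by positivity)]
    exact (mul_le_mul_of_nonneg_right (pow_le_pow_right₀ (h.Q1 k) (by norm_num)) (h.g0 k).le).trans
      (h.Qg k)
  · change 5 * G.Q k ^ 91 * _ = _
    field_simp
  · rw [← mul_assoc 2]
    exact a (by norm_num) (by norm_num)

/-- one step in the large ball, without change of the radii -/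
theorem fam1' (t : G.Ad J k z) (e : G.Fd (k + 1) z A r0 r (G.Q (k + 1) ^ 329)⁻¹ Y f)
    (h0 : ∀ x, r0 x ≤ r x) (pu : ∀ s ∈ Pd r, PU (G.p (k + 1)) (2 * (G.Q k ^ 210)⁻¹) (Y.ψ s))
    (hc : Cls (G.N k) ((c + 2) * (G.p k).D) A cl (G.fs A k z Y).Z)
    (hk : ∀ a, (A.filter (cl · = a)).card ≤ c) (hQ : 20 * 2 ^ c ≤ G.Q k) :
    G.Fd k (G.nx k z) A r0 r (G.Q k ^ 329)⁻¹ (G.fs A k z Y)
      fun s => TT (G.l k) (G.a k) (G.N k) (f s) := by
  have B := h.bl_big k z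
  have q := h.Q0 k
  have a : (G.Q (k + 1) ^ 329)⁻¹ ≤ (G.Q k ^ 329)⁻¹ :=
    inv_anti₀ (by positivity) (pow_le_pow_left₀ q.le (h.Q_mono k.le_succ) _)
  have a0 := inv_pos.2 (pow_pos q 329)
  refine (h.fam1 t (e.mono e.fi.pos (fun _ => le_rfl) (by linarith)) h0 pu B.b_le B.θ_le hc le_rfl
    hk zero_le_one (mul_one _).le e.fi.pos fun _ => (one_mul _).ge).mono e.fi.pos
    (fun _ => le_rfl) ((mul_le_mul_of_nonneg_left (B.th (h.sd_all k z).nu) (by positivity)).trans ?_)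
  change _ * (_ / G.Q k) ≤ _
  rw [one_add_one_eq_two, ← mul_div_assoc, div_le_iff₀ q]
  nlinarith

/-- separated sources -/
theorem chain1 {z : ℕ → Z} {Y : ℕ → Fy ι} {f : ℕ → (ι → ℂ) → Conf → ℂ} {H : ℕ → Lx × Ac}
    {v : ι → ℕ → Lx × Ac} {b0 b1 : ℕ → ℝ}
    (st : ∀ k, j ≤ k → k < i → G.Ad J k (z (k + 1)) ∧ z k = G.nx k (z (k + 1)) ∧
      Y k = G.fs A k (z (k + 1)) (Y (k + 1)) ∧
      (f k = fun s => TT (G.l k) (G.a k) (G.N k) (f (k + 1) s)) ∧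
      H k = G.hs k (z (k + 1)) (H (k + 1)) ∧
      ∀ x ∈ A, v x k = G.ts k (z (k + 1)) (H (k + 1)) (v x (k + 1)))
    (sz : ∀ k, j ≤ k → k < i → PU (G.p (k + 1)) (b0 k) (H (k + 1)).1 ∧
      (∀ x ∈ A, PU (G.p (k + 1)) (b1 k) (v x (k + 1)).1) ∧ 0 ≤ σ * b1 k ∧
      b0 k + σ * b1 k ≤ 2 * (G.Q k ^ 210)⁻¹)
    (hc : ∀ k, j ≤ k → k ≤ i → Cls (G.N k) (3 * (G.p k).D) A id (Y k).Z)
    (h0 : ∀ x, r0 x ≤ r x) (hσ : ∀ x ∈ A, r x ≤ σ)
    (e : G.Fd i (z i) A r0 r (G.Q i ^ 329)⁻¹ (Y i) (f i)) (e1 : (Y i).bs = H i)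
    (e2 : ∀ x ∈ A, (Y i).jt {x} = v x i) : ∀ k ≤ i, j ≤ k →
    G.Fd k (z k) A r0 r (G.Q k ^ 329)⁻¹ (Y k) (f k) ∧ (Y k).bs = H k ∧
      ∀ x ∈ A, (Y k).jt {x} = v x k :=
  dw_ind (fun _ => ⟨e, e1, e2⟩) fun k hk ih hj => by
    obtain ⟨a1, a2, a3, a4, a5, a6⟩ := st k hj hk
    obtain ⟨b1, b2, b3, b4⟩ := sz k hj hk
    obtain ⟨c1, c2, c3⟩ := ih (by omega)
    have D0 : (0 : ℝ) < 3 * (G.p (k + 1)).D := by
      have : 0 < 20 * G.L (k + 1) ^ G.K0 := by have := h.L_big (k + 1); positivity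
      exact mul_pos three_pos (Nat.cast_pos.2 this)
    have := hc k hj hk.le
    rw [a3] at this
    rw [a2, a3, a4, a5, fs_bs, c2]
    refine ⟨h.fam1' (c := 1) a1 c1 h0 (fun s hs => pu_mono (c1.fi.ml.pu_one (h.ρ0 _)
      (hc _ (by omega) hk) D0 (c2 ▸ b1 : PU _ _ (Y (k + 1)).bs.1)
      (fun x hx => (c3 x hx ▸ b2 x hx : PU _ _ ((Y (k + 1)).jt {x}).1)) b3
      fun x hx => (hs x).le.trans (hσ x hx)) b4) (by norm_num; exact this) (fun c => card_le_one.2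
        fun a ha b hb => (mem_filter.1 ha).2.trans (mem_filter.1 hb).2.symm)
      (h.cQ k (by norm_num)), rfl, fun x hx => ?_⟩
    rw [h.fs_jt a1.tz c1.fi hx, c2, c3 x hx, a6 x hx]

/-- the family of separated sources along a run -/
theorem famI {ω : ℕ → ℝ} (t : G.Tu b J) (u : ∀ k < J, (G.sd k (G.zz b J (k + 1))).Pu) (hr : ∀ x, 0 < r x)
    (hσ : ∀ x ∈ A, r x ≤ σ) (σ0 : 0 ≤ σ) (hZ : ∀ a x, rc (G.N J) x ∉ W a → F a x = 0)
    (hF : ∀ i ∈ A, ∀ x μ ν, ‖F i x μ ν‖ ≤ a) (a0 : 0 ≤ a) (ha : σ * a ≤ G.bb J / 4)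
    (hc : ∀ k, j ≤ k → k ≤ J → Cls (G.N k) (3 * (G.p k).D) A id (G.fm A F W b J k).Z)
    (hj : j ≤ J) (N0 : 0 ≤ N) (sz : ∀ k, j ≤ k → k < J → G.Q k ^ 100 * ω k ≤ 1 ∧
      G.Q k ^ 220 * (1 + σ * N) ≤ G.bb (k + 1) ∧ ∀ x ∈ A,
        G.Sz (k + 1) N N (ω k) (G.tv (F x) b J (k + 1)).1 (G.tv (F x) b J (k + 1)).2) :
    ∀ k ≤ J, j ≤ k → G.Fd k (G.zz b J k) A r r (G.Q k ^ 329)⁻¹ (G.fm A F W b J k)
      (G.fr A F b J k) ∧ ∀ x ∈ A, (G.fm A F W b J k).jt {x} = G.tv (F x) b J k := by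
  have c := hc J hj le_rfl
  rw [fm_top] at c
  have D0 : (0 : ℝ) < 3 * (G.p J).D := by
    have : 0 < 20 * G.L J ^ G.K0 := by have := h.L_big J; positivity
    exact mul_pos three_pos (Nat.cast_pos.2 this)
  have v := (t.gd J le_rfl).tz.v
  rw [zz_top] at v
  have a := h.fam_top (m := 1) (c := 1) v hr (fun s hs x μ ν => (sF_le c D0 hZ hF
    (fun x hx => (hs x).le.trans (hσ x hx)) (mul_nonneg σ0 a0) x μ ν).trans ha) hZ
    (fun x hx => ⟨_, hF x hx⟩) c (by norm_num) (fun c => card_le_one.2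
      fun a ha b hb => (mem_filter.1 ha).2.trans (mem_filter.1 hb).2.symm) le_rfl
  intro k hk hk'
  refine (h.chain1 (z := G.zz b J) (H := fun k => ((G.zz b J k).ψ, (G.zz b J k).K))
    (v := fun x => G.tv (F x) b J) (b0 := fun k => G.Q k ^ 10 * (1 + 1) * G.g (k + 1) ^ 2)
    (b1 := fun k => G.Q k ^ 10 * (N + N) * G.g (k + 1) ^ 2) (fun k _ hk => ⟨h.ad t hk (u k hk),
      zz_step b hk, fm_step hk, fr_step hk, by rw [zz_step b hk]; rfl, fun _ _ => tn_step hk⟩)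
    (fun k h1 hk => ?_) hc (fun _ => le_rfl) hσ ?_ (fm_bs J le_rfl)
    (fun x hx => by rw [fm_top, ft_jt hx, tv, tn_top]) k hk hk').imp_right And.right
  · obtain ⟨s1, s2, s3⟩ := sz k h1 hk
    have nu := (h.sd_all k (G.zz b J (k + 1))).nu
    have q := h.Q0 k
    refine ⟨(h.sz_sd (t.gd _ hk).dt.sz _).pu nu (qsq nu (by norm_num)),
      fun x hx => (h.sz_sd (s3 x hx) _).pu nu s1, by positivity, ?_⟩
    rw [← div_eq_mul_inv, le_div_iff₀ (by positivity)]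
    linarith [mul_le_mul_of_nonneg_right s2 (sq_nonneg (G.g (k + 1))), h.bg (k + 1)]
  · rw [zz_top, fm_top]
    refine a.mono hr (fun _ => le_rfl) ?_
    have g0 := h.g0 J
    have := pow_le_pow_of_le_one g0.le (h.g1 J) (show 2 ≤ 31 by norm_num)
    linarith [h.g_le J, h.inv_le J (i := 329) (j := 4000) (by norm_num), pow_pos g0 2]

end Ok

end Gl

end Pool.Agent.Lib.MP_7f377f_mp.RG.Q4.En
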