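import Pool.Agent.Lib.MP_7f377f_mp.G.Q5TanC
import Pool.Agent.Lib.MP_7f377f_mp.G.Q5TanF
import Pool.Agent.Lib.MP_7f377f_mp.Q5TanL
import Pool.Agent.Lib.MP_7f377f_mp.G.Q5TanO
import Pool.Agent.Lib.MP_7f377f_mp.G.Q5TanR

/-! The marginal direction: the two constants theorem carries the bounds for real parameters over
to the derivatives. -/

noncomputable section

set_option linter.unusedSectionVars false
variable [Pool.Agent.Lib.MP_7f377f_mp.GD]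

namespace Pool.Agent.Lib.MP_7f377f_mp.RG.Q4.En

open Finset Real Metric

namespace Gl.Ok

variable {G : Gl} (h : G.Ok) {b : ℝ} {J i j k : ℕ}
include h

theorem fx_tq (k : ℕ) : G.fx k ≤ tq (G.N k) (G.fx k) := by
  have q0 := h.Q0 k
  have g0 := h.g0 k
  have b0 := h.b0 k
  have n := h.bN k
  refine (En.tq_bd (h.N_odd k).pos.ne' ?_).1
  rw [fx, div_mul_eq_mul_div, le_div_iff₀ (by positivity)]
  have g1 : G.g k ≤ 1 := (le_mul_of_one_le_left g0.le (one_le_pow₀ (h.Q1 k))).trans (h.Qg k)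
  have c1 : 7 * cG ^ 1 ≤ G.Q k := (h.sl_all k (G.top0 0 0)).nu.gQ' (by norm_num) (by norm_num)
  calc 7 * GD.hh * G.Q k ^ 250 ≤ G.Q k * G.Q k ^ 250 := by gcongr; linarith [GD.hh_le]
    _ ≤ G.bb k := by linarith [h.Qbb k (i := 251) (by norm_num), pow_pos q0 251]
    _ = G.bb k ^ 2 * G.g k ^ 2 := by rw [sq (G.bb k), mul_assoc, h.bg, mul_one]
    _ ≤ G.N k ^ 2 * G.g k ^ 1 := by
      gcongr ?_ ^ 2 * ?_
      exact pow_le_pow_of_le_one g0.le g1 one_le_two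
    _ = _ := by ring

theorem fx0 (k : ℕ) : 0 < G.fx k := div_pos (h.g0 k) (pow_pos (h.Q0 k) _)

theorem tq0 (k : ℕ) : 0 < tq (G.N k) (G.fx k) := (h.fx0 k).trans_le (h.fx_tq k)

theorem tq_inv (k : ℕ) : (tq (G.N k) (G.fx k) ^ 2)⁻¹ ≤ G.Q k ^ 500 * G.bb k := by
  refine (inv_anti₀ (pow_pos (h.fx0 k) 2) (pow_le_pow_left₀ (h.fx0 k).le (h.fx_tq k) 2)).trans_eq ?_
  have := (h.g0 k).ne'
  rw [fx, div_pow, inv_div, ← pow_mul, div_eq_iff (by positivity), mul_assoc, h.bg, mul_one]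

theorem go_Q3 (go : G.Go J k) (hj : j ≤ k + G.l k + 1) : G.Q j ^ 402 ≤ G.Q k ^ 404 := by
  have a : G.L (k + G.l k + 1) ≤ 3 * G.L k := by
    rw [← h.go_L go (Nat.le_add_right _ _) le_rfl]
    rcases h.sch.size (k + G.l k) with e | e <;> unfold L l at * <;> omega
  have c : (G.L j : ℝ) ≤ 3 * G.L k := by exact_mod_cast (h.L_mono hj).trans a
  have d : (3 : ℝ) ^ 201 ≤ G.L k := (h.sl_all k (G.top0 0 0)).nu.cL (by norm_num)
  rw [Q, Q, ← pow_mul, ← pow_mul, mul_comm, mul_comm _ 404, pow_mul, pow_mul]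
  refine pow_le_pow_left₀ (by positivity) ((pow_le_pow_left₀ (by positivity) c _).trans ?_) _
  rw [mul_pow, show 404 = 2 + 402 from rfl, pow_add, show 402 = 201 * 2 from rfl, pow_mul (3 : ℝ)]
  gcongr

theorem w_gen (A : G.Tu b J) (go : G.Go J k) (hi : i = k + G.l k + 1) {j : Fin 2 → ℕ}
    (hj : ∀ s, j s = k ∨ j s = k + 1) {ϑ ϑ' : Fin 2 → Lk → Ang}
    (a : ∀ s, Fw (G.N (j s)) (G.fx (j s)) (ϑ s)) (a' : ∀ s, Fw (G.N (j s)) (G.fx (j s)) (ϑ' s))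
    {c : Fin 2 → ℝ} (hc : ∀ s, |c s| ≤ (G.N (j s) ^ 4 * tq (G.N (j s)) (G.fx (j s)) ^ 2)⁻¹)
    {E η : ℝ} (η1 : (G.Q k ^ 485)⁻¹ ≤ η) {F : ℕ → ℂ → Conf → ℂ} (hF : F = G.wf i (G.zz b J i))
    (hη : ∀ t : ℝ, |t| ≤ G.bb i / 200 →
      |c 0 * (log (F (j 0) t (ab (ϑ 0))).re - log (F (j 0) t (ab (ϑ' 0))).re) -
        c 1 * (log (F (j 1) t (ab (ϑ 1))).re - log (F (j 1) t (ab (ϑ' 1))).re) + E| ≤ η) :
    |c 0 * (lg (F (j 0) 0) (dF (F (j 0))) (ab (ϑ 0)) - lg (F (j 0) 0) (dF (F (j 0))) (ab (ϑ' 0))) -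
      c 1 * (lg (F (j 1) 0) (dF (F (j 1))) (ab (ϑ 1)) -
        lg (F (j 1) 0) (dF (F (j 1))) (ab (ϑ' 1)))| ≤ G.Q k ^ 405 * G.g k ^ 2 * η := by
  subst hF
  have iJ : i ≤ J := hi ▸ go.1
  have q0 := h.Q0 k
  have q1 := h.Q1 k
  have b0 := h.b0 k
  have L1 := h.L1 k
  have η0 : 0 < η := (by positivity : 0 < (G.Q k ^ 485)⁻¹).trans_le η1
  have l1 : 1 ≤ G.l k := by have := h.sch.big k; have := h.l1; unfold l; omega
  have j1 : ∀ s, k ≤ j s ∧ j s ≤ k + 1 := fun s => by rcases hj s with e | e <;> omega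
  have bi : G.bb k ≤ G.bb i := h.b_mono (by omega)
  have σ0 : 0 < G.bb k / G.Q k ^ 404 := by positivity
  have σ1 : G.bb k / G.Q k ^ 404 ≤ G.bb i / G.Q i ^ 402 :=
    div_le_div₀ (h.b0 i).le bi (pow_pos (h.Q0 i) _) (h.go_Q3 go hi.le)
  have σ2 : G.bb k / G.Q k ^ 404 ≤ G.bb i / 200 := div_le_div₀ (h.b0 i).le bi (by norm_num)
    ((h.cQ k (by norm_num)).trans (le_self_pow₀ q1 (by norm_num)))
  have n0 : ∀ s, (0 : ℝ) < G.N (j s) ^ 4 := fun s =>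
    pow_pos (Nat.cast_pos.2 (h.N_odd _).pos) _
  have d := fun s U => (h.wf_h1 (A.gd i iJ) (k := j s) (by have := j1 s; omega) σ0).diff U
  have w := fun s t (ht : t ∈ ball (0 : ℂ) (G.bb k / G.Q k ^ 404)) {ϑ ϑ'} =>
    h.w_cplx A go hi (j1 s).1 (by have := j1 s; omega) t
      ((mem_ball_zero_iff.1 ht).le.trans σ1) (ϑ := ϑ) (ϑ' := ϑ')
  have r := fun s (t : ℝ) (ht : |t| < G.bb k / G.Q k ^ 404) =>
    (h.w_real A go hi t (ht.le.trans σ2)).1 _ (hj s)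
  have B : 10 ^ 9 * (100 + G.c + G.K + 4 * G.Bk k + 1) ≤ G.l k := (h.sl_all k (G.top0 0 0)).nu.l_big
  have B1 := h.B1.trans (h.B_lo k)
  have cA : ∀ s, |c s| * (4 * G.N (j s) ^ 4) ≤ 4 * (G.Q k ^ 500 * G.bb (k + 1)) := fun s => by
    refine (mul_le_mul_of_nonneg_right (hc s) (mul_pos four_pos (n0 s)).le).trans ?_
    have := (n0 s).ne'
    rw [mul_inv, show ∀ x y : ℝ, x * y * (4 * G.N (j s) ^ 4) = 4 * y * (G.N (j s) ^ 4 * x) from
      fun _ _ => by ring, mul_inv_cancel₀ this, mul_one]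
    refine mul_le_mul_of_nonneg_left ((h.tq_inv _).trans ?_) zero_le_four
    rw [h.go_Q go (j1 s).1 (by have := j1 s; omega)]
    exact mul_le_mul_of_nonneg_left (h.b_mono (j1 s).2) (pow_pos q0 _).le
  refine (two_log (u := fun s t => G.wf i (G.zz b J i) (j s) t (ab (ϑ s)))
    (v := fun s t => G.wf i (G.zz b J i) (j s) t (ab (ϑ' s))) (A := fun s => 4 * G.N (j s) ^ 4)
    (M := 30 * G.Bk k) (x := G.L k) (a := 5 * G.Bk k) σ0 (fun s => mul_pos four_pos (n0 s))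
    (fun s => d s _) (fun s => d s _) (fun s t ht => ⟨(w s t ht (a s) (a' s)).1,
      (w s t ht (a' s) (a s)).1, (w s t ht (a s) (a' s)).2, (w s t ht (a' s) (a s)).2⟩)
    (fun s t ht => ⟨r s t ht _ (a s), r s t ht _ (a' s)⟩) (fun t ht => hη t (ht.le.trans σ2)) η0
    (by exact_mod_cast (by omega : 2 ≤ 30 * G.Bk k)) (by push_cast; linarith) (by linarith)
    ?_).trans ?_
  · have e1 : G.bb (k + 1) ≤ (G.L k : ℝ) ^ (4 * G.Bk k) := h.sch.upp k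
    have e2 : G.Q k ^ 4000 ≤ (G.L k : ℝ) ^ G.Bk k := by
      rw [Q, ← pow_mul]
      exact pow_le_pow_right₀ (by linarith) (by omega)
    have e3 : 16 * G.Q k ^ 500 ≤ (G.L k : ℝ) ^ G.Bk k * (G.Q k ^ 485)⁻¹ := by
      rw [← div_eq_mul_inv, le_div_iff₀ (pow_pos q0 _), mul_assoc, ← pow_add]
      linarith [h.qpw k (i := 500 + 485) (j := 4000) (by norm_num), pow_pos q0 (500 + 485)]
    calc _ ≤ 16 * G.Q k ^ 500 * G.bb (k + 1) := by linarith [cA 0, cA 1]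
      _ ≤ (G.L k : ℝ) ^ G.Bk k * η * (G.L k : ℝ) ^ (4 * G.Bk k) :=
        mul_le_mul (e3.trans (by gcongr)) e1 (h.b0 _).le (by positivity)
      _ = _ := by ring
  · have e1 : (120 * G.Bk k : ℝ) ≤ G.L k := by
      exact_mod_cast (by unfold L LL; omega : 120 * G.Bk k ≤ G.L k)
    have e2 : 4 * (30 * G.Bk k : ℝ) * G.L k ≤ G.Q k := by
      nlinarith [h.LQ' k (i := 2) (by norm_num)]
    rw [div_le_iff₀ σ0]
    calc _ ≤ G.Q k * η := mul_le_mul_of_nonneg_right e2 η0.le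
      _ = G.Q k * η * (G.bb k * G.g k ^ 2) := by rw [h.bg, mul_one]
      _ = _ := by field_simp

theorem w_main (A : G.Tu b J) (go : G.Go J k) (hi : i = k + G.l k + 1) :
    |gm (G.N k) (G.fx k) (G.wf i (G.zz b J i) k 0) (dF (G.wf i (G.zz b J i) k)) -
      gm (G.N (k + 1)) (G.fx (k + 1)) (G.wf i (G.zz b J i) (k + 1) 0)
        (dF (G.wf i (G.zz b J i) (k + 1)))| ≤ G.g k ^ 2 / G.Q k ^ 80 ∧
    Asy (G.N (k + 1)) (G.fx (k + 1)) (G.Q k ^ 410 * G.g k ^ 2)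
      (lg (G.wf i (G.zz b J i) (k + 1) 0) (dF (G.wf i (G.zz b J i) (k + 1)))) := by
  have q0 := h.Q0 k
  have p : ∀ j, 0 < (G.N j : ℝ) ^ 4 * tq (G.N j) (G.fx j) ^ 2 := fun j =>
    mul_pos (pow_pos (Nat.cast_pos.2 (h.N_odd _).pos) _) (pow_pos (h.tq0 j) _)
  refine ⟨?_, fun ϑ a => ?_⟩
  · have := h.w_gen A go hi (j := ![k, k + 1]) (ϑ := 0) (E := G.bn (G.l k))
      (ϑ' := ![fl (G.N k) (G.fx k), fl (G.N (k + 1)) (G.fx (k + 1))])
      (c := fun s => (G.N (![k, k + 1] s) ^ 4 * tq (G.N (![k, k + 1] s))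
        (G.fx (![k, k + 1] s)) ^ 2)⁻¹) (Fin.forall_fin_two.2 ⟨.inl rfl, .inr rfl⟩)
      (fun s => fw_zero (h.tq0 _)) (Fin.forall_fin_two.2
        ⟨fw_fl (h.N_odd _).pos.ne' (h.tq0 _), fw_fl (h.N_odd _).pos.ne' (h.tq0 _)⟩)
      (fun s => (abs_of_pos (inv_pos.2 (p _))).le) le_rfl rfl fun t ht => by
        have := (h.w_real A go hi t ht).2.1
        simp only [bh, div_eq_inv_mul] at this
        exact this
    simp only [gm, div_eq_inv_mul]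
    exact this.trans_eq (by field_simp)
  · have key : ∀ ϑ', Fw (G.N (k + 1)) (G.fx (k + 1)) ϑ' → (∀ t : ℝ, |t| ≤ G.bb i / 200 →
        |log (G.wf i (G.zz b J i) (k + 1) t (ab ϑ')).re -
          log (G.wf i (G.zz b J i) (k + 1) t (ab ϑ)).re| ≤
            G.Q k ^ 5 * tq (G.N (k + 1)) (G.fx (k + 1)) ^ 2 * G.N (k + 1) ^ 4) →
        |lg (G.wf i (G.zz b J i) (k + 1) 0) (dF (G.wf i (G.zz b J i) (k + 1))) (ab ϑ') -
          lg (G.wf i (G.zz b J i) (k + 1) 0) (dF (G.wf i (G.zz b J i) (k + 1))) (ab ϑ)| ≤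
            G.Q k ^ 410 * G.g k ^ 2 * tq (G.N (k + 1)) (G.fx (k + 1)) ^ 2 * G.N (k + 1) ^ 4 :=
      fun ϑ' a' H => by
        have c0 := inv_pos.2 (p (k + 1))
        have := h.w_gen A go hi (j := fun _ => k + 1) (ϑ := fun _ => ϑ') (ϑ' := fun _ => ϑ) (E := 0)
          (c := ![(G.N (k + 1) ^ 4 * tq (G.N (k + 1)) (G.fx (k + 1)) ^ 2)⁻¹, 0]) (η := G.Q k ^ 5)
          (fun _ => .inr rfl) (fun _ => a') (fun _ => a)
          (Fin.forall_fin_two.2 ⟨(abs_of_pos c0).le, abs_zero.trans_le c0.le⟩)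
          ((inv_le_one_of_one_le₀ (one_le_pow₀ (h.Q1 k))).trans (one_le_pow₀ (h.Q1 k))) rfl
          fun t ht => by
            simp only [Matrix.cons_val_zero, Matrix.cons_val_one, zero_mul, sub_zero, add_zero,
              abs_mul, abs_of_pos c0]
            rw [inv_mul_le_iff₀ (p _)]
            exact (H t ht).trans_eq (by ring)
        simp only [Matrix.cons_val_zero, Matrix.cons_val_one, zero_mul, sub_zero, abs_mul,
          abs_of_pos c0] at this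
        rw [inv_mul_le_iff₀ (p _)] at this
        exact this.trans_eq (by ring)
    exact ⟨fun σ => key _ (a.pm σ) fun t ht => ((h.w_real A go hi t ht).2.2 ϑ a).1 σ,
      fun j => key _ (a.rf j) fun t ht => ((h.w_real A go hi t ht).2.2 ϑ a).2 j⟩

end Gl.Ok

end Pool.Agent.Lib.MP_7f377f_mp.RG.Q4.En
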