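import Pool.Agent.Lib.MP_7f377f_mp.G.Q5TanB
import Pool.Agent.Lib.MP_7f377f_mp.G.Q5TanW

/-! The tangent of a tuned run with respect to the bare coupling. -/

noncomputable section

set_option linter.unusedSectionVars false
variable [Pool.Agent.Lib.MP_7f377f_mp.GD]

namespace Pool.Agent.Lib.MP_7f377f_mp.RG.Q4.En

open Finset Real Sg

theorem Asy.congr {n : ℕ} {x D : ℝ} {F H : Conf → ℝ} (a : Asy n x D F)
    (e : ∀ ϑ, Fw n x ϑ → H (ab ϑ) = F (ab ϑ)) : Asy n x D H := fun ϑ h =>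
  ⟨fun σ => by rw [e _ h, e _ (h.pm σ)]; exact (a ϑ h).1 σ,
    fun j => by rw [e _ h, e _ (h.rf j)]; exact (a ϑ h).2 j⟩

theorem Asy.sub {n : ℕ} {x D α : ℝ} {F H : Conf → ℝ} (a : Asy n x 0 F) (a' : Asy n x D H) :
    Asy n x (|α| * D) fun U => F U - α * H U := by
  have w : ∀ {s s' t t' c : ℝ}, |s' - s| ≤ 0 * c * n ^ 4 → |t' - t| ≤ D * c * n ^ 4 →
      |s' - α * t' - (s - α * t)| ≤ |α| * D * c * n ^ 4 := fun h3 h4 => by
    rw [zero_mul, zero_mul, abs_nonpos_iff, sub_eq_zero] at h3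
    rw [h3, sub_sub_sub_cancel_left, ← mul_sub, abs_mul, abs_sub_comm, mul_assoc, mul_assoc,
      ← mul_assoc D]
    gcongr
  exact fun ϑ h => ⟨fun σ => w ((a ϑ h).1 σ) ((a' ϑ h).1 σ), fun j => w ((a ϑ h).2 j) ((a' ϑ h).2 j)⟩

namespace Gl

/-- the variation of the measured coupling with the bare coupling -/
def ga (G : Gl) (b : ℝ) (J k : ℕ) : ℝ := gm (G.N k) (G.fx k) (G.f b J k) (G.df b J k)

namespace Ok

variable {G : Gl} (h : G.Ok) {b x y : ℝ} {J i j k : ℕ} {d : Lx × Ac} {f' : Conf → ℂ}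
include h

theorem ep_le' (hj : k ≤ j) {i : ℕ} (hi : i < 499) : 1000 * G.ep j ≤ (G.Q k ^ i)⁻¹ := by
  have := h.Q0 k
  rw [← one_div, le_div_iff₀' (by positivity), mul_left_comm]
  refine le_trans ?_ (h.ep_le j hi)
  gcongr
  exacts [h.ep0 j, h.Q_mono hj]

variable (A : G.Tu b J)
include A

theorem df_asy (hk : k ≤ J) : Asy (G.N k) x 0 (lg (G.f b J k) (G.df b J k)) :=
  asy_of_sym ((h.f_facts J k).1 b A.b0).2.1 (h.df_sym hk)

theorem tr_imp (hk : k ≤ J) (a : G.Tr b J k x y d (G.df b J k)) (h1 : |G.ga b J k - 1| ≤ 2⁻¹)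
    (h2 : x + y ≤ G.Q k ^ 2) (h3 : y ≤ 10) : G.Tr b J k 1000 10 d (G.df b J k) := by
  have := h.tr_nb A hk a (h.df_asy A hk)
  refine h.tn_mono (h.tn_nb a) (sqrt_nonneg _) (this.trans ?_) h3
  have := abs_sub_abs_le_abs_sub (G.ga b J k) 1
  rw [abs_one, ga] at this
  rw [ga] at h1
  linarith [h.ep_le k (i := 2) (by norm_num), mul_le_mul_of_nonneg_left h2 (h.ep0 k)]

variable (hp : G.Pu)
include hp

/-- the change of the measured variation in one step -/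
theorem tr_gm (hk : k < J) (a : G.Tr b J (k + 1) x y d f') (h0 : 0 < x + y) :
    |gm (G.N k) (G.fx k) (G.f b J k) (TT (G.l k) (G.a k) (G.N k) f') -
      gm (G.N (k + 1)) (G.fx (k + 1)) (G.f b J (k + 1)) f'| ≤ (x + y) / G.Q k ^ 498 := by
  obtain ⟨a1, a2⟩ := h.tr_step A hp hk a h0
  have p := fun j => pow_le_pow_right₀ (h.Q1 j) (show 14 ≤ 250 by norm_num)
  have b1 := (h.tr_fd A hk.le a1 (p _) le_rfl).1
  have b2 := (h.tr_fd A hk a (p _) le_rfl).1
  have b3 := (Complex.abs_re_le_norm _).trans (a2 _ _ _ _ cv_e1 cv_e1)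
  have e1 := mul_le_mul_of_nonneg_right (h.ep_le' k.le_succ (i := 498) (by norm_num)) h0.le
  have e2 := mul_le_mul_of_nonneg_right (h.ep_le' (k := k) le_rfl (i := 498) (by norm_num)) h0.le
  have e3 := mul_le_mul_of_nonneg_right (h.sg_ep k) h0.le
  have e4 : x + G.Q k ^ 50 * √(G.g (k + 1)) * (x + y) + G.cr k * (x + y) ≤ 3 * (x + y) := by
    nlinarith only [e3, h.ep_le k (i := 0) (by norm_num), h.cr1 k, h0, (h.tn_nn a).2]
  have e5 := mul_le_mul_of_nonneg_left e4 (h.ep0 k)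
  have e6 := mul_nonneg (h.ep0 k) h0.le
  rw [Complex.sub_re, abs_le] at b3
  rw [abs_le] at b1 b2 ⊢
  unfold fx
  rw [div_eq_inv_mul (x + y)]
  constructor <;> linarith only [b1, b2, b3, e1, e2, e3, e5, e6]

/-- the marginal direction at the top of a long chain -/
theorem w_dir (go : G.Go J k) (hi : i = k + G.l k + 1) : ∃ w w', BC w' ∧ G.Tr b J i (G.L i) 1 w w' ∧
    |gm (G.N (k + 1)) (G.fx (k + 1)) (G.f b J (k + 1)) (G.tt w' i (k + 1)) - 1| ≤ 10⁻¹ ∧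
    |gm (G.N k) (G.fx k) (G.f b J k) (G.tt w' i k) -
      gm (G.N (k + 1)) (G.fx (k + 1)) (G.f b J (k + 1)) (G.tt w' i (k + 1))| ≤ G.g k ^ 2 / G.Q k ^ 80 ∧
    Asy (G.N (k + 1)) (G.fx (k + 1)) (G.Q k ^ 410 * G.g k ^ 2)
      (lg (G.f b J (k + 1)) (G.tt w' i (k + 1))) := by
  have iJ : i ≤ J := hi ▸ go.1
  have a := A.gd i iJ
  obtain ⟨κ, κ0, a1, a2, a3⟩ := h.tn_w a
  obtain ⟨b1, b2⟩ := h.w_main A go hi
  have n0 : ∀ j, G.N j ≠ 0 := fun j => (h.N_odd j).pos.ne'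
  have e : ∀ j ≤ i, ∀ ϑ, Fw (G.N j) (G.fx j) ϑ →
      lg (G.f b J j) (G.tt (fun U => κ * dF (G.wf i (G.zz b J i) i) U) i j) (ab ϑ) =
        lg (G.wf i (G.zz b J i) j 0) (dF (G.wf i (G.zz b J i) j)) (ab ϑ) := fun j hj ϑ c => by
    rw [lg, lg, tt_mul _ _ hj, a1 j hj iJ _ c.per, ← h.wf_dF a hj,
      mul_div_mul_left _ _ (Complex.ofReal_ne_zero.2 κ0.ne')]
  have e' := fun j hj => congrArg (· / (G.N j ^ 4 * tq (G.N j) (G.fx j) ^ 2)) (congrArg₂ (· - ·)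
    (e j hj _ (fw_zero (h.tq0 j))) (e j hj _ (fw_fl (n0 j) (h.tq0 j))))
  have k1 : k + 1 ≤ i := by omega
  refine ⟨_, _, (h.wf_h1 a le_rfl one_pos).bc.2.cm _, a2, ?_,
    (congrArg abs (congrArg₂ (· - ·) (e' k (by omega)) (e' _ k1))).trans_le b1, b2.congr (e _ k1)⟩
  have L1 := h.L1 i
  obtain ⟨c1, c2⟩ := h.tr_short A hp iJ (h.tn_mono a2 (sqrt_nonneg _) le_rfl (by linarith))
    (by linarith) (k := k) (by unfold L LL; omega) _ k1 k.le_succ
  have c3 := (h.tr_fd A (k1.trans iJ) c1 (pow_le_pow_right₀ (h.Q1 _) (by norm_num)) le_rfl).1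
  have c4 := (Complex.abs_re_le_norm _).trans c2
  have Q0 := h.Q0 k
  have LQ := (h.LQ i).trans (h.go_Q2 go hi.le)
  have d1 : G.L i / G.Q k ^ 400 ≤ 1000⁻¹ := by
    rw [div_le_iff₀ (by positivity)]; linarith [h.qpw k (show 2 < 400 by norm_num)]
  have d2 : 1000 * G.ep (k + 1) * G.L i ≤ 1 := (mul_le_mul (h.ep_le' k.le_succ (i := 2) (by norm_num))
    LQ (by linarith) (by positivity)).trans_eq (inv_mul_cancel₀ (by positivity))
  have d3 : ∀ j, 0 < j → 1000 * (G.Q i ^ j)⁻¹ ≤ 1 := fun j hj => by simpa using h.inv_le i hj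
  have c5 := A.v i iJ
  rw [Complex.sub_re] at c4
  rw [abs_le] at *
  unfold fx
  constructor <;> linarith only [c3, c4, c5, a3, d1, d2, d3 409 (by norm_num), d3 4000 (by norm_num),
    h.g_le i]

/-- a direction without marginal part at the bottom of a long chain is small there -/
theorem tr_small {D : ℝ} (hi : i = k + 1 + G.l k) (iJ : i ≤ J) (a : G.Tr b J i x y d f') (y0 : 0 < y)
    (y1 : y ≤ 1000) (hD : G.g k ^ 2 ≤ D)
    (h0 : gm (G.N (k + 1)) (G.fx (k + 1)) (G.f b J (k + 1)) (G.tt f' i (k + 1)) = 0)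
    (h1 : Asy (G.N (k + 1)) (G.fx (k + 1)) D (lg (G.f b J (k + 1)) (G.tt f' i (k + 1)))) :
    |gm (G.N k) (G.fx k) (G.f b J k) (G.tt f' i k)| ≤ 20000 * D / G.Q k ^ 498 := by
  obtain ⟨w, wt, a1, a2⟩ := h.tr_sys A hp iJ a y0
  have k1 : k + 1 ≤ i := by omega
  have Q0 := h.Q0 k
  have L1 := h.L1 k
  have D0 := (sq_nonneg _).trans hD
  have b1 := h.tr_nb A (k1.trans iJ) (a1 _ k1).2 h1
  have b2 := h.tr_gm A hp (k1.trans iJ) (a1 _ k1).2
    (add_pos_of_nonneg_of_pos (nb_nonneg _) (a1 _ k1).1)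
  rw [← tt_step _ k1, h0, sub_zero] at b2
  rw [h0, abs_zero] at b1
  refine b2.trans (div_le_div_of_nonneg_right ?_ (by positivity))
  obtain ⟨η, η0, η1, η2⟩ : ∃ η : ℝ, 0 ≤ η ∧ 8 * (G.L k * η) ≤ 1 ∧ ∀ j, k ≤ j → 64 * G.ep j ≤ η := by
    refine ⟨(8 * G.Q k)⁻¹, by positivity, ?_, fun j hj => ?_⟩
    · rw [← mul_assoc]
      exact mul_inv_le_one_of_le₀ (by linarith [h.LQ k]) (by positivity)
    · have := h.ep_le' hj (i := 1) (by norm_num)
      rw [pow_one] at this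
      rw [mul_inv]
      linarith [h.ep0 j]
  obtain ⟨c1, c2⟩ := two_sided_src (I := G.l k) (C := 1) (a := 5000 * D) (η := fun _ => η)
    (c := fun j => G.cr (k + 1 + j)) (s := 0) (t := 0) (σ := 5000 * D) (τ := 0) (γ := 1000⁻¹) (k := 0)
    (x := fun j => nb ((G.tc b J i d (k + 1 + j)).1 0)) (y := fun j => w (k + 1 + j))
    ⟨le_rfl, fun _ _ => η0, fun _ _ => by nlinarith only [η0, η1, L1], fun _ _ => (h.cr0 _).le,
      fun j _ => by linarith [h.cr1 (k + 1 + j), h.cr0 (k + 1 + j)]⟩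
    ⟨by
      have := mul_le_mul_of_nonneg_right (h.ep_le (k + 1) (i := 0) (by norm_num))
        (add_nonneg (nb_nonneg ((G.tc b J i d (k + 1)).1 0)) (a1 _ k1).1.le)
      simp only [add_zero]
      linarith only [this, b1, (a1 _ k1).1, D0], fun j hj => by
      have := nb_sub (a2 (k + 1 + j) (by omega)).2
      have p := add_nonneg (nb_nonneg ((G.tc b J i d (k + 1 + j + 1)).1 0))
        (a1 (k + 1 + j + 1) (by omega)).1.le
      have := mul_le_mul_of_nonneg_right ((mul_le_mul_of_nonneg_left (h.sg_ep (k + 1 + j))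
        (by norm_num)).trans (η2 _ (by omega))) p
      simp only [Pi.zero_apply, ← add_assoc]
      linarith [mul_nonneg η0 (nb_nonneg ((G.tc b J i d (k + 1 + j)).1 0))],
      fun j hj => by simp [(a2 (k + 1 + j) (by omega)).1, ← add_assoc]⟩
    (by
      rw [sum_const, card_range, nsmul_eq_mul]
      refine le_trans ?_ η1
      gcongr
      unfold L LL; omega) (by linarith) (fun _ _ => le_rfl) (by simp) le_rfl (fun _ _ => le_rfl)
    (by norm_num) (fun j _ => by linarith [h.cr1 (k + 1 + j)]) (by norm_num)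
    (a1 _ hi.ge).1.le (Nat.zero_le _)
  have c3 : (∏ j ∈ Ico 0 (G.l k), 2 * G.cr (k + 1 + j)) * w (k + 1 + G.l k) ≤ D := by
    have n := (h.sd_all k (G.top0 0 0)).nu.l_big
    have := h.cr_prod (k := k + 1) (i := i) (n := 4 * G.Bk k + 1) (by
      change _ * (_ + _ + _ + 4 * G.Bk k + 1) ≤ G.l k at n; omega)
    rw [prod_Ico_eq_prod_range, hi, Nat.add_sub_cancel_left, range_eq_Ico] at this
    rw [← hi, wt]
    refine (mul_le_mul this y1 y0.le (by positivity)).trans (le_trans ?_ hD)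
    have u : (G.L k : ℝ) ≤ G.L (k + 1) := Nat.cast_le.2 (h.L_mono k.le_succ)
    rw [eq_inv_of_mul_eq_one_right (h.bg k), inv_mul_le_iff₀ (pow_pos (by linarith) _),
      le_mul_inv_iff₀ (h.b0 k), pow_succ']
    exact mul_le_mul (L1.trans u) (((h.sch.le k).1.trans (h.sch.upp k)).trans
      (pow_le_pow_left₀ (by positivity) u _)) (h.b0 k).le (by linarith)
  simp only [add_zero] at c1 c2
  linarith only [c1, c2, c3, D0]

/-- the measured variation changes very little at a good level -/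
theorem gam_good (go : G.Go J k) (hi : i = k + G.l k + 1)
    (a : G.Tr b J i 1000 10 d (G.df b J i)) (h1 : |G.ga b J (k + 1) - 1| ≤ 10⁻¹) :
    |G.ga b J k - G.ga b J (k + 1)| ≤ G.g k ^ 2 / G.Q k ^ 79 := by
  have iJ : i ≤ J := hi ▸ go.1
  have k1 : k + 1 ≤ i := by omega
  obtain ⟨w, w', a1, a2, a3, a4, a5⟩ := h.w_dir A hp go hi
  have e : ∀ (α : ℝ), ∀ j ≤ i, G.tt (fun U => G.df b J i U - α * w' U) i j =
      fun U => G.df b J j U - α * G.tt w' i j U := fun α j hj => by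
    rw [tt_sub (df_bc iJ) a1 _ hj, df, tt_tt iJ j hj, df]
  generalize hW : gm (G.N (k + 1)) (G.fx (k + 1)) (G.f b J (k + 1)) (G.tt w' i (k + 1)) = W at a3 a4
  obtain ⟨α, α1, α2⟩ : ∃ α : ℝ, α * W = G.ga b J (k + 1) ∧ |α| ≤ 2 := by
    rw [abs_le] at a3 h1
    have : 0 < W := by linarith
    exact ⟨_ / W, div_mul_cancel₀ _ this.ne', abs_le.2
      ⟨by rw [le_div_iff₀ this]; linarith, by rw [div_le_iff₀ this]; linarith⟩⟩
  have Q0 := h.Q0 k
  have g0 := h.g0 k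
  have c := h.tr_small A hp (k := k) (D := 2 * (G.Q k ^ 410 * G.g k ^ 2)) (by omega) iJ
    (h.tn_sub (α := α) a a2 (sqrt_nonneg _) fun e =>
      (((h.f_facts J i).1 b A.b0).2.2 1).2.ne' (congrArg _ e)) (by positivity) (by linarith)
    (by nlinarith only [one_le_pow₀ (n := 410) (h.Q1 k), sq_nonneg (G.g k)])
    (by rw [e α _ k1, gm_sub, hW, α1, ga, sub_self]) (by
      rw [e α _ k1, lg_sub]
      exact fun ϑ c => have := (h.df_asy A (k1.trans iJ)).sub (α := α) a5 ϑ c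
        ⟨fun σ => (this.1 σ).trans (by gcongr), fun j => (this.2 j).trans (by gcongr)⟩)
  rw [e α _ (by omega), gm_sub, ← ga] at c
  have d1 : 20000 * (2 * (G.Q k ^ 410 * G.g k ^ 2)) / G.Q k ^ 498 ≤ G.g k ^ 2 / G.Q k ^ 80 := by
    rw [div_le_div_iff₀ (by positivity) (by positivity)]
    nlinarith only [mul_le_mul_of_nonneg_right (h.cQ k (C := 40000) (by norm_num))
      (show 0 ≤ G.Q k ^ 490 * G.g k ^ 2 by positivity), mul_le_mul_of_nonneg_right
        (pow_le_pow_right₀ (h.Q1 k) (show 491 ≤ 498 by norm_num)) (sq_nonneg (G.g k))]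
  have d2 : 3 * (G.g k ^ 2 / G.Q k ^ 80) ≤ G.g k ^ 2 / G.Q k ^ 79 := by
    simp only [div_eq_mul_inv]
    nlinarith only [h.inv_le k (show 79 < 80 by norm_num), sq_nonneg (G.g k),
      show 0 ≤ G.g k ^ 2 * (G.Q k ^ 80)⁻¹ by positivity]
  have d3 := mul_le_mul α2 a4 (abs_nonneg _) zero_le_two
  rw [← abs_mul, mul_sub, α1] at d3
  linarith only [c, d1, d2, d3,
    abs_sub_le (G.ga b J k) (α * gm (G.N k) (G.fx k) (G.f b J k) (G.tt w' i k)) (G.ga b J (k + 1))]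

theorem tan_all : ∀ k ≤ J, ∀ j ≤ J, k ≤ j →
    G.Tr b J j 1000 10 (G.tu b J j) (G.df b J j) ∧ |G.ga b J j - 1| ≤ (G.Q j ^ 78)⁻¹ := by
  have q : ∀ j, (G.Q j ^ 78)⁻¹ ≤ 10⁻¹ := fun j =>
    inv_anti₀ (by norm_num) ((h.cQ j (by norm_num)).trans (le_self_pow₀ (h.Q1 j) (by norm_num)))
  have q2 : ∀ j, 10 ^ 37 + 1 ≤ G.Q j ^ 2 := fun j => by nlinarith [h.cQ j (C := 10 ^ 20) le_rfl]
  obtain ⟨t1, t2⟩ := h.tn_top (zz_top b J ▸ A.gd J le_rfl)
  rw [← zz_top] at t1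
  have t3 : |G.ga b J J - 1| ≤ (G.Q J ^ 78)⁻¹ / 2 := by
    have := (h.tr_fd A le_rfl t1 (pow_le_pow_right₀ (h.Q1 _) (by norm_num)) le_rfl).1
    have Q0 := h.Q0 J
    have a := mul_le_mul (h.ep_le' (j := J) le_rfl (i := 80) (by norm_num)) (q2 J) (by norm_num)
      (by positivity)
    rw [show (G.Q J ^ 80)⁻¹ * G.Q J ^ 2 = (G.Q J ^ 78)⁻¹ by field_simp] at a
    rw [t2, Complex.one_re] at this
    exact this.trans (by linarith [h.ep0 J])
  refine dw_ind (fun j h1 h2 => ?_) fun k hk ih j h1 h2 => ?_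
  · obtain rfl := h1.antisymm h2
    exact ⟨h.tr_imp A le_rfl t1 (by linarith [q j]) (q2 j) (by norm_num),
      by linarith [abs_nonneg (G.ga b j j - 1)]⟩
  rcases h2.lt_or_eq with h3 | rfl
  · exact ih j h1 h3
  have Q0 := h.Q0 k
  have s : ∀ j < J, G.df b J j = TT (G.l j) (G.a j) (G.N j) (G.df b J (j + 1)) := fun j => tt_step _
  have a : |G.ga b J k - 1| ≤ (G.Q k ^ 78)⁻¹ := by
    have a1 := (dist_le_Ico_sum_dist (G.ga b J) h1).trans (h.tail (i := 78) (fun j hj => ?_)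
      fun j hj c => ?_)
    · have a2 : (G.Q J ^ 78)⁻¹ ≤ (G.Q k ^ 78)⁻¹ := by gcongr; exact h.Q_mono h1
      have a3 : 82 / G.L k / G.Q k ^ 78 ≤ (G.Q k ^ 78)⁻¹ / 2 := by
        rw [div_eq_inv_mul, div_eq_mul_inv _ 2]
        gcongr
        rw [div_le_iff₀] <;> linarith [h.L1 k]
      linarith [abs_sub_le (G.ga b J k) (G.ga b J J) 1, dist_eq (G.ga b J k) (G.ga b J J)]
    · obtain ⟨j1, j2⟩ := mem_Ico.1 hj
      have := h.tr_gm A hp j2 (ih _ j2 (by omega)).1 (by norm_num)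
      have Q0 := h.Q0 j
      rw [← s j j2] at this
      refine this.trans ?_
      rw [div_le_div_iff₀ (by positivity) (by positivity)]
      linarith [h.qpw j (show 78 + 1 < 80 by norm_num), h.qpw j (show 80 < 498 by norm_num),
        pow_pos Q0 (78 + 1)]
    · obtain ⟨j1, j2⟩ := mem_Ico.1 hj
      simp only [Bad, not_or, not_le, not_not] at c
      exact h.gam_good A hp ⟨c.2.1, c.2.2⟩ rfl (ih _ c.2.1 (by omega)).1
        ((ih _ j2 (by omega)).2.trans (q _))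
  have c := (h.tr_step A hp hk (ih _ hk le_rfl).1 (by norm_num)).1
  rw [← s k hk, tu, ← tc_step _ hk] at c
  have e := (h.sg_ep k).trans (by linarith [h.ep_le k (i := 0) (by norm_num), h.ep0 k] : _ ≤ (1 : ℝ))
  exact ⟨h.tr_imp A h1 c (by linarith [q k]) (by linarith [q2 k, h.cr1 k])
    (by linarith [h.cr1 k]), a⟩

omit A hp in
/-- the tangent of a tuned run is marginal, with coefficient close to one -/
theorem tan_main (hp : G.Pu) (A : G.Tu b J) (hk : k ≤ J) :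
    G.Tn k (G.zz b J k) (G.zz b J k).d (G.f b J k) 1000 10 √(G.g k) (G.tu b J k) (G.df b J k) ∧
      ∀ P, G.Q k ^ 14 ≤ P → P ≤ G.Q k ^ 250 →
        |gm (G.N k) (G.g k / P) (G.f b J k) (G.df b J k) - 1| ≤ (G.Q k ^ 60)⁻¹ ∧
        ∀ a a' δ δ', Cv 0 δ a → Cv 0 δ' a' → ‖qc ((G.tu b J k).1 0) a a' -
          (gm (G.N k) (G.g k / P) (G.f b J k) (G.df b J k) * m0 a a' : ℝ)‖ ≤
            G.Q k ^ 505 * √(G.g k) * δ * δ' := by
  obtain ⟨a1, a2⟩ := h.tan_all A hp k hk k hk le_rfl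
  refine ⟨a1, fun P P1 P2 => ?_⟩
  obtain ⟨b1, b2⟩ := h.tr_fd A hk a1 P1 P2
  have b3 := (h.tr_fd A hk a1 (pow_le_pow_right₀ (h.Q1 _) (by norm_num)) le_rfl).1
  have e0 := h.ep0 k
  refine ⟨?_, fun a a' δ δ' h1 h2 => ?_⟩
  · have := h.ep_le' (j := k) le_rfl (i := 78) (by norm_num)
    rw [ga, fx] at a2
    rw [abs_le] at *
    constructor <;> linarith [h.inv_le k (show 60 < 78 by norm_num)]
  have c := mul_le_mul ((abs_sub_comm _ _).trans_le b1) (m0_le h1 h2) (abs_nonneg _) (by linarith)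
  rw [← abs_mul, sub_mul, ← norm_eq_abs, ← Complex.norm_real, Complex.ofReal_sub] at c
  have d0 := mul_nonneg e0 (mul_nonneg h1.nonneg h2.nonneg)
  have d1 := mul_le_mul_of_nonneg_right (h.qpw k (show 0 < 4 by norm_num)) d0
  refine ((norm_sub_le_norm_sub_add_norm_sub _ _ _).trans (add_le_add
    (b2 0 (h.df_asy A hk) a a' δ δ' h1 h2) c)).trans ?_
  rw [pow_add _ 4 501, mul_assoc _ _ √_, ← ep]
  generalize G.ep k = e at *
  linarith only [d0, d1]

end Ok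

end Gl

end Pool.Agent.Lib.MP_7f377f_mp.RG.Q4.En
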