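import Pool.Agent.Lib.MP_7f377f_mp.G.Q4MeasKer

/-! Invariance of the effective densities. -/

noncomputable section

set_option linter.unusedSectionVars false
variable [Pool.Agent.Lib.MP_7f377f_mp.GD]

namespace Pool.Agent.Lib.MP_7f377f_mp.RG.Q4

open Finset Ms MeasureTheory Measure
open scoped ENNReal

namespace Mx

theorem rc_iff {n : ℕ} {x y : St} : rc n x = rc n y ↔ Cg n x y := ⟨cg_of_rc, rc_cg⟩

theorem cg_add_iff {n : ℕ} {x y : St} (v : St) : Cg n (x + v) (y + v) ↔ Cg n x y := by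
  simp [Cg]

theorem cg_pz {n : ℕ} {x y : St} (σ : Equiv.Perm (Fin 4)) : Cg n (pz σ x) (pz σ y) ↔ Cg n x y :=
  ⟨fun h i => by simpa [pz] using h (σ i), fun h _ => h _⟩

theorem cg_rz {n : ℕ} {x y : St} (k : Fin 4) : Cg n (rz k x) (rz k y) ↔ Cg n x y := by
  refine forall_congr' fun i => ?_
  simp only [rz]
  split_ifs
  · rw [neg_sub_neg, dvd_sub_comm]
  · rfl

/-- reduction of links -/
def rl (n : ℕ) (e : Lk) : Lk := (rc n e.1, e.2)

theorem rl_iff {n : ℕ} {i j : Lk} : rl n i = rl n j ↔ Cg n i.1 j.1 ∧ i.2 = j.2 := by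
  rw [rl, rl, Prod.mk.injEq, rc_iff]

theorem rl_rl (n : ℕ) (e : Lk) : rl n (rl n e) = rl n e := by simp only [rl, rc_rc]

/-- reflection of links -/
def rlk (k : Fin 4) (e : Lk) : Lk := (rz k e.1 + if e.2 = k then -un k else 0, e.2)

theorem rfl1_eq {α : Type} (iv : α → α) (k : Fin 4) (U : Lk → α) (e : Lk) :
    rfl1 iv k U e = (if e.2 = k then iv else id) (U (rlk k e)) := by
  obtain ⟨x, μ⟩ := e
  by_cases h : μ = k
  · subst h
    simp [rfl1_self, rlk, sub_eq_add_neg]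
  · simp [rfl1_ne _ h, rlk, h]

theorem rel_sh (n : ℕ) (v : St) (i j : Lk) :
    rl n (i.1 + v, i.2) = rl n (j.1 + v, j.2) ↔ rl n i = rl n j := by
  simp only [rl_iff, cg_add_iff]

theorem rel_pm (n : ℕ) (σ : Equiv.Perm (Fin 4)) (i j : Lk) :
    rl n (pz σ i.1, σ i.2) = rl n (pz σ j.1, σ j.2) ↔ rl n i = rl n j := by
  simp only [rl_iff, cg_pz, σ.injective.eq_iff]

theorem rel_rfl (n : ℕ) (k : Fin 4) (i j : Lk) :
    rl n (rlk k i) = rl n (rlk k j) ↔ rl n i = rl n j := by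
  simp only [rl_iff, rlk]
  refine and_congr_left fun h => ?_
  rw [h, cg_add_iff, cg_rz]

theorem map_sh (n : ℕ) (v : St) : PP.map (fun U => sh v (pc n U)) = PP.map (pc n) :=
  map_rel haar (T := fun _ => id) (fun _ => MeasurePreserving.id _) (rl_rl n) (rel_sh n v)
    fun _ => rfl

theorem map_pm (n : ℕ) (σ : Equiv.Perm (Fin 4)) :
    PP.map (fun U => pm σ (pc n U)) = PP.map (pc n) :=
  map_rel haar (T := fun _ => id) (fun _ => MeasurePreserving.id _) (rl_rl n) (rel_pm n σ)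
    fun _ => rfl

theorem map_rfl (n : ℕ) (k : Fin 4) :
    PP.map (fun U => rfl1 Inv.inv k (pc n U)) = PP.map (pc n) := by
  have : haar.IsInvInvariant := Weak.haar_inv haar
  refine Eq.trans ?_ (map_rel haar (T := fun e => if e.2 = k then Inv.inv else id) (fun e => ?_)
    (rl_rl n) (rel_rfl n k) fun _ => rfl)
  · congr 1
    funext U e
    exact rfl1_eq _ _ _ _
  · split_ifs
    · exact measurePreserving_inv haar
    · exact MeasurePreserving.id _

theorem map_gauge {n : ℕ} {u : St → S3} (hu : Ms.PS n u) :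
    PP.map (fun U => gauge Inv.inv u (pc n U)) = PP.map (pc n) := by
  conv_rhs => rw [← (mp_gauge u).map_eq, map_map (cont_pc n).measurable (mp_gauge u).measurable]
  simp only [Function.comp_def, pc_gauge hu]

theorem int_rel {l n N : ℕ} {G : Conf × (St → Om) → ℂ} (hG : Measurable G) {S : Conf → Conf}
    {S' : (St → Om) → St → Om} (hS : Measurable S) (hS' : Measurable S')
    (h1 : PP.map S = PP.map (pc N)) (h2 : (OO l).map S' = (OO l).map (pcs n)) :
    ∫ v, G (S v.1, S' v.2) ∂PP.prod (OO l) = ∫ v, G (pc N v.1, pcs n v.2) ∂PP.prod (OO l) := by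
  have e1 := integral_map (μ := PP.prod (OO l)) (hS.prodMap hS').aemeasurable
    hG.aestronglyMeasurable
  have e2 := integral_map (μ := PP.prod (OO l))
    ((cont_pc N).measurable.prodMap (meas_pcs (α := Om) n)).aemeasurable hG.aestronglyMeasurable
  rw [← map_prod_map _ _ hS hS', h1, h2] at e1
  rw [← map_prod_map _ _ (cont_pc N).measurable (meas_pcs n)] at e2
  exact e1.symm.trans e2

/-- the integrand of a step -/
def Itg (bk : Conf → (St → Om) → Conf) (l : ℕ) (a : ℝ) (n : ℕ) (f : Conf → ℂ) (W : Conf)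
    (v : Conf × (St → Om)) : ℂ := f v.1 * (ker bk l a n W v.1 v.2 : ℝ)

theorem TT_eq (l : ℕ) (a : ℝ) (n : ℕ) (f : Conf → ℂ) (W : Conf) : TT l a n f W =
    ∫ v, Itg (blk l) l a n f W (pc (LL l * n) v.1, pcs n v.2) ∂PP.prod (OO l) := rfl

theorem meas_Itg {bk : Conf → (St → Om) → Conf} (l : ℕ) (a : ℝ) (n : ℕ) {f : Conf → ℂ}
    (hb : Measurable fun v : Conf × (St → Om) => bk v.1 v.2) (hf : Measurable f) :
    Measurable fun v : Conf × Conf × (St → Om) => Itg bk l a n f v.1 v.2 :=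
  (hf.comp (measurable_fst.comp measurable_snd)).mul
    (Complex.measurable_ofReal.comp (meas_ker l a n hb))

theorem meas_Itg' {bk : Conf → (St → Om) → Conf} (l : ℕ) (a : ℝ) (n : ℕ) {f : Conf → ℂ}
    (hb : Measurable fun v : Conf × (St → Om) => bk v.1 v.2) (hf : Measurable f) (W : Conf) :
    Measurable (Itg bk l a n f W) := by
  have := (meas_Itg l a n hb hf).comp (measurable_prodMk_left (x := W))
  simpa only [Function.comp_def] using this

theorem Itg_bd (l : ℕ) (a : ℝ) (n : ℕ) : ∃ C : ℝ, 0 ≤ C ∧ ∀ bk (f : Conf → ℂ) M W v,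
    (∀ U, ‖f U‖ ≤ M) → ‖Itg bk l a n f W v‖ ≤ M * C := by
  obtain ⟨C, h⟩ := ker_bd l a n
  refine ⟨C, (h (blk l) 1 1 fun _ => (0, 1)).1.trans (h _ _ _ _).2, fun bk f M W v hf => ?_⟩
  rw [Itg, norm_mul, Complex.norm_real, Real.norm_of_nonneg (h _ _ _ _).1]
  exact mul_le_mul (hf _) (h _ _ _ _).2 (h _ _ _ _).1 ((norm_nonneg _).trans (hf 1))

theorem meas_pp (N n : ℕ) : Measurable fun v : Conf × (St → Om) => (pc N v.1, pcs n v.2) :=
  (cont_pc N).measurable.prodMap (meas_pcs n)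

theorem meas_TT (l : ℕ) (a : ℝ) (n : ℕ) {f : Conf → ℂ} (hf : Measurable f) :
    Measurable (TT l a n f) := by
  have h := (meas_Itg l a n (measurable_blk l) hf).comp
    ((measurable_id (α := Conf)).prodMap (meas_pp (LL l * n) n))
  exact (h.stronglyMeasurable.integral_prod_right' (ν := PP.prod (OO l))).measurable

theorem TT_bd (l : ℕ) (a : ℝ) (n : ℕ) : ∃ C : ℝ, ∀ (f : Conf → ℂ) M W,
    (∀ U, ‖f U‖ ≤ M) → ‖TT l a n f W‖ ≤ M * C := by
  obtain ⟨C, -, h⟩ := Itg_bd l a n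
  refine ⟨C, fun f M W hf => ?_⟩
  rw [TT_eq]
  simpa using norm_integral_le_of_norm_le_const (μ := PP.prod (OO l))
    (.of_forall fun v => h (blk l) f M W (pc (LL l * n) v.1, pcs n v.2) hf)

theorem Hk_gauge (a : ℝ) (n : ℕ) (u : St → S3) (W B : Conf) :
    Hk a n (gauge Inv.inv u W) (gauge Inv.inv u B) = Hk a n W B := by
  refine prod_congr rfl fun b _ => ?_
  rw [← hk_conj a (u b.1) (W b * _)]
  congr 1
  simp only [gauge]
  group

theorem Wt_gauge (l n : ℕ) (u : St → S3) (U : Conf) (ω : St → Om) :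
    Wt l n (gauge Inv.inv u U) ω = Wt l n U ω := by simp only [Wt, sh_gauge, wt_gauge]

theorem PL_blk {l n : ℕ} {V : Conf} {ω : St → Om} (hV : PL (LL l * n) V) (hω : Ms.PS n ω) :
    PL n (blk l V ω) := fun x y μ h => by
  simp only [blk]
  rw [sh_cg hV (cg_up h), hω _ _ h, hω _ _ (h.add _)]

theorem ker_rel {l n : ℕ} {a : ℝ} (hn : Odd n) {W V W' V' : Conf} {ω ω' : St → Om} (hW : PL n W)
    (hV : PL (LL l * n) V) (hω : Ms.PS n ω) {φ : St → St} {ψ : Lk → Lk}
    (h1 : ∀ x y, Cg n (φ x) (φ y) ↔ Cg n x y) (h2 : ∀ i j, rl n (ψ i) = rl n (ψ j) ↔ rl n i = rl n j)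
    (h3 : ∀ y, wt l (sh (up l y) V') (ω' y) = wt l (sh (up l (φ y)) V) (ω (φ y)))
    (h4 : ∀ b, hk a (W' b * (blk l V' ω' b)⁻¹) = hk a (W (ψ b) * (blk l V ω (ψ b))⁻¹)) :
    ker (blk l) l a n W' V' ω' = ker (blk l) l a n W V ω := by
  simp only [ker, h3, h4]
  congr 1
  · exact prod_rel (r := rc n) (g := fun y => wt l (sh (up l y) V) (ω y)) (rc_box hn)
      (fun _ => rc_id hn) (fun i j h => rc_cg ((h1 _ _).1 (cg_of_rc h))) fun y => by
        rw [sh_cg hV (cg_up (cg_rc n y)), hω _ _ (cg_rc n y)]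
  · exact prod_rel (r := rl n) (g := fun b => hk a (W b * (blk l V ω b)⁻¹))
      (fun b => mem_lbox.2 (rc_box hn _)) (fun b hb => by rw [rl, rc_id hn (mem_lbox.1 hb)])
      (fun i j => (h2 i j).1) fun b => by
        rw [rl, hW _ _ _ (cg_rc n _), PL_blk hV hω _ _ _ (cg_rc n _)]

theorem opm_inv (σ : Equiv.Perm (Fin 4)) (ω : Om) : opm σ (opm σ⁻¹ ω) = ω :=
  Prod.ext (inv_pz _ _) (mul_inv_cancel_left _ _)

theorem orf_orf (k : Fin 4) (ω : Om) : orf k (orf k ω) = ω := Prod.ext (rz_rz _ _) rfl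

end Mx

open Mx

theorem GI.step {l n : ℕ} {a : ℝ} (ha : 0 ≤ a) (hn : Odd n) {f : Conf → ℂ} (h : GI (LL l * n) f) :
    GI n (TT l a n f) := by
  have _ := ha
  have _ := hn
  obtain ⟨hm, ⟨M, hM⟩, hg⟩ := h
  obtain ⟨C, hC⟩ := TT_bd l a n
  refine ⟨meas_TT l a n hm, ⟨_, fun W => hC f M W hM⟩, fun u W hu _ => ?_⟩
  have hv : Ms.PS (LL l * n) fun x => u (yo l x) := fun x y h => PS_iff.1 hu _ _ h.yo
  rw [TT_eq, TT_eq, ← int_rel (meas_Itg' l a n (measurable_blk l) hm _)
    ((mp_gauge fun x => u (yo l x)).measurable.comp (cont_pc _).measurable) (meas_pcs n)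
    (map_gauge hv) rfl]
  refine integral_congr_ae (.of_forall fun v => ?_)
  simp only [Itg, Function.comp, hg _ _ (PS_iff.2 hv) (per_pc _ _), ker_eq, Wt_gauge,
    (blk_gauge _ _ _ _).1, yo_up, Hk_gauge]

theorem Sym.step {l n : ℕ} {a : ℝ} (ha : 0 ≤ a) (hn : Odd n) {f : Conf → ℂ} (h : GI (LL l * n) f)
    (hs : Sym (LL l * n) f) : Sym n (TT l a n f) := by
  have _ := ha
  intro W hW
  have hW' := per_iff.1 hW
  have hm := fun W => meas_Itg' l a n (measurable_blk l) h.1 W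
  have hp := (cont_pc (LL l * n)).measurable
  refine ⟨fun x => ?_, fun σ => ?_, fun k => ?_⟩
  · rw [TT_eq, TT_eq, ← int_rel (hm _) ((cont_sh _).measurable.comp hp)
      (S' := fun ω y => pcs n ω (y + x)) (measurable_pi_lambda _ fun _ => measurable_pi_apply _)
      (map_sh _ (up l x)) (map_rel (unO l) (T := fun _ => id) (fun _ => MeasurePreserving.id _)
        (rc_rc n) (fun _ _ => by simp only [rc_iff, cg_add_iff]) fun _ => rfl)]
    refine integral_congr_ae (.of_forall fun v => ?_)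
    simp only [Itg, Function.comp, (hs _ (per_pc _ _)).1]
    rw [ker_rel hn hW' (PL_pc _ _) (PS_pcs _ _) (fun _ _ => cg_add_iff x) (rel_sh n x)
      (fun y => by rw [sh_sh, up_add]) fun b => by rw [blk_sh]; rfl]
  · have hT := mp_unO l (T := opm σ⁻¹) (Function.bijective_iff_has_inverse.2
      ⟨opm σ, opm_inv σ, opm_inv σ⁻¹⟩) fun ω => pz_box _ _
    rw [TT_eq, TT_eq, ← int_rel (hm _) ((cont_pm _).measurable.comp hp)
      (S' := fun ω y => opm σ⁻¹ (pcs n ω (pz σ y)))
      (measurable_pi_lambda _ fun _ => hT.measurable.comp (measurable_pi_apply _))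
      (map_pm _ σ) (map_rel (unO l) (fun _ => hT)
        (rc_rc n) (fun _ _ => by simp only [rc_iff, cg_pz]) fun _ => rfl)]
    refine integral_congr_ae (.of_forall fun v => ?_)
    simp only [Itg, Function.comp, (hs _ (per_pc _ _)).2.1]
    rw [ker_rel hn hW' (PL_pc _ _) (PS_pcs _ _) (fun _ _ => cg_pz σ) (rel_pm n σ)
      (fun y => by rw [sh_pm, wt_pm, opm_inv, pz_up]) fun b => by
        rw [blk_pm σ l _ fun y => opm_inv _ _]; rfl]
  · have hT := mp_unO l (T := orf k) (Function.Involutive.bijective (orf_orf k))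
      fun ω => rz_box _ _
    have hr : Continuous fun U : Conf => rfl1 Inv.inv k U := continuous_pi fun e => by
      unfold rfl1
      split_ifs <;> fun_prop
    rw [TT_eq, TT_eq, ← int_rel (hm _) (hr.measurable.comp hp)
      (S' := fun ω y => orf k (pcs n ω (rz k y)))
      (measurable_pi_lambda _ fun _ => hT.measurable.comp (measurable_pi_apply _))
      (map_rfl _ k) (map_rel (unO l) (fun _ => hT)
        (rc_rc n) (fun _ _ => by simp only [rc_iff, cg_rz]) fun _ => rfl)]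
    refine integral_congr_ae (.of_forall fun v => ?_)
    simp only [Itg, Function.comp, (hs _ (per_pc _ _)).2.2]
    rw [ker_rel hn hW' (PL_pc _ _) (PS_pcs _ _) (fun _ _ => cg_rz k) (rel_rfl n k)
      (fun y => by rw [sh_rfl, wt_rfl, orf_orf, rz_up]) fun b => ?_]
    rw [blk_rfl k l _ fun y => orf_orf _ _, rfl1_eq, rfl1_eq]
    split_ifs
    · rw [← hk_inv, ← Mx.hk_conj a (blk l (pc (LL l * n) v.1) (pcs n v.2) (rlk k b))]
      congr 1
      group
    · rfl

namespace Mx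

theorem TT_pos {l n : ℕ} (a : ℝ) (hn : Odd n) {f : Conf → ℂ} (h : GI (LL l * n) f)
    (hp : ∀ U, (f U).im = 0 ∧ 0 < (f U).re) (W : Conf) :
    (TT l a n f W).im = 0 ∧ 0 < (TT l a n f W).re := by
  obtain ⟨hm, ⟨M, hM⟩, -⟩ := h
  obtain ⟨C, -, hC⟩ := Itg_bd l a n
  obtain ⟨c, C', c0, hc⟩ := Hk_bd a n
  obtain ⟨C2, hC2⟩ := Wt_bd l n
  have hi : Integrable (fun v : Conf × (St → Om) => Itg (blk l) l a n f W
      (pc (LL l * n) v.1, pcs n v.2)) (PP.prod (OO l)) :=
    .of_bound ((meas_Itg' l a n (measurable_blk l) hm W).comp (meas_pp _ _)).aestronglyMeasurable _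
      (.of_forall fun v => hC _ _ M _ _ hM)
  have h1 : Measurable fun U => (f (pc (LL l * n) U)).re :=
    Complex.measurable_re.comp (hm.comp (cont_pc _).measurable)
  have h2 : ∀ U, |(f U).re| ≤ M := fun U => (Complex.abs_re_le_norm _).trans (hM U)
  have hj : Integrable (fun v : Conf × (St → Om) => (f (pc (LL l * n) v.1)).re *
      Wt l n (pc (LL l * n) v.1) v.2) (PP.prod (OO l)) := by
    have h3 := (meas_Wt l n).comp ((cont_pc (LL l * n)).measurable.prodMap measurable_id)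
    refine .of_bound ((h1.comp measurable_fst).mul h3).aestronglyMeasurable (M * C2)
      (.of_forall fun v => ?_)
    rw [norm_mul, Real.norm_of_nonneg (hC2 _ _).1]
    exact mul_le_mul (h2 _) (hC2 _ _).2 (hC2 _ _).1 ((abs_nonneg _).trans (h2 1))
  rw [TT_eq]
  constructor
  · refine (integral_im hi).symm.trans ?_
    simp [Itg, (hp _).1]
  · refine lt_of_lt_of_le ?_ ((integral_mono (hj.mul_const c) hi.re fun v => ?_).trans_eq
      (integral_re hi))
    · rw [integral_mul_const, integral_prod _ hj]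
      simp only [integral_const_mul, int_Wt, mul_one]
      refine mul_pos ((integral_pos_iff_support_of_nonneg (fun U => (hp _).2.le)
        (.of_bound h1.aestronglyMeasurable M (.of_forall fun U => h2 _))).2 ?_) c0
      rw [Set.eq_univ_of_forall (s := Function.support _) fun U => (hp _).2.ne']
      simp
    · have e : Wt l n (pc (LL l * n) v.1) (pcs n v.2) = Wt l n (pc (LL l * n) v.1) v.2 :=
        prod_congr rfl fun y hy => by rw [pcs, rc_id hn hy]
      simp only [Itg, RCLike.re_to_complex, Complex.mul_re, Complex.ofReal_re, Complex.ofReal_im,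
        mul_zero, sub_zero, ker_eq, e, mul_assoc]
      exact mul_le_mul_of_nonneg_left (mul_le_mul_of_nonneg_left (hc _ _).1 (hC2 _ _).1)
        (hp _).2.le

/-- the Wilson action -/
def wact (n : ℕ) (U : Conf) : ℝ := ∑ x ∈ box (n / 2), wd (sh x U)

theorem wd_sh (x : St) (U : Conf) : wd (sh x U) = 2⁻¹ * ∑ μ, ∑ ν, fq U x μ ν ^ 2 := by
  simp only [wd, fq_sh, zero_add, Fin.sum_univ_four, fq_self, fq_symm U x 1 0, fq_symm U x 2 0,
    fq_symm U x 3 0, fq_symm U x 2 1, fq_symm U x 3 1, fq_symm U x 3 2]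
  simp
  ring

theorem cont_wact (n : ℕ) : Continuous (wact n) := by
  simp only [funext fun U => show wact n U = _ from sum_congr rfl fun x _ => wd_sh x U]
  have := cont_fq
  fun_prop

theorem sum_rel {n : ℕ} (hn : Odd n) {φ : St → St} (h : ∀ x y, Cg n (φ x) (φ y) → Cg n x y)
    {U : Conf} (hU : Per n U) (μ ν : Fin 4) :
    ∑ x ∈ box (n / 2), fq U (φ x) μ ν ^ 2 = ∑ x ∈ box (n / 2), fq U x μ ν ^ 2 :=
  prod_rel (M := Multiplicative ℝ) (r := rc n) (g := fun x => fq U x μ ν ^ 2) (rc_box hn)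
    (fun _ => rc_id hn) (fun i j h' => rc_cg (h _ _ (cg_of_rc h'))) fun x => by
      have := fq_sh (rc n x) U 0 μ ν
      rw [sh_cg (per_iff.1 hU) (cg_rc n x), fq_sh, zero_add, zero_add] at this
      exact congrArg (· ^ 2) this.symm

theorem wact_eq (n : ℕ) (U : Conf) :
    wact n U = 2⁻¹ * ∑ μ, ∑ ν, ∑ x ∈ box (n / 2), fq U x μ ν ^ 2 := by
  simp only [wact, wd_sh, ← mul_sum]
  rw [Finset.sum_comm]
  exact congrArg _ (sum_congr rfl fun _ _ => Finset.sum_comm)

theorem wact_sym {n : ℕ} (hn : Odd n) {U : Conf} (hU : Per n U) : (∀ x, wact n (sh x U) = wact n U) ∧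
    (∀ σ, wact n (pm σ U) = wact n U) ∧ ∀ k, wact n (rfl1 Inv.inv k U) = wact n U := by
  refine ⟨fun v => ?_, fun σ => ?_, fun k => ?_⟩
  · simp only [wact_eq, fq_sh, sum_rel hn (fun _ _ => (cg_add_iff v).1) hU]
  · simp only [wact_eq, fq_pm, sum_rel hn (fun _ _ => (cg_pz σ).1) hU]
    exact congrArg _ (Fintype.sum_equiv σ _ _ fun μ => Fintype.sum_equiv σ _ _ fun ν => rfl)
  · have : ∀ μ ν x y, Cg n (rq k μ ν x) (rq k μ ν y) → Cg n x y := fun μ ν x y h i => by
      have := h i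
      simp only [rq, Pi.add_apply] at this
      split_ifs at this
      · rwa [neg_sub_neg, add_sub_add_right_eq_sub, add_sub_add_right_eq_sub, dvd_sub_comm] at this
      · exact this
    simp only [wact_eq, fq_rfl, fun μ ν => sum_rel hn (this μ ν) hU μ ν]

theorem rho_bd (l : ℕ → ℕ) (a : ℕ → ℝ) (i n : ℕ) : (∀ β, Measurable (rho l a β i n)) ∧
    ∀ B, ∃ M, ∀ β, |β| ≤ B → ∀ U, ‖rho l a β i n U‖ ≤ M := by
  induction i generalizing n with
  | zero =>
    refine ⟨fun β => Complex.measurable_ofReal.comp ((cont_wact n).measurable.const_mul β).neg.exp,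
      fun B => ?_⟩
    obtain ⟨K, hK⟩ := (isCompact_range (cont_wact n)).isBounded.exists_norm_le
    refine ⟨Real.exp (B * K), fun β hβ U => ?_⟩
    rw [rho, Complex.norm_real, wil, Real.norm_of_nonneg (Real.exp_pos _).le]
    refine Real.exp_le_exp.2 ((neg_le_abs _).trans ?_)
    rw [abs_mul]
    exact mul_le_mul hβ (hK _ ⟨U, rfl⟩) (abs_nonneg _) ((abs_nonneg _).trans hβ)
  | succ i ih =>
    refine ⟨fun β => meas_TT _ _ _ ((ih _).1 β), fun B => ?_⟩
    obtain ⟨M, hM⟩ := (ih (LL (l i) * n)).2 B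
    obtain ⟨C, hC⟩ := TT_bd (l i) (a i) n
    exact ⟨M * C, fun β hβ U => hC _ _ _ (hM β hβ)⟩

theorem rho_cont (l : ℕ → ℕ) (a : ℕ → ℝ) (i n : ℕ) (U : Conf) :
    Continuous fun β => rho l a β i n U := by
  induction i generalizing n U with
  | zero =>
    simp only [rho, wil]
    fun_prop
  | succ i ih =>
    refine continuous_iff_continuousAt.2 fun β => ?_
    obtain ⟨hm, hb⟩ := rho_bd l a i (LL (l i) * n)
    obtain ⟨M, hM⟩ := hb (|β| + 1)
    obtain ⟨C, -, hC⟩ := Itg_bd (l i) (a i) n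
    simp only [rho, TT_eq]
    refine continuousAt_of_dominated (bound := fun _ => M * C) (.of_forall fun β' =>
      ((meas_Itg' _ _ _ (measurable_blk _) (hm β') U).comp (meas_pp _ _)).aestronglyMeasurable) ?_
      (integrable_const _) (.of_forall fun v => ((ih _ _).mul continuous_const).continuousAt)
    filter_upwards [continuous_abs.continuousAt.eventually (gt_mem_nhds (lt_add_one |β|))]
      with β' h
    exact .of_forall fun v => hC _ _ _ _ _ (hM β' h.le)

end Mx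

theorem rho_facts (l : ℕ → ℕ) (a : ℕ → ℝ) (ha : ∀ i, 0 ≤ a i) (i n : ℕ) (hn : Odd n) :
    (∀ β, 0 ≤ β → GI n (rho l a β i n) ∧ Sym n (rho l a β i n) ∧
      ∀ U, (rho l a β i n U).im = 0 ∧ 0 < (rho l a β i n U).re) ∧
    ∀ U, Continuous fun β => rho l a β i n U := by
  refine ⟨fun β _ => ?_, rho_cont l a i n⟩
  induction i generalizing n with
  | zero =>
    have e : ∀ U, rho l a β 0 n U = (Real.exp (-(β * wact n U)) : ℝ) := fun _ => rfl
    obtain ⟨M, hM⟩ := (rho_bd l a 0 n).2 |β|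
    refine ⟨⟨(rho_bd l a 0 n).1 β, ⟨M, hM β le_rfl⟩, fun u U _ _ => ?_⟩, fun U hU => ?_,
      fun U => ⟨Complex.ofReal_im _, Real.exp_pos _⟩⟩
    · simp only [e, wact_eq, fq_gauge]
    · simp only [e, wact_sym hn hU, implies_true, and_self]
  | succ i ih =>
    obtain ⟨h1, h2, h3⟩ := ih (LL (l i) * n) (Odd.mul ⟨l i, rfl⟩ hn)
    exact ⟨h1.step (ha i) hn, h2.step (ha i) hn h1, TT_pos _ hn h1 h3⟩

end Pool.Agent.Lib.MP_7f377f_mp.RG.Q4
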