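import Pool.Agent.Lib.MP_7f377f_mp.G.RGStep0
import Pool.Agent.Lib.MP_7f377f_mp.G.RGAp1

/-! Regrouping of the exponent in the renormalisation step. -/

noncomputable section

set_option linter.unusedSectionVars false
variable [Pool.Agent.Lib.MP_7f377f_mp.GD]

namespace Pool.Agent.Lib.MP_7f377f_mp.RG

open Finset

namespace SX

theorem cC_sh (y : St) (W : Conf) : cC (sh y W) = sh y (cC W) := rfl

end SX

open SX

end Pool.Agent.Lib.MP_7f377f_mp.RG
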