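import Pool.Agent.Lib.MP_7f377f_mp.G.Q4Tree
import Pool.Agent.Lib.MP_7f377f_mp.G.Q4BudG
import Pool.Agent.Lib.MP_7f377f_mp.G.Q4LinE
import Pool.Agent.Lib.MP_7f377f_mp.G.RGTop0
import Pool.Agent.Lib.MP_7f377f_mp.G.Q4MeasInv

/-! Level zero: the Wilson density as a quadratic density and a cubic term. -/

noncomputable section

set_option linter.unusedSectionVars false
variable [Pool.Agent.Lib.MP_7f377f_mp.GD]

namespace Pool.Agent.Lib.MP_7f377f_mp.RG.Q4

open Finset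

attribute [local irreducible] box lbox

/-- the non quadratic part of the Wilson density -/
def TW : Fld → ℂ := JT.phi0 1

theorem meas_TW : Measurable TW := by
  have h1 : ∀ e, Measurable fun B : Fld => cg B e := fun e => by
    simp only [cg, gr, lam, pr, Pi.sub_apply]
    fun_prop
  have h2 : ∀ e, MQ fun B : Fld => exF (cg B) e := fun e => mq_ex (h1 e)
  have h3 : ∀ μ ν, Measurable fun B : Fld => enq (hol star (exF (cg B)) 0 μ ν) := fun μ ν =>
    ((((h2 _).mul (h2 _)).mul (h2 _).star).mul (h2 _).star).enq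
  have h4 := measurable_cx (inv_zero 1 le_rfl).rng (measurable_id (α := Fld)) measurable_id
  unfold TW JT.phi0
  exact (measurable_const.mul (measurable_sum _ fun μ _ => measurable_sum _ fun ν _ =>
    measurable_const.mul (h3 μ ν))).sub (measurable_const.mul h4)

theorem tc_TW {R : ℕ} {ρ : ℝ} (hR : 1 ≤ R) (h : ρ ≤ 1 / 10 ^ 5) : Tc R ρ (10 ^ 8) TW :=
  have t := fun d (hd : d ≤ ρ) => JT.phi0_tm zero_le_one (hd.trans h) hR
  ⟨(t ρ le_rfl).loc, (t ρ le_rfl).hol, fun B d hB hd => by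
    simpa [TW] using (t d hd).bd B hB, (t ρ le_rfl).ad, meas_TW⟩

theorem TW_real (B : Fld) (h : RealF B) : (TW B).im = 0 :=
  (JT.phi0_tm (ρ := 0) zero_le_one (by norm_num) le_rfl).real B h

theorem Tc.smul {R : ℕ} {ρ C : ℝ} {T : Fld → ℂ} (h : Tc R ρ C T) (v : ℝ) :
    Tc R ρ (|v| * C) fun B => v * T B :=
  ⟨fun A B e => by rw [h.loc A B e], fun Ω γ a b c => (h.hol Ω γ a b c).const_mul _,
    fun B d a b => by
      rw [norm_mul, Complex.norm_real, Real.norm_eq_abs, mul_assoc]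
      exact mul_le_mul_of_nonneg_left (h.bd B d a b) (abs_nonneg v),
    fun u B => by rw [h.ad], h.meas.const_mul _⟩

/-- the Wilson density in the chart -/
theorem wd_eq {ε : ℝ} {U : Conf} {x : St} (h : ∀ y ∈ box 1, ∀ μ ν, fq U (x + y) μ ν ≤ ε)
    (h1 : 6 * ε ≤ 1) : cx m0 (Bx x (cC U)) (Bx x (cC U)) + TW (Bx x (cC U)) = wd (sh x U) := by
  have h2 := (Bx_loc (R := 1) (U := sh x U) (fun y hy μ ν => by
    rw [Mx.fq_sh, add_comm]; exact h y hy μ ν) (by simpa using h1)).2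
  have h3 : Bx x (cC U) = Bx 0 (cC (sh x U)) := by rw [SX.cC_sh, Bx_sh, zero_add]
  rw [TW, JT.phi0, Complex.ofReal_one, one_mul, one_mul, add_sub_cancel, h3, cg_Bx, Mx.wd_sh]
  simp only [← JT.hol_agr star h2, JT.hol_cC, JT.hol_gauge, cmb_zero, JT.hol_sh, fq,
    enq_cS, ← mul_sum]
  simp

theorem Ch.pos0 {n r ρ : ℕ} {v e : ℝ} {m : BF} (h : Ch n r ρ v e m) (hρ : ρ ≤ 3) (a : V) :
    nd a 0 ≤ 48020 * m a a := by
  have h1 := (single_le_sum (fun x _ => Li.nd_nonneg a x) (zero_mem_box (ρ - 2))).trans (h.pos a)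
  have h2 : (ρ : ℝ) ≤ 3 := by exact_mod_cast hρ
  have h3 : (2 * ρ + 1 : ℝ) ^ 4 ≤ 7 ^ 4 := pow_le_pow_left₀ (by positivity) (by linarith) 4
  nlinarith [h.inv.psd a]

end Pool.Agent.Lib.MP_7f377f_mp.RG.Q4
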