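import Pool.Agent.Lib.MP_7f377f_mp.G.Q4TrZ
import Pool.Agent.Lib.MP_7f377f_mp.G.Q4IniA
import Pool.Agent.Lib.MP_7f377f_mp.G.Q4LinC
import Pool.Agent.Lib.MP_7f377f_mp.G.Q4LinE
import Pool.Agent.Lib.MP_7f377f_mp.Q4PtG

/-! The linear theory for the data of a step. -/

noncomputable section

set_option linter.unusedSectionVars false
variable [Pool.Agent.Lib.MP_7f377f_mp.GD]

namespace Pool.Agent.Lib.MP_7f377f_mp.RG.Q4

open Filter Sd La La.Q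

theorem Ch.inv20 {j r ρ : ℕ} {v e : ℝ} {m : BF} (h : Ch j r ρ v e m) (v0 : 0 ≤ v) (v2 : v ≤ 2)
    (he : e ≤ 1) : Inv j r 20 20 m := inv_mono h.inv le_rfl le_rfl (by nlinarith)

theorem Ch.inv_mn {j j' l r r' ρ : ℕ} {v e cL cU : ℝ} {m : BF} {s : V →ₗ[ℝ] V}
    (h : Ch j r ρ v e m) (v1 : 2⁻¹ ≤ v) (v2 : v ≤ 2) (e0 : 0 ≤ e) (he : e ≤ 100⁻¹) (hl : 1000 ≤ l)
    (hρ : ρ ≤ 3) (hn : Inv j' r' cL cU (mn l m s)) : Inv j' r' 20 cU (mn l m s) := by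
  have c3 : 0.24 ≤ v * (2⁻¹ - e) := by nlinarith
  have c4 : v * (2⁻¹ - e) ≤ 1 := by nlinarith
  have k1 := lo_mn h.inv.psd (lw_lo h.lw (by linarith) (by linarith))
    ((one_le_div (by linarith)).2 (by linarith)) (l := l) (by omega) (by omega) s
  have hL : ((1000 : ℕ) : ℝ) ≤ LL l := LL_ge hl
  push_cast at hL
  have k2 : (1 : ℝ) / LL l ≤ 1 := (div_le_one (by linarith)).2 (by linarith)
  have k3 : 1.01 / (v * (2⁻¹ - e)) ≤ 5 := (div_le_iff₀ (by linarith)).2 (by linarith)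
  have k4 : 0 ≤ (1 : ℝ) / LL l := by positivity
  exact { hn with
    lower := fun a S => (k1 a S).trans (mul_le_mul_of_nonneg_right (by nlinarith)
      (Finset.sum_nonneg fun _ _ => hn.psd _)) }

/-- existence of the linear minimiser -/
theorem tree_lin : ∃ c, 1 ≤ c ∧ ∃ l0, ∀ t : Td, t.c = c → l0 ≤ t.l → ∀ j ρ v e, 2⁻¹ ≤ v → v ≤ 2 →
    0 ≤ e → e ≤ 1000⁻¹ → Ch j (3 * t.r) ρ v e t.m → ∃ s, Td.Ln { t with s := s } j v e := by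
  obtain ⟨c, c1, H⟩ := lin_main_grad
  obtain ⟨l0, h0⟩ := eventually_atTop.1 ((log_top.eventually (eventually_ge_atTop c)).and
    ((log_pow_le (4 * c)).and (pow_le_exp c c c1)))
  refine ⟨c, c1, l0, fun t hc hl j ρ v e v0 v2 e0 he hm => ?_⟩
  subst hc
  obtain ⟨a1, a2, a3⟩ := h0 _ hl
  obtain ⟨s, h1, h2, h3, h4⟩ := H t.l t.r j 20 _ t.m (a1.trans (Nat.le_self_pow (by norm_num) _))
    (by rwa [pow_mul] at a2) (by
      rw [Real.exp_neg, ← div_eq_mul_inv, div_le_one (Real.exp_pos _)]; exact a3) (by norm_num)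
    le_rfl (by nlinarith) hm.inv
  exact ⟨s, h1, h2, h3, h4⟩

theorem ev_τ (c : ℕ) (f : ℕ → ℕ → ℕ → ℕ → ℕ) :
    ∀ᶠ S in ev0 c, S.L ^ f S.Kt S.K0 S.K S.B * S.τ ≤ 1 := by
  rcases Nat.eq_zero_or_pos c with rfl | hc
  · filter_upwards [ev_ok, ev_c] with S h1 h2
    exact absurd h1.c1 (by omega)
  filter_upwards [ev_c, ev_of_atTop fun a b d e => pow_le_exp c (f a b d e + c) hc] with S h1 h2
  subst h1
  rw [Td.τ, ← mul_assoc, ← pow_add, Real.exp_neg, ← div_eq_mul_inv, div_le_one (Real.exp_pos _)]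
  exact h2

theorem ev_Qτ (c : ℕ) : ∀ᶠ S in ev0 c, S.Q * S.τ ≤ (S.L ^ S.B)⁻¹ := by
  filter_upwards [ev_τ c fun _ _ K B => B + K] with S h
  rw [pow_add, mul_assoc] at h
  exact (le_inv_mul_iff₀ (pow_pos (L0 _) _)).2 h |>.trans_eq (mul_one _)

theorem Tc.wide {R R' : ℕ} {ρ C C' : ℝ} {T : Fld → ℂ} (h : Tc R ρ C T) (hR : R ≤ R')
    (hC : C ≤ C') : Tc R' ρ C' T :=
  ⟨fun A B e => h.loc A B fun x hx => e x (box_mono hR hx),
    fun Ω γ a b c => h.hol Ω γ a b fun t ht => (c t ht).mono hR le_rfl,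
    fun B d a b => (h.bd B d (a.mono hR le_rfl) b).trans
      (mul_le_mul_of_nonneg_right hC (pow_nonneg a.nonneg 3)), h.ad, h.meas⟩

/-- the ranges of two consecutive steps -/
theorem Sd.Nu.r_next {S : Sd} {a : ℕ} (h : S.Nu a) {t : Td}
    (e : LL S.l = LL t.l ∨ LL S.l = 3 * LL t.l) : S.r + 100 ≤ 2 * t.r ∧ t.r ≤ S.r := by
  have h1 := h.lens.1
  have h2 : Nat.log 3 (3 * LL t.l) = Nat.log 3 (LL t.l) + 1 := by
    rw [mul_comm]; exact Nat.log_mul_base (by norm_num) (by unfold LL; omega)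
  unfold Td.r at *
  rcases e with e | e <;> rw [e] at h1 ⊢
  · omega
  rw [h2] at h1 ⊢
  generalize Nat.log 3 (LL t.l) = j at *
  have h3 : 20 ≤ j := by
    by_contra h4
    have := Nat.pow_le_pow_left (show j + 1 ≤ 20 by omega) 4
    omega
  obtain ⟨i, rfl⟩ := Nat.exists_eq_add_of_le h3
  exact ⟨by ring_nf; omega, Nat.pow_le_pow_left (by omega) 4⟩

theorem Sd.Nu.Lτ {S : Sd} {a k : ℕ} (h : S.Nu a) (hk : k ≤ S.K) : S.L ^ k * S.τ ≤ S.Q * S.τ :=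
  mul_le_mul_of_nonneg_right (h.LQ hk) Nu.τ0.le

theorem Sd.Nu.Qτ_small {S : Sd} {a : ℕ} (h : S.Nu a) : 10 ^ 6 * (S.Q * S.τ) ≤ 1 := by
  have h1 := h.τ_g (i := 2) (j := 0) (by norm_num) (by omega)
  have h2 := mul_le_mul_of_nonneg_right (h.cQ' (C := 10 ^ 6) (by norm_num))
    (mul_pos S.Q0 (Nu.τ0 (S := S))).le
  nlinarith

/-- the new quadratic density -/
theorem ch_next (c : ℕ) : ∀ᶠ S in ev0 c, ∀ (j ρ r' : ℕ) (v e lam : ℝ), 2⁻¹ ≤ v → v ≤ 2 →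
    2⁻¹ ≤ lam * v → 0 ≤ e → e ≤ 200⁻¹ → ρ ≤ 3 → S.r + 3 ≤ r' → Ch j (3 * S.r) ρ v e S.m →
    S.Ln j v e → Ch (2 * j * S.l + j + S.l) r' 3 (lam * v) (e + S.Q * S.τ) (lam • S.m1) := by
  obtain ⟨c1, H⟩ := ch_step c
  filter_upwards [ev_nu c 0, ev_c, ev_Kt c1] with S h hc hk j ρ r' v e lam v1 v2 v3 e0 e1 hρ hr
    hm hl
  subst hc
  have ex := h.exps
  have lb := h.l_big
  have t1 := h.Lτ (k := c1) (by omega)
  have := H S.l S.r j ρ 3 S.τ _ v e 0 lam S.m 0 S.s (by omega) (by omega) (by norm_num)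
    Nu.τ0.le le_rfl v1 v2 v3 e0 (by
      rw [mul_zero, add_zero]; exact (add_le_add_right t1 e).trans (by linarith [h.Qτ_small]))
    hm hl.lin hl.inv (fun _ _ => rfl) fun _ _ _ _ _ _ => by simp
  rw [add_zero (mb _ _ _ _)] at this
  exact this.mono (by linarith) hr (by rw [mul_zero, add_zero]; exact add_le_add_right t1 e)

/-- the value on constant curvature does not change -/
theorem cd_next (c : ℕ) : ∀ᶠ S in ev0 c, Lin S.l S.r S.c S.τ S.m S.s →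
    Cd (S.Q * S.τ) S.m1 S.m := by
  obtain ⟨c1, H⟩ := lin_cc c
  filter_upwards [ev_nu c 0, ev_c, ev_Kt c1] with S h hc hk hl a ha
  subst hc
  have ex := h.exps
  have lb := h.l_big
  have t1 : S.τ ≤ 1 := by simpa using h.τ_g (i := 0) (j := 0) (by norm_num) (by norm_num)
  exact ((H S.l S.r S.τ S.m S.s (by omega) Nu.τ0.le t1 hl).2 3 a ha).trans
    (mul_le_mul_of_nonneg_right (h.Lτ (by omega)) (Li.nd_nonneg _ _))

theorem tree_step (c : ℕ) : ∀ᶠ S in ev0 c, ∀ j (v e lam : ℝ), 2⁻¹ ≤ v → v ≤ 2 → 0 ≤ e →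
    e ≤ 1000⁻¹ → S.Tr S.M j v e → S.Ln j v e → 2⁻¹ ≤ lam * v → |lam - 1| ≤ 10⁻¹ →
    Cd (S.L ^ S.B)⁻¹ S.m1 S.m ∧ ∀ t : Td, t.Kt = S.Kt → t.K0 = S.K0 →
      (LL S.l = LL t.l ∨ LL S.l = 3 * LL t.l) → t.m = lam • S.m1 →
      (t.T = fun B => (lam : ℂ) * S.T1 B) →
        t.Tr (LL S.l) (2 * j * S.l + j + S.l) (lam * v) (e + (S.L ^ S.B)⁻¹) := by
  filter_upwards [ev_nu c 0, ev_Qτ c, ch_next c, cd_next c, ev_iff.1 (tc_T1 c)] with S h h1 h2 h3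
    h4 j v e lam v1 v2 e0 e1 ht hl v3 l1
  obtain ⟨t1, t2⟩ := h4 ⟨j, v, e, v1, v2, e0, e1, ht, hl⟩
  obtain ⟨ρ, -, r1, hm⟩ := ht.ch
  refine ⟨fun a ha => (h3 hl.lin a ha).trans (mul_le_mul_of_nonneg_right h1 (Li.nd_nonneg _ _)),
    fun t a1 a2 a3 a4 a5 => ?_⟩
  have r2 := h.r_next a3
  obtain ⟨l2, l3⟩ := abs_le.1 l1
  refine ⟨⟨3, by norm_num, le_rfl, a4 ▸ (h2 j ρ (3 * t.r) v e lam v1 v2 v3 e0 (by linarith) r1
    (by omega) hm hl).mono (by linarith) le_rfl (by linarith)⟩, ?_, fun B hB => by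
      simp [a5, t2 B hB]⟩
  rw [a1, a2, a5, ← Nat.cast_pow]
  refine (t1.smul lam).wide (by omega) ?_
  rw [abs_of_nonneg (by linarith)]
  nlinarith [pow_pos (L0 S.toTd) S.Kt, show (LL S.l : ℝ) ^ S.Kt = S.L ^ S.Kt from rfl]

/-- two sets of data at the same level -/
theorem df_next (c : ℕ) : ∃ C : ℕ, ∀ᶠ S in ev0 c, ∀ (S' : Td) (j j' ρ ρ' : ℕ)
    (v v' e e' σ σ0 : ℝ), S'.l = S.l → S'.c = S.c → 2⁻¹ ≤ v → v ≤ 2 → 2⁻¹ ≤ v' → v' ≤ 2 → 0 ≤ e →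
    e ≤ 100⁻¹ → 0 ≤ e' → e' ≤ 100⁻¹ → ρ ≤ 3 → ρ' ≤ 3 → Ch j (3 * S.r) ρ v e S.m →
    Ch j' (3 * S.r) ρ' v' e' S'.m → S.Ln j v e → S'.Ln j' v' e' → 0 ≤ σ0 →
    (S.r : ℝ) ^ C * σ0 ≤ 1 → Cd σ0 S.m S'.m → Df (3 * S.r) σ S.m S'.m →
      Df (S.r + 3) ((S.r : ℝ) ^ C * σ0 + S.cs ^ 10 * σ + S.Q * S.τ) S.m1 S'.m1 ∧
      ∀ B δ, Cv S.r δ B → ∀ f ∈ lbox S.l,
        |S.s B f - S'.s B f| ≤ S.L ^ C * (σ0 + σ + S.τ) * δ := by
  obtain ⟨c1, H⟩ := lin_df c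
  refine ⟨c1, ?_⟩
  filter_upwards [ev_nu c 0, ev_c, ev_Kt c1] with S h hc hk S' j j' ρ ρ' v v' e e' σ σ0 e1 e2 v1 v2
    v3 v4 a1 a2 a3 a4 r1 r2 m1 m2 l1 l2 s0 s1 hd hf
  obtain ⟨c', Kt', K0', l', m', s', T'⟩ := S'
  simp only at e1 e2
  subst e1 e2 hc
  have ex := h.exps
  have lb := h.l_big
  have rb := h.r_big
  have L0 := L0 S.toTd
  have r1' := h.r1'
  have c0 := Nu.cs0 (S := S)
  have σ1 : 0 ≤ σ := by simpa using hf 0 1 (Ho.cv_zero _ zero_le_one)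
  have t1 := h.Lτ (k := c1) (by omega)
  have t2 : S.τ ≤ S.Q * S.τ := le_mul_of_one_le_left Nu.τ0.le S.Q1
  have t3 := h.Qτ_small
  have g1 : (S.r : ℝ) ^ c1 * ((S.r : ℝ) ^ S.c / S.L) ≤ S.cs ^ 10 := by
    have k1 := h.cs_le (k := c1 + S.c) (by omega)
    have k2 : S.cs ≤ 1 := le_trans (le_mul_of_one_le_left c0.le (one_le_pow₀ r1')) k1
    rw [← mul_div_assoc, ← pow_add, div_eq_mul_inv, inv_eq_of_mul_eq_one_left Nu.cs_pow]
    calc _ = ((S.r : ℝ) ^ (c1 + S.c) * S.cs) * S.cs ^ 19 := by ring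
      _ ≤ 1 * S.cs ^ 10 := mul_le_mul k1 (pow_le_pow_of_le_one c0.le k2 (by norm_num))
          (by positivity) zero_le_one
      _ = _ := one_mul _
  have g2 : S.cs ^ 10 ≤ 1 := pow_le_one₀ c0.le (by simpa using h.cs_le (k := 0) (by omega))
  have g3 : (S.r : ℝ) ^ S.c / S.L ≤ 1 :=
    (le_mul_of_one_le_left (by positivity) (one_le_pow₀ r1')).trans (g1.trans g2)
  have i1 := inv_mono (m1.inv_mn v1 v2 a1 a2 (by omega) r1 l1.inv) le_rfl le_rfl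
    (show _ ≤ (20 : ℝ) by nlinarith)
  have i2 := inv_mono (m2.inv_mn v3 v4 a3 a4 (show 1000 ≤ S.l by omega) r2 l2.inv) le_rfl le_rfl
    (show v' * (2⁻¹ + e') + S.τ ≤ (20 : ℝ) by nlinarith)
  obtain ⟨-, k1, k2⟩ := H S.l S.r j j' _ _ S.τ ((S.r : ℝ) ^ S.c / S.L) σ σ0 S.m m' S.s s'
    (by omega) (h.rl (by omega)) Nu.τ0.le s0 (by positivity) (t1.trans (by linarith)) s1
    (g1.trans g2) (m1.inv20 (by linarith) v2 (by linarith))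
    (m2.inv20 (by linarith) v4 (by linarith)) l1.lin l2.lin l2.grad i1 i2 hd hf
  simp only [Td.m1]
  refine ⟨fun a δ ha => (k1 3 a δ ha).trans (mul_le_mul_of_nonneg_right ?_ (sq_nonneg δ)),
    fun B δ hB f hf => (k2 B δ hB f hf).trans ?_⟩
  · rw [mul_add, ← mul_assoc]
    exact add_le_add (add_le_add_right (mul_le_mul_of_nonneg_right g1 σ1) _) t1
  · have k3 : σ0 + (S.r : ℝ) ^ S.c / S.L * σ + S.τ ≤ σ0 + σ + S.τ := by
      linarith [mul_le_of_le_one_left σ1 g3]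
    exact mul_le_mul_of_nonneg_right (mul_le_mul_of_nonneg_left k3 (pow_pos L0 _).le) hB.nonneg

end Pool.Agent.Lib.MP_7f377f_mp.RG.Q4
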