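import Pool.Agent.Lib.MP_7f377f_mp.G.Q4EDef
import Pool.Agent.Lib.MP_7f377f_mp.G.Q4Rep
import Pool.Agent.Lib.MP_7f377f_mp.G.Q4IniA

/-! Majorant and lower bound for the polymer representation. -/

noncomputable section

set_option linter.unusedSectionVars false
variable [Pool.Agent.Lib.MP_7f377f_mp.GD]

namespace Pool.Agent.Lib.MP_7f377f_mp.RG.Q4.En

open Finset Real Sd
open scoped Pointwise

attribute [local irreducible] box lbox

theorem LF.QMe {S : Sd} {v e : ℝ} (h : LF S v e) : S.QM = S.Q := by rw [Sd.QM, h.hM]; rfl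

theorem LF.pg {S : Sd} {v e : ℝ} (h : LF S v e) : Pg S.p (S.L ^ 2) ∧ S.Q⁻¹ ≤ ee S.p := by
  have e : S.p.D = 20 * S.D0 := by rw [p_D, h.hM]; rfl
  have d1 : (1 : ℝ) ≤ S.D0 := by exact_mod_cast D1 _
  have l1 := one_le_pow₀ (n := 2) (L1 S.toTd)
  have a := h.nu.mon (C := 41 ^ 4) (i := 2) (j := 4) (by norm_num) (by have := h.nu.exps; omega)
    (by norm_num)
  have b : (2 * S.p.D + 1 : ℝ) ^ 4 ≤ 41 ^ 4 * (S.D0 : ℝ) ^ 4 := by
    rw [← mul_pow, e]; push_cast; gcongr; linarith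
  have c : (0 : ℝ) ≤ 41 ^ 4 * (S.D0 : ℝ) ^ 4 := by positivity
  refine ⟨⟨by have := D1 S.toTd; omega, ?_, by rw [p_G0, h.QMe]; exact (pow_pos S.Q0 _).le,
    by positivity, ?_, (inv_pos.2 h.nu.ok.g0).le.trans_eq (p_lam S).symm⟩,
    inv_anti₀ (by positivity) (by nlinarith)⟩
  · have := one_sub_inv_le_log_of_pos S.Q0
    have := inv_anti₀ two_pos (h.nu.cQ' (C := 2) (by norm_num))
    rw [p_a, h.QMe]; linarith
  · rw [p_G2, h.QMe]
    exact (mul_le_mul_of_nonneg_left b (by positivity)).trans (by nlinarith)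

theorem ps_le (n : ℕ) (U : Conf) : ps n id U ≤ ∑ x ∈ box (n / 2), fs U x :=
  sum_le_sum fun _ _ => sum_le_sum fun _ _ => sum_le_sum fun _ _ => by
    split_ifs
    exacts [le_rfl, norm_nonneg _]

/-- the total quadratic energy of a field close to the identity -/
theorem sum_cx {j R n : ℕ} {cL cU M g : ℝ} {m : BF} (hm : Inv j R cL cU m) (hc : cU ≤ 20)
    (hb : Bd R R M m) {U : Conf} (hU : ∀ f, ‖(U f).q - 1‖ ≤ g) (h1 : 2000 * (R + 1) * g ≤ 1)
    (hn : 2 * R + 3 ≤ n) : ∑ x ∈ box (n / 2), (cx m (Bx x (cC U)) (Bx x (cC U))).re ≤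
      GD.d * (10 ^ 7 * Lin.KK ^ 2 * g ^ 2 * n ^ 4 +
        (box (n / 2)).card * (2 * M * (10 ^ 6 * (R + 1) ^ 2 * g ^ 2) ^ 2)) := by
  have g0 := (norm_nonneg _).trans (hU (0, 0))
  have r0 : 0 ≤ R * g := by positivity
  set b : Fld := fun e => ch (cS (U e)) with hb'
  have b1 := fun e => ch_cS_le (hU e) (by linarith)
  have e : cC U = exF b := funext fun e => (ex_ch (b1 e).1).symm
  have k1 : ∀ x k, m (reF (Bx x (cC U)) k) (reF (Bx x (cC U)) k) ≤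
      2 * m (sh x (reF b k)) (sh x (reF b k)) + 2 * (M * (10 ^ 6 * (R + 1) ^ 2 * g ^ 2) ^ 2) :=
    fun x k => by
    have a := ((Bx_ap (Ap_exF (R := R + 1) (b := sh x b) (fun e _ => (b1 _).2) (by linarith))
      (by nlinarith) (by linarith)).mono le_rfl (δ' := 10 ^ 6 * (R + 1) ^ 2 * g ^ 2)
      (by nlinarith [sq_nonneg g, sq_nonneg (R * g), mul_nonneg r0 g0])).reF k
    have a1 := (le_abs_self _).trans (hb _ _ _ _ a a)
    have a2 : reF (Bx x (cC U)) k = sh x (reF b k) + reF (Bx 0 (exF (sh x b)) - cg (sh x b)) k -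
        gr fun y => (lam (sh x b) y k).re := by
      rw [Bx_eq, e, show sh x (exF b) = exF (sh x b) from rfl]
      funext f; simp [reF, cg, gr, sh]; ring
    generalize reF (Bx 0 (exF (sh x b)) - cg (sh x b)) k = h at a1 a2
    have a3 := hm.psd (sh x (reF b k) - h)
    simp only [a2, map_sub, map_add, LinearMap.sub_apply, LinearMap.add_apply, hm.gauge,
      hm.symm _ (gr _)] at a3 ⊢
    linarith
  have k2 : ∀ k, ∑ x ∈ box (n / 2), m (sh x (reF b k)) (sh x (reF b k)) ≤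
      20 * Lin.KK ^ 2 * ((2 * n) ^ 4 * (16 * (4 * (2 * g)) ^ 2)) := fun k => by
    have s : Sm (R + n / 2) (2 * g) (reF b k) := Sm.reF (fun e _ => (b1 e).2) k
    have a := Lin.inv_U1 hm hc (cut (R + n / 2) (reF b k)) (box (n / 2)) (box (R + n / 2))
      fun e he => cut_of_not_mem _ fun a => he (mem_lbox.1 a)
    refine (sum_congr rfl fun x hx => ?_).trans_le (a.trans (mul_le_mul_of_nonneg_left
      ((sum_le_card_nsmul _ _ _ fun y _ => La.nd_le_of_cv (Sm.cv (R := 0)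
        (a := sh y (cut (R + n / 2) (reF b k))) fun e _ => s.cut _) (zero_mem_box 0) |>.trans_eq' ?_).trans ?_) (by positivity)))
    · have : Agr R (sh x (reF b k)) (sh x (cut (R + n / 2) (reF b k))) := fun e he =>
        (cut_of_mem _ (e := (e.1 + x, e.2)) (mem_lbox.2 (add_mem_box (mem_lbox.1 he) hx))).symm
      exact hm.rng.congr this this
    · simp only [nd, dd_sh, zero_add]
    · have : (box (R + n / 2) + box 1).card ≤ (2 * n) ^ 4 := (card_le_card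
        (add_subset_iff.2 fun _ a _ b => add_mem_box a b)).trans
          ((card_box _).trans_le (Nat.pow_le_pow_left (by omega) 4))
      rw [nsmul_eq_mul]
      exact mul_le_mul_of_nonneg_right (by exact_mod_cast this) (by positivity)
  simp only [cx_real m (Bx_real _ U) (Bx_real _ U), Complex.ofReal_re]
  refine (sum_le_sum fun x _ => sum_le_sum fun k _ => k1 x k).trans ?_
  rw [sum_comm]
  refine (sum_le_card_nsmul _ _ _ fun k _ => ?_).trans_eq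
    (by rw [card_univ, Fintype.card_fin, nsmul_eq_mul])
  simp only [sum_add_distrib, ← mul_sum, sum_const, nsmul_eq_mul]
  nlinarith [k2 k, (by positivity : 0 ≤ Lin.KK ^ 2 * g ^ 2 * n ^ 4)]

theorem maj_rep : ∃ c C : ℝ, 0 < c ∧ c ≤ 1 ∧ 0 ≤ C ∧ ∀ (S : Sd) (v e b θ : ℝ) (k : Mj) (ψ : Lx) (K : Ac),
    LF S v e → S.Sml b θ k ψ K → ∀ U, Per S.nf U →
      ‖Rep S.p S.nf (S.Φ ψ) K U‖ ≤ exp (C * S.nf ^ 4 - c / S.g * ps S.nf id U) ∧
      (RealP S.p ψ → RealA K → (∀ f, ‖(U f).q - 1‖ ≤ S.g) →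
        exp (-(C * S.nf ^ 4)) ≤ (Rep S.p S.nf (S.Φ ψ) K U).re) := by
  refine ⟨1, GD.d * (10 ^ 7 * Lin.KK ^ 2 + 100) + 10 ^ 7, one_pos, le_rfl, by positivity,
    fun S v e b θ k ψ K h s U hU => ?_⟩
  obtain ⟨j, ⟨ρ, -, ρ3, hc⟩, tc, tr⟩ := h.tr
  have o := h.nu.ok
  have g0 := o.g0
  have q1 := S.Q1
  have pk := h.nu.p_ok
  have ln := h.nu.lens
  have n4 : (0 : ℝ) ≤ (S.nf : ℝ) ^ 4 := by positivity
  have K4 : 0 ≤ GD.d * (10 ^ 7 * Lin.KK ^ 2 + 100) * (S.nf : ℝ) ^ 4 := by positivity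
  have θ0 := s.kn.nonneg
  have θ1 : 2 * θ ≤ S.Q⁻¹ := by
    rw [inv_eq_one_div, le_div_iff₀ S.Q0]
    have := (mul_le_mul_of_nonneg_right (S.Qw (by norm_num : 2 ≤ 100)) θ0).trans s.θ_le
    nlinarith [mul_nonneg θ0 S.Q0.le, h.nu.cQ' (C := 2) (by norm_num)]
  have θ2 : 2 * θ ≤ 1 := θ1.trans (inv_le_one_of_one_le₀ q1)
  have sm : ∀ x, Fq (S.p.R + 1) S.p.ε (sh x U) →
      ‖S.β * S.T (Bx x (cC U))‖ ≤ 1 ∧ ‖ψ x (Bx x (cC U))‖ ≤ 1 := fun x hx => by
    have a := s.pu.2 x _ (Bx_real x U) (hx.cv' pk.1)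
    have a1 := tc.bd _ _ ((hx.cv' pk.1).mono (by rw [p_R]; omega) le_rfl) (by linarith [pk.1.ρ0])
    have a2 : (S.M : ℝ) ^ S.Kt ≤ S.Q := by
      rw [h.hM]; exact h.nu.LQ (by have := h.nu.exps; omega)
    refine ⟨?_, a.trans ((le_mul_of_one_le_left ((norm_nonneg _).trans a)
      (one_le_pow₀ q1)).trans s.b_le)⟩
    rw [p_ρ, h.QMe] at a1
    rw [norm_mul, Complex.norm_real, norm_of_nonneg o.β0.le]
    calc _ ≤ S.β * (S.Q * (S.Q ^ 3 * S.g) ^ 3) := by have := o.β0; gcongr; exact a1.trans (by gcongr)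
      _ = S.β * S.g ^ 2 * (S.Q ^ 0 * (S.Q ^ 10 * S.g)) := by ring
      _ ≤ 1 := by rw [o.βg, one_mul]; exact o.Qg_le (by norm_num)
  have re : ∀ x B, (S.Φ ψ x B).re = S.β * (cx S.m B B).re + (S.β * S.T B).re + (ψ x B).re :=
    fun x B => by simp [Sd.Φ, mul_add]
  refine ⟨(rep_le (c := 1 / S.g) (C := 10 ^ 7 - 1) h.pg.1 o.odd_nf s.km s.kn hU
    (by rw [p_lam, one_div]) (by norm_num) (fun x _ hx => ?_) fun _ => by
      rw [p_lam, one_div]).trans (exp_le_exp.2 ?_),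
    fun r r' hs => ?_⟩
  · have a := pos1 (hc.pos0 ρ3) (U := sh x U) (fun y hy => hx y (box_mono (by omega) hy))
      (by nlinarith [pk.1.1, pk.1.2.1, pk.1.2.2, (Nat.cast_nonneg S.p.R : (0 : ℝ) ≤ _)])
    have a1 : S.β * (10 ^ 14 * S.p.ε ^ 4) ≤ 1 := by
      rw [p_ε, h.QMe]
      calc _ = S.β * S.g ^ 2 * (10 ^ 14 * (S.Q ^ 8 * S.g) * S.g) := by ring
        _ ≤ 1 * (S.Q ^ 1 * (S.Q ^ 8 * S.g) * 1) := by
          rw [o.βg, pow_one]; gcongr
          exacts [h.nu.cQ' (by norm_num), o.g1]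
        _ ≤ 1 := by rw [one_mul, mul_one]; exact o.Qg_le (by norm_num)
    have a2 : S.β * fs (sh x U) 0 ^ 2 = (1 / S.g * fs U x) ^ 2 := by
      simp only [fs, Rb.fq_sh, zero_add]
      rw [show S.β = (1 / S.g) ^ 2 by field_simp; exact o.βg, mul_pow]
    have a3 := mul_le_mul_of_nonneg_left a o.β0.le
    rw [a2, ← sh_cC, ← Bx_eq] at a3
    have a4 := (sm x hx).1.trans' (Complex.abs_re_le_norm _)
    have a5 := (sm x hx).2.trans' (Complex.abs_re_le_norm _)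
    rw [re]
    nlinarith [sq_nonneg (1 / S.g * fs U x - 144 * 48020), abs_le.1 a4, abs_le.1 a5]
  · have := mul_le_mul_of_nonneg_left (ps_le S.nf U) (one_div_pos.2 g0).le
    nlinarith
  have f4 : ∀ x y μ ν, fq (sh x U) y μ ν ≤ 4 * S.g := fun x y μ ν => by
    simpa [fq, hol, S3.q_one] using fq_near (U := sh x U) (V := 1) (x := y) (μ := μ) (ν := ν)
      (.of1 (hs _)) (.of1 (hs _)) (.of1 (hs _)) (.of1 (hs _))
  have hχ : ∀ x, Fq (S.p.R + 1) S.p.ε (sh x U) := fun x y _ μ ν => (f4 x y μ ν).trans (by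
    rw [p_ε, h.QMe]; gcongr; nlinarith [h.nu.cQ' (C := 2) (by norm_num)])
  have r1 := h.nu.r1'
  have rg : 10 ^ 14 * S.L * (S.r : ℝ) ^ 4 * S.g ≤ 1 := by
    have := h.nu.crL (C := 10 ^ 14) (k := 4) (by norm_num) (by omega)
    have l := h.nu.L_le_Q
    calc _ = 10 ^ 14 * (S.r : ℝ) ^ 4 * (S.L * S.g) := by ring
      _ ≤ S.Q ^ 1 * (S.Q ^ 1 * S.g) := by have := L0 S.toTd; rw [pow_one]; gcongr; linarith
      _ ≤ 1 := o.Qg_le (by norm_num)
  have rg' : 10 ^ 14 * (S.r * S.g) ≤ 1 := le_trans (by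
    calc _ = 10 ^ 14 * 1 * (S.r : ℝ) ^ 1 * S.g := by ring
      _ ≤ _ := by have := L0 S.toTd; gcongr; exacts [L1 _, by norm_num]) rg
  have rg1 := le_mul_of_one_le_left g0.le r1
  obtain ⟨a, a'⟩ := rep_log (z := fun x => (S.Φ ψ x (Bx x (cC U))).re) h.pg.1 o.odd_nf s.km r' s.kn
    (θ1.trans h.pg.2) hU hχ (fun x => Complex.ext rfl (by
      simp [Sd.Φ, cx_im _ (Bx_real x U) (Bx_real x U), tr _ (Bx_real x U),
        r x _ (Bx_real x U) ((hχ x).cv' pk.1)])) fun x => by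
      have a := (Complex.abs_re_le_norm _).trans (cx_Bx_le h.bd (fun y _ => f4 x y)
        (by push_cast; linarith))
      have a4 := (sm x (hχ x)).1.trans' (Complex.abs_re_le_norm _)
      have a5 := (sm x (hχ x)).2.trans' (Complex.abs_re_le_norm _)
      have a3 := mul_le_mul_of_nonneg_left a o.β0.le
      have l := h.nu.crL (C := 10 ^ 5) (k := 2) (by norm_num) (by omega)
      have l1 := mul_le_mul_of_nonneg_left l (L0 S.toTd).le
      have l2 := one_le_mul_of_one_le_of_one_le (L1 S.toTd) (one_le_pow₀ (n := 2) r1)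
      rw [← sh_cC, ← Bx_eq, show S.β * (432 * S.L * ((3 * S.r : ℕ) : ℝ) ^ 2 * (4 * S.g) ^ 2) =
        S.β * S.g ^ 2 * (62208 * (S.L * S.r ^ 2)) by push_cast; ring, o.βg] at a3
      rw [re]
      refine (abs_add_three ..).trans ?_
      rw [abs_mul, abs_of_pos o.β0]
      nlinarith
  have e1 : e ≤ 1 := (le_mul_of_one_le_right h.e0 (one_le_pow₀ o.β1)).trans h.e1
  have c1 := mul_le_mul_of_nonneg_left (sum_cx (n := S.nf) hc.inv (by nlinarith [h.v2, h.e0, h.v1])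
    h.bd hs (by push_cast; nlinarith) (by
      have := Nat.le_mul_of_pos_right (LL S.l) o.odd.pos
      unfold Sd.nf LL at *; omega)) o.β0.le
  have c2 : S.β * (2 * S.L * (10 ^ 6 * (((3 * S.r : ℕ) : ℝ) + 1) ^ 2 * S.g ^ 2) ^ 2) ≤ 100 := by
    calc _ ≤ S.β * (2 * S.L * (10 ^ 6 * (4 * S.r) ^ 2 * S.g ^ 2) ^ 2) := by
          have := L0 S.toTd
          have := o.β0
          gcongr; push_cast; linarith
      _ = S.β * S.g ^ 2 * (5.12 * (10 ^ 14 * S.L * (S.r : ℝ) ^ 4 * S.g) * S.g) := by ring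
      _ ≤ 1 * (5.12 * 1 * 1) := by rw [o.βg]; gcongr; exact o.g1
      _ ≤ _ := by norm_num
  have c3 : ∑ x ∈ box (S.nf / 2), (S.Φ ψ x (Bx x (cC U))).re ≤ ∑ x ∈ box (S.nf / 2),
      (S.β * (cx S.m (Bx x (cC U)) (Bx x (cC U))).re + 2) := sum_le_sum fun x _ => by
    rw [re]
    linarith [(sm x (hχ x)).1.trans' (Complex.re_le_norm _),
      (sm x (hχ x)).2.trans' (Complex.re_le_norm _)]
  rw [sum_add_distrib, ← mul_sum, sum_const, nsmul_eq_mul, card_dom o.odd_nf] at c3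
  replace c1 := c1.trans (show _ ≤ GD.d * (10 ^ 7 * Lin.KK ^ 2 + 100) * (S.nf : ℝ) ^ 4 by
    rw [card_dom o.odd_nf]
    calc _ = GD.d * (S.β * S.g ^ 2 * (10 ^ 7 * Lin.KK ^ 2 * S.nf ^ 4) + S.nf ^ 4 * (S.β *
          (2 * S.L * (10 ^ 6 * (((3 * S.r : ℕ) : ℝ) + 1) ^ 2 * S.g ^ 2) ^ 2))) := by ring
      _ ≤ GD.d * (1 * (10 ^ 7 * Lin.KK ^ 2 * S.nf ^ 4) + S.nf ^ 4 * 100) := by rw [o.βg]; gcongr
      _ = _ := by ring)
  rw [← le_log_iff_exp_le a]
  nlinarith [(abs_le.1 a').1]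

end Pool.Agent.Lib.MP_7f377f_mp.RG.Q4.En
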