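import Pool.Agent.Lib.MP_7f377f_mp.G.Q4FluxB
import Pool.Agent.Lib.MP_7f377f_mp.G.Q4EMaj
import Pool.Agent.Lib.MP_7f377f_mp.G.Q4EStp

/-! Majorant and total variation bounds for represented densities. -/

noncomputable section

set_option linter.unusedSectionVars false
variable [Pool.Agent.Lib.MP_7f377f_mp.GD]

namespace Pool.Agent.Lib.MP_7f377f_mp.RG.Q4.En

open Finset Real

theorem ps_nonneg (n : ℕ) (U : Conf) : 0 ≤ ps n id U :=
  sum_nonneg fun _ _ => sum_nonneg fun μ _ => sum_nonneg fun ν _ => by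
    split_ifs
    exacts [(fq_le ..).1, le_rfl]

end Pool.Agent.Lib.MP_7f377f_mp.RG.Q4.En
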