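import Pool.Agent.Lib.MP_7f377f_mp.G.TyF
import Pool.Agent.Lib.MP_7f377f_mp.G.Q5Tan
import Pool.Agent.Lib.MP_7f377f_mp.G.Q5TanG
import Pool.Agent.Lib.MP_7f377f_mp.Q4TwoC

/-! Tangent flows without marginal part contract. -/

noncomputable section

set_option linter.unusedSectionVars false
variable [Pool.Agent.Lib.MP_7f377f_mp.GD]

namespace Pool.Agent.Lib.MP_7f377f_mp.RG.Q4.En

open Finset Real Sg Ty Pos

variable {T : Ty} {E : List (Pl × Pl)}

theorem Sgn.sum {ι : Type} {n : ℕ} {s : Finset ι} {f : ι → Conf → ℂ} (h : ∀ i ∈ s, Sgn n T (f i))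
    (c : ι → ℂ) : Sgn n T fun U => ∑ i ∈ s, c i * f i U := fun g hg U hU => by
  rw [mul_sum]
  exact sum_congr rfl fun i hi => by rw [h i hi g hg U hU, mul_left_comm]

theorem Sgn.sub {n : ℕ} {f f' : Conf → ℂ} (h : Sgn n T f) (h' : Sgn n T f') (c : ℂ) :
    Sgn n T fun U => f U - c * f' U := fun g hg U hU => by
  simp only [h g hg U hU, h' g hg U hU]
  ring

theorem bc_sum {ι : Type} {s : Finset ι} {f : ι → Conf → ℂ} (h : ∀ i ∈ s, BC (f i)) (c : ι → ℂ) :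
    BC fun U => ∑ i ∈ s, c i * f i U := by
  induction s using Finset.cons_induction with
  | empty => exact ⟨measurable_const, 0, fun _ => by simp⟩
  | cons i s hi ih =>
    obtain ⟨a, M, hM⟩ := (h i (mem_cons_self ..)).cm (c i)
    obtain ⟨a', M', hM'⟩ := ih fun j hj => h j (mem_cons_of_mem hj)
    simp only [sum_cons]
    exact ⟨a.add a', _, fun U => norm_add_le_of_le (hM U) (hM' U)⟩

theorem rsp_sum {ι : Type} (s : Finset ι) (n : ℕ) (x : ℝ) (e : Pl × Pl) (f : Conf → ℂ)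
    (f' : ι → Conf → ℂ) (c : ι → ℝ) : rsp n x e (lg f fun U => ∑ i ∈ s, c i * f' i U) =
      ∑ i ∈ s, c i * rsp n x e (lg f (f' i)) := by
  simp only [rsp, lg, sum_div, Complex.re_sum, mul_div_assoc, Complex.re_ofReal_mul,
    ← sum_add_distrib, ← sum_sub_distrib]
  exact sum_congr rfl fun i _ => by ring

/-- `n` linear conditions on `n + 1` coefficients -/
theorem exists_ker {n : ℕ} {α : Type} (E : List α) (hE : E.length ≤ n) (a : α → Fin (n + 1) → ℝ) :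
    ∃ γ : Fin (n + 1) → ℝ, ∑ s, |γ s| = 1 ∧ ∀ e ∈ E, ∑ s, γ s * a e s = 0 := by
  obtain ⟨γ, h1, h2⟩ := (Submodule.ne_bot_iff _).1 (LinearMap.ker_ne_bot_of_finrank_lt
    (f := Matrix.mulVecLin (Matrix.of fun i : Fin E.length => a (E.get i))) (by simp; omega))
  have p : 0 < ∑ s, |γ s| := (sum_nonneg fun _ _ => abs_nonneg _).lt_of_ne' fun e => h2
    (funext fun s => abs_eq_zero.1 ((sum_eq_zero_iff_of_nonneg fun _ _ => abs_nonneg _).1 e s
      (mem_univ _)))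
  refine ⟨fun s => (∑ s, |γ s|)⁻¹ * γ s, ?_, fun e he => ?_⟩
  · simp only [abs_mul, ← mul_sum, abs_of_pos (inv_pos.2 p), inv_mul_cancel₀ p.ne']
  · obtain ⟨i, rfl⟩ := List.get_of_mem he
    have := congrFun (LinearMap.mem_ker.1 h1) i
    simp only [Matrix.mulVecLin_apply, Matrix.mulVec, dotProduct, Matrix.of_apply,
      Pi.zero_apply] at this
    simp only [mul_assoc, ← mul_sum, mul_comm (γ _), this, mul_zero]

namespace Gl

/-- a direction along the run from level `J` -/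
abbrev Tx (G : Gl) (b : ℝ) (J k : ℕ) (x y : ℝ) (d : Lx × Ac) (f' : Conf → ℂ) : Prop :=
  G.Tn k (G.zz b J k) (G.zz b J k).d (G.f b J k) x y (G.Q k ^ 280)⁻¹ d f'

/-- the measured marginal part -/
def rs (G : Gl) (b : ℝ) (J k : ℕ) (e : Pl × Pl) (f' : Conf → ℂ) : ℝ :=
  rsp (G.N k) (G.g k / G.Q k ^ 14) e (lg (G.f b J k) f')

/-- the contraction between two levels -/
def cP (G : Gl) (m i : ℕ) : ℝ := ∏ n ∈ Ico m i, 2 * G.cr n

variable {G : Gl} {b x y x' y' c N : ℝ} {J i j k m : ℕ} {d : Lx × Ac} {f' g' : Conf → ℂ}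

theorem cP_top : G.cP i i = 1 := by simp [cP]

theorem cP_step (hk : k < i) : G.cP k i = 2 * G.cr k * G.cP (k + 1) i :=
  prod_eq_prod_Ico_succ_bot hk _

theorem tt_sum {ι : Type} {s : Finset ι} {f : ι → Conf → ℂ} (a : ∀ i ∈ s, BC (f i)) (c : ι → ℂ)
    (hk : k ≤ i) : G.tt (fun U => ∑ t ∈ s, c t * f t U) i k =
      fun U => ∑ t ∈ s, c t * G.tt (f t) i k U := by
  induction s using Finset.cons_induction with
  | empty => simpa using tt_mul (G := G) 0 (fun _ => 0) hk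
  | cons t s hi ih =>
    simp only [sum_cons]
    rw [tt_add ((a t (mem_cons_self ..)).cm _) (bc_sum (fun j hj => a j (mem_cons_of_mem hj)) c) hk,
      tt_mul _ _ hk, ih fun j hj => a j (mem_cons_of_mem hj)]

namespace Ok

variable (h : G.Ok)
include h

theorem cP0 (m i : ℕ) : 0 < G.cP m i := prod_pos fun n _ => mul_pos two_pos (h.cr0 n)

theorem cP1 (m i : ℕ) : G.cP m i ≤ 1 :=
  prod_le_one (fun n _ => (mul_pos two_pos (h.cr0 n)).le) fun n _ => by linarith [h.cr1 n]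

/-- the rate of contraction -/
theorem cP_pow (hm : m ≤ i) : G.cP m i ^ 40 * G.rt i m ≤ 1 := by
  refine dw_ind (P := fun m => G.cP m i ^ 40 * G.rt i m ≤ 1) (by simp [cP_top, rt_top])
    (fun k hk ih => ?_) m hm
  have a : (1000 * G.cr k) ^ 40 * G.L k ≤ 1 := cr_pow (h.sd_all k _).nu
  have c := h.cr0 k
  have p := h.cP0 (k + 1) i
  rw [cP_step hk, h.rt_step hk, Nat.cast_mul, mul_pow, mul_mul_mul_comm]
  refine mul_le_one₀ (le_trans ?_ a) (by positivity) ih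
  gcongr
  norm_num

theorem om0 (k : ℕ) : 0 < (G.Q k ^ 280)⁻¹ := inv_pos.2 (pow_pos (h.Q0 k) _)

theorem sgn_tt (hf : Measurable f') (s : Sgn (G.N i) T f') (hk : k ≤ i) :
    Sgn (G.N k) T (G.tt f' i k) := fun g hg W hW => by
  have e : G.tt f' i k (cf g.1 W) = G.tt (fun U => f' (cf g.1 U)) i k W := by
    rcases g with ⟨g | g, _⟩
    exacts [h.tt_pm hf hk hW g, h.tt_rfl hf hk hW g]
  rw [e, h.tt_congr (s g hg) hk W hW, tt_mul _ _ hk]

theorem tw_of (a : G.Tr b J k x y d f') : G.Tx b J k x y d f' :=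
  ⟨sz_gen (h.rh0 k) (h.Q0 k).le a.sz le_rfl le_rfl
    (mul_le_mul_of_nonneg_right (h.hy_sg k) (h.tn_nn a).2), a.re, a.rt⟩

variable (A : G.Tu b J)
include A

theorem f_ne (k : ℕ) (U : Conf) : G.f b J k U ≠ 0 :=
  fun e => (((h.f_facts J k).1 b A.b0).2.2 U).2.ne' (congrArg _ e)

theorem tw_sum {ι : Type} {s : Finset ι} {u : ι → Lx × Ac} {u' : ι → Conf → ℂ} (hk : k ≤ J)
    (a : ∀ t ∈ s, G.Tx b J k x y (u t) (u' t)) (γ : ι → ℝ) :
    G.Tx b J k ((∑ t ∈ s, |γ t|) * x) ((∑ t ∈ s, |γ t|) * y) (∑ t ∈ s, (γ t : ℂ) • u t)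
      fun U => ∑ t ∈ s, γ t * u' t U := by
  induction s using Finset.cons_induction with
  | empty =>
    obtain ⟨s, r, κ, -, p⟩ := (A.gd k hk).dt
    have := sz_smul (h.rh0 k) (sz_gen (h.rh0 k) (h.Q0 k).le s le_rfl le_rfl
      (mul_le_mul_of_nonneg_right (h.hy_sg k) zero_le_one)) 0
    refine ⟨by simpa [Gl.Sz] using this, by simpa using r.comb r (-1), κ, 0,
      fun U hU => ⟨p U hU, ?_⟩⟩
    obtain ⟨L, e, -⟩ := dR_lin (G.sl k (G.zz b J k)) (G.zz b J k).d U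
    simp [e]
  | cons t s hi ih =>
    have := h.tn_sub (α := -γ t) (ih fun j hj => a j (mem_cons_of_mem hj)) (a t (mem_cons_self ..))
      (h.om0 k).le (h.f_ne A k 1)
    simpa only [sum_cons, abs_neg, Complex.ofReal_neg, neg_smul, neg_mul, sub_neg_eq_add, add_mul,
      add_comm] using this

/-- the flux lemma along the run -/
theorem tw_fd (hk : k ≤ J) (a : G.Tx b J k x y d f') :
    (∀ e, |G.rs b J k e f' - (qc (d.1 0) (pt (EE e.1)) (pt (EE e.2))).re| ≤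
      (G.Q k ^ 250)⁻¹ * (x + y)) ∧ ∀ T E c, Det T E → Sgn (G.N k) T f' → 0 ≤ c →
        (∀ e ∈ E, |G.rs b J k e f'| ≤ c) → nb (d.1 0) ≤ 64 * c + (G.Q k ^ 250)⁻¹ * (x + y) := by
  have g := A.gd k hk
  have Q0 := h.Q0 k
  obtain ⟨x0, y0⟩ := h.tn_nn a
  have e : 10000 * (G.Q k ^ 14) ^ 2 * (G.Q k ^ 280)⁻¹ ≤ (G.Q k ^ 250)⁻¹ := by
    rw [show 10000 * (G.Q k ^ 14) ^ 2 * (G.Q k ^ 280)⁻¹ = 10 ^ 4 * (G.Q k ^ 252)⁻¹ by
      field_simp; norm_num]
    exact h.hy_pw k (by norm_num)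
  have e' := mul_le_mul_of_nonneg_right e (add_nonneg x0 y0)
  obtain ⟨a1, a2⟩ := (h.lf g.tz).fty (b := (G.zz b J k).d) (P := G.Q k ^ 14) (h.sz_sl g.dt.sz _)
    (h.sz_sl a.sz _) (h.re_sl a.re _) a.rt (h.f_ne A k _) (h.u_g k (by linarith [h.u_one k]))
    (h.hy_sg k) (h.hy_sg k) (h.om_one (h.om_mono k (by norm_num))) le_rfl
    ((pow_mul _ _ _).ge.trans ((pow_le_pow_right₀ (h.Q1 k) (by norm_num)).trans (h.Qb k)))
  rw [h.sl_nf] at a1 a2
  refine ⟨fun e => (a1 e).trans (le_trans ?_ e'), fun T E c hD s c0 hE =>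
    (a2 T E c hD ((h.f_facts J k).1 b A.b0).2.1 s c0 hE).trans (add_le_add le_rfl e')⟩
  change 10 * _ * (G.Q k ^ 280)⁻¹ * _ ≤ _
  gcongr
  norm_num

/-- the states of the run are base points -/
theorem tw_tg (hk : k < J) : St2 (G.sd k (G.zz b J (k + 1))) ∧
    Tg (G.sd k (G.zz b J (k + 1))) (G.Q (k + 1) ^ 280)⁻¹ (G.zz b J (k + 1)).d.1
      (G.zz b J (k + 1)).d.2 ∧ (G.Q (k + 1) ^ 280)⁻¹ ≤ (G.Q k ^ 280)⁻¹ :=
  have g := A.gd (k + 1) hk
  ⟨h.st2 g.tz, h.dt_tg g.tz (sz_gen (h.rh0 _) (h.Q0 _).le g.dt.sz (h.u_one _) (h.u_one _)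
    (mul_le_mul (h.hy_sg _) (h.u_one _) zero_le_one (h.om0 _).le)), h.om_succ k _⟩

variable (hp : G.Pu)
include hp

theorem tw_step (hk : k < J) (a : G.Tx b J (k + 1) x y d f') (h0 : 0 < x + y) :
    G.Tx b J k (x + G.Q k ^ 50 * (G.Q (k + 1) ^ 280)⁻¹ * (x + y)) (G.cr k * (x + y))
      (G.ts k (G.zz b J (k + 1)) (G.zz b J (k + 1)).d d) (TT (G.l k) (G.a k) (G.N k) f') ∧
    ∀ a a' δ δ', Cv 0 δ a → Cv 0 δ' a' →
      ‖qc ((G.ts k (G.zz b J (k + 1)) (G.zz b J (k + 1)).d d).1 0) a a' - qc (d.1 0) a a'‖ ≤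
        G.Q k ^ 50 * (G.Q (k + 1) ^ 280)⁻¹ * (x + y) * δ * δ' := by
  have g := A.gd (k + 1) hk
  have := h.tn_step hp g.tz hk ((A.v _ hk).trans (inv_anti₀ (by norm_num) ((h.cQ _ (by norm_num)).trans
    (le_self_pow₀ (h.Q1 _) (by norm_num))))) (A.lam k hk).1 g.dt.re (h.tw_tg A hk).2.1 a h0
    (h.om_succ k _)
  rw [Tx, zz_step b hk, h.f_step b hk]
  exact this

omit A hp in
theorem om_drift (k : ℕ) : 10 ^ 9 * (G.Q k ^ 50 * (G.Q (k + 1) ^ 280)⁻¹) ≤ 1 := by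
  have Q0 := h.Q0 k
  refine le_trans ?_ (h.inv_c k (j := 230) (by norm_num))
  rw [show (G.Q k ^ 230)⁻¹ = G.Q k ^ 50 * (G.Q k ^ 280)⁻¹ by field_simp]
  gcongr
  exact h.Q_mono k.le_succ

/-- the size of an arbitrary direction -/
theorem tw_grow (hi : i ≤ J) (a : G.Tx b J i N N d f') (N0 : 0 < N) : ∀ m ≤ i,
    G.Tx b J m (1.01 ^ (i - m) * N) (1.01 ^ (i - m) * N) (G.tc b J i d m) (G.tt f' i m) :=
  dw_ind (by simpa [tc_top, tt_top] using a) fun k hk ih => by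
    have p : 0 < 1.01 ^ (i - (k + 1)) * N := by positivity
    rw [tc_step _ hk, tt_step _ hk, show i - k = i - (k + 1) + 1 by omega, pow_succ', mul_assoc]
    refine h.tn_mono (h.tw_step A hp (hk.trans_le hi) ih (add_pos p p)).1 (h.om0 k).le ?_ ?_
    · nlinarith only [h.om_drift k, p]
    · nlinarith only [h.cr1 k, p]

/-- the two sided system of a tangent flow -/
theorem tw_sys (hi : i ≤ J) (a : G.Tx b J i x y d f') (y0 : 0 < y) : ∃ w : ℕ → ℝ, w i = y ∧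
    (∀ j ≤ i, 0 < w j ∧ G.Tx b J j (nb ((G.tc b J i d j).1 0)) (w j) (G.tc b J i d j) (G.tt f' i j)) ∧
    ∀ j < i, w j = G.cr j * (nb ((G.tc b J i d (j + 1)).1 0) + w (j + 1)) ∧
      nb ((G.tc b J i d (j + 1)).1 0) ≤ nb ((G.tc b J i d j).1 0) + 64 * (G.Q j ^ 50 *
        (G.Q (j + 1) ^ 280)⁻¹ * (nb ((G.tc b J i d (j + 1)).1 0) + w (j + 1))) := by
  obtain ⟨w, hw⟩ : ∃ w, w = dw (fun j w => G.cr j * (nb ((G.tc b J i d (j + 1)).1 0) + w)) y i :=
    ⟨_, rfl⟩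
  have ws : ∀ j < i, w j = G.cr j * (nb ((G.tc b J i d (j + 1)).1 0) + w (j + 1)) := fun j hj => by
    rw [hw, dw_step _ _ hj]
  have wt : w i = y := by rw [hw, dw_top]
  have H : ∀ j ≤ i, 0 < w j ∧
      G.Tx b J j (nb ((G.tc b J i d j).1 0)) (w j) (G.tc b J i d j) (G.tt f' i j) :=
    dw_ind (by rw [wt, tc_top, tt_top]; exact ⟨y0, h.tn_nb a⟩) fun j hj ih => by
      have p := add_pos_of_nonneg_of_pos (nb_nonneg ((G.tc b J i d (j + 1)).1 0)) ih.1
      rw [ws j hj, tc_step _ hj, tt_step _ hj]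
      exact ⟨mul_pos (h.cr0 j) p, h.tn_nb (h.tw_step A hp (hj.trans_le hi) ih.2 p).1⟩
  refine ⟨w, wt, H, fun j hj => ⟨ws j hj, nb_sub ?_⟩⟩
  rw [tc_step _ hj]
  exact (h.tw_step A hp (hj.trans_le hi) (H _ hj).2
    (add_pos_of_nonneg_of_pos (nb_nonneg _) (H _ hj).1)).2

/-- a direction with a small measured marginal part at the level `j` contracts -/
theorem kill (hD : Det T E) (hi : i ≤ J) (hj : j ≤ i) (a : G.Tx b J i x y d f') (y0 : 0 < y)
    (mf : Measurable f') (s : Sgn (G.N i) T f') (c0 : 0 ≤ c)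
    (z : ∀ e ∈ E, |G.rs b J j e (G.tt f' i j)| ≤ c) (h1 : j ≤ m) (h2 : m ≤ i) :
    G.Tx b J m (G.cP m i * y / 1000 + 70 * c * 1.01 ^ (m - j)) (G.cP m i * y + 700 * c * 1.01 ^ (m - j))
      (G.tc b J i d m) (G.tt f' i m) := by
  obtain ⟨w, wt, a1, a2⟩ := h.tw_sys A hp hi a y0
  obtain ⟨I, rfl⟩ := Nat.exists_eq_add_of_le hj
  obtain ⟨k, rfl⟩ := Nat.exists_eq_add_of_le h1
  have b1 := (h.tw_fd A (hj.trans hi) (a1 j hj).2).2 T E c hD (h.sgn_tt mf s hj) c0 z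
  have p : ∀ k : ℕ, 0 ≤ c * 1.01 ^ k := fun k => by positivity
  obtain ⟨c1, c2⟩ := two_sided_cmp (I := I) (C := 1) (a := 65 * c) (η := fun _ => 1000⁻¹)
    (c := fun k => G.cr (j + k)) (s := 0) (t := 0) (k := k)
    (x := fun k => nb ((G.tc b J (j + I) d (j + k)).1 0)) (y := fun k => w (j + k) / 1000)
    (A := fun k => 70 * (c * 1.01 ^ k)) (B := fun k => 0.7 * (c * 1.01 ^ k))
    ⟨le_rfl, fun _ _ => by norm_num, fun _ _ => by norm_num, fun _ _ => (h.cr0 _).le,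
      fun k _ => by linarith [h.cr1 (j + k), h.cr0 (j + k)]⟩
    ⟨by
      have := mul_le_mul_of_nonneg_right (h.inv_c j (j := 250) (by norm_num))
        (add_nonneg (nb_nonneg ((G.tc b J (j + I) d j).1 0)) (a1 _ hj).1.le)
      simp only [add_zero]
      linarith only [this, b1, (a1 _ hj).1, c0], fun k hk => by
      have q := (a1 (j + k + 1) (by omega)).1
      have n := nb_nonneg ((G.tc b J (j + I) d (j + k + 1)).1 0)
      have := mul_le_mul_of_nonneg_right (h.om_drift (j + k)) (add_nonneg n q.le)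
      simp only [Pi.zero_apply, ← add_assoc]
      linarith only [this, q, n, (a2 (j + k) (by omega)).2,
        nb_nonneg ((G.tc b J (j + I) d (j + k)).1 0)], fun k hk => by
      simp only [Pi.zero_apply, ← add_assoc, (a2 (j + k) (by omega)).1]
      linarith only [mul_nonneg (h.cr0 (j + k)).le
        (nb_nonneg ((G.tc b J (j + I) d (j + k + 1)).1 0))]⟩
    ⟨by simp only [pow_zero]; linarith only [c0], fun k _ => by
      simp only [Pi.zero_apply, pow_succ, ← mul_assoc c]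
      linarith only [p k], fun k _ => by
      simp only [Pi.zero_apply, pow_succ, ← mul_assoc c]
      nlinarith only [p k, h.cr1 (j + k)]⟩ (by omega)
  have e : ∏ n ∈ Ico k I, 2 * G.cr (j + n) = G.cP (j + k) (j + I) := by
    rw [cP, add_comm j k, add_comm j I]
    exact prod_Ico_add (fun n => 2 * G.cr n) k I j
  have m := mul_le_mul_of_nonneg_left (max_le (sub_le_self _ (show 0 ≤ 0.7 * (c * 1.01 ^ I) by
    linarith only [p I])) (show 0 ≤ w (j + I) / 1000 by rw [wt]; positivity))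
    (h.cP0 (j + k) (j + I)).le
  simp only [e] at c1 c2
  rw [wt] at m c1 c2
  rw [Nat.add_sub_cancel_left]
  exact h.tn_mono (a1 _ h2).2 (h.om0 _).le (by linarith only [c1, m]) (by linarith only [c2, m])

/-- among `n + 1` directions of a type with `n` marginal entries some combination contracts -/
theorem prop {n : ℕ} {u : Fin (n + 1) → Lx × Ac} {u' : Fin (n + 1) → Conf → ℂ} (hD : Det T E)
    (hE : E.length ≤ n) (hi : i ≤ J) (a : ∀ t, G.Tx b J i x y (u t) (u' t)) (y0 : 0 < y)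
    (mf : ∀ t, BC (u' t)) (s : ∀ t, Sgn (G.N i) T (u' t)) : ∃ γ : Fin (n + 1) → ℝ,
      ∑ t, |γ t| = 1 ∧ ∀ m ≤ i, G.Tx b J m (G.cP m i * y) (G.cP m i * y)
        (G.tc b J i (∑ t, (γ t : ℂ) • u t) m) (G.tt (fun U => ∑ t, γ t * u' t U) i m) := by
  obtain ⟨γ, g1, g2⟩ := exists_ker E hE fun e t => G.rs b J 0 e (G.tt (u' t) i 0)
  have a' := h.tw_sum A hi (s := univ) (fun t _ => a t) γ
  rw [g1, one_mul, one_mul] at a'
  refine ⟨γ, g1, fun m hm => h.tn_mono (h.kill A hp hD hi (Nat.zero_le _) a' y0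
    (bc_sum (fun t _ => mf t) _).1 (Sgn.sum (fun t _ => s t) _) le_rfl (fun e he => ?_)
    (Nat.zero_le _) hm) (h.om0 _).le ?_ (by simp)⟩
  · rw [tt_sum (fun t _ => mf t) _ (Nat.zero_le _), rs, rsp_sum]
    exact (congrArg abs (g2 e he)).trans_le abs_zero.le
  · linarith [mul_pos (h.cP0 m i) y0]

/-- a scalar direction is a multiple of the tangent of the run up to a contracting direction -/
theorem sca (hi : i ≤ J) (a : G.Tx b J i x y d f') (mf : BC f') (s : Sgn (G.N i) T1 f')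
    (y0 : 0 < y) : ∃ c : ℝ, |c| ≤ 2 * x + y ∧ ∀ m ≤ i, G.Tx b J m (G.cP m i * (20 * x + 11 * y))
      (G.cP m i * (20 * x + 11 * y)) (G.tc b J i (d - (c : ℂ) • G.tu b J i) m)
      (G.tt (fun U => f' U - c * G.df b J i U) i m) := by
  have t : ∀ k ≤ J, |(qc ((G.tu b J k).1 0) e1 e1).re - 1| ≤ 10⁻¹ := fun k hk => by
    obtain ⟨a1, a2⟩ := (h.tan_main hp A hk).2 _ le_rfl (pow_le_pow_right₀ (h.Q1 k) (by norm_num))
    have a3 := (Complex.abs_re_le_norm _).trans (a2 _ _ _ _ cv_e1 cv_e1)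
    have a4 := h.ep_le k (i := 4) (by norm_num)
    rw [Complex.sub_re, Complex.ofReal_re, m0_e1] at a3
    rw [ep, ← mul_assoc (G.Q k ^ 4), ← pow_add, show 4 + 501 = 505 from rfl] at a4
    rw [abs_le] at *
    constructor <;> linarith [h.inv_c k (j := 60) (by norm_num)]
  have tu := fun k hk => h.tw_of (h.tan_main hp A (k := k) hk).1
  have r : |G.rs b J 0 ((0, 1), (0, 1)) (G.df b J 0) - 1| ≤ 2⁻¹ := by
    have a1 := abs_le.1 ((h.tw_fd A (Nat.zero_le _) (tu 0 (Nat.zero_le _))).1 ((0, 1), (0, 1)))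
    have a2 := abs_le.1 (t 0 (Nat.zero_le _))
    rw [e1] at a2
    exact abs_le.2 ⟨by linarith [h.inv_c 0 (j := 250) (by norm_num)],
      by linarith [h.inv_c 0 (j := 250) (by norm_num)]⟩
  obtain ⟨c, hc⟩ : ∃ c : ℝ, G.rs b J 0 ((0, 1), (0, 1)) (G.tt f' i 0) =
      c * G.rs b J 0 ((0, 1), (0, 1)) (G.df b J 0) :=
    ⟨_, (div_mul_cancel₀ _ (by linarith [(abs_le.1 r).1])).symm⟩
  have a' := h.tn_sub (α := c) a (tu i hi) (h.om0 _).le (h.f_ne A i 1)
  have K := fun m hm => h.kill A hp (m := m) det1 hi (Nat.zero_le _) a' (by positivity)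
    (mf.1.sub ((df_bc hi).1.const_mul _)) (s.sub (sym_sgn (h.df_sym hi) (by decide)) c) le_rfl
    (fun e he => by
      rw [List.mem_singleton.1 he, tt_sub mf (df_bc hi) _ (Nat.zero_le _), df,
        tt_tt hi _ (Nat.zero_le _), ← df, rs, lg_sub]
      simp only [rs, rsp] at hc ⊢
      rw [abs_nonpos_iff, ← sub_eq_zero.2 hc]
      ring) (Nat.zero_le _) hm
  have c1 : |c| ≤ 2 * x + y := by
    have k1 := ((K i le_rfl).sz.1 0).1.cb _ _ _ _ cv_e1 cv_e1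
    have k2 := (a.sz.1 0).1.cb _ _ _ _ cv_e1 cv_e1
    have k3 := (PM.sub (h.rh0 i) a.sz.1 (sz_smul (h.rh0 i) (tu i hi).sz c).1).2 0 e1 e1
    have k4 := (((tu i hi).sz.1 0).1.smul (h.rh0 i) c).2 (cc e1) (cc e1)
    have k5 := mul_le_mul_of_nonneg_left (show 0.9 ≤ ‖qc ((G.tu b J i).1 0) e1 e1‖ by
      linarith [(abs_le.1 (t i hi)).1, Complex.re_le_norm (qc ((G.tu b J i).1 0) e1 e1)])
      (abs_nonneg c)
    rw [tc_top, cP_top] at k1
    erw [k3] at k1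
    rw [show qc (((c : ℂ) • (G.tu b J i).1) 0) e1 e1 = c * qc ((G.tu b J i).1 0) e1 e1 from k4] at k1
    have k6 := norm_sub_norm_le (c * qc ((G.tu b J i).1 0) e1 e1) (qc (d.1 0) e1 e1)
    rw [norm_sub_rev, norm_mul, Complex.norm_real, norm_eq_abs] at k6
    linarith [(h.tn_nn a).1]
  refine ⟨c, c1, fun m hm => ?_⟩
  have := mul_le_mul_of_nonneg_left (show y + |c| * 10 ≤ 20 * x + 11 * y by linarith) (h.cP0 m i).le
  have p : 0 < G.cP m i * (y + |c| * 10) := mul_pos (h.cP0 m i) (by positivity)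
  exact h.tn_mono (K m hm) (h.om0 _).le (by linarith) (by linarith)

end Ok

end Gl

end Pool.Agent.Lib.MP_7f377f_mp.RG.Q4.En
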