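import Pool.Agent.Lib.MP_7f377f_mp.G.MgC
import Pool.Agent.Lib.MP_7f377f_mp.G.TyK
import Pool.Agent.Lib.MP_7f377f_mp.G.Q5Br

/-! The adjoint of the block spin map. -/

noncomputable section

set_option linter.unusedSectionVars false
variable [Pool.Agent.Lib.MP_7f377f_mp.GD]

namespace Pool.Agent.Lib.MP_7f377f_mp.RG.Q4.En

open Finset MeasureTheory Ty Sg

/-- conditional expectation of a function of the block field -/
def Ta (l : ℕ) (a : ℝ) (n : ℕ) (P : Conf → ℂ) (U : Conf) : ℂ :=
  ∫ v : Conf × (St → Om), P (pc n v.1) *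
    (ker (blk l) l a n (pc n v.1) (pc (LL l * n) U) (pcs n v.2) : ℝ) ∂(PP.prod (OO l))

/-- the kernel of the conditional expectation -/
def kr (l : ℕ) (a : ℝ) (n : ℕ) (U : Conf) (v : Conf × (St → Om)) : ℝ :=
  ker (blk l) l a n (pc n v.1) (pc (LL l * n) U) (pcs n v.2)

section one

open Mx

variable {l n : ℕ} {a M : ℝ} {P P' f : Conf → ℂ} {U : Conf}

theorem pc_pc' {α : Type} (n : ℕ) (W : Lk → α) : pc n (pc n W) = pc n W := Sh.pc_per (per_pc n W)

theorem Ta_eq (P : Conf → ℂ) (U : Conf) :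
    Ta l a n P U = ∫ v, P (pc n v.1) * (kr l a n U v : ℝ) ∂PP.prod (OO l) := rfl

theorem Ta_pc (P : Conf → ℂ) (U : Conf) : Ta l a n P (pc (LL l * n) U) = Ta l a n P U := by
  simp only [Ta, pc_pc']

theorem meas_kr (l : ℕ) (a : ℝ) (n : ℕ) :
    Measurable fun z : Conf × Conf × (St → Om) => kr l a n z.1 z.2 := by
  have h : Measurable fun z : Conf × Conf × (St → Om) =>
      (pc n z.2.1, pc (LL l * n) z.1, pcs n z.2.2) :=
    ((Mx.cont_pc n).measurable.comp measurable_snd.fst).prodMk
      (((Mx.cont_pc _).measurable.comp measurable_fst).prodMk ((meas_pcs n).comp measurable_snd.snd))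
  have := (meas_ker l a n (measurable_blk l)).comp h
  simpa only [Function.comp_def, kr] using this

theorem meas_kr' (l : ℕ) (a : ℝ) (n : ℕ) (U : Conf) : Measurable (kr l a n U) := by
  have := (meas_kr l a n).comp (measurable_prodMk_left (x := U))
  simpa only [Function.comp_def] using this

theorem kr_bd (l : ℕ) (a : ℝ) (n : ℕ) : ∃ C : ℝ, ∀ U v, 0 ≤ kr l a n U v ∧ kr l a n U v ≤ C :=
  let ⟨C, h⟩ := ker_bd l a n
  ⟨C, fun _ _ => h _ _ _ _⟩

theorem int_kr (l : ℕ) (a : ℝ) (n : ℕ) (U : Conf) : Integrable (kr l a n U) (PP.prod (OO l)) :=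
  let ⟨C, h⟩ := kr_bd l a n
  .of_bound (meas_kr' l a n U).aestronglyMeasurable C (.of_forall fun v =>
    (Real.norm_of_nonneg (h U v).1).trans_le (h U v).2)

theorem int_Hk (a : ℝ) (n : ℕ) (V : Conf) : ∫ W, Hk a n W V ∂PP = 1 := by
  have c : Continuous fun w : ldom n → S3 => ∏ b : ldom n, hk a (w b * (V b)⁻¹) :=
    continuous_finsetProd _ fun b _ => (cont_hk a).comp (by fun_prop)
  have h := integral_restrict_infinitePi (μ := fun _ : Lk => haar) (s := ldom n)
    (f := fun w => ∏ b : ldom n, hk a (w b * (V b)⁻¹)) c.measurable.aestronglyMeasurable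
  rw [integral_fintype_prod_eq_prod fun (b : ldom n) g => hk a (g * (V b)⁻¹)] at h
  simp only [integral_mul_right_eq_self (μ := haar) (hk a), hk_one, prod_const_one] at h
  rw [← h]
  exact integral_congr_ae (.of_forall fun W =>
    (prod_coe_sort (ldom n) fun b => hk a (W b * (V b)⁻¹)).symm)

theorem kr_eq (hn : Odd n) (U : Conf) (v : Conf × (St → Om)) : kr l a n U v =
    Mx.Wt l n (pc (LL l * n) U) v.2 * Hk a n v.1 (blk l (pc (LL l * n) U) (pcs n v.2)) := by
  rw [kr, ker_eq]
  congr 1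
  · exact prod_congr rfl fun y hy => by simp only [pcs, rc_id hn hy]
  · exact prod_congr rfl fun b hb => by rw [pc_of_mem hn _ hb]

theorem kr_one (hn : Odd n) (U : Conf) : ∫ v, kr l a n U v ∂PP.prod (OO l) = 1 := by
  rw [integral_prod_symm _ (int_kr l a n U)]
  simp only [kr_eq hn, integral_const_mul, int_Hk, mul_one, int_Wt]

theorem meas_Ia (hP : Measurable P) : Measurable fun z : Conf × Conf × (St → Om) =>
    P (pc n z.2.1) * (kr l a n z.1 z.2 : ℝ) :=
  (hP.comp ((Mx.cont_pc n).measurable.comp measurable_snd.fst)).mul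
    (Complex.measurable_ofReal.comp (meas_kr l a n))

theorem int_Ia (hP : BC P) (U : Conf) : Integrable (fun v : Conf × (St → Om) =>
    P (pc n v.1) * (kr l a n U v : ℝ)) (PP.prod (OO l)) :=
  let ⟨_, hM⟩ := hP.2
  (int_kr l a n U).ofReal.bdd_mul
    (hP.1.comp ((Mx.cont_pc n).measurable.comp measurable_fst)).aestronglyMeasurable
    (.of_forall fun _ => hM _)

theorem Ta_meas (hP : Measurable P) : Measurable (Ta l a n P) :=
  ((meas_Ia hP).stronglyMeasurable.integral_prod_right' (ν := PP.prod (OO l))).measurable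

theorem Ta_bd (hn : Odd n) (hM : ∀ U, ‖P U‖ ≤ M) (U : Conf) : ‖Ta l a n P U‖ ≤ M := by
  obtain ⟨C, h⟩ := kr_bd l a n
  refine (norm_integral_le_of_norm_le ((int_kr l a n U).const_mul M) (.of_forall fun v => ?_)).trans
    (by rw [integral_const_mul, kr_one hn, mul_one])
  rw [norm_mul, Complex.norm_real]
  exact mul_le_mul (hM _) (Real.norm_of_nonneg (h U v).1).le (norm_nonneg _)
    ((norm_nonneg _).trans (hM 1))

theorem Ta_bc (hn : Odd n) (hP : BC P) : BC (Ta l a n P) :=
  let ⟨M, hM⟩ := hP.2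
  ⟨Ta_meas hP.1, M, Ta_bd hn hM⟩

theorem Ta_one (hn : Odd n) : Ta l a n (fun _ => 1) = fun _ => 1 := funext fun U => by
  simp only [Ta_eq, one_mul, integral_complex_ofReal, kr_one hn, Complex.ofReal_one]

theorem Ta_lin (hP : BC P) (hP' : BC P') (c : ℂ) (U : Conf) :
    Ta l a n (fun U => P U + c * P' U) U = Ta l a n P U + c * Ta l a n P' U := by
  rw [Ta_eq, Ta_eq, Ta_eq, ← integral_const_mul,
    ← integral_add (int_Ia hP U) ((int_Ia hP' U).const_mul c)]
  simp only [add_mul, mul_assoc]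

theorem Ta_real (h : ∀ U, (P U).im = 0) (U : Conf) : (Ta l a n P U).im = 0 := by
  have : P = fun U => ((P U).re : ℂ) := funext fun U => Complex.ext rfl (h U)
  rw [this, Ta]
  simp only [← Complex.ofReal_mul, integral_complex_ofReal, Complex.ofReal_im]

theorem Ta_congr (h : ∀ W, Per n W → P W = P' W) : Ta l a n P = Ta l a n P' :=
  funext fun _ => by simp only [Ta, h _ (Mx.per_pc _ _)]

theorem Ta_dual (hf : BC f) (hP : BC P) :
    ∫ W, TT l a n f (pc n W) * P (pc n W) ∂PP =
      ∫ U, f (pc (LL l * n) U) * Ta l a n P (pc (LL l * n) U) ∂PP := by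
  obtain ⟨C, hC⟩ := kr_bd l a n
  obtain ⟨m1, M1, h1⟩ := hf
  obtain ⟨m2, M2, h2⟩ := hP
  set F : Conf → Conf → (St → Om) → ℂ := fun U W ω =>
    f (pc (LL l * n) U) * (P (pc n W) * (kr l a n U (W, ω) : ℝ)) with hF
  have mF : Measurable fun z : Conf × Conf × (St → Om) => F z.1 z.2.1 z.2.2 :=
    (m1.comp ((Mx.cont_pc _).measurable.comp measurable_fst)).mul (meas_Ia m2)
  have bF : ∀ U W ω, ‖F U W ω‖ ≤ M1 * (M2 * C) := fun U W ω => by
    rw [hF, norm_mul, norm_mul, Complex.norm_real, Real.norm_of_nonneg (hC _ _).1]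
    exact mul_le_mul (h1 _) (mul_le_mul (h2 _) (hC _ _).2 (hC _ _).1
      ((norm_nonneg _).trans (h2 1))) (mul_nonneg (norm_nonneg _) (hC _ _).1)
      ((norm_nonneg _).trans (h1 1))
  have e1 : ∀ W, TT l a n f (pc n W) * P (pc n W) = ∫ U, ∫ ω, F U W ω ∂OO l ∂PP := fun W => by
    have m := mF.comp (f := fun v : Conf × (St → Om) => (v.1, W, v.2)) (by fun_prop)
    rw [← integral_prod (fun v : Conf × (St → Om) => F v.1 W v.2)
      (.of_bound m.aestronglyMeasurable _ (.of_forall fun _ => bF _ _ _)), TT, ← integral_mul_const]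
    exact integral_congr_ae (.of_forall fun v => by simp only [hF, kr]; ring)
  have e2 : ∀ U, f (pc (LL l * n) U) * Ta l a n P (pc (LL l * n) U) =
      ∫ W, ∫ ω, F U W ω ∂OO l ∂PP := fun U => by
    have m := mF.comp (measurable_prodMk_left (x := U))
    rw [← integral_prod (fun v : Conf × (St → Om) => F U v.1 v.2)
      (.of_bound m.aestronglyMeasurable _ (.of_forall fun _ => bF _ _ _)), Ta_pc, Ta_eq,
      ← integral_const_mul]
  simp only [e1, e2]
  have m := mF.comp (f := fun v : (Conf × Conf) × (St → Om) => (v.1.2, v.1.1, v.2)) (by fun_prop)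
  refine integral_integral_swap (f := fun W U => ∫ ω, F U W ω ∂OO l) (.of_bound
    (m.stronglyMeasurable.integral_prod_right' (ν := OO l)).aestronglyMeasurable (M1 * (M2 * C))
    (.of_forall fun z => ?_))
  simpa [Function.uncurry] using
    norm_integral_le_of_norm_le_const (μ := OO l) (.of_forall fun ω => bF z.2 z.1 ω)

theorem per_sh' {α : Type} {U : Lk → α} (h : Per n U) (v : St) : Per n (sh v U) :=
  per_iff.2 fun _ _ _ e => per_iff.1 h _ _ _ (e.add v)

theorem per_cf (h : Per n U) (g : Gn) : Per n (cf g U) := by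
  refine per_iff.2 fun x y μ e => ?_
  cases g with
  | inl σ => exact per_iff.1 h _ _ _ ((cg_pz σ).2 e)
  | inr k =>
    simp only [cf, rfl1_eq, rlk]
    exact congrArg _ (per_iff.1 h _ _ _ (((cg_rz k).2 e).add _))

/-- change of variables in the conditional expectation -/
theorem Ta_rel (hP : Measurable P) {S : Conf → Conf} {S' : (St → Om) → St → Om} {V : Conf}
    (hS : Measurable S) (hS' : Measurable S')
    (h1 : PP.map (fun W => S (pc n W)) = PP.map (pc n))
    (h2 : (OO l).map S' = (OO l).map (pcs n))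
    (e : ∀ W ω, ker (blk l) l a n (S (pc n W)) (pc (LL l * n) V) (S' ω) = kr l a n U (W, ω)) :
    Ta l a n (fun W => P (S W)) U = Ta l a n P V := by
  have h : Measurable fun z : Conf × (St → Om) => (z.1, pc (LL l * n) V, z.2) := by fun_prop
  have m := (hP.comp measurable_fst).mul
    (Complex.measurable_ofReal.comp ((meas_ker l a n (measurable_blk l)).comp h))
  simp only [Function.comp_def, Pi.mul_def] at m
  refine Eq.trans ?_ (int_rel (l := l) m (hS.comp (Mx.cont_pc n).measurable) hS' h1 h2)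
  exact integral_congr_ae (.of_forall fun v => by simp only [Function.comp, e, kr])

theorem Ta_gauge (hP : Measurable P) {u : St → S3} (hu : PS (LL l * n) u) (U : Conf) :
    Ta l a n (fun W => P (gauge Inv.inv (fun y => u (up l y)) W)) U =
      Ta l a n P (gauge Inv.inv u U) :=
  Ta_rel hP (Ms.mp_gauge _).measurable (meas_pcs n)
    (map_gauge fun _ _ h => PS_iff.1 hu _ _ (cg_up h)) rfl fun W ω => by
      rw [Mx.pc_gauge (PS_iff.1 hu), kr, ker_eq, ker_eq, Wt_gauge, (blk_gauge _ _ _ _).1, Hk_gauge]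

variable (hn : Odd n) (hP : Measurable P) (hU : Per (LL l * n) U)
include hn hP hU

theorem Ta_sh (x : St) : Ta l a n (fun W => P (sh x W)) U = Ta l a n P (sh (up l x) U) :=
  Ta_rel hP (Ms.cont_sh _).measurable (S' := fun ω y => pcs n ω (y + x))
    (measurable_pi_lambda _ fun _ => measurable_pi_apply _) (map_sh _ x)
    (map_rel (unO l) (T := fun _ => id) (fun _ => MeasurePreserving.id _)
      (rc_rc n) (fun _ _ => by simp only [rc_iff, cg_add_iff]) fun _ => rfl) fun W ω => by
    rw [kr, Sh.pc_per (per_sh' hU _), Sh.pc_per hU]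
    exact ker_rel hn (Mx.PL_pc _ _) (per_iff.1 hU) (PS_pcs _ _) (fun _ _ => cg_add_iff x)
      (rel_sh n x) (fun y => by rw [sh_sh, up_add]) fun b => by rw [blk_sh]; rfl

theorem Ta_cf (g : Gn) : Ta l a n (fun W => P (cf g W)) U = Ta l a n P (cf g U) := by
  have e := Sh.pc_per (per_cf hU g)
  cases g with
  | inl σ =>
    have hT := mp_unO l (T := opm σ⁻¹) (Function.bijective_iff_has_inverse.2
      ⟨opm σ, opm_inv σ, opm_inv σ⁻¹⟩) fun ω => pz_box _ _
    refine Ta_rel hP (cont_pm _).measurable (S' := fun ω y => opm σ⁻¹ (pcs n ω (pz σ y)))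
      (measurable_pi_lambda _ fun _ => hT.measurable.comp (measurable_pi_apply _)) (map_pm _ σ)
      (map_rel (unO l) (fun _ => hT)
        (rc_rc n) (fun _ _ => by simp only [rc_iff, cg_pz]) fun _ => rfl) fun W ω => ?_
    rw [kr, e, Sh.pc_per hU, cf]
    exact ker_rel hn (Mx.PL_pc _ _) (per_iff.1 hU) (PS_pcs _ _) (fun _ _ => cg_pz σ) (rel_pm n σ)
      (fun y => by rw [sh_pm, wt_pm, opm_inv, pz_up]) fun b => by
        rw [blk_pm σ l _ fun y => opm_inv _ _]; rfl
  | inr k =>
    have hT := mp_unO l (T := orf k) (Function.Involutive.bijective (orf_orf k))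
      fun ω => rz_box _ _
    refine Ta_rel hP (cont_rfl k).measurable (S' := fun ω y => orf k (pcs n ω (rz k y)))
      (measurable_pi_lambda _ fun _ => hT.measurable.comp (measurable_pi_apply _)) (map_rfl _ k)
      (map_rel (unO l) (fun _ => hT)
        (rc_rc n) (fun _ _ => by simp only [rc_iff, cg_rz]) fun _ => rfl) fun W ω => ?_
    rw [kr, e, Sh.pc_per hU, cf]
    refine ker_rel hn (Mx.PL_pc _ _) (per_iff.1 hU) (PS_pcs _ _) (fun _ _ => cg_rz k) (rel_rfl n k)
      (fun y => by rw [sh_rfl, wt_rfl, orf_orf, rz_up]) fun b => ?_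
    rw [blk_rfl k l _ fun y => orf_orf _ _, rfl1_eq, rfl1_eq]
    split_ifs
    · rw [← hk_inv, ← Mx.hk_conj a (blk l U (pcs n ω) (rlk k b))]
      congr 1
      group
    · rfl

end one

namespace Gl

variable (G : Gl)

/-- a function of the field of level `i` as a function of the field of level `i + m` -/
def ta' (P : Conf → ℂ) (i : ℕ) : ℕ → Conf → ℂ
  | 0 => fun U => P (pc (G.N i) U)
  | m + 1 => Ta (G.l (i + m)) (G.a (i + m)) (G.N (i + m)) (ta' P i m)

/-- a function of the field of level `i` as a function of the field of level `J` -/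
def ta (P : Conf → ℂ) (J i : ℕ) : Conf → ℂ := G.ta' P i (J - i)

/-- the support upstairs -/
def us (Y : Finset St) (J i : ℕ) : Finset St :=
  tb (G.N J) (2 * G.rt J i) (Y.image fun y => (G.rt J i : ℤ) • y)

variable {G} {P P' f : Conf → ℂ} {J i : ℕ} {M : ℝ} {Y : Finset St} {U : Conf}

theorem ta_top : G.ta P i i = fun U => P (pc (G.N i) U) := by rw [ta, Nat.sub_self, ta']

theorem ta_step (hi : i ≤ J) :
    G.ta P (J + 1) i = Ta (G.l J) (G.a J) (G.N J) (G.ta P J i) := by
  rw [ta, ta, Nat.succ_sub hi, ta', Nat.add_sub_cancel' hi]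

namespace Ok

variable (h : G.Ok) (hi : i ≤ J)
include h hi

theorem rt_up : G.rt (J + 1) i = G.L J * G.rt J i :=
  Nat.eq_of_mul_eq_mul_right (h.N_odd i).pos (by
    rw [h.rt_N (hi.trans J.le_succ), mul_assoc, h.rt_N hi, h.N_succ])

theorem ta_bd (hP : Measurable P) (hM : ∀ U, ‖P U‖ ≤ M) :
    Measurable (G.ta P J i) ∧ ∀ U, ‖G.ta P J i U‖ ≤ M := by
  induction J, hi using Nat.le_induction with
  | base => exact ta_top (G := G) ▸ ⟨hP.comp (Mx.cont_pc _).measurable, fun _ => hM _⟩
  | succ J hi ih => exact ta_step (G := G) hi ▸ ⟨Ta_meas ih.1, Ta_bd (h.N_odd J) ih.2⟩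

theorem ta_bc (hP : BC P) : BC (G.ta P J i) :=
  let ⟨M, hM⟩ := hP.2
  ⟨(h.ta_bd hi hP.1 hM).1, M, (h.ta_bd hi hP.1 hM).2⟩

theorem ta_pc (U : Conf) : G.ta P J i (pc (G.N J) U) = G.ta P J i U := by
  induction J, hi using Nat.le_induction with
  | base => simp only [ta_top, pc_pc']
  | succ J hi _ => rw [ta_step hi, ← h.N_succ]; exact Ta_pc _ _

theorem ta_one : G.ta (fun _ => 1) J i = fun _ => 1 := by
  induction J, hi using Nat.le_induction with
  | base => exact ta_top
  | succ J hi ih => rw [ta_step hi, ih, Ta_one (h.N_odd J)]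

theorem ta_lin (hP : BC P) (hP' : BC P') (c : ℂ) :
    G.ta (fun U => P U + c * P' U) J i = fun U => G.ta P J i U + c * G.ta P' J i U := by
  induction J, hi using Nat.le_induction with
  | base => simp only [ta_top]
  | succ J hi ih =>
    simp only [ta_step hi, ih]
    exact funext (Ta_lin (h.ta_bc hi hP) (h.ta_bc hi hP') c)

theorem ta_real (hP : ∀ U, (P U).im = 0) (U : Conf) : (G.ta P J i U).im = 0 := by
  have _ := h
  induction J, hi using Nat.le_induction generalizing U with
  | base => rw [ta_top]; exact hP _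
  | succ J hi ih => rw [ta_step hi]; exact Ta_real ih U

theorem ta_congr (e : ∀ U, Per (G.N i) U → P U = P' U) : G.ta P J i = G.ta P' J i := by
  have _ := h
  induction J, hi using Nat.le_induction with
  | base => simp only [ta_top, e _ (Mx.per_pc _ _)]
  | succ J hi ih => rw [ta_step hi, ta_step hi, ih]

/-- duality -/
theorem ta_dual (hf : BC f) (hP : BC P) :
    ∫ W, G.tt f J i (pc (G.N i) W) * P (pc (G.N i) W) ∂PP =
      ∫ U, f (pc (G.N J) U) * G.ta P J i (pc (G.N J) U) ∂PP := by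
  have : ∀ k, i ≤ k → k ≤ J → ∫ W, G.tt f J i (pc (G.N i) W) * P (pc (G.N i) W) ∂PP =
      ∫ U, G.tt f J k (pc (G.N k) U) * G.ta P k i (pc (G.N k) U) ∂PP := fun k hk hJ => by
    induction k, hk using Nat.le_induction with
    | base => simp only [ta_top, pc_pc']
    | succ k hk ih =>
      rw [ih (by omega), tt_step f hJ, Ta_dual (tt_bc hf hJ) (h.ta_bc hk hP), ta_step hk,
        ← h.N_succ]
      rfl
  rw [this J hi le_rfl, tt_top]

/-- covariance -/
theorem ta_sh (hP : BC P) (hU : Per (G.N J) U) (x : St) :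
    G.ta (fun W => P (sh x W)) J i U = G.ta P J i (sh ((G.rt J i : ℤ) • x) U) := by
  induction J, hi using Nat.le_induction generalizing U with
  | base => simp only [ta_top, rt_top, Nat.cast_one, one_smul, Sh.pc_per hU,
      Sh.pc_per (per_sh' hU x)]
  | succ J hi ih =>
    rw [ta_step hi, ta_step hi, Ta_congr fun W hW => ih hW,
      Ta_sh (h.N_odd J) (h.ta_bc hi hP).1 (h.N_succ J ▸ hU :), up, smul_smul, h.rt_up hi,
      Nat.cast_mul]
    rfl

theorem ta_cf (hP : BC P) (hU : Per (G.N J) U) (g : Gn) :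
    G.ta (fun W => P (cf g W)) J i U = G.ta P J i (cf g U) := by
  induction J, hi using Nat.le_induction generalizing U with
  | base => simp only [ta_top, Sh.pc_per hU, Sh.pc_per (per_cf hU g)]
  | succ J hi ih =>
    rw [ta_step hi, ta_step hi, Ta_congr fun W hW => ih hW,
      Ta_cf (h.N_odd J) (h.ta_bc hi hP).1 (h.N_succ J ▸ hU :)]

end Ok

end Gl

end Pool.Agent.Lib.MP_7f377f_mp.RG.Q4.En
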