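import Pool.Agent.Lib.MP_7f377f_mp.G.CaA

/-! The adjoint of the block spin map: locality and conditional independence. -/

noncomputable section

set_option linter.unusedSectionVars false
variable [Pool.Agent.Lib.MP_7f377f_mp.GD]

namespace Pool.Agent.Lib.MP_7f377f_mp.RG.Q4.En

open Finset MeasureTheory Ty Sg

namespace Ca

open Mx

section wi

variable {ι X : Type} [MeasurableSpace X] (m : Measure X) [IsProbabilityMeasure m]

/-- integral with a product weight -/
def wi (D : Finset ι) (ρ : ι → X → ℝ) (F : (ι → X) → ℂ) : ℂ :=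
  ∫ x, (∏ i ∈ D, (ρ i (x i) : ℂ)) * F x ∂Measure.infinitePi fun _ => m

/-- probability densities -/
def Dn (ρ : ι → X → ℝ) : Prop := ∀ i, Measurable (ρ i) ∧ ∫ x, ρ i x ∂m = 1

variable {m} {D : Finset ι} {ρ ρ' : ι → X → ℝ} {F F' : (ι → X) → ℂ} {S S' : Set ι}

theorem meas_w (hρ : Dn m ρ) (i : ι) : Measurable fun x : ι → X => (ρ i (x i) : ℂ) :=
  Complex.measurable_ofReal.comp ((hρ i).1.comp (measurable_pi_apply i))

theorem wi_one (hρ : Dn m ρ) : wi m D ρ (fun _ => 1) = 1 := by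
  simp only [wi, mul_one]
  rw [(int_prod (m := fun _ => m) D (A := fun i => {i}) (fun i _ => meas_w hρ i)
    (fun i _ x y e => by simp only [e i rfl]) fun i _ j _ e => Set.disjoint_singleton.2 e).1]
  refine prod_eq_one fun i _ => ?_
  have := integral_map (μ := Measure.infinitePi fun _ : ι => m)
    (measurable_pi_apply i).aemeasurable (hρ i).1.aestronglyMeasurable
  rw [Measure.infinitePi_map_eval, (hρ i).2] at this
  rw [integral_complex_ofReal, ← this, Complex.ofReal_one]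

open Classical in
theorem wi_split (hρ : Dn m ρ) (hF : Measurable F) (hF' : Measurable F') (e : DependsOn F S)
    (e' : DependsOn F' Sᶜ) : wi m D ρ (fun x => F x * F' x) =
      wi m (D.filter (· ∈ S)) ρ F * wi m (D.filter (· ∉ S)) ρ F' := by
  have k : ∀ {T : Set ι} {E : Finset ι} {H : (ι → X) → ℂ}, (∀ i ∈ E, i ∈ T) → DependsOn H T →
      DependsOn (fun x => (∏ i ∈ E, (ρ i (x i) : ℂ)) * H x) T := fun a b x y c => by
    simp only [b c]
    exact congrArg (· * _) (prod_congr rfl fun i hi => by rw [c i (a i hi)])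
  refine Eq.trans (integral_congr_ae (.of_forall fun x => ?_))
    (int_indep ((measurable_fun_prod _ fun i _ => meas_w hρ i).fun_mul hF)
      ((measurable_fun_prod _ fun i _ => meas_w hρ i).fun_mul hF')
      (k (E := D.filter (· ∈ S)) (fun i hi => (mem_filter.1 hi).2) e)
      (k (E := D.filter (· ∉ S)) (fun i hi => (mem_filter.1 hi).2) e') disjoint_compl_right)
  simp only [← prod_filter_mul_prod_filter_not D (· ∈ S)]
  ring

open Classical in
theorem wi_loc (hρ : Dn m ρ) (hF : Measurable F) (e : DependsOn F S) :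
    wi m D ρ F = wi m (D.filter (· ∈ S)) ρ F := by
  have := wi_split (D := D) hρ hF (measurable_const (a := 1)) e fun _ _ _ => rfl
  simpa only [mul_one, wi_one hρ] using this

theorem wi_mul (hρ : Dn m ρ) (hF : Measurable F) (hF' : Measurable F') (e : DependsOn F S)
    (e' : DependsOn F' S') (d : Disjoint S S') :
    wi m D ρ (fun x => F x * F' x) = wi m D ρ F * wi m D ρ F' := by
  have e2 := e'.mono d.subset_compl_left
  have := wi_split (D := D) hρ (measurable_const (a := 1)) hF' (fun _ _ _ => rfl) e2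
  simp only [one_mul, wi_one hρ] at this
  rw [wi_split hρ hF hF' e e2, ← wi_loc hρ hF e, this]

theorem wi_prod (hρ : Dn m ρ) {J : Type} (s : Finset J) {f : J → (ι → X) → ℂ} {A : J → Set ι}
    (hf : ∀ j ∈ s, Measurable (f j) ∧ DependsOn (f j) (A j))
    (d : ∀ j ∈ s, ∀ k ∈ s, j ≠ k → Disjoint (A j) (A k)) :
    wi m D ρ (fun x => ∏ j ∈ s, f j x) = ∏ j ∈ s, wi m D ρ (f j) := by
  induction s using Finset.cons_induction with
  | empty => exact wi_one hρ
  | cons j s hj ih =>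
    have s1 : ∀ k ∈ s, k ∈ cons j s hj := fun k => mem_cons_of_mem
    have s0 := mem_cons_self j s (h := hj)
    simp only [prod_cons]
    rw [wi_mul hρ (hf j s0).1 (measurable_fun_prod s fun k hk => (hf k (s1 k hk)).1) (hf j s0).2
      (dep_prod s fun k hk => (hf k (s1 k hk)).2) (Set.disjoint_iUnion₂_right.2 fun k hk =>
        d j s0 k (s1 k hk) fun e => hj (e ▸ hk)),
      ih (fun k hk => hf k (s1 k hk)) fun k hk k' hk' => d k (s1 k hk) k' (s1 k' hk')]

theorem wi_congr (hρ : Dn m ρ) (hρ' : Dn m ρ') (hF : Measurable F) (hF' : Measurable F')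
    (e : DependsOn F S) (e' : DependsOn F' S) (a : ∀ i ∈ D, i ∈ S → ρ i = ρ' i)
    (b : ∀ x, (∀ i ∈ D, i ∈ S → ρ i (x i) ≠ 0) → F x = F' x) : wi m D ρ F = wi m D ρ' F' := by
  classical
  rw [wi_loc hρ hF e, wi_loc hρ' hF' e']
  refine integral_congr_ae (.of_forall fun x => ?_)
  have c : ∏ i ∈ D.filter (· ∈ S), (ρ' i (x i) : ℂ) = ∏ i ∈ D.filter (· ∈ S), (ρ i (x i) : ℂ) :=
    prod_congr rfl fun i hi => by rw [a i (mem_filter.1 hi).1 (mem_filter.1 hi).2]
  simp only [c]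
  by_cases z : ∏ i ∈ D.filter (· ∈ S), (ρ i (x i) : ℂ) = 0
  · simp only [z, zero_mul]
  · rw [b x fun i h1 h2 h3 => z (prod_eq_zero (mem_filter.2 ⟨h1, h2⟩) (by rw [h3]; rfl))]

end wi

variable {l n : ℕ} {a : ℝ} {P : Conf → ℂ} {Y : Finset St} {U V V' : Conf}

/-- the links with both ends in `Y` -/
def lk (n : ℕ) (Y : Finset St) : Set Lk := {b | rc n b.1 ∈ Y ∧ rc n (b.1 + un b.2) ∈ Y}

/-- average over the noise -/
def Nz (a : ℝ) (n : ℕ) (P : Conf → ℂ) (B : Conf) : ℂ :=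
  wi haar (ldom n) (fun b g => hk a (g * (B b)⁻¹)) P

theorem dn_hk (a : ℝ) (B : Conf) : Dn haar fun b g => hk a (g * (B b)⁻¹) := fun b =>
  ⟨((cont_hk a).comp (by fun_prop)).measurable, by
    simp only [integral_mul_right_eq_self (μ := haar) (hk a), hk_one]⟩

theorem dn_wt (l : ℕ) (V : Conf) : Dn (unO l) fun y => wt l (sh (up l y) V) := fun _ =>
  ⟨Measurable.of_discrete, (wt_int l _).2.1⟩

theorem Nz_eq (B : Conf) : Nz a n P B = ∫ W, (Hk a n W B : ℝ) * P W ∂PP := by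
  simp only [Nz, wi, Hk, Complex.ofReal_prod, PP]

theorem meas_Nz (hP : Measurable P) (V : Conf) :
    Measurable fun ω => Nz a n P (blk l V (pcs n ω)) := by
  have h1 : Measurable fun z : Conf × Conf => ((Hk a n z.2 z.1 : ℝ) : ℂ) * P z.2 :=
    (Complex.measurable_ofReal.comp ((cont_Hk a n).measurable.comp measurable_swap)).mul
      (hP.comp measurable_snd)
  have h2 := (h1.stronglyMeasurable.integral_prod_right' (ν := PP)).measurable.comp
    ((meas_bp l n).comp (measurable_prodMk_left (x := V)))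
  simpa only [Function.comp_def, Nz_eq] using h2

theorem Ta_wi (hn : Odd n) (hP : BC P) (e : ∀ U, P (pc n U) = P U) (U : Conf) :
    Ta l a n P U = wi (unO l) (box (n / 2)) (fun y => wt l (sh (up l y) (pc (LL l * n) U)))
      fun ω => Nz a n P (blk l (pc (LL l * n) U) (pcs n ω)) := by
  rw [Ta_eq, integral_prod_symm _ (int_Ia hP U)]
  refine integral_congr_ae (.of_forall fun ω => ?_)
  simp only [kr_eq hn, e, Nz_eq, ← integral_const_mul, Mx.Wt, ← Complex.ofReal_prod]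
  refine integral_congr_ae (.of_forall fun W => ?_)
  simp only [Complex.ofReal_mul]
  ring

theorem Nz_congr (e : Mg.LF n Y P) {B B' : Conf} (h : ∀ b ∈ lk n Y, B b = B' b) :
    Nz a n P B = Nz a n P B' :=
  wi_congr (dn_hk a B) (dn_hk a B') e.meas e.meas e.dep e.dep
    (fun b _ hb => by simp only [h b hb]) fun _ _ => rfl

theorem dep_Nz (e : Mg.LF n Y P) (V : Conf) :
    DependsOn (fun ω => Nz a n P (blk l V (pcs n ω))) (Y : Set St) := fun ω ω' h =>
  Nz_congr e fun b hb => by simp only [blk, pcs, h _ hb.1, h _ hb.2]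

theorem Ta_prod (hn : Odd n) {ι : Type} {A : Finset ι} {P : ι → Conf → ℂ} {Y : ι → Finset St}
    (hP : ∀ c ∈ A, BC (P c) ∧ Mg.LF n (Y c) (P c))
    (d : ∀ c ∈ A, ∀ c' ∈ A, c ≠ c' → Disjoint (Y c) (Y c')) (U : Conf) :
    Ta l a n (fun U => ∏ c ∈ A, P c U) U = ∏ c ∈ A, Ta l a n (P c) U := by
  have b : BC fun U => ∏ c ∈ A, P c U := by
    choose! M hM using fun c hc => (hP c hc).1.2
    exact ⟨measurable_fun_prod _ fun c hc => (hP c hc).1.1, ∏ c ∈ A, M c, fun U =>
      (Finset.norm_prod_le _ _).trans (prod_le_prod (fun _ _ => norm_nonneg _) fun c hc => hM c hc U)⟩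
  have z : ∀ B, Nz a n (fun U => ∏ c ∈ A, P c U) B = ∏ c ∈ A, Nz a n (P c) B := fun B =>
    wi_prod (dn_hk a B) A (A := fun c => lk n (Y c)) (fun c hc => ⟨(hP c hc).2.meas, (hP c hc).2.dep⟩)
      fun c hc c' hc' e => Set.disjoint_left.2 fun _ h h' => disjoint_left.1 (d c hc c' hc' e) h.1 h'.1
  rw [Ta_wi hn b fun U => prod_congr rfl fun c hc => (hP c hc).2.per U,
    prod_congr rfl fun c hc => Ta_wi hn (hP c hc).1 (hP c hc).2.per U]
  simp only [z]
  exact wi_prod (dn_wt l _) A (fun c hc => ⟨meas_Nz (hP c hc).2.meas _, dep_Nz (hP c hc).2 _⟩)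
    fun c hc c' hc' e => disjoint_coe.2 (d c hc c' hc' e)

theorem Ta_lf (hn : Odd n) (hP : BC P) (e : Mg.LF n Y P) :
    Mg.LF (LL l * n) (tb (LL l * n) (3 * l + 2) (Y.image (up l))) (Ta l a n P) := by
  refine ⟨Ta_meas hP.1, Ta_pc P, fun U U' h => ?_, fun u U hu => ?_⟩
  · have ag : ∀ y, rc n y ∈ Y → Agr (3 * l + 1) (sh (up l y) (pc (LL l * n) U))
        (sh (up l y) (pc (LL l * n) U')) := fun y hy b hb => by
      have k : ∀ t ∈ box (3 * l + 2), rc (LL l * n) (t + up l y) ∈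
          tb (LL l * n) (3 * l + 2) (Y.image (up l)) := fun t ht => by
        refine mem_image.2 ⟨_, add_mem_add (mem_image_of_mem _ hy) ht, rc_cg ?_⟩
        rw [add_comm t]
        exact (cg_up (cg_rc n y)).add t
      refine h _ ⟨?_, ?_⟩
      · rw [rc_rc]
        exact k _ (box_mono (by omega) (mem_lbox.1 hb))
      · rw [rc_cg ((cg_rc _ _).add _), add_right_comm]
        exact k _ (add_mem_box (mem_lbox.1 hb) (un_mem_box b.2) :)
    rw [Ta_wi hn hP e.per, Ta_wi hn hP e.per]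
    refine wi_congr (dn_wt l _) (dn_wt l _) (meas_Nz hP.1 _) (meas_Nz hP.1 _) (dep_Nz e _)
      (dep_Nz e _) (fun y hy h' => funext (wt_agr (ag y (by rwa [rc_id hn hy]))))
      fun ω hω => Nz_congr e fun b hb => av_agr (ag _ hb.1) _
        (wt_mem (hω _ (rc_box hn _) hb.1)) (wt_mem (hω _ (rc_box hn _) hb.2))
  · rw [← Ta_gauge hP.1 hu]
    have : PS n fun y => u (up l y) := PS_iff.2 fun _ _ h => PS_iff.1 hu _ _ (cg_up h)
    simp only [e.gi _ _ this]

theorem tb_up {R R' : ℕ} {X : Finset St} : tb (LL l * n) R' ((tb n R X).image (up l)) ⊆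
    tb (LL l * n) (LL l * R + R') (X.image (up l)) := by
  intro z
  simp only [mem_tb, mem_image]
  rintro ⟨h1, _, ⟨y, ⟨-, x, hx, h4⟩, rfl⟩, h3⟩
  exact ⟨h1, _, ⟨x, hx, rfl⟩, (Pos.near_up h4).trans h3⟩

theorem disj_up {ρ : ℕ} {X X' : Finset St} (h0 : 0 < ρ) (d : Disjoint (tb n 2 X) (tb n 2 X')) :
    Disjoint (tb (ρ * n) (2 * ρ - 2) (X.image fun y => (ρ : ℤ) • y))
      (tb (ρ * n) (2 * ρ - 2) (X'.image fun y => (ρ : ℤ) • y)) := by
  refine disjoint_left.2 fun z h h' => ?_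
  obtain ⟨-, _, h2, h3⟩ := mem_tb.1 h
  obtain ⟨-, _, h2', h3'⟩ := mem_tb.1 h'
  obtain ⟨y, hy, rfl⟩ := mem_image.1 h2
  obtain ⟨y', hy', rfl⟩ := mem_image.1 h2'
  obtain ⟨v, hv⟩ := nearT_iff.1 (h3.trans h3'.symm)
  have k : nearT n (2 + 2) y y' := nearT_iff.2 ⟨v, fun i => by
    obtain ⟨r, rfl⟩ : ∃ r, ρ = r + 1 := ⟨ρ - 1, by omega⟩
    have := hv i
    rw [show 2 * (r + 1) - 2 = 2 * r by omega] at this
    simp only [Pi.smul_apply, smul_eq_mul] at this
    push_cast at this ⊢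
    have r0 : (0 : ℤ) ≤ r := Nat.cast_nonneg r
    constructor <;> nlinarith⟩
  obtain ⟨w, w1, w2⟩ := k.split
  exact disjoint_left.1 d (mem_tb.2 ⟨rc_rc n w, y, hy, nearT_rc_right.2 w1⟩)
    (mem_tb.2 ⟨rc_rc n w, y', hy', nearT_rc_right.2 w2.symm⟩)

end Ca

namespace Gl

variable {G : Gl} {P P' f : Conf → ℂ} {J i : ℕ} {M : ℝ} {Y : Finset St} {U : Conf}

namespace Ok

variable (h : G.Ok) (hi : i ≤ J)
include h hi

theorem ta_lf0 (hP : BC P) (e : Mg.LF (G.N i) Y P) : Mg.LF (G.N J)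
    (tb (G.N J) (2 * G.rt J i - 2) (Y.image fun y => (G.rt J i : ℤ) • y)) (G.ta P J i) := by
  induction J, hi using Nat.le_induction with
  | base =>
    have k : ∀ y, rc (G.N i) y ∈ Y → rc (G.N i) y ∈ tb (G.N i) (2 * 1 - 2) Y := fun y hy =>
      mem_tb.2 ⟨Mx.rc_rc _ _, _, hy, nearT.refl _ _ _⟩
    simp only [ta_top, e.per, rt_top, Nat.cast_one, one_smul, image_id']
    exact ⟨e.meas, e.per, e.dep.mono fun _ a => ⟨k _ a.1, k _ a.2⟩, e.gi⟩
  | succ J hi ih =>
    rw [ta_step hi, ← h.N_succ, h.rt_up hi]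
    refine (Ca.Ta_lf (h.N_odd J) (h.ta_bc hi hP) ih).mono (Ca.tb_up.trans (tb_mono ?_ ?_))
    · rw [image_image]
      refine (image_congr fun y _ => ?_).subset
      simp only [Function.comp, up, smul_smul, L, Nat.cast_mul]
    · have h1 := h.L_big J
      obtain ⟨r, hr⟩ : ∃ r, G.rt J i = r + 1 := ⟨G.rt J i - 1, by
        have : 0 < G.rt J i := pow_pos three_pos _
        omega⟩
      rw [hr, show 2 * (r + 1) - 2 = 2 * r by omega, L, mul_add, mul_left_comm] at *
      unfold LL at *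
      omega

/-- locality and gauge invariance -/
theorem ta_lf (hP : BC P) (e : Mg.LF (G.N i) Y P) : Mg.LF (G.N J) (G.us Y J i) (G.ta P J i) :=
  (h.ta_lf0 hi hP e).mono (tb_mono Subset.rfl (Nat.sub_le _ _))

/-- conditional independence -/
theorem ta_prod {ι : Type} {A : Finset ι} {P : ι → Conf → ℂ} {Y : ι → Finset St}
    (hP : ∀ c ∈ A, BC (P c) ∧ Mg.LF (G.N i) (Y c) (P c))
    (d : ∀ c ∈ A, ∀ c' ∈ A, c ≠ c' → Disjoint (tb (G.N i) 2 (Y c)) (tb (G.N i) 2 (Y c'))) :
    G.ta (fun U => ∏ c ∈ A, P c U) J i = fun U => ∏ c ∈ A, G.ta (P c) J i U := by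
  induction J, hi using Nat.le_induction with
  | base => simp only [ta_top]
  | succ J hi ih =>
    simp only [ta_step hi, ih]
    refine funext (Ca.Ta_prod (h.N_odd J) (fun c hc => ⟨h.ta_bc hi (hP c hc).1,
      h.ta_lf0 hi (hP c hc).1 (hP c hc).2⟩) fun c hc c' hc' e => ?_)
    rw [← h.rt_N hi]
    exact Ca.disj_up (pow_pos three_pos _) (d c hc c' hc' e)

end Ok

end Gl

end Pool.Agent.Lib.MP_7f377f_mp.RG.Q4.En
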