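import Pool.Agent.Lib.MP_7f377f_mp.G.SbC

/-! The letters and their operator bounds. -/

noncomputable section

namespace Pool.Agent.Lib.MP_7f377f_mp.Ope
variable [Pool.Agent.Lib.MP_7f377f_mp.GD]
set_option linter.unusedSectionVars false

open Filter Topology Set Real YM7 Pur PN MvPolynomial Metric
open scoped NNReal

variable {S : Pol →ₗ[ℂ] ℂ} {k : ℕ}

/-- operator bounds for all data, with a radius which depends on the data only -/
theorem cut (hS : net.St S) (hL : LinP S) {f : Fin k → R4 → ℝ} (hf : Adm f) : ∃ t, ∀ᶠ e in atTop, ∃ R, ∀ K, ∃ Λ, ∀ Y s r η T,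
    0 < r → r ≤ (3 ^ (e + t))⁻¹ → 0 ≤ η → Gl S (e + t) r Y → Sg s Y →
      My S Y e (3 ^ (e + t))⁻¹ K η → net.QB S (wd Y T f) R (Λ * η ^ T.card) := by
  obtain ⟨L, q, f1, f2, f3⟩ := hf.data
  obtain ⟨t, ht⟩ : ∃ t, 3 * k < 3 ^ t := ⟨_, Nat.lt_pow_self (by norm_num)⟩
  refine ⟨t, ?_⟩
  filter_upwards [(tendsto_inv_atTop_zero.comp (tendsto_pow_atTop_atTop_of_one_lt
    (show (1 : ℝ) < 3 by norm_num))).eventually_lt_const
      (show (0 : ℝ) < 1 / (q + 1) / 2 by positivity)] with e (he : ((3 : ℝ) ^ e)⁻¹ < _)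
  obtain ⟨ε, hε⟩ : ∃ ε : ℝ, ε = (3 ^ (e + t))⁻¹ := ⟨_, rfl⟩
  have ε0 : 0 < ε := by rw [hε]; positivity
  have ε1 : ε ≤ (3 ^ e)⁻¹ := hε.trans_le (inv_anti₀ (by positivity)
    (pow_le_pow_right₀ (by norm_num) (Nat.le_add_right _ _)))
  have ε2 : ((3 : ℝ) ^ e)⁻¹ ≤ 1 := inv_le_one_of_one_le₀ (one_le_pow₀ (by norm_num))
  obtain ⟨D, hD⟩ := exists_nat_ge (L / ε)
  rw [div_le_iff₀' ε0] at hD
  choose Kb hK using fun z : Fin 4 → Fin (2 * D + 1) =>
    (bumpS_smooth ε fun l => z l - D).lipschitzWith_of_hasCompactSupport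
      (cpt_box (lo := fun l => ε * (z l - D : ℤ) - ε) (hi := fun l => ε * (z l - D : ℤ) + ε)
        fun y hy l => abs_sub_le_iff.1 (bumpS_supp ε0 hy l) |>.symm.imp
          (by intro; linarith) (by intro; linarith)) one_ne_zero
  obtain ⟨Λ, hΛ⟩ : ∃ Λ : (Fin 4 → Fin (2 * D + 1)) → ℝ,
    ∀ z, Λ z = (1 + (2 * L + 1) + (2 * L + 1) * Kb z) * (L + 1 : ℝ≥0) := ⟨_, fun _ => rfl⟩
  have Λ0 : ∀ z, 0 < Λ z := fun z => by rw [hΛ]; positivity
  refine ⟨max (L + 1) (6 * D + 2 * 3 ^ t + 4), fun K => ⟨∑ z : Fin k → Fin 4 → Fin (2 * D + 1),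
    (∏ i, Λ (z i)) * exp (K * (2 * D + 3 ^ t : ℕ) ^ 4), fun Y s r η T r0 hr η0 hY hs hA => ?_⟩⟩
  have R2 : 0 ≤ max (L + 1 : ℝ) (6 * D + 2 * 3 ^ t + 4) := by positivity
  have f4 : ∀ i, LipschitzWith (L + 1) (f i) := fun i => (f2 i).1.weaken le_self_add
  have s1 := fun i => sup_le (f4 i) L.cast_nonneg fun y hy => f1 i y (subset_tsupport _ hy)
  obtain ⟨g, hg⟩ : ∃ g : Fin k → (Fin 4 → Fin (2 * D + 1)) → R4 → ℝ, ∀ i z, g i z =
    fun y => (Λ z)⁻¹ * (bumpS ε (fun l => z l - D) y * f i y) := ⟨_, fun _ _ => rfl⟩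
  have g0 : ∀ i z y, g i z y ≠ 0 → bumpS ε (fun l => z l - D) y ≠ 0 ∧ f i y ≠ 0 :=
    fun i z y hy => mul_ne_zero_iff.1 (right_ne_zero_of_mul (hg i z ▸ hy :))
  have g2 : ∀ i z, Gd (tsupport (f i)) (g i z) := fun i z =>
    ⟨(hf.1 i).1.mono fun y hy => (g0 i z y hy).2,
      hg i z ▸ contDiff_const.mul ((bumpS_smooth _ _).mul (hf.1 i).2),
      closure_mono fun y hy => (g0 i z y hy).2⟩
  have g3 : ∀ i, ∑ z, Λ z • g i z = f i := fun i => by
    funext y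
    by_cases e1 : f i y = 0
    · simp [hg, e1]
    · simp only [Finset.sum_apply, Pi.smul_apply, hg, smul_eq_mul,
        mul_inv_cancel_left₀ (Λ0 _).ne', ← Finset.sum_mul]
      rw [sum_bumpS ε0 fun l => ((PiLp.norm_apply_le y l).trans
        (f1 i y (subset_tsupport _ e1))).trans hD, one_mul]
  have b0 := sep_thick (r := r) f3 (by rw [← hε] at hr; linarith)
  have b1 : ⋃ i, thickening r (tsupport (f i)) ⊆ Bx (max (L + 1) (6 * D + 2 * 3 ^ t + 4)) :=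
    iUnion_subset fun i y hy l => by
      obtain ⟨x, hx, e⟩ := mem_thickening_iff.1 hy
      rw [← hε] at hr
      refine (PiLp.norm_apply_le y l).trans_lt (lt_of_lt_of_le ?_ (le_max_left _ _))
      linarith [f1 i x hx, norm_sub_norm_le y x, dist_eq_norm y x]
  have q0 := fun z : Fin k → Fin 4 → Fin (2 * D + 1) =>
    cut_piece hS hL r0 hs hY ht hr η0 hA (T := T) (D := D) (c := fun i l => z i l)
      (δ := 1 / (q + 1)) (by linarith) (fun i => g2 i (z i))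
      (fun i l => by have := (z i l).2; omega) (fun i => by
        have := norm_piece (by positivity) (hK (z i)) (abs_bumpS _ _) (f4 i) (s1 i)
        rw [← hΛ, ← hg] at this
        exact ⟨this.1, fun y => ⟨hg i (z i) ▸ this.2 y, fun hy =>
          by simpa only [hε] using bumpS_supp ε0 (g0 _ _ y hy).1⟩⟩) f3
  replace q0 := fun z => ((q0 z).mono hS (le_max_right (L + 1 : ℝ) _) le_rfl).smul
    ((∏ i, Λ (z i) : ℝ) : ℂ)
  have q1 := Net.QB.sum hS Finset.univ R2 fun z _ => q0 z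
  have q2 := (Net.qb_null (Submodule.sub_mem _ (net.mono (wd_mem hL hY r0 (T := T)
    (fun i => ⟨(hf.1 i).1, (hf.1 i).2, subset_rfl⟩) b0) b1) q1.1) R2 hS fun Z hZ => ?_).add hS q1
  · rw [sub_add_cancel, zero_add] at q2
    refine q2.mono hS le_rfl (le_of_eq ?_)
    rw [Finset.sum_mul]
    refine Finset.sum_congr rfl fun z _ => ?_
    rw [Complex.norm_real, norm_of_nonneg (Finset.prod_nonneg fun i _ => (Λ0 (z i)).le), mul_assoc]
  · have := gl_sum (gl_ite (T := T) hL hY r0) b0 g2 (fun _ z => Λ z) Z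
      (net.mono hZ (compl_subset_compl.2 b1))
    simp only [g3, ← wd_eq] at this
    simp only [sub_mul, map_sub, this, Finset.sum_mul, map_sum, smul_mul_assoc, map_smul,
      smul_eq_mul, sub_self]

variable {e : ℕ} {d r : ℝ} {O : Set R4} {f u h : R4 → ℝ}

theorem fin_Yr (a : Gd O f) (t : ℝ) (P : (Fin 4 → ℤ) → Pol) :
    (Function.support fun x => ((t * f (gp e x) : ℝ) : ℂ) • P x).Finite :=
  (fin_gp (adm_one.2 ⟨a.1, a.2.1⟩) e).subset fun x hx e => hx (by simp [e])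

theorem gp_add (e : ℕ) (x y : Fin 4 → ℤ) : gp e (x + y) = gp e x + gp e y := by
  ext l
  simp [gp, mul_add]

theorem gl_Yr (hu : Pb u) (d0 : 0 < d) (hr : 2 * d ≤ r) : Gl S e r (Yr u d e) where
  loc a := by
    rw [Yr_eq (adm_one.2 ⟨a.1, a.2.1⟩)]
    exact Submodule.sum_mem _ fun x hx => Submodule.smul_mem _ _ (net.mono (hu.mem d0 _)
      ((ball_subset_ball hr).trans (ball_subset_thickening (a.2.2 (subset_tsupport _
        (((fin_gp (adm_one.2 ⟨a.1, a.2.1⟩) e).mem_toFinset).1 hx))) _)))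
  tau x a := by
    rw [Yr, map_finsum _ (fin_Yr a _ _), Yr, eq_comm, ← finsum_comp_equiv (Equiv.addRight x)]
    simp only [map_smul, pr_tau, Equiv.coe_addRight, gp_add, add_sub_cancel_right]
  lin s g a c Z _ := by
    have : Yr u d e (∑ z ∈ s, c z • g z) = ∑ z ∈ s, (c z : ℂ) • Yr u d e (g z) := by
      have b := fun z => fin_Yr (e := e) (a z) (((3 ^ e)⁻¹ / d) ^ 4) fun x => pr u d (gp e x)
      simp only [Yr, fun z => smul_finsum' (c z : ℂ) (b z)]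
      rw [sum_finsum_comm _ _ fun z _ => (b z).subset fun x hx e => hx (smul_eq_zero_of_right _ e)]
      refine finsum_congr fun x => ?_
      simp only [smul_smul, ← Finset.sum_smul, Finset.sum_apply, Pi.smul_apply, smul_eq_mul,
        Finset.mul_sum, Complex.ofReal_sum, ← Complex.ofReal_mul, mul_left_comm (c _)]
    simp only [this, Finset.sum_mul, map_sum, smul_mul_assoc, map_smul, smul_eq_mul]

theorem Yr_Θ (a : Gd O f) (μ : Fin 4) :
    net.Θ μ (Yr u d e f) = Yr (fun y => u (rf μ y)) d e fun y => f (rf μ y) := by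
  have i : Function.Involutive fun x : Fin 4 → ℤ => Function.update x μ (-x μ) := fun x => by simp
  have j : ∀ x, gp e (Function.update x μ (-x μ)) = rf μ (gp e x) := fun x => by
    ext l
    by_cases h : l = μ <;> simp [gp, rf, h]
  rw [Yr, map_finsum _ (fin_Yr a _ _), Yr, ← finsum_comp_equiv i.toPerm]
  refine finsum_congr fun x => ?_
  rw [net.Θ_smul, Complex.conj_ofReal, i.coe_toPerm, j, ← rf_rf μ (gp e x), rf_rf μ (rf μ _)]
  simp only [pr_eq, Θ_mon, rf_rf]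
  congr 2
  funext i y
  fin_cases i <;> simp [← rfL_eq, rfL_eq μ ▸ rf_rf μ]

theorem Rd.rf (a : Rd h) (μ : Fin 4) (n : R4) : (fun y => hn h n (rf μ y)) = hn h (rf μ n) :=
  funext fun y => a.2.2 _ _ (by rw [← (rfL μ).norm_map, map_sub, rfL_eq, rf_rf])

theorem norm_nt (θ : ℝ) : ‖nt θ‖ = 1 := by
  rw [← sq_eq_sq₀ (norm_nonneg _) zero_le_one, EuclideanSpace.real_norm_sq_eq]
  simp [nt, Fin.sum_univ_four]

theorem norm_ee (μ : Fin 4) : ‖ee μ‖ = 1 := by simp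

theorem rf_ee (μ ν : Fin 4) : rf μ (ee ν) = if ν = μ then -ee ν else ee ν := by
  ext l
  by_cases h : l = μ <;> by_cases h' : ν = μ <;> simp [rf, h, h', eq_comm, Pi.single_apply]

theorem rf_nt (μ : Fin 4) (θ : ℝ) : rf μ (nt θ) = ![-nt (-θ), nt (-θ), nt θ, nt θ] μ := by
  ext l
  fin_cases μ <;> fin_cases l <;> simp [rf, nt]

theorem nt_neg (θ : ℝ) : nt (-(π / 2 - θ)) = -nt (π / 2 + θ) ∧ nt (-(π / 2 + θ)) = -nt (π / 2 - θ) := by
  simp only [nt, cos_neg, sin_neg, cos_add, sin_add, cos_sub, sin_sub, cos_pi_div_two,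
    sin_pi_div_two]
  constructor <;> module

theorem sg_Y1 (a : Rd h) : Sg 1 (Y1 h d e) := fun μ => ⟨mul_one _, fun b => by
  simp only [Y1, t1, map_sum, Yr_Θ b, a.rf, rf_ee, Pi.one_apply, Complex.ofReal_one, one_smul]
  exact Finset.sum_congr rfl fun ν _ => by split_ifs <;> simp only [a.Yr_neg]⟩

theorem sg_Y3 (a : Rd h) (θ : ℝ) : Sg 1 (Y3 h θ d e) := fun μ => ⟨mul_one _, fun b => by
  simp only [Y3, t3, map_add, map_sub, Yr_Θ b, a.rf, rf_nt, Pi.one_apply, Complex.ofReal_one,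
    one_smul, nt_neg, neg_neg]
  fin_cases μ <;> simp [a.Yr_neg] <;> ring⟩

theorem sg_Y6 (a : Rd h) (θ : ℝ) : Sg ![-1, -1, 1, 1] (Y6 h θ d e) := fun μ =>
  ⟨by fin_cases μ <;> simp, fun b => by
    simp only [Y6, t6, map_add, map_sub, Yr_Θ b, a.rf, rf_nt, nt_neg, neg_neg]
    fin_cases μ <;> simp [a.Yr_neg] <;> ring⟩

/-- good families of letters -/
def Gf (S : Pol →ₗ[ℂ] ℂ) (s : Fin 4 → ℝ) (Y : Let) : Prop :=
  ∀ d e r, 0 < d → 2 * d ≤ r → Gl S e r (Y d e) ∧ Sg s (Y d e)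

theorem gf_Y0 (hL : LinP S) : Gf S 1 Y0 := fun _ _ _ d0 hr => ⟨gl_X hL (by linarith), sg_X⟩

theorem gf_Y1 (a : Rd h) : Gf S 1 (Y1 h) := fun d e r d0 hr =>
  have G := fun μ => gl_Yr (S := S) (e := e) (a.pb (norm_ee μ)) d0 hr
  ⟨by convert (((G 0).add (G 1)).add (G 2)).add (G 3) using 2; exact Fin.sum_univ_four _, sg_Y1 a⟩

theorem gf_Y3 (a : Rd h) (θ : ℝ) : Gf S 1 (Y3 h θ) := fun _ e _ d0 hr =>
  have G := fun θ => gl_Yr (S := S) (e := e) (a.pb (norm_nt θ)) d0 hr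
  ⟨(((G _).add (G _)).sub (G _)).sub (G _), sg_Y3 a θ⟩

theorem gf_Y6 (a : Rd h) (θ : ℝ) : Gf S ![-1, -1, 1, 1] (Y6 h θ) := fun _ e _ d0 hr =>
  have G := fun θ => gl_Yr (S := S) (e := e) (a.pb (norm_nt θ)) d0 hr
  ⟨(((G _).sub (G _)).add (G _)).sub (G _), sg_Y6 a θ⟩

/-- operator bounds for a relation -/
theorem Rel.qb (hS : net.St S) (hL : LinP S) {D : ℝ → ℝ} {a : ℝ} {Y Y' : Let} {c c' : Co}
    {s : Fin 4 → ℝ} (H : Rel S D a Y Y' c c') (hY : Gf S s Y) (hY' : Gf S s Y') {Z : Pol}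
    (b : Dt f Z) : ∃ R K, ∀ᶠ d in 𝓝[>] (0 : ℝ), ∀ d' ∈ Icc (d / 2) d, ∀ᶠ e in atTop,
      net.QB S (ctr S (cb Y Y' c c' d d' e f) * Z) R (K * d ^ a) := by
  obtain ⟨m, w, k, g, g1, rfl⟩ := b.sum
  have key : ∀ i, ∃ R K, ∀ᶠ d in 𝓝[>] (0 : ℝ), ∀ d' ∈ Icc (d / 2) d, ∀ᶠ e in atTop,
      net.QB S (ctr S (cb Y Y' c c' d d' e f) * mon (g i)) R (K * d ^ a) := fun i => by
    obtain ⟨t, ht⟩ := cut hS hL (g1 i)
    obtain ⟨e₀, ⟨K, hK⟩, R, hR⟩ := ((H.mix t).and_eventually ht).exists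
    obtain ⟨Λ, hΛ⟩ := hR K
    refine ⟨R, Λ, ?_⟩
    filter_upwards [hK, Ioo_mem_nhdsGT (show (0 : ℝ) < (3 ^ (e₀ + t))⁻¹ / 2 by positivity)]
      with d h1 h2 d' h3
    filter_upwards [h1 d' h3, eventually_ge_atTop (e₀ + t)] with e h4 h5
    have y := hY d e _ h2.1 le_rfl
    have y' := hY' d' e (2 * d) (by linarith [h2.1, h3.1]) (by linarith [h3.2])
    have z := (y.1.smul (c d d' e)).add (y'.1.smul (c' d d' e))
    have := hΛ _ s (2 * d) _ {0} (by linarith [h2.1]) (by linarith [h2.2]) (rpow_nonneg h2.1.le a)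
      ((z.ctr hS).mono h5) ((y.2.comb y'.2 _ _).ctr z hS) h4
    simpa [wd, Fin.prod_univ_succ, mon, Fin.succ_ne_zero, cb] using this
  choose R K H using key
  refine ⟨∑ i, |R i|, ∑ i, ‖w i‖ * K i, ?_⟩
  filter_upwards [eventually_all.2 H] with d h1 d' h2
  filter_upwards [eventually_all.2 fun i => h1 i d' h2] with e h3
  simpa only [Finset.mul_sum, Finset.sum_mul, mul_smul_comm, mul_assoc] using Net.QB.sum hS
    Finset.univ (Finset.sum_nonneg fun i _ => abs_nonneg (R i)) fun i _ => ((h3 i).mono hS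
      ((le_abs_self _).trans (Finset.single_le_sum (fun j _ => abs_nonneg (R j))
        (Finset.mem_univ i))) le_rfl).smul (w i)

end Pool.Agent.Lib.MP_7f377f_mp.Ope
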