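import Pool.Agent.Lib.MP_7f377f_mp.G.ScC

/-! The charge of the conserved current. -/

noncomputable section

namespace Pool.Agent.Lib.MP_7f377f_mp.Ope
variable [Pool.Agent.Lib.MP_7f377f_mp.GD]
set_option linter.unusedSectionVars false

open MeasureTheory Filter Topology Set Real YM7 Pur MvPolynomial Metric Fx Lg
open scoped ContDiff NNReal Manifold

/-- cutoffs which separate the set `K` from the sources of `Z` -/
def Cut (ξ : R4 → ℝ) (K : Set R4) (Z : Pol) : Prop := ContDiff ℝ ∞ ξ ∧ HasCompactSupport ξ ∧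
  (∀ᶠ y in 𝓝ˢ K, ξ y = 1) ∧ Z ∈ net.loc (tsupport ξ)ᶜ

/-- the charge -/
def chg (S : Pol →ₗ[ℂ] ℂ) (T : Tn) (c : ℂ) : Vn := fun ν g Z =>
  cur S T c ν (Classical.epsilon fun ξ => Cut ξ (tsupport g) Z) (X g * Z)

variable {S : Pol →ₗ[ℂ] ℂ} {T : Tn} {c : ℂ} {K U : Set R4} {f g h u ξ ξ' : R4 → ℝ} {Y Z Z' : Pol}
  {ν : Fin 4} {d : ℝ} {z : R4}

theorem exists_bump (hK : IsCompact K) (hU : IsOpen U) (e : K ⊆ U) : ∃ ξ : R4 → ℝ,
    ContDiff ℝ ∞ ξ ∧ HasCompactSupport ξ ∧ (∀ᶠ y in 𝓝ˢ K, ξ y = 1) ∧ tsupport ξ ⊆ U := by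
  obtain ⟨L, l1, l2, l3⟩ := exists_compact_between hK hU e
  obtain ⟨f, f1, f2, -⟩ := exists_contMDiffMap_one_nhds_of_subset_interior 𝓘(ℝ, R4) (n := ⊤)
    hK.isClosed l2
  have s : tsupport f ⊆ L := closure_minimal (fun y hy => by_contra fun e => hy (f2 y e)) l1.isClosed
  exact ⟨f, f.contMDiff.contDiff, l1.of_isClosed_subset (isClosed_tsupport _) s, f1, s.trans l3⟩

theorem exists_cut (hK : IsCompact K) (hZ : Z ∈ net.loc Kᶜ) : ∃ ξ, Cut ξ K Z := by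
  obtain ⟨δ, δ0, e⟩ := loc_sep hK hZ
  obtain ⟨ξ, h1, h2, h3, h4⟩ := exists_bump hK isOpen_thickening (self_subset_thickening δ0 K)
  exact ⟨ξ, h1, h2, h3, net.mono e (compl_subset_compl.2 h4)⟩

theorem Cut.sub (a : Cut ξ K Z) : K ⊆ tsupport ξ := fun y hy =>
  subset_tsupport _ (by simp [a.2.2.1.self_of_nhdsSet y hy])

theorem Cut.mono (a : Cut ξ K Z) (e : U ⊆ K) : Cut ξ U Z :=
  ⟨a.1, a.2.1, a.2.2.1.filter_mono (nhdsSet_mono e), a.2.2.2⟩

theorem Cut.mem (a : Cut ξ K Z) (hY : Y ∈ net.loc K) : Y * Z ∈ net.loc (K ∪ (tsupport ξ)ᶜ) :=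
  net.mul hY a.2.2.2 (disjoint_compl_right.mono_left a.sub)

theorem Cut.dp (a : Cut ξ K Z) (hY : Y ∈ net.loc K) : Dp ξ (Y * Z) := by
  obtain ⟨U, u1, u2, u3⟩ := mem_nhdsSet_iff_exists.1 a.2.2.1
  refine ⟨a.1, tsupport ξ \ U, a.2.1.isCompact.diff u1, fun y hy => ?_, net.mono (a.mem hY)
    (union_subset (fun y hy e => e.2 (u2 hy)) fun y hy e => hy e.1)⟩
  by_cases e : y ∈ U
  · exact ⟨1, mem_of_superset (u1.mem_nhds e) u3⟩
  · exact ⟨0, notMem_tsupport_iff_eventuallyEq.1 fun e' => hy ⟨e', e⟩⟩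

theorem cur_vec (H : Ax S T) (c : ℂ) : cur S T c ∈ Vec S Dp :=
  (Vec S Dp).add_mem H.dv ((Vec S Dp).smul_mem _ (cd_vec H.inp))

theorem cur_lz (H : Ax S T) (c : ℂ) (ν : Fin 4) : cur S T c ν ∈ Lz Dp :=
  (Lz Dp).add_mem (H.dv_lz ν) ((Lz Dp).smul_mem _ (cd_lz S ν))

theorem cur_lin (H : Ax S T) (a : Dp ξ Y) (b : Dp ξ' Y) (t : ℝ) :
    cur S T c ν (ξ + t • ξ') Y = cur S T c ν ξ Y + t * cur S T c ν ξ' Y := by
  have e := cv_lin H.inp.lin Finset.univ (u := ![pd ν ξ, pd ν ξ']) (Fin.forall_fin_two.2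
    ⟨⟨(a.pd ν).gd.1, (a.pd ν).gd.2.1, subset_union_left⟩,
      (b.pd ν).gd.1, (b.pd ν).gd.2.1, subset_union_right⟩) ![1, t]
    (compl_union _ _ ▸ loc_inter (a.pd ν).2 (b.pd ν).2)
  simp only [Fin.sum_univ_two, Matrix.cons_val, one_smul] at e
  simp only [cur, dv, cd, Pi.add_apply, Pi.smul_apply, smul_eq_mul, St.pd_add a.df b.df,
    H.lin _ _ _ _ _ _ (a.pd _) (b.pd _), e, Finset.sum_add_distrib, ← Finset.mul_sum]
  push_cast
  ring

theorem cur_tau (H : Ax S T) (a : Dp ξ Y) (v : R4) :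
    cur S T c ν (fun y => ξ (y - v)) (net.τ v Y) = cur S T c ν ξ Y := by
  simp only [cur, dv, cd, Pi.add_apply, Pi.smul_apply, St.pd_sub, H.ti _ _ _ _ _ (a.pd _), ← τ_X,
    cv_tau H.inp.st (a.pd ν).X (a.pd ν).2]

theorem cur_dis (H : Ax S T) (hK : IsCompact K) (a : Cut ξ K Z) :
    St.Dis K fun u => cur S T c ν ξ (X u * Z) := by
  have o : ∀ μ, Disjoint K (tsupport (pd μ ξ)) := fun μ => disjoint_left.2 fun y hy =>
    St.pd_far (a.2.2.1.filter_mono (nhds_le_nhdsSet hy))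
  have z : ∀ μ, Z ∈ net.loc (K ∪ tsupport (pd μ ξ))ᶜ := fun μ =>
    net.mono a.2.2.2 (compl_subset_compl.2 (union_subset a.sub St.pd_ts))
  have p := (a.dp (net.one _)).pd
  exact St.Dis.congr ((St.DisS K).add_mem ((St.DisS K).sum_mem (t := Finset.univ) fun μ _ =>
    H.dis μ ν _ Z K hK (p μ).1 (o μ) (z μ)) ((St.DisS K).smul_mem c
      (dis_cv H.inp hK (o ν) (p ν).X (z ν)))) fun u _ => by simp [cur, dv, cd]

theorem Bmp.cut (b : Bmp h ξ) (d0 : 0 < d) (hZ : Z ∈ net.loc (ball z (2 * d))ᶜ) :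
    Cut (bx ξ d z) (tsupport (St.sc h d z)) Z := by
  have s : tsupport (bx ξ d z) ⊆ ball z (2 * d) := fun y hy => by
    have := b.sup (tsupport_comp (θ := fun y => d⁻¹ • (y - z)) (by fun_prop) hy)
    rwa [mem_ball_zero_iff, norm_smul, norm_inv, Real.norm_of_nonneg d0.le, inv_mul_lt_iff₀ d0,
      mul_comm, ← mem_ball_iff_norm] at this
  have c : Continuous fun y : R4 => d⁻¹ • (y - z) := by fun_prop
  have m : MapsTo (fun y : R4 => d⁻¹ • (y - z)) (tsupport (St.sc h d z)) (tsupport h) :=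
    fun y hy => tsupport_comp c (tsupport_mul_subset_right (f := fun _ => d⁻¹ ^ 4) hy)
  have t := (c.tendsto_nhdsSet m).eventually b.one
  exact ⟨b.sm.comp (f := fun y : R4 => d⁻¹ • (y - z)) (by fun_prop),
    (isCompact_closedBall z _).of_isClosed_subset (isClosed_tsupport _)
      (s.trans ball_subset_closedBall), t, net.mono hZ (compl_subset_compl.2 s)⟩

theorem Bmp.mem (b : Bmp h ξ) (d0 : 0 < d) (z : R4) :
    X (St.sc h d z) ∈ net.loc (tsupport (St.sc h d z)) :=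
  PN.Gd.mem ⟨(b.ts.sc d0 z).1, (b.ts.sc d0 z).2.1, subset_rfl⟩

theorem Bmp.zero (b : Bmp h ξ) (H : Ax S T) (d0 : 0 < d) (z : R4) :
    cur S T c 0 (bx ξ d z) (X (St.sc h d z)) = 0 := by
  have a := (b.cut (z := 0) d0 (net.one _)).dp (b.mem d0 0)
  rw [mul_one] at a
  have e := cur_vec H c _ (inv_neg H.inp.st) _ _ a
  have e' := cur_tau (c := c) (ν := 0) H a z
  rw [Ro.act_X, show (fun y => bx ξ d 0 ((LinearIsometryEquiv.neg ℝ).symm y)) = bx ξ d 0 from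
    funext fun y => by simp [bx, (b.ev _).2], show (fun y => St.sc h d 0
      ((LinearIsometryEquiv.neg ℝ).symm y)) = St.sc h d 0 from
    funext fun y => by simp [St.sc, (b.ev _).1]] at e
  rw [τ_X] at e'
  simp only [bx, St.sc, sub_zero] at e'
  refine e'.trans (CharZero.eq_neg_self_iff.1 (e.trans ?_))
  simp [Fin.sum_univ_four]

variable (H : Ax S T) (hc : ∀ ν f Z, Ds f Z → cur S T c ν f Z = 0)
include H hc

theorem cur_eq (a : Cut ξ K Z) (b : Cut ξ' K Z) (hY : Y ∈ net.loc K) :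
    cur S T c ν ξ (Y * Z) = cur S T c ν ξ' (Y * Z) := by
  have s := a.1.sub b.1
  have e : Ds (ξ - ξ') (Y * Z) := ⟨s, adm_one.2 ⟨a.2.1.sub b.2.1, s.of_le (by simp)⟩,
    net.mono (loc_inter (a.mem hY) (b.mem hY)) fun y hy => ?_⟩
  · have := cur_lin (c := c) (ν := ν) H (b.dp hY) e.dp 1
    rwa [hc _ _ _ e, one_smul, add_sub_cancel, mul_zero, add_zero] at this
  refine notMem_tsupport_iff_eventuallyEq.2 ?_
  by_cases e : y ∈ K
  · exact ((a.2.2.1.and b.2.2.1).filter_mono (nhds_le_nhdsSet e)).mono fun y hy => by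
      simp [hy.1, hy.2]
  · exact ((notMem_tsupport_iff_eventuallyEq.1 (hy.1.resolve_left e)).and
      (notMem_tsupport_iff_eventuallyEq.1 (hy.2.resolve_left e))).mono fun y hy => by
        simp [hy.1, hy.2]

theorem chg_eq (hg : Adm ![g]) (a : Cut ξ (tsupport g) Z) :
    chg S T c ν g Z = cur S T c ν ξ (X g * Z) :=
  cur_eq H hc (Classical.epsilon_spec (p := fun ξ => Cut ξ (tsupport g) Z) ⟨ξ, a⟩) a (Dt.X ⟨hg, net.one _⟩)

theorem chg_vec : chg S T c ∈ Vec S Ds := fun g hg f Z a => by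
  obtain ⟨ξ, b⟩ := exists_cut (adm_one.1 a.2.1).1 a.2.2
  have b' : Cut (fun y => ξ (g.symm y)) (tsupport fun y => f (g.symm y)) (Ro.act g Z) :=
    ⟨b.1.comp g.symm.contDiff, b.2.1.comp_homeomorph g.symm.toHomeomorph,
      (g.symm.continuous.tendsto_nhdsSet fun y hy => tsupport_comp g.symm.continuous hy).eventually
        b.2.2.1, net.mono (Ro.act_mem g b.2.2.2) fun y hy e => hy (tsupport_comp g.symm.continuous e)⟩
  simp only [chg_eq H hc a.2.1 b, chg_eq H hc (a.act g).2.1 b',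
    cur_vec H c g hg _ _ (b.dp a.2.X), map_mul, Ro.act_X]

theorem chg_lz : chg S T c ν ∈ Lz Ds := fun t f Z Z' a b => by
  obtain ⟨δ, δ0, e⟩ := a.2.sep
  obtain ⟨δ', δ1, e'⟩ := b.2.sep
  obtain ⟨ξ, h1, h2, h3, h4⟩ := exists_bump (adm_one.1 a.2.1).1 (isOpen_thickening.inter
    isOpen_thickening) (subset_inter (self_subset_thickening δ0 _) (self_subset_thickening δ1 _))
  have c1 : Cut ξ (tsupport f) Z := ⟨h1, h2, h3, net.mono e
    (compl_subset_compl.2 (h4.trans inter_subset_left))⟩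
  have c2 : Cut ξ (tsupport f) Z' := ⟨h1, h2, h3, net.mono e'
    (compl_subset_compl.2 (h4.trans inter_subset_right))⟩
  rw [chg_eq H hc a.2.1 c1, chg_eq H hc a.2.1 c2, chg_eq H hc a.2.1 ⟨h1, h2, h3,
    Submodule.add_mem _ c1.2.2.2 (Submodule.smul_mem _ _ c2.2.2.2)⟩, mul_add, mul_smul_comm,
    cur_lz H c ν t _ _ _ (c1.dp a.2.X) (c2.dp a.2.X)]

theorem chg_lim (b : Bmp h ξ) (a : Dt g Z) {η : ℝ} (η0 : 0 < η) : ∀ᶠ d in 𝓝[>] (0 : ℝ),
    ∀ᶠ e in atTop, ‖∑ i, ![1, 1, c] i * Cm S T h ξ d e g Z i - chg S T c 0 g Z‖ ≤ η := by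
  have k := (adm_one.1 a.1).1
  obtain ⟨δ, δ0, e⟩ := a.sep
  have r0 : 0 < δ / 2 := half_pos δ0
  have hK := k.isCompact.cthickening (r := δ / 2)
  obtain ⟨ζ, c1⟩ := exists_cut hK (net.mono e (compl_subset_compl.2
    (cthickening_subset_thickening' δ0 (half_lt_self δ0) _)))
  obtain ⟨h1, h2⟩ := (cur_dis (c := c) (ν := 0) H hK c1).appr hK a.gd r0 subset_rfl b.ts b.int
  rw [chg_eq H hc a.1 (c1.mono (self_subset_cthickening _))]
  filter_upwards [Metric.tendsto_nhds.1 h2 η η0, Ioc_mem_nhdsGT r0] with d hd d1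
  have t : Tendsto (fun e : ℕ => ((3 : ℝ) ^ e)⁻¹) atTop (𝓝[>] 0) :=
    tendsto_inv_atTop_nhdsGT_zero.comp (tendsto_pow_atTop_atTop_of_one_lt (by norm_num))
  filter_upwards [((St.riem (h1 d d1) (cpt_mul a.1 _)).comp t).eventually
    (isOpen_ball.mem_nhds hd)] with n hn
  refine le_of_eq_of_le (congrArg (‖· - _‖) ?_) (mem_ball_iff_norm.1 hn).le
  have s : ∀ F : (Fin 4 → ℤ) → ℂ, (Function.support fun x =>
      (((3 ^ n)⁻¹ ^ 4 * g (gp n x) : ℝ) : ℂ) * F x) ⊆ (fin_gp a.1 n).toFinset := fun F x hx => by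
    simp only [Finite.coe_toFinset, mem_ofPred_eq]
    exact fun e => hx (by simp [e])
  rw [Function.comp, tsum_eq_sum (s := (fin_gp a.1 n).toFinset) fun x hx => by
    have : g (gp n x) = 0 := not_not.1 fun e => hx ((Finite.mem_toFinset _).2 e)
    exact mul_eq_zero_of_left (Complex.ofReal_eq_zero.2 this) _]
  simp only [Cm, finsum_eq_sum_of_support_subset _ (s _), Finset.mul_sum]
  rw [Finset.sum_comm]
  refine Finset.sum_congr rfl fun x hx => ?_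
  have x1 : gp n x ∈ tsupport g := subset_tsupport _ ((fin_gp a.1 n).mem_toFinset.1 hx)
  have c2 := b.cut (z := gp n x) d1.1 (net.mono e (compl_subset_compl.2 ((ball_subset_ball
    (by linarith [d1.2])).trans (ball_subset_thickening x1 δ))))
  have e1 := cur_eq (ν := 0) H hc c2 (c1.mono ((b.ts.sc d1.1 _).2.2.trans ((ball_subset_ball d1.2).trans
    ((ball_subset_thickening x1 _).trans (thickening_subset_cthickening _ _))))) (b.mem d1.1 _)
  have e2 := b.zero (c := c) H d1.1 (gp n x)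
  have e3 := jv_eq (S := S) (T := T) (f := bx ξ d (gp n x)) (Z := X (St.sc h d (gp n x)) * Z) ![1, 1, c]
  have e4 := jv_eq (S := S) (T := T) (f := bx ξ d (gp n x)) (Z := X (St.sc h d (gp n x))) ![1, 1, c]
  change _ = _ * ((g (gp n x) : ℂ) * cur S T c 0 ζ (X (St.sc h d (gp n x)) * Z))
  rw [← e1]
  simp only [cur, Pi.add_apply, Pi.smul_apply, smul_eq_mul, Fin.sum_univ_three,
    Matrix.cons_val] at e2 e3 e4 ⊢
  push_cast
  linear_combination ((3 ^ n)⁻¹ ^ 4 * g (gp n x) : ℂ) * (e3 - S Z * e4 - S Z * e2)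

end Pool.Agent.Lib.MP_7f377f_mp.Ope
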