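import Pool.Agent.Lib.MP_7f377f_mp.G.CaDef
import Pool.Agent.Lib.MP_7f377f_mp.G.ScD
import Pool.Agent.Lib.MP_7f377f_mp.G.SbE

/-! Reduction of the lattice input to data with one source in each cell. -/

noncomputable section

namespace Pool.Agent.Lib.MP_7f377f_mp.Ope
variable [Pool.Agent.Lib.MP_7f377f_mp.GD]
set_option linter.unusedSectionVars false

open Filter Topology Set Real YM7 Pur MvPolynomial Fx Function Metric
open scoped ContDiff Manifold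

/-- one source in each cell of mesh `3 ^ -e`, away from the boundary of the cell -/
def Cel (e t : ℕ) {k : ℕ} (f : Fin k → R4 → ℝ) : Prop := ∃ c : Fin k → Fin 4 → ℤ, Injective c ∧
  ∀ i y, f i y ≠ 0 → ∀ l, c i l * (3 ^ e)⁻¹ + (3 ^ (e + t))⁻¹ ≤ y l ∧
    y l ≤ (c i l + 1) * (3 ^ e)⁻¹ - (3 ^ (e + t))⁻¹

theorem cel_of {k e t : ℕ} {f : Fin k → R4 → ℝ} {δ : ℝ} (ht : 3 * k < 3 ^ t)
    (hδ : 2 * (3 ^ e)⁻¹ < δ) (h0 : ∀ i, f i ≠ 0)
    (h1 : ∀ i, ∃ c : Fin 4 → ℤ, ∀ y, f i y ≠ 0 → ∀ l, |y l - gp (e + t) c l| ≤ (3 ^ (e + t))⁻¹)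
    (h2 : ∀ i j, i ≠ j → ∀ x y, f i x ≠ 0 → f j y ≠ 0 → δ ≤ dist x y) :
    ∃ x, Cel e t fun i y => f i (y - gp (e + t) x) := by
  choose c hc using h1
  choose j _ _ hj using fun l => exists_res ht fun i => c i l
  have hw : ((3 : ℝ) ^ e)⁻¹ = (3 ^ (e + t))⁻¹ * (3 ^ t : ℕ) := by
    rw [pow_add]
    push_cast
    field_simp
  have ε0 : (0 : ℝ) < (3 ^ (e + t))⁻¹ := inv_pos.2 (pow_pos three_pos _)
  have key : ∀ i y, f i (y - gp (e + t) j) ≠ 0 → ∀ l,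
      ((c i l + j l) / (3 ^ t : ℕ) : ℤ) * ((3 : ℝ) ^ e)⁻¹ + (3 ^ (e + t))⁻¹ ≤ y l ∧
      y l ≤ (((c i l + j l) / (3 ^ t : ℕ) : ℤ) + 1) * (3 ^ e)⁻¹ - (3 ^ (e + t))⁻¹ := by
    intro i y hy l
    have e4 := abs_le.1 (hc i _ hy l)
    have e2 := hj l i
    simp only [gp, PiLp.sub_apply] at e4
    rw [hw]
    generalize ((3 : ℝ) ^ (e + t))⁻¹ = ε at ε0 e4
    generalize 3 ^ t = N at e2
    have e1 : (N * ((c i l + j l) / N : ℤ) + ((c i l + j l) % N : ℤ) : ℝ) = c i l + j l := by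
      exact_mod_cast Int.mul_ediv_add_emod (c i l + j l) N
    have e5 := congrArg (ε * ·) e1
    have e6 := mul_le_mul_of_nonneg_left
      (show (2 : ℝ) ≤ ((c i l + j l) % N : ℤ) by exact_mod_cast e2.1) ε0.le
    have e7 := mul_le_mul_of_nonneg_left
      (show (((c i l + j l) % N : ℤ) : ℝ) ≤ N - 2 by exact_mod_cast e2.2) ε0.le
    constructor <;> linarith [e4.1, e4.2]
  refine ⟨j, fun i l => (c i l + j l) / (3 ^ t : ℕ), fun i i' u => by_contra fun hi => ?_, key⟩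
  obtain ⟨x, hx⟩ := ne_iff.1 (h0 i)
  obtain ⟨y, hy⟩ := ne_iff.1 (h0 i')
  refine (h2 i i' hi x y hx hy).not_gt ((dist_le_two fun l => ?_).trans_lt hδ)
  have e1 := key i (x + gp (e + t) j) (by rwa [add_sub_cancel_right]) l
  have e2 := key i' (y + gp (e + t) j) (by rwa [add_sub_cancel_right]) l
  rw [show (c i l + j l) / (3 ^ t : ℕ) = (c i' l + j l) / (3 ^ t : ℕ) from congrFun u l] at e1
  rw [PiLp.add_apply] at e1 e2
  rw [abs_le]
  constructor <;> linarith [e1.1, e1.2, e2.1, e2.2]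

/-- the induction principle -/
theorem cut_ind {k : ℕ} {C Q : (Fin k → R4 → ℝ) → Prop} (adm : ∀ f, C f → Adm f)
    (mul : ∀ f i χ, C f → ContDiff ℝ ∞ χ → C (update f i (χ * f i)))
    (tr : ∀ f v, C f → C fun i y => f i (y - v))
    (add : ∀ f i χ, C f → ContDiff ℝ ∞ χ → Q (update f i (χ * f i)) →
      Q (update f i ((1 - χ) * f i)) → Q f)
    (zero : ∀ f i, C f → f i = 0 → Q f)
    (sh : ∀ f e x, C f → Q (fun i y => f i (y - gp e x)) → Q f)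
    (cel : ∀ t, ∃ᶠ e in atTop, ∀ f, C f → Cel e t f → Q f) {f : Fin k → R4 → ℝ} (hf : C f) :
    Q f := by
  obtain ⟨-, q, -, -, f3⟩ := (adm f hf).data
  obtain ⟨t, ht⟩ : ∃ t, 3 * k < 3 ^ t := ⟨_, Nat.lt_pow_self (by norm_num)⟩
  obtain ⟨e, hc, he : ((3 : ℝ) ^ e)⁻¹ < _⟩ := ((cel t).and_eventually
    ((tendsto_inv_atTop_zero.comp (tendsto_pow_atTop_atTop_of_one_lt
      (show (1 : ℝ) < 3 by norm_num))).eventually_lt_const
      (show (0 : ℝ) < 1 / (q + 1) / 2 by positivity))).exists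
  have ε0 : (0 : ℝ) < (3 ^ (e + t))⁻¹ := inv_pos.2 (pow_pos three_pos _)
  suffices ∀ s : Finset (Fin k), ∀ g, C g → (∀ i, tsupport (g i) ⊆ tsupport (f i)) →
      (∀ i ∉ s, ∃ c : Fin 4 → ℤ, ∀ y, g i y ≠ 0 → ∀ l,
        |y l - gp (e + t) c l| ≤ (3 ^ (e + t))⁻¹) → Q g from
    this Finset.univ f hf (fun _ => subset_rfl) fun i hi => absurd (Finset.mem_univ i) hi
  intro s
  induction s using Finset.induction_on with
  | empty =>
    intro g g1 g2 g3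
    by_cases h0 : ∃ i, g i = 0
    · exact h0.elim fun i => zero g i g1
    obtain ⟨x, hx⟩ := cel_of (δ := 1 / (q + 1)) ht (by linarith) (not_exists.1 h0)
      (fun i => g3 i (Finset.notMem_empty i)) fun i j u x y hx hy =>
        f3 i j u x (g2 i (subset_tsupport _ hx)) y (g2 j (subset_tsupport _ hy))
    exact sh g _ x g1 (hc _ (tr g _ g1) hx)
  | insert i s hi ih =>
    obtain ⟨P, hP⟩ : ∃ P : Set R4 → Prop, ∀ V, P V ↔ ∀ g, C g →
      (∀ i, tsupport (g i) ⊆ tsupport (f i)) → (∀ j ∉ insert i s, ∃ c : Fin 4 → ℤ, ∀ y, g j y ≠ 0 →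
        ∀ l, |y l - gp (e + t) c l| ≤ (3 ^ (e + t))⁻¹) → tsupport (g i) ⊆ V → Q g :=
      ⟨_, fun _ => Iff.rfl⟩
    suffices ∃ V, IsOpen V ∧ tsupport (f i) ⊆ V ∧ P V from let ⟨V, _, v2, v3⟩ := this
      fun g g1 g2 g3 => (hP V).1 v3 g g1 g2 g3 ((g2 i).trans v2)
    refine IsCompact.induction_on (p := fun A => ∃ V, IsOpen V ∧ A ⊆ V ∧ P V)
      ((adm f hf).1 i).1 ⟨∅, isOpen_empty, le_rfl, (hP _).2 fun g g1 _ _ g4 =>
        zero g i g1 (tsupport_eq_empty_iff.1 (subset_empty_iff.1 g4))⟩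
      (fun _ _ e ⟨V, v1, v2, v3⟩ => ⟨V, v1, e.trans v2, v3⟩) ?_ fun x _ => ?_
    · rintro _ _ ⟨V, v1, v2, v3⟩ ⟨V', w1, w2, w3⟩
      refine ⟨V ∪ V', v1.union w1, union_subset_union v2 w2, (hP _).2 fun g g1 g2 g3 g4 => ?_⟩
      obtain ⟨χ, c1, c2, -⟩ := exists_contMDiffMap_zero_one_nhds_of_isClosed (n := ⊤) 𝓘(ℝ, R4)
        ((isClosed_tsupport (g i)).sdiff v1) ((isClosed_tsupport (g i)).sdiff w1)
        (disjoint_left.2 fun y a b => (g4 a.1).elim a.2 b.2)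
      have c0 : ContDiff ℝ ∞ χ := χ.contMDiff.contDiff
      have key : ∀ V χ, P V → ContDiff ℝ ∞ χ → (∀ᶠ y in 𝓝ˢ (tsupport (g i) \ V), χ y = 0) →
          Q (update g i (χ * g i)) := fun V χ a1 a2 a3 => by
        refine (hP V).1 a1 _ (mul g i χ g1 a2) (fun j => ?_) (fun j hj => ?_) fun y hy => ?_
        · rcases eq_or_ne j i with rfl | u
          · rw [update_self]
            exact tsupport_mul_subset_right.trans (g2 j)
          · rw [update_of_ne u]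
            exact g2 j
        · rw [update_of_ne fun u => hj (Finset.mem_insert.2 (.inl u))]
          exact g3 j hj
        · rw [update_self] at hy
          exact by_contra fun u => notMem_tsupport_iff_eventuallyEq.2 (a3.filter_mono
            (nhds_le_nhdsSet (mem_sdiff_of_mem (tsupport_mul_subset_right hy) u))) (tsupport_mul_subset_left hy)
      exact add g i χ g1 c0 (key V _ v3 c0 c1) (key V' _ w3 (contDiff_const.sub c0)
        (c2.mono fun y hy => by simp [hy]))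
    · refine ⟨_, mem_nhdsWithin_of_mem_nhds (ball_mem_nhds x (half_pos ε0)), _, isOpen_ball, le_rfl,
        (hP _).2 fun g g1 g2 g3 g4 => ih g g1 g2 fun j hj => ?_⟩
      rcases eq_or_ne j i with rfl | u
      · refine ⟨fun l => round (x l / (3 ^ (e + t))⁻¹), fun y hy l => ?_⟩
        have e1 := (PiLp.norm_apply_le (y - x) l).trans_lt
          (mem_ball_iff_norm.1 (g4 (subset_tsupport _ hy)))
        have e2 := mul_le_mul_of_nonneg_left (abs_sub_round (x l / (3 ^ (e + t))⁻¹)) ε0.le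
        rw [← abs_of_pos ε0, ← abs_mul, mul_sub, abs_of_pos ε0, mul_div_cancel₀ _ ε0.ne'] at e2
        rw [PiLp.sub_apply, norm_eq_abs] at e1
        exact (abs_sub_le _ (x l) _).trans (by simp only [gp]; linarith)
      · exact g3 j (by simp [u, hj])

/-- insertions which are additive in all slots and eventually invariant under the grids -/
structure Ml {Ω : Type} (F : Filter Ω) (n : ℕ∞) (A : Ω → (R4 → ℝ) → Pol → ℂ) : Prop where
  l0 : ∀ o f f' Z, Adm ![f] → Adm ![f'] → ContDiff ℝ n f → ContDiff ℝ n f' →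
    A o (f + f') Z = A o f Z + A o f' Z
  l1 : ∀ o f g g' Z, Adm ![f] → A o f (X (g + g') * Z) = A o f (X g * Z) + A o f (X g' * Z)
  tr : ∀ e x f Z, Dt f Z → ContDiff ℝ n f →
    ∀ᶠ o in F, A o (fun y => f (y - gp e x)) (net.τ (gp e x) Z) = A o f Z

/-- the property holds for data with one source in each cell -/
def OnC (n : ℕ∞) (P : ∀ k, (R4 → ℝ) → (Fin k → R4 → ℝ) → Prop) : Prop :=
  ∀ k t, ∃ᶠ e in atTop, ∀ f g, Adm (Fin.cons f g : Fin (k + 1) → _) → ContDiff ℝ n f →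
    Cel e t (Fin.cons f g : Fin (k + 1) → _) → P k f g

theorem mon_upd {k : ℕ} (g : Fin k → R4 → ℝ) (i : Fin k) (u : R4 → ℝ) :
    mon (update g i u) = X u * ∏ j ∈ Finset.univ.erase i, X (g j) := by
  rw [mon, ← Finset.mul_prod_erase _ _ (Finset.mem_univ i), update_self]
  exact congrArg _ (Finset.prod_congr rfl fun j hj => by rw [update_of_ne (Finset.ne_of_mem_erase hj)])

variable {Ω : Type} {F : Filter Ω} {n : ℕ∞} {A B : Ω → (R4 → ℝ) → Pol → ℂ}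

theorem Ml.cut (H : Ml F n A) {P : (Ω → ℂ) → Prop} (P0 : P 0)
    (Pa : ∀ a b, P a → P b → P (a + b)) (Pc : ∀ a b, a =ᶠ[F] b → P a → P b)
    (cel : OnC n fun _ f g => P fun o => A o f (mon g)) {k : ℕ} {f : R4 → ℝ} {g : Fin k → R4 → ℝ}
    (a : Adm (Fin.cons f g : Fin (k + 1) → _)) (b : ContDiff ℝ n f) :
    P fun o => A o f (mon g) := by
  have mul : ∀ (f : Fin (k + 1) → R4 → ℝ) i χ, Adm f ∧ ContDiff ℝ n (f 0) → ContDiff ℝ ∞ χ →
      Adm (update f i (χ * f i)) ∧ ContDiff ℝ n (update f i (χ * f i) 0) := fun f i χ a c => by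
    have s : ∀ j, tsupport (update f i (χ * f i) j) ⊆ tsupport (f j) := fun j => by
      rcases eq_or_ne j i with rfl | u
      · rw [update_self]
        exact tsupport_mul_subset_right
      · rw [update_of_ne u]
    have r : ∀ j (m : ℕ∞), ContDiff ℝ m (f j) → ContDiff ℝ m (update f i (χ * f i) j) :=
      fun j m e => by
        rcases eq_or_ne j i with rfl | u
        · rw [update_self]
          exact (c.of_le (by exact_mod_cast le_top)).mul e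
        · rwa [update_of_ne u]
    exact ⟨⟨fun j => ⟨(a.1.1 j).1.of_isClosed_subset (isClosed_tsupport _) (s j),
      r j 1 (a.1.1 j).2⟩, fun j l e => (a.1.2 e).mono (s j) (s l)⟩, r 0 n a.2⟩
  have add : ∀ (f : Fin (k + 1) → R4 → ℝ) i χ, Adm f ∧ ContDiff ℝ n (f 0) → ContDiff ℝ ∞ χ →
      (fun o => A o (f 0) (mon (Fin.tail f))) = (fun o => A o (update f i (χ * f i) 0)
        (mon (Fin.tail (update f i (χ * f i))))) + fun o => A o (update f i ((1 - χ) * f i) 0)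
          (mon (Fin.tail (update f i ((1 - χ) * f i)))) := fun f i χ a c => funext fun o => by
    have b := mul f i χ a c
    have b' := mul f i (1 - χ) a (contDiff_const.sub c)
    have e : f i = χ * f i + (1 - χ) * f i := by ring
    induction i using Fin.cases with
    | zero =>
      simp only [Fin.tail_update_zero, Pi.add_apply]
      rw [← H.l0 _ _ _ _ (adm_one.2 (b.1.1 0)) (adm_one.2 (b'.1.1 0)) b.2 b'.2, update_self,
        update_self, ← e]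
    | succ i =>
      simp only [Fin.tail_update_succ, Pi.add_apply, update_of_ne (Fin.succ_ne_zero i).symm, mon_upd]
      rw [← H.l1 _ _ _ _ _ (adm_one.2 (a.1.1 0)), ← e, ← mon_upd]
      exact congrArg (fun g => A o _ (mon g)) (update_eq_self i (Fin.tail f)).symm
  refine cut_ind (C := fun f => Adm f ∧ ContDiff ℝ n (f 0))
    (Q := fun f => P fun o => A o (f 0) (mon (Fin.tail f))) (fun _ a => a.1) mul
    (fun f v a => ⟨adm_sub a.1 v, a.2.comp (contDiff_id.sub contDiff_const)⟩)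
    (fun f i χ a c h h' => add f i χ a c ▸ Pa _ _ h h') (fun f i a e => ?_) (fun f e x a => Pc _ _ ?_)
    (fun t => (cel k t).mono fun e h f a c => h _ _ ((Fin.cons_self_tail f).symm ▸ a.1) a.2
      ((Fin.cons_self_tail f).symm ▸ c)) (f := Fin.cons f g) ⟨a, b⟩
  · have := add f i 0 a contDiff_const
    rw [e, mul_zero, mul_zero, ← e, update_eq_self, left_eq_add] at this
    exact this ▸ P0
  · exact (H.tr e x _ _ (dt_of ((Fin.cons_self_tail f).symm ▸ a.1)) a.2).mono fun o h => by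
      rwa [τ_mon] at h

/-- bounds up to a constant -/
theorem Ml.bd {Λ : Type} {F' : Filter Λ} {A : Λ × Ω → (R4 → ℝ) → Pol → ℂ}
    (H : Ml (F'.curry F) n A) {w : Λ → Ω → ℝ}
    (cel : OnC n fun _ f g => ∀ᶠ d in F', ∃ K, ∀ᶠ o in F, ‖A (d, o) f (mon g)‖ ≤ K * w d o)
    {k : ℕ} {f : R4 → ℝ} {g : Fin k → R4 → ℝ} (a : Adm (Fin.cons f g : Fin (k + 1) → _))
    (b : ContDiff ℝ n f) : ∀ᶠ d in F', ∃ K, ∀ᶠ o in F, ‖A (d, o) f (mon g)‖ ≤ K * w d o := by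
  refine H.cut (P := fun a => ∀ᶠ d in F', ∃ K, ∀ᶠ o in F, ‖a (d, o)‖ ≤ K * w d o)
    (.of_forall fun _ => ⟨0, .of_forall fun _ => by simp⟩) (fun a b h h' => ?_)
    (fun a b e h => ?_) cel a b
  · filter_upwards [h, h'] with d ⟨K, h⟩ ⟨K', h'⟩
    exact ⟨K + K', (h.and h').mono fun o e =>
      (norm_add_le _ _).trans ((add_le_add e.1 e.2).trans_eq (add_mul _ _ _).symm)⟩
  · filter_upwards [h, eventually_curry_iff.1 e] with d ⟨K, h⟩ e
    exact ⟨K, (h.and e).mono fun o e => e.2 ▸ e.1⟩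

theorem Ml.comap {Ω' : Type} {F' : Filter Ω'} (H : Ml F n A) {φ : Ω' → Ω} (h : Tendsto φ F' F) :
    Ml F' n fun o => A (φ o) :=
  ⟨fun _ => H.l0 _, fun _ => H.l1 _, fun e x f Z a b => h.eventually (H.tr e x f Z a b)⟩

theorem snd_curry {Λ : Type} (F' : Filter Λ) (F : Filter Ω) : Tendsto Prod.snd (F'.curry F) F :=
  fun s h => eventually_curry_iff (p := fun o => o.2 ∈ s).2 (.of_forall fun _ => h)

theorem Ml.bd' (H : Ml F n A) {w : Ω → ℝ}
    (cel : OnC n fun _ f g => ∃ K, ∀ᶠ o in F, ‖A o f (mon g)‖ ≤ K * w o)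
    {k : ℕ} {f : R4 → ℝ} {g : Fin k → R4 → ℝ} (a : Adm (Fin.cons f g : Fin (k + 1) → _))
    (b : ContDiff ℝ n f) : ∃ K, ∀ᶠ o in F, ‖A o f (mon g)‖ ≤ K * w o :=
  (H.comap (snd_curry (pure ()) F)).bd (w := fun _ => w) cel a b

theorem Ml.mul (H : Ml F n A) (c : Ω → ℂ) : Ml F n fun o f Z => c o * A o f Z :=
  ⟨fun o f f' Z a a' b b' => by rw [H.l0 o f f' Z a a' b b', mul_add],
    fun o f g g' Z a => by rw [H.l1 o f g g' Z a, mul_add],
    fun e x f Z a b => (H.tr e x f Z a b).mono fun _ h => by rw [h]⟩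

theorem Ml.add (H : Ml F n A) (H' : Ml F n B) : Ml F n fun o f Z => A o f Z + B o f Z :=
  ⟨fun o f f' Z a a' b b' => by
    rw [H.l0 o f f' Z a a' b b', H'.l0 o f f' Z a a' b b', add_add_add_comm],
    fun o f g g' Z a => by rw [H.l1 o f g g' Z a, H'.l1 o f g g' Z a, add_add_add_comm],
    fun e x f Z a b => ((H.tr e x f Z a b).and (H'.tr e x f Z a b)).mono fun _ h => by
      rw [h.1, h.2]⟩

/-- the exact structure of the lattice expectations -/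
structure Str {ι : Type} (U : Filter ι) (E : ι → Pol →ₗ[ℂ] ℂ) (V : Ins ι) : Prop where
  lE : ∀ p g g' Z, E p (X (g + g') * Z) = E p (X g * Z) + E p (X g' * Z)
  tE : ∀ e x, ∀ Z ∈ net.loc univ, ∀ᶠ p in U, E p (net.τ (gp e x) Z) = E p Z
  l0 : ∀ p f f' Z, V p (f + f') Z = V p f Z + V p f' Z
  l1 : ∀ p f g g' Z, V p f (X (g + g') * Z) = V p f (X g * Z) + V p f (X g' * Z)
  tr : ∀ e x f Z, Dt f Z →
    ∀ᶠ p in U, V p (fun y => f (y - gp e x)) (net.τ (gp e x) Z) = V p f Z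

variable {ι : Type} (U : Filter ι) (J : ι → ℕ) (E : ι → Pol →ₗ[ℂ] ℂ)

/-- `Lk` for cell data -/
structure Lk0 (a : ℝ) (Y : Let) (V : Ins ι) (ζ : ℝ → ι → ℝ) (c₀ : ℝ) (c c' : ℝ → ℕ → ι → ℝ) :
    Prop where
  c0 : 0 < c₀
  pos : ∀ᶠ d in 𝓝[>] (0 : ℝ), ∃ c₁ > 0, ∀ᶠ p in U, c₁ * 0.99 ^ J p ≤ ζ d p
  nrm : ∀ᶠ d in 𝓝[>] (0 : ℝ), ∀ᶠ e in atTop, ∀ᶠ p in U, c₀ ≤ |c d e p| ∧ |c' d e p| ≤ 1
  far : OnC 0 fun _ f g => ∃ K, ∀ᶠ d in 𝓝[>] (0 : ℝ), ∀ᶠ e in atTop, ∀ᶠ p in U,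
    ‖c d e p * cv (E p) (Y d e f) (mon g) + c' d e p / ζ d p * V p f (mon g)‖ ≤ K * d ^ a
  up : OnC 0 fun _ f g => ∀ᶠ d in 𝓝[>] (0 : ℝ), ∃ K, ∀ᶠ p in U, ‖V p f (mon g)‖ ≤ K * ζ d p

/-- `Lat` for cell data -/
def Lat0 (V V' : Ins ι) : Prop := ∃ z : ι → Fin 3 → ℂ, (∀ᶠ p in U, 2⁻¹ ≤ ‖z p 1‖) ∧
  OnC ⊤ fun _ f g => ∃ K : ℝ, ∀ᶠ p in U, ‖∑ i, z p i * Jp E V V' p f (mon g) i‖ ≤ K / 2 ^ J p

/-- `Chg` for cell data -/
def Chg0 (a : ℝ) (V V' : Ins ι) (ζ ζ' : ℝ → ι → ℝ) (h ξ : R4 → ℝ) : Prop :=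
  ∀ i, ∃ c : ℝ → ℕ → ι → Fin 3 → ℂ,
    (∀ᶠ d in 𝓝[>] (0 : ℝ), ∀ᶠ e in atTop, ∃ B, ∀ᶠ p in U, ‖c d e p 1‖ * ζ' d p ≤ B) ∧
    OnC ⊤ fun _ f g => ∃ K, ∀ᶠ d in 𝓝[>] (0 : ℝ), ∀ᶠ e in atTop, ∀ᶠ p in U,
      ‖Cp E V V' h ξ d e p f (mon g) i / (![ζ d p, ζ' d p, 1] i : ℝ) -
        ∑ j, c d e p j * Jp E V V' p f (mon g) j‖ ≤ K * d ^ a

/-- the lattice input for cell data -/
structure CLat0 (S : Pol →ₗ[ℂ] ℂ) (h₀ : R4 → ℝ) (a : ℝ) (V V' : Ins ι)
    (ζ ζ' : ℝ → ι → ℝ) : Prop where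
  a0 : 0 < a
  ne : U.NeBot
  top : Tendsto J U atTop
  lim : ∀ Z ∈ net.loc univ, Tendsto (E · Z) U (𝓝 (S Z))
  l3 : ∃ c₀ c c', Lk0 U J E a (Y3 h₀ 0) V ζ c₀ c c'
  l6 : ∃ c₀ c c', Lk0 U J E a (Y6 h₀ (π / 4)) V' ζ' c₀ c c'
  lat : Lat0 U J E V V'
  chg : ∃ h ξ, Bmp h ξ ∧ Chg0 U E a V V' ζ ζ' h ξ

variable {U J E} {V V' : Ins ι} {O : Set R4} {Y Z : Pol} {f f' h ξ : R4 → ℝ}

theorem Yr_add (a : Adm ![f]) (a' : Adm ![f']) (u : R4 → ℝ) (d : ℝ) (e : ℕ) :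
    Yr u d e (f + f') = Yr u d e f + Yr u d e f' := by
  rw [Yr, Yr, Yr, ← finsum_add_distrib (fin_Yr (Dt.gd ⟨a, net.one _⟩) _ _)
    (fin_Yr (Dt.gd ⟨a', net.one _⟩) _ _)]
  simp only [Pi.add_apply, mul_add, Complex.ofReal_add, add_smul]

namespace Str

variable (H : Str U E V)
include H

theorem ml : Ml U n fun p f Z => V p f Z :=
  ⟨fun p f f' Z _ _ _ _ => H.l0 p f f' Z, fun p f g g' Z _ => H.l1 p f g g' Z,
    fun e x f Z a _ => H.tr e x f Z a⟩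

theorem sw (l : Fin 4) : (∀ p f f' Z, V.sw l p (f + f') Z = V.sw l p f Z + V.sw l p f' Z) ∧
    (∀ p f g g' Z, V.sw l p f (X (g + g') * Z) = V.sw l p f (X g * Z) + V.sw l p f (X g' * Z)) ∧
    ∀ e x f Z, Dt f Z →
      ∀ᶠ p in U, V.sw l p (fun y => f (y - gp e x)) (net.τ (gp e x) Z) = V.sw l p f Z := by
  refine ⟨fun p f f' Z => H.l0 p _ _ _, fun p f g g' Z => ?_, fun e x f Z a => ?_⟩
  · simp only [Ins.sw, map_mul, Ro.act_X]
    exact H.l1 p _ _ _ _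
  · have e1 : Ro.prm (Equiv.swap 1 l) (gp e x) = gp e (x ∘ (Equiv.swap 1 l).symm) := by
      ext i
      simp only [Ro.prm_apply, gp, comp]
    simpa only [Ins.sw, Ro.act_τ, ← e1, map_sub, LinearIsometryEquiv.symm_apply_apply] using
      H.tr e (x ∘ (Equiv.swap 1 l).symm) _ _ (a.act (Ro.prm (Equiv.swap 1 l)))

theorem cv1 (p : ι) (Y : Pol) (g g' : R4 → ℝ) (Z : Pol) :
    cv (E p) Y (X (g + g') * Z) = cv (E p) Y (X g * Z) + cv (E p) Y (X g' * Z) := by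
  simp only [cv, mul_left_comm Y, H.lE]
  ring

theorem cvt (hY : Y ∈ net.loc O) (hZ : Z ∈ net.loc Oᶜ) (e : ℕ) (x : Fin 4 → ℤ) :
    ∀ᶠ p in U, cv (E p) (net.τ (gp e x) Y) (net.τ (gp e x) Z) = cv (E p) Y Z := by
  filter_upwards [H.tE e x _ (mul_adm hY hZ), H.tE e x _ (Net.adm hY), H.tE e x _ (Net.adm hZ)]
    with p h1 h2 h3
  rw [cv, cv, ← map_mul, h1, h2, h3]

theorem mlY {Y : Let} {s : Fin 4 → ℝ} (g : Gf 0 s Y)
    (l : ∀ d e f f', Adm ![f] → Adm ![f'] → Y d e (f + f') = Y d e f + Y d e f') :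
    Ml ((𝓝[>] (0 : ℝ)).curry (atTop.curry U)) n fun o f Z => cv (E o.2.2) (Y o.1 o.2.1 f) Z := by
  refine ⟨fun o f f' Z a a' _ _ => by rw [l _ _ _ _ a a', cv_add],
    fun o f g g' Z _ => H.cv1 _ _ _ _ _, fun e x f Z a _ => ?_⟩
  simp only [eventually_curry_iff]
  filter_upwards [a.sm] with d b
  filter_upwards [eventually_ge_atTop e] with e' he
  have c := (g d e' (3 * d) b.1 (by linarith [b.1])).1
  rw [← (c.mono he).tau x a.gd]
  exact H.cvt (c.loc a.gd) b.2.2 e x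

theorem lk {a c₀ : ℝ} {Y : Let} {s : Fin 4 → ℝ} {ζ : ℝ → ι → ℝ} {c c' : ℝ → ℕ → ι → ℝ} (g : Gf 0 s Y)
    (l : ∀ d e f f', Adm ![f] → Adm ![f'] → Y d e (f + f') = Y d e f + Y d e f')
    (L : Lk0 U J E a Y V ζ c₀ c c') : Lk U J E a Y V ζ c₀ c c' := by
  refine ⟨L.c0, L.pos, L.nrm, fun k f g' b => ?_, fun k f g' b =>
    (H.ml.comap (snd_curry _ U)).bd L.up b (contDiff_zero.2 (b.1 0).2.continuous)⟩
  simpa only [eventually_curry_iff, comp] using (((H.mlY g l).mul fun o => c o.1 o.2.1 o.2.2).add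
    ((H.ml.comap ((snd_curry _ U).comp (snd_curry _ _))).mul
      fun o => c' o.1 o.2.1 o.2.2 / ζ o.1 o.2.2)).bd' (w := fun o => o.1 ^ a)
    (by simpa only [eventually_curry_iff, comp] using L.far) b (contDiff_zero.2 (b.1 0).2.continuous)

variable (H' : Str U E V')
include H'

theorem j0 (p : ι) (a : Differentiable ℝ f) (a' : Differentiable ℝ f') (Z : Pol) :
    Jp E V V' p (f + f') Z = Jp E V V' p f Z + Jp E V V' p f' Z := by
  have e := fun μ => St.pd_add (μ := μ) a a' 1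
  have e' := H.lE p (pd 0 f) (pd 0 f') 1
  simp only [one_smul, mul_one] at e e'
  simp only [Jp, e, (H.sw _).1, (H'.sw _).1, Finset.sum_add_distrib, cv, H.lE, e', Matrix.add_cons,
    Matrix.head_cons, Matrix.tail_cons, Matrix.empty_add_empty]
  congr 3
  ring

theorem j1 (p : ι) (f g g' : R4 → ℝ) (Z : Pol) :
    Jp E V V' p f (X (g + g') * Z) = Jp E V V' p f (X g * Z) + Jp E V V' p f (X g' * Z) := by
  simp only [Jp, (H.sw _).2.1, (H'.sw _).2.1, Finset.sum_add_distrib, H.cv1, Matrix.add_cons,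
    Matrix.head_cons, Matrix.tail_cons, Matrix.empty_add_empty]

theorem jt (a : Dp f Z) (e : ℕ) (x : Fin 4 → ℤ) :
    ∀ᶠ p in U, Jp E V V' p (fun y => f (y - gp e x)) (net.τ (gp e x) Z) = Jp E V V' p f Z := by
  filter_upwards [eventually_all.2 fun l : Fin 3 => (H.sw l.succ).2.2 e x _ _ (a.pd 0),
    eventually_all.2 fun l : Fin 3 => (H'.sw l.succ).2.2 e x _ _ (a.pd l.succ),
    H.cvt (a.pd 0).X (a.pd 0).2 e x] with p h1 h2 h3
  simp only [Jp, St.pd_sub, h1, h2, ← τ_X, h3]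

theorem mlJ (z : Ω → Fin 3 → ℂ) {φ : Ω → ι} (t : Tendsto φ F U) :
    Ml F ⊤ fun o f Z => ∑ i, z o i * Jp E V V' (φ o) f Z i :=
  ⟨fun o f f' Z _ _ b b' => by simp only [H.j0 H' _ (b.differentiable (by simp))
      (b'.differentiable (by simp)), Pi.add_apply, mul_add, Finset.sum_add_distrib],
    fun o f g g' Z _ => by simp only [H.j1 H', Pi.add_apply, mul_add, Finset.sum_add_distrib],
    fun e x f Z a b => (t.eventually (H.jt H' (Ds.dp ⟨b, a⟩) e x)).mono fun _ h => by rw [h]⟩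

theorem mlC (b : Bmp h ξ) (i : Fin 3) : Ml ((𝓝[>] (0 : ℝ)).curry (atTop.curry U)) n
    fun o f Z => Cp E V V' h ξ o.1 o.2.1 o.2.2 f Z i := by
  have fin : ∀ {f : R4 → ℝ} {e : ℕ} {t : ℝ} {P : (Fin 4 → ℤ) → ℂ}, Adm ![f] →
      (support fun x => ((t * f (gp e x) : ℝ) : ℂ) * P x).Finite := fun {_ e _ _} a =>
    (fin_gp a e).subset fun x hx e => hx (by simp [e])
  refine ⟨fun o f f' Z a a' _ _ => ?_, fun o f g g' Z a => ?_, fun e x f Z a _ => ?_⟩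
  · rw [Cp, Cp, Cp, ← finsum_add_distrib (fin a) (fin a')]
    simp only [Pi.add_apply, mul_add, Complex.ofReal_add, add_mul]
  · rw [Cp, Cp, Cp, ← finsum_add_distrib (fin a) (fin a)]
    refine finsum_congr fun x => ?_
    simp only [mul_left_comm (X (St.sc h _ _)), H.j1 H', H.lE, Pi.add_apply]
    ring
  simp only [eventually_curry_iff]
  filter_upwards [a.sm] with d c
  filter_upwards [eventually_ge_atTop e] with e' he
  obtain ⟨s, rfl⟩ := Nat.exists_eq_add_of_le he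
  rw [← gp_mul e s]
  generalize (fun l => 3 ^ s * x l) = x
  generalize e + s = e
  have k : ∀ Z, Sm d f Z → ∀ᶠ p in U, ∀ y ∈ {y | f (gp e y) ≠ 0},
      Jp E V V' p (bx ξ d (gp e y + gp e x)) (X (St.sc h d (gp e y + gp e x)) * net.τ (gp e x) Z) =
      Jp E V V' p (bx ξ d (gp e y)) (X (St.sc h d (gp e y)) * Z) := fun Z c =>
    (eventually_all_finite (fin_gp a.1 e)).2 fun y hy => by
      have := H.jt H' ((b.cut c.1 (net.mono c.2.2 (compl_subset_compl.2 ((ball_subset_ball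
        (show 2 * d ≤ 3 * d by linarith [c.1])).trans (ball_subset_thickening (subset_tsupport f hy) _))))).dp
        (b.mem c.1 (gp e y))) e x
      rw [map_mul, τ_X] at this
      unfold bx St.sc at this ⊢
      simpa only [sub_sub, add_comm] using this
  filter_upwards [k Z c, k 1 ⟨c.1, a.1, net.one _⟩, H.tE e x _ a.adm] with p h1 h2 h3
  rw [Cp, Cp, ← finsum_comp_equiv (Equiv.addRight x)]
  refine finsum_congr fun y => ?_
  simp only [map_one, mul_one] at h2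
  simp only [Equiv.coe_addRight, gp_add, add_sub_cancel_right, h3]
  by_cases u : f (gp e y) = 0
  · simp [u]
  · rw [h1 y u, h2 y u]

end Str

/-- the cutting -/
theorem clat_of {S : Pol →ₗ[ℂ] ℂ} {h₀ : R4 → ℝ} {a : ℝ} {ζ ζ' : ℝ → ι → ℝ} (r : Rd h₀)
    (H : Str U E V) (H' : Str U E V') (L : CLat0 U J E S h₀ a V V' ζ ζ') :
    CLat U J E S h₀ a V V' ζ ζ' := by
  obtain ⟨c₀, c, c', l3⟩ := L.l3
  obtain ⟨b₀, b, b', l6⟩ := L.l6
  obtain ⟨z, z1, z2⟩ := L.lat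
  obtain ⟨h, ξ, h1, h2⟩ := L.chg
  refine ⟨L.a0, L.ne, L.top, L.lim, ⟨_, _, _, H.lk (gf_Y3 r 0) (fun d e f f' a a' => ?_) l3⟩,
    ⟨_, _, _, H'.lk (gf_Y6 r _) (fun d e f f' a a' => ?_) l6⟩, ⟨z, z1, fun x => ?_⟩, h, ξ, h1,
    fun i => (h2 i).imp fun c u => ⟨u.1, fun x => ?_⟩⟩
  · simp only [Y3, t3, Yr_add a a']
    abel
  · simp only [Y6, t6, Yr_add a a']
    abel
  · exact (H.mlJ H' z tendsto_id).bd' (w := fun p => (2 ^ J p)⁻¹) z2 x.ad x.sm
  · have := (((H.mlC H' h1 i).mul fun o => (![ζ o.1 o.2.2, ζ' o.1 o.2.2, 1] i : ℝ)⁻¹).add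
      ((H.mlJ H' (fun o => c o.1 o.2.1 o.2.2) ((snd_curry _ U).comp (snd_curry _ _))).mul
        fun _ => -1)).bd' (w := fun o => o.1 ^ a)
      (by simpa only [eventually_curry_iff, comp, div_eq_inv_mul, sub_eq_add_neg, neg_one_mul] using u.2)
      x.ad x.sm
    simpa only [eventually_curry_iff, comp, div_eq_inv_mul, sub_eq_add_neg, neg_one_mul] using this

end Pool.Agent.Lib.MP_7f377f_mp.Ope
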