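import Pool.Agent.Lib.MP_7f377f_mp.G.ScDef

/-! The lattice input for the Ward identity. -/

noncomputable section

namespace Pool.Agent.Lib.MP_7f377f_mp.Ope
variable [Pool.Agent.Lib.MP_7f377f_mp.GD]
set_option linter.unusedSectionVars false

open Filter Topology Set Real YM7 Pur MvPolynomial Fx

/-- insertions of a lattice field into correlation functions -/
abbrev Ins (ι : Type) : Type := ι → (R4 → ℝ) → Pol →ₗ[ℂ] ℂ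

variable {ι : Type} (U : Filter ι) (J : ι → ℕ) (E : ι → Pol →ₗ[ℂ] ℂ)

/-- the insertion with the axes `1` and `l` exchanged -/
def Ins.sw (V : Ins ι) (l : Fin 4) (p : ι) (f : R4 → ℝ) (Z : Pol) : ℂ :=
  V p (fun y => f ((Ro.prm (Equiv.swap 1 l)).symm y)) (Ro.act (Ro.prm (Equiv.swap 1 l)) Z)

/-- the three vector fields on the lattice -/
def Jp (V V' : Ins ι) (p : ι) (f : R4 → ℝ) (Z : Pol) : Fin 3 → ℂ :=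
  ![∑ l : Fin 3, V.sw l.succ p (pd 0 f) Z, ∑ l : Fin 3, V'.sw l.succ p (pd l.succ f) Z,
    cv (E p) (X (pd 0 f)) Z]

/-- the charges of small sources on the lattice -/
def Cp (V V' : Ins ι) (h ξ : R4 → ℝ) (d : ℝ) (e : ℕ) (p : ι) (g : R4 → ℝ) (Z : Pol) (i : Fin 3) :
    ℂ := ∑ᶠ x : Fin 4 → ℤ, (((3 ^ e)⁻¹ ^ 4 * g (gp e x) : ℝ) : ℂ) *
  (Jp E V V' p (bx ξ d (gp e x)) (X (St.sc h d (gp e x)) * Z) i -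
    Jp E V V' p (bx ξ d (gp e x)) (X (St.sc h d (gp e x))) i * E p Z)

/-- the lattice field `V` of size `ζ` is proportional to the composite `Y` -/
structure Lk (a : ℝ) (Y : Let) (V : Ins ι) (ζ : ℝ → ι → ℝ) (c₀ : ℝ) (c c' : ℝ → ℕ → ι → ℝ) :
    Prop where
  c0 : 0 < c₀
  pos : ∀ᶠ d in 𝓝[>] (0 : ℝ), ∃ c₁ > 0, ∀ᶠ p in U, c₁ * 0.99 ^ J p ≤ ζ d p
  nrm : ∀ᶠ d in 𝓝[>] (0 : ℝ), ∀ᶠ e in atTop, ∀ᶠ p in U, c₀ ≤ |c d e p| ∧ |c' d e p| ≤ 1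
  far : ∀ k f (g : Fin k → R4 → ℝ), Adm (Fin.cons f g : Fin (k + 1) → _) → ∃ K,
    ∀ᶠ d in 𝓝[>] (0 : ℝ), ∀ᶠ e in atTop, ∀ᶠ p in U, ‖c d e p * cv (E p) (Y d e f) (mon g) +
      c' d e p / ζ d p * V p f (mon g)‖ ≤ K * d ^ a
  up : ∀ k f (g : Fin k → R4 → ℝ), Adm (Fin.cons f g : Fin (k + 1) → _) →
    ∀ᶠ d in 𝓝[>] (0 : ℝ), ∃ K, ∀ᶠ p in U, ‖V p f (mon g)‖ ≤ K * ζ d p

/-- the equation of motion -/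
def Lat (V V' : Ins ι) : Prop := ∃ z : ι → Fin 3 → ℂ, (∀ᶠ p in U, 2⁻¹ ≤ ‖z p 1‖) ∧
  ∀ x : Sd, ∃ K : ℝ, ∀ᶠ p in U, ‖∑ i, z p i * Jp E V V' p x.f (mon x.g) i‖ ≤ K / 2 ^ J p

/-- the charges are combinations of the three vector fields -/
def Chg (a : ℝ) (V V' : Ins ι) (ζ ζ' : ℝ → ι → ℝ) (h ξ : R4 → ℝ) : Prop :=
  ∀ i, ∃ c : ℝ → ℕ → ι → Fin 3 → ℂ,
    (∀ᶠ d in 𝓝[>] (0 : ℝ), ∀ᶠ e in atTop, ∃ B, ∀ᶠ p in U, ‖c d e p 1‖ * ζ' d p ≤ B) ∧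
    ∀ x : Sd, ∃ K, ∀ᶠ d in 𝓝[>] (0 : ℝ), ∀ᶠ e in atTop, ∀ᶠ p in U,
      ‖Cp E V V' h ξ d e p x.f (mon x.g) i / (![ζ d p, ζ' d p, 1] i : ℝ) -
        ∑ j, c d e p j * Jp E V V' p x.f (mon x.g) j‖ ≤ K * d ^ a

/-- the lattice input -/
structure CLat (S : Pol →ₗ[ℂ] ℂ) (h₀ : R4 → ℝ) (a : ℝ) (V V' : Ins ι)
    (ζ ζ' : ℝ → ι → ℝ) : Prop where
  a0 : 0 < a
  ne : U.NeBot
  top : Tendsto J U atTop
  lim : ∀ Z ∈ net.loc univ, Tendsto (E · Z) U (𝓝 (S Z))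
  l3 : ∃ c₀ c c', Lk U J E a (Y3 h₀ 0) V ζ c₀ c c'
  l6 : ∃ c₀ c c', Lk U J E a (Y6 h₀ (π / 4)) V' ζ' c₀ c c'
  lat : Lat U J E V V'
  chg : ∃ h ξ, Bmp h ξ ∧ Chg U E a V V' ζ ζ' h ξ

/-- the normalisation grows slower than any power -/
def Slow (M : ℝ → ℝ) : Prop := ∀ ε > (0 : ℝ), ∀ᶠ d in 𝓝[>] (0 : ℝ), |M d| * d ^ ε ≤ 1

end Pool.Agent.Lib.MP_7f377f_mp.Ope
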