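import Pool.Agent.Lib.MP_7f377f_mp.G.ObA

/-! Centred jets of a family with single slots. -/

noncomputable section

open Pool.Agent.Lib.MP_7f377f_mp.Jet

set_option linter.unusedSectionVars false
variable [Pool.Agent.Lib.MP_7f377f_mp.GD]

namespace Pool.Agent.Lib.MP_7f377f_mp.RG.Q4.En

open Finset Real Sg Br YM7 MeasureTheory Mx

variable {ι : Type} [Fintype ι] [DecidableEq ι]

theorem ma_lin1 {a : Finset ι → ℂ} (a0 : a ∅ = 0) (a2 : ∀ T, 2 ≤ T.card → a T = 0) (s : ι → ℂ) :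
    ma univ a s = ∑ q, s q * a {q} := by
  rw [ma, ← sum_subset (s₁ := univ.image fun q : ι => {q}) (fun _ _ => by simp) fun T _ hT => ?_,
    sum_image fun _ _ _ _ => singleton_injective.eq_iff.1]
  · simp [mon]
  · rcases T.eq_empty_or_nonempty with rfl | h
    · rw [a0, smul_zero]
    · rw [a2 T (by
        by_contra u
        obtain ⟨q, rfl⟩ := card_eq_one.1 (show T.card = 1 by have := card_pos.2 h; omega)
        exact hT (mem_image_of_mem _ (mem_univ q))), smul_zero]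

theorem cen_jd {a d t : ι → ℂ} {w : ι → ℝ} {M D : ℝ} {q : (ι → ℂ) → ℂ} {m : Finset ι → ℂ}
    (hq : SH (fun i => (w i)⁻¹) M q) (ht : ∀ i, t i = a i + d i) (hd : ∀ i, ‖d i‖ ≤ D * w i)
    (hm : ∀ T, m T = jd T fun s => Complex.exp (∑ i, s i * a i) * q s) (A : Finset ι) :
    ‖∑ T ∈ A.powerset, (∏ i ∈ A \ T, -t i) * m T‖ ≤
      M * exp (Fintype.card ι * D) * ∏ i ∈ A, w i := by
  have e := jd_mul ((sh_lin hq.pos univ a).exp.mul hq) (sh_lin hq.pos univ fun i => -t i).exp A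
  have b := (hq.mul (((sh_lin hq.pos univ fun i => -d i).mono
    (M' := Fintype.card ι * D) ?_).exp)).jd_le A
  · rw [prod_inv_distrib, div_inv_eq_mul] at b
    refine (le_of_eq (congrArg norm ?_)).trans b
    refine ((sum_congr rfl fun T _ => ?_).trans e.symm).trans (congrArg _ (funext fun s => ?_))
    · rw [jd_exp_lin _ (subset_univ _), hm, mul_comm]
      rfl
    · simp only [Pi.mul_apply, ht]
      rw [mul_right_comm, ← Complex.exp_add, ← sum_add_distrib, mul_comm]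
      congr 2
      exact sum_congr rfl fun i _ => by ring
  · rw [← nsmul_eq_mul]
    refine sum_le_card_nsmul _ _ _ fun i _ => ?_
    rw [norm_neg, inv_mul_le_iff₀ (inv_pos.1 (hq.pos i)), mul_comm]
    exact hd i

namespace Gl.Ok

/-- the centred moments of a family with individual radii -/
theorem fill {G : Gl} (h : G.Ok) {J j : ℕ} {b N : ℝ} {f : (ι → ℂ) → Conf → ℂ} {Y : Fy ι}
    {w : ι → ℝ} (w0 : ∀ q, 0 < w q)
    (e : ∃ J1 z r0 r θ β, G.Tz J1 j z ∧ G.Fd j z univ r0 r θ Y f ∧ RealP (G.p j) (Y.ψ 0) ∧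
      RealA (Y.K 0) ∧ (∀ s ∈ Pd r, PU (G.p j) β (Y.ψ s)) ∧ G.Q j ^ 100 * β ≤ 1 ∧
      G.Q j ^ 100 * θ ≤ 1 ∧ ∀ q, (w q)⁻¹ ≤ r q ∧ (Y.Z q).card ≤ N)
    (f0 : f 0 = G.f b J j) (b0 : 0 ≤ b) (ec : Y.Ec univ id) (A : Finset ι) :
    ‖∑ T ∈ A.powerset, (∏ q ∈ A \ T, -(jd {q} (f · 1) / f 0 1)) *
      (jd T (fun s => ∫ U, f s (pc (G.N j) U) ∂PP) / ∫ U, f 0 (pc (G.N j) U) ∂PP)‖ ≤
      exp (cJ / G.g j * G.N j ^ 4 + Fintype.card ι * exp N) * ∏ q ∈ A, w q := by
  obtain ⟨J', z, r0, r, θ, β, t, e, r1, r2, pu, hb, hθ, hr⟩ := e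
  have p : ∀ i, 0 < (w i)⁻¹ := fun i => inv_pos.2 (w0 i)
  have l := ma_lin1 (a := ce Y.E) (if_pos rfl) fun T hT => by
    rw [ce, jd_two ec (subset_univ T) hT, ite_self]
  obtain ⟨g1, -, g2⟩ := (h.f_facts J j).1 b b0
  rw [← f0] at g1 g2
  obtain ⟨-, a⟩ := int_ratio2.choose_spec.2 h t e g1 g2 r1 r2 pu hb hθ
  have c := e.eq.int PP
  simp only [integral_const_mul] at c
  have a' := e.eq.eqv (U := 1) fun _ => rfl
  simp only [h.fd_flat t e] at a'
  have n0 := h.fd_ne t e hθ (zero_mem e.fi.pos)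
  have θ0 := e.fi.km.choose_spec.1.nonneg
  have u : ∀ q, SH (fun i => (w i)⁻¹) (exp N)
      fun s => Sg.zf (G.N j) (Y.K (cutS {q} s)) / Sg.zf (G.N j) (Y.K 0) := fun q => by
    refine ((h.fd_ratio t e hθ {q}).1.shrink p fun i => (hr i).1).mono (exp_le_exp.2 ?_)
    have a2 := mul_le_mul_of_nonneg_right ((h.cQ j (C := 4) (by norm_num)).trans
      (le_self_pow₀ (h.Q1 j) (n := 100) (by norm_num))) θ0
    rw [singleton_biUnion]
    exact (mul_le_of_le_one_left (by positivity) (a2.trans hθ)).trans (hr q).2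
  rw [exp_add]
  refine cen_jd (a := fun q => ce Y.E {q})
    (d := fun q => jd {q} fun s => Sg.zf (G.N j) (Y.K (cutS {q} s)) / Sg.zf (G.N j) (Y.K 0))
    (a.shrink p fun i => (hr i).1) (fun q => ?_) (fun q => by simpa using (u q).jd_le {q})
    (fun T => (Ob.mo_eqv (fun _ => rfl) c e.ma T).trans (by simp only [l]; rfl)) A
  have k := jd_mul (sh_lin p univ fun q => ce Y.E {q}).exp (u q) {q}
  rw [show powerset {q} = {∅, {q}} from rfl, sum_pair (singleton_ne_empty q).symm,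
    jd_exp_lin _ (subset_univ _), jd_exp_lin _ (subset_univ _), sdiff_empty, sdiff_self] at k
  simp only [prod_empty, prod_singleton, bot_eq_empty, one_mul, jd_empty, cut_zero, div_self n0,
    mul_one] at k
  rw [Ob.mo_eqv (m := fun T => jd T (f · 1) / f 0 1) (fun _ => rfl) a' e.ma {q}, add_comm, ← k,
    jd_single, jd_single]
  simp only [l, Pi.mul_apply, show ∀ t, cutS {q} (Pi.single q t) = Pi.single q t from fun t =>
    funext fun i => by by_cases v : i = q <;> simp [cutS, v]]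

end Gl.Ok

end Pool.Agent.Lib.MP_7f377f_mp.RG.Q4.En
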