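import Pool.Agent.Lib.MP_7f377f_mp.G.OddBox

/-! The chessboard estimate with weights which are not reflection symmetric. -/

namespace Pool.Agent.Lib.MP_7f377f_mp.Weak

open MeasureTheory

section
variable {d m m' q : ℕ} [NeZero m] [NeZero m'] [NeZero q]

/-- cells grouped into big cells -/
theorem exists_blk (hm : m = m' * q) : ∃ E : Site d m' × Site d q ≃ Site d m,
    ∀ y z k, (E (y, z) k).val = q * (y k).val + (z k).val := by
  have hv : ∀ (y : Site d m') (z : Site d q) k,
      ((q * (y k).val + (z k).val : ℕ) : ZMod m).val = q * (y k).val + (z k).val := fun y z k => by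
    have a1 := ZMod.val_lt (z k)
    have a2 := Nat.mul_le_mul_left q (Nat.succ_le_of_lt (ZMod.val_lt (y k)))
    rw [Nat.mul_succ, mul_comm q m'] at a2
    exact ZMod.val_cast_of_lt (by omega)
  refine ⟨Equiv.ofBijective (fun p k => ((q * (p.1 k).val + (p.2 k).val : ℕ) : ZMod m))
    ((Fintype.bijective_iff_injective_and_card _).2 ⟨?_, ?_⟩), hv⟩
  · rintro ⟨y, z⟩ ⟨y', z'⟩ h
    have h1 : ∀ k, (y k).val = (y' k).val ∧ (z k).val = (z' k).val := fun k => by
      have a := congrArg ZMod.val (congrFun h k)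
      rw [hv, hv] at a
      have a1 := congrArg (· % q) a
      simp only [Nat.mul_add_mod, Nat.mod_eq_of_lt (ZMod.val_lt _)] at a1
      rw [a1] at a
      exact ⟨Nat.eq_of_mul_eq_mul_left (NeZero.pos q) (Nat.add_right_cancel a), a1⟩
    exact Prod.ext (funext fun k => ZMod.val_injective _ (h1 k).1)
      (funext fun k => ZMod.val_injective _ (h1 k).2)
  · simp only [Fintype.card_prod, Fintype.card_pi, ZMod.card, Finset.prod_const, ← mul_pow, hm]

theorem rc_rc_comm (k l : Fin d) (x : Site d q) : rc k (rc l x) = rc l (rc k x) := by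
  by_cases h : k = l
  · rw [h]
  funext i
  by_cases h1 : i = k <;> by_cases h2 : i = l <;> simp_all [rc, rf]

theorem prod_sy {β : Type} (e : β) (r : β → β) {h : ℕ} (hm : m = 2 * h + 1) (k : Fin d)
    (g : β → ℝ) (ge : g e = 1) (σ τ : Site d m → β) : ∏ x, g (sy e r h k σ τ x) =
      (∏ x with (x k).val < h, g (σ x)) * ∏ x with (x k).val < h, g (r (τ x)) := by
  rw [prod_third hm k _ fun x hx => by simp [sy, hx, ge]]
  congr 1 <;> refine Finset.prod_congr rfl fun x hx => ?_ <;>
    have := (Finset.mem_filter.mp hx).2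
  · rw [sy, if_pos this]
  · rw [sy, if_neg (by rw [rc_val]; omega), if_neg (by rw [rc_val]; omega), rc_rc]

theorem gbox_abs {β : Type} (e : β) (r : Fin 4 → β → β) (re : ∀ k, r k e = e)
    (rr : ∀ k a, r k (r k a) = a) (cm : ∀ k l a, r k (r l a) = r l (r k a)) {h : ℕ}
    (hm : m = 2 * h + 1) (Φ : (Site 4 m → β) → ℝ) (pos : ∀ σ, 0 ≤ Φ σ)
    (sh : ∀ σ a, Φ (fun x => σ (x + a)) = Φ σ)
    (cs : ∀ σ k, (∀ x, (x k).val = h → σ x = e) → Φ σ ^ 2 ≤ Φ (sy e (r k) h k σ σ) *
      Φ (sy e (r k) h k (fun x => r k (σ (rc k x))) fun x => r k (σ (rc k x))))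
    (h1 : Φ (fun _ => e) ≤ 1) (w : β → ℝ) (w0 : ∀ a, 0 < w a) (we : w e = 1) {C : ℝ}
    (hC : 0 ≤ C) (hM : ∀ σ, Φ σ ≤ Real.exp (C * m ^ 4) * ∏ x, w (σ x)) (hq : m = m' * q)
    (h3 : 3 ≤ m') (σ : Site 4 m → β) (hσ : ∀ x k, q / 2 ≤ (x k).val → σ x = e) :
    Φ σ ^ 16 ≤ Real.exp (256 * C * q ^ 4) * ∏ x, ∏ a : Bool, ∏ b : Bool, ∏ c : Bool, ∏ f : Bool,
      w ((if a then r 0 else id) ((if b then r 1 else id) ((if c then r 2 else id)
        ((if f then r 3 else id) (σ x))))) := by
  classical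
  obtain ⟨E, hE⟩ := exists_blk (d := 4) hq
  obtain ⟨⟨H, hH⟩, p, hp⟩ := Nat.odd_mul.1 (hq ▸ ⟨h, hm⟩ : Odd (m' * q))
  have hh : h = q * H + p := by
    have : 2 * h + 1 = 2 * (q * H + p) + 1 := by rw [← hm, hq, hH, hp]; ring
    omega
  have hp2 : q / 2 = p := by omega
  rw [hp2] at hσ
  have Er : ∀ k y z, rc k (E (y, z)) = E (rc k y, rc k z) := fun k y z => by
    funext l
    apply ZMod.val_injective
    by_cases hl : l = k
    · subst hl
      obtain ⟨u, hu⟩ := Nat.exists_eq_add_of_lt (ZMod.val_lt (y l))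
      have a1 := ZMod.val_lt (z l)
      have a2 : m = q * (y l).val + q * u + q :=
        hq.trans ((congrArg (· * q) hu).trans (by ring))
      rw [rc_val, hE, hE, rc_val, rc_val, show m' - 1 - (y l).val = u by omega]
      omega
    · rw [rc_ne hl, hE, hE, rc_ne hl, rc_ne hl]
  have Es : ∀ a y z, E (y, z) + corner q a = E (y + a, z) := fun a y z => by
    have : ∀ y z, E (y, z) = corner q y + fun k => (((z k).val : ℕ) : ZMod m) := fun y z => by
      funext k
      rw [← ZMod.natCast_zmod_val (E (y, z) k), hE, Nat.cast_add]; rfl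
    rw [this, this, corner_add hq, add_right_comm]
  have tri : ∀ (y : Site 4 m') (z : Site 4 q) k,
      ((E (y, z) k).val < h ↔ (y k).val < H ∨ (y k).val = H ∧ (z k).val < p) ∧
      ((E (y, z) k).val = h ↔ (y k).val = H ∧ (z k).val = p) := fun y z k => by
    have a1 := ZMod.val_lt (z k)
    rw [hE, hh]
    rcases lt_trichotomy (y k).val H with a | a | a
    · have := Nat.mul_le_mul_left q (Nat.succ_le_of_lt a)
      rw [Nat.mul_succ] at this
      omega
    · rw [a]; omega
    · have := Nat.mul_le_mul_left q (Nat.succ_le_of_lt a)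
      rw [Nat.mul_succ] at this
      omega
  obtain ⟨P, hP⟩ : ∃ P : (Site 4 m' → Site 4 q → β) → Site 4 m → β,
      ∀ η y z, P η (E (y, z)) = η y z :=
    ⟨fun η x => η (E.symm x).1 (E.symm x).2, fun η y z => by simp⟩
  have ext : ∀ (τ : Site 4 m → β) η, (∀ y z, τ (E (y, z)) = η y z) → τ = P η := fun τ η hτ => by
    funext x
    obtain ⟨⟨y, z⟩, rfl⟩ := E.surjective x
    rw [hP, hτ]
  have Ps : ∀ η a, Φ (P fun y => η (y + a)) = Φ (P η) := fun η a => by
    rw [← sh (P η) (corner q a)]
    exact congrArg Φ (ext _ _ fun y z => by rw [Es, hP]).symm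
  have Pw : ∀ (g : β → ℝ) η, ∏ x, g (P η x) = ∏ y, ∏ z, g (η y z) := fun g η => by
    rw [← E.prod_comp, Fintype.prod_prod_type]
    simp only [hP]
  -- the chessboard for a symmetric big cell
  have big : ∀ t : Site 4 q → β, (∀ k z, r k (t (rc k z)) = t z) →
      Φ (P fun y z => if y = 0 then t z else e) ≤ Real.exp (256 * C * q ^ 4) * ∏ z, w (t z) := by
    intro t ht
    set W := ∏ z, w (t z)
    have W0 : 0 < W := Finset.prod_pos fun _ _ => w0 _
    set v : Bool → ℝ := fun a => if a then W else 1 with hv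
    have v0 : ∀ η : Site 4 m' → Bool, 0 < ∏ y, v (η y) := fun η =>
      Finset.prod_pos fun _ _ => by simp only [hv]; split_ifs <;> positivity
    obtain ⟨s, s1, s2⟩ : ∃ s, 1 + 2 ^ s ≤ H + 1 ∧ m' ≤ 4 * (2 * 2 ^ s) := by
      have a1 := Nat.pow_log_le_self 2 (x := H) (by omega)
      have a2 := Nat.lt_pow_succ_log_self one_lt_two H
      rw [pow_succ'] at a2
      exact ⟨Nat.log 2 H, by omega, by omega⟩
    have key := chess_box_abs false (fun _ a => a) (fun _ => rfl) (fun _ _ => rfl) hH
      (fun η : Site 4 m' → Bool => Φ (P fun y z => if η y then t z else e) / ∏ y, v (η y))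
      (fun η => div_nonneg (pos _) (v0 _).le) (fun η a => ?_) (fun η k hη => ?_) ?_
      (M := Real.exp (C * m ^ 4)) (Real.one_le_exp (by positivity)) (fun η => ?_)
      (D := fun _ => 1) (fun _ => s1) (fun y => decide (y = 0)) fun y k hy => ?_
    · simp only [decide_eq_true_eq, hv, Finset.prod_ite_eq', Finset.mem_univ, if_true] at key
      rw [div_le_iff₀ W0, ← Real.exp_mul] at key
      refine key.trans (mul_le_mul_of_nonneg_right (Real.exp_le_exp.2 ?_) W0.le)
      have s3 : (m' : ℝ) * (1 / (2 * 2 ^ s)) ≤ 4 := by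
        rw [mul_one_div, div_le_iff₀ (by positivity)]; exact_mod_cast s2
      rw [Fin.prod_const, hq]
      push_cast
      calc _ = C * q ^ 4 * (m' * (1 / (2 * 2 ^ s))) ^ 4 := by ring
        _ ≤ C * q ^ 4 * 4 ^ 4 := by gcongr
        _ = _ := by ring
    · rw [Ps (fun y z => if η y then t z else e) a]
      congr 1
      exact Equiv.prod_comp (Equiv.addRight a) fun y => v (η y)
    · have e1 : ∀ η : Site 4 m' → Bool, (∀ y, (y k).val = H → η y = false) →
          sy e (r k) h k (P fun y z => if η y then t z else e) (P fun y z => if η y then t z else e)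
          = P fun y z => if sy false (fun a => a) H k η η y then t z else e := fun η hη =>
        ext _ _ fun y z => by
          have a1 := ZMod.val_lt (y k)
          simp only [sy, (tri y z k).1, (tri y z k).2, Er, hP]
          rcases lt_trichotomy (y k).val H with a | a | a
          · simp [a]
          · simp [a, hη y a, hη (rc k y) (by rw [rc_val]; omega), re]
          · simp only [a.ne', a.not_gt, false_and, or_self, if_false]
            split_ifs
            exacts [ht k z, re k]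
      have e2 : (fun x => r k (P (fun y z => if η y then t z else e) (rc k x))) =
          P fun y z => if η (rc k y) then t z else e := ext _ _ fun y z => by
        simp only [Er, hP]
        split_ifs
        exacts [ht k z, re k]
      have c := cs (P fun y z => if η y then t z else e) k fun x hx => by
        obtain ⟨⟨y, z⟩, rfl⟩ := E.surjective x
        simp [hP, hη y ((tri y z k).2.1 hx).1]
      rw [e2, e1 η hη, e1 _ fun y hy => hη _ (by rw [rc_val]; omega)] at c
      rw [div_pow, div_mul_div_comm, prod_sy false _ hH k v rfl, prod_sy false _ hH k v rfl,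
        prod_third hH k (fun y => v (η y)) fun y hy => by rw [hη y hy]; rfl, mul_pow, ← sq, ← sq]
      exact div_le_div_of_nonneg_right c (mul_nonneg (sq_nonneg _) (sq_nonneg _))
    · have : (P fun _ _ => e) = fun _ => e := (ext (fun _ => e) _ fun _ _ => rfl).symm
      simpa [hv, this] using h1
    · rw [div_le_iff₀ (v0 _)]
      refine (hM _).trans_eq ?_
      rw [Pw]
      congr 1
      refine Finset.prod_congr rfl fun y _ => ?_
      cases η y <;> simp [hv, we, W]
    · rw [decide_eq_false_iff_not]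
      rintro rfl
      simp at hy
  -- one Cauchy-Schwarz step
  obtain ⟨φ, hφ⟩ : ∃ φ : (Site 4 q → β) → ℝ,
      ∀ t, φ t = Φ (P fun y z => if y = 0 then t z else e) := ⟨_, fun _ => rfl⟩
  have step : ∀ (t : Site 4 q → β) k, (∀ z, p ≤ (z k).val → t z = e) →
      φ t ^ 2 ≤ φ (sy e (r k) p k t t) := by
    intro t k ht
    obtain ⟨c, hc⟩ : ∃ c : Site 4 m', ∀ l, (c l).val = H :=
      ⟨fun _ => (H : ZMod m'), fun _ => ZMod.val_cast_of_lt (by omega)⟩
    have rcc : ∀ y, rc k y = c ↔ y = c := by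
      have : rc k c = c := by
        funext l
        by_cases hl : l = k
        · subst hl
          apply ZMod.val_injective
          rw [rc_val, hc]; omega
        · exact rc_ne hl _
      exact fun y => ⟨fun a => by rw [← rc_rc k y, a, this], fun a => by rw [a, this]⟩
    have e0 : ∀ t, φ t = Φ (P fun y z => if y = c then t z else e) := fun t => by
      rw [hφ, ← Ps (fun y z => if y = c then t z else e) c]
      simp only [add_eq_right]
    have c1 := cs (P fun y z => if y = c then t z else e) k fun x hx => by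
      obtain ⟨⟨y, z⟩, rfl⟩ := E.surjective x
      simp [hP, ht z ((tri y z k).2.1 hx).2.ge]
    rw [ext (sy _ _ _ _ _ _) (fun y z => if y = c then sy e (r k) p k t t z else e) fun y z => ?_,
      ext (sy _ _ _ _ _ _) (fun _ _ => e) fun y z => ?_, ← e0, ← e0,
      ← ext (fun _ => e) _ fun _ _ => rfl] at c1
    · exact c1.trans (mul_le_of_le_one_right (e0 _ ▸ pos _) h1)
    · simp only [sy, (tri y z k).1, (tri y z k).2, Er, hP, rcc, rc_rc, rr]
      by_cases a : y = c
      · have a1 := ZMod.val_lt (z k)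
        simp only [a, hc, lt_irrefl, true_and, false_or, if_true]
        split_ifs
        · rw [ht _ (by rw [rc_val]; omega), re]
        · rfl
        · exact ht _ (by omega)
      · simp [a, re]
    · simp only [sy, (tri y z k).1, (tri y z k).2, Er, hP, rcc]
      by_cases a : y = c
      · simp [a, hc]
      · simp [a, re]
  have sup : ∀ (t : Site 4 q → β) k l, l ≠ k → (∀ z, p ≤ (z l).val → t z = e) →
      ∀ z, p ≤ (z l).val → sy e (r k) p k t t z = e := fun t k l hl ht z hz => by
    rw [sy, ht z hz, ht _ (by rwa [rc_ne hl]), re, ite_self, ite_self]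
  have sm1 : ∀ (t : Site 4 q → β) k z, r k (sy e (r k) p k t t (rc k z)) = sy e (r k) p k t t z :=
    fun t k z => by
      have a1 := ZMod.val_lt (z k)
      simp only [sy, rc_val, rc_rc]
      split_ifs <;> first | rfl | omega | exact re k | exact rr k _
  have sm2 : ∀ (t : Site 4 q → β) k l, k ≠ l → (∀ z, r l (t (rc l z)) = t z) →
      ∀ z, r l (sy e (r k) p k t t (rc l z)) = sy e (r k) p k t t z := fun t k l hl ht z => by
    simp only [sy, rc_ne hl]
    split_ifs
    exacts [ht z, re l, by rw [cm, rc_rc_comm, ht]]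
  have wt : ∀ (g : β → ℝ), g e = 1 → ∀ (t : Site 4 q → β) k, (∀ z, p ≤ (z k).val → t z = e) →
      ∏ z, g (sy e (r k) p k t t z) = ∏ z, ∏ a : Bool, g ((if a then r k else id) (t z)) :=
    fun g ge t k ht => by
      rw [prod_sy e _ hp k g ge, ← Finset.prod_mul_distrib, Finset.prod_filter]
      refine Finset.prod_congr rfl fun z _ => ?_
      split_ifs with hz
      · simp [mul_comm]
      · simp [ht z (by omega), re, ge]
  obtain ⟨t, ht⟩ : ∃ t : Site 4 q → β, ∀ z, t z = σ (E (0, z)) := ⟨_, fun _ => rfl⟩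
  have t0 : ∀ k z, p ≤ (z k).val → t z = e := fun k z hz => by
    rw [ht, hσ _ k (by rw [hE]; omega)]
  have e0 : σ = P fun y z => if y = 0 then t z else e := ext _ _ fun y z => by
    split_ifs with a
    · rw [a, ht]
    · obtain ⟨k, hk⟩ := Function.ne_iff.1 a
      have := Nat.mul_le_mul_left q (Nat.succ_le_of_lt (ZMod.val_pos.2 hk))
      exact hσ _ k (by rw [hE]; omega)
  have u2 := fun l hl => sup t 3 l hl (t0 l)
  have u1 := fun l hl hl' => sup _ 2 l hl (u2 l hl')
  have u0 := sup _ 1 0 (by decide) (u1 0 (by decide) (by decide))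
  have b3 := step t 3 (t0 3)
  have b2 := step _ 2 (u2 2 (by decide))
  have b1 := step _ 1 (u1 1 (by decide) (by decide))
  have b0 := step _ 0 u0
  have b := big (sy e (r 0) p 0 (sy e (r 1) p 1 (sy e (r 2) p 2 (sy e (r 3) p 3 t t)
    (sy e (r 3) p 3 t t)) (sy e (r 2) p 2 (sy e (r 3) p 3 t t) (sy e (r 3) p 3 t t))) _) fun k => by
      fin_cases k
      · exact sm1 _ 0
      · exact sm2 _ 0 1 (by decide) (sm1 _ 1)
      · exact sm2 _ 0 2 (by decide) (sm2 _ 1 2 (by decide) (sm1 _ 2))
      · exact sm2 _ 0 3 (by decide) (sm2 _ 1 3 (by decide) (sm2 _ 2 3 (by decide) (sm1 _ 3)))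
  rw [← hφ, wt w we _ 0 u0, wt (fun a => ∏ b : Bool, w ((if b then r 0 else id) a))
    (by simp [re, we]) _ 1 (u1 1 (by decide) (by decide)), wt (fun a => ∏ c : Bool, ∏ b : Bool,
      w ((if b then r 0 else id) ((if c then r 1 else id) a))) (by simp [re, we]) _ 2
      (u2 2 (by decide)), wt (fun a => ∏ f : Bool, ∏ c : Bool, ∏ b : Bool,
      w ((if b then r 0 else id) ((if c then r 1 else id) ((if f then r 2 else id) a))))
      (by simp [re, we]) _ 3 (t0 3)] at b
  have p0 : ∀ t, 0 ≤ φ t := fun t => hφ t ▸ pos _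
  rw [e0, ← hφ, Pw fun u => ∏ a : Bool, ∏ b : Bool, ∏ c : Bool, ∏ f : Bool,
      w ((if a then r 0 else id) ((if b then r 1 else id) ((if c then r 2 else id)
        ((if f then r 3 else id) u)))), Finset.prod_eq_single 0 (fun y _ hy => by simp [hy, re, we])
      (by simp), show 16 = 2 * (2 * (2 * 2)) from rfl, pow_mul, pow_mul, pow_mul]
  refine ((pow_le_pow_left₀ (sq_nonneg _) ((pow_le_pow_left₀ (sq_nonneg _)
    ((pow_le_pow_left₀ (sq_nonneg _) b3 2).trans b2) 2).trans b1) 2).trans (b0.trans b)).trans_eq ?_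
  congr 1
  refine Finset.prod_congr rfl fun z _ => ?_
  simp only [Fintype.prod_bool, if_true]
  ac_rfl

end

variable {A : Type} [NormedRing A] [StarRing A] [NormedAlgebra ℝ A] [HS A]
variable {d L : ℕ} {G : Type} [Group G] [NeZero L] (ρ : G →* unitary A)
  [TopologicalSpace G] [IsTopologicalGroup G] [CompactSpace G]
  [SecondCountableTopology G] [MeasurableSpace G] [BorelSpace G] (μ : Measure G)
  [μ.IsHaarMeasure] [IsProbabilityMeasure μ]

/-- Cauchy-Schwarz for patterns -/
theorem cell_cs (hρ : Continuous ρ) {b : ℝ} (hb : 0 ≤ b) {m lam h : ℕ} [NeZero m]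
    (hm : m = 2 * h + 1) (hL : L = m * lam) {β : Type} (e : β) (r : Fin d → β → β)
    (rr : ∀ k a, r k (r k a) = a) (O : β → (Link d L → G) → ℝ) (hO : ∀ a, BM (O a))
    (he : ∀ U, O e U = 1)
    (hr : ∀ a k U, O (r k a) U = O a (refl k (shift (Pi.single k (lam : ZMod L)) U)))
    (hd : ∀ a U V, (∀ l, (∀ k, half lam k l) → U l = V l) → O a U = O a V)
    (Φ : (Site d m → β) → ℝ)
    (hΦ : ∀ σ, Φ σ = |∫ U, ∏ x, O (σ x) (shift (corner lam x) U) ∂(nu μ ρ d L b)|)
    (σ : Site d m → β) (k : Fin d) (hσ : ∀ x, (x k).val = h → σ x = e) :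
    Φ σ ^ 2 ≤ Φ (sy e (r k) h k σ σ) *
      Φ (sy e (r k) h k (fun x => r k (σ (rc k x))) fun x => r k (σ (rc k x))) := by
  set g : β → Site d m → (Link d L → G) → ℝ := fun a x U => O a (shift (corner lam x) U) with hg
  have bg : ∀ a x, BM (g a x) := fun a x => (hO a).comp (continuous_shift _).measurable
  have e1 : ∀ (τ τ' : Site d m → β) U, (∏ x with (x k).val < h, g (τ x) x U) *
      (∏ x with (x k).val < h, g (τ' x) x (refl k U)) =
      ∏ x, g (sy e (r k) h k τ τ' x) x U := by
    intro τ τ' U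
    rw [prod_third hm k _ fun x hx => by simp [sy, hx, hg, he]]
    congr 1 <;> refine Finset.prod_congr rfl fun x hx => ?_ <;>
      have := (Finset.mem_filter.mp hx).2
    · rw [sy, if_pos this]
    · rw [sy, if_neg (by rw [rc_val]; omega), if_neg (by rw [rc_val]; omega), rc_rc]
      simp only [hg]
      rw [hr, shift_shift, corner_rc hL, shift_refl]
  have dA : ∀ τ : Site d m → β, Dep (L / 2) k fun U => ∏ x with (x k).val < h, g (τ x) x U :=
    fun τ U V hUV => Finset.prod_congr rfl fun x hx => hd _ _ _ fun l hl => hUV _ (by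
      obtain ⟨h1, h2⟩ := hl k
      have a1 : lam * ((x k).val + 1) ≤ lam * h :=
        Nat.mul_le_mul_left _ (Finset.mem_filter.mp hx).2
      have a2 : L = 2 * (lam * h) + lam := by rw [hL, hm]; ring
      have a3 := NeZero.pos L
      rw [mul_add_one] at a1
      have a4 : ((l.1 + corner lam x : Site d L) k).val = (l.1 k).val + lam * (x k).val := by
        rw [Pi.add_apply, corner, ← ZMod.natCast_zmod_val (l.1 k), ← Nat.cast_add,
          ZMod.val_cast_of_lt (by omega), ZMod.natCast_zmod_val]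
      exact ⟨by simp only [a4]; omega, fun h => by have := h2 h; simp only [a4]; omega⟩)
  have := rp_ineq_meas ρ μ hρ hb k (BM.prod _ fun x => bg _ x) (BM.prod _ fun x => bg _ x) (dA σ)
    (dA fun x => r k (σ (rc k x)))
  simp only [e1] at this
  have e2 : sy e (r k) h k σ (fun x => r k (σ (rc k x))) = σ := by
    funext x
    simp only [sy, rc_rc, rr]
    split_ifs with h1 h2
    exacts [rfl, (hσ x h2).symm, rfl]
  rw [e2] at this
  rw [hΦ, hΦ, hΦ, sq_abs, ← abs_mul]
  exact this.trans (le_abs_self _)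

end Pool.Agent.Lib.MP_7f377f_mp.Weak

namespace Pool.Agent.Lib.MP_7f377f_mp.YM5
variable [GD]

open MeasureTheory Weak

/-- composed reflections of a label -/
def rp {β : Type} (r : Fin 4 → β → β) (ε : Fin 4 → Bool) (a : β) : β :=
  (List.finRange 4).foldr (fun k a => if ε k then r k a else a) a

theorem wilson_gbox {n : ℕ} [NeZero n] [MeasurableSpace SU2] [BorelSpace SU2] (h : Measure SU2)
    [h.IsHaarMeasure] [IsProbabilityMeasure h] {b : ℝ} (hb : 0 ≤ b) {m lam : ℕ} [NeZero m]
    (hm : Odd m) (hl : Odd lam) (hL : n = m * lam) {β : Type} (e : β) (r : Fin 4 → β → β)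
    (re : ∀ k, r k e = e) (rr : ∀ k a, r k (r k a) = a) (rc : ∀ k l a, r k (r l a) = r l (r k a))
    (O : β → Cfg n → ℝ) (hO : ∀ a, BM (O a)) (he : ∀ U, O e U = 1)
    (hr : ∀ a k U, O (r k a) U = O a (refl k (shift (Pi.single k (lam : ZMod n)) U)))
    (hd : ∀ a U V, (∀ l, (∀ k, half lam k l) → U l = V l) → O a U = O a V)
    (w : β → ℝ) (w0 : ∀ a, 0 < w a) (we : w e = 1) {C : ℝ}
    (hC : 0 ≤ C) (hM : ∀ σ : Site 4 m → β, |∫ U, ∏ x, O (σ x) (shift (corner lam x) U)
      ∂(wilson h b n)| ≤ Real.exp (C * m ^ 4) * ∏ x, w (σ x))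
    {q : ℕ} (hq : q ∣ m) (h5 : 5 * q ≤ m) (x₀ : Site 4 m)
    (σ : Site 4 m → β) (hσ : ∀ x k, q / 2 ≤ ((x - x₀) k).val → σ x = e) :
    |∫ U, ∏ x, O (σ x) (shift (corner lam x) U) ∂(wilson h b n)| ^ 16 ≤
      Real.exp (256 * C * q ^ 4) * ∏ x, ∏ ε, w (rp r ε (σ x)) := by
  let _ := quatHS
  rw [wilson_nu] at hM ⊢
  have := nu_prob (d := 4) (L := n) h rho rho_cont (b / 2)
  obtain ⟨k, hk⟩ := hm
  obtain ⟨m', hq⟩ := hq
  have q0 : NeZero q := ⟨by rintro rfl; omega⟩
  have h3 : 3 ≤ m' := by
    have : q * 5 ≤ q * m' := by omega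
    have := Nat.le_of_mul_le_mul_left this q0.pos
    omega
  have : NeZero m' := ⟨by omega⟩
  set Φ : (Site 4 m → β) → ℝ := fun σ =>
    |∫ U, ∏ x, O (σ x) (shift (corner lam x) U) ∂(nu h rho 4 n (b / 2))|
  have sh : ∀ σ a, Φ (fun x => σ (x + a)) = Φ σ := fun σ a => by
    simp only [Φ]
    rw [← (BM.prod _ fun x => (hO (σ (x + a))).comp (continuous_shift _).measurable).mp
      (nu_shift h rho rho_cont (b / 2) (corner lam a))]
    simp only [shift_shift, ← corner_add hL]
    congr 2
    funext U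
    exact Equiv.prod_comp (Equiv.addRight a) fun x => O (σ x) (shift (corner lam x) U)
  have key := gbox_abs e r re rr rc hk Φ (fun _ => abs_nonneg _) sh
    (cell_cs rho h rho_cont (by positivity) hk hL e r rr O hO he hr hd Φ fun _ => rfl)
    (by simp [Φ, he]) w w0 we hC hM (hq.trans (mul_comm _ _)) h3 (fun x => σ (x + x₀))
    fun x k hx => hσ _ k (by simpa using hx)
  rw [sh] at key
  refine key.trans_eq ?_
  congr 1
  rw [← Equiv.prod_comp (Equiv.addRight x₀) fun x => ∏ ε, w (rp r ε (σ x))]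
  refine Finset.prod_congr rfl fun x _ => ?_
  simp only [← Fintype.prod_prod_type']
  refine Fintype.prod_equiv ⟨fun p => ![p.1, p.2.1, p.2.2.1, p.2.2.2],
    fun ε => (ε 0, ε 1, ε 2, ε 3), fun _ => rfl, fun ε => by ext i; fin_cases i <;> rfl⟩ _ _ ?_
  rintro ⟨_ | _, _ | _, _ | _, _ | _⟩ <;> rfl

end Pool.Agent.Lib.MP_7f377f_mp.YM5
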