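import Pool.Agent.Lib.MP_7f377f_mp.G.ObZ

/-! Arrays with different observables in different cells. -/

noncomputable section

namespace Pool.Agent.Lib.MP_7f377f_mp.Ob
variable [GD]
set_option linter.unusedSectionVars false

open MeasureTheory Weak Filter Topology Real Jet Finset YM7 Pur

variable [MeasurableSpace SU2] [BorelSpace SU2] {h : Measure SU2} [h.IsHaarMeasure]
  [IsProbabilityMeasure h] {γ : Type} [Fintype γ] {c : γ → Fin 4 → ℤ} {lo hi : Fin 4 → ℤ}

section
variable {n lam : ℕ} [NeZero n] {κ : Type} [Fintype κ] [DecidableEq κ] {b w ρ C M : ℝ}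
  {Λ : (Cfg n → ℝ) → ℝ} {m E : ℕ}

/-- translation of the cell `c` to the origin -/
def tl (lam : ℕ) (c : Fin 4 → ℤ) (U : Cfg n) : Cfg n :=
  shift (fun l => ((lam * c l : ℤ) : ZMod n)) U

/-- the chessboard estimate for different observables in some cells of a box -/
theorem ob_mix [NeZero m] {L : (κ → Cfg n → ℝ) → Prop} {O : γ → κ → Cfg n → ℝ} (hI : Inv Λ lam)
    (hb : 0 ≤ b) (hm : Odd m) (hn : n = m * lam) (w0 : 0 < w) (hC : 0 ≤ C) (hL : Cl lam L)
    (hG : Gen h b m lam Λ L w (exp (C * m ^ 4))) (hO : ∀ i, L (O i)) (hc : Function.Injective c)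
    (hc' : ∀ i, c i ∈ cells lo hi) (hE : ∀ l, hi l - lo l ≤ E) (h4 : 4 * E < m)
    (T : γ → Finset κ) : |∫ U, ∏ i, ob Λ (O i) (T i) (tl lam (c i) U) ∂wilson h b n| ≤
      exp (256 * C * (cells lo hi).card) * ∏ i, w ^ (T i).card := by
  classical
  rcases isEmpty_or_nonempty γ with _ | ⟨⟨i₀⟩⟩
  · simpa using one_le_exp (by positivity : 0 ≤ 256 * C * (cells lo hi).card)
  obtain ⟨cb, hcb⟩ : ∃ cb : γ → Site 4 m, ∀ i, cb i = fun l => (c i l : ZMod m) :=
    ⟨_, fun _ => rfl⟩
  have ci : Function.Injective cb := fun i j e => hc (funext fun l => by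
    have e1 := (val_box (hc' i) hE h4 l).1
    have e2 := (val_box (hc' j) hE h4 l).1
    have e3 := congrFun ((hcb i).symm.trans (e.trans (hcb j))) l
    rw [e3] at e1
    omega)
  let β := Option ({G // L G} × Finset κ)
  obtain ⟨σ, hσ⟩ : ∃ σ : Site 4 m → β,
      σ = Function.extend cb (fun i => some (⟨_, hO i⟩, T i)) fun _ => none := ⟨_, rfl⟩
  have pr : ∀ f : Site 4 m → β → ℝ, (∀ x, f x none = 1) → ∏ x, f x (σ x) =
      ∏ i, f (cb i) (some (⟨_, hO i⟩, T i)) := fun f hf => by
    rw [← prod_subset (subset_univ (univ.image cb)) fun x _ hx => by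
      rw [hσ, Function.extend_apply' _ _ _ (by simpa using hx), hf],
      prod_image ci.injOn]
    exact prod_congr rfl fun i _ => by rw [hσ, ci.extend_apply]
  have key := YM5.wilson_cbox h hb hm hn (β := β) none (fun k o => o.map fun G =>
      (⟨_, hL.rf _ G.1.2 k⟩, G.2)) (fun _ => rfl) (fun k o => by cases o <;> simp [rcl_rcl])
    (fun o U => o.elim 1 fun G => ob Λ G.1.1 G.2 U)
    (fun o => by
      rcases o with _ | G
      · exact BM.const 1
      · exact BM.of_continuous (cont_ob (hL.cont _ G.1.2) _))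
    (fun _ => rfl)
    (fun o k U => by
      rcases o with _ | G
      · rfl
      · exact ob_rcl hI (hL.cont _ G.1.2) k U)
    (fun o U V hUV => by
      rcases o with _ | G
      · rfl
      · simp only [Option.elim, ob, fun i => hL.dep _ G.1.2 i U V hUV])
    (fun o => o.elim 1 fun G => w ^ G.2.card) (fun o => by cases o <;> simp [w0]) rfl
    (fun k o => by cases o <;> rfl) hC (fun σ => ?_) (fun l => (hi l - lo l).toNat)
    (fun l => Int.toNat_le.2 (hE l)) h4 (fun l => lo l)
    σ fun x l hx => hσ ▸ Function.extend_apply' _ _ _ (by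
      rintro ⟨i, rfl⟩
      have := val_box (hc' i) hE h4 l
      have := mem_Ico.1 (Fintype.mem_piFinset.1 (hc' i) l)
      simp only [hcb, Pi.sub_apply] at hx
      omega)
  · rw [pr (fun _ o => o.elim 1 fun G => w ^ G.2.card) fun _ => rfl] at key
    refine le_trans (le_of_eq ?_) (key.trans_eq ?_)
    · congr 2
      funext U
      rw [pr (fun x o => o.elim 1 fun G => ob Λ G.1.1 G.2 (shift (corner lam x) U)) fun _ => rfl]
      refine prod_congr rfl fun i _ => ?_
      rw [Option.elim, tl]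
      congr 2
      exact funext fun l => (corner_int hn _ (c i l) (by rw [hcb])).symm
    · congr 2
      simp only [prod_mul_distrib, Fintype.card_piFinset, Int.card_Ico, Nat.cast_prod]
      norm_num
      ring
  · have := hG.le hI hL w0 (O := fun x => (σ x).elim (O i₀) (·.1.1))
      (fun x => by rcases σ x with _ | G; exacts [hO i₀, G.1.2]) fun x => (σ x).elim ∅ (·.2)
    refine (congrArg (|∫ U, · U ∂_|) (funext fun U => prod_congr rfl fun x _ => ?_)).trans_le
      (this.trans_eq (congrArg _ (prod_congr rfl fun x _ => ?_)))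
    all_goals rcases σ x with _ | G <;> simp [ob0 hI]

theorem sum_mix {δ : Type} [Fintype δ] {O : γ → δ → Cfg n → ℝ} (hO : ∀ i B, Continuous (O i B))
    {r : γ → δ → ℝ} {ω : δ → ℝ} {K η : ℝ} (ω0 : ∀ B, 0 ≤ ω B) (K0 : 0 ≤ K)
    (h1 : ∀ T : γ → δ, |∫ U, ∏ i, O i (T i) U ∂wilson h b n| ≤ K * ∏ i, ω (T i))
    (h2 : ∀ i, ∑ B, |r i B| * ω B ≤ η) :
    |∫ U, ∏ i, ∑ B, r i B * O i B U ∂wilson h b n| ≤ K * η ^ Fintype.card γ := by
  classical
  simp only [Fintype.prod_sum, prod_mul_distrib]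
  rw [integral_finsetSum _ fun T _ => (cint _ (continuous_finsetProd _ fun c _ => hO c _)).const_mul _]
  refine (abs_sum_le_sum_abs _ _).trans ((sum_le_sum fun T _ => ?_).trans ((mul_sum _ _ K).ge.trans
    (mul_le_mul_of_nonneg_left ((Fintype.prod_sum fun i B => |r i B| * ω B).ge.trans
      ((prod_le_prod (fun i _ => sum_nonneg fun B _ => mul_nonneg (abs_nonneg _) (ω0 B))
        fun i _ => h2 i).trans_eq (by simp))) K0)))
  rw [integral_const_mul, abs_mul, abs_prod, prod_mul_distrib, mul_left_comm]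
  exact mul_le_mul_of_nonneg_left (h1 T) (prod_nonneg fun _ _ => abs_nonneg _)

/-- one centred observable of the class in some cells of a box -/
theorem Rg.mix {L : (Unit → Cfg n → ℝ) → Prop} {O : γ → Unit → Cfg n → ℝ}
    (H : Rg h b lam L w ρ C M) (hO : ∀ i, L (O i)) (hc : Function.Injective c)
    (hc' : ∀ i, c i ∈ cells lo hi) (hE : ∀ l, hi l - lo l ≤ E) (h4 : (4 * E + 1) * lam < n) :
    |∫ U, ∏ i, ce h b (O i ()) (tl lam (c i) U) ∂wilson h b n| ≤
      exp (256 * C * (cells lo hi).card) * ((1 + exp (256 * C)) * w) ^ Fintype.card γ := by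
  obtain ⟨hb, w0, hC, hL, m, _, Λ, hm, hn, hI, hG, -⟩ := H
  rcases isEmpty_or_nonempty γ with _ | ⟨⟨i₀⟩⟩
  · simpa using one_le_exp (by positivity : 0 ≤ 256 * C * (cells lo hi).card)
  have := mem_Ico.1 (Fintype.mem_piFinset.1 (hc' i₀) 0)
  have := hE 0
  have := lt_of_mul_lt_mul_right (hn ▸ h4) lam.zero_le
  have u : (univ : Finset (Finset Unit)) = {∅, {()}} := by decide
  have e1 : ∀ i U, ob Λ (O i) {()} U = O i () U + (jd {()} fun s => (ma univ (mo Λ (O i)) s)⁻¹).re :=
    fun i U => by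
      rw [ob, ← insert_empty_eq, sum_powerset_insert (notMem_empty _)]
      simp [ma_zero, mo0 hI, add_comm]
  have := sum_mix (h := h) (b := b) (O := fun i B U => ob Λ (O i) B (tl lam (c i) U))
    (fun i B => (cont_ob (hL.cont _ (hO i)) B).comp (continuous_shift _))
    (r := fun i B => if B = ∅ then -∫ U, ob Λ (O i) {()} U ∂wilson h b n else 1)
    (η := (1 + exp (256 * C)) * w) (fun B => pow_nonneg w0.le B.card) (exp_pos _).le
    (ob_mix hI hb hm hn w0 hC hL hG hO hc hc' hE (by omega)) fun i => by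
      have := ob_le hI hb hm hn w0 hC hL hG (hO i) (by omega) {()}
      rw [u, sum_pair (by decide)]
      simp at this ⊢
      linarith
  refine (congrArg (|∫ U, · U ∂_|) (funext fun U => prod_congr rfl fun i _ => ?_)).trans_le this
  rw [u, sum_pair (by decide), ob0 hI]
  simp [e1, ce, ex, integral_add (cint _ (hL.cont _ (hO i) ())) (integrable_const _)]
  ring

end

variable (h) {ι : Type} (n : ι → ℕ) [∀ p, NeZero (n p)] (a b : ι → ℝ)

/-- the letters `Y i` are multiples `η i` of members of one class -/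
def RgM (U : Filter ι) (w : ℝ) (Y : γ → ι → Pol) (η : γ → ℝ) (ω ρ C M : ℝ) : Prop :=
  ∀ᶠ p in U, ∃ (lam : ℕ) (L : (Unit → Cfg (n p) → ℝ) → Prop), a p * lam = w ∧
    Rg h (b p) lam L ω ρ C M ∧ ∀ i, ∃ O t, L O ∧
      ∀ V, evr h (b p) (n p) (a p) (Y i p) V = η i * O () V + t

variable {h n a b} {Φ : Filter ι} {τ : ι → ℝ} {U : Ultrafilter ι}
  {S₀ : ∀ {k : ℕ}, (Fin k → R4 → ℝ) → ℝ} {S : Pol →ₗ[ℂ] ℂ} {w ω ρ C M : ℝ}

/-- arrays with different centred letters in different cells -/
theorem mix_arr (hF : Fam Φ n a b τ) (hL : L6.Lim h Φ n a b U S₀ S) (w0 : 0 < w)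
    {Y : γ → ι → Pol} {Z : γ → Pol} {η : γ → ℝ} (e : ∀ i, Cv U (cel w) (Y i) (Z i))
    (hR : ∀ i p, Rc (Y i p)) (H : RgM h n a b U w Y η ω ρ C M) (hc : Function.Injective c)
    (hc' : ∀ i, c i ∈ cells lo hi) :
    ‖S (∏ i, net.τ (WithLp.toLp 2 fun l => w * c i l) (Z i - S (Z i) • 1))‖ ≤
      exp (256 * C * (cells lo hi).card) * ∏ i, |η i| * ((1 + exp (256 * C)) * ω) := by
  obtain ⟨E, hE, -⟩ := hF.big_box lo hi
  obtain ⟨B, hB⟩ := (Set.finite_range fun q : γ × Fin 4 => |w * c q.1 q.2|).bddAbove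
  have e' := fun i => (e i).cn hF hL (hR i)
  refine le_of_tendsto (Cv.lim hF hL (Cv.prod (A := Set.univ) (s := univ)
    (B := fun i => {y | ∀ l, c i l * w < y l ∧ y l < (c i l + 1) * w})
    (fun i _ => ((e' i).tau _).mono fun y hy l => by
      have := hy l
      simp only [PiLp.sub_apply] at this
      constructor <;> linarith [this.1, this.2])
    (fun i _ j _ u => cell_disj w0 (hc.ne u)) fun _ _ => Set.subset_univ _)).norm ?_
  filter_upwards [H, hL.le hF.pos, hL.le (hF.big (2 * (w + |B|) + (4 * E + 1) * w))]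
    with p ⟨lam, L, e1, e2, e5⟩ ⟨ha, _⟩ (e3 : _ < _)
  choose O t hO ht using e5
  have B0 := abs_nonneg B
  have E0 : 0 ≤ E * w := by positivity
  have e4 : (4 * E + 1) * lam < n p := by
    have : ((4 * E + 1) * lam : ℝ) < n p := lt_of_mul_lt_mul_left (by
      rw [mul_left_comm, e1]; linarith) ha.le
    exact_mod_cast this
  have k := mul_le_mul_of_nonneg_left (e2.mix hO hc hc' hE e4) (abs_nonneg (∏ i, η i))
  rw [← abs_mul, ← integral_const_mul, abs_prod, mul_left_comm] at k
  refine le_of_eq_of_le ?_ (k.trans_eq (by simp [prod_mul_distrib]))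
  rw [← norm_eq_abs, ← Complex.norm_real, ← integral_complex_ofReal]
  refine congrArg _ (integral_congr_ae (.of_forall fun V => ?_))
  simp only [map_prod, Finset.prod_apply, ← prod_mul_distrib, Complex.ofReal_prod]
  subst e1
  refine prod_congr rfl fun i _ => ?_
  have k2 := evc_shift (h := h) (b := b p) (R := a p * lam) (V := |B|) (v := fun l => lam * c i l)
    (net.mono ((e' i).mem.2 p) fun y hy l => abs_lt.2 ⟨by linarith [(hy l).1, (hy l).2], (hy l).2⟩)
    ha (fun l => by
      simpa only [Int.cast_mul, Int.cast_natCast, ← mul_assoc] using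
        (hB ⟨(i, l), rfl⟩).trans (le_abs_self B)) (by linarith) V
  simp only [Int.cast_mul (lam : ℤ) (c i _) (α := ℝ), Int.cast_natCast, ← mul_assoc] at k2
  rw [k2, (hR i p).cn.evc, evr_cn (O := fun V => η i * O i () V) (t := -t i) fun V => by
    rw [ht]; ring]
  simp only [ce, ex, integral_const_mul, mul_sub, tl]

/-- the same for letters `Z i` sitting in their cells -/
theorem mix_cell (hF : Fam Φ n a b τ) (hL : L6.Lim h Φ n a b U S₀ S) (hS : net.St S) (w0 : 0 < w)
    {Y : γ → ι → Pol} {Z : γ → Pol} {η : γ → ℝ}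
    (e : ∀ i, Cv U (cel w) (Y i) (net.τ (-WithLp.toLp 2 fun l => w * c i l) (Z i)))
    (hR : ∀ i p, Rc (Y i p)) (H : RgM h n a b U w Y η ω ρ C M) (hc : Function.Injective c)
    (hc' : ∀ i, c i ∈ cells lo hi) : ‖S (∏ i, (Z i - MvPolynomial.C (S (Z i))))‖ ≤
      exp (256 * C * (cells lo hi).card) * ∏ i, |η i| * ((1 + exp (256 * C)) * ω) := by
  refine le_of_eq_of_le (congrArg (‖S ·‖) (prod_congr rfl fun i _ => ?_))
    (mix_arr hF hL w0 e hR H hc hc')
  rw [← hS.ti (WithLp.toLp 2 fun l => w * c i l) (net.mono (e i).mem.1 (Set.subset_univ _)),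
    map_sub, map_smul, map_one, net.τ_τ, add_neg_cancel, net.τ_zero, MvPolynomial.smul_eq_C_mul,
    mul_one]

end Pool.Agent.Lib.MP_7f377f_mp.Ob
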