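import Pool.Agent.Lib.MP_7f377f_mp.G.StL
import Pool.Agent.Lib.MP_7f377f_mp.StP

/-! Smeared letters: covariance, the symmetric action density, invariance of the measure. -/

noncomputable section

namespace Pool.Agent.Lib.MP_7f377f_mp.RG.Wd

open Finset

set_option linter.unusedSectionVars false
variable [Pool.Agent.Lib.MP_7f377f_mp.GD]

theorem cg_gv {n : ℕ} (g : B4) {x y : St} (h : Ms.Cg n x y) : Ms.Cg n (gv g x) (gv g y) := fun i => by
  rw [← Pi.sub_apply, ← gv_sub, gv, cd]
  split_ifs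
  exacts [h _, (h _).neg_right]

theorem sum_rc {M : Type} [AddCommMonoid M] {n : ℕ} (hn : Odd n) (v : St) (F : St → M) :
    ∑ x ∈ box (n / 2), F (Q4.rc n (x + v)) = ∑ x ∈ box (n / 2), F x :=
  sum_nbij' (fun x => Q4.rc n (x + v)) (fun x => Q4.rc n (x + -v)) (fun _ _ => Q4.rc_mem hn _)
    (fun _ _ => Q4.rc_mem hn _)
    (fun _ h => by rw [Q4.rc_add_rc, add_neg_cancel_right, Q4.rc_eq hn h])
    (fun _ h => by rw [Q4.rc_add_rc, neg_add_cancel_right, Q4.rc_eq hn h]) fun _ _ => rfl

theorem sh_rc {α : Type} {n : ℕ} {U : Lk → α} (hU : Per n U) (x : St) :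
    sh (Q4.rc n x) U = sh x U := by
  obtain ⟨v, hv⟩ := Q4.rc_exists n x
  rw [hv, ← sh_sh, hU.sh_smul]

open Q4 MeasureTheory En.Pos

variable {X Y : Let} {n : ℕ} {h h' : St → ℂ} {U : Conf}

theorem sm_add (U : Conf) : sm n (X + Y) h U = sm n X h U + sm n Y h U := by
  simp only [sm, evG_add, mul_add, sum_add_distrib]

theorem sm_sub (U : Conf) : sm n (X - Y) h U = sm n X h U - sm n Y h U := by
  simp only [sm, evG_sub, mul_sub, sum_sub_distrib]

theorem sm_smul (c : ℂ) (U : Conf) : sm n (c • X) h U = c * sm n X h U := by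
  simp only [sm, evG_smul, mul_sum, mul_left_comm]

theorem sm_sum {ι : Type} (A : Finset ι) (X : ι → Let) (U : Conf) :
    sm n (∑ i ∈ A, X i) h U = ∑ i ∈ A, sm n (X i) h U := by
  simp only [sm, evG_sum, mul_sum]
  exact sum_comm

theorem sm_add' (U : Conf) : sm n X (h + h') U = sm n X h U + sm n X h' U := by
  simp only [sm, Pi.add_apply, add_mul, sum_add_distrib]

theorem sm_sub' (U : Conf) : sm n X (h - h') U = sm n X h U - sm n X h' U := by
  simp only [sm, Pi.sub_apply, sub_mul, sum_sub_distrib]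

theorem sm_smul' (c : ℂ) (U : Conf) : sm n X (c • h) U = c * sm n X h U := by
  simp only [sm, Pi.smul_apply, smul_eq_mul, mul_sum, mul_assoc]

theorem sm_cont (n : ℕ) (X : Let) (h : St → ℂ) : Continuous (sm n X h) :=
  continuous_finsetSum _ fun x _ => continuous_const.mul ((evG_cont X).comp (Ms.cont_sh x))

/-- covariance -/
theorem sm_act (g : B4) (U : Conf) :
    sm n (act g X) h U = sm n X (fun x => h (gv g x)) (pb Inv.inv g U) := by
  simp only [sm, sh_pb, ← evG_act]
  exact (sum_gv g _ fun x => h x * evG (act g X) (sh x U)).symm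

/-- translation -/
theorem sm_tr (hn : Odd n) (hU : Per n U) (v : St) :
    sm n (tr v X) h U = sm n X (fun x => h (rc n (x - v))) U := by
  rw [sm, sm, ← sum_rc hn (-v)]
  simp only [evG_tr, sh_rc hU, sh_sh, sub_eq_add_neg, add_comm v, neg_add_cancel_right]

theorem evG_pl (d e : Dr) (U : Conf) :
    evG (pl d e) U = (fq U (-(cn d + cn e)) d.1 e.1 ^ 2 : ℝ) := by
  rw [pl, evG_lt, p2, if_neg (by simp), ← enq_eq, enq_cS, fq]
  congr 2
  obtain ⟨μ, a⟩ := d
  obtain ⟨ν, b⟩ := e
  cases a <;> cases b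
  · rw [← S3.norm_conj_sub (U (-(un μ + un ν), μ) * U (-un ν, ν))]
    simp [pq, wh, stp, dv, fl, cn, hol, mul_assoc, sub_eq_add_neg, add_comm, add_left_comm]
  · rw [← S3.norm_conj_sub (U (-un μ, μ)), ← S3.norm_inv_sub]
    simp [pq, wh, stp, dv, fl, cn, hol, mul_assoc, sub_eq_add_neg, add_comm, add_left_comm]
  · rw [← S3.norm_conj_sub (U (-un ν, ν)), ← S3.norm_inv_sub]
    simp [pq, wh, stp, dv, fl, cn, hol, mul_assoc, sub_eq_add_neg, add_comm, add_left_comm]
  · simp [pq, wh, stp, dv, fl, cn, hol, mul_assoc, sub_eq_add_neg, add_comm, add_left_comm]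

/-- the weight averaged over the corners of the plaquettes -/
def cav (n : ℕ) (h : St → ℂ) : Sr := fun x μ ν => 4⁻¹ * (h (rc n x) + h (rc n (x + un μ)) +
  h (rc n (x + un ν)) + h (rc n (x + (un μ + un ν))))

theorem sm_phS (hn : Odd n) (hU : Per n U) : sm n phS h U = sO n (cav n h) U := by
  have e : ∀ d e, sm n (pl d e) h U = ∑ x ∈ box (n / 2), h (rc n (x + (cn d + cn e))) *
      (fq U x d.1 e.1 ^ 2 : ℝ) := fun d e => by
    rw [sm, ← sum_rc hn (cn d + cn e)]
    simp only [sh_rc hU, evG_pl, Mx.fq_sh, neg_add_cancel_comm_assoc]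
  simp only [phS, sm_smul, sm_sum, e]
  simp only [sO, Fintype.sum_prod_type, Fintype.sum_bool, cn, if_true,
    Bool.false_eq_true, if_false, ← sum_add_distrib, mul_sum]
  rw [sum_congr rfl fun _ _ => sum_comm, sum_comm]
  refine sum_congr rfl fun x _ => sum_congr rfl fun μ _ => sum_congr rfl fun ν _ => ?_
  simp only [cav, add_zero, zero_add]
  push_cast
  ring

theorem wil_eq (hn : Odd n) (hU : Per n U) (β : ℝ) :
    (wil β n U : ℂ) = Complex.exp (-(β * sm n phS 1 U)) := by
  simp only [sm_phS hn hU, wil, sO, cav, Mx.wd_sh, Pi.one_apply, mul_sum]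
  push_cast
  norm_num

theorem wil_pb (hn : Odd n) (hU : Per n U) (β : ℝ) (g : B4) :
    wil β n (pb Inv.inv g U) = wil β n U := Complex.ofReal_injective <| by
  rw [wil_eq hn hU, wil_eq hn (per_pb _ g hU)]
  conv_rhs => rw [← act_phS g, sm_act]
  rfl

theorem cont_pb (g : B4) : Continuous fun U : Conf => pb Inv.inv g U := continuous_pi fun e => by
  unfold pb stp
  split_ifs <;> fun_prop

theorem map_pb (n : ℕ) (g : B4) : PP.map (fun U => pb Inv.inv g (pc n U)) = PP.map (pc n) := by
  have : haar.IsInvInvariant := Weak.haar_inv haar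
  refine Eq.trans ?_ (Mx.map_rel haar (r := Mx.rl n)
    (φ := fun e => (gv g e.1 - cn (g.1 (e.2, true)), (g.1 (e.2, true)).1))
    (T := fun e => if (g.1 (e.2, true)).2 then id else Inv.inv) (fun e => ?_) (Mx.rl_rl n)
    (fun i j => ?_) fun _ => rfl)
  · congr 1
    funext U e
    simp only [pb, stp, cn]
    split_ifs <;> simp [pc, Mx.rl]
  · split_ifs
    · exact MeasurePreserving.id _
    · exact Measure.measurePreserving_inv haar
  · simp only [Mx.rl_iff]
    have e : (g.1 (i.2, true)).1 = (g.1 (j.2, true)).1 ↔ i.2 = j.2 := by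
      refine ⟨fun e => ?_, fun e => by rw [e]⟩
      rcases (by decide : ∀ a b : Dr, a.1 = b.1 → a = b ∨ a = fl b) _ _ e with k | k
      · exact congrArg Prod.fst (g.1.injective k)
      · exact congrArg Prod.fst (g.1.injective (k.trans (g_fl g _).symm))
    rw [e]
    refine and_congr_left fun k => ?_
    rw [k, sub_eq_add_neg, sub_eq_add_neg, Mx.cg_add_iff]
    exact ⟨fun c => by simpa using cg_gv g⁻¹ c, cg_gv g⟩

/-- invariance of the Wilson weight -/
theorem int_pb (hn : Odd n) (β : ℝ) (g : B4) {F : Conf → ℂ} (hF : Continuous F) :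
    ∫ U, wil β n (pc n U) * F (pb Inv.inv g (pc n U)) ∂PP = ∫ U, wil β n (pc n U) * F (pc n U) ∂PP := by
  have c : Continuous fun U : Conf => (wil β n (pc n U) : ℂ) := by
    simp only [wil_eq hn (Mx.per_pc n _)]
    exact (continuous_const.mul ((sm_cont ..).comp (Mx.cont_pc n))).neg.cexp
  have h1 := integral_map (μ := PP) ((cont_pb g).comp (Mx.cont_pc n)).measurable.aemeasurable
    (c.mul hF).aestronglyMeasurable
  have h2 := integral_map (μ := PP) (Mx.cont_pc n).measurable.aemeasurable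
    (c.mul hF).aestronglyMeasurable
  rw [show (fun U : Conf => pb Inv.inv g U) ∘ (fun U => pc n U) = fun U => pb Inv.inv g (pc n U)
    from rfl, map_pb, h2] at h1
  simpa only [Pi.mul_apply, Function.comp, In.pc_per (Mx.per_pc n _),
    In.pc_per (per_pb _ g (Mx.per_pc n _)), wil_pb hn (Mx.per_pc n _)] using h1.symm

end Pool.Agent.Lib.MP_7f377f_mp.RG.Wd
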