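import Pool.Agent.Lib.MP_7f377f_mp.G.StV0

/-! Taylor expansion of local linear maps. -/

noncomputable section

open Pool.Agent.Lib.MP_7f377f_mp.Jet

set_option linter.unusedSectionVars false
variable [Pool.Agent.Lib.MP_7f377f_mp.GD]

namespace Pool.Agent.Lib.MP_7f377f_mp.RG.Q4

open Finset Real La La.Q
open scoped Classical

attribute [local irreducible] box lbox

namespace En

open Pos Sg

variable {p : Pa} {n e ρ d : ℕ} {Q g ω ω' x y A N a a0 a1 a2 : ℝ} {ψ φ : Lx} {K J : Ac} {S : Sd}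
  {Φ : (St → ℂ) → Lx × Ac} {F : St → ℂ} {F' : Fin 4 → St → ℂ} {u v : Lx × Ac}

/-! ### Mean values -/

theorem avS_le {X : Finset St} (a0 : 0 ≤ a) (h : ∀ x ∈ X, ‖F x‖ ≤ a) : ‖avS F X‖ ≤ a := by
  rw [avS, norm_mul, norm_inv, Complex.norm_natCast]
  refine (mul_le_mul_of_nonneg_left ((norm_sum_le _ _).trans (sum_le_card_nsmul _ _ _ h))
    (by positivity)).trans ?_
  rw [nsmul_eq_mul, ← mul_assoc]
  exact mul_le_of_le_one_left a0 (inv_mul_le_one_of_le₀ le_rfl (by positivity))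

theorem avS_const {X : Finset St} (h : X.Nonempty) (t : ℂ) : avS (fun _ => t) X = t := by
  have : (X.card : ℂ) ≠ 0 := Nat.cast_ne_zero.2 h.card_pos.ne'
  simp [avS, this]

theorem avS_lin (F F1 : St → ℂ) (t : ℂ) (X : Finset St) :
    avS (F + t • F1) X = avS F X + t * avS F1 X := by
  simp only [avS, Pi.add_apply, Pi.smul_apply, smul_eq_mul, sum_add_distrib, ← mul_sum]
  ring

theorem avS_sub_le {X : Finset St} (hX : X.Nonempty) {t : ℂ} (h : ∀ x ∈ X, ‖t - F x‖ ≤ a) :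
    ‖t - avS F X‖ ≤ a := by
  have := avS_le (F := (fun _ => t) + (-1 : ℂ) • F) ((norm_nonneg _).trans (h _ hX.choose_spec))
    fun x hx => by simpa [sub_eq_add_neg] using h x hx
  rw [avS_lin, avS_const hX] at this
  simpa [sub_eq_add_neg] using this

theorem avS_congr {X : Finset St} {F1 : St → ℂ} (h : ∀ x ∈ X, F x = F1 x) : avS F X = avS F1 X := by
  rw [avS, avS, sum_congr rfl h]

theorem avS_tr (hn : Odd n) {X : Finset St} (hX : X ⊆ box (n / 2)) (w : St) :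
    avS F (trS n w X) = avS (fun x => F (rc n (x + w))) X := by
  have i : Set.InjOn (fun x => rc n (x + w)) X := fun x hx y hy e =>
    rc_inj w (rc_eq hn (hX hx)) (rc_eq hn (hX hy)) e
  rw [avS, avS, trS, card_image_of_injOn i, sum_image i]

theorem km_mB {k : Mj} (h : KM p n k K) (k0 : ∀ X c, 0 ≤ k X c) (hF : ∀ x, ‖F x‖ ≤ A) :
    KM p n (A • k) (mB F K) :=
  KM.mono (k := fun X c => ‖avS F X‖ * k X c)
    ⟨fun X => (h.smul (avS F X)).meas X, fun X => (h.smul (avS F X)).per X,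
      fun X => (h.smul (avS F X)).dep X, fun X => (h.smul (avS F X)).gi X,
      fun X => (h.smul (avS F X)).bd X⟩ fun X c => mul_le_mul_of_nonneg_right
    (avS_le ((norm_nonneg _).trans (hF 0)) fun x _ => hF x) (k0 X c)

theorem sz_mT (h0 : 0 < p.ρ) (h : Sz p n Q g x y ω u.1 u.2) (hF : ∀ x, ‖F x‖ ≤ A) :
    Sz p n Q g (A * x) (A * y) ω (mT F u).1 (mT F u).2 := by
  obtain ⟨a, k, k1, k2⟩ := h
  refine ⟨?_, _, km_mB k1 k2.1 hF, (k2.smul ((norm_nonneg _).trans (hF 0))).mono (le_of_eq ?_)⟩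
  · convert pm_mL h0 a hF using 1 <;> first | rfl | ring
  · ring

theorem mT_add (t : ℂ) : mT F (u + t • v) = mT F u + t • mT F v :=
  Prod.ext (funext fun x => by simp [mT, mL, smul_smul, mul_comm])
    (funext fun X => by simp [mT, mB, smul_smul, mul_comm])

theorem mT_add' (t : ℂ) (F1 : St → ℂ) : mT (F + t • F1) u = mT F u + t • mT F1 u :=
  Prod.ext (funext fun x => by simp [mT, mL, smul_smul, add_smul])
    (funext fun X => by simp [mT, mB, avS_lin, smul_smul, add_smul])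

/-! ### Geometry -/

theorem near_smul (e : ℕ) {R : ℕ} {x y : St} (h : nearT n R x y) :
    nearT (e * n) (e * R) ((e : ℤ) • x) ((e : ℤ) • y) := by
  obtain ⟨v, hv⟩ := nearT_iff.1 h
  refine nearT_iff.2 ⟨v, fun i => ?_⟩
  have h0 : (0 : ℤ) ≤ e := Nat.cast_nonneg _
  have a := mul_le_mul_of_nonneg_left (hv i).1 h0
  have b := mul_le_mul_of_nonneg_left (hv i).2 h0
  simp only [Pi.smul_apply, smul_eq_mul]
  push_cast
  constructor <;> linarith

theorem smul_per (e n : ℕ) (x w : St) :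
    (e : ℤ) • (x + (n : ℤ) • w) = (e : ℤ) • x + ((e * n : ℕ) : ℤ) • w := by
  rw [smul_add, smul_smul]
  push_cast
  rfl

theorem near_per {R : ℕ} {x y : St} (w : St) : nearT n R y (x + (n : ℤ) • w) ↔ nearT n R y x := by
  rw [← nearT_rc_right, rc_add_smul, nearT_rc_right]

/-- the centred residue is the shortest representative -/
theorem rc_near (hn : Odd n) {R : ℕ} {x y : St} (h : nearT n R y x) : rc n (x - y) ∈ box R := by
  obtain ⟨w, hw⟩ := h
  rw [show x - y = x - y - (n : ℤ) • w + (n : ℤ) • w by abel, rc_add_smul]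
  rcases le_total R (n / 2) with c | c
  · rwa [rc_eq hn (box_mono c hw)]
  · exact box_mono c (rc_mem hn _)

theorem cdn_le (hn : Odd n) {R : ℕ} {x y : St} (h : nearT n R y x) (m : Fin 4) :
    ‖cdn n m y x‖ ≤ R := by
  rw [cdn, Complex.norm_intCast]
  exact_mod_cast abs_le.2 (mem_box.1 (rc_near hn h) m)

theorem cdn_per (n : ℕ) (m : Fin 4) (y : St) : PS n (cdn n m y) := fun x w => by
  rw [cdn, cdn, add_sub_right_comm, rc_add_smul]

theorem cdn_tr (m : Fin 4) (x y w : St) : cdn (e * n) m ((e : ℤ) • rc n (y + w)) (x + (e : ℤ) • w) =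
    cdn (e * n) m ((e : ℤ) • y) x := by
  obtain ⟨t, ht⟩ := rc_exists n (y + w)
  rw [cdn, cdn, ht, smul_per, show x + (e : ℤ) • w - ((e : ℤ) • (y + w) + ((e * n : ℕ) : ℤ) • t) =
    x - (e : ℤ) • y + ((e * n : ℕ) : ℤ) • (-t) by rw [smul_add, smul_neg]; abel, rc_add_smul]

theorem ps_rc (hp : PS n F) (x : St) : F (rc n x) = F x := by
  obtain ⟨w, hw⟩ := rc_exists n x
  rw [hw, hp]

theorem ps_bdd (hn : Odd n) (hp : PS n F) : ∃ A, ∀ x, ‖F x‖ ≤ A :=
  ⟨∑ x ∈ box (n / 2), ‖F x‖, fun x => ps_rc hp x ▸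
    single_le_sum (f := fun x => ‖F x‖) (fun _ _ => norm_nonneg _) (rc_mem hn x)⟩

theorem Jet2.nn (h : Jet2 n a0 a1 a2 F F') : 0 ≤ a2 := by
  simpa using h.tay 0 1 0 (zero_mem_box _)

/-- the Taylor bound on the torus -/
theorem Jet2.tayT (h : Jet2 n a0 a1 a2 F F') (hn : Odd n) {R : ℕ} {x y : St} (e : nearT n R y x) :
    ‖F x - F y - ∑ m, F' m y * cdn n m y x‖ ≤ a2 * R ^ 2 := by
  obtain ⟨t, ht⟩ := rc_exists n (x - y)
  have := h.tay y R _ (rc_near hn e)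
  rw [show y + rc n (x - y) = x + (n : ℤ) • t by rw [ht]; abel, h.per] at this
  simpa only [cdn, mul_comm] using this

/-! ### Local maps -/

theorem ps_lin {F1 : St → ℂ} (h : PS n F) (h1 : PS n F1) (t : ℂ) : PS n (F + t • F1) :=
  fun x w => by simp only [Pi.add_apply, Pi.smul_apply, h x w, h1 x w]

theorem Lop.zero (h : Lop p n e ρ Q g ω A Φ) : Φ 0 = 0 := by
  simpa using h.lin 0 0 1 (fun _ _ => rfl) fun _ _ => rfl

theorem Lop.smul (h : Lop p n e ρ Q g ω A Φ) (hp : PS (e * n) F) (t : ℂ) : Φ (t • F) = t • Φ F := by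
  simpa [h.zero] using h.lin 0 F t (fun _ _ => rfl) hp

theorem Lop.sum (h : Lop p n e ρ Q g ω A Φ) {ι : Type} (s : Finset ι) {G : ι → St → ℂ}
    (hp : PS (e * n) F) (hG : ∀ i, PS (e * n) (G i)) (t : ι → ℂ) :
    PS (e * n) (F - ∑ i ∈ s, t i • G i) ∧
      Φ (F - ∑ i ∈ s, t i • G i) = Φ F - ∑ i ∈ s, t i • Φ (G i) := by
  induction s using Finset.cons_induction with
  | empty => simpa using hp
  | cons i s hi ih =>
    rw [sum_cons, sum_cons, add_comm, add_comm (t i • Φ _), ← sub_sub, ← sub_sub, ← ih.2,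
      sub_eq_add_neg (F - _), sub_eq_add_neg (Φ _), ← neg_smul, ← neg_smul]
    exact ⟨ps_lin ih.1 (hG i) _, h.lin _ _ _ ih.1 (hG i)⟩

/-- cut to a periodic region and normalise -/
theorem cut_norm (hp : PS n F) {P : St → Prop} (hP : ∀ x w, P (x + (n : ℤ) • w) ↔ P x) (a0 : 0 ≤ a)
    (hF : ∀ x, P x → ‖F x‖ ≤ a) :
    ∃ G, PS n G ∧ (∀ x, ‖G x‖ ≤ 1) ∧ ∀ x, P x → F x = ((a : ℂ) • G) x := by
  refine ⟨fun x => if P x then (a : ℂ)⁻¹ * F x else 0, fun x w => by simp only [hP, hp x w],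
    fun x => ?_, fun x hx => ?_⟩
  · dsimp only
    split_ifs with c
    · rw [norm_mul, norm_inv, Complex.norm_real, norm_of_nonneg a0]
      exact inv_mul_le_one_of_le₀ (hF x c) a0
    · simp
  · rcases a0.eq_or_lt with rfl | c
    · simpa using hF x hx
    · simp [hx, c.ne']

theorem wgt_q (p : Pa) (n : ℕ) (Y : Finset St) (c : Finset (Finset St)) :
    wgt { p with a := p.a + 1 / 4 } n Y c = exp (tau n p.D Y / 4) * wgt p n Y c := by
  rw [wgt, wgt, ← exp_add]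
  exact congrArg exp (by ring)

/-- directions which are locally values of the map on small functions -/
theorem Lop.loc (h : Lop p n e ρ Q g ω A Φ) (h0 : 0 < p.ρ) {C : ℝ} (C0 : 0 ≤ C)
    (h1 : ∀ y, ∃ G, PS (e * n) G ∧ u.1 y = (Φ G).1 y ∧
      ∀ x, nearT (e * n) (e * ρ) ((e : ℤ) • y) x → ‖G x‖ ≤ C)
    (h2 : ∀ Y, ∃ G, PS (e * n) G ∧ u.2 Y = (Φ G).2 Y ∧
      ∀ y ∈ Y, ∀ x, nearT (e * n) (e * ρ) ((e : ℤ) • y) x → ‖G x‖ ≤ C * exp (tau n p.D Y / 4)) :
    Sz p n Q g (C * A) (C * A) ω u.1 u.2 := by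
  obtain ⟨k, k1, k2⟩ := h.bd
  have sm : ∀ {G : St → ℂ} (t : ℂ), PS (e * n) G → PS (e * n) (t • G) := fun t a x w => by
    simp only [Pi.smul_apply, a x w]
  have b : ∀ Y, ∃ J, KM p n ((C * exp (tau n p.D Y / 4)) • k) J ∧ u.2 Y = J Y := fun Y => by
    obtain ⟨G, a1, a2, a3⟩ := h2 Y
    have c0 : 0 ≤ C * exp (tau n p.D Y / 4) := by positivity
    obtain ⟨G1, b1, b2, b3⟩ := cut_norm a1 (P := fun x => ∃ y ∈ Y, nearT (e * n) (e * ρ)
      ((e : ℤ) • y) x) (fun x w => by simp only [near_per]) c0 fun x ⟨y, hy, c⟩ => a3 y hy x c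
    have := (k2 G1 b1 b2).2.smul ((C * exp (tau n p.D Y / 4) : ℝ) : ℂ)
    rw [Complex.norm_real, norm_of_nonneg c0] at this
    refine ⟨_, this, ?_⟩
    rw [a2, h.locK G _ Y a1 (sm _ b1) fun y hy x c => b3 x ⟨y, hy, c⟩, h.smul b1]
    rfl
  choose J j1 j2 using b
  refine ⟨fun y => ?_, fun Y c => C * exp (tau n p.D Y / 4) * k Y c,
    ⟨fun Y c => j2 Y ▸ (j1 Y).meas Y c, fun Y c => j2 Y ▸ (j1 Y).per Y c,
      fun Y c => j2 Y ▸ (j1 Y).dep Y c, fun Y c => j2 Y ▸ (j1 Y).gi Y c,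
      fun Y c => j2 Y ▸ (j1 Y).bd Y c⟩, fun Y c => ?_, fun w => ?_⟩
  · obtain ⟨G, a1, a2, a3⟩ := h1 y
    obtain ⟨G1, b1, b2, b3⟩ := cut_norm a1 (fun x w => near_per w) C0 a3
    have := pm_mL (F := fun _ => (C : ℂ)) (A := C) h0 (k2 G1 b1 b2).1
      (fun _ => by rw [Complex.norm_real, norm_of_nonneg C0]) y
    rw [a2, h.locL G _ y a1 (sm _ b1) b3, h.smul b1]
    convert this using 2 <;> first | rfl | ring
  · have := k1.1 Y c
    positivity
  · have := mul_le_mul_of_nonneg_left (k1.2 w) C0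
    rw [mul_sum] at this
    refine le_trans (le_of_eq (sum_congr rfl fun o _ => ?_)) (this.trans_eq (by ring))
    rw [wgt_q]
    ring

theorem near_pair (hD : 1 ≤ p.D) {Y : Finset St} {x y z : St} (hy : y ∈ Y) (hz : z ∈ Y)
    (h : nearT (e * n) (e * ρ) ((e : ℤ) • y) x) :
    nearT (e * n) (e * ((tau n p.D Y + 2) * p.D) + e * ρ) ((e : ℤ) • z) x :=
  (near_smul e (tau_diam hD hz hy)).trans h

theorem rad_le (e : ℕ) {D ρ : ℕ} (h : ρ ≤ 2 * D) (t : ℕ) :
    ((e * ((t + 2) * D) + e * ρ : ℕ) : ℝ) ≤ 2 * exp (t / 8) * (e * (3 * D)) := by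
  have t0 : (0 : ℝ) ≤ t := Nat.cast_nonneg _
  have a := quadratic_le_exp_of_nonneg (x := t / 8) (by positivity)
  have b : (ρ : ℝ) ≤ 2 * D := by exact_mod_cast h
  push_cast
  calc _ ≤ e * ((t + 2 : ℝ) * D) + e * (2 * D) := by gcongr
    _ = (t + 4) / 3 * (e * (3 * D)) := by ring
    _ ≤ _ := by gcongr; nlinarith [sq_nonneg ((t : ℝ) - 3)]

theorem rad_le' (e D ρ t : ℕ) :
    ((e * ((t + 2) * D) + e * ρ : ℕ) : ℝ) ≤ 4 * (e * (D + ρ)) * exp (t / 4) := by
  have a := add_one_le_exp ((t : ℝ) / 4)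
  have t0 : (0 : ℝ) ≤ t := Nat.cast_nonneg _
  push_cast
  calc _ ≤ (t + 2 : ℝ) * (e * (D + ρ)) := by
        nlinarith [mul_nonneg (add_nonneg t0 zero_le_one) (by positivity : (0 : ℝ) ≤ e * ρ)]
    _ ≤ 4 * exp (t / 4) * (e * (D + ρ)) := by gcongr; linarith
    _ = _ := by ring

theorem rad_le0 (e D ρ : ℕ) : ((e * ρ : ℕ) : ℝ) ≤ e * (D + ρ) := by
  push_cast
  gcongr
  linarith [(Nat.cast_nonneg D : (0 : ℝ) ≤ D)]

section taylor

variable (h : Lop p n e ρ Q g ω A Φ) (hn : Odd n) (he : Odd e) (h0 : 0 < p.ρ) (hD : 1 ≤ p.D)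
  (Q0 : 0 ≤ Q) (ω0 : 0 ≤ ω)
include h hn he h0 hD Q0 ω0

theorem Lop.sz (hp : PS (e * n) F) (hF : ∀ x, ‖F x‖ ≤ a) :
    Sz p n Q g (a * A) (a * A) ω (Φ F).1 (Φ F).2 :=
  have a0 := (norm_nonneg _).trans (hF 0)
  h.loc h0 a0 (fun _ => ⟨F, hp, rfl, fun x _ => hF x⟩) fun _ => ⟨F, hp, rfl, fun _ _ x _ =>
    (hF x).trans (le_mul_of_one_le_right a0 (one_le_exp (by positivity)))⟩

theorem Lop.tc : TCov n (Φ 1).1 (Φ 1).2 := fun w => h.cov 1 w fun _ _ => rfl

theorem Lop.mom (m : Fin 4) : Sz p n Q g (4 * (e * (p.D + ρ)) * A) (4 * (e * (p.D + ρ)) * A) ω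
    (mo n e Φ m).1 (mo n e Φ m).2 ∧ TCov n (mo n e Φ m).1 (mo n e Φ m).2 := by
  have o := he.mul hn
  have P : ∀ Y, PS (e * n) fun x => avS (fun y => cdn (e * n) m ((e : ℤ) • y) x) Y :=
    fun Y x w => avS_congr fun y _ => cdn_per _ _ _ x w
  have R0 : (0 : ℝ) ≤ e * (p.D + ρ) := by positivity
  refine ⟨h.loc (u := mo n e Φ m) h0 (by positivity) (fun y => ?_) fun Y => ?_,
    fun w => ⟨funext fun y => ?_, fun q hq => ?_⟩⟩
  · exact ⟨_, cdn_per (e * n) m ((e : ℤ) • y), rfl, fun x c => (cdn_le o c m).trans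
      (by linarith [rad_le0 e p.D ρ])⟩
  · exact ⟨_, P Y, rfl, fun y hy x c => avS_le (by positivity)
      fun z hz => (cdn_le o (near_pair hD hy hz c) m).trans (rad_le' _ _ _ _)⟩
  · refine (congrFun (h.cov _ w (cdn_per _ m ((e : ℤ) • rc n (y + w)))).1 y).trans ?_
    simp only [cdn_tr]
    rfl
  · refine ((h.cov _ w (P (trS n w q.1))).2 q hq).trans ?_
    simp only [avS_tr hn (mem_lps.1 hq).1, cdn_tr]
    rfl

theorem Lop.tay1 (hp : PS (e * n) F) (hL : LipT (e * n) a F) (a0 : 0 ≤ a) :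
    let r := Φ F - mT (fun y => F ((e : ℤ) • y)) (Φ 1)
    Sz p n Q g (4 * (e * (p.D + ρ)) * a * A) (4 * (e * (p.D + ρ)) * a * A) ω r.1 r.2 := by
  have s := fun t : ℂ => h.sum (univ : Finset Unit) (G := fun _ => 1) hp (fun _ _ _ => rfl) fun _ => t
  simp only [univ_unique, sum_singleton] at s
  have R0 : (0 : ℝ) ≤ e * (p.D + ρ) := by positivity
  refine h.loc h0 (by positivity) (fun y => ⟨_, (s (F ((e : ℤ) • y))).1, by rw [(s _).2]; rfl,
    fun x c => ?_⟩) fun Y => ⟨_, (s (avS (fun y => F ((e : ℤ) • y)) Y)).1, by rw [(s _).2]; rfl,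
    fun y hy x c => ?_⟩
  · simp only [Pi.sub_apply, Pi.smul_apply, Pi.one_apply, smul_eq_mul, mul_one]
    exact (hL _ _ _ c.symm).trans (by nlinarith [rad_le0 e p.D ρ])
  · simp only [Pi.sub_apply, Pi.smul_apply, Pi.one_apply, smul_eq_mul, mul_one]
    exact avS_sub_le ⟨y, hy⟩ fun z hz => (hL _ _ _ (near_pair hD hy hz c).symm).trans
      ((mul_le_mul_of_nonneg_left (rad_le' _ _ _ _) a0).trans_eq (by ring))

theorem Lop.tay2 (hρ : ρ ≤ 2 * p.D) (hF : Jet2 (e * n) a0 a1 a2 F F') :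
    let r := Φ F - mT (fun y => F ((e : ℤ) • y)) (Φ 1) -
      ∑ m, mT (fun y => F' m ((e : ℤ) • y)) (mo n e Φ m)
    Sz p n Q g (20 * (e * (3 * p.D)) ^ 2 * a2 * A) (20 * (e * (3 * p.D)) ^ 2 * a2 * A) ω r.1 r.2 := by
  have o := he.mul hn
  have s := fun t : ℂ => h.sum (univ : Finset Unit) (G := fun _ => 1) hF.per (fun _ _ _ => rfl)
    fun _ => t
  simp only [univ_unique, sum_singleton] at s
  have P : ∀ Y m, PS (e * n) fun x => avS (fun y => cdn (e * n) m ((e : ℤ) • y) x) Y :=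
    fun Y m x w => avS_congr fun y _ => cdn_per _ _ _ x w
  have R0 : (0 : ℝ) ≤ e * (p.D + ρ) := by positivity
  have a0 := hF.nn
  refine h.loc h0 (by positivity) (fun y => ?_) fun Y => ?_
  · have q := h.sum univ (s (F ((e : ℤ) • y))).1 (fun m => cdn_per (e * n) m ((e : ℤ) • y))
      fun m => F' m ((e : ℤ) • y)
    refine ⟨_, q.1, ?_, fun x c => ?_⟩
    · rw [q.2, (s _).2]
      simp only [Prod.fst_sub, Prod.fst_sum, Pi.sub_apply, Finset.sum_apply]
      rfl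
    · simp only [Pi.sub_apply, Pi.smul_apply, Pi.one_apply, smul_eq_mul, mul_one, Finset.sum_apply]
      refine (hF.tayT o c).trans ?_
      have := pow_le_pow_left₀ (Nat.cast_nonneg _) (show ((e * ρ : ℕ) : ℝ) ≤ e * (3 * p.D) by
        exact_mod_cast Nat.mul_le_mul_left e (by omega)) 2
      nlinarith [mul_nonneg a0 (sq_nonneg ((e : ℝ) * (3 * p.D)))]
  · have q := h.sum univ (s (avS (fun y => F ((e : ℤ) • y)) Y)).1 (P Y)
      fun m => avS (fun y => F' m ((e : ℤ) • y)) Y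
    refine ⟨_, q.1, ?_, fun y hy x c => ?_⟩
    · rw [q.2, (s _).2]
      simp only [Prod.snd_sub, Prod.snd_sum, Pi.sub_apply, Finset.sum_apply]
      rfl
    simp only [Pi.sub_apply, Pi.smul_apply, Pi.one_apply, smul_eq_mul, mul_one, Finset.sum_apply]
    obtain ⟨R, hR⟩ : ∃ R, R = e * ((tau n p.D Y + 2) * p.D) + e * ρ := ⟨_, rfl⟩
    have e1 : ∀ c : Fin 4 → ℂ, F x - avS (fun y => F ((e : ℤ) • y)) Y -
        ∑ m, c m * avS (fun y => cdn (e * n) m ((e : ℤ) • y) x) Y = F x - avS (fun y =>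
          F ((e : ℤ) • y) + ∑ m, c m * cdn (e * n) m ((e : ℤ) • y) x) Y := fun c => by
      simp only [avS, sum_add_distrib, Fin.sum_univ_four, ← mul_sum]
      ring
    rw [e1]
    refine (avS_sub_le (a := 5 * (a2 * R ^ 2)) ⟨y, hy⟩ fun z hz => ?_).trans ?_
    · have c1 := hR ▸ near_pair hD hy hz c
      have b : ∀ m, ‖(F' m ((e : ℤ) • z) - avS (fun y => F' m ((e : ℤ) • y)) Y) *
          cdn (e * n) m ((e : ℤ) • z) x‖ ≤ a2 * R ^ 2 := fun m =>
        (norm_mul_le_of_le (avS_sub_le ⟨y, hy⟩ fun w hw => hF.lip m _ _ R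
          ((near_smul e (tau_diam hD hz hw)).mono (by omega))) (cdn_le o c1 m)).trans_eq (by ring)
      have := norm_add_le_of_le (hF.tayT o c1) ((norm_sum_le _ _).trans
        (sum_le_card_nsmul univ _ _ fun m _ => b m))
      simp only [sub_mul, sum_sub_distrib, card_univ, Fintype.card_fin, nsmul_eq_mul] at this
      convert this using 1
      · congr 1
        ring
      · push_cast
        ring
    · have := pow_le_pow_left₀ (Nat.cast_nonneg _) (hR ▸ rad_le e hρ (tau n p.D Y)) 2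
      rw [mul_pow, mul_pow, ← exp_nat_mul, show ((2 : ℕ) : ℝ) * (tau n p.D Y / 8) =
        tau n p.D Y / 4 by push_cast; ring] at this
      nlinarith [mul_le_mul_of_nonneg_left this a0]

end taylor

/-! ### One step -/

theorem PL_loc (h : S.Nu 100) {φ' : Lx} {J' : Ac} {y : St}
    (a : S.AgD (tb S.n S.D0 {rc S.n y}) φ φ' J J') : S.PL φ J y = S.PL φ' J' y :=
  have e : ∀ φ J, S.PL φ J y = S.PL φ J (rc S.n y) := fun _ _ =>
    congrArg₂ S.Pl (Sh.trL_up_rc _ _ _ _).symm (Sh.trA_up_rc _ _ _ _).symm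
  (e _ _).trans ((Sh.Pl_ag (Sh.ag0 a (h.mono (Nat.zero_le _)) (rc_mem h.ok.odd y)
    Subset.rfl)).trans (e _ _).symm)

theorem near_blk (l n R : ℕ) (x : St) :
    nearT (LL l * n) (LL l * (R + 1)) ((LL l : ℤ) • rc n (yo l x)) x := by
  have a := nearT.refl n R (yo l x)
  rw [← nearT_rc_left] at a
  generalize rc n (yo l x) = y at a ⊢
  exact near_yo a

theorem mT_ag (h : S.Nu 100) {F1 : St → ℂ} {Y : Finset St}
    (a : ∀ x, rc S.n (yo S.l x) ∈ Y → F x = F1 x) :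
    S.AgD Y (mT F u).1 (mT F1 u).1 (mT F u).2 (mT F1 u).2 :=
  ⟨fun x hx hy => by
    simp only [mT, mL, a x (by rwa [rc_eq h.ok.odd (Cov.yo_mem h.ok.odd hx)])],
    fun o _ hY => by
      simp only [mT, mB, avS_congr fun x hx => a x (hY (mem_image_of_mem _ hx))]⟩

theorem mT_tr (h : S.Nu 100) (tz : TCov S.nf u.1 u.2) (hp : PS S.nf F) (w : St) (Y : Finset St) :
    S.AgD Y (trL S.nf w (mT F u).1) (mT (fun x => F (x + w)) u).1 (trA S.nf w (mT F u).2)
      (mT (fun x => F (x + w)) u).2 := by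
  refine ⟨fun x _ _ => ?_, fun o ho _ => ?_⟩
  · have := congrFun (tz w).1 x
    simp only [trL] at this
    simp only [mT, mL, trL, this, ps_rc hp]
  · funext U
    have := congrFun ((tz w).2 o ho) U
    simp only [trA] at this
    simp only [mT, mB, trA, Pi.smul_apply, this, avS_tr (Sh.onf h.ok.odd) (mem_lps.1 ho).1,
      ps_rc hp]

/-- the step after a multiplication is a local map -/
theorem lop_ts (h : S.Nu 100) (f : St2 S) (b : Tg S ω ψ K) (tc : TCov S.nf ψ K)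
    (z : Sz S.p S.nf S.QM S.g N N ω u.1 u.2) (tz : TCov S.nf u.1 u.2) (N0 : 0 < N) (e : ω ≤ ω') :
    Lop S.p' S.n (LL S.l) (S.D0 + 1) S.Q S.g' ω' (1.01 * N) (fun F =>
      (S.PL (mT F u).1 (mT F u).2, dK S ψ K (mT F u).1 (mT F u).2)) ∧
    (S.PL (mT 1 u).1 (mT 1 u).2, dK S ψ K (mT 1 u).1 (mT 1 u).2) =
      (S.PL u.1 u.2, dK S ψ K u.1 u.2) := by
  have ρ0 := rho_pos h
  have r : ∀ Y, S.AgD Y ψ ψ K K := fun _ => ⟨fun _ _ _ => rfl, fun _ _ _ => rfl⟩
  have D : ∀ F, PS (LL S.l * S.n) F → Dir S (mT F u).1 (mT F u).2 := fun F hp =>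
    let ⟨_, a⟩ := ps_bdd (Sh.onf h.ok.odd) hp
    b.dir h (sz_mT ρ0 z a)
  refine ⟨⟨fun F F1 t p1 p2 => ?_, fun F F1 y _ _ a => PL_loc h (mT_ag h fun x hx => a x ?_),
    fun F F1 Y _ _ a => funext fun c => dK_loc h (r Y) (mT_ag h fun x hx => a _ hx x ?_) c, ?_,
    fun F w hp => ⟨funext fun y => ?_, fun o ho => ?_⟩⟩, ?_⟩
  · have d2 := dK_add h f b.rm (D F p1) ((D F1 p2).smul h t)
    obtain ⟨_, _, _, a1, a2, -⟩ := D F p1
    obtain ⟨_, _, _, b1, b2, -⟩ := D F1 p2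
    rw [dK_smul] at d2
    simp only [mT_add']
    exact Prod.ext (f.lin _ _ _ _ _ _ _ _ t a1 b1 a2 b2) d2
  · have := (mem_tb_single.1 hx).2
    rw [nearT_rc_left, nearT_rc_right] at this
    exact near_yo this
  · exact near_blk _ _ _ _
  · obtain ⟨k, k1, k2⟩ := z.2
    obtain ⟨m, m1, m2⟩ := b.maj _ _ _ k2 N0.le (add_pos N0 N0)
    have := h.ok.gg'
    have := h.ok.g0
    have := b.nn
    have := b.nn.trans e
    have := S.Q0
    refine ⟨m, (kN_q m1).mono ?_, fun F _ a => ?_⟩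
    · calc _ ≤ 8 / 1000 * (ω' * (N + N) * S.g' ^ 2) := by
            gcongr
            exact h.cQ' (by norm_num)
        _ = ω' * (0.016 * N) * S.g' ^ 2 := by ring
        _ ≤ _ := by gcongr; norm_num
    · have z1 := sz_mT ρ0 z a
      have k3 := km_mB k1 k2.1 a
      rw [one_mul] at z1
      rw [one_smul] at k3
      exact ⟨(b.step1 h f z1 N0 e).1, m2 _ _ z1 k3⟩
  · exact (Sh.PL_tr S _ _ w y).symm.trans (PL_loc h (mT_tr h tz hp _ _))
  · exact (dK_sh h.ok w ho).symm.trans (dK_loc h ⟨fun x _ _ => congrFun (tc _).1 x,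
      fun q hq _ => (tc _).2 q hq⟩ (mT_tr h tz hp _ _) _)
  · have a : ∀ Y, S.AgD Y (mT 1 u).1 u.1 (mT 1 u).2 u.2 := fun Y =>
      ⟨fun x _ _ => by simp [mT, mL], fun o ho _ => by
        simp only [mT, mB, show avS 1 o.1 = 1 from avS_const (mem_lps.1 ho).2.1 1, one_smul]⟩
    exact Prod.ext (funext fun y => PL_loc h (a _))
      (funext fun Y => funext fun c => dK_loc h (r Y) (a Y) c)

theorem Jet2.up (h : Jet2 (e * n) a0 a1 a2 F F') : Jet2 n a0 (e * a1) (e ^ 2 * a2)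
    (fun y => F ((e : ℤ) • y)) fun m y => e * F' m ((e : ℤ) • y) where
  per x w := by simp only [smul_per, h.per _ w]
  per' m x w := by simp only [smul_per, h.per' m _ w]
  bd x := h.bd _
  bd' m x := norm_mul_le_of_le (by simp) (h.bd' m _)
  lip m x y R c := by
    rw [← mul_sub]
    exact (norm_mul_le_of_le (Complex.norm_natCast e).le (h.lip m _ _ _ (near_smul e c))).trans_eq
      (by push_cast; ring)
  tay x R w hw := by
    have h0 : (0 : ℤ) ≤ e := Nat.cast_nonneg _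
    have := h.tay ((e : ℤ) • x) (e * R) ((e : ℤ) • w) (mem_box.2 fun i => by
      have a := mul_le_mul_of_nonneg_left (mem_box.1 hw i).1 h0
      have b := mul_le_mul_of_nonneg_left (mem_box.1 hw i).2 h0
      simp only [Pi.smul_apply, smul_eq_mul]
      push_cast
      constructor <;> linarith)
    rw [smul_add]
    convert this using 1
    · congr 2
      refine sum_congr rfl fun m _ => ?_
      simp only [Pi.smul_apply, smul_eq_mul]
      push_cast
      ring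
    · push_cast
      ring

end En

end Pool.Agent.Lib.MP_7f377f_mp.RG.Q4
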