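import Pool.Agent.Lib.MP_7f377f_mp.G.Q5Fam
import Pool.Agent.Lib.MP_7f377f_mp.G.Q5TanD

/-! Tangent flows of position dependent sources. -/

noncomputable section

set_option linter.unusedSectionVars false
variable [Pool.Agent.Lib.MP_7f377f_mp.GD]

namespace Pool.Agent.Lib.MP_7f377f_mp.RG.Q4.En

open Finset Real Pos

namespace Gl

/-- the tangent with respect to the bare coupling stays bounded -/
def Tv (G : Gl) (b : ℝ) (J : ℕ) : Prop :=
  ∀ k ≤ J, G.Sz k 1000 10 √(G.g k) (G.tu b J k).1 (G.tu b J k).2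

/-- the error of the approximation by a slowly varying multiple -/
def pe (G : Gl) (J k : ℕ) (a τ : ℝ) : ℝ :=
  1.01 ^ (J - k) * (10 ^ 37 * τ) + 4000 * G.Q k * (G.rt J k * a)

variable {G : Gl} {b a c τ δ x y x' y' E E' ω ω' : ℝ} {J i j k : ℕ} {F : Sr} {f f' : St → ℂ}
  {ψ ψ' : Lx} {K K' : Ac}

namespace Ok

variable (h : G.Ok)
include h

theorem rt_mul (hk : k ≤ i) (hi : i ≤ J) : G.rt i k * G.rt J i = G.rt J k := by
  have := h.sch.mono.monotone hk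
  have := h.sch.mono.monotone hi
  rw [rt, rt, rt, ← pow_add]
  congr 1
  omega

theorem fd_comp (hk : k ≤ i) (hi : i ≤ J) : G.fd i k (G.fd J i f) = G.fd J k f := funext fun y => by
  rw [fd, fd, fd, smul_smul, ← h.rt_mul hk hi, mul_comm]
  rfl

theorem pw_rt : ∀ k ≤ J, (1.01 : ℝ) ^ (J - k) ≤ G.rt J k :=
  dw_ind (by simp [rt_top]) fun k hk ih => by
    rw [h.rt_step hk, show J - k = J - (k + 1) + 1 by omega, pow_succ', Nat.cast_mul]
    exact mul_le_mul (by linarith [h.L1 k]) ih (by positivity) (Nat.cast_nonneg _)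

theorem rt_e (hk : k ≤ J) : (G.rt J k : ℝ) * 3 ^ G.e k = 3 ^ G.e J := by
  rw [rt, Nat.cast_pow, Nat.cast_ofNat, ← pow_add, Nat.sub_add_cancel (h.sch.mono.monotone hk)]

theorem b_e (k : ℕ) : G.bb k ≤ 3 ^ G.e k := by
  obtain ⟨n, -, h2, h3⟩ := h.sch.vol k
  refine h3.trans ?_
  exact_mod_cast h2 ▸ Nat.le_mul_of_pos_left n (lt_of_lt_of_le (by norm_num) (h.L_big k))

/-- profiles which vary on the unit scale -/
theorem Q_rt (hk : k ≤ J) (ha : a * 3 ^ G.e J ≤ c) (a0 : 0 ≤ a) :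
    G.Q k ^ 4000 * (G.rt J k * a) ≤ c := by
  rw [← h.rt_e hk] at ha
  calc _ ≤ 3 ^ G.e k * (G.rt J k * a) := by gcongr; exact (h.Qb k).trans (h.b_e k)
    _ = _ := by ring
    _ ≤ c := ha

theorem Q_rt1 (hk : k ≤ J) (ha : a * 3 ^ G.e J ≤ 1000) (a0 : 0 ≤ a) :
    G.Q k * (G.rt J k * a) ≤ 1 := by
  have := h.Q_rt hk ha a0
  have := mul_le_mul_of_nonneg_right (h.qpw k (i := 1) (j := 4000) (by norm_num))
    (by positivity : 0 ≤ G.rt J k * a)
  nlinarith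

theorem sz_nn (s : G.Sz k x y ω ψ K) : 0 ≤ x ∧ 0 ≤ y :=
  Sz.nn (h.sl_all k (G.top0 0 0)).nu (h.sz_sl s _)

theorem sz_le (s : G.Sz k x y ω ψ K) (ω0 : 0 ≤ ω) (hx : x ≤ x') (hy : y ≤ y') (e : ω ≤ ω') :
    G.Sz k x' y' ω' ψ K := by
  have := h.Q0 k
  have := (h.sz_nn s).2
  have := ω0.trans e
  exact ⟨PM.mono (h.ρ0 k) s.1 hx (by gcongr) (by gcongr),
    s.2.imp fun _ a => ⟨a.1, a.2.mono (by gcongr)⟩⟩

theorem top_half (A : G.Tu b J) : G.bb J / 2 ≤ b := by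
  have v := (abs_le.1 (A.gd J le_rfl).tz.v).1
  rw [zz_top] at v
  have := (le_div_iff₀ (h.b0 J)).1 (show 2⁻¹ ≤ b / G.bb J by change _ ≤ b / _ - 1 at v; linarith)
  linarith

theorem pe_le (hk : k ≤ J) (a0 : 0 ≤ a) :
    1.01 ^ (J - k) * (10 ^ 37 * τ + a) + 2 * G.Q k * (G.rt J k * a) * 1000 ≤ G.pe J k a τ := by
  have := mul_le_mul_of_nonneg_right (h.pw_rt k hk) a0
  have := mul_le_mul_of_nonneg_right (h.Q1 k) (by positivity : 0 ≤ G.rt J k * a)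
  rw [pe]
  nlinarith

variable (A : G.Tu b J) (T : G.Tv b J) (hL : LipT (G.N J) a f) (a0 : 0 < a) (hf : ∀ x, ‖f x‖ ≤ c)
  (hF : ∀ x μ ν, ‖F x μ ν - f x‖ ≤ τ)
include A T hL a0 hf hF

theorem tv_pos0 (hk : k ≤ J) :
    G.Sz k (1.01 ^ (J - k) * (10 ^ 37 * τ + a) + 2 * G.Q k * (G.rt J k * a) * 1000)
      (1.01 ^ (J - k) * (10 ^ 37 * τ + a) + 2 * G.Q k * (G.rt J k * a) * 1000) √(G.g k)
      ((G.tv F b J k).1 - mL (G.fd J k f) (G.tu b J k).1)
      ((G.tv F b J k).2 - mA (G.fd J k f) (G.tu b J k).2) := by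
  have τ0 := (norm_nonneg _).trans (hF 0 0 0)
  have q := h.Q0 J
  have n := h.sl_nf J (G.top0 0 0)
  have s := src_pos (h.sl_all J (G.top0 0 0)).nu (h.top_half A) (n ▸ hL) a0.le hf hF
  rw [Pos.Tz, n] at s
  refine h.pos_chain (j := 0) (z := G.zz b J) (b := fun k => (G.zz b J k).d) (ω := fun k => √(G.g k))
    (u := G.tu b J) (v := G.tv F b J) (fun k _ hk => h.gd_tg (A.gd _ hk)) (fun _ _ => tc_step _) (fun _ _ => tn_step)
    (fun k _ hk => h.sz_le (T k hk) (sqrt_nonneg _) le_rfl (by norm_num) le_rfl) (by norm_num) hf hL a0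
    (by positivity) ?_ k hk k.zero_le
  rw [tv, tu, tn_top, tc_top]
  exact h.sz_le s (sqrt_nonneg _) (le_add_of_nonneg_right (by positivity))
    (le_add_of_nonneg_right (by positivity)) le_rfl

/-- the tangent of a source is close to a slowly varying multiple of the tangent of the run -/
theorem tv_pos (hk : k ≤ J) : G.Sz k (G.pe J k a τ) (G.pe J k a τ) √(G.g k)
    ((G.tv F b J k).1 - mL (G.fd J k f) (G.tu b J k).1)
    ((G.tv F b J k).2 - mA (G.fd J k f) (G.tu b J k).2) :=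
  h.sz_le (h.tv_pos0 A T hL a0 hf hF hk) (sqrt_nonneg _) (h.pe_le hk a0.le) (h.pe_le hk a0.le) le_rfl

theorem tv_sz' (hk : k ≤ J) : G.Sz k (G.pe J k a τ + c * 1000) (G.pe J k a τ + c * 10) √(G.g k)
    (G.tv F b J k).1 (G.tv F b J k).2 := by
  simpa only [sub_add_cancel, Sz] using sz_add (h.ρ0 k) (h.tv_pos A T hL a0 hf hF hk)
    (sz_mul (F := G.fd J k f) (h.ρ0 k) (T k hk) fun _ => hf _)

/-- the tangent of a source stays bounded -/
theorem tv_sz (c1 : c ≤ 1) (hk : k ≤ J) (hτ : 1.01 ^ (J - k) * τ ≤ 1)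
    (ha : G.Q k * (G.rt J k * a) ≤ 1) :
    G.Sz k (10 ^ 38) (10 ^ 38) √(G.g k) (G.tv F b J k).1 (G.tv F b J k).2 :=
  h.sz_le (h.tv_sz' A T hL a0 hf hF hk) (sqrt_nonneg _) (by rw [pe]; linarith) (by rw [pe]; linarith)
    le_rfl

/-- the same when the flow is continued below level `i` along other states and base points -/
theorem tv_hyb {z : ℕ → Z} {H u v : ℕ → Lx × Ac} {ω : ℕ → ℝ} (hi : i ≤ J)
    (st : ∀ k, j ≤ k → k < i → St2 (G.sd k (z (k + 1))) ∧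
      Tg (G.sd k (z (k + 1))) (ω (k + 1)) (H (k + 1)).1 (H (k + 1)).2 ∧ ω (k + 1) ≤ ω k)
    (hu : ∀ k, j ≤ k → k < i → u k = G.ts k (z (k + 1)) (H (k + 1)) (u (k + 1)))
    (hv : ∀ k, j ≤ k → k < i → v k = G.ts k (z (k + 1)) (H (k + 1)) (v (k + 1)))
    (u0 : u i = G.tu b J i) (v0 : v i = G.tv F b J i) (hω : √(G.g i) ≤ ω i)
    (hN : ∀ k, j < k → k ≤ i → G.Sz k 1000 10 (ω k) (u k).1 (u k).2) (hk : k ≤ i) (hj : j ≤ k) :
    G.Sz k (G.pe J k a τ) (G.pe J k a τ) (ω k)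
      ((v k).1 - mL (G.fd J k f) (u k).1) ((v k).2 - mA (G.fd J k f) (u k).2) := by
  have τ0 := (norm_nonneg _).trans (hF 0 0 0)
  have w : ∀ k ≤ i, j ≤ k → 0 ≤ ω k := dw_ind (fun _ => (sqrt_nonneg _).trans hω) fun k hk ih hj =>
    (ih (by omega)).trans (st k hj hk).2.2
  have s := h.pos_chain st hu hv (fun k h1 h2 => h.sz_le (hN k h1 h2) (w k h2 h1.le) le_rfl
    (by norm_num) le_rfl) (N := 1000) (by norm_num) (F := G.fd J i f) (fun _ => hf _)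
    (h.fd_lip hL i hi) (mul_pos (Nat.cast_pos.2 (pow_pos three_pos _)) a0)
    (E := 1.01 ^ (J - i) * (10 ^ 37 * τ + a)) (by positivity) (by
      rw [u0, v0]
      exact h.sz_le (h.tv_pos0 A T hL a0 hf hF hi) (sqrt_nonneg _) le_rfl le_rfl hω) k hk hj
  rw [h.fd_comp hk hi, ← mul_assoc _ _ (_ + a), ← pow_add, ← mul_assoc _ _ a, ← Nat.cast_mul,
    h.rt_mul hk hi, show i - k + (J - i) = J - k by omega] at s
  have e := h.pe_le (τ := τ) (hk.trans hi) a0.le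
  exact h.sz_le s (w k hk hj) e e le_rfl

omit A T hL a0 hF in
theorem pos_sz {u v : Lx × Ac} (s : G.Sz k E E' ω (v.1 - mL f u.1) (v.2 - mA f u.2))
    (n : G.Sz k x y ω u.1 u.2) : G.Sz k (E + c * x) (E' + c * y) ω v.1 v.2 := by
  simpa only [sub_add_cancel, Sz] using sz_add (h.ρ0 k) s (sz_mul (h.ρ0 k) n hf)

omit A T hL a0 hF in
/-- comparison of two tangents -/
theorem pos_cmp {u u' v v' : Lx × Ac} (γ : ℂ) (hd : ∀ x, ‖f x - f' x‖ ≤ δ)
    (s : G.Sz k E E ω (v.1 - mL f u.1) (v.2 - mA f u.2))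
    (s' : G.Sz k E' E' ω (v'.1 - mL f' u'.1) (v'.2 - mA f' u'.2))
    (d : G.Sz k x y ω (u - γ • u').1 (u - γ • u').2) (n : G.Sz k x' y' ω u'.1 u'.2) :
    G.Sz k (E + ‖γ‖ * E' + c * x + ‖γ‖ * (δ * x')) (E + ‖γ‖ * E' + c * y + ‖γ‖ * (δ * y')) ω
      (v - γ • v').1 (v - γ • v').2 := by
  have r := h.ρ0 k
  have := sz_add r (sz_add r (sz_add r s (sz_smul r s' (-γ))) (sz_mul r d hf))
    (sz_smul r (sz_mul (F := fun x => f x - f' x) r n hd) γ)
  rw [norm_neg] at this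
  rw [Sz]
  convert this using 1
  · ext; simp [mL]; ring
  · ext; simp [mA]; ring

end Ok

end Gl

end Pool.Agent.Lib.MP_7f377f_mp.RG.Q4.En
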