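import Pool.Agent.Lib.MP_7f377f_mp.G.TyK
import Pool.Agent.Lib.MP_7f377f_mp.G.Q5PosM

/-! Slowly varying multiples of contracting directions. -/

noncomputable section

set_option linter.unusedSectionVars false
variable [Pool.Agent.Lib.MP_7f377f_mp.GD]

namespace Pool.Agent.Lib.MP_7f377f_mp.RG.Q4.En

open Finset Real Pos

section

variable {S : Sd} {ω ω' N E A a : ℝ} {ψ φ φ' : Lx} {K J J' : Ac} {F : St → ℂ}

theorem cr_L (h : S.Nu 100) : 2 * (S.r : ℝ) ^ 2 ≤ S.L * S.cr := by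
  have c0 := Sd.Nu.cs0 (S := S)
  have c1 : S.cs ≤ 1 := by simpa using h.cs_le (k := 0) (by omega)
  have c2 : S.r * S.cs ≤ 1 := by simpa using h.cs_le (k := 1) (by omega)
  have r1 := h.r1'
  have L0 := Sd.L0 S.toTd
  have c3 : S.r ≤ S.L * S.cs := by
    refine le_of_mul_le_mul_right ?_ (pow_pos c0 19)
    rw [mul_assoc, ← pow_succ', mul_comm S.L, Sd.Nu.cs_pow, pow_succ', ← mul_assoc]
    exact mul_le_one₀ c2 (by positivity) (pow_le_one₀ c0.le c1)
  rw [Sd.cr]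
  nlinarith

theorem pos_step_v (h : S.Nu 100) (f : St2 S) (b : Tg S ω ψ K)
    (z : Sz S.p S.nf S.QM S.g N N ω φ J) (N0 : 0 < N)
    (hF : ∀ x, ‖F x‖ ≤ A) (hL : LipT S.nf a F) (a0 : 0 < a) (E0 : 0 ≤ E) (eω : ω ≤ ω')
    (e : Sz S.p S.nf S.QM S.g (E + S.QM ^ 2 * a * N) (E + S.QM ^ 2 * a * N) ω
      (φ' - mL F φ) (J' - mA F J)) :
    Sz S.p' S.n S.Q S.g' (1.01 * E + S.Q ^ 2 * (S.L * a) * (2 * S.cr * N))
      (1.01 * E + S.Q ^ 2 * (S.L * a) * (2 * S.cr * N)) ω'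
      (S.PL φ' J' - mL (fun y => F (up S.l y)) (S.PL φ J))
      (dK S ψ K φ' J' - mA (fun y => F (up S.l y)) (dK S ψ K φ J)) := by
  have d2 := b.dir h (sz_mul (rho_pos h) z hF)
  have d3 := b.dir h e
  have M0 := one_pos.trans_le h.ok.QM1
  have d4 : Dir S φ' J' := by simpa using d3.add h d2
  have q := sz_add (rho'_pos h) (b.step1 h f e (by positivity) eω)
    (comm_step_w h f b z N0 hF hL a0 eω)
  have e1 := pl_sub f d4 d2 1
  simp only [one_smul] at e1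
  rw [e1, dK_sub h f b.rm d4 d2, sub_add_sub_cancel, sub_add_sub_cancel] at q
  suffices _ ≤ _ from sz_mono (rho'_pos h) S.Q0.le (b.nn.trans eω) q this this
  have L0 := Sd.L0 S.toTd
  have Q0 := S.Q0
  have a1 : 3 * S.D0 ≤ S.Q ^ 2 * S.cr := by
    have := h.mon (C := 3) (i := 0) (j := 1) (by norm_num) (by omega) (by omega)
    rw [pow_zero, pow_one, mul_one] at this
    nlinarith [cr_Q h]
  have a2 : 2 * S.QM ^ 2 ≤ S.Q ^ 2 * (S.L * S.cr) := by
    nlinarith [pow_le_pow_left₀ M0.le h.QM_le 2, mul_le_mul_of_nonneg_left (cr_L h) (sq_nonneg S.Q)]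
  nlinarith [mul_le_mul_of_nonneg_right a1 (by positivity : 0 ≤ S.L * a * N),
    mul_le_mul_of_nonneg_right a2 (by positivity : 0 ≤ a * N), mul_pos (pow_pos M0 2) (mul_pos a0 N0)]

end

namespace Gl.Ok

variable {G : Gl} (h : G.Ok) {b a c N E : ℝ} {J i j m : ℕ} {u v : Lx × Ac} {F : St → ℂ}
include h

/-- the contraction is slower than the change of the scale -/
theorem pw_cP : ∀ m ≤ i, (1.01 : ℝ) ^ (i - m) ≤ G.rt i m * G.cP m i :=
  dw_ind (by simp [rt_top, cP_top]) fun k hk ih => by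
    have n := (h.sd_all k (G.top0 0 0)).nu
    have a : 2 * ((G.sd k (G.top0 0 0)).r : ℝ) ^ 2 ≤ G.L k * G.cr k := cr_L n
    rw [show i - k = i - (k + 1) + 1 by omega, pow_succ', cP_step hk, h.rt_step hk, Nat.cast_mul,
      mul_mul_mul_comm]
    exact mul_le_mul (by nlinarith [n.r1']) ih (by positivity) (by nlinarith [n.r1'])

variable (A : G.Tu b J) (hi : i ≤ J) (N0 : 0 < N)
  (hN : ∀ k, j < k → k ≤ i → G.Sz k (G.cP k i * N) (G.cP k i * N) (G.Q k ^ 280)⁻¹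
    (G.tc b J i u k).1 (G.tc b J i u k).2) (hF : ∀ x, ‖F x‖ ≤ c) (hL : LipT (G.N i) a F)
  (a0 : 0 < a) (E0 : 0 ≤ E) (e : G.Sz i E E (G.Q i ^ 280)⁻¹ (v.1 - mL F u.1) (v.2 - mA F u.2))
include A hi N0 hN hF hL a0 E0 e

/-- the tangent flow of a slowly varying multiple of a contracting direction -/
theorem posv : ∀ m ≤ i, j ≤ m →
    G.Sz m (1.01 ^ (i - m) * E + G.Q m ^ 2 * (G.rt i m * a) * (G.cP m i * N))
      (1.01 ^ (i - m) * E + G.Q m ^ 2 * (G.rt i m * a) * (G.cP m i * N)) (G.Q m ^ 280)⁻¹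
      ((G.tc b J i v m).1 - mL (G.fd i m F) (G.tc b J i u m).1)
      ((G.tc b J i v m).2 - mA (G.fd i m F) (G.tc b J i u m).2) :=
  dw_ind (fun _ => by
    have p : 0 ≤ G.Q i ^ 2 * a * N := by positivity
    simpa [fd_top, rt_top, cP_top, tc_top] using h.sz_up e (h.om0 i).le (le_add_of_nonneg_right p)
      (le_add_of_nonneg_right p)) fun k hk ih hj => by
    obtain ⟨s1, s2, s3⟩ := h.tw_tg A (hk.trans_le hi)
    have n := h.sd_nf k (G.zz b J (k + 1))
    have := pos_step_v (h.sd_all k _).nu s1 s2 (h.sz_fine _ (hN (k + 1) (by omega) hk))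
      (mul_pos (h.cP0 _ _) N0) (F := G.fd i (k + 1) F) (fun _ => hF _) (n ▸ h.fd_lip hL _ hk)
      (mul_pos (Nat.cast_pos.2 (pow_pos three_pos _)) a0) (by positivity) s3
      (h.sz_fine _ (ih (by omega)))
    rw [tc_step u hk, tc_step v hk, h.fd_step hk, h.rt_step hk, Nat.cast_mul, cP_step hk,
      show i - k = i - (k + 1) + 1 by omega, pow_succ', mul_assoc 1.01, mul_assoc (G.L k : ℝ),
      mul_assoc (2 * G.cr k)]
    exact this

/-- the size of a smeared contracting direction -/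
theorem slot (hm : m ≤ i) (hj : j < m) :
    G.Sz m (G.cP m i * (G.rt i m * (E + G.Q m ^ 2 * a * N) + c * N))
      (G.cP m i * (G.rt i m * (E + G.Q m ^ 2 * a * N) + c * N)) (G.Q m ^ 280)⁻¹
      (G.tc b J i v m).1 (G.tc b J i v m).2 := by
  have := mul_le_mul_of_nonneg_right (h.pw_cP m hm) E0
  exact h.sz_up (h.pos_sz (f := G.fd i m F) (fun _ => hF _) (h.posv A hi N0 hN hF hL a0 E0 e m hm hj.le)
    (hN m hj hm)) (h.om0 m).le (by linarith) (by linarith)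

end Gl.Ok

end Pool.Agent.Lib.MP_7f377f_mp.RG.Q4.En
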