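import Pool.Agent.Lib.MP_7f377f_mp.G.StV4
import Pool.Agent.Lib.MP_7f377f_mp.G.StV5
import Pool.Agent.Lib.MP_7f377f_mp.G.Q5DifC
import Pool.Agent.Lib.MP_7f377f_mp.G.TyP
import Pool.Agent.Lib.MP_7f377f_mp.StFastK

/-! Orbits of the tangent flow with sources. -/

noncomputable section

set_option linter.unusedSectionVars false
variable [Pool.Agent.Lib.MP_7f377f_mp.GD]

namespace Pool.Agent.Lib.MP_7f377f_mp.RG.Q4.En

open Finset Real Pos Cok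

/-- the multiplication by a function of the position is linear -/
def mM (F : St → ℂ) : Lx × Ac →ₗ[ℂ] Lx × Ac where
  toFun := mT F
  map_add' u v := by simpa using mT_add (F := F) (u := u) (v := v) 1
  map_smul' t u := Prod.ext (funext fun x => smul_comm (F x) t (u.1 x))
    (funext fun X => smul_comm (avS F X) t (u.2 X))

theorem mM_eq (F : St → ℂ) (u : Lx × Ac) : mM F u = mT F u := rfl

theorem mM_mul (t : ℂ) (F : St → ℂ) (u : Lx × Ac) : mM (fun y => t * F y) u = mM F (t • u) := by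
  rw [mM_eq, mM_eq]
  refine Prod.ext (funext fun x => ?_) (funext fun X => ?_)
  · change (t * F x) • u.1 x = F x • t • u.1 x
    rw [smul_smul, mul_comm]
  · change avS (fun y => t * F y) X • u.2 X = avS F X • t • u.2 X
    rw [smul_smul, avS, avS, ← mul_sum, mul_comm t, mul_assoc]

theorem rsm {E : Type} [AddCommGroup E] [Module ℝ E] [Module ℂ E] [IsScalarTower ℝ ℂ E] (t : ℝ) (u : E) :
    t • u = (t : ℂ) • u := (algebraMap_smul ℂ t u).symm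

section real

variable {p : Pa} {n : ℕ} {u v : Lx × Ac} {F : St → ℂ}

theorem re_zero : Re p n (0 : Lx × Ac).1 (0 : Lx × Ac).2 :=
  ⟨fun _ _ _ _ => rfl, fun _ _ _ => rfl, fun _ => ⟨rfl, fun _ _ => rfl⟩⟩

theorem re_lin (h : Re p n u.1 u.2) (h' : Re p n v.1 v.2) (t : ℝ) :
    Re p n (u + (t : ℂ) • v).1 (u + (t : ℂ) • v).2 := h.comb h' t

theorem re_sub (h : Re p n u.1 u.2) (h' : Re p n v.1 v.2) : Re p n (u - v).1 (u - v).2 := by
  simpa [sub_eq_add_neg] using re_lin h h' (-1)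

theorem re_sum {α : Type} (s : Finset α) (c : α → ℝ) {u : α → Lx × Ac}
    (h : ∀ a, Re p n (u a).1 (u a).2) :
    Re p n (∑ a ∈ s, (c a : ℂ) • u a).1 (∑ a ∈ s, (c a : ℂ) • u a).2 := by
  induction s using Finset.cons_induction with
  | empty => exact re_zero
  | cons a s ha ih => rw [sum_cons, add_comm]; exact re_lin ih (h a) _

theorem avS_im (hF : ∀ x, (F x).im = 0) (X : Finset St) : (avS F X).im = 0 := by
  rw [avS, ← Complex.ofReal_natCast, ← Complex.ofReal_inv, Complex.im_ofReal_mul, Complex.im_sum]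
  simp [hF]

theorem mM_real (h1 : RealP p u.1) (h2 : RealA u.2) (hF : ∀ x, (F x).im = 0) :
    RealP p (mM F u).1 ∧ RealA (mM F u).2 :=
  ⟨fun x B a c => by
    change (F x * u.1 x B).im = 0
    simp [hF, h1 x B a c], fun X c U => by
    change (avS F X * u.2 X c U).im = 0
    simp [avS_im hF, h2 X c U]⟩

theorem pl_real {S : Sd} {ψ φ : Lx} {K J : Ac} (h : S.Nu 100) (f : St2 S) (a : Rm S ψ K)
    (a' : Dir S φ J) (r : Re S.p S.nf ψ K) (r1 : RealP S.p φ) (r2 : RealA J) :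
    RealP S.p' (S.PL φ J) ∧ RealA (dK S ψ K φ J) := by
  obtain ⟨t, _, _, _, t0, s⟩ := line_sml h a a'
  have s1 := s (t / 2 : ℝ) (by
    rw [mem_ball_zero_iff, Complex.norm_real, norm_of_nonneg (half_pos t0).le]; linarith)
  have s0 := s 0 (Metric.mem_ball_self t0)
  rw [zero_smul, zero_smul, add_zero, add_zero] at s0
  obtain ⟨_, _, _, p, q, -⟩ := id a'
  refine ⟨fun x B u v => ?_, dK_real h f a a' r.1 r.2.1 r1 r2⟩
  have := (f.real _ _ _ _ _ s1 (fun x B u v => by simp [r.1 x B u v, r1 x B u v])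
    fun X c U => by simp [r.2.1 X c, r2 X c]).1 x B u v
  rw [f.lin _ _ _ _ _ _ _ _ (t / 2 : ℝ) s0.pu p s0.km q] at this
  simpa [(f.real _ _ _ _ _ s0 r.1 r.2.1).1 x B u v, t0.ne'] using this

theorem cdn_ok (hn : Odd n) (m : Fin 4) (y : St) : PS n (cdn n m y) ∧ (∀ x, ‖cdn n m y x‖ ≤ n) ∧
    ∀ x, (cdn n m y x).im = 0 :=
  ⟨fun x v => by rw [cdn, cdn, add_sub_right_comm, rc_add_smul], fun x => by
    have := abs_le.2 (mem_box.1 (rc_mem hn (x - y)) m)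
    rw [cdn, Complex.norm_intCast]
    exact_mod_cast this.trans (by omega), fun _ => Complex.intCast_im _⟩

end real

theorem co_fast {V E β : Type} [AddCommGroup V] [Module ℝ V] [NormedAddCommGroup E] [NormedSpace ℝ E]
    [Fintype β] {j J : ℕ} {P : ℕ → V → ℝ → Prop} {q : ℕ → V → E} {T : ℕ → V → V} {A : ℕ → E →ₗ[ℝ] E}
    {W : Submodule ℝ E} {a lam η w : ℕ → ℝ} {C C' : ℝ} {p : β → ℕ → V} {u f : ℕ → V}
    [FiniteDimensional ℝ E] (h : Co j J P q T A W a lam η) (hj : j ≤ J)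
    (hp : ∀ b k, j ≤ k → k < J → p b k = T k (p b (k + 1))) (p1 : ∀ b, P J (p b J) C') (C0 : 0 ≤ C)
    (C1 : 0 ≤ C') (s : E →ₗ[ℝ] β → ℝ) (s1 : ∀ e, ∑ b, ‖s e b‖ ≤ C * ‖e‖)
    (s2 : ∀ e ∈ W, ∑ b, s e b • q J (p b J) = e)
    (w0 : ∀ k, 0 < w k) (w1 : ∀ k, j ≤ k → k < J → 2 * a k * w k ≤ w (k + 1) ∧
      4 * lam k * w (k + 1) ≤ w k ∧ 100 * (1 + C * C') * (a k * η k) ≤ 1)
    (u1 : P J (u J) (w J) ∧ ‖q J (u J)‖ ≤ w J) (u2 : ∀ k, j ≤ k → k < J → u k = T k (u (k + 1)) + f k)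
    (f1 : ∀ k, j ≤ k → k < J → P k (f k) (w k) ∧ ‖q k (f k)‖ ≤ w k) :
    ∃ c : β → ℝ, ∑ b, |c b| ≤ 3 * C * w J ∧ ∀ k, j ≤ k → k ≤ J →
      P k (u k - ∑ b, c b • p b k) (4 * (1 + C * C') * w k) ∧
        ‖q k (u k - ∑ b, c b • p b k)‖ ≤ 2 * w k :=
  h.fast (f := Function.update f J (u J)) hj hp p1 C0 C1 s s1 s2 w0 w1 (by simp)
    (fun k h1 h2 => by rw [Function.update_of_ne h2.ne]; exact u2 k h1 h2) fun k h1 h2 => by
      rcases h2.eq_or_lt with rfl | h3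
      · rw [Function.update_self]; exact u1
      · rw [Function.update_of_ne h3.ne]; exact f1 k h1 h3

namespace Gl

variable (G : Gl)

/-- the size of a direction at level `k` -/
def S1 (ω : ℕ → ℝ) (k : ℕ) (N : ℝ) (u : Lx × Ac) : Prop := G.Sz k N N (ω k) u.1 u.2

/-- the tangent map along the run -/
def tm (b : ℝ) (I k : ℕ) : Lx × Ac → Lx × Ac :=
  G.ts k (G.zz b I (k + 1)) ((G.zz b I (k + 1)).ψ, (G.zz b I (k + 1)).K)

/-- `u` is an orbit from level `i` with the sources `f` -/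
def Ob (b : ℝ) (I i j : ℕ) (ω : ℕ → ℝ) (f u : ℕ → Lx × Ac) : Prop :=
  (∀ k, j ≤ k → k ≤ i → ∃ N, G.S1 ω k N (u k)) ∧
    ∀ k, j ≤ k → k < i → u k = G.tm b I k (u (k + 1)) + f k

/-- real and translation invariant directions -/
abbrev RE (k : ℕ) (u : Lx × Ac) : Prop := Re (G.p k) (G.N k) u.1 u.2

/-- real local maps -/
structure Lr (I k ρ : ℕ) (ω A : ℝ) (Φ : (St → ℂ) → Lx × Ac) : Prop where
  lop : G.Lop I k ρ ω A Φ
  re : ∀ F a, PS (G.N I) F → (∀ x, ‖F x‖ ≤ a) → (∀ x, (F x).im = 0) →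
    RealP (G.p k) (Φ F).1 ∧ RealA (Φ F).2

/-- the contraction of the errors -/
def cE (m i : ℕ) : ℝ := ∏ n ∈ Ico m i, 300 * G.cr n

def D0 (k : ℕ) : ℕ := G.L k ^ G.K0

def rr (k : ℕ) : ℝ := (G.sd k (G.top0 0 0)).r

variable {G} {b N N' A a a0 a1 a2 : ℝ} {I i j k ρ : ℕ} {ω w : ℕ → ℝ} {u v d : Lx × Ac}
  {f f' U U' : ℕ → Lx × Ac} {F : St → ℂ} {F' : Fin 4 → St → ℂ} {Φ : (St → ℂ) → Lx × Ac}

theorem p_D (k : ℕ) : (G.p k).D = 20 * G.D0 k := rfl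

theorem cE_top : G.cE i i = 1 := by simp [cE]

theorem cE_step (hk : k < i) : G.cE k i = 300 * G.cr k * G.cE (k + 1) i :=
  prod_eq_prod_Ico_succ_bot hk _

theorem tn_tm (h : k < i) : G.tn b I d i k = G.tm b I k (G.tn b I d i (k + 1)) := tn_step h

namespace Ok

variable (h : G.Ok)
include h

/-! ### Numbers -/

theorem nm (k : ℕ) {C : ℝ} {i j : ℕ} (hC : C ≤ 10 ^ 120) (hi : i ≤ 20) (hj : j ≤ 119) :
    C * (G.L k : ℝ) ^ i * (G.D0 k : ℝ) ^ j ≤ G.Q k :=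
  have n := (h.sd_all k (G.top0 0 0)).nu
  n.mon hC (by have := n.exps; omega) hj

theorem D1 (k : ℕ) : (1 : ℝ) ≤ G.D0 k := Nat.one_le_cast.2 (Sd.D1 (G.td k (G.top0 0 0)))

theorem LD (k : ℕ) : (G.L k : ℝ) ≤ G.D0 k := (h.sd_all k (G.top0 0 0)).nu.L_le_D

theorem Qr (k : ℕ) {m : ℕ} (hm : m ≤ 120) : G.Q (k + 1) ^ m ≤ G.rr k * G.Q k ^ m :=
  (h.sd_all k (G.top0 0 0)).nu.QM_pow hm

theorem rL (k : ℕ) {C : ℝ} {m : ℕ} (hC : C ≤ 10 ^ 120) (hm : m ≤ 100) : C * G.rr k ^ m ≤ G.L k :=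
  (h.sd_all k (G.top0 0 0)).nu.crL hC (by omega)

theorem r1 (k : ℕ) : 1 ≤ G.rr k := (h.sd_all k (G.top0 0 0)).nu.r1'

theorem Lcr (k : ℕ) : 2 ≤ G.L k * G.cr k :=
  have n := (h.sd_all k (G.top0 0 0)).nu
  le_trans (by nlinarith [n.r1']) (cr_L n)

theorem cE0 (m i : ℕ) : 0 < G.cE m i := prod_pos fun n _ => by have := h.cr0 n; positivity

/-- the errors decay like a power of the ratio of the scales -/
theorem cE_pow {C : ℝ} (C0 : 0 ≤ C) (hC : C ≤ 10 ^ 100) (hk : k ≤ i) :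
    (C ^ (i - k) * G.cE k i) ^ 40 * G.rt i k ≤ 1 := by
  refine dw_ind (P := fun k => (C ^ (i - k) * G.cE k i) ^ 40 * G.rt i k ≤ 1)
    (by simp [cE_top, rt_top]) (fun k hk ih => ?_) k hk
  have n := (h.sd_all k (G.top0 0 0)).nu
  have a1 := n.cs_le (k := 4) (by omega)
  have a2 : 600 * C ≤ G.rr k := n.cr ((mul_le_mul_of_nonneg_left hC (by norm_num)).trans (by norm_num))
  have a3 := Sd.Nu.cs0 (S := G.sd k (G.top0 0 0))
  have a4 : _ * (G.L k : ℝ) = 1 := Sd.Nu.cs_pow (S := G.sd k (G.top0 0 0))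
  have a5 : G.cr k = 2 * (G.rr k * (G.sd k (G.top0 0 0)).cs) := rfl
  have := h.r1 k
  have := h.cE0 (k + 1) i
  change G.rr k ^ 4 * _ ≤ 1 at a1
  generalize (G.sd k (G.top0 0 0)).cs = s at *
  rw [cE_step hk, h.rt_step hk, Nat.cast_mul, show i - k = i - (k + 1) + 1 by omega, a5]
  calc _ = ((600 * C * G.rr k) ^ 2 * s) ^ 20 * (s ^ 20 * G.L k) *
        ((C ^ (i - (k + 1)) * G.cE (k + 1) i) ^ 40 * G.rt i (k + 1)) := by ring
    _ ≤ 1 ^ 20 * 1 * 1 := by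
      rw [a4]
      gcongr
      exact le_trans (by rw [show G.rr k ^ 4 = (G.rr k * G.rr k) ^ 2 by ring]; gcongr) a1
    _ = 1 := by norm_num

theorem R6 (k : ℕ) : 10 ^ 6 ≤ (G.p k).R := by
  have : (G.L k : ℝ) ≤ G.D0 k := h.LD k
  have a : 10 ^ 9 ≤ G.L k := (h.sd_all k (G.top0 0 0)).nu.LL_big
  have c : G.L k ≤ G.D0 k := by exact_mod_cast this
  change _ ≤ 4 * G.D0 k
  omega

theorem t0 (I k : ℕ) : (1 : ℝ) ≤ G.rt I k := Nat.one_le_cast.2 (Nat.one_le_pow _ _ three_pos)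

theorem rt_one (k : ℕ) : G.rt (k + 1) k = G.L k := by rw [h.rt_step k.lt_succ_self, rt_top, mul_one]

theorem rt_odd (I k : ℕ) : Odd (G.rt I k) := odd3 _

/-! ### Functions on the lattices -/

theorem fd_fd (hk : k < I) : G.fd (k + 1) k (G.fd I (k + 1) F) = G.fd I k F := funext fun y => by
  rw [fd, fd, fd, h.rt_one, h.rt_step hk, smul_smul, mul_comm, Nat.cast_mul]

theorem fd_ps (hk : k ≤ I) (hF : PS (G.N I) F) : PS (G.N k) (G.fd I k F) := fun x v => by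
  rw [fd, fd, smul_add, smul_smul, ← Nat.cast_mul, h.rt_N hk, hF]

theorem fd_jet (hk : k ≤ I) (hF : Jet2 (G.N I) a0 a1 a2 F F') :
    Jet2 (G.N k) a0 (G.rt I k * a1) (G.rt I k ^ 2 * a2) (G.fd I k F)
      fun m y => G.rt I k * G.fd I k (F' m) y :=
  Jet2.up (by rwa [h.rt_N hk])

/-! ### Sizes -/

theorem s1_add (a : G.S1 ω k N u) (a' : G.S1 ω k N' v) : G.S1 ω k (N + N') (u + v) :=
  sz_add (h.ρ0 k) a a'

theorem s1_smul (a : G.S1 ω k N u) (t : ℂ) : G.S1 ω k (‖t‖ * N) (t • u) := sz_smul (h.ρ0 k) a t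

theorem s1_sub (a : G.S1 ω k N u) (a' : G.S1 ω k N' v) : G.S1 ω k (N + N') (u - v) :=
  sz_sub (h.ρ0 k) a a'

theorem s1_neg (a : G.S1 ω k N u) : G.S1 ω k N (-u) := by simpa using h.s1_smul a (-1)

theorem s1_nn (a : G.S1 ω k N u) : 0 ≤ N := ((a.1 0).1.nonneg (h.ρ0 k)).1

theorem s1_mM (a : G.S1 ω k N u) (hF : ∀ x, ‖F x‖ ≤ A) : G.S1 ω k (A * N) (mM F u) :=
  mM_eq F u ▸ sz_mT (h.ρ0 k) a hF

theorem sz_zero (k : ℕ) (ω : ℝ) : G.Sz k 0 0 ω (0 : Lx × Ac).1 (0 : Lx × Ac).2 :=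
  ⟨by simpa using pm_zero (h.ρ0 k), 0, ⟨fun _ _ => measurable_const, fun _ _ _ => rfl,
    fun _ _ _ _ _ => rfl, fun _ _ _ _ _ => rfl, fun _ _ _ _ => by simp⟩, fun _ _ => le_rfl,
    fun _ => by simp⟩

theorem s1_sum {α : Type} (s : Finset α) {x : α → Lx × Ac} {y : α → ℝ}
    (a : ∀ c ∈ s, G.S1 ω k (y c) (x c)) : G.S1 ω k (∑ c ∈ s, y c) (∑ c ∈ s, x c) := by
  induction s using Finset.cons_induction with
  | empty => exact h.sz_zero k _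
  | cons c s hc ih =>
    rw [sum_cons, sum_cons]
    exact h.s1_add (a c (mem_cons_self c s)) (ih fun e he => a e (mem_cons_of_mem he))

theorem s1_cs {α : Type} [Fintype α] {x : α → Lx × Ac} (c : α → ℝ) (a : ∀ e, G.S1 ω k N (x e)) :
    G.S1 ω k ((∑ e, |c e|) * N) (∑ e, (c e : ℂ) • x e) :=
  sum_mul _ _ N ▸ h.s1_sum _ fun e _ => by simpa using h.s1_smul (a e) (c e)

variable (ω0 : ∀ k, 0 ≤ ω k)
include ω0

theorem s1_mono (a : G.S1 ω k N u) (e : N ≤ N') : G.S1 ω k N' u := h.sz_up a (ω0 k) e e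

theorem s1_zero (e : 0 ≤ N) : G.S1 ω k N 0 := h.s1_mono ω0 (h.sz_zero k _) e

/-! ### Local maps -/

omit ω0 in
theorem D1' (k : ℕ) : 1 ≤ (G.p k).D := by
  have := Sd.D1 (G.td k (G.top0 0 0))
  change 1 ≤ G.D0 k at this
  rw [p_D]
  omega

section lop

variable (hk : k ≤ I) (hΦ : G.Lop I k ρ (ω k) A Φ)
include hk hΦ

theorem lop_sz (hp : PS (G.N I) F) (hF : ∀ x, ‖F x‖ ≤ a) : G.S1 ω k (a * A) (Φ F) :=
  Lop.sz hΦ (h.N_odd k) (h.rt_odd I k) (h.ρ0 k) (h.D1' k) (h.Q0 k).le (ω0 k) (by rwa [h.rt_N hk]) hF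

theorem lop_one : G.S1 ω k A (Φ 1) ∧ TCov (G.N k) (Φ 1).1 (Φ 1).2 :=
  ⟨one_mul A ▸ h.lop_sz ω0 hk hΦ (fun _ _ => rfl) fun _ => norm_one.le,
    Lop.tc hΦ (h.N_odd k) (h.rt_odd I k) (h.ρ0 k) (h.D1' k) (h.Q0 k).le (ω0 k)⟩

variable (hρ : ρ ≤ 2 * (G.p k).D)
include hρ

omit hk hΦ ω0 h in
theorem rad_le : ((G.p k).D + ρ : ℝ) ≤ 60 * G.D0 k := by
  rw [p_D] at *
  exact_mod_cast (by omega : 20 * G.D0 k + ρ ≤ 60 * G.D0 k)

theorem lop_mom (m : Fin 4) : G.S1 ω k (240 * G.D0 k * G.rt I k * A) (mo (G.N k) (G.rt I k) Φ m) ∧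
    TCov (G.N k) (mo (G.N k) (G.rt I k) Φ m).1 (mo (G.N k) (G.rt I k) Φ m).2 := by
  have A0 := h.s1_nn (h.lop_one ω0 hk hΦ).1
  obtain ⟨a1, a2⟩ := Lop.mom hΦ (h.N_odd k) (h.rt_odd I k) (h.ρ0 k) (h.D1' k) (h.Q0 k).le (ω0 k) m
  refine ⟨h.s1_mono ω0 a1 ?_, a2⟩
  calc _ ≤ 4 * (G.rt I k * (60 * G.D0 k)) * A := by gcongr; exact rad_le hρ
    _ = _ := by ring

theorem lop_t1 (hp : PS (G.N I) F) (hL : LipT (G.N I) a F) (a0 : 0 ≤ a) :
    G.S1 ω k (240 * G.D0 k * G.rt I k * a * A) (Φ F - mM (G.fd I k F) (Φ 1)) := by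
  have A0 := h.s1_nn (h.lop_one ω0 hk hΦ).1
  refine h.s1_mono ω0 (Lop.tay1 hΦ (h.N_odd k) (h.rt_odd I k) (h.ρ0 k) (h.D1' k) (h.Q0 k).le (ω0 k)
    (by rwa [h.rt_N hk]) (by rwa [h.rt_N hk]) a0) ?_
  calc _ ≤ 4 * (G.rt I k * (60 * G.D0 k)) * a * A := by gcongr; exact rad_le hρ
    _ = _ := by ring

theorem lop_t2 (hF : Jet2 (G.N I) a0 a1 a2 F F') (p2 : 0 ≤ a2) :
    G.S1 ω k (72000 * G.D0 k ^ 2 * G.rt I k ^ 2 * a2 * A) (Φ F - mM (G.fd I k F) (Φ 1) -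
      ∑ m, mM (G.fd I k (F' m)) (mo (G.N k) (G.rt I k) Φ m)) := by
  have A0 := h.s1_nn (h.lop_one ω0 hk hΦ).1
  refine h.s1_mono ω0 (Lop.tay2 hΦ (h.N_odd k) (h.rt_odd I k) (h.ρ0 k) (h.D1' k) (h.Q0 k).le (ω0 k)
    hρ (by rwa [h.rt_N hk])) (le_of_eq ?_)
  rw [p_D]
  push_cast
  ring

end lop

theorem lr_one (hk : k ≤ I) (hΦ : G.Lr I k ρ (ω k) A Φ) : G.S1 ω k A (Φ 1) ∧ G.RE k (Φ 1) :=
  have a := hΦ.re 1 1 (fun _ _ => rfl) (fun _ => norm_one.le) fun _ => rfl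
  ⟨(h.lop_one ω0 hk hΦ.lop).1, a.1, a.2, (h.lop_one ω0 hk hΦ.lop).2⟩

theorem lr_mom (hk : k ≤ I) (hΦ : G.Lr I k ρ (ω k) A Φ) (hρ : ρ ≤ 2 * (G.p k).D) (m : Fin 4) :
    G.S1 ω k (240 * G.D0 k * G.rt I k * A) (mo (G.N k) (G.rt I k) Φ m) ∧
      G.RE k (mo (G.N k) (G.rt I k) Φ m) := by
  have c := cdn_ok (h.N_odd I) m
  refine ⟨(h.lop_mom ω0 hk hΦ.lop hρ m).1, fun y => ?_, fun Y => ?_, (h.lop_mom ω0 hk hΦ.lop hρ m).2⟩ <;>
    simp only [mo, h.rt_N hk]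
  · exact (hΦ.re _ _ (c _).1 (c _).2.1 (c _).2.2).1 y
  · refine (hΦ.re _ (∑ y ∈ Y, G.N I) (fun x v => ?_) (fun x => ?_) fun x =>
      avS_im (fun _ => (c _).2.2 _) _).2 Y
    · simp only [(c _).1 x v]
    · rw [avS, norm_mul, norm_inv, Complex.norm_natCast]
      exact (mul_le_of_le_one_left (norm_nonneg _) (Nat.cast_inv_le_one _)).trans
        (norm_sum_le_of_le _ fun y _ => (c _).2.1 _)

/-! ### The tangent map -/

variable (R : G.Run b I j ω)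
include R

section step

variable (h1 : j ≤ k) (h2 : k < I)
include h1 h2

omit ω0 in
theorem tm_lin {x y x' y' : ℝ} (a : G.Sz (k + 1) x y (ω (k + 1)) u.1 u.2)
    (a' : G.Sz (k + 1) x' y' (ω (k + 1)) v.1 v.2) (t : ℂ) :
    G.tm b I k (u + t • v) = G.tm b I k u + t • G.tm b I k v := by
  obtain ⟨s, -, -, g, -⟩ := R k h1 h2
  have n := (h.sd_all k (G.zz b I (k + 1))).nu
  have d := g.dir n (h.sz_fine _ a)
  have d' := g.dir n (h.sz_fine _ a')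
  refine Prod.ext ?_ ((dK_add n s g.rm d (d'.smul n t)).trans (congrArg _ (dK_smul ..)))
  obtain ⟨_, _, _, p1, p2, -⟩ := d
  obtain ⟨_, _, _, q1, q2, -⟩ := d'
  exact s.lin _ _ _ _ _ _ _ _ t p1 q1 p2 q2

omit ω0 in
theorem tm_zero : G.tm b I k 0 = 0 := by
  simpa using h.tm_lin R h1 h2 (h.sz_zero _ _) (h.sz_zero _ _) 1

omit ω0 in
theorem tm_s1 (a : G.S1 ω (k + 1) N u) (N0 : 0 < N) : G.S1 ω k (1.01 * N) (G.tm b I k u) :=
  let ⟨s, _, e, g, _⟩ := R k h1 h2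
  g.step1 (h.sd_all k _).nu s (h.sz_fine _ a) N0 e

omit ω0 in
theorem om_q {m : ℕ} (hm : m < 100) : 1000 * (G.Q k ^ m * ω (k + 1)) ≤ 1 :=
  qom (h.sd_all k (G.zz b I (k + 1))).nu (R k h1 h2).2.2.2.1.hi hm

omit ω0 in
theorem tm_lop (a : G.S1 ω (k + 1) N u) (t : TCov (G.N (k + 1)) u.1 u.2) (N0 : 0 < N) :
    G.Lop (k + 1) k (G.D0 k + 1) (ω k) (1.01 * N) (fun F => G.tm b I k (mM F u)) ∧
      G.tm b I k (mM 1 u) = G.tm b I k u := by
  obtain ⟨s, -, e, g, c⟩ := R k h1 h2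
  have n := h.sd_nf k (G.zz b I (k + 1))
  rw [Lop, h.rt_one]
  exact lop_ts (h.sd_all k _).nu s g (n ▸ c) (h.sz_fine _ a) (n ▸ t) N0 e

omit ω0 in
theorem tm_real {x y : ℝ} (T : G.Tu b I) (a : G.Sz (k + 1) x y (ω (k + 1)) u.1 u.2)
    (r1 : RealP (G.p (k + 1)) u.1) (r2 : RealA u.2) :
    RealP (G.p k) (G.tm b I k u).1 ∧ RealA (G.tm b I k u).2 := by
  obtain ⟨s, -, -, g, -⟩ := R k h1 h2
  have n := (h.sd_all k (G.zz b I (k + 1))).nu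
  have := pl_real n s g.rm (g.dir n (h.sz_fine _ a)) (by rw [h.sd_nf]; exact (T.gd _ h2).dt.re) r1 r2
  exact this

omit ω0 in
theorem tm_lr (T : G.Tu b I) (a : G.S1 ω (k + 1) N u) (t : G.RE (k + 1) u) (N0 : 0 < N) :
    G.Lr (k + 1) k (G.D0 k + 1) (ω k) (1.01 * N) fun F => G.tm b I k (mM F u) :=
  ⟨(h.tm_lop R h1 h2 a t.2.2 N0).1, fun _ _ _ c r => h.tm_real R h1 h2 T (h.s1_mM a c)
    (mM_real t.1 t.2.1 r).1 (mM_real t.1 t.2.1 r).2⟩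

omit h1 h2 R ω0 in
theorem D_two : G.D0 k + 1 ≤ 2 * (G.p k).D := by have := h.D1' k; rw [p_D] at *; omega

/-- the step almost commutes with a slowly varying factor -/
theorem tm_t1 (a : G.S1 ω (k + 1) N u) (t : TCov (G.N (k + 1)) u.1 u.2) (N0 : 0 < N)
    (hp : PS (G.N I) F) (hL : LipT (G.N I) a1 F) (p1 : 0 ≤ a1) :
    G.S1 ω k (250 * G.D0 k * G.rt I k * a1 * N)
      (G.tm b I k (mM (G.fd I (k + 1) F) u) - mM (G.fd I k F) (G.tm b I k u)) := by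
  obtain ⟨c1, c2⟩ := h.tm_lop R h1 h2 a t N0
  have := h.lop_t1 ω0 k.le_succ c1 h.D_two (h.fd_ps h2 hp) (h.fd_lip hL _ h2) (by positivity)
  rw [c2, h.fd_fd h2, h.rt_one] at this
  refine h.s1_mono ω0 this ?_
  rw [h.rt_step h2]
  push_cast
  nlinarith [show 0 ≤ G.D0 k * (G.L k * G.rt I (k + 1)) * a1 * N by positivity]

end step

/-! ### Orbits -/

variable (hi : i ≤ I)
include hi

omit ω0 in
theorem ob_add (a : G.Ob b I i j ω f U) (a' : G.Ob b I i j ω f' U') (t : ℂ) :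
    G.Ob b I i j ω (f + t • f') (U + t • U') :=
  ⟨fun k h1 h2 => let ⟨_, c⟩ := a.1 k h1 h2; let ⟨_, c'⟩ := a'.1 k h1 h2
    ⟨_, h.s1_add c (h.s1_smul c' t)⟩, fun k h1 h2 => by
    obtain ⟨_, c⟩ := a.1 (k + 1) (by omega) h2
    obtain ⟨_, c'⟩ := a'.1 (k + 1) (by omega) h2
    simp only [Pi.add_apply, Pi.smul_apply]
    rw [h.tm_lin R h1 (h2.trans_le hi) c c', a.2 k h1 h2, a'.2 k h1 h2, smul_add]
    abel⟩

omit ω0 in
theorem ob_sub (a : G.Ob b I i j ω f U) (a' : G.Ob b I i j ω f' U') :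
    G.Ob b I i j ω (f - f') (U - U') := by
  simpa [sub_eq_add_neg] using h.ob_add R hi a a' (-1)

omit ω0 in
theorem ob_zero : G.Ob b I i j ω 0 0 :=
  ⟨fun k _ _ => ⟨0, h.sz_zero k _⟩, fun k h1 h2 => by simp [h.tm_zero R h1 (h2.trans_le hi)]⟩

omit ω0 in
theorem ob_sum {α : Type} (s : Finset α) (c : α → ℂ) {f U : α → ℕ → Lx × Ac}
    (a : ∀ e, G.Ob b I i j ω (f e) (U e)) :
    G.Ob b I i j ω (∑ e ∈ s, c e • f e) (∑ e ∈ s, c e • U e) := by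
  induction s using Finset.cons_induction with
  | empty => exact h.ob_zero R hi
  | cons e s he ih =>
    rw [sum_cons, sum_cons, add_comm (c e • f e), add_comm (c e • U e)]
    exact h.ob_add R hi ih (a e) _

theorem ob_mk (a : G.S1 ω i N (U i)) (hf : ∀ k, j ≤ k → k < i → ∃ N, G.S1 ω k N (f k))
    (e : ∀ k, j ≤ k → k < i → U k = G.tm b I k (U (k + 1)) + f k) : G.Ob b I i j ω f U :=
  ⟨down ⟨_, a⟩ fun k h1 h2 ⟨M, c⟩ => let ⟨_, c'⟩ := hf k h1 h2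
    ⟨_, e k h1 h2 ▸ h.s1_add (h.tm_s1 R h1 (h2.trans_le hi)
      (h.s1_mono ω0 c (le_add_of_nonneg_right zero_le_one)) (by linarith [h.s1_nn c])) c'⟩, e⟩

theorem ob_ex (a : G.S1 ω i N d) (hf : ∀ k, j ≤ k → k < i → ∃ N, G.S1 ω k N (f k)) :
    ∃ U, U i = d ∧ G.Ob b I i j ω f U :=
  ⟨dw (fun k u => G.tm b I k u + f k) d i, dw_top .., h.ob_mk ω0 R hi (by rwa [dw_top]) hf
    fun _ _ h2 => dw_step _ _ h2⟩

theorem ob_tn (a : G.S1 ω i N d) : G.Ob b I i j ω 0 (G.tn b I d i) :=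
  h.ob_mk ω0 R hi (by rwa [Gl.tn_top]) (fun k _ _ => ⟨0, h.sz_zero k _⟩) fun _ _ h2 =>
    (tn_tm h2).trans (add_zero _).symm

/-- the growth of an arbitrary direction -/
theorem tn_grow (a : G.S1 ω i N d) (N0 : 0 < N) :
    ∀ k, j ≤ k → k ≤ i → G.S1 ω k (1.01 ^ (i - k) * N) (G.tn b I d i k) :=
  down (by simpa [Gl.tn_top] using a) fun k h1 h2 c => by
    rw [tn_tm h2, show i - k = i - (k + 1) + 1 by omega, pow_succ', mul_assoc]
    exact h.tm_s1 R h1 (h2.trans_le hi) c (by positivity)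

/-- sources which grow along the flow dominate the orbit -/
theorem ob_sz (a : G.Ob b I i j ω f U) (w0 : ∀ k, 0 < w k)
    (w1 : ∀ k, j ≤ k → k < i → 2 * w (k + 1) ≤ w k) (t : G.S1 ω i (w i) (U i))
    (hf : ∀ k, j ≤ k → k < i → G.S1 ω k (w k) (f k)) :
    ∀ k, j ≤ k → k ≤ i → G.S1 ω k (3 * w k) (U k) :=
  down (h.s1_mono ω0 t (by linarith [w0 i])) fun k h1 h2 c => a.2 k h1 h2 ▸ h.s1_mono ω0
    (h.s1_add (h.tm_s1 R h1 (h2.trans_le hi) c (by linarith [w0 (k + 1)])) (hf k h1 h2))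
    (by linarith [w1 k h1 h2, w0 (k + 1)])

/-- an orbit with a slowly varying factor -/
theorem ob_mul (a : G.Ob b I i j ω f U) (a' : G.Ob b I i j ω (fun k => mM (G.fd I k F) (f k)) U')
    (hp : PS (G.N I) F) (hF : ∀ x, ‖F x‖ ≤ a0) (hL : LipT (G.N I) a1 F) (p1 : 0 < a1)
    (w0 : ∀ k, 0 < w k) (w1 : ∀ k, j ≤ k → k < i → 2 * w (k + 1) ≤ G.L k * w k)
    (c : ∀ k, j ≤ k → k ≤ i → G.S1 ω k (w k) (U k) ∧ TCov (G.N k) (U k).1 (U k).2)
    (t : G.S1 ω i (G.Q i * (G.rt I i * a1 * w i)) (U' i - mM (G.fd I i F) (U i))) :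
    ∀ k, j ≤ k → k ≤ i → G.S1 ω k (w k * (a0 + 3 * G.Q i * (G.rt I k * a1))) (U' k) := by
  have z := h.ob_sub R hi a' (f' := fun k => mM (G.fd I k F) (U k) -
      G.tm b I k (mM (G.fd I (k + 1) F) (U (k + 1)))) (U' := fun k => mM (G.fd I k F) (U k))
    ⟨fun k h1 h2 => ⟨_, h.s1_mM (c k h1 h2).1 fun _ => hF _⟩, fun k _ _ => by simp⟩
  have Qi := h.Q0 i
  intro k h1 h2
  have q := h.ob_sz ω0 R hi z (w := fun k => G.Q i * (G.rt I k * a1 * w k)) (fun k => by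
      have := h.t0 I k; have := w0 k; positivity) (fun k h1 h2 => by
      have := h.t0 I (k + 1)
      rw [h.rt_step (h2.trans_le hi), Nat.cast_mul]
      nlinarith [mul_le_mul_of_nonneg_left (w1 k h1 h2)
        (show 0 ≤ G.Q i * G.rt I (k + 1) * a1 by positivity)]) t (fun k h1 h2 => by
      have := w0 (k + 1)
      have n1 := (h.nm k (C := 125) (i := 1) (j := 1) (by norm_num) (by norm_num)
        (by norm_num)).trans (h.Q_mono h2.le)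
      refine h.s1_mono ω0 (by
        convert h.tm_t1 ω0 R h1 (h2.trans_le hi) (c _ (by omega) h2).1 (c _ (by omega) h2).2 this hp hL
          p1.le using 1
        simp [a.2 k h1 h2]
        abel) ?_
      have := h.D1 k; have := w0 k; have := h.t0 I k
      calc _ = 125 * G.D0 k * G.rt I k * a1 * (2 * w (k + 1)) := by ring
        _ ≤ 125 * G.D0 k * G.rt I k * a1 * (G.L k * w k) :=
          mul_le_mul_of_nonneg_left (w1 k h1 h2) (by positivity)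
        _ = 125 * G.L k ^ 1 * G.D0 k ^ 1 * (G.rt I k * a1 * w k) := by ring
        _ ≤ _ := by gcongr) k h1 h2
  have r := h.s1_add q (h.s1_mM (F := G.fd I k F) (c k h1 h2).1 fun _ => hF _)
  simp only [Pi.sub_apply, sub_add_cancel] at r
  exact h.s1_mono ω0 r (le_of_eq (by ring))

end Ok

end Gl

end Pool.Agent.Lib.MP_7f377f_mp.RG.Q4.En
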