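import Pool.Agent.Lib.MP_7f377f_mp.G.CaX
import Pool.Agent.Lib.MP_7f377f_mp.G.CaA2
import Pool.Agent.Lib.MP_7f377f_mp.G.CaF
import Pool.Agent.Lib.MP_7f377f_mp.G.CaG
import Pool.Agent.Lib.MP_7f377f_mp.G.CaDef
import Pool.Agent.Lib.MP_7f377f_mp.G.ObM
import Pool.Agent.Lib.MP_7f377f_mp.G.StM
import Pool.Agent.Lib.MP_7f377f_mp.G.StV8a

/-! Lattice fields and their correlation functions. -/

noncomputable section

open Pool.Agent.Lib.MP_7f377f_mp.Jet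

set_option linter.unusedSectionVars false
variable [Pool.Agent.Lib.MP_7f377f_mp.GD]

namespace Pool.Agent.Lib.MP_7f377f_mp.Ob

open MeasureTheory YM7 Pur
open scoped Classical

variable (n : ℕ) [NeZero n] [MeasurableSpace SU2] [BorelSpace SU2] (h : Measure SU2)
  [h.IsHaarMeasure] [IsProbabilityMeasure h] (b a : ℝ)

variable {n h b a} in
theorem int_mul {O : Cfg n → ℂ} (hO : Integrable O (wilson h b n)) (Z : Pol) :
    Integrable (fun U => O U * evc h b n a Z U) (wilson h b n) :=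
  hO.mul_bdd (cont_evc Z).aestronglyMeasurable (.of_forall
    (BoundedContinuousFunction.mkOfCompact ⟨_, cont_evc Z⟩).norm_coe_le_norm)

/-- correlations of an observable with the smeared fields -/
def iw (O : Cfg n → ℂ) : Pol →ₗ[ℂ] ℂ := if hO : Integrable O (wilson h b n) then
  { toFun := fun Z => ∫ U, O U * evc h b n a Z U ∂wilson h b n
    map_add' := fun Y Z => by
      simp only [map_add, Pi.add_apply, mul_add, integral_add (int_mul hO Y) (int_mul hO Z)]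
    map_smul' := fun c Z => by
      simp only [map_smul, Pi.smul_apply, mul_smul_comm, integral_smul, RingHom.id_apply] }
  else 0

/-- the lattice state -/
def lex : Pol →ₗ[ℂ] ℂ := iw n h b a 1

/-- truncated correlations -/
def ins (O : Cfg n → ℂ) : Pol →ₗ[ℂ] ℂ := iw n h b a O - (∫ U, O U ∂wilson h b n) • lex n h b a

end Pool.Agent.Lib.MP_7f377f_mp.Ob

namespace Pool.Agent.Lib.MP_7f377f_mp.RG.Q4.En

open Finset Function Sg Real Pos Mg MeasureTheory Filter YM7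
open scoped Classical

instance : (Fi.tr haar).IsHaarMeasure := inferInstanceAs haar.IsHaarMeasure

/-- test functions with gradients -/
abbrev Tj : Type := Option (Fin 4) → St → ℂ

/-- sampling -/
def jet (n : ℕ) (a : ℝ) (f : R4 → ℝ) : Tj := fun o x =>
  (o.elim (f (xp a (Fi.cst n x))) fun m => a * Fx.pd m f (xp a (Fi.cst n x)) : ℝ)

/-- reflection -/
def Tj.rf (μ : Fin 4) (T : Tj) : Tj := fun o x =>
  (if o = some μ then -1 else 1) * T o (update x μ (-x μ))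

/-- classes of test functions -/
structure Tj.Cl (n e : ℕ) (P : Tj → Prop) : Prop where
  bd : ∀ T, P T → ∀ o, PS n (T o) ∧ ∀ x, ‖T o x‖ ≤ 1 ∧ (T o x).im = 0
  rf : ∀ T, P T → ∀ μ, P (T.rf μ)
  tr : ∀ T, P T → ∀ v : St, P fun o x => T o (x + (e : ℤ) • v)

/-- the support lies in the cell `c` of side `w` at distance `δ` from the walls -/
def Tj.In (n : ℕ) (a w δ : ℝ) (c : Fin 4 → ℤ) (T : Tj) : Prop :=
  ∀ o x, T o x ≠ 0 → ∀ l, c l * w + δ ≤ a * rc n x l ∧ a * rc n x l ≤ (c l + 1) * w - δ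

/-- normalised test functions, of first or second order -/
structure Tj.Nm (n : ℕ) (a : ℝ) (r : Prop) (T : Tj) : Prop where
  bd : ∀ o, PS n (T o) ∧ ∀ x, ‖T o x‖ ≤ 1 ∧ (T o x).im = 0
  lip : LipT n a (T none)
  bd' : ∀ m x, ‖T (some m) x‖ ≤ a
  two : r → Jet2 n 1 a (a ^ 2) (T none) fun m => T (some m)

/-- lattice fields: letters `T` and the action density at the top, words, letters of the block
field -/
structure Vf (Ω κ α : Type) where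
  T : Option (Fin 4) → Wd.Let
  c0 : ℝ
  S : Wx Unit Ω κ α
  z : Ω → St
  w : Ω → ℝ
  s : α → Option (Fin 4)
  c : α → ℝ

variable {γ Ω κ α : Type} [Fintype γ] [DecidableEq γ] [DecidableEq Ω] [Fintype κ] [DecidableEq κ]
  [Inhabited κ] [Fintype α]

/-- the source at the top -/
def Vf.P (D : Vf Ω κ α) (n : ℕ) (T : Tj) : Sx :=
  ∑ o, lS (Wd.evG (D.T o)) (Wd.lx (D.T o)) (T o) + (D.c0 : ℂ) • (Wd.cav n (T none), 0, 0)

/-- the part of the observable on the fine lattice -/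
def Vf.Y (D : Vf Ω κ α) (n : ℕ) (T : Tj) (U : Conf) : ℂ :=
  -xO n (D.P n T) U + ∑ ω ∈ D.S.Om, T none (D.z ω) * D.w ω * D.S.wo n ω U

namespace Gl

variable (G : Gl) (b : ℝ) (J k j : ℕ)

/-- the part on the block lattice -/
def vC (D : Vf Ω κ α) (T : Tj) (W : Conf) : ℂ :=
  -∑ x, D.c x * Wd.sm (G.N k) (D.S.X x) (G.fd J k (T (D.s x))) W

/-- the observable -/
def vO (D : Vf Ω κ α) (T : Tj) (U : Conf) : ℂ := D.Y (G.N J) T U + G.ta (G.vC J k D T) J k U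

/-- the direction at level `k` -/
def vT (D : Vf Ω κ α) (T : Tj) : Lx × Ac := G.tn b J (G.xv b J (D.P (G.N J) T)) J k +
  (0, ∑ ω ∈ D.S.Om, (T none (D.z ω) * D.w ω) • G.wX b J k D.S ω) +
    ∑ x, (D.c x : ℂ) • G.cl b J k (D.S.X x) (G.fd J k (T (D.s x)))

/-- the centring at level `j` -/
def ct (Y C : Conf → ℂ) : ℂ := (G.tt (fun U => Y U * wil b (G.N J) U) J j 1 +
  G.tt (fun W => C W * G.f b J k W) k j 1) / G.f b J j 1

/-- fields of weight `w` on the class `P` -/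
structure Vk (c d : ℕ) (C A : ℝ) (σ : ℕ → ℝ) (P : Tj → Prop) (D : Vf Ω κ α) (w : ℝ) : Prop where
  w0 : 0 < w
  mx : G.Mx b J k D.S c d C A (fun _ => 2) σ fun _ _ => 1
  wt : ∃ Wt, (∀ y, ∑ ω ∈ D.S.Om.filter (y ∈ D.S.X0 ·), |D.w ω| ≤ Wt) ∧
    G.Q k ^ 331 * (G.cM k c C * Wt) ≤ σ (k + 1) ^ Fintype.card κ * (w * G.rt k j ^ 2)
  rd : ∀ o, Wd.Rad d (D.T o) ∧ Wd.Re (D.T o)
  ok : ∀ T, P T → ∃ a M, (D.P (G.N J) T).Ok (G.p J) d a M ∧
    a + M ≤ w * G.rt k j ^ 2 * 2 ^ (J - k)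
  iv : Mx.Iv G J k D.S D.w D.z
  lc : ∀ ω ∈ D.S.Om, ∃ R : ℕ, (R : ℝ) ≤ G.Q k * G.rt J k ∧
    (∀ l, D.S.V ω l ⊆ tb (G.N J) R {D.z ω}) ∧ D.S.X0 ω ⊆ G.zs (tb (G.N J) R {D.z ω}) J k
  re : ∀ x, Wd.Re (D.S.X x)
  cf : ∀ T, P T → ∀ y, G.Q k ^ 400 * ∑ x, |D.c x| * ‖G.fd J k (T (D.s x)) y‖ ≤ w * G.rt k j ^ 2
  top : ∀ T, P T → ∀ l, k < l → l ≤ J → G.S1 (fun l => (G.Q l ^ 100)⁻¹) l
    (w * G.rt k j ^ 2 * 2 ^ (l - k)) (G.tn b J (G.xv b J (D.P (G.N J) T)) J l)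
  low : ∀ T, P T → ∀ l, j ≤ l → l ≤ k → G.S1 (fun l => (G.Q l ^ 100)⁻¹) l (w * G.rt l j ^ 2)
    (G.tn b J (G.vT b J k D T) k l)

/-- the mirror images of a field -/
def Vr (D : (Fin 4 → Bool) → Vf Ω κ α) : Prop := ∀ ε μ T, (∀ o, PS (G.N J) (T o)) →
  (∀ U, Per (G.N J) U → (D (update ε μ !ε μ)).Y (G.N J) (T.rf μ) U =
    (D ε).Y (G.N J) T (Ty.cf (.inr μ) U)) ∧
  ∀ W, Per (G.N k) W → G.vC J k (D (update ε μ !ε μ)) (T.rf μ) W =
    G.vC J k (D ε) T (Ty.cf (.inr μ) W)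

variable {G b J k j} {S : Wx γ Ω κ α} {c d : ℕ} {C A Wt N : ℝ} {m m' : ℕ → ℕ} {σ : ℕ → ℝ}
  {ρ r : ℕ → γ → ℝ} {w : Ω → ℂ}

variable (G) (β : ℕ × ℕ → ℝ)

/-- the states of the run -/
def vE (p : ℕ × ℕ) : Pur.Pol →ₗ[ℂ] ℂ := Ob.lex (G.nn p) (Fi.tr haar) (β p) (G.aa p)

/-- the insertions -/
def vI (p : ℕ × ℕ) (O : Conf → ℂ) : Pur.Pol →ₗ[ℂ] ℂ :=
  Ob.ins (G.nn p) (Fi.tr haar) (β p) (G.aa p) fun U => O (Fi.lf U)

/-- the mean -/
def vM (p : ℕ × ℕ) (O : Conf → ℂ) : ℂ := ∫ U, O (Fi.lf U) ∂YM7.wilson (Fi.tr haar) (β p) (G.nn p)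

end Gl

end Pool.Agent.Lib.MP_7f377f_mp.RG.Q4.En
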