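import Pool.Agent.Lib.MP_7f377f_mp.G.CaH

/-! Centred moments of the fillings of the cells. -/

noncomputable section

open Pool.Agent.Lib.MP_7f377f_mp.Jet

set_option linter.unusedSectionVars false
variable [Pool.Agent.Lib.MP_7f377f_mp.GD]

namespace Pool.Agent.Lib.MP_7f377f_mp.RG.Q4.En

open Finset Function Sg Real Pos Mg MeasureTheory Filter YM7
open scoped Classical

variable {γ Ω κ α : Type} [Fintype γ] [DecidableEq γ] [DecidableEq Ω] [Fintype κ] [DecidableEq κ]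
  [Inhabited κ] [Fintype α]

theorem gi_neg {n : ℕ} {f : Conf → ℂ} (h : GI n f) : GI n fun U => -f U := by
  simpa only [neg_one_mul] using (GI.const n (-1)).mul h

theorem gi_sm (m n : ℕ) (X : Wd.Let) (F : St → ℂ) : GI m (Wd.sm n X F) :=
  Br.gi_cont (Wd.sm_cont n X F) fun u U => by simp only [Wd.sm, Ms.sh_gauge, Wd.evG_gauge]

theorem lf_sm1 {n d : ℕ} {X : Wd.Let} {F : St → ℂ} {Z : Finset St} (hX : Wd.Rad d X)
    (e : ∀ y, F y ≠ 0 → tb n (d + 1) {y} ⊆ Z) : Mg.LF n Z fun U => Wd.sm n X F (pc n U) := by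
  refine ⟨(gi_sm n n X F).1.comp (Cov.meas_pc n), fun U => by rw [pc_pc'], fun U U' a => ?_,
    fun u U hu => by rw [Mx.pc_gauge (Mx.PS_iff.1 hu), (gi_sm n n X F).2.2 u _ hu (Mx.per_pc n U)]⟩
  refine sum_congr rfl fun x _ => ?_
  by_cases z : F x = 0
  · simp only [z, zero_mul]
  refine congrArg _ (Wd.evG_agr hX fun l hl => ?_)
  have m : ∀ y ∈ box (d + 1), rc n (y + x) ∈ Z := fun y hy =>
    e x z (mem_tb_single.2 ⟨rc_rc _ _, nearT_rc_right.2 (add_comm x y ▸ nearT_add hy)⟩)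
  have := mem_lbox.1 hl
  refine a (rc n (l.1 + x), l.2) ⟨?_, ?_⟩
  · rw [rc_rc]; exact m _ (box_mono (by omega) this)
  · rw [rc_add_rc, add_right_comm]; exact m _ (add_un_mem_box this _)

theorem int_cen {n m : ℕ} {w : Conf → ℂ} {X : γ → Conf → ℂ} (hw : GI m w) (hX : ∀ q, GI m (X q))
    (t : γ → ℂ) (B : Finset γ) : ∫ U, w (pc n U) * ∏ q ∈ B, (X q (pc n U) - t q) ∂PP =
      ∑ T ∈ B.powerset, (∏ q ∈ B \ T, -t q) * ∫ U, w (pc n U) * ∏ q ∈ T, X q (pc n U) ∂PP := by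
  simp only [← integral_const_mul]
  rw [← integral_finset_sum _ fun T _ =>
    (Br.bc_int (Br.gi_bc (hw.mul (GI.prod (s := T) fun q _ => hX q))) n).const_mul _]
  refine integral_congr_ae (.of_forall fun U => ?_)
  simp only [sub_eq_add_neg, prod_add, mul_sum]
  exact sum_congr rfl fun T _ => by ring

namespace Gl

variable {G : Gl} {b N : ℝ} {J k j : ℕ}

/-- the coefficients of the insertions -/
def pa (G : Gl) (b : ℝ) (J k : ℕ) (Y C : γ → Conf → ℂ) (T : Finset γ) (W : Conf) : ℂ :=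
  ∑ N ∈ T.powerset, (∏ q ∈ N, C q W) * G.tt (fun U => (∏ q ∈ T \ N, Y q U) * wil b (G.N J) U) J k W

namespace Ok

variable (h : G.Ok)
include h

/-- the first jet at the flat field -/
theorem fill1 {J' : ℕ} {z : Z} {r0 r : γ → ℝ} {θ : ℝ} {Y : Fy γ} {f : (γ → ℂ) → Conf → ℂ}
    (t : G.Tz J' j z) (e : G.Fd j z univ r0 r θ Y f) (hθ : G.Q j ^ 100 * θ ≤ 1) {q : γ}
    (hN : (Y.Z q).card ≤ N) : ‖jd {q} (f · 1) / f 0 1 - jd {q} Y.E‖ ≤ exp N * (r q)⁻¹ := by
  have p := e.fi.pos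
  have a' := e.eq.eqv (U := 1) fun _ => rfl
  simp only [h.fd_flat t e] at a'
  have n0 := h.fd_ne t e hθ (zero_mem p)
  have θ0 := e.fi.km.choose_spec.1.nonneg
  have u : SH r (exp N)
      fun s => Sg.zf (G.N j) (Y.K (cutS {q} s)) / Sg.zf (G.N j) (Y.K 0) := by
    refine (h.fd_ratio t e hθ {q}).1.mono (exp_le_exp.2 ?_)
    have a2 := mul_le_mul_of_nonneg_right ((h.cQ j (C := 4) (by norm_num)).trans
      (le_self_pow₀ (h.Q1 j) (n := 100) (by norm_num))) θ0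
    rw [singleton_biUnion]
    exact (mul_le_of_le_one_left (by positivity) (a2.trans hθ)).trans hN
  have k := jd_mul (sh_lin p {q} fun q => jd {q} Y.E).exp u {q}
  rw [show powerset {q} = {∅, {q}} from rfl, sum_pair (singleton_ne_empty q).symm,
    jd_exp_lin _ (empty_subset _), jd_exp_lin _ Subset.rfl, sdiff_empty, sdiff_self] at k
  simp only [prod_empty, prod_singleton, bot_eq_empty, one_mul, jd_empty, cut_zero, div_self n0,
    mul_one] at k
  rw [Ob.mo_eqv (m := fun T => jd T (f · 1) / f 0 1) (fun _ => rfl) a' e.ma {q},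
    show jd {q} (fun s => Complex.exp (ma univ (ce Y.E) s) * (Sg.zf (G.N j) (Y.K s) /
      Sg.zf (G.N j) (Y.K 0))) = _ from Eq.trans ?_ k, add_sub_cancel_right]
  · simpa only [prod_singleton, div_eq_mul_inv] using u.jd_le {q}
  rw [jd_single, jd_single]
  simp only [Pi.mul_apply, ma_single (mem_univ q), ce, if_true, if_neg (singleton_ne_empty q),
    sum_singleton, Pi.single_eq_same, zero_add, smul_eq_mul,
    show ∀ t, cutS {q} (Pi.single q t) = Pi.single q t from fun t =>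
    funext fun i => by by_cases v : i = q <;> simp [cutS, v]]

variable {Y C : γ → Conf → ℂ} (hk : k ≤ J) (hY : ∀ q, GI (G.N J) (Y q)) (hC : ∀ q, GI (G.N k) (C q))
include hk

theorem pa_zero : G.pa b J k Y C ∅ = G.f b J k := funext fun W => by
  simp [pa, h.f_tt b hk]

include hY hC

theorem gi_pa (T : Finset γ) : GI (G.N k) (G.pa b J k Y C T) :=
  GI.sum fun _ _ => (GI.prod fun q _ => hC q).mul
    (h.int_tt ((GI.prod fun q _ => hY q).mul (gi_wil _)) hk).1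

theorem pa_one (hj : j ≤ k) (q : γ) :
    G.tt (G.pa b J k Y C {q}) k j 1 / G.f b J j 1 = G.ct b J k j (Y q) (C q) := by
  have : G.pa b J k Y C {q} = fun W => G.tt (fun U => Y q U * wil b (G.N J) U) J k W +
      C q W * G.f b J k W := funext fun W => by
    rw [pa, show powerset {q} = {∅, {q}} from rfl, sum_pair (singleton_ne_empty q).symm]
    simp [h.f_tt b hk]
  rw [this, tt_add (Br.gi_bc (h.int_tt ((hY q).mul (gi_wil _)) hk).1)
    (Br.gi_bc ((hC q).mul (h.f_tt b hk ▸ (h.int_tt (gi_wil _) hk).1))) hj, tt_tt hk j hj, ct]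

variable {V : γ → Finset St} (hL : ∀ q, Mg.LF (G.N k) (V q) fun U => C q (pc (G.N k) U))
include hL

theorem gi_ta (q : γ) : GI (G.N J) (G.ta (C q) J k) := by
  have b := Br.gi_bc (hC q)
  have a := h.ta_lf hk (P := fun U => C q (pc (G.N k) U))
    ⟨(hL q).meas, b.2.imp fun _ a _ => a _⟩ (hL q)
  rw [h.ta_congr hk fun U hU => congrArg (C q) (Sh.pc_per hU)] at a
  exact ⟨a.meas, (h.ta_bc hk b).2, fun u U hu _ => a.gi u U hu⟩

theorem pa_int (d : ∀ q q', q ≠ q' → Disjoint (tb (G.N k) 2 (V q)) (tb (G.N k) 2 (V q')))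
    (T : Finset γ) : ∫ W, G.pa b J k Y C T (pc (G.N k) W) ∂PP = ∫ U, wil b (G.N J) (pc (G.N J) U) *
      ∏ q ∈ T, (Y q (pc (G.N J) U) + G.ta (C q) J k (pc (G.N J) U)) ∂PP := by
  have a : ∀ N : Finset γ, GI (G.N J) fun U => (∏ q ∈ T \ N, Y q U) * wil b (G.N J) U := fun N =>
    (GI.prod fun q _ => hY q).mul (gi_wil _)
  have c : ∀ N : Finset γ, GI (G.N k) fun U => ∏ q ∈ N, C q U := fun N => GI.prod fun q _ => hC q
  have e : ∀ N : Finset γ, G.ta (fun U => ∏ q ∈ N, C q U) J k =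
      fun U => ∏ q ∈ N, G.ta (C q) J k U := fun N => by
    rw [h.ta_congr hk (P' := fun U => ∏ q ∈ N, C q (pc (G.N k) U)) fun U hU => by
      rw [Sh.pc_per hU], h.ta_prod hk (fun q _ => ⟨⟨(hL q).meas, (hC q).2.1.imp fun _ a _ => a _⟩,
        hL q⟩) fun q _ q' _ => d q q']
    exact funext fun U => prod_congr rfl fun q _ =>
      congrFun (h.ta_congr hk fun U hU => congrArg (C q) (Sh.pc_per hU)) U
  simp only [pa]
  rw [integral_finset_sum _ fun N _ => Br.bc_int (Br.gi_bc ((c N).mul (h.int_tt (a N) hk).1)) _]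
  simp only [mul_comm (∏ q ∈ _, C q _), fun N => h.ta_dual hk (Br.gi_bc (a N)) (Br.gi_bc (c N)), e]
  rw [← integral_finset_sum _ fun N _ => Br.bc_int (Br.gi_bc ((a N).mul
    (GI.prod (s := N) fun q _ => h.gi_ta hk hY hC hL q))) _]
  refine integral_congr_ae (.of_forall fun U => ?_)
  simp only [add_comm (Y _ _), prod_add, mul_sum]
  exact sum_congr rfl fun T _ => by ring

end Ok

variable {S : Wx γ Ω κ α} {c d : ℕ} {C A Wt : ℝ} {m m' : ℕ → ℕ} {σ : ℕ → ℝ} {ρ r : ℕ → γ → ℝ}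
  {w : Ω → ℂ}

/-- the centring of a single source -/
theorem Ok.ct_ex (h : G.Ok) (t : G.Tu b J) (hp : G.Pu) {F : Sx} {W : Finset St} {r : ℕ → ℝ}
    (hj : j ≤ J) (hd : d ≤ (G.p J).R) (hZ : F.In (G.N J) W)
    (hF : ∃ a M, F.Ok (G.p J) d a M ∧ r J * a ≤ G.bb J / 4 ∧ r J * M ≤ 1)
    (sz : ∀ l, j ≤ l → l ≤ J → ∃ N, G.Q l ^ 223 * (r l * N) ≤ G.bb l ∧
      G.S1 (fun l => (G.Q l ^ 100)⁻¹) l N (G.tn b J (G.xv b J F) J l))
    (rad : ∀ l, j ≤ l → l ≤ J → 1 ≤ m l ∧ 40 * (m l : ℝ) ≤ G.Q l ∧ 0 < r l ∧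
      (l < J → r l ≤ m l * r (l + 1))) (card : (G.zs W J j).card ≤ N) :
    ‖G.tt (fun U => -xO (G.N J) F U * wil b (G.N J) U) J j 1 / G.f b J j 1 - G.ex b J j F‖ ≤
      exp N * (r j)⁻¹ := by
  obtain ⟨i, hi, mn⟩ := (Icc j J).exists_min_image r ⟨j, mem_Icc.2 ⟨le_rfl, hj⟩⟩
  have p := (rad i (mem_Icc.1 hi).1 (mem_Icc.1 hi).2).2.2.1
  have e := h.xt_fd (A := univ) (F := fun _ : Unit => F) (W := fun _ => W) t hd
    (fun _ => (rad J hj le_rfl).2.2.1) (fun _ => hZ) (fun _ _ => hF)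
    (fun _ _ _ _ e => (e rfl).elim) le_rfl
  have s : ∀ {f}, HD (fun _ : Unit => r J) f → HD (fun _ => r i) f := fun a =>
    have := mn J (mem_Icc.2 ⟨hj, le_rfl⟩)
    ⟨a.1.imp fun _ a U => (a U).shrink (fun _ => p) fun _ => this,
      fun s hs => a.2 s fun x => (hs x).trans_le this⟩
  have a := h.fill1 (t.gd j hj).tz (h.chainG t (r := fun l _ => r l) (m := m) hp le_rfl
    ⟨fun l a b x hx => xt_jt (G := G) hx ▸ sz l a b, fun _ _ _ _ _ _ _ e => (e rfl).elim,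
      fun l a b => ⟨(rad l a b).1, (rad l a b).2.1,
        fun _ => ⟨mn l (mem_Icc.2 ⟨a, b⟩), (rad l a b).2.2.2⟩⟩⟩
    ⟨e.fi, e.ma, s e.eq.fst, s e.eq.snd, e.eq.eq⟩ xt_bs xt_ec j hj le_rfl).1 (h.th_le j).2
    (q := ()) (N := N) (by rw [fw_Z j hj]; exact card)
  rw [ex_eq (mem_univ _) hj, jd_tt e.eq.fst hj, h.xf_zero t.hb hd J le_rfl, h.f_tt b le_rfl,
    tt_tt le_rfl j hj, ← h.f_tt b hj] at a
  refine (le_of_eq ?_).trans a
  congr 4
  funext U
  have := jd_smul (wil b (G.N J) U) (fun s : Unit → ℂ =>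
    Complex.exp (∑ i, s i * -xO (G.N J) F U)) {()}
  rw [jd_exp_lin _ (subset_univ _), prod_singleton, mul_comm] at this
  rw [← this]
  simp only [xf_top, xO_sum, mul_neg, sum_neg_distrib]
  rfl

/-- all fillings of the cells -/
theorem Mx.fill (M : G.Mx b J k S c d C A m σ ρ) (h : G.Ok) (t : G.Tu b J) (hp : G.Pu)
    (b0 : 0 ≤ b) (hj : j ≤ k) (top : ∀ q, r k q ≤ ρ (k + 1) q)
    (hw : ∀ y, ∑ ω ∈ S.Om.filter (y ∈ S.X0 ·), ‖w ω‖ * r k (S.cl ω) ≤ Wt)
    (sm : G.Q k ^ 331 * (G.cM k c C * Wt) ≤ σ (k + 1) ^ Fintype.card κ)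
    (sm' : ∀ q y, G.Q k ^ 400 * (r k q * ∑ x, ‖S.φ q x y‖) ≤ 1)
    (sz : ∀ l, j ≤ l → l ≤ k → ∀ q, ∃ N, G.Q l ^ 223 * (r l q * N) ≤ G.bb l ∧
      G.S1 (fun l => (G.Q l ^ 100)⁻¹) l N (G.tn b J (G.uX b J k S w q) k l))
    (rad : ∀ l, j ≤ l → l ≤ k → 1 ≤ m' l ∧ 40 * (m' l : ℝ) ≤ G.Q l ∧
      Cls (G.N l) ((m' l + 2) * (G.p l).D) univ id (fun q => G.zs (S.W q) J l) ∧
      ∀ q, 0 < r k q ∧ r k q ≤ r l q ∧ (l < k → r l q ≤ m' l * r (l + 1) q))
    (card : ∀ q, (G.zs (S.W q) J j).card ≤ N) :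
    (∀ B : Finset γ, ‖(∫ U, wil b (G.N J) (pc (G.N J) U) * ∏ q ∈ B,
      (S.Y (G.N J) w q (pc (G.N J) U) + G.ta (S.C (G.N k) q) J k (pc (G.N J) U) -
        G.ct b J k j (S.Y (G.N J) w q) (S.C (G.N k) q)) ∂PP) /
          ∫ U, (wil b (G.N J) (pc (G.N J) U) : ℂ) ∂PP‖ ≤
      exp (cJ / G.g j * G.N j ^ 4 + Fintype.card γ * exp N) * ∏ q ∈ B, (r j q)⁻¹) ∧
    (S.Om = ∅ → S.φ = 0 → ∀ q, ‖G.ct b J k j (S.Y (G.N J) w q) (S.C (G.N k) q) -
      G.ex b J j (S.P q)‖ ≤ exp N * (r j q)⁻¹) := by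
  have hk := M.lt.le
  have jJ := hj.trans hk
  have p : ∀ l, j ≤ l → l ≤ k → ∀ q, 0 < r l q := fun l a b q =>
    ((rad l a b).2.2.2 q).1.trans_le ((rad l a b).2.2.2 q).2.1
  refine ⟨fun B => ?_, fun z1 z2 q => ?_⟩
  · have hY := gi_Y (n := G.N J) (fun ω hω l => let ⟨_, _, a, _⟩ := (M.lt' ω hω l).2.2.1.1; gi_xO a)
      (fun q => let ⟨_, _, a, _⟩ := (M.sl q).1; gi_xO a) w
    have hC : ∀ q, GI (G.N k) (S.C (G.N k) q) := fun q => gi_neg (GI.sum fun x _ => gi_sm ..)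
    have D1 : d + 5 ≤ (G.p k).D := by
      have a := M.dR
      have := Nat.one_le_pow G.K0 (G.L k) (by have := h.L_big k; omega)
      change _ ≤ 4 * G.L k ^ G.K0 at a
      change _ ≤ 20 * G.L k ^ G.K0
      omega
    have hL : ∀ q, Mg.LF (G.N k) (G.zs (S.W q) J k) fun U => S.C (G.N k) q (pc (G.N k) U) :=
      fun q => by
      simpa only [neg_one_mul, Wx.C] using (Mg.LF.const (-1)).mul (Mg.LF.sum (t := univ) fun x _ =>
        lf_sm1 (M.lg.2 x).1 fun y hy => (tb_mono Subset.rfl (by omega)).trans (M.lφ q x y hy))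
    obtain ⟨Y, e, e1, e3, eZ, eJ⟩ := M.merge h t hp (fun q => ⟨p k hj le_rfl q, top q⟩) hw sm sm'
    obtain ⟨c1, c2, -, c4, c5⟩ := h.chainG t hp hk ⟨fun l a b q _ => eJ q ▸ sz l a b q,
      fun l a b => by simpa only [eZ, zs_zs hk b] using (rad l a b).2.2.1, fun l a b =>
        ⟨(rad l a b).1, (rad l a b).2.1, fun q => ((rad l a b).2.2.2 q).2⟩⟩ e e1 e3 j hj le_rfl
    have u := c2 ▸ h.bz_run t jJ
    have j1 : ∀ T W, jd T (G.pq b J k (S.Y (G.N J) w) (S.C (G.N k)) · W) =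
        G.pa b J k (S.Y (G.N J) w) (S.C (G.N k)) T W := fun T W => jd_ma _ (subset_univ T)
    have f0 : G.tt (G.pq b J k (S.Y (G.N J) w) (S.C (G.N k)) 0) k j = G.f b J j := by
      rw [show G.pq b J k (S.Y (G.N J) w) (S.C (G.N k)) 0 = _ from
        funext fun W => (jd_empty _).symm.trans (j1 ∅ W), h.pa_zero hk, h.f_tt b hk, tt_tt hk j hj,
        h.f_tt b jJ]
    have a := h.fill (w := fun q => (r j q)⁻¹) (N := N) (fun q => inv_pos.2 (p j le_rfl hj q))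
      ⟨_, _, _, _, _, _, (t.gd j jJ).tz, c1, u.2.1, u.2.2, fun s hs => h.pu_fam (c5 s hs),
        (h.th_le j).1, (h.th_le j).2, fun q => ⟨(inv_inv _).le, by
          simpa only [fw_Z j hj, eZ, zs_zs hk hj] using card q⟩⟩ f0 b0 c4 B
    have d2 : ∀ q q', q ≠ q' → Disjoint (tb (G.N k) 2 (G.zs (S.W q) J k))
        (tb (G.N k) 2 (G.zs (S.W q') J k)) := fun q q' e =>
      ((M.cel.1 q (mem_univ _) q' (mem_univ _) e).tb 2 2).disj (by
        have : (d + 5 : ℝ) ≤ (G.p k).D := by exact_mod_cast D1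
        have : (0 : ℝ) ≤ c * (G.p k).D := by positivity
        have : (0 : ℝ) ≤ d := d.cast_nonneg
        push_cast
        linarith)
    simp only [jd_int PP c1.eq.fst.pos (fun U => c1.eq.fst.1.choose_spec (pc (G.N j) U))
      fun s hs => (c1.eq.fst.2 s hs).comp (Cov.meas_pc _), jd_tt e.eq.fst hj, j1, f0,
      h.pa_one hk hY hC hj, (h.int_tt (h.gi_pa hk hY hC _) hj).2, h.pa_int hk hY hC hL d2] at a
    rw [int_cen (gi_wil (G.N J)) (fun q => (hY q).add (h.gi_ta hk hY hC hL q)), sum_div,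
      ← (h.int_tt (gi_wil (G.N J)) jJ).2, ← h.f_tt b jJ]
    simpa only [mul_div_assoc] using a
  have c1 : (1 : ℝ) ≤ c := Nat.one_le_cast.2 (Fintype.card_pos.trans_le M.card)
  have z3 : ∀ X, G.cl b J k X 0 = 0 := fun X => by
    simpa using cl_lin (G := G) (b := b) (J := J) (k := k) (X := X) (F := 0) (F' := 0) 1
  have a := h.ct_ex (m := fun l => if l ≤ k then m' l else m l) t hp
    (r := fun l => if l ≤ k then r l q else ρ l q) jJ
    (M.dR.trans (Nat.mul_le_mul_left 4 (Nat.pow_le_pow_left (h.L_mono hk) _))) (M.lP q)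
    (by simpa only [if_neg M.lt.not_ge] using (M.sl q).1) (fun l a b => ?_) (fun l a b => ?_) (card q)
  · simp only [if_pos hj] at a
    refine (le_of_eq ?_).trans a
    have : G.tt (fun _ => 0) k j 1 = 0 := by simpa using congrFun (tt_mul (G := G) 0 0 hj) 1
    simp [ct, Wx.Y, Wx.C, z1, z2, Wd.sm, this]
  · split_ifs with v
    · have := sz l a v q
      simp only [uX, z1, z2, filter_empty, sum_empty, Pi.zero_apply, z3, sum_const_zero, add_zero,
        Prod.mk_zero_zero] at this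
      rwa [show G.tn _ J (G.tn _ J _ J k) k l = _ from dw_dw _ _ hk l v] at this
    · exact (M.sl q).2 l (not_le.1 v) b
  · split_ifs with v v' v'
    · exact ⟨(rad l a v).1, (rad l a v).2.1, p l a v q, fun _ => ((rad l a v).2.2.2 q).2.2 v'⟩
    · obtain rfl : l = k := by omega
      exact ⟨(rad l a v).1, (rad l a v).2.1, p l a v q, fun _ => (top q).trans
        (le_mul_of_one_le_left ((p l a v q).le.trans (top q)) (Nat.one_le_cast.2 (rad l a v).1))⟩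
    · omega
    · obtain ⟨a1, a2, -, a3, a4⟩ := M.rad l (not_le.1 v) b
      have m0 : (0 : ℝ) ≤ m l := (m l).cast_nonneg
      have := le_self_pow₀ (show (1 : ℝ) ≤ 1 + m l by linarith) (n := c) (by
        rintro rfl; norm_num at c1)
      exact ⟨a1, by linarith, a3 q, fun x => (a4 x).2 q⟩

end Gl

end Pool.Agent.Lib.MP_7f377f_mp.RG.Q4.En
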