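import Pool.Agent.Lib.MP_7f377f_mp.G.Q5Br
import Pool.Agent.Lib.MP_7f377f_mp.EmPl
import Pool.Agent.Lib.MP_7f377f_mp.G.StM

/-! The lattice equation of motion contracted with the curvature. -/

noncomputable section

set_option linter.unusedSectionVars false
variable [Pool.Agent.Lib.MP_7f377f_mp.GD]

namespace Pool.Agent.Lib.MP_7f377f_mp.RG.Q4.Em

open Finset MeasureTheory Wd Fi
open scoped InnerProductSpace

variable {n : ℕ}

/-- the basis of the Lie algebra -/
def eM (k : Fin GD.d) : YM5.MA := YM5.MA.m.symm (GD.e k)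

/-- Lie algebra components of a group element -/
def cR (g : S3) (k : Fin GD.d) : ℝ := GD.t ^ 2 * ((GD.e k).transpose * GD.rho g).trace

theorem co_cS (g : S3) (k : Fin GD.d) : co (cS g) k = cR g k := by
  have : (GD.e k).trace = 0 := by
    have h := Matrix.trace_transpose (GD.e k)
    rw [GD.anti, Matrix.trace_neg] at h
    linarith
  rw [cS, co_cq, cR]
  simp only [S3.q, mul_sub, mul_one, Matrix.trace_sub, Matrix.trace_transpose, this, sub_zero]

theorem cont_cR (k : Fin GD.d) : Continuous fun g => cR g k :=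
  continuous_const.mul (continuous_const.matrix_mul GD.rho_cont).matrix_trace

theorem cR_one (k : Fin GD.d) : cR 1 k = 0 := by
  have := co_cS 1 k
  rw [cS_one, co_one] at this
  exact Complex.ofReal_eq_zero.1 this.symm

theorem cont_wh (w : List Dr) : ∀ x, Continuous fun U : Conf => wh Inv.inv U x w := by
  induction w with
  | nil => exact fun _ => continuous_const
  | cons d w ih =>
    refine fun x => Continuous.mul ?_ (ih _)
    unfold stp
    split_ifs
    exacts [continuous_apply _, (continuous_apply _).inv]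

/-- the current -/
def jR (U : Conf) (x : St) : ℝ := ∑ m ∈ univ.erase 0, ∑ d : Dr, ∑ k,
  cR (wh Inv.inv U x (rec6 m).1) k * cR (wh Inv.inv U x (pq (m, true) d).1) k

theorem cont_jR (x : St) : Continuous fun U => jR U x :=
  continuous_finsetSum _ fun _ _ => continuous_finsetSum _ fun _ _ => continuous_finsetSum _
    fun k _ => ((cont_cR k).comp (cont_wh _ _)).mul ((cont_cR k).comp (cont_wh _ _))

theorem cont_lf : Continuous (Fi.lf (n := n)) := continuous_pi fun _ => continuous_apply _

theorem per_lf (U : YM7.Cfg n) : Per n (Fi.lf U) := fun μ => funext fun e => by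
  simp only [sh, Fi.lf, Fi.lift, cst_add, cst_un]
  simp

variable [NeZero n]

theorem sd_site (h1 : n ≠ 1) (b : ℝ) (y : St) {O : YM7.Cfg n → ℝ} (hO : Continuous O)
    (hi : ∀ m U g, O (Function.update U (cst n y, m) g) = O U) :
    ∫ U : YM7.Cfg n, jR (Fi.lf U) y * O U * Real.exp (-b * ∑ x, YM7.dens U x)
      ∂(Measure.pi fun _ => Fi.tr haar) = 0 := by
  let _ := YM5.quatHS
  have : (Fi.tr haar).IsHaarMeasure := inferInstanceAs haar.IsHaarMeasure
  have e1 : (1 : ZMod n) ≠ 0 := fun h => h1 (ZMod.natCast_eq_zero_iff 1 n |>.1 (by simpa using h)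
    |> Nat.dvd_one.1)
  have cv : ∀ g : YM7.Cfg n → S3, Continuous g → Continuous fun U => ∑ k, cR (g U) k • eM k :=
    fun g hg => continuous_finsetSum _ fun k _ =>
      Continuous.smul ((cont_cR k).comp hg) continuous_const
  set v : YM7.Cfg n → Weak.Link 4 n → YM5.MA := fun U e => if e.1 = cst n y ∧ e.2 ≠ 0 then
    ∑ k, cR (wh Inv.inv (Fi.lf U) y (rec6 e.2).1) k • eM k else 0 with hv
  have hm : ∀ U e, v U e ∈ Weak.lieAlg YM5.rho := fun U e => by
    simp only [hv, YM5.lie_rho]
    split_ifs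
    · exact Submodule.sum_mem _ fun k _ => Submodule.smul_mem _ _ (Submodule.subset_span ⟨k, rfl⟩)
    · exact Submodule.zero_mem _
  have hV : Weak.VF YM5.rho v := ⟨continuous_pi fun e => by
      simp only [hv]
      split_ifs
      · exact cv _ ((cont_wh (rec6 e.2).1 y).comp cont_lf)
      · exact continuous_const, hm, fun U e g => by
      simp only [hv]
      split_ifs with h
      · obtain ⟨x, m⟩ := e
        obtain ⟨rfl, h0⟩ := h
        have a1 : ∀ z : St, Fi.lf (Function.update U (cst n y, m) g) (z, 0) = Fi.lf U (z, 0) := fun z =>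
          Function.update_of_ne (fun h => h0 (Prod.mk.inj h).2.symm) _ _
        have a2 : ∀ z : St, cst n z 0 ≠ cst n y 0 →
            Fi.lf (Function.update U (cst n y, m) g) (z, m) = Fi.lf U (z, m) := fun z hz =>
          Function.update_of_ne (fun h => hz (congrFun (Prod.mk.inj h).1 0)) _ _
        simp only [rec6, wh, stp, dv, if_true, Bool.false_eq_true, if_false, a1]
        rw [a2, a2]
        · simpa [cst, un, h0.symm] using e1
        · simpa [cst, un] using e1
      · rfl⟩
  have h := Weak.sd_wt YM5.rho (Fi.tr haar) YM5.rho_cont hV hO (fun e => by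
    by_cases h : e.1 = cst n y
    · exact Or.inr fun U g => by rw [show e = (cst n y, e.2) from Prod.ext h rfl]; exact hi _ U g
    · exact Or.inl fun U => if_neg fun h' => h h'.1) (b / 2)
  have e2 : ∀ U, Weak.YD YM5.rho v Weak.actA U = 4 * jR (Fi.lf U) y := fun U => by
    have i1 : ∀ (g : S3) k, ⟪eM k, (YM5.rho g : YM5.MA)⟫_ℝ = cR g k := fun _ _ => rfl
    have w1 : ∀ m j, wh Inv.inv (Fi.lf U) y (pq (m, true) (j, true)).1 = Weak.hol U (cst n y) m j :=
      fun m j => by
        simp only [pq, wh, stp, dv, fl, if_true, Bool.not_true, Bool.false_eq_true, if_false,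
          show y + un m + un j - un m = y + un j by abel,
          show y + un m + un j + -un m - un j = y by abel]
        simp only [Fi.lf, Fi.lift, Weak.hol, cst_add, cst_un1, mul_assoc, mul_one]
        rfl
    have w2 : ∀ m j, wh Inv.inv (Fi.lf U) y (pq (m, true) (j, false)).1 = Weak.holN U (cst n y) m j :=
      fun m j => by
        simp only [pq, wh, stp, dv, fl, if_true, Bool.not_true, Bool.false_eq_true, if_false,
          Bool.not_false, show y + un m + -un j - un m = y - un j by abel,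
          show y + un m + -un j + -un m = y - un j by abel,
          show y + un m - un j = y - un j + un m by abel]
        simp only [Fi.lf, Fi.lift, Weak.holN, cst_add, cst_sub, cst_un1, mul_assoc, mul_one]
        rfl
    rw [← Weak.plA_one, Weak.YD_plA _ U fun e => Weak.lieAlg_skew _ YM5.rho_cont (hm U e),
      sum_eq_single (cst n y) (fun x _ hx => by simp [hv, hx]) (by simp), jR, mul_sum,
      ← sum_erase (a := 0) _ (by simp [hv])]
    refine sum_congr rfl fun m hm => ?_
    rw [Fintype.sum_prod_type, mul_sum]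
    refine sum_congr rfl fun j _ => ?_
    simp only [hv, ne_of_mem_erase hm, true_and, ne_eq, not_false_eq_true, if_true, sum_inner,
      real_inner_smul_left, i1, Fintype.sum_bool, w1, w2]
    ring
  simp only [e2, YM5.act_rho, mul_assoc, integral_const_mul] at h
  refine Eq.trans ?_ ((mul_eq_zero.1 h).resolve_left (by norm_num))
  refine integral_congr_ae (.of_forall fun U => ?_)
  simp only [mul_assoc]
  congr 3
  change -b * ∑ x, YM5.dens U x = _
  ring

/-- the equation of motion away from the other insertions -/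
theorem sd_core (hn : Odd n) (h1 : n ≠ 1) (b : ℝ) (ξ : St → ℂ) {O : Conf → ℂ} (hO : Continuous O)
    (hi : ∀ U V, Per n U → Per n V → (∀ e : Lk, ξ (rc n e.1) = 0 → U e = V e) → O U = O V) :
    ∫ U, (∑ x ∈ box (n / 2), ξ x * jR (pc n U) x) * O (pc n U) * wil b n (pc n U) ∂PP = 0 := by
  have key : ∀ x ∈ box (n / 2), ξ x ≠ 0 → ∀ φ : ℂ →L[ℝ] ℝ,
      ∫ U, jR (pc n U) x * φ (O (pc n U)) * wil b n (pc n U) ∂PP = 0 := fun x hx h0 φ => by
    rw [← Br.int_lf (f := fun U => jR U x * φ (O U) * wil b n U)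
      (((cont_jR x).mul (φ.continuous.comp hO)).mul (cont_wil b)).measurable]
    simp only [Br.wil_lf hn]
    refine sd_site h1 b x (φ.continuous.comp (hO.comp cont_lf)) fun m U g => congrArg φ ?_
    refine hi _ _ (per_lf _) (per_lf _) fun e he => Function.update_of_ne (fun h => h0 ?_) _ _
    rwa [← vl_cst, (Prod.mk.inj h).1, vl_cst, rc_eq hn hx] at he
  have c : ∀ x, Continuous fun U => (jR U x : ℂ) * O U * wil b n U := fun x =>
    ((Complex.continuous_ofReal.comp (cont_jR x)).mul hO).mul
      (Complex.continuous_ofReal.comp (cont_wil b))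
  have i : ∀ x, Integrable (fun U => (jR (pc n U) x : ℂ) * O (pc n U) * wil b n (pc n U)) PP :=
    fun x => Br.bc_int ⟨(c x).measurable, (isCompact_univ.exists_bound_of_continuousOn
      (c x).continuousOn).imp fun _ h U => h U trivial⟩ n
  simp only [sum_mul, mul_assoc (ξ _)]
  rw [integral_finsetSum _ fun x _ => (i x).const_mul _]
  refine sum_eq_zero fun x hx => ?_
  by_cases h0 : ξ x = 0
  · simp [h0]
  rw [integral_const_mul, mul_eq_zero_of_right]
  apply Complex.ext
  · rw [← Complex.reCLM_apply, ← ContinuousLinearMap.integral_comp_comm _ (i x)]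
    simpa using key x hx h0 Complex.reCLM
  · rw [← Complex.imCLM_apply, ← ContinuousLinearMap.integral_comp_comm _ (i x)]
    simpa using key x hx h0 Complex.imCLM

omit [NeZero n] in
theorem evG_jL (U : Conf) (x : St) : evG Wd.jL (sh x U) = jR U x := by
  have e : wh Inv.inv U x (rec6 0).1 = 1 := by
    simp only [rec6, wh, stp, dv, if_true, Bool.false_eq_true, if_false,
      show x + un 0 + un 0 - un 0 = x + un 0 by abel,
      show x + un 0 + un 0 + -un 0 - un 0 = x by abel,
      show x + un 0 + un 0 + -un 0 + -un 0 - un 0 = x - un 0 by abel,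
      show x + un 0 + un 0 + -un 0 + -un 0 + -un 0 = x - un 0 by abel]
    group
  rw [jR, sum_erase _ (by simp [e, cR_one])]
  simp only [Wd.jL, evG_sum, evG_lt, wh_sh, zero_add, p2, if_true, dot, co_cS]
  push_cast
  rfl

/-- the Schwinger-Dyson identity without contact terms -/
theorem sd_jL (hn : Odd n) (h1 : n ≠ 1) (b : ℝ) (ξ : St → ℂ) {O : Conf → ℂ} (hO : Continuous O)
    (hi : ∀ U V, Per n U → Per n V → (∀ e : Lk, ξ (rc n e.1) = 0 → U e = V e) → O U = O V) :
    ∫ U, wil b n (pc n U) * (sm n Wd.jL ξ (pc n U) * O (pc n U)) ∂PP = 0 := by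
  simpa only [sm, evG_jL, mul_comm (wil b n _ : ℂ)] using sd_core hn h1 b ξ hO hi

omit [NeZero n] in
/-- smeared letters far from the support of `ξ` -/
theorem sm_far {ξ h : St → ℂ} {X : Let} {R : ℕ} (hX : Rad R X)
    (hf : ∀ x ∈ box (n / 2), h x ≠ 0 → ∀ y ∈ box R, ξ (rc n (y + x)) = 0) {U V : Conf}
    (hU : ∀ e : Lk, ξ (rc n e.1) = 0 → U e = V e) : sm n X h U = sm n X h V :=
  sum_congr rfl fun x hx => by
    by_cases h0 : h x = 0
    · simp [h0]
    rw [evG_agr hX (U := sh x U) (U' := sh x V) fun e he => hU _ (hf x hx h0 _ (mem_lbox.1 he))]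

omit [NeZero n] in
/-- plaquette sources far from the support of `ξ` -/
theorem sO_far {ξ : St → ℂ} {F : En.Pos.Sr}
    (hf : ∀ x ∈ box (n / 2), F x ≠ 0 → ∀ y ∈ box 1, ξ (rc n (y + x)) = 0) {U V : Conf}
    (hU : ∀ e : Lk, ξ (rc n e.1) = 0 → U e = V e) : En.Pos.sO n F U = En.Pos.sO n F V :=
  sum_congr rfl fun x hx => by
    by_cases h0 : F x = 0
    · simp [h0]
    have a0 : ∀ m, U (x, m) = V (x, m) := fun m => hU _ (by
      simpa using hf x hx h0 0 (mem_box.2 fun _ => by simp))
    have a1 : ∀ j m, U (x + un j, m) = V (x + un j, m) := fun j m => hU _ (by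
      simpa [dv, add_comm] using hf x hx h0 _ (dv_box (j, true)))
    simp only [fq, hol, a0, a1]

/-- the identity for a product of far insertions -/
theorem sd_prod (hn : Odd n) (h1 : n ≠ 1) (b : ℝ) (ξ : St → ℂ) {ι κ : Type} (A : Finset ι)
    (B : Finset κ) (X : ι → Let) (h : ι → St → ℂ) (R : ι → ℕ) (F : κ → En.Pos.Sr) (c : ι → ℂ) (c' : κ → ℂ)
    (hX : ∀ i ∈ A, Rad (R i) (X i))
    (hf : ∀ i ∈ A, ∀ x ∈ box (n / 2), h i x ≠ 0 → ∀ y ∈ box (R i), ξ (rc n (y + x)) = 0)
    (hF : ∀ i ∈ B, ∀ x ∈ box (n / 2), F i x ≠ 0 → ∀ y ∈ box 1, ξ (rc n (y + x)) = 0) :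
    ∫ U, wil b n (pc n U) * (sm n Wd.jL ξ (pc n U) * ((∏ i ∈ A, (sm n (X i) (h i) (pc n U) - c i)) *
      ∏ i ∈ B, (En.Pos.sO n (F i) (pc n U) - c' i))) ∂PP = 0 :=
  sd_jL hn h1 b ξ (O := fun U => (∏ i ∈ A, (sm n (X i) (h i) U - c i)) *
      ∏ i ∈ B, (En.Pos.sO n (F i) U - c' i))
    ((continuous_finsetProd _ fun _ _ => (sm_cont _ _ _).sub continuous_const).mul
      (continuous_finsetProd _ fun _ _ => (Br.cont_sO _).sub continuous_const))
    fun U V _ _ hU => by
      rw [prod_congr rfl fun i hi => by rw [sm_far (hX i hi) (hf i hi) hU],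
        prod_congr (s₁ := B) rfl fun i hi => by rw [sO_far (hF i hi) hU]]

end Pool.Agent.Lib.MP_7f377f_mp.RG.Q4.Em
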