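import Pool.Agent.Lib.MP_7f377f_mp.G.StV2s
import Pool.Agent.Lib.MP_7f377f_mp.G.StSD
import Pool.Agent.Lib.MP_7f377f_mp.G.CaA
import Pool.Agent.Lib.MP_7f377f_mp.StD

/-! Sections, symmetry types and averages of smeared letters. -/

noncomputable section

namespace Pool.Agent.Lib.MP_7f377f_mp.RG.Wd

open Finset Equiv

theorem sum_ax {A B M : Type} [Neg A] [Neg B] [AddCommMonoid M] (g : B4) {φ : A → B → M}
    (h : ∀ a b, φ (-a) (-b) = φ a b) (x : Fin 4 → A) (y : Fin 4 → B) :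
    ∑ m, φ (x m) (y m) = ∑ m, φ (cd x (g.1 (m, true))) (cd y (g.1 (m, true))) := by
  rw [← Equiv.sum_comp (ax g)]
  refine sum_congr rfl fun m _ => ?_
  unfold cd
  split_ifs
  exacts [rfl, (h _ _).symm]

/-- the gradient of `F ∘ g` -/
def gF (g : B4) (F' : Fin 4 → St → ℂ) (m : Fin 4) (x : St) : ℂ := cd F' (g.1 (m, true)) (gv g x)

/-- the symmetric difference -/
def ds (m : Fin 4) (F : St → ℂ) (x : St) : ℂ := 2⁻¹ * (F (x + un m) - F (x - un m))

/-- the second difference -/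
def d2 (m : Fin 4) (F : St → ℂ) (x : St) : ℂ := F (x + un m) + F (x - un m) - 2 * F x

theorem gv_smul (g : B4) (e : ℤ) (x : St) : gv g (e • x) = e • gv g x := map_zsmul (gvE g ℤ) e x

set_option linter.unusedSectionVars false
variable [Pool.Agent.Lib.MP_7f377f_mp.GD]

open Q4 Q4.En Q4.Sg MeasureTheory

/-! ### Sections -/

theorem A1_eq (a b : Fin 4) : pc1 (a, b) = A1 a b := funext fun l => by
  simp only [A1, pA, pc1, cd, if_true, un_de, de]
  split_ifs <;> simp_all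

theorem B1_eq (a b c : Fin 4) : pc2 (a, b, c) = B1 a b c := funext fun l => by
  simp only [B1, pB, pc2, cd, if_true, un_de, de]
  split_ifs <;> simp_all <;> ring

theorem gk_of {k : CF} (h : Gf k) : Gk k := ⟨h.1, fun u b => h.2 _ _ (by funext x μ ν; simp [dd_gr])⟩

theorem sec_mono {E β : Type} [NormedAddCommGroup E] [NormedSpace ℂ E] [Fintype β]
    {q : (V → V → ℂ) → E} {w : β → E} {C C' : ℝ} (h : Sec q w C) (e : C ≤ C') : Sec q w C' :=
  h.imp fun _ a => ⟨fun x => (a.1 x).trans (by gcongr), a.2⟩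

/-- the sections of the families -/
theorem sec_all : ∃ C > 0, ∀ C' ≥ C, (∀ m, Sec q0 (fun a => q0 (q2 (lx (OF m a)))) C') ∧
    Sec qv (fun a => qv (q2 (lx (PF a)))) C' ∧
    Sec (fun k => (qv k).2) (fun a => (qv (q2 (lx (PO a)))).2) C' := by
  have a0 : ∀ {X : Fin 3 ⊕ Iv → Let} {c : _ → ℂ} {k : CF}, E0 (sig (∑ i, c i • X i)) k →
      ∑ i, c i • q0 (q2 (lx (X i))) = q0 fun a b => k a b := fun e => by
    funext p p'
    simpa [q0, q2_lx, ← A1_eq] using e p.1 p.2 p'.1 p'.2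
  have a1 : ∀ {X : Fin 3 ⊕ Iv → Let} {c : _ → ℂ} {k : CF}, E1 (sig (∑ i, c i • X i)) k →
      ∑ i, c i • (qv (q2 (lx (X i)))).2 = (qv fun a b => k a b).2 := fun e => by
    funext p t
    simpa [qv, q2_lx, ← A1_eq, ← B1_eq] using e p.1 p.2 t.1 t.2.1 t.2.2
  choose C h using fun m => exists_sec q0 (fun a => q0 (q2 (lx (OF m a)))) fun k hk =>
    (onto_OF m (gk_of hk)).imp fun c => a0
  obtain ⟨C1, h1⟩ := exists_sec qv (fun a => qv (q2 (lx (PF a)))) fun k hk =>
    (onto_PF (gk_of hk)).imp fun c e => Prod.ext (by rw [Prod.fst_sum]; exact a0 e.1)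
      (by rw [Prod.snd_sum]; exact a1 e.2)
  obtain ⟨C2, h2⟩ := exists_sec (fun k => (qv k).2) (fun a => (qv (q2 (lx (PO a)))).2) fun k hk =>
    (onto_PO (gk_of hk)).imp fun c => a1
  have p := sum_nonneg fun m (_ : m ∈ univ) => abs_nonneg (C m)
  refine ⟨∑ m, |C m| + |C1| + |C2| + 1, by positivity, fun C' e => ⟨fun m => sec_mono (h m) ?_,
    sec_mono h1 ?_, sec_mono h2 ?_⟩⟩
  · linarith [le_abs_self (C m), abs_nonneg C1, abs_nonneg C2,
      single_le_sum (f := fun m => |C m|) (fun _ _ => abs_nonneg _) (mem_univ m)]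
  · linarith [le_abs_self C1, abs_nonneg C2]
  · linarith [le_abs_self C2, abs_nonneg C1]

theorem xv_fst (G : Gl) (b : ℝ) (I : ℕ) (X : Conf → ℂ) (ψ : Fld → ℂ) (F : St → ℂ) (y : St) :
    (G.xv b I (lS X ψ F)).1 y = F y • ψ := by
  simp [Gl.xv, xP, lS, Pos.sL_zero]

theorem re_iff {X : Let} : Re X ↔ X ∈ Rl := Iff.rfl

/-! ### Symmetry types -/

/-- the generators as elements of the group -/
def gn : Ty.Gn → B4 := Sum.elim pe rf

theorem cf_pb (g : Ty.Gn) (U : Conf) : Ty.cf g U = pb Inv.inv (gn g) U := by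
  funext e
  rcases g with σ | j
  · rfl
  have a : gv (rf j) e.1 = Function.update e.1 j (-e.1 j) := funext fun i => by
    change cd e.1 ((rf j).1 (i, true)) = _
    rw [cd_rf, ep, Function.update_apply]
    split_ifs with k <;> simp [cd, k]
  have b : Function.update e.1 j (-e.1 j) - un j = Function.update e.1 j (-e.1 j - 1) := by
    funext i
    by_cases k : i = j <;> simp [k, un]
  simp only [Ty.cf, rfl1, pb, gn, Sum.elim_inr, a, rf_apply]
  split_ifs with k
  · simp [stp, fl, k, b]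
  · rfl

theorem pb_nI (U : Conf) : pb Inv.inv nI U =
    Ty.cf (.inr 3) (Ty.cf (.inr 2) (Ty.cf (.inr 1) (Ty.cf (.inr 0) U))) := by
  simp only [cf_pb, ← pb_mul inv_inv, nI_eq]
  rfl

theorem pb_nI' (U : Conf) : pb Inv.inv nI U =
    Ty.cf (.inr 0) (Ty.cf (.inr 1) (Ty.cf (.inr 2) (Ty.cf (.inr 3) U))) := by
  simp only [cf_pb, ← pb_mul inv_inv]
  exact congrArg (pb _ · U) (B4_ext (by decide))

variable {X : Let} {Y : Fin 4 → Let} {n : ℕ} {F : St → ℂ} {F' : Fin 4 → St → ℂ} {U : Conf}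
  {T : Ty.Ty} {f : Conf → ℂ}

/-- letters of type `T` -/
def Tl (T : Ty.Ty) (X : Let) : Prop := ∀ g ∈ T, act (gn g.1) X = (Ty.sb g.2 : ℂ) • X

theorem sm_one (g : B4) (U : Conf) : sm n X 1 (pb Inv.inv g U) = sm n (act g X) 1 U :=
  (sm_act (h := 1) g U).symm

theorem Tl.sgn (h : Tl T X) : Sgn n T (sm n X 1) := fun g hg U _ => by
  rw [cf_pb, sm_one, h g hg, sm_smul]

theorem Tl.sgn_mul (h : Tl T X) (s : Sym n f) : Sgn n T fun U => -sm n X 1 U * f U :=
  fun g hg U hU => by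
  simp only [h.sgn g hg U hU, sym_cf s _ hU]
  ring

theorem Od.sm (h : Od X) (U : Conf) : sm n X 1 (pb Inv.inv nI U) = -sm n X 1 U := by
  rw [sm_one, h, ← neg_one_smul ℂ X, sm_smul, neg_one_mul]

theorem tl_inv (h : ∀ g, act g X = X) : Tl Ty.T1 X := fun g hg => by
  have : ∀ g ∈ Ty.T1, g.2 = false := by decide
  simp [h, this g hg, Ty.sb]

theorem tl_phS : Tl Ty.T1 phS := tl_inv act_phS

theorem tl_V1 : Tl Ty.T1 V1 := tl_inv act_V1

theorem tl_V3 : Tl Ty.T3 V3 := by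
  simp [Tl, Ty.T3, Ty.rf, Ty.sw, Ty.sb, gn, rf_V3, s01_V3, s23_V3]

theorem tl_V6 : Tl Ty.T6 V6 := by
  simp [Tl, Ty.T6, Ty.rf, Ty.sw, Ty.sb, gn, rf_V6, s23_V6, ch, sg_rf]

theorem tl_vec (h : ∀ g ∈ KK 0, sg 0 g • act g X = X) : Tl (Ty.rf true false false false) X := by
  have := fun i => h _ (rf_mem i 0)
  simp only [sg_rf] at this
  simpa [Tl, Ty.rf, Ty.sb, gn, Fin.forall_fin_succ, neg_eq_iff_eq_neg] using this

/-- covariance under the generators is enough -/
theorem pb_ind {L : (Conf → ℂ) → Conf → ℂ}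
    (h : ∀ g f U, BC f → Per n U → L (fun W => f (Ty.cf g W)) U = L f (Ty.cf g U)) (g : B4) :
    ∀ f U, BC f → Per n U → L (fun W => f (pb Inv.inv g W)) U = L f (pb Inv.inv g U) := by
  refine B4_ind (P := fun g => ∀ f U, BC f → Per n U →
    L (fun W => f (pb Inv.inv g W)) U = L f (pb Inv.inv g U)) (fun σ => h (.inl σ))
    (fun i => by simpa only [cf_pb, gn, Sum.elim_inr] using h (.inr i)) (fun g k a b f U hf hU => ?_) g
  simp only [pb_mul inv_inv]
  rw [← b f _ hf (per_pb _ g hU)]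
  exact a (fun W => f (pb Inv.inv k W)) U ⟨hf.1.comp (cont_pb k).measurable,
    hf.2.imp fun _ e _ => e _⟩ hU

theorem sym_pb (s : Sym n f) (g : B4) (hU : Per n U) : f (pb Inv.inv g U) = f U :=
  (pb_ind (L := fun _ => f) (fun g _ _ _ e => (sym_cf s g e).symm) g 0 U
    ⟨measurable_const, 0, by simp⟩ hU).symm

theorem ta_pb {G : Gl} (h : G.Ok) {J i : ℕ} (hi : i ≤ J) (hf : BC f) (hU : Per (G.N J) U) (g : B4) :
    G.ta (fun W => f (pb Inv.inv g W)) J i U = G.ta f J i (pb Inv.inv g U) :=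
  pb_ind (L := fun f => G.ta f J i) (fun g _ _ a b => h.ta_cf hi a b g) g f U hf hU

theorem tt_pb {G : Gl} (h : G.Ok) {J i : ℕ} (hi : i ≤ J) (hf : BC f) (hU : Per (G.N i) U) (g : B4) :
    G.tt (fun W => f (pb Inv.inv g W)) J i U = G.tt f J i (pb Inv.inv g U) :=
  pb_ind (L := fun f => G.tt f J i) (fun g _ _ a b => by
    rcases g with g | g
    exacts [(h.tt_pm a.1 hi b g).symm, (h.tt_rfl a.1 hi b g).symm]) g f U hf hU

/-! ### Averages -/

theorem sm_neg (U : Conf) : sm n (-X) (-F) U = sm n X F U := by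
  rw [← neg_one_smul ℂ X, ← neg_one_smul ℂ F, sm_smul, sm_smul']
  ring

theorem sm_bc (n : ℕ) (X : Let) (F : St → ℂ) : BC (sm n X F) :=
  ⟨(sm_cont n X F).measurable, (isCompact_univ.exists_bound_of_continuousOn
    (sm_cont n X F).continuousOn).imp fun _ h U => h U trivial⟩

theorem sm_avg (H : Subgroup B4) (χ : B4 → ℂ) (U : Conf) : sm n (avg H χ X) F U =
    open Classical in (Nat.card H : ℂ)⁻¹ *
      ∑ g : H, χ g * sm n X (fun x => F (gv g.1 x)) (pb Inv.inv g U) := by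
  simp only [avg_apply, sm_smul, sm_sum, sm_act]

theorem sm_ro (g : B4) (U : Conf) : ∑ m, sm n (ro g Y m) (F' m) U =
    sg 0 g * ∑ m, sm n (Y m) (gF g F' m) (pb Inv.inv g U) := by
  rw [sum_ax g (φ := fun X F => sm n X F U) (fun _ _ => sm_neg U), mul_sum]
  simp only [cd_ro, sm_smul, sm_act]
  rfl

theorem sm_cov (U : Conf) : ∑ m, sm n (cov Y m) (F' m) U =
    open Classical in (Nat.card (KK 0) : ℂ)⁻¹ *
      ∑ g : KK 0, sg 0 g * ∑ m, sm n (Y m) (gF g F' m) (pb Inv.inv g U) := by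
  simp only [cov_apply, Pi.smul_apply, Finset.sum_apply, sm_smul, sm_sum, ← sm_ro, ← mul_sum]
  rw [sum_comm]

theorem sm_zero (U : Conf) : sm n 0 F U = 0 := by rw [← zero_smul ℂ (0 : Let), sm_smul, zero_mul]

/-- the currents in terms of the letters of a given type -/
theorem sm_WW (z : Fin 3 → ℂ) (U : Conf) : ∑ m, sm n ((∑ ρ, z ρ • WW ρ) m) (F' m) U =
    z 0 * sm n phS (F' 0) U + z 1 * (sm n V1 (F' 0) U +
      4⁻¹ * ∑ l : Fin 3, sm n (act (pe (swap 1 l.succ)) V3) (F' 0) U) +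
      z 2 * ∑ l : Fin 3, sm n (act (pe (swap 1 l.succ)) V6) (F' l.succ) U := by
  have e : ∑ l ∈ univ.erase 0, act (pe (swap 1 l)) V3 =
      ∑ l : Fin 3, act (pe (swap 1 l.succ)) V3 := by
    rw [← add_right_inj, add_sum_erase _ _ (mem_univ 0), Fin.sum_univ_succ]
  rw [← sm_sum, ← sm_smul 4⁻¹, ← sm_add, ← e, ← OT_zero, Fin.sum_univ_succ]
  simp [Fin.sum_univ_three, WW, sm_add, sm_smul, ← OT_ne (Fin.succ_ne_zero _)]
  ring

/-! ### Differences -/

theorem ps_rc' (h : PS n F) (x : St) : F (rc n x) = F x := by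
  obtain ⟨w, hw⟩ := rc_exists n x
  rw [hw, h]

theorem ps_tr (h : PS n F) (v : St) : PS n fun x => F (x + v) := fun x u => by
  simp only [add_right_comm x _ v, h _ u]

theorem ps_ds (h : PS n F) (m : Fin 4) : PS n (ds m F) := fun x u => by
  simp only [ds, sub_eq_add_neg _ (un m), add_right_comm x (_ • u), h _ u]

theorem ps_d2 (h : PS n F) (m : Fin 4) : PS n (d2 m F) := fun x u => by
  simp only [d2, sub_eq_add_neg _ (un m), add_right_comm x (_ • u), h _ u]

theorem ps_gv (h : PS n F) (g : B4) : PS n fun x => F (gv g x) := fun x u => by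
  simp only [gv_add, gv_smul, h _ _]

theorem ps_gF (h : ∀ m, PS n (F' m)) (g : B4) (m : Fin 4) : PS n (gF g F' m) := fun x u => by
  unfold gF cd
  split_ifs <;> simp only [gv_add, gv_smul, h _ _ _, Pi.neg_apply]

section
variable (hn : Odd n) (hU : Per n U) (hF : PS n F)
include hn hU hF

theorem sm_tr' (v : St) : sm n (tr v X) F U = sm n X (fun x => F (x - v)) U := by
  simp only [sm_tr hn hU, ps_rc' hF]

theorem sm_dvg : sm n (dvg Y) F U = -∑ m, sm n (Y m) (ds m F) U := by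
  simp only [dvg, sm_smul, sm_sum, sm_sub, sm_tr' hn hU hF, mul_sum, ← sum_neg_distrib]
  refine sum_congr rfl fun m _ => ?_
  simp only [sm, ds, ← sum_sub_distrib, mul_sum, ← sum_neg_distrib, sub_neg_eq_add]
  exact sum_congr rfl fun x _ => by ring

theorem sm_lap (m : Fin 4) : sm n (lap m X) F U = sm n X (d2 m F) U := by
  simp only [lap_apply, sm_smul, sm_add, sm_sub, sm_tr' hn hU hF]
  simp only [sm, d2, ← sum_sub_distrib, mul_sum, ← sum_add_distrib, sub_neg_eq_add]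
  exact sum_congr rfl fun x _ => by ring

theorem sm_jA : sm n jA F U =
    sm n rA F U - ∑ m, sm n (OT m) (ds m F) U - ∑ m, sm n (lA m) (d2 m F) U := by
  simp only [jA_eq, sm_add, sm_sub, sm_sum, sm_dvg hn hU hF, sm_lap hn hU hF]
  ring

end

section
variable {a0 a1 a2 : ℝ} (h : Jet2 n a0 a1 a2 F F')
include h

/-- differences on a coarser lattice -/
theorem jet_ds (e : ℕ) (m : Fin 4) (y : St) :
    ‖ds m (fun y => F ((e : ℤ) • y)) y - e * F' m ((e : ℤ) • y)‖ ≤ a2 * e ^ 2 ∧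
      ‖d2 m (fun y => F ((e : ℤ) • y)) y‖ ≤ 2 * (a2 * e ^ 2) := by
  have b : ∀ s : ℤ, |s| ≤ e → ‖F ((e : ℤ) • y + s • un m) - F ((e : ℤ) • y) -
      s * F' m ((e : ℤ) • y)‖ ≤ a2 * e ^ 2 := fun s hs => by
    have := h.tay ((e : ℤ) • y) e (s • un m) (mem_box.2 fun i => by
      rw [abs_le] at hs
      by_cases k : i = m <;> simp [un, k, hs.1, hs.2])
    simpa [un, Pi.single_apply] using this
  have b1 := b e (by simp)
  have b2 := b (-e) (by simp)
  simp only [ds, d2, smul_add, smul_sub]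
  rw [neg_smul, ← sub_eq_add_neg] at b2
  push_cast at b1 b2
  refine ⟨le_of_mul_le_mul_left ?_ two_pos, ?_⟩
  · rw [two_mul (a2 * _), ← Complex.norm_two, ← norm_mul]
    exact (congrArg norm (by ring)).trans_le (norm_sub_le_of_le b1 b2)
  · rw [two_mul (a2 * _)]
    exact (congrArg norm (by ring)).trans_le (norm_add_le_of_le b1 b2)

theorem jet_ds1 (m : Fin 4) (y : St) : ‖ds m F y - F' m y‖ ≤ a2 ∧ ‖d2 m F y‖ ≤ 2 * a2 := by
  simpa using jet_ds h 1 m y

omit h in
theorem lip_gv {a : ℝ} (h : Pos.LipT n a F) (g : B4) : Pos.LipT n a fun x => F (gv g x) :=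
  fun x y R ⟨v, e⟩ => h _ _ R ⟨gv g v, by simpa only [gv_sub, gv_smul] using gv_box g e⟩

theorem jet_gv (g : B4) : Jet2 n a0 a1 a2 (fun x => F (gv g x)) (gF g F') := by
  refine ⟨ps_gv h.per g, ps_gF h.per' g, fun x => h.bd _, fun m x => ?_, fun m => ?_,
    fun x R w hw => ?_⟩
  · unfold gF cd
    split_ifs <;> simpa using h.bd' _ _
  · unfold gF cd
    split_ifs
    · exact lip_gv (h.lip _) g
    · exact fun x y R e => by
        simpa only [Pi.neg_apply, ← neg_sub', norm_neg] using lip_gv (h.lip _) g x y R e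
  · have := h.tay (gv g x) R _ (gv_box g hw)
    rw [sum_ax g (φ := fun (a : ℤ) (b : St → ℂ) => (a : ℂ) * b (gv g x)) (by simp)] at this
    simp only [cd_gv', gv_add] at this ⊢
    exact this

end

/-- the averaged equation of motion -/
theorem sd_jA (hn : Odd n) (h1 : n ≠ 1) (b : ℝ) (hF : PS n F) {O : Conf → ℂ} (hO : Continuous O)
    (hi : ∀ U V, Per n U → Per n V →
      (∀ e : Lk, F e.1 = 0 → F (e.1 + un e.2) = 0 → U e = V e) → O U = O V) :
    ∫ U, wil b n (pc n U) * (sm n jA F (pc n U) * O (pc n U)) ∂PP = 0 := by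
  have : NeZero n := ⟨hn.pos.ne'⟩
  have e : ∀ g : B4, ∫ U, wil b n (pc n U) * (sm n (act g jL) F (pc n U) * O (pc n U)) ∂PP = 0 :=
    fun g => by
    have c : Continuous fun U => O (pb Inv.inv g⁻¹ U) := hO.comp (cont_pb g⁻¹)
    refine Eq.trans ?_ ((int_pb hn b g (F := fun U => sm n jL (fun x => F (gv g x)) U *
      O (pb Inv.inv g⁻¹ U)) ((sm_cont ..).mul c)).trans (Em.sd_jL hn h1 b _ c
      fun U V a b k => hi _ _ (per_pb _ _ a) (per_pb _ _ b) fun e e1 e2 => ?_))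
    · simp only [sm_act, ← pb_mul inv_inv, mul_inv_cancel]
      rfl
    · have := gv_dv g⁻¹ (e.2, true)
      simp only [ps_rc' (ps_gv hF g)] at k
      unfold pb stp
      split_ifs with t
      · exact k _ (by simpa using e1)
      · rw [k _ (by
          rw [dv, dv, if_pos rfl, if_neg t] at this
          rwa [sub_eq_add_neg, ← this, ← gv_add, gv_inv'])]
  have c : Continuous fun U : Conf => (wil b n (pc n U) : ℂ) := by
    simp only [wil_eq hn (Mx.per_pc n _)]
    exact (continuous_const.mul ((sm_cont ..).comp (Mx.cont_pc n))).neg.cexp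
  simp only [jA, avg_apply, sm_smul, sm_sum, sum_mul, mul_sum, mul_assoc,
    mul_left_comm (wil b n _ : ℂ) (sg _ _), mul_left_comm (wil b n _ : ℂ) (_⁻¹)]
  rw [integral_finsetSum _ fun g _ => ?_]
  · simp only [integral_const_mul, e, mul_zero, sum_const_zero]
  · exact ((Continuous.integrable_of_hasCompactSupport (c.mul
      (((sm_cont ..).mul hO).comp (Mx.cont_pc n))) (.of_compactSpace _)).const_mul _).const_mul _

end Pool.Agent.Lib.MP_7f377f_mp.RG.Wd
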