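import Pool.Agent.Lib.MP_7f377f_mp.G.CaH4
import Pool.Agent.Lib.MP_7f377f_mp.G.CaCut
import Pool.Agent.Lib.MP_7f377f_mp.G.StQ

/-! Lattice states: linearity, covariance, limits, sampled test functions. -/

noncomputable section

set_option linter.unusedSectionVars false
variable [Pool.Agent.Lib.MP_7f377f_mp.GD]

namespace Pool.Agent.Lib.MP_7f377f_mp.Ob

open MeasureTheory YM7 Pur MvPolynomial

variable {n : ℕ} [NeZero n] [MeasurableSpace SU2] [BorelSpace SU2] {h : Measure SU2}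
  [h.IsHaarMeasure] [IsProbabilityMeasure h] {b a : ℝ} {O O' : Cfg n → ℂ} {Z Z' : Pol}

theorem iw_apply (hO : Integrable O (wilson h b n)) (Z : Pol) :
    iw n h b a O Z = ∫ U, O U * evc h b n a Z U ∂wilson h b n := by
  rw [iw, dif_pos hO]
  rfl

theorem lex_apply (Z : Pol) : lex n h b a Z = ∫ U, evc h b n a Z U ∂wilson h b n := by
  rw [lex, iw_apply (O := 1) (integrable_const 1)]
  simp only [Pi.one_apply, one_mul]

theorem iw_add (hO : Integrable O (wilson h b n)) (hO' : Integrable O' (wilson h b n)) :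
    iw n h b a (fun U => O U + O' U) = iw n h b a O + iw n h b a O' := LinearMap.ext fun Z => by
  rw [LinearMap.add_apply, iw_apply (O := fun U => O U + O' U) (hO.add hO'), iw_apply hO, iw_apply hO',
    ← integral_add (int_mul hO Z) (int_mul hO' Z)]
  simp only [add_mul]

theorem iw_smul (c : ℂ) (O : Cfg n → ℂ) : iw n h b a (fun U => c * O U) = c • iw n h b a O := by
  by_cases hO : Integrable O (wilson h b n)
  · refine LinearMap.ext fun Z => ?_
    rw [LinearMap.smul_apply, iw_apply (hO.const_mul c), iw_apply hO, ← integral_smul]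
    simp only [smul_eq_mul, mul_assoc]
  obtain rfl | hc := eq_or_ne c 0
  · refine LinearMap.ext fun Z => ?_
    simp [iw_apply (O := fun _ => 0) (integrable_zero _ _ _)]
  · rw [iw, iw, dif_neg hO, smul_zero]
    exact dif_neg fun e => hO ((integrable_smul_iff hc O).1 e)

theorem iw_mul (hO : Integrable O (wilson h b n)) (Y Z : Pol) :
    iw n h b a (fun U => O U * evc h b n a Y U) Z = iw n h b a O (Y * Z) := by
  simp only [iw_apply hO, iw_apply (int_mul hO Y), map_mul, Pi.mul_apply, mul_assoc]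

theorem evc_lin (g g' : R4 → ℝ) (c : ℝ) :
    evc h b n a (X (g + c • g')) = evc h b n a (X g + (c : ℂ) • X g') := funext fun U => by
  have e : (sy fun x : Weak.Site 4 n => (g + c • g') (xp a x)) =
      (sy fun x => g (xp a x)) + c • sy fun x => g' (xp a x) := by
    funext x μ ν
    simp only [sy, Pi.add_apply, Pi.smul_apply, smul_eq_mul]
    ring
  have := congrArg (fun φ : C(Cfg n, ℝ) => (φ U : ℂ)) (((cenL h b).map_add _ _).trans
    (congrArg _ ((cenL h b).map_smul c _)) : cenL h b ((sy fun x => g (xp a x)) +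
      c • sy fun x => g' (xp a x)) = _)
  rw [map_add, map_smul, Pi.add_apply, Pi.smul_apply, evc_X, evc_X, evc_X, e]
  simpa [cenL] using this

theorem iw_lin (O : Cfg n → ℂ) (g g' : R4 → ℝ) (c : ℝ) (Z : Pol) :
    iw n h b a O (X (g + c • g') * Z) = iw n h b a O (X g * Z) + c * iw n h b a O (X g' * Z) := by
  by_cases hO : Integrable O (wilson h b n)
  · rw [← smul_eq_mul (c : ℂ), ← map_smul, ← map_add, ← smul_mul_assoc, ← add_mul]
    simp only [iw_apply hO, map_mul, evc_lin]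
  · simp [iw, hO]

theorem int_th {Θ : Cfg n → Cfg n} (hΘ : MeasurePreserving Θ (wilson h b n) (wilson h b n))
    (hO : Integrable O (wilson h b n)) : ∫ U, O (Θ U) ∂wilson h b n = ∫ U, O U ∂wilson h b n := by
  rw [← integral_map hΘ.measurable.aemeasurable (hΘ.map_eq.symm ▸ hO.1), hΘ.map_eq]

theorem iw_th {Θ : Cfg n → Cfg n} (hΘ : MeasurePreserving Θ (wilson h b n) (wilson h b n))
    (hO : Integrable O (wilson h b n)) (e : ∀ U, evc h b n a Z' U = evc h b n a Z (Θ U)) :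
    iw n h b a (fun U => O (Θ U)) Z' = iw n h b a O Z := by
  rw [iw_apply (O := fun U => O (Θ U)) (hΘ.integrable_comp_of_integrable hO), iw_apply hO,
    ← int_th hΘ (int_mul hO Z)]
  simp only [e]

end Pool.Agent.Lib.MP_7f377f_mp.Ob

namespace Pool.Agent.Lib.MP_7f377f_mp.RG.Wd

open Finset Function YM7

theorem gv_rsm (g : B4) (c : ℝ) (x : Fin 4 → ℝ) : gv g (c • x) = c • gv g x :=
  gv_map g x (AddMonoidHom.mulLeft c)

/-- the action on Euclidean space -/
def gR (g : B4) : Ro.Iso where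
  toFun y := WithLp.toLp 2 (gv g y.ofLp)
  invFun y := WithLp.toLp 2 (gv g⁻¹ y.ofLp)
  map_add' x y := congrArg _ (gv_add g _ _)
  map_smul' c x := congrArg _ (gv_rsm g c _)
  left_inv y := congrArg (WithLp.toLp 2) (gv_inv g _)
  right_inv y := congrArg (WithLp.toLp 2) (gv_inv' g _)
  norm_map' y := by
    simp only [EuclideanSpace.norm_eq, Real.norm_eq_abs, sq_abs]
    simp only [sq]
    exact congrArg _ (sum_ax g⁻¹ (φ := fun a b : ℝ => a * b) neg_mul_neg _ _).symm

theorem gR_apply (g : B4) (y : R4) (l : Fin 4) : gR g y l = gv g y.ofLp l := rfl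

theorem gR_symm (g : B4) : (gR g).symm = gR g⁻¹ := LinearIsometryEquiv.ext fun _ => rfl

theorem gR_mul (g h : B4) : gR (g * h) = gR g * gR h :=
  LinearIsometryEquiv.ext fun _ => congrArg (WithLp.toLp 2) (gv_mul g h _)

theorem gv_pe {R : Type} [Neg R] (σ : Equiv.Perm (Fin 4)) (x : Fin 4 → R) :
    gv (pe σ) x = fun i => x (σ.symm i) := rfl

theorem rf_inv (μ : Fin 4) : (rf μ)⁻¹ = rf μ := rfl

theorem gv_rf {R : Type} [Neg R] (μ : Fin 4) (x : Fin 4 → R) :
    gv (rf μ) x = update x μ (-x μ) := funext fun i => by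
  by_cases e : i = μ <;> simp [gv, rf_inv, rf_apply, cd, fl, e]

theorem gR_pe (σ : Equiv.Perm (Fin 4)) : gR (pe σ) = Ro.prm σ := by
  ext y i
  rw [Ro.prm_apply]
  rfl

theorem prm_sw (i j : Fin 4) : (Ro.prm (Equiv.swap i j)).symm = Ro.prm (Equiv.swap i j) := by
  rw [← gR_pe, gR_symm]
  exact congrArg (fun σ => gR (pe σ)) (Equiv.symm_swap i j)

theorem gR_rf (μ : Fin 4) (y : R4) : gR (rf μ) y = Pur.rf μ y := congrArg _ (gv_rf μ _)

theorem gR_ee (g : B4) (m : Fin 4) : gR g (EuclideanSpace.single m 1) =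
    cd (fun m => EuclideanSpace.single m (1 : ℝ)) (g.1 (m, true)) := by
  have e : ∀ d, (cd (fun m => EuclideanSpace.single m (1 : ℝ)) d : R4).ofLp = fun i => (dv d i : ℝ) :=
    fun ⟨m, b⟩ => funext fun i => by cases b <;> by_cases u : i = m <;> simp [cd, dv, un, u]
  refine WithLp.ofLp_injective 2 ?_
  rw [e, ← gv_dv]
  exact (congrArg (gv g) (e (m, true))).trans (gv_map g _ (Int.castAddHom ℝ))

end Pool.Agent.Lib.MP_7f377f_mp.RG.Wd

namespace Pool.Agent.Lib.MP_7f377f_mp.RG.Q4.En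

open Finset Function Sg Real Pos MeasureTheory Filter YM7 Topology
open Wd hiding pb ps_rc'

variable {n e : ℕ} {a R V : ℝ} {r : Prop} {T : Tj} {f f' : R4 → ℝ}

/-! ### Test functions -/

/-- the action of the group on test functions -/
def Tj.pb (g : B4) (T : Tj) : Tj := fun o =>
  o.elim (fun x => T none (gv g x)) (gF g fun m => T (some m))

theorem Tj.pb_rf (μ : Fin 4) (T : Tj) : T.pb (Wd.rf μ) = T.rf μ := by
  funext o x
  obtain _ | m := o
  · simp [Tj.pb, Tj.rf, gv_rf]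
  · by_cases u : m = μ <;> simp [Tj.pb, Tj.rf, gF, rf_apply, Wd.cd, Wd.fl, gv_rf, u]

theorem lip_tr {F : St → ℂ} (h : LipT n a F) (v : St) : LipT n a fun x => F (x + v) :=
  fun x y R ⟨u, hu⟩ => h _ _ R ⟨u, by rwa [add_sub_add_right_eq_sub]⟩

theorem Tj.Nm.pb (h : T.Nm n a r) (g : B4) : (T.pb g).Nm n a r := by
  refine ⟨fun o => ?_, lip_gv h.lip _, fun m x => ?_, fun hr => Wd.jet_gv (h.two hr) g⟩
  · obtain _ | m := o
    · exact ⟨ps_gv (h.bd _).1 _, fun x => (h.bd _).2 _⟩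
    · refine ⟨ps_gF (fun m => (h.bd _).1) g m, fun x => ?_⟩
      simp only [Tj.pb, Option.elim, gF, Wd.cd]
      split_ifs <;> simpa using (h.bd _).2 _
  · simp only [Tj.pb, Option.elim, gF, Wd.cd]
    split_ifs <;> simpa using h.bd' _ _

theorem Tj.Nm.tr (h : T.Nm n a r) (v : St) : (T.tr v).Nm n a r :=
  have p := Tj.ps_tr (fun o => (h.bd o).1) v
  ⟨fun o => ⟨p o, fun _ => (h.bd o).2 _⟩, lip_tr h.lip v, fun m _ => h.bd' m _, fun hr =>
    ⟨p _, fun _ => p _, fun _ => ((h.bd _).2 _).1, fun m _ => h.bd' m _,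
      fun m => lip_tr ((h.two hr).lip m) v, fun x R w hw => by
        simpa only [Tj.tr, add_right_comm x w] using (h.two hr).tay (x + v) R w hw⟩⟩

theorem nm_cl : Tj.Cl n e (Tj.Nm n a r) :=
  ⟨fun _ h => h.bd, fun T h μ => T.pb_rf μ ▸ h.pb _, fun _ h _ => h.tr _⟩

theorem jet_ps (n : ℕ) (a : ℝ) (f : R4 → ℝ) (o : Option (Fin 4)) : PS n (jet n a f o) := fun x v => by
  have : Fi.cst n (x + (n : ℤ) • v) = Fi.cst n x := funext fun i => by simp [Fi.cst]
  simp only [jet, this]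

theorem jet_im (n : ℕ) (a : ℝ) (f : R4 → ℝ) (o : Option (Fin 4)) (x : St) :
    (jet n a f o x).im = 0 := Complex.ofReal_im _

/-- the gradient -/
theorem jet_pd (n : ℕ) (a : ℝ) (f : R4 → ℝ) (m : Fin 4) :
    jet n a f (some m) = (a : ℂ) • jet n a (Fx.pd m f) none := funext fun _ => Complex.ofReal_mul _ _

theorem jet_lin (h : Differentiable ℝ f) (h' : Differentiable ℝ f') (c : ℝ) :
    jet n a (f + c • f') = jet n a f + (c : ℂ) • jet n a f' := by
  funext o x
  obtain _ | m := o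
  · simp [jet]
  · simp [jet, St.pd_add h h', mul_add, mul_left_comm]

theorem jet_add (h : Differentiable ℝ f) (h' : Differentiable ℝ f') :
    jet n a (f + f') = jet n a f + jet n a f' := by simpa using jet_lin h h' 1

theorem jet_smul (c : ℝ) (f : R4 → ℝ) : jet n a (c • f) = (c : ℂ) • jet n a f := by
  funext o x
  obtain _ | m := o
  · simp [jet]
  · have : Fx.pd m (c • f) = c • Fx.pd m f := funext fun _ => deriv_const_mul_field _
    simp [jet, this, mul_left_comm]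

theorem xp_gv (hn : Odd n) (g : B4) (x : St) : xp a (Fi.cst n (gv g x)) = gR g (xp a (Fi.cst n x)) := by
  have : NeZero n := ⟨hn.pos.ne'⟩
  ext l
  simp only [gR_apply, xp, gv, Wd.cd, Fi.cst]
  split_ifs
  · rfl
  · rw [Int.cast_neg, ZMod.valMinAbs_neg_of_ne_half fun e => by have := Nat.odd_iff.1 hn; omega,
      Int.cast_neg, mul_neg]

theorem pd_gR (g : B4) (f : R4 → ℝ) (y : R4) (m : Fin 4) : Fx.pd m (fun y => f (gR g y)) y =
    Wd.cd (fun m => Fx.pd m f (gR g y)) (g.1 (m, true)) := by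
  simp only [Fx.pd, lineDeriv, map_add, map_smul, gR_ee, Wd.cd]
  split_ifs
  · rfl
  · exact lineDeriv_neg

theorem jet_pb (hn : Odd n) (g : B4) (f : R4 → ℝ) :
    jet n a (fun y => f (gR g y)) = (jet n a f).pb g := by
  funext o x
  obtain _ | m := o
  · simp only [jet, Tj.pb, Option.elim, xp_gv hn]
  · simp only [jet, Tj.pb, Option.elim, pd_gR, gF, Wd.cd]
    split_ifs <;> simp [jet, xp_gv hn]

theorem jet_gR (hn : Odd n) (g : B4) (f : R4 → ℝ) :
    (jet n a (fun y => f (gR g y)) none = fun x => jet n a f none (gv g x)) ∧ ∀ m,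
      jet n a (fun y => f (gR g y)) (some m) = gF g (fun m => jet n a f (some m)) m :=
  jet_pb hn g f ▸ ⟨rfl, fun _ => rfl⟩

theorem jet_rf (hn : Odd n) (μ : Fin 4) (f : R4 → ℝ) :
    jet n a (fun y => f (Pur.rf μ y)) = (jet n a f).rf μ := by
  simpa only [gR_rf, Tj.pb_rf] using jet_pb hn (Wd.rf μ) f

theorem jet_add0 (n : ℕ) (a : ℝ) (f f' : R4 → ℝ) :
    jet n a (f + f') none = jet n a f none + jet n a f' none :=
  funext fun _ => Complex.ofReal_add _ _

variable [NeZero n]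

theorem jet_sh (hf : tsupport f ⊆ Pur.Bx R) (ha : 0 < a) {v : St} (hv : ∀ l, |a * v l| ≤ V)
    (hn : 2 * (R + V) < a * n) :
    jet n a (fun y => f (y - WithLp.toLp 2 fun l => a * v l)) = fun o x => jet n a f o (x - v) := by
  have e : ∀ f : R4 → ℝ, tsupport f ⊆ Pur.Bx R → ∀ x, f (xp a (Fi.cst n x) - WithLp.toLp 2
      fun l => a * v l) = f (xp a (Fi.cst n (x - v))) := fun f hf x => by
    have := Ob.xp_add (s := -v) (V := V) (fun y hy l => (hf (subset_tsupport _ hy) l).le) ha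
      (by simpa using hv) hn (Fi.cst n x)
    simp only [Pi.neg_apply, Int.cast_neg, mul_neg, ← Pi.neg_def, WithLp.toLp_neg,
      ← sub_eq_add_neg] at this
    rw [Fi.cst_sub]
    exact this.symm
  funext o x
  obtain _ | m := o
  · simp only [jet, Option.elim, e f hf]
  · simp only [jet, Option.elim, St.pd_sub, e _ (St.pd_ts.trans hf)]

theorem lip_xp {K : ℝ} (hf : ∀ y, f y ≠ 0 → ∀ l, |y l| ≤ R) (hl : ∀ y z, |f y - f z| ≤ K * ‖y - z‖)
    (ha : 0 < a) (h1 : a ≤ 1) (hn : 2 * (R + 1) < a * n) :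
    LipT n (4 * (K * a)) fun x => f (xp a (Fi.cst n x)) :=
  lipT_zmod (g := fun x => f (xp a x)) fun x l => by
    have := Ob.xp_add (s := un l) (V := 1) hf ha
      (fun i => by by_cases u : i = l <;> simp [un, u, abs_of_pos ha, h1]) hn x
    rw [show (fun i => ((un l i : ℤ) : ZMod n)) = Pi.single l 1 from Fi.cst_un1 l] at this
    rw [this]
    refine (hl _ _).trans_eq ?_
    rw [add_sub_cancel_left, show (WithLp.toLp 2 fun i => a * (un l i : ℤ) : R4) =
      EuclideanSpace.single l a by ext i; by_cases u : i = l <;> simp [un, u],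
      PiLp.norm_single, norm_of_nonneg ha.le]

theorem nm_smp (hd : Differentiable ℝ f) (hf : tsupport f ⊆ Pur.Bx R) (b0 : ∀ y, |f y| ≤ 6⁻¹)
    (b1 : ∀ y, ‖fderiv ℝ f y‖ ≤ 6⁻¹)
    (b2 : r → ∀ y z, ‖fderiv ℝ f y - fderiv ℝ f z‖ ≤ 6⁻¹ * ‖y - z‖) (ha : 0 < a) (h1 : a ≤ 1)
    (hn : 2 * (R + 1) < a * n) : Tj.Nm n a r (jet n a f) := by
  have s0 := fun y hy l => (hf (subset_tsupport f (a := y) hy) l).le
  have c0 : ∀ x, ‖jet n a f none x‖ ≤ 6⁻¹ := fun x => (Complex.norm_real _).trans_le (b0 _)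
  have c1 : ∀ m x, ‖jet n a f (some m) x‖ ≤ a * 6⁻¹ := fun m x => by
    rw [jet, Complex.norm_real, Option.elim, norm_mul, norm_of_nonneg ha.le, Fx.pd_eq hd]
    exact mul_le_mul_of_nonneg_left ((ContinuousLinearMap.le_opNorm _ _).trans
      (by simpa using b1 _)) ha.le
  have c2 : ∀ m x, ‖jet n a f (some m) x‖ ≤ a := fun m x => (c1 m x).trans (by linarith)
  have mo : ∀ {F c c'}, LipT n c F → c ≤ c' → LipT n c' F := fun h e x y R u =>
    (h x y R u).trans (mul_le_mul_of_nonneg_right e R.cast_nonneg)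
  refine ⟨fun o => ⟨jet_ps _ _ _ _, fun x => ⟨?_, jet_im ..⟩⟩, mo (lip_xp (K := 6⁻¹) s0 (fun y z =>
    convex_univ.norm_image_sub_le_of_norm_fderiv_le (fun y _ => hd y) (fun y _ => b1 y) trivial
      trivial) ha h1 hn) (by linarith), c2, fun hr => ⟨jet_ps _ _ _ _, fun _ => jet_ps _ _ _ _,
    fun x => (c0 x).trans (by norm_num), c2, fun m => mo (lip_xp (f := fun y => a * Fx.pd m f y)
      (K := a * 6⁻¹) (fun y hy l => (hf (St.pd_ts (subset_tsupport _ (right_ne_zero_of_mul hy))) l).le)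
      (fun y z => ?_) ha h1 hn) (by nlinarith), fun x S w hw => ?_⟩⟩
  · cases o
    exacts [(c0 x).trans (by norm_num), (c2 _ x).trans h1]
  · rw [← mul_sub, abs_mul, abs_of_pos ha, mul_assoc, Fx.pd_eq hd]
    refine mul_le_mul_of_nonneg_left (le_trans ?_ (b2 hr y z)) ha.le
    simpa using (fderiv ℝ f y - fderiv ℝ f z).le_opNorm (EuclideanSpace.single m 1)
  have w1 : ∀ l, |(w l : ℝ)| ≤ S := fun l => by exact_mod_cast abs_le.2 (mem_box.1 hw l)
  rw [← mul_pow]
  rcases le_total (a * S) 1 with u | u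
  · have w2 : ∀ l, |a * w l| ≤ a * S := fun l => by
      rw [abs_mul, abs_of_pos ha]
      exact mul_le_mul_of_nonneg_left (w1 l) ha.le
    have e := Ob.xp_add (s := w) s0 ha (fun l => (w2 l).trans u) hn (Fi.cst n x)
    generalize hv : (WithLp.toLp 2 fun l => a * w l : R4) = v at e
    have v1 : ‖v‖ ≤ 2 * (a * S) := by
      simpa [← hv] using dist_le_two (y := v) (z := 0) (w := a * S) (by simpa [← hv] using w2)
    have v2 : v = ∑ m, (a * w m) • EuclideanSpace.single m (1 : ℝ) := by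
      ext i
      simp [← hv, Pi.single_apply]
    have t := (convex_closedBall (xp a (Fi.cst n x)) ‖v‖).norm_image_sub_le_of_norm_fderiv_le'
      (f := f) (C := 6⁻¹ * ‖v‖) (φ := fderiv ℝ f (xp a (Fi.cst n x))) (y := xp a (Fi.cst n x) + v)
      (fun y _ => hd y) (fun y hy => (b2 hr _ _).trans (by gcongr; exact mem_closedBall_iff_norm.1 hy))
      (Metric.mem_closedBall_self (norm_nonneg v)) (by simp)
    rw [add_sub_cancel_left, ← e] at t
    refine le_trans (le_of_eq ?_) (t.trans (by nlinarith [norm_nonneg v]))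
    rw [← Complex.norm_real, v2]
    simp only [jet, Option.elim, Fx.pd_eq hd, map_sum, map_smul, smul_eq_mul, Fi.cst_add]
    push_cast
    simp only [mul_assoc, mul_left_comm (a : ℂ)]
    rfl
  · refine (norm_sub_le_of_le (norm_sub_le_of_le (c0 _) (c0 _)) (norm_sum_le_of_le _
      (n := fun _ => S * (a * 6⁻¹)) fun m _ => norm_mul_le_of_le ?_ (c1 m x))).trans ?_
    · simpa using w1 m
    · simp only [sum_const, card_univ, Fintype.card_fin, nsmul_eq_mul]
      nlinarith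

omit [NeZero n] in
/-- sampled functions are normalised -/
theorem nm_jet (hf : HasCompactSupport f) (h1 : ContDiff ℝ 1 f) (h2 : r → ContDiff ℝ 2 f) :
    ∃ C > (0 : ℝ), ∃ R : ℝ, ∀ (n : ℕ) a, Odd n → 0 < a → a ≤ 1 → R ≤ a * n →
      Tj.Nm n a r (jet n a (C⁻¹ • f)) := by
  obtain ⟨R, hR⟩ := hf.isCompact.isBounded.subset_ball 0
  obtain ⟨A, h0⟩ := hf.exists_bound_of_continuous h1.continuous
  obtain ⟨B, h3⟩ := (hf.fderiv ℝ).exists_bound_of_continuous (h1.continuous_fderiv one_ne_zero)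
  obtain ⟨D, h4⟩ : ∃ D : NNReal, r → LipschitzWith D (fderiv ℝ f) := by
    by_cases hr : r
    · exact (ContDiff.lipschitzWith_of_hasCompactSupport (hf.fderiv ℝ)
        ((h2 hr).fderiv_right (m := 1) le_rfl) one_ne_zero).imp fun _ e _ => e
    · exact ⟨0, fun e => (hr e).elim⟩
  have A0 := (norm_nonneg _).trans (h0 0)
  have B0 := (norm_nonneg _).trans (h3 0)
  have D0 := D.2
  have hd := h1.differentiable one_ne_zero
  have C0 : 0 < 6 * (A + B + D + 1) := by positivity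
  have k : ∀ x t : ℝ, 0 ≤ t → x ≤ (A + B + D + 1) * t →
      ‖(6 * (A + B + D + 1))⁻¹‖ * x ≤ 6⁻¹ * t := fun x t _ e => by
    rw [norm_of_nonneg (inv_pos.2 C0).le, inv_mul_le_iff₀ C0]
    linarith
  refine ⟨_, C0, 2 * (R + 1) + 1, fun n a hn ha a1 e => ?_⟩
  have : NeZero n := ⟨hn.pos.ne'⟩
  refine nm_smp (R := R) (hd.const_smul _) (fun y hy l => (PiLp.norm_apply_le y l).trans_lt
    (mem_ball_zero_iff.1 (hR (tsupport_smul_subset_right (fun _ => (_ : ℝ)⁻¹) f hy)))) (fun y => ?_)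
    (fun y => ?_) (fun hr y z => ?_) ha a1 (by linarith)
  · exact (norm_smul _ _).trans_le ((k ‖f y‖ 1 zero_le_one (by linarith [h0 y])).trans_eq (mul_one _))
  · simpa only [mul_one, ← norm_smul, fderiv_const_smul (hd y)] using
      k ‖fderiv ℝ f y‖ 1 zero_le_one (by linarith [h3 y])
  · rw [fderiv_const_smul (hd y), fderiv_const_smul (hd z), ← smul_sub, norm_smul]
    exact k _ _ (norm_nonneg _) (((h4 hr).norm_sub_le y z).trans (by gcongr; linarith))

/-! ### Symmetries of the Wilson measure -/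

theorem sm_sy (hn : Odd n) (φ : Weak.Site 4 n → ℝ) (U : Cfg n) :
    sm n phS (fun x => φ (Fi.cst n x)) (Fi.lf U) = gfield (Ob.sy φ) U := by
  rw [sm_phS hn (per_lf U), ← Br.sO_lf hn]
  congr 1
  funext x μ ν
  simp only [cav, Br.symF, Ob.sy, Fi.cst_rc, Fi.cst_add, Fi.cst_un1, ← add_assoc]
  rcases le_total μ ν with u | u
  · rw [min_eq_left u, max_eq_right u]
    push_cast
    ring
  · rw [min_eq_right u, max_eq_left u, add_right_comm _ (Pi.single ν 1 : Weak.Site 4 n)]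
    push_cast
    ring

/-- the action of the group on fields on the torus -/
def thB (g : B4) (U : Cfg n) : Cfg n := Fi.rs n (Wd.pb Inv.inv g (Fi.lf U))

theorem lf_th (g : B4) (U : Cfg n) : Fi.lf (thB g U) = Wd.pb Inv.inv g (Fi.lf U) :=
  (Fi.lf_rs _).trans (Sh.pc_per (per_pb _ g (per_lf U)))

theorem mp_th (hn : Odd n) (b : ℝ) (g : B4) :
    MeasurePreserving (thB g) (wilson (Fi.tr haar) b n) (wilson (Fi.tr haar) b n) := by
  let _ := YM5.quatHS
  have m : Measurable (thB (n := n) g) := Fi.meas_rs.comp ((cont_pb g).measurable.comp Fi.meas_lf)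
  rw [wilson_nu]
  refine Weak.nu_mp _ _ YM5.rho_cont _ ⟨m, ?_⟩ fun U => ?_
  · rw [← Fi.map_res, Measure.map_map m Fi.meas_rs, show thB g ∘ Fi.rs n =
      Fi.rs n ∘ fun U => Wd.pb Inv.inv g (pc n U) from funext fun U => by rw [comp, thB, Fi.lf_rs]; rfl,
      ← Measure.map_map Fi.meas_rs (f := fun U => Wd.pb Inv.inv g (pc n U))
        ((cont_pb g).measurable.comp Fi.meas_pc)]
    erw [map_pb, Measure.map_map Fi.meas_rs Fi.meas_pc]
    exact congrArg (Measure.map · _) (funext Fi.rs_pc)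
  · have := wil_pb hn (per_lf U) 1 g
    rw [← lf_th, Br.wil_lf hn, Br.wil_lf hn, exp_eq_exp, neg_one_mul, neg_one_mul, neg_inj] at this
    rw [YM5.act_rho, YM5.act_rho]
    exact congrArg _ this

theorem evc_act (hn : Odd n) (b : ℝ) (g : B4) (Z : Pur.Pol) (U : Cfg n) :
    Ob.evc (Fi.tr haar) b n a (Ro.act (gR g) Z) U = Ob.evc (Fi.tr haar) b n a Z (thB g U) := by
  induction Z using MvPolynomial.induction_on with
  | C c => rw [Ro.act, MvPolynomial.rename_C, Ob.evc_C, Ob.evc_C]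
  | add p q e e' => simp only [map_add, Pi.add_apply, e, e']
  | mul_X p f e =>
    simp only [map_mul, Pi.mul_apply, e, Ro.act_X, Ob.evc_X]
    refine congrArg _ (congrArg _ (cen_of _ b (mp_th hn b g)
      (fun U => Complex.ofReal_injective ?_) U))
    rw [← sm_sy hn, ← sm_sy hn, lf_th, ← act_phS g, sm_act, act_phS]
    simp only [xp_gv hn, LinearIsometryEquiv.symm_apply_apply]

namespace Gl

open Ob Pur
open Ope (cv gp)
open MvPolynomial (X)

variable (G : Gl) (β : ℕ × ℕ → ℝ) (p : ℕ × ℕ) {O O' : Conf → ℂ} {Z : Pol}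

/-- correlations of an observable -/
def vW (O : Conf → ℂ) : Pol →ₗ[ℂ] ℂ :=
  Ob.iw (G.nn p) (Fi.tr haar) (β p) (G.aa p) fun U => O (Fi.lf U)

/-- polynomials as observables -/
def vP (Y : Pol) (U : Conf) : ℂ := evc (Fi.tr haar) (β p) (G.nn p) (G.aa p) Y (Fi.rs _ U)

theorem nn_odd : Odd (G.nn p) := (odd_two_mul_add_one _).mul (Odd.pow (by decide))

theorem vI_eq (O : Conf → ℂ) : G.vI β p O = G.vW β p O - G.vM β p O • G.vE β p := rfl

theorem vW_eq (O : Conf → ℂ) (Z : Pol) :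
    G.vW β p O Z = G.vI β p O Z + G.vM β p O * G.vE β p Z := (sub_add_cancel _ _).symm

theorem vW_const (c : ℂ) : (G.vW β p fun _ => c) = c • G.vE β p := by
  simpa only [vW, vE, Ob.lex, Pi.one_apply, mul_one] using iw_smul c (1 : Cfg (G.nn p) → ℂ)

theorem vM_const (c : ℂ) : (G.vM β p fun _ => c) = c := by simp [vM]

theorem vI_const (c : ℂ) : (G.vI β p fun _ => c) = 0 := by
  rw [vI_eq, vW_const, vM_const, sub_self]

theorem vE_one : G.vE β p 1 = 1 := by simp [vE, lex_apply]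

theorem vW_smul (c : ℂ) (O : Conf → ℂ) : (G.vW β p fun U => c * O U) = c • G.vW β p O :=
  iw_smul c _

theorem vM_smul (c : ℂ) (O : Conf → ℂ) : (G.vM β p fun U => c * O U) = c * G.vM β p O :=
  integral_const_mul c _

theorem vI_smul (c : ℂ) (O : Conf → ℂ) : (G.vI β p fun U => c * O U) = c • G.vI β p O := by
  rw [vI_eq, vI_eq, vW_smul, vM_smul, smul_sub, smul_smul]

theorem vI_neg (O : Conf → ℂ) : (G.vI β p fun U => -O U) = -G.vI β p O := by
  simpa using G.vI_smul β p (-1) O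

theorem vW_lin (O : Conf → ℂ) (g g' : R4 → ℝ) (c : ℝ) (Z : Pol) :
    G.vW β p O (X (g + c • g') * Z) = G.vW β p O (X g * Z) + c * G.vW β p O (X g' * Z) :=
  iw_lin ..

theorem vE_lin (g g' : R4 → ℝ) (c : ℝ) (Z : Pol) :
    G.vE β p (X (g + c • g') * Z) = G.vE β p (X g * Z) + c * G.vE β p (X g' * Z) := iw_lin ..

theorem vI_lin (O : Conf → ℂ) (g g' : R4 → ℝ) (c : ℝ) (Z : Pol) :
    G.vI β p O (X (g + c • g') * Z) = G.vI β p O (X g * Z) + c * G.vI β p O (X g' * Z) := by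
  simp only [vI_eq, LinearMap.sub_apply, LinearMap.smul_apply, vW_lin, vE_lin, smul_eq_mul]
  ring

theorem vE_linP : LinP (G.vE β p) := fun g g' c _ _ _ _ Z _ => G.vE_lin β p g g' c Z

theorem vI_linP (O : Conf → ℂ) : LinP (G.vI β p O) :=
  fun g g' c _ _ _ _ Z _ => G.vI_lin β p O g g' c Z

theorem vP_lf (Y : Pol) (U : Cfg (G.nn p)) :
    G.vP β p Y (Fi.lf U) = evc (Fi.tr haar) (β p) (G.nn p) (G.aa p) Y U := congrArg _ (Fi.rs_lf U)

theorem vP_cont (Y : Pol) : Continuous (G.vP β p Y) :=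
  (cont_evc Y).comp (continuous_pi fun _ => continuous_apply _)

theorem vP_bc (Y : Pol) : BC (G.vP β p Y) := bc_cont (G.vP_cont β p Y)

theorem vM_vP (Y : Pol) : G.vM β p (G.vP β p Y) = G.vE β p Y := by
  simp only [vM, vE, lex_apply, vP_lf]

theorem vP_X (f : R4 → ℝ) {U : Conf} (hU : Per (G.nn p) U) : G.vP β p (X f) U =
    sm (G.nn p) phS (jet (G.nn p) (G.aa p) f none) U -
      G.vM β p (sm (G.nn p) phS (jet (G.nn p) (G.aa p) f none)) := by
  have e := sm_sy (G.nn_odd p) fun x => f (xp (G.aa p) x)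
  rw [vP, evc_X, cen, Complex.ofReal_sub, ← integral_complex_ofReal, ← e, Fi.lf_rs, Sh.pc_per hU]
  simp only [← e]
  rfl

variable {G β p}

theorem vW_congr (h : ∀ U, Per (G.nn p) U → O U = O' U) : G.vW β p O = G.vW β p O' := by
  simp only [vW, h _ (per_lf _)]

theorem vM_congr (h : ∀ U, Per (G.nn p) U → O U = O' U) : G.vM β p O = G.vM β p O' := by
  simp only [vM, h _ (per_lf _)]

theorem vI_congr (h : ∀ U, Per (G.nn p) U → O U = O' U) : G.vI β p O = G.vI β p O' := by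
  rw [vI_eq, vI_eq, vW_congr h, vM_congr h]

theorem bc_lf (h : BC O) :
    Integrable (fun U => O (Fi.lf U)) (wilson (Fi.tr haar) (β p) (G.nn p)) :=
  let ⟨_, hM⟩ := h.2
  .of_bound (h.1.comp Fi.meas_lf).aestronglyMeasurable _ (.of_forall fun _ => hM _)

theorem vM_pp (h : BC O) : G.vM β p O = (∫ U, wil (β p) (G.nn p) (pc (G.nn p) U) *
    O (pc (G.nn p) U) ∂PP) / ∫ U, (wil (β p) (G.nn p) (pc (G.nn p) U) : ℂ) ∂PP := by
  have w := Complex.measurable_ofReal.comp (Fi.cont_wil (n := G.nn p) (β p)).measurable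
  have k : ∀ {f : Conf → ℂ}, Measurable f → ∫ U, f (pc (G.nn p) U) ∂PP =
      ∫ U : Cfg (G.nn p), f (Fi.lf U) ∂(Measure.pi fun _ => Fi.tr haar) := fun {f} hf => by
    rw [← Fi.map_res, integral_map (f := fun U => f (Fi.lf U)) Fi.meas_rs.aemeasurable
      (hf.comp Fi.meas_lf).aestronglyMeasurable]
    simp only [Fi.lf_rs, PP]
  have k1 := k (w.mul h.1)
  have k2 := k w
  simp only [comp, Pi.mul_apply] at k1 k2
  rw [vM, wilson, integral_tilted, k1, k2, ← integral_div, integral_complex_ofReal]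
  simp only [Br.wil_lf (G.nn_odd p), Complex.real_smul, Complex.ofReal_div, div_mul_eq_mul_div]

theorem vW_vM (h : BC O) (Z : Pol) : G.vW β p O Z = G.vM β p fun U => O U * G.vP β p Z U := by
  simp only [vW, vM, iw_apply (bc_lf h), vP_lf]

theorem vW_add (h : BC O) (h' : BC O') :
    (G.vW β p fun U => O U + O' U) = G.vW β p O + G.vW β p O' := iw_add (bc_lf h) (bc_lf h')

theorem vM_add (h : BC O) (h' : BC O') :
    (G.vM β p fun U => O U + O' U) = G.vM β p O + G.vM β p O' := integral_add (bc_lf h) (bc_lf h')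

theorem vM_sub (h : BC O) (h' : BC O') :
    (G.vM β p fun U => O U - O' U) = G.vM β p O - G.vM β p O' := integral_sub (bc_lf h) (bc_lf h')

theorem vI_add (h : BC O) (h' : BC O') :
    (G.vI β p fun U => O U + O' U) = G.vI β p O + G.vI β p O' := by
  rw [vI_eq, vI_eq, vI_eq, vW_add h h', vM_add h h', add_smul]
  abel

theorem bc_sum' {ι : Type} {s : Finset ι} {O : ι → Conf → ℂ} (h : ∀ i ∈ s, BC (O i)) :
    BC fun U => ∑ i ∈ s, O i U := by
  induction s using Finset.cons_induction with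
  | empty => exact bc_cont continuous_const
  | cons i s hi ih =>
    simpa only [sum_cons] using bc_add (h i (mem_cons_self _ _))
      (ih fun j hj => h j (mem_cons_of_mem hj))

theorem vI_sub (h : BC O) (h' : BC O') :
    (G.vI β p fun U => O U - O' U) = G.vI β p O - G.vI β p O' := by
  simpa [vI_neg, sub_eq_add_neg] using vI_add (G := G) (β := β) (p := p) h (h'.cm (-1))

theorem vI_cen (h : BC O) (c : ℂ) : (G.vI β p fun U => O U - c) = G.vI β p O := by
  rw [vI_sub h (bc_cont continuous_const), vI_const, sub_zero]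

theorem vI_sum {ι : Type} {s : Finset ι} {O : ι → Conf → ℂ} (h : ∀ i ∈ s, BC (O i)) :
    (G.vI β p fun U => ∑ i ∈ s, O i U) = ∑ i ∈ s, G.vI β p (O i) := by
  induction s using Finset.cons_induction with
  | empty => exact G.vI_const β p 0
  | cons i s hi ih =>
    have k := fun j hj => h j (mem_cons_of_mem hj)
    simp only [sum_cons, vI_add (h i (mem_cons_self _ _)) (bc_sum' k), ih k]

theorem vM_sum {ι : Type} {s : Finset ι} {O : ι → Conf → ℂ} (h : ∀ i ∈ s, BC (O i)) :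
    (G.vM β p fun U => ∑ i ∈ s, O i U) = ∑ i ∈ s, G.vM β p (O i) :=
  integral_finsetSum _ fun i hi => bc_lf (h i hi)

theorem vW_mul (h : BC O) (Y Z : Pol) :
    G.vW β p (fun U => O U * G.vP β p Y U) Z = G.vW β p O (Y * Z) := by
  simp only [vW, vP_lf, Ob.iw_mul (bc_lf h)]

/-- products with polynomials -/
theorem vI_mul (h : BC O) (Y Z : Pol) : G.vI β p (fun U => O U * G.vP β p Y U) Z =
    G.vW β p O (Y * Z) - G.vW β p O Y * G.vE β p Z := by
  rw [vI_eq, LinearMap.sub_apply, vW_mul h, ← vW_vM h]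
  rfl

theorem vI_mul' (h : BC O) (Y Z : Pol) : G.vI β p (fun U => O U * G.vP β p Y U) Z =
    G.vI β p O (Y * Z) - G.vI β p O Y * G.vE β p Z + G.vM β p O * cv (G.vE β p) Y Z := by
  rw [vI_mul h, vW_eq, vW_eq, cv]
  ring

theorem vI_vP (Y Z : Pol) : G.vI β p (G.vP β p Y) Z = cv (G.vE β p) Y Z := by
  simpa [vI_const, vM_const] using
    vI_mul' (G := G) (β := β) (p := p) (bc_cont (continuous_const (y := 1))) Y Z

/-- the action density -/
theorem vI_phS (f : R4 → ℝ) (Z : Pol) :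
    G.vI β p (sm (G.nn p) phS (jet (G.nn p) (G.aa p) f none)) Z = cv (G.vE β p) (X f) Z := by
  rw [← vI_vP, vI_congr fun U => G.vP_X β p f, vI_cen (bc_cont (sm_cont ..))]

/-! ### Covariance -/

theorem vP_act (g : B4) (Z : Pol) {U : Conf} (hU : Per (G.nn p) U) :
    G.vP β p (Ro.act (gR g) Z) U = G.vP β p Z (Wd.pb Inv.inv g U) := by
  rw [vP, evc_act (G.nn_odd p), thB, Fi.lf_rs, Sh.pc_per hU, vP]

theorem vM_act (h : BC O) (g : B4) : (G.vM β p fun U => O (Wd.pb Inv.inv g U)) = G.vM β p O := by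
  simpa only [vM, lf_th] using int_th (mp_th (G.nn_odd p) (β p) g) (bc_lf h)

theorem vW_act (h : BC O) (g : B4) (Z : Pol) :
    G.vW β p (fun U => O (Wd.pb Inv.inv g U)) (Ro.act (gR g) Z) = G.vW β p O Z := by
  simpa only [vW, lf_th] using
    iw_th (mp_th (G.nn_odd p) (β p) g) (bc_lf h) (evc_act (G.nn_odd p) (β p) g Z)

theorem vE_act (g : B4) (Z : Pol) : G.vE β p (Ro.act (gR g) Z) = G.vE β p Z :=
  vW_act (bc_cont (continuous_const (y := 1))) g Z

theorem vI_act (h : BC O) (g : B4) (Z : Pol) :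
    G.vI β p (fun U => O (Wd.pb Inv.inv g U)) (Ro.act (gR g) Z) = G.vI β p O Z := by
  simp only [vI_eq, LinearMap.sub_apply, LinearMap.smul_apply, vW_act h, vM_act h, vE_act]

theorem vI_pb (h : BC O) (g : B4) (Z : Pol) :
    G.vI β p (fun U => O (Wd.pb Inv.inv g U)) Z = G.vI β p O (Ro.act (gR g).symm Z) := by
  rw [← vI_act h g, Ro.act_act, show gR g * (gR g).symm = 1 from mul_inv_cancel _, Ro.act_one]

theorem vM_sh (h : BC O) (v : St) : (G.vM β p fun U => O (sh v U)) = G.vM β p O := by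
  simpa only [vM, lf_shift] using int_th (mp_shift' _ (β p) (Fi.cst (G.nn p) v)) (bc_lf h)

section
variable (hZ : Z ∈ net.loc (Pur.Bx R)) {v : St} (hv : ∀ l, |G.aa p * v l| ≤ V)
  (hn : 2 * (R + V + 2 * G.aa p) < G.aa p * G.nn p)
include hZ hv hn

theorem vP_sh {U : Conf} (hU : Per (G.nn p) U) :
    G.vP β p (net.τ (WithLp.toLp 2 fun l => G.aa p * v l) Z) U = G.vP β p Z (sh v U) := by
  rw [vP, evc_shift hZ (G.aa_pos p) hv hn, vP, rs_sh hU]
  rfl

theorem vW_sh (h : BC O) : G.vW β p (fun U => O (sh v U))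
    (net.τ (WithLp.toLp 2 fun l => G.aa p * v l) Z) = G.vW β p O Z := by
  simpa only [vW, lf_shift] using iw_th (mp_shift' _ (β p) (Fi.cst (G.nn p) v)) (bc_lf h)
    (evc_shift hZ (G.aa_pos p) hv hn)

theorem vE_sh : G.vE β p (net.τ (WithLp.toLp 2 fun l => G.aa p * v l) Z) = G.vE β p Z :=
  vW_sh (O := fun _ => 1) hZ hv hn (bc_cont continuous_const)

theorem vI_sh (h : BC O) : G.vI β p (fun U => O (sh v U))
    (net.τ (WithLp.toLp 2 fun l => G.aa p * v l) Z) = G.vI β p O Z := by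
  simp only [vI_eq, LinearMap.sub_apply, LinearMap.smul_apply, vW_sh hZ hv hn h, vM_sh h,
    vE_sh hZ hv hn]

end

/-- grid points are lattice points -/
theorem gp_eq {e : ℕ} (he : e ≤ G.e p.2) (x : St) :
    gp e x = WithLp.toLp 2 fun l => G.aa p * (((3 : ℤ) ^ (G.e p.2 - e) • x) l : ℤ) := by
  ext l
  simp only [gp, aa, Pi.smul_apply, smul_eq_mul, Int.cast_mul, Int.cast_pow, Int.cast_ofNat,
    pow_sub₀ (3 : ℝ) three_ne_zero he]
  field_simp

theorem Oks.big (h : G.Oks) (e : ℕ) (M : ℝ) : ∀ᶠ p in atTop ×ˢ atTop,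
    e ≤ G.e p.2 ∧ G.aa p ≤ 1 ∧ M + 10 * G.aa p < G.aa p * G.nn p := by
  obtain ⟨β, hβ⟩ := h.tus
  exact (((h 0).1.sch.mono.tendsto_atTop.comp tendsto_snd).eventually_ge_atTop e).and
    (((h.fam hβ).small one_pos).and ((h.fam hβ).big M))

/-- translations by the points of a grid -/
theorem Oks.tau (h : G.Oks) (e : ℕ) (x : St) (hZ : Z ∈ net.loc Set.univ) :
    ∀ᶠ p in atTop ×ˢ atTop, G.vE β p (net.τ (gp e x) Z) = G.vE β p Z ∧
      (∀ U, Per (G.nn p) U → G.vP β p (net.τ (gp e x) Z) U =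
        G.vP β p Z (sh ((3 : ℤ) ^ (G.e p.2 - e) • x) U)) ∧
      ∀ O, BC O → G.vI β p (fun U => O (sh ((3 : ℤ) ^ (G.e p.2 - e) • x) U)) (net.τ (gp e x) Z) =
        G.vI β p O Z := by
  obtain ⟨R, hR⟩ := net.bdd hZ
  rw [Set.univ_inter] at hR
  filter_upwards [h.big e (2 * (R + ‖gp e x‖))] with p ⟨h1, _, h2⟩
  have hv := fun l => (PiLp.norm_apply_le (gp e x) l)
  have hn : 2 * (R + ‖gp e x‖ + 2 * G.aa p) < G.aa p * G.nn p := by linarith [G.aa_pos p]
  rw [gp_eq h1] at hv hn ⊢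
  exact ⟨vE_sh hR hv hn, fun U => vP_sh hR hv hn, fun O => vI_sh hR hv hn⟩

theorem Oks.jet_tau (h : G.Oks) (e : ℕ) (x : St) (hf : HasCompactSupport f) :
    ∀ᶠ p in atTop ×ˢ atTop, jet (G.nn p) (G.aa p) (fun y => f (y - gp e x)) =
      fun o y => jet (G.nn p) (G.aa p) f o (y - (3 : ℤ) ^ (G.e p.2 - e) • x) := by
  obtain ⟨R, hR⟩ := hf.isCompact.isBounded.subset_ball 0
  filter_upwards [h.big e (2 * (R + ‖gp e x‖))] with p ⟨h1, _, h2⟩
  have hv := fun l => (PiLp.norm_apply_le (gp e x) l)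
  have hn : 2 * (R + ‖gp e x‖) < G.aa p * G.nn p := by linarith [G.aa_pos p]
  rw [gp_eq h1] at hv hn ⊢
  exact jet_sh (fun y hy l => (PiLp.norm_apply_le y l).trans_lt (mem_ball_zero_iff.1 (hR hy)))
    (G.aa_pos p) hv hn

theorem Oks.jet_nm (h : G.Oks) (hf : HasCompactSupport f) (h1 : ContDiff ℝ 1 f)
    (h2 : r → ContDiff ℝ 2 f) : ∃ C > (0 : ℝ), ∀ᶠ p in atTop ×ˢ atTop,
      Tj.Nm (G.nn p) (G.aa p) r (jet (G.nn p) (G.aa p) (C⁻¹ • f)) := by
  obtain ⟨C, C0, R, H⟩ := nm_jet hf h1 h2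
  exact ⟨C, C0, (h.big 0 R).mono fun p e => H _ _ (G.nn_odd p) (G.aa_pos p) e.2.1
    (by linarith [e.2.2, G.aa_pos p])⟩

/-- the equation of motion -/
theorem Oks.vI_sd (h : G.Oks) {k : ℕ} {g : Fin k → R4 → ℝ}
    (a : Adm (Fin.cons f g : Fin (k + 1) → _)) : ∀ᶠ p in atTop ×ˢ atTop,
      G.vI β p (sm (G.nn p) Wd.jA (jet (G.nn p) (G.aa p) f none)) (mon g) = 0 := by
  obtain ⟨D, q, d1, -, d2⟩ := a.data
  obtain ⟨β', hβ⟩ := h.tus
  filter_upwards [h.big 0 (2 * D), (h.fam hβ).small (show 0 < 1 / (q + 1 : ℝ) / 5 by positivity)]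
    with p ⟨_, _, e1⟩ e2
  have a0 := G.aa_pos p
  have n1 : G.nn p ≠ 1 := fun e => by
    rw [e, Nat.cast_one] at e1
    linarith [D.cast_nonneg (α := ℝ)]
  have k := fun O => sd_jA (O := O) (G.nn_odd p) n1 (β p) (jet_ps _ (G.aa p) f none)
  rw [vI_eq, LinearMap.sub_apply, vW_vM (sm_bc ..), vM_pp (bc_mul (sm_bc ..) (G.vP_bc ..)),
    vM_pp (sm_bc ..), k _ (G.vP_cont ..) fun U V hU hV e => ?_]
  · simpa using .inl (.inl (by simpa using k (fun _ => 1) continuous_const fun _ _ _ _ _ => rfl))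
  have k1 : ∀ i x μ ν, cav (G.nn p) (jet (G.nn p) (G.aa p) (g i) none) x μ ν ≠ 0 → ∀ c ∈ box 2,
      (∀ l, 0 ≤ c l) → jet (G.nn p) (G.aa p) f none (x + c) = 0 := fun i x μ ν u c c1 c0 => by
    by_contra v
    have : ∀ c' ∈ box 2, (∀ l, 0 ≤ c' l) → jet (G.nn p) (G.aa p) (g i) none (x + c') = 0 :=
      fun c' c2 c3 => by_contra fun v' => by
      have t : ∀ l, |G.aa p * (c - c') l| ≤ 2 * G.aa p := fun l => by
        rw [abs_mul, abs_of_pos a0, mul_comm]
        have := And.intro (mem_box.1 c1 l) (mem_box.1 c2 l)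
        have : |(c - c') l| ≤ 2 := abs_le.2 (by have := c0 l; have := c3 l; simp only [Pi.sub_apply]; omega)
        exact mul_le_mul_of_nonneg_right (by exact_mod_cast this) a0.le
      have e3 := Ob.xp_add (cube_of (d1 0)) a0 t (by linarith) (Fi.cst (G.nn p) (x + c'))
      rw [show (Fi.cst (G.nn p) (x + c') + fun l => ((c - c') l : ZMod (G.nn p))) =
        Fi.cst _ (x + c) from (Fi.cst_add _ (c - c')).symm.trans (by rw [add_add_sub_cancel])] at e3
      have := d2 0 i.succ (Fin.succ_ne_zero i).symm _ (subset_tsupport _ fun z => v (congrArg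
        Complex.ofReal (e3.trans z))) _ (subset_tsupport _ fun z => v' (congrArg Complex.ofReal z))
      linarith [this.trans (dist_le_two (w := 2 * G.aa p) fun l => by simpa using t l)]
    have b : ∀ i j : Fin 4, un i ∈ box 2 ∧ un i + un j ∈ box 2 ∧ (∀ l, 0 ≤ un i l) ∧
      ∀ l, 0 ≤ (un i + un j) l := by simp only [mem_box]; decide
    have z := this 0 (by simp [mem_box]) fun _ => le_rfl
    rw [add_zero] at z
    exact u (by simp only [cav, ps_rc' (jet_ps _ _ _ _), z, this _ (b μ μ).1 (b μ μ).2.2.1,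
      this _ (b ν ν).1 (b ν ν).2.2.1, this _ (b μ ν).2.1 (b μ ν).2.2.2, add_zero, mul_zero])
  have k2 : ∀ i, G.vP β p (X (g i)) U = G.vP β p (X (g i)) V := fun i => by
    rw [vP_X _ _ _ _ hU, vP_X _ _ _ _ hV, sm_phS (G.nn_odd p) hU, sm_phS (G.nn_odd p) hV]
    refine congrArg (· - _) (sum_congr rfl fun x _ => sum_congr rfl fun μ _ =>
      sum_congr rfl fun ν _ => ?_)
    by_cases u : cav (G.nn p) (jet (G.nn p) (G.aa p) (g i) none) x μ ν = 0
    · rw [u, zero_mul, zero_mul]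
    have b : ∀ i j : Fin 4, un i ∈ box 2 ∧ un i + un j ∈ box 2 ∧ (∀ l, 0 ≤ un i l) ∧
      ∀ l, 0 ≤ (un i + un j) l := by simp only [mem_box]; decide
    have z := k1 i x μ ν u 0 (by simp [mem_box]) fun _ => le_rfl
    have z1 := fun j => k1 i x μ ν u _ (b j j).1 (b j j).2.2.1
    have z2 := fun j j' => k1 i x μ ν u _ (b j j').2.1 (b j j').2.2.2
    simp only [add_zero, ← add_assoc] at z z2
    simp only [fq, hol, e (x, _) z (z1 _), e (x + un _, _) (z1 _) (z2 _ _)]
  simp only [vP, mon, map_prod, Finset.prod_apply] at k2 ⊢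
  exact prod_congr rfl fun i _ => k2 i

/-- the continuum limit of the states -/
theorem Oks.vE_lim (h : G.Oks) (hβ : G.Tus β) {Φ : Filter (ℕ × ℕ)} (hΦ : Φ ≤ atTop ×ˢ atTop)
    {U : Ultrafilter (ℕ × ℕ)} {S₀ : ∀ {k : ℕ}, (Fin k → R4 → ℝ) → ℝ} {S : Pol →ₗ[ℂ] ℂ}
    (hL : L6.Lim (Fi.tr haar) Φ G.nn G.aa β U S₀ S) (hZ : Z ∈ net.loc Set.univ) :
    Tendsto (fun p => G.vE β p Z) U (𝓝 (S Z)) := by
  obtain ⟨a1, a2, a3, a4⟩ := h.fam hβ
  simpa only [vE, lex_apply] using Ob.Cv.lim ⟨a1.mono_left hΦ, a2.mono_left hΦ, a3.mono_left hΦ,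
    a4.mono_left hΦ⟩ hL (.base hZ)

end Gl

end Pool.Agent.Lib.MP_7f377f_mp.RG.Q4.En
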