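import Pool.Agent.Lib.MP_7f377f_mp.G.CaH2d
import Pool.Agent.Lib.MP_7f377f_mp.G.StQ

/-! The action density as a lattice field. -/

noncomputable section

open Pool.Agent.Lib.MP_7f377f_mp.Jet

set_option linter.unusedSectionVars false
variable [Pool.Agent.Lib.MP_7f377f_mp.GD]

namespace Pool.Agent.Lib.MP_7f377f_mp.RG.Q4.En

open Finset Function Sg Real Pos Mg MeasureTheory Filter YM7
open scoped Classical

variable {Ω κ α : Type} [DecidableEq Ω] [Fintype κ] [DecidableEq κ] [Inhabited κ] [Fintype α]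
  {n : ℕ} {a : ℝ} {f : St → ℂ}

theorem cav_le (h : ∀ x, ‖f x‖ ≤ a) (x : St) (μ ν : Fin 4) : ‖Wd.cav n f x μ ν‖ ≤ a := by
  rw [Wd.cav, norm_mul, norm_inv, Complex.norm_ofNat]
  linarith [norm_add_le_of_le (norm_add_le_of_le (norm_add_le_of_le (h (rc n x))
    (h (rc n (x + un μ)))) (h (rc n (x + un ν)))) (h (rc n (x + (un μ + un ν))))]

theorem cav_lip (h : LipT n a f) (x : St) (μ ν : Fin 4) : ‖Wd.cav n f x μ ν - f x‖ ≤ a := by
  have k : ∀ (R : ℕ), ∀ v ∈ box R, ‖f (rc n (x + v)) - f x‖ ≤ a * R := fun R v hv =>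
    h _ _ _ (nearT_rc_right.2 (nearT_add hv)).symm
  have := norm_add_le_of_le (norm_add_le_of_le (norm_add_le_of_le (k 0 0 (RG.zero_mem_box _))
    (k 1 _ (RG.un_mem_box μ))) (k 1 _ (RG.un_mem_box ν)))
      (k _ _ (RG.add_mem_box (RG.un_mem_box μ) (RG.un_mem_box ν)))
  rw [add_zero] at this
  rw [show Wd.cav n f x μ ν - f x = 4⁻¹ * (f (rc n x) - f x + (f (rc n (x + un μ)) - f x) +
    (f (rc n (x + un ν)) - f x) + (f (rc n (x + (un μ + un ν))) - f x)) by rw [Wd.cav]; ring,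
    norm_mul, norm_inv, Complex.norm_ofNat]
  push_cast at this
  linarith

theorem Vf.src_P (D : Vf Ω κ α) (n : ℕ) (T : Tj) : D.src.P n T = (Wd.cav n (T none), 0, 0) := by
  have a : Wd.evG 0 = 0 := funext fun _ => by simp [Wd.evG]
  have b : Wd.lx 0 = 0 := funext fun _ => by simp [Wd.lx]
  have c : ∀ F, lS 0 0 F = 0 := fun F => by simp [lS, Prod.ext_iff, funext_iff]
  simp [Vf.P, Vf.src, a, b, c]

theorem Vf.src_Y (D : Vf Ω κ α) (n : ℕ) (T : Tj) (U : Conf) :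
    D.src.Y n T U = -sO n (Wd.cav n (T none)) U := by
  rw [Vf.Y, D.src_P]
  simp [Vf.src, xO]

namespace Gl

variable {G : Gl} {b C A w : ℝ} {J k j c d : ℕ} {σ : ℕ → ℝ} {P : Tj → Prop} {D : Vf Ω κ α}

theorem src_vC (D : Vf Ω κ α) (T : Tj) : G.vC J k D.src T = fun _ => 0 := funext fun _ => by
  simp [vC, Vf.src]

theorem src_vT (D : Vf Ω κ α) (T : Tj) :
    G.vT b J k D.src T = G.tv (Wd.cav (G.N J) (T none)) b J k := by
  rw [vT, D.src_P, xv_pl]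
  simp [Vf.src, tv]

theorem Ok.ta_zero (h : G.Ok) (hk : k ≤ J) : G.ta (fun _ => 0) J k = fun _ => 0 := by
  have o : BC fun _ => (1 : ℂ) := ⟨measurable_const, 1, by simp⟩
  simpa using h.ta_lin hk o o (-1)

/-- the tangent of the smeared action density -/
theorem Ok.tv_cav (h : G.Ok) (t : G.Tu b J) (hp : G.Pu) (a0 : 0 < a) (ha : a * 3 ^ G.e J ≤ 1)
    (h1 : ∀ x, ‖f x‖ ≤ 1) (hL : LipT (G.N J) a f) (hk : k ≤ J) {N : ℝ} (hN : 10 ^ 38 ≤ N) :
    G.S1 (fun l => (G.Q l ^ 100)⁻¹) k N (G.tv (Wd.cav (G.N J) f) b J k) := by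
  have q := h.Q_rt1 hk (ha.trans (by norm_num)) a0.le
  exact h.sz_le (h.tv_sz t (fun _ e => (h.tan_main hp t e).1.sz) hL a0 h1 (cav_lip hL) le_rfl hk
    ((mul_le_mul_of_nonneg_right (h.pw_rt k hk) a0.le).trans ((le_mul_of_one_le_left
      (by positivity) (h.Q1 k)).trans q)) q) (sqrt_nonneg _) hN hN (h.sg_le k)

theorem Vk.src (V : G.Vk b J k j c d C A σ P D w) (h : G.Ok) (t : G.Tu b J) (hp : G.Pu)
    (hj : j ≤ k) (a0 : 0 < a) (ha : a * 3 ^ G.e J ≤ 1) :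
    G.Vk b J k j c d C A σ (Tj.Nm (G.N J) a False) D.src (10 ^ 38) := by
  have _ := hj
  have M := V.mx
  have s0 := (M.rad (k + 1) k.lt_succ_self M.lt).2.2.1
  have r : ∀ l, (10 : ℝ) ^ 38 ≤ 10 ^ 38 * G.rt l j ^ 2 := fun l => le_mul_of_one_le_right
    (by norm_num) (one_le_pow₀ (Nat.one_le_cast.2 (Nat.one_le_pow _ _ three_pos)))
  have r' : ∀ l, (10 : ℝ) ^ 38 ≤ 10 ^ 38 * G.rt k j ^ 2 * 2 ^ (l - k) := fun l => (r k).trans
    (le_mul_of_one_le_right (by positivity) (one_le_pow₀ one_le_two))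
  refine ⟨by norm_num, ⟨M.lt, M.card, M.C0, M.dR, M.big, M.rad, fun _ e => absurd e (notMem_empty _),
    M.lF, M.lP, fun _ e => absurd e (notMem_empty _), M.sl,
    fun _ _ _ _ e => absurd e (notMem_empty _), M.cel, M.lg, M.lφ⟩,
    ⟨0, fun _ => by simp [Vf.src], by rw [mul_zero, mul_zero]; positivity⟩,
    fun _ => ⟨fun _ e => absurd e (notMem_empty _), fun _ => rfl⟩, fun T e => ⟨1, 0, ?_, ?_⟩,
    ⟨V.iv.re, fun _ => ⟨id, Set.bijOn_id _, fun _ e => absurd e (notMem_empty _)⟩,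
      fun _ e => absurd e (notMem_empty _)⟩, fun _ e => absurd e (notMem_empty _), V.re,
    by simp [Vf.src], fun T e l _ hl => ?_, fun T e l _ hl => ?_⟩
  · rw [D.src_P]
    exact ⟨cav_le fun x => ((e.bd none).2 x).1, fun _ => .zero, fun _ _ => norm_zero.le,
      _, _, _, pm_zero (h.ρ0 J)⟩
  · linarith [r' J]
  · rw [D.src_P, xv_pl]
    exact h.tv_cav t hp a0 ha (fun x => ((e.bd none).2 x).1) e.lip hl (r' l)
  · rw [src_vT, tv, show G.tn _ J (G.tn _ J _ J k) k l = _ from dw_dw _ _ M.lt.le l hl]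
    exact h.tv_cav t hp a0 ha (fun x => ((e.bd none).2 x).1) e.lip (hl.trans M.lt.le) (r l)

theorem Ok.vr_src (h : G.Ok) (hk : k ≤ J) (D : Vf Ω κ α) : G.Vr J k fun _ => D.src := by
  have _ := hk
  refine fun ε μ T _ => ⟨fun U hU => ?_, fun _ _ => by rw [src_vC, src_vC]⟩
  rw [D.src_Y, D.src_Y, Wd.cf_pb, ← Wd.sm_phS (h.N_odd J) hU,
    ← Wd.sm_phS (h.N_odd J) (Wd.per_pb _ _ hU), ← Wd.act_phS (Wd.gn (.inr μ)), Wd.sm_act,
    Wd.act_phS]
  congr 2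
  funext x
  simp only [Tj.rf, reduceCtorEq, if_false, one_mul]
  congr 1
  funext i
  change update (fun i => Wd.cd x ((Wd.rf μ).1 (i, true))) μ (-Wd.cd x ((Wd.rf μ).1 (μ, true))) i = _
  simp only [Wd.cd_rf, Wd.ep, update_apply]
  split_ifs with e <;> simp [Wd.cd, e]

theorem Ok.vO_src [NeZero (G.N J)] (h : G.Ok) (hk : k ≤ J) (D : Vf Ω κ α) (f : R4 → ℝ)
    (U : Cfg (G.N J)) : G.vO J k D.src (jet (G.N J) a f) (Fi.lf U) =
      -(gfield (Ob.sy fun x => f (xp a x)) U : ℝ) := by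
  rw [vO, src_vC, h.ta_zero hk, add_zero, D.src_Y, ← Br.sO_lf (h.N_odd J)]
  congr 2
  funext x μ ν
  simp only [Wd.cav, jet, Option.elim, Fi.cst_rc, Fi.cst_add, Fi.cst_un1, Br.symF, Ob.sy]
  push_cast
  rcases le_total μ ν with e | e
  · rw [min_eq_left e, max_eq_right e, add_assoc (Fi.cst _ x)]
    ring
  · rw [min_eq_right e, max_eq_left e, add_assoc (Fi.cst _ x), add_comm (Pi.single μ 1)]
    ring

end Gl

end Pool.Agent.Lib.MP_7f377f_mp.RG.Q4.En
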