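import Pool.Agent.Lib.MP_7f377f_mp.G.CaH2b
import Pool.Agent.Lib.MP_7f377f_mp.G.CaH3
import Pool.Agent.Lib.MP_7f377f_mp.G.CaH6

/-! The geometric chessboard bound for lattice fields. -/

noncomputable section

open Pool.Agent.Lib.MP_7f377f_mp.Jet

set_option linter.unusedSectionVars false
variable [Pool.Agent.Lib.MP_7f377f_mp.GD]

namespace Pool.Agent.Lib.MP_7f377f_mp.Ob

open MeasureTheory YM7 Pur Finset

variable {n k : ℕ} [NeZero n] [MeasurableSpace SU2] [BorelSpace SU2] {h : Measure SU2}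
  [h.IsHaarMeasure] [IsProbabilityMeasure h] {b a : ℝ}

theorem ins_mon {O : Cfg n → ℂ} {Y : Cfg n → ℝ} {X : Fin k → Cfg n → ℝ} {c : ℂ} {r t : Fin k → ℝ}
    {g : Fin k → R4 → ℝ} (hY : Weak.BM Y) (e : ∀ U, O U - c = Y U) (r0 : ∀ i, 0 < r i)
    (e' : ∀ i U, X i U = -gfield (sy fun x => (r i)⁻¹ * g i (xp a x)) U - t i) :
    ‖ins n h b a O (mon g)‖ = (∏ i, r i) *
      |∫ U, Y U * ∏ i, (X i U - ∫ V, X i V ∂wilson h b n) ∂wilson h b n -
        (∫ U, Y U ∂wilson h b n) * ∫ U, ∏ i, (X i U - ∫ V, X i V ∂wilson h b n) ∂wilson h b n| ∧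
    ‖∫ U, O U ∂wilson h b n - c‖ = |∫ U, Y U ∂wilson h b n| := by
  obtain rfl : O = fun U => Y U + c := funext fun U => eq_add_of_sub_eq (e U)
  have i : Integrable (fun U => (Y U : ℂ)) (wilson h b n) := (hY.int _).ofReal
  have i' : Integrable (fun U => (Y U : ℂ) + c) (wilson h b n) := i.add (integrable_const c)
  have i1 : Integrable (1 : Cfg n → ℂ) (wilson h b n) := integrable_const _
  have y : ∀ i U, cen h b (sy fun x => g i (xp a x)) U =
      -r i * (X i U - ∫ V, X i V ∂wilson h b n) := fun i U => by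
    have := (r0 i).ne'
    have f : ∀ U, X i U = -(r i)⁻¹ * gfield (sy fun x => g i (xp a x)) U - t i := fun U => by
      rw [neg_mul]
      simp only [e', gfield, sy, mul_sum, mul_ite, mul_zero, ← mul_add, mul_div_assoc, mul_assoc]
    simp only [f, cen]
    rw [integral_sub ((Weak.cint _ (continuous_gfield _)).const_mul _) (integrable_const _),
      integral_const_mul, integral_const, probReal_univ, one_smul]
    field_simp
    ring
  have z : ∫ U, (Y U : ℂ) + c ∂wilson h b n = (∫ U, Y U ∂wilson h b n : ℝ) + c := by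
    rw [integral_add i (integrable_const c), integral_complex_ofReal]
    simp
  refine ⟨?_, by rw [z, add_sub_cancel_right, Complex.norm_real, Real.norm_eq_abs]⟩
  simp only [ins, lex, iw, dif_pos i', dif_pos i1, LinearMap.sub_apply,
    LinearMap.smul_apply, LinearMap.coe_mk, AddHom.coe_mk, add_mul, smul_eq_mul, z,
    Pi.one_apply, one_mul]
  rw [integral_add (int_mul i _) (int_mul (integrable_const c) _), integral_const_mul,
    add_sub_add_right_eq_sub]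
  simp only [evc_mon, ← Complex.ofReal_mul, integral_complex_ofReal,
    ← Complex.ofReal_sub, Complex.norm_real, Real.norm_eq_abs, y, prod_mul_distrib,
    mul_left_comm _ (∏ i, -r i), integral_const_mul, ← mul_sub, abs_mul, abs_prod, abs_neg,
    abs_of_pos (r0 _)]

end Pool.Agent.Lib.MP_7f377f_mp.Ob

namespace Pool.Agent.Lib.MP_7f377f_mp.RG.Q4.En

open Finset Function Sg Real Pos Mg MeasureTheory Filter YM7
open scoped Classical

variable {Ω κ α : Type} [DecidableEq Ω] [Fintype κ] [DecidableEq κ] [Inhabited κ] [Fintype α]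

/-- the gradient has the same support -/
theorem jet_in {n : ℕ} [NeZero n] (hn : Odd n) {a w δ : ℝ} {c : Fin 4 → ℤ} {f : R4 → ℝ}
    (hs : ∀ y, f y ≠ 0 → ∀ l, c l * w + δ ≤ y l ∧ y l ≤ (c l + 1) * w - δ) :
    (jet n a f).In n a w δ c := by
  have k : ∀ y ∈ tsupport f, ∀ l, c l * w + δ ≤ y l ∧ y l ≤ (c l + 1) * w - δ := fun y hy l =>
    closure_minimal (t := {y : R4 | y l ∈ Set.Icc _ _}) (fun y e => hs y e l)
      (isClosed_Icc.preimage (by fun_prop)) hy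
  intro o x e l
  have := RG.mem_box.1 (rc_mem hn x) l
  have := Nat.odd_iff.1 hn
  rw [show rc n x l = (Fi.cst n x l).valMinAbs from ((ZMod.valMinAbs_spec _ _).2
    ⟨(congrFun (Fi.cst_rc x) l).symm, by omega, by omega⟩).symm]
  refine k (xp a (Fi.cst n x)) ?_ l
  rcases o with _ | μ
  exacts [subset_tsupport _ (Complex.ofReal_ne_zero.1 e),
    St.pd_ts (subset_tsupport _ (right_ne_zero_of_mul (Complex.ofReal_ne_zero.1 e)))]

namespace Gl

variable {G : Gl} {β : ℕ × ℕ → ℝ}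

/-- the geometric chessboard bound for a field in the cell `c₀` and sources in the cells `c i` -/
theorem Oks.fb (h : G.Oks) (hβ : G.Tus β) (e t : ℕ) {n : ℕ} {g : Fin n → R4 → ℝ} (hg : Adm g)
    {c₀ : Fin 4 → ℤ} {u : Fin n → Fin 4 → ℤ} (hu : Injective u) (h0 : ∀ i, u i ≠ c₀)
    (hs : ∀ i y, g i y ≠ 0 → ∀ l, u i l * (3 ^ e)⁻¹ + (3 ^ (e + t))⁻¹ ≤ y l ∧
      y l ≤ (u i l + 1) * (3 ^ e)⁻¹ - (3 ^ (e + t))⁻¹) :
    ∀ᶠ j in atTop, ∃ Λ, ∀ᶠ p in L6.fast, ∀ k, j ≤ k → k < p.2 →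
      ∀ (D : (Fin 4 → Bool) → Vf Ω κ α) (w : (Fin 4 → Bool) → ℝ) (P : Tj → Prop) (T : Tj) η c d C A σ,
        Tj.Cl (G.nn p) (G.rt p.2 k) P → P T →
        T.In (G.nn p) (G.aa p) (3 ^ e)⁻¹ (3 ^ (e + t))⁻¹ c₀ →
        (∀ ε, (G.wm p.1).Vk (β p) p.2 k j c d C A σ P (D ε) (w ε)) → (G.wm p.1).Vr p.2 k D → 0 ≤ η →
        ∏ ε, w ε ≤ η ^ 16 →
        ‖G.vI β p ((G.wm p.1).vO p.2 k (D 0) T) (Pur.mon g)‖ ≤ Λ * η ∧
        ‖G.vM β p ((G.wm p.1).vO p.2 k (D 0) T) - (G.wm p.1).ct (β p) p.2 k j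
          ((D 0).Y (G.nn p) T) ((G.wm p.1).vC p.2 k (D 0) T)‖ ≤ Λ * η := by
  have o := (h 0).1
  choose Cn C0 Rn hN using fun i => nm_jet (r := False) (hg.1 i).1 (hg.1 i).2 False.elim
  obtain ⟨E, hE⟩ := (Set.finite_range fun x : Option (Fin n) × Fin 4 =>
    (x.1.elim c₀ u x.2).natAbs).bddAbove
  obtain ⟨Rm, hR⟩ := (Set.finite_range fun i => ⌈Rn i⌉₊).bddAbove
  filter_upwards [o.ev_mar (δ := (3 ^ (e + t))⁻¹) (by positivity),
    o.sch.mono.tendsto_atTop.eventually_ge_atTop e] with j hM (he : e ≤ G.e j)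
  obtain ⟨K, hK⟩ : ∃ K, K = exp (16 * (cJ / G.g j * (3 ^ (G.e j - e) : ℕ) ^ 4 +
    exp ((2 * (3 ^ (G.e j - e) + 4 * G.L j ^ G.K0) + 1) ^ 4 : ℕ)) * (3 ^ (4 * E + 2) : ℕ) ^ 4) :=
    ⟨_, rfl⟩
  have K1 : 1 ≤ K := hK ▸ one_le_exp (by
    have : 0 ≤ cJ / G.g j := div_nonneg cJ_nn (o.g0 j).le
    positivity)
  obtain ⟨Λ, hΛ⟩ : ∃ Λ, Λ = (∏ i, Cn i) * (2 * K ^ 2 * ∏ _i : Fin n, (1 + K) * (2 * 10 ^ 38)) :=
    ⟨_, rfl⟩
  have Λ0 : 0 ≤ Λ := hΛ ▸ mul_nonneg (prod_nonneg fun i _ => (C0 i).le) (by positivity)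
  refine ⟨(Λ + K) * 2, (L6.ev_fast.2 (.of_forall fun J => ((eventually_ge_atTop _).filter_mono
    L6.hyp_le).mono fun s hs => ⟨s, hs, Nat.two_mul_div_two_add_one_of_odd (odd3 s)⟩) :
      ∀ᶠ p in L6.fast, ∃ s, 4 * E + 4 + Rm ≤ s ∧ 2 * p.1 + 1 = 3 ^ s).mono ?_⟩
  rintro p ⟨s, s0, m1⟩ k hj hk D w P T η c d C A σ hP hT hI V R η0 hη
  obtain ⟨o', pu⟩ := h p.1
  have a0 := G.aa_pos p
  have e1 : G.e j ≤ G.e p.2 := o.sch.mono.monotone (hj.trans hk.le)
  have a1 : G.aa p * 3 ^ G.e p.2 = 1 := inv_mul_cancel₀ (by positivity)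
  have a2 : G.aa p * (3 ^ (G.e p.2 - e) : ℕ) = (3 ^ e)⁻¹ := by
    refine eq_inv_of_mul_eq_one_left ?_
    rw [Nat.cast_pow, Nat.cast_ofNat, mul_assoc, ← pow_add, Nat.sub_add_cancel (he.trans e1), a1]
  have N := fun i => hN i (G.nn p) (G.aa p) (o'.N_odd _) a0
    (inv_le_one_of_one_le₀ (one_le_pow₀ (by norm_num))) (by
      rw [aa_nn]
      refine (Nat.le_ceil _).trans ?_
      have : ⌈Rn i⌉₊ ≤ Rm := hR ⟨i, rfl⟩
      have := Nat.lt_pow_self (n := s) (show 1 < 3 by norm_num)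
      exact_mod_cast (by omega : ⌈Rn i⌉₊ ≤ 2 * p.1 + 1))
  have V' : ∀ (x : Option (Fin n)) ε, (G.wm p.1).Vk (β p) p.2 k j c d C A σ
      (x.elim P fun _ => Tj.Nm (G.nn p) (G.aa p) False) (x.elim D (fun _ _ => (D 0).src) ε)
      (x.elim w (fun _ _ => 10 ^ 38) ε) := fun x ε => by
    cases x
    exacts [V ε, (V 0).src o' (hβ p) pu hj a0 a1.le]
  have hP' : ∀ x : Option (Fin n), Tj.Cl (G.nn p) (G.rt p.2 k)
      (x.elim P fun _ => Tj.Nm (G.nn p) (G.aa p) False) := fun x => by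
    cases x
    exacts [hP, nm_cl]
  have hT' : ∀ x : Option (Fin n), (x.elim P fun _ => Tj.Nm (G.nn p) (G.aa p) False : Tj → Prop)
      (x.elim T fun i => jet (G.nn p) (G.aa p) ((Cn i)⁻¹ • g i)) := fun x => by
    cases x
    exacts [hT, N _]
  obtain ⟨b1, b2⟩ := Ob.trunc_le (fun x => (V' x 0).vR_bm o' hj (hP' x) (hT' x)) K1
    (η := fun x => 2 * x.elim η fun _ => 10 ^ 38) (fun x => by cases x <;> simp [η0])
    (hK ▸ o'.mix (m := 3 ^ (s + e)) (lam := 3 ^ (G.e p.2 - e))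
      (u := fun x : Option (Fin n) => x.elim c₀ u) (M := (3 ^ (e + t))⁻¹ / G.aa p) (E := E) hj (by
        rw [Gl.N, show (G.wm p.1).m = 3 ^ s from m1, ← pow_add, ← pow_add]
        exact congrArg _ (by change s + G.e p.2 = _; omega))
      (fun l h1 h2 => (hM l _ h1 h2).trans_eq (div_inv_eq_mul _ _).symm) (hβ p) pu (by
        rw [rt, ← pow_add]
        exact congrArg _ (by change _ = G.e p.2 - G.e j + _; omega)) hk.le V'
      (fun x => by cases x; exacts [R, o'.vr_src hk.le _]) hP' hT'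
      (fun x => by
        rcases x with _ | i
        · exact fun _ _ => hI.inC a0 a2
        · exact fun _ _ => (jet_in (o'.N_odd _) fun y z =>
            hs i y (right_ne_zero_of_mul z)).inC a0 a2)
      (pow_dvd_pow _ (by omega))
      (le_trans (by rw [pow_add _ (4 * E + 2) 2]; omega)
        (Nat.pow_le_pow_right three_pos (show 4 * E + 2 + 2 ≤ s + e by omega)))
      (fun x y z => by
        cases x <;> cases y
        exacts [rfl, absurd z.symm (h0 _), absurd z (h0 _), congrArg _ (hu z)])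
      (fun x l => by
        rw [Int.abs_eq_natAbs]
        exact Nat.cast_le.2 (hE ⟨(x, l), rfl⟩)) (Nat.lt_pow_self (by norm_num)).le
      (fun x => by cases x <;> simp [η0]) fun x => by
        cases x
        exacts [hη, by simp])
  obtain ⟨z1, z2⟩ := Ob.ins_mon (h := Fi.tr haar) (b := β p) (a := G.aa p) (g := g)
    ((V 0).vR_bm o' hj hP hT) ((V 0).vR_eq o' hj hP hT) C0
    (X := fun i => (G.wm p.1).vR (β p) p.2 k j (D 0).src (jet (G.nn p) (G.aa p) ((Cn i)⁻¹ • g i)))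
    fun i U => (congrArg (fun z : ℂ => (z - _).re) (o'.vO_src hk.le (D 0) _ U)).trans rfl
  refine ⟨z1.trans_le ((mul_le_mul_of_nonneg_left b2 (prod_nonneg fun i _ => (C0 i).le)).trans ?_),
    z2.trans_le (b1.trans ?_)⟩ <;> simp only [Option.elim]
  · rw [← mul_assoc, ← hΛ]
    nlinarith
  · nlinarith [mul_nonneg Λ0 η0]

end Gl

end Pool.Agent.Lib.MP_7f377f_mp.RG.Q4.En
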