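import Pool.Agent.Lib.MP_7f377f_mp.G.CaH2d
import Pool.Agent.Lib.MP_7f377f_mp.G.CaH1

/-! Arrays of lattice fields. -/

noncomputable section

open Pool.Agent.Lib.MP_7f377f_mp.Jet

set_option linter.unusedSectionVars false
variable [Pool.Agent.Lib.MP_7f377f_mp.GD]

namespace Pool.Agent.Lib.MP_7f377f_mp.RG.Q4.En

open Finset Function Sg Real Pos Mg MeasureTheory Filter YM7
open scoped Classical

variable {γ Ω κ α : Type} [Fintype γ] [DecidableEq γ] [DecidableEq Ω] [Fintype κ] [DecidableEq κ]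
  [Inhabited κ] [Fintype α]

theorem Tj.Ce.p_in {n lam : ℕ} {M : ℝ} {c : St} {T : Tj} (h : T.Ce n lam M c) (hn : Odd n)
    (D : Vf Ω κ α) : (D.P n T).In n (cw n lam (M - 2) c) := fun x hx => by
  have k : ∀ o, ∀ t ∈ box 2, T o (rc n (x + t)) = 0 := fun o t ht => by_contra fun e =>
    hx ((mem_cw hn).2 (by simpa using (inC_rc.1 (h o _ e)).near (nearT_add ht).symm))
  have k0 : ∀ o, T o x = 0 := fun o => by_contra fun e =>
    hx ((mem_cw hn).2 ((h o _ e).mono (by linarith)))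
  have k1 := k none 0 (zero_mem_box 2)
  have k2 := fun μ => k none _ (box_mono one_le_two (un_mem_box μ))
  have k3 := fun μ ν => k none _ (add_mem_box (un_mem_box μ) (un_mem_box ν) :)
  rw [add_zero] at k1
  refine ⟨funext₂ fun μ ν => ?_, ?_, ?_⟩ <;>
    simp [Vf.P, lS, Prod.fst_sum, Prod.snd_sum, Finset.sum_apply, Wd.cav, k0, k1, k2, k3]

namespace Gl

/-- the fields `D q` with the test functions `T q` in the cells `u q` -/
def arW (G : Gl) (J k lam : ℕ) (M : ℝ) (u : γ → St) (D : γ → Vf Ω κ α) (T : γ → Tj) :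
    Wx γ (γ × Ω) κ (γ × α) where
  Om := univ.biUnion fun q =>
    ((D q).S.Om.filter fun ω => T q none ((D q).z ω) ≠ 0).image (Prod.mk q)
  cl := Prod.fst
  F ω := (D ω.1).S.F ω.2
  a ω := (D ω.1).S.a ω.2
  P q := (D q).P (G.N J) (T q)
  V ω := (D ω.1).S.V ω.2
  W q := cw (G.N J) lam M (u q)
  Z0 ω := (D ω.1).S.Z0 ω.2
  X0 ω := (D ω.1).S.X0 ω.2
  X x := (D x.1).S.X x.2
  φ q x := if x.1 = q then ((D q).c x.2 : ℂ) • G.fd J k (T q ((D q).s x.2)) else 0

/-- the weights of the words -/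
def arw (D : γ → Vf Ω κ α) (T : γ → Tj) (ω : γ × Ω) : ℂ :=
  T ω.1 none ((D ω.1).z ω.2) * (D ω.1).w ω.2

variable {G : Gl} {b : ℝ} {J k j c d m lam : ℕ} {C A M M' : ℝ} {σ : ℕ → ℝ} {u : γ → St}
  {D : γ → Vf Ω κ α} {w : γ → ℝ} {P : γ → Tj → Prop} {T : γ → Tj}

theorem mem_arW {ω : γ × Ω} : ω ∈ (G.arW J k lam M u D T).Om ↔
    ω.2 ∈ (D ω.1).S.Om ∧ T ω.1 none ((D ω.1).z ω.2) ≠ 0 := by
  obtain ⟨q, ω⟩ := ω
  simp [arW]

theorem sum_arW {E : Type} [AddCommMonoid E] [Module ℂ E] (f : γ × Ω → E) (q : γ) :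
    ∑ ω ∈ (G.arW J k lam M u D T).Om.filter ((G.arW J k lam M u D T).cl · = q),
      arw D T ω • f ω = ∑ ω ∈ (D q).S.Om, (T q none ((D q).z ω) * (D q).w ω) • f (q, ω) := by
  rw [← sum_filter_of_ne (s := (D q).S.Om) (p := fun ω => T q none ((D q).z ω) ≠ 0)
    fun ω _ e z => e (by rw [z, zero_mul, zero_smul])]
  refine (sum_bij (fun ω _ => (q, ω)) (fun ω e => mem_filter.2 ⟨mem_arW.2 (mem_filter.1 e), rfl⟩)
    (fun _ _ _ _ e => (Prod.mk.inj e).2) ?_ fun _ _ => rfl).symm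
  rintro ⟨q', ω⟩ e
  obtain ⟨a, rfl⟩ := mem_filter.1 e
  exact ⟨ω, mem_filter.2 (mem_arW.1 a), rfl⟩

theorem arW_Y (q : γ) : (G.arW J k lam M u D T).Y (G.N J) (arw D T) q = (D q).Y (G.N J) (T q) :=
  funext fun U => congrArg (_ + ·) (sum_arW (fun ω => (G.arW J k lam M u D T).wo (G.N J) ω U) q)

theorem sum_φ {E : Type} [AddCommMonoid E] (q : γ) (f : Wd.Let → (St → ℂ) → E)
    (f0 : ∀ X, f X 0 = 0) : ∑ x, f ((G.arW J k lam M u D T).X x) ((G.arW J k lam M u D T).φ q x) =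
      ∑ x, f ((D q).S.X x) (((D q).c x : ℂ) • G.fd J k (T q ((D q).s x))) := by
  rw [Fintype.sum_prod_type, sum_eq_single_of_mem q (mem_univ q) fun q' _ e =>
    sum_eq_zero fun x _ => by simp only [arW, if_neg e, f0]]
  simp only [arW, if_true]

theorem arW_C (q : γ) : (G.arW J k lam M u D T).C (G.N k) q = G.vC J k (D q) (T q) :=
  funext fun U => by
    rw [Wx.C, sum_φ q (fun X F => Wd.sm (G.N k) X F U) fun X => by simp [Wd.sm]]
    simp only [Wd.sm_smul', vC]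

theorem cl_zero (X : Wd.Let) : G.cl b J k X 0 = 0 := by
  simpa using cl_lin (G := G) (b := b) (J := J) (k := k) (X := X) (F := 0) (F' := 0) 1

theorem arW_u (q : γ) : G.uX b J k (G.arW J k lam M u D T) (arw D T) q = G.vT b J k (D q) (T q) := by
  have e : ∀ X (t : ℂ) F, G.cl b J k X (t • F) = t • G.cl b J k X F := fun X t F => by
    simpa only [zero_add, cl_zero] using cl_lin (G := G) (b := b) (J := J) (k := k) (X := X) (F := 0) t
  rw [uX, sum_arW, sum_φ q _ cl_zero]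
  simp only [e]
  rfl

section

variable (h : G.Ok) (hj : j ≤ k) (hn : G.N J = m * lam) (hM : G.Mar J j M)
  (hu : ∀ q q', (∀ i, (u q i : ZMod m) = u q' i) → q = q')
  (V : ∀ q, G.Vk b J k j c d C A σ (P q) (D q) (w q)) (hT : ∀ q, P q (T q))
  (hc : ∀ q, (T q).Ce (G.N J) lam M (u q))

include h hM in
theorem Ok.mar_le {l : ℕ} (h1 : j ≤ l) (h2 : l ≤ J) : G.Q l ^ 2 * G.rt J l ≤ M / 2 := by
  have q := h.cQ l (C := 2) (by norm_num)
  have := mul_le_mul_of_nonneg_right (pow_le_pow_right₀ (h.Q1 l) (show 3 ≤ 1000 by norm_num))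
    (rt_pos (G := G) J l).le
  have := hM l h1 h2
  have := mul_le_mul_of_nonneg_right q (mul_pos (pow_pos (h.Q0 l) 2) (rt_pos (G := G) J l)).le
  nlinarith

include h hj hn hM hu V hT hc in
theorem Ok.arW_mx [Nonempty γ] : G.Mx b J k (G.arW J k lam (M / 2) u D T) c d C A (fun _ => 2) σ
    fun l q => (w q * G.rt k j ^ 2 * 2 ^ (l - k))⁻¹ := by
  have M0 := (V (Classical.arbitrary γ)).mx
  have hk := M0.lt.le
  have N := h.N_odd J
  have m1 := h.mar_le hM hj hk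
  have r1 : (1 : ℝ) ≤ G.rt J k := Nat.one_le_cast.2 (Nat.one_le_pow _ _ three_pos)
  have q2 := h.cQ k (C := 2) (by norm_num)
  have p0 : ∀ l q, 0 < w q * G.rt k j ^ 2 * 2 ^ (l - k) := fun l q => by
    have := (V q).w0
    have := rt_pos (G := G) k j
    positivity
  have c2 : (c : ℝ) + 1 ≤ 2 ^ c := by exact_mod_cast Nat.lt_two_pow_self
  have lc : ∀ ω ∈ (G.arW J k lam (M / 2) u D T).Om, (∀ l, (D ω.1).S.V ω.2 l ⊆
      cw (G.N J) lam (M / 2) (u ω.1)) ∧
        (D ω.1).S.X0 ω.2 ⊆ G.zs (cw (G.N J) lam (M / 2) (u ω.1)) J k := fun ω e => by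
    obtain ⟨R, a1, a2, a3⟩ := (V ω.1).lc _ (mem_arW.1 e).1
    have s := ((hc _ _ _ (mem_arW.1 e).2).tb (R := R) N).trans (cw_mono (M' := M / 2) (by nlinarith))
    exact ⟨fun l => (a2 l).trans s, a3.trans (zs_mono s k hk)⟩
  refine ⟨M0.lt, M0.card, M0.C0, M0.dR, M0.big, fun l h1 h2 => ?_, fun ω e => ?_,
    fun ω => (V ω.1).mx.lF ω.2, fun q x e => (hc q).p_in N (D q) x fun a => e (cw_mono (by nlinarith) a),
    fun ω e l => ⟨(lc ω e).1 l, ((V ω.1).mx.lt' _ (mem_arW.1 e).1 l).2⟩, fun q => ⟨?_, fun l h1 h2 => ?_⟩,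
    fun l h1 h2 ω e => (V ω.1).mx.sep l h1 h2 _ (mem_arW.1 e).1,
    ⟨h.cls_cw hn hk hu m1 (by linarith [M0.big, pow_pos (two_pos (α := ℝ)) c]), fun l h1 h2 =>
      h.cls_cw hn h2 hu (h.mar_le hM (by omega) h2) ?_⟩, ⟨M0.lg.1, fun x => (V x.1).mx.lg.2 x.2⟩,
    fun q x y e => h.tb_zs hk (hc q ((D q).s x.2) _ fun z => e ?_) ?_⟩
  · obtain ⟨a1, a2, a3, -, a4⟩ := M0.rad l h1 h2
    refine ⟨a1, a2, a3, fun q => inv_pos.2 (p0 l q), fun e => ⟨(a4 e).1, fun q => le_of_eq ?_⟩⟩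
    have := p0 l q
    rw [show l + 1 - k = l - k + 1 by omega, pow_succ _ (l - k), ← mul_assoc, mul_inv _ (2 : ℝ)]
    push_cast
    ring
  · obtain ⟨a1, a2, a3, -, a4⟩ := (V ω.1).mx.wd _ (mem_arW.1 e).1
    exact ⟨a1, a2, a3, (lc ω e).2, a4⟩
  · obtain ⟨a, B, a1, a2⟩ := (V q).ok _ (hT q)
    have a3 := (norm_nonneg _).trans (a1.pl 0 0 0)
    have a4 := (norm_nonneg _).trans (a1.bd 0 1)
    have a5 := (h.cQ J (C := 4) (by norm_num)).trans ((le_self_pow₀ (h.Q1 J) (by norm_num)).trans (h.Qb J))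
    exact ⟨a, B, a1, ((inv_mul_le_one₀ (p0 J q)).2 (by linarith)).trans (by linarith),
      (inv_mul_le_one₀ (p0 J q)).2 (by linarith)⟩
  · refine ⟨_, ?_, (V q).top _ (hT q) l h1 h2⟩
    rw [inv_mul_cancel₀ (p0 l q).ne', mul_one]
    exact (pow_le_pow_right₀ (h.Q1 l) (by norm_num)).trans (h.Qb l)
  · have := h.Q_mono h1.le
    push_cast
    linarith [M0.big, pow_pos (two_pos (α := ℝ)) c]
  · simp only [arW]
    split_ifs
    · rw [Pi.smul_apply, fd, z, smul_zero]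
    · rfl
  · have := h.D_le_Q k
    have y : 0 ≤ (G.L k : ℝ) ^ G.K0 := by positivity
    rw [show (G.p k).D = 20 * G.L k ^ G.K0 from rfl]
    push_cast
    have z : 20 * (G.L k : ℝ) ^ G.K0 ≤ G.Q k ^ 2 := by nlinarith
    nlinarith [mul_le_mul_of_nonneg_left z (zero_le_one.trans r1)]

include h hj hn hM hu V hT hc in
/-- all fillings of an array -/
theorem Ok.arr [Nonempty γ] (t : G.Tu b J) (hp : G.Pu) (b0 : 0 ≤ b)
    (hP : ∀ q, Tj.Cl (G.N J) (G.rt J k) (P q)) (B : Finset γ) :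
    ‖(∫ U, wil b (G.N J) (pc (G.N J) U) * ∏ q ∈ B, G.vZ b J k j (D q) (T q) (pc (G.N J) U) ∂PP) /
      ∫ U, (wil b (G.N J) (pc (G.N J) U) : ℂ) ∂PP‖ ≤ exp (cJ / G.g j * G.N j ^ 4 + Fintype.card γ *
        exp ((2 * (lam / G.rt J j + 4 * G.L j ^ G.K0) + 1) ^ 4 : ℕ)) * ∏ q ∈ B, (2 * w q) := by
  have X := h.arW_mx hj hn hM hu V hT hc
  have hk := X.lt.le
  have p0 : ∀ l q, 0 < w q * G.rt l j ^ 2 := fun l q => by
    have := (V q).w0
    have := rt_pos (G := G) l j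
    positivity
  have q0 := h.Q0 k
  have c0 : 0 < G.cM k c C := by unfold cM; positivity
  have σ0 := pow_pos (X.rad _ k.lt_succ_self X.lt).2.2.1 (Fintype.card κ)
  have bd := fun q => (hP q).bd _ (hT q)
  have := (X.fill (w := arw D T) (r := fun l q => (2 * (w q * G.rt l j ^ 2))⁻¹)
    (m' := fun l => G.L l ^ 2) (Wt := σ (k + 1) ^ Fintype.card κ / (G.Q k ^ 331 * G.cM k c C)) h t hp
    b0 hj (fun q => le_of_eq (by rw [Nat.add_sub_cancel_left, pow_one, mul_comm])) (fun y => ?_)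
    (le_of_eq (by field_simp)) (fun q y => ?_) (fun l h1 h2 q => ⟨_, ?_, by
      rw [arW_u]; exact (V q).low _ (hT q) l h1 h2⟩) (fun l h1 h2 => ?_) fun q => Nat.cast_le.2
      (h.card_zs (hj.trans hk) ((by positivity : (0 : ℝ) ≤ _).trans (h.mar_le hM hj hk)))).1 B
  · simpa only [arW_Y, arW_C, rt_top, Nat.cast_one, one_pow, mul_one, inv_inv, vZ, vO] using this
  · rcases ((G.arW J k lam (M / 2) u D T).Om.filter
      (y ∈ (G.arW J k lam (M / 2) u D T).X0 ·)).eq_empty_or_nonempty with e | ⟨⟨q, ω⟩, e⟩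
    · rw [e, sum_empty]
      positivity
    obtain ⟨Wt, a1, a2⟩ := (V q).wt
    have D0 := h.D_pos k
    have p := p0 k q
    have s : ∀ ω' ∈ (G.arW J k lam (M / 2) u D T).Om.filter
        (y ∈ (G.arW J k lam (M / 2) u D T).X0 ·), ω'.1 = q := fun ω' e' =>
      one_cluster X.cel.1 (by positivity) (mem_univ _) (mem_univ _)
        ((X.wd _ (mem_filter.1 e').1).2.2.2.1 (mem_filter.1 e').2)
        ((X.wd _ (mem_filter.1 e).1).2.2.2.1 (mem_filter.1 e).2)
    calc _ ≤ ∑ ω' ∈ ((D q).S.Om.filter (y ∈ (D q).S.X0 ·)).image (Prod.mk q),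
          |(D q).w ω'.2| * (2 * (w q * G.rt k j ^ 2))⁻¹ := by
          refine (sum_le_sum fun ω' e' => ?_).trans (sum_le_sum_of_subset_of_nonneg
            (fun ω' e' => ?_) fun _ _ _ => by positivity)
          · obtain rfl := s ω' e'
            refine mul_le_mul_of_nonneg_right ?_ (by positivity)
            rw [arw, norm_mul, Complex.norm_real]
            exact mul_le_of_le_one_left (norm_nonneg _) ((bd _ _).2 _).1
          · obtain rfl := s ω' e'
            exact mem_image.2 ⟨ω'.2, mem_filter.2 ⟨(mem_arW.1 (mem_filter.1 e').1).1,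
              (mem_filter.1 e').2⟩, rfl⟩
      _ ≤ Wt * (2 * (w q * G.rt k j ^ 2))⁻¹ := by
          rw [sum_image (Prod.mk_right_injective q).injOn, ← sum_mul]
          exact mul_le_mul_of_nonneg_right (a1 y) (by positivity)
      _ ≤ _ := by
          rw [← div_eq_mul_inv, div_le_div_iff₀ (by positivity) (by positivity)]
          nlinarith [mul_pos σ0 p]
  · have p := p0 k q
    have a := (V q).cf _ (hT q) y
    rw [sum_φ q (fun _ F => ‖F y‖) fun _ => norm_zero, mul_left_comm, inv_mul_le_one₀ (by positivity)]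
    simp only [Pi.smul_apply, norm_smul, Complex.norm_real, norm_eq_abs]
    linarith
  · have p := p0 l q
    refine (mul_le_of_le_one_right (pow_pos (h.Q0 l) _).le ((inv_mul_le_one₀ (by positivity)).2
      (by linarith))).trans ((pow_le_pow_right₀ (h.Q1 l) (by norm_num)).trans (h.Qb l))
  · have L := h.L1 l
    have a : (G.L l : ℝ) ^ 3 ≤ G.Q l :=
      pow_le_pow_right₀ (by linarith) (by have := h.K0_le; omega)
    have a' : 40 * (G.L l : ℝ) ^ 2 ≤ G.Q l := by nlinarith [sq_nonneg (G.L l : ℝ)]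
    refine ⟨Nat.one_le_pow _ _ (by linarith [h.L_big l]), by exact_mod_cast a',
      h.cls_cw hn (h2.trans hk) hu (h.mar_le hM h1 (h2.trans hk)) (by push_cast; nlinarith),
      fun q => ⟨inv_pos.2 (by linarith [p0 k q]), inv_anti₀ (by linarith [p0 l q]) ?_, fun _ =>
        le_of_eq ?_⟩⟩
    · have := (V q).w0
      have : G.rt l j ≤ G.rt k j := Nat.pow_le_pow_right three_pos
        (Nat.sub_le_sub_right (h.sch.mono.monotone h2) _)
      gcongr
    · have := p0 l q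
      rw [h.rt_up h1]
      push_cast
      have := (V q).w0
      have := rt_pos (G := G) l j
      field_simp

end

end Gl

end Pool.Agent.Lib.MP_7f377f_mp.RG.Q4.En
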