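import Pool.Agent.Lib.MP_7f377f_mp.G.CaH2g

/-! The fields depend only on the links in their cell. -/

noncomputable section

open Pool.Agent.Lib.MP_7f377f_mp.Jet

set_option linter.unusedSectionVars false
variable [Pool.Agent.Lib.MP_7f377f_mp.GD]

namespace Pool.Agent.Lib.MP_7f377f_mp.RG.Q4.En

open Finset Function Sg Real Pos Mg Filter
open scoped Classical

/-- agreement on the links which start in the cell -/
def AgC (n lam : ℕ) (M : ℝ) (c : St) (U U' : Conf) : Prop :=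
  ∀ b : Lk, InC n lam M c b.1 → U b = U' b

variable {n lam d : ℕ} {M M' a A : ℝ} {c : St} {U U' : Conf} {p : Pa} {F : Sx} {T : Tj}
  {Ω κ α : Type} [DecidableEq Ω] [Fintype κ] [DecidableEq κ] [Inhabited κ] [Fintype α]

theorem AgC.mono (h : AgC n lam M c U U') (e : M ≤ M') : AgC n lam M' c U U' :=
  fun b hb => h b (hb.mono e)

theorem AgC.sh (h : AgC n lam (M - d) c U U') {x : St} (hx : InC n lam M c x) :
    Agr d (sh x U) (sh x U') := fun e he =>
  h _ (hx.near (add_comm x e.1 ▸ nearT_add (RG.mem_lbox.1 he)))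

theorem agC_half [NeZero n] {U V : YM7.Cfg n} (hl : lam < n)
    (h : ∀ l, (∀ k, Weak.half lam k l) → U l = V l) : AgC n lam 1 0 (Fi.lf U) (Fi.lf V) :=
  fun b hb => h _ fun k => by
    have := (InC.val (m := 1) (c := 0) hb zero_le_one hl k).2
    simp only [Weak.corner, Pi.sub_apply, Pi.zero_apply, ZMod.val_zero, mul_zero, Nat.cast_zero,
      sub_zero] at this
    have e : (Fi.cst n b.1 k).val + 1 ≤ lam := by exact_mod_cast le_sub_iff_add_le.1 this
    exact ⟨Nat.le_of_succ_le e, fun _ => e⟩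

theorem xO_dep (hn : Odd n) (h : F.Ok p d a A) (hF : F.In n (cw n lam M c))
    (e : AgC n lam (M - (d + 1)) c U U') : xO n F U = xO n F U' := by
  have e' : AgC n lam (M - (d + 1 : ℕ)) c U U' := by simpa using e
  refine congrArg₂ (· + ·) (sum_congr rfl fun x _ => ?_) (sum_congr rfl fun x _ => ?_) <;>
    by_cases hx : InC n lam M c x
  · have k := e'.sh hx
    have a0 : ∀ m, U (x, m) = U' (x, m) := fun m => by
      simpa using k (0, m) (RG.mem_lbox.2 (RG.zero_mem_box _))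
    have a1 : ∀ j m, U (x + un j, m) = U' (x + un j, m) := fun j m => by
      simpa [add_comm] using k (un j, m) (RG.mem_lbox.2 (RG.box_mono (by omega) (RG.un_mem_box j)))
    simp only [fq, hol, a0, a1]
  · simp [(hF x fun k => hx ((mem_cw hn).1 k)).1]
  · exact (h.lt x).loc _ _ fun b hb => e'.sh hx b (RG.mem_lbox.2
      (RG.box_mono (by omega) (RG.mem_lbox.1 hb)))
  · simp [(hF x fun k => hx ((mem_cw hn).1 k)).2.1]

/-- smeared letters are local -/
theorem lf_sm {X : Wd.Let} {f : St → ℂ} {Y : Finset St} (hX : Wd.Rad d X)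
    (hY : ∀ y ∈ box (n / 2), f y ≠ 0 → y ∈ Y) :
    Mg.LF n (tb n (d + 1) Y) fun U => Wd.sm n X f (pc n U) := by
  refine ⟨(Wd.sm_cont n X f).measurable.comp (Mx.cont_pc _).measurable, fun U => by
    rw [Sh.pc_per (Mx.per_pc n U)], fun U U' e => sum_congr rfl fun y hy => ?_, fun u U hu => by
    simp only [Mx.pc_gauge (Mx.PS_iff.1 hu), Wd.sm, Ms.sh_gauge, Wd.evG_gauge]⟩
  by_cases h0 : f y = 0
  · simp [h0]
  rw [Wd.evG_agr hX (U := sh y (pc n U)) (U' := sh y (pc n U')) fun b hb => e _ ?_]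
  have k : nearT n d y (b.1 + y) := add_comm y b.1 ▸ nearT_add (RG.mem_lbox.1 hb)
  exact ⟨mem_tb.2 ⟨rc_rc _ _, y, hY y hy h0, nearT_rc_right.2 (nearT_rc_right.2 (k.mono d.le_succ))⟩,
    mem_tb.2 ⟨rc_rc _ _, y, hY y hy h0, nearT_rc_right.2
      ((nearT_rc_right.2 k).trans (nearT_add (RG.un_mem_box _)))⟩⟩

theorem cav_in (hn : Odd n) {f : St → ℂ} (hf : ∀ x, f x ≠ 0 → InC n lam M c x) {x : St}
    (hx : rc n x ∉ cw n lam (M - 2) c) : Wd.cav n f x = 0 := by
  have k : ∀ v ∈ box 2, f (rc n (x + v)) = 0 := fun v hv => by_contra fun e => by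
    have e1 : InC n lam M c (x + v) := inC_rc.1 (hf _ e)
    have e2 : nearT n 2 (x + v) x := (nearT_add hv).symm
    exact hx ((mem_cw hn).2 ((e1.near e2).mono (by norm_num)))
  have k0 := k 0 (RG.zero_mem_box _)
  have k1 := fun μ => k _ (RG.box_mono one_le_two (RG.un_mem_box μ))
  funext μ ν
  rw [add_zero] at k0
  have k2 := k (un μ + un ν) (RG.add_mem_box (r := 1) (r' := 1) (RG.un_mem_box μ) (RG.un_mem_box ν))
  simp only [Wd.cav, k0, k1, k2, add_zero, mul_zero, Pi.zero_apply]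

theorem Vf.P_in (D : Vf Ω κ α) (hn : Odd n) (hT : ∀ o x, T o x ≠ 0 → InC n lam M c x) :
    (D.P n T).In n (cw n lam (M - 2) c) := fun x hx => by
  have k : ∀ o, T o x = 0 := fun o => by_contra fun e =>
    hx ((mem_cw hn).2 ((hT o x e).mono (by linarith)))
  simp [Vf.P, lS, Prod.fst_sum, Prod.snd_sum, Finset.sum_apply, k, cav_in hn (hT none) hx]

theorem Sx.In.mono {W W' : Finset St} (h : F.In n W) (e : W ⊆ W') : F.In n W' :=
  fun x hx => h x fun k => hx (e k)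

namespace Gl

variable {G : Gl} {b C w : ℝ} {J k j e : ℕ} {σ : ℕ → ℝ} {P : Tj → Prop} {D : Vf Ω κ α}

theorem Ok.R_lq (h : G.Ok) (hd : d ≤ (G.p k).R) : (d : ℝ) + 4 ≤ G.Q k / 100 := by
  have h1 : (d : ℝ) ≤ 4 * G.L k ^ G.K0 := by exact_mod_cast hd
  linarith [h.D_le_Q k, h.cQ k (C := 1000) (by norm_num)]

theorem bc_vC (D : Vf Ω κ α) (T : Tj) : BC (G.vC J k D T) := by
  have : Continuous (G.vC J k D T) := (continuous_finsetSum _ fun x _ =>
    continuous_const.mul (Wd.sm_cont _ _ _)).neg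
  exact ⟨this.measurable, (isCompact_univ.exists_bound_of_continuousOn this.continuousOn).imp
    fun _ h U => h U trivial⟩

variable (V : G.Vk b J k j e d C A σ P D w) (h : G.Ok)
  (hT : ∀ o x, T o x ≠ 0 → InC (G.N J) lam M c x)
include V h hT

/-- the words which are used lie in the cell -/
theorem Vk.V_sub {ω : Ω} (hω : ω ∈ D.S.Om) (h0 : T none (D.z ω) ≠ 0) (l : κ) :
    D.S.V ω l ⊆ cw (G.N J) lam (M - G.Q k * G.rt J k) c :=
  let ⟨_, h1, h2, _⟩ := V.lc ω hω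
  (h2 l).trans (((hT _ _ h0).tb (h.N_odd J)).trans (cw_mono (by linarith)))

theorem Vk.X0_sub {ω : Ω} (hω : ω ∈ D.S.Om) (h0 : T none (D.z ω) ≠ 0) :
    D.S.X0 ω ⊆ G.zs (cw (G.N J) lam (M - G.Q k * G.rt J k) c) J k :=
  let ⟨_, h1, _, h2⟩ := V.lc ω hω
  h2.trans (zs_mono (((hT _ _ h0).tb (h.N_odd J)).trans (cw_mono (by linarith))) k V.mx.lt.le)

theorem Vk.Y_dep (hP : P T) (a : AgC (G.N J) lam (M - 2 * G.Q k * G.rt J k) c U U') :
    D.Y (G.N J) T U = D.Y (G.N J) T U' := by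
  have r : (1 : ℝ) ≤ G.rt J k := Nat.one_le_cast.2 (Nat.cast_pos.1 (Ok.rt_pos J k))
  have Q := h.Q1 k
  have := h.R_lq V.mx.dR
  obtain ⟨_, _, o, -⟩ := V.ok T hP
  rw [Vf.Y, Vf.Y, xO_dep (h.N_odd J) o (D.P_in (h.N_odd J) hT) (a.mono (by nlinarith))]
  refine congrArg _ (sum_congr rfl fun ω hω => ?_)
  by_cases h0 : T none (D.z ω) = 0
  · simp [h0]
  refine congrArg _ (prod_congr rfl fun l _ => ?_)
  obtain ⟨⟨_, _, o', -⟩, -⟩ := (V.mx.lt' ω hω l).2.2.1
  rw [xO_dep (h.N_odd J) o' ((V.mx.lF ω l).mono (V.V_sub h hT hω h0 l)) (a.mono (by nlinarith))]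

theorem Vk.lf_vC : Mg.LF (G.N k) (tb (G.N k) (d + 1) ((box (G.N k / 2)).filter fun y =>
    InC (G.N J) lam M c ((G.rt J k : ℤ) • y))) fun W => G.vC J k D T (pc (G.N k) W) := by
  simpa only [vC, neg_mul, one_mul] using (Mg.LF.const (-1)).mul (Mg.LF.sum (t := univ) fun x _ =>
    (Mg.LF.const (D.c x : ℂ)).mul (lf_sm (f := G.fd J k (T (D.s x))) (V.mx.lg.2 x).1
      fun y hy h0 => mem_filter.2 ⟨hy, hT _ _ h0⟩))

theorem Vk.C_dep (a : AgC (G.N J) lam (M - 2 * G.Q k * G.rt J k) c U U') :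
    G.ta (G.vC J k D T) J k U = G.ta (G.vC J k D T) J k U' := by
  have r : (1 : ℝ) ≤ G.rt J k := Nat.one_le_cast.2 (Nat.cast_pos.1 (Ok.rt_pos J k))
  have Q := h.Q1 k
  have := h.R_lq V.mx.dR
  have hk := V.mx.lt.le
  have B := bc_vC (G := G) (J := J) (k := k) D T
  rw [h.ta_congr hk (P' := fun W => G.vC J k D T (pc (G.N k) W)) fun W hW => by rw [Sh.pc_per hW]]
  refine (h.ta_lf hk ⟨B.1.comp (Mx.cont_pc _).measurable, B.2.imp fun _ h _ => h _⟩
    (V.lf_vC h hT)).dep fun b hb => a b ?_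
  refine ((mem_cw (h.N_odd J)).1 (h.us_cw hk (fun y hy => (mem_filter.1 hy).2) hb.1)).mono ?_
  push_cast
  nlinarith

/-- the observable depends only on the links in the cell -/
theorem Vk.dep (hP : P T) (a : AgC (G.N J) lam (M - 2 * G.Q k * G.rt J k) c U U') :
    G.vO J k D T U = G.vO J k D T U' := by
  rw [vO, vO, V.Y_dep h hT hP a, V.C_dep h hT a]

end Gl

/-- the form which is used by the chessboard estimate -/
theorem Gl.Vk.hd {G : Gl} {b C w : ℝ} {J k j e : ℕ} {σ : ℕ → ℝ} {P : Tj → Prop} {D : Vf Ω κ α}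
    [NeZero (G.N J)] (V : G.Vk b J k j e d C A σ P D w) (h : G.Ok)
    (hT : ∀ o x, T o x ≠ 0 → InC (G.N J) lam M 0 x) (hP : P T) (hl : lam < G.N J)
    (hM : 1 + 2 * G.Q k * G.rt J k ≤ M) {U U' : YM7.Cfg (G.N J)}
    (a : ∀ l, (∀ k, Weak.half lam k l) → U l = U' l) :
    G.vO J k D T (Fi.lf U) = G.vO J k D T (Fi.lf U') :=
  V.dep h hT hP ((agC_half hl a).mono (by linarith))

end Pool.Agent.Lib.MP_7f377f_mp.RG.Q4.En
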