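import Pool.Agent.Lib.MP_7f377f_mp.G.CaH2d

/-! Covariance of the lattice fields. -/

noncomputable section

open Pool.Agent.Lib.MP_7f377f_mp.Jet

set_option linter.unusedSectionVars false
variable [Pool.Agent.Lib.MP_7f377f_mp.GD]

namespace Pool.Agent.Lib.MP_7f377f_mp.RG.Q4.En

open Finset Function Sg Real Pos Mg MeasureTheory Filter YM7
open scoped Classical

variable {γ Ω κ α : Type} [Fintype γ] [DecidableEq γ] [DecidableEq Ω] [Fintype κ] [DecidableEq κ]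
  [Inhabited κ] [Fintype α] {D : Vf Ω κ α} {T : Tj}

section one

variable {n : ℕ} {U : Conf} {f g : Conf → ℂ}

theorem bc_cont (h : Continuous f) : BC f :=
  ⟨h.measurable, (isCompact_univ.exists_bound_of_continuousOn h.continuousOn).imp
    fun _ h U => h U trivial⟩

theorem bc_mul (h : BC f) (h' : BC g) : BC fun U => f U * g U :=
  let ⟨_, a⟩ := h.2
  let ⟨_, b⟩ := h'.2
  ⟨h.1.mul h'.1, _, fun U => norm_mul_le_of_le (a U) (b U)⟩

theorem bc_add (h : BC f) (h' : BC g) : BC fun U => f U + g U :=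
  let ⟨_, a⟩ := h.2
  let ⟨_, b⟩ := h'.2
  ⟨h.1.add h'.1, _, fun U => norm_add_le_of_le (a U) (b U)⟩

theorem bc_comp (h : BC f) {σ : Conf → Conf} (hσ : Measurable σ) : BC fun U => f (σ U) :=
  ⟨h.1.comp hσ, h.2.imp fun _ a _ => a _⟩

theorem cont_cf (g : Ty.Gn) : Continuous (Ty.cf g) := continuous_pi fun e => by
  cases g
  · exact continuous_apply _
  · simp only [Ty.cf, rfl1]
    split_ifs <;> fun_prop

theorem wil_sh (hn : Odd n) (hU : Per n U) (b : ℝ) (v : St) : wil b n (sh v U) = wil b n U :=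
  congrArg (fun x => exp (-(b * x))) ((Mx.wact_sym hn hU).1 v)

theorem wil_cf (hn : Odd n) (hU : Per n U) (b : ℝ) (g : Ty.Gn) :
    wil b n (Ty.cf g U) = wil b n U := by
  cases g
  exacts [congrArg (fun x => exp (-(b * x))) ((Mx.wact_sym hn hU).2.1 _),
    congrArg (fun x => exp (-(b * x))) ((Mx.wact_sym hn hU).2.2 _)]

theorem ps_rc' {β : Type} {F : St → β} (hF : PS n F) (x : St) : F (rc n x) = F x := by
  obtain ⟨w, hw⟩ := rc_exists n x
  rw [hw, hF]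

theorem xO_tr (hn : Odd n) (hU : Per n U) (v : St) (F : Sx) :
    xO n (sxT n v F) (sh v U) = xO n F U := by
  have e : ∀ x μ ν, fq U (rc n x) μ ν = fq U x μ ν := fun x μ ν => by
    rw [← zero_add (rc n x), ← Fi.fq_sh, Wd.sh_rc hU, Fi.fq_sh, zero_add]
  simp only [xO, sO]
  rw [← Wd.sum_rc hn v fun x => F.2.1 x (sh x U), ← Wd.sum_rc hn v
    fun x => ∑ μ, ∑ ν, F.1 x μ ν * (2⁻¹ * fq U x μ ν ^ 2 : ℝ)]
  simp only [sxT, srT, Fi.fq_sh, e, Wd.sh_rc hU, sh_sh]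

theorem sm_sh (hn : Odd n) (hU : Per n U) {h : St → ℂ} (hh : PS n h) (X : Wd.Let) (v : St) :
    Wd.sm n X (fun x => h (x + v)) (sh v U) = Wd.sm n X h U := by
  rw [Wd.sm, Wd.sm, ← Wd.sum_rc hn v fun x => h x * Wd.evG X (sh x U)]
  simp only [ps_rc' hh, Wd.sh_rc hU, sh_sh]

theorem Vf.xO_P (U : Conf) : xO n (D.P n T) U =
    ∑ o, Wd.sm n (D.T o) (T o) U + D.c0 * sO n (Wd.cav n (T none)) U := by
  simp only [Vf.P, xO, sO, Wd.sm, lS, Prod.fst_add, Prod.snd_add, Prod.fst_sum, Prod.snd_sum,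
    Prod.smul_fst, Prod.smul_snd, sum_const_zero, zero_add, smul_zero, add_zero, Finset.sum_apply,
    Pi.smul_apply, smul_eq_mul, mul_sum, mul_assoc, add_comm (∑ o, _)]
  exact congrArg _ sum_comm

theorem Vf.xO_P' (hn : Odd n) (hU : Per n U) : xO n (D.P n T) U =
    ∑ o, Wd.sm n (D.T o) (T o) U + D.c0 * Wd.sm n Wd.phS (T none) U := by
  rw [Vf.xO_P, Wd.sm_phS hn hU]

theorem Vf.cont_P : Continuous (xO n (D.P n T)) := by
  rw [funext Vf.xO_P]
  exact (continuous_finsetSum _ fun _ _ => Wd.sm_cont ..).add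
    (continuous_const.mul (Br.cont_sO _))

theorem Tj.tr_tr (u v : St) (T : Tj) : (T.tr u).tr v = T.tr (v + u) := by
  funext o x
  simp only [Tj.tr, add_assoc]

theorem Tj.tr_zero (T : Tj) : T.tr 0 = T := by
  funext o x
  simp only [Tj.tr, add_zero]

theorem Tj.ps_tr (hT : ∀ o, PS n (T o)) (v : St) (o : Option (Fin 4)) : PS n (T.tr v o) :=
  fun x u => by rw [Tj.tr, add_right_comm, hT o, Tj.tr]

end one

namespace Gl

variable {G : Gl} {b : ℝ} {J k j : ℕ} {U W : Conf} {Y Y' C C' : Conf → ℂ}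

theorem cont_vC : Continuous (G.vC J k D T) :=
  (continuous_finsetSum _ fun _ _ => continuous_const.mul (Wd.sm_cont ..)).neg

namespace Ok

variable (h : G.Ok)
include h

theorem ps_fd (hk : k ≤ J) {F : St → ℂ} (hF : PS (G.N J) F) : PS (G.N k) (G.fd J k F) :=
  fun x v => by rw [fd, fd, smul_add, smul_smul, ← Nat.cast_mul, h.rt_N hk, hF]

/-- translations of the block lattice -/
theorem Y_tr (iv : Mx.Iv G J k D.S D.w D.z) (hT : ∀ o, PS (G.N J) (T o)) (hU : Per (G.N J) U)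
    (v : St) : D.Y (G.N J) (T.tr ((G.rt J k : ℤ) • v)) (sh ((G.rt J k : ℤ) • v) U) =
      D.Y (G.N J) T U := by
  obtain ⟨u, hu, e⟩ := iv.inv v
  have o := h.N_odd J
  rw [Vf.Y, Vf.Y, Vf.xO_P' o (per_sh' hU _), Vf.xO_P' o hU]
  congr 1
  · simp only [← sm_sh o hU (hT _) _ ((G.rt J k : ℤ) • v)]
    rfl
  · refine (sum_nbij u hu.mapsTo hu.injOn hu.surjOn fun ω hω => ?_).symm
    obtain ⟨e1, e2, e3, -, -, e4⟩ := e ω hω
    simp only [Wx.wo, e1, e2, e3, xO_tr o hU, Tj.tr]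
    rw [← ps_rc' (hT none), e4, ps_rc' (hT none)]

theorem vC_tr (hk : k ≤ J) (hT : ∀ o, PS (G.N J) (T o)) (hW : Per (G.N k) W) (v : St) :
    G.vC J k D (T.tr ((G.rt J k : ℤ) • v)) (sh v W) = G.vC J k D T W := by
  simp only [vC, ← sm_sh (h.N_odd k) hW (h.ps_fd hk (hT _)) _ v, fd, smul_add]
  rfl

theorem vO_tr (hk : k ≤ J) (iv : Mx.Iv G J k D.S D.w D.z) (hT : ∀ o, PS (G.N J) (T o))
    (hU : Per (G.N J) U) (v : St) :
    G.vO J k D (T.tr ((G.rt J k : ℤ) • v)) (sh ((G.rt J k : ℤ) • v) U) = G.vO J k D T U := by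
  rw [vO, vO, h.Y_tr iv hT hU, ← h.ta_sh hk (bc_cont cont_vC) hU,
    h.ta_congr hk fun W hW => h.vC_tr hk hT hW v]

theorem vO_rf {D : (Fin 4 → Bool) → Vf Ω κ α} (hk : k ≤ J) (r : G.Vr J k D)
    (hT : ∀ o, PS (G.N J) (T o)) (hU : Per (G.N J) U) (ε : Fin 4 → Bool) (μ : Fin 4) :
    G.vO J k (D (update ε μ !ε μ)) (T.rf μ) U = G.vO J k (D ε) T (Ty.cf (.inr μ) U) := by
  rw [vO, vO, (r ε μ T hT).1 U hU, ← h.ta_cf hk (bc_cont cont_vC) hU, h.ta_congr hk (r ε μ T hT).2]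

theorem N_rt (hk : k ≤ J) : G.N J / G.N k = G.rt J k := h.N_div hk

theorem tt_cf (hY : Measurable Y) (hk : k ≤ J) (hW : Per (G.N k) W) (g : Ty.Gn) :
    G.tt Y J k (Ty.cf g W) = G.tt (fun U => Y (Ty.cf g U)) J k W := by
  cases g
  exacts [h.tt_pm hY hk hW _, h.tt_rfl hY hk hW _]

omit h in
theorem meas_wil (b : ℝ) (n : ℕ) : Measurable fun U => (wil b n U : ℂ) :=
  Complex.measurable_ofReal.comp (Fi.cont_wil b).measurable

theorem f_meas (hk : k ≤ J) : Measurable (G.f b J k) := h.f_tt b hk ▸ tt_meas (meas_wil _ _) hk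

theorem f_im (hk : k ≤ J) (W : Conf) : (G.f b J k W).im = 0 :=
  h.f_tt b hk ▸ tt_real (fun _ => rfl) hk W

theorem f_sh (hk : k ≤ J) (hW : Per (G.N k) W) (v : St) : G.f b J k (sh v W) = G.f b J k W := by
  rw [h.f_tt b hk, h.tt_sh (meas_wil _ _) hk hW,
    h.tt_congr (fun U hU => by rw [wil_sh (h.N_odd J) hU]) hk W hW]

theorem f_cf (hk : k ≤ J) (hW : Per (G.N k) W) (g : Ty.Gn) :
    G.f b J k (Ty.cf g W) = G.f b J k W := by
  rw [h.f_tt b hk, h.tt_cf (meas_wil _ _) hk hW,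
    h.tt_congr (fun U hU => by rw [wil_cf (h.N_odd J) hU]) hk W hW]

theorem ct_congr (hj : j ≤ k) (hk : k ≤ J) (e : ∀ U, Per (G.N J) U → Y U = Y' U)
    (e' : ∀ W, Per (G.N k) W → C W = C' W) : G.ct b J k j Y C = G.ct b J k j Y' C' := by
  rw [ct, ct, h.tt_congr (fun U hU => by rw [e U hU]) (hj.trans hk) 1 fun _ => rfl,
    h.tt_congr (fun U hU => by rw [e' U hU]) hj 1 fun _ => rfl]

theorem ct_real (hj : j ≤ k) (hk : k ≤ J) (e : ∀ U, (Y U).im = 0) (e' : ∀ U, (C U).im = 0) :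
    (G.ct b J k j Y C).im = 0 := by
  have a := tt_real (G := G) (f := fun U => Y U * wil b (G.N J) U) (fun U => by simp [e])
    (hj.trans hk) 1
  have a' := tt_real (G := G) (f := fun U => C U * G.f b J k U)
    (fun U => by simp [e', h.f_im hk]) hj 1
  simp [ct, Complex.div_im, a, a', h.f_im (hj.trans hk)]

variable (hj : j ≤ k) (hk : k ≤ J) (hY : Measurable Y) (hC : Measurable C)
include hj hk hY hC

/-- the centring is invariant under the translations of the lattice of level `j` -/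
theorem ct_sh (v : St) : G.ct b J k j (fun U => Y (sh ((G.rt J j : ℤ) • v) U))
    (fun W => C (sh ((G.rt k j : ℤ) • v) W)) = G.ct b J k j Y C := by
  have e1 := h.tt_sh (hY.mul (meas_wil b (G.N J))) (hj.trans hk) (W := 1) (fun _ => rfl) v
  have e2 := h.tt_sh (hC.mul (h.f_meas (b := b) hk)) hj (W := 1) (fun _ => rfl) v
  rw [h.N_rt (hj.trans hk)] at e1
  rw [h.N_rt hj] at e2
  refine congrArg (· / _) (congrArg₂ _ (Eq.trans ?_ e1.symm) (Eq.trans ?_ e2.symm))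
  · exact h.tt_congr (fun U hU => by
      simp only [Pi.mul_apply, wil_sh (h.N_odd J) hU]) (hj.trans hk) 1 fun _ => rfl
  · exact h.tt_congr (fun U hU => by
      simp only [Pi.mul_apply, h.f_sh hk hU]) hj 1 fun _ => rfl

theorem ct_cf (g : Ty.Gn) : G.ct b J k j (fun U => Y (Ty.cf g U)) (fun W => C (Ty.cf g W)) =
    G.ct b J k j Y C := by
  have o : Ty.cf g 1 = 1 := by
    cases g
    · rfl
    · funext e
      simp [Ty.cf, rfl1]
  have e1 := h.tt_cf (hY.mul (meas_wil b (G.N J))) (hj.trans hk) (W := 1) (fun _ => rfl) g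
  have e2 := h.tt_cf (hC.mul (h.f_meas (b := b) hk)) hj (W := 1) (fun _ => rfl) g
  rw [o] at e1 e2
  refine congrArg (· / _) (congrArg₂ _ (Eq.trans ?_ e1.symm) (Eq.trans ?_ e2.symm))
  · exact h.tt_congr (fun U hU => by
      simp only [Pi.mul_apply, wil_cf (h.N_odd J) hU]) (hj.trans hk) 1 fun _ => rfl
  · exact h.tt_congr (fun U hU => by
      simp only [Pi.mul_apply, h.f_cf hk hU]) hj 1 fun _ => rfl

end Ok

variable {c d : ℕ} {A B w : ℝ} {σ : ℕ → ℝ} {P : Tj → Prop}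

theorem Vk.Y_bc (V : G.Vk b J k j c d A B σ P D w) (T : Tj) : BC (D.Y (G.N J) T) :=
  bc_add (bc_cont Vf.cont_P.neg) (bc_sum (fun ω hω => Br.gi_bc (.prod fun l _ =>
    let ⟨_, _, o, _⟩ := (V.mx.lt' ω hω l).2.2.1.1
    Br.gi_comp (gi_xO o) (φ := fun z => -z - D.S.a ω l) (by fun_prop))) _)

section
variable (V : G.Vk b J k j c d A B σ P D w) (h : G.Ok) (hj : j ≤ k)
  (hP : Tj.Cl (G.N J) (G.rt J k) P) (hT : P T)
include V h hj hP hT

theorem Vk.vO_bc : BC (G.vO J k D T) :=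
  have _ := And.intro hj (hP.bd T hT)
  bc_add (V.Y_bc T) (h.ta_bc V.mx.lt.le (bc_cont cont_vC))

omit h hj in
theorem Vk.Y_real (U : Conf) : (D.Y (G.N J) T U).im = 0 := by
  have t := fun o x => ((hP.bd T hT o).2 x).2
  have e : ∀ ω, (D.S.wo (G.N J) ω U).im = 0 := fun ω => prod_induction _ (fun z : ℂ => z.im = 0)
    (fun _ _ h h' => by simp [h, h']) rfl fun l _ => by
      simp [xO, sO, (V.iv.re ω l).1.1, (V.iv.re ω l).1.2.1, (V.iv.re ω l).2, -Complex.ofReal_pow]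
  simp [Vf.Y, Vf.xO_P, Wd.sm, sO, Wd.cav, t, e, Wd.evG_real (V.rd _).2, -Complex.ofReal_pow]

omit h hj in
theorem Vk.vC_real (W : Conf) : (G.vC J k D T W).im = 0 := by
  simp [vC, Wd.sm, fd, ((hP.bd T hT _).2 _).2, Wd.evG_real (V.re _)]

omit hj in
theorem Vk.vO_real (U : Conf) : (G.vO J k D T U).im = 0 := by
  rw [vO, Complex.add_im, V.Y_real hP hT, h.ta_real V.mx.lt.le (V.vC_real hP hT), add_zero]

theorem Vk.vZ_real (U : Conf) : (G.vZ b J k j D T U).im = 0 := by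
  rw [vZ, Complex.sub_im, V.vO_real h hP hT,
    h.ct_real hj V.mx.lt.le (V.Y_real hP hT) (V.vC_real hP hT), sub_zero]

theorem Vk.ct_tr (v : St) : G.ct b J k j (D.Y (G.N J) (T.tr ((G.rt J j : ℤ) • v)))
    (G.vC J k D (T.tr ((G.rt J j : ℤ) • v))) = G.ct b J k j (D.Y (G.N J) T) (G.vC J k D T) := by
  have hk := V.mx.lt.le
  have t := fun o => (hP.bd T hT o).1
  rw [← h.ct_sh hj hk (V.Y_bc _).1 cont_vC.measurable v, ← h.rt_mul hj hk, mul_comm, Nat.cast_mul,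
    mul_smul]
  exact h.ct_congr hj hk (fun U hU => h.Y_tr V.iv t hU _) fun W hW => h.vC_tr hk t hW _

theorem Vk.vZ_tr (hU : Per (G.N J) U) (v : St) :
    G.vZ b J k j D (T.tr ((G.rt J j : ℤ) • v)) (sh ((G.rt J j : ℤ) • v) U) =
      G.vZ b J k j D T U := by
  rw [vZ, vZ, V.ct_tr h hj hP hT, ← h.rt_mul hj V.mx.lt.le, mul_comm, Nat.cast_mul, mul_smul,
    h.vO_tr V.mx.lt.le V.iv (fun o => (hP.bd T hT o).1) hU]

end

theorem Vr.vZ_rf {D : (Fin 4 → Bool) → Vf Ω κ α} {w : (Fin 4 → Bool) → ℝ} (R : G.Vr J k D)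
    (V : ∀ ε, G.Vk b J k j c d A B σ P (D ε) (w ε)) (h : G.Ok) (hj : j ≤ k)
    (hP : Tj.Cl (G.N J) (G.rt J k) P) (hT : P T) (hU : Per (G.N J) U) (ε : Fin 4 → Bool)
    (μ : Fin 4) : G.vZ b J k j (D (update ε μ !ε μ)) (T.rf μ) U =
      G.vZ b J k j (D ε) T (Ty.cf (.inr μ) U) := by
  have hk := (V ε).mx.lt.le
  have t := fun o => (hP.bd T hT o).1
  rw [vZ, vZ, h.vO_rf hk R t hU, h.ct_congr hj hk (R ε μ T t).1 (R ε μ T t).2,
    h.ct_cf hj hk ((V ε).Y_bc T).1 cont_vC.measurable]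

end Gl

theorem lf_shift {n : ℕ} (v : St) (U : Cfg n) :
    Fi.lf (Weak.shift (Fi.cst n v) U) = sh v (Fi.lf U) :=
  funext fun e => congrArg (fun x => U (x, e.2)) (Fi.cst_add e.1 v).symm

theorem per_lf {n : ℕ} (U : Cfg n) : Per n (Fi.lf U) := fun μ => by
  rw [← lf_shift, Fi.cst_un, Int.cast_natCast, ZMod.natCast_self, Pi.single_zero]
  exact congrArg Fi.lf (funext fun e => congrArg U (Prod.ext (add_zero _) rfl))

theorem lf_refl {n : ℕ} [NeZero n] (μ : Fin 4) (U : Cfg n) :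
    Fi.lf (Weak.refl μ U) = Ty.cf (.inr μ) (Fi.lf U) := by
  rw [← Sh.pc_per (per_cf (per_lf U) _), ← Fi.lf_rs, Ty.cf, rs_rfl (per_lf U), Fi.rs_lf]

end Pool.Agent.Lib.MP_7f377f_mp.RG.Q4.En
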