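import Pool.Agent.Lib.MP_7f377f_mp.G.CaG
import Pool.Agent.Lib.MP_7f377f_mp.G.ObM

/-! The geometric chessboard estimate for species with mirror images. -/

noncomputable section

namespace Pool.Agent.Lib.MP_7f377f_mp.Ob
variable [GD]
set_option linter.unusedSectionVars false

open MeasureTheory Weak Real Finset YM7 Function

section
variable {Ω ι : Type} [MeasurableSpace Ω] {μ : Measure Ω} [IsProbabilityMeasure μ] [Fintype ι]

theorem cen_exp {Y : Ω → ℝ} {X : ι → Ω → ℝ} (hY : BM Y) (hX : ∀ i, BM (X i)) {e η θ : ι → ℝ}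
    {y : ℝ} (he : ∀ i, |e i| ≤ θ i)
    (h : ∀ B : Finset ι, |∫ U, Y U * ∏ i ∈ B, X i U ∂μ| ≤ y * ∏ i ∈ B, η i) :
    |∫ U, Y U * ∏ i, (X i U - e i) ∂μ| ≤ y * ∏ i, (η i + θ i) := by
  classical
  simp only [sub_eq_add_neg, prod_add, mul_sum, ← mul_assoc]
  rw [integral_finsetSum _ fun B _ => ((hY.mul (BM.prod B hX)).mul (BM.const _)).int μ]
  refine (abs_sum_le_sum_abs _ _).trans (sum_le_sum fun B _ => ?_)
  rw [integral_mul_const, abs_mul, abs_prod]
  exact mul_le_mul (h B) (prod_le_prod (fun _ _ => abs_nonneg _) fun i _ => (abs_neg _).trans_le (he i))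
    (prod_nonneg fun _ _ => abs_nonneg _) ((abs_nonneg _).trans (h B))

/-- truncated correlations from bounds for all products -/
theorem trunc_le {X : Option ι → Ω → ℝ} (hX : ∀ x, BM (X x)) {K : ℝ} {η : Option ι → ℝ}
    (K1 : 1 ≤ K) (η0 : ∀ x, 0 ≤ η x)
    (h : ∀ B : Finset (Option ι), |∫ U, ∏ x ∈ B, X x U ∂μ| ≤ K * ∏ x ∈ B, η x) :
    |∫ U, X none U ∂μ| ≤ K * η none ∧
    |∫ U, X none U * ∏ i, (X (some i) U - ∫ V, X (some i) V ∂μ) ∂μ - (∫ U, X none U ∂μ) *
      ∫ U, ∏ i, (X (some i) U - ∫ V, X (some i) V ∂μ) ∂μ| ≤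
        2 * K ^ 2 * (∏ i, (1 + K) * η (some i)) * η none := by
  classical
  have e : ∀ x, |∫ U, X x U ∂μ| ≤ K * η x := fun x => by simpa using h {x}
  have a := cen_exp (hX none) (fun i => hX (some i)) (fun i => e (some i)) (y := K * η none)
    (η := fun i => η (some i)) fun B => by simpa [mul_assoc] using h B.insertNone
  have a' := cen_exp (μ := μ) (BM.const 1) (fun i => hX (some i)) (fun i => e (some i)) (y := K)
    (η := fun i => η (some i)) fun B => by simpa using h (B.map .some)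
  simp only [one_mul] at a'
  simp only [add_mul, one_mul]
  have p : 0 ≤ ∏ i, (η (some i) + K * η (some i)) := prod_nonneg fun i _ => by
    have := η0 (some i)
    positivity
  refine ⟨e _, (abs_sub _ _).trans ?_⟩
  rw [abs_mul]
  have := mul_le_mul (e none) a' (abs_nonneg _) ((abs_nonneg _).trans (e none))
  nlinarith [mul_nonneg (mul_nonneg (sub_nonneg.2 K1) (zero_le_one.trans K1))
    (mul_nonneg p (η0 none))]

theorem trunc_le' {Y : Ω → ℝ} {X : ι → Ω → ℝ} (hY : BM Y) (hX : ∀ i, BM (X i)) {K a η : ℝ}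
    (K1 : 1 ≤ K) (h : ∀ B : Finset ι, |∫ U, ∏ i ∈ B, X i U ∂μ| ≤ K * a ^ B.card)
    (h' : ∀ B : Finset ι, |∫ U, Y U * ∏ i ∈ B, X i U ∂μ| ≤ K * η * a ^ B.card) :
    |∫ U, Y U * ∏ i, (X i U - ∫ V, X i V ∂μ) ∂μ - (∫ U, Y U ∂μ) *
      ∫ U, ∏ i, (X i U - ∫ V, X i V ∂μ) ∂μ| ≤ 2 * K ^ 2 * η * (a + K * a) ^ Fintype.card ι := by
  have e : ∀ x, |∫ U, X x U ∂μ| ≤ K * a := fun x => by simpa using h {x}
  have e' : |∫ U, Y U ∂μ| ≤ K * η := by simpa using h' ∅
  have b := cen_exp hY hX e (y := K * η) (η := fun _ => a) fun B => by simpa using h' B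
  have b' := cen_exp (μ := μ) (BM.const 1) hX e (y := K) (η := fun _ => a) fun B => by
    simpa using h B
  simp only [one_mul, prod_const, card_univ] at b b'
  refine (abs_sub _ _).trans ?_
  rw [abs_mul]
  have := mul_le_mul e' b' (abs_nonneg _) ((abs_nonneg _).trans e')
  nlinarith [mul_nonneg (sub_nonneg.2 K1) ((abs_nonneg _).trans b)]

end

theorem rp_map {ι : Type} (ε : Fin 4 → Bool) (x : ι) :
    YM5.rp (fun k (o : Option (ι × (Fin 4 → Bool))) => o.map fun a => (a.1, update a.2 k !a.2 k)) ε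
      (some (x, 0)) = some (x, ε) := by
  have : ∀ l : List (Fin 4), l.Nodup → l.foldr (fun k (a : Option (ι × (Fin 4 → Bool))) =>
      if ε k then a.map fun a => (a.1, update a.2 k !a.2 k) else a) (some (x, 0)) =
        some (x, fun k => if k ∈ l then ε k else false) := fun l hl => by
    induction l with
    | nil => rfl
    | cons k l ih =>
      obtain ⟨h1, h2⟩ := List.nodup_cons.1 hl
      rw [List.foldr_cons, ih h2]
      split_ifs with e <;> refine congrArg (fun z => some (x, z)) (funext fun i => ?_) <;>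
        rcases eq_or_ne i k with rfl | a <;> simp [*]
  simpa [YM5.rp] using this _ (List.nodup_finRange 4)

variable [MeasurableSpace SU2] [BorelSpace SU2] {h : Measure SU2} [h.IsHaarMeasure]
  [IsProbabilityMeasure h] {n m lam q E : ℕ} [NeZero n] [NeZero m] {b C : ℝ} {ι : Type} [Fintype ι]
  {O : ι → (Fin 4 → Bool) → Cfg n → ℝ} {w : ι → (Fin 4 → Bool) → ℝ} {c : ι → Fin 4 → ℤ}
  {η : ι → ℝ}

/-- the species `x` sits in the cell `c x` -/
theorem gbox_mix (hb : 0 ≤ b) (hm : Odd m) (hl : Odd lam) (hn : n = m * lam)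
    (hO : ∀ x ε, BM (O x ε)) (hr : ∀ x ε k U, O x (update ε k !ε k) U = O x ε (rcl lam k U))
    (hd : ∀ x ε U V, (∀ l, (∀ k, half lam k l) → U l = V l) → O x ε U = O x ε V)
    (w0 : ∀ x ε, 0 < w x ε) (hC : 0 ≤ C)
    (hM : ∀ (B : Finset (Site 4 m)) (σ : B → ι × (Fin 4 → Bool)),
      |∫ U, ∏ y, O (σ y).1 (σ y).2 (shift (corner lam y.1) U) ∂wilson h b n| ≤
        exp (C * m ^ 4) * ∏ y, w (σ y).1 (σ y).2)
    (hq : q ∣ m) (h5 : 5 * q ≤ m) (hc : Injective c) (hE : ∀ x l, |c x l| ≤ E)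
    (hE' : 4 * E + 1 < q) (η0 : ∀ x, 0 ≤ η x) (hη : ∀ x, ∏ ε, w x ε ≤ η x ^ 16) (B : Finset ι) :
    |∫ U, ∏ x ∈ B, O x 0 (tl lam (c x) U) ∂wilson h b n| ≤ exp (16 * C * q ^ 4) * ∏ x ∈ B, η x := by
  classical
  obtain ⟨cb, hcb⟩ : ∃ cb : B → Site 4 m, ∀ i, cb i = fun l => (c i l : ZMod m) :=
    ⟨_, fun _ => rfl⟩
  have v : ∀ i l, ((cb i l - (-E : ℤ)).val : ℤ) = c i l + E := fun i l => by
    have := abs_le.1 (hE i l)
    rw [hcb, ← Int.cast_sub, ZMod.val_intCast, Int.emod_eq_of_lt (by omega) (by omega)]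
    omega
  have ci : Injective cb := fun i j e => Subtype.ext (hc (funext fun l => by
    have e1 := v i l
    rw [e, v] at e1
    omega))
  let β := Option (ι × (Fin 4 → Bool))
  obtain ⟨σ, hσ⟩ : ∃ σ : Site 4 m → β,
      σ = extend cb (fun i => some (i.1, 0)) fun _ => none := ⟨_, rfl⟩
  have pr : ∀ f : Site 4 m → β → ℝ, (∀ x, f x none = 1) → ∏ x, f x (σ x) =
      ∏ i, f (cb i) (some (i.1, 0)) := fun f hf => by
    rw [← prod_subset (subset_univ (univ.image cb)) fun x _ hx => by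
      rw [hσ, extend_apply' _ _ _ (by simpa using hx), hf], prod_image ci.injOn]
    exact prod_congr rfl fun i _ => by rw [hσ, ci.extend_apply]
  have key := YM5.wilson_gbox h hb hm hl hn (β := β) none
    (fun k o => o.map fun a => (a.1, update a.2 k !a.2 k)) (fun _ => rfl)
    (fun k o => by cases o <;> simp) (fun k l o => by
      rcases eq_or_ne k l with rfl | e
      · rfl
      · cases o <;> simp [update_of_ne e, update_of_ne e.symm, update_comm e])
    (fun o U => o.elim 1 fun a => O a.1 a.2 U) (fun o => by cases o; exacts [BM.const 1, hO _ _])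
    (fun _ => rfl) (fun o k U => by cases o; exacts [rfl, hr _ _ _ _])
    (fun o U V e => by cases o; exacts [rfl, hd _ _ _ _ e])
    (fun o => o.elim 1 fun a => w a.1 a.2) (fun o => by cases o; exacts [one_pos, w0 _ _]) rfl hC
    (fun τ => ?_) hq h5 (fun _ => (-E : ℤ)) σ fun x l hx => hσ ▸ extend_apply' _ _ _ (by
      rintro ⟨i, rfl⟩
      have := v i l
      have := abs_le.1 (hE i l)
      simp only [Pi.sub_apply] at hx
      omega)
  · rw [pr (fun _ o => ∏ ε, (YM5.rp _ ε o).elim 1 fun a => w a.1 a.2) fun _ =>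
      prod_eq_one fun ε _ => by
        rw [YM5.rp, List.foldr_fixed' fun _ => by split_ifs <;> rfl]; rfl] at key
    replace key := key.trans_eq (congrArg _ (prod_congr rfl fun i _ => prod_congr rfl fun ε _ =>
      congrArg (Option.elim · 1 fun a => w a.1 a.2) (rp_map ε i.1)))
    refine le_of_pow_le_pow_left₀ (n := 16) (by norm_num)
      (mul_nonneg (exp_pos _).le (prod_nonneg fun x _ => η0 x)) (le_trans (le_of_eq ?_)
        (key.trans ?_))
    · congr 3
      funext U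
      rw [pr (fun x o => o.elim 1 fun a => O a.1 a.2 (shift (corner lam x) U)) fun _ => rfl,
        ← prod_coe_sort B]
      refine prod_congr rfl fun i _ => ?_
      rw [Option.elim, tl]
      congr 2
      exact funext fun l => (corner_int hn _ (c i l) (by rw [hcb])).symm
    · rw [mul_pow, ← exp_nat_mul, ← prod_pow, ← prod_coe_sort B]
      exact mul_le_mul (le_of_eq (by congr 1; push_cast; ring))
        (prod_le_prod (fun _ _ => prod_nonneg fun _ _ => (w0 _ _).le) fun _ _ => hη _)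
        (prod_nonneg fun _ _ => prod_nonneg fun _ _ => (w0 _ _).le) (exp_pos _).le
  · have p : ∀ f : Site 4 m → β → ℝ, (∀ x, f x none = 1) → ∏ x, f x (τ x) =
        ∏ y : univ.filter fun x => (τ x).isSome, f y (some ((τ y).get (mem_filter.1 y.2).2)) :=
      fun f hf => by
        simp only [Option.some_get]
        rw [prod_coe_sort _ fun x => f x (τ x), prod_filter]
        exact prod_congr rfl fun x _ => by cases τ x <;> simp [hf]
    rw [p (fun _ o => o.elim 1 fun a => w a.1 a.2) fun _ => rfl, funext fun U =>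
      p (fun x o => o.elim 1 fun a => O a.1 a.2 (shift (corner lam x) U)) fun _ => rfl]
    exact hM _ _

theorem gb_mix (hb : 0 ≤ b) (hm : Odd m) (hl : Odd lam) (hn : n = m * lam)
    (hO : ∀ x ε, BM (O x ε)) (hr : ∀ x ε k U, O x (update ε k !ε k) U =
      O x ε (refl k (shift (Pi.single k (lam : ZMod n)) U)))
    (hd : ∀ x ε U V, (∀ l, (∀ k, half lam k l) → U l = V l) → O x ε U = O x ε V)
    (w0 : ∀ x ε, 0 < w x ε) (hC : 0 ≤ C)
    (hM : ∀ (B : Finset (Site 4 m)) (s : Site 4 m → ι × (Fin 4 → Bool)),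
      |∫ U, ∏ y ∈ B, O (s y).1 (s y).2 (shift (corner lam y) U) ∂wilson h b n| ≤
        exp (C * m ^ 4) * ∏ y ∈ B, w (s y).1 (s y).2)
    (hq : q ∣ m) (h5 : 5 * q ≤ m) (hc : Injective c) (hE : ∀ x l, |c x l| ≤ E)
    (hE' : 4 * E + 2 ≤ q) (η0 : ∀ x, 0 ≤ η x) (hη : ∀ x, ∏ ε, w x ε ≤ η x ^ 16) (B : Finset ι) :
    |∫ U, ∏ x ∈ B, O x 0 (tl lam (c x) U) ∂wilson h b n| ≤ exp (16 * C * q ^ 4) * ∏ x ∈ B, η x := by
  classical
  rcases B.eq_empty_or_nonempty with rfl | ⟨x, -⟩
  · simpa using one_le_exp (by positivity : 0 ≤ 16 * C * q ^ 4)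
  refine gbox_mix hb hm hl hn hO hr hd w0 hC (fun A σ => ?_) hq h5 hc hE hE' η0 hη B
  simpa only [← prod_coe_sort A, coe_mem, dif_pos] using
    hM A fun y => if e : y ∈ A then σ ⟨y, e⟩ else (x, 0)

end Pool.Agent.Lib.MP_7f377f_mp.Ob
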