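import Pool.Agent.Lib.MP_7f377f_mp.G.CaH2a
import Pool.Agent.Lib.MP_7f377f_mp.G.CaH2h
import Pool.Agent.Lib.MP_7f377f_mp.G.CaH4
import Pool.Agent.Lib.MP_7f377f_mp.G.CaH4b

/-! Lattice fields in the cells of the torus. -/

noncomputable section

open Pool.Agent.Lib.MP_7f377f_mp.Jet

set_option linter.unusedSectionVars false
variable [Pool.Agent.Lib.MP_7f377f_mp.GD]

namespace Pool.Agent.Lib.MP_7f377f_mp.RG.Q4.En

open Finset Function Sg Real Pos Mg MeasureTheory Filter YM7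
open scoped Classical

variable {ι Ω κ α : Type} [DecidableEq Ω] [Fintype κ] [DecidableEq κ] [Inhabited κ] [Fintype α]

theorem Tj.Ce.tr {n lam : ℕ} {M : ℝ} {c : St} {T : Tj} (u : St) (h : T.Ce n lam M (c + u)) :
    (T.tr ((lam : ℤ) • u)).Ce n lam M c := fun o _ e => (inC_tr u).1 (h o _ e)

theorem Tj.Cl.tr' {n e lam : ℕ} {P : Tj → Prop} {T : Tj} (hP : Tj.Cl n e P) (hT : P T)
    (hl : e ∣ lam) (u : St) : P (T.tr ((lam : ℤ) • u)) := by
  obtain ⟨y, rfl⟩ := hl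
  rw [Nat.cast_mul, mul_smul]
  exact hP.tr _ hT _

/-- mirror images in the cell at the origin -/
def Tj.mi (lam : ℕ) (ε : Fin 4 → Bool) (T : Tj) : Tj := fun o x =>
  (o.elim 1 fun μ => if ε μ then -1 else 1) * T o fun l => if ε l then lam - x l else x l

theorem Tj.mi_zero (lam : ℕ) (T : Tj) : T.mi lam 0 = T := funext₂ fun o x => by
  cases o <;> exact one_mul _

theorem Tj.mi_up (lam : ℕ) (ε : Fin 4 → Bool) (μ : Fin 4) (T : Tj) :
    T.mi lam (update ε μ !ε μ) = ((T.mi lam ε).rf μ).tr ((lam : ℤ) • -un μ) := funext₂ fun o x => by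
  simp only [Tj.mi, Tj.rf, Tj.tr, ← mul_assoc]
  congr 2
  · rcases o with _ | ν
    · simp
    · rcases eq_or_ne ν μ with rfl | e
      · cases z : ε ν <;> simp [z]
      · simp [e]
  · funext l
    rcases eq_or_ne l μ with rfl | e
    · cases ε l <;> simp [un, sub_eq_add_neg]
    · simp [e, un]

theorem Tj.mi_ind {Φ : Tj → Prop} {T : Tj} {lam : ℕ} (h : Φ T)
    (h' : ∀ T μ, Φ T → Φ ((T.rf μ).tr ((lam : ℤ) • -un μ))) (ε : Fin 4 → Bool) : Φ (T.mi lam ε) := by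
  have : ∀ s : Finset (Fin 4), Φ (T.mi lam (s.piecewise ε 0)) := fun s => by
    refine s.induction_on (by rwa [piecewise_empty, Tj.mi_zero]) fun μ s _ ih => ?_
    rw [piecewise_insert]
    by_cases e : ε μ = s.piecewise ε 0 μ
    · rwa [e, update_eq_self]
    · rw [Bool.eq_not.2 e, Tj.mi_up]
      exact h' _ _ ih
  simpa using this univ

namespace Gl

/-- the centred observable on the finite lattice -/
def vR (G : Gl) (b : ℝ) (J k j : ℕ) (D : Vf Ω κ α) (T : Tj) (U : Cfg (G.N J)) : ℝ :=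
  (G.vZ b J k j D T (Fi.lf U)).re

variable {G : Gl} {b : ℝ} {J k j c d m lam : ℕ} {C A M : ℝ} {σ : ℕ → ℝ} [NeZero (G.N J)]

section

variable {D : Vf Ω κ α} {w : ℝ} {P : Tj → Prop} {T : Tj} (V : G.Vk b J k j c d C A σ P D w)
  (h : G.Ok) (hj : j ≤ k) (hP : Tj.Cl (G.N J) (G.rt J k) P) (hT : P T)
include V h hj hP hT

theorem Vk.vR_eq (U : Cfg (G.N J)) : G.vZ b J k j D T (Fi.lf U) = G.vR b J k j D T U :=
  Complex.ext rfl (V.vZ_real h hj hP hT _)

theorem Vk.vR_bm : Weak.BM (G.vR b J k j D T) :=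
  let ⟨a1, _, a2⟩ := V.vO_bc h hj hP hT
  ⟨Complex.measurable_re.comp ((a1.comp Fi.meas_lf).sub measurable_const), _, fun _ =>
    (Complex.abs_re_le_norm _).trans (norm_sub_le_of_le (a2 _) le_rfl)⟩

theorem Vk.vR_tr (hl : G.rt J j ∣ lam) (v : St) (U : Cfg (G.N J)) :
    G.vR b J k j D (T.tr ((lam : ℤ) • v)) (Ob.tl lam v U) = G.vR b J k j D T U := by
  obtain ⟨y, rfl⟩ := hl
  rw [vR, vR, ← V.vZ_tr h hj hP hT (per_lf U) ((y : ℤ) • v), ← lf_shift, ← mul_smul, ← Nat.cast_mul]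
  rfl

end

/-- all fillings of the torus -/
theorem Ok.fil [NeZero m] (h : G.Ok) (hj : j ≤ k) (hn : G.N J = m * lam) (hM : G.Mar J j M)
    (t : G.Tu b J) (hp : G.Pu) (hl : G.rt J j ∣ lam) {D : ι → Vf Ω κ α} {w : ι → ℝ}
    {P : ι → Tj → Prop} {T : ι → Tj} (V : ∀ a, G.Vk b J k j c d C A σ (P a) (D a) (w a))
    (hP : ∀ a, Tj.Cl (G.N J) (G.rt J k) (P a)) (hT : ∀ a, P a (T a))
    (hc : ∀ a, (T a).Ce (G.N J) lam M 0) (B : Finset (Weak.Site 4 m)) (s : Weak.Site 4 m → ι) :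
    |∫ U, ∏ x ∈ B, G.vR b J k j (D (s x)) (T (s x)) (Weak.shift (Weak.corner lam x) U)
      ∂wilson (Fi.tr haar) b (G.N J)| ≤ exp (cJ / G.g j * G.N j ^ 4 + m ^ 4 *
        exp ((2 * (lam / G.rt J j + 4 * G.L j ^ G.K0) + 1) ^ 4 : ℕ)) * ∏ x ∈ B, 2 * w (s x) := by
  let u : Weak.Site 4 m → St := fun x l => (x l).val
  have hk := (V (s 0)).mx.lt.le
  have hT' := fun x => (hP (s x)).tr' (hT _) ((Dvd.intro_left _ (h.rt_mul hj hk)).trans hl) (-u x)
  have := h.arr (u := u) hj hn hM (fun x y e => funext fun i => by simpa [u] using e i)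
    (fun x => V (s x)) hT' (fun x => Tj.Ce.tr _ (by simpa using hc (s x))) t hp t.b0
    (fun x => hP (s x)) B
  have e : ∀ x U, G.vR b J k j (D (s x)) (T (s x)) (Weak.shift (Weak.corner lam x) U) =
      G.vR b J k j (D (s x)) ((T (s x)).tr ((lam : ℤ) • -u x)) U := fun x U => by
    rw [← (V _).vR_tr h hj (hP _) (hT' x) hl (u x), Tj.tr_tr, smul_neg, add_neg_cancel, Tj.tr_zero]
    congr 2
    exact funext fun l => by simp [Weak.corner, u]
  simp only [e]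
  refine (congrArg _ (Br.ex_eq (h.N_odd J) b (Finset.measurable_prod _ fun x _ =>
    ((V _).vR_bm h hj (hP _) (hT' x)).1))).trans_le (le_of_eq_of_le ?_ (this.trans_eq (by simp)))
  simp only [← Fi.lf_rs, (V _).vR_eq h hj (hP _) (hT' _), ← Complex.ofReal_prod,
    ← Complex.ofReal_mul, integral_complex_ofReal, ← Complex.ofReal_div, Complex.norm_real,
    norm_eq_abs, mul_comm]

/-- different fields in different cells -/
theorem Ok.mix [Fintype ι] [NeZero m] {q y E : ℕ} (h : G.Ok) (hj : j ≤ k)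
    (hn : G.N J = m * lam) (hM : G.Mar J j M) (t : G.Tu b J) (hp : G.Pu) (hl : lam = G.rt J j * y)
    (hk : k ≤ J) {D : ι → (Fin 4 → Bool) → Vf Ω κ α} {w : ι → (Fin 4 → Bool) → ℝ}
    {P : ι → Tj → Prop} {T : ι → Tj} {u : ι → St} {η : ι → ℝ}
    (V : ∀ a ε, G.Vk b J k j c d C A σ (P a) (D a ε) (w a ε)) (R : ∀ a, G.Vr J k (D a))
    (hP : ∀ a, Tj.Cl (G.N J) (G.rt J k) (P a)) (hT : ∀ a, P a (T a))
    (hc : ∀ a, (T a).Ce (G.N J) lam M (u a)) (hq : q ∣ m) (h5 : 5 * q ≤ m) (hu : Injective u)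
    (hE : ∀ a l, |u a l| ≤ E) (hE' : 4 * E + 2 ≤ q) (η0 : ∀ a, 0 ≤ η a)
    (hη : ∀ a, ∏ ε, w a ε ≤ η a ^ 16) (B : Finset ι) :
    |∫ U, ∏ a ∈ B, G.vR b J k j (D a 0) (T a) U ∂wilson (Fi.tr haar) b (G.N J)| ≤
      exp (16 * (cJ / G.g j * y ^ 4 + exp ((2 * (y + 4 * G.L j ^ G.K0) + 1) ^ 4 : ℕ)) * q ^ 4) *
        ∏ a ∈ B, 2 * η a := by
  have o := Nat.odd_mul.1 (hn ▸ h.N_odd J)
  have r0 : 0 < G.rt J j := Nat.cast_pos.1 (rt_pos J j)
  have l1 : G.rt J j ∣ lam := Dvd.intro _ hl.symm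
  have l2 := (Dvd.intro_left _ (h.rt_mul hj hk)).trans l1
  have nj : G.N j = m * y := Nat.eq_of_mul_eq_mul_left r0 (by
    rw [h.rt_N (hj.trans hk), hn, hl, mul_left_comm])
  have p := fun a => Tj.mi_ind ((hP a).tr' (hT a) l2 (u a))
    fun T μ e => (hP a).tr' ((hP a).rf T e μ) l2 _
  have s := fun a => Tj.mi_ind (Φ := Tj.Ce (G.N J) lam M 0)
    (Tj.Ce.tr (u a) (by simpa using hc a)) (lam := lam) fun T μ e => Tj.Ce.tr _ fun o x z => by
      have := (e o _ (right_ne_zero_of_mul z)).rf μ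
      rw [update_idem, update_self, neg_neg, update_eq_self] at this
      refine (congrArg (InC _ _ _ · _) (funext fun l => ?_)).mp this
      rcases eq_or_ne l μ with rfl | e <;> simp [un, *]
  have g0 := div_nonneg cJ_nn (h.g0 j).le
  have := Ob.gb_mix (h := Fi.tr haar) (w := fun a ε => 2 * w a ε) (η := fun a => 2 * η a)
    (O := fun a ε => G.vR b J k j (D a ε) (((T a).tr ((lam : ℤ) • u a)).mi lam ε))
    (C := cJ / G.g j * y ^ 4 + exp ((2 * (y + 4 * G.L j ^ G.K0) + 1) ^ 4 : ℕ)) t.b0 o.1 o.2 hn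
    (fun a ε => (V a ε).vR_bm h hj (hP a) (p a ε)) (fun a ε μ U => ?_) (fun a ε U U' e => ?_)
    (fun a ε => mul_pos two_pos (V a ε).w0) (by positivity) (fun B z => ?_) hq h5 hu hE hE'
    (fun a => mul_nonneg two_pos.le (η0 a)) (fun a => ?_) B
  · simpa only [Tj.mi_zero, fun a => (V a 0).vR_tr h hj (hP a) (hT a) l1] using this
  · have a1 := (hP a).rf _ (p a ε) μ
    have a2 : ∀ U, Ob.tl lam (un μ) U = Weak.shift (Pi.single μ (lam : ZMod (G.N J))) U :=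
      fun U => congrArg (Weak.shift · U) (funext fun l => by
        rcases eq_or_ne l μ with rfl | e <;> simp [un, *])
    rw [Tj.mi_up, ← (V a _).vR_tr h hj (hP a) ((hP a).tr' a1 l2 _) l1 (un μ), Tj.tr_tr, smul_neg,
      add_neg_cancel, Tj.tr_zero, vR, (R a).vZ_rf (V a) h hj (hP a) (p a ε) (per_lf _), vR,
      lf_refl, a2]
  · have a1 := h.mar_le hM hj hk
    have a2 : (1 : ℝ) ≤ G.rt J k := Nat.one_le_cast.2 (Nat.one_le_pow _ _ three_pos)
    have a3 := h.cQ k (C := 2) (by norm_num)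
    rw [vR, vR, vZ, vZ, (V a ε).hd h (s a ε) (p a ε) (hn ▸ lt_mul_left o.2.pos (by omega))
      (by nlinarith [mul_le_mul a3 a2 zero_le_one (h.Q0 k).le]) e]
  · refine (h.fil hj hn hM t hp l1 (ι := ι × (Fin 4 → Bool)) (fun a => V a.1 a.2)
      (fun a => hP a.1) (fun a => p a.1 a.2) (fun a => s a.1 a.2) B z).trans_eq ?_
    rw [hl, Nat.mul_div_cancel_left _ r0, nj, Nat.cast_mul, mul_pow]
    congr 2
    ring
  · rw [prod_mul_distrib, mul_pow, prod_const]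
    exact mul_le_mul_of_nonneg_left (hη a) (by positivity)

end Gl

end Pool.Agent.Lib.MP_7f377f_mp.RG.Q4.En
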