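import Pool.Agent.Lib.MP_7f377f_mp.G.CaH2g

/-! Centred lattice fields in cells: definitions. -/

noncomputable section

open Pool.Agent.Lib.MP_7f377f_mp.Jet

set_option linter.unusedSectionVars false
variable [Pool.Agent.Lib.MP_7f377f_mp.GD]

namespace Pool.Agent.Lib.MP_7f377f_mp.RG.Q4.En

open Finset Function Sg Real Pos Mg MeasureTheory Filter YM7
open scoped Classical

/-- translation -/
def Tj.tr (v : St) (T : Tj) : Tj := fun o x => T o (x + v)

/-- the support lies in the cell `c` with the margin `M` -/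
def Tj.Ce (n lam : ℕ) (M : ℝ) (c : St) (T : Tj) : Prop := ∀ o x, T o x ≠ 0 → InC n lam M c x

variable {γ Ω κ α : Type} [Fintype γ] [DecidableEq γ] [DecidableEq Ω] [Fintype κ] [DecidableEq κ]
  [Inhabited κ] [Fintype α]

/-- the action density as a field -/
def Vf.src (D : Vf Ω κ α) : Vf Ω κ α := ⟨0, 1, { D.S with Om := ∅ }, D.z, 0, D.s, 0⟩

namespace Gl

variable (G : Gl) (b : ℝ) (J k j : ℕ)

/-- the centred observable -/
def vZ (D : Vf Ω κ α) (T : Tj) (U : Conf) : ℂ :=
  G.vO J k D T U - G.ct b J k j (D.Y (G.N J) T) (G.vC J k D T)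

/-- the margin is large at all the levels above `j` -/
def Mar (M : ℝ) : Prop := ∀ l, j ≤ l → l ≤ J → G.Q l ^ 1000 * G.rt J l ≤ M

end Gl

end Pool.Agent.Lib.MP_7f377f_mp.RG.Q4.En
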