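import Pool.Agent.Lib.MP_7f377f_mp.G.CaH

/-! Cells with a margin. -/

noncomputable section

open Pool.Agent.Lib.MP_7f377f_mp.Jet

set_option linter.unusedSectionVars false
variable [Pool.Agent.Lib.MP_7f377f_mp.GD]

namespace Pool.Agent.Lib.MP_7f377f_mp.RG.Q4.En

open Finset Function Sg Real Pos Mg Filter
open scoped Classical

/-- `x` lies in the cell `c` of side `lam` at distance `M` from the walls -/
def InC (n lam : ℕ) (M : ℝ) (c x : St) : Prop := ∃ v : St, ∀ l,
  M ≤ (x l - lam * c l - n * v l : ℤ) ∧ ((x l - lam * c l - n * v l : ℤ) : ℝ) ≤ lam - M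

/-- the cell with a margin -/
def cw (n lam : ℕ) (M : ℝ) (c : St) : Finset St := (box (n / 2)).filter (InC n lam M c)

section cells

variable {n m lam R : ℕ} {M M' a w δ : ℝ} {c c' x y : St}

theorem InC.mono (h : InC n lam M c x) (e : M' ≤ M) : InC n lam M' c x :=
  h.imp fun _ h l => ⟨e.trans (h l).1, (h l).2.trans (sub_le_sub_left e _)⟩

theorem InC.near (h : InC n lam M c x) (e : nearT n R x y) : InC n lam (M - R) c y := by
  obtain ⟨v, hv⟩ := h
  obtain ⟨u, hu⟩ := nearT_iff.1 e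
  refine ⟨v + u, fun l => ?_⟩
  have h1 : (-(R : ℝ)) ≤ (y l - x l - n * u l : ℤ) := by exact_mod_cast (hu l).1
  have h2 : ((y l - x l - n * u l : ℤ) : ℝ) ≤ R := by exact_mod_cast (hu l).2
  have h3 := hv l
  simp only [Pi.add_apply]
  push_cast at h1 h2 h3 ⊢
  constructor <;> linarith [h3.1, h3.2]

theorem inC_rc : InC n lam M c (rc n x) ↔ InC n lam M c x :=
  ⟨fun h => by simpa using h.near (nearT_rc n x).symm, fun h => by simpa using h.near (nearT_rc n x)⟩

theorem mem_cw (hn : Odd n) : rc n x ∈ cw n lam M c ↔ InC n lam M c x := by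
  simp [cw, rc_mem hn, inC_rc]

theorem InC.of_mem (h : x ∈ cw n lam M c) : InC n lam M c x := (mem_filter.1 h).2

theorem cw_box : cw n lam M c ⊆ box (n / 2) := filter_subset _ _

theorem cw_mono (e : M' ≤ M) : cw n lam M c ⊆ cw n lam M' c :=
  monotone_filter_right _ fun _ _ h => h.mono e

theorem inC_tr (u : St) : InC n lam M (c + u) (x + (lam : ℤ) • u) ↔ InC n lam M c x := by
  refine exists_congr fun v => forall_congr' fun l => ?_
  rw [show (x + (lam : ℤ) • u) l - lam * (c + u) l = x l - lam * c l by simp; ring]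

theorem InC.rf (h : InC n lam M c x) (μ : Fin 4) :
    InC n lam M (update c μ (-c μ - 1)) (update x μ (-x μ)) := by
  obtain ⟨v, hv⟩ := h
  refine ⟨update v μ (-v μ), fun l => ?_⟩
  rcases eq_or_ne l μ with rfl | e
  · have := hv l
    simp only [update_self]
    push_cast at this ⊢
    constructor <;> linarith [this.1, this.2]
  · simpa only [update_of_ne e] using hv l

/-- only the class of the label matters -/
theorem InC.cg (hn : n = m * lam) (h : InC n lam M c x) (e : ∀ l, (c l : ZMod m) = c' l) :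
    InC n lam M c' x := by
  obtain ⟨v, hv⟩ := h
  choose q hq using fun l => (ZMod.intCast_eq_intCast_iff_dvd_sub _ _ _).1 (e l)
  refine ⟨v - q, fun l => ?_⟩
  rw [show x l - lam * c' l - n * (v - q) l = x l - lam * c l - n * v l by
    rw [hn, Pi.sub_apply]; push_cast; linear_combination (-lam : ℤ) * hq l]
  exact hv l

theorem InC.sep (hn : n = m * lam) (h : InC n lam M c x) (h' : InC n lam M' c' y)
    (e : ¬ ∀ l, (c l : ZMod m) = c' l) (d : nearT n R x y) : M + M' ≤ R := by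
  obtain ⟨v, hv⟩ := h.near d
  obtain ⟨u, hu⟩ := h'
  obtain ⟨l, hl⟩ := not_forall.1 e
  have q0 : c' l - c l + m * (u l - v l) ≠ 0 := fun z => hl
    ((ZMod.intCast_eq_intCast_iff_dvd_sub _ _ _).2 ⟨v l - u l, by linear_combination z⟩)
  have l0 : (0 : ℝ) ≤ lam := lam.cast_nonneg
  have h1 := hv l
  have h2 := hu l
  rw [hn] at h1 h2
  push_cast at h1 h2
  rcases q0.lt_or_gt with q | q
  · have : (c' l - c l + m * (u l - v l) : ℝ) ≤ -1 := by exact_mod_cast Int.le_sub_one_of_lt q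
    nlinarith [h1.1, h2.2, mul_le_mul_of_nonneg_left this l0]
  · have : (1 : ℝ) ≤ c' l - c l + m * (u l - v l) := by exact_mod_cast q
    nlinarith [h1.2, h2.1, mul_le_mul_of_nonneg_left this l0]

theorem cw_sep (hn : n = m * lam) (e : ¬ ∀ l, (c l : ZMod m) = c' l) :
    Sep n (2 * M) (cw n lam M c) (cw n lam M c') := fun _ hx _ hy _ d =>
  (two_mul M).trans_le ((InC.of_mem hx).sep hn (.of_mem hy) e d)

theorem InC.ball (h : InC n lam M c x) (M0 : 0 ≤ M) : nearT n lam ((lam : ℤ) • c) x := by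
  obtain ⟨v, hv⟩ := h
  refine nearT_iff.2 ⟨v, fun l => ?_⟩
  have h1 : (0 : ℤ) ≤ x l - lam * c l - n * v l := by exact_mod_cast M0.trans (hv l).1
  have h2 : x l - lam * c l - n * v l ≤ lam := by
    exact_mod_cast (hv l).2.trans (sub_le_self _ M0)
  simp only [Pi.smul_apply, smul_eq_mul]
  omega

theorem cw_ball (hn : Odd n) (M0 : 0 ≤ M) : cw n lam M c ⊆ tb n lam {(lam : ℤ) • c} := fun _ h =>
  mem_tb_single.2 ⟨rc_eq hn (cw_box h), (InC.of_mem h).ball M0⟩

theorem tb_cw (hn : Odd n) : tb n R (cw n lam M c) ⊆ cw n lam (M - R) c := fun _ h =>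
  let ⟨h1, _, h2, h3⟩ := mem_tb.1 h
  h1 ▸ (mem_cw hn).2 ((InC.of_mem h2).near h3)

theorem InC.tb (hn : Odd n) (h : InC n lam M c x) : tb n R {x} ⊆ cw n lam (M - R) c := fun _ e =>
  (mem_tb_single.1 e).1 ▸ (mem_cw hn).2 (h.near (mem_tb_single.1 e).2)

/-- real coordinates -/
theorem inC_of (a0 : 0 < a) (hw : a * lam = w)
    (h : ∀ l, c l * w + δ ≤ a * rc n x l ∧ a * rc n x l ≤ (c l + 1) * w - δ) :
    InC n lam (δ / a) c x := inC_rc.1 ⟨0, fun l => by
  have := h l
  rw [le_sub_comm, div_le_iff₀ a0, div_le_iff₀ a0, Pi.zero_apply]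
  push_cast
  rw [← hw] at this
  constructor <;> linarith [this.1, this.2]⟩

theorem Tj.In.inC {T : Tj} (h : T.In n a w δ c) (a0 : 0 < a) (hw : a * lam = w) {o : Option (Fin 4)}
    (e : T o x ≠ 0) : InC n lam (δ / a) c x := inC_of a0 hw (h o x e)

/-- coordinates on the finite torus -/
theorem InC.val [NeZero n] {c : Weak.Site 4 m} (h : InC n lam M (fun l => (c l).val) x)
    (M0 : 0 ≤ M) (hl : lam < n) (l : Fin 4) :
    M ≤ ((Fi.cst n x - Weak.corner lam c : Weak.Site 4 n) l).val ∧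
      (((Fi.cst n x - Weak.corner lam c : Weak.Site 4 n) l).val : ℝ) ≤ lam - M := by
  obtain ⟨v, hv⟩ := h
  have h1 : (0 : ℤ) ≤ x l - lam * (c l).val - n * v l := by exact_mod_cast M0.trans (hv l).1
  have h2 : x l - lam * (c l).val - n * v l ≤ lam := by
    exact_mod_cast (hv l).2.trans (sub_le_self _ M0)
  have e : (Fi.cst n x - Weak.corner lam c : Weak.Site 4 n) l =
      ((x l - lam * (c l).val - n * v l : ℤ) : ZMod n) := by simp [Fi.cst, Weak.corner]
  have e2 : (((Fi.cst n x - Weak.corner lam c : Weak.Site 4 n) l).val : ℤ) =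
      x l - lam * (c l).val - n * v l := by
    rw [e, ZMod.val_intCast, Int.emod_eq_of_lt h1 (by omega)]
  have := hv l
  rw [← e2, Int.cast_natCast] at this
  exact this

theorem inC_val [NeZero n] {c : Weak.Site 4 m}
    (h : ∀ l, M ≤ ((Fi.cst n x - Weak.corner lam c : Weak.Site 4 n) l).val ∧
      (((Fi.cst n x - Weak.corner lam c : Weak.Site 4 n) l).val : ℝ) ≤ lam - M) :
    InC n lam M (fun l => (c l).val) x := by
  choose q hq using fun l => (ZMod.intCast_eq_intCast_iff_dvd_sub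
    ((Fi.cst n x - Weak.corner lam c : Weak.Site 4 n) l).val (x l - (lam * (c l).val : ℕ)) n).1
      (by simp [Fi.cst, Weak.corner])
  refine ⟨q, fun l => ?_⟩
  rw [show x l - lam * ((c l).val : ℤ) - n * q l =
    ((Fi.cst n x - Weak.corner lam c : Weak.Site 4 n) l).val by
      have := hq l; push_cast at this; linarith, Int.cast_natCast]
  exact h l

end cells

namespace Gl.Ok

variable {G : Gl} (h : G.Ok) {J k j l m lam R : ℕ} {M M' δ : ℝ} {c y : St} {X : Finset St}
include h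

theorem near_rt (hk : k ≤ J) {x : St} (e : nearT (G.N k) R x y) :
    nearT (G.N J) (G.rt J k * R) ((G.rt J k : ℤ) • x) ((G.rt J k : ℤ) • y) :=
  h.rt_N hk ▸ near_smul _ e

/-- the supports seen from the top -/
theorem zs_up : ∀ k ≤ J, ∀ y ∈ G.zs X J k,
    ∃ x ∈ X, nearT (G.N J) (G.rt J k * (3 * G.L k ^ G.K0)) x ((G.rt J k : ℤ) • y) :=
  dw_ind (fun y hy => ⟨y, by simpa only [zs_top] using hy, by
    simpa only [rt_top, Nat.cast_one, one_smul] using nearT.refl _ _ _⟩) fun k hk ih y hy => by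
    rw [zs_step hk (G.top0 0 0)] at hy
    obtain ⟨-, u, hu, a⟩ := mem_nxt.1 hy
    obtain ⟨x, hx, b⟩ := ih u hu
    have a' : nearT (G.N (k + 1)) _ u _ := h.N_succ k ▸ Sg.near_up a
    have := b.trans (h.near_rt hk a')
    rw [up, smul_smul, ← Nat.cast_mul, mul_comm _ (LL _), ← mul_add] at this
    rw [h.rt_step hk]
    refine ⟨x, hx, this.mono ?_⟩
    rw [mul_comm (G.L k), mul_assoc]
    refine Nat.mul_le_mul_left _ ?_
    have d := h.D_step k
    have e : G.L k ≤ G.L k * G.L k ^ G.K0 :=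
      Nat.le_mul_of_pos_right _ (pow_pos (by linarith [h.L_big k]) _)
    have e' : G.l k ≤ G.L k := by unfold L LL; omega
    change _ + (G.L k * G.L k ^ G.K0 + G.l k) ≤ _
    rw [mul_left_comm]
    omega

theorem zs_cw (hk : k ≤ J) (e : y ∈ G.zs (cw (G.N J) lam M c) J k) :
    InC (G.N J) lam (M - G.rt J k * (3 * G.L k ^ G.K0)) c ((G.rt J k : ℤ) • y) := by
  obtain ⟨x, hx, a⟩ := h.zs_up k hk y e
  simpa using (InC.of_mem hx).near a

/-- the support upstairs of a function of the block field lies in the cell -/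
theorem us_cw (hk : k ≤ J) (e : ∀ y ∈ X, InC (G.N J) lam M c ((G.rt J k : ℤ) • y)) :
    G.us (tb (G.N k) R X) J k ⊆ cw (G.N J) lam (M - G.rt J k * (R + 2)) c := fun x hx => by
  obtain ⟨h1, _, h2, h3⟩ := mem_tb.1 hx
  obtain ⟨y, hy, rfl⟩ := mem_image.1 h2
  obtain ⟨-, z, h4, h5⟩ := mem_tb.1 hy
  refine h1 ▸ (mem_cw (h.N_odd J)).2 (((e z h4).near ((h.near_rt hk h5).trans h3)).mono ?_)
  push_cast
  linarith

theorem us_zs (hk : k ≤ J) : G.us (tb (G.N k) R (G.zs (cw (G.N J) lam M c) J k)) J k ⊆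
    cw (G.N J) lam (M - G.rt J k * (3 * G.L k ^ G.K0 + R + 2)) c :=
  (h.us_cw hk fun _ => h.zs_cw hk).trans (cw_mono (by linarith))

theorem tb_zs (hk : k ≤ J) (e : InC (G.N J) lam M' c ((G.rt J k : ℤ) • y))
    (hM : M + G.rt J k * R ≤ M') : tb (G.N k) R {y} ⊆ G.zs (cw (G.N J) lam M c) J k := fun z hz =>
  (mem_tb_single.1 hz).1 ▸ h.mem_zs k hk z ((mem_cw (h.N_odd J)).2
    ((e.near (h.near_rt hk (mem_tb_single.1 hz).2)).mono (by push_cast; linarith)))

theorem card_zs (hj : j ≤ J) (M0 : 0 ≤ M) : (G.zs (cw (G.N J) lam M c) J j).card ≤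
    (2 * (lam / G.rt J j + 4 * G.L j ^ G.K0) + 1) ^ 4 := h.zs_card (cw_ball (h.N_odd J) M0) hj

theorem D_le_Q (l : ℕ) : 1000 * (G.L l : ℝ) ^ G.K0 ≤ G.Q l := by
  have L := h.L1 l
  refine le_trans ?_ (pow_le_pow_right₀ (by linarith) (show G.K0 + 1 ≤ G.K by
    have := h.K0_le; omega))
  rw [pow_succ']
  gcongr

/-- different cells are far from each other at all levels -/
theorem cls_cw {γ : Type} [Fintype γ] {u : γ → St} {x : ℝ} (hn : G.N J = m * lam) (hl : l ≤ J)
    (hu : ∀ q q', (∀ i, (u q i : ZMod m) = u q' i) → q = q') (hM : G.Q l ^ 2 * G.rt J l ≤ M)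
    (hx : x ≤ G.Q l) : Cls (G.N l) (x * (G.p l).D) univ id
      fun q => G.zs (cw (G.N J) lam M (u q)) J l := fun q _ q' _ e => by
  refine (h.zs_sep (cw_sep hn fun a => e (hu q q' a)) l hl).mono ?_ Subset.rfl Subset.rfl
  have d := h.D_le_Q l
  have Q := h.Q1 l
  have y : 0 ≤ (G.L l : ℝ) ^ G.K0 := by positivity
  rw [← le_div_iff₀ (rt_pos J l)] at hM
  rw [mul_div_assoc, show (G.p l).D = 20 * G.L l ^ G.K0 from rfl]
  push_cast
  nlinarith [mul_le_mul_of_nonneg_right hx y]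

/-- a fixed margin is large at all high levels -/
theorem ev_mar (δ0 : 0 < δ) : ∀ᶠ j in atTop, ∀ l J, j ≤ l → l ≤ J →
    G.Q l ^ 1000 * G.rt J l ≤ δ * 3 ^ G.e J := by
  obtain ⟨j, hj⟩ := eventually_atTop.1 (h.Q_top.eventually_ge_atTop δ⁻¹)
  filter_upwards [eventually_ge_atTop j] with i hi l J h1 h2
  have a := hj l (hi.trans h1)
  have b := ((pow_le_pow_right₀ (h.Q1 l) (show 1001 ≤ 4000 by norm_num)).trans (h.Qb l)).trans
    (h.b_e l)
  have r := rt_pos (G := G) J l
  rw [← h.rt_e h2, mul_left_comm, mul_comm]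
  refine mul_le_mul_of_nonneg_left ?_ r.le
  rw [inv_le_iff_one_le_mul₀' δ0] at a
  calc _ ≤ δ * G.Q l * G.Q l ^ 1000 := le_mul_of_one_le_left (pow_pos (h.Q0 l) _).le a
    _ = δ * G.Q l ^ 1001 := by ring
    _ ≤ _ := by gcongr

end Gl.Ok

end Pool.Agent.Lib.MP_7f377f_mp.RG.Q4.En
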