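import Pool.Agent.Lib.MP_7f377f_mp.G.Q4Src
import Pool.Agent.Lib.MP_7f377f_mp.StW

/-! Letters as functions of gauge fields. -/

noncomputable section

set_option linter.unusedSectionVars false
variable [Pool.Agent.Lib.MP_7f377f_mp.GD]

namespace Pool.Agent.Lib.MP_7f377f_mp.RG.Wd

open Finset Q4 MeasureTheory

attribute [local irreducible] box lbox

/-- the two invariant pairings -/
def p2 (k : Bool) (A B : Hc) : ℂ := if k then dot (co A) (co B) else bq A B

def bev (b : Bl) (U : Cf) : ℂ := p2 b.1 (wh star U b.2.1 b.2.2.1.1) (wh star U b.2.1 b.2.2.2.1)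

/-- value of a letter on complex fields -/
def ev : Let →ₗ[ℂ] Cf → ℂ := Finsupp.linearCombination ℂ bev

/-- value on gauge fields -/
def evG (X : Let) (U : Conf) : ℂ := ev X (cC U)

/-- the letter in the chart -/
def lx (X : Let) (B : Fld) : ℂ := ev X (exF (cg B))

/-- the smeared letter on the torus of side `n` -/
def sm (n : ℕ) (X : Let) (h : St → ℂ) (U : Conf) : ℂ := ∑ x ∈ box (n / 2), h x * evG X (sh x U)

/-- real letters -/
def Re (X : Let) : Prop := ∀ b, (X b).im = 0

variable {X Y : Let} {R n : ℕ} {k : Bool} {h : St → ℂ}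

theorem ev_single (b : Bl) (c : ℂ) (U : Cf) : ev (Finsupp.single b c) U = c * bev b U := by
  simp [ev]

theorem ev_eq (X : Let) (U : Cf) : ev X U = ∑ b ∈ X.support, X b * bev b U := by
  simp [ev, Finsupp.linearCombination_apply, Finsupp.sum]

theorem ev_lt (s : St) (w w' : Lp) (U : Cf) :
    ev (lt k s w w') U = p2 k (wh star U s w.1) (wh star U s w'.1) := by
  rw [lt, ev_single, one_mul, bev]

theorem ev_act (g : B4) (X : Let) (U : Cf) : ev (act g X) U = ev X (pb star g U) := by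
  induction X using Finsupp.induction_linear with
  | zero => simp
  | add X Y h h' => simp only [map_add, Pi.add_apply, h, h']
  | single b c => simp only [act_single, ev_single, bev, wh_pb star_star]; rfl

theorem ev_tr (v : St) (X : Let) (U : Cf) : ev (tr v X) U = ev X (sh v U) := by
  induction X using Finsupp.induction_linear with
  | zero => simp
  | add X Y h h' => simp only [map_add, Pi.add_apply, h, h']
  | single b c => simp only [tr_single, ev_single, bev, wh_sh]

theorem ev_agr (hX : Rad R X) {U U' : Cf} (h : Agr R U U') : ev X U = ev X U' := by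
  rw [ev_eq, ev_eq]
  refine sum_congr rfl fun b hb => ?_
  obtain ⟨r, h1, h2, h3⟩ := hX b hb
  rw [bev, bev, wh_agr star h _ r _ h1 h2, wh_agr star h _ r _ h1 h3]

theorem cC_pb (g : B4) (U : Conf) : cC (pb Inv.inv g U) = pb star g (cC U) := funext fun e => by
  simp only [cC, pb, stp]
  split_ifs <;> simp [cS_inv]

theorem wh_cC (U : Conf) (x : St) (w : List Dr) : wh star (cC U) x w = cS (wh Inv.inv U x w) :=
  wh_map (⟨⟨cS, cS_one⟩, cS_mul⟩ : S3 →* Hc) cS_inv U w x

theorem evG_act (g : B4) (X : Let) (U : Conf) : evG (act g X) U = evG X (pb Inv.inv g U) := by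
  rw [evG, evG, ev_act, cC_pb]

theorem evG_tr (v : St) (X : Let) (U : Conf) : evG (tr v X) U = evG X (sh v U) := ev_tr ..

theorem evG_lt (s : St) (w w' : Lp) (U : Conf) :
    evG (lt k s w w') U = p2 k (cS (wh Inv.inv U s w.1)) (cS (wh Inv.inv U s w'.1)) := by
  rw [evG, ev_lt, wh_cC, wh_cC]

theorem evG_add (U : Conf) : evG (X + Y) U = evG X U + evG Y U := by simp [evG]

theorem evG_sub (U : Conf) : evG (X - Y) U = evG X U - evG Y U := by simp [evG]

theorem evG_smul (c : ℂ) (U : Conf) : evG (c • X) U = c * evG X U := by simp [evG]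

theorem evG_sum {ι : Type} (A : Finset ι) (X : ι → Let) (U : Conf) :
    evG (∑ i ∈ A, X i) U = ∑ i ∈ A, evG (X i) U := by simp [evG]

theorem evG_agr (hX : Rad R X) {U U' : Conf} (h : Agr R U U') : evG X U = evG X U' :=
  ev_agr hX fun e he => congrArg cS (h e he)

/-! ### The pairings -/

theorem norm_p2 (A B : Hc) : ‖p2 k A B‖ ≤ ‖A‖ * ‖B‖ := by
  unfold p2
  split_ifs
  · exact (norm_dot' _ _).trans (mul_le_mul (norm_co _) (norm_co _) (norm_nonneg _) (norm_nonneg _))
  · exact (norm_bq _ _).trans (mul_le_mul (Un.norm_m _) (Un.norm_m _)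
      ((norm_nonneg _).trans (norm_co_m B)) (norm_nonneg _))

/-- the pairing as a continuous bilinear map -/
def pL (k : Bool) : Hc →L[ℂ] Hc →L[ℂ] ℂ :=
  (LinearMap.mk₂ ℂ (p2 k) (fun _ _ _ => by cases k <;> simp [p2, co_add, add_dot, bq, add_mul, mul_add])
    (fun _ _ _ => by cases k <;> simp [p2, co_smul, dot, bq, mul_sum, mul_assoc, mul_left_comm])
    (fun _ _ _ => by cases k <;> simp [p2, co_add, dot_add, bq, mul_add])
    fun _ _ _ => by cases k <;> simp [p2, co_smul, dot, bq, mul_sum, mul_left_comm]).mkContinuous₂ 1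
    fun A B => by simpa using norm_p2 A B

theorem pL_apply (A B : Hc) : pL k A B = p2 k A B := rfl

theorem diff_p2 {Ω : Set ℂ} {f g : ℂ → Hc} (hf : DifferentiableOn ℂ f Ω)
    (hg : DifferentiableOn ℂ g Ω) : DifferentiableOn ℂ (fun t => p2 k (f t) (g t)) Ω := fun t ht =>
  ((pL k).hasFDerivWithinAt_of_bilinear (hf t ht).hasFDerivWithinAt
    (hg t ht).hasFDerivWithinAt).differentiableWithinAt

theorem p2_comm (A B : Hc) : p2 k A B = p2 k B A := by simp only [p2, dot_comm (co A), bq_comm A]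

theorem p2_one (B : Hc) : p2 k 1 B = 0 := by cases k <;> simp [p2, dot, bq]

theorem p2_sub (A B : Hc) : p2 k (A - 1) (B - 1) = p2 k A B := by
  simp only [← pL_apply, map_sub, ContinuousLinearMap.sub_apply]
  simp only [pL_apply, p2_one, p2_comm A 1, sub_zero]

theorem p2_io (a b : C3) : p2 k (io a) (io b) = dot a b := by cases k <;> simp [p2, bq_io]

theorem p2_conj {u : Hc} (hu : Uni u) (A B : Hc) :
    p2 k (u * A * star u) (u * B * star u) = p2 k A B := by
  cases k
  · have e : ∀ q : Hc, (u * q * star u).m = (u * ⟨0, q.m⟩ * star u : Hc).m := fun q => by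
      rw [conj_split hu]
      simp
    have := bq_conj u (star u) (p := u * ⟨0, A.m⟩ * star u) (q := ⟨0, B.m⟩) (by simp) rfl
    rw [star_star, ← mul_assoc, ← mul_assoc, hu.star_mul, one_mul, mul_assoc _ (star u),
      hu.star_mul, mul_one] at this
    simpa only [p2, bq, e A, e B, Bool.false_eq_true, if_false] using this
  · simp [p2, co_conj hu, dot_adq_adq hu]

theorem p2_real (p q : Hr) : (p2 k (cq p) (cq q)).im = 0 := by
  cases k
  · simp [p2, bq, cq_m, tr_map, ← Complex.ofReal_pow]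
  · simp [p2, dot, co_real]

theorem p2_near {A B : Hc} {a b : C3} {s u : ℝ} (ha : ‖a‖ ≤ s) (hb : ‖b‖ ≤ s)
    (hA : ‖A - 1 - io a‖ ≤ u) (hB : ‖B - 1 - io b‖ ≤ u) :
    ‖p2 k A B - dot a b‖ ≤ 2 * s * u + u ^ 2 := by
  have e : p2 k A B - dot a b = p2 k (io a) (B - 1 - io b) + p2 k (A - 1 - io a) (io b) +
      p2 k (A - 1 - io a) (B - 1 - io b) := by
    rw [← p2_sub, ← p2_io (k := k)]
    simp only [← pL_apply, map_sub _ (A - 1), map_sub _ (B - 1), ContinuousLinearMap.sub_apply]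
    ring
  have s0 := (norm_nonneg _).trans ha
  have u0 := (norm_nonneg _).trans hA
  rw [← norm_io'] at ha hb
  have h1 := (norm_p2 (k := k) _ _).trans (mul_le_mul ha hB (norm_nonneg _) s0)
  have h2 := (norm_p2 (k := k) _ _).trans (mul_le_mul hA hb (norm_nonneg _) u0)
  have h3 := (norm_p2 (k := k) _ _).trans (mul_le_mul hA hB (norm_nonneg _) u0)
  rw [e]
  exact (norm_add₃_le.trans (add_le_add (add_le_add h1 h2) h3)).trans_eq (by ring)

/-! ### Gauge fields -/

theorem wh_gauge {G : Type} [Group G] (u : St → G) (U : Lk → G) (w : List Dr) : ∀ x,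
    wh Inv.inv (gauge Inv.inv u U) x w = u x * wh Inv.inv U x w * (u (x + ed w))⁻¹ := by
  induction w with
  | nil => exact fun _ => by simp [wh]
  | cons d w ih =>
    intro x
    have : stp Inv.inv (gauge Inv.inv u U) x d = u x * stp Inv.inv U x d * (u (x + dv d))⁻¹ := by
      unfold stp dv
      split_ifs <;> simp [gauge, mul_assoc, sub_eq_add_neg]
    simp only [wh, ih, this, ed_cons, add_assoc, mul_assoc, inv_mul_cancel_left]

theorem evG_gauge (u : St → S3) (U : Conf) : evG X (gauge Inv.inv u U) = evG X U := by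
  rw [evG, evG, ev_eq, ev_eq]
  refine sum_congr rfl fun b _ => ?_
  simp only [bev, wh_cC, wh_gauge, b.2.2.1.2, b.2.2.2.2, add_zero, cS_mul, cS_inv,
    p2_conj (uni_cS _)]

theorem evG_real (hX : Re X) (U : Conf) : (evG X U).im = 0 := by
  rw [evG, ev_eq]
  simp [bev, wh_cC, cS, p2_real, hX _]

theorem cont_wh (w : List Dr) : ∀ x, Continuous fun U : Conf => wh Inv.inv U x w := by
  induction w with
  | nil => exact fun _ => continuous_const
  | cons d w ih =>
    refine fun x => .mul ?_ (ih _)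
    unfold stp
    split_ifs <;> fun_prop

theorem evG_cont (X : Let) : Continuous (evG X) := by
  have : evG X = fun U => ∑ b ∈ X.support, X b * pL b.1 (cS (wh Inv.inv U b.2.1 b.2.2.1.1))
      (cS (wh Inv.inv U b.2.1 b.2.2.2.1)) := funext fun U => by
    simp only [evG, ev_eq, bev, wh_cC, pL_apply]
  rw [this]
  exact continuous_finsetSum _ fun b _ => continuous_const.mul
    (((pL b.1).continuous.comp (Ms.cont_cS.comp (cont_wh _ _))).clm_apply
      (Ms.cont_cS.comp (cont_wh _ _)))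

theorem evG_bd (X : Let) : ∃ C, ∀ U, ‖evG X U‖ ≤ C := by
  obtain ⟨C, h⟩ := isCompact_univ.exists_bound_of_continuousOn (evG_cont X).continuousOn
  exact ⟨C, fun U => h U trivial⟩

theorem lx_chart (hX : Rad R X) {ε : ℝ} {U : Conf} {x : St}
    (h : ∀ y ∈ box R, ∀ μ ν, fq U (x + y) μ ν ≤ ε) (h1 : 6 * R * ε ≤ 1) :
    lx X (Bx x (cC U)) = evG X (sh x U) := by
  have h2 := (Bx_loc (R := R) (U := sh x U) (fun y hy μ ν => by
    rw [Mx.fq_sh, add_comm]; exact h y hy μ ν) h1).2
  have h3 : Bx x (cC U) = Bx 0 (cC (sh x U)) := by rw [SX.cC_sh, Bx_sh, zero_add]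
  rw [lx, h3, cg_Bx, ← ev_agr hX h2]
  exact evG_gauge _ _

/-! ### The chart -/

theorem lx_add (B : Fld) : lx (X + Y) B = lx X B + lx Y B := by simp [lx]

theorem lx_smul (c : ℂ) (B : Fld) : lx (c • X) B = c * lx X B := by simp [lx]

theorem lx_sum {ι : Type} (A : Finset ι) (X : ι → Let) (B : Fld) :
    lx (∑ i ∈ A, X i) B = ∑ i ∈ A, lx (X i) B := by simp [lx]

theorem lx_real (hX : Re X) {B : Fld} (hB : RealF B) : (lx X B).im = 0 := by
  have h2 : ∀ e, ∃ g : S3, cS g = ex (cg B e) := fun e => ex_real' fun k => by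
    simp [cg, gr, lam, pr, hB _ k]
  choose U hU using h2
  rw [lx, show exF (cg B) = cC U from funext fun e => (hU e).symm]
  exact evG_real hX U

theorem lx_meas (X : Let) : Measurable (lx X) := by
  have h1 : ∀ e, Measurable fun B : Fld => cg B e := fun e => by
    simp only [cg, gr, lam, pr, Pi.sub_apply]
    fun_prop
  have h2 : ∀ e, MQ fun B : Fld => exF (cg B) e := fun e => mq_ex (h1 e)
  have h3 : ∀ w x, MQ fun B : Fld => wh star (exF (cg B)) x w := fun w => by
    induction w with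
    | nil => exact fun _ => mq_const 1
    | cons d w ih =>
      refine fun x => MQ.mul ?_ (ih _)
      unfold stp
      split_ifs
      exacts [h2 _, (h2 _).star]
  have : lx X = fun B => ∑ b ∈ X.support, X b * bev b (exF (cg B)) := funext fun B => ev_eq _ _
  rw [this]
  exact measurable_sum _ fun b _ => Measurable.const_mul
    ((pL b.1).continuous₂.measurable.comp (Measurable.prodMk (h3 _ _) (h3 _ _))) _

theorem nr_wh {s u δ : ℝ} {U : Cf} {b : Fld} (h : ∀ e ∈ lbox R, Nr s u (U e) (io (b e)) ∧ ‖b e‖ ≤ δ)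
    (w : List Dr) : ∀ r, ∀ x ∈ box r, r + w.length ≤ R →
      Nr (w.length * s) (w.length * u) (wh star U x w) (io (fx b x w)) ∧
        ‖fx b x w‖ ≤ w.length * δ := by
  induction w with
  | nil => exact fun _ _ _ _ => by simpa [wh, fx] using nr_one
  | cons d w ih =>
    intro r x hx h1
    rw [List.length_cons] at h1
    obtain ⟨a1, a2⟩ := ih (r + 1) _ (add_mem_box hx (dv_box d)) (by omega)
    have a3 : Nr s u (stp star U x d) (io (stp Neg.neg b x d)) ∧ ‖stp Neg.neg b x d‖ ≤ δ := by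
      have := add_mem_box hx (dv_box (d.1, false))
      unfold stp
      split_ifs
      · exact h _ (mem_lbox.2 (box_mono (by omega) hx))
      · have := h (x - un d.1, d.1) (mem_lbox.2 (box_mono (r := r + 1) (by omega)
          (by simpa [dv, sub_eq_add_neg] using this)))
        exact ⟨this.1.star, by simpa using this.2⟩
    simp only [wh, fx, List.length_cons, Nat.cast_succ, add_mul, one_mul, io_add, add_comm _ s,
      add_comm _ u, add_comm _ δ]
    exact ⟨a3.1.mul a1, norm_add_le_of_le a3.2 a2⟩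

theorem qf_sig (b : Bl) {B : Fld} (hB : RealF B) :
    qf b.sig B = dot (fx B b.2.1 b.2.2.1.1) (fx B b.2.1 b.2.2.2.1) := by
  have e : ∀ j x w, ((fx (reF B j) x w : ℝ) : ℂ) = fx B x w j := fun j x w => by
    have h1 := fx_map Complex.ofRealAm.toLinearMap.toAddMonoidHom (reF B j) w x
    have h2 := fx_map (Pi.evalAddMonoidHom (fun _ : Fin GD.d => ℂ) j) B w x
    refine h1.symm.trans (Eq.trans ?_ h2)
    congr 1
    funext e
    exact Complex.ext rfl (by simpa using (hB e j).symm)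
  simp only [qf, Bl.sig_apply, dot, ← e]
  refine sum_congr rfl fun j _ => ?_
  push_cast
  ring

/-- the quadratic part -/
def qd (X : Let) (B : Fld) : ℂ :=
  ∑ b ∈ X.support, X b * dot (fx B b.2.1 b.2.2.1.1) (fx B b.2.1 b.2.2.2.1)

theorem qf_qd (X : Let) {B : Fld} (hB : RealF B) : qf (sig X) B = qd X B := by
  simp only [qd, ← qf_sig _ hB, qf, sig, Finsupp.linearCombination_apply, Finsupp.sum,
    LinearMap.sum_apply, LinearMap.smul_apply, smul_eq_mul, mul_sum]
  exact sum_comm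

theorem lx_near (hX : Rad R X) : ∃ C δ : ℝ, 0 ≤ C ∧ 0 < δ ∧ δ ≤ 1 ∧ 3 * R * δ ≤ 1 / 100 ∧
    ∀ B d, Cv R d B → d ≤ δ → ‖lx X B - qd X B‖ ≤ C * d ^ 3 ∧ ‖qd X B‖ ≤ C * d ^ 2 := by
  have R0 : (0 : ℝ) ≤ R := Nat.cast_nonneg R
  refine ⟨(∑ b ∈ X.support, ‖X b‖) * (10 ^ 5 * (R + 1) ^ 8), 1 / (300 * (R + 1) ^ 2), by positivity,
    by positivity, by rw [div_le_one (by positivity)]; nlinarith, by
      rw [mul_one_div, div_le_iff₀ (by positivity)]; nlinarith, fun B d hB hd => ?_⟩
  have d0 := hB.nonneg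
  rw [le_div_iff₀ (by positivity)] at hd
  obtain ⟨t, ht⟩ : ∃ t : ℝ, t = (R + 1) ^ 2 * d := ⟨_, rfl⟩
  have t0 : 0 ≤ t := by rw [ht]; positivity
  have t1 : 300 * t ≤ 1 := by rw [ht]; linarith
  have t2 : R * (R * d) ≤ t := by rw [ht]; nlinarith
  have t3 : R * d ≤ t := by rw [ht]; nlinarith
  have t4 : t ^ 2 ≤ (R + 1) ^ 8 * d ^ 2 ∧ t ^ 3 ≤ (R + 1) ^ 8 * d ^ 3 := by
    simp only [ht, mul_pow, ← pow_mul]
    constructor <;> gcongr <;> linarith
  have ap := Ap_exF (Sm_cg hB) (by linarith)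
  have key : ∀ (w : Lp) r, ∀ x ∈ box r, r + w.1.length ≤ R →
      ‖wh star (exF (cg B)) x w.1 - 1 - io (fx B x w.1)‖ ≤ 240 * t ^ 2 ∧ ‖fx B x w.1‖ ≤ 3 * t := by
    intro w r x hx h1
    obtain ⟨a1, a2⟩ := nr_wh (fun e he => ⟨ap.nr (by nlinarith [mul_nonneg R0 d0]) e he,
      (ap e he).1⟩) w.1 r x hx h1
    rw [fx_cg] at a1 a2
    have l1 : (w.1.length : ℝ) ≤ R := by exact_mod_cast le_trans (by omega) h1
    have l0 : (0 : ℝ) ≤ w.1.length := Nat.cast_nonneg _
    have m : w.1.length * (R * d) ≤ t := (mul_le_mul_of_nonneg_right l1 (by positivity)).trans t2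
    have m0 : 0 ≤ w.1.length * (R * d) := by positivity
    refine ⟨(a1.le (by positivity) (by linarith)).2.trans ?_, a2.trans (by linarith)⟩
    nlinarith [mul_le_mul m t3 (by positivity) t0, mul_le_mul m m m0 t0]
  simp only [lx, ev_eq, qd, ← sum_sub_distrib, ← mul_sub, sum_mul]
  constructor <;> refine norm_sum_le_of_le _ fun b hb => ?_ <;>
    obtain ⟨r, h1, h2, h3⟩ := hX b hb <;> rw [norm_mul, mul_assoc] <;>
    refine mul_le_mul_of_nonneg_left ?_ (norm_nonneg _)
  · refine (p2_near (key _ r _ h1 h2).2 (key _ r _ h1 h3).2 (key _ r _ h1 h2).1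
      (key _ r _ h1 h3).1).trans ?_
    nlinarith [t4.2, pow_nonneg t0 3, mul_le_mul_of_nonneg_right t1 (pow_nonneg t0 3)]
  · refine (norm_dot' _ _).trans ((mul_le_mul (key _ r _ h1 h2).2 (key _ r _ h1 h3).2
      (norm_nonneg _) (by positivity)).trans ?_)
    nlinarith [t4.1, sq_nonneg t]

theorem lx_loc (hX : Rad R X) {A B : Fld} (h : ∀ x ∈ box R, ∀ μ ν, dd A x μ ν = dd B x μ ν) :
    lx X A = lx X B := ev_agr hX fun e he => congrArg ex (JT.cg_loc h e he)

theorem lx_ad (u : S3) (B : Fld) : lx X (adF (fun _ => cS u) B) = lx X B := by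
  have h2 : cg (adF (fun _ => cS u) B) = adF (fun _ => cS u) (cg B) :=
    cg_map (adL (cS u)).toAddMonoidHom B
  have e : ∀ q : Hc, star (cS u) * (cS u * q) = q := fun q => by
    rw [← mul_assoc, (uni_cS u).star_mul, one_mul]
  have h3 : ∀ w x, wh star (exF (adF (fun _ => cS u) (cg B))) x w =
      cS u * wh star (exF (cg B)) x w * star (cS u) := fun w => by
    induction w with
    | nil => exact fun _ => by simp [wh, (uni_cS u).mul_star]
    | cons d w ih =>
      intro x
      rw [wh, wh, ih]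
      unfold stp
      split_ifs <;> simp only [exF, adF, ex_adq (uni_cS u), star_mul, star_star, mul_assoc, e]
  simp only [lx, h2, ev_eq, bev, h3, p2_conj (uni_cS u)]

theorem lx_hol (hX : Rad R X) {δ : ℝ} (hδ : 3 * R * δ ≤ 1 / 100) {Ω : Set ℂ} {γ : ℂ → Fld}
    (hγ : Disc Ω γ) (hc : ∀ t ∈ Ω, Cv R δ (γ t)) : DifferentiableOn ℂ (fun t => lx X (γ t)) Ω := by
  have h2 : ∀ e ∈ lbox R, DifferentiableOn ℂ (fun t => exF (cg (γ t)) e) Ω := fun e he =>
    diff_ex (hγ.cg e) fun t ht => (Sm_cg (hc t ht) e he).trans (by linarith)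
  have h3 : ∀ (w : List Dr) r, ∀ x ∈ box r, r + w.length ≤ R →
      DifferentiableOn ℂ (fun t => wh star (exF (cg (γ t))) x w) Ω := fun w => by
    induction w with
    | nil => exact fun _ _ _ _ => differentiableOn_const 1
    | cons d w ih =>
      intro r x hx h1
      rw [List.length_cons] at h1
      refine DifferentiableOn.mul ?_ (ih (r + 1) _ (add_mem_box hx (dv_box d)) (by omega))
      have := add_mem_box hx (dv_box (d.1, false))
      unfold stp
      split_ifs
      · exact h2 _ (mem_lbox.2 (box_mono (by omega) hx))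
      · exact stL.differentiable.comp_differentiableOn (h2 (x - un d.1, d.1) (mem_lbox.2
          (box_mono (r := r + 1) (by omega) (by simpa [dv, sub_eq_add_neg] using this))))
  simp only [lx, ev_eq]
  refine .fun_sum fun b hb => .const_mul ?_ _
  obtain ⟨r, h1, h4, h5⟩ := hX b hb
  exact diff_p2 (h3 _ r _ h1 h4) (h3 _ r _ h1 h5)

theorem q2_lx (X : Let) (a b : V) : q2 (lx X) a b = sig X a b := by
  obtain ⟨R, hX⟩ := exists_rad X
  obtain ⟨C, δ, -, h1, -, -, h⟩ := lx_near hX
  exact q2_of_bd (sig_symm X) h1 (fun B d hB c hd => qf_qd X hB ▸ (h B d c hd).1) a b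

/-- letters are local terms of the class -/
theorem lx_ps (hX : Rad R X) : ∃ ρ0 > 0, ∀ s, ∃ C ≥ 0, ∀ R' ≥ R, ∀ ρ, 0 < ρ → ρ ≤ ρ0 →
    Ps R' s ρ C C (C * ρ ^ 3) (lx X) ∧ (sig X = 0 → Ps R' s ρ 0 0 (C * ρ ^ 3) (lx X)) := by
  obtain ⟨C, δ, C0, h1, h2, h3, h⟩ := lx_near hX
  have z : lx X 0 = 0 := by
    have := h 0 0 (Ho.cv_zero R le_rfl) h1.le
    simp only [ne_eq, OfNat.ofNat_ne_zero, not_false_eq_true, zero_pow, mul_zero,
      norm_le_zero_iff] at this
    simpa [this.2] using this.1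
  have T := tb_ball (R := R) (δ := δ) (M := 2 * C) (φ := lx X) ⟨fun A B _ _ _ => lx_loc hX,
    fun u B _ _ _ => lx_ad u B⟩ (fun Ω γ _ => lx_hol hX h3) (fun B hB => by
      have := norm_add_le_of_le (h B δ hB le_rfl).1 (h B δ hB le_rfl).2
      rw [sub_add_cancel] at this
      nlinarith [mul_le_mul_of_nonneg_left (pow_le_one₀ h1.le h2 (n := 3)) C0,
        mul_le_mul_of_nonneg_left (pow_le_one₀ h1.le h2 (n := 2)) C0]) h1.le
  refine ⟨δ / 40, by positivity, fun s => ⟨2 * 10 ^ 11 * (2 * C) / (δ / 2) ^ 2 +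
    4 * 10 ^ 11 * (R + 1 : ℝ) ^ (2 * s) * (2 * C) / (δ / 2) ^ 2 + 2 * 10 ^ 18 * (2 * C) / (δ / 2) ^ 3,
    by positivity, fun R' hR ρ r0 r1 => ?_⟩⟩
  have := T.ps (by positivity) (by linarith) r0 (by linarith) s
  simp only [z, sub_zero] at this
  have a1 : 0 ≤ 2 * 10 ^ 11 * (2 * C) / (δ / 2) ^ 2 := by positivity
  have a2 : 0 ≤ 4 * 10 ^ 11 * (R + 1 : ℝ) ^ (2 * s) * (2 * C) / (δ / 2) ^ 2 := by positivity
  have a3 : 0 ≤ 2 * 10 ^ 18 * (2 * C) / (δ / 2) ^ 3 := by positivity
  have P := this.mono hR r0 le_rfl (le_add_of_le_of_nonneg (le_add_of_nonneg_right a2) a3)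
    (le_add_of_le_of_nonneg (le_add_of_nonneg_left a1) a3) (xr' := (_ + _ + _) * ρ ^ 3) (by
      rw [div_self r0.ne', one_pow, mul_one, div_pow, ← mul_div_assoc, mul_div_right_comm]
      exact mul_le_mul_of_nonneg_right (le_add_of_nonneg_left (add_nonneg a1 a2)) (by positivity))
  exact ⟨P, fun e => P.reform r0 (fm_zero R' s) fun a b => by simp [q2_lx, e]⟩

end Pool.Agent.Lib.MP_7f377f_mp.RG.Wd
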