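import Pool.Agent.Lib.MP_7f377f_mp.G.StV0
import Pool.Agent.Lib.MP_7f377f_mp.G.StL

/-! General sources at the top level. -/

noncomputable section

open Pool.Agent.Lib.MP_7f377f_mp.Jet

set_option linter.unusedSectionVars false
variable [Pool.Agent.Lib.MP_7f377f_mp.GD]

namespace Pool.Agent.Lib.MP_7f377f_mp.RG.Q4

open Finset Real La La.Q
open scoped Classical

attribute [local irreducible] box lbox

theorem iw_mul {σ : Type} [DecidableEq σ] {N : σ → Finset σ} {χ w : σ → ℂ} {O : Finset σ}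
    (h0 : O ⊆ us N O) (t : ℂ) :
    iw N χ (fun x => t * w x) O = t ^ (us N O).card * iw N χ w O := by
  simp only [iw, mul_left_comm _ t, prod_mul_distrib (f := fun _ => t), prod_const]
  rw [← card_sdiff_add_card_eq_card h0, pow_add]
  ring

open In in
/-- the majorant for weights with an additional factor `e` -/
theorem K0_le' {n R R' : ℕ} {χ w : St → Conf → ℂ} {X : Finset St} {c : Finset (Finset St)}
    {U : Conf} (hn : Odd n) (hU : Per n U) {b0 ε lam γ : ℝ} (h0 : 0 < b0) (hε : 0 ≤ ε)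
    (hb : ∀ x ∈ box (n / 2), ‖w x U‖ ≤ exp 1 * exp (-(b0 / 32 * fs U x ^ 2)))
    (hχ : ∀ y, χ y U = 1 ∨ χ y U = 0 ∧ ∃ z ∈ box R, ε < fs U (y + z))
    (hγ : γ + (2 * R + 1) ^ 4 ≤
      b0 * ε ^ 2 / (64 * (2 * R + 1) ^ 4) - 16 * (2 * R + 1) ^ 4 * lam ^ 2 / b0) :
    ‖K0 n R R' χ w X c U‖ ≤ k0 n R R' γ X c * exp (-(lam * ∑ C ∈ c, ∑ x ∈ C, fs U x)) := by
  rw [k0, ik, sum_mul]
  refine norm_sum_le_of_le _ fun O hO => ?_
  obtain ⟨h1, h2⟩ := mem_filter.1 hO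
  rw [← h2, sum_singleton]
  have a := iw_le (χ := (χ · U)) (w := fun x => Complex.exp (-1) * w x U) (b := b0 / 32) (ε := ε)
    (M := (2 * R + 1) ^ 4) (r := fs U) (lam := lam)
    (clus_sub (R := R) hn h1) (by positivity) hε (by positivity) (fun y hy => ?_)
    (fun y _ => (hχ y).imp_right fun a => ⟨a.1, ?_⟩) (fun x _ => card_tb1 n R x)
    (card_near hn (mem_clus.1 h1).1 R)
  · have e : (fun x => w x U) = fun x => Complex.exp 1 * (Complex.exp (-1) * w x U) := by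
      simp only [← mul_assoc, ← Complex.exp_add, add_neg_cancel, Complex.exp_zero, one_mul]
    have c3 : ((us (fun x => tb n R {x}) O).card : ℝ) ≤ O.card * (2 * R + 1) ^ 4 := by
      rw [us_tb]
      exact_mod_cast (card_tb_le n R O)
    rw [e, iw_mul (clus_sub hn h1), norm_mul, norm_pow, Complex.norm_exp, Complex.one_re]
    refine (mul_le_mul_of_nonneg_left a (by positivity)).trans ?_
    rw [← mul_assoc, prod_const, prod_const, ← exp_nat_mul, ← exp_nat_mul, ← exp_nat_mul, ← exp_add]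
    refine mul_le_mul_of_nonneg_right (exp_le_exp.2 ?_) (exp_nonneg _)
    have e2 : (2 * R + 1 : ℝ) ^ 4 * lam ^ 2 / (2 * (b0 / 32)) - b0 / 32 * ε ^ 2 / (2 * (2 * R + 1) ^ 4) =
        -(b0 * ε ^ 2 / (64 * (2 * R + 1) ^ 4) - 16 * (2 * R + 1) ^ 4 * lam ^ 2 / b0) := by
      field_simp
      ring
    rw [e2]
    nlinarith [mul_le_mul_of_nonneg_left hγ (Nat.cast_nonneg O.card)]
  · rw [norm_mul, Complex.norm_exp, Complex.neg_re, Complex.one_re, exp_neg, inv_mul_le_iff₀ (exp_pos 1)]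
    exact hb y (tb_dom hn (us_tb n R O ▸ hy))
  · obtain ⟨z, hz, a⟩ := a.2
    exact ⟨rc n (y + z), mem_tb_single.2 ⟨rc_rc _ _, nearT_rc_right.2 (nearT_add hz)⟩,
      by rwa [fs_rc hU]⟩

namespace En

open Pos Sg

variable {p : Pa} {n e ρ d : ℕ} {Q g ω ω' x y A N a a0 a1 a2 : ℝ} {ψ φ : Lx} {K J : Ac} {S : Sd}
  {Φ : (St → ℂ) → Lx × Ac} {F : St → ℂ} {F' : Fin 4 → St → ℂ} {u v : Lx × Ac}

theorem Ltt.add {X X' : Conf → ℂ} {χ χ' : Fld → ℂ} (h : Ltt d X χ) (h' : Ltt d X' χ') :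
    Ltt d (X + X') (χ + χ') :=
  ⟨h.meas.add h'.meas, fun U U' e => congrArg₂ (· + ·) (h.loc U U' e) (h'.loc U U' e),
    fun u U => congrArg₂ (· + ·) (h.gi u U) (h'.gi u U),
    fun ε U a b => congrArg₂ (· + ·) (h.chart ε U a b) (h'.chart ε U a b)⟩

theorem Ltt.smul {X : Conf → ℂ} {χ : Fld → ℂ} (h : Ltt d X χ) (t : ℂ) : Ltt d (t • X) (t • χ) :=
  ⟨h.meas.const_smul t, fun U U' e => congrArg (t • ·) (h.loc U U' e),
    fun u U => congrArg (t • ·) (h.gi u U), fun ε U a b => congrArg (t • ·) (h.chart ε U a b)⟩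

theorem Ltt.zero : Ltt d 0 0 :=
  ⟨measurable_zero, fun _ _ _ => rfl, fun _ _ => rfl, fun _ _ _ _ => rfl⟩

theorem pm_smul (h0 : 0 < p.ρ) (h : PM p x y a ψ) (t : ℂ) :
    PM p (‖t‖ * x) (‖t‖ * y) (‖t‖ * a) (t • ψ) :=
  fun v => ⟨((h v).1.smul h0 t).1, (h v).2.const_mul t⟩

theorem Sx.Ok.add {F1 F2 : Sx} {M a' M' : ℝ} (h0 : 0 < p.ρ) (h1 : F1.Ok p d a M)
    (h2 : F2.Ok p d a' M') (t : ℂ) : (F1 + t • F2).Ok p d (a + ‖t‖ * a') (M + ‖t‖ * M') :=
  let ⟨_, _, _, a1⟩ := h1.pm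
  let ⟨_, _, _, a2⟩ := h2.pm
  ⟨fun x μ ν => norm_add_le_of_le (h1.pl x μ ν) (norm_mul_le_of_le le_rfl (h2.pl x μ ν)),
    fun x => (h1.lt x).add ((h2.lt x).smul t),
    fun x U => norm_add_le_of_le (h1.bd x U) (norm_mul_le_of_le le_rfl (h2.bd x U)),
    _, _, _, (PM.add h0 a1 (pm_smul h0 a2 t)).1⟩

theorem Sx.Ok.zero (h0 : 0 < p.ρ) : (0 : Sx).Ok p d 0 0 :=
  ⟨fun _ _ _ => norm_zero.le, fun _ => .zero, fun _ _ => norm_zero.le, _, _, _, pm_zero h0⟩

theorem ltt_ev {X : Wd.Let} (hX : Wd.Rad d X) : Ltt d (Wd.evG X) (Wd.lx X) := by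
  refine ⟨(Wd.evG_cont X).measurable, fun U U' => Wd.evG_agr hX, Wd.evG_gauge, fun ε U a b => ?_⟩
  have d0 : (0 : ℝ) ≤ d := Nat.cast_nonneg d
  have d1 : (d + 1 : ℝ) ≤ (d + 1) ^ 4 := le_self_pow₀ (by linarith) (by norm_num)
  rw [Wd.lx_chart hX (fun y hy => by simpa using a y (box_mono d.le_succ hy))
    (by nlinarith [a.nonneg]), sh_zero]

theorem xO_lS (X : Wd.Let) (χ : Fld → ℂ) (F : St → ℂ) :
    xO n (lS (Wd.evG X) χ F) = Wd.sm n X F := funext fun U => by simp [xO, lS, sO, Wd.sm]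

theorem xO_pS (w : Fin 4 → Fin 4 → ℂ) (F : St → ℂ) :
    xO n (pS w F) = sO n fun x => F x • w := funext fun U => by simp [xO, pS]

/-! ### The activities -/

section act

variable {β : ℝ} {F F' : Sx}

/-- the weight of a site -/
def xw (β : ℝ) (F : Sx) (x : St) (U : Conf) : ℂ :=
  ww (fun x μ ν => β + F.1 x μ ν) x U * Complex.exp (-F.2.1 x (sh x U))

theorem xK_eq : xK p n β F = KI p n (xw β F) := rfl

theorem xP_add : xP (F + F') = xP F + xP F' := by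
  simp only [xP, Prod.fst_add, Prod.snd_add, sL_add]
  abel

theorem xP_smul (t : ℂ) : xP (t • F) = t • xP F := by
  simp only [xP, Prod.smul_fst, Prod.smul_snd, sL_smul, smul_add]

theorem xP_zero : xP 0 = 0 := by simp [xP, sL_zero]

theorem xP_sum {ι : Type} (B : Finset ι) (s : ι → ℂ) (H : ι → Sx) :
    xP (∑ i ∈ B, s i • H i) = ∑ i ∈ B, s i • xP (H i) := by
  induction B using Finset.cons_induction with
  | empty => exact xP_zero
  | cons i B hi ih => rw [sum_cons, sum_cons, xP_add, xP_smul, ih]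

theorem xK_pl (F : Sr) : xK p n β (F, 0, 0) = sK p n β F := by simp [xK, sK]

theorem xw_meas {x : St} (h : Measurable (F.2.1 x)) : Measurable (xw β F x) :=
  (meas_ww _ x).mul (h.comp (Ms.cont_sh x).measurable).neg.cexp

theorem xw_le {b0 : ℝ} (h0 : 0 ≤ b0) (hβ : b0 + a ≤ β) (pl : ∀ x μ ν, ‖F.1 x μ ν‖ ≤ a)
    (bd : ∀ x U, ‖F.2.1 x U‖ ≤ 1) (x : St) (U : Conf) :
    ‖xw β F x U‖ ≤ exp 1 * exp (-(b0 / 32 * fs U x ^ 2)) := by
  rw [xw, mul_comm]
  refine norm_mul_le_of_le ((Complex.norm_exp_le_exp_norm _).trans (exp_le_exp.2 ?_))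
    (In.norm_ww h0 (fun μ ν => ?_) U)
  · rw [norm_neg]
    exact bd x _
  · have := (abs_le.1 ((Complex.abs_re_le_norm _).trans (pl x μ ν))).1
    rw [Complex.add_re, Complex.ofReal_re]
    linarith

theorem xw_prod (U : Conf) :
    ∏ x ∈ box (n / 2), xw β F x U = wil β n U * Complex.exp (-xO n F U) := by
  simp only [xw, prod_mul_distrib, ww_src, xO, neg_add, Complex.exp_add, mul_assoc,
    ← sum_neg_distrib, Complex.exp_sum]

theorem xw_diff {E : Type} [NormedAddCommGroup E] [NormedSpace ℂ E] {F : E → Sx}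
    (h : ∀ x μ ν, Differentiable ℂ fun z => (F z).1 x μ ν)
    (h' : ∀ x U, Differentiable ℂ fun z => (F z).2.1 x U) (x : St) (U : Conf) :
    Differentiable ℂ fun z => xw β (F z) x U := by
  have : ∀ {F : E → Sr}, (∀ μ ν, Differentiable ℂ (F · x μ ν)) →
      Differentiable ℂ fun z => ww (fun x μ ν => β + F z x μ ν) x U := fun h => by
    unfold ww
    fun_prop
  exact (this (h x)).mul (h' x _).neg.cexp

theorem xK_diff {E : Type} [NormedAddCommGroup E] [NormedSpace ℂ E] {F : E → Sx}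
    (h : ∀ x μ ν, Differentiable ℂ fun z => (F z).1 x μ ν)
    (h' : ∀ x U, Differentiable ℂ fun z => (F z).2.1 x U) (X : Finset St) (c : Finset (Finset St))
    (U : Conf) : Differentiable ℂ fun z => xK p n β (F z) X c U := by
  have q : ∀ (O : Finset St) (k : St → ℂ), Differentiable ℂ fun z =>
      ∏ x ∈ O, k x * xw β (F z) x (pc n U) := fun O k z => (HasFDerivAt.finsetProd fun x _ =>
    ((xw_diff h h' x _).const_mul (k x) z).hasFDerivAt).differentiableAt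
  exact Differentiable.fun_sum fun O _ => (q _ _).mul (q _ _)

theorem xS_smul (t : ℂ) : xS p n β (t • F) = t • xS p n β F := by
  funext X c U
  simp only [xS, dA, smul_smul, Pi.smul_apply, smul_eq_mul]
  simpa [mul_comm] using deriv_comp_mul_left t (fun s => xK p n β (s • F) X c U) 0

theorem xS_add : xS p n β (F + F') = xS p n β F + xS p n β F' := by
  funext X c U
  have d := (xK_diff (p := p) (n := n) (β := β) (F := fun z : ℂ × ℂ => z.1 • F + z.2 • F')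
    (fun x μ ν => by
      simp only [Prod.fst_add, Prod.smul_fst, Pi.add_apply, Pi.smul_apply]; fun_prop)
    (fun x U => by
      simp only [Prod.fst_add, Prod.snd_add, Prod.smul_fst, Prod.smul_snd, Pi.add_apply,
        Pi.smul_apply]; fun_prop) X c U 0).hasFDerivAt
  have e := fun w : ℂ × ℂ => (d.comp_hasDerivAt_of_eq (0 : ℂ)
    ((hasDerivAt_id' (0 : ℂ)).smul_const w) (by simp)).deriv
  have e1 := e (1, 1)
  have e2 := e (1, 0)
  have e3 := e (0, 1)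
  rw [show ((1, 1) : ℂ × ℂ) = (1, 0) + (0, 1) by simp, smul_add (1 : ℂ), map_add, ← e2, ← e3] at e1
  simpa [xS, dA, Function.comp_def] using e1

theorem xK_loc (hn : Odd n) {X : Finset St}
    (h : ∀ y ∈ X, rc n y = y → F.1 y = F'.1 y ∧ F.2.1 y = F'.2.1 y)
    (c : Finset (Finset St)) : xK p n β F X c = xK p n β F' X c := funext fun U => by
  rw [xK_eq, xK_eq, KI, KI]
  refine K0_congr hn (d := 0) (by omega) fun y hy e => ⟨rfl, ?_⟩
  have := h y (e (mem_tb_single.2 ⟨rc_eq hn hy, nearT.refl _ _ _⟩)) (rc_eq hn hy)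
  simp only [xw, ww, this.1, this.2]

theorem xK_tr (hn : Odd n) (v : St) (h : ∀ y, F.1 (rc n (y + v)) = F'.1 y ∧
    F.2.1 (rc n (y + v)) = F'.2.1 y) {o : LP St} (ho : o ∈ lps (box (n / 2))) :
    trA n v (xK p n β F) o.1 o.2 = xK p n β F' o.1 o.2 := by
  obtain ⟨h1, -, h2⟩ := mem_lps.1 ho
  funext U
  have hU := (Mx.per_pc n U).sh (-v)
  rw [trA, xK_eq, xK_eq, KI, KI, In.pc_per hU]
  have e0 : ∀ y, sh (rc n (y + v)) (sh (-v) (pc n U)) = sh y (pc n U) := fun y => by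
    obtain ⟨w, hw⟩ := rc_exists n (y + v)
    rw [hw, ← sh_sh, hU.sh_smul, sh_sh, add_neg_cancel_right]
  have e : ∀ y z μ ν, fq (sh (-v) (pc n U)) (rc n (y + v) + z) μ ν = fq (pc n U) (y + z) μ ν :=
    fun y z μ ν => by rw [add_comm _ z, ← Mx.fq_sh, e0, Mx.fq_sh, add_comm]
  refine K0_sh hn v h1 (fun C hC => ((mem_fams.1 h2).1 C hC).trans h1) fun y _ =>
    ⟨In.chi_fq fun z _ => e y z, ?_⟩
  rw [xw, xw, e0, (h y).2]
  exact congrArg (· * _) (ww_fq (by simp only [(h y).1]) (by simpa using e y 0))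

variable (h : S.Nu 100) (hd : d ≤ S.p.R)
include h hd

theorem xK_km (hβ : 3 / 4 * S.β ≤ β) (pl : ∀ x μ ν, ‖F.1 x μ ν‖ ≤ S.β / 4)
    (lt : ∀ x, Ltt d (F.2.1 x) (F.2.2 x)) (bd : ∀ x U, ‖F.2.1 x U‖ ≤ 1) :
    KM S.p S.nf (kI S.p S.nf (S.β / 4)) (xK S.p S.nf β F) := by
  have hn := h.ok.odd_nf
  have β0 := h.ok.β0
  refine ⟨fun X c => (K0_meas (In.chi_meas _) fun x => xw_meas (lt x).meas).comp
      (Mx.cont_pc _).measurable, fun X c U => by rw [xK_eq, KI, KI, In.pc_per (Mx.per_pc _ U)],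
    fun X c U U' e => ?_, fun X c u U hu => ?_, fun X c U hU => ?_⟩
  · have e' : ∀ b : Lk, rc S.nf b.1 ∈ X ∧ rc S.nf (b.1 + un b.2) ∈ X → pc S.nf U b = pc S.nf U' b :=
      fun b hb => e (rc S.nf b.1, b.2) (by simpa only [Set.mem_ofPred_eq, rc_rc, rc_add_rc] using hb)
    rw [xK_eq, KI, KI]
    refine K0_congr hn (d := S.p.R + 1 + 2) (by omega) fun y _ hy =>
      ⟨In.chi_fq fun _ hz => In.fq_dep' e' hy hz, ?_⟩
    have m : ∀ z ∈ box (S.p.R + 1 + 2), rc S.nf (z + y) ∈ X := fun z hz => hy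
      (mem_tb_single.2 ⟨rc_rc _ _, nearT_rc_right.2 (add_comm y z ▸ nearT_add hz)⟩)
    rw [xw, xw, (lt y).loc (sh y (pc S.nf U)) (sh y (pc S.nf U')) fun b hb => e' (b.1 + y, b.2)
      ⟨m _ (box_mono (by omega) (mem_lbox.1 hb)), by
        rw [add_right_comm]
        exact m _ (box_mono (by omega) (add_un_mem_box (mem_lbox.1 hb) b.2))⟩]
    exact congrArg (· * _) (ww_fq rfl (by simpa using In.fq_dep' e' hy (zero_mem_box _)))
  · rw [xK_eq, KI, KI, Mx.pc_gauge (Mx.PS_iff.1 hu)]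
    refine K0_congr hn (d := 0) (by omega) fun y _ _ => ⟨In.chi_fq fun _ _ => Mx.fq_gauge _ _ _, ?_⟩
    rw [xw, xw, Ms.sh_gauge, (lt y).gi]
    exact congrArg (· * _) (ww_fq rfl (Mx.fq_gauge _ _ _))
  · rw [xK_eq, KI, In.pc_per hU]
    refine K0_le' hn hU (b0 := S.β / 2) (by linarith) h.ε0.le
      (fun x _ => xw_le (by linarith) (by linarith) pl bd x U) (In.chi_cases _ U) ?_
    have e : (2 * (S.p.R + 1 : ℕ) + 1 : ℝ) = 2 * S.p.R + 3 := by push_cast; ring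
    rw [e, Sd.p_lam, inv_pow, inv_eq_of_mul_eq_one_left h.ok.βg]
    have M0 : (0 : ℝ) < (2 * S.p.R + 3) ^ 4 := by positivity
    generalize (2 * S.p.R + 3 : ℝ) ^ 4 = M at *
    have a1 : 16 * M * S.β / (S.β / 4) = 64 * M := by field_simp; norm_num
    have a2 : 16 * M * S.β / (S.β / 2) = 32 * M := by field_simp; norm_num
    have a3 : S.β / 4 * S.p.ε ^ 2 / (64 * M) ≤ S.β / 2 * S.p.ε ^ 2 / (64 * M) := by
      gcongr; norm_num
    linarith

theorem init_x {v : ℝ} (hm : S.m = v • m0) (hT : S.T = fun B => v * TW B)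
    (lt : ∀ x, Ltt d (F.2.1 x) (F.2.2 x)) {U : Conf} (hU : Per S.nf U) :
    wil (v * S.β) S.nf U * Complex.exp (-xO S.nf F U) =
      Rep S.p S.nf (S.Φ (xP F)) (xK S.p S.nf (v * S.β) F) U := by
  rw [← xw_prod]
  refine KI_rep h.ok.odd_nf hU fun x hx => ?_
  have e : ∀ μ ν, wp μ ν (Bx x (cC U)) = _ := fun μ ν => wp_chart (fun y hy μ ν => by
    rw [add_comm, ← Mx.fq_sh]; exact hx y (box_mono (by omega) hy) μ ν)
    (by linarith [h.ε_small, h.ε0])
  have h3 : Bx x (cC U) = Bx 0 (cC (sh x U)) := by rw [SX.cC_sh, Bx_sh, zero_add]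
  have h4 : 10 ^ 10 * (d + 1 : ℝ) ^ 4 * S.p.ε ≤ 1 := by
    have d1 : (d : ℝ) ≤ S.p.R := by exact_mod_cast hd
    have d0 : (0 : ℝ) ≤ d := Nat.cast_nonneg d
    have d2 : (d + 1 : ℝ) ^ 4 ≤ (4 * S.p.R + 9) ^ 4 := pow_le_pow_left₀ (by linarith) (by linarith) 4
    have Q0 := S.Q0
    have g0 := h.ok.g0
    calc _ ≤ S.Q * S.Q * (S.Q * S.Q ^ 2 * S.g) := by
          refine mul_le_mul (mul_le_mul (h.cQ' (by norm_num)) ?_ (by positivity) Q0.le)
            (h.ε_le.trans ?_) h.ε0.le (by positivity)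
          · linarith [h.vol_R, pow_nonneg (by linarith : 0 ≤ (d + 1 : ℝ)) 4]
          · gcongr; exact h.r_le_Q
      _ = S.Q ^ 0 * (S.Q ^ 5 * S.g) := by ring
      _ ≤ 1 := h.ok.Qg_le (by norm_num)
  rw [Sd.Φ, hm, hT, cx_smul, ← mul_add, ← wp_sum, xw, ww, xP, Pi.add_apply, Pi.add_apply, sL,
    (lt x).chart _ _ (hx.mono (by omega) le_rfl) h4, ← h3, ← Complex.exp_add]
  simp only [← e, add_mul, sum_add_distrib, ← mul_sum]
  congr 1
  push_cast
  ring

end act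

/-- the smeared local source -/
def gS (c : Fin 4 → Fin 4 → ℂ) (X : Conf → ℂ) (χ : Fld → ℂ) (F : St → ℂ) : Sx :=
  (fun x => F x • c, fun x => F x • X, fun x => F x • χ)

theorem lop_gS {c : Fin 4 → Fin 4 → ℂ} {X : Conf → ℂ} {χ : Fld → ℂ} {β E : ℝ} (h : S.Nu 100)
    (hd : d ≤ S.p.R) (hβ : 3 / 4 * S.β ≤ β) (hX : Ltt d X χ) (E0 : 0 < E) (A0 : 0 ≤ A)
    (hc : ∀ μ ν, ‖c μ ν‖ ≤ E * (S.β / 4)) (hM : ∀ U, ‖X U‖ ≤ E)
    (hk : 2 * E * S.g ^ 31 ≤ ω * A * g ^ 2) (Q0 : 0 ≤ Q)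
    (hP : PM S.p A (Q ^ 2 * A) (Q ^ 50 * ω * A * g ^ 2) (sL (fun _ => c) + fun _ => χ)) :
    Lop S.p S.nf 1 0 Q g ω A fun F => (xP (gS c X χ F), xS S.p S.nf β (gS c X χ F)) := by
  have hn := h.ok.odd_nf
  have β0 := h.ok.β0
  have g0 := h.ok.g0
  have e1 : ∀ F x, xP (gS c X χ F) x = F x • (sL (fun _ => c) + fun _ => χ : Lx) x :=
    fun F x => funext fun B => by simp [xP, gS, sL, mul_add, mul_sum, mul_assoc]
  have e2 : ∀ F F' (t : ℂ), gS c X χ (F + t • F') = gS c X χ F + t • gS c X χ F' := fun F F' t => by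
    ext <;> simp [gS, add_mul, mul_assoc]
  have e3 : ∀ {F F' : St → ℂ} {y}, (∀ x, nearT (1 * S.nf) (1 * 0) (((1 : ℕ) : ℤ) • y) x → F x = F' x) →
      F y = F' y := fun a => a _ (by simpa using nearT.refl _ _ _)
  have e4 : ∀ {F : St → ℂ}, PS (1 * S.nf) F → ∀ x, F (rc S.nf x) = F x := fun a x => by
    obtain ⟨w, hw⟩ := rc_exists S.nf x
    rw [one_mul] at a
    rw [hw, a]
  refine ⟨fun F F' t _ _ => by rw [e2, xP_add, xP_smul, xS_add, xS_smul]; rfl,
    fun F F' y _ _ a => by simp only [e1, e3 a], fun F F' Y _ _ a => funext fun c => ?_,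
    ⟨(2 * E) • kI S.p S.nf (S.β / 4), ((kN_q (kI_up h)).smul (by positivity)).mono hk, fun F _ hF =>
      ⟨fun x => ?_, ?_⟩⟩, fun F v hF => ⟨funext fun x => ?_, fun o ho => ?_⟩⟩
  · exact funext fun U => congrArg (deriv · 0) <| funext fun t => congrFun (xK_loc hn
      (fun y hy _ => by simp only [gS, Prod.smul_fst, Prod.smul_snd, Pi.smul_apply, e3 (a y hy),
        and_self]) c) U
  · have q := pm_smul (rho_pos h) hP (F x) x
    have z : 0 ≤ Q ^ 50 * ω * A * g ^ 2 := by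
      rw [mul_assoc, mul_assoc, ← mul_assoc ω]
      exact mul_nonneg (by positivity) (le_trans (by positivity) hk)
    simp only [e1]
    exact ⟨q.1.mono' (rho_pos h) (mul_le_of_le_one_left A0 (hF x))
      (mul_le_of_le_one_left (by positivity) (hF x)) (mul_le_of_le_one_left z (hF x)), q.2⟩
  · refine (km_schwarz (F := fun t => xK S.p S.nf β (t • gS c X χ F)) E0 (fun t ht => ?_)
      fun Y c U => (xK_diff (fun x μ ν => ?_) (fun x U => ?_) Y c U).differentiableOn).1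
    · rw [mem_ball_zero_iff] at ht
      refine xK_km h hd hβ (fun x μ ν => ?_) (fun x => (hX.smul _).smul t) fun x U => ?_
      · refine (norm_mul_le_of_le ht.le (norm_mul_le_of_le (hF x) (hc μ ν))).trans_eq ?_
        field_simp
      · refine (norm_mul_le_of_le ht.le (norm_mul_le_of_le (hF x) (hM U))).trans_eq ?_
        field_simp
    · simp only [Prod.smul_fst, Pi.smul_apply]; fun_prop
    · simp only [Prod.smul_fst, Prod.smul_snd, Pi.smul_apply]; fun_prop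
  · simp only [trL, e1, e4 hF, Nat.cast_one, one_smul]
    rfl
  · exact funext fun U => congrArg (deriv · 0) <| funext fun t => congrFun (xK_tr
      (F := t • gS c X χ F) hn v (fun y => by
        simp only [gS, Prod.smul_fst, Prod.smul_snd, Pi.smul_apply, e4 hF, Nat.cast_one, one_smul,
          and_self]) ho) U

theorem lS_eq (X : Conf → ℂ) (χ : Fld → ℂ) : lS X χ = gS 0 X χ := funext fun F => by
  ext <;> simp [lS, gS]

theorem pS_eq (c : Fin 4 → Fin 4 → ℂ) : pS c = gS c 0 0 := funext fun F => by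
  ext <;> simp [pS, gS]

/-! ### Families -/

section fam

variable {ι : Type} [DecidableEq ι] {B T : Finset ι} {i : ι} {V : Type} [AddCommMonoid V]
  [Module ℂ V] {H : ι → V}

theorem lin_single (hi : i ∈ B) (t : ℂ) :
    ∑ j ∈ B, (Pi.single i t : ι → ℂ) j • H j = t • H i := by
  rw [sum_eq_single_of_mem i hi fun j _ e => by rw [Pi.single_eq_of_ne e, zero_smul],
    Pi.single_eq_same]

theorem lin_ind (h : H i = 0) : Ind i fun s => ∑ j ∈ B, s j • H j := fun s t =>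
  sum_congr rfl fun j _ => by
    by_cases e : j = i
    · rw [e, h, smul_zero, smul_zero]
    · rw [Function.update_of_ne e]

theorem lin_diff (s H : ι → ℂ) (i : ι) :
    Differentiable ℂ fun t => ∑ j ∈ B, Function.update s i t j • H j :=
  .fun_sum fun j _ => .mul_const (by
    by_cases e : j = i
    · simpa only [e, Function.update_self] using differentiable_fun_id
    · simpa only [Function.update_of_ne e] using differentiable_const _) _

theorem jL_lin {H : ι → Lx} (hT : T ⊆ B) :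
    jL T (fun s => ∑ i ∈ B, s i • H i) = if T.card = 1 then ∑ i ∈ T, H i else 0 := by
  simp only [lin_eq_ma]
  exact jL_ma _ hT

omit [DecidableEq ι] in
theorem sx_app (s : ι → ℂ) (H : ι → Sx) (x : St) :
    (∑ i ∈ B, s i • H i).1 x = ∑ i ∈ B, s i • (H i).1 x ∧
      (∑ i ∈ B, s i • H i).2.1 x = ∑ i ∈ B, s i • (H i).2.1 x := by
  simp only [Prod.fst_sum, Prod.snd_sum, Finset.sum_apply, Prod.smul_fst, Prod.smul_snd,
    Pi.smul_apply, and_self]

end fam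

namespace Gl

variable {G : Gl} {ι κ : Type} [DecidableEq ι] [DecidableEq κ] {B : Finset ι} {H : ι → Sx}
  {W : ι → Finset St} {b δ M : ℝ} {I k m c : ℕ} {r : ι → ℝ} {cl : ι → κ} {X : Conf → ℂ}
  {χ : Fld → ℂ} {F1 F2 : Sx}

theorem xf_top : G.xf B H b I I =
    fun s U => wil b (G.N I) U * Complex.exp (-xO (G.N I) (∑ i ∈ B, s i • H i) U) :=
  funext fun _ => tt_top _ _

theorem xf_step (h : k < I) :
    G.xf B H b I k = fun s => TT (G.l k) (G.a k) (G.N k) (G.xf B H b I (k + 1) s) :=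
  funext fun _ => tt_step _ h

theorem xt_bs : (G.xt B H W b I).bs = ((G.zz b I I).ψ, (G.zz b I I).K) := by
  rw [zz_top]
  simp only [Fy.bs, xt, trK_zero, Pi.zero_apply, zero_smul, sum_const_zero, xP_zero]
  exact Prod.ext rfl ((xK_pl 0).trans sK_zero)

theorem xt_ec : (G.xt B H W b I).Ec B cl := fun T _ _ _ _ _ _ => jd_zero T

theorem xv_pl (F : Sr) : G.xv b I (F, 0, 0) = (sL F, Pos.dS (G.p I) (G.N I) b F) := by
  simp only [xv, xP, xS, Pos.dS, Prod.smul_mk, smul_zero, xK_pl, add_zero]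

theorem xt_jt {x : ι} (hx : x ∈ B) : (G.xt B H W b I).jt {x} = G.xv b I (H x) := by
  have e := singleton_subset_iff.2 hx
  simp only [Fy.jt, xt, xv, xP_sum, jL_lin e, jA_trK e, jA_single, lin_single hx, xS,
    card_singleton, if_true, sum_singleton]

theorem xv_add (t : ℂ) : G.xv b I (F1 + t • F2) = G.xv b I F1 + t • G.xv b I F2 := by
  simp only [xv, xP_add, xP_smul, xS_add, xS_smul, Prod.smul_mk, Prod.mk_add_mk]

namespace Ok

variable (h : G.Ok) (hb : |b / G.bb I - 1| ≤ 10⁻¹) (hd : d ≤ (G.p I).R)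
include h hb hd

omit hd in
theorem b34 : 3 / 4 * G.bb I ≤ b := by
  have := (abs_le.1 hb).1
  rw [← le_div_iff₀ (h.b0 I)]
  linarith

theorem xf_zero : ∀ k ≤ I, G.xf B H b I k 0 = G.f b I k :=
  have _ := hb
  have _ := hd
  dw_ind (by rw [xf_top, f_top]; ext; simp [xO, sO]) fun k hk ih => by
    rw [xf_step hk, h.f_step b hk, ← ih]

theorem xv_lin {a' M' : ℝ} (h1 : F1.Ok (G.p I) d a M) (h2 : F2.Ok (G.p I) d a' M') (t : ℂ) :
    G.xv b I (F1 + t • F2) = G.xv b I F1 + t • G.xv b I F2 :=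
  have _ := And.intro h (And.intro hb (And.intro hd (And.intro h1 h2)))
  xv_add t

theorem fam_top_x (hr : ∀ x, 0 < r x)
    (hF : ∀ s ∈ Pd r, (∑ i ∈ B, s i • H i : Sx).Ok (G.p I) d (G.bb I / 4) 1)
    (hZ : ∀ a x, rc (G.N I) x ∉ W a → (H a).1 x = 0 ∧ (H a).2.1 x = 0 ∧ (H a).2.2 x = 0)
    (h1 : ∀ i ∈ B, ∃ a M, (H i).Ok (G.p I) d a M)
    (hc : Cls (G.N I) δ B cl W) (hδ : (m + 2 : ℝ) * (G.p I).D ≤ δ)
    (hk : ∀ a, (B.filter (cl · = a)).card ≤ c) (hρ : c ≤ m) :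
    G.Fd I (G.top b I) B r r (2 ^ c * G.g I ^ 29) (G.xt B H W b I) (G.xf B H b I I) ∧
      ∀ x ∈ B, (G.xt B H W b I).jt {x} = G.xv b I (H x) := by
  refine ⟨?_, fun _ => xt_jt⟩
  have nu := (h.sl_all I (G.top b I)).nu
  have n := h.sl_nf I (G.top b I)
  have hn := h.N_odd I
  have b0 := h.b0 I
  have g0 := h.g0 I
  have ρ0 := h.ρ0 I
  have e : b / G.bb I * G.bb I = b := div_mul_cancel₀ _ b0.ne'
  have d1 : ∀ s i x μ ν, Differentiable ℂ fun t =>
      (∑ j ∈ B, Function.update s i t j • H j).1 x μ ν := fun s i x μ ν => by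
    simp only [Prod.fst_sum, Finset.sum_apply]
    exact lin_diff s (fun j => (H j).1 x μ ν) i
  have d2 : ∀ s i x U, Differentiable ℂ fun t =>
      (∑ j ∈ B, Function.update s i t j • H j).2.1 x U := fun s i x U => by
    simp only [Prod.fst_sum, Prod.snd_sum, Finset.sum_apply]
    exact lin_diff s (fun j => (H j).2.1 x U) i
  have fa : FA r (G.p I) (G.N I) (kI (G.p I) (G.N I) (G.bb I / 4)) fun s =>
      xK (G.p I) (G.N I) b (∑ i ∈ B, s i • H i) :=
    ⟨hr, fun s _ i X c U => (xK_diff (d1 s i) (d2 s i) X c U).differentiableOn, fun s hs =>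
      n ▸ xK_km nu hd (h.b34 hb) (hF s hs).pl (hF s hs).lt (hF s hs).bd⟩
  have lc : Loc (G.N I) W (fun s => xP (∑ i ∈ B, s i • H i)) fun s =>
      xK (G.p I) (G.N I) b (∑ i ∈ B, s i • H i) := by
    refine ⟨fun i x hx => ?_, fun i X c hX s t => xK_loc hn (fun y hy e => ?_) c⟩
    · simp only [xP_sum, Finset.sum_apply, Pi.smul_apply]
      exact lin_ind (funext fun B => by simp [xP, sL, hZ i x hx])
    · have z := hZ i y fun a => disjoint_left.1 hX (e ▸ a) hy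
      simp only [sx_app]
      exact ⟨lin_ind (H := fun j => (H j).1 y) z.1 s t, lin_ind (H := fun j => (H j).2.1 y) z.2.1 s t⟩
  have D1 : 1 ≤ (G.p I).D := Nat.mul_pos (by norm_num) (Nat.pow_pos (by have := h.L_big I; omega))
  obtain ⟨b1, b2⟩ := fa_trK fa lc (n ▸ kI_up nu) D1 hc hδ hk
    zero_le_one (by exact_mod_cast (mul_one c).trans_le hρ) hr fun _ => (one_mul _).ge
  have a : Fi (G.p I) (G.N I) B W r (2 ^ c * G.g I ^ 31) (fun s => xP (∑ i ∈ B, s i • H i))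
      (trK B fun s => xK (G.p I) (G.N I) b (∑ i ∈ B, s i • H i)) := by
    refine ⟨hr, funext fun s => ?_, ma_congr fun T hT => (jA_trK hT).symm, fun T hT => ?_, b1,
      one_add_one_eq_two (R := ℝ) ▸ b2⟩
    · simp only [xP_sum]
      rw [ma_congr fun T hT => jL_lin hT, lin_eq_ma]
    · simp only [xP_sum]
      rw [jL_lin hT]
      split_ifs with e
      · obtain ⟨i, rfl⟩ := card_eq_one.1 e
        obtain ⟨_, _, u⟩ := h1 i (singleton_subset_iff.1 hT)
        obtain ⟨_, _, _, u'⟩ := u.pm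
        rw [sum_singleton]
        exact ⟨_, pu_of_pm (PM.add ρ0 (sL_sz nu u.pl) u').1⟩
      · exact ⟨_, pu_of_pm (pm_zero ρ0)⟩
  refine ⟨a.mono hr (fun _ => le_rfl) (mul_le_mul_of_nonneg_left (pow_le_pow_of_le_one g0.le (h.g1 I)
    (by norm_num)) (by positivity)) fun _ => Subset.rfl, by ext; simp [xt, ma, jd_zero], ?_⟩
  have fl := a.fl.add (nu.lo_Φ (h.tok_sl (h.gd_top hb).tz) (pm_zero ρ0).lo)
  simp only [Sd.Φ, Pi.zero_apply, add_zero] at fl
  have hD : HD r (G.xf B H b I I) := by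
    simp only [xf_top, ← xw_prod]
    exact HD.prod hr fun x _ => ⟨⟨exp 1, fun U => ⟨hr, fun s _ i =>
      (xw_diff (d1 s i) (d2 s i) x U).differentiableOn, fun s hs => (xw_le (b0 := 0) le_rfl
        (by linarith [h.b34 hb]) (hF s hs).pl (hF s hs).bd x U).trans (by simp)⟩⟩,
      fun s hs => xw_meas ((hF s hs).lt x).meas⟩
  simp only [xt, Pi.zero_apply, Complex.exp_zero, one_mul]
  refine ((rep_trK (A := B) nu.p_ok.1 (sqrt_nonneg _) fl fa).symm.congr hD fun s hs U hU => ?_).symm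
  have := init_x nu hd (v := b / G.bb I) rfl rfl (hF s hs).lt (n ▸ hU)
  rw [n, show b / G.bb I * (G.sl I (G.top b I)).β = b from e] at this
  rw [xf_top]
  exact this.symm

theorem lop_lS' (hX : Ltt d X χ) (M0 : 0 < M) (hM : ∀ U, ‖X U‖ ≤ M) (A0 : 0 ≤ A)
    (hA : M * G.g I ^ 21 ≤ ω * A)
    (hχ : PM (G.p I) A (G.Q I ^ 2 * A) (G.Q I ^ 50 * ω * A * G.g I ^ 2) fun _ => χ) :
    G.Lop I I 0 ω A fun F => G.xv b I (lS X χ F) := by
  have nu := (h.sl_all I (G.top b I)).nu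
  have g0 := h.g0 I
  have b0 := h.b0 I
  have := lop_gS (c := 0) (β := b) (ω := ω) nu hd (h.b34 hb) hX M0 A0 (fun _ _ => by
    change ‖(0 : ℂ)‖ ≤ M * (G.bb I / 4)
    rw [norm_zero]
    positivity) hM (g := G.g I) ?_ (h.Q0 I).le (by
      rw [show sL (fun _ => 0) = 0 from sL_zero, zero_add]; exact hχ)
  · rw [h.sl_nf] at this
    rw [Lop, rt_top, lS_eq]
    exact this
  · have a1 := h.Qg I
    have a2 : 2 ≤ G.Q I ^ 2000 := (h.cQ I (by norm_num)).trans (le_self_pow₀ (h.Q1 I) (by norm_num))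
    have a3 : G.g I ^ 8 ≤ G.g I := pow_le_of_le_one g0.le (h.g1 I) (by norm_num)
    calc _ = M * G.g I ^ 21 * (2 * G.g I ^ 8) * G.g I ^ 2 := by change _ * G.g I ^ 31 = _; ring
      _ ≤ M * G.g I ^ 21 * 1 * G.g I ^ 2 := by gcongr; nlinarith
      _ ≤ _ := by rw [mul_one]; gcongr

theorem lop_lS (hX : Ltt d X χ) (M0 : 0 < M) (hM : ∀ U, ‖X U‖ ≤ M) (ω1 : √(G.g I) ≤ ω)
    (hA : M * G.g I ^ 20 ≤ A)
    (hχ : PM (G.p I) A (G.Q I ^ 2 * A) (G.Q I ^ 50 * ω * A * G.g I ^ 2) fun _ => χ) :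
    G.Lop I I 0 ω A fun F => G.xv b I (lS X χ F) := by
  have g0 := h.g0 I
  have c : G.g I ≤ √(G.g I) := le_sqrt_of_sq_le (by nlinarith [h.g1 I])
  refine h.lop_lS' hb hd hX M0 hM (le_trans (by positivity) hA) ?_ hχ
  rw [pow_succ, ← mul_assoc, mul_comm ω]
  exact mul_le_mul hA (c.trans ω1) g0.le (le_trans (by positivity) hA)

omit hd in
theorem lop_pS {w : Fin 4 → Fin 4 → ℂ} (hw : ∀ μ ν, ‖w μ ν‖ ≤ 1) (ω1 : √(G.g I) ≤ ω) :
    G.Lop I I 0 ω (10 ^ 37) fun F => G.xv b I (pS w F) := by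
  have nu := (h.sl_all I (G.top b I)).nu
  have g0 := h.g0 I
  have b0 := h.b0 I
  have q0 := h.Q0 I
  have s0 := sqrt_nonneg (G.g I)
  have := lop_gS (c := w) (β := b) (ω := ω) (A := 10 ^ 37) (E := 4 / G.bb I) nu (Nat.zero_le _)
    (h.b34 hb) .zero (by positivity) (by norm_num) (fun μ ν => (hw μ ν).trans_eq (by
      change 1 = 4 / G.bb I * (G.bb I / 4)
      field_simp)) (fun _ => by rw [Pi.zero_apply, norm_zero]; positivity) (g := G.g I) ?_ q0.le ?_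
  · rw [h.sl_nf] at this
    rw [Lop, rt_top, pS_eq]
    exact this
  · have t : G.Q I * (8 / G.bb I * G.g I ^ 31) ≤ √(G.g I) * G.g I ^ 2 := tiny nu
    calc _ = 1 * (8 / G.bb I * G.g I ^ 31) := by change _ * G.g I ^ 31 = _; ring
      _ ≤ _ := mul_le_mul_of_nonneg_right (h.Q1 I) (by positivity)
      _ ≤ _ := t
      _ ≤ _ := by gcongr; nlinarith
  · rw [show (fun _ => 0 : Lx) = 0 from rfl, add_zero]
    refine PM.mono (rho_pos nu) (sL_sz nu (A := 1) fun _ => hw) (mul_one _).le ?_ ?_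
    · change G.Q I ^ 2 * 1 ≤ _
      gcongr; norm_num
    · change G.Q I ^ 50 * √(G.g I) * 1 * G.g I ^ 2 ≤ _
      have := s0.trans ω1
      gcongr; norm_num

end Ok

/-- letters as local maps -/
theorem lop_let {X : Wd.Let} (hX : Wd.Rad d X) : ∃ C > 0, ∀ (G : Gl) (b : ℝ) (I : ℕ) (ω : ℝ), G.Ok →
    |b / G.bb I - 1| ≤ 10⁻¹ → d ≤ (G.p I).R → C ≤ G.Q I → √(G.g I) ≤ ω →
    G.Lop I I 0 ω C (fun F => G.xv b I (lS (Wd.evG X) (Wd.lx X) F)) ∧ (Wd.sig X = 0 →
      G.Lop I I 0 ω (C * G.g I / ω) fun F => G.xv b I (lS (Wd.evG X) (Wd.lx X) F)) := by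
  obtain ⟨ρ0, r0, h1⟩ := Wd.lx_ps hX
  obtain ⟨C, C0, h1⟩ := h1 6
  obtain ⟨M, hM⟩ := Wd.evG_bd X
  have M0 := (norm_nonneg _).trans (hM 1)
  have r1 := inv_pos.2 r0
  obtain ⟨E, hE⟩ : ∃ E, E = C + M + ρ0⁻¹ := ⟨_, rfl⟩
  have E0 : 0 < E := by rw [hE]; positivity
  refine ⟨E, E0, fun G b I ω h hb hd hC ω1 => ?_⟩
  have g0 := h.g0 I
  have g1 := h.g1 I
  have q1 := h.Q1 I
  have q0 := h.Q0 I
  have c : G.g I ≤ ω := (le_sqrt_of_sq_le (by nlinarith)).trans ω1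
  have ω0 := g0.trans_le c
  have e : (G.p I).ρ = G.Q I ^ 3 * G.g I := rfl
  have CE : C ≤ E := by linarith
  obtain ⟨a1, a2⟩ := h1 _ hd _ (h.ρ0 I) (by
    have a := (mul_le_mul_of_nonneg_right (pow_le_pow_right₀ q1 (show 4 ≤ 2000 by norm_num))
      g0.le).trans (h.Qg I)
    have a' : ρ0⁻¹ ≤ G.Q I := by linarith
    rw [inv_le_iff_one_le_mul₀ r0] at a'
    rw [e]
    refine le_of_mul_le_mul_left ?_ q0
    calc _ = G.Q I ^ 4 * G.g I := by ring
      _ ≤ _ := a.trans a')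
  have a3 : C * (G.p I).ρ ^ 3 ≤ G.Q I ^ 50 * (E * G.g I) * G.g I ^ 2 := by
    calc _ = G.Q I ^ 9 * (C * G.g I) * G.g I ^ 2 := by rw [e]; ring
      _ ≤ _ := by gcongr; norm_num
  have a4 : E * G.g I ^ 21 ≤ E * G.g I :=
    mul_le_mul_of_nonneg_left (pow_le_of_le_one g0.le g1 (by norm_num)) E0.le
  have hM' : ∀ U, ‖Wd.evG X U‖ ≤ E := fun U => (hM U).trans (by linarith)
  refine ⟨h.lop_lS' hb hd (ltt_ev hX) E0 hM' E0.le (a4.trans (by nlinarith)) fun _ =>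
    ⟨a1.mono' (h.ρ0 I) CE (CE.trans (le_mul_of_one_le_left E0.le (one_le_pow₀ q1)))
      (a3.trans ?_), Wd.lx_meas X⟩, fun z => h.lop_lS' hb hd (ltt_ev hX) E0 hM' (by positivity)
        (a4.trans_eq (by field_simp)) fun _ => ⟨(a2 z).mono' (h.ρ0 I) (by positivity) (by positivity)
          (a3.trans_eq (by field_simp)), Wd.lx_meas X⟩⟩
  rw [mul_assoc _ ω, mul_comm ω]
  gcongr

end Gl

end En

end Pool.Agent.Lib.MP_7f377f_mp.RG.Q4
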