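import Pool.Agent.Lib.MP_7f377f_mp.G.MgG
import Pool.Agent.Lib.MP_7f377f_mp.G.StV6

/-! Insertion of local factors into a polymer representation. -/

noncomputable section

open Pool.Agent.Lib.MP_7f377f_mp.Jet

set_option linter.unusedSectionVars false
variable [Pool.Agent.Lib.MP_7f377f_mp.GD]

namespace Pool.Agent.Lib.MP_7f377f_mp.RG.Q4.En.Mg

open Finset Function Sg Real Pos
open scoped Classical

attribute [local irreducible] box lbox tb tau rc

/-- one word at each site -/
def wS (p : Pa) (n : ℕ) : Wd St Unit St :=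
  ⟨univ, box (n / 2), fun _ => ∅, fun _ => (), singleton, fun y => tb n (p.R + 3) {y}⟩

/-- polymers with factors at sites of their cores -/
def gw (K : Finset St → Finset (Finset St) → ℂ) (h : St → ℂ) (O : Finset (LP St ⊕ St)) : ℂ :=
  if PD O ∧ O.toRight ⊆ (lb O).biUnion id then
    (∏ o ∈ O.toLeft, K o.1 o.2) * ∏ y ∈ O.toRight, h y else 0

/-- the clusters whose number of factors satisfies `P` -/
def iP (p : Pa) (n : ℕ) (P : ℕ → Prop) (K : Ac) (h : St → Conf → ℂ) : Ac := fun X c U =>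
  ∑ O ∈ (cs (wS p n) (box (n / 2)) X c).filter (P ·.toRight.card), gw (K · · U) (h · U) O

/-- their majorant -/
def kP (p : Pa) (n : ℕ) (P : ℕ → Prop) (k : Mj) (v : ℝ) : Mj := fun X c =>
  ∑ O ∈ (cs (wS p n) (box (n / 2)) X c).filter (P ·.toRight.card),
    if O.toLeft.Nonempty then pw k (fun _ => v) O else 0

variable {p : Pa} {n : ℕ} {P : ℕ → Prop} {K K' : Ac} {h h' : St → Conf → ℂ} {k : Mj}
  {X : Finset St} {c : Finset (Finset St)} {U U' : Conf} {O : Finset (LP St ⊕ St)}
  {v δ θ θ1 θ' : ℝ}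

theorem self_tb (hn : Odd n) {y : St} (hy : y ∈ box (n / 2)) (R : ℕ) : y ∈ tb n R {y} :=
  mem_tb_single.2 ⟨rc_eq hn hy, nearT.refl _ _ _⟩

theorem wS_ok (hn : Odd n) : (wS p n).Ok (box (n / 2)) :=
  ⟨fun y hy => ⟨singleton_subset_iff.2 (self_tb hn hy _), ⟨y, self_tb hn hy _⟩, tb_dom hn⟩,
    fun _ _ => disjoint_empty_left _, fun _ _ _ _ _ => disjoint_empty_left _, fun _ _ => mem_univ _⟩

theorem mem_iP : O ∈ (cs (wS p n) (box (n / 2)) X c).filter (P ·.toRight.card) ↔
    O ⊆ (wS p n).obs (box (n / 2)) ∧ Conn (wS p n).sp O ∧ us (wS p n).sp O = X ∧ lb O = c ∧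
      P O.toRight.card := by
  simp only [cs, mem_filter, mem_clus, and_assoc]

theorem gw_gam (κ : Finset St → Finset (Finset St) → ℂ) (η : St → ℂ) :
    gam (wS p n) (fun _ => κ) (fun _ _ => 0) (fun y _ => η y) O 0 = gw κ η O := by
  rw [gam, gw, show O.toRight.biUnion (wS p n).Z0 = O.toRight from biUnion_singleton_eq_self,
    prod_const, zero_pow_eq]
  simp only [card_eq_zero, sdiff_eq_empty_iff_subset]
  by_cases a : PD O <;> by_cases b : O.toRight ⊆ (lb O).biUnion id <;> simp [a, b]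

theorem ZL_congr {Λ : Finset St} {κ κ' : Finset St → Finset (Finset St) → ℂ} (I : St → ℂ)
    (e : ∀ o ∈ lps Λ, κ o.1 o.2 = κ' o.1 o.2) : ZL Λ κ I = ZL Λ κ' I :=
  Zp_congr (fun X a b => sum_congr rfl fun c d => by rw [e ⟨X, c⟩ (mem_lps.2 ⟨a, b, d⟩)])
    fun _ _ => rfl

/-- the factors at the sites outside the cores go to the local terms -/
theorem iP_exact (hn : Odd n) {I I' : St → ℂ} (hI : ∀ y ∈ box (n / 2), I' y = (1 + h y U) * I y) :
    ZL (box (n / 2)) (fun X c => (K + iP p n (· ≠ 0) K h) X c U) I' =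
      (∏ y ∈ box (n / 2), (1 + h y U)) * ZL (box (n / 2)) (K · · U) I := by
  have g := wS_ok (p := p) hn
  rw [ZL_congr (κ' := fun X c => ∑ O ∈ cs (wS p n) (box (n / 2)) X c, gw (K · · U) (h · U) O) I'
    fun o ho => ?_]
  · simp only [cs]
    rw [← factorL (wS p n).sp ((wS p n).obs _) _ (sp_ok g) (gw (K · · U) (h · U))
      (by simp [gw, PD, show (∅ : Finset (LP St ⊕ St)).toRight = ∅ from rfl,
        show (∅ : Finset (LP St ⊕ St)).toLeft = ∅ from rfl])
      (fun O a O' a' d => by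
        simp only [← gw_gam (p := p) (n := n)]; exact congrFun (gam_union g a a' d) 0) lb
      (fun O _ O' _ _ => by rw [lb_union, union_biUnion]) (fun O a => lb_sub a)
      (fun O a _ b => lb_fams a (by_contra fun e => b (if_neg fun u => e u.1))), Wd.obs,
      Xp.sum_pow, ZL, Zp_labels _ fams (fun c => c.biUnion id) fun _ _ => fams_sub, mul_sum]
    refine sum_congr rfl fun a ha => ?_
    have z : a.biUnion (·.2.biUnion id) ⊆ box (n / 2) := biUnion_subset.2 fun o ho =>
      have := mem_lps.1 (mem_powerset.1 ha ho)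
      (fams_sub this.2.2).trans this.1
    simp only [gw, PD, lb, toLeft_disjSum, toRight_disjSum, biUnion_biUnion, ← sum_mul]
    split_ifs with e
    · simp only [e, true_and, ← sum_filter, ← mul_sum]
      rw [show (wS p n).Om.powerset.filter (· ⊆ a.biUnion (·.2.biUnion id)) =
        (a.biUnion (·.2.biUnion id)).powerset from Finset.ext fun t => by
          simp only [mem_filter, mem_powerset]; exact ⟨And.right, fun u => ⟨u.trans z, u⟩⟩,
        ← prod_one_add, prod_congr rfl fun y hy => hI y (mem_sdiff.1 hy).1, prod_mul_distrib,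
        ← prod_sdiff z]
      ring
    · simp [e]
  · rw [← sum_filter_add_sum_filter_not _ (·.toRight = ∅), Pi.add_apply, Pi.add_apply,
      Pi.add_apply, iP]
    simp only [card_ne_zero, nonempty_iff_ne_empty]
    congr 1
    rw [← KN_empty (p := p) (D := wS p n) (ψ := 0) (K := fun _ => K) (η := 0) (s := 0) ho]
    exact sum_congr rfl fun O hO => by simp [gA, gam, gw, (mem_filter.1 hO).2]

theorem iP_congr (hn : Odd n) (e : ∀ Y ⊆ X, ∀ c, K Y c U = K' Y c U')
    (e' : ∀ y ∈ box (n / 2), y ∈ X → h y U = h' y U') :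
    iP p n P K h X c U = iP p n P K' h' X c U' := sum_congr rfl fun O hO => by
  obtain ⟨a1, -, rfl, -⟩ := mem_iP.1 hO
  rw [gw, gw, prod_congr rfl fun o ho => e _ (left_sub ho) _, prod_congr rfl fun y hy =>
    e' y (right_mem a1 hy) (right_sub hy (self_tb hn (right_mem a1 hy) _))]

theorem kP_nn (k0 : ∀ X c, 0 ≤ k X c) (v0 : 0 ≤ v) : 0 ≤ kP p n P k v X c :=
  sum_nonneg fun O _ => ite_nonneg (pw_nn k0 (fun _ => v0) O) le_rfl

theorem km_iP (hl : 0 ≤ p.lam) (hP : ¬ P 0) (k0 : ∀ X c, 0 ≤ k X c) (hK : KM p n k K)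
    (hh : ∀ y, LF n (tb n (p.R + 3) {y}) (h y)) (hv : ∀ y U, ‖h y U‖ ≤ v) :
    KM p n (kP p n P k v) (iP p n P K h) := by
  have v0 := (norm_nonneg _).trans (hv 0 1)
  refine km_lf (fun X c => .sum fun O hO => ?_) fun X c U hU => ?_
  · obtain ⟨-, -, rfl, -⟩ := mem_iP.1 hO
    unfold gw
    split_ifs
    exacts [.mul (.prod fun o ho => (lf_km hK _ _).mono (left_sub ho))
      (.prod fun y hy => (hh y).mono (right_sub (D := wS p n) hy)), .const 0]
  · rw [kP, sum_mul]
    refine norm_sum_le_of_le _ fun O hO => ?_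
    obtain ⟨-, -, -, rfl, a⟩ := mem_iP.1 hO
    rw [gw]
    split_ifs with e e'
    · rw [pw, mul_right_comm]
      refine norm_mul_le_of_le ?_ ((Finset.norm_prod_le _ _).trans
        (prod_le_prod (fun _ _ => norm_nonneg _) fun y _ => hv y U))
      refine (Finset.norm_prod_le _ _).trans ((prod_le_prod (fun _ _ => norm_nonneg _) fun o _ =>
        hK.bd o.1 o.2 U hU).trans ?_)
      rw [prod_mul_distrib, ← exp_sum, sum_neg_distrib, ← mul_sum]
      exact mul_le_mul_of_nonneg_left (exp_le_exp.2 (neg_le_neg (mul_le_mul_of_nonneg_left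
        (sum_bi _ _ fun _ => sum_nonneg fun _ _ => fs_nonneg _ _) hl)))
        (prod_nonneg fun _ _ => k0 _ _)
    · obtain ⟨y, hy⟩ := card_ne_zero.1 fun u : O.toRight.card = 0 => hP (u ▸ a)
      obtain ⟨C, hC, -⟩ := mem_biUnion.1 (e.2 hy)
      obtain ⟨o, ho, -⟩ := mem_biUnion.1 hC
      exact (e' ⟨o, ho⟩).elim
    · rw [norm_zero]
      exact mul_nonneg (pw_nn k0 (fun _ => v0) O) (exp_pos _).le
    · simp

/-- the norm is of first order in the polymers and in the factors -/
theorem kN_kP (hp : Ps0 p) (hn : Odd n) (hR : p.R + 3 ≤ p.D) (δ0 : 0 < δ)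
    (hk : kN (p.ad δ) n k θ) (θ0 : 0 < θ) (h1 : θ ≤ θ1) (v0 : 0 < v)
    (hv : v * exp (p.a + δ) * (2 * p.D + 1) ^ 4 ≤ θ') (hP : ∀ m, P m → m ≠ 0 ∧ (θ' ≤ θ1 ∨ m = 1))
    (sm : 8 * (exp (4 * p.a) * θ1) * (2 * p.D + 1) ^ 4 ≤ δ) :
    kN p n (kP p n P k v) (4 * θ * θ' / θ1) := by
  have t0 : 0 < θ' := lt_of_lt_of_le (by positivity) hv
  have h0 := θ0.trans_le h1
  have e0 := div_pos h0 θ0
  have e1 := div_pos h0 t0
  have a := (kN_clus hp hn (wS_ok (p := p) hn) δ0 (hk.smul e0.le) (v := fun _ => θ1 / θ' * v)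
    (θ' := θ1) (fun _ => by positivity) (fun x => ?_)
    (by rw [div_mul_cancel₀ _ θ0.ne']; linarith)).smul (inv_pos.2 (mul_pos e0 e1)).le
  · refine (kN_le a (fun X c => kP_nn hk.1 v0.le) fun X c => ?_).mono
      (le_of_eq (by field_simp; ring))
    have n0 := pw_nn (hk.smul e0.le).1 fun _ : St => (mul_pos e1 v0).le
    rw [Pi.smul_apply, Pi.smul_apply, smul_eq_mul, le_inv_mul_iff₀ (mul_pos e0 e1), kP, mul_sum]
    refine (sum_le_sum fun O hO => ?_).trans
      (sum_le_sum_of_subset_of_nonneg (filter_subset _ _) fun O _ _ => n0 O)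
    split_ifs with e
    swap
    · rw [mul_zero]; exact n0 O
    obtain ⟨b1, b2⟩ := hP _ (mem_filter.1 hO).2
    simp only [pw, Pi.smul_apply, smul_eq_mul, prod_mul_distrib, prod_const (θ1 / θ),
      prod_const (θ1 / θ')]
    rw [mul_mul_mul_comm (_ ^ _)]
    refine mul_le_mul_of_nonneg_right (mul_le_mul (le_self_pow₀ ((one_le_div θ0).2 h1)
      e.card_ne_zero) ?_ e1.le (by positivity)) (pw_nn hk.1 (fun _ => v0.le) O)
    exact b2.elim (fun u => le_self_pow₀ ((one_le_div t0).2 u) b1) fun u => by rw [u, pow_one]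
  · simp only [wS, tau_ball hp.D hR, sum_const, nsmul_eq_mul, Nat.cast_one, mul_one]
    calc _ ≤ (2 * p.D + 1 : ℝ) ^ 4 * (θ1 / θ' * v * exp (p.a + δ)) := by
          gcongr
          refine (In.card_near hn Subset.rfl _ x).trans ?_
          gcongr
      _ = θ1 / θ' * (v * exp (p.a + δ) * (2 * p.D + 1) ^ 4) := by ring
      _ ≤ θ1 / θ' * θ' := by gcongr
      _ = _ := div_mul_cancel₀ _ t0.ne'

theorem iP_hol {s : Set ℂ} {K : ℂ → Ac} {h : ℂ → St → Conf → ℂ}
    (hK : ∀ X c, DifferentiableOn ℂ (K · X c U) s) (hh : ∀ y, DifferentiableOn ℂ (h · y U) s) :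
    DifferentiableOn ℂ (fun t => iP p n P (K t) (h t) X c U) s := .fun_sum fun O _ => by
  unfold gw
  split_ifs
  exacts [.mul (.fun_finsetProd fun o _ => hK _ _) (.fun_finsetProd fun y _ => hh y),
    differentiableOn_const _]

/-- the variation of first order -/
theorem iP_der {K : ℂ → Ac} {h : ℂ → St → Conf → ℂ} (hK : ∀ X c, DifferentiableAt ℂ (K · X c U) 0)
    (hh : ∀ y, HasDerivAt (h · y U) (h' y U) 0) (h0 : ∀ y, h 0 y U = 0) :
    HasDerivAt (fun t => iP p n (· ≠ 0) (K t) (h t) X c U) (iP p n (· = 1) (K 0) h' X c U) 0 := by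
  have := HasDerivAt.fun_sum (u := (cs (wS p n) (box (n / 2)) X c).filter (·.toRight.card ≠ 0))
    (A := fun O t => gw (K t · · U) (h t · U) O) (x := 0)
    (A' := fun O => if O.toRight.card = 1 then gw (K 0 · · U) (h' · U) O else 0) fun O hO => by
    obtain ⟨y, hy⟩ := card_ne_zero.1 (mem_filter.1 hO).2
    unfold gw
    by_cases e : PD O ∧ O.toRight ⊆ (lb O).biUnion id
    swap
    · simpa only [if_neg e, ite_self] using hasDerivAt_const (0 : ℂ) (0 : ℂ)
    have := (hh y).fun_mul ((DifferentiableAt.fun_finsetProd (u := O.toLeft) fun o _ =>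
      hK o.1 o.2).fun_mul (.fun_finsetProd (u := O.toRight.erase y) fun z _ =>
        (hh z).differentiableAt)).hasDerivAt
    simp only [if_pos e, ← mul_prod_erase _ _ hy, mul_left_comm (∏ _ ∈ O.toLeft, _)]
    refine this.congr_deriv ?_
    simp only [h0, prod_const, zero_pow_eq, card_erase_of_mem hy, zero_mul, add_zero]
    have := card_pos.2 ⟨y, hy⟩
    split_ifs with a b b
    · rw [card_eq_zero.1 (show (O.toRight.erase y).card = 0 by rw [card_erase_of_mem hy, b])]
      simp [mul_comm]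
    · omega
    · omega
    · simp
  rw [← sum_filter, filter_filter] at this
  refine (this.congr_deriv (sum_congr (Finset.ext fun O => ?_) fun _ _ => rfl)).congr_of_eventuallyEq
    (.of_forall fun t => sum_congr (filter_congr_decidable ..) fun _ _ => rfl)
  simp only [mem_filter]
  exact and_congr_right' ⟨And.right, fun a => ⟨by omega, a⟩⟩

/-- the insertion of one factor is linear -/
def i1 (p : Pa) (n : ℕ) (K : Ac) : (St → Conf → ℂ) →ₗ[ℂ] Ac where
  toFun := iP p n (· = 1) K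
  map_add' h h' := funext₃ fun X c U => by
    simp only [iP, Pi.add_apply, ← sum_add_distrib]
    refine sum_congr rfl fun O hO => ?_
    obtain ⟨y, e⟩ := card_eq_one.1 (mem_filter.1 hO).2
    simp only [gw, e, prod_singleton]
    split_ifs <;> ring
  map_smul' t h := funext₃ fun X c U => by
    simp only [iP, Pi.smul_apply, smul_eq_mul, mul_sum, RingHom.id_apply]
    refine sum_congr rfl fun O hO => ?_
    obtain ⟨y, e⟩ := card_eq_one.1 (mem_filter.1 hO).2
    simp only [gw, e, prod_singleton]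
    split_ifs <;> ring

theorem iP_real (hK : RealA K) (hh : ∀ y U, (h y U).im = 0) : RealA (iP p n P K h) :=
  fun X c U => Im.sum fun O _ => by
    unfold gw
    split_ifs
    exacts [Im.mul (Im.prod fun o _ => hK _ _ _) (Im.prod fun y _ => hh y U), rfl]

theorem iP_tr (hn : Odd n) (w : St) (hK : ∀ o ∈ lps (box (n / 2)), trA n w K o.1 o.2 = K' o.1 o.2)
    (hh : ∀ y ∈ box (n / 2), ∀ U, h (rc n (y + w)) (sh (-w) (pc n U)) = h' y U) {o : LP St}
    (ho : o ∈ lps (box (n / 2))) : trA n w (iP p n P K h) o.1 o.2 = iP p n P K' h' o.1 o.2 := by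
  obtain ⟨h1, -, h2⟩ := mem_lps.1 ho
  have i := In.sh_inj hn w
  have j := Sh.trP_inj hn w
  funext U
  simp only [trA, iP, cs, filter_filter, sum_filter, Wd.obs]
  conv_lhs => rw [← img_eq (fun _ a => Sh.trP_mem hn a w) j,
    show (wS p n).Om = _ from (In.dom_image hn w).symm, Sh.sum_image']
  refine (sum_clus_image (sp := (wS p n).sp) ?_ i (fun o a => (sp_ok (wS_ok hn) o a).2) h1 ?_ _).trans
    (sum_congr rfl fun O hO => ?_)
  · rintro (a | a) ha (b | b) hb e
    · exact congrArg _ (j (inl_mem_disjSum.1 ha) (inl_mem_disjSum.1 hb) (Sum.inl.inj e))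
    · cases e
    · cases e
    · exact congrArg _ (i (inr_mem_disjSum.1 ha) (inr_mem_disjSum.1 hb) (Sum.inr.inj e))
  · rintro (a | a) -
    · rfl
    · exact (congrArg _ (image_singleton (fun x => rc n (x + w)) a).symm).trans (In.tb_image ..)
  obtain ⟨a1, a2⟩ := subset_disjSum.1 (mem_clus.1 hO).1
  have a3 : ∀ C ∈ lb O, C ⊆ box (n / 2) := fun C hC => by
    obtain ⟨o, ho, hC⟩ := mem_biUnion.1 hC
    obtain ⟨h1, -, h2⟩ := mem_lps.1 (a1 ho)
    exact ((mem_fams.1 h2).1 C hC).trans h1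
  have a4 : lb (O.image (Sum.map (Sh.trP n w) fun x => rc n (x + w))) = (lb O).image (trS n w) := by
    rw [lb, lb, Sh.left_image, image_biUnion, biUnion_image]
    rfl
  rw [a4, Sh.right_image, card_image_of_injOn (i.mono a2)]
  refine if_congr (and_congr_left' (image_eq_image_iff_of_injOn (Sh.trS_inj hn w)
    (fun C h => mem_powerset.2 (a3 C h)) fun C h => mem_powerset.2
      (((mem_fams.1 h2).1 C h).trans h1))) ?_ rfl
  rw [gw, gw, a4, Sh.right_image, Sh.left_image, prod_image (j.mono a1), prod_image (i.mono a2),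
    prod_congr rfl fun y hy => hh y (a2 hy) U, Sh.trS_bi]
  refine if_congr (and_congr ?_ (image_subset_image_iff_of_injOn i a2 (biUnion_subset.2 a3)))
    (congrArg (· * _) (prod_congr rfl fun o ho => congrFun (hK o (a1 ho)) U)) rfl
  rw [PD, PD, Sh.left_image, coe_image, (j.mono a1).pairwiseDisjoint_image]
  exact forall₄_congr fun o ho o' ho' => imp_congr_right fun _ => Sh.disj_image i
    (mem_lps.1 (a1 ho)).1 (mem_lps.1 (a1 ho')).1

end Pool.Agent.Lib.MP_7f377f_mp.RG.Q4.En.Mg
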