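import Pool.Agent.Lib.MP_7f377f_mp.G.MgG

/-! Merging of sources: the room in the norm of the new activities. -/

noncomputable section

open Pool.Agent.Lib.MP_7f377f_mp.Jet

set_option linter.unusedSectionVars false
variable [Pool.Agent.Lib.MP_7f377f_mp.GD]

namespace Pool.Agent.Lib.MP_7f377f_mp.RG.Q4.En

open Finset Function Sg Real Pos Mg
open scoped Classical

attribute [local irreducible] box lbox tb tau rc

variable {ι Ω : Type} [DecidableEq ι] [DecidableEq Ω]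

theorem id_card {A : Finset ι} (a : ι) : (A.filter (id · = a)).card ≤ 1 :=
  card_le_one.2 fun _ ha _ hb => (mem_filter.1 ha).2.trans (mem_filter.1 hb).2.symm

/-- truncation of a local family of separated letters -/
theorem trK_sl {p : Pa} {n m : ℕ} {r : ι → ℝ} {k : Mj} {ψ : (ι → ℂ) → Lx} {K : (ι → ℂ) → Ac}
    {A : Finset ι} {Z : ι → Finset St} {d δ θ : ℝ} (h : FA r p n k K) (l : Loc n Z ψ (trK A K))
    (hk : kN (p.ad (δ + 1 / 6)) n k θ) (hD : 1 ≤ p.D) (hc : Cls n d A id Z)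
    (hm : (m + 2 : ℝ) * p.D ≤ d) (m5 : 5 ≤ m) :
    ∃ k', kN (p.ad δ) n k' (2 * θ) ∧ ∀ s ∈ Pd r, KM p n k' (trK A K s) := by
  have k3 := kN_tch' (p := p.ad δ) hD hc hm id_card one_le_two (δ := 1 / 6) (by
    have : (5 : ℝ) ≤ m := by exact_mod_cast m5
    rw [Nat.cast_one]
    linarith [log_two_lt_d9]) (by norm_num) (by rwa [ad_ad])
  rw [pow_one] at k3
  refine ⟨_, k3, ?_⟩
  rw [← one_add_one_eq_two]
  refine (h.trK (D := fun X _ => tch A Z X) (fun X a T hT e => ?_) h.pos fun _ => (one_mul _).ge).km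
  obtain ⟨i, h1, h2⟩ := not_subset.1 e
  rw [← jA_trK hT]
  exact funext fun U => l.jdA h1 (by_contra fun a => h2 (mem_tch.2 ⟨hT h1, a⟩)) a U

namespace Gl.Mh

variable {G : Gl} {D : Wd St ι Ω} {b C Wt : ℝ} {J i k c : ℕ} {Y : Fy ι} {a : ι → ℂ} {r0 r2 : ι → ℝ}
  {r : ℕ → ι → ℝ} {m : ℕ → ℕ} {f : (ι → ℂ) → Conf → ℂ} {W Zc : ι → Finset St} {w : Ω → ℂ}

theorem merge_sl (M : G.Mh D b J Y i k a c C r0 r m f W Zc) (h : G.Ok) (t : G.Tu b J) (hp : G.Pu)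
    (p2 : ∀ x, 0 < r2 x) (hr : ∀ x, r2 x ≤ r (k + 1) x) (hw : ∀ y, ∑ ω ∈ D.Om.filter (y ∈ D.X0 ·),
      ‖w ω‖ * r2 (D.cl ω) / ∏ x ∈ D.A ω, r (k + 1) x ≤ Wt) (sm : G.Q k ^ 330 * (G.cM k c C * Wt) ≤ 1) :
    ∃ k', kN ((G.p k).ad (1 / 4)) (G.N k) k' ((G.Q k ^ 329)⁻¹ / 3) ∧
      ∀ s ∈ Pd r2, KM (G.p k) (G.N k) k' ((G.mg D b J Y i k a w Zc).K s) := by
  have q := h.Q0 k
  obtain ⟨kk, k1, H⟩ := M.hyp h t hp
  have q0 := inv_pos.2 (pow_pos q 330)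
  have q1 := h.inv_le k (show 329 < 330 by norm_num)
  have k2 := kN_clus ((h.ps0 k).ad (show (0 : ℝ) ≤ 5 / 12 by norm_num)) (h.N_odd k) M.geo
    (δ := 1 / 12) (θ' := (G.Q k ^ 330)⁻¹) (by norm_num) (by rw [ad_ad]; norm_num; simpa using k1)
    (fun ω => mul_nonneg (mul_nonneg (norm_nonneg (w ω)) (p2 (D.cl ω)).le) (H.vw_nn ω))
    (fun y => (M.vw_le h (δ := 5 / 12 + 1 / 12) (fun ω => mul_nonneg (norm_nonneg _) (p2 _).le) H.pos
      (by norm_num) hw y).trans_eq' (by simp only [Pa.ad, add_assoc]) |>.trans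
        (by rwa [← mul_one (_⁻¹), le_inv_mul_iff₀ (pow_pos q _)]))
    (by
      have := sm_le h (k := k) (δ := 5 / 12) (by norm_num)
        (show 4 * ((G.Q k ^ 329)⁻¹ / 20 + (G.Q k ^ 330)⁻¹) ≤ _ by linarith)
      change 4 * (exp (4 * ((G.p k).a + 5 / 12)) * _) * (2 * (G.p k).D + 1) ^ 4 ≤ _
      linarith)
  have fa := H.fa_K2 (w := w) p2 hr
  simp only [one_pow, one_mul] at fa
  obtain ⟨k', a1, a2⟩ := trK_sl (δ := 1 / 4) (m := 2 * c + 3) fa ((M.lc h t hp).loc2 M.geo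
    fun ω e => (H.col ω e).2) (by norm_num; exact (kN_drop k1 (by norm_num)).add k2) (h.ps0 k).D
    M.las.2 (by push_cast; linarith) (by linarith [M.c1])
  exact ⟨k', a1.mono (by linarith), a2⟩

end Gl.Mh

end Pool.Agent.Lib.MP_7f377f_mp.RG.Q4.En
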