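import Pool.Agent.Lib.MP_7f377f_mp.G.CaI
import Pool.Agent.Lib.MP_7f377f_mp.G.CaX2a

/-! Insertion of local functions of the block field into a family. -/

noncomputable section

open Pool.Agent.Lib.MP_7f377f_mp.Jet

set_option linter.unusedSectionVars false
variable [Pool.Agent.Lib.MP_7f377f_mp.GD]

namespace Pool.Agent.Lib.MP_7f377f_mp.RG.Q4.En

open Finset Function Sg Real Pos Mg
open scoped Classical

attribute [local irreducible] box lbox tb tau rc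

variable {ι α : Type} [DecidableEq ι] {p : Pa} {n d : ℕ} {A : Finset ι} {r : ι → ℝ} {β δ θ : ℝ}
  {Z : ι → Finset St} {ψ : (ι → ℂ) → Lx} {K K' : (ι → ℂ) → Ac} {k k' : Mj} {s : ι → ℂ} {i : ι}

/-- local functions `H y` with the form `-Ψ y` in the chart -/
structure Lt (p : Pa) (n : ℕ) (H : St → Conf → ℂ) (Ψ : Lx) : Prop where
  lf : ∀ y, Mg.LF n (tb n (p.R + 3) {y}) (H y)
  ch : ∀ y U, Fq (p.R + 1) p.ε (sh y (pc n U)) → H y U = -Ψ y (Bx y (cC (pc n U)))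

theorem Lt.smul {H : St → Conf → ℂ} {Ψ : Lx} (h : Lt p n H Ψ) (F : St → ℂ) :
    Lt p n (fun y => F y • H y) fun y => F y • Ψ y :=
  ⟨fun y => (Mg.LF.const _).mul (h.lf y), fun y U a => by
    simp only [Pi.smul_apply, smul_eq_mul, h.ch y U a, mul_neg]⟩

theorem Lt.sum {t : Finset α} {H : α → St → Conf → ℂ} {Ψ : α → Lx}
    (h : ∀ a ∈ t, Lt p n (H a) (Ψ a)) : Lt p n (∑ a ∈ t, H a) (∑ a ∈ t, Ψ a) :=
  ⟨fun y => (show (fun U => ∑ a ∈ t, H a y U) = (∑ a ∈ t, H a) y by ext; simp) ▸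
    Mg.LF.sum fun a ha => (h a ha).lf y, fun y U e => by
      simp only [Finset.sum_apply, ← sum_neg_distrib]
      exact sum_congr rfl fun a ha => (h a ha).ch y U e⟩

/-- a letter at the site `y` of the torus -/
def hX (n : ℕ) (X : Wd.Let) (y : St) (U : Conf) : ℂ := -Wd.evG X (sh y (pc n U))

theorem lt_ev {X : Wd.Let} (hp : p.Ok) (h : Wd.Rad d X) (hd : d ≤ p.R) :
    Lt p n (hX n X) fun _ => Wd.lx X := by
  refine ⟨fun y => ⟨(((Wd.evG_cont X).comp (Ms.cont_sh y)).measurable.comp (Cov.meas_pc n)).neg,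
    fun U => by rw [hX, hX, pc_eq (Mx.per_pc n U)], fun U U' a => congrArg Neg.neg
      (Wd.evG_agr h fun l hl => ?_), fun u U hu => by
        rw [hX, hX, Mx.pc_gauge (Mx.PS_iff.1 hu), Ms.sh_gauge, Wd.evG_gauge]⟩, fun y U a => ?_⟩
  · have m : ∀ z ∈ box (p.R + 3), rc n (z + y) ∈ tb n (p.R + 3) {y} := fun z hz =>
      mem_tb_single.2 ⟨rc_rc _ _, nearT_rc_right.2 (add_comm y z ▸ nearT_add hz)⟩
    have := mem_lbox.1 hl
    refine a (rc n (l.1 + y), l.2) ⟨?_, ?_⟩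
    · rw [rc_rc]; exact m _ (box_mono (by omega) this)
    · rw [rc_add_rc, add_right_comm]; exact m _ (box_mono (by omega) (add_un_mem_box this _))
  · have d1 : (d : ℝ) ≤ p.R := Nat.cast_le.2 hd
    rw [hX, Wd.lx_chart h (ε := p.ε) (fun z hz μ ν => by
      rw [add_comm, ← Mx.fq_sh]; exact a z (box_mono (by omega) hz) μ ν)
      (by nlinarith [hp.1, hp.2.1, hp.2.2])]

/-- the factors of the sites -/
def eh (H : St → Conf → ℂ) (y : St) (U : Conf) : ℂ := Complex.exp (H y U) - 1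

theorem iP_zero (K : Ac) : iP p n (· ≠ 0) K (eh 0) = 0 :=
  funext₃ fun _ _ _ => sum_eq_zero fun O hO => by
    simp [gw, eh, zero_pow ((mem_iP (P := (· ≠ 0))).1 hO).2.2.2.2]

theorem Lt.rep {H : St → Conf → ℂ} {Ψ Φ Φ' : Lx} (L : Lt p n H Ψ) (hn : Odd n)
    (e : ∀ x B, Φ' x B = Φ x B + Ψ x B) (K : Ac) (U : Conf) :
    Rep p n Φ' (K + iP p n (· ≠ 0) K (eh H)) U =
      Complex.exp (∑ y ∈ box (n / 2), H y U) * Rep p n Φ K U := by
  rw [Rep, Rep, Complex.exp_sum, iP_exact hn (I := Ix p Φ (pc n U)) fun y _ => ?_]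
  · simp only [eh, add_sub_cancel]
  · by_cases a : Fq (p.R + 1) p.ε (sh y (pc n U))
    · rw [Ix_pos a, Ix_pos a, eh, add_sub_cancel, L.ch y U a, e, ← Complex.exp_add]
      congr 1
      ring
    · rw [Ix_neg a, Ix_neg a, mul_zero]

theorem iP_line {H : St → Conf → ℂ} {K : ℂ → Ac} {X : Finset St} {c : Finset (Finset St)} {U : Conf}
    (hK : ∀ X c, DifferentiableAt ℂ (K · X c U) 0) :
    HasDerivAt (fun t => iP p n (· ≠ 0) (K t) (eh (t • H)) X c U) (i1 p n (K 0) H X c U) 0 :=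
  iP_der hK (fun y => by
    simpa [eh] using ((hasDerivAt_id' (0 : ℂ)).mul_const (H y U)).cexp.sub_const 1)
    fun y => by simp [eh]

theorem loc_trK (l : Loc n Z ψ K) : Loc n Z ψ (trK A K) :=
  ⟨l.psi, fun i X c hX => ind_pi.2 fun U =>
    trK_eq (A := A) (K := K) X c U ▸ (ind_pi.1 (l.act i X c hX) U).tr A⟩

theorem fa_add (h : FA r p n k K) (h' : FA r p n k' K') : FA r p n (k + k') (K + K') :=
  ⟨h.pos, fun s hs i X c U => (h.hol s hs i X c U).add (h'.hol s hs i X c U),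
    fun s hs => (h.km s hs).add (h'.km s hs)⟩

theorem jA_add (h : FA r p n k K) (h' : FA r p n k' K') (T : Finset ι) :
    jA T (K + K') = jA T K + jA T K' := by
  ext X c U; exact jd_add (h.sh X c U) (h'.sh X c U) T

variable {H : ι → St → Conf → ℂ} {Ψ : ι → Lx}

/-- the new clusters -/
def iF (p : Pa) (n : ℕ) (A : Finset ι) (K : (ι → ℂ) → Ac) (H : ι → St → Conf → ℂ) (s : ι → ℂ) : Ac :=
  iP p n (· ≠ 0) (K s) (eh (∑ q ∈ A, s q • H q))

theorem fa_iF (h : FA r p n k K) (hl : 0 ≤ p.lam) (k0 : ∀ X c, 0 ≤ k X c)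
    (L : ∀ q ∈ A, Lt p n (H q) (Ψ q)) (hc : Cls n δ A id Z) (δ0 : 0 < δ)
    (hZ : ∀ q y, rc n y ∉ Z q → H q y = 0) (bd : ∀ q ∈ A, ∀ y U, r q * ‖H q y U‖ ≤ β) (β0 : 0 ≤ β)
    (β1 : β ≤ 1) : FA r p n (kP p n (· ≠ 0) k (2 * β)) (iF p n A K H) := by
  refine ⟨h.pos, fun s hs i X c U => iP_hol (fun X c => h.hol s hs i X c U) fun y => ?_,
    fun s hs => km_iP hl (by simp) k0 (h.km s hs) (fun y => ?_) fun y U => ?_⟩
  · simp only [eh, Finset.sum_apply]
    exact ((lin_diff s (fun q => H q y U) i).cexp.sub_const 1).differentiableOn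
  · have := (Lt.sum fun q a => (L q a).smul fun _ => s q).lf y
    exact ⟨this.meas.cexp.sub_const 1, fun U => congrArg (Complex.exp · - 1) (this.per U),
      fun _ _ e => congrArg (Complex.exp · - 1) (this.dep e),
      fun u U a => congrArg (Complex.exp · - 1) (this.gi u U a)⟩
  · have : ‖(∑ q ∈ A, s q • H q) y U‖ ≤ β := by
      simp only [Finset.sum_apply, Pi.smul_apply, smul_eq_mul]
      by_cases e : ∃ i ∈ A, rc n y ∈ Z i
      · obtain ⟨i, hi, e⟩ := e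
        rw [sum_eq_single_of_mem i hi fun j hj u => by
          simp [hZ j y fun a => u (one_cluster hc δ0 hj hi a e)]]
        exact (norm_mul_le_of_le (hs i).le le_rfl).trans (bd i hi y U)
      · rwa [sum_eq_zero fun j hj => by simp [hZ j y fun a => e ⟨j, hj, a⟩], norm_zero]
    exact (Complex.norm_exp_sub_one_le (this.trans β1)).trans (by linarith)

theorem loc_iF (hn : Odd n) (l : Loc n Z ψ K) (hZ : ∀ q y, rc n y ∉ Z q → H q y = 0) :
    Loc n Z ψ (iF p n A K H) :=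
  ⟨l.psi, fun i X c hX s t => funext fun U => iP_congr hn
    (fun Y e c => congrFun (l.act i Y c (hX.mono_right e) s t) U) fun y hy e => by
      simp only [eh, Finset.sum_apply, Pi.smul_apply]
      exact congrArg (Complex.exp · - 1) (lin_ind (H := fun q => H q y U) (congrFun (hZ i y fun a =>
        disjoint_left.1 hX (rc_eq hn hy ▸ a) e) U) s t)⟩

/-- the family with the local functions `H q` added to the sources -/
def Fy.ins (Y : Fy ι) (p : Pa) (n : ℕ) (A : Finset ι) (H : ι → St → Conf → ℂ) (Ψ : ι → Lx) : Fy ι :=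
  ⟨fun s => Y.ψ s + ∑ q ∈ A, s q • Ψ q, trK A (Y.K + iF p n A Y.K H), Y.E, Y.Z⟩

namespace Gl.Ok

variable {G : Gl} {J k : ℕ} {z : En.Z} {Y : Fy ι} {f f' : (ι → ℂ) → Conf → ℂ} (h : G.Ok)
include h

theorem RD (k : ℕ) : (G.p k).R + 3 ≤ (G.p k).D := by
  have : 1 ≤ G.L k ^ G.K0 := Nat.one_le_pow _ _ (by have := h.L_big k; omega)
  change 4 * G.L k ^ G.K0 + 3 ≤ 20 * G.L k ^ G.K0
  omega

theorem vQ (k : ℕ) {v : ℝ} (v0 : 0 ≤ v) (δ1 : δ ≤ 1) :
    v * exp ((G.p k).a + δ) * (2 * (G.p k).D + 1) ^ 4 ≤ 3 * G.Q k ^ 3 * v := by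
  have q := h.Q0 k
  have a : exp ((G.p k).a + δ) ≤ G.Q k ^ 2 * 3 := by
    change exp (2 * log (G.Q k) + δ) ≤ _
    rw [exp_add, show (2 : ℝ) = (2 : ℕ) by norm_num, exp_nat_mul, exp_log q]
    exact mul_le_mul_of_nonneg_left ((exp_le_exp.2 δ1).trans exp_one_lt_three.le) (by positivity)
  calc _ ≤ v * (G.Q k ^ 2 * 3) * G.Q k := by gcongr; exact h.DQ k
    _ = _ := by ring

theorem ins (tz : G.Tz J k z) (F : G.Fd k z A r r θ Y f)
    (sl : ∃ k', kN ((G.p k).ad (1 / 4)) (G.N k) k' ((G.Q k ^ 329)⁻¹ / 2) ∧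
      ∀ s ∈ Pd r, KM (G.p k) (G.N k) k' (Y.K s)) (hc : Cls (G.N k) δ A id Y.Z)
    (hm : 7 * ((G.p k).D : ℝ) ≤ δ) (L : ∀ q ∈ A, Lt (G.p k) (G.N k) (H q) (Ψ q))
    (pu : ∀ q ∈ A, ∃ x y u, PM (G.p k) x y u (Ψ q))
    (hZ : ∀ q y, rc (G.N k) y ∉ Y.Z q → H q y = 0 ∧ Ψ q y = 0)
    (bd : ∀ q ∈ A, ∀ y U, r q * ‖H q y U‖ ≤ (G.Q k ^ 340)⁻¹) (hf : HD r f')
    (e : ∀ U, Per (G.N k) U → ∀ T ⊆ A, jd T (f' · U) = ∑ N ∈ T.powerset,
      (∏ q ∈ N, ∑ y ∈ box (G.N k / 2), H q y U) * jd (T \ N) (f · U)) :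
    G.Fd k z A r r (G.Q k ^ 329)⁻¹ (Y.ins (G.p k) (G.N k) A H Ψ) f' ∧
      (Y.ins (G.p k) (G.N k) A H Ψ).bs = Y.bs ∧ ∀ q ∈ A, (Y.ins (G.p k) (G.N k) A H Ψ).jt {q} =
        Y.jt {q} + (Ψ q, i1 (G.p k) (G.N k) (Y.K 0) (H q)) := by
  have q := h.Q0 k
  have hn := h.N_odd k
  have D0 := h.D_pos k
  have ρ0 := h.ρ0 k
  have hr := F.fi.pos
  have nu := (h.sl_all k z).nu
  have q0 := inv_pos.2 (pow_pos q 340)
  have q1 := inv_pos.2 (pow_pos q 329)
  have q2 := h.inv_le k (show 329 < 337 by norm_num)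
  obtain ⟨k0, k1, k2⟩ := sl
  have fa : FA r (G.p k) (G.N k) k0 Y.K := ⟨hr, F.fi.sa r, k2⟩
  have fb := fa_iF fa (sqrt_nonneg _) k1.1 L hc (by linarith) (fun q y a => (hZ q y a).1) bd q0.le
    (inv_le_one_of_one_le₀ (one_le_pow₀ (h.Q1 k)))
  have lb := loc_iF (p := G.p k) (A := A) hn F.fi.loc fun q y a => (hZ q y a).1
  have k3 := kN_kP (p := (G.p k).ad (1 / 6)) (P := (· ≠ 0)) (δ := 1 / 12) (v := 2 * (G.Q k ^ 340)⁻¹)
    (θ' := 6 * (G.Q k ^ 337)⁻¹) ((h.ps0 k).ad (by norm_num)) hn (h.RD k) (by norm_num)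
    (by rw [ad_ad]; norm_num; simpa using k1) (by positivity) le_rfl (by positivity)
    (((h.vQ k (δ := 1 / 6 + 1 / 12) (mul_pos two_pos q0).le (by norm_num)).trans_eq' (by
      simp only [Pa.ad, add_assoc])).trans_eq (by rw [← h.pw_inv k (i := 3) (j := 337) rfl]; ring))
    (fun m a => ⟨a, .inl (by linarith)⟩) (by
      have := Mh.sm_le h (k := k) (δ := 1 / 6) (by norm_num) le_rfl
      change 8 * (exp (4 * ((G.p k).a + 1 / 6)) * _) * (2 * (G.p k).D + 1) ^ 4 ≤ _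
      linarith)
  obtain ⟨k4, k5, k6⟩ := trK_sl (δ := 0) (m := 5) fb (loc_trK lb) (by rw [zero_add]; exact k3)
    (h.ps0 k).D hc (by norm_num; linarith) le_rfl
  rw [ad_zero, mul_right_comm 4, mul_div_assoc, div_self (by positivity), mul_one] at k5
  have e1 : (fun s => Y.ψ s + ∑ q ∈ A, s q • Ψ q) =
      ma A fun T => jL T Y.ψ + if T.card = 1 then ∑ i ∈ T, Ψ i else 0 := funext fun s => by
    rw [lin_eq_ma, congrFun F.fi.psi s]; exact ma_add.symm
  have e2 : trK A (Y.K + iF (G.p k) (G.N k) A Y.K H) = Y.K + trK A (iF (G.p k) (G.N k) A Y.K H) :=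
    funext fun s => by
      rw [trK, ma_congr fun T _ => jA_add fa fb T, Pi.add_apply, congrFun F.fi.act s]; exact ma_add
  have a : Fi (G.p k) (G.N k) A Y.Z r (G.Q k ^ 329)⁻¹ (fun s => Y.ψ s + ∑ q ∈ A, s q • Ψ q)
      (trK A (Y.K + iF (G.p k) (G.N k) A Y.K H)) := by
    refine ⟨hr, e1.trans (ma_congr fun T hT => by rw [e1, jL_ma _ hT]),
      ma_congr fun T hT => (jA_trK hT).symm, fun T hT => ?_, loc_trK ⟨fun i x hx => ?_,
        fun i X c hX => (F.fi.loc.act i X c hX).comp₂ (lb.act i X c hX) (· + ·)⟩, k0 + k4,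
      ((ad_zero (G.p k) ▸ kN_drop k1 (by norm_num) :).add k5).mono (by linarith),
      fun s hs => e2 ▸ (k2 s hs).add (k6 s hs)⟩
    · obtain ⟨_, ⟨_, _, _, u⟩, -⟩ := F.fi.pu T hT
      rw [e1, jL_ma _ hT]
      split_ifs with e
      · obtain ⟨i, rfl⟩ := card_eq_one.1 e
        obtain ⟨_, _, _, u'⟩ := pu i (singleton_subset_iff.1 hT)
        rw [sum_singleton]
        exact ⟨_, pu_of_pm (PM.add ρ0 u u').1⟩
      · rw [add_zero]
        exact ⟨_, pu_of_pm u⟩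
    · simp only [Pi.add_apply, Finset.sum_apply, Pi.smul_apply]
      exact (F.fi.loc.psi i x hx).comp₂ (lin_ind (H := (Ψ · x)) (hZ i x hx).2) (· + ·)
  refine ⟨⟨a, F.ma, ?_⟩, Prod.ext (by simp [Fy.bs, Fy.ins]) ?_, fun x hx => Prod.ext ?_ ?_⟩
  · have fl := a.fl.add (nu.lo_Φ (h.tok_sl tz) (pm_zero ρ0).lo)
    simp only [Sd.Φ, Pi.zero_apply, add_zero] at fl
    have E := ((Hb.refl (A := ∅) (show Hb r Y.E from F.ma ▸ hb_ma hr _)).exp.fst.hd.refl).mul
      (rep_trK (A := A) nu.p_ok.1 (sqrt_nonneg _) fl (fa_add fa fb))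
    refine ⟨hf, E.snd, fun U hU T hT => (e U hU T hT).trans (.trans ?_ (E.eq U hU T hT))⟩
    rw [← sum_congr rfl fun N hN => congrArg₂ (· * ·) (jd_exp_lin (A := A) _
      ((mem_powerset.1 hN).trans hT)) (F.eq.eq U hU _ (sdiff_subset.trans hT)).symm,
      ← jd_mul (sh_lin hr _ _).exp (F.eq.snd.hb U).choose_spec]
    refine congrArg _ (funext fun s => ?_)
    refine .trans ?_ (congrArg _ ((Lt.sum fun q a => (L q a).smul fun _ => s q).rep hn
      (Φ := (G.sl k z).Φ (Y.ψ s)) (fun x B => (add_assoc ..).symm) (Y.K s) U).symm)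
    rw [Pi.mul_apply, mul_left_comm]
    simp only [Finset.sum_apply, Pi.smul_apply, smul_eq_mul, mul_sum]
    rw [sum_comm]
  · simp [Fy.bs, Fy.ins, trK_zero, iF, iP_zero]
  · simp only [Fy.jt, Fy.ins, e1, jL_ma _ (singleton_subset_iff.2 hx), card_singleton, if_true,
      sum_singleton, Prod.fst_add]
  · simp only [Fy.jt, Fy.ins, jA_trK (singleton_subset_iff.2 hx), jA_add fa fb, Prod.snd_add]
    refine congrArg _ (funext₃ fun X c U => ?_)
    simp only [jA, jd_single, iF, lin_single hx]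
    have := (iP_line (p := G.p k) (n := G.N k) (H := H x) (X := X) (c := c) (U := U)
      (K := fun t => Y.K (Pi.single x t)) fun X c => (fa.sh X c U).dAt (zero_mem hr) x).deriv
    rwa [Pi.single_zero] at this

end Gl.Ok

end Pool.Agent.Lib.MP_7f377f_mp.RG.Q4.En
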