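import Pool.Agent.Lib.MP_7f377f_mp.G.Q5PosM
import Pool.Agent.Lib.MP_7f377f_mp.G.Q5Sch

/-! The choice of the levels. -/

noncomputable section

set_option linter.unusedSectionVars false
variable [Pool.Agent.Lib.MP_7f377f_mp.GD]

namespace Pool.Agent.Lib.MP_7f377f_mp.RG.Q4.En.Gl

open Finset Real Filter Topology

/-- the logarithm of the size of the blocks -/
def t (G : Gl) (k : ℕ) : ℕ := G.e (k + 1) - G.e k

theorem L_eq (G : Gl) (k : ℕ) : G.L k = 3 ^ G.t k := LL_ll _ _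

theorem Q_eq (G : Gl) (k : ℕ) : G.Q k = 3 ^ (G.K * G.t k) := by
  rw [Q, L_eq, mul_comm, pow_mul]; norm_cast

namespace Ok

variable {G : Gl} (h : G.Ok) {i j k J : ℕ}
include h

theorem pow_L (k : ℕ) (hi : i ≤ 120 * (G.K + 4 * G.Bk k + 1)) : 100 ^ i ≤ G.L k := by
  have n := (h.sl_all k (G.top0 0 0)).nu
  have a := n.r_pow (k := i) hi
  have b := n.r_sq
  change _ ≤ 2 * G.l k + 1
  change _ ≤ G.l k at b
  omega

theorem K0_le : 120 * (G.K0 + 1) ≤ G.K := (h.sl_all 0 (G.top0 0 0)).nu.K_ge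

theorem L_succ (k : ℕ) : G.L (k + 1) ≤ 3 * G.L k := by
  rcases h.sch.size k with e | e <;> unfold L l <;> omega

theorem L_le (e : i ≤ k) : G.L k ≤ 3 ^ (k - i) * G.L i := by
  induction k, e using Nat.le_induction with
  | base => simp
  | succ k e ih =>
    rw [Nat.succ_sub e, pow_succ', mul_assoc]
    exact (h.L_succ k).trans (Nat.mul_le_mul_left _ ih)

theorem b_le (e : i ≤ k) : G.bb k ≤ G.bb i + (k - i : ℕ) * G.L k := by
  induction k, e using Nat.le_induction with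
  | base => simp
  | succ k e ih =>
    have a : G.bb (k + 1) ≤ G.bb k + G.L k := (h.sch.le k).2
    have b : (G.L k : ℝ) ≤ G.L (k + 1) := Nat.cast_le.2 (h.L_mono k.le_succ)
    rw [Nat.succ_sub e, Nat.cast_succ]
    nlinarith [(Nat.cast_nonneg (k - i) : (0 : ℝ) ≤ _)]

theorem b_gap (e : i ≤ k) (a : k - i ≤ G.L k) : G.bb k ≤ 2 * G.bb i := by
  have b := h.Lb k (i := 3) (by have := h.B1; have := h.K0_le; omega)
  have c : ((k - i : ℕ) : ℝ) ≤ G.L k := Nat.cast_le.2 a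
  have L := h.L1 k
  nlinarith [h.b_le e, mul_le_mul_of_nonneg_right c (Nat.cast_nonneg (G.L k)), mul_pos (sq_pos_of_pos
    (show (0 : ℝ) < G.L k by linarith)) (show (0 : ℝ) < G.L k - 2 by linarith)]

/-- windows of bounded length -/
theorem win0 (e : i ≤ k) (a : 3 ^ (k - i) ≤ G.L i) :
    G.L k ≤ G.L i ^ 2 ∧ G.Q k ≤ G.Q i ^ 2 ∧ G.bb k ≤ 2 * G.bb i := by
  have b : G.L k ≤ G.L i ^ 2 := (h.L_le e).trans (by rw [sq]; exact Nat.mul_le_mul_right _ a)
  refine ⟨b, ?_, h.b_gap e ((Nat.lt_pow_self (by norm_num)).le.trans (a.trans (h.L_mono e)))⟩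
  rw [Q, Q, ← pow_mul, mul_comm, pow_mul]
  exact pow_le_pow_left₀ (Nat.cast_nonneg _) (by exact_mod_cast b) _

theorem pow_low (e : i ≤ j) (a : j ≤ i + 120 * (G.K + 4 * G.Bk j + 1)) : 3 ^ (j - i) ≤ G.L i :=
  Nat.le_of_mul_le_mul_left (le_trans (by rw [← mul_pow]; gcongr; norm_num)
    ((h.pow_L j (i := j - i) (by omega)).trans (h.L_le e))) (by positivity)

theorem win1 (e : i ≤ k) (e' : k ≤ j) (a : j ≤ i + 120 * (G.K + 4 * G.Bk j + 1)) :
    G.L k ≤ G.L i ^ 2 ∧ G.Q k ≤ G.Q i ^ 2 ∧ G.bb k ≤ 2 * G.bb i :=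
  h.win0 e ((Nat.pow_le_pow_right (by norm_num) (by omega)).trans (h.pow_low (e.trans e') a))

theorem ev_L (C : ℝ) : ∀ᶠ j in atTop, C ≤ G.L j := h.L_top.eventually_ge_atTop C

theorem ev_jL : ∀ᶠ j in atTop, G.L j ≤ j := by
  filter_upwards [h.ev_L (G.bb 0)] with j a
  have b := h.Lb j (i := 3) (by have := h.B1; have := h.K0_le; omega)
  have c := h.b_le j.zero_le
  have L := h.L1 j
  rw [Nat.sub_zero] at c
  have : (G.L j : ℝ) ≤ j := le_of_mul_le_mul_right (by nlinarith [sq_nonneg (G.L j : ℝ)])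
    (show (0 : ℝ) < G.L j by linarith)
  exact_mod_cast this

theorem L_nat : Tendsto G.L atTop atTop := tendsto_natCast_atTop_iff.1 h.L_top

theorem t_top : Tendsto G.t atTop atTop := tendsto_atTop.2 fun n =>
  (h.L_nat.eventually_ge_atTop (3 ^ n)).mono fun j a =>
    (Nat.pow_le_pow_iff_right (by norm_num)).1 (G.L_eq j ▸ a)

theorem ev_two (n j0 : ℕ) : ∀ᶠ j in atTop, j0 ≤ j ∧ G.Q j ^ n ≤ 2 ^ (j - j0) := by
  have a := (tendsto_pow_const_div_const_pow_of_one_lt (G.K * n) one_lt_two).eventually_le_const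
    (show (0 : ℝ) < (2 ^ j0)⁻¹ by positivity)
  filter_upwards [h.ev_jL, h.L_nat.eventually a, eventually_ge_atTop j0] with j b c d
  refine ⟨d, ?_⟩
  rw [div_le_iff₀ (by positivity), inv_mul_eq_div] at c
  rw [Q, ← pow_mul, pow_sub₀ _ two_ne_zero d, ← div_eq_mul_inv]
  exact c.trans (by gcongr; norm_num)

theorem ev_gap (c j0 : ℕ) : ∀ᶠ j in atTop, j0 + c * G.t j ≤ j ∧
    G.bb j ≤ 2 * G.bb (j - c * G.t j) := by
  have a : ∀ t ≥ j0 + c + 1, j0 + c * t ≤ 3 ^ t := fun t ht => by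
    have : t < 2 ^ t := Nat.lt_two_pow_self
    have e : t * t ≤ 3 ^ t := by
      clear ht this
      induction t with
      | zero => simp
      | succ t ih =>
        have : t < 3 ^ t := Nat.lt_pow_self (by norm_num)
        rw [pow_succ]; nlinarith
    nlinarith
  filter_upwards [h.ev_jL, h.t_top.eventually_ge_atTop (j0 + c + 1)] with j b d
  have := a _ d
  rw [← G.L_eq] at this
  exact ⟨by omega, h.b_gap (Nat.sub_le ..) (by omega)⟩

theorem ev_exp (n : ℕ) : ∀ᶠ j in atTop, G.Q j ^ n * G.bb j * exp (-G.L j) ≤ 1 := by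
  have a := (tendsto_pow_mul_exp_neg_atTop_nhds_zero (G.K * n)).eventually_le_const
    (show (0 : ℝ) < (2 ^ (G.K * n))⁻¹ by positivity)
  filter_upwards [(h.L_top.atTop_div_const two_pos).eventually a] with j b
  have n := (h.sl_all j (G.top0 0 0)).nu
  have c : G.bb j ≤ exp (G.L j / 2) := by
    refine ((le_self_pow₀ ((one_le_pow₀ (h.Q1 j)).trans (h.Qb j)) (by norm_num)).trans n.ex).trans
      (exp_le_exp.2 ((div_le_self (Nat.cast_nonneg _) (Nat.one_le_cast.2 h.c1)).trans ?_))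
    have := n.r_sq
    rw [le_div_iff₀ two_pos]
    change _ ≤ G.l j at this
    exact_mod_cast (by unfold L LL; nlinarith : (G.sl j (G.top0 0 0)).r * 2 ≤ G.L j)
  rw [div_pow, div_mul_eq_mul_div, div_le_iff₀ (by positivity), inv_mul_cancel₀ (by positivity)] at b
  refine le_trans ?_ b
  rw [Q, ← pow_mul, mul_assoc]
  refine mul_le_mul_of_nonneg_left ((mul_le_mul_of_nonneg_right c (exp_pos _).le).trans_eq ?_)
    (by positivity)
  rw [← exp_add]; ring_nf

theorem ev_B : ∀ᶠ j in atTop, 160 * G.Bk j ≤ j := h.ev_jL.mono fun j a =>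
  (Nat.lt_pow_self (by norm_num)).le.trans ((h.pow_L j (by omega)).trans a)

theorem rt_le : ∀ j ≤ k, G.rt k j ≤ G.L k ^ (k - j) :=
  dw_ind (by simp [rt_top]) fun j e ih => by
    rw [h.rt_step e, show k - j = k - (j + 1) + 1 by omega, pow_succ']
    exact Nat.mul_le_mul (h.L_mono e.le) ih

theorem le_rt : ∀ j ≤ k, G.L j ^ (k - j) ≤ G.rt k j :=
  dw_ind (by simp [rt_top]) fun j e ih => by
    rw [h.rt_step e, show k - j = k - (j + 1) + 1 by omega, pow_succ']
    exact Nat.mul_le_mul_left _ ((Nat.pow_le_pow_left (h.L_mono j.le_succ) _).trans ih)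

theorem Q_succ (k : ℕ) : G.Q (k + 1) ≤ G.L k * G.Q k := by
  have a : (G.L (k + 1) : ℝ) ≤ 3 * G.L k := by exact_mod_cast h.L_succ k
  have b : ((3 : ℕ) ^ G.K : ℝ) ≤ G.L k := by
    exact_mod_cast (Nat.pow_le_pow_left (by norm_num) _).trans (h.pow_L k (i := G.K) (by omega))
  refine (pow_le_pow_left₀ (Nat.cast_nonneg _) a _).trans ?_
  rw [mul_pow]
  exact mul_le_mul_of_nonneg_right b (by positivity)

theorem Q_rt_mono (e : j ≤ k) (hk : k ≤ J) : G.Q k * G.rt J k ≤ G.Q j * G.rt J j := by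
  induction k, e using Nat.le_induction with
  | base => rfl
  | succ k _ ih =>
    refine le_trans ?_ (ih (by omega))
    rw [h.rt_step (show k < J from hk), Nat.cast_mul, ← mul_assoc, mul_comm (G.Q k)]
    exact mul_le_mul_of_nonneg_right (h.Q_succ k) (Nat.cast_nonneg _)

theorem e_succ (k : ℕ) : (3 : ℝ) ^ G.e (k + 1) = G.L k * 3 ^ G.e k := by
  exact_mod_cast (LL_mul h.sch.mono.monotone k).symm

/-- the level at which sources at distance `d` begin to interact -/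
theorem ex_jm {A : ℝ} (A0 : 0 < A) {P : ℕ → Prop} (e : ∀ᶠ j in atTop, P j) :
    ∀ᶠ d in 𝓝[>] (0 : ℝ), 0 < d ∧ ∃ j, P j ∧ A * G.L j ^ G.K0 ≤ d * 3 ^ G.e j ∧
      d * 3 ^ G.e j ≤ A * G.L j ^ (G.K0 + 1) := by
  obtain ⟨n, hn⟩ := eventually_atTop.1 e
  have L0 : ∀ j, (0 : ℝ) < G.L j := fun j => by linarith [h.L1 j]
  filter_upwards [Ioo_mem_nhdsGT (show 0 < A * G.L n ^ G.K0 / 3 ^ G.e n by
    have := L0 n; positivity)] with d ⟨d0, d1⟩
  have a : ∃ s, A * G.L (n + s) ^ G.K0 ≤ d * 3 ^ G.e (n + s) := by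
    obtain ⟨j, h1, h2⟩ := ((h.ev_L (A / d)).and (eventually_ge_atTop n)).exists
    refine ⟨j - n, ?_⟩
    rw [Nat.add_sub_cancel' h2]
    rw [div_le_iff₀' d0] at h1
    have := (h.Lb j (i := G.K0 + 1) (by have := h.B1; omega)).trans (h.b_e j)
    rw [pow_succ'] at this
    calc _ ≤ d * G.L j * G.L j ^ G.K0 := by gcongr
      _ ≤ _ := by rw [mul_assoc]; gcongr
  classical
  refine ⟨d0, n + Nat.find a, hn _ (Nat.le_add_right ..), Nat.find_spec a, ?_⟩
  obtain ⟨s, hs⟩ : ∃ s, Nat.find a = s + 1 := Nat.exists_eq_succ_of_ne_zero fun e => by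
    have := Nat.find_spec a
    rw [e, add_zero] at this
    exact this.not_gt ((lt_div_iff₀ (by positivity)).1 d1)
  have b := (not_le.1 (Nat.find_min a (m := s) (by omega))).le
  have c : (G.L (n + s) : ℝ) ≤ G.L (n + s + 1) := Nat.cast_le.2 (h.L_mono (Nat.le_succ _))
  rw [hs, ← add_assoc, h.e_succ, mul_left_comm d, pow_succ', mul_left_comm A]
  have := L0 (n + s)
  exact mul_le_mul c (b.trans (by gcongr)) (by positivity) (by linarith)

end Ok

end Pool.Agent.Lib.MP_7f377f_mp.RG.Q4.En.Gl
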