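import Pool.Agent.Lib.MP_7f377f_mp.G.InfE
import Pool.Agent.Lib.MP_7f377f_mp.G.Q5Br
import Pool.Agent.Lib.MP_7f377f_mp.G.Q4PosC

/-! Sources which sample rescaled test functions. -/

noncomputable section

set_option linter.unusedSectionVars false
variable [Pool.Agent.Lib.MP_7f377f_mp.GD]

namespace Pool.Agent.Lib.MP_7f377f_mp.YM7

open MeasureTheory Weak

variable {n k m lam D : ℕ} {f : Fin k → R4 → ℝ} {Λ δ₀ δ a s τ : ℝ} {v x y : Site 4 n} {i j : Fin k}

/-- the constants of a family of test functions -/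
structure Tf (f : Fin k → R4 → ℝ) (Λ δ : ℝ) : Prop where
  one : 1 ≤ Λ
  pos : 0 < δ
  cube : ∀ i y, f i y ≠ 0 → ∀ l, |y l| ≤ Λ
  bd : ∀ i y, |f i y| ≤ Λ
  lip : ∀ i y z, |f i y - f i z| ≤ Λ * dist y z
  sep : ∀ i j, i ≠ j → ∀ y z, f i y ≠ 0 → f j z ≠ 0 → ∃ l, δ ≤ |y l - z l|

theorem Adm.tf (hf : Adm f) : ∃ Λ δ, Tf f Λ δ := by
  obtain ⟨D, q, h1, h2, h3⟩ := hf.data
  have q0 : (0 : ℝ) < 1 / (q + 1) := by positivity
  refine ⟨D + 1, 1 / (q + 1) / 3, by simp, by positivity,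
    fun i y hy l => (cube_of (h1 i) y hy l).trans (by simp), fun i y => ((h2 i).2 y).trans (by simp),
    fun i y z => ((h2 i).1.dist_le_mul y z).trans (by gcongr; simp), fun i j e y z hy hz => ?_⟩
  by_contra! c
  linarith [dist_le_two fun l => (c l).le,
    h3 i j e y (subset_tsupport _ hy) z (subset_tsupport _ hz)]

/-- the source with relative lattice spacing `s` and centre `v` -/
def tsr (Λ : ℝ) (f : Fin k → R4 → ℝ) (s : ℝ) (v : Site 4 n) (i : Fin k) : Src n :=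
  fun x _ _ => Λ⁻¹ * f i (xp s (x - v))

namespace Tf

variable (H : Tf f Λ δ₀)
include H

theorem supp {μ ν : Fin 4} (h : tsr Λ f s v i x μ ν ≠ 0) (l : Fin 4) :
    |s * ((x - v) l).valMinAbs| ≤ Λ := H.cube i _ (right_ne_zero_of_mul h) l

theorem le_one (μ ν : Fin 4) : |tsr Λ f s v i x μ ν| ≤ 1 := by
  have := H.one
  rw [tsr, abs_mul, abs_inv, abs_of_pos (by positivity), inv_mul_le_one₀ (by positivity)]
  exact H.bd _ _

variable [NeZero n]

theorem grad (s0 : 0 < s) (hn : 2 * Λ + 2 * s < s * n) (μ ν l : Fin 4) :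
    |tsr Λ f s v i (x + Pi.single l 1) μ ν - tsr Λ f s v i x μ ν| ≤ s := by
  have := H.one
  rw [tsr, tsr, ← mul_sub, abs_mul, abs_inv, abs_of_pos (by positivity),
    inv_mul_le_iff₀ (by positivity), add_sub_right_comm]
  exact grad_site (by positivity) (fun y l t => by simpa using H.lip i (y + .single l t) y)
    (H.cube i) s0 hn _ l

theorem nrm (s0 : 0 < s) (hn : 2 * Λ + 2 * s < s * n) (hτ : 0 ≤ τ) : Nrm s τ (tsr Λ f s v i) :=
  ⟨fun x => tsr Λ f s v i x 0 0, fun _ => H.le_one 0 0, fun _ => H.grad s0 hn 0 0,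
    fun x μ ν => by simpa [tsr]⟩

theorem sp (s0 : 0 < s) (hn : 4 * Λ < s * n) (hD : D * s ≤ δ₀) : Sp D (tsr Λ f s v) :=
  fun i j e x μ ν y μ' ν' h h' => by
    obtain ⟨l, hl⟩ := H.sep i j e _ _ (right_ne_zero_of_mul h) (right_ne_zero_of_mul h')
    have a := H.supp h l
    have b := H.supp h' l
    simp only [xp, ← mul_sub, abs_mul, abs_of_pos s0] at hl a b
    have c : |((x - v) l).valMinAbs + -((y - v) l).valMinAbs| * 2 < n := by
      have : |(((x - v) l).valMinAbs - ((y - v) l).valMinAbs : ℝ)| * 2 < n :=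
        lt_of_mul_lt_mul_left (by
          nlinarith [abs_sub (((x - v) l).valMinAbs : ℝ) ((y - v) l).valMinAbs]) s0.le
      exact_mod_cast this
    have d := vma_add c
    rw [Int.cast_neg, ZMod.coe_valMinAbs, show (x - v) l + -(y - v) l = (x - y) l by simp] at d
    refine ⟨l, ?_⟩
    have : (D : ℝ) ≤ |((x - y) l).valMinAbs| := by
      rw [d]; push_cast; exact le_of_mul_le_mul_left (by rw [← sub_eq_add_neg]; linarith) s0
    rw [← Int.natCast_natAbs] at this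
    exact_mod_cast this

theorem inT {c : Site 4 m} (s0 : 0 < s) (a0 : 0 < a) (δ0 : 0 < δ) (hl : lam ≤ n)
    (hv : ∀ l, δ + a / s * Λ ≤ a * ((v - corner lam c : Site 4 n) l).val ∧
      a * ((v - corner lam c : Site 4 n) l).val ≤ a * lam - δ - a / s * Λ) :
    InT a δ lam c (tsr Λ f s v i) := fun x μ ν h l => by
  have b := H.supp h l
  obtain ⟨c1, c2⟩ := hv l
  generalize ht : ((x - v) l).valMinAbs = t at b
  generalize hu : (v - corner lam c : Site 4 n) l = u at c1 c2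
  have b' : |a * t| ≤ a / s * Λ := by
    rw [abs_mul, abs_of_pos s0] at b
    rw [abs_mul, abs_of_pos a0, div_mul_eq_mul_div, le_div_iff₀ s0]
    nlinarith
  obtain ⟨b1, b2⟩ := abs_le.1 b'
  have l' : (lam : ℝ) ≤ n := by exact_mod_cast hl
  have u0 : (0 : ℝ) < u.val + t := (mul_pos_iff_of_pos_left a0).1 (by linarith)
  have u1 : (u.val + t : ℝ) < n := lt_of_mul_lt_mul_left (by nlinarith) a0.le
  have e : (((x - corner lam c : Site 4 n) l).val : ℤ) = u.val + t := by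
    rw [show (x - corner lam c : Site 4 n) l = (u.val + t : ℤ) by simp [← ht, ← hu], ZMod.val_intCast,
      Int.emod_eq_of_lt (by exact_mod_cast u0.le) (by exact_mod_cast u1)]
  have e' : (((x - corner lam c : Site 4 n) l).val : ℝ) = u.val + t := by exact_mod_cast e
  rw [e']
  constructor <;> linarith

/-- the sources are admissible -/
theorem cla {c : Site 4 m} (s0 : 0 < s) (a0 : 0 < a) (δ0 : 0 < δ) (hτ : 0 ≤ τ) (hl : lam ≤ n)
    (hn : 4 * Λ < s * n) (s1 : s ≤ 1) (hD : D * s ≤ δ₀)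
    (hv : ∀ l, δ + a / s * Λ ≤ a * ((v - corner lam c : Site 4 n) l).val ∧
      a * ((v - corner lam c : Site 4 n) l).val ≤ a * lam - δ - a / s * Λ) :
    Cla a s τ δ lam D c (tsr Λ f s v) :=
  ⟨fun _ => ⟨H.nrm s0 (by linarith [H.one]) hτ, H.inT s0 a0 δ0 hl hv⟩, H.sp s0 hn hD⟩

theorem corr [MeasurableSpace SU2] [BorelSpace SU2] (h : Measure SU2) [h.IsHaarMeasure]
    [IsProbabilityMeasure h] (b a d : ℝ) (v : Site 4 n) :
    corr h b n a (fun i y => f i (d⁻¹ • y)) = Λ ^ k * gcorr h b n (tsr Λ f (a / d) v) := by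
  have := H.one
  have e := (gM (n := n) h b k).map_smul_univ (fun _ => Λ) (tsr Λ f (a / d) v)
  rw [gM_apply, gM_apply, Finset.prod_const, Finset.card_fin, smul_eq_mul] at e
  rw [← e, corr_eq, ← gcorr_shift h b _ v]
  congr 1
  ext i x μ ν
  simp only [tsr, Pi.smul_apply, smul_eq_mul]
  rw [mul_inv_cancel_left₀ (by positivity)]
  congr 1
  ext l
  simp [xp]
  ring

end Tf

end Pool.Agent.Lib.MP_7f377f_mp.YM7

namespace Pool.Agent.Lib.MP_7f377f_mp.RG.Q4.Br

open YM7 Fi En.Pos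

variable {n n₀ r k R : ℕ} {f : Fin k → R4 → ℝ} {Λ δ₀ s : ℝ} {i : Fin k}

/-- the profile of the source with centre `y` -/
def prf (n : ℕ) (Λ : ℝ) (f : Fin k → R4 → ℝ) (s : ℝ) (y : St) (i : Fin k) (x : St) : ℂ :=
  symF (tsr Λ f s (cst n y) i) x 0 0

theorem prf_le (H : Tf f Λ δ₀) (y x : St) : ‖prf n Λ f s y i x‖ ≤ 1 :=
  (Complex.norm_real _).trans_le (H.le_one _ _)

theorem prf_lip [NeZero n] (H : Tf f Λ δ₀) (s0 : 0 < s) (hn : 2 * Λ + 2 * s < s * n) (y : St) :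
    LipT n (4 * s) (prf n Λ f s y i) :=
  lipT_zmod (g := fun x => tsr Λ f s (cst n y) i x 0 0) fun _ => H.grad s0 hn 0 0

/-- sampling at the points of a coarser lattice -/
theorem prf_smul [NeZero n₀] (hn : r * n₀ = n) (r0 : 0 < r) (y x : St) :
    prf n Λ f s ((r : ℤ) • y) i ((r : ℤ) • x) = prf n₀ Λ f (r * s) y i x := by
  subst hn
  have : NeZero (r * n₀) := ⟨mul_ne_zero r0.ne' (NeZero.ne _)⟩
  simp only [prf, symF, tsr]
  congr 3
  ext l
  obtain ⟨a, b⟩ := ((cst n₀ x - cst n₀ y) l).valMinAbs_mem_Ioc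
  have r1 : (0 : ℤ) < r := by exact_mod_cast r0
  have e : ((cst (r * n₀) ((r : ℤ) • x) - cst (r * n₀) ((r : ℤ) • y)) l).valMinAbs =
      r * ((cst n₀ x - cst n₀ y) l).valMinAbs := by
    refine (ZMod.valMinAbs_spec _ _).2 ⟨?_, by push_cast; nlinarith, by push_cast; nlinarith⟩
    obtain ⟨q, hq⟩ := (ZMod.intCast_eq_intCast_iff_dvd_sub _ (x l - y l) _).1
      (((cst n₀ x - cst n₀ y) l).coe_valMinAbs.trans (by simp [cst]))
    rw [← cst_sub, ← smul_sub]
    exact ((ZMod.intCast_eq_intCast_iff_dvd_sub _ _ _).2 ⟨q, by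
      simp only [Pi.smul_apply, Pi.sub_apply, smul_eq_mul]; push_cast
      linear_combination r * hq⟩).symm
  simp only [xp, e]
  push_cast
  ring

/-- sources near the middle of the cell at the origin -/
theorem cla_mid [NeZero n] {m lam D u : ℕ} [NeZero m] {a τ ρ : ℝ} (H : Tf f Λ δ₀) (s0 : 0 < s)
    (a0 : 0 < a) (hτ : 0 ≤ τ) (hl : lam ≤ n) (hn : 4 * Λ < s * n) (s1 : s ≤ 1) (hD : D * s ≤ δ₀)
    (hρ : ρ < a * lam / 2) (hu : |a * u - a * lam / 2| + a / s * Λ ≤ ρ) :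
    Cla (m := m) a s τ (a * lam / 2 - ρ) lam D 0 (tsr Λ f s (cst n fun _ => u)) := by
  have p : 0 ≤ a / s * Λ := by have := H.one; positivity
  obtain ⟨b1, b2⟩ := abs_le.1 (le_sub_iff_add_le.2 hu)
  have : (u : ℝ) < lam := lt_of_mul_lt_mul_left (by linarith) a0.le
  refine H.cla s0 a0 (by linarith) hτ hl hn s1 hD fun l => ?_
  simp only [cst, Weak.corner, Pi.sub_apply, Pi.zero_apply, ZMod.val_zero, mul_zero, Nat.cast_zero,
    sub_zero, Int.cast_natCast, ZMod.val_cast_of_lt ((Nat.cast_lt.1 this).trans_le hl)]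
  constructor <;> linarith

/-- the middle of a cell -/
def mid {m : ℕ} (lam : ℕ) (c : Weak.Site 4 m) : St := fun l => (lam * (c l).val + lam / 2 : ℕ)

theorem sup_inT [NeZero n] {m lam : ℕ} {a δ : ℝ} {c : Weak.Site 4 m} {F : Src n} (hn : Odd n)
    (a0 : 0 < a) (h : YM7.InT a δ lam c F) (hR : a * lam / 2 - δ + a ≤ a * R) :
    sup F ⊆ tb n R {mid lam c} := fun x hx => by
  obtain ⟨μ, ν, b⟩ := mem_sup hx
  have k := fun l => (ZMod.intCast_eq_intCast_iff_dvd_sub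
    ((cst n x - Weak.corner lam c : Weak.Site 4 n) l).val (x l - (lam * (c l).val : ℕ)) n).1
    (by simp [cst, Weak.corner])
  choose q hq using k
  refine mem_tb_single.2 ⟨rc_eq hn (Finset.mem_filter.1 hx).1, nearT_iff.2 ⟨q, fun l => ?_⟩⟩
  obtain ⟨b1, b2⟩ := h _ _ _ b l
  have e := hq l
  generalize ((cst n x - Weak.corner lam c : Weak.Site 4 n) l).val = t at b1 b2 e
  have c1 : (2 * t + 2 : ℝ) ≤ lam + 2 * R := le_of_mul_le_mul_left (by linarith) a0
  have c2 : (lam + 2 : ℝ) ≤ 2 * t + 2 * R := le_of_mul_le_mul_left (by linarith) a0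
  have c3 : 2 * t + 2 ≤ lam + 2 * R := by exact_mod_cast c1
  have c4 : lam + 2 ≤ 2 * t + 2 * R := by exact_mod_cast c2
  rw [mid]
  push_cast at e ⊢
  omega

section
variable [NeZero n] {m lam D : ℕ} [NeZero m] {a a' τ δ : ℝ} {κ : Type}
  {F : Weak.Site 4 m → κ → Src n} (hn : n = m * lam) (a0 : 0 < a)
  (h : ∀ c, Cla a a' τ δ lam D c (F c)) (A : Finset (Weak.Site 4 m × κ))
include hn a0 h

theorem cls_cell : Sg.Cls n (2 * δ / a) A Prod.fst
    fun p : Weak.Site 4 m × κ => sup (F p.1 p.2) :=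
  fun _ _ _ _ e => sep_cell hn a0 ((h _).1 _).2 ((h _).1 _).2 e

theorem cls_id (hD : D ≤ 2 * δ / a) :
    Sg.Cls n D A id fun p : Weak.Site 4 m × κ => sup (F p.1 p.2) :=
  fun ⟨c, i⟩ _ ⟨c', j⟩ _ e => by
    rcases eq_or_ne c c' with rfl | k
    · exact sep_sp (h c).2 fun k => e (Prod.ext rfl k)
    · exact (sep_cell hn a0 ((h _).1 _).2 ((h _).1 _).2 k).mono hD (by rfl) (by rfl)

end

theorem fd_prf {G : En.Gl} (h : G.Ok) {J j : ℕ} (hj : j ≤ J) (y : St) :
    G.fd J j (prf (G.N J) Λ f s ((G.rt J j : ℤ) • y) i) = prf (G.N j) Λ f (G.rt J j * s) y i :=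
  have : NeZero (G.N j) := ⟨(h.N_odd j).pos.ne'⟩
  funext fun _ => prf_smul (h.rt_N hj) (pow_pos three_pos _) _ _

end Pool.Agent.Lib.MP_7f377f_mp.RG.Q4.Br
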