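import Pool.Agent.Lib.MP_7f377f_mp.G.SoftA

/-! Bounds which are uniform in the volume from the factorisation over cells. -/

noncomputable section

namespace Pool.Agent.Lib.MP_7f377f_mp.YM7
variable [GD]

open MeasureTheory Weak Filter Topology Real Jet Finset

variable {n m lam μ D : ℕ} [NeZero n] {κ : Type} [Fintype κ] [DecidableEq κ]
  {Λ : (Cfg n → ℝ) → ℝ} {a a' τ τ' δ δ' w M C b : ℝ} {F : κ → Src n} {T : Finset κ}

/-- the observables of a cell -/
def ob (Λ : (Cfg n → ℝ) → ℝ) (F : κ → Src n) (T : Finset κ) (U : Cfg n) : ℝ :=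
  ∑ S ∈ T.powerset, (∏ i ∈ S, -gfield (F i) U) * (jd (T \ S) fun s => (ma univ (mom Λ F) s)⁻¹).re

omit [Fintype κ] [DecidableEq κ] in
theorem cont_prod (F : κ → Src n) (S : Finset κ) : Continuous fun U => ∏ i ∈ S, -gfield (F i) U :=
  continuous_finsetProd S fun _ _ => (continuous_gfield _).neg

theorem cont_ob (Λ : (Cfg n → ℝ) → ℝ) (F : κ → Src n) (T : Finset κ) : Continuous (ob Λ F T) :=
  continuous_finsetSum _ fun S _ => (cont_prod _ S).mul continuous_const

theorem ob_of {Θ : Cfg n → Cfg n} {G : κ → Src n} (e : ∀ i U, gfield (G i) U = gfield (F i) (Θ U))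
    (h : ∀ O, Continuous O → Λ (fun U => O (Θ U)) = Λ O) (U : Cfg n) :
    ob Λ G T U = ob Λ F T (Θ U) := by
  have : mom Λ G = mom Λ F := funext fun S => by simp only [mom, e, h _ (cont_prod F S)]
  simp only [ob, this, e]

namespace Inv

variable (hI : Inv Λ lam)
include hI

omit [Fintype κ] [DecidableEq κ] in
theorem mom0 (F : κ → Src n) : mom Λ F ∅ = 1 := by simp [mom, hI.one]

theorem ob0 (F : κ → Src n) (U : Cfg n) : ob Λ F ∅ U = 1 := by simp [ob, ma_zero, hI.mom0]

theorem ob_eq (F : κ → Src n) (T : Finset κ) (U : Cfg n) : (ob Λ F T U : ℂ) = jd T fun s =>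
    Complex.exp (∑ i, s i * (-gfield (F i) U : ℝ)) * (ma univ (mom Λ F) s)⁻¹ := by
  obtain ⟨r, hr, -⟩ := (ev_inv (hI.mom0 F)).exists
  refine Eq.trans ?_ (jd_mul (sh_lin hr.pos univ _).exp hr T).symm
  rw [ob, Complex.ofReal_sum]
  refine sum_congr rfl fun S _ => ?_
  rw [jd_exp_lin _ (subset_univ S), Complex.ofReal_mul, Complex.ofReal_prod]
  refine congrArg _ (Complex.ext rfl (jd_real hr (fun s _ hs => ?_) _).symm)
  have : ∀ T, (mon T s).im = 0 := fun T => prod_induction _ (fun z : ℂ => z.im = 0)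
    (fun _ _ h h' => by simp [h, h']) rfl fun i _ => hs i
  simp [ma, mom, this]

theorem ob_rL [MeasurableSpace SU2] [BorelSpace SU2] (k : Fin 4) (U : Cfg n) : ob Λ (fun i => rL lam k (F i)) T U =
    ob Λ F T (refl k (shift (Pi.single k (lam : ZMod n)) U)) :=
  ob_of (Θ := fun U => refl k (shift _ U)) (fun i U => by rw [← gfield_refl, ← gfield_shift]; rfl)
    (fun O hO => (hI.sh (fun U => O (refl k U)) (hO.comp (continuous_refl k)) _ fun l => by
      by_cases e : l = k
      exacts [⟨1, by simp [e]⟩, ⟨0, by simp [e]⟩]).trans (hI.rf O hO k)) U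

theorem ob_sh (c : Site 4 m) (U : Cfg n) :
    ob Λ (fun i y => F i (y - corner lam c)) T U = ob Λ F T (shift (corner lam c) U) :=
  ob_of (fun _ => gfield_shift _ _) (fun O hO => hI.sh O hO _ fun _ => ⟨_, rfl⟩) U

end Inv

/-- corners of a plaquette -/
def Cor (x : Site 4 n) (i j : Fin 4) (y : Site 4 n) : Prop :=
  ∀ l, y l = x l ∨ ((i = l ∨ j = l) ∧ y l = x l + 1)

/-- separation of the plaquettes of different sources -/
def Sc (D : ℕ) (F : κ → Src n) : Prop := ∀ i j, i ≠ j → ∀ x μ ν y μ' ν' x' y', F i x μ ν ≠ 0 →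
  F j y μ' ν' ≠ 0 → Cor x μ ν x' → Cor y μ' ν' y' → ∃ l, D ≤ ((x' - y') l).valMinAbs.natAbs

omit [NeZero n] in
theorem Cor.rq {x y : Site 4 n} {i j : Fin 4} (h : Cor x i j y) (k : Fin 4) (v : Site 4 n) :
    Cor (rq k i j (x - v)) i j (rf k (y - v)) := fun l => by
  have := h l
  by_cases hl : l = k
  · subst hl
    by_cases h : i = l ∨ j = l
    · rcases this with e | e
      · exact Or.inr ⟨h, by simp [Weak.rq, rc, rf, h, e]⟩
      · exact Or.inl (by simp [Weak.rq, rc, rf, h, e.2]; ring)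
    · exact Or.inl (by simp [Weak.rq, rf, h, this.resolve_right fun e => h e.1])
  · by_cases h : i = k ∨ j = k <;> simpa [Weak.rq, rc, rf, hl, h, sub_add_eq_add_sub] using this

omit [Fintype κ] [DecidableEq κ] [NeZero n] in
theorem Sc.rL (h : Sc D F) (lam : ℕ) (k : Fin 4) : Sc D fun i => rL lam k (F i) :=
  fun i j e x μ ν y μ' ν' x' y' a b c d => (h i j e _ _ _ _ _ _ _ _ a b (c.rq k _) (d.rq k _)).imp
    fun l hl => by
      by_cases e : l = k
      · rw [← ZMod.natAbs_valMinAbs_neg]; simpa [rf, e, sub_eq_neg_add, add_comm, add_left_comm] using hl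
      · simpa [rf, e] using hl

theorem Cor.le {x y : Site 4 n} {i j : Fin 4} (h : Cor x i j y) (l : Fin 4) :
    (y l - x l).valMinAbs.natAbs ≤ 1 := by
  rcases h l with e | e
  · simp [e]
  · rw [e.2, add_sub_cancel_left]
    exact ZMod.natAbs_min_of_le_div_two n _ 1 (by simp) (ZMod.natAbs_valMinAbs_le _)

omit [Fintype κ] [DecidableEq κ] in
theorem Sp.sc (h : Sp (D + 2) F) (v : Site 4 n) : Sc D fun i x => F i (x + v) :=
  fun i j e x μ ν y μ' ν' x' y' a b c d => (h i j e _ _ _ _ _ _ a b).imp fun l hl => by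
    have t := fun a b : ZMod n => (ZMod.natAbs_valMinAbs_add_le a b).trans (Int.natAbs_add_le _ _)
    have h1 := t ((x' - y') l) (y' l - y l)
    have h2 := t ((x' - y') l + (y' l - y l)) (-(x' l - x l))
    rw [ZMod.natAbs_valMinAbs_neg, show (x' - y') l + (y' l - y l) + -(x' l - x l) =
      (x + v - (y + v)) l by simp] at h2
    have := c.le l
    have := d.le l
    omega

omit [NeZero n] in
theorem Lab.cla {G : Src n} (h : Lab a' τ lam μ G) (ha : 0 < a) (hμ : δ ≤ a * μ) (c : Site 4 m) :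
    Nrm a' τ (fun y => G (y - corner lam c)) ∧ InT a δ lam c fun y => G (y - corner lam c) := by
  obtain ⟨⟨g, g1, g2, g3⟩, g4⟩ := h
  refine ⟨⟨fun y => g (y - corner lam c), fun _ => g1 _, fun y l => ?_,
    fun y i j => g3 _ _ _ _ fun _ => Or.inl rfl⟩, fun y i j hy l => ?_⟩
  · beta_reduce; rw [add_sub_right_comm]; exact g2 _ _
  · obtain ⟨b1, b2⟩ := g4 _ _ _ hy l
    have b3 : (μ : ℝ) ≤ ((y - corner lam c : Site 4 n) l).val := by exact_mod_cast b1
    have b4 : (((y - corner lam c : Site 4 n) l).val : ℝ) + μ ≤ lam := by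
      exact_mod_cast (by omega : ((y - corner lam c : Site 4 n) l).val + μ ≤ lam)
    constructor <;> nlinarith

omit [NeZero n] in
theorem lab_of {G : Src n} {c : Site 4 m} (h : Nrm a' τ' G) (h' : InT a δ' lam c G) (ha : 0 < a)
    (hδ : 0 ≤ δ) (haδ : δ + a ≤ δ') (hτ : τ' + 4 * a' ≤ τ) : Lab a' τ lam ⌈δ / a⌉₊ fun x => G (x + corner lam c) := by
  obtain ⟨g, g1, g2, g3⟩ := h
  refine ⟨⟨fun x => g (x + corner lam c), fun _ => g1 _, fun x l => ?_, fun x j j' y hy => ?_⟩,
    fun x j j' hx l => ?_⟩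
  · beta_reduce; rw [add_right_comm]; exact g2 _ _
  · have := lip_cube g2 (x := x + corner lam c) (y := y + corner lam c) fun l => by
      rcases hy l with e | e
      · exact Or.inl (by simp [e])
      · exact Or.inr (by simp [e.2]; ring)
    rw [abs_sub_comm] at this
    exact (abs_sub_le _ _ _).trans (by linarith [g3 (x + corner lam c) j j'])
  · obtain ⟨h1, h2⟩ := h' _ _ _ hx l
    rw [add_sub_cancel_right] at h1 h2
    have t1 : ⌈δ / a⌉₊ ≤ (x l).val := Nat.ceil_le.2 ((div_le_iff₀' ha).2 (by linarith))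
    have t2 : ⌈δ / a + ((x l).val + 1 : ℕ)⌉₊ ≤ lam := Nat.ceil_le.2 (by
      rw [← le_sub_iff_add_le, div_le_iff₀' ha]; push_cast; linarith)
    rw [Nat.ceil_add_natCast (div_nonneg hδ ha.le)] at t2
    split_ifs <;> omega

variable [MeasurableSpace SU2] [BorelSpace SU2] {h : Measure SU2} [h.IsHaarMeasure]
  [IsProbabilityMeasure h] [NeZero m]

theorem Gen.le {P : Site 4 m → (κ → Src n) → Prop} (hG : Gen h b Λ P w M) (hI : Inv Λ lam)
    (w0 : 0 < w) {F : Site 4 m → κ → Src n} (hF : ∀ c, P c (F c)) (T : Site 4 m → Finset κ) :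
    |∫ U, ∏ c, ob Λ (F c) (T c) U ∂wilson h b n| ≤ M * ∏ c, w ^ (T c).card := by
  obtain ⟨g, hg, e⟩ := hG F hF
  obtain ⟨r, hr, r1⟩ := ((eventually_all.2 fun c => ev_inv (hI.mom0 (F c))).and
    (Ioo_mem_nhdsGT (inv_pos.2 w0))).exists
  have r0 : ∀ _ : Site 4 m × κ, 0 < r := fun _ => r1.1
  have h1 := SH.prod (X := univ) r0 fun c _ => (hr c).1.cell c
  have h2 := SH.prod (X := univ) r0 fun c _ => (sh_ma (fun _ => r1.1) univ (mom Λ (F c))).cell c
  have h3 := hg.shrink r0 fun _ => r1.2.le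
  have h4 := ((Eqv.mk ⟨_, sh_ma r0 univ _⟩ ⟨_, h3.mul h2⟩ fun B hB => (jd_ma _ hB).trans (e B)).mul
    (Hb.refl (A := univ) ⟨_, h1⟩))
  have h5 := (h4.trans (h4.snd.congr (g' := g) fun s hs => by
    simp only [Pi.mul_apply, mul_assoc, ← prod_mul_distrib]
    rw [prod_eq_one fun c _ => mul_inv_cancel₀ ((hr c).2 _ fun i => hs _), mul_one])).eq _
      (subset_univ (univ.biUnion fun c => (T c).image (Prod.mk c)))
  rw [← int_jd h b _ h1] at h5
  rw [← Real.norm_eq_abs, ← Complex.norm_real, ← integral_complex_ofReal]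
  refine (congrArg _ ((congrArg _ (funext fun U => ?_)).trans h5)).trans_le
    ((hg.jd_le _).trans_eq ?_)
  · simp only [Complex.ofReal_prod, hI.ob_eq]
    refine (jd_cells r1.1 univ (fun c => (sh_lin (fun _ => r1.1) univ _).exp.mul (hr c).1)
      T).symm.trans ?_
    simp only [Pi.mul_apply, prod_mul_distrib, ← Complex.exp_sum, Fintype.sum_prod_type]
  · rw [prod_biUnion fun c _ c' _ e => disjoint_left.2 (by simp; grind), div_eq_mul_inv,
      ← prod_inv_distrib]
    exact congrArg _ (prod_congr rfl fun c _ => by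
      rw [prod_image (Prod.mk_right_injective c).injOn]; simp)

variable (hb : 0 ≤ b) (hm : Odd m) (hn : n = m * lam) (m1 : 1 < m) (ha : 0 < a) (hδ : 0 ≤ δ)
  (haδ : δ + a ≤ δ') (hτ : τ' + 4 * a' ≤ τ) (hI : Inv Λ lam) (w0 : 0 < w) (hC : 0 ≤ C)
  (hG : Gen h b (κ := κ) Λ (Cla (m := m) a a' τ δ lam D) w (exp (C * m ^ 4))) {c : Site 4 m}
  (hF : Cla a a' τ' δ' lam (D + 2) c F)
include hb hm hn m1 ha hδ haδ hτ hI w0 hC hG hF

/-- the chessboard estimate for the observables of one cell -/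
theorem ob_le (T : Finset κ) : |∫ U, ob Λ F T U ∂wilson h b n| ≤ exp (256 * C) * w ^ T.card := by
  classical
  rcases T.eq_empty_or_nonempty with rfl | ⟨i0, -⟩
  · simpa [hI.ob0] using hC
  have l0 : 0 < lam := Nat.pos_of_ne_zero (by rintro rfl; exact NeZero.ne n hn)
  have ln : lam < n := by rw [hn]; nlinarith
  obtain ⟨g, -, g2, g3⟩ := (hF.1 i0).1
  have a0 := (abs_nonneg _).trans (g2 0 0)
  have τ0 := (abs_nonneg _).trans (g3 0 0 0)
  let β := Option ({G : κ → Src n // (∀ i, Lab a' τ lam ⌈δ / a⌉₊ (G i)) ∧ Sc D G} × Finset κ)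
  have key := YM5.wilson_chess_cell h hb hm hn (β := β) none (fun k o => o.map fun G =>
      (⟨fun i => rL lam k (G.1.1 i), fun i => (G.1.2.1 i).rL ln k, G.1.2.2.rL lam k⟩, G.2))
    (fun _ => rfl) (fun k o => by cases o <;> simp [rL_rL])
    (fun o U => o.elim 1 fun G => ob Λ G.1.1 G.2 U)
    (fun o => by
      cases o
      · exact BM.const 1
      · exact BM.of_continuous (cont_ob _ _ _))
    (fun _ => rfl)
    (fun o k U => by
      rcases o with _ | G
      · simp only [Option.elim, Option.map]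
      · simpa only [Option.elim, Option.map] using hI.ob_rL (F := G.1.1) (T := G.2) k U)
    (fun o U V hUV => by
      rcases o with _ | G
      · simp only [Option.elim]
      · simp only [Option.elim, ob, fun i => (G.1.2.1 i).dep ln U V hUV])
    (fun o => o.elim 1 fun G => w ^ G.2.card) (fun o => by cases o <;> simp [w0]) rfl
    (fun k o => by cases o <;> rfl) hC (fun σ => ?_) 1 c
    (fun x => if x = c then some (⟨_, fun i => lab_of (hF.1 i).1 (hF.1 i).2 ha hδ haδ hτ,
      hF.2.sc _⟩, T) else none) fun x l hx => if_neg (by rintro rfl; simp at hx)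
  · rw [prod_eq_single c (fun x _ e => by rw [if_neg e]; rfl) (by simp), if_pos rfl] at key
    refine le_trans (le_of_eq ?_) (key.trans_eq (by norm_num [mul_comm]))
    congr 2
    funext U
    rw [prod_eq_single c (fun x _ e => by rw [if_neg e]; rfl) (by simp), if_pos rfl]
    simp only [Option.elim, ← hI.ob_sh, sub_add_cancel]
  · have := hG.le hI w0 (F := fun x => (σ x).elim 0 fun G i y => G.1.1 i (y - corner lam x))
      (fun x => ?_) fun x => (σ x).elim ∅ (·.2)
    · refine (congrArg (|∫ U, · U ∂_|) (funext fun U => prod_congr rfl fun x _ => ?_)).trans_le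
        (this.trans_eq (congrArg _ (prod_congr rfl fun x _ => ?_)))
      all_goals rcases σ x with _ | G <;> simp [hI.ob0, hI.ob_sh]
    · rcases σ x with _ | G
      · exact ⟨fun i => ⟨⟨0, by simp, by simpa, by simp; linarith⟩, fun _ _ _ e => (e rfl).elim⟩,
          fun _ _ _ _ _ _ _ _ _ e => (e rfl).elim⟩
      · exact ⟨fun i => (G.1.2.1 i).cla ha ((div_le_iff₀' ha).1 (Nat.le_ceil _)) x,
          fun i j e y _ _ y' _ _ a b => by
            simpa using G.1.2.2 i j e _ _ _ _ _ _ _ _ a b (fun _ => .inl rfl) fun _ => .inl rfl⟩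

theorem red_of_gen {e : Finset κ → ℂ} (hR : Red Λ F w M e) :
    Red (ex h b n) F w (2 ^ Fintype.card κ * exp (256 * C) * M) e := by
  obtain ⟨e0, q, hq, q0, hm'⟩ := hR
  have hN := sh_ma_le (a := fun T => (∫ U, ob Λ F T U ∂wilson h b n : ℝ)) w0 fun T => by
    simpa using ob_le hb hm hn m1 ha hδ haδ hτ hI w0 hC hG hF T
  refine ⟨e0, _, hN.mul hq, by simp [ma_zero, hI.ob0, q0], fun T => ?_⟩
  obtain ⟨r, ⟨h1, h2⟩, r1⟩ := ((ev_inv (hI.mom0 F)).and (Ioo_mem_nhdsGT (inv_pos.2 w0))).exists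
  have r0 : ∀ _ : κ, 0 < r := fun _ => r1.1
  have h3 := sh_ma r0 univ (mom (ex h b n) F)
  have h4 := (Eqv.mk (A := univ) ⟨_, h3.mul h1⟩ ⟨_, hN.shrink r0 fun _ => r1.2.le⟩ fun S hS => by
    rw [jd_ma _ hS, ← integral_complex_ofReal]
    simp only [hI.ob_eq]
    exact (int_jd h b F h1 S).symm).mul (Eqv.mk ⟨_, sh_ma r0 univ (mom Λ F)⟩
      ⟨_, (sh_ma r0 univ e).exp.mul (hq.shrink r0 fun _ => r1.2.le)⟩
      fun S hS => (jd_ma _ hS).trans (hm' S))
  rw [← jd_ma (mom (ex h b n) F) (subset_univ T), ← jd_congr r0 (fun s hs => ?_) T,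
    h4.eq T (subset_univ T)]
  · exact congrArg _ (funext fun s => mul_left_comm _ _ _)
  · exact inv_mul_cancel_right₀ (h2 s hs) _

omit hb hm hn m1 ha hδ haδ hτ hI w0 hC hG hF

omit [MeasurableSpace SU2] [BorelSpace SU2] in
theorem Inv.ob1 (hI : Inv Λ lam) (F : Unit → Src n) (U : Cfg n) : ob Λ F {()} U =
    (jd {()} fun s => (ma univ (mom Λ F) s)⁻¹).re - gfield (F ()) U := by
  rw [ob, ← insert_empty_eq, sum_powerset_insert (notMem_empty _)]
  simp [ma_zero, hI.mom0, sub_eq_add_neg]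

variable {ι : Type} {Φ : Filter ι} {n : ι → ℕ} [∀ p, NeZero (n p)] {a b τ : ι → ℝ}

theorem poly_of_poly2 (hF : Fam Φ n a b τ) (hP : Poly2 h Φ n a b fun p => 4 * τ p) :
    Poly h Φ n a b fun p => 2 * τ p := by
  intro e δ hδ
  obtain ⟨C, w, hC⟩ := hP e (δ / 2) (half_pos hδ)
  obtain ⟨a1, a2⟩ := tendsto_nhdsWithin_iff.1 hF.a0
  refine ⟨|C| + |w| + exp (256 * |C|) * |w|, ?_⟩
  filter_upwards [hC, a2, a1.eventually_lt_const (lt_min (half_pos hδ) one_pos),
    hF.vol.eventually_gt_atTop 1, hF.tau.eventually_ge_atTop 2,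
    hF.cpl.eventually_const_lt (show (0 : ℝ) < _ by have := GD.b0_pos; positivity)] with p h1 ha h3 h4 h5 h6
  obtain ⟨m, lam, _, hm, hn, hl, Λ, hI, hG⟩ := h1
  rw [lt_min_iff] at h3
  rw [Set.mem_Ioi] at ha
  rw [le_div_iff₀ ha] at h5
  have hz : ∀ c : Site 4 m, ∀ t ≥ 0, ∀ d, Nrm (a p) t (0 : Src (n p)) ∧ InT (a p) d lam c
    (0 : Src (n p)) := fun c t ht d => ⟨⟨0, by simp, by simpa using ha.le, by simpa⟩,
      fun _ _ _ e => (e rfl).elim⟩
  have w0 : 0 < w := by
    obtain ⟨g, hg, -⟩ := hG 0 fun c => ⟨fun _ => hz c _ (by linarith) _, fun _ _ e => (e rfl).elim⟩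
    exact inv_pos.1 (hg.pos (0, ()))
  replace hG : Gen h (b p) (κ := Unit) Λ (Cla (m := m) (a p) (a p) (4 * τ p) (δ / 2) lam 0) w
      (exp (|C| * m ^ 4)) := fun F hF => (hG F hF).imp fun g hg =>
    ⟨hg.1.mono (by gcongr; exact le_abs_self C), hg.2⟩
  refine ⟨m, lam, hm, hn, hl, fun A F hA => ⟨fun c => (jd {()} fun s =>
    (ma univ (mom Λ fun _ : Unit => F c) s)⁻¹).re, fun B hB => ?_, fun c hc => ?_⟩⟩
  · have := hG.le hI w0 (F := fun c _ => if c ∈ B then F c else 0) (fun c => ⟨fun _ => ?_,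
      fun _ _ e => (e rfl).elim⟩) fun c => if c ∈ B then {()} else ∅
    · have e : ∀ U, ∏ c ∈ B, (gfield (F c) U - (jd {()} fun s => (ma univ (mom Λ fun _ : Unit => F c)
          s)⁻¹).re) = (-1) ^ B.card * ∏ c, ob Λ (fun _ : Unit => if c ∈ B then F c else 0)
            (if c ∈ B then {()} else ∅) U := fun U => by
        rw [← prod_subset (subset_univ B) fun c _ hc => by simp only [if_neg hc, hI.ob0], ← prod_const,
          ← prod_mul_distrib]
        exact prod_congr rfl fun c hc => by simp [hc, hI.ob1]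
      simp only [e, integral_const_mul, abs_mul, abs_pow, abs_neg, abs_one, one_pow, one_mul]
      refine this.trans ?_
      rw [add_assoc, add_mul, exp_add]
      refine mul_le_mul_of_nonneg_left ((prod_le_prod (g := fun _ => exp |w|) (fun _ _ => by positivity)
        fun c _ => ?_).trans ?_) (exp_pos _).le
      · split_ifs
        · simpa using (le_abs_self w).trans (by linarith [add_one_le_exp |w|])
        · simp
      · rw [prod_const, ← exp_nat_mul, mul_comm]
        exact exp_le_exp.2 (mul_le_mul (le_add_of_nonneg_right (by positivity)) (by simp)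
          (by positivity) (by positivity))
    · split_ifs with hc
      · obtain ⟨⟨g, g1, g2, g3⟩, k⟩ := hA c (hB hc)
        exact ⟨⟨g, g1, g2, fun x i j => (g3 x i j).trans (by linarith)⟩, fun x i j e l =>
          ⟨by linarith [(k x i j e l).1], by linarith [(k x i j e l).2]⟩⟩
      · exact hz c _ (by linarith) _
  · have := ob_le (F := fun _ => F c) (c := c) ?_ hm hn ?_ ha (half_pos hδ).le (δ' := δ) (by linarith)
      (τ' := 2 * τ p) (by linarith) hI w0 (abs_nonneg C) hG ⟨fun _ => hA c hc,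
        fun _ _ e => (e rfl).elim⟩ {()}
    · simp only [hI.ob1] at this
      rw [integral_sub (integrable_const _) (cint _ (continuous_gfield _)), abs_sub_comm] at this
      simp only [integral_const, probReal_univ, one_smul, card_singleton, pow_one] at this
      rw [abs_of_pos w0]
      linarith [abs_nonneg C]
    · exact ((div_pos_iff_of_pos_right (log_pos ((one_lt_inv₀ ha).2 h3.2))).1 h6).le
    · rw [hn, Nat.cast_mul, mul_left_comm, hl] at h4
      have : (m : ℝ) * (3 ^ e)⁻¹ ≤ m :=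
        mul_le_of_le_one_right (by positivity) (inv_le_one_of_one_le₀ (one_le_pow₀ (by norm_num)))
      exact_mod_cast h4.trans_le this

theorem cell_of_poly2 (hF : Fam Φ n a b τ) (hP : Poly2 h Φ n a b fun p => 4 * τ p) :
    Cell h Φ n a b τ := cell_of_poly h Φ n a b τ hF (poly_of_poly2 hF hP)

end Pool.Agent.Lib.MP_7f377f_mp.YM7
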