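import Pool.Agent.Lib.MP_7f377f_mp.G.MgS
import Pool.Agent.Lib.MP_7f377f_mp.G.CaI2

/-! Merging of general sources and insertion of letters of the block field. -/

noncomputable section

open Pool.Agent.Lib.MP_7f377f_mp.Jet

set_option linter.unusedSectionVars false
variable [Pool.Agent.Lib.MP_7f377f_mp.GD]

namespace Pool.Agent.Lib.MP_7f377f_mp.RG.Q4.En

open Finset Function Sg Real Pos Mg
open scoped Classical

attribute [local irreducible] box lbox tb tau rc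

variable {γ Ω κ α ι : Type} [Fintype γ] [DecidableEq γ] [DecidableEq Ω] [Fintype κ] [DecidableEq κ]
  [Inhabited κ] [Fintype α] [DecidableEq ι]

theorem pm_mul {p : Pa} {x y u a : ℝ} {χ : Fld → ℂ} {F : St → ℂ} (h0 : 0 < p.ρ)
    (h : PM p x y u fun _ => χ) (hF : ∀ v, ‖F v‖ ≤ a) :
    PM p (a * x) (a * y) (a * u) fun v => F v • χ := fun v =>
  have q := pm_smul h0 h (F v) v
  have z := (h v).1.nonneg h0
  ⟨q.1.mono' h0 (mul_le_mul_of_nonneg_right (hF v) z.1) (mul_le_mul_of_nonneg_right (hF v) z.2.1)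
    (mul_le_mul_of_nonneg_right (hF v) z.2.2), q.2⟩

theorem pm_ex {p : Pa} {t : Finset α} {Ψ : α → Lx} (h0 : 0 < p.ρ)
    (h : ∀ a, ∃ x y u, PM p x y u (Ψ a)) : ∃ x y u, PM p x y u (∑ a ∈ t, Ψ a) := by
  induction t using Finset.cons_induction with
  | empty => exact ⟨_, _, _, pm_zero h0⟩
  | cons a t _ ih =>
    obtain ⟨_, _, _, u⟩ := h a
    obtain ⟨_, _, _, u'⟩ := ih
    rw [sum_cons]
    exact ⟨_, _, _, (PM.add h0 u u').1⟩

theorem kP_one (p : Pa) (n : ℕ) (k : Mj) (v : ℝ) :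
    kP p n (· = 1) k v = v • kP p n (· = 1) k 1 := funext₂ fun X c => by
  simp only [kP, Pi.smul_apply, smul_eq_mul, mul_sum]
  exact sum_congr rfl fun O hO => by
    simp [pw, ((@mem_filter _ _ (_) _ _).1 hO).2, mul_comm]

theorem hX_tr (n : ℕ) (X : Wd.Let) (v y : St) (U : Conf) :
    hX n X (rc n (y + v)) (sh (-v) (pc n U)) = hX n X y U := by
  have hU := (Mx.per_pc n U).sh (-v)
  rw [hX, hX, pc_eq hU, Sh.sh_tp hU, sh_sh, sh_sh, add_neg_cancel_right]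

theorem hX_sum {n : ℕ} {U : Conf} (hU : Per n U) (X : Wd.Let) (F : St → ℂ) :
    ∑ y ∈ box (n / 2), F y * hX n X y U = -Wd.sm n X F U := by
  simp only [hX, pc_eq hU, Wd.sm, mul_neg, sum_neg_distrib]

theorem hd_bc {r : ι → ℝ} (hr : ∀ i, 0 < r i) {g : Conf → ℂ} (h : BC g) : HD r fun _ => g :=
  ⟨h.2.imp fun _ a U => (sh_const hr _).mono (a U), fun _ _ => h.1⟩

namespace Gl

variable (G : Gl) (b : ℝ) (J k : ℕ)

/-- insertions `Y` on the fine lattice and `C` at level `k` -/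
def pq (Y C : γ → Conf → ℂ) (s : γ → ℂ) (W : Conf) : ℂ :=
  ma univ (fun T => ∑ N ∈ T.powerset, (∏ q ∈ N, C q W) *
    G.tt (fun U => (∏ q ∈ T \ N, Y q U) * wil b (G.N J) U) J k W) s

/-- the direction of the letter `X` of the block field smeared with `F` -/
def cl (X : Wd.Let) (F : St → ℂ) : Lx × Ac :=
  (fun y => F y • Wd.lx X, i1 (G.p k) (G.N k) (G.zz b J k).K fun y => F y • hX (G.N k) X y)

theorem cl_K (X : Wd.Let) (F : St → ℂ) : (G.cl b J k X F).2 =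
    iP (G.p k) (G.N k) (· = 1) (G.zz b J k).K fun y => F y • hX (G.N k) X y := rfl

/-- the direction of a cell -/
def uX (S : Wx γ Ω κ α) (w : Ω → ℂ) (q : γ) : Lx × Ac := G.tn b J (G.xv b J (S.P q)) J k +
  (0, ∑ ω ∈ S.Om.filter (S.cl · = q), w ω • G.wX b J k S ω) + ∑ x, G.cl b J k (S.X x) (S.φ q x)

variable {G b J k} {S : Wx γ Ω κ α} {c d l : ℕ} {C A Wt x y E : ℝ} {m : ℕ → ℕ} {σ : ℕ → ℝ}
  {ρ : ℕ → γ → ℝ} {w : Ω → ℂ} {X : Wd.Let} {F F' : St → ℂ}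

theorem lg_ex (hX : Wd.Rad d X) : ∃ A > 0, ∀ (G : Gl) k, G.Ok → d ≤ (G.p k).R → A ≤ G.Q k →
    G.Lg k d A X := by
  obtain ⟨ρ0, r0, h1⟩ := Wd.lx_ps hX
  obtain ⟨C, C0, h1⟩ := h1 6
  obtain ⟨M, hM⟩ := Wd.evG_bd X
  have M0 := (norm_nonneg _).trans (hM 1)
  have r1 := inv_pos.2 r0
  refine ⟨C + M + ρ0⁻¹, by positivity, fun G k h hd hC => ⟨hX, fun U => (hM U).trans (by linarith),
    fun _ => ⟨(h1 _ hd _ (h.ρ0 k) ?_).1.mono' (h.ρ0 k) (by linarith) (by linarith)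
      (mul_le_mul_of_nonneg_right (by linarith) (pow_pos (h.ρ0 k) 3).le), Wd.lx_meas X⟩⟩⟩
  have a := (mul_le_mul_of_nonneg_right (pow_le_pow_right₀ (h.Q1 k) (show 4 ≤ 2000 by norm_num))
    (h.g0 k).le).trans (h.Qg k)
  have a' : ρ0⁻¹ ≤ G.Q k := by linarith
  rw [inv_le_iff_one_le_mul₀ r0] at a'
  refine le_of_mul_le_mul_left ?_ (h.Q0 k)
  calc _ = G.Q k ^ 4 * G.g k := by change _ * (G.Q k ^ 3 * G.g k) = _; ring
    _ ≤ _ := a.trans a'

/-! ### Letters of the block field -/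

theorem cl_lin (t : ℂ) : G.cl b J k X (F + t • F') = G.cl b J k X F + t • G.cl b J k X F' := by
  refine Prod.ext (funext fun y => by simp [cl, add_smul, mul_smul]) ?_
  simp only [cl, Prod.snd_add, Prod.smul_snd, ← map_smul, ← map_add]
  exact congrArg _ (funext fun y => by simp [add_smul, mul_smul])

/-- the activities of the run are small with a slack in the weight -/
theorem Ok.base_up (h : G.Ok) (t : G.Tu b J) (hk : k ≤ J) : ∃ k', kN (G.p k).up (G.N k) k'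
    ((G.Q k ^ 640)⁻¹ * G.g k ^ 2) ∧ KM (G.p k) (G.N k) k' (G.zz b J k).K := by
  have q := h.Q0 k
  have q1 := h.Q1 k
  have g0 := h.g0 k
  have e : ∀ {i x}, i ≤ 300 → x ≤ √(G.g k) → 0 ≤ x → G.Q k ^ i * x ≤ (G.Q k ^ 641)⁻¹ :=
    fun {i x} hi hx x0 => by
      rw [← mul_one (_⁻¹), le_inv_mul_iff₀ (pow_pos q _), ← mul_assoc, ← pow_add]
      exact (mul_le_mul (pow_le_pow_right₀ q1 (by omega)) hx x0 (by positivity)).trans (h.Qsg k)
  have e1 := h.inv_le k (show 640 < 641 by norm_num)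
  have e2 := inv_pos.2 (pow_pos q 641)
  have c : G.g k ≤ √(G.g k) := le_sqrt_of_sq_le (by nlinarith [h.g1 k])
  rcases hk.eq_or_lt with rfl | hk
  · have nu := (h.sl_all k (G.top b k)).nu
    have a1 := kI_up nu
    have a2 := sK_km nu (β := b) (F := 0) ((show G.bb k / 2 ≤ _ by linarith [h.b0 k]).trans
      (h.b34 t.hb)) fun _ _ _ => by
        change ‖(0 : ℂ)‖ ≤ G.bb k / 4
        rw [norm_zero]
        linarith [h.b0 k]
    rw [h.sl_nf] at a1 a2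
    rw [sK_zero] at a2
    refine ⟨_, a1.mono ?_, by rw [zz_top]; exact a2⟩
    have := e (i := 0) (x := G.g k ^ 29) (by norm_num)
      ((pow_le_of_le_one g0.le (h.g1 k) (by norm_num)).trans c) (by positivity)
    calc _ = G.Q k ^ 0 * G.g k ^ 29 * G.g k ^ 2 := by change G.g k ^ 31 = _; ring
      _ ≤ _ := by gcongr; linarith
  · have z := h.sz_sd (t.gd (k + 1) hk).dt.sz (G.zz b J (k + 1))
    have g1 := h.g0 (k + 1)
    have g2 := h.g_succ k
    have g3 := h.g1 (k + 1)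
    have s1 : √(G.g (k + 1)) ≤ √(G.g k) := sqrt_le_sqrt g2
    have s2 : √(G.g (k + 1)) ≤ 1 := sqrt_le_one.2 g3
    have s0 := sqrt_nonneg (G.g (k + 1))
    have i1 : (G.Q k ^ 641)⁻¹ ≤ 1 / 1000 := by
      simpa using (le_div_iff₀' (by norm_num)).2 (h.inv_le k (show 0 < 641 by norm_num))
    have gg : G.g (k + 1) ^ 2 ≤ G.g (k + 1) := by nlinarith
    have u1 := e (i := 110) (by norm_num) (g2.trans c) g1.le
    have u2 := e (i := 100) (by norm_num) s1 s0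
    have b1 : G.Q k ^ 100 * (G.Q k ^ 10 * (1 + 1) * G.g (k + 1) ^ 2) ≤ 1 :=
      calc _ = 2 * (G.Q k ^ 110 * G.g (k + 1) ^ 2) := by ring
        _ ≤ 2 * (G.Q k ^ 110 * G.g (k + 1)) := by gcongr
        _ ≤ _ := by linarith
    have b2 : G.Q k ^ 100 * (√(G.g (k + 1)) * 1 * G.g (k + 1) ^ 2) ≤ 1 :=
      calc _ ≤ G.Q k ^ 100 * (√(G.g (k + 1)) * 1 * 1) := by gcongr; linarith
        _ ≤ _ := by linarith
    have pu := z.pu (h.sd_all k _).nu (u2.trans (by linarith))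
    obtain ⟨k0, k1, k2⟩ := z.2
    obtain ⟨k', a1, a2⟩ := (h.st2 (t.gd (k + 1) hk).tz).K _ _ k0 b1 b2 (by positivity) k2
    refine ⟨k', a1.mono ?_, zz_step (G := G) b hk ▸ a2 _ _ ⟨b1, b2, pu, k1, k2⟩⟩
    generalize hg : G.g (k + 1) = g at *
    have q10 : 1 ≤ G.Q k ^ 10 := one_le_pow₀ q1
    calc _ = (G.Q k ^ 90 * (g + 2 * G.Q k ^ 10 * g + 4 * (G.Q k ^ 10 * G.Q k ^ 10) * g ^ 2 +
          √g * √g * g ^ 2 + √g * g) + √g / G.Q k) * g ^ 2 := by
          rw [Sd.θ', show (G.sd k _).g = g from hg, show (G.sd k _).Q = G.Q k from rfl]; ring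
      _ ≤ (G.Q k ^ 90 * (9 * (G.Q k ^ 10 * G.Q k ^ 10) * g) + G.Q k ^ 100 * √g) * G.g k ^ 2 := by
          have := mul_le_mul s2 s2 s0 zero_le_one
          have := one_le_mul_of_one_le_of_one_le q10 q10
          gcongr
          · nlinarith [mul_le_mul_of_nonneg_left gg (mul_pos (pow_pos q 10) (pow_pos q 10)).le,
              mul_le_mul_of_nonneg_right q10 (mul_pos (pow_pos q 10) g1).le]
          · exact (div_le_self s0 q1).trans (le_mul_of_one_le_left s0 (one_le_pow₀ q1))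
      _ = (9 * (G.Q k ^ 110 * g) + G.Q k ^ 100 * √g) * G.g k ^ 2 := by ring
      _ ≤ _ := by gcongr; linarith

section
variable (h : G.Ok) (t : G.Tu b J) (hp : G.Pu) (hk : k ≤ J) (hd : d ≤ (G.p k).R) (hA : A ≤ G.Q k)
  (hX : G.Lg k d A X)
include h t hp hk hd hA hX

theorem Ok.lop_cl' {ω : ℝ} (hω : (G.Q k ^ 300)⁻¹ ≤ ω) (R : ℕ) :
    G.Lop J k R ω A fun F => G.cl b J k X (G.fd J k F) := by
  have _ := And.intro hp hA
  have q := h.Q0 k
  have g0 := h.g0 k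
  have hn := h.N_odd k
  have A0 := (norm_nonneg _).trans (hX.2.1 1)
  have ω0 := (inv_pos.2 (pow_pos q _)).trans_le hω
  have e4 : ∀ {F : St → ℂ}, PS (G.rt J k * G.N k) F → ∀ x v, G.fd J k F (rc (G.N k) (x + v)) =
      G.fd J k (fun x => F (x + (G.rt J k : ℤ) • v)) x := fun a x v => by
    obtain ⟨w, hw⟩ := rc_exists (G.N k) (x + v)
    rw [fd, fd, hw, smul_add, smul_smul, ← Nat.cast_mul, a, smul_add]
  obtain ⟨k0, k1, k2⟩ := h.base_up t hk
  have q1 := h.inv_le k (show 329 < 640 by norm_num)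
  have q2 := inv_pos.2 (pow_pos q 640)
  have k3 := (kN_kP (p := (G.p k).ad (1 / 4)) (P := (· = 1)) (δ := 1 / 6) (v := 1)
    (θ1 := (G.Q k ^ 329)⁻¹) ((h.ps0 k).ad (by norm_num)) hn (h.RD k) (by norm_num)
    (by rw [ad_ad]; exact kN_drop (δ := 1) k1 (by norm_num)) (by positivity)
    ((mul_le_of_le_one_right q2.le (pow_le_one₀ g0.le (h.g1 k))).trans (by linarith)) one_pos
    ((h.vQ k (δ := 1 / 4 + 1 / 6) zero_le_one (by norm_num)).trans_eq' (by
      simp only [Pa.ad, add_assoc])) (fun m a => ⟨by omega, .inr a⟩)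
    (Mh.sm_le h (δ := 1 / 4) (by norm_num) le_rfl)).smul A0
  refine ⟨fun F F' t _ _ => cl_lin t, fun F F' y _ _ a => by
    simp only [cl, fd, a _ (nearT.refl ..)], fun F F' Y _ _ a => funext₂ fun c U => by
      rw [cl_K, cl_K]
      exact iP_congr hn (fun _ _ _ => rfl) fun y _ e => by simp only [fd, a y e _ (nearT.refl ..)],
    ⟨_, k3.mono ?_, fun F _ hF => ⟨PM.mono (h.ρ0 k) (pm_mul (h.ρ0 k) hX.2.2 fun _ => hF _)
      (one_mul _).le ?_ ?_, (kP_one _ _ k0 A ▸ km_iP (sqrt_nonneg _) (by simp) k1.1 k2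
        ((lt_ev (h.sl_all k (G.top0 0 0)).nu.p_ok.1 hX.1 hd).smul _).lf fun y U =>
          (norm_mul_le_of_le (hF _) ((norm_neg _).trans_le (hX.2.1 _))).trans_eq (one_mul _) :)⟩⟩,
    fun F v hF => ⟨funext fun x => by simp only [trL, cl, e4 hF], fun o ho => by
      rw [cl_K, cl_K]
      exact iP_tr hn v ((t.gd k hk).dt.re.2.2 v).2
        (fun y _ U => by simp only [Pi.smul_apply, e4 hF, hX_tr]) ho⟩⟩
  · calc _ = 12 * (G.Q k ^ 308)⁻¹ * A * G.g k ^ 2 := by field_simp; ring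
      _ ≤ _ := by
        gcongr
        linarith [h.inv_le k (show 300 < 308 by norm_num), inv_pos.2 (pow_pos q 308)]
  · exact mul_le_mul_of_nonneg_right (one_le_pow₀ (h.Q1 k)) A0
  · have : G.g k ≤ ω := le_trans (by
      rw [← mul_one (_⁻¹), le_inv_mul_iff₀ (pow_pos q _)]
      exact (mul_le_mul_of_nonneg_right (pow_le_pow_right₀ (h.Q1 k) (by norm_num)) g0.le).trans
        (h.Qg k)) hω
    calc _ = G.Q k ^ 9 * G.g k * A * G.g k ^ 2 := by
          change 1 * (A * (G.Q k ^ 3 * G.g k) ^ 3) = _; ring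
      _ ≤ _ := by gcongr; exacts [h.Q1 k, by norm_num]

theorem Ok.lop_cl {ω : ℝ} (hω : (G.Q k ^ 300)⁻¹ ≤ ω) :
    G.Lop J k (G.p k).D ω A fun F => G.cl b J k X (G.fd J k F) := h.lop_cl' t hp hk hd hA hX hω _

theorem Ok.cl_real (hr : Wd.Re X) (hF : ∀ y, ‖F y‖ ≤ x) (hF' : ∀ y, (F y).im = 0) :
    RealP (G.p k) (G.cl b J k X F).1 ∧ RealA (G.cl b J k X F).2 :=
  have _ := And.intro (And.intro h hp) (And.intro (And.intro hd hA) (And.intro hX hF))
  ⟨fun y _ u _ => Im.mul (hF' y) (Wd.lx_real hr u), iP_real (t.gd k hk).dt.re.2.1 fun y _ =>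
    Im.mul (hF' y) (Im.neg (Wd.evG_real hr _))⟩

theorem Ok.tw_cl (hr : Wd.Re X) : G.Tn k (G.zz b J k) (G.zz b J k).d (G.f b J k) A A
    (G.Q k ^ 280)⁻¹ (G.cl b J k X 1) fun U => -Wd.sm (G.N k) X 1 U * G.f b J k U := by
  have L := h.lop_cl t hp hk hd hA hX (inv_anti₀ (pow_pos (h.Q0 k) _)
    (pow_le_pow_right₀ (h.Q1 k) (show 280 ≤ 300 by norm_num)))
  obtain ⟨k0, k1, k2⟩ := L.bd
  obtain ⟨a1, a2⟩ := k2 1 (fun _ _ => rfl) fun _ => norm_one.le
  obtain ⟨κ, -, e⟩ := (t.gd k hk).dt.rp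
  refine ⟨⟨a1, k0, a2, ad_zero (G.p k) ▸ kN_drop (δ := 1 / 4) k1 (by norm_num)⟩,
    ⟨fun x B u _ => Im.mul rfl (Wd.lx_real hr u), iP_real (t.gd k hk).dt.re.2.1 fun y U =>
      Im.mul rfl (Im.neg (Wd.evG_real hr _)), fun v => L.cov 1 v fun _ _ => rfl⟩,
    κ, 0, fun U hU => ⟨e U hU, ?_⟩⟩
  have l := (lt_ev (n := G.N k) (h.sl_all k (G.top0 0 0)).nu.p_ok.1 hX.1 hd).smul 1
  have a := rep_deriv (S := G.sl k (G.zz b J k)) (b := (G.zz b J k).d) (d := G.cl b J k X 1)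
    (γ := fun s => ((G.zz b J k).ψ + s • (G.cl b J k X 1).1, (G.zz b J k).K + iP (G.p k) (G.N k)
      (· ≠ 0) (G.zz b J k).K (eh (s • fun y => (1 : St → ℂ) y • En.hX (G.N k) X y))))
    (by simp [iP_zero, Z.d]) ⟨fun _ _ => der_line _ _, fun Y c U => (iP_line
      (K := fun _ => (G.zz b J k).K) fun _ _ => differentiableAt_const _).const_add _⟩ U
  rw [h.sl_nf] at a hU
  have a' := fun s : ℂ => (l.smul fun _ => s).rep (h.N_odd k) (Φ := (G.sl k (G.zz b J k)).Φ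
    (G.zz b J k).ψ) (Φ' := (G.sl k (G.zz b J k)).Φ ((G.zz b J k).ψ + s • (G.cl b J k X 1).1))
    (fun x B => (add_assoc ..).symm) (G.zz b J k).K U
  simp only [Pi.smul_apply (α := ℂ), smul_eq_mul, ← mul_sum, hX_sum hU] at a'
  rw [← (a.congr_of_eventuallyEq (.of_forall fun s => (a' s).symm)).deriv,
    ((((hasDerivAt_id' (0 : ℂ)).mul_const _).cexp).mul_const _).deriv]
  simp only [zero_mul, Complex.exp_zero, one_mul, add_zero, e U (by rwa [h.sl_nf]), h.sl_nf]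
  exact mul_left_comm (_ : ℂ) _ _

end

namespace Mx

variable (M : G.Mx b J k S c d C A m σ ρ) (h : G.Ok) (t : G.Tu b J) (hp : G.Pu)
include M h t hp

/-- the merging -/
theorem merge {r : γ → ℝ} (r0 : ∀ q, 0 < r q ∧ r q ≤ ρ (k + 1) q)
    (hw : ∀ y, ∑ ω ∈ S.Om.filter (y ∈ S.X0 ·), ‖w ω‖ * r (S.cl ω) ≤ Wt)
    (sm : G.Q k ^ 331 * (G.cM k c C * Wt) ≤ σ (k + 1) ^ Fintype.card κ)
    (sm' : ∀ q y, G.Q k ^ 400 * (r q * ∑ x, ‖S.φ q x y‖) ≤ 1) : ∃ Y : Fy γ,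
    G.Fd k (G.zz b J k) univ r r (G.Q k ^ 329)⁻¹ Y
      (G.pq b J k (S.Y (G.N J) w) (S.C (G.N k))) ∧ Y.bs = (G.zz b J k).d ∧
      Y.Ec univ id ∧ (Y.Z = fun q => G.zs (S.W q) J k) ∧ ∀ q, Y.jt {q} = G.uX b J k S w q := by
  have q := h.Q0 k
  have q1 := h.Q1 k
  have hr := fun q => (r0 q).1
  have D0 := h.D_pos k
  have s0 := pow_pos (M.rad _ k.lt_add_one M.lt).2.2.1 (Fintype.card κ)
  obtain ⟨Y, F, a1, a2, a3, a4, -, sl⟩ := M.merge0 h t hp r0 hw (by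
    rcases le_total 0 (G.cM k c C * Wt) with e | e
    · exact (mul_le_mul_of_nonneg_right (pow_le_pow_right₀ q1 (by norm_num)) e).trans sm
    · exact (mul_nonpos_of_nonneg_of_nonpos (pow_pos q _).le e).trans s0.le)
  have gY := gi_Y (n := G.N J) (S := S) (fun ω a l => gi_xO
    (M.lt' ω a l).2.2.1.1.choose_spec.choose_spec.1)
    (fun q => gi_xO (M.sl q).1.choose_spec.choose_spec.1) w
  have gC := fun u => Br.gi_cont (n := 0) (f := S.C (G.N k) u) (Continuous.neg (continuous_finsetSum _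
    fun x _ => continuous_finsetSum _ fun y _ => ((Wd.evG_cont _).comp (Ms.cont_sh y)).const_mul _))
    fun _ _ => by simp only [Wx.C, Wd.sm, Ms.sh_gauge, Wd.evG_gauge]
  have gW := fun T : Finset γ => (GI.prod (s := T) fun q _ => gY q).mul
    (gi_wil (b := b) (n := G.N J) _)
  have c1 : (1 : ℝ) ≤ c := Nat.one_le_cast.2 (Fintype.card_pos.trans_le M.card)
  obtain ⟨b1, b2, b3⟩ := h.ins (H := fun q => ∑ x, fun y => S.φ q x y • hX (G.N k) (S.X x) y)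
    (Ψ := fun q => ∑ x, fun y => S.φ q x y • Wd.lx (S.X x))
    (f' := G.pq b J k (S.Y (G.N J) w) (S.C (G.N k))) (t.gd k M.lt.le).tz F
    (sl.imp fun _ a => ⟨a.1.mono (by gcongr; norm_num), a.2⟩)
    (a3 ▸ M.cel.1) (by nlinarith) (fun q _ => .sum fun x _ =>
      (lt_ev (h.sl_all k (G.top0 0 0)).nu.p_ok.1 (M.lg.2 x).1 M.dR).smul _)
    (fun u _ => pm_ex (h.ρ0 k) fun x => ⟨_, _, _, pm_mul (h.ρ0 k) (M.lg.2 x).2.2
      (a := (G.Q k ^ 400 * r u)⁻¹) fun y => (single_le_sum (f := fun x => ‖S.φ u x y‖)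
        (fun _ _ => norm_nonneg _) (mem_univ x)).trans (by
          rw [← mul_one (_⁻¹), le_inv_mul_iff₀ (mul_pos (pow_pos q _) (hr u)), mul_assoc]
          exact sm' u y)⟩)
    (fun u y a => by
      have : ∀ x, S.φ u x y = 0 := fun x => by_contra fun e => a (a3 ▸ M.lφ u x y e
        (mem_tb_single.2 ⟨rc_rc _ _, nearT_rc_right.2 (nearT.refl ..)⟩))
      simp [this])
    (fun u _ y U => by
      have : ‖(∑ x, fun y => S.φ u x y • hX (G.N k) (S.X x) y) y U‖ ≤ (∑ x, ‖S.φ u x y‖) * G.Q k := by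
        simp only [Finset.sum_apply, sum_mul]
        exact norm_sum_le_of_le _ fun x _ => norm_mul_le_of_le le_rfl
          ((norm_neg _).trans_le (((M.lg.2 x).2.1 _).trans M.lg.1))
      rw [← mul_one (_⁻¹), le_inv_mul_iff₀ (pow_pos q _)]
      calc _ ≤ G.Q k ^ 399 * (r u * ((∑ x, ‖S.φ u x y‖) * G.Q k)) := by
            have := hr u
            gcongr; norm_num
        _ = G.Q k ^ 400 * (r u * ∑ x, ‖S.φ u x y‖) := by ring
        _ ≤ 1 := sm' u y)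
    (HD.sum hr fun T _ => (hb_prod hr fun i _ => hb_var hr i).hd.mul (.sum hr fun N _ => .mul
      (.prod hr fun u _ => hd_bc hr ⟨(gC u).1, (gC u).2.1⟩)
      (hd_bc hr (tt_bc ⟨(gW _).1, (gW _).2.1⟩ M.lt.le)))) fun U hU T hT =>
    (jd_ma _ hT).trans (sum_congr rfl fun N _ => congrArg₂ (· * ·) (prod_congr rfl fun u _ => by
      simp only [Finset.sum_apply, Pi.smul_apply, smul_eq_mul, Wx.C, ← sum_neg_distrib,
        ← hX_sum hU]
      exact sum_comm) (by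
      rw [jd_tt (pr_hd gY hr) M.lt.le]
      simp only [pr_eq, jd_ma _ (subset_univ _)]))
  refine ⟨_, b1, b2.trans a1, a2, a3, fun u => (b3 u (mem_univ u)).trans ?_⟩
  rw [a4, uX, show Y.K 0 = _ from congrArg Prod.snd a1, map_sum]
  exact congrArg _ (Prod.ext (by rw [Prod.fst_sum]; rfl) (by rw [Prod.snd_sum]; rfl))

end Mx

end Gl

end Pool.Agent.Lib.MP_7f377f_mp.RG.Q4.En
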