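import Pool.Agent.Lib.MP_7f377f_mp.G.StV9
import Pool.Agent.Lib.MP_7f377f_mp.G.StQ
import Pool.Agent.Lib.MP_7f377f_mp.G.CaX

/-! Letters and words as real local maps. -/

noncomputable section

set_option linter.unusedSectionVars false
variable [Pool.Agent.Lib.MP_7f377f_mp.GD]

namespace Pool.Agent.Lib.MP_7f377f_mp.RG.Q4.En

open Finset Real Pos Sg

theorem xS_real {p : Pa} {n : ℕ} {β : ℝ} {F : Sx} (h : F.Re p) : RealA (xS p n β F) := fun X c U => by
  have d := (xK_diff (p := p) (n := n) (β := β) (F := fun t : ℂ => t • F) (fun x μ ν => by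
    simp only [Prod.smul_fst, Pi.smul_apply]; fun_prop) (fun x U => by
    simp only [Prod.smul_fst, Prod.smul_snd, Pi.smul_apply]; fun_prop) X c U 0).hasDerivAt
  refine (Complex.imCLM.hasFDerivAt.comp_hasDerivAt (0 : ℝ) d.comp_ofReal).unique
    ((hasDerivAt_const (0 : ℝ) (0 : ℝ)).congr_of_eventuallyEq (.of_forall fun t => ?_))
  exact xK_real (F := (t : ℂ) • F) ⟨fun x μ ν => by simp [h.1], fun x U => by simp [h.2.1],
    fun x B u v => by simp [h.2.2 x B u v]⟩ X c U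

theorem lS_re {p : Pa} {X : Wd.Let} {F : St → ℂ} (hX : Wd.Re X) (hF : ∀ x, (F x).im = 0) :
    (lS (Wd.evG X) (Wd.lx X) F).Re p :=
  ⟨fun _ _ _ => rfl, fun x U => by simp [lS, hF, Wd.evG_real hX], fun x B u _ => by
    simp [lS, hF, Wd.lx_real hX u]⟩

theorem Od4.mul {n : ℕ} {f g : Conf → ℂ} (h : Od4 n f) (s : Sym n g) : Od4 n fun U => f U * g U :=
  fun U hU => by
    simp [h U hU, sgn_i4 (sym_sgn (T := Ty.rf false false false false) s (by decide))
      (List.Subset.refl _) hU, Ty.sb]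

theorem od4_sm {n : ℕ} {X : Wd.Let} (h : Wd.Od X) : Od4 n fun U => -Wd.sm n X 1 U := fun U _ => by
  simp only [i4, ← Wd.pb_nI', h.sm]

namespace Gl

variable {G : Gl} {b A C ω x y : ℝ} {I J k d : ℕ} {F : Sx} {X : Wd.Let}

/-- the map of a letter at the top -/
abbrev lt (G : Gl) (b : ℝ) (I : ℕ) (X : Wd.Let) (F : St → ℂ) : Lx × Ac :=
  G.xv b I (lS (Wd.evG X) (Wd.lx X) F)

theorem f_meas (h : G.Ok) (T : G.Tu b I) (k : ℕ) : BC (G.f b I k) :=
  have := ((h.f_facts I k).1 b T.b0).1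
  ⟨this.1, this.2.1⟩

namespace Ok

variable (h : G.Ok) (T : G.Tu b I)
include h T

/-- a source at the top represents its observable -/
theorem rt_xv (hd : d ≤ (G.p I).R) (lt : ∀ x, Ltt d (F.2.1 x) (F.2.2 x)) :
    Rt (G.sl I (G.zz b I I)) (G.zz b I I).d (G.xv b I F) (G.f b I I)
      fun U => -xO (G.N I) F U * G.f b I I U := by
  have nu := (h.sl_all I (G.top b I)).nu
  have n := h.sl_nf I (G.top b I)
  have e : b / G.bb I * (G.sl I (G.top b I)).β = b := div_mul_cancel₀ _ (h.b0 I).ne'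
  have d := fun X c U => (xK_diff (p := G.p I) (n := G.N I) (β := b) (F := fun t : ℂ => t • F)
    (fun x μ ν => by simp only [Prod.smul_fst, Pi.smul_apply]; fun_prop) (fun x U => by
    simp only [Prod.smul_fst, Prod.smul_snd, Pi.smul_apply]; fun_prop) X c U 0).hasDerivAt
  rw [zz_top, f_top]
  refine ⟨1, 0, fun U hU => ?_⟩
  have i := fun t : ℂ => init_x nu hd (v := b / G.bb I) (F := t • F) rfl rfl (fun x => (lt x).smul t) hU
  have z : xK (G.p I) (G.N I) b 0 = (G.top b I).K := (xK_pl 0).trans sK_zero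
  have D := rep_deriv (S := G.sl I (G.top b I)) (b := (G.top b I).d)
    (γ := fun t => (xP (t • F), xK (G.p I) (G.N I) b (t • F))) (d := G.xv b I F)
    (by rw [zero_smul, xP_zero, z]; rfl) ⟨fun x B => by simpa [xP_smul, xv] using der_line 0 (xP F x B), d⟩ U
  have s : ∀ t : ℂ, xO (G.N I) (t • F) U = 0 + t * xO (G.N I) F U := fun t => by
    simp [xO, sO, mul_sum, mul_add, mul_assoc]
  rw [n] at D
  rw [n, e] at i
  have i0 := i 0
  rw [zero_smul, xP_zero, show xK (G.sl I (G.top b I)).p _ _ 0 = _ from z] at i0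
  simp only [s] at i
  simp only [xO, sO, Prod.fst_zero, Prod.snd_zero, Pi.zero_apply, zero_mul, sum_const_zero, add_zero,
    neg_zero, Complex.exp_zero, mul_one] at i0
  refine ⟨by rw [n, one_mul]; exact i0, ?_⟩
  rw [D.unique (((der_line _ _).fun_neg.cexp.const_mul _).congr_of_eventuallyEq
    (.of_forall fun t => (i t).symm))]
  simp [mul_comm]

omit h T in
theorem lr_lt (hX : Wd.Re X) (a : G.Lop I I 0 ω A (G.lt b I X)) : G.Lr I I 0 ω A (G.lt b I X) :=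
  ⟨a, fun _ _ _ _ r => ⟨xP_real (lS_re hX r), xS_real (lS_re hX r)⟩⟩

theorem tx_lt (hd : d ≤ (G.p I).R) (hX : Wd.Rad d X) (a : G.Lr I I 0 (G.om I) A (G.lt b I X)) :
    G.Tx b I I A A (G.lt b I X 1) fun U => -Wd.sm (G.N I) X 1 U * G.f b I I U :=
  have c := h.lr_one (fun k => (h.om0 k).le) le_rfl a
  ⟨c.1, c.2, xO_lS X _ 1 ▸ h.rt_xv T hd fun _ => (ltt_ev hX).smul _⟩

/-- odd letters -/
theorem oi_sm {u : Lx × Ac} (hX : Wd.Od X)
    (a : G.Tx b I k x y u fun U => -Wd.sm (G.N k) X 1 U * G.f b I k U) : G.Oi b I k u :=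
  ⟨_, _, _, a, (Wd.sm_bc ..).1.neg.mul (f_meas h T k).1, (od4_sm hX).mul ((h.f_facts I k).1 b T.b0).2.1⟩

end Ok

/-- real letters at the top -/
theorem lr_let (hX : Wd.Rad d X) (hr : Wd.Re X) : ∃ C > 0, ∀ (G : Gl) (b : ℝ) (I : ℕ), G.Ok →
    G.Tu b I → d ≤ (G.p I).R → C ≤ G.Q I → G.Lr I I 0 (G.om I) C (G.lt b I X) ∧
      (Wd.sig X = 0 → G.Lr I I 0 (G.om I) (C * G.g I * G.Q I ^ 280) (G.lt b I X)) ∧
      (G.Tx b I I C C (G.lt b I X 1) fun U => -Wd.sm (G.N I) X 1 U * G.f b I I U) ∧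
      (Wd.Od X → G.Oi b I I (G.lt b I X 1)) :=
  (lop_let hX).imp fun _ a => ⟨a.1, fun G b I h T hd hC =>
    have c := a.2 G b I _ h T.hb hd hC (h.hy_sg I)
    have e := h.tx_lt T hd hX (Ok.lr_lt hr c.1)
    ⟨Ok.lr_lt hr c.1, fun s => Ok.lr_lt hr (div_inv_eq_mul _ (G.Q I ^ 280) ▸ c.2 s), e,
      fun o => h.oi_sm T o e⟩⟩

end Gl

end Pool.Agent.Lib.MP_7f377f_mp.RG.Q4.En
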