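import Pool.Agent.Lib.MP_7f377f_mp.G.StV7
import Pool.Agent.Lib.MP_7f377f_mp.G.Q5CmR
import Pool.Agent.Lib.MP_7f377f_mp.G.CaCut
import Pool.Agent.Lib.MP_7f377f_mp.G.StW1
import Pool.Agent.Lib.MP_7f377f_mp.G.CaH1

/-! The marginal part of a letter along the flow. -/

noncomputable section

open Pool.Agent.Lib.MP_7f377f_mp.Jet

set_option linter.unusedSectionVars false
variable [Pool.Agent.Lib.MP_7f377f_mp.GD]

namespace Pool.Agent.Lib.MP_7f377f_mp.RG.Q4.En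

open Finset Function Sg Real Pos Mg Filter YM7 Topology Ty
open Wd (Let evG lx sm)
open scoped Classical

theorem Lop.tayA {p : Pa} {n e ρ : ℕ} {Q g ω A a : ℝ} {Φ : (St → ℂ) → Lx × Ac} {F : St → ℂ}
    (h : Lop p n e ρ Q g ω A Φ) (h0 : 0 < p.ρ) (hD : 1 ≤ p.D) (hp : PS (e * n) F)
    (hL : LipT (e * n) a F) (a0 : 0 ≤ a) :
    Sz p n Q g (4 * (e * (p.D + ρ)) * a * A) (4 * (e * (p.D + ρ)) * a * A) ω
      ((Φ F).1 - mL (fun y => F ((e : ℤ) • y)) (Φ 1).1)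
      ((Φ F).2 - mA (fun y => F ((e : ℤ) • y)) (Φ 1).2) := by
  have s := fun t : ℂ => h.sum (univ : Finset Unit) (G := fun _ => 1) hp (fun _ _ _ => rfl) fun _ => t
  simp only [univ_unique, sum_singleton] at s
  have R0 : (0 : ℝ) ≤ e * (p.D + ρ) := by positivity
  refine h.loc (u := (_, _)) h0 (by positivity) (fun y => ⟨_, (s (F ((e : ℤ) • y))).1,
    by rw [(s _).2]; rfl, fun x c => ?_⟩) fun Y => ⟨_, (s (F ((e : ℤ) • px Y))).1,
    by rw [(s _).2]; rfl, fun y hy x c => ?_⟩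
  · simp only [Pi.sub_apply, Pi.smul_apply, Pi.one_apply, smul_eq_mul, mul_one]
    exact (hL _ _ _ c.symm).trans (by nlinarith [rad_le0 e p.D ρ])
  · simp only [Pi.sub_apply, Pi.smul_apply, Pi.one_apply, smul_eq_mul, mul_one]
    exact (hL _ _ _ (near_pair hD hy (px_mem ⟨y, hy⟩) c).symm).trans
      ((mul_le_mul_of_nonneg_left (rad_le' _ _ _ _) a0).trans_eq (by ring))

theorem sum_mv (g : Gn) (φ : Pl → Pl → ℝ) : ∑ p, ∑ q, φ (mv g p) (mv g q) = ∑ p, ∑ q, φ p q := by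
  cases g with
  | inl σ =>
    have e := fun ψ : Pl → ℝ => Equiv.sum_comp (σ.symm.prodCongr σ.symm) ψ
    exact (sum_congr rfl fun p _ => e (φ _)).trans (e fun p => ∑ q, φ p q)
  | inr j => rfl

theorem pt_A1 (p : Pl) : pt (EE p) = (2⁻¹ : ℝ) • (Wd.A1 p.1 p.2 - Wd.A1 p.2 p.1) := by
  obtain ⟨a, b⟩ := p
  funext e
  simp only [← Wd.A1_eq, pt, EE, EZ, pc1, LinearMap.coe_mk, AddHom.coe_mk, Pi.smul_apply,
    Pi.sub_apply, smul_eq_mul, Prod.mk.injEq, Int.cast_sub, Int.cast_ite, Int.cast_one,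
    Int.cast_zero, sub_mul, sum_sub_distrib, ite_mul, one_mul, zero_mul]
  by_cases h1 : e.2 = a <;> by_cases h2 : e.2 = b <;> simp_all [eq_comm]

theorem pb_EE (g : Gn) (p : Pl) : ∃ c : ℝ, |c| = 1 ∧
    Wd.pb Neg.neg (Wd.gn g) (pt (EE p)) = c • pt (EE (mv g p)) := by
  have l : ∀ (g : Wd.B4) (a b : V), Wd.pb Neg.neg g ((2⁻¹ : ℝ) • (a - b)) =
      (2⁻¹ : ℝ) • (Wd.pb Neg.neg g a - Wd.pb Neg.neg g b) := fun g a b => funext fun e => by
    simp only [Wd.pb, Wd.stp, Pi.smul_apply, Pi.sub_apply, smul_eq_mul]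
    split_ifs <;> ring
  rw [pt_A1, pt_A1, l]
  cases g with
  | inl σ =>
    refine ⟨1, abs_one, ?_⟩
    simp only [Wd.gn, Sum.elim_inl, Ty.mv, ← Wd.pe_A σ (σ.symm _), Equiv.apply_symm_apply, one_smul]
  | inr j =>
    refine ⟨(Wd.ep j p.1 * Wd.ep j p.2 : ℤ), ?_, ?_⟩
    · simp only [Wd.ep]
      split_ifs <;> simp
    · simp only [Wd.gn, Sum.elim_inr, Ty.mv, Wd.rf_A, mul_comm (Wd.ep j p.2), ← smul_sub]
      exact smul_comm ..

theorem nb_act (g : Gn) (Y : Let) : nb (lx (Wd.act (Wd.gn g) Y)) = nb (lx Y) := by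
  simp only [nb, qc, cc_eq (as_EE _), Wd.q2_lx, Wd.sig_act]
  rw [← sum_mv g fun p q => ‖Wd.sig Y (pt (EE p)) (pt (EE q))‖ / 4]
  refine sum_congr rfl fun p _ => sum_congr rfl fun q _ => ?_
  obtain ⟨c, a1, a2⟩ := pb_EE g p
  obtain ⟨c', b1, b2⟩ := pb_EE g q
  simp only [a2, b2, map_smul, LinearMap.smul_apply, norm_smul, norm_eq_abs, a1, b1, one_mul]

theorem rad_act {d : ℕ} {Y : Let} (h : Wd.Rad d Y) (g : Wd.B4) : Wd.Rad d (Wd.act g Y) :=
  fun b hb => by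
  obtain ⟨c, hc, rfl⟩ := mem_image.1 (Finsupp.mapDomain_support hb)
  obtain ⟨r, a1, a2⟩ := h c hc
  exact ⟨r, Wd.gv_box g a1, by simpa only [Wd.Bl.act, Wd.Lp.act, List.length_map] using a2⟩

/-- the source of a letter -/
def lW (Y : Let) (F : St → ℂ) : Sx := lS (evG Y) (lx Y) F

namespace Gl

/-- the direction of a letter at the top, at level `k` -/
def lv (G : Gl) (b : ℝ) (J k : ℕ) (Y : Let) (F : St → ℂ) : Lx × Ac :=
  G.tn b J (G.xv b J (lW Y F)) J k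

/-- its marginal part -/
def xk (G : Gl) (b : ℝ) (J k : ℕ) (Y : Let) : ℝ := nb ((G.lv b J k Y 1).1 0)

variable {G : Gl} {b C x y x' y' : ℝ} {J k i d : ℕ} {Y : Let} {u u' : Lx × Ac} {f f' : Conf → ℂ}

/-- (T1) the marginal part dominates along the flow -/
theorem Ok.cone (h : G.Ok) (t : G.Tu b J) (hp : G.Pu) (hi : i ≤ J) (a : G.Tx b J i x y u f)
    (C1 : 1 ≤ C) (x0 : 0 < x + y) (e : x + y ≤ C * nb (u.1 0)) (hk : k ≤ i) (hC : C ≤ G.Q k) :
    0.99 ^ (i - k) * nb (u.1 0) ≤ nb ((G.tn b J u i k).1 0) ∧ G.Tx b J k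
      (C * nb ((G.tn b J u i k).1 0)) (C * nb ((G.tn b J u i k).1 0)) (G.tn b J u i k)
        (G.tt f i k) := by
  have n0 : 0 < nb (u.1 0) := pos_of_mul_pos_right (x0.trans_le e) (by linarith)
  have H : ∀ j ≤ i, k ≤ j → 0.99 ^ (i - j) * nb (u.1 0) ≤ nb ((G.tn b J u i j).1 0) ∧ G.Tx b J j
      (nb ((G.tn b J u i j).1 0)) (C * nb ((G.tn b J u i j).1 0)) (G.tn b J u i j) (G.tt f i j) :=
    dw_ind (fun _ => by
      rw [Gl.tn_top, tt_top, Nat.sub_self, pow_zero, one_mul]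
      exact ⟨le_rfl, h.tn_mono (h.tn_nb a) (h.om0 _).le le_rfl (by linarith [(h.tn_nn a).1])⟩)
      fun j hj ih hk => by
      obtain ⟨a1, a2⟩ := ih (by omega)
      have p := (mul_pos (by positivity) n0).trans_le a1
      obtain ⟨b1, b2⟩ := h.tw_step t hp (hj.trans_le hi) a2 (by positivity)
      have b3 := nb_sub b2
      rw [Gl.tn_step hj, tt_step _ hj, show i - j = i - (j + 1) + 1 by omega, pow_succ', mul_assoc]
      generalize nb ((G.tn b J u i (j + 1)).1 0) = n at *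
      have q := h.Q0 j
      have c1 : G.Q j ^ 50 * (G.Q (j + 1) ^ 280)⁻¹ * (n + C * n) ≤ 2 * (G.Q j ^ 229)⁻¹ * n := by
        calc _ ≤ G.Q j ^ 50 * (G.Q j ^ 280)⁻¹ * (G.Q j * n + G.Q j * n) := by
              gcongr
              · exact h.Q_mono j.le_succ
              · exact le_mul_of_one_le_left p.le (h.Q1 j)
              · exact hC.trans (h.Q_mono hk)
          _ = _ := by field_simp; ring
      have c2 := mul_le_mul_of_nonneg_right (h.inv_c j (j := 229) (by norm_num)) p.le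
      have c3 : 0.99 * n ≤ nb ((G.ts j (G.zz b J (j + 1)) (G.zz b J (j + 1)).d
          (G.tn b J u i (j + 1))).1 0) := by linarith
      refine ⟨(mul_le_mul_of_nonneg_left a1 (by norm_num)).trans c3,
        h.tn_mono (h.tn_nb b1) (h.om0 _).le le_rfl (le_trans ?_
          (mul_le_mul_of_nonneg_left c3 (by linarith)))⟩
      nlinarith [h.cr1 j, h.cr0 j, mul_le_mul_of_nonneg_right C1 p.le]
  obtain ⟨a1, a2⟩ := H k hk le_rfl
  exact ⟨a1, h.tn_mono a2 (h.om0 _).le (le_mul_of_one_le_left (nb_nonneg _) C1) le_rfl⟩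

theorem xk_top : G.xk b J J Y = nb (lx Y) := by
  rw [xk, lv, tn_top, lW, Wd.xv_fst, Pi.one_apply, one_smul]

theorem lv_tn (hl : i ≤ J) (hk : k ≤ i) (F : St → ℂ) :
    G.tn b J (G.lv b J i Y F) i k = G.lv b J k Y F := dw_dw _ _ hl k hk

/-- (T2) the size of a letter with a marginal part -/
theorem norm (hd : Wd.Rad d Y) (hr : Wd.Re Y) (h0 : nb (lx Y) ≠ 0) : ∃ C ≥ (1 : ℝ),
    ∀ (G : Gl) b J k, G.Ok → G.Tu b J → G.Pu → d ≤ (G.p k).R → C ≤ G.Q k → k ≤ J →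
      C⁻¹ * 0.99 ^ (J - k) ≤ G.xk b J k Y ∧ ∀ l, k ≤ l → l ≤ J →
        0.99 ^ (l - k) * G.xk b J l Y ≤ G.xk b J k Y ∧
        G.Tx b J l (C * G.xk b J l Y) (C * G.xk b J l Y) (G.lv b J l Y 1)
          (G.tt (fun U => -sm (G.N J) Y 1 U * wil b (G.N J) U) J l) ∧
        ∀ F a, PS (G.N J) F → (∀ x, ‖F x‖ ≤ 1) → LipT (G.N J) a F → 0 < a →
          G.S1 G.om l
            (1.01 ^ (J - l) * G.Q J ^ 3 * a + G.Q l ^ 3 * (G.rt J l * a) * G.xk b J l Y)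
            (G.lv b J l Y F - (mL (G.fd J l F) (G.lv b J l Y 1).1,
              mA (G.fd J l F) (G.lv b J l Y 1).2)) := by
  obtain ⟨A, A0, hA⟩ := lr_let hd hr
  have n0 := (nb_nonneg _).lt_of_ne' h0
  obtain ⟨C, hC⟩ : ∃ C, C = 1 + A + (1 + 2 * A) / nb (lx Y) := ⟨_, rfl⟩
  have c0 : 0 < (1 + 2 * A) / nb (lx Y) := by positivity
  have c1 : 1 + 2 * A ≤ C * nb (lx Y) := by
    rw [hC, add_mul, div_mul_cancel₀ _ h0]
    exact le_add_of_nonneg_left (by positivity)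
  have C1 : 1 ≤ C := by linarith
  refine ⟨2 * C, by linarith, fun G b J k h t hp dR hQ hk => ?_⟩
  have Qm : ∀ l, k ≤ l → 2 * C ≤ G.Q l := fun l a => hQ.trans (h.Q_mono a)
  obtain ⟨lr, -, tx, -⟩ := hA G b J h t (dR.trans (Nat.mul_le_mul_left 4
    (Nat.pow_le_pow_left (h.L_mono hk) _))) (by linarith [Qm J hk])
  rw [f_top] at tx
  have e0 : nb ((G.lt b J Y 1).1 0) = nb (lx Y) := by rw [Wd.xv_fst, Pi.one_apply, one_smul]
  have K : ∀ l, k ≤ l → l ≤ J → 0.99 ^ (J - l) * nb (lx Y) ≤ G.xk b J l Y ∧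
      G.Tx b J l (C * G.xk b J l Y) (C * G.xk b J l Y) (G.lv b J l Y 1)
        (G.tt (fun U => -sm (G.N J) Y 1 U * wil b (G.N J) U) J l) := fun l a c =>
    e0 ▸ h.cone t hp le_rfl tx C1 (by linarith) (by rw [e0]; linarith) c (by linarith [Qm l a])
  have p : ∀ l, k ≤ l → l ≤ J → 0 < G.xk b J l Y := fun l a c =>
    (mul_pos (by positivity) n0).trans_le (K l a c).1
  have K2 : ∀ j l, k ≤ j → j ≤ l → l ≤ J → 0.99 ^ (l - j) * G.xk b J l Y ≤ G.xk b J j Y :=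
    fun j l a a' c => by
      have q := mul_pos (one_pos.trans_le C1) (p l (a.trans a') c)
      have := (h.cone t hp c (K l (a.trans a') c).2 (C := 2 * C) (by linarith) (by linarith)
        (le_of_eq (by rw [xk]; ring)) a' (Qm j a)).1
      rwa [lv_tn c a'] at this
  refine ⟨le_trans ?_ (K k le_rfl hk).1, fun l a c => ⟨K2 k l le_rfl a c, ?_, fun F s hF h1 hL s0 => ?_⟩⟩
  · rw [mul_comm]
    gcongr
    rw [inv_le_iff_one_le_mul₀' (by linarith)]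
    nlinarith
  · have := mul_pos (one_pos.trans_le C1) (p l a c)
    exact h.tn_mono (K l a c).2 (h.om0 _).le (by linarith) (by linarith)
  have E0 : 0 ≤ G.Q J ^ 3 * s := by have := h.Q0 J; positivity
  have H : ∀ m ≤ J, k ≤ m → G.Sz m
      (1.01 ^ (J - m) * (G.Q J ^ 3 * s) + G.Q m ^ 2 * (G.rt J m * s) * (C * G.xk b J m Y))
      (1.01 ^ (J - m) * (G.Q J ^ 3 * s) + G.Q m ^ 2 * (G.rt J m * s) * (C * G.xk b J m Y)) (G.om m)
      ((G.lv b J m Y F).1 - mL (G.fd J m F) (G.lv b J m Y 1).1)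
      ((G.lv b J m Y F).2 - mA (G.fd J m F) (G.lv b J m Y 1).2) :=
    dw_ind (fun _ => by
      have a1 := Lop.tayA lr.lop (h.ρ0 J) (h.D1' J) (F := F) (by rwa [h.rt_N le_rfl])
        (by rwa [h.rt_N le_rfl]) s0.le
      have a2 := h.nm J (C := 80) (i := 0) (j := 1) (by norm_num) (by norm_num) (by norm_num)
      have q := h.Q0 J
      have a3 : 4 * (G.rt J J * ((G.p J).D + (0 : ℕ))) * s * A ≤ 1.01 ^ (J - J) * (G.Q J ^ 3 * s) +
          G.Q J ^ 2 * (G.rt J J * s) * (C * G.xk b J J Y) := by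
        have := p J hk le_rfl
        refine le_add_of_le_of_nonneg ?_ (by positivity)
        rw [rt_top, p_D, Nat.sub_self]
        push_cast
        calc _ = 80 * (G.L J : ℝ) ^ 0 * (G.D0 J : ℝ) ^ 1 * 1 * A * s := by ring
          _ ≤ G.Q J * G.Q J * G.Q J * s := by
            gcongr
            · exact h.Q1 J
            · linarith [Qm J hk]
          _ = _ := by ring
      simp only [lv, tn_top]
      exact h.sz_up a1 (h.om0 J).le a3 a3) fun m hm ih a => by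
      obtain ⟨s1, s2, s3⟩ := h.tw_tg t hm
      have n := h.sd_nf m (G.zz b J (m + 1))
      have q := mul_pos (one_pos.trans_le C1) (p (m + 1) (by omega) hm)
      have := pos_step_v (h.sd_all m _).nu s1 s2 (h.sz_fine _ (K (m + 1) (by omega) hm).2.sz) q
        (F := G.fd J (m + 1) F) (fun _ => h1 _) (n ▸ h.fd_lip hL _ hm)
        (mul_pos (Nat.cast_pos.2 (pow_pos three_pos _)) s0) (by positivity) s3
        (h.sz_fine _ (ih (by omega)))
      have a1 : 2 * G.cr m * (C * G.xk b J (m + 1) Y) ≤ C * G.xk b J m Y := by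
        have := mul_le_mul_of_nonneg_left (K2 m (m + 1) a m.le_succ hm) (zero_le_one.trans C1)
        rw [Nat.add_sub_cancel_left, pow_one] at this
        nlinarith [h.cr1 m]
      have a2 := add_le_add_right (mul_le_mul_of_nonneg_left a1 (show 0 ≤ G.Q m ^ 2 *
        (G.L m * (G.rt J (m + 1) * s)) by positivity)) (1.01 * (1.01 ^ (J - (m + 1)) * (G.Q J ^ 3 * s)))
      rw [lv, lv, tn_step hm, tn_step hm, h.fd_step hm, h.rt_step hm, Nat.cast_mul,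
        show J - m = J - (m + 1) + 1 by omega, pow_succ', mul_assoc 1.01, mul_assoc (G.L m : ℝ)]
      exact h.sz_up this (h.om0 m).le a2 a2
  have e : 1.01 ^ (J - l) * (G.Q J ^ 3 * s) + G.Q l ^ 2 * (G.rt J l * s) * (C * G.xk b J l Y) ≤
      1.01 ^ (J - l) * G.Q J ^ 3 * s + G.Q l ^ 3 * (G.rt J l * s) * G.xk b J l Y := by
    have := mul_le_mul_of_nonneg_right (show C ≤ G.Q l by linarith [Qm l a])
      (show 0 ≤ G.Q l ^ 2 * (G.rt J l * s) * G.xk b J l Y by have := p l a c; positivity)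
    linarith
  exact h.sz_up (H l c a) (h.om0 l).le e e

/-- the response to fluxes -/
theorem Ok.tw_fd0 (h : G.Ok) (A : G.Tu b J) (hk : k ≤ J) (a : G.Tx b J k x y u f) :
    0 < tq (G.N k) (G.g k / G.Q k ^ 14) ∧ ∃ (κ : BF) (c : ℝ), (∀ a b, κ a b = κ b a) ∧
    (∀ F F', As F → As F' → qc (u.1 0) (pt F) (pt F') = κ (pt F) (pt F')) ∧
    ∀ F ϑ, As F → ‖F‖ ≤ 2 * tq (G.N k) (G.g k / G.Q k ^ 14) → Fx (G.N k) F ϑ →
      |lg (G.f b J k) f (ab ϑ) - c + G.N k ^ 4 * κ (pt F) (pt F)| ≤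
        5 * (G.Q k ^ 14) ^ 2 * (G.Q k ^ 280)⁻¹ * (x + y) * tq (G.N k) (G.g k / G.Q k ^ 14) ^ 2 *
          G.N k ^ 4 := by
  have g := A.gd k hk
  have P2 : (G.Q k ^ 14) ^ 2 ≤ G.bb k :=
    (pow_mul _ _ _).ge.trans ((pow_le_pow_right₀ (h.Q1 k) (by norm_num)).trans (h.Qb k))
  have a1 := (h.lf g.tz).fd0 (b := (G.zz b J k).d) (P := G.Q k ^ 14) (h.sz_sl g.dt.sz _)
    (h.sz_sl a.sz _) (h.re_sl a.re _) a.rt (h.f_ne A k _) (h.u_g k (by linarith [h.u_one k]))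
    (h.hy_sg k) (h.hy_sg k) (h.om_one (h.om_mono k (by norm_num))) le_rfl P2
  have a2 := ((h.lf g.tz).tq_bd (P := G.Q k ^ 14) (le_self_pow₀ (h.Q1 k) (by norm_num)) P2).1
  rw [h.sl_nf] at a1 a2
  exact ⟨a2, a1⟩

/-- the marginal part is almost covariant -/
theorem Ok.nb_cov (h : G.Ok) (A : G.Tu b J) (hk : k ≤ J) (a : G.Tx b J k x y u f)
    (a' : G.Tx b J k x' y' u' f') (g : Gn) (e : ∀ U, Per (G.N k) U → f' U = f (cf g U)) :
    nb (u'.1 0) ≤ nb (u.1 0) + (G.Q k ^ 250)⁻¹ * (x + y + (x' + y')) := by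
  obtain ⟨t0, κ, c, a1, a2, a3⟩ := h.tw_fd0 A hk a
  obtain ⟨-, κ', c', b1, b2, b3⟩ := h.tw_fd0 A hk a'
  have n0 := (h.N_odd k).pos.ne'
  let L : V →ₗ[ℝ] V := ⟨⟨fun a => pt (Ty.mt g (dd a 0)), fun a b => by
    rw [← map_add, ← mt_add]; congr 2; ext; simp [dd]; ring⟩, fun c a => by
    rw [RingHom.id_apply, ← map_smul, ← mt_smul,
      ← show dd (c • a) 0 = c • dd a 0 by ext; simp [dd]; ring]⟩
  have l : ∀ F, As F → L (pt F) = pt (Ty.mt g F) := fun F hF => congrArg (pt <| Ty.mt g ·) (dd_pt hF 0)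
  have c1 := (ty_def n0 t0 b1 b3).1
  have c2 := (ty_def (G := lg (G.f b J k) f') (k := κ.compl₁₂ L L) (c := c) n0 t0
    (fun _ _ => a1 _ _) fun F ϑ hF h1 h2 => by
      have := a3 _ _ (as_mt hF g) ((norm_mt g).trans h1) (fx_an h2 g)
      rwa [lg, ab_an, sym_cf ((h.f_facts J k).1 b A.b0).2.1 g h2.per, ← e _ h2.per, ← l F hF]
        at this).1
  have Q0 := h.Q0 k
  obtain ⟨x0, y0⟩ := h.tn_nn a
  obtain ⟨x1, y1⟩ := h.tn_nn a'
  have e1 : 10000 * (G.Q k ^ 14) ^ 2 * (G.Q k ^ 280)⁻¹ ≤ (G.Q k ^ 250)⁻¹ := by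
    rw [show 10000 * (G.Q k ^ 14) ^ 2 * (G.Q k ^ 280)⁻¹ = 10 ^ 4 * (G.Q k ^ 252)⁻¹ by
      field_simp; norm_num]
    exact h.hy_pw k (by norm_num)
  have e2 := mul_le_mul_of_nonneg_right e1 (show 0 ≤ x + y + (x' + y') by positivity)
  have e3 : 0 ≤ (G.Q k ^ 14) ^ 2 * (G.Q k ^ 280)⁻¹ * (x + y + (x' + y')) := by positivity
  rw [nb, nb, ← sum_mv g fun p q => ‖qc (u.1 0) (pt (EE p)) (pt (EE q))‖ / 4]
  refine (sum_le_sum fun p _ => sum_le_sum fun q _ => show _ ≤ ‖qc (u.1 0) (pt (EE (mv g p)))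
    (pt (EE (mv g q)))‖ / 4 + 10 * ((G.Q k ^ 14) ^ 2 * (G.Q k ^ 280)⁻¹ * (x + y + (x' + y'))) / 4 by
      have d1 := c1 (p, q)
      have d2 := c2 (p, q)
      have d3 : |κ.compl₁₂ L L (pt (EE p)) (pt (EE q))| =
          |κ (pt (EE (mv g p))) (pt (EE (mv g q)))| := by
        simp only [LinearMap.compl₁₂_apply, l _ (as_EE _), mt_EE, map_smul, LinearMap.smul_apply,
          smul_eq_mul, abs_mul, sn_abs, one_mul]
      rw [a2 _ _ (as_EE _) (as_EE _), b2 _ _ (as_EE _) (as_EE _), Complex.norm_real,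
        Complex.norm_real, norm_eq_abs, norm_eq_abs, ← d3]
      have d4 := abs_sub_abs_le_abs_sub (κ' (pt (EE p)) (pt (EE q)))
        (κ.compl₁₂ L L (pt (EE p)) (pt (EE q)))
      have d5 := abs_sub_le (κ' (pt (EE p)) (pt (EE q))) (rsp (G.N k) (G.g k / G.Q k ^ 14) (p, q)
        (lg (G.f b J k) f')) (κ.compl₁₂ L L (pt (EE p)) (pt (EE q)))
      rw [abs_sub_comm] at d1
      linarith).trans ?_
  simp only [sum_add_distrib, sum_const, card_univ, Fintype.card_prod, Fintype.card_fin, nsmul_eq_mul]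
  push_cast
  linarith

/-- (T2') the size is covariant -/
theorem xk_act (hd : Wd.Rad d Y) (hr : Wd.Re Y) (h0 : nb (lx Y) ≠ 0) (g : Wd.B4) : ∃ C : ℝ,
    nb (lx (Wd.act g Y)) ≠ 0 ∧ ∀ (G : Gl) b J k, G.Ok → G.Tu b J → G.Pu → d ≤ (G.p k).R →
      C ≤ G.Q k → k ≤ J → G.xk b J k (Wd.act g Y) ≤ 2 * G.xk b J k Y := by
  suffices H : ∀ Y, Wd.Rad d Y → Wd.Re Y → nb (lx Y) ≠ 0 → nb (lx (Wd.act g Y)) ≠ 0 ∧ ∀ θ > (1 : ℝ),
      ∃ C : ℝ, ∀ (G : Gl) b J k, G.Ok → G.Tu b J → G.Pu → d ≤ (G.p k).R →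
        C ≤ G.Q k → k ≤ J → G.xk b J k (Wd.act g Y) ≤ θ * G.xk b J k Y from
    ((H Y hd hr h0).2 2 one_lt_two).imp fun _ a => ⟨(H Y hd hr h0).1, a⟩
  have B : ∀ g : Gn, ∀ Y, Wd.Rad d Y → Wd.Re Y → nb (lx Y) ≠ 0 →
      nb (lx (Wd.act (Wd.gn g) Y)) ≠ 0 ∧ ∀ θ > (1 : ℝ),
      ∃ C : ℝ, ∀ (G : Gl) b J k, G.Ok → G.Tu b J → G.Pu → d ≤ (G.p k).R →
        C ≤ G.Q k → k ≤ J → G.xk b J k (Wd.act (Wd.gn g) Y) ≤ θ * G.xk b J k Y :=
    fun g Y hd hr h0 => ⟨by rwa [nb_act], fun θ hθ => by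
      obtain ⟨C1, -, a1⟩ := norm hd hr h0
      obtain ⟨C2, -, a2⟩ := norm (rad_act hd (Wd.gn g)) (Wd.rl_act _ hr) (by rwa [nb_act])
      refine ⟨max (max C1 C2) (2 * (θ + 1) / (θ - 1)), fun G b J k h t hp dR hQ hk => ?_⟩
      simp only [max_le_iff] at hQ
      have w := Br.gi_bc ((gi_neg (gi_sm 0 (G.N J) Y 1)).mul (gi_wil (b := b) (n := G.N J) 0))
      have c := h.nb_cov t hk ((a1 G b J k h t hp dR hQ.1.1 hk).2 k le_rfl hk).2.1
        ((a2 G b J k h t hp dR hQ.1.2 hk).2 k le_rfl hk).2.1 g fun U hU => by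
          rw [Wd.cf_pb, ← Wd.tt_pb h hk w hU]
          exact h.tt_congr (fun W hW => by
            simp only [Wd.sm_one, Wd.wil_pb (h.N_odd J) hW]) hk U hU
      have q := h.Q0 k
      have x1 : 0 ≤ G.xk b J k Y := nb_nonneg _
      have x2 : 0 ≤ G.xk b J k (Wd.act (Wd.gn g) Y) := nb_nonneg _
      change G.xk b J k _ ≤ G.xk b J k Y + _ at c
      generalize G.xk b J k (Wd.act (Wd.gn g) Y) = n' at *
      generalize G.xk b J k Y = n at *
      have e1 : (G.Q k ^ 250)⁻¹ * (C1 * n + C1 * n + (C2 * n' + C2 * n')) ≤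
          2 / G.Q k * (n + n') := by
        calc _ ≤ (G.Q k ^ 2)⁻¹ * (G.Q k * n + G.Q k * n + (G.Q k * n' + G.Q k * n')) := by
              refine (mul_le_mul_of_nonneg_left (?_ : _ ≤ G.Q k * n + G.Q k * n +
                (G.Q k * n' + G.Q k * n')) (by positivity)).trans
                (mul_le_mul_of_nonneg_right (h.om_mono k (by norm_num)) (by positivity))
              gcongr
              exacts [hQ.1.1, hQ.1.1, hQ.1.2, hQ.1.2]
          _ = _ := by field_simp; ring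
      have e2 : 2 / G.Q k * (θ + 1) ≤ θ - 1 := by
        rw [div_mul_eq_mul_div, div_le_iff₀' q, ← div_le_iff₀ (by linarith)]
        exact hQ.2
      have e3 : 0 < 2 / G.Q k := by positivity
      generalize 2 / G.Q k = ε at *
      refine le_of_mul_le_mul_left ?_ (show 0 < 1 - ε by nlinarith)
      nlinarith⟩
  refine Wd.B4_ind (P := fun g => ∀ Y, Wd.Rad d Y → Wd.Re Y → nb (lx Y) ≠ 0 →
    nb (lx (Wd.act g Y)) ≠ 0 ∧ ∀ θ > (1 : ℝ), ∃ C : ℝ, ∀ (G : Gl) b J k, G.Ok → G.Tu b J → G.Pu →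
      d ≤ (G.p k).R → C ≤ G.Q k → k ≤ J → G.xk b J k (Wd.act g Y) ≤ θ * G.xk b J k Y)
    (fun σ => B (.inl σ)) (fun i => B (.inr i)) (fun g g' a a' Y hd hr h0 => ?_) g
  obtain ⟨b1, b2⟩ := a' Y hd hr h0
  obtain ⟨c1, c2⟩ := a _ (rad_act hd g') (Wd.rl_act _ hr) b1
  rw [Wd.act_mul]
  refine ⟨c1, fun θ hθ => ?_⟩
  have s : 1 < √θ := lt_sqrt_of_sq_lt (by simpa using hθ)
  obtain ⟨C1, d1⟩ := b2 _ s
  obtain ⟨C2, d2⟩ := c2 _ s
  refine ⟨max C1 C2, fun G b J k h t hp dR hQ hk => (d2 G b J k h t hp dR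
    ((le_max_right ..).trans hQ) hk).trans ((mul_le_mul_of_nonneg_left (d1 G b J k h t hp dR
      ((le_max_left ..).trans hQ) hk) (sqrt_nonneg _)).trans_eq ?_)⟩
  rw [← mul_assoc, mul_self_sqrt (by linarith)]

end Gl

end Pool.Agent.Lib.MP_7f377f_mp.RG.Q4.En
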