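import Pool.Agent.Lib.MP_7f377f_mp.G.StV9
import Pool.Agent.Lib.MP_7f377f_mp.G.StQ

/-! Directions of a type of multiplicity one are proportional. -/

noncomputable section

set_option linter.unusedSectionVars false
variable [Pool.Agent.Lib.MP_7f377f_mp.GD]

namespace Pool.Agent.Lib.MP_7f377f_mp.RG.Q4.En

open Finset Real Sg Pos
open Wd (Let lx)

theorem pt_EE (a b : Fin 4) : pt (EE (a, b)) = (2⁻¹ : ℝ) • (Wd.A1 a b - Wd.A1 b a) := by
  funext l
  simp only [pt, EE, EZ, Wd.A1, Wd.pA, Wd.cd, if_true, Wd.un_de, Wd.de, LinearMap.coe_mk,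
    AddHom.coe_mk, Pi.smul_apply, Pi.sub_apply, smul_eq_mul, Prod.mk.injEq]
  push_cast
  by_cases h1 : l.2 = a <;> by_cases h2 : l.2 = b <;> simp_all [eq_comm, sub_mul]

theorem qc_lx (X : Let) (a b c d : Fin 4) :
    qc (lx X) (pt (EE (a, b))) (pt (EE (c, d))) = Wd.sig X (Wd.A1 a b) (Wd.A1 c d) := by
  have g := Wd.gk_sig X
  rw [qc, cc_eq (as_EE _), cc_eq (as_EE _), Wd.q2_lx, pt_EE, pt_EE]
  simp only [map_smul, map_sub, LinearMap.smul_apply, LinearMap.sub_apply, g.anti b a, g.anti' d c,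
    Complex.real_smul]
  push_cast
  ring

theorem nb_lx {X : Let} {a b c d : Fin 4} (h : Wd.sig X (Wd.A1 a b) (Wd.A1 c d) ≠ 0) :
    nb (lx X) ≠ 0 := fun e => h (by
  have := (sum_eq_zero_iff_of_nonneg fun _ _ => by positivity).1
    ((sum_eq_zero_iff_of_nonneg fun _ _ => by positivity).1 e (a, b) (mem_univ _)) (c, d) (mem_univ _)
  simpa [qc_lx] using this)

theorem nb_comb {φ ψ ψ' : Fld → ℂ} {s t : ℝ}
    (e : ∀ a b, qc φ a b = s * qc ψ a b + t * qc ψ' a b) : |t| * nb ψ' ≤ nb φ + |s| * nb ψ := by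
  simp only [nb, mul_sum, ← sum_add_distrib]
  refine sum_le_sum fun p _ => sum_le_sum fun q _ => ?_
  have := norm_sub_le (qc φ (pt (EE p)) (pt (EE q))) (s * qc ψ (pt (EE p)) (pt (EE q)))
  nth_rw 1 [e] at this
  simp only [add_sub_cancel_left, norm_mul, Complex.norm_real, norm_eq_abs] at this
  linarith

namespace Gl

variable {G : Gl} {b x y : ℝ} {J i : ℕ} {T : Ty.Ty} {E : List (Ty.Pl × Ty.Pl)}

/-- a combination without measured marginal part contracts -/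
theorem Ok.prop' {ι : Type} [Fintype ι] (h : G.Ok) (A : G.Tu b J) (hp : G.Pu) {u : ι → Lx × Ac}
    {u' : ι → Conf → ℂ} (hD : Ty.Det T E) (hi : i ≤ J) (a : ∀ t, G.Tx b J i x y (u t) (u' t))
    (y0 : 0 < y) (mf : ∀ t, BC (u' t)) (s : ∀ t, Sgn (G.N i) T (u' t)) {γ : ι → ℝ}
    (g1 : 0 < ∑ t, |γ t|) (g2 : ∀ e ∈ E, ∑ t, γ t * G.rs b J 0 e (G.tt (u' t) i 0) = 0) :
    ∀ m ≤ i, G.S1 G.om m (G.cP m i * ((∑ t, |γ t|) * y)) (G.tn b J (∑ t, (γ t : ℂ) • u t) i m) :=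
  fun m hm => (h.tn_mono (h.kill A hp hD hi (Nat.zero_le _) (h.tw_sum A hi (s := univ)
    (fun t _ => a t) γ) (mul_pos g1 y0) (bc_sum (fun t _ => mf t) _).1 (Sgn.sum (fun t _ => s t) _)
    le_rfl (fun e he => by
      rw [tt_sum (fun t _ => mf t) _ (Nat.zero_le _), rs, rsp_sum]
      exact (congrArg abs (g2 e he)).trans_le abs_zero.le) (Nat.zero_le _) hm) (h.om0 _).le
    (by linarith [mul_pos (h.cP0 m i) (mul_pos g1 y0)]) (by simp)).sz

/-- (T3) two directions of the same type are proportional -/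
theorem link (C : ℝ) : ∃ C' ≥ (1 : ℝ), ∀ (G : Gl) b J i y (T : Ty.Ty) e u u' f f', G.Ok → G.Tu b J →
    G.Pu → Ty.Det T [e] → 0 < i → i ≤ J → C' ≤ G.L (i - 1) → 0 < y → G.Tx b J i y y u f →
    G.Tx b J i y y u' f' → BC f → BC f' → Sgn (G.N i) T f → Sgn (G.N i) T f' →
    y ≤ C * nb (u'.1 0) → ∃ r : ℝ, |r| ≤ C' ∧ ∀ m ≤ i, G.S1 G.om m
      (G.cP m i * (C' * y)) (G.tn b J (u - (r : ℂ) • u') i m) := by
  obtain ⟨D, D1, hD⟩ : ∃ D : ℝ, 1 ≤ D ∧ C ≤ D := ⟨max 1 C, le_max_left _ _, le_max_right _ _⟩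
  have D2 : 100 * D ≤ (100 * D) ^ 40 := le_self_pow₀ (by linarith) (by norm_num)
  refine ⟨(100 * D) ^ 40, by linarith, fun G b J i y T e u u' f f' h A hp dt i0 hi hL y0 a a' mf mf'
    s s' hy => ?_⟩
  obtain ⟨j, rfl⟩ := Nat.exists_eq_add_one_of_ne_zero i0.ne'
  rw [Nat.add_sub_cancel] at hL
  have a2 : ∀ t, G.Tx b J (j + 1) y y (![u, u'] t) (![f, f'] t) := Fin.forall_fin_two.2 ⟨a, a'⟩
  have K := fun γ => h.prop' A hp dt hi a2 y0 (Fin.forall_fin_two.2 ⟨mf, mf'⟩)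
    (Fin.forall_fin_two.2 ⟨s, s'⟩) (γ := γ)
  obtain ⟨γ, g1, g2⟩ := exists_ker (n := 1) [e] le_rfl
    fun e t => G.rs b J 0 e (G.tt (![f, f'] t) (j + 1) 0)
  have k1 := (Ps.nb ((K γ (g1 ▸ one_pos) g2 j j.le_succ).1 0).1).2
  have k2 := h.tw_sum A hi (s := univ) (fun t _ => a2 t) γ
  rw [g1, one_mul] at k1 k2
  have k3 := nb_sub (h.tw_step A hp hi k2 (add_pos y0 y0)).2
  rw [tn_step j.lt_succ_self, tn_top, cP_step j.lt_succ_self, cP_top] at k1
  have k4 : |γ 1| * nb (u'.1 0) ≤ _ + |γ 0| * nb (u.1 0) := nb_comb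
    (φ := (∑ t, (γ t : ℂ) • ![u, u'] t).1 0) fun p q => by
      have c := (a.sz.1 0).1.smul (h.ρ0 _) (γ 0)
      have c' := (a'.sz.1 0).1.smul (h.ρ0 _) (γ 1)
      rw [Fin.sum_univ_two, qc, qc, qc, ← c.2, ← c'.2]
      exact (c.1.add c'.1 (h.ρ0 _)).2 _ _
  have k5 := (Ps.nb (a.sz.1 0).1).2
  have n1 : 1000 * G.cr j * D ≤ 1 := by
    have c : (1000 * G.cr j) ^ 40 * G.L j ≤ 1 := cr_pow (h.sd_all j _).nu
    have c0 := h.cr0 j
    refine le_of_pow_le_pow_left₀ (n := 40) (by norm_num) zero_le_one ?_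
    rw [mul_pow, one_pow]
    refine le_trans ?_ c
    gcongr
    exact le_trans (by gcongr; linarith) hL
  have n2 : 1000 * (G.Q j ^ 50 * (G.Q (j + 1) ^ 280)⁻¹) * D ≤ 1 := by
    have Q0 := h.Q0 j
    have c : D ≤ G.Q j := by linarith [h.LQ j]
    have c' := h.Q_mono j.le_succ
    calc _ ≤ 10 ^ 9 * (G.Q j ^ 50 * (G.Q j ^ 280)⁻¹) * G.Q j := by gcongr; norm_num
      _ = 10 ^ 9 * (G.Q j ^ 229)⁻¹ := by field_simp
      _ ≤ 1 := h.inv_c j (by norm_num)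
  have n0 := nb_nonneg (u'.1 0)
  have p0 := abs_nonneg (γ 0)
  have p1 := abs_nonneg (γ 1)
  rw [Fin.sum_univ_two] at g1
  have k6 : 1 ≤ 100 * D * |γ 0| := by
    have c1 := mul_le_mul_of_nonneg_left (hy.trans (mul_le_mul_of_nonneg_right hD n0)) p1
    have c2 := mul_le_mul_of_nonneg_left (k4.trans (add_le_add (k3.trans (add_le_add k1 le_rfl))
      (mul_le_mul_of_nonneg_left k5 p0))) (zero_le_one.trans D1)
    refine le_of_mul_le_mul_right ?_ y0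
    nlinarith [mul_le_mul_of_nonneg_right n1 y0.le, mul_le_mul_of_nonneg_right n2 y0.le,
      mul_le_mul_of_nonneg_right D1 (mul_nonneg p0 y0.le)]
  have g0 : 0 < |γ 0| := p0.lt_of_ne fun c => by rw [← c] at k6; linarith
  have k7 : 1 + |γ 1 / γ 0| ≤ (100 * D) ^ 40 := by
    rw [abs_div, one_add_div g0.ne', g1]
    exact ((div_le_iff₀ g0).2 k6).trans D2
  refine ⟨-(γ 1 / γ 0), by rw [abs_neg]; linarith, fun m hm => ?_⟩
  have := K ![1, γ 1 / γ 0] (by simp; positivity) (fun e he => by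
    have := (Fin.sum_univ_two _).symm.trans (g2 e he)
    have g0' := abs_pos.1 g0
    simp only [Fin.sum_univ_two, Matrix.cons_val_zero, Matrix.cons_val_one] at this ⊢
    linear_combination (γ 0)⁻¹ * this +
      G.rs b J 0 e (G.tt f (j + 1) 0) * (inv_mul_cancel₀ g0').symm) m hm
  simp only [Fin.sum_univ_two, Matrix.cons_val_zero, Matrix.cons_val_one, abs_one,
    Complex.ofReal_one, one_smul] at this
  rw [Complex.ofReal_neg, neg_smul, sub_neg_eq_add]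
  exact h.s1_mono (fun k => (h.om0 k).le) this (by have := h.cP0 m (j + 1); gcongr)

end Gl

end Pool.Agent.Lib.MP_7f377f_mp.RG.Q4.En
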