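import Pool.Agent.Lib.MP_7f377f_mp.G.StV3

/-! Linear curvature under the minimiser. -/

noncomputable section

open Pool.Agent.Lib.MP_7f377f_mp.Jet

set_option linter.unusedSectionVars false
variable [Pool.Agent.Lib.MP_7f377f_mp.GD]

namespace Pool.Agent.Lib.MP_7f377f_mp.RG.Q4

open Finset Real La La.Q
open scoped Classical

namespace V2

variable {l r c : ℕ} {τ δ : ℝ} {m : BF} {s : V →ₗ[ℝ] V} {a A B φ : V}
  {g : Fin 4 × Fin 4 × Fin 4 → ℝ}

/-- centred linear curvature -/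
def Af (g : Fin 4 × Fin 4 × Fin 4 → ℝ) (B : V) : Prop :=
  ∀ x μ ν, dd B x μ ν = ∑ κ, g (κ, μ, ν) * xb x μ ν κ

theorem Af.dsh (h : Af g B) (y x : St) (μ ν : Fin 4) :
    dd (sh y B - B) x μ ν = ∑ κ, g (κ, μ, ν) * y κ := by
  rw [RG.dd_sub, Li.dd_sh, h, h, ← sum_sub_distrib]
  refine sum_congr rfl fun κ _ => ?_
  simp only [xb, Pi.add_apply, Int.cast_add]
  ring

theorem gauss (n : ℕ) : ∑ i ∈ range n, (i : ℝ) = n * (n - 1) / 2 := by
  induction n with
  | zero => simp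
  | succ n ih => rw [sum_range_succ, ih]; push_cast; ring

theorem Af.avg (h : Af g B) (l : ℕ) : dd B = dd (avgA l (((LL l : ℝ) ^ 3)⁻¹ • B)) := by
  have hL := LL_posR l
  funext y μ ν
  have e : ∀ (t : St) (i j : ℕ) κ, xb (up l y + t + (i : ℤ) • un μ + (j : ℤ) • un ν) μ ν κ =
      LL l * y κ + 2⁻¹ * kr κ μ + 2⁻¹ * kr κ ν + t κ + kr κ μ * i + kr κ ν * j := fun t i j κ => by
    simp only [xb_eq, up, Pi.add_apply, Pi.smul_apply, un_apply, kr, smul_eq_mul]
    split_ifs <;> push_cast <;> ring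
  rw [Li.dd_avgA, h]
  simp only [La.Q.dd_smul, h _ μ ν, e, sum_comm (t := (univ : Finset (Fin 4))), ← mul_sum,
    sum_add_distrib, sum_const, card_range, nsmul_eq_mul, gauss, V3.sum_box, card_box_LL]
  simp only [mul_sum, xb_eq]
  refine sum_congr rfl fun κ _ => ?_
  field_simp
  ring

theorem exists_tg (h : dd B = dd (avgA l A)) :
    ∃ a : V, avgA l a = B ∧ dd a = dd A ∧ ∀ f, tree l f → a f = 0 := by
  refine ⟨TG l (A + gr fun x => lam (B - avgA l A) (yo l x)), ?_, ?_, fun f hf => TG_tree _ hf⟩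
  · rw [avgA_TG, map_add, avgA_gr, avg0_yo, ← closed_gr h]
  · rw [dd_TG, La.dd_add, La.dd_gr, add_zero]

theorem m_rng (hm : Lin l r c τ m s) (ha : ∀ e ∈ lbox (3 * l + 1), a e = 0) (b : V) :
    m a b = 0 := by
  have h1 := hm.hh_rng a a (Or.inl ha)
  rw [hh_apply, enB_apply] at h1
  have h2 := single_le_sum (f := fun x => m (sh x a) (sh x a)) (fun _ _ => hm.psd _)
    (RG.zero_mem_box l)
  have h3 := mul_nonneg (sq_nonneg (LL l : ℝ)) (sum_nonneg (s := univ)
    fun μ _ => mul_self_nonneg ((0 : V) (0, μ) - avgA l a (0, μ)))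
  have h4 := cs_one m hm.symm hm.psd a b
  simp only [sh_zero] at h2
  rw [show m a a = 0 by linarith [hm.psd a], zero_mul] at h4
  exact pow_eq_zero_iff two_ne_zero |>.1 (h4.antisymm (sq_nonneg _))

theorem sum_sh (hφ : ∀ e ∉ lbox l, φ e = 0) (h : St → ℝ) {z : St} (hz : z ∈ box (3 * l + 1))
    (μ : Fin 4) : ∑ x ∈ Blk l (box 2), h x * φ (z + x, μ) = ∑ w ∈ box l, h (w - z) * φ (w, μ) := by
  refine (sum_of_injOn (fun w => w - z) (fun _ _ _ _ h => sub_left_injective h)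
    (fun w hw => ?_) (fun x _ hx => ?_) fun w _ => by simp).symm
  · rw [Blk_box]
    exact RG.box_mono (by simp only [LL]; omega) (RG.sub_mem_box hw hz)
  · rw [hφ _ fun h => hx ⟨z + x, RG.mem_lbox.1 h, by simp⟩, mul_zero]

/-- a constant residual makes the field of linear curvature stationary -/
theorem Af.stat (h : Af g B) (hm : Lin l r c τ m s) : ∃ ρ : Fin 4 → ℝ, ∀ a φ : V,
    avgA l a = (B - fun e => ρ e.2) → dd a = dd (((LL l : ℝ) ^ 3)⁻¹ • B) →
    (∀ e ∉ lbox l, φ e = 0) →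
      ∑ w ∈ box 2, enB l m (sh (up l w) φ, 0) (sh (up l w) a, sh w B) = 0 := by
  have hL := LL_posR l
  set C : Fin 4 → V := fun κ => ((LL l : ℝ) ^ 3)⁻¹ • (sh (un κ) B - B) with hC
  refine ⟨fun μ => -LL l * ∑ κ, m (pc1 (κ, μ)) (C κ), fun a φ h1 h2 h3 => ?_⟩
  set Φ : Fin 4 → ℝ := fun μ => ∑ w ∈ box l, φ (w, μ) with hΦ
  have e1 : ∀ x v, m v (sh x a) = m v a + ∑ κ, x κ * m v (C κ) := fun x v => by
    have : dd (sh x a) = dd (a + ∑ κ, (x κ : ℝ) • C κ) := by
      funext z μ ν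
      have := h.dsh x z μ ν
      rw [RG.dd_sub, Li.dd_sh] at this
      simp only [Li.dd_sh, La.dd_add, Pi.add_apply, h2, dd_sum, La.Q.dd_smul, hC, h.dsh, un_apply,
        Int.cast_ite, Int.cast_one, Int.cast_zero, mul_ite, mul_one, mul_zero, sum_ite_eq',
        mem_univ, if_true]
      rw [sub_eq_iff_eq_add'.1 this, mul_add, mul_sum]
      congr 1
      exact sum_congr rfl fun κ _ => by ring
    rw [hm.symm, m_closed hm.gauge this, hm.symm]
    simp
  have e2 : ∀ v, m (∑ x ∈ Blk l (box 2), sh x φ) v = 0 := fun v => by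
    have h4 : dd (fun e : Lk => Φ e.2) = dd 0 := by funext z μ ν; simp [dd]
    have h5 := m_rng hm (a := ∑ x ∈ Blk l (box 2), sh x φ - fun e : Lk => Φ e.2)
      (fun e he => by
        simpa [Finset.sum_apply, sub_eq_zero] using sum_sh h3 1 (RG.mem_lbox.1 he) e.2) v
    rw [map_sub, LinearMap.sub_apply, m_closed hm.gauge h4] at h5
    simpa only [map_zero, LinearMap.zero_apply, sub_zero] using h5
  have e3 : ∀ κ v, m (∑ x ∈ Blk l (box 2), (x κ : ℝ) • sh x φ) v =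
      -∑ μ, Φ μ * m (pc1 (κ, μ)) v := fun κ v => by
    set Q : V := fun e => ∑ w ∈ box l, ((w - e.1) κ : ℝ) * φ (w, e.2) with hQ
    have h4 : dd Q = dd (-∑ μ, Φ μ • pc1 (κ, μ)) := by
      funext z μ ν
      have h6 : ∀ z μ, Q (z, μ) = ∑ w ∈ box l, (w κ : ℝ) * φ (w, μ) - z κ * Φ μ := fun z μ => by
        simp only [hQ, hΦ, mul_sum, ← sum_sub_distrib, Pi.sub_apply, Int.cast_sub, sub_mul]
      simp only [dd, h6, Pi.neg_apply, Finset.sum_apply, Pi.smul_apply, smul_eq_mul, pc1, mul_ite,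
        mul_zero, sum_ite_eq, mem_univ, if_true]
      ring
    have h5 := m_rng hm (a := ∑ x ∈ Blk l (box 2), (x κ : ℝ) • sh x φ - Q)
      (fun e he => by
        simpa [Finset.sum_apply, sub_eq_zero, hQ] using
          sum_sh h3 (fun x => x κ) (RG.mem_lbox.1 he) e.2) v
    rw [map_sub, LinearMap.sub_apply, m_closed hm.gauge h4, sub_eq_zero] at h5
    simpa using h5
  have e4 : ∀ μ, ∑ w ∈ box 2, avgA l (sh (up l w) φ) (0, μ) = ((LL l : ℝ) ^ 3)⁻¹ * Φ μ := by
    intro μ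
    have h5 : ∀ i ∈ range (LL l), ∑ w ∈ box 2, ∑ t ∈ box l,
        φ (up l 0 + t + (i : ℤ) • un μ + up l w, μ) = Φ μ := fun i hi => by
      have h6 := sum_sh h3 1 (Li.smul_un_mem (n := 3 * l + 1) (i := i)
        (by have := mem_range.1 hi; simp only [LL] at this; omega) μ) μ
      rw [sum_Blk] at h6
      simp only [Pi.one_apply, one_mul] at h6
      simp only [hΦ, ← h6, La.up_zero, zero_add, add_comm (_ • un μ), add_right_comm _ (_ • un μ)]
    simp only [Li.avgA_apply, ← mul_sum, sh_apply, sum_comm (t := range (LL l))]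
    rw [sum_congr rfl h5, sum_const, card_range, nsmul_eq_mul]
    field_simp
  have e5 : ∑ w ∈ box 2, ∑ x ∈ box l, m (sh x (sh (up l w) φ)) (sh x (sh (up l w) a)) =
      -∑ κ, ∑ μ, Φ μ * m (pc1 (κ, μ)) (C κ) := by
    have := sum_Blk l (box 2) fun x => m (sh x φ) (sh x a)
    simp only [RG.sh_sh, ← this]
    have h6 := e2 a
    simp only [map_sum, map_smul, LinearMap.sum_apply, LinearMap.smul_apply, smul_eq_mul] at h6 e3
    simp only [e1, sum_add_distrib, h6, zero_add]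
    rw [sum_comm]
    simp only [e3, sum_neg_distrib]
  simp only [enB_apply, sum_add_distrib, e5, ← mul_sum]
  simp only [avgA_sh l _ a, h1, sh_apply, Pi.sub_apply, sub_sub_cancel, Pi.zero_apply, zero_sub]
  rw [sum_comm (s := box 2)]
  simp only [← sum_mul, sum_neg_distrib, e4]
  rw [sum_comm, mul_sum, ← sum_neg_distrib, ← sum_add_distrib]
  refine sum_eq_zero fun μ _ => ?_
  rw [← mul_sum]
  field_simp
  ring

theorem mu_cst1 (hl : 5000 ≤ l) (hτ : 0 ≤ τ) (hm : Lin l r c τ m s) (hB : Cst B)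
    (k1 : avgA l a = B) (k2 : dd a = dd (((LL l : ℝ) ^ 2)⁻¹ • B)) (k3 : ∀ f, tree l f → a f = 0)
    (e : Lk) : |(mu l s B - a) e| ≤ (LL l : ℝ) ^ (c + 3) * τ * √(nd B 0) := by
  obtain ⟨a', D, h1, h2, rfl, h0, hp, h3, -⟩ := cc_eq hm hB
  obtain rfl : a = a' := sub_eq_zero.1 (closed_tree (l := l) (fun f hf => by
      simpa [k3 f hf, mu_tree hm.s_tree B f hf] using h0 f hf)
    (by rw [La.dd_sub, k2, h2, sub_self]) (by rw [map_sub, k1, h1, sub_self]))
  have h4 := hh_small hm hB h0 hp h3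
  have h5 := hm.coer _ h0
  simp only [hp, sum_const, nsmul_eq_mul, La.card_box] at h5
  generalize mu l s B - a = D at *
  have hL : (5000 : ℝ) ≤ LL l := LL_ge hl
  have n0 := Li.nd_nonneg B 0
  have h6 : D e ^ 2 ≤ ∑ f ∈ lbox l, D f ^ 2 := by
    have := single_le_sum (f := fun f => D f ^ 2) (fun _ _ => sq_nonneg _)
      (RG.mem_lbox.2 (La.sub_up_mem l e.1) : (e.1 - up l (yo l e.1), e.2) ∈ lbox l)
    rwa [← hp (yo l e.1), sh_apply, sub_add_cancel, hp] at this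
  refine abs_le_of_sq_le_sq (h6.trans (h5.trans ?_)) (by positivity)
  rw [mul_pow, mul_pow, Real.sq_sqrt n0]
  push_cast
  calc _ ≤ (LL l : ℝ) ^ c * (2401 * (9604 * (LL l : ℝ) ^ (c + 4) * τ ^ 2 * nd B 0)) := by
        gcongr
    _ = 23059204 * (LL l : ℝ) ^ (2 * c + 4) * τ ^ 2 * nd B 0 := by ring
    _ ≤ (LL l : ℝ) ^ 2 * (LL l : ℝ) ^ (2 * c + 4) * τ ^ 2 * nd B 0 := by gcongr; nlinarith
    _ = _ := by ring

theorem hh_le (hm : Lin l r c τ m s) {x y : ℝ} (ha : Sm (3 * l + 1) x a)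
    (hb : Sm (3 * l + 1) y A) : |hh l m a A| ≤ 324 * (LL l : ℝ) ^ (c + 4) * x * y := by
  have h : ∀ {a : V} {x : ℝ}, Sm (3 * l + 1) x a →
      hh l m a a ≤ 324 * (LL l : ℝ) ^ (c + 4) * x ^ 2 := fun {a x} ha => by
    refine (hm.hh_bd a).trans ((mul_le_mul_of_nonneg_left (sum_le_card_nsmul _ _ (x ^ 2)
      fun f hf => sq_le_sq' (abs_le.1 (ha f hf)).1 (abs_le.1 (ha f hf)).2)
      (by positivity)).trans_eq ?_)
    simp only [RG.card_lbox, LL, nsmul_eq_mul]
    push_cast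
    ring
  have x0 := ha.nonneg
  have y0 := hb.nonneg
  refine abs_le_of_sq_le_sq ((cs_one (hh l m) (fun _ _ => enB_symm hm.symm l _ _)
    (fun _ => enB_psd hm.psd _ _) a A).trans ((mul_le_mul (h ha) (h hb) (enB_psd hm.psd _ _)
      (by positivity)).trans_eq (by ring))) (by positivity)

theorem Af.cv (h : Af g B) (hg : ∀ t, |g t| ≤ δ) (j : ℕ) : Cv j (4 * (j + 1) * δ) B := by
  intro x hx μ ν
  rw [h]
  refine (abs_sum_le_sum_abs _ _).trans ((sum_le_card_nsmul _ _ (δ * (j + 1))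
    fun κ _ => ?_).trans_eq (by simp; ring))
  rw [abs_mul]
  exact mul_le_mul (hg _) (abs_xb hx μ ν κ) (abs_nonneg _) ((abs_nonneg _).trans (hg 0))

theorem Af.lse (h : Af g B) (hg : ∀ t, |g t| ≤ δ) (hl : 200000 ≤ l) (hr : r ≤ l) (hτ : 0 ≤ τ)
    (hm : Lin l r c τ m s) (j : ℕ) : Cv j ((LL l : ℝ) ^ (3 * c + 10) * τ * (j + 1) * δ)
      (mu l s B - ((LL l : ℝ) ^ 3)⁻¹ • B) := by
  have hL : (200000 : ℝ) ≤ LL l := LL_ge hl
  have d0 : 0 ≤ δ := (abs_nonneg _).trans (hg 0)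
  obtain ⟨ρ, hρ⟩ := h.stat hm
  obtain ⟨a, h1, h2, h3⟩ := exists_tg (l := l) (B := B - fun e => ρ e.2)
    (by rw [← h.avg]; funext x μ ν; simp only [dd, Pi.sub_apply]; ring)
  set D := mu l s B - a with hD
  set P : V := fun e => D (e.1 - up l (yo l e.1), e.2) with hP
  have hE : ∀ k : ℕ, Sm (k * LL l + l) ((LL l : ℝ) ^ (c + 3) * τ * (16 * k * δ)) (D - P) := by
    intro k e he
    have hy := La.mem_box.1 (yo_mem_box (RG.mem_lbox.1 he))
    set y := yo l e.1
    have h4 := mu_cst1 (B := sh y B - B) (a := sh (up l y) a - a) (by omega) hτ hm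
      (fun x => by funext μ ν; rw [h.dsh, h.dsh])
      (by rw [map_sub, avgA_sh, h1]; funext e; simp)
      (by
        funext x μ ν
        have := h.dsh (up l y) x μ ν
        rw [RG.dd_sub, Li.dd_sh] at this
        rw [RG.dd_sub, Li.dd_sh, h2, La.Q.dd_smul, La.Q.dd_smul, La.Q.dd_smul, ← mul_sub, this,
          h.dsh, mul_sum, mul_sum]
        refine sum_congr rfl fun κ _ => ?_
        simp only [up, Pi.smul_apply, smul_eq_mul]
        push_cast
        field_simp)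
      (fun f hf => by rw [Pi.sub_apply, tree_sh h3 y f hf, h3 f hf, sub_self])
      (e.1 - up l y, e.2)
    have h5 : Cv 0 (4 * k * δ) (sh y B - B) := fun x _ μ ν => by
      rw [h.dsh]
      refine (abs_sum_le_sum_abs _ _).trans ((sum_le_card_nsmul _ _ (δ * k)
        fun κ _ => ?_).trans_eq (by simp; ring))
      rw [abs_mul]
      exact mul_le_mul (hg _) (by exact_mod_cast hy κ) (abs_nonneg _) d0
    refine (le_of_eq ?_).trans (h4.trans (mul_le_mul_of_nonneg_left (Real.sqrt_le_iff.2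
      ⟨by positivity, (nd_le_of_cv h5 (RG.zero_mem_box 0)).trans_eq (by ring)⟩) (by positivity)))
    rw [map_sub, La.mu_sh, Real.norm_eq_abs]
    simp only [hP, hD, Pi.sub_apply, sh_apply, sub_add_cancel]
    congr 1
    ring
  have hp : ∀ y, sh (up l y) P = P := fun y => by
    funext e
    simp only [hP, sh_apply, La.yo_up_add]
    simp only [up, smul_add, add_sub_add_right_eq_sub]
  have h0 : ∀ f, tree l f → P f = 0 := fun f hf => by
    have : tree l (f.1 - up l (yo l f.1), f.2) :=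
      (tree_add_up l _ (yo l f.1) f.2).1 (by rwa [sub_add_cancel])
    simp only [hP, hD, Pi.sub_apply, mu_tree hm.s_tree B _ this, h3 _ this, sub_self]
  set σ := √(∑ f ∈ lbox l, P f ^ 2) with hσ
  have hs : ∀ e, |P e| ≤ σ := fun e => Real.abs_le_sqrt (by
    have := single_le_sum (f := fun f => P f ^ 2) (fun _ _ => sq_nonneg _)
      (RG.mem_lbox.2 (La.sub_up_mem l e.1) : (e.1 - up l (yo l e.1), e.2) ∈ lbox l)
    rwa [← hp (yo l e.1), sh_apply, sub_add_cancel, hp] at this)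
  have s0 : 0 ≤ σ := Real.sqrt_nonneg _
  have k1 : hh l m P P = ∑ w ∈ box 2, hh l m (sh (up l w) (cut l P)) P := by
    rw [← LinearMap.sum_apply, ← map_sum, ← sub_eq_zero, ← LinearMap.sub_apply, ← map_sub]
    refine hm.hh_rng _ _ (Or.inl fun e he => ?_)
    have h2 : (e.1 + up l (-yo l e.1), e.2) ∈ lbox l :=
      RG.mem_lbox.2 (by simpa only [La.up_neg, ← sub_eq_add_neg] using La.sub_up_mem l e.1)
    rw [Pi.sub_apply, Finset.sum_apply, sum_eq_single_of_mem (-yo l e.1) (RG.neg_mem_box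
      (RG.box_mono one_le_two (La.yo_mem_one (RG.mem_lbox.1 he)))), sub_eq_zero]
    · exact (congrFun (hp _) e).symm.trans (cut_of_mem _ h2).symm
    · refine fun w _ hw => cut_of_not_mem _ fun h => hw ?_
      have h3 := yo_of_mem (RG.mem_lbox.1 h)
      rw [La.yo_up_add] at h3
      exact eq_neg_of_add_eq_zero_right h3
  have k2 : ∑ w ∈ box 2, xx l m s (sh (up l w) (cut l P)) (sh w B) =
      hh l m P P + ∑ w ∈ box 2, hh l m (sh (up l w) (cut l P)) (sh (up l w) (D - P)) := by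
    rw [k1, ← zero_add (_ + _), ← hρ a (cut l P) h1 h2 fun e he => cut_of_not_mem _ he,
      ← sum_add_distrib, ← sum_add_distrib]
    refine sum_congr rfl fun w _ => ?_
    rw [xx_apply, hh_apply, hh_apply, ← map_add, ← map_add, La.mu_sh, La.sh_sub, hp, hD, La.sh_sub]
    simp
  have k3 := (le_abs_self _).trans (cross_one (pre_of_lin hm) h0 ((h.cv hg (r / 3)).mono le_rfl
    (show _ ≤ 4 * LL l * δ by
      gcongr
      exact_mod_cast (by simp only [LL]; omega : r / 3 + 1 ≤ LL l))))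
  have k4 := sum_le_card_nsmul (lbox l) (fun f => |P f| * (τ * (4 * LL l * δ)))
    (σ * (τ * (4 * LL l * δ))) fun f _ => by gcongr; exact hs f
  have k5 := (neg_le_abs _).trans ((abs_sum_le_sum_abs _ _).trans (sum_le_card_nsmul (box 2)
    (fun w => |hh l m (sh (up l w) (cut l P)) (sh (up l w) (D - P))|) _ fun w hw =>
      hh_le hm (x := σ) (fun e _ => Sm.cut (fun e _ => hs e) _)
        (((hE 3).mono (by simp only [LL]; omega) le_rfl).sh (up_mem_box hw))))
  have k6 := hm.coer P h0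
  have k7 : ((lbox l).card : ℝ) = (LL l : ℝ) ^ 4 * 4 := by simp [RG.card_lbox, LL]
  simp only [hp, sum_const, nsmul_eq_mul, La.card_box, k7] at k4 k5 k6
  rw [← Real.sq_sqrt (sum_nonneg fun _ _ => sq_nonneg _), ← hσ] at k6
  push_cast at k5 k6
  set L := (LL l : ℝ)
  have L1 : 1 ≤ L := by linarith
  have t0 := mul_nonneg hτ d0
  have p1 : L ^ (c + 5) ≤ L ^ (3 * c + 7) := pow_le_pow_right₀ L1 (by omega)
  have p2 : L ^ (c + 3) ≤ L ^ (3 * c + 9) := pow_le_pow_right₀ L1 (by omega)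
  have k8 : σ ≤ L ^ (3 * c + 9) * (τ * δ) := by
    refine s0.eq_or_lt.elim (fun h => h ▸ by positivity) fun h =>
      le_of_mul_le_mul_left ((sq σ).ge.trans (k6.trans ?_)) h
    calc _ ≤ L ^ c * (2401 * (L ^ 4 * 4 * (σ * (τ * (4 * L * δ))) +
          625 * (324 * L ^ (c + 4) * σ * (L ^ (c + 3) * τ * (16 * 3 * δ))))) := by
          gcongr; linarith
      _ = 2401 * (16 * L ^ (c + 5) + 9720000 * L ^ (3 * c + 7)) * (σ * (τ * δ)) := by ring
      _ ≤ L ^ 2 * L ^ (3 * c + 7) * (σ * (τ * δ)) := by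
          gcongr ?_ * _
          have : 0 ≤ L ^ (3 * c + 7) := by positivity
          linarith [mul_le_mul_of_nonneg_right (show 4 * 10 ^ 10 ≤ L ^ 2 by nlinarith) this]
      _ = _ := by ring
  have k9 : Sm (j + 1) _ (P + (D - P)) := Sm.add (fun e _ => (hs e).trans k8)
    ((hE (j + 1)).mono (le_add_right (Nat.le_mul_of_pos_right _ (Li.LL_pos l))) le_rfl)
  intro x hx μ ν
  have := k9.cv x hx μ ν
  rw [add_sub_cancel, hD, RG.dd_sub, h2, ← RG.dd_sub] at this
  refine this.trans ?_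
  have j0 : (0 : ℝ) ≤ j := j.cast_nonneg
  push_cast
  calc _ ≤ 4 * (L ^ (3 * c + 9) * (τ * δ) * (j + 1) + L ^ (3 * c + 9) * τ * (16 * (j + 1) * δ)) := by
        gcongr 4 * (?_ + ?_ * _ * _)
        exact le_mul_of_one_le_right (by positivity) (by linarith)
    _ = 68 * (L ^ (3 * c + 9) * τ * (j + 1) * δ) := by ring
    _ ≤ L * (L ^ (3 * c + 9) * τ * (j + 1) * δ) := by gcongr; linarith
    _ = _ := by ring

end V2

theorem lse_main (c : ℕ) : ∃ c1 : ℕ, ∀ (l r : ℕ) (τ : ℝ) (m : BF) (s : V →ₗ[ℝ] V), c1 ≤ l →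
    r ≤ l → 0 ≤ τ → Lin l r c τ m s → LsE l ((LL l : ℝ) ^ c1 * τ) s := by
  obtain ⟨n, hn⟩ : ∃ n, 200000 ≤ n := ⟨_, le_rfl⟩
  refine ⟨3 * c + n, fun l r τ m s hl hr hτ hm G δ hG j => ?_⟩
  have d0 : 0 ≤ δ := (abs_nonneg _).trans (hG 0)
  have hL : ((2 : ℕ) : ℝ) ≤ LL l := LL_ge (by omega)
  push_cast at hL
  refine (V2.Af.lse (g := fun t => 3⁻¹ * (G t + G (t.2.1, t.1, t.2.2) - G (t.1, t.2.2, t.2.1) -
    G (t.2.2, t.1, t.2.1))) (δ := 2 * δ) (dd_rp2 G) (fun t => ?_) (by omega) hr hτ hm j).mono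
      le_rfl ?_
  · have h1 := abs_le.1 (hG t)
    have h2 := abs_le.1 (hG (t.2.1, t.1, t.2.2))
    have h3 := abs_le.1 (hG (t.1, t.2.2, t.2.1))
    have h4 := abs_le.1 (hG (t.2.2, t.1, t.2.1))
    rw [abs_le]
    constructor <;> linarith [h1.1, h1.2, h2.1, h2.2, h3.1, h3.2, h4.1, h4.2]
  · calc _ ≤ (LL l : ℝ) ^ (3 * c + 10) * τ * (j + 1) * (LL l * δ) := by gcongr
      _ = (LL l : ℝ) ^ (3 * c + 11) * τ * (j + 1) * δ := by ring
      _ ≤ _ := by
        gcongr
        exacts [by linarith, by omega]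

end Pool.Agent.Lib.MP_7f377f_mp.RG.Q4
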