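import Pool.Agent.Lib.MP_7f377f_mp.G.StV1
import Pool.Agent.Lib.MP_7f377f_mp.G.StV2b

/-! The sharp facts hold along the runs. -/

noncomputable section

open Pool.Agent.Lib.MP_7f377f_mp.Jet

set_option linter.unusedSectionVars false
variable [Pool.Agent.Lib.MP_7f377f_mp.GD]

namespace Pool.Agent.Lib.MP_7f377f_mp.RG.Q4

open Finset Real La La.Q Filter
open scoped Classical

theorem ev_pv (c : ℕ) : ∃ c1 : ℕ, ∀ᶠ l in atTop, ∀ S : Sd, S.c = c → S.l = l → S.Nu 100 → S.TOk →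
    S.Pu → S.L ^ c1 ≤ S.β → S.Pv := by
  obtain ⟨c1, h1⟩ := lin9 c
  obtain ⟨c2, h2⟩ := lse_main c
  have a0 : ∀ᶠ l in atTop,
      (LL l : ℝ) ^ c1 * exp (-((Nat.log 3 (LL l) ^ 4 : ℕ) / c1)) ≤ 1 := by
    rcases c1.eq_zero_or_pos with rfl | h
    · simp
    · filter_upwards [pow_le_exp c1 c1 h] with l h
      rwa [exp_neg, ← div_eq_mul_inv, div_le_one (exp_pos _)]
  refine ⟨c1 + c2, ?_⟩
  filter_upwards [a0, log_pow_le (4 * (c1 * 20)), log_top.eventually (eventually_ge_atTop c1),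
    eventually_ge_atTop c2] with l a1 a2 a3 a4 S hc hl h ⟨j, v, e, _, v2, e0, e1, tr, ln⟩ pu hβ
  subst hc hl
  obtain ⟨ρ, -, -, ch⟩ := tr.ch
  have L0 := Sd.L0 S.toTd
  have t0 : 0 < S.τ := Sd.Nu.τ0
  have g0 := h.ok.g0
  have tg : ∀ i ≤ c1 + c2, S.L ^ i * S.τ ≤ S.g := fun i hi => by
    have b1 := (mul_le_mul_of_nonneg_left (pow_le_pow_right₀ h.ok.β1 (show 2 ≤ 100 + 19 by omega))
      t0.le).trans h.τ_β
    calc _ ≤ S.β * S.τ * (S.β * S.g ^ 2) := by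
          rw [h.ok.βg, mul_one]
          exact mul_le_mul_of_nonneg_right ((Sd.pw _ hi).trans hβ) t0.le
      _ = S.τ * S.β ^ 2 * S.g ^ 2 := by ring
      _ ≤ 1 * S.g ^ 2 := by gcongr
      _ ≤ _ := by nlinarith [h.ok.g1]
  rw [pow_mul] at a2
  change S.r ^ (c1 * 20) ≤ S.l at a2
  obtain ⟨p1, p2⟩ := h1 _ _ _ _ _ _ _ _ (a3.trans (Nat.le_self_pow (by norm_num) _))
    ((Nat.pow_le_pow_right h.r1 (by omega)).trans a2) t0.le ((tg c1 (by omega)).trans h.ok.g1) a1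
    (by norm_num) le_rfl (by nlinarith) ch.inv ln.lin
  have hx : (S.r : ℝ) ^ c1 ≤ S.L ^ (1 / 20 : ℝ) := by
    refine le_of_pow_le_pow_left₀ (n := 20) (by norm_num) (by positivity) ?_
    rw [← pow_mul, ← rpow_natCast (S.L ^ _), ← rpow_mul L0.le]
    norm_num
    unfold Td.L LL
    exact_mod_cast by omega
  have hy : ∀ (x : ℝ) (i : ℕ), 1 / 20 - x = -(1 / 20) * i →
      (S.r : ℝ) ^ c1 / S.L ^ x ≤ S.cs ^ i := fun x i e => by
    rw [Sd.cs, ← rpow_natCast (S.L ^ _), ← rpow_mul L0.le, ← e, rpow_sub L0]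
    gcongr
  refine ⟨pu, fun B δ hB => (p1 B δ hB).mono le_rfl
    (mul_le_mul_of_nonneg_right (hy _ _ (by norm_num)) hB.nonneg), fun B δ hB => (p2 B δ hB).trans
    (pow_le_pow_left₀ (mul_nonneg (by positivity) hB.nonneg)
      (mul_le_mul_of_nonneg_right (hy _ _ (by norm_num)) hB.nonneg) 2), fun G δ hG j => ?_⟩
  have d0 : 0 ≤ δ := (abs_nonneg _).trans (hG 0)
  refine (h2 _ _ _ _ _ a4 (by have := h.r_sq; omega) t0.le ln.lin G δ hG j).mono le_rfl ?_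
  gcongr
  exact tg c2 (by omega)

namespace En

open Pos Sg

namespace Gl

variable {G : Gl}

theorem Ok.runs (h₀ : G.Ok) : ∃ k0, ∀ m, ({ G with m := m } : Gl).Ok → ({ G with m := m } : Gl).Pu →
    ∀ b I j, k0 ≤ j → ({ G with m := m } : Gl).Tu b I → ∀ i, 100 ≤ i → i ≤ 1000 →
      ({ G with m := m } : Gl).Run b I j fun k => (G.Q k ^ i)⁻¹ := by
  obtain ⟨c1, h1⟩ := ev_pv G.c
  obtain ⟨k0, h2⟩ := eventually_atTop.1 ((h₀.sch.top.eventually h1).and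
    (h₀.sch.Btop.eventually (eventually_ge_atTop c1)))
  refine ⟨k0, fun m => ?_⟩
  suffices H : ∀ G' : Gl, G'.c = G.c → G'.e = G.e → G'.B = G.B → G'.Ok → G'.Pu → ∀ b I j, k0 ≤ j →
    G'.Tu b I → ∀ i, 100 ≤ i → i ≤ 1000 → G'.Run b I j fun k => (G'.Q k ^ i)⁻¹ from H _ rfl rfl rfl
  intro G e1 e2 e3 h hp b I j hj t i i1 i2 k hk hI
  rw [← e1, ← e2, ← e3] at h2
  have h0 := h2
  have d := t.gd (k + 1) hI
  have n := (h.sd_all k (G.zz b I (k + 1))).nu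
  have a : (G.sd k (G.zz b I (k + 1))).TOk := ⟨_, _, _, (Ok.v12 d.tz).1, (Ok.v12 d.tz).2,
    Ok.ze0 d.tz, h.ze2 d.tz, d.tz.tr k (.inr rfl), h.ln d.tz (.inr rfl)⟩
  have s : √(G.g (k + 1)) ≤ (G.Q (k + 1) ^ i)⁻¹ := by
    rw [← one_div, le_div_iff₀' (pow_pos (h.Q0 _) _)]
    exact (mul_le_mul_of_nonneg_right (pow_le_pow_right₀ (h.Q1 _) i2) (sqrt_nonneg _)).trans
      (h.Qsg _)
  have m : (G.Q (k + 1) ^ i)⁻¹ ≤ (G.Q k ^ i)⁻¹ :=
    inv_anti₀ (pow_pos (h.Q0 k) _) (pow_le_pow_left₀ (h.Q0 k).le (h.Q_mono k.le_succ) _)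
  refine ⟨h.st2 d.tz, (h0 k (hj.trans hk)).1 _ rfl rfl n a (hp _ _ a)
    ((h.Lbk k (h0 k (hj.trans hk)).2).trans (h.sch.le k).1), m,
    tg_of_sz n (h.st2 d.tz) (h.sz_fine _ d.dt.sz) s ?_ s (le_trans ?_ s), d.dt.re.2.2⟩
  · refine (mul_le_mul (pow_le_pow_right₀ (h.Q1 k) i1) m (inv_pos.2 (pow_pos (h.Q0 _) _)).le
      (pow_pos (h.Q0 k) _).le).trans_eq (mul_inv_cancel₀ (pow_pos (h.Q0 k) _).ne')
  · have g0 := n.ok.g0
    have g1 := n.ok.g1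
    have g2 := n.ok.Qg_le (i := 115) (j := 0) (by norm_num)
    refine le_trans ?_ (le_sqrt_of_sq_le (by change _ ≤ (G.sd k (G.zz b I (k + 1))).g; nlinarith) :
      (G.sd k (G.zz b I (k + 1))).g ≤ _)
    nlinarith

end Gl

end En

end Pool.Agent.Lib.MP_7f377f_mp.RG.Q4
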