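import Pool.Agent.Lib.MP_7f377f_mp.G.StV8

/-! The vector expansion: odd insertions are combinations of insertions of dimension five and of
marginal insertions with the gradient of the test function. -/

noncomputable section

set_option linter.unusedSectionVars false
variable [Pool.Agent.Lib.MP_7f377f_mp.GD]

namespace Pool.Agent.Lib.MP_7f377f_mp.RG.Q4

open Finset Real Cok

/-- values on a constant and a linear curvature -/
abbrev E1 := Fin 4 × Fin 4 → Fin 4 × Fin 4 × Fin 4 → ℂ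

def q1 (k : V → V → ℂ) : E1 := (qv k).2

namespace En

open Pos Ty Sg Mx

/-- the inversion -/
def i4 (U : Conf) : Conf := cf (.inr 0) (cf (.inr 1) (cf (.inr 2) (cf (.inr 3) U)))

/-- odd functions -/
def Od4 (n : ℕ) (f : Conf → ℂ) : Prop := ∀ U, Per n U → f (i4 U) = -f U

section odd

variable {n : ℕ} {U : Conf} {f f' : Conf → ℂ}

theorem per_rf (h : Per n U) (k : Fin 4) : Per n (cf (.inr k) U) := fun μ => by
  rw [cf, sh_rfl, rz_smul]
  by_cases e : μ = k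
  · rw [e, rz_un_self, smul_neg, ← congrArg (sh (-((n : ℤ) • un k))) (h k), sh_sh]
    simp
  · rw [rz_un_ne _ e, h]

theorem sgn_i4 {c0 c1 c2 c3 : Bool} {T : Ty} (h : Sgn n T f) (e : rf c0 c1 c2 c3 ⊆ T) (hU : Per n U) :
    f (i4 U) = (sb c0 * sb c1 * sb c2 * sb c3 : ℤ) * f U := by
  rw [i4, h (_, c0) (e (by simp [rf])) _ (per_rf (per_rf (per_rf hU _) _) _),
    h (_, c1) (e (by simp [rf])) _ (per_rf (per_rf hU _) _), h (_, c2) (e (by simp [rf])) _ (per_rf hU _),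
    h (_, c3) (e (by simp [rf])) _ hU]
  push_cast
  ring

/-- an odd number of odd reflections -/
theorem Sgn.od4 {c0 c1 c2 c3 : Bool} {T : Ty} (h : Sgn n T f) (e : rf c0 c1 c2 c3 ⊆ T)
    (c : sb c0 * sb c1 * sb c2 * sb c3 = -1) : Od4 n f := fun U hU => by simp [sgn_i4 h e hU, c]

theorem Od4.tt {l : ℕ} (h : Od4 (LL l * n) f) (hn : Odd n) (hf : Measurable f) (a : ℝ) :
    Od4 n (TT l a n f) := fun W hW => by
  have m := fun k => (cont_rfl k).measurable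
  have e := (TT_rfl (l := l) a hn hf (per_rf (per_rf (per_rf hW 3) 2) 1) 0).trans
    ((TT_rfl a hn (hf.comp (m 0)) (per_rf (per_rf hW 3) 2) 1).trans
      ((TT_rfl a hn ((hf.comp (m 0)).comp (m 1)) (per_rf hW 3) 2).trans
        (TT_rfl a hn (((hf.comp (m 0)).comp (m 1)).comp (m 2)) hW 3)))
  exact e.trans ((TT_mul (κ := -1) (fun U hU => (h U hU).trans (neg_one_mul _).symm) W).trans
    (neg_one_mul _))

/-- the flux lemma for odd directions -/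
theorem LF.fod {S : Sd} {v e x y u ω ω' P : ℝ} (h : LF S v e) {b d : Lx × Ac}
    (z : Sz S.p S.nf S.Q S.g u u ω b.1 b.2) (z' : Sz S.p S.nf S.Q S.g x y ω' d.1 d.2)
    (r : Re S.p S.nf d.1 d.2) (p : Rt S b d f f') (f0 : f (ab 0) ≠ 0)
    (hu : S.Q ^ 300 * u * S.g ^ 2 ≤ 1) (h1 : ω ≤ ω') (h2 : √S.g ≤ ω') (h3 : S.Q ^ 100 * ω' ≤ 1)
    (P1 : S.Q ^ 14 ≤ P) (P2 : P ^ 2 ≤ S.β) (s : Sym S.nf f) (s' : Od4 S.nf f') :
    nb (d.1 0) ≤ 10000 * P ^ 2 * ω' * (x + y) := by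
  obtain ⟨k, c0, a1, a2, a3⟩ := h.fd0 z z' r p f0 hu h1 h2 h3 P1 P2
  have b := (ty_def (G := 0) (c := c0) (η := 5 * P ^ 2 * ω' * (x + y)) h.n0
    (h.tq_bd ((le_self_pow₀ S.Q1 (by norm_num)).trans P1) P2).1 a1 fun F ϑ hF hd hϑ => by
      have e : Ty.mt (.inr 0) (Ty.mt (.inr 1) (Ty.mt (.inr 2) (Ty.mt (.inr 3) F))) = F := by
        funext μ ν
        have : sg 0 μ * sg 0 ν * (sg 1 μ * sg 1 ν * (sg 2 μ * sg 2 ν * (sg 3 μ * sg 3 ν))) = 1 := by
          revert μ ν; decide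
        simp only [Ty.mt, rM, smul_smul, this, one_smul]
      have c1 := abs_le.1 (a3 F ϑ hF hd hϑ)
      have c2 := abs_le.1 (a3 F _ hF hd (e ▸ fx_an (fx_an (fx_an (fx_an hϑ (.inr 3)) (.inr 2)) (.inr 1))
        (.inr 0)))
      rw [ab_an, ab_an, ab_an, ab_an, ← i4, lg, s' _ hϑ.per, sgn_i4 (sym_sgn (T := rf false false false
        false) s (by decide)) (List.Subset.refl _) hϑ.per] at c2
      simp only [sb, Bool.false_eq_true, if_false, mul_one, Int.cast_one, one_mul, neg_div,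
        Complex.neg_re] at c2
      rw [lg] at c1
      exact abs_le.2 ⟨by simp only [Pi.zero_apply]; linarith, by simp only [Pi.zero_apply]; linarith⟩).1
  simp only [rsp, Pi.zero_apply, add_zero, sub_zero, zero_div, zero_sub, abs_neg] at b
  have η0 := (abs_nonneg _).trans (b 0)
  refine (sum_le_sum fun p _ => sum_le_sum fun q _ => show _ ≤ 10 * P ^ 2 * ω' * (x + y) / 4 by
    rw [a2 _ _ (as_EE _) (as_EE _), Complex.norm_real, norm_eq_abs]
    linarith [b (p, q)]).trans ?_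
  simp only [sum_const, card_univ, Fintype.card_prod, Fintype.card_fin, nsmul_eq_mul]
  push_cast
  linarith

end odd

namespace Gl

abbrev om (G : Gl) (k : ℕ) : ℝ := (G.Q k ^ 280)⁻¹

/-- directions which represent an odd variation of the density -/
def Oi (G : Gl) (b : ℝ) (I k : ℕ) (u : Lx × Ac) : Prop :=
  ∃ x y f, G.Tx b I k x y u f ∧ Measurable f ∧ Od4 (G.N k) f

/-- odd directions with a bound of the part which contracts fast -/
def P1 (G : Gl) (b : ℝ) (I k : ℕ) (u : Lx × Ac) (y : ℝ) : Prop :=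
  0 ≤ y ∧ Sv (G.p k) (G.N k) (G.Q k) (G.g k) y (G.om k) u.1 u.2 ∧ G.Oi b I k u ∧ k ≤ I

variable {G : Gl} {b N A C x y a0 a1 a2 : ℝ} {I i j k ρ ρ1 ρ2 : ℕ} {u v d : Lx × Ac}
  {F : St → ℂ} {Φ : (St → ℂ) → Lx × Ac} {α β : Type} [Fintype α] [Fintype β]
  {P : β → (St → ℂ) → Lx × Ac} {O : Fin 4 → α → (St → ℂ) → Lx × Ac}

theorem Oi.re (a : G.Oi b I k u) : G.RE k u := let ⟨_, _, _, c, _⟩ := a; c.re

namespace Ok

variable (h : G.Ok) (T : G.Tu b I)
include h T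

theorem oi_lin (a : G.Oi b I k u) (a' : G.Oi b I k v) (t : ℝ) : G.Oi b I k (u + (t : ℂ) • v) :=
  let ⟨_, _, f, c, m, s⟩ := a
  let ⟨_, _, f', c', m', s'⟩ := a'
  ⟨_, _, fun U => f U + t * f' U, by
    simpa [Tx] using h.tn_sub (α := -t) c c' (h.om0 k).le (h.f_ne T k 1),
    m.add (m'.const_mul _), fun U hU => by simp only [s U hU, s' U hU]; ring⟩

theorem oi_zero (hk : k ≤ I) : G.Oi b I k 0 :=
  ⟨_, _, _, h.tw_sum T (s := (∅ : Finset Unit)) (u := 0) (u' := 0) (x := 0) (y := 0) hk (by simp) 0,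
    by simp, fun _ _ => by simp⟩

theorem oi_tm (hp : G.Pu) (hk : k < I) (a : G.Oi b I (k + 1) u) : G.Oi b I k (G.tm b I k u) :=
  let ⟨x, y, _, c, m, s⟩ := a
  ⟨_, _, _, (h.tw_step T hp hk (h.tn_mono c (h.om0 _).le le_rfl (le_add_of_nonneg_right zero_le_one))
    (by linarith [h.tn_nn c])).1, meas_TT _ _ _ m,
    Od4.tt (by rw [← h.N_succ] at s; exact s) (h.N_odd k) m _⟩

/-- odd directions have almost no marginal part -/
theorem oi_q0 (hk : k ≤ I) (a : G.Oi b I k u) (z : G.Sz k x y (G.om k) u.1 u.2) :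
    ‖q0 (q2 (u.1 0))‖ ≤ (G.Q k ^ 250)⁻¹ * (x + y) := by
  obtain ⟨_, _, f', c, -, s⟩ := a
  replace c : G.Tx b I k x y u f' := ⟨z, c.re, c.rt⟩
  have g := T.gd k hk
  have Q0 := h.Q0 k
  obtain ⟨x0, y0⟩ := h.tn_nn c
  have e : 10000 * (G.Q k ^ 14) ^ 2 * (G.Q k ^ 280)⁻¹ ≤ (G.Q k ^ 250)⁻¹ := by
    rw [show 10000 * (G.Q k ^ 14) ^ 2 * (G.Q k ^ 280)⁻¹ = 10 ^ 4 * (G.Q k ^ 252)⁻¹ by
      field_simp; norm_num]
    exact h.hy_pw k (by norm_num)
  have a1 := (h.lf g.tz).fod (b := (G.zz b I k).d) (P := G.Q k ^ 14) (h.sz_sl g.dt.sz _)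
    (h.sz_sl z _) (h.re_sl c.re _) c.rt (h.f_ne T k _) (h.u_g k (by linarith [h.u_one k]))
    (h.hy_sg k) (h.hy_sg k) (h.om_one (h.om_mono k (by norm_num))) le_rfl
    ((pow_mul _ _ _).ge.trans ((pow_le_pow_right₀ (h.Q1 k) (by norm_num)).trans (h.Qb k)))
    (by rw [h.sl_nf]; exact ((h.f_facts I k).1 b T.b0).2.1) (by rw [h.sl_nf]; exact s)
  exact (h.sz_sv (fun k => (h.om0 k).le) (h.tn_nb c).sz c.re.2.2).2.2.1.trans
    (a1.trans (mul_le_mul_of_nonneg_right e (add_nonneg x0 y0)))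

omit T in
theorem RQ (k : ℕ) : 2 * ((G.p k).R + 1 : ℝ) ^ 30 ≤ G.Q k := by
  have n1 := h.nm k (C := 2 * 5 ^ 30) (i := 0) (j := 30) (by norm_num) (by norm_num) (by norm_num)
  have n2 : (((G.p k).R : ℝ) + 1) ^ 30 ≤ (5 * G.D0 k) ^ 30 := pow_le_pow_left₀ (by positivity)
    (by change ((4 * G.D0 k : ℕ) : ℝ) + 1 ≤ _; push_cast; linarith [h.D1 k]) _
  rw [mul_pow] at n2
  linarith

omit T in
theorem sv_sz (a : G.P1 b I k u y) (hx : ‖qv (q2 (u.1 0))‖ ≤ x) :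
    G.Sz k (64 * x) (x + ((G.p k).R + 1) ^ 30 * y) (G.om k) u.1 u.2 :=
  a.2.1.sz (h.ρ0 k) (le_trans (by norm_num) (h.R6 k)) (h.cQ k (by norm_num)) (h.om0 k).le hx

theorem p1_qv (a : G.P1 b I k u y) (hx : ‖q1 (q2 (u.1 0))‖ ≤ x) : ‖qv (q2 (u.1 0))‖ ≤ x + y := by
  have a1 := h.oi_q0 T a.2.2.2 a.2.2.1 (h.sv_sz a le_rfl)
  have a2 : ‖qv (q2 (u.1 0))‖ = max ‖q0 (q2 (u.1 0))‖ ‖q1 (q2 (u.1 0))‖ := rfl
  have x0 := (norm_nonneg _).trans hx
  have y0 := a.1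
  have Q0 := h.Q0 k
  have a3 : (G.Q k ^ 250)⁻¹ * G.Q k ≤ 2⁻¹ := by
    rw [show (G.Q k ^ 250)⁻¹ * G.Q k = (G.Q k ^ 249)⁻¹ by field_simp]
    linarith [h.inv_c k (j := 249) (by norm_num), inv_pos.2 (pow_pos Q0 249)]
  have X0 := norm_nonneg (qv (q2 (u.1 0)))
  generalize ‖qv (q2 (u.1 0))‖ = X at *
  have a4 := mul_le_mul_of_nonneg_left (show 64 * X + (X + ((G.p k).R + 1) ^ 30 * y) ≤ G.Q k * (X + y) by
    nlinarith [mul_le_mul_of_nonneg_right (h.RQ k) y0, mul_le_mul_of_nonneg_right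
      (h.cQ k (C := 65) (by norm_num)) X0]) (inv_pos.2 (pow_pos Q0 250)).le
  have a5 := mul_le_mul_of_nonneg_right a3 (add_nonneg X0 y0)
  rcases max_choice ‖q0 (q2 (u.1 0))‖ ‖q1 (q2 (u.1 0))‖ with e | e <;> nlinarith

theorem p1_s1 (a : G.P1 b I k u y) (hx : ‖q1 (q2 (u.1 0))‖ ≤ x) : G.S1 G.om k (G.Q k * (x + y)) u := by
  have x0 := (norm_nonneg _).trans hx
  have y0 := a.1
  have := mul_le_mul_of_nonneg_right (h.cQ k (C := 64) (by norm_num)) (add_nonneg x0 y0)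
  exact h.sz_up (h.sv_sz a (h.p1_qv T a hx)) (h.om0 k).le this
    (by nlinarith [mul_le_mul_of_nonneg_right (h.RQ k) y0, mul_nonneg (h.Q0 k).le x0])

omit T in
theorem p1_of (hk : k ≤ I) (a : G.S1 G.om k N u) (o : G.Oi b I k u) :
    G.P1 b I k u (N + N) ∧ ‖q1 (q2 (u.1 0))‖ ≤ G.Q k ^ 3 * N := by
  obtain ⟨p1, p2, -⟩ := h.sz_sv (fun k => (h.om0 k).le) a o.re.2.2
  have N0 := h.s1_nn a
  refine ⟨⟨by linarith, p1, o, hk⟩, (norm_snd_le _).trans (p2.trans ?_)⟩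
  nlinarith [mul_le_mul_of_nonneg_right (h.qpw k (show 2 < 3 by norm_num)) N0,
    mul_le_mul_of_nonneg_right (h.qpw k (show 0 < 3 by norm_num)) N0,
    mul_nonneg (pow_pos (h.Q0 k) 2).le N0]

omit T in
theorem p1_mono {y' : ℝ} (a : G.P1 b I k u y) (e : y ≤ y') : G.P1 b I k u y' :=
  ⟨a.1.trans e, by simpa using (Sv.add (h.ρ0 k) a.2.1 (h.sz_sv (fun k => (h.om0 k).le) (h.sz_up
    (h.sz_zero k _) (h.om0 k).le le_rfl (sub_nonneg.2 e)) (re_zero (p := G.p k)).2.2).1 1).1, a.2.2⟩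

variable (hp : G.Pu) (R : G.Run b I j G.om) (hi : i ≤ I)
include hp R hi

/-- the cocycle of the odd directions of dimension five -/
theorem co1 {W : Submodule ℝ E1} (hW : ∀ k : CF, Gf k →
      (∀ p t, (q1 (fun a b => k a b) p t).im = 0) → (q1 fun a b => k a b) ∈ W) :
    Co j i (fun k => G.P1 b I (min k i)) (fun _ u => q1 (q2 (u.1 0))) (G.tm b I)
      (fun k => (G.L k : ℝ)⁻¹ • LinearMap.id) W (fun k => G.L k)
      (fun k => 2 * (G.cr k / G.L k)) fun k => 2 * (G.Q k ^ 60 * G.om (k + 1)) where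
  zero k := by
    simpa using (h.p1_of ((min_le_right k i).trans hi) (h.sz_zero _ _)
      (h.oi_zero T ((min_le_right k i).trans hi))).1
  nn _ _ _ a := a.1
  mono _ _ _ _ := h.p1_mono
  lin k u v _ _ t a c := by
    have := Sv.add (h.ρ0 _) a.2.1 c.2.1 t
    rw [rsm t v, rsm t (q1 _), ← Complex.norm_real]
    exact ⟨⟨add_nonneg a.1 (mul_nonneg (norm_nonneg _) c.1), this.1, h.oi_lin T a.2.2.1 c.2.2.1 t,
      a.2.2.2⟩, congrArg Prod.snd this.2⟩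
  linT k _ v _ _ t h1 h2 a c := by
    rw [min_eq_left (show k + 1 ≤ i from h2)] at a c
    rw [rsm t v, rsm t (G.tm ..)]
    exact h.tm_lin R h1 (h2.trans_le hi) (h.sv_sz a le_rfl) (h.sv_sz c le_rfl) t
  mem _ u _ a := by
    obtain ⟨κ, e, e'⟩ := a.2.1.gf
    have r := h.q2_im (h.sv_sz a le_rfl) a.2.2.1.re
    rw [show q2 (u.1 0) = fun a b => κ a b from funext₂ e'] at r ⊢
    exact hW κ e fun _ _ => r _ _
  step k u x y h1 h2 a hx h0 := by
    rw [min_eq_left (show k + 1 ≤ i from h2)] at a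
    rw [min_eq_left h2.le]
    obtain ⟨s, v, e, g, t⟩ := R k h1 (h2.trans_le hi)
    have n := h.sd_nf k (G.zz b I (k + 1))
    have y0 := a.1
    have x0 := (norm_nonneg _).trans hx
    obtain ⟨p1, p2⟩ := step2 (h.sd_all k (G.zz b I (k + 1))).nu s v g (n ▸ t) (n ▸ a.2.1)
      (h.p1_qv T a hx) (by linarith) e
    have c0 := div_pos (h.cr0 k) (show (0 : ℝ) < G.L k by linarith [h.L1 k])
    have c1 := mul_pos (pow_pos (h.Q0 k) 60) (h.om0 (k + 1))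
    refine ⟨h.p1_mono ⟨by positivity, p1, h.oi_tm T hp (h2.trans_le hi) a.2.2.1, h2.le.trans hi⟩
      (show G.cr k / G.L k * _ ≤ _ by nlinarith), le_trans ?_ (((norm_snd_le _).trans p2).trans
        (show G.Q k ^ 60 * _ * _ ≤ _ by nlinarith))⟩
    rw [LinearMap.smul_apply, rsm, Complex.ofReal_inv]
    rfl
  inv k e _ _ := by
    have := h.L1 k
    rw [LinearMap.smul_apply, norm_smul, norm_inv, norm_of_nonneg (by linarith), ← mul_assoc,
      mul_inv_cancel₀ (by linarith), one_mul]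
    rfl
  nl k := ⟨Nat.cast_nonneg _, by have := h.cr0 k; positivity, by have := h.Q0 k; positivity⟩

variable (A0 : 0 < A) (hΦ : G.Lr I i ρ (G.om i) A Φ) (hρ : ρ ≤ 2 * (G.p i).D) (oΦ : G.Oi b I i (Φ 1))
include A0 hΦ hρ oΦ

omit hρ in
theorem p1_top : G.P1 b I (min i i) (Φ 1) (G.Q i ^ 3 * A) ∧ ‖q1 (q2 ((Φ 1).1 0))‖ ≤ G.Q i ^ 3 * A := by
  obtain ⟨p1, p2⟩ := h.p1_of hi (h.lr_one (fun k => (h.om0 k).le) hi hΦ).1 oΦ
  rw [min_self]
  exact ⟨h.p1_mono p1 (by nlinarith [h.qpw i (show 0 < 3 by norm_num)]), p2⟩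

/-- odd insertions decay -/
theorem upv (hs : PS (G.N I) F) (hF : ∀ x, ‖F x‖ ≤ a0) (hL : LipT (G.N I) a1 F) (p1 : 0 < a1) :
    ∀ k, j ≤ k → k ≤ i → G.S1 G.om k (G.Q i ^ 6 * A * G.rt I i * 2 ^ (i - k) *
      (a0 / G.rt I k + a1)) (G.tn b I (Φ F) i k) := by
  have ω0 := fun k => (h.om0 k).le
  have Qi := h.Q0 i
  have t0 := h.t0 I
  obtain ⟨w, hw⟩ : ∃ w : ℕ → ℝ, ∀ k, w k = G.Q i ^ 3 * A * G.rt I i * 2 ^ (i - k) / G.rt I k :=
    ⟨_, fun _ => rfl⟩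
  have w0 : ∀ k, 0 < w k := fun k => by have := t0 i; have := t0 k; rw [hw]; positivity
  have w1 : ∀ k < i, 2 * w (k + 1) = G.L k * w k := fun k h2 => by
    have := t0 (k + 1); have := h.L1 k
    rw [hw, hw, h.rt_step (h2.trans_le hi), Nat.cast_mul, show i - k = i - (k + 1) + 1 by omega]
    field_simp
    ring
  have wi : w i = G.Q i ^ 3 * A := by have := t0 i; rw [hw, Nat.sub_self]; field_simp
  have c := down (j := j) (J := i) (Q := fun k => G.P1 b I (min k i) (G.tn b I (Φ 1) i k) (w k) ∧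
      ‖q1 (q2 ((G.tn b I (Φ 1) i k).1 0))‖ ≤ w k) (by
    rw [wi, Gl.tn_top]; exact h.p1_top T hp R hi A0 hΦ oΦ) fun k h1 h2 a => by
    have := w0 (k + 1); have := w0 k; have L1 := h.L1 k
    obtain ⟨s1, s2⟩ := (h.co1 T hp R hi (W := ⊤) fun _ _ _ => trivial).step k _ _ _ h1 h2 a.1 a.2
      (by linarith)
    rw [← tn_tm h2, ← two_mul, w1 k h2] at s1 s2
    refine ⟨h.p1_mono s1 ?_, (norm_le_norm_sub_add _ _).trans ((add_le_add s2 ?_).trans
      (show _ + w k / 2 ≤ _ from ?_))⟩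
    · rw [mul_assoc, ← mul_assoc (_ / _), div_mul_cancel₀ _ (by linarith)]
      nlinarith [h.cr1 k]
    · rw [LinearMap.smul_apply, norm_smul, norm_inv, norm_of_nonneg (by linarith),
        inv_mul_le_iff₀ (by linarith)]
      exact a.2.trans (by linarith [w1 k h2])
    · have n1 := h.om_q R h1 (h2.trans_le hi) (m := 61) (by norm_num)
      have n2 := mul_le_mul_of_nonneg_right (h.LQ k) (mul_pos (pow_pos (h.Q0 k) 60) (h.om0 (k + 1))).le
      nlinarith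
  intro k h1 h2
  have q := h.ob_mul ω0 R hi (h.ob_tn ω0 R hi (h.lr_one ω0 hi hΦ).1) (by
      simpa [Pi.zero_def] using h.ob_tn ω0 R hi (h.lop_sz ω0 hi hΦ.lop hs hF)) hs hF hL p1
    (w := fun k => 2 * G.Q i * w k) (fun k => by have := w0 k; positivity)
    (fun k _ h2 => by nlinarith [w1 k h2]) (fun k h1 h2 => by
      obtain ⟨c1, c2⟩ := c k h1 h2
      rw [min_eq_left h2] at c1
      exact ⟨h.s1_mono ω0 (h.p1_s1 T c1 c2) (by nlinarith [h.Q_mono h2, w0 k]), c1.2.1.2.2⟩) (by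
      rw [Gl.tn_top, Gl.tn_top, wi]
      refine h.s1_mono ω0 (h.lop_t1 ω0 hi hΦ.lop hρ hs hL p1.le) ?_
      have n := h.nm i (C := 240) (i := 0) (j := 1) (by norm_num) (by norm_num) (by norm_num)
      have := one_le_pow₀ (n := 4) (h.Q1 i)
      calc _ = 240 * G.L i ^ 0 * G.D0 i ^ 1 * (G.rt I i * a1 * (1 * A)) := by ring
        _ ≤ G.Q i * (G.rt I i * a1 * (2 * G.Q i ^ 4 * A)) := by gcongr; linarith
        _ = _ := by ring) k h1 h2
  refine h.s1_mono ω0 q ?_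
  have p0 := (norm_nonneg _).trans (hF 0)
  have := t0 k; have := t0 i
  calc _ = G.Q i ^ 3 * A * G.rt I i * 2 ^ (i - k) *
        (2 * G.Q i ^ 1 * (a0 / G.rt I k) + 6 * G.Q i ^ 2 * a1) := by rw [hw]; field_simp; ring
    _ ≤ G.Q i ^ 3 * A * G.rt I i * 2 ^ (i - k) * (G.Q i ^ 3 * (a0 / G.rt I k) + G.Q i ^ 3 * a1) := by
      gcongr _ * (?_ * _ + ?_ * _)
      exacts [by linarith [h.qpw i (show 1 < 3 by norm_num), pow_pos Qi 1],
        by linarith [h.qpw i (show 2 < 3 by norm_num), pow_pos Qi 2]]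
    _ = _ := by ring

variable (hj : j ≤ i) (hP : ∀ a, G.Lr I i ρ1 (G.om i) C (P a)) (oP : ∀ a, G.Oi b I i (P a 1))
  (sP : Sec q1 (fun a => q1 (q2 ((P a 1).1 0))) C) (C0 : 0 ≤ C) (hC : C ≤ G.L j)
include hj hP oP sP C0 hC

omit hρ in
/-- a translation invariant odd insertion -/
theorem fast {g : ℕ → ℝ} (hg : ∀ k, g k = G.Q i ^ 3 * A * G.rt I i * G.cE k i) :
    ∃ (c : β → ℝ) (u : ℕ → Lx × Ac), ∑ a, |c a| ≤ 3 * C * (G.Q i ^ 3 * A) ∧ G.Ob b I i j G.om 0 u ∧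
      u i = Φ 1 - ∑ a, (c a : ℂ) • P a 1 ∧ ∀ k, j ≤ k → k ≤ i →
        G.S1 G.om k (G.Q i ^ 2 * (g k / G.rt I k)) (u k) ∧ G.RE k (u k) := by
  have ω0 := fun k => (h.om0 k).le
  have o := fun e => h.lr_one ω0 hi (hP e)
  obtain ⟨s, W, s1, s2, s3⟩ := sP.re fun e _ _ => h.q2_im (o e).1 (o e).2 _ _
  have v := h.ob_tn ω0 R hi (h.lr_one ω0 hi hΦ).1
  have Qi := h.Q0 i
  have t0 := h.t0 I
  have w0 : ∀ k, 0 < g k / G.rt I k := fun k => by
    have := t0 i; have := t0 k; have := h.cE0 k i; rw [hg]; positivity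
  have w1 : ∀ k < i, G.L k * (g k / G.rt I k) = 300 * G.cr k * (g (k + 1) / G.rt I (k + 1)) :=
    fun k h2 => by
      have := t0 (k + 1); have := h.L1 k
      rw [hg, hg, h.rt_step (h2.trans_le hi), Nat.cast_mul, cE_step h2]
      field_simp
  have wi : g i / G.rt I i = G.Q i ^ 3 * A := by have := t0 i; rw [hg, cE_top]; field_simp
  have n1 := h.CQ (c := 16) (m := 0) le_rfl C0 hC (by norm_num) (by norm_num) (by norm_num)
  have n2 := h.cQ j (C := 12) (by norm_num)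
  obtain ⟨c, c1, c2⟩ := co_fast (p := fun a => G.tn b I (P a 1) i) (C' := C + C) (h.co1 T hp R hi s3) hj
    (fun _ _ _ h2 => tn_tm h2) (fun e => by
      rw [Gl.tn_top, min_self]; exact (h.p1_of hi (o e).1 (oP e)).1)
    C0 (by linarith) s s1 (by simpa only [Gl.tn_top] using s2) w0 (fun k h1 h2 => ⟨by
      nlinarith [w1 k h2, mul_le_mul_of_nonneg_right (h.cr1 k) (w0 (k + 1)).le, w0 (k + 1)], by
      have := h.L1 k
      refine le_of_mul_le_mul_left ?_ (show (0 : ℝ) < G.L k by linarith)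
      rw [w1 k h2, show G.L k * (4 * (2 * (G.cr k / G.L k)) * (g (k + 1) / G.rt I (k + 1))) =
        8 * G.cr k * (g (k + 1) / G.rt I (k + 1)) by field_simp; ring]
      nlinarith [mul_pos (h.cr0 k) (w0 (k + 1))], by
      have a1 := h.om_q R h1 (h2.trans_le hi) (m := 62) (by norm_num)
      have a2 := mul_le_mul (show 1 + C * (C + C) ≤ G.Q k by linarith [h.Q_mono h1]) (h.LQ k)
        (Nat.cast_nonneg _) (h.Q0 k).le
      nlinarith [mul_le_mul_of_nonneg_right a2 (mul_pos (pow_pos (h.Q0 k) 60) (h.om0 (k + 1))).le]⟩)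
    (by rw [wi, Gl.tn_top]; exact h.p1_top T hp R hi A0 hΦ oΦ) v.2 fun k _ h2 => by
      have z := h.co1 T hp R hi s3
      exact ⟨z.mono _ _ _ _ (z.zero k) (w0 k).le, (congrArg norm (z.q0 k)).trans_le (by simp [(w0 k).le])⟩
  simp only [rsm (E := Lx × Ac)] at c2
  refine ⟨c, G.tn b I (Φ 1) i - ∑ a, (c a : ℂ) • G.tn b I (P a 1) i, wi ▸ c1,
    by simpa using h.ob_sub R hi v (h.ob_sum R hi univ (fun a => (c a : ℂ)) fun e =>
      h.ob_tn ω0 R hi (o e).1), by simp [Gl.tn_top], fun k h1 h2 => ?_⟩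
  obtain ⟨p1, p2⟩ := c2 k h1 h2
  rw [min_eq_left h2] at p1
  have := w0 k
  simp only [Pi.sub_apply, Finset.sum_apply, Pi.smul_apply]
  refine ⟨h.s1_mono ω0 (h.p1_s1 T p1 p2) ?_, p1.2.2.1.re⟩
  rw [← add_mul, sq, mul_assoc]
  gcongr
  exacts [h.Q_mono h2, by linarith [h.Q_mono hj]]

/-- vector expansion -/
theorem xvec (hρ1 : ρ1 ≤ 2 * (G.p i).D) (hO : ∀ m a, G.Lr I i ρ2 (G.om i) C (O m a))
    (hρ2 : ρ2 ≤ 2 * (G.p i).D) (sO : ∀ m, Sec q0 (fun a => q0 (q2 ((O m a 1).1 0))) C) :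
    ∃ (c : β → ℝ) (c' : Fin 4 → α → ℝ), ∑ a, |c a| ≤ G.Q i ^ 4 * A ∧
      (∀ m, ∑ a, |c' m a| ≤ G.Q i ^ 7 * G.rt I i * A) ∧
      ∀ F F' a0 a1 a2, Jet2 (G.N I) a0 a1 a2 F F' → 0 < a2 → ∀ k, j ≤ k → k ≤ i →
        G.S1 G.om k (G.Q i ^ 10 * G.rt I i * A * G.cE k i * (a0 / G.rt I k + a1 + G.rt I k * a2))
          (G.tn b I (Φ F) i k - ∑ a, (c a : ℂ) • G.tn b I (P a F) i k -
            ∑ m, ∑ a, (c' m a : ℂ) • G.tn b I (O m a (F' m)) i k) := by
  have ω0 := fun k => (h.om0 k).le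
  obtain ⟨g, hg⟩ : ∃ g : ℕ → ℝ, ∀ k, g k = G.Q i ^ 3 * A * G.rt I i * G.cE k i := ⟨_, fun _ => rfl⟩
  have Qi := h.Q0 i
  have t0 := h.t0 I
  have g0 : ∀ k, 0 < g k := fun k => by have := t0 i; have := h.cE0 k i; rw [hg]; positivity
  have g1 : ∀ k < i, g k = 300 * G.cr k * g (k + 1) := fun k h2 => by rw [hg, hg, cE_step h2]; ring
  have g2 : ∀ k < i, g (k + 1) ≤ G.L k * g k := fun k h2 => by
    nlinarith [g1 k h2, mul_le_mul_of_nonneg_right (h.Lcr k) (g0 (k + 1)).le, g0 (k + 1)]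
  have gi : g i = G.Q i ^ 3 * A * G.rt I i := by rw [hg, cE_top, mul_one]
  have u0 : ∀ k, 0 < G.Q i ^ 2 * (g k / G.rt I k) := fun k => by have := g0 k; have := t0 k; positivity
  have n0 : 3 * C ≤ G.Q i := by
    linarith [(h.cLQ j (c := 3) (m := 1) (by norm_num) (by norm_num)).trans (h.Q_mono hj)]
  have q3 := one_le_pow₀ (n := 3) (h.Q1 i)
  obtain ⟨c, u, c1, u1, u2, u3⟩ := h.fast T hp R hi A0 hΦ oΦ hj hP oP sP C0 hC hg
  obtain ⟨Ψ, hΨ⟩ : ∃ Ψ : ℕ → (St → ℂ) → Lx × Ac, ∀ k, Ψ k = fun F => G.tm b I k (mM F (u (k + 1))) :=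
    ⟨_, fun _ => rfl⟩
  have l : ∀ k, j ≤ k → k < i → G.Lr (k + 1) k (G.D0 k + 1) (G.om k)
      (1.01 * (G.Q i ^ 2 * (g (k + 1) / G.rt I (k + 1)))) (Ψ k) ∧ Ψ k 1 = u k := fun k h1 h2 => by
    have a := u3 _ (h1.trans k.le_succ) h2
    rw [hΨ, u1.2 k h1 h2, Pi.zero_apply, add_zero]
    exact ⟨h.tm_lr R h1 (h2.trans_le hi) T a.1 a.2 (u0 _),
      (h.tm_lop R h1 (h2.trans_le hi) a.1 a.2.2.2 (u0 _)).2⟩
  have sf : ∀ m k, j ≤ k → k < i → G.S1 G.om k (G.Q i ^ 3 * g k)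
      ((G.rt I (k + 1) : ℂ) • mo (G.N k) (G.rt (k + 1) k) (Ψ k) m) ∧
      G.RE k ((G.rt I (k + 1) : ℂ) • mo (G.N k) (G.rt (k + 1) k) (Ψ k) m) := fun m k h1 h2 => by
    obtain ⟨p1, p2⟩ := h.lr_mom ω0 k.le_succ (l k h1 h2).1 h.D_two m
    refine ⟨h.s1_mono ω0 (h.s1_smul p1 _) ?_, by simpa [RE] using re_lin re_zero p2 (G.rt I (k + 1))⟩
    have n1 := (h.nm k (C := 250) (i := 2) (j := 1) (by norm_num) (by norm_num)
      (by norm_num)).trans (h.Q_mono h2.le)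
    have := t0 (k + 1); have := g0 k; have := h.D1 k
    rw [Complex.norm_natCast, h.rt_one]
    calc _ = 242.4 * G.D0 k * G.L k * G.Q i ^ 2 * g (k + 1) := by field_simp; ring
      _ ≤ 250 * G.D0 k * G.L k * G.Q i ^ 2 * (G.L k * g k) := by
        have := g0 (k + 1); gcongr; exacts [by norm_num, g2 k h2]
      _ = 250 * G.L k ^ 2 * G.D0 k ^ 1 * (G.Q i ^ 2 * g k) := by ring
      _ ≤ G.Q i * (G.Q i ^ 2 * g k) := by gcongr
      _ = _ := by ring
  have sd : ∀ m, G.S1 G.om i (G.Q i ^ 3 * g i)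
      (mo (G.N i) (G.rt I i) Φ m - ∑ a, (c a : ℂ) • mo (G.N i) (G.rt I i) (P a) m) ∧
      G.RE i (mo (G.N i) (G.rt I i) Φ m - ∑ a, (c a : ℂ) • mo (G.N i) (G.rt I i) (P a) m) := fun m => by
    have p := fun a => h.lr_mom ω0 hi (hP a) hρ1 m
    have p' := h.lr_mom ω0 hi hΦ hρ m
    refine ⟨h.s1_mono ω0 (h.s1_sub p'.1 (h.s1_cs c fun a => (p a).1)) ?_,
      re_sub p'.2 (re_sum _ c fun a => (p a).2)⟩
    have n1 := h.CQ (c := 720) (m := 1) hj C0 hC (by norm_num) (by norm_num) (by norm_num)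
    have n2 := h.nm i (C := 240) (i := 0) (j := 1) (by norm_num) (by norm_num) (by norm_num)
    have := h.D1 i; have := t0 i
    calc _ ≤ 240 * G.D0 i * G.rt I i * (G.Q i ^ 3 * A) +
          3 * C * (G.Q i ^ 3 * A) * (240 * G.D0 i * G.rt I i * C) := by
          gcongr; exact le_mul_of_one_le_left A0.le q3
      _ = (240 * G.L i ^ 0 * G.D0 i ^ 1 + 720 * (C * C) * G.D0 i ^ 1) * g i := by rw [gi]; ring
      _ ≤ _ := by have := g0 i; gcongr; linarith [h.qpw i (show 1 < 3 by norm_num)]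
  choose c' c2 c3 using fun m => h.slowF ω0 R T hi hj (hO m) hρ2 (sO m) C0 hC
    (w := fun k => G.Q i ^ 3 * g k) (fun k => mul_pos (pow_pos Qi 3) (g0 k))
    (fun k h2 => by rw [g1 k h2]; ring) (sf m) (sd m)
  refine ⟨c, c', c1.trans ((mul_le_mul_of_nonneg_right n0 (by positivity)).trans_eq (by ring)), fun m =>
    (c2 m).trans ((mul_le_mul_of_nonneg_right n0 (mul_pos (pow_pos Qi 3) (g0 i)).le).trans_eq
      (by rw [gi]; ring)), fun F F' a0 a1 a2 hF p2 k h1 h2 => ?_⟩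
  choose Y y1 y2 using fun m => h.ob_ex ω0 R hi (h.s1_mM (F := G.fd I i (F' m)) (sd m).1
    fun _ => hF.bd' m _) (f := fun k => mM (G.fd I k (F' m))
      ((G.rt I (k + 1) : ℂ) • mo (G.N k) (G.rt (k + 1) k) (Ψ k) m))
    fun k h1 h2 => ⟨_, h.s1_mM (sf m k h1 h2).1 fun _ => hF.bd' m _⟩
  have z := h.ob_sub R hi (h.ob_sub R hi (h.ob_sub R hi
    (h.ob_tn ω0 R hi (h.lop_sz ω0 hi hΦ.lop hF.per hF.bd))
    (h.ob_sum R hi univ (fun a => (c a : ℂ)) fun e => h.ob_tn ω0 R hi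
      (h.lop_sz ω0 hi (hP e).lop hF.per hF.bd))) (f' := fun k => mM (G.fd I k F) (u k) -
      Ψ k (G.fd I (k + 1) F)) (U' := fun k => mM (G.fd I k F) (u k))
    ⟨fun k h1 h2 => ⟨_, h.s1_mM (u3 k h1 h2).1 fun _ => hF.bd _⟩, fun k _ _ => by simp [hΨ]⟩)
    (h.ob_sum R hi univ (fun _ => 1) y2)
  have q := h.ob_sz ω0 R hi z (w := fun k => G.Q i ^ 3 * (G.rt I k * a2 * g k)) (fun k => by
      have := t0 k; have := g0 k; positivity) (fun k h1 h2 => by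
      have := t0 (k + 1); have := g0 (k + 1)
      rw [h.rt_step (h2.trans_le hi), Nat.cast_mul, g1 k h2]
      nlinarith [mul_le_mul_of_nonneg_right (h.Lcr k)
        (show 0 ≤ G.Q i ^ 3 * (G.rt I (k + 1) * a2 * g (k + 1)) by positivity),
        show 0 ≤ G.Q i ^ 3 * (G.rt I (k + 1) * a2 * g (k + 1)) by positivity]) (by
      have p := h.s1_sub (h.lop_t2 ω0 hi hΦ.lop hρ hF p2.le)
        (h.s1_cs c fun a => h.lop_t2 ω0 hi (hP a).lop hρ1 hF p2.le)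
      refine h.s1_mono ω0 (by
        convert p using 1
        simp only [Pi.sub_apply, Finset.sum_apply, Pi.smul_apply, one_smul, y1, u2, Gl.tn_top,
          map_sub, map_sum, map_smul, smul_sub, sum_sub_distrib, smul_sum]
        rw [sum_comm]
        abel) ?_
      have n1 := h.CQ (c := 216000) (m := 2) hj C0 hC (by norm_num) (by norm_num) (by norm_num)
      have n2 := h.nm i (C := 72000) (i := 0) (j := 2) (by norm_num) (by norm_num) (by norm_num)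
      have := h.D1 i; have := t0 i
      calc _ ≤ 72000 * G.D0 i ^ 2 * G.rt I i ^ 2 * a2 * (G.Q i ^ 3 * A) +
            3 * C * (G.Q i ^ 3 * A) * (72000 * G.D0 i ^ 2 * G.rt I i ^ 2 * a2 * C) := by
            gcongr; exact le_mul_of_one_le_left A0.le q3
        _ = (72000 * G.L i ^ 0 * G.D0 i ^ 2 + 216000 * (C * C) * G.D0 i ^ 2) *
            (G.rt I i * a2 * g i) := by rw [gi]; ring
        _ ≤ _ := by have := g0 i; gcongr; linarith [h.qpw i (show 1 < 3 by norm_num)])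
    (fun k h1 h2 => by
      have h3 := h2.trans_le hi
      have p := h.lop_t2 ω0 k.le_succ (l k h1 h2).1.lop h.D_two (h.fd_jet h3 hF) (by positivity)
      have r : ∀ m x, mM (G.fd (k + 1) k fun y => G.rt I (k + 1) * G.fd I (k + 1) (F' m) y) x =
          mM (G.fd I k (F' m)) ((G.rt I (k + 1) : ℂ) • x) := fun m x => h.fd_fd h3 ▸ mM_mul ..
      simp only [r, (l k h1 h2).2, h.fd_fd h3] at p
      refine h.s1_mono ω0 (by
        convert p using 1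
        simp only [Pi.sub_apply, Finset.sum_apply, Pi.smul_apply, one_smul, Pi.zero_apply, smul_zero,
          sum_const_zero]
        abel) ?_
      have n1 := (h.nm k (C := 80000) (i := 2) (j := 2) (by norm_num) (by norm_num)
        (by norm_num)).trans (h.Q_mono h2.le)
      have := t0 (k + 1); have := g0 k; have := h.D1 k; have := g0 (k + 1)
      rw [h.rt_one, h.rt_step h3, Nat.cast_mul]
      calc _ = 72720 * G.D0 k ^ 2 * G.L k ^ 2 * G.rt I (k + 1) * a2 * G.Q i ^ 2 * g (k + 1) := by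
            field_simp; ring
        _ ≤ 80000 * G.D0 k ^ 2 * G.L k ^ 2 * G.rt I (k + 1) * a2 * G.Q i ^ 2 * (G.L k * g k) := by
            gcongr; exacts [by norm_num, g2 k h2]
        _ = 80000 * G.L k ^ 2 * G.D0 k ^ 2 * (G.Q i ^ 2 * (G.L k * G.rt I (k + 1) * a2 * g k)) := by ring
        _ ≤ G.Q i * (G.Q i ^ 2 * (G.L k * G.rt I (k + 1) * a2 * g k)) := by gcongr
        _ = _ := by ring) k h1 h2
  have r := h.s1_add (h.s1_add q (h.s1_mM (F := G.fd I k F) (u3 k h1 h2).1 fun _ => hF.bd _))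
    (h.s1_sum univ fun m _ => c3 m (F' m) a1 a2 (Y m) (hF.per' m) (hF.bd' m) (hF.lip m) p2 (y2 m)
      (by rw [y1, sub_self]; exact h.s1_zero ω0 (by have := g0 i; positivity)) k h1 h2)
  refine h.s1_mono ω0 (by
    convert r using 1
    simp only [Pi.sub_apply, Finset.sum_apply, Pi.smul_apply, one_smul, sum_sub_distrib]
    abel) ?_
  have n1 := h.qpw i (show 6 < 7 by norm_num)
  have n2 := h.qpw i (show 3 < 7 by norm_num)
  have n3 := h.qpw i (show 2 < 7 by norm_num)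
  have p0 := (norm_nonneg _).trans (hF.bd 0)
  have p1 := (norm_nonneg _).trans (hF.bd' 0 0)
  have := g0 k; have := t0 k
  rw [sum_const, card_univ, Fintype.card_fin, nsmul_eq_mul]
  calc _ = G.Q i ^ 2 * (g k * (a0 / G.rt I k)) + 4 * G.Q i ^ 6 * (g k * a1) +
        (3 * G.Q i ^ 3 + 4 * G.Q i ^ 6) * (g k * (G.rt I k * a2)) := by push_cast; ring
    _ ≤ G.Q i ^ 7 * (g k * (a0 / G.rt I k)) + G.Q i ^ 7 * (g k * a1) +
        G.Q i ^ 7 * (g k * (G.rt I k * a2)) := by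
        gcongr ?_ * _ + ?_ * _ + ?_ * _ <;> linarith [pow_pos Qi 2, pow_pos Qi 3, pow_pos Qi 6]
    _ = _ := by rw [hg]; ring

end Ok

end Gl

end En

end Pool.Agent.Lib.MP_7f377f_mp.RG.Q4
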