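import Pool.Agent.Lib.MP_7f377f_mp.G.CaH2
import Pool.Agent.Lib.MP_7f377f_mp.G.CaH3
import Pool.Agent.Lib.MP_7f377f_mp.G.StV9
import Pool.Agent.Lib.MP_7f377f_mp.G.StV7
import Pool.Agent.Lib.MP_7f377f_mp.G.Q5CmR
import Pool.Agent.Lib.MP_7f377f_mp.G.StQ
import Pool.Agent.Lib.MP_7f377f_mp.G.CaKT2
import Pool.Agent.Lib.MP_7f377f_mp.G.CaKT

/-! The lattice input for the Ward identity: definitions and steps. -/

noncomputable section

open Pool.Agent.Lib.MP_7f377f_mp.Jet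

set_option linter.unusedSectionVars false
variable [Pool.Agent.Lib.MP_7f377f_mp.GD]

namespace Pool.Agent.Lib.MP_7f377f_mp.RG.Q4.En

open Finset Function Sg Real Pos Mg Filter YM7 Topology
open Wd (Let evG lx sm)
open Pur (mon Pol)
open Ope (Ins cv)
open MvPolynomial (X)
open scoped Classical

/-- the property holds for all cell data -/
def OnA (n : ℕ∞) (P : ∀ k, (R4 → ℝ) → (Fin k → R4 → ℝ) → Prop) : Prop :=
  ∀ k t e f g, Adm (Fin.cons f g : Fin (k + 1) → _) → ContDiff ℝ n f →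
    Ope.Cel e t (Fin.cons f g : Fin (k + 1) → _) → P k f g

/-- real letters with a marginal part whose type has multiplicity one -/
structure Tm (T : Ty.Ty) (Y : Let) : Prop where
  re : Wd.Re Y
  ty : Wd.Tl T Y
  det : ∃ e, Ty.Det T [e]
  rf : ∃ c0 c1 c2 c3, ∀ g ∈ Ty.rf c0 c1 c2 c3, g ∈ T
  ne : nb (lx Y) ≠ 0

/-- words at the origin -/
structure Wo (ι κ : Type) where
  F : ι → κ → Sx
  a : ι → κ → ℝ
  V : ι → κ → Finset St
  w : ι → ℝ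

variable {ι κ α : Type} [Fintype ι] [DecidableEq ι] [Fintype κ] [DecidableEq κ] [Inhabited κ]
  [Fintype α]

/-- the observable -/
def Wo.ob (B : Wo ι κ) (n : ℕ) (U : Conf) : ℂ := ∑ x, B.w x * ∏ l, (-xO n (B.F x l) U - B.a x l)

namespace Gl

section
variable (G : Gl) (b : ℝ) (J k : ℕ)

/-- the words at the points of the grid of mesh `s` -/
def gx (s i : ℕ) (B : Wo ι κ) (Y : α → Let) : Wx Unit (St × ι) κ α where
  Om := box (G.N J / s / 2) ×ˢ univ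
  cl _ := ()
  F ω l := sxT (G.N J) (-((s : ℤ) • ω.1)) (B.F ω.2 l)
  a ω l := B.a ω.2 l
  P _ := 0
  V ω l := trS (G.N J) ((s : ℤ) • ω.1) (B.V ω.2 l)
  W _ := box (G.N J / 2)
  Z0 ω := tb (G.N k) (i * (G.p k).D - ((G.p k).R + 3)) {fun μ => s * ω.1 μ / G.rt J k}
  X0 ω := tb (G.N k) (i * (G.p k).D) {fun μ => s * ω.1 μ / G.rt J k}
  X := Y
  φ := 0

/-- the field with these words -/
def gv (s i : ℕ) (B : Wo ι κ) (T : Option (Fin 4) → Let) (c0 : ℝ) (Y : α → Let)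
    (o : α → Option (Fin 4)) (c : α → ℝ) : Vf (St × ι) κ α :=
  ⟨T, c0, G.gx J k s i B Y, fun ω => (s : ℤ) • ω.1, fun ω => B.w ω.2, o, c⟩

/-- letters which are admissible at all points and centred -/
def Lc (d : ℕ) (C : ℝ) (σ : ℕ → ℝ) (F : Sx) (a : ℝ) : Prop := ∀ v,
  G.Rx b J k d σ (sxT (G.N J) v F) ∧ σ (k + 1) * ‖G.ex b J (k + 1) (sxT (G.N J) v F) - a‖ ≤ C

/-- admissible words -/
structure Wg (s i c d : ℕ) (C : ℝ) (σ : ℕ → ℝ) (B : Wo ι κ) : Prop where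
  lt : k < J
  dv : s ∣ G.rt J k
  rad : ∃ R : ℕ, (∀ x l, B.V x l ⊆ box R) ∧
    2 * ((R + 1) / G.rt J k) + 12 * G.L k ^ G.K0 + 5 ≤ i * (G.p k).D
  sup : ∀ x l, (B.F x l).In (G.N J) (B.V x l) ∧ (B.F x l).Re (G.p J)
  lc : ∀ x l, G.Lc b J k d C σ (B.F x l) (B.a x l)
  sep : ∀ x, Cls (G.N J) (2 * G.ds J (k + 1)) univ id (B.V x)
  card : Fintype.card κ ≤ c
  tau : 2 * (i + 1) * (2 * i + 1) ^ 4 ≤ c
  big : 400 * 3 ^ c ≤ G.L k
  C0 : 0 ≤ C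
  dR : d ≤ (G.p k).R
  rd : ∀ j, k < j → j ≤ J → 0 < σ j ∧ (j < J → σ j ≤ 2 * σ (j + 1))

/-- the radii of the letters -/
def sx (j : ℕ) : ℝ := G.sg (k + 1) / 2 ^ (j - (k + 1))

end

variable {G : Gl} {b C A N x y : ℝ} {J k s i c d : ℕ} {σ : ℕ → ℝ} {B : Wo ι κ} {Y : Let}
  {T : Ty.Ty} {u u' : Lx × Ac} {f f' : Conf → ℂ}

section
variable (G) (β : ℕ × ℕ → ℝ)

/-- the insertion of a letter at the top -/
def vL (Y : Let) : Ins (ℕ × ℕ) := fun p f =>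
  G.vI β p (sm (G.nn p) Y (jet (G.nn p) (G.aa p) f none))

/-- the insertion of a letter of the block field at level `k` -/
def vB (Y : Let) (k : ℕ) : Ins (ℕ × ℕ) := fun p f => G.vI β p ((G.wm p.1).ta
  (sm ((G.wm p.1).N k) Y (G.fd p.2 k (jet (G.nn p) (G.aa p) f none))) p.2 k)

/-- the size of a letter at the scale `d` -/
def zt (Y : Let) (kd : ℝ → ℕ) (y : ℝ → ℝ) (d : ℝ) (p : ℕ × ℕ) : ℝ :=
  (G.wm p.1).xk (β p) p.2 (kd d) Y / y d

/-- the level `kd d` belongs to the scale `δ d` -/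
structure Kd (δ : ℝ) (kd : ℝ → ℕ) : Prop where
  top : Tendsto kd (𝓝[>] 0) atTop
  lo : ∀ᶠ d in 𝓝[>] (0 : ℝ), 200 * (G.L (kd d + 1) : ℝ) ^ G.K0 ≤ δ * d * 3 ^ G.e (kd d + 1)
  hi : ∀ᶠ d in 𝓝[>] (0 : ℝ), δ * d * 3 ^ G.e (kd d) ≤ 200 * (G.L (kd d) : ℝ) ^ G.K0

/-- the mean of the action density -/
def mS (p : ℕ × ℕ) (F : St → ℂ) : ℝ := (G.vM β p (sm (G.nn p) Wd.phS F)).re

end

/-- losses -/
def Ls (y : ℝ → ℝ) : Prop := Ope.Slow y ∧ ∀ d, 1 ≤ y d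

variable {β : ℕ × ℕ → ℝ} {δ : ℝ} {kd : ℝ → ℕ} {Z : Fin 4 → Let} (h : G.Oks) (hβ : G.Tus β)
include h

theorem Oks.kd_ex (δ0 : 0 < δ) : ∃ kd, G.Kd δ kd := by
  have o := (h 0).1
  have a : ∀ d : ℝ, ∃ j, 0 < d → 200 * (G.L (j + 1) : ℝ) ^ G.K0 ≤ δ * d * 3 ^ G.e (j + 1) :=
    fun d => by
    obtain ⟨j, h1⟩ := ((tendsto_add_atTop_nat 1).eventually (o.ev_L (200 / (δ * d)))).exists
    refine ⟨j, fun d0 => ?_⟩
    have h2 : (G.L (j + 1) : ℝ) ^ (G.K0 + 1) ≤ 3 ^ G.e (j + 1) :=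
      (o.Lb (j + 1) (i := (G.wm 0).K0 + 1) (by have := o.B1; omega)).trans (o.b_e (j + 1))
    replace h1 : 200 ≤ δ * d * G.L (j + 1) := (div_le_iff₀' (mul_pos δ0 d0)).1 h1
    rw [pow_succ'] at h2
    calc _ ≤ δ * d * G.L (j + 1) * G.L (j + 1) ^ G.K0 := by gcongr
      _ ≤ _ := by rw [mul_assoc]; gcongr
  have s : ∀ j, ∀ᶠ d in 𝓝[>] (0 : ℝ), 0 < d ∧ δ * d * 3 ^ G.e j < 200 * (G.L j : ℝ) ^ G.K0 :=
    fun j => by
    have : (0 : ℝ) < G.L j := lt_of_lt_of_le (by norm_num) (o.L1 j)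
    filter_upwards [Ioo_mem_nhdsGT (show 0 < 200 * (G.L j : ℝ) ^ G.K0 / (δ * 3 ^ G.e j) by
      positivity)] with d ⟨d0, d1⟩
    exact ⟨d0, by rw [lt_div_iff₀ (by positivity)] at d1; linarith⟩
  refine ⟨fun d => Nat.find (a d), tendsto_atTop.2 fun n => ?_, ?_, ?_⟩
  · filter_upwards [(eventually_all_finset (range n)).2 fun j _ => s (j + 1)] with d e
    exact (Nat.le_find_iff _ _).2 fun j hj u =>
      (u (e j (mem_range.2 hj)).1).not_gt (e j (mem_range.2 hj)).2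
  · filter_upwards [self_mem_nhdsWithin] with d d0 using Nat.find_spec (a d) d0
  · filter_upwards [s 0] with d e
    rcases u : Nat.find (a d) with _ | j
    · exact e.2.le
    · exact le_of_not_ge fun v => Nat.find_min (a d) (m := j) (by omega) fun _ => v

theorem Oks.slow (δ0 : 0 < δ) (K : G.Kd δ kd) (q : ℕ) : Ls (fun d => G.Q (kd d) ^ q) ∧
    ∀ᶠ d in 𝓝[>] (0 : ℝ), ((3 : ℝ) ^ G.e (kd d))⁻¹ ≤ G.Q (kd d) * d := by
  have o := (h 0).1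
  have Q1 : ∀ j, 1 ≤ G.Q j := o.Q1
  have L1 : ∀ j, (1000 : ℝ) ≤ G.L j := o.L1
  have LQ : ∀ j {i}, i ≤ G.K → (G.L j : ℝ) ^ i ≤ G.Q j := fun j _ e =>
    pow_le_pow_right₀ (by linarith [L1 j]) e
  have K0 : 120 * (G.K0 + 1) ≤ G.K := o.K0_le
  refine ⟨⟨fun ε ε0 => ?_, fun d => one_le_pow₀ (Q1 _)⟩, ?_⟩
  · obtain ⟨N, hN⟩ := exists_nat_ge ε⁻¹
    have N1 : 1 ≤ ε * N := by rwa [← inv_mul_le_iff₀ ε0, mul_one]
    filter_upwards [K.hi, K.top.eventually ((o.ev_two (q * N + 1) 0).and (o.ev_L (200 / δ))),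
      Ioo_mem_nhdsGT one_pos] with d a ⟨⟨_, b⟩, c⟩ ⟨d0, d1⟩
    have p := Q1 (kd d)
    have l := L1 (kd d)
    have b' : G.Q (kd d) ^ (q * N) * G.Q (kd d) ≤ 3 ^ G.e (kd d) :=
      ((pow_succ _ _).symm.trans_le b).trans ((pow_le_pow_left₀ zero_le_two (by norm_num) _).trans
        (pow_le_pow_right₀ (by norm_num) (o.sch.mono.id_le _)))
    have c' : 200 ≤ δ * G.L (kd d) := (div_le_iff₀' δ0).1 c
    have e : d * 3 ^ G.e (kd d) ≤ G.Q (kd d) := by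
      refine le_trans (le_of_mul_le_mul_left ?_ δ0) (LQ (kd d) (i := G.K0 + 1) (by omega))
      rw [← mul_assoc, pow_succ', ← mul_assoc]
      exact a.trans (by gcongr)
    refine (pow_le_one_iff_of_nonneg (by positivity) (n := N) (by rintro rfl; norm_num at N1)).1 ?_
    rw [abs_of_pos (by positivity), mul_pow, ← pow_mul, ← rpow_mul_natCast d0.le]
    refine (mul_le_mul_of_nonneg_left ((rpow_le_rpow_of_exponent_ge d0 d1.le N1).trans_eq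
      (rpow_one d)) (by positivity)).trans (le_of_mul_le_mul_right ?_ (one_pos.trans_le p))
    nlinarith
  · filter_upwards [K.lo, K.top.eventually (o.ev_L δ), self_mem_nhdsWithin] with d a b (d0 : 0 < d)
    have l := L1 (kd d)
    have e : (3 : ℝ) ^ G.e (kd d + 1) = G.L (kd d) * 3 ^ G.e (kd d) := o.e_succ _
    have u : (1 : ℝ) ≤ G.L (kd d + 1) ^ G.K0 := one_le_pow₀ (by linarith [L1 (kd d + 1)])
    have v : δ * G.L (kd d) ≤ G.Q (kd d) :=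
      le_trans (by rw [sq]; gcongr; exact b) (LQ (kd d) (i := 2) (by omega))
    rw [inv_le_iff_one_le_mul₀ (by positivity)]
    rw [e] at a
    nlinarith [mul_le_mul_of_nonneg_right v (show 0 ≤ d * 3 ^ G.e (kd d) by positivity)]

include hβ

/-- (K0) exact structure -/
theorem Oks.str (Y : Let) : Ope.Str L6.fast (G.vE β) (G.vL β Y) := by
  have _ := hβ
  refine ⟨fun p g g' W => by simpa using G.vE_lin β p g g' 1 W,
    fun e x W b => ((h.tau e x b).mono fun _ a => a.1).filter_mono L6.fast_le, fun p f f' W => ?_,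
    fun p f g g' W => by simpa [vL] using G.vI_lin β p _ g g' 1 W, fun e x f W b => ?_⟩
  · rw [vL, jet_add0, funext Wd.sm_add', vI_add (Wd.sm_bc ..) (Wd.sm_bc ..)]
    rfl
  filter_upwards [L6.fast_le (h.tau (β := β) e x b.adm), L6.fast_le (h.jet_tau e x (b.1.1 0).1)]
    with p a c
  refine Eq.trans ?_ (a.2.2 _ (Wd.sm_bc ..))
  rw [vL, vI_congr fun U hU => ?_]
  rw [← sm_sh (G.nn_odd p) hU (jet_ps _ _ _ _) Y ((3 : ℤ) ^ (G.e p.2 - e) • x),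
    show jet _ _ (fun y => f (y - _)) = _ from c]
  simp only [add_sub_cancel_right]
  rfl

omit h hβ in
theorem vL_act (g : Wd.B4) (Y : Let) (p : ℕ × ℕ) (f : R4 → ℝ) (W : Pol) :
    G.vL β (Wd.act g Y) p f W =
      G.vL β Y p (fun y => f (Wd.gR g y)) (Ro.act (Wd.gR g).symm W) := by
  rw [vL, vL, funext (Wd.sm_act g), vI_pb (Wd.sm_bc ..), (jet_gR (G.nn_odd p) g f).1]

omit hβ in
theorem Oks.vB_act (g : Wd.B4) (Y : Let) {p : ℕ × ℕ} (hk : k ≤ p.2) (f : R4 → ℝ) (W : Pol) :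
    G.vB β (Wd.act g Y) k p f W =
      G.vB β Y k p (fun y => f (Wd.gR g y)) (Ro.act (Wd.gR g).symm W) := by
  rw [vB, vB, funext (Wd.sm_act g), vI_congr fun U hU => Wd.ta_pb (h p.1).1 hk (Wd.sm_bc ..) hU g,
    vI_pb ((h p.1).1.ta_bc hk (Wd.sm_bc ..)), (jet_gR (G.nn_odd p) g f).1]
  simp only [fd, ← Wd.gv_smul]
  rfl

theorem Oks.sw_L (Y : Let) (l : Fin 4) (p : ℕ × ℕ) (f : R4 → ℝ) (W : Pol) :
    G.vL β (Wd.act (Wd.pe (Equiv.swap 1 l)) Y) p f W = (G.vL β Y).sw l p f W := by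
  have _ := And.intro h hβ
  rw [vL_act, Ins.sw, Wd.gR_pe, Wd.prm_sw]

theorem Oks.sw_B (Y : Let) (l : Fin 4) {p : ℕ × ℕ} (hk : k ≤ p.2) (f : R4 → ℝ) (W : Pol) :
    G.vB β (Wd.act (Wd.pe (Equiv.swap 1 l)) Y) k p f W = (G.vB β Y k).sw l p f W := by
  have _ := hβ
  rw [h.vB_act _ _ hk, Ins.sw, Wd.gR_pe, Wd.prm_sw]

/-- (K2) the equation of motion -/
theorem Oks.sd : OnA 0 fun _ f g => ∀ᶠ p in L6.fast, G.vL β Wd.jA p f (mon g) = 0 :=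
  have _ := hβ
  fun _ _ _ _ _ a _ _ => L6.fast_le (h.vI_sd a)

end Gl

theorem tm_V3 : Tm Ty.T3 ((4⁻¹ : ℂ) • Wd.V3) :=
  ⟨Wd.rl_smul (by simp) (Wd.Rl.sub_mem (Wd.rl_act _ (Wd.rl_OT 0)) (Wd.rl_act _ (Wd.rl_OT 0))),
    fun g hg => by rw [map_smul, Wd.tl_V3 g hg, smul_comm], ⟨_, Ty.det3⟩,
    ⟨false, false, false, false, fun _ hg => List.mem_append_left _ hg⟩,
    nb_lx (a := 0) (b := 2) (c := 0) (d := 2) (by simp [Wd.sig_V3'])⟩

theorem tm_V6 : Tm Ty.T6 Wd.V6 :=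
  ⟨Wd.rl_OT 1, Wd.tl_V6, ⟨_, Ty.det6⟩, ⟨true, true, false, false, fun _ hg => List.mem_append_left _ hg⟩,
    nb_lx (a := 0) (b := 2) (c := 1) (d := 2) (by simp [Wd.sig_V6])⟩

end Pool.Agent.Lib.MP_7f377f_mp.RG.Q4.En
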