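import Pool.Agent.Lib.MP_7f377f_mp.G.CaK

/-! Cell data are invariant under the symmetries of the lattice. -/

noncomputable section

set_option linter.unusedSectionVars false
variable [Pool.Agent.Lib.MP_7f377f_mp.GD]

namespace Pool.Agent.Lib.MP_7f377f_mp.RG.Q4.En

open Function YM7
open Wd (B4 gR)

variable {k e t : ℕ} {f : R4 → ℝ} {g : Fin k → R4 → ℝ}

theorem cel_gR (c : Ope.Cel e t g) (u : B4) : Ope.Cel e t fun i y => g i (gR u y) := by
  obtain ⟨c, c1, c2⟩ := c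
  refine ⟨fun i m => if (u.1 (m, true)).2 then c i (Wd.ax u m) else -c i (Wd.ax u m) - 1,
    fun i j e => c1 (funext fun l => ?_), fun i y hy m => ?_⟩
  · obtain ⟨m, rfl⟩ := (Wd.ax u).surjective l
    have := congrFun e m
    beta_reduce at this
    split_ifs at this <;> omega
  · have a := c2 i _ hy (Wd.ax u m)
    have b : (if (u.1 (m, true)).2 then gR u y (Wd.ax u m) else -gR u y (Wd.ax u m)) = y m :=
      Wd.cd_gv' u y.ofLp (m, true)
    beta_reduce
    split_ifs at b ⊢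
    · exact b ▸ a
    · push_cast
      constructor <;> linarith [a.1, a.2]

theorem cons_gR (u : B4) : (fun i y => (Fin.cons f g : Fin (k + 1) → _) i (gR u y)) =
    Fin.cons (fun y => f (gR u y)) fun i y => g i (gR u y) :=
  funext fun i => by induction i using Fin.cases <;> rfl

theorem adm_gR (a : Adm (Fin.cons f g : Fin (k + 1) → _)) (u : B4) :
    Adm (Fin.cons (fun y => f (gR u y)) fun i y => g i (gR u y) : Fin (k + 1) → _) :=
  cons_gR u ▸ Ro.adm_act a (gR u).symm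

theorem cel_gR' (c : Ope.Cel e t (Fin.cons f g : Fin (k + 1) → _)) (u : B4) :
    Ope.Cel e t (Fin.cons (fun y => f (gR u y)) fun i y => g i (gR u y) : Fin (k + 1) → _) :=
  cons_gR u ▸ cel_gR c u

theorem mon_gR (u : B4) (g : Fin k → R4 → ℝ) :
    Ro.act (gR u).symm (Pur.mon g) = Pur.mon fun i y => g i (gR u y) := Ro.act_mon _ _

/-- transformed data -/
theorem OnA.gR {n : ℕ∞} {P : ∀ k, (R4 → ℝ) → (Fin k → R4 → ℝ) → Prop} (h : OnA n P) (u : B4) :
    OnA n fun k f g => P k (fun y => f (gR u y)) fun i y => g i (gR u y) :=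
  fun k t e _ _ a b c => h k t e _ _ (adm_gR a u) (b.comp (Wd.gR u).contDiff) (cel_gR' c u)

theorem OnA.all {n : ℕ∞} {P : ∀ k, (R4 → ℝ) → (Fin k → R4 → ℝ) → Prop} (h : OnA n P) :
    OnA n fun k f g => ∀ u : B4, P k (fun y => f (Wd.gR u y)) fun i y => g i (Wd.gR u y) :=
  fun k t e f g a b c u => h.gR u k t e f g a b c

namespace Gl

variable {G : Gl} {β : ℕ × ℕ → ℝ} {p : ℕ × ℕ}

theorem vL_mon (u : B4) (Y : Wd.Let) : G.vL β (Wd.act u Y) p f (Pur.mon g) =
    G.vL β Y p (fun y => f (gR u y)) (Pur.mon fun i y => g i (gR u y)) := by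
  rw [vL_act, mon_gR]

theorem Oks.vB_mon (h : G.Oks) {l : ℕ} (hl : l ≤ p.2) (u : B4) (Y : Wd.Let) :
    G.vB β (Wd.act u Y) l p f (Pur.mon g) =
      G.vB β Y l p (fun y => f (gR u y)) (Pur.mon fun i y => g i (gR u y)) := by
  rw [h.vB_act u Y hl, mon_gR]

theorem cv_act (u : B4) (Y Z : Pur.Pol) :
    Ope.cv (G.vE β p) (Ro.act (gR u) Y) (Ro.act (gR u) Z) = Ope.cv (G.vE β p) Y Z := by
  rw [Ope.cv, ← map_mul, vE_act, vE_act, vE_act, Ope.cv]

theorem cv_mon (u : B4) : Ope.cv (G.vE β p) (MvPolynomial.X fun y => f (gR u y))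
    (Pur.mon fun i y => g i (gR u y)) = Ope.cv (G.vE β p) (MvPolynomial.X f) (Pur.mon g) := by
  rw [← cv_act u⁻¹ (MvPolynomial.X f), Ro.act_X, Ro.act_mon]
  rfl

end Gl

end Pool.Agent.Lib.MP_7f377f_mp.RG.Q4.En
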