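import Pool.Agent.Lib.MP_7f377f_mp.G.CaKA1
import Pool.Agent.Lib.MP_7f377f_mp.G.CaK0

/-! The equation of motion on the lattice. -/

noncomputable section

open Pool.Agent.Lib.MP_7f377f_mp.Jet

set_option linter.unusedSectionVars false
variable [Pool.Agent.Lib.MP_7f377f_mp.GD]

namespace Pool.Agent.Lib.MP_7f377f_mp.RG.Q4.En

open Finset Function Sg Real Pos Filter YM7
open Wd (Let evG lx sm gR B4)
open Pur (mon Pol)
open Ope (cv)
open MvPolynomial (X)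
open scoped Classical

variable {m : ℕ∞} {P Q : ∀ k, (R4 → ℝ) → (Fin k → R4 → ℝ) → Prop}

theorem OnA.pd (h : OnA 0 P) (μ : Fin 4) : OnA ⊤ fun k f g => P k (Fx.pd μ f) g := by
  intro k t e f g a b ⟨c, c1, c2⟩
  refine h k t e _ _ (Ope.adm_pd a b μ) ((Fx.pd_smooth b μ).of_le (by simp))
    ⟨c, c1, Fin.cases (fun y hy l => ?_) fun i => c2 i.succ⟩
  exact closure_minimal (t := {y : R4 | y l ∈ Set.Icc _ _}) (fun y e => c2 0 y e l)
    (isClosed_Icc.preimage (by fun_prop)) (St.pd_ts (subset_tsupport _ hy))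

namespace Gl

variable {G : Gl} {β : ℕ × ℕ → ℝ} {p : ℕ × ℕ} {F F' : St → ℂ} {Y : Let} {Z : Fin 4 → Let} {W : Pol}

/-- the insertion is linear in the letter -/
def vS (G : Gl) (β : ℕ × ℕ → ℝ) (p : ℕ × ℕ) (W : Pol) (F : St → ℂ) : Let →ₗ[ℂ] ℂ where
  toFun Y := G.vI β p (sm (G.nn p) Y F) W
  map_add' X Y := by rw [funext Wd.sm_add, vI_add (Wd.sm_bc ..) (Wd.sm_bc ..)]; rfl
  map_smul' c X := by rw [funext (Wd.sm_smul c), vI_smul]; rfl

theorem vS_smul (c : ℂ) : G.vS β p W (c • F) Y = c * G.vS β p W F Y := by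
  change G.vI β p _ W = _
  rw [funext (Wd.sm_smul' c), vI_smul]
  rfl

theorem vS_sum {ι : Type} [Fintype ι] (Y : ι → Let) (F : ι → St → ℂ) :
    G.vI β p (fun U => ∑ i, sm (G.nn p) (Y i) (F i) U) W = ∑ i, G.vS β p W (F i) (Y i) := by
  rw [vI_sum fun _ _ => Wd.sm_bc .., LinearMap.sum_apply]
  rfl

theorem vL_eq (f : R4 → ℝ) : G.vL β Y p f W = G.vS β p W (jet (G.nn p) (G.aa p) f none) Y := rfl

/-- averages over a group of symmetries -/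
theorem onA_avg {O : ℕ × ℕ → Tj → Conf → ℂ} (hO : ∀ p T, BC (O p T)) (H : Subgroup B4) {χ : B4 → ℂ}
    (hχ : ∀ g ∈ H, ‖χ g‖ ≤ 1) (h : OnA m fun _ f g => ∃ K, ∀ᶠ p in L6.fast,
      ‖G.vI β p (O p (jet (G.nn p) (G.aa p) f)) (mon g)‖ ≤ K / 2 ^ p.2) :
    OnA m fun _ f g => ∃ K, ∀ᶠ p in L6.fast, ‖G.vI β p (fun U => (Nat.card H : ℂ)⁻¹ * ∑ γ : H,
      χ γ * O p ((jet (G.nn p) (G.aa p) f).pb γ) (Wd.pb Inv.inv γ U)) (mon g)‖ ≤ K / 2 ^ p.2 := by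
  intro k t e f g a b c
  choose K hK using h.all k t e f g a b c
  refine ⟨∑ γ : H, K γ, (eventually_all.2 hK).mono fun p hp => ?_⟩
  rw [vI_smul, vI_sum fun γ _ => (bc_comp (hO _ _) (Wd.cont_pb _).measurable).cm _,
    LinearMap.smul_apply, LinearMap.sum_apply, norm_smul, norm_inv, Complex.norm_natCast, sum_div]
  refine (mul_le_of_le_one_left (norm_nonneg _) (Nat.cast_inv_le_one _)).trans
    (norm_sum_le_of_le _ fun γ _ => ?_)
  rw [vI_smul, LinearMap.smul_apply, norm_smul, vI_pb (hO _ _), Ro.act_mon, ← jet_pb (G.nn_odd p)]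
  exact (mul_le_of_le_one_left (norm_nonneg _) (hχ _ γ.2)).trans (hp γ)

theorem lt_one (b : ℝ) (J : ℕ) (Y : Let) : (G.lt b J Y 1).1 0 = lx Y :=
  (Wd.xv_fst ..).trans (one_smul _ _)

variable {ι : Type} [Fintype ι] {O : ι → Let} {O' : Fin 4 → ι → Let}

/-- the terms of the vector expansion -/
def vs (x : Option (ι ⊕ Fin 4 × ι)) : Option (Fin 4) :=
  x.elim none (Sum.elim (fun _ => none) fun y => some y.1)

def vY (Y : Let) (O : ι → Let) (O' : Fin 4 → ι → Let) (x : Option (ι ⊕ Fin 4 × ι)) : Let :=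
  x.elim Y (Sum.elim O fun y => O' y.1 y.2)

def vc (a : ℝ) (c : (ι → ℝ) × (Fin 4 → ι → ℝ)) (x : Option (ι ⊕ Fin 4 × ι)) : ℝ :=
  a⁻¹ * x.elim 1 (Sum.elim (-c.1) fun y => -c.2 y.1 y.2)

theorem cb_v (a : ℝ) (c : (ι → ℝ) × (Fin 4 → ι → ℝ)) :
    cb vs (vY Y O O') (vc a c) none = (a : ℂ)⁻¹ • (Y - ∑ i, (c.1 i : ℂ) • O i) ∧
    (fun m => cb vs (vY Y O O') (vc a c) (some m)) = -(a : ℂ)⁻¹ • fun m => ∑ i, (c.2 m i : ℂ) • O' m i :=
  ⟨by simp [cb, Fintype.sum_option, vs, vY, vc, sub_eq_add_neg, smul_sum, mul_smul], funext fun m => by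
    simp [cb, Fintype.sum_option, Fintype.sum_prod_type, vs, vY, vc, smul_sum, mul_smul]⟩

theorem sum_el (c : ι → ℝ) : ∑ x : Option ι, ((x.elim 1 (-c) : ℝ) : ℂ) • x.elim Y O =
    Y - ∑ i, (c i : ℂ) • O i := by simp [Fintype.sum_option, sub_eq_add_neg]

section
variable {b C : ℝ} {J j l d : ℕ} (h : G.Ok)
include h

theorem Ok.rta (e : l ≤ J) : G.rt J l * (3 ^ G.e J : ℝ)⁻¹ = (3 ^ G.e l)⁻¹ := by
  have := h.t0 J l
  rw [← h.rt_e e]
  field_simp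

variable (t : G.Tu b J) (R : G.Run b J j G.om) (hj : j ≤ J) (C1 : 1 ≤ C) (hC : C ≤ G.L j)
include t R hj C1 hC

theorem Ok.pz_sca (S : Sec q0 (fun a => q0 (q2 (lx (O a)))) C)
    (L : ∀ x : Option _, G.Lf b J d C (x.elim Y O)) : ∃ c : ι → ℝ,
    (∀ x : Option _, |x.elim 1 (-c)| ≤ G.Q J ^ 7) ∧
      G.Pz b J j (Tj.Nm (G.N J) (3 ^ G.e J)⁻¹ False) (fun _ => none) (fun x : Option _ => x.elim Y O)
        (fun x => x.elim 1 (-c)) fun l => 2 * C * G.Q J ^ 10 * G.cE l J * 3 ^ G.e l := by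
  have ω0 := fun k => (h.om0 k).le
  have q := h.Q1 J
  obtain ⟨c, c1, c2⟩ := h.xsca ω0 R t le_rfl hj (fun a => (L (some a)).lr) (Nat.zero_le _)
    (by simpa only [lt_one, Option.elim] using S) (by linarith) hC
    (by linarith) (L none).lr (Nat.zero_le _)
  refine ⟨c, ?_, fun T n l h1 h2 => h.s1_mono ω0 (by
    simpa [Fintype.sum_option, sub_eq_add_neg] using c2 _ _ _ (n.bd none).1
      (fun x => ((n.bd none).2 x).1) n.lip (by positivity) l h1 h2) ?_⟩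
  · rintro (_ | x)
    · simpa using one_le_pow₀ q
    · have : C ≤ G.Q J := hC.trans ((h.LQ j).trans (h.Q_mono hj))
      calc _ ≤ _ := by
            simpa using single_le_sum (f := fun x => |c x|) (fun _ _ => abs_nonneg _) (mem_univ x)
        _ ≤ G.Q J * C := c1
        _ ≤ G.Q J ^ 6 * G.Q J := by gcongr; exact le_self_pow₀ q (by norm_num)
        _ = _ := by ring
  · have := h.cE0 l J
    have e : (1 : ℝ) ≤ 3 ^ G.e l := one_le_pow₀ (by norm_num)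
    calc _ = (1 + (3 ^ G.e l)⁻¹) * C * G.Q J ^ 3 * G.cE l J * 1 := by rw [h.rta h2]; ring
      _ ≤ 2 * C * G.Q J ^ 10 * G.cE l J * 3 ^ G.e l := by
        gcongr; exacts [by linarith [inv_le_one_of_one_le₀ e], by norm_num]

theorem Ok.pz_vec (hp : G.Pu) (S : ∀ m, Sec q0 (fun a => q0 (q2 (lx (O' m a)))) C)
    (S' : Sec q1 (fun a => q1 (q2 (lx (O a)))) C) (L : ∀ x, G.Lf b J d C (vY Y O O' x))
    (s : Wd.sig Y = 0) (o : Wd.Od Y) (o' : ∀ a, Wd.Od (O a)) :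
    ∃ c : (ι → ℝ) × (Fin 4 → ι → ℝ), ∑ i, |c.1 i| ≤ 20⁻¹ ∧
      (∀ m, ∑ i, |c.2 m i| ≤ 20⁻¹) ∧ G.Pz b J j (Tj.Nm (G.N J) (3 ^ G.e J)⁻¹ True) vs (vY Y O O')
        (vc (3 ^ G.e J)⁻¹ c) fun l => 3 * G.Q J ^ 10 * G.cE l J * 3 ^ G.e l := by
  have ω0 := fun k => (h.om0 k).le
  have q := h.Q1 J
  have g := h.g0 J
  obtain ⟨c, c', c1, c2, c3⟩ := h.xvec t hp R le_rfl (by positivity) ((L none).sm s)
    (Nat.zero_le _) ((L none).od o) hj (fun a => (L (some (.inl a))).lr)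
    (fun a => (L (some (.inl a))).od (o' a)) (by simp only [lt_one]; exact S') (by linarith) hC
    (Nat.zero_le _) (fun m a => (L (some (.inr (m, a)))).lr) (Nat.zero_le _)
    (by simp only [lt_one]; exact S)
  have A : G.Q J ^ 7 * (C * G.g J * G.Q J ^ 280) ≤ 20⁻¹ := by
    have : C ≤ G.Q J := hC.trans ((h.LQ j).trans (h.Q_mono hj))
    have := mul_le_mul_of_nonneg_right (h.qpw J (show 288 < 2000 by norm_num)) g.le
    calc _ ≤ G.Q J ^ 7 * (G.Q J * G.g J * G.Q J ^ 280) := by gcongr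
      _ = G.Q J ^ 288 * G.g J := by ring
      _ ≤ _ := by linarith [h.Qg J]
  have A0 : 0 < C * G.g J * G.Q J ^ 280 := by positivity
  simp only [rt_top, Nat.cast_one, mul_one] at c2 c3
  generalize C * G.g J * G.Q J ^ 280 = A' at *
  refine ⟨(c, c'), c1.trans (le_trans (by gcongr; norm_num) A), fun m => (c2 m).trans A,
    fun T n l h1 h2 => h.s1_mono ω0 (by
      convert h.s1_smul (c3 _ _ _ _ _ (n.two trivial) (by positivity) l h1 h2) (3 ^ G.e J : ℝ) using 1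
      simp [Fintype.sum_option, Fintype.sum_prod_type, vc, vs, vY, sub_eq_add_neg, smul_sum, mul_smul,
        add_assoc]) ?_⟩
  have := h.cE0 l J
  have := h.t0 J l
  have e : (1 : ℝ) ≤ 3 ^ G.e l := one_le_pow₀ (by norm_num)
  calc _ = (3 ^ G.e l + 1 + (3 ^ G.e l)⁻¹) * A' * (G.Q J ^ 10 * G.cE l J) := by
        rw [Complex.norm_real, norm_of_nonneg (by positivity), ← h.rt_e h2]
        field_simp
    _ ≤ (3 * 3 ^ G.e l) * 1 * (G.Q J ^ 10 * G.cE l J) := by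
        gcongr
        exacts [by linarith [inv_le_one_of_one_le₀ e], by nlinarith [one_le_pow₀ (n := 7) q]]
    _ = _ := by ring

end

variable (h : G.Oks) (hβ : G.Tus β)
include h hβ

theorem Oks.sca_top (hr : Wd.Re Y) (hY : Wd.Tl Ty.T1 Y) : ∃ c : ℕ × ℕ → ℝ, OnA 0 fun _ f g => ∃ K,
    ∀ᶠ p in L6.fast, ‖G.vL β Y p f (mon g) - c p * cv (G.vE β p) (X f) (mon g)‖ ≤ K / 2 ^ p.2 := by
  obtain ⟨C0, -, S⟩ := Wd.sec_all
  have re : ∀ x : Option _, Wd.Re (x.elim Y Wd.OS) := by rintro (_ | x); exacts [hr, Wd.rl_OS x]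
  obtain ⟨d, C, C1, C2, H⟩ := h.lf hβ re C0
  obtain ⟨j, hj, H⟩ := H.exists
  obtain ⟨c, hc⟩ := Filter.skolem.1 (((tendsto_snd.mono_left L6.fast_le).eventually_gt_atTop j).mono
    fun p hp => (h p.1).1.pz_sca (hβ p) (H p hp).2.1 hp.le C1 hj (by simpa only [Wd.q0_OS] using (S C C2).1 0) (H p hp).2.2)
  refine ⟨fun p => c p (.inl 0), fun k t e f g a1 a2 a3 => ?_⟩
  obtain ⟨K, hK⟩ := onA_avg (O := fun p T U => ∑ x : Option _, (x.elim 1 (-c p) : ℝ) *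
    sm (G.nn p) (x.elim Y Wd.OS) (T none) U) (fun p T => bc_sum' fun _ _ => (Wd.sm_bc ..).cm _) ⊤
    (χ := 1) (by simp) (h.small hβ (s := fun _ => none) (r := False) False.elim re
      (hc.mono fun p e => ⟨fun x => .inr (e.1 x), e.2⟩)) k t e f g a1 a2 a3
  refine ⟨K, hK.mono fun p hp => ?_⟩
  simp only [← Wd.sm_smul, ← Wd.sm_sum, Tj.pb, Option.elim_none] at hp
  simp only [Wd.sm_smul, ← Wd.sm_avg] at hp
  convert hp using 2
  change _ = G.vS β p _ _ _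
  rw [sum_el, map_sub, Wd.avg_OS, Wd.avg_fix (χ := 1) fun g _ => (one_smul ..).trans (hY.inv g), map_sub,
    map_smul, ← vI_phS]
  rfl

theorem Oks.vec_top : ∃ z : ℕ × ℕ → Fin 3 → ℝ, (∀ᶠ p in L6.fast, ∀ ρ, |z p ρ| ≤ 4⁻¹) ∧
    OnA ⊤ fun _ f g => ∃ K, ∀ᶠ p in L6.fast, ‖G.vL β Wd.rA p f (mon g) / G.aa p -
      ∑ ρ, z p ρ * ∑ m, G.vL β (Wd.WW ρ m) p (Fx.pd m f) (mon g)‖ ≤ K / 2 ^ p.2 := by
  obtain ⟨C0, -, S⟩ := Wd.sec_all
  have re : ∀ x, Wd.Re (vY Wd.rA Wd.PO Wd.OF x) := by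
    rintro (_ | x | x)
    exacts [Wd.rl_rA, Wd.rl_PO x, Wd.rl_OF _ _]
  obtain ⟨d, C, C1, C2, H⟩ := h.lf hβ re C0
  obtain ⟨j, hj, H⟩ := H.exists
  obtain ⟨c, hc⟩ := Filter.skolem.1 (((tendsto_snd.mono_left L6.fast_le).eventually_gt_atTop j).mono
    fun p hp => (h p.1).1.pz_vec (hβ p) (H p hp).2.1 hp.le C1 hj (h p.1).2 (S C C2).1 (S C C2).2.2
      (H p hp).2.2 Wd.sig_rA Wd.od_rA Wd.od_PO)
  choose z z1 z2 using fun p => Wd.cov_OF' (c p).2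
  have s : ∀ (c : Fin 3 ⊕ Wd.Iv → ℝ) i, |c i| ≤ ∑ i, |c i| := fun c i =>
    single_le_sum (f := fun x => |c x|) (fun _ _ => abs_nonneg _) (mem_univ i)
  refine ⟨fun p ρ => z p ρ - (c p).1 (.inl ρ), hc.mono fun p e ρ => (abs_sub _ _).trans ?_,
    fun k t e f g a1 a2 a3 => ?_⟩
  · have := z1 p ρ
    rw [Fin.sum_univ_four] at this
    linarith [s (c p).1 (.inl ρ), e.1, e.2.1 0, e.2.1 1, e.2.1 2, e.2.1 3]
  refine (onA_avg (O := fun p T U => ∑ x, vc (G.aa p) (c p) x * sm (G.nn p) (vY Wd.rA Wd.PO Wd.OF x)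
    (T (vs x)) U) (fun p T => bc_sum' fun _ _ => (Wd.sm_bc ..).cm _) (Wd.KK 0) (χ := Wd.sg 0)
    (fun g e => (Wd.norm_sg (e 0 (.inl rfl))).le) (h.small hβ (r := True) (fun _ => le_top) re
      (hc.mono fun p e => ⟨fun x => .inl ⟨?_, ?_⟩, e.2.2⟩)) k t e f g a1 a2 a3).elim fun K hK => ?_
  rotate_right
  · choose K' hK' using fun ρ => h.dvg_top hβ (Wd.rl_WW ρ) k t e f g a1 a2 a3
    refine ⟨K + ∑ ρ, K' ρ, ?_⟩
    filter_upwards [hK, hc, eventually_all.2 hK'] with p hp e hp'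
    have a' : (G.aa p : ℂ) ≠ 0 := Complex.ofReal_ne_zero.2 (G.aa_pos p).ne'
    simp only [← sm_cb] at hp
    simp only [Fintype.sum_option, Tj.pb, Option.elim, mul_add, sum_add_distrib,
      ← Wd.sm_avg, ← Wd.sm_cov] at hp
    rw [vI_add (Wd.sm_bc ..) (bc_sum' fun _ _ => Wd.sm_bc ..), LinearMap.add_apply, vS_sum,
      (cb_v ..).1, (cb_v ..).2, map_smul, map_smul, map_sub, Wd.avg_fix Wd.rA_inv, Wd.avg_PO, z2] at hp
    change ‖G.vS β p _ _ _ + _‖ ≤ _ at hp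
    rw [add_div, sum_div]
    refine le_trans (le_of_eq (congrArg _ ?_)) (norm_add_le_of_le hp (norm_sum_le_of_le _
      fun ρ _ => (norm_mul_le_of_le (show ‖((c p).1 (.inl ρ) : ℂ)‖ ≤ 1 from ?_) (hp' ρ).1).trans_eq
        (one_mul _)))
    · simp only [vL_eq, jet_pd, vS_smul, Pi.smul_apply, Pi.add_apply, map_smul, map_sub, map_add,
        smul_eq_mul, Fin.sum_univ_three, Fin.sum_univ_four, Complex.ofReal_sub]
      field_simp
      ring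
    · rw [Complex.norm_real, norm_eq_abs]
      linarith [s (c p).1 (.inl ρ), e.1]
  · rcases x with _ | x | x
    exacts [.inl Wd.od_rA, .inl (Wd.od_PO x), .inr nofun]
  · have := G.aa_pos p
    rw [vc, abs_mul, abs_of_pos (inv_pos.2 this), mul_right_comm, inv_mul_cancel₀ this.ne', one_mul]
    refine le_trans ?_ ((h p.1).1.Q1 _)
    rcases x with _ | x | x
    · simp
    · simpa using (s _ x).trans (e.1.trans (by norm_num))
    · simpa using (s _ x.2).trans ((e.2.1 x.1).trans (by norm_num))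

/-- (K9) the equation of motion -/
theorem Oks.lat : Ope.Lat0 L6.fast Prod.snd (G.vE β) (G.vL β ((4⁻¹ : ℂ) • Wd.V3)) (G.vL β Wd.V6) := by
  obtain ⟨z, z1, z2⟩ := h.vec_top hβ
  obtain ⟨c, hc⟩ := h.sca_top hβ Wd.rl_V1 Wd.tl_V1
  have n : ∀ x : ℝ, |x| ≤ 4⁻¹ → 2⁻¹ ≤ ‖(1 - x : ℂ)‖ ∧ ‖(1 - x : ℂ)‖ ≤ 2 := fun x e => by
    rw [← Complex.ofReal_one, ← Complex.ofReal_sub, Complex.norm_real, norm_eq_abs,
      abs_of_pos (by linarith [le_abs_self x])]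
    constructor <;> linarith [le_abs_self x, neg_abs_le x]
  refine ⟨fun p => ![1 - z p 1, 1 - z p 2, -z p 0 + (1 - z p 1) * c p], z1.mono fun p e => (n _ (e 2)).1,
    fun k t => .of_forall fun e f g a1 a2 a3 => ?_⟩
  obtain ⟨K1, h1⟩ := z2 k t e f g a1 a2 a3
  obtain ⟨K2, h2⟩ := hc.pd 0 k t e f g a1 a2 a3
  obtain ⟨K3, h3⟩ := h.dvg_top hβ Wd.rl_OT k t e f g a1 a2 a3
  obtain ⟨K4, h4⟩ := h.dvg_top hβ Wd.rl_lA k t e f g a1 a2 a3
  refine ⟨K3 + K1 + 4 * K4 + 2 * K2, ?_⟩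
  filter_upwards [h1, h2, h3, h4, z1, h.sd hβ k t e f g a1 (a2.of_le (by simp)) a3]
    with p h1 h2 h3 h4 z1 h5
  refine le_of_eq_of_le (congrArg _ ?_) ((norm_sub_le_of_le (norm_sub_le_of_le
    (norm_add_le_of_le h3.1 h1) (norm_sum_le_of_le univ fun m _ => h4.2 m))
      (norm_mul_le_of_le (n _ (z1 1)).2 h2)).trans_eq (by simp; ring))
  have e0 : Wd.OT 0 = Wd.V1 + ∑ l : Fin 3,
      Wd.act (Wd.pe (.swap 1 l.succ)) ((4⁻¹ : ℂ) • Wd.V3) := by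
    rw [Wd.OT_zero, show (univ : Finset (Fin 4)).erase 0 = univ.map (Fin.succEmb 3) by decide, sum_map,
      smul_sum]
    simp
  have w : ∀ S : Fin 4 → Let →ₗ[ℂ] ℂ, ∑ m, S m (Wd.WW 0 m) = S 0 Wd.phS ∧
      ∑ m, S m (Wd.WW 1 m) = S 0 (Wd.OT 0) ∧
      ∑ m, S m (Wd.WW 2 m) = ∑ l : Fin 3, S l.succ (Wd.OT l.succ) := fun S => by
    simp [Wd.WW, Fin.sum_univ_succ (n := 3)]
  rw [vL_eq, Wd.jA_eq, map_add, map_sub, map_sum] at h5
  rw [Fin.sum_univ_three, Fin.sum_univ_three (fun ρ => (z p ρ : ℂ) * _),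
    Fin.sum_univ_succ fun m => G.vL β (Wd.OT m) p _ _]
  simp only [Ope.Jp, ← h.sw_L hβ, vL_eq, w fun m => G.vS β p (mon g) (jet _ _ (Fx.pd m f) none),
    ← Wd.OT_ne (Fin.succ_ne_zero _), ← sum_div, ← vI_phS, e0, map_add, map_sum, Matrix.cons_val]
  change _ + _ * G.vS β p _ _ _ = _ - _ * (_ - _ * G.vS β p _ _ _)
  linear_combination -h5 / G.aa p

end Gl

end Pool.Agent.Lib.MP_7f377f_mp.RG.Q4.En
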