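import Pool.Agent.Lib.MP_7f377f_mp.G.CaT2

/-! Summation by parts at the top. -/

noncomputable section

open Pool.Agent.Lib.MP_7f377f_mp.Jet

set_option linter.unusedSectionVars false
variable [Pool.Agent.Lib.MP_7f377f_mp.GD]

namespace Pool.Agent.Lib.MP_7f377f_mp.RG.Q4.En

open Finset Function Sg Real Pos Mg Filter YM7 Topology
open Wd (Let evG lx sm)
open Pur (mon Pol)

/-- neighbours of the support -/
theorem Tj.In.nb {n : ℕ} {a w δ δ' M : ℝ} {c : Fin 4 → ℤ} {T : Tj} {F : St → ℂ}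
    (h : T.In n a w δ c) (hn : Odd n) (ha : 0 < a) (δ0 : 0 ≤ δ) (hδ : δ' + a ≤ δ)
    (hM : ∀ l, |c l * w| ≤ M ∧ |(c l + 1) * w| ≤ M) (hb : 2 * M + 10 * a < a * n)
    (hF : ∀ x, F x ≠ 0 → ∃ o, ∃ s ∈ box 1, T o (x + s) ≠ 0) : Tj.In n a w δ' c fun _ => F := by
  intro _ x e l
  obtain ⟨o, s, hs, e⟩ := hF x e
  have b := h o _ e
  have s1 := mem_box.1 hs
  have : rc n x = rc n (x + s) + -s := by
    rw [← rc_eq hn (x := rc n (x + s) + -s) (mem_box.2 fun i => ?_), rc_add_rc,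
      add_neg_cancel_right]
    obtain ⟨b1, b2⟩ := b i
    obtain ⟨c1, c2⟩ := hM i
    have u : 2 * rc n (x + s) i + 10 < n := Int.cast_lt (R := ℝ).1 <| lt_of_mul_lt_mul_left
      (by push_cast; linarith [le_abs_self ((c i + 1) * w)]) ha.le
    have v : -2 * rc n (x + s) i + 10 < n := Int.cast_lt (R := ℝ).1 <| lt_of_mul_lt_mul_left
      (by push_cast; linarith [neg_abs_le (c i * w)]) ha.le
    have := s1 i
    simp only [Pi.add_apply, Pi.neg_apply]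
    omega
  have s2 : (-1 : ℝ) ≤ s l ∧ (s l : ℝ) ≤ 1 := by exact_mod_cast s1 l
  rw [this]
  simp only [Pi.add_apply, Pi.neg_apply, Int.cast_add, Int.cast_neg]
  constructor <;> nlinarith [(b l).1, (b l).2]

namespace Gl

variable {G : Gl} {β : ℕ × ℕ → ℝ} {Z : Fin 4 → Let} (h : G.Oks) (hβ : G.Tus β)
include h hβ

/-- functions of second order next to the support of the test function -/
theorem Oks.sec {X : Let} (hr : Wd.Re X) : OnA 0 fun _ f g => ∃ K, ∀ᶠ p in L6.fast,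
    ∀ (C : ℝ) (F : St → ℂ), PS (G.nn p) F → (∀ x, ‖F x‖ ≤ 2 * G.aa p ^ 2 ∧ (F x).im = 0) →
      (∀ x, F x ≠ 0 → ∃ o, ∃ s ∈ box 1, jet (G.nn p) (G.aa p) (C • f) o (x + s) ≠ 0) →
      ‖G.vI β p (sm (G.nn p) X F) (mon g)‖ ≤ G.aa p * (K / 2 ^ p.2) := by
  intro k t e f g a1 _ a3
  obtain ⟨c₀, u, hg, hu, h0, hs, hf⟩ := cel_cons a1 a3
  have m : ((3 : ℝ) ^ (e + (t + 1)))⁻¹ = (3 ^ (e + t))⁻¹ / 3 := by
    rw [← add_assoc, pow_succ, mul_inv, div_eq_mul_inv]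
  have q : (0 : ℝ) < (3 ^ (e + t))⁻¹ := by positivity
  obtain ⟨K, H⟩ := h.one hβ (e := e) (t := t + 1) hg hu h0 (fun i y b l => by
    rw [m]; constructor <;> linarith [(hs i y b l).1, (hs i y b l).2]) hr
  obtain ⟨M, hM⟩ := (Set.finite_range fun l : Fin 4 =>
    |(c₀ l : ℝ) * (3 ^ e)⁻¹| + |((c₀ l : ℝ) + 1) * (3 ^ e)⁻¹|).bddAbove
  refine ⟨2 * K, ?_⟩
  filter_upwards [H, L6.fast_le (h.big 0 (2 * M)), L6.fast_le ((h.fam hβ).small (half_pos q))]
    with p H b s C F a1 a2 a3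
  have a := G.aa_pos p
  have z : (0 : ℝ) < 2 * G.aa p ^ 2 := by positivity
  have := H ((((2 * G.aa p ^ 2)⁻¹ : ℝ) : ℂ) • F) (fun _ => ⟨fun x v => congrArg (_ * ·) (a1 x v),
      fun x => ⟨(norm_mul _ (F x)).trans_le (by
      rw [Complex.norm_real, norm_inv, norm_of_nonneg z.le]
      exact inv_mul_le_one_of_le₀ (a2 x).1 z.le),
      (Complex.im_ofReal_mul _ _).trans (by rw [(a2 x).2, mul_zero])⟩⟩)
    ((jet_in (f := C • f) (G.nn_odd p) fun y e => hf y (right_ne_zero_of_mul e)).nb (G.nn_odd p) a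
      q.le (by rw [m]; linarith) (fun l => by
        have := hM ⟨l, rfl⟩
        constructor <;> linarith [abs_nonneg ((c₀ l : ℝ) * (3 ^ e)⁻¹),
          abs_nonneg (((c₀ l : ℝ) + 1) * (3 ^ e)⁻¹)]) b.2.2
      fun x e => a3 x (right_ne_zero_of_mul e))
  rw [funext (Wd.sm_smul' _), vI_smul, LinearMap.smul_apply, norm_smul, Complex.norm_real, norm_inv,
    norm_of_nonneg z.le, ← mul_assoc, show G.aa p * (2 * G.aa p ^ 2)⁻¹ = (2 * G.aa p)⁻¹ by
      field_simp, inv_mul_le_iff₀ (by positivity)] at this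
  exact this.trans_eq (by ring)

/-- (K1) summation by parts at the top -/
theorem Oks.dvg_top (hZ : ∀ m, Wd.Re (Z m)) : OnA ⊤ fun _ f g => ∃ K, ∀ᶠ p in L6.fast,
    ‖G.vL β (Wd.dvg Z) p f (mon g) / G.aa p + ∑ m, G.vL β (Z m) p (Fx.pd m f) (mon g)‖ ≤
      K / 2 ^ p.2 ∧ ∀ m, ‖G.vL β (Wd.lap m (Z m)) p f (mon g) / G.aa p‖ ≤ K / 2 ^ p.2 := by
  intro k t e f g a1 a2 a3
  choose K H using fun m => h.sec hβ (hZ m) k t e f g a1 (a2.of_le (by simp)) a3
  obtain ⟨A, A0, nm⟩ := h.jet_nm (r := True) (f := f) (a1.1 0).1 (a1.1 0).2 fun _ =>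
    a2.of_le (WithTop.coe_le_coe.2 le_top)
  refine ⟨A * ∑ m, |K m|, ?_⟩
  filter_upwards [eventually_all.2 H, L6.fast_le nm] with p H nm
  have a := G.aa_pos p
  set T := jet (G.nn p) (G.aa p) (A⁻¹ • f)
  have j := Wd.jet_ds1 (nm.two trivial)
  have r := fun o x => ((nm.bd o).2 x).2
  have b : ∀ m, un m ∈ box 1 ∧ -un m ∈ box 1 ∧ (0 : St) ∈ box 1 := by decide
  have z : ∀ x, (¬∃ o, ∃ s ∈ box 1, T o (x + s) ≠ 0) → ∀ o, ∀ s ∈ box 1, T o (x + s) = 0 :=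
    fun x e o s b => not_not.1 fun u => e ⟨o, s, b, u⟩
  have ps := jet_ps (G.nn p) (G.aa p) f none
  have c : ∀ X (F : St → ℂ) m, ‖G.vI β p (sm (G.nn p) X (((A⁻¹ : ℝ) : ℂ) • F)) (mon g)‖ ≤
      G.aa p * (K m / 2 ^ p.2) → ‖G.vI β p (sm (G.nn p) X F) (mon g) / G.aa p‖ ≤
        A * |K m| / 2 ^ p.2 := fun X F m e => by
    rw [funext (Wd.sm_smul' _), vI_smul, LinearMap.smul_apply, norm_smul, Complex.norm_real,
      norm_inv, norm_of_nonneg A0.le, inv_mul_le_iff₀ A0] at e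
    rw [norm_div, Complex.norm_real, norm_of_nonneg a.le, div_le_iff₀ a]
    refine e.trans ?_
    calc _ ≤ A * (G.aa p * (|K m| / 2 ^ p.2)) := by gcongr; exact le_abs_self _
      _ = _ := by ring
  refine ⟨?_, fun m => ?_⟩
  · have e : ∀ m, G.vL β (Z m) p (Fx.pd m f) (mon g) =
        G.vI β p (sm (G.nn p) (Z m) (jet (G.nn p) (G.aa p) f (some m))) (mon g) / G.aa p := fun m => by
      rw [jet_pd, funext (Wd.sm_smul' _), vI_smul, LinearMap.smul_apply, smul_eq_mul,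
        mul_div_cancel_left₀ _ (Complex.ofReal_ne_zero.2 a.ne'), vL]
    rw [vL, vI_congr fun U hU => Wd.sm_dvg (G.nn_odd p) hU ps, vI_neg, vI_sum fun _ _ => Wd.sm_bc ..,
      LinearMap.neg_apply, LinearMap.sum_apply, neg_div, sum_div, neg_add_eq_sub, norm_sub_rev,
      ← sum_sub_distrib, mul_sum, sum_div]
    refine norm_sum_le_of_le _ fun m _ => ?_
    rw [e, ← sub_div, ← LinearMap.sub_apply, ← vI_sub (Wd.sm_bc ..) (Wd.sm_bc ..),
      ← funext Wd.sm_sub']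
    refine c _ _ m (le_of_eq_of_le ?_ (H m A⁻¹ (Wd.ds m (T none) - T (some m))
      (fun x v => congrArg₂ (· - ·) (Wd.ps_ds (nm.bd _).1 m x v) ((nm.bd _).1 x v))
      (fun x => ⟨(j m x).1.trans (by nlinarith), by simp [Wd.ds, r]⟩) fun x =>
        not_imp_comm.1 fun e => ?_))
    · congr 4
      funext x
      simp [T, Wd.ds, jet_smul]
      ring
    · simpa [Wd.ds, sub_eq_add_neg, z x e _ _ (b m).1, z x e _ _ (b m).2.1] using
        z x e (some m) _ (b m).2.2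
  · rw [vL, vI_congr fun U hU => Wd.sm_lap (G.nn_odd p) hU ps m]
    refine (c _ _ m (le_of_eq_of_le ?_ (H m A⁻¹ (Wd.d2 m (T none)) (Wd.ps_d2 (nm.bd _).1 m)
      (fun x => ⟨(j m x).2, by simp [Wd.d2, r]⟩) fun x => not_imp_comm.1 fun e => ?_))).trans ?_
    · congr 4
      funext x
      simp [T, Wd.d2, jet_smul]
      ring
    · simpa [Wd.d2, sub_eq_add_neg, z x e _ _ (b m).1, z x e _ _ (b m).2.1] using
        z x e none _ (b m).2.2
    · gcongr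
      exact single_le_sum (f := fun m => |K m|) (fun _ _ => abs_nonneg _) (mem_univ m)

end Gl

end Pool.Agent.Lib.MP_7f377f_mp.RG.Q4.En
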