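import Pool.Agent.Lib.MP_7f377f_mp.G.CaKB1
import Pool.Agent.Lib.MP_7f377f_mp.G.CaH2

/-! Fields made of one letter at the top and one letter of the block field. -/

noncomputable section

open Pool.Agent.Lib.MP_7f377f_mp.Jet

set_option linter.unusedSectionVars false
variable [Pool.Agent.Lib.MP_7f377f_mp.GD]

namespace Pool.Agent.Lib.MP_7f377f_mp.RG.Q4.En

open Finset Function Sg Real Pos Mg Filter YM7 Topology
open Wd (Let evG lx sm)
open Pur (mon Pol)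
open scoped Classical

/-- the reflection in the directions `ε` -/
abbrev rE : (Fin 4 → Bool) → Wd.B4 := Wd.rE

theorem rE_zero : rE 0 = 1 := Wd.rE_zero

theorem rE_flip (ε : Fin 4 → Bool) (μ : Fin 4) : rE (update ε μ !ε μ) = Wd.rf μ * rE ε :=
  Wd.rE_upd ε μ

/-- bounded test functions -/
abbrev Tj.Bd : ℕ → Tj → Prop := Tj.B

theorem Tj.Bd.cl {n e : ℕ} : Tj.Cl n e (Tj.Bd n) := Tj.B.cl n e

/-- the field `X + c Y` -/
def Vf.nw (X Y : Let) (c : ℝ) : Vf Empty Unit Unit :=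
  ⟨fun o => o.elim X fun _ => 0, 0, ⟨∅, Empty.elim, Empty.elim, Empty.elim, 0, Empty.elim,
    fun _ => ∅, Empty.elim, Empty.elim, fun _ => Y, 0⟩, Empty.elim, Empty.elim, fun _ => none,
    fun _ => c⟩

theorem nw_P (X Y : Let) (r : ℂ) (c : ℝ) (n : ℕ) (T : Tj) :
    (Vf.nw (r • X) Y c).P n T = lW X (r • T none) := by
  have a := fun F => map_zero (lWL F)
  have e := (map_smul (lWL (T none)) r X).trans (lW_smul ..).symm
  simp only [lWL, lW, LinearMap.coe_mk, AddHom.coe_mk] at a e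
  simp [Vf.P, Vf.nw, Fintype.sum_option, a, e, lW]

theorem nw_Y (X Y : Let) (r : ℂ) (c : ℝ) (n : ℕ) (T : Tj) (U : Conf) :
    (Vf.nw (r • X) Y c).Y n T U = -sm n (r • X) (T none) U := by
  rw [Vf.Y, nw_P, lW, xO_lS, Wd.sm_smul, Wd.sm_smul']
  simp [Vf.nw]

theorem sgn_ex (c : Fin 4 → Bool) : ∃ s : (Fin 4 → Bool) → ℝ, s 0 = 1 ∧ ∀ ε,
    (s ε = 1 ∨ s ε = -1) ∧ ∀ μ, s (update ε μ !ε μ) = s ε * Ty.sb (c μ) := by
  refine ⟨fun ε => ∏ μ, Ty.sb (ε μ && c μ), by simp [Ty.sb], fun ε => ⟨mul_self_eq_one_iff.1 ?_,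
    fun μ => ?_⟩⟩
  · rw [← prod_mul_distrib]
    exact prod_eq_one fun μ _ => by cases (ε μ && c μ) <;> simp [Ty.sb]
  · simp only [← mul_prod_erase univ _ (mem_univ μ), update_self]
    rw [mul_right_comm, prod_congr rfl fun i e => by rw [update_of_ne (ne_of_mem_erase e)]]
    cases ε μ <;> cases c μ <;> simp [Ty.sb]

theorem Tj.Nm.neg {n : ℕ} {a : ℝ} {T : Tj} (h : T.Nm n a False) : (-T).Nm n a False :=
  ⟨fun o => ⟨fun x v => congrArg Neg.neg ((h.bd o).1 x v), by simpa using (h.bd o).2⟩,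
    fun R x y e => by simpa [neg_add_eq_sub, norm_sub_rev] using h.lip R x y e,
    by simpa using h.bd', False.elim⟩

namespace Gl

variable (G : Gl) (b : ℝ) (J k j : ℕ)

/-- the field `r X + c Y`, with `X` at the top and `Y` at level `k`, has the weight `w` -/
structure Nk (d : ℕ) (A : ℝ) (P : Tj → Prop) (X Y : Let) (r c w : ℝ) : Prop where
  w0 : 0 < w
  lt : k < J
  dR : d ≤ (G.p k).R
  re : Wd.Re X ∧ Wd.Re Y
  lX : G.Lg J d A X
  lY : A ≤ G.Q k ∧ G.Lg k d A Y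
  ok : |r| * A ≤ w * G.rt k j ^ 2 * 2 ^ (J - k)
  cf : G.Q k ^ 400 * |c| ≤ w * G.rt k j ^ 2
  top : ∀ T, P T → ∀ l, k < l → l ≤ J →
    G.S1 G.om l (w * G.rt k j ^ 2 * 2 ^ (l - k)) (G.lv b J l X ((r : ℂ) • T none))
  low : ∀ T, P T → ∀ l, j ≤ l → l ≤ k → G.S1 G.om l (w * G.rt l j ^ 2) (G.tn b J
    (G.lv b J k X ((r : ℂ) • T none) + (c : ℂ) • G.cl b J k Y (G.fd J k (T none))) k l)

variable {G b J k j}

theorem vL_smul {β : ℕ × ℕ → ℝ} (X : Let) (p : ℕ × ℕ) (c : ℝ) (f : R4 → ℝ) (Z : Pol) :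
    G.vL β X p (c • f) Z = c * G.vL β X p f Z := by
  rw [vL, vL, jet_smul, Pi.smul_apply, funext (Wd.sm_smul' _), vI_smul]
  rfl

theorem vB_smul {β : ℕ × ℕ → ℝ} {p : ℕ × ℕ} (o : (G.wm p.1).Ok) (hk : k ≤ p.2) (X : Let) (c : ℝ)
    (f : R4 → ℝ) (Z : Pol) : G.vB β X k p (c • f) Z = c * G.vB β X k p f Z := by
  have e := o.ta_lin hk (bc_cont (continuous_const (y := 0)))
    (Wd.sm_bc ((G.wm p.1).N k) X (G.fd p.2 k (jet (G.nn p) (G.aa p) f none))) c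
  simp only [o.ta_zero hk, zero_add] at e
  rw [vB, vB, jet_smul, ← smul_eq_mul, ← LinearMap.smul_apply, ← vI_smul, ← e,
    ← funext (Wd.sm_smul' _)]
  rfl

theorem Nk.vk {d : ℕ} {A r c w : ℝ} {P : Tj → Prop} {X Y : Let} (N : G.Nk b J k j d A P X Y r c w)
    (h : G.Ok) (t : G.Tu b J) {e : ℕ} (hP : Tj.Cl (G.N J) e P) :
    G.Vk b J k j 1 d 0 A 1 P (Vf.nw ((r : ℂ) • X) Y c) w := by
  have s : ∀ {l N u}, G.S1 G.om l N u → G.S1 (fun l => (G.Q l ^ 100)⁻¹) l N u := fun {l _ _} s =>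
    h.sz_le s (h.om0 l).le le_rfl le_rfl (inv_anti₀ (pow_pos (h.Q0 l) _)
      (pow_le_pow_right₀ (h.Q1 l) (by norm_num)))
  have c1 : ∀ n d (Z : Unit → Finset St), Cls n d univ id Z := fun _ _ _ _ _ _ _ e => absurd rfl e
  have w0 := N.w0
  have m : ∀ T, P T → ∀ x, ‖((r : ℂ) • T none) x‖ ≤ |r| := fun T a x => by
    simpa using mul_le_of_le_one_right (abs_nonneg r) ((hP.bd T a none).2 x).1
  refine ⟨w0, ⟨N.lt, by simp, le_rfl, N.dR, h.cQ k (by norm_num), fun l _ _ => ⟨one_le_two,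
    h.cQ l (by norm_num), one_pos, fun _ => one_pos, fun _ => ⟨by simp, by simp⟩⟩, (·.elim), (·.elim),
    fun _ _ _ => ⟨rfl, rfl, rfl⟩, (·.elim), fun _ => h.rx_zero t, fun _ _ _ => (·.elim),
    ⟨c1 _ _ _, fun _ _ _ => c1 _ _ _⟩, ⟨N.lY.1, fun _ => N.lY.2⟩, fun _ _ _ e => absurd rfl e⟩,
    ⟨0, fun _ => by simp [Vf.nw], by simp; positivity⟩, fun o => ?_, fun T a => ⟨0, |r| * A, ?_,
    by simpa using N.ok⟩, ⟨(·.elim), fun _ => ⟨id, Set.bijOn_id _, (·.elim)⟩, (·.elim)⟩, (·.elim),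
    fun _ => N.re.2, fun T a y => le_trans ?_ N.cf, fun T a l h1 h2 => ?_, fun T a l h1 h2 => ?_⟩
  · cases o
    exacts [⟨(Wd.RdS d).smul_mem _ N.lX.1, Wd.rl_smul (Complex.ofReal_im r) N.re.1⟩,
      ⟨(Wd.RdS d).zero_mem, fun _ => rfl⟩]
  · rw [nw_P]
    exact ⟨fun _ _ _ => norm_zero.le, fun _ => (ltt_ev N.lX.1).smul _, fun x U =>
      norm_mul_le_of_le (m T a x) (N.lX.2.1 U), _, _, _, pm_mul (h.ρ0 J) N.lX.2.2 (m T a)⟩
  · have := h.Q0 k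
    simp only [Vf.nw, univ_unique, sum_singleton]
    gcongr
    exact mul_le_of_le_one_right (abs_nonneg c) ((hP.bd T a none).2 _).1
  · rw [nw_P]
    exact s (N.top T a l h1 h2)
  · rw [vT, nw_P]
    simpa [Vf.nw, lv, Prod.mk_zero_zero] using s (N.low T a l h1 h2)

theorem cl_smul (Y : Let) (c : ℂ) (F : St → ℂ) : G.cl b J k Y (c • F) = c • G.cl b J k Y F := by
  have e := cl_lin (G := G) (b := b) (J := J) (k := k) (X := Y) (F := 0) (F' := 0) 1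
  simpa [show G.cl b J k Y 0 = 0 by simpa using e] using
    cl_lin (G := G) (b := b) (J := J) (k := k) (X := Y) (F := 0) (F' := F) c

theorem Nk.neg {d : ℕ} {A r c w : ℝ} {P : Tj → Prop} {X Y : Let} (N : G.Nk b J k j d A P X Y r c w)
    (hP : ∀ T, P T → P (-T)) : G.Nk b J k j d A P X Y (-r) (-c) w :=
  ⟨N.w0, N.lt, N.dR, N.re, N.lX, N.lY, abs_neg r ▸ N.ok, abs_neg c ▸ N.cf, fun T a l h1 h2 => by
    simpa using N.top _ (hP T a) l h1 h2, fun T a l h1 h2 => by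
    have := N.low _ (hP T a) l h1 h2
    rw [show G.fd J k ((-T) none) = (-1 : ℂ) • G.fd J k (T none) from funext fun _ => by simp [fd],
      cl_smul] at this
    simpa using this⟩

variable {β : ℕ × ℕ → ℝ} (h : G.Oks) (hβ : G.Tus β)
include h hβ

/-- the bound for families of mirror images -/
theorem Oks.fb0 (e t : ℕ) {n : ℕ} {g : Fin n → R4 → ℝ} (hg : Adm g)
    {c₀ : Fin 4 → ℤ} {u : Fin n → Fin 4 → ℤ} (hu : Injective u) (h0 : ∀ i, u i ≠ c₀)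
    (hs : ∀ i y, g i y ≠ 0 → ∀ l, u i l * (3 ^ e)⁻¹ + (3 ^ (e + t))⁻¹ ≤ y l ∧
      y l ≤ (u i l + 1) * (3 ^ e)⁻¹ - (3 ^ (e + t))⁻¹) :
    ∀ᶠ j in atTop, ∃ Λ, ∀ᶠ p in L6.fast, ∀ k, j ≤ k →
      ∀ (X Y : (Fin 4 → Bool) → Let) (r c : (Fin 4 → Bool) → ℝ) (P : Tj → Prop) (T : Tj) w d A,
        Tj.Cl (G.nn p) (G.rt p.2 k) P → P T →
        T.In (G.nn p) (G.aa p) (3 ^ e)⁻¹ (3 ^ (e + t))⁻¹ c₀ →
        (∀ ε, (G.wm p.1).Nk (β p) p.2 k j d A P (X ε) (Y ε) (r ε) (c ε) w) →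
        (∀ ε μ, (r (update ε μ !ε μ) : ℂ) • X (update ε μ !ε μ) = (r ε : ℂ) • Wd.act (Wd.rf μ) (X ε) ∧
          (c (update ε μ !ε μ) : ℂ) • Y (update ε μ !ε μ) = (c ε : ℂ) • Wd.act (Wd.rf μ) (Y ε)) →
        ‖r 0 * G.vI β p (sm (G.nn p) (X 0) (T none)) (mon g) + c 0 * G.vI β p ((G.wm p.1).ta
          (sm ((G.wm p.1).N k) (Y 0) (G.fd p.2 k (T none))) p.2 k) (mon g)‖ ≤ Λ * w := by
  refine (h.fb (Ω := Empty) (κ := Unit) (α := Unit) hβ e t hg hu h0 hs).mono fun j => .imp fun Λ a =>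
    a.mono fun p a k hk X Y r c P T w d A hP hT hI N m => ?_
  have o := (h p.1).1
  have l := (N 0).lt.le
  have := (a k hk (N 0).lt (fun ε => .nw ((r ε : ℂ) • X ε) (Y ε) (c ε)) (fun _ => w) P T w _ _ _ _ _
    hP hT hI (fun ε => (N ε).vk o (hβ p) hP) (fun ε μ T _ => ⟨fun U _ => ?_, fun W _ => ?_⟩)
    (N 0).w0.le (by simp)).1
  · have s := Wd.sm_bc ((G.wm p.1).N k) (Y 0) (G.fd p.2 k (T none))
    have e : (G.wm p.1).vC p.2 k (.nw ((r 0 : ℂ) • X 0) (Y 0) (c 0)) T = fun U => 0 + -c 0 *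
      sm ((G.wm p.1).N k) (Y 0) (G.fd p.2 k (T none)) U := funext fun _ => by
        simp only [vC, Vf.nw, univ_unique, sum_singleton, zero_add, neg_mul]
        rfl
    rw [show (G.wm p.1).vO p.2 k _ T = fun U => -r 0 * sm (G.nn p) (X 0) (T none) U + -c 0 *
      (G.wm p.1).ta (sm ((G.wm p.1).N k) (Y 0) (G.fd p.2 k (T none))) p.2 k U from funext fun U => by
        rw [vO, nw_Y, e, o.ta_lin l (bc_cont continuous_const) s, o.ta_zero l, Wd.sm_smul]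
        simp [nn], vI_add ((Wd.sm_bc ..).cm _) ((o.ta_bc l s).cm _), vI_smul, vI_smul, neg_smul,
      neg_smul, ← neg_add, LinearMap.neg_apply, norm_neg] at this
    exact this
  · rw [nw_Y, nw_Y, (m ε μ).1, Wd.cf_pb, Wd.sm_smul, Wd.sm_smul, Wd.sm_act]
    simp [Tj.rf, Wd.gv_rf, Wd.gn]
  · simp only [vC, Vf.nw, univ_unique, sum_singleton, ← Wd.sm_smul, (m ε μ).2]
    rw [Wd.cf_pb, Wd.sm_smul, Wd.sm_smul, Wd.sm_act]
    congr 3
    funext x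
    rw [fd, fd, ← Wd.gv_smul, Wd.gv_rf]
    generalize (_ : ℤ) • x = y
    simp [Tj.rf]

/-- the bound for letters with a reflection type -/
theorem Oks.fbT : OnA 0 fun _ f g => ∀ᶠ j in atTop, ∃ Λ, ∀ᶠ p in L6.fast, ∀ k, j ≤ k →
    ∀ (X Y : Let) (r c w : ℝ) d A c0 c1 c2 c3, Wd.Tl (Ty.rf c0 c1 c2 c3) X →
      Wd.Tl (Ty.rf c0 c1 c2 c3) Y →
      (G.wm p.1).Nk (β p) p.2 k j d A (Tj.Nm (G.nn p) (G.aa p) False) X Y r c w →
      ‖r * G.vL β X p f (mon g) + c * G.vB β Y k p f (mon g)‖ ≤ Λ * w := by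
  rintro n t e f g hA - ⟨u, hu, hs⟩
  obtain ⟨C, C0, hC⟩ := h.jet_nm (r := False) (hA.1 0).1 (hA.1 0).2 False.elim
  refine (h.fb0 hβ e t (g := g) ⟨fun i => hA.1 i.succ, fun i j e => hA.2 ((Fin.succ_injective n).ne e)⟩
    (hu.comp (Fin.succ_injective n)) (fun i e => i.succ_ne_zero (hu e)) fun i => hs i.succ).mono
    fun j ⟨Λ, a⟩ => ⟨C * Λ, (a.and (hC.filter_mono L6.fast_le)).mono fun p ⟨a, v⟩ k hk X Y r c w d A c0 c1 c2 c3 hX
      hY N => ?_⟩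
  have o := (h p.1).1
  obtain ⟨s, s0, s1⟩ := sgn_ex ![c0, c1, c2, c3]
  have m : ∀ {X : Let} (r : ℝ) ε μ, Wd.Tl (Ty.rf c0 c1 c2 c3) X →
      ((s (update ε μ !ε μ) * r : ℝ) : ℂ) • X = ((s ε * r : ℝ) : ℂ) • Wd.act (Wd.rf μ) X :=
    fun r ε μ a => by
      rw [(s1 ε).2, show Wd.act (Wd.rf μ) _ = _ from a (.inr μ, ![c0, c1, c2, c3] μ)
        (by fin_cases μ <;> simp [Ty.rf]), smul_smul]
      push_cast
      rw [mul_right_comm]
  have := a k hk (fun _ => X) (fun _ => Y) (s · * r) (s · * c) _ _ w d A nm_cl v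
    (jet_in (o.N_odd _) fun y e => hs 0 y (right_ne_zero_of_mul e)) (fun ε => by
      rcases (s1 ε).1 with e | e <;> simp only [e, one_mul, neg_one_mul]
      exacts [N, N.neg fun _ => Tj.Nm.neg]) fun ε μ => ⟨m r ε μ hX, m c ε μ hY⟩
  simp only [s0, one_mul] at this
  change ‖r * G.vL β X p _ _ + c * G.vB β Y k p _ _‖ ≤ _ at this
  rw [vL_smul, vB_smul o N.lt.le, mul_left_comm, mul_left_comm (c : ℂ), ← mul_add, norm_mul,
    Complex.norm_real, norm_of_nonneg (inv_pos.2 C0).le, inv_mul_le_iff₀ C0, ← mul_assoc] at this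
  exact this

end Gl

end Pool.Agent.Lib.MP_7f377f_mp.RG.Q4.En
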