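import Pool.Agent.Lib.MP_7f377f_mp.G.StW2
import Pool.Agent.Lib.MP_7f377f_mp.G.CaKB0
import Pool.Agent.Lib.MP_7f377f_mp.G.CaH2

/-! Words of a type of multiplicity one are proportional to a letter at the top. -/

noncomputable section

open Pool.Agent.Lib.MP_7f377f_mp.Jet

set_option linter.unusedSectionVars false
variable [Pool.Agent.Lib.MP_7f377f_mp.GD]

namespace Pool.Agent.Lib.MP_7f377f_mp.RG.Q4.En

open Finset Function Sg Real Pos Mg Filter YM7 Topology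
open Wd (Let evG lx sm)
open Pur (mon Pol)
open Ope (Ins cv)
open scoped Classical

variable {ι κ : Type} [Fintype ι] [DecidableEq ι] [Fintype κ] [DecidableEq κ] [Inhabited κ]

/-- sums over a grid and the generators -/
theorem grid_cf {n : ℕ} {O : Conf → ℂ} {g : Ty.Gn} {χ : ℂ} (e : ∀ U, Per n U → O (Ty.cf g U) = χ * O U)
    (s m : ℕ) (F : St → ℂ) {U : Conf} (hU : Per n U) :
    ∑ z ∈ box m, F (Wd.gv (Wd.gn g) ((s : ℤ) • z)) * O (sh ((s : ℤ) • z) (Ty.cf g U)) =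
      χ * ∑ z ∈ box m, F ((s : ℤ) • z) * O (sh ((s : ℤ) • z) U) := by
  rw [← Wd.sum_gv (Wd.gn g) m fun z => F ((s : ℤ) • z) * O (sh ((s : ℤ) • z) U), mul_sum]
  refine sum_congr rfl fun z _ => ?_
  rw [Wd.cf_pb, Wd.sh_pb, ← Wd.cf_pb, e _ (hU.sh _), Wd.gv_smul, mul_left_comm]

namespace Gl

variable {G : Gl} {b C A N x y a Wt : ℝ} {J k l s i c d : ℕ} {σ : ℕ → ℝ} {B : Wo ι κ} {Y : Let}
  {T : Ty.Ty} {u : Lx × Ac} {F : St → ℂ}

namespace Ok

variable (h : G.Ok)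
include h

theorem tn_smul (R : G.Run b J k G.om) (a : G.S1 G.om J N u) (t : ℂ) :
    ∀ l, k ≤ l → l ≤ J → G.tn b J (t • u) J l = t • G.tn b J u J l :=
  Cok.down (by rw [Gl.tn_top, Gl.tn_top]) fun l h1 h2 ih => by
    obtain ⟨M, c⟩ := (h.ob_tn (fun k => (h.om0 k).le) R le_rfl a).1 (l + 1) (by omega) h2
    have := h.tm_lin R h1 h2 (h.sz_zero _ _) c t
    rw [zero_add, h.tm_zero R h1 h2, zero_add] at this
    rw [tn_tm h2, tn_tm h2, ih, this]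

theorem cP_rt (hj : l ≤ k) : 1 ≤ G.cP l k * G.rt k l ^ 2 := by
  have a := (one_le_pow₀ (by norm_num)).trans (h.pw_cP l hj)
  nlinarith [h.t0 k l, h.cP0 l k]

theorem cP_e (hj : l ≤ k) : G.cP l k ≤ 3 ^ G.e l * ((3 : ℝ) ^ G.e k)⁻¹ ^ (40⁻¹ : ℝ) := by
  have a := h.cP_pow hj
  have e : (1 : ℝ) ≤ 3 ^ G.e l := one_le_pow₀ (by norm_num)
  have := h.t0 k l
  refine le_of_pow_le_pow_left₀ (n := 40) (by norm_num) (by positivity) ?_
  rw [mul_pow, show (40⁻¹ : ℝ) = ((40 : ℕ) : ℝ)⁻¹ by norm_num, rpow_inv_natCast_pow (by positivity)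
    (by norm_num), ← h.rt_e hj, ← div_eq_mul_inv, le_div_iff₀ (by positivity), ← mul_assoc]
  exact (mul_le_of_le_one_left (by positivity) a).trans (le_self_pow₀ e (by norm_num))

end Ok

/-- smeared letters in units of the size at level `k` -/
theorem norm' (hd : Wd.Rad d Y) (hr : Wd.Re Y) (h0 : nb (lx Y) ≠ 0) : ∃ C ≥ (1 : ℝ),
    ∀ (G : Gl) b J k, G.Ok → G.Tu b J → G.Pu → d ≤ (G.p k).R → C ≤ G.Q k → k ≤ J →
      1 ≤ C * G.xk b J k Y * 2 ^ (J - k) ∧ G.Tx b J k (C * G.xk b J k Y) (C * G.xk b J k Y)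
        (G.lv b J k Y 1) (G.tt (fun U => -sm (G.N J) Y 1 U * wil b (G.N J) U) J k) ∧
      ∀ F a l, PS (G.N J) F → (∀ x, ‖F x‖ ≤ 1) → LipT (G.N J) a F → 0 < a → k ≤ l → l ≤ J →
        G.S1 G.om l (2 * G.Q k ^ 3 * (G.rt J k * a) * (C * G.xk b J k Y * 2 ^ (l - k)))
          (G.lv b J l Y F - (mL (G.fd J l F) (G.lv b J l Y 1).1, mA (G.fd J l F) (G.lv b J l Y 1).2)) ∧
        G.S1 G.om l ((2 * G.Q k ^ 3 * (G.rt J k * a) + 1) * (C * G.xk b J k Y * 2 ^ (l - k)))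
          (G.lv b J l Y F) := by
  obtain ⟨C, C1, H⟩ := norm hd hr h0
  refine ⟨C, C1, fun G b J k h t hp dR hC hk => ?_⟩
  obtain ⟨a1, a2⟩ := H G b J k h t hp dR hC hk
  have C0 := one_pos.trans_le C1
  rw [inv_mul_le_iff₀ C0] at a1
  have x0 : 0 ≤ C * G.xk b J k Y := le_trans (by positivity) a1
  have p : ∀ n : ℕ, (1 : ℝ) ≤ 0.99 ^ n * 2 ^ n := fun n => by
    rw [← mul_pow]; exact one_le_pow₀ (by norm_num)
  refine ⟨(p _).trans (by gcongr), (a2 k le_rfl hk).2.1, fun F a l e1 e2 e3 a0 h1 h2 => ?_⟩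
  obtain ⟨b1, b2, b3⟩ := a2 l h1 h2
  have xl : 0 ≤ G.xk b J l Y := nb_nonneg _
  have q := h.Q0 l
  have r := h.t0 J l
  have c1 : G.xk b J l Y ≤ G.xk b J k Y * 2 ^ (l - k) := by
    nlinarith [p (l - k), mul_le_mul_of_nonneg_right b1 (pow_pos two_pos (l - k)).le]
  have c2 : G.xk b J l Y ≤ C * G.xk b J l Y := le_mul_of_one_le_left xl C1
  have c3 : C * G.xk b J l Y ≤ C * G.xk b J k Y * 2 ^ (l - k) := by rw [mul_assoc]; gcongr
  have c4 : G.Q l ^ 3 * (G.rt J l * a) ≤ G.Q k ^ 3 * (G.rt J k * a) := by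
    rw [← h.rt_mul h1 h2, Nat.cast_mul, mul_assoc, ← mul_assoc (G.Q k ^ 3)]
    gcongr
    exact by simpa using h.Qrt (C := 1) zero_le_one (by norm_num) (show 3 ≤ 120 by norm_num) k h1
  have c5 : 1.01 ^ (J - l) * G.Q J ^ 3 ≤ G.Q l ^ 3 * G.rt J l * (C * G.xk b J k Y * 2 ^ (l - k)) := by
    have := h.Q0 J
    calc _ ≤ (0.99 * 1.03) ^ (J - l) * G.Q J ^ 3 * (0.99 ^ (l - k) * 2 ^ (l - k)) :=
          le_trans (by gcongr; norm_num) (le_mul_of_one_le_right (by positivity) (p _))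
      _ = 1.03 ^ (J - l) * G.Q J ^ 3 * (0.99 ^ (J - k) * 2 ^ (l - k)) := by
          rw [show J - k = J - l + (l - k) by omega, mul_pow]; ring
      _ ≤ _ := mul_le_mul (mul_comm _ (G.Q J ^ 3) ▸ h.Qrt (by norm_num) (by norm_num) (by norm_num) l h2) (by gcongr) (by positivity) (by positivity)
  have e := h.s1_mono (fun k => (h.om0 k).le) (b3 F a e1 e2 e3 a0) (N' := 2 * G.Q k ^ 3 *
    (G.rt J k * a) * (C * G.xk b J k Y * 2 ^ (l - k))) (by
      nlinarith [mul_le_mul_of_nonneg_right c5 a0.le, mul_le_mul c4 (c2.trans c3) xl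
        (by have := h.Q0 k; positivity), mul_le_mul_of_nonneg_right c4 (xl.trans (c2.trans c3))])
  exact ⟨e, h.sz_up (h.pos_sz (f := G.fd J l F) (fun _ => e2 _) e b2.sz) (h.om0 l).le
    (by linarith) (by linarith)⟩

/-- the words on the grid are a multiple of a letter up to a contracting direction -/
theorem lk_dir (hY : Tm T Y) (hd : Wd.Rad d Y) : ∃ C0 : ℝ, ∀ (G : Gl) b J k s i c C σ (B : Wo ι κ) Wt N (a : ℝ),
    G.Ok → G.Tu b J → G.Pu → G.Run b J k G.om → G.Wg b J k s i c d C σ B → 0 < k → C0 ≤ G.L (k - 1) →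
    (∀ g ∈ T, ∀ U, Per (G.N J) U → B.ob (G.N J) (Ty.cf g.1 U) = Ty.sb g.2 * B.ob (G.N J) U) →
    G.bb k ≤ σ (k + 1) ^ Fintype.card κ → 0 < Wt →
    (∑ x, |B.w x|) * (G.Q k * (G.rt J k / s)) ^ 4 ≤ Wt → 4 * G.cM k c C * Wt * G.Q k ^ 282 ≤ N →
    0 < a → (∀ m, G.rt J m * a ≤ 1) → ∃ r : ℝ, G.xk b J k Y ≠ 0 ∧ |r| * G.xk b J k Y ≤ G.Q k * N ∧
      |r| ≤ G.Q k * N * 2 ^ (J - k) ∧ ∀ F, PS (G.N J) F → (∀ x, ‖F x‖ ≤ 1) → LipT (G.N J) a F →
        (∀ l, k ≤ l → l ≤ J → G.S1 G.om l (G.Q k ^ 5 * N * 2 ^ (l - k)) (G.lv b J l Y ((r : ℂ) • F))) ∧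
        ∀ l, 0 < l → l ≤ k → G.S1 G.om l (G.Q k ^ 5 * N * G.cP l k) (G.tn b J (G.lv b J k Y ((r : ℂ) • F) +
          (0, ∑ ω ∈ (G.gx J k s i B (Empty.elim : Empty → Let)).Om, (F ((s : ℤ) • ω.1) * B.w ω.2) •
            G.wX b J k (G.gx J k s i B (Empty.elim : Empty → Let)) ω)) k l) := by
  obtain ⟨C1, c1, H1⟩ := norm' hd hY.re hY.ne
  obtain ⟨C2, c2, H2⟩ := link C1
  obtain ⟨e, hD⟩ := hY.det
  refine ⟨C1 + C2, fun G b J k s i c C σ B Wt N a h t hp R w k0 hC sy hσ W0 hW hN a0 a1 => ?_⟩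
  have hk := w.lt.le
  have L1 : (G.L (k - 1) : ℝ) ≤ G.Q k := (h.LQ _).trans (h.Q_mono (Nat.sub_le ..))
  have q := h.Q0 k
  have q1 := h.cQ k (C := 10) (by norm_num)
  have qC1 : C1 ≤ G.Q k := by linarith
  have qC2 : C2 ≤ G.Q k := by linarith
  obtain ⟨n1, n2, n3⟩ := H1 G b J k h t hp w.dR qC1 hk
  obtain ⟨M, I, -, hw, id⟩ := w.ok h t (Y := (Empty.elim : Empty → Let)) (h.Q1 k) fun x => x.elim
  generalize G.gx J k s i B (Empty.elim : Empty → Let) = S at *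
  generalize hx : G.xk b J k Y = x at *
  have x0 : 0 < C1 * x := (mul_pos_iff_of_pos_right (by positivity)).1 (one_pos.trans_le n1)
  have m0 : 0 < G.cM k c C := by unfold cM; positivity
  have N0 : 0 < N := lt_of_lt_of_le (by positivity) hN
  have b0 := h.b0 k
  have hy : ∀ {u : ℝ}, u ≤ N → u * G.bb k ≤ N * σ (k + 1) ^ Fintype.card κ := fun e =>
    mul_le_mul e hσ b0.le N0.le
  have hw' := fun y => (hw y).trans hW
  have tw := M.tw h t hp I hw' W0 (hy (le_trans (by gcongr; exacts [h.Q1 k, by norm_num]) hN)) N0.le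
  have wb : BC fun U => (wil b (G.N J) U : ℂ) := f_top (G := G) b J ▸ f_meas h t J
  have ws : Sym (G.N J) fun U => (wil b (G.N J) U : ℂ) := f_top (G := G) b J ▸ ((h.f_facts J J).1 b t.b0).2.1
  have bw : BC fun U => wil b (G.N J) U * ∑ ω ∈ S.Om, B.w ω.2 * S.wo (G.N J) ω U :=
    bc_mul wb (bc_sum (fun ω hω => Br.gi_bc (.prod fun l _ =>
      let ⟨_, _, o, _⟩ := (M.lt' ω hω l).2.2.1.1
      Br.gi_comp (gi_xO o) (φ := fun z => -z - S.a ω l) (by fun_prop))) _)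
  have bl : BC fun U => -sm (G.N J) Y 1 U * wil b (G.N J) U :=
    bc_mul (bc_cont (Wd.sm_cont ..).neg) wb
  have z0 := div_pos N0 x0
  have t2 := h.tw_sum t hk (s := {()}) (fun _ _ => n2) fun _ => N / (C1 * x)
  simp only [sum_singleton, abs_of_pos z0, div_mul_cancel₀ _ x0.ne'] at t2
  obtain ⟨r, r1, r2⟩ := H2 G b J k N T e _ _ _ _ h t hp hD k0 hk (by linarith) N0 tw t2
    (tt_bc bw hk) ((tt_bc bl hk).cm _) (h.sgn_tt bw.1 (fun g hg U hU => by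
      have i1 := id 1 U hU
      have i2 := id 1 _ (per_cf hU g.1)
      have i3 := grid_cf (sy g hg) s (G.N J / s / 2) 1 hU
      simp only [Pi.one_apply, one_mul] at i1 i2 i3
      rw [wil_cf (h.N_odd J) hU, i1, i2, i3, mul_left_comm]) hk)
    (fun g hg U hU => by
      rw [h.sgn_tt bl.1 (hY.ty.sgn_mul ws) hk g hg U hU, mul_left_comm]) (by
      have := nb_comb (φ := (((N / (C1 * x) : ℝ) : ℂ) • G.lv b J k Y 1).1 0) (s := 0)
        (ψ := (G.lv b J k Y 1).1 0) (ψ' := (G.lv b J k Y 1).1 0) (t := N / (C1 * x)) fun p q => by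
          rw [Complex.ofReal_zero, zero_mul, zero_add]
          exact ((n2.sz.1 0).1.smul (h.ρ0 _) (N / (C1 * x) : ℝ)).2 _ _
      rw [abs_of_pos z0, abs_zero, zero_mul, add_zero, show nb _ = x from hx] at this
      refine le_trans (le_of_eq ?_) (mul_le_mul_of_nonneg_left this (by linarith))
      rw [mul_left_comm, div_mul_cancel₀ _ x0.ne'])
  generalize hz : N / (C1 * x) = z at *
  have e0 : |-(r * z)| * (C1 * x) = |r| * N := by
    rw [abs_neg, abs_mul, abs_of_pos z0, mul_assoc, ← hz, div_mul_cancel₀ _ x0.ne']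
  have e1 : |-(r * z)| * (C1 * x) ≤ G.Q k * N := e0 ▸ mul_le_mul_of_nonneg_right (r1.trans qC2) N0.le
  have t0 := abs_nonneg (-(r * z))
  have ak : ∀ m, 0 < G.rt J m * a := fun m => mul_pos (one_pos.trans_le (h.t0 J m)) a0
  refine ⟨-(r * z), right_ne_zero_of_mul x0.ne', le_trans (mul_le_mul_of_nonneg_left (le_mul_of_one_le_left
    (hx ▸ nb_nonneg _) c1) t0) e1, (le_mul_of_one_le_right t0 n1).trans
      (by rw [← mul_assoc]; gcongr), fun F f1 f2 f3 => ?_⟩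
  have lin : ∀ l, k ≤ l → l ≤ J → G.lv b J l Y (((-(r * z) : ℝ) : ℂ) • F) =
      ((-(r * z) : ℝ) : ℂ) • G.lv b J l Y F := fun l h1 h2 => by
    have := (n3 F a J f1 f2 f3 a0 hk le_rfl).2
    rw [lv, Gl.tn_top] at this
    rw [lv, lW_smul, show G.xv b J _ = _ from (G.xvL b J).map_smul _ _]
    exact h.tn_smul R this _ l h1 h2
  have q3 : G.Q k * (2 * G.Q k ^ 3 + 1) + 1 + 2 * G.Q k ^ 3 ≤ G.Q k ^ 5 := by
    nlinarith [pow_le_pow_left₀ (by norm_num) q1 3, pow_pos q 3, pow_pos q 4]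
  refine ⟨fun l h1 h2 => lin l h1 h2 ▸ h.s1_mono (fun k => (h.om0 k).le)
    (h.s1_smul (n3 F a l f1 f2 f3 a0 h1 h2).2 _) ?_, fun l h1 h2 => ?_⟩
  · rw [Complex.norm_real, norm_eq_abs]
    calc _ = |-(r * z)| * (C1 * x) * (2 * G.Q k ^ 3 * (G.rt J k * a) + 1) * 2 ^ (l - k) := by ring
      _ ≤ G.Q k * N * (2 * G.Q k ^ 3 * 1 + 1) * 2 ^ (l - k) := by have := ak k; gcongr; exact a1 k
      _ ≤ _ := by gcongr ?_ * _; nlinarith [pow_pos q 3]
  have s1 := h.s1_smul (n3 F a k f1 f2 f3 a0 le_rfl hk).1 (-(r * z) : ℝ)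
  have s2 := M.slow h t hp (w := fun ω => B.w ω.2) (φ := fun ω => F ((s : ℤ) • ω.1))
    (x := G.rt J k * a * N) (E := G.rt J k * a * N) (by simpa using hw') W0 (mul_pos (ak k) N0).le
    (ak k) (h.fd_lip f3 k hk) (fun ω hω => (I.near ω hω).imp fun y e => ⟨e.1, by
      rw [norm_sub_rev]
      exact (f3 _ _ _ e.2).trans (by nlinarith [ak k])⟩) (by
      nlinarith [mul_le_mul_of_nonneg_left (hy hN) (ak k).le])
  have s3 := h.slot t hk (j := 0) (mul_pos (one_pos.trans_le c2) N0) (fun m _ e => r2 m e)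
    (F := G.fd J k F) (fun _ => f2 _) (h.fd_lip f3 k hk) (ak k)
    (v := G.lv b J k Y (((-(r * z) : ℝ) : ℂ) • F) + (0, ∑ ω ∈ S.Om, (F ((s : ℤ) • ω.1) * B.w ω.2) •
      G.wX b J k S ω)) (add_nonneg (h.s1_nn s1) (mul_pos (ak k) N0).le) (by
      rw [lin k le_rfl hk, Gl.Sz]
      convert sz_add (h.ρ0 k) s1 s2 using 1 <;> funext y <;>
        simp only [mL, mA, Prod.fst_add, Prod.snd_add, Prod.fst_sub, Prod.snd_sub, Prod.smul_fst,
          Prod.smul_snd, Pi.add_apply, Pi.sub_apply, Pi.smul_apply, Pi.zero_apply] <;>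
        push_cast <;> module) h2 h1
  refine h.s1_mono (fun k => (h.om0 k).le) s3 ?_
  have ql := h.Q_mono h2
  have := h.Q0 l
  have := h.cP0 l k
  have rl : G.rt k l * (G.rt J k * a) ≤ 1 := by rw [← mul_assoc, ← Nat.cast_mul, h.rt_mul h2 hk]; exact a1 l
  have := ak k
  rw [Complex.norm_real, norm_eq_abs, mul_comm]
  gcongr ?_ * _
  calc _ = G.rt k l * (G.rt J k * a) * (|-(r * z)| * (C1 * x) * (2 * G.Q k ^ 3) + N +
        G.Q l ^ 2 * C2 * N) + C2 * N := by rw [Nat.sub_self]; ring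
    _ ≤ 1 * (G.Q k * N * (2 * G.Q k ^ 3) + N + G.Q k ^ 2 * G.Q k * N) + G.Q k * N := by gcongr
    _ ≤ _ := by nlinarith [pow_pos q 3]

/-- the field: words minus a letter -/
def lf1 (G : Gl) (J k s i : ℕ) (B : Wo ι κ) (Y : Let) (r τ : ℝ) : Vf (St × ι) κ Empty :=
  G.gv J k s i (B.sm τ) (fun o => o.elim (((τ * r : ℝ) : ℂ) • Y) fun _ => 0) 0 Empty.elim Empty.elim
    Empty.elim

theorem lf1_P (r τ : ℝ) (n : ℕ) (S : Tj) :
    (G.lf1 J k s i B Y r τ).P n S = lW Y ((r : ℂ) • (τ : ℂ) • S none) := by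
  rw [smul_smul, mul_comm, ← Complex.ofReal_mul]
  exact nw_P Y Y _ 0 n S

theorem Wg.lf1_Y (w : G.Wg b J k s i c d C σ B) (h : G.Ok) (t : G.Tu b J) (r τ : ℝ) (S : Tj)
    {U : Conf} (hU : Per (G.N J) U) : (G.lf1 J k s i B Y r τ).Y (G.N J) S U =
      τ * (B.gs (G.N J) s (S none) U - r * sm (G.N J) Y (S none) U) := by
  have e := (w.ok h t (Y := (Empty.elim : Empty → Let)) (h.Q1 k) fun x => x.elim).2.2.2.2 (S none) U hU
  rw [Vf.Y, lf1_P, lW, xO_lS, Wd.sm_smul', Wd.sm_smul', Wo.gs, ← e, mul_sub, mul_sum, neg_add_eq_sub,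
    mul_left_comm]
  refine congrArg (· - _) (sum_congr rfl fun ω _ => ?_)
  change S none ((s : ℤ) • ω.1) * ((τ * B.w ω.2 : ℝ) : ℂ) * (G.gx J k s i B Empty.elim).wo _ ω U = _
  push_cast
  ring

theorem Wg.lf1_vr (w : G.Wg b J k s i c d C σ B) (h : G.Ok) (t : G.Tu b J) (hY : Wd.Tl T Y)
    (sy : ∀ g ∈ T, ∀ U, Per (G.N J) U → B.ob (G.N J) (Ty.cf g.1 U) = Ty.sb g.2 * B.ob (G.N J) U)
    {χ : Fin 4 → Bool} (m : ∀ μ, (Sum.inr μ, χ μ) ∈ T) {τ : (Fin 4 → Bool) → ℝ}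
    (e : ∀ ε μ, τ (update ε μ !ε μ) = τ ε * Ty.sb (χ μ)) (r : ℝ) :
    G.Vr J k fun ε => G.lf1 J k s i B Y r (τ ε) := fun ε μ S _ => ⟨fun U hU => by
  have e3 : (fun x => S.rf μ none (Wd.gv (Wd.rf μ) x)) = S none := funext fun x => by
    simp [Tj.rf, Wd.gv_rf]
  have e1 := grid_cf (sy _ (m μ)) s (G.N J / s / 2) (S.rf μ none) hU
  have e2 := Wd.sm_act (n := G.N J) (X := Y) (h := S.rf μ none) (Wd.rf μ) U
  rw [show Wd.act (Wd.rf μ) Y = _ from hY (.inr μ, χ μ) (m μ), Wd.sm_smul, e3] at e2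
  rw [w.lf1_Y h t _ _ _ hU, w.lf1_Y h t _ _ _ (per_cf hU _), e, Wo.gs, Wo.gs, ← e3, Wd.cf_pb]
  rw [Wd.cf_pb] at e1
  erw [e1, e3, ← e2]
  push_cast
  ring, fun _ _ => rfl⟩

/-- the weight of the field -/
theorem lk_vk (hY : Tm T Y) (hd : Wd.Rad d Y) : ∃ C0 : ℝ, ∀ (G : Gl) b J k s i c C σ (B : Wo ι κ) Wt N
    (a : ℝ), G.Ok → G.Tu b J → G.Pu → G.Run b J k G.om → G.Wg b J k s i c d C σ B → 0 < k →
    C0 ≤ G.L (k - 1) →
    (∀ g ∈ T, ∀ U, Per (G.N J) U → B.ob (G.N J) (Ty.cf g.1 U) = Ty.sb g.2 * B.ob (G.N J) U) →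
    G.bb k ≤ σ (k + 1) ^ Fintype.card κ → 0 < Wt → G.ww J k s B ≤ Wt →
    4 * G.cM k c C * Wt * G.Q k ^ 282 ≤ N → 0 < a → (∀ m, G.rt J m * a ≤ 1) →
    ∃ r : ℝ, G.xk b J k Y ≠ 0 ∧ |r| * G.xk b J k Y ≤ G.Q k * N ∧ ∀ j τ, 0 < j → j ≤ k → |τ| = 1 →
      G.Vk b J k j c d C 1 σ (Tj.Nm (G.N J) a False) (G.lf1 J k s i B Y r τ)
        (G.Q k ^ 5 * N * G.cP j k) := by
  obtain ⟨C1, H1⟩ := lk_dir (ι := ι) (κ := κ) hY hd
  obtain ⟨A, A0, H2⟩ := lg_ex hd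
  refine ⟨max C1 A, fun G b J k s i c C σ B Wt N a h t hp R w k0 hC sy hσ W0 hW hN a0 a1 => ?_⟩
  obtain ⟨r, r0, r1, r2, H⟩ := H1 G b J k s i c C σ B Wt N a h t hp R w k0 ((le_max_left ..).trans hC)
    sy hσ W0 hW hN a0 a1
  refine ⟨r, r0, r1, fun j τ j0 hj hτ => ?_⟩
  have hk := w.lt.le
  have qA : A ≤ G.Q k := (le_max_right ..).trans (hC.trans ((h.LQ _).trans (h.Q_mono (Nat.sub_le ..))))
  have L := H2 G J h (w.dR.trans (Nat.mul_le_mul_left 4 (Nat.pow_le_pow_left (h.L_mono hk) _)))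
    (qA.trans (h.Q_mono hk))
  have q := h.Q0 k
  have q1 := h.Q1 k
  have m0 : 0 < G.cM k c C := by unfold cM; positivity
  have N0 : 0 < N := lt_of_lt_of_le (by positivity) hN
  have w1 : G.Q k ^ 5 * N ≤ G.Q k ^ 5 * N * G.cP j k * G.rt k j ^ 2 :=
    mul_assoc (_ * N) _ _ ▸ le_mul_of_one_le_right (by positivity) (h.cP_rt hj)
  have hF : ∀ S, Tj.Nm (G.N J) a False S → PS (G.N J) ((τ : ℂ) • S none) ∧
      (∀ x, ‖((τ : ℂ) • S none) x‖ ≤ 1) ∧ LipT (G.N J) a ((τ : ℂ) • S none) := fun S e =>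
    ⟨fun x v => congrArg ((τ : ℂ) * ·) ((e.bd none).1 x v), fun x => by simpa [hτ] using ((e.bd none).2 x).1,
      fun x y R n => by simpa [← mul_sub, hτ] using e.lip x y R n⟩
  refine (w.mul τ).vk h t q1 (·.elim) (fun o => ?_) (mul_pos (by positivity) (h.cP0 j k)) ?_
    (fun S e => ⟨0, |r| * A, ?_, ?_⟩) (fun _ _ _ => by simpa using le_trans (by positivity) w1)
    (fun S e l h1 h2 => ?_) fun S e l h1 h2 => ?_
  · cases o
    exacts [⟨(Wd.RdS d).smul_mem _ hd, Wd.rl_smul (Complex.ofReal_im _) hY.re⟩,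
      ⟨(Wd.RdS d).zero_mem, fun _ => rfl⟩]
  · rw [show G.ww J k s (B.sm τ) = G.ww J k s B by simp [ww, Wo.sm, abs_mul, hτ]]
    refine mul_le_mul (((pow_le_pow_right₀ q1 (by norm_num)).trans (h.Qb k)).trans hσ)
      (le_trans ?_ w1) (by unfold ww; positivity) ((h.b0 k).le.trans hσ)
    nlinarith [mul_le_mul_of_nonneg_left hW m0.le, one_le_pow₀ (n := 5) q1, mul_pos m0 W0,
      mul_le_mul_of_nonneg_left (one_le_pow₀ (n := 282) q1) (mul_pos m0 W0).le]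
  · have m : ∀ x, ‖((r : ℂ) • (τ : ℂ) • S none) x‖ ≤ |r| := fun x => by
      simpa using mul_le_of_le_one_right (abs_nonneg r) ((hF S e).2.1 x)
    exact lf1_P (B := B) r τ _ S ▸ ⟨fun _ _ _ => norm_zero.le, fun _ => (ltt_ev hd).smul _, fun x U =>
      norm_mul_le_of_le (m x) (L.2.1 U), _, _, _, pm_mul (h.ρ0 J) L.2.2 m⟩
  · calc _ ≤ G.Q k * N * 2 ^ (J - k) * G.Q k := by rw [zero_add]; gcongr
      _ = G.Q k ^ 2 * N * 2 ^ (J - k) := by ring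
      _ ≤ _ := by gcongr ?_ * _; exact le_trans (by gcongr; norm_num) w1
  · exact lf1_P (B := B) r τ _ S ▸ h.s1_mono (fun k => (h.om0 k).le)
      ((H _ (hF S e).1 (hF S e).2.1 (hF S e).2.2).1 l h1.le h2) (by gcongr)
  · have := h.s1_mono (fun k => (h.om0 k).le) ((H _ (hF S e).1 (hF S e).2.1 (hF S e).2.2).2 l
      (j0.trans_le h1) h2) (N' := G.Q k ^ 5 * N * G.cP j k * G.rt l j ^ 2) (by
        rw [show G.cP j k = _ from (prod_Ico_consecutive _ h1 h2).symm, mul_assoc (_ * N),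
          mul_right_comm (∏ _ ∈ _, _)]
        exact mul_le_mul_of_nonneg_left (le_mul_of_one_le_left (h.cP0 l k).le (h.cP_rt h1))
          (by positivity))
    convert this using 2
    rw [vT, Fintype.sum_empty, add_zero]
    refine congrArg₂ _ (congrArg (G.tn b J · J k) (congrArg _ (lf1_P r τ _ S)))
      (congrArg _ (sum_congr rfl fun ω _ => congrArg (· • _) ?_))
    change S none ((s : ℤ) • ω.1) * ((τ * B.w ω.2 : ℝ) : ℂ) = τ * _ * _
    push_cast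
    ring

variable {β : ℕ × ℕ → ℝ} (h : G.Oks) (hβ : G.Tus β)
include h hβ

/-- words of a type of multiplicity one are proportional to a letter at the top -/
theorem Oks.link_word (hY : Tm T Y) (hd : Wd.Rad d Y) (i c : ℕ) (C : ℝ) :
    ∃ r : ℕ → ℕ × ℕ → ℕ → Wo ι (Fin 2) → ℝ, (∀ k p s B, |r k p s B| ≤ 1) ∧ OnA 0 fun _ f g => ∃ K,
      ∀ᶠ k in atTop, ∀ᶠ p in L6.fast, ∀ s B, (G.wm p.1).Wg (β p) p.2 k s i c d C (G.sx k) B →
        (∑ x, |B.w x|) * (G.Q k * (G.rt p.2 k / s)) ^ 4 ≤ G.Q k ^ 9 →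
        (∀ g ∈ T, ∀ U, Per (G.nn p) U → B.ob (G.nn p) (Ty.cf g.1 U) = Ty.sb g.2 * B.ob (G.nn p) U) →
        ‖G.vI β p (fun U => ∑ z ∈ box (G.nn p / s / 2), jet (G.nn p) (G.aa p) f none ((s : ℤ) • z) *
            B.ob (G.nn p) (sh ((s : ℤ) • z) U)) (mon g) + r k p s B * G.Q k ^ (2 * c + 300) /
          (G.wm p.1).xk (β p) p.2 k Y * G.vL β Y p f (mon g)‖ ≤
          K * G.Q k ^ (2 * c + 300) * ((3 : ℝ) ^ G.e k)⁻¹ ^ (40⁻¹ : ℝ) := by
  have o := (h 0).1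
  obtain ⟨C0, H⟩ := lk_vk (ι := ι) (κ := Fin 2) hY hd
  obtain ⟨k0, R⟩ := o.runs
  obtain ⟨c0, c1, c2, c3, hc⟩ := hY.rf
  have K : ∀ᶠ k in atTop, k0 ≤ k ∧ 0 < k ∧ C0 ≤ G.L (k - 1) ∧ 4 * exp (c * C + c + 2) ≤ G.Q k :=
    (eventually_ge_atTop _).and ((eventually_gt_atTop _).and
      (((tendsto_sub_atTop_nat 1).eventually (o.ev_L C0)).and (o.Q_top.eventually_ge_atTop _)))
  choose! r r0 r1 r2 using fun k (p : ℕ × ℕ) s (B : Wo ι (Fin 2))
    (K : k0 ≤ k ∧ 0 < k ∧ C0 ≤ G.L (k - 1) ∧ 4 * exp (c * C + c + 2) ≤ G.Q k) w hW sy =>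
    H (G.wm p.1) (β p) p.2 k s i c C (G.sx k) B (G.Q k ^ 9) (G.Q k ^ (2 * c + 292)) (G.aa p) (h p.1).1
      (hβ p) (h p.1).2 (R _ (h p.1).1 (h p.1).2 _ _ _ K.1 (hβ p) 280 (by norm_num) (by norm_num)) w
      K.2.1 K.2.2.1 sy (by
        have q := o.Q0 (k + 1)
        rw [sx, Nat.sub_self, pow_zero, div_one, sg, Fintype.card_fin, div_pow, le_div_iff₀ (by
          positivity), ← pow_mul, sq]
        exact mul_le_mul (o.b_mono k.le_succ) ((pow_le_pow_right₀ (o.Q1 _) (by norm_num)).trans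
          (o.Qb _)) (by positivity) (o.b0 _).le) (pow_pos (o.Q0 k) _) hW (by
        have q := o.Q0 k
        calc _ = 4 * exp (c * C + c + 2) * G.Q k ^ (2 * c + 291) := by
              change 4 * (_ * G.Q k ^ _) * _ * G.Q k ^ _ = _
              ring
          _ ≤ G.Q k * G.Q k ^ (2 * c + 291) := by gcongr; exact K.2.2.2
          _ = _ := by ring) (G.aa_pos p) fun m => by
        rw [aa, ← div_eq_mul_inv, div_le_one (by positivity)]
        exact_mod_cast Nat.pow_le_pow_right three_pos (Nat.sub_le ..)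
  refine ⟨fun k p s B => max (-1) (min 1 (-(r k p s B * (G.wm p.1).xk (β p) p.2 k Y) /
    G.Q k ^ (2 * c + 300))), fun _ _ _ _ => abs_le.2 ⟨le_max_left .., max_le (by norm_num)
      (min_le_left ..)⟩, ?_⟩
  rintro n t e f g hA - ⟨u, hu, hs⟩
  obtain ⟨Cf, f0, hf⟩ := h.jet_nm (r := False) (hA.1 0).1 (hA.1 0).2 False.elim
  obtain ⟨j, ⟨Λ, a⟩, j0⟩ := ((h.fb (Ω := St × ι) (κ := Fin 2) (α := Empty) hβ e t (g := g)
    ⟨fun i => hA.1 i.succ, fun i j e => hA.2 ((Fin.succ_injective n).ne e)⟩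
    (hu.comp (Fin.succ_injective n)) (fun i e => i.succ_ne_zero (hu e)) fun i => hs i.succ).and
      (eventually_gt_atTop 0)).exists
  refine ⟨Cf * |Λ| * 3 ^ G.e j, ?_⟩
  filter_upwards [K, eventually_ge_atTop j] with k K hj
  filter_upwards [a, hf.filter_mono L6.fast_le] with p a hf s B w hW sy
  have o' := (h p.1).1
  have q : 0 < G.Q k := o.Q0 k
  have q1 : 1 ≤ G.Q k := o.Q1 k
  obtain ⟨χ, s0, s1⟩ := sgn_ex ![c0, c1, c2, c3]
  have V := fun ε => r2 k p s B K w hW sy j (χ ε) j0 hj (by rcases (s1 ε).1 with e | e <;> simp [e])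
  have b := (a k hj w.lt _ _ _ _ _ _ _ _ _ _ nm_cl hf (jet_in (o'.N_odd _) fun y e =>
    hs 0 y (right_ne_zero_of_mul e)) V (w.lf1_vr o' (hβ p) hY.ty sy (fun μ => hc _ (by
      fin_cases μ <;> simp [Ty.rf])) (fun ε => (s1 ε).2) _) (V 0).w0.le (by simp)).1
  have r3 := r1 k p s B K w hW sy
  have r4 := r0 k p s B K w hW sy
  have x0 : 0 ≤ (G.wm p.1).xk (β p) p.2 k Y := nb_nonneg _
  have bc := (V 0).vO_bc o' hj nm_cl hf
  have w0 := (V 0).w0.le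
  clear V a
  rw [Fin.cons_zero] at b bc
  generalize r k p s B = ρ at *
  generalize (G.wm p.1).xk (β p) p.2 k Y = x at *
  have r5 : |-(ρ * x) / G.Q k ^ (2 * c + 300)| ≤ 1 := by
    rw [abs_div, abs_neg, abs_of_pos (pow_pos q _), div_le_one (pow_pos q _), abs_mul,
      abs_of_nonneg x0]
    exact r3.trans ((pow_succ' _ _).ge.trans (pow_le_pow_right₀ q1 (by omega)))
  have f1 : (Cf : ℂ) ≠ 0 := Complex.ofReal_ne_zero.2 f0.ne'
  have x1 : (x : ℂ) ≠ 0 := Complex.ofReal_ne_zero.2 r4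
  have q2 : (G.Q k : ℂ) ≠ 0 := Complex.ofReal_ne_zero.2 q.ne'
  have := o.cP0 j k
  rw [min_eq_right (abs_le.1 r5).2, max_eq_right (abs_le.1 r5).1, vI_congr (O' := fun U => Cf *
    (G.wm p.1).vO p.2 k ((G.wm p.1).lf1 p.2 k s i B Y ρ (χ 0)) (jet (G.nn p) (G.aa p) (Cf⁻¹ • f)) U + ρ *
      sm (G.nn p) Y (jet (G.nn p) (G.aa p) f none) U) fun U hU => ?_,
    vI_add (bc.cm _) ((Wd.sm_bc ..).cm _), vI_smul, vI_smul]
  · refine (le_of_eq ?_).trans ((mul_le_mul_of_nonneg_left (b.trans (mul_le_mul (le_abs_self Λ)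
      (mul_le_mul (b := G.Q k ^ (2 * c + 300)) ((pow_add _ _ _).ge.trans
        (pow_le_pow_right₀ q1 (by omega))) (o.cP_e hj) this.le (by positivity)) w0
      (abs_nonneg Λ))) f0.le).trans_eq (by
        change _ * (_ * (_ * (3 ^ G.e j * (3 ^ G.e k)⁻¹ ^ _))) = _
        ring))
    refine (congrArg _ ?_).trans ((norm_mul (Cf : ℂ) _).trans (congrArg (· * _)
      (Complex.norm_of_nonneg f0.le)))
    simp only [vL, LinearMap.add_apply, LinearMap.smul_apply, smul_eq_mul]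
    push_cast
    field_simp
    ring
  · rw [vO, show (G.wm p.1).vC p.2 k _ _ = fun _ => 0 from funext fun _ => neg_zero,
      o'.ta_zero w.lt.le, w.lf1_Y o' (hβ p) _ _ _ hU, s0, jet_smul, Pi.smul_apply, Wd.sm_smul']
    simp only [Wo.gs, Pi.smul_apply, smul_eq_mul, mul_assoc, ← mul_sum]
    push_cast
    field_simp
    rw [mul_zero, add_zero]
    exact (sub_add_cancel _ _).symm

end Gl

end Pool.Agent.Lib.MP_7f377f_mp.RG.Q4.En
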