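import Pool.Agent.Lib.MP_7f377f_mp.G.CaK
import Pool.Agent.Lib.MP_7f377f_mp.G.CaH4

/-! Words on a grid satisfy the hypotheses of the merging. -/

noncomputable section

open Pool.Agent.Lib.MP_7f377f_mp.Jet

set_option linter.unusedSectionVars false
variable [Pool.Agent.Lib.MP_7f377f_mp.GD]

namespace Pool.Agent.Lib.MP_7f377f_mp.RG.Q4.En

open Finset Function Sg Real Pos Mg Filter YM7 Topology
open Wd (Let evG lx sm)
open scoped Classical

attribute [local irreducible] box tb rc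

section geo

variable {n e E R : ℕ} {a b v w : St}

theorem near_div (e0 : 0 < e) (h : nearT (e * n) E ((e : ℤ) • a) ((e : ℤ) • b)) :
    nearT n (E / e) a b := by
  obtain ⟨v, hv⟩ := nearT_iff.1 h
  refine nearT_iff.2 ⟨v, fun i => ?_⟩
  have e1 : (0 : ℤ) < e := Nat.cast_pos.2 e0
  obtain ⟨h1, h2⟩ := hv i
  simp only [Pi.smul_apply, smul_eq_mul, Nat.cast_mul] at h1 h2
  rw [Int.natCast_div, neg_le]
  exact ⟨Int.le_ediv_of_mul_le e1 (by linarith), Int.le_ediv_of_mul_le e1 (by linarith)⟩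

theorem near_quo (e0 : 0 < e) (n : ℕ) (x : St) : nearT n e ((e : ℤ) • fun μ => x μ / e) x :=
  nearT_iff.2 ⟨0, fun i => by
    have e1 : (0 : ℤ) < e := Nat.cast_pos.2 e0
    have h1 := Int.mul_ediv_add_emod (x i) e
    have h2 := Int.emod_nonneg (x i) e1.ne'
    have h3 := Int.emod_lt_of_pos (x i) e1
    simp only [Pi.smul_apply, smul_eq_mul, Pi.zero_apply, mul_zero, sub_zero]
    constructor <;> linarith⟩

theorem tb_tr (h : rc n (a + v) = rc n b) : tb n R {b} = trS n v (tb n R {a}) := by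
  rw [trS, ← In.tb_image, image_singleton, h]
  ext y
  simp only [mem_tb_single, nearT_rc_left]

theorem sep_tr {d : ℝ} {X Y : Finset St} (h : Sep n d X Y) (v : St) :
    Sep n d (trS n v X) (trS n v Y) := fun x hx y hy D e => by
  obtain ⟨x, h1, rfl⟩ := mem_image.1 hx
  obtain ⟨y, h2, rfl⟩ := mem_image.1 hy
  exact h x h1 y h2 D ((nearT_add_right v).1 (nearT_rc_left.1 (nearT_rc_right.1 e)))

theorem sxT_sxT (F : Sx) : sxT n v (sxT n w F) = sxT n (v + w) F := by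
  unfold sxT srT
  simp only [rc_add_rc, add_assoc]

theorem sxT_per (F : Sx) : sxT n (v + (n : ℤ) • w) F = sxT n v F := by
  unfold sxT srT
  simp only [← add_assoc, rc_add_smul]

theorem Sx.In.tr {V : Finset St} {F : Sx} (h : F.In n V) (v : St) :
    (sxT n (-v) F).In n (trS n v V) := fun x hx => h _ fun a => hx (mem_image.2 ⟨_, a, by
  rw [rc_rc, rc_add_rc, neg_add_cancel_right]⟩)

theorem Sx.Re.tr {p : Pa} {F : Sx} (h : F.Re p) (v : St) : (sxT n v F).Re p :=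
  ⟨fun _ => h.1 _, fun _ => h.2.1 _, fun _ => h.2.2 _⟩

theorem bij_rc {ι : Type} [Fintype ι] (hn : Odd n) (v : St) :
    Set.BijOn (fun ω : St × ι => (rc n (ω.1 + v), ω.2)) ↑(box (n / 2) ×ˢ (univ : Finset ι))
      ↑(box (n / 2) ×ˢ (univ : Finset ι)) := by
  have m : ∀ v : St, Set.MapsTo (fun ω : St × ι => (rc n (ω.1 + v), ω.2))
      ↑(box (n / 2) ×ˢ (univ : Finset ι)) ↑(box (n / 2) ×ˢ (univ : Finset ι)) := fun v ω _ =>
    mem_coe.2 (mem_product.2 ⟨rc_mem hn _, mem_univ _⟩)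
  refine Set.InvOn.bijOn (f' := fun ω : St × ι => (rc n (ω.1 + -v), ω.2))
    ⟨fun ω h => Prod.ext ?_ rfl, fun ω h => Prod.ext ?_ rfl⟩ (m v) (m (-v))
  · exact (rc_add_rc _ _ _).trans (by
      rw [add_neg_cancel_right, rc_eq hn (mem_product.1 (mem_coe.1 h)).1])
  · exact (rc_add_rc _ _ _).trans (by
      rw [neg_add_cancel_right, rc_eq hn (mem_product.1 (mem_coe.1 h)).1])

end geo

namespace Gl

variable {ι κ α : Type} [Fintype ι] [DecidableEq ι] [Fintype κ] [DecidableEq κ] [Inhabited κ]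
  [Fintype α] {G : Gl} {b C A : ℝ} {J k s i c d : ℕ} {σ : ℕ → ℝ} {B : Wo ι κ}

theorem Ok.L_Q (h : G.Ok) (k : ℕ) : ((G.L k * G.L k ^ G.K0 : ℕ) : ℝ) ≤ G.Q k := by
  rw [← pow_succ', Nat.cast_pow]
  exact pow_le_pow_right₀ (by linarith [h.L1 k]) (by have := h.K0_le; omega)

theorem Wg.num (w : G.Wg b J k s i c d C σ B) (h : G.Ok) :
    ((2 * (i * (G.p k).D) + 3 : ℕ) : ℝ) ≤ G.Q k := by
  refine le_trans (Nat.cast_le.2 ?_) (h.L_Q k)
  have a1 : i + 1 ≤ c := le_trans ((Nat.le_mul_of_pos_left _ two_pos).trans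
    (Nat.le_mul_of_pos_right _ (by positivity))) w.tau
  have a2 : c < 3 ^ c := Nat.lt_pow_self (by norm_num)
  have a3 := w.big
  have a4 : 1 ≤ G.L k ^ G.K0 := Nat.one_le_pow _ _ (by omega)
  have a5 := Nat.mul_le_mul_right (G.L k ^ G.K0) (show 40 * i + 3 ≤ G.L k by omega)
  change 2 * (i * (20 * G.L k ^ G.K0)) + 3 ≤ _
  nlinarith

/-- (W1) the words on the grid -/
theorem Wg.ok (w : G.Wg b J k s i c d C σ B) (h : G.Ok) (t : G.Tu b J) {Y : α → Let}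
    (hA : A ≤ G.Q k) (hY : ∀ x, G.Lg k d A (Y x)) :
    G.Mx b J k (G.gx J k s i B Y) c d C A (fun _ => 2) σ (fun _ _ => 1) ∧
    Mx.Iv G J k (G.gx J k s i B Y) (fun ω => B.w ω.2) (fun ω => (s : ℤ) • ω.1) ∧
    (∀ ω ∈ (G.gx J k s i B Y).Om, ∃ R : ℕ, (R : ℝ) ≤ G.Q k * G.rt J k ∧
      (∀ l, (G.gx J k s i B Y).V ω l ⊆ tb (G.N J) R {(s : ℤ) • ω.1}) ∧
      (G.gx J k s i B Y).X0 ω ⊆ G.zs (tb (G.N J) R {(s : ℤ) • ω.1}) J k) ∧
    (∀ y, ∑ ω ∈ (G.gx J k s i B Y).Om.filter (y ∈ (G.gx J k s i B Y).X0 ·), |B.w ω.2| ≤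
      (∑ x, |B.w x|) * (G.Q k * (G.rt J k / s)) ^ 4) ∧
    ∀ (F : St → ℂ) U, Per (G.N J) U → ∑ ω ∈ (G.gx J k s i B Y).Om,
      F ((s : ℤ) • ω.1) * B.w ω.2 * (G.gx J k s i B Y).wo (G.N J) ω U =
        ∑ z ∈ box (G.N J / s / 2), F ((s : ℤ) • z) * B.ob (G.N J) (sh ((s : ℤ) • z) U) := by
  obtain ⟨u, hu⟩ := w.dv
  obtain ⟨R, hR, hr⟩ := w.rad
  have hk := w.lt
  have r0 : 0 < G.rt J k := pow_pos three_pos _
  have s0 : 0 < s := Nat.pos_of_mul_pos_right (hu ▸ r0)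
  have hn : G.N J = s * (u * G.N k) := by rw [← h.rt_N hk.le, hu, mul_assoc]
  have hn' : G.N J / s = u * G.N k := by rw [hn, Nat.mul_div_cancel_left _ s0]
  have o' : Odd (G.N J / s) := by
    rw [hn']
    exact (Nat.odd_mul.1 (hn ▸ h.N_odd J)).2
  have hD : (G.p k).D = 20 * G.L k ^ G.K0 := rfl
  have hR' : (G.p k).R = 4 * G.L k ^ G.K0 := rfl
  have K1 : 1 ≤ G.L k ^ G.K0 := Nat.one_le_pow _ _ (by linarith [h.L_big k])
  have big : ∀ j, k ≤ j → 400 * (3 : ℝ) ^ c ≤ G.Q j := fun j hj =>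
    le_trans (by exact_mod_cast w.big.trans ((h.L_mono hj).trans
      (Nat.le_mul_of_pos_right _ (pow_pos (by linarith [h.L_big j]) _)))) (h.L_Q j)
  have c0 : ∀ z : St, nearT (G.N J) (G.rt J k)
      ((G.rt J k : ℤ) • fun μ => s * z μ / G.rt J k) ((s : ℤ) • z) := fun z =>
    near_quo r0 _ ((s : ℤ) • z)
  have x0 : ∀ (z y : St), y ∈ tb (G.N k) (i * (G.p k).D) {fun μ => s * z μ / G.rt J k} →
      rc (G.N k) y = y ∧ nearT (G.N J) (G.rt J k * (i * (G.p k).D + 1)) ((s : ℤ) • z)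
        ((G.rt J k : ℤ) • y) := fun z y hy => ⟨(mem_tb_single.1 hy).1,
    ((c0 z).symm.trans (h.near_rt hk.le (mem_tb_single.1 hy).2)).mono (by
      rw [mul_add, mul_one, add_comm])⟩
  have v0 : ∀ (z : St) x l, trS (G.N J) ((s : ℤ) • z) (B.V x l) ⊆ tb (G.N J) R {(s : ℤ) • z} :=
    fun z x l y hy => by
      obtain ⟨v, hv, rfl⟩ := mem_image.1 hy
      exact mem_tb_single.2 ⟨rc_rc _ _, nearT_rc_right.2 (add_comm v _ ▸ nearT_add (hR x l hv))⟩
  refine ⟨⟨hk, w.card, w.C0, w.dR, le_trans (by gcongr; norm_num) (big k le_rfl),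
    fun j h1 h2 => ⟨one_le_two, le_trans (le_of_eq (by norm_num)) (big j h1.le), (w.rd j h1 h2).1,
      fun _ => one_pos, fun e => ⟨by exact_mod_cast (w.rd j h1 h2).2 e, fun _ => by norm_num⟩⟩,
    fun ω _ => ⟨⟨_, mem_tb_single.2 ⟨rc_rc _ _, nearT_rc_right.2 (nearT.refl _ _ _)⟩⟩,
      tb_mono Subset.rfl (Nat.sub_le _ _), (tb_tb _).subset.trans (tb_mono Subset.rfl (by omega)),
      fun y hy => (x0 _ y hy).1 ▸ h.mem_zs k hk.le y (rc_mem (h.N_odd J) _),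
      (tau_big (by omega) i _).trans w.tau⟩,
    fun ω l => (w.sup ω.2 l).1.tr _, fun _ _ _ => ⟨rfl, rfl, rfl⟩,
    fun ω _ l => ⟨Kp.trS_sub (h.N_odd J), fun y hy => ?_, w.lc ω.2 l _⟩, fun _ => h.rx_zero t,
    fun j h1 h2 ω _ => h.zs_cls (j := k + 1) (fun x hx y hy e => sep_tr (w.sep ω.2 x hx y hy e) _)
      (by positivity) ?_ h1 h2,
    ⟨fun _ _ _ _ e => (e rfl).elim, fun _ _ _ _ _ _ _ e => (e rfl).elim⟩, ⟨hA, hY⟩,
    fun _ _ _ e => (e rfl).elim⟩,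
    ⟨fun ω l => ⟨(w.sup ω.2 l).2.tr _, Complex.ofReal_im _⟩, fun v =>
      ⟨_, bij_rc o' (-((u : ℤ) • v)), fun ω _ => ?_⟩, fun ω _ =>
      ⟨_, mem_tb_single.2 ⟨rc_rc _ _, nearT_rc_right.2 (nearT.refl _ _ _)⟩, ?_⟩⟩,
    fun ω _ => ⟨G.rt J k * (i * (G.p k).D + 1), ?_, fun l => (v0 _ _ l).trans
      (tb_mono Subset.rfl ?_), fun y hy => (x0 _ y hy).1 ▸ h.mem_zs k hk.le y
        (mem_tb_single.2 ⟨rc_rc _ _, nearT_rc_right.2 (x0 _ y hy).2⟩)⟩, fun y => ?_,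
    fun F U hU => ?_⟩
  · obtain ⟨x, hx, a⟩ := h.zs_up k hk.le y hy
    rw [zs_step hk (G.top0 0 0)] at hy
    have a1 := ((c0 ω.1).trans (mem_tb_single.1 (v0 _ _ l hx)).2).trans a
    rw [← h.rt_N hk.le] at a1
    refine mem_tb_single.2 ⟨(mem_nxt.1 hy).1, (near_div r0 a1).mono ?_⟩
    rw [Nat.add_mul_div_left _ _ r0, add_comm _ R, Nat.add_div_right _ r0]
    have := Nat.div_le_div_right (c := G.rt J k) (Nat.le_add_right R 1)
    omega
  · have := mul_nonneg (pow_nonneg (Nat.cast_nonneg (α := ℝ) (G.L (k + 1))) G.K0)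
      (Nat.cast_nonneg (α := ℝ) (G.rt J (k + 1)))
    rw [ds]
    push_cast
    linarith
  · obtain ⟨q, hq⟩ := rc_exists (G.N J / s) (ω.1 + -((u : ℤ) • v))
    have e1 : (s : ℤ) • rc (G.N J / s) (ω.1 + -((u : ℤ) • v)) + (G.rt J k : ℤ) • v =
        (s : ℤ) • ω.1 + (G.N J : ℤ) • q := by
      rw [hq, hn', hn, hu]
      push_cast
      module
    have e2 : rc (G.N k) ((fun μ => s * rc (G.N J / s) (ω.1 + -((u : ℤ) • v)) μ / G.rt J k) + v) =
        rc (G.N k) fun μ => s * ω.1 μ / G.rt J k := by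
      rw [← rc_add_smul _ (fun μ => s * ω.1 μ / G.rt J k) q]
      refine congrArg _ (funext fun μ => ?_)
      have := congrFun e1 μ
      simp only [Pi.add_apply, Pi.smul_apply, smul_eq_mul] at this ⊢
      rw [← Int.add_mul_ediv_left _ _ (Nat.cast_ne_zero.2 r0.ne'), this,
        ← Int.add_mul_ediv_left _ _ (Nat.cast_ne_zero.2 r0.ne'), ← mul_assoc, ← Nat.cast_mul,
        h.rt_N hk.le]
    refine ⟨rfl, rfl, funext fun l => ?_, tb_tr e2, tb_tr e2, by rw [e1, rc_add_smul]⟩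
    simp only [gx, sxT_sxT]
    rw [← sxT_per (w := q), eq_sub_of_add_eq e1]
    refine congrArg (sxT _ · _) ?_
    module
  · obtain ⟨q, hq⟩ := rc_exists (G.N k) fun μ => s * ω.1 μ / G.rt J k
    rw [hq, smul_per, h.rt_N hk.le]
    exact ((near_per q).2 (c0 ω.1).symm).symm
  · have := w.num h
    rw [mul_comm (G.Q k), Nat.cast_mul]
    refine mul_le_mul_of_nonneg_left (le_trans (Nat.cast_le.2 ?_) this) (Nat.cast_nonneg _)
    omega
  · have a1 := Nat.lt_mul_div_succ (R + 1) r0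
    have a2 := Nat.mul_le_mul_left (G.rt J k) (show (R + 1) / G.rt J k + 1 ≤ i * (G.p k).D + 1 by
      omega)
    omega
  · refine (sum_le_sum_of_subset_of_nonneg (t := tb (G.N J / s) (u * (i * (G.p k).D + 1))
      {(u : ℤ) • y} ×ˢ univ) (fun ω hω => ?_) fun _ _ _ => abs_nonneg _).trans ?_
    · obtain ⟨h1, h2⟩ := mem_filter.1 hω
      have a := (x0 _ y h2).2
      rw [hn, hu, Nat.cast_mul, mul_smul, mul_assoc] at a
      have a' := near_div s0 a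
      rw [Nat.mul_div_cancel_left _ s0, ← hn'] at a'
      exact mem_product.2 ⟨mem_tb_single.2 ⟨rc_eq o' (mem_product.1 h1).1, a'.symm⟩, mem_univ _⟩
    · have u0 : 0 < u := Nat.pos_of_mul_pos_left (hu ▸ r0)
      have a1 : ((2 * (u * (i * (G.p k).D + 1)) + 1 : ℕ) : ℝ) ≤ G.Q k * u :=
        le_trans (by exact_mod_cast (by nlinarith : 2 * (u * (i * (G.p k).D + 1)) + 1 ≤
          (2 * (i * (G.p k).D) + 3) * u)) (mul_le_mul_of_nonneg_right (w.num h) u.cast_nonneg)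
      rw [sum_product' (f := fun _ x => |B.w x|), sum_const, nsmul_eq_mul, mul_comm, hu, Nat.cast_mul,
        mul_div_cancel_left₀ _ (Nat.cast_ne_zero.2 s0.ne')]
      refine mul_le_mul_of_nonneg_left ((Nat.cast_le.2 (card_tb_le _ _ _)).trans ?_)
        (sum_nonneg fun _ _ => abs_nonneg _)
      rw [card_singleton, one_mul, Nat.cast_pow]
      exact pow_le_pow_left₀ (Nat.cast_nonneg _) a1 4
  · rw [show (G.gx J k s i B Y).Om = box (G.N J / s / 2) ×ˢ univ from rfl, sum_product]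
    refine sum_congr rfl fun z _ => ?_
    rw [Wo.ob, mul_sum]
    refine sum_congr rfl fun x _ => ?_
    rw [mul_assoc]
    refine congrArg (fun y : ℂ => F ((s : ℤ) • z) * (B.w x * y)) (prod_congr rfl fun l _ => ?_)
    rw [← xO_tr (h.N_odd J) (per_sh' hU ((s : ℤ) • z)) (-((s : ℤ) • z)), sh_sh, neg_add_cancel,
      sh_zero]
    rfl

end Gl

end Pool.Agent.Lib.MP_7f377f_mp.RG.Q4.En
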