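import Pool.Agent.Lib.MP_7f377f_mp.G.CaT
import Pool.Agent.Lib.MP_7f377f_mp.G.CaKW

/-! Words on a grid and letters of the block field as local maps; mirror images. -/

noncomputable section

set_option linter.unusedSectionVars false
variable [Pool.Agent.Lib.MP_7f377f_mp.GD]

namespace Pool.Agent.Lib.MP_7f377f_mp.RG.Q4.En

open Finset Function Sg Real Pos Mg Filter YM7
open Wd (Let mir rE sE)
open scoped Classical

variable {ι κ α : Type} [Fintype ι] [DecidableEq ι] [Fintype κ] [DecidableEq κ] [Inhabited κ]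
  [Fintype α]

/-- the sign of the words under a product of reflections -/
def sC (χ ε : Fin 4 → Bool) : ℝ := ∏ μ, if χ μ && ε μ then -1 else 1

theorem abs_sC (χ ε : Fin 4 → Bool) : |sC χ ε| = 1 := by
  rw [sC, abs_prod]
  exact prod_eq_one fun _ _ => by split_ifs <;> simp

/-- a multiple of the words -/
def Wo.sm (B : Wo ι κ) (t : ℝ) : Wo ι κ := { B with w := fun x => t * B.w x }

/-- the sum of the words over the grid of mesh `s` -/
def Wo.gs (B : Wo ι κ) (n s : ℕ) (F : St → ℂ) (U : Conf) : ℂ :=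
  ∑ z ∈ box (n / s / 2), F ((s : ℤ) • z) * B.ob n (sh ((s : ℤ) • z) U)

/-- words with the signs `χ` under the reflections -/
def Wo.Cv (B : Wo ι κ) (n : ℕ) (χ : Fin 4 → Bool) : Prop :=
  ∀ μ U, Per n U → B.ob n (Ty.cf (.inr μ) U) = (Ty.sb (χ μ) : ℂ) * B.ob n U

theorem sC_upd (χ ε : Fin 4 → Bool) (μ : Fin 4) :
    sC χ (update ε μ !ε μ) = sC χ ε * Ty.sb (χ μ) := by
  rw [sC, sC, ← mul_prod_erase _ _ (mem_univ μ), ← mul_prod_erase _ _ (mem_univ μ), mul_right_comm,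
    prod_congr rfl fun ν e => by rw [update_of_ne (ne_of_mem_erase e)], update_self]
  cases χ μ <;> cases ε μ <;> simp [Ty.sb]

theorem Wo.ob_sm (B : Wo ι κ) (t : ℝ) (n : ℕ) (U : Conf) : (B.sm t).ob n U = t * B.ob n U := by
  simp only [Wo.ob, Wo.sm, mul_sum, Complex.ofReal_mul, mul_assoc]

theorem Wo.gs_sm (B : Wo ι κ) (t : ℝ) (n s : ℕ) (F : St → ℂ) (U : Conf) :
    (B.sm t).gs n s F U = t * B.gs n s F U := by
  simp only [Wo.gs, Wo.ob_sm, mul_sum, mul_left_comm]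

theorem Wo.Cv.gs {B : Wo ι κ} {n : ℕ} {χ : Fin 4 → Bool} (h : B.Cv n χ) (s : ℕ) (F : St → ℂ)
    (μ : Fin 4) {U : Conf} (hU : Per n U) : B.gs n s F (Ty.cf (.inr μ) U) =
      Ty.sb (χ μ) * B.gs n s (fun x => F (update x μ (-x μ))) U := by
  rw [Wo.gs, Wo.gs, mul_sum, ← Wd.sum_gv (Wd.rf μ) _ fun z => _ * (F _ * _)]
  refine sum_congr rfl fun z _ => ?_
  rw [Wd.cf_pb, Wd.sh_pb, ← Wd.cf_pb, h μ _ (per_sh' hU _), mul_left_comm, ← Wd.gv_smul,
    ← Wd.gv_rf]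
  exact congrArg (fun x => _ * (F x * _)) (Wd.gv_inv (Wd.rf μ) _).symm

theorem sm_rf (n : ℕ) (X : Let) (F : St → ℂ) (μ : Fin 4) (U : Conf) (t : ℂ) :
    Wd.sm n (Wd.act (Wd.rf μ) X) (fun x => t * F (update x μ (-x μ))) U =
      t * Wd.sm n X F (Ty.cf (.inr μ) U) := by
  rw [Wd.sm_act, Wd.cf_pb, ← Wd.sm_smul']
  exact congrArg (Wd.sm n X · _) (funext fun x => by simp [Wd.gv_rf])

namespace Gl

section
variable (G : Gl) (b : ℝ) (J k s i : ℕ) (B : Wo ι κ)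

/-- the mirror images of the field `gv` -/
def gm (χ : Fin 4 → Bool) (T : Option (Fin 4) → Let) (c0 : ℝ) (Y : α → Let)
    (o : α → Option (Fin 4)) (c : α → ℝ) (ε : Fin 4 → Bool) : Vf (St × ι) κ α :=
  G.gv J k s i (B.sm (sC χ ε)) (mir ε T) c0 (fun x => Wd.act (rE ε) (Y x)) o fun x => sE ε (o x) * c x

/-- the direction of the words -/
def gwd (F : St → ℂ) : Lx × Ac := (0, ∑ ω ∈ box (G.N J / s / 2) ×ˢ univ, (F ((s : ℤ) • ω.1) * B.w ω.2) •
  G.wX b J k (G.gx J k s i B (Empty.elim : Empty → Let)) ω)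

/-- the direction of a letter of the block field -/
abbrev bl (X : Let) (F : St → ℂ) : Lx × Ac := G.cl b J k X (G.fd J k F)

/-- the weight of the words in a block -/
def ww : ℝ := (∑ x, |B.w x|) * (G.Q k * (G.rt J k / s)) ^ 4

end

variable {G : Gl} {b C A N y w c0 : ℝ} {J k j l s i c d : ℕ} {σ : ℕ → ℝ} {B : Wo ι κ} {X : Let}
  {χ : Fin 4 → Bool} {T : Option (Fin 4) → Let} {Y : α → Let} {o : α → Option (Fin 4)} {e : α → ℝ}
  {u : Lx × Ac} {P : Tj → Prop} {F : St → ℂ}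

theorem gm_zero : G.gm J k s i B χ T c0 Y o e 0 = G.gv J k s i B T c0 Y o e := by
  have : ∀ o, sE 0 o = 1 := fun o => by cases o <;> simp [sE]
  simp [gm, sC, Wo.sm, Wd.mir_zero, Wd.rE_zero, Wd.act_one, this]

theorem Wg.mul (W : G.Wg b J k s i c d C σ B) (t : ℝ) : G.Wg b J k s i c d C σ (B.sm t) :=
  ⟨W.lt, W.dv, W.rad, W.sup, W.lc, W.sep, W.card, W.tau, W.big, W.C0, W.dR, W.rd⟩

theorem ww_sC (ε : Fin 4 → Bool) : G.ww J k s (B.sm (sC χ ε)) = G.ww J k s B := by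
  simp [ww, Wo.sm, abs_mul, abs_sC]

theorem gw_sm (t : ℝ) : G.gwd b J k s i (B.sm t) F = (t : ℂ) • G.gwd b J k s i B F := by
  simp only [gwd, Prod.smul_mk, smul_zero, smul_sum, smul_smul, mul_left_comm (t : ℂ),
    ← Complex.ofReal_mul]
  rfl

/-- the direction of the field -/
theorem vT_gv (S : Tj) : G.vT b J k (G.gv J k s i B T c0 Y o e) S =
    G.tn b J (G.xv b J ((G.gv J k s i B T c0 Y o e).P (G.N J) S)) J k + G.gwd b J k s i B (S none) +
      ∑ x, (e x : ℂ) • G.bl b J k (Y x) (S (o x)) := rfl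

/-- uniform sizes of finitely many letters and of their images -/
theorem lg_fam (Y : α → Let) : ∃ r, ∃ A > 0, ∀ d ≥ r, (∀ g x, Wd.Rad d (Wd.act g (Y x))) ∧
    ∀ (G : Gl) k, G.Ok → d ≤ (G.p k).R → A ≤ G.Q k → ∀ g x, G.Lg k d A (Wd.act g (Y x)) := by
  choose r hr using fun x => Wd.exists_rad (Y x)
  have a := fun g x => ((hr x).mono (le_sup (f := r) (mem_univ x))).act g
  choose A A0 H using fun z : Wd.B4 × α => lg_ex (a z.1 z.2)
  have e : ∀ z, A z ≤ 1 + ∑ z, A z := fun z => (single_le_sum (fun z _ => (A0 z).le)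
    (mem_univ z)).trans (le_add_of_nonneg_left zero_le_one)
  refine ⟨_, 1 + ∑ z, A z, add_pos_of_pos_of_nonneg one_pos (sum_nonneg fun z _ => (A0 z).le),
    fun d hd => ⟨fun g x => (a g x).mono hd, fun G k h u v g x => ?_⟩⟩
  obtain ⟨c1, c2, c3⟩ := H (g, x) G k h (le_trans hd u) ((e _).trans v)
  exact ⟨c1.mono hd, fun U => (c2 U).trans (e _), PM.mono (h.ρ0 k) c3 (e _) (e _)
    (mul_le_mul_of_nonneg_right (e _) (pow_pos (h.ρ0 k) 3).le)⟩

namespace Ok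

variable (h : G.Ok)
include h

theorem s1_om1 (a : G.S1 G.om l N u) : G.S1 (fun l => (G.Q l ^ 100)⁻¹) l N u :=
  h.sz_le a (h.om0 l).le le_rfl le_rfl (h.om_mono l (by norm_num))

variable (t : G.Tu b J) (hp : G.Pu)
include t hp

/-- letters of the block field -/
theorem lr_bl (hk : k ≤ J) (hd : d ≤ (G.p k).R) (hA : A ≤ G.Q k) (hX : G.Lg k d A X)
    (hr : Wd.Re X) : G.Lr J k (G.p k).D (G.om k) A (G.bl b J k X) ∧
    (G.Tx b J k A A (G.bl b J k X 1) fun U => -Wd.sm (G.N k) X 1 U * G.f b J k U) ∧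
    (Wd.Od X → G.Oi b J k (G.bl b J k X 1)) :=
  have a := h.tw_cl t hp hk hd hA hX hr
  ⟨⟨h.lop_cl t hp hk hd hA hX (h.om_mono k (by norm_num)), fun _ _ _ u v =>
    h.cl_real t hp hk hd hA hX hr (fun _ => u _) fun _ => v _⟩, a, fun o => h.oi_sm t o a⟩

end Ok

theorem Ok.ta_sum (h : G.Ok) (hk : k ≤ J) {P : α → Conf → ℂ} (hP : ∀ x, Continuous (P x))
    (c : α → ℂ) (A : Finset α) : G.ta (fun W => ∑ x ∈ A, c x * P x W) J k =
      fun U => ∑ x ∈ A, c x * G.ta (P x) J k U := by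
  induction A using Finset.cons_induction with
  | empty =>
    simpa [h.ta_one hk] using h.ta_lin hk (P := fun _ => 1) (P' := fun _ => 1)
      (bc_cont continuous_const) (bc_cont continuous_const) (-1)
  | cons a A ha ih =>
    simp only [sum_cons, add_comm (c a * _)]
    rw [h.ta_lin hk (P := fun W => ∑ x ∈ A, c x * P x W) (bc_cont (by fun_prop)) (bc_cont (hP a)), ih]

namespace Wg

variable (W : G.Wg b J k s i c d C σ B) (h : G.Ok) (t : G.Tu b J)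
include W h t

theorem Y_gv (S : Tj) {U : Conf} (hU : Per (G.N J) U) :
    (G.gv J k s i B T c0 Y o e).Y (G.N J) S U = B.gs (G.N J) s (S none) U -
      ∑ o, Wd.sm (G.N J) (T o) (S o) U - c0 * Wd.sm (G.N J) Wd.phS (S none) U := by
  rw [Vf.Y, Vf.xO_P' (h.N_odd J) hU, Wo.gs, ← (W.ok h t (Y := (Empty.elim : Empty → Let))
    le_rfl (·.elim)).2.2.2.2 _ U hU, neg_add_eq_sub, sub_add_eq_sub_sub]
  rfl

/-- the observable of the field -/
theorem vO_gv (S : Tj) {U : Conf} (hU : Per (G.N J) U) :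
    G.vO J k (G.gv J k s i B T c0 Y o e) S U = B.gs (G.N J) s (S none) U -
      ∑ o, Wd.sm (G.N J) (T o) (S o) U - c0 * Wd.sm (G.N J) Wd.phS (S none) U -
        ∑ x, e x * G.ta (Wd.sm (G.N k) (Y x) (G.fd J k (S (o x)))) J k U := by
  have := h.ta_sum W.lt.le (fun x => Wd.sm_cont (G.N k) (Y x) (G.fd J k (S (o x))))
    (fun x => -e x) univ
  simp only [neg_mul, sum_neg_distrib] at this
  rw [vO, W.Y_gv h t S hU, sub_eq_add_neg _ (∑ x, _ * _), ← congrFun this U]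
  rfl

theorem gm_vr (hχ : B.Cv (G.N J) χ) : G.Vr J k (G.gm J k s i B χ T c0 Y o e) := by
  refine fun ε μ S _ => ⟨fun U hU => ?_, fun U _ => ?_⟩
  · rw [gm, gm, (W.mul _).Y_gv h t _ hU, (W.mul _).Y_gv h t _ (per_cf hU _), Wo.gs_sm, Wo.gs_sm,
      hχ.gs s _ μ hU, sC_upd, ← one_mul (Wd.sm _ Wd.phS _ (Ty.cf _ U)), ← sm_rf, Wd.act_phS]
    unfold Tj.rf
    simp only [mir, Wd.rE_upd, Wd.act_mul, Wd.sm_smul, ← Wd.sE_upd ε μ, sm_rf]
    simp only [apply_ite ((↑) : ℝ → ℂ), Complex.ofReal_mul, Complex.ofReal_neg, Complex.ofReal_one,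
      Complex.ofReal_intCast, mul_assoc, reduceCtorEq, if_false, one_mul]
  · refine congrArg _ (sum_congr rfl fun x _ => ?_)
    simp only [gm, gv, gx, Wd.rE_upd, Wd.act_mul, ← Wd.sE_upd ε μ]
    rw [show G.fd J k (S.rf μ (o x)) = fun y => (if o x = some μ then -1 else 1) *
      G.fd J k (S (o x)) (update y μ (-y μ)) from funext fun y => by
        simp only [fd, Tj.rf, ← Wd.gv_rf, Wd.gv_smul], sm_rf]
    split_ifs <;> simp

/-- the words as a local map -/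
theorem lr_gw (hp : G.Pu) (y0 : 0 < y)
    (hy : 4 * G.cM k c C * G.ww J k s B * G.Q k ^ 280 * G.bb k ≤ y * σ (k + 1) ^ Fintype.card κ) :
    G.Lr J k 1 (G.om k) y (G.gwd b J k s i B) ∧
    (∃ f, BC f ∧ (∀ U, Per (G.N J) U → f U = B.gs (G.N J) s 1 U) ∧ G.Tx b J k y y
      (G.gwd b J k s i B 1) (G.tt (fun U => wil b (G.N J) U * f U) J k)) ∧
    (B.Cv (G.N J) χ → Ty.sb (χ 0) * Ty.sb (χ 1) * Ty.sb (χ 2) * Ty.sb (χ 3) = -1 →
      G.Oi b J k (G.gwd b J k s i B 1)) := by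
  obtain ⟨M, I, -, hw, id⟩ := W.ok h t (Y := (Empty.elim : Empty → Let)) (h.Q1 k) fun x => x.elim
  have m0 : 0 < 4 * G.cM k c C * G.Q k ^ 280 * G.bb k := by
    have := h.Q0 k
    have := h.b0 k
    unfold cM
    positivity
  have W0 := div_pos (mul_pos y0 (pow_pos (W.rd _ k.lt_succ_self W.lt).1 (Fintype.card κ))) m0
  have hw' := fun y => (hw y).trans ((le_div_iff₀ m0).2 (le_of_eq_of_le (by rw [ww]; ring) hy))
  have hy' := (le_div_iff₀ m0).1 (le_refl (y * σ (k + 1) ^ Fintype.card κ / _))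
  have tw := M.tw h t hp I hw' W0 (le_of_eq_of_le (by ring) hy') y0.le
  have wb : BC fun U => (wil b (G.N J) U : ℂ) := f_top (G := G) b J ▸ f_meas h t J
  have e' : G.gwd b J k s i B 1 = (0, ∑ ω ∈ (G.gx J k s i B (Empty.elim : Empty → Let)).Om,
      (B.w ω.2 : ℂ) • G.wX b J k (G.gx J k s i B (Empty.elim : Empty → Let)) ω) := by
    simp only [gwd, Pi.one_apply, one_mul]
    rfl
  have e : ∀ U, Per (G.N J) U → _ = B.gs (G.N J) s 1 U := id 1
  simp only [Pi.one_apply, one_mul] at e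
  have bf : BC fun U => ∑ ω ∈ (G.gx J k s i B (Empty.elim : Empty → Let)).Om,
      B.w ω.2 * (G.gx J k s i B (Empty.elim : Empty → Let)).wo (G.N J) ω U :=
    (bc_sum (fun ω hω => Br.gi_bc (.prod fun l _ =>
      let ⟨_, _, o, _⟩ := (M.lt' ω hω l).2.2.1.1
      Br.gi_comp (gi_xO o) (φ := fun z => -z - B.a ω.2 l) (by fun_prop))) _)
  refine ⟨⟨M.lop h t hp I hw' W0 (le_of_eq_of_le (by ring) hy'), fun F _ _ _ hF =>
    ⟨fun _ _ _ _ => rfl, fun X c U => ?_⟩⟩, ⟨_, bf, e, e' ▸ tw⟩, fun hχ p => ⟨_, _, _, e' ▸ tw,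
      tt_meas (bc_mul wb bf).1 W.lt.le, Sgn.od4 (h.sgn_tt (T := Ty.rf _ _ _ _) (bc_mul wb bf).1
        (fun g hg U hU => ?_) W.lt.le) (List.Subset.refl _) p⟩⟩
  · simp only [gwd, Finset.sum_apply, Complex.im_sum]
    refine sum_eq_zero fun ω hω => ?_
    simp [hF, M.real h t hp hω (fun l => (I.re ω l).1) (fun l => (I.re ω l).2) X c U]
  · obtain ⟨μ, rfl⟩ : ∃ μ, g = (.inr μ, χ μ) := by
      simp only [Ty.rf, List.mem_cons, List.not_mem_nil, or_false] at hg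
      rcases hg with a | a | a | a <;> exact ⟨_, a⟩
    beta_reduce
    rw [wil_cf (h.N_odd J) hU, e _ hU, e _ (per_cf hU _), hχ.gs s 1 μ hU, mul_left_comm]
    rfl

/-- the hypotheses of the chessboard bound -/
theorem vk (hA : A ≤ G.Q k) (hY : ∀ x, G.Lg k d A (Y x) ∧ Wd.Re (Y x))
    (hT : ∀ o, Wd.Rad d (T o) ∧ Wd.Re (T o)) (w0 : 0 < w)
    (wt : G.Q k ^ 331 * (G.cM k c C * G.ww J k s B) ≤
      σ (k + 1) ^ Fintype.card κ * (w * G.rt k j ^ 2))
    (ok : ∀ S, P S → ∃ a M, ((G.gv J k s i B T c0 Y o e).P (G.N J) S).Ok (G.p J) d a M ∧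
      a + M ≤ w * G.rt k j ^ 2 * 2 ^ (J - k))
    (cf : ∀ S, P S → ∀ y, G.Q k ^ 400 * ∑ x, |e x| * ‖G.fd J k (S (o x)) y‖ ≤ w * G.rt k j ^ 2)
    (top : ∀ S, P S → ∀ l, k < l → l ≤ J → G.S1 G.om l (w * G.rt k j ^ 2 * 2 ^ (l - k))
      (G.tn b J (G.xv b J ((G.gv J k s i B T c0 Y o e).P (G.N J) S)) J l))
    (low : ∀ S, P S → ∀ l, j ≤ l → l ≤ k → G.S1 G.om l (w * G.rt l j ^ 2)
      (G.tn b J (G.vT b J k (G.gv J k s i B T c0 Y o e) S) k l)) :
    G.Vk b J k j c d C A σ P (G.gv J k s i B T c0 Y o e) w :=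
  have a := W.ok h t hA fun x => (hY x).1
  ⟨w0, a.1, ⟨_, a.2.2.2.1, wt⟩, hT, ok, a.2.1, a.2.2.1, fun x => (hY x).2, cf,
    fun S p l x y => h.s1_om1 (top S p l x y), fun S p l x y => h.s1_om1 (low S p l x y)⟩

end Wg

/-- the radii of the letters are large -/
theorem Ok.sx_ge (h : G.Ok) (k : ℕ) :
    G.bb k ≤ G.Q k ^ 2400 * G.sx k (k + 1) ^ Fintype.card κ := by
  have q := pow_pos (h.Q0 (k + 1)) 1200
  have c : G.Q (k + 1) ^ 1 ≤ G.Q k ^ (1 + 1) := (h.sd_all k (G.top0 0 0)).nu.QM_pow' (by omega)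
  have e : G.Q (k + 1) ^ 1200 ≤ G.Q k ^ 2400 := by
    simpa only [← pow_mul] using pow_le_pow_left₀ (pow_pos (h.Q0 _) 1).le c 1200
  have a : 1 ≤ G.sg (k + 1) := (one_le_div q).2
    ((pow_le_pow_right₀ (h.Q1 _) (by norm_num)).trans (h.Qb _))
  rw [sx, Nat.sub_self, pow_zero, div_one]
  calc _ ≤ G.Q (k + 1) ^ 1200 * G.sg (k + 1) :=
        (h.b_mono k.le_succ).trans_eq (mul_div_cancel₀ _ q.ne').symm
    _ ≤ _ := mul_le_mul e (le_self_pow₀ a Fintype.card_ne_zero) (by linarith) (q.le.trans e)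

/-- words of weight `W` which transform like the component `0` of a vector -/
structure Wh (G : Gl) (β : ℕ × ℕ → ℝ) (p : ℕ × ℕ) (k s i c r : ℕ) (C W : ℝ) (B : Wo ι κ) : Prop where
  wg : (G.wm p.1).Wg (β p) p.2 k s i c r C (G.sx k) B
  w0 : 0 < W
  wt : (∑ x, |B.w x|) * ((G.rt p.2 k : ℝ) / s) ^ 4 ≤ W * 3 ^ G.e k
  bc : BC (B.ob (G.nn p))
  cov : ∀ g ∈ Wd.KK 0, ∀ U, Per (G.nn p) U →
    B.ob (G.nn p) (Wd.pb Inv.inv g U) = Wd.sg 0 g * B.ob (G.nn p) U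

end Gl

end Pool.Agent.Lib.MP_7f377f_mp.RG.Q4.En
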