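import Pool.Agent.Lib.MP_7f377f_mp.G.CaKB0
import Pool.Agent.Lib.MP_7f377f_mp.G.CaKL
import Pool.Agent.Lib.MP_7f377f_mp.G.StW2

/-! Upper bounds and letters of the block field. -/

noncomputable section

open Pool.Agent.Lib.MP_7f377f_mp.Jet

set_option linter.unusedSectionVars false
variable [Pool.Agent.Lib.MP_7f377f_mp.GD]

namespace Pool.Agent.Lib.MP_7f377f_mp.RG.Q4.En.Gl

open Finset Function Sg Real Pos Mg Filter YM7 Topology
open Wd (Let evG lx sm)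
open Pur (mon Pol)

variable {G : Gl} {b A N : ℝ} {J i j k l d : ℕ} {X Y : Let} {T : Ty.Ty} {u : Lx × Ac} {F : St → ℂ}

theorem Ok.tn_sm (h : G.Ok) (t : G.Tu b J) (hi : i ≤ J) (a : G.S1 G.om i N u) (c : ℂ) :
    ∀ l ≤ i, G.tn b J (c • u) i l = c • G.tn b J u i l :=
  dw_ind (by rw [Gl.tn_top, Gl.tn_top]) fun l hl ih => by
    obtain ⟨s1, s2, -⟩ := h.tw_tg t (hl.trans_le hi)
    have d := s2.dir (h.sd_all l _).nu (h.sz_fine _ (h.s1_grow t hi (h.s1_mono (fun k => (h.om0 k).le)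
      a (le_add_of_nonneg_right zero_le_one)) (by linarith [h.s1_nn a]) _ hl))
    rw [Gl.tn_step hl, Gl.tn_step hl, ih]
    exact Prod.ext (by simpa [sub_smul, ts] using pl_sub s1 d d (1 - c)) (dK_smul ..)

theorem Ok.lv_sm (h : G.Ok) (t : G.Tu b J) (a : G.S1 G.om J N (G.lv b J J X F)) (c : ℂ) (hl : l ≤ J) :
    G.lv b J l X (c • F) = c • G.lv b J l X F := by
  rw [lv, Gl.tn_top] at a
  rw [lv, lW_smul, lv, ← h.tn_sm t le_rfl a c l hl]
  exact congrArg (G.tn b J · J l) (map_smul (G.xvL b J) ..)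

/-- a local map of a type of multiplicity one is a multiple of a letter up to a contracting
direction -/
theorem lk_lop (hX : Tm T X) (hd : Wd.Rad d X) : ∃ C ≥ (1 : ℝ), ∀ (G : Gl) b J k N (ρ : ℕ) Φ f, G.Ok →
    G.Tu b J → G.Pu → d ≤ (G.p k).R → C ≤ G.L (k - 1) → 0 < k → k ≤ J → 0 < N → ρ ≤ G.Q k →
    G.Lop J k ρ (G.om k) N Φ → G.Tx b J k N N (Φ 1) f → BC f → Sgn (G.N k) T f →
    ∃ r : ℝ, |r| * G.xk b J k X ≤ C * N ∧ |r| ≤ C * N * 2 ^ (J - k) ∧ ∀ F a, PS (G.N J) F →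
      (∀ x, ‖F x‖ ≤ 1) → LipT (G.N J) a F → 0 < a → a * 3 ^ G.e J ≤ 1 →
      (∀ l, k ≤ l → l ≤ J → G.S1 G.om l (G.Q k ^ 5 * N * 2 ^ (l - k)) (G.lv b J l X ((r : ℂ) • F))) ∧
      ∀ l, 0 < l → l ≤ k → G.S1 G.om l (G.Q k ^ 5 * N * G.cP l k)
        (G.tn b J (G.lv b J k X ((r : ℂ) • F) + Φ F) k l) := by
  obtain ⟨C1, c1, H1⟩ := norm' hd hX.re hX.ne
  obtain ⟨C2, c2, H2⟩ := link C1
  obtain ⟨e, hD⟩ := hX.det
  refine ⟨C1 + C2, by linarith, fun G b J k N ρ Φ f h t hp dR hC k0 hk N0 hρ L tx bf sf => ?_⟩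
  have L1 : (G.L (k - 1) : ℝ) ≤ G.Q k := (h.LQ _).trans (h.Q_mono (Nat.sub_le ..))
  have q := h.cQ k (C := 100) (by norm_num)
  have qC : C2 ≤ G.Q k := by linarith
  have ω0 := fun k => (h.om0 k).le
  obtain ⟨n1, n2, n3⟩ := H1 G b J k h t hp dR (by linarith) hk
  have x0 : 0 < C1 * G.xk b J k X := (mul_pos_iff_of_pos_right (by positivity)).1 (one_pos.trans_le n1)
  have wb : BC fun U => (wil b (G.N J) U : ℂ) := f_top (G := G) b J ▸ f_meas h t J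
  have ws : Sym (G.N J) fun U => (wil b (G.N J) U : ℂ) :=
    f_top (G := G) b J ▸ ((h.f_facts J J).1 b t.b0).2.1
  have bl : BC fun U => -sm (G.N J) X 1 U * wil b (G.N J) U :=
    bc_mul (bc_cont (Wd.sm_cont ..).neg) wb
  obtain ⟨z, z1⟩ : ∃ z, z * (C1 * G.xk b J k X) = N := ⟨_, div_mul_cancel₀ _ x0.ne'⟩
  have z0 : 0 < z := pos_of_mul_pos_left (z1 ▸ N0) x0.le
  have t2 := h.tw_sum t hk (s := {()}) (fun _ _ => n2) fun _ => z
  simp only [sum_singleton, abs_of_pos z0, z1] at t2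
  obtain ⟨r, r1, r2⟩ := H2 G b J k N T e _ _ _ _ h t hp hD k0 hk (by linarith) N0 tx t2
    bf ((tt_bc bl hk).cm _) sf (fun g hg U hU => by
      rw [h.sgn_tt bl.1 (hX.ty.sgn_mul ws) hk g hg U hU, mul_left_comm]) (by
      have := nb_comb (φ := ((z : ℂ) • G.lv b J k X 1).1 0) (ψ := 0) (s := 0) (t := z)
        (ψ' := (G.lv b J k X 1).1 0) fun p q =>
        (((n2.sz.1 0).1.smul (h.ρ0 k) z).2 _ _).trans (by simp [qc])
      rw [abs_zero, zero_mul, add_zero, abs_of_pos z0] at this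
      rw [← z1, mul_left_comm]
      exact mul_le_mul_of_nonneg_left this (by linarith))
  have r3 : |-(r * z)| * (C1 * G.xk b J k X) ≤ C2 * N := by
    rw [abs_neg, abs_mul, abs_of_pos z0, mul_assoc, z1]
    gcongr
  have r0 := abs_nonneg (-(r * z))
  refine ⟨-(r * z), ?_, ?_, fun F a hF h1 hL a0 ha => ?_⟩
  · nlinarith [mul_le_mul_of_nonneg_right c1 (mul_nonneg r0 (show 0 ≤ G.xk b J k X from nb_nonneg _))]
  · nlinarith [mul_le_mul_of_nonneg_left n1 r0, mul_le_mul_of_nonneg_right r3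
      (pow_pos two_pos (J - k)).le, show 0 < C1 * N * 2 ^ (J - k) by positivity]
  have s := fun l => h.lv_sm t (n3 F a J hF h1 hL a0 hk le_rfl).2 (-(r * z) : ℝ) (l := l)
  have a1 := h.Q_rt1 hk (ha.trans (by norm_num)) a0.le
  have t0 := h.t0 J k
  have p : 0 < G.rt J k * a := by positivity
  refine ⟨fun l h2 h3 => ?_, fun m m0 hm => ?_⟩
  · rw [s l h3]
    refine h.s1_mono ω0 (h.s1_smul (n3 F a l hF h1 hL a0 h2 h3).2 _) ?_
    calc _ = |-(r * z)| * (C1 * G.xk b J k X) * (2 * G.Q k ^ 2 * (G.Q k * (G.rt J k * a)) + 1) *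
          2 ^ (l - k) := by rw [Complex.norm_real, norm_eq_abs]; ring
      _ ≤ G.Q k * N * (2 * G.Q k ^ 2 * 1 + 1) * 2 ^ (l - k) := by
          gcongr ?_ * (_ * ?_ + _) * _
          exact r3.trans (by gcongr)
      _ = G.Q k * (2 * G.Q k ^ 2 + 1) * N * 2 ^ (l - k) := by ring
      _ ≤ _ := by
          gcongr ?_ * _ * _
          nlinarith [one_le_pow₀ (n := 2) (h.Q1 k), mul_le_mul_of_nonneg_left q (sq_nonneg (G.Q k))]
  have n := h.rt_N hk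
  have e1 := Lop.tayA L (h.ρ0 k) (h.D1' k) (n ▸ hF) (n ▸ hL) a0.le
  have e2 := h.s1_smul (n3 F a k hF h1 hL a0 le_rfl hk).1 (-(r * z) : ℝ)
  have e3 := sz_add (h.ρ0 k) e2 e1
  have E : ‖((-(r * z) : ℝ) : ℂ)‖ * (2 * G.Q k ^ 3 * (G.rt J k * a) * (C1 * G.xk b J k X * 2 ^ (k - k))) +
      4 * (G.rt J k * ((G.p k).D + ρ : ℝ)) * a * N ≤ G.rt J k * a * (10 * G.Q k ^ 4 * N) := by
    have a2 := h.nm k (C := 20) (i := 0) (j := 1) (by norm_num) (by norm_num) (by norm_num)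
    have a3 := le_self_pow₀ (h.Q1 k) four_ne_zero
    rw [Complex.norm_real, norm_eq_abs, p_D, Nat.sub_self]
    push_cast
    calc _ = G.rt J k * a * (2 * G.Q k ^ 3 * (|-(r * z)| * (C1 * G.xk b J k X)) +
          4 * (20 * G.L k ^ 0 * G.D0 k ^ 1 + ρ) * N) := by ring
      _ ≤ G.rt J k * a * (2 * G.Q k ^ 3 * (G.Q k * N) + 4 * (G.Q k ^ 4 + G.Q k ^ 4) * N) := by
          gcongr _ * (_ * ?_ + _ * (?_ + ?_) * _)
          exacts [r3.trans (by gcongr), a2.trans a3, hρ.trans a3]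
      _ = _ := by ring
  have w := h.slot (j := 0) (c := 1) (F := G.fd J k F) (v := G.lv b J k X (((-(r * z) : ℝ) : ℂ) • F) + Φ F)
    t hk (by positivity) (fun m _ hm => r2 m hm) (fun _ => h1 _) (h.fd_lip hL k hk) p (by positivity)
    (h.sz_up (by
      rw [Gl.Sz, s k hk]
      convert e3 using 1 <;> try rfl
      · ext; simp [mL, fd]; ring
      · ext; simp [mA, fd]; ring) (ω0 k) E E) hm m0
  refine h.s1_mono ω0 w ((mul_comm ..).trans_le (mul_le_mul_of_nonneg_right ?_ (h.cP0 m k).le))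
  have a2 : (G.rt k m : ℝ) * (G.rt J k * a) ≤ 1 := by
    rw [← mul_assoc, ← Nat.cast_mul, h.rt_mul hm hk]
    exact (le_mul_of_one_le_left (by positivity) (h.Q1 m)).trans
      (h.Q_rt1 (hm.trans hk) (ha.trans (by norm_num)) a0.le)
  have a3 := h.Q_mono hm
  have a4 := h.Q0 m
  calc _ = (G.rt k m * (G.rt J k * a) * (10 * G.Q k ^ 4 + G.Q m ^ 2 * C2) + C2) * N := by ring
    _ ≤ (1 * (10 * G.Q k ^ 4 + G.Q k ^ 2 * G.Q k) + G.Q k) * N := by gcongr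
    _ ≤ _ := by
      gcongr
      nlinarith [pow_le_pow_right₀ (h.Q1 k) (show 3 ≤ 4 by norm_num), le_self_pow₀ (h.Q1 k) four_ne_zero,
        mul_le_mul_of_nonneg_left q (show 0 ≤ G.Q k ^ 4 by positivity)]

theorem Ok.cP_le (h : G.Ok) (hj : j ≤ l) (hl : l ≤ k) :
    G.cP l k ≤ 3 ^ G.e j * ((3 : ℝ) ^ G.e k)⁻¹ ^ (40⁻¹ : ℝ) * G.rt l j ^ 2 := by
  have a := h.t0 l j
  have c : (1 : ℝ) ≤ 3 ^ G.e j := one_le_pow₀ (by norm_num)
  refine le_of_pow_le_pow_left₀ (n := 40) (by norm_num) (by positivity)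
    (((le_mul_inv_iff₀ (by linarith [h.t0 k l])).2 (h.cP_pow hl)).trans ?_)
  rw [mul_pow, mul_pow, show (40⁻¹ : ℝ) = ((40 : ℕ) : ℝ)⁻¹ by norm_num,
    rpow_inv_natCast_pow (by positivity) (by norm_num), ← h.rt_e hl, ← h.rt_e hj]
  calc _ = (3 ^ G.e j) ^ 1 * (G.rt k l * (G.rt l j * 3 ^ G.e j) : ℝ)⁻¹ * (G.rt l j : ℝ) ^ 1 := by
        field_simp
    _ ≤ _ := by
      rw [← pow_mul (G.rt l j : ℝ)]
      gcongr <;> norm_num

theorem Ok.Q_rp (h : G.Ok) (k : ℕ) : G.Q k ^ 400 * ((3 : ℝ) ^ G.e k)⁻¹ ^ (40⁻¹ : ℝ) ≤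
    200 * ((3 : ℝ) ^ G.e k)⁻¹ ^ (50⁻¹ : ℝ) := by
  have a := log_le_rpow_div (x := 3 ^ G.e k) (ε := 200⁻¹) (by positivity) (by norm_num)
  have c : G.Q k ^ 400 ≤ log (3 ^ G.e k) := by
    rw [log_pow]
    exact ((pow_le_pow_right₀ (h.Q1 k) (by norm_num)).trans ((h.Qb k).trans (h.sch.cmp k).2)).trans
      (le_mul_of_one_le_right (by positivity) ((le_log_iff_exp_le three_pos).2 exp_one_lt_three.le))
  refine (mul_le_mul_of_nonneg_right (c.trans a) (by positivity)).trans_eq ?_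
  rw [show (40⁻¹ : ℝ) = 50⁻¹ + 200⁻¹ by norm_num, rpow_add (by positivity), inv_rpow (by positivity) 200⁻¹]
  field_simp

variable {β : ℕ × ℕ → ℝ} (h : G.Oks) (hβ : G.Tus β)
include h

theorem Oks.ev_dL (d : ℕ) (C : ℝ) : ∀ᶠ k in atTop, 0 < k ∧ C ≤ G.L (k - 1) ∧
    ∀ l, k ≤ l → d ≤ (G.p l).R ∧ C ≤ G.Q l := by
  have o := (h 0).1
  have a := fun C => (tendsto_sub_atTop_nat 1).eventually (o.tL.eventually_ge_atTop C)
  filter_upwards [a d, a C, eventually_gt_atTop 0] with k a c e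
  refine ⟨e, c, fun l s => ?_⟩
  have m : ((G.wm 0).L (k - 1) : ℝ) ≤ (G.wm 0).L l := Nat.cast_le.2 (o.L_mono (by omega))
  have : d ≤ G.D0 l := by exact_mod_cast (a.trans m).trans (o.LD l)
  exact ⟨show _ ≤ 4 * G.D0 l by omega, (c.trans m).trans (o.LQ l)⟩

include hβ

/-- letters of the block field are proportional to letters of the same type at the top -/
theorem Oks.link2 (hX : Tm T X) (hr : Wd.Re Y) (hY : Wd.Tl T Y) :
    ∃ (r : ℕ → ℕ × ℕ → ℝ) (C : ℝ),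
    (∀ᶠ k in atTop, ∀ᶠ p in L6.fast, |r k p| * (G.wm p.1).xk (β p) p.2 k X ≤ C) ∧
    OnA 0 fun _ f g => ∃ K, ∀ᶠ k in atTop, ∀ᶠ p in L6.fast,
      ‖G.vB β Y k p f (mon g) - r k p * G.vL β X p f (mon g)‖ ≤
        K * ((3 : ℝ) ^ G.e k)⁻¹ ^ (50⁻¹ : ℝ) := by
  obtain ⟨d, A, A0, H⟩ := lg_fam ![X, Y]
  obtain ⟨hd, H⟩ := H d le_rfl
  obtain ⟨C, C1, N⟩ := lk_lop hX (Wd.act_one X ▸ hd 1 0)
  obtain ⟨c0, c1, c2, c3, hc⟩ := hX.rf
  have F := fun k => (tendsto_snd.mono_left L6.fast_le).eventually_gt_atTop k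
  have : ∀ k p, (0 < k ∧ A + C ≤ G.L (k - 1) ∧ ∀ l, k ≤ l → d ≤ (G.p l).R ∧ A + C ≤ G.Q l) → k < p.2 →
      ∃ r : ℝ, |r| * (G.wm p.1).xk (β p) p.2 k X ≤ C * A ∧
        ∀ j, 0 < j → j ≤ k → (G.wm p.1).Nk (β p) p.2 k j d A (Tj.Nm (G.nn p) (G.aa p) False) X Y r 1
          (G.Q k ^ 400 * (3 ^ G.e j * ((3 : ℝ) ^ G.e k)⁻¹ ^ (40⁻¹ : ℝ))) := fun k p ⟨k0, c, e⟩ hk => by
    have o := (h p.1).1
    have u := hβ p
    have v := (h p.1).2
    have qA : A ≤ G.Q k := by linarith [(e k le_rfl).2]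
    have L := fun l s x => Wd.act_one (![X, Y] x) ▸ H _ l o (e l s).1
      (show A ≤ G.Q l by linarith [(e l s).2]) 1 x
    have ff := (o.f_facts p.2 k).1 _ u.b0
    obtain ⟨r, r1, r2, r3⟩ := N _ _ _ k A _ _ _ o u v (e k le_rfl).1 (show C ≤ G.L (k - 1) by linarith) k0 hk.le A0
      (by simpa [p_D] using o.nm k (C := 20) (i := 0) (j := 1) (by norm_num) (by norm_num) (by norm_num))
      (o.lop_om u v hk.le (e k le_rfl).1 qA (L k le_rfl 1))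
      (o.tw_cl u v hk.le (e k le_rfl).1 qA (L k le_rfl 1) hr)
      (bc_mul (bc_cont (Wd.sm_cont ..).neg) (f_meas o u k)) (hY.sgn_mul ff.2.1)
    refine ⟨r, r1, fun j j0 hj => ?_⟩
    have q : 1 ≤ G.Q k := o.Q1 k
    have w : ∀ {l x}, j ≤ l → l ≤ k → x ≤ G.Q k ^ 400 → x * G.cP l k ≤ G.Q k ^ 400 *
        (3 ^ G.e j * ((3 : ℝ) ^ G.e k)⁻¹ ^ (40⁻¹ : ℝ)) * G.rt l j ^ 2 := fun h1 h2 a =>
      (mul_le_mul a (o.cP_le h1 h2) (o.cP0 _ _).le (by positivity)).trans_eq (mul_assoc ..).symm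
    have w' := fun x => w (x := x) hj le_rfl
    simp only [cP_top, mul_one] at w'
    have q6 : G.Q k ^ 5 * A ≤ G.Q k ^ 400 :=
      (mul_le_mul_of_nonneg_left qA (by positivity)).trans (pow_succ (G.Q k) 5 ▸ pow_le_pow_right₀ q (by norm_num))
    have s := fun (T : Tj) (a : T.Nm (G.nn p) (G.aa p) False) => r3 _ _ (a.bd none).1
      (fun x => ((a.bd none).2 x).1) a.lip (G.aa_pos p) (inv_mul_cancel₀ (by positivity)).le
    refine ⟨by positivity, hk, (e k le_rfl).1, ⟨hX.re, hr⟩, L _ hk.le 0, ⟨qA, L k le_rfl 1⟩, ?_,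
      w' _ (by rw [abs_one, mul_one]; rfl), fun T a l h1 h2 => o.s1_mono (fun k => (o.om0 k).le) ((s T a).1 l h1.le h2)
        (mul_le_mul_of_nonneg_right (w' _ q6) (by positivity)), fun T a l h1 h2 => ?_⟩
    · refine (mul_le_mul_of_nonneg_right r2 A0.le).trans ((mul_right_comm ..).trans_le
        (mul_le_mul_of_nonneg_right (w' _ (le_trans ?_ q6)) (by positivity)))
      gcongr
      calc _ ≤ G.Q k * G.Q k := by gcongr; linarith [(e k le_rfl).2]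
        _ ≤ _ := sq (G.Q k) ▸ pow_le_pow_right₀ q (by norm_num)
    · rw [Complex.ofReal_one, one_smul]
      exact o.s1_mono (fun k => (o.om0 k).le) ((s T a).2 l (j0.trans_le h1) h2) (w h1 h2 q6)
  choose! r hr using this
  refine ⟨fun k p => -r k p, C * A, (h.ev_dL d (A + C)).mono fun k a => (F k).mono fun p c =>
    abs_neg (r k p) ▸ (hr k p a c).1, fun n t e f g a1 a2 a3 => ?_⟩
  obtain ⟨j, ⟨Λ, a⟩, j0⟩ := ((h.fbT hβ n t e f g a1 a2 a3).and (eventually_gt_atTop 0)).exists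
  refine ⟨|Λ| * 3 ^ G.e j * 200, ?_⟩
  filter_upwards [h.ev_dL d (A + C), eventually_ge_atTop j] with k c hj
  filter_upwards [a, F k] with p a hk
  have := a k hj X Y _ 1 _ d A c0 c1 c2 c3 (fun g e => hX.ty g (hc g e)) (fun g e => hY g (hc g e))
    ((hr k p c hk).2 j j0 hj)
  rw [Complex.ofReal_one, one_mul, add_comm] at this
  rw [Complex.ofReal_neg, neg_mul, sub_neg_eq_add]
  have q : 0 < G.Q k := (h 0).1.Q0 k
  refine this.trans ((mul_le_mul_of_nonneg_right (le_abs_self Λ) (by positivity)).trans ?_)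
  exact le_of_eq_of_le (by ring) ((mul_le_mul_of_nonneg_left (show G.Q k ^ 400 * ((3 : ℝ) ^ G.e k)⁻¹ ^ (40⁻¹ : ℝ) ≤ _
    from (h 0).1.Q_rp k) (show 0 ≤ |Λ| * 3 ^ G.e j by positivity)).trans_eq (mul_assoc ..).symm)

/-- (K6) letters of the block field are proportional to letters at the top -/
theorem Oks.link_blk (hY : Tm T Y) : ∃ (r : ℕ → ℕ × ℕ → ℝ) (C : ℝ),
    (∀ᶠ k in atTop, ∀ᶠ p in L6.fast, |r k p| * (G.wm p.1).xk (β p) p.2 k Y ≤ C) ∧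
    OnA 0 fun _ f g => ∃ K, ∀ᶠ k in atTop, ∀ᶠ p in L6.fast,
      ‖G.vB β Y k p f (mon g) - r k p * G.vL β Y p f (mon g)‖ ≤
        K * ((3 : ℝ) ^ G.e k)⁻¹ ^ (50⁻¹ : ℝ) := h.link2 hβ hY hY.re hY.ty

end Pool.Agent.Lib.MP_7f377f_mp.RG.Q4.En.Gl
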