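import Pool.Agent.Lib.MP_7f377f_mp.G.CaT

/-! Letters of the block field: sizes along the flow. -/

noncomputable section

open Pool.Agent.Lib.MP_7f377f_mp.Jet

set_option linter.unusedSectionVars false
variable [Pool.Agent.Lib.MP_7f377f_mp.GD]

namespace Pool.Agent.Lib.MP_7f377f_mp.RG.Q4.En

open Finset Function Sg Real Pos Mg Filter YM7 Topology
open Wd (Let evG lx sm)
open scoped Classical

/-- one size for all the images of a letter -/
theorem Gl.lg_all (X : Let) : ∃ d, ∃ A ≥ (1 : ℝ), ∀ (G : Gl) k, G.Ok → d ≤ (G.p k).R → A ≤ G.Q k →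
    ∀ g, G.Lg k d A (Wd.act g X) := by
  obtain ⟨d, hd⟩ := Wd.exists_rad X
  choose A A0 H using fun g => Gl.lg_ex (hd.act g)
  have e : ∀ g, A g ≤ 1 + ∑ g, A g := fun g => (single_le_sum (fun g _ => (A0 g).le)
    (mem_univ g)).trans (le_add_of_nonneg_left zero_le_one)
  refine ⟨d, 1 + ∑ g, A g, le_add_of_nonneg_right (sum_nonneg fun g _ => (A0 g).le),
    fun G k h a b g => ?_⟩
  obtain ⟨c1, c2, c3⟩ := H g G k h a ((e g).trans b)
  exact ⟨c1, fun U => (c2 U).trans (e g), PM.mono (h.ρ0 k) c3 (e g) (e g)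
    (mul_le_mul_of_nonneg_right (e g) (pow_pos (h.ρ0 k) 3).le)⟩

namespace Gl.Ok

variable {G : Gl} {b A N a : ℝ} {J k d l : ℕ} {X : Let} {u : Lx × Ac} {F : St → ℂ}
  (h : G.Ok) (t : G.Tu b J)
include h t

/-- the growth of an arbitrary direction -/
theorem s1_grow (hk : k ≤ J) (s : G.S1 G.om k N u) (N0 : 0 < N) : ∀ l ≤ k,
    G.S1 G.om l (1.01 ^ (k - l) * N) (G.tn b J u k l) :=
  dw_ind (by simpa [Gl.tn_top] using s) fun l hl ih => by
    obtain ⟨s1, s2, s3⟩ := h.tw_tg t (hl.trans_le hk)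
    rw [Gl.tn_step hl, show k - l = k - (l + 1) + 1 by omega, pow_succ', mul_assoc]
    exact s2.step1 (h.sd_all l _).nu s1 (h.sz_fine _ ih) (by positivity) s3

variable (hp : G.Pu) (hk : k ≤ J) (hd : d ≤ (G.p k).R) (hA : A ≤ G.Q k) (hX : G.Lg k d A X)
include hp hk hd hA hX

theorem lop_om : G.Lop J k (G.p k).D (G.om k) A fun F => G.cl b J k X (G.fd J k F) :=
  h.lop_cl t hp hk hd hA hX (inv_anti₀ (pow_pos (h.Q0 k) _)
    (pow_le_pow_right₀ (h.Q1 k) (by norm_num)))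

/-- an arbitrary letter of the block field -/
theorem cl_grow (A0 : 0 < A) (hF : PS (G.N J) F) (h1 : ∀ x, ‖F x‖ ≤ 1) (hl : l ≤ k) :
    G.S1 G.om l (1.01 ^ (k - l) * A) (G.tn b J (G.cl b J k X (G.fd J k F)) k l) :=
  have := h.lop_sz (fun k => (h.om0 k).le) hk (h.lop_om t hp hk hd hA hX) hF h1
  h.s1_grow t hk (one_mul A ▸ this) A0 l hl

end Gl.Ok

end Pool.Agent.Lib.MP_7f377f_mp.RG.Q4.En
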