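import Pool.Agent.Lib.MP_7f377f_mp.G.CaKB

/-! Scalars and divergences on the block lattice. -/

noncomputable section

open Pool.Agent.Lib.MP_7f377f_mp.Jet

set_option linter.unusedSectionVars false
variable [Pool.Agent.Lib.MP_7f377f_mp.GD]

namespace Pool.Agent.Lib.MP_7f377f_mp.RG.Q4.En

open Finset Function Sg Real Pos Mg Filter YM7 Topology
open Wd (Let sm)
open Pur (mon Pol)
open Ope (cv)
open MvPolynomial (X)
open scoped Classical

theorem tm_phS : Tm Ty.T1 Wd.phS :=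
  ⟨Wd.rl_phS, Wd.tl_phS, ⟨_, Ty.det1⟩, ⟨false, false, false, false, fun _ => List.mem_append_left _⟩,
    nb_lx (a := 0) (b := 1) (c := 0) (d := 1) (by simp [Wd.sig_phS, Wd.de])⟩

/-- the difference at distance `e` minus the gradient -/
def Tj.dT (T : Tj) (e : ℕ) (c : ℝ) (m : Fin 4) : Tj := fun _ x => c * (2⁻¹ *
  (T none (x + (e : ℤ) • un m) - T none (x + -((e : ℤ) • un m))) - e * T (some m) x)

variable {n e : ℕ} {a w δ δ' R s : ℝ} {T : Tj} {c x v : St} {m : Fin 4}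

theorem Tj.Nm.dT (h : T.Nm n a True) (s0 : 0 < a * e) : (T.dT e ((a * e) ^ 2)⁻¹ m).Bd n :=
  fun _ => ⟨fun x u => by simp only [Tj.dT, add_right_comm x ((n : ℤ) • u), (h.bd _).1 _ u],
    fun x => ⟨by
      have := (Wd.jet_ds ((h.tr x).two trivial) e m 0).1
      simp only [Wd.ds, Tj.tr, zero_add, zero_sub, smul_zero, smul_neg, add_comm _ x, add_zero] at this
      rw [Tj.dT, norm_mul, Complex.norm_real, norm_of_nonneg (by positivity),
        inv_mul_le_iff₀ (by positivity), mul_one, mul_pow]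
      exact this, by simp [Tj.dT, ((h.bd _).2 _).2, -Complex.ofReal_inv]⟩⟩

section
variable (h : T.In n a w δ c) (hn : Odd n) (a0 : 0 < a)
  (hR : ∀ l, -(c l * w) ≤ R ∧ (c l + 1) * w ≤ R) (δ0 : 0 ≤ δ') (hδ : δ' + s ≤ δ)
  (hb : 2 * R < a * n)
include h hn a0 hR δ0 hδ hb

theorem Tj.In.sh (hv : ∀ l, |a * v l| ≤ s) {o : Option (Fin 4)} (e : T o (x + v) ≠ 0) (l : Fin 4) :
    c l * w + δ' ≤ a * rc n x l ∧ a * rc n x l ≤ (c l + 1) * w - δ' := by
  have k : ∀ l, c l * w + δ' ≤ a * (rc n (x + v) + -v) l ∧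
      a * (rc n (x + v) + -v) l ≤ (c l + 1) * w - δ' := fun l => by
    have := h o _ e l
    have := abs_le.1 (hv l)
    simp only [Pi.add_apply, Pi.neg_apply, Int.cast_add, Int.cast_neg]
    constructor <;> linarith
  rw [← add_neg_cancel_right x v, ← rc_add_rc, rc_eq hn (RG.mem_box.2 fun l => ?_)]
  · exact k l
  have := k l
  have := hR l
  generalize (rc n (x + v) + -v) l = z at *
  have : 2 * z < n ∧ -(2 * z) < n := by
    constructor <;> refine (Int.cast_lt (R := ℝ)).1 (lt_of_mul_lt_mul_left ?_ a0.le) <;>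
      push_cast <;> linarith
  omega

theorem Tj.In.dT (hs : a * e ≤ s) (q : ℝ) : (T.dT e q m).In n a w δ' c := fun _ x k => by
  have s0 : 0 ≤ a * e := by positivity
  have u : ∀ l, |a * ((e : ℤ) • un m) l| ≤ s := fun l => by
    by_cases u : l = m <;> simp [un, u, abs_of_pos a0, hs, s0.trans hs]
  by_contra z
  have y : ∀ v o, (∀ l, |a * v l| ≤ s) → T o (x + v) = 0 := fun v o hv =>
    by_contra fun e => z (h.sh hn a0 hR δ0 hδ hb hv e)
  have := y 0 (some m) (by simpa using s0.trans hs)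
  rw [add_zero] at this
  rw [Tj.dT, this, y _ none u, y (-((e : ℤ) • un m)) none fun l => by simpa using u l] at k
  simp at k

end

namespace Gl

variable {G : Gl} {β : ℕ × ℕ → ℝ} {Y : Let} {Z : Fin 4 → Let} {p : ℕ × ℕ} {k : ℕ}

/-- insertions of functions of the block field -/
def Ok.vCL (o : (G.wm p.1).Ok) (hk : k ≤ p.2) (β : ℕ × ℕ → ℝ) (W : Pol) : C(Conf, ℂ) →ₗ[ℂ] ℂ :=
  have e : ∀ (O O' : C(Conf, ℂ)) (c : ℂ), G.vI β p ((G.wm p.1).ta ⇑(O + c • O') p.2 k) W =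
      G.vI β p ((G.wm p.1).ta O p.2 k) W + c * G.vI β p ((G.wm p.1).ta O' p.2 k) W := fun O O' c => by
    have a := bc_cont O.2
    have a' := bc_cont O'.2
    rw [show (G.wm p.1).ta ⇑(O + c • O') p.2 k = _ from o.ta_lin hk a a' c,
      vI_add (o.ta_bc hk a) ((o.ta_bc hk a').cm c), vI_smul]
    rfl
  { toFun O := G.vI β p ((G.wm p.1).ta O p.2 k) W
    map_add' O O' := by simpa only [one_smul, one_mul] using e O O' 1
    map_smul' c O := by
      have := e 0 0 1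
      rw [one_smul, add_zero, one_mul, left_eq_add] at this
      simpa only [zero_add, this, RingHom.id_apply, smul_eq_mul] using e 0 O c }

theorem Ok.dvg_eq (o : (G.wm p.1).Ok) (hk : k ≤ p.2) {C : ℝ} (C0 : 0 < C) (f : R4 → ℝ) (W : Pol) :
    G.vB β (Wd.dvg Z) k p f W * 3 ^ G.e k + ∑ m, G.vB β (Z m) k p (Fx.pd m f) W =
      -(C / 3 ^ G.e k : ℝ) * ∑ m, G.vI β p ((G.wm p.1).ta (sm ((G.wm p.1).N k) (Z m) (G.fd p.2 k
        ((jet (G.nn p) (G.aa p) (C⁻¹ • f)).dT (G.rt p.2 k) ((G.aa p * G.rt p.2 k) ^ 2)⁻¹ m none)))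
          p.2 k) W := by
  let S := fun X F => (⟨_, Wd.sm_cont ((G.wm p.1).N k) X (G.fd p.2 k F)⟩ : C(Conf, ℂ))
  have r : (G.rt p.2 k : ℂ) * 3 ^ G.e k = 3 ^ G.e p.2 := by exact_mod_cast o.rt_e hk
  change o.vCL hk β W (S _ _) * _ + ∑ m, o.vCL hk β W (S _ _) = _ * ∑ m, o.vCL hk β W (S _ _)
  rw [mul_comm, ← smul_eq_mul, ← smul_eq_mul, ← map_smul, ← map_sum, ← map_sum, ← map_smul,
    ← map_add]
  refine congrArg (G.vI β p · W) (o.ta_congr hk fun U hU => ?_)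
  simp only [ContinuousMap.add_apply, ContinuousMap.smul_apply, ContinuousMap.sum_apply, S,
    ContinuousMap.coe_mk, smul_eq_mul]
  rw [Wd.sm_dvg (F := G.fd _ _ _) (o.N_odd k) hU (o.ps_fd hk (jet_ps (G.nn p) _ f none))]
  rw [mul_neg, ← neg_mul]
  simp only [mul_sum, ← sum_add_distrib, ← Wd.sm_smul', ← Wd.sm_add']
  refine sum_congr rfl fun m _ => congrArg (sm ((G.wm p.1).N k) (Z m) · U) (funext fun y => ?_)
  simp only [Pi.add_apply, Pi.smul_apply, smul_eq_mul, Wd.ds, fd, Tj.dT, jet_smul, jet_pd, smul_add,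
    smul_sub, ← sub_eq_add_neg, aa]
  push_cast
  rw [← r]
  have := Complex.ofReal_ne_zero.2 C0.ne'
  have : (G.rt p.2 k : ℂ) ≠ 0 := Nat.cast_ne_zero.2 (pow_pos three_pos _).ne'
  field_simp
  ring

variable (h : G.Oks)
include h

theorem Oks.ev_dQ (d : ℕ) (C : ℝ) : ∀ᶠ k in atTop, d ≤ (G.p k).R ∧ C ≤ G.Q k := by
  have o := (h 0).1
  filter_upwards [o.tL.eventually_ge_atTop d, o.tL.eventually_ge_atTop C] with k a b
  refine ⟨?_, b.trans (o.LQ k)⟩
  have : d ≤ G.D0 k := by exact_mod_cast a.trans (o.LD k)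
  change _ ≤ 4 * G.D0 k
  omega

variable (hβ : G.Tus β)
include hβ

/-- (K4') scalars on the block lattice -/
theorem Oks.sca_blk (hr : Wd.Re Y) (hY : Wd.Tl Ty.T1 Y) : ∃ c : ℕ → ℕ × ℕ → ℝ, OnA 0 fun _ f g => ∃ K,
    ∀ᶠ k in atTop, ∀ᶠ p in L6.fast, ‖G.vB β Y k p f (mon g) - c k p * cv (G.vE β p) (X f) (mon g)‖ ≤
      K * ((3 : ℝ) ^ G.e k)⁻¹ ^ (50⁻¹ : ℝ) :=
  let ⟨r, _, _, H⟩ := h.link2 hβ tm_phS hr hY
  ⟨r, by simpa only [vL, vI_phS] using H⟩

/-- (K1') summation by parts on the block lattice -/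
theorem Oks.dvg_blk (hZ : ∀ m, Wd.Re (Z m)) : OnA ⊤ fun _ f g => ∃ K, ∀ᶠ k in atTop,
    ∀ᶠ p in L6.fast, ‖G.vB β (Wd.dvg Z) k p f (mon g) * 3 ^ G.e k +
      ∑ m, G.vB β (Z m) k p (Fx.pd m f) (mon g)‖ ≤ K * 2 ^ k / 3 ^ G.e k := by
  rintro n t e f g hA hf ⟨u, hu, hs⟩
  obtain ⟨C, C0, hC⟩ := h.jet_nm (r := True) (hA.1 0).1 (hA.1 0).2 fun _ => hf.of_le (by norm_cast)
  have d0 : (0 : ℝ) < (3 ^ (e + (t + 1)))⁻¹ := by positivity
  have d1 : (3 ^ (e + t) : ℝ)⁻¹ = 3 * (3 ^ (e + (t + 1)))⁻¹ := by field_simp; ring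
  obtain ⟨j, Λ, a⟩ := (h.fb0 hβ e (t + 1) (g := g) ⟨fun i => hA.1 i.succ,
    fun i j e => hA.2 ((Fin.succ_injective n).ne e)⟩ (hu.comp (Fin.succ_injective n))
    (fun i e => i.succ_ne_zero (hu e)) fun i y e l => (hs i.succ y e l).imp
      (le_trans (by simp only [comp]; linarith)) (le_trans' (by simp only [comp]; linarith))).exists
  choose d A A1 H using fun m => lg_all (Z m)
  obtain ⟨R, hR⟩ := (eventually_all.2 fun l => (eventually_ge_atTop (-(u 0 l * (3 ^ e : ℝ)⁻¹))).and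
    (eventually_ge_atTop ((u 0 l + 1) * (3 ^ e : ℝ)⁻¹))).exists
  have B := eventually_all.2 fun m => h.ev_dQ (d m) (A m)
  have F := tendsto_snd.mono_left L6.fast_le
  refine ⟨C * ∑ m, Λ * (A m * 3 ^ G.e j), ?_⟩
  filter_upwards [B, eventually_ge_atTop j,
    (h 0).1.sch.mono.tendsto_atTop.eventually_ge_atTop (e + (t + 1))] with k b1 b2 b3
  filter_upwards [a, hC.filter_mono L6.fast_le, F.eventually B, F.eventually_gt_atTop k,
    (h.big 0 (2 * R)).filter_mono L6.fast_le] with p a c1 c2 c3 c4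
  have o := (h p.1).1
  have tu := hβ p
  have r : G.aa p * G.rt p.2 k = (3 ^ G.e k)⁻¹ := by
    rw [aa, ← show (G.rt p.2 k : ℝ) * 3 ^ G.e k = 3 ^ G.e p.2 from o.rt_e c3.le, mul_inv,
      mul_right_comm, inv_mul_cancel₀ (Nat.cast_ne_zero.2 (pow_pos three_pos _).ne'), one_mul]
  rw [o.dvg_eq c3.le C0, norm_mul, norm_neg, Complex.norm_real, norm_of_nonneg (by positivity),
    div_mul_eq_mul_div, mul_assoc, sum_mul]
  gcongr
  refine norm_sum_le_of_le _ fun m _ => ?_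
  have A0 := one_pos.trans_le (A1 m)
  have r1 : ∀ l, (1 : ℝ) ≤ (G.wm p.1).rt l j := fun l =>
    Nat.one_le_cast.2 (Nat.one_le_pow _ _ three_pos)
  have z : ∀ l X F, (G.wm p.1).lv (β p) p.2 l X (((0 : ℝ) : ℂ) • F) = 0 := fun l X F => by
    rw [lv, lW_smul, Complex.ofReal_zero, zero_smul, xv_zero, o.tn_zero tu le_rfl]
  have := a k b2 (fun ε => Wd.act (rE ε) (Z m)) (fun ε => Wd.act (rE ε) (Z m)) 0 1 _ _
    (A m * 3 ^ G.e j * 2 ^ k) (d m) (A m) Tj.Bd.cl (c1.dT (m := m) (by rw [r]; positivity))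
    ((jet_in (G.nn_odd p) fun y e => hs 0 y (right_ne_zero_of_mul e)).dT (G.nn_odd p) (G.aa_pos p)
      hR d0.le (s := (3 ^ (e + (t + 1)))⁻¹) (by linarith) (by linarith [G.aa_pos p, c4.2.2])
      (r.trans_le (inv_anti₀ (by positivity) (pow_le_pow_right₀ (by norm_num) b3))) _)
    (fun ε => ⟨by positivity, c3, (b1 m).1, ⟨Wd.rl_act _ (hZ m), Wd.rl_act _ (hZ m)⟩,
      H m _ _ o (c2 m).1 (c2 m).2 _, ⟨(b1 m).2, H m _ _ o (b1 m).1 (b1 m).2 _⟩,
      by simp only [Pi.zero_apply, abs_zero, zero_mul]; positivity, ?_, fun T _ l _ _ => ?_,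
      fun T hT l _ hl => ?_⟩) fun ε μ => by simp [rE_flip, Wd.act_mul]
  · simpa [rE_zero, Wd.act_one, mul_assoc] using this
  · have := r1 k
    calc _ ≤ (G.wm p.1).Q k ^ 4000 := by
          simpa using pow_le_pow_right₀ (o.Q1 k) (show 400 ≤ 4000 by norm_num)
      _ ≤ 1 * 3 ^ G.e j * 1 * (G.wm p.1).rt k j ^ 1 :=
          ((o.Qb k).trans (o.b_e k)).trans_eq ((o.rt_e b2).symm.trans (by ring_nf; rfl))
      _ ≤ _ := by
          gcongr
          exacts [A1 m, one_le_pow₀ one_le_two, one_le_two]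
  · rw [Pi.zero_apply, z]
    exact o.s1_zero (fun k => (o.om0 k).le) (by positivity)
  · rw [Pi.zero_apply, z, Pi.one_apply, Complex.ofReal_one, one_smul, zero_add]
    refine o.s1_mono (fun k => (o.om0 k).le) (o.cl_grow tu (h p.1).2 c3.le (b1 m).1 (b1 m).2
      (H m _ _ o (b1 m).1 (b1 m).2 _) A0 (hT none).1 (fun x => ((hT none).2 x).1) hl) ?_
    have := r1 l
    calc _ ≤ A m * 1 * 2 ^ (k - l) * 1 := by
          rw [mul_one, mul_one, mul_comm]
          gcongr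
          norm_num
      _ ≤ _ := by
          gcongr
          exacts [one_le_pow₀ (by norm_num), one_le_two, k.sub_le l, one_le_pow₀ this]

end Gl

end Pool.Agent.Lib.MP_7f377f_mp.RG.Q4.En
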