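import Pool.Agent.Lib.MP_7f377f_mp.G.CaKB2
import Pool.Agent.Lib.MP_7f377f_mp.G.CaKL

/-! The upper bound for letters at the top. -/

noncomputable section

set_option linter.unusedSectionVars false
variable [Pool.Agent.Lib.MP_7f377f_mp.GD]

namespace Pool.Agent.Lib.MP_7f377f_mp.RG.Q4.En.Gl

open Sg Real Pos Mg Filter YM7
open Pur (mon)

variable {G : Gl} {β : ℕ × ℕ → ℝ} {T : Ty.Ty} {Y : Wd.Let}

/-- (K5) upper bound -/
theorem Oks.up (h : G.Oks) (hβ : G.Tus β) (hY : Tm T Y) : OnA 0 fun _ f g => ∀ᶠ k in atTop, ∃ K,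
    ∀ᶠ p in L6.fast, ‖G.vL β Y p f (mon g)‖ ≤ K * (G.wm p.1).xk (β p) p.2 k Y := by
  intro n t e f g hA hf hc
  obtain ⟨d, hd⟩ := Wd.exists_rad Y
  obtain ⟨A, A0, H⟩ := lg_ex hd
  obtain ⟨C, C1, N⟩ := norm' hd hY.re hY.ne
  obtain ⟨c0, c1, c2, c3, hT⟩ := hY.rf
  have ty : Wd.Tl (Ty.rf c0 c1 c2 c3) Y := fun g a => hY.ty g (hT g a)
  have B := (h.ev_dQ d A).and (h.ev_dQ d C)
  have F := tendsto_snd.mono_left L6.fast_le
  filter_upwards [h.fbT hβ n t e f g hA hf hc, B] with k ⟨Λ, a⟩ ⟨⟨b1, b2⟩, _, b3⟩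
  have q : 0 < G.Q k := (h 0).1.Q0 k
  refine ⟨Λ * ((2 * G.Q k ^ 3 + 1 + A) * C), ?_⟩
  filter_upwards [a, F.eventually B, F.eventually_gt_atTop k] with p a ⟨⟨d1, d2⟩, _⟩ l
  have o := (h p.1).1
  obtain ⟨n1, -, n2⟩ := N _ _ _ k o (hβ p) (h p.1).2 b1 b3 l.le
  have x0 : 0 < C * (G.wm p.1).xk (β p) p.2 k Y :=
    pos_of_mul_pos_left (one_pos.trans_le n1) (by positivity)
  have r : ((G.wm p.1).rt p.2 k : ℝ) * G.aa p ≤ 1 := mul_inv_le_one_of_le₀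
    ((le_mul_of_one_le_right (Nat.cast_nonneg _) (one_le_pow₀ (by norm_num))).trans_eq
      (o.rt_e l.le)) (by positivity)
  have s : ∀ T : Tj, T.Nm (G.nn p) (G.aa p) False → ∀ m, k ≤ m → m ≤ p.2 → (G.wm p.1).S1
      (G.wm p.1).om m ((2 * G.Q k ^ 3 + 1 + A) * (C * (G.wm p.1).xk (β p) p.2 k Y) * 2 ^ (m - k))
        ((G.wm p.1).lv (β p) p.2 m Y (T none)) := fun T u m m1 m2 =>
    o.s1_mono (fun k => (o.om0 k).le) (n2 _ _ m (u.bd _).1 (fun x => ((u.bd _).2 x).1) u.lip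
      (G.aa_pos p) m1 m2).2 (by
        rw [mul_assoc _ (C * _)]
        exact mul_le_mul_of_nonneg_right (le_add_of_le_of_nonneg (add_le_add_left
          (mul_le_of_le_one_right (a := 2 * G.Q k ^ 3) (by positivity) r) _) A0.le) (by positivity))
  have := a k le_rfl Y Y 1 0 _ d A c0 c1 c2 c3 ty ty ⟨(by positivity : 0 < (2 * G.Q k ^ 3 + 1 + A) *
    (C * (G.wm p.1).xk (β p) p.2 k Y)), l, b1, ⟨hY.re, hY.re⟩, H _ _ o d1 d2, ⟨b2, H _ _ o b1 b2⟩,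
    ?_, by simp; positivity, fun T u m m1 m2 => by simpa [rt_top] using s T u m m1.le m2,
    fun T u m m1 m2 => by
      obtain rfl := m1.antisymm m2
      simpa [rt_top, tn_top] using s T u _ le_rfl l.le⟩
  · simpa [mul_assoc] using this
  · rw [rt_top, abs_one, one_mul, Nat.cast_one, one_pow, mul_one, mul_assoc]
    exact (le_add_of_nonneg_left (by positivity)).trans (le_mul_of_one_le_right (by positivity) n1)

end Pool.Agent.Lib.MP_7f377f_mp.RG.Q4.En.Gl
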