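import Pool.Agent.Lib.MP_7f377f_mp.G.CaKC0
import Pool.Agent.Lib.MP_7f377f_mp.G.CaH2

/-! The letters of the words are admissible and centred. -/

noncomputable section

open Pool.Agent.Lib.MP_7f377f_mp.Jet

set_option linter.unusedSectionVars false
variable [Pool.Agent.Lib.MP_7f377f_mp.GD]

namespace Pool.Agent.Lib.MP_7f377f_mp.RG.Q4.En

open Finset Function Sg Real Pos Mg Filter YM7 Topology
open Wd (Let evG lx sm mir rE)
open scoped Classical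

section

variable {n ρ e : ℕ} {a : ℝ} {T : Tj} {y : St} (D : Vf Empty Unit Empty)

/-- normalised test functions with a small support -/
def Tj.Nb (n : ℕ) (a : ℝ) (ρ : ℕ) (T : Tj) : Prop :=
  T.Nm n a False ∧ ∃ y, ∀ o x, T o x ≠ 0 → nearT n ρ y x

theorem Tj.Nb.tr (h : T.Nb n a ρ) (v : St) : (T.tr v).Nb n a ρ :=
  let ⟨y, hy⟩ := h.2
  ⟨h.1.tr v, y - v, fun o x e => (nearT_add_right v).1 (by rw [sub_add_cancel]; exact hy o _ e)⟩

theorem nb_cl : Tj.Cl n e (Tj.Nb n a ρ) := by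
  refine ⟨fun _ h => h.1.bd, fun T h μ => ?_, fun _ h _ => h.tr _⟩
  obtain ⟨y, hy⟩ := h.2
  refine ⟨(nm_cl (e := e)).rf T h.1 μ, update y μ (-y μ), fun o x e => ?_⟩
  obtain ⟨v, hv⟩ := nearT_iff.1 (hy o _ (right_ne_zero_of_mul e))
  refine nearT_iff.2 ⟨update v μ (-v μ), fun i => ?_⟩
  have := hv i
  by_cases u : i = μ
  · subst u
    simp only [update_self, mul_neg] at this ⊢
    omega
  · simpa only [update_of_ne u] using this

theorem Vf.P_tr (hT : ∀ o, PS n (T o)) (v : St) : sxT n v (D.P n T) = D.P n (T.tr v) := by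
  have e : ∀ o x, T o (rc n x) = T o x := fun o => ps_rc' (hT o)
  have e' : ∀ o x y, T o (rc n x + y) = T o (x + y) := fun o x y => by rw [← e, rc_add_rc, e]
  refine Prod.ext (funext fun x => funext₂ fun μ ν => ?_) (Prod.ext (funext fun x => ?_) (funext fun x => ?_)) <;>
    simp [sxT, srT, Vf.P, lS, Tj.tr, Prod.fst_sum, Prod.snd_sum, Finset.sum_apply, e, e', Wd.cav,
      rc_add_rc, add_right_comm x v]

theorem Vf.P_near (hy : ∀ o x, T o x ≠ 0 → nearT n ρ y x) :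
    (D.P n T).In n (tb n (ρ + 2) {y}) := fun x hx => by
  have k : ∀ o, ∀ v ∈ box 2, T o (x + v) = 0 ∧ T o (rc n (x + v)) = 0 := fun o v hv => by
    have : ¬nearT n ρ y (x + v) := fun e => hx (mem_tb_single.2 ⟨rc_rc _ _,
      nearT_rc_right.2 (e.trans (nearT_add hv).symm)⟩)
    exact ⟨by_contra fun e => this (hy o _ e), by_contra fun e => this (nearT_rc_right.1 (hy o _ e))⟩
  have k0 := fun o => k o 0 (RG.zero_mem_box _)
  have k1 := fun μ => (k none _ (RG.box_mono one_le_two (RG.un_mem_box μ))).2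
  have k2 := fun μ ν => (k none (un μ + un ν)
    (RG.add_mem_box (r := 1) (r' := 1) (RG.un_mem_box μ) (RG.un_mem_box ν))).2
  simp only [add_zero] at k0
  simp [Vf.P, lS, Prod.fst_sum, Prod.snd_sum, Finset.sum_apply, k0, k1, k2, funext_iff, Wd.cav]

theorem Vf.Y_eq (U : Conf) : D.Y n T U = -xO n (D.P n T) U := by
  simp [Vf.Y, eq_empty_of_isEmpty D.S.Om]

end

theorem sgn_rE {Y : Let} (hs : ∀ μ, Wd.act (Wd.rf μ) Y = Y ∨ Wd.act (Wd.rf μ) Y = -Y)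
    (ε : Fin 4 → Bool) : ∃ s : ℂ, ‖s‖ = 1 ∧ Wd.act (rE ε) Y = s • Y := by
  have k : ∀ ε μ b, (∃ s : ℂ, ‖s‖ = 1 ∧ Wd.act (rE ε) Y = s • Y) →
      ∃ s : ℂ, ‖s‖ = 1 ∧ Wd.act (rE (update ε μ b)) Y = s • Y := fun ε μ b ⟨s, a, c⟩ => by
    by_cases u : b = ε μ
    · exact ⟨s, a, by rw [u, update_eq_self, c]⟩
    rw [Bool.eq_not_of_ne u, Wd.rE_upd, Wd.act_mul, c, map_smul]
    rcases hs μ with r | r
    exacts [⟨s, a, by rw [r]⟩, ⟨-s, by rwa [norm_neg], by rw [r, smul_neg, neg_smul]⟩]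
  have := k _ 3 (ε 3) (k _ 2 (ε 2) (k _ 1 (ε 1) (k 0 0 (ε 0)
    ⟨1, norm_one, by rw [Wd.rE_zero, Wd.act_one, one_smul]⟩)))
  rwa [show update _ 3 (ε 3) = ε from funext fun i => by fin_cases i <;> rfl] at this

namespace Gl

variable {G : Gl} {b N : ℝ} {J k j d : ℕ} {P : Tj → Prop} {D : Vf Empty Unit Empty} {F : St → ℂ}
  {Y : Let}

theorem Ok.R_mono (h : G.Ok) (hk : k ≤ J) (hd : d ≤ (G.p k).R) : d ≤ (G.p J).R :=
  hd.trans (Nat.mul_le_mul_left 4 (Nat.pow_le_pow_left (h.L_mono hk) _))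

theorem Ok.b_grow (h : G.Ok) (k n : ℕ) : G.bb (k + n) ≤ (4 / 3) ^ n * G.bb k := by
  induction n with
  | zero => simp
  | succ n ih => rw [pow_succ', ← add_assoc]; linarith [h.b_succ (k + n), h.b0 (k + n)]

/-- the hypotheses of the chessboard bound -/
theorem Ok.vk_ax (h : G.Ok) (t : G.Tu b J) (hp : G.Pu) (hk : k + 1 < J) (hj : j ≤ k + 1)
    (hd : d ≤ (G.p (k + 1)).R) (big : 1000 * 3 ^ 1 ≤ G.L j) (hS : D.S.P = 0)
    (rd : ∀ o, Wd.Rad d (D.T o) ∧ Wd.Re (D.T o))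
    (ax : ∀ T, P T → G.Ax b J k d (D.P (G.N J) T) ∧ ∃ W, (D.P (G.N J) T).In (G.N J) W ∧
      ((G.zs W J (k + 1)).card : ℝ) ≤ G.Q (k + 1) ^ 40 ∧ ((G.zs W J j).card : ℝ) ≤ N) :
    G.Vk b J (k + 1) j 1 d 0 0 (fun _ => 1) P D ((3 ^ G.e j) ^ 2 / G.sg (k + 1)) := by
  have s1 := h.sg_one (k + 1)
  have s0 := one_pos.trans_le s1
  have s2 : G.Q (k + 1) ^ 1 * _ ≤ _ := h.sg_num (le_refl (k + 1)) (by norm_num)
  have w : ∀ l, j ≤ l → (3 ^ G.e j) ^ 2 / G.sg (k + 1) * G.rt l j ^ 2 =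
      3 ^ G.e l * (3 ^ G.e l / G.sg (k + 1)) := fun l a => by rw [← h.rt_e a]; ring
  have q : 2 ≤ 3 ^ G.e (k + 1) / G.sg (k + 1) := (le_div_iff₀ s0).2 (by
    nlinarith [h.b_e (k + 1), h.cQ (k + 1) (C := 2) (by norm_num)])
  have o : ∀ l, (1 : ℝ) ≤ 3 ^ G.e l := fun l => one_le_pow₀ (by norm_num)
  have p : (0 : ℝ) ≤ (3 ^ G.e j) ^ 2 / G.sg (k + 1) * G.rt (k + 1) j ^ 2 := by positivity
  have ω0 : ∀ l, 0 ≤ (G.Q l ^ 100)⁻¹ := fun l => (inv_pos.2 (pow_pos (h.Q0 l) _)).le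
  have cl : ∀ n r Z, Cls n r (univ : Finset Unit) id Z := fun _ _ _ _ _ _ _ e => absurd rfl e
  refine ⟨by positivity, ⟨hk, le_rfl, le_rfl, hd, h.cQ _ (by norm_num), fun i _ _ => ⟨one_le_two,
      h.cQ i (by norm_num), one_pos, fun _ => one_pos, fun _ => by norm_num⟩, nofun, nofun,
      fun _ _ _ => hS ▸ ⟨rfl, rfl, rfl⟩, nofun, fun _ => hS ▸ h.rx_zero t, nofun,
      ⟨cl _ _ _, fun _ _ _ => cl _ _ _⟩, ⟨(h.Q0 _).le, nofun⟩, nofun⟩,
    ⟨0, fun _ => (sum_eq_zero nofun).le, by simpa using p⟩, rd, fun T e => ?_,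
    ⟨nofun, fun _ => ⟨id, Set.bijOn_id _, nofun⟩, nofun⟩, nofun, nofun, fun _ _ _ => by simpa using p,
    fun T e l h1 h2 => h.s1_mono ω0 ((ax T e).1.2 l (by omega) h2) ?_, fun T e l h1 h2 => ?_⟩
  · obtain ⟨M, a, c⟩ := (ax T e).1.1
    refine ⟨1, M, a, ?_⟩
    have u : (1 : ℝ) ≤ 2 ^ (J - (k + 1)) := one_le_pow₀ one_le_two
    rw [sx, div_mul_eq_mul_div, div_le_one (by positivity)] at c
    have M0 : 0 ≤ M := (norm_nonneg _).trans (a.bd 0 1)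
    rw [w _ hj]
    refine le_trans ?_ (mul_le_mul_of_nonneg_right (mul_le_mul (o _) q zero_le_two (by positivity))
      (by positivity))
    linarith only [u, c, mul_le_mul_of_nonneg_right s1 M0]
  · have := h.b_grow (k + 1) (l - (k + 1))
    rw [Nat.add_sub_cancel' h1.le] at this
    calc _ ≤ (3 / 2 : ℝ) ^ (l - (k + 1)) * ((4 / 3) ^ (l - (k + 1)) * 3 ^ G.e (k + 1)) := by
          gcongr
          refine ((pow_le_pow_right₀ (h.Q1 l) (by norm_num)).trans ((h.Qb l).trans this)).trans ?_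
          gcongr
          exact h.b_e _
      _ = 3 ^ G.e (k + 1) * 1 * 2 ^ (l - (k + 1)) := by
          rw [← mul_assoc, ← mul_pow]
          norm_num [mul_comm]
      _ ≤ _ := by
          rw [w _ hj]
          gcongr
          linarith
  · obtain ⟨x, W, a, c, c'⟩ := ax T e
    rw [show G.vT b J (k + 1) D T = G.tn b J (G.xv b J (D.P (G.N J) T)) J (k + 1) by
      simp [vT, eq_empty_of_isEmpty D.S.Om], tn_tn h2 hk.le]
    refine h.s1_mono ω0 ((x.small h t hp (by omega) hj (h.R_mono hk.le hd) a big c c').2 l h1 h2) ?_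
    rw [w l h1]
    refine le_trans ?_ (le_mul_of_one_le_left (by positivity) (o l))
    gcongr
    exact h.b_e l

theorem Ok.ax_ph (h : G.Ok) (t : G.Tu b J) (hp : G.Pu) (h1 : ∀ x, ‖F x‖ ≤ 1)
    (hL : LipT (G.N J) (G.rt J (k + 1))⁻¹ F) : G.Ax b J k d (Wd.cav (G.N J) F, 0, 0) := by
  refine ⟨⟨0, ⟨cav_le h1, fun _ => .zero, fun _ _ => norm_zero.le, _, _, _, pm_zero (h.ρ0 J)⟩,
    by simp⟩, fun l a c => ?_⟩
  have r0 := one_pos.trans_le (h.t0 J (k + 1))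
  have u : G.rt J l * (G.rt J (k + 1) : ℝ)⁻¹ ≤ 1 := by
    rw [← div_eq_mul_inv, div_le_one r0, ← h.rt_mul a c, Nat.cast_mul]
    exact le_mul_of_one_le_left (Nat.cast_nonneg _) (h.t0 _ _)
  have q := h.cQ l (C := 10 ^ 20) le_rfl
  have v : G.pe J l (G.rt J (k + 1))⁻¹ (G.rt J (k + 1))⁻¹ + 1 * 1000 ≤
      (3 / 2) ^ (l - (k + 1)) * G.Q l ^ 5 := by
    refine le_trans ?_ (le_mul_of_one_le_left (by positivity) (one_le_pow₀ (by norm_num)))
    have := mul_le_mul_of_nonneg_right (h.pw_rt l c) (inv_pos.2 r0).le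
    have := h.qpw l (i := 2) (j := 5) (by norm_num)
    rw [pe]
    nlinarith [mul_le_mul_of_nonneg_left u (h.Q0 l).le]
  rw [tv_pl]
  exact h.sz_le (h.tv_sz' t (fun _ e => (h.tan_main hp t e).1.sz) hL (inv_pos.2 r0) h1 (cav_lip hL) c) (sqrt_nonneg _) v
    (le_trans (by linarith) v) (h.sg_le l)

theorem ax_let (hd : Wd.Rad d Y) (hr : Wd.Re Y) (h0 : nb (lx Y) ≠ 0) : ∃ C ≥ (1 : ℝ),
    ∀ (G : Gl) b J k, G.Ok → G.Tu b J → G.Pu → G.Run b J k G.om → d ≤ (G.p k).R → C ≤ G.Q k →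
      k < J → 2 * G.sg (k + 1) * C ^ 2 ≤ 1.98 ^ (J - k) → ∀ (s : ℂ) F, ‖s‖ = 1 → PS (G.N J) F →
      (∀ x, ‖F x‖ ≤ 1) → LipT (G.N J) (G.rt J (k + 1))⁻¹ F →
      G.Ax b J k d ((s / G.xk b J k Y) • lW Y F) := by
  obtain ⟨C, C1, H⟩ := norm hd hr h0
  obtain ⟨A, hA⟩ := Wd.evG_bd Y
  have A0 := (norm_nonneg _).trans (hA 1)
  refine ⟨C + A, by linarith, fun G b J k h t hp R dR hC hk hJ s F s1 e1 e2 e3 => ?_⟩
  obtain ⟨a1, a2⟩ := H G b J k h t hp dR (by linarith) hk.le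
  have x0 : 0 < G.xk b J k Y := lt_of_lt_of_le (by positivity) a1
  have r0 := one_pos.trans_le (h.t0 J (k + 1))
  have c1 : ‖s / G.xk b J k Y‖ = (G.xk b J k Y)⁻¹ := by
    rw [norm_div, s1, Complex.norm_real, norm_of_nonneg x0.le, one_div]
  have c2 : (G.xk b J k Y)⁻¹ ≤ C / 0.99 ^ (J - k) := by
    rw [← inv_div, div_eq_inv_mul] at *
    exact inv_anti₀ (by positivity) a1
  have z := fun l a c => h.pos_sz (f := G.fd J l F) (fun _ => e2 _)
    ((a2 l a c).2.2 F _ e1 e2 e3 (inv_pos.2 r0)) (a2 l a c).2.1.sz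
  have S : ∀ l, k < l → l ≤ J → G.S1 (fun l => (G.Q l ^ 100)⁻¹) l ((3 / 2) ^ (l - (k + 1)) * G.Q l ^ 5)
      (G.tn b J (G.xv b J ((s / G.xk b J k Y) • lW Y F)) J l) := fun l a c => by
    have := h.tn_sum (fun k => (h.om0 k).le) R le_rfl univ (fun _ : Unit => s / G.xk b J k Y)
      (u := fun _ => G.xv b J (lW Y F)) (fun _ => ⟨_, by
        have := z J hk.le le_rfl
        rwa [lv, Gl.tn_top] at this⟩) l a.le c
    rw [Fintype.sum_unique, Fintype.sum_unique] at this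
    rw [show G.xv b J _ = _ from (G.xvL b J).map_smul _ _]
    erw [this]
    have v : ‖s / G.xk b J k Y‖ * (1.01 ^ (J - l) * G.Q J ^ 3 * (G.rt J (k + 1) : ℝ)⁻¹ + G.Q l ^ 3 *
        (G.rt J l * (G.rt J (k + 1) : ℝ)⁻¹) * G.xk b J l Y + 1 * (C * G.xk b J l Y)) ≤
          (3 / 2) ^ (l - (k + 1)) * G.Q l ^ 5 := by
      have q := h.Q0 l
      have q1 : C ≤ G.Q l := le_trans (by linarith) (h.Q_mono a.le)
      have u : G.rt J l * (G.rt J (k + 1) : ℝ)⁻¹ ≤ 1 := by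
        rw [← div_eq_mul_inv, div_le_one r0, ← h.rt_mul a c, Nat.cast_mul]
        exact le_mul_of_one_le_left (Nat.cast_nonneg _) (h.t0 _ _)
      have u1 : (G.xk b J k Y)⁻¹ * G.xk b J l Y ≤ 2 * (3 / 2) ^ (l - (k + 1)) := by
        rw [inv_mul_le_iff₀ x0]
        refine le_trans ?_ (mul_le_mul_of_nonneg_right (a2 l a.le c).1 (by positivity))
        rw [mul_right_comm, show l - k = l - (k + 1) + 1 by omega, pow_succ, mul_comm 2,
          mul_mul_mul_comm, ← mul_pow]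
        exact le_mul_of_one_le_left (nb_nonneg _) (one_le_mul_of_one_le_of_one_le
          (one_le_pow₀ (by norm_num)) (by norm_num))
      have u2 : (G.xk b J k Y)⁻¹ * (1.01 ^ (J - l) * G.Q J ^ 3 * (G.rt J (k + 1) : ℝ)⁻¹) ≤
          2 * G.Q l ^ 4 := by
        have := h.Q0 J
        have := h.Q0 (k + 1)
        calc _ ≤ C / 0.99 ^ (J - k) * ((0.99 * 1.03) ^ (J - (k + 1)) * (0.99 * 2) * G.Q J ^ 3 *
              (G.rt J (k + 1) : ℝ)⁻¹) := by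
              gcongr
              refine le_trans ?_ (le_mul_of_one_le_right (by positivity) (by norm_num))
              exact (pow_le_pow_right₀ (by norm_num) (by omega)).trans
                (pow_le_pow_left₀ (by norm_num) (by norm_num) _)
          _ = 2 * (C * (G.Q J ^ 3 * 1.03 ^ (J - (k + 1)) / G.rt J (k + 1))) := by
              rw [show J - k = J - (k + 1) + 1 by omega, mul_pow, pow_succ]
              field_simp
          _ ≤ 2 * (G.Q l * G.Q l ^ 3) := by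
              gcongr
              rw [div_le_iff₀ r0]
              refine (h.Qrt (by norm_num) (by norm_num) (by norm_num) _ hk).trans ?_
              gcongr
              exact h.Q_mono a
          _ = _ := by ring
      have u3 : (1 : ℝ) ≤ (3 / 2) ^ (l - (k + 1)) := one_le_pow₀ (by norm_num)
      have u4 : G.Q l ^ 3 * (G.rt J l * (G.rt J (k + 1) : ℝ)⁻¹) + C ≤ 2 * G.Q l ^ 4 := by
        have := h.qpw l (i := 1) (j := 4) (by norm_num)
        have := h.qpw l (i := 3) (j := 4) (by norm_num)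
        nlinarith [mul_le_mul_of_nonneg_left u (pow_pos q 3).le]
      have u5 := mul_le_mul u1 u4 (by positivity) (by positivity)
      have := h.qpw l (i := 4) (j := 5) (by norm_num)
      rw [c1]
      nlinarith [pow_pos q 4]
    exact h.sz_le (h.s1_smul (z l a.le c) _) (h.om0 l).le v v (h.om_mono l (by norm_num))
  refine ⟨⟨(G.xk b J k Y)⁻¹ * A, ⟨fun _ _ _ => by simp [lW, lS], fun x => ((ltt_ev hd).smul _).smul _,
    fun x U => ?_, ?_⟩, ?_⟩, S⟩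
  · rw [← c1, ← one_mul A]
    exact norm_mul_le_of_le le_rfl (norm_mul_le_of_le (e2 x) (hA _))
  · have := (S J hk le_rfl).1
    rw [Gl.tn_top, xv, xP, show ((s / G.xk b J k Y) • lW Y F).1 = 0 from smul_zero _, sL_zero,
      zero_add] at this
    exact ⟨_, _, _, this⟩
  · have := h.sg_one (k + 1)
    calc _ ≤ G.sg (k + 1) / 2 ^ (J - (k + 1)) * ((C + A) / 0.99 ^ (J - k) * (C + A)) := by
          rw [sx]
          gcongr
          exacts [c2.trans (by gcongr; linarith), by linarith]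
      _ = 2 * G.sg (k + 1) * (C + A) ^ 2 / 1.98 ^ (J - k) := by
          rw [show J - k = J - (k + 1) + 1 by omega, show (1.98 : ℝ) = 2 * 0.99 by norm_num, mul_pow,
            pow_succ 2]
          field_simp
      _ ≤ 1 := (div_le_one (by positivity)).2 hJ

/-- the geometry of a small support -/
theorem Ok.geo (h : G.Ok) {ρ : ℕ} {y : St} (hk : k ≤ J) (hj : j ≤ J)
    (hρ : (ρ + 2 : ℝ) ≤ G.Q k ^ 4 * G.rt J k) : 500 * (ρ + 2 + G.rt J k) ≤ 3 ^ G.e J ∧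
    ((G.zs (tb (G.N J) (ρ + 2) {y}) J k).card : ℝ) ≤ G.Q k ^ 40 ∧
    (G.zs (tb (G.N J) (ρ + 2) {y}) J j).card ≤ (2 * (3 ^ G.e j + 4 * G.L j ^ G.K0) + 1) ^ 4 := by
  have r := h.t0 J k
  have q := h.Q1 k
  have a : 500 * (ρ + 2 + G.rt J k) ≤ 3 ^ G.e J := by
    have := mul_le_mul_of_nonneg_left (((h.qpw k (show 4 < 4000 by norm_num)).trans (h.Qb k)).trans
      (h.b_e k)) (zero_le_one.trans r)
    rw [h.rt_e hk] at this
    have u := mul_le_mul_of_nonneg_right (one_le_pow₀ (n := 4) q) (zero_le_one.trans r)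
    exact_mod_cast (by linarith only [this, u, hρ] : (500 * (ρ + 2 + G.rt J k) : ℝ) ≤ 3 ^ G.e J)
  refine ⟨a, (Nat.cast_le.2 (h.zs_card Subset.rfl hk)).trans ?_, (h.zs_card Subset.rfl hj).trans ?_⟩
  · have u : (((ρ + 2) / G.rt J k : ℕ) : ℝ) ≤ G.Q k ^ 4 :=
      Nat.cast_div_le.trans ((div_le_iff₀ (one_pos.trans_le r)).2 (by exact_mod_cast hρ))
    rw [show 40 = 10 * 4 from rfl, pow_mul]
    generalize (ρ + 2) / G.rt J k = x at u
    push_cast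
    gcongr
    linarith only [u, h.D_le_Q k, q, h.qpw k (show 4 < 10 by norm_num),
      le_self_pow₀ q (show 4 ≠ 0 by norm_num)]
  · have : G.rt J j * 3 ^ G.e j = 3 ^ G.e J := by exact_mod_cast h.rt_e hj
    gcongr
    exact Nat.div_le_of_le_mul (by omega)

variable {β : ℕ × ℕ → ℝ}

theorem vM_sm (G : Gl) (β : ℕ × ℕ → ℝ) (p : ℕ × ℕ) (Y : Let) (F : St → ℂ) :
    G.vM β p (sm (G.nn p) Y F) = (∑ x ∈ box (G.nn p / 2), F x) * G.vM β p (evG Y) := by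
  have c := bc_cont (Wd.evG_cont Y)
  rw [show sm (G.nn p) Y F = fun U => ∑ x ∈ box (G.nn p / 2), F x * evG Y (sh x U) from rfl,
    vM_sum fun x _ => (bc_comp c (Ms.cont_sh x).measurable).cm _, sum_mul]
  simp only [vM_smul, vM_sh c]

variable (h : G.Oks) (hβ : G.Tus β)
include h hβ

/-- the centring of sources with a small support -/
theorem Oks.cen (R : ℝ) : ∃ C ≥ (0 : ℝ), ∀ᶠ k in atTop, ∀ᶠ p in L6.fast, k < p.2 ∧
    ∀ d d' (D : (Fin 4 → Bool) → Vf Empty Unit Empty) (T : Tj) (a : ℝ), d ≤ (G.p k).R →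
      (∀ ε, (D ε).S.P = 0 ∧ ∀ o, Wd.Rad d ((D ε).T o) ∧ Wd.Re ((D ε).T o)) →
      (G.wm p.1).Vr p.2 (k + 1) D →
      (∀ ε T, T.Nm (G.nn p) (G.rt p.2 (k + 1))⁻¹ False → ∀ r ∈ ({d, d'} : Set ℕ),
        (G.wm p.1).Ax (β p) p.2 k r ((D ε).P (G.nn p) T)) →
      T.Nm (G.nn p) (G.rt p.2 (k + 1))⁻¹ False →
      (∀ o x, T o x ≠ 0 → ∀ l, |(rc (G.nn p) x l : ℝ)| ≤ R * G.Q k * G.rt p.2 k) →
      G.vM β p ((D 0).Y (G.nn p) T) = a →
      (G.wm p.1).Lc (β p) p.2 k d' C (G.sx k) ((D 0).P (G.nn p) T) a := by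
  have o := (h 0).1
  obtain ⟨j, ⟨Λ, H⟩, big⟩ := ((h.fb (Ω := Empty) (κ := Unit) (α := Empty) hβ 0 1 (g := Fin.elim0)
    ⟨nofun, nofun⟩ (c₀ := 0) (u := Fin.elim0) nofun nofun nofun).and
      (o.L_nat.eventually_ge_atTop (1000 * 3 ^ 1))).exists
  obtain ⟨N, hN⟩ : ∃ N : ℝ, N = ((2 * (3 ^ G.e j + 4 * G.L j ^ G.K0) + 1) ^ 4 : ℕ) := ⟨_, rfl⟩
  refine ⟨exp N + 1 + |Λ| * (3 ^ G.e j) ^ 2, by positivity, ?_⟩
  filter_upwards [eventually_ge_atTop j, o.Q_top.eventually_ge_atTop |R|] with k hj hR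
  filter_upwards [H, (tendsto_snd.mono_left L6.fast_le).eventually_gt_atTop (k + 1),
    (tendsto_fst.mono_left L6.fast_le).eventually_ge_atTop 1] with p H hk hm
  refine ⟨by omega, fun d d' D T a hd hD vr ax hT hs ha v => ?_⟩
  obtain ⟨q, pu⟩ := h p.1
  have od := G.nn_odd p
  have ps := fun o => (hT.bd o).1
  rw [show (G.wm p.1).N p.2 = G.nn p from rfl, Vf.P_tr _ ps]
  refine ⟨(ax 0 _ (hT.tr v) _ (.inr rfl)).rx q (by omega), ?_⟩
  obtain ⟨ρ, hρ⟩ : ∃ ρ, ρ = ⌈R * G.Q k * G.rt p.2 k⌉₊ := ⟨_, rfl⟩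
  have r1 : (1 : ℝ) ≤ G.rt p.2 (k + 1) := q.t0 _ _
  have g : (ρ + 2 : ℝ) ≤ G.Q (k + 1) ^ 4 * G.rt p.2 (k + 1) := by
    have Q1 : 1 ≤ G.Q k := o.Q1 k
    have Q2 : G.Q k ≤ G.Q (k + 1) := o.Q_mono k.le_succ
    have e : G.rt p.2 k = G.L k * G.rt p.2 (k + 1) := q.rt_step (by omega)
    have Q0 := one_pos.trans_le (Q1.trans Q2)
    have : (ρ : ℝ) ≤ G.Q (k + 1) * G.Q (k + 1) * (G.Q (k + 1) * G.rt p.2 (k + 1)) + 1 := by
      rw [hρ]
      refine le_trans (Nat.cast_le.2 (Nat.ceil_mono ?_)) (Nat.ceil_lt_add_one (by positivity)).le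
      rw [e, Nat.cast_mul]
      gcongr
      exacts [((le_abs_self R).trans hR).trans Q2, (o.LQ k).trans Q2]
    have u : 1000 * G.Q (k + 1) ^ 3 ≤ G.Q (k + 1) ^ 4 := o.qpw (k + 1) (by norm_num)
    nlinarith only [this, mul_le_mul_of_nonneg_right u (zero_le_one.trans r1),
      one_le_mul_of_one_le_of_one_le (one_le_pow₀ (n := 3) (Q1.trans Q2)) r1]
  have ge := fun y => q.geo (y := y) hk.le (show j ≤ p.2 by omega) g
  have bx : ∀ o x, T o x ≠ 0 → rc (G.nn p) x ∈ box ρ := fun o x e => RG.mem_box.2 fun l => by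
    have := abs_le.1 ((hs o x e l).trans (hρ ▸ Nat.le_ceil _))
    exact_mod_cast this
  have ad : ∀ ε T, T.Nb (G.nn p) (G.rt p.2 (k + 1))⁻¹ ρ →
      (G.wm p.1).Ax (β p) p.2 k d ((D ε).P (G.nn p) T) ∧ ∃ W, ((D ε).P (G.nn p) T).In (G.nn p) W ∧
        (((G.wm p.1).zs W p.2 (k + 1)).card : ℝ) ≤ G.Q (k + 1) ^ 40 ∧
          (((G.wm p.1).zs W p.2 j).card : ℝ) ≤ N := fun ε T ⟨a, y, c⟩ =>
    ⟨ax ε T a _ (.inl rfl), _, Vf.P_near _ c, (ge y).2.1, hN ▸ Nat.cast_le.2 (ge y).2.2⟩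
  obtain ⟨u, hu⟩ : ∃ u : St, u = fun i => (-v i - 3 ^ G.e p.2 / 2) / G.rt p.2 (k + 1) := ⟨_, rfl⟩
  obtain ⟨c, hc⟩ : ∃ c, c = (G.rt p.2 (k + 1) : ℤ) • u + v := ⟨_, rfl⟩
  have nb : (T.tr c).Nb (G.nn p) (G.rt p.2 (k + 1))⁻¹ ρ := Tj.Nb.tr ⟨hT, 0, fun o x e =>
    nearT_rc_right.1 (by simpa using nearT_add (x := 0) (bx o x e))⟩ c
  have s1 := q.sg_one (k + 1)
  have d1 := q.R_mono k.le_succ hd
  obtain ⟨x, W, a1, a2, a3⟩ := ad 0 _ nb
  have b1 := (x.small q (hβ p) pu (by omega) (by omega) (q.R_mono hk.le d1) a1 big a2 a3).1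
  have s2 : 0 ≤ (3 ^ G.e j) ^ 2 / G.sg (k + 1) := div_nonneg (sq_nonneg _) (zero_le_one.trans s1)
  have b2 := (H (k + 1) (by omega) hk D _ _ _ _ 1 d 0 0 _ nb_cl nb (fun o x e l => ?_)
    (fun ε => q.vk_ax (hβ p) pu hk (by omega) d1 big (hD ε).1 (hD ε).2 (ad ε)) vr s2
      (prod_const _).le).2
  · have z : (G.wm p.1).vC p.2 (k + 1) (D 0) (T.tr c) = fun _ => 0 := funext fun _ => by simp [vC]
    have m : G.vM β p ((G.wm p.1).vO p.2 (k + 1) (D 0) (T.tr c)) = a := by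
      have e : (G.wm p.1).vO p.2 (k + 1) (D 0) (T.tr c) =
          fun U => -xO (G.nn p) (sxT (G.nn p) c ((D 0).P (G.nn p) T)) U := funext fun U => by
        rw [vO, z, q.ta_zero hk.le, add_zero, Vf.Y_eq, Vf.P_tr _ ps]
        rfl
      rw [e, ← ha, ← vM_sh (bc_cont (Vf.P_tr _ ps c ▸ Vf.cont_P.neg)) c]
      exact vM_congr fun U hU => by rw [xO_tr od hU, Vf.Y_eq]
    rw [m, ct, z, tt_mul 0 _ (by omega)] at b2
    simp only [Vf.Y_eq, zero_mul, add_zero] at b2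
    have e : (G.wm p.1).ex (β p) p.2 (k + 1) (sxT (G.nn p) ((G.rt p.2 (k + 1) : ℤ) • u) _) = _ :=
      q.ex_tr hk.le ((D 0).P (G.nn p) (T.tr v)) u
    rw [sx_top, ← e, Vf.P_tr _ (Tj.ps_tr ps v), Tj.tr_tr, ← hc, norm_sub_rev]
    refine (mul_le_mul_of_nonneg_left (norm_sub_le_norm_sub_add_norm_sub _ _ _)
      (zero_le_one.trans s1)).trans ((mul_add _ _ _).trans_le (add_le_add ?_ b1) |>.trans_eq (add_comm _ _))
    refine (mul_le_mul_of_nonneg_left (b2.trans (mul_le_mul_of_nonneg_right (le_abs_self Λ)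
      s2)) (zero_le_one.trans s1)).trans_eq ?_
    rw [mul_left_comm]
    exact congrArg _ (mul_div_cancel₀ _ (one_pos.trans_le s1).ne')
  · have X : (500 * (ρ + 2 + G.rt p.2 (k + 1)) : ℤ) ≤ 3 ^ G.e p.2 := by exact_mod_cast (ge 0).1
    have r0 : (0 : ℤ) < G.rt p.2 (k + 1) := by exact_mod_cast one_pos.trans_le r1
    have n3 : 3 * 3 ^ G.e p.2 ≤ G.nn p := Nat.mul_le_mul_right _ (show 3 ≤ 2 * p.1 + 1 by omega)
    have w : ∀ i, (3 : ℤ) ^ G.e p.2 ≤ 3 * (rc (G.nn p) (x + c) + -c) i ∧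
        3 * (rc (G.nn p) (x + c) + -c) i ≤ 2 * 3 ^ G.e p.2 := fun i => by
      have := RG.mem_box.1 (bx o _ e) i
      have := Int.mul_ediv_add_emod (-v i - 3 ^ G.e p.2 / 2) (G.rt p.2 (k + 1))
      have := Int.emod_nonneg (-v i - 3 ^ G.e p.2 / 2) r0.ne'
      have := Int.emod_lt_of_pos (-v i - 3 ^ G.e p.2 / 2) r0
      have : c i = G.rt p.2 (k + 1) * ((-v i - 3 ^ G.e p.2 / 2) / G.rt p.2 (k + 1)) + v i := by
        rw [hc, hu]; rfl
      simp only [Pi.add_apply, Pi.neg_apply]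
      omega
    have w' : rc (G.nn p) x = rc (G.nn p) (x + c) + -c := by
      rw [← rc_eq od (x := _ + -c) (RG.mem_box.2 fun i => by
        have := w i
        have : (3 * 3 ^ G.e p.2 : ℤ) ≤ G.nn p := by exact_mod_cast n3
        omega), rc_add_rc, add_neg_cancel_right]
    obtain ⟨w1, w2⟩ := w l
    rw [← w', ← Int.cast_le (R := ℝ)] at w1 w2
    push_cast at w1 w2
    rw [aa, inv_mul_eq_div, le_div_iff₀ (by positivity), div_le_iff₀ (by positivity)]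
    norm_num
    constructor <;> linarith

omit h hβ in
theorem nm_one {n : ℕ} {a : ℝ} (a0 : 0 ≤ a) (h1 : PS n F) (h2 : ∀ x, ‖F x‖ ≤ 1 ∧ (F x).im = 0)
    (h3 : LipT n a F) : Tj.Nm n a False fun o => o.elim F 0 :=
  ⟨fun o => by cases o; exacts [⟨h1, h2⟩, ⟨fun _ _ => rfl, by simp⟩], h3, by simpa, nofun⟩

/-- (W2) the field as a letter of a word -/
theorem Oks.lc_ph (R : ℝ) : ∃ C ≥ (0 : ℝ), ∀ᶠ k in atTop, ∀ᶠ p in L6.fast, ∀ (F : St → ℂ) d,
    PS (G.nn p) F → (∀ x, ‖F x‖ ≤ 1 ∧ (F x).im = 0) → LipT (G.nn p) (G.rt p.2 (k + 1))⁻¹ F →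
    (∀ x, F x ≠ 0 → ∀ l, |(rc (G.nn p) x l : ℝ)| ≤ R * G.Q k * G.rt p.2 k) →
    (G.wm p.1).Lc (β p) p.2 k d C (G.sx k) (Wd.cav (G.nn p) F, 0, 0) (-G.mS β p F) := by
  refine (h.cen hβ R).imp fun C a => ⟨a.1, a.2.mono fun k a => a.mono fun p a F d h1 h2 h3 h4 => ?_⟩
  obtain ⟨q, pu⟩ := h p.1
  have := a.2 0 d (fun _ => (Vf.top 0).src) _ (-G.mS β p F) (Nat.zero_le _)
    (fun _ => ⟨rfl, fun _ => ⟨nofun, fun _ => rfl⟩⟩) (q.vr_src a.1 _) (fun _ T t _ _ => by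
      rw [Vf.src_P]
      exact q.ax_ph (hβ p) pu (fun x => ((t.bd none).2 x).1) t.lip) (nm_one (by positivity) h1 h2 h3)
    (fun o x e => by cases o; exacts [h4 x e, absurd rfl e]) ?_
  · rwa [Vf.src_P] at this
  have e : (G.vM β p (sm (G.nn p) Wd.phS F)).im = 0 := by
    rw [vM_sm, Complex.mul_im, Complex.im_sum, sum_eq_zero fun x _ => (h2 x).2,
      show evG Wd.phS = fun U => ((evG Wd.phS U).re : ℂ) from funext fun U =>
        Complex.ext rfl (Wd.evG_real Wd.rl_phS U), vM, integral_complex_ofReal]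
    simp
  rw [vM_congr (O' := fun U => -1 * sm (G.nn p) Wd.phS F U) fun U hU => by
    rw [Vf.src_Y, Wd.sm_phS (G.nn_odd p) hU, neg_one_mul]; rfl, vM_smul, neg_one_mul,
    Complex.ofReal_neg]
  exact congrArg _ (Complex.ext rfl e)

/-- (W3) a normalised letter smeared with an odd function as a letter of a word -/
theorem Oks.lc_let (hd : Wd.Rad d Y) (hr : Wd.Re Y) (h0 : nb (lx Y) ≠ 0)
    (hs : ∀ μ, Wd.act (Wd.rf μ) Y = Y ∨ Wd.act (Wd.rf μ) Y = -Y) (R : ℝ) :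
    ∃ C ≥ (0 : ℝ), ∀ᶠ k in atTop, ∀ᶠ p in L6.fast, ∀ F : St → ℂ,
    PS (G.nn p) F → (∀ x, ‖F x‖ ≤ 1 ∧ (F x).im = 0 ∧ F (-x) = -F x) →
    LipT (G.nn p) (G.rt p.2 (k + 1))⁻¹ F →
    (∀ x, F x ≠ 0 → ∀ l, |(rc (G.nn p) x l : ℝ)| ≤ R * G.Q k * G.rt p.2 k) →
    (G.wm p.1).Lc (β p) p.2 k d C (G.sx k)
      (lW Y fun x => F x / (G.wm p.1).xk (β p) p.2 k Y) 0 := by
  obtain ⟨C, C0, H⟩ := h.cen hβ R
  obtain ⟨A, -, ax⟩ := ax_let hd hr h0
  have o := (h 0).1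
  obtain ⟨k0, rn⟩ := o.runs
  refine ⟨C, C0, ?_⟩
  filter_upwards [H, eventually_ge_atTop k0, o.L_nat.eventually_ge_atTop d,
    o.Q_top.eventually_ge_atTop A] with k H k1 k2 k3
  filter_upwards [H, (((tendsto_pow_atTop_atTop_of_one_lt (show (1 : ℝ) < 1.98 by norm_num)).comp
    ((tendsto_sub_atTop_nat k).comp tendsto_snd)).mono_left L6.fast_le).eventually_ge_atTop
      (2 * G.sg (k + 1) * A ^ 2)] with p a hJ F h1 h2 h3 h4
  obtain ⟨q, pu⟩ := h p.1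
  have dR : d ≤ (G.p k).R := by
    have : G.L k ≤ G.D0 k := by exact_mod_cast o.LD k
    exact k2.trans (this.trans (Nat.le_mul_of_pos_left _ four_pos))
  obtain ⟨x, hx⟩ : ∃ x : ℝ, x = (G.wm p.1).xk (β p) p.2 k Y := ⟨_, rfl⟩
  obtain ⟨X, hX⟩ : ∃ X : Option (Fin 4) → Let, X = fun o => o.elim ((x⁻¹ : ℝ) • Y) 0 := ⟨_, rfl⟩
  have e : ∀ ε T, (Vf.top (mir ε X)).P (G.nn p) T = (x : ℂ)⁻¹ • lW (Wd.act (rE ε) Y) (T none) :=
    fun ε T => by
    change ∑ o, lWL (T o) (mir ε X o) + ((0 : ℝ) : ℂ) • _ = _ • lWL _ _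
    simp [hX, mir, Wd.sE, ← Complex.coe_smul]
  have := a.2 d d (fun ε => Vf.top (mir ε X)) _ 0 dR (fun ε => ⟨rfl, fun o => ?_⟩) top_vr
    (fun ε T t r hr => ?_) (nm_one (by positivity) h1 (fun x => ⟨(h2 x).1, (h2 x).2.1⟩) h3)
    (fun o x e => by cases o; exacts [h4 x e, absurd rfl e]) ?_
  · rw [e, Wd.rE_zero, Wd.act_one, ← lW_smul, hx] at this
    simp only [div_eq_inv_mul]
    exact this
  · have : Wd.Rad d (X o) ∧ Wd.Re (X o) := by
      rw [hX]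
      cases o
      exacts [⟨(Wd.RdS d).smul_mem ((x⁻¹ : ℝ) : ℂ) hd, Wd.rl_smul (Complex.ofReal_im x⁻¹) hr⟩,
        ⟨nofun, fun _ => rfl⟩]
    exact ⟨(Wd.RdS d).smul_mem _ (this.1.act _), Wd.rl_smul rfl (Wd.rl_act _ this.2)⟩
  · obtain ⟨s, s1, s2⟩ := sgn_rE hs ε
    obtain rfl : r = d := by simpa using hr
    rw [e, s2, show lW (s • Y) _ = _ from (lWL _).map_smul _ _, smul_smul, ← div_eq_inv_mul, hx]
    exact ax _ _ _ _ q (hβ p) pu (rn _ q pu _ _ _ k1 (hβ p) 280 (by norm_num) (by norm_num)) dR k3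
      a.1 hJ s _ s1 (t.bd none).1 (fun x => ((t.bd none).2 x).1) t.lip
  · have z : ∑ x ∈ box (G.nn p / 2), F x = 0 := sum_involution (fun x _ => -x)
      (fun x _ => by rw [(h2 x).2.2, add_neg_cancel]) (fun x _ e u => e (by
        have := (h2 x).2.2
        rw [u] at this
        exact self_eq_neg.1 this)) (fun _ => RG.neg_mem_box) fun _ _ => neg_neg _
    rw [show (Vf.top (mir 0 X)).Y (G.nn p) _ = fun U => -1 * sm (G.nn p) (X none) F U from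
      funext fun U => by simp [top_Y, Wd.mir_zero, hX, Wd.sm_zero], vM_smul, vM_sm, z]
    simp

end Gl

end Pool.Agent.Lib.MP_7f377f_mp.RG.Q4.En
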