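import Pool.Agent.Lib.MP_7f377f_mp.G.CaT
import Pool.Agent.Lib.MP_7f377f_mp.G.CaH6
import Pool.Agent.Lib.MP_7f377f_mp.G.CaH1

/-! Sources with a small support: the flow below the level of the support. -/

noncomputable section

open Pool.Agent.Lib.MP_7f377f_mp.Jet

set_option linter.unusedSectionVars false
variable [Pool.Agent.Lib.MP_7f377f_mp.GD]

namespace Pool.Agent.Lib.MP_7f377f_mp.RG.Q4.En

open Finset Function Sg Real Pos Mg Filter YM7 Topology
open scoped Classical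

namespace Gl

/-- sources which are admissible above the level `k` -/
def Ax (G : Gl) (b : ℝ) (J k d : ℕ) (F : Sx) : Prop :=
  (∃ M, F.Ok (G.p J) d 1 M ∧ G.sx k J * M ≤ 1) ∧ ∀ l, k < l → l ≤ J →
    G.S1 (fun l => (G.Q l ^ 100)⁻¹) l ((3 / 2) ^ (l - (k + 1)) * G.Q l ^ 5)
      (G.tn b J (G.xv b J F) J l)

variable {G : Gl} {b N r θ ν : ℝ} {J k j l i d : ℕ} {F : Sx} {W : Finset St}

theorem sx_top : G.sx k (k + 1) = G.sg (k + 1) := by simp [sx]

namespace Ok

variable (h : G.Ok)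
include h

theorem sg_one (l : ℕ) : 1 ≤ G.sg l := (one_le_div (pow_pos (h.Q0 l) _)).2
  ((pow_le_pow_right₀ (h.Q1 l) (by norm_num)).trans (h.Qb l))

theorem sg_num (hl : l ≤ k) (hi : i ≤ 240) : G.Q k ^ i * G.sg l ≤ G.bb k := by
  rw [sg, ← mul_div_assoc, div_le_iff₀ (pow_pos (h.Q0 l) _), mul_comm]
  exact (h.mono5 hl (by omega)).trans (mul_le_mul_of_nonneg_left
    (pow_le_pow_right₀ (h.Q1 l) (by omega)) (h.b0 k).le)

theorem sx_pos (k l : ℕ) : 0 < G.sx k l := div_pos (one_pos.trans_le (h.sg_one _)) (by positivity)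

theorem sx_le (k l : ℕ) : G.sx k l ≤ G.sg (k + 1) :=
  div_le_self (zero_le_one.trans (h.sg_one _)) (one_le_pow₀ one_le_two)

/-- the jet is bounded by the mass -/
theorem ms_sz {Y : Fy Unit} {P : Unit → Prop} (hP : P ())
    (e : Fi (G.p k) (G.N k) univ Y.Z (fun _ => r) θ Y.ψ Y.K) (m : G.Ms k (fun _ => r) P ν Y.ψ Y.K) :
    G.S1 (fun l => (G.Q l ^ 100)⁻¹) k (2 / r * (G.Q k ^ 50 * (G.bb k * ν))) (Y.jt {()}) := by
  obtain ⟨z, o, m1, m2⟩ := m
  have r0 := e.pos ()
  have q := h.Q0 k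
  have g0 := h.g0 k
  have hs : Pi.single () ((r / 2 : ℝ) : ℂ) ∈ Pd fun _ : Unit => r := fun _ => by
    rw [Pi.single_eq_same, Complex.norm_real, norm_eq_abs, abs_of_pos (half_pos r0)]
    exact half_lt_self r0
  have a := m2 _ hs
  have u := fun x => (e.fl.meas _ hs x).sub (e.fl.meas _ (zero_mem e.pos) x)
  rw [show off P _ = 0 from funext fun _ => if_pos hP] at a
  have m0 := o.mass_nn (p := G.p k) (n := G.N k) (Q := G.Q k) (g := G.g k)
  have m3 : z.mass (G.p k) (G.N k) (G.Q k) (G.g k) ≤ G.bb k * ν := by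
    linear_combination (mul_le_mul_of_nonneg_left m1 (h.b0 k).le) -
      z.mass (G.p k) (G.N k) (G.Q k) (G.g k) * h.bg k
  have m4 := (m0.trans m3)
  have m5 := m3.trans (le_mul_of_one_le_left m4 (one_le_pow₀ (n := 50) (h.Q1 k)))
  have c : G.Sz k (G.Q k ^ 50 * (G.bb k * ν)) (G.Q k ^ 50 * (G.bb k * ν)) (G.Q k ^ 100)⁻¹ _ _ :=
    ⟨PM.mono (h.ρ0 k) (fun x => ⟨a.ps' (Q := G.Q k) o (h.ρ0 k) g0 (h.N_odd k) x, u x⟩) m5
      (m5.trans (le_mul_of_one_le_left (m0.trans m5) (one_le_pow₀ (h.Q1 k))))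
      ((mul_le_mul_of_nonneg_left m3 (sq_nonneg _)).trans_eq (by field_simp)), _, a.km, o.d, fun x =>
        (sum_le_sum_of_subset_of_nonneg (filter_subset _ _) fun _ _ _ =>
          mul_nonneg (o.d _ _) (exp_pos _).le).trans (by
          have := (le_add_of_nonneg_left (sum_nonneg fun x _ => o.site x)).trans m3
          rw [div_mul_eq_mul_div, div_le_iff₀ (by positivity), ← le_div_iff₀' (by positivity)] at this
          exact this.trans_eq (by field_simp))⟩
  have := sz_smul (h.ρ0 k) c ((2 / r : ℝ) : ℂ)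
  rw [e.single (mem_univ _), e.ml.single (mem_univ _), add_sub_cancel_left, add_sub_cancel_left,
    smul_smul, smul_smul, ← Complex.ofReal_mul, show 2 / r * (r / 2) = 1 by field_simp,
    Complex.ofReal_one, one_smul, one_smul, Complex.norm_real, norm_eq_abs,
    abs_of_pos (by positivity)] at this
  exact this

end Ok

theorem Ax.rx (x : G.Ax b J k d F) (h : G.Ok) (hk : k < J) : G.Rx b J k d (G.sx k) F := by
  refine ⟨x.1.elim fun M a => ⟨1, M, a.1, ?_, a.2⟩, fun l h1 h2 => ⟨_, ?_, x.2 l h1 h2⟩⟩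
  · have := h.sg_num hk (i := 1) (by norm_num)
    nlinarith [h.sx_le k J, h.sg_one (k + 1), h.cQ J (C := 4) (by norm_num)]
  · refine le_trans ?_ (h.sg_num h1 (i := 228) (by norm_num))
    have := h.Q0 l
    have := h.sg_one (k + 1)
    calc _ = G.Q l ^ 228 * G.sg (k + 1) * (3 / 4) ^ (l - (k + 1)) := by
          rw [sx, show (3 / 4 : ℝ) = 3 / 2 / 2 by norm_num, div_pow (3 / 2 : ℝ)]
          generalize (3 / 2 : ℝ) ^ _ = u
          ring
      _ ≤ _ := mul_le_of_le_one_right (by positivity) (pow_le_one₀ (by norm_num) (by norm_num))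

theorem xf_hd {a M : ℝ} (e : F.Ok (G.p J) d a M) (r0 : 0 < r) :
    HD (fun _ => r) (G.xf univ (fun _ : Unit => F) b J J) := by
  obtain ⟨m, ⟨C, c⟩, -⟩ := gi_xO (n := G.N J) e
  rw [xf_top]
  refine (hd_bc (fun _ => r0) (Br.gi_bc (gi_wil (G.N J)))).mul ⟨⟨exp (r * C), fun U => ?_⟩,
    fun s _ => by
      simp only [xO_sum]
      exact (measurable_sum _ fun _ _ => m.const_mul _).neg.cexp⟩
  simpa only [xO_sum, mul_neg, sum_neg_distrib] using ((sh_lin (fun _ => r0) univ fun _ : Unit =>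
    -xO (G.N J) F U).mono (by simpa using mul_le_mul_of_nonneg_left (c U) r0.le)).exp

/-- the flow of a source with a small support -/
theorem Ax.small (x : G.Ax b J k d F) (h : G.Ok) (t : G.Tu b J) (hp : G.Pu) (hk : k < J)
    (hj : j ≤ k + 1) (hd : d ≤ (G.p J).R) (hZ : F.In (G.N J) W) (big : 1000 * 3 ^ 1 ≤ G.L j)
    (hV : ((G.zs W J (k + 1)).card : ℝ) ≤ G.Q (k + 1) ^ 40) (hN : ((G.zs W J j).card : ℝ) ≤ N) :
    G.sg (k + 1) * ‖G.tt (fun U => -xO (G.N J) F U * wil b (G.N J) U) J j 1 / G.f b J j 1 -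
      G.ex b J (k + 1) F‖ ≤ exp N + 1 ∧ ∀ l, j ≤ l → l ≤ k + 1 →
      G.S1 (fun l => (G.Q l ^ 100)⁻¹) l (G.bb l / G.sg (k + 1)) (G.tn b J (G.xv b J F) J l) := by
  have R := x.rx h hk
  have σ0 := one_pos.trans_le (h.sg_one (k + 1))
  have q := h.Q0 (k + 1)
  have jJ := hj.trans hk
  have cl : ∀ {n δ} {Z : Unit → Finset St} {c : Unit → Unit}, Cls n δ univ c Z :=
    fun _ _ _ _ e => (e rfl).elim
  have e := h.xt_fd (A := univ) (F := fun _ : Unit => F) (W := fun _ => W) t hd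
    (fun _ => h.sx_pos k J) (fun _ => hZ) (fun _ _ => R.1) cl le_rfl
  obtain ⟨c1, c2, c3, -⟩ := h.chainG t (r := fun l _ => G.sx k l) (m := fun _ => 2) hp le_rfl
    ⟨fun l a b x hx => xt_jt (G := G) hx ▸ R.2 l a b, fun _ _ _ => cl, fun l a b =>
      ⟨one_le_two, h.cQ l (by norm_num), fun _ => ⟨by unfold sx; gcongr; norm_num,
        fun _ => le_of_eq (by
          rw [sx, sx, show l + 1 - (k + 1) = l - (k + 1) + 1 by omega, pow_succ]
          push_cast
          field_simp)⟩⟩⟩ e xt_bs xt_ec (k + 1) hk le_rfl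
  have H := xf_hd (b := b) x.1.choose_spec.1 σ0
  simp only [sx_top] at c1
  replace c1 := h.fd_up (t.gd _ hk).tz c1 (tt_hd H hk)
  have c4 := (c3 () (mem_univ _)).trans (congrArg (G.tn b J · J (k + 1)) (xt_jt (mem_univ _)))
  have z := x.2 (k + 1) k.lt_succ_self hk
  rw [Nat.sub_self, pow_zero, one_mul] at z
  have T := h.famII (H := fun k => (G.zz b J k).d) (j := j) (c := 1) (cl := id) t (h.pu_all t hp) hk
    (fun l _ hl => ⟨by rw [zz_step b (hl.trans_le hk)]; rfl,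
      pu_mono (h.bz_run t (hl.trans_le hk)).1 (h.inv_up l.le_succ _)⟩) c2 (fun _ _ _ => cl)
    (fun _ => card_le_univ _) big (inv_pos.2 (pow_pos q 220)).le
    (mul_inv_cancel₀ (pow_pos q _).ne').le (fun _ => le_rfl)
    (f := fun l s => G.tt (G.xf univ (fun _ : Unit => F) b J J s) J l)
    (fun l _ hl => funext fun _ => tt_step _ (hl.trans_le hk)) c1 fun _ =>
      h.ms_init c1.fi cl one_pos (fun _ _ => le_rfl) σ0.le (pow_pos q 5).le
        (inv_pos.2 (pow_pos q 100)).le (by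
          rw [← div_eq_mul_inv, div_le_one (pow_pos q _)]
          exact pow_le_pow_right₀ (h.Q1 _) (by norm_num)) (fun _ _ => c4 ▸ z)
        (fun _ _ _ => by rw [fw_Z _ hk]; exact Subset.rfl) hV
        (pow_le_pow_right₀ (h.Q1 _) (by norm_num)) (by
          rw [sg, show ∀ x y : ℝ, x ^ 223 * (x ^ 40 * (y / x ^ 1200 * x ^ 5)) =
            y * (x ^ 268 / x ^ 1200) from fun _ _ => by ring]
          exact mul_le_of_le_one_right (h.b0 _).le ((div_le_one (pow_pos q _)).2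
            (pow_le_pow_right₀ (h.Q1 _) (by norm_num))))
  have n : ∀ l ≤ k + 1, (G.Q (k + 1) ^ 220)⁻¹ / 100 ^ (k + 1 - l) ≤ (G.Q l ^ 220)⁻¹ := fun l a =>
    (div_le_self (by positivity) (one_le_pow₀ (by norm_num))).trans (h.inv_up a _)
  have u : ∀ l, 2 * (G.Q l ^ 50 * (G.Q l ^ 220)⁻¹) ≤ 1 := fun l => by
    have := h.qpw l (show 50 < 220 by norm_num)
    have := pow_pos (h.Q0 l) 50
    rw [← mul_assoc, ← div_eq_mul_inv, div_le_one (pow_pos (h.Q0 l) _)]
    linarith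
  have E := fun l (a : l ≤ k + 1) => fw_fw (G := G) (A := univ) (β := b) (J := J)
    (Y := G.xt univ (fun _ : Unit => F) (fun _ => W) b J) hk l a
  have jt : ∀ l ≤ k + 1, j ≤ l → (G.fw univ b J (G.fw univ b J (G.xt univ (fun _ : Unit => F)
      (fun _ => W) b J) J (k + 1)) (k + 1) l).jt {()} = G.tn b J (G.xv b J F) J l :=
    dw_ind (fun _ => by rw [fw_top, c4]) fun l a ih c => by
      obtain ⟨t1, t2, -⟩ := T (l + 1) a (by omega)
      rw [fw_step a, h.fs_jt (t.gd _ (a.trans_le hk)).tz t1.fi (mem_univ _), t2, ih (by omega),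
        tn_step (a.trans_le hk)]
      rfl
  refine ⟨?_, fun l a c => ?_⟩
  · have a1 := (T (k + 1) le_rfl hj).2.2.2.2 {()} (subset_univ _) (singleton_nonempty _)
    have a := h.fill1 (t.gd j jJ).tz (T j hj le_rfl).1 (h.th_le j).2 (q := ()) (N := N) (by
      rw [E j hj, fw_Z j jJ]; exact hN)
    rw [E j hj, ex_eq (mem_univ _) jJ] at a a1
    rw [E _ le_rfl, ex_eq (mem_univ _) hk, prod_singleton, le_div_iff₀' σ0] at a1
    rw [jd_tt H jJ, h.xf_zero t.hb hd J le_rfl, h.f_tt b le_rfl, tt_tt le_rfl j jJ, ← h.f_tt b jJ,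
      show (fun U => jd {()} (G.xf univ (fun _ : Unit => F) b J J · U)) = fun U =>
        -xO (G.N J) F U * wil b (G.N J) U from funext fun U => ?_] at a
    · refine (mul_le_mul_of_nonneg_left (norm_sub_le_norm_sub_add_norm_sub _ (G.ex b J j F) _)
        σ0.le).trans ((mul_add _ _ _).trans_le (add_le_add ?_ (a1.trans ?_)))
      · rw [← le_div_iff₀' σ0, div_eq_mul_inv]
        exact a.trans (mul_le_mul_of_nonneg_left (inv_anti₀ σ0 (le_mul_of_one_le_left σ0.le
          (one_le_pow₀ one_le_two))) (exp_pos _).le)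
      · refine le_trans ?_ (u (k + 1))
        rw [mul_assoc]
        gcongr
        exacts [h.Q1 _, by norm_num, n _ le_rfl]
    have := jd_smul (wil b (G.N J) U) (fun s : Unit → ℂ =>
      Complex.exp (∑ i, s i * -xO (G.N J) F U)) {()}
    rw [jd_exp_lin _ (subset_univ _), prod_singleton, mul_comm] at this
    rw [← this]
    simp only [xf_top, xO_sum, mul_neg, sum_neg_distrib]
    rfl
  · obtain ⟨t1, -, t3, -⟩ := T l c a
    have := h.ms_sz rfl t1.fi (t3 ())
    rw [jt l c a] at this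
    have b0 := h.b0 l
    have := h.Q0 l
    have v : 2 / (2 ^ (k + 1 - l) * G.sg (k + 1)) * (G.Q l ^ 50 * (G.bb l *
        ((G.Q (k + 1) ^ 220)⁻¹ / 100 ^ (k + 1 - l)))) ≤ G.bb l / G.sg (k + 1) :=
      calc _ ≤ 2 / (1 * G.sg (k + 1)) * (G.Q l ^ 50 * (G.bb l * (G.Q l ^ 220)⁻¹)) := by
            gcongr
            exacts [one_le_pow₀ one_le_two, n l c]
        _ = 2 * (G.Q l ^ 50 * (G.Q l ^ 220)⁻¹) * (G.bb l / G.sg (k + 1)) := by ring
        _ ≤ _ := mul_le_of_le_one_left (by positivity) (u l)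
    exact h.sz_le ‹G.S1 _ _ _ _› (by positivity) v v le_rfl

end Gl

end Pool.Agent.Lib.MP_7f377f_mp.RG.Q4.En
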