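import Pool.Agent.Lib.MP_7f377f_mp.G.CaKV0
import Pool.Agent.Lib.MP_7f377f_mp.G.CaK0
import Pool.Agent.Lib.MP_7f377f_mp.G.CaKB2

/-! Words which transform like a vector in terms of three letters of the block field. -/

noncomputable section

set_option linter.unusedSectionVars false
variable [Pool.Agent.Lib.MP_7f377f_mp.GD]

namespace Pool.Agent.Lib.MP_7f377f_mp.RG.Q4.En

open Finset Function Sg Real Pos Mg Filter YM7 Topology
open Wd (Let B4 gR KK)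
open Pur (mon)
open scoped Classical

theorem two_div_le {k e : ℕ} (h : k ≤ e) :
    (2 : ℝ) ^ k / 3 ^ e ≤ ((3 : ℝ) ^ e)⁻¹ ^ (640⁻¹ : ℝ) := by
  refine le_trans ?_ (rpow_le_rpow_of_exponent_ge (by positivity)
    (inv_le_one_of_one_le₀ (one_le_pow₀ (by norm_num))) (show (640⁻¹ : ℝ) ≤ ((3 : ℕ) : ℝ)⁻¹ by norm_num))
  refine (div_le_div_of_nonneg_right (pow_le_pow_right₀ one_le_two h) (by positivity)).trans ?_
  rw [le_rpow_inv_iff_of_pos (by positivity) (by positivity) (by norm_num), rpow_natCast,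
    ← div_pow, ← inv_pow, ← pow_mul, mul_comm, pow_mul]
  exact pow_le_pow_left₀ (by positivity) (by norm_num) _

namespace Gl

variable {ι κ : Type} [Fintype ι] [DecidableEq ι] [Fintype κ] [DecidableEq κ] [Inhabited κ]
  {G : Gl} {β : ℕ × ℕ → ℝ} {δ : ℝ} {kd : ℝ → ℕ} {p : ℕ × ℕ} {k n s i c r : ℕ} {C W : ℝ}
  {B : Wo ι κ} {f : R4 → ℝ} {g : Fin n → R4 → ℝ}

theorem Wh.vI_gR (w : G.Wh β p k s i c r C W B) {u : B4} (hu : u ∈ KK 0) :
    Wd.sg 0 u * G.vI β p (B.gs (G.nn p) s (jet (G.nn p) (G.aa p) (fun y => f (gR u y)) none))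
      (mon fun i y => g i (gR u y)) =
    G.vI β p (B.gs (G.nn p) s (jet (G.nn p) (G.aa p) f none)) (mon g) := by
  have b : ∀ F, BC (B.gs (G.nn p) s F) := fun F => bc_sum' fun z _ =>
    bc_mul (bc_cont continuous_const) (bc_comp w.bc (Ms.cont_sh _).measurable)
  rw [← mon_gR, ← vI_pb (b _), ← smul_eq_mul, ← LinearMap.smul_apply, ← vI_smul,
    (jet_gR (G.nn_odd p) u f).1]
  refine LinearMap.congr_fun (vI_congr fun U hU => ?_) _
  refine (mul_sum ..).trans ((sum_congr rfl fun z _ => ?_).trans (Wd.sum_gv u _ _))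
  rw [Wd.sh_pb, w.cov u hu _ (per_sh' hU _), ← Wd.gv_smul, mul_left_comm (Wd.sg 0 u),
    ← mul_assoc (Wd.sg 0 u), Wd.sg_sq (hu 0 (.inl rfl)), one_mul]

theorem vB_neg (X : Let) : G.vB β (-X) k p (-f) = G.vB β X k p f := by
  rw [vB, vB, ← neg_one_smul ℝ f, jet_smul]
  exact congrArg (fun O => G.vI β p ((G.wm p.1).ta O p.2 k)) (funext fun U =>
    (congrArg (Wd.sm _ _ · U) (funext fun y => by simp [fd])).trans (Wd.sm_neg U))

/-- the insertion as a linear function of the letter -/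
def Oks.vBm (h : G.Oks) (hk : k ≤ p.2) (f : R4 → ℝ) (Z : Pur.Pol) : Let →ₗ[ℂ] ℂ :=
  have e : ∀ Y Y' (c : ℂ), G.vB β (Y + c • Y') k p f Z = G.vB β Y k p f Z + c * G.vB β Y' k p f Z :=
    fun Y Y' c => by
      have o := (h p.1).1
      rw [vB, vB, vB, ← smul_eq_mul, ← LinearMap.smul_apply, ← LinearMap.add_apply, ← vI_smul,
        ← vI_add (o.ta_bc hk (Wd.sm_bc ..)) (bc_mul (bc_cont continuous_const)
          (o.ta_bc hk (Wd.sm_bc ..))), ← o.ta_lin hk (Wd.sm_bc ..) (Wd.sm_bc ..)]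
      simp only [← Wd.sm_smul, ← Wd.sm_add]
  { toFun Y := G.vB β Y k p f Z
    map_add' Y Y' := by simpa using e Y Y' 1
    map_smul' c Y := by
      have := e 0 0 1
      rw [one_smul, add_zero, one_mul, left_eq_add] at this
      simpa [this] using e 0 Y c }

variable (h : G.Oks) (hβ : G.Tus β)
include h

theorem Oks.vB_ro (hk : k ≤ p.2) (u : B4) (Y : Fin 4 → Let) :
    ∑ m, G.vB β (Wd.ro u Y m) k p (Fx.pd m f) (mon g) = Wd.sg 0 u * ∑ m,
      G.vB β (Y m) k p (Fx.pd m fun y => f (gR u y)) (mon fun i y => g i (gR u y)) := by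
  rw [Wd.sum_ax u (φ := fun X F => G.vB β X k p F (mon g)) fun _ _ => by rw [vB_neg], mul_sum]
  refine sum_congr rfl fun m _ => ?_
  rw [Wd.cd_ro]
  refine ((h.vBm hk _ _).map_smul _ _).trans (congrArg (_ * ·) ((h.vB_mon hk ..).trans ?_))
  refine congrArg (G.vB β _ k p · _) (funext fun y => ?_)
  rw [pd_gR, Wd.cd, Wd.cd]
  split_ifs <;> rfl

theorem Oks.vec_avg (w : G.Wh β p k s i c r C W B) {a : Fin 3 ⊕ Wd.Iv → ℝ}
    {a' : Fin 4 → Fin 3 ⊕ Wd.Iv → ℝ} {z : Fin 3 → ℝ} {M : ℝ}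
    (hz : Wd.cov (fun m => ∑ x, (a' m x : ℂ) • Wd.OF m x) = ∑ ρ, (z ρ : ℂ) • Wd.WW ρ)
    (H : ∀ u : B4, ‖G.vI β p (B.gs (G.nn p) s (jet (G.nn p) (G.aa p) (fun y => f (gR u y)) none))
      (mon fun i y => g i (gR u y)) + ∑ x, a x * G.vB β (Wd.PO x) k p (fun y => f (gR u y))
        (mon fun i y => g i (gR u y)) + ∑ m, ∑ x, a' m x * G.vB β (Wd.OF m x) k p
          (Fx.pd m fun y => f (gR u y)) (mon fun i y => g i (gR u y))‖ ≤ M) :
    ‖G.vI β p (B.gs (G.nn p) s (jet (G.nn p) (G.aa p) f none)) (mon g) +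
      ∑ ρ, a (.inl ρ) * G.vB β (Wd.dvg (Wd.WW ρ)) k p f (mon g) +
      ∑ ρ, z ρ * ∑ m, G.vB β (Wd.WW ρ m) k p (Fx.pd m f) (mon g)‖ ≤ M := by
  have hk := w.wg.lt.le
  have L : ∀ (f : R4 → ℝ) Z Y, G.vB β Y k p f Z = h.vBm hk f Z Y := fun _ _ _ => rfl
  have e1 := congrArg (h.vBm (β := β) hk f (mon g)) (Wd.avg_PO fun x => a x)
  have e2 := congrArg (fun Y : Fin 4 → Let => ∑ m, h.vBm (β := β) hk (Fx.pd m f) (mon g) (Y m)) hz
  rw [Wd.avg_apply] at e1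
  rw [Wd.cov_apply] at e2
  simp only [Pi.smul_apply, Finset.sum_apply, map_smul, map_sum (h.vBm hk _ _),
    map_sum (Wd.act _), smul_eq_mul, ← mul_sum] at e1 e2
  rw [sum_comm, sum_comm (s := univ) (t := (univ : Finset (Fin 3)))] at e2
  simp only [← L, h.vB_ro hk, h.vB_mon hk, ← mul_sum] at e1 e2
  simp only [L, map_smul, map_sum, smul_eq_mul] at e2
  simp only [← L] at e2
  have c0 : (Nat.card (KK 0) : ℂ) ≠ 0 := Nat.cast_ne_zero.2 Nat.card_pos.ne'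
  rw [← e1, ← e2, ← inv_mul_cancel_left₀ c0 (G.vI β p _ _), Nat.card_eq_fintype_card,
    ← nsmul_eq_mul, ← card_univ, ← sum_const, ← sum_congr rfl fun u _ => w.vI_gR u.2, ← mul_add,
    ← mul_add, ← sum_add_distrib, ← sum_add_distrib, norm_mul, norm_inv, Complex.norm_natCast,
    inv_mul_le_iff₀ (Nat.cast_pos.2 (card_pos.2 univ_nonempty)), ← nsmul_eq_mul, ← sum_const]
  refine norm_sum_le_of_le _ fun u _ => ?_
  rw [← mul_add, ← mul_add, norm_mul, Wd.norm_sg (u.2 0 (.inl rfl)), one_mul]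
  exact H u

include hβ

theorem Oks.vec_words : ∃ r0, ∀ r ≥ r0, ∀ i c C, ∃ (q : ℕ)
    (z : ℕ → ℕ × ℕ → ℕ → ℝ → Wo ι κ → Fin 3 → ℝ),
    (∀ᶠ k in atTop, ∀ᶠ p in L6.fast, ∀ s W B, G.Wh β p k s i c r C W B →
      ∀ ρ, |z k p s W B ρ| ≤ G.Q k ^ q * W) ∧
    OnA ⊤ fun _ f g => ∃ K, ∀ᶠ k in atTop, ∀ᶠ p in L6.fast, ∀ s W B, G.Wh β p k s i c r C W B →
      ‖G.vI β p (B.gs (G.nn p) s (jet (G.nn p) (G.aa p) f none)) (mon g) -
        ∑ ρ, z k p s W B ρ * ∑ m, G.vB β (Wd.WW ρ m) k p (Fx.pd m f) (mon g)‖ ≤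
          K * (G.Q k ^ q * W) * ((3 : ℝ) ^ G.e k)⁻¹ ^ (640⁻¹ : ℝ) := by
  obtain ⟨r0, V⟩ := h.vec_w0 (ι := ι) (κ := κ) hβ
  refine ⟨r0, fun r hr i c C => ?_⟩
  obtain ⟨q, a, a', b1, b2⟩ := V r hr i c C
  choose z z1 z2 using Wd.cov_OF'
  have o := (h 0).1
  have n : ∀ {k p s W B} ρ, ∑ x, |a k p s W B x| ≤ G.Q k ^ q * W * 3 ^ G.e k →
      |a k p s W B (.inl ρ) / 3 ^ G.e k| ≤ G.Q k ^ q * W := fun ρ e => by
    rw [abs_div, abs_pow, Nat.abs_ofNat, div_le_iff₀ (pow_pos three_pos _)]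
    exact (single_le_sum (f := fun x => |a _ _ _ _ _ x|) (fun _ _ => abs_nonneg _)
      (mem_univ _)).trans e
  refine ⟨q + 1, fun k p s W B ρ => a k p s W B (.inl ρ) / 3 ^ G.e k - z (a' k p s W B) ρ, ?_,
    fun _ t e f g a1 a2 a3 => ?_⟩
  · refine b1.mono fun k e => e.mono fun p e s W B w ρ => ?_
    have e1 := (z1 _ ρ).trans (sum_le_card_nsmul _ _ _ fun m _ => (e s W B w).2 m)
    have e2 : 5 * (G.Q k ^ q * W) ≤ G.Q k * (G.Q k ^ q * W) := mul_le_mul_of_nonneg_right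
      (o.cQ k (by norm_num)) (mul_pos (pow_pos (o.Q0 k) q) w.w0).le
    rw [card_univ, Fintype.card_fin, nsmul_eq_mul, Nat.cast_ofNat] at e1
    refine (abs_sub _ _).trans ((add_le_add (n ρ (e s W B w).1) e1).trans ?_)
    rw [pow_succ', mul_assoc]
    exact le_of_eq_of_le (by ring) e2
  choose K e1 using b2.all _ t e f g a1 a2 a3
  choose K' e2 using fun ρ => h.dvg_blk hβ (Z := Wd.WW ρ) (Wd.rl_WW ρ) _ t e f g a1 a2 a3
  refine ⟨∑ u, |K u| + ∑ ρ, |K' ρ|, ?_⟩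
  filter_upwards [b1, eventually_all.2 e1, eventually_all.2 e2] with k b1 e1 e2
  filter_upwards [b1, eventually_all.2 e1, eventually_all.2 e2] with p b1 e1 e2 s W B w
  have q0 : 0 < G.Q k ^ q * W := mul_pos (pow_pos (o.Q0 k) q) w.w0
  have ε0 : 0 ≤ ((3 : ℝ) ^ G.e k)⁻¹ ^ (640⁻¹ : ℝ) := by positivity
  have e3 := two_div_le (e := G.e k) (o.sch.mono.le_apply (x := k))
  have e4 := h.vec_avg w (z2 _) fun u => (e1 u s W B w).trans (mul_le_mul_of_nonneg_right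
    (mul_le_mul_of_nonneg_right ((le_abs_self _).trans (single_le_sum (f := fun u => |K u|)
      (fun _ _ => abs_nonneg _) (mem_univ u))) q0.le) ε0)
  have e5 := norm_sub_le_of_le e4 (norm_sum_le_of_le univ fun ρ _ => (norm_mul_le_of_le
    ((Complex.norm_real _).trans_le (n ρ (b1 s W B w).1)) ((e2 ρ).trans ((mul_div_assoc ..).trans_le
      (mul_le_mul (le_abs_self _) e3 (by positivity) (abs_nonneg _))))))
  refine le_of_eq_of_le (congrArg _ ?_) (e5.trans ?_)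
  · have : ((3 : ℂ) ^ G.e k) ≠ 0 := pow_ne_zero _ three_ne_zero
    rw [add_assoc, add_sub_assoc, ← sum_add_distrib, ← sum_sub_distrib, sub_eq_add_neg,
      ← sum_neg_distrib]
    refine congrArg (_ + ·) (sum_congr rfl fun ρ _ => ?_)
    push_cast
    field_simp
    ring
  · rw [← mul_sum, ← sum_mul, ← mul_assoc (_ * W), mul_comm (_ * W), ← add_mul, ← add_mul]
    exact mul_le_mul_of_nonneg_right (mul_le_mul_of_nonneg_left (mul_le_mul_of_nonneg_right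
      (pow_le_pow_right₀ (o.Q1 k) q.le_succ) w.w0.le) (by positivity)) ε0

end Gl

end Pool.Agent.Lib.MP_7f377f_mp.RG.Q4.En
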