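import Pool.Agent.Lib.MP_7f377f_mp.G.CaKV1
import Pool.Agent.Lib.MP_7f377f_mp.G.CaKV2

/-! The charges in terms of letters of the block field. -/

noncomputable section

set_option linter.unusedSectionVars false
variable [Pool.Agent.Lib.MP_7f377f_mp.GD]

namespace Pool.Agent.Lib.MP_7f377f_mp.RG.Q4.En

open Finset Function Sg Real Pos Mg Filter YM7 Topology
open Wd (Let)
open Pur (mon)
open scoped Classical

namespace Gl

theorem Ls.mul {x y : ℝ → ℝ} (hx : Ls x) (hy : Ls y) : Ls fun d => x d * y d := by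
  refine ⟨fun ε ε0 => ?_, fun d => one_le_mul_of_one_le_of_one_le (hx.2 d) (hy.2 d)⟩
  filter_upwards [hx.1 _ (half_pos ε0), hy.1 _ (half_pos ε0), self_mem_nhdsWithin] with d a b d0
  rw [abs_mul, ← add_halves ε, rpow_add d0, mul_mul_mul_comm]
  exact mul_le_one₀ a (mul_nonneg (abs_nonneg _) (rpow_nonneg (le_of_lt d0) _)) b

theorem Ls.const {c : ℝ} (c1 : 1 ≤ c) : Ls fun _ => c := by
  refine ⟨fun ε ε0 => ?_, fun _ => c1⟩
  have a := ((continuousAt_rpow_const 0 ε (.inr ε0.le)).tendsto.const_mul |c|).mono_left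
    (nhdsWithin_le_nhds (s := Set.Ioi 0))
  rw [zero_rpow ε0.ne', mul_zero] at a
  exact a.eventually_le_const one_pos

variable {G : Gl} {β : ℕ × ℕ → ℝ} {δ : ℝ} {kd : ℝ → ℕ} (h : G.Oks) (hβ : G.Tus β)
include h hβ

/-- (K8) the charges in terms of letters of the block field -/
theorem Oks.vec_blk {u ξ : R4 → ℝ} (hb : Ope.Bmp u ξ) (h1 : ContDiff ℝ (⊤ : ℕ∞) u)
    (h2 : ∀ x y, ‖x‖ = ‖y‖ → u x = u y ∧ ξ x = ξ y) (h3 : ∀ y, 2⁻¹ ≤ ‖y‖ → u y = 0)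
    (h4 : ∀ y, ‖y‖ ≤ 1 → ξ y = 1) (δ0 : 0 < δ) (δ1 : δ ≤ 4⁻¹) (K : G.Kd δ kd) {y : ℝ → ℝ}
    (hy : Ls y) (i : Fin 3) : ∃ (z : ℝ → ℕ → ℕ × ℕ → Fin 3 → ℝ) (y' : ℝ → ℝ), Ls y' ∧
    (∀ᶠ d in 𝓝[>] (0 : ℝ), ∀ᶠ e in atTop, ∀ᶠ p in L6.fast, ∀ ρ, |z d e p ρ| ≤ y' d) ∧
    OnA ⊤ fun _ f g => ∃ K, ∀ᶠ d in 𝓝[>] (0 : ℝ), ∀ᶠ e in atTop, ∀ᶠ p in L6.fast,
      ‖Ope.Cp (G.vE β) (G.vL β ((4⁻¹ : ℂ) • Wd.V3)) (G.vL β Wd.V6) u ξ d e p f (mon g) i /
        (![G.zt β ((4⁻¹ : ℂ) • Wd.V3) kd y d p, G.zt β Wd.V6 kd y d p, 1] i : ℝ) -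
        ∑ ρ, z d e p ρ * ∑ m, G.vB β (Wd.WW ρ m) (kd d) p (Fx.pd m f) (mon g)‖ ≤
          K * d ^ (900⁻¹ : ℝ) := by
  obtain ⟨r0, V⟩ := h.vec_words (ι := Fin 3) (κ := Fin 2) hβ
  obtain ⟨r, hr, i₀, c, C, W, B, b1, b2⟩ := h.chg_words hβ hb h1 h2 h3 h4 δ0 δ1 K hy i r0
  obtain ⟨q, z, z1, z2⟩ := V r hr i₀ c C
  have Q1 : ∀ j, 1 ≤ G.Q j := (h 0).1.Q1
  have s := ((Ls.const (c := 1 + |W|) (le_add_of_nonneg_right (abs_nonneg _))).mul hy).mul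
    (h.slow δ0 K (q + 5)).1
  have l : ∀ d, G.Q (kd d) ^ q * (W * y d * G.Q (kd d) ^ 5) ≤
      (1 + |W|) * y d * G.Q (kd d) ^ (q + 5) := fun d => by
    have := Q1 (kd d)
    have := hy.2 d
    rw [pow_add, mul_left_comm]
    gcongr
    exact (le_abs_self W).trans (le_add_of_nonneg_left zero_le_one)
  refine ⟨fun d e p => z (kd d) p (3 ^ (G.e p.2 - e)) (W * y d * G.Q (kd d) ^ 5) (B d e p), _, s,
    ?_, fun k t e f g a1 a2 a3 => ?_⟩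
  · filter_upwards [b1, K.top.eventually z1] with d a b
    filter_upwards [a] with e a
    filter_upwards [a, b] with p a b ρ using (b _ _ _ a ρ).trans (l d)
  obtain ⟨M, H⟩ := z2 k t e f g a1 a2 a3
  refine ⟨|M|, ?_⟩
  filter_upwards [b1, b2 f (a1.1 0).1, K.top.eventually H, (h.slow δ0 K 1).2,
    (s.mul (h.slow δ0 K 1).1).1 (640⁻¹ - 900⁻¹) (by norm_num), self_mem_nhdsWithin]
    with d a a' b c1 c2 d0
  filter_upwards [a, a'] with e a a'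
  filter_upwards [a, a', b] with p a a' b
  rw [a']
  refine (b _ _ _ a).trans ?_
  have q1 := Q1 (kd d)
  have d0 : 0 < d := d0
  have s1 := s.2 d
  have w0 := a.w0
  rw [pow_one, abs_of_nonneg (by positivity)] at c2
  calc _ ≤ |M| * ((1 + |W|) * y d * G.Q (kd d) ^ (q + 5)) * (G.Q (kd d) * d ^ (640⁻¹ : ℝ)) := by
        refine mul_le_mul (mul_le_mul (le_abs_self _) (l d) (by positivity) (abs_nonneg _))
          ((rpow_le_rpow (by positivity) c1 (by norm_num)).trans ?_) (by positivity) (by positivity)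
        rw [mul_rpow (by positivity) d0.le]
        exact mul_le_mul_of_nonneg_right ((rpow_le_rpow_of_exponent_le q1 (by norm_num)).trans_eq
          (rpow_one _)) (by positivity)
    _ = |M| * d ^ (900⁻¹ : ℝ) * ((1 + |W|) * y d * G.Q (kd d) ^ (q + 5) * G.Q (kd d) *
          d ^ (640⁻¹ - 900⁻¹ : ℝ)) := by
        rw [rpow_sub d0]
        field_simp
    _ ≤ _ := mul_le_of_le_one_right (by positivity) c2

end Gl

end Pool.Agent.Lib.MP_7f377f_mp.RG.Q4.En
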