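import Pool.Agent.Lib.MP_7f377f_mp.G.ScDef

/-! Radial bumps for the charge. -/

noncomputable section

namespace Pool.Agent.Lib.MP_7f377f_mp.Ope
variable [Pool.Agent.Lib.MP_7f377f_mp.GD]
set_option linter.unusedSectionVars false

open MeasureTheory Filter Topology Set Real YM7 Metric
open scoped ContDiff

theorem exists_bmp : ∃ h ξ : R4 → ℝ, Bmp h ξ ∧ ContDiff ℝ ∞ h ∧
    (∀ x y, ‖x‖ = ‖y‖ → h x = h y ∧ ξ x = ξ y) ∧ (∀ y, 2⁻¹ ≤ ‖y‖ → h y = 0) ∧
    (∀ y, ‖y‖ ≤ 1 → ξ y = 1) ∧ ∀ y, 3 / 2 ≤ ‖y‖ → ξ y = 0 := by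
  obtain ⟨u, hu⟩ : ∃ u : R4 → ℝ, u = fun y => smoothTransition (2 - 8 * ‖y‖ ^ 2) := ⟨_, rfl⟩
  have u1 : ContDiff ℝ ∞ u := hu ▸ smoothTransition.contDiff.comp
    (contDiff_const.sub (contDiff_const.mul (contDiff_norm_sq ℝ)))
  have u2 : ∀ y, 2⁻¹ ≤ ‖y‖ → u y = 0 := fun y hy =>
    hu ▸ smoothTransition.zero_of_nonpos (by nlinarith)
  have ts : ∀ (v : R4 → ℝ) (r : ℝ), (∀ y, r ≤ ‖y‖ → v y = 0) → tsupport v ⊆ closedBall 0 r :=
    fun v r hv => closure_minimal (fun y hy => mem_closedBall_zero_iff.2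
      (not_lt.1 fun e => hy (hv y e.le))) isClosed_closedBall
  have u3 := (isCompact_closedBall _ _).of_isClosed_subset (isClosed_tsupport _) (ts u _ u2)
  have u4 : 0 < ∫ y, u y := u1.continuous.integral_pos_of_hasCompactSupport_nonneg_nonzero (x := 0)
    u3 (fun y => hu ▸ smoothTransition.nonneg _) (by simp [hu, smoothTransition.one_of_one_le])
  have x1 : ∀ y : R4, ‖y‖ ≤ 1 → smoothTransition (2 - ‖y‖ ^ 2) = 1 := fun y hy =>
    smoothTransition.one_of_one_le (by nlinarith [norm_nonneg y])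
  have x2 : ∀ y : R4, 3 / 2 ≤ ‖y‖ → smoothTransition (2 - ‖y‖ ^ 2) = 0 := fun y hy =>
    smoothTransition.zero_of_nonpos (by nlinarith)
  have h2 : ∀ y, 2⁻¹ ≤ ‖y‖ → (∫ y, u y)⁻¹ * u y = 0 := fun y hy => by rw [u2 y hy, mul_zero]
  have h3 := ts _ _ h2
  refine ⟨fun y => (∫ y, u y)⁻¹ * u y, fun y => smoothTransition (2 - ‖y‖ ^ 2),
    ⟨⟨(isCompact_closedBall _ _).of_isClosed_subset (isClosed_tsupport _) h3,
      contDiff_const.mul (u1.of_le (by simp)), h3.trans (closedBall_subset_ball (by norm_num))⟩,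
      by rw [integral_const_mul, inv_mul_cancel₀ u4.ne'], fun y => by simp [hu],
      smoothTransition.contDiff.comp (contDiff_const.sub (contDiff_norm_sq ℝ)),
      (ts _ _ x2).trans (closedBall_subset_ball (by norm_num)),
      mem_of_superset (isOpen_ball.mem_nhdsSet.2 (h3.trans (closedBall_subset_ball
        (show (2 : ℝ)⁻¹ < 1 by norm_num)))) fun y hy => x1 y (mem_ball_zero_iff.1 hy).le⟩,
    contDiff_const.mul u1, fun x y e => by simp [hu, e], h2, x1, x2⟩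

end Pool.Agent.Lib.MP_7f377f_mp.Ope
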