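import Pool.Agent.Lib.MP_7f377f_mp.G.CaKB2
import Pool.Agent.Lib.MP_7f377f_mp.G.CaKV
import Pool.Agent.Lib.MP_7f377f_mp.G.ScF

/-! The charges in terms of the three vector fields. -/

noncomputable section

open Pool.Agent.Lib.MP_7f377f_mp.Jet

set_option linter.unusedSectionVars false
variable [Pool.Agent.Lib.MP_7f377f_mp.GD]

namespace Pool.Agent.Lib.MP_7f377f_mp.RG.Q4.En

open Finset Function Sg Real Pos Mg Filter YM7 Topology MeasureTheory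
open Wd (Let sm pe phS V1 V3 V6 WW)
open Pur (mon Pol)
open Ope (Ins cv)
open MvPolynomial (X)
open scoped Classical

theorem lin_WW (L : Fin 4 → Let →ₗ[ℂ] ℂ) (z : Fin 3 → ℂ) : ∑ ρ, z ρ * ∑ m, L m (WW ρ m) =
    z 0 * L 0 phS + z 1 * (L 0 V1 +
      ∑ l : Fin 3, L 0 (Wd.act (pe (Equiv.swap 1 l.succ)) ((4⁻¹ : ℂ) • V3))) +
      z 2 * ∑ l : Fin 3, L l.succ (Wd.act (pe (Equiv.swap 1 l.succ)) V6) := by
  have e : ∑ l ∈ univ.erase 0, Wd.act (pe (Equiv.swap 1 l)) V3 =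
      ∑ l : Fin 3, Wd.act (pe (Equiv.swap 1 l.succ)) V3 := by
    rw [← add_right_inj, add_sum_erase _ _ (mem_univ 0), Fin.sum_univ_succ]
  simp only [map_smul (Wd.act _), ← map_sum, ← smul_sum, ← map_add, ← e, ← Wd.OT_zero,
    ← Wd.OT_ne (Fin.succ_ne_zero _), Fin.sum_univ_succ (n := 3)]
  simp [Fin.sum_univ_three, WW]

theorem OnA.sw {P : ∀ k, (R4 → ℝ) → (Fin k → R4 → ℝ) → Prop} (h : OnA 0 P) {k t e : ℕ}
    {f : R4 → ℝ} {g : Fin k → R4 → ℝ} (a : Adm (Fin.cons f g : Fin (k + 1) → _))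
    (b : ContDiff ℝ (⊤ : ℕ∞) f) (c : Ope.Cel e t (Fin.cons f g : Fin (k + 1) → _)) (m : Fin 4)
    (σ : Equiv.Perm (Fin 4)) : P k (Fx.pd m f) g ∧ P k (fun y => Fx.pd m f ((Ro.prm σ).symm y))
      fun i y => g i ((Ro.prm σ).symm y) := by
  have a' := Ope.adm_pd a b m
  have a2 : Adm (Fin.cons (fun y => Fx.pd m f ((Ro.prm σ).symm y)) fun i y =>
      g i ((Ro.prm σ).symm y) : Fin (k + 1) → _) :=
    cast (congrArg Adm (funext fun i => by induction i using Fin.cases <;> rfl))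
      (Ro.adm_act a' (Ro.prm σ))
  obtain ⟨c, c1, c2⟩ := c
  have c3 : ∀ i y, (Fin.cons (Fx.pd m f) g : Fin (k + 1) → _) i y ≠ 0 → ∀ l,
      c i l * ((3 : ℝ) ^ e)⁻¹ + (3 ^ (e + t))⁻¹ ≤ y l ∧
        y l ≤ (c i l + 1) * (3 ^ e)⁻¹ - (3 ^ (e + t))⁻¹ := fun i y hy l => by
    induction i using Fin.cases with
    | zero =>
      exact closure_minimal (t := {y : R4 | y l ∈ Set.Icc _ _}) (fun y hy => c2 0 y hy l)
        (isClosed_Icc.preimage (by fun_prop)) (St.pd_ts (subset_tsupport _ hy))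
    | succ i => exact c2 i.succ y hy l
  refine ⟨h k t e _ _ a' ((a'.1 0).2.of_le (by simp)) ⟨c, c1, c3⟩, h k t e _ _ a2
    ((a2.1 0).2.of_le (by simp)) ⟨fun i => c i ∘ σ.symm, fun i j e =>
      c1 (σ.symm.surjective.injective_comp_right e), fun i y hy l => ?_⟩⟩
  have := c3 i ((Ro.prm σ).symm y) (by induction i using Fin.cases <;> exact hy) (σ.symm l)
  rwa [← Ro.prm_apply, LinearIsometryEquiv.apply_symm_apply] at this

namespace Gl

variable {G : Gl} {β : ℕ × ℕ → ℝ} {k : ℕ} {p : ℕ × ℕ}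

theorem vI_linG {O O' : Conf → ℂ} (a : BC O) (a' : BC O') (c : ℂ) (Z : Pol) :
    G.vI β p (fun U => O U + c * O' U) Z = G.vI β p O Z + c * G.vI β p O' Z := by
  have i : ∀ {O : Conf → ℂ}, BC O → Integrable (fun U : Cfg (G.nn p) => O (Fi.lf U))
      (wilson (Fi.tr haar) (β p) (G.nn p)) := fun ⟨a, _, b⟩ =>
    .of_bound (a.comp Fi.meas_lf).aestronglyMeasurable _ (.of_forall fun _ => b _)
  have j := (i a').const_mul c
  have j' : Integrable (fun U => O (Fi.lf U) + c * O' (Fi.lf U)) _ := (i a).add j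
  simp only [vI, Ob.ins, Ob.iw, dif_pos (i a), dif_pos (i a'), dif_pos j', add_mul, mul_assoc,
    LinearMap.sub_apply, LinearMap.smul_apply, LinearMap.coe_mk, AddHom.coe_mk, smul_eq_mul,
    integral_add (Ob.int_mul (i a) Z) ((Ob.int_mul (i a') Z).const_mul c), integral_add (i a) j,
    integral_const_mul]
  ring

/-- the insertion is linear in the letter -/
def Oks.vBl (h : G.Oks) (hk : k ≤ p.2) (f : R4 → ℝ) (Z : Pol) : Let →ₗ[ℂ] ℂ :=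
  have e : ∀ Y Y' (c : ℂ), G.vB β (Y + c • Y') k p f Z = G.vB β Y k p f Z + c * G.vB β Y' k p f Z :=
    fun Y Y' c => by
      have o := (h p.1).1
      rw [vB, vB, vB, ← vI_linG (o.ta_bc hk (Wd.sm_bc ..)) (o.ta_bc hk (Wd.sm_bc ..)),
        ← o.ta_lin hk (Wd.sm_bc ..) (Wd.sm_bc ..)]
      simp only [← Wd.sm_smul, ← Wd.sm_add]
  { toFun Y := G.vB β Y k p f Z
    map_add' Y Y' := by simpa using e Y Y' 1
    map_smul' c Y := by
      have := e 0 0 1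
      rw [one_smul, add_zero, one_mul, left_eq_add] at this
      simpa [this] using e 0 Y c }

theorem Oks.num (h : G.Oks) {δ : ℝ} {kd : ℝ → ℕ} (δ0 : 0 < δ) (K : G.Kd δ kd) {y : ℝ → ℝ}
    (hy : Ls y) : ∀ᶠ d in 𝓝[>] (0 : ℝ),
      y d * ((3 : ℝ) ^ G.e (kd d))⁻¹ ^ (50⁻¹ : ℝ) ≤ d ^ (1000⁻¹ : ℝ) := by
  obtain ⟨⟨s, -⟩, s'⟩ := h.slow δ0 K 1
  filter_upwards [hy.1 200⁻¹ (by norm_num), s 2⁻¹ (by norm_num), s', Ioo_mem_nhdsGT one_pos]
    with d e1 e2 e3 ⟨d0, d1⟩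
  have e4 : ((3 : ℝ) ^ G.e (kd d))⁻¹ ≤ d ^ (2⁻¹ : ℝ) := by
    refine e3.trans (le_of_eq_of_le ?_ (mul_le_of_le_one_left (by positivity)
      ((mul_le_mul_of_nonneg_right (le_abs_self _) (by positivity)).trans e2)))
    rw [pow_one, mul_assoc, ← rpow_add d0]
    norm_num
  refine (mul_le_mul (le_abs_self _) (rpow_le_rpow (by positivity) e4 (by norm_num))
    (by positivity) (abs_nonneg _)).trans (le_trans (le_of_eq_of_le ?_ (mul_le_of_le_one_left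
      (by positivity) e1)) (rpow_le_rpow_of_exponent_ge d0 d1.le (show (1000⁻¹ : ℝ) ≤ 200⁻¹ by
        norm_num)))
  rw [← rpow_mul d0.le, mul_assoc, ← rpow_add d0]
  norm_num

/-- (K10) the charges -/
theorem Oks.chg (h : G.Oks) (hβ : G.Tus β) : ∃ u ξ, Ope.Bmp u ξ ∧ ∀ δ kd y, 0 < δ → δ ≤ 4⁻¹ →
    G.Kd δ kd → Ls y →
    Ope.Chg0 L6.fast (G.vE β) 1000⁻¹ (G.vL β ((4⁻¹ : ℂ) • Wd.V3)) (G.vL β Wd.V6)
      (G.zt β ((4⁻¹ : ℂ) • Wd.V3) kd y) (G.zt β Wd.V6 kd y) u ξ := by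
  obtain ⟨u, ξ, b, b1, b2, b3, b4, -⟩ := Ope.exists_bmp
  refine ⟨u, ξ, b, fun δ kd y δ0 δ1 K hy i => ?_⟩
  obtain ⟨z, y', hy', z1, z2⟩ := h.vec_blk hβ b b1 b2 b3 b4 δ0 δ1 K hy i
  obtain ⟨c0, s0⟩ := h.sca_blk hβ Wd.rl_phS Wd.tl_phS
  obtain ⟨c1, s1⟩ := h.sca_blk hβ Wd.rl_V1 Wd.tl_V1
  obtain ⟨r3, -, -, s3⟩ := h.link_blk hβ tm_V3
  obtain ⟨r6, C, r0, s6⟩ := h.link_blk hβ tm_V6
  refine ⟨fun d e p => ![z d e p 1 * r3 (kd d) p, z d e p 2 * r6 (kd d) p,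
    z d e p 0 * c0 (kd d) p + z d e p 1 * c1 (kd d) p], ?_, fun k t => .of_forall
      fun e₀ f g a1 a2 a3 => ?_⟩
  · filter_upwards [z1, K.top.eventually r0] with d e1 e2
    refine e1.mono fun e e1 => ⟨y' d * |C|, (e1.and e2).mono fun p e3 => ?_⟩
    have y1 := hy.2 d
    simp only [Matrix.cons_val_one, Matrix.cons_val_zero, norm_mul, Complex.norm_real, norm_eq_abs,
      zt]
    rw [mul_assoc, ← mul_div_assoc]
    exact (mul_le_mul_of_nonneg_left ((div_le_div_of_nonneg_right (e3.2.trans (le_abs_self C))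
      (by linarith)).trans (div_le_self (abs_nonneg C) y1)) (abs_nonneg _)).trans
      (mul_le_mul_of_nonneg_right (e3.1 2) (abs_nonneg C))
  obtain ⟨K', e0⟩ := z2 k t e₀ f g a1 a2 a3
  obtain ⟨K0, t0⟩ := (s0.sw a1 a2 a3 0 1).1
  obtain ⟨K1, t1⟩ := (s1.sw a1 a2 a3 0 1).1
  choose K3 t3 using fun l : Fin 3 => (s3.sw a1 a2 a3 0 (Equiv.swap 1 l.succ)).2
  choose K6 t6 using fun l : Fin 3 => (s6.sw a1 a2 a3 l.succ (Equiv.swap 1 l.succ)).2
  refine ⟨|K'| + |K0 + (K1 + ∑ l, K3 l) + ∑ l, K6 l|, ?_⟩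
  filter_upwards [e0, z1, K.top.eventually (t0.and (t1.and ((eventually_all.2 t3).and
    (eventually_all.2 t6)))), h.num δ0 K hy', Ioo_mem_nhdsGT one_pos] with d e0 e1 e2 e3 ⟨d0, d1⟩
  filter_upwards [e0, e1] with e e0 e1
  filter_upwards [e0, e1, e2.1, e2.2.1, eventually_all.2 e2.2.2.1, eventually_all.2 e2.2.2.2,
    (tendsto_snd.mono_left L6.fast_le).eventually_ge_atTop (kd d)] with p e0 e1 t0 t1 t3 t6 hk
  have e4 := lin_WW (fun m => h.vBl (β := β) hk (Fx.pd m f) (mon g)) fun ρ => z d e p ρ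
  simp only [Oks.vBl, LinearMap.coe_mk, AddHom.coe_mk, h.sw_B hβ _ _ hk] at e4
  rw [e4] at e0
  have ε0 : 0 ≤ ((3 : ℝ) ^ G.e (kd d))⁻¹ ^ (50⁻¹ : ℝ) := by positivity
  generalize ((3 : ℝ) ^ G.e (kd d))⁻¹ ^ (50⁻¹ : ℝ) = ε at *
  have n : ∀ ρ {x : ℂ} {w}, ‖x‖ ≤ w → ‖z d e p ρ * x‖ ≤ y' d * w := fun ρ x w e => by
    rw [norm_mul, Complex.norm_real]
    exact mul_le_mul (e1 ρ) e (norm_nonneg _) (zero_le_one.trans (hy'.2 d))
  have := norm_add_le_of_le e0 (norm_add_le_of_le (norm_add_le_of_le (n 0 t0) (n 1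
    (norm_add_le_of_le t1 (norm_sum_le_of_le univ fun l _ => t3 l))))
    (n 2 (norm_sum_le_of_le univ fun l _ => t6 l)))
  refine le_of_eq_of_le (congrArg _ ?_) (this.trans ?_)
  · simp only [Fin.sum_univ_three, Ope.Jp, Ins.sw, Ro.act_mon, Matrix.cons_val_zero,
      Matrix.cons_val_one, Matrix.cons_val_two, Matrix.head_cons, Matrix.tail_cons]
    ring
  · have e5 := (mul_le_mul_of_nonneg_left e3 (abs_nonneg (K0 + (K1 + ∑ l, K3 l) + ∑ l, K6 l)))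
    have e6 := mul_le_mul (le_abs_self K') (rpow_le_rpow_of_exponent_ge d0 d1.le
      (show (1000⁻¹ : ℝ) ≤ 900⁻¹ by norm_num)) (by positivity) (abs_nonneg _)
    have e7 := mul_le_mul_of_nonneg_right (le_abs_self (K0 + (K1 + ∑ l, K3 l) + ∑ l, K6 l))
      (mul_nonneg (zero_le_one.trans (hy'.2 d)) ε0)
    simp only [← sum_mul]
    linarith

end Gl

end Pool.Agent.Lib.MP_7f377f_mp.RG.Q4.En
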