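import Pool.Agent.Lib.MP_7f377f_mp.G.TyD

/-! The free energy of first order is close to the expectation. -/

noncomputable section

open Pool.Agent.Lib.MP_7f377f_mp.Jet

set_option linter.unusedSectionVars false
variable [Pool.Agent.Lib.MP_7f377f_mp.GD]

namespace Pool.Agent.Lib.MP_7f377f_mp.RG.Q4.En

open Finset Real Sg Br YM7 Ob
open Weak (Site)

section
variable {n : ℕ} [NeZero n] {g : Site 4 n → ℝ} {a : ℝ}

theorem red_one {κ : Type} [Fintype κ] [DecidableEq κ] {Λ : (Cfg n → ℝ) → ℝ} {F : κ → Src n}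
    {w M : ℝ} {e : Finset κ → ℂ} (h : YM7.Red Λ F w M e) (i : κ) :
    ‖YM7.mom Λ F {i} - e {i}‖ ≤ M * w := by
  obtain ⟨e0, q, hq, q0, hm⟩ := h
  have a : jd {i} (fun s => Complex.exp (Jet.ma univ e s)) = e {i} := by
    simp only [jd_single, ma_single (mem_univ i), e0, zero_add, smul_eq_mul]
    simpa using ((hasDerivAt_mul_const (x := (0 : ℂ)) (e {i})).cexp).deriv
  have b := jd_mul_one (sh_ma hq.pos univ e).exp hq i
  rw [a, q0, ma_zero, e0, Complex.exp_zero, one_mul, mul_one] at b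
  rw [(hm _).trans b, add_sub_cancel_right]
  simpa using hq.jd_pow {i}

theorem ltv_eq (g : Site 4 n → ℝ) (v x : Site 4 n) (μ ν : Fin 4) :
    ltv g v x μ ν = -sy g (x - v) μ ν := by
  simp only [ltv, sy, add_sub_right_comm]
  ring

theorem ltv_nrm (hg : Lqq a g) (v : Site 4 n) : Nrm a a (ltv g v) := by
  refine ⟨fun x => -g (x - v), fun x => by simpa using hg.1 _, fun x l => ?_, fun x μ ν => ?_⟩
  · simpa only [add_sub_right_comm, neg_sub_neg, abs_sub_comm] using hg.2 (x - v) l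
  · rw [ltv_eq, neg_sub_neg, abs_sub_comm, sy, abs_le]
    have a1 := abs_le.1 (hg.2 (x - v) μ)
    have a2 := abs_le.1 (hg.2 (x - v) ν)
    have a3 := abs_le.1 (hg.2 (x - v + Pi.single μ 1) ν)
    constructor <;> linarith

theorem sy_near {R : ℕ} (hs : ∀ y, g y ≠ 0 → ∀ i, (y i).valMinAbs.natAbs ≤ R) {x : Site 4 n}
    {μ ν : Fin 4} (e : sy g x μ ν ≠ 0) (l : Fin 4) : ∃ t : ℤ, |t| ≤ R + 2 ∧ x l = t := by
  have k : ∀ (y : Site 4 n) (s : ℤ), g (x + y) ≠ 0 → y l = s → |s| ≤ 2 →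
      ∃ t : ℤ, |t| ≤ R + 2 ∧ x l = t := fun y s u v w =>
    ⟨((x + y) l).valMinAbs - s, by have := hs _ u l; rw [abs_le] at *; omega, by simp [← v]⟩
  have p : ∀ μ : Fin 4, (Pi.single μ 1 : Site 4 n) l = ((if l = μ then 1 else 0 : ℤ) : ZMod n) :=
    fun μ => by simp [Pi.single_apply]
  by_cases u1 : g x = 0
  · by_cases u2 : g (x + Pi.single μ 1) = 0
    · by_cases u3 : g (x + Pi.single ν 1) = 0
      · refine k (Pi.single μ 1 + Pi.single ν 1) ((if l = μ then 1 else 0) + if l = ν then 1 else 0)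
          (fun u => e (by simp [sy, u1, u2, u3, add_assoc, u])) (by rw [Pi.add_apply, p, p]; simp) ?_
        split_ifs <;> norm_num
      · exact k _ _ u3 (p ν) (by split_ifs <;> norm_num)
    · exact k _ _ u2 (p μ) (by split_ifs <;> norm_num)
  · exact k 0 0 (by simpa) (by simp) (by norm_num)

theorem ltv_inT {m lam R : ℕ} [NeZero m] {δ : ℝ} {z : St}
    (hs : ∀ y, g y ≠ 0 → ∀ i, (y i).valMinAbs.natAbs ≤ R) (a0 : 0 < a) (δ0 : 0 < δ) (hl : lam ≤ n)
    (hz : ∀ l, |a * z l - a * lam / 2| + a * (R + 2) ≤ a * lam / 2 - δ) :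
    YM7.InT (m := m) a δ lam 0 (ltv g (Fi.cst n z)) := fun x μ ν e l => by
  obtain ⟨t, t1, t2⟩ := sy_near hs (fun u => e (by rw [ltv_eq, u, neg_zero])) l
  have t3 : |(t : ℝ)| ≤ R + 2 := by exact_mod_cast t1
  have b := abs_le.1 ((abs_mul a t).trans_le (mul_le_mul (abs_of_pos a0).le t3 (abs_nonneg _) a0.le))
  have c := abs_le.1 (le_sub_iff_add_le.2 (hz l))
  have l' : (lam : ℝ) ≤ n := by exact_mod_cast hl
  have u0 : (0 : ℝ) < z l + t := (mul_pos_iff_of_pos_left a0).1 (by linarith)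
  have u1 : (z l + t : ℝ) < n := lt_of_mul_lt_mul_left (by nlinarith) a0.le
  have e1 : (((x - Weak.corner lam (0 : Site 4 m) : Site 4 n) l).val : ℤ) = z l + t := by
    rw [show (x - Weak.corner lam (0 : Site 4 m) : Site 4 n) l = (z l + t : ℤ) by
      simp [Weak.corner, ← t2, Fi.cst], ZMod.val_intCast,
      Int.emod_eq_of_lt (by exact_mod_cast u0.le) (by exact_mod_cast u1)]
  have e2 : (((x - Weak.corner lam (0 : Site 4 m) : Site 4 n) l).val : ℝ) = z l + t := by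
    exact_mod_cast e1
  rw [e2]
  constructor <;> linarith

theorem srT_ltv (g : Site 4 n → ℝ) (v : Site 4 n) (w : St) :
    srT n w (symF (ltv g v)) = symF (ltv g (v - Fi.cst n w)) := by
  funext x μ ν
  simp only [srT, symF, Fi.cst_rc, Fi.cst_add, ltv_eq, ← sub_add, add_sub_right_comm]

theorem mom_ltv (b : ℝ) (g : Site 4 n → ℝ) (v : Site 4 n) :
    YM7.mom (YM7.ex (Fi.tr haar) b n) (fun _ : Unit => ltv g v) {()} =
      (YM7.ex (Fi.tr haar) b n (gfield (sy g)) : ℝ) := by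
  have : (Fi.tr haar).IsHaarMeasure := (inferInstance : haar.IsHaarMeasure)
  simp only [YM7.mom, prod_singleton, YM7.ex]
  rw [← Weak.int_mp (mp_shift' (Fi.tr haar) b v) (continuous_gfield (sy g))]
  simp only [← gfield_shift]
  simp [gfield, ltv_eq, ← sum_neg_distrib, neg_ite]

end

namespace Gl.Ok

variable {G : Gl} (h : G.Ok) {j l J m u R : ℕ} {Λ δ d a b : ℝ} [NeZero (G.N J)] [NeZero m]
include h

omit [NeZero m] in
/-- the free energy of first order below the level `l` -/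
theorem ej_tl {F : YM7.Src (G.N J)} {τ : ℝ} {c : ℕ} (t : G.Tu b J) (hp : G.Pu) (hu : G.Tv b J)
    (P : YM7.Nrm a τ F) (a0 : 0 < a) (hτ : 1.01 ^ (J - l) * (10 ^ 37 * τ) ≤ 1) (τ0 : 0 ≤ τ)
    (ha : G.rt J l * a ≤ 1) (hl : l ≤ J) (hj : j ≤ l)
    (geo : G.Geo univ (fun _ : Unit => ()) c (fun _ : Unit => sup F) J l j) :
    G.sg l * ‖G.ej b J j (symF F) - G.ej b J l (symF F)‖ ≤ 1 := by
  have σ0 : 0 < G.sg l := div_pos (h.b0 l) (pow_pos (h.Q0 l) _)
  obtain ⟨g, g1, g2, -, g3⟩ := nrm_lip P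
  have P' : ∀ x ∈ (univ : Finset Unit), G.Pf J (4 * a) τ (symF F) g := fun _ _ => ⟨g1, g2, g3⟩
  have w := h.run_fw (j := j) (F := fun _ => symF F) (g := fun _ => g) t hu P' (by positivity) hτ τ0
    (by linarith) le_rfl
  obtain ⟨e, e1, e2⟩ := h.run_top (F := fun _ => symF F) (g := fun _ => g) t P' hτ τ0 le_rfl σ0 hl
    (fun _ _ => symF_out (h.N_odd J)) geo
  have := (h.flow2 t hp le_rfl hl hj σ0 w geo e e1 e2 ft_ec (h.sig_le le_rfl le_rfl).2.1 l le_rfl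
    hj).2.2.2.2 {()} (subset_univ _) (singleton_nonempty _)
  rw [← ej_eq (A := univ) (F := fun _ : Unit => symF F) (W := fun _ => sup F) (mem_univ ())
    (hj.trans hl), ← ej_eq (A := univ) (F := fun _ : Unit => symF F) (W := fun _ => sup F)
    (mem_univ ()) hl, ← le_div_iff₀' σ0]
  simpa [fm] using this

theorem cen_ej (t : G.Tu b J) (hp : G.Pu) (V : G.Lv 1 j l (Λ + 2) δ d) (hl : l < J)
    (ha : a * 3 ^ G.e J = 1) (Λ1 : 1 ≤ Λ) (δ0 : 0 < δ) (hn : G.N j = m * u)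
    (hu : 3 ^ G.e j ≤ 3 * u) (m1 : 1 < m) {g : Site 4 (G.N J) → ℝ} (hg : Lqq (a / (2 * d)) g)
    (hs : ∀ y, g y ≠ 0 → ∀ i, (y i).valMinAbs.natAbs ≤ R) (hR : a * R ≤ Λ * d)
    (v : Site 4 (G.N J)) : G.sg l * ‖G.ej b J l (symF (ltv g v)) -
      (YM7.ex (Fi.tr haar) b (G.N J) (gfield (sy g)) : ℝ)‖ ≤ 1 + G.mr j u 1 := by
  have a0 := a_pos ha
  have d0 := V.d0
  have σ0 : 0 < G.sg l := div_pos (h.b0 l) (pow_pos (h.Q0 l) _)
  have T : G.Tv b J := fun _ hk => (h.tan_main hp t hk).1.sz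
  have L1 : 1 ≤ Λ + 2 := by linarith
  have jl := V.le.trans hl.le
  have a1 := d_le V L1 δ0
  have a2 := h.lam_ge V hl ha hu
  have a3 : G.rt J j * u ≤ G.N J := by
    rw [← h.rt_N jl, hn]
    exact Nat.mul_le_mul_left _ (Nat.le_mul_of_pos_left _ (NeZero.pos m))
  have a4 := h.s_rt V hl ha
  have a5 := h.s_le V hl ha
  have a6 : a / (2 * d) = a / d / 2 := by rw [mul_comm, div_div]
  have a7 := (div_le_one d0).1 a5.1
  have s0 := div_pos a0 d0
  have dδ := mul_pos d0 δ0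
  have r0 : (0 : ℤ) < G.rt J l := Nat.cast_pos.2 (pow_pos three_pos _)
  rw [← mul_div_assoc, div_le_one d0] at a4
  generalize hL : G.rt J j * u = lam at a2 a3
  obtain ⟨z, w, z1, z2⟩ : ∃ z w : St, v - Fi.cst _ ((G.rt J l : ℤ) • w) = Fi.cst _ z ∧
      ∀ i, |a * z i - a * lam / 2| ≤ d := by
    refine ⟨fun i => (lam / 2 : ℕ) + ((v i).val - (lam / 2 : ℕ)) % G.rt J l,
      fun i => ((v i).val - (lam / 2 : ℕ)) / G.rt J l, funext fun i => ?_, fun i => ?_⟩
    · simp only [Fi.cst, Pi.sub_apply, Pi.smul_apply, smul_eq_mul, Int.emod_def]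
      simp only [Int.cast_add, Int.cast_sub, Int.cast_natCast, ZMod.natCast_zmod_val]
      ring
    · beta_reduce
      have b1 := Int.emod_nonneg (((v i).val : ℤ) - (lam / 2 : ℕ)) r0.ne'
      have b2 := Int.emod_lt_of_pos (((v i).val : ℤ) - (lam / 2 : ℕ)) r0
      generalize (((v i).val : ℤ) - (lam / 2 : ℕ)) % G.rt J l = s at b1 b2
      have b3 : |2 * ((lam / 2 : ℕ) + s) - lam| ≤ 2 * (G.rt J l : ℤ) := by rw [abs_le]; omega
      have b4 : |2 * (((lam / 2 : ℕ) + s : ℤ) : ℝ) - lam| ≤ 2 * (G.rt J l : ℝ) := by exact_mod_cast b3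
      have b5 := abs_le.1 b4
      rw [abs_le]
      constructor <;> nlinarith [mul_le_mul_of_nonneg_left b5.1 a0.le,
        mul_le_mul_of_nonneg_left b5.2 a0.le]
  rw [← h.ej_tr hl.le _ w, srT_ltv, z1, ← mom_ltv b g (Fi.cst _ z)]
  have I : YM7.InT (m := m) a (a * lam / 2 - d * (Λ + 3)) lam 0 (ltv g (Fi.cst _ z)) :=
    ltv_inT hs a0 (by linarith) a3 fun i => by linarith [z2 i]
  have N := ltv_nrm hg (Fi.cst _ z)
  generalize ltv g (Fi.cst _ z) = F at I N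
  have B := h.sup_ball V hl ha L1 (y := (0 : Site 4 m)) (F := F) (lam := lam) fun x μ ν e i =>
    (I x μ ν e i).imp (le_trans (by linarith)) fun e => le_trans e (by linarith)
  have geo : G.Geo univ (fun _ : Unit => ()) 1 (fun _ : Unit => sup F) J l j :=
    h.geo_of hl.le (fun _ _ _ _ e => (e rfl).elim) le_rfl (fun _ _ _ _ e => (e rfl).elim) le_rfl
      (fun _ => card_le_univ _) V.big (fun _ => ⟨_, fun _ _ _ => B⟩) (h.vol_le V hl ha L1 le_rfl)
  have c1 : 1.01 ^ (J - l) * (10 ^ 37 * (a / (2 * d))) ≤ 1 := le_trans (by gcongr; linarith) a5.2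
  have c2 : G.rt J l * (a / (2 * d)) ≤ 1 := by
    rw [← mul_div_assoc, div_le_one (by positivity)]; linarith
  have w0 := inv_pos.2 (mul_pos (pow_pos (two_pos (α := ℝ)) (l - j)) σ0)
  have R1 := h.ej_tl t hp T N (by positivity) c1 (by positivity) c2 hl.le V.le geo
  have R2 := (h.fe_run (F := fun _ : Unit => F) (M := G.nz j) t hp T (fun _ => N) (by positivity) c1
    (by positivity) c2 σ0 le_rfl hl.le V.le (fun _ => Subset.rfl) geo (inv_inv _).le fun _ =>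
      Nat.cast_le.2 ((h.zs_card B jl).trans (h.nz_le V hl ha L1 δ0))).1
  subst hL
  have R3 := red_one (h.red_cell (D := G.ds J l) (τ := 4 * (a / d)) t.b0 jl w0 hn m1 a0
    (δ := a * (G.rt J j * u : ℕ) / 2 - d * (Λ + 2 + 2)) (by linarith) (by linarith) (by linarith)
    (fun F e => h.gen_run V hl ha L1 δ0 hn hu t hp T (Fintype.card_unit.le) (inv_inv _).le F
      fun c => ⟨fun i => ⟨((e c).1 i).1.imp fun _ k => ⟨k.1, fun x i => (k.2.1 x i).trans
        (by linarith), k.2.2⟩, ((e c).1 i).2⟩, (e c).2⟩)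
    ⟨fun _ => ⟨N, I⟩, fun _ _ e => (e rfl).elim⟩ R2 (Nat.cast_nonneg _)) ()
  rw [YM7.ce, if_neg (singleton_ne_empty _), ej_eq (mem_univ ()) jl, Fintype.card_unit] at R3
  change _ ≤ G.mr j u 1 * _ at R3
  have m0 : 0 ≤ G.mr j u 1 := (nonneg_of_mul_nonneg_left ((norm_nonneg _).trans R3) w0)
  have R4 : G.sg l * (G.mr j u 1 * (2 ^ (l - j) * G.sg l)⁻¹) ≤ G.mr j u 1 := by
    rw [mul_inv, mul_left_comm, mul_left_comm (G.sg l), mul_inv_cancel₀ σ0.ne', mul_one]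
    exact mul_le_of_le_one_right m0 (inv_le_one_of_one_le₀ (one_le_pow₀ one_le_two))
  have R5 := norm_sub_le_norm_sub_add_norm_sub (G.ej b J l (symF F)) (G.ej b J j (symF F))
    (YM7.mom (YM7.ex (Fi.tr haar) b (G.N J)) (fun _ : Unit => F) {()})
  rw [norm_sub_rev _ (G.ej b J j _), norm_sub_rev (G.ej b J j _) (YM7.mom _ _ _)] at R5
  nlinarith [mul_le_mul_of_nonneg_left R5 σ0.le, mul_le_mul_of_nonneg_left R3 σ0.le]

end Gl.Ok

end Pool.Agent.Lib.MP_7f377f_mp.RG.Q4.En
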