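import Pool.Agent.Lib.MP_7f377f_mp.G.TyS
import Pool.Agent.Lib.MP_7f377f_mp.G.SbE

/-! The letters of the product expansion are smeared words with a symmetry type. -/

noncomputable section

set_option linter.unusedSectionVars false
variable [Pool.Agent.Lib.MP_7f377f_mp.GD]

namespace Pool.Agent.Lib.MP_7f377f_mp.Ob

open Real YM7 Pur Ope
open RG.Q4.En.Ty (T1 T3 T6)

/-- the letter `Y` comes from a sum of words of type `T` -/
def Yw (T : RG.Q4.En.Ty.Ty) (Y : Let) : Prop := ∃ (A : Pol) (Λ δ : ℝ), 1 ≤ Λ ∧ 0 < δ ∧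
  Wb 2 Λ δ 1 Λ A ∧ Cm.Typ T A ∧ ∀ d e f R, (∀ y, f y ≠ 0 → ∀ l, |y l| ≤ R) → Y d e f = Cm.Yl A d e f

/-- the letter `Y` comes from the sum of words `A` -/
def Yk (Y : Let) (A : Pol) : Prop := (∃ Λ δ W : ℝ, 1 ≤ Λ ∧ 0 < δ ∧ Wb 2 Λ δ 1 W A) ∧
  ∀ d e f R, (∀ y, f y ≠ 0 → ∀ l, |y l| ≤ R) → Y d e f = Cm.Yl A d e f

variable {h : R4 → ℝ} {Y Y' : Let} {A A' : Pol} {n : R4}

theorem Yk.add (a : Yk Y A) (a' : Yk Y' A') : Yk (fun d e f => Y d e f + Y' d e f) (A + A') := by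
  obtain ⟨⟨Λ, δ, W, h1, h2, h3⟩, h4⟩ := a
  obtain ⟨⟨Λ', δ', W', -, k2, k3⟩, k4⟩ := a'
  refine ⟨⟨max Λ Λ', min δ δ', W + W', le_max_of_le_left h1, lt_min h2 k2,
    (h3.mono (le_max_left _ _) (min_le_left _ _) (lt_min h2 k2) le_rfl).add
      (k3.mono (le_max_right _ _) (min_le_right _ _) (lt_min h2 k2) le_rfl)⟩, fun d e f R hf => ?_⟩
  beta_reduce
  rw [h4 d e f R hf, k4 d e f R hf, yl_smp, yl_smp, yl_smp, map_add, smul_add, smp_add hf]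

theorem Yk.sub (a : Yk Y A) (a' : Yk Y' A') : Yk (fun d e f => Y d e f - Y' d e f) (A - A') := by
  obtain ⟨⟨Λ, δ, W, h1, h2, h3⟩, h4⟩ := a'
  simpa only [sub_eq_add_neg] using a.add (Y' := fun d e f => -Y' d e f) (A' := -A')
    ⟨⟨Λ, δ, _, h1, h2, by simpa using h3.smul (-1)⟩, fun d e f R hf => by
      simp only [h4 d e f R hf, Cm.Yl, map_neg, smul_neg, finsum_neg_distrib]⟩

theorem Yk.yw {T : RG.Q4.En.Ty.Ty} (a : Yk Y A) (t : Cm.Typ T A) : Yw T Y :=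
  let ⟨⟨Λ, δ, W, h1, h2, h3⟩, h4⟩ := a
  ⟨A, max Λ W, δ, le_max_of_le_left h1, h2,
    h3.mono (le_max_left _ _) le_rfl h2 (le_max_right _ _), t, h4⟩

theorem yk_pr (H : Rd h) (hn1 : ‖n‖ = 1) : Yk (Yr (hn h n)) (pr (hn h n) 1 0) := by
  obtain ⟨Λ, δ, t⟩ := (H.pb hn1).1.tf
  refine ⟨⟨Λ, δ, 1, t.one, t.pos, Unit, inferInstance, 1, fun _ => _, by simp,
    fun _ => ⟨(H.pb hn1).1, t⟩, ?_⟩, fun d e f R _ => finsum_congr fun x => ?_⟩
  · simp only [pr_eq, sub_zero, Finset.univ_unique, Finset.sum_singleton, Pi.one_apply,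
      Complex.ofReal_one, one_smul]
    rfl
  · simp [pr, Cm.sh, ← smul_neg]

theorem act_pr (H : Rd h) (g : Ro.Iso) (n : R4) :
    Ro.act g (pr (hn h n) 1 0) = pr (hn h (g n)) 1 0 := by rw [pr_act, H.act, map_zero]

theorem neg_pr (H : Rd h) (n : R4) : pr (hn h (-n)) 1 0 = pr (hn h n) 1 0 := by rw [H.neg, pr_neg]

theorem prm_ee (σ : Equiv.Perm (Fin 4)) (ν : Fin 4) : Ro.prm σ (ee ν) = ee (σ ν) := by
  ext l
  simp [Ro.prm_apply, Equiv.symm_apply_eq]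

theorem prm_nt (θ : ℝ) : Ro.prm (Equiv.swap 0 1) (nt θ) = nt (π / 2 - θ) ∧
    Ro.prm (Equiv.swap 2 3) (nt θ) = nt θ := by
  simp only [nt, map_add, map_smul, prm_ee, cos_pi_div_two_sub, sin_pi_div_two_sub]
  exact ⟨add_comm _ _, rfl⟩

theorem yw1 (H : Rd h) : Yw T1 (Y1 h) := by
  have k := fun μ => yk_pr H (norm_ee μ)
  have e := (((k 0).add (k 1)).add (k 2)).add (k 3)
  simp only [← Fin.sum_univ_four fun μ => pr (hn h (ee μ)) 1 0] at e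
  refine Yk.yw ⟨e.1, fun d x f R hf => (Fin.sum_univ_four _).trans (e.2 d x f R hf)⟩
    fun g hg => ?_
  rw [(by decide : ∀ g ∈ T1, g.2 = false) g hg]
  simp only [map_sum, act_pr H, RG.Q4.En.Ty.sb, Bool.false_eq_true, if_false, Int.cast_one, one_smul]
  rcases g with ⟨σ | μ, _⟩
  · simp only [Cm.gi, prm_ee]
    exact Equiv.sum_comp σ fun μ => pr (hn h (ee μ)) 1 0
  · simp only [Cm.gi, rfL_eq, rf_ee]
    exact Finset.sum_congr rfl fun ν _ => by split_ifs <;> simp only [neg_pr H]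

open RG.Q4.En.Ty in
theorem yw3 (H : Rd h) (θ : ℝ) : Yw T3 (Y3 h θ) := by
  have k := fun θ => yk_pr H (norm_nt θ)
  refine ((((k θ).add (k (-θ))).sub (k (π / 2 - θ))).sub (k (π / 2 + θ))).yw ?_
  simp only [Cm.Typ, T3, RG.Q4.En.Ty.rf, sw, List.cons_append, List.nil_append, List.forall_mem_cons,
    map_add, map_sub, act_pr H, Cm.gi, rfL_eq, rf_nt, prm_nt, nt_neg, sb]
  simp [neg_pr H]
  constructor <;> ring

open RG.Q4.En.Ty in
theorem yw6 (H : Rd h) (θ : ℝ) : Yw T6 (Y6 h θ) := by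
  have k := fun θ => yk_pr H (norm_nt θ)
  refine ((((k θ).sub (k (-θ))).add (k (π / 2 - θ))).sub (k (π / 2 + θ))).yw ?_
  simp only [Cm.Typ, T6, RG.Q4.En.Ty.rf, sw, List.cons_append, List.nil_append, List.forall_mem_cons,
    map_add, map_sub, act_pr H, Cm.gi, rfL_eq, rf_nt, prm_nt, nt_neg, sb]
  simp [neg_pr H]
  ring

end Pool.Agent.Lib.MP_7f377f_mp.Ob
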