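import Pool.Agent.Lib.MP_7f377f_mp.G.CaKC
import Pool.Agent.Lib.MP_7f377f_mp.G.CaK
import Pool.Agent.Lib.MP_7f377f_mp.G.TyY
import Pool.Agent.Lib.MP_7f377f_mp.G.TyE

/-! Composite fields as words on a grid. -/

noncomputable section

open Pool.Agent.Lib.MP_7f377f_mp.Jet

set_option linter.unusedSectionVars false
variable [Pool.Agent.Lib.MP_7f377f_mp.GD]

namespace Pool.Agent.Lib.MP_7f377f_mp.RG.Q4.En

open Finset Function Sg Real Pos Mg Filter YM7 Topology Br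
open Pur (mon Pol)
open Ope (cv)
open Weak (Site)
open scoped Classical

section
variable {n : ℕ} [NeZero n] {g : Site 4 n → ℝ} {ι : Type} [Fintype ι] {b a d Λ ν : ℝ} {R : ℕ}

/-- periodic extension -/
def ext (g : Site 4 n → ℝ) (x : St) : ℂ := g (Fi.cst n x)

theorem cav_sy (g : Site 4 n → ℝ) : Wd.cav n (ext g) = symF (Ob.sy g) := by
  funext x μ ν
  have : Ob.sy g (Fi.cst n x) (min μ ν) (max μ ν) = Ob.sy g (Fi.cst n x) μ ν := by
    rcases le_total μ ν with e | e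
    · rw [min_eq_left e, max_eq_right e]
    · rw [min_eq_right e, max_eq_left e, Ob.sy_symm]
  rw [symF, this]
  simp only [Wd.cav, ext, Ob.sy, Fi.cst_rc, Fi.cst_add, Fi.cst_un1, add_assoc]
  push_cast
  ring

theorem sy_pt {x : Site 4 n} {μ ν : Fin 4} (e : Ob.sy g x μ ν ≠ 0) :
    ∃ y, g y ≠ 0 ∧ ∀ l, ∃ t : ℤ, |t| ≤ 2 ∧ (x - y) l = t := by
  by_contra! u
  obtain ⟨y, hy⟩ : ∃ y, g y ≠ 0 ∧ Ob.sy (Pi.single y 1) x μ ν ≠ 0 := by
    by_contra! v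
    have k : ∀ y, g y ≠ 0 → x ≠ y ∧ x + Pi.single μ 1 ≠ y ∧ x + Pi.single ν 1 ≠ y ∧
        x + Pi.single μ 1 + Pi.single ν 1 ≠ y := fun y hy => by
      have := v y hy
      simp only [Ob.sy, Pi.single_apply (M := ℝ)] at this
      split_ifs at this <;> first | norm_num at this | skip
      tauto
    exact e (by
      rw [Ob.sy, of_not_not fun a => (k _ a).1 rfl, of_not_not fun a => (k _ a).2.1 rfl,
        of_not_not fun a => (k _ a).2.2.1 rfl, of_not_not fun a => (k _ a).2.2.2 rfl]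
      simp)
  obtain ⟨l, hl⟩ := u y hy.1
  obtain ⟨t, t1, t2⟩ := sy_near (g := Pi.single 0 1) (R := 0) (x := x - y) (μ := μ) (ν := ν)
    (fun z e i => by rw [of_not_not fun a => e (Pi.single_eq_of_ne a _)]; simp)
    (by simpa only [Ob.sy, Pi.single_apply (M := ℝ), ← add_sub_right_comm, sub_eq_zero] using hy.2) l
  exact hl t (by simpa using t1) t2

theorem sp_sy {κ : Type} {g : κ → Site 4 n → ℝ} {D : ℕ} (h : Sp (D + 4) fun i x _ _ => g i x) :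
    Sp D fun i => Ob.sy (g i) := fun i j e x μ ν y μ' ν' u v => by
  obtain ⟨x', u1, u2⟩ := sy_pt u
  obtain ⟨y', v1, v2⟩ := sy_pt v
  obtain ⟨l, hl⟩ := h i j e x' 0 0 y' 0 0 u1 v1
  obtain ⟨t, t1, t2⟩ := u2 l
  obtain ⟨s, s1, s2⟩ := v2 l
  have := ZMod.natAbs_min_of_le_div_two n _ (((x - y) l).valMinAbs - t + s)
    ((ZMod.coe_valMinAbs ((x' - y') l)).trans (by simp [← t2, ← s2]))
    (ZMod.natAbs_valMinAbs_le _)
  rw [abs_le] at t1 s1
  exact ⟨l, by omega⟩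

theorem sup_box (hs : ∀ y, g y ≠ 0 → ∀ i, (y i).valMinAbs.natAbs ≤ R) :
    sup (Ob.sy g) ⊆ box (R + 2) := fun x hx => by
  obtain ⟨μ, ν, e⟩ := mem_sup hx
  refine RG.mem_box.2 fun l => ?_
  obtain ⟨t, t1, t2⟩ := sy_near hs e l
  have a := RG.mem_box.1 (mem_filter.1 hx).1 l
  have := ZMod.natAbs_min_of_le_div_two n (x l) t t2 (by omega)
  rw [abs_le] at t1
  omega

theorem gfield_mul (c : ℝ) (g : Site 4 n → ℝ) (U : Cfg n) :
    gfield (Ob.sy fun y => c * g y) U = c * gfield (Ob.sy g) U := by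
  simp only [gfield, Ob.sy, mul_sum, mul_ite, mul_zero, ← mul_add, mul_div_assoc, mul_assoc]

/-- the profile of a letter -/
def wl (n : ℕ) (Λ s : ℝ) (u : Fin 2 → R4 → ℝ) (l : Fin 2) (y : Site 4 n) : ℝ := tsr Λ u s 0 l y 0 0

/-- words with two letters -/
def wB (n : ℕ) [NeZero n] (b s Λ ν : ℝ) (c : ι → ℝ) (u : ι → Fin 2 → R4 → ℝ) : Wo ι (Fin 2) :=
  ⟨fun x l => (symF (Ob.sy (wl n Λ s (u x) l)), 0, 0),
    fun x l => -YM7.ex (Fi.tr haar) b n (gfield (Ob.sy (wl n Λ s (u x) l))),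
    fun x l => sup (Ob.sy (wl n Λ s (u x) l)), fun x => ν * c x * Λ ^ 2⟩

variable (c : ι → ℝ) (u : ι → Fin 2 → R4 → ℝ)

theorem wB_ob (hn : Odd n) (Λ0 : Λ ≠ 0) {U : Conf} (hU : Per n U) :
    (wB n b (a / d) Λ ν c u).ob n U = Ob.evc (Fi.tr haar) b n a
      (ν • Cm.sh d 0 (∑ x, (c x : ℂ) • mon fun i => Ope.sc 1 (u x i))) (Fi.rs n U) := by
  have e : ∀ y : Site 4 n, xp (a / d) y = d⁻¹ • xp a y := fun y => by
    ext l
    simp only [xp, PiLp.smul_apply, smul_eq_mul]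
    ring
  rw [← Complex.coe_smul]
  simp only [Wo.ob, wB, xO, sO_per hn _ hU, map_smul, map_sum, Cm.sh, Pur.rename_mon, smul_sum,
    Finset.sum_apply, Pi.smul_apply, Ob.evc_mon, Ope.sc, Pi.zero_apply, sum_const_zero, add_zero,
    Fin.prod_univ_two, cen, YM7.ex, smul_eq_mul, sub_zero, inv_one, one_smul]
  refine sum_congr rfl fun x _ => ?_
  unfold wl tsr
  simp only [gfield_mul, MeasureTheory.integral_const_mul, sub_zero, e]
  have : (Λ : ℂ) ≠ 0 := Complex.ofReal_ne_zero.2 Λ0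
  push_cast
  field_simp
  ring

theorem wB_bc (s : ℝ) : BC ((wB n b s Λ ν c u).ob n) := by
  have : Continuous ((wB n b s Λ ν c u).ob n) := by
    have := cont_sO (n := n)
    unfold Wo.ob xO
    simp only [wB, Pi.zero_apply, sum_const_zero]
    fun_prop
  exact ⟨this.measurable, (isCompact_univ.exists_bound_of_continuousOn this.continuousOn).imp
    fun _ h U => h U trivial⟩

theorem ins_evc (Y Z : Pol) : Ob.ins n (Fi.tr haar) b a (Ob.evc (Fi.tr haar) b n a Y) Z =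
    cv (Ob.lex n (Fi.tr haar) b a) Y Z := by
  have : MeasureTheory.Integrable (1 : Cfg n → ℂ) (wilson (Fi.tr haar) b n) :=
    MeasureTheory.integrable_const _
  simp [Ob.ins, Ob.lex, Ob.iw, cv, Ob.int_evc, this]

theorem grid_smp {n' s e : ℕ} [NeZero n'] {A : Pol} {f : R4 → ℝ} {R R' : ℝ} (hn' : Odd n')
    (hf : ∀ y, f y ≠ 0 → ∀ l, |y l| ≤ R) (hA : A ∈ Pur.net.loc (Pur.Bx R') ∧ Ob.Rc A)
    (hn : n = n' * s) (ha : 0 < a) (R0 : 0 ≤ R') (hs : a * s = (3 ^ e)⁻¹)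
    (hR : 2 * (R + R' + 2 * a) < a * n) (U : Cfg n) :
    ∑ z ∈ box (n' / 2), jet n a f none ((s : ℤ) • z) *
      Ob.evc (Fi.tr haar) b n a A (Fi.rs n (sh ((s : ℤ) • z) (Fi.lf U))) =
        Ob.evc (Fi.tr haar) b n a (Ob.smp e A f) U := by
  rw [(Ob.smp_rc hf hA.2).evc, Ob.evr_smp hf hA.1 hn ha R0 hs hR, Ob.smr, ← Fi.image_vl hn',
    sum_image fun _ _ _ _ h => Fi.vl_inj h, Complex.ofReal_sum]
  refine sum_congr rfl fun y _ => ?_
  have : Fi.cst n ((s : ℤ) • Fi.vl y) = Weak.corner s y := funext fun l =>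
    (Weak.corner_int hn _ _ (congrFun (Fi.cst_vl y) l).symm).symm
  rw [rs_sh (Em.per_lf U), Fi.rs_lf, hA.2.evc, jet, this, Complex.ofReal_mul]
  rfl

end

namespace Gl

theorem mS_ext (G : Gl) (β : ℕ × ℕ → ℝ) {p : ℕ × ℕ} (hn : Odd (G.nn p)) (g : Site 4 (G.nn p) → ℝ) :
    G.mS β p (ext g) = YM7.ex (Fi.tr haar) (β p) (G.nn p) (gfield (Ob.sy g)) := by
  simp only [mS, vM, Wd.sm_phS hn (Em.per_lf _), cav_sy, sO_lf hn, YM7.ex]
  rw [integral_complex_ofReal, Complex.ofReal_re]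

/-- the geometry of the words -/
theorem Ok.wg_wB {G : Gl} (h : G.Ok) {J k e i r : ℕ} [NeZero (G.N J)] {ι : Type} [Fintype ι]
    {b a d Λ δ δ' ν C : ℝ} {c : ι → ℝ} {u : ι → Fin 2 → R4 → ℝ} (H : ∀ x, YM7.Tf (u x) Λ δ')
    (Λ1 : 1 ≤ Λ) (δ0 : 0 < δ) (δ1 : δ ≤ 1) (δ2 : δ ≤ δ') (d0 : 0 < d) (hk : k < J)
    (he : G.e k ≤ e) (ha : a * 3 ^ G.e J = 1) (hn : 4 * Λ < a / d * G.N J)
    (lo : 200 * (G.L (k + 1) : ℝ) ^ G.K0 ≤ δ * d * 3 ^ G.e (k + 1))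
    (hi : δ * d * 3 ^ G.e k ≤ 200 * (G.L k : ℝ) ^ G.K0) (i0 : 20 * (Λ / δ) + 2 ≤ i)
    (big : 400 * 3 ^ (2 * (i + 1) * (2 * i + 1) ^ 4) ≤ G.L k) (C0 : 0 ≤ C) (hr : r ≤ (G.p k).R)
    (lc : ∀ g : Site 4 (G.N J) → ℝ, PS (G.N J) (ext g) → (∀ x, ‖ext g x‖ ≤ 1 ∧ (ext g x).im = 0) →
      LipT (G.N J) (G.rt J (k + 1))⁻¹ (ext g) →
      (∀ x, ext g x ≠ 0 → ∀ l, |(rc (G.N J) x l : ℝ)| ≤ 200 * (Λ / δ) * G.Q k * G.rt J k) →
      G.Lc b J k r C (G.sx k) (symF (Ob.sy g), 0, 0)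
        (-YM7.ex (Fi.tr haar) b (G.N J) (gfield (Ob.sy g)))) :
    G.Wg b J k (3 ^ (G.e J - e)) i (2 * (i + 1) * (2 * i + 1) ^ 4) r C (G.sx k)
      (wB (G.N J) b (a / d) Λ ν c u) := by
  have s0 := div_pos (a_pos ha) d0
  have a1 := h.a_rt (d := d) ha hk.le
  have a2 := h.a_rt (d := d) ha hk
  have r1 : (1 : ℝ) ≤ G.rt J k := Nat.one_le_cast.2 (Nat.one_le_pow _ _ three_pos)
  have r2 : (1 : ℝ) ≤ G.rt J (k + 1) := Nat.one_le_cast.2 (Nat.one_le_pow _ _ three_pos)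
  have K1 : ∀ k, (1 : ℝ) ≤ G.L k ^ G.K0 := fun k => one_le_pow₀ (by linarith [h.L1 k])
  have p1 : 0 < d * 3 ^ G.e k := by positivity
  have p2 : 0 < d * 3 ^ G.e (k + 1) := by positivity
  generalize a / d = s at *
  have b1 : 200 * G.L (k + 1) ^ G.K0 * (G.rt J (k + 1) * s) ≤ δ := by
    rw [a2, ← div_eq_mul_inv, div_le_iff₀ p2]; linarith
  have b2 : 200 * (G.rt J (k + 1) * s) ≤ 1 := by
    nlinarith [mul_le_mul_of_nonneg_right (K1 (k + 1)) (show 0 ≤ G.rt J (k + 1) * s by positivity)]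
  have b3 : s ≤ 1 := by nlinarith
  have b4 : Λ / s ≤ 200 * (Λ / δ) * G.L k ^ G.K0 * G.rt J k := by
    have : s⁻¹ = d * 3 ^ G.e k * G.rt J k := by
      rw [← inv_inv (d * _), ← a1]; field_simp
    rw [div_eq_mul_inv, this, ← mul_assoc]
    refine mul_le_mul_of_nonneg_right (le_of_mul_le_mul_left ?_ δ0) (by positivity)
    field_simp
    nlinarith
  have S : ∀ x l y, wl (G.N J) Λ s (u x) l y ≠ 0 → ∀ i, (y i).valMinAbs.natAbs ≤ ⌊Λ / s⌋₊ :=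
    fun x l y e i => Nat.le_floor (by
      have := (H x).supp e i
      rw [sub_zero, abs_mul, abs_of_pos s0] at this
      rwa [le_div_iff₀' s0, Nat.cast_natAbs, Int.cast_abs])
  have f1 := Nat.floor_le (show 0 ≤ Λ / s by positivity)
  refine ⟨hk, pow_dvd_pow _ (Nat.sub_le_sub_left he _), ⟨_, fun x l => sup_box (S x l), ?_⟩,
    fun x l => ⟨fun y e => ⟨symF_out (h.N_odd J) e, rfl, rfl⟩, fun _ _ _ => rfl, fun _ _ => rfl,
      fun _ _ _ _ => rfl⟩, fun x l => lc _ (fun y v => ?_) (fun y => ⟨?_, rfl⟩) (fun y z R e => ?_)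
      fun y e i => ?_, fun x i _ j _ e => (sep_sp (D := 2 * G.ds J (k + 1)) (sp_sy
        ((H x).sp s0 hn ?_)) e).mono (by simp) Subset.rfl Subset.rfl, ?_, le_rfl, big, C0, hr,
    fun j e _ => ⟨div_pos (div_pos (h.b0 _) (pow_pos (h.Q0 _) _)) (by positivity), fun _ => ?_⟩⟩
  · have : ((((⌊Λ / s⌋₊ + 2 + 1) / G.rt J k : ℕ) : ℝ)) ≤ 200 * (Λ / δ) * G.L k ^ G.K0 + 3 :=
      Nat.cast_div_le.trans (by rw [div_le_iff₀ (by linarith)]; push_cast; linarith)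
    refine Nat.cast_le (α := ℝ).1 ?_
    rw [show (G.p k).D = 20 * G.L k ^ G.K0 from rfl]
    generalize (⌊Λ / s⌋₊ + 2 + 1) / G.rt J k = t at this
    push_cast
    nlinarith [K1 k]
  · rw [ext, Fi.cst_add, show Fi.cst (G.N J) ((G.N J : ℤ) • v) = 0 from funext fun _ => by
      simp [Fi.cst], add_zero, ext]
  · exact (Complex.norm_real _).trans_le ((H x).le_one 0 0)
  · refine (lipT_zmod (fun y => (H x).grad s0 (by linarith) 0 0) y z R e).trans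
      (mul_le_mul_of_nonneg_right ?_ R.cast_nonneg)
    rw [← one_div, le_div_iff₀ (by linarith)]
    linarith [mul_pos (rt_pos (G := G) J (k + 1)) s0]
  · have a := RG.mem_box.1 (rc_mem (h.N_odd J) y) i
    have := (ZMod.natAbs_min_of_le_div_two _ (rc (G.N J) y i) _ ((congrFun (Fi.cst_rc y) i).trans
      (ZMod.coe_valMinAbs _).symm) (by omega)).trans (S x l _ (Complex.ofReal_ne_zero.1 e) i)
    rw [← Int.cast_abs, ← Nat.cast_natAbs]
    refine (Nat.cast_le.2 this).trans (f1.trans (b4.trans ?_))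
    gcongr
    exact pow_le_pow_right₀ (by linarith [h.L1 k]) (by have := h.K0_le; omega)
  · rw [ds]
    push_cast
    nlinarith [mul_le_mul_of_nonneg_right (one_le_mul_of_one_le_of_one_le (K1 (k + 1)) r2) s0.le]
  · rw [Fintype.card_fin]
    exact le_trans (by omega) (Nat.le_mul_of_pos_right _ (by positivity))
  · rw [sx, sx, show j + 1 - (k + 1) = j - (k + 1) + 1 by omega, pow_succ]
    exact le_of_eq (by ring)

variable {G : Gl} {β : ℕ × ℕ → ℝ} {T : Ty.Ty} {W : Ope.Let} (h : G.Oks) (hβ : G.Tus β)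
include h hβ

/-- the composite `W` as a family of words -/
theorem Oks.wo_ex (hW : Ob.Yw T W) : ∃ δ₀ > 0, ∀ δ kd, 0 < δ → δ ≤ δ₀ → G.Kd δ kd →
    ∃ (ι : Type) (_ : Fintype ι) (B : ℝ → ℕ → ℕ × ℕ → Wo ι (Fin 2)) (i c : ℕ) (C : ℝ),
      (∀ r, ∀ᶠ d in 𝓝[>] (0 : ℝ), ∀ᶠ e in atTop, ∀ᶠ p in L6.fast,
        (G.wm p.1).Wg (β p) p.2 (kd d) (3 ^ (G.e p.2 - e)) i c r C (G.sx (kd d)) (B d e p) ∧
        (∑ x, |(B d e p).w x|) * (G.Q (kd d) * (G.rt p.2 (kd d) / (3 ^ (G.e p.2 - e) : ℕ))) ^ 4 ≤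
          G.Q (kd d) ^ 9 ∧ BC ((B d e p).ob (G.nn p)) ∧ ∀ g ∈ T, ∀ U, Per (G.nn p) U →
          (B d e p).ob (G.nn p) (Ty.cf g.1 U) = Ty.sb g.2 * (B d e p).ob (G.nn p) U) ∧
      ∀ f, Adm ![f] → ∀ d > 0, ∀ e, ∀ᶠ p in L6.fast, ∀ Z, G.vI β p (fun U =>
        ∑ z ∈ box (G.nn p / 3 ^ (G.e p.2 - e) / 2),
          jet (G.nn p) (G.aa p) f none (((3 ^ (G.e p.2 - e) : ℕ) : ℤ) • z) *
            (B d e p).ob (G.nn p) (sh (((3 ^ (G.e p.2 - e) : ℕ) : ℤ) • z) U)) Z =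
        cv (G.vE β p) (W d e f) Z := by
  obtain ⟨A, Λ, δ', Λ1, δ0', hA, ty, hY⟩ := hW
  have hA' := hA
  obtain ⟨ι, _, c, u, c1, H, rfl⟩ := hA'
  have o := (h 0).1
  have fl := L6.fast_le
  have t1 : ∀ x : ℝ, ∀ᶠ p in L6.fast, x < G.aa p * G.nn p := fun x =>
    ((h.fam hβ).vol.mono_left fl).eventually_gt_atTop x
  have t2 : ∀ e, ∀ᶠ p in L6.fast, e ≤ G.e p.2 := fun e => ((o.sch.mono.tendsto_atTop.comp
    tendsto_snd).mono_left fl).eventually_ge_atTop e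
  have Λ0 : Λ ≠ 0 := by positivity
  refine ⟨_, lt_min δ0' one_pos, fun δ kd δ0 δ1 K => ?_⟩
  obtain ⟨C, C0, lc⟩ := h.lc_ph hβ (200 * (Λ / δ))
  obtain ⟨i, i0⟩ := exists_nat_ge (20 * (Λ / δ) + 2)
  refine ⟨ι, ‹_›, fun d e p => wB (G.nn p) (β p) (G.aa p / d) Λ (((3 ^ e)⁻¹ / d) ^ 4) c u,
    i, 2 * (i + 1) * (2 * i + 1) ^ 4, C, fun r => ?_, fun f hf d d0 e => ?_⟩
  · filter_upwards [K.lo, K.hi, K.top.eventually lc, self_mem_nhdsWithin, (h.slow δ0 K 0).2,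
      K.top.eventually ((o.L_nat.eventually_ge_atTop (400 * 3 ^ (2 * (i + 1) * (2 * i + 1) ^ 4))).and
        ((o.L_nat.eventually_ge_atTop r).and (o.Q_top.eventually_ge_atTop (Λ ^ 3))))]
      with d lo hi lc (d0 : 0 < d) sl ⟨b1, b2, b3⟩
    filter_upwards [eventually_ge_atTop (G.e (kd d))] with e he
    filter_upwards [lc, t1 (4 * Λ * d), t2 e, (tendsto_snd.mono_left fl).eventually_gt_atTop (kd d)]
      with p lc v e1 hk
    have q := (h p.1).1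
    have od : Odd (G.nn p) := q.N_odd p.2
    refine ⟨q.wg_wB (fun x => (H x).2) Λ1 δ0 (δ1.trans (min_le_right _ _))
      (δ1.trans (min_le_left _ _)) d0 hk he (inv_mul_cancel₀ (by positivity))
      (by rwa [div_mul_eq_mul_div, lt_div_iff₀ d0]) lo hi i0 b1 C0 ?_ fun g a1 a2 a3 a4 =>
        cav_sy g ▸ mS_ext G β od g ▸ lc _ r a1 a2 a3 a4, ?_, wB_bc c u _, fun g hg U hU => ?_⟩
    · have : G.L (kd d) ≤ G.D0 (kd d) := by exact_mod_cast o.LD (kd d)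
      exact b2.trans (this.trans (Nat.le_mul_of_pos_left _ four_pos))
    · have q0 : 0 < G.Q (kd d) := o.Q0 _
      have e2 : (G.rt p.2 (kd d) : ℝ) / (3 ^ (G.e p.2 - e) : ℕ) = 3 ^ e * (3 ^ G.e (kd d))⁻¹ := by
        rw [rt, show G.e p.2 - G.e (kd d) = G.e p.2 - e + (e - G.e (kd d)) by omega, pow_add,
          Nat.cast_mul, mul_div_cancel_left₀ _ (by positivity), Nat.cast_pow, Nat.cast_ofNat,
          pow_sub₀ _ three_ne_zero he]
      simp only [wB, abs_mul, ← sum_mul, ← mul_sum, e2]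
      rw [abs_of_nonneg (by positivity), abs_of_nonneg (by positivity)]
      calc _ ≤ ((3 ^ e)⁻¹ / d) ^ 4 * Λ * Λ ^ 2 * (G.Q (kd d) * (3 ^ e * (G.Q (kd d) * d))) ^ 4 := by
            gcongr
        _ = Λ ^ 3 * G.Q (kd d) ^ 8 := by field_simp
        _ ≤ _ := by rw [pow_succ' _ 8]; gcongr; exact b3
    · rw [wB_ob c u od Λ0 hU, wB_ob c u od Λ0 (per_cf1 hU _), rs_cf hU, ← Ob.evc_cg od,
        ← Complex.coe_smul, map_smul, Ob.typ_sh ty d g hg, smul_comm, map_smul]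
      rfl
  · obtain ⟨R, _, tf⟩ := hf.tf
    have hR : ∀ y, f y ≠ 0 → ∀ l, |y l| ≤ R := tf.cube 0
    filter_upwards [t1 (2 * (R + 2 * (2 * Λ) * d + 2)), t2 e] with p v e1 Z
    have q := (h p.1).1
    have od : Odd (G.nn p) := q.N_odd p.2
    have a0 := G.aa_pos p
    have hn : G.nn p = (2 * p.1 + 1) * 3 ^ e * 3 ^ (G.e p.2 - e) := by
      rw [mul_assoc, ← pow_add, Nat.add_sub_cancel' e1]; rfl
    have : NeZero ((2 * p.1 + 1) * 3 ^ e) := ⟨by positivity⟩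
    have a1 : G.aa p ≤ 1 := inv_le_one_of_one_le₀ (one_le_pow₀ (by norm_num))
    rw [hY d e f R hR, Ob.yl_smp, vE, ← ins_evc, vI, ← Complex.coe_smul]
    refine congrArg (fun O => Ob.ins _ _ _ _ O Z) (funext fun U => ?_)
    rw [← grid_smp (Nat.Odd.of_mul_left (hn ▸ od)) hR (((hA.sh d0 ⟨half_le_self d0.le, le_rfl⟩).smul
      _).mem d0) hn a0 (by positivity) ?_ (by linarith), show G.nn p / 3 ^ (G.e p.2 - e) = _ from
        Nat.div_eq_of_eq_mul_left (by positivity) hn]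
    · exact sum_congr rfl fun z _ => by
        rw [wB_ob c u od Λ0 (per_sh' (Em.per_lf U) _), Complex.coe_smul]
    · rw [aa, Nat.cast_pow, Nat.cast_ofNat, pow_sub₀ _ three_ne_zero e1]
      field_simp

end Gl

end Pool.Agent.Lib.MP_7f377f_mp.RG.Q4.En
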