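import Pool.Agent.Lib.MP_7f377f_mp.G.CaKL
import Pool.Agent.Lib.MP_7f377f_mp.G.CaKL1

/-! The composites are proportional to letters at the top. -/

noncomputable section

set_option linter.unusedSectionVars false
variable [Pool.Agent.Lib.MP_7f377f_mp.GD]

namespace Pool.Agent.Lib.MP_7f377f_mp.RG.Q4.En.Gl

open Real Filter YM7 Topology
open Pur (mon)
open Ope (cv)
open scoped Classical

variable {G : Gl} {β : ℕ × ℕ → ℝ} (h : G.Oks) (hβ : G.Tus β)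
include h hβ

theorem Oks.link_one {T : Ty.Ty} {Y : Wd.Let} {W : Ope.Let} (hY : Tm T Y) (hW : Ob.Yw T W) :
    ∃ δ₀ > 0, ∀ δ kd, 0 < δ → δ ≤ δ₀ → G.Kd δ kd → ∀ᶠ q : ℕ in atTop,
      ∃ c : ℝ → ℕ → ℕ × ℕ → ℝ, (∀ d e p, |c d e p| ≤ 1) ∧ OnA 0 fun _ f g => ∃ K,
        ∀ᶠ d in 𝓝[>] (0 : ℝ), ∀ᶠ e in atTop, ∀ᶠ p in L6.fast, ‖cv (G.vE β p) (W d e f) (mon g) +
          c d e p / G.zt β Y kd (fun d => G.Q (kd d) ^ q) d p * G.vL β Y p f (mon g)‖ ≤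
            K * d ^ (1000⁻¹ : ℝ) := by
  obtain ⟨δ₀, δ0, H⟩ := h.wo_ex hβ hW
  refine ⟨δ₀, δ0, fun δ kd a b K => ?_⟩
  obtain ⟨ι, _, B, i, c, C, H1, H2⟩ := H δ kd a b K
  obtain ⟨r0, hr⟩ := Wd.exists_rad Y
  obtain ⟨r, r1, r2⟩ := h.link_word (ι := ι) hβ hY hr i c C
  have Q1 : ∀ k, 1 ≤ G.Q k := (h 0).1.Q1
  generalize 2 * c + 300 = m at r2
  filter_upwards [eventually_ge_atTop m] with q hq
  refine ⟨fun d e p => r (kd d) p (3 ^ (G.e p.2 - e)) (B d e p) * G.Q (kd d) ^ m / G.Q (kd d) ^ q,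
    fun d e p => ?_, fun k t e f g a1 a2 a3 => ?_⟩
  · have := Q1 (kd d)
    rw [abs_div, abs_mul, abs_of_pos (a := _ ^ m) (by positivity), abs_of_pos (a := _ ^ q) (by positivity),
      div_le_one (by positivity)]
    exact (mul_le_of_le_one_left (by positivity) (r1 ..)).trans (pow_le_pow_right₀ this hq)
  obtain ⟨M, r2⟩ := r2 k t e f g a1 a2 a3
  refine ⟨|M|, ?_⟩
  filter_upwards [H1 r0, K.top.eventually r2, self_mem_nhdsWithin, (h.slow a K 0).2,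
    (h.slow a K (m + 1)).1.1 (40⁻¹ - 1000⁻¹) (by norm_num)] with d H1 r2 (d0 : 0 < d) s1 s2
  filter_upwards [H1] with e H1
  filter_upwards [H1, r2, H2 f (Ope.adm_one.2 (a1.1 0)) d d0 e] with p ⟨w1, w2, _, w3⟩ r2 H2
  have q1 := Q1 (kd d)
  have q0 : (G.Q (kd d) : ℂ) ≠ 0 := Complex.ofReal_ne_zero.2 (by positivity)
  have := r2 _ _ w1 w2 w3
  rw [H2] at this
  refine (le_of_eq_of_le ?_ this).trans ?_
  · rw [zt]
    push_cast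
    rw [div_div_eq_mul_div, div_mul_cancel₀ _ (pow_ne_zero _ q0)]
  · have e1 : ((3 : ℝ) ^ G.e (kd d))⁻¹ ^ (40⁻¹ : ℝ) ≤ G.Q (kd d) * d ^ (40⁻¹ : ℝ) :=
      (rpow_le_rpow (by positivity) s1 (by norm_num)).trans (by
        rw [mul_rpow (by positivity) d0.le]
        gcongr
        exact (rpow_le_rpow_of_exponent_le q1 (by norm_num)).trans_eq (rpow_one _))
    rw [abs_of_pos (by positivity), rpow_sub d0, ← mul_div_assoc, div_le_one (by positivity),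
      pow_succ, mul_assoc] at s2
    rw [mul_assoc]
    exact mul_le_mul (le_abs_self M) ((mul_le_mul_of_nonneg_left e1 (by positivity)).trans s2)
      (by positivity) (abs_nonneg M)

/-- the composites are proportional to letters at the top -/
theorem Oks.link_top {h₀ : R4 → ℝ} (r : Ope.Rd h₀) : ∃ δ₀ > 0, ∀ δ kd, 0 < δ → δ ≤ δ₀ → G.Kd δ kd →
    ∃ y, Ls y ∧ ∀ Y W, (Y = (4⁻¹ : ℂ) • Wd.V3 ∧ W = Ope.Y3 h₀ 0 ∨ Y = Wd.V6 ∧ W = Ope.Y6 h₀ (π / 4)) →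
      ∃ c : ℝ → ℕ → ℕ × ℕ → ℝ, (∀ d e p, |c d e p| ≤ 1) ∧ OnA 0 fun _ f g => ∃ K,
        ∀ᶠ d in 𝓝[>] (0 : ℝ), ∀ᶠ e in atTop, ∀ᶠ p in L6.fast, ‖cv (G.vE β p) (W d e f) (mon g) +
          c d e p / G.zt β Y kd y d p * G.vL β Y p f (mon g)‖ ≤ K * d ^ (1000⁻¹ : ℝ) := by
  obtain ⟨δ₁, a1, H1⟩ := h.link_one hβ tm_V3 (Ob.yw3 r 0)
  obtain ⟨δ₂, a2, H2⟩ := h.link_one hβ tm_V6 (Ob.yw6 r (π / 4))
  refine ⟨_, lt_min a1 a2, fun δ kd a b K => ?_⟩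
  obtain ⟨q, q1, q2⟩ := ((H1 δ kd a (b.trans (min_le_left _ _)) K).and
    (H2 δ kd a (b.trans (min_le_right _ _)) K)).exists
  refine ⟨_, (h.slow a K q).1, ?_⟩
  rintro Y W (⟨rfl, rfl⟩ | ⟨rfl, rfl⟩)
  exacts [q1, q2]

end Pool.Agent.Lib.MP_7f377f_mp.RG.Q4.En.Gl
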