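import Pool.Agent.Lib.MP_7f377f_mp.G.CaKV3

/-! Odd words in terms of letters of the block field. -/

noncomputable section

set_option linter.unusedSectionVars false
variable [Pool.Agent.Lib.MP_7f377f_mp.GD]

namespace Pool.Agent.Lib.MP_7f377f_mp.RG.Q4.En

open Finset Function Sg Real Pos Mg Filter YM7 Topology
open Wd (Let)
open Pur (mon Pol)
open scoped Classical

theorem ev_ch {α β γ δ ε ζ : Type} [Nonempty ζ] {l : Filter α} {P Q : α → β → γ → δ → ε → Prop}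
    {R : α → β → γ → δ → ε → ζ → Prop}
    (h : ∀ᶠ k in l, ∀ p s W B, P k p s W B → Q k p s W B ∧ ∃ e, R k p s W B e) :
    ∃ e : α → β → γ → δ → ε → ζ, ∀ᶠ k in l, ∀ p s W B, P k p s W B →
      Q k p s W B ∧ R k p s W B (e k p s W B) :=
  ⟨fun k p s W B => Classical.epsilon (R k p s W B), h.mono fun _ a p s W B w =>
    ⟨(a p s W B w).1, Classical.epsilon_spec (a p s W B w).2⟩⟩

theorem IV.sum {M : Type} [AddCommMonoid M] (f : IV → M) :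
    ∑ x, f x = ∑ x, f (.inl x) + ∑ m, ∑ x, f (.inr (m, x)) := by
  rw [Fintype.sum_sum_type, Fintype.sum_prod_type]

theorem vec_alg {α : Type} [Fintype α] (m : ℂ) (a : ℝ) (x : Pol →ₗ[ℂ] ℂ) (y : α → Pol →ₗ[ℂ] ℂ)
    (y' : Fin 4 → α → Pol →ₗ[ℂ] ℂ) (z : α → ℝ) (z' : Fin 4 → α → ℝ) (Z : Pol) :
    m * (x Z + ∑ i, (-z i : ℝ) * y i Z + ∑ l, ∑ i, (-z' l i * a : ℝ) * y' l i Z) =
      (m • x - (∑ i, (z i : ℂ) • m • y i + ∑ l, ∑ i, (z' l i : ℂ) • m • (a : ℂ) • y' l i)) Z := by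
  simp [mul_add, mul_sub, mul_sum, sub_sub, ← sub_eq_add_neg, mul_assoc, mul_left_comm]

namespace Gl

variable {ι κ : Type} [Fintype ι] [DecidableEq ι] [Fintype κ] [DecidableEq κ] [Inhabited κ]
  {G : Gl} {β : ℕ × ℕ → ℝ} {δ : ℝ} {kd : ℝ → ℕ}

theorem Ok.cE_prod (h : G.Ok) {j k : ℕ} (hk : j ≤ k) (X : ℝ) :
    ∏ ε : Fin 4 → Bool, (X * if ε = 0 then G.cE j k else 2 ^ (k - j)) ≤
      (X * (G.rt k j : ℝ)⁻¹ ^ (640⁻¹ : ℝ)) ^ 16 := by
  have r := Ok.rt_pos (G := G) k j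
  have a := h.cE_pow (C := 2 ^ 15) (by norm_num) (by norm_num) hk
  rw [prod_mul_distrib, prod_const, mul_pow, ← mul_prod_erase _ _ (mem_univ 0), if_pos rfl,
    prod_congr rfl fun _ e => if_neg (ne_of_mem_erase e), prod_const,
    card_erase_of_mem (mem_univ _), show card (univ : Finset (Fin 4 → Bool)) = 16 by simp]
  refine mul_le_mul_of_nonneg_left (le_of_pow_le_pow_left₀ (n := 40) (by norm_num) (by positivity)
    ?_) (by positivity)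
  rw [← pow_mul _ 16, ← rpow_mul_natCast (by positivity), mul_comm, ← pow_right_comm]
  norm_num only [rpow_one] at a ⊢
  rwa [← one_div, le_div_iff₀ r]

theorem vI_ta {p : ℕ × ℕ} {k : ℕ} (o : (G.wm p.1).Ok) (hk : k ≤ p.2) (X : Let) (c : ℂ)
    (F : St → ℂ) : G.vI β p ((G.wm p.1).ta (Wd.sm ((G.wm p.1).N k) X (G.fd p.2 k (c • F))) p.2 k) =
      c • G.vI β p ((G.wm p.1).ta (Wd.sm ((G.wm p.1).N k) X (G.fd p.2 k F)) p.2 k) := by
  have e := o.ta_lin hk (bc_cont (continuous_const (y := 0)))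
    (Wd.sm_bc ((G.wm p.1).N k) X (G.fd p.2 k F)) c
  simp only [o.ta_zero hk, zero_add] at e
  rw [← vI_smul, ← e, ← funext (Wd.sm_smul' _)]
  rfl

variable (h : G.Oks) (hβ : G.Tus β)
include h hβ

theorem Oks.vec_w0 : ∃ r0, ∀ r ≥ r0, ∀ i c C, ∃ (q : ℕ)
    (a : ℕ → ℕ × ℕ → ℕ → ℝ → Wo ι κ → Fin 3 ⊕ Wd.Iv → ℝ)
    (a' : ℕ → ℕ × ℕ → ℕ → ℝ → Wo ι κ → Fin 4 → Fin 3 ⊕ Wd.Iv → ℝ),
    (∀ᶠ k in atTop, ∀ᶠ p in L6.fast, ∀ s W B, G.Wh β p k s i c r C W B →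
      ∑ x, |a k p s W B x| ≤ G.Q k ^ q * W * 3 ^ G.e k ∧
        ∀ m, ∑ x, |a' k p s W B m x| ≤ G.Q k ^ q * W) ∧
    OnA ⊤ fun _ f g => ∃ K, ∀ᶠ k in atTop, ∀ᶠ p in L6.fast, ∀ s W B, G.Wh β p k s i c r C W B →
      ‖G.vI β p (B.gs (G.nn p) s (jet (G.nn p) (G.aa p) f none)) (mon g) +
        ∑ x, a k p s W B x * G.vB β (Wd.PO x) k p f (mon g) +
        ∑ m, ∑ x, a' k p s W B m x * G.vB β (Wd.OF m x) k p (Fx.pd m f) (mon g)‖ ≤
          K * (G.Q k ^ q * W) * ((3 : ℝ) ^ G.e k)⁻¹ ^ (640⁻¹ : ℝ) := by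
  obtain ⟨r0, V⟩ := h.vec_vk (ι := ι) (κ := κ) hβ
  refine ⟨r0, fun r hr i c C => ?_⟩
  obtain ⟨A, j0, V⟩ := V r hr
  obtain ⟨z, V⟩ := ev_ch (V i c C)
  refine ⟨2 * c + 4000, fun k p s W B x => -z k p s W B (.inl x),
    fun k p s W B m x => -z k p s W B (.inr (m, x)) * G.aa p, V.mono fun k a => .of_forall
      fun p s W B w => ?_, ?_⟩
  · simpa only [abs_neg, abs_mul, abs_of_pos (G.aa_pos p)] using
      And.intro (a p s W B w).2.1 (a p s W B w).2.2.1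
  rintro n t e f g hA hf ⟨u, hu, hs⟩
  obtain ⟨M, M0, hM⟩ := h.jet_nm (f := f) (r := True) (hA.1 0).1 (hA.1 0).2 fun _ =>
    hf.of_le (WithTop.coe_le_coe.2 (le_top (a := 2)))
  obtain ⟨j, ⟨Λ, a⟩, hj⟩ := ((h.fb (Ω := St × ι) (κ := κ) (α := IV) hβ e t (g := g)
    ⟨fun i => hA.1 i.succ, fun i j e => hA.2 ((Fin.succ_injective n).ne e)⟩
    (hu.comp (Fin.succ_injective n)) (fun i e => i.succ_ne_zero (hu e)) fun i => hs i.succ).and
    (eventually_ge_atTop j0)).exists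
  refine ⟨M * Λ * 3 ^ G.e j * (3 ^ G.e j) ^ (640⁻¹ : ℝ), ?_⟩
  filter_upwards [V, eventually_ge_atTop j] with k V hk
  filter_upwards [a, hM.filter_mono L6.fast_le] with p a hM s W B w
  obtain ⟨v1, -, -, v2⟩ := V p s W B w
  have o := (h p.1).1
  have l := w.wg.lt.le
  have X0 : 0 ≤ G.Q k ^ (2 * c + 4000) * W * 3 ^ G.e j := by
    have := w.w0
    have : 0 < G.Q k := o.Q0 k
    positivity
  have b := (a k hk w.wg.lt _ _ _ _ _ _ _ _ _ _ nm_cl hM (jet_in (o.N_odd _) fun y e =>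
    hs 0 y (right_ne_zero_of_mul e)) (v2 j hj hk) (w.wg.gm_vr o (hβ p) v1)
    (mul_nonneg X0 (by positivity)) (o.cE_prod hk _)).1
  have c1 : BC (B.gs (G.nn p) s (jet (G.nn p) (G.aa p) f none)) :=
    bc_sum' fun _ _ => (bc_comp w.bc (Ms.cont_sh _).measurable).cm _
  have c2 := fun Y F => o.ta_bc l (Wd.sm_bc ((G.wm p.1).N k) Y F)
  rw [gm_zero, vI_congr fun U hU => w.wg.vO_gv o (hβ p) _ hU, jet_smul] at b
  simp only [Wd.sm_zero, Pi.zero_apply, sum_const_zero, sub_zero, Complex.ofReal_zero, zero_mul,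
    show B.gs ((G.wm p.1).N p.2) s ((((M⁻¹ : ℝ) : ℂ) • jet (G.nn p) (G.aa p) f) none) = fun U =>
      (M⁻¹ : ℝ) * B.gs (G.nn p) s (jet (G.nn p) (G.aa p) f none) U from funext fun U => by
        simp only [Wo.gs, mul_sum, Pi.smul_apply, smul_eq_mul, mul_assoc]; rfl] at b
  rw [vI_sub (c1.cm _) (bc_sum' fun _ _ => (c2 _ _).cm _), vI_sum fun _ _ => (c2 _ _).cm _,
    IV.sum] at b
  simp only [vI_smul, YV, oV, Sum.elim_inl, Sum.elim_inr, Pi.smul_apply, jet_pd,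
    show ∀ F, (G.wm p.1).fd p.2 k F = G.fd p.2 k F from fun _ => rfl, vI_ta o l] at b
  have e : ((G.wm p.1).rt k j : ℝ)⁻¹ = 3 ^ G.e j * (3 ^ G.e k)⁻¹ := by
    rw [← show ((G.wm p.1).rt k j : ℝ) * 3 ^ G.e j = 3 ^ G.e k from o.rt_e hk]
    field_simp
  rw [e, mul_rpow (by positivity) (by positivity)] at b
  refine le_of_mul_le_mul_left (le_of_eq_of_le (((congrArg (· * _) ((Complex.norm_real _).trans
    (norm_of_nonneg (inv_pos.2 M0).le)).symm).trans (norm_mul _ _).symm).trans (congrArg _ ?_))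
    (b.trans_eq (by field_simp))) (inv_pos.2 M0)
  rw [vec_alg _ _ _ (fun x => G.vB β (Wd.PO x) k p f) (fun m x => G.vB β (Wd.OF m x) k p
    (Fx.pd m f)) (fun x => z k p s W B (.inl x)) fun m x => z k p s W B (.inr (m, x))]
  simp only [vB]

end Gl

end Pool.Agent.Lib.MP_7f377f_mp.RG.Q4.En
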