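import Pool.Agent.Lib.MP_7f377f_mp.G.StW2

/-! The charges as words: definitions. -/

noncomputable section

set_option linter.unusedSectionVars false
variable [Pool.Agent.Lib.MP_7f377f_mp.GD]

namespace Pool.Agent.Lib.MP_7f377f_mp.RG.Q4.En

open Finset Function Sg Real Pos Mg Filter YM7 Topology
open Wd (Let sm)
open scoped Classical

/-- lattice points in a shell -/
def an (n : ℕ) (s α γ : ℝ) : Finset St :=
  (box (n / 2)).filter fun x => α ≤ ‖xp s (Fi.cst n x)‖ ∧ ‖xp s (Fi.cst n x)‖ ≤ γ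

/-- the tensor components of the charges -/
def YC : Fin 3 → Let := ![(4⁻¹ : ℂ) • Wd.V3, Wd.V6, 0]

/-- their images under the exchange of two axes -/
def yC (i l : Fin 3) : Let := Wd.act (Wd.pe (Equiv.swap 1 l.succ)) (YC i)

/-- the direction of the derivative -/
def mC (i l : Fin 3) : Fin 4 := if i = 1 then l.succ else 0

namespace Gl

variable (G : Gl) (β : ℕ × ℕ → ℝ)

/-- normalised profiles at the scale `d` -/
def pC (M d : ℝ) (p : ℕ × ℕ) (v : R4 → ℝ) : St → ℂ := jet (G.nn p) (G.aa p / d) (M⁻¹ • v) none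

/-- the centred action density -/
def cS (p : ℕ × ℕ) (F : St → ℂ) (U : Conf) : ℂ := sm (G.nn p) Wd.phS F U - G.mS β p F

/-- the normalisation of the charges -/
def zC (kd : ℝ → ℕ) (y : ℝ → ℝ) (d : ℝ) (p : ℕ × ℕ) : Fin 3 → ℝ :=
  ![G.zt β ((4⁻¹ : ℂ) • Wd.V3) kd y d p, G.zt β Wd.V6 kd y d p, 1]

/-- the sizes of the first letters -/
def xC (k : ℕ) (p : ℕ × ℕ) (i l : Fin 3) : ℝ := (G.wm p.1).xk (β p) p.2 k (yC i l)

/-- the first factor -/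
def oC (ξ : R4 → ℝ) (M d : ℝ) (p : ℕ × ℕ) (i : Fin 3) (U : Conf) : ℂ :=
  if i = 2 then G.cS β p (G.pC M d p (Fx.pd 0 ξ)) U
  else ∑ l, sm (G.nn p) (yC i l) (G.pC M d p (Fx.pd (mC i l) ξ)) U

/-- the charges as words -/
def wC (u ξ : R4 → ℝ) (M : ℝ) (kd : ℝ → ℕ) (y : ℝ → ℝ) (i : Fin 3) (d : ℝ) (e : ℕ) (p : ℕ × ℕ) :
    Wo (Fin 3) (Fin 2) where
  F l := ![if i = 2 then (Wd.cav (G.nn p) (G.pC M d p (Fx.pd (mC i l) ξ)), 0, 0) else
    lW (yC i l) fun x => G.pC M d p (Fx.pd (mC i l) ξ) x / G.xC β (kd d) p i l,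
    (Wd.cav (G.nn p) (G.pC M d p u), 0, 0)]
  a l := ![if i = 2 then -G.mS β p (G.pC M d p (Fx.pd (mC i l) ξ)) else 0, -G.mS β p (G.pC M d p u)]
  V _ := ![an (G.nn p) (G.aa p / d) (15 / 16) 3, an (G.nn p) (G.aa p / d) 0 (9 / 16)]
  w l := (3 ^ e)⁻¹ ^ 4 * d⁻¹ ^ 5 * M ^ 2 / G.zC β kd y d p i *
    if i = 2 then (if l = 0 then 1 else 0) else G.xC β (kd d) p i l

variable {G β} {u ξ : R4 → ℝ} {M d : ℝ} {kd : ℝ → ℕ} {y : ℝ → ℝ} {i : Fin 3} {e : ℕ} {p : ℕ × ℕ}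

theorem xO_cav (F : St → ℂ) {U : Conf} (hU : Per (G.nn p) U) :
    xO (G.nn p) (Wd.cav (G.nn p) F, 0, 0) U = sm (G.nn p) Wd.phS F U := by
  simp [xO, Wd.sm_phS (G.nn_odd p) hU]

theorem xO_lW (n : ℕ) (Y : Let) (F : St → ℂ) (c : ℂ) (U : Conf) :
    xO n (lW Y fun x => F x / c) U = c⁻¹ * sm n Y F U := by
  simp [xO, lW, lS, sO, sm, mul_sum, div_eq_inv_mul, mul_assoc]

/-- the observable -/
theorem wC_ob (hx : i ≠ 2 → ∀ l, G.xC β (kd d) p i l ≠ 0) {U : Conf} (hU : Per (G.nn p) U) :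
    (G.wC β u ξ M kd y i d e p).ob (G.nn p) U =
      ((3 ^ e)⁻¹ ^ 4 * d⁻¹ ^ 5 * M ^ 2 / G.zC β kd y d p i : ℝ) *
        (G.oC β ξ M d p i U * G.cS β p (G.pC M d p u) U) := by
  simp only [Wo.ob, wC, oC, cS, Fin.prod_univ_two, Matrix.cons_val_zero, Matrix.cons_val_one,
    xO_cav _ hU]
  generalize (3 ^ e)⁻¹ ^ 4 * d⁻¹ ^ 5 * M ^ 2 / G.zC β kd y d p i = t
  split_ifs with a
  · subst a
    simp only [Fin.sum_univ_three, xO_cav _ hU, mC]
    simp only [Fin.reduceEq, if_false, if_true, mul_zero, mul_one, Complex.ofReal_zero, zero_mul,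
      add_zero, Complex.ofReal_neg]
    ring
  · simp only [xO_lW, sum_mul, mul_sum]
    refine sum_congr rfl fun l _ => ?_
    have : (G.xC β (kd d) p i l : ℂ) ≠ 0 := Complex.ofReal_ne_zero.2 (hx a l)
    push_cast
    field_simp
    ring

end Gl

end Pool.Agent.Lib.MP_7f377f_mp.RG.Q4.En
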