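import Pool.Agent.Lib.MP_7f377f_mp.G.CaKC
import Pool.Agent.Lib.MP_7f377f_mp.G.CaKV1a
import Pool.Agent.Lib.MP_7f377f_mp.G.StW1

/-! The geometry of words with two letters in concentric shells. -/

noncomputable section

set_option linter.unusedSectionVars false
variable [Pool.Agent.Lib.MP_7f377f_mp.GD]

namespace Pool.Agent.Lib.MP_7f377f_mp.RG.Q4.En

open Finset Function Sg Real Pos Mg Filter YM7 Topology
open Wd (Let)
open scoped Classical

/-- lattice points as points of Euclidean space -/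
def pR (s : ℝ) (x : St) : R4 := WithLp.toLp 2 fun l => s * x l

/-- normalised profiles in a shell -/
structure Prf (n : ℕ) (s α γ : ℝ) (F : St → ℂ) : Prop where
  ps : PS n F
  bd : ∀ x, ‖F x‖ ≤ 1 ∧ (F x).im = 0
  lip : LipT n s F
  sup : ∀ x, F x ≠ 0 → α ≤ ‖pR s (rc n x)‖ ∧ ‖pR s (rc n x)‖ ≤ γ

section
variable {n : ℕ} {s α γ α' γ' : ℝ} {F : St → ℂ} {φ : R4 → ℝ}

theorem xp_cst (hn : Odd n) (x : St) : xp s (Fi.cst n x) = pR s (rc n x) := by
  have : NeZero n := ⟨hn.pos.ne'⟩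
  ext l
  have := RG.mem_box.1 (rc_mem hn x) l
  have := Nat.odd_iff.1 hn
  simp only [xp, pR]
  rw [show rc n x l = (Fi.cst n x l).valMinAbs from ((ZMod.valMinAbs_spec _ _).2
    ⟨(congrFun (Fi.cst_rc x) l).symm, by omega, by omega⟩).symm]

theorem mem_an (hn : Odd n) {x : St} :
    x ∈ an n s α γ ↔ x ∈ box (n / 2) ∧ α ≤ ‖pR s x‖ ∧ ‖pR s x‖ ≤ γ :=
  mem_filter.trans (and_congr_right fun e => by rw [xp_cst hn, rc_eq hn e])

theorem pR_sub (x y : St) : pR s (x - y) = pR s x - pR s y := by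
  ext l
  simp [pR, mul_sub]

theorem pR_le (s0 : 0 < s) (x : St) (l : Fin 4) : s * |(x l : ℝ)| ≤ ‖pR s x‖ := by
  simpa [pR, abs_of_pos s0] using PiLp.norm_apply_le (pR s x) l

theorem le_pR (s0 : 0 < s) {x : St} {R : ℕ} (hx : x ∈ box R) : ‖pR s x‖ ≤ 2 * (s * R) := by
  simpa using dist_le_two (y := pR s x) (z := 0) (w := s * R) fun l => by
    have : |(x l : ℝ)| ≤ R := by exact_mod_cast abs_le.2 (RG.mem_box.1 hx l)
    simpa [pR, abs_mul, abs_of_pos s0, s0] using this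

theorem prf_jet (h1 : ContDiff ℝ 1 φ) (hs : ∀ y, φ y ≠ 0 → α ≤ ‖y‖ ∧ ‖y‖ ≤ γ) :
    ∃ R : ℝ, ∀ᶠ M : ℝ in atTop, ∀ (n : ℕ) s, Odd n → 0 < s → s ≤ 1 → R ≤ s * n →
      Prf n s α γ (jet n s (M⁻¹ • φ) none) := by
  obtain ⟨M, M0, R, H⟩ := nm_jet (r := False) (f := φ) (HasCompactSupport.intro
    (isCompact_closedBall 0 γ) fun y hy => of_not_not fun e => hy (by simpa using (hs y e).2)) h1
    False.elim
  refine ⟨R, (eventually_ge_atTop M).mono fun N hN n s hn s0 s1 e => ?_⟩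
  have a := H n s hn s0 s1 e
  have N0 := M0.trans_le hN
  have e : ∀ x, jet n s (N⁻¹ • φ) none x = (M / N : ℝ) * jet n s (M⁻¹ • φ) none x := fun x => by
    simp only [jet, Option.elim, Pi.smul_apply, smul_eq_mul, ← Complex.ofReal_mul]
    congr 1
    field_simp
  have c : ‖((M / N : ℝ) : ℂ)‖ ≤ 1 := by
    rw [Complex.norm_real, norm_of_nonneg (by positivity)]
    exact div_le_one_of_le₀ hN N0.le
  refine ⟨jet_ps _ _ _ _, fun x => ⟨?_, jet_im ..⟩, fun x y R u => ?_, fun x hx => ?_⟩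
  · simpa only [e, one_mul] using norm_mul_le_of_le c ((a.bd none).2 x).1
  · simpa only [e, one_mul, ← mul_sub] using norm_mul_le_of_le c (a.lip x y R u)
  rw [← xp_cst hn]
  exact hs _ (right_ne_zero_of_mul (Complex.ofReal_ne_zero.1 hx))

theorem jet_neg (hn : Odd n) (h : ∀ y, φ (-y) = -φ y) (M : ℝ) (x : St) :
    jet n s (M • φ) none (-x) = -jet n s (M • φ) none x := by
  have : NeZero n := ⟨hn.pos.ne'⟩
  have : xp s (Fi.cst n (-x)) = -xp s (Fi.cst n x) := by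
    ext l
    simp only [xp, Fi.cst, Pi.neg_apply, PiLp.neg_apply]
    rw [Int.cast_neg, ZMod.valMinAbs_neg_of_ne_half fun e => by have := Nat.odd_iff.1 hn; omega,
      Int.cast_neg, mul_neg]
  simp [jet, this, h]

theorem pd_odd (h : ∀ y, φ (-y) = φ y) (m : Fin 4) (y : R4) : Fx.pd m φ (-y) = -Fx.pd m φ y := by
  simp only [Fx.pd, lineDeriv]
  rw [← neg_zero, ← deriv_comp_neg]
  simp only [← h (y + _), neg_add, neg_smul, neg_neg, neg_zero]

/-- the support of the derivatives of the cutoff -/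
theorem pd_shell {u ξ : R4 → ℝ} (hb : Ope.Bmp u ξ) (h4 : ∀ y, ‖y‖ ≤ 1 → ξ y = 1) (m : Fin 4) :
    ContDiff ℝ 1 (Fx.pd m ξ) ∧ ∀ y, Fx.pd m ξ y ≠ 0 → 1 ≤ ‖y‖ ∧ ‖y‖ ≤ 2 := by
  have hd := hb.sm.differentiable (by simp)
  refine ⟨?_, fun y e => ⟨le_of_not_gt fun a => e ?_,
    (mem_ball_zero_iff.1 (hb.sup (St.pd_ts (subset_tsupport _ e)))).le⟩⟩
  · rw [show Fx.pd m ξ = fun y => fderiv ℝ ξ y (EuclideanSpace.single m 1) from
      funext fun y => by rw [Fx.pd_eq hd]]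
    exact (hb.sm.fderiv_right (by norm_cast)).clm_apply contDiff_const
  · rw [Fx.pd_eq hd]
    beta_reduce
    rw [EventuallyEq.fderiv_eq (f := fun _ => 1) (mem_of_superset
      (Metric.isOpen_ball.mem_nhds (mem_ball_zero_iff.2 a)) fun z hz =>
        h4 z (mem_ball_zero_iff.1 hz).le)]
    simp

theorem Prf.mem (h : Prf n s α γ F) (hn : Odd n) (a : α' ≤ α) (c : γ ≤ γ') {x : St} (e : F x ≠ 0) :
    rc n x ∈ an n s α' γ' :=
  (mem_an hn).2 ⟨rc_mem hn x, a.trans (h.sup x e).1, (h.sup x e).2.trans c⟩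

theorem Prf.in_lW (h : Prf n s α γ F) (hn : Odd n) (a : α' ≤ α) (c : γ ≤ γ') (Y : Let) (t : ℂ) :
    (lW Y fun x => F x / t).In n (an n s α' γ') := fun x hx => by
  simp [lW, lS, of_not_not fun e => hx (h.mem hn a c e)]

theorem Prf.re_lW (h : Prf n s α γ F) {Y : Let} (hY : Wd.Re Y) (t : ℝ) (p : Pa) :
    (lW Y fun x => F x / t).Re p := lS_re hY fun x => by simp [Complex.div_ofReal_im, (h.bd x).2]

theorem Prf.re_cav (h : Prf n s α γ F) (p : Pa) : Sx.Re p (Wd.cav n F, 0, 0) :=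
  ⟨fun x μ ν => by simp [Wd.cav, (h.bd _).2], fun _ _ => rfl, fun _ _ _ _ => rfl⟩

theorem Prf.in_cav (h : Prf n s α γ F) (hn : Odd n) (s0 : 0 < s) (a : α' ≤ 0 ∨ α' + 4 * s ≤ α)
    (c : γ + 4 * s ≤ γ') (hγ : 2 * γ + 5 * s ≤ s * n) :
    Sx.In n (an n s α' γ') (Wd.cav n F, 0, 0) := fun x hx => by
  have k : ∀ w ∈ box 2, F (rc n (x + w)) = 0 := fun w hw => of_not_not fun e => hx (by
    obtain ⟨u1, u2⟩ := h.sup _ e
    rw [rc_rc] at u1 u2
    have b : rc n (x + w) - w ∈ box (n / 2) := RG.mem_box.2 fun l => by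
      have w1 := RG.mem_box.1 hw l
      have v := (pR_le s0 _ l).trans u2
      have : 2 * |rc n (x + w) l| + 5 ≤ n := by
        have : s * (2 * |(rc n (x + w) l : ℝ)| + 5) ≤ s * n := by linarith
        exact_mod_cast le_of_mul_le_mul_left this s0
      have := abs_le.1 (le_refl |rc n (x + w) l|)
      simp only [Pi.sub_apply]
      omega
    have e : rc n x = rc n (x + w) - w := by
      rw [← rc_eq hn b, sub_eq_add_neg, rc_add_rc, add_neg_cancel_right]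
    have w2 := le_pR s0 hw
    have t1 := norm_sub_norm_le (pR s (rc n (x + w))) (pR s w)
    have t2 := norm_sub_le (pR s (rc n (x + w))) (pR s w)
    rw [← pR_sub, ← e] at t1 t2
    push_cast at w2
    exact (mem_an hn).2 ⟨rc_mem hn x, a.elim (·.trans (norm_nonneg _)) fun _ => by linarith,
      by linarith⟩)
  have u : ∀ μ l, 0 ≤ un μ l ∧ un μ l ≤ 1 := fun μ l => by
    by_cases e : l = μ <;> simp [un, e]
  refine ⟨funext₂ fun μ ν => ?_, rfl, rfl⟩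
  have k0 := k 0 (zero_mem_box _)
  rw [add_zero] at k0
  simp only [Wd.cav, k0, k (un μ) (RG.mem_box.2 fun l => by have := u μ l; omega),
    k (un ν) (RG.mem_box.2 fun l => by have := u ν l; omega), k (un μ + un ν) (RG.mem_box.2 fun l => by
      have := u μ l; have := u ν l; simp only [Pi.add_apply]; omega), add_zero, mul_zero,
    Pi.zero_apply]

theorem an_box (hn : Odd n) (s0 : 0 < s) : an n s α γ ⊆ box ⌊γ / s⌋₊ := fun x hx => RG.mem_box.2 fun l => by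
  have := (pR_le s0 x l).trans ((mem_an hn).1 hx).2.2
  have : (x l).natAbs ≤ ⌊γ / s⌋₊ := Nat.le_floor (by
    rwa [le_div_iff₀' s0, Nat.cast_natAbs, Int.cast_abs])
  omega

theorem an_sep {D : ℝ} (hn : Odd n) (s0 : 0 < s) (h1 : 2 * (s * D) ≤ α - γ') (h2 : γ + γ' + s * D ≤ s * n) :
    Sep n D (an n s α γ) (an n s α' γ') := fun x hx y hy R ⟨v, hv⟩ => by
  obtain ⟨-, x1, x2⟩ := (mem_an hn).1 hx
  obtain ⟨-, -, y2⟩ := (mem_an hn).1 hy
  refine le_of_mul_le_mul_left ?_ s0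
  by_cases e : v = 0
  · rw [e, smul_zero, sub_zero] at hv
    have := le_pR s0 hv
    rw [pR_sub, norm_sub_rev] at this
    linarith [norm_sub_norm_le (pR s x) (pR s y)]
  · obtain ⟨l, hl⟩ := ne_iff.1 e
    have a := abs_le.2 (RG.mem_box.1 hv l)
    have b : (n : ℤ) ≤ |y l| + |x l| + R := by
      have : (n : ℤ) ≤ |n * v l| := by
        rw [abs_mul, Nat.abs_cast]
        exact le_mul_of_one_le_right n.cast_nonneg (Int.one_le_abs hl)
      simp only [Pi.sub_apply, Pi.smul_apply, smul_eq_mul] at a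
      generalize n * v l = t at *
      linarith [abs_sub (y l - x l) (y l - x l - t), abs_sub (y l) (x l), congrArg abs
        (sub_sub_cancel (y l - x l) t)]
    have c : (n : ℝ) ≤ |(y l : ℝ)| + |(x l : ℝ)| + R := by exact_mod_cast b
    linarith [pR_le s0 x l, pR_le s0 y l, mul_le_mul_of_nonneg_left c s0.le]

end

namespace Gl

variable {ι : Type} [Fintype ι] [DecidableEq ι] {G : Gl}

/-- the geometry of the words -/
theorem Ok.wg_two (h : G.Ok) {J k e i r : ℕ} {b a d δ C : ℝ} (δ0 : 0 < δ) (δ1 : δ ≤ 4⁻¹)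
    (d0 : 0 < d) (hk : k < J) (he : G.e k ≤ e) (ha : a * 3 ^ G.e J = 1) (hn : 8 ≤ a / d * G.N J)
    (lo : 200 * (G.L (k + 1) : ℝ) ^ G.K0 ≤ δ * d * 3 ^ G.e (k + 1))
    (hi : δ * d * 3 ^ G.e k ≤ 200 * (G.L k : ℝ) ^ G.K0) (i0 : 60 / δ + 2 ≤ i)
    (big : 400 * 3 ^ (2 * (i + 1) * (2 * i + 1) ^ 4) ≤ G.L k) (C0 : 0 ≤ C) (hr : r ≤ (G.p k).R) :
    a / d ≤ 100⁻¹ ∧ (∀ α γ F, γ ≤ 3 → Prf (G.N J) (a / d) α γ F → LipT (G.N J) (G.rt J (k + 1))⁻¹ F ∧
      ∀ x, F x ≠ 0 → ∀ l, |(rc (G.N J) x l : ℝ)| ≤ 600 / δ * G.Q k * G.rt J k) ∧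
    ∀ B : Wo ι (Fin 2), (∀ x, B.V x = ![an (G.N J) (a / d) (15 / 16) 3, an (G.N J) (a / d) 0 (9 / 16)]) →
      (∀ x l, (B.F x l).In (G.N J) (B.V x l) ∧ (B.F x l).Re (G.p J)) →
      (∀ x l, G.Lc b J k r C (G.sx k) (B.F x l) (B.a x l)) →
      G.Wg b J k (3 ^ (G.e J - e)) i (2 * (i + 1) * (2 * i + 1) ^ 4) r C (G.sx k) B := by
  have s0 := div_pos (a_pos ha) d0
  have a1 := h.a_rt (d := d) ha hk.le
  have a2 := h.a_rt (d := d) ha hk
  have r1 : (1 : ℝ) ≤ G.rt J k := Nat.one_le_cast.2 (Nat.one_le_pow _ _ three_pos)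
  have r2 : (1 : ℝ) ≤ G.rt J (k + 1) := Nat.one_le_cast.2 (Nat.one_le_pow _ _ three_pos)
  have K1 : ∀ k, (1 : ℝ) ≤ G.L k ^ G.K0 := fun k => one_le_pow₀ (by linarith [h.L1 k])
  have p1 : 0 < d * 3 ^ G.e k := by positivity
  have p2 : 0 < d * 3 ^ G.e (k + 1) := by positivity
  generalize a / d = s at *
  have b1 : 200 * G.L (k + 1) ^ G.K0 * (G.rt J (k + 1) * s) ≤ δ := by
    rw [a2, ← div_eq_mul_inv, div_le_iff₀ p2]; linarith
  have b2 : 800 * (G.rt J (k + 1) * s) ≤ 1 := by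
    nlinarith [mul_le_mul_of_nonneg_right (K1 (k + 1)) (show 0 ≤ G.rt J (k + 1) * s by positivity)]
  have b3 : s ≤ 100⁻¹ := by nlinarith
  have b4 : 3 / s ≤ 600 / δ * G.L k ^ G.K0 * G.rt J k := by
    have : s⁻¹ = d * 3 ^ G.e k * G.rt J k := by
      rw [← inv_inv (d * _), ← a1]; field_simp
    rw [div_eq_mul_inv, this, ← mul_assoc]
    refine mul_le_mul_of_nonneg_right (le_of_mul_le_mul_left ?_ δ0) (by positivity)
    field_simp
    nlinarith
  have f1 := Nat.floor_le (show 0 ≤ 3 / s by positivity)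
  have sp : Sep (G.N J) (2 * G.ds J (k + 1)) (an (G.N J) s (15 / 16) 3) (an (G.N J) s 0 (9 / 16)) := by
    have : s * (2 * G.ds J (k + 1)) ≤ 3 / 16 := by
      rw [ds]
      push_cast
      linarith
    exact an_sep (h.N_odd J) s0 (by linarith) (by linarith)
  refine ⟨b3, fun α γ F hγ a => ⟨fun x y R u => (a.lip x y R u).trans
    (mul_le_mul_of_nonneg_right ?_ R.cast_nonneg), fun x u l => ?_⟩, fun B hV hs lc => ⟨hk,
      pow_dvd_pow _ (Nat.sub_le_sub_left he _), ⟨⌊3 / s⌋₊, fun x l => ?_, ?_⟩, hs, lc,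
      fun x i _ j _ u => ?_, ?_, le_rfl, big, C0, hr,
      fun j e _ => ⟨div_pos (div_pos (h.b0 _) (pow_pos (h.Q0 _) _)) (by positivity), fun _ => ?_⟩⟩⟩
  · rw [← one_div, le_div_iff₀ (by linarith)]
    linarith [mul_pos (rt_pos (G := G) J (k + 1)) s0]
  · refine ((le_div_iff₀' s0).2 ((pR_le s0 _ l).trans ((a.sup x u).2.trans hγ))).trans (b4.trans ?_)
    gcongr
    exact pow_le_pow_right₀ (by linarith [h.L1 k]) (by have := h.K0_le; omega)
  · rw [hV]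
    fin_cases l
    · exact an_box (h.N_odd J) s0
    · exact fun y hy => an_box (h.N_odd J) (α := 0) s0 (mem_filter.2 ⟨(mem_filter.1 hy).1,
        (mem_filter.1 hy).2.1, (mem_filter.1 hy).2.2.trans (by norm_num)⟩)
  · have : ((((⌊3 / s⌋₊ + 1) / G.rt J k : ℕ) : ℝ)) ≤ 600 / δ * G.L k ^ G.K0 + 1 :=
      Nat.cast_div_le.trans (by rw [div_le_iff₀ (by linarith)]; push_cast; linarith)
    refine Nat.cast_le (α := ℝ).1 ?_
    rw [show (G.p k).D = 20 * G.L k ^ G.K0 from rfl]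
    generalize (⌊3 / s⌋₊ + 1) / G.rt J k = t at this
    rw [show 600 / δ = 10 * (60 / δ) by ring] at this
    push_cast
    nlinarith [K1 k]
  · rw [hV]
    fin_cases i <;> fin_cases j
    exacts [(u rfl).elim, sp, sp.symm, (u rfl).elim]
  · rw [Fintype.card_fin]
    exact le_trans (by omega) (Nat.le_mul_of_pos_right _ (by positivity))
  · rw [sx, sx, show j + 1 - (k + 1) = j - (k + 1) + 1 by omega, pow_succ]
    exact le_of_eq (by ring)

/-- the charges are admissible words -/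
theorem Oks.wC_wg {β : ℕ × ℕ → ℝ} {δ : ℝ} {kd : ℝ → ℕ} (h : G.Oks) (hβ : G.Tus β) {u ξ : R4 → ℝ}
    (hb : Ope.Bmp u ξ) (h1 : ContDiff ℝ 1 u) (h3 : ∀ y, 2⁻¹ ≤ ‖y‖ → u y = 0)
    (h4 : ∀ y, ‖y‖ ≤ 1 → ξ y = 1) (δ0 : 0 < δ) (δ1 : δ ≤ 4⁻¹) (K : G.Kd δ kd) (y : ℝ → ℝ)
    {i : Fin 3} {r : ℕ} (hY : i ≠ 2 → ∀ l, Wd.Rad r (yC i l) ∧ Wd.Re (yC i l) ∧
      nb (Wd.lx (yC i l)) ≠ 0 ∧
        ∀ μ, Wd.act (Wd.rf μ) (yC i l) = yC i l ∨ Wd.act (Wd.rf μ) (yC i l) = -yC i l) :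
    ∃ (i₀ c : ℕ) (C : ℝ), ∀ᶠ M : ℝ in atTop, ∀ᶠ d in 𝓝[>] (0 : ℝ), ∀ᶠ e in atTop, ∀ᶠ p in L6.fast,
      (G.wm p.1).Wg (β p) p.2 (kd d) (3 ^ (G.e p.2 - e)) i₀ c r C (G.sx (kd d))
        (G.wC β u ξ M kd y i d e p) := by
  have o := (h 0).1
  have fl := L6.fast_le
  obtain ⟨C, C0, lc⟩ := h.lc_ph hβ (600 / δ)
  have H := fun l (a : i ≠ 2) => h.lc_let hβ (hY a l).1 (hY a l).2.1 (hY a l).2.2.1 (hY a l).2.2.2
    (600 / δ)
  choose C'' c0 lc' using H
  obtain ⟨C', c1, c2⟩ : ∃ C' : Fin 3 → ℝ, (∀ l, 0 ≤ C' l) ∧ ∀ l a, C'' l a ≤ C' l :=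
    ⟨fun l => if a : i ≠ 2 then C'' l a else 0, fun l => by
      beta_reduce
      split_ifs with a
      exacts [c0 l a, le_rfl], fun l a => (dif_pos a).ge⟩
  obtain ⟨i₀, i0⟩ := exists_nat_ge (60 / δ + 2)
  obtain ⟨R, hR⟩ := prf_jet (α := 0) (γ := 2⁻¹) h1 fun y e =>
    ⟨norm_nonneg _, le_of_not_ge fun a => e (h3 y a)⟩
  choose R' hR' using fun m => prf_jet (pd_shell hb h4 m).1 (pd_shell hb h4 m).2
  have mo : ∀ {G : Gl} {b J k d C C' σ F a}, G.Lc b J k d C σ F a → C ≤ C' → G.Lc b J k d C' σ F a :=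
    fun a e v => ⟨(a v).1, (a v).2.trans e⟩
  have S0 : ∀ l, C' l ≤ ∑ l, C' l := fun l => single_le_sum (fun l _ => c1 l) (mem_univ l)
  have S1 := (c1 0).trans (S0 0)
  refine ⟨i₀, 2 * (i₀ + 1) * (2 * i₀ + 1) ^ 4, C + ∑ l, C' l, ?_⟩
  filter_upwards [hR, eventually_all.2 hR'] with M hu hξ
  filter_upwards [K.lo, K.hi, K.top.eventually lc, self_mem_nhdsWithin, K.top.eventually
    (eventually_all.2 fun l => eventually_all.2 (lc' l)), K.top.eventually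
      ((o.L_nat.eventually_ge_atTop (400 * 3 ^ (2 * (i₀ + 1) * (2 * i₀ + 1) ^ 4))).and
        (o.L_nat.eventually_ge_atTop r))] with d lo hi lc (d0 : 0 < d) lc' ⟨b1, b2⟩
  filter_upwards [eventually_ge_atTop (G.e (kd d))] with e he
  filter_upwards [lc, eventually_all.2 fun l => eventually_all.2 (lc' l),
    ((h.fam hβ).vol.mono_left fl).eventually_ge_atTop ((8 + |R| + ∑ m, |R' m|) * d),
    (tendsto_snd.mono_left fl).eventually_gt_atTop (kd d)] with p lc lc' v hk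
  have q := (h p.1).1
  have od := G.nn_odd p
  have s0 := div_pos (G.aa_pos p) d0
  replace v : 8 + |R| + ∑ m, |R' m| ≤ G.aa p / d * G.nn p := by
    rwa [div_mul_eq_mul_div, le_div_iff₀ d0]
  have v1 : ∀ m, R' m ≤ ∑ m, |R' m| := fun m =>
    (le_abs_self _).trans (single_le_sum (fun m _ => abs_nonneg (R' m)) (mem_univ m))
  have v2 : 0 ≤ ∑ m, |R' m| := by positivity
  have v3 := abs_nonneg R
  obtain ⟨s1, a, W⟩ := q.wg_two (ι := Fin 3) (b := β p) (a := G.aa p) (J := p.2) (r := r) δ0 δ1 d0 hk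
    he (inv_mul_cancel₀ (by positivity)) (by exact le_trans (by linarith) v) lo hi i0 b1
    (add_nonneg C0 S1) (b2.trans ((show G.L (kd d) ≤ G.D0 (kd d) by exact_mod_cast o.LD (kd d)).trans
      (Nat.le_mul_of_pos_left _ four_pos)))
  have pu := hu _ _ od s0 (by linarith) (by linarith [le_abs_self R])
  have pξ := fun m => hξ m _ _ od s0 (by linarith) (by linarith [v1 m])
  have au := a _ _ _ (by norm_num) pu
  have aξ := fun m => a _ _ _ (by norm_num) (pξ m)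
  refine W _ (fun _ => rfl) (fun l => Fin.forall_fin_two.2 ⟨?_, ?_, pu.re_cav _⟩)
    fun l => Fin.forall_fin_two.2 ⟨?_, mo (lc _ r pu.ps pu.bd au.1 au.2) (by linarith)⟩
  · simp only [wC, Matrix.cons_val_zero]
    split_ifs with e
    · exact ⟨(pξ _).in_cav od s0 (.inr (by linarith)) (by linarith) (by linarith), (pξ _).re_cav _⟩
    · exact ⟨(pξ _).in_lW od (by norm_num) (by norm_num) _ _, (pξ _).re_lW (hY e l).2.1 _ _⟩
  · exact pu.in_cav od s0 (.inl le_rfl) (by linarith) (by linarith)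
  · simp only [wC, Matrix.cons_val_zero]
    split_ifs with e
    · exact mo (lc _ r (pξ _).ps (pξ _).bd (aξ _).1 (aξ _).2) (by linarith)
    · exact mo (lc' l e _ (pξ _).ps (fun x => ⟨((pξ _).bd x).1, ((pξ _).bd x).2,
        jet_neg od (pd_odd (fun y => (hb.ev y).2) _) _ x⟩) (aξ _).1 (aξ _).2) (by linarith [S0 l, c2 l e])

end Gl

end Pool.Agent.Lib.MP_7f377f_mp.RG.Q4.En
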