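import Pool.Agent.Lib.MP_7f377f_mp.G.CaKV1c
import Pool.Agent.Lib.MP_7f377f_mp.G.CaKV1g

/-! The charges as words. -/

noncomputable section

set_option linter.unusedSectionVars false
variable [Pool.Agent.Lib.MP_7f377f_mp.GD]

namespace Pool.Agent.Lib.MP_7f377f_mp.RG.Q4.En

open Finset Function Sg Real Pos Mg Filter YM7 Topology
open Wd (Let)
open Pur (mon)
open scoped Classical

theorem rf_pe (σ : Equiv.Perm (Fin 4)) (μ : Fin 4) :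
    Wd.rf μ * Wd.pe σ = Wd.pe σ * Wd.rf (σ⁻¹ μ) := Subtype.ext (Equiv.ext fun ⟨j, b⟩ => by
  change (Wd.rf μ).1 ((Wd.pe σ).1 (j, b)) = (Wd.pe σ).1 ((Wd.rf (σ⁻¹ μ)).1 (j, b))
  simp only [Wd.rf_apply, Wd.pe_apply, Equiv.Perm.eq_inv_iff_eq]
  split_ifs <;> rfl)

theorem YC_ok {i : Fin 3} (hi : i ≠ 2) : Wd.Re (YC i) ∧ nb (Wd.lx (YC i)) ≠ 0 ∧
    ∀ μ, Wd.act (Wd.rf μ) (YC i) = YC i ∨ Wd.act (Wd.rf μ) (YC i) = -YC i := by
  fin_cases i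
  · exact ⟨tm_V3.re, tm_V3.ne, fun μ => .inl (by simp [YC, Wd.rf_V3])⟩
  · refine ⟨tm_V6.re, tm_V6.ne, fun μ => ?_⟩
    simp only [YC, Fin.mk_one, Matrix.cons_val_one, Matrix.cons_val_zero, Wd.rf_V6, Wd.ch, Wd.sg_rf]
    split_ifs <;> simp
  · exact absurd rfl hi

theorem yC_rf {i : Fin 3} (hi : i ≠ 2) (l : Fin 3) (μ : Fin 4) :
    Wd.act (Wd.rf μ) (yC i l) = yC i l ∨ Wd.act (Wd.rf μ) (yC i l) = -yC i l := by
  rw [yC, ← Wd.act_mul, rf_pe, Wd.act_mul]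
  exact ((YC_ok hi).2.2 _).imp (fun e => by rw [e]) fun e => by rw [e, map_neg]

namespace Gl

variable {G : Gl} {β : ℕ × ℕ → ℝ} {u ξ : R4 → ℝ} {M d : ℝ} {kd : ℝ → ℕ} {y : ℝ → ℝ} {i : Fin 3}
  {e r : ℕ} {p : ℕ × ℕ}

theorem Ok.ev_R (h : G.Ok) (r : ℕ) : ∀ᶠ k in atTop, r ≤ (G.p k).R :=
  (h.L_nat.eventually_ge_atTop r).mono fun k a => by
    have : G.L k ≤ G.D0 k := by exact_mod_cast h.LD k
    exact a.trans (this.trans (Nat.le_mul_of_pos_left _ four_pos))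

theorem Oks.xC_bd (h : G.Oks) (hβ : G.Tus β) (hi : i ≠ 2) : ∀ᶠ k in atTop, ∀ p : ℕ × ℕ, k ≤ p.2 →
    ∀ l, 0 < G.xC β k p i l ∧ G.xC β k p i l ≤ 2 * (G.wm p.1).xk (β p) p.2 k (YC i) := by
  obtain ⟨r, hr⟩ := Wd.exists_rad (YC i)
  obtain ⟨a1, a2, -⟩ := YC_ok hi
  have o := (h 0).1
  have : ∀ l, ∀ᶠ k in atTop, ∀ p : ℕ × ℕ, k ≤ p.2 →
      0 < G.xC β k p i l ∧ G.xC β k p i l ≤ 2 * (G.wm p.1).xk (β p) p.2 k (YC i) := fun l => by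
    obtain ⟨C, b1, b2⟩ := xk_act hr a1 a2 (Wd.pe (Equiv.swap 1 l.succ))
    obtain ⟨C', c1, c2⟩ := norm (rad_act hr _) (Wd.rl_act _ a1) b1
    filter_upwards [o.ev_R r, o.Q_top.eventually_ge_atTop C, o.Q_top.eventually_ge_atTop C']
      with k k1 k2 k3 p hp
    exact ⟨lt_of_lt_of_le (by positivity) (c2 _ _ _ _ (h p.1).1 (hβ p) (h p.1).2 k1 k3 hp).1,
      b2 _ _ _ _ (h p.1).1 (hβ p) (h p.1).2 k1 k2 hp⟩
  exact (eventually_all.2 this).mono fun k a p hp l => a l p hp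

theorem zC_ne (hi : i ≠ 2) :
    G.zC β kd y d p i = (G.wm p.1).xk (β p) p.2 (kd d) (YC i) / y d := by
  fin_cases i
  exacts [rfl, rfl, absurd rfl hi]

/-- the weight -/
theorem wC_wt (hx : i ≠ 2 → ∀ l, 0 < G.xC β (kd d) p i l ∧
      G.xC β (kd d) p i l ≤ 2 * (G.wm p.1).xk (β p) p.2 (kd d) (YC i)) (y1 : 1 ≤ y d) (d0 : 0 < d)
    (he : G.e (kd d) ≤ e) (e1 : e ≤ G.e p.2) (sl : ((3 : ℝ) ^ G.e (kd d))⁻¹ ≤ G.Q (kd d) * d) :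
    (∑ x, |(G.wC β u ξ M kd y i d e p).w x|) *
      ((G.rt p.2 (kd d) : ℝ) / (3 ^ (G.e p.2 - e) : ℕ)) ^ 4 ≤
        6 * M ^ 2 * y d * G.Q (kd d) ^ 5 * 3 ^ G.e (kd d) := by
  have e2 : (G.rt p.2 (kd d) : ℝ) / (3 ^ (G.e p.2 - e) : ℕ) = 3 ^ e * (3 ^ G.e (kd d))⁻¹ := by
    rw [rt, show G.e p.2 - G.e (kd d) = G.e p.2 - e + (e - G.e (kd d)) by omega, pow_add,
      Nat.cast_mul, mul_div_cancel_left₀ _ (by positivity), Nat.cast_pow, Nat.cast_ofNat,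
      pow_sub₀ _ three_ne_zero he]
  have a : ∑ l, |(G.zC β kd y d p i)⁻¹ *
      if i = 2 then (if l = 0 then 1 else 0) else G.xC β (kd d) p i l| ≤ 6 * y d := by
    split_ifs with hi
    · subst hi
      simp [zC, Fin.sum_univ_three]
      linarith
    · have := hx hi
      rw [zC_ne hi]
      generalize (G.wm p.1).xk (β p) p.2 (kd d) (YC i) = t at this
      generalize G.xC β (kd d) p i = c at this
      have x0 : 0 < t := by linarith [(this 0).1, (this 0).2]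
      refine (sum_le_card_nsmul _ _ (2 * y d) fun l _ => ?_).trans_eq (by simp; ring)
      rw [abs_of_pos (by have := (this l).1; positivity), inv_div, div_mul_eq_mul_div,
        div_le_iff₀ x0]
      nlinarith [(this l).2]
  simp only [wC, div_eq_mul_inv _ (G.zC β kd y d p i), mul_assoc _ (G.zC β kd y d p i)⁻¹,
    abs_mul (_ * M ^ 2), ← mul_sum, e2]
  rw [abs_of_nonneg (by positivity)]
  have t : (0 : ℝ) < 3 ^ G.e (kd d) := by positivity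
  have b : d⁻¹ ≤ G.Q (kd d) * 3 ^ G.e (kd d) := by
    rw [inv_le_iff_one_le_mul₀ d0]
    rw [inv_le_iff_one_le_mul₀ t] at sl
    linarith
  have b0 := (inv_pos.2 d0).trans_le b
  calc _ ≤ (3 ^ e)⁻¹ ^ 4 * (G.Q (kd d) * 3 ^ G.e (kd d)) ^ 5 * M ^ 2 * (6 * y d) *
        (3 ^ e * (3 ^ G.e (kd d))⁻¹) ^ 4 := by gcongr
    _ = _ := by field_simp

variable {δ : ℝ} (h : G.Oks) (hβ : G.Tus β)
include h hβ

theorem Oks.chg_words {u ξ : R4 → ℝ} (hb : Ope.Bmp u ξ) (h1 : ContDiff ℝ (⊤ : ℕ∞) u)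
    (h2 : ∀ x y, ‖x‖ = ‖y‖ → u x = u y ∧ ξ x = ξ y) (h3 : ∀ y, 2⁻¹ ≤ ‖y‖ → u y = 0)
    (h4 : ∀ y, ‖y‖ ≤ 1 → ξ y = 1) (δ0 : 0 < δ) (δ1 : δ ≤ 4⁻¹) (K : G.Kd δ kd) {y : ℝ → ℝ}
    (hy : Ls y) (i : Fin 3) (r0 : ℕ) : ∃ r ≥ r0, ∃ (i₀ c : ℕ) (C W : ℝ)
    (B : ℝ → ℕ → ℕ × ℕ → Wo (Fin 3) (Fin 2)),
    (∀ᶠ d in 𝓝[>] (0 : ℝ), ∀ᶠ e in atTop, ∀ᶠ p in L6.fast, G.Wh β p (kd d) (3 ^ (G.e p.2 - e))
      i₀ c r C (W * y d * G.Q (kd d) ^ 5) (B d e p)) ∧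
    ∀ f : R4 → ℝ, HasCompactSupport f → ∀ᶠ d in 𝓝[>] (0 : ℝ), ∀ᶠ e in atTop, ∀ᶠ p in L6.fast, ∀ Z,
      Ope.Cp (G.vE β) (G.vL β ((4⁻¹ : ℂ) • Wd.V3)) (G.vL β Wd.V6) u ξ d e p f Z i /
        (![G.zt β ((4⁻¹ : ℂ) • Wd.V3) kd y d p, G.zt β Wd.V6 kd y d p, 1] i : ℝ) =
      G.vI β p ((B d e p).gs (G.nn p) (3 ^ (G.e p.2 - e)) (jet (G.nn p) (G.aa p) f none)) Z := by
  obtain ⟨r1, hr⟩ := Wd.exists_rad (YC i)
  have xb : ∀ᶠ k in atTop, ∀ p : ℕ × ℕ, k ≤ p.2 → i ≠ 2 → ∀ l, 0 < G.xC β k p i l ∧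
      G.xC β k p i l ≤ 2 * (G.wm p.1).xk (β p) p.2 k (YC i) := by
    by_cases a : i = 2
    · exact .of_forall fun _ _ _ b => absurd a b
    · exact (h.xC_bd hβ a).mono fun _ b p c _ => b p c
  obtain ⟨i₀, c, C, hW⟩ := h.wC_wg hβ hb (h1.of_le (by norm_cast)) h3 h4 δ0 δ1 K y
    (i := i) (r := max r0 r1) fun a l =>
      have b := YC_ok a
      have c := hr.mono (le_max_right r0 r1)
      ⟨rad_act c _, Wd.rl_act _ b.1, (xk_act c b.1 b.2.1 _).elim fun _ e => e.1, yC_rf a l⟩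
  obtain ⟨M, hM, M0⟩ := (hW.and (eventually_gt_atTop 0)).exists
  have fl := L6.fast_le
  have t2 : ∀ e, ∀ᶠ p in L6.fast, e ≤ G.e p.2 := fun e =>
    (((h 0).1.sch.mono.tendsto_atTop.comp tendsto_snd).mono_left fl).eventually_ge_atTop e
  have t3 : ∀ k, ∀ᶠ p in L6.fast, k ≤ p.2 := (tendsto_snd.mono_left fl).eventually_ge_atTop
  refine ⟨_, le_max_left r0 r1, i₀, c, C, 6 * M ^ 2, G.wC β u ξ M kd y i, ?_, fun f hf => ?_⟩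
  · filter_upwards [hM, K.top.eventually xb, self_mem_nhdsWithin, (h.slow δ0 K 0).2]
      with d a xb (d0 : 0 < d) sl
    filter_upwards [a, eventually_ge_atTop (G.e (kd d))] with e a he
    filter_upwards [a, t2 e, t3 (kd d)] with p a e1 hk
    have cv := wC_cov (G := G) (β := β) (M := M) (y := y) (e := e) hb h2
      fun b l => (xb p hk b l).1.ne'
    have := hy.2 d
    have q : 0 < G.Q (kd d) := (h 0).1.Q0 _
    exact ⟨a, by positivity, wC_wt (xb p hk) this d0 he e1 sl, cv.1, cv.2⟩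
  · filter_upwards [K.top.eventually xb, self_mem_nhdsWithin] with d xb (d0 : 0 < d)
    refine .of_forall fun e => ?_
    filter_upwards [h.wC_id hβ (kd := kd) (y := y) (i := i) hb M0.ne' d0 hf e, t3 (kd d)]
      with p a hk using a fun b l => (xb p hk b l).1.ne'

end Gl

end Pool.Agent.Lib.MP_7f377f_mp.RG.Q4.En
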