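import Pool.Agent.Lib.MP_7f377f_mp.G.TyD

/-! Smeared words: the algebra of the smearing over a grid. -/

noncomputable section

set_option linter.unusedSectionVars false
variable [Pool.Agent.Lib.MP_7f377f_mp.GD]

namespace Pool.Agent.Lib.MP_7f377f_mp.Ob

open MeasureTheory Weak Finset YM7 Pur MvPolynomial
open Ope (gp sc)
open RG.Q4.En.Ty (Gn sb)

variable {n n' s lam e : ℕ} [NeZero n] [NeZero n'] [MeasurableSpace SU2] [BorelSpace SU2]
  {h : Measure SU2} [h.IsHaarMeasure] [IsProbabilityMeasure h] {a b μ ν χ R R' : ℝ}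
  {A A' : Pol} {f : R4 → ℝ} {O : Set R4}

theorem smp_eq {t : Finset (Fin 4 → ℤ)} (ht : ∀ x, f (gp e x) ≠ 0 → x ∈ t) (A : Pol) :
    smp e A f = ∑ x ∈ t, (f (gp e x) : ℂ) • net.τ (gp e x) A :=
  finsum_eq_sum_of_support_subset _ fun x hx => ht x fun u => hx (by simp [u])

theorem gp_plus (e : ℕ) (x z : Fin 4 → ℤ) : gp e (x + z) = gp e x + gp e z := by
  ext l
  simp [gp, mul_add]

section
variable (hf : ∀ y, f y ≠ 0 → ∀ l, |y l| ≤ R)
include hf

theorem smp_fin (e : ℕ) : ∃ t : Finset (Fin 4 → ℤ), ∀ x, f (gp e x) ≠ 0 → x ∈ t := by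
  refine ⟨Fintype.piFinset fun _ => Icc (-⌈3 ^ e * R⌉) ⌈3 ^ e * R⌉, fun x hx =>
    Fintype.mem_piFinset.2 fun l => mem_Icc.2 (abs_le.1 ?_)⟩
  have h1 : |((3 : ℝ) ^ e)⁻¹ * x l| ≤ R := hf _ hx l
  rw [abs_mul, abs_of_pos (by positivity), inv_mul_le_iff₀ (by positivity)] at h1
  exact_mod_cast h1.trans (Int.le_ceil _)

theorem smp_add : smp e (A + A') f = smp e A f + smp e A' f := by
  obtain ⟨t, ht⟩ := smp_fin hf e
  simp only [smp_eq ht, map_add, smul_add, sum_add_distrib]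

theorem smp_rc (hA : Rc A) : Rc (smp e A f) := by
  obtain ⟨t, ht⟩ := smp_fin hf e
  rw [smp_eq ht]
  exact Rc.sum fun x _ => (hA.tau _).smul _

theorem smp_mem (hA : A ∈ net.loc (Bx R'))
    (hO : ∀ y z : R4, f y ≠ 0 → (∀ l, |z l - y l| ≤ R') → z ∈ O) : smp e A f ∈ net.loc O := by
  obtain ⟨t, ht⟩ := smp_fin hf e
  rw [smp_eq ht]
  refine Submodule.sum_mem _ fun x _ => ?_
  by_cases u : f (gp e x) = 0
  · simp [u]
  · exact Submodule.smul_mem _ _ (net.mono (net.τ_mem _ hA) fun z hz =>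
      hO _ z u fun l => (hz l).le)

/-- the smeared polynomial on the lattice -/
theorem evr_smp (hA : A ∈ net.loc (Bx R')) (hn : n = n' * s) (ha : 0 < a) (R0 : 0 ≤ R')
    (hs : a * s = (3 ^ e)⁻¹) (hR : 2 * (R + R' + 2 * a) < a * n) (U : Cfg n) :
    evr h b n a (smp e A f) U = smr n' s (evr h b n a A) (fun x => f (xp a x)) U := by
  have s0 : 0 < s := Nat.pos_of_ne_zero fun u => by
    rw [u, Nat.cast_zero, mul_zero] at hs
    exact absurd hs (by positivity : (0 : ℝ) < (3 ^ e)⁻¹).ne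
  let v : Site 4 n' → Fin 4 → ℤ := fun y l => (y l).valMinAbs
  have e1 : ∀ x : Fin 4 → ℤ, gp e x = WithLp.toLp 2 fun l => a * ((s * x l : ℤ) : ℝ) := fun x => by
    simp only [gp, ← hs, Int.cast_mul, Int.cast_natCast, mul_assoc]
  have e2 : ∀ y, (corner s y : Site 4 n) = fun l => ((s * v y l : ℤ) : ZMod n) := fun y =>
    funext fun l => corner_int hn _ _ (ZMod.coe_valMinAbs _).symm
  have e3 : ∀ y, xp a (corner s y : Site 4 n) = gp e (v y) := fun y => by
    rw [e1, e2, xp]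
    refine congrArg _ (funext fun l => ?_)
    obtain ⟨h1, h2⟩ := ZMod.valMinAbs_mem_Ioc (y l)
    have s1 : (0 : ℤ) < s := by exact_mod_cast s0
    rw [vma_cast (by rw [hn]; push_cast; nlinarith) (by rw [hn]; push_cast; nlinarith)]
  have hv : Function.Injective v := fun y z u => funext fun l =>
    ZMod.valMinAbs_inj.1 (congrFun u l)
  have ht : ∀ x, f (gp e x) ≠ 0 → x ∈ univ.image v := fun x hx => by
    refine mem_image.2 ⟨fun l => (x l : ZMod n'), mem_univ _, funext fun l => ?_⟩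
    have h1 := hf _ hx l
    rw [e1] at h1
    change |a * ((s * x l : ℤ) : ℝ)| ≤ R at h1
    have s1 : (0 : ℝ) < a * s := by positivity
    rw [Int.cast_mul, Int.cast_natCast, ← mul_assoc, abs_mul, abs_of_pos s1] at h1
    have h2 : (|(x l : ℝ)| * 2 : ℝ) < n' := by
      refine lt_of_mul_lt_mul_left ?_ s1.le
      rw [hn, Nat.cast_mul] at hR
      nlinarith
    have h3 : |x l| * 2 < n' := by exact_mod_cast h2
    exact vma_cast (by linarith [neg_abs_le (x l)]) (by linarith [le_abs_self (x l)])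
  rw [smp_eq ht, sum_image fun _ _ _ _ u => hv u, evr, map_sum, Finset.sum_apply, Complex.re_sum,
    smr]
  refine sum_congr rfl fun y _ => ?_
  rw [e3, map_smul, Pi.smul_apply, smul_eq_mul, Complex.re_ofReal_mul]
  by_cases u : f (gp e (v y)) = 0
  · rw [u, zero_mul, zero_mul]
  · have h1 := hf _ u
    rw [e1] at h1
    rw [evr, e2, ← evc_shift (V := R) hA ha h1 (by linarith), ← e1]

theorem tau_smp (z : Fin 4 → ℤ) :
    net.τ (gp e z) (smp e A f) = smp e A fun y => f (y - gp e z) := by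
  obtain ⟨t, ht⟩ := smp_fin hf e
  rw [smp_eq ht, smp_eq (f := fun y => f (y - gp e z)) (t := t.image (z + ·)) fun x hx =>
    mem_image.2 ⟨x - z, ht _ (by rwa [← add_sub_cancel z x, gp_plus, add_sub_cancel_left] at hx),
      add_sub_cancel z x⟩, sum_image fun _ _ _ _ u => add_left_cancel u, map_sum]
  refine sum_congr rfl fun x _ => ?_
  rw [map_smul, net.τ_τ, gp_plus, add_sub_cancel_left]

end

theorem smp_smul (c : ℂ) : smp e (c • A) f = c • smp e A f := by
  rw [smp, smp, smul_finsum]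
  exact finsum_congr fun x => by rw [map_smul, smul_comm]

theorem smp_mul (c : ℝ) : smp e A (fun y => c * f y) = (c : ℂ) • smp e A f := by
  rw [smp, smp, smul_finsum]
  exact finsum_congr fun x => by rw [Complex.ofReal_mul, mul_smul]

theorem yl_smp (A : Pol) (d : ℝ) :
    Cm.Yl A d e f = smp e ((((3 ^ e)⁻¹ / d) ^ 4 : ℝ) • Cm.sh d 0 A) f := by
  rw [← Complex.coe_smul, smp_smul, ← smp_mul]
  refine finsum_congr fun x => congrArg _ ?_
  change _ = rename _ (rename _ A)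
  simp only [Cm.sh, rename_rename, Function.comp_def, sub_zero]

variable {m : ℕ} {Λ Λ' δ δ' d d' W W' : ℝ}

theorem Wb.mem (H : Wb m Λ δ d W A) (d0 : 0 < d) : A ∈ net.loc (Bx (2 * Λ * d)) ∧ Rc A := by
  obtain ⟨α, _, c, u, -, h2, rfl⟩ := H
  refine ⟨Submodule.sum_mem _ fun x _ => Submodule.smul_mem _ _ (Submodule.subset_span
    ⟨m, _, (h2 x).1.smul (inv_ne_zero d0.ne'), fun i y hy l => ?_, rfl⟩),
    Rc.sum fun x _ => (Rc.prod fun i _ => Rc.X _).smul _⟩
  have h3 : |y l| ≤ Λ * d := closure_minimal (t := {y : R4 | |y l| ≤ Λ * d}) (fun z hz => by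
    have := (h2 x).2.cube i _ hz l
    rwa [PiLp.smul_apply, smul_eq_mul, abs_mul, abs_of_pos (inv_pos.2 d0), inv_mul_le_iff₀' d0]
      at this) (isClosed_le (by fun_prop) continuous_const) hy
  nlinarith [(h2 x).2.one]

theorem Wb.mono (H : Wb m Λ δ d W A) (h1 : Λ ≤ Λ') (h2 : δ' ≤ δ) (h3 : 0 < δ') (h4 : W ≤ W') :
    Wb m Λ' δ' d W' A := by
  obtain ⟨α, i, c, u, a1, a2, a3⟩ := H
  exact ⟨α, i, c, u, a1.trans h4, fun x => ⟨(a2 x).1, (a2 x).2.one.trans h1, h3,
    fun i y hy l => ((a2 x).2.cube i y hy l).trans h1, fun i y => ((a2 x).2.bd i y).trans h1,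
    fun i y z => ((a2 x).2.lip i y z).trans (mul_le_mul_of_nonneg_right h1 dist_nonneg),
    fun i j v y z hy hz => ((a2 x).2.sep i j v y z hy hz).imp fun _ => h2.trans⟩, a3⟩

theorem Wb.add (H : Wb m Λ δ d W A) (H' : Wb m Λ δ d W' A') : Wb m Λ δ d (W + W') (A + A') := by
  obtain ⟨α, _, c, u, a1, a2, rfl⟩ := H
  obtain ⟨α', _, c', u', b1, b2, rfl⟩ := H'
  exact ⟨α ⊕ α', inferInstance, Sum.elim c c', Sum.elim u u',
    by rw [Fintype.sum_sum_type]; exact add_le_add a1 b1, fun x => x.rec a2 b2,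
    by rw [Fintype.sum_sum_type]; rfl⟩

theorem Wb.smul (H : Wb m Λ δ d W A) (c : ℝ) : Wb m Λ δ d (|c| * W) ((c : ℂ) • A) := by
  obtain ⟨α, i, c', u, a1, a2, rfl⟩ := H
  refine ⟨α, i, fun x => c * c' x, u, ?_, a2, ?_⟩
  · simp only [abs_mul, ← mul_sum]
    exact mul_le_mul_of_nonneg_left a1 (abs_nonneg _)
  · simp only [smul_sum, Complex.ofReal_mul, mul_smul]

/-- dilations by comparable factors -/
theorem Wb.sh (H : Wb m Λ δ 1 W A) (d0 : 0 < d) (hd : d' ∈ Set.Icc (d / 2) d) :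
    Wb m (2 * Λ) (δ / 2) d W (Cm.sh d' 0 A) := by
  obtain ⟨α, i, c, u, a1, a2, rfl⟩ := H
  have d1 : 0 < d' := (half_pos d0).trans_le hd.1
  have t1 : 1 ≤ d / d' := (one_le_div d1).2 hd.2
  have t2 : d / d' ≤ 2 := (div_le_iff₀ d1).2 (by linarith [hd.1])
  have t0 : 0 < d / d' := by positivity
  refine ⟨α, i, c, fun x i y => u x i ((d / d') • y), a1, fun x => ?_, ?_⟩
  · have T := (a2 x).2
    have L := T.one
    refine ⟨(a2 x).1.smul t0.ne', by linarith, half_pos T.pos, fun i y hy l => ?_,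
      fun i y => (T.bd i _).trans (by linarith), fun i y z => (T.lip i _ _).trans ?_,
      fun i j v y z hy hz => (T.sep i j v _ _ hy hz).imp fun l hl => ?_⟩
    · have := T.cube i _ hy l
      rw [PiLp.smul_apply, smul_eq_mul, abs_mul, abs_of_pos t0] at this
      nlinarith [abs_nonneg (y l)]
    · rw [dist_smul₀, Real.norm_eq_abs, abs_of_pos t0]
      nlinarith [mul_le_mul_of_nonneg_right t2 (dist_nonneg (x := y) (y := z))]
    · rw [PiLp.smul_apply, PiLp.smul_apply, smul_eq_mul, smul_eq_mul, ← mul_sub, abs_mul,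
        abs_of_pos t0] at hl
      nlinarith [abs_nonneg (y l - z l)]
  · simp only [map_sum, map_smul, Cm.sh, rename_mon]
    refine sum_congr rfl fun x _ => congrArg _ (congrArg _ (funext fun i => funext fun y => ?_))
    simp only [sc, inv_one, one_smul, sub_zero, smul_smul]
    rw [one_mul, div_mul_eq_mul_div, mul_inv_cancel₀ d0.ne', one_div]

theorem gi_perm (g : Gn) : ∃ π : Equiv.Perm (Fin 4), ∀ (y : R4) l, |(Cm.gi g).symm y l| = |y (π l)| := by
  cases g with
  | inl σ =>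
    refine ⟨σ, fun y l => ?_⟩
    have := Ro.prm_apply σ ((Ro.prm σ).symm y) (σ l)
    rw [LinearIsometryEquiv.apply_symm_apply, Equiv.symm_apply_apply] at this
    rw [this]; rfl
  | inr μ =>
    refine ⟨1, fun y l => ?_⟩
    have := abs_rf μ l ((rfL μ).symm y)
    rw [← rfL_eq, LinearIsometryEquiv.apply_symm_apply] at this
    exact this.symm

theorem Wb.act (H : Wb m Λ δ d W A) (g : Gn) : Wb m Λ δ d W (Ro.act (Cm.gi g) A) := by
  obtain ⟨α, i, c, u, a1, a2, rfl⟩ := H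
  obtain ⟨π, hπ⟩ := gi_perm g
  refine ⟨α, i, c, fun x i y => u x i ((Cm.gi g).symm y), a1, fun x => ?_, ?_⟩
  · have T := (a2 x).2
    refine ⟨(a2 x).1.comp (Cm.gi g).symm.toHomeomorph (Cm.gi g).symm.contDiff, T.one, T.pos,
      fun i y hy l => ?_, fun i y => T.bd i _, fun i y z => (T.lip i _ _).trans_eq ?_,
      fun i j v y z hy hz => ?_⟩
    · have := T.cube i _ hy (π.symm l)
      rwa [hπ, Equiv.apply_symm_apply] at this
    · rw [LinearIsometryEquiv.dist_map]
    · obtain ⟨l, hl⟩ := T.sep i j v _ _ hy hz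
      rw [← PiLp.sub_apply, ← map_sub, hπ] at hl
      exact ⟨_, hl⟩
  · simp only [map_sum, map_smul, Ro.act, rename_mon]
    refine sum_congr rfl fun x _ => congrArg _ (congrArg _ (funext fun i => funext fun y => ?_))
    simp only [sc, map_smul]

theorem typ_sh {T : RG.Q4.En.Ty.Ty} (H : Cm.Typ T A) (d : ℝ) : Cm.Typ T (Cm.sh d 0 A) := by
  intro g hg
  rw [← map_smul, ← H g hg]
  simp only [Cm.sh, Ro.act, rename_rename, Function.comp_def, sub_zero, map_smul]

end Pool.Agent.Lib.MP_7f377f_mp.Ob
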