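import Pool.Agent.Lib.MP_7f377f_mp.G.CaKV1a
import Pool.Agent.Lib.MP_7f377f_mp.G.CaH3
import Pool.Agent.Lib.MP_7f377f_mp.G.TyS2

/-! The charges as sums over a grid. -/

noncomputable section

set_option linter.unusedSectionVars false
variable [Pool.Agent.Lib.MP_7f377f_mp.GD]

namespace Pool.Agent.Lib.MP_7f377f_mp.RG.Q4.En

open Finset Function Sg Real Pos Mg Filter YM7 Topology
open Wd (Let sm phS nI)
open Ope (gp bx)
open Equiv (swap)
open MvPolynomial (X)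
open scoped Classical

/-- the letters of the three vector fields -/
def cY (V V' : Let) (i l : Fin 3) : Let := ![Wd.act (Wd.pe (swap 1 l.succ)) V,
  Wd.act (Wd.pe (swap 1 l.succ)) V', if l = 0 then phS else 0] i

/-- their directions -/
def cD (i l : Fin 3) : Fin 4 := if i = 1 then l.succ else 0

/-- the three vector fields -/
def cO (n : ℕ) (a : ℝ) (V V' : Let) (φ : R4 → ℝ) (i : Fin 3) (U : Conf) : ℂ :=
  ∑ l, sm n (cY V V' i l) (jet n a (Fx.pd (cD i l) φ) none) U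

theorem cO_bc (n : ℕ) (a : ℝ) (V V' : Let) (φ : R4 → ℝ) (i : Fin 3) : BC (cO n a V V' φ i) :=
  bc_cont (continuous_finsetSum _ fun _ _ => Wd.sm_cont ..)

theorem sm_mv {n : ℕ} (hn : Odd n) {U : Conf} (hU : Per n U) {F : St → ℂ} (hF : PS n F) (Y : Let)
    (v : St) : sm n Y (fun x => F (x - v)) U = sm n Y F (sh v U) := by
  simpa using (sm_sh hn hU (h := fun x => F (x - v))
    (fun x u => (congrArg F (add_sub_right_comm ..)).trans (hF _ u)) Y v).symm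

theorem jet_grid {n n' s e : ℕ} [NeZero n] {a : ℝ} (hn : n = n' * s) (hs : a * s = (3 ^ e)⁻¹)
    {z : St} (hz : z ∈ box (n' / 2)) (o : Odd n') (f : R4 → ℝ) :
    jet n a f none ((s : ℤ) • z) = f (gp e z) := by
  refine congrArg (fun y => ((f y : ℝ) : ℂ)) (congrArg (WithLp.toLp 2) (funext fun l => ?_))
  have s0 : (0 : ℤ) < s := by
    exact_mod_cast Nat.pos_of_mul_pos_left (hn ▸ Nat.pos_of_neZero n : 0 < n' * s)
  have := mem_box.1 hz l
  have := Nat.odd_iff.1 o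
  have a1 : -(n' : ℤ) < z l * 2 := by omega
  have a2 : z l * 2 ≤ n' := by omega
  rw [Fi.cst, Weak.vma_cast (by rw [hn]; push_cast; simp; nlinarith)
    (by rw [hn]; push_cast; simp; nlinarith), ← hs]
  simp [mul_assoc]

theorem jet_odd {n : ℕ} (hn : Odd n) (a : ℝ) {φ : R4 → ℝ} (hφ : ∀ y, φ (-y) = φ y) (m : Fin 4)
    (x : St) : jet n a (Fx.pd m φ) none (-x) = -jet n a (Fx.pd m φ) none x := by
  have := pd_gR nI φ (xp a (Fi.cst n x)) m
  rw [show (fun y => φ (Wd.gR nI y)) = φ from funext hφ, ← xp_gv hn] at this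
  simp only [jet, Option.elim, this]
  exact (neg_neg _).symm.trans (congrArg _ (Complex.ofReal_neg _).symm)

theorem nI_cY {V V' : Let} (hV : Wd.act nI V = V) (hV' : Wd.act nI V' = V') (i l : Fin 3) :
    Wd.act nI (cY V V' i l) = cY V V' i l := by
  have e : ∀ g Y, Wd.act nI Y = Y → Wd.act nI (Wd.act g Y) = Wd.act g Y := fun g Y e => by
    rw [← Wd.act_mul, ← Wd.nI_comm, Wd.act_mul, e]
  fin_cases i
  exacts [e _ _ hV, e _ _ hV', by
    simp only [cY]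
    split_ifs
    exacts [Wd.act_phS _, map_zero _]]

theorem nI_V3 (c : ℂ) : Wd.act nI (c • Wd.V3) = c • Wd.V3 := by
  simp only [map_smul, Wd.nI_eq, Wd.act_mul, Wd.rf_V3]

theorem nI_V6 : Wd.act nI Wd.V6 = Wd.V6 := by
  simpa only [Wd.ch_nI, one_smul] using Wd.V6_inv _ (Wd.nI_mem 1)

namespace Gl

variable {ι κ : Type} [Fintype ι] [DecidableEq ι] [Fintype κ] [DecidableEq κ] [Inhabited κ]
  {G : Gl} {β : ℕ × ℕ → ℝ} {p : ℕ × ℕ} {V V' Y : Let} {u ξ f φ : R4 → ℝ} {d : ℝ}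

/-- even letters smeared with odd functions have mean zero -/
theorem vM_odd (hY : Wd.act nI Y = Y) {F : St → ℂ} (hF : ∀ x, F (-x) = -F x) :
    G.vM β p (sm (G.nn p) Y F) = 0 := by
  have := vM_act (G := G) (β := β) (p := p) (bc_cont (Wd.sm_cont (G.nn p) Y ((-1 : ℂ) • F))) nI
  have e : ∀ U, sm (G.nn p) Y ((-1 : ℂ) • F) (Wd.pb Inv.inv nI U) = sm (G.nn p) Y F U := fun U => by
    conv_rhs => rw [← hY, Wd.sm_act]
    exact congrArg (sm _ _ · _) (funext fun x => by simp [Wd.gv_nI, hF])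
  simp only [e] at this
  rw [funext (Wd.sm_smul' _), vM_smul] at this
  linear_combination this / 2

theorem vM_cY (hV : Wd.act nI V = V) (hV' : Wd.act nI V' = V') (hφ : ∀ y, φ (-y) = φ y)
    (i l : Fin 3) (m : Fin 4) :
    G.vM β p (sm (G.nn p) (cY V V' i l) (jet (G.nn p) (G.aa p) (Fx.pd m φ) none)) = 0 :=
  vM_odd (nI_cY hV hV' i l) (jet_odd (G.nn_odd p) _ hφ m)

theorem vM_cO (hV : Wd.act nI V = V) (hV' : Wd.act nI V' = V') (hφ : ∀ y, φ (-y) = φ y)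
    (i : Fin 3) : G.vM β p (cO (G.nn p) (G.aa p) V V' φ i) = 0 :=
  (vM_sum fun _ _ => bc_cont (Wd.sm_cont ..)).trans (sum_eq_zero fun _ _ => vM_cY hV hV' hφ ..)

theorem mS_eq {F : St → ℂ} (hF : ∀ x, (F x).im = 0) :
    (G.mS β p F : ℂ) = G.vM β p (sm (G.nn p) phS F) := by
  refine Complex.ext rfl ?_
  rw [vM, Complex.ofReal_im, ← RCLike.im_to_complex,
    ← integral_im (bc_lf (bc_cont (Wd.sm_cont ..)))]
  simp [Wd.sm_phS (G.nn_odd p) (per_lf _), sO, Wd.cav, hF, -Complex.ofReal_pow]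

/-- the field as a letter -/
theorem xO_ph (t : ℝ) (φ : R4 → ℝ) {F : St → ℂ} (hF : F = (t : ℂ) • jet (G.nn p) (G.aa p) φ none)
    {U : Conf} (hU : Per (G.nn p) U) : -xO (G.nn p) (Wd.cav (G.nn p) F, 0, 0) U -
      (-G.mS β p F : ℝ) = -(t * G.vP β p (X φ) U) := by
  rw [xO_pl, ← Wd.sm_phS (G.nn_odd p) hU, Complex.ofReal_neg, mS_eq fun x => by simp [hF, jet_im],
    vP_X _ _ _ _ hU, hF, funext (Wd.sm_smul' _), vM_smul]
  ring

variable (h : G.Oks) (hβ : G.Tus β)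
include h hβ

theorem Oks.jp_eq (φ : R4 → ℝ) (W : Pur.Pol) (i : Fin 3) :
    Ope.Jp (G.vE β) (G.vL β V) (G.vL β V') p φ W i = G.vI β p (cO (G.nn p) (G.aa p) V V' φ i) W := by
  unfold cO
  rw [vI_sum fun _ _ => bc_cont (Wd.sm_cont ..), LinearMap.sum_apply]
  fin_cases i
  · simp only [Ope.Jp, ← h.sw_L hβ]
    rfl
  · simp only [Ope.Jp, ← h.sw_L hβ]
    rfl
  · simp [Ope.Jp, cY, cD, Fin.sum_univ_three, funext Wd.sm_zero, vI_const, vI_phS]

omit hβ in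
theorem Oks.sm_tau (e : ℕ) (x : St) (hf : HasCompactSupport φ) : ∀ᶠ p in atTop ×ˢ atTop,
    ∀ Y U, Per (G.nn p) U → sm (G.nn p) Y (jet (G.nn p) (G.aa p) (fun y => φ (y - gp e x)) none) U =
      sm (G.nn p) Y (jet (G.nn p) (G.aa p) φ none) (sh (((3 ^ (G.e p.2 - e) : ℕ) : ℤ) • x) U) :=
  (h.jet_tau e x hf).mono fun p a Y U hU => by
    rw [a, ← sm_mv (G.nn_odd p) hU (jet_ps _ _ _ _), Nat.cast_pow]
    rfl

/-- the charges as sums over a grid -/
theorem Oks.cp_eq (hu : HasCompactSupport u) (hξ : HasCompactSupport ξ) (hf : HasCompactSupport f)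
    (d0 : 0 < d) (e : ℕ) : ∀ᶠ p in atTop ×ˢ atTop, ∀ i (c : ℂ) (B : Wo ι κ),
    (∀ U, Per (G.nn p) U → B.ob (G.nn p) U = c * (3 ^ e)⁻¹ ^ 4 *
      ((cO (G.nn p) (G.aa p) V V' (bx ξ d 0) i U - G.vM β p (cO (G.nn p) (G.aa p) V V' (bx ξ d 0) i)) *
        G.vP β p (X (St.sc u d 0)) U)) → ∀ Z,
    c * Ope.Cp (G.vE β) (G.vL β V) (G.vL β V') u ξ d e p f Z i =
      G.vI β p (B.gs (G.nn p) (3 ^ (G.e p.2 - e)) (jet (G.nn p) (G.aa p) f none)) Z := by
  obtain ⟨R, hR⟩ := hf.isCompact.isBounded.subset_ball 0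
  obtain ⟨t, ht⟩ := Ob.smp_fin (f := f) (R := R) (fun y a l => (PiLp.norm_apply_le y l).trans
    (mem_ball_zero_iff.1 (hR (subset_tsupport _ a))).le) e
  have c1 : ∀ g : R4 → ℝ, HasCompactSupport g → HasCompactSupport fun y : R4 => g (d⁻¹ • y) :=
    fun g a => a.comp_homeomorph (Homeomorph.smulOfNeZero d⁻¹ (inv_pos.2 d0).ne')
  have c2 : HasCompactSupport (St.sc u d 0) := by
    unfold St.sc
    simp only [sub_zero]
    exact (c1 u hu).mul_left (f := fun _ => d⁻¹ ^ 4)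
  have c3 : HasCompactSupport (bx ξ d 0) := by
    unfold bx
    simpa only [sub_zero] using c1 ξ hξ
  filter_upwards [(eventually_all_finset t).2 fun x _ => (h.sm_tau e x c2).and (eventually_all.2
    fun m => h.sm_tau e x (St.pd_cpt (μ := m) c3)), h.big e 0,
    tendsto_fst.eventually_ge_atTop (t.sup fun x => univ.sup fun l => (x l).natAbs)]
    with p H ⟨e1, _⟩ p1 i c B hB Z
  have hn : G.nn p = (2 * p.1 + 1) * 3 ^ e * 3 ^ (G.e p.2 - e) := by
    rw [mul_assoc, ← pow_add, Nat.add_sub_cancel' e1]; rfl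
  have o : Odd ((2 * p.1 + 1) * 3 ^ e) := Nat.Odd.of_mul_left (hn ▸ G.nn_odd p)
  have hs : G.aa p * (3 ^ (G.e p.2 - e) : ℕ) = (3 ^ e)⁻¹ := by
    rw [aa, Nat.cast_pow, Nat.cast_ofNat, pow_sub₀ _ three_ne_zero e1]
    field_simp
  have tb : t ⊆ box ((2 * p.1 + 1) * 3 ^ e / 2) := fun x hx => mem_box.2 fun l => by
    have := (le_sup (f := fun l => (x l).natAbs) (mem_univ l)).trans
      ((le_sup (f := fun x : St => univ.sup fun l => (x l).natAbs) hx).trans p1)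
    have := Nat.le_mul_of_pos_right (2 * p.1 + 1) (Nat.one_le_pow e 3 three_pos)
    omega
  have k : ∀ x ∈ t, ∀ U, Per (G.nn p) U → B.ob (G.nn p) (sh (((3 ^ (G.e p.2 - e) : ℕ) : ℤ) • x) U) =
      c * (3 ^ e)⁻¹ ^ 4 * ((cO (G.nn p) (G.aa p) V V' (bx ξ d (gp e x)) i U -
        G.vM β p (cO (G.nn p) (G.aa p) V V' (bx ξ d (gp e x)) i)) *
          G.vP β p (X (St.sc u d (gp e x))) U) := fun x hx U hU => by
    have a1 : ∀ U, Per (G.nn p) U → cO (G.nn p) (G.aa p) V V' (bx ξ d (gp e x)) i U =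
        cO (G.nn p) (G.aa p) V V' (bx ξ d 0) i (sh (((3 ^ (G.e p.2 - e) : ℕ) : ℤ) • x) U) :=
      fun U hU => sum_congr rfl fun l _ => by
        rw [← (H x hx).2 _ _ U hU, ← St.pd_sub]
        simp only [bx, sub_zero]
        rfl
    have a2 : St.sc u d (gp e x) = fun y => St.sc u d 0 (y - gp e x) := by
      funext y
      simp only [St.sc, sub_zero]
    rw [hB _ (per_sh' hU _), a1 U hU, vM_congr a1, vM_sh (cO_bc ..), vP_X _ _ _ _ hU,
      vP_X _ _ _ _ (per_sh' hU _), a2, (H x hx).1 _ U hU, vM_congr ((H x hx).1 _),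
      vM_sh (bc_cont (Wd.sm_cont ..))]
  have b1 := fun x => (cO_bc (G.nn p) (G.aa p) V V' (bx ξ d (gp e x)) i)
  have b2 := fun x => bc_add (b1 x) (bc_cont (continuous_const
    (y := -G.vM β p (cO (G.nn p) (G.aa p) V V' (bx ξ d (gp e x)) i))))
  simp only [← sub_eq_add_neg] at b2
  rw [vI_congr (O' := fun U => ∑ x ∈ t, f (gp e x) * (c * (3 ^ e)⁻¹ ^ 4) * _) fun U hU => by
    rw [Wo.gs, show G.nn p / 3 ^ (G.e p.2 - e) = _ from Nat.div_eq_of_eq_mul_left (by positivity) hn,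
      ← sum_subset tb fun x hx a => by
        rw [jet_grid hn hs hx o, of_not_not fun b => a (ht x b), Complex.ofReal_zero, zero_mul]]
    exact sum_congr rfl fun x hx => by rw [jet_grid hn hs (tb hx) o, k x hx U hU, ← mul_assoc],
    vI_sum fun x _ => (bc_mul (b2 x) (G.vP_bc ..)).cm _, Ope.Cp,
    finsum_eq_sum_of_support_subset (s := t) _ fun x hx => ht x fun a => hx (by simp [a]), mul_sum,
    LinearMap.sum_apply]
  refine sum_congr rfl fun x _ => ?_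
  rw [vI_smul, LinearMap.smul_apply, vI_mul' (b2 x), vI_cen (b1 x), vM_sub (b1 x)
    (bc_cont continuous_const), vM_const, h.jp_eq hβ, h.jp_eq hβ]
  push_cast
  rw [smul_eq_mul]
  ring

omit h hβ in
theorem pC_eq {M c : ℝ} {v : R4 → ℝ} (e : ∀ y, φ y = c * v (d⁻¹ • y)) (c0 : c ≠ 0) :
    G.pC M d p v = ((M⁻¹ * c⁻¹ : ℝ) : ℂ) • jet (G.nn p) (G.aa p) φ none := funext fun x => by
  have : xp (G.aa p / d) (Fi.cst (G.nn p) x) = d⁻¹ • xp (G.aa p) (Fi.cst (G.nn p) x) := by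
    ext l
    simp only [xp, PiLp.smul_apply, smul_eq_mul]
    ring
  simp only [pC, jet, Option.elim, e, this, Pi.smul_apply, smul_eq_mul, ← Complex.ofReal_mul]
  congr 1
  field_simp

theorem Oks.wC_id {M : ℝ} {kd : ℝ → ℕ} {y : ℝ → ℝ} {i : Fin 3} (hb : Ope.Bmp u ξ) (M0 : M ≠ 0)
    (d0 : 0 < d) (hf : HasCompactSupport f) (e : ℕ) : ∀ᶠ p in L6.fast,
    (i ≠ 2 → ∀ l, G.xC β (kd d) p i l ≠ 0) → ∀ Z,
      Ope.Cp (G.vE β) (G.vL β ((4⁻¹ : ℂ) • Wd.V3)) (G.vL β Wd.V6) u ξ d e p f Z i /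
        (G.zC β kd y d p i : ℝ) = G.vI β p ((G.wC β u ξ M kd y i d e p).gs (G.nn p)
          (3 ^ (G.e p.2 - e)) (jet (G.nn p) (G.aa p) f none)) Z := by
  filter_upwards [L6.fast_le (h.cp_eq hβ (V := (4⁻¹ : ℂ) • Wd.V3) (V' := Wd.V6) (ι := Fin 3)
    (κ := Fin 2) hb.ts.1 (.of_support_subset_isCompact (isCompact_closedBall 0 2)
      ((subset_tsupport _).trans (hb.sup.trans Metric.ball_subset_closedBall))) hf d0 e)]
    with p H hx Z
  rw [div_eq_inv_mul]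
  refine H i _ _ (fun U hU => ?_) Z
  have ev : ∀ y, bx ξ d 0 (-y) = bx ξ d 0 y := fun y => by simp only [bx, sub_zero, smul_neg, hb.ev]
  have d1 : (d : ℂ) ≠ 0 := Complex.ofReal_ne_zero.2 d0.ne'
  have M1 : (M : ℂ) ≠ 0 := Complex.ofReal_ne_zero.2 M0
  have e1 := fun m => pC_eq (G := G) (p := p) (M := M) (d := d) (φ := Fx.pd m (bx ξ d 0))
    (v := Fx.pd m ξ) (c := d⁻¹) (fun y => by
      unfold bx
      simp only [sub_zero, St.pd_sc (hb.sm.differentiable (by simp))]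
      rfl) (inv_ne_zero d0.ne')
  have e2 := pC_eq (G := G) (p := p) (M := M) (d := d) (φ := St.sc u d 0) (v := u) (c := d⁻¹ ^ 4)
    (fun y => by rw [St.sc, sub_zero]) (by positivity)
  have e3 : G.oC β ξ M d p i U = (M⁻¹ * d⁻¹⁻¹ : ℝ) *
      cO (G.nn p) (G.aa p) ((4⁻¹ : ℂ) • Wd.V3) Wd.V6 (bx ξ d 0) i U := by
    simp only [oC, cO, cS, mS, e1, funext (Wd.sm_smul' _), vM_smul, mul_sum,
      vM_odd (Wd.act_phS _) (jet_odd (G.nn_odd p) _ ev _)]
    fin_cases i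
    exacts [rfl, rfl, by simp [cY, cD, Fin.sum_univ_three, Wd.sm_zero]]
  rw [wC_ob hx hU, e3, vM_cO (nI_V3 _) nI_V6 ev, cS, mS_eq (F := G.pC M d p u) fun _ => jet_im .., e2,
    funext (Wd.sm_smul' _), vM_smul, vP_X _ _ _ _ hU]
  push_cast
  field_simp
  ring

end Gl

end Pool.Agent.Lib.MP_7f377f_mp.RG.Q4.En
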