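import Pool.Agent.Lib.MP_7f377f_mp.G.CaKV1b

/-! The charges as words: covariance. -/

noncomputable section

set_option linter.unusedSectionVars false
variable [Pool.Agent.Lib.MP_7f377f_mp.GD]

namespace Pool.Agent.Lib.MP_7f377f_mp.RG.Q4.En

open Finset Function Sg Real Pos Mg Filter YM7 Topology
open Wd (Let sm gR KK)
open scoped Classical

section
variable {n : ℕ} {a c : ℝ} {v : R4 → ℝ} (hn : Odd n) (hv : ∀ x y, ‖x‖ = ‖y‖ → v x = v y)
include hn hv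

theorem jet_rad (g : Wd.B4) (x : St) : jet n a (c • v) none (Wd.gv g x) = jet n a (c • v) none x := by
  simp only [jet, Option.elim, xp_gv hn, Pi.smul_apply, hv _ _ ((gR g).norm_map _)]

theorem gF_rad (g : Wd.B4) : Wd.gF g (fun m => jet n a (c • Fx.pd m v) none) =
    fun m => jet n a (c • Fx.pd m v) none := funext₂ fun m x => by
  have := pd_gR g v (xp a (Fi.cst n x)) m
  rw [show (fun y => v (gR g y)) = v from funext fun y => hv _ _ ((gR g).norm_map y),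
    ← xp_gv hn] at this
  simp only [jet, Option.elim, Pi.smul_apply, this, Wd.gF, Wd.cd]
  split_ifs <;> simp [jet]

/-- covariant families smeared with the gradient of a radial function -/
theorem cov_rad {Z : Fin 4 → Let} (hZ : Wd.Cov Z) {g : Wd.B4} (hg : g ∈ KK 0) (U : Conf) :
    ∑ m, sm n (Z m) (jet n a (c • Fx.pd m v) none) (Wd.pb Inv.inv g U) =
      Wd.sg 0 g * ∑ m, sm n (Z m) (jet n a (c • Fx.pd m v) none) U := by
  have := Wd.sm_ro (n := n) (Y := Z) (F' := fun m => jet n a (c • Fx.pd m v) none) g U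
  rw [hZ g hg, gF_rad hn hv] at this
  rw [this, ← mul_assoc, Wd.sg_sq (hg 0 (.inl rfl)), one_mul]

end

theorem cov_one {X : Let} (hX : ∀ g ∈ KK 0, Wd.act g X = X) : Wd.Cov (Pi.single 0 X) := fun g h => by
  have := Wd.ro_single g 0 fun _ => X
  rwa [h 0 (.inl rfl), Wd.ro_fix h, Wd.ch, Wd.sg_sq (h 0 (.inl rfl)), one_smul, hX g h] at this

theorem yC_zero : ∑ l, yC 0 l = Wd.OT 0 - Wd.V1 := by
  rw [Wd.OT_zero, add_sub_cancel_left, show univ.erase (0 : Fin 4) = {1, 2, 3} by decide]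
  simp [yC, YC, Fin.sum_univ_three, add_assoc]

namespace Gl

variable {G : Gl} {β : ℕ × ℕ → ℝ} {u ξ : R4 → ℝ} {M d : ℝ} {kd : ℝ → ℕ} {y : ℝ → ℝ} {i : Fin 3}
  {e : ℕ} {p : ℕ × ℕ}

theorem oC_cov (h2 : ∀ x y, ‖x‖ = ‖y‖ → ξ x = ξ y) {g : Wd.B4} (hg : g ∈ KK 0) (U : Conf) :
    G.oC β ξ M d p i (Wd.pb Inv.inv g U) = Wd.sg 0 g * G.oC β ξ M d p i U := by
  have k := fun Z hZ => cov_rad (a := G.aa p / d) (c := M⁻¹) (Z := Z) (G.nn_odd p) h2 hZ hg U
  fin_cases i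
  · simpa [oC, pC, mC, ← Wd.sm_sum, yC_zero, Fin.sum_univ_four, Wd.sm_zero] using
      k _ (cov_one (X := Wd.OT 0 - Wd.V1) fun g a => by rw [map_sub, Wd.OT_inv g a, Wd.act_V1])
  · simpa [oC, pC, mC, yC, YC, ← Wd.OT_ne, Fin.sum_univ_succ, Wd.sm_zero, Wd.WW] using
      k _ (Wd.cov_WW 2)
  · have : G.mS β p (G.pC M d p (Fx.pd 0 ξ)) = 0 := congrArg Complex.re (vM_odd (Wd.act_phS _)
      fun x => neg_eq_iff_eq_neg.1 (congrFun₂ (gF_rad (G.nn_odd p) h2 Wd.nI) 0 x))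
    simp only [oC, cS, this]
    simpa [pC, Fin.sum_univ_four, Wd.sm_zero] using k _ (cov_one fun g _ => Wd.act_phS g)

theorem cS_cov (h2 : ∀ x y, ‖x‖ = ‖y‖ → u x = u y) (g : Wd.B4) (U : Conf) :
    G.cS β p (G.pC M d p u) (Wd.pb Inv.inv g U) = G.cS β p (G.pC M d p u) U := by
  rw [cS, cS]
  conv_rhs => rw [← Wd.act_phS g, Wd.sm_act, pC, funext (jet_rad (G.nn_odd p) h2 g)]
  rfl

theorem wC_cov (hb : Ope.Bmp u ξ) (h2 : ∀ x y, ‖x‖ = ‖y‖ → u x = u y ∧ ξ x = ξ y)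
    (hx : i ≠ 2 → ∀ l, G.xC β (kd d) p i l ≠ 0) :
    BC ((G.wC β u ξ M kd y i d e p).ob (G.nn p)) ∧ ∀ g ∈ Wd.KK 0, ∀ U, Per (G.nn p) U →
      (G.wC β u ξ M kd y i d e p).ob (G.nn p) (Wd.pb Inv.inv g U) =
        Wd.sg 0 g * (G.wC β u ξ M kd y i d e p).ob (G.nn p) U := by
  have _ := hb
  refine ⟨bc_cont (continuous_finsetSum _ fun l _ => continuous_const.mul
    (continuous_finsetProd _ fun j _ => Continuous.sub (.neg ?_) continuous_const)),
    fun g hg U hU => ?_⟩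
  · fin_cases j <;> simp only [wC, Matrix.cons_val_zero, Matrix.cons_val_one, Fin.zero_eta,
      Fin.mk_one]
    · split_ifs
      exacts [xO_pl _ _ ▸ Br.cont_sO _, (continuous_const.mul (Wd.sm_cont ..)).congr
        fun U => (xO_lW _ _ _ _ U).symm]
    · exact xO_pl _ _ ▸ Br.cont_sO _
  · rw [wC_ob hx hU, wC_ob hx (Wd.per_pb _ g hU), oC_cov (fun x y a => (h2 x y a).2) hg,
      cS_cov fun x y a => (h2 x y a).1]
    ring

end Gl

end Pool.Agent.Lib.MP_7f377f_mp.RG.Q4.En
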