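import Pool.Agent.Lib.MP_7f377f_mp.G.StW2
import Pool.Agent.Lib.MP_7f377f_mp.G.CaKB1

/-! Odd words: the weights of the remainder of the vector expansion and of its mirror images. -/

noncomputable section

set_option linter.unusedSectionVars false
variable [Pool.Agent.Lib.MP_7f377f_mp.GD]

namespace Pool.Agent.Lib.MP_7f377f_mp.RG.Q4.En

open Finset Function Sg Real Pos Mg Filter YM7 Topology
open Wd (Let)
open scoped Classical

/-- the index set of the letters -/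
abbrev IV : Type := (Fin 3 ⊕ Wd.Iv) ⊕ Fin 4 × (Fin 3 ⊕ Wd.Iv)

/-- the letters -/
def YV : IV → Let := Sum.elim Wd.PO fun x => Wd.OF x.1 x.2

/-- their test functions -/
def oV : IV → Option (Fin 4) := Sum.elim (fun _ => none) fun x => some x.1

/-- the signs of the component `0` of a vector -/
def cV : Fin 4 → Bool := ![true, false, false, false]

namespace Gl

variable {ι κ α : Type} [Fintype ι] [DecidableEq ι] [Fintype κ] [DecidableEq κ] [Inhabited κ]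
  [Fintype α] {G : Gl} {b C A A' W : ℝ} {J k j l j0 s i c d : ℕ} {B : Wo ι κ} {X : Let}

theorem Lg.mono (a : G.Lg k d A X) (h : G.Ok) (e : A ≤ A') : G.Lg k d A' X :=
  ⟨a.1, fun U => (a.2.1 U).trans e, PM.mono (h.ρ0 k) a.2.2 e e
    (mul_le_mul_of_nonneg_right e (pow_pos (h.ρ0 k) 3).le)⟩

theorem Ok.cE_rt (h : G.Ok) (hl : l ≤ k) : ∀ j ≤ l, G.cE l k ≤ G.cE j k * G.rt l j :=
  dw_ind (by simp [rt_top]) fun j hj ih => by
    have := mul_pos (h.cE0 (j + 1) k) (one_pos.trans_le (h.t0 l (j + 1)))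
    rw [cE_step (hj.trans_le hl), h.rt_step hj, Nat.cast_mul]
    nlinarith [h.Lcr j]

theorem Ok.tn_opt (h : G.Ok) (R : G.Run b J j G.om) (hk : k ≤ J) (t : ℂ) (e : α → ℂ)
    {u : Lx × Ac} {v : α → Lx × Ac} (a : ∃ N, G.S1 G.om k N u) (a' : ∀ x, ∃ N, G.S1 G.om k N (v x))
    (h1 : j ≤ l) (h2 : l ≤ k) : G.tn b J (t • u + ∑ x, e x • v x) k l =
      t • G.tn b J u k l + ∑ x, e x • G.tn b J (v x) k l := by
  simpa only [Fintype.sum_option, Option.elim] using h.tn_sum (fun k => (h.om0 k).le) R hk univ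
    (fun o : Option α => o.elim t e) (u := fun o => o.elim u v)
    (fun o => by cases o; exacts [a, a' _]) l h1 h2

theorem Wg.vec (V : G.Wg b J k s i c d C (G.sx k) B) (h : G.Ok) (t : G.Tu b J) (hp : G.Pu)
    (R : G.Run b J j0 G.om) (hj : j0 ≤ k) (hχ : B.Cv (G.N J) cV) (A1 : 1 ≤ A) (hA : A ≤ G.L j0)
    {P : α → Let} {O : Fin 4 → α → Let} {Y : α ⊕ Fin 4 × α → Let} {o : α ⊕ Fin 4 × α → _}
    (eY : Y = Sum.elim P fun x => O x.1 x.2) (eo : o = Sum.elim (fun _ => none) fun x => some x.1)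
    (hY : ∀ g x, G.Lg k d A (Wd.act g (Y x))) (hr : ∀ x, Wd.Re (Y x)) (od : ∀ x, Wd.Od (P x))
    (s1 : ∀ m, Sec q0 (fun a => q0 (q2 (Wd.lx (O m a)))) A)
    (s2 : Sec q1 (fun a => q1 (q2 (Wd.lx (P a)))) A) (W0 : 0 < W)
    (hw : G.ww J k s B ≤ G.Q k ^ 4 * (W * 3 ^ G.e k)) (hc : exp (c * C + c + 2) ≤ G.Q k) :
    ∃ e : α ⊕ Fin 4 × α → ℝ, ∑ x, |e (.inl x)| ≤ G.Q k ^ (2 * c + 4000) * W * 3 ^ G.e k ∧
      (∀ m, ∑ x, |e (.inr (m, x))| * (3 ^ G.e J)⁻¹ ≤ G.Q k ^ (2 * c + 4000) * W) ∧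
      ∀ j, j0 ≤ j → j ≤ k → ∀ ε, G.Vk b J k j c d C A (G.sx k)
        (Tj.Nm (G.N J) (3 ^ G.e J)⁻¹ True) (G.gm J k s i B cV 0 0 Y o e ε)
        (G.Q k ^ (2 * c + 4000) * W * 3 ^ G.e j * if ε = 0 then G.cE j k else 2 ^ (k - j)) := by
  subst eY eo
  have ω0 := fun k => (h.om0 k).le
  have hk := V.lt.le
  have q := h.Q0 k
  have q1 := h.Q1 k
  have t0 := h.t0
  have AQ : A ≤ G.Q k := hA.trans ((h.LQ j0).trans (h.Q_mono hj))
  obtain ⟨a, ha⟩ : ∃ a : ℝ, a = (3 ^ G.e J)⁻¹ := ⟨_, rfl⟩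
  obtain ⟨E, hE⟩ : ∃ E : ℕ → ℝ, ∀ l, 3 ^ G.e l = E l := ⟨_, fun _ => rfl⟩
  obtain ⟨Z, hZ⟩ : ∃ Z, Z = G.Q k ^ (2 * c) * W := ⟨_, rfl⟩
  have E1 : ∀ l, 1 ≤ E l := fun l => hE l ▸ one_le_pow₀ (by norm_num)
  have a0 : 0 < a := by rw [ha]; positivity
  have Z0 : 0 < Z := by rw [hZ]; positivity
  have re : ∀ {l m}, l ≤ m → G.rt m l * E l = E m := fun e => by rw [← hE, ← hE, h.rt_e e]
  have ra : ∀ {l}, l ≤ J → G.rt J l * a * E l = 1 := fun e => by
    rw [mul_right_comm, re e, ha, hE, mul_inv_cancel₀ (by linarith [E1 J])]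
  have r1 : ∀ {l}, l ≤ J → 1 / G.rt J l = a * E l := fun {l} e => by
    rw [div_eq_iff (by linarith [t0 J l]), ← ra e]; ring
  have r2 : ∀ {l}, l ≤ J → G.rt J l * a ≤ 1 := fun {l} e => (le_mul_of_one_le_right
    (by have := t0 J l; positivity) (E1 l)).trans_eq (ra e)
  have cw : G.cM k c C * G.ww J k s B ≤ G.Q k ^ 5 * (Z * E k) := by
    have : 0 ≤ G.ww J k s B := by unfold ww; positivity
    calc _ ≤ G.Q k * G.Q k ^ (2 * c) * (G.Q k ^ 4 * (W * 3 ^ G.e k)) := by unfold cM; gcongr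
      _ = _ := by rw [hZ, hE]; ring
  have sx := h.sx_ge (κ := κ) k
  have Ek := E1 k
  obtain ⟨y, hy⟩ : ∃ y, y = G.Q k ^ 2686 * (Z * E k) := ⟨_, rfl⟩
  have y0 : 0 < y := by rw [hy]; positivity
  have ya : G.rt J k * y * a = G.Q k ^ 2686 * Z := by
    rw [hy]; linear_combination G.Q k ^ 2686 * Z * ra hk
  obtain ⟨lw, -, ow⟩ := V.lr_gw h t hp (χ := cV) y0 (by
    have := h.b0 k
    calc _ = 4 * (G.cM k c C * G.ww J k s B) * G.Q k ^ 280 * G.bb k := by ring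
      _ ≤ G.Q k * (G.Q k ^ 5 * (Z * E k)) * G.Q k ^ 280 *
          (G.Q k ^ 2400 * G.sx k (k + 1) ^ Fintype.card κ) := by
        have : 4 ≤ G.Q k := h.cQ k (by norm_num)
        have : 0 ≤ G.cM k c C * G.ww J k s B := by unfold cM ww; positivity
        gcongr
      _ = _ := by rw [hy]; ring)
  replace ow := ow hχ (by decide)
  have rY := fun g x => Wd.rl_act g (hr x)
  have lY := fun g x => h.lr_bl t hp hk V.dR AQ (hY g x) (rY g x)
  have D1 : 1 ≤ 2 * (G.p k).D := by have := h.D1' k; omega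
  have D2 : (G.p k).D ≤ 2 * (G.p k).D := by omega
  have l1 := lY 1
  simp only [Wd.act_one] at l1
  obtain ⟨u, u', u1, u2, u3⟩ := h.xvec t hp R hk y0 lw D1 ow hj (P := fun x => G.bl b J k (P x))
    (fun x => (l1 (.inl x)).1) (fun x => (l1 (.inl x)).2.2 (od x))
    (by simpa [cl, fd] using s2) (by linarith) hA (O := fun m x => G.bl b J k (O m x)) D2
    (fun m x => (l1 (.inr (m, x))).1) D2 (by simpa [cl, fd] using s1)
  have u2' : ∀ m, ∑ x, |u' m x| * a ≤ G.Q k ^ 2693 * Z := fun m => by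
    rw [← sum_mul]
    exact (mul_le_mul_of_nonneg_right (u2 m) a0.le).trans_eq (by linear_combination G.Q k ^ 7 * ya)
  have qw : ∀ {m n : ℕ}, m < n → 1000 * (G.Q k ^ m * Z) ≤ G.Q k ^ n * Z := fun e => by
    rw [← mul_assoc]; exact mul_le_mul_of_nonneg_right (h.qpw k e) Z0.le
  have p0 : ∀ m : ℕ, 0 < G.Q k ^ m * Z := fun _ => by positivity
  have u1' : ∑ x, |u x| ≤ G.Q k ^ 2690 * Z * E k := u1.trans_eq (by rw [hy]; ring)
  rw [← ha, pow_add, mul_right_comm _ _ W, ← hZ, mul_comm Z, hE]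
  simp only [hE]
  refine ⟨Sum.elim (-u) fun x => -u' x.1 x.2, ?_, fun m => ?_, fun j j1 j2 ε => ?_⟩
  · simp only [Sum.elim_inl, Pi.neg_apply, abs_neg]
    exact u1'.trans (by gcongr; norm_num)
  · simp only [Sum.elim_inr, abs_neg]
    exact (u2' m).trans (by gcongr; norm_num)
  obtain ⟨θ, hθ⟩ : ∃ θ : ℝ, θ = if ε = 0 then G.cE j k else 2 ^ (k - j) := ⟨_, rfl⟩
  rw [← hθ]
  have Ej := E1 j
  have tj := t0 k j
  have θ1 : 1 ≤ θ * G.rt k j := by
    rw [hθ]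
    split_ifs
    · simpa [cE_top] using h.cE_rt le_rfl j j2
    · exact one_le_mul_of_one_le_of_one_le (one_le_pow₀ one_le_two) tj
  have θ0 : 0 < θ := by nlinarith
  have w1 : G.Q k ^ 4000 * Z * E k ≤ G.Q k ^ 4000 * Z * E j * θ * G.rt k j ^ 2 :=
    calc _ = G.Q k ^ 4000 * Z * E j * G.rt k j * 1 := by rw [← re j2]; ring
      _ ≤ G.Q k ^ 4000 * Z * E j * G.rt k j * (θ * G.rt k j) := by gcongr
      _ = _ := by ring
  have P0 : ∀ {B : Wo ι κ} {Y : α ⊕ Fin 4 × α → Let} {o e S},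
      (G.gv J k s i B (Wd.mir ε 0) 0 Y o e).P (G.N J) S = 0 := fun {B Y o e S} => by
      simp only [Vf.P, gv, Wd.mir, Pi.zero_apply, map_zero, smul_zero, Complex.ofReal_zero, zero_smul,
        add_zero]
      exact sum_eq_zero fun o _ => map_zero (lWL (S o))
  have w0 := p0 4000
  refine (V.mul _).vk h t AQ (fun x => ⟨hY _ x, rY _ x⟩)
    (fun o => by simpa [Wd.mir] using ⟨(Wd.RdS d).zero_mem, Wd.Rl.zero_mem⟩) (by positivity) ?_
    (fun S _ => ⟨0, 0, P0 ▸ .zero (h.ρ0 J), (add_zero _).trans_le (by positivity)⟩) (fun S p z => le_trans ?_ w1)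
    (fun S _ l _ e => ?_) fun S p l l1 l2 => ?_
  · have : 1 ≤ G.sx k (k + 1) ^ Fintype.card κ := le_of_mul_le_mul_left ((mul_one _).trans_le
      (((pow_le_pow_right₀ q1 (by norm_num)).trans (h.Qb k)).trans sx)) (pow_pos q 2400)
    rw [ww_sC]
    refine le_trans ?_ (le_mul_of_one_le_left (by positivity) this)
    refine le_trans ?_ w1
    calc _ ≤ G.Q k ^ 331 * (G.Q k ^ 5 * (Z * E k)) := by gcongr
      _ = G.Q k ^ 336 * Z * E k := by ring
      _ ≤ _ := by gcongr; norm_num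
  · refine le_trans (mul_le_mul_of_nonneg_left (c := G.Q k ^ 2690 * Z * E k +
      ∑ m : Fin 4, G.Q k ^ 2693 * Z) ?_ (by positivity)) ?_
    · simp only [abs_mul, Wd.abs_sE, one_mul, Fintype.sum_sum_type (α₂ := _ × _),
        Fintype.sum_prod_type, Sum.elim_inl, Sum.elim_inr, Pi.neg_apply, abs_neg]
      exact add_le_add ((sum_le_sum fun x _ => mul_le_of_le_one_right (abs_nonneg _)
        ((p.bd _).2 _).1).trans u1') (sum_le_sum fun m _ => (sum_le_sum fun x _ =>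
          mul_le_mul_of_nonneg_left (p.bd' m _) (abs_nonneg _)).trans (u2' m))
    calc _ ≤ G.Q k ^ 400 * (G.Q k ^ 2694 * Z * E k) := by
          refine mul_le_mul_of_nonneg_left ?_ (by positivity)
          simp only [sum_const, card_univ, Fintype.card_fin, nsmul_eq_mul, Nat.cast_ofNat]
          nlinarith [qw (show 2690 < 2693 by norm_num), qw (show 2693 < 2694 by norm_num), p0 2693]
      _ = G.Q k ^ 3094 * Z * E k := by ring
      _ ≤ _ := by gcongr; norm_num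
  · rw [P0, xv_zero, h.tn_zero t le_rfl]
    exact h.s1_zero ω0 (by positivity)
  have lJ := l2.trans hk
  have tl := t0 l j
  have El := E1 l
  have b0 := fun x => ((p.bd none).2 x).1
  rw [vT_gv, P0, xv_zero, h.tn_zero t le_rfl, zero_add, gw_sm, h.tn_opt R hk _ _
    ⟨_, h.lop_sz ω0 hk lw.lop (p.bd _).1 b0⟩ (fun x => ⟨_, h.lop_sz ω0 hk (lY _ x).1.lop
      (p.bd _).1 fun z => ((p.bd _).2 z).1⟩) (j1.trans l1) l2]
  simp only [Fintype.sum_sum_type (α₂ := _ × _), Fintype.sum_prod_type, Sum.elim_inl, Sum.elim_inr,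
    Pi.neg_apply]
  split_ifs at hθ with e
  · have := h.cE0 l k
    have v := u3 _ _ _ _ _ (p.two trivial) (by positivity) l (j1.trans l1) l2
    have z1 : ∀ o, Wd.sE 0 o = 1 := fun o => by cases o <;> simp [Wd.sE]
    have z2 : sC cV 0 = 1 := by simp [sC]
    simp only [e, Wd.rE_zero, Wd.act_one, z1, z2, one_mul, Complex.ofReal_one, one_smul,
      Complex.ofReal_neg, neg_smul, sum_neg_distrib, ← add_assoc, ← sub_eq_add_neg]
    rw [sub_sub, sub_eq_add_neg, neg_add'] at v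
    refine h.s1_mono ω0 v ?_
    calc _ ≤ G.Q k ^ 10 * G.rt J k * y * G.cE l k * (3 * (a * E l)) := by
          rw [r1 lJ]
          gcongr
          nlinarith [mul_le_mul_of_nonneg_right (r2 lJ) a0.le]
      _ = 3 * (G.Q k ^ 2696 * Z) * G.cE l k * E l := by
          linear_combination 3 * G.Q k ^ 10 * G.cE l k * E l * ya
      _ ≤ G.Q k ^ 4000 * Z * (θ * G.rt l j) * E l := by
          gcongr ?_ * ?_ * _
          exacts [by linarith [qw (show 2696 < 4000 by norm_num), p0 2696], hθ ▸ h.cE_rt l2 j l1]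
      _ = _ := by rw [← re l1]; ring
  · have up := fun {A ρ Φ} a1 a2 a3 a4 => h.upv t hp R hk (A := A) (ρ := ρ) (Φ := Φ) a1 a2 a3 a4
      (p.bd none).1 b0 p.lip a0 l (j1.trans l1) l2
    have A0 : 0 < A := by linarith
    have n2 : (2 : ℝ) ^ (k - l) ≤ θ := hθ ▸ pow_le_pow_right₀ one_le_two (by omega)
    have n3 : 1 / G.rt J l + a ≤ 2 * (a * E l) := by rw [r1 lJ]; nlinarith
    have n1 : ∀ o, ∀ r : ℝ, ‖((Wd.sE ε o * -r : ℝ) : ℂ)‖ = |r| := fun o r => by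
      rw [Complex.norm_real, norm_eq_abs, abs_mul, Wd.abs_sE, one_mul, abs_neg]
    have := t0 J k
    refine h.s1_mono ω0 (h.s1_add (h.s1_smul (up y0 lw D1 ow) _) (h.s1_add
      (h.s1_sum _ fun x _ => h.s1_smul (up A0 (lY _ (.inl x)).1 D2
        ((lY _ (.inl x)).2.2 ((od x).act _))) _)
      (h.s1_sum _ fun m _ => h.s1_sum _ fun x _ => h.s1_smul (h.s1_grow t hk (h.lop_sz ω0 hk
        (lY _ (.inr (m, x))).1.lop (p.bd _).1 (p.bd' m)) (by positivity) l l2) _))) ?_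
    simp only [n1]
    rw [Complex.norm_real, norm_eq_abs, abs_sC, one_mul, ← sum_mul]
    calc _ ≤ G.Q k ^ 6 * y * G.rt J k * θ * (2 * (a * E l)) + (G.Q k ^ 4 * y *
          (G.Q k ^ 6 * G.Q k * G.rt J k * θ * (2 * (a * E l))) +
          ∑ m : Fin 4, G.Q k ^ 2693 * Z * (θ * G.Q k)) := by
          gcongr with m
          refine le_trans (sum_le_sum fun x _ => ?_) ((sum_mul ..).symm.trans_le
            (mul_le_mul_of_nonneg_right (u2' m) (by positivity)))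
          rw [mul_assoc, mul_left_comm a]
          gcongr
          exact (pow_le_pow_left₀ (by norm_num) (by norm_num) _).trans n2
      _ = (2 * (G.Q k ^ 2692 * Z) * E l + 2 * (G.Q k ^ 2697 * Z) * E l +
          4 * (G.Q k ^ 2694 * Z)) * θ := by
          simp only [sum_const, card_univ, Fintype.card_fin, nsmul_eq_mul, Nat.cast_ofNat]
          linear_combination (2 * G.Q k ^ 6 + 2 * G.Q k ^ 11) * θ * E l * ya
      _ ≤ G.Q k ^ 4000 * Z * E l * θ := by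
          gcongr
          nlinarith [qw (show 2692 < 2694 by norm_num), qw (show 2694 < 2697 by norm_num),
            qw (show 2697 < 4000 by norm_num), p0 2694, p0 2697]
      _ = G.Q k ^ 4000 * Z * E j * θ * (G.rt l j * 1) := by rw [← re l1]; ring
      _ ≤ _ := by rw [sq]; gcongr

variable {β : ℕ × ℕ → ℝ} (h : G.Oks) (hβ : G.Tus β)
include h hβ

theorem Oks.vec_vk : ∃ r0, ∀ r ≥ r0, ∃ (A : ℝ) (j0 : ℕ), ∀ i c C, ∀ᶠ k in atTop, ∀ p s W
    (B : Wo ι κ), G.Wh β p k s i c r C W B → B.Cv (G.nn p) cV ∧ ∃ e : IV → ℝ,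
      ∑ x, |e (.inl x)| ≤ G.Q k ^ (2 * c + 4000) * W * 3 ^ G.e k ∧
      (∀ m, ∑ x, |e (.inr (m, x))| * G.aa p ≤ G.Q k ^ (2 * c + 4000) * W) ∧
      ∀ j, j0 ≤ j → j ≤ k → ∀ ε, (G.wm p.1).Vk (β p) p.2 k j c r C A (G.sx k)
        (Tj.Nm (G.nn p) (G.aa p) True) ((G.wm p.1).gm p.2 k s i B cV 0 0 YV oV e ε)
        (G.Q k ^ (2 * c + 4000) * W * 3 ^ G.e j * if ε = 0 then G.cE j k else 2 ^ (k - j)) := by
  obtain ⟨r0, A, A0, H⟩ := lg_fam YV
  obtain ⟨A', -, H'⟩ := Wd.sec_all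
  have o := (h 0).1
  obtain ⟨k0, R⟩ := o.runs
  obtain ⟨s1, -, s2⟩ := H' (max (max A A') 1) ((le_max_right _ _).trans (le_max_left _ _))
  obtain ⟨j0, h0⟩ := eventually_atTop.1 ((o.L_top.eventually_ge_atTop (max (max A A') 1)).and
    (eventually_ge_atTop k0))
  have e : A ≤ max (max A A') 1 := (le_max_left _ _).trans (le_max_left _ _)
  refine ⟨r0, fun r hr => ⟨max (max A A') 1, j0, fun i c C => ?_⟩⟩
  filter_upwards [eventually_ge_atTop j0, o.Q_top.eventually_ge_atTop (exp (c * C + c + 2))]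
    with k h1 h2 p s W B V
  have o' := (h p.1).1
  have cv : B.Cv (G.nn p) cV := fun μ U hU => by
    rw [Wd.cf_pb, show Wd.gn (.inr μ) = Wd.rf μ from rfl, V.cov _ (Wd.rf_mem μ 0) U hU, Wd.sg_rf]
    fin_cases μ <;> simp [cV, Ty.sb]
  exact ⟨cv, V.wg.vec o' (hβ p) (h p.1).2 (R _ o' (h p.1).2 _ _ _ (h0 _ le_rfl).2 (hβ p) 280
    (by norm_num) (by norm_num)) h1 cv (le_max_right _ _) (h0 _ le_rfl).1 rfl rfl
    (fun g x => ((H r hr).2 _ k o' V.wg.dR (e.trans ((h0 _ h1).1.trans (o.LQ k))) g x).mono o' e)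
    (fun x => by cases x; exacts [Wd.rl_PO _, Wd.rl_OF _ _]) Wd.od_PO s1 s2 V.w0
    ((show _ = G.Q k ^ 4 * _ by rw [ww, mul_pow, mul_left_comm]; rfl).trans_le
      (mul_le_mul_of_nonneg_left V.wt (pow_pos (o.Q0 k) 4).le)) h2⟩

end Gl

end Pool.Agent.Lib.MP_7f377f_mp.RG.Q4.En
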