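import Pool.Agent.Lib.MP_7f377f_mp.G.CaKB4
import Pool.Agent.Lib.MP_7f377f_mp.G.CaKG
import Pool.Agent.Lib.MP_7f377f_mp.G.CaKL2
import Pool.Agent.Lib.MP_7f377f_mp.G.CaKA

/-! The lattice input for the Ward identity. -/

noncomputable section

set_option linter.unusedSectionVars false
variable [Pool.Agent.Lib.MP_7f377f_mp.GD]

namespace Pool.Agent.Lib.MP_7f377f_mp.RG.Q4.En

open Real Filter YM7 Topology Ope
open Pur (mon Pol)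

theorem OnA.onC {n : ℕ∞} {P Q : ∀ k, (R4 → ℝ) → (Fin k → R4 → ℝ) → Prop} (h : OnA n P)
    (e : ∀ k f g, P k f g → Q k f g) : OnC n Q :=
  fun k t => .of_forall fun i f g a b c => e k f g (h k t i f g a b c)

theorem onC_mono {n : ℕ∞} {P Q : ∀ k, (R4 → ℝ) → (Fin k → R4 → ℝ) → Prop} (h : OnC n P)
    (e : ∀ k f g, P k f g → Q k f g) : OnC n Q :=
  fun k t => (h k t).mono fun _ a f g b c d => e k f g (a f g b c d)

namespace Gl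

variable {G : Gl} {β : ℕ × ℕ → ℝ} (h : G.Oks) (hβ : G.Tus β) {U : Filter (ℕ × ℕ)}
  (hU : U ≤ L6.fast)
include h

theorem Oks.ev_big (d : ℕ) (C : ℝ) : ∀ᶠ k in atTop, d ≤ (G.p k).R ∧ C ≤ G.Q k := by
  have o := (h 0).1
  filter_upwards [o.tL.eventually_ge_atTop d, o.tL.eventually_ge_atTop C] with k a b
  refine ⟨?_, b.trans (o.LQ k)⟩
  have c : ((G.wm 0).L k : ℝ) ≤ G.D0 k := o.LD k
  have : d ≤ G.D0 k := by exact_mod_cast a.trans c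
  change _ ≤ 4 * G.D0 k
  omega

include hβ hU

theorem Oks.lk0 {T : Ty.Ty} {Y : Wd.Let} {W : Ope.Let} {δ a : ℝ} {kd : ℝ → ℕ} {y : ℝ → ℝ}
    (hY : Tm T Y) (K : G.Kd δ kd) (hy : Ls y) {c : ℝ → ℕ → ℕ × ℕ → ℝ} (c1 : ∀ d e p, |c d e p| ≤ 1)
    (c2 : OnA 0 fun _ f g => ∃ K, ∀ᶠ d in 𝓝[>] (0 : ℝ), ∀ᶠ e in atTop, ∀ᶠ p in L6.fast,
      ‖cv (G.vE β p) (W d e f) (mon g) + c d e p / G.zt β Y kd y d p * G.vL β Y p f (mon g)‖ ≤
        K * d ^ a) :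
    Lk0 U Prod.snd (G.vE β) a W (G.vL β Y) (G.zt β Y kd y) 1 (fun _ _ _ => 1) c := by
  have y0 : ∀ d, 0 < y d := fun d => one_pos.trans_le (hy.2 d)
  refine ⟨one_pos, ?_, .of_forall fun d => .of_forall fun e => .of_forall fun p =>
    ⟨by simp, c1 d e p⟩, c2.onC fun _ f g ⟨K, a⟩ => ⟨K, a.mono fun d a => a.mono fun e a =>
      (a.filter_mono hU).mono fun p a => by simpa using a⟩,
    (h.up hβ hY).onC fun _ f g a => (K.top.eventually a).mono fun d ⟨K, a⟩ =>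
      ⟨K * y d, (a.filter_mono hU).mono fun p a => a.trans_eq ?_⟩⟩
  · obtain ⟨r, hr⟩ := Wd.exists_rad Y
    obtain ⟨C, C1, H⟩ := norm hr hY.re hY.ne
    filter_upwards [K.top.eventually (h.ev_big r C)] with d a
    refine ⟨C⁻¹ / y d, by have := y0 d; positivity, ?_⟩
    filter_upwards [(tendsto_snd.mono_left (hU.trans L6.fast_le)).eventually_ge_atTop (kd d)]
      with p b
    rw [zt, div_mul_eq_mul_div]
    refine div_le_div_of_nonneg_right (le_trans ?_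
      (H _ _ _ _ (h p.1).1 (hβ p) (h p.1).2 a.1 a.2 b).1) (y0 d).le
    exact mul_le_mul_of_nonneg_left (pow_le_pow_of_le_one (by norm_num) (by norm_num)
      (Nat.sub_le _ _)) (by positivity)
  · rw [zt, mul_assoc, mul_div_cancel₀ _ (y0 d).ne']

theorem Oks.str' (Y : Wd.Let) : Str U (G.vE β) (G.vL β Y) :=
  let a := h.str hβ Y
  ⟨a.lE, fun e x Z b => (a.tE e x Z b).filter_mono hU, a.l0, a.l1,
    fun e x f Z b => (a.tr e x f Z b).filter_mono hU⟩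

/-- the lattice input -/
theorem Oks.clat {h₀ : R4 → ℝ} (r : Rd h₀) [U.NeBot]
    {S : Pol →ₗ[ℂ] ℂ} (hS : ∀ Z ∈ Pur.net.loc Set.univ, Tendsto (G.vE β · Z) U (𝓝 (S Z))) :
    ∃ V V' ζ ζ', CLat U Prod.snd (G.vE β) S h₀ 1000⁻¹ V V' ζ ζ' := by
  obtain ⟨δ, δ0, H⟩ := h.link_top hβ r
  have m0 : 0 < min δ 4⁻¹ := by positivity
  obtain ⟨kd, K⟩ := h.kd_ex m0
  obtain ⟨y, hy, H⟩ := H _ kd m0 (min_le_left _ _) K
  obtain ⟨c, c1, c2⟩ := H _ _ (.inl ⟨rfl, rfl⟩)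
  obtain ⟨c', c3, c4⟩ := H _ _ (.inr ⟨rfl, rfl⟩)
  obtain ⟨z, z1, z2⟩ := h.lat hβ
  obtain ⟨u, ξ, b, H⟩ := h.chg hβ
  refine ⟨_, _, _, _, clat_of r (h.str' hβ hU _) (h.str' hβ hU _) ⟨by norm_num, ‹_›,
    tendsto_snd.mono_left (hU.trans L6.fast_le), hS, ⟨_, _, _, h.lk0 hβ hU tm_V3 K hy c1 c2⟩,
    ⟨_, _, _, h.lk0 hβ hU tm_V6 K hy c3 c4⟩, ⟨z, z1.filter_mono hU,
      onC_mono z2 fun _ f g ⟨K, a⟩ => ⟨K, a.filter_mono hU⟩⟩, u, ξ, b, fun i => ?_⟩⟩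
  obtain ⟨w, w1, w2⟩ := H _ kd y m0 (min_le_right _ _) K hy i
  exact ⟨w, w1.mono fun d a => a.mono fun e ⟨B, a⟩ => ⟨B, a.filter_mono hU⟩,
    onC_mono w2 fun _ f g ⟨K, a⟩ => ⟨K, a.mono fun d a => a.mono fun e a => a.filter_mono hU⟩⟩

end Gl

end Pool.Agent.Lib.MP_7f377f_mp.RG.Q4.En
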