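import Pool.Agent.Lib.MP_7f377f_mp.G.CaDef
import Pool.Agent.Lib.MP_7f377f_mp.G.ScD

/-! From the lattice identities to the input of the last step. -/

noncomputable section

namespace Pool.Agent.Lib.MP_7f377f_mp.Ope
variable [Pool.Agent.Lib.MP_7f377f_mp.GD]
set_option linter.unusedSectionVars false

open Filter Topology Set Real YM7 Pur MvPolynomial Fx Metric

theorem iter {α β : Type} {la : Filter α} {lb : Filter β} {f : α × β → ℂ} {g : α → ℂ} {L : ℂ}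
    (h : ∀ᶠ a in la, Tendsto (fun b => f (a, b)) lb (𝓝 (g a))) (hg : Tendsto g la (𝓝 L)) :
    Tendsto f (la.curry lb) (𝓝 L) := fun _ hs =>
  (h.and (hg (eventually_mem_nhds_iff.2 hs))).mono fun _ ha => ha.1 ha.2

variable {ι : Type} {U : Filter ι} {J : ι → ℕ} {E : ι → Pol →ₗ[ℂ] ℂ} {S : Pol →ₗ[ℂ] ℂ}
  {h₀ f : R4 → ℝ} {D M : ℝ → ℝ} {κ : (R4 → ℝ) → ℝ} {F : Fr} {a c₀ : ℝ} {T : (Pol →ₗ[ℂ] ℂ) → Tn}
  {V V' : Ins ι} {ζ ζ' : ℝ → ι → ℝ} {Y Z : Pol} {O : Set R4} {c c' : ℝ → ℕ → ι → ℝ}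
  {Λ : (R4 → ℝ) → Pol → ℂ} {α α' : ι → ℂ}

/-- the iterated limit -/
def Ph (U : Filter ι) : Filter (ℝ × ℕ × ι) := (𝓝[>] 0).curry (atTop.curry U)

theorem ev_Ph {P : ℝ × ℕ × ι → Prop} :
    (∀ᶠ q in Ph U, P q) ↔ ∀ᶠ d in 𝓝[>] (0 : ℝ), ∀ᶠ e in atTop, ∀ᶠ p in U, P (d, e, p) := Iff.rfl

theorem Ph.ev {P : ℝ → ℕ → ι → Prop}
    (h : ∀ᶠ d in 𝓝[>] (0 : ℝ), ∀ᶠ e in atTop, ∀ᶠ p in U, P d e p) :
    ∀ᶠ q in Ph U, P q.1 q.2.1 q.2.2 := h

theorem Ph.out {G : ι → ℂ} {L : ℂ} (h : Tendsto (fun q : ℝ × ℕ × ι => G q.2.2) (Ph U) (𝓝 L)) :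
    Tendsto G U (𝓝 L) := fun _ hs => (ev_Ph.1 (h hs)).exists.elim fun _ h => h.exists.elim fun _ h => h

theorem Ph.fst : Tendsto Prod.fst (Ph U) (𝓝[>] (0 : ℝ)) := fun _ hs =>
  ev_Ph.2 (mem_of_superset hs fun _ h => .of_forall fun _ => .of_forall fun _ => h)

theorem cv_lim (lim : ∀ Z ∈ net.loc univ, Tendsto (E · Z) U (𝓝 (S Z))) (hY : Y ∈ net.loc O)
    (hZ : Z ∈ net.loc Oᶜ) : Tendsto (fun p => cv (E p) Y Z) U (𝓝 (cv S Y Z)) :=
  (lim _ (mul_adm hY hZ)).sub ((lim _ (Net.adm hY)).mul (lim _ (Net.adm hZ)))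

theorem nrm_nt (θ : ℝ) : ‖nt θ‖ = 1 := by
  rw [EuclideanSpace.norm_eq]
  simp [nt, Fin.sum_univ_four]

theorem ope_nt (hI : Lg.Inp S) (hR : Lg.Rot S) (hh : Rd h₀) (out : Out S D κ F M T)
    (lim : ∀ Z ∈ net.loc univ, Tendsto (E · Z) U (𝓝 (S Z))) (b : Dt f Z) : ∃ r : ℝ → ℂ, ∀ θ,
      Tendsto (fun q : ℝ × ℕ × ι => M q.1 * cv (E q.2.2) (Yr (hn h₀ (nt θ)) q.1 q.2.1 f) Z - r q.1)
        (Ph U) (𝓝 (κ h₀ * (cos θ ^ 2 * T S 0 0 f Z + sin θ ^ 2 * T S 1 1 f Z +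
          2 * cos θ * sin θ * T S 0 1 f Z))) := by
  obtain ⟨c, -, hc⟩ := out.ope h₀ hh
  refine ⟨fun d => c d * cv S (X f) Z, fun θ => iter (b.sm.mono fun d hd => ?_)
    ((hc S (sub_rfl hI hR) _ (nrm_nt θ) f Z b).trans (le_of_eq ?_))⟩
  · have u := hh.pb (nrm_nt θ)
    have t := iter (f := fun q : ℕ × ι => cv (E q.2) (Yr (hn h₀ (nt θ)) d q.1 f) Z)
      (.of_forall fun e => (cv_lim lim (hd.Yr u e) hd.2.2 :)) (hd.riem hI u)
    dsimp only
    exact (t.const_mul _).sub_const _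
  · congr 2
    simp [nt, Fin.sum_univ_four, out.sym S 1 0]
    ring

theorem ope3 (hI : Lg.Inp S) (hR : Lg.Rot S) (ts : TsS S h₀ D κ F) (out : Out S D κ F M T)
    (lim : ∀ Z ∈ net.loc univ, Tendsto (E · Z) U (𝓝 (S Z))) (b : Dt f Z) :
    Tendsto (fun q : ℝ × ℕ × ι => (M q.1 / (2 * κ h₀) : ℝ) * cv (E q.2.2) (Y3 h₀ 0 q.1 q.2.1 f) Z)
      (Ph U) (𝓝 (T S 0 0 f Z - T S 1 1 f Z)) := by
  obtain ⟨r, h⟩ := ope_nt hI hR ts.rd out lim b
  have k0 : (κ h₀ : ℂ) ≠ 0 := Complex.ofReal_ne_zero.2 ts.ne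
  refine ((((((h 0).add (h (-0))).sub (h (π / 2 - 0))).sub (h (π / 2 + 0))).div_const
    (2 * κ h₀)).congr fun q => ?_).trans (le_of_eq (congrArg 𝓝 ?_))
  · simp only [Y3, t3, cv_add, cv_sub]
    push_cast
    ring
  · simp
    field_simp
    ring

theorem ope6 (hI : Lg.Inp S) (hR : Lg.Rot S) (ts : TsS S h₀ D κ F) (out : Out S D κ F M T)
    (lim : ∀ Z ∈ net.loc univ, Tendsto (E · Z) U (𝓝 (S Z))) (b : Dt f Z) :
    Tendsto (fun q : ℝ × ℕ × ι => (M q.1 / (4 * κ h₀) : ℝ) *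
      cv (E q.2.2) (Y6 h₀ (π / 4) q.1 q.2.1 f) Z) (Ph U) (𝓝 (T S 0 1 f Z)) := by
  obtain ⟨r, h⟩ := ope_nt hI hR ts.rd out lim b
  have k0 : (κ h₀ : ℂ) ≠ 0 := Complex.ofReal_ne_zero.2 ts.ne
  have s2 : ((√2 : ℝ) : ℂ) ^ 2 = 2 := by exact_mod_cast sq_sqrt zero_le_two
  refine ((((((h (π / 4)).sub (h (-(π / 4)))).add (h (π / 2 - π / 4))).sub
    (h (π / 2 + π / 4))).div_const (4 * κ h₀)).congr fun q => ?_).trans (le_of_eq (congrArg 𝓝 ?_))
  · simp only [Y6, t6, cv_add, cv_sub]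
    push_cast
    ring
  · rw [cos_pi_div_two_sub, sin_pi_div_two_sub, add_comm (π / 2), cos_add_pi_div_two,
      sin_add_pi_div_two, cos_neg, sin_neg, cos_pi_div_four, sin_pi_div_four]
    push_cast
    field_simp
    linear_combination (8 * T S 0 1 f Z) * s2

/-- the normalised lattice field converges -/
structure Nm (U : Filter ι) (J : ι → ℕ) (a : ℝ) (V : Ins ι) (ζ : ℝ → ι → ℝ)
    (Λ : (R4 → ℝ) → Pol → ℂ) (α : ι → ℂ) : Prop where
  lim : ∀ f Z, Dt f Z → Tendsto (fun p => V p f Z / α p) U (𝓝 (Λ f Z))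
  low : ∃ R : ℝ → ℝ, Tendsto (fun d => R d * d ^ a) (𝓝[>] 0) (𝓝 0) ∧
    ∀ᶠ d in 𝓝[>] (0 : ℝ), ∀ᶠ p in U, 0 < ζ d p ∧ ζ d p ≤ R d * ‖α p‖
  pos : ∃ c > 0, ∀ᶠ p in U, c * 0.99 ^ J p ≤ ‖α p‖
  up : ∀ᶠ d in 𝓝[>] (0 : ℝ), ∃ K, ∀ᶠ p in U, ‖α p‖ ≤ K * ζ d p

theorem Lk.nm {Y : Let} {N : ℝ → ℝ} (L : Lk U J E a Y V ζ c₀ c c')
    (hN : Tendsto (fun d => |N d| * d ^ a) (𝓝[>] 0) (𝓝 0))
    (hY : ∀ f Z, Dt f Z → Tendsto (fun q : ℝ × ℕ × ι => N q.1 * cv (E q.2.2) (Y q.1 q.2.1 f) Z)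
      (Ph U) (𝓝 (Λ f Z)))
    {k : ℕ} {g : Fin k → R4 → ℝ} (b : Adm (Fin.cons f g : Fin (k + 1) → _)) (ne : Λ f (mon g) ≠ 0) :
    ∃ α, Nm U J a V ζ Λ α := by
  have c0 := L.c0
  set β : ℝ × ℕ × ι → ℝ := fun q => -(N q.1 / c q.1 q.2.1 q.2.2 * (c' q.1 q.2.1 q.2.2 / ζ q.1 q.2.2))
  have h1 : ∀ f Z, Dt f Z → Tendsto (fun q => β q * V q.2.2 f Z) (Ph U) (𝓝 (Λ f Z)) := fun f Z b => by
    suffices h : Tendsto (fun q : ℝ × ℕ × ι => N q.1 * cv (E q.2.2) (Y q.1 q.2.1 f) Z -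
        β q * V q.2.2 f Z) (Ph U) (𝓝 0) by simpa using (hY f Z b).sub h
    obtain ⟨m, w, k, g, g1, rfl⟩ := b.sum
    have := tendsto_finsetSum Finset.univ fun i _ => Tendsto.const_mul (w i)
      (show Tendsto (fun q : ℝ × ℕ × ι => N q.1 * cv (E q.2.2) (Y q.1 q.2.1 f) (mon (g i)) -
        β q * V q.2.2 f (mon (g i))) (Ph U) (𝓝 0) from ?_)
    · rw [Finset.sum_eq_zero fun _ _ => mul_zero _] at this
      refine this.congr fun q => ?_
      simp only [cv_comm _ (Y _ _ _), cv_sum, cv_smul, map_sum, map_smul, smul_eq_mul,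
        Finset.mul_sum, mul_sub, Finset.sum_sub_distrib, mul_left_comm (w _)]
    obtain ⟨K, hK⟩ := L.far _ f _ (g1 i)
    have t := ((hN.const_mul (K / c₀)).comp (Ph.fst (U := U)))
    rw [mul_zero] at t
    refine squeeze_zero_norm' ?_ t
    filter_upwards [Ph.ev hK, Ph.ev L.nrm] with q h1 h2
    have c1 : c q.1 q.2.1 q.2.2 ≠ 0 := abs_pos.1 (c0.trans_le h2.1)
    have c2 := Complex.ofReal_ne_zero.2 c1
    refine le_of_eq_of_le (b := |N q.1| / |c q.1 q.2.1 q.2.2| * ‖_‖) ?_ ((mul_le_mul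
      (div_le_div_of_nonneg_left (abs_nonneg _) c0 h2.1) h1 (norm_nonneg _)
      (by positivity)).trans_eq (by simp only [Function.comp]; ring))
    rw [← abs_div, ← Real.norm_eq_abs, ← Complex.norm_real, ← norm_mul]
    simp only [β]
    push_cast
    field_simp
    ring_nf
  have h2 : Tendsto (fun q => β q * (V q.2.2 f (mon g) / Λ f (mon g))) (Ph U) (𝓝 1) := by
    simpa only [mul_div_assoc, div_self ne] using (h1 f _ (dt_of b)).div_const (Λ f (mon g))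
  have h3 : ∀ᶠ d in 𝓝[>] (0 : ℝ), ∀ᶠ p in U, 0 < ζ d p ∧
      ζ d p ≤ 2 / c₀ * |N d| * ‖V p f (mon g) / Λ f (mon g)‖ := by
    filter_upwards [L.pos, L.nrm.and (ev_Ph.1 (h2.norm.eventually
      (eventually_ge_nhds (show 2⁻¹ < ‖(1 : ℂ)‖ by norm_num))))] with d ⟨c₁, c1, h4⟩ h5
    obtain ⟨e, h5, h6⟩ := (h5.1.and h5.2).exists
    filter_upwards [h4, h5, h6] with p h4 h5 h6
    have z0 : 0 < ζ d p := lt_of_lt_of_le (by positivity) h4
    refine ⟨z0, ?_⟩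
    rw [norm_mul, Complex.norm_real, Real.norm_eq_abs, abs_neg, abs_mul, abs_div, abs_div,
      abs_of_pos z0] at h6
    have := h6.trans (mul_le_mul_of_nonneg_right (mul_le_mul (div_le_div_of_nonneg_left
      (abs_nonneg _) c0 h5.1) (div_le_div_of_nonneg_right h5.2 z0.le) (by positivity)
      (by positivity)) (norm_nonneg _))
    field_simp at this ⊢
    linarith
  refine ⟨fun p => V p f (mon g) / Λ f (mon g), fun u Z e => Ph.out ?_,
    ⟨_, by simpa only [mul_assoc, mul_zero] using hN.const_mul (2 / c₀), h3⟩, ?_, ?_⟩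
  · have := (h1 u Z e).div h2 one_ne_zero
    rw [div_one] at this
    exact this.congr' ((h2.eventually_ne one_ne_zero).mono fun q h =>
      mul_div_mul_left _ _ (left_ne_zero_of_mul h))
  · obtain ⟨d, h4, c₁, c1, h5⟩ := (h3.and L.pos).exists
    refine ⟨c₁ / (2 / c₀ * |N d| + 1), by positivity, (h4.and h5).mono fun p h => ?_⟩
    rw [div_mul_eq_mul_div, div_le_iff₀' (by positivity), add_mul, one_mul]
    exact (h.2.trans h.1.2).trans (le_add_of_nonneg_right (norm_nonneg _))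
  · filter_upwards [L.up _ f g b] with d ⟨K, h⟩
    exact ⟨K / ‖Λ f (mon g)‖, h.mono fun p h => by
      rw [norm_div, div_mul_eq_mul_div]
      exact div_le_div_of_nonneg_right h (norm_nonneg _)⟩

theorem Slow.lim (sl : Slow M) (a0 : 0 < a) (r : ℝ) :
    Tendsto (fun d => |M d / r| * d ^ a) (𝓝[>] 0) (𝓝 0) := by
  have t : Tendsto (fun d : ℝ => |r|⁻¹ * d ^ (a / 2)) (𝓝[>] 0) (𝓝 (|r|⁻¹ * 0 ^ (a / 2))) :=
    (((continuousAt_rpow_const 0 _ (.inr (half_pos a0).le)).tendsto).mono_left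
      nhdsWithin_le_nhds).const_mul _
  rw [zero_rpow (half_pos a0).ne', mul_zero] at t
  refine squeeze_zero_norm' ?_ t
  filter_upwards [sl (a / 2) (half_pos a0), self_mem_nhdsWithin] with d h (d0 : 0 < d)
  rw [Real.norm_of_nonneg (by positivity), abs_div, ← add_halves a, rpow_add d0, add_halves]
  calc _ = |r|⁻¹ * d ^ (a / 2) * (|M d| * d ^ (a / 2)) := by ring
    _ ≤ _ := mul_le_of_le_one_right (by positivity) h

theorem nd3 (ts : TsS S h₀ D κ F) (out : Out S D κ F M T) : ∃ f g,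
    Adm (Fin.cons f g : Fin 3 → _) ∧ T S 0 0 f (mon g) - T S 1 1 f (mon g) ≠ 0 := by
  obtain ⟨f, g, b, ne⟩ := ts.nd
  obtain ⟨d, h, h1, (h2 : 0 < d)⟩ := ((((out.ts 2 le_rfl 0 0 f g b).sub
    (out.ts 2 le_rfl 1 1 f g b)).eventually_ne (sub_ne_zero.2 (Complex.ofReal_injective.ne ne))).and
      (ts.le.and self_mem_nhdsWithin)).exists
  exact ⟨_, _, adm_sc b (h2.trans_le h1), fun e => h (by rw [← mul_sub, e, mul_zero])⟩

theorem nd6 (s : Sub S S) (h4 : ∀ g, Ro.Inv S g) (ts : TsS S h₀ D κ F) (out : Out S D κ F M T) :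
    ∃ f g, Adm (Fin.cons f g : Fin 3 → _) ∧ T S 0 1 f (mon g) ≠ 0 := by
  obtain ⟨f, g, b, ne⟩ := nd3 ts out
  have c := out.cov S s (Ro.rot 0 (π / 4)) (h4 _) f _ (dt_of b)
  refine ⟨fun y => f ((Ro.rot 0 (π / 4)).symm y), fun i y => g i ((Ro.rot 0 (π / 4)).symm y),
    cast (congrArg Adm (funext fun i => ?_)) (Ro.adm_act b (Ro.rot 0 (π / 4))), fun e => ne ?_⟩
  · induction i using Fin.cases <;> rfl
  · rw [c 0 0, c 1 1, Ro.act_mon]
    simp [Fin.sum_univ_four, Ro.rot_apply, Ro.rv, out.sym S 1 0, e]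

theorem cov_sw (s : Sub S S) (h4 : ∀ g, Ro.Inv S g) (out : Out S D κ F M T) (b : Dt f Z)
    (σ : Equiv.Perm (Fin 4)) (μ ν : Fin 4) : T S μ ν f Z = T S (σ μ) (σ ν)
      (fun y => f ((Ro.prm σ).symm y)) (Ro.act (Ro.prm σ) Z) := by
  rw [out.cov S s _ (h4 (Ro.prm σ)) f Z b]
  simp [Ro.prm_apply, PiLp.single_apply, Equiv.symm_apply_eq, apply_ite Complex.ofReal]

theorem jp_lim (s : Sub S S) (h4 : ∀ g, Ro.Inv S g) (out : Out S D κ F M T)
    (lim : ∀ Z ∈ net.loc univ, Tendsto (E · Z) U (𝓝 (S Z)))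
    (n : Nm U J a V ζ (fun f Z => T S 0 0 f Z - T S 1 1 f Z) α) (n' : Nm U J a V' ζ' (T S 0 1) α')
    (b : ∀ μ, Dt (pd μ f) Z) (i : Fin 3) :
    Tendsto (fun p => Jp E V V' p f Z i / ![4 * α p, α' p, 1] i) U (𝓝 (Jv S (T S) f Z i)) := by
  have e : ∀ l : Fin 3, Equiv.swap 1 l.succ 0 = 0 ∧ Equiv.swap 1 l.succ l.succ = 1 := by decide
  fin_cases i
  · have t := (tendsto_finsetSum Finset.univ fun (l : Fin 3) _ =>
      n.lim _ _ ((b 0).act (Ro.prm (Equiv.swap 1 l.succ)))).div_const 4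
    refine (t.congr fun p => ?_).trans (le_of_eq (congrArg 𝓝 ?_))
    · simp only [Jp, Ins.sw, ← Finset.sum_div, div_div, mul_comm]
      rfl
    · have h := out.tr S s _ _ (b 0)
      have h1 := fun l : Fin 3 => cov_sw s h4 out (b 0) (Equiv.swap 1 l.succ) 0 0
      have h2 := fun l : Fin 3 => cov_sw s h4 out (b 0) (Equiv.swap 1 l.succ) l.succ l.succ
      simp only [(e _).1, (e _).2] at h1 h2
      simp only [← h1, ← h2]
      rw [Fin.sum_univ_succ] at h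
      rw [Finset.sum_sub_distrib, eq_neg_of_add_eq_zero_right h]
      simp [Jv]
      ring
  · have t := tendsto_finsetSum Finset.univ fun (l : Fin 3) _ =>
      n'.lim _ _ ((b l.succ).act (Ro.prm (Equiv.swap 1 l.succ)))
    refine (t.congr fun p => ?_).trans (le_of_eq (congrArg 𝓝 ?_))
    · simp only [Jp, Ins.sw, ← Finset.sum_div]
      rfl
    · refine (Finset.sum_congr rfl fun l _ => ?_ : _ = ∑ l : Fin 3, T S l.succ 0 (pd l.succ f) Z)
      rw [cov_sw s h4 out (b _) (Equiv.swap 1 l.succ) l.succ, (e _).1, (e _).2, out.sym S 1 0]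
  · simpa [Jp, Jv] using cv_lim lim (b 0).X (b 0).2

theorem cp_lim {h ξ : R4 → ℝ} {d : ℝ} {al : ι → Fin 3 → ℂ} {T : Tn}
    (lim : ∀ Z ∈ net.loc univ, Tendsto (E · Z) U (𝓝 (S Z)))
    (jp : ∀ f Z, (∀ μ, Dt (pd μ f) Z) → ∀ i,
      Tendsto (fun p => Jp E V V' p f Z i / al p i) U (𝓝 (Jv S T f Z i)))
    (b : Bmp h ξ) (x : Sm d f Z) (e : ℕ) (i : Fin 3) :
    Tendsto (fun p => Cp E V V' h ξ d e p f Z i / al p i) U (𝓝 (Cm S T h ξ d e f Z i)) := by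
  have s : ∀ G : (Fin 4 → ℤ) → ℂ, (Function.support fun x =>
      (((3 ^ e)⁻¹ ^ 4 * f (gp e x) : ℝ) : ℂ) * G x) ⊆ (fin_gp x.2.1 e).toFinset := fun F y hy => by
    simp only [Finite.coe_toFinset, mem_ofPred_eq]
    exact fun e => hy (by simp [e])
  simp only [Cp, Cm, finsum_eq_sum_of_support_subset _ (s _), Finset.sum_div, mul_div_assoc,
    sub_div, mul_div_right_comm _ (E _ _)]
  refine tendsto_finsetSum _ fun y hy => Tendsto.const_mul _ (.sub (jp _ _ ?_ i)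
    (.mul (jp _ _ ?_ i) (lim _ x.dt.adm)))
  · exact ((b.cut x.1 (net.mono x.2.2 (compl_subset_compl.2 ((ball_subset_ball
      (show 2 * d ≤ 3 * d by linarith [x.1])).trans (ball_subset_thickening (subset_tsupport f
        ((fin_gp x.2.1 e).mem_toFinset.1 hy)) _))))).dp (b.mem x.1 _)).pd
  · simpa only [mul_one] using ((b.cut x.1 (net.one _)).dp (b.mem x.1 (gp e y))).pd

theorem sum_le {u v : Fin 3 → ℂ} {r : ℝ} (hu : ‖u‖ = 1) (h : ∀ i, ‖v i‖ ≤ r) :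
    ‖∑ i, u i * v i‖ ≤ 3 * r :=
  (norm_sum_le_of_le _ fun i _ => (norm_mul_le_of_le ((norm_le_pi_norm u i).trans_eq hu)
    (h i)).trans_eq (one_mul r)).trans_eq (by simp)

theorem cc_fin {h ξ : R4 → ℝ} {al : ι → Fin 3 → ℂ} {T : Tn} {R : ℝ → ℝ} [U.NeBot]
    (top : Tendsto J U atTop) (lim : ∀ Z ∈ net.loc univ, Tendsto (E · Z) U (𝓝 (S Z)))
    (jp : ∀ f Z, (∀ μ, Dt (pd μ f) Z) → ∀ i,
      Tendsto (fun p => Jp E V V' p f Z i / al p i) U (𝓝 (Jv S T f Z i)))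
    (hR : Tendsto (fun d => R d * d ^ a) (𝓝[>] 0) (𝓝 0))
    (low : ∀ᶠ d in 𝓝[>] (0 : ℝ), ∀ᶠ p in U, ∀ i, 0 < ![ζ d p, ζ' d p, 1] i ∧
      ![ζ d p, ζ' d p, 1] i ≤ R d * ‖al p i‖)
    (c0 : 0 < c₀) (pos : ∀ᶠ p in U, c₀ * 0.99 ^ J p ≤ ‖al p 1‖)
    (up : ∀ᶠ d in 𝓝[>] (0 : ℝ), ∃ K, ∀ᶠ p in U, ‖al p 1‖ ≤ K * ζ' d p)
    (lat : Lat U J E V V') (b : Bmp h ξ) (ch : Chg U E a V V' ζ ζ' h ξ) : Cc S T h ξ := by
  intro s η η0
  obtain ⟨z, z1, z2⟩ := lat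
  choose c hB K hK using ch
  choose L hL using z2
  refine Eventually.frequently ?_
  filter_upwards [low, up, eventually_all.2 hB, (eventually_all_finset s).2 fun x _ =>
    (dt_of x.ad).sm.and (eventually_all.2 fun i => (hK i x).and ((hR.const_mul (K i x)).eventually
      (eventually_le_nhds (show K i x * 0 < η / 6 by simpa using η0))))] with d low ⟨A, up⟩ hB hK
  refine Eventually.frequently ?_
  filter_upwards [eventually_all.2 hB, (eventually_all_finset s).2 fun x hx =>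
    eventually_all.2 fun i => ((hK x hx).2 i).1] with e hB hC
  choose B hB using hB
  refine ⟨3 * (R d * (A * ∑ i, |B i|)), fun δ δ0 => ?_⟩
  have t : Tendsto (fun p => (1.98 : ℝ) ^ J p) U atTop :=
    (tendsto_pow_atTop_atTop_of_one_lt (by norm_num)).comp top
  obtain ⟨p, ⟨z1, pos, low, up, hB⟩, hp⟩ := ((z1.and (pos.and (low.and (up.and
    (eventually_all.2 hB))))).and ((eventually_all_finset s).2 fun x hx =>
      ((hL x).and (t.eventually_ge_atTop (L x / (δ / 4 * c₀)))).and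
      ((Metric.tendsto_nhds.1 (tendsto_pi_nhds.2 (jp x.f _ (fun μ => dt_of (adm_pd x.ad x.sm μ))))
        (δ / 6) (by positivity)).and (eventually_all.2 fun i => (hC x hx i).and
          (Metric.tendsto_nhds.1 (cp_lim lim jp b (hK x hx).1 e i) (η / 6)
            (by positivity)))))).exists
  set y : Fin 3 → ℂ := fun i => z p i * al p i
  have y1 : 2⁻¹ * (c₀ * 0.99 ^ J p) ≤ ‖y‖ := (mul_le_mul z1 pos (by positivity)
    (norm_nonneg _)).trans ((norm_mul _ _).symm.trans_le (norm_le_pi_norm y 1))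
  have y0 : 0 < ‖y‖ := lt_of_lt_of_le (by positivity) y1
  have u1 := norm_smul_inv_norm (𝕜 := ℂ) (norm_pos_iff.1 y0)
  have l0 : ∀ i, 0 < R d * ‖al p i‖ := fun i => (low i).1.trans_le (low i).2
  have l1 : ∀ i, al p i ≠ 0 := fun i e => by simpa [e] using l0 i
  have l2 : ∀ i, ‖((![ζ d p, ζ' d p, 1] i : ℝ) : ℂ) / al p i‖ ≤ R d := fun i => by
    rw [norm_div, Complex.norm_real, Real.norm_of_nonneg (low i).1.le,
      div_le_iff₀ (norm_pos_iff.2 (l1 i))]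
    exact (low i).2
  have R0 : 0 ≤ R d := (norm_nonneg _).trans (l2 0)
  set u := (‖y‖⁻¹ : ℂ) • y with hu
  refine ⟨u, fun j => ∑ i, u i * ((![ζ d p, ζ' d p, 1] i : ℝ) / al p i * (c i d e p j * al p j)),
    fun x i => Jp E V V' p x.f (mon x.g) i / al p i, u1, sum_le u1 fun i =>
      norm_mul_le_of_le (l2 i) ?_, fun x hx => ?_⟩
  · have A0 : 0 ≤ A := nonneg_of_mul_nonneg_left ((norm_nonneg _).trans up) (low 1).1
    refine (norm_mul_le_of_le le_rfl up).trans ?_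
    rw [mul_left_comm]
    exact mul_le_mul_of_nonneg_left (((hB i).trans (le_abs_self _)).trans
      (Finset.single_le_sum (f := fun i => |B i|) (fun _ _ => abs_nonneg _) (Finset.mem_univ i))) A0
  obtain ⟨⟨h1, h2⟩, h3, h4⟩ := hp x hx
  rw [dist_eq_norm] at h3
  refine ⟨?_, h3.le.trans (by linarith), ?_⟩
  · have h5 := sum_le u1 fun i => (norm_le_pi_norm _ i).trans h3.le
    have h6 : L x / 2 ^ J p ≤ δ / 2 * ‖y‖ := by
      rw [div_le_iff₀ (by positivity), show (1.98 : ℝ) = 0.99 * 2 by norm_num, mul_pow] at h2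
      rw [div_le_iff₀ (by positivity)]
      exact h2.trans ((le_of_eq (by ring)).trans (mul_le_mul_of_nonneg_right
        (mul_le_mul_of_nonneg_left y1 (half_pos δ0).le) (by positivity)))
    have h7 : ‖(‖y‖⁻¹ : ℂ) * ∑ i, z p i * Jp E V V' p x.f (mon x.g) i‖ ≤ δ / 2 := by
      rw [norm_mul, norm_inv, Complex.norm_real, norm_norm, inv_mul_le_iff₀' y0]
      exact h1.trans h6
    refine le_of_eq_of_le (congrArg norm ?_) ((norm_sub_le_of_le h7 h5).trans_eq (by ring))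
    rw [Finset.mul_sum, ← Finset.sum_sub_distrib]
    refine Finset.sum_congr rfl fun i _ => ?_
    have := l1 i
    simp only [hu, Pi.smul_apply, Pi.sub_apply, smul_eq_mul]
    generalize (‖y‖⁻¹ : ℂ) = r
    simp only [y]
    field_simp
    ring
  · refine le_of_eq_of_le (congrArg norm ?_) ((sum_le u1 fun i => norm_sub_le_of_le
      ((norm_mul_le_of_le (l2 i) (h4 i).1).trans ((le_of_eq (by ring)).trans ((hK x hx).2 i).2))
      (dist_eq_norm (E := ℂ) _ _ ▸ (h4 i).2.le)).trans_eq (by ring))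
    simp only [Finset.sum_mul]
    rw [Finset.sum_comm, ← Finset.sum_sub_distrib]
    refine Finset.sum_congr rfl fun i _ => ?_
    have := l1 i
    have := Complex.ofReal_ne_zero.2 (low i).1.ne'
    simp only [mul_assoc, mul_div_cancel₀ _ (l1 _), ← Finset.mul_sum]
    rw [← mul_sub]
    congr 1
    field_simp
    ring

theorem cc_of {C : ℝ} (hI : Lg.Inp S) (hR : Lg.Rot S) (h4 : ∀ g, Ro.Inv S g)
    (ts : TsS S h₀ D κ F) (out : Out S D κ F M T) (fre : Fre F C) (sl : Slow M)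
    (L : CLat U J E S h₀ a V V' ζ ζ') : ∃ h ξ, Bmp h ξ ∧ Cc S (T S) h ξ := by
  obtain ⟨h, ξ, b, ch⟩ := L.chg
  have s := sub_rfl hI hR
  have := L.ne
  obtain ⟨_, _, _, l3⟩ := L.l3
  obtain ⟨_, _, _, l6⟩ := L.l6
  obtain ⟨f, g, f1, f2⟩ := nd3 ts out
  obtain ⟨f', g', f3, f4⟩ := nd6 s h4 ts out
  obtain ⟨α, n⟩ := l3.nm (sl.lim L.a0 _) (fun _ _ => ope3 hI hR ts out L.lim) f1 f2
  obtain ⟨α', n'⟩ := l6.nm (sl.lim L.a0 _) (fun _ _ => ope6 hI hR ts out L.lim) f3 f4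
  obtain ⟨R, r1, r2⟩ := n.low
  obtain ⟨R', r3, r4⟩ := n'.low
  obtain ⟨c, c0, c1⟩ := n'.pos
  have t : Tendsto (fun d : ℝ => d ^ a) (𝓝[>] 0) (𝓝 (0 ^ a)) :=
    (continuousAt_rpow_const 0 _ (.inr L.a0.le)).tendsto.mono_left nhdsWithin_le_nhds
  refine ⟨h, ξ, b, cc_fin (R := fun d => |R d| + |R' d| + 1) L.top L.lim
    (fun _ _ => jp_lim s h4 out L.lim n n') ?_ ?_ c0 c1 n'.up L.lat b ch⟩
  · have := (r1.abs.add r3.abs).add t
    rw [zero_rpow L.a0.ne', abs_zero, add_zero, add_zero] at this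
    refine this.congr' (mem_of_superset self_mem_nhdsWithin fun d (d0 : 0 < d) => ?_)
    simp only [mem_ofPred_eq, abs_mul, abs_of_pos (rpow_pos_of_pos d0 a), add_mul, one_mul]
  · filter_upwards [r2, r4] with d r2 r4
    filter_upwards [r2, r4] with p r2 r4 i
    have := le_abs_self (R d)
    have := le_abs_self (R' d)
    have := abs_nonneg (R d)
    have := abs_nonneg (R' d)
    have := norm_nonneg (α p)
    have := norm_nonneg (α' p)
    fin_cases i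
    · exact ⟨r2.1, r2.2.trans (by simp; nlinarith)⟩
    · exact ⟨r4.1, r4.2.trans (by simp; nlinarith)⟩
    · exact ⟨one_pos, by simp; positivity⟩

end Pool.Agent.Lib.MP_7f377f_mp.Ope
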