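import Pool.Agent.Lib.MP_7f377f_mp.G.CaK
import Pool.Agent.Lib.MP_7f377f_mp.G.CaH3
import Pool.Agent.Lib.MP_7f377f_mp.G.StW1

/-! Fields made of letters at the top. -/

noncomputable section

namespace Pool.Agent.Lib.MP_7f377f_mp.RG.Wd

open Finset Function

theorem Rad.act {R : ℕ} {X : Let} (h : Rad R X) (g : B4) : Rad R (act g X) := fun b hb => by
  classical
  obtain ⟨a, ha, rfl⟩ := mem_image.1 (Finsupp.mapDomain_support hb)
  obtain ⟨r, h1, h2⟩ := h a ha
  exact ⟨r, gv_box g h1, by simpa [Bl.act, Lp.act] using h2⟩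

/-- the letters in a box -/
def RdS (R : ℕ) : Submodule ℂ Let where
  carrier := {X | Rad R X}
  add_mem' a b c h := by
    classical exact (mem_union.1 (Finsupp.support_add h)).elim (a c) (b c)
  zero_mem' _ h := by simp at h
  smul_mem' _ _ a b h := a b (Finsupp.support_smul h)

/-- a product of reflections -/
def rE (ε : Fin 4 → Bool) : B4 := ⟨Function.Involutive.toPerm (fun d => if ε d.1 then fl d else d)
  (fun d => by by_cases h : ε d.1 <;> simp [h, fl]), mem_B4 fun d => by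
    simp only [Function.Involutive.coe_toPerm]
    by_cases h : ε d.1 <;> simp [h, fl]⟩

/-- the sign of a component -/
def sE (ε : Fin 4 → Bool) (o : Option (Fin 4)) : ℝ := o.elim 1 fun m => if ε m then -1 else 1

/-- mirror images -/
def mir (ε : Fin 4 → Bool) (X : Option (Fin 4) → Let) (o : Option (Fin 4)) : Let :=
  (sE ε o : ℂ) • act (rE ε) (X o)

theorem rE_zero : rE 0 = 1 := B4_ext fun _ => rfl

theorem rE_upd (ε : Fin 4 → Bool) (μ : Fin 4) : rE (update ε μ !ε μ) = rf μ * rE ε :=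
  B4_ext fun i => by
    change (if update ε μ (!ε μ) i then _ else _) = (rf μ).1 (if ε i then _ else _)
    by_cases e : i = μ
    · subst e
      cases h : ε i <;> simp [rf_apply, fl]
    · cases h : ε i <;> simp [rf_apply, fl, e, h]

theorem abs_sE (ε : Fin 4 → Bool) (o : Option (Fin 4)) : |sE ε o| = 1 := by
  cases o <;> simp only [sE, Option.elim] <;> (try split_ifs) <;> simp

theorem sE_upd (ε : Fin 4 → Bool) (μ : Fin 4) (o : Option (Fin 4)) :
    sE (update ε μ !ε μ) o * (if o = some μ then -1 else 1) = sE ε o := by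
  rcases o with _ | m
  · simp [sE]
  by_cases e : m = μ
  · subst e
    cases h : ε m <;> simp [sE, h]
  · simp [sE, e]

theorem mir_zero (X : Option (Fin 4) → Let) : mir 0 X = X := funext fun o => by
  cases o <;> simp [mir, sE, rE_zero, act_one]

/-- the real part -/
def reL : Let →ₗ[ℝ] Let := Finsupp.mapRange.linearMap (Complex.ofRealAm.toLinearMap ∘ₗ Complex.reLm)

theorem reL_smul {X : Let} (h : X ∈ Rl) (z : ℂ) : reL (z • X) = (z.re : ℂ) • X := by
  ext b
  refine Complex.ext ?_ ?_ <;> simp [reL, h b]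

theorem cov_OF' (c : Fin 4 → Fin 3 ⊕ Iv → ℝ) : ∃ z : Fin 3 → ℝ, (∀ ρ, |z ρ| ≤ ∑ m, ∑ i, |c m i|) ∧
    cov (fun m => ∑ i, (c m i : ℂ) • OF m i) = ∑ ρ, (z ρ : ℂ) • WW ρ := by
  obtain ⟨z, a, b⟩ := cov_OF fun m i => c m i
  refine ⟨fun ρ => (z ρ).re, fun ρ => (Complex.abs_re_le_norm _).trans (by simpa using a ρ),
    funext fun m => ?_⟩
  have := reL_smul (rl_cov (fun m => Rl.sum_mem fun i (_ : i ∈ univ) =>
    rl_smul (Complex.ofReal_im (c m i)) (rl_OF m i)) m) 1
  rw [one_smul, Complex.one_re, Complex.ofReal_one, one_smul] at this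
  rw [← this, b]
  simp only [Finset.sum_apply, Pi.smul_apply, map_sum, reL_smul (rl_WW _ _)]

/-- the family for the expansion of scalars -/
def OS (i : Fin 3 ⊕ Iv) : Let := OF 0 i - if i = .inl 1 then V1 else 0

theorem rl_OS (i : Fin 3 ⊕ Iv) : OS i ∈ Rl := Rl.sub_mem (rl_OF 0 i) (by
  split_ifs
  exacts [rl_V1, Rl.zero_mem])

theorem avg_top {X : Let} {H : Subgroup B4} {χ : B4 → ℂ} (h : ∀ g ∈ H, χ g = 1) :
    avg ⊤ 1 (avg H χ X) = avg ⊤ 1 X := by
  classical
  have : (Nat.card H : ℂ) ≠ 0 := Nat.cast_ne_zero.2 Nat.card_pos.ne'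
  have e : ∀ g : H, avg ⊤ 1 (χ g • act g X) = avg ⊤ 1 X := fun g => by
    rw [h g g.2]
    exact avg_act (H := ⊤) (χ := 1) (by simp) (Subgroup.mem_top _) X
  rw [avg_apply H, map_smul, map_sum, sum_congr rfl fun g _ => e g, sum_const, card_univ,
    ← Nat.card_eq_fintype_card, ← Nat.cast_smul_eq_nsmul ℂ, inv_smul_smul₀ this]

theorem avg_OS (c : Fin 3 ⊕ Iv → ℂ) : avg ⊤ 1 (∑ i, c i • OS i) = c (.inl 0) • phS := by
  have a : ∀ X : Let, (∀ g, act g X = X) → avg ⊤ 1 X = X := fun X h => avg_fix fun g _ => by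
    rw [h, Pi.one_apply, one_smul]
  have b : avg ⊤ 1 (OT 0) = V1 := by
    have e : ∀ l, avg ⊤ 1 (DG l) = avg ⊤ 1 (OT 0) := fun l => by
      simpa [DG] using avg_act (H := ⊤) (χ := 1) (by simp) (Subgroup.mem_top (pe (.swap 0 l))) (OT 0)
    rw [← a V1 act_V1, V1, map_smul, map_sum]
    simp only [e, Fin.sum_univ_four]
    module
  have e := avg_top (X := ∑ i, c i • OF 0 i) (H := KK 0) (χ := ch 0) fun g h => sg_sq (h 0 (.inl rfl))
  rw [avg_OF] at e
  simp only [OS, smul_sub, sum_sub_distrib, map_sub, ← e, smul_ite, smul_zero, sum_ite_eq', mem_univ,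
    if_true]
  simp [Fin.sum_univ_three, WW, a _ act_phS, a _ act_V1, b]

set_option linter.unusedSectionVars false
variable [Pool.Agent.Lib.MP_7f377f_mp.GD]

open Q4 Q4.En

theorem q0_OS (i : Fin 3 ⊕ Iv) : q0 (q2 (lx (OS i))) = q0 (q2 (lx (OF 0 i))) := by
  funext p p'
  have := sig_V1 p.1 p.2 p'.1 p'.2
  simp only [← A1_eq] at this
  simp only [q0, q2_lx, OS, map_sub, LinearMap.sub_apply]
  split_ifs <;> simp [this]

theorem Tl.inv {X : Let} (h : Tl Ty.T1 X) (g : B4) : act g X = X := by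
  have m : ∀ g k, act g X = X → act k X = X → act (g * k) X = X := fun g k a b => by
    rw [act_mul, b, a]
  refine B4_ind (P := fun g => act g X = X) (fun σ => ?_) (fun i => ?_) m g
  · induction σ using Equiv.Perm.swap_induction_on with
    | one => exact act_one X
    | swap_mul f x y e ih =>
      refine m (pe (.swap x y)) (pe f) ?_ ih
      rcases (by fin_cases x <;> fin_cases y <;> simp [Ty.T1, Ty.sa] at e ⊢ :
        Ty.sw x y false ∈ Ty.T1 ∨ Ty.sw y x false ∈ Ty.T1) with k | k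
      · simpa [Ty.sb, Ty.sw, gn] using h _ k
      · simpa [Ty.sb, Ty.sw, gn, Equiv.swap_comm x] using h _ k
  · simpa [Ty.sb, gn] using h (.inr i, false) (by fin_cases i <;> simp [Ty.T1, Ty.rf])

end Pool.Agent.Lib.MP_7f377f_mp.RG.Wd

set_option linter.unusedSectionVars false
variable [Pool.Agent.Lib.MP_7f377f_mp.GD]

namespace Pool.Agent.Lib.MP_7f377f_mp.RG.Q4.En

open Finset Function Sg Real Pos Filter YM7
open Wd (Let evG lx sm act mir)

/-- fields with letters at the top only -/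
def Vf.top (X : Option (Fin 4) → Let) : Vf Empty Unit Empty :=
  ⟨X, 0, ⟨∅, Empty.elim, Empty.elim, Empty.elim, 0, Empty.elim, fun _ => ∅, Empty.elim, Empty.elim,
    Empty.elim, 0⟩, Empty.elim, Empty.elim, Empty.elim, Empty.elim⟩

/-- the source of a letter is linear -/
def lWL (F : St → ℂ) : Let →ₗ[ℂ] Sx where
  toFun X := lW X F
  map_add' X Y := by ext <;> simp [lW, lS, Wd.evG_add, Wd.lx_add, mul_add]
  map_smul' c X := by ext <;> simp [lW, lS, Wd.evG_smul, Wd.lx_smul, mul_left_comm]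

theorem lW_smul (X : Let) (c : ℂ) (F : St → ℂ) : lW X (c • F) = c • lW X F := by
  ext <;> simp [lW, lS, mul_assoc]

/-- bounded real periodic functions -/
def Tj.B (n : ℕ) (T : Tj) : Prop := ∀ o, PS n (T o) ∧ ∀ x, ‖T o x‖ ≤ 1 ∧ (T o x).im = 0

theorem Tj.B.cl (n e : ℕ) : Tj.Cl n e (Tj.B n) := by
  refine ⟨fun _ h => h, fun T h μ o => ⟨fun x v => ?_, fun x => ?_⟩, fun T h v o =>
    ⟨Wd.ps_tr (h o).1 _, fun _ => (h o).2 _⟩⟩
  · simp only [Tj.rf, ← Wd.gv_rf, Wd.ps_gv (h o).1 _ x v]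
  · have := (h o).2 (update x μ (-x μ))
    unfold Tj.rf
    split_ifs <;> simpa using this

namespace Gl

variable {G : Gl} {b C A N w : ℝ} {I J i j k l d n : ℕ} {ω : ℕ → ℝ} {u : Lx × Ac} {T : Tj}
  {X : Option (Fin 4) → Let}

/-- the direction of a source is linear -/
def xvL (G : Gl) (b : ℝ) (J : ℕ) : Sx →ₗ[ℂ] Lx × Ac where
  toFun := G.xv b J
  map_add' F F' := by simpa using xv_add (F1 := F) (F2 := F') 1
  map_smul' c F := by simp only [xv, xP_smul, xS_smul, Prod.smul_mk, RingHom.id_apply]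

theorem lt_eq (X : Let) (F : St → ℂ) : G.lt b J X F = G.xvL b J (lWL F X) := rfl

theorem top_xv (n : ℕ) : G.xv b J ((Vf.top X).P n T) = ∑ o, G.lt b J (X o) (T o) := by
  change G.xvL b J _ = _
  simp only [Vf.P, Vf.top, Complex.ofReal_zero, zero_smul, add_zero, map_sum]
  rfl

theorem top_Y (n : ℕ) (U : Conf) : (Vf.top X).Y n T U = -∑ o, sm n (X o) (T o) U := by
  simp [Vf.Y, Vf.xO_P, Vf.top]

theorem tn_tn (hl : l ≤ k) (hk : k ≤ i) : G.tn b I (G.tn b I u i k) k l = G.tn b I u i l :=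
  dw_ind (P := fun l => G.tn b I (G.tn b I u i k) k l = G.tn b I u i l) tn_top
    (fun _ a e => by rw [tn_tm a, e, ← tn_tm (a.trans_le hk)]) l hl

theorem top_vr : G.Vr J k fun ε => Vf.top (mir ε X) := fun ε μ T _ => by
  refine ⟨fun U _ => ?_, fun _ _ => rfl⟩
  simp only [top_Y, mir, Wd.rE_upd, Wd.act_mul, Wd.sm_smul, Wd.cf_pb, ← Wd.sE_upd ε μ]
  refine congrArg _ (sum_congr rfl fun o _ => ?_)
  have : (fun x => T.rf μ o (Wd.gv (Wd.rf μ) x)) = (if o = some μ then -1 else 1 : ℂ) • T o := by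
    funext x
    simp [Tj.rf, Wd.gv_rf]
  rw [Wd.sm_act (Wd.rf μ), this, Wd.sm_smul']
  split_ifs <;> simp [Wd.gn]

namespace Ok

variable (h : G.Ok)
include h

theorem top_vO (hk : k ≤ J) (U : Conf) :
    G.vO J k (Vf.top X) T U = -∑ o, sm (G.N J) (X o) (T o) U := by
  have := h.ta_lin hk (P := fun _ => 1) (P' := fun _ => 1) (bc_cont continuous_const)
    (bc_cont continuous_const) (-1)
  simp only [h.ta_one hk, mul_one, add_neg_cancel] at this
  simp [vO, top_Y, show G.vC J k (Vf.top X) T = fun _ => 0 from funext fun _ => by simp [vC], this]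

theorem tn_sum (ω0 : ∀ k, 0 ≤ ω k) (R : G.Run b I j ω) (hi : i ≤ I) {α : Type} (s : Finset α)
    (c : α → ℂ) {u : α → Lx × Ac} (a : ∀ e, ∃ N, G.S1 ω i N (u e)) : ∀ k, j ≤ k → k ≤ i →
      G.tn b I (∑ e ∈ s, c e • u e) i k = ∑ e ∈ s, c e • G.tn b I (u e) i k := fun k h1 h2 => by
  have o := (h.ob_sum R hi s c fun e => h.ob_tn ω0 R hi (a e).choose_spec).2
  simp only [Finset.sum_apply, Pi.smul_apply, Pi.zero_apply, smul_zero, sum_const_zero,
    add_zero] at o
  refine dw_ind (P := fun k => j ≤ k → G.tn b I (∑ e ∈ s, c e • u e) i k =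
    ∑ e ∈ s, c e • G.tn b I (u e) i k) (fun _ => by simp [Gl.tn_top]) (fun k e ih a => ?_) k h2 h1
  rw [o k a e, tn_tm e, ih (by omega)]

/-! ### Numbers -/

theorem QcE (C0 : 0 ≤ C) (hC : C ≤ 10 ^ 100) (hn : n ≤ 120) : ∀ k ≤ i,
    G.Q i ^ n * (C ^ (i - k) * G.cE k i) ≤ G.Q k ^ n :=
  dw_ind (by simp [cE_top]) fun k hk ih => by
    have m := (h.sd_all k (G.top0 0 0)).nu
    have a1 : G.rr k ^ 3 * _ ≤ 1 := m.cs_le (k := 3) (by omega)
    have a2 : 600 * C ≤ G.rr k :=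
      m.cr ((mul_le_mul_of_nonneg_left hC (by norm_num)).trans (by norm_num))
    have a3 := Sd.Nu.cs0 (S := G.sd k (G.top0 0 0))
    have a5 : G.cr k = 2 * (G.rr k * (G.sd k (G.top0 0 0)).cs) := rfl
    have := h.r1 k
    have := h.Q0 k
    generalize (G.sd k (G.top0 0 0)).cs = s at *
    rw [cE_step hk, show i - k = i - (k + 1) + 1 by omega, a5]
    calc _ = 600 * C * G.rr k * s * (G.Q i ^ n * (C ^ (i - (k + 1)) * G.cE (k + 1) i)) := by ring
      _ ≤ G.rr k * G.rr k * s * (G.rr k * G.Q k ^ n) := by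
        have := h.cE0 (k + 1) i
        have := h.Q0 i
        have := ih.trans (h.Qr k hn)
        gcongr ?_ * _ * _ * ?_
      _ = G.rr k ^ 3 * s * G.Q k ^ n := by ring
      _ ≤ _ := mul_le_of_le_one_left (by positivity) a1

theorem Qrt (C0 : 0 ≤ C) (hC : C ≤ 10 ^ 100) (hn : n ≤ 120) : ∀ k ≤ i,
    G.Q i ^ n * C ^ (i - k) ≤ G.Q k ^ n * G.rt i k :=
  dw_ind (by simp [rt_top]) fun k hk ih => by
    have a := h.rL k (C := C) (m := 1) (hC.trans (by norm_num)) (by norm_num)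
    have := h.t0 i (k + 1)
    have := h.r1 k
    have := h.Q0 k
    rw [show i - k = i - (k + 1) + 1 by omega, h.rt_step hk, Nat.cast_mul, pow_succ, ← mul_assoc]
    calc _ ≤ G.rr k * G.Q k ^ n * G.rt i (k + 1) * C := by
          gcongr ?_ * _
          exact ih.trans (by gcongr; exact h.Qr k hn)
      _ = G.Q k ^ n * (C * G.rr k ^ 1 * G.rt i (k + 1)) := by ring
      _ ≤ _ := by gcongr

/-- the last step -/
theorem Qlast (C0 : 0 ≤ C) (hC : C ≤ 10 ^ 100) (hn : n ≤ 118) (hj : j ≤ k) :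
    G.Q (k + 1) ^ n * C ^ (k - j) * G.rt (k + 1) j ≤ G.Q j ^ (n + 2) * G.rt k j ^ 2 := by
  have a := h.Qrt (i := k) C0 hC (show n + 2 ≤ 120 by omega) j hj
  have c : G.Q (k + 1) ^ n ≤ G.Q k ^ (n + 1) :=
    (h.sd_all k (G.top0 0 0)).nu.QM_pow' (show n ≤ 120 by omega)
  have := h.t0 k j
  have := h.Q0 k
  rw [← h.rt_mul hj k.le_succ, h.rt_one, Nat.cast_mul]
  calc _ ≤ G.Q k ^ (n + 1) * C ^ (k - j) * (G.rt k j * G.Q k) := by
        gcongr
        exact h.LQ k
    _ = G.Q k ^ (n + 2) * C ^ (k - j) * G.rt k j := by ring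
    _ ≤ G.Q j ^ (n + 2) * G.rt k j * G.rt k j := by gcongr
    _ = _ := by ring

end Ok

end Gl

end Pool.Agent.Lib.MP_7f377f_mp.RG.Q4.En
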