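import Pool.Agent.Lib.MP_7f377f_mp.G.CaT

/-! Bounds for combinations of letters at the top. -/

noncomputable section

open Pool.Agent.Lib.MP_7f377f_mp.Jet

set_option linter.unusedSectionVars false
variable [Pool.Agent.Lib.MP_7f377f_mp.GD]

namespace Pool.Agent.Lib.MP_7f377f_mp.RG.Q4.En

open Finset Function Sg Real Pos Filter YM7
open Wd (Let evG lx sm mir rE sE)
open Pur (mon)
open scoped Classical

variable {τ : Type} [Fintype τ] {s : τ → Option (Fin 4)} {Y : τ → Let} {c : τ → ℝ}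

/-- combinations of letters -/
def cb (s : τ → Option (Fin 4)) (Y : τ → Let) (c : τ → ℝ) (o : Option (Fin 4)) : Let :=
  ∑ x, if s x = o then (c x : ℂ) • Y x else 0

theorem sum_cb {M : Type} [AddCommGroup M] [Module ℂ M] (L : Option (Fin 4) → Let →ₗ[ℂ] M) :
    ∑ o, L o (cb s Y c o) = ∑ x, (c x : ℂ) • L (s x) (Y x) := by
  simp only [cb, map_sum, apply_ite (L _), map_zero, map_smul]
  rw [sum_comm]
  simp

theorem mir_cb (ε : Fin 4 → Bool) :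
    mir ε (cb s Y c) = cb s (fun x => Wd.act (rE ε) (Y x)) fun x => sE ε (s x) * c x := funext fun o => by
  simp only [mir, cb, map_sum, smul_sum]
  refine sum_congr rfl fun x _ => ?_
  split_ifs with e
  · rw [e, map_smul, smul_smul, Complex.ofReal_mul]
  · simp

theorem sm_cb (n : ℕ) (T : Tj) (U : Conf) :
    ∑ o, sm n (cb s Y c o) (T o) U = ∑ x, c x * sm n (Y x) (T (s x)) U :=
  sum_cb fun o => ⟨⟨fun X => sm n X (T o) U, fun _ _ => Wd.sm_add U⟩, fun c _ => Wd.sm_smul c U⟩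

theorem ltt_sum {d : ℕ} {F : τ → Sx} {y : St} (h : ∀ x, Ltt d ((F x).2.1 y) ((F x).2.2 y))
    (A : Finset τ) : Ltt d ((∑ x ∈ A, F x).2.1 y) ((∑ x ∈ A, F x).2.2 y) :=
  sum_induction F (fun F => Ltt d (F.2.1 y) (F.2.2 y)) (fun _ _ => .add) .zero fun x _ => h x

namespace Gl

variable {G : Gl} {b C w : ℝ} {J j k d : ℕ} {P : Tj → Prop} {N : ℕ → ℝ}

/-- letters which are admissible at the top -/
structure Lf (G : Gl) (b : ℝ) (J d : ℕ) (C : ℝ) (X : Let) : Prop where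
  rad : Wd.Rad d X
  re : Wd.Re X
  bd : ∀ U, ‖evG X U‖ ≤ C
  lr : G.Lr J J 0 (G.om J) C (G.lt b J X)
  sm : Wd.sig X = 0 → G.Lr J J 0 (G.om J) (C * G.g J * G.Q J ^ 280) (G.lt b J X)
  od : Wd.Od X → G.Oi b J J (G.lt b J X 1)

/-- the sizes of a combination along the flow -/
def Pz (G : Gl) (b : ℝ) (J j : ℕ) (P : Tj → Prop) (s : τ → Option (Fin 4)) (Y : τ → Let) (c : τ → ℝ)
    (N : ℕ → ℝ) : Prop := ∀ T, P T → ∀ l, j ≤ l → l ≤ J →
  G.S1 G.om l (N l) (∑ x, (c x : ℂ) • G.tn b J (G.lt b J (Y x) (T (s x))) J l)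

theorem Ok.vk_cb (h : G.Ok) (R : G.Run b J j G.om) (hJ : k + 1 = J) (hj : j ≤ k) (w0 : 0 < w)
    (hd : d ≤ (G.p k).R) (hY : ∀ x, G.Lf b J d C (Y x)) (hP : ∀ T, P T → Tj.B (G.N J) T)
    (h1 : (∑ x, |c x|) * C ≤ N J) (h2 : G.Pz b J j P s Y c N)
    (h3 : ∀ l, j ≤ l → l ≤ k → N l ≤ w * G.rt l j ^ 2) (h4 : N J ≤ w * G.rt k j ^ 2) :
    G.Vk b J k j 1 d 0 0 (fun _ => 1) P (Vf.top (cb s Y c)) w := by
  have ω0 := fun k => (h.om0 k).le
  have e : ∀ T, (Vf.top (cb s Y c)).P (G.N J) T = ∑ x, (c x : ℂ) • lW (Y x) (T (s x)) := fun T => by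
    simp only [Vf.P, Vf.top, Complex.ofReal_zero, zero_smul, add_zero]
    exact sum_cb fun o => lWL (T o)
  have a : ∀ T, P T → ∀ l, j ≤ l → l ≤ J → ∀ M, N l ≤ M → G.S1 (fun l => (G.Q l ^ 100)⁻¹) l M
      (G.tn b J (G.xv b J ((Vf.top (cb s Y c)).P (G.N J) T)) J l) := fun T t l h5 h6 M hM => by
    rw [e, show G.xv b J = G.xvL b J from rfl, map_sum]
    simp only [map_smul]
    rw [h.tn_sum ω0 R le_rfl _ _ (u := fun x => G.xvL b J (lW (Y x) (T (s x)))) (fun x => ⟨_, h.lop_sz ω0 le_rfl (hY x).lr.lop (hP T t _).1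
      fun y => ((hP T t _).2 y).1⟩) l h5 h6]
    exact h.sz_le (h2 T t l h5 h6) (ω0 l) hM hM (inv_anti₀ (pow_pos (h.Q0 l) _)
      (pow_le_pow_right₀ (h.Q1 l) (by norm_num)))
  have p : 0 ≤ w * G.rt k j ^ 2 := by positivity
  have q : N J ≤ w * G.rt k j ^ 2 * 2 ^ (J - k) :=
    h4.trans (le_mul_of_one_le_right p (one_le_pow₀ one_le_two))
  have z : Sx.Ok (G.p J) d 0 0 0 := ⟨fun _ _ _ => norm_zero.le, fun _ => .zero, fun _ _ => norm_zero.le,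
    _, _, _, pm_zero (h.ρ0 J)⟩
  have cl : ∀ n r Z, Cls n r (univ : Finset Unit) id Z := fun _ _ _ _ _ _ _ e => absurd rfl e
  refine ⟨w0, ⟨by omega, le_rfl, le_rfl, hd, h.cQ k (by norm_num), fun i _ _ => ⟨one_le_two,
      h.cQ i (by norm_num), one_pos, fun _ => one_pos, fun _ => by norm_num⟩, nofun, nofun,
      fun _ _ _ => ⟨rfl, rfl, rfl⟩, nofun, fun _ => ⟨⟨0, 0, z, by simp [(h.b0 J).le, div_nonneg], by simp⟩,
        fun i _ _ => ⟨0, by simp [(h.b0 i).le], ?_⟩⟩, nofun, ⟨cl _ _ _, fun _ _ _ => cl _ _ _⟩,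
      ⟨(h.Q0 k).le, nofun⟩, nofun⟩, ⟨0, fun _ => by simp [Vf.top], by simpa using p⟩, fun o => ⟨?_, ?_⟩,
    fun T t => ⟨0, N J, ⟨?_, ?_, fun y U => le_trans ?_ h1, ?_⟩, by simpa using q⟩,
    ⟨nofun, fun _ => ⟨id, Set.bijOn_id _, nofun⟩, nofun⟩, nofun, nofun, fun _ _ _ => by simpa using p,
    fun T t l h5 h6 => a T t l (by omega) h6 _ ((by omega : J = l) ▸ q), fun T t l h5 h6 => ?_⟩
  · rw [(by omega : i = J), Gl.tn_top]
    exact (show G.xv b J 0 = 0 from map_zero (G.xvL b J)).symm ▸ h.sz_zero J _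
  · exact (Wd.RdS d).sum_mem fun x _ => by
      split_ifs
      exacts [(Wd.RdS d).smul_mem _ (hY x).rad, zero_mem _]
  · exact Wd.Rl.sum_mem fun x _ => by
      split_ifs
      exacts [Wd.rl_smul rfl (hY x).re, zero_mem _]
  · simp [e, Prod.fst_sum, lW, lS]
  · exact fun y => e T ▸ ltt_sum (fun x => ((ltt_ev (hY x).rad).smul _).smul _) _
  · simp only [e, Prod.fst_sum, Prod.snd_sum, Finset.sum_apply, sum_mul]
    refine norm_sum_le_of_le _ fun x _ => ?_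
    change ‖c x * (T (s x) y * evG (Y x) U)‖ ≤ _
    rw [norm_mul, Complex.norm_real, ← one_mul C]
    exact mul_le_mul_of_nonneg_left (norm_mul_le_of_le ((hP T t _).2 y).1 ((hY x).bd U)) (abs_nonneg _)
  · have := (a T t J (by omega) le_rfl _ le_rfl).1
    rw [Gl.tn_top, xv, xP, show ((Vf.top (cb s Y c)).P (G.N J) T).1 = 0 by
      simp [e, Prod.fst_sum, lW, lS], sL_zero, zero_add] at this
    exact ⟨_, _, _, this⟩
  · rw [show G.vT b J k _ T = G.tn b J (G.xv b J ((Vf.top (cb s Y c)).P (G.N J) T)) J k by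
      simp [vT, Vf.top], tn_tn h6 (by omega)]
    exact a T t l h5 (by omega) _ (h3 l h5 h6)

/-- weights for one small field and fifteen mirror images -/
theorem Ok.wts {B : ℝ} (h : G.Ok) (hj : j ≤ k) (hJ : k + 1 = J) (B0 : 0 < B) : ∃ w > (0 : ℝ),
    ∃ W > (0 : ℝ), w * W ^ 15 ≤ (4 * B * G.Q j ^ 10 / 2 ^ (J - j)) ^ 16 ∧ (∀ l, j ≤ l → l < J →
      B * G.Q J ^ 10 * G.cE l J * G.rt l j ≤ w * G.rt l j ^ 2 ∧
      B * G.Q J ^ 7 * 2 ^ (J - l) * G.rt l j ≤ W * G.rt l j ^ 2) ∧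
    B * G.Q J ^ 10 * G.cE J J * G.rt J j ≤ w * G.rt k j ^ 2 ∧
    B * G.Q J ^ 7 * 2 ^ (J - J) * G.rt J j ≤ W * G.rt k j ^ 2 := by
  subst hJ
  have q := h.Q1 j
  have q' := h.Q0 (k + 1)
  have t := fun l => h.t0 l j
  obtain ⟨K, hK⟩ : ∃ K : ℝ, K = 2 ^ 31 := ⟨_, rfl⟩
  have K1 : 1 ≤ K := by norm_num [hK]
  have K2 : K ≤ 10 ^ 100 := by norm_num [hK]
  refine ⟨B * K * G.Q j ^ 117 / (K ^ (k + 1 - j) * G.Q (k + 1) ^ 105), by positivity,
    B * G.Q j ^ 2 * G.Q (k + 1) ^ 7 * 2 ^ (k + 1 - j), by positivity, ?_, fun l h1 h2 => ⟨?_, ?_⟩, ?_, ?_⟩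
  · rw [hK, ← pow_mul, mul_comm 31, pow_mul]
    generalize (2 : ℝ) ^ (k + 1 - j) = x, (by positivity : 0 < (2 : ℝ) ^ (k + 1 - j)) = x0
    calc _ = 2 ^ 31 * G.Q j ^ 147 * (B / x) ^ 16 := by field_simp
      _ ≤ 4 ^ 16 * G.Q j ^ 160 * (B / x) ^ 16 := by gcongr <;> norm_num
      _ = _ := by ring
  · have a := h.QcE (n := 115) (i := k + 1) (by linarith) K2 (by norm_num) l h2.le
    have b := h.Qrt (n := 115) (i := l) (by linarith) K2 (by norm_num) j h1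
    have := t l
    have := h.cE0 l (k + 1)
    rw [div_mul_eq_mul_div, le_div_iff₀ (by positivity), show k + 1 - j = k + 1 - l + (l - j) by omega]
    calc _ = B * G.rt l j * (G.Q (k + 1) ^ 115 * (K ^ (k + 1 - l) * G.cE l (k + 1)) * K ^ (l - j)) := by
          ring
      _ ≤ B * G.rt l j * (1 * G.Q j ^ 115 * G.rt l j) := by
          gcongr _ * ?_
          exact (mul_le_mul_of_nonneg_right a (by positivity)).trans (by rwa [one_mul])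
      _ ≤ B * G.rt l j * (K * G.Q j ^ 117 * G.rt l j) := by gcongr; norm_num
      _ = _ := by ring
  · have := t l
    calc _ = B * 1 * G.Q (k + 1) ^ 7 * 2 ^ (k + 1 - l) * G.rt l j ^ 1 := by ring
      _ ≤ _ := by gcongr; exacts [one_le_pow₀ q, one_le_two, one_le_two]
  · have a := h.Qlast (n := 115) (by linarith) K2 (by norm_num) hj
    rw [div_mul_eq_mul_div, le_div_iff₀ (by positivity), show k + 1 - j = k - j + 1 by omega, cE_top]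
    calc _ = B * K * (G.Q (k + 1) ^ 115 * K ^ (k - j) * G.rt (k + 1) j) := by ring
      _ ≤ B * K * (G.Q j ^ 117 * G.rt k j ^ 2) := by gcongr
      _ = _ := by ring
  · have a := h.Qlast (n := 0) zero_le_one (by norm_num) (by norm_num) hj
    calc _ = B * G.Q (k + 1) ^ 7 * 1 * (G.Q (k + 1) ^ 0 * 1 ^ (k - j) * G.rt (k + 1) j) := by simp
      _ ≤ B * G.Q (k + 1) ^ 7 * 2 ^ (k + 1 - j) * (G.Q j ^ 2 * G.rt k j ^ 2) := by
          gcongr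
          exact one_le_pow₀ one_le_two
      _ = _ := by ring

/-- the growth of a combination -/
theorem Ok.pz_up {a : ℝ} {r : Prop} (h : G.Ok) (t : G.Tu b J) (hp : G.Pu) (R : G.Run b J j G.om)
    (C0 : 0 < C) (hY : ∀ x, G.Lf b J d C (Y x)) (ha : a * 3 ^ G.e J = 1)
    (hc : ∀ x, (Wd.Od (Y x) ∨ s x ≠ none) ∧ |c x| * a ≤ G.Q J ∨ |c x| ≤ G.Q J ^ 7) :
    ∑ x, |c x| ≤ Fintype.card τ * (G.Q J ^ 7 * 3 ^ G.e J) ∧ G.Pz b J j (Tj.Nm (G.N J) a r) s Y c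
      fun l => Fintype.card τ * (2 * C * G.Q J ^ 7 * 2 ^ (J - l) * 3 ^ G.e l) := by
  have ω0 := fun k => (h.om0 k).le
  have q := h.Q1 J
  have q7 : G.Q J ≤ G.Q J ^ 7 := le_self_pow₀ q (by norm_num)
  have a0 : 0 < a := (mul_pos_iff_of_pos_right (by positivity)).1 (ha.symm ▸ one_pos)
  have e1 : ∀ l, (1 : ℝ) ≤ 3 ^ G.e l := fun l => one_le_pow₀ (by norm_num)
  have p : ∀ x, |c x| ≤ G.Q J ^ 7 * 3 ^ G.e J := fun x => (hc x).elim (fun e => by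
      rw [← mul_one |c x|, ← ha, ← mul_assoc]; gcongr; exact e.2.trans q7)
      fun e => e.trans (le_mul_of_one_le_right (by positivity) (e1 J))
  refine ⟨by simpa using sum_le_card_nsmul univ _ _ fun x _ => p x, fun T n l h1 h2 => ?_⟩
  suffices H : ∀ x, G.S1 G.om l (2 * C * G.Q J ^ 7 * 2 ^ (J - l) * 3 ^ G.e l)
      ((c x : ℂ) • G.tn b J (G.lt b J (Y x) (T (s x))) J l) by
    simpa using h.s1_sum univ fun x _ => H x
  intro x
  have := e1 l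
  have g : ∀ a' > (0 : ℝ), (∀ y, ‖T (s x) y‖ ≤ a') → |c x| * a' ≤ G.Q J ^ 7 → G.S1 G.om l
      (2 * C * G.Q J ^ 7 * 2 ^ (J - l) * 3 ^ G.e l)
      ((c x : ℂ) • G.tn b J (G.lt b J (Y x) (T (s x))) J l) := fun a' _ b1 b2 => by
    refine h.s1_mono ω0 (h.s1_smul (h.tn_grow ω0 R le_rfl
      (h.lop_sz ω0 le_rfl (hY x).lr.lop (n.bd _).1 b1) (by positivity) l h1 h2) _) ?_
    calc _ = 1 * C * (|c x| * a') * 1.01 ^ (J - l) * 1 := by rw [Complex.norm_real, norm_eq_abs]; ring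
      _ ≤ _ := by gcongr <;> norm_num
  obtain ⟨o, e⟩ | e := hc x
  · rcases hx : s x with _ | m
    · refine h.s1_mono ω0 (h.s1_smul (h.upv t hp R le_rfl C0 (hY x).lr (Nat.zero_le _)
        ((hY x).od (o.resolve_right fun e => e hx)) (n.bd _).1 (fun y => ((n.bd _).2 y).1) n.lip a0
        l h1 h2) _) ?_
      have := h.t0 J l
      have r : 1 / (G.rt J l : ℝ) = a * 3 ^ G.e l := by
        rw [div_eq_iff (by linarith), ← ha, ← h.rt_e h2]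
        ring
      calc _ = (3 ^ G.e l + 1) * C * (G.Q J ^ 6 * (|c x| * a)) * 2 ^ (J - l) := by
            rw [Complex.norm_real, norm_eq_abs, r, rt_top]; ring
        _ ≤ (2 * 3 ^ G.e l) * C * (G.Q J ^ 6 * G.Q J) * 2 ^ (J - l) := by gcongr; linarith
        _ = _ := by ring
    · exact hx ▸ g a a0 (hx ▸ n.bd' m) (e.trans q7)
  · exact g 1 one_pos (fun y => ((n.bd _).2 y).1) (by rwa [mul_one])

theorem lf_ex (hr : ∀ x, Wd.Re (Y x)) (C0 : ℝ) : ∃ d, ∃ C ≥ (1 : ℝ), C0 ≤ C ∧ ∀ (G : Gl) b J, G.Ok → G.Tu b J →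
    d ≤ (G.p J).R → C ≤ G.Q J → ∀ x, G.Lf b J d C (Y x) := by
  obtain ⟨d, hd⟩ : ∃ d, ∀ x, Wd.Rad d (Y x) := by
    choose d hd using fun x => Wd.exists_rad (Y x)
    exact ⟨univ.sup d, fun x => (hd x).mono (le_sup (mem_univ x))⟩
  choose A A0 hA using fun x => lr_let (hd x) (hr x)
  choose M hM using fun x => Wd.evG_bd (Y x)
  have p : ∀ x, 0 ≤ M x := fun x => (norm_nonneg _).trans (hM x 1)
  have q : ∀ x, A x + M x ≤ ∑ x, (A x + M x) := fun x =>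
    single_le_sum (f := fun x => A x + M x) (fun x _ => by linarith [p x, A0 x]) (mem_univ x)
  have r : 0 ≤ ∑ x, (A x + M x) := sum_nonneg fun x _ => by linarith [p x, A0 x]
  have := abs_nonneg C0
  refine ⟨d, ∑ x, (A x + M x) + 1 + |C0|, by linarith, by linarith [le_abs_self C0],
    fun G b J h t h1 h2 x => ?_⟩
  have e : A x ≤ ∑ x, (A x + M x) + 1 + |C0| := by linarith [p x, q x]
  obtain ⟨a1, a2, -, a4⟩ := hA x G b J h t h1 (e.trans h2)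
  have := h.g0 J
  have := h.Q0 J
  exact ⟨hd x, hr x, fun U => by linarith [hM x U, q x, A0 x], a1.mono h (h.om0 J).le e,
    fun z => (a2 z).mono h (h.om0 J).le (by gcongr), a4⟩

variable {β : ℕ × ℕ → ℝ} (h : G.Oks) (hβ : G.Tus β)
include h hβ

/-- the letters are admissible along the runs -/
theorem Oks.lf (hr : ∀ x, Wd.Re (Y x)) (C0 : ℝ) : ∃ d, ∃ C ≥ (1 : ℝ), C0 ≤ C ∧ ∀ᶠ j in atTop, C ≤ G.L j ∧
    ∀ p : ℕ × ℕ, j < p.2 → d ≤ (G.p (p.2 - 1)).R ∧ (G.wm p.1).Run (β p) p.2 j G.om ∧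
      ∀ x, (G.wm p.1).Lf (β p) p.2 d C (Y x) := by
  obtain ⟨d, C, C1, C2, H⟩ := lf_ex hr C0
  have o := (h 0).1
  obtain ⟨k0, R⟩ := o.runs
  obtain ⟨j0, h0⟩ := eventually_atTop.1 ((o.L_nat.eventually_ge_atTop d).and
    (o.L_top.eventually_ge_atTop C))
  have r : ∀ k ≥ j0, d ≤ (G.p k).R := fun k e => by
    have : (G.wm 0).L k ≤ (G.wm 0).D0 k := by exact_mod_cast o.LD k
    have := (h0 k e).1
    change _ ≤ 4 * (G.wm 0).D0 k
    omega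
  refine ⟨d, C, C1, C2, ?_⟩
  filter_upwards [eventually_ge_atTop j0, eventually_ge_atTop k0] with j h1 h2
  exact ⟨(h0 j h1).2, fun p e => ⟨r _ (by omega), R _ (h p.1).1 (h p.1).2 _ _ _ h2 (hβ p) 280
    (by norm_num) (by norm_num), H _ _ _ (h p.1).1 (hβ p) (r _ (by omega))
      ((h0 _ (by omega)).2.trans (o.LQ _))⟩⟩

section
variable {e t n : ℕ} {g : Fin n → R4 → ℝ} (hg : Adm g) {c₀ : Fin 4 → ℤ} {u : Fin n → Fin 4 → ℤ}
  (hu : Injective u) (h0 : ∀ i, u i ≠ c₀) (hs : ∀ i y, g i y ≠ 0 → ∀ l,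
    u i l * (3 ^ e)⁻¹ + (3 ^ (e + t))⁻¹ ≤ y l ∧ y l ≤ (u i l + 1) * (3 ^ e)⁻¹ - (3 ^ (e + t))⁻¹)
include hg hu h0 hs

theorem Oks.fb_cb (hr : ∀ x, Wd.Re (Y x)) (s : τ → Option (Fin 4)) : ∃ d, ∃ C ≥ (1 : ℝ),
    ∀ᶠ j in atTop, ∃ Λ, ∀ᶠ p in L6.fast, j < p.2 ∧ (G.wm p.1).Run (β p) p.2 j G.om ∧
      (∀ γ x, (G.wm p.1).Lf (β p) p.2 d C (Wd.act γ (Y x))) ∧
      ∀ (c : τ → ℝ) (P : Tj → Prop) (T : Tj) (N : (Fin 4 → Bool) → ℕ → ℝ) (w : (Fin 4 → Bool) → ℝ) η,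
        Tj.Cl (G.nn p) (G.rt p.2 (p.2 - 1)) P → P T →
        T.In (G.nn p) (G.aa p) (3 ^ e)⁻¹ (3 ^ (e + t))⁻¹ c₀ → (∀ ε, 0 < w ε ∧
          (∑ x, |c x|) * C ≤ N ε p.2 ∧ (G.wm p.1).Pz (β p) p.2 j P s (fun x => Wd.act (rE ε) (Y x))
            (fun x => sE ε (s x) * c x) (N ε) ∧
          (∀ l, j ≤ l → l < p.2 → N ε l ≤ w ε * G.rt l j ^ 2) ∧
          N ε p.2 ≤ w ε * G.rt (p.2 - 1) j ^ 2) → 0 ≤ η → ∏ ε, w ε ≤ η ^ 16 →
        ‖G.vI β p (fun U => ∑ x, c x * sm (G.nn p) (Y x) (T (s x)) U) (mon g)‖ ≤ Λ * η := by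
  obtain ⟨d, C, C1, -, H⟩ := h.lf hβ (Y := fun x : Wd.B4 × τ => Wd.act x.1 (Y x.2))
    (fun x => Wd.rl_act _ (hr _)) 0
  refine ⟨d, C, C1, ?_⟩
  filter_upwards [H, h.fb (Ω := Empty) (κ := Unit) (α := Empty) hβ e t hg hu h0 hs]
    with j ⟨_, H⟩ ⟨Λ, F⟩
  refine ⟨Λ, ?_⟩
  filter_upwards [F, (tendsto_snd.mono_left L6.fast_le).eventually_gt_atTop j] with p F hj
  obtain ⟨hd, R, L⟩ := H p hj
  refine ⟨hj, R, fun γ x => L (γ, x), fun c P T N w η a1 a2 a3 a4 a5 a6 => ?_⟩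
  have := (F (p.2 - 1) (by omega) (by omega) (fun ε => Vf.top (mir ε (cb s Y c))) w P T η 1 d 0 0
    (fun _ => 1) a1 a2 a3 (fun ε => by
      obtain ⟨b1, b2, b3, b4, b5⟩ := a4 ε
      rw [mir_cb]
      exact (h p.1).1.vk_cb R (by omega) (by omega) b1 hd (fun x => L (_, x)) a1.bd
        (by simpa only [abs_mul, Wd.abs_sE, one_mul] using b2) b3
        (fun l h1 h2 => b4 l h1 (by omega)) b5) top_vr a5 a6).1
  rwa [funext ((h p.1).1.top_vO (by omega)), vI_neg, LinearMap.neg_apply, norm_neg, Wd.mir_zero,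
    funext (sm_cb _ T)] at this

/-- any letter -/
theorem Oks.one {X : Let} (hr : Wd.Re X) : ∃ K, ∀ᶠ p in L6.fast, ∀ F : St → ℂ,
    Tj.B (G.nn p) (fun _ => F) → Tj.In (G.nn p) (G.aa p) (3 ^ e)⁻¹ (3 ^ (e + t))⁻¹ c₀ (fun _ => F) →
    G.aa p * ‖G.vI β p (sm (G.nn p) X F) (mon g)‖ ≤ K / 2 ^ p.2 := by
  obtain ⟨d, C, C1, H⟩ := h.fb_cb hβ hg hu h0 hs (Y := fun _ : Unit => X) (fun _ => hr) fun _ => none
  obtain ⟨j, Λ, H⟩ := H.exists
  refine ⟨|Λ| * C * 4 ^ j, H.mono fun p ⟨hj, R, L, H⟩ F a1 a2 => ?_⟩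
  have o := (h p.1).1
  have ω0 := fun k => (o.om0 k).le
  have q : ∀ l k, j ≤ l → C * 2 ^ (p.2 - l) ≤ C * 2 ^ (p.2 - j) * G.rt k j ^ 2 := fun l k a =>
    le_trans (by gcongr; norm_num) (le_mul_of_one_le_right (by positivity) (one_le_pow₀ (o.t0 _ _)))
  have := H (fun _ => 1) _ _ (fun _ l => C * 2 ^ (p.2 - l)) (fun _ => C * 2 ^ (p.2 - j)) (C * 2 ^ (p.2 - j))
    (Tj.B.cl _ _) a1 a2 (fun ε => ⟨by positivity, by simp, fun T b l h1 h2 => by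
      simpa [sE] using o.s1_mono ω0 (o.tn_grow ω0 R le_rfl (o.lop_sz ω0 le_rfl (L _ ()).lr.lop
        (b none).1 fun x => ((b none).2 x).1) (by linarith) l h1 h2)
        (show _ ≤ C * 2 ^ (p.2 - l) by rw [one_mul, mul_comm]; gcongr; norm_num),
      fun l h1 _ => q l l h1, q _ _ hj.le⟩) (by positivity) (by simp)
  simp only [univ_unique, sum_singleton, Complex.ofReal_one, one_mul] at this
  have a : G.aa p * 4 ^ (p.2 - j) ≤ 1 := by
    have b := o.Qrt (i := p.2) (n := 0) (C := 4) (by norm_num) (by norm_num) (by norm_num) j hj.le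
    rw [aa, inv_mul_le_iff₀ (by positivity), mul_one, ← show _ = (3 : ℝ) ^ G.e p.2 from o.rt_e hj.le]
    exact le_trans (by simpa using b)
      (le_mul_of_one_le_right (Nat.cast_nonneg _) (one_le_pow₀ (by norm_num)))
  have := G.aa_pos p
  obtain ⟨m, hm⟩ := Nat.exists_eq_add_of_le hj.le
  rw [le_div_iff₀ (by positivity)]
  calc _ ≤ G.aa p * (|Λ| * (C * 2 ^ (p.2 - j))) * (2 ^ (p.2 - j) * 4 ^ j) := by
        gcongr
        · exact ‹_ ≤ Λ * _›.trans (by gcongr; exact le_abs_self _)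
        · rw [hm, Nat.add_sub_cancel_left, pow_add, mul_comm]
          gcongr
          norm_num
    _ = |Λ| * C * 4 ^ j * (G.aa p * 4 ^ (p.2 - j)) := by
        rw [show (4 : ℝ) ^ (p.2 - j) = 2 ^ (p.2 - j) * 2 ^ (p.2 - j) by rw [← mul_pow]; norm_num]
        ring
    _ ≤ _ := mul_le_of_le_one_right (by positivity) a

end

omit h hβ in
theorem cel_cons {k e t : ℕ} {f : R4 → ℝ} {g : Fin k → R4 → ℝ}
    (a : Adm (Fin.cons f g : Fin (k + 1) → _)) (c : Ope.Cel e t (Fin.cons f g : Fin (k + 1) → _)) :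
    ∃ (c₀ : Fin 4 → ℤ) (u : Fin k → Fin 4 → ℤ), Adm g ∧ Injective u ∧ (∀ i, u i ≠ c₀) ∧
      (∀ i y, g i y ≠ 0 → ∀ l, u i l * (3 ^ e)⁻¹ + (3 ^ (e + t))⁻¹ ≤ y l ∧
        y l ≤ (u i l + 1) * (3 ^ e)⁻¹ - (3 ^ (e + t))⁻¹) ∧
      ∀ y, f y ≠ 0 → ∀ l, c₀ l * (3 ^ e)⁻¹ + (3 ^ (e + t))⁻¹ ≤ y l ∧
        y l ≤ (c₀ l + 1) * (3 ^ e)⁻¹ - (3 ^ (e + t))⁻¹ :=
  let ⟨u, h1, h2⟩ := c
  ⟨u 0, fun i => u i.succ, ⟨fun i => a.1 i.succ, fun _ _ e => a.2 ((Fin.succ_injective _).ne e)⟩,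
    h1.comp (Fin.succ_injective _), fun i => h1.ne i.succ_ne_zero, fun i => h2 i.succ, h2 0⟩

/-- combinations which are small along the flow -/
theorem Oks.small {r : Prop} {m : ℕ∞} (hm : r → 2 ≤ m) (hr : ∀ x, Wd.Re (Y x))
    {c : ℕ × ℕ → τ → ℝ} {j0 : ℕ} {B : ℝ} (H : ∀ᶠ p in L6.fast, (∀ x, (Wd.Od (Y x) ∨ s x ≠ none) ∧
      |c p x| * G.aa p ≤ G.Q p.2 ∨ |c p x| ≤ G.Q p.2 ^ 7) ∧ (G.wm p.1).Pz (β p) p.2 j0
        (Tj.Nm (G.nn p) (G.aa p) r) s Y (c p) fun l => B * G.Q p.2 ^ 10 * G.cE l p.2 * 3 ^ G.e l) :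
    OnA m fun _ f g => ∃ K, ∀ᶠ p in L6.fast, ‖G.vI β p (fun U => ∑ x, c p x *
      sm (G.nn p) (Y x) (jet (G.nn p) (G.aa p) f (s x)) U) (mon g)‖ ≤ K / 2 ^ p.2 := by
  intro k t e f g a1 a2 a3
  obtain ⟨c₀, u, hg, hu, h0, hs, hf⟩ := cel_cons a1 a3
  obtain ⟨d, C, C1, F⟩ := h.fb_cb hβ hg hu h0 hs hr s
  obtain ⟨j, ⟨Λ, F⟩, hj⟩ := (F.and (eventually_ge_atTop j0)).exists
  obtain ⟨A, A0, nm⟩ := h.jet_nm (r := r) (a1.1 0).1 (a1.1 0).2 fun e => a2.of_le (WithTop.coe_le_coe.2 (hm e))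
  obtain ⟨B', hB⟩ : ∃ B', B' = (|B| + Fintype.card τ * (2 * C) + 1) * 3 ^ G.e j := ⟨_, rfl⟩
  have B0 : 0 < B' := by rw [hB]; positivity
  refine ⟨A * (Λ * (4 * B' * G.Q j ^ 10 * 2 ^ j)), ?_⟩
  filter_upwards [F, H, nm.filter_mono L6.fast_le] with p ⟨h1, R, L, F⟩ ⟨h2, h3⟩ nm
  obtain ⟨o, pu⟩ := h p.1
  have ω0 := fun k => (o.om0 k).le
  obtain ⟨w, w0, W, W0, a, b, c1, c2⟩ := o.wts (k := p.2 - 1) (J := p.2) (j := j) (by omega) (by omega) B0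
  have u := fun ε => o.pz_up (r := r) (s := s) (c := fun x => sE ε (s x) * c p x) (hβ p) pu R
    (by linarith) (L (rE ε)) (a := G.aa p) (inv_mul_cancel₀ (by positivity)) fun x => by
      rw [abs_mul, Wd.abs_sE, one_mul]
      exact (h2 x).imp_left (And.imp_left (Or.imp_left (·.act _)))
  have q : 1 ≤ G.Q p.2 := o.Q1 _
  have qj : 0 < G.Q j := o.Q0 _
  have r : ∀ l, j ≤ l → (3 : ℝ) ^ G.e l = G.rt l j * 3 ^ G.e j := fun l e => (o.rt_e e).symm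
  have v : ∀ l, j ≤ l → Fintype.card τ * (2 * C * G.Q p.2 ^ 7 * 2 ^ (p.2 - l) * 3 ^ G.e l) ≤
      B' * G.Q p.2 ^ 7 * 2 ^ (p.2 - l) * G.rt l j := fun l e => by
    rw [r l e, hB]
    calc _ = Fintype.card τ * (2 * C) * 3 ^ G.e j * G.Q p.2 ^ 7 * 2 ^ (p.2 - l) * G.rt l j := by ring
      _ ≤ _ := by gcongr; linarith [abs_nonneg B]
  have z : (∑ x, |c p x|) * C ≤ B' * G.Q p.2 ^ 7 * 2 ^ (p.2 - p.2) * G.rt p.2 j := by
    have := (u 0).1
    simp only [abs_mul, Wd.abs_sE, one_mul] at this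
    refine le_trans ?_ (v _ h1.le)
    calc _ ≤ Fintype.card τ * (G.Q p.2 ^ 7 * 3 ^ G.e p.2) * (2 * C) := by gcongr; exacts [this, by linarith]
      _ = _ := by simp; ring
  have := F (c p) _ _ (fun ε l => if ε = 0 then B' * G.Q p.2 ^ 10 * G.cE l p.2 * G.rt l j else
      B' * G.Q p.2 ^ 7 * 2 ^ (p.2 - l) * G.rt l j) (fun ε => if ε = 0 then w else W)
    (4 * B' * G.Q j ^ 10 / 2 ^ (p.2 - j)) nm_cl nm
    (jet_in (G.nn_odd p) fun y e => hf y (right_ne_zero_of_mul e)) (fun ε => by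
      split_ifs with e
      · refine ⟨w0, z.trans ?_, fun T n l h4 h5 => ?_, fun l h4 h5 => (b l h4 h5).1, c1⟩
        · rw [cE_top, Nat.sub_self, pow_zero]
          gcongr
          norm_num
        · simp only [e, Wd.rE_zero, Wd.act_one, show ∀ o, sE 0 o = 1 by rintro (_ | _) <;> rfl, one_mul]
          refine o.s1_mono ω0 (h3 T n l (hj.trans h4) h5) ?_
          have : 0 < G.cE l p.2 := o.cE0 _ _
          rw [hB]
          simp only [r l h4]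
          calc _ = B * 3 ^ G.e j * G.Q p.2 ^ 10 * G.cE l p.2 * G.rt l j := by ring
            _ ≤ _ := by
              gcongr
              linarith [le_abs_self B, show 0 ≤ Fintype.card τ * (2 * C) by positivity]
      · exact ⟨W0, z, fun T n l h4 h5 => o.s1_mono ω0 ((u ε).2 T n l h4 h5) (v l h4),
          fun l h4 h5 => (b l h4 h5).2, c2⟩) (by positivity) (by
      rw [Fintype.prod_eq_mul_prod_compl 0, if_pos rfl,
        prod_congr rfl fun ε e => if_neg (by simpa using e), prod_const, card_compl]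
      simpa using (show _ ≤ (4 * B' * G.Q j ^ 10 / 2 ^ (p.2 - j)) ^ 16 from a))
  simp only [jet_smul, Pi.smul_apply, Wd.sm_smul', mul_left_comm _ ((A⁻¹ : ℝ) : ℂ), ← mul_sum,
    vI_smul, LinearMap.smul_apply, norm_smul, Complex.norm_real, norm_inv, norm_of_nonneg A0.le,
    inv_mul_le_iff₀ A0] at this
  refine this.trans_eq ?_
  rw [pow_sub₀ _ two_ne_zero h1.le]
  field_simp

end Gl

end Pool.Agent.Lib.MP_7f377f_mp.RG.Q4.En
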