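import Pool.Agent.Lib.MP_7f377f_mp.G.CmT

/-! Composite fields: the short distance law of the types. -/

noncomputable section

namespace Pool.Agent.Lib.MP_7f377f_mp.Cm
variable [Pool.Agent.Lib.MP_7f377f_mp.GD]
set_option linter.unusedSectionVars false

open MeasureTheory Filter Topology Set Real YM7 Pur MvPolynomial Lg
open Ope (Let gp sc ctr)
open Ro (Iso act)
open Wm (C1)
open Lb (Lab Pl Cl rho mx ip pc frL freeL Sep)
open RG.Q4.En.Ty (Gn Ty sb Det)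
open scoped NNReal

/-- telescoping with geometric decay -/
theorem tele {S : Pol →ₗ[ℂ] ℂ} (hS : net.St S) {F : Filter ℕ} {P : ℕ → ℕ → Pol} {v : ℕ → ℝ}
    {n₀ : ℕ} {b R : ℝ} (R0 : 0 ≤ R) (b1 : b < 1) (v0 : ∀ n, 0 ≤ v n)
    (hv : ∀ n ≥ n₀, v (n + 1) ≤ b * v n)
    (h : ∀ n ≥ n₀, ∀ᶠ e in F, net.QB S (P (n + 1) e - P n e) R (v n)) {n n' : ℕ} (hn : n₀ ≤ n)
    (hn' : n ≤ n') : ∀ᶠ e in F, net.QB S (P n' e - P n e) R (v n / (1 - b)) := by
  have b2 : 0 < 1 - b := by linarith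
  have key : ∀ᶠ e in F, net.QB S (P n' e - P n e) R ((v n - v n') / (1 - b)) := by
    induction n', hn' using Nat.le_induction with
    | base => exact Eventually.of_forall fun e => by simpa using Net.QB.zero R0
    | succ m hm ih =>
      filter_upwards [ih, h m (hn.trans hm)] with e h1 h2
      have h3 := h2.add hS h1
      rw [sub_add_sub_cancel] at h3
      refine h3.mono hS le_rfl ?_
      rw [le_div_iff₀ b2, add_mul, div_mul_cancel₀ _ b2.ne']
      linarith [hv m (hn.trans hm)]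
  filter_upwards [key] with e he
  exact he.mono hS le_rfl (div_le_div_of_nonneg_right (by linarith [v0 n']) b2.le)

theorem geo_lim {v : ℕ → ℝ} {n₀ : ℕ} {b : ℝ} (b0 : 0 ≤ b) (b1 : b < 1) (v0 : ∀ n, 0 ≤ v n)
    (hv : ∀ n ≥ n₀, v (n + 1) ≤ b * v n) : Tendsto v atTop (𝓝 0) := by
  have h1 : ∀ m, v (m + n₀) ≤ b ^ m * v n₀ := fun m => by
    induction m with
    | zero => simp
    | succ m ih =>
      rw [Nat.add_right_comm, pow_succ', mul_assoc]
      exact (hv _ (Nat.le_add_left _ _)).trans (mul_le_mul_of_nonneg_left ih b0)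
  rw [← tendsto_add_atTop_iff_nat n₀]
  refine squeeze_zero (fun m => v0 _) h1 ?_
  simpa using (tendsto_pow_atTop_nhds_zero_of_lt_one b0 b1).mul_const (v n₀)

theorem dn_pos (n : ℕ) : 0 < dn n := by unfold dn; positivity

theorem dn_succ (n : ℕ) : dn (n + 1) = dn n * 2⁻¹ := by unfold dn; rw [pow_succ, mul_inv]

theorem dn_anti {n n' : ℕ} (h : n ≤ n') : dn n' ≤ dn n :=
  inv_anti₀ (by positivity) (pow_le_pow_right₀ one_le_two h)

theorem dn_ceil {x : ℝ} (hx : 1 ≤ x) :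
    dn ⌈logb 2 x⌉₊ ≤ x⁻¹ ∧ (2 * x)⁻¹ ≤ dn ⌈logb 2 x⌉₊ := by
  have x0 : 0 < x := by linarith
  have e : (2 : ℝ) ^ logb 2 x = x := rpow_logb two_pos (by norm_num) x0
  constructor
  · refine inv_anti₀ x0 ?_
    rw [← rpow_natCast]
    exact e.symm.le.trans (rpow_le_rpow_of_exponent_le one_le_two (Nat.le_ceil _))
  · refine inv_anti₀ (by positivity) ?_
    rw [← rpow_natCast]
    refine (rpow_le_rpow_of_exponent_le one_le_two
      (Nat.ceil_lt_add_one (logb_nonneg one_lt_two hx)).le).trans ?_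
    rw [rpow_add two_pos, e, rpow_one, mul_comm]

variable {S : Pol →ₗ[ℂ] ℂ} {K Λ δ a : ℝ} {h : R4 → ℝ} {ω : ∀ l : Cl, (Fin l.m → R4) → Lab ℝ}
  {Tp : Type} [Fintype Tp] {cl : Tp → Cl} {ref : Tp → Lab ℝ} {T : Tp → Ty} {β : Cl → Tp}
  {lam : Tp → ℕ → ℝ}

theorem Pn_eq {j : ℕ} (τ : Fin j → Tp) (c : Fin j → Lab ℝ) (f : Fin j → R4 → ℝ) (D : ℝ) (n e : ℕ) :
    Pn cl h ω S lam τ c f D n e = ((∏ i, lam (τ i) n : ℝ) : ℂ) •
      ∏ i, Yc h ω S (cl (τ i)) (dn n) e (cx (c i)) (sc D (f i)) := by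
  simp only [Pn, Yn, Finset.prod_smul, Complex.ofReal_prod]

variable (cl ref h ω S lam a) in
/-- the cluster bounds along a selection of ratios -/
def Tc (k : ℕ) (ρ : ℝ → ℝ) : Prop := Tendsto ρ (𝓝[>] 0) atTop ∧ (∀ᶠ D in 𝓝[>] (0 : ℝ), ρ D ≤ D⁻¹) ∧
    Tsc S (fun D r => r = ρ D) ∧ ∀ j ≤ k, ∀ f : Fin j → R4 → ℝ, Adm f →
      ∀ (τ : Fin j → Tp) (c : Fin j → Lab ℝ), (∀ i, c i ∈ Vs (ref (τ i))) → ∀ η > 0, ∀ᶠ D in 𝓝[>] (0 : ℝ), ∃ R, ∀ n, dn n ≤ D / ρ D →
        ∀ᶠ e in UU, net.QB S ((lg cl τ D : ℂ) • (Pn cl h ω S lam τ c f D (n + 1) e -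
          Pn cl h ω S lam τ c f D n e)) R (η * (ρ D * dn n / D) ^ a * ∏ i, lam (τ i) n) ∧
        (D / (4 * ρ D) ≤ dn n → net.QB S ((lg cl τ D : ℂ) • ctr S (Pn cl h ω S lam τ c f D n e)) R
          (η * ∏ i, lam (τ i) n))

variable (hS : Sf S K) (H : Dat (GD.d / 2) h ω Λ δ) (Y : Tys cl ref (GD.d / 2) T β)
include hS H Y

theorem Tel.aft' {K' : ℝ} (t : Tel cl ref h ω S lam K' a) {k : ℕ} {ρ : ℝ → ℝ}
    (u : Tc S a h ω cl ref lam k ρ) : Aft cl ref h ω S lam k fun D => ⌈logb 2 (ρ D / D)⌉₊ := by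
  obtain ⟨hρ, hle, hT, hc⟩ := u
  have st := hS.inp.st
  have top : Tendsto (fun D => ⌈logb 2 (ρ D / D)⌉₊) (𝓝[>] 0) atTop :=
    tendsto_nat_ceil_atTop.comp ((tendsto_logb_atTop one_lt_two).comp
      (hρ.atTop_mul_atTop₀ tendsto_inv_nhdsGT_zero))
  have win : ∀ᶠ D in 𝓝[>] (0 : ℝ), D ∈ Ioo (0 : ℝ) 1 ∧ 1 ≤ ρ D ∧
      dn ⌈logb 2 (ρ D / D)⌉₊ ≤ D / ρ D ∧ D / (2 * ρ D) ≤ dn ⌈logb 2 (ρ D / D)⌉₊ := by
    filter_upwards [Ioo_mem_nhdsGT one_pos, hρ.eventually_ge_atTop 1] with D hD h1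
    have := dn_ceil (x := ρ D / D) ((one_le_div hD.1).2 (hD.2.le.trans h1))
    rw [inv_div, ← mul_div_assoc, inv_div] at this
    exact ⟨hD, h1, this⟩
  refine ⟨top, ?_, fun j hj f hf τ c hcv η η0 => ?_⟩
  · filter_upwards [win, hle] with D ⟨hD, h1, _, h3⟩ h4
    refine le_trans ?_ h3
    rw [div_le_div_iff₀ two_pos (by linarith)]
    have : D * ρ D ≤ 1 := by
      simpa [mul_inv_cancel₀ hD.1.ne'] using mul_le_mul_of_nonneg_left h4 hD.1.le
    nlinarith [hD.1]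
  set q : ℝ := 2⁻¹ ^ a
  have q0 : 0 < q := rpow_pos_of_pos (by norm_num) _
  have q1 : q < 1 := rpow_lt_one (by norm_num) (by norm_num) t.a0
  set b : ℝ := (1 + q) / 2 with hb
  have b0 : 0 < b := by positivity
  have b1 : b < 1 := by linarith
  have b2 : 0 < 1 - b := by linarith
  set L : ℕ → ℝ := fun n => ∏ i, lam (τ i) n
  have L0 : ∀ n, 0 < L n := fun n => Finset.prod_pos fun i _ => t.pos _ _
  have hL : ∀ᶠ n in atTop, L (n + 1) * q ≤ b * L n := by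
    have h1 : Tendsto (fun n => L (n + 1) / L n) atTop (𝓝 1) := by
      simpa [L, Finset.prod_div_distrib] using
        tendsto_finset_prod (s := Finset.univ) (fun i _ => t.rat (τ i))
    filter_upwards [h1.eventually_le_const (u := b / q) ((one_lt_div q0).2 (by linarith))] with n hn
    rwa [div_le_div_iff₀ (L0 n) q0] at hn
  obtain ⟨n₁, hn₁⟩ := eventually_atTop.1 hL
  have η1 : 0 < η * (1 - b) / 3 := by positivity
  filter_upwards [win, top.eventually_ge_atTop n₁, hc j hj f hf τ c hcv _ η1,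
    ts_sm H hT (fun M => (hρ.eventually_ge_atTop M).mono fun D hD r e => e ▸ hD)
      (fun i => cl (τ i)) c hf (η := η / 3) (by positivity)] with D ⟨hD, h1, w1, w2⟩ h2 ⟨R, hR⟩ h3
  set n₀ := ⌈logb 2 (ρ D / D)⌉₊
  have D0 := hD.1
  have r0 : 0 < ρ D := by linarith
  have w3 : D / (4 * ρ D) ≤ dn n₀ :=
    (div_le_div_of_nonneg_left D0.le (by positivity) (by linarith)).trans w2
  have R0 : 0 ≤ R := (hR n₀ w1).exists.choose_spec.1.2.1
  have l0 : 0 < lg cl τ D := pow_pos (log_pos ((one_lt_inv₀ D0).2 hD.2)) _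
  set v : ℕ → ℝ := fun n => η * (1 - b) / 3 * (ρ D * dn n / D) ^ a * L n with hv
  have x0 : ∀ n, 0 < ρ D * dn n / D := fun n => by have := dn_pos n; positivity
  have v0 : ∀ n, 0 ≤ v n := fun n =>
    mul_nonneg (mul_nonneg η1.le (rpow_nonneg (x0 n).le _)) (L0 n).le
  have v1 : ∀ n ≥ n₀, v (n + 1) ≤ b * v n := fun n hn => by
    have e : (ρ D * dn (n + 1) / D) ^ a = (ρ D * dn n / D) ^ a * q := by
      rw [← mul_rpow (x0 n).le (by norm_num), dn_succ]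
      congr 1
      ring
    have := mul_le_mul_of_nonneg_left (hn₁ n (h2.trans hn))
      (mul_nonneg η1.le (rpow_nonneg (x0 n).le a))
    simp only [hv, e]
    linarith
  have tl : ∀ {n n'}, n₀ ≤ n → n ≤ n' → ∀ᶠ e in UU, net.QB S ((lg cl τ D : ℂ) •
      (Pn cl h ω S lam τ c f D n' e - Pn cl h ω S lam τ c f D n e)) R (v n / (1 - b)) :=
    fun hn hn' => by
      simp only [smul_sub]
      refine tele st (P := fun n e => (lg cl τ D : ℂ) • Pn cl h ω S lam τ c f D n e) R0 b1 v0 v1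
        (fun m hm => ?_) hn hn'
      filter_upwards [hR m ((dn_anti hm).trans w1)] with e he
      simpa only [smul_sub] using he.1
  refine ⟨R, fun n hn => ?_, fun ε ε0 => ?_⟩
  · filter_upwards [tl le_rfl hn, hR n₀ w1, UU_le (h3 _ rfl (fun _ => dn n₀) fun _ => ⟨w3, w1⟩)]
      with e a1 a2 a3
    have a4 := (((a1.add st (a2.2 w3)).smul (((L n₀)⁻¹ : ℝ) : ℂ))).add st (qb_C st R0 _) |>.mono st
      le_rfl (add_le_add le_rfl a3)
    have l1 : ((L n₀ : ℝ) : ℂ) ≠ 0 := Complex.ofReal_ne_zero.2 (L0 n₀).ne'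
    convert a4.mono st le_rfl (c' := η) ?_ using 1
    · simp only [Vs_pc (Y.cls _) (hcv _)]
      have e : S (Pn cl h ω S lam τ c f D n₀ e) = (L n₀ : ℂ) *
          S (∏ i, Yc h ω S (cl (τ i)) (dn n₀) e (cx (c i)) (sc D (f i))) := by
        rw [Pn_eq, map_smul, smul_eq_mul]
      rw [ctr, e, ← smul_add, sub_add_sub_cancel, smul_smul, smul_sub, map_sub, smul_eq_C_mul (C _),
        ← map_mul, show ∀ z : ℂ, (((L n₀)⁻¹ : ℝ) : ℂ) * lg cl τ D * (L n₀ * z) = lg cl τ D * z from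
          fun z => by push_cast; field_simp, ← Complex.ofReal_mul, inv_mul_eq_div]
      exact (sub_add_sub_cancel _ _ _).symm
    · have : (ρ D * dn n₀ / D) ^ a ≤ 1 :=
        rpow_le_one (x0 _).le (by
          rw [div_le_one D0]
          simpa [mul_comm] using (le_div_iff₀ r0).1 w1) t.a0.le
      have v2 : v n₀ / (1 - b) ≤ η / 3 * L n₀ := by
        rw [div_le_iff₀ b2]
        have := mul_le_mul_of_nonneg_right (mul_le_mul_of_nonneg_left this η1.le) (L0 n₀).le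
        simp only [hv]
        linarith
      have v3 : η * (1 - b) / 3 * L n₀ ≤ η / 3 * L n₀ :=
        mul_le_mul_of_nonneg_right (by nlinarith) (L0 n₀).le
      rw [Complex.norm_real, Real.norm_of_nonneg (inv_pos.2 (L0 n₀)).le]
      have : (L n₀)⁻¹ * (v n₀ / (1 - b) + η * (1 - b) / 3 * L n₀) ≤ 2 * η / 3 := by
        rw [inv_mul_le_iff₀ (L0 n₀)]
        linarith
      linarith
  · have h4 := (geo_lim b0.le b1 v0 v1).eventually_le_const
      (u := ε * lg cl τ D * (1 - b)) (by positivity)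
    filter_upwards [h4, eventually_ge_atTop n₀] with n h5 hn n' hn'
    filter_upwards [tl hn hn'] with e he
    have := he.smul (((lg cl τ D)⁻¹ : ℝ) : ℂ)
    rw [smul_smul, ← Complex.ofReal_mul, inv_mul_cancel₀ l0.ne', Complex.ofReal_one, one_smul,
      Complex.norm_real, Real.norm_of_nonneg (inv_pos.2 l0).le] at this
    refine this.mono st le_rfl ?_
    rw [inv_mul_le_iff₀ l0, div_le_iff₀ b2]
    linarith

theorem Tel.aft {K' : ℝ} (t : Tel cl ref h ω S lam K' a) (k : ℕ) :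
    ∃ n₀, Aft cl ref h ω S lam k n₀ := (t.clu k).elim fun _ u => ⟨_, t.aft' hS H Y u⟩

end Pool.Agent.Lib.MP_7f377f_mp.Cm
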