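import Pool.Agent.Lib.MP_7f377f_mp.G.LbT

/-! The frame of the labels. -/

noncomputable section

namespace Pool.Agent.Lib.MP_7f377f_mp.Lb

set_option linter.unusedSectionVars false

open Finset Matrix YG
open RG.Q4.En.Ty (Gn Ty sb mv sn nm os mvs gd Det T1 T1' T3 T6 T2 T6' T2')
open scoped Kronecker

/-- the weights of the resolution -/
def Tp.n : Tp → ℕ
  | .s => 2 | .q => 8 | .t3 => 9 | .t6 => 72 | .w2 => 6 | .w6 => 72 | .w2p => 24

theorem odd_zero {f : Pl → ℤ} (h : ∀ x, f x.swap = -f x) (h' : ∀ x : Pl, x.1 < x.2 → f x = 0) (x : Pl) :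
    f x = 0 := by
  rcases lt_trichotomy x.1 x.2 with a | a | a
  · exact h' x a
  · have := h x
    rw [show x.swap = x from Prod.ext a.symm a] at this
    omega
  · simpa using (h x).symm.trans (h' x.swap a)

/-- the ordered planes -/
def P6 : List Pl := [(0, 1), (0, 2), (0, 3), (1, 2), (1, 3), (2, 3)]

theorem mem6 : ∀ x : Pl, x.1 < x.2 → x ∈ P6 := by decide

theorem frame_int (x y u v : Pl) : ∑ τ : Tp, (τ.n : ℤ) * ∑ σ, orb τ σ x y * orb τ σ u v =
    576 * el x y u v := by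
  have a : ∀ τ σ (x y : Pl), (orb τ σ : Lab ℤ) x.swap y = -orb τ σ x y := fun τ σ x y => by
    simp only [orb_apply]; exact ref_sw (K := ℤ) τ (mv (.inl σ) x) _
  have b : ∀ τ σ (x y : Pl), (orb τ σ : Lab ℤ) x y.swap = -orb τ σ x y := fun τ σ x y => by
    simp only [orb_apply]; exact ref_sw' (K := ℤ) τ _ (mv (.inl σ) y)
  have c : ∀ x y u v : Pl, (el x y : Lab ℤ) u v.swap = -el x y u v := fun x y u v => by
    rw [← el_tr]; exact el_sw ..
  rw [← sub_eq_zero]
  refine odd_zero (f := fun x => ∑ τ : Tp, (τ.n : ℤ) * ∑ σ, orb τ σ x y * orb τ σ u v -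
    576 * el x y u v) (fun x => by simp [a, el_swap]; ring) (fun x hx => ?_) x
  refine odd_zero (f := fun y => ∑ τ : Tp, (τ.n : ℤ) * ∑ σ, orb τ σ x y * orb τ σ u v -
    576 * el x y u v) (fun x => by simp [b, el_swap']; ring) (fun y hy => ?_) y
  refine odd_zero (f := fun u => ∑ τ : Tp, (τ.n : ℤ) * ∑ σ, orb τ σ x y * orb τ σ u v -
    576 * el x y u v) (fun x => by simp [a, el_sw]; ring) (fun u hu => ?_) u
  refine odd_zero (f := fun v => ∑ τ : Tp, (τ.n : ℤ) * ∑ σ, orb τ σ x y * orb τ σ u v -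
    576 * el x y u v) (fun x => by simp [b, c]; ring) (fun v hv => ?_) v
  have : ∀ x ∈ P6, ∀ y ∈ P6, ∀ u ∈ P6, ∀ v ∈ P6, ∑ τ : Tp, (τ.n : ℤ) * ∑ σ, ref τ (mv (.inl σ) x)
      (mv (.inl σ) y) * ref τ (mv (.inl σ) u) (mv (.inl σ) v) - 576 * el x y u v = 0 := by
    decide +kernel
  simp only [orb_apply]
  exact this x (mem6 x hx) y (mem6 y hy) u (mem6 u hu) v (mem6 v hv)

variable {K : Type} [Field K] [CharZero K] {c : Lab K}

theorem sw_of (h : pa c = c) (x y : Pl) : c x.swap y = -c x y := by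
  have := an_mul c x y
  rw [← h, an_pa, h] at this
  linear_combination 2 * this

theorem tr_of (h : pa c = c) : cᵀ = c := by rw [← h, pa_tr]

theorem sw_of' (h : pa c = c) (x y : Pl) : c x y.swap = -c x y := by
  rw [← tr_of h]
  exact sw_of h ..

theorem pa_iff : pa c = c ↔ cᵀ = c ∧ ∀ x y, c x.swap y = -c x y :=
  ⟨fun h => ⟨tr_of h, sw_of h⟩, fun h => pa_of h.1 (by ext x y; rw [an_mul, h.2]; ring)⟩

theorem pa_ref (τ : Tp) : pa (ref τ : Lab K) = ref τ := pa_iff.2 ⟨ref_tr τ, ref_sw τ⟩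

theorem ref_s : (ref .s : Lab K) = (4 : K) • an := by
  have : ∀ x y, (ref .s : Lab ℤ) x y = 2 * wv y x := by decide +kernel
  ext x y
  simp only [ref_cast (K := K), this, an, wv, Matrix.smul_apply, of_apply, smul_eq_mul]
  push_cast
  ring

theorem ref_q : (ref .q : Lab K) = (2 : K) • hs := by
  have : ∀ x y, (ref .q : Lab ℤ) x y = eps x.1 x.2 y.1 y.2 := by decide +kernel
  ext x y
  simp [ref_cast (K := K), this, hs]

theorem ref_ne (τ : Tp) : (ref τ : Lab K) τ.e.1 τ.e.2 ≠ 0 := by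
  have : ∀ τ : Tp, (ref τ : Lab ℤ) τ.e.1 τ.e.2 ≠ 0 := by decide +kernel
  simpa [ref_cast (K := K)] using this τ

theorem hs_mul (h : pa c = c) (x y : Pl) : (hs * c : Lab K) x y = c (du x) y := by
  have : ∀ x a : Pl, eps x.1 x.2 a.1 a.2 = wv (du x) a := by decide +kernel
  simp [hs, mul_apply, this, wv, mul_assoc, ← mul_sum, sub_mul, sw_of h]
  ring

theorem hs_conj (h : pa c = c) (x y : Pl) : (hs * c * hs : Lab K) x y = c (du x) (du y) := by
  have : ∀ x a : Pl, eps a.1 a.2 x.1 x.2 = wv (du x) a := by decide +kernel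
  rw [mul_apply]
  simp only [hs_mul h]
  simp [hs, this, wv, mul_left_comm _ (2⁻¹ : K), ← mul_sum, mul_sub, sw_of' h]
  ring

theorem pc_ref (l : Cl) (τ : Tp) : pc l (ref τ : Lab K) = if τ.cl = l then ref τ else 0 := by
  have h1 : ∀ τ x y, (ref τ : Lab ℤ) (du x) (du y) = (if τ.cl = .t then -1 else 1) * ref τ x y := by
    decide +kernel
  have h2 : ∀ τ, ip (ref .s : Lab ℤ) (ref τ) = (if τ = .s then 96 else 0) ∧
      ip (ref .q : Lab ℤ) (ref τ) = if τ = .q then 24 else 0 := by decide +kernel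
  have h3 : ∀ τ τ', ip (ref τ : Lab K) (ref τ') = (ip (ref τ : Lab ℤ) (ref τ') : ℤ) := fun τ τ' => by
    simp only [ip, ref_cast (K := K), Int.cast_sum, Int.cast_mul]
  have a : (hs * ref τ * hs : Lab K) = (if τ.cl = .t then -1 else 1 : K) • ref τ := by
    ext x y
    simp [hs_conj (pa_ref τ), ref_cast (K := K), h1]
  have b : (an : Lab K) = (4⁻¹ : K) • ref .s := by rw [ref_s, smul_smul]; simp
  have b' : (hs : Lab K) = (2⁻¹ : K) • ref .q := by rw [ref_q, smul_smul]; simp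
  cases l <;> simp only [pc, pa_ref, a] <;> (try simp only [b, b', smul_ip, h3, h2]) <;> cases τ <;>
    simp [Tp.cl] <;> module

/-- the projection onto a type -/
def pt (τ : Tp) : Lab K →ₗ[K] Lab K := mk τ.k ∘ₗ pcL τ.cl

theorem pt_eq (τ : Tp) : pt τ c = mk τ.k (pc τ.cl c) := rfl

theorem pt_ref (τ τ' : Tp) : pt τ (ref τ' : Lab K) = if τ' = τ then ref τ' else 0 := by
  have : ∀ τ τ' : Tp, τ' = τ ↔ τ'.cl = τ.cl ∧ τ'.k = τ.k := by decide
  simp only [pt_eq, pc_ref, apply_ite (mk τ.k), mk_ref, map_zero, this τ, ite_and]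

theorem pt_rho (τ : Tp) (g : Gn) : pt τ (rho (gm g) c) = rho (gm g) (pt τ c) := by
  rw [pt_eq, pc_rho (gm_orth g), mk_rho, pt_eq]

theorem pt_pa (τ : Tp) : pt τ (pa c) = pt τ c := by rw [pt_eq, pc_pa, pt_eq]

theorem frame (c : Lab K) :
    pa c = ∑ τ : Tp, (τ.n / 4608 : K) • ∑ σ, ip (orb τ σ) c • orb τ σ := by
  ext u v
  have a : ∀ x y, ∑ τ : Tp, (τ.n : K) * ∑ σ, orb τ σ x y * orb τ σ u v = 576 * el x y u v :=
    fun x y => by
    have := congrArg (Int.cast (R := K)) (frame_int x y u v)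
    simpa only [orb_apply, ref_cast (K := K), el_cast (K := K), Int.cast_sum, Int.cast_mul,
      Int.cast_natCast, Int.cast_ofNat] using this
  have b : pa c u v = ∑ x, ∑ y, c x y / 4608 * (576 * el x y u v) := by
    simp [pa, an_mul, mul_an, sy, el, ou, wv, mul_add, mul_sub, sub_mul, sum_add_distrib, eq_comm (a := u),
      eq_comm (a := v), Prod.swap_eq_iff_eq_swap]
    ring
  simp only [b, ← a, Matrix.sum_apply, Matrix.smul_apply, smul_eq_mul, ip, mul_sum, sum_mul]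
  rw [sum_comm]
  refine (sum_congr rfl fun _ _ => sum_comm).trans (sum_comm.trans (sum_congr rfl fun τ _ => ?_))
  rw [sum_comm]
  refine (sum_congr rfl fun _ _ => sum_comm).trans (sum_comm.trans (sum_congr rfl fun σ _ => ?_))
  exact sum_congr rfl fun _ _ => sum_congr rfl fun _ _ => by ring

theorem pc_orb (l : Cl) (τ : Tp) (σ) : pc l (orb τ σ : Lab K) = if τ.cl = l then orb τ σ else 0 := by
  rw [orb, pc_rho (gm_orth _), pc_ref, apply_ite (rho _), rho_zero]

theorem pt_orb (τ τ' : Tp) (σ) : pt τ (orb τ' σ : Lab K) = if τ' = τ then orb τ' σ else 0 := by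
  rw [orb, pt_rho, pt_ref, apply_ite (rho _), rho_zero]

/-- the resolution of the projection onto a type -/
theorem pt_res (τ : Tp) (c : Lab K) :
    pt τ c = (τ.n / 4608 : K) • ∑ σ, ip (orb τ σ) c • orb τ σ := by
  rw [← pt_pa, frame]
  simp [pt_orb]

theorem sum_pt (c : Lab K) : ∑ τ, pt τ c = pa c := by simp only [pt_res, ← frame]

theorem pc_pt (l : Cl) (τ : Tp) (c : Lab K) : pc l (pt τ c) = if τ.cl = l then pt τ c else 0 := by
  rw [pt_res]
  change pcL l _ = _
  rw [map_smul, map_sum]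
  simp only [show ∀ c : Lab K, pcL l c = pc l c from fun _ => rfl, pc_smul, pc_orb]
  split_ifs <;> simp

theorem pt_pt (τ τ' : Tp) (c : Lab K) : pt τ (pt τ' c) = if τ' = τ then pt τ' c else 0 := by
  rw [pt_res τ' c]
  simp only [map_smul, map_sum, pt_orb]
  split_ifs <;> simp

theorem pa_pt (τ : Tp) (c : Lab K) : pa (pt τ c) = pt τ c := by
  simp [← sum_pt, pt_pt]

theorem sum_pt_cl (l : Cl) (c : Lab K) : ∑ τ with Tp.cl τ = l, pt τ c = pc l c := by
  rw [← pc_pa, ← sum_pt, sum_filter]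
  exact .trans (sum_congr rfl fun τ _ => (pc_pt l τ c).symm) (map_sum (pcL l) ..).symm

theorem gd_zero {M : Pl × Pl → K} {T : Ty} {E : List (Pl × Pl)} (hE : ∀ x ∈ E, M x = 0)
    (hM : ∀ x, ∀ y ∈ mvs T x, M x = y.2 * M y.1) : ∀ n x, gd T E n x → M x = 0
  | 0, x, h => by
    simp only [gd, Bool.or_eq_true, decide_eq_true_eq] at h
    rcases h with h | h
    · exact hE x h
    · have := hM x _ h
      push_cast at this
      linear_combination 2⁻¹ * this
  | n + 1, x, h => by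
    simp only [gd, Bool.or_eq_true, List.any_eq_true] at h
    rcases h with h | ⟨y, h, h'⟩
    · exact gd_zero hE hM n x h
    · rw [hM x y h, gd_zero hE hM n _ h', mul_zero]

theorem nm_of (h : pa c = c) (p q : Pl) : c p q = os p * os q * c (nm p) (nm q) := by
  simp only [os, nm]
  split_ifs <;> simp [sw_of h, sw_of' h]

theorem det_zero {T : Ty} {E : List (Pl × Pl)} (hD : Det T E) (h : pa c = c)
    (hT : ∀ g ∈ T, rho (gm g.1) c = (sb g.2 : K) • c) (hE : ∀ x ∈ E, c x.1 x.2 = 0) : c = 0 := by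
  have z : ∀ p : Pl, (nm p).1 < (nm p).2 ∨ p.swap = p := by decide
  ext p q
  rw [Matrix.zero_apply]
  rcases z p with hp | hp
  swap
  · have := sw_of h p q
    rw [hp] at this
    linear_combination 2⁻¹ * this
  rcases z q with hq | hq
  swap
  · have := sw_of' h p q
    rw [hq] at this
    linear_combination 2⁻¹ * this
  rw [nm_of h, gd_zero (M := fun x => c x.1 x.2) hE (fun x y hy => ?_) 3 _ (hD (nm p, nm q) hp hq),
    mul_zero]
  obtain ⟨g, hg, hy⟩ := List.mem_flatMap.1 hy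
  have a : rho (gm g.1) c = (sb g.2 : K) • c := by
    rcases List.mem_cons.1 hg with rfl | hg
    exacts [by simp [gm_one, rho_one, sb], hT g hg]
  have a := congrFun₂ a x.1 x.2
  have b := congrArg (Int.cast (R := K)) (RG.Q4.En.Ty.sb_sq g.2)
  rw [rho_gm, nm_of h, Matrix.smul_apply, smul_eq_mul] at a
  simp only [List.mem_cons, List.not_mem_nil, or_false] at hy
  rcases hy with rfl | rfl <;> push_cast at b ⊢
  · linear_combination -(sb g.2 : K) * a - c x.1 x.2 * b
  · rw [← transpose_apply c (nm (mv g.1 x.1)), tr_of h]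
    linear_combination -(sb g.2 : K) * a - c x.1 x.2 * b

/-- labels with the signed symmetries of a type -/
theorem uniq (τ : Tp) (h : pa c = c) (hT : ∀ g ∈ τ.T, rho (gm g.1) c = (sb g.2 : K) • c) :
    c = (c τ.e.1 τ.e.2 / ref τ τ.e.1 τ.e.2) • ref τ :=
  sub_eq_zero.1 (det_zero τ.det (by rw [pa_sub, pa_smul, h, pa_ref]) (fun g hg => by
    rw [rho_sub, rho_smul, hT g hg, ref_sym τ g hg, smul_sub, smul_comm])
    (by simp [div_mul_cancel₀ _ (ref_ne (K := K) τ)]))

theorem ip_pt (τ : Tp) (a b : Lab K) : ip a (pt τ b) = ip (pt τ a) b := by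
  simp only [pt_res, ip_smul, smul_ip]
  congr 1
  refine (map_sum (ipL a) ..).trans (.trans ?_ (ip_comm .. |>.trans (map_sum (ipL b) ..)).symm)
  exact sum_congr rfl fun σ _ => by
    change ip a _ = ip b _
    rw [ip_smul, ip_smul, ip_comm a, ip_comm b, mul_comm]

variable {M : Lab K →ₗ[K] Lab K}

/-- maps which commute with the hypercubic group -/
theorem schur_b4 (h : ∀ c, pa (M c) = M c) (hM : ∀ g c, M (rho (gm g) c) = rho (gm g) (M c)) :
    ∃ μ : Tp → K, (∀ τ, M (ref τ) = μ τ • ref τ) ∧ ∀ c, M (pa c) = ∑ τ, μ τ • pt τ c := by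
  have a := fun τ => uniq τ (h (ref τ)) fun g hg => by rw [← hM, ref_sym τ g hg, map_smul]
  refine ⟨_, a, fun c => ?_⟩
  rw [← sum_pt, map_sum]
  refine sum_congr rfl fun τ _ => ?_
  have b := a τ
  generalize M (ref τ) τ.e.1 τ.e.2 / (ref τ : Lab K) τ.e.1 τ.e.2 = t at b ⊢
  simp only [pt_res, map_smul, map_sum, orb, hM, b, rho_smul, smul_sum, smul_comm t]

/-- maps which commute with the orthogonal group -/
theorem schur_o4 (h : ∀ c, pa (M c) = M c)
    (hM : ∀ g : M4 K, gᵀ * g = 1 → ∀ c, M (rho g c) = rho g (M c)) :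
    ∃ μ : Cl → K, ∀ c, M (pa c) = ∑ l, μ l • pc l c := by
  obtain ⟨μ, a, b⟩ := schur_b4 h fun g => hM _ (gm_orth g)
  have e : (3 / 5 : K) ^ 2 + (4 / 5) ^ 2 = 1 := by norm_num
  have key : ∀ {g : M4 K} {τ τ' : Tp} {s t : K}, gᵀ * g = 1 → t ≠ 0 →
      rho g (ref τ) = s • ref τ + t • ref τ' → μ τ' = μ τ := fun {g τ τ' s t} hg ht e => by
    have := hM g hg (ref τ)
    rw [a, rho_smul, e, map_add, map_smul, map_smul, a, a] at this
    have := congrFun₂ this τ'.e.1 τ'.e.2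
    simp only [Matrix.add_apply, Matrix.smul_apply, smul_eq_mul] at this
    exact mul_right_cancel₀ (mul_ne_zero ht (ref_ne τ')) (by linear_combination this)
  have h1 := key (r01_so e).1 (by norm_num) (rot01 _ _).1
  have h2 := key (r01_so e).1 (by norm_num) (rot01 _ _).2.2.1
  have h3 := key (r23_so e).1 (by norm_num) (rot23 _ _).1
  refine ⟨fun l => μ (match l with | .s => .s | .q => .q | .t => .t3 | .w => .w2), fun c => ?_⟩
  simp only [b, ← sum_pt_cl, smul_sum]
  rw [← sum_fiberwise univ Tp.cl]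
  refine sum_congr rfl fun l _ => sum_congr rfl fun τ hτ => ?_
  obtain rfl := (mem_filter.1 hτ).2
  cases τ <;> simp only [Tp.cl, h1, h2, h3]

theorem exists_mx {g : M4 ℝ} (hg : gᵀ * g = 1) : ∃ R : R4 ≃ₗᵢ[ℝ] R4, mx R = g := by
  refine ⟨LinearIsometry.toLinearIsometryEquiv ((toEuclideanLin g).isometryOfInner fun x y => ?_) rfl, ?_⟩
  · simp only [EuclideanSpace.inner_eq_star_dotProduct, ofLp_toEuclideanLin_apply, star_trivial]
    rw [dotProduct_mulVec, vecMul_mulVec, hg, vecMul_one]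
  · ext i j
    simp [mx]

theorem mx_inl {R : R4 ≃ₗᵢ[ℝ] R4} {σ : Equiv.Perm (Fin 4)} (h : ∀ y i, R y i = y (σ.symm i)) :
    mx R = gm (.inl σ) := by
  ext i j
  simp [mx, gm, h]

theorem mx_inr {R : R4 ≃ₗᵢ[ℝ] R4} {μ : Fin 4} (h : ∀ y i, R y i = if i = μ then -y i else y i) :
    mx R = gm (.inr μ) := by
  ext i j
  simp only [mx, gm, h, of_apply, diagonal_apply, EuclideanSpace.single_apply]
  split_ifs <;> simp

end Pool.Agent.Lib.MP_7f377f_mp.Lb
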