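import Pool.Agent.Lib.MP_7f377f_mp.G.CmY
import Pool.Agent.Lib.MP_7f377f_mp.Lb6
import Pool.Agent.Lib.MP_7f377f_mp.Lb7
import Pool.Agent.Lib.MP_7f377f_mp.G.LbU

/-! Composite fields: the types. -/

noncomputable section

namespace Pool.Agent.Lib.MP_7f377f_mp.Cm
variable [Pool.Agent.Lib.MP_7f377f_mp.GD]
set_option linter.unusedSectionVars false

open MeasureTheory Filter Topology Set Real YM7 Pur MvPolynomial Lg
open Ope (Let gp sc ctr)
open Ro (Iso act)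
open Wm (C1)
open Lb (Lab Pl Cl rho mx ip pc frL freeL Sep)
open RG.Q4.En.Ty (Gn Ty sb Det mv T1 T1' T3 T6 T2 T6' T2')
open scoped NNReal

open Lb in
theorem orb_mem (τ : Lb.Tp) (σ) : (orb τ σ : Lab ℝ) ∈ Vs (Lb.ref τ) :=
  Submodule.subset_span ⟨σ, congrArg (rho · _) (mx_gi (.inl σ))⟩

theorem ref_mem (τ : Lb.Tp) : (Lb.ref τ : Lab ℝ) ∈ Vs (Lb.ref τ) := by
  simpa [Lb.orb, Lb.gm_one, Lb.rho_one] using orb_mem τ 1

theorem pt_mem (τ : Lb.Tp) (c : Lab ℝ) : Lb.pt τ c ∈ Vs (Lb.ref τ) :=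
  Lb.pt_res τ c ▸ Submodule.smul_mem _ _ (Submodule.sum_mem _ fun σ _ =>
    Submodule.smul_mem _ _ (orb_mem τ σ))

theorem rf_mem (τ : Lb.Tp) (i : Fin 4) : ∃ χ, (.inr i, χ) ∈ τ.T := by
  cases τ <;> fin_cases i <;> simp [Lb.Tp.T, T1, T1', T3, T6, T2, T6', T2', RG.Q4.En.Ty.rf]

open Lb in
/-- the two point function of a type does not vanish -/
theorem fr_ref {w : ℝ} (hw : w ≠ 0) (τ : Lb.Tp) :
    frL w ![ref τ, ref τ] ![0, EuclideanSpace.single 0 1] ≠ 0 := by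
  have n0 : (EuclideanSpace.single 0 1 : R4) ≠ 0 := by simp
  have e : mr (EuclideanSpace.single 0 1) = Lb.gm (.inr 0) := by
    ext i j
    fin_cases i <;> fin_cases j <;> simp [mr, YG.mirror, Lb.gm] <;> norm_num
  obtain ⟨χ, h⟩ := rf_mem τ 0
  have := ip_self_pos (a := (ref τ : Lab ℝ)) fun h => ref_ne (K := ℝ) τ (by rw [h]; rfl)
  have u : (sb χ : ℝ) ≠ 0 := abs_pos.1 (RG.Q4.En.Ty.sb_abs χ ▸ one_pos)
  rw [frL_two _ n0.symm]
  simp only [Matrix.cons_val_zero, Matrix.cons_val_one, sub_zero, e, pa_ref,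
    ref_sym τ _ h, ip_smul, EuclideanSpace.norm_single, norm_one]
  exact mul_ne_zero (by simpa using hw) (mul_ne_zero u this.ne')

/-- minors -/
def mn (g : Lb.M4 ℚ) (p x y : Pl) : ℚ := 2 * (g x.1 p.1 * g x.2 p.2 - g x.1 p.2 * g x.2 p.1) *
  (g y.1 p.1 * g y.2 p.2 - g y.1 p.2 * g y.2 p.1)

/-- labels which are invariant under the rotations of two planes, and their images -/
def iv (s t : ℚ) (g : Lb.M4 ℚ) : Lab ℚ := .of fun x y => 2 * mn g (0, 1) x y + s * mn g (2, 3) x y +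
  t * (mn g (0, 2) x y + mn g (1, 3) x y + mn g (0, 3) x y + mn g (1, 2) x y)

open Lb in
theorem rho_iv (s t : ℚ) (g : M4 ℚ) : rho g (iv s t 1) = iv s t g := by
  have : ∀ g, iv s t g = rho g ((2 : ℚ) • el (0, 1) (0, 1) + s • el (2, 3) (2, 3) + t •
      (el (0, 2) (0, 2) + el (1, 3) (1, 3) + el (0, 3) (0, 3) + el (1, 2) (1, 2))) := fun g => by
    ext x y
    simp only [rho_add, rho_smul, el, rho_ou]
    simp only [iv, mn, ou, Matrix.of_apply, Matrix.add_apply, Matrix.smul_apply, kk_wv, smul_eq_mul]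
    ring
  rw [this, this, rho_one]

/-- a reflection -/
def gr : Lb.M4 ℚ := .of fun i j => (if i = j then 1 else 0) - ![1, 2, 1, 2] i * ![1, 2, 1, 2] j / 5

open Lb in
theorem lnk_of {w : ℝ} (hw : w ≠ 0) {τ τ' υ : Lb.Tp} {g : M4 ℚ} (hg : g.transpose * g = 1)
    {x y s t : ℚ} (h1 : rho g (ref τ) = x • ref τ + y • ref τ') (y0 : y ≠ 0) (c : υ.cl = τ.cl)
    {σ σ'} (hb : ∀ a b, ref υ (mv (.inl σ) a) (mv (.inl σ) b) +
      ref υ (mv (.inl σ') a) (mv (.inl σ') b) = iv s t 1 a b)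
    (h2 : ∀ a b, iv s t g a b = iv s t 1 a b) (h3 : ip (ref τ') (iv s t gr) ≠ 0) :
    Lnk Lb.Tp.cl ref w τ τ' := by
  obtain ⟨R, hR⟩ := exists_mx (g := g.map (Rat.castHom ℝ)) (by
    rw [← Matrix.transpose_map, ← Matrix.map_mul, hg, Matrix.map_one _ (map_zero _) (map_one _)])
  have e : (iv s t 1).map (Rat.castHom ℝ) ∈ Vs (ref υ) := by
    convert add_mem (orb_mem υ σ) (orb_mem υ σ') using 1
    ext a b
    simp only [Matrix.map_apply, ← hb, map_add, Matrix.add_apply, orb_apply, ← ref_map (Rat.castHom ℝ)]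
  have e1 : rho (mx R) ((iv s t 1).map (Rat.castHom ℝ)) = (iv s t 1).map (Rat.castHom ℝ) := by
    rw [hR, ← rho_map, rho_iv, Matrix.ext h2]
  have n0 : qpt ![1, 2, 1, 2] ≠ 0 := fun h => by simpa [qpt] using congrArg (· 0) h
  have e2 : mr (qpt ![1, 2, 1, 2]) = gr.map (Rat.castHom ℝ) := by
    ext i j
    simp only [mr, YG.mirror, EuclideanSpace.real_norm_sq_eq, Fin.sum_univ_four, qpt, gr,
      Matrix.of_apply, Matrix.map_apply]
    fin_cases i <;> fin_cases j <;> simp <;> norm_num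
  refine ⟨R, υ, (x : ℝ) • ref τ, (y : ℝ) • ref τ', ref τ, _, _, ref_mem τ,
    Submodule.smul_mem _ _ (ref_mem τ), Submodule.smul_mem _ _ (ref_mem τ'), e, e1.symm ▸ e, ?_, c,
    n0, ?_⟩
  · rw [hR, ← ref_map (Rat.castHom ℝ) τ, ← rho_map, h1, Matrix.map_add _ (map_add _), smul_map,
      smul_map, ref_map, ref_map]
    rfl
  · rw [frL_two _ n0.symm, e1]
    simp only [Matrix.cons_val_zero, Matrix.cons_val_one, sub_zero, pa_smul, pa_ref, smul_ip]
    rw [e2, ← rho_map, rho_iv, ← ref_map (Rat.castHom ℝ), ← ip_map]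
    exact mul_ne_zero (div_ne_zero (by simpa using hw) (by simpa using n0))
      (mul_ne_zero (by exact_mod_cast y0) (by simpa using h3))

open Lb Equiv in
theorem tys {w : ℝ} (hw : w ≠ 0) : ∃ β, Tys Lb.Tp.cl Lb.ref w Lb.Tp.T β := by
  have o1 := (r01_so (a := (3 / 5 : ℚ)) (b := 4 / 5) (by norm_num)).1
  have o2 := (r23_so (a := (3 / 5 : ℚ)) (b := 4 / 5) (by norm_num)).1
  obtain ⟨a1, a2, a3, a4⟩ := rot01 (3 / 5 : ℚ) (4 / 5)
  obtain ⟨a5, a6⟩ := rot23 (3 / 5 : ℚ) (4 / 5)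
  have t := fun τ τ' x y h1 y0 c => lnk_of hw (τ := τ) (τ' := τ') (υ := .t3) o1 (x := x) (y := y)
    (s := -2) (t := 0) h1 y0 c (σ := swap 1 2) (σ' := swap 0 1 * swap 1 3 * swap 2 3)
    (by decide +kernel) (by decide +kernel)
  have u := fun g hg τ τ' x y h1 y0 c => lnk_of hw (τ := τ) (τ' := τ') (υ := .w2) (g := g) hg (x := x)
    (y := y) (s := 2) (t := -1) h1 y0 c (σ := swap 1 2) (σ' := swap 1 3 * swap 2 3)
    (by decide +kernel)
  refine ⟨fun | .s => .s | .q => .q | .t => .t3 | .w => .w6,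
    fun τ => ⟨[τ.e], τ.det, Nat.le_refl 1, rf_mem τ⟩, fun τ g hg => by rw [mx_gi, ref_sym τ g hg],
    fun τ => by rw [pc_ref, if_pos rfl], fun l c => ⟨fun τ => if τ.cl = l then pt τ c else 0,
      fun τ => ?_, fun τ e => if_neg e, by rw [← sum_pt_cl, Finset.sum_filter]⟩,
    fun τ => ⟨_, ref_mem τ, _, ref_mem τ, _, by simp, fr_ref hw τ⟩, fun l => by cases l <;> rfl,
    ?_, fun τ => ?_⟩
  · beta_reduce
    split_ifs
    exacts [pt_mem τ c, zero_mem _]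
  · rw [← sum_pt_cl, show ({τ | Tp.cl τ = .s} : Finset Lb.Tp) = {.s} by decide, Finset.sum_singleton]
    exact pt_mem .s c0
  · cases τ
    exacts [.inl rfl, .inl rfl, .inl rfl,
      .inr ⟨t _ _ _ _ a2 (by norm_num) rfl (by decide +kernel),
        t _ _ _ _ a1 (by norm_num) rfl (by decide +kernel)⟩,
      .inr ⟨u _ o1 _ _ _ _ a3 (by norm_num) rfl (by decide +kernel) (by decide +kernel),
        u _ o1 _ _ _ _ a4 (by norm_num) rfl (by decide +kernel) (by decide +kernel)⟩, .inl rfl,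
      .inr ⟨u _ o2 _ _ _ _ a6 (by norm_num) rfl (by decide +kernel) (by decide +kernel),
        u _ o2 _ _ _ _ a5 (by norm_num) rfl (by decide +kernel) (by decide +kernel)⟩]

end Pool.Agent.Lib.MP_7f377f_mp.Cm
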