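import Pool.Agent.Lib.MP_7f377f_mp.G.CmU

/-! Composite fields: convergence and bounds. -/

noncomputable section

namespace Pool.Agent.Lib.MP_7f377f_mp.Cm
variable [Pool.Agent.Lib.MP_7f377f_mp.GD]
set_option linter.unusedSectionVars false

open MeasureTheory Filter Topology Set Real YM7 Pur MvPolynomial Lg
open Ope (Let gp sc ctr)
open Ro (Iso act)
open Wm (C1)
open Lb (Lab Pl Cl rho mx ip pc frL freeL Sep)
open RG.Q4.En.Ty (Gn Ty sb Det)
open scoped NNReal

namespace CmI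

theorem dn_pos (n : ℕ) : 0 < dn n := by
  unfold dn
  positivity

theorem dn_lim : Tendsto dn atTop (𝓝 0) :=
  tendsto_inv_atTop_zero.comp (tendsto_pow_atTop_atTop_of_one_lt one_lt_two)

theorem scale (E : ℕ) {M r : ℝ} (M1 : 1 ≤ M) (hr : r ∈ Ioc (0 : ℝ) 1) :
    ∃ e, E ≤ e ∧ M * (3 ^ e)⁻¹ ≤ r ∧ (3 : ℝ) ^ e ≤ 3 * 3 ^ E * M / r := by
  obtain ⟨n, n1, n2⟩ := exists_nat_pow_near
    (show 1 ≤ M / r from (one_le_div hr.1).2 (hr.2.trans M1)) (show (1 : ℝ) < 3 by norm_num)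
  have a1 : (1 : ℝ) ≤ 3 ^ E := one_le_pow₀ (by norm_num)
  refine ⟨n + 1 + E, by omega, ?_, ?_⟩
  · rw [mul_inv_le_iff₀ (by positivity), pow_add]
    rw [div_lt_iff₀ hr.1] at n2
    have a2 : 0 ≤ r * 3 ^ (n + 1) := mul_nonneg hr.1.le (by positivity)
    nlinarith
  · rw [pow_add, pow_succ, mul_div_assoc]
    nlinarith

/-- the pieces of a test function -/
theorem cut : ∃ K0 : ℝ, 0 ≤ K0 ∧ ∀ (e₀ : ℕ) (r : ℝ), r ≤ 1 → ∀ (g : R4 → ℝ) (L : ℝ≥0),
    C1 (Bx r) g → LipschitzWith L g → ∃ (ι : Type) (s : Finset ι) (x : ℝ) (f : ι → R4 → ℝ)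
      (v : ι → Fin 4 → ℤ), 0 ≤ x ∧ s.card * x ≤ K0 * (3 ^ e₀) ^ 5 * L ∧
      (g = ∑ z ∈ s, x • fun y => f z (y - gp (e₀ + 2) (v z))) ∧ ∀ z, HasCompactSupport (f z) ∧
        Mid (3 ^ e₀)⁻¹ (f z) ∧ (f z = 0 ∨ ‖gp (e₀ + 2) (v z)‖ ≤ 2 * r + 2 * (3 ^ e₀)⁻¹) := by
  obtain ⟨K, hK⟩ := LgQB.bmp_lip
  have K0 := K.coe_nonneg
  refine ⟨27 ^ 4 * (6 + 45 * K), by positivity, fun e₀ r r1 f L f1 f2 => ?_⟩
  obtain ⟨η, hη⟩ : ∃ η : ℝ, η = (3 ^ (e₀ + 2))⁻¹ := ⟨_, rfl⟩
  obtain ⟨D, hD'⟩ : ∃ D : ℕ, D = 3 ^ (e₀ + 2) := ⟨_, rfl⟩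
  have η0 : 0 < η := by rw [hη]; positivity
  have hD : η * D = 1 := by
    rw [hη, hD']
    push_cast
    field_simp
  have hw : ((3 : ℝ) ^ e₀)⁻¹ = 9 * η := by
    rw [hη, pow_add]
    field_simp
    norm_num
  have hU : (D : ℝ) = 9 * 3 ^ e₀ := by
    rw [hD']
    push_cast
    ring
  have x1 : ∀ y, f y ≠ 0 → ∀ l, |y l| ≤ 1 := fun y hy l =>
    (f1.2.2 (subset_tsupport _ hy) l).le.trans r1
  have s1 : ∀ y, |f y| ≤ L * 5 := fun y => (sup_le f2 zero_le_two (fun y hy => by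
    simpa using dist_le_two (z := 0) (w := 1) (by simpa using x1 y hy)) y).trans_eq (by norm_num)
  obtain ⟨Λ, hΛ⟩ : ∃ Λ : ℝ, Λ = 1 + 5 + 5 * (K * D : ℝ≥0) := ⟨_, rfl⟩
  have Λ0 : 0 < Λ := by rw [hΛ]; positivity
  obtain ⟨g, hg⟩ : ∃ g : (Fin 4 → Fin (2 * D + 1)) → R4 → ℝ, ∀ z, g z =
    fun y => (Λ * L)⁻¹ * (bumpS η (fun l => z l - D) (y - 0) * f y) := ⟨_, fun _ => rfl⟩
  have g0 : ∀ z y, g z y ≠ 0 → bumpS η (fun l => z l - D) (y - 0) ≠ 0 ∧ f y ≠ 0 :=
    fun z y hy => mul_ne_zero_iff.1 (right_ne_zero_of_mul (hg z ▸ hy :))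
  have g2 : ∀ z, HasCompactSupport (g z) ∧ ContDiff ℝ 1 (g z) := fun z =>
    ⟨f1.1.mono fun y hy => (g0 z y hy).2, hg z ▸ contDiff_const.mul (((bumpS_smooth _ _).comp
      (contDiff_id.sub contDiff_const)).mul f1.2.1)⟩
  have g3 : f = ∑ z, (Λ * L) • g z := by
    funext y
    by_cases e1 : f y = 0
    · simp [hg, e1]
    · have e2 : (L : ℝ) ≠ 0 := fun u => e1 (by simpa [u] using s1 y)
      simp only [Finset.sum_apply, Pi.smul_apply, hg, smul_eq_mul,
        mul_inv_cancel_left₀ (mul_ne_zero Λ0.ne' e2), ← Finset.sum_mul]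
      rw [sum_bumpS η0 fun l => by simpa [hD] using x1 y e1 l, one_mul]
  have g4 : ∀ z, LipschitzWith 1 (g z) ∧ ∀ y, |g z y| ≤ 1 := fun z =>
    hg z ▸ hΛ ▸ norm_piece (by norm_num) (hK η D hD _ 0) (fun y => abs_bumpS _ _ _) f2 s1
  have g5 : ∀ z y, g z (y + gp (e₀ + 2) fun l => z l - D - 4) ≠ 0 → ∀ l, |y l - 4 * η| ≤ η := by
    intro z y hy l
    have h1 := bumpS_supp η0 (g0 _ _ hy).1 l
    simp only [sub_zero, PiLp.add_apply, gp, ← hη] at h1
    push_cast at h1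
    rwa [show y l + η * (((z l : ℕ) : ℝ) - D - 4) - η * (((z l : ℕ) : ℝ) - D) = y l - 4 * η by
      ring] at h1
  refine ⟨_, Finset.univ, Λ * L, fun z y => g z (y + gp (e₀ + 2) fun l => z l - D - 4),
    fun z l => z l - D - 4, mul_nonneg Λ0.le L.coe_nonneg, ?_, by simpa using g3, fun z =>
    ⟨(g2 z).1.comp_homeomorph (Homeomorph.addRight _),
      ⟨(g2 z).2.comp (contDiff_id.add contDiff_const), .of_dist_le_mul fun x y =>
        ((g4 z).1.dist_le_mul _ _).trans_eq (by rw [dist_add_right]), fun y => ⟨(g4 z).2 _,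
        fun hy l => ?_⟩⟩, ?_⟩⟩
  · simp only [Finset.card_univ, Fintype.card_fun, Fintype.card_fin]
    rw [hΛ]
    push_cast
    rw [hU]
    have u1 : (1 : ℝ) ≤ 3 ^ e₀ := one_le_pow₀ (by norm_num)
    generalize (3 : ℝ) ^ e₀ = U at *
    have L0 := L.coe_nonneg
    have b2 : 2 * (9 * U) + 1 ≤ 27 * U := by linarith
    have b3 : 1 + 5 + 5 * (K * (9 * U)) ≤ (6 + 45 * K) * U := by linarith
    calc _ ≤ (27 * U) ^ 4 * ((6 + 45 * K) * U * L) := by gcongr
      _ = _ := by ring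
  · have h1 := abs_le.1 (g5 z y hy l)
    rw [hw]
    constructor <;> linarith [h1.1, h1.2]
  · refine or_iff_not_imp_left.2 fun h0 => ?_
    obtain ⟨y, hy⟩ := Function.ne_iff.1 h0
    have h1 := dist_le_two (y := gp (e₀ + 2) fun l => z l - D - 4) (z := 0) (w := r + 5 * η)
      fun l => by
        have a1 := abs_le.1 (g5 z y hy l)
        have a2 := abs_lt.1 (f1.2.2 (subset_tsupport _ (g0 _ _ hy).2) l)
        rw [PiLp.add_apply] at a2
        rw [PiLp.zero_apply, sub_zero, abs_le]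
        constructor <;> linarith [a1.1, a1.2, a2.1, a2.2]
    rw [dist_zero_right] at h1
    rw [hw]
    linarith

theorem Yc_zero (h : R4 → ℝ) (ω : ∀ l : Cl, (Fin l.m → R4) → Lab ℝ) (S : Pol →ₗ[ℂ] ℂ) (l : Cl)
    (d : ℝ) (e : ℕ) (c : Lab ℂ) : Yc h ω S l d e c 0 = 0 := by
  simp [Yc, Yl, ctr]

theorem cpt_sum {ι : Type} (s : Finset ι) (x : ℝ) {f : ι → R4 → ℝ}
    (hf : ∀ z, HasCompactSupport (f z)) : HasCompactSupport (∑ z ∈ s, x • f z) := by
  classical
  induction s using Finset.induction_on with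
  | empty => simpa using HasCompactSupport.zero
  | insert z s hz ih =>
    rw [Finset.sum_insert hz]
    exact ((hf z).mono fun y hy => right_ne_zero_of_mul hy).add ih

/-- convergent and polynomially bounded sequences -/
structure Good (S : Pol →ₗ[ℂ] ℂ) (K : ℝ) (F : ℕ → ℕ → (R4 → ℝ) → Pol) : Prop where
  cau : ∀ r ∈ Ioc (0 : ℝ) 1, ∀ g, C1 (Bx r) g → ∀ η > 0, ∀ᶠ n in atTop, ∀ n' ≥ n, ∀ᶠ e in UU,
    net.QB S (F n' e g - F n e g) (K * r) η
  bd : ∃ (C : ℝ) (s : ℕ), 0 ≤ C ∧ ∀ r ∈ Ioc (0 : ℝ) 1, ∀ g (L : ℝ≥0), C1 (Bx r) g →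
    LipschitzWith L g → ∀ᶠ n in atTop, ∀ᶠ e in UU, net.QB S (F n e g) (K * r) (C / r ^ s * L)

section
variable {S : Pol →ₗ[ℂ] ℂ} {K : ℝ} {F G : ℕ → ℕ → (R4 → ℝ) → Pol}

theorem Good.congr (h : Good S K F) (e : ∀ n e g, HasCompactSupport g → G n e g = F n e g) :
    Good S K G := by
  obtain ⟨C, s, C0, b⟩ := h.bd
  refine ⟨fun r hr g hg η η0 => ?_, C, s, C0, fun r hr g L g1 g2 => ?_⟩
  · simpa only [e _ _ g hg.1] using h.cau r hr g hg η η0
  · simpa only [e _ _ g g1.1] using b r hr g L g1 g2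

theorem Good.zero (hS : net.St S) (K0 : 0 ≤ K) : Good S K fun _ _ _ => 0 := by
  refine ⟨fun r hr g _ η η0 => .of_forall fun _ _ _ => .of_forall fun _ => ?_, 0, 0, le_rfl,
    fun r hr g L _ _ => .of_forall fun _ => .of_forall fun _ => ?_⟩
  · rw [sub_zero]
    exact (Net.QB.zero (mul_nonneg K0 hr.1.le)).mono hS le_rfl η0.le
  · exact (Net.QB.zero (mul_nonneg K0 hr.1.le)).mono hS le_rfl (by simp)

theorem Good.add (hS : net.St S) (h : Good S K F) (h' : Good S K G) :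
    Good S K fun n e g => F n e g + G n e g := by
  obtain ⟨C, s, C0, b⟩ := h.bd
  obtain ⟨C', s', C0', b'⟩ := h'.bd
  refine ⟨fun r hr g hg η η0 => ?_, C + C', s + s', add_nonneg C0 C0', fun r hr g L g1 g2 => ?_⟩
  · filter_upwards [h.cau r hr g hg _ (half_pos η0), h'.cau r hr g hg _ (half_pos η0)]
      with n a a' n' hn
    filter_upwards [a n' hn, a' n' hn] with e x x'
    have := x.add hS x'
    rwa [add_halves, sub_add_sub_comm] at this
  · filter_upwards [b r hr g L g1 g2, b' r hr g L g1 g2] with n a a'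
    filter_upwards [a, a'] with e x x'
    refine (x.add hS x').mono hS le_rfl ?_
    rw [← add_mul, add_div]
    have r0 := hr.1
    refine mul_le_mul_of_nonneg_right (add_le_add ?_ ?_) L.coe_nonneg
    · exact div_le_div_of_nonneg_left C0 (by positivity)
        (pow_le_pow_of_le_one r0.le hr.2 (by omega))
    · exact div_le_div_of_nonneg_left C0' (by positivity)
        (pow_le_pow_of_le_one r0.le hr.2 (by omega))

theorem Good.sum (hS : net.St S) (K0 : 0 ≤ K) {ι : Type} (s : Finset ι)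
    {F : ι → ℕ → ℕ → (R4 → ℝ) → Pol} (h : ∀ i, Good S K (F i)) :
    Good S K fun n e g => ∑ i ∈ s, F i n e g := by
  classical
  induction s using Finset.induction_on with
  | empty => simpa using Good.zero hS K0
  | insert z s hz ih => simpa only [Finset.sum_insert hz] using (h z).add hS ih

theorem Good.smul (hS : net.St S) (h : Good S K F) {x : ℕ → ℂ} {x₀ : ℂ}
    (hx : Tendsto x atTop (𝓝 x₀)) : Good S K fun n e g => x n • F n e g := by
  obtain ⟨C, s, C0, b⟩ := h.bd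
  have hb : ∀ᶠ n in atTop, ‖x n‖ ≤ ‖x₀‖ + 1 := hx.norm.eventually_le_const (lt_add_one _)
  have M0 : 0 < ‖x₀‖ + 1 := by positivity
  refine ⟨fun r hr g hg η η0 => ?_, (‖x₀‖ + 1) * C, s, by positivity, fun r hr g L g1 g2 => ?_⟩
  · obtain ⟨L, hL⟩ := hg.2.1.lipschitzWith_of_hasCompactSupport hg.1 one_ne_zero
    have r0 := hr.1
    have B0 : 0 < C / r ^ s * L + 1 := by positivity
    have hc : ∀ᶠ n in atTop, ‖x n - x₀‖ ≤ η / 4 / (C / r ^ s * L + 1) :=
      (tendsto_iff_norm_sub_tendsto_zero.1 hx).eventually_le_const (by positivity)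
    filter_upwards [h.cau r hr g hg (η / 2 / (‖x₀‖ + 1)) (by positivity), b r hr g L hg hL,
      eventually_forall_ge_atTop.2 (hb.and hc)] with n a a' a'' n' hn
    filter_upwards [a n' hn, a'] with e y y'
    have := (y.smul (x n')).add hS (y'.smul (x n' - x n))
    rw [show x n' • (F n' e g - F n e g) + (x n' - x n) • F n e g =
      x n' • F n' e g - x n • F n e g by rw [smul_sub, sub_smul]; abel] at this
    refine this.mono hS le_rfl ?_
    have c1 : ‖x n'‖ * (η / 2 / (‖x₀‖ + 1)) ≤ η / 2 :=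
      (mul_le_mul_of_nonneg_right (a'' n' hn).1 (by positivity)).trans_eq (by field_simp)
    have c2 : ‖x n' - x n‖ ≤ η / 2 / (C / r ^ s * L + 1) := by
      refine (norm_sub_le_norm_sub_add_norm_sub _ x₀ _).trans ?_
      rw [norm_sub_rev x₀]
      exact (add_le_add (a'' n' hn).2 (a'' n le_rfl).2).trans_eq (by ring)
    have c3 : ‖x n' - x n‖ * (C / r ^ s * L) ≤ η / 2 :=
      (mul_le_mul c2 (lt_add_one _).le (by positivity) (by positivity)).trans_eq (by field_simp)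
    linarith
  · filter_upwards [b r hr g L g1 g2, hb] with n a a'
    filter_upwards [a] with e y
    refine (y.smul (x n)).mono hS le_rfl ?_
    exact (mul_le_mul_of_nonneg_right a' y.2.2.1).trans_eq (by ring)

end

end CmI

open CmI

variable {S : Pol →ₗ[ℂ] ℂ} {K Λ δ a : ℝ} {h : R4 → ℝ} {ω : ∀ l : Cl, (Fin l.m → R4) → Lab ℝ}
  {Tp : Type} [Fintype Tp] {cl : Tp → Cl} {ref : Tp → Lab ℝ} {T : Tp → Ty} {β : Cl → Tp}
  {lam : Tp → ℕ → ℝ} (hS : Sf S K) (H : Dat (GD.d / 2) h ω Λ δ) (Y : Tys cl ref (GD.d / 2) T β)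
  {K' : ℝ} (t : Tel cl ref h ω S lam K' a)

include H in
theorem CmI.Yc_sum {ι : Type} (s : Finset ι) (x : ℝ) {f : ι → R4 → ℝ}
    (hf : ∀ z, HasCompactSupport (f z)) (l : Cl) (d : ℝ) (e : ℕ) (c : Lab ℂ) :
    Yc h ω S l d e c (∑ z ∈ s, x • f z) = ∑ z ∈ s, (x : ℂ) • Yc h ω S l d e c (f z) := by
  classical
  induction s using Finset.induction_on with
  | empty => simpa using Yc_zero h ω S l d e c
  | insert z s hz ih =>
    rw [Finset.sum_insert hz, Finset.sum_insert hz, add_comm, Yc_lin H (cpt_sum s x hf) (hf z), ih,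
      add_comm]

include t in
theorem Tel.smb (τ : Tp) : Summable fun n => lam τ n * dn n ^ a := by
  have p : ∀ n, 0 < lam τ n * dn n ^ a := fun n =>
    mul_pos (t.pos τ n) (rpow_pos_of_pos (dn_pos n) a)
  refine summable_of_ratio_test_tendsto_lt_one (l := 1 * (2⁻¹ : ℝ) ^ a) ?_
    (.of_forall fun n => (p n).ne') (((t.rat τ).mul_const _).congr fun n => ?_)
  · rw [one_mul]
    exact rpow_lt_one (by norm_num) (by norm_num) t.a0
  · have e1 : dn (n + 1) = dn n * 2⁻¹ := by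
      unfold dn
      rw [pow_succ, mul_inv]
    have e2 := (rpow_pos_of_pos (dn_pos n) a).ne'
    have e3 := (t.pos τ n).ne'
    rw [norm_of_nonneg (p _).le, norm_of_nonneg (p _).le, e1, mul_rpow (dn_pos n).le (by norm_num)]
    field_simp

include hS H t

theorem Tel.stp (τ : Tp) {c : Lab ℝ} (hc : c ∈ Vs (ref τ)) : ∃ (N E : ℕ) (B : ℝ), 0 ≤ B ∧
    ∀ e₀ ≥ E, ∀ r ∈ Ioc (0 : ℝ) 1, (|K'| + 2) * (3 ^ e₀)⁻¹ ≤ r → ∀ g (L : ℝ≥0), C1 (Bx r) g →
      LipschitzWith L g → ∀ n ≥ N * e₀, ∀ n' ≥ n, ∀ᶠ e in UU,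
        net.QB S (Yn cl h ω S lam τ n' e c g - Yn cl h ω S lam τ n e c g) (4 * K * r)
          (B * (3 ^ e₀) ^ (5 + N) * L * ∑ i ∈ Finset.Ico n n', lam τ i * dn i ^ a) := by
  obtain ⟨N, C, hC⟩ := t.one τ c hc
  obtain ⟨E, hE⟩ := eventually_atTop.1 hC
  obtain ⟨K0, K00, hK⟩ := cut
  have st := hS.inp.st
  have K1 := hS.one
  refine ⟨N, E, K0 * |C|, by positivity, fun e₀ he r hr hw g L g1 g2 n hn n' hn' => ?_⟩
  have r0 := hr.1
  have R0 : 0 ≤ 4 * K * r := by positivity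
  obtain ⟨ι, s, x, f, v, x0, x1, hg, hf⟩ := hK e₀ r hr.2 g L g1 g2
  have one : ∀ m ≥ N * e₀, ∀ᶠ e in UU,
      net.QB S (Yn cl h ω S lam τ (m + 1) e c g - Yn cl h ω S lam τ m e c g) (4 * K * r)
        (K0 * |C| * (3 ^ e₀) ^ (5 + N) * L * (lam τ m * dn m ^ a)) := by
    intro m hm
    have p : 0 < lam τ m * dn m ^ a := mul_pos (t.pos τ m) (rpow_pos_of_pos (dn_pos m) a)
    filter_upwards [hE e₀ he m hm, UU_le (eventually_ge_atTop (e₀ + 2))] with e q e2
    have c1 : ∀ z, HasCompactSupport fun y => f z (y - gp (e₀ + 2) (v z)) := fun z =>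
      (hf z).1.comp_homeomorph (Homeomorph.subRight _)
    have e1 : Yn cl h ω S lam τ (m + 1) e c g - Yn cl h ω S lam τ m e c g =
        ∑ z ∈ s, (x : ℂ) • net.τ (gp (e₀ + 2) (v z))
          (Yn cl h ω S lam τ (m + 1) e c (f z) - Yn cl h ω S lam τ m e c (f z)) := by
      simp only [Yn, map_sub, map_smul, fun z k => Yc_τ (l := cl τ) H st (hf z).1 (dn_pos k) e2 (v z)]
      rw [hg, CmI.Yc_sum H s x c1, CmI.Yc_sum H s x c1, Finset.smul_sum, Finset.smul_sum,
        ← Finset.sum_sub_distrib]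
      exact Finset.sum_congr rfl fun z _ => by rw [smul_sub, smul_comm (x : ℂ), smul_comm (x : ℂ)]
    have q1 : ∀ z, net.QB S (net.τ (gp (e₀ + 2) (v z))
        (Yn cl h ω S lam τ (m + 1) e c (f z) - Yn cl h ω S lam τ m e c (f z))) (4 * K * r)
        (|C| * 3 ^ (N * e₀) * (lam τ m * dn m ^ a)) := by
      intro z
      rcases (hf z).2.2 with h0 | h0
      · simp only [h0, Yn, Yc_zero, smul_zero, sub_zero, map_zero]
        exact (Net.QB.zero R0).mono st le_rfl (by positivity)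
      · refine ((q _ (hf z).2.1).tau st _).mono st ?_ ?_
        · have w0 : (0 : ℝ) < (3 ^ e₀)⁻¹ := by positivity
          have a1 := mul_le_mul_of_nonneg_right (le_abs_self K') w0.le
          have a2 := mul_le_mul_of_nonneg_right K1 r0.le
          linarith
        · gcongr
          exact le_abs_self C
    rw [e1]
    refine (Net.QB.sum st s R0 fun z _ => (q1 z).smul x).mono st le_rfl ?_
    rw [Finset.sum_const, nsmul_eq_mul, Complex.norm_real, norm_of_nonneg x0, ← mul_assoc]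
    refine (mul_le_mul_of_nonneg_right x1 (by positivity)).trans_eq ?_
    rw [mul_comm N, pow_mul]
    ring
  induction n', hn' using Nat.le_induction with
  | base =>
    refine .of_forall fun e => ?_
    rw [sub_self, Finset.Ico_self, Finset.sum_empty, mul_zero]
    exact Net.QB.zero R0
  | succ m hm ih =>
    filter_upwards [ih, one m (hn.trans' le_rfl |>.trans hm)] with e q q'
    have := q'.add st q
    rwa [sub_add_sub_cancel, ← mul_add, add_comm (lam τ m * dn m ^ a),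
      ← Finset.sum_Ico_succ_top hm fun i => lam τ i * dn i ^ a] at this

/-- one type: the Cauchy property -/
theorem Tel.cau (τ : Tp) {c : Lab ℝ} (hc : c ∈ Vs (ref τ)) {r : ℝ} (hr : r ∈ Ioc (0 : ℝ) 1)
    {g : R4 → ℝ} (hg : C1 (Bx r) g) {η : ℝ} (η0 : 0 < η) : ∀ᶠ n in atTop, ∀ n' ≥ n, ∀ᶠ e in UU,
      net.QB S (Yn cl h ω S lam τ n' e c g - Yn cl h ω S lam τ n e c g) (4 * K * r) η := by
  obtain ⟨N, E, B, B0, hB⟩ := t.stp hS H τ hc
  obtain ⟨e₀, e1, e2, -⟩ := scale E (M := |K'| + 2) (by linarith [abs_nonneg K']) hr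
  obtain ⟨L, hL⟩ := hg.2.1.lipschitzWith_of_hasCompactSupport hg.1 one_ne_zero
  have A0 : 0 < B * (3 ^ e₀) ^ (5 + N) * L + 1 := by positivity
  obtain ⟨s, hs⟩ := summable_iff_vanishing_norm.1 (t.smb τ) _ (div_pos η0 A0)
  filter_upwards [eventually_ge_atTop (N * e₀), eventually_gt_atTop (s.sup id)] with n n1 n2 n' n3
  filter_upwards [hB e₀ e1 r hr e2 g L hg hL n n1 n' n3] with e q
  refine q.mono hS.inp.st le_rfl ?_
  have a1 := (le_abs_self _).trans (hs (Finset.Ico n n') (Finset.disjoint_left.2 fun i hi hi' =>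
    ((Finset.le_sup (f := id) hi').trans_lt n2).not_ge (Finset.mem_Ico.1 hi).1)).le
  refine (mul_le_mul (lt_add_one _).le a1 (Finset.sum_nonneg fun i _ =>
    (mul_pos (t.pos τ i) (rpow_pos_of_pos (dn_pos i) a)).le) A0.le).trans_eq ?_
  field_simp

/-- one type: the polynomial bound -/
theorem Tel.bd (τ : Tp) {c : Lab ℝ} (hc : c ∈ Vs (ref τ)) : ∃ (C : ℝ) (s : ℕ), 0 ≤ C ∧
    ∀ r ∈ Ioc (0 : ℝ) 1, ∀ g (L : ℝ≥0), C1 (Bx r) g → LipschitzWith L g → ∀ᶠ n in atTop,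
      ∀ᶠ e in UU, net.QB S (Yn cl h ω S lam τ n e c g) (4 * K * r) (C / r ^ s * L) := by
  obtain ⟨N, E, B, B0, hB⟩ := t.stp hS H τ hc
  obtain ⟨C, s, C0, hC⟩ := crude hS H (cl τ) (cx c)
  obtain ⟨b, hb⟩ := exists_nat_ge a
  obtain ⟨U, hU⟩ : ∃ U, U = ∑' n, lam τ n * dn n ^ a := ⟨_, rfl⟩
  have p : ∀ n, 0 ≤ lam τ n * dn n ^ a := fun n =>
    (mul_pos (t.pos τ n) (rpow_pos_of_pos (dn_pos n) a)).le
  have U1 : ∀ u : Finset ℕ, ∑ i ∈ u, lam τ i * dn i ^ a ≤ U := fun u =>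
    hU ▸ (t.smb τ).sum_le_tsum u fun i _ => p i
  have U0 : 0 ≤ U := by simpa using U1 ∅
  have st := hS.inp.st
  have K1 := hS.one
  have k0 := abs_nonneg K'
  have l0 := abs_nonneg Λ
  obtain ⟨A, hA⟩ : ∃ A : ℝ, A = 3 * 3 ^ E * (|K'| + |Λ| + 2) := ⟨_, rfl⟩
  have A0 : 0 ≤ A := by rw [hA]; positivity
  refine ⟨(C + B) * U * A ^ ((N + 2) * (s + b) + (5 + N)), (N + 2) * (s + b) + (5 + N),
    by positivity, fun r hr g L g1 g2 => ?_⟩
  have r0 := hr.1
  obtain ⟨e₀, e1, e2, e3⟩ := scale E (M := |K'| + |Λ| + 2) (by linarith) hr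
  rw [← hA] at e3
  have w0 : (0 : ℝ) < (3 ^ e₀)⁻¹ := by positivity
  have u1 : (1 : ℝ) ≤ 3 ^ e₀ := one_le_pow₀ (by norm_num)
  obtain ⟨m, hm⟩ : ∃ m, m = (N + 2) * e₀ := ⟨_, rfl⟩
  have m1 : (2 : ℝ) ^ m ≤ (3 ^ e₀) ^ (N + 2) := by
    rw [hm, mul_comm, pow_mul]
    gcongr
    norm_num
  have m2 : dn m ≤ (3 ^ e₀)⁻¹ := by
    refine inv_anti₀ (by positivity) ?_
    calc (3 : ℝ) ^ e₀ ≤ (2 ^ 2) ^ e₀ := by gcongr; norm_num
      _ ≤ 2 ^ m := by
        rw [← pow_mul, hm]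
        exact pow_le_pow_right₀ one_le_two (Nat.mul_le_mul_right _ (by omega))
  have d0 := dn_pos m
  have m3 : (Λ + 1) * dn m ≤ r := by
    have a1 : (Λ + 1) * dn m ≤ (|K'| + |Λ| + 2) * dn m :=
      mul_le_mul_of_nonneg_right (by linarith [le_abs_self Λ]) d0.le
    exact a1.trans ((mul_le_mul_of_nonneg_left m2 (by positivity)).trans e2)
  have m4 : lam τ m ≤ U * (2 ^ m) ^ b := by
    have a1 : lam τ m * dn m ^ a ≤ U := by simpa using U1 {m}
    have a2 : dn m ^ b ≤ dn m ^ a := by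
      rw [← rpow_natCast]
      exact rpow_le_rpow_of_exponent_ge d0 (m2.trans (inv_le_one_of_one_le₀ u1)) hb
    have a3 := (mul_le_mul_of_nonneg_left a2 (t.pos τ m).le).trans a1
    rwa [dn, inv_pow, mul_inv_le_iff₀ (by positivity)] at a3
  filter_upwards [eventually_ge_atTop m] with n n1
  filter_upwards [hB e₀ e1 r hr ((mul_le_mul_of_nonneg_right (by linarith) w0.le).trans e2) g L g1
    g2 m (hm ▸ Nat.mul_le_mul_right _ (by omega)) n n1] with e q
  have q1 := ((hC (dn m) r d0 m3 hr.2 e g L g1 g2).smul (lam τ m : ℂ)).mono st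
    (R' := 4 * K * r) (by nlinarith) le_rfl
  have q2 := q.add st q1
  rw [show Yn cl h ω S lam τ n e c g - Yn cl h ω S lam τ m e c g +
    (lam τ m : ℂ) • Yc h ω S (cl τ) (dn m) e (cx c) g = Yn cl h ω S lam τ n e c g from
      sub_add_cancel _ _] at q2
  refine q2.mono st le_rfl ?_
  have L0 := L.coe_nonneg
  rw [Complex.norm_real, norm_of_nonneg (t.pos τ m).le, mul_div_assoc, ← div_pow, dn, inv_pow,
    div_inv_eq_mul]
  have a1 := U1 (Finset.Ico m n)
  have a2 : (0 : ℝ) ≤ 2 ^ m := by positivity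
  generalize (2 : ℝ) ^ m = V at *
  generalize (3 : ℝ) ^ e₀ = W at *
  have a3 : W ^ (5 + N) ≤ W ^ ((N + 2) * (s + b) + (5 + N)) := pow_le_pow_right₀ u1 (by omega)
  have a4 : V ^ (s + b) ≤ W ^ ((N + 2) * (s + b) + (5 + N)) :=
    (pow_le_pow_left₀ a2 m1 _).trans ((pow_mul W _ _).symm.trans_le
      (pow_le_pow_right₀ u1 (by omega)))
  have a5 : W ^ ((N + 2) * (s + b) + (5 + N)) ≤ (A / r) ^ ((N + 2) * (s + b) + (5 + N)) :=
    pow_le_pow_left₀ (by linarith) e3 _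
  calc _ ≤ B * W ^ (5 + N) * L * U + U * V ^ b * (C * V ^ s * L) := by gcongr
    _ = (B * W ^ (5 + N) + C * V ^ (s + b)) * U * L := by ring
    _ ≤ (B * (A / r) ^ ((N + 2) * (s + b) + (5 + N)) +
        C * (A / r) ^ ((N + 2) * (s + b) + (5 + N))) * U * L := by
      gcongr
      · exact a3.trans a5
      · exact a4.trans a5
    _ = _ := by ring

include Y in
theorem Tel.good {L : Cl → ℕ → ℝ}
    (hL : ∀ τ, ∃ r, Tendsto (fun n => L (cl τ) n / lam τ n) atTop (𝓝 r)) (c : Lab ℂ) :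
    Good S (4 * K) fun n e g => Oa h ω S L (n, e) c g := by
  have st := hS.inp.st
  have K0 : 0 ≤ 4 * K := by linarith [hS.one]
  have z0 : ∀ l d e g, HasCompactSupport g → Yc h ω S l d e 0 g = 0 := fun l d e g hg => by
    have := Yc_linc (S := S) (l := l) (d := d) (e := e) H hg (-1) 0 0
    simpa using this
  have ad : ∀ l d e g, HasCompactSupport g → ∀ (s : Finset Tp) (x : Tp → Lab ℝ),
      Yc h ω S l d e (cx (∑ τ ∈ s, x τ)) g = ∑ τ ∈ s, Yc h ω S l d e (cx (x τ)) g := by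
    classical
    intro l d e g hg s x
    induction s using Finset.induction_on with
    | empty => simpa [cx] using z0 l d e g hg
    | insert z s hz ih =>
      have := Yc_linc (S := S) (l := l) (d := d) (e := e) H hg 1 (cx (x z)) (cx (∑ τ ∈ s, x τ))
      rw [Finset.sum_insert hz, Finset.sum_insert hz, cx_add, ← ih]
      simpa using this
  have re : ∀ l (x : Lab ℝ),
      Good S (4 * K) fun n e g => (L l n : ℂ) • Yc h ω S l (dn n) e (cx x) g := by
    intro l x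
    obtain ⟨y, y1, y2, y3⟩ := Y.sum l x
    refine (Good.sum st K0 Finset.univ fun τ => Good.smul st (F := fun n e g =>
      Yn cl h ω S lam τ n e (y τ) g) ⟨fun r hr g hg η η0 => t.cau hS H τ (y1 τ) hr hg η0,
        t.bd hS H τ (y1 τ)⟩ ((Complex.continuous_ofReal.tendsto _).comp (hL τ).choose_spec)).congr
      fun n e g hg => ?_
    have e1 : Yc h ω S l (dn n) e (cx x) g = Yc h ω S l (dn n) e (cx (pc l x)) g := by
      unfold Yc
      rw [cx_pc, Zc_pc H, if_pos rfl]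
    rw [e1, y3, ad _ _ _ _ hg, Finset.smul_sum]
    refine Finset.sum_congr rfl fun τ _ => ?_
    by_cases u : cl τ = l
    · have e2 : (lam τ n : ℂ) ≠ 0 := Complex.ofReal_ne_zero.2 (t.pos τ n).ne'
      simp only [Yn, Function.comp, u, smul_smul, Complex.ofReal_div, div_mul_cancel₀ _ e2]
    · have e2 : cx 0 = 0 := by simp [cx]
      simp only [Yn, y2 τ u, e2, z0 _ _ _ _ hg, smul_zero]
  refine (Good.sum st K0 Finset.univ fun l => ((re l (c.map Complex.im)).smul st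
    (tendsto_const_nhds (x := Complex.I))).add st (re l (c.map Complex.re))).congr
    fun n e g hg => Finset.sum_congr rfl fun l _ => ?_
  have := Yc_linc (S := S) (l := l) (d := dn n) (e := e) H hg Complex.I (cx (c.map Complex.im))
    (cx (c.map Complex.re))
  rw [add_comm, ← cx_re_im] at this
  rw [smul_comm, ← smul_add, ← this]
  rfl

include Y in
theorem Tel.inl {L : Cl → ℕ → ℝ}
    (hL : ∀ τ, ∃ r, Tendsto (fun n => L (cl τ) n / lam τ n) atTop (𝓝 r)) :
    Lm.Inl S (4 * K) (fun μ c => rE (rfL μ) c.conjTranspose) rE (atTop.curry UU)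
      (Oa h ω S L) := by
  have st := hS.inp.st
  have K1 := hS.one
  refine ⟨by linarith, fun j c g g' x g1 g2 => Oa_lin H L j c x g1 g2,
    fun j x a b g g1 => Oa_linc H L j x a b g1, fun j μ c g g1 => Oa_refl H L j st μ c g1,
    fun c U g hU g1 => eventually_curry_iff.2 ((Oa_loc H L c hU g1).mono fun n q => .of_forall q),
    fun c R v _ d hd g g1 η η0 => ?_, fun c => ?_⟩
  · have d0 := hd.1
    have h1 : ∀ᶠ n in atTop, (Λ + 1) * dn n ≤ d :=
      (dn_lim.const_mul (Λ + 1)).eventually_le_const (by simpa using d0)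
    refine eventually_curry_iff.2 ?_
    filter_upwards [h1, (t.good hS H Y hL (rE R c)).cau d hd g g1 _ (half_pos η0)] with n n1 q
    have A0 : 0 < ∑ l, |L l n| + 1 := by positivity
    have h2 := (eventually_all.2 fun l => riem hS H l c R v (dn_pos n) n1 hd.2 g1
      (div_pos (half_pos η0) A0)).curry
    filter_upwards [UU_le h2] with e q1
    refine eventually_curry_iff.2 ?_
    filter_upwards [eventually_ge_atTop n] with n' n2
    filter_upwards [UU_le q1, q n' n2] with e' q2 q3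
    have q4 := (Net.QB.sum st Finset.univ (by positivity) fun l _ =>
      (q2 l).smul (L l n : ℂ)).add st (q3.smul (-1))
    have e1 : ∑ l, (L l n : ℂ) • (net.τ v (act R (Yc h ω S l (dn n) e c fun y => g (R y + v))) -
        Yc h ω S l (dn n) e' (rE R c) g) + (-1 : ℂ) • (Oa h ω S L (n', e') (rE R c) g -
          Oa h ω S L (n, e') (rE R c) g) =
        net.τ v (act R (Oa h ω S L (n, e) c fun y => g (R y + v))) -
          Oa h ω S L (n', e') (rE R c) g := by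
      simp only [smul_sub, Finset.sum_sub_distrib, neg_one_smul, Oa, map_sum, map_smul, dn]
      abel
    rw [e1] at q4
    refine q4.mono st le_rfl ?_
    simp only [Complex.norm_real, norm_eq_abs, ← Finset.sum_mul, norm_neg, norm_one, one_mul]
    have a1 : (∑ l, |L l n|) * (η / 2 / (∑ l, |L l n| + 1)) ≤ η / 2 :=
      (mul_le_mul_of_nonneg_right (lt_add_one _).le (by positivity)).trans_eq (by field_simp)
    linarith
  · obtain ⟨C, s, C0, b⟩ := (t.good hS H Y hL c).bd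
    exact ⟨C, s, C0, fun d hd g L g1 g2 => eventually_curry_iff.2 (b d hd g L g1 g2)⟩

end Pool.Agent.Lib.MP_7f377f_mp.Cm
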