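import Pool.Agent.Lib.MP_7f377f_mp.G.CmE
import Pool.Agent.Lib.MP_7f377f_mp.Lb6
import Pool.Agent.Lib.MP_7f377f_mp.Lb9
import Pool.Agent.Lib.MP_7f377f_mp.G.LbU

/-! Composite fields: the free data. -/

noncomputable section

namespace Pool.Agent.Lib.MP_7f377f_mp.Lb

open MeasureTheory Filter Topology Finset Function Matrix YG Metric

variable {ι : Type} [Fintype ι] [DecidableEq ι] {w δ M : ℝ} {y : ι → R4}

theorem ip_cont (a : Lab ℝ) : Continuous (ip a) := by unfold ip; fun_prop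

/-- the normalisation of covariant weights -/
theorem wt_norm {V : (ι → R4) → Lab ℝ} (hc : Continuous V) (hk : HasCompactSupport V)
    (hp : ∀ y, pa (V y) = V y) (hr : ∀ (R : R4 ≃ₗᵢ[ℝ] R4) y, V (fun i => R (y i)) = rho (mx R) (V y))
    {l : Cl} (h0 : pc l (V y) ≠ 0) :
    ∃ μ ≠ (0 : ℝ), ∀ a α β, ∫ y, ip a (pc l (V y)) * V y α β = μ * pc l a α β := by
  have c : ∀ a b, Continuous fun y => ip a (V y) * ip b (V y) := fun a b =>
    ((ip_cont a).comp hc).mul ((ip_cont b).comp hc)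
  have k : ∀ a b, HasCompactSupport fun y => ip a (V y) * ip b (V y) := fun a b =>
    (hk.comp_left (g := ip a) (by simp [ip])).mul_right
  have i : ∀ a α β, Integrable fun y => ip a (V y) * V y α β := fun a α β => by
    simpa [ip, single_apply, ite_and] using
      (c a (single α β 1)).integrable_of_hasCompactSupport (μ := volume) (k _ _)
  let N : Lab ℝ →ₗ[ℝ] Lab ℝ :=
    { toFun a := of fun α β => ∫ y, ip a (V y) * V y α β
      map_add' a b := by
        ext α β
        simp only [add_ip, add_mul, of_apply, Matrix.add_apply, integral_add (i a α β) (i b α β)]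
      map_smul' t a := by
        ext α β
        simp only [smul_ip, mul_assoc, of_apply, Matrix.smul_apply, integral_const_mul,
          RingHom.id_apply, smul_eq_mul] }
  have e : ∀ a b, ip b (N a) = ∫ y, ip a (V y) * ip b (V y) := fun a b => by
    have := fun α β => (i a α β).const_mul (b α β)
    conv_rhs => enter [2, y]; rw [ip.eq_1 b]
    simp only [mul_sum, mul_left_comm (ip a _)]
    rw [integral_finset_sum _ fun α _ => integrable_finset_sum _ fun β _ => this α β]
    simp only [integral_finset_sum _ fun β _ => this _ β, integral_const_mul]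
    rfl
  obtain ⟨μ, hμ⟩ := schur_o4 (M := N) (fun a => ip_ext fun b => by
    rw [ip_pa, e, e]; simp only [← ip_pa, hp]) fun g hg a => ip_ext fun b => by
      obtain ⟨R, rfl⟩ := exists_mx hg
      rw [ip_rho', e, e, ← int_rot R]
      simp only [hr, ip_rho hg, ← ip_rho']
  have f : ∀ a, N (pc l a) = μ l • pc l a := fun a => by
    rw [← pa_pc, hμ, sum_eq_single l (fun j _ n => by simp [pc_pc, n]) (by simp), pc_pc, if_pos rfl,
      pa_pc]
  refine ⟨μ l, fun z => ?_, fun a α β => ?_⟩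
  · have := (c (pc l (V y)) (pc l (V y))).integral_pos_of_hasCompactSupport_nonneg_nonzero
      (μ := volume) (x := y) (k _ _) (fun _ => mul_self_nonneg _) (mul_self_ne_zero.2 (by
        have := ip_self_pos h0
        rw [ip_pc, pc_pc, if_pos rfl] at this
        exact this.ne'))
    rw [← e, f, z, zero_smul] at this
    simp [ip] at this
  · simp only [ip_pc]
    exact congrFun₂ (f a) α β

/-- a radial profile -/
def hb (δ : ℝ) (x : R4) : ℝ := Real.smoothTransition ((δ / 5) ^ 2 - ‖x‖ ^ 2)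

theorem hb_dif : ContDiff ℝ 1 (hb δ) :=
  Real.smoothTransition.contDiff.comp (contDiff_const.sub (contDiff_norm_sq ℝ))

theorem hb_lt (δ0 : 0 < δ) {x : R4} (h : hb δ x ≠ 0) : ‖x‖ < δ / 5 :=
  lt_of_pow_lt_pow_left₀ 2 (by positivity)
    (sub_pos.1 (not_le.1 (mt Real.smoothTransition.zero_of_nonpos h)))

theorem hb_sup (δ0 : 0 < δ) (v : R4) : tsupport (fun x => hb δ (x - v)) ⊆ closedBall v (δ / 5) :=
  closure_minimal (fun x h => mem_closedBall_iff_norm.2 (hb_lt δ0 h).le) isClosed_closedBall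

theorem hb_adm (δ0 : 0 < δ) {k : ℕ} {y : Fin k → R4} (h : ∀ i j, i ≠ j → 3 * δ ≤ ‖y i - y j‖) :
    Adm fun i x => hb δ (x - y i) :=
  ⟨fun i => ⟨(isCompact_closedBall _ _).of_isClosed_subset (isClosed_tsupport _) (hb_sup δ0 _),
    hb_dif.comp (contDiff_id.sub contDiff_const)⟩, fun i j e =>
      (closedBall_disjoint_closedBall (by linarith [h i j e, dist_eq_norm (y i) (y j)])).mono
        (hb_sup δ0 _) (hb_sup δ0 _)⟩

theorem Adm.wt {k : ℕ} {f : Fin k → R4 → ℝ} (hf : Adm f) : Wt fun y : Fin k → R4 => ∏ i, f i (y i) :=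
  wt_prod (fun i => (hf.1 i).1) (fun i => (hf.1 i).2.continuous) hf.2

theorem hb_pos {k : ℕ} {p : Fin k → R4} (hp : Injective p) {F : (Fin k → R4) → ℝ}
    (hF : ∀ y, Injective y → ContinuousAt F y) (h0 : 0 < F p) : ∀ᶠ δ in 𝓝[>] (0 : ℝ),
    (∀ i j, i ≠ j → 3 * δ < ‖p i - p j‖) ∧ 0 < ∫ x, (∏ i, hb δ (x i - p i)) * F x := by
  obtain ⟨r, r0, hr⟩ := Metric.eventually_nhds_iff.1 ((hF p hp).eventually (lt_mem_nhds h0))
  have a : ∀ᶠ δ in 𝓝[>] (0 : ℝ), ∀ i j, i ≠ j → 3 * δ < ‖p i - p j‖ :=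
    eventually_all.2 fun i => eventually_all.2 fun j => eventually_all.2 fun e => by
      filter_upwards [Ioo_mem_nhdsGT (div_pos (norm_pos_iff.2 (sub_ne_zero.2 (hp.ne e))) three_pos)]
        with δ h using (lt_div_iff₀' three_pos).1 h.2
  filter_upwards [a, Ioo_mem_nhdsGT r0] with δ h1 h2
  have W := (Adm.wt (hb_adm h2.1 fun i j e => (h1 i j e).le)).mul hF
  refine ⟨h1, W.cont.integral_pos_of_hasCompactSupport_nonneg_nonzero (x := p) W.cpt (fun x => ?_)
    (mul_pos (prod_pos fun i _ => Real.smoothTransition.pos_of_pos (by simpa using sq_pos_of_pos (div_pos h2.1 (by norm_num)))) h0).ne'⟩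
  by_cases c : ∏ i, hb δ (x i - p i) = 0
  · simp [c]
  · refine mul_nonneg (prod_nonneg fun _ _ => Real.smoothTransition.nonneg _)
      (hr ((dist_pi_lt_iff r0).2 fun i => ?_)).le
    linarith [hb_lt h2.1 (prod_ne_zero_iff.1 c i (mem_univ i)), dist_eq_norm (x i) (p i), h2.1, h2.2]

/-- an invariant cutoff -/
def cut (δ M : ℝ) (y : ι → R4) : ℝ :=
  ∏ i, max (M - ‖y i‖) 0 * ∏ j ∈ univ.erase i, max (‖y i - y j‖ - δ) 0

theorem cut_ne : cut δ M y ≠ 0 ↔ (∀ i, ‖y i‖ < M) ∧ ∀ i j, i ≠ j → δ < ‖y i - y j‖ := by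
  simp only [cut, prod_ne_zero_iff, mul_ne_zero_iff]
  simp only [ne_eq, max_eq_right_iff, not_le, sub_pos, mem_univ, true_imp_iff, forall_and, mem_erase,
    and_true, eq_comm (α := ι), sub_nonpos]

theorem cut_sep (h : cut δ M y ≠ 0) : Sep δ M y :=
  ⟨fun i => ((cut_ne.1 h).1 i).le, fun i j e => ((cut_ne.1 h).2 i j e).le⟩

/-- the weight before the normalisation -/
def Vw (w δ M : ℝ) (y : ι → R4) : Lab ℝ := Bi w fun x => cut (3 * δ) M y * ∏ i, hb δ (x i - y i)

theorem Vw_eq : Vw w δ M y = cut (3 * δ) M y • Bi w fun x => ∏ i, hb δ (x i - y i) := by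
  ext α β
  simp only [Vw, Bi, of_apply, Matrix.smul_apply, mul_assoc, integral_const_mul, smul_eq_mul]

theorem Vw_sep (δ0 : 0 < δ) {x : ι → R4} (h : cut (3 * δ) M y * ∏ i, hb δ (x i - y i) ≠ 0) :
    Sep δ (M + δ) x := by
  have a := cut_sep (left_ne_zero_of_mul h)
  have b := fun i => hb_lt δ0 (prod_ne_zero_iff.1 (right_ne_zero_of_mul h) i (mem_univ i))
  exact ⟨fun i => by linarith [a.1 i, b i, norm_sub_norm_le (x i) (y i)], fun i j e => by
    linarith [a.2 i j e, b i, b j, norm_sub_rev (x i) (y i),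
      norm_sub_le_norm_sub_add_norm_sub (y i) (x i) (y j),
      norm_sub_le_norm_sub_add_norm_sub (x i) (x j) (y j)]⟩

theorem Vw_c : Continuous fun p : (ι → R4) × (ι → R4) =>
    cut (3 * δ) M p.1 * ∏ i, hb δ (p.2 i - p.1 i) := by
  have := (hb_dif (δ := δ)).continuous
  unfold cut
  fun_prop

theorem Vw_wt (δ0 : 0 < δ) : Wt fun x => cut (3 * δ) M y * ∏ i, hb δ (x i - y i) :=
  ⟨(Vw_c (δ := δ) (M := M)).comp (f := fun x => (y, x)) (by fun_prop), δ, δ0, _, fun _ => Vw_sep δ0⟩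

theorem Vw_cont (δ0 : 0 < δ) : Continuous (Vw w δ M : (ι → R4) → _) := by
  refine continuous_pi fun α => continuous_pi fun β => continuousOn_univ.1
    (continuousOn_integral_of_compact_support (sep_cpt δ (M + δ)) (Continuous.continuousOn
      (continuous_iff_continuousAt.2 fun p => ?_)) fun y x _ h =>
        mul_eq_zero_of_left (not_not.1 (mt (Vw_sep δ0) h)) _)
  by_cases e : Sep δ (M + δ) p.2
  · exact Vw_c.continuousAt.mul ((B_cont' α β _ (e.inj δ0)).comp continuousAt_snd)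
  · refine continuousAt_const.congr (f := fun _ => 0) ?_
    filter_upwards [continuous_snd.continuousAt
      ((sep_cpt δ (M + δ)).isClosed.isOpen_compl.mem_nhds e)] with z hz
    exact (mul_eq_zero_of_left (not_not.1 (mt (Vw_sep δ0) hz)) _).symm

theorem Vw_rot (δ0 : 0 < δ) (R : R4 ≃ₗᵢ[ℝ] R4) :
    Vw w δ M (fun i => R (y i)) = rho (mx R) (Vw w δ M y) := by
  rw [Vw, ← (Vw_wt δ0).Bi_rot R]
  simp only [Vw, cut, hb, ← map_sub, R.norm_map]

theorem freeL_basis {k : ℕ} (d : ℕ) (c : Fin k → Lab ℂ) (y : Fin k → R4) : freeL d c y =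
    ∑ e : Fin k → Pl × Pl, (∏ s, c s (e s).1 (e s).2) *
      frL (d / 2) (fun s => single (e s).1 (e s).2 1) y := by
  have : c = fun s => ∑ e : Pl × Pl, c s e.1 e.2 • (single e.1 e.2 (1 : ℝ)).map (↑) :=
    funext fun s => by
      ext x y
      simp [Matrix.sum_apply, single_apply, apply_ite Complex.ofReal, Fintype.sum_prod_type (α₁ := Pl),
        ite_and]
  conv_lhs => rw [← freeM_apply, this, MultilinearMap.map_sum]
  simp only [MultilinearMap.map_smul_univ, freeM_apply, smul_eq_mul, freeL_map]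

theorem frL_cont' (c : ι → Lab ℝ) (y : ι → R4) (h : Injective y) : ContinuousAt (frL w c) y :=
  (frL_cont h).comp (f := fun y => (c, y)) (by fun_prop)

end Pool.Agent.Lib.MP_7f377f_mp.Lb

namespace Pool.Agent.Lib.MP_7f377f_mp.Cm
variable [Pool.Agent.Lib.MP_7f377f_mp.GD]
set_option linter.unusedSectionVars false

open MeasureTheory Filter Topology Set Real YM7 Pur MvPolynomial Lg
open Ope (Let gp sc ctr)
open Ro (Iso act)
open Wm (C1)
open Lb (Lab Pl Cl rho mx ip pc frL freeL Sep)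
open RG.Q4.En.Ty (Gn Ty sb Det)
open scoped NNReal

open Lb in
theorem exists_dat {w : ℝ} (hw : w ≠ 0) : ∃ h ω Λ δ, Dat w h ω Λ δ := by
  choose p hp h0 using num hw
  have a := eventually_all.2 fun l => hb_pos (hp l) (ip_B_cont (w := w) (pc l (B w (p l))))
    (by simpa only [ip_pc, pc_pc, if_true] using ip_self_pos (h0 l))
  obtain ⟨δ, a, δ0, δ1⟩ := (a.and (Ioc_mem_nhdsGT one_pos)).exists
  obtain ⟨M, hM, M0⟩ := ((eventually_all.2 fun l => eventually_all.2 fun i =>
    eventually_gt_atTop ‖p l i‖).and (eventually_ge_atTop (0 : ℝ))).exists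
  have s : ∀ l : Cl, tsupport (Vw w δ M : (Fin l.m → R4) → _) ⊆ {y | Sep (3 * δ) M y} := fun l =>
    closure_minimal (fun y h => cut_sep fun e => h (by rw [Vw_eq, e, zero_smul]))
      (sep_cpt _ _).isClosed
  have k : ∀ l : Cl, HasCompactSupport (Vw w δ M : (Fin l.m → R4) → _) := fun l =>
    (sep_cpt _ _).of_isClosed_subset (isClosed_tsupport _) (s l)
  have b := fun l => wt_norm (Vw_cont (w := w) (M := M) δ0) (k l) (fun _ => (Vw_wt δ0).pa_Bi)
    (fun R _ => Vw_rot δ0 R) (l := l) (y := p l) fun e => by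
      have := (a l).2
      rw [← (Adm.wt (hb_adm δ0 fun i j e => ((a l).1 i j e).le)).ip_Bi, ← ip_pc] at this
      rw [Vw_eq, pc_smul, smul_eq_zero_iff_right (cut_ne.2 ⟨hM l, (a l).1⟩)] at e
      simp [e, ip] at this
  choose μ μ0 hμ using b
  have hs : tsupport (hb δ) ⊆ Metric.closedBall 0 (δ / 5) := by simpa using hb_sup δ0 0
  obtain ⟨L, hL⟩ := (hb_dif (δ := δ)).lipschitzWith_of_hasCompactSupport
    ((isCompact_closedBall _ _).of_isClosed_subset (isClosed_tsupport _) hs) one_ne_zero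
  have L0 := L.coe_nonneg
  have t : ∀ l : Cl, tsupport (fun y : Fin l.m → R4 => ((μ l)⁻¹ * cut (3 * δ) M y) •
      pc l (Vw w δ M y)) ⊆ tsupport (Vw w δ M) := fun l =>
    closure_mono fun y h e => h (by simp only [e]; exact (congrArg _ (pcL l).map_zero).trans (smul_zero _))
  refine ⟨hb δ, fun l y => ((μ l)⁻¹ * cut (3 * δ) M y) • pc l (Vw w δ M y), M + L + 1, δ, δ1, hb_dif,
    fun R x => by simp only [hb, R.norm_map], fun x h => by
      linarith [mem_closedBall_zero_iff.1 (hs h)], fun l y h => ?_, fun l => ?_,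
    fun l => (k l).of_isClosed_subset (isClosed_tsupport _) (t l), fun l R y => ?_,
    fun l y => by simp only [pc_smul, pc_pc, if_true], fun l c α β => ?_⟩
  · have h := s l (t l h)
    have n : ∀ (x : R4) j, |x j| ≤ ‖x‖ := fun x j => PiLp.norm_apply_le x j
    refine ⟨hb_adm δ0 h.2, ⟨by linarith, δ0, fun i x e j => ?_, fun i x => ?_, fun i x z => ?_,
      fun i j e x z hx hz => ?_⟩, fun i x z hx hz j => ?_⟩
    · linarith [n x j, hb_lt δ0 e, h.1 i, norm_sub_norm_le x (y i)]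
    · exact (abs_of_nonneg (smoothTransition.nonneg _)).trans_le
        ((smoothTransition.le_one _).trans (by linarith))
    · refine (hL.dist_le_mul _ _).trans ?_
      rw [dist_sub_right]
      gcongr
      linarith
    · by_contra! c
      linarith [dist_le_two fun l => (c l).le, h.2 i j e, hb_lt δ0 hx, hb_lt δ0 hz, dist_eq_norm x z,
        norm_sub_rev x (y i), norm_sub_le_norm_sub_add_norm_sub (y i) x (y j),
        norm_sub_le_norm_sub_add_norm_sub x z (y j)]
    · linarith [show |x j - z j| ≤ _ from n (x - z) j, hb_lt δ0 hx, hb_lt δ0 hz, norm_sub_rev z (y i),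
        norm_sub_le_norm_sub_add_norm_sub x (y i) z]
  · refine Continuous.smul (f := fun y => _ * cut _ M y) ?_
      ((pcL (K := ℝ) l).continuous_of_finiteDimensional.comp (Vw_cont (ι := Fin l.m) δ0))
    unfold cut
    fun_prop
  · rw [Vw_rot δ0, pc_rho (mx_orth R), rho_smul]
    simp only [cut, ← map_sub, R.norm_map]
  · rw [← inv_mul_cancel_left₀ (μ0 l) (pc l c α β), ← hμ, ← integral_const_mul]
    refine congrArg _ (funext fun y => ?_)
    rw [ip_smul, congrFun₂ Vw_eq α β]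
    exact (mul_assoc ..).trans ((mul_assoc ..).trans (congrArg _ (mul_left_comm ..)))

theorem frI_int {k : ℕ} (a : Fin k → Lab ℂ) {f : Fin k → R4 → ℝ} (hf : Adm f) :
    Integrable fun y : Fin k → R4 => ((∏ i, f i (y i) : ℝ) : ℂ) * freeL GD.d a y := by
  simp only [Lb.freeL_basis, Finset.mul_sum, mul_left_comm ((_ : ℝ) : ℂ), ← Complex.ofReal_mul]
  exact integrable_finset_sum _ fun e _ =>
    ((Lb.Adm.wt hf).mul (Lb.frL_cont' _)).int.ofReal.const_mul _

/-- the free correlation function is multilinear in the labels -/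
theorem frI_ml {k : ℕ} {f : Fin k → R4 → ℝ} (hf : Adm f) :
    ∃ M : MultilinearMap ℂ (fun _ : Fin k => Lab ℂ) ℂ, ∀ a, M a = frI a f := by
  refine ⟨⟨fun a => frI a f, fun a i x y => ?_, fun a i c x => ?_⟩, fun _ => rfl⟩
  · rw [frI, frI, frI, ← integral_add (frI_int _ hf) (frI_int _ hf)]
    simp only [← Lb.freeM_apply, MultilinearMap.map_update_add, mul_add]
  · simp only [frI, ← Lb.freeM_apply, MultilinearMap.map_update_smul, smul_eq_mul,
      mul_left_comm _ c, integral_const_mul]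

theorem frI_cx {k : ℕ} (a : Fin k → Lab ℝ) (f : Fin k → R4 → ℝ) : frI (fun i => cx (a i)) f =
    (∫ y : Fin k → R4, (∏ i, f i (y i)) * frL (GD.d / 2) a y : ℝ) := by
  simp only [frI, cx, Lb.freeL_map, ← Complex.ofReal_mul]
  exact integral_ofReal

theorem frI_ne {a b : Lab ℝ} {ζ : R4} (h0 : ζ ≠ 0) (h : frL (GD.d / 2) ![a, b] ![0, ζ] ≠ 0) :
    ∃ f : Fin 2 → R4 → ℝ, Adm f ∧ frI (fun i => cx (![a, b] i)) f ≠ 0 := by
  obtain ⟨δ, c, δ0⟩ := ((Lb.hb_pos (p := ![0, ζ]) (by simp [h0.symm])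
    (fun y e => (Lb.frL_cont' _ y e).mul_const _) (mul_self_pos.2 h)).and self_mem_nhdsWithin).exists
  refine ⟨_, Lb.hb_adm δ0 fun i j e => (c.1 i j e).le, fun e => c.2.ne' ?_⟩
  rw [frI_cx, Complex.ofReal_eq_zero] at e
  simp only [← mul_assoc, integral_mul_const, e, zero_mul]

theorem frI_c0 {k : ℕ} (f : Fin k → R4 → ℝ) :
    ((gm ^ k : ℝ) : ℂ) * frI (fun _ => Lb.c0) f = kap f := by
  simp only [frI, Lb.freeL_c0, ← Complex.ofReal_mul, kap, integral_complex_ofReal]
  rfl

theorem frI_pa {k : ℕ} (a : Fin k → Lab ℂ) (f : Fin k → R4 → ℝ) :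
    frI (fun i => Lb.pa (a i)) f = frI a f := by
  have := fun v => congrArg (Matrix.map · Complex.ofRealHom) (Lb.an_pr v)
  have t := fun v => congrArg (Matrix.map · Complex.ofRealHom) (Lb.pr_an v)
  simp only [Matrix.map_mul, Lb.an_map] at this t
  simp only [frI, Lb.freeL_eq]
  exact congrArg _ (funext fun y => congrArg _ (Lb.lq_pa (fun _ _ => this _) (fun _ _ => t _) a))

theorem dim_ne : (GD.d / 2 : ℝ) ≠ 0 := by
  have := GD.d3
  positivity

end Pool.Agent.Lib.MP_7f377f_mp.Cm
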