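import Pool.Agent.Lib.MP_7f377f_mp.StR

/-! Riemann sums of convolutions converge together with the first derivatives. -/

noncomputable section

namespace Pool.Agent.Lib.MP_7f377f_mp.St

open Filter Topology Set MeasureTheory Metric
open scoped NNReal

/-- Riemann sums with values in a Banach space -/
theorem riemB {V : Type} [NormedAddCommGroup V] [NormedSpace ℝ V] [CompleteSpace V] {F : E4 → V}
    (hF : Continuous F) (hs : HasCompactSupport F) :
    Tendsto (fun ε : ℝ => ε ^ 4 • ∑' z, F (pt ε z)) (𝓝[>] 0) (𝓝 (∫ y, F y)) := by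
  have m : ∀ ε, Measurable (fl ε) := fun ε =>
    measurable_pi_lambda _ fun l => Measurable.floor (Measurable.div_const (by fun_prop) _)
  have hm : ∀ ε, AEStronglyMeasurable (fun y => F (pt ε (fl ε y))) volume := fun ε =>
    ((StronglyMeasurable.of_discrete (f := fun z => F (pt ε z))).comp_measurable
      (m ε)).aestronglyMeasurable
  obtain ⟨C, hC⟩ := hF.bounded_above_of_compact_support hs
  have hK := hs.isCompact.cthickening (r := 2)
  have hb : Integrable ((cthickening 2 (tsupport F)).indicator fun _ => C) :=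
    (integrable_indicator_iff hK.measurableSet).2 (integrableOn_const hK.measure_lt_top.ne)
  have hd : ∀ᶠ ε in 𝓝[>] (0 : ℝ), 0 < ε ∧ ∀ y, ‖F (pt ε (fl ε y))‖ ≤
      (cthickening 2 (tsupport F)).indicator (fun _ => C) y := by
    filter_upwards [Ioo_mem_nhdsGT one_pos] with ε hε
    refine ⟨hε.1, fun y => ?_⟩
    by_cases h : F (pt ε (fl ε y)) = 0
    · rw [h, norm_zero]
      exact indicator_nonneg (fun _ _ => (norm_nonneg _).trans (hC 0)) y
    · rw [indicator_of_mem (mem_cthickening_of_dist_le y _ 2 _ (subset_tsupport F h)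
        (by linarith [fl_near hε.1 y, dist_comm y (pt ε (fl ε y)), hε.2]))]
      exact hC _
  refine (tendsto_integral_filter_of_dominated_convergence _ (.of_forall hm)
    (hd.mono fun ε h => ae_of_all _ h.2) hb (ae_of_all _ fun y => (hF.tendsto y).comp
      (tendsto_iff_dist_tendsto_zero.2 (squeeze_zero' (.of_forall fun _ => dist_nonneg)
      (hd.mono fun ε h => fl_near h.1 y) (tendsto_nhdsWithin_of_tendsto_nhds
        (Continuous.tendsto' (by fun_prop) _ _ (by simp))))))).congr' (hd.mono fun ε h => ?_)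
  have h0 : AEStronglyMeasurable (fun z => F (pt ε z)) (Measure.map (fl ε) volume) :=
    StronglyMeasurable.of_discrete.aestronglyMeasurable
  rw [← integral_map (m ε).aemeasurable h0, integral_countable ((integrable_map_measure h0
    (m ε).aemeasurable).2 (hb.mono' (hm ε) (ae_of_all _ h.2)))]
  refine (tsum_congr fun z => ?_).trans (tsum_const_smul'' _)
  have e : fl ε ⁻¹' {z} = WithLp.ofLp ⁻¹' (univ.pi fun l => Ico (z l * ε) ((z l + 1) * ε)) := by
    ext y
    simp only [mem_preimage, mem_singleton_iff, funext_iff, fl, Int.floor_eq_iff, Set.mem_pi,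
      mem_univ, true_imp_iff, mem_Ico, le_div_iff₀ h.1, div_lt_iff₀ h.1]
  rw [Measure.real, Measure.map_apply (m ε) (measurableSet_singleton z), e,
    (PiLp.volume_preserving_ofLp (Fin 4)).measure_preimage
      (MeasurableSet.univ_pi fun _ => measurableSet_Ico).nullMeasurableSet, Real.volume_pi_Ico]
  simp [add_mul, h.1.le]

variable {ι : Type} {l : Filter ι} {ε : ι → ℝ} {s t : ι → Finset (Fin 4 → ℤ)} {a g h φ : E4 → ℝ}
  {p : B1}

theorem riemS {V : Type} [NormedAddCommGroup V] [NormedSpace ℝ V] [CompleteSpace V] {F : E4 → V}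
    (hF : Continuous F) (hs : HasCompactSupport F) (hε : Tendsto ε l (𝓝[>] 0))
    (h : ∀ j z, F (pt (ε j) z) ≠ 0 → z ∈ s j) :
    Tendsto (fun j => ∑ z ∈ s j, ε j ^ 4 • F (pt (ε j) z)) l (𝓝 (∫ y, F y)) :=
  ((riemB hF hs).comp hε).congr fun j => by
    rw [Function.comp, tsum_eq_sum (s := s j) fun z hz => not_not.1 fun e => hz (h j z e),
      Finset.smul_sum]

/-- translation as a linear map -/
def trL (x : E4) : B1 →L[ℝ] B1 := LinearMap.mkContinuous
  ⟨⟨tr x, fun p q => b1_ext fun y => by simp only [ev_tr, fn, map_add]⟩,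
    fun c p => b1_ext fun y => by simp only [ev_tr, fn, map_smul, RingHom.id_apply]⟩ 1
  fun p => (norm_tr x p).trans_eq (one_mul _).symm

theorem trL_eq (x : E4) (p : B1) : trL x p = tr x p := rfl

theorem tr_tr (x y : E4) (p : B1) : tr x (tr y p) = tr (x + y) p :=
  b1_ext fun z => by
    rw [ev_tr, ev_tr, fn, ev_tr, sub_sub]

theorem tr_zero (p : B1) : tr 0 p = p := b1_ext fun z => by rw [ev_tr, sub_zero, fn]

theorem lip_fn (p : B1) : LipschitzWith ‖p‖₊ (fn p) :=
  lipschitzWith_of_nnnorm_fderiv_le (𝕜 := ℝ) (fun x => (fn_der p x).differentiableAt) fun x => by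
    rw [(fn_der p x).fderiv, LinearIsometryEquiv.nnnorm_map]
    exact (p.1.2.norm_coe_le_norm x).trans (norm_snd_le p.1)

theorem lip_le {η : ℝ≥0} (h : ‖p‖ ≤ η) : LipschitzWith η (fn p) := (lip_fn p).weaken h

theorem norm_at (a : E4 → ℝ) (y x : E4) (p : B1) : ‖a y • tr x p‖ ≤ ‖a y‖ * ‖p‖ :=
  (norm_smul_le _ _).trans (mul_le_mul_of_nonneg_left (norm_tr _ _) (norm_nonneg _))

variable (a1 : Continuous a) (a2 : HasCompactSupport a) (hp : Continuous fun x => tr x p)
include a1 a2 hp

theorem int_tr (c : ℝ) : Integrable fun y => a y • tr (c • y) p :=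
  (a1.smul (hp.comp (continuous_const_smul c))).integrable_of_hasCompactSupport a2.smul_right

theorem cont_int (c : ℝ) : Continuous fun x => tr x (∫ y, a y • tr (c • y) p) := by
  have e : ∀ x, tr x (∫ y, a y • tr (c • y) p) = ∫ y, a y • tr (x + c • y) p := fun x => by
    rw [← trL_eq, ← (trL x).integral_comp_comm (int_tr a1 a2 hp c)]
    simp only [map_smul, trL_eq, tr_tr]
  simp only [e]
  exact continuous_of_dominated (bound := fun y => ‖a y‖ * ‖p‖)
    (fun x => (a1.smul (hp.comp (by fun_prop))).aestronglyMeasurable)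
    (fun x => ae_of_all _ fun y => norm_at a y _ p)
    ((a1.integrable_of_hasCompactSupport a2).norm.mul_const _)
    (ae_of_all _ fun y => (hp.comp (continuous_add_const (c • y))).const_smul (a y))

theorem conv_sum (c : ℝ) {P : ι → B1} (hP : Tendsto P l (𝓝 p)) (hε : Tendsto ε l (𝓝[>] 0))
    (hs : ∀ j z, a (pt (ε j) z) ≠ 0 → z ∈ s j) :
    Tendsto (fun j => ∑ z ∈ s j, ε j ^ 4 • a (pt (ε j) z) • tr (c • pt (ε j) z) (P j)) l
      (𝓝 (∫ y, a y • tr (c • y) p)) := by
  have t1 := riemS (F := fun y => a y • tr (c • y) p) (a1.smul (hp.comp (continuous_const_smul c)))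
    a2.smul_right hε fun j z e => hs j z (left_ne_zero_of_smul e)
  have t2 := (riemS a1.norm a2.norm hε fun j z e => hs j z (norm_ne_zero_iff.1 e)).mul
    (tendsto_iff_norm_sub_tendsto_zero.1 hP)
  rw [mul_zero] at t2
  refine t1.congr_dist (squeeze_zero (fun _ => dist_nonneg) (fun j => ?_) t2)
  rw [dist_comm, dist_eq_norm, ← Finset.sum_sub_distrib, Finset.sum_mul]
  refine norm_sum_le_of_le _ fun z _ => ?_
  rw [← smul_sub, ← smul_sub, ← trL_eq, ← trL_eq, ← map_sub, trL_eq, norm_smul, smul_eq_mul,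
    mul_assoc, Real.norm_of_nonneg (by positivity)]
  exact mul_le_mul_of_nonneg_left (norm_at a _ _ _) (by positivity)

theorem conv_int {P : ℝ → B1} (hP : Tendsto P (𝓝[>] 0) (𝓝 p))
    (hc : ∀ d, Continuous fun x => tr x (P d)) :
    Tendsto (fun d => ∫ y, a y • tr (d • y) (P d)) (𝓝[>] 0) (𝓝 ((∫ y, a y) • p)) := by
  rw [← integral_smul_const]
  refine tendsto_integral_filter_of_dominated_convergence (fun u => ‖a u‖ * (‖p‖ + 1))
    (.of_forall fun d => (int_tr a1 a2 (hc d) d).1)
    ((hP.norm.eventually_le_const (lt_add_one _)).mono fun d hd => ae_of_all _ fun u =>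
      (norm_at a _ _ _).trans (mul_le_mul_of_nonneg_left hd (norm_nonneg _)))
    ((a1.integrable_of_hasCompactSupport a2).norm.mul_const _)
    (ae_of_all _ fun u => Tendsto.const_smul ?_ _)
  refine (tendsto_nhdsWithin_of_tendsto_nhds ((hp.comp (by fun_prop :
    Continuous fun d : ℝ => d • u)).tendsto' 0 p (by simp [tr_zero]))).congr_dist
      (squeeze_zero (fun _ => dist_nonneg) (fun d => ?_) (tendsto_iff_norm_sub_tendsto_zero.1 hP))
  rw [dist_comm, dist_eq_norm, Function.comp, ← trL_eq, ← trL_eq, ← map_sub]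
  exact norm_tr _ _

omit a1 a2 hp in
/-- the double Riemann sum of an approximate unit -/
theorem approx (hg : Ts univ g) (hh : Ts univ h) (φ1 : Continuous φ) (φ2 : HasCompactSupport φ)
    (h1 : (∫ y, φ y) * ∫ y, h y = 1) (hε : Tendsto ε l (𝓝[>] 0))
    (hs : ∀ j z, g (pt (ε j) z) ≠ 0 → z ∈ s j) (ht : ∀ j z, φ (pt (ε j) z) ≠ 0 → z ∈ t j)
    {η : ℝ≥0} (η0 : 0 < η) : ∀ᶠ d in 𝓝[>] (0 : ℝ), ∀ᶠ j in l, LipschitzWith η
      ((∑ z ∈ s j ×ˢ t j, ((ε j / d) ^ 4 * g (pt (ε j) z.1) * (ε j ^ 4 * φ (pt (ε j) z.2))) •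
        fun y => h (d⁻¹ • (y - pt (ε j) z.1) - pt (ε j) z.2)) - g) := by
  obtain ⟨p, rfl, -, p4⟩ := hg.jet
  have c1 := cont_int hh.2.1.continuous hh.1 p4
  have t1 := conv_int hh.2.1.continuous hh.1 p4 (P := fun _ => p) tendsto_const_nhds fun _ => p4
  have t2 := conv_int φ1 φ2 (p := (∫ y, h y) • p)
    ((p4.const_smul (∫ y, h y)).congr fun x => ((trL x).map_smul _ p).symm) t1 c1
  rw [smul_smul, h1, one_smul] at t2
  filter_upwards [t2.eventually (ball_mem_nhds p (NNReal.coe_pos.2 η0)), self_mem_nhdsWithin]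
    with d hd (d0 : 0 < d)
  obtain ⟨q, q1, -, q4⟩ := Ts.jet (O := univ) (g := fun y => d⁻¹ ^ 4 * h (d⁻¹ • y))
    ⟨(hh.1.comp_smul (inv_ne_zero d0.ne')).mul_left, contDiff_const.mul (hh.2.1.comp (by fun_prop)),
      subset_univ _⟩
  have e : ∫ y, fn p y • tr ((1 : ℝ) • y) q = ∫ y, h y • tr (d • y) p := b1_ext fun y => by
    rw [← (ev y).integral_comp_comm (int_tr hg.2.1.continuous hg.1 q4 1),
      ← (ev y).integral_comp_comm (int_tr hh.2.1.continuous hh.1 p4 d),
      ← integral_sub_left_eq_self _ _ y]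
    have := Measure.integral_comp_smul_of_nonneg volume
      (fun x => h (d⁻¹ • x) * fn p (y - x)) d (hR := d0.le)
    simp only [map_smul, ev_tr, smul_eq_mul, sub_sub_cancel, q1, mul_left_comm, one_smul,
      integral_const_mul, inv_smul_smul₀ d0.ne', finrank_euclideanSpace, Fintype.card_fin,
      ← inv_pow] at this ⊢
    rw [this]
    simp only [mul_comm]
  have t3 := conv_sum hg.2.1.continuous hg.1 q4 1 (P := fun _ => q) tendsto_const_nhds hε hs
  rw [e] at t3
  filter_upwards [(conv_sum φ1 φ2 (c1 d) d t3 hε ht).eventually (isOpen_ball.mem_nhds hd)] with j hj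
  have := lip_le (mem_ball_iff_norm.1 hj).le
  refine (congrArg (LipschitzWith η) (funext fun y => ?_)).mp this
  have e : ∀ x z : E4, d⁻¹ • (y - d • z - x) = d⁻¹ • (y - x) - z := fun x z => by
    rw [sub_right_comm, smul_sub d⁻¹ (y - x), inv_smul_smul₀ d0.ne']
  rw [Finset.sum_product_right]
  simp only [fn, map_sub, map_sum, map_smul, ev_tr, smul_eq_mul, one_smul, Pi.sub_apply,
    Finset.sum_apply, Pi.smul_apply, Finset.mul_sum, show ∀ y, ev y q = _ from congrFun q1, e]
  refine congrArg (· - _) (Finset.sum_congr rfl fun z _ => Finset.sum_congr rfl fun x _ => ?_)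
  ring

end Pool.Agent.Lib.MP_7f377f_mp.St
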