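import Pool.Agent.Lib.MP_7f377f_mp.G.PurK
import Pool.Agent.Lib.MP_7f377f_mp.G.LgDefs

/-! Operator bounds with explicit growth for small well separated supports. -/

noncomputable section

namespace Pool.Agent.Lib.MP_7f377f_mp.Lg
variable [Pool.Agent.Lib.MP_7f377f_mp.GD]
set_option linter.unusedSectionVars false

open MeasureTheory Filter Topology Set Real YM7 Pur MvPolynomial
open scoped NNReal ContDiff Nat FourierTransform

variable {S : ∀ {k : ℕ}, (Fin k → R4 → ℝ) → ℝ}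

namespace LgQB

variable {S' : Pol →ₗ[ℂ] ℂ}

/-- the product bound for slots of width `w` and sources of size `u / 32` -/
def PB (S : ∀ {k : ℕ}, (Fin k → R4 → ℝ) → ℝ) (w u B : ℝ) : Prop :=
  ∀ (k : ℕ) (c : Fin k → Fin 4 → ℤ) (z : Fin k → R4) (f : Fin k → R4 → ℝ), Adm f → c.Injective →
    (∀ i, LipschitzWith 1 (f i) ∧ ∀ y, |f i y| ≤ 1 ∧ (f i y ≠ 0 → ∀ l, |y l - z i l| ≤ u / 32)) →
    (∀ i l, c i l * w + u ≤ z i l ∧ z i l ≤ (c i l + 1) * w - u) → |S f| ≤ exp (B * k)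

theorem cell (hS : net.St S') (h : ∀ {k} {f : Fin k → R4 → ℝ}, Adm f → S' (mon f) = S f)
    {s u B : ℝ} (hP : PB S s u B) (s0 : 0 < s) (u0 : 0 < u) {M : ℕ} (M0 : 0 < M) {k : ℕ}
    (g : Fin k → R4 → ℝ) (c : Fin k → Fin 4 → ℤ) (z : Fin k → R4) (g1 : ∀ i, ContDiff ℝ 1 (g i))
    (c1 : Function.Injective c) (c2 : ∀ i l, 0 ≤ c i l ∧ c i l < M)
    (g2 : ∀ i, LipschitzWith 1 (g i) ∧ ∀ y, |g i y| ≤ 1 ∧
      (g i y ≠ 0 → ∀ l, |y l - z i l| ≤ u / 32))
    (c3 : ∀ i l, c i l * s + u ≤ z i l ∧ z i l ≤ (c i l + 1) * s - u) :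
    net.QB S' (mon g) (2 * (M * s)) (exp (B * k)) := by
  obtain ⟨d, x, d1, x1, x2⟩ : ∃ (d : (Fin 4 → ℤ) → Fin k → Fin 4 → ℤ)
      (x : (Fin 4 → ℤ) → Fin k → R4),
      (∀ a i l, d a i l = if Even (a l) then a l * M + c i l else (a l + 1) * M - c i l - 1) ∧
      (∀ a i y, g i (fo (M * s) a y) ≠ 0 → ∀ l, |y l - x a i l| ≤ u / 32) ∧
      ∀ a i l, d a i l * s + u ≤ x a i l ∧ x a i l ≤ (d a i l + 1) * s - u := by
    refine ⟨_, fun a i => WithLp.toLp 2 fun l =>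
      if Even (a l) then z i l + a l * (M * s) else (a l + 1) * (M * s) - z i l,
      fun _ _ _ => rfl, fun a i y hy l => ?_, fun a i l => ?_⟩
    · have := abs_le.1 (((g2 i).2 _).2 hy l)
      rw [abs_le]
      by_cases e : Even (a l) <;> simp only [fo, e, if_true, if_false] at this ⊢ <;>
        constructor <;> linarith [this.1, this.2]
    · have := c3 i l
      by_cases e : Even (a l) <;> simp only [e, if_true, if_false] <;> push_cast <;>
        constructor <;> linarith [this.1, this.2]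
  have d2 : ∀ a i y, g i (fo (M * s) a y) ≠ 0 → ∀ l,
      d a i l * s + u / 2 ≤ y l ∧ y l ≤ (d a i l + 1) * s - u / 2 := fun a i y hy l => by
    have e1 := abs_le.1 (x1 a i y hy l)
    have e2 := x2 a i l
    constructor <;> linarith [e1.1, e1.2, e2.1, e2.2]
  have δ0 : 0 < u / 2 := half_pos u0
  have d3 : ∀ a i l, a l * M ≤ d a i l ∧ d a i l < (a l + 1) * M := fun a i l => by
    have := c2 i l
    rw [d1]
    split_ifs <;> constructor <;> linarith [this.1, this.2]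
  have d4 : ∀ a i a' i', d a i = d a' i' → a = a' ∧ i = i' := fun a i a' i' u => by
    have M1 : (0 : ℤ) ≤ M := Int.natCast_nonneg M
    obtain rfl : a = a' := funext fun l => by
      have e1 := d3 a i l
      have e2 := d3 a' i' l
      rw [u] at e1
      have e3 := lt_of_mul_lt_mul_right (e1.1.trans_lt e2.2) M1
      have e4 := lt_of_mul_lt_mul_right (e2.1.trans_lt e1.2) M1
      omega
    refine ⟨rfl, c1 (funext fun l => ?_)⟩
    have := congrFun u l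
    rw [d1, d1] at this
    split_ifs at this <;> omega
  have := Net.qb_of_arr hS (w := M * s) (η := exp (B * k)) (by positivity) (exp_pos _).le
    (fun a => mon fun i y => g i (fo (M * s) a y)) (fun a => ?_)
    (fun μ a => by simp only [Θ_mon, fo_rf]) (fun μ a => by simp only [τ_mon, fo_ax])
    fun lo hi => ?_
  · simpa only [fo_zero] using this
  · refine mon_mem (adm_cells s0 δ0 (fun i => (g1 i).comp (fo_smooth _ a))
      (fun i j u => (d4 a i a j u).2) (d2 a)) fun i y hy l => ?_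
    have e1 := tsupp_box (d2 a i) hy l
    have e2 : (a l * M : ℝ) ≤ d a i l := by exact_mod_cast (d3 a i l).1
    have e3 : (d a i l + 1 : ℝ) ≤ (a l + 1) * M := by exact_mod_cast (d3 a i l).2
    constructor <;> nlinarith [e1.1, e1.2]
  · let ψ := (Fintype.equivFin (cells lo hi × Fin k)).symm
    have e1 : Function.Injective fun j => d (ψ j).1 (ψ j).2 := fun j j' u =>
      ψ.injective (Prod.ext (Subtype.ext (d4 _ _ _ _ u).1) (d4 _ _ _ _ u).2)
    have e2 := adm_cells (F := fun j y => g (ψ j).2 (fo (M * s) (ψ j).1 y)) s0 δ0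
      (fun j => (g1 _).comp (fo_smooth _ _)) e1 fun j => d2 _ _
    have e3 : ∏ a ∈ cells lo hi, mon (fun i y => g i (fo (M * s) a y)) =
        mon fun j y => g (ψ j).2 (fo (M * s) (ψ j).1 y) := by
      rw [← Finset.prod_coe_sort, mon, ψ.prod_comp fun p : cells lo hi × Fin k =>
        (X fun y => g p.2 (fo (M * s) p.1 y) : Pol), Fintype.prod_prod_type]
      rfl
    rw [e3, h e2, Complex.norm_real, norm_eq_abs, ← exp_nat_mul]
    refine (hP _ _ (fun j => x (ψ j).1 (ψ j).2) _ e2 e1 (fun j =>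
      ⟨one_mul (1 : ℝ≥0) ▸ (g2 _).1.comp (fo_lip _ _), fun y => ⟨((g2 _).2 _).1, x1 _ _ y⟩⟩)
      fun j => x2 _ _).trans_eq ?_
    rw [Fintype.card_prod, Fintype.card_coe, Fintype.card_fin]
    push_cast
    congr 1
    ring

theorem box {k : ℕ} {g : Fin k → R4 → ℝ} (hg : Adm g) :
    ∃ R, 0 ≤ R ∧ ∀ i, tsupport (g i) ⊆ Bx R := by
  obtain ⟨D, -, h4, -⟩ := hg.data
  exact ⟨D + 1, by positivity, fun i y hy l =>
    ((PiLp.norm_apply_le y l).trans (h4 i y hy)).trans_lt (lt_add_one _)⟩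

theorem piece (hS : net.St S') (h : ∀ {k} {f : Fin k → R4 → ℝ}, Adm f → S' (mon f) = S f)
    (hL : LinP S') {w u B δ : ℝ} (hP : PB S w u B) (u0 : 0 < u) {k : ℕ}
    (hw : u * (3 * k + 1) ≤ w) (hδ : 2 * w < δ) (g : Fin k → R4 → ℝ) (z : Fin k → R4) (g1 : Adm g)
    (g2 : ∀ i, LipschitzWith 1 (g i) ∧ ∀ y, |g i y| ≤ 1 ∧
      (g i y ≠ 0 → ∀ l, |y l - z i l| ≤ u / 32))
    (g3 : ∀ i j, i ≠ j → ∀ x y, g i x ≠ 0 → g j y ≠ 0 → δ ≤ dist x y) :
    ∃ R, net.QB S' (mon g) R (exp (B * k)) := by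
  by_cases h0 : ∃ i, g i = 0
  · obtain ⟨i, hi⟩ := h0
    obtain ⟨R, R0, hR⟩ := box g1
    exact ⟨R, (qb_zero hS hL g1 R0 hR hi).mono hS le_rfl (exp_pos _).le⟩
  have k0 : (0 : ℝ) < 3 * k + 1 := by positivity
  obtain ⟨θ, hθ⟩ : ∃ θ : ℝ, w = θ * (3 * k + 1) := ⟨w / (3 * k + 1), (div_mul_cancel₀ _ k0.ne').symm⟩
  have uθ : u ≤ θ := le_of_mul_le_mul_right (hθ ▸ hw) k0
  have θ0 : 0 < θ := u0.trans_le uθ
  have w0 : 0 < w := by rw [hθ]; positivity
  obtain ⟨m, m1, m2⟩ : ∃ m : Fin k → Fin 4 → ℤ, (∀ i l, θ * m i l ≤ z i l) ∧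
      ∀ i l, z i l < θ * (m i l + 1) :=
    ⟨fun i l => ⌊z i l / θ⌋, fun i l => (le_div_iff₀' θ0).1 (Int.floor_le _), fun i l =>
      (div_lt_iff₀' θ0).1 (Int.lt_floor_add_one _)⟩
  choose j j0 j1 hj using fun l => exists_residue fun i => m i l
  obtain ⟨T, hT⟩ := (Set.finite_range fun p : Fin k × Fin 4 =>
    ((m p.1 p.2 + j p.2) / (3 * k + 1)).natAbs).bddAbove
  obtain ⟨c, hc⟩ : ∃ c : Fin k → Fin 4 → ℤ, ∀ i l, c i l = (m i l + j l) / (3 * k + 1) + T :=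
    ⟨_, fun _ _ => rfl⟩
  obtain ⟨v, hv⟩ : ∃ v : R4, ∀ l, v l = θ * j l + w * T := ⟨WithLp.toLp 2 _, fun _ => rfl⟩
  have key : ∀ i l, c i l * w + u ≤ (z i + v) l ∧ (z i + v) l ≤ (c i l + 1) * w - u := by
    intro i l
    have e1 : ((3 * k + 1) * ((m i l + j l) / (3 * k + 1) : ℤ) +
        ((m i l + j l) % (3 * k + 1) : ℤ) : ℝ) = m i l + j l := by
      exact_mod_cast Int.mul_ediv_add_emod (m i l + j l) (3 * k + 1)
    have e2 : (2 : ℝ) ≤ ((m i l + j l) % (3 * k + 1) : ℤ) := by exact_mod_cast (hj l i).1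
    have e3 : (((m i l + j l) % (3 * k + 1) : ℤ) : ℝ) ≤ 3 * k - 1 := by exact_mod_cast (hj l i).2
    have e5 := congrArg (θ * ·) e1
    have e6 := mul_le_mul_of_nonneg_left e2 θ0.le
    have e7 := mul_le_mul_of_nonneg_left e3 θ0.le
    rw [PiLp.add_apply, hv, hc, Int.cast_add, Int.cast_natCast, hθ]
    constructor <;> linarith [m1 i l, m2 i l]
  have := (cell hS h hP w0 u0 (M := 2 * T + 1) (by omega) (fun i y => g i (y - v)) c
    (fun i => z i + v) (fun i => ((adm_sub g1 v).1 i).2) (fun i i' e => ?_) (fun i l => ?_)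
    (fun i => ⟨?_, fun y => ⟨((g2 i).2 _).1, fun hy l => ?_⟩⟩) key).tau hS (-v)
  · rw [τ_mon] at this
    simp only [sub_neg_eq_add, add_sub_cancel_right] at this
    exact ⟨_, this⟩
  · by_contra hi
    simp only [not_exists, _root_.funext_iff, not_forall] at h0
    obtain ⟨x, hx⟩ := h0 i
    obtain ⟨y, hy⟩ := h0 i'
    refine (g3 i i' hi x y hx hy).not_gt ((dist_le_two fun l => ?_).trans_lt hδ)
    have e1 := key i l
    have e2 := key i' l
    have e3 := abs_le.1 (((g2 i).2 x).2 hx l)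
    have e4 := abs_le.1 (((g2 i').2 y).2 hy l)
    rw [e] at e1
    rw [PiLp.add_apply] at e1 e2
    rw [abs_le]
    constructor <;> linarith [e1.1, e1.2, e2.1, e2.2, e3.1, e3.2, e4.1, e4.2]
  · have e1 : ((m i l + j l) / (3 * k + 1)).natAbs ≤ T := hT ⟨(i, l), rfl⟩
    rw [hc]
    generalize (m i l + j l) / (3 * k + 1) = q at e1
    omega
  · exact .of_dist_le_mul fun x y => ((g2 i).1.dist_le_mul _ _).trans_eq (by rw [dist_sub_right])
  · have := ((g2 i).2 _).2 hy l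
    rwa [PiLp.sub_apply, sub_sub, add_comm, ← PiLp.add_apply] at this

theorem bmp_lip : ∃ K : ℝ≥0, ∀ (η : ℝ) (D : ℕ), η * D = 1 → ∀ (c : Fin 4 → ℤ) (x : R4),
    LipschitzWith (K * D) fun y => bumpS η c (y - x) := by
  obtain ⟨K, hK⟩ := (bumpS_smooth 1 0).lipschitzWith_of_hasCompactSupport
    (cpt_box (lo := fun _ => -1) (hi := fun _ => 1) fun y hy l => by
      simpa [abs_le] using bumpS_supp one_pos hy l) one_ne_zero
  refine ⟨K, fun η D hD c x => .of_dist_le_mul fun y y' => ?_⟩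
  have e : ∀ y : R4, bumpS η c (y - x) =
      bumpS 1 0 ((D : ℝ) • (y - x) - WithLp.toLp 2 fun l => (c l : ℝ)) := fun y => by
    refine Finset.prod_congr rfl fun l _ => congrArg _ ?_
    rw [div_eq_mul_inv, ← eq_inv_of_mul_eq_one_right hD]
    simp [mul_comm]
  rw [e, e]
  refine (hK.dist_le_mul _ _).trans_eq ?_
  rw [dist_sub_right, dist_smul₀, dist_sub_right]
  simp [mul_assoc]

theorem mon_bd (hS : net.St S') (h : ∀ {k} {f : Fin k → R4 → ℝ}, Adm f → S' (mon f) = S f)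
    (hL : LinP S') {w u B d : ℝ} (hP : PB S w u B) (u0 : 0 < u) {k D : ℕ} {K : ℝ≥0}
    (hK : ∀ (c : Fin 4 → ℤ) (x : R4), LipschitzWith K fun y => bumpS (u / 32) c (y - x))
    (hw : u * (3 * k + 1) ≤ w) (hd : 2 * w < d) (d1 : d ≤ 1) (hD : u / 32 * D = 1)
    {f : Fin k → R4 → ℝ} {L : Fin k → ℝ≥0} (hf : Far d f L) :
    ∃ R, net.QB S' (mon f) R (((2 * D + 1) ^ 4 * (1 + 3 + 3 * K) * exp B) ^ k * ∏ i, L i) := by
  obtain ⟨f1, f2, f3⟩ := hf
  obtain ⟨R, R0, hR⟩ := box f1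
  by_cases h0 : ∃ i, f i = 0
  · obtain ⟨i, hi⟩ := h0
    exact ⟨R, (qb_zero hS hL f1 R0 hR hi).mono hS le_rfl (by positivity)⟩
  simp only [not_exists, _root_.funext_iff, not_forall] at h0
  choose x hx using h0
  have η0 : 0 < u / 32 := by positivity
  have x1 : ∀ i y, f i y ≠ 0 → ‖y - x i‖ ≤ 1 := fun i y hy =>
    (dist_eq_norm y (x i) ▸ (f2 i).2 y (x i) hy (hx i)).trans d1
  have s1 : ∀ i y, |f i y| ≤ L i * 3 := fun i y => by
    have := sup_le (f := fun y => f i (y + x i)) (L := L i) (.of_dist_le_mul fun y y' =>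
      ((f2 i).1.dist_le_mul _ _).trans_eq (by rw [dist_add_right])) zero_le_one
      (fun y hy => by simpa using x1 i _ hy) (y - x i)
    rw [sub_add_cancel] at this
    exact this.trans_eq (by norm_num)
  obtain ⟨Λ, hΛ⟩ : ∃ Λ : ℝ, Λ = 1 + 3 + 3 * K := ⟨_, rfl⟩
  have Λ0 : 0 < Λ := by rw [hΛ]; positivity
  obtain ⟨g, hg⟩ : ∃ g : Fin k → (Fin 4 → Fin (2 * D + 1)) → R4 → ℝ, ∀ i z, g i z =
    fun y => (Λ * L i)⁻¹ * (bumpS (u / 32) (fun l => z l - D) (y - x i) * f i y) :=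
    ⟨_, fun _ _ => rfl⟩
  have g0 : ∀ i z y, g i z y ≠ 0 → bumpS (u / 32) (fun l => z l - D) (y - x i) ≠ 0 ∧ f i y ≠ 0 :=
    fun i z y hy => mul_ne_zero_iff.1 (right_ne_zero_of_mul (hg i z ▸ hy :))
  have g1 : ∀ i z, tsupport (g i z) ⊆ tsupport (f i) := fun i z =>
    closure_mono fun y hy => (g0 i z y hy).2
  have g2 : ∀ i z, HasCompactSupport (g i z) ∧ ContDiff ℝ 1 (g i z) := fun i z =>
    ⟨(f1.1 i).1.mono fun y hy => (g0 i z y hy).2,
      hg i z ▸ contDiff_const.mul (((bumpS_smooth _ _).comp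
        (contDiff_id.sub contDiff_const)).mul (f1.1 i).2)⟩
  have g3 : f = fun i => ∑ z, (Λ * L i) • g i z := by
    funext i y
    by_cases e1 : f i y = 0
    · simp [hg, e1]
    · have e2 : (L i : ℝ) ≠ 0 := fun u => e1 (by simpa [u] using s1 i y)
      simp only [Finset.sum_apply, Pi.smul_apply, hg, smul_eq_mul,
        mul_inv_cancel_left₀ (mul_ne_zero Λ0.ne' e2), ← Finset.sum_mul]
      rw [sum_bumpS η0 fun l => ((PiLp.norm_apply_le (y - x i) l).trans (x1 i y e1)).trans hD.ge,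
        one_mul]
  choose r hr using fun z : Fin k → Fin 4 → Fin (2 * D + 1) =>
    piece hS h hL hP u0 hw hd (fun i => g i (z i))
      (fun i => x i + WithLp.toLp 2 fun l => u / 32 * ((z i l : ℤ) - D : ℤ))
      ⟨fun i => g2 i _, fun i j hij => (f1.2 hij).mono (g1 _ _) (g1 _ _)⟩ (fun i => by
        have := norm_piece (by norm_num) (hK (fun l => z i l - D) (x i)) (fun y => abs_bumpS _ _ _)
          (f2 i).1 (s1 i)
        rw [← hΛ, ← hg] at this
        refine ⟨this.1, fun y => ⟨hg i (z i) ▸ this.2 y, fun hy l => ?_⟩⟩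
        have e := bumpS_supp η0 (g0 _ _ y hy).1 l
        rwa [PiLp.sub_apply, sub_sub] at e)
      fun i j hij x y hx hy => f3 i j hij x y (g0 _ _ x hx).2 (g0 _ _ y hy).2
  have r0 : ∀ z, 0 ≤ r z := fun z => (hr z).2.1
  have r1 : 0 ≤ ∑ z, r z := Finset.sum_nonneg fun z _ => r0 z
  have R2 : 0 ≤ R + ∑ z, r z := add_nonneg R0 r1
  have b1 : ∀ i, tsupport (f i) ⊆ Bx (R + ∑ z, r z) := fun i =>
    (hR i).trans (Bx.mono (le_add_of_nonneg_right r1))
  have q1 : net.QB S' (∑ z : Fin k → Fin 4 → Fin (2 * D + 1),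
      ((∏ i, Λ * L i : ℝ) : ℂ) • mon fun i => g i (z i)) _ _ :=
    Net.QB.sum hS _ R2 fun z _ => ((hr z).mono hS (le_add_of_nonneg_of_le R0
      (Finset.single_le_sum (fun z _ => r0 z) (Finset.mem_univ z))) le_rfl).smul _
  have q2 := (Net.qb_null (Submodule.sub_mem _ (mon_mem f1 b1) q1.1) R2 hS fun Z hZ => ?_).add hS q1
  · rw [sub_add_cancel, zero_add] at q2
    refine ⟨_, q2.mono hS le_rfl (le_of_eq ?_)⟩
    rw [Complex.norm_real, norm_of_nonneg (Finset.prod_nonneg fun i _ =>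
      mul_nonneg Λ0.le (L i).coe_nonneg), Finset.prod_mul_distrib, NNReal.coe_prod, ← hΛ,
      mul_comm B, exp_nat_mul]
    simp only [Finset.sum_const, Finset.card_univ, Fintype.card_fun, Fintype.card_fin,
      Finset.prod_const, nsmul_eq_mul, mul_pow]
    push_cast
    ring
  · have := hL.sum f1.2 (fun i z => ⟨(g2 i z).1, (g2 i z).2, g1 i z⟩) (fun i _ => Λ * L i) Z
      (net.mono hZ (compl_subset_compl.2 (iUnion_subset b1)))
    rw [← g3] at this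
    simp only [sub_mul, map_sub, this, Finset.sum_mul, map_sum, smul_mul_assoc, map_smul,
      smul_eq_mul, sub_self]

theorem scales (e0 k : ℕ) {d : ℝ} (d0 : 0 < d) (d1 : d ≤ 1) : ∃ e e' : ℕ, e < e' ∧ e0 ≤ e' ∧
    (3 ^ e' : ℝ)⁻¹ * (3 * k + 1) ≤ (3 ^ e)⁻¹ / 2 ∧ 2 * ((3 ^ e : ℝ)⁻¹ / 2) < d ∧
    (3 ^ e' : ℝ) ≤ 54 * 3 ^ e0 * ((k + 1) / d) := by
  have k0 : (0 : ℝ) ≤ k := k.cast_nonneg
  obtain ⟨n, n1, n2⟩ := exists_nat_pow_near ((one_le_inv₀ d0).2 d1) (show (1 : ℝ) < 3 by norm_num)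
  obtain ⟨p, p1, p2⟩ := exists_nat_pow_near (show (1 : ℝ) ≤ 2 * (3 * k + 1) by linarith)
    (show (1 : ℝ) < 3 by norm_num)
  have a1 : (1 : ℝ) ≤ 3 ^ e0 := one_le_pow₀ (by norm_num)
  refine ⟨n + 1, n + 1 + (p + 1) + e0, by omega, by omega, ?_, ?_, ?_⟩
  · rw [pow_add, pow_add _ (n + 1), inv_mul_le_iff₀ (by positivity)]
    have e : (3 : ℝ) ^ (n + 1) * 3 ^ (p + 1) * 3 ^ e0 * ((3 ^ (n + 1))⁻¹ / 2) =
        3 ^ (p + 1) / 2 * 3 ^ e0 := by field_simp
    rw [e]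
    exact le_trans (by linarith) (le_mul_of_one_le_right (by positivity) a1)
  · rw [mul_div_cancel₀ _ two_ne_zero]
    exact inv_lt_of_inv_lt₀ d0 n2
  · rw [pow_add, pow_add _ (n + 1), pow_succ, pow_succ, div_eq_mul_inv]
    have e1 : (3 : ℝ) ^ p ≤ 6 * (k + 1) := by linarith
    have e2 := mul_le_mul n1 e1 (by positivity) (by positivity)
    have e3 := mul_le_mul_of_nonneg_left e2 (show (0 : ℝ) ≤ 9 * 3 ^ e0 by positivity)
    linarith

end LgQB

open LgQB in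
theorem qb_grow {S' : Pol →ₗ[ℂ] ℂ} (hS : net.St S')
    (h : ∀ {k} {f : Fin k → R4 → ℝ}, Adm f → S' (mon f) = S f) (hL : LinP S') (hP : ProdS S) :
    ∃ (C : ℝ) (s : ℕ), 0 ≤ C ∧ ∀ (k : ℕ) (d : ℝ), 0 < d → d ≤ 1 → ∀ (f : Fin k → R4 → ℝ)
      (L : Fin k → ℝ≥0), Far d f L →
        ∃ R, net.QB S' (mon f) R ((C * ((k + 1) / d) ^ s) ^ k * ∏ i, L i) := by
  obtain ⟨N, N0, hP⟩ := hP
  obtain ⟨e0, hP⟩ := eventually_atTop.1 hP
  obtain ⟨K, hK⟩ := bmp_lip
  obtain ⟨n, hn⟩ := exists_nat_ge N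
  refine ⟨65 ^ 4 * (4 + 96 * K) * (54 * 3 ^ e0) ^ (5 + n), 5 + n, by positivity,
    fun k d d0 d1 f L hf => ?_⟩
  obtain ⟨e, e', a1, a2, a3, a4, a5⟩ := scales e0 k d0 d1
  have hD : (3 ^ e' : ℝ)⁻¹ / 32 * (32 * 3 ^ e' : ℕ) = 1 := by
    push_cast
    field_simp
  obtain ⟨R, hR⟩ := mon_bd hS h hL (B := N * e') (hP e' a2 e a1) (by positivity) (hK _ _ hD) a3 a4
    d1 hD hf
  refine ⟨R, hR.mono hS le_rfl (mul_le_mul_of_nonneg_right
    (pow_le_pow_left₀ (by positivity) ?_ k) (by positivity))⟩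
  have b1 : exp (N * e') ≤ (3 ^ e') ^ n := by
    refine (exp_le_exp.2 (mul_le_mul_of_nonneg_right hn e'.cast_nonneg)).trans ?_
    rw [exp_nat_mul, ← exp_one_pow]
    gcongr
    exact exp_one_lt_three.le
  have u1 : (1 : ℝ) ≤ 3 ^ e' := one_le_pow₀ (by norm_num)
  push_cast
  generalize (3 : ℝ) ^ e' = U at *
  have K0 := K.coe_nonneg
  have b2 : 2 * (32 * U) + 1 ≤ 65 * U := by linarith
  have b3 : 1 + 3 + 3 * (K * (32 * U)) ≤ (4 + 96 * K) * U := by linarith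
  calc _ ≤ (65 * U) ^ 4 * ((4 + 96 * K) * U) * U ^ n := by gcongr
    _ = 65 ^ 4 * (4 + 96 * K) * U ^ (5 + n) := by ring
    _ ≤ 65 ^ 4 * (4 + 96 * K) * (54 * 3 ^ e0 * ((k + 1) / d)) ^ (5 + n) := by gcongr
    _ = _ := by rw [mul_pow, ← mul_assoc]

end Pool.Agent.Lib.MP_7f377f_mp.Lg
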