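import Pool.Agent.Lib.MP_7f377f_mp.G.CmE
import Pool.Agent.Lib.MP_7f377f_mp.G.WmQ1

/-! The explicit operator bound with a radius. -/

noncomputable section

namespace Pool.Agent.Lib.MP_7f377f_mp.Cm
variable [Pool.Agent.Lib.MP_7f377f_mp.GD]
set_option linter.unusedSectionVars false

open MeasureTheory Filter Topology Set Real YM7 Pur MvPolynomial Lg
open Ope (Let gp sc ctr)
open Ro (Iso act)
open Wm (C1)
open Lb (Lab Pl Cl rho mx ip pc frL freeL Sep)
open RG.Q4.En.Ty (Gn Ty sb Det)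
open scoped NNReal

namespace CmQ

open LgQB

variable {S₀ : ∀ {k : ℕ}, (Fin k → R4 → ℝ) → ℝ} {S : Pol →ₗ[ℂ] ℂ}

theorem piece (hS : net.St S) (h : ∀ {k} {f : Fin k → R4 → ℝ}, Adm f → S (mon f) = S₀ f)
    (hL : LinP S) {w u B δ R : ℝ} (hP : PB S₀ w u B) (u0 : 0 < u) {k : ℕ}
    (hw : u * (3 * k + 1) ≤ w) (hδ : 2 * w < δ) (hR : δ ≤ R) (g : Fin k → R4 → ℝ) (z : Fin k → R4)
    (g1 : Adm g) (g2 : ∀ i, LipschitzWith 1 (g i) ∧ ∀ y, |g i y| ≤ 1 ∧
      (g i y ≠ 0 → ∀ l, |y l - z i l| ≤ u / 32))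
    (g3 : ∀ i j, i ≠ j → ∀ x y, g i x ≠ 0 → g j y ≠ 0 → δ ≤ dist x y)
    (g4 : ∀ i, tsupport (g i) ⊆ Bx R) : net.QB S (mon g) (30 * R) (exp (B * k)) := by
  have k0 : (0 : ℝ) < 3 * k + 1 := by positivity
  obtain ⟨θ, hθ⟩ : ∃ θ : ℝ, w = θ * (3 * k + 1) := ⟨w / (3 * k + 1), (div_mul_cancel₀ _ k0.ne').symm⟩
  have uθ : u ≤ θ := le_of_mul_le_mul_right (hθ ▸ hw) k0
  have θ0 : 0 < θ := u0.trans_le uθ
  have w0 : 0 < w := by rw [hθ]; positivity
  have θw : θ ≤ w := hθ ▸ le_mul_of_one_le_right θ0.le (le_add_of_nonneg_left (by positivity))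
  by_cases h0 : ∃ i, g i = 0
  · obtain ⟨i, hi⟩ := h0
    exact (qb_zero hS hL g1 (by linarith) g4 hi).mono hS (by linarith) (exp_pos _).le
  simp only [not_exists, _root_.funext_iff, not_forall] at h0
  have z1 : ∀ i l, -(2 * R) ≤ z i l ∧ z i l ≤ 2 * R := fun i l => by
    obtain ⟨x, hx⟩ := h0 i
    have a1 := abs_le.1 (((g2 i).2 x).2 hx l)
    have a2 := abs_lt.1 (g4 i (subset_tsupport _ hx) l)
    constructor <;> linarith [a1.1, a1.2, a2.1, a2.2]
  obtain ⟨m, m1, m2⟩ : ∃ m : Fin k → Fin 4 → ℤ, (∀ i l, θ * m i l ≤ z i l) ∧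
      ∀ i l, z i l < θ * (m i l + 1) :=
    ⟨fun i l => ⌊z i l / θ⌋, fun i l => (le_div_iff₀' θ0).1 (Int.floor_le _), fun i l =>
      (div_lt_iff₀' θ0).1 (Int.lt_floor_add_one _)⟩
  choose j j0 j1 hj using fun l => exists_residue fun i => m i l
  have j2 : ∀ l, 0 ≤ θ * j l ∧ θ * j l ≤ w := fun l =>
    ⟨mul_nonneg θ0.le (by exact_mod_cast j0 l),
      hθ ▸ mul_le_mul_of_nonneg_left (by exact_mod_cast (j1 l).le) θ0.le⟩
  obtain ⟨T, T1, T2⟩ : ∃ T : ℕ, 3 * R ≤ w * T ∧ w * T ≤ 4 * R := by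
    refine ⟨⌈3 * R / w⌉₊, (div_le_iff₀' w0).1 (Nat.le_ceil _), ?_⟩
    have := mul_le_mul_of_nonneg_left
      (Nat.ceil_lt_add_one (div_nonneg (show 0 ≤ 3 * R by linarith) w0.le)).le w0.le
    rw [mul_add, mul_div_cancel₀ _ w0.ne'] at this
    linarith
  obtain ⟨c, hc⟩ : ∃ c : Fin k → Fin 4 → ℤ, ∀ i l, c i l = (m i l + j l) / (3 * k + 1) + T :=
    ⟨_, fun _ _ => rfl⟩
  obtain ⟨v, hv⟩ : ∃ v : R4, ∀ l, v l = θ * j l + w * T := ⟨WithLp.toLp 2 _, fun _ => rfl⟩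
  have v1 : ‖-v‖ ≤ 2 * (5 * R) := by
    rw [norm_neg, ← dist_zero_right]
    refine dist_le_two fun l => ?_
    rw [PiLp.zero_apply, sub_zero, hv, abs_le]
    constructor <;> linarith [(j2 l).1, (j2 l).2]
  have key : ∀ i l, c i l * w + u ≤ (z i + v) l ∧ (z i + v) l ≤ (c i l + 1) * w - u := by
    intro i l
    have e1 : ((3 * k + 1) * ((m i l + j l) / (3 * k + 1) : ℤ) +
        ((m i l + j l) % (3 * k + 1) : ℤ) : ℝ) = m i l + j l := by
      exact_mod_cast Int.mul_ediv_add_emod (m i l + j l) (3 * k + 1)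
    have e2 : (2 : ℝ) ≤ ((m i l + j l) % (3 * k + 1) : ℤ) := by exact_mod_cast (hj l i).1
    have e3 : (((m i l + j l) % (3 * k + 1) : ℤ) : ℝ) ≤ 3 * k - 1 := by exact_mod_cast (hj l i).2
    have e5 := congrArg (θ * ·) e1
    have e6 := mul_le_mul_of_nonneg_left e2 θ0.le
    have e7 := mul_le_mul_of_nonneg_left e3 θ0.le
    rw [PiLp.add_apply, hv, hc, Int.cast_add, Int.cast_natCast, hθ]
    constructor <;> linarith [m1 i l, m2 i l]
  have := (cell hS h hP w0 u0 (M := 2 * T + 1) (by omega) (fun i y => g i (y - v)) c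
    (fun i => z i + v) (fun i => ((adm_sub g1 v).1 i).2) (fun i i' e => ?_) (fun i l => ?_)
    (fun i => ⟨?_, fun y => ⟨((g2 i).2 _).1, fun hy l => ?_⟩⟩) key).tau hS (-v)
  · rw [τ_mon] at this
    simp only [sub_neg_eq_add, add_sub_cancel_right] at this
    refine this.mono hS ?_ le_rfl
    push_cast
    linarith
  · by_contra hi
    obtain ⟨x, hx⟩ := h0 i
    obtain ⟨y, hy⟩ := h0 i'
    refine (g3 i i' hi x y hx hy).not_gt ((dist_le_two fun l => ?_).trans_lt hδ)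
    have e1 := key i l
    have e2 := key i' l
    have e3 := abs_le.1 (((g2 i).2 x).2 hx l)
    have e4 := abs_le.1 (((g2 i').2 y).2 hy l)
    rw [e] at e1
    rw [PiLp.add_apply] at e1 e2
    rw [abs_le]
    constructor <;> linarith [e1.1, e1.2, e2.1, e2.2, e3.1, e3.2, e4.1, e4.2]
  · have e1 := key i l
    rw [PiLp.add_apply, hv] at e1
    have e2 : (0 : ℝ) < c i l + 1 := pos_of_mul_pos_right (a := w)
      (by linarith [e1.2, (z1 i l).1, (j2 l).1]) w0.le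
    have e3 : (c i l : ℝ) < 2 * T + 1 := lt_of_mul_lt_mul_right (a := w)
      (by linarith [e1.1, (z1 i l).2, (j2 l).2]) w0.le
    exact ⟨Int.lt_add_one_iff.1 (by exact_mod_cast e2), by exact_mod_cast e3⟩
  · exact .of_dist_le_mul fun x y => ((g2 i).1.dist_le_mul _ _).trans_eq (by rw [dist_sub_right])
  · have := ((g2 i).2 _).2 hy l
    rwa [PiLp.sub_apply, sub_sub, add_comm, ← PiLp.add_apply] at this

theorem mon_bd (hS : net.St S) (h : ∀ {k} {f : Fin k → R4 → ℝ}, Adm f → S (mon f) = S₀ f)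
    (hL : LinP S) {w u B d R : ℝ} (hP : PB S₀ w u B) (u0 : 0 < u) {k D : ℕ} {K : ℝ≥0}
    (hK : ∀ (c : Fin 4 → ℤ) (x : R4), LipschitzWith K fun y => bumpS (u / 32) c (y - x))
    (hw : u * (3 * k + 1) ≤ w) (hd : 2 * w < d) (d0 : 0 < d) (d1 : d ≤ 1) (dR : d ≤ R)
    (hD : u / 32 * D = 1) {f : Fin k → R4 → ℝ} {L : Fin k → ℝ≥0} (hf : Far d f L)
    (hR : ∀ i, tsupport (f i) ⊆ Bx R) :
    net.QB S (mon f) (30 * R) (((2 * D + 1) ^ 4 * (1 + 3 + 3 * K) * exp B) ^ k * ∏ i, L i) := by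
  obtain ⟨f1, f2, f3⟩ := hf
  have R2 : 0 ≤ 30 * R := by linarith
  have b1 : ∀ i, tsupport (f i) ⊆ Bx (30 * R) := fun i => (hR i).trans (Bx.mono (by linarith))
  by_cases h0 : ∃ i, f i = 0
  · obtain ⟨i, hi⟩ := h0
    exact (qb_zero hS hL f1 R2 b1 hi).mono hS le_rfl (by positivity)
  simp only [not_exists, _root_.funext_iff, not_forall] at h0
  choose x hx using h0
  have η0 : 0 < u / 32 := by positivity
  have x1 : ∀ i y, f i y ≠ 0 → ‖y - x i‖ ≤ 1 := fun i y hy =>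
    (dist_eq_norm y (x i) ▸ (f2 i).2 y (x i) hy (hx i)).trans d1
  have s1 : ∀ i y, |f i y| ≤ L i * 3 := fun i y => by
    have := sup_le (f := fun y => f i (y + x i)) (L := L i) (.of_dist_le_mul fun y y' =>
      ((f2 i).1.dist_le_mul _ _).trans_eq (by rw [dist_add_right])) zero_le_one
      (fun y hy => by simpa using x1 i _ hy) (y - x i)
    rw [sub_add_cancel] at this
    exact this.trans_eq (by norm_num)
  obtain ⟨Λ, hΛ⟩ : ∃ Λ : ℝ, Λ = 1 + 3 + 3 * K := ⟨_, rfl⟩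
  have Λ0 : 0 < Λ := by rw [hΛ]; positivity
  obtain ⟨g, hg⟩ : ∃ g : Fin k → (Fin 4 → Fin (2 * D + 1)) → R4 → ℝ, ∀ i z, g i z =
    fun y => (Λ * L i)⁻¹ * (bumpS (u / 32) (fun l => z l - D) (y - x i) * f i y) :=
    ⟨_, fun _ _ => rfl⟩
  have g0 : ∀ i z y, g i z y ≠ 0 → bumpS (u / 32) (fun l => z l - D) (y - x i) ≠ 0 ∧ f i y ≠ 0 :=
    fun i z y hy => mul_ne_zero_iff.1 (right_ne_zero_of_mul (hg i z ▸ hy :))
  have g1 : ∀ i z, tsupport (g i z) ⊆ tsupport (f i) := fun i z =>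
    closure_mono fun y hy => (g0 i z y hy).2
  have g2 : ∀ i z, HasCompactSupport (g i z) ∧ ContDiff ℝ 1 (g i z) := fun i z =>
    ⟨(f1.1 i).1.mono fun y hy => (g0 i z y hy).2,
      hg i z ▸ contDiff_const.mul (((bumpS_smooth _ _).comp
        (contDiff_id.sub contDiff_const)).mul (f1.1 i).2)⟩
  have g3 : f = fun i => ∑ z, (Λ * L i) • g i z := by
    funext i y
    by_cases e1 : f i y = 0
    · simp [hg, e1]
    · have e2 : (L i : ℝ) ≠ 0 := fun u => e1 (by simpa [u] using s1 i y)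
      simp only [Finset.sum_apply, Pi.smul_apply, hg, smul_eq_mul,
        mul_inv_cancel_left₀ (mul_ne_zero Λ0.ne' e2), ← Finset.sum_mul]
      rw [sum_bumpS η0 fun l => ((PiLp.norm_apply_le (y - x i) l).trans (x1 i y e1)).trans hD.ge,
        one_mul]
  have hr := fun z : Fin k → Fin 4 → Fin (2 * D + 1) =>
    piece hS h hL hP u0 hw hd dR (fun i => g i (z i))
      (fun i => x i + WithLp.toLp 2 fun l => u / 32 * ((z i l : ℤ) - D : ℤ))
      ⟨fun i => g2 i _, fun i j hij => (f1.2 hij).mono (g1 _ _) (g1 _ _)⟩ (fun i => by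
        have := norm_piece (by norm_num) (hK (fun l => z i l - D) (x i)) (fun y => abs_bumpS _ _ _)
          (f2 i).1 (s1 i)
        rw [← hΛ, ← hg] at this
        refine ⟨this.1, fun y => ⟨hg i (z i) ▸ this.2 y, fun hy l => ?_⟩⟩
        have e := bumpS_supp η0 (g0 _ _ y hy).1 l
        rwa [PiLp.sub_apply, sub_sub] at e)
      (fun i j hij x y hx hy => f3 i j hij x y (g0 _ _ x hx).2 (g0 _ _ y hy).2)
      fun i => (g1 _ _).trans (hR i)
  have q1 : net.QB S (∑ z : Fin k → Fin 4 → Fin (2 * D + 1),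
      ((∏ i, Λ * L i : ℝ) : ℂ) • mon fun i => g i (z i)) _ _ :=
    Net.QB.sum hS _ R2 fun z _ => (hr z).smul _
  have q2 := (Net.qb_null (Submodule.sub_mem _ (mon_mem f1 b1) q1.1) R2 hS fun Z hZ => ?_).add hS q1
  · rw [sub_add_cancel, zero_add] at q2
    refine q2.mono hS le_rfl (le_of_eq ?_)
    rw [Complex.norm_real, norm_of_nonneg (Finset.prod_nonneg fun i _ =>
      mul_nonneg Λ0.le (L i).coe_nonneg), Finset.prod_mul_distrib, NNReal.coe_prod, ← hΛ,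
      mul_comm B, exp_nat_mul]
    simp only [Finset.sum_const, Finset.card_univ, Fintype.card_fun, Fintype.card_fin,
      Finset.prod_const, nsmul_eq_mul, mul_pow]
    push_cast
    ring
  · have := hL.sum f1.2 (fun i z => ⟨(g2 i z).1, (g2 i z).2, g1 i z⟩) (fun i _ => Λ * L i) Z
      (net.mono hZ (compl_subset_compl.2 (iUnion_subset b1)))
    rw [← g3] at this
    simp only [sub_mul, map_sub, this, Finset.sum_mul, map_sum, smul_mul_assoc, map_smul,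
      smul_eq_mul, sub_self]

theorem adm {k : ℕ} {O : Fin k → Set R4} (hO : Pairwise fun i j => Disjoint (O i) (O j))
    {u : Fin k → R4 → ℝ} (hu : ∀ i, C1 (O i) (u i)) : Adm u :=
  ⟨fun i => ⟨(hu i).1, (hu i).2.1⟩, fun i j hij => (hO hij).mono (hu i).2.2 (hu j).2.2⟩

/-- additivity in one slot -/
theorem slot (hS : net.St S) (hL : LinP S) {k : ℕ} {O : Fin k → Set R4}
    (hO : Pairwise fun i j => Disjoint (O i) (O j)) {u v w : Fin k → R4 → ℝ} (j : Fin k)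
    (hu : ∀ i, C1 (O i) (u i)) (hv : ∀ i, C1 (O i) (v i)) (hw : ∀ i, C1 (O i) (w i))
    (e1 : ∀ i ≠ j, v i = u i ∧ w i = u i) (e2 : u j = v j + w j) {R : ℝ} (R0 : 0 ≤ R)
    (hR : ∀ i, O i ⊆ Bx R) : net.QB S (mon u - mon v - mon w) R 0 := by
  have m : ∀ {u : Fin k → R4 → ℝ}, (∀ i, C1 (O i) (u i)) → mon u ∈ net.loc (Bx R) := fun hu =>
    mon_mem (adm hO hu) fun i => (hu i).2.2.trans (hR i)
  refine Net.qb_null (Submodule.sub_mem _ (Submodule.sub_mem _ (m hu) (m hv)) (m hw)) R0 hS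
    fun Z hZ => ?_
  obtain ⟨n, rfl⟩ : ∃ n, k = n + 1 := ⟨k - 1, by have := j.pos; omega⟩
  have p : ∀ t : Fin (n + 1) → R4 → ℝ, (∀ i ≠ j, t i = u i) →
      mon t * Z = X (t j) * (mon (fun i => u (j.succAbove i)) * Z) := fun t ht => by
    rw [mon, Fin.prod_univ_succAbove _ j, mul_assoc, mon]
    simp only [ht _ (j.succAbove_ne _)]
  have b : mon (fun i => u (j.succAbove i)) * Z ∈ net.loc (O j)ᶜ :=
    net.mono (net.mul (O := ⋃ i, O (j.succAbove i)) (mon_mem (adm (O := fun i => O (j.succAbove i))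
      (fun i i' e => hO (j.succAbove_right_injective.ne e)) fun i => hu _) fun i =>
        (hu _).2.2.trans (subset_iUnion (fun i => O (j.succAbove i)) i)) hZ
      (disjoint_compl_right.mono_left (iUnion_subset fun i => hR _)))
      (union_subset (iUnion_subset fun i => (hO (j.succAbove_ne i)).subset_compl_right)
        (compl_subset_compl.2 (hR j)))
  have := hL (v j) (w j) 1 (hv j).1 (hv j).2.1 (hw j).1 (hw j).2.1 _
    (net.mono b (compl_subset_compl.2 (union_subset (hv j).2.2 (hw j).2.2)))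
  rw [one_smul, ← e2, Complex.ofReal_one, one_mul] at this
  rw [sub_mul, sub_mul, map_sub, map_sub, p u fun _ _ => rfl, p v fun i hi => (e1 i hi).1,
    p w fun i hi => (e1 i hi).2, this]
  ring

end CmQ

open LgQB in
theorem qr_of {S₀ : ∀ {k : ℕ}, (Fin k → R4 → ℝ) → ℝ} {S : Pol →ₗ[ℂ] ℂ} (hS : net.St S)
    (h : ∀ {k} {f : Fin k → R4 → ℝ}, Adm f → S (mon f) = S₀ f) (hL : LinP S) (hP : ProdS S₀) :
    ∃ K, 1 ≤ K ∧ QR S K := by
  obtain ⟨N, N0, hP⟩ := hP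
  obtain ⟨e0, hP⟩ := eventually_atTop.1 hP
  obtain ⟨K, hK⟩ := bmp_lip
  obtain ⟨n, hn⟩ := exists_nat_ge N
  refine ⟨30, by norm_num, 65 ^ 4 * (4 + 96 * K) * (54 * 3 ^ e0) ^ (5 + n), 5 + n, by positivity,
    fun k d R d0 d1 dR f L hf hR => ?_⟩
  obtain ⟨e, e', a1, a2, a3, a4, a5⟩ := scales e0 k d0 d1
  have hD : (3 ^ e' : ℝ)⁻¹ / 32 * (32 * 3 ^ e' : ℕ) = 1 := by
    push_cast
    field_simp
  refine (CmQ.mon_bd hS h hL (B := N * e') (hP e' a2 e a1) (by positivity) (hK _ _ hD) a3 a4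
    d0 d1 dR hD hf hR).mono hS le_rfl (mul_le_mul_of_nonneg_right
      (pow_le_pow_left₀ (by positivity) ?_ k) (by positivity))
  have b1 : exp (N * e') ≤ (3 ^ e') ^ n := by
    refine (exp_le_exp.2 (mul_le_mul_of_nonneg_right hn e'.cast_nonneg)).trans ?_
    rw [exp_nat_mul, ← exp_one_pow]
    gcongr
    exact exp_one_lt_three.le
  have u1 : (1 : ℝ) ≤ 3 ^ e' := one_le_pow₀ (by norm_num)
  push_cast
  generalize (3 : ℝ) ^ e' = U at *
  have K0 := K.coe_nonneg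
  have b2 : 2 * (32 * U) + 1 ≤ 65 * U := by linarith
  have b3 : 1 + 3 + 3 * (K * (32 * U)) ≤ (4 + 96 * K) * U := by linarith
  calc _ ≤ (65 * U) ^ 4 * ((4 + 96 * K) * U) * U ^ n := by gcongr
    _ = 65 ^ 4 * (4 + 96 * K) * U ^ (5 + n) := by ring
    _ ≤ 65 ^ 4 * (4 + 96 * K) * (54 * 3 ^ e0 * ((k + 1) / d)) ^ (5 + n) := by gcongr
    _ = _ := by rw [mul_pow, ← mul_assoc]

/-- continuity in the test functions -/
theorem Sf.diff {S : Pol →ₗ[ℂ] ℂ} {K : ℝ} (h : Sf S K) : ∃ (C : ℝ) (s : ℕ), 0 ≤ C ∧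
    ∀ (k : ℕ) (d R : ℝ), 0 < d → d ≤ 1 → d ≤ R → ∀ (f g : Fin k → R4 → ℝ) (O : Fin k → Set R4)
      (L ε : ℝ≥0), (∀ i, C1 (O i) (f i) ∧ C1 (O i) (g i) ∧ O i ⊆ Bx R ∧ LipschitzWith L (f i) ∧
        LipschitzWith L (g i) ∧ LipschitzWith ε (f i - g i) ∧ ∀ x ∈ O i, ∀ y ∈ O i, dist x y ≤ d) →
      (∀ i j, i ≠ j → ∀ x ∈ O i, ∀ y ∈ O j, d ≤ dist x y) →
      net.QB S (mon f - mon g) (K * R) ((C * ((k + 1) / d) ^ s) ^ k * (k * L ^ (k - 1) * ε)) := by
  obtain ⟨C, s, C0, H⟩ := h.qr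
  refine ⟨C, s, C0, fun k d R d0 d1 dR f g O L ε h1 h2 => ?_⟩
  have hS := h.inp.st
  have R1 : R ≤ K * R := le_mul_of_one_le_left (by linarith) h.one
  have R0 : 0 ≤ K * R := by linarith
  have o1 : Pairwise fun i j => Disjoint (O i) (O j) := fun i j hij => disjoint_left.2
    fun y hy hy' => (h2 i j hij y hy y hy').not_gt ((dist_self y).trans_lt d0)
  obtain ⟨F, hF⟩ : ∃ F : ℕ → Fin k → R4 → ℝ, ∀ j i, F j i = if i.val < j then f i else g i :=
    ⟨_, fun _ _ => rfl⟩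
  have f1 : ∀ j i, C1 (O i) (F j i) ∧ LipschitzWith L (F j i) := fun j i => by
    rw [hF]
    split_ifs
    exacts [⟨(h1 i).1, (h1 i).2.2.2.1⟩, ⟨(h1 i).2.1, (h1 i).2.2.2.2.1⟩]
  have q : ∀ j : Fin k, net.QB S (mon (F (j + 1)) - mon (F j)) (K * R)
      ((C * ((k + 1) / d) ^ s) ^ k * (L ^ (k - 1) * ε)) := fun j => by
    obtain ⟨w, hw⟩ : ∃ w : Fin k → R4 → ℝ, ∀ i, w i = if i = j then f i - g i else F j i :=
      ⟨_, fun _ => rfl⟩
    have w1 : ∀ i, C1 (O i) (w i) ∧ LipschitzWith (if i = j then ε else L) (w i) := fun i => by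
      rw [hw]
      split_ifs
      · refine ⟨?_, (h1 i).2.2.2.2.2.1⟩
        have := PN.Gd.comb (h1 i).1 (h1 i).2.1 (-1)
        rwa [neg_smul, one_smul, ← sub_eq_add_neg] at this
      · exact f1 j i
    have w2 : ∀ i x, w i x ≠ 0 → x ∈ O i := fun i x hx => (w1 i).1.2.2 (subset_tsupport _ hx)
    have q1 := (CmQ.slot hS h.inp.lin o1 j (fun i => (f1 (j + 1) i).1) (fun i => (f1 j i).1)
      (fun i => (w1 i).1) (fun i hi => ?_) ?_ R0 fun i => (h1 i).2.2.1.trans (Bx.mono R1)).add hS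
      (H k d R d0 d1 dR w _ ⟨CmQ.adm o1 fun i => (w1 i).1, fun i => ⟨(w1 i).2, fun x y hx hy =>
        (h1 i).2.2.2.2.2.2 x (w2 i x hx) y (w2 i y hy)⟩, fun i i' e x y hx hy =>
          h2 i i' e x (w2 i x hx) y (w2 i' y hy)⟩ fun i => (w1 i).1.2.2.trans (h1 i).2.2.1)
    · rw [sub_add_cancel, zero_add, ← Finset.prod_erase_mul _ _ (Finset.mem_univ j), if_pos rfl,
        Finset.prod_congr rfl fun i hi => if_neg (Finset.ne_of_mem_erase hi), Finset.prod_const,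
        Finset.card_erase_of_mem (Finset.mem_univ j), Finset.card_fin] at q1
      exact_mod_cast q1
    · have e : F j i = F (j + 1) i := by
        have := Fin.val_ne_of_ne hi
        rw [hF, hF]
        exact if_congr (by omega) rfl rfl
      exact ⟨e, by rw [hw, if_neg hi, e]⟩
    · rw [hF, hF, hw, if_pos (Nat.lt_add_one _), if_neg (lt_irrefl _), if_pos rfl, add_sub_cancel]
  have q2 := Net.QB.sum hS Finset.univ R0 fun j _ => q j
  rw [← Finset.sum_range fun j => mon (F (j + 1)) - mon (F j),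
    Finset.sum_range_sub fun j => mon (F j),
    show F k = f from funext fun i => by rw [hF, if_pos i.2],
    show F 0 = g from funext fun i => by rw [hF, if_neg (Nat.not_lt_zero _)],
    Finset.sum_const, Finset.card_fin, nsmul_eq_mul] at q2
  exact q2.mono hS le_rfl (le_of_eq (by ring))

end Pool.Agent.Lib.MP_7f377f_mp.Cm
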