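import Pool.Agent.Lib.MP_7f377f_mp.G.CmY
import Pool.Agent.Lib.MP_7f377f_mp.G.CmQ
import Pool.Agent.Lib.MP_7f377f_mp.G.CmP1
import Pool.Agent.Lib.MP_7f377f_mp.Lb5

/-! Composite fields: the scalar class. -/

noncomputable section

namespace Pool.Agent.Lib.MP_7f377f_mp.Cm
variable [Pool.Agent.Lib.MP_7f377f_mp.GD]
set_option linter.unusedSectionVars false

open MeasureTheory Filter Topology Set Real YM7 Pur MvPolynomial Lg
open Ope (Let gp sc ctr)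
open Ro (Iso act)
open Wm (C1)
open Lb (Lab Pl Cl rho mx ip pc frL freeL Sep)
open RG.Q4.En.Ty (Gn Ty sb Det)
open scoped NNReal

variable {S : Pol →ₗ[ℂ] ℂ} {K Λ δ w : ℝ} {h : R4 → ℝ} {ω : ∀ l : Cl, (Fin l.m → R4) → Lab ℝ}

/-- the bound for one field with a radius -/
theorem Sf.x_bd (hS : Sf S K) {R : ℝ} (R0 : 0 < R) : ∃ C : ℝ, ∀ (f : R4 → ℝ) (L : ℝ≥0),
    C1 (Bx R) f → LipschitzWith L f → net.QB S (X f) (K * R) (C * L) := by
  obtain ⟨C₀, s, -, H⟩ := hS.qr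
  replace H := H 1 (min R 1) R (lt_min R0 one_pos) (min_le_right _ _) (min_le_left _ _)
  generalize (C₀ * (((1 : ℕ) + 1) / min R 1) ^ s) ^ 1 = C at H
  obtain ⟨η, hη⟩ : ∃ η : ℝ, η = min R 1 / 4 := ⟨_, rfl⟩
  have η0 : 0 < η := by rw [hη]; positivity
  obtain ⟨D, hD⟩ := exists_nat_ge (R / η)
  rw [div_le_iff₀' η0] at hD
  choose M hM using fun z : Fin 4 → Fin (2 * D + 1) =>
    (bumpS_smooth η fun l => z l - D).lipschitzWith_of_hasCompactSupport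
      (cpt_box (lo := fun l => η * (z l - D : ℤ) - η) (hi := fun l => η * (z l - D : ℤ) + η)
        fun y hy l => abs_sub_le_iff.1 (bumpS_supp η0 hy l) |>.symm.imp
          (by intro; linarith) (by intro; linarith)) one_ne_zero
  obtain ⟨A, hA⟩ : ∃ A : ℝ, A = 2 * (2 * R) + 1 := ⟨_, rfl⟩
  have A0 : 0 ≤ A := by rw [hA]; positivity
  obtain ⟨Λ, hΛ⟩ : ∃ Λ : (Fin 4 → Fin (2 * D + 1)) → ℝ, ∀ z, Λ z = 1 + A + A * M z :=
    ⟨_, fun _ => rfl⟩
  have Λ0 : ∀ z, 0 < Λ z := fun z => by rw [hΛ]; positivity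
  refine ⟨∑ z, Λ z * C, fun f L f1 f2 => ?_⟩
  have x1 : ∀ y, f y ≠ 0 → ∀ l, |y l| ≤ R := fun y hy l => (f1.2.2 (subset_tsupport _ hy) l).le
  have s1 : ∀ y, |f y| ≤ L * A := hA ▸ sup_le f2 (by positivity) fun y hy => by
    simpa using dist_le_two (z := 0) (w := R) (by simpa using x1 y hy)
  obtain ⟨g, hg⟩ : ∃ g : (Fin 4 → Fin (2 * D + 1)) → R4 → ℝ, ∀ z, g z =
    fun y => (Λ z * L)⁻¹ * (bumpS η (fun l => z l - D) y * f y) := ⟨_, fun _ => rfl⟩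
  have g0 : ∀ z y, g z y ≠ 0 → bumpS η (fun l => z l - D) y ≠ 0 ∧ f y ≠ 0 :=
    fun z y hy => mul_ne_zero_iff.1 (right_ne_zero_of_mul (hg z ▸ hy :))
  have g2 : ∀ z, C1 (Bx R) (g z) := fun z => ⟨f1.1.mono fun y hy => (g0 z y hy).2,
    hg z ▸ contDiff_const.mul ((bumpS_smooth _ _).mul f1.2.1),
    (closure_mono fun y hy => (g0 z y hy).2).trans f1.2.2⟩
  have g3 : f = ∑ z, (Λ z * L) • g z := by
    funext y
    by_cases e1 : f y = 0
    · simp [hg, e1]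
    · have e2 : (L : ℝ) ≠ 0 := fun u => e1 (by simpa [u] using s1 y)
      simp only [Finset.sum_apply, Pi.smul_apply, hg, smul_eq_mul,
        mul_inv_cancel_left₀ (mul_ne_zero (Λ0 _).ne' e2), ← Finset.sum_mul]
      rw [sum_bumpS η0 fun l => (x1 y e1 l).trans hD, one_mul]
  have b1 : Bx R ⊆ Bx (K * R) := Bx.mono (le_mul_of_one_le_left R0.le hS.one)
  have d0 : 0 ≤ K * R := mul_nonneg (zero_le_one.trans hS.one) R0.le
  have q1 : net.QB S (∑ z, ((Λ z * L : ℝ) : ℂ) • mon fun _ : Fin 1 => g z) _ _ :=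
    Net.QB.sum hS.inp.st _ d0 fun z _ => (H (fun _ => g z) (fun _ => 1)
      ⟨Wm.WmQ1.adm1 (g2 z), fun _ => ⟨by
        have := norm_piece A0 (hM z) (abs_bumpS _ _) f2 s1
        rw [← hΛ, ← hg] at this
        exact this.1, fun x y hx hy => (dist_le_two (w := 2 * η) fun l => by
          have u1 := abs_le.1 (bumpS_supp η0 (g0 _ x hx).1 l)
          have u2 := abs_le.1 (bumpS_supp η0 (g0 _ y hy).1 l)
          rw [abs_le]
          constructor <;> linarith [u1.1, u1.2, u2.1, u2.2]).trans (by linarith)⟩,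
      fun i j e => (e (Subsingleton.elim i j)).elim⟩ fun _ => (g2 z).2.2).smul _
  simp only [Wm.WmQ1.mon1] at q1
  have q2 := (Net.qb_null (Submodule.sub_mem _ (net.mono (PN.Gd.mem f1) b1) q1.1) d0 hS.inp.st
    fun Z hZ => ?_).add hS.inp.st q1
  · rw [sub_add_cancel, zero_add] at q2
    refine q2.mono hS.inp.st le_rfl (le_of_eq ?_)
    rw [Finset.sum_mul]
    refine Finset.sum_congr rfl fun z _ => ?_
    rw [Complex.norm_real, norm_of_nonneg (mul_nonneg (Λ0 z).le L.coe_nonneg),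
      Finset.prod_const_one, NNReal.coe_one]
    ring
  · have := PN.one_slot hS.inp.lin Finset.univ (O := Bx R) g2 (fun z => Λ z * L)
      (net.mono hZ (compl_subset_compl.2 b1))
    rw [← g3] at this
    simp only [sub_mul, map_sub, this, Finset.sum_mul, map_sum, smul_mul_assoc, map_smul,
      smul_eq_mul, sub_self]

theorem Dat.cph (H : Dat w h ω Λ δ) : HasCompactSupport h :=
  (isCompact_closedBall (0 : R4) (δ / 4)).of_isClosed_subset (isClosed_tsupport h)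
    fun x hx => mem_closedBall_zero_iff.2 (H.sm x hx).le

/-- the weight of the scalar class -/
theorem Dat.sca (H : Dat w h ω Λ δ) (hw : w ≠ 0) : ∃ φ : R4 → ℝ, Continuous φ ∧
    HasCompactSupport φ ∧ (∫ y, φ y) * ∫ y, h y = 1 ∧
      ∀ (e : ℕ) (t : Finset (Fin 4 → ℤ)), (∀ y, φ (gp e y) ≠ 0 → y ∈ t) → Zc h ω .s e Lb.c0 =
        ∑ y ∈ t, (((3 ^ e)⁻¹ ^ 4 * φ (gp e y) : ℝ) : ℂ) • X fun z => h (z - gp e y) := by
  obtain ⟨ω₁, e₁⟩ : ∃ ω₁ : (Fin 1 → R4) → Lab ℝ, ω₁ = ω .s := ⟨_, rfl⟩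
  have c : Continuous ω₁ := e₁ ▸ H.cont .s
  have k : HasCompactSupport ω₁ := e₁ ▸ H.cpt .s
  have mp := volume_preserving_funUnique (Fin 1) R4
  refine ⟨fun v => ip Lb.c0 (ω₁ fun _ => v), ?_, ?_, ?_, fun e t ht => ?_⟩
  · unfold ip
    fun_prop
  · exact (k.comp_homeomorph (Homeomorph.funUnique (Fin 1) R4).symm).mono fun v hv e =>
      hv (by simp [show ω₁ (fun _ => v) = 0 from e, ip])
  · have a : ∫ y : Fin 1 → R4, ip Lb.c0 (ω₁ y) * Bu w (hy h y) (0, 1) (0, 1) =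
        pc .s Lb.c0 (0, 1) (0, 1) := e₁ ▸ H.one .s Lb.c0 (0, 1) (0, 1)
    have b : ∀ y : Fin 1 → R4, Bu w (hy h y) (0, 1) (0, 1) = (∫ y, h y) * 4⁻¹ := fun y => by
      rw [← integral_sub_right_eq_self h (y 0), ← integral_mul_const,
        ← mp.integral_comp' fun x => h (x - y 0) * 4⁻¹]
      refine integral_congr_ae (ae_of_all _ fun x => ?_)
      simp only [Lb.B_unique hw, Fin.prod_univ_one, hy]
      norm_num [Lb.an]
    have c : (pc .s Lb.c0 : Lab ℝ) (0, 1) (0, 1) = 4⁻¹ := by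
      rw [← Lb.pc_pa, Lb.pa_c0, pc, Lb.ip_smul, Lb.ip_an, Lb.an_an, Lb.tr_an]
      norm_num [Lb.an]
    simp only [b, c, integral_mul_const] at a
    rw [← mp.integral_comp' fun v => ip Lb.c0 (ω₁ fun _ => v)]
    have e : ∀ x : Fin 1 → R4, (fun _ => MeasurableEquiv.funUnique (Fin 1) R4 x) = x :=
      fun x => funext fun i => congrArg x (Subsingleton.elim _ _)
    simp only [e]
    exact (by linarith : (∫ x : Fin 1 → R4, ip Lb.c0 (ω₁ x)) * ∫ y, h y = 1)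
  · have e0 : (Lb.c0 : Lab ℂ) = (Lb.c0 : Lab ℝ).map Complex.ofRealHom := cx_c0.symm
    have i : ∀ a b : Lab ℝ, Complex.ofRealHom (ip a b) =
      ip (a.map Complex.ofRealHom) (b.map Complex.ofRealHom) := fun a b => by simp [ip]
    have a : Zc h ω .s e Lb.c0 = ∑ᶠ y : Fin 1 → Fin 4 → ℤ, ((((3 ^ e)⁻¹ ^ 4 : ℝ) : ℂ) *
        ip Lb.c0 ((ω₁ fun i => gp e (y i)).map Complex.ofRealHom)) •
          mon (hy h fun i => gp e (y i)) := e₁ ▸ rfl
    rw [a, ← finsum_comp_equiv (Equiv.funUnique (Fin 1) (Fin 4 → ℤ)).symm,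
      finsum_eq_sum_of_support_subset (s := t)]
    · refine Finset.sum_congr rfl fun y _ => ?_
      rw [e0, ← i, mon, Fin.prod_univ_one, Complex.ofReal_mul]
      rfl
    · refine fun y hy => ht y fun e => hy ?_
      beta_reduce
      rw [e0, ← i]
      exact (congrArg (fun x : ℝ => (_ * Complex.ofRealHom x) • _) e).trans (by simp)

variable (hS : Sf S K) (H : Dat w h ω Λ δ) (hw : w ≠ 0)
include hS H hw

/-- the composite of the scalar class is a smeared field -/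
theorem phi0 {g : R4 → ℝ} (g1 : HasCompactSupport g) (g2 : ContDiff ℝ 1 g) {η : ℝ≥0} (η0 : 0 < η) :
    ∀ᶠ d in 𝓝[>] (0 : ℝ), ∀ᶠ e in atTop, ∃ u, PN.Gd {y | ∃ x ∈ tsupport g, dist x y ≤ η} u ∧
      LipschitzWith η (u - g) ∧
      Yc h ω S .s d e Lb.c0 g ∈ net.loc {y | ∃ x ∈ tsupport g, dist x y ≤ η} ∧
      ∀ Z ∈ net.loc {y | ∃ x ∈ tsupport g, dist x y ≤ η}ᶜ,
        S (Yc h ω S .s d e Lb.c0 g * Z) = S (X u * Z) := by
  obtain ⟨φ, φ1, φ2, φ3, φ4⟩ := H.sca hw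
  obtain ⟨M, M0, hM⟩ := φ2.isCompact.isBounded.exists_pos_norm_le
  obtain ⟨N, N0, hN⟩ := H.cph.isCompact.isBounded.exists_pos_norm_le
  have η1 : (0 : ℝ) < η := η0
  filter_upwards [St.approx (ε := fun e : ℕ => (3 ^ e)⁻¹) (l := atTop)
    (s := fun e => (fin_gp g1 e).toFinset) (t := fun e => (fin_gp φ2 e).toFinset)
    ⟨g1, g2, subset_univ _⟩ ⟨H.cph, H.dif, subset_univ _⟩ φ1 φ2 φ3
    (tendsto_inv_atTop_nhdsGT_zero.comp (tendsto_pow_atTop_atTop_of_one_lt (by norm_num)))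
    (fun e z hz => (Finite.mem_toFinset _).2 hz) (fun e z hz => (Finite.mem_toFinset _).2 hz) η0,
    Ioc_mem_nhdsGT (show 0 < η / (M + N) by positivity)] with d hd d1
  filter_upwards [hd] with e he
  obtain ⟨O, hO⟩ : ∃ O : Set R4, O = {y | ∃ x ∈ tsupport g, dist x y ≤ η} := ⟨_, rfl⟩
  rw [← hO]
  obtain ⟨s, hs⟩ : ∃ s, s = (fin_gp g1 e).toFinset ×ˢ (fin_gp φ2 e).toFinset := ⟨_, rfl⟩
  obtain ⟨c, hc⟩ : ∃ c : (Fin 4 → ℤ) × (Fin 4 → ℤ) → ℝ, c = fun z =>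
    ((3 ^ e)⁻¹ / d) ^ 4 * g (gp e z.1) * ((3 ^ e)⁻¹ ^ 4 * φ (gp e z.2)) := ⟨_, rfl⟩
  obtain ⟨u, hu⟩ : ∃ u : (Fin 4 → ℤ) × (Fin 4 → ℤ) → R4 → ℝ, u = fun z y =>
    h (d⁻¹ • (y - gp e z.1) - gp e z.2) := ⟨_, rfl⟩
  have u1 : ∀ z : s, PN.Gd O (u z) := fun ⟨z, hz⟩ => by
    rw [hs, Finset.mem_product, Finite.mem_toFinset, Finite.mem_toFinset] at hz
    have a : ∀ y ∈ tsupport (u z), dist (gp e z.1) y ≤ η := fun y hy => by
      have a1 := hN _ (tsupport_comp (θ := fun y => d⁻¹ • (y - gp e z.1) - gp e z.2)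
        (by fun_prop) (hu ▸ hy :))
      have a2 := norm_add_le_of_le a1 (hM _ (subset_tsupport _ hz.2))
      rw [sub_add_cancel, norm_smul, norm_inv, norm_of_nonneg d1.1.le, inv_mul_le_iff₀ d1.1] at a2
      rw [dist_eq_norm']
      exact a2.trans (by rw [add_comm]; exact (le_div_iff₀ (by positivity)).1 d1.2)
    exact ⟨(isCompact_closedBall (gp e z.1) η).of_isClosed_subset (isClosed_tsupport _)
      fun y hy => Metric.mem_closedBall'.2 (a y hy), hu ▸ H.dif.comp (by fun_prop),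
      fun y hy => hO ▸ ⟨_, subset_tsupport _ hz.1, a y hy⟩⟩
  have e1 : Yl (Zc h ω .s e Lb.c0) d e g = ∑ z : s, (c z : ℂ) • X (u z) := by
    rw [Finset.sum_coe_sort s fun z => (c z : ℂ) • (X (u z) : Pol), hs, Finset.sum_product,
      Yl_eq fun z hz => (fin_gp g1 e).mem_toFinset.2 hz,
      φ4 e _ fun z hz => (fin_gp φ2 e).mem_toFinset.2 hz]
    simp only [map_sum, map_smul, sh, rename_X, Finset.smul_sum, smul_smul, hc, hu,
      ← Complex.ofReal_mul]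
  have e2 : ∀ Z ∈ net.loc Oᶜ, S (Yl (Zc h ω .s e Lb.c0) d e g * Z) =
      S (X (∑ z : s, c z • u z) * Z) := fun Z hZ => by
    simp only [e1, PN.one_slot hS.inp.lin _ u1 _ hZ, Finset.sum_mul, map_sum, smul_mul_assoc,
      map_smul, smul_eq_mul]
  have u2 := PN.Gd.sum Finset.univ u1 fun z => c z
  have e3 : Yc h ω S .s d e Lb.c0 g = Yl (Zc h ω .s e Lb.c0) d e g := by
    have := e2 1 (net.one _)
    rw [mul_one, mul_one, hS.cen _ ⟨fun i => by fin_cases i; exact ⟨u2.1, u2.2.1⟩,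
      Subsingleton.pairwise⟩] at this
    rw [Yc, ctr, this, map_zero, sub_zero]
  refine ⟨_, u2, ?_, ?_, e3 ▸ e2⟩
  · rw [Finset.sum_coe_sort s fun z => c z • u z, hs, hc, hu]
    exact he
  · rw [e3, e1]
    exact Submodule.sum_mem _ fun z _ => Submodule.smul_mem _ _ (u1 z).mem

theorem phi1 {r : ℝ} (hr : r ∈ Ioc (0 : ℝ) 1) {g : R4 → ℝ} (hg : C1 (Bx r) g) {η : ℝ} (η0 : 0 < η) :
    ∀ᶠ d in 𝓝[>] (0 : ℝ), ∀ᶠ e in atTop,
      net.QB S (Yc h ω S .s d e Lb.c0 g - X g) (4 * K * r) η := by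
  have r0 := hr.1
  have st := hS.inp.st
  obtain ⟨C, hC⟩ := hS.x_bd (show 0 < 2 * r by positivity)
  have K1 := hS.one
  filter_upwards [phi0 hS H hw hg.1 hg.2.1 (η := ⟨min r (η / (|C| + 1)), by positivity⟩)
    (show 0 < min r (η / (|C| + 1)) by positivity)] with d hd
  filter_upwards [hd] with e ⟨u, u1, u2, u3, u4⟩
  have o : {y | ∃ x ∈ tsupport g, dist x y ≤ min r (η / (|C| + 1))} ⊆ Bx (2 * r) :=
    fun y ⟨x, x1, x2⟩ l => by
      have a1 := hg.2.2 x1 l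
      have a2 : |y l - x l| ≤ r := ((PiLp.norm_apply_le (y - x) l).trans_eq
        (dist_eq_norm' x y).symm).trans (x2.trans (min_le_left _ _))
      linarith [abs_sub_abs_le_abs_sub (y l) (x l)]
  have g1 : PN.Gd (Bx (2 * r)) g := ⟨hg.1, hg.2.1, hg.2.2.trans (Bx.mono (by linarith))⟩
  have v1 : PN.Gd (Bx (2 * r)) u := ⟨u1.1, u1.2.1, u1.2.2.trans o⟩
  have v2 := v1.comb g1 (-1)
  have e : u + (-1 : ℝ) • g = u - g := by rw [neg_smul, one_smul, sub_eq_add_neg]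
  have q1 := hC _ _ v2 (e ▸ u2)
  have b1 : Bx (2 * r) ⊆ Bx (K * (2 * r)) := Bx.mono (le_mul_of_one_le_left (by positivity) K1)
  have q2 := (Net.qb_null (Submodule.sub_mem _ (Submodule.sub_mem _ (net.mono u3 (o.trans b1))
    (net.mono g1.mem b1)) q1.1) q1.2.1 st fun Z hZ => ?_).add st q1
  · rw [sub_add_cancel, zero_add] at q2
    refine q2.mono st (by nlinarith) ?_
    have a : min r (η / (|C| + 1)) * (|C| + 1) ≤ η := (le_div_iff₀ (by positivity)).1 (min_le_right _ _)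
    have b : 0 ≤ min r (η / (|C| + 1)) := by positivity
    change C * min r (η / (|C| + 1)) ≤ η
    nlinarith [le_abs_self C]
  · rw [sub_mul, sub_mul, map_sub, map_sub, u4 Z (net.mono hZ (compl_subset_compl.2 (o.trans b1))),
      hS.inp.lin u g (-1) v1.1 v1.2.1 g1.1 g1.2.1 Z (net.mono hZ (compl_subset_compl.2
        ((union_subset v1.2.2 g1.2.2).trans b1)))]
    push_cast
    ring

theorem phi2 {f g : R4 → ℝ} (hf : Adm ![f, g]) {η : ℝ} (η0 : 0 < η) :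
    ∀ᶠ d in 𝓝[>] (0 : ℝ), ∀ᶠ e in atTop,
      ‖S (Yc h ω S .s d e Lb.c0 f * Yc h ω S .s d e Lb.c0 g) - S (X f * X g)‖ ≤ η := by
  obtain ⟨ε, ε0, hε⟩ := qe_near hS.inp.st hS.inp.lin hS.inp.grow hf η0
  have f1 : HasCompactSupport f ∧ ContDiff ℝ 1 f := hf.1 0
  have g1 : HasCompactSupport g ∧ ContDiff ℝ 1 g := hf.1 1
  obtain ⟨ρ, ρ0, hρ⟩ := Disjoint.exists_cthickenings (s := tsupport f) (t := tsupport g)
    (hf.2 (i := 0) (j := 1) (by decide)) f1.1.isCompact (isClosed_tsupport g)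
  obtain ⟨ε', p0, p1, p2⟩ : ∃ ε' : ℝ≥0, 0 < ε' ∧ ε' ≤ ε ∧ (ε' : ℝ) ≤ ρ :=
    ⟨min ε ⟨ρ, ρ0.le⟩, lt_min ε0 ρ0, min_le_left _ _, NNReal.coe_le_coe.2 (min_le_right _ _)⟩
  have o : ∀ f : R4 → ℝ, {y | ∃ x ∈ tsupport f, dist x y ≤ ε'} ⊆ Metric.cthickening ρ (tsupport f) :=
    fun f y ⟨x, x1, x2⟩ => Metric.mem_cthickening_of_dist_le y x ρ _ x1
      ((dist_comm _ _).trans_le (x2.trans p2))
  replace hρ := hρ.mono (o f) (o g)
  filter_upwards [phi0 hS H hw f1.1 f1.2 p0, phi0 hS H hw g1.1 g1.2 p0] with d a b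
  filter_upwards [a, b] with e ⟨u, u1, u2, u3, u4⟩ ⟨v, v1, v2, v3, v4⟩
  have n : ∀ {f u : R4 → ℝ}, PN.Gd {y | ∃ x ∈ tsupport f, dist x y ≤ ε'} u →
      LipschitzWith ε' (u - f) → HasCompactSupport u ∧ ContDiff ℝ 1 u ∧ LipschitzWith ε (u - f) ∧
        ∀ y ∈ tsupport u, ∃ x ∈ tsupport f, dist x y ≤ ε := fun a b =>
    ⟨a.1, a.2.1, b.weaken p1, fun y hy => (a.2.2 hy).imp fun x hx => ⟨hx.1, hx.2.trans p1⟩⟩
  have := (hε ![u, v] (Fin.forall_fin_two.2 ⟨n u1 u2, n v1 v2⟩)).bound hS.inp.st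
  rw [u4 _ (net.mono v3 hρ.subset_compl_left), mul_comm,
    v4 _ (net.mono u1.mem hρ.subset_compl_right), mul_comm]
  simpa only [mon, Fin.prod_univ_two, map_sub, Matrix.cons_val_zero, Matrix.cons_val_one] using this

end Pool.Agent.Lib.MP_7f377f_mp.Cm
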