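import Pool.Agent.Lib.MP_7f377f_mp.G.CmU
import Pool.Agent.Lib.MP_7f377f_mp.G.CmP
import Pool.Agent.Lib.MP_7f377f_mp.G.CmF

/-! Composite fields: the ratios of the normalisations. -/

noncomputable section

namespace Pool.Agent.Lib.MP_7f377f_mp.Cm
variable [Pool.Agent.Lib.MP_7f377f_mp.GD]
set_option linter.unusedSectionVars false

open MeasureTheory Filter Topology Set Real YM7 Pur MvPolynomial Lg
open Ope (Let gp sc ctr)
open Ro (Iso act)
open Wm (C1)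
open Lb (Lab Pl Cl rho mx ip pc frL freeL Sep)
open RG.Q4.En.Ty (Gn Ty sb Det)
open scoped NNReal

variable {S : Pol →ₗ[ℂ] ℂ} {K Λ δ a : ℝ} {h : R4 → ℝ} {ω : ∀ l : Cl, (Fin l.m → R4) → Lab ℝ}
  {Tp : Type} [Fintype Tp] {cl : Tp → Cl} {ref : Tp → Lab ℝ} {T : Tp → Ty} {β : Cl → Tp}
  {lam : Tp → ℕ → ℝ} (hS : Sf S K) (H : Dat (GD.d / 2) h ω Λ δ) (Y : Tys cl ref (GD.d / 2) T β)
  (p : ∀ τ n, 0 < lam τ n) {n₀ n₁ : ℝ → ℕ} {k k' : ℕ} (A : Aft cl ref h ω S lam k n₀) (hk : 2 ≤ k)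

theorem dn_tendsto : Tendsto dn atTop (𝓝[>] 0) :=
  tendsto_nhdsWithin_iff.2 ⟨tendsto_inv_atTop_zero.comp (tendsto_pow_atTop_atTop_of_one_lt one_lt_two),
    .of_forall fun n => show 0 < dn n by unfold dn; positivity⟩

theorem gm_ne (m : ℕ) : ((gm ^ m : ℝ) : ℂ) ≠ 0 := by
  have := GD.b0_pos
  exact Complex.ofReal_ne_zero.2 (by unfold gm; positivity)

instance curry_neBot : (atTop.curry UU : Filter (ℕ × ℕ)).NeBot := neBot_iff.2 fun e => by
  have : ∀ᶠ _j : ℕ × ℕ in atTop.curry UU, False := e ▸ eventually_bot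
  obtain ⟨_, a⟩ := (eventually_curry_iff.1 this).exists
  exact a.exists.choose_spec

theorem of_curry {q : ℕ → ℝ} {z : ℂ}
    (h : Tendsto (fun j : ℕ × ℕ => (q j.1 : ℂ)) (atTop.curry UU) (𝓝 z)) :
    Tendsto q atTop (𝓝 z.re) := fun U hU => by
  have := eventually_curry_iff.1 (((Complex.continuous_re.tendsto z).comp h).eventually_mem hU)
  exact this.mono fun n e => e.exists.choose_spec

/-- iterated limits of bounded Cauchy families -/
theorem exists_lim {s : ℕ → ℕ → ℂ} {c G : ℂ} {η : ℝ} (c0 : c ≠ 0)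
    (h1 : ∀ᶠ n in atTop, ∀ᶠ e in UU, ‖c * s n e - G‖ ≤ η)
    (h2 : ∀ ε > 0, ∀ᶠ n in atTop, ∀ n' ≥ n, ∀ᶠ e in UU, ‖s n' e - s n e‖ ≤ ε) :
    ∃ z, Tendsto (fun j : ℕ × ℕ => s j.1 j.2) (atTop.curry UU) (𝓝 z) := by
  refine cauchy_map_iff_exists_tendsto.1 (Metric.cauchy_iff.2 ⟨inferInstance, fun ε ε0 => ?_⟩)
  obtain ⟨N, a1, a2⟩ := (h1.and (h2 (ε / 8) (by positivity))).exists
  obtain ⟨x, -, hx⟩ := (isCompact_closedBall G η).ultrafilter_le_nhds
    ((hyperfilter ℕ).map fun e => c * s N e)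
    (le_principal_iff.2 (a1.mono fun e he => mem_closedBall_iff_norm.2 he))
  have hy : Tendsto (s N) UU (𝓝 (c⁻¹ * x)) := by
    simpa only [inv_mul_cancel_left₀ c0] using
      (show Tendsto (fun e => c * s N e) UU (𝓝 x) from hx).const_mul c⁻¹
  refine ⟨Metric.ball (c⁻¹ * x) (ε / 2), eventually_curry_iff.2 ?_, fun a ha b hb => by
    linarith [dist_triangle_right a b (c⁻¹ * x), Metric.mem_ball.1 ha, Metric.mem_ball.1 hb]⟩
  filter_upwards [eventually_ge_atTop N] with n hn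
  filter_upwards [a2 n hn, hy (Metric.ball_mem_nhds _ (show 0 < ε / 8 by positivity))] with e b1 b2
  have := dist_triangle (s n e) (s N e) (c⁻¹ * x)
  rw [dist_eq_norm (s n e) (s N e)] at this
  have b3 : dist (s N e) (c⁻¹ * x) < ε / 8 := b2
  show dist (s n e) _ < _
  linarith

variable (cl h ω S lam) in
/-- the limit of the normalised products -/
def zz {j : ℕ} (τ : Fin j → Tp) (c : Fin j → Lab ℝ) (f : Fin j → R4 → ℝ) (D : ℝ) : ℂ :=
  limUnder (atTop.curry UU) fun n : ℕ × ℕ => S (Pn cl h ω S lam τ c f D n.1 n.2)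

include hS p A in
theorem Aft.lim {j : ℕ} (hj : j ≤ k) {f : Fin j → R4 → ℝ} (hf : Adm f) (τ : Fin j → Tp)
    {c : Fin j → Lab ℝ} (hc : ∀ i, c i ∈ Vs (ref (τ i))) :
    (∀ᶠ D in 𝓝[>] (0 : ℝ), Tendsto (fun n : ℕ × ℕ => S (Pn cl h ω S lam τ c f D n.1 n.2))
      (atTop.curry UU) (𝓝 (zz S h ω cl lam τ c f D))) ∧
    Tendsto (fun D => ((lg cl τ D / ∏ i, lam (τ i) (n₀ D) : ℝ) : ℂ) * zz S h ω cl lam τ c f D)
      (𝓝[>] 0) (𝓝 (((gm ^ ∑ i, (cl (τ i)).m : ℝ) : ℂ) * frI (fun i => cx (c i)) f)) := by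
  have k1 : ∀ η > 0, ∀ᶠ D in 𝓝[>] (0 : ℝ),
      Tendsto (fun n : ℕ × ℕ => S (Pn cl h ω S lam τ c f D n.1 n.2))
        (atTop.curry UU) (𝓝 (zz S h ω cl lam τ c f D)) ∧
      ‖((lg cl τ D / ∏ i, lam (τ i) (n₀ D) : ℝ) : ℂ) * zz S h ω cl lam τ c f D -
        ((gm ^ ∑ i, (cl (τ i)).m : ℝ) : ℂ) * frI (fun i => cx (c i)) f‖ ≤ η := fun η η0 => by
    filter_upwards [A.law j hj f hf τ c hc η η0, Ioo_mem_nhdsGT zero_lt_one] with D ⟨R, a1, a2⟩ hD
    have b1 := (eventually_ge_atTop (n₀ D)).mono fun n hn => (a1 n hn).mono fun e he => by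
      simpa only [map_sub, map_smul, smul_eq_mul, C_eq_smul_one, hS.inp.st.one, mul_one] using
        hS.inp.st.bound he
    have c0 : ((lg cl τ D / ∏ i, lam (τ i) (n₀ D) : ℝ) : ℂ) ≠ 0 := Complex.ofReal_ne_zero.2
      (div_pos (pow_pos (log_pos ((one_lt_inv₀ hD.1).2 hD.2)) _)
        (Finset.prod_pos fun i _ => p _ _)).ne'
    have b2 := tendsto_nhds_limUnder (exists_lim c0 b1 fun ε ε0 => (a2 ε ε0).mono fun n hn n' hn' =>
      (hn n' hn').mono fun e he => by simpa only [map_sub] using hS.inp.st.bound he)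
    exact ⟨b2, le_of_tendsto ((b2.const_mul _).sub_const _).norm (eventually_curry_iff.2 b1)⟩
  exact ⟨(k1 1 one_pos).mono fun _ e => e.1, Metric.tendsto_nhds.2 fun ε ε0 =>
    (k1 (ε / 2) (by positivity)).mono fun D e => by rw [dist_eq_norm]; linarith [e.2]⟩

include hS p A hk in
/-- two slots -/
theorem Aft.two {f : Fin 2 → R4 → ℝ} (hf : Adm f) {τ υ : Tp} {a b : Lab ℝ} (ha : a ∈ Vs (ref τ))
    (hb : b ∈ Vs (ref υ)) : ∀ᶠ D in 𝓝[>] (0 : ℝ), ∃ z, Tendsto (fun n : ℕ × ℕ =>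
      (lam τ n.1 : ℂ) * lam υ n.1 * S (Yc h ω S (cl τ) (dn n.1) n.2 (cx a) (sc D (f 0)) *
        Yc h ω S (cl υ) (dn n.1) n.2 (cx b) (sc D (f 1)))) (atTop.curry UU) (𝓝 z) ∧
      (frI (fun i => cx (![a, b] i)) f ≠ 0 → z ≠ 0) := by
  obtain ⟨a1, a2⟩ := A.lim hS p hk hf ![τ, υ] (c := ![a, b]) (Fin.forall_fin_two.2 ⟨ha, hb⟩)
  have a3 : ∀ᶠ D in 𝓝[>] (0 : ℝ), frI (fun i => cx (![a, b] i)) f ≠ 0 →
      zz S h ω cl lam ![τ, υ] ![a, b] f D ≠ 0 := by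
    by_cases e : frI (fun i => cx (![a, b] i)) f = 0
    · exact .of_forall fun _ e' => (e' e).elim
    · exact (a2.eventually_ne (mul_ne_zero (gm_ne _) e)).mono fun D e _ => right_ne_zero_of_mul e
  filter_upwards [a1, a3] with D b1 b2
  refine ⟨_, b1.congr fun n => ?_, b2⟩
  simp only [Pn, Yn, Fin.prod_univ_two, Matrix.cons_val_zero, Matrix.cons_val_one, smul_mul_smul_comm,
    map_smul, smul_eq_mul, Matrix.cons_val_fin_one]

theorem adm2 {f : Fin 2 → R4 → ℝ} (hf : Adm f) {D : ℝ} (D0 : 0 < D) :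
    Adm ![sc D (f 0), sc D (f 1)] := by
  convert hf.smul (inv_pos.2 D0).ne' using 1
  funext i
  fin_cases i <;> rfl

include hS H Y p A hk

theorem Aft.lnk {τ τ' : Tp} (e : Lnk cl ref (GD.d / 2) τ τ') (c : cl τ' = cl τ) :
    ∃ r, Tendsto (fun n => lam τ n / lam τ' n) atTop (𝓝 r) := by
  obtain ⟨R, υ, a₁, a₂, a, b, ζ, ha, h1, h2, hb, hb', e, -, ζ0, ne⟩ := e
  obtain ⟨f, hf, ne⟩ := frI_ne ζ0 ne
  obtain ⟨D, ⟨x, hx, -⟩, ⟨y, hy, -⟩, ⟨z, hz, z0⟩, D0⟩ :=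
    ((A.two hS p hk (hf.comp R.toHomeomorph R.contDiff) ha hb).and ((A.two hS p hk hf h1 hb').and
      ((A.two hS p hk hf h2 hb').and self_mem_nhdsWithin))).exists
  have ad := adm2 hf D0
  have k1 : Tendsto (fun n : ℕ × ℕ => (lam τ n.1 : ℂ) * lam υ n.1 *
      (S (Yc h ω S (cl τ) (dn n.1) n.2 (cx a) (fun y => sc D (f 0) (R y)) *
        Yc h ω S (cl υ) (dn n.1) n.2 (cx b) fun y => sc D (f 1) (R y)) -
      S (Yc h ω S (cl τ) (dn n.1) n.2 (rE R (cx a)) (sc D (f 0)) *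
        Yc h ω S (cl υ) (dn n.1) n.2 (rE R (cx b)) (sc D (f 1))))) (atTop.curry UU) (𝓝 0) := by
    refine Metric.tendsto_nhds.2 fun ε ε0 => eventually_curry_iff.2 ?_
    filter_upwards [dn_tendsto.eventually (riem2 hS H (cl τ) (cl υ) (cx a) (cx b) R ad)] with n hn
    have q := mul_pos (p τ n) (p υ n)
    filter_upwards [UU_le (hn (ε / 2 / (lam τ n * lam υ n)) (by positivity))] with e he
    rw [dist_zero_right, norm_mul, ← Complex.ofReal_mul, Complex.norm_of_nonneg q.le]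
    have := (le_div_iff₀' q).1 he
    linarith
  refine ⟨_, of_curry (z := (x - y - 0) / z) ((((hx.sub hy).sub k1).div hz (z0 ne)).congr' ?_)⟩
  filter_upwards [hz.eventually_ne (z0 ne)] with n hn
  have q : (lam τ' n.1 : ℂ) ≠ 0 := Complex.ofReal_ne_zero.2 (p _ _).ne'
  have e1 : ∀ i, sc D (fun y => f i (R.toHomeomorph y)) = fun y => sc D (f i) (R y) := fun i => by
    funext y
    simp [sc]
  have e2 := Yc_linc (S := S) (l := cl τ) (d := dn n.1) (e := n.2) H (ad.1 0).1 1 (cx a₁) (cx a₂)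
  simp only [one_smul, Matrix.cons_val_zero] at e2
  simp only [Pi.div_apply, e1, rE_cx, e, cx_add, e2, add_mul, map_add, c] at hn ⊢
  rw [div_eq_iff hn]
  push_cast
  field_simp
  ring

theorem Aft.pair (τ : Tp) :
    ∃ r > 0, Tendsto (fun n => lam (β (cl τ)) n / lam τ n) atTop (𝓝 r) := by
  rcases Y.lnk τ with e | ⟨e1, e2⟩
  · exact ⟨1, one_pos, tendsto_const_nhds.congr fun n => by rw [← e, div_self (p _ _).ne']⟩
  · obtain ⟨r, hr⟩ := A.lnk hS H Y p hk e1 (Y.on _)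
    obtain ⟨r', hr'⟩ := A.lnk hS H Y p hk e2 (Y.on _).symm
    have e : r * r' = 1 := tendsto_nhds_unique (hr.mul hr') (tendsto_const_nhds.congr fun n => by
      have := p τ n
      have := p (β (cl τ)) n
      field_simp)
    exact ⟨r', lt_of_le_of_ne (ge_of_tendsto' hr' fun n => (div_pos (p _ _) (p _ _)).le)
      fun e' => by simp [← e'] at e, hr'⟩

theorem Aft.sca : ∃ r > 0, Tendsto (lam (β .s)) atTop (𝓝 r) := by
  obtain ⟨a, ha, b, hb, ζ, ζ0, ne⟩ := Y.ne (β .s)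
  have e0 : pc .s (Lb.c0 : Lab ℝ) = (2⁻¹ : ℝ) • Lb.an := by
    simp only [pc, Lb.c0, Lb.ip_an, mul_smul_comm, mul_one, Matrix.trace_smul, Lb.tr_an]
    norm_num
  have k : ∀ a ∈ Vs (ref (β .s)), ∃ t : ℝ, a = t • pc .s (Lb.c0 : Lab ℝ) := fun a ha =>
    ⟨2 * (ip Lb.an a / 6), by
      rw [e0, smul_smul, mul_right_comm, mul_inv_cancel₀ two_ne_zero, one_mul]
      exact (Vs_pc (Y.on .s ▸ Y.cls (β .s)) ha).symm⟩
  obtain ⟨t, rfl⟩ := k a ha
  obtain ⟨u, rfl⟩ := k b hb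
  have ne' : frL (GD.d / 2) ![pc .s (Lb.c0 : Lab ℝ), pc .s Lb.c0] ![0, ζ] ≠ 0 := fun e => ne <| by
    have := (Lb.frM (GD.d / 2) ![0, ζ]).map_smul_univ ![t, u] ![pc .s Lb.c0, pc .s Lb.c0]
    rw [Lb.frM_apply, Lb.frM_apply, e, smul_zero] at this
    rw [← this]
    congr 1
    funext i
    fin_cases i <;> rfl
  obtain ⟨f, hf, ne⟩ := frI_ne ζ0 ne'
  have k0 : (kap f : ℂ) ≠ 0 := by
    rw [← frI_c0, ← frI_pa]
    refine mul_ne_zero (gm_ne _) fun e => ne (.trans ?_ e)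
    congr 1
    funext i
    have : cx (pc .s Lb.c0) = Lb.pa Lb.c0 := by
      rw [cx_pc, cx_c0, Lb.pa_c0]
      simp only [pc, Lb.c0, Lb.ip_an, mul_smul_comm, mul_one, Matrix.trace_smul, Lb.tr_an]
      norm_num
    fin_cases i <;> exact this
  obtain ⟨D, ⟨z, hz, z0⟩, hw, D0⟩ := ((A.two hS p hk hf Y.sca Y.sca).and
    ((hS.inp.short 2 f hf (‖(kap f : ℂ)‖ / 2) (by positivity)).and self_mem_nhdsWithin)).exists
  have w0 : S (X (sc D (f 0)) * X (sc D (f 1))) ≠ 0 := fun e => by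
    have := hw.bound hS.inp.st
    rw [map_sub, map_smul, map_smul, hS.inp.st.one, mon, Fin.prod_univ_two] at this
    erw [e] at this
    simp only [mul_zero, zero_sub, norm_neg, smul_eq_mul, mul_one] at this
    exact (half_lt_self (norm_pos_iff.2 k0)).not_ge this
  have k1 : Tendsto (fun n : ℕ × ℕ => S (Yc h ω S .s (dn n.1) n.2 Lb.c0 (sc D (f 0)) *
      Yc h ω S .s (dn n.1) n.2 Lb.c0 (sc D (f 1)))) (atTop.curry UU)
      (𝓝 (S (X (sc D (f 0)) * X (sc D (f 1))))) := by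
    refine Metric.tendsto_nhds.2 fun ε ε0 => eventually_curry_iff.2 ?_
    filter_upwards [dn_tendsto.eventually (phi2 hS H dim_ne (adm2 hf D0) (half_pos ε0))] with n hn
    filter_upwards [UU_le hn] with e he
    rw [dist_eq_norm]
    exact lt_of_le_of_lt he (half_lt_self ε0)
  have k2 : Tendsto (fun n : ℕ × ℕ => ((lam (β .s) n.1 ^ 2 : ℝ) : ℂ)) (atTop.curry UU)
      (𝓝 (z / S (X (sc D (f 0)) * X (sc D (f 1))))) := by
    refine (hz.div k1 w0).congr' ?_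
    filter_upwards [k1.eventually_ne w0] with n hn
    simp only [Pi.div_apply, Y.on, cx_pc, cx_c0, Yc, Zc_pc H, if_true] at hn ⊢
    rw [div_eq_iff hn]
    push_cast
    ring
  have k3 := of_curry (q := fun n => lam (β .s) n ^ 2) k2
  have k4 : ((z / S (X (sc D (f 0)) * X (sc D (f 1)))).re : ℂ) = _ := tendsto_nhds_unique
    ((Complex.continuous_ofReal.tendsto _).comp (k3.comp (show Tendsto Prod.fst (atTop.curry UU) atTop
      from fun U hU => eventually_curry_iff.2 (mem_of_superset hU fun _ e => .of_forall fun _ => e)))) k2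
  refine ⟨_, sqrt_pos.2 (lt_of_le_of_ne (ge_of_tendsto' k3 fun n => sq_nonneg _) fun e =>
    div_ne_zero (z0 ne) w0 ?_), k3.sqrt.congr fun n => sqrt_sq (p _ _).le⟩
  rw [← k4, ← e, Complex.ofReal_zero]

theorem Aft.rat (τ : Tp) :
    ∃ r > 0, Tendsto (fun n => lc lam β (cl τ) n / lam τ n) atTop (𝓝 r) := by
  obtain ⟨r, r0, hr⟩ := A.pair hS H Y p hk τ
  by_cases e : cl τ = .s
  · obtain ⟨q, q0, hq⟩ := A.sca hS H Y p hk
    refine ⟨r / q, by positivity, (hr.div hq q0.ne').congr fun n => ?_⟩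
    have := p (β .s) n
    simp only [lc, e, if_true, Pi.div_apply]
    field_simp
  · exact ⟨r, r0, by simpa only [lc, if_neg e] using hr⟩

theorem Aft.win (A' : Aft cl ref h ω S lam k' n₁) (hk' : 2 ≤ k') (τ : Tp) :
    Tendsto (fun D => lam τ (n₀ D) / lam τ (n₁ D)) (𝓝[>] 0) (𝓝 1) := by
  obtain ⟨a, ha, b, hb, ζ, ζ0, ne⟩ := Y.ne τ
  obtain ⟨f, hf, ne⟩ := frI_ne ζ0 ne
  have g0 := mul_ne_zero (gm_ne (∑ i, (cl (![τ, τ] i)).m)) ne
  have a1 := (A.lim hS p hk hf ![τ, τ] (c := ![a, b]) (Fin.forall_fin_two.2 ⟨ha, hb⟩)).2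
  have a2 := (A'.lim hS p hk' hf ![τ, τ] (c := ![a, b]) (Fin.forall_fin_two.2 ⟨ha, hb⟩)).2
  have k1 : Tendsto (fun D => (((lam τ (n₀ D) / lam τ (n₁ D)) ^ 2 : ℝ) : ℂ)) (𝓝[>] 0) (𝓝 1) := by
    rw [← div_self g0]
    refine (a2.div a1 g0).congr' ?_
    filter_upwards [a1.eventually_ne g0] with D hD
    have q0 : (lam τ (n₀ D) : ℂ) ≠ 0 := Complex.ofReal_ne_zero.2 (p _ _).ne'
    have q1 : (lam τ (n₁ D) : ℂ) ≠ 0 := Complex.ofReal_ne_zero.2 (p _ _).ne'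
    rw [Pi.div_apply, div_eq_iff hD]
    simp only [Fin.prod_univ_two, Matrix.cons_val_zero, Matrix.cons_val_one, Matrix.cons_val_fin_one]
    push_cast
    field_simp
  have k2 := ((Complex.continuous_re.tendsto _).comp k1).sqrt
  rw [Complex.one_re, sqrt_one] at k2
  exact k2.congr fun D => by
    rw [Function.comp, Complex.ofReal_re, sqrt_sq (div_pos (p _ _) (p _ _)).le]

end Pool.Agent.Lib.MP_7f377f_mp.Cm
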