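import Pool.Agent.Lib.MP_7f377f_mp.G.CmN
import Pool.Agent.Lib.MP_7f377f_mp.G.CmB
import Pool.Agent.Lib.MP_7f377f_mp.G.CmL
import Pool.Agent.Lib.MP_7f377f_mp.G.CmI
import Pool.Agent.Lib.MP_7f377f_mp.G.CmG

/-! Composite fields: the result. -/

noncomputable section

namespace Pool.Agent.Lib.MP_7f377f_mp.Cm
variable [Pool.Agent.Lib.MP_7f377f_mp.GD]
set_option linter.unusedSectionVars false

open MeasureTheory Filter Topology Set Real YM7 Pur MvPolynomial Lg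
open Ope (Let gp sc ctr)
open Ro (Iso act)
open Wm (C1)
open Lb (Lab Pl Cl rho mx ip pc frL freeL Sep)
open RG.Q4.En.Ty (Gn Ty sb Det)
open scoped NNReal

theorem sub_exp {x : ℕ → ℝ} (p : ∀ n, 0 < x n)
    (r : Tendsto (fun n => x (n + 1) / x n) atTop (𝓝 1)) {ε : ℝ} (ε0 : 0 < ε) :
    ∀ᶠ n in atTop, dn n ^ ε ≤ x n ∧ x n ≤ dn n ^ (-ε) := by
  have h1 : Tendsto (fun n => log (x (n + 1)) - log (x n)) atTop (𝓝 0) := by
    simpa only [log_div (p _).ne' (p _).ne', log_one] using r.log one_ne_zero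
  have h2 := h1.cesaro.add (tendsto_inv_atTop_nhds_zero_nat.mul_const (log (x 0)))
  simp only [Finset.sum_range_sub fun n => log (x n), zero_mul, add_zero, ← mul_add,
    sub_add_cancel] at h2
  have l2 := log_pos one_lt_two
  filter_upwards [Metric.tendsto_nhds.1 h2 _ (mul_pos ε0 l2), eventually_gt_atTop 0] with n e n0
  have d0 : 0 < dn n := by unfold dn; positivity
  rw [Real.dist_eq, sub_zero, abs_mul, abs_inv, Nat.abs_cast,
    inv_mul_lt_iff₀ (by exact_mod_cast n0), abs_lt] at e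
  rw [← log_le_log_iff (rpow_pos_of_pos d0 _) (p n), ← log_le_log_iff (p n) (rpow_pos_of_pos d0 _),
    log_rpow d0, log_rpow d0, dn, log_inv, log_pow]
  constructor <;> linarith [e.1, e.2]

theorem slow_of {x : ℕ → ℝ} (p : ∀ n, 0 < x n) (r : Tendsto (fun n => x (n + 1) / x n) atTop (𝓝 1))
    {n : ℝ → ℕ} (h1 : Tendsto n (𝓝[>] 0) atTop) (h2 : ∀ᶠ D in 𝓝[>] (0 : ℝ), D ^ 2 / 2 ≤ dn (n D))
    (m : ℕ) {b : ℝ} (b0 : 0 < b) : ∀ᶠ D in 𝓝[>] (0 : ℝ),
      D ^ b ≤ log D⁻¹ ^ m / (gm ^ m * x (n D)) ∧ log D⁻¹ ^ m / (gm ^ m * x (n D)) ≤ D ^ (-b) := by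
  have g0 := gm_pos
  have t : Tendsto (fun D : ℝ => D⁻¹) (𝓝[>] 0) atTop := tendsto_inv_nhdsGT_zero
  have o := (isLittleO_log_rpow_rpow_atTop m (half_pos b0)).bound (pow_pos g0 m)
  filter_upwards [h1.eventually (sub_exp p r (show 0 < b / 6 by positivity)), h2,
    Ioc_mem_nhdsGT (show (0 : ℝ) < 2⁻¹ by norm_num), t.eventually o,
    (tendsto_log_atTop.comp t).eventually_ge_atTop gm] with D ⟨a1, a2⟩ a3 ⟨D0, D1⟩ a4 a5
  have a6 : D ^ (3 : ℝ) ≤ dn (n D) := by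
    rw [show (3 : ℝ) = (3 : ℕ) by norm_num, rpow_natCast]
    nlinarith [mul_le_mul_of_nonneg_left D1 (sq_nonneg D)]
  have q := rpow_pos_of_pos D0 3
  have b1 := (rpow_le_rpow q.le a6 (show 0 ≤ b / 6 by positivity)).trans a1
  have b2 := a2.trans (rpow_le_rpow_of_nonpos q a6 (show -(b / 6) ≤ 0 by linarith))
  rw [← rpow_mul D0.le] at b1 b2
  have l0 : 0 ≤ log D⁻¹ := g0.le.trans a5
  rw [norm_of_nonneg (by positivity), norm_of_nonneg (by positivity), rpow_natCast,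
    inv_rpow D0.le, ← rpow_neg D0.le] at a4
  have x0 := p (n D)
  constructor
  · rw [le_div_iff₀ (by positivity)]
    calc _ ≤ D ^ b * (gm ^ m * D ^ (3 * -(b / 6))) := by gcongr
      _ = D ^ (b / 2) * gm ^ m := by
        rw [mul_left_comm, ← rpow_add D0, mul_comm]
        congr 2
        ring
      _ ≤ 1 * log D⁻¹ ^ m := by
        gcongr
        · exact rpow_le_one D0.le (by linarith) (by positivity)
        · exact a5
      _ = _ := one_mul _
  · rw [div_le_iff₀ (by positivity)]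
    calc _ ≤ _ := a4
      _ = D ^ (-b) * (gm ^ m * D ^ (3 * (b / 6))) := by
        rw [mul_left_comm, ← rpow_add D0]
        congr 2
        ring
      _ ≤ _ := by gcongr

/-- small operators -/
def Sm (S : Pol →ₗ[ℂ] ℂ) (F : ℝ → ℕ × ℕ → Pol) : Prop :=
  ∀ η > 0, ∀ᶠ D in 𝓝[>] (0 : ℝ), ∀ᶠ j in atTop.curry UU, QE S (F D j) η

theorem Sm.sum {S : Pol →ₗ[ℂ] ℂ} (hS : net.St S) {I : Type} [Fintype I] {F : I → ℝ → ℕ × ℕ → Pol}
    (h : ∀ i, Sm S (F i)) : Sm S fun D j => ∑ i, F i D j := fun η η0 => by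
  have c : 0 < η / (Fintype.card I + 1) := by positivity
  filter_upwards [eventually_all.2 fun i => h i _ c] with D e
  filter_upwards [eventually_all.2 e] with j e
  refine (QE.sum hS Finset.univ fun i _ => e i).mono hS ?_
  rw [Finset.sum_const, Finset.card_univ, nsmul_eq_mul, mul_div_assoc', div_le_iff₀ (by positivity)]
  linarith

variable {S : Pol →ₗ[ℂ] ℂ} {K Λ δ a : ℝ} {h : R4 → ℝ} {ω : ∀ l : Cl, (Fin l.m → R4) → Lab ℝ}
  {Tp : Type} [Fintype Tp] {cl : Tp → Cl} {ref : Tp → Lab ℝ} {T : Tp → Ty} {β : Cl → Tp}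
  {lam : Tp → ℕ → ℝ} (hS : Sf S K) (H : Dat (GD.d / 2) h ω Λ δ) (Y : Tys cl ref (GD.d / 2) T β)

include hS in
theorem Aft.sm {k k' : ℕ} {n₀ : ℝ → ℕ} (A : Aft cl ref h ω S lam k' n₀) (hk : k ≤ k')
    {f : Fin k → R4 → ℝ} (hf : Adm f) (τ : Fin k → Tp) {c : Fin k → Lab ℝ} (hc : ∀ i, c i ∈ Vs (ref (τ i))) (z : ℂ)
    {u : ℝ → ℝ} {v : ℕ → ℝ} {r : ℝ} (r0 : r ≠ 0) (hu : Tendsto u (𝓝[>] 0) (𝓝 r⁻¹))
    (hv : Tendsto v atTop (𝓝 r)) : Sm S fun D j => z • (((u D * v j.1 * (lg cl τ D / ∏ i,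
      lam (τ i) (n₀ D)) / gm ^ ∑ i, (cl (τ i)).m : ℝ) : ℂ) • Pn cl h ω S lam τ c f D j.1 j.2 -
        C (frI (fun i => cx (c i)) f)) := fun η η0 => by
  obtain ⟨g, hg⟩ : ∃ g, g = gm ^ ∑ i, (cl (τ i)).m := ⟨_, rfl⟩
  have g0 : 0 < g := hg ▸ pow_pos gm_pos _
  obtain ⟨Φ, hΦ⟩ : ∃ Φ, Φ = frI (fun i => cx (c i)) f := ⟨_, rfl⟩
  have t : Tendsto (fun p : ℝ × ℝ × ℕ => ‖z‖ * (|u p.2.1 * v p.2.2 / g| * p.1 +
      |u p.2.1 * v p.2.2 - 1| * ‖Φ‖)) (𝓝[>] 0 ×ˢ 𝓝[>] 0 ×ˢ atTop) (𝓝 0) := by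
    have e := (hu.comp (tendsto_fst.comp (tendsto_snd (f := 𝓝[>] (0 : ℝ))))).mul
      (hv.comp (tendsto_snd.comp tendsto_snd))
    simpa [r0] using ((((e.div_const g).abs.mul (tendsto_nhds_of_tendsto_nhdsWithin tendsto_fst)).add
      ((e.sub_const 1).abs.mul_const ‖Φ‖))).const_mul ‖z‖
  obtain ⟨ε, e1, ε0⟩ := ((t.eventually_le_const η0).curry.and self_mem_nhdsWithin).exists
  filter_upwards [A.law k hk f hf τ c hc ε ε0, e1.curry] with D ⟨R, e2, _⟩ e3
  rw [eventually_curry_iff]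
  filter_upwards [eventually_ge_atTop (n₀ D), e3] with n hn e4
  filter_upwards [e2 n hn] with e e5
  rw [← hg, ← hΦ] at e5 ⊢
  have := ((e5.smul ((u D * v n / g : ℝ) : ℂ)).add hS.inp.st
    ((qb_C hS.inp.st e5.2.1 Φ).smul ((u D * v n - 1 : ℝ) : ℂ))).smul z
  rw [Complex.norm_real, Complex.norm_real] at this
  refine ⟨R, ?_⟩
  convert this.mono hS.inp.st le_rfl e4 using 2
  have : (g : ℂ) ≠ 0 := by exact_mod_cast g0.ne'
  rw [C_mul, C_mul', smul_sub, smul_smul, smul_smul, sub_add, ← sub_smul]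
  push_cast
  congr 2 <;> field_simp <;> simp

include hS H Y in
theorem Tel.res' {K' : ℝ} (t : Tel cl ref h ω S lam K' a) : ∃ n₀, Aft cl ref h ω S lam 2 n₀ ∧
    Res S (4 * K) (atTop.curry UU) (Oa h ω S (lc lam β))
      fun l D => log D⁻¹ ^ l.m / (gm ^ l.m * lc lam β l (n₀ D)) := by
  choose n₀ A using t.aft hS H Y
  choose r r0 hr using (A 2).rat hS H Y t.pos le_rfl
  have p : ∀ l n, 0 < lc lam β l n := fun l n => by
    unfold lc
    split_ifs
    exacts [one_pos, t.pos _ _]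
  refine ⟨n₀ 2, A 2,
    t.inl hS H Y fun τ => ⟨_, hr τ⟩, fun d hd g hg η η0 => ?_, fun j c g => Oa_pa H _ j c,
    fun D => by simp [lc, Cl.m], fun l b b0 => slow_of (p l) ?_ (A 2).top (A 2).low _ b0,
    fun k l c f hf hc => ?_⟩
  · rw [eventually_curry_iff]
    filter_upwards [dn_zero.eventually (phi1 hS H dim_ne hd hg η0)] with n e
    filter_upwards [UU_le e] with e e'
    have : pc .s (Lb.pa (Lb.c0 : Lab ℂ)) = Lb.pa Lb.c0 := by
      rw [Lb.pa_c0, Lb.pc_smul, pc, Lb.ip_an, Lb.an_an, Lb.tr_an]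
      norm_num
    rw [← Oa_pa H, Oa_pc H _ _ this, Yc, Zc_pa H]
    simpa [lc, Yc] using e'
  · unfold lc
    split_ifs
    exacts [by simp, t.rat _]
  · classical
    choose x x1 x2 x3 using fun i (s : Bool) =>
      Y.sum (l i) ((c i).map (if s then Complex.im else Complex.re))
    obtain ⟨M, hM⟩ := frI_ml hf
    let z : Bool → ℂ := fun s => if s then Complex.I else 1
    have e1 : ∀ i, c i = ∑ q : Bool × Tp, z q.1 • cx (x i q.1 q.2) := fun i => by
      have s : ∀ v : Tp → Lab ℝ, cx (∑ τ, v τ) = ∑ τ, cx (v τ) := fun v => by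
        ext
        simp [cx, Matrix.sum_apply]
      simp only [Fintype.sum_prod_type, ← Finset.smul_sum, ← s, ← x3, Fintype.sum_bool, z, if_true,
        (pc_re (hc i)).2, Bool.false_eq_true, if_false, (pc_re (hc i)).1, one_smul]
      rw [add_comm, ← cx_re_im]
    have cs : ∀ D > (0 : ℝ), ∀ i, HasCompactSupport (sc D (f i)) := fun D D0 i =>
      (hf.1 i).1.comp_homeomorph (Homeomorph.smulOfNeZero D⁻¹ (inv_pos.2 D0).ne')
    have z0 : ∀ {g} l d e, HasCompactSupport g → Yc h ω S l d e (cx 0) g = 0 := fun l d e hg => by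
      simpa [cx] using Yc_linc H hg (S := S) (l := l) (d := d) (e := e) (-1) 0 0
    have e2 : ∀ D > (0 : ℝ), ∀ (j : ℕ × ℕ) i, Oa h ω S (lc lam β) j (c i) (sc D (f i)) =
        ∑ q : Bool × Tp, (z q.1 * (lc lam β (cl q.2) j.1 / lam q.2 j.1 : ℝ)) •
          Yn cl h ω S lam q.2 j.1 j.2 (x i q.1 q.2) (sc D (f i)) := fun D D0 j i => by
      let L : Lab ℂ →ₗ[ℂ] Pol := IsLinearMap.mk' (Yc h ω S (l i) (dn j.1) j.2 · (sc D (f i)))
        ⟨fun a b => by simpa using Yc_linc H (cs D D0 i) 1 a b, fun t a => by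
          simpa [show Yc h ω S (l i) (dn j.1) j.2 0 _ = 0 by simpa [cx] using z0 _ _ _ (cs D D0 i)]
            using Yc_linc H (cs D D0 i) (S := S) (l := l i) (d := dn j.1) (e := j.2) t a 0⟩
      rw [Oa_pc H _ _ (hc i), show Yc h ω S (l i) (dn j.1) j.2 (c i) _ = L (c i) from rfl, e1, map_sum,
        Finset.smul_sum]
      refine Finset.sum_congr rfl fun q _ => ?_
      by_cases u : cl q.2 = l i
      · have : (lam q.2 j.1 : ℂ) ≠ 0 := by exact_mod_cast (t.pos _ _).ne'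
        rw [map_smul, Yn, smul_smul, smul_smul, u]
        push_cast
        rw [mul_assoc, div_mul_cancel₀ _ this, mul_comm]
        rfl
      · rw [x2 _ _ _ u, Yn, z0 _ _ _ (cs D D0 i), show cx 0 = 0 by simp [cx]]
        simp
    have key := Sm.sum hS.inp.st fun q : Fin k → Bool × Tp => (A (max k 2)).sm hS (le_max_left k 2)
      hf (fun i => (q i).2) (fun i => x1 i (q i).1 _) (∏ i, z (q i).1)
      (Finset.prod_pos fun i _ => r0 (q i).2).ne' (by
        simpa only [one_mul, Finset.prod_inv_distrib] using tendsto_finset_prod Finset.univ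
          fun i _ => ((A (max k 2)).win hS H Y t.pos (le_max_right k 2) (A 2) le_rfl (q i).2).mul
            (((hr (q i).2).comp (A 2).top).inv₀ (r0 _).ne'))
      (tendsto_finset_prod _ fun i _ => hr (q i).2)
    intro η η0
    filter_upwards [key η η0, self_mem_nhdsWithin] with D e D0
    filter_upwards [e] with j e
    convert e using 1
    simp only [e2 D D0, Fintype.prod_sum, Finset.prod_smul]
    rw [← hM, funext e1, M.map_sum, map_sum, Finset.smul_sum, ← Finset.sum_sub_distrib]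
    refine Finset.sum_congr rfl fun q _ => ?_
    rw [M.map_smul_univ, hM, smul_sub, smul_eq_mul, C_mul, C_mul', smul_smul, smul_smul]
    congr 1
    by_cases u : ∀ i, cl (q i).2 = l i
    · congr 1
      rw [Finset.prod_mul_distrib, mul_left_comm, ← Complex.ofReal_prod, ← Complex.ofReal_mul]
      simp only [lg, ← u, ← Finset.prod_pow_eq_pow_sum, ← Finset.prod_div_distrib,
        ← Finset.prod_mul_distrib, ← Finset.prod_inv_distrib, Function.comp]
      congr 3 with i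
      have := fun n => (p (cl (q i).2) n).ne'
      have := fun n => (t.pos (q i).2 n).ne'
      have := gm_pos
      field_simp [*]
    · obtain ⟨i, u⟩ := not_forall.1 u
      have : Pn cl h ω S lam (fun i => (q i).2) (fun i => x i (q i).1 (q i).2) f D j.1 j.2 = 0 :=
        Finset.prod_eq_zero (Finset.mem_univ i) (by
          beta_reduce
          rw [x2 _ _ _ u, Yn, z0 _ _ _ (cs D D0 i), smul_zero])
      rw [this, smul_zero]
      exact (congrArg _ this).trans (smul_zero _)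

include hS H Y in
theorem Tel.res {K' : ℝ} (t : Tel cl ref h ω S lam K' a) :
    ∃ N, Res S (4 * K) (atTop.curry UU) (Oa h ω S (lc lam β)) N :=
  (t.res' hS H Y).elim fun _ u => ⟨_, u.2⟩

include hS in
/-- the result together with its data -/
theorem core' (I : ∀ Λ δ, 1 ≤ Λ → 0 < δ → ∃ a Kl, Kin S 5 Λ δ a Kl) :
    ∃ h ω Λ δ, ∃ (L : Cl → ℕ → ℝ) (N : _), Dat (GD.d / 2) h ω Λ δ ∧ (∀ n, 0 < L .t n) ∧
      (∀ ε > (0 : ℝ), ∀ᶠ n in atTop, L .t n ≤ dn n ^ (-ε)) ∧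
        Res S (4 * K) (atTop.curry UU) (Oa h ω S L) N := by
  obtain ⟨h, ω, Λ, δ, H⟩ := exists_dat dim_ne
  obtain ⟨β, Y⟩ := tys dim_ne
  obtain ⟨a, Kl, I⟩ := I Λ δ H.pos.1 H.pos.2
  obtain ⟨lam, t⟩ := exists_tel hS H Y I
  obtain ⟨N, r⟩ := t.res hS H Y
  exact ⟨h, ω, Λ, δ, _, N, H, t.pos _, fun ε ε0 =>
    (sub_exp (t.pos _) (t.rat _) ε0).mono fun _ e => e.2, r⟩

include hS in
theorem core (I : ∀ Λ δ, 1 ≤ Λ → 0 < δ → ∃ a Kl, Kin S 5 Λ δ a Kl) :
    ∃ (l : Filter (ℕ × ℕ)) (_ : l.NeBot) (O : _) (N : _), Res S (4 * K) l O N := by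
  obtain ⟨h, ω, Λ, δ, L, N, -, -, -, r⟩ := core' hS I
  exact ⟨_, inferInstance, _, N, r⟩

end Pool.Agent.Lib.MP_7f377f_mp.Cm
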