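import Pool.Agent.Lib.MP_7f377f_mp.G.LmA

/-! Limits of local composite fields: the input and the limit operators. -/

noncomputable section

namespace Pool.Agent.Lib.MP_7f377f_mp.Lm
variable [Pool.Agent.Lib.MP_7f377f_mp.GD]
set_option linter.unusedSectionVars false

open Filter Topology Set Metric Function YM7 Pur Lg Wm Lg.PI
open Ro (Iso act act_act act_one act_mem act_adm act_τ)
open scoped NNReal

variable {V ι : Type} [AddCommGroup V] [Module ℂ V]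

/-- approximating sequences `O j c g` of composite fields with the label `c` -/
structure Inl (W : Pol →ₗ[ℂ] ℂ) (K : ℝ) (θ : Fin 4 → V → V) (ρ : Iso → V → V) (l : Filter ι)
    (O : ι → V → (R4 → ℝ) → Pol) : Prop where
  one : 1 ≤ K
  lin : ∀ j c g g' (t : ℝ), C1 univ g → C1 univ g' →
    O j c (g + t • g') = O j c g + (t : ℂ) • O j c g'
  linc : ∀ j (t : ℂ) a b g, C1 univ g → O j (t • a + b) g = t • O j a g + O j b g
  refl : ∀ j μ c g, C1 univ g → net.Θ μ (O j c g) = O j (θ μ c) fun y => g (rf μ y)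
  loc : ∀ c U g, IsOpen U → C1 U g → ∀ᶠ j in l, O j c g ∈ net.loc U
  cau : ∀ c R v, dt R = 1 → ∀ d ∈ Ioc (0 : ℝ) 1, ∀ g, C1 (Bx d) g → ∀ η > 0, ∀ᶠ j in l, ∀ᶠ j' in l,
    net.QB W (net.τ v (act R (O j c fun y => g (R y + v))) - O j' (ρ R c) g) (K * d) η
  bd : ∀ c, ∃ (C : ℝ) (s : ℕ), 0 ≤ C ∧ ∀ d ∈ Ioc (0 : ℝ) 1, ∀ g (L : ℝ≥0), C1 (Bx d) g →
    LipschitzWith L g → ∀ᶠ j in l, net.QB W (O j c g) (K * d) (C / d ^ s * L)

variable {S W : Pol →ₗ[ℂ] ℂ} {K : ℝ} {θ : Fin 4 → V → V} {ρ : Iso → V → V} {l : Filter ι}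
  {O : ι → V → (R4 → ℝ) → Pol}

theorem Inl.dom (h : Inl S K θ ρ l O) (hD : net.Dom S W) : Inl W K θ ρ l O :=
  ⟨h.one, h.lin, h.linc, h.refl, h.loc, fun c R v hR d hd g hg η η0 =>
    (h.cau c R v hR d hd g hg η η0).mono fun _ e => e.mono fun _ => hD.qb, fun c =>
    let ⟨C, s, C0, e⟩ := h.bd c
    ⟨C, s, C0, fun d hd g L g1 g2 => (e d hd g L g1 g2).mono fun _ => hD.qb⟩⟩

variable {H : Type} [NormedAddCommGroup H] [InnerProductSpace ℂ H] [CompleteSpace H]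
  {r : net.Rep W 0 H}

theorem lim_of {X : Type} [NormedAddCommGroup X] [l.NeBot] {A B : ι → X} {x : X}
    (h : ∀ η > 0, ∀ᶠ j in l, ∀ᶠ j' in l, ‖A j - B j'‖ ≤ η) (hB : Tendsto B l (𝓝 x)) :
    Tendsto A l (𝓝 x) :=
  Metric.nhds_basis_closedBall.tendsto_right_iff.2 fun η η0 => (h η η0).mono fun _ e =>
    mem_closedBall_iff_norm.2 (le_of_tendsto (tendsto_const_nhds.sub hB).norm e)

theorem cau_of {X : Type} [NormedAddCommGroup X] [CompleteSpace X] [l.NeBot] {A : ι → X}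
    (h : ∀ η > 0, ∀ᶠ j in l, ∀ᶠ j' in l, ‖A j - A j'‖ ≤ η) : ∃ x, Tendsto A l (𝓝 x) := by
  refine cauchy_map_iff_exists_tendsto.1 (Metric.cauchy_iff.2 ⟨inferInstance, fun η η0 =>
    ⟨_, image_mem_map (h (η / 3) (by positivity)), ?_⟩⟩)
  rintro _ ⟨j, e, rfl⟩ _ ⟨j', e', rfl⟩
  obtain ⟨m, h1, h2⟩ := (Eventually.and e e').exists
  have := dist_triangle_right (A j) (A j') (A m)
  rw [dist_eq_norm (A j) (A m), dist_eq_norm (A j') (A m)] at this
  linarith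

theorem Inl.app [l.NeBot] (h : Inl W K θ ρ l O) (hS : net.St W) (ρ1 : ∀ c, ρ 1 c = c)
    (hD : ∀ R : ℝ, Dense {y | ∃ b ∈ net.loc (Ot 0), r.Ψ (net.τ (R • B1.nn) b) = y}) :
    ∃ M : V → ℝ → (R4 → ℝ) → H →L[ℂ] H, ∀ c,
      App r K (fun R => M (ρ R c)) l fun j => O j c := by
  have ob : ∀ {X R c}, net.QB W X R c → OB r R X (B1.Op r R X) := fun e =>
    ⟨e.1, fun Z hZ => B1.Op_eq r hS (hD _) e ⟨Z, hZ⟩⟩
  have q : ∀ c, ∀ d ∈ Ioc (0 : ℝ) 1, ∀ g, C1 (Bx d) g → ∃ C, ∀ᶠ j in l,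
      net.QB W (O j c g) (K * d) C := fun c d hd g hg =>
    let ⟨_, _, _, e⟩ := h.bd c
    (hg.2.1.lipschitzWith_of_hasCompactSupport hg.1 one_ne_zero).elim fun L e' =>
      ⟨_, e d hd g L hg e'⟩
  have key : ∀ c R v, dt R = 1 → ∀ d ∈ Ioc (0 : ℝ) 1, ∀ g, C1 (Bx d) g → ∀ η > 0, ∀ᶠ j in l,
      OB r (K * d) (net.τ v (act R (O j c fun y => g (R y + v))))
        (B1.Op r (K * d) (net.τ v (act R (O j c fun y => g (R y + v))))) ∧ ∀ᶠ j' in l,
      ‖B1.Op r (K * d) (net.τ v (act R (O j c fun y => g (R y + v)))) -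
        B1.Op r (K * d) (O j' (ρ R c) g)‖ ≤ η := fun c R v hR d hd g hg η η0 => by
    obtain ⟨C, hC⟩ := q (ρ R c) d hd g hg
    filter_upwards [h.cau c R v hR d hd g hg η η0] with j hj
    obtain ⟨m, m1, m2⟩ := (hj.and hC).exists
    have o := ob (sub_add_cancel _ (O m (ρ R c) g) ▸ m1.add hS m2)
    refine ⟨o, (hj.and hC).mono fun j' e => ?_⟩
    rw [(o.sub (ob e.2)).eq (ob e.1)]
    exact B1.Op_le r hS (hD _) e.1
  refine ⟨fun c d g => limUnder l fun j => B1.Op r (K * d) (O j c g), fun c =>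
    ⟨fun j g g' a b => by simpa using h.lin j c g g' 1 a b, fun R v hR d hd g hg =>
      ⟨_, (key c R v hR d hd g hg 1 one_pos).mono fun _ e => e.1,
        lim_of (fun η η0 => (key c R v hR d hd g hg η η0).mono fun _ e => e.2)
          (tendsto_nhds_limUnder (cau_of fun η η0 => ?_))⟩⟩⟩
  simpa [net.τ_zero, ρ1] using (key (ρ R c) 1 0 dt_one d hd g hg η η0).mono fun _ e => e.2

end Pool.Agent.Lib.MP_7f377f_mp.Lm
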