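import Pool.Agent.Lib.MP_7f377f_mp.G.SoftB

/-! Bounds which are uniform in the volume for restricted classes of sources. -/

noncomputable section

namespace Pool.Agent.Lib.MP_7f377f_mp.YM7
variable [GD]

open MeasureTheory Weak Filter Topology Real Jet Finset

variable {n m lam μ D R : ℕ} [NeZero n] {κ : Type} [Fintype κ] [DecidableEq κ]
  {Λ : (Cfg n → ℝ) → ℝ} {a a' τ τ' δ δ' w M C b : ℝ} {F : κ → Src n} {T : Finset κ}

/-- classes of families of sources which are invariant under the symmetries of the grid -/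
structure Sym (lam : ℕ) (E : (κ → Src n) → Prop) : Prop where
  zero : E 0
  rf : ∀ G k, E G → E fun i => rL lam k (G i)
  sh : ∀ G (v : Site 4 n), E G → E fun i x => G i (x + v)

/-- the plaquettes of each source lie in a set of diameter `R` -/
def Dc (R : ℕ) (F : κ → Src n) : Prop := ∀ i x μ ν y μ' ν' x' y', F i x μ ν ≠ 0 →
  F i y μ' ν' ≠ 0 → Cor x μ ν x' → Cor y μ' ν' y' → ∀ l, ((x' - y') l).valMinAbs.natAbs ≤ R

omit [Fintype κ] [DecidableEq κ] [NeZero n] in
theorem sym_dc (lam R : ℕ) : Sym (κ := κ) (n := n) lam (Dc R) :=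
  ⟨fun _ _ _ _ _ _ _ _ _ e => (e rfl).elim, fun G k h i x μ ν y μ' ν' x' y' a b c d l => by
    have hl := h i _ _ _ _ _ _ _ _ a b (c.rq k _) (d.rq k _) l
    by_cases e : l = k
    · rw [← ZMod.natAbs_valMinAbs_neg]; simpa [rf, e, sub_eq_neg_add, add_comm, add_left_comm] using hl
    · simpa [rf, e] using hl, fun G v h i x μ ν y μ' ν' x' y' a b c d l => by
    simpa using h i _ _ _ _ _ _ (x' + v) (y' + v) a b
      (fun l => (c l).imp (fun e => by simp [e]) fun e => ⟨e.1, by simp [e.2]; ring⟩)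
      (fun l => (d l).imp (fun e => by simp [e]) fun e => ⟨e.1, by simp [e.2]; ring⟩) l⟩

omit [Fintype κ] [DecidableEq κ] in
theorem dc_of (h : ∀ i x μ ν y μ' ν', F i x μ ν ≠ 0 → F i y μ' ν' ≠ 0 →
    ∀ l, ((x - y) l).valMinAbs.natAbs ≤ R) : Dc (R + 2) F :=
  fun i x μ ν y μ' ν' x' y' a b c d l => by
    have t := fun a b : ZMod n => (ZMod.natAbs_valMinAbs_add_le a b).trans (Int.natAbs_add_le _ _)
    have h1 := t ((x - y) l) (x' l - x l)
    have h2 := t ((x - y) l + (x' l - x l)) (-(y' l - y l))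
    rw [ZMod.natAbs_valMinAbs_neg, show (x - y) l + (x' l - x l) + -(y' l - y l) =
      (x' - y') l by simp] at h2
    have := c.le l
    have := d.le l
    have := h i _ _ _ _ _ _ a b l
    omega

variable [MeasurableSpace SU2] [BorelSpace SU2] {h : Measure SU2} [h.IsHaarMeasure]
  [IsProbabilityMeasure h] [NeZero m] {E : (κ → Src n) → Prop} (hS : Sym lam E)
  (hb : 0 ≤ b) (hm : Odd m) (hn : n = m * lam) (m1 : 1 < m) (ha : 0 < a) (hδ : 0 ≤ δ)
  (haδ : δ + a ≤ δ') (hτ : τ' + 4 * a' ≤ τ) (hI : Inv Λ lam) (w0 : 0 < w) (hC : 0 ≤ C)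
  (hG : Gen h b (κ := κ) Λ (fun c F => Cla (m := m) a a' τ δ lam D c F ∧ E F) w (exp (C * m ^ 4)))
  {c : Site 4 m} (hF : Cla a a' τ' δ' lam (D + 2) c F) (hE : E F)
include hS hb hm hn m1 ha hδ haδ hτ hI w0 hC hG hF hE

/-- the chessboard estimate for the observables of one cell -/
theorem ob_le' (T : Finset κ) : |∫ U, ob Λ F T U ∂wilson h b n| ≤ exp (256 * C) * w ^ T.card := by
  classical
  rcases T.eq_empty_or_nonempty with rfl | ⟨i0, -⟩
  · simpa [hI.ob0] using hC
  have l0 : 0 < lam := Nat.pos_of_ne_zero (by rintro rfl; exact NeZero.ne n hn)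
  have ln : lam < n := by rw [hn]; nlinarith
  obtain ⟨g, -, g2, g3⟩ := (hF.1 i0).1
  have a0 := (abs_nonneg _).trans (g2 0 0)
  have τ0 := (abs_nonneg _).trans (g3 0 0 0)
  let β := Option ({G : κ → Src n // (∀ i, Lab a' τ lam ⌈δ / a⌉₊ (G i)) ∧ Sc D G ∧ E G} × Finset κ)
  have key := YM5.wilson_chess_cell h hb hm hn (β := β) none (fun k o => o.map fun G =>
      (⟨fun i => rL lam k (G.1.1 i), fun i => (G.1.2.1 i).rL ln k, G.1.2.2.1.rL lam k,
        hS.rf G.1.1 k G.1.2.2.2⟩, G.2))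
    (fun _ => rfl) (fun k o => by cases o <;> simp [rL_rL])
    (fun o U => o.elim 1 fun G => ob Λ G.1.1 G.2 U)
    (fun o => by
      cases o
      · exact BM.const 1
      · exact BM.of_continuous (cont_ob _ _ _))
    (fun _ => rfl)
    (fun o k U => by
      rcases o with _ | G
      · simp only [Option.elim, Option.map]
      · simpa only [Option.elim, Option.map] using hI.ob_rL (F := G.1.1) (T := G.2) k U)
    (fun o U V hUV => by
      rcases o with _ | G
      · simp only [Option.elim]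
      · simp only [Option.elim, ob, fun i => (G.1.2.1 i).dep ln U V hUV])
    (fun o => o.elim 1 fun G => w ^ G.2.card) (fun o => by cases o <;> simp [w0]) rfl
    (fun k o => by cases o <;> rfl) hC (fun σ => ?_) 1 c
    (fun x => if x = c then some (⟨_, fun i => lab_of (hF.1 i).1 (hF.1 i).2 ha hδ haδ hτ,
      hF.2.sc _, hS.sh _ _ hE⟩, T) else none) fun x l hx => if_neg (by rintro rfl; simp at hx)
  · rw [prod_eq_single c (fun x _ e => by rw [if_neg e]; rfl) (by simp), if_pos rfl] at key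
    refine le_trans (le_of_eq ?_) (key.trans_eq (by norm_num [mul_comm]))
    congr 2
    funext U
    rw [prod_eq_single c (fun x _ e => by rw [if_neg e]; rfl) (by simp), if_pos rfl]
    simp only [Option.elim, ← hI.ob_sh, sub_add_cancel]
  · have := hG.le hI w0 (F := fun x => (σ x).elim 0 fun G i y => G.1.1 i (y - corner lam x))
      (fun x => ?_) fun x => (σ x).elim ∅ (·.2)
    · refine (congrArg (|∫ U, · U ∂_|) (funext fun U => prod_congr rfl fun x _ => ?_)).trans_le
        (this.trans_eq (congrArg _ (prod_congr rfl fun x _ => ?_)))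
      all_goals rcases σ x with _ | G <;> simp [hI.ob0, hI.ob_sh]
    · rcases σ x with _ | G
      · exact ⟨⟨fun i => ⟨⟨0, by simp, by simpa, by simp; linarith⟩, fun _ _ _ e => (e rfl).elim⟩,
          fun _ _ _ _ _ _ _ _ _ e => (e rfl).elim⟩, hS.zero⟩
      · exact ⟨⟨fun i => (G.1.2.1 i).cla ha ((div_le_iff₀' ha).1 (Nat.le_ceil _)) x,
          fun i j e y _ _ y' _ _ a b => by
            simpa using G.1.2.2.1 i j e _ _ _ _ _ _ _ _ a b (fun _ => .inl rfl) fun _ => .inl rfl⟩,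
          by simpa only [sub_eq_add_neg, Option.elim] using hS.sh _ (-corner lam x) G.1.2.2.2⟩

theorem red_of_gen' {e : Finset κ → ℂ} (hR : Red Λ F w M e) :
    Red (ex h b n) F w (2 ^ Fintype.card κ * exp (256 * C) * M) e := by
  obtain ⟨e0, q, hq, q0, hm'⟩ := hR
  have hN := sh_ma_le (a := fun T => (∫ U, ob Λ F T U ∂wilson h b n : ℝ)) w0 fun T => by
    simpa using ob_le' hS hb hm hn m1 ha hδ haδ hτ hI w0 hC hG hF hE T
  refine ⟨e0, _, hN.mul hq, by simp [ma_zero, hI.ob0, q0], fun T => ?_⟩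
  obtain ⟨r, ⟨h1, h2⟩, r1⟩ := ((ev_inv (hI.mom0 F)).and (Ioo_mem_nhdsGT (inv_pos.2 w0))).exists
  have r0 : ∀ _ : κ, 0 < r := fun _ => r1.1
  have h3 := sh_ma r0 univ (mom (ex h b n) F)
  have h4 := (Eqv.mk (A := univ) ⟨_, h3.mul h1⟩ ⟨_, hN.shrink r0 fun _ => r1.2.le⟩ fun S hS => by
    rw [jd_ma _ hS, ← integral_complex_ofReal]
    simp only [hI.ob_eq]
    exact (int_jd h b F h1 S).symm).mul (Eqv.mk ⟨_, sh_ma r0 univ (mom Λ F)⟩
      ⟨_, (sh_ma r0 univ e).exp.mul (hq.shrink r0 fun _ => r1.2.le)⟩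
      fun S hS => (jd_ma _ hS).trans (hm' S))
  rw [← jd_ma (mom (ex h b n) F) (subset_univ T), ← jd_congr r0 (fun s hs => ?_) T,
    h4.eq T (subset_univ T)]
  · exact congrArg _ (funext fun s => mul_left_comm _ _ _)
  · exact inv_mul_cancel_right₀ (h2 s hs) _

end Pool.Agent.Lib.MP_7f377f_mp.YM7
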