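import Pool.Agent.Lib.MP_7f377f_mp.G.Q5Cm2
import Pool.Agent.Lib.MP_7f377f_mp.G.TsS

/-! Small test sources at arbitrary positions: geometry and moments. -/

noncomputable section

open Pool.Agent.Lib.MP_7f377f_mp.Jet

set_option linter.unusedSectionVars false
variable [Pool.Agent.Lib.MP_7f377f_mp.GD]

namespace Pool.Agent.Lib.MP_7f377f_mp.YM7

/-- test functions with small supports -/
def Dia {k : ℕ} (Λ : ℝ) (f : Fin k → R4 → ℝ) : Prop :=
  ∀ i y z, f i y ≠ 0 → f i z ≠ 0 → ∀ l, |y l - z l| ≤ Λ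

theorem Dia.dc {n k : ℕ} [NeZero n] {Λ X s : ℝ} {f : Fin k → R4 → ℝ} (H : Dia Λ f) (Λ0 : 0 ≤ Λ)
    (s0 : 0 < s) (s1 : s ≤ 1) (v : Weak.Site 4 n) : Dc ⌈(Λ + 3) / s⌉₊ (tsr X f s v) := by
  have a : Λ / s + 2 ≤ ⌈(Λ + 3) / s⌉₊ := by
    refine le_trans ?_ (Nat.le_ceil _)
    rw [add_div]
    linarith [(le_div_iff₀ s0).2 (show 2 * s ≤ 3 by linarith)]
  have a0 := div_nonneg Λ0 s0.le
  generalize ⌈(Λ + 3) / s⌉₊ = R at a
  obtain ⟨R, rfl⟩ : ∃ r, R = r + 2 :=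
    ⟨R - 2, (Nat.sub_add_cancel (by exact_mod_cast (show (2 : ℝ) ≤ R by linarith))).symm⟩
  refine dc_of fun i x μ ν y μ' ν' h h' l => ?_
  have b := H i _ _ (right_ne_zero_of_mul h) (right_ne_zero_of_mul h') l
  simp only [xp, ← mul_sub, abs_mul, abs_of_pos s0] at b
  rw [← le_div_iff₀' s0] at b
  have c := ZMod.natAbs_min_of_le_div_two n ((x - y) l).valMinAbs
    (((x - v) l).valMinAbs - ((y - v) l).valMinAbs) (by simp) (ZMod.natAbs_valMinAbs_le _)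
  refine c.trans (Nat.cast_le (α := ℝ).1 ?_)
  push_cast at a
  rw [Nat.cast_natAbs]
  push_cast
  linarith

end Pool.Agent.Lib.MP_7f377f_mp.YM7

namespace Pool.Agent.Lib.MP_7f377f_mp.RG.Q4.En.Gl

open Finset Real Sg Br YM7 Filter Topology

theorem sup_dc {n R : ℕ} [NeZero n] {κ : Type} {F : κ → Src n} (hn : Odd n) (h : Dc R F) (i : κ) :
    ∃ y, sup (F i) ⊆ tb n R {y} := by
  rcases (sup (F i)).eq_empty_or_nonempty with e | ⟨y, hy⟩
  · exact ⟨0, e ▸ empty_subset _⟩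
  refine ⟨y, fun x hx => ?_⟩
  obtain ⟨μ, ν, a⟩ := mem_sup hx
  obtain ⟨μ', ν', b⟩ := mem_sup hy
  have k := fun l => (ZMod.intCast_eq_intCast_iff_dvd_sub
    ((Fi.cst n x - Fi.cst n y : Weak.Site 4 n) l).valMinAbs (x l - y l) n).1 (by simp [Fi.cst])
  choose q hq using k
  refine mem_tb_single.2 ⟨rc_eq hn (mem_filter.1 hx).1, nearT_iff.2 ⟨q, fun l => ?_⟩⟩
  have := h i _ _ _ _ _ _ _ _ a b (fun _ => .inl rfl) (fun _ => .inl rfl) l
  have := hq l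
  omega

namespace Ok

variable {G : Gl} (h : G.Ok) {c j l J k m u v : ℕ} {Λ X δ d a b w : ℝ} {f : Fin k → R4 → ℝ}
include h

theorem geo_of' {ι κ : Type} [DecidableEq ι] [DecidableEq κ] {A : Finset ι} {cl : ι → κ}
    {W : ι → Finset St} {Δ Δ' : ℝ} {R : ℕ} (hl : l ≤ J) (hj : j ≤ l) (h1 : Cls (G.N J) Δ A id W)
    (h2 : 66 * ((G.L l : ℝ) ^ G.K0 * G.rt J l) ≤ Δ) (h3 : Cls (G.N J) Δ' A cl W)
    (h4 : (40 * c + 46) * ((G.L j : ℝ) ^ G.K0 * G.rt J j) ≤ Δ')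
    (hc : ∀ a, (A.filter (cl · = a)).card ≤ c) (hL : 1000 * 3 ^ c ≤ G.L j)
    (hR : ∀ x, ∃ y, W x ⊆ tb (G.N J) R {y})
    (hV : ((2 * (R / G.rt J l + 4 * G.L l ^ G.K0) + 1) ^ 4 : ℕ) ≤ G.Q l ^ 48) :
    G.Geo A cl c W J l j :=
  ⟨fun _ a b => h.zs_cls h1 zero_le_three (by linarith) a b,
    fun _ a b => h.zs_cls h3 (by positivity) (by linarith) a (b.trans hl), hc, hL, fun a => by
      refine ⟨(A.filter (cl · = a)).biUnion fun x => G.zs (W x) J l, ?_, fun x hx e =>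
        subset_biUnion_of_mem (fun x => G.zs (W x) J l) (mem_filter.2 ⟨hx, e⟩)⟩
      have c1 : (c : ℝ) ≤ G.Q l := le_trans (Nat.cast_le.2 (le_trans
        (Nat.lt_pow_self (by norm_num)).le (le_trans (Nat.le_mul_of_pos_left _ (by norm_num))
          (hL.trans (h.L_mono hj))))) (h.LQ l)
      refine (Nat.cast_le.2 (card_biUnion_le_card_mul _ _ _ fun x _ =>
        let ⟨_, e⟩ := hR x; h.zs_card e hl)).trans ?_
      rw [Nat.cast_mul, pow_succ' _ 49, pow_succ' _ 48]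
      exact mul_le_mul ((Nat.cast_le.2 (hc a)).trans c1) (hV.trans (le_mul_of_one_le_left
        (pow_pos (h.Q0 l) _).le (h.Q1 l))) (Nat.cast_nonneg _) (h.Q0 l).le⟩

variable (V : G.Lv c j l Λ δ d) (hl : l < J) (ha : a * 3 ^ G.e J = 1) (Λ1 : 1 ≤ Λ) (δ0 : 0 < δ)
  (X1 : 1 ≤ X) (hX : d * (X + δ + 3) ≤ 100⁻¹)
include V hl ha

include Λ1 in
theorem vol48 :
    ((2 * (⌈(Λ + 3) / (a / d)⌉₊ / G.rt J l + 4 * G.L l ^ G.K0) + 1) ^ 4 : ℕ) ≤ G.Q l ^ 48 := by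
  have a1 := h.R_le V hl ha Λ1 hl.le
  have d0 := V.d0
  generalize ⌈(Λ + 3) / (a / d)⌉₊ / G.rt J l = t at *
  push_cast
  rw [show 48 = 12 * 4 from rfl, pow_mul]
  gcongr
  linarith [V.hi]

variable [NeZero (G.N J)] [NeZero m] (hn : G.N j = m * u) (hu : 3 ^ G.e j ≤ 3 * u)
include hu hn hX

/-- the test sources are admissible -/
theorem cla_ts' (H : Tf f X δ) (hv : |a * v - a * (G.rt J j * u : ℕ) / 2| ≤ d) :
    Cla (m := m) a (a / d) 0 (a * (G.rt J j * u : ℕ) / 2 - d * (X + 1)) (G.rt J j * u)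
      (G.ds J l + 2) 0 (tsr X f (a / d) (Fi.cst (G.N J) fun _ => v)) := by
  have a0 := a_pos ha
  have d0 := V.d0
  have a2 := h.lam_ge V hl ha hu
  have a3 : G.rt J j * u ≤ G.N J := by
    rw [← h.rt_N (V.le.trans hl.le), hn]
    exact Nat.mul_le_mul_left _ (Nat.le_mul_of_pos_left _ (NeZero.pos m))
  have a4 := mul_le_mul_of_nonneg_left (Nat.cast_le (α := ℝ).2 a3) a0.le
  have := mul_pos d0 H.pos
  refine cla_mid H (div_pos a0 d0) a0 le_rfl a3 ?_ (h.s_le V hl ha).1 (h.ds_le V hl ha)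
    (by linarith) ?_
  · rw [div_mul_eq_mul_div, lt_div_iff₀ d0]
    linarith
  · rw [div_div_cancel₀ a0.ne']
    linarith

variable {κ : Type} [Fintype κ] [DecidableEq κ] (t : G.Tu b J) (hp : G.Pu) (T : G.Tv b J)
  (hc : Fintype.card κ ≤ c) (w0 : 0 < w) (hw : w⁻¹ ≤ 2 ^ (l - j) * G.sg l)
include t hp T hc hw Λ1 δ0

/-- the families of all cells -/
theorem gen_run' (F : Weak.Site 4 m → κ → Src (G.N J)) (hF : ∀ y, Cla a (a / d) (4 * (a / d))
    (a * (G.rt J j * u : ℕ) / 2 - d * (X + 2)) (G.rt J j * u) (G.ds J l) y (F y) ∧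
      Dc ⌈(Λ + 3) / (a / d)⌉₊ (F y)) :
    ∃ Y, G.Fe b J j (fun p : Weak.Site 4 m × κ => F p.1 p.2) w (G.nz j) Y ∧ Y.Ec univ Prod.fst := by
  have a0 := a_pos ha
  have d0 := V.d0
  have s0 := div_pos a0 d0
  have a2 := h.lam_ge V hl ha hu
  have a3 : G.N J = m * (G.rt J j * u) := by
    rw [← h.rt_N (V.le.trans hl.le), hn, mul_left_comm]
  have a4 := mul_pos d0 δ0
  have a5 : 5⁻¹ / a ≤ 2 * (a * (G.rt J j * u : ℕ) / 2 - d * (X + 2)) / a := by gcongr; linarith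
  have B := fun p : Weak.Site 4 m × κ => sup_dc (h.N_odd J) (hF p.1).2 p.2
  have hF' := fun y => (hF y).1
  have R := h.fe_run (cl := Prod.fst) (c := c) (w := w) (M := G.nz j) t hp T
    (fun p : Weak.Site 4 m × κ => ((hF' p.1).1 p.2).1) s0 (h.s_le V hl ha).2 (by positivity)
    (h.s_rt V hl ha) (div_pos (h.b0 l) (pow_pos (h.Q0 l) _)) le_rfl hl.le V.le (fun _ => Subset.rfl)
    (h.geo_of' hl.le V.le (cls_id a3 a0 hF' univ (le_trans ?_ a5)) (by simp [ds])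
      (cls_cell a3 a0 hF' univ)
      (le_trans ?_ a5) (fun y => le_trans (card_le_card_of_injOn Prod.snd (fun _ _ => mem_univ _)
        fun p hp q hq e => Prod.ext ((mem_filter.1 hp).2.trans (mem_filter.1 hq).2.symm) e) hc)
      V.big B (h.vol48 V hl ha Λ1)) hw
    fun p => let ⟨_, e⟩ := B p
      Nat.cast_le.2 ((h.zs_card e (V.le.trans hl.le)).trans (h.nz_le V hl ha Λ1 δ0))
  · exact ⟨_, R.1, R.2.1⟩
  · have := h.ds_le V hl ha
    rw [← mul_div_assoc, div_le_iff₀ d0] at this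
    rw [le_div_iff₀ a0]
    push_cast at this
    nlinarith [d_le V Λ1 δ0]
  · have b1 := (h.Lb j (i := G.K0 + 1) (by have := h.B1; omega)).trans (h.b_e j)
    have b2 : (1000 * 3 ^ c : ℝ) ≤ G.L j := by exact_mod_cast V.big
    have b3 : (c : ℝ) + 1 ≤ 3 ^ c := by exact_mod_cast Nat.lt_pow_self (by norm_num)
    have b4 : 5 * (40 * c + 46) * (G.L j : ℝ) ^ G.K0 ≤ 3 ^ G.e j :=
      (mul_le_mul_of_nonneg_right (by linarith) (by positivity)).trans ((pow_succ' _ _).ge.trans b1)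
    rw [← h.rt_e (V.le.trans hl.le)] at ha
    rw [le_div_iff₀ a0]
    nlinarith [mul_le_mul_of_nonneg_right b4 (show 0 ≤ G.rt J j * a by positivity)]

omit hc δ0 in
include w0 in
/-- the moments of the test sources -/
theorem red_run' (m1 : 1 < m) (hk : k ≤ c) (H : Tf f X δ) (D : Dia Λ f)
    (hv : |a * v - a * (G.rt J j * u : ℕ) / 2| ≤ d) {Y : Fy (Fin k)}
    (e : G.Fe b J j (tsr X f (a / d) (Fi.cst (G.N J) fun _ => v)) w (G.nz j) Y) :
    Red (YM7.ex (Fi.tr haar) b (G.N J)) (tsr X f (a / d) (Fi.cst (G.N J) fun _ => v)) w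
      (G.mr j u k) (ce Y.E) := by
  have a2 := h.lam_ge V hl ha hu
  have := mul_pos V.d0 H.pos
  have hj := V.le.trans hl.le
  have s1 := (h.s_le V hl ha).1
  obtain ⟨c1, c2, c3⟩ := h.gen_cell t.b0 hj w0 hn (P := fun y F => Cla a (a / d) (4 * (a / d))
    (a * (G.rt J j * u : ℕ) / 2 - d * (X + 2)) (G.rt J j * u) (G.ds J l) y F ∧
      Dc ⌈(Λ + 3) / (a / d)⌉₊ F) (h.gen_run' V hl ha Λ1 H.pos hX hn hu t hp T ((Fintype.card_fin k).trans_le hk) hw)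
  have : (Fi.tr haar).IsHaarMeasure := (inferInstance : haar.IsHaarMeasure)
  simpa only [Fintype.card_fin, mr] using red_of_gen' (sym_dc _ _) t.b0
    (Nat.Odd.of_mul_left (hn ▸ h.N_odd j)) c1 m1 (a_pos ha) (by linarith [V.d0])
    (by linarith [(div_le_one V.d0).1 s1]) (zero_add _).le c2 w0
    (by have := cI_nn (h.g0 j); positivity) c3 (h.cla_ts' V hl ha hX hn hu H hv)
    (D.dc (by linarith) (div_pos (a_pos ha) V.d0) s1 _) (h.red_al t.b0 hj w0 e le_rfl)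

omit t hp T hc hw δ0 in
/-- the geometry of the test sources -/
theorem geo_ts' (hk : k ≤ c) (H : Tf f X δ) (D : Dia Λ f)
    (hv : |a * v - a * (G.rt J j * u : ℕ) / 2| ≤ d) {W : Fin k → Finset St}
    (hW : W = fun i => sup (tsr X f (a / d) (Fi.cst (G.N J) fun _ => v) i)) :
    G.Geo univ (fun _ => ()) c W J l j ∧
      (∀ n, l + G.K0 + 1 ≤ n → n ≤ J → G.L n ≤ G.L l ^ 2 →
        Cls (G.N n) (G.L l * (G.p n).D) univ id fun i => G.zs (W i) J n) ∧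
      (∀ n ≤ l, ∀ i, (G.zs (W i) J n).card ≤ G.Q l ^ 50) ∧
      ∀ i, ((G.zs (W i) J j).card : ℝ) ≤ G.nz j := by
  have C := h.cla_ts' V hl ha hX hn hu H hv
  have B : ∀ i, ∃ y, W i ⊆ tb (G.N J) ⌈(Λ + 3) / (a / d)⌉₊ {y} := fun i => hW ▸ sup_dc (h.N_odd J)
    (D.dc (by linarith) (div_pos (a_pos ha) V.d0) (h.s_le V hl ha).1 _) i
  have S : Cls (G.N J) (G.ds J l) univ id W := fun _ _ _ _ e =>
    hW ▸ (sep_sp C.2 e).mono (Nat.cast_le.2 (Nat.le_add_right ..)) Subset.rfl Subset.rfl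
  refine ⟨h.geo_of' hl.le V.le S (by simp [ds]) (fun _ _ _ _ e => (e rfl).elim) le_rfl
    (fun _ => (card_le_univ _).trans ((Fintype.card_fin k).trans_le hk)) V.big B
    (h.vol48 V hl ha Λ1), fun n h1 h2 h3 =>
    h.zs_cls S (Nat.cast_nonneg _) ?_ le_rfl h2, fun n e i => let ⟨_, B⟩ := B i
      (Nat.cast_le.2 (h.zs_card B (e.trans hl.le))).trans (h.vol_le V hl ha Λ1 e),
    fun i => let ⟨_, B⟩ := B i
      Nat.cast_le.2 ((h.zs_card B (V.le.trans hl.le)).trans (h.nz_le V hl ha Λ1 H.pos))⟩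
  have L := h.L_big l
  have a1 : G.L l ^ (G.K0 + 1) ≤ G.rt n l :=
    (Nat.pow_le_pow_right (by omega) (by omega)).trans (h.le_rt l (by omega))
  have a2 : (20 * G.L l + 6) * (G.L n ^ G.K0 * G.rt J n) ≤ G.ds J l := by
    rw [ds, ← h.rt_mul (show l ≤ n by omega) h2]
    calc _ ≤ 66 * G.L l * ((G.L l ^ 2) ^ G.K0 * G.rt J n) := by gcongr; omega
      _ = 66 * (G.L l ^ G.K0 * (G.L l ^ (G.K0 + 1) * G.rt J n)) := by ring
      _ ≤ _ := by gcongr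
  exact_mod_cast a2

end Ok

end Pool.Agent.Lib.MP_7f377f_mp.RG.Q4.En.Gl
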