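import Pool.Agent.Lib.MP_7f377f_mp.G.Q4FluxB

/-! Signed symmetry types of quadratic forms on constant curvatures. -/

noncomputable section

set_option linter.unusedSectionVars false

namespace Pool.Agent.Lib.MP_7f377f_mp.RG.Q4.En.Ty

open Finset Real

/-- oriented planes -/
abbrev Pl := Fin 4 × Fin 4

/-- permutations of the axes and reflections -/
abbrev Gn := Equiv.Perm (Fin 4) ⊕ Fin 4

/-- symmetry types: generators with a sign (`true` for odd) -/
abbrev Ty := List (Gn × Bool)

/-- the sign -/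
def sb (c : Bool) : ℤ := if c then -1 else 1

/-- the image of a plane -/
def mv : Gn → Pl → Pl
  | .inl σ, p => (σ.symm p.1, σ.symm p.2)
  | .inr _, p => p

/-- the sign of the image of a plane -/
def sn : Gn → Pl → ℤ
  | .inl _, _ => 1
  | .inr j, p => (if p.1 = j then -1 else 1) * if p.2 = j then -1 else 1

/-- the ordered plane -/
def nm (p : Pl) : Pl := if p.1 ≤ p.2 then p else p.swap

/-- the orientation -/
def os (p : Pl) : ℤ := if p.1 ≤ p.2 then 1 else -1

/-- entries which are related to the entry `x` -/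
def mvs (T : Ty) (x : Pl × Pl) : List ((Pl × Pl) × ℤ) := T.flatMap fun g =>
  [((nm (mv g.1 x.1), nm (mv g.1 x.2)),
    sb g.2 * (sn g.1 x.1 * os (mv g.1 x.1) * (sn g.1 x.2 * os (mv g.1 x.2)))),
   ((nm (mv g.1 x.2), nm (mv g.1 x.1)),
    sb g.2 * (sn g.1 x.1 * os (mv g.1 x.1) * (sn g.1 x.2 * os (mv g.1 x.2))))]

/-- entries which are determined by the entries in `E` -/
def gd (T : Ty) (E : List (Pl × Pl)) : ℕ → Pl × Pl → Bool
  | 0, x => decide (x ∈ E) || decide ((x, -1) ∈ mvs T x)
  | n + 1, x => gd T E n x || (mvs T x).any fun y => gd T E n y.1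

/-- forms of type `T` are determined by the entries in `E` -/
def Det (T : Ty) (E : List (Pl × Pl)) : Prop :=
  ∀ x : Pl × Pl, x.1.1 < x.1.2 → x.2.1 < x.2.2 → gd ((.inl 1, false) :: T) E 3 x

instance (T : Ty) (E : List (Pl × Pl)) : Decidable (Det T E) := by unfold Det; infer_instance

/-- exchanges of axes -/
def sw (a b : Fin 4) (c : Bool) : Gn × Bool := (.inl (Equiv.swap a b), c)

/-- the four reflections with given signs -/
def rf (c0 c1 c2 c3 : Bool) : Ty := [(.inr 0, c0), (.inr 1, c1), (.inr 2, c2), (.inr 3, c3)]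

/-- all exchanges of axes -/
def sa (c : Bool) : Ty := [sw 0 1 c, sw 0 2 c, sw 0 3 c, sw 1 2 c, sw 1 3 c, sw 2 3 c]

/-- scalars -/
def T1 : Ty := rf false false false false ++ sa false

/-- the type of `T00 - T11` -/
def T3 : Ty := rf false false false false ++ [sw 0 1 true, sw 2 3 false]

/-- the type of `T01` -/
def T6 : Ty := rf true true false false ++ [sw 2 3 false]

/-- the type of `T00` -/
def T0 : Ty := rf false false false false ++ [sw 1 2 false, sw 1 3 false, sw 2 3 false]

def T2 : Ty := rf false false false false ++ [sw 0 1 true, sw 2 3 true]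

def T6' : Ty := rf true true false false ++ [sw 2 3 true]

def T2' : Ty := rf true true true true ++ [sw 2 3 false]

/-- pseudoscalars -/
def T1' : Ty := rf true true true true ++ sa true

/-- the independent entries of a symmetric form -/
def E21 : List (Pl × Pl) := [(0, 1), (0, 2), (0, 3), (1, 2), (1, 3), (2, 3)].tails.flatMap fun l =>
  l.map fun q => (l.headD 0, q)

theorem det1 : Det T1 [((0, 1), (0, 1))] := by decide +kernel

theorem det3 : Det T3 [((0, 2), (0, 2))] := by decide +kernel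

theorem det6 : Det T6 [((0, 2), (1, 2))] := by decide +kernel

theorem det0 : Det T0 [((0, 1), (0, 1)), ((1, 2), (1, 2))] := by decide +kernel

theorem det2 : Det T2 [((0, 2), (0, 2))] := by decide +kernel

theorem det6' : Det T6' [((0, 2), (1, 2))] := by decide +kernel

theorem det2' : Det T2' [((0, 2), (1, 3))] := by decide +kernel

theorem det1' : Det T1' [((0, 1), (2, 3))] := by decide +kernel

theorem det21 : Det [] E21 := by decide +kernel

theorem len21 : E21.length = 21 := by decide +kernel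

theorem sb_sq (c : Bool) : sb c * sb c = 1 := by cases c <;> rfl

theorem sb_abs (c : Bool) : |(sb c : ℝ)| = 1 := by cases c <;> simp [sb]

theorem sn_abs (g : Gn) (p : Pl) : |(sn g p : ℝ)| = 1 := by
  cases g <;> simp only [sn]
  · simp
  · split_ifs <;> simp

theorem os_abs (p : Pl) : |(os p : ℝ)| = 1 := by unfold os; split_ifs <;> simp

section abstract

variable {M : Pl × Pl → ℝ} {T : Ty} {E : List (Pl × Pl)} {e η : ℝ}

theorem gd_le (η0 : 0 ≤ η) (e0 : 0 ≤ e) (hE : ∀ x ∈ E, |M x| ≤ e)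
    (hM : ∀ x, ∀ y ∈ mvs T x, |M x - y.2 * M y.1| ≤ η ∧ |(y.2 : ℝ)| = 1) :
    ∀ n x, gd T E n x → |M x| ≤ e + (n + 1) * η
  | 0, x, h => by
    simp only [gd, Bool.or_eq_true, decide_eq_true_eq] at h
    rcases h with h | h
    · push_cast
      linarith [hE x h]
    · have := abs_le.1 (hM x _ h).1
      push_cast at this ⊢
      exact abs_le.2 ⟨by linarith, by linarith⟩
  | n + 1, x, h => by
    simp only [gd, Bool.or_eq_true, List.any_eq_true] at h
    push_cast
    rcases h with h | ⟨y, h, h'⟩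
    · linarith [gd_le η0 e0 hE hM n x h]
    · have a := abs_sub_abs_le_abs_sub (M x) (y.2 * M y.1)
      rw [abs_mul, (hM x y h).2] at a
      linarith [gd_le η0 e0 hE hM n _ h', (hM x y h).1]

end abstract

variable [Pool.Agent.Lib.MP_7f377f_mp.GD] {F F' : Mt} {n : ℕ} {ϑ : Lk → Ang} {x : ℝ}

/-- the action on curvatures -/
def mt : Gn → Mt → Mt
  | .inl σ => pM σ
  | .inr j => rM j

/-- the action on abelian fields -/
def an : Gn → (Lk → Ang) → Lk → Ang
  | .inl σ => pm σ
  | .inr j => rfl1 Neg.neg j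

/-- the action on gauge fields -/
def cf : Gn → Conf → Conf
  | .inl σ => pm σ
  | .inr j => rfl1 Inv.inv j

theorem ab_an (g : Gn) (ϑ : Lk → Ang) : ab (an g ϑ) = cf g (ab ϑ) := by
  cases g
  exacts [rfl, ab_rf _ _]

theorem an_zero (g : Gn) : an g 0 = 0 := by
  cases g
  · rfl
  · funext e
    simp [an, rfl1]

theorem fx_an (h : Fx n F ϑ) (g : Gn) : Fx n (mt g F) (an g ϑ) := by
  cases g
  exacts [h.pm _, h.rf _]

theorem as_mt (h : As F) (g : Gn) : As (mt g F) := by
  cases g
  exacts [h.pM _, h.rM _]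

theorem norm_mt (g : Gn) : ‖mt g F‖ ≤ ‖F‖ := by
  cases g
  exacts [norm_pM _, norm_rM _]

theorem mt_add (g : Gn) (F F' : Mt) : mt g (F + F') = mt g F + mt g F' := by
  cases g
  exacts [rfl, funext₂ fun _ _ => smul_add ..]

theorem mt_smul (g : Gn) (t : ℝ) (F : Mt) : mt g (t • F) = t • mt g F := by
  cases g
  · rfl
  · funext μ ν
    simp only [mt, rM, Pi.smul_apply, smul_comm t]

theorem EE_nm (p : Pl) : EE p = (os p : ℝ) • EE (nm p) := by
  funext μ ν
  simp only [os, nm]
  split_ifs <;> simp [EE, EZ, Prod.ext_iff, and_comm]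

theorem mt_EE (g : Gn) (p : Pl) : mt g (EE p) = (sn g p : ℝ) • EE (mv g p) := by
  funext μ ν
  cases g with
  | inl σ => simp [mt, mv, sn, pM, EE, EZ, Prod.ext_iff, Equiv.eq_symm_apply]
  | inr j =>
    have : sg j μ * sg j ν * EZ p μ ν = sn (.inr j) p * EZ p μ ν := by
      revert j μ ν p
      decide +kernel
    simp only [mt, mv, rM, EE, zsmul_eq_mul, Pi.smul_apply, smul_eq_mul]
    exact_mod_cast this

/-- an almost invariant form is bounded by the entries in `E` -/
theorem Det.le {T : Ty} {E : List (Pl × Pl)} (h : Det T E) {k : BF} (hs : ∀ a b, k a b = k b a)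
    {e η : ℝ} (η0 : 0 ≤ η) (e0 : 0 ≤ e) (hE : ∀ x ∈ E, |k (pt (EE x.1)) (pt (EE x.2))| ≤ e)
    (hT : ∀ g ∈ T, ∀ p q, |k (pt (mt g.1 (EE p))) (pt (mt g.1 (EE q))) -
      sb g.2 * k (pt (EE p)) (pt (EE q))| ≤ η) (p q : Pl) :
    |k (pt (EE p)) (pt (EE q))| ≤ e + 4 * η := by
  have z : ∀ p : Pl, ¬(nm p).1 < (nm p).2 → EE p = 0 := fun p hp => by
    have : p.1 = p.2 := by revert p; decide
    funext μ ν
    simp [EE, EZ, Prod.ext_iff, this, and_comm]
  by_cases hp : (nm p).1 < (nm p).2
  swap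
  · simp only [z p hp, map_zero, LinearMap.zero_apply, abs_zero]
    positivity
  by_cases hq : (nm q).1 < (nm q).2
  swap
  · simp only [z q hq, map_zero, abs_zero]
    positivity
  have := gd_le (M := fun x => k (pt (EE x.1)) (pt (EE x.2))) η0 e0 hE (fun x y hy => ?_) 3 _
    (h (nm p, nm q) hp hq)
  · rw [EE_nm p, EE_nm q]
    simp only [map_smul, LinearMap.smul_apply, smul_eq_mul, abs_mul, os_abs, one_mul]
    exact this.trans_eq (by norm_num)
  obtain ⟨g, hg, hy⟩ := List.mem_flatMap.1 hy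
  have a : |k (pt (mt g.1 (EE x.1))) (pt (mt g.1 (EE x.2))) -
      sb g.2 * k (pt (EE x.1)) (pt (EE x.2))| ≤ η := by
    rcases List.mem_cons.1 hg with rfl | hg
    · simpa [mt, sb, show ∀ F, pM 1 F = F from fun _ => rfl] using η0
    · exact hT g hg _ _
  rw [mt_EE, mt_EE, EE_nm (mv _ x.1), EE_nm (mv _ x.2), ← one_mul |_|, ← sb_abs g.2, ← abs_mul,
    mul_sub, ← mul_assoc, ← Int.cast_mul, sb_sq, Int.cast_one, one_mul, abs_sub_comm] at a
  simp only [map_smul, LinearMap.smul_apply, smul_eq_mul] at a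
  simp only [List.mem_cons, List.not_mem_nil, or_false] at hy
  rcases hy with rfl | rfl <;> push_cast <;>
    refine ⟨le_of_eq_of_le (congrArg _ ?_) a, by simp only [abs_mul, sb_abs, sn_abs, os_abs, one_mul]⟩
  · ring
  · rw [hs (pt (EE (nm (mv g.1 x.2))))]
    ring

end Pool.Agent.Lib.MP_7f377f_mp.RG.Q4.En.Ty
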