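import Pool.Agent.Lib.MP_7f377f_mp.G.SbP
import Pool.Agent.Lib.MP_7f377f_mp.G.TsR
import Pool.Agent.Lib.MP_7f377f_mp.G.TyA
import Pool.Agent.Lib.MP_7f377f_mp.G.LmB
import Pool.Agent.Lib.MP_7f377f_mp.Lb0

/-! Composite fields of dimension four: definitions and the input from the lattice. -/

noncomputable section

namespace Pool.Agent.Lib.MP_7f377f_mp.Cm
variable [Pool.Agent.Lib.MP_7f377f_mp.GD]
set_option linter.unusedSectionVars false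

open MeasureTheory Filter Topology Set Real YM7 Pur MvPolynomial Lg
open Ope (Let gp sc ctr)
open Ro (Iso act)
open Lb (Lab Pl Cl rho mx ip pc frL freeL Sep)
open RG.Q4.En.Ty (Gn Ty sb Det)
open scoped NNReal

/-- the move to the point `z` and the scale `d` -/
def sh (d : ℝ) (z : R4) : Pol →ₐ[ℂ] Pol := rename fun u y => u (d⁻¹ • (y - z))

/-- the letter of a polynomial -/
def Yl (A : Pol) : Let := fun d e f =>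
  ∑ᶠ x : Fin 4 → ℤ, ((((3 ^ e)⁻¹ / d) ^ 4 * f (gp e x) : ℝ) : ℂ) • sh d (gp e x) A

/-- normalised clusters of test functions -/
def Tw {m : ℕ} (Λ δ : ℝ) (u : Fin m → R4 → ℝ) : Prop := Adm u ∧ YM7.Tf u Λ δ ∧ Dia 2 u

/-- words with `m` letters -/
def Wo (m : ℕ) (Λ δ : ℝ) (A : Pol) : Prop :=
  ∃ (ι : Type) (s : Finset ι) (c : ι → ℝ) (u : ι → Fin m → R4 → ℝ), ∑ a ∈ s, |c a| ≤ 1 ∧
    (∀ a ∈ s, Tw Λ δ (u a)) ∧ A = ∑ a ∈ s, (c a : ℂ) • mon (u a)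

/-- the generators as isometries -/
def gi : Gn → Iso
  | .inl σ => Ro.prm σ
  | .inr μ => rfL μ

/-- polynomials of a signed symmetry type -/
def Typ (T : Ty) (A : Pol) : Prop := ∀ g ∈ T, act (gi g.1) A = (sb g.2 : ℂ) • A

/-- two words with coefficients -/
structure Sl where
  m : ℕ
  A : Pol
  A' : Pol
  c : ℝ
  c' : ℝ

/-- the letter of a slot -/
def Sl.Y (s : Sl) (d d' : ℝ) (e : ℕ) (f : R4 → ℝ) : Pol :=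
  (s.c : ℂ) • Yl s.A d e f + (s.c' : ℂ) • Yl s.A' d' e f

/-- normalised slots -/
def Sl.Ok (s : Sl) (M : ℕ) (Λ δ : ℝ) : Prop :=
  1 ≤ s.m ∧ s.m ≤ M ∧ Wo s.m Λ δ s.A ∧ Wo s.m Λ δ s.A' ∧ |s.c| + |s.c'| ≤ 1

/-- the leading label of a smeared cluster -/
def Bu {m : ℕ} (w : ℝ) (u : Fin m → R4 → ℝ) : Lab ℝ :=
  Matrix.of fun α β => ∫ x : Fin m → R4, (∏ i, u i (x i)) * Lb.B w x α β

/-- the constant of the short distance law -/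
def gm : ℝ := 48 / (11 * GD.b0)

/-- windows: `W D r` says that `r` is an admissible ratio of scales below the scale `D` -/
structure Wnd (W : ℝ → ℝ → Prop) : Prop where
  top : ∀ M, ∀ᶠ D in 𝓝[>] (0 : ℝ), ∀ r, W D r → M ≤ r
  le : ∀ᶠ D in 𝓝[>] (0 : ℝ), ∀ r, W D r → r ≤ D⁻¹
  ex : ∀ᶠ D in 𝓝[>] (0 : ℝ), ∃ r, W D r
  cov : ∀ ε > 0, ∀ᶠ d in 𝓝[>] (0 : ℝ), ∃ r > 0, r * d < ε ∧ W (r * d) r

/-- the two scale law for centred clusters -/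
def Tsc (S : Pol →ₗ[ℂ] ℂ) (W : ℝ → ℝ → Prop) : Prop :=
  ∀ (k : ℕ) (m : Fin k → ℕ) (Λ δ : ℝ), (∀ s, 1 ≤ m s) → ∀ η > 0, ∀ᶠ D in 𝓝[>] (0 : ℝ),
    ∀ r, W D r → ∀ d ∈ Icc (D / (4 * r)) (D / r), ∀ ζ : Fin k → R4, Sep δ Λ ζ →
      ∀ u : ∀ s, Fin (m s) → R4 → ℝ, (∀ s, Tw Λ δ (u s)) →
        ‖((log D⁻¹ ^ (∑ s, m s) * (D / d) ^ (4 * k) : ℝ) : ℂ) *
            S (∏ s, ctr S (sh d (D • ζ s) (mon (u s)))) -
          ((gm ^ (∑ s, m s) * frL (GD.d / 2) (fun s => Bu (GD.d / 2) (u s)) ζ : ℝ) : ℂ)‖ ≤ η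

/-- normalised test functions in the middle of the cell of side `w` -/
def Mid (w : ℝ) (f : R4 → ℝ) : Prop := ContDiff ℝ 1 f ∧ LipschitzWith 1 f ∧
  ∀ y, |f y| ≤ 1 ∧ (f y ≠ 0 → ∀ l, w / 3 ≤ y l ∧ y l ≤ 2 * w / 3)

/-- the product of the centred letters at the scale `D` -/
def Zp (S : Pol →ₗ[ℂ] ℂ) {k : ℕ} (s : Fin k → Sl) (d d' : ℝ) (e : ℕ) (D : ℝ)
    (f : Fin k → R4 → ℝ) : Pol := ∏ i, ctr S ((s i).Y d d' e (sc D (f i)))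

/-- the input from the renormalisation group; `K` are the slots without marginal part -/
structure Kin (S : Pol →ₗ[ℂ] ℂ) (M : ℕ) (Λ δ a : ℝ) (K : ℝ → ℝ → ℕ → Sl → Prop) : Prop where
  pos : 0 < a
  ex : ∀ T E, Det T E → E.length ≤ 1 → (∀ i, ∃ χ, (.inr i, χ) ∈ T) → ∀ m A A', 1 ≤ m → m ≤ M →
    Wo m Λ δ A → Wo m Λ δ A' → Typ T A → Typ T A' → ∀ d d' e, ∃ c c', |c| + |c'| = 1 ∧ K d d' e ⟨m, A, A', c, c'⟩
  cov : ∀ d d' e s σ, s.Ok M Λ δ → K d d' e s →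
    K d d' e ⟨s.m, act (Ro.prm σ) s.A, act (Ro.prm σ) s.A', s.c, s.c'⟩
  one : ∃ N : ℕ, ∀ᶠ e₀ : ℕ in atTop, ∀ d ∈ Ioc (0 : ℝ) (3 ^ (N * e₀))⁻¹, ∀ d' ∈ Icc (d / 2) d,
    ∀ᶠ e in atTop, ∀ s, s.Ok M Λ δ → K d d' e s → ∀ f, Mid (3 ^ e₀)⁻¹ f →
      net.QB S (ctr S (s.Y d d' e f)) (2 * (3 ^ e₀)⁻¹) (3 ^ (N * e₀) * d ^ a)
  clu : ∀ k : ℕ, ∃ W, Wnd W ∧ Tsc S W ∧ ∀ j ≤ k, ∀ f : Fin j → R4 → ℝ, Adm f → ∀ η > 0, ∃ R,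
    ∀ᶠ D in 𝓝[>] (0 : ℝ), ∀ r, W D r →
      ∀ d ∈ Ioc 0 (D / r), ∀ d' ∈ Icc (d / 2) d, ∀ᶠ e in atTop, ∀ s : Fin j → Sl,
        (∀ i, (s i).Ok M Λ δ) →
        ((∃ i, K d d' e (s i)) → net.QB S (((log D⁻¹ ^ (∑ i, (s i).m) : ℝ) : ℂ) •
          Zp S s d d' e D f) R (η * (r * d / D) ^ a)) ∧
        (D / (4 * r) ≤ d → net.QB S (((log D⁻¹ ^ (∑ i, (s i).m) : ℝ) : ℂ) •
          ctr S (Zp S s d d' e D f)) R η)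

/-- the explicit operator bound with a radius -/
def QR (S : Pol →ₗ[ℂ] ℂ) (K : ℝ) : Prop := ∃ (C : ℝ) (s : ℕ), 0 ≤ C ∧ ∀ (k : ℕ) (d R : ℝ), 0 < d →
  d ≤ 1 → d ≤ R → ∀ (f : Fin k → R4 → ℝ) (L : Fin k → ℝ≥0), Far d f L →
    (∀ i, tsupport (f i) ⊆ Bx R) → net.QB S (mon f) (K * R) ((C * ((k + 1) / d) ^ s) ^ k * ∏ i, L i)

/-- the soft properties of the limit functional -/
structure Sf (S : Pol →ₗ[ℂ] ℂ) (K : ℝ) : Prop where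
  inp : Inp S
  inv : ∀ g, Ro.Inv S g
  cen : ∀ f, Adm ![f] → S (X f) = 0
  one : 1 ≤ K
  qr : QR S K

/-- translates of a profile -/
def hy {m : ℕ} (h : R4 → ℝ) (y : Fin m → R4) (i : Fin m) (x : R4) : ℝ := h (x - y i)

/-- covariant weights -/
structure Dat (w : ℝ) (h : R4 → ℝ) (ω : ∀ l : Cl, (Fin l.m → R4) → Lab ℝ) (Λ δ : ℝ) : Prop where
  le : δ ≤ 1
  dif : ContDiff ℝ 1 h
  rad : ∀ (R : Iso) x, h (R x) = h x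
  sm : ∀ x ∈ tsupport h, ‖x‖ < δ / 4
  tw : ∀ l, ∀ y ∈ tsupport (ω l), Tw Λ δ (hy h y)
  cont : ∀ l, Continuous (ω l)
  cpt : ∀ l, HasCompactSupport (ω l)
  cov : ∀ l (R : Iso) y, ω l (fun i => R (y i)) = rho (mx R) (ω l y)
  cls : ∀ l y, pc l (ω l y) = ω l y
  one : ∀ l a α β, ∫ y, ip a (ω l y) * Bu w (hy h y) α β = pc l a α β

variable (h : R4 → ℝ) (ω : ∀ l : Cl, (Fin l.m → R4) → Lab ℝ)

/-- the covariant word with the label `c` as a sum over the grid of mesh `3 ^ -e` -/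
def Zc (l : Cl) (e : ℕ) (c : Lab ℂ) : Pol := ∑ᶠ y : Fin l.m → Fin 4 → ℤ,
  ((((3 ^ e)⁻¹ ^ (4 * l.m) : ℝ) : ℂ) * ip c ((ω l fun i => gp e (y i)).map (↑))) •
    mon (hy h fun i => gp e (y i))

/-- the centred composite -/
def Yc (S : Pol →ₗ[ℂ] ℂ) (l : Cl) (d : ℝ) (e : ℕ) (c : Lab ℂ) (f : R4 → ℝ) : Pol :=
  ctr S (Yl (Zc h ω l e c) d e f)

/-- the approximants -/
def Oa (S : Pol →ₗ[ℂ] ℂ) (lam : Cl → ℕ → ℝ) (j : ℕ × ℕ) (c : Lab ℂ) (f : R4 → ℝ) : Pol :=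
  ∑ l, (lam l j.1 : ℂ) • Yc h ω S l (2 ^ j.1)⁻¹ j.2 c f

/-- the rotations of the labels -/
def rE (R : Iso) (c : Lab ℂ) : Lab ℂ := rho ((mx R).map (↑)) c

/-- the free correlation function -/
def frI {k : ℕ} (a : Fin k → Lab ℂ) (f : Fin k → R4 → ℝ) : ℂ :=
  ∫ y : Fin k → R4, (∏ i, f i (y i) : ℝ) * freeL GD.d a y

end Pool.Agent.Lib.MP_7f377f_mp.Cm
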