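import Pool.Agent.Lib.MP_7f377f_mp.G.CmD

/-! Composite fields of dimension four: types and telescoping. -/

noncomputable section

namespace Pool.Agent.Lib.MP_7f377f_mp.Cm
variable [Pool.Agent.Lib.MP_7f377f_mp.GD]
set_option linter.unusedSectionVars false

open MeasureTheory Filter Topology Set Real YM7 Pur MvPolynomial Lg
open Ope (Let gp sc ctr)
open Ro (Iso act)
open Lb (Lab Pl Cl rho mx ip pc frL freeL Sep)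
open RG.Q4.En.Ty (Gn Ty sb Det)

/-- complexification -/
def cx (a : Lab ℝ) : Lab ℂ := a.map (↑)

/-- the span of the images under the permutations of the axes -/
def Vs (a : Lab ℝ) : Submodule ℝ (Lab ℝ) :=
  Submodule.span ℝ (range fun σ => rho (mx (Ro.prm σ)) a)

variable {Tp : Type} [Fintype Tp] (cl : Tp → Cl) (ref : Tp → Lab ℝ)

/-- a rotation which links two types -/
def Lnk (w : ℝ) (τ τ' : Tp) : Prop := ∃ (R : Iso) (υ : Tp) (a₁ a₂ a b : Lab ℝ) (ζ : R4),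
  a ∈ Vs (ref τ) ∧ a₁ ∈ Vs (ref τ) ∧ a₂ ∈ Vs (ref τ') ∧ b ∈ Vs (ref υ) ∧
    rho (mx R) b ∈ Vs (ref υ) ∧ rho (mx R) a = a₁ + a₂ ∧ cl υ = cl τ ∧ ζ ≠ 0 ∧
      frL w ![a₂, rho (mx R) b] ![0, ζ] ≠ 0

/-- the decomposition of the labels into signed symmetry types -/
structure Tys (w : ℝ) (T : Tp → Ty) (β : Cl → Tp) : Prop where
  det : ∀ τ, ∃ E, Det (T τ) E ∧ E.length ≤ 1 ∧ ∀ i, ∃ χ, (.inr i, χ) ∈ T τ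
  typ : ∀ τ, ∀ g ∈ T τ, rho (mx (gi g.1)) (ref τ) = (sb g.2 : ℝ) • ref τ
  cls : ∀ τ, pc (cl τ) (ref τ) = ref τ
  sum : ∀ l c, ∃ a : Tp → Lab ℝ, (∀ τ, a τ ∈ Vs (ref τ)) ∧ (∀ τ, cl τ ≠ l → a τ = 0) ∧
    pc l c = ∑ τ, a τ
  ne : ∀ τ, ∃ a ∈ Vs (ref τ), ∃ b ∈ Vs (ref τ), ∃ ζ ≠ (0 : R4), frL w ![a, b] ![0, ζ] ≠ 0
  on : ∀ l, cl (β l) = l
  sca : pc .s Lb.c0 ∈ Vs (ref (β .s))
  lnk : ∀ τ, τ = β (cl τ) ∨ Lnk cl ref w τ (β (cl τ)) ∧ Lnk cl ref w (β (cl τ)) τ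

/-- the scales -/
def dn (n : ℕ) : ℝ := (2 ^ n)⁻¹

/-- the filter of the meshes -/
def UU : Filter ℕ := hyperfilter ℕ

variable (h : R4 → ℝ) (ω : ∀ l : Cl, (Fin l.m → R4) → Lab ℝ) (S : Pol →ₗ[ℂ] ℂ)
  (lam : Tp → ℕ → ℝ)

/-- the normalised composite -/
def Yn (τ : Tp) (n e : ℕ) (c : Lab ℝ) (f : R4 → ℝ) : Pol :=
  (lam τ n : ℂ) • Yc h ω S (cl τ) (dn n) e (cx c) f

/-- products at the scale `D` -/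
def Pn {j : ℕ} (τ : Fin j → Tp) (c : Fin j → Lab ℝ) (f : Fin j → R4 → ℝ) (D : ℝ) (n e : ℕ) : Pol :=
  ∏ i, Yn cl h ω S lam (τ i) n e (c i) (sc D (f i))

/-- the power of the logarithm -/
def lg {j : ℕ} (τ : Fin j → Tp) (D : ℝ) : ℝ := log D⁻¹ ^ ∑ i, (cl (τ i)).m

/-- the differences of consecutive scales are small -/
structure Tel (K a : ℝ) : Prop where
  a0 : 0 < a
  pos : ∀ τ n, 0 < lam τ n
  rat : ∀ τ, Tendsto (fun n => lam τ (n + 1) / lam τ n) atTop (𝓝 1)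
  one : ∀ τ, ∀ c ∈ Vs (ref τ), ∃ (N : ℕ) (C : ℝ), ∀ᶠ e₀ : ℕ in atTop, ∀ n ≥ N * e₀, ∀ᶠ e in UU,
    ∀ f, Mid (3 ^ e₀)⁻¹ f → net.QB S (Yn cl h ω S lam τ (n + 1) e c f - Yn cl h ω S lam τ n e c f)
      (K * (3 ^ e₀)⁻¹) (C * 3 ^ (N * e₀) * (lam τ n * dn n ^ a))
  clu : ∀ k : ℕ, ∃ ρ : ℝ → ℝ, Tendsto ρ (𝓝[>] 0) atTop ∧ (∀ᶠ D in 𝓝[>] (0 : ℝ), ρ D ≤ D⁻¹) ∧
    Tsc S (fun D r => r = ρ D) ∧ ∀ j ≤ k, ∀ f : Fin j → R4 → ℝ, Adm f →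
      ∀ (τ : Fin j → Tp) (c : Fin j → Lab ℝ), (∀ i, c i ∈ Vs (ref (τ i))) → ∀ η > 0, ∀ᶠ D in 𝓝[>] (0 : ℝ), ∃ R, ∀ n, dn n ≤ D / ρ D →
        ∀ᶠ e in UU, net.QB S ((lg cl τ D : ℂ) • (Pn cl h ω S lam τ c f D (n + 1) e -
          Pn cl h ω S lam τ c f D n e)) R (η * (ρ D * dn n / D) ^ a * ∏ i, lam (τ i) n) ∧
        (D / (4 * ρ D) ≤ dn n → net.QB S ((lg cl τ D : ℂ) • ctr S (Pn cl h ω S lam τ c f D n e)) R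
          (η * ∏ i, lam (τ i) n))

/-- the short distance law for at most `k` normalised composites -/
structure Aft (k : ℕ) (n₀ : ℝ → ℕ) : Prop where
  top : Tendsto n₀ (𝓝[>] 0) atTop
  low : ∀ᶠ D in 𝓝[>] (0 : ℝ), D ^ 2 / 2 ≤ dn (n₀ D)
  law : ∀ j ≤ k, ∀ f : Fin j → R4 → ℝ, Adm f → ∀ (τ : Fin j → Tp) (c : Fin j → Lab ℝ),
    (∀ i, c i ∈ Vs (ref (τ i))) → ∀ η > 0, ∀ᶠ D in 𝓝[>] (0 : ℝ), ∃ R,
      (∀ n ≥ n₀ D, ∀ᶠ e in UU, net.QB S (((lg cl τ D / ∏ i, lam (τ i) (n₀ D) : ℝ) : ℂ) •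
        Pn cl h ω S lam τ c f D n e -
          C (((gm ^ ∑ i, (cl (τ i)).m : ℝ) : ℂ) * frI (fun i => cx (c i)) f)) R η) ∧
      ∀ ε > 0, ∀ᶠ n in atTop, ∀ n' ≥ n, ∀ᶠ e in UU,
        net.QB S (Pn cl h ω S lam τ c f D n' e - Pn cl h ω S lam τ c f D n e) R ε

/-- the normalisation of the classes -/
def lc (β : Cl → Tp) (l : Cl) (n : ℕ) : ℝ := if l = .s then 1 else lam (β l) n

/-- the result -/
structure Res (K : ℝ) (l : Filter (ℕ × ℕ)) (O : ℕ × ℕ → Lab ℂ → (R4 → ℝ) → Pol)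
    (N : Cl → ℝ → ℝ) : Prop where
  inl : Lm.Inl S K (fun μ c => rE (rfL μ) c.conjTranspose) rE l O
  phi : ∀ d ∈ Ioc (0 : ℝ) 1, ∀ g, Wm.C1 (Bx d) g → ∀ η > 0, ∀ᶠ j in l,
    net.QB S (O j Lb.c0 g - X g) (K * d) η
  pa : ∀ j c g, O j (Lb.pa c) g = O j c g
  sca : ∀ D, N .s D = log D⁻¹ / gm
  slow : ∀ t, ∀ b > (0 : ℝ), ∀ᶠ D in 𝓝[>] (0 : ℝ), D ^ b ≤ N t D ∧ N t D ≤ D ^ (-b)
  law : ∀ (k : ℕ) (t : Fin k → Cl) (a : Fin k → Lab ℂ) (f : Fin k → R4 → ℝ), Adm f →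
    (∀ i, pc (t i) (a i) = a i) → ∀ η > 0, ∀ᶠ D in 𝓝[>] (0 : ℝ), ∀ᶠ j in l,
      QE S (((∏ i, N (t i) D : ℝ) : ℂ) • ∏ i, O j (a i) (sc D (f i)) - C (frI a f)) η

end Pool.Agent.Lib.MP_7f377f_mp.Cm
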