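import Pool.Agent.Lib.MP_7f377f_mp.G.CmR
import Pool.Agent.Lib.MP_7f377f_mp.G.CmB

/-! Composite fields: the normalisation. -/

noncomputable section

namespace Pool.Agent.Lib.MP_7f377f_mp.Cm
variable [Pool.Agent.Lib.MP_7f377f_mp.GD]
set_option linter.unusedSectionVars false

open MeasureTheory Filter Topology Set Real YM7 Pur MvPolynomial Lg
open Ope (Let gp sc ctr)
open Ro (Iso act)
open Wm (C1)
open Lb (Lab Pl Cl rho mx ip pc frL freeL Sep)
open RG.Q4.En.Ty (Gn Ty sb Det)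
open scoped NNReal

theorem gm_pos : 0 < gm := by
  have := GD.b0_pos
  unfold gm
  positivity

theorem dn_zero : Tendsto dn atTop (𝓝[>] 0) :=
  tendsto_inv_atTop_nhdsGT_zero.comp (tendsto_pow_atTop_atTop_of_one_lt one_lt_two)

theorem tel_id {R : Type} [CommRing R] {j : ℕ} (x y : Fin j → R) : ∏ i, y i - ∏ i, x i =
    ∑ i, ∏ i', if i' = i then y i' - x i' else if i' < i then x i' else y i' := by
  induction j with
  | zero => simp
  | succ j ih =>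
    have := ih (fun i => x i.succ) fun i => y i.succ
    simp only [Fin.prod_univ_succ, Fin.sum_univ_succ, if_true, Fin.succ_ne_zero, if_false,
      Fin.not_lt_zero, (Fin.succ_ne_zero _).symm, Fin.succ_pos, Fin.succ_inj, Fin.succ_lt_succ_iff,
      ← Finset.mul_sum, ← this]
    ring

theorem qlem {g : ℕ → Bool → ℝ} (h1 : ∀ n, |g n false| + |g n true| = 1)
    (h2 : Tendsto (fun n => g n false + g n true) atTop (𝓝 0)) : ∃ x : ℕ → ℝ, (∀ n, 0 < x n) ∧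
      Tendsto (fun n => x (n + 1) / x n) atTop (𝓝 1) ∧ ∀ᶠ n in atTop, ∃ t, |t| ≤ 4 ∧
        x (n + 1) = t * x n * g n true ∧ -x n = t * x n * g n false ∧ x (n + 1) ≤ 4 * x n := by
  have a1 : ∀ᶠ n in atTop, 4⁻¹ ≤ |g n false| := by
    filter_upwards [h2.abs.eventually_le_const (show |(0 : ℝ)| < 2⁻¹ by norm_num)] with n e
    have := abs_sub (g n false + g n true) (g n false)
    rw [add_sub_cancel_left] at this
    linarith [h1 n]
  have a2 : Tendsto (fun n => -g n true / g n false) atTop (𝓝 1) := by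
    rw [tendsto_iff_norm_sub_tendsto_zero]
    refine squeeze_zero' (.of_forall fun _ => norm_nonneg _) ?_ (by simpa using h2.abs.const_mul 4)
    filter_upwards [a1] with n e
    have : 0 < |g n false| := by linarith
    rw [div_sub_one (abs_pos.1 this), norm_div, norm_eq_abs, norm_eq_abs, div_le_iff₀ this,
      ← neg_add', abs_neg, add_comm]
    nlinarith [abs_nonneg (g n false + g n true)]
  let q : ℕ → ℝ := fun n => if 0 < -g n true / g n false then -g n true / g n false else 1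
  have q0 : ∀ n, 0 < q n := fun n => by
    unfold q
    split_ifs with u
    exacts [u, one_pos]
  have q1 : ∀ᶠ n in atTop, -g n true / g n false = q n := by
    filter_upwards [a2.eventually_const_lt one_pos] with n e
    exact (if_pos e).symm
  have p : ∀ n, 0 < ∏ i ∈ Finset.range n, q i := fun n => Finset.prod_pos fun i _ => q0 i
  refine ⟨_, p, ?_, ?_⟩
  · simpa only [Finset.prod_range_succ, mul_div_cancel_left₀ _ (p _).ne'] using a2.congr' q1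
  · filter_upwards [a1, q1, a2.eventually_le_const (show (1 : ℝ) < 4 by norm_num)] with n e1 e2 e3
    have : 0 < |g n false| := by linarith
    have z := abs_pos.1 this
    rw [Finset.prod_range_succ, ← e2]
    refine ⟨-(g n false)⁻¹, ?_, by field_simp, by field_simp, by nlinarith [p n]⟩
    rw [abs_neg, abs_inv, inv_le_comm₀ this four_pos]
    exact e1

theorem lim_qb {S : Pol →ₗ[ℂ] ℂ} (hS : net.St S) {I : Type} [Fintype I] {x : ℕ → I → ℝ} {y : I → ℝ}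
    (hx : ∀ b, Tendsto (x · b) UU (𝓝 (y b))) (c : ℝ) {ε : ℝ} (ε0 : 0 < ε) :
    ∀ᶠ e in UU, ∀ R ≥ 0, ∀ P : I → Pol, (∀ b, net.QB S (P b) R c) →
      net.QB S (∑ b, (y b : ℂ) • P b - ∑ b, (x e b : ℂ) • P b) R ε := by
  have t : Tendsto (fun e => ∑ b, ‖((y b - x e b : ℝ) : ℂ)‖ * c) UU (𝓝 0) := by
    simpa only [sub_self, norm_zero, zero_mul, Finset.sum_const_zero, Complex.norm_real] using
      tendsto_finset_sum Finset.univ fun b _ => ((hx b).const_sub (y b)).norm.mul_const c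
  filter_upwards [t.eventually_le_const ε0] with e u R R0 P hP
  convert (Net.QB.sum hS _ R0 fun b _ => (hP b).smul ((y b - x e b : ℝ) : ℂ)).mono
    hS le_rfl u using 1
  simp [sub_smul]

theorem Mid.c1 {w : ℝ} (w0 : 0 < w) {f : R4 → ℝ} (hf : Mid w f) : C1 (Bx w) f := by
  have e : tsupport f ⊆ {y | ∀ l, |y l| ≤ 2 * w / 3} := closure_minimal (fun y hy l => by
      have := (hf.2.2 y).2 hy l
      rw [abs_le]
      constructor <;> linarith)
    (by rw [setOf_forall]; exact isClosed_iInter fun l => isClosed_le (by fun_prop) continuous_const)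
  refine ⟨(isCompact_closedBall (0 : R4) (2 * w)).of_isClosed_subset (isClosed_tsupport f)
    fun y hy => ?_, hf.1, fun y hy l => (e hy l).trans_lt (by linarith)⟩
  have : ∀ l, y l ^ 2 ≤ w ^ 2 := fun l => sq_le_sq' (by linarith [abs_le.1 (e hy l)])
    (by linarith [abs_le.1 (e hy l)])
  rw [mem_closedBall_zero_iff, EuclideanSpace.norm_eq, sqrt_le_iff, Fin.sum_univ_four]
  simp only [norm_eq_abs, sq_abs]
  exact ⟨by positivity, by linarith [this 0, this 1, this 2, this 3]⟩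

variable {Tp : Type} [Fintype Tp] (cl : Tp → Cl) (ref : Tp → Lab ℝ) (h : R4 → ℝ)
  (ω : ∀ l : Cl, (Fin l.m → R4) → Lab ℝ) (S : Pol →ₗ[ℂ] ℂ) (Λ δ a : ℝ)
  (Kl : ℝ → ℝ → ℕ → Sl → Prop)

/-- combinations of two consecutive scales -/
def Yw (l : Cl) (n e : ℕ) (v : Bool → ℝ) (c : Lab ℝ) (f : R4 → ℝ) : Pol :=
  ∑ b, (v b : ℂ) • Yc h ω S l (dn (n + b.toNat)) e (cx c) f

/-- the slots of the types -/
structure Sq (A : Tp → Equiv.Perm (Fin 4) → ℕ → Pol) (γ : Tp → ℕ → ℕ → Bool → ℝ)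
    (g : Tp → ℕ → Bool → ℝ) : Prop where
  wo : ∀ τ σ e, Wo (cl τ).m Λ δ (A τ σ e)
  kil : ∀ τ σ n e, Kl (dn n) (dn (n + 1)) e
    ⟨(cl τ).m, A τ σ e, A τ σ e, γ τ n e false, γ τ n e true⟩
  nrm : ∀ τ n e, |γ τ n e false| + |γ τ n e true| = 1
  lim : ∀ τ n b, Tendsto (γ τ n · b) UU (𝓝 (g τ n b))
  df : ∀ τ, ∃ x : ℂ, ∀ σ e, A τ σ e = act (Ro.prm σ) (x • Zc h ω (cl τ) e (cx (ref τ)))
  exp : ∀ τ, ∀ c ∈ Vs (ref τ), ∃ t : Equiv.Perm (Fin 4) → ℝ, ∀ n e v f, HasCompactSupport f →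
    Yw h ω S (cl τ) n e v c f = ∑ σ, (t σ : ℂ) • ctr S
      ((Sl.mk (cl τ).m (A τ σ e) (A τ σ e) (v false) (v true)).Y (dn n) (dn (n + 1)) e f)

/-- the cluster bounds -/
def Clu (W : ℝ → ℝ → Prop) {j : ℕ} (f : Fin j → R4 → ℝ) : Prop := ∀ η > 0, ∃ R,
  ∀ᶠ D in 𝓝[>] (0 : ℝ), ∀ r, W D r →
    ∀ d ∈ Ioc 0 (D / r), ∀ d' ∈ Icc (d / 2) d, ∀ᶠ e in atTop, ∀ s : Fin j → Sl,
      (∀ i, (s i).Ok 5 Λ δ) →
      ((∃ i, Kl d d' e (s i)) → net.QB S (((log D⁻¹ ^ (∑ i, (s i).m) : ℝ) : ℂ) •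
        Zp S s d d' e D f) R (η * (r * d / D) ^ a)) ∧
      (D / (4 * r) ≤ d → net.QB S (((log D⁻¹ ^ (∑ i, (s i).m) : ℝ) : ℂ) •
        ctr S (Zp S s d d' e D f)) R η)

/-- the normalisation follows the slots -/
structure Lq (g : Tp → ℕ → Bool → ℝ) (x : Tp → ℕ → ℝ) (t : ℕ → Tp → ℝ) (n₁ : ℕ) : Prop where
  pos : ∀ τ n, 0 < x τ n
  rat : ∀ τ, Tendsto (fun n => x τ (n + 1) / x τ n) atTop (𝓝 1)
  dif : ∀ τ, ∀ n ≥ n₁, ∀ e c f, Yn cl h ω S x τ (n + 1) e c f - Yn cl h ω S x τ n e c f =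
    ((t n τ * x τ n : ℝ) : ℂ) • Yw h ω S (cl τ) n e (g τ n) c f
  le : ∀ τ, ∀ n ≥ n₁, |t n τ * x τ n| ≤ 4 * x τ n
  le' : ∀ n ≥ n₁, ∀ τ, x τ (n + 1) ≤ 4 * x τ n

variable {cl ref h ω S Λ δ a Kl} {K : ℝ} {T : Tp → Ty} {β : Cl → Tp}
  {A : Tp → Equiv.Perm (Fin 4) → ℕ → Pol} {γ : Tp → ℕ → ℕ → Bool → ℝ} {g : Tp → ℕ → Bool → ℝ}

theorem ok_of {l : Cl} {A : Pol} (hA : Wo l.m Λ δ A) {c c' : ℝ} (e : |c| + |c'| ≤ 1) :
    (Sl.mk l.m A A c c').Ok 5 Λ δ :=
  ⟨by cases l <;> simp [Cl.m], by cases l <;> simp [Cl.m], hA, hA, e⟩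

theorem dn_mem (n : ℕ) : dn (n + 1) ∈ Icc (dn n / 2) (dn n) :=
  ⟨(dn_succ n).ge, dn_anti n.le_succ⟩

theorem ctr_sum {I : Type} [Fintype I] (t : I → ℂ) (P : I → Pol) :
    ctr S (∑ i, t i • P i) = ∑ i, t i • ctr S (P i) := by
  simp only [ctr, map_sum, map_smul, smul_sub, Finset.sum_sub_distrib, smul_eq_mul, C_mul, C_mul']

theorem Sq.nrm' (Q : Sq cl ref h ω S Λ δ Kl A γ g) (τ : Tp) (n : ℕ) :
    |g τ n false| + |g τ n true| = 1 :=
  tendsto_nhds_unique ((Q.lim τ n false).abs.add (Q.lim τ n true).abs)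
    (by simpa only [Q.nrm] using tendsto_const_nhds)

variable (hS : Sf S K) (H : Dat (GD.d / 2) h ω Λ δ) (Y : Tys cl ref (GD.d / 2) T β)

include H Y in
theorem Zc_typ (τ : Tp) (e : ℕ) (x : ℂ) : Typ (T τ) (x • Zc h ω (cl τ) e (cx (ref τ))) :=
  fun q hq => by
    have := Zc_lin H (l := cl τ) (e := e)
    have z : Zc h ω (cl τ) e 0 = 0 := by simpa using this (-1) 0 0
    rw [map_smul, Zc_act H, rE_cx, Y.typ τ q hq, cx_smul, smul_comm]
    congr 1
    simpa [z] using this ((sb q.2 : ℝ) : ℂ) (cx (ref τ)) 0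

include H Y in
theorem slots (I : Kin S 5 Λ δ a Kl) : ∃ A γ g, Sq cl ref h ω S Λ δ Kl A γ g := by
  choose C C0 hC using fun τ => Zc_wo H (cl τ) (ref τ)
  have ty := fun τ e => Zc_typ H Y τ e (((C τ)⁻¹ : ℝ) : ℂ)
  choose E hE E1 E2 using Y.det
  choose c c' n1 k using fun τ n e => I.ex _ _ (hE τ) (E1 τ) (E2 τ) _ _ _ (ok_of (hC τ e) (c := 0)
    (c' := 0) (by simp)).1 (ok_of (hC τ e) (c := 0) (c' := 0) (by simp)).2.1 (hC τ e) (hC τ e) (ty τ e) (ty τ e)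
    (dn n) (dn (n + 1)) e
  have bd : ∀ τ n (b : Bool), ∃ y, Tendsto (fun e => cond b (c' τ n e) (c τ n e)) UU (𝓝 y) :=
    fun τ n b => by
      obtain ⟨y, -, hy⟩ := (isCompact_Icc (a := (-1 : ℝ)) (b := 1)).ultrafilter_le_nhds
        ((hyperfilter ℕ).map fun e => cond b (c' τ n e) (c τ n e)) (le_principal_iff.2
          (mem_map.2 (univ_mem' fun e => abs_le.1 (by
            cases b <;> simp only [cond] <;>
              linarith [n1 τ n e, abs_nonneg (c τ n e), abs_nonneg (c' τ n e)]))))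
      exact ⟨y, hy⟩
  choose g hg using bd
  refine ⟨fun τ σ e => act (Ro.prm σ) _, fun τ n e b => cond b (c' τ n e) (c τ n e), g,
    fun τ σ e => (hC τ e).act (.inl σ), fun τ σ n e => I.cov _ _ _ _ σ (ok_of (hC τ e) (n1 τ n e).le)
      (k τ n e), n1, hg, fun τ => ⟨_, fun _ _ => rfl⟩, fun τ x hx => ?_⟩
  obtain ⟨t, rfl⟩ := Vs_eq hx
  refine ⟨fun σ => t σ * C τ, fun n e v f hf => ?_⟩
  have L : ∀ d, ∃ L : Lab ℝ →ₗ[ℝ] Pol, ∀ x, L x = Yc h ω S (cl τ) d e (cx x) f := fun d => by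
    have := Yc_linc H hf (S := S) (l := cl τ) (d := d) (e := e)
    have z : Yc h ω S (cl τ) d e 0 f = 0 := by simpa using this (-1) 0 0
    exact ⟨IsLinearMap.mk' (fun x => Yc h ω S (cl τ) d e (cx x) f) ⟨fun x y => by simpa [cx_add] using this 1 (cx x) (cx y), fun s x => by
      simpa [cx_smul, z] using this s (cx x) 0⟩, fun _ => rfl⟩
  choose L hL using L
  have e1 : ∀ σ d, ctr S (Yl (act (Ro.prm σ) ((((C τ)⁻¹ : ℝ) : ℂ) • Zc h ω (cl τ) e (cx (ref τ)))) d e f) =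
      (C τ)⁻¹ • L d (rho (mx (Ro.prm σ)) (ref τ)) := fun σ d => by
    rw [map_smul, Yl_smul hf, ctr_smul, hL, ← rE_cx, Complex.coe_smul]
    exact congrArg (fun Z => _ • ctr S (Yl Z d e f)) (Zc_act H (.inl σ) _)
  simp only [Yw, Sl.Y, ctr_add, ctr_smul, e1]
  simp only [← hL, map_sum, map_smul, Fintype.sum_bool, Complex.coe_smul, Finset.smul_sum, smul_add, smul_smul, ← Finset.sum_add_distrib]
  refine Finset.sum_congr rfl fun σ _ => ?_
  have := (C0 τ).ne'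
  rw [add_comm]
  congr 2 <;> field_simp

include hS H in
theorem Sq.clu (Q : Sq cl ref h ω S Λ δ Kl A γ g) {W : ℝ → ℝ → Prop} (hW : Wnd W) {j : ℕ}
    {f : Fin j → R4 → ℝ} (hf : Adm f) (hc : Clu S Λ δ a Kl W f) (τ : Fin j → Tp) {c : Fin j → Lab ℝ}
    (hτ : ∀ i, c i ∈ Vs (ref (τ i))) {η : ℝ} (η0 : 0 < η) : ∃ R, ∀ᶠ D in 𝓝[>] (0 : ℝ), ∀ r, W D r →
      ∀ n, dn n ≤ D / r → ∀ v : Fin j → Bool → ℝ, (∀ i, |v i false| + |v i true| ≤ 1) →
        ∀ᶠ e in UU, ((∃ i, v i = g (τ i) n) → net.QB S ((lg cl τ D : ℂ) •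
          ∏ i, Yw h ω S (cl (τ i)) n e (v i) (c i) (sc D (f i))) R (η * (r * dn n / D) ^ a)) ∧
        (D / (4 * r) ≤ dn n → net.QB S ((lg cl τ D : ℂ) •
          ctr S (∏ i, Yw h ω S (cl (τ i)) n e (v i) (c i) (sc D (f i)))) R η) := by
  classical
  have st := hS.inp.st
  choose t ht using fun i => Q.exp (τ i) (c i) (hτ i)
  obtain ⟨B, hB⟩ : ∃ B, B = ∑ σ : Fin j → Equiv.Perm (Fin 4), ‖∏ i, (t i (σ i) : ℂ)‖ := ⟨_, rfl⟩
  have B0 : 0 ≤ B := hB ▸ Finset.sum_nonneg fun _ _ => norm_nonneg _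
  have η1 : 0 < η / (B + 1) := by positivity
  obtain ⟨R₁, h1⟩ := hc _ η1
  obtain ⟨R₂, ε, ε0, h2⟩ := crude_prod hS H (fun i => cl (τ i)) (fun i => cx (c i)) hf
  refine ⟨|R₁| + |R₂|, ?_⟩
  have r1 : R₁ ≤ |R₁| + |R₂| := by linarith [le_abs_self R₁, abs_nonneg R₂]
  have r2 : R₂ ≤ |R₁| + |R₂| := by linarith [le_abs_self R₂, abs_nonneg R₁]
  filter_upwards [h1, hW.top ε⁻¹, Ioc_mem_nhdsGT one_pos] with D e1 e2 D0 r hr n hn v hv
  have r0 : 0 < r := (inv_pos.2 ε0).trans_le (e2 r hr)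
  have E : ∀ e (v : Fin j → Bool → ℝ), ∏ i, Yw h ω S (cl (τ i)) n e (v i) (c i) (sc D (f i)) =
      ∑ σ : Fin j → Equiv.Perm (Fin 4), (∏ i, (t i (σ i) : ℂ)) • Zp S (fun i => ⟨(cl (τ i)).m,
        A (τ i) (σ i) e, A (τ i) (σ i) e, v i false, v i true⟩) (dn n) (dn (n + 1)) e D f :=
    fun e v => by
      simp only [fun i => ht i n e (v i) (sc D (f i)) ((hf.1 i).1.comp_homeomorph
        (Homeomorph.smulOfNeZero D⁻¹ (inv_pos.2 D0.1).ne')), Fintype.prod_sum, Finset.prod_smul, Zp]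
  have F : ∀ {P : (Fin j → Equiv.Perm (Fin 4)) → Pol} {x : ℝ}, (∀ σ, net.QB S ((lg cl τ D : ℂ) • P σ) R₁ x) →
      net.QB S ((lg cl τ D : ℂ) • ∑ σ, (∏ i, (t i (σ i) : ℂ)) • P σ) (|R₁| + |R₂|) (B * x) :=
    fun {P x} u => by
      simpa only [hB, Finset.smul_sum, Finset.sum_mul, smul_comm (lg cl τ D : ℂ)] using
        Net.QB.sum st _ (by positivity) fun σ _ => ((u σ).mono st r1 le_rfl).smul _
  have e3 := UU_le (e1 r hr (dn n) ⟨dn_pos n, hn⟩ _ (dn_mem n))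
  refine Eventually.and ?_ ?_
  · refine (em _).elim (fun ⟨i, u⟩ => ?_) fun u => .of_forall fun _ e => (u e).elim
    obtain ⟨C, h3⟩ := h2 D D0 (dn n) ⟨dn_pos n, hn.trans (by
      rw [div_le_iff₀ r0, mul_right_comm]
      exact le_mul_of_one_le_left D0.1.le ((inv_le_iff_one_le_mul₀' ε0).1 (e2 r hr)))⟩
    have x0 : 0 < η / (B + 1) * (r * dn n / D) ^ a := by
      have := dn_pos n
      have := D0.1
      positivity
    let w : ℕ → Fin j → Bool → ℝ := fun e => Function.update v i (γ (τ i) n e)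
    have lw : ∀ b : Fin j → Bool, Tendsto (fun e => ∏ i, w e i (b i)) UU (𝓝 (∏ i, v i (b i))) :=
      fun b => tendsto_finset_prod _ fun i' _ => by
        rcases eq_or_ne i' i with rfl | ne
        · simpa [w, u] using Q.lim _ n _
        · simp [w, ne]
    filter_upwards [e3, lim_qb st lw (‖(lg cl τ D : ℂ)‖ * C) x0] with e e4 e5 _
    have e6 := e5 _ (by positivity) _ fun b => ((h3 (fun i => dn (n + (b i).toNat)) (fun i => by
      cases b i
      exacts [⟨half_le_self (dn_pos n).le, le_rfl⟩, dn_mem n]) e).mono st r2 le_rfl).smul _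
    have e7 := F fun σ => (e4 (fun i => ⟨(cl (τ i)).m, A (τ i) (σ i) e, A (τ i) (σ i) e, w e i false,
      w e i true⟩) fun i' => ok_of (Q.wo _ _ _) (by
        rcases eq_or_ne i' i with rfl | ne
        · simpa [w] using (Q.nrm _ n e).le
        · simpa [w, ne] using hv i')).1 ⟨i, by simpa [w] using Q.kil _ _ n e⟩
    rw [← E] at e7
    convert e6.add st e7 using 1
    · simp only [Yw, Fintype.prod_sum, Finset.prod_smul, Finset.smul_sum, Complex.ofReal_prod,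
        smul_comm (lg cl τ D : ℂ), sub_add_cancel]
    · field_simp
      ring
  · filter_upwards [e3] with e e4 u
    rw [E, ctr_sum]
    refine (F fun σ => (e4 _ fun i => ok_of (Q.wo _ _ _) (hv i)).2 u).mono st le_rfl ?_
    rw [mul_div_assoc', div_le_iff₀ (by positivity)]
    linarith

include hS H in
theorem Sq.one (Q : Sq cl ref h ω S Λ δ Kl A γ g) (I : Kin S 5 Λ δ a Kl) (τ : Tp) {c : Lab ℝ}
    (hc : c ∈ Vs (ref τ)) : ∃ (N : ℕ) (C : ℝ), 1 ≤ N ∧ ∀ᶠ e₀ : ℕ in atTop, ∀ n ≥ N * e₀, ∀ᶠ e in UU,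
      ∀ f, Mid (3 ^ e₀)⁻¹ f → net.QB S (Yw h ω S (cl τ) n e (g τ n) c f) (2 * K * (3 ^ e₀)⁻¹)
        (C * 3 ^ (N * e₀) * dn n ^ a) := by
  have st := hS.inp.st
  obtain ⟨t, ht⟩ := Q.exp τ c hc
  obtain ⟨N, h1⟩ := I.one
  obtain ⟨C, s, -, h2⟩ := crude hS H (cl τ) (cx c)
  have t1 := (tendsto_pow_atTop_nhds_zero_of_lt_one (show (0 : ℝ) ≤ 3 / 4 by norm_num)
    (by norm_num)).const_mul |Λ + 1|
  rw [mul_zero] at t1
  refine ⟨2 * (N + 1), ∑ σ, ‖(t σ : ℂ)‖ + 1, by omega, ?_⟩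
  filter_upwards [h1, t1.eventually_le_const one_pos] with e₀ e1 e2 n hn
  have w0 : (0 : ℝ) < (3 ^ e₀)⁻¹ := by positivity
  have d1 : ∀ k, 2 * k ≤ n → dn n ≤ (4 ^ k)⁻¹ := fun k hk =>
    (dn_anti hk).trans_eq (by rw [dn, pow_mul]; norm_num)
  have d2 : ∀ b : Bool, (Λ + 1) * dn (n + b.toNat) ≤ (3 ^ e₀)⁻¹ := fun b => by
    calc _ ≤ |Λ + 1| * (4 ^ e₀)⁻¹ := mul_le_mul (le_abs_self _)
          ((dn_anti (n.le_add_right _)).trans (d1 _ (by nlinarith))) (dn_pos _).le (abs_nonneg _)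
      _ = |Λ + 1| * (3 / 4) ^ e₀ * (3 ^ e₀)⁻¹ := by rw [div_pow]; field_simp
      _ ≤ _ := mul_le_of_le_one_left w0.le e2
  have x0 := rpow_pos_of_pos (dn_pos n) a
  have e3 := e1 (dn n) ⟨dn_pos n, (d1 (N * e₀) (by nlinarith)).trans
    (inv_anti₀ (by positivity) (by gcongr; norm_num))⟩ _ (dn_mem n)
  filter_upwards [UU_le e3, lim_qb st (Q.lim τ n) (|C| / dn (n + 1) ^ s) x0] with e e4 e5 f hf
  have c1 := hf.c1 w0
  have K1 := hS.one
  have e6 := e5 _ (by positivity) _ fun b => (h2 _ _ (dn_pos _) (d2 b)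
    (inv_le_one_of_one_le₀ (one_le_pow₀ (by norm_num))) e f 1 c1 hf.2.1).mono st le_rfl (by
      have := dn_pos (n + 1)
      rw [NNReal.coe_one, mul_one]
      gcongr
      exacts [le_abs_self C, dn_anti (by cases b <;> simp)])
  have e7 := Net.QB.sum st Finset.univ (by positivity) fun σ _ => ((e4 _ (ok_of (Q.wo τ σ e)
    (Q.nrm τ n e).le) (Q.kil τ σ n e) f hf).mono st (show _ ≤ 2 * K * (3 ^ e₀)⁻¹ by nlinarith)
      le_rfl).smul (t σ : ℂ)
  rw [← ht _ _ _ _ c1.1] at e7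
  have := e6.add st e7
  rw [Yw, sub_add_cancel] at this
  refine this.mono st le_rfl ?_
  have u : (3 : ℝ) ^ (N * e₀) ≤ 3 ^ (2 * (N + 1) * e₀) := pow_le_pow_right₀ (by norm_num) (by nlinarith)
  rw [← Finset.sum_mul, add_mul, add_mul, add_comm, mul_assoc, one_mul]
  gcongr
  exact le_mul_of_one_le_left x0.le (one_le_pow₀ (by norm_num))

include hS H Y

theorem Sq.zero (Q : Sq cl ref h ω S Λ δ Kl A γ g) (I : Kin S 5 Λ δ a Kl) (τ : Tp) :
    Tendsto (fun n => g τ n false + g τ n true) atTop (𝓝 0) := by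
  obtain ⟨x, hx, y, hy, ζ, ζ0, ne⟩ := Y.ne τ
  obtain ⟨f, hf, ne⟩ := frI_ne ζ0 ne
  obtain ⟨W, hW, ts, hc⟩ := I.clu 2
  have hv : ∀ i, ![x, y] i ∈ Vs (ref τ) := by simp [Fin.forall_fin_two, hx, hy]
  obtain ⟨G, hG⟩ : ∃ G, G = ((gm ^ ∑ _i : Fin 2, (cl τ).m : ℝ) : ℂ) * frI (fun i => cx (![x, y] i)) f :=
    ⟨_, rfl⟩
  have G0 : 0 < ‖G‖ := norm_pos_iff.2 (hG ▸ mul_ne_zero (by exact_mod_cast (pow_pos gm_pos _).ne') ne)
  refine Metric.tendsto_nhds.2 fun ε ε0 => ?_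
  have η0 : 0 < ε * ‖G‖ / 3 := by positivity
  obtain ⟨R, h1⟩ := Q.clu hS H hW hf (hc 2 le_rfl f hf) (fun _ => τ) hv η0
  obtain ⟨u, u0, hu⟩ := mem_nhdsGT_iff_exists_Ioo_subset.1
    (h1.and (ts_sm H ts hW.top (fun _ => cl τ) ![x, y] hf η0))
  filter_upwards [dn_zero.eventually (hW.cov u u0)] with n ⟨r, r0, r1, r2⟩
  have d0 := dn_pos n
  obtain ⟨e1, e2⟩ := hu ⟨by positivity, r1⟩
  have q1 : r * dn n / r = dn n := by field_simp
  have q2 : r * dn n / (4 * r) = dn n / 4 := by field_simp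
  have e3 := eventually_all.2 fun b : Bool => e2 r r2 ![dn (n + b.toNat), dn n] (by
    rw [q1, q2, Fin.forall_fin_two]
    have : dn (n + b.toNat) ∈ Icc (dn n / 2) (dn n) := by
      cases b
      exacts [⟨half_le_self d0.le, le_rfl⟩, dn_mem n]
    exact ⟨⟨(show dn n / 4 ≤ dn n / 2 by linarith).trans this.1, this.2⟩,
      show dn n / 4 ≤ dn n by linarith, le_rfl⟩)
  obtain ⟨e, e4, e5⟩ := ((e1 r r2 n q1.ge ![g τ n, (cond · 0 1)] (by
    simp [Fin.forall_fin_two, (Q.nrm' τ n).le])).and (UU_le e3)).exists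
  have e6 := hS.inp.st.bound (e4.1 ⟨0, rfl⟩)
  simp only [fun i => Vs_pc (Y.cls τ) (hv i), ← hG] at e5
  rw [div_self (by positivity), one_rpow, mul_one] at e6
  obtain ⟨Z, hZ⟩ : ∃ Z : Bool → ℂ, ∀ b, Z b = ((log (r * dn n)⁻¹ ^ ∑ _i : Fin 2, (cl τ).m : ℝ) : ℂ) *
      S (∏ i, Yc h ω S (cl τ) (![dn (n + b.toNat), dn n] i) e (cx (![x, y] i))
        (sc (r * dn n) (f i))) := ⟨_, fun _ => rfl⟩
  simp only [← hZ] at e5
  replace e6 : ‖g τ n true * Z true + g τ n false * Z false‖ ≤ ε * ‖G‖ / 3 := by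
    convert e6 using 2
    simp [hZ, Yw, lg, add_mul, mul_add, mul_left_comm]
  have e7 := (norm_sub_le _ _).trans (add_le_add e6 ((norm_add_le _ _).trans (add_le_add
    (norm_mul_le_of_le (le_refl ‖(g τ n true : ℂ)‖) (e5 true))
    (norm_mul_le_of_le (le_refl ‖(g τ n false : ℂ)‖) (e5 false)))))
  rw [show _ - _ = ((g τ n false + g τ n true : ℝ) : ℂ) * G by push_cast; ring, norm_mul, ← add_mul,
    Complex.norm_real, Complex.norm_real, Complex.norm_real, norm_eq_abs (g _ _ _),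
    norm_eq_abs (g _ _ _), add_comm |_|, Q.nrm'] at e7
  rw [dist_zero_right]
  exact lt_of_mul_lt_mul_right (by linarith) G0.le

theorem Sq.lq (Q : Sq cl ref h ω S Λ δ Kl A γ g) (I : Kin S 5 Λ δ a Kl) :
    ∃ x t n₁, Lq cl h ω S g x t n₁ := by
  choose x p r q using fun τ => qlem (Q.nrm' τ) (Q.zero hS H Y I τ)
  obtain ⟨n₁, q⟩ := eventually_atTop.1 (eventually_all.2 q)
  choose! t t1 t2 t3 t4 using q
  refine ⟨x, t, n₁, p, r, fun τ n hn e c f => ?_, fun τ n hn => ?_, t4⟩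
  · simp only [Yw, Fintype.sum_bool, smul_add, smul_smul, ← Complex.ofReal_mul, ← t2 n hn, ← t3 n hn]
    simp [Yn, sub_eq_add_neg]
  · rw [abs_mul, abs_of_pos (p τ n)]
    exact mul_le_mul_of_nonneg_right (t1 n hn τ) (p τ n).le

variable {x : Tp → ℕ → ℝ} {t : ℕ → Tp → ℝ} {n₁ : ℕ}

omit Y in
theorem Sq.tc (Q : Sq cl ref h ω S Λ δ Kl A γ g) (L : Lq cl h ω S g x t n₁) {W : ℝ → ℝ → Prop}
    (hW : Wnd W) (ts : Tsc S W) {k : ℕ}
    (hc : ∀ j ≤ k, ∀ f : Fin j → R4 → ℝ, Adm f → Clu S Λ δ a Kl W f) {ρ : ℝ → ℝ}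
    (w : ∀ᶠ D in 𝓝[>] (0 : ℝ), W D (ρ D)) : Tc S a h ω cl ref x k ρ := by
  classical
  have st := hS.inp.st
  obtain ⟨p, -, y2, t5, t4⟩ := L
  have y0 : ∀ τ n e c f, Yn cl h ω S x τ n e c f =
      (x τ n : ℂ) • Yw h ω S (cl τ) n e (cond · 0 1) c f := by simp [Yn, Yw]
  have y1 : ∀ τ n e c f, Yn cl h ω S x τ (n + 1) e c f =
      (x τ (n + 1) : ℂ) • Yw h ω S (cl τ) n e (cond · 1 0) c f := by simp [Yn, Yw]
  refine ⟨tendsto_atTop.2 fun M => ?_, ?_, fun k m Λ δ hm η η0 => ?_, fun j hj f hf τ c hτ η η0 => ?_⟩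
  · filter_upwards [hW.top M, w] with D e u using e _ u
  · filter_upwards [hW.le, w] with D e u using e _ u
  · filter_upwards [ts k m Λ δ hm η η0, w] with D e u r hr using e r (hr ▸ u)
  have η1 : 0 < η / ((j + 1) * 4 ^ j) := by positivity
  obtain ⟨R, h1⟩ := Q.clu hS H hW hf (hc j hj f hf) τ hτ η1
  filter_upwards [h1, w, hW.top 1, Ioc_mem_nhdsGT (half_pos (dn_pos n₁))] with D e1 u e2 D0
  refine ⟨|R|, fun n hn => ?_⟩
  have n1 : n₁ ≤ n := le_of_not_gt fun lt => by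
    linarith [dn_anti lt.le, div_le_self D0.1.le (e2 _ u), D0.2, dn_pos n₁]
  let v : Fin j → Fin j → Bool → ℝ := fun i i' =>
    if i' = i then g (τ i) n else if i' < i then (cond · 0 1) else (cond · 1 0)
  let z : Fin j → Fin j → ℝ := fun i i' =>
    if i' = i then t n (τ i) * x (τ i) n else if i' < i then x (τ i') n else x (τ i') (n + 1)
  have p0 : 0 < ∏ i, x (τ i) n := Finset.prod_pos fun i _ => p _ _
  have z1 : ∀ i, ‖((∏ i', z i i' : ℝ) : ℂ)‖ ≤ 4 ^ j * ∏ i, x (τ i) n := fun i => by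
    rw [Complex.norm_real, norm_eq_abs, Finset.abs_prod, ← Fin.prod_const, ← Finset.prod_mul_distrib]
    refine Finset.prod_le_prod (fun _ _ => abs_nonneg _) fun i' _ => ?_
    unfold z
    split_ifs with a1
    · exact a1 ▸ t5 _ n n1
    · linarith [p (τ i') n, abs_of_pos (p (τ i') n)]
    · linarith [t4 n n1 (τ i'), abs_of_pos (p (τ i') (n + 1))]
  filter_upwards [eventually_all.2 fun i => e1 _ u n hn (v i) fun i' => by
    unfold v
    split_ifs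
    exacts [(Q.nrm' _ n).le, by simp, by simp], e1 _ u n hn (fun _ => (cond · 0 1)) (by simp)]
    with e e3 e4
  refine ⟨?_, fun hd => ?_⟩
  · have id : Pn cl h ω S x τ c f D (n + 1) e - Pn cl h ω S x τ c f D n e = ∑ i,
        ((∏ i', z i i' : ℝ) : ℂ) • ∏ i', Yw h ω S (cl (τ i')) n e (v i i') (c i') (sc D (f i')) := by
      rw [Pn, Pn, tel_id]
      refine Finset.sum_congr rfl fun i _ => ?_
      rw [Complex.ofReal_prod, ← Finset.prod_smul]
      refine Finset.prod_congr rfl fun i' _ => ?_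
      unfold z v
      split_ifs with a1
      exacts [a1 ▸ y2 _ n n1 _ _ _, y0 .., y1 ..]
    have := Net.QB.sum st Finset.univ (abs_nonneg R) fun i _ => (((e3 i).1 ⟨i, if_pos rfl⟩).smul
      _).mono st (le_abs_self R) (mul_le_mul_of_nonneg_right (z1 i) ((e3 i).1 ⟨i, if_pos rfl⟩).2.2.1)
    simp only [smul_comm _ (lg cl τ D : ℂ), ← Finset.smul_sum, ← id] at this
    refine this.mono st le_rfl ?_
    have a0 : 0 ≤ (ρ D * dn n / D) ^ a := by
      have := (dn_pos n).le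
      have := D0.1.le
      have := zero_le_one.trans (e2 _ u)
      positivity
    rw [Finset.sum_const, Finset.card_fin, nsmul_eq_mul]
    calc _ = j / (j + 1) * (η * (ρ D * dn n / D) ^ a * ∏ i, x (τ i) n) := by field_simp
      _ ≤ _ := mul_le_of_le_one_left (by positivity) (div_le_one_of_le₀ (by linarith) (by positivity))
  · have := (e4.2 hd).smul ((∏ i, x (τ i) n : ℝ) : ℂ)
    rw [smul_comm, ← ctr_smul, Complex.norm_real, norm_of_nonneg p0.le, mul_comm] at this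
    simp only [Pn, y0, Finset.prod_smul, ← Complex.ofReal_prod]
    refine this.mono st (le_abs_self R) (mul_le_mul_of_nonneg_right (div_le_self η0.le ?_) p0.le)
    exact one_le_mul_of_one_le_of_one_le (by linarith [j.cast_nonneg (α := ℝ)])
      (one_le_pow₀ (by norm_num))

omit Y in
theorem Sq.tel (Q : Sq cl ref h ω S Λ δ Kl A γ g) (L : Lq cl h ω S g x t n₁)
    (I : Kin S 5 Λ δ a Kl) : Tel cl ref h ω S x (2 * K) a := by
  have st := hS.inp.st
  refine ⟨I.pos, L.pos, L.rat, fun τ c hc => ?_, fun k => ?_⟩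
  · obtain ⟨N, C, N1, e⟩ := Q.one hS H I τ hc
    refine ⟨N, 4 * C, ?_⟩
    filter_upwards [e, eventually_ge_atTop n₁] with e₀ e1 e2 n hn
    filter_upwards [e1 n hn] with e e3 f hf
    have n1 : n₁ ≤ n := by nlinarith
    rw [L.dif τ n n1]
    refine ((e3 f hf).smul _).mono st le_rfl ?_
    rw [Complex.norm_real]
    exact (mul_le_mul_of_nonneg_right (L.le τ n n1) (e3 f hf).2.2.1).trans_eq (by ring)
  obtain ⟨W, hW, ts, hc⟩ := I.clu k
  choose! ρ hρ using fun D (u : ∃ r, W D r) => u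
  exact ⟨ρ, Q.tc hS H L hW ts hc (hW.ex.mono hρ)⟩

theorem exists_tel (I : Kin S 5 Λ δ a Kl) : ∃ lam, Tel cl ref h ω S lam (2 * K) a := by
  obtain ⟨A, γ, g, Q⟩ := slots H Y I
  obtain ⟨x, t, n₁, L⟩ := Q.lq hS H Y I
  exact ⟨x, Q.tel hS H L I⟩

end Pool.Agent.Lib.MP_7f377f_mp.Cm
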