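import Pool.Agent.Lib.MP_7f377f_mp.G.CmY
import Pool.Agent.Lib.MP_7f377f_mp.G.CmQ

/-! Composite fields: crude bounds. -/

noncomputable section

namespace Pool.Agent.Lib.MP_7f377f_mp.Cm
variable [Pool.Agent.Lib.MP_7f377f_mp.GD]
set_option linter.unusedSectionVars false

open MeasureTheory Filter Topology Set Real YM7 Pur MvPolynomial Lg
open Ope (Let gp sc ctr)
open Ro (Iso act)
open Wm (C1)
open Lb (Lab Pl Cl rho mx ip pc frL freeL Sep)
open RG.Q4.En.Ty (Gn Ty sb Det)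
open scoped NNReal

namespace CmR

/-- sums of words with small separated supports, with a bound of the total weight -/
inductive Ex (M : ℕ) (ρ : ℝ) (L : ℝ≥0) (O : Set R4) : Pol → ℝ → Prop
  | mon {k : ℕ} {u : Fin k → R4 → ℝ} : k ≤ M → Far ρ u (fun _ => L) →
      (∀ j, tsupport (u j) ⊆ O) → Ex M ρ L O (mon u) 1
  | zero : Ex M ρ L O 0 0
  | smul {Y : Pol} {c : ℝ} (a : ℂ) : Ex M ρ L O Y c → Ex M ρ L O (a • Y) (‖a‖ * c)
  | add {Y Y' : Pol} {c c' : ℝ} : Ex M ρ L O Y c → Ex M ρ L O Y' c' → Ex M ρ L O (Y + Y') (c + c')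
  | le {Y : Pol} {c c' : ℝ} : Ex M ρ L O Y c → c ≤ c' → Ex M ρ L O Y c'

variable {M M' e : ℕ} {ρ R c c' b d d₁ : ℝ} {L : ℝ≥0} {O O' : Set R4} {Y Y' A : Pol}
  {S : Pol →ₗ[ℂ] ℂ} {f : R4 → ℝ}

theorem Ex.nonneg (h : Ex M ρ L O Y c) : 0 ≤ c := by
  induction h with
  | mon => exact zero_le_one
  | zero => exact le_rfl
  | smul a _ ih => positivity
  | add _ _ ih ih' => positivity
  | le _ e ih => exact ih.trans e

theorem Ex.const (a : ℂ) : Ex M ρ L O (C a) ‖a‖ := by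
  have := (Ex.mon (ρ := ρ) (L := L) (O := O) (u := ![]) (Nat.zero_le M)
    ⟨⟨fun i => i.elim0, fun i => i.elim0⟩, fun i => i.elim0, fun i => i.elim0⟩
    fun i => i.elim0).smul a
  simpa [Pur.mon, smul_eq_C_mul] using this

theorem Ex.sum {ι : Type} (s : Finset ι) {Y : ι → Pol} (h : ∀ i ∈ s, Ex M ρ L O (Y i) c) :
    Ex M ρ L O (∑ i ∈ s, Y i) (s.card * c) := by
  classical
  induction s using Finset.induction_on with
  | empty => simpa using Ex.zero
  | insert i s hi ih =>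
    rw [Finset.sum_insert hi, Finset.card_insert_of_notMem hi, Nat.cast_succ, add_one_mul, add_comm _ c]
    exact (h i (Finset.mem_insert_self _ _)).add (ih fun j hj => h j (Finset.mem_insert_of_mem hj))

theorem Ex.mul (h : Ex M ρ L O Y c) (h' : Ex M' ρ L O' Y' c') (ρ0 : 0 < ρ)
    (hd : ∀ x ∈ O, ∀ y ∈ O', ρ ≤ dist x y) : Ex (M + M') ρ L (O ∪ O') (Y * Y') (c * c') := by
  induction h with
  | mon hk hf hO =>
    induction h' with
    | mon hk' hf' hO' =>
      rw [← mon_append, mul_one]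
      refine .mon (add_le_add hk hk') ⟨hf.1.append hf'.1 fun i j => disjoint_left.2 fun x a b => ?_,
        YM5.forall_append (P := fun u => LipschitzWith L u ∧ ∀ x y, u x ≠ 0 → u y ≠ 0 → dist x y ≤ ρ)
          hf.2.1 hf'.2.1, YM5.pairwise_append
          (R := fun u v : R4 → ℝ => ∀ x y, u x ≠ 0 → v y ≠ 0 → ρ ≤ dist x y)
          (fun _ _ h x y a b => dist_comm x y ▸ h y x b a) hf.2.2 hf'.2.2 fun i j x y a b =>
            hd x (hO i (subset_tsupport _ a)) y (hO' j (subset_tsupport _ b))⟩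
        (YM5.forall_append (P := fun u => tsupport u ⊆ O ∪ O')
          (fun i => (hO i).trans subset_union_left) fun i => (hO' i).trans subset_union_right)
      exact ρ0.not_ge (dist_self x ▸ hd x (hO i a) x (hO' j b))
    | zero => simpa using Ex.zero
    | smul a _ ih => rw [mul_smul_comm, mul_left_comm]; exact ih.smul a
    | add _ _ ih ih' => rw [mul_add, mul_add]; exact ih.add ih'
    | le _ e ih => exact ih.le (by linarith)
  | zero => simpa using Ex.zero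
  | smul a _ ih => rw [smul_mul_assoc, mul_assoc]; exact ih.smul a
  | add _ _ ih ih' => rw [add_mul, add_mul]; exact ih.add ih'
  | le _ e ih => exact ih.le (mul_le_mul_of_nonneg_right e h'.nonneg)

theorem Ex.prod {ι : Type} (s : Finset ι) {M : ι → ℕ} {O : ι → Set R4} {Y : ι → Pol} {c : ι → ℝ}
    (h : ∀ i, Ex (M i) ρ L (O i) (Y i) (c i)) (ρ0 : 0 < ρ)
    (hd : ∀ i j, i ≠ j → ∀ x ∈ O i, ∀ y ∈ O j, ρ ≤ dist x y) :
    Ex (∑ i ∈ s, M i) ρ L (⋃ i ∈ s, O i) (∏ i ∈ s, Y i) (∏ i ∈ s, c i) := by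
  classical
  induction s using Finset.induction_on with
  | empty => simpa using Ex.const (M := 0) (O := ∅) 1
  | insert i s hi ih =>
    rw [Finset.sum_insert hi, Finset.prod_insert hi, Finset.prod_insert hi, Finset.set_biUnion_insert]
    refine (h i).mul ih ρ0 fun x hx y hy => ?_
    obtain ⟨j, hj, hy⟩ := mem_iUnion₂.1 hy
    exact hd i j (fun e => hi (e ▸ hj)) x hx y hy

theorem ex_qb {K : ℝ} (hS : Sf S K) : ∃ (C : ℝ) (s : ℕ), 0 ≤ C ∧ ∀ {M ρ R L O Y c}, 0 < ρ → ρ ≤ 1 →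
    ρ ≤ R → O ⊆ Bx R → Ex M ρ L O Y c →
      net.QB S Y (K * R) (c * (1 + C * ((M + 1) / ρ) ^ s * L) ^ M) := by
  obtain ⟨C, s, C0, hq⟩ := hS.qr
  refine ⟨C, s, C0, fun {M ρ R L O Y c} ρ0 ρ1 hR hO h => ?_⟩
  have st := hS.inp.st
  induction h with
  | @mon k u hk hf hu =>
    refine (hq k ρ R ρ0 ρ1 hR u _ hf fun i => (hu i).trans hO).mono st le_rfl ?_
    have : (k : ℝ) ≤ M := Nat.cast_le.2 hk
    rw [Finset.prod_const, Finset.card_univ, Fintype.card_fin, NNReal.coe_pow, ← mul_pow, one_mul]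
    refine le_trans ?_ (pow_le_pow_right₀ (le_add_of_nonneg_right (by positivity)) hk)
    gcongr
    refine le_trans ?_ (le_add_of_nonneg_left zero_le_one)
    gcongr
  | zero =>
    rw [zero_mul]
    exact .zero (mul_nonneg (zero_le_one.trans hS.one) (ρ0.le.trans hR))
  | smul a _ ih => rw [mul_assoc]; exact ih.smul a
  | add _ _ ih ih' => rw [add_mul]; exact ih.add st ih'
  | le _ e ih => exact ih.mono st le_rfl (by gcongr)

/-- the points of the grid in a cube -/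
def grid (e : ℕ) (R : ℝ) : Finset (Fin 4 → ℤ) :=
  Fintype.piFinset fun _ => Finset.Icc (-(⌊3 ^ e * R⌋₊ : ℤ)) ⌊3 ^ e * R⌋₊

theorem mem_grid {x : Fin 4 → ℤ} (h : ∀ l, |gp e x l| ≤ R) : x ∈ grid e R :=
  Fintype.mem_piFinset.2 fun l => Finset.mem_Icc.2 (abs_le.1 (by
    have := h l
    simp only [gp, abs_mul, abs_inv, abs_pow, Nat.abs_ofNat] at this
    rw [inv_mul_le_iff₀ (by positivity), ← Int.cast_abs, ← Int.natCast_natAbs, Int.cast_natCast] at this
    rw [← Int.natCast_natAbs]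
    exact_mod_cast Nat.le_floor this))

theorem card_grid (R0 : 0 ≤ R) : ((grid e R).card : ℝ) * (3 ^ e)⁻¹ ^ 4 ≤ (2 * R + 1) ^ 4 := by
  have h1 := Nat.floor_le (show 0 ≤ (3 : ℝ) ^ e * R by positivity)
  have h2 : (1 : ℝ) ≤ 3 ^ e := one_le_pow₀ (by norm_num)
  have h3 : (grid e R).card = (2 * ⌊3 ^ e * R⌋₊ + 1) ^ 4 := by
    rw [grid, Fintype.card_piFinset, Finset.prod_const, Finset.card_univ, Fintype.card_fin, Int.card_Icc]
    congr 1
    omega
  rw [h3, Nat.cast_pow, ← mul_pow]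
  gcongr
  rw [mul_inv_le_iff₀ (by positivity)]
  push_cast
  nlinarith

theorem ex_Yl (R0 : 0 ≤ R) (c0 : 0 ≤ c) (d0 : 0 < d₁) (hd : d₁ ≤ d) (hb : ∀ y, |f y| ≤ b)
    (hf : ∀ y, f y ≠ 0 → (∀ l, |y l| ≤ R) ∧ Ex M ρ L O (sh d y A) c) :
    Ex M ρ L O (Yl A d e f) ((2 * R + 1) ^ 4 * (b * c / d₁ ^ 4)) := by
  have b0 := (abs_nonneg _).trans (hb 0)
  rw [Yl_eq (s := grid e R) fun x hx => mem_grid (hf _ hx).1]
  refine (Ex.sum (c := (3 ^ e)⁻¹ ^ 4 * (b * c / d₁ ^ 4)) _ fun x _ => ?_).le ?_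
  · by_cases h : f (gp e x) = 0
    · simpa [h] using Ex.zero.le (by positivity)
    refine ((hf _ h).2.smul _).le ?_
    have := d0.trans_le hd
    rw [Complex.norm_real, norm_mul, norm_of_nonneg (by positivity), norm_eq_abs, div_pow]
    calc _ ≤ (3 ^ e)⁻¹ ^ 4 / d₁ ^ 4 * b * c := by gcongr; exact hb _
      _ = _ := by ring
  · rw [← mul_assoc]
    gcongr
    exact card_grid R0

end CmR

open CmR

variable {S : Pol →ₗ[ℂ] ℂ} {K Λ δ w : ℝ} {h : R4 → ℝ} {ω : ∀ l : Cl, (Fin l.m → R4) → Lab ℝ}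
  (hS : Sf S K) (H : Dat w h ω Λ δ)
include H

theorem Dat.pos : 1 ≤ Λ ∧ 0 < δ := by
  by_cases e : ∃ y, ω .s y ≠ 0
  · obtain ⟨y, hy⟩ := e
    exact ⟨(H.tw _ y (subset_tsupport _ hy)).2.1.one, (H.tw _ y (subset_tsupport _ hy)).2.1.pos⟩
  push Not at e
  have := H.one .s (Matrix.single (0, 1) (0, 1) 1) (0, 1) (0, 1)
  simp [e, ip, pc, Lb.an, Matrix.single, ite_and] at this

theorem Dat.ex (l : Cl) (c : Lab ℂ) : ∃ C, 0 ≤ C ∧ ∀ (e : ℕ) (d ρ : ℝ) (z : R4) (L : ℝ≥0) (O : Set R4),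
    0 < d → δ * d / 2 ≤ ρ → ρ ≤ δ * d → Λ / d ≤ L → (∀ x : R4, (∀ l, |x l - z l| ≤ Λ * d) → x ∈ O) →
      Ex l.m ρ L O (sh d z (Zc h ω l e c)) C := by
  obtain ⟨R, R0, hR⟩ := (H.cpt l).isCompact.isBounded.exists_pos_norm_le
  obtain ⟨b, hb⟩ := (H.cpt l).isCompact.exists_bound_of_continuousOn
    (f := fun y => ip c ((ω l y).map (↑))) (Continuous.continuousOn (by
      have := H.cont l
      simp only [ip, Matrix.map_apply]
      fun_prop))
  refine ⟨(2 * R + 1) ^ (4 * l.m) * |b|, by positivity, fun e d ρ z L O d0 h1 h2 hL hO => ?_⟩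
  have hz : ∀ y, ω l y = 0 → ip c ((ω l y).map (↑)) = 0 := fun y a => by simp [a, ip]
  rw [Zc, finsum_eq_sum_of_support_subset (s := Fintype.piFinset fun _ => grid e R), map_sum]
  · refine (Ex.sum (c := (3 ^ e)⁻¹ ^ (4 * l.m) * |b|) _ fun y _ => ?_).le ?_
    · by_cases a : (ω l fun i => gp e (y i)) = 0
      · simpa [hz _ a] using Ex.zero.le (by positivity)
      have a' := subset_tsupport _ a
      obtain ⟨t1, t2, -⟩ := H.tw l _ a'
      have e1 : ∀ x x' : R4, dist x x' = d * dist (d⁻¹ • (x - z)) (d⁻¹ • (x' - z)) := fun x x' => by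
        rw [dist_smul₀, dist_sub_right, norm_inv, norm_of_nonneg d0.le, mul_inv_cancel_left₀ d0.ne']
      rw [map_smul, sh, rename_mon]
      refine ((Ex.mon le_rfl ⟨adm_sub (t1.smul (inv_ne_zero d0.ne')) z, fun i => ⟨.of_dist_le_mul
        fun x x' => (t2.lip i _ _).trans ?_, fun x x' p p' => ?_⟩, fun i j n x x' p p' => ?_⟩
        fun i => (closure_minimal (t := {x : R4 | ∀ l, |x l - z l| ≤ Λ * d}) (fun x p l => ?_)
          ?_).trans hO).smul _).le ?_
      · rw [e1 x x', ← mul_assoc]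
        gcongr
        rwa [← div_le_iff₀ d0]
      · have := dist_triangle_right (d⁻¹ • (x - z)) (d⁻¹ • (x' - z)) (gp e (y i))
        simp only [dist_eq_norm _ (gp e (y i))] at this
        rw [e1 x x']
        nlinarith [H.sm _ (subset_tsupport _ p), H.sm _ (subset_tsupport _ p')]
      · obtain ⟨l, hl⟩ := t2.sep i j n _ _ p p'
        rw [e1 x x']
        nlinarith [hl.trans ((Real.dist_eq _ _).symm.trans_le (PiLp.dist_apply_le _ _ l))]
      · have := t2.cube i _ p l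
        rwa [PiLp.smul_apply, smul_eq_mul, abs_mul, abs_inv, abs_of_pos d0, inv_mul_le_iff₀' d0] at this
      · simp only [setOf_forall]
        exact isClosed_iInter fun l => isClosed_le (by fun_prop) continuous_const
      · rw [mul_one, norm_mul, Complex.norm_real, norm_of_nonneg (by positivity)]
        gcongr
        exact (hb _ a').trans (le_abs_self b)
    · rw [← mul_assoc, Fintype.card_piFinset, Finset.prod_const, Finset.card_univ, Fintype.card_fin,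
        Nat.cast_pow, pow_mul, pow_mul, ← mul_pow]
      gcongr
      exact card_grid R0.le
  · refine fun y a => Fintype.mem_piFinset.2 fun i => mem_grid fun l' => ?_
    have : (ω l fun i => gp e (y i)) ≠ 0 := fun e => a (by simp [hz _ e])
    exact (PiLp.norm_apply_le _ l').trans ((norm_le_pi_norm (fun i => gp e (y i)) i).trans
      (hR _ (subset_tsupport _ this)))

include hS

/-- polynomial bound for one composite -/
theorem crude (l : Cl) (c : Lab ℂ) : ∃ (C : ℝ) (s : ℕ), 0 ≤ C ∧ ∀ d R : ℝ, 0 < d → (Λ + 1) * d ≤ R →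
    R ≤ 1 → ∀ (e : ℕ) (f : R4 → ℝ) (L : ℝ≥0), C1 (Bx R) f → LipschitzWith L f →
      net.QB S (Yc h ω S l d e c f) (2 * K * R) (C / d ^ s * L) := by
  obtain ⟨Λ1, δ0⟩ := H.pos
  obtain ⟨C, s, C0, hq⟩ := ex_qb hS
  obtain ⟨B, B0, hB⟩ := H.ex l c
  refine ⟨324 * B * (1 + C * ((l.m + 1) / δ) ^ s * Λ) ^ l.m, 4 + (s + 1) * l.m, by positivity,
    fun d R d0 hd R1 e f L hf hL => ?_⟩
  have d1 : d ≤ 1 := by nlinarith
  have δ1 := H.le
  have h1 : ∀ y, f y ≠ 0 → y ∈ Bx R := fun y a => hf.2.2 (subset_tsupport _ a)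
  have h2 : ∀ y, |f y| ≤ L * 2 := fun y => by
    by_cases a : f y = 0
    · rw [a, abs_zero]
      positivity
    have b : f (y + ax 0 2) = 0 := by
      by_contra b
      have p := (abs_lt.1 (h1 _ a 0)).1
      have q := (abs_lt.1 (h1 _ b 0)).2
      simp only [PiLp.add_apply, PiLp.single_apply, if_true] at q
      linarith
    simpa [b] using hL.dist_le_mul y (y + ax 0 2)
  have h3 := ex_Yl (e := e) zero_le_one B0 d0 le_rfl h2 fun y a =>
    ⟨fun l => (h1 y a l).le.trans R1, hB e d (δ * d) y ⟨Λ / d, by positivity⟩ (Bx (2 * R)) d0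
      (by nlinarith) le_rfl le_rfl fun x p l => by
        linarith [abs_sub_abs_le_abs_sub (x l) (y l), p l, h1 y a l]⟩
  refine (ctr_qb hS.inp.st (hq (R := 2 * R) (by positivity) (by nlinarith) (by nlinarith) subset_rfl
    h3)).mono hS.inp.st (by linarith) ?_
  have h4 : 1 + C * ((l.m + 1) / (δ * d)) ^ s * (Λ / d) ≤
      (1 + C * ((l.m + 1) / δ) ^ s * Λ) / d ^ (s + 1) := by
    rw [add_div 1, ← div_div, div_pow _ d, pow_succ]
    refine add_le_add (one_le_one_div (by positivity) (by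
      rw [← pow_succ]; exact pow_le_one₀ d0.le d1)) (le_of_eq (by ring))
  calc _ ≤ 2 * ((2 * 1 + 1) ^ 4 * (L * 2 * B / d ^ 4) *
        ((1 + C * ((l.m + 1) / δ) ^ s * Λ) / d ^ (s + 1)) ^ l.m) := by
        gcongr
        exact h4
    _ = _ := by
      rw [div_pow, ← pow_mul, pow_add]
      ring

/-- bound for products which does not depend on the mesh -/
theorem crude_prod {k : ℕ} (l : Fin k → Cl) (c : Fin k → Lab ℂ) {f : Fin k → R4 → ℝ} (hf : Adm f) :
    ∃ R, ∃ ε > 0, ∀ D ∈ Ioc (0 : ℝ) 1, ∀ d₀ ∈ Ioc 0 (ε * D), ∃ C, ∀ d : Fin k → ℝ,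
      (∀ i, d i ∈ Icc (d₀ / 2) d₀) → ∀ e,
        net.QB S (∏ i, Yc h ω S (l i) (d i) e (c i) (sc D (f i))) R C := by
  obtain ⟨Λ1, δ0⟩ := H.pos
  obtain ⟨C, s, C0, hq⟩ := ex_qb hS
  choose B B0 hB using fun i => H.ex (l i) (c i)
  obtain ⟨Λ', δ', T⟩ := hf.tf
  have δ1 := H.le
  have Λ1' := T.one
  have δ0' := T.pos
  refine ⟨K * (Λ' + Λ + 1), min 1 (δ' / (2 * Λ + 1)), by positivity, fun D hD d₀ hd => ?_⟩
  have d0 := hd.1
  have d1 : d₀ ≤ 1 := hd.2.trans (mul_le_one₀ (min_le_left _ _) hD.1.le hD.2)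
  have d2 : d₀ * (2 * Λ + 1) ≤ δ' * D := by
    rw [← le_div_iff₀ (by positivity), mul_div_right_comm]
    exact hd.2.trans (mul_le_mul_of_nonneg_right (min_le_right _ _) hD.1.le)
  let L : ℝ≥0 := ⟨Λ / (d₀ / 2), by positivity⟩
  let O : Fin k → Set R4 := fun i => {x | ∃ z, sc D (f i) z ≠ 0 ∧ ∀ l, |x l - z l| ≤ Λ * d₀}
  let b : Fin k → ℝ := fun i => (2 * Λ' + 1) ^ 4 * (Λ' * B i / (d₀ / 2) ^ 4)
  have h1 : ∀ i z, sc D (f i) z ≠ 0 → ∀ l, |z l| ≤ Λ' := fun i z a l => by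
    have := T.cube i _ a l
    rw [PiLp.smul_apply, smul_eq_mul, abs_mul, abs_inv, abs_of_pos hD.1, inv_mul_le_iff₀ hD.1] at this
    nlinarith [hD.2]
  have h2 : ∀ i, O i ⊆ Bx (Λ' + Λ + 1) := fun i x ⟨z, a, p⟩ l => by
    nlinarith [abs_sub_abs_le_abs_sub (x l) (z l), p l, h1 i z a l]
  have h3 : ∀ {M O Y c}, O ⊆ Bx (Λ' + Λ + 1) → Ex M (δ * (d₀ / 2)) L O Y c → _ :=
    hq (by positivity) (by nlinarith) (by nlinarith)
  refine ⟨_, fun d hd e => h3 (iUnion₂_subset fun i _ => h2 i) (Ex.prod Finset.univ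
    (M := fun i => (l i).m) (c := fun i => b i + b i * (1 + C * (((l i).m + 1) / (δ * (d₀ / 2))) ^ s * L) ^ (l i).m)
    (fun i => ?_) (by positivity) fun i j n x ⟨z, a, p⟩ x' ⟨z', a', p'⟩ => ?_)⟩
  · have d3 : 0 < d i := (half_pos d0).trans_le (hd i).1
    have h4 := ex_Yl (e := e) (f := sc D (f i)) (by linarith) (B0 i) (half_pos d0) (hd i).1
      (fun y => T.bd i _) fun y a => ⟨h1 i y a, hB i e (d i) (δ * (d₀ / 2)) y L (O i) d3
        (by nlinarith [(hd i).2]) (by gcongr; exact (hd i).1)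
        (div_le_div_of_nonneg_left (by linarith) (half_pos d0) (hd i).1) fun x p =>
          ⟨y, a, fun l => (p l).trans (by gcongr; exact (hd i).2)⟩⟩
    rw [Yc, ctr, sub_eq_add_neg, ← map_neg]
    exact h4.add ((Ex.const _).le (by rw [norm_neg]; exact hS.inp.st.bound (h3 (h2 i) h4)))
  · obtain ⟨l, hl⟩ := T.sep i j n _ _ a a'
    rw [PiLp.smul_apply, PiLp.smul_apply, smul_eq_mul, smul_eq_mul, ← mul_sub, abs_mul, abs_inv,
      abs_of_pos hD.1, le_inv_mul_iff₀' hD.1] at hl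
    have := PiLp.dist_apply_le x x' l
    rw [Real.dist_eq] at this
    nlinarith [abs_sub_le (z l) (x l) (z' l), abs_sub_le (x l) (x' l) (z' l), p l, p' l,
      abs_sub_comm (z l) (x l)]

end Pool.Agent.Lib.MP_7f377f_mp.Cm
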