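import Pool.Agent.Lib.MP_7f377f_mp.G.SbP
import Pool.Agent.Lib.MP_7f377f_mp.G.ScDef
import Pool.Agent.Lib.MP_7f377f_mp.G.SmeD
import Pool.Agent.Lib.MP_7f377f_mp.G.Q5Test
import Pool.Agent.Lib.MP_7f377f_mp.Lb5
import Pool.Agent.Lib.MP_7f377f_mp.StK

/-! The two scale law: definitions. -/

noncomputable section

namespace Pool.Agent.Lib.MP_7f377f_mp.Ope

open MeasureTheory Filter Topology Set Real YM7 Pur MvPolynomial

section clusters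

variable {S : Type} [Fintype S] [DecidableEq S] {κ : S → Type} [∀ s, Fintype (κ s)]
  [∀ s, DecidableEq (κ s)]

/-- the positions of the slots; the slots in `J` are single fields -/
def zp (J : Finset S) (o : ∀ s, κ s) (ζ : S → R4) (y : (Σ s, κ s) → R4) (s : S) : R4 :=
  if s ∈ J then y ⟨s, o s⟩ else ζ s

/-- the free limit of the correlation functions of clusters -/
def Lm (w : ℝ) (J : Finset S) (o : ∀ s, κ s) (u : (Σ s, κ s) → R4 → ℝ) (ζ : S → R4) : ℝ :=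
  ∫ y : (Σ s, κ s) → R4, (∏ p, u p (y p)) *
    Lb.frL w (fun s => Lb.B w fun x => y ⟨s, x⟩) (zp J o ζ y)

/-- the test functions: scale `D` for the slots in `J`, else scale `d` at the position `D ζ` -/
def us (J : Finset S) (u : (Σ s, κ s) → R4 → ℝ) (d D : ℝ) (ζ : S → R4) (p : Σ s, κ s)
    (y : R4) : ℝ :=
  if p.1 ∈ J then u p (D⁻¹ • y) else u p (d⁻¹ • (y - D • ζ p.1))

/-- normalised clusters and positions -/
structure Clq (J : Finset S) (Λ δ : ℝ) (u : (Σ s, κ s) → R4 → ℝ) (ζ : S → R4) : Prop where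
  one : 1 ≤ Λ
  reg : ∀ p, ContDiff ℝ 1 (u p)
  bd : ∀ p y, |u p y| ≤ Λ
  lip : ∀ p y z, |u p y - u p z| ≤ Λ * dist y z
  sup : ∀ p y, u p y ≠ 0 → ‖y‖ ≤ Λ
  pos : ∀ s, ‖ζ s‖ ≤ Λ
  sep : ∀ p q, p ≠ q → ∀ y z, u p y ≠ 0 → u q z ≠ 0 → δ ≤ ‖if p.1 = q.1 then z - y else
    (if q.1 ∈ J then z else ζ q.1) - if p.1 ∈ J then y else ζ p.1‖

end clusters

/-- the sizes of the clusters: a pair and single fields -/
abbrev pm (k : ℕ) (s : Option (Fin k)) : ℕ := s.elim 2 fun _ => 1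

/-- the first point -/
def po (k : ℕ) : ∀ s, Fin (pm k s)
  | none => (0 : Fin 2)
  | some _ => (0 : Fin 1)

/-- the test functions of a pair and of single fields -/
def pu {k : ℕ} (u : R4 → ℝ) (g : Fin k → R4 → ℝ) : (Σ s, Fin (pm k s)) → R4 → ℝ
  | ⟨none, x⟩ => ![u, fun y => u (-y)] x
  | ⟨some i, _⟩ => g i

/-- the free correlation functions of the tensor field -/
def Ff (C : ℝ) : ∀ k, Fin 4 → Fin 4 → (R4 → ℝ) → (Fin k → R4 → ℝ) → ℝ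
  | 2 => fun μ ν f g => C * (I3 μ ν f g - if μ = ν then (∑ l, I3 l l f g) / 4 else 0)
  | _ => fun _ _ _ _ => 0

variable [Pool.Agent.Lib.MP_7f377f_mp.GD]

/-- the constant of the short distance law -/
def qc : ℝ := 48 / (11 * GD.b0)

/-- the propagator of the lattice field strength between different sites -/
def kL (κ : Fin 4 → Fin 4 → (Fin 4 → ℤ) → ℝ) (v : Fin 4 → ℤ) : Lb.Lab ℝ :=
  if v = 0 then 0 else (π ^ 2 / 2) • Matrix.of (Weak.kM κ v)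

/-- the correlation function of free lattice fields -/
def LS (κ : Fin 4 → Fin 4 → (Fin 4 → ℤ) → ℝ) (s : ℝ) {ι : Type} [Fintype ι] [DecidableEq ι]
    (f : ι → R4 → ℝ) : ℝ :=
  ∑' z : ι → Fin 4 → ℤ, (∏ i, f i (YM5.pt s (z i))) * Lb.lq (GD.d / 2 : ℝ) fun i j => kL κ (z j - z i)

/-- the short distance law, uniformly in the positions and the sizes of the sources -/
def Afu (S : Pol →ₗ[ℂ] ℂ) (X : ℝ → ℝ) : Prop :=
  ∃ (κ : _) (s μ : ℝ → ℝ), YM5.Green κ ∧ Tendsto X (𝓝[>] 0) atTop ∧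
    (∀ᶠ d in 𝓝[>] (0 : ℝ), X d ≤ log d⁻¹) ∧ Tendsto s (𝓝[>] 0) (𝓝[>] 0) ∧
    Tendsto μ (𝓝[>] 0) (𝓝 qc) ∧ ∀ K C : ℕ, ∀ δ > 0, ∀ᶠ d in 𝓝[>] (0 : ℝ), ∀ k ≤ K,
      ∀ f : Fin k → R4 → ℝ, Adm f → Tf f (X d) δ → X d ^ C * ‖((log d⁻¹ ^ k : ℝ) : ℂ) *
        S (mon fun i y => f i (d⁻¹ • y)) - (μ d ^ k * LS κ (s d) f : ℝ)‖ ≤ 1

/-- the two scale law for centred clusters -/
def TsN (W : Pol →ₗ[ℂ] ℂ) (X : ℝ → ℝ) : Prop :=
  ∀ (S : Type) [Fintype S] [DecidableEq S] (κ : S → Type) [∀ s, Fintype (κ s)]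
    [∀ s, DecidableEq (κ s)] (J : Finset S) (o : ∀ s, κ s), (∀ s ∈ J, Subsingleton (κ s)) →
    ∀ Λ : ℝ, ∀ δ > 0, ∀ η > 0, ∃ L : ℝ, ∀ᶠ d in 𝓝[>] (0 : ℝ), ∀ D, L * d ≤ D → (D / d) ^ 2 ≤ X d →
      ∀ u ζ, Clq J Λ δ u ζ →
      ‖((log d⁻¹ ^ Fintype.card (Σ s, κ s) * (D / d) ^ (4 * Jᶜ.card) : ℝ) : ℂ) *
        W (∏ s, ctr W (∏ x, MvPolynomial.X (us J u d D ζ ⟨s, x⟩))) -
        (qc ^ Fintype.card (Σ s, κ s) * Lm (GD.d / 2) J o u ζ : ℝ)‖ ≤ η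

/-- the window for the large scale -/
structure Win (X D : ℝ → ℝ) : Prop where
  rat : Tendsto (fun d => D d / d) (𝓝[>] 0) atTop
  win : ∀ᶠ d in 𝓝[>] (0 : ℝ), ∀ d' ∈ Icc (d / 2) d, (D d / d') ^ 2 ≤ X d'

/-- the free limit for a pair and at most two single fields -/
def PairF : Prop := ∀ k ≤ 2, ∀ h, Rd h → ∀ n : R4, ‖n‖ = 1 → ∀ f (g : Fin k → R4 → ℝ),
  Adm (Fin.cons f g : Fin (k + 1) → _) →
  (Integrable fun ζ => f ζ * Lm (GD.d / 2) {none}ᶜ (po k) (pu (hn h n) g) fun _ => ζ) ∧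
  qc ^ (k + 2) * ∫ ζ, f ζ * Lm (GD.d / 2) {none}ᶜ (po k) (pu (hn h n) g) (fun _ => ζ) =
    Fx.kap h * ∑ μ, ∑ ν, n μ * n ν * Ff (16 * GD.d * qc ^ 4) k μ ν f g

end Pool.Agent.Lib.MP_7f377f_mp.Ope
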