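import Pool.Agent.Lib.MP_7f377f_mp.G.CmE
import Pool.Agent.Lib.MP_7f377f_mp.G.TsD
import Pool.Agent.Lib.MP_7f377f_mp.Lb8

/-! The two scale law, uniformly in the profiles. -/

noncomputable section

namespace Pool.Agent.Lib.MP_7f377f_mp.Cm
variable [Pool.Agent.Lib.MP_7f377f_mp.GD]
set_option linter.unusedSectionVars false

open MeasureTheory Filter Topology Set Real YM7 Pur MvPolynomial Lg
open Ope (Let gp sc ctr)
open Ro (Iso act)
open Wm (C1)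
open Lb (Lab Pl Cl rho mx ip pc frL freeL Sep)
open RG.Q4.En.Ty (Gn Ty sb Det)
open scoped NNReal

namespace CmS

theorem nrm {m : ℕ} {u : Fin m → R4 → ℝ} {Λ δ : ℝ} (h : YM7.Tf u Λ δ) {i : Fin m} {y : R4}
    (hy : u i y ≠ 0) : ‖y‖ ≤ 2 * Λ := by
  rw [← dist_zero_right]
  exact dist_le_two fun l => by rw [PiLp.zero_apply, sub_zero]; exact h.cube i y hy l

theorem far {m : ℕ} {u : Fin m → R4 → ℝ} {Λ δ : ℝ} (h : YM7.Tf u Λ δ) {i j : Fin m} (e : i ≠ j)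
    {y z : R4} (hy : u i y ≠ 0) (hz : u j z ≠ 0) : δ ≤ ‖y - z‖ := by
  obtain ⟨l, hl⟩ := h.sep i j e y z hy hz
  exact hl.trans (PiLp.norm_apply_le (y - z) l)

theorem sep {m : ℕ} {u : Fin m → R4 → ℝ} {Λ δ : ℝ} (h : YM7.Tf u Λ δ) {y : Fin m → R4}
    (hy : ∏ i, u i (y i) ≠ 0) : Sep δ (2 * Λ) y :=
  have a := fun i => Finset.prod_ne_zero_iff.1 hy i (Finset.mem_univ i)
  ⟨fun i => nrm h (a i), fun i j e => far h e (a i) (a j)⟩

theorem wt {m : ℕ} {u : Fin m → R4 → ℝ} {Λ δ : ℝ} (h : Tw Λ δ u) :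
    Lb.Wt fun y : Fin m → R4 => ∏ i, u i (y i) :=
  ⟨continuous_finset_prod _ fun i _ => (h.1.1 i).2.continuous.comp (continuous_apply i),
    δ, h.2.1.pos, 2 * Λ, fun _ hy => sep h.2.1 hy⟩

/-- the labels of normalised clusters are bounded -/
theorem Bu_bd (m : ℕ) (w Λ : ℝ) {δ : ℝ} (δ0 : 0 < δ) : ∃ M : ℝ, ∀ u : Fin m → R4 → ℝ,
    YM7.Tf u Λ δ → ∀ α β, |Bu w u α β| ≤ M := by
  have hK := Lb.sep_cpt (ι := Fin m) δ (2 * Λ)
  obtain ⟨b, hb⟩ := hK.exists_bound_of_continuousOn (f := fun y α β => Lb.B w y α β)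
    fun y hy => (Lb.B_cont (Lb.Sep.inj hy δ0)).continuousWithinAt
  refine ⟨Λ ^ m * b * volume.real {y : Fin m → R4 | Sep δ (2 * Λ) y}, fun u hu α β => ?_⟩
  rw [Bu, Matrix.of_apply, ← setIntegral_eq_integral_of_forall_compl_eq_zero
    (s := {y : Fin m → R4 | Sep δ (2 * Λ) y}) fun y hy => by
      rw [not_not.1 (mt (sep hu) hy), zero_mul], ← norm_eq_abs]
  refine norm_setIntegral_le_of_norm_le_const hK.measure_lt_top fun y hy => ?_
  rw [norm_mul, norm_prod]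
  refine mul_le_mul ((Finset.prod_le_prod (g := fun _ => Λ) (fun i _ => norm_nonneg _)
    fun i _ => hu.bd i _).trans_eq (Fin.prod_const m Λ))
    (((norm_le_pi_norm _ β).trans (norm_le_pi_norm (fun α β => Lb.B w y α β) α)).trans (hb y hy))
    (norm_nonneg _) (pow_nonneg (zero_le_one.trans hu.one) _)

/-- the free functions of bounded labels are bounded -/
theorem frL_bd (k : ℕ) (w M Λ : ℝ) {δ : ℝ} (δ0 : 0 < δ) : ∃ M' : ℝ, 0 ≤ M' ∧
    ∀ (c : Fin k → Lab ℝ) (ζ : Fin k → R4), (∀ s α β, |c s α β| ≤ M) → Sep δ Λ ζ →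
      |frL w c ζ| ≤ M' := by
  have h1 : IsCompact (univ.pi fun _ : Fin k => (univ.pi fun _ : Pl => univ.pi fun _ : Pl =>
      Icc (-M) M : Set (Lab ℝ))) :=
    isCompact_univ_pi fun _ => isCompact_univ_pi fun _ => isCompact_univ_pi fun _ => isCompact_Icc
  obtain ⟨b, hb⟩ := (h1.prod (Lb.sep_cpt (ι := Fin k) δ Λ)).exists_bound_of_continuousOn
    (f := fun p => frL w p.1 p.2) fun p hp =>
      (Lb.frL_cont (c := p.1) (Lb.Sep.inj hp.2 δ0)).continuousWithinAt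
  exact ⟨|b|, abs_nonneg b, fun c ζ hc hζ =>
    (hb (c, ζ) ⟨fun s _ α _ β _ => abs_le.1 (hc s α β), hζ⟩).trans (le_abs_self b)⟩

theorem near {a q : ℂ} {t η M : ℝ} (n : ℕ) (t0 : 0 ≤ t) (t1 : t ≤ 1) (h : ‖a - q‖ ≤ η)
    (hq : ‖q‖ ≤ M) : ‖((t ^ n : ℝ) : ℂ) * a - q‖ ≤ η + n * (1 - t) * M := by
  have e1 : t ^ n ≤ 1 := pow_le_one₀ t0 t1
  have e2 := one_add_mul_le_pow (a := t - 1) (by linarith) n
  rw [add_sub_cancel] at e2
  rw [show ((t ^ n : ℝ) : ℂ) * a - q = (t ^ n : ℝ) * (a - q) - (1 - t ^ n : ℝ) * q by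
    push_cast; ring]
  refine (norm_sub_le _ _).trans (add_le_add ?_ ?_)
  · rw [norm_mul, Complex.norm_real, norm_of_nonneg (pow_nonneg t0 n)]
    exact (mul_le_of_le_one_left (norm_nonneg _) e1).trans h
  · rw [norm_mul, Complex.norm_real, norm_of_nonneg (sub_nonneg.2 e1)]
    exact mul_le_mul (by linarith) hq (norm_nonneg _) (mul_nonneg n.cast_nonneg (sub_nonneg.2 t1))

end CmS

open CmS in
theorem tsc_of {S : Pol →ₗ[ℂ] ℂ} {X : ℝ → ℝ} {W : ℝ → ℝ → Prop} (h : Ope.TsN S X)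
    (hX : ∀ᶠ d in 𝓝[>] (0 : ℝ), X d ≤ log d⁻¹)
    (hW : ∀ M, ∀ᶠ D in 𝓝[>] (0 : ℝ), ∀ r, W D r → M ≤ r)
    (hP : ∀ᶠ D in 𝓝[>] (0 : ℝ), ∀ r, W D r → ∀ d ∈ Icc (D / (4 * r)) (D / r), (D / d) ^ 2 ≤ X d) :
    Tsc S W := by
  intro k m Λ δ hm η η0
  obtain ⟨δ', δ0, hδ⟩ : ∃ δ' : ℝ, 0 < δ' ∧ (0 < δ → δ = δ') := by
    by_cases e : 0 < δ
    exacts [⟨δ, e, fun _ => rfl⟩, ⟨1, one_pos, fun e' => (e e').elim⟩]
  choose b hb using fun s => Bu_bd (m s) (GD.d / 2) Λ δ0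
  obtain ⟨M, M0, hM⟩ := frL_bd k (GD.d / 2) (∑ s, |b s|) Λ δ0
  obtain ⟨L, hL⟩ := h (Fin k) (fun s => Fin (m s)) ∅ (fun s => ⟨0, hm s⟩)
    (fun s hs => absurd hs (Finset.notMem_empty s)) (max 1 (2 * Λ)) δ' δ0 (η / 2) (half_pos η0)
  obtain ⟨ε, ε0, hε⟩ := mem_nhdsGT_iff_exists_Ioo_subset.1 (hL.and hX)
  obtain ⟨N, hN⟩ : ∃ N, N = ∑ s, m s := ⟨_, rfl⟩
  obtain ⟨Q, hQ⟩ : ∃ Q : ℝ, Q = ‖gm ^ N‖ * M := ⟨_, rfl⟩
  have Q0 : 0 ≤ 2 * (N * Q) / η := by rw [hQ]; positivity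
  filter_upwards [hW (1 + |L| + 2 * (N * Q) / η), hP, Ioo_mem_nhdsGT ε0] with D h1 h2 hD r hr d hd
    ζ hζ u hu
  have r1 := h1 r hr
  have L0 := abs_nonneg L
  have r0 : 0 < r := by linarith
  have d0 : 0 < d := (div_pos hD.1 (by linarith)).trans_le hd.1
  have d1 : d * r ≤ D := (le_div_iff₀ r0).1 hd.2
  have x1 : r ≤ D / d := (le_div_iff₀' d0).2 d1
  have d2 : d ≤ D := (le_mul_of_one_le_right d0.le (by linarith)).trans d1
  obtain ⟨a1, a2⟩ := hε ⟨d0, d2.trans_lt hD.2⟩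
  have tf : ∀ s, YM7.Tf (u s) Λ δ' := fun s => hδ (hu s).2.1.pos ▸ (hu s).2.1
  have z1 : Sep δ' Λ ζ := ⟨hζ.1, fun i j e => hδ (hu i).2.1.pos ▸ hζ.2 i j e⟩
  have a3 := a1 D (by nlinarith [le_abs_self L]) (h2 r hr d hd) (fun p => u p.1 p.2) ζ
    ⟨le_max_left _ _, fun p => ((hu p.1).1.1 p.2).2,
      fun p y => ((tf p.1).bd p.2 y).trans (le_max_of_le_right (by linarith [(tf p.1).one])),
      fun p y z => ((tf p.1).lip p.2 y z).trans (mul_le_mul_of_nonneg_right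
        (le_max_of_le_right (by linarith [(tf p.1).one])) dist_nonneg),
      fun p y hy => le_max_of_le_right (nrm (tf p.1) hy),
      fun s => (hζ.1 s).trans (le_max_of_le_right (by linarith [(tf s).one])), by
        rintro ⟨s, i⟩ ⟨s', j⟩ e y z hy hz
        simp only [Finset.notMem_empty, if_false]
        split_ifs with e'
        · obtain rfl : s = s' := e'
          exact CmS.far (tf s) (fun a : j = i => e (congrArg _ a.symm)) hz hy
        · exact z1.2 s' s (Ne.symm e')⟩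
  have e1 : Ope.Lm (GD.d / 2) ∅ (fun s => (⟨0, hm s⟩ : Fin (m s))) (fun p => u p.1 p.2) ζ =
      frL (GD.d / 2) (fun s => Bu (GD.d / 2) (u s)) ζ := by
    refine Eq.trans ?_ (Lb.int_frL (w := GD.d / 2) (ζ := ζ) fun s => wt (hu s))
    refine integral_congr_ae (.of_forall fun y => ?_)
    dsimp only
    rw [Fintype.prod_sigma, show Ope.zp ∅ _ ζ y = ζ from funext fun s =>
      if_neg (Finset.notMem_empty s)]
  have e2 : ∀ s, ∏ x, MvPolynomial.X (Ope.us ∅ (fun p : Σ s, Fin (m s) => u p.1 p.2) d D ζ ⟨s, x⟩) =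
      sh d (D • ζ s) (mon (u s)) := fun s => by
    rw [mon, map_prod]
    refine Finset.prod_congr rfl fun x _ => ?_
    rw [sh, rename_X]
    exact congrArg _ (funext fun y => if_neg (Finset.notMem_empty s))
  have e3 : Fintype.card (Σ s, Fin (m s)) = N := by simp [hN]
  rw [e1, e3, Finset.compl_empty, Finset.card_fin] at a3
  simp only [e2] at a3
  have x0 : 0 < D / d := r0.trans_le x1
  have l1 : (D / d) ^ 2 ≤ log d⁻¹ := (h2 r hr d hd).trans a2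
  have l0 : 0 < log d⁻¹ := (pow_pos x0 2).trans_le l1
  have l2 : log D⁻¹ = log d⁻¹ - log (D / d) := by
    rw [log_div hD.1.ne' d0.ne', log_inv, log_inv]
    ring
  have l3 : 0 ≤ log (D / d) := log_nonneg (by linarith)
  have l4 : log (D / d) * r ≤ log d⁻¹ :=
    (mul_le_mul (log_le_self x0.le) x1 r0.le x0.le).trans ((sq _).symm.trans_le l1)
  obtain ⟨t, ht⟩ : ∃ t : ℝ, log (D / d) = (1 - t) * log d⁻¹ :=
    ⟨1 - log (D / d) / log d⁻¹, by rw [sub_sub_cancel, div_mul_cancel₀ _ l0.ne']⟩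
  have t1 : 0 ≤ 1 - t := nonneg_of_mul_nonneg_left (ht ▸ l3) l0
  have t2 : (1 - t) * r ≤ 1 := le_of_mul_le_mul_right (by rw [ht] at l4; linarith) l0
  have t0 : 0 ≤ t := by nlinarith
  have a4 := near (M := Q) N t0 (by linarith) a3 (by
    rw [Complex.norm_real, norm_mul, hQ]
    exact mul_le_mul_of_nonneg_left (hM _ ζ (fun s α β => ((hb s _ (tf s) α β).trans
      (le_abs_self _)).trans (Finset.single_le_sum (fun s _ => abs_nonneg (b s))
        (Finset.mem_univ s))) z1) (norm_nonneg _))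
  rw [← mul_assoc, ← Complex.ofReal_mul, ← mul_assoc, ← mul_pow,
    show t * log d⁻¹ = log D⁻¹ by rw [l2, ht]; ring] at a4
  rw [← hN]
  refine a4.trans ?_
  have a5 : 2 * (N * Q) ≤ r * η := (div_le_iff₀ η0).1 (by linarith)
  have a6 := mul_le_mul_of_nonneg_left a5 t1
  have a7 := mul_le_mul_of_nonneg_right t2 η0.le
  linarith

end Pool.Agent.Lib.MP_7f377f_mp.Cm
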