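import Pool.Agent.Lib.MP_7f377f_mp.G.CmY
import Pool.Agent.Lib.MP_7f377f_mp.G.CmF
import Pool.Agent.Lib.MP_7f377f_mp.G.SmeD
import Pool.Agent.Lib.MP_7f377f_mp.Lb9

/-! The two scale law for the composite fields. -/

noncomputable section

namespace Pool.Agent.Lib.MP_7f377f_mp.Cm
variable [Pool.Agent.Lib.MP_7f377f_mp.GD]
set_option linter.unusedSectionVars false

open MeasureTheory Filter Topology Set Real YM7 Pur MvPolynomial Lg
open Ope (Let gp sc ctr)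
open Ro (Iso act)
open Wm (C1)
open Lb (Lab Pl Cl rho mx ip pc frL freeL Sep)
open RG.Q4.En.Ty (Gn Ty sb Det)
open scoped NNReal

section grid

variable {k : ℕ} {c : ℝ}

theorem fin_grid {E : Type} [Zero E] {Φ : (Fin k → R4) → E} (hs : HasCompactSupport Φ) (c0 : 0 < c)
    (e : ℕ) : {z : Fin k → Fin 4 → ℤ | Φ (fun i => c • gp e (z i)) ≠ 0}.Finite := by
  obtain ⟨R, hR⟩ := hs.isCompact.isBounded.exists_norm_le
  refine (Finite.pi' fun _ => Finite.pi' fun _ => finite_Icc (-⌈R * 3 ^ e / c⌉) ⌈R * 3 ^ e / c⌉).subset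
    fun z hz i l => ?_
  have h1 := (PiLp.norm_apply_le _ l).trans ((norm_le_pi_norm _ i).trans (hR _ (subset_tsupport _ hz)))
  simp only [gp, PiLp.smul_apply, smul_eq_mul, norm_mul, Real.norm_eq_abs, abs_of_pos c0, abs_inv,
    abs_pow, Nat.abs_ofNat] at h1
  rw [mem_Icc, ← abs_le, ← Int.cast_le (R := ℝ), Int.cast_abs]
  refine le_trans ?_ (Int.le_ceil _)
  rw [le_div_iff₀ c0, ← div_le_iff₀ (by positivity)]
  linarith [div_eq_mul_inv (|(z i l : ℝ)| * c) (3 ^ e)]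

/-- Riemann sums of continuous functions -/
theorem riem_fin {Φ : (Fin k → R4) → ℝ} (hc : Continuous Φ) (hs : HasCompactSupport Φ) (c0 : 0 < c)
    {s : ℕ → Finset (Fin k → Fin 4 → ℤ)} (h : ∀ e z, Φ (fun i => c • gp e (z i)) ≠ 0 → z ∈ s e) :
    Tendsto (fun e => ∑ z ∈ s e, (c * (3 ^ e)⁻¹) ^ (4 * k) * Φ fun i => c • gp e (z i)) atTop
      (𝓝 (∫ y, Φ y)) := by
  obtain ⟨R, hR⟩ := hs.isCompact.isBounded.exists_norm_le
  have h1 := (YM5.riemann (fun ε z => Φ fun i => YM5.pt ε (z i)) Φ R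
    (fun y ε z _ _ hz => (hc.tendsto y).comp (tendsto_pi_nhds.2 fun i => YM5.pt_tendsto (hz i)))
    fun ε z _ hz i l => (PiLp.norm_apply_le (YM5.pt ε (z i)) l).trans
      ((norm_le_pi_norm (fun i => YM5.pt ε (z i)) i).trans (hR _ (subset_tsupport _ hz)))).1
  have h2 : Tendsto (fun e : ℕ => c * ((3 : ℝ) ^ e)⁻¹) atTop (𝓝[>] 0) :=
    tendsto_nhdsWithin_iff.2 ⟨by
      simpa using (tendsto_inv_atTop_zero.comp
        (tendsto_pow_atTop_atTop_of_one_lt (by norm_num : (1 : ℝ) < 3))).const_mul c,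
      .of_forall fun e => by simp only [mem_Ioi]; positivity⟩
  refine (h1.comp h2).congr fun e => ?_
  have e1 : ∀ x, YM5.pt (c * (3 ^ e)⁻¹) x = c • gp e x := fun x => by
    ext l
    simp [YM5.pt, gp, mul_assoc]
  simp only [Function.comp, e1, ← Finset.mul_sum]
  rw [tsum_eq_sum fun z hz => not_not.1 (mt (h e z) hz)]

end grid

/-- the centring as a linear map -/
def ctl (S : Pol →ₗ[ℂ] ℂ) : Pol →ₗ[ℂ] Pol := LinearMap.id - Algebra.linearMap ℂ Pol ∘ₗ S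

theorem ctl_apply (S : Pol →ₗ[ℂ] ℂ) (A : Pol) : ctl S A = ctr S A := rfl

theorem sum_est {S : Pol →ₗ[ℂ] ℂ} {k : ℕ} {I : Fin k → Type} (s : ∀ i, Finset (I i))
    (w : ∀ i, I i → ℝ) (Z : ∀ i, I i → Pol) (c : ℂ) (v : (∀ i, I i) → ℝ) {η : ℝ}
    (h : ∀ p : ∀ i, I i, (∀ i, w i (p i) ≠ 0) → ‖c * S (∏ i, Z i (p i)) - v p‖ ≤ η) :
    ‖c * S (∏ i, ∑ p ∈ s i, (w i p : ℂ) • Z i p) -
      (∑ p ∈ Fintype.piFinset s, (∏ i, w i (p i)) * v p : ℝ)‖ ≤
        η * ∑ p ∈ Fintype.piFinset s, |∏ i, w i (p i)| := by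
  rw [Finset.prod_univ_sum, map_sum, Finset.mul_sum, Finset.mul_sum, Complex.ofReal_sum,
    ← Finset.sum_sub_distrib]
  refine (norm_sum_le _ _).trans (Finset.sum_le_sum fun p _ => ?_)
  rw [Finset.prod_smul, map_smul, ← Complex.ofReal_prod, smul_eq_mul, mul_left_comm,
    Complex.ofReal_mul, ← mul_sub, norm_mul, Complex.norm_real, Real.norm_eq_abs, mul_comm]
  rcases eq_or_ne (∏ i, w i (p i)) 0 with e | e
  · simp [e]
  · exact mul_le_mul_of_nonneg_right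
      (h p fun i => Finset.prod_ne_zero_iff.1 e i (Finset.mem_univ i)) (abs_nonneg _)

section scale

variable {m : ℕ} {Λ δ Λ' δ' t w : ℝ} {u : Fin m → R4 → ℝ}

theorem Tw.sc (h : Tw Λ δ u) (ht : t ∈ Icc (4⁻¹ : ℝ) 1) (h1 : 4 * Λ ≤ Λ') (h2 : 0 < δ')
    (h3 : δ' ≤ δ / 4) : Tw Λ' δ' fun i => sc t (u i) := by
  obtain ⟨a, b, c⟩ := h
  have t0 : 0 < t := lt_of_lt_of_le (by norm_num) ht.1
  have L := b.one
  have e : ∀ y z : R4, ∀ l, |y l - z l| = t * |(t⁻¹ • y) l - (t⁻¹ • z) l| := fun y z l => by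
    simp only [PiLp.smul_apply, smul_eq_mul, ← mul_sub, abs_mul, abs_inv, abs_of_pos t0,
      mul_inv_cancel_left₀ t0.ne']
  refine ⟨a.smul (inv_ne_zero t0.ne'), ⟨by linarith, h2, fun i y hy l => ?_,
    fun i y => (b.bd i _).trans (by linarith), fun i y z => (b.lip i _ _).trans ?_,
    fun i j ij y z hy hz => ?_⟩, fun i y z hy hz l => ?_⟩
  · have := e y 0 l
    simp only [smul_zero, PiLp.zero_apply, sub_zero] at this
    have h4 := b.cube i _ hy l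
    nlinarith [ht.2, abs_nonneg ((t⁻¹ • y) l)]
  · rw [dist_smul₀, Real.norm_eq_abs, abs_of_pos (inv_pos.2 t0), ← mul_assoc]
    refine mul_le_mul_of_nonneg_right (le_trans ?_ h1) dist_nonneg
    have : t⁻¹ ≤ 4 := inv_le_of_inv_le₀ (by norm_num) ht.1
    nlinarith
  · obtain ⟨l, hl⟩ := b.sep i j ij _ _ hy hz
    refine ⟨l, ?_⟩
    rw [e]
    nlinarith [ht.1, b.pos]
  · rw [e]
    nlinarith [ht.2, c i _ _ hy hz l, abs_nonneg ((t⁻¹ • y) l - (t⁻¹ • z) l)]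

theorem Bu_sc (hm : 1 ≤ m) (t0 : 0 < t) : Bu w (fun i => sc t (u i)) = t ^ 4 • Bu w u := by
  ext α β
  have h1 := Measure.integral_comp_inv_smul volume
    (fun x : Fin m → R4 => (∏ i, u i (x i)) * Lb.B w (fun i => t • x i) α β) t
  simp only [Pi.smul_apply, smul_inv_smul₀ t0.ne', Lb.B_smul, Matrix.smul_apply, smul_eq_mul,
    mul_left_comm _ ((t ^ 4)⁻¹ ^ _), integral_const_mul] at h1
  simp only [Bu, Matrix.of_apply, Matrix.smul_apply, smul_eq_mul, sc, h1]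
  obtain ⟨m, rfl⟩ := Nat.exists_eq_add_of_le' hm
  rw [← mul_assoc, abs_of_pos (pow_pos t0 _), Module.finrank_pi_fintype]
  congr 1
  simp only [finrank_euclideanSpace, Fintype.card_fin, Finset.sum_const, Finset.card_univ,
    smul_eq_mul, Nat.add_sub_cancel, inv_pow]
  field_simp
  ring

theorem sh_sc {d : ℝ} (z : R4) : sh d z (mon fun i => sc t (u i)) = sh (t * d) z (mon u) := by
  simp only [sh, mon, map_prod, rename_X, sc, smul_smul, mul_inv]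

theorem norm_cube {y : R4} (h : ∀ l, |y l| ≤ Λ) : ‖y‖ ≤ 2 * Λ := by
  have L : 0 ≤ Λ := (abs_nonneg _).trans (h 0)
  rw [EuclideanSpace.norm_eq, sqrt_le_left (by positivity), Fin.sum_univ_four]
  simp only [Real.norm_eq_abs]
  nlinarith [h 0, h 1, h 2, h 3, abs_nonneg (y 0), abs_nonneg (y 1), abs_nonneg (y 2),
    abs_nonneg (y 3)]

theorem sep_of (h : YM7.Tf u Λ δ) {x : Fin m → R4} (hx : ∏ i, u i (x i) ≠ 0) :
    Sep δ (2 * Λ) x := by
  have h1 := fun i => Finset.prod_ne_zero_iff.1 hx i (Finset.mem_univ i)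
  refine ⟨fun i => norm_cube (h.cube i _ (h1 i)), fun i j ij => ?_⟩
  obtain ⟨l, hl⟩ := h.sep i j ij _ _ (h1 i) (h1 j)
  exact hl.trans (PiLp.norm_apply_le (x i - x j) l)

end scale

variable {S : Pol →ₗ[ℂ] ℂ} {Λ δ w : ℝ} {h : R4 → ℝ} {ω : ∀ l : Cl, (Fin l.m → R4) → Lab ℝ}
  {W : ℝ → ℝ → Prop}

/-- the normalised centred letter at one point -/
def Lt (S : Pol →ₗ[ℂ] ℂ) (D d : ℝ) (ζ : R4) : Pol →ₗ[ℂ] Pol :=
  (((D / d) ^ 4 : ℝ) : ℂ) • ctl S ∘ₗ (sh d (D • ζ)).toLinearMap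

/-- the two scale law with different scales -/
theorem tsc_var (T : Tsc S W) (hW : ∀ M, ∀ᶠ D in 𝓝[>] (0 : ℝ), ∀ r, W D r → M ≤ r) {k : ℕ}
    {m : Fin k → ℕ} (hm : ∀ s, 1 ≤ m s) (Λ δ M : ℝ) {δ₁ η : ℝ} (δ0 : 0 < δ₁) (η0 : 0 < η) :
    ∀ᶠ D in 𝓝[>] (0 : ℝ), ∀ r, W D r → ∀ d : Fin k → ℝ, (∀ i, d i ∈ Icc (D / (4 * r)) (D / r)) →
      ∀ ζ : Fin k → R4, Sep δ₁ M ζ → ∀ u : ∀ s, Fin (m s) → R4 → ℝ, (∀ s, Tw Λ δ (u s)) →
        ‖((log D⁻¹ ^ ∑ s, m s : ℝ) : ℂ) * S (∏ s, Lt S D (d s) (ζ s) (mon (u s))) -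
          ((gm ^ (∑ s, m s) * frL (GD.d / 2) (fun s => Bu (GD.d / 2) (u s)) ζ : ℝ) : ℂ)‖ ≤ η := by
  filter_upwards [T k m (max (4 * Λ) M) (min (δ / 4) δ₁) hm (η / (4 ^ 4) ^ k) (by positivity), hW 1,
    self_mem_nhdsWithin] with D hD h1 (D0 : 0 < D) r hr d hd ζ hζ u hu
  have r0 : 0 < r := one_pos.trans_le (h1 r hr)
  have d0 : 0 < D / r := by positivity
  have ht : ∀ s, d s / (D / r) ∈ Icc (4⁻¹ : ℝ) 1 := fun s =>
    ⟨(le_div_iff₀ d0).2 (le_trans (le_of_eq (by field_simp)) (hd s).1), (div_le_one d0).2 (hd s).2⟩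
  have t0 : ∀ s, 0 < d s / (D / r) := fun s => lt_of_lt_of_le (by norm_num) (ht s).1
  have h2 := hD r hr (D / r) ⟨div_le_div_of_nonneg_left D0.le r0 (by linarith), le_rfl⟩ ζ
    ⟨fun i => (hζ.1 i).trans (le_max_right _ _), fun i j e => (min_le_right _ _).trans (hζ.2 i j e)⟩
    (fun s i => sc (d s / (D / r)) (u s i)) fun s => (hu s).sc (ht s) (le_max_left _ _)
      (lt_min (by linarith [(hu s).2.1.pos]) δ0) (min_le_left _ _)
  simp only [sh_sc, div_mul_cancel₀ _ d0.ne', fun s => Bu_sc (w := GD.d / 2) (u := u s) (hm s) (t0 s),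
    ← Lb.frM_apply, MultilinearMap.map_smul_univ, smul_eq_mul] at h2
  set P := ∏ s, (d s / (D / r)) ^ 4
  have P0 : 0 < P := Finset.prod_pos fun s _ => pow_pos (t0 s) _
  have P1 : ((4 ^ 4) ^ k)⁻¹ ≤ P := by
    have := Finset.prod_le_prod (s := Finset.univ) (f := fun _ : Fin k => ((4 : ℝ) ^ 4)⁻¹)
      (g := fun s => (d s / (D / r)) ^ 4) (fun _ _ => by positivity) fun s _ => by
        rw [← inv_pow]
        exact pow_le_pow_left₀ (by norm_num) (ht s).1 _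
    simpa using this
  have e : (D / (D / r)) ^ (4 * k) = P * ∏ s, (D / d s) ^ 4 := by
    have : ∀ s, (d s / (D / r)) ^ 4 * (D / d s) ^ 4 = (D / (D / r)) ^ 4 := fun s => by
      have : d s ≠ 0 := fun e => by simpa [e] using t0 s
      field_simp
    simp only [P, ← Finset.prod_mul_distrib, this, Finset.prod_const, Finset.card_univ,
      Fintype.card_fin, pow_mul]
  rw [e, mul_left_comm, mul_left_comm (gm ^ _), Complex.ofReal_mul P, Complex.ofReal_mul P,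
    mul_assoc, ← mul_sub, norm_mul, Complex.norm_real, Real.norm_of_nonneg P0.le] at h2
  simp only [Lt, LinearMap.smul_apply, LinearMap.comp_apply, AlgHom.toLinearMap_apply, ctl_apply,
    Finset.prod_smul, map_smul, smul_eq_mul, ← Complex.ofReal_prod, ← mul_assoc,
    ← Complex.ofReal_mul, ← Lb.frM_apply]
  refine le_of_mul_le_mul_left (h2.trans ?_) P0
  rw [div_eq_inv_mul]
  exact mul_le_mul_of_nonneg_right P1 η0.le

theorem Dat.bu_cont (H : Dat w h ω Λ δ) (l : Cl) (α β : Pl) :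
    ContinuousOn (fun y => Bu w (hy h y) α β) (tsupport (ω l)) := by
  have h1 : ∀ y ∈ tsupport (ω l), ∀ x, ¬Sep δ (2 * Λ) x →
      (∏ i, hy h y i (x i)) * Lb.B w x α β = 0 := fun y hy x hx => by
    rw [not_not.1 (mt (sep_of (H.tw l y hy).2.1) hx), zero_mul]
  refine continuousOn_integral_of_compact_support (Lb.sep_cpt δ (2 * Λ)) (fun p hp => ?_)
    fun y x hy => h1 y hy x
  by_cases e : Sep δ (2 * Λ) p.2
  · have hc := H.dif.continuous
    refine (ContinuousAt.mul (Continuous.continuousAt ?_) ((Lb.B_cont' α β p.2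
      (e.inj (H.tw l _ hp.1).2.1.pos)).comp continuousAt_snd)).continuousWithinAt
    unfold hy
    fun_prop
  · refine (continuousWithinAt_const (b := 0)).congr_of_eventuallyEq ?_ (h1 _ hp.1 _ e)
    filter_upwards [self_mem_nhdsWithin, mem_nhdsWithin_of_mem_nhds (continuous_snd.continuousAt
      ((Lb.sep_cpt δ (2 * Λ)).isClosed.isOpen_compl.mem_nhds e))] with q h2 h3
    exact h1 _ h2.1 _ h3

theorem Dat.ip_cont (H : Dat w h ω Λ δ) (l : Cl) (a : Lab ℝ) : Continuous fun y => ip a (ω l y) := by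
  have := H.cont l
  unfold ip
  fun_prop

theorem ip_ne {a b : Lab ℝ} (h : ip a b ≠ 0) : b ≠ 0 := fun e => h (by simp [e, ip])

theorem Dat.ip_cpt (H : Dat w h ω Λ δ) (l : Cl) (a : Lab ℝ) :
    HasCompactSupport fun y => ip a (ω l y) := (H.cpt l).mono fun _ hy => ip_ne hy

theorem Dat.ipbu_cont (H : Dat w h ω Λ δ) (l : Cl) (a : Lab ℝ) (α β : Pl) :
    Continuous fun y => ip a (ω l y) * Bu w (hy h y) α β := by
  have hz : IsClosed {y | ω l y = 0} := isClosed_eq (H.cont l) continuous_const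
  have := ((H.ip_cont l a).continuousOn.mul (H.bu_cont l α β)).union_of_isClosed
    ((continuousOn_const (c := 0)).congr (s := {y | ω l y = 0}) fun y hy => by
      simp [show ω l y = 0 from hy, ip]) (isClosed_tsupport _) hz
  exact continuousOn_univ.1 (this.mono fun y _ => or_iff_not_imp_right.2 (subset_tsupport _ ·))

theorem Dat.ex_grid (H : Dat w h ω Λ δ) (l : Cl) : ∃ s : ℕ → Finset (Fin l.m → Fin 4 → ℤ),
    ∀ e y, ω l (fun i => gp e (y i)) ≠ 0 → y ∈ s e :=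
  ⟨fun e => (fin_grid (H.cpt l) one_pos e).toFinset, fun e y hy => by simpa using hy⟩

variable (ω) in
/-- the weights of the covariant word -/
def wy (l : Cl) (a : Lab ℝ) (e : ℕ) (y : Fin l.m → Fin 4 → ℤ) : ℝ :=
  (3 ^ e)⁻¹ ^ (4 * l.m) * ip a (ω l fun i => gp e (y i))

theorem Zc_wy {l : Cl} {e : ℕ} {s : Finset (Fin l.m → Fin 4 → ℤ)}
    (hs : ∀ y, ω l (fun i => gp e (y i)) ≠ 0 → y ∈ s) (a : Lab ℝ) : Zc h ω l e (cx a) =
      ∑ y ∈ s, (wy ω l a e y : ℂ) • mon (hy h fun i => gp e (y i)) := by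
  rw [Zc, finsum_eq_sum_of_support_subset (s := s) _ fun y hy => hs y fun e => hy (by simp [e, ip])]
  exact Finset.sum_congr rfl fun y _ => by simp [wy, ip, cx]

theorem Yc_eq {l : Cl} {D d : ℝ} {e : ℕ} {f : R4 → ℝ} {s : Finset (Fin 4 → ℤ)} (D0 : D ≠ 0)
    (d0 : d ≠ 0) (hs : ∀ x, f (D⁻¹ • gp e x) ≠ 0 → x ∈ s) (c : Lab ℂ) :
    Yc h ω S l d e c (sc D f) = ∑ x ∈ s, (((D⁻¹ * (3 ^ e)⁻¹) ^ 4 * f (D⁻¹ • gp e x) : ℝ) : ℂ) •
      Lt S D d (D⁻¹ • gp e x) (Zc h ω l e c) := by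
  rw [Yc, Yl_eq (s := s) hs, ← ctl_apply, map_sum]
  refine Finset.sum_congr rfl fun x _ => ?_
  simp only [Lt, LinearMap.smul_apply, LinearMap.comp_apply, AlgHom.toLinearMap_apply, map_smul,
    smul_smul, mul_inv_cancel₀ D0, one_smul, ← Complex.ofReal_mul, sc]
  congr 2
  field_simp

theorem Cl_m (l : Cl) : 1 ≤ l.m := by cases l <;> simp [Cl.m]

variable (h ω) in
/-- the label of the covariant word -/
def Ae (w : ℝ) (l : Cl) (a : Lab ℝ) (e : ℕ) (s : Finset (Fin l.m → Fin 4 → ℤ)) : Lab ℝ :=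
  ∑ y ∈ s, wy ω l a e y • Bu w (hy h fun j => gp e (y j))

section words

variable (H : Dat w h ω Λ δ) {l : Cl} {s : ℕ → Finset (Fin l.m → Fin 4 → ℤ)}
  (hs : ∀ e y, ω l (fun i => gp e (y i)) ≠ 0 → y ∈ s e) (a : Lab ℝ)
include H hs

theorem wy_lim : Tendsto (fun e => ∑ y ∈ s e, |wy ω l a e y|) atTop (𝓝 (∫ y, |ip a (ω l y)|)) := by
  refine (riem_fin (H.ip_cont l a).abs (H.ip_cpt l a).abs one_pos (s := s) fun e z hz =>
    hs e z (by simpa using ip_ne (abs_ne_zero.1 hz))).congr fun e => ?_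
  simp [wy, abs_mul]

theorem Ae_lim (α β : Pl) : Tendsto (fun e => Ae h ω w l a e (s e) α β) atTop (𝓝 (pc l a α β)) := by
  rw [← H.one]
  refine (riem_fin (H.ipbu_cont l a α β) (H.ip_cpt l a).mul_right one_pos (s := s) fun e z hz =>
    hs e z (by simpa using ip_ne (left_ne_zero_of_mul hz))).congr fun e => ?_
  simp [Ae, wy, Matrix.sum_apply, mul_assoc]

end words

theorem st_one (H : Dat w h ω Λ δ) {k : ℕ} {l : Fin k → Cl} {e : ℕ}
    {s : ∀ i, Finset (Fin (l i).m → Fin 4 → ℤ)}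
    (hs : ∀ i y, ω (l i) (fun j => gp e (y j)) ≠ 0 → y ∈ s i) (a : Fin k → Lab ℝ)
    {L : Fin k → Pol →ₗ[ℂ] Pol} {c : ℂ} {g η : ℝ} {ζ : Fin k → R4}
    (hL : ∀ u : ∀ i, Fin (l i).m → R4 → ℝ, (∀ i, Tw Λ δ (u i)) →
      ‖c * S (∏ i, L i (mon (u i))) - (g * frL w (fun i => Bu w (u i)) ζ : ℝ)‖ ≤ η) :
    ‖c * S (∏ i, L i (Zc h ω (l i) e (cx (a i)))) -
      (g * frL w (fun i => Ae h ω w (l i) (a i) e (s i)) ζ : ℝ)‖ ≤
        η * ∏ i, ∑ y ∈ s i, |wy ω (l i) (a i) e y| := by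
  have s1 := sum_est (S := S) s (fun i => wy ω (l i) (a i) e)
    (fun i y => L i (mon (hy h fun j => gp e (y j)))) c
    (fun y => g * frL w (fun i => Bu w (hy h fun j => gp e (y i j))) ζ)
    fun y hy => hL _ fun i => H.tw _ _ (subset_tsupport _ (ip_ne (right_ne_zero_of_mul (hy i))))
  simp only [Finset.abs_prod] at s1
  rw [← Finset.prod_univ_sum s fun i y => |wy ω (l i) (a i) e y|] at s1
  simpa only [fun i => Zc_wy (h := h) (hs i), map_sum, map_smul, Ae, ← Lb.frM_apply,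
    MultilinearMap.map_sum_finset, MultilinearMap.map_smul_univ, smul_eq_mul, Finset.mul_sum,
    mul_left_comm g] using s1

section slots

variable {k : ℕ} {f : Fin k → R4 → ℝ} (hf : Adm f) {c : ℝ} (c0 : 0 < c)
  {s : ℕ → Fin k → Finset (Fin 4 → ℤ)} (hs : ∀ e i x, f i (c • gp e x) ≠ 0 → x ∈ s e i)

theorem ep (c : ℝ) (v : Fin k → ℝ) : ∏ i, c ^ 4 * v i = c ^ (4 * k) * ∏ i, v i := by
  simp only [Finset.prod_mul_distrib, Finset.prod_const, Finset.card_univ, Fintype.card_fin, pow_mul]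

include hf

theorem wt_f : Lb.Wt fun y : Fin k → R4 => ∏ i, f i (y i) :=
  Lb.wt_prod (fun i => (hf.1 i).1) (fun i => (hf.1 i).2.continuous) hf.2

theorem wt_fr (a : Fin k → Lab ℝ) : Lb.Wt fun y : Fin k → R4 => (∏ i, f i (y i)) * frL w a y :=
  (wt_f hf).mul fun _ hy => (Lb.frL_cont (c := a) hy).comp_of_eq (f := fun y => (a, y))
    (continuousAt_const.prodMk continuousAt_id) rfl

include c0 hs

theorem f_lim : Tendsto (fun e => ∑ z ∈ Fintype.piFinset (s e),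
    |∏ i, (c * (3 ^ e)⁻¹) ^ 4 * f i (c • gp e (z i))|) atTop
      (𝓝 (∫ y : Fin k → R4, |∏ i, f i (y i)|)) := by
  refine (riem_fin (wt_f hf).cont.abs (wt_f hf).cpt.abs c0 fun e z hz => Fintype.mem_piFinset.2
    fun i => hs e i _ (Finset.prod_ne_zero_iff.1 (abs_ne_zero.1 hz) i (Finset.mem_univ i))).congr
      fun e => Finset.sum_congr rfl fun z _ => ?_
  rw [ep, abs_mul, abs_of_pos (a := _ ^ _) (by positivity)]

theorem fr_lim {A : ℕ → Fin k → Lab ℝ} {a : Fin k → Lab ℝ}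
    (hA : ∀ i α β, Tendsto (fun e => A e i α β) atTop (𝓝 (a i α β))) (g : ℝ) :
    Tendsto (fun e => ∑ z ∈ Fintype.piFinset (s e),
      (∏ i, (c * (3 ^ e)⁻¹) ^ 4 * f i (c • gp e (z i))) * (g * frL w (A e) fun i => c • gp e (z i)))
      atTop (𝓝 (g * ∫ y : Fin k → R4, (∏ i, f i (y i)) * frL w a y)) := by
  have h1 := (tendsto_finsetSum Finset.univ fun (b : Fin k → Pl × Pl) _ =>
    (tendsto_finsetProd Finset.univ fun i _ => hA i (b i).1 (b i).2).mul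
      (riem_fin (wt_fr (w := w) hf fun i => Matrix.single (b i).1 (b i).2 1).cont (wt_fr hf _).cpt c0
        fun e z hz => Fintype.mem_piFinset.2 fun i => hs e i _ (Finset.prod_ne_zero_iff.1
          (left_ne_zero_of_mul hz) i (Finset.mem_univ i)))).const_mul g
  convert h1 using 2 with e
  · simp only [Lb.frL_basis (A e), Finset.mul_sum, ep]
    exact Finset.sum_comm.trans (Finset.sum_congr rfl fun b _ => Finset.sum_congr rfl fun z _ => by
      ring)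
  · simp only [← integral_const_mul]
    rw [← integral_finset_sum _ fun b _ => (wt_fr hf _).int.const_mul _, integral_const_mul]
    simp only [Lb.frL_basis a, Finset.mul_sum, mul_left_comm]

end slots

theorem ts_sm {S : Pol →ₗ[ℂ] ℂ} {Λ δ : ℝ} {h : R4 → ℝ} {ω : ∀ l : Cl, (Fin l.m → R4) → Lab ℝ}
    {W : ℝ → ℝ → Prop} (H : Dat (GD.d / 2) h ω Λ δ) (T : Tsc S W)
    (hW : ∀ M, ∀ᶠ D in 𝓝[>] (0 : ℝ), ∀ r, W D r → M ≤ r) {k : ℕ}
    (l : Fin k → Cl) (a : Fin k → Lab ℝ) {f : Fin k → R4 → ℝ} (hf : Adm f) {η : ℝ} (η0 : 0 < η) :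
    ∀ᶠ D in 𝓝[>] (0 : ℝ), ∀ r, W D r → ∀ d : Fin k → ℝ, (∀ i, d i ∈ Icc (D / (4 * r)) (D / r)) →
      ∀ᶠ e in atTop, ‖((log D⁻¹ ^ ∑ i, (l i).m : ℝ) : ℂ) *
        S (∏ i, Yc h ω S (l i) (d i) e (cx (a i)) (sc D (f i))) -
          ((gm ^ ∑ i, (l i).m : ℝ) : ℂ) * frI (fun i => cx (pc (l i) (a i))) f‖ ≤ η := by
  obtain ⟨Λf, δf, tf⟩ := hf.tf
  choose sy hsy using H.ex_grid
  obtain ⟨C₁, C1p, b1⟩ : ∃ C > (0 : ℝ), ∀ᶠ e in atTop,
      ∏ i, ∑ y ∈ sy (l i) e, |wy ω (l i) (a i) e y| ≤ C :=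
    ⟨_, add_pos_of_nonneg_of_pos (Finset.prod_nonneg fun i _ => integral_nonneg fun _ =>
      abs_nonneg _) one_pos, (tendsto_finsetProd _ fun i _ =>
        wy_lim H (hsy (l i)) (a i)).eventually_le_const (lt_add_one _)⟩
  obtain ⟨C₂, e2⟩ : ∃ C, C = ∫ y : Fin k → R4, |∏ i, f i (y i)| := ⟨_, rfl⟩
  have C2p : 0 < C₂ + 1 :=
    add_pos_of_nonneg_of_pos (e2 ▸ integral_nonneg fun _ => abs_nonneg _) one_pos
  have η1 : 0 < η / 2 / (C₂ + 1) := by positivity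
  filter_upwards [tsc_var T hW (fun i => Cl_m (l i)) Λ δ (2 * Λf) tf.pos (div_pos η1 C1p), hW 1,
    self_mem_nhdsWithin] with D hD h1 (D0 : 0 < D) r hr d hd
  have r0 : 0 < r := one_pos.trans_le (h1 r hr)
  have d0 : ∀ i, 0 < d i := fun i => lt_of_lt_of_le (by positivity) (hd i).1
  obtain ⟨sx, hsx⟩ : ∃ s : ℕ → Fin k → Finset (Fin 4 → ℤ),
      ∀ e i x, f i (D⁻¹ • gp e x) ≠ 0 → x ∈ s e i :=
    ⟨fun e i => (fin_gp ((hf.smul (inv_ne_zero D0.ne')).1 i).1 e).toFinset,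
      fun e i x hx => by simpa using hx⟩
  filter_upwards [b1, (f_lim hf (inv_pos.2 D0) hsx).eventually_le_const (e2.symm.trans_lt (lt_add_one C₂)),
    Metric.tendsto_nhds.1 (fr_lim (w := GD.d / 2) hf (inv_pos.2 D0) hsx
      (fun i => Ae_lim H (hsy (l i)) (a i)) (gm ^ ∑ i, (l i).m)) _ (half_pos η0)] with e c1 c2 c3
  have s2 := sum_est (S := S) (sx e) (fun i x => (D⁻¹ * (3 ^ e)⁻¹) ^ 4 * f i (D⁻¹ • gp e x))
    (fun i x => Lt S D (d i) (D⁻¹ • gp e x) (Zc h ω (l i) e (cx (a i)))) _ _ fun z hz =>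
      (st_one H (fun i => hsy (l i) e) a (hD r hr d hd _ (sep_of tf (Finset.prod_ne_zero_iff.2
        fun i _ => right_ne_zero_of_mul (hz i))))).trans
          ((mul_le_mul_of_nonneg_left c1 (div_pos η1 C1p).le).trans (div_mul_cancel₀ _ C1p.ne').le)
  have s3 := (s2.trans (mul_le_mul_of_nonneg_left c2 η1.le)).trans (div_mul_cancel₀ _ C2p.ne').le
  have e1 : frI (fun i => cx (pc (l i) (a i))) f = (∫ y : Fin k → R4,
      (∏ i, f i (y i)) * frL (GD.d / 2) (fun i => pc (l i) (a i)) y : ℝ) := by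
    simp only [frI, cx, Lb.freeL_map, ← Complex.ofReal_mul]
    exact integral_ofReal
  simp only [fun i => Yc_eq (S := S) (h := h) (ω := ω) (l := l i) D0.ne' (d0 i).ne' (hsx e i)]
  rw [e1, ← Complex.ofReal_mul (gm ^ _)]
  refine (norm_sub_le_norm_sub_add_norm_sub _ _ _).trans ((add_le_add s3 ?_).trans
    (add_halves η).le)
  rw [← Complex.ofReal_sub, Complex.norm_real]
  exact c3.le

end Pool.Agent.Lib.MP_7f377f_mp.Cm
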