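import Pool.Agent.Lib.MP_7f377f_mp.G.CmU1

/-! Composite fields: Riemann sums. -/

noncomputable section

namespace Pool.Agent.Lib.MP_7f377f_mp.Cm
variable [Pool.Agent.Lib.MP_7f377f_mp.GD]
set_option linter.unusedSectionVars false

open MeasureTheory Filter Topology Set Real YM7 Pur MvPolynomial Lg
open Ope (Let gp sc ctr)
open Ro (Iso act)
open Wm (C1)
open Lb (Lab Pl Cl rho mx ip pc frL freeL Sep)
open RG.Q4.En.Ty (Gn Ty sb Det)
open scoped NNReal

/-- the weights -/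
def Wt (ω : ∀ l : Cl, (Fin l.m → R4) → Lab ℝ) (l : Cl) (d : ℝ) (c : Lab ℂ) (f : R4 → ℝ)
    (p : Option (Fin l.m) → R4) : ℂ :=
  ((d⁻¹ ^ 4 * f (p none) : ℝ) : ℂ) * ip c ((ω l fun i => p (some i)).map (↑))

/-- the centres -/
def Ct {m : ℕ} (d : ℝ) (p : Option (Fin m) → R4) (i : Fin m) : R4 := p none + d • p (some i)

/-- the weighted clusters -/
def Gc (h : R4 → ℝ) (ω : ∀ l : Cl, (Fin l.m → R4) → Lab ℝ) (l : Cl) (d : ℝ) (c : Lab ℂ)
    (f : R4 → ℝ) (p : Option (Fin l.m) → R4) : Pol :=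
  Wt ω l d c f p • mon fun i t => h (d⁻¹ • (t - Ct d p i))

/-- the domain of the weights -/
def Kc (ω : ∀ l : Cl, (Fin l.m → R4) → Lab ℝ) (l : Cl) (f : R4 → ℝ) :
    Set (Option (Fin l.m) → R4) :=
  {p | p none ∈ tsupport f ∧ (fun i => p (some i)) ∈ tsupport (ω l)}

/-- motions of configurations -/
def Mo {ι : Type} (R : Iso) (v : ι → R4) : (ι → R4) ≃ᵐ (ι → R4) :=
  .piCongrRight fun i => (R.toHomeomorph.trans (Homeomorph.addRight (v i))).toMeasurableEquiv

section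
variable {ι ι' : Type} [Fintype ι] [Fintype ι'] (R : Iso) (v : ι → R4)

theorem Mo_apply (p : ι → R4) (i : ι) : Mo R v p i = R (p i) + v i := rfl

theorem Mo_iso : Isometry (Mo R v) := Isometry.of_dist_eq fun x y => by
  simp only [dist_pi_def, Mo_apply, nndist_add_right, R.isometry.nndist_eq]

theorem Mo_mp : MeasurePreserving (Mo R v) := volume_preserving_pi fun i =>
  (measurePreserving_add_right volume (v i)).comp R.measurePreserving

theorem Rm_mul {G : (ι → R4) → Pol} {G' : (ι' → R4) → Pol} {L L' : ℝ} (e : ℕ)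
    (hL : ∀ y, G y ≠ 0 → ‖y‖ ≤ L) (hL' : ∀ y, G' y ≠ 0 → ‖y‖ ≤ L') : Rm e G * Rm e G' =
      Rm e fun p : ι ⊕ ι' → R4 => G (fun i => p (.inl i)) * G' fun i => p (.inr i) := by
  rw [Rm_eq (s := (fin_gq e L).toFinset) fun z hz => (Finite.mem_toFinset _).2 (hL _ hz),
    Rm_eq (s := (fin_gq e L').toFinset) fun z hz => (Finite.mem_toFinset _).2 (hL' _ hz),
    Rm_eq (s := ((fin_gq e L).toFinset ×ˢ (fin_gq e L').toFinset).map
      (Equiv.sumArrowEquivProdArrow ι ι' (Fin 4 → ℤ)).symm.toEmbedding) fun z hz =>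
      Finset.mem_map_equiv.2 (Finset.mem_product.2
        ⟨(Finite.mem_toFinset _).2 (hL _ (left_ne_zero_of_mul hz)),
          (Finite.mem_toFinset _).2 (hL' _ (right_ne_zero_of_mul hz))⟩),
    Finset.sum_map, Finset.sum_product, Finset.sum_mul_sum]
  refine Finset.sum_congr rfl fun x _ => Finset.sum_congr rfl fun y _ => ?_
  rw [smul_mul_smul_comm, Fintype.card_sum, mul_add, pow_add, Complex.ofReal_mul]
  rfl

end

theorem Tw.ts {m : ℕ} {Λ δ : ℝ} {u : Fin m → R4 → ℝ} (h : Tw Λ δ u) :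
    (∀ i, ∀ s ∈ tsupport (u i), ∀ l, |s l| ≤ Λ) ∧
      ∀ i j, i ≠ j → ∀ s ∈ tsupport (u i), ∀ s' ∈ tsupport (u j), δ ≤ dist s s' := by
  refine ⟨fun i s hs l => closure_minimal (t := {s : R4 | |s l| ≤ Λ})
    (fun y hy => h.2.1.cube i y hy l) (isClosed_le (by fun_prop) continuous_const) hs,
    fun i j hij s hs s' hs' => ?_⟩
  have := map_mem_closure₂ (f := fun x y : R4 => dist x y) (u := Ici δ) continuous_dist hs hs'
    fun x hx y hy => by
      obtain ⟨l, hl⟩ := h.2.1.sep i j hij x y hx hy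
      exact hl.trans (PiLp.dist_apply_le x y l)
  rwa [closure_Ici] at this

variable {S : Pol →ₗ[ℂ] ℂ} {K Λ δ w : ℝ} {h : R4 → ℝ} {ω : ∀ l : Cl, (Fin l.m → R4) → Lab ℝ}

theorem Sf.mov (hS : Sf S K) (R : Iso) (v : R4) {Z : Pol}
    (hZ : net.τ v (act R Z) ∈ net.loc univ) : S (net.τ v (act R Z)) = S Z := by
  have e : net.τ (-v) (net.τ v (act R Z)) = act R Z := by rw [net.τ_τ, neg_add_cancel, net.τ_zero]
  have e' : act R.symm (act R Z) = Z := by
    simp only [Ro.act, rename_rename, Function.comp_def, LinearIsometryEquiv.symm_symm,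
      LinearIsometryEquiv.symm_apply_apply]
    exact rename_id_apply Z
  rw [← hS.inp.st.ti (-v) hZ, e, ← hS.inv R.symm _ (e ▸ Net.τ_adm _ hZ), e']

theorem Wt_mem {l : Cl} {d : ℝ} {c : Lab ℂ} {f : R4 → ℝ} {p : Option (Fin l.m) → R4}
    (hp : Wt ω l d c f p ≠ 0) : p ∈ Kc ω l f :=
  ⟨subset_tsupport _ fun e => hp (by simp [Wt, e]), subset_tsupport _ fun e => hp (by
    simp [Wt, e, ip])⟩

theorem Gc_ne {l : Cl} {d : ℝ} {c : Lab ℂ} {f : R4 → ℝ} {p : Option (Fin l.m) → R4}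
    (hp : Gc h ω l d c f p ≠ 0) : Wt ω l d c f p ≠ 0 := left_ne_zero_of_smul hp

theorem Kc_closed (l : Cl) (f : R4 → ℝ) : IsClosed (Kc ω l f) :=
  ((isClosed_tsupport _).preimage (continuous_apply none)).inter
    ((isClosed_tsupport _).preimage (by fun_prop))

theorem Ct_uc {ι : Type} [Fintype ι] {m : ℕ} (d : ℝ) (φ : Option (Fin m) → ι) (i : Fin m) :
    UniformContinuous fun p : ι → R4 => Ct d (fun o => p (φ o)) i :=
  (Pi.uniformContinuous_proj _ _).add ((Pi.uniformContinuous_proj _ _).const_smul d)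

section
variable (H : Dat w h ω Λ δ)
include H

theorem Kc_bd (l : Cl) {f : R4 → ℝ} (hf : HasCompactSupport f) : ∃ L, ∀ p ∈ Kc ω l f, ‖p‖ ≤ L := by
  obtain ⟨L, hL⟩ := hf.isCompact.isBounded.exists_norm_le
  obtain ⟨L', hL'⟩ := (H.cpt l).isCompact.isBounded.exists_norm_le
  refine ⟨max L L', fun p hp => (pi_norm_le_iff_of_nonempty _).2 fun o => ?_⟩
  cases o with
  | none => exact le_max_of_le_left (hL _ hp.1)
  | some i => exact le_max_of_le_right ((norm_le_pi_norm (fun i => p (some i)) i).trans (hL' _ hp.2))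

theorem Gc_bd (l : Cl) (d : ℝ) (c : Lab ℂ) {f : R4 → ℝ} (hf : HasCompactSupport f) :
    ∃ L, ∀ p, Gc h ω l d c f p ≠ 0 → ‖p‖ ≤ L :=
  (Kc_bd H l hf).imp fun _ hL p hp => hL p (Wt_mem (Gc_ne hp))

theorem Wt_cont (l : Cl) (d : ℝ) (c : Lab ℂ) {f : R4 → ℝ} (hf : Continuous f) :
    Continuous (Wt ω l d c f) := by
  have := H.cont l
  unfold Wt ip
  simp only [Matrix.map_apply]
  fun_prop

theorem Yl_Rm (l : Cl) {d : ℝ} (d0 : 0 < d) (e : ℕ) (c : Lab ℂ) {f : R4 → ℝ}
    (hf : HasCompactSupport f) : Yl (Zc h ω l e c) d e f = Rm e (Gc h ω l d c f) := by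
  obtain ⟨L, hL⟩ := (H.cpt l).isCompact.isBounded.exists_norm_le
  have a : ∀ y : Fin l.m → Fin 4 → ℤ, (fun i => gp e (y i)) ∈ tsupport (ω l) →
      y ∈ (fin_gq e L).toFinset := fun y hy => (Finite.mem_toFinset _).2 (hL _ hy)
  rw [Yl_eq (s := (fin_gp hf e).toFinset) fun x hx => (Finite.mem_toFinset _).2 hx, Zc,
    finsum_eq_sum_of_support_subset (s := (fin_gq e L).toFinset) _ fun y hy => a y
      (subset_tsupport _ fun e => hy (by simp [e, ip])),
    Rm_eq (s := ((fin_gp hf e).toFinset ×ˢ (fin_gq e L).toFinset).map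
      (Equiv.piOptionEquivProd (β := fun _ => Fin 4 → ℤ)).symm.toEmbedding) fun z hz =>
      Finset.mem_map_equiv.2 (Finset.mem_product.2
        ⟨(Finite.mem_toFinset _).2 fun e => Gc_ne hz (by
          have e' : f (gq _ z none) = 0 := e
          simp [Wt, e']), a _ (Wt_mem (Gc_ne hz)).2⟩),
    Finset.sum_map, Finset.sum_product]
  refine Finset.sum_congr rfl fun x _ => ?_
  rw [map_sum, Finset.smul_sum]
  refine Finset.sum_congr rfl fun y _ => ?_
  rw [map_smul, smul_smul, Gc, smul_smul, sh, rename_mon]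
  congr 1
  · rw [Wt, Fintype.card_option, Fintype.card_fin]
    change _ = _ * (((d⁻¹ ^ 4 * f (gp e x) : ℝ) : ℂ) * ip c ((ω l fun i => gp e (y i)).map (↑)))
    push_cast
    ring
  · congr 1
    funext i t
    change h (d⁻¹ • (t - gp e x) - gp e (y i)) = h (d⁻¹ • (t - (gp e x + d • gp e (y i))))
    rw [← sub_sub, smul_sub d⁻¹ _ (d • _), inv_smul_smul₀ d0.ne']

theorem Gc_mov (l : Cl) (d : ℝ) (c : Lab ℂ) (R : Iso) (v : R4) (g : R4 → ℝ)
    (p : Option (Fin l.m) → R4) :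
    net.τ v (act R (Gc h ω l d c (fun y => g (R y + v)) p)) =
      Gc h ω l d (rE R c) g (Mo R (fun o => o.elim v fun _ => 0) p) := by
  rw [Gc, Gc, map_smul, map_smul, Ro.act, rename_mon, τ_mon]
  congr 1
  · simp only [Wt, Mo_apply, Option.elim, add_zero, H.cov, rE]
    congr 1
    have e := congrArg (Matrix.map · Complex.ofRealHom) (Lb.mx_orth R)
    exact ((congrArg _ (Lb.rho_map (g := mx R) (c := ω l fun i => p (some i))
      Complex.ofRealHom)).trans (Lb.ip_rho (by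
        simpa [Matrix.map_mul, Matrix.transpose_map] using e))).symm
  · congr 1
    funext i t
    refine (H.rad R _).symm.trans ?_
    simp only [Ct, Mo_apply, Option.elim, add_zero, map_smul, map_sub, map_add,
      LinearIsometryEquiv.apply_symm_apply]
    congr 2
    abel

theorem let_sm {d : ℝ} (d0 : 0 < d) {t : R4} (ht : t ∈ tsupport fun t => h (d⁻¹ • t)) :
    ‖t‖ ≤ δ * d / 4 := by
  have := (H.sm _ (tsupport_comp (θ := fun t => d⁻¹ • t) (by fun_prop) ht)).le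
  rw [norm_smul, norm_inv, norm_of_nonneg d0.le, inv_mul_le_iff₀ d0] at this
  linarith

theorem let_ex {l : Cl} {f : R4 → ℝ} {p : Option (Fin l.m) → R4} (i : Fin l.m) {d : ℝ} (d0 : 0 < d)
    {t : R4} (ht : t ∈ tsupport fun t => h (d⁻¹ • t)) :
    ∃ s ∈ tsupport (hy h (fun i => p (some i)) i), Ct d p i + t = p none + d • s := by
  refine ⟨d⁻¹ • t + p (some i), tsupport_comp (θ := fun t => d⁻¹ • t + p (some i)) (by fun_prop)
    (by simpa only [hy, add_sub_cancel_right] using ht), ?_⟩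
  rw [smul_add, smul_inv_smul₀ d0.ne', Ct]
  abel

theorem let_box {l : Cl} {f : R4 → ℝ} {p : Option (Fin l.m) → R4} (hp : p ∈ Kc ω l f) (i : Fin l.m)
    {d : ℝ} (d0 : 0 < d) {t : R4} (ht : t ∈ tsupport fun t => h (d⁻¹ • t)) (k : Fin 4) :
    |(Ct d p i + t) k - p none k| ≤ Λ * d := by
  obtain ⟨s, hs, e⟩ := let_ex H (f := f) (p := p) i d0 ht
  rw [e, PiLp.add_apply, add_sub_cancel_left, PiLp.smul_apply, smul_eq_mul, abs_mul, abs_of_pos d0,
    mul_comm]
  exact mul_le_mul_of_nonneg_right ((H.tw l _ hp.2).ts.1 i s hs k) d0.le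

theorem let_sep {l : Cl} {f : R4 → ℝ} {p : Option (Fin l.m) → R4} (hp : p ∈ Kc ω l f)
    {i j : Fin l.m} (hij : i ≠ j) {d : ℝ} (d0 : 0 < d) {t t' : R4}
    (ht : t ∈ tsupport fun t => h (d⁻¹ • t)) (ht' : t' ∈ tsupport fun t => h (d⁻¹ • t)) :
    δ * d ≤ dist (Ct d p i + t) (Ct d p j + t') := by
  obtain ⟨s, hs, e⟩ := let_ex H (f := f) (p := p) i d0 ht
  obtain ⟨s', hs', e'⟩ := let_ex H (f := f) (p := p) j d0 ht'
  rw [e, e', dist_add_left, dist_smul₀, norm_of_nonneg d0.le, mul_comm]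
  exact mul_le_mul_of_nonneg_left ((H.tw l _ hp.2).ts.2 i j hij s hs s' hs') d0.le

variable (hS : Sf S K)
include hS

theorem md_one (l : Cl) (c : Lab ℂ) {r d : ℝ} (d0 : 0 < d) (d1 : d ≤ 1) (hd : Λ * d ≤ r)
    {g : R4 → ℝ} (hg : C1 (Bx r) g) : Md S (K * (2 * r)) (Gc h ω l d c g) := by
  obtain ⟨Λ1, δ0⟩ := H.pos
  obtain ⟨L, hL⟩ := Kc_bd H l hg.1
  have a : tsupport (Wt ω l d c g) ⊆ Kc ω l g := closure_minimal (fun _ => Wt_mem) (Kc_closed l g)
  have b : δ * d ≤ d := mul_le_of_le_one_left d0.le H.le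
  refine md_mon hS (u := fun t => h (d⁻¹ • t)) (H.dif.comp (contDiff_id.const_smul _)) (σ := δ * d)
    (by positivity) (b.trans d1) (by nlinarith) (fun t => let_sm H d0)
    (P := Ct d) (uniformContinuous_pi.2 (Ct_uc d id)) (Wt_cont H l d c hg.2.1.continuous)
    ((isCompact_closedBall 0 L).of_isClosed_subset (isClosed_tsupport _) fun p hp =>
      mem_closedBall_zero_iff.2 (hL p (a hp)))
    fun p hp => ⟨fun i t ht k => ?_, fun i j hij t ht t' ht' => let_sep H (a hp) hij d0 ht ht'⟩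
  have e := abs_le.1 (let_box H (a hp) i d0 ht k)
  have e' := abs_lt.1 (hg.2.2 (a hp).1 k)
  exact abs_lt.2 ⟨by linarith [e.1, e'.1], by linarith [e.2, e'.2]⟩

theorem md_two (l l' : Cl) (c c' : Lab ℂ) {r d : ℝ} (d0 : 0 < d) (d1 : d ≤ 1) (hd : Λ * d ≤ r)
    {f g : R4 → ℝ} (hf : C1 (Bx r) f) (hg : C1 (Bx r) g)
    (hs : ∀ x ∈ tsupport f, ∀ y ∈ tsupport g, (4 * Λ + 1) * d ≤ dist x y) :
    Md S (K * (2 * r)) fun p : Option (Fin l.m) ⊕ Option (Fin l'.m) → R4 =>
      Gc h ω l d c f (fun i => p (.inl i)) * Gc h ω l' d c' g fun i => p (.inr i) := by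
  obtain ⟨Λ1, δ0⟩ := H.pos
  obtain ⟨L, hL⟩ := Kc_bd H l hf.1
  obtain ⟨L', hL'⟩ := Kc_bd H l' hg.1
  have k1 : Continuous fun (p : Option (Fin l.m) ⊕ Option (Fin l'.m) → R4) i => p (.inl i) := by
    fun_prop
  have k2 : Continuous fun (p : Option (Fin l.m) ⊕ Option (Fin l'.m) → R4) i => p (.inr i) := by
    fun_prop
  have a : tsupport (fun p : Option (Fin l.m) ⊕ Option (Fin l'.m) → R4 =>
      Wt ω l d c f (fun i => p (.inl i)) * Wt ω l' d c' g fun i => p (.inr i)) ⊆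
      {p | (fun i => p (.inl i)) ∈ Kc ω l f ∧ (fun i => p (.inr i)) ∈ Kc ω l' g} :=
    closure_minimal (fun _ hp => ⟨Wt_mem (left_ne_zero_of_mul hp), Wt_mem (right_ne_zero_of_mul hp)⟩)
      (((Kc_closed l f).preimage k1).inter ((Kc_closed l' g).preimage k2))
  have b : δ * d ≤ d := mul_le_of_le_one_left d0.le H.le
  have x : ∀ {x y a b : R4}, x ∈ tsupport f → y ∈ tsupport g → (∀ k, |a k - x k| ≤ Λ * d) →
      (∀ k, |b k - y k| ≤ Λ * d) → δ * d ≤ dist a b := fun {x y a b} hx hy ha hb => by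
    linarith [hs x hx y hy, dist_le_two ha, dist_le_two hb, dist_triangle4_left a b x y]
  suffices Md S (K * (2 * r)) fun p : Option (Fin l.m) ⊕ Option (Fin l'.m) → R4 =>
      (Wt ω l d c f (fun i => p (.inl i)) * Wt ω l' d c' g fun i => p (.inr i)) • mon fun i t =>
        h (d⁻¹ • (t - Fin.append (Ct d fun i => p (.inl i)) (Ct d fun i => p (.inr i)) i)) by
    convert this using 2 with p
    rw [Gc, Gc, smul_mul_smul_comm, ← mon_append]
    congr 2
    funext i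
    induction i using Fin.addCases <;> simp only [Fin.append_left, Fin.append_right]
  refine md_mon hS (u := fun t => h (d⁻¹ • t)) (H.dif.comp (contDiff_id.const_smul _))
    (σ := δ * d) (R := 2 * r) (by positivity) (b.trans d1) (by nlinarith) (fun t => let_sm H d0)
    (uniformContinuous_pi.2 fun i => ?_)
    (((Wt_cont H l d c hf.2.1.continuous).comp k1).mul
      ((Wt_cont H l' d c' hg.2.1.continuous).comp k2))
    ((isCompact_closedBall 0 (max L L')).of_isClosed_subset (isClosed_tsupport _) fun p hp =>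
      mem_closedBall_zero_iff.2 ((pi_norm_le_iff_of_nonempty _).2 fun o => ?_))
    fun p hp => ⟨fun i t ht k => ?_, fun i j hij t ht t' ht' => ?_⟩
  · induction i using Fin.addCases <;> simp only [Fin.append_left, Fin.append_right] <;>
      exact Ct_uc d _ _
  · cases o with
    | inl o => exact le_max_of_le_left ((norm_le_pi_norm (fun i => p (.inl i)) o).trans
        (hL _ (a hp).1))
    | inr o => exact le_max_of_le_right ((norm_le_pi_norm (fun i => p (.inr i)) o).trans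
        (hL' _ (a hp).2))
  · induction i using Fin.addCases with
    | left i =>
      have e := abs_le.1 (let_box H (a hp).1 i d0 ht k)
      have e' := abs_lt.1 (hf.2.2 (a hp).1.1 k)
      rw [Fin.append_left]
      exact abs_lt.2 ⟨by linarith [e.1, e'.1], by linarith [e.2, e'.2]⟩
    | right i =>
      have e := abs_le.1 (let_box H (a hp).2 i d0 ht k)
      have e' := abs_lt.1 (hg.2.2 (a hp).2.1 k)
      rw [Fin.append_right]
      exact abs_lt.2 ⟨by linarith [e.1, e'.1], by linarith [e.2, e'.2]⟩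
  · induction i using Fin.addCases <;> induction j using Fin.addCases <;>
      simp only [Fin.append_left, Fin.append_right]
    · exact let_sep H (a hp).1 (fun e => hij (by rw [e])) d0 ht ht'
    · exact x (a hp).1.1 (a hp).2.1 (let_box H (a hp).1 _ d0 ht) (let_box H (a hp).2 _ d0 ht')
    · rw [dist_comm]
      exact x (a hp).1.1 (a hp).2.1 (let_box H (a hp).1 _ d0 ht') (let_box H (a hp).2 _ d0 ht)
    · exact let_sep H (a hp).2 (fun e => hij (by rw [e])) d0 ht ht'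

omit hS in
theorem Yl_mov (l : Cl) (c : Lab ℂ) (R : Iso) (v : R4) {d : ℝ} (d0 : 0 < d) (e : ℕ) {g : R4 → ℝ}
    (hg : HasCompactSupport g) :
    net.τ v (act R (Yl (Zc h ω l e c) d e fun y => g (R y + v))) =
      Rm e fun p => Gc h ω l d (rE R c) g (Mo R (fun o => o.elim v fun _ => 0) p) := by
  have c1 : HasCompactSupport fun y => g (R y + v) :=
    hg.comp_homeomorph (R.toHomeomorph.trans (Homeomorph.addRight v))
  rw [Yl_Rm H l d0 e c c1]
  simp only [← Gc_mov H]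
  exact Rm_map ((net.τ v).toLinearMap ∘ₗ (act R).toLinearMap) (Gc_bd H l d c c1).choose_spec

end

section
variable (hS : Sf S K) (H : Dat w h ω Λ δ)
include hS H

/-- rotated and translated grids give the same limit -/
theorem riem (l : Cl) (c : Lab ℂ) (R : Iso) (v : R4) {r d : ℝ} (d0 : 0 < d) (hd : (Λ + 1) * d ≤ r)
    (r1 : r ≤ 1) {g : R4 → ℝ} (hg : C1 (Bx r) g) {η : ℝ} (η0 : 0 < η) :
    ∀ᶠ e : ℕ × ℕ in atTop ×ˢ atTop, net.QB S
      (net.τ v (act R (Yc h ω S l d e.1 c fun y => g (R y + v))) - Yc h ω S l d e.2 (rE R c) g)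
      (4 * K * r) η := by
  obtain ⟨Λ1, δ0⟩ := H.pos
  have m := md_one H hS l (rE R c) d0 (by nlinarith) (show Λ * d ≤ r by linarith) hg
  have m' := m.comp (Mo_iso R fun o => o.elim v fun _ => 0)
  filter_upwards [m.riem hS.inp.st (Mo R fun o => o.elim v fun _ => 0) (Mo_iso _ _) (Mo_mp _ _)
    (half_pos η0)] with e he
  have q := ctr_qb hS.inp.st he
  rw [mul_div_cancel₀ _ two_ne_zero, ← Yl_mov H l c R v d0 e.1 hg.1, ← Yl_Rm H l d0 e.2 _ hg.1] at q
  have a := hS.mov R v (Z := Yl (Zc h ω l e.1 c) d e.1 fun y => g (R y + v)) (by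
    rw [Yl_mov H l c R v d0 e.1 hg.1]
    exact Net.adm (Rm_mem m'.bd.choose_spec m'.mem))
  convert q.mono hS.inp.st (R' := 4 * K * r) (by nlinarith [hS.one, m.nn]) le_rfl using 1
  simp only [Yc, ctr, map_sub, a, algHom_C, algebraMap_eq]
  ring

/-- rotation invariance of the two point functions -/
theorem riem2 (l l' : Cl) (a b : Lab ℂ) (R : Iso) {f g : R4 → ℝ} (hf : Adm ![f, g]) :
    ∀ᶠ d in 𝓝[>] (0 : ℝ), ∀ η > 0, ∀ᶠ e in atTop,
      ‖S (Yc h ω S l d e a (fun y => f (R y)) * Yc h ω S l' d e b fun y => g (R y)) -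
        S (Yc h ω S l d e (rE R a) f * Yc h ω S l' d e (rE R b) g)‖ ≤ η := by
  obtain ⟨Λ1, δ0⟩ := H.pos
  obtain ⟨D, q, e1, -, e3⟩ := hf.data
  have c1 : ∀ i, C1 (Bx (D + Λ)) (![f, g] i) := fun i => ⟨(hf.1 i).1, (hf.1 i).2, fun y hy k =>
    ((PiLp.norm_apply_le y k).trans (e1 i y hy)).trans_lt (by linarith)⟩
  have q0 : (0 : ℝ) < 1 / (q + 1) := by positivity
  filter_upwards [Ioc_mem_nhdsGT (show 0 < min 1 (1 / (q + 1 : ℝ) / (4 * Λ + 1)) by positivity)]
    with d ⟨d0, hd⟩ η η0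
  have d1 : d ≤ 1 := hd.trans (min_le_left _ _)
  have d2 : (4 * Λ + 1) * d ≤ 1 / (q + 1) := by
    rw [← le_div_iff₀' (by positivity)]
    exact hd.trans (min_le_right _ _)
  have d3 : Λ * d ≤ D + Λ := by nlinarith [Nat.cast_nonneg (α := ℝ) D]
  have m1 := md_one H hS l (rE R a) d0 d1 d3 (c1 0)
  have m2 := md_one H hS l' (rE R b) d0 d1 d3 (c1 1)
  have m3 := md_two H hS l l' (rE R a) (rE R b) d0 d1 d3 (c1 0) (c1 1) fun x hx y hy =>
    d2.trans (e3 0 1 (by decide) x hx y hy)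
  have n1 := m1.comp (Mo_iso R fun o => o.elim 0 fun _ => 0)
  have n2 := m2.comp (Mo_iso R fun o => o.elim 0 fun _ => 0)
  have n3 := m3.comp (Mo_iso R (Sum.elim (fun o => o.elim 0 fun _ => 0) fun o => o.elim 0 fun _ => 0))
  have t1 := n1.tendsto hS.inp.st
  have t2 := n2.tendsto hS.inp.st
  have t3 := n3.tendsto hS.inp.st
  rw [(Mo_mp _ _).integral_comp' fun y => S (Gc h ω l d (rE R a) _ y)] at t1
  rw [(Mo_mp _ _).integral_comp' fun y => S (Gc h ω l' d (rE R b) _ y)] at t2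
  rw [(Mo_mp _ _).integral_comp' fun p : Option (Fin l.m) ⊕ Option (Fin l'.m) → R4 =>
    S (Gc h ω l d (rE R a) (![f, g] 0) (fun i => p (.inl i)) *
      Gc h ω l' d (rE R b) (![f, g] 1) fun i => p (.inr i))] at t3
  have t := (t3.sub (t1.mul t2)).sub ((m3.tendsto hS.inp.st).sub
    ((m1.tendsto hS.inp.st).mul (m2.tendsto hS.inp.st)))
  rw [sub_self] at t
  filter_upwards [t.norm.eventually_le_const (by simpa using η0)] with e he
  have k : ∀ X Y : Pol, S (ctr S X * ctr S Y) = S (X * Y) - S X * S Y := fun X Y => by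
    simp only [ctr, C_eq_smul_one, sub_mul, mul_sub, map_sub, mul_smul_comm, smul_mul_assoc, map_smul,
      smul_eq_mul, hS.inp.st.one, mul_one, one_mul]
    ring
  have y1 := Yl_mov H l a R 0 d0 e (c1 0).1
  have y2 := Yl_mov H l' b R 0 d0 e (c1 1).1
  simp only [add_zero] at y1 y2
  have y3 := Rm_mul e n1.bd.choose_spec n2.bd.choose_spec
  have z1 := hS.mov R 0 (y1 ▸ Net.adm (Rm_mem n1.bd.choose_spec n1.mem))
  have z2 := hS.mov R 0 (y2 ▸ Net.adm (Rm_mem n2.bd.choose_spec n2.mem))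
  have z3 := hS.mov R 0 (Z := Yl (Zc h ω l e a) d e (fun y => f (R y)) *
    Yl (Zc h ω l' e b) d e fun y => g (R y)) (by
      rw [map_mul, map_mul]
      erw [y1, y2, y3]
      exact Net.adm (Rm_mem n3.bd.choose_spec n3.mem))
  rw [map_mul, map_mul] at z3
  erw [y1, y2, y3] at z3
  rw [y1] at z1
  rw [y2] at z2
  rw [Yc, Yc, Yc, Yc, k, k, ← z3]
  erw [← z1, ← z2, Yl_Rm H l d0 e _ (c1 0).1, Yl_Rm H l' d0 e _ (c1 1).1,
    Rm_mul e m1.bd.choose_spec m2.bd.choose_spec]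
  exact he

end

end Pool.Agent.Lib.MP_7f377f_mp.Cm
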