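import Pool.Agent.Lib.MP_7f377f_mp.G.CmR

/-! Composite fields: Riemann sums of families of polynomials. -/

noncomputable section

namespace Pool.Agent.Lib.MP_7f377f_mp.Cm
variable [Pool.Agent.Lib.MP_7f377f_mp.GD]
set_option linter.unusedSectionVars false

open MeasureTheory Filter Topology Set Real YM7 Pur MvPolynomial Lg Metric
open Ope (Let gp sc ctr)
open Ro (Iso act)
open Wm (C1)
open scoped NNReal

variable {ι : Type} [Fintype ι]

/-- the grid points -/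
def gq (e : ℕ) (z : ι → Fin 4 → ℤ) (i : ι) : R4 := gp e (z i)

/-- the corner of the cell -/
def fq (e : ℕ) (y : ι → R4) (i : ι) (l : Fin 4) : ℤ := ⌊y i l / (3 ^ e)⁻¹⌋

/-- Riemann sums -/
def Rm {V : Type} [AddCommGroup V] [Module ℂ V] (e : ℕ) (G : (ι → R4) → V) : V :=
  ∑ᶠ z : ι → Fin 4 → ℤ, ((((3 ^ e)⁻¹ : ℝ) ^ (4 * Fintype.card ι) : ℝ) : ℂ) • G (gq e z)

theorem meas_fq (e : ℕ) : Measurable (fq (ι := ι) e) :=
  measurable_pi_lambda _ fun i => measurable_pi_lambda _ fun l =>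
    Measurable.floor (Measurable.div_const (by fun_prop) _)

theorem fq_near (e : ℕ) (y : ι → R4) : dist (gq e (fq e y)) y ≤ 2 * (3 ^ e)⁻¹ := by
  have hε : (0 : ℝ) < (3 ^ e)⁻¹ := by positivity
  refine (dist_pi_le_iff (by positivity)).2 fun i => dist_le_two fun l => ?_
  have h1 := (le_div_iff₀ hε).1 (Int.floor_le (y i l / (3 ^ e)⁻¹))
  have h2 := (div_lt_iff₀ hε).1 (Int.lt_floor_add_one (y i l / (3 ^ e)⁻¹))
  simp only [gq, gp, fq]
  rw [abs_le]
  constructor <;> linarith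

theorem vol_fq (e : ℕ) (z : ι → Fin 4 → ℤ) :
    volume (fq e ⁻¹' {z}) = ENNReal.ofReal (((3 ^ e)⁻¹ : ℝ) ^ (4 * Fintype.card ι)) := by
  have hε : (0 : ℝ) < (3 ^ e)⁻¹ := by positivity
  generalize hq : ((3 : ℝ) ^ e)⁻¹ = ε at hε
  have e1 : fq e ⁻¹' {z} = univ.pi fun i => WithLp.ofLp ⁻¹'
      (univ.pi fun l => Ico (z i l * ε) ((z i l + 1) * ε)) := by
    ext y
    simp only [mem_preimage, mem_singleton_iff, funext_iff, fq, hq, Int.floor_eq_iff, Set.mem_pi,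
      mem_univ, true_imp_iff, mem_Ico, le_div_iff₀ hε, div_lt_iff₀ hε]
  rw [e1, volume_pi_pi]
  have : ∀ i, volume ((WithLp.ofLp : R4 → Fin 4 → ℝ) ⁻¹'
      (univ.pi fun l => Ico (z i l * ε) ((z i l + 1) * ε))) = ENNReal.ofReal (ε ^ 4) := by
    intro i
    rw [(PiLp.volume_preserving_ofLp (Fin 4)).measure_preimage
      (MeasurableSet.univ_pi fun _ => measurableSet_Ico).nullMeasurableSet, Real.volume_pi_Ico]
    simp only [add_mul, one_mul, add_sub_cancel_left, Finset.prod_const, Finset.card_univ,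
      Fintype.card_fin, ENNReal.ofReal_pow hε.le]
  simp only [this, Finset.prod_const, Finset.card_univ, pow_mul,
    ENNReal.ofReal_pow (pow_pos hε 4).le]

theorem fin_gq (e : ℕ) (L : ℝ) : {z : ι → Fin 4 → ℤ | ‖gq e z‖ ≤ L}.Finite := by
  classical
  obtain ⟨M, hM⟩ := exists_nat_ge (3 ^ e * L)
  refine (Fintype.piFinset fun _ : ι => Fintype.piFinset fun _ : Fin 4 =>
    Finset.Icc (-M : ℤ) M).finite_toSet.subset fun z hz => Fintype.mem_piFinset.2 fun i =>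
      Fintype.mem_piFinset.2 fun l => Finset.mem_Icc.2 (abs_le.1 ?_)
  have h1 : |((3 : ℝ) ^ e)⁻¹ * z i l| ≤ L :=
    (PiLp.norm_apply_le (gq e z i) l).trans ((norm_le_pi_norm _ i).trans hz)
  rw [abs_mul, abs_of_pos (by positivity), inv_mul_le_iff₀ (by positivity)] at h1
  exact_mod_cast h1.trans hM

variable {V : Type} [AddCommGroup V] [Module ℂ V] {G : (ι → R4) → V} {e : ℕ} {L : ℝ}

theorem Rm_eq {s : Finset (ι → Fin 4 → ℤ)} (hs : ∀ z, G (gq e z) ≠ 0 → z ∈ s) : Rm e G =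
    ∑ z ∈ s, ((((3 ^ e)⁻¹ : ℝ) ^ (4 * Fintype.card ι) : ℝ) : ℂ) • G (gq e z) :=
  finsum_eq_sum_of_support_subset _ fun z hz => hs z fun h => hz (by simp only [h, smul_zero])

theorem Rm_map {V' : Type} [AddCommGroup V'] [Module ℂ V'] (Φ : V →ₗ[ℂ] V')
    (hL : ∀ y, G y ≠ 0 → ‖y‖ ≤ L) : Φ (Rm e G) = Rm e fun y => Φ (G y) := by
  rw [Rm_eq (s := (fin_gq e L).toFinset) fun z hz => (Finite.mem_toFinset _).2 (hL _ hz),
    Rm_eq (s := (fin_gq e L).toFinset) fun z hz => (Finite.mem_toFinset _).2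
      (hL _ fun h => hz (by rw [h, map_zero]))]
  simp only [map_sum, map_smul]

theorem Rm_mem {p : Submodule ℂ V} (hL : ∀ y, G y ≠ 0 → ‖y‖ ≤ L) (h : ∀ y, G y ∈ p) :
    Rm e G ∈ p := by
  rw [Rm_eq (s := (fin_gq e L).toFinset) fun z hz => (Finite.mem_toFinset _).2 (hL _ hz)]
  exact p.sum_mem fun z _ => p.smul_mem _ (h _)

theorem Rm_le {H : Type} [NormedAddCommGroup H] [NormedSpace ℂ H] [CompleteSpace H]
    {F : (ι → R4) → H} (hF : Continuous F) {η : ℝ} (hL : ∀ y, F y ≠ 0 → ‖y‖ ≤ L)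
    (h : ∀ x y, dist x y ≤ 2 * (3 ^ e)⁻¹ → ‖F x - F y‖ ≤ η) :
    ‖Rm e F - ∫ y, F y‖ ≤ η * volume.real (closedBall (0 : ι → R4) (L + 2)) := by
  classical
  have ε1 : ((3 : ℝ) ^ e)⁻¹ ≤ 1 := inv_le_one_of_one_le₀ (one_le_pow₀ (by norm_num))
  have i1 : Integrable F := hF.integrable_of_hasCompactSupport
    (.intro (isCompact_closedBall 0 L) fun y hy => not_not.1 fun e =>
      hy (mem_closedBall_zero_iff.2 (hL y e)))
  have b : ∀ y, ‖F (gq e (fq e y)) - F y‖ ≤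
      (closedBall (0 : ι → R4) (L + 2)).indicator (fun _ => η) y := fun y => by
    have e1 := fq_near e y
    by_cases u : y ∈ closedBall (0 : ι → R4) (L + 2)
    · rw [indicator_of_mem u]
      exact h _ _ e1
    · rw [indicator_of_notMem u]
      rw [mem_closedBall_zero_iff, not_le] at u
      rw [not_not.1 fun e => (hL y e).not_gt (by linarith), not_not.1 fun e' => (hL _ e').not_gt (by
        linarith [norm_sub_norm_le y (gq e (fq e y)), dist_eq_norm' (gq e (fq e y)) y]), sub_self,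
        norm_zero]
  have hb : Integrable ((closedBall (0 : ι → R4) (L + 2)).indicator fun _ => η) :=
    (integrable_indicator_iff measurableSet_closedBall).2
      (integrableOn_const measure_closedBall_lt_top.ne)
  have m : ∀ z, MeasurableSet (fq (ι := ι) e ⁻¹' {z}) := fun z =>
    meas_fq e (measurableSet_singleton z)
  have i0 : ∀ z, Integrable ((fq (ι := ι) e ⁻¹' {z}).indicator fun _ => F (gq e z)) := fun z =>
    (integrable_indicator_iff (m z)).2 (integrableOn_const (by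
      rw [vol_fq]
      exact ENNReal.ofReal_ne_top))
  have e1 : (fun y => F (gq e (fq e y))) = fun y => ∑ z ∈ (fin_gq e L).toFinset,
      (fq (ι := ι) e ⁻¹' {z}).indicator (fun _ => F (gq e z)) y := funext fun y => by
    have a : y ∈ fq (ι := ι) e ⁻¹' {fq e y} := rfl
    rw [Finset.sum_eq_single (fq e y), indicator_of_mem a]
    · exact fun z _ hz => indicator_of_notMem (s := fq (ι := ι) e ⁻¹' {z})
        (fun h => hz (Eq.symm h)) _
    · intro hz
      rw [indicator_of_mem a]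
      exact not_not.1 fun h => hz ((Finite.mem_toFinset _).2 (hL _ h))
  have i2 : Integrable fun y => F (gq e (fq e y)) := by
    rw [e1]
    exact integrable_finsetSum _ fun z _ => i0 z
  have e2 : Rm e F = ∫ y, F (gq e (fq e y)) := by
    rw [Rm_eq (s := (fin_gq e L).toFinset) fun z hz => (Finite.mem_toFinset _).2 (hL _ hz), e1,
      integral_finsetSum _ fun z _ => i0 z]
    refine Finset.sum_congr rfl fun z _ => ?_
    rw [integral_indicator_const _ (m z), Measure.real, vol_fq,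
      ENNReal.toReal_ofReal (by positivity), Complex.coe_smul]
  rw [e2, ← integral_sub i2 i1]
  refine (norm_integral_le_of_norm_le hb (ae_of_all _ b)).trans_eq ?_
  rw [integral_indicator_const _ measurableSet_closedBall, smul_eq_mul, mul_comm]

/-- uniformly continuous families of local polynomials -/
structure Md (S : Pol →ₗ[ℂ] ℂ) (ρ : ℝ) (G : (ι → R4) → Pol) : Prop where
  nn : 0 ≤ ρ
  mem : ∀ x, G x ∈ net.loc (Bx ρ)
  bd : ∃ L, ∀ x, G x ≠ 0 → ‖x‖ ≤ L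
  mod : ∀ η > 0, ∃ δ > 0, ∀ x y, dist x y ≤ δ → net.QB S (G x - G y) ρ η

variable {S : Pol →ₗ[ℂ] ℂ} {ρ : ℝ} {G : (ι → R4) → Pol}

theorem Md.comp (h : Md S ρ G) {A : (ι → R4) → ι → R4} (hA : Isometry A) :
    Md S ρ fun x => G (A x) := by
  obtain ⟨L, hL⟩ := h.bd
  refine ⟨h.nn, fun x => h.mem _, ⟨L + ‖A 0‖, fun x hx => ?_⟩, fun η η0 => ?_⟩
  · have := hA.dist_eq x 0
    rw [dist_zero_right, dist_eq_norm] at this
    linarith [hL _ hx, norm_sub_le (A x) (A 0)]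
  · obtain ⟨δ, δ0, H⟩ := h.mod η η0
    exact ⟨δ, δ0, fun x y hxy => H _ _ (by rwa [hA.dist_eq])⟩

theorem Md.lim (h : Md S ρ G) {η : ℝ} (η0 : 0 < η) : ∀ᶠ e in atTop,
    ∀ (H : Type) [NormedAddCommGroup H] [NormedSpace ℂ H] [CompleteSpace H] (Φ : Pol →ₗ[ℂ] H)
      (n : ℝ), 0 ≤ n → (∀ Z c, net.QB S Z ρ c → ‖Φ Z‖ ≤ c * n) →
        ‖Φ (Rm e G) - ∫ y, Φ (G y)‖ ≤ η * n := by
  obtain ⟨L, hL⟩ := h.bd
  obtain ⟨V, hV⟩ : ∃ V, V = volume.real (closedBall (0 : ι → R4) (L + 2)) := ⟨_, rfl⟩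
  have V0 : 0 ≤ V := hV ▸ measureReal_nonneg
  obtain ⟨δ, δ0, H1⟩ := h.mod (η / (V + 1)) (by positivity)
  filter_upwards [(tendsto_inv_atTop_zero.comp (tendsto_pow_atTop_atTop_of_one_lt
    (show (1 : ℝ) < 3 by norm_num))).eventually_le_const (half_pos δ0)]
    with e (he : ((3 : ℝ) ^ e)⁻¹ ≤ _) H _ _ _ Φ n n0 hΦ
  have c : Continuous fun y => Φ (G y) := (Metric.uniformContinuous_iff.2 fun ε ε0 => by
    obtain ⟨δ', δ1, H2⟩ := h.mod (ε / (n + 1)) (by positivity)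
    refine ⟨δ', δ1, fun {x y} hxy => ?_⟩
    rw [dist_eq_norm, ← map_sub]
    refine (hΦ _ _ (H2 x y hxy.le)).trans_lt ?_
    rw [div_mul_eq_mul_div, div_lt_iff₀ (by positivity)]
    nlinarith).continuous
  rw [Rm_map Φ hL]
  refine (Rm_le c (L := L) (η := η / (V + 1) * n) (fun y hy => hL y fun e => hy (by
    rw [e, map_zero])) fun x y hxy => ?_).trans ?_
  · rw [← map_sub]
    exact hΦ _ _ (H1 x y (by linarith))
  · rw [← hV, show η / (V + 1) * n * V = η * n * (V / (V + 1)) by ring]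
    exact mul_le_of_le_one_right (by positivity) (div_le_one_of_le₀ (by linarith) (by positivity))

theorem Md.tendsto (h : Md S ρ G) (hS : net.St S) :
    Tendsto (fun e => S (Rm e G)) atTop (𝓝 (∫ y, S (G y))) :=
  Metric.tendsto_nhds.2 fun ε ε0 => (h.lim (half_pos ε0)).mono fun e he => by
    have := he ℂ S 1 zero_le_one fun Z c hZ => by simpa using hS.bound hZ
    rw [dist_eq_norm]
    linarith

theorem Md.riem (h : Md S ρ G) (hS : net.St S) (A : (ι → R4) ≃ᵐ (ι → R4)) (hA : Isometry A)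
    (hm : MeasurePreserving A) {η : ℝ} (η0 : 0 < η) : ∀ᶠ e : ℕ × ℕ in atTop ×ˢ atTop,
      net.QB S (Rm e.1 (fun x => G (A x)) - Rm e.2 G) ρ η := by
  have h' := h.comp hA
  filter_upwards [(h'.lim (half_pos η0)).prod_mk (h.lim (half_pos η0))] with e he
  have m : Rm e.1 (fun x => G (A x)) - Rm e.2 G ∈ net.loc (Bx ρ) :=
    sub_mem (Rm_mem h'.bd.choose_spec h'.mem) (Rm_mem h.bd.choose_spec h.mem)
  refine ⟨m, h.nn, η0.le, fun μ b hb => ?_⟩
  obtain ⟨H, _, _, _, ⟨r⟩⟩ := hS.exists_rep μ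
  rw [r.nq (Net.qb_hs m (Net.dg_ot hb) h.nn (by simp)), r.nq (net.mono hb (Ot.hs μ le_rfl)),
    ← mul_pow]
  refine pow_le_pow_left₀ (norm_nonneg _) ?_ 2
  let Φ : Pol →ₗ[ℂ] H := r.Ψ ∘ₗ (net.τ (ax μ ρ)).toLinearMap ∘ₗ
    LinearMap.mulRight ℂ (net.τ (dg ρ) b)
  have h0 : ∀ Z c, net.QB S Z ρ c → ‖Φ Z‖ ≤ c * ‖r.Ψ b‖ := fun Z c hZ => hZ.rep r hb
  have h1 := he.1 H Φ _ (norm_nonneg _) h0
  have h2 := he.2 H Φ _ (norm_nonneg _) h0
  rw [hm.integral_comp' fun y => Φ (G y)] at h1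
  change ‖Φ _‖ ≤ _
  rw [map_sub]
  refine (norm_sub_le_norm_sub_add_norm_sub _ (∫ y, Φ (G y)) _).trans ?_
  rw [norm_sub_rev] at h2
  linarith

end Pool.Agent.Lib.MP_7f377f_mp.Cm
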