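import Pool.Agent.Lib.MP_7f377f_mp.G.CmU0

/-! Composite fields: families of translated clusters. -/

noncomputable section

namespace Pool.Agent.Lib.MP_7f377f_mp.Cm
variable [Pool.Agent.Lib.MP_7f377f_mp.GD]
set_option linter.unusedSectionVars false

open MeasureTheory Filter Topology Set Real YM7 Pur MvPolynomial Lg Metric
open Ope (Let gp sc ctr)
open Ro (Iso act)
open Wm (C1)
open scoped NNReal

variable {ι : Type} [Fintype ι] {S : Pol →ₗ[ℂ] ℂ} {K : ℝ}

theorem md_mon (hS : Sf S K) {n : ℕ} {u : R4 → ℝ} (hu : ContDiff ℝ 1 u) {σ R : ℝ} (σ0 : 0 < σ)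
    (σ1 : σ ≤ 1) (σR : σ ≤ R) (hT : ∀ t ∈ tsupport u, ‖t‖ ≤ σ / 4) {P : (ι → R4) → Fin n → R4}
    (hP : UniformContinuous P) {W : (ι → R4) → ℂ} (hW : Continuous W) (hc : HasCompactSupport W)
    (h1 : ∀ p ∈ tsupport W, (∀ i, ∀ t ∈ tsupport u, P p i + t ∈ Bx R) ∧ ∀ i j, i ≠ j →
      ∀ t ∈ tsupport u, ∀ t' ∈ tsupport u, σ ≤ dist (P p i + t) (P p j + t')) :
    Md S (K * R) fun p => W p • mon fun i t => u (t - P p i) := by
  have st := hS.inp.st
  have R0 : 0 ≤ K * R := mul_nonneg (zero_le_one.trans hS.one) (σ0.le.trans σR)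
  have cu : HasCompactSupport u := (isCompact_closedBall (0 : R4) (σ / 4)).of_isClosed_subset
    (isClosed_tsupport _) fun t ht => mem_closedBall_zero_iff.2 (hT t ht)
  obtain ⟨L, hL⟩ := hu.lipschitzWith_of_hasCompactSupport cu one_ne_zero
  have u1 : ∀ c : R4, HasCompactSupport fun t => u (t - c) := fun c =>
    cu.comp_homeomorph (Homeomorph.subRight c)
  have u2 : ∀ c : R4, ContDiff ℝ 1 fun t => u (t - c) := fun c =>
    hu.comp (contDiff_id.sub contDiff_const)
  have u3 : ∀ c : R4, ∀ t ∈ tsupport fun t => u (t - c), t - c ∈ tsupport u := fun c t ht =>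
    tsupport_comp (θ := fun t => t - c) (by fun_prop) ht
  have u0 : ∀ c : R4, LipschitzWith 1 fun t : R4 => t - c := fun c =>
    LipschitzWith.of_dist_le_mul fun x y => by simp
  have u4 : ∀ c : R4, LipschitzWith L fun t => u (t - c) := fun c => by
    simpa only [mul_one, Function.comp_def] using hL.comp (u0 c)
  have u5 : ∀ {c c' t t' : R4}, t - c ∈ tsupport u → t' - c' ∈ tsupport u →
      dist t t' ≤ σ / 2 + dist c c' := fun {c c' t t'} e e' => by
    have a := hT _ e
    have b := hT _ e'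
    rw [← dist_eq_norm] at a b
    linarith [dist_triangle4_right t t' c c']
  have u6 : ∀ p ∈ tsupport W, ∀ i j, i ≠ j → ∀ {t t' c : R4}, t - P p i ∈ tsupport u →
      t' - c ∈ tsupport u → σ ≤ dist t t' + dist c (P p j) := fun p hp i j hij t t' c e e' => by
    have a := (h1 p hp).2 i j hij _ e _ e'
    rw [add_sub_cancel] at a
    have b : dist t' (P p j + (t' - c)) = dist c (P p j) := by
      rw [dist_eq_norm, dist_eq_norm]
      congr 1
      abel
    linarith [dist_triangle t t' (P p j + (t' - c))]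
  have u7 : ∀ p ∈ tsupport W, ∀ i, ∀ t, t - P p i ∈ tsupport u → t ∈ Bx R := fun p hp i t e => by
    simpa only [add_sub_cancel] using (h1 p hp).1 i _ e
  obtain ⟨C, s, C0, hC⟩ := hS.qr
  obtain ⟨C', s', C0', hC'⟩ := hS.diff
  obtain ⟨B, B0, hB⟩ : ∃ B, 0 ≤ B ∧ ∀ p ∈ tsupport W,
      net.QB S (mon fun i t => u (t - P p i)) (K * R) B := by
    refine ⟨(C * ((n + 1) / (σ / 2)) ^ s) ^ n * ∏ _i : Fin n, L, by positivity, fun p hp =>
      hC n (σ / 2) R (by positivity) (by linarith) (by linarith) _ (fun _ => L)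
        ⟨⟨fun i => ⟨u1 _, u2 _⟩, fun i j hij => disjoint_left.2 fun t e e' => ?_⟩,
          fun i => ⟨u4 _, fun x y hx hy => ?_⟩, fun i j hij x y hx hy => ?_⟩
        fun i t ht => u7 p hp i t (u3 _ _ ht)⟩
    · have := u6 p hp i j hij (u3 _ _ e) (u3 _ _ e')
      simp only [dist_self] at this
      linarith
    · simpa using u5 (subset_tsupport _ hx) (subset_tsupport _ hy)
    · have := u6 p hp i j hij (subset_tsupport _ hx) (subset_tsupport _ hy)
      rw [dist_self] at this
      linarith
  refine ⟨R0, fun p => ?_, ?_, fun η η0 => ?_⟩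
  · by_cases hp : p ∈ tsupport W
    · exact Submodule.smul_mem _ _ (hB p hp).1
    · rw [image_eq_zero_of_notMem_tsupport hp, zero_smul]
      exact Submodule.zero_mem _
  · obtain ⟨M, hM⟩ := hc.isCompact.isBounded.exists_norm_le
    exact ⟨M, fun x hx => hM x (subset_tsupport _ fun e => hx (by rw [e, zero_smul]))⟩
  obtain ⟨M, hM⟩ := hc.exists_bound_of_continuous hW
  have M0 : 0 ≤ M := (norm_nonneg _).trans (hM 0)
  obtain ⟨D, hD⟩ : ∃ D : ℝ, D = (C' * ((n + 1) / (3 * σ / 4)) ^ s') ^ n * (n * L ^ (n - 1)) :=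
    ⟨_, rfl⟩
  have D0 : 0 ≤ D := by rw [hD]; positivity
  obtain ⟨ε, hε⟩ : ∃ ε : ℝ≥0, (ε : ℝ) = η / 2 / (M * D + 1) := ⟨⟨_, by positivity⟩, rfl⟩
  have ε0 : (0 : ℝ) < ε := by rw [hε]; positivity
  obtain ⟨δ1, a1, b1⟩ := Metric.eventually_nhds_iff.1 (lip_shift (η := ε) cu hu ε0)
  obtain ⟨δ2, a2, b2⟩ := Metric.uniformContinuous_iff.1 hP (min δ1 (σ / 4)) (by positivity)
  obtain ⟨δ3, a3, b3⟩ := Metric.uniformContinuous_iff.1 (hc.uniformContinuous_of_continuous hW)
    (η / 2 / (B + 1)) (by positivity)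
  have key : ∀ x, ∀ y ∈ tsupport W, dist x y < min δ2 δ3 →
      net.QB S (W x • (mon fun i t => u (t - P x i)) - W y • mon fun i t => u (t - P y i))
        (K * R) η := fun x y hy hxy => by
    have c1 := b2 (hxy.trans_le (min_le_left _ _))
    have c2 := b3 (hxy.trans_le (min_le_right _ _))
    have c3 : ∀ i, dist (P x i) (P y i) < min δ1 (σ / 4) := fun i =>
      (dist_le_pi_dist _ _ i).trans_lt c1
    have c4 : ∀ i, dist (P x i) (P y i) ≤ σ / 4 := fun i => ((c3 i).trans_le (min_le_right _ _)).le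
    have q2 : net.QB S ((W x - W y) • mon fun i t => u (t - P y i)) (K * R) (η / 2) :=
      ((hB y hy).smul _).mono st le_rfl (by
        rw [dist_eq_norm, lt_div_iff₀ (by positivity)] at c2
        nlinarith [norm_nonneg (W x - W y)])
    have q1 : net.QB S (W x • ((mon fun i t => u (t - P x i)) - mon fun i t => u (t - P y i)))
        (K * R) (η / 2) := by
      by_cases hx : x ∈ tsupport W
      swap
      · rw [image_eq_zero_of_notMem_tsupport hx, zero_smul]
        exact (Net.QB.zero R0).mono st le_rfl (half_pos η0).le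
      refine ((hC' n (3 * σ / 4) R (by positivity) (by linarith) (by linarith) _ _
        (fun i => {t | t - P x i ∈ tsupport u ∨ t - P y i ∈ tsupport u}) L ε
        (fun i => ⟨⟨u1 _, u2 _, fun t ht => .inl (u3 _ _ ht)⟩,
          ⟨u1 _, u2 _, fun t ht => .inr (u3 _ _ ht)⟩, fun t ht => ht.elim (u7 x hx i t)
            (u7 y hy i t), u4 _, u4 _, ?_, ?_⟩) ?_).smul _).mono st le_rfl ?_
      · have := (b1 (y := P x i - P y i) (by
          rw [dist_zero_right, ← dist_eq_norm]
          exact (c3 i).trans_le (min_le_left _ _))).comp (u0 (P y i))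
        rw [mul_one] at this
        convert this using 1
        funext t
        simp only [Pi.sub_apply, Function.comp, sub_sub, add_sub_cancel]
      · rintro t (e | e) t' (e' | e') <;> linarith [u5 e e', c4 i, dist_self (P x i),
          dist_self (P y i), dist_comm (P y i) (P x i)]
      · rintro i j hij t (e | e) t' (e' | e')
        · have := u6 x hx i j hij e e'
          rw [dist_self] at this
          linarith
        · have := u6 x hx i j hij e e'
          rw [dist_comm (P y j)] at this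
          linarith [c4 j]
        · linarith [u6 y hy i j hij e e', c4 j]
        · have := u6 y hy i j hij e e'
          rw [dist_self] at this
          linarith
      · rw [← mul_assoc _ (_ * _), ← hD, ← mul_assoc]
        refine (mul_le_mul_of_nonneg_right (mul_le_mul_of_nonneg_right (hM x) D0) ε0.le).trans ?_
        rw [hε, ← mul_div_assoc, div_le_iff₀ (by positivity)]
        nlinarith
    have := q1.add st q2
    rwa [add_halves, smul_sub, sub_smul, sub_add_sub_cancel] at this
  refine ⟨min δ2 δ3 / 2, by positivity, fun x y hxy => ?_⟩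
  have hxy' : dist x y < min δ2 δ3 := hxy.trans_lt (half_lt_self (by positivity))
  by_cases hy : y ∈ tsupport W
  · exact key x y hy hxy'
  by_cases hx : x ∈ tsupport W
  · simpa using (key y x hx ((dist_comm _ _).trans_lt hxy')).smul (-1)
  · simpa [image_eq_zero_of_notMem_tsupport hx, image_eq_zero_of_notMem_tsupport hy] using
      (Net.QB.zero R0).mono st le_rfl η0.le

end Pool.Agent.Lib.MP_7f377f_mp.Cm
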