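import Pool.Agent.Lib.MP_7f377f_mp.G.CmE
import Pool.Agent.Lib.MP_7f377f_mp.Lb5
import Pool.Agent.Lib.MP_7f377f_mp.G.LbU

/-! Composite fields: the algebra of the letters. -/

noncomputable section

namespace Pool.Agent.Lib.MP_7f377f_mp.Cm
variable [Pool.Agent.Lib.MP_7f377f_mp.GD]
set_option linter.unusedSectionVars false

open MeasureTheory Filter Topology Set Real YM7 Pur MvPolynomial Lg
open Ope (Let gp sc ctr)
open Ro (Iso act)
open Wm (C1)
open Lb (Lab Pl Cl rho mx ip pc frL freeL Sep)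
open RG.Q4.En.Ty (Gn Ty sb Det)
open scoped NNReal

variable {A B : Pol} {d r Λ δ w : ℝ} {e m : ℕ} {f f' : R4 → ℝ} {S : Pol →ₗ[ℂ] ℂ} {h : R4 → ℝ}
  {ω : ∀ l : Cl, (Fin l.m → R4) → Lab ℝ} {l : Cl} {U : Set R4}

theorem act_sh (R : Iso) (d : ℝ) (z : R4) (A : Pol) :
    act R (sh d z A) = sh d (R z) (act R A) := by
  simp only [Ro.act, sh, rename_rename, Function.comp_def, map_smul, map_sub, R.symm_apply_apply]

theorem τ_sh (v : R4) (d : ℝ) (z : R4) (A : Pol) : net.τ v (sh d z A) = sh d (z + v) A := by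
  simp only [net, sh, rename_rename, Function.comp_def, sub_sub, add_comm v]

theorem Θ_sh (μ : Fin 4) (d : ℝ) (z : R4) (A : Pol) :
    net.Θ μ (sh d z A) = sh d (rf μ z) (net.Θ μ A) := by
  have e : ∀ y, rf μ (d⁻¹ • (y - rf μ z)) = d⁻¹ • (rf μ y - z) := fun y => by
    rw [← rfL_eq, map_smul, map_sub, rfL_eq, rf_rf]
  simp only [net, sh, thP, RingHom.comp_apply, map_rename, AlgHom.toRingHom_eq_coe,
    RingHom.coe_coe, rename_rename, Function.comp_def, e]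

theorem sh_mon (d : ℝ) (z : R4) (u : Fin m → R4 → ℝ) :
    sh d z (mon u) = mon fun i y => u i (d⁻¹ • (y - z)) := rename_mon _ u

theorem adm_sh {u : Fin m → R4 → ℝ} (hu : Adm u) (d0 : d ≠ 0) (z : R4) :
    Adm fun i y => u i (d⁻¹ • (y - z)) :=
  hu.comp ((Homeomorph.subRight z).trans (Homeomorph.smulOfNeZero d⁻¹ (inv_ne_zero d0)))
    (show ContDiff ℝ 1 fun y : R4 => d⁻¹ • (y - z) by fun_prop)

theorem sh_mem (hA : A ∈ net.loc (Bx r)) (d0 : 0 < d) {z : R4} (hU : ∀ y ∈ Bx r, z + d • y ∈ U) :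
    sh d z A ∈ net.loc U :=
  span_map (map_add _) (fun c X => ⟨c, map_smul _ c X⟩) (fun _ ⟨k, u, h1, h2, h3⟩ =>
    ⟨k, _, adm_sh h1 d0.ne' z, fun i y hy => by
      simpa [smul_smul, d0.ne'] using
        hU _ (h2 i (tsupport_comp (θ := fun y => d⁻¹ • (y - z)) (by fun_prop) hy)),
      by rw [← h3, sh_mon]⟩) hA

/-- the letter as a finite sum -/
theorem Yl_eq {s : Finset (Fin 4 → ℤ)} (hs : ∀ x, f (gp e x) ≠ 0 → x ∈ s) : Yl A d e f =
    ∑ x ∈ s, ((((3 ^ e)⁻¹ / d) ^ 4 * f (gp e x) : ℝ) : ℂ) • sh d (gp e x) A :=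
  finsum_eq_sum_of_support_subset _ fun x hx => hs x fun e => hx (by simp [e])

/-- the points of the grid in a cube -/
def gB (e R : ℕ) : Finset (Fin 4 → ℤ) :=
  Fintype.piFinset fun _ => Finset.Icc (-(3 ^ e * R) : ℤ) (3 ^ e * R)

theorem gp_box {R : ℕ} {x : Fin 4 → ℤ} (h : ∀ l, |gp e x l| ≤ R) : x ∈ gB e R :=
  Fintype.mem_piFinset.2 fun l => Finset.mem_Icc.2 (abs_le.1 (by
    have := h l
    simp only [gp, abs_mul, abs_inv, abs_pow, Nat.abs_ofNat] at this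
    rw [inv_mul_le_iff₀ (by positivity)] at this
    exact_mod_cast this))

theorem card_gB (e R : ℕ) : ((gB e R).card : ℝ) ≤ (3 ^ e * (2 * R + 1)) ^ 4 := by
  have : (3 ^ e * R + 1 - -(3 ^ e * R) : ℤ).toNat ≤ 3 ^ e * (2 * R + 1) := by
    rw [Int.toNat_le]
    push_cast
    linarith [one_le_pow₀ (n := e) (show (1 : ℤ) ≤ 3 by norm_num)]
  rw [gB, Fintype.card_piFinset, Finset.prod_const, Int.card_Icc, Finset.card_fin]
  exact_mod_cast Nat.pow_le_pow_left this 4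

theorem gp_add (e : ℕ) (x y : Fin 4 → ℤ) : gp e (x + y) = gp e x + gp e y := by
  ext l
  simp [gp, mul_add]

theorem gp_le {e₀ : ℕ} (he : e₀ ≤ e) (v : Fin 4 → ℤ) :
    gp e (fun l => 3 ^ (e - e₀) * v l) = gp e₀ v := by
  obtain ⟨s, rfl⟩ := Nat.exists_eq_add_of_le he
  ext l
  simp only [gp, pow_add, Nat.add_sub_cancel_left]
  push_cast
  field_simp

theorem gp_gi (g : Gn) : ∃ φ : Equiv.Perm (Fin 4 → ℤ), ∀ e x, gp e (φ x) = gi g (gp e x) := by
  cases g with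
  | inl σ => exact ⟨σ.arrowCongr (Equiv.refl ℤ), fun e x => by ext l; simp [gp, gi, Ro.prm_apply]⟩
  | inr μ =>
    have i : Function.Involutive fun x : Fin 4 → ℤ => Function.update x μ (-x μ) := fun x => by simp
    refine ⟨i.toPerm, fun e x => ?_⟩
    ext l
    by_cases h : l = μ <;> simp [gp, gi, rfL_eq, rf, h]

theorem abs_gi (g : Gn) : ∃ σ : Equiv.Perm (Fin 4), ∀ y l, |(gi g).symm y (σ l)| = |y l| := by
  suffices h : ∃ σ : Equiv.Perm (Fin 4), ∀ y l, |y (σ l)| = |gi g y l| from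
    h.imp fun σ h y l => by rw [h, LinearIsometryEquiv.apply_symm_apply]
  cases g with
  | inl σ => exact ⟨σ.symm, fun y l => by simp [gi, Ro.prm_apply]⟩
  | inr μ => exact ⟨1, fun y l => by simp [gi, rfL_eq]⟩

theorem rfL_symm (μ : Fin 4) (y : R4) : (rfL μ).symm y = rf μ y := by
  rw [LinearIsometryEquiv.symm_apply_eq, rfL_eq, rf_rf]

theorem fin_gp (hf : HasCompactSupport f) (e : ℕ) : {x | f (gp e x) ≠ 0}.Finite := by
  obtain ⟨R, hR⟩ := hf.isCompact.isBounded.exists_norm_le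
  obtain ⟨M, hM⟩ := exists_nat_ge R
  exact (gB e M).finite_toSet.subset fun x hx => gp_box fun l => (cube_of hR _ hx l).trans hM

theorem fin_Yl (hf : HasCompactSupport f) (t : ℝ) (P : (Fin 4 → ℤ) → Pol) :
    (Function.support fun x => ((t * f (gp e x) : ℝ) : ℂ) • P x).Finite :=
  (fin_gp hf e).subset fun x hx e => hx (by simp [e])

theorem Yl_add (hf : HasCompactSupport f) : Yl (A + B) d e f = Yl A d e f + Yl B d e f := by
  simp only [Yl_eq fun x => (fin_gp hf e).mem_toFinset.2, map_add, smul_add, Finset.sum_add_distrib]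

theorem Yl_smul (hf : HasCompactSupport f) (c : ℂ) : Yl (c • A) d e f = c • Yl A d e f := by
  simp only [Yl_eq fun x => (fin_gp hf e).mem_toFinset.2, map_smul, Finset.smul_sum, smul_comm c]

theorem Yl_zero : Yl 0 d e f = 0 := by simp [Yl]

theorem Yl_lin (hf : HasCompactSupport f) (hf' : HasCompactSupport f') (t : ℝ) :
    Yl A d e (f + t • f') = Yl A d e f + (t : ℂ) • Yl A d e f' := by
  have a := fun x => ((fin_gp hf e).union (fin_gp hf' e)).mem_toFinset (a := x)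
  rw [Yl_eq (f := f) fun x h => (a x).2 (.inl h), Yl_eq (f := f') fun x h => (a x).2 (.inr h),
    Yl_eq fun x h => (a x).2 (by
    by_contra c
    simp only [mem_union, mem_ofPred_eq, not_or, not_not] at c
    simp [c.1, c.2] at h), Finset.smul_sum, ← Finset.sum_add_distrib]
  refine Finset.sum_congr rfl fun x _ => ?_
  rw [smul_smul, ← add_smul]
  congr 1
  simp only [Pi.add_apply, Pi.smul_apply, smul_eq_mul]
  push_cast
  ring

theorem Yl_τ (hf : HasCompactSupport f) {e₀ : ℕ} (he : e₀ ≤ e) (v : Fin 4 → ℤ) :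
    net.τ (gp e₀ v) (Yl A d e f) = Yl A d e fun y => f (y - gp e₀ v) := by
  rw [Yl, map_finsum _ (fin_Yl hf _ _), Yl, eq_comm,
    ← finsum_comp_equiv (Equiv.addRight fun l => 3 ^ (e - e₀) * v l)]
  simp only [map_smul, τ_sh, Equiv.coe_addRight, gp_add, gp_le he, add_sub_cancel_right]

theorem Yl_act (hf : HasCompactSupport f) (g : Gn) :
    act (gi g) (Yl A d e f) = Yl (act (gi g) A) d e fun y => f ((gi g).symm y) := by
  obtain ⟨φ, hφ⟩ := gp_gi g
  rw [Yl, map_finsum _ (fin_Yl hf _ _), Yl, eq_comm, ← finsum_comp_equiv φ]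
  simp only [map_smul, act_sh, hφ, LinearIsometryEquiv.symm_apply_apply]

theorem Yl_Θ (hf : HasCompactSupport f) (μ : Fin 4) :
    net.Θ μ (Yl A d e f) = Yl (net.Θ μ A) d e fun y => f (rf μ y) := by
  obtain ⟨φ, hφ⟩ := gp_gi (.inr μ)
  rw [Yl, map_finsum _ (fin_Yl hf _ _), Yl, eq_comm, ← finsum_comp_equiv φ]
  simp only [net.Θ_smul, Complex.conj_ofReal, Θ_sh, hφ, gi, rfL_eq, rf_rf]

theorem Yl_mem (hA : A ∈ net.loc (Bx r)) (hf : HasCompactSupport f) (d0 : 0 < d)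
    (hU : ∀ z ∈ tsupport f, ∀ y ∈ Bx r, z + d • y ∈ U) : Yl A d e f ∈ net.loc U := by
  rw [Yl_eq fun x => (fin_gp hf e).mem_toFinset.2]
  exact Submodule.sum_mem _ fun x hx => Submodule.smul_mem _ _
    (sh_mem hA d0 (hU _ (subset_tsupport _ ((fin_gp hf e).mem_toFinset.1 hx))))

theorem Tw.supp {u : Fin m → R4 → ℝ} (hu : Tw Λ δ u) (i : Fin m) : tsupport (u i) ⊆ Bx (Λ + 1) :=
  fun y hy l => (closure_minimal (t := {y : R4 | |y l| ≤ Λ}) (fun y hy => hu.2.1.cube i y hy l)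
    (isClosed_le (by fun_prop) continuous_const) hy).trans_lt (lt_add_one _)

theorem Tw.mem {u : Fin m → R4 → ℝ} (hu : Tw Λ δ u) : mon u ∈ net.loc (Bx (Λ + 1)) :=
  mon_mem hu.1 hu.supp

theorem Tw.act {u : Fin m → R4 → ℝ} (hu : Tw Λ δ u) (g : Gn) :
    Tw Λ δ fun i y => u i ((gi g).symm y) := by
  obtain ⟨σ, hσ⟩ := abs_gi g
  have a : ∀ y z l, |(gi g).symm y (σ l) - (gi g).symm z (σ l)| = |y l - z l| := fun y z l => by
    simpa only [map_sub, PiLp.sub_apply] using hσ (y - z) l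
  refine ⟨Ro.adm_act hu.1 _, ⟨hu.2.1.one, hu.2.1.pos, fun i y hy l => hσ y l ▸ hu.2.1.cube i _ hy _,
    fun i y => hu.2.1.bd i _, fun i y z => (gi g).symm.dist_map y z ▸ hu.2.1.lip i _ _,
    fun i j n y z hy hz => ?_⟩, fun i y z hy hz l => a y z l ▸ hu.2.2 i _ _ hy hz _⟩
  obtain ⟨l, hl⟩ := hu.2.1.sep i j n _ _ hy hz
  exact ⟨σ.symm l, by rwa [← a, σ.apply_symm_apply]⟩

theorem Wo.mem (hA : Wo m Λ δ A) : A ∈ net.loc (Bx (Λ + 1)) := by
  obtain ⟨ι, s, c, u, -, h2, rfl⟩ := hA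
  exact Submodule.sum_mem _ fun a ha => Submodule.smul_mem _ _ (h2 a ha).mem

theorem Wo.act (hA : Wo m Λ δ A) (g : Gn) : Wo m Λ δ (act (gi g) A) := by
  obtain ⟨ι, s, c, u, h1, h2, rfl⟩ := hA
  exact ⟨ι, s, c, _, h1, fun a ha => (h2 a ha).act g, by simp only [map_sum, map_smul, Ro.act_mon]⟩

theorem Wo.smul (hA : Wo m Λ δ A) {t : ℝ} (ht : |t| ≤ 1) : Wo m Λ δ ((t : ℂ) • A) := by
  obtain ⟨ι, s, c, u, h1, h2, rfl⟩ := hA
  refine ⟨ι, s, fun a => t * c a, u, le_trans (Finset.sum_le_sum fun a _ => ?_) h1, h2, ?_⟩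
  · exact (abs_mul _ _).trans_le (mul_le_of_le_one_left (abs_nonneg _) ht)
  · simp only [Finset.smul_sum, smul_smul, Complex.ofReal_mul]

theorem mx_gi (g : Gn) : mx (gi g) = Lb.gm g := by
  cases g with
  | inl σ => exact Lb.mx_inl (Ro.prm_apply σ)
  | inr μ => exact Lb.mx_inr fun y i => by by_cases h : i = μ <;> simp [gi, rfL_eq, rf, h]

theorem rE_cx (R : Iso) (a : Lab ℝ) : rE R (cx a) = cx (rho (mx R) a) :=
  (Lb.rho_map Complex.ofRealHom).symm

theorem cx_re_im (c : Lab ℂ) : c = cx (c.map Complex.re) + Complex.I • cx (c.map Complex.im) := by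
  ext x y
  simp [cx, mul_comm Complex.I]

theorem cx_add (a b : Lab ℝ) : cx (a + b) = cx a + cx b := by
  ext x y
  simp [cx]

theorem cx_smul (t : ℝ) (a : Lab ℝ) : cx (t • a) = (t : ℂ) • cx a := by
  ext x y
  simp [cx]

theorem ip_cx (a b : Lab ℝ) : (ip a b : ℝ) = ip (cx a) (cx b) := by simp [ip, cx]

theorem cx_pc (l : Cl) (a : Lab ℝ) : cx (pc l a) = pc l (cx a) := by
  have h1 : cx Lb.an = Lb.an := by ext x y; simp [cx, Lb.an, apply_ite ((↑) : ℝ → ℂ)]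
  have h2 : cx Lb.hs = Lb.hs := by ext x y; simp [cx, Lb.hs]
  have h3 : ∀ a b, cx (a * b) = cx a * cx b := fun a b => Matrix.map_mul (f := Complex.ofRealHom)
  have h4 : ∀ a b, cx (a - b) = cx a - cx b := fun a b => by ext x y; simp [cx]
  have h5 : ∀ a, cx a.transpose = (cx a).transpose := fun a => rfl
  cases l <;> simp only [pc, Lb.pa, Lb.sy, h1, h2, h3, h4, h5, cx_add, cx_smul, Complex.ofReal_div,
    ip_cx, Complex.ofReal_inv, Complex.ofReal_ofNat]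

theorem cx_c0 : cx Lb.c0 = Lb.c0 := by
  ext x y
  by_cases h : x = y <;> simp [cx, Lb.c0, h]

theorem pc_re {c : Lab ℂ} (h : pc l c = c) :
    pc l (c.map Complex.re) = c.map Complex.re ∧ pc l (c.map Complex.im) = c.map Complex.im := by
  have a := congrArg (pc l) (cx_re_im c)
  rw [h, Lb.pc_add, Lb.pc_smul, ← cx_pc, ← cx_pc] at a
  constructor <;> ext x y <;> rw [Matrix.map_apply, congrFun₂ a x y] <;> simp [cx]

theorem rE_one (c : Lab ℂ) : rE 1 c = c := by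
  have : (mx 1).map ((↑) : ℝ → ℂ) = 1 := by
    ext i j
    by_cases h : i = j <;> simp [mx, h, Matrix.one_apply]
  rw [rE, this, Lb.rho_one]

theorem Vs_pc {a c : Lab ℝ} (h : pc l a = a) (hc : c ∈ Vs a) : pc l c = c := by
  induction hc using Submodule.span_induction with
  | mem x hx => obtain ⟨σ, rfl⟩ := hx; rw [Lb.pc_rho (Lb.mx_orth _), h]
  | zero => exact (Lb.pcL l).map_zero
  | add x y _ _ a b => rw [Lb.pc_add, a, b]
  | smul t x _ a => rw [Lb.pc_smul, a]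

theorem Vs_eq {a c : Lab ℝ} (hc : c ∈ Vs a) :
    ∃ x : Equiv.Perm (Fin 4) → ℝ, c = ∑ σ, x σ • rho (mx (Ro.prm σ)) a :=
  ((Submodule.mem_span_range_iff_exists_fun ℝ).1 hc).imp fun _ => Eq.symm

theorem qb_C (hS : net.St S) {R : ℝ} (R0 : 0 ≤ R) (c : ℂ) : net.QB S (C c) R ‖c‖ := by
  have : net.QB S 1 R 1 := ⟨net.one _, R0, zero_le_one, fun μ b hb => by
    rw [one_mul, net.τ_τ, one_pow, one_mul]
    exact hS.con μ (net.mono hb (Ot.hs μ le_rfl)) (by simpa using R0)⟩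
  simpa only [smul_eq_C_mul, mul_one] using this.smul c

theorem UU_le : UU ≤ atTop := Nat.hyperfilter_le_atTop

instance : UU.NeBot := (hyperfilter ℕ).neBot

theorem ctr_add : ctr S (A + B) = ctr S A + ctr S B := by
  simp only [ctr, map_add, add_sub_add_comm]

theorem ctr_smul (c : ℂ) : ctr S (c • A) = c • ctr S A := by
  rw [ctr, ctr, map_smul, smul_sub, smul_eq_mul, map_mul, ← smul_eq_C_mul]

theorem ctr_mem (hA : A ∈ net.loc U) : ctr S A ∈ net.loc U := by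
  refine Submodule.sub_mem _ hA ?_
  simpa only [smul_eq_C_mul, mul_one] using Submodule.smul_mem _ (S A) (net.one U)

theorem ctr_zero : ctr S 0 = 0 := by simp [ctr]

theorem ctr_τ (hS : net.St S) (hA : A ∈ net.loc U) (v : R4) :
    net.τ v (ctr S A) = ctr S (net.τ v A) := by
  rw [ctr, ctr, map_sub, hS.ti v (Net.adm hA), algHom_C, algebraMap_eq]

theorem ctr_Θ (hS : net.St S) (hA : A ∈ net.loc U) (μ : Fin 4) :
    net.Θ μ (ctr S A) = ctr S (net.Θ μ A) := by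
  rw [ctr, ctr, map_sub, hS.herm μ (Net.adm hA)]
  simp [net, thP]

theorem ctr_qb (hS : net.St S) {R c : ℝ} (hA : net.QB S A R c) :
    net.QB S (ctr S A) R (2 * c) := by
  have := hA.add hS (qb_C hS hA.2.1 (-S A))
  rw [map_neg, ← sub_eq_add_neg, norm_neg] at this
  exact this.mono hS le_rfl (by linarith [hS.bound hA])

/-- the covariant word as a finite sum -/
theorem Zc_eq {s : Finset (Fin l.m → Fin 4 → ℤ)} (hs : ∀ y, (ω l fun i => gp e (y i)) ≠ 0 → y ∈ s)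
    (c : Lab ℂ) : Zc h ω l e c = ∑ y ∈ s, ((((3 ^ e)⁻¹ ^ (4 * l.m) : ℝ) : ℂ) *
      ip c (cx (ω l fun i => gp e (y i)))) • mon (hy h fun i => gp e (y i)) :=
  finsum_eq_sum_of_support_subset _ fun y hy => hs y fun e => hy (by simp [e, ip])

theorem card_box (e R m : ℕ) : (3 ^ e : ℝ)⁻¹ ^ (4 * m) *
    (Fintype.piFinset fun _ : Fin m => gB e R).card ≤ (2 * R + 1) ^ (4 * m) := by
  rw [Fintype.card_piFinset, Finset.prod_const, Finset.card_fin, Nat.cast_pow, inv_pow,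
    inv_mul_le_iff₀ (by positivity), ← mul_pow, pow_mul]
  exact pow_le_pow_left₀ (Nat.cast_nonneg _) (card_gB e R) m

theorem ip_rE (R : Iso) (c : Lab ℂ) (a : Lab ℝ) : ip (rE R c) (cx (rho (mx R) a)) = ip c (cx a) := by
  rw [← rE_cx]
  refine Lb.ip_rho ?_
  rw [← Matrix.transpose_map]
  exact (Matrix.map_mul (f := Complex.ofRealHom)).symm.trans (by simp [Lb.mx_orth])

variable (H : Dat w h ω Λ δ)
include H

theorem Dat.box (l : Cl) : ∃ R : ℕ, ∀ e (y : Fin l.m → Fin 4 → ℤ), (ω l fun i => gp e (y i)) ≠ 0 →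
    y ∈ Fintype.piFinset fun _ => gB e R := by
  obtain ⟨R, hR⟩ := (H.cpt l).isCompact.isBounded.exists_norm_le
  obtain ⟨M, hM⟩ := exists_nat_ge R
  exact ⟨M, fun e y hy => Fintype.mem_piFinset.2 fun i => gp_box fun k =>
    (PiLp.norm_apply_le _ k).trans ((norm_le_pi_norm (fun i => gp e (y i)) i).trans
      ((hR _ (subset_tsupport _ hy)).trans hM))⟩

theorem Dat.fin (l : Cl) (e : ℕ) :
    {y : Fin l.m → Fin 4 → ℤ | (ω l fun i => gp e (y i)) ≠ 0}.Finite :=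
  let ⟨_, hR⟩ := H.box l
  (Finset.finite_toSet _).subset (hR e)

theorem Dat.sym (l : Cl) (y : Fin l.m → R4) : (ω l y).transpose = ω l y := by
  rw [← H.cls, ← Lb.pa_pc, Lb.pa_tr]

theorem Dat.hy_act (R : Iso) (y : Fin m → R4) :
    (fun i x => hy h y i (R.symm x)) = hy h fun i => R (y i) := by
  funext i x
  rw [hy, hy, ← H.rad R, map_sub, R.apply_symm_apply]

theorem Zc_sum (c : Lab ℂ) : Zc h ω l e c = ∑ y ∈ (H.fin l e).toFinset,
    ((((3 ^ e)⁻¹ ^ (4 * l.m) : ℝ) : ℂ) * ip c (cx (ω l fun i => gp e (y i)))) •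
      mon (hy h fun i => gp e (y i)) := Zc_eq (fun _ => (H.fin l e).mem_toFinset.2) c

theorem Zc_gi (g : Gn) (c : Lab ℂ) : Zc h ω l e (rE (gi g) c) = ∑ y ∈ (H.fin l e).toFinset,
    ((((3 ^ e)⁻¹ ^ (4 * l.m) : ℝ) : ℂ) * ip c (cx (ω l fun i => gp e (y i)))) •
      mon (hy h fun i => gi g (gp e (y i))) := by
  obtain ⟨φ, hφ⟩ := gp_gi g
  rw [Zc, ← finsum_comp_equiv (Equiv.piCongrRight fun _ => φ)]
  simp only [Equiv.piCongrRight_apply, Pi.map_apply, hφ, H.cov]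
  refine (finsum_congr fun y => by rw [← cx, ip_rE]).trans
    (finsum_eq_sum_of_support_subset _ fun y hy => ?_)
  exact (H.fin l e).mem_toFinset.2 fun e => hy (by simp [e, ip, cx])

theorem Zc_lin (t : ℂ) (a b : Lab ℂ) :
    Zc h ω l e (t • a + b) = t • Zc h ω l e a + Zc h ω l e b := by
  simp only [Zc_sum H, Finset.smul_sum, ← Finset.sum_add_distrib, Lb.add_ip, Lb.smul_ip, mul_add,
    add_smul, smul_smul, mul_left_comm t]

theorem Zc_pc (l' : Cl) (c : Lab ℂ) :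
    Zc h ω l e (pc l' c) = if l = l' then Zc h ω l e c else 0 := by
  have : ∀ y, ip (pc l' c) (cx (ω l y)) = if l = l' then ip c (cx (ω l y)) else 0 := fun y => by
    rw [← Lb.ip_pc, ← cx_pc, ← H.cls, Lb.pc_pc]
    split_ifs with a b b
    · rw [a, H.cls]
    · exact (b a.symm).elim
    · exact (a b.symm).elim
    · simp [ip, cx]
  simp only [Zc_sum H, this]
  split_ifs <;> simp

theorem Zc_pa (c : Lab ℂ) : Zc h ω l e (Lb.pa c) = Zc h ω l e c := by
  simpa only [if_true, Lb.pc_pa, Zc_pc H] using (Zc_pc H l (Lb.pa c)).symm.trans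
    (congrArg (Zc h ω l e) (Lb.pc_pa l))

theorem Zc_act (g : Gn) (c : Lab ℂ) : act (gi g) (Zc h ω l e c) = Zc h ω l e (rE (gi g) c) := by
  simp only [Zc_gi H, Zc_sum H c, map_sum, map_smul, Ro.act_mon, H.hy_act]

theorem Zc_Θ (μ : Fin 4) (c : Lab ℂ) :
    net.Θ μ (Zc h ω l e c) = Zc h ω l e (rE (rfL μ) c.conjTranspose) := by
  rw [Zc_sum H, map_sum]
  refine .trans (Finset.sum_congr rfl fun y _ => ?_) (Zc_gi H (.inr μ) _).symm
  rw [net.Θ_smul, Θ_mon, ← H.hy_act, map_mul, Complex.conj_ofReal, ← Lb.ip_tr c.conjTranspose]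
  simp only [gi, rfL_symm]
  congr 2
  rw [show ∀ a, (cx a).transpose = cx a.transpose from fun _ => rfl, H.sym]
  simp [ip, cx]

theorem Zc_mem (c : Lab ℂ) : Zc h ω l e c ∈ net.loc (Bx (Λ + 1)) := by
  rw [Zc_sum H]
  exact Submodule.sum_mem _ fun y hy => Submodule.smul_mem _ _
    (H.tw l _ (subset_tsupport _ ((H.fin l e).mem_toFinset.1 hy))).mem

theorem Zc_wo (l : Cl) (a : Lab ℝ) :
    ∃ C > (0 : ℝ), ∀ e, Wo l.m Λ δ (((C⁻¹ : ℝ) : ℂ) • Zc h ω l e (cx a)) := by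
  obtain ⟨R, hR⟩ := H.box l
  have c : Continuous fun y => ip a (ω l y) := by
    have := H.cont l
    simp only [ip]
    fun_prop
  obtain ⟨B, hB⟩ := c.bounded_above_of_compact_support
    ((H.cpt l).mono fun y hy e => hy (by simp [e, ip]))
  have B0 := (norm_nonneg _).trans (hB 0)
  refine ⟨(2 * R + 1) ^ (4 * l.m) * (B + 1), by positivity, fun e => ⟨_, (H.fin l e).toFinset,
    fun y => ((2 * R + 1) ^ (4 * l.m) * (B + 1))⁻¹ * ((3 ^ e)⁻¹ ^ (4 * l.m) *
      ip a (ω l fun i => gp e (y i))), fun y => hy h fun i => gp e (y i), ?_,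
    fun y hy => H.tw l _ (subset_tsupport _ ((H.fin l e).mem_toFinset.1 hy)), ?_⟩⟩
  · refine (Finset.sum_le_card_nsmul _ _ (((2 * R + 1) ^ (4 * l.m) * (B + 1))⁻¹ *
      ((3 ^ e)⁻¹ ^ (4 * l.m) * (B + 1))) fun y _ => ?_).trans ?_
    · rw [abs_mul, abs_mul, abs_of_pos (by positivity), abs_of_pos (by positivity)]
      gcongr
      exact (hB _).trans (lt_add_one B).le
    · rw [nsmul_eq_mul, mul_left_comm, inv_mul_le_one₀ (by positivity), ← mul_assoc, mul_comm _ (_ ^ _)]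
      refine mul_le_mul_of_nonneg_right (le_trans ?_ (card_box e R _)) (by positivity)
      gcongr
      exact fun y hy => hR e y ((H.fin l e).mem_toFinset.1 hy)
  · simp only [Zc_sum H, Finset.smul_sum, smul_smul, Complex.ofReal_mul, ip_cx]

theorem Yc_linc (hf : HasCompactSupport f) (t : ℂ) (a b : Lab ℂ) :
    Yc h ω S l d e (t • a + b) f = t • Yc h ω S l d e a f + Yc h ω S l d e b f := by
  simp only [Yc, Zc_lin H, Yl_add hf, Yl_smul hf, ctr_add, ctr_smul]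

theorem Yc_lin (hf : HasCompactSupport f) (hf' : HasCompactSupport f') (t : ℝ) (c : Lab ℂ) :
    Yc h ω S l d e c (f + t • f') = Yc h ω S l d e c f + (t : ℂ) • Yc h ω S l d e c f' := by
  simp only [Yc, Yl_lin hf hf', ctr_add, ctr_smul]

theorem Yc_mem (hf : HasCompactSupport f) (d0 : 0 < d) (c : Lab ℂ)
    (hU : ∀ z ∈ tsupport f, ∀ y ∈ Bx (Λ + 1), z + d • y ∈ U) : Yc h ω S l d e c f ∈ net.loc U :=
  ctr_mem (Yl_mem (Zc_mem H c) hf d0 hU)

theorem Yc_τ (hS : net.St S) (hf : HasCompactSupport f) (d0 : 0 < d) {e₀ : ℕ} (he : e₀ ≤ e)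
    (v : Fin 4 → ℤ) (c : Lab ℂ) : net.τ (gp e₀ v) (Yc h ω S l d e c f) =
      Yc h ω S l d e c fun y => f (y - gp e₀ v) := by
  rw [Yc, ctr_τ hS (Yl_mem (Zc_mem H c) hf d0 fun _ _ _ _ => mem_univ _), Yl_τ hf he, Yc]

theorem Yc_Θ (hS : net.St S) (hf : HasCompactSupport f) (d0 : 0 < d) (μ : Fin 4) (c : Lab ℂ) :
    net.Θ μ (Yc h ω S l d e c f) =
      Yc h ω S l d e (rE (rfL μ) c.conjTranspose) fun y => f (rf μ y) := by
  rw [Yc, ctr_Θ hS (Yl_mem (Zc_mem H c) hf d0 fun _ _ _ _ => mem_univ _), Yl_Θ hf, Zc_Θ H, Yc]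

variable (lam : Cl → ℕ → ℝ) (j : ℕ × ℕ)

theorem Oa_lin (c : Lab ℂ) (t : ℝ) (hf : C1 univ f) (hf' : C1 univ f') :
    Oa h ω S lam j c (f + t • f') = Oa h ω S lam j c f + (t : ℂ) • Oa h ω S lam j c f' := by
  simp only [Oa, Yc_lin H hf.1 hf'.1, smul_add, Finset.sum_add_distrib, Finset.smul_sum,
    smul_comm (t : ℂ)]

theorem Oa_linc (t : ℂ) (a b : Lab ℂ) (hf : C1 univ f) :
    Oa h ω S lam j (t • a + b) f = t • Oa h ω S lam j a f + Oa h ω S lam j b f := by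
  simp only [Oa, Yc_linc H hf.1, smul_add, Finset.sum_add_distrib, Finset.smul_sum, smul_comm t]

theorem Oa_refl (hS : net.St S) (μ : Fin 4) (c : Lab ℂ) (hf : C1 univ f) :
    net.Θ μ (Oa h ω S lam j c f) =
      Oa h ω S lam j (rE (rfL μ) c.conjTranspose) fun y => f (rf μ y) := by
  simp only [Oa, map_sum, net.Θ_smul, Complex.conj_ofReal,
    Yc_Θ H hS hf.1 (show (0 : ℝ) < (2 ^ j.1)⁻¹ by positivity)]

theorem Oa_pa (c : Lab ℂ) : Oa h ω S lam j (Lb.pa c) f = Oa h ω S lam j c f := by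
  simp only [Oa, Yc, Zc_pa H]

theorem Oa_pc {c : Lab ℂ} (hc : pc l c = c) :
    Oa h ω S lam j c f = (lam l j.1 : ℂ) • Yc h ω S l (dn j.1) j.2 c f :=
  Finset.sum_eq_single_of_mem l (Finset.mem_univ _) fun l' _ n => by
    rw [Yc, ← hc, Zc_pc H, if_neg n, Yl_zero, ctr_zero, smul_zero]

theorem Oa_loc (c : Lab ℂ) (hU : IsOpen U) (hf : C1 U f) :
    ∀ᶠ n in atTop, ∀ e, Oa h ω S lam (n, e) c f ∈ net.loc U := by
  obtain ⟨ε, ε0, hε⟩ := hf.1.isCompact.exists_thickening_subset_open hU hf.2.2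
  have := (tendsto_inv_atTop_zero.comp (tendsto_pow_atTop_atTop_of_one_lt
    (one_lt_two (α := ℝ)))).mul_const (2 * (Λ + 1))
  rw [zero_mul] at this
  refine (this.eventually_lt_const ε0).mono fun n hn e => Submodule.sum_mem _ fun l _ =>
    Submodule.smul_mem _ _ (Yc_mem H hf.1 (by positivity) c fun z hz y hy => hε ?_)
  refine Metric.mem_thickening_iff.2 ⟨z, hz, lt_of_le_of_lt ?_ hn⟩
  rw [dist_self_add_left, norm_smul, Real.norm_of_nonneg (by positivity)]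
  refine mul_le_mul_of_nonneg_left ?_ (by positivity)
  simpa using dist_le_two (y := y) (z := 0) fun l => by simpa using (hy l).le

end Pool.Agent.Lib.MP_7f377f_mp.Cm
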