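import Pool.Agent.Lib.MP_7f377f_mp.G.CyD1

/-! The vacuum state of the cylinder. -/

noncomputable section

set_option linter.unusedSectionVars false
variable [Pool.Agent.Lib.MP_7f377f_mp.GD]

namespace Pool.Agent.Lib.MP_7f377f_mp.Ch

open MeasureTheory Measure Function Filter Topology Pool.Agent.Lib.MP_2d4879_an Hm RGP

variable {G : Type} [MeasurableSpace G] {μ : Measure G} [IsProbabilityMeasure μ] {E S : Type}
  {W : (E → G) → (S → G) → (E → G) → ℝ}

/-- the vacuum expectation of a slab is the integral against a finite measure -/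
theorem Wt.vac_meas (hW : Wt μ W) {l : ℝ} (hl : 0 < l) {e : Lp ℝ 2 (PP μ E)}
    (he : 0 ≤ᵐ[PP μ E] e) (a : ℤ) (k : ℕ) : ∃ ν : Measure (Ix E S → G), IsFiniteMeasure ν ∧
      ∀ F, BM F → vac W l e a k F = ∫ w, F w ∂ν := by
  let φ : (E → G) × (E → G) × (Ix E S → G) → Ix E S → G := fun p =>
    put a p.1 (put (a + (k + 1 : ℕ)) p.2.1 p.2.2)
  have mφ : Measurable φ := meas_put' a measurable_fst (meas_put' _ (by fun_prop) (by fun_prop))
  have ie : Integrable (fun x => |e x|) (PP μ E) := ((Lp.memLp e).integrable one_le_two).abs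
  have ae : ∀ᵐ x ∂PP μ E, |e x| = e x := he.mono fun x hx => abs_of_nonneg hx
  have i2 : ∀ {H : (E → G) × (Ix E S → G) → ℝ}, BM H →
      Integrable (fun q => H q * |e q.1|) ((PP μ E).prod (PP μ (Ix E S))) := fun {H} bH => by
    obtain ⟨C, hC⟩ := bH.bdd
    exact (ie.comp_fst _).bdd_mul bH.meas.aestronglyMeasurable (.of_forall hC)
  have i3 : ∀ {H : (E → G) × (E → G) × (Ix E S → G) → ℝ}, BM H →
      Integrable (fun p => H p * (|e p.1| * |e p.2.1|))
        ((PP μ E).prod ((PP μ E).prod (PP μ (Ix E S)))) := fun {H} bH => by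
    obtain ⟨C, hC⟩ := bH.bdd
    exact (ie.mul_prod (ie.comp_fst _)).bdd_mul bH.meas.aestronglyMeasurable (.of_forall hC)
  let d : (E → G) × (E → G) × (Ix E S → G) → ℝ := fun p =>
    (l ^ (k + 1))⁻¹ * wt W a (k + 1) (φ p) * (|e p.1| * |e p.2.1|)
  have id : Integrable d _ := i3 ((BM.const _).mul ((hW.bm_wt a (k + 1)).comp mφ))
  have d0 : ∀ p, 0 ≤ d p := fun p =>
    mul_nonneg (mul_nonneg (by positivity) (hW.wt_pos _ _ _).le) (by positivity)
  have := isFiniteMeasure_withDensity_ofReal id.2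
  refine ⟨(((PP μ E).prod ((PP μ E).prod (PP μ (Ix E S)))).withDensity fun p =>
    ENNReal.ofReal (d p)).map φ, inferInstance, fun F bF => ?_⟩
  rw [integral_map mφ.aemeasurable bF.meas.aestronglyMeasurable,
    integral_withDensity_eq_integral_toReal_smul₀ id.1.aemeasurable.ennreal_ofReal
      (.of_forall fun _ => ENNReal.ofReal_lt_top)]
  simp only [ENNReal.toReal_ofReal (d0 _), smul_eq_mul]
  have e1 : ∀ p, d p * F (φ p) = (l ^ (k + 1))⁻¹ *
      (F (φ p) * wt W a (k + 1) (φ p) * (|e p.1| * |e p.2.1|)) := fun p => by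
    simp only [d]; ring
  simp only [e1]
  rw [integral_const_mul, integral_prod _ (i3 ((bF.mul (hW.bm_wt a (k + 1))).comp mφ)), vac,
    div_eq_inv_mul]
  congr 1
  refine integral_congr_ae (ae.mono fun x hx => ?_)
  have b2 : BM fun q : (E → G) × (Ix E S → G) => F (φ (x, q)) * wt W a (k + 1) (φ (x, q)) :=
    (bF.mul (hW.bm_wt a (k + 1))).comp (mφ.comp measurable_prodMk_left)
  simp only [mul_left_comm _ |e x|]
  rw [integral_const_mul, integral_prod _ (i2 b2), hx]
  congr 1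
  refine integral_congr_ae (ae.mono fun y hy => ?_)
  simp only [integral_mul_const, hy]
  rfl

end Pool.Agent.Lib.MP_7f377f_mp.Ch

namespace Pool.Agent.Lib.MP_7f377f_mp.YM9

open MeasureTheory Filter Topology Function Real BoundedContinuousFunction
open RGP (BM)
open Ch (Win vac tor sft rfc)
open Y6 (bm_of_cont)

set_option linter.unusedSectionVars false

variable [MeasurableSpace SU2] [BorelSpace SU2]

namespace D2

/-- truncation to a time interval -/
def cut (a b : ℤ) (U : Fd) : Fd := fun e => if a ≤ e.1 0 ∧ e.1 0 < b then U e else 1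

theorem cont_cut (a b : ℤ) : Continuous (cut a b) := continuous_pi fun e => by
  unfold cut
  split_ifs <;> fun_prop

theorem dep_cut {α : Type} (F : Fd → α) (a b : ℤ) :
    DependsOn (fun U => F (cut a b U)) (Tm a b) := fun U V hU => congrArg F (funext fun e => by
  unfold cut
  split_ifs with h'
  exacts [hU e h', rfl])

theorem cut_eq {α : Type} {F : Fd → α} {a b : ℤ} (h : DependsOn F (Tm a b)) (U : Fd) :
    F (cut a b U) = F U := h fun _ he => if_pos he

theorem tendsto_cut (U : Fd) :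
    Tendsto (fun k : ℕ => cut (0 - (k + 1 : ℕ)) (0 + (k + 1 : ℕ)) U) atTop (𝓝 U) :=
  tendsto_pi_nhds.2 fun e => tendsto_const_nhds.congr' <|
    (eventually_ge_atTop ((0 - e.1 0).toNat + (e.1 0 - 0).toNat)).mono fun k hk =>
      (if_pos ⟨by omega, by omega⟩).symm

theorem tm_mono {a b a' b' : ℤ} (h1 : a' ≤ a) (h2 : b ≤ b') : Tm a b ⊆ Tm a' b' :=
  fun _ h => ⟨h1.trans h.1, h.2.trans_le h2⟩

theorem dep_lift {M : Fin 3 → ℕ} {F : Fd → ℝ} {a b : ℤ} (h : DependsOn F (Tm a b)) :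
    DependsOn (fun w => F (lift (M := M) w)) (Win a b) := fun w w' hw => h fun e he => by
  obtain ⟨x, i⟩ := e
  revert he
  refine Fin.cases (fun he => hw _ ?_) (fun j he => hw _ ?_) i <;>
    simp [Win, Ch.lev, ix, Tm] at he ⊢ <;> omega

theorem dep_sht {F : Fd → ℝ} {a b : ℤ} (h : DependsOn F (Tm a b)) (s : ℤ) :
    DependsOn (fun U => F (sht s U)) (Tm (a + s) (b + s)) := fun U V hU => h fun e he =>
  hU _ (by simp only [Tm, Set.mem_ofPred_eq, Pi.add_apply, Pi.single_eq_same] at he ⊢; omega)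

theorem dep_rfl {F : Fd → ℝ} {a b : ℤ} (h : DependsOn F (Tm a b)) :
    DependsOn (fun U => F (rfl0 U)) (Tm (-b) (1 - a)) := fun U V hU => h fun e he => by
  have : U (rq e.2 e.2 e.1, e.2) = V (rq e.2 e.2 e.1, e.2) := hU _ (by
    simp only [Tm, Set.mem_ofPred_eq, rq, update_self] at he ⊢
    split_ifs <;> omega)
  simp only [rfl0, this]

theorem sp_update {M : Fin 3 → ℕ} (x : Z4) (t : ℤ) : sp M (update x 0 t) = sp M x :=
  funext fun j => by simp [sp]

theorem lift_sft {M : Fin 3 → ℕ} [∀ j, NeZero (M j)] (s : ℤ) (w : Ch.Ix (Ed M) (Sp M) → SU2) :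
    lift (sft s w) = sht s (lift w) := funext fun e => by
  simp only [lift, sft, RGP.pat, RGP.sg_false, sht, shf, ix, sp_add, sp_zero, add_zero,
    Pi.add_apply, Pi.single_eq_same]

theorem lift_rfc {M : Fin 3 → ℕ} [∀ j, NeZero (M j)] (s : ℤ) (w : Ch.Ix (Ed M) (Sp M) → SU2) :
    sht s (lift (rfc (2 * s) w)) = rfl0 (sht s (lift w)) := funext fun e => by
  obtain ⟨x, i⟩ := e
  refine Fin.cases ?_ (fun j => ?_) i
  · simp only [lift, rfc, RGP.pat, sht, shf, ix, sp_add, sp_zero, add_zero, Pi.add_apply,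
      Pi.single_eq_same, rfl0, rq, Fin.cases_zero, Sum.isRight_inr, RGP.sg_true, Sum.elim_inr,
      if_true, or_self, update_self, sp_update]
    congr 3
    ring
  · simp only [lift, rfc, RGP.pat, sht, shf, ix, sp_add, sp_zero, add_zero, Pi.add_apply,
      Pi.single_eq_same, rfl0, rq, Fin.cases_succ, Sum.isRight_inl, RGP.sg_false, Sum.elim_inl,
      Fin.succ_ne_zero, if_false, or_self, update_self, sp_update]
    congr 2
    ring

theorem sht_zero (U : Fd) : sht 0 U = U := funext fun e => by simp [sht, shf]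

theorem lift_rfc0 {M : Fin 3 → ℕ} [∀ j, NeZero (M j)] (w : Ch.Ix (Ed M) (Sp M) → SU2) :
    lift (rfc 0 w) = rfl0 (lift w) := by
  simpa only [mul_zero, sht_zero] using lift_rfc 0 w

theorem vc (T n : ℕ) : Matrix.vecCons T (fun _ : Fin 3 => n) = ![T, n, n, n] := by
  ext i; fin_cases i <;> rfl

theorem tendsto_int_cut (ν : Measure Fd) [IsFiniteMeasure ν] {F : Fd → ℝ} (hF : Continuous F) :
    Tendsto (fun k : ℕ => ∫ U, F (cut (0 - (k + 1 : ℕ)) (0 + (k + 1 : ℕ)) U) ∂ν) atTop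
      (𝓝 (∫ U, F U ∂ν)) := by
  obtain ⟨C, hC⟩ := (bm_of_cont hF).bdd
  exact tendsto_integral_of_dominated_convergence (fun _ => C)
    (fun _ => (hF.comp (cont_cut _ _)).aestronglyMeasurable) (integrable_const _)
    (fun _ => .of_forall fun _ => hC _) (.of_forall fun U => (hF.tendsto U).comp (tendsto_cut U))

end D2

open D2

variable (h : Measure SU2) [h.IsHaarMeasure] [IsProbabilityMeasure h]

/-- the data of the vacuum state -/
structure Vs (b : ℝ) (n : ℕ) [NeZero n] (μ : Measure Fd) (l r : ℝ)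
    (e : Lp ℝ 2 (RGP.PP h (Ed fun _ => n))) : Prop where
  vac : Hm.Vac _ (wt_WW h b).gk l r e
  r1 : r < 1
  e0 : 0 ≤ᵐ[RGP.PP h (Ed fun _ => n)] e
  prob : IsProbabilityMeasure μ
  lim : ∀ F : Fd → ℝ, Continuous F →
    Tendsto (fun T => ∫ U, F U ∂wilson h b ![T, n, n, n]) atTop (𝓝 (∫ U, F U ∂μ))
  loc : ∀ (F : Fd → ℝ) (a : ℤ) (k : ℕ), BM F →
    DependsOn (fun w => F (lift (M := fun _ => n) w)) (Ch.Win a (a + (k + 1 : ℕ))) →
    (∃ a' b', DependsOn F (Tm a' b')) →
    ∫ U, F U ∂μ = Ch.vac (WW b) l e a k fun w => F (lift w)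

variable {h} {b : ℝ} {n : ℕ} [NeZero n] {l r : ℝ} {e : Lp ℝ 2 (RGP.PP h (Ed fun _ => n))}

theorem D2.tendsto_loc (V : Hm.Vac _ (wt_WW h b).gk l r e) (hr : r < 1) {F : Fd → ℝ}
    (bF : BM F) {a : ℤ} {k : ℕ}
    (dF : DependsOn (fun w => F (lift (M := fun _ => n) w)) (Win a (a + (k + 1 : ℕ)))) :
    Tendsto (fun T => ∫ U, F U ∂wilson h b ![T, n, n, n]) atTop
      (𝓝 (vac (WW b) l e a k fun w => F (lift w))) := by
  simp only [int_wilson h b _ bF.meas, ← vc, zz_tor h b a bF.meas, zz_tor h b a measurable_const]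
  exact (wt_WW h b).tendsto_vac V hr (bF.comp meas_lift) dF

theorem D2.exists_lim (V : Hm.Vac _ (wt_WW h b).gk l r e) (hr : r < 1) :
    ∃ μ : Measure Fd, IsProbabilityMeasure μ ∧ ∀ F : Fd → ℝ, Continuous F →
      Tendsto (fun T => ∫ U, F U ∂wilson h b ![T, n, n, n]) atTop (𝓝 (∫ U, F U ∂μ)) := by
  let P : ℕ → ProbabilityMeasure Fd := fun T => ⟨wilson h b ![T, n, n, n], inferInstance⟩
  have key : ∀ ν, MapClusterPt ν atTop P → ∀ (F : Fd →ᵇ ℝ) (k : ℕ),
      ∫ U, F (cut (0 - (k + 1 : ℕ)) (0 + (k + 1 : ℕ)) U) ∂ν = vac (WW b) l e (0 - (k + 1 : ℕ))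
        (2 * k + 1) fun w => F (cut (0 - (k + 1 : ℕ)) (0 + (k + 1 : ℕ)) (lift w)) := by
    intro ν hν F k
    have h1 := hν.continuousAt_comp (ProbabilityMeasure.continuous_integral_boundedContinuousFunction
      (F.compContinuous ⟨_, cont_cut (0 - (k + 1 : ℕ)) (0 + (k + 1 : ℕ))⟩)).continuousAt
    exact eq_of_nhds_neBot (ClusterPt.mono h1 (tendsto_loc V hr
      (bm_of_cont (F.continuous.comp (cont_cut _ _))) (dep_lift ((dep_cut F _ _).mono
        (tm_mono le_rfl (by push_cast; omega))))))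
  obtain ⟨ν, -, hν⟩ := isCompact_univ.exists_mapClusterPt (f := atTop) (u := P) (by simp)
  have : Tendsto P atTop (𝓝 ν) := isCompact_univ.tendsto_nhds_of_unique_mapClusterPt
    (.of_forall fun _ => trivial) fun ν' _ h' => ProbabilityMeasure.toMeasure_injective <|
      ext_of_forall_integral_eq_of_IsFiniteMeasure fun F => tendsto_nhds_unique
        (tendsto_int_cut _ F.continuous) <| (tendsto_int_cut _ F.continuous).congr
          fun k => (key ν hν F k).trans (key ν' h' F k).symm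
  exact ⟨ν, inferInstance, fun F hF => ProbabilityMeasure.tendsto_iff_forall_integral_tendsto.1 this
    (mkOfCompact ⟨F, hF⟩)⟩

variable (h) in
theorem exists_vs (b : ℝ) (n : ℕ) [NeZero n] : ∃ μ l r e, Vs h b n μ l r e := by
  obtain ⟨l, r, e, V, hr⟩ := exists_vacuum (M := fun _ => n) h b
  have V' := Ch.vac_abs V hr (wt_WW h b).symm fun x y => ((wt_WW h b).KK_pos x y).le
  have e0 : 0 ≤ᵐ[RGP.PP h (Ed fun _ => n)] (|e| : Lp ℝ 2 _) :=
    (Lp.coeFn_abs e).mono fun x hx => hx ▸ abs_nonneg _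
  obtain ⟨μ, hp, hμ⟩ := exists_lim V' hr
  refine ⟨μ, l, r, |e|, V', hr, e0, hp, hμ, fun F a k bF dF ⟨a', b', d'⟩ => ?_⟩
  obtain ⟨j, hj⟩ : ∃ j : ℕ, b' ≤ a' + (j + 1 : ℕ) := ⟨(b' - a').toNat, by omega⟩
  obtain ⟨ν, hν, H⟩ := (wt_WW h b).vac_meas V'.pos e0 a' j
  have mc := (cont_cut a' b').measurable
  have m2 : Measurable fun w => cut a' b' (lift (M := fun _ => n) w) := mc.comp meas_lift
  have E : μ.map (cut a' b') = ν.map fun w => cut a' b' (lift w) :=
    ext_of_forall_integral_eq_of_IsFiniteMeasure fun G => by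
      have cG : Continuous fun U => G (cut a' b' U) := G.continuous.comp (cont_cut a' b')
      rw [integral_map mc.aemeasurable G.continuous.aestronglyMeasurable,
        integral_map m2.aemeasurable G.continuous.aestronglyMeasurable,
        ← H _ ((bm_of_cont cG).comp meas_lift)]
      exact tendsto_nhds_unique (hμ _ cG) (tendsto_loc V' hr (bm_of_cont cG)
        (dep_lift ((dep_cut G _ _).mono (tm_mono le_rfl hj))))
  have := congrArg (fun ρ => ∫ U, F U ∂ρ) E
  simp only [integral_map mc.aemeasurable bF.meas.aestronglyMeasurable,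
    integral_map m2.aemeasurable bF.meas.aestronglyMeasurable, cut_eq d'] at this
  rw [this, ← H _ (bF.comp meas_lift)]
  exact tendsto_nhds_unique (tendsto_loc V' hr bF (dep_lift (d'.mono (tm_mono le_rfl hj))))
    (tendsto_loc V' hr bF dF)

theorem D2.zz_three (hb : 0 ≤ b) {M : Fin 3 → ℕ} (hM : ∀ j, 0 < M j) {T : ℕ} (hT : 2 ≤ T) :
    (zz h b (Matrix.vecCons (3 * T) M) fun _ => 1) ≤
      (zz h b (Matrix.vecCons T M) fun _ => 1) ^ 3 := by
  have : ∀ j, NeZero (M j) := fun j => ⟨(hM j).ne'⟩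
  obtain ⟨l, r, e, V, hr⟩ := exists_vacuum (M := M) h b
  obtain ⟨s, rfl⟩ := Nat.exists_eq_add_of_le' hT
  have h1 := (wt_WW h b).tor_step (a := 0) V (KK_psd h b hb) s (2 * (s + 2))
  have h2 := (wt_WW h b).pow_le_tor (a := 0) V (KK_psd h b hb) hr s
  have l0 := V.pos
  rw [zz_tor h b 0 measurable_const, zz_tor h b 0 measurable_const,
    show 3 * (s + 2) = s + 2 + 2 * (s + 2) by ring]
  refine h1.trans ?_
  rw [pow_mul', pow_succ _ 2]
  exact mul_le_mul_of_nonneg_right (pow_le_pow_left₀ (by positivity) h2 2)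
    ((pow_pos l0 _).le.trans h2)

theorem D2.zz_big (hb : 0 ≤ b) {n : ℕ} (h2 : 2 ≤ n) :
    (zz h b (fun _ => 3 * n) fun _ => 1) ≤ (zz h b ![3 * n, n, n, n] fun _ => 1) ^ 27 := by
  have p : ∀ {x y z w : ℕ}, 0 < x → 0 < y → 0 < z → 0 < w → ∀ i, 0 < ![x, y, z, w] i :=
    fun hx hy hz hw i => by fin_cases i <;> assumption
  have q : ∀ {y z w : ℕ}, 0 < y → 0 < z → 0 < w → ∀ i, 0 < ![y, z, w] i :=
    fun hy hz hw i => by fin_cases i <;> assumption
  have n0 : 0 < n := by omega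
  have n3 : 0 < 3 * n := by omega
  have a1 := zz_three (h := h) hb (q n3 n3 n3) h2
  have a2 := zz_three (h := h) hb (q n0 n3 n3) h2
  have a3 := zz_three (h := h) hb (q n0 n0 n3) h2
  have s1 := zz_prm h b (p n0 n3 n3 n3) (Equiv.swap 0 1)
  have s2 := zz_prm h b (p n0 n0 n3 n3) (Equiv.swap 0 2)
  have s3 := zz_prm h b (p n0 n0 n0 n3) (Equiv.swap 0 3)
  rw [show ![n, 3 * n, 3 * n, 3 * n] ∘ Equiv.swap 0 1 = ![3 * n, n, 3 * n, 3 * n] by
    ext i; fin_cases i <;> rfl] at s1
  rw [show ![n, n, 3 * n, 3 * n] ∘ Equiv.swap 0 2 = ![3 * n, n, n, 3 * n] by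
    ext i; fin_cases i <;> rfl] at s2
  rw [show ![n, n, n, 3 * n] ∘ Equiv.swap 0 3 = ![3 * n, n, n, n] by
    ext i; fin_cases i <;> rfl] at s3
  rw [show (fun _ => 3 * n : Fin 4 → ℕ) = ![3 * n, 3 * n, 3 * n, 3 * n] by
    ext i; fin_cases i <;> rfl]
  rw [← s1] at a1
  rw [← s2] at a2
  rw [← s3] at a3
  calc _ ≤ _ := a1
    _ ≤ _ := pow_le_pow_left₀ (zz_pos h b _).le a2 3
    _ ≤ _ := pow_le_pow_left₀ (pow_pos (zz_pos h b _) _).le
      (pow_le_pow_left₀ (zz_pos h b _).le a3 3) 3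
    _ = _ := by ring

namespace Vs
variable {μ : Measure Fd} (V : Vs h b n μ l r e)
include V

theorem mp {φ : Fd → Fd} (cφ : Continuous φ) (hφ : ∀ T, 0 < T →
    MeasurePreserving φ (wilson h b ![T, n, n, n]) (wilson h b ![T, n, n, n])) :
    MeasurePreserving φ μ μ := by
  have := V.prob
  refine ⟨cφ.measurable, ext_of_forall_integral_eq_of_IsFiniteMeasure fun G => ?_⟩
  rw [integral_map cφ.aemeasurable G.continuous.aestronglyMeasurable]
  exact tendsto_nhds_unique (V.lim _ (G.continuous.comp cφ)) ((V.lim _ G.continuous).congr'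
    ((eventually_gt_atTop 0).mono fun T hT =>
      (RGP.int_mp (hφ T hT) G.continuous.measurable).symm))

theorem tau_le (hb : 0 ≤ b) (h2 : 2 ≤ n) {C : ℝ} (hZ : Z7 h b n ^ 81 ≤ C * Z7 h b (3 * n)) :
    (zz h b (fun _ => n) fun _ => 1) ≤ C * l ^ n := by
  have l0 := V.vac.pos
  have hz := zz_big (h := h) hb h2
  rw [← zz_cube, ← zz_cube] at hZ
  obtain ⟨s, hs⟩ := Nat.exists_eq_add_of_le' h2
  have h1 := (wt_WW h b).tor_step (a := 0) V.vac (KK_psd h b hb) s (2 * n)
  have h3 := (wt_WW h b).pow_le_tor (a := 0) V.vac (KK_psd h b hb) V.r1 s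
  have e1 : (zz h b (fun _ => n) fun _ => 1) = tor h (WW (M := fun _ => n) b) 0 n fun _ => 1 := by
    rw [← zz_tor h b 0 measurable_const, vc]
    congr 1
    ext i; fin_cases i <;> rfl
  rw [← hs, ← e1] at h1 h3
  rw [← vc, zz_tor h b 0 measurable_const, show 3 * n = n + 2 * n by ring] at hz
  have z3 := zz_pos h b fun _ => 3 * n
  have z1 := zz_pos h b fun _ => n
  have C0 : 0 < C := (mul_pos_iff_of_pos_right z3).1 ((pow_pos z1 81).trans_le hZ)
  have t0 : 0 ≤ tor h (WW (M := fun _ => n) b) 0 (n + 2 * n) fun _ => 1 := by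
    rw [← zz_tor h b 0 measurable_const]
    exact (zz_pos h b _).le
  have h4 := hZ.trans (mul_le_mul_of_nonneg_left
    ((show (zz h b (fun _ => 3 * n) fun _ => 1) ≤ _ from by
      simpa only [show n + 2 * n = 3 * n by ring] using hz).trans
      (pow_le_pow_left₀ (by simpa only [show n + 2 * n = 3 * n by ring] using t0)
        (by simpa only [show n + 2 * n = 3 * n by ring] using h1) 27)) C0.le)
  generalize (zz h b (fun _ => n) fun _ => 1) = Z at *
  rw [pow_mul'] at h4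
  have L0 : 0 < l ^ n := by positivity
  generalize l ^ n = L at *
  have h5 : (Z / L) ^ 54 ≤ C := by
    rw [div_pow, div_le_iff₀ (by positivity)]
    refine le_of_mul_le_mul_right (a := Z ^ 27) ?_ (by positivity)
    calc _ = Z ^ 81 := by ring
      _ ≤ _ := h4
      _ = _ := by ring
  rw [← div_le_iff₀ L0]
  exact (le_self_pow₀ ((one_le_div L0).2 h3) (by norm_num)).trans h5

theorem gram_eq {F G : Fd → ℝ} (bF : BM F) (bG : BM G) {k : ℕ}
    (dF : DependsOn F (Tm 0 (k + 1 : ℕ))) (dG : DependsOn G (Tm 0 (k + 1 : ℕ))) (s : ℕ) :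
    ∫ U, F (rfl0 U) * G (sht s U) ∂μ = Ch.vac (WW b) l e (-(k + 1 : ℕ)) (k + 1 + s + k)
      fun w => F (lift (rfc 0 w)) * G (lift (sft s w)) := by
  rw [V.loc _ (-(k + 1 : ℕ)) (k + 1 + s + k) ((bF.comp cont_rfl0.measurable).mul
    (bG.comp (cont_sht _).measurable)) ?_ ⟨_, _, RGP.DependsOn.mul'
      ((dep_rfl dF).mono (tm_mono le_rfl (show _ ≤ ((k + 1 : ℕ) : ℤ) + s by omega)))
      ((dep_sht dG s).mono (tm_mono (by omega) le_rfl))⟩]
  · simp only [lift_rfc0, lift_sft]
  · simp only [← lift_rfc0, ← lift_sft]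
    exact RGP.DependsOn.mul'
      ((Ch.dep_rfc (dep_lift dF) 0).mono (Ch.Win.mono (by omega) (by omega)))
      ((Ch.dep_sft (dep_lift dG) s).mono (Ch.Win.mono (by omega) (by omega)))

variable (h) in
theorem st9 (hb : 0 ≤ b) (hn : Odd n) (h3 : 3 ≤ n) {C : ℝ}
    (hZ : Z7 h b n ^ 81 ≤ C * Z7 h b (3 * n)) : St9 h b n μ C := by
  have l0 := V.vac.pos
  have hp := KK_psd (M := fun _ => n) h b hb
  have tau := V.tau_le hb (by omega) hZ
  have p : ∀ T, 0 < T → ∀ i, 0 < ![T, n, n, n] i := fun T hT i => by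
    fin_cases i <;> simp <;> omega
  have vn : Matrix.vecCons n (fun _ : Fin 3 => n) = fun _ => n := by
    ext i; fin_cases i <;> rfl
  have := V.prob
  refine ⟨V.prob, V.lim, fun v => V.mp (cont_shf v) fun T hT => mp_shf h b (p T hT) v,
    V.mp cont_rfl0 fun T hT => mp_rfl h b (p T hT), fun σ hσ => V.mp (cont_prm σ) fun T hT => ?_,
    ?_, fun k hk a H β N bH dH hβ => ?_, fun F k s bF dF => ?_, fun r k F Λ hΛ bF dF hF => ?_⟩
  · have e : ![T, n, n, n] ∘ σ = ![T, n, n, n] := funext fun i => by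
      have e2 : ∀ i : Fin 4, ![T, n, n, n] i = if i = 0 then T else n := fun i => by
        fin_cases i <;> rfl
      have e3 : σ i = 0 ↔ i = 0 := by rw [← σ.apply_eq_iff_eq (x := i) (y := 0), hσ]
      simp only [Function.comp_apply, e2, e3]
    simpa only [e] using mp_prm h b (p T hT) σ
  · simp only [ae_all_iff, funext_iff]
    intro z hz x
    let _ := TopologicalSpace.metrizableSpaceMetric SU2
    have cG : Continuous fun U : Fd => dist (shf ((n : ℤ) • z) U x) (U x) := by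
      unfold shf; fun_prop
    have e : ∀ T : ℕ, (fun i => ((![T, n, n, n] i : ℕ) : ℤ) * z i) = (n : ℤ) • z := fun T => by
      ext i; fin_cases i <;> simp [hz]
    have h0 : ∫ U, dist (shf ((n : ℤ) • z) U x) (U x) ∂μ = 0 :=
      tendsto_nhds_unique (V.lim _ cG) (tendsto_const_nhds.congr fun T =>
        (integral_eq_zero_of_ae ((ae_per h b _).mono fun U hU => by
          simp only [← e T, hU z, dist_self, Pi.zero_apply])).symm)
    exact ((integral_eq_zero_iff_of_nonneg (fun _ => dist_nonneg)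
      ((bm_of_cont cG).integrable _)).1 h0).mono fun U hU => dist_eq_zero.1 hU
  · have bS : ∀ (c : ℕ), BM fun U => H c (sht (a + c * (k + 2)) U) := fun c =>
      (bH c).comp (cont_sht _).measurable
    have dS : ∀ (c : ℕ), DependsOn (fun U => H c (sht (a + c * (k + 2)) U))
        (Tm (a + c * (k + 2)) (a + c * (k + 2) + (k + 1 : ℕ))) := fun c =>
      (dep_sht (dH c) _).mono (tm_mono (by omega) (by omega))
    have dP : DependsOn (fun U => ∏ c ∈ Finset.range (N + 1), H c (sht (a + c * (k + 2)) U))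
        (Tm a (a + (N * (k + 2) + (k + 1) + 1 : ℕ))) := RGP.dep_prod fun c hc => (dS c).mono
      (tm_mono (le_add_of_nonneg_right (by positivity)) (by
        have : (c : ℤ) ≤ N := by exact_mod_cast Nat.le_of_lt_succ (Finset.mem_range.1 hc)
        push_cast
        nlinarith))
    rw [V.loc _ a (N * (k + 2) + (k + 1)) (BM.prod fun c _ => bS c) (dep_lift dP) ⟨_, _, dP⟩]
    refine (wt_WW h b).slab_many V.vac hp (WW_inv b) (fun c => (bS c).comp meas_lift)
      (fun c => dep_lift (dS c)) (fun c => ?_) N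
    have t0 := (sq_nonneg _).trans ((wt_WW h b).slab_one V.vac hp (WW_inv b)
      ((bS c).comp meas_lift) (dep_lift (dS c)) e)
    have bK : BM fun U => H c (rfl0 U) * H c U := ((bH c).comp cont_rfl0.measurable).mul (bH c)
    have e1 := zz_tor (M := fun _ => n) (T := n) h b (a + c * (k + 2) - (k + 1 : ℕ))
      (bK.comp (cont_sht (a + c * (k + 2))).measurable).meas
    have e2 := int_wilson h b (fun _ => n) (bK.comp (cont_sht (a + c * (k + 2))).measurable).meas
    rw [vn] at e1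
    rw [e1, eq_div_iff (zz_pos h b _).ne'] at e2
    erw [RGP.int_mp (mp_shf h b (N := fun _ => n) (fun _ => by omega) _) bK.meas] at e2
    simp only [lift_rfc, ← hk, ← e2, V.vac.one] at t0 ⊢
    have i0 : 0 ≤ ∫ U, H c (rfl0 U) * H c U ∂wilson h b fun _ => n :=
      nonneg_of_mul_nonneg_left (nonneg_of_mul_nonneg_left (by simpa using t0) l0) (zz_pos h b _)
    calc _ ≤ (∫ U, H c (rfl0 U) * H c U ∂wilson h b fun _ => n) * (C * l ^ n) * l := by gcongr
      _ = (C * ∫ U, H c (rfl0 U) * H c U ∂cube h b n) * (l ^ (k + 2)) ^ 2 := by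
        rw [cube, show l ^ n = l ^ (2 * k + 3) by rw [← hk]]; ring
      _ ≤ _ := mul_le_mul_of_nonneg_right (hβ c) (by positivity)
  · have dF' : DependsOn F (Tm 0 (k + 1 : ℕ)) := dF.mono (tm_mono le_rfl (by omega))
    have e0 := V.gram_eq bF bF dF' dF' 0
    simp only [Nat.cast_zero, sht_zero] at e0
    rw [V.gram_eq bF bF dF' dF', e0]
    exact (wt_WW h b).gram_pos V.vac hp (WW_inv b) (bF.comp meas_lift) (dep_lift dF') s
  · have dF' : ∀ i, DependsOn (F i) (Tm 0 (k + 1 : ℕ)) := fun i =>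
      (dF i).mono (tm_mono le_rfl (by omega))
    obtain ⟨j, hj⟩ := hn
    have e0 := fun i i' => V.gram_eq (bF i) (bF i') (dF' i) (dF' i') 0
    simp only [Nat.cast_zero, sht_zero] at e0
    simp only [e0] at hF
    have e1 := fun i => V.gram_eq (bF i) (bF i) (dF' i) (dF' i) (2 * j + 2)
    simp only [show (n : ℤ) + 1 = (2 * j + 2 : ℕ) by omega, e1]
    refine ((wt_WW h b).gram_frame (a := 0) V.vac (WW_inv b) (fun i => (bF i).comp meas_lift)
      (fun i => dep_lift (dF' i)) hΛ hF j).trans (mul_le_mul_of_nonneg_left ?_ hΛ)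
    obtain ⟨s, hs⟩ := Nat.exists_eq_add_of_le' (show 2 ≤ n by omega)
    have h1 := (wt_WW h b).tor_step (a := 0) V.vac hp s 1
    rw [← hs, ← zz_tor h b 0 measurable_const (T := n), vn] at h1
    rw [div_le_iff₀ (by positivity), show 2 * j + 2 = n + 1 by omega]
    exact h1.trans ((mul_le_mul_of_nonneg_left tau (by positivity)).trans_eq (by ring))

end Vs

end Pool.Agent.Lib.MP_7f377f_mp.YM9
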