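import Pool.Agent.Lib.MP_7f377f_mp.G.CuDef
import Pool.Agent.Lib.MP_7f377f_mp.G.CyD2

/-! Reflection invariance and reflection positivity in the spatial directions. -/

noncomputable section

set_option linter.unusedSectionVars false
variable [Pool.Agent.Lib.MP_7f377f_mp.GD]

namespace Pool.Agent.Lib.MP_7f377f_mp.YM9

open MeasureTheory Filter Topology Function Real Finset
open RGP (BM)

set_option linter.unusedSectionVars false

namespace CuA

/-- reflection of the axis `j` -/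
def rj (j : Fin 4) (U : Fd) : Fd := prm (Equiv.swap 0 j) (rfl0 (prm (Equiv.swap 0 j) U))

/-- the source of the reflected test function -/
def sj (j : Fin 4) (a : ℝ) (f : R4 → ℝ) : Sr := fun x i l =>
  f (pt a (rq (Equiv.swap 0 j i) (Equiv.swap 0 j l) (x ∘ Equiv.swap 0 j) ∘ Equiv.swap 0 j))

@[fun_prop] theorem cont_rj (j : Fin 4) : Continuous (rj j) :=
  (cont_prm _).comp (cont_rfl0.comp (cont_prm _))

theorem prm_prm (j : Fin 4) (U : Fd) : prm (Equiv.swap 0 j) (prm (Equiv.swap 0 j) U) = U :=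
  funext fun e => congrArg U (Prod.ext (funext fun l => by simp) (by simp))

theorem gf_pF (σ : Equiv.Perm (Fin 4)) {F : Sr} (hF : ∀ x i l, F x l i = F x i l) (U : Fd) :
    gf (fun x i l => F (x ∘ σ) (σ.symm i) (σ.symm l)) U = gf F (prm σ U) := by
  rw [gf, gf, ← (Equiv.arrowCongr σ (Equiv.refl ℤ)).tsum_eq]
  refine tsum_congr fun x => ?_
  have e : (Equiv.arrowCongr σ (Equiv.refl ℤ)) x = x ∘ σ.symm := rfl
  have e' : (x ∘ σ.symm) ∘ σ = x := funext fun l => by simp
  have s : ∀ V y i l, pe V y l i = pe V y i l := YM7.pe_symm (n := 0)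
  have z : ∀ V y i, pe V y i i = 0 := YM7.pe_self (n := 0)
  have p : ∀ i l, pe (prm σ U) x i l = pe U (x ∘ σ.symm) (σ i) (σ l) := YM7.pe_prm (n := 0) σ U x
  have h1 := Weak.sum_lt_pairs (fun i l => F x (σ.symm i) (σ.symm l) * pe U (x ∘ σ.symm) i l)
    (fun i l => by rw [hF, s]) fun i => by rw [z, mul_zero]
  have h2 := Weak.sum_lt_pairs (fun i l => F x i l * pe (prm σ U) x i l)
    (fun i l => by rw [hF, s]) fun i => by rw [z, mul_zero]
  rw [e, e']
  refine mul_left_cancel₀ two_ne_zero (h1.symm.trans (Eq.trans ?_ h2))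
  rw [← Equiv.sum_comp σ]
  refine sum_congr rfl fun i _ => ?_
  rw [← Equiv.sum_comp σ]
  simp only [p, Equiv.symm_apply_apply]

theorem gf_sj {a : ℝ} (ha : 0 < a) {f : R4 → ℝ} (hf : HasCompactSupport f) (j : Fin 4) (U : Fd) :
    gf (sj j a f) U = gf (src a f) (rj j U) := by
  have h1 : (support fun (x : Z4) (_ _ : Fin 4) => f (pt a (x ∘ Equiv.swap 0 j))).Finite :=
    ((fin_src ha hf).preimage (Equiv.swap 0 j).surjective.injective_comp_right.injOn).subset
      fun x hx => hx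
  exact (gf_pF (Equiv.swap 0 j) (F := rF fun x _ _ => f (pt a (x ∘ Equiv.swap 0 j)))
    (fun x i l => by simp only [rF, rq, or_comm]) U).trans ((gf_rF h1 _).trans
      (gf_prm _ (fun x => f (pt a x)) _))

theorem near_sj {a : ℝ} (ha : 0 < a) (f : R4 → ℝ) (j : Fin 4) :
    Near a (sj j a f) fun y => f (rf j y) := fun x i l => by
  refine ⟨rf j (pt a (rq (Equiv.swap 0 j i) (Equiv.swap 0 j l) (x ∘ Equiv.swap 0 j) ∘
    Equiv.swap 0 j)), (YM7.dist_le_two (w := 5 * a) fun r => ?_).trans_eq (by ring),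
      congrArg f (rf_rf ..).symm⟩
  by_cases hr : r = j
  · subst hr
    simp only [rf_apply, pt, rq, if_true, comp_apply, Equiv.swap_apply_right, update_self,
      Equiv.swap_apply_left, abs_le]
    split_ifs <;> push_cast <;> constructor <;> linarith
  · have : Equiv.swap 0 j r ≠ 0 := fun e => hr (by simpa using congrArg (Equiv.swap 0 j) e)
    simp [rf_apply, hr, pt, rq, this, ha.le]

theorem adm_half {m : ℝ} {j : Fin 4} {F G : MF} (hF : Half m j F) (hG : Half m j G) :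
    AdM m (mr j F + G) :=
  adm_add.2 ⟨hF.1.mr j, hG.1, fun f hf g hg x hx y hy z _ e => by
    have h1 := (hF.2.mr j) f hf hx
    have h2 := hG.2 g hg hy
    simp only [e, Set.mem_ofPred_eq, rf_apply, if_true, pt, PiLp.add_apply] at h1 h2
    have h3 : (z j : ℝ) < 0 := neg_of_mul_neg_right (a := m) (by linarith) (by linarith)
    have h4 : (-1 : ℝ) < z j := lt_of_mul_lt_mul_left (a := m) (by linarith) (by linarith)
    have h5 : z j < 0 := by exact_mod_cast h3
    have h6 : -1 < z j := by exact_mod_cast h4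
    omega⟩

variable [MeasurableSpace SU2] [BorelSpace SU2] {h : Measure SU2} [h.IsHaarMeasure]
  [IsProbabilityMeasure h] {b t : ℝ} {n : ℕ} {μ : Measure Fd}

theorem sides {T n : ℕ} (hT : 0 < T) (hn : 0 < n) (i : Fin 4) : 0 < ![T, n, n, n] i := by
  fin_cases i <;> assumption

theorem mp_rj (V : St9 h b n μ t) (hn : 0 < n) (j : Fin 4) : MeasurePreserving (rj j) μ μ := by
  have := V.prob
  refine ⟨(cont_rj j).measurable, ext_of_forall_integral_eq_of_IsFiniteMeasure fun G => ?_⟩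
  rw [integral_map (cont_rj j).aemeasurable G.continuous.aestronglyMeasurable]
  refine tendsto_nhds_unique (V.lim _ (G.continuous.comp (cont_rj j)))
    ((V.lim _ G.continuous).congr' ((eventually_gt_atTop 0).mono fun T hT => ?_))
  have p := sides hT hn
  have q := (mp_prm h b (N := ![T, n, n, n] ∘ Equiv.swap 0 j) (fun _ => p _) (Equiv.swap 0 j)).comp
    ((mp_rfl h b fun _ => p _).comp (mp_prm h b p (Equiv.swap 0 j)))
  rw [show (![T, n, n, n] ∘ Equiv.swap 0 j) ∘ Equiv.swap 0 j = ![T, n, n, n] from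
    funext fun l => by simp] at q
  exact (RGP.int_mp q G.continuous.measurable).symm

theorem rp_torus (hb : 0 ≤ b) {k : ℕ} {N : Fin 4 → ℕ} (hN : ∀ i, 0 < N i) (h0 : N 0 = 2 * k + 3)
    {Y : Fd → ℝ} (bY : BM Y) (dY : DependsOn Y (Tm 0 (k + 1))) :
    0 ≤ ∫ U, Y (rfl0 U) * Y U ∂wilson h b N := by
  obtain ⟨M, rfl⟩ : ∃ M : Fin 3 → ℕ, N = Matrix.vecCons (2 * k + 3) M :=
    ⟨Matrix.vecTail N, h0 ▸ (Matrix.cons_head_tail N).symm⟩
  have : ∀ j, NeZero (M j) := fun j => ⟨(hN j.succ).ne'⟩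
  obtain ⟨l, r, e, V, -⟩ := exists_vacuum (M := M) h b
  have bK := (bY.comp cont_rfl0.measurable).mul bY
  have t0 := (sq_nonneg _).trans ((wt_WW h b).slab_one (a := 0) (k := k) V (KK_psd h b hb)
    (WW_inv b) (bY.comp meas_lift) (D2.dep_lift (dY.mono (D2.tm_mono le_rfl (by simp)))) e)
  rw [int_wilson h b _ bK.meas, zz_tor h b (0 - (k + 1 : ℕ)) bK.meas]
  simp only [mul_zero, D2.lift_rfc0, V.one, one_pow, mul_one] at t0
  exact div_nonneg (nonneg_of_mul_nonneg_left t0 V.pos) (zz_pos h b _).le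

theorem rp_rj (V : St9 h b n μ t) (hb : 0 ≤ b) {k : ℕ} (hk : n = 2 * k + 3) {j : Fin 4}
    (hj : j ≠ 0) {Y : Fd → ℝ} (cY : Continuous Y)
    (dY : DependsOn (fun U => Y (prm (Equiv.swap 0 j) U)) (Tm 0 (k + 1))) :
    0 ≤ ∫ U, Y (rj j U) * Y U ∂μ := by
  refine ge_of_tendsto (V.lim _ ((cY.comp (cont_rj j)).mul cY))
    ((eventually_gt_atTop 0).mono fun T hT => ?_)
  have p := sides hT (show 0 < n by omega)
  have cZ := cY.comp (cont_prm (Equiv.swap 0 j))
  refine (rp_torus (h := h) hb (N := ![T, n, n, n] ∘ Equiv.swap 0 j) (fun _ => p _) ?_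
    (Y6.bm_of_cont cZ) dY).trans_eq ?_
  · rw [comp_apply, Equiv.swap_apply_left, ← hk]
    fin_cases j
    exacts [absurd rfl hj, rfl, rfl, rfl]
  · refine (RGP.int_mp (mp_prm h b p (Equiv.swap 0 j))
      ((cZ.comp cont_rfl0).mul cZ).measurable).symm.trans ?_
    simp only [Pi.mul_apply, comp_apply, prm_prm, rj]

end CuA

open CuA

variable [MeasurableSpace SU2] [BorelSpace SU2] {h : Measure SU2} [h.IsHaarMeasure]
  [IsProbabilityMeasure h] {ι : Type} {U Φ : Filter ι} {n : ι → ℕ} {a b τ : ι → ℝ} {t : ℝ} {M : ℕ}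
  {μ : ι → Measure Fd} {S : ∀ {k : ℕ}, (Fin k → R4 → ℝ) → ℝ}

theorem Lm.os_refl [U.NeBot] (hN : Lm U M a μ μ S) (hC : Cyl h U M n a b τ μ t) {F : MF}
    (hF : AdM M F) (j : Fin 4) : SM S (mr j F) = SM S F := by
  obtain ⟨k, f, rfl⟩ := exists_mf F
  have hf := adm_mf.1 hF
  have hr := adm_mf.1 (mr_mf j f ▸ hF.mr j)
  rw [mr_mf, sm_mf (hN.perm hC.fm) hf, sm_mf (hN.perm hC.fm) hr]
  refine tendsto_nhds_unique ((hN hr (F := fun p i => sj j (a p) (f i))
    (hC.fm.ap.mono fun p e i => near_sj e (f i) j)).congr' ?_) (hN.cv hC.fm hf)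
  filter_upwards [hC.fm.ap, hC.st] with p e1 e2
  exact gc_of (mp_rj e2.2.2.2 e2.2.1.pos j) (fun i => fin_src e1 (hf.1 i).1)
    fun i => gf_sj e1 (hf.1 i).1 j

theorem Lm.os_rp [U.NeBot] (hN : Lm U M a μ μ S) (hC : Cyl h U M n a b τ μ t) {j : Fin 4}
    (hj : j ≠ 0) {A : Type} [Fintype A] {F : A → MF} (hF : ∀ x, Half M j (F x)) (c : A → ℝ) :
    0 ≤ qm (SM S) j F c := by
  choose κ f hf using fun x => exists_mf (F x)
  obtain rfl : F = fun x => mf (f x) := funext fun x => (hf x).symm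
  have c1 := fun x i => ((adm_mf.1 (hF x).1).1 i).1
  have c2 := fun x => forall_mf.1 (hF x).2
  have cp : ∀ {p}, 0 < a p → ∀ x, Continuous (po (μ p) (a p) (f x)) := fun e x =>
    continuous_finsetProd _ fun i _ => (cont_gf (fin_src e (c1 x i))).sub continuous_const
  have L : ∀ x y, Tendsto (fun p => ∫ V, po (μ p) (a p) (f x) (rj j V) *
      po (μ p) (a p) (f y) V ∂μ p) U (𝓝 (SM S (mr j (mf (f x)) + mf (f y)))) := fun x y => by
    have h1 := adm_half (hF x) (hF y)
    rw [mr_mf, ← mf_append] at h1 ⊢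
    rw [sm_mf (hN.perm hC.fm) (adm_mf.1 h1)]
    refine (hN (adm_mf.1 h1) (F := fun p => Fin.append (fun i => sj j (a p) (f x i))
      fun i => src (a p) (f y i)) (hC.fm.ap.mono fun p e => YM5.forall_append₂ (P := Near (a p))
        (fun i => near_sj e _ j) fun i => near_src e.le _)).congr' ?_
    filter_upwards [hC.fm.ap, hC.st] with p e1 e2
    simp only [gc, Fin.prod_univ_add, Fin.append_left, Fin.append_right, gf_sj e1 (c1 _ _),
      RGP.int_mp (mp_rj e2.2.2.2 e2.2.1.pos j) (cont_gf (fin_src e1 (c1 _ _))).measurable]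
    rfl
  have a0 := hC.fm.a0.mono_right nhdsWithin_le_nhds
  refine ge_of_tendsto (tendsto_finsetSum _ fun x _ => tendsto_finsetSum _ fun y _ =>
    (L x y).const_mul (c x * c y)) ?_
  filter_upwards [hC.fm.ap, hC.st, a0.eventually (gt_mem_nhds one_half_pos),
    a0.eventually (eventually_all.2 fun x => eventually_all.2 fun i =>
      (c1 x i).isCompact.eventually_forall_of_forall_eventually (x₀ := (0 : ℝ))
        (P := fun ε y => y j + 2 * ε < M / 2) fun y hy =>
        ContinuousAt.eventually_lt (by fun_prop) (by fun_prop) (by simpa using (c2 x i hy).2))]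
    with p e1 e2 e3 e4
  have := e2.2.2.2.prob
  have B := fun x => Y6.bm_of_cont (cp e1 x)
  obtain ⟨k, hk⟩ : ∃ k, n p = 2 * k + 3 := by
    obtain ⟨k, hk⟩ := e2.2.1
    have h1 : (1 : ℝ) ≤ M := Nat.one_le_cast.2 hC.pos
    have h2 : (2 : ℝ) < n p := lt_of_mul_lt_mul_left (by linarith [e2.1]) e1.le
    have h3 : 2 < n p := by exact_mod_cast h2
    exact ⟨k - 1, by omega⟩
  rw [← int_bil (μ p) (fun x => (B x).comp (cont_rj j).measurable) B c c]
  refine rp_rj e2.2.2.2 e2.2.2.1 hk hj (Y := fun V => ∑ x, c x * po (μ p) (a p) (f x) V)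
    (continuous_finsetSum _ fun x _ => continuous_const.mul (cp e1 x)) fun V W H =>
      sum_congr rfl fun x _ => congrArg _ (prod_congr rfl fun i _ => congrArg (· - _) ?_)
  refine (gf_prm _ (fun z => f x i (pt (a p) z)) V).symm.trans
    ((dep_gf (fun z hz => ?_) H).trans (gf_prm _ (fun z => f x i (pt (a p) z)) W))
  have h1 := subset_tsupport _ (src_ne (x := z ∘ Equiv.swap 0 j) hz)
  have h2 := (c2 x i h1).1
  have h3 := e4 x i _ h1
  have h4 := e2.1
  simp only [pt, comp_apply, Equiv.swap_apply_right] at h2 h3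
  rw [hk] at h4
  push_cast at h4
  have h5 : (0 : ℝ) < z 0 := (mul_pos_iff_of_pos_left e1).1 h2
  have h6 : (z 0 : ℝ) < k := lt_of_mul_lt_mul_left (by linarith) e1.le
  exact ⟨by exact_mod_cast h5.le, add_lt_add_left (by exact_mod_cast h6) 1⟩

end Pool.Agent.Lib.MP_7f377f_mp.YM9
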