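import Pool.Agent.Lib.MP_7f377f_mp.G.CuB1
import Pool.Agent.Lib.MP_7f377f_mp.G.CyE2

/-! The uniform operator bound on the cylinder. -/

noncomputable section

set_option linter.unusedSectionVars false
variable [Pool.Agent.Lib.MP_7f377f_mp.GD]

namespace Pool.Agent.Lib.MP_7f377f_mp.YM9

open MeasureTheory Filter Topology Function Real Finset
open RGP (BM)
open Y6 (bm_of_cont)

set_option linter.unusedSectionVars false

theorem exists_slab_pos {k D N P : ℕ} {a η R : ℝ} (ha : 0 < a) (haη : a ≤ η)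
    (hη : η * (3 * k + 1) = a * P) (hR : R ≤ N * (a * P)) (c : Fin k → Fin (2 * D + 1)) :
    ∃ (g : ℕ) (q : Fin k → ℕ), g < P ∧ (∀ i, q i ≤ N) ∧ ∀ i (x : ℤ), a * P ≤ a * x → a * x ≤ R →
      |a * x / η - ((c i : ℤ) - D : ℤ)| ≤ 1 →
        η - a ≤ a * (x - (g + q i * P)) ∧ a * (x - (g + q i * P)) ≤ a * P - η := by
  have η0 := ha.trans_le haη
  have P0 : (0 : ℝ) < P := (mul_pos_iff_of_pos_left ha).1 (hη ▸ by positivity : 0 < a * P)
  have P1 : (0 : ℤ) < P := by exact_mod_cast P0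
  obtain ⟨s, q, -, q2⟩ := exists_slab ha η0 hη c
  have g0 := Int.emod_nonneg s P1.ne'
  have g1 := Int.emod_lt_of_pos s P1
  refine ⟨(s % P).toNat, fun i => min N (s / P + q i).toNat, by omega, fun i => min_le_left _ _,
    fun i x h1 h2 h3 => ?_⟩
  have h4 := q2 i (x - (s + q i * P)) (by rwa [sub_add_cancel])
  have e1 : (s : ℝ) + q i * P = (s % P : ℤ) + (s / P + q i : ℤ) * P := by
    have : (s : ℝ) = (s % P : ℤ) + P * (s / P : ℤ) := by exact_mod_cast (Int.emod_add_mul_ediv s P).symm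
    push_cast at this ⊢
    linear_combination this
  have g2 : (0 : ℝ) ≤ (s % P : ℤ) := by exact_mod_cast g0
  have g3 : ((s % P : ℤ) : ℝ) < P := by exact_mod_cast g1
  rw [e1] at h4
  beta_reduce
  generalize s / P + q i = Q at *
  have aP := mul_pos ha P0
  have b1 : (-1 : ℝ) < Q := lt_of_mul_lt_mul_right (a := a * P)
    (by nlinarith [h4.2, mul_lt_mul_of_pos_left g3 ha]) aP.le
  have b2 : (Q : ℝ) ≤ N := le_of_mul_le_mul_right (by nlinarith [h4.1, mul_nonneg ha.le g2]) aP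
  have b3 : -1 < Q := by exact_mod_cast b1
  have b4 : Q ≤ N := by exact_mod_cast b2
  have e2 : ((min N Q.toNat : ℕ) : ℝ) = Q := by exact_mod_cast (by omega : ((min N Q.toNat : ℕ) : ℤ) = Q)
  have e3 : (((s % P).toNat : ℕ) : ℝ) = (s % P : ℤ) := by exact_mod_cast Int.toNat_of_nonneg g0
  rwa [e2, e3]

variable [MeasurableSpace SU2] [BorelSpace SU2] {h : Measure SU2} [h.IsHaarMeasure]
  [IsProbabilityMeasure h] {ι : Type} {U Φ : Filter ι} {n : ι → ℕ} {a b τ : ι → ℝ} {t : ℝ} {M : ℕ}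
  {μ : ι → Measure Fd} {S : ∀ {k : ℕ}, (Fin k → R4 → ℝ) → ℝ}

theorem slab_on {b C : ℝ} {n k N : ℕ} {μ : Measure Fd} (S : St9 h b n μ t) (hO : Op9 h b n μ t)
    (hn : n = 2 * k + 3) {κ : Type} [Fintype κ] {G : κ → Sr} {q : κ → ℕ} (hq : ∀ i, q i ≤ N)
    (g g' : ℕ) (fin : ∀ i, (support (G i)).Finite) (hG : ∀ i x, G i x ≠ 0 → 0 ≤ x 0 ∧ x 0 < k)
    (C0 : 0 ≤ C) (hC : ∀ c, |gc (cube h b n) (cube h b n)
      (Sum.elim (fun i : {i // q i = c} => rF (G i)) fun i : {i // q i = c} => G i)| ≤ C) :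
    On μ (fun U => ∏ i, (gf (tF (Pi.single 0 (g + q i * (k + 2 : ℕ))) (G i)) U -
      ∫ V, gf (tF (Pi.single 0 (g + q i * (k + 2 : ℕ))) (G i)) V ∂cube h b n))
      (g + (N + 1) * (k + 2) + g') ((1 + |t| * C) ^ (N + 1)) := by
  have n0 : ∀ _ : Fin 4, 0 < n := fun _ => by omega
  have cg := fun i => cont_gf (fin i)
  have t0 := mul_nonneg (abs_nonneg t) C0
  have key := S.on_chain (γ := 1 + |t| * C) (s := k + 2)
    (Y := fun c U => ∏ i : {i // q i = c}, (gf (G i) U - ∫ V, gf (G i) V ∂cube h b n))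
    (N + 1) g g' fun c _ => hO k hn _ _ (by linarith)
      (BM.prod fun i _ => (bm_of_cont (cg i)).sub (BM.const _))
      (fun U V e => Finset.prod_congr rfl fun i _ => by
        rw [dep_gf (fun x hx => ⟨(hG i x hx).1, by have := hG i x hx; omega⟩) e]) (by
      have := hC c
      simp only [gc, Fintype.prod_sum_type, Sum.elim_inl, Sum.elim_inr, gf_rF (fin _)] at this
      simp only [nq, cube, Weak.int_mp (mp_rfl h b n0) (cg _)] at this ⊢
      refine (le_abs_self _).trans ?_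
      rw [abs_mul]
      nlinarith [mul_le_mul_of_nonneg_left this (abs_nonneg t)])
  convert key using 2 with U
  rw [← Finset.prod_fiberwise_of_maps_to (g := q) (t := Finset.range (N + 1))
    fun i _ => Finset.mem_range.2 (Nat.lt_succ_of_le (hq i))]
  refine Finset.prod_congr rfl fun c _ => ?_
  refine (Finset.prod_subtype (p := fun i => q i = c) _ (by simp) _).trans
    (Finset.prod_congr rfl fun i _ => ?_)
  simp only [gf_tF, i.2, sht, cube, Weak.int_mp (mp_shf h b n0 _) (cg _)]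

theorem prod_split (ν : Measure Fd) [IsFiniteMeasure ν] {k l : ℕ} {D : Finset Z4}
    {W : Fin k → Fin l → Sr} (hW : ∀ i z x, W i z x ≠ 0 → x ∈ D) (U : Fd) :
    ∏ i, (gf (∑ z, W i z) U - ∫ V, gf (∑ z, W i z) V ∂ν) =
      ∑ z : Fin k → Fin l, ∏ i, (gf (W i (z i)) U - ∫ V, gf (W i (z i)) V ∂ν) := by
  obtain ⟨L, hL⟩ := gc_ml (Measure.dirac U) ν (Fin k) D
  simp only [gc, integral_dirac] at hL
  rw [hL _ fun i x hx => by
    obtain ⟨z, -, hz⟩ := Finset.exists_ne_zero_of_sum_ne_zero (by rwa [Finset.sum_apply] at hx)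
    exact hW i z x hz, L.map_sum]
  exact Finset.sum_congr rfl fun z _ => (hL _ fun i => hW i _).symm

theorem bo_mix (hC : Cyl h Φ M n a b τ μ t) (hO : ∀ᶠ p in Φ, Op9 h (b p) (n p) (μ p) t)
    (hB : Bd (Lt M) Φ (fun p => cube h (b p) (n p)) (fun p => cube h (b p) (n p)) a τ) :
    Bo M Φ μ (fun p => cube h (b p) (n p)) a τ := by
  intro k R δ δ0
  have m0 : (0 : ℝ) < M := by exact_mod_cast hC.pos
  obtain ⟨a1, a2⟩ := tendsto_nhdsWithin_iff.1 hC.fm.a0
  obtain ⟨η, hη⟩ : ∃ η : ℝ, η = M / 2 / (3 * k + 1) := ⟨_, rfl⟩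
  have η0 : 0 < η := by rw [hη]; positivity
  have η1 : η * (3 * k + 1) = M / 2 := by rw [hη, div_mul_cancel₀ _ (by positivity)]
  obtain ⟨D, hD⟩ := exists_nat_ge (R / η)
  rw [div_le_iff₀' η0] at hD
  obtain ⟨N, hN⟩ := exists_nat_ge (R / (M / 2))
  rw [div_le_iff₀ (half_pos m0)] at hN
  obtain ⟨C, C0, hC'⟩ := hB.sz (a2.mono fun p hp => ⟨hp, inferInstance, inferInstance⟩) (k + k)
    (R + M + M) (lt_min (half_pos δ0) (half_pos η0))
  have L1 : 1 ≤ 2 * (1 * (1 + 2 / η)) := by linarith [div_pos two_pos η0]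
  refine ⟨∑ _z : Fin k → Fin (2 * D + 1),
    (1 + |t| * (C * (2 * (1 * (1 + 2 / η))) ^ (k + k))) ^ (N + 1), (N + 2) * M, ?_⟩
  filter_upwards [hC', hO, a2, hC.st, hC.fm.tau.eventually_ge_atTop 1, a1.eventually_le_const
    (lt_min (div_pos η0 four_pos) (lt_min (div_pos δ0 four_pos) (div_pos m0 three_pos)))]
    with p h1 h2 ha ⟨hn, hodd, _, S⟩ h4 h5 s hs F f1 f2 f0 f3
  replace ha : 0 < a p := ha
  rw [one_le_div ha] at h4
  simp only [le_min_iff] at h5
  obtain ⟨k', hk⟩ : ∃ k', n p = 2 * k' + 3 := by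
    have : (3 : ℝ) ≤ n p := le_of_mul_le_mul_left (by linarith [h5.2.2]) ha
    obtain ⟨l, hl⟩ := hodd
    norm_cast at this
    exact ⟨l - 1, by omega⟩
  have hP : a p * (k' + 2 : ℕ) = M / 2 + a p / 2 := by
    rw [← hn, hk]
    push_cast
    ring
  obtain ⟨θ, hθ⟩ : ∃ θ : ℝ, θ = a p * (k' + 2 : ℕ) / (3 * k + 1) := ⟨_, rfl⟩
  have θ1 : θ * (3 * k + 1) = a p * (k' + 2 : ℕ) := by rw [hθ, div_mul_cancel₀ _ (by positivity)]
  have θ2 : η ≤ θ := le_of_mul_le_mul_right (by linarith) (show (0 : ℝ) < 3 * k + 1 by positivity)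
  have θ0 := η0.trans_le θ2
  have s1 : (N + 2) * (k' + 2) ≤ s := by
    have : a p * ((N + 2) * (k' + 2 : ℕ)) ≤ a p * s := by
      rw [mul_left_comm, hP]
      exact (mul_le_mul_of_nonneg_left (by linarith [h5.2.2]) (by positivity)).trans hs
    exact_mod_cast le_of_mul_le_mul_left this ha
  have fin := fun i => (f2 i).fin ha
  let W : Fin k → Fin (2 * D + 1) → Sr := fun i z x u v =>
    YM7.hat (a p * x 0 / θ - ((z : ℤ) - D : ℤ)) * F i x u v
  have w1 : ∀ i z x, W i z x ≠ 0 → F i x ≠ 0 ∧ |a p * x 0 / θ - ((z : ℤ) - D : ℤ)| ≤ 1 :=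
    fun i z x hx => ⟨fun e => hx (by funext u v; simp [W, e]), YM7.hat_supp fun e => hx (by
      funext u v
      simp only [W, e, zero_mul, Pi.zero_apply])⟩
  have e1 : F = fun i => ∑ z, W i z := by
    funext i x u v
    simp only [W, Finset.sum_apply, ← Finset.sum_mul]
    by_cases hx : F i x = 0
    · simp [hx]
    · rw [YM7.sum_hat, one_mul]
      rw [abs_div, abs_of_pos θ0, div_le_iff₀' θ0]
      exact (f2 i x hx 0).trans (hD.trans (by gcongr))
  rw [e1, funext (prod_split (D := Finset.univ.biUnion fun i => (fin i).toFinset) _ fun i z x hx =>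
    Finset.mem_biUnion.2 ⟨i, Finset.mem_univ _, (fin i).mem_toFinset.2 (w1 i z x hx).1⟩)]
  refine S.on_sum fun z _ => ?_
  obtain ⟨g, q, q0, q1, q2⟩ := exists_slab_pos (N := N) (R := R) ha (by linarith [h5.1]) θ1
    (hN.trans (mul_le_mul_of_nonneg_left (by linarith) N.cast_nonneg)) z
  let G : Fin k → Sr := fun i => tF (-Pi.single 0 (g + q i * (k' + 2 : ℕ))) (W i (z i))
  have g1 : ∀ i x, G i x ≠ 0 → η / 2 ≤ a p * x 0 ∧ a p * x 0 ≤ M / 2 + a p / 2 - η :=
    fun i x hx => by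
      obtain ⟨e1, e2⟩ := w1 i _ _ hx
      have := q2 i _ (le_trans (by linarith [h5.2.2]) (f0 i _ e1)) (le_of_abs_le (f2 i _ e1 0)) e2
      rw [Pi.sub_apply, Pi.neg_apply, Pi.single_eq_same, sub_neg_eq_add, Int.cast_add,
        Int.cast_natCast, Nat.cast_add g, Nat.cast_mul, add_sub_cancel_right] at this
      constructor <;> linarith [this.1, this.2, h5.1]
  have g2 : ∀ i, In (a p) (R + M) (G i) := fun i x hx l => by
    have e2 := f2 i _ (w1 i _ _ hx).1 l
    by_cases hl : l = 0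
    · have := g1 i x hx
      rw [hl, abs_of_pos (by linarith [this.1])]
      linarith [this.2, abs_nonneg _ |>.trans e2, h5.2.2]
    · rw [Pi.sub_apply, Pi.neg_apply, Pi.single_eq_of_ne hl, neg_zero, sub_zero] at e2
      linarith
  have g3 : ∀ i, Sz (1 * (1 + 2 / η)) (a p) (τ p) (G i) := fun i =>
    YM7.Sz.shift (n := 0) (F := W i (z i)) (YM7.Sz.mul (n := 0) (f1 i) (by positivity)
      (ha.le.trans h4) (fun x => YM7.abs_hat _) fun (x : Z4) l => (YM7.hat_lip _ _).trans (by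
        have e2 : |(((x + Pi.single l 1 : Z4) 0 : ℤ) : ℝ) - x 0| ≤ 1 := by
          by_cases hl : l = 0 <;> simp [hl]
        rw [sub_sub_sub_cancel_right, ← sub_div, ← mul_sub, abs_div, abs_mul, abs_of_pos ha,
          abs_of_pos θ0, div_mul_eq_mul_div, mul_div_assoc 2]
        gcongr
        exact mul_le_of_le_one_right ha.le e2)) _
  have e3 : ∀ i, W i (z i) = tF (Pi.single 0 (g + q i * (k' + 2 : ℕ))) (G i) := fun i => by
    funext x
    simp [G, tF]
  have e4 : s = g + (N + 1) * (k' + 2) + (s - (g + (N + 1) * (k' + 2))) := by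
    rw [add_mul _ 2] at s1
    rw [add_mul _ 1]
    omega
  simp only [e3]
  rw [e4]
  refine slab_on S h2 hk q1 g _ (fun i => (g2 i).fin ha) (fun i x hx => ?_) (by positivity)
    fun c => ?_
  · have := g1 i x hx
    have e2 : (0 : ℝ) ≤ x 0 := nonneg_of_mul_nonneg_right (by linarith [this.1]) ha
    push_cast at hP
    have e3 : (x 0 : ℝ) < k' := lt_of_mul_lt_mul_left (by linarith [this.2, h5.1]) ha.le
    exact ⟨by exact_mod_cast e2, by exact_mod_cast e3⟩
  · have e2 : Fintype.card ({i // q i = c} ⊕ {i // q i = c}) ≤ k + k := by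
      have := Fintype.card_subtype_le fun i => q i = c
      rw [Fintype.card_fin] at this
      rw [Fintype.card_sum]
      omega
    refine (h1 _ e2 _ (fun _ => 2 * (1 * (1 + 2 / η))) ?_ ?_ (apart_sum m0 ha.le
      (by linarith [h5.2.1]) (by linarith [h5.1]) (fun i x hx => ?_) ?_)).trans ?_
    · rintro (i | i)
      · exact sz_rF (g3 i) ha.le h4
      · exact YM7.Sz.mono (n := 0) (g3 i) (by linarith) ha.le (ha.le.trans h4)
    · rintro (i | i) x hx l
      · exact (in_rF (g2 i) ha.le x hx l).trans (by linarith [h5.2.2])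
      · exact (g2 i x hx l).trans (by linarith)
    · have := g1 i x hx
      exact ⟨this.1, by linarith [this.2, h5.1]⟩
    · intro i j hij x y hx hy w hw
      refine (f3 i j (Subtype.coe_ne_coe.2 hij) _ _ (w1 _ _ _ hx).1 (w1 _ _ _ hy).1 w hw).trans_eq ?_
      rw [i.2, j.2, dist_eq_norm, dist_eq_norm]
      congr 1
      ext l
      simp only [pt, PiLp.sub_apply, PiLp.add_apply, Pi.sub_apply, Int.cast_sub]
      ring
    · rw [Finset.prod_const, Finset.card_univ]
      exact mul_le_mul_of_nonneg_left (pow_le_pow_right₀ L1 e2) C0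

theorem bo_recentre (hC : Cyl h Φ M n a b τ μ t) {ν : ι → Measure Fd}
    (hB : Bd (Lc M) Φ μ ν a τ) (hO : Bo M Φ μ ν a τ) : Bo M Φ μ μ a τ := by
  intro k R δ δ0
  obtain ⟨C, C0, hC'⟩ := hB.card 1 R δ0
  choose γ s₀ hγ using fun l => hO l R δ δ0
  refine ⟨∑ B ∈ (Finset.univ : Finset (Fin k)).powerset, C ^ (Finset.univ \ B).card * γ B.card,
    ∑ l ∈ range (k + 1), |s₀ l|, ?_⟩
  filter_upwards [hC', (tendsto_nhdsWithin_iff.1 hC.fm.a0).2, hC.st,
    (range (k + 1)).eventually_all.2 fun l _ => hγ l] with p h1 ha ⟨_, _, _, S⟩ h2 s hs F f1 f2 f0 f3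
  have := S.prob
  have cg := fun i => cont_gf ((f2 i).fin ha)
  have e : ∀ U, ∏ i, (gf (F i) U - ∫ V, gf (F i) V ∂μ p) = ∑ B ∈ Finset.univ.powerset,
      (∏ i ∈ Finset.univ \ B, (∫ V, gf (F i) V ∂ν p - ∫ V, gf (F i) V ∂μ p)) *
        ∏ i ∈ B, (gf (F i) U - ∫ V, gf (F i) V ∂ν p) := fun U => by
    simp only [mul_comm (∏ i ∈ Finset.univ \ _, _)]
    rw [← Finset.prod_add]
    simp only [sub_add_sub_cancel]
  rw [funext e]
  refine S.on_sum fun B _ => ?_
  have hk := Finset.mem_range.2 (Nat.lt_succ_of_le (B.card_le_univ.trans_eq (Fintype.card_fin k)))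
  have h3 := h2 _ hk s (((le_abs_self _).trans (Finset.single_le_sum (f := fun l => |s₀ l|)
    (fun _ _ => abs_nonneg _) hk)).trans hs) (fun i => F (B.equivFin.symm i)) (fun _ => f1 _)
    (fun _ => f2 _) (fun _ => f0 _) fun i j hij =>
      f3 _ _ (Subtype.coe_ne_coe.2 ((Equiv.injective _).ne hij))
  have e2 : ∀ U, ∏ i, (gf (F (B.equivFin.symm i)) U - ∫ V, gf (F (B.equivFin.symm i)) V ∂ν p) =
      ∏ i ∈ B, (gf (F i) U - ∫ V, gf (F i) V ∂ν p) := fun U =>
    (B.equivFin.symm.prod_comp fun i : B => gf (F i) U - ∫ V, gf (F i) V ∂ν p).trans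
      (B.prod_coe_sort fun i => gf (F i) U - ∫ V, gf (F i) V ∂ν p)
  rw [funext e2] at h3
  refine (h3.smul _).mono S (mul_le_mul_of_nonneg_right ?_ h3.1)
  rw [Finset.abs_prod, ← Finset.prod_const]
  refine Finset.prod_le_prod (fun _ _ => abs_nonneg _) fun i _ => ?_
  have := h1 Unit (by simp) (fun _ => F i) (fun _ => f1 i) (fun _ => f2 i)
    fun _ _ hij => absurd rfl hij
  simp only [gc, Finset.univ_unique, Finset.prod_singleton] at this
  rwa [integral_sub ((bm_of_cont (cg i)).integrable _) (integrable_const _), integral_const,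
    probReal_univ, one_smul, abs_sub_comm] at this

end Pool.Agent.Lib.MP_7f377f_mp.YM9
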