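import Pool.Agent.Lib.MP_7f377f_mp.G.CuDef

/-! The reconstruction on unordered families, linearity in one slot, partitions of unity. -/

noncomputable section

set_option linter.unusedSectionVars false
variable [Pool.Agent.Lib.MP_7f377f_mp.GD]

namespace Pool.Agent.Lib.MP_7f377f_mp.YM9

open MeasureTheory Filter Topology Function Real Finset
open RGP (BM)

set_option linter.unusedSectionVars false

theorem OS9.kb_eq {m C : ℝ} {S : ∀ {k : ℕ}, (Fin k → R4 → ℝ) → ℝ} (h : OS9 m C S) (x y : PX m) :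
    kb S x y = SM S (mr 0 (mf x.1.2) + mf y.1.2) := by
  rw [← mf_rp, sm_mf h.perm (x.2.rp y.2)]
  rfl

theorem PoM.px {m : ℝ} {F : MF} (hF : PoM m F) : ∃ x : PX m, mf x.1.2 = F := by
  obtain ⟨k, f, rfl⟩ := exists_mf F
  exact ⟨⟨⟨k, f⟩, pom_mf.1 hF⟩, rfl⟩

theorem OS9.vc {m C : ℝ} {S : ∀ {k : ℕ}, (Fin k → R4 → ℝ) → ℝ} (h : OS9 m C S) (m0 : 0 < m) :
    ∃ (H : Type) (_ : NormedAddCommGroup H) (_ : InnerProductSpace ℂ H) (_ : CompleteSpace H)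
      (Ψ : MF → H) (T : R4 → H →L[ℂ] H), Sg m (8 * C) (Ψ 0) T ∧ Vc m (SM S) Ψ T := by
  classical
  obtain ⟨H, _, _, _, ψ, T, q1, q2, q3, q4, q5, q6, q7, q8⟩ := h.ker.reconstruct
  have e0 : ∀ x y : PX m, mf x.1.2 = mf y.1.2 → ψ x = ψ y := fun x y e =>
    ext_inner_right ℂ fun u => congrArg (fun L : H →L[ℂ] ℂ => L u) (ContinuousLinearMap.ext_on
      (f := innerSL ℂ (ψ x)) (g := innerSL ℂ (ψ y)) q1 (by
        rintro _ ⟨z, rfl⟩
        simp only [innerSL_apply_apply, q2, h.kb_eq, e]))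
  obtain ⟨Ψ, hΨ⟩ : ∃ Ψ : MF → H, ∀ x : PX m, Ψ (mf x.1.2) = ψ x :=
    ⟨fun F => if hF : ∃ x : PX m, mf x.1.2 = F then ψ hF.choose else 0, fun x => by
      have hx : ∃ y : PX m, mf y.1.2 = mf x.1.2 := ⟨x, rfl⟩
      exact (dif_pos hx).trans (e0 _ _ hx.choose_spec)⟩
  have hΩ : Ψ 0 = ψ (YM9.vc m) := (congrArg Ψ (mf_nil _).symm).trans (hΨ (YM9.vc m))
  have e1 : ∀ {v : R4}, 0 ≤ v 0 → ∀ x y : PX m,
      inner ℂ (ψ x) (T v (ψ y)) = kb S x (sg v y) := fun hv x y => by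
    rw [(q5 _ hv).2.2.2, q2]
  refine ⟨H, inferInstance, inferInstance, inferInstance, Ψ, T, ⟨m0, hΩ ▸ q3, q4,
    fun v hv => (q5 v hv).1, fun v hv => hΩ ▸ (q5 v hv).2.1, fun v w hv => (q5 v hv).2.2.1 w, q6,
    q7, fun z hz => ?_, q8, YM7.frame_on (C := C) q1 q2 (e1 (single_nonneg m0.le)) h.ker.symm
      fun s r c Λ h0 h1 => ?_⟩, q1.mono (Submodule.span_mono ?_), fun hF hG => ?_,
    fun {F v} hF hv => ?_⟩
  · have hv : 0 ≤ pt m z 0 := by simp [pt, hz]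
    have e3 : star (1 : H →L[ℂ] H) = T (pt m z) := YM7.adj_ext q1 fun x y => by
      rw [e1 hv, sg_eq hv, one_apply_eq_self, q2]
      exact congrArg _ (h.per' x.2 y.2 hz).symm
    rw [← e3, star_one]
  · simp only [qf_gr s _ m0.le]
    exact h.frame (fun x : s => x.1.2) (fun i x => c i x) h0 fun u => by
      simpa only [qf_gr0] using h1 u
  · rintro _ ⟨x, rfl⟩
    exact ⟨_, pom_mf.2 x.2, hΨ x⟩
  · obtain ⟨x, rfl⟩ := hF.px
    obtain ⟨y, rfl⟩ := hG.px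
    rw [hΨ, hΨ, q2, h.kb_eq]
  · obtain ⟨x, rfl⟩ := hF.px
    rw [hΨ, (q5 v hv).2.2.2, ← hΨ, sg_eq hv, mv_mf]

theorem OS9.os_nil {m C : ℝ} {S : ∀ {k : ℕ}, (Fin k → R4 → ℝ) → ℝ} (h : OS9 m C S) :
    SM S 0 = 1 := by
  rw [← mf_nil ![], sm_mf h.perm (adm_mf.1 ((mf_nil _).symm ▸ adm_nil)), h.nil]

theorem OS9.os_trans {m C : ℝ} {S : ∀ {k : ℕ}, (Fin k → R4 → ℝ) → ℝ} (h : OS9 m C S) {F : MF}
    (hF : AdM m F) (v : R4) : SM S (mv v F) = SM S F := by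
  obtain ⟨k, f, rfl⟩ := exists_mf F
  have hf := adm_mf.1 hF
  rw [mv_mf, sm_mf h.perm (hf.sh v), sm_mf h.perm hf, ← h.trans hf (-v)]
  simp only [← sub_eq_add_neg]
  rfl

theorem AdM.cons_add {m : ℝ} {F : MF} {f g : R4 → ℝ} (hf : AdM m (f ::ₘ F))
    (hg : AdM m (g ::ₘ F)) : AdM m ((f + g) ::ₘ F) := by
  obtain ⟨⟨f1, f2⟩, f3, f4⟩ := adm_cons.1 hf
  obtain ⟨⟨g1, g2⟩, -, g4⟩ := adm_cons.1 hg
  exact adm_cons.2 ⟨⟨f1.add g1, f2.add g2⟩, f3, fun u hu x hx =>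
    (tsupport_add f g hx).elim (f4 u hu x) (g4 u hu x)⟩

theorem AdM.cons_zero {m : ℝ} {F : MF} (hF : AdM m F) : AdM m (0 ::ₘ F) :=
  adm_cons.2 ⟨⟨HasCompactSupport.zero, contDiff_const⟩, hF, fun u _ x hx => by simp at hx⟩

variable [MeasurableSpace SU2] [BorelSpace SU2] {h : Measure SU2} [h.IsHaarMeasure]
  [IsProbabilityMeasure h] {ι : Type} {U Φ : Filter ι} {n : ι → ℕ} {a b τ : ι → ℝ} {t : ℝ} {M : ℕ}
  {μ : ι → Measure Fd} {S : ∀ {k : ℕ}, (Fin k → R4 → ℝ) → ℝ}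

theorem Lm.cv_cons [U.NeBot] (hN : Lm U M a μ μ S) (hC : Cyl h U M n a b τ μ t) {k : ℕ}
    {f : R4 → ℝ} {u : Fin k → R4 → ℝ} (hf : AdM M (f ::ₘ mf u)) :
    Tendsto (fun p => gc (μ p) (μ p) (Fin.cons (src (a p) f) fun i => src (a p) (u i) :
      Fin (k + 1) → Sr)) U (𝓝 (SM S (f ::ₘ mf u))) := by
  rw [← mf_cons] at hf ⊢
  rw [sm_mf (hN.perm hC.fm) (adm_mf.1 hf)]
  refine (hN.cv hC.fm (adm_mf.1 hf)).congr fun p => congrArg _ (funext fun i => ?_)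
  induction i using Fin.cases <;> rfl

theorem Lm.os_zero [U.NeBot] (hN : Lm U M a μ μ S) (hC : Cyl h U M n a b τ μ t) {F : MF}
    (hF : AdM M F) : SM S (0 ::ₘ F) = 0 := by
  obtain ⟨k, u, rfl⟩ := exists_mf F
  refine tendsto_nhds_unique (hN.cv_cons hC hF.cons_zero) (tendsto_const_nhds.congr fun p => ?_)
  simp [gc, Fin.prod_univ_succ, gf, src]

theorem Lm.os_add [U.NeBot] (hN : Lm U M a μ μ S) (hC : Cyl h U M n a b τ μ t) {F : MF}
    {f g : R4 → ℝ} (hf : AdM M (f ::ₘ F)) (hg : AdM M (g ::ₘ F)) :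
    SM S ((f + g) ::ₘ F) = SM S (f ::ₘ F) + SM S (g ::ₘ F) := by
  obtain ⟨k, u, rfl⟩ := exists_mf F
  refine tendsto_nhds_unique (hN.cv_cons hC (hf.cons_add hg))
    (((hN.cv_cons hC hf).add (hN.cv_cons hC hg)).congr' ?_)
  filter_upwards [hC.fm.ap, hC.st] with p e1 e2
  have := e2.2.2.2.prob
  have f1 := fin_src e1 (adm_cons.1 hf).1.1
  have g1 := fin_src e1 (adm_cons.1 hg).1.1
  have u1 := Set.finite_iUnion fun i => fin_src e1 ((adm_mf.1 (adm_cons.1 hf).2.1).1 i).1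
  obtain ⟨L, hL⟩ := gc_ml (μ p) (μ p) (Fin (k + 1)) ((f1.union g1).union u1).toFinset
  have e : ∀ G : Sr, support G ⊆ support (src (a p) f) ∪ support (src (a p) g) →
      gc (μ p) (μ p) (Fin.cons G fun i => src (a p) (u i) : Fin (k + 1) → Sr) =
        L (Fin.cons G fun i => src (a p) (u i)) := fun G hG => hL _ fun i x hx => by
    rw [Set.Finite.mem_toFinset]
    induction i using Fin.cases with
    | zero => exact Or.inl (hG hx)
    | succ i => exact Or.inr (Set.mem_iUnion.2 ⟨i, hx⟩)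
  rw [e _ Set.subset_union_left, e _ Set.subset_union_right, ← L.cons_add]
  exact (e _ (support_add _ _)).symm

/-- partition of unity -/
theorem exists_pieces {f : R4 → ℝ} (h1 : HasCompactSupport f) (h2 : ContDiff ℝ 1 f) {r : ℝ}
    (hr : 0 < r) : ∃ (N : ℕ) (g : Fin N → R4 → ℝ), f = ∑ i, g i ∧ ∀ i, ContDiff ℝ 1 (g i) ∧
      tsupport (g i) ⊆ tsupport f ∧ ∃ w : R4, ∀ y ∈ tsupport (g i), ‖y - w‖ < r := by
  obtain ⟨D, -, D1, D2⟩ := h1.isCompact.finite_cover_balls hr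
  obtain ⟨N, c, hc⟩ := D1.fin_embedding
  obtain ⟨ρ, hρ⟩ := SmoothPartitionOfUnity.exists_isSubordinate (modelWithCornersSelf ℝ R4)
    (isClosed_tsupport f) (fun i => Metric.ball (c i) r) (fun _ => Metric.isOpen_ball)
    (by rwa [← hc, Set.biUnion_range] at D2)
  refine ⟨N, fun i y => ρ i y * f y, funext fun y => ?_, fun i =>
    ⟨((ρ i).contMDiff.contDiff.of_le (by simp)).mul h2, tsupport_mul_subset_right,
      c i, fun y hy => mem_ball_iff_norm.1 (hρ i (tsupport_mul_subset_left hy))⟩⟩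
  rw [Finset.sum_apply, ← sum_mul]
  by_cases hy : y ∈ tsupport f
  · rw [← finsum_eq_sum_of_fintype, ρ.sum_eq_one hy, one_mul]
  · rw [image_eq_zero_of_notMem_tsupport hy, mul_zero]

end Pool.Agent.Lib.MP_7f377f_mp.YM9
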