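import Pool.Agent.Lib.MP_7f377f_mp.G.CuDef

/-! The projection on the vacuum space, continuation of vanishing matrix elements. -/

noncomputable section

set_option linter.unusedSectionVars false
variable [Pool.Agent.Lib.MP_7f377f_mp.GD]

namespace Pool.Agent.Lib.MP_7f377f_mp.YM9

open MeasureTheory Filter Topology Function Real Finset
open RGP (BM)

set_option linter.unusedSectionVars false

variable {H : Type} [NormedAddCommGroup H] [InnerProductSpace ℂ H] [CompleteSpace H]
  {m C : ℝ} {Ω χ : H} {T : R4 → H →L[ℂ] H} {P : H →L[ℂ] H} {σ : MF → ℝ} {Ψ : MF → H}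
  {φ A : MF → H →L[ℂ] H}

namespace CuD1

/-- a finite dimensional orbit lies in the span of its germ -/
theorem germ {G V : Type} [NormedAddCommGroup G] [NormedSpace ℝ G] [AddCommGroup V] [Module ℂ V]
    (U : G → V → V) (hl : ∀ x, IsLinearMap ℂ (U x)) (h1 : ∀ x y v, U (x + y) v = U x (U y v))
    {u : V} {W K : Submodule ℂ V} [FiniteDimensional ℂ W] (hW : ∀ x, U x u ∈ W) {ε : ℝ}
    (ε0 : 0 < ε) (hK : ∀ y, ‖y‖ < ε → U y u ∈ K) (x : G) : U x u ∈ K := by
  classical
  let S : ℝ → Submodule ℂ V := fun r => Submodule.span ℂ ((fun y => U y u) '' {y | ‖y‖ < r})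
  have s1 : ∀ r, S r ≤ W := fun r => Submodule.span_le.2 (by rintro _ ⟨y, -, rfl⟩; exact hW y)
  have s2 : ∀ r, FiniteDimensional ℂ (S r) := fun r => Submodule.finiteDimensional_of_le (s1 r)
  have s3 : ∀ {r r'}, r ≤ r' → S r ≤ S r' := fun e =>
    Submodule.span_mono (Set.image_mono fun y hy => lt_of_lt_of_le hy e)
  have ex : ∃ n, ∃ r, 0 < r ∧ r ≤ ε ∧ Module.finrank ℂ (S r) = n := ⟨_, ε, ε0, le_rfl, rfl⟩
  obtain ⟨r, r0, r1, r2⟩ := Nat.find_spec ex
  have s4 : S (r / 2) = S r := by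
    have := s2 r
    refine Submodule.eq_of_le_of_finrank_le (s3 (by linarith)) ?_
    rw [r2]
    exact Nat.find_min' ex ⟨r / 2, by linarith, by linarith, rfl⟩
  have s5 : ∀ y, ‖y‖ < r / 2 → ∀ v ∈ S r, U y v ∈ S r := fun y hy v hv => by
    rw [← s4] at hv
    induction hv using Submodule.span_induction with
    | mem v hv =>
      obtain ⟨z, hz, rfl⟩ := hv
      refine Submodule.subset_span ⟨y + z, ?_, h1 ..⟩
      have : ‖z‖ < r / 2 := hz
      exact (norm_add_le _ _).trans_lt (by linarith)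
    | zero => rw [(hl y).map_zero]; exact zero_mem _
    | add a b _ _ ha hb => rw [(hl y).map_add]; exact add_mem ha hb
    | smul c a _ ha => rw [(hl y).map_smul]; exact Submodule.smul_mem _ c ha
  have s6 : ∀ y, ‖y‖ < r / 2 → ∀ n : ℕ, U ((n : ℝ) • y) u ∈ S r := fun y hy n => by
    induction n with
    | zero => exact Submodule.subset_span ⟨_, by simpa using r0, rfl⟩
    | succ n ih =>
      rw [Nat.cast_succ, add_smul, one_smul, add_comm, h1]
      exact s5 y hy _ ih
  obtain ⟨n, hn⟩ := exists_nat_gt (‖x‖ / (r / 2))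
  have n0 : (0 : ℝ) < n := lt_of_le_of_lt (by positivity) hn
  have := s6 ((n : ℝ)⁻¹ • x) (by
    rw [norm_smul, norm_inv, Real.norm_natCast, inv_mul_lt_iff₀ n0]
    exact (div_lt_iff₀ (by linarith)).1 hn) n
  rw [smul_inv_smul₀ n0.ne'] at this
  refine (Submodule.span_le.2 ?_ : S r ≤ K) this
  rintro _ ⟨y, hy, rfl⟩
  exact hK y (lt_of_lt_of_le hy r1)

variable {I : Type} (e : HilbertBasis I ℂ H)

/-- projection on finitely many basis vectors -/
def pr (F : Finset I) : H →L[ℂ] H := ∑ i ∈ F, (innerSL ℂ (e i)).smulRight (e i)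

theorem pr_apply (F : Finset I) (x : H) : pr e F x = ∑ i ∈ F, inner ℂ (e i) x • e i := by
  simp [pr]

theorem ext_in {x y : H} (h : ∀ i, inner ℂ (e i) x = inner ℂ (e i) y) : x = y :=
  e.repr.injective (lp.ext (funext fun i => by
    rw [e.repr_apply_apply, e.repr_apply_apply, h]))

theorem ext_op {A B : H →L[ℂ] H}
    (h : ∀ i j, inner ℂ (e i) (A (e j)) = inner ℂ (e i) (B (e j))) : A = B :=
  ContinuousLinearMap.ext_on (Submodule.dense_iff_topologicalClosure_eq_top.2 e.dense_span) (by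
    rintro _ ⟨j, rfl⟩
    exact ext_in e fun i => h i j)

open Classical in
theorem in_pr (F : Finset I) (i : I) (x : H) :
    inner ℂ (e i) (pr e F x) = if i ∈ F then inner ℂ (e i) x else 0 := by
  rw [pr_apply, inner_sum]
  simp only [inner_smul_right, orthonormal_iff_ite.1 e.orthonormal, mul_ite, mul_one, mul_zero]
  exact Finset.sum_ite_eq F i _

open Classical in
theorem pr_e (F : Finset I) (j : I) : pr e F (e j) = if j ∈ F then e j else 0 := by
  rw [pr_apply]
  simp only [orthonormal_iff_ite.1 e.orthonormal, ite_smul, one_smul, zero_smul]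
  exact Finset.sum_ite_eq' F j _

theorem pr_mem (F : Finset I) (x : H) : pr e F x ∈ Submodule.span ℂ (e '' (F : Set I)) := by
  rw [pr_apply]
  exact Submodule.sum_mem _ fun i hi =>
    Submodule.smul_mem _ _ (Submodule.subset_span ⟨i, hi, rfl⟩)

theorem star_pr (F : Finset I) : star (pr e F) = pr e F := by
  refine ((ContinuousLinearMap.eq_adjoint_iff _ _).2 fun x y => ?_).symm
  rw [pr_apply, pr_apply, sum_inner, inner_sum]
  refine Finset.sum_congr rfl fun i _ => ?_
  rw [inner_smul_left, inner_smul_right, inner_conj_symm, mul_comm]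

theorem parseval (y : H) : HasSum (fun i => ‖inner ℂ (e i) y‖ ^ 2) (‖y‖ ^ 2) := by
  have := (e.hasSum_inner_mul_inner y y).mapL Complex.reCLM
  rw [inner_self_eq_norm_sq_to_K] at this
  convert this using 1
  · funext i
    rw [← inner_conj_symm y (e i), Complex.conj_mul']
    simp [← Complex.ofReal_pow]
  · simp [← Complex.ofReal_pow]

theorem comm_pr {S A : H →L[ℂ] H} {E : I → ℝ} {l : ℝ} {F : Finset I}
    (hF : ∀ i, i ∈ F ↔ E i = l) (h1 : ∀ i, S (e i) = (exp (-1 * E i) : ℂ) • e i)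
    (h2 : ∀ i x, inner ℂ (e i) (S x) = (exp (-1 * E i) : ℂ) * inner ℂ (e i) x)
    (h3 : A * S = S * A) : A * pr e F = pr e F * A := by
  classical
  refine ext_op e fun i j => ?_
  rw [mul_apply_eq_comp, mul_apply_eq_comp, pr_e, in_pr]
  by_cases g : E i = E j
  · simp only [hF, g]
    split_ifs <;> simp
  · have a1 := h2 i (A (e j))
    rw [← mul_apply_eq_comp S, ← h3, mul_apply_eq_comp, h1, map_smul, inner_smul_right] at a1
    have a2 : inner ℂ (e i) (A (e j)) = 0 := by
      by_contra z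
      have := exp_injective (Complex.ofReal_injective (mul_right_cancel₀ z a1))
      exact g (by linarith)
    split_ifs <;> simp [a2]

theorem ev_nonneg {t : ℝ} (ht : 0 ≤ t) : 0 ≤ ev 0 t 0 := single_nonneg ht

theorem spec (h : Sg m C Ω T) : ∃ (I : Type) (e : HilbertBasis I ℂ H) (E : I → ℝ)
    (F : ℝ → Finset I), (∀ l i, i ∈ F l ↔ E i = l) ∧
    (∀ t ≥ 0, ∀ i, T (ev 0 t) (e i) = (exp (-t * E i) : ℂ) • e i) ∧
    (∀ t ≥ 0, ∀ i x, inner ℂ (e i) (T (ev 0 t) x) = (exp (-t * E i) : ℂ) * inner ℂ (e i) x) ∧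
    (∃ Δ > 0, ∀ i, E i = 0 ∨ Δ ≤ E i) ∧
    ∀ A : H →L[ℂ] H, A * T (ev 0 1) = T (ev 0 1) * A → ∀ l, A * pr e (F l) = pr e (F l) * A := by
  obtain ⟨I, e, E, r1, r2, r3, r4, -⟩ := YM7.eigen_of (P := fun t => T (ev 0 t))
    ((congrArg T single_zero).trans h.zero)
    (fun r hr s hs => (congrArg T (PiLp.single_add ..)).trans
      (h.add _ _ (ev_nonneg hr) (ev_nonneg hs)))
    (fun t ht => h.nrm _ (ev_nonneg ht)) h.pos
    (fun x => (h.cont x).comp (f := fun t : ℝ => (ev 0 t : R4))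
      ((PiLp.continuous_toLp 2 fun _ : Fin 4 => ℝ).comp (continuous_single 0)).continuousOn
      fun t ht => ev_nonneg ht) h.m0 h.frame
  have f1 : ∀ l, {i | E i = l}.Finite := fun l => by
    have : {i | ¬ exp (-m * E i) < exp (-m * l)}.Finite :=
      r3.tendsto_cofinite_zero.eventually (gt_mem_nhds (exp_pos _))
    exact this.subset fun i hi => by rw [Set.mem_ofPred_eq, show E i = l from hi]; exact lt_irrefl _
  have co : ∀ t ≥ 0, ∀ i x,
      inner ℂ (e i) (T (ev 0 t) x) = (exp (-t * E i) : ℂ) * inner ℂ (e i) x := fun t ht i x => by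
    have : inner ℂ (T (ev 0 t) (e i)) x = inner ℂ (e i) (T (ev 0 t) x) := (h.pos t ht).1 _ _
    rw [← this, r2 t ht, inner_smul_left, Complex.conj_ofReal]
  exact ⟨I, e, E, fun l => (f1 l).toFinset, fun l i => (f1 l).mem_toFinset, r2, co, r4,
    fun A hA l => comm_pr e (fun i => (f1 l).mem_toFinset) (r2 1 zero_le_one)
      (co 1 zero_le_one) hA⟩

theorem tcomm (h : Sg m C Ω T) {v w : R4} (hv : 0 ≤ v 0) (hw : 0 ≤ w 0) :
    T v * T w = T w * T v := by rw [← h.add _ _ hv hw, add_comm, h.add _ _ hw hv]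

/-- the spatial part -/
def spa (v : R4) : R4 := v - ev 0 (v 0)

theorem spa_zero (v : R4) : spa v 0 = 0 := by simp [spa]

theorem spa_ne (v : R4) {j : Fin 4} (hj : j ≠ 0) : spa v j = v j := by simp [spa, hj]

theorem spa_add (v w : R4) : spa (v + w) = spa v + spa w := by
  ext j
  by_cases hj : j = 0
  · simp [hj, spa_zero]
  · simp [spa_ne _ hj]

end CuD1

open CuD1

theorem Sg.pj (h : Sg m C Ω T) : ∃ P, Pj T P := by
  classical
  obtain ⟨I, e, E, F, r1, r2, r3, ⟨Δ, Δ0, r4⟩, r5⟩ := spec h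
  refine ⟨pr e (F 0), ext_op e fun i j => ?_, star_pr e _, ?_, ?_,
    fun v hv => r5 _ (tcomm h hv (ev_nonneg zero_le_one)) 0, fun t ht => ext_op e fun i j => ?_⟩
  · rw [mul_apply_eq_comp, in_pr, in_pr]
    split_ifs <;> rfl
  · refine tendsto_iff_norm_sub_tendsto_zero.2 (squeeze_zero' (g := fun t => exp (-t * Δ))
      (Eventually.of_forall fun _ => norm_nonneg _) ((eventually_ge_atTop 0).mono fun t ht => ?_)
      (tendsto_exp_atBot.comp (tendsto_neg_atTop_atBot.atBot_mul_const Δ0)))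
    refine ContinuousLinearMap.opNorm_le_bound _ (exp_pos _).le fun x => ?_
    refine (abs_le_of_sq_le_sq' ?_ (mul_nonneg (exp_pos _).le (norm_nonneg _))).2
    rw [mul_pow]
    refine hasSum_le (fun i => ?_) (parseval e _) ((parseval e x).mul_left _)
    rw [sub_apply, inner_sub_right, r3 t ht, in_pr]
    by_cases g : E i = 0
    · rw [if_pos ((r1 0 i).2 g), g]
      simp only [mul_zero, exp_zero, Complex.ofReal_one, one_mul, sub_self, norm_zero]
      rw [zero_pow two_ne_zero]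
      positivity
    · rw [if_neg (mt (r1 0 i).1 g), sub_zero, norm_mul, mul_pow, Complex.norm_real,
        Real.norm_of_nonneg (exp_pos _).le]
      have := mul_le_mul_of_nonneg_left ((r4 i).resolve_left g) ht
      have : exp (-t * E i) ≤ exp (-t * Δ) := exp_le_exp.2 (by linarith)
      gcongr
  · have := FiniteDimensional.span_of_finite ℂ ((F 0).finite_toSet.image e)
    exact Submodule.finiteDimensional_of_le (S₂ := Submodule.span ℂ (e '' (F 0 : Set I)))
      (by rintro _ ⟨x, rfl⟩; exact pr_mem e _ x)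
  · rw [mul_apply_eq_comp, r3 t ht, in_pr]
    split_ifs with g
    · rw [(r1 0 i).1 g]; simp
    · simp

theorem Sg.cont_zero (h : Sg m C Ω T) {ξ η : H} {w : R4} {ε : ℝ} (ε0 : 0 < ε) (hw : 0 ≤ w 0)
    (h1 : ∀ v : R4, w 0 ≤ v 0 → (∀ j, j ≠ 0 → |v j - w j| < ε) → inner ℂ ξ (T v η) = 0)
    (v : R4) (hv : 0 ≤ v 0) : inner ℂ ξ (T v η) = 0 := by
  classical
  obtain ⟨I, e, E, F, r1, r2, r3, -, r5⟩ := spec h
  let K : Submodule ℂ H :=
    (Submodule.span ℂ (Set.range fun s : Set.Ici (0 : ℝ) => T (ev 0 s) ξ))ᗮ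
  have sy : ∀ t ≥ 0, ∀ x y, inner ℂ (T (ev 0 t) x) y = inner ℂ x (T (ev 0 t) y) :=
    fun t ht => (h.pos t ht).1
  have hK : ∀ x, x ∈ K ↔ ∀ s ≥ 0, inner ℂ ξ (T (ev 0 s) x) = 0 := fun x => by
    refine ⟨fun hx s hs => ?_, fun hx => ?_⟩
    · rw [← sy s hs]
      exact hx _ (Submodule.subset_span ⟨⟨s, hs⟩, rfl⟩)
    · intro y hy
      induction hy using Submodule.span_induction with
      | mem y hy => obtain ⟨s, rfl⟩ := hy; rw [sy s s.2]; exact hx s s.2
      | zero => exact inner_zero_left _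
      | add a b _ _ ha hb => rw [inner_add_left, ha, hb, add_zero]
      | smul c a _ ha => rw [inner_smul_left, ha, mul_zero]
  have k1 : ∀ t ≥ 0, ∀ x ∈ K, T (ev 0 t) x ∈ K := fun t ht x hx => (hK _).2 fun s hs => by
    rw [← mul_apply_eq_comp, ← h.add _ _ (ev_nonneg hs) (ev_nonneg ht), ← PiLp.single_add]
    exact (hK x).1 hx _ (add_nonneg hs ht)
  set Q := K.starProjection with hQ
  have q1 : Q * T (ev 0 1) * Q = T (ev 0 1) * Q := ContinuousLinearMap.ext fun x =>
    Submodule.starProjection_eq_self_iff.2 (k1 1 zero_le_one _ (K.starProjection_apply_mem x))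
  have q2 : star Q = Q := isSelfAdjoint_starProjection K
  have q3 : star (T (ev 0 1)) = T (ev 0 1) := (h.pos 1 zero_le_one).isSelfAdjoint
  have q4 : Q * T (ev 0 1) = T (ev 0 1) * Q := by
    have := congrArg star q1
    rw [star_mul, star_mul, star_mul, q2, q3, ← mul_assoc, q1] at this
    exact this.symm
  have q5 : ∀ l x, Q (pr e (F l) x) = pr e (F l) (Q x) := fun l x =>
    congrArg (fun L : H →L[ℂ] H => L x) (r5 Q q4 l)
  have q6 : ∀ l, ∀ x ∈ K, pr e (F l) x ∈ K := fun l x hx =>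
    Submodule.starProjection_eq_self_iff.1 (by
      rw [q5, Submodule.starProjection_eq_self_iff.2 hx])
  have q7 : ∀ x, (∀ l, pr e (F l) x ∈ K) → x ∈ K := fun x hx =>
    Submodule.starProjection_eq_self_iff.1 (ext_in e fun i => by
      have := congrArg (inner ℂ (e i))
        ((q5 _ x).symm.trans (Submodule.starProjection_eq_self_iff.2 (hx (E i))))
      rwa [in_pr, in_pr, if_pos ((r1 _ _).2 rfl), if_pos ((r1 _ _).2 rfl)] at this)
  have c1 : ∀ l (y : R4) x, T (spa y) (pr e (F l) x) = pr e (F l) (T (spa y) x) := fun l y x =>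
    congrArg (fun L : H →L[ℂ] H => L x)
      (r5 _ (tcomm h (spa_zero y).ge (ev_nonneg zero_le_one)) l)
  have c2 : ∀ (x y : R4) u, T (spa (x + y)) u = T (spa x) (T (spa y) u) := fun x y u => by
    rw [spa_add, h.add _ _ (spa_zero x).ge (spa_zero y).ge, mul_apply_eq_comp]
  have c3 : ∀ (s : ℝ) (y : R4) u, 0 ≤ s → T (ev 0 s + spa y) u = T (ev 0 s) (T (spa y) u) :=
    fun s y u hs => by rw [h.add _ _ (ev_nonneg hs) (spa_zero y).ge, mul_apply_eq_comp]
  have c4 : ∀ l x, pr e (F l) (T (ev 0 (w 0)) x) = (exp (-w 0 * l) : ℂ) • pr e (F l) x :=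
    fun l x => ext_in e fun i => by
      rw [inner_smul_right, in_pr, in_pr, r3 _ hw]
      split_ifs with g
      · rw [(r1 l i).1 g]
      · rw [mul_zero]
  have c5 : T (spa v) η ∈ K := q7 _ fun l => by
    have := FiniteDimensional.span_of_finite ℂ ((F l).finite_toSet.image e)
    have := germ (fun y x => T (spa y) x) (fun y => (T (spa y)).toLinearMap.isLinear) c2
      (u := pr e (F l) (T (spa w) η)) (W := Submodule.span ℂ (e '' (F l : Set I))) (K := K)
      (fun y => by rw [c1]; exact pr_mem e _ _) ε0 (fun y hy => ?_) (v - w)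
    · rwa [c1, ← c2, sub_add_cancel] at this
    · rw [c1, ← c2, ← K.smul_mem_iff (Complex.ofReal_ne_zero.2 (exp_pos (-w 0 * l)).ne'), ← c4]
      refine q6 l _ (((hK _).2 fun s hs => ?_))
      rw [← mul_apply_eq_comp, ← h.add _ _ (ev_nonneg hs) (ev_nonneg hw), ← PiLp.single_add,
        ← c3 _ _ _ (add_nonneg hs hw)]
      refine h1 _ (by simpa [spa_zero] using hs) fun j hj => ?_
      have : |y j| < ε := (PiLp.norm_apply_le y j).trans_lt hy
      simpa [spa_ne _ hj, hj] using this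
  have := (hK _).1 c5 _ hv
  rwa [← c3 _ _ _ hv, spa, add_sub_cancel] at this

end Pool.Agent.Lib.MP_7f377f_mp.YM9
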