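import Pool.Agent.Lib.MP_7f377f_mp.G.CuD1
import Pool.Agent.Lib.MP_7f377f_mp.G.CuC

/-! A pure vacuum is an eigenvector of all time ordered fields. -/

noncomputable section

set_option linter.unusedSectionVars false
variable [Pool.Agent.Lib.MP_7f377f_mp.GD]

namespace Pool.Agent.Lib.MP_7f377f_mp.YM9

open MeasureTheory Filter Topology Function Real Finset
open RGP (BM)

set_option linter.unusedSectionVars false

variable {H : Type} [NormedAddCommGroup H] [InnerProductSpace ℂ H] [CompleteSpace H]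
  {m C : ℝ} {Ω χ : H} {T : R4 → H →L[ℂ] H} {P : H →L[ℂ] H} {σ : MF → ℝ} {Ψ : MF → H}
  {φ A : MF → H →L[ℂ] H}

namespace CuG

/-- `χ` is an eigenvector -/
def Good (A : MF → H →L[ℂ] H) (χ : H) (F : MF) : Prop := ∃ c : ℂ, A F χ = c • χ

/-- families in a thin tube -/
def Tb (m : ℝ) (G : MF) : Prop :=
  AdM m G ∧ ∃ (w : R4) (r : ℝ), r < m / 16 ∧ Su {y | ∀ j, j ≠ 0 → |y j - w j| ≤ r} G

/-- earlier support -/
def Bef (f g : R4 → ℝ) : Prop := ∀ x ∈ tsupport f, ∀ y ∈ tsupport g, x 0 < y 0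

/-- the induction claim -/
def Cl (m : ℝ) (A : MF → H →L[ℂ] H) (χ : H) (E : MF) : Prop :=
  ∀ (t : ℝ) (G : MF), Su {y | y 0 < t} E → Tb m G → Su {y | t < y 0} G → Good A χ (E + G)

theorem Good.inner {F : MF} (h : Good A χ F) {χ' : H} (h0 : inner ℂ χ' χ = 0) :
    inner ℂ χ' (A F χ) = 0 := by
  obtain ⟨c, hc⟩ := h
  rw [hc, inner_smul_right, h0, mul_zero]

theorem good_of (h1 : ‖χ‖ = 1) {F : MF}
    (h : ∀ χ' : H, inner ℂ χ' χ = 0 → inner ℂ χ' (A F χ) = 0) : Good A χ F := by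
  have e : inner ℂ χ χ = (1 : ℂ) := by rw [inner_self_eq_norm_sq_to_K, h1]; simp
  have h2 : inner ℂ (A F χ - inner ℂ χ (A F χ) • χ) χ = 0 := by
    rw [← inner_conj_symm, inner_sub_right, inner_smul_right, e, mul_one, sub_self, map_zero]
  refine ⟨inner ℂ χ (A F χ), sub_eq_zero.1 (inner_self_eq_zero (𝕜 := ℂ).1 ?_)⟩
  rw [inner_sub_right, inner_smul_right, h2, h _ h2, mul_zero, sub_self]

theorem Good.mv (hχ : Pv m Ψ T P A χ) (hA : Ops m σ Ψ T P φ A) {F : MF} (hF : AdM m F)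
    (h : Good A χ F) (v : R4) : Good A χ (mv v F) := by
  obtain ⟨c, hc⟩ := h
  have h0 : (v - ev 0 (v 0)) 0 = 0 := by simp
  have e : YM9.mv v F = YM9.mv (ev 0 (v 0)) (YM9.mv (v - ev 0 (v 0)) F) := by
    rw [mv_mv, add_sub_cancel]
  refine ⟨c, ?_⟩
  have h1 := congrArg (fun B : H →L[ℂ] H => B χ) (hA.space hF h0)
  simp only [mul_apply_eq_comp, hχ.inv _ h0.ge, hc, map_smul] at h1
  rw [e, hA.time (hF.mv _), h1]

theorem cl_nil (hχ : Pv m Ψ T P A χ) (hA : Ops m σ Ψ T P φ A) : Cl m A χ 0 := by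
  rintro t G - ⟨hG, w, r, hr, hw⟩ -
  have h1 : Good A χ (mv (-w) G) := hχ.eig ⟨hG.mv _, (hw.mv _).mono fun y hy j hj => by
    have := hy j hj
    simp only [PiLp.add_apply, sub_neg_eq_add, add_sub_cancel_right] at this
    exact this.trans_lt hr⟩
  have := h1.mv hχ hA (hG.mv _) w
  rwa [mv_mv, add_neg_cancel, mv_zero, ← zero_add G] at this

theorem su_later {t : ℝ} {G : MF} (h : Su {y | t < y 0} G) {v : R4} (hv : 0 ≤ v 0) :
    Su {y | t < y 0} (mv v G) := (h.mv v).mono fun y hy => by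
  simp only [Set.mem_ofPred_eq, PiLp.sub_apply] at hy ⊢
  linarith

theorem key (hχ : Pv m Ψ T P A χ) (hA : Ops m σ Ψ T P φ A) {F G : MF} (hF : AdM m F)
    (hG : AdM m G) {t : ℝ} (h1 : Su {y | y 0 < t} F) (h2 : Su {y | t < y 0} G) (χ' : H) {v : R4}
    (hv : 0 ≤ v 0) : inner ℂ χ' (A (F + mv v G) χ) =
      inner ℂ (φ (mr 0 (mv (ev 0 (-t)) F)) χ') (T v (φ (mv (ev 0 (-t)) G) χ)) := by
  have p1 : PoM m (mr 0 (mv (ev 0 (-t)) F)) :=
    ⟨(hF.mv _).mr 0, ((h1.mv _).mr 0).mono fun y hy => by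
      simp only [Set.mem_ofPred_eq, PiLp.sub_apply, rf_apply, if_true, PiLp.single_apply] at hy ⊢
      linarith⟩
  have p2 : PoM m (mv (ev 0 (-t)) G) := ⟨hG.mv _, (h2.mv _).mono fun y hy => by
    simp only [Set.mem_ofPred_eq, PiLp.sub_apply, if_true, PiLp.single_apply] at hy ⊢
    linarith⟩
  have a1 : AdM m (F + mv v G) := hF.add_time (hG.mv v) (t := t)
    (h1.mono fun y (hy : y 0 < t) => hy.le) (su_later h2 hv)
  have e1 := congrArg (fun B : H →L[ℂ] H => B χ) (hA.sh p2 hv)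
  simp only [mul_apply_eq_comp, hχ.inv _ hv] at e1
  have e2 := hA.inn p1 (p2.mv hv)
  rw [mr_mr, mv_mv, add_comm v, ← mv_mv, ← mv_add, hA.time a1] at e2
  rw [e1, ← e2, mul_apply_eq_comp, ContinuousLinearMap.star_eq_adjoint,
    ContinuousLinearMap.adjoint_inner_right, mv_mv, mv_mv, add_comm v]

theorem Cl.step (hχ : Pv m Ψ T P A χ) (hS : Sg m C (Ψ 0) T) (hA : Ops m σ Ψ T P φ A) {E : MF}
    (hE : AdM m E) (h : Cl m A χ E) {g : R4 → ℝ} (hg : Tb m {g}) {s : ℝ}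
    (s1 : Su {y | y 0 < s} E) (s2 : Su {y | s < y 0} {g}) : Cl m A χ (E + {g}) := by
  rintro t G h1 ⟨hG, b, r, hr, hb⟩ h2
  obtain ⟨hg, a, q, hq, ha⟩ := hg
  have hF : AdM m (E + {g}) :=
    hE.add_time hg (t := s) (s1.mono fun y (hy : y 0 < s) => hy.le) s2
  refine good_of hχ.one fun χ' h0 => ?_
  have w0 : (a - b - ev 0 ((a - b) 0)) 0 = 0 := by simp
  have := hS.cont_zero (ξ := φ (mr 0 (mv (ev 0 (-t)) (E + {g}))) χ')
    (η := φ (mv (ev 0 (-t)) G) χ) (w := a - b - ev 0 ((a - b) 0)) (ε := (m / 16 - r) / 2)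
    (by linarith) w0.ge (fun v hv hj => ?_) 0 le_rfl
  · rwa [← key hχ hA hF hG h1 h2 χ' le_rfl, mv_zero] at this
  rw [w0] at hv
  rw [← key hχ hA hF hG h1 h2 χ' hv, add_assoc]
  obtain ⟨h3, h4⟩ := su_add.1 h1
  refine Good.inner (h (min s t) _ (fun f hf y hy =>
      (lt_min (s1 f hf hy) (h3 f hf hy) : y 0 < min s t))
    ⟨hg.add_time (hG.mv v) (t := t) (h4.mono fun y (hy : y 0 < t) => hy.le) (su_later h2 hv),
      a, max q (r + (m / 16 - r) / 2), max_lt hq (by linarith), su_add.2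
      ⟨ha.mono fun y hy j hj' => (hy j hj').trans (le_max_left _ _),
        (hb.mv v).mono fun y hy j hj' => le_trans ?_ (le_max_right _ _)⟩⟩
    (su_add.2 ⟨s2.mono fun y (hy : s < y 0) => (min_le_left _ _).trans_lt hy,
      (su_later h2 hv).mono fun y (hy : t < y 0) => (min_le_right _ _).trans_lt hy⟩)) h0
  have h5 := hy j hj'
  have h6 := hj j hj'
  simp only [PiLp.sub_apply, PiLp.single_apply, if_neg hj', sub_zero] at h5 h6
  rw [abs_le] at h5 ⊢
  rw [abs_lt] at h6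
  constructor <;> linarith [h5.1, h5.2, h6.1, h6.2]

theorem exists_sep {K K' : Set R4} (hK : IsCompact K) (hK' : IsCompact K')
    (h : ∀ x ∈ K, ∀ y ∈ K', x 0 < y 0) : ∃ s, (∀ x ∈ K, x 0 < s) ∧ ∀ y ∈ K', s < y 0 := by
  have c : Continuous fun y : R4 => y 0 := by fun_prop
  rcases K.eq_empty_or_nonempty with rfl | n1
  · obtain ⟨s, hs⟩ := (hK'.image c).bddBelow
    exact ⟨s - 1, by simp, fun y hy => (sub_one_lt s).trans_le (hs ⟨y, hy, rfl⟩)⟩
  obtain ⟨x, hx, h1⟩ := hK.exists_isMaxOn n1 c.continuousOn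
  rcases K'.eq_empty_or_nonempty with rfl | n2
  · exact ⟨x 0 + 1, fun y hy => (h1 hy).trans_lt (lt_add_one _), by simp⟩
  obtain ⟨y, hy, h2⟩ := hK'.exists_isMinOn n2 c.continuousOn
  obtain ⟨s, s1, s2⟩ := exists_between (h x hx y hy)
  exact ⟨s, fun z hz => (h1 hz).trans_lt s1, fun z hz => s2.trans_le (h2 hz)⟩

theorem adm_list {l : List (R4 → ℝ)} (h1 : ∀ g ∈ l, HasCompactSupport g ∧ ContDiff ℝ 1 g)
    (h2 : l.Pairwise Bef) : AdM m (l : MF) :=
  ⟨fun g hg => h1 g (Multiset.mem_coe.1 hg), Multiset.pairwise_coe_iff_pairwise.2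
    (h2.imp fun h x hx y hy z hz e => by simpa [e, pt, hz] using h x hx y hy)⟩

theorem cl_list (hχ : Pv m Ψ T P A χ) (hS : Sg m C (Ψ 0) T) (hA : Ops m σ Ψ T P φ A)
    (l : List (R4 → ℝ)) (h1 : ∀ g ∈ l, Tb m {g}) (h2 : l.Pairwise Bef) : Cl m A χ (l : MF) := by
  induction l using List.reverseRecOn with
  | nil => exact cl_nil hχ hA
  | append_singleton l g ih =>
    obtain ⟨h3, -, h4⟩ := List.pairwise_append.1 h2
    have h5 : ∀ u ∈ l, Tb m {u} := fun u hu => h1 u (List.mem_append_left _ hu)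
    have h6 : Tb m {g} := h1 g (by simp)
    have n : ∀ u, Tb m {u} → HasCompactSupport u ∧ ContDiff ℝ 1 u := fun u hu =>
      hu.1.1 u (Multiset.mem_singleton_self u)
    obtain ⟨s, s1, s2⟩ := exists_sep (K := ⋃ u ∈ {u | u ∈ l}, tsupport u) (K' := tsupport g)
      ((List.finite_toSet l).isCompact_biUnion fun u hu => (n u (h5 u hu)).1.isCompact)
      (n g h6).1.isCompact fun x hx y hy =>
        let ⟨u, hu, hx⟩ := Set.mem_iUnion₂.1 hx
        h4 u hu g (by simp) x hx y hy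
    rw [← Multiset.coe_add, Multiset.coe_singleton]
    exact (ih h5 h3).step hχ hS hA (adm_list (fun u hu => n u (h5 u hu)) h3) h6
      (fun u hu x hx => s1 x (Set.mem_iUnion₂.2 ⟨u, Multiset.mem_coe.1 hu, hx⟩))
      fun u hu y hy => s2 y (Multiset.mem_singleton.1 hu ▸ hy)

theorem good_list (hχ : Pv m Ψ T P A χ) (hS : Sg m C (Ψ 0) T) (hA : Ops m σ Ψ T P φ A)
    (l' l : List (R4 → ℝ)) (h1 : ∀ g ∈ l, Tb m {g})
    (h1' : ∀ g ∈ l', HasCompactSupport g ∧ ContDiff ℝ 1 g) (h2 : (l ++ l').Pairwise Bef) :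
    Good A χ ((l ++ l' : List (R4 → ℝ)) : MF) := by
  have n : ∀ u, Tb m {u} → HasCompactSupport u ∧ ContDiff ℝ 1 u := fun u hu =>
    hu.1.1 u (Multiset.mem_singleton_self u)
  induction l' generalizing l with
  | nil =>
    rw [List.append_nil] at h2 ⊢
    obtain ⟨R, -, hR⟩ := (adm_list (m := m) (fun u hu => n u (h1 u hu)) h2).ball
    have := cl_list hχ hS hA l h1 h2 (R + 1) 0 (hR.mono fun y hy =>
      ((le_abs_self _).trans ((PiLp.norm_apply_le y 0).trans hy)).trans_lt (lt_add_one R))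
      ⟨adm_nil, 0, 0, by linarith [hS.m0], su_nil⟩ su_nil
    rwa [add_zero] at this
  | cons g l' ih =>
    have e : ∀ u, ((l ++ u :: l' : List (R4 → ℝ)) : MF) = u ::ₘ (l ++ l' : List (R4 → ℝ)) :=
      fun u => Quot.sound List.perm_middle
    have a0 : AdM m (g ::ₘ (l ++ l' : List (R4 → ℝ))) := e g ▸ adm_list (fun u hu =>
      (List.mem_append.1 hu).elim (fun hu => n u (h1 u hu)) (h1' u)) h2
    obtain ⟨⟨g1, g2⟩, a1, a2⟩ := adm_cons.1 a0
    have a3 : ∀ u, ContDiff ℝ 1 u → tsupport u ⊆ tsupport g →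
        AdM m (u ::ₘ (l ++ l' : List (R4 → ℝ))) := fun u u1 u2 => adm_cons.2
      ⟨⟨g1.isCompact.of_isClosed_subset (isClosed_tsupport u) u2, u1⟩, a1,
        fun w hw x hx => a2 w hw x (u2 hx)⟩
    let _ : MeasurableSpace SU2 := borel _
    have : BorelSpace SU2 := ⟨rfl⟩
    obtain ⟨N, p, hp, hp'⟩ := exists_pieces g1 g2 (r := m / 32) (by linarith [hS.m0])
    have := Finset.sum_induction (s := univ) p (fun u => ContDiff ℝ 1 u ∧
      tsupport u ⊆ tsupport g ∧ Good A χ (u ::ₘ (l ++ l' : List (R4 → ℝ))))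
      (fun u u' ⟨u1, u2, c, hc⟩ ⟨v1, v2, c', hc'⟩ => ⟨u1.add v1,
        (tsupport_add u u').trans (Set.union_subset u2 v2), c + c', by
          rw [hA.add (a3 u u1 u2) (a3 u' v1 v2), _root_.add_apply, hc, hc',
            add_smul]⟩)
      ⟨contDiff_const, by simp, 0, by rw [hA.zero a1, zero_smul]; rfl⟩ fun i _ => ?_
    · rw [e, hp]
      exact this.2.2
    obtain ⟨p1, p2, w, hw⟩ := hp' i
    refine ⟨p1, p2, ?_⟩
    rw [← e, List.append_cons]
    obtain ⟨b1, b2, b3⟩ := List.pairwise_append.1 h2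
    obtain ⟨b4, b5⟩ := List.pairwise_cons.1 b2
    refine ih _ (fun u hu => (List.mem_append.1 hu).elim (h1 u) fun hu => ?_)
      (fun u hu => h1' u (List.mem_cons_of_mem _ hu)) ?_
    · rw [List.mem_singleton.1 hu]
      refine ⟨(adm_add.1 (Multiset.singleton_add _ _ ▸ a3 _ p1 p2)).1, w, m / 32, by linarith [hS.m0],
        fun u hu y hy j _ => ?_⟩
      rw [Multiset.mem_singleton.1 hu] at hy
      exact (PiLp.norm_apply_le (y - w) j).trans (hw y hy).le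
    · rw [← List.append_cons]
      exact List.pairwise_append.2 ⟨b1, List.pairwise_cons.2
        ⟨fun u hu x hx => b4 u hu x (p2 hx), b5⟩, fun u hu u' hu' =>
          (List.mem_cons.1 hu').elim
            (fun e x hx y hy => b3 u hu g (by simp) x hx y (p2 (e ▸ hy)))
            fun hu' => b3 u hu u' (List.mem_cons_of_mem _ hu')⟩

end CuG

theorem Pv.tord (hχ : Pv m Ψ T P A χ) (hS : Sg m C (Ψ 0) T) (_hP : Pj T P)
    (hA : Ops m σ Ψ T P φ A) {k : ℕ} {f : Fin k → R4 → ℝ} (hf : Tord f) :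
    ∃ c : ℂ, A (mf f) χ = c • χ :=
  CuG.good_list hχ hS hA (List.ofFn f) [] (by simp)
    (fun g hg => let ⟨i, e⟩ := List.mem_ofFn.1 hg; e ▸ ⟨(hf.1 i).1, (hf.1 i).2.1⟩)
    (List.pairwise_ofFn.2 fun i j hij => hf.2 i j hij)

end Pool.Agent.Lib.MP_7f377f_mp.YM9
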