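import Pool.Agent.Lib.MP_7f377f_mp.G.InfF
import Pool.Agent.Lib.MP_7f377f_mp.OSA
import Pool.Agent.Lib.MP_7f377f_mp.G.YM8Defs

/-! The Osterwalder-Schrader reconstruction of the Hilbert space and the semigroup. -/

noncomputable section

namespace Pool.Agent.Lib.MP_7f377f_mp.YM7
variable [GD]

open MeasureTheory Filter Topology Set Real
open scoped NNReal

variable {k l : ℕ} {S : ∀ {k : ℕ}, (Fin k → R4 → ℝ) → ℝ}

/-- translation of a family -/
def sh (v : R4) (f : Fin k → R4 → ℝ) : Fin k → R4 → ℝ := fun i y => f i (y - v)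

/-- a reflected family followed by a family -/
def rp (f : Fin k → R4 → ℝ) (g : Fin l → R4 → ℝ) : Fin (k + l) → R4 → ℝ :=
  Fin.append (fun i => theta (f i)) g

theorem Pos.sh {f : Fin k → R4 → ℝ} (hf : Pos f) {v : R4} (hv : 0 ≤ v 0) : Pos (sh v f) :=
  ⟨by unfold YM7.sh; simpa only [sub_eq_add_neg] using hf.1.add (-v), fun i y hy => by
    have := hf.2 i _ (tsupport_comp (θ := fun y => y - v) (by fun_prop) hy)
    simp only [PiLp.sub_apply] at this
    linarith⟩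

theorem Pos.rp {f : Fin k → R4 → ℝ} {g : Fin l → R4 → ℝ} (hf : Pos f) (hg : Pos g) :
    Adm (rp f g) :=
  hf.1.theta.append hg.1 fun i j => disjoint_left.2 fun y hy hy' => by
    have e := hf.2 i _ (tsupport_comp (θ := th) (f := f i) (thL_eq ▸ thL.continuous) hy)
    rw [th_zero] at e
    linarith [hg.2 j y hy']

theorem th_add (x y : R4) : th (x + y) = th x + th y := by
  rw [← thL_eq, map_add]

theorem Adm.reindex {f : Fin k → R4 → ℝ} (hf : Adm f) (e : Fin l ≃ Fin k) : Adm (f ∘ e) :=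
  ⟨fun i => hf.1 (e i), fun _ _ h => hf.2 (e.injective.ne h)⟩

/-- the soft properties of the Schwinger functions -/
structure OS (S : ∀ {k : ℕ}, (Fin k → R4 → ℝ) → ℝ) : Prop where
  nil : ∀ f : Fin 0 → R4 → ℝ, S f = 1
  perm : ∀ {k l} (e : Fin l ≃ Fin k) {f : Fin k → R4 → ℝ}, Adm f → S (f ∘ e) = S f
  trans : ∀ {k} {f : Fin k → R4 → ℝ}, Adm f → ∀ v, S (fun i y => f i (y + v)) = S f
  refl : ∀ {k} {f : Fin k → R4 → ℝ}, Adm f → S (fun i => theta (f i)) = S f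
  pos : ∀ (m : ℕ) (c : Fin m → ℝ) (k : Fin m → ℕ) (f : ∀ a, Fin (k a) → R4 → ℝ),
    (∀ a, Adm (f a)) → (∀ a i, ∀ y ∈ tsupport (f a i), 0 < y 0) → ∀ t ≥ 0,
    0 ≤ gram S c f t ∧ gram S c f t ≤ gram S c f 0
  cont : ∀ {k} {f : Fin k → R4 → ℝ}, Adm f →
    Tendsto (fun u : Fin k → R4 => S fun i y => f i (y - u i)) (𝓝 0) (𝓝 (S f))

theorem OS.symm (h : OS S) {f : Fin k → R4 → ℝ} {g : Fin l → R4 → ℝ} (hf : Pos f) (hg : Pos g) :
    S (rp f g) = S (rp g f) := by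
  rw [← h.refl (hf.rp hg), ← h.perm finAddFlip (hg.rp hf)]
  refine congrArg S (funext fun i => ?_)
  induction i using Fin.addCases with
  | left i =>
    simp only [rp, Function.comp, Fin.append_left, finAddFlip_apply_castAdd, Fin.append_right]
    exact funext fun y => congrArg _ (th_th y)
  | right i =>
    simp only [rp, Function.comp, Fin.append_left, finAddFlip_apply_natAdd, Fin.append_right]

theorem OS.shift (h : OS S) {f : Fin k → R4 → ℝ} {g : Fin l → R4 → ℝ} (hf : Pos f) (hg : Pos g)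
    {v w : R4} (hv : 0 ≤ v 0) (hw : 0 ≤ w 0) :
    S (rp (sh v f) (sh w g)) = S (rp f (sh (w - th v) g)) := by
  rw [← h.trans ((hf.sh hv).rp (hg.sh hw)) (th v)]
  refine congrArg S (funext fun i => funext fun y => ?_)
  induction i using Fin.addCases with
  | left i =>
    simp only [rp, Fin.append_left]
    change f i (th (y + th v) - v) = f i (th y)
    rw [th_add, th_th, add_sub_cancel_right]
  | right i =>
    simp only [rp, Fin.append_right, sh]
    rw [sub_sub_eq_add_sub]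

theorem OS.cont' (h : OS S) {f : Fin k → R4 → ℝ} {g : Fin l → R4 → ℝ} (hf : Pos f) (hg : Pos g)
    {w : R4} (hw : 0 ≤ w 0) : ContinuousAt (fun v => S (rp f (sh v g))) w := by
  have h1 : Tendsto (fun v : R4 => (Fin.append (fun _ => 0) (fun _ => v - w) : Fin (k + l) → R4))
      (𝓝 w) (𝓝 0) := tendsto_pi_nhds.2 fun i => by
    induction i using Fin.addCases with
    | left i => simpa only [Fin.append_left, Pi.zero_apply] using tendsto_const_nhds
    | right i =>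
      simpa only [Fin.append_right, Pi.zero_apply, id] using
        tendsto_sub_nhds_zero_iff.2 tendsto_id
  refine ((h.cont (hf.rp (hg.sh hw))).comp h1).congr fun v => ?_
  refine congrArg S (funext fun i => funext fun y => ?_)
  induction i using Fin.addCases with
  | left i => simp only [rp, Fin.append_left, sub_zero]
  | right i => simp only [rp, Fin.append_right, sh, sub_sub, sub_add_cancel]

/-- families at positive times -/
abbrev PX : Type := {p : Σ k, Fin k → R4 → ℝ // Pos p.2}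

theorem qf_gram (s : Finset PX) (c : PX → ℝ) (t : ℝ) :
    qf (fun x y : PX => S (rp x.1.2 (sh (EuclideanSpace.single 0 t) y.1.2))) s c =
      gram S (fun a => c (s.equivFin.symm a)) (fun a => (s.equivFin.symm a).1.1.2) t := by
  rw [qf, ← s.sum_coe_sort, ← s.equivFin.symm.sum_comp]
  refine Finset.sum_congr rfl fun a _ => ?_
  rw [← s.sum_coe_sort, ← s.equivFin.symm.sum_comp]
  rfl

theorem OS.qf (h : OS S) (s : Finset PX) (c : PX → ℝ) {t : ℝ} (ht : 0 ≤ t) :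
    0 ≤ qf (fun x y : PX => S (rp x.1.2 (sh (EuclideanSpace.single 0 t) y.1.2))) s c ∧
    qf (fun x y : PX => S (rp x.1.2 (sh (EuclideanSpace.single 0 t) y.1.2))) s c ≤
      qf (fun x y : PX => S (rp x.1.2 y.1.2)) s c := by
  have e := qf_gram (S := S) s c 0
  simp only [EuclideanSpace.single, PiLp.single, Pi.single_zero, WithLp.toLp_zero] at e
  rw [qf_gram]
  have h1 := h.pos _ (fun a => c (s.equivFin.symm a)) _ (fun a => (s.equivFin.symm a).1.1.2)
    (fun a => (s.equivFin.symm a).1.2.1) (fun a => (s.equivFin.symm a).1.2.2) t ht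
  refine ⟨h1.1, h1.2.trans_eq (e.symm.trans ?_)⟩
  unfold sh
  simp only [sub_zero]

theorem sub_th (v : R4) : v - th v = EuclideanSpace.single 0 (2 * v 0) := by
  ext l
  by_cases h : l = 0 <;> simp [th, h, two_mul]

theorem OS.reconstruct (h : OS S) :
    ∃ (H : Type) (_ : NormedAddCommGroup H) (_ : InnerProductSpace ℂ H) (_ : CompleteSpace H)
      (Ψ : ∀ {k : ℕ}, (Fin k → R4 → ℝ) → H) (T : R4 → H →L[ℂ] H),
      Dense (Submodule.span ℂ {x | ∃ k, ∃ f : Fin k → R4 → ℝ, Pos f ∧ Ψ f = x} : Set H) ∧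
      (∀ k l (f : Fin k → R4 → ℝ) (g : Fin l → R4 → ℝ), Pos f → Pos g →
        inner ℂ (Ψ f) (Ψ g) = S (Fin.append (fun i => theta (f i)) g)) ∧
      ‖Ψ ![]‖ = 1 ∧ T 0 = 1 ∧
      (∀ v, 0 ≤ v 0 → ‖T v‖ ≤ 1 ∧ T v (Ψ ![]) = Ψ ![] ∧ (∀ w, 0 ≤ w 0 → T (v + w) = T v * T w) ∧
        ∀ k (f : Fin k → R4 → ℝ), Pos f → T v (Ψ f) = Ψ fun i y => f i (y - v)) ∧
      (∀ x, ContinuousOn (fun v => T v x) {v | 0 ≤ v 0}) ∧
      (∀ v, v 0 = 0 → T v ∈ unitary (H →L[ℂ] H)) ∧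
      ∀ t ≥ 0, (T (EuclideanSpace.single 0 t)).IsPositive := by
  classical
  obtain ⟨H, _, _, _, ψ, h1, h2⟩ := gns (fun x y : PX => S (rp x.1.2 y.1.2))
    (fun x y => h.symm x.2 y.2) fun s c => (h.qf s c le_rfl).1.trans (h.qf s c le_rfl).2
  obtain ⟨Ψ, hΨ⟩ : ∃ Ψ : ∀ {k : ℕ}, (Fin k → R4 → ℝ) → H, ∀ x : PX, Ψ x.1.2 = ψ x :=
    ⟨fun f => if hf : Pos f then ψ ⟨⟨_, f⟩, hf⟩ else 0, fun x => dif_pos x.2⟩
  have h3 : ∀ {k l} {f : Fin k → R4 → ℝ} {g : Fin l → R4 → ℝ}, Pos f → Pos g →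
      inner ℂ (Ψ f) (Ψ g) = S (rp f g) := fun hf hg => by
    rw [hΨ ⟨⟨_, _⟩, hf⟩, hΨ ⟨⟨_, _⟩, hg⟩, h1]
  have h4 : ∀ v : R4, ∃ T : H →L[ℂ] H, 0 ≤ v 0 → ‖T‖ ≤ 1 ∧ ∀ x : PX, T (ψ x) = Ψ (sh v x.1.2) :=
    fun v => by
      by_cases hv : 0 ≤ v 0
      · refine (exists_op h2 h1 (fun x y => ?_) fun s c =>
          (h.qf s c (mul_nonneg zero_le_two hv)).2).imp fun _ e _ => e
        rw [h3 (x.2.sh hv) (y.2.sh hv), h.shift x.2 y.2 hv hv, sub_th]
      · exact ⟨0, fun e => absurd e hv⟩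
  choose T hT using h4
  have h5 : ∀ {v : R4}, 0 ≤ v 0 → ∀ {k} {f : Fin k → R4 → ℝ}, Pos f → T v (Ψ f) = Ψ (sh v f) :=
    fun hv _ _ hf => by rw [hΨ ⟨⟨_, _⟩, hf⟩, (hT _ hv).2]
  have ext : ∀ {A B : H →L[ℂ] H}, (∀ x : PX, A (Ψ x.1.2) = B (Ψ x.1.2)) → A = B := fun e =>
    ContinuousLinearMap.ext_on h2 (by rintro _ ⟨x, rfl⟩; rw [← hΨ, e])
  have sh0 : ∀ {k} (f : Fin k → R4 → ℝ), sh 0 f = f := fun f => by
    unfold sh
    simp only [sub_zero]
  have T0 : T 0 = 1 := ext fun x => by rw [h5 le_rfl x.2, sh0, one_apply_eq_self]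
  have mul : ∀ {v w : R4}, 0 ≤ v 0 → 0 ≤ w 0 → T (v + w) = T v * T w := fun hv hw =>
    ext fun x => by
      rw [mul_apply_eq_comp, h5 hw x.2, h5 hv (x.2.sh hw), h5 (add_nonneg hv hw) x.2]
      unfold sh
      simp only [sub_sub]
  have neg : ∀ {v : R4}, 0 ≤ v 0 → 0 ≤ (-th v) 0 := fun hv => by
    rwa [PiLp.neg_apply, th_zero, neg_neg]
  have adj : ∀ {v : R4}, 0 ≤ v 0 → star (T v) = T (-th v) := fun {v} hv =>
    adj_ext h2 fun x y => by
      have e := h.shift x.2 y.2 hv (le_refl ((0 : R4) 0))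
      rw [sh0, zero_sub] at e
      rw [← hΨ, ← hΨ, h5 hv x.2, h5 (neg hv) y.2, h3 (x.2.sh hv) y.2, h3 x.2 (y.2.sh (neg hv)), e]
  have nil : Pos (![] : Fin 0 → R4 → ℝ) := ⟨⟨fun i => i.elim0, fun i => i.elim0⟩, fun i => i.elim0⟩
  refine ⟨H, inferInstance, inferInstance, inferInstance, Ψ, T, ?_, fun _ _ _ _ => h3, ?_, T0,
    fun v hv => ⟨(hT v hv).1, ?_, fun w hw => mul hv hw, fun _ _ => h5 hv⟩,
    cont_ext h2 (fun v hv => (hT v hv).1) fun x w hw => ?_, fun v hv => ?_, fun t ht => ?_⟩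
  · refine h2.mono (Submodule.span_mono ?_)
    rintro _ ⟨x, rfl⟩
    exact ⟨_, _, x.2, hΨ x⟩
  · rw [← sq_eq_sq₀ (norm_nonneg _) zero_le_one, ← inner_self_eq_norm_sq (𝕜 := ℂ), h3 nil nil,
      h.nil, one_pow]
    rfl
  · rw [h5 hv nil, Subsingleton.elim (sh v _) ![]]
  · have c1 := (h.cont' x.2 x.2 (w := w - th w) (by rw [sub_th]; simpa using hw))
    have c2 : Continuous th := thL_eq ▸ thL.continuous
    have c3 := ((c1.tendsto.comp ((continuous_id.sub c2).tendsto w)).sub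
      ((c1.tendsto.comp ((continuous_const.sub c2).tendsto w)).const_mul 2)).add_const
      (S (rp x.1.2 (sh (w - th w) x.1.2)))
    rw [show ∀ a : ℝ, a - 2 * a + a = 0 from fun a => by ring] at c3
    refine tendsto_iff_norm_sub_tendsto_zero.2 ?_
    have c4 := (c3.mono_left (nhdsWithin_le_nhds (s := {v | 0 ≤ v 0}))).sqrt
    rw [sqrt_zero] at c4
    refine c4.congr' (eventually_mem_nhdsWithin.mono fun v hv => ?_)
    refine (congrArg _ ?_).trans (sqrt_sq (norm_nonneg _))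
    beta_reduce
    rw [norm_sub_sq (𝕜 := ℂ), ← inner_self_eq_norm_sq (𝕜 := ℂ), ← inner_self_eq_norm_sq (𝕜 := ℂ),
      ← hΨ, h5 hv x.2, h5 hw x.2, h3 (x.2.sh hv) (x.2.sh hv), h3 (x.2.sh hv) (x.2.sh hw),
      h3 (x.2.sh hw) (x.2.sh hw), h.shift x.2 x.2 hv hv, h.shift x.2 x.2 hv hw,
      h.shift x.2 x.2 hw hw]
    rfl
  · have e : -th v = -v := by
      rw [neg_inj, eq_comm, ← sub_eq_zero, sub_th, hv, mul_zero]
      simp
    have hv' : 0 ≤ (-v) 0 := e ▸ neg hv.ge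
    rw [Unitary.mem_iff, adj hv.ge, e, ← mul hv' hv.ge, ← mul hv.ge hv', neg_add_cancel,
      add_neg_cancel, T0]
    exact ⟨rfl, rfl⟩
  · have e : (EuclideanSpace.single 0 (t / 2) : R4) 0 = t / 2 := by simp
    have hv : 0 ≤ (EuclideanSpace.single 0 (t / 2) : R4) 0 := by rw [e]; linarith
    have := ContinuousLinearMap.isPositive_adjoint_comp_self (T (EuclideanSpace.single 0 (t / 2)))
    rwa [← ContinuousLinearMap.star_eq_adjoint, adj hv, ← ContinuousLinearMap.mul_def,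
      ← mul (neg hv) hv, neg_add_eq_sub, sub_th, e, mul_div_cancel₀ t two_ne_zero] at this

end Pool.Agent.Lib.MP_7f377f_mp.YM7
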