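import Pool.Agent.Lib.MP_7f377f_mp.G.RGAlg

/-! The normalised character of the gauge group. -/

noncomputable section

namespace Pool.Agent.Lib.MP_7f377f_mp

/-- the analogue of the real part of a unit quaternion -/
def GD.re1 [GD] (g : GD.G) : ℝ := 1 - GD.t ^ 2 * (GD.n - (GD.rho g).trace)

open Matrix in
theorem GD.norm_q_sq [GD] (g : GD.G) : ‖RG.S3.q g - 1‖ ^ 2 = 2 - 2 * GD.re1 g := by
  have h : ∑ i, ∑ j, ‖(GD.rho g - 1) i j‖ ^ 2 = ((GD.rho g - 1) * (GD.rho g - 1)ᵀ).trace := by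
    simp only [trace, diag, mul_apply, transpose_apply, Real.norm_eq_abs, sq, abs_mul_abs_self]
  rw [transpose_sub, transpose_one, mul_sub, sub_mul, GD.rho_orth', mul_one, one_mul, trace_sub,
    trace_sub, trace_sub, trace_transpose, trace_one, Fintype.card_fin] at h
  have e : ‖RG.S3.q g - 1‖ = GD.t * √(∑ i, ∑ j, ‖(GD.rho g - 1) i j‖ ^ 2) := by
    simp [RG.Un.norm_eq, RG.S3.q]
  rw [e, mul_pow, Real.sq_sqrt (by positivity), h, GD.re1]
  ring

end Pool.Agent.Lib.MP_7f377f_mp
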