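import Pool.Agent.Lib.MP_7f377f_mp.HClus
import Pool.Agent.Lib.MP_7f377f_mp.G.YMBase
import Pool.Agent.Lib.MP_7f377f_mp.CoulKer

/-! The normalised character of the gauge group and Haar measure. -/

noncomputable section

namespace Pool.Agent.Lib.MP_7f377f_mp.Y6
variable [GD]

open MeasureTheory Measure Function Filter Topology Pool.Agent.Lib.MP_2d4879_an Hm RGP Ch Finset

set_option linter.unusedSectionVars false

/-- the gauge group -/
abbrev SU2 : Type := GD.G

/-- the trace -/
def tc (g : SU2) : ℝ := 2 * GD.re1 g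

theorem tc_comm (g g' : SU2) : tc (g * g') = tc (g' * g) := by
  simp only [tc, GD.re1, map_mul, Matrix.trace_mul_comm (GD.rho g)]

theorem tc_inv (g : SU2) : tc g⁻¹ = tc g := by
  simp only [tc, GD.re1, GD.rho_inv, Matrix.trace_transpose]

theorem tc_conj (u g : SU2) : tc (u * g * u⁻¹) = tc g := by rw [tc_comm, inv_mul_cancel_left]

@[fun_prop] theorem cont_tc : Continuous tc :=
  continuous_const.mul (continuous_const.sub (continuous_const.mul
    (continuous_const.sub GD.rho_cont.matrix_trace)))

/-- the components -/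
def cp (i : Fin GD.n × Fin GD.n) (g : SU2) : ℝ := GD.t * GD.rho g i.1 i.2

@[fun_prop] theorem cont_cp (i : Fin GD.n × Fin GD.n) : Continuous (cp i) :=
  continuous_const.mul (GD.rho_cont.matrix_elem _ _)

theorem sum_cp (g g' : SU2) :
    tc (g * g'⁻¹) = 2 * ∑ i, cp i g * cp i g' + (2 - 2 * (GD.t ^ 2 * GD.n)) := by
  simp only [tc, GD.re1, map_mul, GD.rho_inv, cp, Fintype.sum_prod_type, Matrix.trace, Matrix.diag,
    Matrix.mul_apply, Matrix.transpose_apply, mul_mul_mul_comm GD.t, ← mul_sum]
  ring

theorem bm_of_cont {X : Type} [TopologicalSpace X] [CompactSpace X] [MeasurableSpace X]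
    [OpensMeasurableSpace X] {f : X → ℝ} (hf : Continuous f) : BM f :=
  ⟨hf.measurable, ‖BoundedContinuousFunction.mkOfCompact ⟨f, hf⟩‖, fun x =>
    (BoundedContinuousFunction.mkOfCompact ⟨f, hf⟩).norm_coe_le_norm x⟩

variable [MeasurableSpace SU2] [BorelSpace SU2] (h : Measure SU2) [h.IsHaarMeasure]
  [IsProbabilityMeasure h] (β : ℝ)

instance : h.IsMulRightInvariant := Weak.haar_right h
instance : h.IsInvInvariant := Weak.haar_inv h

theorem mp_lr {I : Type} (a b : I → SU2) :
    MeasurePreserving (fun (x : I → SU2) i => a i * x i * b i) (PP h I) (PP h I) := by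
  have m : ∀ i, MeasurePreserving (fun g => a i * g * b i) h h := fun i =>
    (measurePreserving_mul_right h (b i)).comp (measurePreserving_mul_left h (a i))
  refine ⟨measurable_pi_lambda _ fun i => (m i).measurable.comp (measurable_pi_apply i), ?_⟩
  rw [infinitePi_map_pi (fun _ : I => h) fun i => (m i).measurable]
  simp only [fun i => (m i).map_eq]

omit [MeasurableSpace SU2] [BorelSpace SU2] in
theorem sum_shift {f : ℤ → ℝ} {T : ℕ} (hf : ∀ t, f (t + T) = f t) (a : ℤ) :
    ∑ i ∈ range T, f (a + i) = ∑ i ∈ range T, f i := by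
  have key : ∀ a : ℤ, ∑ i ∈ range T, f (a + 1 + i) = ∑ i ∈ range T, f (a + i) := fun a => by
    have h1 := sum_range_succ (fun i : ℕ => f (a + i)) T
    rw [sum_range_succ', hf] at h1
    simp only [Nat.cast_add, Nat.cast_one, Nat.cast_zero, add_zero] at h1
    simpa only [add_assoc, add_comm (1 : ℤ)] using add_right_cancel h1
  induction a with
  | zero => simp
  | succ a ih => rw [key, ih]
  | pred a ih => rw [← key, sub_add_cancel, ih]

end Pool.Agent.Lib.MP_7f377f_mp.Y6
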