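import Pool.Agent.Lib.MP_7f377f_mp.CyB
import Pool.Agent.Lib.MP_7f377f_mp.G.HKer
import Pool.Agent.Lib.MP_7f377f_mp.G.YM9Defs

/-! The transfer kernel of four dimensional `SU(2)` lattice gauge theory. -/

noncomputable section

set_option linter.unusedSectionVars false
variable [Pool.Agent.Lib.MP_7f377f_mp.GD]

namespace Pool.Agent.Lib.MP_7f377f_mp.YM9

open MeasureTheory Measure Function Filter Topology Pool.Agent.Lib.MP_2d4879_an Hm RGP Ch Finset
open scoped InnerProductSpace Quaternion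
open Y6 (tc tc_conj tc_inv cp sum_cp bm_of_cont mp_lr sum_shift)

set_option linter.unusedSectionVars false

/-- spatial sites -/
abbrev Sp (M : Fin 3 → ℕ) : Type := ∀ j, ZMod (M j)
/-- spatial links -/
abbrev Ed (M : Fin 3 → ℕ) : Type := Sp M × Fin 3

variable {M : Fin 3 → ℕ}

/-- gauge transformation of a slice -/
def ga (g : Sp M → SU2) (x : Ed M → SU2) : Ed M → SU2 :=
  fun e => g e.1 * x e * (g (e.1 + Pi.single e.2 1))⁻¹

theorem ga_ga (g g' : Sp M → SU2) (x : Ed M → SU2) : ga g (ga g' x) = ga (g * g') x :=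
  funext fun e => by simp only [ga, Pi.mul_apply]; group

theorem ga_one (x : Ed M → SU2) : ga 1 x = x := funext fun e => by simp [ga]

@[fun_prop] theorem cont_ga : Continuous fun p : (Sp M → SU2) × (Ed M → SU2) => ga p.1 p.2 := by
  unfold ga; fun_prop

@[fun_prop] theorem cont_dens (x : Fin 4 → ℤ) : Continuous fun U => dens U x := by
  refine continuous_finsetSum _ fun i _ => continuous_finsetSum _ fun j _ => ?_
  split_ifs
  · exact continuous_const.sub (Y6.cont_tc.comp (by fun_prop))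
  · exact continuous_const

variable [∀ j, NeZero (M j)]

/-- the spatial plaquettes -/
def w2 (x : Ed M → SU2) : ℝ := ∑ s, ∑ i, ∑ j, if i < j then
  2 - tc (x (s, i) * x (s + Pi.single i 1, j) * (x (s + Pi.single j 1, i))⁻¹ * (x (s, j))⁻¹) else 0

/-- the coupling of two slices -/
def dt (y x : Ed M → SU2) : ℝ := ∑ e, (2 - tc (y e * (x e)⁻¹))

/-- the weight of one time step -/
def WW (b : ℝ) (x : Ed M → SU2) (g : Sp M → SU2) (y : Ed M → SU2) : ℝ :=
  Real.exp (-b * (w2 x / 2 + w2 y / 2 + dt (ga g y) x))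

theorem w2_ga (g : Sp M → SU2) (x : Ed M → SU2) : w2 (ga g x) = w2 x :=
  sum_congr rfl fun s _ => sum_congr rfl fun i _ => sum_congr rfl fun j _ => by
    rw [← tc_conj (g s) (x _ * _ * _ * _)]
    simp only [ga, add_right_comm s (Pi.single j 1)]
    congr 3
    group

theorem dt_comm (x y : Ed M → SU2) : dt x y = dt y x :=
  sum_congr rfl fun e _ => by rw [← tc_inv, mul_inv_rev, inv_inv]

theorem dt_ga (g : Sp M → SU2) (x y : Ed M → SU2) : dt (ga g y) (ga g x) = dt y x :=
  sum_congr rfl fun e _ => by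
    rw [← tc_conj (g e.1) (y e * _)]
    simp only [ga]
    congr 2
    group

@[fun_prop] theorem cont_w2 : Continuous (w2 (M := M)) := by
  refine continuous_finsetSum _ fun _ _ => continuous_finsetSum _ fun i _ =>
    continuous_finsetSum _ fun j _ => ?_
  split_ifs <;> fun_prop

@[fun_prop] theorem cont_dt : Continuous fun p : (Ed M → SU2) × (Ed M → SU2) => dt p.1 p.2 := by
  unfold dt; fun_prop

theorem cont_WW (b : ℝ) : Continuous fun p : (Ed M → SU2) × (Sp M → SU2) × (Ed M → SU2) =>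
    WW b p.1 p.2.1 p.2.2 := by
  unfold WW; fun_prop

theorem WW_inv (b : ℝ) (x : Ed M → SU2) (g : Sp M → SU2) (y : Ed M → SU2) :
    WW b x g⁻¹ y = WW b y g x := by
  rw [WW, WW, add_comm (w2 x / 2), ← dt_ga g x, ga_ga, dt_comm, mul_inv_cancel, ga_one]

variable [MeasurableSpace SU2] [BorelSpace SU2] (h : Measure SU2) [h.IsHaarMeasure]
  [IsProbabilityMeasure h] (b : ℝ)

theorem bm_WW (x y : Ed M → SU2) : BM fun g => WW b x g y :=
  bm_of_cont ((cont_WW b).comp (f := fun g => (x, g, y)) (by fun_prop))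

theorem wt_WW : Wt h (WW (M := M) b) where
  bm := bm_of_cont (cont_WW b)
  pos _ _ _ := Real.exp_pos _
  symm x y := by
    rw [Ch.KK, Ch.KK, ← int_mp (mp_pat h injective_id fun _ => true) (bm_WW b x y).meas]
    exact congrArg _ (funext fun g => WW_inv b x g y)

theorem exp_psd {X : Type} [TopologicalSpace X] [CompactSpace X] [SecondCountableTopology X]
    [MeasurableSpace X] [OpensMeasurableSpace X] (ν : Measure X) [IsFiniteMeasure ν] {b : ℝ}
    (hb : 0 ≤ b) {F : X → ℝ} (cF : Continuous F) {Φ : X → Ed M → SU2} (cΦ : Continuous Φ) :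
    0 ≤ ∫ q : X × X, F q.1 * F q.2 * Real.exp (-b * dt (Φ q.1) (Φ q.2)) ∂ν.prod ν := by
  have key := Coul.ker_exp ν cF (κ := Ed M × Fin GD.n × Fin GD.n) (x := fun p i => √(2 * b) * cp i.2 (Φ p i.1))
    (y := fun _ _ => 0) (by fun_prop) continuous_const
  have e : ∀ u v : Ed M → SU2, -b * dt u v = ∑ i : Ed M × Fin GD.n × Fin GD.n, √(2 * b) * cp i.2 (u i.1) *
      (√(2 * b) * cp i.2 (v i.1)) + -b * ∑ _e : Ed M, 2 * (GD.t ^ 2 * GD.n) := fun u v => by
    simp only [mul_mul_mul_comm √(2 * b), Real.mul_self_sqrt (show 0 ≤ 2 * b by positivity),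
      Fintype.sum_prod_type (γ := ℝ) (α₁ := Ed M), dt, sum_cp, mul_sum _ _ (-b),
      ← sum_add_distrib]
    refine sum_congr rfl fun _ _ => ?_
    simp only [← mul_sum]
    ring
  simp only [mul_zero, zero_mul, sum_const_zero, Real.exp_zero, mul_one, integral_prod_mul] at key
  simp only [e, Real.exp_add, ← mul_assoc _ _ (Real.exp (-b * _)), integral_mul_const]
  exact mul_nonneg (by nlinarith [mul_self_nonneg (∫ a, F a ∂ν)]) (Real.exp_pos _).le

theorem KK_psd (hb : 0 ≤ b) (v : Lp ℝ 2 (PP h (Ed M))) :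
    0 ≤ ⟪v, (wt_WW h b).gk.op _ v⟫_ℝ := by
  refine (ContinuousMap.toLp_denseRange ℝ (PP h (Ed M)) ℝ (p := 2) (by simp)).induction_on v
    (isClosed_le continuous_const (by fun_prop)) fun f => ?_
  have bf : BF f := ⟨(bm_of_cont f.continuous).meas, (bm_of_cont f.continuous).bdd⟩
  rw [show ContinuousMap.toLp 2 (PP h (Ed M)) ℝ f = bf.cl _ from rfl, bf.inner_op bf]
  have : BorelSpace ((Ed M → SU2) × (Sp M → SU2)) := inferInstance
  have cF : Continuous fun p : (Ed M → SU2) × (Sp M → SU2) =>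
    f p.1 * Real.exp (-b * (w2 p.1 / 2)) := by fun_prop
  refine (exp_psd ((PP h (Ed M)).prod (PP h (Sp M))) hb cF (Φ := fun p => ga p.2 p.1)
    (by fun_prop)).trans_eq ?_
  rw [integral_prod _ (Weak.cint _ (by fun_prop))]
  have e : ∀ p : (Ed M → SU2) × (Sp M → SU2), ∫ q : (Ed M → SU2) × (Sp M → SU2),
      f p.1 * Real.exp (-b * (w2 p.1 / 2)) * (f q.1 * Real.exp (-b * (w2 q.1 / 2))) *
        Real.exp (-b * dt (ga p.2 p.1) (ga q.2 q.1)) ∂(PP h (Ed M)).prod (PP h (Sp M)) =
      ∫ y, f p.1 * Ch.KK h (WW b) p.1 y * f y ∂PP h (Ed M) := fun p => by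
    rw [integral_prod _ (Weak.cint _ (by fun_prop))]
    congr 1
    funext y
    rw [Ch.KK, ← int_mp (mp_lr h p.2⁻¹ 1) (bm_WW b p.1 y).meas, ← integral_const_mul,
      ← integral_mul_const]
    congr 1
    funext g
    rw [WW, ← dt_ga p.2 p.1, ga_ga, dt_comm, show p.2 * (fun i => p.2⁻¹ i * g i * (1 : Sp M → SU2) i)
      = g from funext fun i => by simp]
    simp only [mul_add, Real.exp_add]
    ring
  simp only [e]
  exact (integral_fun_fst (fun x => ∫ y, f x * Ch.KK h (WW b) x y * f y ∂PP h (Ed M))).trans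
    (by simp)

theorem exists_vacuum : ∃ l r e, Vac (PP h (Ed M)) (wt_WW h b).gk l r e ∧ r < 1 := by
  have : TopologicalSpace.SeparableSpace (Lp ℝ 2 (PP h (Ed M))) :=
    have : Fact ((2 : ENNReal) ≠ ⊤) := ⟨ENNReal.ofNat_ne_top⟩
    inferInstance
  obtain ⟨C, hC⟩ := (bm_of_cont (f := fun p : (Ed M → SU2) × (Sp M → SU2) × (Ed M → SU2) =>
    -b * (w2 p.1 / 2 + w2 p.2.2 / 2 + dt (ga p.2.1 p.2.2) p.1)) (by fun_prop)).bdd
  refine exists_pf _ (wt_WW h b).symm (Real.exp_pos (-C)) fun x y => ?_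
  refine le_of_eq_of_le (by simp) (integral_mono (μ := PP h (Sp M))
    (integrable_const (Real.exp (-C))) ((bm_WW b x y).integrable _) fun g => ?_)
  exact Real.exp_le_exp.2 (neg_le_of_abs_le (hC (x, g, y)))

/-- the spatial part of a site -/
def sp (M : Fin 3 → ℕ) (x : Fin 4 → ℤ) : Sp M := fun j => x j.succ

/-- the variable carried by a link -/
def ix (M : Fin 3 → ℕ) (e : Link) : Ix (Ed M) (Sp M) :=
  (e.1 0, Fin.cases (.inr (sp M e.1)) (fun j => .inl (sp M e.1, j)) e.2)

/-- the spatially periodic field -/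
def lift (w : Ix (Ed M) (Sp M) → SU2) : Link → SU2 := fun e => w (ix M e)

theorem meas_lift : Measurable (lift (M := M)) :=
  measurable_pi_lambda _ fun _ => measurable_pi_apply _

/-- the fundamental domain -/
abbrev box (N : Fin 4 → ℕ) : Finset (Fin 4 → ℤ) := Fintype.piFinset fun i => Ico (0 : ℤ) (N i)

theorem sum_box (T : ℕ) (f : ℤ → Sp M → ℝ) :
    ∑ x ∈ box (Matrix.vecCons T M), f (x 0) (sp M x) = ∑ t ∈ range T, ∑ s, f t s := by
  rw [← sum_product']
  symm
  refine sum_bij' (fun p _ => Fin.cons (p.1 : ℤ) fun j => ((p.2 j).val : ℤ))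
    (fun x _ => ((x 0).toNat, sp M x)) (fun p hp => Fintype.mem_piFinset.2 fun i => ?_)
    (fun x hx => ?_) (fun p _ => ?_) (fun x hx => ?_) fun p _ => ?_
  · have := mem_range.1 (mem_product.1 hp).1
    refine Fin.cases (by simpa using this) (fun j => ?_) i
    rw [Matrix.cons_val_succ, Fin.cons_succ, mem_Ico]
    exact ⟨Int.natCast_nonneg _, Int.ofNat_lt.2 (p.2 j).val_lt⟩
  · have := Fintype.mem_piFinset.1 hx 0
    simp only [mem_Ico, Matrix.cons_val_zero] at this
    simp only [mem_product, mem_range, mem_univ, and_true]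
    omega
  · exact Prod.ext (by simp) (funext fun j => by simp [sp])
  · have := fun i => mem_Ico.1 (Fintype.mem_piFinset.1 hx i)
    funext i
    refine Fin.cases (by simpa using (this 0).1) (fun j => ?_) i
    have h2 := this j.succ
    rw [Matrix.cons_val_succ] at h2
    simp only [Fin.cons_succ, sp, ZMod.val_intCast, Int.emod_eq_of_lt h2.1 h2.2]
  · congr 1
    exact funext fun j => by simp [sp]

theorem sp_add (x y : Fin 4 → ℤ) : sp M (x + y) = sp M x + sp M y := funext fun _ => Int.cast_add _ _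

theorem sp_zero (t : ℤ) : sp M (Pi.single 0 t) = 0 := funext fun j => by simp [sp]

theorem sp_succ (j : Fin 3) : sp M (Pi.single j.succ 1) = Pi.single j 1 :=
  funext fun i => by
    by_cases h : i = j
    · subst h; simp [sp]
    · simp [sp, h]

theorem action_lift (T : ℕ) (w : Ix (Ed M) (Sp M) → SU2) :
    ∑ x ∈ box (Matrix.vecCons T M), dens (lift w) x =
      ∑ t ∈ range T, (w2 (sl t w) + dt (ga (tl t w) (sl (t + 1) w)) (sl t w)) := by
  let d : (Ed M → SU2) → (Ed M → SU2) → Sp M → ℝ := fun x y s => (∑ i, ∑ j, if i < j then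
    2 - tc (x (s, i) * x (s + Pi.single i 1, j) * (x (s + Pi.single j 1, i))⁻¹ * (x (s, j))⁻¹)
      else 0) + ∑ j, (2 - tc (y (s, j) * (x (s, j))⁻¹))
  have e : ∀ x y : Ed M → SU2, w2 x + dt y x = ∑ s, d x y s := fun x y => by
    rw [sum_add_distrib, w2, dt, Fintype.sum_prod_type]
  simp only [e]
  rw [← sum_box T fun t s => d (sl t w) (ga (tl t w) (sl (t + 1) w)) s]
  refine sum_congr rfl fun x _ => ?_
  have e0 : ∀ y, lift w (y, 0) = tl (y 0) w (sp M y) := fun _ => rfl
  have e1 : ∀ y (j : Fin 3), lift w (y, j.succ) = sl (y 0) w (sp M y, j) := fun _ _ => rfl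
  rw [dens, Fin.sum_univ_succ, add_comm]
  simp only [Fin.sum_univ_succ (n := 3), Fin.not_lt_zero, if_false, zero_add, Fin.succ_pos, if_true,
    Fin.succ_lt_succ_iff, e0, e1, sp_add, sp_zero, sp_succ, add_zero, Pi.add_apply,
    Pi.single_eq_same, Pi.single_eq_of_ne (Fin.succ_ne_zero _).symm]
  rfl

theorem wt_cyc (a : ℤ) (T : ℕ) (w : Ix (Ed M) (Sp M) → SU2) : wt (WW b) a T (cyc a T w) =
    Real.exp (-b * ∑ x ∈ box (Matrix.vecCons T M), dens (lift (cyc a T w)) x) := by
  have p1 : ∀ t, sl (t + T) (cyc a T w) = sl t (cyc a T w) := fun t => funext fun e => by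
    simp only [sl, cyc, add_sub_right_comm, Int.add_emod_right]
  have p2 : ∀ t, tl (t + T) (cyc a T w) = tl t (cyc a T w) := fun t => funext fun e => by
    simp only [tl, cyc, add_sub_right_comm, Int.add_emod_right]
  rw [action_lift, wt]
  generalize cyc a T w = v at p1 p2
  simp only [WW, ← Real.exp_sum, ← mul_sum, sum_add_distrib]
  rw [sum_shift (f := fun t => w2 (sl t v) / 2) (fun t => by simp only [p1]) a,
    sum_shift (f := fun t => dt (ga (tl t v) (sl (t + 1) v)) (sl t v))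
      (fun t => by simp only [p1, p2, add_right_comm t T]) a]
  simp only [add_right_comm a _ 1]
  rw [sum_shift (f := fun t => w2 (sl t v) / 2) (fun t => by simp only [p1]) (a + 1),
    ← sum_add_distrib]
  simp only [add_halves]

theorem meas_per (N : Fin 4 → ℕ) : Measurable (per N) :=
  measurable_pi_lambda _ fun _ => measurable_pi_apply _

theorem int_per {T : ℕ} (a : ℤ) {H : (Link → SU2) → ℝ} (mH : Measurable H) :
    ∫ U, H (per (Matrix.vecCons T M) U) ∂PP h Link =
      ∫ w, H (lift (cyc a T w)) ∂PP h (Ix (Ed M) (Sp M)) := by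
  refine int_pat h mH (D := Set.univ) (dependsOn_univ H) (s := fun _ => false)
    (s' := fun _ => false)
    (φ := fun e : Link => ((fun i => e.1 i % (Matrix.vecCons T M i : ℕ), e.2) : Link))
    (φ' := fun e => ((a + ((ix M e).1 - a) % T, (ix M e).2) : Ix (Ed M) (Sp M)))
    (fun e _ e' _ => ?_) fun _ _ _ _ _ => rfl
  obtain ⟨x, i⟩ := e
  obtain ⟨y, j⟩ := e'
  have h0 : a + (x 0 - a) % T = a + (y 0 - a) % T ↔ x 0 % T = y 0 % T := by
    rw [_root_.add_right_inj]
    exact ⟨fun h => by simpa only [sub_add_cancel, Int.ModEq] using Int.ModEq.add_right a h,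
      fun h => Int.ModEq.sub_right a h⟩
  have h1 : sp M x = sp M y ↔ ∀ l : Fin 3, x l.succ % M l = y l.succ % M l := by
    simp [sp, funext_iff, ZMod.intCast_eq_intCast_iff']
  simp only [Prod.mk.injEq, ix, h0, funext_iff, Fin.forall_fin_succ (n := 3), Matrix.cons_val_zero,
    Matrix.cons_val_succ, and_assoc, ← h1]
  refine and_congr_right fun _ => ?_
  refine Fin.cases ?_ (fun i => ?_) i <;> refine Fin.cases ?_ (fun j => ?_) j <;>
    simp [Fin.succ_ne_zero, (Fin.succ_ne_zero _).symm, funext_iff]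

/-- the Boltzmann weight -/
def bw (N : Fin 4 → ℕ) (U : Link → SU2) : ℝ := Real.exp (-b * ∑ x ∈ box N, dens U x)

@[fun_prop] theorem cont_bw (N : Fin 4 → ℕ) : Continuous (bw b N) := by unfold bw; fun_prop

/-- unnormalised expectation on the torus -/
def zz (N : Fin 4 → ℕ) (F : (Link → SU2) → ℝ) : ℝ :=
  ∫ U, F (per N U) * bw b N (per N U) ∂PP h Link

theorem int_wilson (N : Fin 4 → ℕ) {F : (Link → SU2) → ℝ} (mF : Measurable F) :
    ∫ U, F U ∂wilson h b N = zz h b N F / zz h b N fun _ => 1 := by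
  rw [wilson, integral_map (meas_per _).aemeasurable mF.aestronglyMeasurable, integral_tilted]
  simp only [zz, bw, one_mul, smul_eq_mul, div_mul_eq_mul_div, integral_div, mul_comm (F _)]

theorem zz_tor {T : ℕ} (a : ℤ) {F : (Link → SU2) → ℝ} (mF : Measurable F) :
    zz h b (Matrix.vecCons T M) F = tor h (WW (M := M) b) a T fun w => F (lift w) := by
  simp only [tor, wt_cyc]
  exact int_per h a (H := fun U => F U * bw b _ U) (mF.mul (cont_bw b _).measurable)

theorem zz_pos (N : Fin 4 → ℕ) : 0 < zz h b N fun _ => 1 := by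
  simp only [zz, one_mul]
  exact integral_exp_pos (((bm_of_cont (cont_bw b N)).comp (meas_per N)).integrable _)

instance (N : Fin 4 → ℕ) : IsProbabilityMeasure (wilson h b N) :=
  have := isProbabilityMeasure_tilted (μ := PP h Link)
    (f := fun U => -b * ∑ x ∈ box N, dens (per N U) x)
    (((bm_of_cont (cont_bw b N)).comp (meas_per N)).integrable _)
  isProbabilityMeasure_map (meas_per N).aemeasurable

end Pool.Agent.Lib.MP_7f377f_mp.YM9
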