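import Pool.Agent.Lib.MP_7f377f_mp.G.CyDef

/-! Lattice motions of the periodic Wilson measures and the bridge to the finite torus. -/

noncomputable section

set_option linter.unusedSectionVars false
variable [Pool.Agent.Lib.MP_7f377f_mp.GD]

namespace Pool.Agent.Lib.MP_7f377f_mp.YM9

open MeasureTheory Filter Topology Function Real
open RGP (BM pat int_pat measurable_pat PP)
open Y6 (tc tc_conj tc_inv)

set_option linter.unusedSectionVars false

/-! ### plaquettes -/

theorem dens_pe (U : Fd) (x : Z4) : dens U x = ∑ i, ∑ j, if i < j then pe U x i j else 0 := rfl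

theorem dens_prm (σ : Equiv.Perm (Fin 4)) (U : Fd) (x : Z4) :
    dens (prm σ U) x = dens U (x ∘ σ.symm) := YM7.dens_prm (n := 0) σ U x

theorem gf_site (g : Z4 → ℝ) (U : Fd) : gf (fun x _ _ => g x) U = ∑' x, g x * dens U x := by
  simp only [gf, dens_pe, Finset.mul_sum, mul_ite, mul_zero]

theorem rq_rq (i j : Fin 4) (x : Z4) : rq i j (rq i j x) = x := by
  simp only [rq, update_idem, update_self, neg_sub, sub_neg_eq_add, add_sub_cancel_left,
    update_eq_self]

theorem rq_add {l : Fin 4} (hl : l ≠ 0) (i j : Fin 4) (x : Z4) :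
    rq i j (x + Pi.single l 1) = rq i j x + Pi.single l 1 := funext fun k => by
  by_cases hk : k = 0
  · simp [rq, hk, hl.symm]
  · simp [rq, hk]

theorem pe_rfl {i j : Fin 4} (hij : i < j) (U : Fd) (x : Z4) :
    pe (rfl0 U) x i j = pe U (rq i j x) i j := by
  have hj : j ≠ 0 := (Fin.pos_iff_ne_zero.1 (lt_of_le_of_lt (Fin.zero_le _) hij))
  by_cases hi : i = 0
  · subst hi
    have e0 : rq 0 0 x = rq 0 j x := by simp [rq]
    have e1 : rq j j (x + Pi.single 0 1) = rq 0 j x := funext fun k => by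
      by_cases hk : k = 0
      · simp [rq, hk, hj, sub_eq_add_neg, add_comm]
      · simp [rq, hk]
    have e2 : rq j j x = rq 0 j x + Pi.single 0 1 := funext fun k => by
      by_cases hk : k = 0
      · simp [rq, hk, hj]
      · simp [rq, hk]
    simp only [pe, rfl0, hj, if_true, if_false, rq_add hj, e0, e1, e2]
    refine congrArg (2 - ·) ((tc_conj (U (rq 0 j x, 0)) _).symm.trans
      ((tc_inv _).symm.trans (congrArg tc ?_)))
    group
  · have e : ∀ x, rq i i x = rq i j x ∧ rq j j x = rq i j x := fun x => by simp [rq, hi, hj]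
    simp only [pe, rfl0, hi, hj, if_false, (e _).1, (e _).2, rq_add hi, rq_add hj]

theorem pe_ext {n : ℕ} (U : YM7.Cfg n) (x : Z4) (i j : Fin 4) :
    pe (ext U) x i j = YM7.pe U (fun l => (x l : ZMod n)) i j := by
  have e : ∀ i, (fun l => (((x + Pi.single i 1 : Z4) l : ℤ) : ZMod n)) =
      (fun l => (x l : ZMod n)) + Pi.single i 1 := fun i => funext fun l => by
    by_cases hl : l = i <;> simp [hl]
  simp only [pe, YM7.pe, ext, e]

theorem tsum_swap {f : Z4 → Fin 4 → Fin 4 → ℝ} (hf : ∀ i j, (support fun x => f x i j).Finite) :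
    ∑' x, ∑ i, ∑ j, f x i j = ∑ i, ∑ j, ∑' x, f x i j := by
  have s : ∀ i j, Summable fun x => f x i j := fun i j => summable_of_hasFiniteSupport (hf i j)
  rw [Summable.tsum_finsetSum fun i _ => summable_sum fun j _ => s i j]
  exact Finset.sum_congr rfl fun i _ => Summable.tsum_finsetSum fun j _ => s i j

theorem gf_rF {F : Sr} (hF : (support F).Finite) (U : Fd) : gf (rF F) U = gf F (rfl0 U) := by
  have inj := fun i j => (Involutive.injective (rq_rq i j))
  rw [gf, gf, tsum_swap fun i j => (hF.preimage (inj i j).injOn).subset fun x hx h0 =>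
      hx (by simp [rF, h0]),
    tsum_swap fun i j => hF.subset fun x hx h0 => hx (by simp [h0])]
  refine Finset.sum_congr rfl fun i _ => Finset.sum_congr rfl fun j _ => ?_
  rw [← (Involutive.toPerm _ (rq_rq i j)).tsum_eq]
  refine tsum_congr fun x => if_ctx_congr Iff.rfl (fun hij => ?_) fun _ => rfl
  rw [pe_rfl hij]
  exact congrArg (fun y => F y i j * _) (rq_rq i j x)

theorem gf_prm (σ : Equiv.Perm (Fin 4)) (g : Z4 → ℝ) (U : Fd) :
    gf (fun x _ _ => g (x ∘ σ)) U = gf (fun x _ _ => g x) (prm σ U) := by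
  simp only [gf_site, dens_prm]
  rw [← (Equiv.arrowCongr σ (Equiv.refl ℤ)).tsum_eq]
  refine tsum_congr fun x => ?_
  congr 2
  funext l
  simp

theorem gf_ext {n : ℕ} [NeZero n] (z : Z4) {F : Sr} (hF : ∀ x, F x ≠ 0 → ∀ l, 2 * |x l - z l| < n)
    (U : YM7.Cfg n) :
    gf F (ext U) = YM7.gfield (fun x => F (z + fun l => (x l - z l).valMinAbs)) U := by
  let g : (Fin 4 → ZMod n) → Z4 := fun x => z + fun l => (x l - z l).valMinAbs
  have e : ∀ x, (fun l => (g x l : ZMod n)) = x := fun x => funext fun l => by simp [g]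
  have inj : Injective g := fun x y H => by rw [← e x, H, e]
  rw [gf, ← inj.tsum_eq fun x hx => ⟨fun l => x l, funext fun l => ?_⟩, tsum_fintype]
  · simp only [pe_ext, e]
    rfl
  · have := abs_lt.1 ((abs_mul 2 (x l - z l)).trans_lt
      (hF x (fun h0 => hx (by simp [h0])) l))
    exact eq_sub_iff_add_eq'.1 ((ZMod.valMinAbs_spec _ _).2
      ⟨(Int.cast_sub _ _).symm, by linarith, by linarith⟩)

/-! ### periodic fields -/

/-- reduction of a site -/
def md (N : Fin 4 → ℕ) (x : Z4) : Z4 := fun i => x i % N i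

theorem md_md (N : Fin 4 → ℕ) (x : Z4) : md N (md N x) = md N x :=
  funext fun _ => Int.emod_emod _ _

theorem md_mem {N : Fin 4 → ℕ} (hN : ∀ i, 0 < N i) (x : Z4) : md N x ∈ box N :=
  Fintype.mem_piFinset.2 fun i => Finset.mem_Ico.2
    ⟨Int.emod_nonneg _ (by have := hN i; omega), Int.emod_lt_of_pos _ (by have := hN i; omega)⟩

theorem md_box {N : Fin 4 → ℕ} {x : Z4} (hx : x ∈ box N) : md N x = x := funext fun i =>
  have := Finset.mem_Ico.1 (Fintype.mem_piFinset.1 hx i)
  Int.emod_eq_of_lt this.1 this.2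

theorem sum_md {N N' : Fin 4 → ℕ} (hN : ∀ i, 0 < N i) (hN' : ∀ i, 0 < N' i) (ψ : Z4 ≃ Z4)
    (hψ : ∀ x y, md N (ψ x) = md N (ψ y) ↔ md N' x = md N' y) {g : Z4 → ℝ}
    (hg : ∀ x, g (md N x) = g x) : ∑ x ∈ box N', g (ψ x) = ∑ x ∈ box N, g x :=
  Finset.sum_nbij' (fun x => md N (ψ x)) (fun y => md N' (ψ.symm y)) (fun _ _ => md_mem hN _)
    (fun _ _ => md_mem hN' _)
    (fun x hx => ((hψ _ _).1 (by rw [ψ.apply_symm_apply, md_md])).trans (md_box hx))
    (fun y hy => ((hψ _ _).2 (md_md _ _)).trans (by rw [ψ.apply_symm_apply, md_box hy]))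
    fun _ _ => (hg _).symm

theorem pe_md (N : Fin 4 → ℕ) (U : Fd) (x : Z4) (i j : Fin 4) :
    pe (per N U) (md N x) i j = pe (per N U) x i j := by
  simp only [pe, per, md, Pi.add_apply, Int.emod_add_emod, Int.emod_emod]

theorem md_add (N : Fin 4 → ℕ) (v x y : Z4) : md N (x + v) = md N (y + v) ↔ md N x = md N y :=
  funext_iff.trans ((forall_congr' fun _ =>
    ⟨Int.ModEq.add_right_cancel' _, Int.ModEq.add_right _⟩).trans funext_iff.symm)

theorem md_rq (N : Fin 4 → ℕ) (i j : Fin 4) (x y : Z4) :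
    md N (rq i j x) = md N (rq i j y) ↔ md N x = md N y := by
  have k : ∀ x y, md N x = md N y → md N (rq i j x) = md N (rq i j y) := fun x y h =>
    funext fun l => by
      by_cases hl : l = 0
      · subst hl
        simp only [md, rq, update_self]
        exact (Int.ModEq.neg (congrFun h 0)).sub_right _
      · simpa only [md, rq, update_of_ne hl] using congrFun h l
  exact ⟨fun h => by simpa only [rq_rq] using k _ _ h, k x y⟩

theorem md_prm (N : Fin 4 → ℕ) (σ : Equiv.Perm (Fin 4)) (x y : Z4) :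
    md N (x ∘ σ.symm) = md N (y ∘ σ.symm) ↔ md (N ∘ σ) x = md (N ∘ σ) y := by
  rw [funext_iff, funext_iff, ← σ.forall_congr_right]
  simp only [md, comp_apply, Equiv.symm_apply_apply]

variable [MeasurableSpace SU2] [BorelSpace SU2] (h : Measure SU2) [h.IsHaarMeasure]
  [IsProbabilityMeasure h]

theorem zz_mot (b : ℝ) {N N' : Fin 4 → ℕ} {ψ : Fin 4 → Z4 → Z4} {τ : Fin 4 → Fin 4}
    (s : Fin 4 → Bool) (hτ : Injective τ)
    (hψ : ∀ i x y, md N (ψ i x) = md N (ψ i y) ↔ md N' x = md N' y) {Θ : Fd → Fd}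
    (hΘ : Θ = pat (fun e => (ψ e.2 e.1, τ e.2)) fun e => s e.2)
    (e : ∀ U, ∑ x ∈ box N', dens (Θ (per N U)) x = ∑ x ∈ box N, dens (per N U) x)
    {F : Fd → ℝ} (mF : Measurable F) : (zz h b N fun U => F (Θ U)) = zz h b N' F := by
  have e' : ∀ U, bw b N (per N U) = bw b N' (Θ (per N U)) := fun U => by rw [bw, bw, e]
  simp only [zz, e']
  subst hΘ
  refine int_pat h (F := fun U => F U * bw b N' U) (mF.mul (cont_bw b _).measurable)
    (dependsOn_univ _) (φ := fun e : Link => ((md N (ψ e.2 e.1), τ e.2) : Link))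
    (s := fun e => s e.2) (φ' := fun e : Link => ((md N' e.1, e.2) : Link))
    (s' := fun _ => false) (fun e _ e' _ => ?_) fun e _ e' _ H => ?_
  · simp only [Prod.mk.injEq, hτ.eq_iff]
    exact and_congr_left fun H => by rw [H, hψ]
  · rw [hτ (congrArg Prod.snd H), Bool.xor_self, Bool.xor_self]

theorem mp_mot (b : ℝ) {N N' : Fin 4 → ℕ} {Θ : Fd → Fd} (mΘ : Measurable Θ)
    (e : ∀ F : Fd → ℝ, Measurable F → (zz h b N fun U => F (Θ U)) = zz h b N' F) :
    MeasurePreserving Θ (wilson h b N) (wilson h b N') := by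
  refine ⟨mΘ, Measure.ext fun A hA => ?_⟩
  have m1 : Measurable (A.indicator (1 : Fd → ℝ)) := measurable_one.indicator hA
  rw [← measureReal_eq_measureReal_iff, ← integral_indicator_one hA, ← integral_indicator_one hA,
    integral_map mΘ.aemeasurable m1.aestronglyMeasurable, int_wilson h b _ m1,
    int_wilson h b _ (F := fun U => A.indicator 1 (Θ U)) (m1.comp mΘ), ← e _ m1,
    ← e _ measurable_const]

theorem mp_shf (b : ℝ) {N : Fin 4 → ℕ} (hN : ∀ i, 0 < N i) (v : Z4) :
    MeasurePreserving (shf v) (wilson h b N) (wilson h b N) :=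
  mp_mot h b (cont_shf v).measurable fun _ => zz_mot h b (Θ := shf v) (fun _ => false)
    injective_id (fun _ => md_add N v) rfl fun U => by
      simp only [dens_pe, pe_shf]
      exact sum_md hN hN (Equiv.addRight v) (md_add N v)
        (g := fun x => ∑ i, ∑ j, if i < j then pe (per N U) x i j else 0)
        fun x => by simp only [pe_md]

theorem mp_rfl (b : ℝ) {N : Fin 4 → ℕ} (hN : ∀ i, 0 < N i) :
    MeasurePreserving rfl0 (wilson h b N) (wilson h b N) :=
  mp_mot h b cont_rfl0.measurable fun _ => zz_mot h b (fun i => decide (i = 0)) injective_id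
    (fun i => md_rq N i i) (by funext U e; simp [rfl0, pat, RGP.sg]) fun U => by
      simp only [dens_pe]
      rw [Finset.sum_comm, Finset.sum_comm (s := box N)]
      refine Finset.sum_congr rfl fun i _ => ?_
      rw [Finset.sum_comm, Finset.sum_comm (s := box N)]
      refine Finset.sum_congr rfl fun j _ => ?_
      split_ifs with hij
      · simp only [pe_rfl hij]
        exact sum_md hN hN (Involutive.toPerm _ (rq_rq i j)) (md_rq N i j)
          (g := fun x => pe (per N U) x i j) fun x => pe_md N U x i j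
      · rfl

theorem zz_prm' (b : ℝ) {N : Fin 4 → ℕ} (hN : ∀ i, 0 < N i) (σ : Equiv.Perm (Fin 4))
    (F : Fd → ℝ) : Measurable F → (zz h b N fun U => F (prm σ U)) = zz h b (N ∘ σ) F :=
  zz_mot h b (Θ := prm σ) (fun _ => false) σ.injective (fun _ => md_prm N σ) rfl fun U => by
    simp only [dens_prm]
    exact sum_md hN (fun _ => hN _) (Equiv.arrowCongr σ (Equiv.refl ℤ)) (md_prm N σ)
      fun x => by simp only [dens_pe, pe_md]

theorem mp_prm (b : ℝ) {N : Fin 4 → ℕ} (hN : ∀ i, 0 < N i) (σ : Equiv.Perm (Fin 4)) :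
    MeasurePreserving (prm σ) (wilson h b N) (wilson h b (N ∘ σ)) :=
  mp_mot h b (cont_prm σ).measurable (zz_prm' h b hN σ)

theorem zz_prm (b : ℝ) {N : Fin 4 → ℕ} (hN : ∀ i, 0 < N i) (σ : Equiv.Perm (Fin 4)) :
    (zz h b (N ∘ σ) fun _ => 1) = zz h b N fun _ => 1 :=
  (zz_prm' h b hN σ _ measurable_const).symm

theorem ae_per (b : ℝ) (N : Fin 4 → ℕ) :
    ∀ᵐ U ∂wilson h b N, ∀ z : Z4, shf (fun i => N i * z i) U = U :=
  ae_all_iff.2 fun z => (ae_map_iff (meas_per N).aemeasurable
    (isClosed_eq (cont_shf _) continuous_id').measurableSet).2 (ae_of_all _ fun U =>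
      funext fun e => by simp only [shf, per, Pi.add_apply, Int.add_mul_emod_self_left])

theorem zz_ext (b : ℝ) (n : ℕ) [NeZero n] {φ : Fd → ℝ} (hφ : Measurable φ) :
    zz h b (fun _ => n) φ = ∫ U : YM7.Cfg n, φ (ext U) * exp (-b * ∑ x, YM7.dens U x)
      ∂Measure.pi fun _ => h := by
  have e : ∀ U : YM7.Cfg n, exp (-b * ∑ x, YM7.dens U x) = bw b (fun _ => n) (ext U) := fun U => by
    rw [bw]
    congr 2
    refine Finset.sum_bij' (fun x _ l => ((x l).val : ℤ)) (fun x _ l => (x l : ZMod n))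
      (fun x _ => Fintype.mem_piFinset.2 fun l => Finset.mem_Ico.2
        ⟨Int.natCast_nonneg _, Int.ofNat_lt.2 (x l).val_lt⟩) (fun _ _ => Finset.mem_univ _)
      (fun x _ => funext fun l => by simp)
      (fun x hx => funext fun l => (ZMod.val_intCast _).trans (congrFun (md_box hx) l))
      fun x _ => ?_
    simp only [dens_pe, pe_ext, Int.cast_natCast, ZMod.natCast_zmod_val]
    rfl
  simp only [e]
  rw [← Measure.infinitePi_eq_pi]
  refine int_pat h (F := fun U => φ U * bw b (fun _ => n) U) (hφ.mul (cont_bw b _).measurable)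
    (dependsOn_univ _) (φ := fun e : Link => ((md (fun _ => n) e.1, e.2) : Link))
    (s := fun _ => false) (φ' := fun e : Link => (fun l => (e.1 l : ZMod n), e.2))
    (s' := fun _ => false) (fun e _ e' _ => ?_) fun _ _ _ _ _ => rfl
  simp only [Prod.mk.injEq, funext_iff, md, ZMod.intCast_eq_intCast_iff']

theorem zz_cube (b : ℝ) (n : ℕ) [NeZero n] : (zz h b (fun _ => n) fun _ => 1) = Z7 h b n := by
  simp only [zz_ext h b n measurable_const, one_mul, Z7]

theorem int_cube (b : ℝ) (n : ℕ) [NeZero n] {φ : Fd → ℝ} (hφ : Measurable φ) :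
    ∫ U, φ U ∂cube h b n = ∫ U, φ (ext U) ∂YM7.wilson h b n := by
  rw [cube, int_wilson h b _ hφ, zz_cube, zz_ext h b n hφ, YM7.wilson, integral_tilted]
  simp only [Z7, smul_eq_mul, div_mul_eq_mul_div, integral_div, mul_comm (φ _)]

theorem gc_cube (b : ℝ) (n : ℕ) [NeZero n] {κ : Type} [Fintype κ] {F : κ → Sr} {G : κ → YM7.Src n}
    (hF : ∀ i, (support (F i)).Finite) (e : ∀ i U, gf (F i) (ext U) = YM7.gfield (G i) U) :
    gc (cube h b n) (cube h b n) F = ∫ U, ∏ i, YM7.cen h b (G i) U ∂YM7.wilson h b n := by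
  have m := fun i => (cont_gf (hF i)).measurable
  rw [gc, int_cube h b n (Finset.measurable_prod _ fun i _ => (m i).sub_const _)]
  simp only [int_cube h b n (m _), e, YM7.cen]

end Pool.Agent.Lib.MP_7f377f_mp.YM9
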