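import Pool.Agent.Lib.MP_7f377f_mp.G.CyD1
import Pool.Agent.Lib.MP_7f377f_mp.G.CyF2
import Pool.Agent.Lib.MP_7f377f_mp.G.CyFr
import Pool.Agent.Lib.MP_7f377f_mp.G.OSB

/-! The short distance law on the cube and on the cylinder. -/

noncomputable section

set_option linter.unusedSectionVars false
variable [Pool.Agent.Lib.MP_7f377f_mp.GD]

namespace Pool.Agent.Lib.MP_7f377f_mp.YM9

open MeasureTheory Filter Topology Function Real
open RGP (BM)

/-- a test function at scale `d` as a source -/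
def Gs.sc (a d : ℝ) (f : R4 → ℝ) : Sr := src a fun y => f (d⁻¹ • y)

open Gs

theorem Gs.coord_le {d D : ℝ} (hd : 0 < d) {x : R4} (hx : ‖d⁻¹ • x‖ ≤ D) (l : Fin 4) :
    |x l| ≤ d * D := by
  rw [norm_smul, norm_inv, norm_of_nonneg hd.le, inv_mul_le_iff₀ hd] at hx
  exact (PiLp.norm_apply_le x l).trans hx

theorem Gs.in_sc {a d D : ℝ} (hd : 0 < d) {f : R4 → ℝ} (hf : ∀ y ∈ tsupport f, ‖y‖ ≤ D) :
    In a (d * D) (sc a d f) := fun x hx l =>
  coord_le hd (x := pt a x) (hf _ (subset_tsupport _ fun e => hx (by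
    funext i j
    exact e))) l

theorem Gs.adL_sc {k : ℕ} {g : Fin k → R4 → ℝ} (hg : YM7.Adm g) {d D : ℝ} {m : ℕ} (hd : 0 < d)
    (hD : ∀ i, ∀ y ∈ tsupport (g i), ‖y‖ ≤ D) (hm : 2 * (d * D) < m) :
    AdL (Lt m) fun i y => g i (d⁻¹ • y) := by
  have H := hg.smul (inv_ne_zero hd.ne')
  refine ⟨H.1, fun i j hij x hx y hy w ⟨z, hz⟩ e => ?_⟩
  have hz0 : z = 0 := funext fun l => by_contra fun hl => by
    have h1 := coord_le hd (hD i _ (YM7.tsupport_comp (θ := fun y => d⁻¹ • y) (by fun_prop) hx)) l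
    have h2 := coord_le hd (hD j _ (YM7.tsupport_comp (θ := fun y => d⁻¹ • y) (by fun_prop) hy)) l
    have h3 : (1 : ℝ) ≤ |(z l : ℝ)| := by exact_mod_cast Int.one_le_abs hl
    have h4 : x l - y l = m * z l := by simp [e, ← hz, pt]
    have h5 := abs_sub (x l) (y l)
    rw [h4, abs_mul, Nat.abs_cast] at h5
    nlinarith [Nat.cast_nonneg (α := ℝ) m]
  have : w = 0 := by
    ext l
    simp [← hz, hz0, pt]
  rw [this, add_zero] at e
  exact Set.disjoint_left.1 (H.2 hij) hx (e ▸ hy)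

theorem Gs.fin_tF {F : Sr} (hF : (support F).Finite) (v : Z4) : (support (tF v F)).Finite :=
  hF.preimage (f := fun x => x - v) sub_left_injective.injOn

theorem Gs.small (c : ℝ) {m : ℝ} (hm : 0 < m) : ∀ᶠ d in 𝓝[>] (0 : ℝ), 0 < d ∧ d * c < m :=
  eventually_mem_nhdsWithin.and (mem_nhdsWithin_of_mem_nhds
    ((continuous_id.mul continuous_const).continuousAt.eventually_lt continuousAt_const
      (by simpa using hm)))

variable [MeasurableSpace SU2]

theorem Gs.sho_iff {ι : Type} {Φ : Filter ι} {ρ μ : ι → Measure Fd} {a : ι → ℝ} {K : ℕ} :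
    Sho Φ ρ μ a K ↔ ∀ k ≤ K, ∀ f : Fin k → R4 → ℝ, YM7.Adm f →
      Tendsto (fun q : ℝ × ι => log q.1⁻¹ ^ k * gc (ρ q.2) (μ q.2) fun i => sc (a q.2) q.1 (f i))
        ((𝓝[>] 0).curry Φ) (𝓝 ((48 / (11 * GD.b0)) ^ k * fv f)) := by
  refine forall₂_congr fun k _ => forall₂_congr fun f _ => ?_
  rw [Metric.nhds_basis_closedBall.tendsto_right_iff]
  rfl

variable [BorelSpace SU2]

theorem Gs.int_mp {Θ : Fd → Fd} {μ : Measure Fd} (hΘ : MeasurePreserving Θ μ μ) {φ : Fd → ℝ}
    (hφ : Continuous φ) : ∫ U, φ (Θ U) ∂μ = ∫ U, φ U ∂μ := by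
  rw [← integral_map hΘ.aemeasurable hφ.aestronglyMeasurable, hΘ.map_eq]

theorem Gs.gc_mp {Θ : Fd → Fd} {ρ μ : Measure Fd} (hρ : MeasurePreserving Θ ρ ρ)
    (hμ : MeasurePreserving Θ μ μ) {k : ℕ} {F F' : Fin k → Sr} (hF : ∀ i, (support (F i)).Finite)
    (e : ∀ i U, gf (F' i) U = gf (F i) (Θ U)) : gc ρ μ F' = gc ρ μ F := by
  have := fun i => cont_gf (hF i)
  simp only [gc, e, int_mp hμ (this _)]
  exact int_mp hρ (φ := fun U => ∏ i, (gf (F i) U - ∫ V, gf (F i) V ∂μ)) (by fun_prop)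

theorem Gs.gc_expand (μ ν : Measure Fd) [IsProbabilityMeasure μ] {k : ℕ} {F : Fin k → Sr}
    (hF : ∀ i, (support (F i)).Finite) (L : ℝ) :
    L ^ k * gc μ μ F = ∑ t ∈ Finset.univ.powerset,
      (L ^ t.card * ∫ U, ∏ i ∈ t, (gf (F i) U - ∫ V, gf (F i) V ∂ν) ∂μ) *
        ∏ i ∈ Finset.univ \ t, -(L ^ 1 * gc μ ν fun _ : Fin 1 => F i) := by
  have hc := fun i => cont_gf (hF i)
  have e : ∀ i U, gf (F i) U - ∫ V, gf (F i) V ∂μ =
      (gf (F i) U - ∫ V, gf (F i) V ∂ν) + -gc μ ν fun _ : Fin 1 => F i := fun i U => by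
    simp [gc, integral_sub (Weak.cint μ (hc i)) (integrable_const _)]
  simp only [gc.eq_1 μ μ, e, Finset.prod_add]
  rw [integral_finsetSum _ fun t _ => Weak.cint μ (by fun_prop), Finset.mul_sum]
  refine Finset.sum_congr rfl fun t _ => ?_
  have : L ^ k = L ^ t.card * L ^ (Finset.univ \ t).card := by
    rw [← pow_add, add_comm, Finset.card_sdiff_add_card_eq_card t.subset_univ]
    simp
  simp only [integral_mul_const, pow_one, ← mul_neg, Finset.prod_mul_distrib, Finset.prod_const]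
  rw [this]
  ring

theorem sho_recentre {ι : Type} {Φ : Filter ι} {K : ℕ} {a : ι → ℝ} {μ ν : ι → Measure Fd}
    (h0 : ∀ᶠ p in Φ, 0 < a p ∧ IsProbabilityMeasure (μ p)) (hS : Sho Φ μ ν a K) :
    Sho Φ μ μ a K := by
  rw [sho_iff] at hS ⊢
  intro k hk f hf
  obtain ⟨D, -, hD, -⟩ := hf.data
  have h1 : ∀ t : Finset (Fin k), ∃ c, (t = Finset.univ → c = (48 / (11 * GD.b0)) ^ k * fv f) ∧
      Tendsto (fun q : ℝ × ι => log q.1⁻¹ ^ t.card * ∫ U, ∏ i ∈ t, (gf (sc (a q.2) q.1 (f i)) U -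
        ∫ V, gf (sc (a q.2) q.1 (f i)) V ∂ν q.2) ∂μ q.2) ((𝓝[>] 0).curry Φ) (𝓝 c) := fun t => by
    by_cases ht : t = Finset.univ
    · refine ⟨_, fun _ => rfl, ?_⟩
      simpa only [ht, Finset.card_univ, Fintype.card_fin, gc] using hS k hk f hf
    refine ⟨_, fun e => absurd e ht, (hS t.card ((t.card_le_univ.trans_eq (by simp)).trans hk)
      (fun j => f (t.equivFin.symm j)) ⟨fun j => hf.1 _, fun i j hij => hf.2
        (Subtype.val_injective.ne (t.equivFin.symm.injective.ne hij))⟩).congr fun q => ?_⟩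
    refine congrArg _ ((gc_equiv t.equivFin.symm _ _ fun i : t => sc (a q.2) q.1 (f i)).trans ?_)
    exact congrArg _ (funext fun U => t.prod_coe_sort fun i => gf (sc (a q.2) q.1 (f i)) U -
      ∫ V, gf (sc (a q.2) q.1 (f i)) V ∂ν q.2)
  choose c hc1 hc using h1
  have h2 := tendsto_finsetSum (Finset.univ : Finset (Fin k)).powerset fun t _ =>
    (hc t).mul (tendsto_finsetProd (Finset.univ \ t) fun i _ =>
      (hS 1 (i.pos.trans_le hk) (fun _ => f i) ⟨fun _ => hf.1 i, Subsingleton.pairwise⟩).neg)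
  rw [Finset.sum_eq_single Finset.univ (fun t _ ht => ?_) (by simp)] at h2
  · rw [Finset.sdiff_self, Finset.prod_empty, mul_one, hc1 _ rfl] at h2
    refine h2.congr' (eventually_mem_nhdsWithin.mono fun d hd => h0.mono fun p hp => ?_)
    have := hp.2
    exact (gc_expand _ _ (fun i => (in_sc hd (hD i)).fin hp.1) _).symm
  · obtain ⟨i, hi⟩ := not_forall.1 fun e => ht (Finset.eq_univ_of_forall e)
    rw [Finset.prod_eq_zero (i := i) (by simp [hi]) (by simp [fv_one]), mul_zero]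

variable (h : Measure SU2) [h.IsHaarMeasure] [IsProbabilityMeasure h]

theorem sho_cube {ι : Type} {Φ : Filter ι} {m K : ℕ} {n : ι → ℕ} [∀ p, NeZero (n p)] {a b : ι → ℝ}
    (hm : 0 < m) (hn : ∀ᶠ p in Φ, 0 < a p ∧ a p * n p = m) (hS : YM7.Short h Φ n a b K) :
    Sho Φ (fun p => cube h (b p) (n p)) (fun p => cube h (b p) (n p)) a K := by
  intro k hk f hf η hη
  obtain ⟨D, -, hD, -⟩ := hf.data
  filter_upwards [hS k hk f hf η hη, small (2 * D) (Nat.cast_pos.2 hm)] with d h1 h2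
  filter_upwards [h1, hn] with p h3 h4
  have h5 := fun i => in_sc (a := a p) h2.1 (hD i)
  have h6 := gc_cube h (b p) (n p) (fun i => (h5 i).fin h4.1) fun i => gf_ext 0 fun x hx l => by
    have h7 := h5 i x hx l
    rw [abs_mul, abs_of_pos h4.1] at h7
    have : 2 * |(x l : ℝ)| < n p := lt_of_mul_lt_mul_left (by nlinarith [h2.2, h4.2]) h4.1.le
    rw [Pi.zero_apply, sub_zero]
    exact_mod_cast this
  rw [YM7.corr_eq, YM7.gcorr_eq] at h3
  refine le_of_eq_of_le ?_ h3
  congr 3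
  refine h6.trans ?_
  simp only [Pi.zero_apply, Int.cast_zero, sub_zero, zero_add]
  rfl

theorem Gs.one_slab {b t : ℝ} {n κ k : ℕ} {μ : Measure Fd} (S : St9 h b n μ t) (hn : n = 2 * κ + 3)
    {F : Fin k → Sr} (hF : ∀ i, (support (F i)).Finite)
    (hT : ∀ i x, F i x ≠ 0 → 0 ≤ x 0 ∧ x 0 < κ) (L c : ℝ) :
    (L * gc μ (cube h b n) F - c) ^ 2 ≤
      t * (L * L * gc (cube h b n) (cube h b n) (Fin.append (fun i => rF (F i)) F) -
        2 * c * (L * gc (cube h b n) (cube h b n) F) + c ^ 2) := by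
  have := S.prob
  have : IsProbabilityMeasure (cube h b n) := by unfold cube; infer_instance
  have hr : MeasurePreserving rfl0 (cube h b n) (cube h b n) := mp_rfl h b fun _ => by omega
  have hc := fun i => cont_gf (hF i)
  let P : Fd → ℝ := fun U => ∏ i, (gf (F i) U - ∫ V, gf (F i) V ∂cube h b n)
  have hP : Continuous P := by fun_prop
  have hH : Continuous fun U => L * P U - c := by fun_prop
  have h1 := S.slab κ hn 0 (fun _ U => L * P U - c) _ 0 (fun _ => Y6.bm_of_cont hH)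
    (fun _ U V e => by
      simp only [P, fun i => dep_gf (a := 0) (b := κ + 1)
        (fun x hx => ⟨(hT i x hx).1, by linarith [(hT i x hx).2]⟩) e]) fun _ => le_rfl
  simp only [zero_add, Finset.prod_range_one] at h1
  rw [sht, int_mp (S.shf _) hH, integral_sub (Weak.cint _ (by fun_prop)) (integrable_const _),
    integral_const_mul] at h1
  have h2 : gc (cube h b n) (cube h b n) (Fin.append (fun i => rF (F i)) F) =
      ∫ U, P (rfl0 U) * P U ∂cube h b n := by
    simp only [gc, Fin.prod_univ_add, Fin.append_left, Fin.append_right, gf_rF (hF _),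
      int_mp hr (hc _), P]
  have h3 : ∀ U, (L * P (rfl0 U) - c) * (L * P U - c) =
      L * L * (P (rfl0 U) * P U) - c * L * P (rfl0 U) - c * L * P U + c ^ 2 := fun U => by ring
  simp only [h3] at h1
  rw [integral_add (Weak.cint _ (by fun_prop)) (integrable_const _),
    integral_sub (Weak.cint _ (by fun_prop)) (Weak.cint _ (by fun_prop)),
    integral_sub (Weak.cint _ (by fun_prop)) (Weak.cint _ (by fun_prop)),
    integral_const_mul, integral_const_mul, integral_const_mul, int_mp hr hP, ← h2] at h1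
  simp only [integral_const, probReal_univ, one_smul] at h1
  refine le_of_le_of_eq h1 ?_
  unfold gc
  ring

theorem sho_mix {ι : Type} {Φ : Filter ι} {m K : ℕ} {n : ι → ℕ} {a b τ : ι → ℝ}
    {μ : ι → Measure Fd} {t : ℝ} (hC : Cyl h Φ m n a b τ μ t)
    (hB : Bd (Lt m) Φ (fun p => cube h (b p) (n p)) (fun p => cube h (b p) (n p)) a τ)
    (hS : Sho Φ (fun p => cube h (b p) (n p)) (fun p => cube h (b p) (n p)) a (2 * K)) :
    Sho Φ μ (fun p => cube h (b p) (n p)) a K := by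
  rw [sho_iff] at hS ⊢
  intro k hk f hf
  obtain ⟨D, -, hD, -⟩ := hf.data
  refine Metric.tendsto_nhds.2 fun ε hε => ?_
  have hm : (0 : ℝ) < m := Nat.cast_pos.2 hC.pos
  set c := (48 / (11 * GD.b0) : ℝ) ^ k * fv f with hc
  have h1 := ((((fv_clus hf).const_mul ((48 / (11 * GD.b0)) ^ (k + k))).sub_const (2 * c * c)).add_const
    (c ^ 2)).const_mul t
  obtain ⟨T, hT, h2⟩ := ((eventually_gt_atTop (D : ℝ)).and (h1.eventually_lt_const
    (show _ < ε ^ 2 by rw [hc]; ring_nf; positivity))).exists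
  set g := YM7.sh (EuclideanSpace.single 0 T) f with hg
  have gp : YM7.Pos g := ⟨by
    rw [hg]
    unfold YM7.sh
    simpa only [sub_eq_add_neg] using hf.add _, fun i y hy => by
    have := (PiLp.norm_apply_le _ 0).trans (hD i _ (YM7.tsupport_comp
      (θ := fun y => y - EuclideanSpace.single 0 T) (by fun_prop) hy))
    simp only [PiLp.sub_apply, PiLp.single_apply, if_true, norm_eq_abs] at this
    linarith [(abs_le.1 this).1]⟩
  obtain ⟨D', -, hD', -⟩ := (gp.rp gp).data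
  let s : ℝ → ι → Z4 := fun d p => Pi.single 0 ⌊T * d / a p⌋
  let F : ℝ → ι → Fin k → Sr := fun d p i => tF (s d p) (sc (a p) d (f i))
  have ha : ∀ᶠ p in Φ, 0 < a p ∧ a p * 6 < m := hC.fm.a0.eventually (small 6 hm)
  have h3 : Tendsto (fun q : ℝ × ι => log q.1⁻¹ ^ (k + k) *
      (gc (cube h (b q.2) (n q.2)) (cube h (b q.2) (n q.2))
        (Fin.append (fun i => rF (F q.1 q.2 i)) (F q.1 q.2)) -
      gc (cube h (b q.2) (n q.2)) (cube h (b q.2) (n q.2)) fun i => sc (a q.2) q.1 (YM7.rp g g i)))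
      ((𝓝[>] 0).curry Φ) (𝓝 0) := by
    refine Tendsto.curry (f := fun d p => log d⁻¹ ^ (k + k) * (gc (cube h (b p) (n p))
      (cube h (b p) (n p)) (Fin.append (fun i => rF (F d p i)) (F d p)) -
      gc (cube h (b p) (n p)) (cube h (b p) (n p)) fun i => sc (a p) d (YM7.rp g g i)))
      ((small (2 * D') hm).mono fun d hd => ?_)
    have hp : ∀ p, IsFiniteMeasure (cube h (b p) (n p)) := fun p => by unfold cube; infer_instance
    have := (hB.near hC.fm (.of_forall fun p => ⟨hp p, hp p⟩) (closed_Lt m)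
      (adL_sc (gp.rp gp) hd.1 hD' (by linarith [hd.2]))
      (F := fun p => Fin.append (fun i => rF (F d p i)) (F d p))
      (ha.mono fun p hp i => ?_)).const_mul (log d⁻¹ ^ (k + k))
    · rwa [mul_zero] at this
    have hs : ∀ l, |(EuclideanSpace.single 0 (T * d) : R4) l - a p * s d p l| ≤ 4 * a p := by
      intro l
      by_cases hl : l = 0
      · have e1 := (le_div_iff₀ hp.1).1 (Int.floor_le (T * d / a p))
        have e2 := (div_lt_iff₀ hp.1).1 (Int.lt_floor_add_one (T * d / a p))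
        simp only [hl, PiLp.single_apply, if_true, s, Pi.single_eq_same]
        rw [abs_le]
        constructor <;> nlinarith [hp.1]
      · simp [s, hl, hp.1.le]
    have e : ∀ j y, g j (d⁻¹ • y) = f j (d⁻¹ • (y - EuclideanSpace.single 0 (T * d))) := by
      intro j y
      refine congrArg (f j) ?_
      ext l
      by_cases hl : l = 0 <;> simp [hl, mul_sub, mul_left_comm d⁻¹, hd.1.ne']
    refine Fin.addCases (fun j => ?_) (fun j => ?_) i
    · have e' : (fun y => YM7.theta (g j) (d⁻¹ • y)) = theta fun y =>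
          f j (d⁻¹ • (y - EuclideanSpace.single 0 (T * d))) := funext fun y => by
        refine Eq.trans (congrArg (g j) ?_) (e j (YM7.th y))
        ext l
        by_cases hl : l = 0 <;> simp [hl, YM7.th]
      simp only [YM7.rp, Fin.append_left, e']
      exact near_rF hp.1 (fun y => f j (d⁻¹ • y)) hs
    · simp only [YM7.rp, Fin.append_right, e]
      exact near_tF hp.1 (fun y => f j (d⁻¹ • y)) fun l => (hs l).trans (by linarith [hp.1])
  have h4 := ((((h3.add (hS (k + k) (by omega) _ (gp.rp gp))).sub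
    ((hS k (by omega) f hf).const_mul (2 * c))).add_const (c ^ 2)).const_mul t).eventually_lt_const
    (by rwa [zero_add])
  refine eventually_curry_iff.2 ?_
  filter_upwards [eventually_curry_iff.1 h4, small (4 * (T + D)) hm] with d h5 hd
  filter_upwards [h5, ha, hC.st] with p h6 hp ⟨e1, ⟨j, e2⟩, _, S⟩
  have hj : (0 : ℝ) < j := by
    rw [e2] at e1
    push_cast at e1
    nlinarith [hp.1, hp.2]
  obtain ⟨κ, rfl⟩ := Nat.exists_eq_succ_of_ne_zero (Nat.cast_pos.1 hj).ne'
  have hI := fun i => in_sc (a := a p) hd.1 (hD i)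
  have hF := fun i => (hI i).fin hp.1
  have h7 := one_slab h S (κ := κ) (by omega) (F := F d p) (fun i => fin_tF (hF i) _)
    (fun i x hx => ?_) (log d⁻¹ ^ k) c
  · have hv : MeasurePreserving (shf (s d p)) (cube h (b p) (n p)) (cube h (b p) (n p)) :=
      mp_shf h _ (fun _ => by omega) _
    rw [gc_mp (S.shf _) hv hF fun i => gf_tF _ _, gc_mp hv hv hF fun i => gf_tF _ _,
      ← pow_add] at h7
    exact abs_lt_of_sq_lt_sq (h7.trans_lt (lt_of_eq_of_lt (by ring) h6)) hε.le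
  have e3 := abs_le.1 (hI i _ hx 0)
  have e4 := (le_div_iff₀ hp.1).1 (Int.floor_le (T * d / a p))
  have e5 := (div_lt_iff₀ hp.1).1 (Int.lt_floor_add_one (T * d / a p))
  simp only [s, Pi.sub_apply, Pi.single_eq_same, Int.cast_sub] at e3
  rw [e2] at e1
  push_cast at e1
  have e6 : (-1 : ℝ) < x 0 := lt_of_mul_lt_mul_left (by nlinarith [e3.1, hd.1]) hp.1.le
  have e7 : (x 0 : ℝ) < κ := lt_of_mul_lt_mul_left (by nlinarith [e3.2, hd.2, hp.2]) hp.1.le
  exact ⟨by exact_mod_cast Int.add_one_le_iff.2 (show -1 < x 0 by exact_mod_cast e6),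
    by exact_mod_cast e7⟩

end Pool.Agent.Lib.MP_7f377f_mp.YM9
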