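import Mathlib

/-! One parameter groups of orthogonal matrices. -/

noncomputable section

namespace Pool.Agent.Lib.MP_7f377f_mp.GA

open Matrix NormedSpace

variable {ι : Type} [Fintype ι] [DecidableEq ι] {E A B N W : Matrix ι ι ℝ} {ω : ℝ}

theorem exp_add_smul (E : Matrix ι ι ℝ) (s u : ℝ) :
    exp ((s + u) • E) = exp (s • E) * exp (u • E) := by
  rw [add_smul]
  exact Matrix.exp_add_of_commute _ _ (((Commute.refl E).smul_left s).smul_right u)

theorem exp_mul_neg (E : Matrix ι ι ℝ) (s : ℝ) : exp (s • E) * exp ((-s) • E) = 1 := by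
  rw [← exp_add_smul, add_neg_cancel, zero_smul, exp_zero]

theorem exp_tr (hE : Eᵀ = -E) (s : ℝ) : (exp (s • E))ᵀ = exp ((-s) • E) := by
  rw [← Matrix.exp_transpose, transpose_smul, hE, smul_neg, neg_smul]

open scoped Matrix.Norms.Operator in
theorem comm_exp (h : Commute A E) (s : ℝ) : Commute A (exp (s • E)) :=
  (h.smul_right s).exp_right

open scoped Matrix.Norms.Operator in
/-- rotation of a pair of eigenvectors -/
theorem exp_rot (h1 : E * A - A * E = ω • B) (h2 : E * B - B * E = -ω • A) (s : ℝ) :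
    exp (s • E) * A * exp ((-s) • E) = Real.cos (ω * s) • A + Real.sin (ω * s) • B := by
  have d : ∀ u : ℝ, HasDerivAt (fun u : ℝ => exp (u • (-E)) *
      (Real.cos (ω * u) • A + Real.sin (ω * u) • B) * exp (u • E)) 0 u := fun u => by
    have c := ((hasDerivAt_id u).const_mul ω).cos.smul_const A
    have c' := ((hasDerivAt_id u).const_mul ω).sin.smul_const B
    have := ((hasDerivAt_exp_smul_const (𝕂 := ℝ) (-E) u).mul (c.add c')).mul
      (hasDerivAt_exp_smul_const' (𝕂 := ℝ) E u)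
    refine this.congr_deriv ?_
    have e1 : A * E = E * A - ω • B := by rw [← h1]; abel
    have e2 : B * E = E * B + ω • A := by rw [← sub_eq_iff_eq_add', ← neg_sub, h2]; simp
    simp only [id, mul_one, Pi.add_apply, Pi.mul_apply, mul_add, add_mul, mul_assoc, mul_neg,
      neg_mul, smul_mul_assoc, mul_smul_comm]
    simp only [← mul_assoc A E, ← mul_assoc B E, e1, e2, sub_mul, add_mul, mul_sub, mul_add,
      smul_mul_assoc, mul_smul_comm, mul_assoc]
    module
  have e := is_const_of_deriv_eq_zero (fun u => (d u).differentiableAt) (fun u => (d u).deriv) s 0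
  simp only [zero_smul, exp_zero, mul_zero, Real.cos_zero, Real.sin_zero, one_smul, add_zero,
    mul_one, one_mul] at e
  conv_lhs => rw [← e]
  rw [smul_neg, ← neg_smul, ← mul_assoc, ← mul_assoc, exp_mul_neg, one_mul, mul_assoc,
    exp_mul_neg, mul_one]

/-- charged directions are orthogonal to the one parameter group -/
theorem tr_charged (hE : Eᵀ = -E) (h : E * B - B * E = ω • A) (h0 : ω ≠ 0) (s : ℝ) :
    trace (Aᵀ * exp (s • E)) = 0 := by
  have c := (comm_exp (Commute.refl E) s).eq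
  refine (mul_eq_zero.1 ?_).resolve_left h0
  rw [← smul_eq_mul, ← trace_smul, ← smul_mul_assoc, ← transpose_smul, ← h, transpose_sub,
    transpose_mul, transpose_mul, hE, sub_mul, trace_sub, mul_assoc, mul_assoc, neg_mul, neg_mul,
    c, trace_neg, trace_mul_comm E, mul_neg, trace_neg, mul_assoc, sub_self]

/-- neutral directions which are fixed by the reflection -/
theorem tr_neutral (hE : Eᵀ = -E) (hN : Nᵀ = -N) (hW : Wᵀ * W = 1) (h1 : W * N * Wᵀ = N)
    (h2 : W * E * Wᵀ = -E) (s : ℝ) : trace (Nᵀ * exp (s • E)) = 0 := by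
  have hW' : W * Wᵀ = 1 := mul_eq_one_comm.1 hW
  have u : IsUnit W := ⟨⟨W, Wᵀ, hW', hW⟩, rfl⟩
  have i : W⁻¹ = Wᵀ := inv_eq_left_inv hW
  have a : W * exp (s • E) * Wᵀ = (exp (s • E))ᵀ := by
    rw [exp_tr hE, ← i, ← Matrix.exp_conj _ _ u, i, mul_smul_comm, smul_mul_assoc, h2, smul_neg,
      neg_smul]
  have b : trace (N * (exp (s • E))ᵀ) = trace (N * exp (s • E)) := by
    rw [← a]
    nth_rewrite 1 [← h1]
    simp only [mul_assoc]
    rw [← mul_assoc Wᵀ, hW, one_mul, trace_mul_comm, mul_assoc, mul_assoc, hW, mul_one]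
  rw [← trace_transpose, transpose_mul, transpose_transpose, trace_mul_comm, hN, neg_mul,
    trace_neg] at b
  rw [hN, neg_mul, trace_neg]
  linarith

theorem mvt_pow {F : Type} [NormedAddCommGroup F] [NormedSpace ℝ F] {f f' : ℝ → F} {K : ℝ} {k : ℕ}
    (K0 : 0 ≤ K) (h : ∀ s, HasDerivAt f (f' s) s) (h0 : f 0 = 0) (hb : ∀ s, ‖f' s‖ ≤ K * |s| ^ k)
    (s : ℝ) : ‖f s‖ ≤ K * |s| ^ (k + 1) := by
  have := (convex_closedBall (0 : ℝ) |s|).norm_image_sub_le_of_norm_hasDerivWithin_le
    (C := K * |s| ^ k) (fun u _ => (h u).hasDerivWithinAt) (fun u hu => (hb u).trans (by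
      rw [mem_closedBall_zero_iff, Real.norm_eq_abs] at hu
      gcongr)) (Metric.mem_closedBall_self (abs_nonneg s)) (y := s) (by simp)
  simpa [h0, pow_succ, mul_assoc] using this

section fro
open scoped Matrix.Norms.Frobenius

theorem fro_sq (A : Matrix ι ι ℝ) : ‖A‖ ^ 2 = trace (Aᵀ * A) := by
  rw [frobenius_norm_def, ← Real.sqrt_eq_rpow, Real.sq_sqrt (by positivity), Finset.sum_comm]
  simp [trace, mul_apply, sq]

theorem fro_orth (hW : Wᵀ * W = 1) (A : Matrix ι ι ℝ) : ‖W * A‖ = ‖A‖ := by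
  rw [← sq_eq_sq₀ (norm_nonneg _) (norm_nonneg _), fro_sq, fro_sq, transpose_mul, mul_assoc,
    ← mul_assoc Wᵀ, hW, one_mul]

theorem fro_cs (A B : Matrix ι ι ℝ) : |trace (Aᵀ * B)| ≤ ‖A‖ * ‖B‖ := by
  refine abs_le_of_sq_le_sq' ?_ (by positivity) |> abs_le.2
  rw [mul_pow, fro_sq, fro_sq]
  simpa [trace, mul_apply, sq, Fintype.sum_prod_type] using Finset.sum_mul_sq_le_sq_mul_sq
    Finset.univ (fun p : ι × ι => A p.2 p.1) fun p => B p.2 p.1

theorem exp_orth (hE : Eᵀ = -E) (s : ℝ) : (exp (s • E))ᵀ * exp (s • E) = 1 := by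
  simpa [exp_tr hE] using exp_mul_neg E (-s)

theorem fro_exp (hE : Eᵀ = -E) (s : ℝ) : ‖exp (s • E) - 1‖ ≤ ‖E‖ * |s| := by
  have := mvt_pow (k := 0) (norm_nonneg E)
    (fun u => (hasDerivAt_exp_smul_const (𝕂 := ℝ) E u).sub_const 1) (by simp)
    (fun u => (fro_orth (exp_orth hE u) E).trans_le (by simp)) s
  rw [zero_add, pow_one] at this
  exact this

theorem tr_exp (hE : Eᵀ = -E) (s : ℝ) :
    |trace (Eᵀ * exp (s • E)) - s * trace (Eᵀ * E)| ≤ ‖E‖ ^ 4 * |s| ^ 3 := by
  have d : ∀ (A : Matrix ι ι ℝ) u, HasDerivAt (fun u : ℝ => trace (Eᵀ * (exp (u • E) * A)))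
      (trace (Eᵀ * (exp (u • E) * (E * A)))) u := fun A u => by
    have := (traceLinearMap ι ℝ ℝ).toContinuousLinearMap.hasFDerivAt.comp_hasDerivAt u
      (((hasDerivAt_exp_smul_const (𝕂 := ℝ) E u).mul_const A).const_mul Eᵀ)
    rw [mul_assoc] at this
    exact this
  have o : ∀ A : Matrix ι ι ℝ, Aᵀ = -A → trace A = 0 := fun A h => by
    have := trace_transpose A
    rw [h, trace_neg] at this
    linarith
  have a3 := mvt_pow (k := 0) (K := ‖E‖ ^ 4) (by positivity) (d (E * E))
    (o _ (by simp [hE, mul_assoc])) fun u => by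
      have := fro_cs (E * E) (exp (u • E) * (E * E))
      rw [fro_orth (exp_orth hE u), transpose_mul, mul_assoc, trace_mul_comm, hE, mul_neg,
        trace_neg, abs_neg] at this
      simp only [mul_assoc, hE, pow_zero, mul_one, Real.norm_eq_abs] at this ⊢
      exact this.trans ((mul_le_mul (norm_mul_le _ _) (norm_mul_le _ _) (norm_nonneg _)
        (by positivity)).trans_eq (by ring))
  have a2 := mvt_pow (by positivity) (fun u => (d E u).sub_const (trace (Eᵀ * E))) (by simp) a3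
  simpa using mvt_pow (by positivity) (fun u => (d 1 u).sub ((hasDerivAt_id u).mul_const
    (trace (Eᵀ * E)))) (by simpa using o _ hE) (by simpa using a2) s

end fro

end Pool.Agent.Lib.MP_7f377f_mp.GA
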