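import Pool.Agent.Lib.MP_7f377f_mp.G.RGAlg

/-! The unitised matrix algebra: charts, adjoint action, real elements. -/

noncomputable section

set_option linter.unusedSectionVars false
variable [Pool.Agent.Lib.MP_7f377f_mp.GD]

namespace Pool.Agent.Lib.MP_7f377f_mp.RG

open Finset Matrix
open scoped Matrix.Norms.Frobenius

namespace Un

variable {K : Type} [RCLike K]

instance {S : Type} [Star S] [TrivialStar S] [SMul S K] : StarModule S (Un K) :=
  ⟨fun c p => by rw [star_trivial c]; rfl⟩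

/-- the matrix represented by an element of the unitisation -/
def mat : Un K →+* Matrix (Fin GD.n) (Fin GD.n) K where
  toFun q := q.re • 1 + q.m
  map_one' := by simp
  map_mul' p q := by
    simp only [re_mul, m_mul, mul_add, add_mul, smul_mul_assoc, mul_smul_comm, one_mul, mul_one]
    module
  map_zero' := by simp
  map_add' p q := by simp only [re_add, m_add, add_smul]; abel

/-- the scalar part -/
def reH : Un K →+* K where
  toFun := re
  map_one' := rfl
  map_mul' _ _ := rfl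
  map_zero' := rfl
  map_add' _ _ := rfl

theorem mat_def (q : Un K) : mat q = q.re • 1 + q.m := rfl
theorem mat_star (q : Un K) : mat (star q) = (mat q)ᵀ := by simp [mat_def]
theorem mat_of_re {q : Un K} (h : q.re = 0) : mat q = q.m := by simp [mat_def, h]
theorem ext' {p q : Un K} (h1 : p.re = q.re) (h2 : mat p = mat q) : p = q :=
  Un.ext h1 (by rwa [mat_def, mat_def, h1, add_right_inj] at h2)
theorem m_mul_left (g : Un K) {q : Un K} (h : q.re = 0) : (g * q).m = mat g * q.m := by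
  rw [← mat_of_re (by simp [h]), map_mul, mat_of_re h]
theorem m_mul_right (g : Un K) {q : Un K} (h : q.re = 0) : (q * g).m = q.m * mat g := by
  rw [← mat_of_re (by simp [h]), map_mul, mat_of_re h]
theorem m_conj (g h : Un K) {q : Un K} (h0 : q.re = 0) : (g * q * h).m = mat g * q.m * mat h := by
  rw [m_mul_right _ (by simp [h0]), m_mul_left _ h0]

theorem star_mul_of {h : Un K} (hh : h * star h = 1) : star h * h = 1 := by
  refine ext' (by simpa using congrArg re hh) ?_
  have := congrArg mat hh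
  rw [map_mul, map_one] at this ⊢
  exact mul_eq_one_comm.1 this

theorem norm_re (q : Un K) : ‖q.re‖ ≤ ‖q‖ :=
  le_add_of_nonneg_right (mul_nonneg GD.t_pos.le (norm_nonneg _))
theorem norm_m (q : Un K) : GD.t * ‖q.m‖ ≤ ‖q‖ := le_add_of_nonneg_left (norm_nonneg _)
theorem norm_of_re {q : Un K} (h : q.re = 0) : ‖q‖ = GD.t * ‖q.m‖ := by
  rw [norm_def, h, norm_zero, zero_add]

theorem norm_mul_re0 {p q : Un K} (hp : p.re = 0) (hq : q.re = 0) : ‖p * q‖ ≤ ‖p‖ * ‖q‖ / GD.t := by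
  rw [norm_of_re (by simp [hp]), norm_of_re hp, norm_of_re hq, m_mul_left _ hq, mat_of_re hp,
    le_div_iff₀ GD.t_pos]
  nlinarith [mul_le_mul_of_nonneg_left (norm_mul_le p.m q.m) (mul_self_nonneg GD.t)]

theorem fro_sq (X : Matrix (Fin GD.n) (Fin GD.n) K) : ‖X‖ ^ 2 = ∑ i, ∑ j, ‖X i j‖ ^ 2 := by
  rw [frobenius_norm_def, ← Real.sqrt_eq_rpow, Real.sq_sqrt (by positivity)]
  simp only [Real.rpow_two]

theorem fro_tr (X : Matrix (Fin GD.n) (Fin GD.n) K) : ((‖X‖ ^ 2 : ℝ) : K) = trace (Xᴴ * X) := by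
  rw [fro_sq, sum_comm]
  simp [trace, mul_apply, RCLike.conj_mul]

theorem fro_left {A : Matrix (Fin GD.n) (Fin GD.n) K} (h : Aᴴ * A = 1)
    (X : Matrix (Fin GD.n) (Fin GD.n) K) : ‖A * X‖ = ‖X‖ := by
  refine (pow_left_inj₀ (norm_nonneg _) (norm_nonneg _) two_ne_zero).1 (RCLike.ofReal_injective (K := K) ?_)
  rw [fro_tr, fro_tr, conjTranspose_mul, mul_assoc, ← mul_assoc Aᴴ, h, one_mul]

theorem fro_right {A : Matrix (Fin GD.n) (Fin GD.n) K} (h : Aᴴ * A = 1)
    (X : Matrix (Fin GD.n) (Fin GD.n) K) : ‖X * A‖ = ‖X‖ := by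
  rw [← frobenius_norm_conjTranspose, conjTranspose_mul,
    fro_left (by rw [conjTranspose_conjTranspose]; exact mul_eq_one_comm.1 h),
    frobenius_norm_conjTranspose]

theorem tr_le (X Y : Matrix (Fin GD.n) (Fin GD.n) K) : ‖trace (Xᵀ * Y)‖ ≤ ‖X‖ * ‖Y‖ := by
  have h := sum_mul_sq_le_sq_mul_sq (univ : Finset (Fin GD.n × Fin GD.n)) (fun p => ‖X p.1 p.2‖)
    fun p => ‖Y p.1 p.2‖
  simp only [Fintype.sum_prod_type, ← fro_sq, ← mul_pow] at h
  refine le_trans ?_ (abs_le_of_sq_le_sq' h (by positivity)).2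
  rw [sum_comm]
  refine (norm_sum_le _ _).trans (sum_le_sum fun i _ => ?_)
  simp only [diag_apply, mul_apply, transpose_apply]
  exact (norm_sum_le _ _).trans (by simp)

end Un

/-- unit gauge transformations -/
structure Uni (h : Hc) : Prop where
  mul_star : h * star h = 1
  io_adq : ∀ b, io (adq h b) = h * io b * star h

theorem io_adq {h : Hc} (hh : Uni h) (b : C3) : io (adq h b) = h * io b * star h := hh.io_adq b

theorem Uni.star_mul {h : Hc} (hh : Uni h) : star h * h = 1 := Un.star_mul_of hh.mul_star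

@[simp] theorem io_re (b : C3) : (io b).re = 0 := rfl

/-- the basis of the complexified Lie algebra -/
def eC (k : Fin GD.d) : Matrix (Fin GD.n) (Fin GD.n) ℂ := (GD.e k).map (↑)

theorem io_m (b : C3) : (io b).m = ∑ k, b k • eC k := rfl
theorem co_apply (q : Hc) (k : Fin GD.d) : co q k = (GD.t : ℂ) ^ 2 * trace ((eC k)ᵀ * q.m) := rfl

theorem tr_map (X Y : Matrix (Fin GD.n) (Fin GD.n) ℝ) :
    trace ((X.map ((↑) : ℝ → ℂ))ᵀ * Y.map (↑)) = ((trace (Xᵀ * Y) : ℝ) : ℂ) := by
  simp [trace, mul_apply]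

theorem eC_on (k j : Fin GD.d) :
    (GD.t : ℂ) ^ 2 * trace ((eC k)ᵀ * eC j) = if k = j then 1 else 0 := by
  have := congrArg ((↑) : ℝ → ℂ) (GD.on k j)
  rw [eC, eC, tr_map]
  split_ifs at this ⊢ <;> exact_mod_cast this

theorem eC_anti (k : Fin GD.d) : (eC k)ᵀ = -eC k := by
  rw [eC, ← transpose_map, GD.anti]
  ext; simp

/-- `io` as a linear map -/
def ioL : C3 →L[ℂ] Hc := LinearMap.toContinuousLinearMap
  { toFun := io
    map_add' := fun a b => Un.ext (by simp) (by simp [io_m, add_smul, sum_add_distrib])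
    map_smul' := fun a b => Un.ext (by simp) (by simp [io_m, smul_sum, smul_smul]) }

/-- `co` as a linear map -/
def coL : Hc →L[ℂ] C3 := LinearMap.toContinuousLinearMap
  { toFun := co
    map_add' := fun a b => funext fun k => by simp [co_apply, mul_add]
    map_smul' := fun a b => funext fun k => by simp [co_apply, mul_left_comm] }

/-- the scalar part as a linear map -/
def reL : Hc →L[ℂ] ℂ := LinearMap.toContinuousLinearMap
  { toFun := fun q => q.re
    map_add' := fun a b => by simp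
    map_smul' := fun a b => by simp }

/-- conjugation as a linear map -/
def stL : Hc →L[ℂ] Hc := LinearMap.toContinuousLinearMap
  { toFun := star
    map_add' := star_add
    map_smul' := fun a b => Un.star_smul a b }

theorem io_add (a b : C3) : io (a + b) = io a + io b := ioL.map_add a b
theorem io_sub (a b : C3) : io (a - b) = io a - io b := ioL.map_sub a b
theorem io_neg (a : C3) : io (-a) = -io a := ioL.map_neg a
theorem io_smul (c : ℂ) (a : C3) : io (c • a) = c • io a := ioL.map_smul c a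
@[simp] theorem io_zero : io 0 = 0 := ioL.map_zero
theorem co_add (a b : Hc) : co (a + b) = co a + co b := coL.map_add a b
theorem co_sub (a b : Hc) : co (a - b) = co a - co b := coL.map_sub a b
theorem co_neg (a : Hc) : co (-a) = -co a := coL.map_neg a
theorem co_smul (c : ℂ) (a : Hc) : co (c • a) = c • co a := coL.map_smul c a
@[simp] theorem co_io (b : C3) : co (io b) = b := funext fun k => by
  simp only [co_apply, io_m, Matrix.mul_sum, trace_sum, Finset.mul_sum, Matrix.mul_smul, trace_smul,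
    smul_eq_mul, mul_left_comm _ (b _), eC_on]
  simp
theorem co_of_m {q : Hc} (h : q.m = 0) : co q = 0 := funext fun k => by simp [co_apply, h]
@[simp] theorem co_one : co 1 = 0 := co_of_m rfl
@[simp] theorem co_zero : co 0 = 0 := co_of_m rfl
@[simp] theorem co_coe (c : ℂ) : co (c : Hc) = 0 := co_of_m rfl
theorem io_inj {a b : C3} (h : io a = io b) : a = b := by rw [← co_io a, h, co_io]
theorem star_io (b : C3) : star (io b) = -io b :=
  Un.ext (by simp) (by simp [io_m, transpose_sum, eC_anti])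
theorem co_star (q : Hc) : co (star q) = -co q := funext fun k => by
  rw [Pi.neg_apply, co_apply, co_apply, Un.m_star, ← trace_transpose, transpose_mul,
    transpose_transpose, transpose_transpose, trace_mul_comm, eC_anti, neg_mul, trace_neg, mul_neg,
    neg_neg]
theorem co_symm {q : Hc} (h : star q = q) : co q = 0 := by
  have := co_star q
  rw [h, eq_neg_iff_add_eq_zero, ← two_smul ℂ] at this
  exact (smul_eq_zero.1 this).resolve_left two_ne_zero

theorem dot_comm (a b : C3) : dot a b = dot b a := by simp only [dot, mul_comm]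
theorem dot_add (a b c : C3) : dot a (b + c) = dot a b + dot a c := by
  simp [dot, mul_add, sum_add_distrib]
theorem add_dot (a b c : C3) : dot (a + b) c = dot a c + dot b c := by
  simp [dot, add_mul, sum_add_distrib]
theorem dot_sub (a b c : C3) : dot a (b - c) = dot a b - dot a c := by
  simp [dot, mul_sub, sum_sub_distrib]
theorem sub_dot (a b c : C3) : dot (a - b) c = dot a c - dot b c := by
  simp [dot, sub_mul, sum_sub_distrib]
theorem dot_smul (t : ℂ) (a b : C3) : dot a (t • b) = t * dot a b := by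
  simp [dot, mul_sum, mul_left_comm]
theorem smul_dot (t : ℂ) (a b : C3) : dot (t • a) b = t * dot a b := by
  simp [dot, mul_sum, mul_assoc]
@[simp] theorem dot_zero (a : C3) : dot a 0 = 0 := by simp [dot]
@[simp] theorem zero_dot (a : C3) : dot 0 a = 0 := by simp [dot]
theorem single_dot (k : Fin GD.d) (a : C3) : dot (Pi.single k 1) a = a k := by
  simp [dot, Pi.single_apply]
theorem eq_of_dot {a b : C3} (h : ∀ c, dot c a = dot c b) : a = b :=
  funext fun k => by rw [← single_dot k a, h, single_dot]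

theorem norm_dot' (a b : C3) : ‖dot a b‖ ≤ ‖a‖ * ‖b‖ := by
  have h := sum_mul_sq_le_sq_mul_sq univ (fun k => ‖a k‖) fun k => ‖b k‖
  rw [← sq_C3, ← sq_C3, ← mul_pow] at h
  exact (norm_sum_le _ _).trans (le_trans (by simp) (abs_le_of_sq_le_sq' h (by positivity)).2)

theorem norm_dot (a b : C3) : ‖dot a b‖ ≤ 3 * ‖a‖ * ‖b‖ := by
  nlinarith [norm_dot' a b, mul_nonneg (norm_nonneg a) (norm_nonneg b)]

theorem dot_star (a : C3) : dot (star a) a = ((‖a‖ ^ 2 : ℝ) : ℂ) := by
  simp [dot, sq_C3, Complex.conj_mul']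

theorem norm_star_C3 (a : C3) : ‖star a‖ = ‖a‖ := by simp [norm_C3]

theorem norm_single (k : Fin GD.d) (x : ℂ) : ‖(Pi.single k x : C3)‖ = ‖x‖ := by
  rw [norm_C3, sum_eq_single k (fun j _ h => by simp [h]) (by simp)]
  simp

theorem norm_C3_le (b : C3) {c : ℝ} (h : ∀ k, ‖b k‖ ≤ c) : ‖b‖ ≤ cG * c := by
  have c0 := (norm_nonneg _).trans (h GD.k0)
  refine (abs_le_of_sq_le_sq' ?_ (mul_nonneg GD.cG_pos.le c0)).2
  have : ∑ k, ‖b k‖ ^ 2 ≤ GD.d * c ^ 2 :=
    (sum_le_card_nsmul _ _ _ fun k _ => pow_le_pow_left₀ (norm_nonneg _) (h k) 2).trans (by simp)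
  rw [sq_C3, mul_pow]
  exact this.trans (mul_le_mul_of_nonneg_right (by nlinarith [GD.d_le, GD.cG1]) (sq_nonneg c))

theorem bq_io (a : C3) (q : Hc) : bq (io a) q = dot a (co q) := by
  simp only [bq, dot, io_m, co_apply, transpose_sum, Matrix.sum_mul, trace_sum, Finset.mul_sum,
    transpose_smul, Matrix.smul_mul, trace_smul, smul_eq_mul, mul_left_comm]

theorem bq_comm (p q : Hc) : bq p q = bq q p := by
  rw [bq, bq, ← trace_transpose, transpose_mul, transpose_transpose]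

theorem norm_bq (p q : Hc) : ‖bq p q‖ ≤ GD.t * ‖p.m‖ * (GD.t * ‖q.m‖) := by
  rw [bq, norm_mul, norm_pow, Complex.norm_real, Real.norm_of_nonneg GD.t_pos.le]
  nlinarith [mul_le_mul_of_nonneg_left (Un.tr_le p.m q.m) (sq_nonneg GD.t)]

theorem bq_conj (g h : Hc) {p q : Hc} (hp : p.re = 0) (hq : q.re = 0) :
    bq p (g * q * h) = bq (star g * p * star h) q := by
  rw [bq, bq, Un.m_conj _ _ hq, Un.m_conj _ _ hp, Un.mat_star, Un.mat_star, transpose_mul,
    transpose_mul, transpose_transpose, transpose_transpose, ← mul_assoc, trace_mul_comm]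
  simp only [mul_assoc]

theorem norm_io' (b : C3) : ‖io b‖ = ‖b‖ := by
  have e : (io b).mᴴ = (io (star b)).mᵀ := by
    simp only [io_m, conjTranspose_sum, transpose_sum, conjTranspose_smul, transpose_smul,
      Pi.star_apply]
    refine sum_congr rfl fun k _ => congrArg _ ?_
    ext; simp [eC]
  have h := bq_io (star b) (io b)
  rw [co_io, dot_star, bq, ← e, ← Un.fro_tr] at h
  rw [Un.norm_of_re (io_re b)]
  refine (pow_left_inj₀ (mul_nonneg GD.t_pos.le (norm_nonneg _)) (norm_nonneg _) two_ne_zero).1 ?_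
  rw [mul_pow]
  exact Complex.ofReal_injective (by rw [← h]; simp)

theorem norm_io_eq (b : C3) : ‖io b‖ = ‖b‖ := norm_io' b

theorem norm_io (b : C3) : ‖io b‖ ≤ 3 * ‖b‖ := by linarith [norm_io' b, norm_nonneg b]

theorem norm_re (q : Hc) : ‖q.re‖ ≤ ‖q‖ := Un.norm_re q

theorem norm_co_m (q : Hc) : ‖co q‖ ≤ GD.t * ‖q.m‖ := by
  have h := norm_bq (io (star (co q))) q
  rw [bq_io, dot_star, ← Un.norm_of_re (io_re _), norm_io', norm_star_C3, Complex.norm_real,
    Real.norm_of_nonneg (sq_nonneg _), sq] at h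
  rcases (norm_nonneg (co q)).eq_or_lt with h0 | h0
  · exact h0 ▸ mul_nonneg GD.t_pos.le (norm_nonneg _)
  · exact le_of_mul_le_mul_left h h0

theorem norm_co (q : Hc) : ‖co q‖ ≤ ‖q‖ := (norm_co_m q).trans (Un.norm_m q)

theorem dot_cE (u v : E3) : dot (cE u) (cE v) = ((inner ℝ u v : ℝ) : ℂ) := by
  simp [dot, cE, PiLp.inner_apply, mul_comm]

theorem dot_cE_self (v : E3) : dot (cE v) (cE v) = ((‖v‖ ^ 2 : ℝ) : ℂ) := by
  rw [dot_cE, real_inner_self_eq_norm_sq]

theorem norm_cE' (v : E3) : ‖cE v‖ = ‖v‖ := by simp [norm_C3, EuclideanSpace.norm_eq, cE]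

theorem norm_cE (v : E3) : ‖cE v‖ ≤ ‖v‖ ∧ ‖v‖ ≤ 2 * ‖cE v‖ := by
  rw [norm_cE']
  exact ⟨le_rfl, by linarith [norm_nonneg v]⟩

theorem cE_add (u v : E3) : cE (u + v) = cE u + cE v := by funext k; simp [cE]
theorem cE_sub (u v : E3) : cE (u - v) = cE u - cE v := by funext k; simp [cE]
theorem cE_neg (u : E3) : cE (-u) = -cE u := by funext k; simp [cE]
theorem cE_smul (t : ℝ) (v : E3) : cE (t • v) = (t : ℂ) • cE v := by funext k; simp [cE]
@[simp] theorem cE_zero : cE 0 = 0 := by funext k; simp [cE]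
theorem cE_inj {u v : E3} (h : cE u = cE v) : u = v := by
  ext k
  exact Complex.ofReal_injective (congrFun h k)
theorem cE_real (v : E3) (k : Fin GD.d) : (cE v k).im = 0 := rfl

theorem exists_cE {b : C3} (h : ∀ k, (b k).im = 0) : ∃ v, cE v = b :=
  ⟨WithLp.toLp 2 fun k => (b k).re, funext fun k => Complex.ext rfl (by simp [cE, h])⟩

@[simp] theorem cq_re (q : Hr) : (cq q).re = q.re := rfl
theorem cq_m (q : Hr) : (cq q).m = q.m.map (↑) := rfl
theorem cq_mul (p q : Hr) : cq (p * q) = cq p * cq q := by ext <;> simp [cq_m, mul_apply]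
theorem cq_add (p q : Hr) : cq (p + q) = cq p + cq q := by ext <;> simp [cq_m]
theorem cq_sub (p q : Hr) : cq (p - q) = cq p - cq q := by ext <;> simp [cq_m]
theorem cq_neg (p : Hr) : cq (-p) = -cq p := by ext <;> simp [cq_m]
theorem cq_smul (t : ℝ) (q : Hr) : cq (t • q) = (t : ℂ) • cq q := by
  ext <;> simp [-Complex.coe_smul, cq_m]
theorem cq_star (q : Hr) : cq (star q) = star (cq q) := by ext <;> simp [cq_m]
theorem cq_one : cq 1 = 1 := by ext <;> simp [cq_m]
theorem cq_zero : cq 0 = 0 := by ext <;> simp [cq_m]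
theorem cq_sum {ι : Type} (s : Finset ι) (f : ι → Hr) : cq (∑ i ∈ s, f i) = ∑ i ∈ s, cq (f i) := by
  induction s using Finset.cons_induction with
  | empty => simp [cq_zero]
  | cons a s h ih => rw [sum_cons, sum_cons, cq_add, ih]
theorem cq_inj {p q : Hr} (h : cq p = cq q) : p = q := by
  ext i j <;> apply Complex.ofReal_injective
  exacts [congrArg (·.re) h, congrArg (·.m i j) h]

/-- complexification as a ring homomorphism -/
def cqH : Hr →+* Hc := ⟨⟨⟨cq, cq_one⟩, cq_mul⟩, cq_zero, cq_add⟩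

theorem norm_cq' (q : Hr) : ‖cq q‖ = ‖q‖ := by
  rw [Un.norm_def, Un.norm_def, cq_re, cq_m, frobenius_norm_map_eq _ _ Complex.norm_real,
    Complex.norm_real]

theorem norm_cq (q : Hr) : ‖q‖ ≤ ‖cq q‖ ∧ ‖cq q‖ ≤ 2 * ‖q‖ := by
  rw [norm_cq']
  exact ⟨le_rfl, by linarith [norm_nonneg q]⟩

theorem norm_co_cq (q : Hr) : ‖co (cq q)‖ ≤ ‖q‖ := (norm_co _).trans_eq (norm_cq' q)

theorem abs_re_le (q : Hr) : |q.re| ≤ ‖q‖ := Un.norm_re q

theorem co_cq (q : Hr) (k : Fin GD.d) :
    co (cq q) k = ((GD.t ^ 2 * trace ((GD.e k)ᵀ * q.m) : ℝ) : ℂ) := by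
  rw [co_apply, eC, cq_m, tr_map]
  simp

theorem co_real (q : Hr) (k : Fin GD.d) : (co (cq q) k).im = 0 := by rw [co_cq, Complex.ofReal_im]

/-- the real form of `io` -/
def ioR (v : E3) : Hr := ⟨0, ∑ k, v k • GD.e k⟩

theorem cq_ioR (v : E3) : cq (ioR v) = io (cE v) := by
  ext <;> simp [cq_m, ioR, io_m, cE, eC, Matrix.sum_apply]

theorem ioR_mem (v : E3) : (ioR v).m ∈ Submodule.span ℝ (Set.range GD.e) :=
  Submodule.sum_mem _ (t := univ) (f := fun k => v k • GD.e k) fun k _ =>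
    Submodule.smul_mem _ _ (Submodule.subset_span (Set.mem_range_self k))

theorem exists_ioR {X : Matrix (Fin GD.n) (Fin GD.n) ℝ} (h : X ∈ Submodule.span ℝ (Set.range GD.e)) :
    ∃ v, ioR v = (⟨0, X⟩ : Hr) := by
  obtain ⟨c, rfl⟩ := (Submodule.mem_span_range_iff_exists_fun ℝ).1 h
  exact ⟨WithLp.toLp 2 c, rfl⟩

@[simp] theorem S3.q_re (g : S3) : g.q.re = 1 := rfl
theorem S3.q_m (g : S3) : g.q.m = GD.rho g - 1 := rfl
theorem S3.mat_q (g : S3) : Un.mat g.q = GD.rho g := by simp [Un.mat_def, S3.q_m]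
theorem S3.ext {g h : S3} (e : g.q = h.q) : g = h :=
  GD.inj (by rw [← S3.mat_q, e, S3.mat_q])
theorem S3.q_mul (g h : S3) : (g * h).q = g.q * h.q :=
  Un.ext' (by simp) (by rw [map_mul, S3.mat_q, S3.mat_q, S3.mat_q]; exact map_mul GD.rho g h)
theorem S3.q_one : (1 : S3).q = 1 :=
  Un.ext' rfl (by rw [map_one, S3.mat_q]; exact map_one GD.rho)
theorem S3.q_inv (g : S3) : g⁻¹.q = star g.q :=
  Un.ext' rfl (by rw [Un.mat_star, S3.mat_q, S3.mat_q]; exact GD.rho_inv g)
theorem S3.norm_mul_left (g : S3) {x : Hr} (h : x.re = 0) : ‖g.q * x‖ = ‖x‖ := by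
  rw [Un.norm_of_re (by simp [h]), Un.norm_of_re h, Un.m_mul_left _ h, S3.mat_q,
    Un.fro_left (A := GD.rho g) (GD.orth g)]
theorem S3.norm_mul_right (g : S3) {x : Hr} (h : x.re = 0) : ‖x * g.q‖ = ‖x‖ := by
  rw [Un.norm_of_re (by simp [h]), Un.norm_of_re h, Un.m_mul_right _ h, S3.mat_q,
    Un.fro_right (A := GD.rho g) (GD.orth g)]
theorem S3.norm_q_mul (g : S3) {x : Hr} (h : x.re = 0) : ‖g.q * x‖ = ‖x‖ := g.norm_mul_left h
theorem S3.norm_mul_q (g : S3) {x : Hr} (h : x.re = 0) : ‖x * g.q‖ = ‖x‖ := g.norm_mul_right h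
theorem norm_q_sub (g : S3) : ‖g.q - 1‖ = GD.t * ‖GD.rho g - 1‖ := by
  rw [Un.norm_of_re (by simp), Un.m_sub, Un.m_one, sub_zero, S3.q_m]
theorem S3.norm_mul_sub (g h : S3) : ‖(g * h).q - 1‖ ≤ ‖g.q - 1‖ + ‖h.q - 1‖ := by
  have : (g * h).q - 1 = (g.q - 1) + g.q * (h.q - 1) := by rw [S3.q_mul]; noncomm_ring
  rw [this]
  exact (norm_add_le _ _).trans (by rw [g.norm_mul_left (by simp)])

theorem S3.norm_inv_sub (g : S3) : ‖g⁻¹.q - 1‖ = ‖g.q - 1‖ := by
  rw [S3.q_inv, ← norm_star, star_sub, star_star, star_one]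

theorem S3.norm_conj_sub (u g : S3) : ‖(u * g * u⁻¹).q - 1‖ = ‖g.q - 1‖ := by
  have : (u * g * u⁻¹).q - 1 = u.q * (g.q - 1) * u⁻¹.q := by
    rw [mul_sub, sub_mul, mul_one, ← S3.q_mul u u⁻¹, mul_inv_cancel, S3.q_mul, S3.q_mul, S3.q_one]
  rw [this, S3.norm_mul_right _ (by simp), S3.norm_mul_left _ (by simp)]

theorem S3.norm_sub (g h : S3) : ‖g.q - h.q‖ = ‖(g * h⁻¹).q - 1‖ := by
  have : g.q - h.q = ((g * h⁻¹).q - 1) * h.q := by
    rw [sub_mul, one_mul, ← S3.q_mul, inv_mul_cancel_right]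
  rw [this, S3.norm_mul_right _ (by simp)]

theorem S3.norm_sub_one_sq (g : S3) : ‖g.q - 1‖ ^ 2 = 2 - 2 * g.re1 := by
  have h := Un.fro_tr (GD.rho g - 1)
  rw [conjTranspose_eq_transpose_of_trivial, transpose_sub, sub_mul, mul_sub, mul_sub, GD.orth] at h
  simp only [transpose_one, mul_one, one_mul, trace_sub, trace_one, trace_transpose,
    Fintype.card_fin, RCLike.ofReal_real_eq_id, id] at h
  rw [norm_q_sub, mul_pow, h, S3.re1]
  ring

theorem S3.diam (g : S3) : ‖g.q - 1‖ ≤ cG := by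
  have h1 : ‖(1 : Matrix (Fin GD.n) (Fin GD.n) ℝ)‖ ≤ GD.n := by
    have h := Un.fro_tr (1 : Matrix (Fin GD.n) (Fin GD.n) ℝ)
    simp only [conjTranspose_one, mul_one, trace_one, Fintype.card_fin, RCLike.ofReal_real_eq_id,
      id] at h
    refine (abs_le_of_sq_le_sq' (h.trans_le ?_) (Nat.cast_nonneg _)).2
    exact_mod_cast Nat.le_self_pow two_ne_zero _
  have h2 := Un.fro_left (A := GD.rho g) (GD.orth g) 1
  have h3 := norm_sub_le (GD.rho g) 1
  rw [mul_one] at h2
  rw [norm_q_sub]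
  exact le_trans (mul_le_mul_of_nonneg_left (by linarith) GD.t_pos.le) GD.tn_le

theorem S3.continuous_q : Continuous S3.q := by
  let L : Matrix (Fin GD.n) (Fin GD.n) ℝ →ₗ[ℝ] Hr :=
    ⟨⟨fun X => ⟨0, X⟩, fun _ _ => Un.ext (by simp) rfl⟩, fun _ _ => Un.ext (by simp) rfl⟩
  have : S3.q = fun g : S3 => 1 + L (GD.rho g - 1) := funext fun g => Un.ext (by simp [L]) (by simp [L, S3.q_m])
  rw [this]
  exact continuous_const.add (L.continuous_of_finiteDimensional.comp (GD.cont.sub continuous_const))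

theorem cS_mul (g h : S3) : cS (g * h) = cS g * cS h := by rw [cS, S3.q_mul, cq_mul, cS, cS]
theorem cS_inv (g : S3) : cS g⁻¹ = star (cS g) := by rw [cS, S3.q_inv, cq_star, cS]
theorem cS_one : cS 1 = 1 := by rw [cS, S3.q_one, cq_one]
theorem cS_inj {g h : S3} (e : cS g = cS h) : g = h := S3.ext (cq_inj e)
@[simp] theorem cS_re (g : S3) : (cS g).re = 1 := Complex.ofReal_one
theorem re_cS (g : S3) : (cS g).re = 1 := cS_re g
theorem mat_cS (g : S3) : Un.mat (cS g) = (GD.rho g).map (↑) := by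
  ext i j
  by_cases h : i = j <;> simp [Un.mat_def, cS, cq_m, S3.q_m, one_apply, h]
theorem norm_cS_sub (g : S3) : ‖cS g - 1‖ = ‖g.q - 1‖ := by rw [← norm_cq', cq_sub, cq_one, cS]
theorem mat_cS_orth (g : S3) : (Un.mat (cS g))ᴴ * Un.mat (cS g) = 1 := by
  have : (Un.mat (cS g))ᴴ = Un.mat (cS g⁻¹) := by
    rw [cS_inv, Un.mat_star, mat_cS]
    ext; simp
  rw [this, ← map_mul, ← cS_mul, inv_mul_cancel, cS_one, map_one]
theorem norm_cS_mul (g : S3) {x : Hc} (h : x.re = 0) : ‖cS g * x‖ = ‖x‖ := by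
  rw [Un.norm_of_re (by simp [h]), Un.norm_of_re h, Un.m_mul_left _ h, Un.fro_left (mat_cS_orth g)]
theorem norm_mul_cS (g : S3) {x : Hc} (h : x.re = 0) : ‖x * cS g‖ = ‖x‖ := by
  rw [Un.norm_of_re (by simp [h]), Un.norm_of_re h, Un.m_mul_right _ h,
    Un.fro_right (mat_cS_orth g)]

theorem adq_one (b : C3) : adq 1 b = b := by simp [adq]

theorem adq_add (h : Hc) (a b : C3) : adq h (a + b) = adq h a + adq h b := by
  simp only [adq, io_add, mul_add, add_mul, co_add]

theorem adq_smul (h : Hc) (t : ℂ) (a : C3) : adq h (t • a) = t • adq h a := by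
  simp only [adq, io_smul, mul_smul_comm, smul_mul_assoc, co_smul]

@[simp] theorem adq_zero (h : Hc) : adq h 0 = 0 := by simp [adq]

/-- the adjoint action as a linear map -/
def adL (h : Hc) : C3 →ₗ[ℂ] C3 := ⟨⟨adq h, adq_add h⟩, adq_smul h⟩

theorem adq_sub (h : Hc) (a b : C3) : adq h (a - b) = adq h a - adq h b := (adL h).map_sub a b
theorem adq_neg (h : Hc) (a : C3) : adq h (-a) = -adq h a := (adL h).map_neg a

theorem adq_sum (h : Hc) {ι : Type} (s : Finset ι) (f : ι → C3) :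
    adq h (∑ i ∈ s, f i) = ∑ i ∈ s, adq h (f i) := map_sum (adL h) f s

theorem dot_adq (h : Hc) (a b : C3) : dot (adq h a) b = dot a (adq (star h) b) := by
  rw [dot_comm, adq, adq, ← bq_io, ← bq_io, bq_conj _ _ rfl rfl, bq_comm]

theorem adq_mul {h : Hc} (hh : Uni h) (g : Hc) (b : C3) : adq (g * h) b = adq g (adq h b) := by
  rw [adq, adq, io_adq hh, star_mul]
  simp only [mul_assoc]

theorem Uni.of_mem {h : Hc} (h1 : h * star h = 1)
    (h2 : ∀ k, ∃ c, h * io (Pi.single k 1) * star h = io c) : Uni h := by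
  choose c hc using h2
  refine ⟨h1, fun b => ?_⟩
  have e : h * io b * star h = io (∑ k, b k • c k) := by
    conv_lhs => rw [← univ_sum_single b]
    rw [show io = ioL from rfl, map_sum, map_sum, Finset.mul_sum, Finset.sum_mul]
    refine sum_congr rfl fun k _ => ?_
    rw [map_smul, show (ioL (c k) : Hc) = io (c k) from rfl, ← hc, ← smul_mul_assoc, ← mul_smul_comm,
      ← io_smul, ← Pi.single_smul, smul_eq_mul, mul_one]
    rfl
  rw [adq, e, co_io]

theorem Uni.star {h : Hc} (hh : Uni h) : Uni (star h) := by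
  have e : ∀ c, Star.star h * io (adq h c) * h = io c := fun c => by
    rw [io_adq hh, ← mul_assoc, ← mul_assoc, hh.star_mul, one_mul, mul_assoc, hh.star_mul, mul_one]
  have hi : Function.Injective (adL h) := fun a b hab => io_inj (by
    rw [← e, ← e b]; exact congrArg (fun x => Star.star h * io x * h) hab)
  refine .of_mem (by rw [star_star, hh.star_mul]) fun k => ?_
  obtain ⟨c, hc⟩ := LinearMap.injective_iff_surjective.1 hi (Pi.single k 1)
  exact ⟨c, by rw [star_star, ← hc]; exact e c⟩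

theorem Uni.mul {g h : Hc} (hg : Uni g) (hh : Uni h) : Uni (g * h) :=
  ⟨by rw [StarMul.star_mul, mul_assoc, ← mul_assoc h, hh.mul_star, one_mul, hg.mul_star], fun b => by
    rw [adq_mul hh, io_adq hg, io_adq hh, StarMul.star_mul]; simp only [mul_assoc]⟩

theorem uni_one : Uni 1 := ⟨by simp, fun b => by simp [adq_one]⟩

theorem io_single (k : Fin GD.d) : io (Pi.single k 1) = cq ⟨0, GD.e k⟩ :=
  Un.ext (by simp) (by simp [io_m, Pi.single_apply, cq_m, eC])

theorem uni_cS (g : S3) : Uni (cS g) := by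
  refine .of_mem (by rw [← cS_inv, ← cS_mul, mul_inv_cancel, cS_one]) fun k => ?_
  obtain ⟨v, hv⟩ := exists_ioR (GD.ad_mem g k)
  refine ⟨cE v, ?_⟩
  rw [← cq_ioR, hv, io_single, cS, ← cq_star, ← cq_mul, ← cq_mul]
  exact congrArg cq (Un.ext (by simp) (by rw [Un.m_conj _ _ rfl, Un.mat_star, S3.mat_q]))

theorem Uni.re_sq {h : Hc} (hh : Uni h) : h.re * h.re = 1 := congrArg Un.re hh.mul_star

theorem Uni.re_conj {h : Hc} (hh : Uni h) (q : Hc) : (h * q * Star.star h).re = q.re := by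
  simp only [Un.re_mul, Un.re_star]
  linear_combination q.re * hh.re_sq

theorem conj_split {h : Hc} (hh : Uni h) (q : Hc) :
    h * q * star h = q.re • (1 : Hc) + h * ⟨0, q.m⟩ * star h := by
  conv_lhs => rw [show q = q.re • (1 : Hc) + ⟨0, q.m⟩ from Un.ext (by simp) (by simp)]
  rw [mul_add, add_mul, mul_smul_comm, smul_mul_assoc, mul_one, hh.mul_star]

theorem co_conj {h : Hc} (hh : Uni h) (q : Hc) : co (h * q * star h) = adq h (co q) := by
  refine eq_of_dot fun c => ?_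
  rw [conj_split hh, co_add, co_smul, co_one, smul_zero, zero_add, ← bq_io, bq_conj _ _ rfl rfl,
    ← io_adq hh.star, bq_io, dot_adq, star_star]
  rfl

theorem adq_mul' {g : Hc} (hg : Uni g) (h : Hc) (b : C3) : adq (g * h) b = adq g (adq h b) := by
  rw [adq, show adq h b = co (h * io b * star h) from rfl, ← co_conj hg, star_mul]
  simp only [mul_assoc]

theorem adq_star_adq {h : Hc} (hh : Uni h) (b : C3) : adq (star h) (adq h b) = b := by
  rw [← adq_mul hh, hh.star_mul, adq_one]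

theorem adq_adq_star {h : Hc} (hh : Uni h) (b : C3) : adq h (adq (star h) b) = b := by
  rw [← adq_mul' hh, hh.mul_star, adq_one]

theorem dot_adq_adq {h : Hc} (hh : Uni h) (a b : C3) : dot (adq h a) (adq h b) = dot a b := by
  rw [dot_adq, adq_star_adq hh]

theorem ch_conj {h : Hc} (hh : Uni h) (q : Hc) : ch (h * q * star h) = adq h (ch q) := by
  rw [ch, ch, adq_smul, co_conj hh, hh.re_conj]

theorem norm_adq_eq (g : S3) (b : C3) : ‖adq (cS g) b‖ = ‖b‖ := by
  rw [← norm_io', io_adq (uni_cS g), ← cS_inv, norm_mul_cS _ (by simp), norm_cS_mul _ rfl, norm_io']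

theorem norm_adq_cS (g : S3) (b : C3) : ‖adq (cS g) b‖ = ‖b‖ := norm_adq_eq g b

theorem norm_conj_cS (g : S3) (E : Hc) : ‖cS g * E * star (cS g)‖ = ‖E‖ := by
  have h : ‖cS g * (⟨0, E.m⟩ : Hc) * star (cS g)‖ = ‖(⟨0, E.m⟩ : Hc)‖ := by
    rw [← cS_inv, norm_mul_cS _ (by simp), norm_cS_mul _ rfl]
  rw [Un.norm_of_re (by simp), Un.norm_of_re rfl] at h
  rw [Un.norm_def, Un.norm_def, (uni_cS g).re_conj, ← h, conj_split (uni_cS g)]
  simp

theorem adq_cS_apply (g : S3) (b : C3) (k : Fin GD.d) : adq (cS g) b k =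
    ∑ j, (GD.t ^ 2 * trace ((GD.e k)ᵀ * (GD.rho g * GD.e j * (GD.rho g)ᵀ)) : ℝ) * b j := by
  conv_lhs => rw [← univ_sum_single b, adq_sum, Finset.sum_apply]
  refine sum_congr rfl fun j _ => ?_
  rw [← mul_one (b j), ← smul_eq_mul, Pi.single_smul, adq_smul, adq, io_single, cS, ← cq_star,
    ← cq_mul, ← cq_mul, Pi.smul_apply, co_cq, Un.m_conj _ _ rfl, Un.mat_star, S3.mat_q]
  simp [mul_comm]

theorem norm_adq_sub {h : Hc} {δ : ℝ} (hh : ‖h - 1‖ ≤ δ) (h1 : δ ≤ 1) (b : C3) :
    ‖adq h b - b‖ ≤ 10 * δ * ‖b‖ := by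
  have e : adq h b - b = co ((h - 1) * io b * (star (h - 1) + 1) + io b * star (h - 1)) := by
    conv_lhs => rw [adq, ← co_io b, ← co_sub, co_io]
    congr 1
    rw [star_sub, star_one]
    noncomm_ring
  have h2 : ‖star (h - 1)‖ ≤ δ := (norm_star_Hc _).trans_le hh
  have h3 : ‖star (h - 1) + 1‖ ≤ 2 := (norm_add_le _ _).trans (by rw [norm_one]; linarith)
  have h0 : 0 ≤ δ := (norm_nonneg _).trans hh
  have h4 := norm_io b
  have h5 := norm_nonneg b
  rw [e]
  refine (norm_co _).trans ((norm_add_le _ _).trans ?_)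
  have a1 : ‖(h - 1) * io b * (star (h - 1) + 1)‖ ≤ δ * (3 * ‖b‖) * 2 :=
    (norm_mul_le _ _).trans (mul_le_mul ((norm_mul_le _ _).trans
      (mul_le_mul hh h4 (norm_nonneg _) h0)) h3 (norm_nonneg _) (by positivity))
  have a2 : ‖io b * star (h - 1)‖ ≤ 3 * ‖b‖ * δ :=
    (norm_mul_le _ _).trans (mul_le_mul h4 h2 (norm_nonneg _) (by positivity))
  nlinarith [mul_nonneg h0 h5]

theorem adq_real (q : Hr) {b : C3} (hb : ∀ k, (b k).im = 0) (k : Fin GD.d) :
    (adq (cq q) b k).im = 0 := by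
  obtain ⟨v, rfl⟩ := exists_cE hb
  rw [adq, ← cq_ioR, ← cq_star, ← cq_mul, ← cq_mul, co_real]

theorem exists_rot (g : S3) : ∃ T : E3 ≃ₗᵢ[ℝ] E3, ∀ v, cE (T v) = adq (cS g) (cE v) := by
  choose T hT using fun v : E3 => exists_cE (adq_real g.q (b := cE v) fun k => by simp [cE])
  let T' : E3 →ₗᵢ[ℝ] E3 :=
    { toFun := T
      map_add' := fun u v => cE_inj (by rw [cE_add, hT, hT, hT, cE_add, adq_add])
      map_smul' := fun t v => cE_inj (by rw [RingHom.id_apply, cE_smul, hT, hT, cE_smul, adq_smul])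
      norm_map' := fun v => by
        have := dot_adq_adq (uni_cS g) (cE v) (cE v)
        rw [cS, ← hT, dot_cE_self, dot_cE_self, Complex.ofReal_inj] at this
        exact (pow_left_inj₀ (norm_nonneg _) (norm_nonneg _) two_ne_zero).1 this }
  exact ⟨T'.toLinearIsometryEquiv rfl, hT⟩

theorem ch_smul {c : ℂ} (hc : c ≠ 0) (q : Hc) : ch (c • q) = ch q := by
  rw [ch, ch, co_smul, smul_smul, Un.re_smul, smul_eq_mul, mul_inv, mul_right_comm,
    inv_mul_cancel₀ hc, one_mul]

theorem ch_of_re {q : Hc} (h : q.re = 1) : ch q = co q := by rw [ch, h, inv_one, one_smul]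
theorem ch_cS (g : S3) : ch (cS g) = co (cS g) := ch_of_re (cS_re g)
theorem ch_star (q : Hc) : ch (star q) = -ch q := by rw [ch, ch, co_star, smul_neg, Un.re_star]
theorem ch_symm {q : Hc} (h : star q = q) : ch q = 0 := by rw [ch, co_symm h, smul_zero]

theorem ch_real (q : Hr) (k : Fin GD.d) : (ch (cq q) k).im = 0 := by
  simp [ch, ← Complex.ofReal_inv, co_real]

@[simp] theorem ch_one : ch 1 = 0 := by simp [ch]

theorem ch_coe (c : ℂ) : ch (c : Hc) = 0 := by rw [ch, co_coe, smul_zero]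

theorem ch_near {W : Hc} {w : C3} {η : ℝ} (h : ‖W - 1 - io w‖ ≤ η) (h1 : η ≤ 1 / 3)
    (h2 : ‖w‖ ≤ 1) : W.re ≠ 0 ∧ ‖ch W - w‖ ≤ 3 * η := by
  set E := W - 1 - io w with hE
  have e1 : W.re = 1 + E.re := by simp [hE]
  have e2 : co W = w + co E := by simp [hE, co_sub]
  have a1 := (norm_re E).trans h
  have a2 := (norm_co E).trans h
  have n : 2 / 3 ≤ ‖W.re‖ := by
    have := norm_sub_norm_le (1 : ℂ) (-E.re)
    rw [norm_one, norm_neg, sub_neg_eq_add, ← e1] at this
    linarith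
  have r0 : W.re ≠ 0 := norm_pos_iff.1 (by linarith)
  have e3 : W.re • (ch W - w) = co E - E.re • w := by
    rw [smul_sub, ch, smul_smul, mul_inv_cancel₀ r0, one_smul, e2, e1, add_smul, one_smul]
    abel
  have e4 := congrArg norm e3
  have a3 := norm_sub_le (co E) (E.re • w)
  rw [norm_smul] at e4 a3
  have η0 : 0 ≤ η := (norm_nonneg _).trans h
  refine ⟨r0, ?_⟩
  nlinarith [norm_nonneg (ch W - w), mul_le_mul a1 h2 (norm_nonneg _) η0]

theorem enq_eq (q : Hc) : enq q = bq q q := by rw [enq, bq, trace_mul_comm]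
@[simp] theorem enq_one : enq 1 = 0 := by simp [enq]
theorem enq_star (q : Hc) : enq (star q) = enq q := by
  rw [enq, enq, Un.m_star, transpose_transpose, trace_mul_comm]

theorem enq_conj {h : Hc} (hh : Uni h) (q : Hc) : enq (h * q * star h) = enq q := by
  have e : (h * q * star h).m = Un.mat h * q.m * (Un.mat h)ᵀ := by
    rw [conj_split hh, Un.m_add, Un.m_conj _ _ rfl, Un.mat_star]
    simp
  have e1 := congrArg Un.mat hh.star_mul
  rw [map_mul, map_one, Un.mat_star] at e1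
  rw [enq, enq, e, transpose_mul, transpose_mul, transpose_transpose, mul_assoc, mul_assoc,
    trace_mul_comm, ← mul_assoc (Un.mat h)ᵀ, e1, one_mul, mul_assoc, mul_assoc, e1, mul_one]

theorem enq_cq (q : Hr) : enq (cq q) = (((GD.t * ‖q.m‖) ^ 2 : ℝ) : ℂ) := by
  have h := Un.fro_tr q.m
  rw [conjTranspose_eq_transpose_of_trivial] at h
  rw [enq_eq, bq, cq_m, tr_map, ← h]
  simp [mul_pow]

theorem enq_cS (g : S3) : enq (cS g) = ((‖g.q - 1‖ ^ 2 : ℝ) : ℂ) := by
  rw [cS, enq_cq, norm_q_sub, S3.q_m]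

theorem norm_enq (q : Hc) : ‖enq q‖ ≤ ‖q - 1‖ ^ 2 := by
  have h := Un.norm_m (q - 1)
  rw [Un.m_sub, Un.m_one, sub_zero] at h
  rw [enq_eq, sq]
  have := mul_nonneg GD.t_pos.le (norm_nonneg q.m)
  exact (norm_bq q q).trans (mul_le_mul h h this (norm_nonneg _))

theorem enq_near {q : Hc} {b : C3} {r u : ℝ} (hb : ‖b‖ ≤ r) (h : ‖q - 1 - io b‖ ≤ u) :
    ‖enq q - dot b b‖ ≤ u * (2 * r + u) := by
  set E := q - 1 - io b with hE
  have e1 : q.m = (io b).m + E.m := by simp [hE]
  have e : enq q - dot b b = bq (io b) E + bq E (io b) + bq E E := by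
    have := bq_io b (io b)
    rw [co_io] at this
    rw [← this, enq_eq]
    simp only [bq, e1, transpose_add, add_mul, mul_add, trace_add]
    ring
  have a1 := (Un.norm_m E).trans h
  have a2 : GD.t * ‖(io b).m‖ ≤ r := (Un.norm_m _).trans ((norm_io' b).trans_le hb)
  have a3 := mul_nonneg GD.t_pos.le (norm_nonneg E.m)
  have a4 := mul_nonneg GD.t_pos.le (norm_nonneg (io b).m)
  rw [e]
  refine norm_add₃_le.trans ?_
  nlinarith [norm_bq (io b) E, norm_bq E (io b), norm_bq E E, mul_le_mul a2 a1 a3 (a4.trans a2),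
    mul_le_mul a1 a1 a3 (a3.trans a1)]

theorem enq_split (E : Hc) (d : C3) : enq (E + 1 + io d) = enq E + 2 * dot (co E) d + dot d d := by
  have h1 := bq_io d (io d)
  have h2 := bq_comm E (io d)
  rw [co_io] at h1
  rw [dot_comm (co E), ← bq_io, ← h1, enq_eq, enq_eq, two_mul]
  nth_rewrite 1 [← h2]
  simp only [bq, Un.m_add, Un.m_one, add_zero, transpose_add, add_mul, mul_add, trace_add]
  ring

theorem differentiable_enq : Differentiable ℂ enq := by
  let L : Hc →L[ℂ] Matrix (Fin GD.n) (Fin GD.n) ℂ := LinearMap.toContinuousLinearMap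
    ⟨⟨Un.m, Un.m_add⟩, Un.m_smul⟩
  let T : Matrix (Fin GD.n) (Fin GD.n) ℂ →L[ℂ] ℂ := LinearMap.toContinuousLinearMap (traceLinearMap _ ℂ ℂ)
  exact (T.differentiable.comp (L.differentiable.mul (L.comp stL).differentiable)).const_mul _

theorem diff_enq {Ω : Set ℂ} {f : ℂ → Hc} (hf : DifferentiableOn ℂ f Ω) :
    DifferentiableOn ℂ (fun z => enq (f z)) Ω := differentiable_enq.comp_differentiableOn hf

theorem d_le_t : 48 * (GD.d : ℝ) ≤ GD.t := by
  nlinarith [GD.big, Nat.cast_nonneg (α := ℝ) GD.d, Nat.cast_nonneg (α := ℝ) GD.n]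

theorem d_le_t_sq : 48 * (GD.d : ℝ) ≤ GD.t ^ 2 := by nlinarith [d_le_t, GD.t1]

end Pool.Agent.Lib.MP_7f377f_mp.RG
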