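import Pool.Agent.Lib.MP_7f377f_mp.G.RGAp1
import Pool.Agent.Lib.MP_7f377f_mp.G.GAb0

/-! The circle subgroup which carries the abelian backgrounds. -/

noncomputable section

set_option linter.unusedSectionVars false
variable [Pool.Agent.Lib.MP_7f377f_mp.GD]

namespace Pool.Agent.Lib.MP_7f377f_mp.RG.Q4

open Finset Matrix NormedSpace

theorem hh_pos : 0 < GD.hh := GD.hh_pos

/-- angles with period `2 π GD.hh` -/
def Ang : Type := AddCircle (2 * Real.pi * GD.hh)

namespace Ang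

instance : AddCommGroup Ang := inferInstanceAs (AddCommGroup (AddCircle _))

instance : Inhabited Ang := ⟨0⟩

/-- the class of a real number -/
@[coe] protected def coe (r : ℝ) : Ang := QuotientAddGroup.mk r

instance : Coe ℝ Ang := ⟨Ang.coe⟩

def coeHom : ℝ →+ Ang := QuotientAddGroup.mk' _

@[simp] theorem coe_coeHom : (coeHom : ℝ → Ang) = ((↑) : ℝ → Ang) := rfl

@[elab_as_elim]
protected theorem induction_on {p : Ang → Prop} (θ : Ang) (h : ∀ x : ℝ, p x) : p θ :=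
  Quotient.inductionOn' θ h

@[simp] theorem coe_zero : ↑(0 : ℝ) = (0 : Ang) := rfl
@[simp] theorem coe_add (x y : ℝ) : ↑(x + y : ℝ) = (↑x + ↑y : Ang) := rfl
@[simp] theorem coe_neg (x : ℝ) : ↑(-x : ℝ) = -(↑x : Ang) := rfl
@[simp] theorem coe_sub (x y : ℝ) : ↑(x - y : ℝ) = (↑x - ↑y : Ang) := rfl
theorem coe_nsmul (n : ℕ) (x : ℝ) : ↑(n • x : ℝ) = n • (↑x : Ang) := rfl
theorem coe_zsmul (z : ℤ) (x : ℝ) : ↑(z • x : ℝ) = z • (↑x : Ang) := rfl

@[simp, norm_cast]
theorem natCast_mul_eq_nsmul (x : ℝ) (n : ℕ) : ↑((n : ℝ) * x) = n • (↑x : Ang) := by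
  rw [← coe_nsmul, nsmul_eq_mul]

@[simp, norm_cast]
theorem intCast_mul_eq_zsmul (x : ℝ) (n : ℤ) : ↑((n : ℝ) * x : ℝ) = n • (↑x : Ang) := by
  rw [← coe_zsmul, zsmul_eq_mul]

theorem eq_iff {ψ θ : ℝ} : (θ : Ang) = ψ ↔ ∃ k : ℤ, θ - ψ = 2 * Real.pi * GD.hh * k :=
  (QuotientAddGroup.eq_iff_sub_mem.trans AddSubgroup.mem_zmultiples_iff).trans
    (exists_congr fun k => by rw [zsmul_eq_mul, mul_comm, eq_comm])

end Ang

theorem exists_eR (s : ℝ) : ∃ g : S3, GD.rho g = exp (s • GD.e GD.k0) :=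
  GD.exp_mem (Submodule.smul_mem _ _ (Submodule.subset_span ⟨_, rfl⟩))

/-- the one parameter subgroup in the direction `GD.k0` -/
def eA (θ : Ang) : S3 := Function.Periodic.lift (f := fun s => (exists_eR s).choose)
  (fun s => GD.inj (by
    rw [(exists_eR _).choose_spec, (exists_eR _).choose_spec, GA.exp_add_smul, GD.per, mul_one])) θ

theorem rho_eA (s : ℝ) : GD.rho (eA s) = exp (s • GD.e GD.k0) := (exists_eR s).choose_spec

theorem eA_add (θ φ : Ang) : eA (θ + φ) = eA θ * eA φ := by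
  induction θ using Ang.induction_on
  induction φ using Ang.induction_on
  exact GD.inj (by rw [← Ang.coe_add, rho_eA, GA.exp_add_smul, ← rho_eA, ← rho_eA]; exact
    (GD.rho.map_mul _ _).symm)

@[simp] theorem eA_zero : eA 0 = 1 :=
  GD.inj ((rho_eA 0).trans (by rw [zero_smul, exp_zero]; exact GD.rho.map_one.symm))

theorem eA_neg (θ : Ang) : eA (-θ) = (eA θ)⁻¹ :=
  eq_inv_of_mul_eq_one_left (by rw [← eA_add]; simp)

theorem eA_sub (θ φ : Ang) : eA (θ - φ) = eA θ * (eA φ)⁻¹ := by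
  rw [sub_eq_add_neg, eA_add, eA_neg]

theorem eA_comm (θ φ : Ang) : eA θ * eA φ = eA φ * eA θ := by rw [← eA_add, add_comm, eA_add]

open scoped Matrix.Norms.Frobenius in
theorem t_norm_e (k : Fin GD.d) : GD.t * ‖GD.e k‖ = 1 := by
  have := GD.t1
  rw [← sq_eq_sq₀ (by positivity) zero_le_one, mul_pow, GA.fro_sq, GD.on, if_pos rfl, one_pow]

open scoped Matrix.Norms.Frobenius in
theorem norm_q_sub (g : S3) : ‖g.q - 1‖ = GD.t * ‖GD.rho g - 1‖ := by
  simp [Un.norm_def, S3.q]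

theorem norm_eA (θ : ℝ) : ‖(eA θ).q - 1‖ ≤ |θ| := by
  rw [norm_q_sub, rho_eA]
  refine (mul_le_mul_of_nonneg_left (GA.fro_exp (GD.anti GD.k0) θ) (zero_le_one.trans GD.t1)).trans_eq ?_
  rw [← mul_assoc, t_norm_e, one_mul]

/-- neutral directions -/
abbrev Neu := {k : Fin GD.d // GD.q k = 0}

/-- one direction out of each charged pair -/
abbrev Chg := {k : Fin GD.d // 0 < GD.q k}

/-- neutral directions and charged pairs -/
def dIx : Neu ⊕ Chg × Fin 2 → Fin GD.d := Sum.elim (·.1) fun p => ![p.1.1, GD.tau p.1.1] p.2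

theorem dIx_bij : dIx.Bijective := by
  have ti : ∀ {j k}, GD.tau j = GD.tau k → j = k := fun h => by
    simpa [GD.tau_tau] using congrArg GD.tau h
  constructor
  · rintro (⟨j, hj⟩ | ⟨⟨j, hj⟩, a⟩) (⟨k, hk⟩ | ⟨⟨k, hk⟩, b⟩) h
    · simpa [dIx] using h
    · have := congrArg GD.q h
      fin_cases b <;> simp [dIx, GD.q_tau] at this <;> omega
    · have := congrArg GD.q h
      fin_cases a <;> simp [dIx, GD.q_tau] at this <;> omega
    · have := congrArg GD.q h
      fin_cases a <;> fin_cases b <;> simp [dIx, GD.q_tau] at this h ⊢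
      exacts [h, by omega, by omega, ti h]
  · intro k
    rcases lt_trichotomy (GD.q k) 0 with h | h | h
    · exact ⟨.inr (⟨GD.tau k, by rw [GD.q_tau]; omega⟩, 1), GD.tau_tau k⟩
    · exact ⟨.inl ⟨k, h⟩, rfl⟩
    · exact ⟨.inr (⟨k, h⟩, 0), rfl⟩

def dE : Neu ⊕ Chg × Fin 2 ≃ Fin GD.d := Equiv.ofBijective dIx dIx_bij

theorem sum_dIx {M : Type} [AddCommMonoid M] (f : Fin GD.d → M) :
    ∑ k, f k = ∑ k : Neu, f k + ∑ k : Chg, (f k + f (GD.tau k)) := by
  rw [← dE.sum_comp, Fintype.sum_sum_type, Fintype.sum_prod_type]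
  simp only [Fin.sum_univ_two]
  rfl

theorem sum_neu {M : Type} [AddCommMonoid M] (f : Fin GD.d → M) :
    ∑ k with GD.q k = 0, f k = ∑ k : Neu, f k := sum_subtype _ (by simp) f

theorem sum_chg {M : Type} [AddCommMonoid M] (f : Fin GD.d → M) :
    ∑ k with GD.q k ≠ 0, f k = ∑ k : Chg, (f k + f (GD.tau k)) := by
  rw [sum_filter, sum_dIx, sum_eq_zero fun k _ => if_neg (not_not.2 k.2), zero_add]
  exact sum_congr rfl fun k _ => by simp [GD.q_tau, k.2.ne']

namespace Gp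

/-- the components of a charged pair as a complex number -/
def cz (k : Fin GD.d) (u : Fin GD.d → ℝ) : ℂ := ⟨u k, u (GD.tau k)⟩

/-- the phase of the adjoint action on the charge `n` -/
def ph (n : ℤ) (θ : Ang) : ℂ := (AddCircle.toCircle θ : ℂ) ^ n

theorem ph_coe (n : ℤ) (s : ℝ) : ph n s = Complex.exp ((n / GD.hh * s : ℝ) * Complex.I) := by
  have := hh_pos
  rw [ph, Ang.coe, AddCircle.toCircle_apply_mk, Circle.coe_exp, ← Complex.exp_int_mul]
  congr 1
  push_cast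
  have : (GD.hh : ℂ) ≠ 0 := by exact_mod_cast this.ne'
  have : (Real.pi : ℂ) ≠ 0 := by exact_mod_cast Real.pi_ne_zero
  field_simp

theorem norm_ph (n : ℤ) (θ : Ang) : ‖ph n θ‖ = 1 := by
  rw [ph, norm_zpow, Circle.norm_coe, _root_.one_zpow]

theorem ph_add (n : ℤ) (a b : Ang) : ph n (a + b) = ph n a * ph n b := by
  rw [ph, ph, ph, ← mul_zpow, ← Circle.coe_mul]
  exact congrArg (fun z : Circle => (z : ℂ) ^ n) (AddCircle.toCircle_add a b)

@[simp] theorem ph_zero (n : ℤ) : ph n 0 = 1 := by simpa using ph_coe n 0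

@[simp] theorem ph_zero' (θ : Ang) : ph 0 θ = 1 := zpow_zero _

theorem ph_neg (n : ℤ) (θ : Ang) : ph (-n) θ = starRingEnd ℂ (ph n θ) := by
  rw [ph, _root_.zpow_neg, ← ph, Complex.inv_eq_conj (norm_ph n θ)]

theorem ph_sum {ι : Type} (n : ℤ) (s : Finset ι) (θ : ι → Ang) :
    ∏ i ∈ s, ph n (θ i) = ph n (∑ i ∈ s, θ i) := by
  induction s using Finset.cons_induction with
  | empty => simp
  | cons i s hi ih => rw [prod_cons, sum_cons, ih, ph_add]

theorem cz_add (k : Fin GD.d) (u w : Fin GD.d → ℝ) : cz k (u + w) = cz k u + cz k w := rfl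
theorem cz_sub (k : Fin GD.d) (u w : Fin GD.d → ℝ) : cz k (u - w) = cz k u - cz k w := rfl

theorem norm_cx (u : Fin GD.d → ℝ) : ∑ k with GD.q k ≠ 0, u k ^ 2 = ∑ k : Chg, ‖cz k u‖ ^ 2 := by
  rw [sum_chg]
  exact sum_congr rfl fun k _ => by rw [Complex.sq_norm, Complex.normSq_apply, sq, sq]; rfl

theorem exists_vec (a : Neu → ℝ) (z : Chg → ℂ) :
    ∃ u : Fin GD.d → ℝ, (∀ j : Neu, u j = a j) ∧ ∀ k : Chg, cz k u = z k := by
  let u := Sum.elim a fun p : Chg × Fin 2 => ![(z p.1).re, (z p.1).im] p.2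
  have e := fun i => congrArg u (dE.symm_apply_apply i)
  exact ⟨u ∘ dE.symm, fun j => e (.inl j), fun k => Complex.ext (e (.inr (k, 0))) (e (.inr (k, 1)))⟩

theorem vec_ext {u w : Fin GD.d → ℝ} (h : ∀ j : Neu, u j = w j) (h' : ∀ k : Chg, cz k u = cz k w) :
    u = w := funext fun k => by
  obtain ⟨j | ⟨j, i⟩, rfl⟩ := dIx_bij.2 k
  · exact h j
  · fin_cases i
    exacts [congrArg Complex.re (h' j), congrArg Complex.im (h' j)]

end Gp

open Gp

theorem conj_eA (θ : Ang) (j : Fin GD.d) : GD.rho (eA θ) * GD.e j * (GD.rho (eA θ))ᵀ =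
    (ph (GD.q j) θ).re • GD.e j + (ph (GD.q j) θ).im • GD.e (GD.tau j) := by
  induction θ using Ang.induction_on
  rw [rho_eA, GA.exp_tr (GD.anti GD.k0), GA.exp_rot (GD.br j) (by
    rw [GD.br, GD.q_tau, GD.tau_tau, Int.cast_neg, neg_div]), ph_coe, Complex.exp_ofReal_mul_I_re,
    Complex.exp_ofReal_mul_I_im]

theorem adq_cS_apply (g : S3) (b : C3) (k : Fin GD.d) : adq (cS g) b k =
    ∑ j, (GD.t ^ 2 * trace ((GD.e k)ᵀ * (GD.rho g * GD.e j * (GD.rho g)ᵀ)) : ℝ) * b j := by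
  have e0 : (GD.rho g).map ((↑) : ℝ → ℂ) = (cS g).m + 1 := by
    ext a c; simp [cS, cq, S3.q, one_apply, apply_ite Complex.ofReal]
  have e1 : ∀ j, (GD.rho g * GD.e j * (GD.rho g)ᵀ).map ((↑) : ℝ → ℂ) = ((cS g).m + 1) *
      (GD.e j).map (↑) * ((cS g).m + 1)ᵀ := fun j => by
    rw [← e0]; ext a c; simp [mul_apply]
  have e2 : (cS g * io b * star (cS g)).m = ((cS g).m + 1) * (io b).m * ((cS g).m + 1)ᵀ := by
    simp [io, show (cS g).re = 1 from Complex.ofReal_one, mul_add, add_mul]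
    abel
  rw [adq, co, e2]
  simp only [io, mul_sum, sum_mul, mul_smul_comm, smul_mul_assoc, ← e1, trace_sum,
    trace_smul, smul_eq_mul]
  refine sum_congr rfl fun j _ => ?_
  rw [mul_left_comm, mul_comm]
  simp [trace, mul_apply]

theorem adq_eA (θ : Ang) (b : C3) (k : Fin GD.d) : adq (cS (eA θ)) b k =
    ((ph (GD.q k) θ).re : ℂ) * b k - ((ph (GD.q k) θ).im : ℂ) * b (GD.tau k) := by
  have a : ∀ j, k = GD.tau j ↔ GD.tau k = j := fun j =>
    ⟨fun h => by rw [h, GD.tau_tau], fun h => by rw [← h, GD.tau_tau]⟩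
  simp only [adq_cS_apply, conj_eA, mul_add, mul_smul_comm, trace_add, trace_smul, smul_eq_mul,
    mul_left_comm (GD.t ^ 2), GD.on, a]
  simp only [mul_ite, mul_one, mul_zero, Complex.ofReal_add, apply_ite Complex.ofReal,
    Complex.ofReal_zero, add_mul, ite_mul, zero_mul, sum_add_distrib, sum_ite_eq, mem_univ, if_true,
    GD.q_tau, ph_neg, Complex.conj_im, Complex.ofReal_neg, neg_mul, sub_eq_add_neg]

theorem adq_eA_neu (θ : Ang) (b : C3) {k : Fin GD.d} (h : GD.q k = 0) : adq (cS (eA θ)) b k = b k := by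
  simp [adq_eA, h]

/-- real vectors as complex vectors -/
def Af.cR (v : Fin GD.d → ℝ) : C3 := fun k => v k

theorem Af.cR_apply (v : Fin GD.d → ℝ) (k : Fin GD.d) : Af.cR v k = v k := rfl

/-- matrix of the adjoint action -/
def Rm (g : S3) : Matrix (Fin GD.d) (Fin GD.d) ℝ :=
  Matrix.of fun k j => (adq (cS g) (Af.cR (Pi.single j 1)) k).re

theorem Rm_apply (g : S3) (k j : Fin GD.d) :
    Rm g k j = GD.t ^ 2 * trace ((GD.e k)ᵀ * (GD.rho g * GD.e j * (GD.rho g)ᵀ)) := by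
  simp only [Rm, of_apply, adq_cS_apply, Af.cR_apply, ← Complex.ofReal_mul, ← Complex.ofReal_sum,
    Complex.ofReal_re, Pi.single_apply, mul_ite, mul_one, mul_zero, sum_ite_eq', mem_univ, if_true]

theorem Rm_mulVec (g : S3) (v : Fin GD.d → ℝ) (k : Fin GD.d) :
    (((Rm g *ᵥ v) k : ℝ) : ℂ) = adq (cS g) (Af.cR v) k := by
  simp only [mulVec, dotProduct, Rm_apply, adq_cS_apply, Af.cR_apply, ← Complex.ofReal_mul,
    ← Complex.ofReal_sum]

theorem Rm_eA (θ : Ang) (u : Fin GD.d → ℝ) (k : Fin GD.d) : (Rm (eA θ) *ᵥ u) k =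
    (ph (GD.q k) θ).re * u k - (ph (GD.q k) θ).im * u (GD.tau k) := by
  apply Complex.ofReal_injective
  rw [Rm_mulVec, adq_eA]
  push_cast
  rfl

theorem Gp.Rm_zero (θ : Ang) (u : Fin GD.d → ℝ) {k : Fin GD.d} (h : GD.q k = 0) :
    (Rm (eA θ) *ᵥ u) k = u k := by simp [Rm_eA, h]

theorem Gp.Rm_cx (θ : Ang) (u : Fin GD.d → ℝ) (k : Fin GD.d) :
    cz k (Rm (eA θ) *ᵥ u) = ph (GD.q k) θ * cz k u := by
  apply Complex.ext <;> simp [cz, Rm_eA, GD.q_tau, GD.tau_tau, ph_neg]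

/-- the chart coordinate on the circle subgroup -/
def tnA (s : ℝ) : ℝ := GD.t ^ 2 * trace ((GD.e GD.k0)ᵀ * exp (s • GD.e GD.k0))

theorem abs_tn_sub (x : ℝ) : |tnA x - x| ≤ |x| ^ 3 := by
  have a := GA.tr_exp (GD.anti GD.k0) x
  have b := GD.on GD.k0 GD.k0
  have c := t_norm_e GD.k0
  have t1 := GD.t1
  rw [if_pos rfl] at b
  rw [show tnA x - x = GD.t ^ 2 * (trace ((GD.e GD.k0)ᵀ * exp (x • GD.e GD.k0)) - x * trace ((GD.e GD.k0)ᵀ * GD.e GD.k0)) by
    rw [tnA]; linear_combination x * b, abs_mul, abs_of_nonneg (sq_nonneg _)]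
  refine (mul_le_mul_of_nonneg_left a (sq_nonneg _)).trans ?_
  rw [← mul_assoc]
  refine mul_le_of_le_one_left (by positivity) (le_of_mul_le_mul_left ?_ (pow_pos
    (one_pos.trans_le GD.t1) 2))
  nlinarith [congrArg (· ^ 4) c]

@[simp] theorem tn_zero : tnA 0 = 0 := by simpa using abs_tn_sub 0

/-- vectors in the direction `GD.k0` -/
def nA (x : ℂ) : C3 := Pi.single GD.k0 x

theorem ch_eA (θ : ℝ) : ch (cS (eA θ)) = nA (tnA θ) := by
  funext k
  have z : trace (GD.e k) = 0 := by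
    have := trace_transpose (GD.e k)
    rw [GD.anti, trace_neg] at this
    linarith
  have a : ch (cS (eA θ)) k = (GD.t ^ 2 * trace ((GD.e k)ᵀ * exp (θ • GD.e GD.k0)) : ℝ) := by
    rw [← rho_eA, show (GD.e k)ᵀ * GD.rho (eA θ) = (GD.e k)ᵀ * (eA θ).q.m + (GD.e k)ᵀ by
      simp [S3.q, mul_sub], trace_add, trace_transpose, z, add_zero]
    simp [ch, co, cS, cq, show (eA θ).q.re = 1 from rfl, trace, mul_apply]
  rw [a, nA]
  by_cases h : k = GD.k0
  · rw [h, Pi.single_eq_same, tnA]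
  rw [Pi.single_eq_of_ne h]
  by_cases h' : GD.q k = 0
  · rw [GA.tr_neutral (GD.anti _) (GD.anti _) (GD.orth GD.w) (GD.wfix k h' h) GD.w_k0, mul_zero, Complex.ofReal_zero]
  · have := GD.br (GD.tau k)
    rw [GD.tau_tau] at this
    rw [GA.tr_charged (GD.anti _) this (div_ne_zero (by simpa [GD.q_tau] using h') hh_pos.ne'), mul_zero,
      Complex.ofReal_zero]

theorem nA_apply (x : ℂ) (k : Fin GD.d) : nA x k = if k = GD.k0 then x else 0 :=
  Pi.single_apply _ _ _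

/-- the reflection of the circle subgroup -/
def wS : S3 := GD.w

theorem adq_w (x : ℂ) : adq (cS wS) (nA x) = -nA x := by
  funext k
  rw [adq_cS_apply, sum_eq_single GD.k0 (fun j _ h => by rw [nA_apply, if_neg h, mul_zero])
    (by simp), wS, GD.w_k0, mul_neg, trace_neg, mul_neg, GD.on]
  change _ = -nA x k
  simp only [nA_apply]
  split_ifs <;> simp

theorem adq_eA_nA (θ : Ang) (x : ℂ) : adq (cS (eA θ)) (nA x) = nA x := by
  funext k
  by_cases h : GD.q k = 0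
  · exact adq_eA_neu θ _ h
  have a : ∀ {j}, GD.q j ≠ 0 → nA x j = 0 := fun {j} h => by
    rw [nA_apply, if_neg fun e : j = GD.k0 => h (e ▸ GD.q_k0)]
  rw [adq_eA, a h, a (by rwa [GD.q_tau, neg_ne_zero]), mul_zero, mul_zero, sub_zero]

theorem norm_neutral (x : ℝ) : ‖nA x‖ ≤ |x| :=
  ((PiLp.norm_toLp_single 2 (fun _ => ℂ) _ _).trans (Complex.norm_real x)).le

theorem ex_tan {x : ℝ} (h : |x| ≤ 1 / 2) : ex (nA (tnA x)) = cS (eA x) ∧ ‖nA (tnA x)‖ ≤ 2 * |x| := by
  refine ⟨by rw [← ch_eA, ex_ch ((norm_eA x).trans (by linarith))], (norm_neutral _).trans ?_⟩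
  have h1 := abs_add_le (tnA x - x) x
  rw [sub_add_cancel] at h1
  linarith [abs_tn_sub x, pow_le_of_le_one (abs_nonneg x) (by linarith) (three_ne_zero)]

/-- the twist -/
def twA : ℝ := 2 * Real.pi * GD.hh / 3

/-- an element of order three of the circle subgroup -/
def zA : S3 := eA twA

theorem ph_tw {k : Fin GD.d} (h : GD.q k ≠ 0) :
    1 + ph (GD.q k) twA + ph (GD.q k) twA ^ 2 = 0 ∧ ‖1 - ph (GD.q k) twA‖ ^ 2 = 3 := by
  have a : ph (GD.q k) twA ^ 3 = 1 := by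
    rw [← card_range 3, ← prod_const, ph_sum, sum_const, card_range, ← Ang.coe_nsmul,
      show ((3 • twA : ℝ) : Ang) = (0 : ℝ) from Ang.eq_iff.2 ⟨1, by simp [twA]; ring⟩]
    exact ph_zero _
  have b : ph (GD.q k) twA ≠ 1 := fun b => by
    rw [ph_coe, Complex.exp_eq_one_iff] at b
    obtain ⟨n, hn⟩ := b
    have := hh_pos
    have p := Real.pi_pos
    have c : (GD.q k / GD.hh * twA : ℝ) = n * (2 * Real.pi) := by
      have := congrArg Complex.im hn
      simpa using this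
    have c2 : (GD.q k : ℝ) = 3 * n := by
      rw [twA] at c
      field_simp at c
      linarith
    have c3 : GD.q k = 3 * n := by exact_mod_cast c2
    have := abs_le.1 (GD.q_le k)
    omega
  have c : 1 + ph (GD.q k) twA + ph (GD.q k) twA ^ 2 = 0 :=
    (mul_eq_zero.1 (by linear_combination a)).resolve_left (sub_ne_zero.2 b)
  refine ⟨c, ?_⟩
  have n := Complex.normSq_eq_norm_sq (ph (GD.q k) twA)
  rw [norm_ph, Complex.normSq_apply] at n
  have c1 := congrArg Complex.re c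
  rw [Complex.sq_norm, Complex.normSq_apply]
  have c2 := congrArg Complex.im c
  simp [sq] at c1 c2 ⊢
  rcases eq_or_ne (ph (GD.q k) twA).im 0 with z | z
  · rw [z] at n c1; nlinarith
  · have : (ph (GD.q k) twA).re = -1 / 2 := mul_left_cancel₀ z (by linarith)
    nlinarith

/-- the average over the subgroup of order three kills the charged components -/
theorem Rm_zA (u : Fin GD.d → ℝ) {k : Fin GD.d} (h : GD.q k ≠ 0) :
    u k + (Rm zA *ᵥ u) k + (Rm zA *ᵥ Rm zA *ᵥ u) k = 0 := by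
  have := congrArg (· * cz k u) (ph_tw h).1
  simp only [add_mul, one_mul, sq, mul_assoc, zero_mul, ← Rm_cx] at this
  exact congrArg Complex.re this

end Pool.Agent.Lib.MP_7f377f_mp.RG.Q4
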