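import Mathlib

/-! Abstract part of the adapted basis: integrality of weights, normal form of skew maps,
su(2) triples and the Schur lemma for an invariant inner product. -/

noncomputable section

namespace Pool.Agent.Lib.MP_7f377f_mp.B7b

open Module
open scoped RealInnerProductSpace

attribute [local instance 100] LieRing.ofAssociativeRing

/-- every real eigenvalue of the middle element of an sl2 triple is an integer -/
theorem sl2_int {W : Type*} [AddCommGroup W] [Module ℝ W] [Module.Finite ℝ W]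
    (H E F : Module.End ℝ W) (h1 : E * F - F * E = H) (h2 : H * E - E * H = (2 : ℝ) • E)
    (h3 : H * F - F * H = -((2 : ℝ) • F)) (u : W) (hu : u ≠ 0) (κ : ℝ) (hH : H u = κ • u) :
    ∃ m : ℤ, κ = m := by
  by_cases hκ : κ = 0
  · exact ⟨0, by simpa using hκ⟩
  have hH0 : H ≠ 0 := by
    intro h0
    rw [h0] at hH
    exact hu ((smul_eq_zero.mp hH.symm).resolve_left hκ)
  have t : IsSl2Triple H E F :=
    { h_ne_zero := hH0
      lie_e_f := by rw [Ring.lie_def, h1]
      lie_h_e_nsmul := by rw [Ring.lie_def, h2, two_smul, two_smul]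
      lie_h_f_nsmul := by rw [Ring.lie_def, h3, two_smul, two_smul] }
  have hk : ∀ k : ℕ, H ((E ^ k) u) = (κ + 2 * k) • (E ^ k) u := by
    intro k
    induction k with
    | zero => simpa using hH
    | succ k ih =>
      have e1 : H * E = E * H + (2 : ℝ) • E := by rw [← h2]; abel
      have e2 : H ((E ^ (k + 1)) u) = (H * E) ((E ^ k) u) := by
        rw [pow_succ', Module.End.mul_apply, Module.End.mul_apply]
      rw [e2, e1, LinearMap.add_apply, Module.End.mul_apply, ih, map_smul, LinearMap.smul_apply,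
        pow_succ', Module.End.mul_apply, ← add_smul]
      congr 1
      push_cast
      ring
  have hex : ∃ k : ℕ, (E ^ k) u = 0 := by
    by_contra hc
    push Not at hc
    have hinf : (Set.range fun k : ℕ => κ + 2 * (k : ℝ)).Infinite := by
      refine Set.infinite_range_of_injective ?_
      intro a b hab
      have : (a : ℝ) = b := by
        have := hab
        simp only at this
        linarith
      exact_mod_cast this
    refine hinf ((Module.End.finite_hasEigenvalue H).subset ?_)
    rintro _ ⟨k, rfl⟩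
    exact Module.End.hasEigenvalue_of_hasEigenvector
      (Module.End.hasEigenvector_iff.mpr ⟨Module.End.mem_eigenspace_iff.mpr (hk k), hc k⟩)
  have h0 : ¬ ((E ^ 0) u = 0) := by simpa using hu
  obtain ⟨k, hk1, hk2⟩ := Nat.exists_not_and_succ_of_not_zero_of_exists
    (p := fun k => (E ^ k) u = 0) h0 hex
  have P : t.HasPrimitiveVectorWith ((E ^ k) u) (κ + 2 * k) :=
    { ne_zero := hk1
      lie_h := by rw [Module.End.lie_apply]; exact hk k
      lie_e := by
        rw [Module.End.lie_apply, ← Module.End.mul_apply, ← pow_succ']; exact hk2 }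
  obtain ⟨n, hn⟩ := P.exists_nat
  exact ⟨(n : ℤ) - 2 * k, by push_cast; linarith⟩

/-- weights of an su(2) triple are half integers -/
theorem su2_int {W : Type*} [AddCommGroup W] [Module ℝ W] [Module.Finite ℝ W]
    (X Y Z : Module.End ℝ W) (μ : ℝ) (hμ : μ ≠ 0) (h1 : X * Y - Y * X = μ • Z)
    (h2 : Y * Z - Z * Y = μ • X) (h3 : Z * X - X * Z = μ • Y) (a b : W) (ha : a ≠ 0) (c : ℝ)
    (hab : X a = c • b) (hba : X b = -(c • a)) : ∃ m : ℤ, c = μ * m / 2 := by
  have p1 : ∀ w, X (Y w) = Y (X w) + μ • Z w := fun w => by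
    have := congrArg (fun T : Module.End ℝ W => T w) h1
    simp only [LinearMap.sub_apply, Module.End.mul_apply, LinearMap.smul_apply] at this
    rw [← this]; abel
  have p2 : ∀ w, Y (Z w) = Z (Y w) + μ • X w := fun w => by
    have := congrArg (fun T : Module.End ℝ W => T w) h2
    simp only [LinearMap.sub_apply, Module.End.mul_apply, LinearMap.smul_apply] at this
    rw [← this]; abel
  have p3 : ∀ w, X (Z w) = Z (X w) - μ • Y w := fun w => by
    have := congrArg (fun T : Module.End ℝ W => T w) h3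
    simp only [LinearMap.sub_apply, Module.End.mul_apply, LinearMap.smul_apply] at this
    rw [← this]; abel
  let J : Module.End ℝ (W × W) :=
    (-(LinearMap.snd ℝ W W)).prod (LinearMap.fst ℝ W W)
  let X' : Module.End ℝ (W × W) := X.prodMap X
  let Y' : Module.End ℝ (W × W) := Y.prodMap Y
  let Z' : Module.End ℝ (W × W) := Z.prodMap Z
  have hm : ∀ (x : W), μ⁻¹ • μ • x = x := fun x => by rw [smul_smul, inv_mul_cancel₀ hμ, one_smul]
  obtain ⟨m, hm'⟩ := sl2_int ((2 * μ⁻¹) • (J * X')) (μ⁻¹ • (Y' + J * Z')) (μ⁻¹ • (J * Z' - Y'))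
    (by
      refine LinearMap.ext fun w => ?_
      obtain ⟨w1, w2⟩ := w
      refine Prod.ext ?_ ?_ <;>
      · simp [J, X', Y', Z', p2, smul_add, smul_sub, smul_smul]
        match_scalars <;> field_simp <;> ring)
    (by
      refine LinearMap.ext fun w => ?_
      obtain ⟨w1, w2⟩ := w
      refine Prod.ext ?_ ?_ <;>
      · simp [J, X', Y', Z', p1, p3, smul_add, smul_sub, smul_smul]
        match_scalars <;> field_simp <;> ring)
    (by
      refine LinearMap.ext fun w => ?_
      obtain ⟨w1, w2⟩ := w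
      refine Prod.ext ?_ ?_ <;>
      · simp [J, X', Y', Z', p1, p3, smul_add, smul_sub, smul_smul]
        match_scalars <;> field_simp <;> ring)
    (a, b) (fun h => ha (congrArg Prod.fst h)) (2 * μ⁻¹ * c)
    (by
      refine Prod.ext ?_ ?_ <;> simp [J, X', hab, hba, smul_smul])
  refine ⟨m, ?_⟩
  rw [← hm']
  field_simp

variable {V : Type*} [NormedAddCommGroup V] [InnerProductSpace ℝ V] [FiniteDimensional ℝ V]

/-- an orthonormal finite set on which the map acts by blocks of size one or two -/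
def Good (T : V →ₗ[ℝ] V) (S : Finset V) : Prop :=
  (∀ v ∈ S, ‖v‖ = 1) ∧ (∀ v ∈ S, ∀ w ∈ S, v ≠ w → ⟪v, w⟫ = 0) ∧
    ∀ v ∈ S, T v = 0 ∨ ∃ c : ℝ, c ≠ 0 ∧ ∃ w ∈ S, T v = c • w ∧ T w = -(c • v)

omit [FiniteDimensional ℝ V] in
theorem Good.on {T : V →ₗ[ℝ] V} {S : Finset V} (h : Good T S) :
    Orthonormal ℝ (fun v : S => (v : V)) := by
  refine ⟨fun v => h.1 v v.2, fun v w hvw => h.2.1 v v.2 w w.2 fun e => hvw (Subtype.ext e)⟩

theorem Good.card_le {T : V →ₗ[ℝ] V} {S : Finset V} (h : Good T S) : S.card ≤ finrank ℝ V := by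
  have := h.on.linearIndependent.fintype_card_le_finrank
  simpa using this

theorem Good.step {T : V →ₗ[ℝ] V} (hT : ∀ x y, ⟪T x, y⟫ = -⟪x, T y⟫) {S : Finset V}
    (h : Good T S) (hne : Submodule.span ℝ (S : Set V) ≠ ⊤) :
    ∃ S' : Finset V, Good T S' ∧ S ⊆ S' ∧ S.card < S'.card := by
  classical
  set U := (Submodule.span ℝ (S : Set V))ᗮ with hU
  have hUmem : ∀ u, u ∈ U ↔ ∀ v ∈ S, ⟪v, u⟫ = 0 := by
    intro u
    rw [hU, Submodule.mem_orthogonal]
    constructor
    · intro hu v hv
      exact hu v (Submodule.subset_span hv)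
    · intro hu v hv
      induction hv using Submodule.span_induction with
      | mem x hx => exact hu x hx
      | zero => simp
      | add x y _ _ hx hy => rw [inner_add_left, hx, hy, add_zero]
      | smul r x _ hx => rw [real_inner_smul_left, hx, mul_zero]
  have hTU : ∀ u ∈ U, T u ∈ U := by
    intro u hu
    rw [hUmem] at hu ⊢
    intro v hv
    have e : ⟪v, T u⟫ = -⟪T v, u⟫ := by rw [hT, neg_neg]
    rw [e]
    rcases h.2.2 v hv with h0 | ⟨c, -, w, hw, h1, -⟩
    · rw [h0]; simp
    · rw [h1, real_inner_smul_left, hu w hw]; simp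
  have hUne : U ≠ ⊥ := by
    intro hb
    exact hne (Submodule.orthogonal_eq_bot_iff.mp hb)
  have : Nontrivial U := Submodule.nontrivial_iff_ne_bot.mpr hUne
  let T' : U →ₗ[ℝ] U := T.restrict hTU
  have hsym : (T' ∘ₗ T').IsSymmetric := by
    intro x y
    change ⟪T (T (x : V)), (y : V)⟫ = ⟪(x : V), T (T (y : V))⟫
    rw [hT, hT, neg_neg]
  have hpos : 0 < finrank ℝ U := Module.finrank_pos
  let bb := hsym.eigenvectorBasis rfl
  let i0 : Fin (finrank ℝ U) := ⟨0, hpos⟩
  have hev := hsym.apply_eigenvectorBasis rfl i0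
  set lam := hsym.eigenvalues rfl i0
  set v : V := (bb i0 : V) with hv
  have hvU : v ∈ U := (bb i0).2
  have hv1 : ‖v‖ = 1 := bb.orthonormal.1 i0
  have hTT : T (T v) = lam • v := by
    exact congrArg (fun x : U => (x : V)) hev
  have hnot : ∀ u ∈ U, ‖u‖ = 1 → u ∉ S := by
    intro u hu hu1 huS
    have := (hUmem u).mp hu u huS
    rw [real_inner_self_eq_norm_sq, hu1] at this
    norm_num at this
  by_cases hT0 : T v = 0
  · refine ⟨insert v S, ⟨?_, ?_, ?_⟩, Finset.subset_insert _ _, ?_⟩
    · intro x hx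
      rcases Finset.mem_insert.mp hx with rfl | hx
      · exact hv1
      · exact h.1 x hx
    · intro x hx y hy hxy
      rcases Finset.mem_insert.mp hx with hx | hx <;> rcases Finset.mem_insert.mp hy with hy | hy
      · exact absurd (hx.trans hy.symm) hxy
      · rw [hx, real_inner_comm]; exact (hUmem v).mp hvU y hy
      · rw [hy]; exact (hUmem v).mp hvU x hx
      · exact h.2.1 x hx y hy hxy
    · intro x hx
      rcases Finset.mem_insert.mp hx with hx | hx
      · left; rw [hx]; exact hT0
      · rcases h.2.2 x hx with h0 | ⟨c, hc, w, hw, h1, h2⟩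
        · exact Or.inl h0
        · exact Or.inr ⟨c, hc, w, Finset.mem_insert_of_mem hw, h1, h2⟩
    · rw [Finset.card_insert_of_notMem (hnot v hvU hv1)]; omega
  · set c := ‖T v‖ with hc
    have hc0 : c ≠ 0 := norm_ne_zero_iff.mpr hT0
    have hlam : lam = -c ^ 2 := by
      have e := hT v (T v)
      rw [real_inner_self_eq_norm_sq, hTT, real_inner_smul_right, real_inner_self_eq_norm_sq,
        hv1] at e
      rw [hc]; linarith
    set w : V := c⁻¹ • T v with hw
    have hwU : w ∈ U := U.smul_mem _ (hTU v hvU)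
    have hw1 : ‖w‖ = 1 := by
      rw [hw, norm_smul, norm_inv, Real.norm_of_nonneg (norm_nonneg _), ← hc, inv_mul_cancel₀ hc0]
    have hvw : ⟪v, w⟫ = 0 := by
      have e := hT v v
      rw [real_inner_comm] at e
      rw [hw, real_inner_smul_right]
      have : ⟪v, T v⟫ = 0 := by linarith
      rw [this, mul_zero]
    have hTv : T v = c • w := by rw [hw, smul_smul, mul_inv_cancel₀ hc0, one_smul]
    have hTw : T w = -(c • v) := by
      rw [hw, map_smul, hTT, smul_smul, hlam, ← neg_smul]
      congr 1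
      field_simp
    refine ⟨insert v (insert w S), ⟨?_, ?_, ?_⟩,
      (Finset.subset_insert _ _).trans (Finset.subset_insert _ _), ?_⟩
    · intro x hx
      simp only [Finset.mem_insert] at hx
      rcases hx with rfl | rfl | hx
      · exact hv1
      · exact hw1
      · exact h.1 x hx
    · intro x hx y hy hxy
      simp only [Finset.mem_insert] at hx hy
      rcases hx with hx | hx | hx <;> rcases hy with hy | hy | hy
      · exact absurd (hx.trans hy.symm) hxy
      · rw [hx, hy]; exact hvw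
      · rw [hx, real_inner_comm]; exact (hUmem v).mp hvU y hy
      · rw [hx, hy, real_inner_comm]; exact hvw
      · exact absurd (hx.trans hy.symm) hxy
      · rw [hx, real_inner_comm]; exact (hUmem w).mp hwU y hy
      · rw [hy]; exact (hUmem v).mp hvU x hx
      · rw [hy]; exact (hUmem w).mp hwU x hx
      · exact h.2.1 x hx y hy hxy
    · intro x hx
      simp only [Finset.mem_insert] at hx
      rcases hx with hx | hx | hx
      · right
        exact ⟨c, hc0, w, by simp, by rw [hx]; exact hTv, by rw [hx]; exact hTw⟩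
      · right
        refine ⟨-c, neg_ne_zero.mpr hc0, v, by simp, by rw [hx, hTw, neg_smul], ?_⟩
        rw [hx, hTv, neg_smul, neg_neg]
      · rcases h.2.2 x hx with h0 | ⟨c', hc', w', hw', h1, h2⟩
        · exact Or.inl h0
        · exact Or.inr ⟨c', hc', w', by simp [hw'], h1, h2⟩
    · calc S.card < (insert w S).card := by
            rw [Finset.card_insert_of_notMem (hnot w hwU hw1)]; omega
        _ ≤ _ := Finset.card_le_card (Finset.subset_insert _ _)

theorem Good.full {T : V →ₗ[ℝ] V} (hT : ∀ x y, ⟪T x, y⟫ = -⟪x, T y⟫) {S0 : Finset V}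
    (h : Good T S0) : ∃ S : Finset V, Good T S ∧ S0 ⊆ S ∧ Submodule.span ℝ (S : Set V) = ⊤ := by
  have key : ∀ k : ℕ, ∀ S1 : Finset V, Good T S1 → finrank ℝ V - S1.card ≤ k →
      ∃ S : Finset V, Good T S ∧ S1 ⊆ S ∧ Submodule.span ℝ (S : Set V) = ⊤ := by
    intro k
    induction k with
    | zero =>
      intro S1 h1 hk
      by_cases hs : Submodule.span ℝ (S1 : Set V) = ⊤
      · exact ⟨S1, h1, subset_rfl, hs⟩
      · obtain ⟨S', h', -, hc⟩ := h1.step hT hs
        have := h'.card_le
        omega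
    | succ k ih =>
      intro S1 h1 hk
      by_cases hs : Submodule.span ℝ (S1 : Set V) = ⊤
      · exact ⟨S1, h1, subset_rfl, hs⟩
      · obtain ⟨S', h', hss, hc⟩ := h1.step hT hs
        have := h'.card_le
        obtain ⟨S, a1, a2, a3⟩ := ih S' h' (by omega)
        exact ⟨S, a1, hss.trans a2, a3⟩
  exact key _ S0 h le_rfl

/-- normal form of a skew map -/
theorem skew_form {T : V →ₗ[ℝ] V} (hT : ∀ x y, ⟪T x, y⟫ = -⟪x, T y⟫) {S0 : Finset V}
    (h : Good T S0) : ∃ (e : OrthonormalBasis (Fin (finrank ℝ V)) ℝ V)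
      (τ : Fin (finrank ℝ V) → Fin (finrank ℝ V)) (c : Fin (finrank ℝ V) → ℝ),
      (∀ x ∈ S0, ∃ k, e k = x) ∧ (∀ k, τ (τ k) = k) ∧ (∀ k, c (τ k) = -c k) ∧
      (∀ k, c k = 0 → τ k = k) ∧ ∀ k, T (e k) = c k • e (τ k) := by
  classical
  obtain ⟨S, hS, hsub, hsp⟩ := h.full hT
  have hsp' : ⊤ ≤ Submodule.span ℝ (Set.range fun v : S => (v : V)) := by
    rw [Subtype.range_coe_subtype, ← hsp]; exact le_rfl
  let b0 : OrthonormalBasis S ℝ V := OrthonormalBasis.mk hS.on hsp'
  have hcard : Fintype.card S = finrank ℝ V := (Module.finrank_eq_card_basis b0.toBasis).symm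
  let σ : S ≃ Fin (finrank ℝ V) := Fintype.equivFinOfCardEq hcard
  let e := b0.reindex σ
  have he : ∀ k, e k = ((σ.symm k : S) : V) := fun k => by
    simp [e, b0, OrthonormalBasis.reindex_apply]
  have hall : ∀ k, ∃ (j : Fin (finrank ℝ V)) (c : ℝ), (c = 0 → j = k) ∧ T (e k) = c • e j ∧
      T (e j) = -(c • e k) := by
    intro k
    rcases hS.2.2 (e k) (by rw [he]; exact (σ.symm k).2) with h0 | ⟨c, hc, w, hw, h1, h2⟩
    · exact ⟨k, 0, fun _ => rfl, by simp [h0], by simp [h0]⟩
    · have hw' : e (σ ⟨w, hw⟩) = w := by rw [he]; simp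
      exact ⟨σ ⟨w, hw⟩, c, fun h0 => absurd h0 hc, by rw [hw']; exact h1, by rw [hw']; exact h2⟩
  choose τ c h1 h2 h3 using hall
  have huniq : ∀ (i j : Fin (finrank ℝ V)) (a b : ℝ), a • e i = b • e j → a ≠ 0 →
      i = j ∧ a = b := by
    intro i j a b hab ha
    have e1 := congrArg (fun x => ⟪e i, x⟫) hab
    simp only [real_inner_smul_right] at e1
    rw [real_inner_self_eq_norm_sq, e.orthonormal.1 i] at e1
    by_cases hij : i = j
    · subst hij
      rw [real_inner_self_eq_norm_sq, e.orthonormal.1 i] at e1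
      exact ⟨rfl, by linarith⟩
    · rw [e.orthonormal.2 hij] at e1
      exact absurd (by linarith) ha
  have hboth : ∀ k, τ (τ k) = k ∧ c (τ k) = -c k := by
    intro k
    by_cases hc : c k = 0
    · have := h1 k hc
      rw [this, this, hc]
      simp
    · have e1 : (-c k) • e k = c (τ k) • e (τ (τ k)) := by rw [← h2, h3, neg_smul]
      have := huniq _ _ _ _ e1 (neg_ne_zero.mpr hc)
      exact ⟨this.1.symm, this.2.symm⟩
  refine ⟨e, τ, c, ?_, fun k => (hboth k).1, fun k => (hboth k).2, h1, h2⟩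
  intro x hx
  exact ⟨σ ⟨x, hsub hx⟩, by rw [he]; simp⟩

end Pool.Agent.Lib.MP_7f377f_mp.B7b
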