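import Pool.Agent.Lib.MP_7f377f_mp.G.GB7b1

/-! su(2) triples, adapted bases and the Schur lemma for an invariant inner product. -/

noncomputable section

namespace Pool.Agent.Lib.MP_7f377f_mp.B7b

open Module
open scoped RealInnerProductSpace

section V

variable {V : Type*} [NormedAddCommGroup V] [InnerProductSpace ℝ V] [FiniteDimensional ℝ V]

theorem su2_triple (br : V →ₗ[ℝ] V →ₗ[ℝ] V) (hsk : ∀ x y, br x y = -br y x)
    (hinv : ∀ z x y, ⟪br z x, y⟫ = -⟪x, br z y⟫) (hne : ∃ x y, br x y ≠ 0) :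
    ∃ (X Y Z : V) (μ : ℝ), 0 < μ ∧ ‖X‖ = 1 ∧ ‖Y‖ = 1 ∧ ‖Z‖ = 1 ∧ br X Y = μ • Z ∧
      br Y Z = μ • X ∧ br Z X = μ • Y ∧ ∀ a b, ‖br a b‖ ≤ μ * ‖a‖ * ‖b‖ := by
  obtain ⟨x0, y0, h0⟩ := hne
  have hx0 : x0 ≠ 0 := by rintro rfl; simp at h0
  have hy0 : y0 ≠ 0 := by rintro rfl; simp at h0
  let B : V →L[ℝ] V →L[ℝ] V :=
    LinearMap.toContinuousLinearMap
      ((LinearMap.toContinuousLinearMap (𝕜 := ℝ) (E := V) (F' := V)).toLinearMap ∘ₗ br)
  have hB : ∀ x y, B x y = br x y := fun _ _ => rfl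
  have hcont : Continuous fun p : V × V => ‖br p.1 p.2‖ := by
    have := B.continuous₂.norm
    exact this
  have hK : IsCompact (Metric.sphere (0 : V) 1 ×ˢ Metric.sphere (0 : V) 1) :=
    (isCompact_sphere _ _).prod (isCompact_sphere _ _)
  have hun : ∀ a : V, a ≠ 0 → ‖(‖a‖⁻¹ • a)‖ = 1 := fun a ha => by
    rw [norm_smul, norm_inv, norm_norm, inv_mul_cancel₀ (norm_ne_zero_iff.mpr ha)]
  obtain ⟨⟨X, Y⟩, hXY, hmax⟩ := hK.exists_isMaxOn
    ⟨(‖x0‖⁻¹ • x0, ‖y0‖⁻¹ • y0), by simp [hun x0 hx0, hun y0 hy0]⟩ hcont.continuousOn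
  have hX : ‖X‖ = 1 := by simpa using hXY.1
  have hY : ‖Y‖ = 1 := by simpa using hXY.2
  set μ := ‖br X Y‖ with hμ
  have hbd : ∀ a b, ‖br a b‖ ≤ μ * ‖a‖ * ‖b‖ := by
    intro a b
    by_cases ha : a = 0
    · simp [ha]
    by_cases hb : b = 0
    · simp [hb]
    have h1 : ‖br (‖a‖⁻¹ • a) (‖b‖⁻¹ • b)‖ ≤ μ :=
      hmax (a := (‖a‖⁻¹ • a, ‖b‖⁻¹ • b)) (by simp [hun a ha, hun b hb])
    have ha' : 0 < ‖a‖ := norm_pos_iff.mpr ha
    have hb' : 0 < ‖b‖ := norm_pos_iff.mpr hb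
    have e : br a b = (‖a‖ * ‖b‖) • br (‖a‖⁻¹ • a) (‖b‖⁻¹ • b) := by
      simp only [map_smul, LinearMap.smul_apply, smul_smul]
      rw [show ‖a‖ * ‖b‖ * (‖b‖⁻¹ * ‖a‖⁻¹) = 1 by field_simp, one_smul]
    rw [e, norm_smul, Real.norm_of_nonneg (by positivity)]
    nlinarith [mul_pos ha' hb']
  have hμ0 : 0 < μ := by
    have h1 := hbd x0 y0
    have h2 : 0 < ‖br x0 y0‖ := norm_pos_iff.mpr h0
    by_contra hc
    have : μ = 0 := le_antisymm (not_lt.mp hc) (norm_nonneg _)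
    rw [this] at h1
    linarith
  set Z : V := μ⁻¹ • br X Y with hZ
  have hXYZ : br X Y = μ • Z := by rw [hZ, smul_smul, mul_inv_cancel₀ hμ0.ne', one_smul]
  have hZ1 : ‖Z‖ = 1 := by
    rw [hZ, norm_smul, norm_inv, Real.norm_of_nonneg hμ0.le, ← hμ, inv_mul_cancel₀ hμ0.ne']
  have eqc : ∀ u a : V, ‖a‖ = 1 → ‖u‖ ≤ μ → ⟪u, a⟫ = μ → u = μ • a := by
    intro u a ha hu hi
    have e : ‖u - μ • a‖ ^ 2 = ‖u‖ ^ 2 - μ ^ 2 := by
      rw [norm_sub_sq_real, real_inner_smul_right, hi, norm_smul, ha,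
        Real.norm_of_nonneg hμ0.le]
      ring
    have : ‖u - μ • a‖ ^ 2 ≤ 0 := by rw [e]; nlinarith [norm_nonneg u]
    have : ‖u - μ • a‖ = 0 := by nlinarith [norm_nonneg (u - μ • a)]
    exact sub_eq_zero.mp (norm_eq_zero.mp this)
  have hzz : ⟪br X Y, Z⟫ = μ := by
    rw [hXYZ, real_inner_smul_left, real_inner_self_eq_norm_sq, hZ1]; simp
  refine ⟨X, Y, Z, μ, hμ0, hX, hY, hZ1, hXYZ, ?_, ?_, hbd⟩
  · refine eqc _ _ hX (by simpa [hY, hZ1] using hbd Y Z) ?_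
    rw [hinv, hsk Y X, inner_neg_right, neg_neg, real_inner_comm, hzz]
  · refine eqc _ _ hY (by simpa [hX, hZ1] using hbd Z X) ?_
    rw [hsk Z X, inner_neg_left, hinv, neg_neg, real_inner_comm, hzz]

theorem schur_abs (br : V →ₗ[ℝ] V →ₗ[ℝ] V) (hsk : ∀ x y, br x y = -br y x)
    (hinv : ∀ z x y, ⟪br z x, y⟫ = -⟪x, br z y⟫)
    (hcen : ∀ x, (∀ y, br x y = 0) → x = 0)
    (hsim : ∀ I : Submodule ℝ V, (∀ x, ∀ y ∈ I, br x y ∈ I) → I = ⊥ ∨ I = ⊤)
    (f : V →ₗ[ℝ] V) (hf : ∀ x y, f (br x y) = br x (f y)) : ∃ a : ℝ, ∀ y, f y = a • y := by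
  have hadj : ∀ x, f x = LinearMap.adjoint f x := by
    intro x
    refine sub_eq_zero.mp (hcen _ fun y => ?_)
    refine ext_inner_right ℝ fun z => ?_
    have e1 : ⟪br (LinearMap.adjoint f x) y, z⟫ = ⟪br x y, f z⟫ := by
      rw [hsk, inner_neg_left, hinv, neg_neg, LinearMap.adjoint_inner_left, hf, hsk x y,
        inner_neg_left, hinv, neg_neg]
    have e2 : ⟪br (f x) y, z⟫ = ⟪br x y, f z⟫ := by
      rw [hinv, hsk (f x) z, ← hf, hsk z x, map_neg, neg_neg, hf, hinv]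
    rw [map_sub, LinearMap.sub_apply, inner_sub_left, e1, e2, sub_self, inner_zero_left]
  have hsym : f.IsSymmetric := by
    intro x y
    rw [hadj x, LinearMap.adjoint_inner_left]
  rcases subsingleton_or_nontrivial V with hV | hV
  · exact ⟨0, fun y => Subsingleton.elim _ _⟩
  have hpos : 0 < finrank ℝ V := Module.finrank_pos
  let i0 : Fin (finrank ℝ V) := ⟨0, hpos⟩
  have hev := hsym.hasEigenvector_eigenvectorBasis rfl i0
  set lam : ℝ := hsym.eigenvalues rfl i0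
  rcases hsim (Module.End.eigenspace f lam) (fun x y hy => by
      rw [Module.End.mem_eigenspace_iff] at hy ⊢
      rw [hf, hy, map_smul]) with h | h
  · exact absurd h (Module.End.hasEigenvalue_iff.mp (Module.End.hasEigenvalue_of_hasEigenvector hev))
  · exact ⟨lam, fun y => Module.End.mem_eigenspace_iff.mp (h ▸ Submodule.mem_top)⟩

omit [FiniteDimensional ℝ V] in
/-- a vector commuting with the first member of a maximal triple and orthogonal to it commutes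
with the second member -/
theorem neutral_comm (br : V →ₗ[ℝ] V →ₗ[ℝ] V) (hsk : ∀ x y, br x y = -br y x)
    (hjac : ∀ x y z, br (br x y) z = br x (br y z) - br y (br x z))
    (hinv : ∀ z x y, ⟪br z x, y⟫ = -⟪x, br z y⟫) (X Y Z : V) (μ : ℝ) (hμ : 0 < μ) (hX : ‖X‖ = 1)
    (h1 : br X Y = μ • Z) (h3 : br Z X = μ • Y) (hbd : ∀ a b, ‖br a b‖ ≤ μ * ‖a‖ * ‖b‖)
    (N : V) (hN : br X N = 0) (hXN : ⟪X, N⟫ = 0) : br Y N = 0 := by
  have key : ∀ a b : V, br X a = μ • b → br X b = -(μ • a) → ⟪br a b, N⟫ = 0 := by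
    intro a b ha hb
    have e1 : ‖a‖ ^ 2 = ‖b‖ ^ 2 := by
      have := hinv X a b
      rw [ha, hb, real_inner_smul_left, inner_neg_right, neg_neg, real_inner_smul_right,
        real_inner_self_eq_norm_sq, real_inner_self_eq_norm_sq] at this
      exact (mul_left_cancel₀ hμ.ne' this).symm
    have e2 : ‖a‖ = ‖b‖ := (pow_left_inj₀ (norm_nonneg _) (norm_nonneg _) two_ne_zero).mp e1
    have e3 : ⟪br a b, X⟫ = μ * ‖b‖ ^ 2 := by
      rw [hinv, hsk a X, inner_neg_right, neg_neg, ha, real_inner_smul_right,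
        real_inner_self_eq_norm_sq]
    have e4 : ‖br a b‖ ≤ μ * ‖b‖ ^ 2 := by
      have := hbd a b
      rw [e2] at this
      linarith
    have hr : 0 ≤ μ * ‖b‖ ^ 2 := by positivity
    set r := μ * ‖b‖ ^ 2
    have e : ‖br a b - r • X‖ ^ 2 = ‖br a b‖ ^ 2 - r ^ 2 := by
      rw [norm_sub_sq_real, real_inner_smul_right, e3, norm_smul, hX, Real.norm_of_nonneg hr]
      ring
    have e5 : ‖br a b - r • X‖ ^ 2 ≤ 0 := by rw [e]; nlinarith [norm_nonneg (br a b)]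
    have e6 : ‖br a b - r • X‖ = 0 := by nlinarith [norm_nonneg (br a b - r • X)]
    rw [sub_eq_zero.mp (norm_eq_zero.mp e6), real_inner_smul_left, hXN, mul_zero]
  have hc : ∀ v, br X (br N v) = br N (br X v) := fun v => by
    have := hjac X N v
    rw [hN, map_zero, LinearMap.zero_apply] at this
    exact sub_eq_zero.mp this.symm
  have hXZ : br X Z = -(μ • Y) := by rw [hsk, h3]
  have a1 : br X (br N Y) = μ • br N Z := by rw [hc, h1, map_smul]
  have a2 : br X (br N Z) = μ • (-br N Y) := by rw [hc, hXZ, map_neg, map_smul, smul_neg]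
  have k1 := key Y Z h1 hXZ
  have k2 := key (br N Z) (-br N Y) a2 (by rw [map_neg, a1])
  have k3 := key (Y + br N Z) (Z + -br N Y) (by rw [map_add, h1, a2, smul_add])
    (by rw [map_add, map_neg, hXZ, a1, smul_add, neg_add])
  simp only [map_add, LinearMap.add_apply, inner_add_left, k1, k2] at k3
  have b1 : ⟪br Y (-br N Y), N⟫ = -‖br N Y‖ ^ 2 := by
    rw [hinv, hsk Y N, inner_neg_neg, real_inner_self_eq_norm_sq]
  have b2 : ⟪br (br N Z) Z, N⟫ = -‖br N Z‖ ^ 2 := by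
    rw [hsk, inner_neg_left, hinv, neg_neg, hsk Z N, inner_neg_right, real_inner_self_eq_norm_sq]
  rw [b1, b2] at k3
  have : ‖br N Y‖ = 0 := by nlinarith [sq_nonneg ‖br N Y‖, sq_nonneg ‖br N Z‖]
  rw [hsk, norm_eq_zero.mp this, neg_zero]

theorem adapted_abs (br : V →ₗ[ℝ] V →ₗ[ℝ] V) (hsk : ∀ x y, br x y = -br y x)
    (hjac : ∀ x y z, br (br x y) z = br x (br y z) - br y (br x z))
    (hinv : ∀ z x y, ⟪br z x, y⟫ = -⟪x, br z y⟫) (hne : ∃ x y, br x y ≠ 0) :
    ∃ (e : Fin (finrank ℝ V) → V) (k0 : Fin (finrank ℝ V))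
      (τ : Fin (finrank ℝ V) → Fin (finrank ℝ V)) (q : Fin (finrank ℝ V) → ℤ) (μ : ℝ) (Y Z : V),
      3 ≤ finrank ℝ V ∧ (∀ k j, ⟪e k, e j⟫ = if k = j then 1 else 0) ∧
      Submodule.span ℝ (Set.range e) = ⊤ ∧ (∀ k, τ (τ k) = k) ∧
      (∀ k, q k = 0 ∨ q k = 1 ∨ q k = -1 ∨ q k = 2 ∨ q k = -2) ∧ (∀ k, q (τ k) = -q k) ∧
      (∀ k, q k = 0 → τ k = k) ∧ q k0 = 0 ∧ 0 < μ ∧ ⟪Y, Y⟫ = 1 ∧ ⟪Z, Z⟫ = 1 ∧
      br (e k0) Y = μ • Z ∧ br Y Z = μ • e k0 ∧ br Z (e k0) = μ • Y ∧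
      (∀ k, br (e k0) (e k) = (μ * q k / 2) • e (τ k)) ∧
      0 < ∑ k, (μ * q k / 2) ^ 2 ∧ ∀ k, q k = 0 → k ≠ k0 → br Y (e k) = 0 := by
  classical
  obtain ⟨X, Y, Z, μ, hμ, hX, hY, hZ, h1, h2, h3, hbd⟩ := su2_triple br hsk hinv hne
  have hself : ∀ x, br x x = 0 := fun x => by
    have := hsk x x
    have e : (2 : ℝ) • br x x = 0 := by rw [two_smul]; nth_rewrite 1 [this]; simp
    exact (smul_eq_zero.mp e).resolve_left two_ne_zero
  have hperp : ∀ a b, ⟪br a b, a⟫ = 0 := fun a b => by rw [hinv, hself]; simp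
  have hG : Good (br X) {X} := by
    refine ⟨by simpa using hX, by simp, ?_⟩
    intro v hv
    left
    rw [Finset.mem_singleton.mp hv, hself]
  obtain ⟨e, τ, c, a1, a2, a3, a4, a5⟩ := skew_form (hinv X) hG
  obtain ⟨k0, hk0⟩ := a1 X (by simp)
  have hcomm : ∀ a b : V, br a * br b - br b * br a = br (br a b) := fun a b =>
    LinearMap.ext fun z => (hjac a b z).symm
  have hq : ∀ k, ∃ m : ℤ, c k = μ * m / 2 := fun k =>
    su2_int (br X) (br Y) (br Z) μ hμ.ne' (by rw [hcomm, h1, map_smul])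
      (by rw [hcomm, h2, map_smul]) (by rw [hcomm, h3, map_smul]) (e k) (e (τ k))
      (e.orthonormal.ne_zero k) (c k) (a5 k) (by rw [a5, a2, a3, neg_smul])
  choose q hq using hq
  have hcb : ∀ k, |c k| ≤ μ := fun k => by
    have := hbd X (e k)
    rw [a5, norm_smul, e.orthonormal.1, e.orthonormal.1, hX] at this
    simpa using this
  have h3le : 3 ≤ finrank ℝ V := by
    have o1 : ⟪X, Y⟫ = 0 := by
      have := hperp Y Z
      rw [h2, real_inner_smul_left] at this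
      exact (mul_eq_zero.mp this).resolve_left hμ.ne'
    have o2 : ⟪Y, Z⟫ = 0 := by
      have := hperp Z X
      rw [h3, real_inner_smul_left] at this
      exact (mul_eq_zero.mp this).resolve_left hμ.ne'
    have o3 : ⟪Z, X⟫ = 0 := by
      have := hperp X Y
      rw [h1, real_inner_smul_left] at this
      exact (mul_eq_zero.mp this).resolve_left hμ.ne'
    have o1' : ⟪Y, X⟫ = 0 := by rw [real_inner_comm]; exact o1
    have o2' : ⟪Z, Y⟫ = 0 := by rw [real_inner_comm]; exact o2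
    have o3' : ⟪X, Z⟫ = 0 := by rw [real_inner_comm]; exact o3
    have ho : Orthonormal ℝ ![X, Y, Z] := by
      refine ⟨fun i => ?_, fun i j hij => ?_⟩
      · fin_cases i <;> simp [hX, hY, hZ]
      · fin_cases i <;> fin_cases j <;>
          first
            | exact absurd rfl hij
            | exact o1 | exact o2 | exact o3 | exact o1' | exact o2' | exact o3'
    simpa using ho.linearIndependent.fintype_card_le_finrank
  have hpos : 0 < ∑ k, c k ^ 2 := by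
    by_contra hc
    have h0 : ∑ k, c k ^ 2 = 0 :=
      le_antisymm (not_lt.mp hc) (Finset.sum_nonneg fun k _ => sq_nonneg _)
    rw [Finset.sum_eq_zero_iff_of_nonneg (fun k _ => sq_nonneg _)] at h0
    have hz : br X = 0 := e.toBasis.ext fun k => by
      have : c k = 0 := pow_eq_zero_iff two_ne_zero |>.mp (h0 k (Finset.mem_univ _))
      simp [a5, this]
    rw [hz] at h1
    have : Z = 0 := (smul_eq_zero.mp h1.symm).resolve_left hμ.ne'
    rw [this] at hZ
    simp at hZ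
  have hq0 : ∀ k, q k = 0 ↔ c k = 0 := fun k => by
    rw [hq k]
    constructor
    · intro h; simp [h]
    · intro h
      have : (q k : ℝ) = 0 := by
        have : μ * q k = 0 := by linarith
        exact (mul_eq_zero.mp this).resolve_left hμ.ne'
      exact_mod_cast this
  refine ⟨e, k0, τ, q, μ, Y, Z, h3le, fun k j => orthonormal_iff_ite.mp e.orthonormal k j,
    by rw [← e.coe_toBasis]; exact e.toBasis.span_eq, a2, fun k => ?_, fun k => ?_,
    fun k h => a4 k ((hq0 k).mp h), ?_, hμ, by rw [real_inner_self_eq_norm_sq, hY]; simp,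
    by rw [real_inner_self_eq_norm_sq, hZ]; simp, by rw [hk0, h1], by rw [hk0, h2],
    by rw [hk0, h3], fun k => by rw [hk0, a5, hq], by simpa only [← hq] using hpos,
    fun k h hk => neutral_comm br hsk hjac hinv X Y Z μ hμ hX h1 h3 hbd (e k)
      (by rw [a5, (hq0 k).mp h, zero_smul]) (by rw [← hk0]; exact e.orthonormal.2 hk.symm)⟩
  · have := abs_le.mp (hcb k)
    rw [hq k] at this
    have b1 : (-2 : ℝ) ≤ q k := by nlinarith [this.1]
    have b2 : (q k : ℝ) ≤ 2 := by nlinarith [this.2]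
    have b1' : -2 ≤ q k := by exact_mod_cast b1
    have b2' : q k ≤ 2 := by exact_mod_cast b2
    omega
  · have := a3 k
    rw [hq, hq] at this
    have e1 : μ * ((q (τ k) : ℝ) + q k) = 0 := by linarith
    have e2 : (q (τ k) : ℝ) + q k = 0 := (mul_eq_zero.mp e1).resolve_left hμ.ne'
    have e3 : q (τ k) + q k = 0 := by exact_mod_cast e2
    omega
  · rw [hq0]
    have := a5 k0
    rw [hk0, hself] at this
    exact (smul_eq_zero.mp this.symm).resolve_right (e.orthonormal.ne_zero _)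

end V

end Pool.Agent.Lib.MP_7f377f_mp.B7b
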