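import Pool.Agent.Lib.MP_7f377f_mp.G.GLoc

/-! The Lie algebra of a compact group of orthogonal matrices: local logarithm, antisymmetry, adjoint
action, Killing constant. -/

noncomputable section

namespace Pool.Agent.Lib.MP_7f377f_mp.GE

open NormedSpace Filter Topology Set Matrix

abbrev MR (N : ℕ) := Matrix (Fin N) (Fin N) ℝ

section Grp

variable {G : Type*} [Group G] {N : ℕ} (ρ : G →* MR N) (ho : ∀ a, (ρ a)ᵀ * ρ a = 1)
  (g : Submodule ℝ (MR N)) (hg : ∀ X, X ∈ g ↔ ∀ s : ℝ, exp (s • X) ∈ range ρ)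

open scoped Matrix.Norms.Frobenius in
theorem fro_eq (X : MR N) : ‖X‖ = √(∑ i, ∑ j, X i j ^ 2) := by
  rw [frobenius_norm_def, Real.sqrt_eq_rpow]
  simp

include ho in
theorem rho_inv (a : G) : ρ a⁻¹ = (ρ a)ᵀ := by
  rw [← one_mul (ρ a⁻¹), ← ho a, mul_assoc, ← map_mul, mul_inv_cancel, map_one, mul_one]

include hg in
set_option backward.isDefEq.respectTransparency false in
theorem loc_mat [TopologicalSpace G] [CompactSpace G] (hc : Continuous ρ) :
    ∃ δ > 0, ∀ a : G, √(∑ i, ∑ j, (ρ a - 1) i j ^ 2) ≤ δ → ∃ X ∈ g, ρ a = exp X ∧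
      √(∑ i, ∑ j, X i j ^ 2) ≤ 2 * √(∑ i, ∑ j, (ρ a - 1) i j ^ 2) := by
  open scoped Matrix.Norms.Frobenius in
  obtain ⟨δ, hδ, h⟩ := loc_alg (A := MR N) (range ρ) (isCompact_range hc).isClosed ⟨1, map_one ρ⟩
    (by rintro _ ⟨a, rfl⟩ _ ⟨b, rfl⟩; exact ⟨a * b, map_mul ρ a b⟩)
    (by
      rintro _ ⟨a, rfl⟩ b hb
      refine ⟨a⁻¹, ?_⟩
      rw [← one_mul (ρ a⁻¹), ← hb, mul_assoc, ← map_mul, mul_inv_cancel, map_one, mul_one])
    g hg (1 / 2) (by norm_num)
  refine ⟨δ, hδ, fun a ha => ?_⟩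
  obtain ⟨X, hX, h1, h2⟩ := h _ ⟨a, rfl⟩ (by rw [fro_eq]; exact ha)
  rw [fro_eq, fro_eq] at h2
  exact ⟨X, hX, h1, by linarith⟩

include ho hg in
set_option backward.isDefEq.respectTransparency false in
theorem anti_of_mem {X : MR N} (hX : X ∈ g) : Xᵀ = -X := by
  open scoped Matrix.Norms.Frobenius in
  have h1 := (hasDerivAt_exp_smul_const (𝕂 := ℝ) Xᵀ 0).mul (hasDerivAt_exp_smul_const (𝕂 := ℝ) X 0)
  have h2 : ((fun u : ℝ => exp (u • Xᵀ)) * fun u : ℝ => exp (u • X)) = fun _ => (1 : MR N) := by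
    funext u
    obtain ⟨a, ha⟩ := (hg X).1 hX u
    simp only [Pi.mul_apply]
    rw [← transpose_smul, exp_transpose, ← ha, ho]
  rw [h2] at h1
  have h3 := h1.unique (hasDerivAt_const (0 : ℝ) (1 : MR N))
  simp only [zero_smul, exp_zero, one_mul, mul_one] at h3
  exact eq_neg_of_add_eq_zero_left h3

include ho in
theorem exp_ad (a : G) (X : MR N) : exp (ρ a * X * (ρ a)ᵀ) = ρ a * exp X * (ρ a)ᵀ := by
  have hu : IsUnit (ρ a) := (Group.isUnit a).map ρ
  have hi : (ρ a)⁻¹ = (ρ a)ᵀ := inv_eq_left_inv (ho a)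
  rw [← hi, Matrix.exp_conj _ _ hu]

include ho hg in
theorem ad_mem (a : G) {X : MR N} (hX : X ∈ g) : ρ a * X * (ρ a)ᵀ ∈ g := by
  refine (hg _).2 fun s => ?_
  obtain ⟨b, hb⟩ := (hg X).1 hX s
  refine ⟨a * b * a⁻¹, ?_⟩
  rw [← smul_mul_assoc, ← mul_smul_comm, exp_ad ρ ho, ← hb, map_mul, map_mul, rho_inv ρ ho]

include hg in
theorem exp_mem {X : MR N} (hX : X ∈ g) : exp X ∈ range ρ := by
  simpa using (hg X).1 hX 1

end Grp

section Bas

variable {N d : ℕ} (u : Fin d → MR N)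
  (hu : ∀ k j, trace ((u k)ᵀ * u j) = if k = j then 1 else 0)

include hu in
theorem expand {X : MR N} (hX : X ∈ Submodule.span ℝ (range u)) :
    ∑ k, trace ((u k)ᵀ * X) • u k = X := by
  obtain ⟨c, rfl⟩ := (Submodule.mem_span_range_iff_exists_fun ℝ).1 hX
  refine Finset.sum_congr rfl fun k _ => ?_
  simp [Finset.mul_sum, hu]

/-- the basis of the span of an orthonormal family -/
def bas (g : Submodule ℝ (MR N)) (hs : Submodule.span ℝ (range u) = g) : Module.Basis (Fin d) ℝ g :=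
  Module.Basis.ofEquivFun
    { toFun := fun X k => trace ((u k)ᵀ * X.1)
      map_add' := fun X Y => by funext k; simp [mul_add]
      map_smul' := fun c X => by funext k; simp
      invFun := fun v => ⟨∑ k, v k • u k, hs ▸ Submodule.sum_mem _ fun k _ =>
        Submodule.smul_mem _ _ (Submodule.subset_span ⟨k, rfl⟩)⟩
      left_inv := fun X => Subtype.ext (expand u hu (hs ▸ X.2))
      right_inv := fun v => by funext k; simp [Finset.mul_sum, hu] }

theorem bas_repr (g : Submodule ℝ (MR N)) (hs : Submodule.span ℝ (range u) = g) (X : g) (k : Fin d) :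
    (bas u hu g hs).repr X k = trace ((u k)ᵀ * X.1) := rfl

theorem bas_coe (g : Submodule ℝ (MR N)) (hs : Submodule.span ℝ (range u) = g) (k : Fin d) :
    (bas u hu g hs k : MR N) = u k := by
  simp [bas, Pi.single_apply]

include hu in
theorem finrank_span (g : Submodule ℝ (MR N)) (hs : Submodule.span ℝ (range u) = g) :
    Module.finrank ℝ g = d := by
  simpa using Module.finrank_eq_card_basis (bas u hu g hs)

theorem trace_bas (g : Submodule ℝ (MR N)) (hs : Submodule.span ℝ (range u) = g) (S : g →ₗ[ℝ] g) :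
    LinearMap.trace ℝ g S = ∑ k, trace ((u k)ᵀ * (S (bas u hu g hs k)).1) := by
  rw [LinearMap.trace_eq_matrix_trace ℝ (bas u hu g hs)]
  simp [Matrix.trace, LinearMap.toMatrix_apply, bas_repr]

end Bas

end Pool.Agent.Lib.MP_7f377f_mp.GE
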