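import Pool.Agent.Lib.MP_7f377f_mp.G.GB7b2
import Pool.Agent.Lib.MP_7f377f_mp.G.GLocM

/-! A simple Lie algebra of antisymmetric matrices: su(2) triple, adapted orthonormal basis, Weyl element,
Schur property. -/

noncomputable section

namespace Pool.Agent.Lib.MP_7f377f_mp.GE

open NormedSpace Set Matrix Module
open scoped RealInnerProductSpace

attribute [local instance 100] LieRing.ofAssociativeRing

/-- rotation formula in a complete normed algebra -/
theorem exp_rot_alg {A : Type*} [NormedRing A] [NormedAlgebra ℝ A] [CompleteSpace A] (a b u w : A)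
    (c s : ℝ) (h1 : a * u - u * b = c • w) (h2 : a * w - w * b = -(c • u)) :
    exp (s • a) * u * exp (-(s • b)) = Real.cos (c * s) • u + Real.sin (c * s) • w := by
  let : NormedAlgebra ℚ A := NormedAlgebra.restrictScalars ℚ ℝ A
  let y : ℝ → A := fun r =>
    exp (r • (-a)) * (Real.cos (c * r) • u + Real.sin (c * r) • w) * exp (r • b)
  have hd : ∀ r, HasDerivAt y 0 r := by
    intro r
    have d0 : HasDerivAt (fun r : ℝ => c * r) c r := by simpa using (hasDerivAt_id r).const_mul c
    have d1 := ((hasDerivAt_exp_smul_const (𝕂 := ℝ) (-a) r).mul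
      ((d0.cos.smul_const u).add (d0.sin.smul_const w))).mul
      (hasDerivAt_exp_smul_const' (𝕂 := ℝ) b r)
    refine d1.congr_deriv ?_
    have e1 : a * u = u * b + c • w := by rw [← h1]; abel
    have e2 : a * w = w * b - c • u := by rw [sub_eq_iff_eq_add] at h2; rw [h2]; abel
    have e3 : (-a) * (Real.cos (c * r) • u + Real.sin (c * r) • w) +
        ((-Real.sin (c * r) * c) • u + (Real.cos (c * r) * c) • w) +
        (Real.cos (c * r) • u + Real.sin (c * r) • w) * b = 0 := by
      simp only [neg_mul, mul_add, add_mul, mul_smul_comm, smul_mul_assoc, e1, e2]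
      module
    calc _ = exp (r • (-a)) * ((-a) * (Real.cos (c * r) • u + Real.sin (c * r) • w) +
        ((-Real.sin (c * r) * c) • u + (Real.cos (c * r) * c) • w) +
        (Real.cos (c * r) • u + Real.sin (c * r) • w) * b) * exp (r • b) := by
          simp only [Pi.mul_apply, Pi.add_apply]
          noncomm_ring
      _ = 0 := by rw [e3]; simp
  have hc : y s = y 0 := is_const_of_deriv_eq_zero (fun r => (hd r).differentiableAt)
    (fun r => (hd r).deriv) s 0
  have h0 : y 0 = u := by simp [y]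
  have i1 : exp (s • a) * exp (s • (-a)) = 1 := by
    rw [← NormedSpace.exp_add_of_commute (((Commute.refl a).neg_right.smul_left s).smul_right s)]
    simp
  have i2 : exp (s • b) * exp (-(s • b)) = 1 := by
    rw [← NormedSpace.exp_add_of_commute (Commute.refl _).neg_right]
    simp
  have h4 : exp (s • a) * y s * exp (-(s • b)) = Real.cos (c * s) • u + Real.sin (c * s) • w := by
    simp only [y, ← mul_assoc, i1, one_mul]
    rw [mul_assoc, i2, mul_one]
  rw [← h4, hc, h0]

variable {N : ℕ}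

/-- rotation formula for matrices -/
theorem exp_rot (a b u w : MR N) (c s : ℝ) (h1 : a * u - u * b = c • w)
    (h2 : a * w - w * b = -(c • u)) :
    exp (s • a) * u * exp (-(s • b)) = Real.cos (c * s) • u + Real.sin (c * s) • w := by
  open scoped Matrix.Norms.Frobenius in exact exp_rot_alg a b u w c s h1 h2

/-- conjugation form of the rotation formula for an antisymmetric generator -/
theorem exp_rot_ad (a u w : MR N) (ha : aᵀ = -a) (c s : ℝ) (h1 : a * u - u * a = c • w)
    (h2 : a * w - w * a = -(c • u)) :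
    exp (s • a) * u * (exp (s • a))ᵀ = Real.cos (c * s) • u + Real.sin (c * s) • w := by
  rw [← Matrix.exp_transpose, transpose_smul, ha, smul_neg]
  exact exp_rot a a u w c s h1 h2

/-- the first member of an su(2) triple of antisymmetric matrices generates a circle -/
theorem exp_period (X Y Z : MR N) (μ : ℝ) (hμ : μ ≠ 0) (hX : Xᵀ = -X) (h1 : X * Y - Y * X = μ • Z)
    (h2 : Y * Z - Z * Y = μ • X) (h3 : Z * X - X * Z = μ • Y) :
    exp ((4 * Real.pi / μ) • X) = 1 := by
  classical
  let φ : MR N ≃ₐ[ℝ] Module.End ℝ (EuclideanSpace ℝ (Fin N)) :=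
    Matrix.toLinAlgEquiv (EuclideanSpace.basisFun (Fin N) ℝ).toBasis
  have hφ : ∀ (M : MR N) (v : EuclideanSpace ℝ (Fin N)), (φ M v).ofLp = M *ᵥ v.ofLp := by
    intro M v
    funext i
    simp [φ, Matrix.toLinAlgEquiv_apply, Pi.single_apply]
    rfl
  have hsk : ∀ x y, ⟪φ X x, y⟫ = -⟪x, φ X y⟫ := by
    intro x y
    rw [EuclideanSpace.inner_eq_star_dotProduct, EuclideanSpace.inner_eq_star_dotProduct, hφ, hφ]
    simp only [star_trivial]
    rw [dotProduct_mulVec, ← mulVec_transpose, hX, neg_mulVec, neg_dotProduct]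
  obtain ⟨e, τ, c, -, a2, a3, -, a5⟩ := B7b.skew_form (T := φ X) (S0 := ∅) hsk
    ⟨by simp, by simp, by simp⟩
  refine φ.injective (e.toBasis.ext fun k => ?_)
  obtain ⟨m, hm⟩ := B7b.su2_int (φ X) (φ Y) (φ Z) μ hμ
    (by rw [← map_mul, ← map_mul, ← map_sub, h1, map_smul])
    (by rw [← map_mul, ← map_mul, ← map_sub, h2, map_smul])
    (by rw [← map_mul, ← map_mul, ← map_sub, h3, map_smul]) (e k) (e (τ k))
    (e.orthonormal.ne_zero k) (c k) (a5 k) (by rw [a5, a2, a3, neg_smul])
  have hcol : ∀ (M : MR N) (v : EuclideanSpace ℝ (Fin N)),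
      M * vecMulVec v.ofLp (fun _ : Fin N => (1 : ℝ)) =
        vecMulVec (φ M v).ofLp (fun _ : Fin N => (1 : ℝ)) := by
    intro M v
    rw [hφ, mul_vecMulVec]
  have key := exp_rot X 0 (vecMulVec (e k).ofLp (fun _ : Fin N => (1 : ℝ)))
    (vecMulVec (e (τ k)).ofLp (fun _ : Fin N => (1 : ℝ))) (c k) (4 * Real.pi / μ)
    (by rw [hcol, a5]; ext i j; simp [vecMulVec_apply])
    (by rw [hcol, a5, a2, a3]; ext i j; simp [vecMulVec_apply])
  have e1 : c k * (4 * Real.pi / μ) = m * (2 * Real.pi) := by rw [hm]; field_simp; ring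
  have e2 : Real.sin (m * (2 * Real.pi)) = 0 := by
    simpa using Real.sin_add_int_mul_two_pi 0 m
  rw [e1, Real.cos_int_mul_two_pi, e2, smul_zero, neg_zero, exp_zero, mul_one, hcol, one_smul,
    zero_smul, add_zero] at key
  ext i
  have := congrFun (congrFun key i) i
  simpa [vecMulVec_apply] using this

section

variable (g : LieSubalgebra ℝ (MR N))

/-- the trace inner product on a space of matrices -/
@[reducible] def trCore : InnerProductSpace.Core ℝ g where
  inner X Y := trace (X.1ᵀ * Y.1)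
  conj_inner_symm X Y := by
    simp only [conj_trivial]
    rw [← trace_transpose, transpose_mul, transpose_transpose]
  re_inner_nonneg X := by
    simp only [RCLike.re_to_real, trace, diag, mul_apply, transpose_apply]
    exact Finset.sum_nonneg fun _ _ => Finset.sum_nonneg fun _ _ => mul_self_nonneg _
  add_left X Y Z := by simp [add_mul]
  smul_left X Y r := by simp
  definite X h := by
    have : X.1ᴴ * X.1 = X.1ᵀ * X.1 := by rw [conjTranspose_eq_transpose_of_trivial]
    exact Subtype.ext (trace_conjTranspose_mul_self_eq_zero_iff.mp (by rw [this]; exact h))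

variable (ha : ∀ X ∈ g, Xᵀ = -X)

include ha in
theorem tr_inv (Z X Y : g) :
    trace ((⁅Z, X⁆ : g).1ᵀ * Y.1) = -trace (X.1ᵀ * (⁅Z, Y⁆ : g).1) := by
  have h1 := ha _ Z.2
  simp only [LieSubalgebra.coe_bracket, Ring.lie_def, transpose_sub, transpose_mul, h1, mul_sub,
    sub_mul, neg_mul, mul_neg, trace_sub, trace_neg, mul_assoc]
  rw [trace_mul_comm Z.1, mul_assoc]
  ring

variable [hs : LieAlgebra.IsSimple ℝ g]

theorem center_zero (Y : g) (h : ∀ X : g, ⁅X, Y⁆ = 0) : Y = 0 := by
  rcases hs.eq_bot_or_eq_top (LieAlgebra.center ℝ g) with hb | hb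
  · have : Y ∈ LieAlgebra.center ℝ g := (LieModule.mem_maxTrivSubmodule ℝ g g Y).mpr h
    rw [hb] at this
    simpa using this
  · exact absurd (LieAlgebra.isLieAbelian_iff_center_eq_top ℝ g).mpr (fun h' => hs.non_abelian (h' hb))

/-- no nonzero invariant vector -/
theorem no_inv {Y : MR N} (hY : Y ∈ g) (h : ∀ X ∈ g, X * Y - Y * X = 0) : Y = 0 :=
  congrArg Subtype.val (center_zero g ⟨Y, hY⟩ fun X => Subtype.ext (h X.1 X.2))

include ha in
/-- Schur property -/
theorem schur (T : g →ₗ[ℝ] g) (hT : ∀ X Y : g, T ⁅X, Y⁆ = ⁅X, T Y⁆) :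
    ∃ c : ℝ, ∀ Y, T Y = c • Y := by
  let c := trCore g
  let : NormedAddCommGroup g := InnerProductSpace.Core.toNormedAddCommGroup (𝕜 := ℝ) (cd := c)
  let : InnerProductSpace ℝ g := InnerProductSpace.ofCore c.toCore
  exact B7b.schur_abs (V := g) (LieAlgebra.ad ℝ g).toLinearMap (fun x y => (lie_skew x y).symm)
    (fun z x y => tr_inv g ha z x y)
    (fun x hx => center_zero g x fun y => by
      rw [← lie_skew]; exact neg_eq_zero.mpr (hx y))
    (fun I hI => by
      rcases hs.eq_bot_or_eq_top ⟨I, fun {x m} hm => hI x m hm⟩ with h | h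
      · left; exact congrArg LieSubmodule.toSubmodule h
      · right; exact congrArg LieSubmodule.toSubmodule h) T hT

include ha in
/-- orthonormal basis adapted to a maximal su(2) triple -/
theorem adapted : ∃ (d : ℕ) (u : Fin d → MR N) (k0 : Fin d) (τ : Fin d → Fin d) (q : Fin d → ℤ)
    (μ : ℝ) (Y : MR N), 3 ≤ d ∧ (∀ k j, trace ((u k)ᵀ * u j) = if k = j then 1 else 0) ∧
    Submodule.span ℝ (range u) = g.toSubmodule ∧ 0 < μ ∧ (∀ k, τ (τ k) = k) ∧
    (∀ k, |q k| ≤ 2) ∧ (∀ k, q (τ k) = -q k) ∧ (∀ k, q k = 0 → τ k = k) ∧ q k0 = 0 ∧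
    (∀ k, u k0 * u k - u k * u k0 = (q k * μ / 2) • u (τ k)) ∧
    exp ((4 * Real.pi / μ) • u k0) = 1 ∧ Y ∈ g ∧ exp Y * u k0 * (exp Y)ᵀ = -u k0 ∧
    (∀ k, q k = 0 → k ≠ k0 → exp Y * u k * (exp Y)ᵀ = u k) ∧ 0 < ∑ k, (q k * μ / 2) ^ 2 := by
  let c := trCore g
  let : NormedAddCommGroup g := InnerProductSpace.Core.toNormedAddCommGroup (𝕜 := ℝ) (cd := c)
  let : InnerProductSpace ℝ g := InnerProductSpace.ofCore c.toCore
  have hne : ∃ x y : g, (LieAlgebra.ad ℝ g).toLinearMap x y ≠ 0 := by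
    by_contra hc
    push Not at hc
    exact hs.non_abelian ⟨fun x y => hc x y⟩
  obtain ⟨e, k0, τ, q, μ, Y, Z, b1, b2, b3, b4, b5, b6, b7, b8, b9, -, -, c1, c2, c3, c4, c5, c6⟩ :=
    B7b.adapted_abs (V := g) (LieAlgebra.ad ℝ g).toLinearMap (fun x y => (lie_skew x y).symm)
      (fun x y z => lie_lie x y z) (fun z x y => tr_inv g ha z x y) hne
  have d1 : (e k0).1 * Y.1 - Y.1 * (e k0).1 = μ • Z.1 := congrArg Subtype.val c1
  have d2 : Y.1 * Z.1 - Z.1 * Y.1 = μ • (e k0).1 := congrArg Subtype.val c2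
  have d3 : Z.1 * (e k0).1 - (e k0).1 * Z.1 = μ • Y.1 := congrArg Subtype.val c3
  refine ⟨_, fun k => (e k).1, k0, τ, q, μ, (Real.pi / μ) • Y.1, b1, b2, ?_, b9, b4, fun k => ?_,
    b6, b7, b8, fun k => ?_, exp_period _ _ _ μ b9.ne' (ha _ (e k0).2) d1 d2 d3,
    g.smul_mem _ Y.2, ?_, fun k hk hk0 => ?_, by simpa only [mul_comm μ] using c5⟩
  · have := congrArg (Submodule.map g.toSubmodule.subtype) b3
    rw [Submodule.map_span, Submodule.map_subtype_top, ← range_comp] at this
    exact this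
  · rcases b5 k with h | h | h | h | h <;> rw [h] <;> norm_num
  · rw [mul_comm _ μ]
    exact congrArg Subtype.val (c4 k)
  · have := exp_rot_ad Y.1 (e k0).1 Z.1 (ha _ Y.2) (-μ) (Real.pi / μ)
      (by rw [neg_smul, ← d1, neg_sub]) (by rw [neg_smul, neg_neg, d2])
    rw [this, show -μ * (Real.pi / μ) = -Real.pi by field_simp]
    simp
  · have h0 : Y.1 * (e k).1 - (e k).1 * Y.1 = 0 := congrArg Subtype.val (c6 k hk hk0)
    have := exp_rot_ad Y.1 (e k).1 0 (ha _ Y.2) 0 (Real.pi / μ) (by simpa using h0) (by simp)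
    rw [this]
    simp

end

end Pool.Agent.Lib.MP_7f377f_mp.GE
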