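import Pool.Agent.Lib.MP_7f377f_mp.G.GKill
import Pool.Agent.Lib.MP_7f377f_mp.G.GSu2

/-! All the data attached to a compact group of orthogonal matrices with simple Lie algebra, for every
large scale `t`. -/

noncomputable section

namespace Pool.Agent.Lib.MP_7f377f_mp.GE

open NormedSpace Set Matrix

attribute [local instance 100] LieRing.ofAssociativeRing

theorem exists_data {G : Type*} [Group G] [TopologicalSpace G] [CompactSpace G] {N : ℕ}
    (ρ : G →* MR N) (hc : Continuous ρ) (ho : ∀ a, (ρ a)ᵀ * ρ a = 1) (g : LieSubalgebra ℝ (MR N))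
    (hg : ∀ X, X ∈ g ↔ ∀ s : ℝ, exp (s • X) ∈ range ρ) [LieAlgebra.IsSimple ℝ g] (R : ℝ) :
    ∃ c > 0, (∀ X Y : g, killingForm ℝ g X Y = c * trace (X.1 * Y.1)) ∧ 3 ≤ Module.finrank ℝ g ∧
      ∃ T : ℝ, ∀ t ≥ T, 1 ≤ t ∧
      ∃ (e : Fin (Module.finrank ℝ g) → MR N) (k0 : Fin (Module.finrank ℝ g))
        (τ : Fin (Module.finrank ℝ g) → Fin (Module.finrank ℝ g)) (q : Fin (Module.finrank ℝ g) → ℤ)
        (hh : ℝ) (w : G),
        (∀ k j, t ^ 2 * trace ((e k)ᵀ * e j) = if k = j then 1 else 0) ∧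
        Submodule.span ℝ (range e) = g.toSubmodule ∧
        (∀ a : G, t * √(∑ i, ∑ j, (ρ a - 1) i j ^ 2) ≤ R → ∃ X ∈ g, ρ a = exp X ∧
          √(∑ i, ∑ j, X i j ^ 2) ≤ 2 * √(∑ i, ∑ j, (ρ a - 1) i j ^ 2)) ∧
        (∀ k, τ (τ k) = k) ∧ (∀ k, |q k| ≤ 2) ∧ (∀ k, q (τ k) = -q k) ∧ (∀ k, q k = 0 → τ k = k) ∧
        q k0 = 0 ∧ 1 ≤ hh ∧ exp ((2 * Real.pi * hh) • e k0) = 1 ∧
        (∀ k, e k0 * e k - e k * e k0 = (q k / hh) • e (τ k)) ∧
        ρ w * e k0 * (ρ w)ᵀ = -e k0 ∧ (∀ k, q k = 0 → k ≠ k0 → ρ w * e k * (ρ w)ᵀ = e k) ∧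
        ∑ k, (q k / hh) ^ 2 = c / t ^ 2 := by
  have ha : ∀ X ∈ g, Xᵀ = -X := fun X hX => anti_of_mem ρ ho g.toSubmodule hg hX
  obtain ⟨d, u, k0, τ, q, μ, Y, h3, hu, hs, hμ, h4, h5, h6, h7, h8, h9, h10, hY, h11, h12, h13⟩ :=
    adapted g ha
  obtain ⟨c, hk⟩ := killing_const g ha u hu hs (schur g ha)
  have hc' := killing_adapted g ha u hu hs c hk k0 τ (fun k => q k * μ / 2) h4
    (fun k => by rw [h6]; push_cast; ring) h9
  obtain rfl : Module.finrank ℝ g = d := finrank_span u hu g.toSubmodule hs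
  obtain ⟨δ, hδ, hl⟩ := loc_mat ρ g.toSubmodule hg hc
  obtain ⟨w, hw⟩ := exp_mem ρ g.toSubmodule hg hY
  refine ⟨c, by rw [hc']; exact h13, hk, h3, max 1 (max μ (R / δ)), fun t ht => ?_⟩
  have t1 : 1 ≤ t := (le_max_left _ _).trans ht
  have t2 : μ ≤ t := ((le_max_left _ _).trans (le_max_right _ _)).trans ht
  have t3 : R / δ ≤ t := ((le_max_right _ _).trans (le_max_right _ _)).trans ht
  have t0 : 0 < t := by linarith
  refine ⟨t1, fun k => t⁻¹ • u k, k0, τ, q, 2 * t / μ, w, fun k j => ?_, ?_, fun a h => hl a ?_, h4, h5,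
    h6, h7, h8, ?_, ?_, fun k => ?_, ?_, fun k hk hk0 => ?_, ?_⟩
  · simp only [transpose_smul, smul_mul_assoc, mul_smul_comm, trace_smul, smul_eq_mul, hu]
    field_simp
  · rw [← hs]
    refine le_antisymm (Submodule.span_le.2 ?_) (Submodule.span_le.2 ?_)
    · rintro _ ⟨k, rfl⟩
      exact Submodule.smul_mem _ _ (Submodule.subset_span ⟨k, rfl⟩)
    · rintro _ ⟨k, rfl⟩
      have : u k = t • t⁻¹ • u k := by rw [smul_smul, mul_inv_cancel₀ t0.ne', one_smul]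
      rw [this]
      exact Submodule.smul_mem _ _ (Submodule.subset_span ⟨k, rfl⟩)
  · rw [div_le_iff₀ hδ] at t3
    exact le_of_mul_le_mul_left (h.trans t3) t0
  · rw [le_div_iff₀ hμ]
    linarith
  · rw [smul_smul, ← h10]
    congr 2
    field_simp
    ring
  · simp only [smul_mul_assoc, mul_smul_comm, ← smul_sub, h9, smul_smul]
    congr 1
    field_simp
  · simp only [smul_mul_assoc, mul_smul_comm, hw, h11, smul_neg]
  · simp only [smul_mul_assoc, mul_smul_comm, hw, h12 k hk hk0]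
  · rw [hc', Finset.sum_div]
    refine Finset.sum_congr rfl fun k _ => ?_
    field_simp

end Pool.Agent.Lib.MP_7f377f_mp.GE
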