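import Mathlib

/-! Fixed points as limits of the iterates from the origin: covariance, measurability,
differentiability in parameters. -/

noncomputable section

namespace Pool.Agent.Lib.MP_7f377f_mp.GE

open Filter Topology Metric

variable {E E' : Type*} [NormedAddCommGroup E] [NormedAddCommGroup E']

/-- the limit of the iterates from the origin, if the increments are summable, else zero -/
def fixp (F : E → E) : E := ∑' k, (F^[k + 1] 0 - F^[k] 0)

theorem fixp_map (L : E ≃ₜ+ E') {F : E → E} {F' : E' → E'} (h : ∀ u, F' (L u) = L (F u)) :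
    fixp F' = L (fixp F) := by
  have h1 : ∀ k, F'^[k] 0 = L (F^[k] 0) := fun k => by
    induction k with
    | zero => simp
    | succ k ih => rw [Function.iterate_succ_apply', Function.iterate_succ_apply', ih, h]
  have h2 := Function.LeftInverse.map_tsum (fun k => F^[k + 1] 0 - F^[k] 0) (g := L) L.continuous
    (g' := L.symm) L.symm.continuous L.symm_apply_apply (L := SummationFilter.unconditional ℕ)
  rw [fixp, fixp, h2]
  simp only [h1, map_sub]

theorem fixp_mem (S : AddSubgroup E) (hS : IsClosed (S : Set E)) {F : E → E}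
    (h : ∀ u ∈ S, F u ∈ S) : fixp F ∈ S := by
  have h1 : ∀ k, F^[k] 0 ∈ S := fun k => by
    induction k with
    | zero => exact S.zero_mem
    | succ k ih => rw [Function.iterate_succ_apply']; exact h _ ih
  exact tsum_mem hS fun k => S.sub_mem (h1 _) (h1 _)

theorem fixp_zero {F : E → E} (h : F 0 = 0) : fixp F = 0 := by
  have h1 : ∀ k, F^[k] 0 = 0 := fun k => Function.iterate_fixed h k
  simp only [fixp, h1, sub_self, tsum_zero]

/-- a contraction of a closed ball -/
structure Ctr (R : ℝ) (F : E → E) : Prop where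
  zero : ‖F 0‖ ≤ R / 2
  lip : ∀ u v, ‖u‖ ≤ R → ‖v‖ ≤ R → ‖F u - F v‖ ≤ ‖u - v‖ / 2

theorem Ctr.nonneg {R : ℝ} {F : E → E} (h : Ctr R F) : 0 ≤ R := by
  linarith [norm_nonneg (F 0), h.zero]

theorem Ctr.maps {R : ℝ} {F : E → E} (h : Ctr R F) {u : E} (hu : ‖u‖ ≤ R) : ‖F u‖ ≤ R := by
  have h1 := h.lip u 0 hu (by simpa using h.nonneg)
  have h2 := norm_add_le (F u - F 0) (F 0)
  rw [sub_add_cancel] at h2
  rw [sub_zero] at h1
  linarith [h.zero]

theorem Ctr.spec [CompleteSpace E] {R : ℝ} {F : E → E} (h : Ctr R F) :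
    ‖fixp F‖ ≤ R ∧ F (fixp F) = fixp F := by
  have h1 : ∀ k, ‖F^[k] 0‖ ≤ R := fun k => by
    induction k with
    | zero => simpa using h.nonneg
    | succ k ih => rw [Function.iterate_succ_apply']; exact h.maps ih
  have h2 : ∀ k, ‖F^[k + 1] 0 - F^[k] 0‖ ≤ R * (1 / 2) ^ k := fun k => by
    induction k with
    | zero => simpa using h1 1
    | succ k ih =>
      have := h.lip _ _ (h1 (k + 1)) (h1 k)
      rw [← Function.iterate_succ_apply' F (k + 1), ← Function.iterate_succ_apply' F k] at this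
      rw [pow_succ]
      exact this.trans (by linarith)
  have h3 : Summable fun k => F^[k + 1] 0 - F^[k] 0 :=
    .of_norm_bounded (summable_geometric_two.mul_left R) h2
  have h4 : Tendsto (fun k => F^[k] 0) atTop (𝓝 (fixp F)) := by
    have := h3.hasSum.tendsto_sum_nat
    simp only [Finset.sum_range_sub (fun k => F^[k] (0 : E)), Function.iterate_zero, id, sub_zero]
      at this
    exact this
  have h5 : ‖fixp F‖ ≤ R := le_of_tendsto' h4.norm h1
  refine ⟨h5, tendsto_nhds_unique (f := fun k => F^[k + 1] 0) (l := atTop) ?_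
    (h4.comp (tendsto_add_atTop_nat 1))⟩
  rw [tendsto_iff_norm_sub_tendsto_zero] at h4 ⊢
  refine squeeze_zero (fun _ => norm_nonneg _) (fun k => ?_) (by simpa using h4.div_const 2)
  rw [Function.iterate_succ_apply']
  exact h.lip _ _ (h1 k) h5

theorem Ctr.stab [CompleteSpace E] {R : ℝ} {F : E → E} (h : Ctr R F) {u : E} (hu : ‖u‖ ≤ R) :
    ‖u - fixp F‖ ≤ 2 * ‖F u - u‖ := by
  have h1 := h.lip _ _ hu h.spec.1
  rw [h.spec.2] at h1
  have h2 := norm_sub_le (F u - fixp F) (F u - u)
  rw [sub_sub_sub_cancel_left] at h2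
  linarith

theorem Ctr.uniq [CompleteSpace E] {R : ℝ} {F : E → E} (h : Ctr R F) {u : E} (hu : ‖u‖ ≤ R)
    (h0 : F u = u) : fixp F = u := by
  have := h.stab hu
  rw [h0, sub_self, norm_zero, mul_zero, norm_le_zero_iff, sub_eq_zero] at this
  exact this.symm

theorem Ctr.norm_le [CompleteSpace E] {R : ℝ} {F : E → E} (h : Ctr R F) : ‖fixp F‖ ≤ 2 * ‖F 0‖ := by
  simpa using h.stab (u := 0) (by simpa using h.nonneg)

theorem Ctr.sub_le [CompleteSpace E] {R : ℝ} {F F' : E → E} (h : Ctr R F) (h' : Ctr R F') :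
    ‖fixp F' - fixp F‖ ≤ 2 * ‖F (fixp F') - F' (fixp F')‖ := by
  have := h.stab h'.spec.1
  rwa [← h'.spec.2, h'.spec.2, ← congrArg (F (fixp F') - ·) h'.spec.2] at this

theorem measurable_fixp [CompleteSpace E] [SecondCountableTopology E] [MeasurableSpace E]
    [BorelSpace E] {Z : Type*} [MeasurableSpace Z] {F : Z → E → E}
    (h : ∀ u : Z → E, Measurable u → Measurable fun z => F z (u z)) :
    Measurable fun z => fixp (F z) := by
  have h1 : ∀ k, Measurable fun z => (F z)^[k] 0 := fun k => by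
    induction k with
    | zero => exact measurable_const
    | succ k ih => simpa only [Function.iterate_succ_apply'] using h _ ih
  exact Measurable.tsum fun k => (h1 _).sub (h1 _)

/-- differentiability of the fixed point in the parameter -/
theorem differentiableAt_fixp {𝕜 P : Type*} [RCLike 𝕜] [NormedSpace 𝕜 E] [CompleteSpace E]
    [NormedAddCommGroup P] [NormedSpace 𝕜 P] {F : P → E → E} {R : ℝ} {p : P}
    (h : ∀ᶠ q in 𝓝 p, Ctr R (F q)) (hR : ‖fixp (F p)‖ < R)
    (hd : DifferentiableAt 𝕜 (fun x : P × E => F x.1 x.2) (p, fixp (F p))) :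
    DifferentiableAt 𝕜 (fun q => fixp (F q)) p := by
  have hp := h.self_of_nhds
  set u := fixp (F p) with hu
  set D := fderiv 𝕜 (fun x : P × E => F x.1 x.2) (p, u)
  have hD := hd.hasFDerivAt
  let A : P →L[𝕜] E := D.comp (ContinuousLinearMap.inl 𝕜 P E)
  let B : E →L[𝕜] E := D.comp (ContinuousLinearMap.inr 𝕜 P E)
  have hB : HasFDerivAt (F p) B u := hD.comp u (hasFDerivAt_prodMk_right p u)
  have hA : HasFDerivAt (fun q => F q u) A p :=
    HasFDerivAt.comp (f := fun q : P => (q, u)) p hD (hasFDerivAt_prodMk_left p u)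
  have nB : ‖B‖ ≤ 1 / 2 := by
    refine hB.le_of_lip' (by norm_num) ?_
    filter_upwards [(isOpen_lt continuous_norm continuous_const).mem_nhds hR] with v hv
    linarith [hp.lip v u (le_of_lt hv) hR.le]
  have hO : (fun q => fixp (F q) - u) =O[𝓝 p] fun q => q - p := by
    refine Asymptotics.IsBigO.trans (Asymptotics.IsBigO.of_bound 2 ?_) hA.isBigO_sub
    filter_upwards [h] with q hq
    rw [norm_sub_rev, hp.spec.2]
    exact hq.stab hR.le
  have hc : Tendsto (fun q => (q, fixp (F q))) (𝓝 p) (𝓝 (p, u)) := by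
    refine tendsto_id.prodMk_nhds (tendsto_sub_nhds_zero_iff.1 (hO.trans_tendsto ?_))
    exact tendsto_sub_nhds_zero_iff.2 tendsto_id
  have hO2 : (fun q => ((q, fixp (F q)) : P × E) - (p, u)) =O[𝓝 p] fun q => q - p :=
    (Asymptotics.isBigO_refl _ _).prod_left hO
  have h1 := (hD.isLittleO.comp_tendsto hc).trans_isBigO hO2
  let U := Units.oneSub B (by linarith)
  refine HasFDerivAt.differentiableAt (f' := (↑U⁻¹ : E →L[𝕜] E).comp A) (.of_isLittleO ?_)
  refine (((↑U⁻¹ : E →L[𝕜] E).isBigO_comp _ _).trans_isLittleO h1).congr' ?_ EventuallyEq.rfl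
  filter_upwards [h] with q hq
  have e1 : D ((q, fixp (F q)) - (p, u)) = A (q - p) + B (fixp (F q) - u) := by
    simp only [A, B, ContinuousLinearMap.comp_apply, ← map_add]
    simp
  have e2 : (↑U⁻¹ : E →L[𝕜] E) (fixp (F q) - u - B (fixp (F q) - u)) = fixp (F q) - u :=
    congrArg (fun T : E →L[𝕜] E => T (fixp (F q) - u)) U.inv_mul
  have e3 : F p u = u := hp.spec.2
  change (↑U⁻¹ : E →L[𝕜] E) (F q (fixp (F q)) - F p u - D ((q, fixp (F q)) - (p, u))) =
    fixp (F q) - u - (↑U⁻¹ : E →L[𝕜] E) (A (q - p))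
  rw [hq.spec.2, e3, e1]
  conv_rhs => rw [← e2, ← map_sub]
  congr 1
  abel

end Pool.Agent.Lib.MP_7f377f_mp.GE
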