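import Pool.Agent.Lib.MP_7f377f_mp.WeakHaar

/-! Haar measure in a linear chart, logarithm of a determinant near one, finite covers. -/

namespace Pool.Agent.Lib.MP_7f377f_mp.GH

open MeasureTheory Measure Set Filter Topology
open scoped ENNReal

theorem chart_haar {G A E : Type} [Group G] [TopologicalSpace G] [IsTopologicalGroup G]
    [CompactSpace G] [T2Space G] [SecondCountableTopology G] [MeasurableSpace G] [BorelSpace G]
    (μ : Measure G) [μ.IsHaarMeasure] [IsProbabilityMeasure μ] [NormedRing A] [NormedAlgebra ℝ A]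
    [NormedAddCommGroup E] [NormedSpace ℝ E] [FiniteDimensional ℝ E] [MeasurableSpace E]
    [BorelSpace E] (m : Measure E) [m.IsAddHaarMeasure] {ρ : G → A} (hρ : Continuous ρ)
    (mul : ∀ g h, ρ (g * h) = ρ g * ρ h) (io : E →L[ℝ] A) (co : A →L[ℝ] E) {e : E → G}
    (me : Measurable e) {B : Set E} (hB : IsOpen B) (ce : ContinuousOn e B)
    (d0 : HasFDerivAt (fun v => ρ (e v)) io 0) (h0 : co (ρ 1) = 0)
    (h1 : ∀ᶠ g in 𝓝 1, co (ρ g) ∈ B ∧ e (co (ρ g)) = g) (h2 : ∀ v ∈ B, co (ρ (e v)) = v)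
    (N : G → E →L[ℝ] E) (hN : ∀ g a, N g a = co (io a * ρ g))
    (hd : ∀ v ∈ B, (N (e v)).det ≠ 0) {J : E → ℝ≥0∞} (mJ : Measurable J)
    (hJ : ∀ v ∈ B, J v = ENNReal.ofReal |(N (e v)).det|⁻¹) (fin : ∫⁻ v in B, J v ∂m ≠ ∞) :
    ∃ c : ℝ, 0 < c ∧ MeasurePreserving e
      ((m.restrict B).withDensity fun v => ENNReal.ofReal c * J v) (μ.restrict (e '' B)) := by
  have := Weak.haar_inv μ
  have inj : InjOn e B := fun v hv w hw h => by rw [← h2 v hv, h, h2 w hw]
  set P := e '' B with hP
  have mP : MeasurableSet P := hB.measurableSet.image_of_continuousOn_injOn ce inj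
  have memP : ∀ g ∈ P, co (ρ g) ∈ B ∧ e (co (ρ g)) = g := by
    rintro _ ⟨v, hv, rfl⟩
    rw [h2 v hv]
    exact ⟨hv, rfl⟩
  have dN : ∀ x, HasFDerivAt (fun c => co (ρ (e c) * ρ x)) (N x) 0 := fun x =>
    (co.hasFDerivAt.comp 0 (d0.mul_const' (ρ x))).congr_fderiv
      (ContinuousLinearMap.ext fun a => (hN x a).symm)
  have dτ : ∀ v (hv : v ∈ B) u, HasFDerivAt (fun w => co (ρ (e w * u))) ((N (e v * u)).comp
      (((N (e v)).toContinuousLinearEquivOfDetNeZero (hd v hv)).symm : E →L[ℝ] E)) v :=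
    fun v hv u => by
    have c1 : ContinuousAt (fun w => e w * (e v)⁻¹) v :=
      (ce.continuousAt (hB.mem_nhds hv)).mul continuousAt_const
    have ev := c1.eventually (by beta_reduce; rw [mul_inv_cancel]; exact h1)
    have g0 : co (ρ (e v * (e v)⁻¹)) = 0 := by rw [mul_inv_cancel, h0]
    have dg := HasFDerivAt.of_local_left_inverse (g := fun w => co (ρ (e w * (e v)⁻¹)))
      (f' := (N (e v)).toContinuousLinearEquivOfDetNeZero (hd v hv))
      ((co.continuous.comp hρ).continuousAt.comp c1) (by rw [g0]; exact dN (e v)) (by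
        filter_upwards [ev, hB.mem_nhds hv] with w h hw
        rw [h.2, ← mul, inv_mul_cancel_right, h2 w hw])
    refine (HasFDerivAt.comp v (by rw [g0]; exact dN (e v * u)) dg).congr_of_eventuallyEq ?_
    filter_upwards [ev] with w h
    rw [Function.comp_apply, h.2, ← mul, mul_assoc, inv_mul_cancel_left]
  have mT : ∀ u, MeasurableSet {v | e v * u ∈ P} := fun u => me.mul_const u mP
  have mS : ∀ u, MeasurableSet (B ∩ {v | e v * u ∈ P}) := fun u => hB.measurableSet.inter (mT u)
  have loc : ∀ F : G → ℝ≥0∞, ∀ u, ∫⁻ v in B, J v * P.indicator F (e v * u) ∂m =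
      ∫⁻ v in B, J v * F (e v) * P.indicator 1 (e v / u) ∂m := fun F u => by
    classical
    have im : (fun w => co (ρ (e w * u))) '' (B ∩ {v | e v * u ∈ P}) = B ∩ {v | e v * u⁻¹ ∈ P} := by
      refine Set.ext fun w => ⟨?_, fun ⟨hw, h⟩ => ⟨_, ⟨(memP _ h).1, ?_⟩, ?_⟩⟩
      · rintro ⟨v, ⟨hv, h⟩, rfl⟩
        refine ⟨(memP _ h).1, ?_⟩
        rw [mem_ofPred, (memP _ h).2, mul_inv_cancel_right]
        exact ⟨v, hv, rfl⟩
      · rw [mem_ofPred, (memP _ h).2, inv_mul_cancel_right]
        exact ⟨w, hw, rfl⟩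
      · beta_reduce
        rw [(memP _ h).2, inv_mul_cancel_right, h2 w hw]
    have cv := lintegral_image_eq_lintegral_abs_det_fderiv_mul m (mS u)
      (f' := fun v => if hv : v ∈ B then (N (e v * u)).comp
        (((N (e v)).toContinuousLinearEquivOfDetNeZero (hd v hv)).symm : E →L[ℝ] E) else 0)
      (fun v hv => by rw [dif_pos hv.1]; exact (dτ v hv.1 u).hasFDerivWithinAt)
      (fun v hv w hw h => inj hv.1 hw.1 (mul_right_cancel (b := u) (by
        rw [← (memP _ hv.2).2, ← (memP _ hw.2).2]; exact congrArg e h))) fun v => J v * F (e v)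
    rw [im] at cv
    calc _ = ∫⁻ v in B ∩ {v | e v * u ∈ P}, J v * F (e v * u) ∂m := by
          rw [inter_comm, ← restrict_restrict (mT u), ← lintegral_indicator (mT u)]
          refine lintegral_congr fun v => ?_
          by_cases h : e v * u ∈ P <;> simp [indicator, h]
      _ = ∫⁻ v in B ∩ {v | e v * u⁻¹ ∈ P}, J v * F (e v) ∂m := by
          rw [cv]
          refine setLIntegral_congr_fun (mS u) fun v hv => ?_
          have a := hd _ (memP _ hv.2).1
          rw [dif_pos hv.1, hJ _ (memP _ hv.2).1, hJ v hv.1, ← mul_assoc,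
            ← ENNReal.ofReal_mul (abs_nonneg _)]
          rw [(memP _ hv.2).2] at a ⊢
          congr 2
          simp only [ContinuousLinearMap.det] at a ⊢
          rw [ContinuousLinearMap.toLinearMap_comp, LinearMap.det_comp, abs_mul,
            mul_right_comm, mul_inv_cancel₀ (abs_ne_zero.2 a), one_mul, ← abs_inv]
          exact congrArg _ (LinearEquiv.det_coe_symm
            ((N (e v)).toContinuousLinearEquivOfDetNeZero (hd v hv.1)).toLinearEquiv).symm
      _ = _ := by
          rw [inter_comm, ← restrict_restrict (mT u⁻¹), ← lintegral_indicator (mT u⁻¹)]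
          refine lintegral_congr fun v => ?_
          by_cases h : e v * u⁻¹ ∈ P <;> simp [indicator, h, div_eq_mul_inv]
  have key : ∀ F : G → ℝ≥0∞, Measurable F →
      (∫⁻ v in B, J v ∂m) * ∫⁻ g in P, F g ∂μ = (∫⁻ v in B, J v * F (e v) ∂m) * μ P := fun F hF => by
    have m1 := hF.indicator mP
    have m2 : Measurable (P.indicator (1 : G → ℝ≥0∞)) := measurable_one.indicator mP
    have := lintegral_congr (μ := μ) (loc F)
    rw [lintegral_lintegral_swap, lintegral_lintegral_swap (μ := μ)] at this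
    · have a1 : ∀ v, ∫⁻ u, J v * P.indicator F (e v * u) ∂μ = J v * ∫⁻ g in P, F g ∂μ := fun v => by
        rw [lintegral_const_mul _ (f := fun u => P.indicator F (e v * u))
          (m1.comp (measurable_const_mul _)), lintegral_mul_left_eq_self, lintegral_indicator mP]
      have a2 : ∀ v, ∫⁻ u, J v * F (e v) * P.indicator 1 (e v / u) ∂μ = J v * F (e v) * μ P :=
        fun v => by
          rw [lintegral_const_mul _ (f := fun u => P.indicator 1 (e v / u))
            (m2.comp (measurable_const.div measurable_id)), lintegral_div_left_eq_self,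
            lintegral_indicator_one mP]
      simp only [a1, a2] at this
      rwa [lintegral_mul_const _ mJ, lintegral_mul_const _ (f := fun v => J v * F (e v))
        (mJ.mul (hF.comp me))] at this
    · exact (((mJ.mul (hF.comp me)).comp measurable_snd).mul
        (m2.comp ((me.comp measurable_snd).div measurable_fst))).aemeasurable
    · exact ((mJ.comp measurable_snd).mul
        (m1.comp ((me.comp measurable_snd).mul measurable_fst))).aemeasurable
  have p0 : μ P ≠ 0 := (measure_pos_of_mem_nhds μ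
    (mem_of_superset h1 fun g hg => (⟨_, hg.1, hg.2⟩ : g ∈ e '' B))).ne'
  have j0 : ∫⁻ v in B, J v ∂m ≠ 0 := by
    refine ((setLIntegral_pos_iff mJ).2 ?_).ne'
    rw [inter_eq_right.2 fun v hv => by
      rw [Function.mem_support, hJ v hv]
      exact (ENNReal.ofReal_pos.2 (inv_pos.2 (abs_pos.2 (hd v hv)))).ne']
    exact hB.measure_pos _ ⟨_, h1.self_of_nhds.1⟩
  have c1 : μ P / ∫⁻ v in B, J v ∂m ≠ ∞ := ENNReal.div_ne_top (measure_ne_top _ _) j0
  refine ⟨(μ P / ∫⁻ v in B, J v ∂m).toReal, ENNReal.toReal_pos (ENNReal.div_ne_zero.2 ⟨p0, fin⟩) c1,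
    me, Measure.ext_of_lintegral _ fun F hF => ?_⟩
  rw [lintegral_map hF me, lintegral_withDensity_eq_lintegral_mul _ (mJ.const_mul _)
    (g := fun a => F (e a)) (hF.comp me), ENNReal.ofReal_toReal c1]
  simp only [Pi.mul_apply, mul_assoc]
  rw [lintegral_const_mul' _ _ c1, ENNReal.div_eq_inv_mul, mul_assoc, mul_comm (μ P), ← key F hF,
    ← mul_assoc, ENNReal.inv_mul_cancel j0 fin, one_mul]

/-- the logarithm of the determinant of an operator close to the identity -/
theorem log_det {V : Type} [NormedAddCommGroup V] [NormedSpace ℂ V] [FiniteDimensional ℂ V]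
    (N : V →ₗ[ℂ] V) {κ : ℝ} (h : ∀ v, ‖N v - v‖ ≤ κ * ‖v‖) (h1 : κ ≤ 1 / 2) :
    ∃ z : ℂ, LinearMap.det N = Complex.exp z ∧ ‖z - (LinearMap.trace ℂ V N - Module.finrank ℂ V)‖ ≤
      Module.finrank ℂ V * κ ^ 2 := by
  have sp := IsAlgClosed.splits N.charpoly
  have hr : ∀ r ∈ N.charpoly.roots, ‖r - 1‖ ≤ κ := fun r hr => by
    obtain ⟨v, hv⟩ := ((Module.End.hasEigenvalue_iff_isRoot_charpoly N r).2
      (Polynomial.isRoot_of_mem_roots hr)).exists_hasEigenvector
    have := h v
    rw [hv.apply_eq_smul, show r • v - v = (r - 1) • v by rw [sub_smul, one_smul],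
      norm_smul] at this
    exact le_of_mul_le_mul_right this (norm_pos_iff.2 hv.2)
  rw [Module.End.det_eq_prod_roots_charpoly_of_splits sp,
    Module.End.trace_eq_sum_roots_charpoly_of_splits sp, ← LinearMap.charpoly_natDegree,
    sp.natDegree_eq_card_roots]
  generalize N.charpoly.roots = s at hr
  induction s using Multiset.induction_on with
  | empty => exact ⟨0, by simp⟩
  | cons r s ih =>
    obtain ⟨z, e, b⟩ := ih fun r hr' => hr r (Multiset.mem_cons_of_mem hr')
    have a := hr r (Multiset.mem_cons_self _ _)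
    have a0 := norm_nonneg (r - 1)
    have r0 : r ≠ 0 := by
      rintro rfl
      norm_num at a
      linarith
    have l := Complex.norm_log_one_add_sub_self_le (z := r - 1) (by linarith)
    have l2 : (1 - ‖r - 1‖)⁻¹ ≤ 2 := inv_le_of_inv_le₀ two_pos (by linarith)
    rw [add_sub_cancel] at l
    refine ⟨Complex.log r + z, by rw [Multiset.prod_cons, Complex.exp_add, Complex.exp_log r0, e], ?_⟩
    rw [Multiset.sum_cons, Multiset.card_cons]
    push_cast
    refine le_trans (le_of_eq (congrArg norm (by ring))) ((norm_add_le_of_le l b).trans ?_)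
    nlinarith [mul_le_mul (pow_le_pow_left₀ a0 a 2) l2 (inv_nonneg.2 (by linarith)) (sq_nonneg κ)]

/-- finite covers by right translates -/
theorem cover {G : Type} [Group G] [TopologicalSpace G] [IsTopologicalGroup G] [CompactSpace G]
    {U : Set G} (hU : U ∈ 𝓝 1) : ∃ (n : ℕ) (q : Fin (n + 1) → G), q 0 = 1 ∧
      ∀ g, ∃ s, g * (q s)⁻¹ ∈ U := by
  obtain ⟨t, -, ht⟩ := isCompact_univ.elim_nhds_subcover (fun x : G => {g | g * x⁻¹ ∈ U})
    fun x _ => (continuous_mul_const x⁻¹).continuousAt.preimage_mem_nhds (by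
      rwa [mul_inv_cancel])
  refine ⟨t.card, Fin.cons 1 fun i => t.equivFin.symm i, rfl, fun g => ?_⟩
  obtain ⟨x, hx, h⟩ := mem_iUnion₂.1 (ht (mem_univ g))
  exact ⟨(t.equivFin ⟨x, hx⟩).succ, by simpa using h⟩

end Pool.Agent.Lib.MP_7f377f_mp.GH
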