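import Pool.Agent.Lib.MP_7f377f_mp.G.GLocM

/-! The Killing form of a Lie algebra of antisymmetric matrices with the Schur property is a multiple of the
trace form; the constant in an adapted basis. -/

noncomputable section

namespace Pool.Agent.Lib.MP_7f377f_mp.GE

open Set Matrix

attribute [local instance 100] LieRing.ofAssociativeRing

variable {N d : ℕ} (g : LieSubalgebra ℝ (MR N)) (ha : ∀ X ∈ g, Xᵀ = -X) (u : Fin d → MR N)
  (hu : ∀ k j, trace ((u k)ᵀ * u j) = if k = j then 1 else 0)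
  (hs : Submodule.span ℝ (range u) = g.toSubmodule)

include hu hs in
theorem killing_sum (X Y : g) :
    killingForm ℝ g X Y = ∑ k, trace ((u k)ᵀ * (X.1 * (Y.1 * u k - u k * Y.1) -
      (Y.1 * u k - u k * Y.1) * X.1)) := by
  rw [killingForm, LieModule.traceForm_apply_apply]
  refine (trace_bas u hu g.toSubmodule hs _).trans (Finset.sum_congr rfl fun k _ => ?_)
  rw [← bas_coe u hu g.toSubmodule hs k]
  rfl

include ha hu hs in
theorem killing_const
    (hsch : ∀ T : g →ₗ[ℝ] g, (∀ X Y : g, T ⁅X, Y⁆ = ⁅X, T Y⁆) → ∃ c : ℝ, ∀ Y, T Y = c • Y) :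
    ∃ c : ℝ, ∀ X Y : g, killingForm ℝ g X Y = c * trace (X.1 * Y.1) := by
  let b : Module.Basis (Fin d) ℝ g := bas u hu g.toSubmodule hs
  have hb : ∀ k, (b k : MR N) = u k := bas_coe u hu g.toSubmodule hs
  have hr : ∀ (X : g) k, b.repr X k = trace ((u k)ᵀ * X.1) := fun X k => rfl
  let T : g →ₗ[ℝ] g := ∑ k, (killingForm ℝ g (b k)).smulRight (b k)
  have hT : ∀ Y k, b.repr (T Y) k = killingForm ℝ g (b k) Y := fun Y k => by
    simp [T, Finsupp.single_apply]
  have hT2 : ∀ X Y : g, trace (X.1ᵀ * (T Y).1) = killingForm ℝ g X Y := fun X Y => by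
    conv_lhs => rw [← b.sum_repr X]
    conv_rhs => rw [← b.sum_repr X]
    simp only [map_sum, map_smul, LinearMap.sum_apply, LinearMap.smul_apply, smul_eq_mul, ← hT]
    rw [show ((∑ i, b.repr X i • b i : g) : MR N) = ∑ i, b.repr X i • u i by
      simp only [← hb]
      exact map_sum g.incl.toLinearMap _ _]
    simp only [transpose_sum, transpose_smul, Finset.sum_mul, smul_mul_assoc, trace_sum, trace_smul,
      smul_eq_mul, hr (T Y)]
  obtain ⟨c, hc⟩ := hsch T fun X Y => by
    refine b.ext_elem fun k => ?_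
    rw [hT, hr, ← LieModule.traceForm_apply_lie_apply, ← hT2, ← hb k]
    have h1 := ha _ X.2
    have h2 := ha _ (b k).2
    simp only [LieSubalgebra.coe_bracket, Ring.lie_def, transpose_sub, transpose_mul, h1, h2, mul_sub,
      sub_mul, neg_mul, mul_neg, neg_neg, trace_sub, trace_neg, mul_assoc]
    rw [trace_mul_comm X.1, mul_assoc]
    ring
  refine ⟨-c, fun X Y => ?_⟩
  rw [← hT2, hc, ha _ X.2]
  simp

include ha hu hs in
theorem killing_adapted (c : ℝ) (hc : ∀ X Y : g, killingForm ℝ g X Y = c * trace (X.1 * Y.1))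
    (k0 : Fin d) (τ : Fin d → Fin d) (q : Fin d → ℝ) (h1 : ∀ k, τ (τ k) = k)
    (h2 : ∀ k, q (τ k) = -q k) (h3 : ∀ k, u k0 * u k - u k * u k0 = q k • u (τ k)) :
    c = ∑ k, q k ^ 2 := by
  have hm : u k0 ∈ g := by
    rw [← LieSubalgebra.mem_toSubmodule, ← hs]
    exact Submodule.subset_span ⟨k0, rfl⟩
  have h4 := killing_sum g u hu hs ⟨_, hm⟩ ⟨_, hm⟩
  have h5 := hu k0 k0
  rw [ha _ hm, neg_mul, trace_neg, if_pos rfl] at h5
  rw [hc] at h4
  simp only [h3, mul_smul_comm, smul_mul_assoc, ← smul_sub, h1, h2, trace_smul, hu, if_true,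
    smul_eq_mul] at h4
  have h6 : ∑ k, q k * (-q k * 1) = -∑ k, q k ^ 2 := by
    rw [← Finset.sum_neg_distrib]
    exact Finset.sum_congr rfl fun k _ => by ring
  rw [h6, show trace (u k0 * u k0) = -1 by linarith] at h4
  linarith

end Pool.Agent.Lib.MP_7f377f_mp.GE
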