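import Pool.Agent.Lib.MP_7f377f_mp.G.GLocM

/-! The one parameter subgroups of a closed matrix group form a Lie algebra (von Neumann). -/

noncomputable section

namespace Pool.Agent.Lib.MP_7f377f_mp.GE

open NormedSpace Filter Topology Set

section Alg

variable {A : Type*} [NormedRing A] [NormedAlgebra ℝ A] [FiniteDimensional ℝ A]

theorem add_pos_alg (H : Set A) (hc : IsClosed H) (h1 : 1 ∈ H) (hm : ∀ a ∈ H, ∀ b ∈ H, a * b ∈ H)
    {X Y : A} (hX : ∀ s : ℝ, exp (s • X) ∈ H) (hY : ∀ s : ℝ, exp (s • Y) ∈ H) (s : ℝ) (hs : 0 ≤ s) :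
    exp (s • (X + Y)) ∈ H := by
  have : CompleteSpace A := FiniteDimensional.complete ℝ A
  have he : HasStrictFDerivAt (exp : A → A)
      ((ContinuousLinearEquiv.refl ℝ A : A ≃L[ℝ] A) : A →L[ℝ] A) 0 := hasStrictFDerivAt_exp_zero
  have hp : HasDerivAt (fun u : ℝ => exp (u • X) * exp (u • Y)) (X + Y) 0 := by
    simpa using (hasDerivAt_exp_smul_const (𝕂 := ℝ) X 0).fun_mul (hasDerivAt_exp_smul_const (𝕂 := ℝ) Y 0)
  have h0 : exp (0 : A) = exp ((0 : ℝ) • X) * exp ((0 : ℝ) • Y) := by simp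
  have hl := he.to_localInverse.hasFDerivAt
  have hr := he.eventually_right_inverse
  have hz := he.localInverse_apply_image
  rw [h0] at hl hr hz
  set l := he.localInverse exp _ 0
  have hd : HasDerivAt (fun u : ℝ => l (exp (u • X) * exp (u • Y))) (X + Y) 0 := by
    simpa [Function.comp_def] using hl.comp_hasDerivAt (0 : ℝ) hp
  have ht : Tendsto (fun k : ℕ => 1 / ((k : ℝ) + 1)) atTop (𝓝[≠] 0) :=
    tendsto_nhdsWithin_iff.2 ⟨tendsto_one_div_add_atTop_nhds_zero_nat,
      Eventually.of_forall fun k => (by positivity : 0 < 1 / ((k : ℝ) + 1)).ne'⟩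
  have h2 := (hasDerivAt_iff_tendsto_slope_zero.1 hd).comp ht
  have h3 := (hp.continuousAt.tendsto.comp (ht.mono_right nhdsWithin_le_nhds)).eventually hr
  obtain ⟨k0, hk⟩ := eventually_atTop.1 h3
  refine exp_lim H hc h1 hm
    (fun k => l (exp ((1 / (((k + k0 : ℕ) : ℝ) + 1)) • X) * exp ((1 / (((k + k0 : ℕ) : ℝ) + 1)) • Y)))
    (fun k => 1 / (((k + k0 : ℕ) : ℝ) + 1)) (fun k => by positivity)
    (tendsto_one_div_add_atTop_nhds_zero_nat.comp (tendsto_add_atTop_nat k0)) _ ?_ (fun k => ?_) s hs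
  · refine (h2.comp (tendsto_add_atTop_nat k0)).congr fun k => ?_
    simp only [Function.comp, zero_add, hz, sub_zero]
  · have := hk (k + k0) (by omega)
    simp only [Function.comp] at this
    rw [this]
    exact hm _ (hX _) _ (hY _)

theorem add_alg (H : Set A) (hc : IsClosed H) (h1 : 1 ∈ H) (hm : ∀ a ∈ H, ∀ b ∈ H, a * b ∈ H)
    {X Y : A} (hX : ∀ s : ℝ, exp (s • X) ∈ H) (hY : ∀ s : ℝ, exp (s • Y) ∈ H) (s : ℝ) :
    exp (s • (X + Y)) ∈ H := by
  rcases le_total 0 s with hs | hs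
  · exact add_pos_alg H hc h1 hm hX hY s hs
  · have := add_pos_alg H hc h1 hm (X := -X) (Y := -Y) (fun u => by simpa using hX (-u))
      (fun u => by simpa using hY (-u)) (-s) (by linarith)
    rwa [← neg_add, neg_smul_neg] at this

/-- a subspace invariant under conjugation by a one parameter group is invariant under the bracket -/
theorem lie_alg (g : Submodule ℝ A) {X Y : A} (h : ∀ s : ℝ, exp (s • X) * Y * exp (s • -X) ∈ g) :
    X * Y - Y * X ∈ g := by
  have : CompleteSpace A := FiniteDimensional.complete ℝ A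
  have hp : HasDerivAt (fun u : ℝ => exp (u • X) * Y * exp (u • -X)) (X * Y - Y * X) 0 := by
    simpa [sub_eq_add_neg] using ((hasDerivAt_exp_smul_const (𝕂 := ℝ) X 0).mul_const Y).fun_mul
      (hasDerivAt_exp_smul_const (𝕂 := ℝ) (-X) 0)
  exact g.closed_of_finiteDimensional.mem_of_tendsto (hasDerivAt_iff_tendsto_slope_zero.1 hp)
    (Eventually.of_forall fun u => g.smul_mem _ (g.sub_mem (h _) (h _)))

end Alg

attribute [local instance 100] LieRing.ofAssociativeRing

set_option backward.isDefEq.respectTransparency false in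
/-- the Lie algebra of a compact matrix group exists -/
theorem exists_lie {G : Type*} [Group G] [TopologicalSpace G] [CompactSpace G] {N : ℕ} (ρ : G →* MR N)
    (hc : Continuous ρ) :
    ∃ g : LieSubalgebra ℝ (MR N), ∀ X, X ∈ g ↔ ∀ s : ℝ, exp (s • X) ∈ range ρ := by
  open scoped Matrix.Norms.Frobenius in
  have hm : ∀ a ∈ range ρ, ∀ b ∈ range ρ, a * b ∈ range ρ := by
    rintro _ ⟨a, rfl⟩ _ ⟨b, rfl⟩
    exact ⟨a * b, map_mul ρ a b⟩
  let g : Submodule ℝ (MR N) :=
    { carrier := {X | ∀ s : ℝ, exp (s • X) ∈ range ρ}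
      add_mem' := fun hX hY => add_alg _ (isCompact_range hc).isClosed ⟨1, map_one ρ⟩ hm hX hY
      zero_mem' := fun s => ⟨1, by simp⟩
      smul_mem' := fun c X hX s => by simpa [smul_smul] using hX (s * c) }
  refine ⟨{ g with lie_mem' := fun {X Y} hX hY => lie_alg g fun s u => ?_ }, fun X => Iff.rfl⟩
  have hu := Matrix.isUnit_exp (s • X)
  rw [smul_neg, Matrix.exp_neg, ← smul_mul_assoc, ← mul_smul_comm, Matrix.exp_conj _ _ hu,
    ← Matrix.exp_neg, ← neg_smul]
  exact hm _ (hm _ (hX _) _ (hY _)) _ (hX _)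

end Pool.Agent.Lib.MP_7f377f_mp.GE
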