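import Pool.Agent.Lib.MP_7f377f_mp.G.GEx
import Pool.Agent.Lib.MP_7f377f_mp.G.GHaar0

/-! The logarithm of the Jacobian of the chart. -/

noncomputable section

set_option linter.unusedSectionVars false
variable [Pool.Agent.Lib.MP_7f377f_mp.GD]

namespace Pool.Agent.Lib.MP_7f377f_mp.RG

open GD Matrix Finset Metric
open scoped Matrix.Norms.Frobenius

/-- differential of the right translation in the chart -/
def Nq (q : Hc) : C3 →ₗ[ℂ] C3 where
  toFun a := co (io a * q)
  map_add' a b := by rw [io_add, add_mul, co_add]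
  map_smul' c a := by rw [io_smul, smul_mul_assoc, co_smul]; rfl

/-- logarithm of the inverse density of the Haar measure in the chart -/
def lj (b : C3) : ℂ := 2⁻¹ * Complex.log (LinearMap.det (Nq (ex b)) ^ 2)

namespace Lj

/-- the coordinate basis -/
def bC : Module.Basis (Fin d) ℂ C3 := Pi.basisFun ℂ (Fin d)

theorem mat (f : C3 →ₗ[ℂ] C3) : LinearMap.toMatrix bC bC f = of fun k j => f (bC j) k := by
  ext k j
  rw [LinearMap.toMatrix_apply]
  rfl

theorem det_eq (q : Hc) : LinearMap.det (Nq q) = (of fun k j => co (io (bC j) * q) k).det := by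
  rw [← LinearMap.det_toMatrix bC, mat]
  rfl

theorem bC_apply (j k : Fin d) : bC j k = if k = j then 1 else 0 :=
  (congrFun (Pi.basisFun_apply ℂ (Fin d) j) k).trans (Pi.single_apply _ _ _)

theorem norm_bC (k : Fin d) : ‖bC k‖ = 1 := by
  simp [norm_C3, bC_apply, apply_ite norm]

theorem io_bC (k : Fin d) : (io (bC k)).m = eC k := by
  simp [io_m, bC_apply]

theorem tr_half {x m : Matrix (Fin n) (Fin n) ℂ} (h : mᵀ + m + m * mᵀ = 0) :
    2 * trace (xᵀ * (x * m)) = -trace ((x * m)ᵀ * (x * m)) := by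
  have e1 : trace (xᵀ * (x * m)) = trace (xᵀ * (x * mᵀ)) := by
    rw [← trace_transpose, transpose_mul, transpose_mul, transpose_transpose, Matrix.mul_assoc,
      trace_mul_comm, Matrix.mul_assoc]
  have e2 : trace ((x * m)ᵀ * (x * m)) = trace (xᵀ * (x * (m * mᵀ))) := by
    rw [transpose_mul, Matrix.mul_assoc, trace_mul_comm]
    simp only [Matrix.mul_assoc]
  have := congrArg (fun y => trace (xᵀ * (x * y))) h
  simp only [Matrix.mul_add, trace_add, Matrix.mul_zero, trace_zero] at this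
  linear_combination this + e1 + e2

theorem log_Nq {q : Hc} (hq : q * star q = 1) (h1 : q.re = 1) (h : ‖q - 1‖ ≤ 4) :
    ∃ z, LinearMap.det (Nq q) = Complex.exp z ∧ ‖z‖ ≤ ‖q - 1‖ ^ 2 / 64 := by
  have t0 := t_pos
  have t1 := big
  have n0 : (0 : ℝ) ≤ n := Nat.cast_nonneg _
  have d0 : (0 : ℝ) ≤ d := Nat.cast_nonneg _
  have y0 : (q - 1).re = 0 := sub_eq_zero.2 h1
  have e : ∀ a, Nq q a - a = co (io a * (q - 1)) := fun a => by
    rw [mul_sub, mul_one, co_sub, co_io]
    rfl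
  have b : ∀ a, ‖io a * (q - 1)‖ ≤ ‖q - 1‖ / t * ‖a‖ := fun a =>
    (Un.norm_mul_re0 rfl y0).trans_eq (by rw [norm_io']; ring)
  obtain ⟨z, hz, hb⟩ := GH.log_det (Nq q) (κ := ‖q - 1‖ / t)
    (fun a => by rw [e]; exact (norm_co _).trans (b a)) (by rw [div_le_iff₀ t0]; nlinarith)
  have fr : Module.finrank ℂ C3 = d := by rw [Module.finrank_eq_card_basis bC, Fintype.card_fin]
  have hm : q.mᵀ + q.m + q.m * q.mᵀ = 0 := by
    have : q.re • q.mᵀ + q.re • q.m + q.m * q.mᵀ = 0 := congrArg Un.m hq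
    rwa [h1, one_smul, one_smul] at this
  have tr : ‖LinearMap.trace ℂ C3 (Nq q) - d‖ ≤ d * ((‖q - 1‖ / t) ^ 2 / 2) := by
    have : LinearMap.trace ℂ C3 (Nq q) - d = ∑ k, co (io (bC k) * (q - 1)) k := by
      rw [LinearMap.trace_eq_matrix_trace ℂ bC, mat]
      simp only [← e]
      change ∑ k, Nq q (bC k) k - _ = ∑ k, (Nq q (bC k) k - bC k k)
      simp [bC_apply]
    rw [this]
    refine (norm_sum_le_of_le _ (n := fun _ => (‖q - 1‖ / t) ^ 2 / 2) fun k _ => ?_).trans_eq (by simp)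
    have e1 : (io (bC k) * (q - 1)).m = eC k * q.m := by
      change (0 : ℂ) • (q.m - 0) + (q - 1).re • _ + _ * (q.m - 0) = _
      rw [y0, io_bC, zero_smul, zero_smul, sub_zero, zero_add, zero_add]
    have e2 := (norm_bq (io (bC k) * (q - 1)) _).trans_eq (sq _).symm
    rw [← Un.norm_of_re (q := io (bC k) * (q - 1)) (zero_mul _), bq] at e2
    have e3 := pow_le_pow_left₀ (norm_nonneg _) (b (bC k)) 2
    have e4 : 2 * co (io (bC k) * (q - 1)) k = -((t : ℂ) ^ 2 * trace ((eC k * q.m)ᵀ * (eC k * q.m))) := by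
      rw [co_apply, e1, mul_left_comm, tr_half hm, mul_neg]
    have e5 := congrArg norm e4
    rw [norm_mul, norm_neg, Complex.norm_two] at e5
    rw [e1] at e2
    rw [norm_bC, mul_one] at e3
    linarith
  refine ⟨z, hz, ?_⟩
  rw [fr] at hb
  have := norm_le_insert' z (LinearMap.trace ℂ C3 (Nq q) - d)
  have k : d * (‖q - 1‖ / t) ^ 2 ≤ ‖q - 1‖ ^ 2 / 100 := by
    rw [div_pow, ← mul_div_assoc, div_le_div_iff₀ (by positivity) (by norm_num)]
    have : 1000 * ((d : ℝ) + 1) ≤ t := by nlinarith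
    have : 100 * (d : ℝ) ≤ t ^ 2 := by nlinarith
    nlinarith [sq_nonneg ‖q - 1‖]
  nlinarith [sq_nonneg ‖q - 1‖]

theorem spec {b : C3} (h : ‖b‖ ≤ 2) :
    LinearMap.det (Nq (ex b)) = Complex.exp (lj b) ∧ ‖lj b‖ ≤ ‖b‖ ^ 2 / 16 := by
  have h1 := norm_ex_sub (b := b) (by linarith)
  obtain ⟨z, hz, hb⟩ := log_Nq (uni_ex b).mul_star (ex_re b) (by linarith)
  have h2 : ‖z‖ ≤ ‖b‖ ^ 2 / 16 := by nlinarith [norm_nonneg (ex b - 1)]
  have h3 := abs_le.1 ((Complex.abs_im_le_norm z).trans h2)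
  have h4 : ‖b‖ ^ 2 ≤ 4 := by nlinarith [norm_nonneg b]
  have h5 : (z + z).im = z.im + z.im := rfl
  rw [lj, hz, sq, ← Complex.exp_add, Complex.log_exp (by linarith [Real.pi_gt_three])
    (by linarith [Real.pi_gt_three]), ← two_mul, inv_mul_cancel_left₀ two_ne_zero]
  exact ⟨rfl, h2⟩

theorem near {b : C3} (h : ‖b‖ ≤ 1) : ‖LinearMap.det (Nq (ex b)) ^ 2 - 1‖ ≤ 1 / 2 := by
  obtain ⟨h1, h2⟩ := spec (h.trans one_le_two)
  have h3 : ‖lj b + lj b‖ ≤ 1 / 8 := by nlinarith [norm_add_le (lj b) (lj b), norm_nonneg b]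
  rw [h1, sq, ← Complex.exp_add]
  linarith [Complex.norm_exp_sub_one_le (h3.trans (by norm_num))]

theorem det_real (g : S3) : ∃ x : ℝ, LinearMap.det (Nq (cS g)) = x := by
  refine ⟨(of fun k j => (co (io (bC j) * cS g) k).re).det, ?_⟩
  rw [det_eq, ← Complex.ofRealHom_eq_coe, RingHom.map_det]
  refine congrArg det (Matrix.ext fun k j => Complex.ext rfl ?_)
  rw [of_apply, bC, Pi.basisFun_apply, io_single, cS, ← cq_mul, co_real]
  rfl

end Lj

open Lj

theorem lj_le {b : C3} (h : ‖b‖ ≤ 2) : ‖lj b‖ ≤ ‖b‖ ^ 2 / 16 := (spec h).2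

@[simp] theorem lj_zero : lj 0 = 0 := by simpa using lj_le (b := 0) (by simp)

theorem diff_lj {Ω : Set ℂ} {f : ℂ → C3} (h : DifferentiableOn ℂ f Ω)
    (h0 : ∀ t ∈ Ω, ‖f t‖ ≤ 1 / 2) : DifferentiableOn ℂ (fun t => lj (f t)) Ω := by
  refine (DifferentiableOn.clog (.pow ?_ 2) fun s hs => ?_).const_mul _
  · simp only [det_eq, det_apply']
    exact .fun_sum fun σ _ => (DifferentiableOn.fun_finsetProd fun i _ =>
      (LinearMap.toContinuousLinearMap (bC.coord (σ i))).differentiable.comp_differentiableOn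
        (coL.differentiable.comp_differentiableOn ((differentiableOn_ex.comp h fun s hs =>
          mem_ball_zero_iff.2 ((h0 s hs).trans_lt (by norm_num))).const_mul _))).const_mul _
  · have := Complex.mem_slitPlane_of_norm_lt_one
      ((near ((h0 s hs).trans (by norm_num))).trans_lt (by norm_num))
    rwa [add_sub_cancel] at this

theorem lj_lip {a v : C3} {x y : ℝ} (ha : ‖a‖ ≤ x) (hv : ‖v‖ ≤ y) (h : x + y ≤ 1 / 4) :
    ‖lj (a + v) - lj a‖ ≤ (2 * x + y) * y := by
  have x0 := (norm_nonneg _).trans ha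
  rcases eq_or_ne v 0 with rfl | v0
  · simpa using mul_nonneg (by linarith [norm_nonneg (0 : C3)]) ((norm_nonneg _).trans hv)
  have p := norm_pos_iff.2 v0
  have m : ∀ s ∈ ball (0 : ℂ) ((x + 2 * y) / ‖v‖), ‖a + s • v‖ ≤ 2 * (x + y) := fun s hs => by
    have := (lt_div_iff₀ p).1 (mem_ball_zero_iff.1 hs)
    linarith [norm_add_le a (s • v), norm_smul s v]
  have := Complex.dist_le_div_mul_dist_of_mapsTo_ball (f := fun s : ℂ => lj (a + s • v))
    (R₂ := (x + y) ^ 2 / 2) (z := 1)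
    (diff_lj (by fun_prop) fun s hs => (m s hs).trans (by linarith)) (fun s hs => by
      rw [mem_closedBall_iff_norm, zero_smul, add_zero]
      have h1 := lj_le ((m s hs).trans (by linarith))
      have h2 := lj_le (ha.trans (by linarith))
      nlinarith [norm_sub_le (lj (a + s • v)) (lj a), pow_le_pow_left₀ (norm_nonneg _) (m s hs) 2,
        pow_le_pow_left₀ (norm_nonneg _) ha 2])
    (by rw [mem_ball_zero_iff, norm_one, lt_div_iff₀ p]; linarith)
  rw [one_smul, zero_smul, add_zero, dist_eq_norm, dist_zero_right, norm_one, mul_one,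
    div_div_eq_mul_div] at this
  refine this.trans ?_
  rw [div_le_iff₀ (by linarith)]
  nlinarith [mul_le_mul_of_nonneg_left hv (sq_nonneg (x + y)), mul_nonneg x0 (p.le.trans hv),
    mul_nonneg (mul_nonneg x0 (p.le.trans hv)) (p.le.trans hv), pow_nonneg (p.le.trans hv) 3,
    mul_nonneg (mul_nonneg x0 x0) (p.le.trans hv)]

theorem meas_lj : Measurable lj := by
  refine (Measurable.clog (.pow_const ?_ 2)).const_mul _
  simp only [det_eq, det_apply']
  exact Finset.measurable_fun_sum _ fun σ _ => (Finset.measurable_fun_prod _ fun i _ =>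
    (coL.continuous.measurable.comp (measurable_ex.const_mul _)).eval).const_mul _

theorem lj_im {b : C3} (h : ∀ k, (b k).im = 0) : (lj b).im = 0 := by
  obtain ⟨g, hg⟩ := ex_real' h
  obtain ⟨x, hx⟩ := det_real g
  rw [lj, ← hg, hx, ← Complex.ofReal_pow, ← Complex.ofReal_log (sq_nonneg x), ← Complex.ofReal_ofNat,
    ← Complex.ofReal_inv, ← Complex.ofReal_mul, Complex.ofReal_im]

theorem lj_adq {h : Hc} (hh : Uni h) (b : C3) : lj (adq h b) = lj b := by
  have i : adL h ∘ₗ adL (star h) = LinearMap.id := LinearMap.ext (adq_adq_star hh)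
  have e : Nq (ex (adq h b)) ∘ₗ adL h = adL h ∘ₗ Nq (ex b) := LinearMap.ext fun a => by
    change co (io (adq h a) * ex (adq h b)) = adq h (co (io a * ex b))
    rw [io_adq hh, ex_adq hh, ← co_conj hh]
    congr 1
    rw [mul_assoc _ (star h), ← mul_assoc (star h), ← mul_assoc (star h), hh.star_mul, one_mul]
    simp only [mul_assoc]
  have d0 : LinearMap.det (adL h) ≠ 0 := left_ne_zero_of_mul_eq_one
    ((LinearMap.det_comp _ _).symm.trans ((congrArg _ i).trans LinearMap.det_id))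
  have := congrArg LinearMap.det e
  rw [LinearMap.det_comp, LinearMap.det_comp, mul_comm] at this
  rw [lj, lj, mul_left_cancel₀ d0 this]

end Pool.Agent.Lib.MP_7f377f_mp.RG
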