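import Mathlib

/-! The closed subgroup theorem of von Neumann and Cartan in a finite dimensional real normed algebra. -/

noncomputable section

namespace Pool.Agent.Lib.MP_7f377f_mp.GE

open NormedSpace Filter Topology Set

section Alg

variable {A : Type*} [NormedRing A] [NormedAlgebra ℝ A] [FiniteDimensional ℝ A]

theorem exp_neg_mul (X : A) : exp (-X) * exp X = 1 := by
  have : CompleteSpace A := FiniteDimensional.complete ℝ A
  let : NormedAlgebra ℚ A := NormedAlgebra.restrictScalars ℚ ℝ A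
  rw [← exp_add_of_commute (Commute.refl X).neg_left, neg_add_cancel, exp_zero]

theorem exp_nsm (k : ℕ) (X : A) : exp (k • X) = exp X ^ k := by
  have : CompleteSpace A := FiniteDimensional.complete ℝ A
  let : NormedAlgebra ℚ A := NormedAlgebra.restrictScalars ℚ ℝ A
  exact exp_nsmul k X

theorem cont_exp : Continuous (exp : A → A) := by
  have : CompleteSpace A := FiniteDimensional.complete ℝ A
  let : NormedAlgebra ℚ A := NormedAlgebra.restrictScalars ℚ ℝ A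
  exact exp_continuous

/-- limits of rescaled small elements with exponential in a closed monoid -/
theorem exp_lim (H : Set A) (hc : IsClosed H) (h1 : 1 ∈ H) (hm : ∀ a ∈ H, ∀ b ∈ H, a * b ∈ H)
    (Y : ℕ → A) (r : ℕ → ℝ) (hr : ∀ k, 0 < r k) (hr0 : Tendsto r atTop (𝓝 0)) (Z : A)
    (hZ : Tendsto (fun k => (r k)⁻¹ • Y k) atTop (𝓝 Z)) (hY : ∀ k, exp (Y k) ∈ H) (s : ℝ)
    (hs : 0 ≤ s) : exp (s • Z) ∈ H := by
  have hp : ∀ a ∈ H, ∀ k : ℕ, a ^ k ∈ H := fun a ha k => by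
    induction k with
    | zero => simpa using h1
    | succ k ih => rw [pow_succ]; exact hm _ ih _ ha
  have h2 : Tendsto (fun k => (⌊s / r k⌋₊ : ℝ) * r k) atTop (𝓝 s) := by
    have hl : Tendsto (fun k => s - r k) atTop (𝓝 s) := by
      simpa using (tendsto_const_nhds (x := s)).sub hr0
    refine tendsto_of_tendsto_of_tendsto_of_le_of_le hl tendsto_const_nhds (fun k => ?_) (fun k => ?_)
    · have h := Nat.lt_floor_add_one (s / r k)
      rw [div_lt_iff₀ (hr k)] at h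
      show s - r k ≤ (⌊s / r k⌋₊ : ℝ) * r k
      nlinarith
    · have h := Nat.floor_le (div_nonneg hs (hr k).le)
      rw [le_div_iff₀ (hr k)] at h
      exact h
  have h3 : Tendsto (fun k => ⌊s / r k⌋₊ • Y k) atTop (𝓝 (s • Z)) := by
    refine (h2.smul hZ).congr fun k => ?_
    rw [smul_smul, mul_assoc, mul_inv_cancel₀ (hr k).ne', mul_one, Nat.cast_smul_eq_nsmul]
  refine hc.mem_of_tendsto ((cont_exp.tendsto _).comp h3) (Eventually.of_forall fun k => ?_)
  show exp (⌊s / r k⌋₊ • Y k) ∈ H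
  rw [exp_nsm]
  exact hp _ (hY k) _

/-- no small element of a complement of the Lie algebra has its exponential in the group -/
theorem no_small (H : Set A) (hc : IsClosed H) (h1 : 1 ∈ H) (hm : ∀ a ∈ H, ∀ b ∈ H, a * b ∈ H)
    (hi : ∀ a ∈ H, ∀ b, b * a = 1 → b ∈ H) (m : Submodule ℝ A)
    (hd : ∀ Z ∈ m, (∀ s : ℝ, exp (s • Z) ∈ H) → Z = 0) :
    ∃ ε > 0, ∀ Y ∈ m, ‖Y‖ < ε → exp Y ∈ H → Y = 0 := by
  by_contra hn
  push Not at hn
  choose Y hYm hYn hYH hY0 using fun k : ℕ => hn (1 / ((k : ℝ) + 1)) (by positivity)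
  have hr : ∀ k, 0 < ‖Y k‖ := fun k => norm_pos_iff.2 (hY0 k)
  have hr0 : Tendsto (fun k => ‖Y k‖) atTop (𝓝 0) :=
    squeeze_zero (fun k => norm_nonneg _) (fun k => (hYn k).le) tendsto_one_div_add_atTop_nhds_zero_nat
  have : ProperSpace A := FiniteDimensional.proper ℝ A
  have hmem : ∀ k, ‖Y k‖⁻¹ • Y k ∈ Metric.sphere (0 : A) 1 ∩ (m : Set A) := fun k => by
    refine ⟨?_, m.smul_mem _ (hYm k)⟩
    rw [mem_sphere_zero_iff_norm, norm_smul, norm_inv, norm_norm, inv_mul_cancel₀ (hr k).ne']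
  obtain ⟨Z, hZ, φ, hφ, hlim⟩ :=
    ((isCompact_sphere (0 : A) 1).inter_right m.closed_of_finiteDimensional).tendsto_subseq hmem
  have hr1 := hr0.comp hφ.tendsto_atTop
  have hZ0 : Z = 0 := hd Z hZ.2 fun s => by
    rcases le_total 0 s with hs | hs
    · exact exp_lim H hc h1 hm (fun k => Y (φ k)) (fun k => ‖Y (φ k)‖) (fun k => hr _) hr1 Z hlim
        (fun k => hYH _) s hs
    · have := exp_lim H hc h1 hm (fun k => -Y (φ k)) (fun k => ‖Y (φ k)‖) (fun k => hr _) hr1 (-Z)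
        (by simpa using hlim.neg) (fun k => hi _ (hYH _) _ (exp_neg_mul _)) (-s) (by linarith)
      simpa using this
  have := hZ.1
  rw [hZ0] at this
  simp at this

/-- closed subgroup theorem, local form -/
theorem loc_alg (H : Set A) (hc : IsClosed H) (h1 : 1 ∈ H) (hm : ∀ a ∈ H, ∀ b ∈ H, a * b ∈ H)
    (hi : ∀ a ∈ H, ∀ b, b * a = 1 → b ∈ H) (g : Submodule ℝ A)
    (hg : ∀ X, X ∈ g ↔ ∀ s : ℝ, exp (s • X) ∈ H) (η : ℝ) (hη : 0 < η) :
    ∃ δ > 0, ∀ h ∈ H, ‖h - 1‖ ≤ δ → ∃ X ∈ g, h = exp X ∧ (1 - η) * ‖X‖ ≤ ‖h - 1‖ := by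
  have : CompleteSpace A := FiniteDimensional.complete ℝ A
  obtain ⟨m, hgm⟩ := g.exists_isCompl
  obtain ⟨ε, hε, hsm⟩ := no_small H hc h1 hm hi m fun Z hZ hs => by
    have := hgm.disjoint
    rw [Submodule.disjoint_def] at this
    exact this Z ((hg Z).2 hs) hZ
  let P : A →L[ℝ] A := LinearMap.toContinuousLinearMap (g.projection m hgm)
  let Q : A →L[ℝ] A := LinearMap.toContinuousLinearMap (m.projection g hgm.symm)
  have hPQ : ∀ Z, P Z + Q Z = Z := fun Z => Submodule.projection_add_projection_eq_self hgm Z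
  have hP : ∀ Z, P Z ∈ g := fun Z => Submodule.projection_apply_mem hgm Z
  have hQ : ∀ Z, Q Z ∈ m := fun Z => Submodule.projection_apply_mem hgm.symm Z
  have he : HasStrictFDerivAt (exp : A → A) (1 : A →L[ℝ] A) 0 := hasStrictFDerivAt_exp_zero
  have hd : HasStrictFDerivAt (fun Z => exp (P Z) * exp (Q Z))
      ((ContinuousLinearEquiv.refl ℝ A : A ≃L[ℝ] A) : A →L[ℝ] A) 0 := by
    have e1 : HasStrictFDerivAt (fun Z => exp (P Z)) ((1 : A →L[ℝ] A).comp P) 0 :=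
      HasStrictFDerivAt.comp 0 (by simpa using he) P.hasStrictFDerivAt
    have e2 : HasStrictFDerivAt (fun Z => exp (Q Z)) ((1 : A →L[ℝ] A).comp Q) 0 :=
      HasStrictFDerivAt.comp 0 (by simpa using he) Q.hasStrictFDerivAt
    refine (e1.fun_mul' e2).congr_fderiv ?_
    ext Z
    simp [add_comm, hPQ]
  have hmap := hd.map_nhds_eq_of_equiv
  simp only [map_zero, exp_zero, mul_one] at hmap
  have hU1 : ∀ᶠ X in 𝓝 (0 : A), ‖exp X - 1 - X‖ ≤ η * ‖X‖ := by
    have := (hasFDerivAt_iff_isLittleO_nhds_zero.1 he.hasFDerivAt).def hη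
    simpa using this
  have hU2 : ∀ᶠ Z in 𝓝 (0 : A), ‖exp (P Z) - 1 - P Z‖ ≤ η * ‖P Z‖ := by
    have : Tendsto P (𝓝 0) (𝓝 0) := by simpa using P.continuous.tendsto 0
    exact this.eventually hU1
  have hU3 : ∀ᶠ Z in 𝓝 (0 : A), ‖Q Z‖ < ε := by
    have : Tendsto (fun Z => ‖Q Z‖) (𝓝 0) (𝓝 0) := by simpa using Q.continuous.norm.tendsto 0
    exact this.eventually (gt_mem_nhds hε)
  have hU : (fun Z => exp (P Z) * exp (Q Z)) ''
      {Z | ‖exp (P Z) - 1 - P Z‖ ≤ η * ‖P Z‖ ∧ ‖Q Z‖ < ε} ∈ 𝓝 (1 : A) := by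
    rw [← hmap]
    exact image_mem_map (hU2.and hU3)
  obtain ⟨δ, hδ, hb⟩ := Metric.mem_nhds_iff.1 hU
  refine ⟨δ / 2, by positivity, fun h hh hn => ?_⟩
  obtain ⟨Z, ⟨hZ1, hZ2⟩, hZ⟩ := hb (a := h) (by rw [mem_ball_iff_norm]; linarith)
  have hX : exp (-P Z) ∈ H := by simpa using (hg _).1 (hP Z) (-1)
  have hY : exp (Q Z) ∈ H := by
    have := hm _ hX _ hh
    rwa [← hZ, ← mul_assoc, exp_neg_mul, one_mul] at this
  have h0 := hsm _ (hQ Z) hZ2 hY
  have hh' : h = exp (P Z) := by rw [← hZ]; simp [h0]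
  refine ⟨P Z, hP Z, hh', ?_⟩
  rw [← hh'] at hZ1
  have := norm_sub_norm_le (P Z) (h - 1)
  rw [← norm_neg (P Z - (h - 1)), neg_sub] at this
  linarith

end Alg

end Pool.Agent.Lib.MP_7f377f_mp.GE
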