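import Pool.Agent.Lib.MP_7f377f_mp.G.RGAlg
import Pool.Agent.Lib.MP_7f377f_mp.G.GData
import Pool.Agent.Lib.MP_7f377f_mp.G.GSchur

/-! The data `GD` of a compact group of orthogonal matrices with simple Lie algebra. -/

noncomputable section

namespace Pool.Agent.Lib.MP_7f377f_mp.GE

open NormedSpace Set Matrix

attribute [local instance 100] LieRing.ofAssociativeRing

variable (G : Type) [Group G] [TopologicalSpace G] [IsTopologicalGroup G] [CompactSpace G] {N : ℕ}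
  (ρ : G →* MR N) (hc : Continuous ρ) (ho : ∀ a, (ρ a)ᵀ * ρ a = 1) (hi : Function.Injective ρ)
  (g : LieSubalgebra ℝ (MR N)) (hg : ∀ X, X ∈ g ↔ ∀ s : ℝ, ∃ a, ρ a = exp (s • X))
  [LieAlgebra.IsSimple ℝ g]

/-- the data which are chosen -/
structure Ch where
  t : ℝ
  e : Fin (Module.finrank ℝ g) → MR N
  k0 : Fin (Module.finrank ℝ g)
  τ : Fin (Module.finrank ℝ g) → Fin (Module.finrank ℝ g)
  q : Fin (Module.finrank ℝ g) → ℤ
  hh : ℝ
  w : G
  d3 : 3 ≤ Module.finrank ℝ g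
  big : 1000 * ((Module.finrank ℝ g : ℝ) + N + 1) ^ 2 ≤ t
  on : ∀ k j, t ^ 2 * trace ((e k)ᵀ * e j) = if k = j then 1 else 0
  sp : Submodule.span ℝ (range e) = g.toSubmodule
  loc : ∀ a : G, t * √(∑ i, ∑ j, (ρ a - 1) i j ^ 2) ≤ 100 → ∃ X ∈ g, ρ a = exp X ∧
    √(∑ i, ∑ j, X i j ^ 2) ≤ 2 * √(∑ i, ∑ j, (ρ a - 1) i j ^ 2)
  h1 : ∀ k, τ (τ k) = k
  h2 : ∀ k, |q k| ≤ 2
  h3 : ∀ k, q (τ k) = -q k
  h4 : ∀ k, q k = 0 → τ k = k
  h5 : q k0 = 0
  h6 : 1 ≤ hh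
  h7 : exp ((2 * Real.pi * hh) • e k0) = 1
  h8 : ∀ k, e k0 * e k - e k * e k0 = (q k / hh) • e (τ k)
  h9 : ρ w * e k0 * (ρ w)ᵀ = -e k0
  h10 : ∀ k, q k = 0 → k ≠ k0 → ρ w * e k * (ρ w)ᵀ = e k
  b0 : 0 < ∑ k, (q k / hh) ^ 2
  b1 : ∑ k, (q k / hh) ^ 2 ≤ 1
  kil : ∀ X Y : g, killingForm ℝ g X Y = (∑ k, (q k / hh) ^ 2) * t ^ 2 * trace (X.1 * Y.1)

include hc ho hg in
theorem nonempty_ch : Nonempty (Ch G ρ g) := by
  obtain ⟨c, c0, hk, d3, T, hT⟩ := exists_data ρ hc ho g hg 100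
  obtain ⟨t, t1, t2, t3⟩ : ∃ t : ℝ, T ≤ t ∧ 1000 * ((Module.finrank ℝ g : ℝ) + N + 1) ^ 2 ≤ t ∧ c ≤ t :=
    ⟨max T (max _ c), le_max_left _ _, (le_max_left _ _).trans (le_max_right _ _),
      (le_max_right _ _).trans (le_max_right _ _)⟩
  obtain ⟨t0, e, k0, τ, q, hh, w, a1, a2, a3, a4, a5, a6, a7, a8, a9, a10, a11, a12, a13, a14⟩ := hT t t1
  have tp : 0 < t ^ 2 := by positivity
  refine ⟨⟨t, e, k0, τ, q, hh, w, d3, t2, a1, a2, a3, a4, a5, a6, a7, a8, a9, a10, a11, a12, a13,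
    by rw [a14]; positivity, ?_, fun X Y => ?_⟩⟩
  · rw [a14, div_le_one tp]
    nlinarith
  · rw [a14, div_mul_cancel₀ _ tp.ne', hk]

variable {G ρ g} in
theorem Ch.mem (c : Ch G ρ g) (k : Fin (Module.finrank ℝ g)) : c.e k ∈ g := by
  rw [← LieSubalgebra.mem_toSubmodule, ← c.sp]
  exact Submodule.subset_span ⟨k, rfl⟩

/-- the data of the group from the chosen data -/
@[reducible] def ofCh (c : Ch G ρ g) : GD where
  G := G
  t2 := (hc.isClosedEmbedding hi).isEmbedding.t2Space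
  sc := have : SecondCountableTopology (MR N) :=
      inferInstanceAs (SecondCountableTopology (Fin N → Fin N → ℝ))
    (hc.isClosedEmbedding hi).isEmbedding.secondCountableTopology
  n := N
  d := Module.finrank ℝ g
  d3 := c.d3
  rho := ρ
  cont := hc
  inj := hi
  orth := ho
  t := c.t
  big := c.big
  e := c.e
  anti k := anti_of_mem ρ ho g.toSubmodule hg (c.mem k)
  on := c.on
  lie X := by rw [c.sp]; exact hg X
  br_mem k j := by rw [c.sp]; exact g.lie_mem (c.mem k) (c.mem j)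
  ad_mem a k := by rw [c.sp]; exact ad_mem ρ ho g.toSubmodule hg a (c.mem k)
  loc := by rw [c.sp]; exact c.loc
  schur := grp_schur' ρ g (fun _ h => anti_of_mem ρ ho g.toSubmodule hg h)
    (fun _ h => exp_mem ρ g.toSubmodule hg h)
    (schur g fun _ h => anti_of_mem ρ ho g.toSubmodule hg h) c.t c.e c.on c.sp
  k0 := c.k0
  tau := c.τ
  q := c.q
  hh := c.hh
  hh1 := c.h6
  tau_tau := c.h1
  q_le := c.h2
  q_tau := c.h3
  tau_neu := c.h4
  q_k0 := c.h5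
  br := c.h8
  per := c.h7
  w := c.w
  w_k0 := c.h9
  wfix := c.h10
  b0_pos' := c.b0
  b0_le' := c.b1

/-- the data of the group -/
@[reducible] def mkGD : GD := ofCh G ρ hc ho hi g hg (nonempty_ch G ρ hc ho g hg).some

theorem mkGD_c (X Y : g) : killingForm ℝ g X Y =
    (@GD.b0 (mkGD G ρ hc ho hi g hg) * (mkGD G ρ hc ho hi g hg).t ^ 2) * trace (X.1 * Y.1) :=
  (nonempty_ch G ρ hc ho g hg).some.kil X Y

end Pool.Agent.Lib.MP_7f377f_mp.GE
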