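import Pool.Agent.Lib.MP_7f377f_mp.G.Q4AfD

/-! The product of the group in the chart. -/

noncomputable section

set_option linter.unusedSectionVars false
variable [Pool.Agent.Lib.MP_7f377f_mp.GD]

namespace Pool.Agent.Lib.MP_7f377f_mp.RG.Q4.Af

open Finset Matrix

abbrev R3 := Fin GD.d → ℝ

theorem dot_cm (a b : C3) : dot a (cm a b) = 0 := by
  have e : dot a (cm a b) = (GD.t : ℂ) ^ 2 * trace ((io a).mᵀ * ((io a).m * (io b).m)) := by
    rw [show (io a).m * (io b).m = (io a * io b).m by simp [io], dot, cm]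
    generalize io a * io b = q
    simp only [co, io, transpose_sum, transpose_smul, Matrix.sum_mul, trace_sum, mul_sum,
      smul_mul_assoc, trace_smul, smul_eq_mul]
    exact sum_congr rfl fun k _ => by ring
  have h : (io b).mᵀ = -(io b).m := congrArg Un.m (star_io b)
  have := trace_transpose ((io a).mᵀ * ((io a).m * (io b).m))
  rw [transpose_mul, transpose_mul, transpose_transpose, h, Matrix.mul_assoc, trace_mul_comm,
    Matrix.mul_neg, trace_neg, Matrix.mul_assoc, neg_eq_iff_add_eq_zero, add_self_eq_zero] at this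
  rw [e, this, mul_zero]

/-- real parts -/
def rp (w : C3) : R3 := fun k => (w k).re

theorem rp_cR (v : R3) : rp (cR v) = v := rfl
theorem rp_add (a b : C3) : rp (a + b) = rp a + rp b := rfl

theorem sq_cR (v : R3) : ‖cR v‖ ^ 2 = v ⬝ᵥ v := by
  rw [sq_C3]; simp [cR_apply, dotProduct, sq]

theorem norm_rp (w : C3) : ‖cR (rp w)‖ ≤ ‖w‖ := by
  refine (pow_le_pow_iff_left₀ (norm_nonneg _) (norm_nonneg _) two_ne_zero).1 ?_
  rw [sq_C3, sq_C3]
  exact sum_le_sum fun k _ => pow_le_pow_left₀ (norm_nonneg _)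
    (by simpa [cR_apply, rp] using Complex.abs_re_le_norm (w k)) 2

theorem abs_dot_cR (a b : R3) : |a ⬝ᵥ b| ≤ ‖cR a‖ * ‖cR b‖ := by
  refine abs_le_of_sq_le_sq' ?_ (by positivity) |> abs_le.2
  rw [mul_pow, sq_cR, sq_cR]
  simpa only [dotProduct, sq] using sum_mul_sq_le_sq_mul_sq univ a b

/-- the size of the chart in which the estimates hold -/
def kG : ℝ := (10 ^ 4 * GD.cG ^ 3)⁻¹

theorem kG_spec {s : ℝ} (h0 : 0 ≤ s) (h : s ≤ kG) :
    GD.cG * s ≤ 1 / 10 ^ 4 ∧ GD.cG ^ 2 * s ≤ 1 / 10 ^ 4 ∧ GD.cG ^ 3 * s ≤ 1 / 10 ^ 4 := by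
  have c := GD.cG1
  rw [kG, ← one_div, le_div_iff₀ (by positivity)] at h
  have a : GD.cG ^ 2 * s ≤ GD.cG ^ 3 * s := by gcongr; norm_num
  have b : GD.cG ^ 1 * s ≤ GD.cG ^ 2 * s := by gcongr; norm_num
  exact ⟨by linarith, by linarith, by linarith⟩

/-- the product in the chart -/
def mu3 (a b : R3) : R3 := rp (co (ex (cR a) * ex (cR b)))

theorem exS_mul {a b : R3} (ha : ‖cR a‖ ≤ 1 / 2000) (hb : ‖cR b‖ ≤ 1 / 2000) :
    exS a * exS b = exS (mu3 a b) ∧ ‖cR (mu3 a b)‖ ≤ 1 / 100 := by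
  have n := mul_sub_one (ex_sub_one ha (by norm_num)) (ex_sub_one hb (by norm_num))
  rw [← cS_exS, ← cS_exS, ← cS_mul] at n
  obtain ⟨w, w1, w2, w3⟩ := exists_chart n (by norm_num)
  rw [mu3, ← cS_exS, ← cS_exS, ← cS_mul, ← ch_cS, ← w2, rp_cR]
  exact ⟨cS_inj (by rw [cS_exS, w1]), w3.trans (by norm_num)⟩

theorem exS_zero : exS 0 = 1 := cS_inj (by rw [cS_exS, cR_zero, ex_zero, cS_one])

theorem exS_neg (a : R3) : exS (-a) = (exS a)⁻¹ :=
  cS_inj (by rw [cS_inv, cS_exS, cS_exS, star_ex, cR_neg])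

theorem exS_near {a : R3} {η : ℝ} (h : ‖cR a‖ ≤ η) (h1 : η ≤ 1 / 100) : ‖(exS a).q - 1‖ ≤ 2 * η := by
  have := norm_add_le (ex (cR a) - 1 - io (cR a)) (io (cR a))
  rw [sub_add_cancel, norm_io'] at this
  refine (norm_cq _).1.trans ?_
  rw [cq_sub, cq_one, ← cS, cS_exS]
  nlinarith [ex_near h h1, (norm_nonneg _).trans h]

theorem mu3_zero : mu3 0 0 = 0 := by
  rw [mu3, cR_zero, ex_zero, mul_one, co_one]; rfl

theorem mu3_near {a b : R3} (ha : ‖a‖ ≤ kG) (hb : ‖b‖ ≤ kG) :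
    exS a * exS b = exS (mu3 a b) ∧ ‖mu3 a b - b‖ ≤ 2 * ‖a‖ := by
  have a0 := norm_nonneg a
  have a1 := (kG_spec a0 ha).1
  obtain ⟨b1, b2, -⟩ := kG_spec (norm_nonneg b) hb
  have na := norm_cR a
  have nb := norm_cR b
  refine ⟨(exS_mul (by linarith) (by linarith)).1, ?_⟩
  rw [mu3, show ex (cR a) * ex (cR b) = ex (cR b) + (ex (cR a) - 1 + (ex (cR a) - 1) * (ex (cR b) - 1))
    by noncomm_ring, co_add, co_add, co_sub, co_one, sub_zero, co_ex (by linarith),
    co_ex (by linarith), rp_add, rp_add, rp_cR, rp_cR, add_sub_cancel_left]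
  refine (norm_add_le_of_le le_rfl ((norm_le_cR _).trans ((norm_rp _).trans ((norm_co _).trans
    ((norm_mul_le _ _).trans (mul_le_mul (ex_sub_one na (by linarith)) (ex_sub_one nb (by linarith))
      (norm_nonneg _) (by linarith [norm_nonneg (cR a)]))))))).trans ?_
  nlinarith [mul_le_mul_of_nonneg_right b2 a0]

/-- derivative of the right multiplication in the chart -/
def nx (x : R3) : R3 →ₗ[ℝ] R3 where
  toFun y := rp (co (io (cR y) * ex (cR x)))
  map_add' y z := by rw [cR_add, io_add, add_mul, co_add, rp_add]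
  map_smul' c y := by
    rw [cR_smul, io_smul, smul_mul_assoc, co_smul]; funext k; simp [rp]

theorem nx_eq (x y : R3) : nx x y = y + rp (co (io (cR y) * (ex (cR x) - 1))) := by
  rw [mul_sub, mul_one, co_sub, co_io, sub_eq_add_neg, ← cR_neg, rp_add, rp_cR, add_comm _ (-y),
    add_neg_cancel_left]; rfl

theorem nx_near {x : R3} {η : ℝ} (hx : ‖cR x‖ ≤ η) (h1 : η ≤ 1 / 100) (y : R3) :
    ‖cR (rp (co (io (cR y) * (ex (cR x) - 1))))‖ ≤ ‖cR y‖ * (4 * η) :=
  (norm_rp _).trans ((norm_co _).trans ((norm_mul_le _ _).trans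
    (mul_le_mul (norm_io' _).le (ex_sub_one hx h1) (norm_nonneg _) (norm_nonneg _))))

/-- derivative of the change of the base point -/
def jc3 (x u : R3) : R3 := (LinearMap.toMatrix' (nx x))⁻¹ *ᵥ u

theorem nx_lo {x : R3} (hx : ‖cR x‖ ≤ 1 / 100) (y : R3) : ‖cR y‖ ≤ 2 * ‖cR (nx x y)‖ := by
  have := norm_sub_le (cR (nx x y)) (cR (rp (co (io (cR y) * (ex (cR x) - 1)))))
  nth_rw 1 [nx_eq, cR_add, add_sub_cancel_right] at this
  linarith [nx_near hx le_rfl y, norm_nonneg (cR y)]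

theorem nx_jc {x : R3} (hx : ‖cR x‖ ≤ 1 / 100) (u : R3) : nx x (jc3 x u) = u := by
  have : IsUnit (LinearMap.toMatrix' (nx x)) := mulVec_injective_iff_isUnit.1 fun y z h => by
    have := (norm_le_cR _).trans (nx_lo hx (y - z))
    simp only [LinearMap.toMatrix'_mulVec] at h
    rw [map_sub, h, sub_self, cR_zero, norm_zero, mul_zero] at this
    exact sub_eq_zero.1 (norm_le_zero_iff.1 this)
  rw [jc3, ← LinearMap.toMatrix'_mulVec, mulVec_mulVec, mul_nonsing_inv _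
    ((isUnit_iff_isUnit_det _).1 this), one_mulVec]

theorem mu3_neg {x u : R3} (hx : ‖x‖ ≤ kG) (hu : ‖u‖ ≤ kG) :
    exS (x + u) * exS (-x) = exS (mu3 (x + u) (-x)) ∧
    ‖mu3 (x + u) (-x)‖ ≤ 2 * ‖u‖ ∧ ‖mu3 (x + u) (-x) - jc3 x u‖ ≤ ‖u‖ ^ 2 := by
  have x0 := norm_nonneg x
  have u0 := norm_nonneg u
  have c := GD.cG1
  obtain ⟨x1, x2, x3⟩ := kG_spec x0 hx
  have u1 := (kG_spec u0 hu).1
  have nx' := norm_cR x
  have nu := norm_cR u
  have ns : ‖cR (x + u)‖ ≤ 1 / 2000 := by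
    rw [cR_add]; exact (norm_add_le _ _).trans (by linarith)
  obtain ⟨e, n⟩ := exS_mul (b := -x) ns (by rw [cR_neg, norm_neg]; linarith)
  refine ⟨e, ?_⟩
  generalize mu3 (x + u) (-x) = y at e n
  rw [exS_neg, mul_inv_eq_iff_eq_mul] at e
  have k := congrArg (fun g => rp (co (cS g))) e
  simp only [cS_mul, cS_exS] at k
  rw [show ex (cR y) * ex (cR x) = ex (cR x) + io (cR y) * ex (cR x) + (ex (cR y) - 1 - io (cR y)) +
      (ex (cR y) - 1 - io (cR y)) * (ex (cR x) - 1) by noncomm_ring, co_add, co_add, co_add, co_sub,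
    co_sub, co_ex (by linarith), co_ex (by linarith), co_ex (by linarith), co_one, co_io, sub_zero,
    sub_self, add_zero, rp_add, rp_add, rp_cR, rp_cR, add_assoc, add_right_inj] at k
  have r := (norm_rp _).trans ((norm_co _).trans ((norm_mul_le _ _).trans (mul_le_mul
    (ex_near (le_refl ‖cR y‖) n) (ex_sub_one nx' (by linarith)) (norm_nonneg _) (by positivity))))
  generalize rp (co ((ex (cR y) - 1 - io (cR y)) * (ex (cR x) - 1))) = w at k r
  change u = nx x y + w at k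
  have y0 := norm_nonneg (cR y)
  have p0 : 0 ≤ GD.cG * ‖x‖ := by positivity
  have nr := nx_near nx' (by linarith) y
  have r1 : ‖cR w‖ ≤ ‖cR y‖ * (GD.cG * ‖x‖) := r.trans (by nlinarith [mul_nonneg y0 p0])
  have lo := nx_lo (x := x) (by linarith) (y - jc3 x u)
  rw [map_sub, nx_jc (by linarith), show nx x y - u = -w by rw [k]; abel, cR_neg, norm_neg] at lo
  rw [nx_eq] at k
  generalize rp (co (io (cR y) * (ex (cR x) - 1))) = w' at k nr
  have ey : y = u + -w' + -w := by rw [k]; abel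
  have y2 : ‖cR y‖ ≤ 2 * (GD.cG * ‖u‖) := by
    have := norm_add₃_le (a := cR u) (b := -cR w') (c := -cR w)
    rw [norm_neg, norm_neg, ← cR_neg, ← cR_neg, ← cR_add, ← cR_add, ← ey] at this
    nlinarith [mul_le_mul_of_nonneg_left x1 y0]
  constructor
  · have := norm_add₃_le (a := u) (b := -w') (c := -w)
    rw [norm_neg, norm_neg, ← ey] at this
    nlinarith [norm_le_cR w, norm_le_cR w', mul_le_mul_of_nonneg_right y2 p0,
      mul_le_mul_of_nonneg_right x2 u0]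
  · nlinarith [norm_le_cR (y - jc3 x u), mul_le_mul_of_nonneg_right (pow_le_pow_left₀ y0 y2 2) p0,
      mul_le_mul_of_nonneg_right x3 (sq_nonneg ‖u‖), sq_nonneg ‖u‖]

theorem jc3_le {x : R3} (hx : ‖x‖ ≤ kG) (u : R3) : ‖jc3 x u‖ ≤ 2 * ‖u‖ ∧
    |jc3 x u ⬝ᵥ jc3 x u - u ⬝ᵥ u| ≤ 72 * (GD.cG * ‖x‖) ^ 2 * (u ⬝ᵥ u) := by
  have x0 := norm_nonneg x
  have c := GD.cG1
  obtain ⟨x1, x2, -⟩ := kG_spec x0 hx
  have nx' := norm_cR x
  have e := nx_jc (x := x) (by linarith) u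
  have lo := nx_lo (x := x) (by linarith) (jc3 x u)
  generalize jc3 x u = z at e lo ⊢
  have nr := nx_near nx' (by linarith) z
  rw [e] at lo
  rw [nx_eq] at e
  have d : z ⬝ᵥ rp (co (io (cR z) * (ex (cR x) - 1))) =
      z ⬝ᵥ rp (co (io (cR z) * (ex (cR x) - 1 - io (cR x)))) := by
    have := congrArg Complex.re (dot_cm (cR z) (cR x))
    rw [mul_sub _ _ (io _), co_sub]
    simp only [dot, cm, Complex.re_sum, cR_apply, Complex.re_ofReal_mul, Complex.zero_re] at this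
    simp only [dotProduct, rp, Pi.sub_apply, Complex.sub_re, mul_sub, sum_sub_distrib, this, sub_zero]
  have d2 := (abs_dot_cR z _).trans (mul_le_mul_of_nonneg_left ((norm_rp _).trans ((norm_co _).trans
    ((norm_mul_le (io (cR z)) _).trans (mul_le_mul (norm_io' _).le (ex_near nx' (by linarith))
      (norm_nonneg _) (norm_nonneg _))))) (norm_nonneg _))
  rw [← d] at d2
  generalize rp (co (io (cR z) * (ex (cR x) - 1))) = w at e nr d2
  constructor
  · rw [eq_sub_of_add_eq e]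
    refine (norm_sub_le_of_le le_rfl ((norm_le_cR w).trans nr)).trans ?_
    nlinarith [mul_le_mul_of_nonneg_right (lo.trans (mul_le_mul_of_nonneg_left (norm_cR u) two_pos.le))
      (by positivity : 0 ≤ 4 * (GD.cG * ‖x‖)), mul_le_mul_of_nonneg_right x2 (norm_nonneg u), norm_nonneg u]
  have w2 := pow_le_pow_left₀ (norm_nonneg _) nr 2
  have w0 := sq_nonneg ‖cR w‖
  have z0 := sq_nonneg ‖cR z‖
  have s : u ⬝ᵥ u = ‖cR z‖ ^ 2 + 2 * (z ⬝ᵥ w) + ‖cR w‖ ^ 2 := by
    rw [← e, sq_cR, sq_cR, add_dotProduct, dotProduct_add, dotProduct_add, dotProduct_comm w z]; ring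
  have t : (GD.cG * ‖x‖) ^ 2 ≤ 1 / 100 := by nlinarith [mul_nonneg (zero_le_one.trans c) x0]
  have t0 := sq_nonneg (GD.cG * ‖x‖)
  rw [← sq_cR z]
  rw [mul_pow, mul_pow] at w2
  rw [← mul_assoc, ← sq, abs_le] at d2
  generalize (GD.cG * ‖x‖) ^ 2 = τ at *
  generalize ‖cR z‖ ^ 2 = Z at *
  have k : Z ≤ 2 * (u ⬝ᵥ u) := by nlinarith [mul_le_mul_of_nonneg_left t z0]
  rw [abs_le]
  constructor <;> nlinarith [mul_le_mul_of_nonneg_left k t0]

end Pool.Agent.Lib.MP_7f377f_mp.RG.Q4.Af
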