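import Mathlib

/-! Realification of unitary representations. -/

noncomputable section

namespace Pool.Agent.Lib.MP_7f377f_mp.GE

open NormedSpace Set Matrix

attribute [local instance 100] LieRing.ofAssociativeRing

variable {N : ℕ}

/-- a complex matrix as a real matrix of twice the size -/
def rl (N : ℕ) : Matrix (Fin N) (Fin N) ℂ →ₐ[ℝ] Matrix (Fin (N + N)) (Fin (N + N)) ℝ :=
  (reindexAlgEquiv ℝ ℝ finSumFinEquiv).toAlgHom.comp
    { toFun := fun A => fromBlocks (A.map Complex.re) (-A.map Complex.im) (A.map Complex.im)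
        (A.map Complex.re)
      map_one' := by
        rw [← fromBlocks_one]
        congr 1 <;> ext i j <;> by_cases h : i = j <;> simp [h, one_apply]
      map_mul' := fun A B => by
        rw [fromBlocks_multiply]
        congr 1 <;> ext i j <;>
          simp [mul_apply, Finset.sum_add_distrib, sub_eq_add_neg, add_comm]
      map_zero' := by
        rw [← fromBlocks_zero]
        congr 1 <;> ext i j <;> simp
      map_add' := fun A B => by
        rw [fromBlocks_add]
        congr 1 <;> ext i j <;> simp [add_comm]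
      commutes' := fun r => by
        rw [Algebra.algebraMap_eq_smul_one, Algebra.algebraMap_eq_smul_one, ← fromBlocks_one,
          fromBlocks_smul]
        congr 1 <;> ext i j <;> by_cases h : i = j <;> simp [h] }

theorem rl_apply (A : Matrix (Fin N) (Fin N) ℂ) : rl N A = reindex finSumFinEquiv finSumFinEquiv
    (fromBlocks (A.map Complex.re) (-A.map Complex.im) (A.map Complex.im) (A.map Complex.re)) := rfl

theorem rl_star (A : Matrix (Fin N) (Fin N) ℂ) : rl N (star A) = (rl N A)ᵀ := by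
  rw [rl_apply, rl_apply, transpose_reindex, fromBlocks_transpose]
  congr 2
  ext i j
  simp

theorem rl_trace (A : Matrix (Fin N) (Fin N) ℂ) : trace (rl N A) = 2 * (trace A).re := by
  rw [rl_apply, reindex_apply, trace, ← finSumFinEquiv.sum_comp]
  simp [trace, two_mul]

theorem rl_inj : Function.Injective (rl N) := by
  intro A B h
  rw [rl_apply, rl_apply] at h
  have h1 := fromBlocks_inj.mp ((reindex finSumFinEquiv finSumFinEquiv).injective h)
  ext i j
  exact Complex.ext (congrFun (congrFun h1.1 i) j) (congrFun (congrFun h1.2.2.1 i) j)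

theorem rl_cont : Continuous (rl N) := (rl N).toLinearMap.continuous_of_finiteDimensional

theorem rl_exp (A : Matrix (Fin N) (Fin N) ℂ) : rl N (exp A) = exp (rl N A) := by
  open scoped Matrix.Norms.Frobenius in exact map_exp (rl N) rl_cont A

theorem mem_of_exp_alg {A : Type*} [NormedRing A] [NormedAlgebra ℝ A] [FiniteDimensional ℝ A]
    (S : Submodule ℝ A) {X : A} (h : ∀ s : ℝ, exp (s • X) ∈ S) : X ∈ S := by
  have : CompleteSpace A := FiniteDimensional.complete ℝ A
  have hp : HasDerivAt (fun u : ℝ => exp (u • X)) X 0 := by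
    simpa using hasDerivAt_exp_smul_const (𝕂 := ℝ) X 0
  exact S.closed_of_finiteDimensional.mem_of_tendsto (hasDerivAt_iff_tendsto_slope_zero.1 hp)
    (Filter.Eventually.of_forall fun u => S.smul_mem _ (S.sub_mem (h _) (h _)))

theorem mem_of_exp {M : ℕ} (S : Submodule ℝ (Matrix (Fin M) (Fin M) ℝ))
    {X : Matrix (Fin M) (Fin M) ℝ} (h : ∀ s : ℝ, exp (s • X) ∈ S) : X ∈ S := by
  open scoped Matrix.Norms.Frobenius in exact mem_of_exp_alg S h

theorem simple_of_equiv {L L' : Type*} [LieRing L] [LieAlgebra ℝ L] [LieRing L'] [LieAlgebra ℝ L']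
    [h : LieAlgebra.IsSimple ℝ L] (φ : L ≃ₗ⁅ℝ⁆ L') : LieAlgebra.IsSimple ℝ L' where
  eq_bot_or_eq_top I := by
    rcases h.eq_bot_or_eq_top (I.comap φ.toLieHom) with h1 | h1
    · left
      refine (LieSubmodule.eq_bot_iff _).2 fun x hx => ?_
      have : φ.symm x ∈ I.comap φ.toLieHom := by simpa using hx
      rw [h1] at this
      simpa using this
    · right
      refine eq_top_iff.2 fun x _ => ?_
      have : φ.symm x ∈ I.comap φ.toLieHom := by rw [h1]; trivial
      simpa using this
  non_abelian := fun h1 => h.non_abelian ((lie_abelian_iff_equiv_lie_abelian φ).2 h1)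

/-- the realification of a unitary representation -/
def rlRep {G : Type*} [Group G] (ρ : G →* unitaryGroup (Fin N) ℂ) :
    G →* orthogonalGroup (Fin (N + N)) ℝ where
  toFun a := ⟨rl N (ρ a), by
    rw [mem_orthogonalGroup_iff, ← rl_star, ← map_mul, mem_unitaryGroup_iff.mp (ρ a).2, map_one]⟩
  map_one' := Subtype.ext (by simp)
  map_mul' a b := Subtype.ext (by simp)

/-- a faithful unitary representation with simple Lie algebra gives a faithful orthogonal one -/
theorem realify {G : Type*} [Group G] [TopologicalSpace G] (ρ : G →* unitaryGroup (Fin N) ℂ)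
    (hc : Continuous ρ) (hi : Function.Injective ρ) (g : LieSubalgebra ℝ (Matrix (Fin N) (Fin N) ℂ))
    (hg : ∀ X, X ∈ g ↔ ∀ s : ℝ, ∃ a, (ρ a : Matrix (Fin N) (Fin N) ℂ) = exp (s • X))
    [LieAlgebra.IsSimple ℝ g] :
    ∃ (ρ' : G →* orthogonalGroup (Fin (N + N)) ℝ)
      (g' : LieSubalgebra ℝ (Matrix (Fin (N + N)) (Fin (N + N)) ℝ)) (φ : g ≃ₗ⁅ℝ⁆ g'),
      Continuous ρ' ∧ Function.Injective ρ' ∧
      (∀ X, X ∈ g' ↔ ∀ s : ℝ, ∃ a, (ρ' a : Matrix (Fin (N + N)) (Fin (N + N)) ℝ) = exp (s • X)) ∧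
      LieAlgebra.IsSimple ℝ g' ∧
      (∀ a, trace (ρ' a : Matrix (Fin (N + N)) (Fin (N + N)) ℝ) =
        2 * (trace (ρ a : Matrix (Fin N) (Fin N) ℂ)).re) ∧
      (∀ X Y : g, trace ((φ X).1 * (φ Y).1) = 2 * (trace (X.1 * Y.1)).re) ∧
      (∀ X Y : g, killingForm ℝ g' (φ X) (φ Y) = killingForm ℝ g X Y) ∧
      Module.finrank ℝ g' = Module.finrank ℝ g := by
  let φ := LieSubalgebra.equivMapOfInjective (rl N).toLieHom g rl_inj
  have hφ : ∀ X : g, (φ X).1 = rl N X.1 := fun X => rfl
  refine ⟨rlRep ρ, g.map (rl N).toLieHom, φ, ?_, fun a b h => ?_, fun X => ⟨?_, fun h => ?_⟩, ?_,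
    fun a => rl_trace _, fun X Y => by rw [hφ, hφ, ← map_mul, rl_trace],
    fun X Y => LieAlgebra.killingForm_of_equiv_apply φ X Y, φ.toLinearEquiv.finrank_eq.symm⟩
  · exact (rl_cont.comp (continuous_subtype_val.comp hc)).subtype_mk _
  · exact hi (Subtype.ext (rl_inj (congrArg Subtype.val h)))
  · rintro ⟨Y, hY, rfl⟩ s
    obtain ⟨a, ha⟩ := (hg Y).1 hY s
    exact ⟨a, by
      change rl N (ρ a) = exp (s • rl N Y)
      rw [ha, rl_exp, map_smul]⟩
  · obtain ⟨Y, rfl⟩ := mem_of_exp (LinearMap.range (rl N).toLinearMap) (X := X) fun s => by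
      obtain ⟨a, ha⟩ := h s
      exact ⟨ρ a, ha⟩
    refine ⟨Y, (hg Y).2 fun s => ?_, rfl⟩
    obtain ⟨a, ha⟩ := h s
    refine ⟨a, rl_inj ?_⟩
    rw [rl_exp, map_smul]
    exact ha
  · exact simple_of_equiv φ

end Pool.Agent.Lib.MP_7f377f_mp.GE
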