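import Mathlib

/-! The special unitary groups satisfy the hypotheses on the gauge group. -/

noncomputable section

namespace Pool.Agent.Lib.MP_7f377f_mp.GE

open NormedSpace Matrix Complex

attribute [local instance 100] LieRing.ofAssociativeRing

variable {N : ℕ}

/-- traceless skew hermitian matrices -/
def su (N : ℕ) : LieSubalgebra ℝ (Matrix (Fin N) (Fin N) ℂ) where
  carrier := {X | star X = -X ∧ trace X = 0}
  add_mem' := fun {X Y} hX hY => ⟨by rw [star_add, hX.1, hY.1, neg_add], by
    rw [trace_add, hX.2, hY.2, add_zero]⟩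
  zero_mem' := ⟨by simp, by simp⟩
  smul_mem' := fun c X hX => ⟨by rw [star_smul, hX.1, star_trivial, smul_neg], by
    rw [trace_smul, hX.2, smul_zero]⟩
  lie_mem' := fun {X Y} hX hY => ⟨by
    rw [Ring.lie_def, star_sub, star_mul, star_mul, hX.1, hY.1]; simp, by
    rw [Ring.lie_def, trace_sub, trace_mul_comm, sub_self]⟩

theorem mem_su {X : Matrix (Fin N) (Fin N) ℂ} : X ∈ su N ↔ star X = -X ∧ trace X = 0 := Iff.rfl

theorem det_exp_skew {X : Matrix (Fin N) (Fin N) ℂ} (h : star X = -X) :
    det (exp X) = cexp (trace X) := by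
  have hH : (I • X).IsHermitian := by
    rw [IsHermitian, ← star_eq_conjTranspose, star_smul, h]
    simp
  set U : Matrix (Fin N) (Fin N) ℂ := (hH.eigenvectorUnitary : Matrix (Fin N) (Fin N) ℂ) with hU
  have h1 : U * star U = 1 := Unitary.coe_mul_star_self _
  have h2 : star U * U = 1 := Unitary.coe_star_mul_self _
  have hi : U⁻¹ = star U := inv_eq_right_inv h1
  have hu : IsUnit U := ⟨⟨U, star U, h1, h2⟩, rfl⟩
  have e : X = U * diagonal (fun i => -I * (hH.eigenvalues i : ℂ)) * U⁻¹ := by
    have := hH.spectral_theorem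
    rw [Unitary.conjStarAlgAut_apply] at this
    have e2 : X = (-I) • (I • X) := by rw [smul_smul]; simp
    refine e2.trans ?_
    rw [hi]
    refine (congrArg (fun M => (-I) • M) this).trans ?_
    rw [← smul_mul_assoc, ← mul_smul_comm, ← diagonal_smul]
    rfl
  conv_lhs => rw [e, Matrix.exp_conj _ _ hu, det_conj hu, exp_diagonal, det_diagonal]
  conv_rhs => rw [e, trace_mul_cycle, hi, h2, one_mul, trace_diagonal, Complex.exp_sum]
  simp [Complex.exp_eq_exp_ℂ]

theorem skew_alg {A : Type*} [NormedRing A] [NormedAlgebra ℝ A] [CompleteSpace A] {X Y : A}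
    (h : ∀ s : ℝ, exp (s • X) * exp (s • Y) = 1) : X = -Y := by
  have h1 := (hasDerivAt_exp_smul_const (𝕂 := ℝ) X 0).fun_mul (hasDerivAt_exp_smul_const (𝕂 := ℝ) Y 0)
  simp only [h] at h1
  have := h1.unique (hasDerivAt_const _ _)
  exact eq_neg_of_add_eq_zero_left (by simpa using this)

/-- the Lie algebra of the special unitary group -/
theorem su_iff (X : Matrix (Fin N) (Fin N) ℂ) : X ∈ su N ↔ ∀ s : ℝ,
    ∃ a : specialUnitaryGroup (Fin N) ℂ,
      (Submonoid.inclusion specialUnitaryGroup_le_unitaryGroup a).1 = exp (s • X) := by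
  constructor
  · intro h s
    have h1 := (su N).smul_mem s h
    refine ⟨⟨exp (s • X), mem_specialUnitaryGroup_iff.2 ⟨?_, ?_⟩⟩, rfl⟩
    · open scoped Matrix.Norms.Frobenius in exact exp_mem_unitary_of_mem_skewAdjoint h1.1
    · rw [det_exp_skew h1.1, h1.2, Complex.exp_zero]
  · intro h
    have h1 : star X = -X := by
      have : ∀ s : ℝ, exp (s • star X) * exp (s • X) = 1 := fun s => by
        obtain ⟨a, ha⟩ := h s
        have := mem_unitaryGroup_iff'.1 (Submonoid.inclusion specialUnitaryGroup_le_unitaryGroup a).2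
        rw [ha, star_eq_conjTranspose, ← exp_conjTranspose, ← star_eq_conjTranspose, star_smul,
          star_trivial] at this
        exact this
      open scoped Matrix.Norms.Frobenius in exact skew_alg this
    refine ⟨h1, ?_⟩
    have h2 : ∀ s : ℝ, NormedSpace.exp (s • trace X) * NormedSpace.exp (s • (0 : ℂ)) = 1 := fun s => by
      obtain ⟨a, ha⟩ := h s
      have := (mem_specialUnitaryGroup_iff.1 a.2).2
      rw [show a.1 = exp (s • X) from ha, det_exp_skew (by rw [star_smul, h1]; simp), trace_smul,
        Complex.exp_eq_exp_ℂ] at this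
      simp only [smul_zero, NormedSpace.exp_zero, mul_one]
      exact this
    simpa using skew_alg h2

/-- off diagonal generators -/
def od (i j : Fin N) (z : ℂ) : Matrix (Fin N) (Fin N) ℂ := single i j z - single j i (star z)

theorem od_mem {i j : Fin N} (h : i ≠ j) (z : ℂ) : od i j z ∈ su N :=
  ⟨by simp [od, star_eq_conjTranspose, conjTranspose_single], by
    simp [od, trace_single_eq_of_ne, h, h.symm]⟩

theorem od_apply (i j : Fin N) (z : ℂ) (a b : Fin N) : od i j z a b =
    (if a = i ∧ b = j then z else 0) - if a = j ∧ b = i then star z else 0 := by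
  simp only [od, Matrix.sub_apply, single_apply, eq_comm]

/-- diagonal generators -/
def dg (i : Fin N) : Matrix (Fin N) (Fin N) ℂ := diagonal fun k => I * ((if k = i then 1 else 0) - (N : ℂ)⁻¹)

theorem dg_mem (i : Fin N) : dg i ∈ su N := by
  have hN : (N : ℂ) ≠ 0 := Nat.cast_ne_zero.2 (Fin.pos i).ne'
  constructor
  · ext a b
    by_cases h : a = b
    · subst h
      by_cases h' : a = i <;> simp [dg, h']
    · simp [dg, h, Ne.symm h]
  · simp [dg, ← Finset.mul_sum, hN]

theorem dg_lie (i : Fin N) (X : Matrix (Fin N) (Fin N) ℂ) (a b : Fin N) :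
    (dg i * X - X * dg i) a b = I * ((if a = i then 1 else 0) - (if b = i then 1 else 0)) * X a b := by
  simp only [dg, Matrix.sub_apply, diagonal_mul, mul_diagonal]
  ring

theorem su_simple (hN : 2 ≤ N) : LieAlgebra.IsSimple ℝ (su N) := by
  classical
  constructor
  · intro J
    let S : Submodule ℝ (Matrix (Fin N) (Fin N) ℂ) := J.toSubmodule.map (su N).toSubmodule.subtype
    have hS : ∀ X ∈ su N, ∀ Y ∈ S, X * Y - Y * X ∈ S := by
      rintro X hX _ ⟨Y, hY, rfl⟩
      exact ⟨⁅(⟨X, hX⟩ : su N), Y⁆, J.lie_mem hY, rfl⟩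
    have hsk : ∀ Y ∈ S, ∀ a b, Y b a = -star (Y a b) := by
      rintro _ ⟨Y, -, rfl⟩ a b
      have := congrFun (congrFun Y.2.1 b) a
      have e : star (Y.1 a b) = -Y.1 b a := this
      rw [show ((su N).toSubmodule.subtype Y) = Y.1 from rfl, e, neg_neg]
    have step1 : ∀ Y ∈ S, ∀ i j, i ≠ j → Y i j ≠ 0 → ∀ z, od i j z ∈ S := by
      intro Y hY i j hij h0 z
      have a1 : od i j (Y i j) ∈ S := by
        have := hS _ (dg_mem i) _ (hS _ (dg_mem j) _ hY)
        refine (congrArg (· ∈ S) ?_).mp this
        ext a b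
        rw [dg_lie, dg_lie]
        rw [od_apply]
        have hI : I * I = -1 := I_mul_I
        have hs := hsk Y hY i j
        have hji := hij.symm
        by_cases a1 : a = i
        · by_cases b2 : b = j
          · simp [a1, b2, hij, hji, ← mul_assoc]
          · by_cases b1 : b = i <;> simp [a1, b1, b2, hij]
        · by_cases b1 : b = i
          · by_cases a2 : a = j
            · simp [a2, b1, hij, hji, ← mul_assoc, hs]
            · simp [a1, a2, b1, hij]
          · simp [a1, b1]
      have a2 : od i j (I * Y i j) ∈ S := by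
        have := hS _ (dg_mem i) _ a1
        refine (congrArg (· ∈ S) ?_).mp this
        ext a b
        rw [dg_lie, od_apply, od_apply]
        have hji := hij.symm
        by_cases a1 : a = i
        · by_cases b2 : b = j
          · simp [a1, b2, hij, hji]
          · simp [a1, b2, hij]
        · by_cases b1 : b = i
          · by_cases a2 : a = j
            · simp [a2, b1, hji]
            · simp [a1, a2]
          · simp [a1, b1]
      have e : od i j z = (z / Y i j).re • od i j (Y i j) + (z / Y i j).im • od i j (I * Y i j) := by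
        have e0 : z = (z / Y i j).re • Y i j + (z / Y i j).im • (I * Y i j) := by
          rw [real_smul, real_smul, ← mul_assoc, ← add_mul, re_add_im, div_mul_cancel₀ _ h0]
        conv_lhs => rw [e0]
        simp only [od, star_add, star_smul, star_trivial, single_add, smul_sub, smul_single]
        abel
      rw [e]
      exact S.add_mem (S.smul_mem _ a1) (S.smul_mem _ a2)
    by_cases hb : J = ⊥
    · exact Or.inl hb
    right
    obtain ⟨Y, hY, hY0⟩ : ∃ Y ∈ J, Y ≠ 0 := by
      by_contra hc
      push Not at hc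
      exact hb ((LieSubmodule.eq_bot_iff _).2 hc)
    have hYS : Y.1 ∈ S := ⟨Y, hY, rfl⟩
    have step2 : ∃ i j, i ≠ j ∧ ∀ z, od i j z ∈ S := by
      by_contra hc
      push Not at hc
      have hd : ∀ X ∈ S, ∀ i j, i ≠ j → X i j = 0 := fun X hX i j hij => by
        by_contra h0
        obtain ⟨z, hz⟩ := hc i j hij
        exact hz (step1 X hX i j hij h0 z)
      have he : ∀ i j, Y.1 i i = Y.1 j j := fun i j => by
        by_cases hij : i = j
        · rw [hij]
        have := hd _ (hS _ (od_mem hij 1) _ hYS) i j hij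
        simp [od, sub_mul, mul_sub, hij, Ne.symm hij] at this
        exact (sub_eq_zero.1 this).symm
      refine hY0 (Subtype.ext ?_)
      ext i j
      by_cases hij : i = j
      · subst hij
        have := Y.2.2
        have e : trace Y.1 = ∑ _k : Fin N, Y.1 i i := Finset.sum_congr rfl fun k _ => he k i
        rw [e] at this
        simpa [show N ≠ 0 by omega] using this
      · exact hd _ hYS i j hij
    obtain ⟨i, j, hij, h0⟩ := step2
    have flip : ∀ a b, (∀ z, od a b z ∈ S) → ∀ z, od b a z ∈ S := fun a b h z => by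
      have := S.neg_mem (h (star z))
      simpa [od] using this
    have move : ∀ a b c, a ≠ b → a ≠ c → (∀ z, od a b z ∈ S) → ∀ z, od a c z ∈ S := by
      intro a b c hab hac h
      by_cases hbc : b = c
      · exact hbc ▸ h
      refine step1 _ (hS _ (od_mem hbc 1) _ (h 1)) a c hac ?_
      simp [od, sub_mul, mul_sub, hab, hac, hbc, Ne.symm hab, Ne.symm hac, Ne.symm hbc]
    have all : ∀ a b, a ≠ b → ∀ z, od a b z ∈ S := by
      intro a b hab
      by_cases hai : a = i
      · exact move a j b (hai ▸ hij) hab (hai ▸ h0)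
      · exact move a i b hai hab (flip _ _ (move i j a hij (Ne.symm hai) h0))
    have hdg : ∀ a b, single a a I - single b b I ∈ S := fun a b => by
      by_cases hab : a = b
      · simp [hab]
      have := S.smul_mem (2⁻¹ : ℝ) (hS _ (od_mem hab 1) _ (all a b hab I))
      refine (congrArg (· ∈ S) ?_).mp this
      simp only [od, sub_mul, mul_sub, single_mul_single_same, single_mul_single_of_ne _ _ _ _ hab,
        single_mul_single_of_ne _ _ _ _ (Ne.symm hab)]
      ext k l
      simp [single_apply]
      split_ifs <;> ring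
    refine eq_top_iff.2 fun X _ => ?_
    have hN' : (N : ℂ) ≠ 0 := Nat.cast_ne_zero.2 (by omega)
    have hd : ∀ a, dg a ∈ S := fun a => by
      have := S.smul_mem (N : ℝ)⁻¹ (S.sum_mem (t := Finset.univ) fun c _ => hdg a c)
      refine (congrArg (· ∈ S) ?_).mp this
      ext k l
      simp only [Matrix.smul_apply, Matrix.sum_apply, Matrix.sub_apply, single_apply,
        Finset.sum_sub_distrib, dg, diagonal_apply]
      by_cases hkl : k = l
      · subst hkl
        by_cases hak : a = k
        · simp [hak]
          field_simp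
        · simp [hak, Ne.symm hak, mul_comm]
      · have : ∀ c, ¬ (c = k ∧ c = l) := fun c h => hkl (h.1.symm.trans h.2)
        simp [this, hkl]
    have hX : X.1 ∈ S := by
      have sk : ∀ a b, star (X.1 a b) = -X.1 b a := fun a b => congrFun (congrFun X.2.1 b) a
      have e2 : ∑ a, ((X.1 a a).im : ℂ) = 0 := by
        have := congrArg Complex.im X.2.2
        rw [← ofReal_sum, ofReal_eq_zero]
        simpa [trace] using this
      have e : X.1 = ∑ a, (X.1 a a).im • dg a +
          ∑ a, ∑ b, if a = b then 0 else (2⁻¹ : ℝ) • od a b (X.1 a b) := by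
        ext k l
        have e3 : ∀ a b, (if a = b then 0 else (2⁻¹ : ℝ) • od a b (X.1 a b)) k l =
            (if k = a then if l = b then if k = l then 0 else 2⁻¹ * X.1 k l else 0 else 0) +
            (if l = a then if k = b then if k = l then 0 else 2⁻¹ * X.1 k l else 0 else 0) := by
          intro a b
          by_cases hab : a = b
          · subst hab
            by_cases h1 : k = a <;> by_cases h2 : l = a <;> simp [h1, h2]
          · rw [if_neg hab, Matrix.smul_apply, od_apply, sk]
            by_cases h1 : k = a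
            · by_cases h2 : l = b
              · simp [h1, h2, hab, Ne.symm hab]
              · simp [h1, h2, hab]
            · by_cases h2 : k = b
              · by_cases h3 : l = a
                · simp [h2, h3, Ne.symm hab]
                · simp [h2, h3, Ne.symm hab]
              · simp [h1, h2]
        simp only [Matrix.add_apply, Matrix.sum_apply, e3, Finset.sum_add_distrib, Finset.sum_ite_eq,
          Finset.mem_univ, if_true, Finset.sum_ite_irrel, Finset.sum_const_zero, Matrix.smul_apply, dg,
          diagonal_apply]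
        by_cases hkl : k = l
        · subst hkl
          have hre : X.1 k k = (X.1 k k).im * I := by
            have := congrArg Complex.re (sk k k)
            simp only [star_def, conj_re, neg_re] at this
            exact Complex.ext (by simp; linarith) (by simp)
          simp only [if_true, add_zero, real_smul, mul_sub, Finset.sum_sub_distrib, ← Finset.sum_mul, e2]
          simpa using hre
        · simp [hkl]
          ring
      rw [e]
      refine S.add_mem (S.sum_mem fun a _ => S.smul_mem _ (hd a))
        (S.sum_mem fun a _ => S.sum_mem fun b _ => ?_)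
      split_ifs with hab
      · exact S.zero_mem
      · exact S.smul_mem _ (all a b hab _)
    obtain ⟨Z, hZ, hZX⟩ := hX
    exact (Subtype.ext hZX : Z = X) ▸ hZ
  · intro h
    let i : Fin N := ⟨0, by omega⟩
    let j : Fin N := ⟨1, by omega⟩
    have h01 : i ≠ j := by simp [i, j]
    have h2 : (dg i * od i j 1 - od i j 1 * dg i : Matrix (Fin N) (Fin N) ℂ) i j = 0 :=
      congrArg (fun Z : su N => Z.1 i j) (h.trivial ⟨_, dg_mem i⟩ ⟨_, od_mem h01 1⟩)
    rw [dg_lie, od_apply] at h2
    simp [h01, h01.symm] at h2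

theorem trace_real (T : Matrix (Fin N) (Fin N) ℂ →ₗ[ℝ] Matrix (Fin N) (Fin N) ℂ) :
    LinearMap.trace ℝ _ T = ∑ i, ∑ j, ((T (single i j 1) i j).re + (T (single i j I) i j).im) := by
  let b : Module.Basis (Σ _ : Fin N, Σ _ : Fin N, Fin 2) ℝ (Matrix (Fin N) (Fin N) ℂ) :=
    Pi.basis fun _ => Pi.basis fun _ => basisOneI
  have h1 : ∀ i j k, b ⟨i, j, k⟩ = single i j (basisOneI k) := fun i j k => by
    simp only [b]
    erw [Pi.basis_apply, Pi.basis_apply]
    exact (single_eq_of_single_single i j _).symm
  have h2 : ∀ X i j k, b.repr X ⟨i, j, k⟩ = basisOneI.repr (X i j) k := fun X i j k => rfl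
  rw [LinearMap.trace_eq_matrix_trace ℝ b, trace]
  simp [Fintype.sum_sigma, LinearMap.toMatrix_apply, h1, h2]

/-- the projection onto the traceless skew hermitian matrices -/
def suP (N : ℕ) : Matrix (Fin N) (Fin N) ℂ →ₗ[ℝ] Matrix (Fin N) (Fin N) ℂ where
  toFun A := (2⁻¹ : ℝ) • (A - star A) - ((trace A).im / N * I) • (1 : Matrix (Fin N) (Fin N) ℂ)
  map_add' A B := by
    simp only [star_add, trace_add, add_im, ofReal_add, add_div, add_mul, add_smul]
    module
  map_smul' c A := by
    simp only [star_smul, star_trivial, trace_smul, smul_im, smul_eq_mul, ofReal_mul, RingHom.id_apply,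
      mul_div_assoc, mul_assoc, mul_smul, coe_smul]
    module

theorem suP_mem (A : Matrix (Fin N) (Fin N) ℂ) : suP N A ∈ su N := by
  constructor
  · simp only [suP, LinearMap.coe_mk, AddHom.coe_mk, star_sub, star_smul, star_trivial, star_star,
      star_one]
    simp
    module
  · rcases Nat.eq_zero_or_pos N with rfl | hN
    · simp [trace]
    have hN' : (N : ℂ) ≠ 0 := Nat.cast_ne_zero.2 hN.ne'
    simp only [suP, LinearMap.coe_mk, AddHom.coe_mk, trace_sub, trace_smul, star_eq_conjTranspose,
      trace_conjTranspose, trace_one, Fintype.card_fin, smul_eq_mul, real_smul, star_def, sub_conj]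
    push_cast
    field_simp
    ring

theorem suP_eq {X : Matrix (Fin N) (Fin N) ℂ} (h : X ∈ su N) : suP N X = X := by
  simp only [suP, LinearMap.coe_mk, AddHom.coe_mk, h.1, h.2]
  simp
  module

theorem trace_su (T : su N →ₗ[ℝ] su N) : LinearMap.trace ℝ _ T = LinearMap.trace ℝ _
    ((su N).toSubmodule.subtype ∘ₗ T ∘ₗ (suP N).codRestrict (su N).toSubmodule suP_mem) := by
  rw [LinearMap.trace_comp_comm', LinearMap.comp_assoc]
  congr 1
  ext X : 1
  exact congrArg T (Subtype.ext (suP_eq X.2).symm)

/-- the Killing form of the special unitary group -/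
theorem su_killing (X Y : su N) : killingForm ℝ (su N) X Y = 2 * N * (trace (X.1 * Y.1)).re := by
  rw [killingForm_apply_apply, trace_su, trace_real]
  have key : ∀ i j, (((su N).toSubmodule.subtype ∘ₗ (LieAlgebra.ad ℝ (su N) X ∘ₗ LieAlgebra.ad ℝ (su N) Y) ∘ₗ
        (suP N).codRestrict (su N).toSubmodule suP_mem) (single i j 1) i j).re +
      (((su N).toSubmodule.subtype ∘ₗ (LieAlgebra.ad ℝ (su N) X ∘ₗ LieAlgebra.ad ℝ (su N) Y) ∘ₗ
        (suP N).codRestrict (su N).toSubmodule suP_mem) (single i j I) i j).im =
      ((X.1 * Y.1) i i + (Y.1 * X.1) j j - X.1 i i * Y.1 j j - Y.1 i i * X.1 j j).re := by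
    intro i j
    have e : ∀ A, ((su N).toSubmodule.subtype ∘ₗ (LieAlgebra.ad ℝ (su N) X ∘ₗ LieAlgebra.ad ℝ (su N) Y) ∘ₗ
        (suP N).codRestrict (su N).toSubmodule suP_mem) A = (2⁻¹ : ℝ) •
        (X.1 * Y.1 * (A - star A) + (A - star A) * (Y.1 * X.1) - X.1 * (A - star A) * Y.1 -
          Y.1 * (A - star A) * X.1) := fun A => by
      change X.1 * (Y.1 * suP N A - suP N A * Y.1) - (Y.1 * suP N A - suP N A * Y.1) * X.1 = _
      simp only [suP, LinearMap.coe_mk, AddHom.coe_mk, mul_sub, sub_mul, mul_smul_comm, smul_mul_assoc,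
        mul_one, one_mul, mul_assoc]
      module
    have f : ∀ (A B : Matrix (Fin N) (Fin N) ℂ) (a b : Fin N) (z : ℂ),
        (A * single a b z * B) i j = A i a * z * B b j := fun A B a b z => by
      simp [mul_apply, single_apply, ite_and]
    have f1 : ∀ (A : Matrix (Fin N) (Fin N) ℂ) (a b : Fin N) (z : ℂ),
        (A * single a b z) i j = A i a * z * (1 : Matrix (Fin N) (Fin N) ℂ) b j := fun A a b z => by
      rw [← f, mul_one]
    have f2 : ∀ (A : Matrix (Fin N) (Fin N) ℂ) (a b : Fin N) (z : ℂ),
        (single a b z * A) i j = (1 : Matrix (Fin N) (Fin N) ℂ) i a * z * A b j := fun A a b z => by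
      rw [← f, one_mul]
    simp only [e, star_eq_conjTranspose, conjTranspose_single, mul_sub, sub_mul, Matrix.smul_apply,
      Matrix.sub_apply, Matrix.add_apply, f, f1 (X.1 * Y.1), f2 (Y.1 * X.1), one_apply_eq]
    simp
    ring
  simp only [key, ← re_sum, Finset.sum_sub_distrib, Finset.sum_add_distrib, ← Finset.mul_sum,
    ← Finset.sum_mul]
  have h1 : ∑ i, X.1 i i = 0 := X.2.2
  have h2 : ∑ i, Y.1 i i = 0 := Y.2.2
  have h3 : ∑ i, (Y.1 * X.1) i i = trace (X.1 * Y.1) := trace_mul_comm Y.1 X.1
  have h4 : ∑ i, (X.1 * Y.1) i i = trace (X.1 * Y.1) := rfl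
  simp [h1, h2, h3, ← Finset.mul_sum, h4]
  ring

/-- the dimension of the special unitary group -/
theorem su_finrank (hN : 0 < N) : (Module.finrank ℝ (su N) : ℝ) = N ^ 2 - 1 := by
  have hN' : (N : ℝ) ≠ 0 := Nat.cast_ne_zero.2 hN.ne'
  rw [← LinearMap.trace_id, trace_su, trace_real]
  have key : ∀ i j : Fin N, (suP N (single i j 1) i j).re + (suP N (single i j I) i j).im =
      1 - if i = j then (N : ℝ)⁻¹ else 0 := fun i j => by
    by_cases h : i = j
    · subst h
      simp [suP]
      norm_num
    · simp [suP, h, Ne.symm h]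
      norm_num
  refine (Finset.sum_congr rfl fun i _ => Finset.sum_congr rfl fun j _ => key i j).trans ?_
  simp
  field_simp

instance : CompactSpace (specialUnitaryGroup (Fin N) ℂ) := by
  refine isCompact_iff_compactSpace.1 (IsCompact.of_isClosed_subset
    (isCompact_univ_pi fun _ : Fin N => isCompact_univ_pi fun _ : Fin N =>
      isCompact_closedBall (0 : ℂ) 1) ?_ fun A hA i _ j _ => ?_)
  · have : (specialUnitaryGroup (Fin N) ℂ : Set (Matrix (Fin N) (Fin N) ℂ)) =
        {A | A * star A = 1} ∩ {A | det A = 1} := by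
      ext A
      simp [mem_specialUnitaryGroup_iff, mem_unitaryGroup_iff]
    rw [this]
    exact (isClosed_eq (by fun_prop) continuous_const).inter (isClosed_eq (by fun_prop) continuous_const)
  · simpa using entry_norm_bound_of_unitary (mem_specialUnitaryGroup_iff.1 hA).1 i j

instance : IsTopologicalGroup (specialUnitaryGroup (Fin N) ℂ) where
  continuous_inv := (continuous_star.comp continuous_subtype_val).subtype_mk _

/-- the defining representation -/
def suRep (N : ℕ) : specialUnitaryGroup (Fin N) ℂ →* unitaryGroup (Fin N) ℂ :=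
  Submonoid.inclusion specialUnitaryGroup_le_unitaryGroup

theorem su_instance (hN : 2 ≤ N) : Continuous (suRep N) ∧ Function.Injective (suRep N) ∧
    (∀ a, (suRep N a).1 = a.1) ∧
    (∀ X, X ∈ su N ↔ ∀ s : ℝ, ∃ a, (suRep N a).1 = exp (s • X)) ∧ LieAlgebra.IsSimple ℝ (su N) ∧
    (∀ X Y : su N, killingForm ℝ (su N) X Y = 2 * N * (trace (X.1 * Y.1)).re) ∧
    Module.finrank ℝ (su N) + 1 = N ^ 2 := by
  refine ⟨continuous_subtype_val.subtype_mk _, Submonoid.inclusion_injective _, fun _ => rfl, su_iff,
    su_simple hN, su_killing, ?_⟩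
  have := su_finrank (N := N) (by omega)
  exact_mod_cast (by linarith : (Module.finrank ℝ (su N) : ℝ) + 1 = N ^ 2)

end Pool.Agent.Lib.MP_7f377f_mp.GE
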