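import Pool.Agent.Lib.MP_7f377f_mp.CyB

/-! A finite size criterion for partition functions which are traces of powers of positive
operators in every direction. -/

noncomputable section

namespace Pool.Agent.Lib.MP_7f377f_mp.Fs

open Real

/-- traces of the powers of a positive operator with eigenvalues `l ≥ q l ≥ ..` -/
structure Sp (z : ℕ → ℝ) (l q : ℝ) : Prop where
  pos : 0 < l
  q0 : 0 ≤ q
  q1 : q ≤ 1
  low : ∀ T, 2 ≤ T → q ^ T ≤ z T / l ^ T - 1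
  step : ∀ T t, 2 ≤ T → z (T + t) / l ^ (T + t) - 1 ≤ q ^ t * (z T / l ^ T - 1)

namespace Sp
variable {z z' : ℕ → ℝ} {l q l' q' : ℝ} (h : Sp z l q) {T T' : ℕ}
include h

theorem one_le (hT : 2 ≤ T) : 1 ≤ z T / l ^ T := by
  linarith [h.low T hT, pow_nonneg h.q0 T]

theorem mono (hT : 2 ≤ T) (hT' : T ≤ T') : z T' / l ^ T' ≤ z T / l ^ T := by
  obtain ⟨t, rfl⟩ := Nat.exists_eq_add_of_le hT'
  have := mul_le_of_le_one_left (sub_nonneg.2 (h.one_le hT)) (pow_le_one₀ h.q0 h.q1 (n := t))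
  linarith [h.step T t hT]

theorem log_eq (hT : 2 ≤ T) : log (z T) = T * log l + log (z T / l ^ T) := by
  have l0 := pow_pos h.pos T
  rw [log_div ((div_pos_iff_of_pos_right l0).1 (zero_lt_one.trans_le (h.one_le hT))).ne' l0.ne',
    log_pow, add_sub_cancel]

theorem log_mono (hT : 2 ≤ T) (hT' : T ≤ T') :
    0 ≤ log (z T' / l ^ T') ∧ log (z T' / l ^ T') ≤ log (z T / l ^ T) :=
  ⟨log_nonneg (h.one_le (hT.trans hT')),
    log_le_log (zero_lt_one.trans_le (h.one_le (hT.trans hT'))) (h.mono hT hT')⟩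

theorem dbl (hT : 2 ≤ T) : log (z T / l ^ T) ≤ 2 * log (z T) - log (z (2 * T)) ∧
    2 * log (z T) - log (z (2 * T)) ≤ 2 * (z T / l ^ T - 1) := by
  have h1 := h.log_mono hT (show T ≤ 2 * T by omega)
  have h2 := log_le_sub_one_of_pos (zero_lt_one.trans_le (h.one_le hT))
  rw [h.log_eq hT, h.log_eq (show 2 ≤ 2 * T by omega)]
  push_cast
  constructor <;> linarith [h1.1, h1.2]

theorem four (hT : 2 ≤ T) : z (4 * T) / l ^ (4 * T) - 1 ≤ (z T / l ^ T - 1) ^ 4 := by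
  have h1 := h.step T (T * 3) hT
  rw [show T + T * 3 = 4 * T by ring, pow_mul q] at h1
  exact h1.trans ((mul_le_mul_of_nonneg_right (pow_le_pow_left₀ (pow_nonneg h.q0 T) (h.low T hT) 3)
    (sub_nonneg.2 (h.one_le hT))).trans_eq (by ring))

theorem ext (h' : Sp z' l' q') {η : ℝ} (hT : 2 ≤ T) (e : z (2 * T) = z' T)
    (h1 : 2 * log (z T) - log (z (2 * T)) ≤ η) (h2 : 2 * log (z' T) - log (z' (2 * T)) ≤ η)
    (h3 : T ≤ T') (h4 : T' ≤ 8 * T) : 2 * log (z T') - log (z' T') ≤ 18 * η := by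
  have a1 := (h.dbl hT).1
  have a2 := (h'.dbl hT).1
  have a3 := h.log_mono hT h3
  have a4 := h'.log_mono hT h3
  have a5 := h.log_mono hT le_rfl
  have a6 : (T' : ℝ) ≤ 8 * T := by exact_mod_cast h4
  have a7 : T * (2 * log l - log l') ≤ 2 * η := by
    have := h1
    rw [e, h.log_eq hT, h'.log_eq hT] at this
    linarith [a5.1]
  have a8 : T' * (2 * log l - log l') ≤ 16 * η := by
    rcases le_total 0 (2 * log l - log l') with c | c
    · linarith [mul_le_mul_of_nonneg_right a6 c]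
    · linarith [mul_nonpos_of_nonneg_of_nonpos (T'.cast_nonneg (α := ℝ)) c, a5.1]
  rw [h.log_eq (hT.trans h3), h'.log_eq (hT.trans h3)]
  linarith [a3.2, a4.1]

end Sp

/-- partition functions of boxes -/
structure Box (Z : ℕ → ℕ → ℕ → ℕ → ℝ) (l q : ℕ → ℕ → ℕ → ℝ) : Prop where
  s1 : ∀ {t a b c}, 2 ≤ t → 2 ≤ a → 2 ≤ b → 2 ≤ c → Z t a b c = Z a t b c
  s2 : ∀ {t a b c}, 2 ≤ t → 2 ≤ a → 2 ≤ b → 2 ≤ c → Z t a b c = Z t b a c
  s3 : ∀ {t a b c}, 2 ≤ t → 2 ≤ a → 2 ≤ b → 2 ≤ c → Z t a b c = Z t c b a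
  sp : ∀ {a b c}, 2 ≤ a → 2 ≤ b → 2 ≤ c → Sp (fun t => Z t a b c) (l a b c) (q a b c)

/-- the doubling defect -/
def Df (Z : ℕ → ℕ → ℕ → ℕ → ℝ) (t a b c : ℕ) : ℝ := 2 * log (Z t a b c) - log (Z (2 * t) a b c)

/-- the criterion -/
def Cr (Z : ℕ → ℕ → ℕ → ℕ → ℝ) (t : ℕ) (ε : ℝ) : Prop :=
  ∀ a b c, a = t ∨ a = 2 * t → b = t ∨ b = 2 * t → c = t ∨ c = 2 * t → Df Z t a b c ≤ ε

namespace Box
variable {Z : ℕ → ℕ → ℕ → ℕ → ℝ} {l q : ℕ → ℕ → ℕ → ℝ} (h : Box Z l q) {t a b c : ℕ} {ε : ℝ}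
include h

theorem ext1 (ht : 2 ≤ t) (hb : 2 ≤ b) (hc : 2 ≤ c) (H : ∀ a, a = t ∨ a = 2 * t → Df Z t a b c ≤ ε)
    (h1 : t ≤ a) (h2 : a ≤ 8 * t) : Df Z t a b c ≤ 18 * ε := by
  have t2 : 2 ≤ 2 * t := by omega
  rw [Df, h.s1 ht (ht.trans h1) hb hc, h.s1 t2 (ht.trans h1) hb hc]
  exact (h.sp ht hb hc).ext (h.sp t2 hb hc) ht (h.s1 t2 ht hb hc) (H _ (.inl rfl)) (H _ (.inr rfl))
    h1 h2

theorem ext3 (ht : 2 ≤ t) (H : Cr Z t ε) (a1 : t ≤ a) (a2 : a ≤ 8 * t) (b1 : t ≤ b) (b2 : b ≤ 8 * t)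
    (c1 : t ≤ c) (c2 : c ≤ 8 * t) : Df Z t a b c ≤ 5832 * ε := by
  have t2 : 2 ≤ 2 * t := by omega
  have e2 : ∀ {a b c}, 2 ≤ a → 2 ≤ b → 2 ≤ c → Df Z t a b c = Df Z t b a c := fun x y w => by
    rw [Df, h.s2 ht x y w, h.s2 t2 x y w, Df]
  have e3 : ∀ {a b c}, 2 ≤ a → 2 ≤ b → 2 ≤ c → Df Z t a b c = Df Z t c b a := fun x y w => by
    rw [Df, h.s3 ht x y w, h.s3 t2 x y w, Df]
  rw [e3 (by omega) (by omega) (by omega), show 5832 * ε = 18 * (18 * (18 * ε)) by ring]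
  refine h.ext1 ht (by omega) (by omega) (fun c hc => ?_) c1 c2
  rw [e3 (by omega) (by omega) (by omega), e2 (by omega) (by omega) (by omega)]
  refine h.ext1 ht (by omega) (by omega) (fun b hb => ?_) b1 b2
  rw [e2 (by omega) (by omega) (by omega)]
  exact h.ext1 ht (by omega) (by omega) (fun a ha => H a b c ha hb hc) a1 a2

theorem small (ht : 2 ≤ t) {y : ℝ} (y0 : 0 ≤ y) (y1 : y ≤ 1 / 2) (H : Cr Z t (y / 139968))
    (a1 : t ≤ a) (a2 : a ≤ 8 * t) (b1 : t ≤ b) (b2 : b ≤ 8 * t) (c1 : t ≤ c) (c2 : c ≤ 8 * t) :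
    Z t a b c / l a b c ^ t - 1 ≤ 2 / 47 * y := by
  have s := h.sp (ht.trans a1) (ht.trans b1) (ht.trans c1)
  have h1 := (s.dbl ht).1.trans (h.ext3 ht H a1 a2 b1 b2 c1 c2)
  rw [log_le_iff_le_exp (zero_lt_one.trans_le (s.one_le ht))] at h1
  have h2 := h1.trans (exp_bound_div_one_sub_of_interval (by positivity) (by linarith))
  rw [le_div_iff₀ (by linarith)] at h2
  have := s.one_le ht
  generalize Z t a b c / l a b c ^ t = x at *
  nlinarith

theorem iter (ht : 2 ≤ t) (H : Cr Z t (1 / 10 ^ 6)) (s : ℕ) :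
    Cr Z (4 ^ s * t) (exp (-4 ^ s) / 139968) := by
  induction s with
  | zero =>
    simp only [pow_zero, one_mul]
    refine fun a b c x y w => (H a b c x y w).trans ?_
    linarith [exp_neg_one_gt_d9]
  | succ s ih =>
    intro a b c x y w
    have t2 : 2 ≤ 4 ^ s * t := ht.trans (Nat.le_mul_of_pos_left _ (by positivity))
    have e : 4 ^ (s + 1) * t = 4 * (4 ^ s * t) := by ring
    rw [e] at x y w ⊢
    have y1 : exp (-4 ^ s) ≤ 1 / 2 :=
      (exp_le_exp.2 (neg_le_neg (one_le_pow₀ (by norm_num)))).trans (by linarith [exp_neg_one_lt_d9])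
    have h1 := h.small t2 (exp_pos _).le y1 ih (a := a) (b := b) (c := c) (by omega) (by omega)
      (by omega) (by omega) (by omega) (by omega)
    generalize 4 ^ s * t = u at *
    have sp := h.sp (a := a) (b := b) (c := c) (by omega) (by omega) (by omega)
    have h2 := (sp.four t2).trans (pow_le_pow_left₀ (sub_nonneg.2 (sp.one_le t2)) h1 4)
    have h3 := (sp.dbl (show 2 ≤ 4 * u by omega)).2
    rw [show (-4 ^ (s + 1) : ℝ) = (4 : ℕ) * -4 ^ s by push_cast; ring, exp_nat_mul]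
    rw [mul_pow] at h2
    rw [Df]
    linarith [pow_pos (exp_pos (-4 ^ s)) 4]

/-- the finite size criterion -/
theorem gap (ht : 2 ≤ t) (H : Cr Z t (1 / 10 ^ 6)) {n : ℕ} (hn : 2 * t ≤ n) :
    q n n n ≤ exp (-1 / t) ∧ ∀ T, n ≤ 2 * T → Z T n n n / l n n n ^ T ≤ 2 := by
  obtain ⟨s, s1, s2⟩ : ∃ s, 4 ^ s * t * 2 ≤ n ∧ n ≤ 8 * (4 ^ s * t) := by
    have h1 := Nat.pow_log_le_self 4 (Nat.div_pos hn (by omega)).ne'
    have h2 := Nat.lt_pow_succ_log_self (show 1 < 4 by norm_num) (n / (2 * t))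
    rw [Nat.le_div_iff_mul_le (by omega)] at h1
    rw [Nat.div_lt_iff_lt_mul (by omega), pow_succ] at h2
    exact ⟨Nat.log 4 (n / (2 * t)), by linarith, by linarith⟩
  have t2 : 2 ≤ 4 ^ s * t := ht.trans (Nat.le_mul_of_pos_left _ (by positivity))
  have y1 : exp (-4 ^ s) ≤ 1 / 2 :=
    (exp_le_exp.2 (neg_le_neg (one_le_pow₀ (by norm_num)))).trans (by linarith [exp_neg_one_lt_d9])
  have h1 := h.small t2 (exp_pos _).le y1 (h.iter ht H s) (a := n) (b := n) (c := n) (by omega) s2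
    (by omega) s2 (by omega) s2
  have sp := h.sp (a := n) (b := n) (c := n) (by omega) (by omega) (by omega)
  refine ⟨le_of_pow_le_pow_left₀ (n := 4 ^ s * t) (by omega) (exp_pos _).le ?_, fun T hT =>
    (sp.mono t2 (by omega)).trans (by linarith)⟩
  have t0 : (t : ℝ) ≠ 0 := by positivity
  rw [← exp_nat_mul, show ((4 ^ s * t : ℕ) : ℝ) * (-1 / t) = -4 ^ s by push_cast; field_simp]
  linarith [sp.low _ t2, exp_pos (-4 ^ s)]

end Box

open MeasureTheory Pool.Agent.Lib.MP_2d4879_an Hm RGP Ch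
open scoped InnerProductSpace

theorem exists_sp {α : Type} [MeasurableSpace α] {m : Measure α} [IsProbabilityMeasure m]
    {k : α → α → ℝ} {hk : GK k} (hs : ∀ x y, k x y = k y x) (hp : ∀ v, 0 ≤ ⟪v, hk.op m v⟫_ℝ)
    {l r : ℝ} {e : Lp ℝ 2 m} (V : Vac m hk l r e) :
    ∃ q, Vac m hk l q e ∧ Sp (fun T => ∫ x, pw m k (T - 1) x x ∂m) l q := by
  have l0 := V.pos
  have sy : ∀ u v, ⟪hk.op m u, v⟫_ℝ = ⟪u, hk.op m v⟫_ℝ := hk.symm_op hs
  have ee : ⟪e, e⟫_ℝ = 1 := by rw [real_inner_self_eq_norm_sq, V.one, one_pow]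
  have eT : ∀ v, ⟪e, hk.op m v⟫_ℝ = l * ⟪e, v⟫_ℝ := fun v => by
    rw [← sy, V.eig, real_inner_smul_left]
  obtain ⟨A, hA⟩ : ∃ A : Lp ℝ 2 m →L[ℝ] Lp ℝ 2 m, ∀ v, A v = hk.op m v - (l * ⟪e, v⟫_ℝ) • e :=
    ⟨hk.op m - l • (innerSL ℝ e).smulRight e, fun v => by simp [smul_smul]⟩
  obtain ⟨R, hR⟩ : ∃ R : ℕ → Lp ℝ 2 m → Lp ℝ 2 m,
    ∀ j v, R j v = (hk.op m ^ j) v - (l ^ j * ⟪e, v⟫_ℝ) • e := ⟨_, fun _ _ => rfl⟩
  have eP : ∀ j v, ⟪e, (hk.op m ^ j) v⟫_ℝ = l ^ j * ⟪e, v⟫_ℝ := fun j v => by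
    induction j with
    | zero => simp
    | succ j ih => rw [pow_succ', mul_apply_eq_comp, eT, ih, pow_succ', mul_assoc]
  have eR : ∀ j v, ⟪e, R j v⟫_ℝ = 0 := fun j v => by
    rw [hR, inner_sub_right, eP, inner_smul_right, ee, mul_one, sub_self]
  have TR : ∀ j v, hk.op m (R j v) = R (j + 1) v := fun j v => by
    rw [hR, hR, map_sub, map_smul, V.eig, smul_smul, pow_succ' (hk.op m), mul_apply_eq_comp]
    congr 2
    ring
  have AR : ∀ j v, (A ^ j) (R 0 v) = R j v := fun j v => by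
    induction j with
    | zero => rfl
    | succ j ih => rw [pow_succ', mul_apply_eq_comp, ih, hA, eR, mul_zero, zero_smul, sub_zero, TR]
  have A1 : ∀ j v, (A ^ (j + 1)) v = R (j + 1) v := fun j v => by
    rw [← AR, pow_succ, mul_apply_eq_comp, mul_apply_eq_comp, ← pow_one A, AR, pow_one, hA, hR,
      pow_one, pow_one]
  have i0 : ∀ j u v, ⟪R 0 u, R j v⟫_ℝ = ⟪u, R j v⟫_ℝ := fun j u v => by
    rw [hR 0, inner_sub_left, real_inner_smul_left, eR, mul_zero, sub_zero, pow_zero,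
      one_apply_eq_self]
  have sA : ∀ u v, ⟪A u, v⟫_ℝ = ⟪u, A v⟫_ℝ := fun u v => by
    rw [hA, hA, inner_sub_left, inner_sub_right, sy, real_inner_smul_left, inner_smul_right,
      real_inner_comm e u]
    ring
  have pA : ∀ v, 0 ≤ ⟪v, A v⟫_ℝ := fun v => by
    have := hp (R 0 v)
    rwa [TR, i0, ← A1, zero_add, pow_one] at this
  have sa : IsSelfAdjoint A := ContinuousLinearMap.isSelfAdjoint_iff_isSymmetric.2 sA
  have n0 : ∀ v, ‖R 0 v‖ ≤ ‖v‖ := fun v => by simpa only [hR, pow_zero _, one_mul] using V.gap 0 v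
  have n1 : ‖A‖ ≤ l := A.opNorm_le_bound l0.le fun v => by
    have := V.gap 1 v
    rw [pow_one, pow_one, pow_one, ← hA] at this
    exact this.trans (by gcongr; exact mul_le_of_le_one_left l0.le V.r1)
  have ql : ‖A‖ / l * l = ‖A‖ := div_mul_cancel₀ _ l0.ne'
  have g1 : ∀ j x, ⟪R 0 (hk.row m x), (A ^ j) (R 0 (hk.row m x))⟫_ℝ =
      pw m k (j + 1) x x - l ^ j * ⟪hk.row m x, e⟫_ℝ ^ 2 := fun j x => by
    rw [AR, i0, hR, inner_sub_right, pw_inner hk hs, inner_smul_right, real_inner_comm e]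
    ring
  have g2 : ∀ j, Integrable (fun x => ⟪R 0 (hk.row m x), (A ^ j) (R 0 (hk.row m x))⟫_ℝ) m :=
    fun j => by
      simp only [g1]
      exact (bf_diag (hk.pw _)).int.sub ((hk.int_actsq _).const_mul _)
  obtain ⟨X, hX⟩ : ∃ X : ℕ → ℝ,
    ∀ j, X j = ∫ x, ⟪R 0 (hk.row m x), (A ^ j) (R 0 (hk.row m x))⟫_ℝ ∂m := ⟨_, fun _ => rfl⟩
  have g3 : ∀ j, (∫ x, pw m k (j + 1) x x ∂m) / l ^ (j + 2) - 1 = X j / l ^ (j + 2) := fun j => by
    simp only [hX, g1]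
    rw [integral_sub (bf_diag (hk.pw _)).int ((hk.int_actsq _).const_mul _), integral_const_mul,
      ← GK.norm_op, V.eig, norm_smul, V.one, Real.norm_of_nonneg l0.le]
    field_simp
    ring
  have fs := form_step sA pA A.le_opNorm (norm_nonneg _)
  have X0 : ∀ j, 0 ≤ X j := fun j => hX j ▸ integral_nonneg fun x => (fs j _).1
  have X1 : ∀ j t, X (j + t) ≤ ‖A‖ ^ t * X j := fun j t => by
    induction t with
    | zero => simp
    | succ t ih =>
      rw [pow_succ', mul_assoc]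
      refine le_trans ?_ (mul_le_mul_of_nonneg_left ih (norm_nonneg _))
      rw [hX, hX, ← integral_const_mul]
      exact integral_mono (g2 _) ((g2 _).const_mul _) fun x => (fs _ _).2
  have X2 : ∀ i, ‖A ^ (i + 1)‖ ^ 2 ≤ X (i + i) := fun i => by
    have sp : ∀ u v, ⟪(A ^ i) u, v⟫_ℝ = ⟪u, (A ^ i) v⟫_ℝ :=
      ContinuousLinearMap.isSelfAdjoint_iff_isSymmetric.1 (sa.pow i)
    rw [← le_sqrt (norm_nonneg _) (X0 _)]
    refine ContinuousLinearMap.opNorm_le_bound _ (sqrt_nonneg _) fun v => ?_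
    rw [← sqrt_sq (norm_nonneg v), ← sqrt_mul (X0 _), le_sqrt (norm_nonneg _)
      (mul_nonneg (X0 _) (sq_nonneg _)), A1, ← TR, GK.norm_op, hX, ← integral_mul_const]
    refine integral_mono (hk.int_actsq _) ((g2 _).mul_const _) fun x => ?_
    simp only
    rw [← i0, ← AR i v, ← sp, pow_add, mul_apply_eq_comp, ← sp, real_inner_self_eq_norm_sq, ← mul_pow,
      sq_le_sq, abs_of_nonneg (mul_nonneg (norm_nonneg _) (norm_nonneg _))]
    exact (abs_real_inner_le_norm _ _).trans (mul_le_mul_of_nonneg_left (n0 v) (norm_nonneg _))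
  have X3 : ∀ j, ‖A‖ ^ (j + 2) ≤ X j := fun j => by
    rcases (norm_nonneg A).eq_or_lt with a0 | a0
    · rw [← a0, zero_pow (by omega)]
      exact X0 j
    obtain ⟨i, hi⟩ : ∃ i, 2 ^ j = i + 1 := ⟨_, (Nat.sub_add_cancel Nat.one_le_two_pow).symm⟩
    obtain ⟨t, ht⟩ : ∃ t, i + i = j + t :=
      Nat.exists_eq_add_of_le (by have := Nat.lt_two_pow_self (n := j); omega)
    have := X2 i
    rw [← hi, sa.norm_pow_two_pow, hi, ← pow_mul, show (i + 1) * 2 = t + (j + 2) by omega, ht,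
      pow_add] at this
    exact le_of_mul_le_mul_left (this.trans (X1 j t)) (pow_pos a0 t)
  refine ⟨‖A‖ / l, ⟨l0, by positivity, (div_le_one l0).2 n1, V.one, V.eig, V.nrm, fun j v => ?_⟩,
    l0, by positivity, (div_le_one l0).2 n1, fun T hT => ?_, fun T t hT => ?_⟩
  · rw [← hR, ← AR, ql]
    rcases j with _ | j
    · simpa using n0 v
    · exact ((A ^ (j + 1)).le_opNorm _).trans (mul_le_mul (norm_pow_le' A j.succ_pos) (n0 v)
        (norm_nonneg _) (by positivity))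
  · obtain ⟨j, rfl⟩ := Nat.exists_eq_add_of_le' hT
    rw [show j + 2 - 1 = j + 1 from rfl, g3, div_pow]
    exact div_le_div_of_nonneg_right (X3 j) (by positivity)
  · obtain ⟨j, rfl⟩ := Nat.exists_eq_add_of_le' hT
    rw [show j + 2 - 1 = j + 1 from rfl, g3, show j + 2 + t = j + t + 2 by ring,
      show j + t + 2 - 1 = j + t + 1 from rfl, g3]
    refine (div_le_div_of_nonneg_right (X1 j t) (by positivity)).trans_eq ?_
    rw [div_pow]
    field_simp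
    ring

section chain
variable {G : Type} [MeasurableSpace G] {μ : Measure G} [IsProbabilityMeasure μ] [Group G]
  [MeasurableMul₂ G] [MeasurableInv G] [μ.IsInvInvariant] [μ.IsMulRightInvariant] {E S : Type}
  {W : (E → G) → (S → G) → (E → G) → ℝ} {F : (Ix E S → G) → ℝ} {k : ℕ} (hW : Wt μ W) {l r : ℝ}
  {e : Lp ℝ 2 (PP μ E)} (V : Vac (PP μ E) hW.gk l r e) (bF : BM F)
include V bF

theorem tor_close (h1 : ∀ w, |F w| ≤ 1) {a : ℤ} (dF : DependsOn F (Win a (a + (k + 1 : ℕ))))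
    (N s : ℕ) : |vac W l e a k F| ≤ 1 ∧
      |tor μ W a (k + 1 + (2 * N + 2 + s)) F / l ^ (k + 1 + (2 * N + 2 + s)) - vac W l e a k F| ≤
        r ^ s * (tor μ W a (2 * N + 2) (fun _ => 1) / l ^ (2 * N + 2)) := by
  have hl := V.pos
  have hk : ∀ x y, |ker μ a (a + (k + 1 : ℕ)) (fun w => F w * wt W a (k + 1) w) x y| ≤
      pw (PP μ E) (KK μ W) k x y := fun x y => by
    rw [← hW.ker_wt k a]
    refine ker_abs_le μ (bF.mul (hW.bm_wt _ _)) (hW.bm_wt _ _) (fun w => ?_) x y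
    rw [abs_mul, abs_of_pos (hW.wt_pos _ _ _)]
    exact mul_le_of_le_one_left (hW.wt_pos _ _ _).le (h1 w)
  have h2 := V.tr_close hW.symm (hW.gk_obs bF a k) hk N s
  have h3 := (abs_real_inner_le_norm e _).trans
    (mul_le_mul_of_nonneg_left (V.op_le (hW.gk_obs bF a k) hk e) (norm_nonneg _))
  rw [← hW.int_tor bF dF, show 2 * N + 1 + s + 1 = 2 * N + 2 + s by ring, ← hW.tor_one (a := a)]
    at h2
  rw [V.one, one_mul, mul_one] at h3
  have l1 : 0 < l ^ (k + 1 + (2 * N + 2 + s)) := by positivity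
  rw [hW.vac_eq bF, abs_div, abs_of_pos (pow_pos hl _), div_le_one (pow_pos hl _)]
  refine ⟨h3, ?_⟩
  have h4 := div_le_div_of_nonneg_right h2 l1.le
  rw [← abs_of_pos l1, ← abs_div, abs_of_pos l1] at h4
  refine le_of_eq_of_le (congrArg _ ?_) (h4.trans_eq ?_)
  · rw [tor]
    field_simp
    ring
  · field_simp
    ring

theorem vac_clus (hi : ∀ x g y, W x g⁻¹ y = W y g x) (dF : DependsOn F (Win 0 (k + 1 : ℕ)))
    (s : ℕ) : vac W l e (-(k + 1 : ℕ)) (k + 1 + s + k) (fun w => F (rfc 0 w) * F (sft s w)) -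
      vac W l e 0 k F ^ 2 ≤ r ^ s *
      vac W l e (-(k + 1 : ℕ)) (k + 1 + 0 + k) fun w => F (rfc 0 w) * F (sft (0 : ℕ) w) := by
  have hl := V.pos
  rw [hW.vac_gram V hi bF bF dF dF, hW.vac_gram V hi bF bF dF dF, hW.vac_eq bF, pow_zero,
    one_apply_eq_self, real_inner_self_eq_norm_sq]
  generalize hW.Op bF 0 k e = φ
  have h := (real_inner_le_norm φ _).trans (mul_le_mul_of_nonneg_left (V.gap s φ) (norm_nonneg _))
  rw [inner_sub_right, inner_smul_right, real_inner_comm e] at h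
  refine le_of_eq_of_le ?_ ((div_le_div_of_nonneg_right h
    (pow_pos hl (k + 1 + s + k + 1)).le).trans_eq ?_) <;> field_simp <;> ring

end chain

end Pool.Agent.Lib.MP_7f377f_mp.Fs
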