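import Pool.Agent.Lib.MP_7f377f_mp.G.GapA
import Pool.Agent.Lib.MP_7f377f_mp.G.CyD2

/-! The finite size criterion for lattice gauge theory. -/

noncomputable section

set_option linter.unusedSectionVars false
variable [Pool.Agent.Lib.MP_7f377f_mp.GD]

namespace Pool.Agent.Lib.MP_7f377f_mp.YM9

open MeasureTheory Filter Topology Function Real D2
open RGP (BM)
open Ch (Win vac tor sft rfc)

variable [MeasurableSpace SU2] [BorelSpace SU2] (h : Measure SU2) [h.IsHaarMeasure]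
  [IsProbabilityMeasure h] {b : ℝ}

/-- partition functions of boxes -/
def Zb (b : ℝ) (t x y z : ℕ) : ℝ := zz h b ![t, x, y, z] fun _ => 1

theorem exists_box (hb : 0 ≤ b) : ∃ l q, Fs.Box (Zb h b) l q ∧ ∀ (n : ℕ) [NeZero n],
    ∃ e, Hm.Vac (RGP.PP h _) (wt_WW (M := fun _ => n) h b).gk (l n n n) (q n n n) e := by
  have key : ∀ M : Fin 3 → ℕ, ∃ l q, ∀ [∀ j, NeZero (M j)],
      (∃ e, Hm.Vac (RGP.PP h _) (wt_WW (M := M) h b).gk l q e) ∧
        Fs.Sp (fun T => zz h b (Matrix.vecCons T M) fun _ => 1) l q := fun M => by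
    by_cases hM : ∀ j, NeZero (M j)
    · obtain ⟨l, r, e, V, -⟩ := exists_vacuum (M := M) h b
      obtain ⟨q, V', s⟩ := Fs.exists_sp (wt_WW h b).symm (KK_psd h b hb) V
      have e1 : ∀ T, 2 ≤ T → (zz h b (Matrix.vecCons T M) fun _ => 1) =
          ∫ x, MP_2d4879_an.pw (RGP.PP h (Ed M)) (Ch.KK h (WW (M := M) b)) (T - 1) x x
            ∂(RGP.PP h (Ed M)) := fun T hT => by
        obtain ⟨j, rfl⟩ := Nat.exists_eq_add_of_le' hT
        rw [zz_tor h b 0 measurable_const]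
        exact (wt_WW h b).tor_one j
      refine ⟨l, q, ⟨e, V'⟩, s.pos, s.q0, s.q1, fun T hT => ?_, fun T t hT => ?_⟩
      · exact (e1 T hT).symm ▸ s.low T hT
      · exact (e1 T hT).symm ▸ (e1 (T + t) (by omega)).symm ▸ s.step T t hT
    · exact ⟨0, 0, fun {H} => (hM H).elim⟩
  choose l q H using key
  have p : ∀ {x y z w : ℕ}, 2 ≤ x → 2 ≤ y → 2 ≤ z → 2 ≤ w → ∀ i, 0 < ![x, y, z, w] i :=
    fun hx hy hz hw i => by fin_cases i <;> simp <;> omega
  refine ⟨fun x y z => l ![x, y, z], fun x y z => q ![x, y, z], ⟨fun x y z w => ?_,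
    fun x y z w => ?_, fun x y z w => ?_, fun {x y z} a1 a2 a3 => ?_⟩, fun n _ => ?_⟩
  · rw [Zb, ← zz_prm h b (p x y z w) (Equiv.swap 0 1), Zb]
    congr 1
    ext i; fin_cases i <;> rfl
  · rw [Zb, ← zz_prm h b (p x y z w) (Equiv.swap 1 2), Zb]
    congr 1
    ext i; fin_cases i <;> rfl
  · rw [Zb, ← zz_prm h b (p x y z w) (Equiv.swap 1 3), Zb]
    congr 1
    ext i; fin_cases i <;> rfl
  · have : ∀ j, NeZero (![x, y, z] j) := fun j => ⟨by fin_cases j <;> simp <;> omega⟩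
    exact (H ![x, y, z]).2
  · simp only [show ![n, n, n] = fun _ => n by ext i; fin_cases i <;> rfl]
    exact (H fun _ => n).1

variable {h} {n : ℕ} [NeZero n] {l q : ℝ} {e : Lp ℝ 2 (RGP.PP h (Ed fun _ => n))}

theorem near_vac (V : Hm.Vac _ (wt_WW h b).gk l q e)
    (h0 : 1 ≤ Zb h b n n n n / l ^ n) (hZ : ∀ T, n ≤ 2 * T → Zb h b T n n n / l ^ T ≤ 2) {F : Fd → ℝ} (bF : BM F)
    (h1 : ∀ U, |F U| ≤ 1) {a : ℤ} {k : ℕ}
    (dF : DependsOn (fun w => F (lift (M := fun _ => n) w)) (Win a (a + (k + 1 : ℕ))))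
    (hk : 8 * (k + 1) ≤ n) :
    |vac (WW b) l e a k fun w => F (lift w)| ≤ 1 ∧
      |∫ U, F U ∂cube h b n - vac (WW b) l e a k fun w => F (lift w)| ≤ 4 * q ^ (n / 8) := by
  obtain ⟨s, hs⟩ : ∃ s, n = k + 1 + (2 * (n / 4) + 2 + s) :=
    ⟨n - (k + 1) - (2 * (n / 4) + 2), by omega⟩
  have vn : Matrix.vecCons n (fun _ : Fin 3 => n) = fun _ => n := by
    ext i; fin_cases i <;> rfl
  have a1 := Fs.tor_close (wt_WW h b) V (bF.comp meas_lift) (fun _ => h1 _) dF (n / 4) s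
  have a2 := (Fs.tor_close (wt_WW h b) V (BM.const 1) (fun _ => abs_one.le) (a := a) (k := k)
    (fun _ _ _ => rfl) (n / 4) s).2
  have a3 : q ^ s * (tor h (WW (M := fun _ => n) b) a (2 * (n / 4) + 2) (fun _ => 1) /
      l ^ (2 * (n / 4) + 2)) ≤ q ^ (n / 8) * 2 := by
    rw [← zz_tor h b a measurable_const, vc]
    exact mul_le_mul (pow_le_pow_of_le_one V.r0 V.r1 (by omega)) (hZ _ (by omega))
      (div_pos (zz_pos h b _) (pow_pos V.pos _)).le (pow_nonneg V.r0 _)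
  rw [← hs, ← zz_tor h b a bF.meas, vn] at a1
  rw [← hs, ← zz_tor h b a measurable_const, vn, (wt_WW h b).vac_one V] at a2
  refine ⟨a1.1, ?_⟩
  rw [cube, int_wilson h b _ bF.meas, ← div_div_div_cancel_right₀ (pow_pos V.pos n).ne']
  rw [Zb, ← vc, vn] at h0
  have a4 := a1.2.trans a3
  have a5 := a2.trans a3
  have a6 := a1.1
  generalize (vac (WW b) l e a k fun w => F (lift w)) = v at *
  generalize zz h b (fun _ => n) F / l ^ n = A at *
  generalize (zz h b (fun _ => n) fun _ => 1) / l ^ n = B at *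
  have B0 : 0 < B := by linarith
  rw [show A / B - v = (A - v - v * (B - 1)) / B by field_simp; ring, abs_div, abs_of_pos B0]
  refine (div_le_self (abs_nonneg _) h0).trans ((abs_sub _ _).trans ?_)
  rw [abs_mul]
  linarith [mul_le_of_le_one_left (abs_nonneg (B - 1)) a6]

theorem torus_one (hb : 0 ≤ b) {t : ℕ} (ht : 2 ≤ t) (H : Fs.Cr (Zb h b) t (1 / 10 ^ 6))
    (hn : 2 * t ≤ n) {F : Fd → ℝ} (bF : BM F) (h1 : ∀ U, |F U| ≤ 1) {k s : ℕ}
    (dF : DependsOn F (Tm 0 (k + 1 : ℕ))) (hk : 8 * (k + 1 + s + k + 1) ≤ n) :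
    ∫ U, F (rfl0 U) * F (sht s U) ∂cube h b n - (∫ U, F U ∂cube h b n) ^ 2 ≤
      exp (-s / t) * ∫ U, F (rfl0 U) * F U ∂cube h b n + 16 * exp (-(n / 8 : ℕ) / t) := by
  obtain ⟨l, q, B, hV⟩ := exists_box h hb
  obtain ⟨e, V⟩ := hV n
  obtain ⟨q1, hZ⟩ := B.gap ht H hn
  have h0 := (B.sp (a := n) (b := n) (c := n) (by omega) (by omega) (by omega)).one_le
    (show 2 ≤ n by omega)
  have q2 : ∀ j : ℕ, q n n n ^ j ≤ exp (-j / t) := fun j =>
    (pow_le_pow_left₀ V.r0 q1 j).trans_eq (by rw [← exp_nat_mul]; congr 1; ring)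
  have g : ∀ s : ℕ, 8 * (k + 1 + s + k + 1) ≤ n → |∫ U, F (rfl0 U) * F (sht s U) ∂cube h b n -
      vac (WW b) (l n n n) e (-(k + 1 : ℕ)) (k + 1 + s + k)
        fun w => F (lift (rfc 0 w)) * F (lift (sft s w))| ≤ 4 * q n n n ^ (n / 8) := fun s hs => by
    simp only [lift_rfc0, lift_sft]
    refine (near_vac V h0 hZ ((bF.comp cont_rfl0.measurable).mul (bF.comp (cont_sht _).measurable))
      (fun U => ?_) ?_ hs).2
    · rw [abs_mul]
      exact mul_le_one₀ (h1 _) (abs_nonneg _) (h1 _)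
    · simp only [← lift_rfc0, ← lift_sft]
      exact RGP.DependsOn.mul'
        ((Ch.dep_rfc (dep_lift dF) 0).mono (Ch.Win.mono (by omega) (by omega)))
        ((Ch.dep_sft (dep_lift dF) s).mono (Ch.Win.mono (by omega) (by omega)))
  have a1 := abs_le.1 (g s hk)
  have a2 := abs_le.1 (g 0 (by omega))
  have a3 := near_vac V h0 hZ bF h1 (a := 0) (k := k) (dep_lift (by rwa [zero_add])) (by omega)
  have a4 := Fs.vac_clus (wt_WW h b) V (bF.comp meas_lift) (WW_inv b) (dep_lift dF) s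
  have a5 := ((wt_WW h b).gram_pos V (KK_psd h b hb) (WW_inv b) (bF.comp meas_lift)
    (dep_lift dF) 0).1
  have a6 : |∫ U, F U ∂cube h b n| ≤ 1 := by
    unfold cube
    simpa using norm_integral_le_of_norm_le_const (μ := wilson h b fun _ => n) (f := F)
      (.of_forall h1)
  have a7 : exp (-s / t) ≤ 1 := exp_le_one_iff.2 (by rw [neg_div]; exact neg_nonpos.2 (by positivity))
  have a8 := mul_le_mul_of_nonneg_right (q2 s) a5
  have a9 := q2 (n / 8)
  have a0 := pow_nonneg V.r0 (n / 8)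
  simp only [Nat.cast_zero, sht_zero] at a2 a4 a5 a8
  have b1 := mul_le_mul_of_nonneg_left a2.1 (exp_pos (-s / t)).le
  have b2 := mul_le_mul_of_nonneg_right a7 a0
  have b3 := (abs_mul _ _).trans_le (mul_le_mul a3.2 ((abs_add_le _ _).trans (add_le_add a6 a3.1))
    (abs_nonneg _) (by positivity))
  nlinarith [(abs_le.1 b3).1]

/-- exponential clustering on the symmetric torus -/
theorem torus_gap (hb : 0 ≤ b) {t : ℕ} (ht : 2 ≤ t) (H : Fs.Cr (Zb h b) t (1 / 10 ^ 6))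
    (hn : 2 * t ≤ n) {F : Fd → ℝ} (bF : BM F) {C : ℝ} (C0 : 0 < C) (h1 : ∀ U, |F U| ≤ C) {k s : ℕ}
    (dF : DependsOn F (Tm 0 (k + 1 : ℕ))) (hk : 8 * (k + 1 + s + k + 1) ≤ n) :
    ∫ U, F (rfl0 U) * F (sht s U) ∂cube h b n - (∫ U, F U ∂cube h b n) ^ 2 ≤
      exp (-s / t) * ∫ U, F (rfl0 U) * F U ∂cube h b n +
        16 * exp (-(n / 8 : ℕ) / t) * C ^ 2 := by
  have := mul_le_mul_of_nonneg_right (torus_one hb ht H hn (F := fun U => C⁻¹ * F U)
    ((BM.const _).mul bF) (fun U => by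
      rw [abs_mul, abs_of_pos (inv_pos.2 C0), inv_mul_le_iff₀ C0, mul_one]
      exact h1 U) (fun U V e => by simp only [dF e]) hk) (sq_nonneg C)
  simp only [mul_mul_mul_comm C⁻¹ _ C⁻¹, integral_const_mul] at this
  refine le_of_eq_of_le ?_ (this.trans_eq ?_) <;> field_simp

end Pool.Agent.Lib.MP_7f377f_mp.YM9
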