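import Pool.Agent.Lib.MP_7f377f_mp.G.GapB
import Pool.Agent.Lib.MP_7f377f_mp.G.InfF

/-! Exponential clustering of the continuum limit from the finite size criterion. -/

noncomputable section

namespace Pool.Agent.Lib.MP_7f377f_mp.YM7
variable [GD]

open MeasureTheory Filter Topology Weak Set Real
open RGP (BM)

set_option linter.unusedSectionVars false

variable [MeasurableSpace SU2] [BorelSpace SU2] {h : Measure SU2} [h.IsHaarMeasure]
  [IsProbabilityMeasure h]

section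
variable {n : ℕ} [NeZero n] {b : ℝ}

theorem cube_gap (hb : 0 ≤ b) {t : ℕ} (ht : 2 ≤ t) (H : Fs.Cr (YM9.Zb h b) t (1 / 10 ^ 6))
    (hn : 2 * t ≤ n) {P : Cfg n → ℝ} (cP : Continuous P) {C : ℝ} (C0 : 0 < C) (h1 : ∀ U, |P U| ≤ C)
    {k s : ℕ} (dP : Dep k 0 P) (hk : 8 * (k + 1 + s + k + 1) ≤ n) :
    ∫ U, P (shift (Pi.single 0 ((s : ℤ) : ZMod n)) U) * P (refl 0 U) ∂wilson h b n -
      (∫ U, P U ∂wilson h b n) ^ 2 ≤ exp (-s / t) * ∫ U, P U * P (refl 0 U) ∂wilson h b n +
        16 * exp (-(n / 8 : ℕ) / t) * C ^ 2 := by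
  let res : YM9.Fd → Cfg n := fun U e => U (fun l => ((e.1 l).val : ℤ), e.2)
  have cF : Continuous fun U => P (res U) := cP.comp (by fun_prop)
  have e0 : ∀ U, res (YM9.ext U) = U := fun U => funext fun e => by simp [res, YM9.ext]
  have e1 : ∀ U : Cfg n, YM9.rfl0 (YM9.ext U) = YM9.ext (refl 0 U) := fun U => funext fun e => by
    have : (fun i => (YM9.rq e.2 e.2 e.1 i : ZMod n)) =
        (rl 0 ((fun i => (e.1 i : ZMod n), e.2) : Link 4 n)).1 := funext fun l => by
      by_cases he : e.2 = 0 <;> by_cases hl : l = 0 <;> simp [YM9.rq, rl, rc, rf, he, hl]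
    simp only [YM9.rfl0, YM9.ext, Weak.refl, this]
    rfl
  have e2 : ∀ U : Cfg n, YM9.sht s (YM9.ext U) =
      YM9.ext (shift (Pi.single 0 ((s : ℤ) : ZMod n)) U) := fun U => funext fun e => by
    simp only [YM9.sht, YM9.shf, YM9.ext, shift]
    congr 2
    funext l
    by_cases hl : l = 0 <;> simp [hl]
  have := YM9.torus_gap hb ht H hn (Y6.bm_of_cont cF) C0 (fun _ => h1 _)
    (fun U V e => dP _ _ fun x hx => e _ ⟨Int.natCast_nonneg _, by
      have := hx.1
      simp only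
      omega⟩) hk
  rw [YM9.int_cube h b n (Continuous.measurable (by fun_prop)),
    YM9.int_cube h b n cF.measurable, YM9.int_cube h b n (Continuous.measurable (by fun_prop))]
    at this
  simpa only [e1, e2, e0, mul_comm (P (refl 0 _))] using this

theorem form_gap (hb : 0 ≤ b) {t : ℕ} (ht : 2 ≤ t) (H : Fs.Cr (YM9.Zb h b) t (1 / 10 ^ 6))
    (hn : 2 * t ≤ n) {m : ℕ} (c : Fin m → ℝ) {k : Fin m → ℕ} {F : ∀ a, Fin (k a) → Src n} {C : ℝ}
    (C0 : 0 < C) (h1 : ∀ U, |pol h b c F U| ≤ C) {K s : ℕ}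
    (hF : ∀ a i x μ ν, F a i x μ ν ≠ 0 → (x 0).val < K) (hk : 8 * (K + 1 + s + K + 1) ≤ n) :
    gform h b c F (fun a i => tr s (F a i)) - (∑ a, c a * gcorr h b n (F a)) ^ 2 ≤
      exp (-s / t) * gform h b c F F + 16 * exp (-(n / 8 : ℕ) / t) * C ^ 2 := by
  have cc := continuous_cen (n := n) h b
  have e1 : ∀ U, pol h b c (fun a i => tr s (F a i)) U =
      pol h b c F (shift (Pi.single 0 ((s : ℤ) : ZMod n)) U) := fun U => by
    simp only [pol, ← cen_of h b (mp_shift' h b _) (gfield_shift _ _)]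
    rfl
  have e2 : ∑ a, c a * gcorr h b n (F a) = ∫ U, pol h b c F U ∂wilson h b n := by
    simp only [pol, gcorr_eq, ← integral_const_mul]
    rw [integral_finsetSum _ fun a _ => cint _ (by fun_prop)]
  simp only [gform_eq, e1, e2]
  refine cube_gap hb ht H hn (continuous_pol h b c F) C0 h1 (fun U V e => ?_) hk
  have : ∀ a i, gfield (F a i) U = gfield (F a i) V := fun a i =>
    Finset.sum_congr rfl fun x _ => Finset.sum_congr rfl fun μ _ =>
      Finset.sum_congr rfl fun ν _ => by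
        by_cases h0 : F a i x μ ν = 0
        · simp only [h0, zero_mul]
        · have := dep_hol' (show K < n by omega) 0 μ ν x (hF _ _ _ _ _ h0).le
            (fun _ => hF _ _ _ _ _ h0) U V e
          simp only at this
          rw [pe_eq, pe_eq, this]
  simp only [pol, cen, this]

end

theorem pol_le {m : ℕ} (c : Fin m → ℝ) (k : Fin m → ℕ) {B : ℝ} (B0 : 0 ≤ B) :
    ∃ A > 0, ∀ (n : ℕ) [NeZero n] (b : ℝ) (F : ∀ a, Fin (k a) → Src n),
      (∀ a i x μ ν, |F a i x μ ν| ≤ B) → ∀ U, |pol h b c F U| ≤ A * n ^ (4 * ∑ a, k a) := by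
  obtain ⟨D, hD⟩ := (Y6.bm_of_cont (f := fun g => 2 - Y6.tc g) (by fun_prop)).bdd
  have D0 := (abs_nonneg _).trans (hD 1)
  refine ⟨∑ a, |c a| * (32 * (B * D)) ^ k a + 1, by positivity, fun n _ b F hF U => ?_⟩
  have n1 : (1 : ℝ) ≤ n := by exact_mod_cast NeZero.pos n
  have g : ∀ a i U, |gfield (F a i) U| ≤ n ^ 4 * (16 * (B * D)) := fun a i U => by
    refine (Finset.abs_sum_le_sum_abs _ _).trans ((Finset.sum_le_card_nsmul _ _ (16 * (B * D))
      fun x _ => (Finset.abs_sum_le_sum_abs _ _).trans ((Finset.sum_le_card_nsmul _ _ (4 * (B * D))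
        fun μ _ => (Finset.abs_sum_le_sum_abs _ _).trans ((Finset.sum_le_card_nsmul _ _ (B * D)
          fun ν _ => ?_).trans_eq (by simp))).trans_eq (by simp; ring))).trans_eq (by simp))
    split_ifs
    · rw [abs_mul]
      exact mul_le_mul (hF _ _ _ _ _) (hD _) (abs_nonneg _) B0
    · simpa using mul_nonneg B0 D0
  have g2 : ∀ a i, |cen h b (F a i) U| ≤ 32 * (B * D) * n ^ 4 := fun a i => by
    have := norm_integral_le_of_norm_le_const (μ := wilson h b n) (f := gfield (F a i))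
      (.of_forall (g a i))
    rw [probReal_univ, mul_one, Real.norm_eq_abs] at this
    exact (abs_sub _ _).trans (by linarith [g a i U])
  rw [add_mul, Finset.sum_mul]
  refine ((Finset.abs_sum_le_sum_abs _ _).trans (Finset.sum_le_sum fun a _ => ?_)).trans
    (le_add_of_nonneg_right (by positivity))
  rw [abs_mul, mul_assoc, Finset.abs_prod]
  refine mul_le_mul_of_nonneg_left ((Finset.prod_le_prod (fun _ _ => abs_nonneg _)
    fun i _ => g2 a i).trans ?_) (abs_nonneg _)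
  rw [Fin.prod_const, mul_pow, ← pow_mul]
  exact mul_le_mul_of_nonneg_left (pow_le_pow_right₀ n1 (Nat.mul_le_mul_left 4
    (Finset.single_le_sum (fun _ _ => Nat.zero_le _) (Finset.mem_univ a)))) (by positivity)

variable {ι : Type} {Φ : Filter ι} {n : ι → ℕ} [∀ p, NeZero (n p)] {a b τ : ι → ℝ}

theorem err_zero (hF : Fam Φ n a b τ) (hv : Tendsto (fun p => log (n p) / (a p * n p)) Φ (𝓝 0))
    {L : ℝ} (L0 : 0 < L) {t : ι → ℕ} (ht : ∀ᶠ p in Φ, 2 ≤ t p ∧ a p * t p ≤ L) (j : ℕ) :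
    Tendsto (fun p => exp (-(n p / 8 : ℕ) / t p) * (n p : ℝ) ^ j) Φ (𝓝 0) := by
  have h1 := (hv.const_mul (j : ℝ)).sub_const (1 / (16 * L))
  rw [mul_zero, zero_sub] at h1
  refine squeeze_zero' (.of_forall fun p => by positivity) ?_ (tendsto_exp_atBot.comp
    (hF.vol.atTop_mul_neg (neg_lt_zero.2 (by positivity)) h1))
  filter_upwards [ht, hF.pos, hF.small one_pos, hF.vol.eventually_ge_atTop 16] with p e1 e2 e3 e4
  have n0 : (0 : ℝ) < n p := by exact_mod_cast NeZero.pos (n p)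
  have t0 : (0 : ℝ) < t p := by exact_mod_cast (show 0 < t p by omega)
  have n1 : 16 ≤ n p := by exact_mod_cast e4.trans (mul_le_of_le_one_left n0.le e3)
  have n2 : (n p : ℝ) ≤ 16 * (n p / 8 : ℕ) := by exact_mod_cast (show n p ≤ 16 * (n p / 8) by omega)
  have a0 := e2.1
  rw [Function.comp, ← exp_log (pow_pos n0 j), ← exp_add, log_pow, exp_le_exp, mul_sub,
    show a p * n p * (j * (log (n p) / (a p * n p))) = j * log (n p) by field_simp, neg_div]
  have : a p * n p * (1 / (16 * L)) ≤ (n p / 8 : ℕ) / t p := by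
    rw [mul_one_div, div_le_div_iff₀ (by positivity) t0]
    nlinarith [mul_le_mul n2 e1.2 (by positivity) (by positivity)]
  linarith

theorem gap_of [Φ.NeBot] (hF : Fam Φ n a b τ)
    (hv : Tendsto (fun p => log (n p) / (a p * n p)) Φ (𝓝 0))
    {S : ∀ {k : ℕ}, (Fin k → R4 → ℝ) → ℝ} (nr : ∀ {k} {f : Fin k → R4 → ℝ}, Adm f →
      ∀ {F : ∀ p, Fin k → Src (n p)}, (∀ᶠ p in Φ, ∀ i, Near (a p) (F p i) (f i)) →
      Tendsto (fun p => gcorr h (b p) (n p) (F p)) Φ (𝓝 (S f))) {L : ℝ} (L0 : 0 < L)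
    (hc : ∀ᶠ p in Φ, ∃ t : ℕ, 2 ≤ t ∧ a p * t ≤ L ∧ Fs.Cr (YM9.Zb h (b p)) t (1 / 10 ^ 6))
    (m : ℕ) (c : Fin m → ℝ) (k : Fin m → ℕ) (f : ∀ a, Fin (k a) → R4 → ℝ) (h1 : ∀ a, Adm (f a))
    (h2 : ∀ a i, ∀ y ∈ tsupport (f a i), 0 < y 0) :
    ∀ s ≥ 0, gram S c f s - (∑ u, c u * S (f u)) ^ 2 ≤ exp (-s / L) * gram S c f 0 := by
  intro s hs
  obtain ⟨t, ht⟩ := hc.choice
  obtain ⟨R, R0, hR⟩ := (isCompact_iUnion fun j : Σ a, Fin (k a) =>
    ((h1 j.1).1 j.2).1).isBounded.exists_pos_norm_le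
  have h3 : ∀ a i, ∀ y ∈ tsupport (f a i), ‖y‖ ≤ R := fun a i y hy =>
    hR y (mem_iUnion.2 ⟨⟨a, i⟩, hy⟩)
  have h4 : ∀ a i, ∀ y ∈ tsupport (f a i), y 0 ≤ R := fun a i y hy =>
    (le_abs_self _).trans ((PiLp.norm_apply_le y 0).trans (h3 a i y hy))
  obtain ⟨B, B0, hB⟩ : ∃ B, 0 ≤ B ∧ ∀ u i y, |f u i y| ≤ B := by
    choose D _ _ hD _ using fun u => (h1 u).data
    exact ⟨∑ u, D u, by positivity, fun u i y => ((hD u i).2 y).trans (Finset.single_le_sum
      (f := fun u => (D u : ℝ)) (fun _ _ => Nat.cast_nonneg _) (Finset.mem_univ u))⟩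
  obtain ⟨A, A0, hA⟩ := pol_le (h := h) c k B0
  have lim : ∀ t ≥ 0, Tendsto (fun p => gform h (b p) c (fun u i => src (n p) (a p) (f u i))
      fun u i => tr ⌊t / a p⌋₊ (src (n p) (a p) (f u i))) Φ (𝓝 (gram S c f t)) := by
    intro t ht
    refine tendsto_finsetSum _ fun u _ => tendsto_finsetSum _ fun u' _ => Tendsto.const_mul _
      (nr ((h1 u).theta.append (by simpa only [sub_eq_add_neg] using (h1 u').add _) fun i j =>
        disjoint_left.2 fun y hy hy' => ?_) ?_)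
    · have e1 := tsupport_comp (θ := th) (f := f u i) (thL_eq ▸ thL.continuous) hy
      have e2 := tsupport_comp (θ := fun y => y - EuclideanSpace.single 0 t) (by fun_prop) hy'
      have e3 := h2 u i _ e1
      have e5 := h2 u' j _ e2
      rw [th_zero] at e3
      simp only [PiLp.sub_apply, PiLp.single_apply, if_true] at e5
      linarith
    · filter_upwards [hF.pos, hF.big (2 * (R + |t| + |t|))] with p e2 e3
      refine YM5.forall_append₂ (P := Near (a p)) (fun i => ?_) fun i =>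
        near_tr (cube_of (h3 u' i)) e2.1 ?_ (by linarith)
      · have := near_refl (n := n p) (f := theta (f u i)) (R := R) (fun y hy l =>
          (abs_th y l).symm.trans_le (cube_of (h3 u i) _ hy l)) e2.1 (by linarith [abs_nonneg t])
        rwa [show theta (theta (f u i)) = f u i from funext fun y => congrArg _ (th_th y)] at this
      · have e4 := (le_div_iff₀' e2.1).1 (Nat.floor_le (div_nonneg ht e2.1.le))
        have e5 := (div_le_iff₀' e2.1).1 (Nat.lt_floor_add_one (t / a p)).le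
        rw [Int.cast_natCast, abs_le]
        constructor <;> linarith [e2.1]
  have l0 := lim 0 le_rfl
  have e0 : ∀ (n : ℕ) (F : Src n), tr (0 : ℕ) F = F := fun n F => funext fun x => by simp [tr]
  simp only [zero_div, Nat.floor_zero, e0] at l0
  have l1 := (tendsto_finsetSum Finset.univ fun u _ => (nr (h1 u) (F := fun p i =>
    src (n p) (a p) (f u i)) (hF.pos.mono fun p e i => near_src e.1.le _)).const_mul (c u)).pow 2
  have l2 := (continuous_exp.tendsto _).comp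
    (((hF.a0.mono_right nhdsWithin_le_nhds).sub_const s).div_const L)
  have l3 := (err_zero hF hv L0 (ht.mono fun p e => ⟨e.1, e.2.1⟩) (4 * (∑ a, k a) * 2)).const_mul
    (16 * A ^ 2)
  have l4 := (l2.mul l0.abs).add l3
  rw [zero_sub, mul_zero, add_zero,
    abs_of_nonneg (gram_of hF le_rfl nr m c k f h1 h2 0 le_rfl).1] at l4
  refine le_of_tendsto_of_tendsto ((lim s hs).sub l1) l4 ?_
  filter_upwards [ht, hF.pos, hF.b0, hF.small one_pos,
    hF.vol.eventually_ge_atTop (2 * L + 8 * (2 * R + s + 6))] with p e1 e2 e3 e4 e5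
  have a0 := e2.1
  have t0 : (0 : ℝ) < t p := by exact_mod_cast (show 0 < t p by omega)
  have f1 := (le_div_iff₀' a0).1 (Nat.floor_le (div_nonneg hs a0.le))
  have f2 := (div_le_iff₀' a0).1 (Nat.lt_floor_add_one (s / a p)).le
  have f3 := Nat.ceil_lt_add_one (div_nonneg R0.le a0.le)
  rw [← sub_lt_iff_lt_add, lt_div_iff₀' a0] at f3
  have f4 : 8 * (⌈R / a p⌉₊ + 1 + 1 + ⌊s / a p⌋₊ + (⌈R / a p⌉₊ + 1) + 1) ≤ n p := by
    exact_mod_cast le_of_mul_le_mul_left (show a p * (8 * (⌈R / a p⌉₊ + 1 + 1 + ⌊s / a p⌋₊ +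
      (⌈R / a p⌉₊ + 1) + 1)) ≤ a p * n p by linarith) a0
  refine (form_gap e3 e1.1 e1.2.2 ?_ c (by have := NeZero.pos (n p); positivity)
    (hA _ _ _ fun u i x _ _ => hB u i _) (fun u i x _ _ hx => ?_) f4).trans (add_le_add ?_ ?_)
  · exact_mod_cast le_of_mul_le_mul_left (show a p * (2 * t p) ≤ a p * n p by
      linarith [e1.2.1]) a0
  · have g1 : 0 < (x 0).valMinAbs := by
      exact_mod_cast (mul_pos_iff_of_pos_left a0).1 (h2 u i _ (subset_tsupport _ hx))
    have g2 : (x 0).valMinAbs ≤ ⌈R / a p⌉₊ := by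
      exact_mod_cast ((le_div_iff₀' a0).2 (h4 u i _ (subset_tsupport _ hx))).trans (Nat.le_ceil _)
    have g3 := ZMod.val_intCast (n := n p) (x 0).valMinAbs
    rw [Int.emod_eq_of_lt (by omega) (by omega), ZMod.coe_valMinAbs] at g3
    omega
  · refine (mul_le_mul_of_nonneg_left (le_abs_self _) (exp_pos _).le).trans
      (mul_le_mul_of_nonneg_right (exp_le_exp.2 ?_) (abs_nonneg _))
    rw [div_le_div_iff₀ t0 L0]
    nlinarith [mul_le_mul_of_nonneg_left e1.2.1 (Nat.cast_nonneg ⌊s / a p⌋₊),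
      mul_le_mul_of_nonneg_right f2 t0.le]
  · rw [mul_pow, ← pow_mul]
    exact le_of_eq (by ring)

end Pool.Agent.Lib.MP_7f377f_mp.YM7
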