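import Pool.Agent.Lib.MP_7f377f_mp.G.RoD1
import Pool.Agent.Lib.MP_7f377f_mp.S10KC

/-! Spin counting. -/

noncomputable section

namespace Pool.Agent.Lib.MP_7f377f_mp.Ro
variable [Pool.Agent.Lib.MP_7f377f_mp.GD]
set_option linter.unusedSectionVars false

open Filter Topology Set Real YM7 Pur MvPolynomial
open scoped NNReal

variable {W : Pol →ₗ[ℂ] ℂ} {H : Type} [NormedAddCommGroup H] [InnerProductSpace ℂ H]
  [CompleteSpace H] {r : net.Rep W 0 H} {k : ℕ} {Z Z' : Pol}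

namespace E1

open S10 ComplexConjugate

omit [CompleteSpace H] in
theorem inn_rot (r : net.Rep W 0 H) (hZ : Z ∈ net.loc (Cz 0)) {a b : ℝ} (ha : |a| < 1)
    (hb : |b| < 1) : inner ℂ (r.Ψ (act (rot 0 a) Z)) (r.Ψ (act (rot 0 b) Z)) =
      W (act (rot 0 (-a)) (net.Θ 0 Z) * act (rot 0 b) Z) := by
  rw [r.inn (act_cz hZ ha) (act_cz hZ hb), Θ_rot]

omit [CompleteSpace H] in
theorem inn_neg (r : net.Rep W 0 H) (hZ : Z ∈ net.loc (Cz 0)) {a : ℝ} (ha : |a| < 1) :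
    inner ℂ (r.Ψ (act (rot 0 (-a)) Z)) (r.Ψ (act (rot 0 a) Z)) =
      W (act (rot 0 a) (net.Θ 0 Z * Z)) := by
  rw [inn_rot r hZ (by rwa [abs_neg]) ha, neg_neg, map_mul (act _)]

theorem adm_sq (hZ : Z ∈ net.loc (Cz 0)) : net.Θ 0 Z * Z ∈ net.loc univ := by
  have := act_cz (φ := 0) hZ (by simp)
  rw [rot_zero, act_one] at this
  exact Net.rp_adm this this

omit [CompleteSpace H] in
theorem self_pos (x : H) : 0 ≤ (inner ℂ x x).re ∧ (inner ℂ x x).im = 0 :=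
  ⟨inner_self_nonneg (𝕜 := ℂ), inner_self_im (𝕜 := ℂ) x⟩

theorem shift {Y c : ℝ} (hc : |c| ≤ π / 4) {z : ℂ} (hz : z ∈ Rc (1 - π / 4) Y) :
    (c + z : ℂ) ∈ Rc 1 Y :=
  ⟨by
    rw [Complex.add_re, Complex.ofReal_re]
    linarith [abs_add_le c z.re, hz.1], by simpa using hz.2⟩

omit [CompleteSpace H] in
/-- positivity on the diagonal line -/
theorem diag (hW : H0 W) (hZ : Z ∈ net.loc (Cz 0)) {Y β : ℝ} {V : ℂ → H}
    (hd : DifferentiableOn ℂ V (Rc 1 Y)) (hb : ∀ z ∈ Rc 1 Y, ‖V z‖ ≤ β)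
    (hV : ∀ φ : ℝ, |φ| < 1 → V φ = r.Ψ (act (rot 0 φ) Z)) {u : ℝ} (hu : |u| < Y) :
    ∃ (H' : Type) (_ : NormedAddCommGroup H') (_ : InnerProductSpace ℂ H') (x : H'),
      inner ℂ (V ((-(π / 4) : ℝ) + u * Complex.I)) (V ((π / 4 : ℝ) + u * Complex.I)) =
        inner ℂ x x := by
  obtain ⟨H', _, _, _, ⟨r'⟩⟩ := (hW.dg 0).exists_rep 0
  have q : 0 < 1 - π / 4 := sub_pos.2 KC.q1
  have c1 : |π / 4| ≤ π / 4 := (abs_of_pos KC.q2).le
  have c2 : |-(π / 4)| ≤ π / 4 := by rwa [abs_neg]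
  have d : ∀ {c : ℝ}, |c| ≤ π / 4 → ∀ z ∈ Rc (1 - π / 4) Y,
      DifferentiableAt ℂ (fun w : ℂ => V (c + w)) z := fun hc z hz =>
    (rc_at hd (shift hc hz)).comp z (by fun_prop)
  obtain ⟨φ, -, -, h⟩ := kc (ψ := fun x => r'.Ψ (act (rot 0 x) Z)) (M := β * β)
    (K := fun a b => inner ℂ (V ((-(π / 4) : ℝ) + conj a)) (V ((π / 4 : ℝ) + b))) q le_rfl
    ((abs_nonneg u).trans_lt hu)
    (fun z _ w hw => ((innerSL ℂ (V ((-(π / 4) : ℝ) + conj z))).differentiableAt.comp w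
      (d c1 w hw)).differentiableWithinAt)
    (fun w _ z hz => (diff_inner (f := fun w : ℂ => V ((-(π / 4) : ℝ) + w)) (d c2 _ (rc_conj hz))
      (differentiableAt_const _)).differentiableWithinAt)
    (fun z hz w hw => (norm_inner_le_norm _ _).trans (mul_le_mul (hb _ (shift c2 (rc_conj hz)))
      (hb _ (shift c1 hw)) (norm_nonneg _) ((norm_nonneg _).trans (hb _ (shift c1 hw)))))
    fun x y hx hy => by
      have e1 : |-(π / 4) + x| < 1 := by linarith [abs_add_le (-(π / 4)) x]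
      have e2 : |π / 4 + y| < 1 := by linarith [abs_add_le (π / 4) y]
      rw [Complex.conj_ofReal, ← Complex.ofReal_add, ← Complex.ofReal_add, hV _ e1, hV _ e2,
        inn_rot r hZ e1 e2, inn_rot r' hZ (by linarith [KC.q2]) (by linarith [KC.q2]), cmp_apply,
        map_mul (act _), act_act, act_act, rot_mul, rot_mul, neg_add, neg_neg]
  have m : (u * Complex.I : ℂ) ∈ Rc (1 - π / 4) Y := ⟨by simpa using KC.q1, by simpa using hu⟩
  have := h _ (rc_conj m) _ m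
  simp only [Complex.conj_conj] at this
  exact ⟨H', inferInstance, inferInstance, _, this.symm⟩

omit [CompleteSpace H] in
theorem core : ∃ C : ℝ, 0 ≤ C ∧ ∀ {Z : Pol} {Y β b y : ℝ}, H0 W → Z ∈ net.loc (Cz 0) → Ext r Y β Z →
    0 ≤ y → y + 1 ≤ Y → (∀ φ : ℝ, |φ| < 1 → ‖r.Ψ (act (rot 0 φ) Z)‖ ≤ b) → ∀ φ : ℝ, |φ| < 1 →
    ‖W (act (rot 0 φ) (net.Θ 0 Z * Z)) - W (net.Θ 0 Z * Z)‖ ≤
      C * (b * b * exp (-4 * y) + β * β * exp (8 * (y - Y))) := by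
  obtain ⟨C, hC⟩ := lau2
  refine ⟨|C|, abs_nonneg _, fun {Z Y β b y} hW hZ ⟨V, hd, hb, hV⟩ y0 hy hB φ hφ => ?_⟩
  have e : ∀ x : ℝ, |x| < 1 → inner ℂ (V (-conj (x : ℂ))) (V x) =
      W (act (rot 0 x) (net.Θ 0 Z * Z)) := fun x hx => by
    rw [Complex.conj_ofReal, ← Complex.ofReal_neg, hV _ (by rwa [abs_neg]), hV _ hx, inn_neg r hZ hx]
  have b0 : 0 ≤ b := (norm_nonneg _).trans (hB _ hφ)
  have := hC (fun z => inner ℂ (V (-conj z)) (V z)) Y (β * β) (b * b) y y0 hy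
    (fun z hz => (diff_inner (f := fun w => V (-w))
      ((rc_at hd (rc_neg (rc_conj hz))).comp _ (by fun_prop)) (rc_at hd hz)).differentiableWithinAt)
    (fun z hz => (norm_inner_le_norm _ _).trans (mul_le_mul (hb _ (rc_neg (rc_conj hz)))
      (hb _ hz) (norm_nonneg _) ((norm_nonneg _).trans (hb _ hz))))
    (fun x h1 h2 => by
      rw [e _ h1, e _ h2, add_comm, ← rot_mul, ← act_act]
      exact hW.quarter 0 _ (act_adm _ (adm_sq hZ)))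
    (fun x hx => by
      rw [Complex.conj_ofReal, ← Complex.ofReal_neg, hV _ (by rwa [abs_neg]), hV _ hx]
      exact (norm_inner_le_norm _ _).trans
        (mul_le_mul (hB _ (by rwa [abs_neg])) (hB _ hx) (norm_nonneg _) b0))
    (fun u hu => by
      obtain ⟨H', _, _, x, hx⟩ := diag hW hZ hd hb hV hu
      rw [show -conj (u * Complex.I : ℂ) = u * Complex.I by simp,
        show -conj (((π / 4 : ℝ) : ℂ) + u * Complex.I) = (-(π / 4) : ℝ) + u * Complex.I by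
          rw [map_add, Complex.conj_ofReal, Complex.ofReal_neg]; simp [add_comm], hx]
      exact ⟨(self_pos _).1, (self_pos _).2, self_pos _⟩) φ hφ
  have e0 := e 0 (by simp)
  rw [rot_zero, act_one, Complex.ofReal_zero] at e0
  beta_reduce at this
  rw [e _ hφ, e0] at this
  exact this.trans (mul_le_mul_of_nonneg_right (le_abs_self _)
    (add_nonneg (mul_nonneg (mul_self_nonneg _) (exp_pos _).le)
      (mul_nonneg (mul_self_nonneg _) (exp_pos _).le)))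

omit [CompleteSpace H] in
theorem inner_near {a a' c c' : H} {b ε : ℝ} (ha : ‖a‖ ≤ b) (hc : ‖c'‖ ≤ b + 1)
    (h : ‖a' - a‖ ≤ ε) (h' : ‖c' - c‖ ≤ ε) :
    ‖inner ℂ a' c' - inner ℂ a c‖ ≤ ε * (2 * b + 1) := by
  have e0 : 0 ≤ ε := (norm_nonneg _).trans h
  rw [show inner ℂ a' c' - inner ℂ a c = inner ℂ (a' - a) c' + inner ℂ a (c' - c) by
    rw [inner_sub_left, inner_sub_right]; ring]
  linarith [norm_add_le (inner ℂ (a' - a) c') (inner ℂ a (c' - c)),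
    (norm_inner_le_norm (𝕜 := ℂ) (a' - a) c').trans (mul_le_mul h hc (norm_nonneg _) e0),
    (norm_inner_le_norm (𝕜 := ℂ) a (c' - c)).trans
      (mul_le_mul ha h' (norm_nonneg _) ((norm_nonneg _).trans ha))]

end E1

open E1

theorem App.inv (hW : H0 W) {Y : ℕ → ℝ} (hY : Tendsto Y atTop atTop) (h : App r Y Z)
    (hZ : Z ∈ net.loc (Cz 0)) {φ : ℝ} (hφ : |φ| < 1) :
    W (act (rot 0 φ) (net.Θ 0 Z * Z)) = W (net.Θ 0 Z * Z) := by
  obtain ⟨C, C0, hC⟩ := core (r := r)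
  obtain ⟨b, hb⟩ : ∃ b, ∀ φ : ℝ, |φ| < 1 → ‖r.Ψ (act (rot 0 φ) Z)‖ ≤ b := by
    obtain ⟨n, Z', -, ⟨V, -, h2, h3⟩, h4⟩ := (h 1 one_pos).and (hY.eventually_gt_atTop 0) |>.exists.imp
      fun n hn => hn.1.imp fun Z' e => (⟨e.1, e.2.1, hn.2, e.2.2⟩ : _ ∧ _ ∧ _ ∧ _)
    refine ⟨1 * exp (4 * Y n) + 1, fun φ hφ => ?_⟩
    have := h2 φ ⟨by simpa using hφ, by simpa using h4.1⟩
    rw [h3 φ hφ] at this
    linarith [norm_le_norm_add_norm_sub (r.Ψ (act (rot 0 φ) Z')) (r.Ψ (act (rot 0 φ) Z)), h4.2 φ hφ]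
  have t : ∀ c : ℝ, c < 0 → Tendsto (fun y : ℝ => exp (c * y)) atTop (𝓝 0) := fun c hc =>
    tendsto_exp_atBot.comp (tendsto_id.const_mul_atTop_of_neg hc)
  have l := (((t (-5) (by norm_num)).mul_const (2 * b + 1)).const_mul 2).add
    ((((t (-4) (by norm_num)).const_mul ((b + 1) * (b + 1))).add (t (-2) (by norm_num))).const_mul C)
  simp only [zero_mul, mul_zero, add_zero] at l
  rw [← sub_eq_zero, ← norm_le_zero_iff]
  refine ge_of_tendsto l ((eventually_ge_atTop 0).mono fun y y0 => ?_)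
  obtain ⟨n, ⟨Z', h1, h2, h3⟩, h4⟩ :=
    ((h _ (exp_pos (-5 * y))).and (hY.eventually_ge_atTop (y + 1))).exists
  have e1 : exp (-5 * y) ≤ 1 := exp_le_one_iff.2 (by linarith)
  have hb' : ∀ φ : ℝ, |φ| < 1 → ‖r.Ψ (act (rot 0 φ) Z')‖ ≤ b + 1 := fun φ hφ => by
    linarith [norm_le_norm_add_norm_sub' (r.Ψ (act (rot 0 φ) Z')) (r.Ψ (act (rot 0 φ) Z)),
      h3 φ hφ, hb φ hφ]
  have k : ∀ φ : ℝ, |φ| < 1 → ‖W (act (rot 0 φ) (net.Θ 0 Z' * Z')) -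
      W (act (rot 0 φ) (net.Θ 0 Z * Z))‖ ≤ exp (-5 * y) * (2 * b + 1) := fun φ hφ => by
    have hφ' : |-φ| < 1 := by rwa [abs_neg]
    rw [← inn_neg r h1 hφ, ← inn_neg r hZ hφ]
    exact inner_near (hb _ hφ') (hb' _ hφ) (h3 _ hφ') (h3 _ hφ)
  have k0 := k 0 (by simp)
  have k1 := k φ hφ
  have k2 := hC hW h1 h2 y0 h4 hb' φ hφ
  rw [rot_zero, act_one, act_one] at k0
  rw [← exp_add, ← exp_add, ← exp_add, show -5 * y + 4 * Y n + (-5 * y + 4 * Y n) + 8 * (y - Y n)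
    = -2 * y by ring] at k2
  rw [norm_sub_rev] at k1
  linarith [norm_sub_le_norm_sub_add_norm_sub (W (act (rot 0 φ) (net.Θ 0 Z * Z)))
      (W (act (rot 0 φ) (net.Θ 0 Z' * Z'))) (W (net.Θ 0 Z * Z)),
    norm_sub_le_norm_sub_add_norm_sub (W (act (rot 0 φ) (net.Θ 0 Z' * Z')))
      (W (net.Θ 0 Z' * Z')) (W (net.Θ 0 Z * Z))]

theorem App.inv2 (hW : H0 W) {Y : ℕ → ℝ} (hY : Tendsto Y atTop atTop) (h : App r Y Z)
    (h' : App r Y Z') (hZ : Z ∈ net.loc (Cz 0)) (hZ' : Z' ∈ net.loc (Cz 0)) {φ : ℝ} (hφ : |φ| < 1) :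
    W (act (rot 0 φ) (net.Θ 0 Z * Z')) = W (net.Θ 0 Z * Z') := by
  have a := fun c : ℂ => (h.add (h'.smul c)).inv hW hY
    (Submodule.add_mem _ hZ (Submodule.smul_mem _ c hZ')) hφ
  simp only [map_add, net.Θ_smul, add_mul, mul_add, mul_smul_comm, smul_mul_assoc, map_smul,
    smul_eq_mul, h.inv hW hY hZ hφ, h'.inv hW hY hZ' hφ] at a
  have a1 := a 1
  have a2 := a Complex.I
  rw [map_one] at a1
  rw [Complex.conj_I] at a2
  linear_combination a1 / 2 - Complex.I * a2 / 2 + (W (act (rot 0 φ) (net.Θ 0 Z * Z')) -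
    W (net.Θ 0 Z * Z') - W (act (rot 0 φ) (net.Θ 0 Z' * Z)) + W (net.Θ 0 Z' * Z)) / 2 * Complex.I_mul_I

end Pool.Agent.Lib.MP_7f377f_mp.Ro
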