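import Pool.Agent.Lib.MP_7f377f_mp.G.S10P4

/-! The dense arrays of sources. -/

noncomputable section

open Pool.Agent.Lib.MP_7f377f_mp.Jet

set_option linter.unusedSectionVars false
variable [Pool.Agent.Lib.MP_7f377f_mp.GD]

namespace Pool.Agent.Lib.MP_7f377f_mp.RG.Q4.En.Gl

open Finset Real Sg Br YM7 Filter Topology MeasureTheory

variable {ι : Type} [Fintype ι] [DecidableEq ι] {G : Gl} {J j R : ℕ} {b Δ : ℝ}

/-- the family of separated sources on a large polydisc -/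
theorem Ok.fe4 (h : G.Ok) (hp : G.Pu) (t : G.Tu b J) (hj : j ≤ J) {F : ι → Src (G.N J)}
    (hF : ∀ i x μ ν, ‖symF (F i) x μ ν‖ ≤ 2) (hc : Cls (G.N J) Δ univ id fun i => sup (F i))
    (hΔ : 66 * ((G.L j : ℝ) ^ G.K0 * G.rt J j) ≤ Δ)
    (sz : ∀ i k, j ≤ k → k ≤ J → G.Sz k (10 ^ 38) (10 ^ 38) √(G.g k) (G.tv (symF (F i)) b J k).1
      (G.tv (symF (F i)) b J k).2) (hR : ∀ i, ∃ x, sup (F i) ⊆ tb (G.N J) R {x}) :
    ∃ Y, G.Fd j (G.zz b J j) univ (fun _ => G.Q j) (fun _ => G.Q j) (G.Q j ^ 329)⁻¹ Y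
      (G.fr univ (fun i => symF (F i)) b J j) ∧ Y.bs = (G.zz b J j).d ∧
      (∀ s ∈ Pd fun _ : ι => G.Q j, G.Sz j (G.bb j / G.Q j ^ 225) (G.bb j / G.Q j ^ 225)
        (G.Q j ^ 100)⁻¹ (Y.ψ s) (Y.K s)) ∧
      (∀ i, (Y.Z i).card ≤ (2 * (R / G.rt J j + 4 * G.L j ^ G.K0) + 1) ^ 4) ∧ Y.Ec univ id := by
  have q := h.Q1 j
  have q0 := h.Q0 j
  have hN : 1 + G.Q j * 10 ^ 38 ≤ G.Q j ^ 4 := by
    have := h.cQ j (C := 10 ^ 20) le_rfl
    have := mul_le_mul_of_nonneg_left (mul_le_mul this this (by norm_num) q0.le) q0.le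
    linarith [h.qpw j (show 3 < 4 by norm_num)]
  obtain ⟨e, e1, e2⟩ := h.famJ (r := fun _ => G.Q j) (ω := fun k => √(G.g (k + 1))) t
    (fun k hk => hp _ _ (h.tok_sd (t.gd _ hk).tz)) (fun _ => q0) (fun _ _ => le_rfl) q0.le
    (fun _ _ => symF_out (h.N_odd J)) (fun i _ => hF i) zero_le_two (by
      linarith [h.Q_mono hj, h.Qbb J (i := 1) (by norm_num)]) hc hΔ hj (N := 10 ^ 38) (by norm_num)
    (fun k h1 h2 =>
      ⟨le_trans (mul_le_mul_of_nonneg_right ((pow_le_pow_left₀ (h.Q0 k).le (h.Q_mono k.le_succ) _).trans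
        (pow_le_pow_right₀ (h.Q1 _) (by norm_num))) (sqrt_nonneg _)) (h.Qsg _), by
        refine ((mul_le_mul_of_nonneg_left (hN.trans (pow_le_pow_left₀ q0.le (h.Q_mono h1) _))
          (pow_pos (h.Q0 k) _).le).trans ?_).trans ((h.Qb k).trans (h.sch.le k).1)
        rw [← pow_add]
        exact pow_le_pow_right₀ (h.Q1 k) (by norm_num),
      fun i _ => sz i _ (by omega) h2⟩) j hj le_rfl
  have c := h.zs_cls (C := 3) hc zero_le_three (by linarith) le_rfl hj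
  rw [← fm_Z (A := univ) (F := fun i => symF (F i)) (b := b) hj] at c
  have z := fm_Z (G := G) (A := univ) (F := fun i => symF (F i)) (W := fun i => sup (F i)) (b := b) hj
  have bs := fm_bs (G := G) (A := univ) (F := fun i => symF (F i)) (W := fun i => sup (F i))
    (b := b) j hj
  generalize G.fm univ (fun i => symF (F i)) (fun i => sup (F i)) b J j = Y at *
  refine ⟨Y, e, bs, fun s hs => ⟨?_, ?_⟩, fun i => z ▸ h.zs_card (hR i).choose_spec hj, e2⟩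
  · have b1 : Y.ψ 0 = (G.zz b J j).ψ := congrArg Prod.fst bs
    have g0 := h.g0 j
    have u : 1 + G.Q j * 10 ^ 38 ≤ G.bb j / G.Q j ^ 225 := by
      rw [le_div_iff₀ (by positivity)]
      refine (mul_le_mul_of_nonneg_right hN (by positivity)).trans ?_
      rw [← pow_add]
      exact (pow_le_pow_right₀ q (by norm_num)).trans (h.Qb j)
    have ω : √(G.g j) ≤ (G.Q j ^ 100)⁻¹ := by
      rw [← one_div, le_div_iff₀' (by positivity)]
      exact le_trans (by gcongr; norm_num) (h.Qsg j)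
    refine PM.mono (h.ρ0 j) (e.fi.ml.pm_one (h.ρ0 _) c (mul_pos three_pos (h.D_pos j)) (σ := G.Q j)
      (b1 ▸ (t.gd j hj).dt.sz.1) (fun i hi => (show jL {i} Y.ψ = _ from congrArg Prod.fst
        (e1 i hi)) ▸ (sz i j le_rfl hj).1) (by positivity) (by positivity) (by positivity)
      fun i _ => (hs i).le) u ?_ ?_
    · linarith [mul_le_mul_of_nonneg_left u (pow_pos q0 2).le]
    · have := mul_le_mul ω u (by positivity) (by positivity)
      linarith [mul_le_mul_of_nonneg_left this (show 0 ≤ G.Q j ^ 50 * G.g j ^ 2 by positivity)]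
  · obtain ⟨k, k1, k2⟩ := e.fi.km
    refine ⟨k, k2 s hs, k1.mono ?_⟩
    rw [mul_assoc, div_mul_eq_mul_div, h.bg, one_div, ← mul_inv, ← pow_add]
    exact inv_anti₀ (by positivity) (pow_le_pow_right₀ q (by norm_num))

theorem gen4 : ∃ C : ℝ, 0 ≤ C ∧ ∀ {G : Gl} {J j m : ℕ} [NeZero (G.N J)] [NeZero m]
    {b η : ℝ} {P : Weak.Site 4 m → (Unit → Src (G.N J)) → Prop}, G.Ok → G.Pu → G.Tu b J → j ≤ J →
    2 * G.Bk j ≤ j → G.N j ≤ m * G.Q j ^ 3 → 0 < η → η⁻¹ ≤ G.Q j →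
    (∀ F : _ → Unit → _, (∀ c, P c (F c)) → ∃ Y,
      G.Fd j (G.zz b J j) univ (fun _ => G.Q j) (fun _ => G.Q j) (G.Q j ^ 329)⁻¹ Y
        (G.fr univ (fun i : Weak.Site 4 m × Unit => symF (F i.1 i.2)) b J j) ∧ Y.bs = (G.zz b J j).d ∧
      (∀ s ∈ Pd fun _ => G.Q j, G.Sz j (G.bb j / G.Q j ^ 225) (G.bb j / G.Q j ^ 225)
        (G.Q j ^ 100)⁻¹ (Y.ψ s) (Y.K s)) ∧ (∀ i, ((Y.Z i).card : ℝ) ≤ G.Q j ^ 16) ∧
      Y.Ec univ Prod.fst) → Gen (Fi.tr haar) b (G.al b J j) P η (exp (C * m ^ 4)) := by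
  obtain ⟨C, C0, H⟩ := iv_bd
  refine ⟨2 * C + 2, by positivity, fun {G J j m _ _ b η P} h hp t hj hB hm η0 hη hP F hF => ?_⟩
  obtain ⟨Y, e, bs, sz, cd, ec⟩ := hP F hF
  have tz := (t.gd j hj).tz
  have q := h.Q1 j
  have q0 := h.Q0 j
  have p : ∀ _ : Weak.Site 4 m × Unit, 0 < η⁻¹ := fun _ => inv_pos.2 η0
  have hθ : G.Q j ^ 100 * (G.Q j ^ 329)⁻¹ ≤ 1 := by
    rw [← div_eq_mul_inv, div_le_one (by positivity)]
    exact pow_le_pow_right₀ q (by norm_num)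
  have r := fun s hs => h.iv_ratio C0 (H h t.b0) t hp hj hB hm (d := (Y.ψ s, Y.K s)) (sz s hs)
  rw [← bs] at r
  have d := h.fd_hd tz e
  have I := sh_int PP e.fi.pos (fun U => d.1.choose_spec (pc (G.N j) U))
    fun s hs => (d.2 s hs).comp Fi.meas_pc
  have a : SH (fun _ => G.Q j) (exp ((2 * C + 1) * m ^ 4)) fun s =>
      Y.ir G j (G.zz b J j) s / Y.ir G j (G.zz b J j) 0 :=
    ⟨e.fi.pos, fun s hs i => (I.hol s hs i).div_const _, fun s hs => (r s hs).2⟩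
  have c := e.eq.int PP
  simp only [integral_const_mul] at c
  obtain ⟨e0, y, y1, -, y2⟩ := red_eqv (h.mom_ex hj fun i : _ × Unit => F i.1 i.2) c e.ma
    (r 0 (zero_mem e.fi.pos)).1 (a.shrink p fun _ => hη)
  have f := e.eq.eqv (U := 1) fun _ => rfl
  simp only [h.fd_flat tz e] at f
  have n0 := h.fd_ne tz e hθ (zero_mem e.fi.pos)
  obtain ⟨g, g1, g2⟩ := gen_abs (M' := exp 1) e0 (fun T i hi j hj k => by
    rw [ce, if_neg (ne_empty_of_mem hi), ec T (subset_univ T) i hi j hj k]) y2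
    (mom_eqv (h.mom_al t.b0 hj fun i : _ × Unit => F i.1 i.2) f e.ma) y1
    ⟨_, ((h.fd_ratio tz e hθ univ).1.shrink p fun _ => hη).congr fun s _ => by
      simp only [show cutS univ s = s by ext; simp [cutS]]⟩ fun c => by
      refine ⟨_, ((h.fd_ratio tz e hθ {(c, ())}).2.shrink p fun _ => hη).mono ?_, fun s hs => ?_⟩
      · rw [exp_le_exp, singleton_biUnion, mul_right_comm, ← div_eq_mul_inv, div_le_one (by positivity)]
        linarith [cd (c, ()), h.qpw j (show 16 < 329 by norm_num), pow_pos q0 16]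
      · have := h.fd_ne tz e hθ (cut_mem (B := {(c, ())}) fun i => (hs i).trans_le hη)
        rw [show YM7.ct c s = cutS {(c, ())} s by ext ⟨x, u⟩; simp [YM7.ct, cutS]]
        field_simp
  refine ⟨g, g1.mono ?_, g2⟩
  rw [← exp_nat_mul, ← exp_add, exp_le_exp]
  simp only [Fintype.card_pi, ZMod.card, prod_const, card_univ, Fintype.card_fin, Nat.cast_pow]
  linarith

variable {β : ℕ × ℕ → ℝ}

theorem Oks.poly4 (h : G.Oks) (hβ : G.Tus β) (T : ∀ p, (G.wm p.1).Tv (β p) p.2) (Φ : Filter ℕ) :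
    Poly4 (Fi.tr haar) (Φ ×ˢ atTop) G.nn G.aa β fun p => 4 * ta p := by
  obtain ⟨C, C0, H⟩ := gen4
  refine ⟨C, C0, fun η η0 => ((h 0).1.ex_lev4 (((h 0).1.ev_L η⁻¹).and (h 0).1.ev_B)).mono
    fun e ⟨j, ⟨j0, jB⟩, j1, j2, j3⟩ => ?_⟩
  change e ≤ G.e j at j1
  change 1100 * G.Q j ≤ 3 ^ (G.e j - e) at j2
  change 3 ^ (G.e j - e) ≤ G.Q j ^ 3 at j3
  have δ0 : (0 : ℝ) < (3 ^ e)⁻¹ / 32 := by positivity
  filter_upwards [tendsto_snd.eventually_ge_atTop (j + 3)] with p hp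
  obtain ⟨o, pu⟩ := h p.1
  have hj : j ≤ p.2 := by omega
  have a0 := G.aa_pos p
  have τ1 := ta_le (p := p) (by omega) p.2
  rw [Nat.sub_self, pow_zero, one_mul] at τ1
  have τ0 : 0 ≤ 4 * ta p := by unfold ta; positivity
  have hn : (G.wm p.1).N j = (2 * p.1 + 1) * 3 ^ e * 3 ^ (G.e j - e) := by
    rw [mul_assoc, ← pow_add, Nat.add_sub_cancel' j1]; rfl
  have hn' : G.nn p = (2 * p.1 + 1) * 3 ^ e * ((G.wm p.1).rt p.2 j * 3 ^ (G.e j - e)) := by
    rw [nn, ← o.rt_N hj, hn, mul_left_comm]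
  have hl : G.aa p * ((G.wm p.1).rt p.2 j * 3 ^ (G.e j - e) : ℕ) = (3 ^ e)⁻¹ := by
    have := G.aa_nn p
    rw [hn'] at this
    push_cast at this ⊢
    refine eq_inv_of_mul_eq_one_left (mul_left_cancel₀ (by positivity : (2 * p.1 + 1 : ℝ) ≠ 0) ?_)
    linarith
  have q : 1 ≤ G.Q j := o.Q1 j
  have K : (G.L j : ℝ) ^ G.K0 ≤ G.Q j :=
    pow_le_pow_right₀ (by linarith [show (1000 : ℝ) ≤ G.L j from o.L1 j]) (by
      have : 120 * (G.K0 + 1) ≤ G.K := o.K0_le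
      omega)
  have x0 := mul_pos (Ok.rt_pos (G := G.wm p.1) p.2 j) a0
  refine ⟨_, _, inferInstance, (odd_two_mul_add_one _).mul (odd3 e), dvd_mul_left _ _, hn', hl, _,
    o.al_inv (hβ p).b0 hj (by rw [o.N_div hj]; exact dvd_mul_right _ _),
    H o pu (hβ p) hj (by change 160 * (G.wm p.1).Bk j ≤ j at jB; omega) (by
      rw [hn, Nat.cast_mul]
      exact mul_le_mul_of_nonneg_left (by exact_mod_cast j3) (Nat.cast_nonneg _)) η0
      (j0.trans (o.LQ j)) fun F hF => ?_⟩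
  have := o.fe4 pu (hβ p) hj (F := fun q : _ × Unit => F q.1 q.2)
    (fun q x μ ν => (nrm_le ((hF q.1).1 q.2).1 x μ ν).trans (by linarith))
    (fun q _ q' _ u => sep_cell hn' a0 ((hF q.1).1 q.2).2 ((hF q'.1).1 q'.2).2
      fun v => u (Prod.ext v rfl)) ?_ (fun q k hk' hk =>
      let ⟨_, g1, g2, _, g3⟩ := nrm_lip ((hF q.1).1 q.2).1
      o.tv_sz (hβ p) (T p) g1 (by positivity) g2 g3 le_rfl hk (ta_le (by omega) k) ?_)
    fun q => ⟨_, sup_cell (o.N_odd _) a0 δ0.le ((hF q.1).1 q.2).2⟩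
  · rw [Nat.mul_div_cancel_left _ (Nat.cast_pos.1 (Ok.rt_pos _ _))] at this
    refine this.imp fun Y y => ⟨y.1, y.2.1, y.2.2.1, fun i => (Nat.cast_le.2 (y.2.2.2.1 i)).trans ?_,
      fun T hT q hq q' hq' u => y.2.2.2.2 T hT q hq q' hq' fun v => u (congrArg _ v)⟩
    push_cast
    rw [show 16 = 4 * 4 from rfl, pow_mul]
    refine pow_le_pow_left₀ (by positivity) ?_ 4
    change 2 * (_ + 4 * (G.L j : ℝ) ^ G.K0) + 1 ≤ G.Q j ^ 4
    linarith [show 1000 * G.Q j ^ 3 ≤ G.Q j ^ 4 from o.qpw j (by norm_num),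
      le_self_pow₀ q (show 3 ≠ 0 by norm_num)]
  · rw [le_div_iff₀ a0, ← hl]
    push_cast
    change 66 * ((G.L j : ℝ) ^ G.K0 * _) * _ ≤ _
    linarith [mul_le_mul_of_nonneg_left j2 x0.le, mul_le_mul_of_nonneg_left K x0.le,
      mul_pos x0 (pow_pos (three_pos (α := ℝ)) (G.e j - e))]
  · have a := mul_le_mul_of_nonneg_right (o.Q_rt_mono hk' hk)
      (show 0 ≤ 4 * (G.aa p * 3 ^ e) by positivity)
    have c := congrArg (· * (3 : ℝ) ^ e) hl
    simp only [inv_mul_cancel₀ (show (3 : ℝ) ^ e ≠ 0 by positivity), Nat.cast_mul, Nat.cast_pow,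
      Nat.cast_ofNat] at c
    change _ ≤ G.Q j * _ * _ at a
    linarith [mul_le_mul_of_nonneg_left j2 (mul_pos x0 (pow_pos three_pos e)).le,
      mul_pos (show 0 < G.Q j from o.Q0 j) (mul_pos x0 (pow_pos three_pos e))]

end Pool.Agent.Lib.MP_7f377f_mp.RG.Q4.En.Gl
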