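import Pool.Agent.Lib.MP_7f377f_mp.G.RoDef

/-! Norm bounds for the vectors of monomials. -/

noncomputable section

namespace Pool.Agent.Lib.MP_7f377f_mp.Ro
variable [Pool.Agent.Lib.MP_7f377f_mp.GD]
set_option linter.unusedSectionVars false

open Filter Topology Set Real YM7 Pur MvPolynomial
open scoped NNReal

set_option linter.unusedSectionVars false

variable {W : Pol →ₗ[ℂ] ℂ} {H : Type} [NormedAddCommGroup H] [InnerProductSpace ℂ H]
  [CompleteSpace H] {r : net.Rep W 0 H} {k : ℕ} {Z Z' : Pol}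

namespace RoB

omit [CompleteSpace H] in
theorem ext (r : net.Rep W 0 H) {x y : H}
    (h : ∀ Y ∈ net.loc (Hs 0 0), inner ℂ (r.Ψ Y) x = inner ℂ (r.Ψ Y) y) : x = y :=
  ext_inner_left ℂ fun v => r.dense.induction_on (p := fun v => inner ℂ v x = inner ℂ v y) v
    (isClosed_eq (by fun_prop) (by fun_prop)) fun Y => h Y Y.2

theorem neg_side {Y : Pol} (hY : Y ∈ net.loc (Hs 0 0)) : net.Θ 0 Y ∈ net.loc (Hs 0 0)ᶜ :=
  net.mono (net.Θ_mem 0 hY) fun y e e' => by
    simp only [Hs, mem_ofPred_eq, rf_self] at e e'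
    linarith

end RoB

open RoB

theorem slot (hS : net.St W) (hL : LinP W) (r : net.Rep W 0 H) {O : Set R4} {I : Type} (s : Finset I)
    {g : I → R4 → ℝ} (hg : ∀ z, PN.Gd O (g z)) (c : I → ℝ) (hO : O ⊆ Hs 0 0)
    (hZ : Z ∈ net.loc (Hs 0 0 ∩ Oᶜ)) :
    r.Ψ (X (∑ z ∈ s, c z • g z) * Z) = ∑ z ∈ s, (c z : ℂ) • r.Ψ (X (g z) * Z) := by
  have _ := hS
  have m : ∀ {u}, PN.Gd O u → X u * Z ∈ net.loc (Hs 0 0) := fun hu =>
    net.mono (net.mul hu.mem hZ (disjoint_compl_right.mono_right inter_subset_right))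
      (union_subset hO inter_subset_left)
  refine ext r fun Y hY => ?_
  have m' : net.Θ 0 Y * Z ∈ net.loc Oᶜ :=
    net.mono (net.mul (neg_side hY) hZ (disjoint_compl_left.mono_right inter_subset_left))
      (union_subset (compl_subset_compl.2 hO) inter_subset_right)
  rw [r.inn hY (m (PN.Gd.sum s hg c)), mul_left_comm, PN.one_slot hL s hg c m', inner_sum]
  refine Finset.sum_congr rfl fun z _ => ?_
  rw [inner_smul_right, r.inn hY (m (hg z)), mul_left_comm (net.Θ 0 Y)]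

theorem bd (hQ : Lg.Qual W) (r : net.Rep W 0 H) (k : ℕ) (R : ℝ) {δ : ℝ} (δ0 : 0 < δ) :
    ∃ C ≥ 0, ∀ (f : Fin k → R4 → ℝ) (L : Fin k → ℝ≥0), Adm f →
      (∀ i, LipschitzWith (L i) (f i) ∧ ∀ y ∈ tsupport (f i), ‖y‖ ≤ R ∧ δ ≤ y 0) →
      (∀ i j, i ≠ j → ∀ x ∈ tsupport (f i), ∀ y ∈ tsupport (f j), δ ≤ dist x y) →
      ‖r.Ψ (mon f)‖ ≤ C * ∏ i, L i := by
  obtain ⟨C, hC⟩ := hQ (k + k) R δ δ0
  refine ⟨√|C|, sqrt_nonneg _, fun f L hf h1 h2 => ?_⟩
  have iso : Isometry (rf 0) := rfL_eq 0 ▸ (rfL 0).isometry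
  have p : ∀ i y, f i y ≠ 0 → ‖y‖ ≤ R ∧ δ ≤ y 0 := fun i y hy => (h1 i).2 y (subset_tsupport _ hy)
  have x1 : ∀ i j x y, f i (rf 0 x) ≠ 0 → f j y ≠ 0 → δ ≤ dist x y := fun i j x y hx hy => by
    have a := (p i _ hx).2
    have b := (p j _ hy).2
    have c := PiLp.dist_apply_le x y 0
    rw [rf_self] at a
    rw [Real.dist_eq] at c
    linarith [neg_abs_le (x 0 - y 0)]
  have e1 : Adm (Fin.append (fun i y => f i (rf 0 y)) f) :=
    (adm_rf hf 0).append hf fun i j => disjoint_left.2 fun y hy hy' => by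
      have e := ((h1 i).2 _ (tsupport_comp iso.continuous hy)).2
      have e' := ((h1 j).2 _ hy').2
      rw [rf_self] at e
      linarith
  have := hC _ (Fin.append L L) e1 (fun i => ?_) fun i j hij x y => ?_
  · rw [mon_append, ← Θ_mon] at this
    have h3 := r.nq (mon_mem hf fun i y hy => δ0.trans_le ((h1 i).2 y hy).2)
    refine le_of_sq_le_sq ?_ (by positivity)
    rw [← h3, mul_pow, sq_sqrt (abs_nonneg C)]
    refine ((Complex.re_le_norm _).trans this).trans ?_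
    simp only [Fin.prod_univ_add, Fin.append_left, Fin.append_right, ← sq]
    push_cast
    gcongr
    exact le_abs_self C
  · induction i using Fin.addCases with
    | left i =>
      simp only [Fin.append_left]
      refine ⟨mul_one (L i) ▸ (h1 i).1.comp iso.lipschitz, fun y hy => ?_⟩
      have := (p i _ hy).1
      rwa [← rfL_eq, LinearIsometryEquiv.norm_map] at this
    | right i =>
      simp only [Fin.append_right]
      exact ⟨(h1 i).1, fun y hy => (p i y hy).1⟩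
  · induction i using Fin.addCases with
    | left i =>
      induction j using Fin.addCases with
      | left j =>
        simp only [Fin.append_left]
        intro hx hy
        rw [← iso.dist_eq]
        exact h2 i j (fun e => hij (by rw [e])) _ (subset_tsupport _ hx) _ (subset_tsupport _ hy)
      | right j =>
        simp only [Fin.append_left, Fin.append_right]
        exact x1 i j x y
    | right i =>
      induction j using Fin.addCases with
      | left j =>
        simp only [Fin.append_left, Fin.append_right]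
        exact fun hx hy => dist_comm x y ▸ x1 j i y x hy hx
      | right j =>
        simp only [Fin.append_right]
        exact fun hx hy =>
          h2 i j (fun e => hij (by rw [e])) _ (subset_tsupport _ hx) _ (subset_tsupport _ hy)

theorem near (hS : net.St W) (hL : LinP W) (hQ : Lg.Qual W) (r : net.Rep W 0 H) (k : ℕ) (R : ℝ)
    {δ : ℝ} (δ0 : 0 < δ) (L : ℝ≥0) : ∃ C ≥ 0, ∀ (f g : Fin k → R4 → ℝ) (O : Fin k → Set R4)
      (ε : ℝ≥0), ε ≤ 1 → (∀ i, PN.Gd (O i) (f i) ∧ PN.Gd (O i) (g i) ∧ LipschitzWith L (g i) ∧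
        LipschitzWith ε (f i - g i)) → (∀ i, ∀ y ∈ O i, ‖y‖ ≤ R ∧ δ ≤ y 0) →
      (∀ i j, i ≠ j → ∀ x ∈ O i, ∀ y ∈ O j, δ ≤ dist x y) →
      ‖r.Ψ (mon f) - r.Ψ (mon g)‖ ≤ C * ε := by
  have _ := hS
  obtain ⟨C, C0, H⟩ := bd hQ r k R δ0
  refine ⟨∑ _z : Fin k → Bool, C * (L + 1) ^ k, by positivity, fun f g O ε ε1 h1 h2 h3 => ?_⟩
  have o1 : Pairwise fun i j => Disjoint (O i) (O j) := fun i j hij => disjoint_left.2
    fun y hy hy' => (h3 i j hij y hy y hy').not_gt ((dist_self y).trans_lt δ0)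
  have o2 : ∀ i, O i ⊆ Hs 0 0 := fun i y hy => δ0.trans_le (h2 i y hy).2
  have o3 : ∀ {u : Fin k → R4 → ℝ}, (∀ i, PN.Gd (O i) (u i)) → Adm u := fun hu =>
    ⟨fun i => ⟨(hu i).1, (hu i).2.1⟩, fun i j hij => (o1 hij).mono (hu i).2.2 (hu j).2.2⟩
  have o4 : ∀ {u : Fin k → R4 → ℝ}, (∀ i, PN.Gd (O i) (u i)) → mon u ∈ net.loc (Hs 0 0) :=
    fun hu => mon_mem (o3 hu) fun i => (hu i).2.2.trans (o2 i)
  obtain ⟨G, hG⟩ : ∃ G : Fin k → Bool → R4 → ℝ, ∀ i z, G i z = bif z then f i - g i else g i :=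
    ⟨_, fun _ _ => rfl⟩
  have g1 : ∀ i z, PN.Gd (O i) (G i z) := fun i z => by
    cases z
    · exact hG i _ ▸ (h1 i).2.1
    · simpa only [hG, cond_true, neg_smul, one_smul, sub_eq_add_neg] using
        (h1 i).1.comb (h1 i).2.1 (-1)
  have q1 : r.Ψ (mon f) - r.Ψ (mon g) =
      ∑ z ∈ Finset.univ.erase fun _ => false, r.Ψ (mon fun i => G i (z i)) := by
    refine ext r fun Y hY => ?_
    have := hL.sum o1 g1 (fun _ _ => 1) _
      (net.mono (neg_side hY) (compl_subset_compl.2 (iUnion_subset o2)))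
    rw [← Finset.add_sum_erase _ _ (Finset.mem_univ fun _ => false)] at this
    simp only [one_smul, Fintype.sum_bool, hG _ true, hG _ false, cond_true, cond_false,
      sub_add_cancel, Finset.prod_const_one, Complex.ofReal_one, one_mul] at this
    rw [inner_sub_right, inner_sum, r.inn hY (o4 fun i => (h1 i).1),
      r.inn hY (o4 fun i => (h1 i).2.1), mul_comm, this, mul_comm, add_sub_cancel_left]
    exact Finset.sum_congr rfl fun z _ => by rw [r.inn hY (o4 fun i => g1 i _), mul_comm]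
  rw [q1, Finset.sum_mul]
  refine (norm_sum_le_of_le _ fun z hz => ?_).trans
    (Finset.sum_le_sum_of_subset_of_nonneg (Finset.subset_univ _) fun _ _ _ => by positivity)
  obtain ⟨j, hj⟩ := Function.ne_iff.1 (Finset.ne_of_mem_erase hz)
  refine (H _ (fun i => bif z i then ε else L) (o3 fun i => g1 i _) (fun i => ⟨?_, fun y hy =>
    h2 i y ((g1 i _).2.2 hy)⟩) fun i j hij x hx y hy =>
      h3 i j hij x ((g1 i _).2.2 hx) y ((g1 j _).2.2 hy)).trans ?_
  · rw [hG]
    cases z i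
    · exact (h1 i).2.2.1
    · exact (h1 i).2.2.2
  · have : ∏ i, (bif z i then ε else L) ≤ ∏ i, (L + 1) * if i = j then ε else 1 :=
      Finset.prod_le_prod' fun i _ => by
        split_ifs with e
        · rw [e, eq_true_of_ne_false hj]
          exact le_mul_of_one_le_left' le_add_self
        · rw [mul_one]
          cases z i
          · exact le_self_add
          · exact ε1.trans le_add_self
    rw [Finset.prod_mul_distrib, Finset.prod_ite_eq', if_pos (Finset.mem_univ j),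
      Fin.prod_const] at this
    rw [mul_assoc]
    exact mul_le_mul_of_nonneg_left (by exact_mod_cast this) C0

theorem cont0 (hS : net.St W) (hL : LinP W) (hQ : Lg.Qual W) (r : net.Rep W 0 H)
    (hZ : Z ∈ net.loc (Hs 0 0)) : Tendsto (fun v => r.Ψ (net.τ v Z)) (𝓝 0) (𝓝 (r.Ψ Z)) := by
  obtain ⟨m, c, k, f, f1, f2, rfl⟩ := PN.exists_sum hZ
  simp only [map_sum, map_smul, τ_mon]
  refine tendsto_finsetSum _ fun a _ => Tendsto.const_smul ?_ _
  specialize f1 a
  specialize f2 a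
  generalize f a = f at *
  obtain ⟨D, q, e1, e2, e3⟩ := f1.data
  obtain ⟨s, s0, hs⟩ : ∃ s > 0, ∀ y ∈ ⋃ i, tsupport (f i), s ≤ y 0 :=
    (isCompact_iUnion fun i => (f1.1 i).1).exists_forall_le' (f := fun y : R4 => y 0)
      (by fun_prop) fun y hy => by
        obtain ⟨i, hi⟩ := mem_iUnion.1 hy
        exact f2 i hi
  obtain ⟨δ, δ0, δ1, δ2, δ3⟩ : ∃ δ : ℝ, 0 < δ ∧ δ ≤ 1 ∧ δ ≤ 1 / (q + 1 : ℝ) / 3 ∧ δ ≤ s / 2 :=
    ⟨min 1 (min _ _), by positivity, min_le_left _ _,
      (min_le_right _ _).trans (min_le_left _ _), (min_le_right _ _).trans (min_le_right _ _)⟩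
  obtain ⟨C, C0, H⟩ := near hS hL hQ r _ (D + 1) δ0 D
  refine Metric.tendsto_nhds.2 fun ε ε0 => ?_
  obtain ⟨η, η0, η1, η2⟩ : ∃ η : ℝ, 0 < η ∧ η ≤ 1 ∧ η ≤ ε / (C + 1) :=
    ⟨min 1 _, by positivity, min_le_left _ _, min_le_right _ _⟩
  filter_upwards [eventually_all.2 fun i => lip_shift (η := ⟨η, η0.le⟩) (f1.1 i).1 (f1.1 i).2 η0,
    Metric.closedBall_mem_nhds 0 δ0] with u hu hu'
  rw [dist_eq_norm]
  refine (H _ f (fun i => {y | ∃ x ∈ tsupport (f i), dist x y ≤ δ}) ⟨η, η0.le⟩ η1 (fun i =>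
    ⟨⟨(f1.1 i).1.comp_homeomorph (Homeomorph.subRight u),
      (f1.1 i).2.comp (contDiff_id.sub contDiff_const), fun y hy =>
        ⟨_, tsupport_comp (θ := fun y => y - u) (by fun_prop) hy, ?_⟩⟩,
      ⟨(f1.1 i).1, (f1.1 i).2, fun y hy => ⟨y, hy, (dist_self y).trans_le δ0.le⟩⟩, (e2 i).1, hu i⟩)
    ?_ ?_).trans_lt ?_
  · rw [dist_eq_norm, sub_sub_cancel_left, norm_neg]
    exact mem_closedBall_zero_iff.1 hu'
  · rintro i y ⟨x, q1, q2⟩
    have a := hs x (mem_iUnion.2 ⟨i, q1⟩)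
    have b := PiLp.dist_apply_le x y 0
    rw [Real.dist_eq] at b
    refine ⟨?_, by linarith [le_abs_self (x 0 - y 0)]⟩
    rw [dist_comm, dist_eq_norm] at q2
    linarith [e1 i x q1, norm_sub_norm_le y x]
  · rintro i j hij x ⟨x', q1, q2⟩ y ⟨y', q3, q4⟩
    linarith [e3 i j hij x' q1 y' q3, dist_triangle4_right x' y' x y]
  · rw [le_div_iff₀ (by positivity)] at η2
    change C * η < ε
    linarith

end Pool.Agent.Lib.MP_7f377f_mp.Ro
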