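import Pool.Agent.Lib.MP_7f377f_mp.G.ThA
import Pool.Agent.Lib.MP_7f377f_mp.G.LgQB
import Pool.Agent.Lib.MP_7f377f_mp.G.RoB

/-! Small array bounds give the operator bound for thin boxes. -/

noncomputable section

namespace Pool.Agent.Lib.MP_7f377f_mp.Th
variable [Pool.Agent.Lib.MP_7f377f_mp.GD]
set_option linter.unusedSectionVars false

open Filter Topology Set Real YM7 Pur MvPolynomial
open scoped NNReal

/-- array bounds give operator bounds on a quadrant -/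
theorem col_of_arr {P : Type} [CommRing P] [Algebra ℂ P] {N : Net P} {S : P →ₗ[ℂ] ℂ} (hS : N.St S)
    {w η : ℝ} (hw : 0 < w) (hη : 0 ≤ η) (a : (Fin 4 → ℤ) → P)
    (a0 : a 0 ∈ N.loc {y | ∀ l, 0 < y l ∧ y l < w})
    (hΘ : ∀ μ c, N.Θ μ (a c) = a (Function.update c μ (-c μ - 1)))
    (hτ : ∀ μ c, N.τ (ax μ (2 * w)) (a c) = a (c + Pi.single μ 2))
    (hb : ∀ lo hi : Fin 4 → ℤ, ‖S (∏ c ∈ cells lo hi, a c)‖ ≤ η ^ (cells lo hi).card)
    {μ ν : Fin 4} (hν : μ ≠ ν) {H : Type} [NormedAddCommGroup H] [InnerProductSpace ℂ H]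
    (r : N.Rep S μ H) {b : P} (h : b ∈ N.loc (Hs μ 0 ∩ Hs ν 0)) :
    ‖r.Ψ (N.τ (ax ν (-w)) (a 0) * N.τ (ax μ w) b)‖ ≤ η * ‖r.Ψ b‖ := by
  obtain ⟨g, hg⟩ : ∃ g : ℤ → ℤ → P, ∀ i k, g i k = a (Pi.single μ i + Pi.single ν k) :=
    ⟨_, fun _ _ => rfl⟩
  have g1 : ∀ i k, N.Θ μ (g i k) = g (-i - 1) k := fun i k => by
    rw [hg, hg, hΘ]
    congr 1
    funext l
    by_cases e : l = μ <;> simp [e, hν]
  have g2 : ∀ i k, N.Θ ν (g i k) = g i (-k - 1) := fun i k => by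
    rw [hg, hg, hΘ]
    congr 1
    funext l
    by_cases e : l = ν <;> simp [e, hν.symm]
  have g3 : ∀ (s : ℕ) i k, N.τ (ax μ (s * (2 * w))) (g i k) = g (i + 2 * s) k := fun s i k => by
    induction s with
    | zero => simp [N.τ_zero]
    | succ s ih =>
      rw [Nat.cast_succ, add_one_mul, add_comm, ← ax_add, ← N.τ_τ, ih, hg, hg, hτ, add_right_comm,
        ← Pi.single_add]
      congr 3
      push_cast
      ring
  have g4 : ∀ i k, N.τ (ax ν (2 * w)) (g i k) = g i (k + 2) := fun i k => by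
    rw [hg, hg, hτ, add_assoc, ← Pi.single_add]
  obtain ⟨C, hC⟩ : ∃ C : ℕ → P, ∀ m : ℕ, C m = N.τ (ax μ ((m - 1) * w) + ax ν (-w))
    (∏ i ∈ Finset.range m, g (-i) 0) := ⟨_, fun _ => rfl⟩
  have c1 : ∀ s : ℕ, C (s + 1 + (s + 1)) =
      N.τ (ax μ ((s + 1 : ℕ) * w)) (N.Θ μ (C (s + 1)) * C (s + 1)) := fun s => by
    have e : N.τ (ax μ (s * (2 * w))) (∏ i ∈ Finset.range (s + 1), g (-(s + 1 + i : ℕ)) 0) =
        N.Θ μ (∏ i ∈ Finset.range (s + 1), g (-i) 0) := by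
      rw [map_prod, map_prod, ← Finset.prod_range_reflect]
      refine Finset.prod_congr rfl fun i hi => ?_
      rw [g3, g1]
      congr 1
      have := Finset.mem_range.1 hi
      omega
    rw [hC, hC, Finset.prod_range_add, map_mul, map_mul, N.Θ_τ, ← e, N.τ_τ, N.τ_τ, N.τ_τ, mul_comm,
      rf_add, rf_ax, rf_ax_ne hν.symm]
    congr 1 <;> refine congrArg (fun v => N.τ v _) ?_ <;> ext l <;>
      simp only [PiLp.add_apply, PiLp.single_apply] <;> push_cast <;> split_ifs <;> ring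
  have c2 : C 1 = N.τ (ax ν (-w)) (a 0) := by simp [hC, hg]
  have key := r.col hS hν hη (col := fun j => C (2 ^ j)) (n := fun j => (2 ^ j : ℕ) * w)
    (fun j => by positivity) (fun j => by push_cast; ring) ?_ (fun j => ?_) (fun j => ?_) h
  · simpa only [pow_zero, c2, Nat.cast_one, one_mul] using key
  · simp only [pow_zero, c2, Nat.cast_one, one_mul]
    refine N.mono (N.τ_mem _ a0) fun y e => ?_
    have e1 := e μ
    have e2 := (e ν).2
    simp only [PiLp.sub_apply, PiLp.single_apply, if_neg hν, sub_zero, if_true] at e1 e2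
    exact ⟨e1.1, e1.2, by linarith⟩
  · obtain ⟨s, hs⟩ : ∃ s, 2 ^ j = s + 1 := Nat.exists_eq_add_one_of_ne_zero (by positivity)
    simp only [pow_succ, mul_two, hs, c1]
  · obtain ⟨lo, hi, h1, h2⟩ := cells_two (P := P) hν (2 ^ j)
    refine ⟨-(ax μ (((2 ^ j : ℕ) - 1) * w) + ax ν (-w)), ?_⟩
    rw [pow_succ, ← h1]
    refine le_trans (le_of_eq (congrArg (‖S ·‖) ?_)) (hb lo hi)
    simp only [h2, ← hg]
    rw [hC, map_mul, N.Θ_τ, N.τ_τ, N.τ_τ, neg_add_cancel, N.τ_zero, rf_add, rf_ax, rf_ax_ne hν,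
      show -(ax μ (((2 ^ j : ℕ) - 1) * w) + ax ν (-w)) + (ax μ (((2 ^ j : ℕ) - 1) * w) +
        ax ν (- -w)) = ax ν (2 * w) by
        ext l
        simp only [PiLp.add_apply, PiLp.neg_apply, PiLp.single_apply]
        split_ifs <;> ring]
    simp only [map_prod, g2, g4]
    rfl

theorem sum_bump {η : ℝ} (hη : 0 < η) {D : Fin 4 → ℕ} {y : R4} (h : ∀ l, |y l| ≤ η * D l) :
    ∑ z : ∀ l, Fin (2 * D l + 1), bumpS η (fun l => z l - D l) y = 1 := by
  simp only [bumpS]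
  rw [← Fintype.prod_sum fun (l : Fin 4) (j : Fin (2 * D l + 1)) =>
    hatS (y l / η - (((j : ℤ) - D l : ℤ) : ℝ))]
  refine Finset.prod_eq_one fun l _ => ?_
  have := sum_bumpS hη (D := D l) (y := dg (y l)) fun _ => h l
  simp only [bumpS, dg_apply] at this
  rw [← Fintype.prod_sum fun (_ : Fin 4) (j : Fin (2 * D l + 1)) =>
    hatS (y l / η - (((j : ℤ) - D l : ℤ) : ℝ)), Finset.prod_const] at this
  refine (pow_eq_one_iff_of_nonneg (Finset.sum_nonneg fun j _ => ?_) (by simp)).1 this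
  exact sub_nonneg.2 (smoothTransition.monotone (by linarith))

variable {S : ∀ {k : ℕ}, (Fin k → R4 → ℝ) → ℝ} {W : Pol →ₗ[ℂ] ℂ} {H : Type} [NormedAddCommGroup H]
  [InnerProductSpace ℂ H]

theorem τ_X (v : R4) (f : R4 → ℝ) : net.τ v (X f) = X fun y => f (y - v) := rename_X _ _

theorem piece (hS : net.St W) (h : ∀ {k} {f : Fin k → R4 → ℝ}, Adm f → W (mon f) = S f)
    (r : net.Rep W 0 H) {γ η R : ℝ} {L : ℝ≥0} (γ0 : 0 ≤ γ) (η0 : 0 < η)
    (hA : ∀ (k : ℕ) (c : Fin k → Fin 4 → ℤ) (f : Fin k → R4 → ℝ), Adm f → c.Injective →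
      (∀ i, LipschitzWith L (f i) ∧ ∀ y, |f i y| ≤ 1 ∧ (f i y ≠ 0 →
        ∀ l, |y l - (c i l + 1 / 2) * (48 * η)| ≤ η)) → |S f| ≤ γ ^ k)
    {g : R4 → ℝ} {x : R4} (g1 : ContDiff ℝ 1 g) (g2 : LipschitzWith L g) (g3 : ∀ y, |g y| ≤ 1)
    (g4 : ∀ y, g y ≠ 0 → ∀ l, |y l - x l| ≤ η) (x0 : |x 0| ≤ η) (x2 : x 2 + 24 * η ≤ R) {b : Pol}
    (hb : b ∈ net.loc (Hs 0 0 ∩ Hs 2 R)) :
    ‖r.Ψ (net.τ (ax 0 (25 * η)) (X g * net.τ (ax 0 (25 * η)) b))‖ ≤ γ * ‖r.Ψ b‖ := by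
  have w0 : 0 < 48 * η := by positivity
  rw [abs_le] at x0
  obtain ⟨G, hG⟩ : ∃ G : (Fin 4 → ℤ) → R4 → ℝ, ∀ c, G c =
    fun y => g (fo (48 * η) c y - (dg (24 * η) - x)) := ⟨_, fun _ => rfl⟩
  have G1 : ∀ c y, G c y ≠ 0 → ∀ l, |y l - (c l + 1 / 2) * (48 * η)| ≤ η := fun c y hy l => by
    have := abs_le.1 (g4 _ (hG c ▸ hy :) l)
    rw [abs_le]
    by_cases e : Even (c l) <;> simp only [fo, e, if_true, if_false, PiLp.sub_apply, dg_apply]
      at this <;> constructor <;> linarith [this.1, this.2]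
  have G2 : ∀ c y, G c y ≠ 0 → ∀ l, c l * (48 * η) + η ≤ y l ∧ y l ≤ (c l + 1) * (48 * η) - η :=
    fun c y hy l => by
      have := abs_le.1 (G1 c y hy l)
      constructor <;> linarith [this.1, this.2]
  have G3 : ∀ c, ContDiff ℝ 1 (G c) := fun c =>
    hG c ▸ g1.comp ((fo_smooth _ c).sub contDiff_const)
  have a0 : (X (G 0) : Pol) ∈ net.loc {y | ∀ l, 0 < y l ∧ y l < 48 * η} :=
    PN.Gd.mem ⟨cpt_box (G2 0), G3 0, fun y hy l => by
      have := tsupp_box (G2 0) hy l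
      simp only [Pi.zero_apply, Int.cast_zero] at this
      constructor <;> linarith [this.1, this.2]⟩
  obtain ⟨s, hs⟩ : ∃ s : R4, s = ax 0 (-(23 * η)) - ax 2 (48 * η) + (dg (24 * η) - x) := ⟨_, rfl⟩
  have s0 : 0 ≤ s 0 := by simp [hs]; linarith
  have b0 := net.mono hb inter_subset_left
  have b1 : net.τ s b ∈ net.loc (Hs 0 0 ∩ Hs 2 0) := net.mono (net.τ_mem s hb) fun y hy => by
    obtain ⟨e1, e2⟩ : 0 < y 0 - s 0 ∧ R < y 2 - s 2 := hy
    have : s 2 = -(48 * η) + (24 * η - x 2) := by simp [hs]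
    exact ⟨show 0 < y 0 by linarith, show 0 < y 2 by linarith⟩
  have key := col_of_arr hS w0 γ0 (fun c => X (G c)) a0 (fun μ c => ?_) (fun μ c => ?_)
    (fun lo hi => ?_) (μ := 0) (ν := 2) (by decide) r b1
  · have e : net.τ (ax 0 (25 * η)) (X g * net.τ (ax 0 (25 * η)) b) =
        net.τ (ax 0 (25 * η) + ax 2 (48 * η) - (dg (24 * η) - x))
          (net.τ (ax 2 (-(48 * η))) (X (G 0)) * net.τ (ax 0 (48 * η)) (net.τ s b)) := by
      simp only [map_mul, net.τ_τ, τ_X, hG, fo_zero]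
      refine congrArg₂ (· * ·) (congrArg X (funext fun y => congrArg g ?_))
        (congrArg (fun v => net.τ v b) ?_) <;> ext l <;>
        simp only [hs, PiLp.add_apply, PiLp.sub_apply, PiLp.single_apply] <;> split_ifs <;> ring
    rw [e]
    refine (r.le (by simp; linarith) ?_).trans
      (key.trans (mul_le_mul_of_nonneg_left (r.le s0 b0) γ0))
    refine net.mono (net.mul (net.τ_mem _ a0) (Net.τ_hs (v := ax 0 (48 * η)) (t' := 48 * η)
      (net.mono b1 inter_subset_left) (by simp)) (disjoint_left.2 fun y e e' => ?_))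
      (union_subset (fun y e => ?_) fun _ e => w0.trans e)
    · exact (show y 0 < 48 * η by simpa using (e 0).2).not_gt e'
    · simpa [Hs] using (e 0).1
  · simpa only [mon, Fin.prod_univ_one, hG, fo_rf] using Θ_mon μ fun _ : Fin 1 => G c
  · simp only [τ_X, hG, fo_ax]
  · let ψ := (cells lo hi).equivFin.symm
    have e1 : Function.Injective fun j => (ψ j).1 := Subtype.val_injective.comp ψ.injective
    have e2 := adm_cells (F := fun j => G (ψ j)) w0 η0 (fun j => G3 _) e1 fun j => G2 _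
    rw [← Finset.prod_coe_sort, ← ψ.prod_comp]
    refine (congrArg _ (h e2)).trans_le ?_
    rw [Complex.norm_real]
    refine hA _ _ _ e2 e1 fun j => ⟨.of_dist_le_mul fun y y' => ?_, fun y => ⟨hG _ ▸ g3 _, G1 _ y⟩⟩
    rw [hG]
    refine (g2.dist_le_mul _ _).trans (mul_le_mul_of_nonneg_left ?_ L.coe_nonneg)
    simpa using (fo_lip _ _).dist_le_mul y y'

theorem thinQ_of (hS : net.St W) (hL : LinP W)
    (h : ∀ {k} {f : Fin k → R4 → ℝ}, Adm f → W (mon f) = S f) (hA : ArrT S) : Ro.ThinQ W := by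
  obtain ⟨H, _, _, _, ⟨r⟩⟩ := hS.exists_rep 0
  obtain ⟨K, hK⟩ := Lg.LgQB.bmp_lip
  have K0 := K.coe_nonneg
  refine ⟨25, by norm_num, fun e => (3 ^ e)⁻¹ / 32, tendsto_nhdsWithin_iff.2 ⟨?_,
    .of_forall fun e => by simp⟩, fun R => ⟨|R| + 1, fun ε ε0 => ?_⟩⟩
  · simpa using (tendsto_pow_atTop_atTop_of_one_lt
      (show (1 : ℝ) < 3 by norm_num)).inv_tendsto_atTop.div_const 32
  have R0 := abs_nonneg R
  obtain ⟨γ, γ0, hγ⟩ : ∃ γ > 0, 288 * (3 + 2 * K) * (2 * |R| + 3) ^ 2 * γ = ε :=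
    ⟨ε / (288 * (3 + 2 * K) * (2 * |R| + 3) ^ 2), by positivity, by field_simp⟩
  refine (hA γ γ0).mono fun e hA u L ⟨u1, u2, u3, u4⟩ b hb => ?_
  have e3 : (1 : ℝ) ≤ 3 ^ e := one_le_pow₀ (by norm_num)
  obtain ⟨η, hη⟩ : ∃ η : ℝ, (3 ^ e)⁻¹ = 32 * η := ⟨(3 ^ e)⁻¹ / 32, by ring⟩
  have η1 : 3 ^ e * (32 * η) = 1 := by rw [← hη]; field_simp
  have η2 : 32 * η ≤ 1 := hη ▸ inv_le_one_of_one_le₀ e3
  have η0 : 0 < η := by have := inv_pos.2 (one_pos.trans_le e3); linarith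
  simp only [hη, show 32 * η / 32 = η by ring, show 3 / 2 * (32 * η) = 48 * η by ring] at hA u4 ⊢
  have L0 := L.coe_nonneg
  have s1 : ∀ y, |u y| ≤ L * (2 * η) := fun y => by
    by_cases e1 : u y = 0
    · rw [e1, abs_zero]; positivity
    have e2 : u (y + ax 0 (2 * η)) = 0 := of_not_not fun e2 => by
      have a1 := abs_lt.1 (u4 _ (subset_tsupport _ e1)).1
      have a2 := abs_lt.1 (u4 _ (subset_tsupport _ e2)).1
      simp at a2
      linarith [a1.1, a2.2]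
    have := u3.dist_le_mul y (y + ax 0 (2 * η))
    rwa [e2, Real.dist_0_eq_abs, dist_self_add_right, PiLp.norm_single,
      norm_of_nonneg (by positivity)] at this
  obtain ⟨D, d1, d2⟩ : ∃ D : ℕ, |R| ≤ η * D ∧ η * D ≤ |R| + η := ⟨⌈|R| / η⌉₊,
    (div_le_iff₀' η0).1 (Nat.le_ceil _), by
      have := (Nat.ceil_lt_add_one (div_nonneg R0 η0.le)).le
      rwa [div_add_one η0.ne', le_div_iff₀' η0] at this⟩
  let E : Fin 4 → ℕ := ![1, 1, D, D]
  obtain ⟨Λ, hΛ⟩ : ∃ Λ : ℝ, Λ = 1 + 2 * η + 2 * η * (K * (32 * 3 ^ e : ℕ) : ℝ≥0) := ⟨_, rfl⟩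
  have Λ1 : Λ = 1 + 2 * η + 2 * K := by rw [hΛ]; push_cast; linear_combination 2 * K * η1
  obtain ⟨g, hg⟩ : ∃ g : (∀ l, Fin (2 * E l + 1)) → R4 → ℝ, ∀ z, g z =
    fun y => 3 ^ e * ((Λ * L)⁻¹ * (bumpS η (fun l => z l - E l) y * u y)) := ⟨_, fun _ => rfl⟩
  have g0 : ∀ z y, g z y ≠ 0 → bumpS η (fun l => z l - E l) y ≠ 0 ∧ u y ≠ 0 := fun z y hy =>
    mul_ne_zero_iff.1 (right_ne_zero_of_mul (right_ne_zero_of_mul (hg z ▸ hy :)))
  have g1 : ∀ z, ContDiff ℝ 1 (g z) := fun z =>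
    hg z ▸ contDiff_const.mul (contDiff_const.mul ((bumpS_smooth _ _).mul u2))
  have g3 : (fun y => u (y - ax 0 (25 * η))) =
      ∑ z, (32 * η * (Λ * L)) • fun y => g z (y - ax 0 (25 * η)) := by
    funext y
    simp only [Finset.sum_apply, Pi.smul_apply, hg, smul_eq_mul, ← Finset.mul_sum,
      ← Finset.sum_mul]
    generalize y - ax 0 (25 * η) = y
    by_cases e1 : u y = 0
    · simp [e1]
    have e2 : Λ * L ≠ 0 := mul_ne_zero (by linarith) fun v => e1 (by simpa [v] using s1 y)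
    obtain ⟨a0, a1, a2⟩ := u4 y (subset_tsupport _ e1)
    have a3 := fun l => (PiLp.norm_apply_le y l).trans ((a2.trans (le_abs_self R)).trans d1)
    rw [sum_bump η0 (Fin.forall_fin_succ.2 ⟨by simpa [E] using a0.le, Fin.forall_fin_succ.2
      ⟨by simpa [E] using a1.le, Fin.forall_fin_two.2 ⟨a3 _, a3 _⟩⟩⟩), one_mul, mul_mul_mul_comm,
      mul_inv_cancel_left₀ e2, mul_comm _ (3 ^ e), η1, one_mul]
  have η3 : 0 < 50 * η := by positivity
  have b0 := net.mono hb inter_subset_left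
  have b1 : net.τ (ax 0 (25 * η)) (net.τ (ax 0 (25 * η)) b) ∈ net.loc (Hs 0 (50 * η)) :=
    Net.τ_hs (Net.τ_hs b0 (t' := 25 * η) (by simp)) (by simp; linarith)
  have gd : ∀ v : R4 → ℝ, HasCompactSupport v → ContDiff ℝ 1 v → tsupport v ⊆ tsupport u →
      PN.Gd {y | 0 < y 0 ∧ y 0 < 50 * η} fun y => v (y - ax 0 (25 * η)) := fun v v1 v2 v3 => by
    have := adm_sub (f := fun _ : Fin 1 => v) ⟨fun _ => ⟨v1, v2⟩, Subsingleton.pairwise⟩
      (ax 0 (25 * η))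
    refine ⟨(this.1 0).1, (this.1 0).2, fun y hy => ?_⟩
    have := abs_lt.1 (u4 _ (v3 (tsupport_comp (θ := fun y => y - ax 0 (25 * η)) (by fun_prop) hy))).1
    simp at this
    exact ⟨by linarith [this.1], by linarith [this.2]⟩
  have key := Ro.slot hS hL r Finset.univ (fun z => gd (g z) (u1.mono fun y hy => (g0 z y hy).2)
    (g1 z) (closure_mono fun y hy => (g0 z y hy).2)) (fun _ => 32 * η * (Λ * L)) (fun _ e => e.1)
    (net.mono b1 fun y hy => ⟨η3.trans hy, fun e => e.2.not_gt hy⟩)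
  rw [← g3] at key
  simp only [← τ_X, ← map_mul] at key
  rw [r.nq b0, r.nq (by
    rw [map_mul, τ_X]
    exact net.mono (net.mul (gd u u1 u2 subset_rfl).mem b1 (disjoint_left.2 fun y e e' =>
      e.2.not_gt e')) (union_subset (fun _ e => e.1) fun y hy => η3.trans hy)),
    key, ← mul_pow]
  refine pow_le_pow_left₀ (norm_nonneg _) ((norm_sum_le_of_le _ (n := fun _ =>
    32 * η * (Λ * L) * (γ * ‖r.Ψ b‖)) fun z _ => ?_).trans ?_) 2
  · rw [norm_smul, Complex.norm_real, norm_of_nonneg (by rw [Λ1]; positivity)]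
    refine mul_le_mul_of_nonneg_left (piece hS h r γ0.le η0 hA (g1 z)
      (x := WithLp.toLp 2 fun l => η * ((z l : ℤ) - E l : ℤ)) (.of_dist_le_mul fun y y' => ?_)
      (fun y => ?_) (fun y hy => bumpS_supp η0 (g0 z y hy).1) ?_ ?_ hb) (by rw [Λ1]; positivity)
    · have := (norm_piece (by positivity) (hK η (32 * 3 ^ e) (by push_cast; linarith)
        (fun l => z l - E l) 0) (fun y => abs_bumpS _ _ _) u3 s1).1.dist_le_mul y y'
      simp only [sub_zero, ← hΛ, Real.dist_eq] at this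
      rw [hg, Real.dist_eq, ← mul_sub, abs_mul, abs_of_nonneg (by positivity)]
      push_cast at this ⊢
      exact mul_le_mul_of_nonneg_left (by linarith) (by positivity)
    · have e0 : 0 ≤ Λ * L := by rw [Λ1]; positivity
      simp only [hg]
      rw [mul_left_comm, abs_mul, abs_of_nonneg (inv_nonneg.2 e0), abs_mul, abs_mul,
        abs_of_nonneg (zero_le_one.trans e3)]
      refine inv_mul_le_of_le_mul₀ e0 zero_le_one ((mul_le_mul_of_nonneg_left (mul_le_mul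
        (abs_bumpS _ _ _) (s1 y) (abs_nonneg _) zero_le_one) (by positivity)).trans ?_)
      rw [Λ1, show 3 ^ e * (1 * (L * (2 * η))) = 1 / 16 * L by linear_combination L / 16 * η1]
      nlinarith
    · have : (z 0 : ℕ) < 3 := (z 0).2
      have e : E 0 = 1 := rfl
      have : |(z 0 : ℤ) - E 0| ≤ 1 := abs_le.2 ⟨by omega, by omega⟩
      have : |(((z 0 : ℤ) - E 0 : ℤ) : ℝ)| ≤ 1 := by rw [← Int.cast_abs]; exact_mod_cast this
      rw [abs_mul, abs_of_pos η0]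
      exact mul_le_of_le_one_right η0.le this
    · have : (z 2 : ℕ) < 2 * D + 1 := (z 2).2
      have : (((z 2 : ℤ) - E 2 : ℤ) : ℝ) ≤ D := by
        exact_mod_cast (by simp [E]; omega : (z 2 : ℤ) - E 2 ≤ D)
      have := mul_le_mul_of_nonneg_left this η0.le
      change η * _ + _ ≤ _
      linarith
  · rw [Finset.sum_const, Finset.card_univ, Fintype.card_pi, Fin.prod_univ_four, ← hγ, ← mul_assoc,
      nsmul_eq_mul, ← mul_assoc]
    refine mul_le_mul_of_nonneg_right ((le_div_iff₀ η0).2 ?_) (norm_nonneg _)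
    have e : ((2 * D + 1) * η) ^ 2 ≤ (2 * |R| + 3) ^ 2 :=
      pow_le_pow_left₀ (by positivity) (by linarith) 2
    have := mul_le_mul (show Λ ≤ 3 + 2 * K by linarith) e (by positivity) (by positivity)
    have := mul_le_mul_of_nonneg_left this (show 0 ≤ 288 * γ * L by positivity)
    simp only [Fintype.card_fin, E]
    simp
    linarith

end Pool.Agent.Lib.MP_7f377f_mp.Th
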