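import Pool.Agent.Lib.MP_7f377f_mp.G.Q6Vac
import Pool.Agent.Lib.MP_7f377f_mp.G.S10P5
import Pool.Agent.Lib.MP_7f377f_mp.G.S10L7
import Pool.Agent.Lib.MP_7f377f_mp.G.ThB

/-! The rotation invariant continuum limit. -/

noncomputable section

set_option linter.unusedSectionVars false
variable [Pool.Agent.Lib.MP_7f377f_mp.GD]

namespace Pool.Agent.Lib.MP_7f377f_mp.RG.Q4.En

open YM7 Filter MeasureTheory Topology Real

theorem out_rot [m : MeasurableSpace SU2] [BorelSpace SU2] (h : Measure SU2) [h.IsHaarMeasure]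
    [IsProbabilityMeasure h] : ∃ (n : ℕ → ℕ+) (a b : ℕ → ℝ) (S : Pur.Pol →ₗ[ℂ] ℂ),
      Tendsto a atTop (𝓝[>] 0) ∧ Tendsto (fun j => a j * n j) atTop atTop ∧
      Tendsto (fun j => b j / log (a j)⁻¹) atTop (𝓝 (11 * GD.b0 / (48 * π ^ 2))) ∧
      (∀ Z ∈ Loc Set.univ, Tendsto (fun j => vev h (b j) (n j) (a j) Z) atTop (𝓝 (S Z))) ∧
      Lg.Inp S ∧ Lg.Rot S ∧ (∀ g, Ro.Inv S g) ∧ ∃ S₀ : ∀ {k : ℕ}, (Fin k → R4 → ℝ) → ℝ,
        (∀ {k} {f : Fin k → R4 → ℝ}, Adm f → S (Pur.mon f) = S₀ f) ∧ Lg.ProdS S₀ := by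
  obtain ⟨G, β, o, -, hβ, e⟩ := out_all h
  refine L6.main10 (o.fam hβ) (cellA_of_poly2 (o.fam hβ) (e _).1)
    (fun K => shortA_of (o.fam hβ) ((e _).2 K) ?_) (Lg.polyC_of (o.fam hβ) ?_) (N := G.e)
    (fun _ => rfl) (fun _ => rfl) fun U S₀ S l i =>
      Th.thinQ_of i.st i.lin l.lift (Th.arrT_of (o.fam hβ) ?_ l.le l.cv) <;>
  obtain rfl : m = Fi.mS := BorelSpace.measurable_eq <;>
  have : (Fi.tr haar).IsHaarMeasure := (inferInstance : haar.IsHaarMeasure) <;>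
  obtain rfl := Measure.isHaarMeasure_eq_of_isProbabilityMeasure h (Fi.tr haar)
  · exact o.arr2 hβ _ K
  · exact o.poly3 hβ (fun p _ e => ((o _).1.tan_main (o _).2 (hβ p) e).1.sz) _
  · exact o.poly4 hβ (fun p _ e => ((o _).1.tan_main (o _).2 (hβ p) e).1.sz) _

end Pool.Agent.Lib.MP_7f377f_mp.RG.Q4.En
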