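import Pool.Agent.Lib.MP_7f377f_mp.G.GapC
import Pool.Agent.Lib.MP_7f377f_mp.G.Q6Rot

/-! The rotation invariant continuum limit has a mass gap if the finite size criterion holds. -/

noncomputable section

set_option linter.unusedSectionVars false
variable [Pool.Agent.Lib.MP_7f377f_mp.GD]

namespace Pool.Agent.Lib.MP_7f377f_mp.L6

open MeasureTheory Filter Topology Set Real YM7 Pur Weak MvPolynomial

/-- exponential clustering -/
def Gap (Δ : ℝ) (S : Pol →ₗ[ℂ] ℂ) : Prop := ∀ Y ∈ net.loc (Hs 0 0), ∀ t ≥ 0,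
  (S (net.Θ 0 Y * net.τ (ax 0 t) Y)).re - ‖S Y‖ ^ 2 ≤ exp (-Δ * t) * net.nq S 0 Y

theorem Gap.rep {Δ : ℝ} {S : Pol →ₗ[ℂ] ℂ} (hG : Gap Δ S) {H : Type} [NormedAddCommGroup H]
    [InnerProductSpace ℂ H] (r : net.Rep S 0 H) {t : ℝ} (ht : 0 ≤ t) (x : H) :
    (inner ℂ x (r.T (ax 0 t) x)).re - ‖inner ℂ (r.Ψ 1) x‖ ^ 2 ≤ exp (-Δ * t) * ‖x‖ ^ 2 := by
  refine r.dense.induction_on x (isClosed_le (by fun_prop) (by fun_prop)) fun Y => ?_
  have e : net.Θ 0 1 = 1 := map_one _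
  have := hG Y Y.2 t ht
  rw [r.act (by simpa) Y.2, r.inn Y.2 (Net.τ_hs Y.2 (by simpa)), r.inn (net.one _) Y.2, e, one_mul,
    @norm_sq_eq_re_inner ℂ H, r.inn Y.2 Y.2]
  exact this

theorem Gap.vac {Δ : ℝ} {S : Pol →ₗ[ℂ] ℂ} (hG : Gap Δ S) (Δ0 : 0 < Δ) (hS : net.St S) :
    Lg.Vac S := by
  intro H _ _ _ r x hx
  have e : net.Θ 0 1 = 1 := map_one _
  have o1 : inner ℂ ((r 0).Ψ 1) ((r 0).Ψ 1) = 1 := by
    rw [(r 0).inn (net.one _) (net.one _), e, one_mul, hS.one]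
  have o2 : (r 0).T (ax 0 1) ((r 0).Ψ 1) = (r 0).Ψ 1 := by
    rw [(r 0).act (by simp) (net.one _), map_one]
  have := hG.rep (r 0) zero_le_one (x - inner ℂ ((r 0).Ψ 1) x • (r 0).Ψ 1)
  rw [map_sub, map_smul, o2, hx _ (by simp), inner_sub_right ((r 0).Ψ 1), inner_smul_right, o1,
    mul_one, sub_self, norm_zero, ← RCLike.re_to_complex, ← norm_sq_eq_re_inner] at this
  have h1 : exp (-Δ * 1) < 1 := exp_lt_one_iff.2 (by linarith)
  rw [← sub_eq_zero, ← norm_eq_zero, ← sq_eq_zero_iff]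
  nlinarith [sq_nonneg ‖x - inner ℂ ((r 0).Ψ 1) x • (r 0).Ψ 1‖]

theorem gap_lift {Δ : ℝ} {S₀ : ∀ {k : ℕ}, (Fin k → R4 → ℝ) → ℝ} {S : Pol →ₗ[ℂ] ℂ}
    (e : ∀ {k} {f : Fin k → R4 → ℝ}, Adm f → S (mon f) = S₀ f)
    (H : ∀ (m : ℕ) (c : Fin m → ℝ) (k : Fin m → ℕ) (f : ∀ a, Fin (k a) → R4 → ℝ), (∀ a, Adm (f a)) →
      (∀ a i, ∀ y ∈ tsupport (f a i), 0 < y 0) → ∀ s ≥ 0,
      gram S₀ c f s - (∑ u, c u * S₀ (f u)) ^ 2 ≤ exp (-Δ * s) * gram S₀ c f 0) : Gap Δ S := by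
  intro Y hY t ht
  obtain ⟨m, c, k, f, f1, f2, rfl⟩ := PN.exists_sum hY
  have a1 : ∀ t ≥ 0, (S (net.Θ 0 (∑ a, c a • mon (f a)) * net.τ (ax 0 t) (∑ a, c a • mon (f a)))).re
      = gram S₀ (fun u => (c u).re) f t + gram S₀ (fun u => (c u).im) f t := fun t ht => by
    have a2 : ∀ u u', S (net.Θ 0 (mon (f u)) * net.τ (ax 0 t) (mon (f u'))) = S₀ (Fin.append
        (fun i => theta (f u i)) fun i y => f u' i (y - EuclideanSpace.single 0 t)) := fun u u' => by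
      rw [Θ_mon, τ_mon, ← mon_append]
      refine e ((adm_rf (f1 u) 0).append (adm_sub (f1 u') _) fun i j => disjoint_left.2
        fun y hy hy' => ?_)
      have e1 := f2 u i (tsupport_comp (rfL_eq 0 ▸ (rfL 0).continuous) hy)
      have e2 := f2 u' j (tsupport_comp (θ := fun y => y - ax 0 t) (by fun_prop) hy')
      simp [Hs] at e1 e2
      linarith
    simp only [map_sum, net.Θ_smul, map_smul, Finset.sum_mul_sum, smul_mul_smul_comm, a2, gram,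
      Complex.re_sum, ← Finset.sum_add_distrib, smul_eq_mul]
    refine Finset.sum_congr rfl fun u _ => Finset.sum_congr rfl fun u' _ => ?_
    simp
    ring
  have a3 := a1 0 le_rfl
  rw [show ax 0 0 = 0 by simp, net.τ_zero] at a3
  have a4 : ‖S (∑ a, c a • mon (f a))‖ ^ 2 =
      (∑ u, (c u).re * S₀ (f u)) ^ 2 + (∑ u, (c u).im * S₀ (f u)) ^ 2 := by
    rw [Complex.sq_norm, Complex.normSq_apply]
    simp [e (f1 _), sq]
  rw [a1 t ht, Net.nq, a3, a4]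
  linarith [H m (fun u => (c u).re) k f f1 f2 t ht, H m (fun u => (c u).im) k f f1 f2 t ht]

variable [MeasurableSpace SU2] [BorelSpace SU2] {h : Measure SU2} [h.IsHaarMeasure]
  [IsProbabilityMeasure h]

theorem main16 {n : ℕ × ℕ → ℕ} [∀ p, NeZero (n p)] {a b τ : ℕ × ℕ → ℝ}
    (hF : Fam (atTop ×ˢ atTop) n a b τ) (hC : CellA h (atTop ×ˢ atTop) n a b τ)
    (hA : ∀ K, ShortA h (atTop ×ˢ atTop) n a b K)
    (hP : Lg.PolyC h (atTop ×ˢ atTop) n a b fun p => 2 * τ p) {N : ℕ → ℕ}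
    (hn : ∀ p, n p = (2 * p.1 + 1) * 3 ^ N p.2) (ha : ∀ p, a p = a (0, p.2))
    (hT : ∀ U S₀ S, Lim h (atTop ×ˢ atTop) n a b U S₀ S → Lg.Inp S → Ro.ThinQ S) :
    ∃ (n : ℕ → ℕ+) (a b : ℕ → ℝ) (S : Pol →ₗ[ℂ] ℂ),
      Tendsto a atTop (𝓝[>] 0) ∧ Tendsto (fun j => a j * n j) atTop atTop ∧
      Tendsto (fun j => b j / log (a j)⁻¹) atTop (𝓝 (11 * GD.b0 / (48 * π ^ 2))) ∧
      (∀ Z ∈ Loc univ, Tendsto (fun j => vev h (b j) (n j) (a j) Z) atTop (𝓝 (S Z))) ∧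
      Lg.Inp S ∧ Lg.Rot S ∧ (∃ S₀ : ∀ {k : ℕ}, (Fin k → R4 → ℝ) → ℝ,
        (∀ {k} {f : Fin k → R4 → ℝ}, Adm f → S (mon f) = S₀ f) ∧ Lg.ProdS S₀) ∧
      ∀ L > 0, (∃ᶠ j in atTop, ∃ t : ℕ, 2 ≤ t ∧ a j * t ≤ L ∧
        Fs.Cr (YM9.Zb h (b j)) t (1 / 10 ^ 6)) → Gap L⁻¹ S := by
  have hB := hC.cell.bd7 hF
  obtain ⟨U, S₀, S, -, -, -, e0, -, -, -, -, e5, e6, e7, e8⟩ := lim10 (Φ := fast)
    ⟨hF.a0.mono_left fast_le, hF.vol.mono_left fast_le, hF.cpl.mono_left fast_le,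
      hF.tau.mono_left fast_le⟩
    (fun k R δ δ0 => (hB k R δ δ0).imp fun _ e => ⟨e.1, e.2.filter_mono fast_le⟩)
    (fun K k hk f hf η η0 => (hA K k hk f hf η η0).mono fun _ => .imp fun _ e =>
      ⟨e.1, e.2.1, fun lo hi => (e.2.2 lo hi).filter_mono fast_le⟩)
    (hP.imp fun _ e => ⟨e.1, e.2.mono fun _ => .filter_mono fast_le⟩) (swapL_of thD hF hn ha)
  have hU := e0.le.trans fast_le
  have e9 := Ro.o4 e5.st e5.lin (Lg.qual_of e5.st e5.lin e5.grow) e6 e7 e8 (hT U S₀ S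
    ⟨hU, e0.cv, fun hf _ e => e0.nr hf (e.filter_mono fast_le), e0.lift⟩ e5)
  have hv : Tendsto (fun p => log (n p) / (a p * n p)) fast (𝓝 0) := fun s hs => by
    refine ev_fast.2 (.of_forall fun J => Eventually.filter_mono hyp_le ?_)
    have t : Tendsto (fun s : ℕ => (n (3 ^ s / 2, J) : ℝ)) atTop atTop :=
      tendsto_natCast_atTop_atTop.comp (tendsto_atTop_mono (fun s => by
        rw [hn, Nat.two_mul_div_two_add_one_of_odd (Odd.pow (by decide))]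
        exact Nat.le_mul_of_pos_right _ (by positivity))
        (tendsto_pow_atTop_atTop_of_one_lt (show 1 < 3 by norm_num)))
    have := (isLittleO_log_id_atTop.tendsto_div_nhds_zero.comp t).div_const (a (0, J))
    rw [zero_div] at this
    filter_upwards [this hs] with s e
    simpa only [mem_preimage, mem_ofPred_eq, ha (_, J), Function.comp, id, div_div,
      mul_comm (a _)] using e
  obtain ⟨p, hp, hq⟩ := exists_seq (U : Filter (ℕ × ℕ)) jet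
    (fun p _ f => corr h (b p) (n p) (a p) f.1) (fun _ f => S₀ f.1) (fun _ f => e0.cv f.2.1)
    (fun I => (hB.equi hF I).imp fun _ => Exists.imp fun _ e => ⟨e.1, e.2.filter_mono hU⟩)
    ((atTop ×ˢ atTop) ⊓ comap (fun p => log (n p) / (a p * n p)) (𝓝 0))
    (le_inf hU (e0.le.trans hv.le_comap))
  rw [tendsto_inf, tendsto_comap_iff] at hp
  have cv : ∀ {k} {f : Fin k → R4 → ℝ}, Adm f →
      Tendsto (fun j => corr h (b (p j)) (n (p j)) (a (p j)) f) atTop (𝓝 (S₀ f)) := fun {k f} hf => by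
    by_cases h0 : ∀ i, (tsupport (f i)).Nonempty
    · obtain ⟨D, q, h1⟩ := hf.data
      exact hq (k, D, q) ⟨f, hf, h0, h1⟩
    · obtain ⟨i, hi⟩ := not_forall.1 h0
      rw [not_nonempty_iff_eq_empty, tsupport_eq_empty_iff] at hi
      have e : ∀ p, corr h (b p) (n p) (a p) f = 0 := fun p => by
        rw [corr_eq, ← gM_apply]
        exact (gM h _ k).map_coord_zero i (by rw [hi]; rfl)
      have := e0.cv hf
      simp only [e] at this ⊢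
      exact tendsto_nhds_unique tendsto_const_nhds this ▸ tendsto_const_nhds
  refine ⟨fun j => ⟨n (p j), NeZero.pos _⟩, a ∘ p, b ∘ p, S, hF.a0.comp hp.1, hF.vol.comp hp.1,
    hF.cpl.comp hp.1, fun Z hZ => ?_, e5, fun R _ k f hf => ?_, ⟨S₀, e0.lift,
      Lg.prodS_of hF hP hU e0.cv⟩, fun L L0 hc => ?_⟩
  · obtain ⟨m, c, k, f, f1, -, rfl⟩ := PN.exists_sum hZ
    simp only [vev_sum, map_sum, map_smul, e0.lift (f1 _), smul_eq_mul]
    exact tendsto_finsetSum _ fun i _ =>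
      ((Complex.continuous_ofReal.tendsto _).comp (cv (f1 i))).const_mul _
  · have := e9 R.symm _ (mon_mem hf fun _ => subset_univ _)
    rwa [Ro.act_mon] at this
  · have := frequently_iff_neBot.1 hc
    have t := hp.1.mono_left (inf_le_left (b := 𝓟 {j | ∃ t : ℕ, 2 ≤ t ∧ (a ∘ p) j * t ≤ L ∧
      Fs.Cr (YM9.Zb h ((b ∘ p) j)) t (1 / 10 ^ 6)}))
    have F : Fam _ (fun j => n (p j)) (a ∘ p) (b ∘ p) (τ ∘ p) :=
      ⟨hF.a0.comp t, hF.vol.comp t, hF.cpl.comp t, hF.tau.comp t⟩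
    have B : Bd7 h _ (fun j => n (p j)) (a ∘ p) (b ∘ p) (τ ∘ p) := fun k R δ δ0 =>
      (hB k R δ δ0).imp fun _ e => ⟨e.1, t.eventually e.2⟩
    refine gap_lift e0.lift fun m c k f f1 f2 s hs => ?_
    rw [neg_mul, inv_mul_eq_div, ← neg_div]
    exact gap_of F (hp.2.mono_left inf_le_left) (fun hf _ hN => by
      simpa using (B.near F hf hN).add ((cv hf).mono_left inf_le_left)) L0
      (mem_inf_of_right (mem_principal_self _)) m c k f f1 f2 s hs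

end Pool.Agent.Lib.MP_7f377f_mp.L6

namespace Pool.Agent.Lib.MP_7f377f_mp.RG.Q4.En

open YM7 Filter MeasureTheory Topology Real

theorem out_gap [m : MeasurableSpace SU2] [BorelSpace SU2] (h : Measure SU2) [h.IsHaarMeasure]
    [IsProbabilityMeasure h] : ∃ (n : ℕ → ℕ+) (a b : ℕ → ℝ) (S : Pur.Pol →ₗ[ℂ] ℂ),
      Tendsto a atTop (𝓝[>] 0) ∧ Tendsto (fun j => a j * n j) atTop atTop ∧
      Tendsto (fun j => b j / log (a j)⁻¹) atTop (𝓝 (11 * GD.b0 / (48 * π ^ 2))) ∧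
      (∀ Z ∈ Loc Set.univ, Tendsto (fun j => vev h (b j) (n j) (a j) Z) atTop (𝓝 (S Z))) ∧
      Lg.Inp S ∧ Lg.Rot S ∧ (∃ S₀ : ∀ {k : ℕ}, (Fin k → R4 → ℝ) → ℝ,
        (∀ {k} {f : Fin k → R4 → ℝ}, Adm f → S (Pur.mon f) = S₀ f) ∧ Lg.ProdS S₀) ∧
      ∀ L > 0, (∃ᶠ j in atTop, ∃ t : ℕ, 2 ≤ t ∧ a j * t ≤ L ∧
        Fs.Cr (YM9.Zb h (b j)) t (1 / 10 ^ 6)) → L6.Gap L⁻¹ S := by
  obtain ⟨G, β, o, -, hβ, e⟩ := out_all h
  refine L6.main16 (o.fam hβ) (cellA_of_poly2 (o.fam hβ) (e _).1)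
    (fun K => shortA_of (o.fam hβ) ((e _).2 K) ?_) (Lg.polyC_of (o.fam hβ) ?_) (N := G.e)
    (fun _ => rfl) (fun _ => rfl) fun U S₀ S l i =>
      Th.thinQ_of i.st i.lin l.lift (Th.arrT_of (o.fam hβ) ?_ l.le l.cv) <;>
  obtain rfl : m = Fi.mS := BorelSpace.measurable_eq <;>
  have : (Fi.tr haar).IsHaarMeasure := (inferInstance : haar.IsHaarMeasure) <;>
  obtain rfl := Measure.isHaarMeasure_eq_of_isProbabilityMeasure h (Fi.tr haar)
  · exact o.arr2 hβ _ K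
  · exact o.poly3 hβ (fun p _ e => ((o _).1.tan_main (o _).2 (hβ p) e).1.sz) _
  · exact o.poly4 hβ (fun p _ e => ((o _).1.tan_main (o _).2 (hβ p) e).1.sz) _

end Pool.Agent.Lib.MP_7f377f_mp.RG.Q4.En
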