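import Pool.Agent.Lib.MP_7f377f_mp.G.WmSpec

/-! Stage 14: spectral measures of unitary groups. -/

noncomputable section

namespace Pool.Agent.Lib.MP_7f377f_mp.Wm
variable [Pool.Agent.Lib.MP_7f377f_mp.GD]
set_option linter.unusedSectionVars false

open MeasureTheory Filter Topology Set Complex YM7 Pur
open scoped FourierTransform Real ComplexOrder

namespace A2

theorem levy {μ : ℕ → Measure R4} (hμ : ∀ n, IsFiniteMeasure (μ n)) {f : R4 → ℂ}
    (hf : ContinuousAt f 0) (h : ∀ t, Tendsto (fun n => charFun (μ n) t) atTop (𝓝 (f t))) :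
    ∃ ν : Measure R4, IsFiniteMeasure ν ∧ ∀ t, charFun ν t = f t := by
  have h0 : Tendsto (fun n => (((μ n).real univ : ℝ) : ℂ)) atTop (𝓝 (f 0)) := by simpa using h 0
  by_cases hz : f 0 = 0
  · refine ⟨0, inferInstance, fun t => ?_⟩
    have h1 := (continuous_re.tendsto _).comp h0
    rw [hz] at h1
    rw [charFun_zero_measure]
    exact (norm_le_zero_iff.1 (le_of_tendsto_of_tendsto' (h t).norm h1 fun n =>
      norm_charFun_le t)).symm
  let m : ℕ → FiniteMeasure R4 := fun n => ⟨μ n, hμ n⟩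
  let P : ℕ → ProbabilityMeasure R4 := fun n => (m n).normalize
  have e : ∀ n t, charFun (μ n) t = (((μ n).real univ : ℝ) : ℂ) * charFun (P n : Measure R4) t := by
    intro n t
    have := congrArg (fun ν : FiniteMeasure R4 => charFun (ν : Measure R4) t)
      (m n).self_eq_mass_smul_normalize
    refine this.trans ?_
    simp only [FiniteMeasure.toMeasure_smul, charFun_apply, integral_smul_nnreal_measure]
    rfl
  have hP : ∀ t, Tendsto (fun n => charFun (P n : Measure R4) t) atTop (𝓝 (f t / f 0)) := by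
    intro t
    refine ((h t).div h0 hz).congr' ?_
    filter_upwards [h0.eventually_ne hz] with n hn
    simp only [Pi.div_apply, e n t, mul_div_cancel_left₀ _ hn]
  have ht := isTightMeasureSet_of_tendsto_charFun (μ := fun n => (P n : Measure R4))
    (hf.div_const _) hP
  have hc : IsCompact (closure (range P)) := isCompact_closure_of_isTightMeasureSet (by
    refine ht.subset ?_
    rintro _ ⟨_, ⟨n, rfl⟩, rfl⟩
    exact ⟨n, rfl⟩)
  obtain ⟨ν, -, hν : Tendsto _ _ _⟩ := hc.ultrafilter_le_nhds ((Ultrafilter.of atTop).map P)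
    (.trans (by simp) (monotone_principal subset_closure))
  rw [ProbabilityMeasure.tendsto_iff_forall_integral_rclike_tendsto ℂ] at hν
  have hr : ((f 0).re.toNNReal : ℂ) = f 0 := by
    have h1 : 0 ≤ f 0 := ge_of_tendsto' h0 fun n => by
      exact_mod_cast measureReal_nonneg
    rw [Real.coe_toNNReal _ (nonneg_iff.1 h1).1]
    exact Complex.ext rfl (nonneg_iff.1 h1).2
  refine ⟨(f 0).re.toNNReal • (ν : Measure R4), inferInstance, fun t => ?_⟩
  have h2 : charFun (ν : Measure R4) t = f t / f 0 := by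
    refine tendsto_nhds_unique ?_ ((hP t).mono_left (Ultrafilter.of_le atTop))
    simp only [charFun_eq_integral_innerProbChar]
    exact hν _
  rw [charFun_apply, integral_smul_nnreal_measure, ← charFun_apply, h2, NNReal.smul_def,
    real_smul, hr, mul_div_cancel₀ _ hz]

theorem step {F : R4 → ℂ} (hc : Continuous F) (hi : Integrable F) (hp : ∀ ξ, 0 ≤ 𝓕 F ξ) :
    ∃ ν : Measure R4, IsFiniteMeasure ν ∧ ∀ t, charFun ν t = F ((2 * π)⁻¹ • t) := by
  have cF : Continuous (𝓕 F) :=
    VectorFourier.fourierIntegral_continuous Real.continuous_fourierChar continuous_inner hi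
  have bF : ∀ ξ, ‖𝓕 F ξ‖ ≤ ∫ v, ‖F v‖ := fun ξ =>
    VectorFourier.norm_fourierIntegral_le_integral_norm 𝐞 _ (innerₗ R4) F ξ
  let ρ : ℝ → R4 → ℝ := fun c ξ => (𝓕 F ξ).re * rexp (-c⁻¹ * ‖ξ‖ ^ 2)
  have cρ : ∀ c, Continuous (ρ c) := fun c => by fun_prop
  have pρ : ∀ c ξ, 0 ≤ ρ c ξ := fun c ξ => mul_nonneg (nonneg_iff.1 (hp ξ)).1 (Real.exp_pos _).le
  have eρ : ∀ c ξ, (ρ c ξ : ℂ) = 𝓕 F ξ * cexp (-c⁻¹ * ‖ξ‖ ^ 2) := fun c ξ => by
    simp only [ρ]
    push_cast
    congr 1
    exact Complex.ext rfl (nonneg_iff.1 (hp ξ)).2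
  have J : ∀ c : ℝ, 0 < c → ∀ v : R4,
      Integrable fun w : R4 => cexp (-c⁻¹ * ‖w‖ ^ 2 + 2 * π * I * inner ℝ v w) := fun c hc v =>
    GaussianFourier.integrable_cexp_neg_mul_sq_norm_add (by simpa) _ _
  have iρ : ∀ c : ℝ, 0 < c → Integrable (ρ c) := fun c hc => by
    have := ((J c hc 0).bdd_mul cF.aestronglyMeasurable (Eventually.of_forall bF)).re
    refine this.congr (Eventually.of_forall fun ξ => ?_)
    simp only [inner_zero_left, ofReal_zero, mul_zero, add_zero, ← eρ]
    rfl
  refine levy (μ := fun n => volume.withDensity fun ξ => ENNReal.ofReal (ρ (n + 1) ξ))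
    (fun n => isFiniteMeasure_withDensity_ofReal (iρ _ (by positivity)).2) (by fun_prop) fun t => ?_
  have h1 := (Real.tendsto_integral_gaussian_smul' hi
    (hc.continuousAt (x := (2 * π)⁻¹ • t))).comp
    (tendsto_atTop_add_const_right _ 1 tendsto_natCast_atTop_atTop)
  refine h1.congr fun n => ?_
  simp only [Function.comp_apply]
  have hn : (0 : ℝ) < n + 1 := by positivity
  generalize (n + 1 : ℝ) = c at hn
  set v := (2 * π)⁻¹ • t with hv
  have h2 := VectorFourier.integral_fourierIntegral_smul_eq_flip (L := innerₗ R4)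
    Real.continuous_fourierChar continuous_inner (J c hn v) hi
  rw [charFun_apply, integral_withDensity_eq_integral_toReal_smul
    (cρ c).measurable.ennreal_ofReal (by simp)]
  have h3 : ∫ w : R4, 𝓕 (fun w : R4 => cexp (-c⁻¹ * ‖w‖ ^ 2 + 2 * π * I * inner ℝ v w)) w • F w =
      ∫ w : R4, cexp (-c⁻¹ * ‖w‖ ^ 2 + 2 * π * I * inner ℝ v w) • 𝓕 F w := by simpa using! h2
  refine Eq.trans (Eq.symm ?_) (h3.trans ?_)
  · congr with w
    rw [fourier_gaussian_innerProductSpace' (by simpa)]
    congr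
    · simp
    · simp; ring
  · congr with w
    rw [ENNReal.toReal_ofReal (pρ c w), real_smul, eρ, smul_eq_mul, exp_add, hv,
      real_inner_smul_left, real_inner_comm]
    have : (2 * π * I * ((2 * π)⁻¹ * inner ℝ w t : ℝ) : ℂ) = inner ℝ w t * I := by
      have := Real.pi_ne_zero
      push_cast
      field_simp
    rw [this]
    ring

variable {H : Type} [NormedAddCommGroup H] [InnerProductSpace ℂ H] [CompleteSpace H]
  {U : R4 → H →L[ℂ] H}

omit [CompleteSpace H] in
theorem inn (h : Grp U) (a b : R4) (x : H) :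
    inner ℂ (U a x) (U (a + b) x) = inner ℂ x (U b x) := by
  rw [h.adj, ← mul_apply_eq_comp, ← h.mul, neg_add_cancel_left]

omit [CompleteSpace H] in
theorem nrm (h : Grp U) (a : R4) (x : H) : ‖U a x‖ = ‖x‖ := by
  have := inn h a 0 x
  rw [add_zero, h.zero, one_apply_eq_self, inner_self_eq_norm_sq_to_K,
    inner_self_eq_norm_sq_to_K] at this
  exact (pow_left_inj₀ (norm_nonneg _) (norm_nonneg _) two_ne_zero).1 (by exact_mod_cast this)

omit [CompleteSpace H] in
theorem bd (h : Grp U) (a : R4) (x : H) : ‖inner ℂ x (U a x)‖ ≤ ‖x‖ * ‖x‖ :=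
  (norm_inner_le_norm _ _).trans_eq (by rw [nrm h])

omit [CompleteSpace H] in
theorem tw (h : Grp U) (p : R4) : Grp fun a => cexp (inner ℝ a p * I) • U a where
  zero := by simp [h.zero]
  mul a b := by
    rw [h.mul, inner_add_left, smul_mul_smul_comm, ← exp_add]
    push_cast
    rw [add_mul]
  adj a x y := by
    simp only [smul_apply, inner_smul_left, inner_smul_right, h.adj,
      ← exp_conj, map_mul, conj_ofReal, conj_I, inner_neg_left]
    push_cast
    rw [mul_neg, neg_mul]
  cont x := by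
    have := h.cont x
    simp only [smul_apply]
    fun_prop

theorem gi {ε : ℝ} (hε : 0 < ε) : Integrable fun w : R4 => cexp (-ε * ‖w‖ ^ 2) := by
  simpa using GaussianFourier.integrable_cexp_neg_mul_sq_norm_add (V := R4) (b := ε) hε 0 0

theorem pos (h : Grp U) (x : H) {ε : ℝ} (hε : 0 < ε) :
    0 ≤ ∫ w : R4, cexp (-ε * ‖w‖ ^ 2) * inner ℂ x (U w x) := by
  let g : R4 → ℂ := fun b => cexp (-(2 * ε : ℝ) * ‖b‖ ^ 2)
  have hg : Integrable g := gi (by positivity)
  have cφ : Continuous fun w => inner ℂ x (U w x) := continuous_const.inner (h.cont x)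
  have hv : Integrable fun b => g b • U b x :=
    hg.smul_bdd _ (h.cont x).aestronglyMeasurable (Eventually.of_forall fun b => (nrm h b x).le)
  have hi : Integrable (fun z : R4 × R4 => g z.1 * g (z.1 + z.2) * inner ℂ x (U z.2 x))
      (volume.prod volume) :=
    ((measurePreserving_prod_add volume volume).integrable_comp_of_integrable
      (hg.mul_prod hg)).mul_bdd (cφ.comp continuous_snd).aestronglyMeasurable
        (Eventually.of_forall fun z => bd h _ _)
  set v := ∫ b, g b • U b x with hvv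
  have e1 : inner ℂ v v = ∫ b, inner ℂ (g b • U b x) v := by
    rw [← inner_conj_symm]
    conv_lhs => rw [hvv, ← integral_inner hv, ← integral_conj]
    simp only [inner_conj_symm]
    rfl
  have e2 : ∀ b, inner ℂ (g b • U b x) v = ∫ w, g b * g (b + w) * inner ℂ x (U w x) := by
    intro b
    rw [hvv, ← integral_inner hv, ← integral_add_left_eq_self _ b]
    congr with w
    rw [inner_smul_left, inner_smul_right, inn h, mul_assoc]
    congr 1
    simp only [g, ← exp_conj, map_mul, map_neg, map_pow, conj_ofReal]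
  have e3 : ∀ w : R4, ∫ b, g b * g (b + w) =
      ((π / (4 * ε)) ^ 2 : ℝ) * cexp (-ε * ‖w‖ ^ 2) := by
    intro w
    have := GaussianFourier.integral_cexp_neg_mul_sq_norm_add (V := R4) (b := (4 * ε : ℝ))
      (by simpa) (-(4 * ε : ℝ)) w
    have e4 : ∀ b : R4, g b * g (b + w) = cexp (-(4 * ε : ℝ) * ‖b‖ ^ 2 +
        -(4 * ε : ℝ) * inner ℝ w b) * cexp (-(2 * ε) * ‖w‖ ^ 2) := by
      intro b
      have := norm_add_sq_real b w
      simp only [g, ← exp_add, ← ofReal_pow, this, real_inner_comm]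
      push_cast
      ring_nf
    simp only [e4]
    rw [integral_mul_const, this, mul_assoc, ← exp_add]
    have hε' : (ε : ℂ) ≠ 0 := ofReal_ne_zero.2 hε.ne'
    congr 1
    · rw [finrank_euclideanSpace_fin, show ((4 : ℕ) / 2 : ℂ) = (2 : ℕ) by norm_num, cpow_natCast]
      push_cast
      rfl
    · congr 1
      push_cast
      field_simp
      ring
  have e5 : inner ℂ v v = ((π / (4 * ε)) ^ 2 : ℝ) *
      ∫ w : R4, cexp (-ε * ‖w‖ ^ 2) * inner ℂ x (U w x) := by
    rw [e1, ← integral_const_mul]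
    simp only [e2]
    rw [integral_integral_swap hi]
    simp only [integral_mul_const, e3]
    simp only [mul_assoc]
  have hk : (0 : ℝ) < (π / (4 * ε)) ^ 2 := by
    have := Real.pi_pos
    positivity
  rw [← inv_mul_eq_iff_eq_mul₀ (ofReal_ne_zero.2 hk.ne'), inner_self_eq_norm_sq_to_K] at e5
  rw [← e5]
  refine mul_nonneg ?_ (pow_nonneg (zero_le_real.2 (norm_nonneg v)) 2)
  rw [← ofReal_inv]
  exact zero_le_real.2 (inv_nonneg.2 hk.le)

end A2

open A2

theorem sA2_of : S_A2 := by
  intro H _ _ _ U h x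
  have cφ : Continuous fun w => inner ℂ x (U w x) := continuous_const.inner (h.cont x)
  have h1 : ∀ n : ℕ, ∃ ν : Measure R4, IsFiniteMeasure ν ∧ ∀ t, charFun ν t =
      cexp (-(1 / (n + 1) : ℝ) * ‖(2 * π)⁻¹ • t‖ ^ 2) * inner ℂ x (U ((2 * π)⁻¹ • t) x) := by
    intro n
    have hn : (0 : ℝ) < 1 / (n + 1) := by positivity
    refine step (F := fun w => cexp (-(1 / (n + 1) : ℝ) * ‖w‖ ^ 2) * inner ℂ x (U w x))
      (by fun_prop) ((gi hn).mul_bdd cφ.aestronglyMeasurable
        (Eventually.of_forall fun z => bd h _ _)) fun ξ => ?_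
    refine (pos (tw h (-(2 * π) • ξ)) x hn).trans_eq ?_
    rw [Real.fourier_eq']
    congr with w
    simp only [smul_apply, inner_smul_right, smul_eq_mul]
    push_cast
    ring_nf
  choose μ hμ hc using h1
  obtain ⟨ν, hν, e⟩ := levy hμ (f := fun t => inner ℂ x (U ((2 * π)⁻¹ • t) x))
    (cφ.comp (continuous_const_smul _)).continuousAt fun t => by
      simp only [hc]
      have := ((tendsto_one_div_add_atTop_nhds_zero_nat (𝕜 := ℝ)).ofReal.neg.mul_const
        ((‖(2 * π)⁻¹ • t‖ : ℂ) ^ 2)).cexp.mul_const (inner ℂ x (U ((2 * π)⁻¹ • t) x))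
      simpa using this
  have cL : Continuous fun p : R4 => -(2 * π) • rf 0 p := by
    unfold rf
    fun_prop
  refine ⟨ν.map fun p => -(2 * π) • rf 0 p, inferInstance, fun a => ?_⟩
  rw [integral_map cL.aemeasurable (Continuous.aestronglyMeasurable (by unfold mink; fun_prop))]
  have := e ((2 * π) • a)
  simp only [smul_smul, inv_mul_cancel₀ Real.two_pi_pos.ne', one_smul] at this
  rw [← this, charFun_apply]
  congr with p
  rw [mul_comm]
  congr 3
  simp [mink, rf, PiLp.inner_apply, Fin.sum_univ_four]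
  ring

end Pool.Agent.Lib.MP_7f377f_mp.Wm
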