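import Pool.Agent.Lib.MP_7f377f_mp.G.WmSpec

/-! Stage 14: the spectral measure is carried by the forward cone. -/

noncomputable section

namespace Pool.Agent.Lib.MP_7f377f_mp.Wm
variable [Pool.Agent.Lib.MP_7f377f_mp.GD]
set_option linter.unusedSectionVars false

open MeasureTheory Filter Topology Set Complex YM7 Pur

namespace A3

theorem int_gauss : Integrable (fun u : ℝ => Real.exp (-u ^ 2)) volume :=
  (integrable_exp_neg_mul_sq one_pos).congr (.of_forall fun u => by simp)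

theorem rect {h : ℂ → ℂ} {c C : ℝ} (hc0 : 0 ≤ c) (hc : ContinuousOn h {s | 0 ≤ s.im ∧ s.im ≤ c})
    (hd : DifferentiableOn ℂ h {s | 0 < s.im ∧ s.im < c})
    (hb : ∀ s : ℂ, 0 ≤ s.im → s.im ≤ c → ‖h s‖ ≤ C * Real.exp (-s.re ^ 2)) :
    ∫ u : ℝ, h u = ∫ u : ℝ, h (u + c * I) := by
  have hi : ∀ y : ℝ, 0 ≤ y → y ≤ c → Integrable fun u : ℝ => h (u + y * I) := fun y h0 h1 => by
    refine (int_gauss.const_mul C).mono' (Continuous.aestronglyMeasurable
      (hc.comp_continuous (by fun_prop) fun u => by simp [h0, h1])) (.of_forall fun u => ?_)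
    simpa using hb (u + y * I) (by simp [h0]) (by simp [h1])
  have hv : ∀ T : ℝ, ‖∫ y : ℝ in (0 : ℝ)..c, h (T + y * I)‖ ≤ C * Real.exp (-T ^ 2) * |c - 0| :=
    fun T => intervalIntegral.norm_integral_le_of_norm_le_const fun y hy => by
      rw [uIoc_of_le hc0] at hy
      simpa using hb (T + y * I) (by simp [hy.1.le]) (by simp [hy.2])
  have h0 : Tendsto (fun T : ℝ => C * Real.exp (-T ^ 2) * |c - 0|) atTop (𝓝 0) := by
    have := ((Real.tendsto_exp_atBot.comp (tendsto_neg_atTop_atBot.comp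
      (tendsto_pow_atTop (n := 2) two_ne_zero))).const_mul C).mul_const |c - 0|
    simpa using this
  have t1 : Tendsto (fun T : ℝ => ∫ y : ℝ in (0 : ℝ)..c, h (T + y * I)) atTop (𝓝 0) :=
    squeeze_zero_norm hv h0
  have t2 : Tendsto (fun T : ℝ => ∫ y : ℝ in (0 : ℝ)..c, h (((-T : ℝ) : ℂ) + y * I)) atTop (𝓝 0) :=
    squeeze_zero_norm (fun T => by simpa using hv (-T)) h0
  have t3 := intervalIntegral_tendsto_integral (hi 0 le_rfl hc0) tendsto_neg_atTop_atBot tendsto_id
  have t4 := intervalIntegral_tendsto_integral (hi c hc0 le_rfl) tendsto_neg_atTop_atBot tendsto_id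
  have t5 := ((t3.sub t4).add (t1.const_smul I)).sub (t2.const_smul I)
  have e : ∀ T : ℝ, (∫ u in -T..id T, h (u + (0 : ℝ) * I)) - (∫ u in -T..id T, h (u + c * I)) +
      I • (∫ y : ℝ in (0 : ℝ)..c, h (T + y * I)) -
      I • ∫ y : ℝ in (0 : ℝ)..c, h (((-T : ℝ) : ℂ) + y * I) = 0 := fun T => by
    have := integral_boundary_rect_eq_zero_of_continuousOn_of_differentiableOn h ⟨-T, 0⟩ ⟨T, c⟩
      (hc.mono fun s hs => by simpa [uIcc_of_le hc0] using hs.2)
      (hd.mono fun s hs => by simpa [hc0] using hs.2)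
    exact this
  simp only [e] at t5
  have := tendsto_nhds_unique t5 tendsto_const_nhds
  simpa [sub_eq_zero] using this

variable {Y : Type} [MeasurableSpace Y] {μ : Measure Y} [SFinite μ] {l : Y → ℝ} {w : Y → ℂ}
  {G : ℂ → ℂ} {y M : ℝ}

theorem gauss (hl : Measurable l) (hw : Integrable w μ) (hy : 0 ≤ y)
    (hc : ContinuousOn G {s | 0 ≤ s.im ∧ s.im ≤ y})
    (hd : DifferentiableOn ℂ G {s | 0 < s.im ∧ s.im < y})
    (hM : ∀ s : ℂ, 0 ≤ s.im → s.im ≤ y → ‖G s‖ ≤ M)
    (hG : ∀ s : ℝ, G s = ∫ p, exp (I * s * l p) * w p ∂μ) {r : ℝ} (hr : 0 < r) :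
    ∫ u : ℝ, G (r * u + y * I) * exp (-u ^ 2) =
      (√Real.pi : ℝ) * ∫ p, (Real.exp (-y * l p - r ^ 2 * l p ^ 2 / 4) : ℝ) * w p ∂μ := by
  obtain ⟨c, rfl⟩ : ∃ c, y = r * c := ⟨y / r, by field_simp⟩
  have hc0 : 0 ≤ c := (mul_nonneg_iff_of_pos_left hr).1 hy
  have hn : ∀ s : ℂ, 0 ≤ s.im → s.im ≤ c →
      ‖exp (-(s - c * I) ^ 2)‖ ≤ Real.exp (c ^ 2) * Real.exp (-s.re ^ 2) := fun s h0 h1 => by
    rw [norm_exp, ← Real.exp_add]
    refine Real.exp_le_exp.2 ?_
    simp only [sq, neg_re, mul_re, sub_re, sub_im, ofReal_re, ofReal_im, I_re, I_im, mul_im]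
    nlinarith
  have h1 := rect (h := fun s => G (r * s) * exp (-(s - c * I) ^ 2)) (C := M * Real.exp (c ^ 2)) hc0
    ((hc.comp (by fun_prop) fun s hs => by
      simpa using ⟨mul_nonneg hr.le hs.1, mul_le_mul_of_nonneg_left hs.2 hr.le⟩).mul (by fun_prop))
    ((hd.comp (by fun_prop) fun s hs => by
      simpa using ⟨mul_pos hr hs.1, mul_lt_mul_of_pos_left hs.2 hr⟩).mul (by fun_prop))
    fun s h0 h1 => by
      have := hM (r * s) (by simpa using mul_nonneg hr.le h0)
        (by simpa using mul_le_mul_of_nonneg_left h1 hr.le)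
      rw [norm_mul, mul_assoc]
      exact mul_le_mul this (hn s h0 h1) (norm_nonneg _) ((norm_nonneg _).trans this)
  have h2 : ∀ u : ℝ, G (r * u) * exp (-(u - c * I) ^ 2) =
      ∫ p, exp (I * (r * u : ℝ) * l p) * w p * exp (-(u - c * I) ^ 2) ∂μ := fun u => by
    rw [integral_mul_const, ← hG, ofReal_mul]
  have h3 : Integrable (Function.uncurry fun (u : ℝ) (p : Y) =>
      exp (I * (r * u : ℝ) * l p) * w p * exp (-(u - c * I) ^ 2)) (volume.prod μ) := by
    refine ((int_gauss.const_mul (Real.exp (c ^ 2))).mul_prod hw.norm).mono' ?_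
      (.of_forall fun q => ?_)
    · exact ((Measurable.aestronglyMeasurable (by fun_prop)).mul hw.1.comp_snd).mul
        (Measurable.aestronglyMeasurable (by fun_prop))
    · have e : ‖exp (I * (r * q.1 : ℝ) * l q.2)‖ = 1 := by
        rw [norm_exp]; simp
      simp only [Function.uncurry, norm_mul, e, one_mul]
      rw [mul_comm]
      exact mul_le_mul_of_nonneg_right (hn q.1 (by simp) (by simpa using hc0)) (norm_nonneg _)
  have h4 : ∀ p, ∫ u : ℝ, exp (I * (r * u : ℝ) * l p) * w p * exp (-(u - c * I) ^ 2) =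
      (√Real.pi : ℝ) * ((Real.exp (-(r * c) * l p - r ^ 2 * l p ^ 2 / 4) : ℝ) * w p) := fun p => by
    have := integral_cexp_quadratic (b := -1) (by simp) (I * (2 * c + r * l p)) (c ^ 2)
    have e : ∀ u : ℝ, exp (I * (r * u : ℝ) * l p) * w p * exp (-(u - c * I) ^ 2) =
        exp (-1 * u ^ 2 + I * (2 * c + r * l p) * u + c ^ 2) * w p := fun u => by
      rw [mul_right_comm, ← Complex.exp_add]
      congr 2
      push_cast
      linear_combination (-(c : ℂ) ^ 2) * I_sq
    simp only [e]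
    rw [integral_mul_const, this, mul_assoc, Real.sqrt_eq_rpow, ofReal_cpow Real.pi_pos.le,
      ofReal_exp]
    congr 2
    · simp
    · simp
    · congr 1
      push_cast
      linear_combination ((2 * c + r * l p : ℂ) ^ 2 / 4) * I_sq
  simp only [h2, add_sub_cancel_right] at h1
  rw [integral_integral_swap h3] at h1
  simp only [h4, integral_const_mul] at h1
  rw [h1]
  congr 1
  funext u
  congr 2
  push_cast
  ring

theorem val (hl : Measurable l) (hw : Integrable w μ) (hy : 0 ≤ y)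
    (hc : ContinuousOn G {s | 0 ≤ s.im ∧ s.im ≤ y})
    (hd : DifferentiableOn ℂ G {s | 0 < s.im ∧ s.im < y})
    (hM : ∀ s : ℂ, 0 ≤ s.im → s.im ≤ y → ‖G s‖ ≤ M)
    (hG : ∀ s : ℝ, G s = ∫ p, exp (I * s * l p) * w p ∂μ) (h0 : ∀ᵐ p ∂μ, 0 ≤ l p) :
    G (y * I) = ∫ p, (Real.exp (-y * l p) : ℝ) * w p ∂μ := by
  have c1 : ∀ u : ℝ, Continuous fun r : ℝ => G (r * u + y * I) := fun u =>
    hc.comp_continuous (by fun_prop) fun r => by simp [hy]
  have c2 : ∀ r : ℝ, Continuous fun u : ℝ => G (r * u + y * I) := fun r =>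
    hc.comp_continuous (by fun_prop) fun u => by simp [hy]
  have k1 : Continuous fun r : ℝ => ∫ u : ℝ, G (r * u + y * I) * exp (-u ^ 2) := by
    refine continuous_of_dominated (bound := fun u => M * Real.exp (-u ^ 2))
      (fun r => ((c2 r).mul (by fun_prop)).aestronglyMeasurable) (fun r => .of_forall fun u => ?_)
      (int_gauss.const_mul M) (.of_forall fun u => (c1 u).mul continuous_const)
    rw [norm_mul, norm_exp, show (-(u : ℂ) ^ 2).re = -u ^ 2 by simp [sq]]
    exact mul_le_mul_of_nonneg_right (hM _ (by simp [hy]) (by simp)) (Real.exp_pos _).le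
  have k2 : Continuous fun r : ℝ =>
      ∫ p, (Real.exp (-y * l p - r ^ 2 * l p ^ 2 / 4) : ℝ) * w p ∂μ := by
    refine continuous_of_dominated (bound := fun p => ‖w p‖)
      (fun r => (Measurable.aestronglyMeasurable (by fun_prop)).mul hw.1) (fun r => ?_) hw.norm
      (.of_forall fun p => by fun_prop)
    filter_upwards [h0] with p hp
    rw [norm_mul, norm_real, Real.norm_of_nonneg (Real.exp_pos _).le]
    exact mul_le_of_le_one_left (norm_nonneg _) (Real.exp_le_one_iff.2 (by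
      nlinarith [mul_nonneg hy hp, mul_nonneg (sq_nonneg r) (sq_nonneg (l p))]))
  have e := tendsto_nhds_unique_of_eventuallyEq (l := 𝓝[>] (0 : ℝ))
    ((k1.tendsto 0).mono_left nhdsWithin_le_nhds)
    (((continuous_const (y := ((√Real.pi : ℝ) : ℂ))).mul k2).tendsto 0 |>.mono_left
      nhdsWithin_le_nhds) (eventually_nhdsWithin_of_forall fun r hr =>
        gauss hl hw hy hc hd hM hG hr)
  have g : ∫ u : ℝ, exp (-(u : ℂ) ^ 2) = (√Real.pi : ℝ) := by
    have := integral_gaussian 1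
    simp only [neg_mul, one_mul, div_one] at this
    rw [← this, ← integral_complex_ofReal]
    simp
  simp only [Pi.mul_apply, ofReal_zero, zero_mul, zero_add, integral_const_mul, g, ne_eq, OfNat.ofNat_ne_zero,
    not_false_eq_true, zero_pow, zero_div, sub_zero] at e
  rw [mul_comm] at e
  exact mul_left_cancel₀ (ofReal_ne_zero.2 (Real.sqrt_pos.2 Real.pi_pos).ne') e

theorem bnd {v : Y → ℝ} (hl : Measurable l) (hm : Measurable v) (hv : Integrable v μ)
    (h0 : ∀ p, 0 ≤ v p) (hy : 0 ≤ y) (hc : ContinuousOn G {s | 0 ≤ s.im ∧ s.im ≤ y})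
    (hd : DifferentiableOn ℂ G {s | 0 < s.im ∧ s.im < y})
    (hM : ∀ s : ℂ, 0 ≤ s.im → s.im ≤ y → ‖G s‖ ≤ M)
    (hG : ∀ s : ℝ, G s = ∫ p, exp (I * s * l p) * v p ∂μ) :
    ∫⁻ p, ENNReal.ofReal (Real.exp (-y * l p) * v p) ∂μ ≤ ENNReal.ofReal M := by
  have hπ := Real.sqrt_pos.2 Real.pi_pos
  have k : ∀ r : ℝ, 0 < r → ∫⁻ p, ENNReal.ofReal
      (Real.exp (-y * l p - r ^ 2 * l p ^ 2 / 4) * v p) ∂μ ≤ ENNReal.ofReal M := fun r hr => by
    have i1 : Integrable (fun p => Real.exp (-y * l p - r ^ 2 * l p ^ 2 / 4) * v p) μ := by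
      refine hv.bdd_mul (c := Real.exp ((y / r) ^ 2))
        (Measurable.aestronglyMeasurable (by fun_prop)) (.of_forall fun p => ?_)
      rw [Real.norm_of_nonneg (Real.exp_pos _).le]
      refine Real.exp_le_exp.2 ?_
      have : y = r * (y / r) := by field_simp
      generalize y / r = c at this
      rw [this]
      nlinarith [sq_nonneg (c + r * l p / 2)]
    rw [← ofReal_integral_eq_lintegral_ofReal i1
      (.of_forall fun p => mul_nonneg (Real.exp_pos _).le (h0 p))]
    refine ENNReal.ofReal_le_ofReal (le_of_mul_le_mul_left ?_ hπ)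
    have e := gauss hl hv.ofReal hy hc hd hM hG hr
    have e2 : ‖∫ u : ℝ, G (r * u + y * I) * exp (-u ^ 2)‖ ≤ ∫ u : ℝ, M * Real.exp (-u ^ 2) := by
      refine norm_integral_le_of_norm_le (int_gauss.const_mul M) (.of_forall fun u => ?_)
      rw [norm_mul, norm_exp, show (-(u : ℂ) ^ 2).re = -u ^ 2 by simp [sq]]
      exact mul_le_mul_of_nonneg_right (hM _ (by simp [hy]) (by simp)) (Real.exp_pos _).le
    have g := integral_gaussian 1
    simp only [neg_mul, one_mul, div_one] at g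
    have e3 : ∫ p, ((Real.exp (-y * l p - r ^ 2 * l p ^ 2 / 4) : ℝ) : ℂ) * (v p : ℂ) ∂μ =
        (∫ p, Real.exp (-y * l p - r ^ 2 * l p ^ 2 / 4) * v p ∂μ : ℝ) := by
      rw [← integral_complex_ofReal]
      simp only [ofReal_mul]
    rw [integral_const_mul, g, e.trans (congrArg _ e3), ← ofReal_mul, norm_real] at e2
    rw [mul_comm _ M]
    exact (le_abs_self _).trans e2
  have t : ∀ p, Tendsto (fun n : ℕ => ENNReal.ofReal (Real.exp
      (-y * l p - (1 / ((n : ℝ) + 1)) ^ 2 * l p ^ 2 / 4) * v p)) atTop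
      (𝓝 (ENNReal.ofReal (Real.exp (-y * l p) * v p))) := fun p => by
    have : Continuous fun r : ℝ => ENNReal.ofReal (Real.exp
      (-y * l p - r ^ 2 * l p ^ 2 / 4) * v p) := ENNReal.continuous_ofReal.comp (by fun_prop)
    exact (this.tendsto' 0 _ (by simp)).comp tendsto_one_div_add_atTop_nhds_zero_nat
  simp only [← fun p => (t p).liminf_eq]
  refine (lintegral_liminf_le fun n => by fun_prop).trans ?_
  exact liminf_le_of_frequently_le' (.of_forall fun n => k _ (by positivity))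

omit [SFinite μ] in
theorem pos (hl : Measurable l)
    (h : ∀ t > (0 : ℝ), ∫⁻ p, ENNReal.ofReal (Real.exp (-t * l p)) ∂μ ≤ ENNReal.ofReal M) :
    μ {p | l p < 0} = 0 := by
  have e : {p | l p < 0} = ⋃ n : ℕ, {p | l p ≤ -(1 / ((n : ℝ) + 1))} := by
    ext p
    simp only [mem_ofPred_eq, mem_iUnion]
    refine ⟨fun hp => ?_, fun ⟨n, hn⟩ => hn.trans_lt (neg_lt_zero.2 (by positivity))⟩
    obtain ⟨n, hn⟩ := exists_nat_one_div_lt (neg_pos.2 hp)
    exact ⟨n, by linarith⟩
  rw [e]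
  refine measure_iUnion_null fun n => ?_
  have hd : (0 : ℝ) < 1 / ((n : ℝ) + 1) := by positivity
  generalize 1 / ((n : ℝ) + 1) = d at hd
  have k : ∀ t > (0 : ℝ), μ {p | l p ≤ -d} ≤ ENNReal.ofReal (Real.exp (-(t * d)) * M) :=
    fun t ht => by
      have h1 := (mul_meas_ge_le_lintegral (μ := μ)
        (f := fun p => ENNReal.ofReal (Real.exp (-t * l p))) (by fun_prop)
        (ENNReal.ofReal (Real.exp (t * d)))).trans (h t ht)
      have h2 : μ {p | l p ≤ -d} ≤ μ {p | ENNReal.ofReal (Real.exp (t * d)) ≤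
          ENNReal.ofReal (Real.exp (-t * l p))} := measure_mono fun p hp =>
        ENNReal.ofReal_le_ofReal (Real.exp_le_exp.2 (by
          have : l p ≤ -d := hp
          nlinarith))
      calc μ {p | l p ≤ -d} = ENNReal.ofReal (Real.exp (-(t * d))) *
            (ENNReal.ofReal (Real.exp (t * d)) * μ {p | l p ≤ -d}) := by
            rw [← mul_assoc, ← ENNReal.ofReal_mul (Real.exp_pos _).le, ← Real.exp_add]; simp
        _ ≤ ENNReal.ofReal (Real.exp (-(t * d))) * ENNReal.ofReal M := by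
            gcongr
            exact le_trans (by gcongr) h1
        _ = _ := (ENNReal.ofReal_mul (Real.exp_pos _).le).symm
  have t : Tendsto (fun t : ℝ => ENNReal.ofReal (Real.exp (-(t * d)) * M)) atTop (𝓝 0) := by
    have := ENNReal.tendsto_ofReal ((Real.tendsto_exp_atBot.comp (tendsto_neg_atTop_atBot.comp
      (tendsto_id.atTop_mul_const hd))).mul_const M)
    simpa using this
  exact le_antisymm (ge_of_tendsto t ((eventually_gt_atTop 0).mono k)) zero_le

theorem mink_add (t : ℝ) (a p : R4) : mink (t • e0 + a) p = t * p 0 + mink a p := by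
  simp [mink, e0]; ring

theorem mink_smul (t : ℝ) (a p : R4) : mink (t • a) p = t * mink a p := by
  simp [mink]; ring

@[fun_prop] theorem cont_mink (a : R4) : Continuous (mink a) := by
  unfold mink
  fun_prop

end A3

open A3 in
theorem sA3_of : S_A3 := by
  intro H _ _ _ T U S hT hC hE x μ ⟨hf, hμ⟩
  have m0 : Measurable fun p : R4 => p 0 := by fun_prop
  have hU : ∀ a, ‖U a x‖ = ‖x‖ := fun a => by
    have : inner ℂ (U a x) (U a x) = inner ℂ x x := by
      rw [hE.grp.adj, ← mul_apply_eq_comp, ← hE.grp.mul, neg_add_cancel, hE.grp.zero]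
      rfl
    rw [inner_self_eq_norm_sq_to_K, inner_self_eq_norm_sq_to_K] at this
    exact (pow_left_inj₀ (norm_nonneg _) (norm_nonneg _) two_ne_zero).1 (by exact_mod_cast this)
  have g1 : ∀ a (y : ℝ), ContinuousOn (fun s => inner ℂ x (S s (U a x)))
      {s : ℂ | 0 ≤ s.im ∧ s.im ≤ y} := fun a y =>
    continuousOn_const.inner ((hE.cont _).mono fun s hs => hs.1)
  have g2 : ∀ a (y : ℝ), DifferentiableOn ℂ (fun s => inner ℂ x (S s (U a x)))
      {s : ℂ | 0 < s.im ∧ s.im < y} := fun a y =>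
    (innerSL ℂ x).differentiable.comp_differentiableOn
      ((hE.hol.mono fun s hs => hs.1).clm_apply (differentiableOn_const _))
  have g3 : ∀ a (y : ℝ) (s : ℂ), 0 ≤ s.im → s.im ≤ y → ‖inner ℂ x (S s (U a x))‖ ≤ ‖x‖ ^ 2 :=
    fun a y s hs _ => (norm_inner_le_norm _ _).trans (by
      rw [sq]
      gcongr
      exact ((S s).le_opNorm _).trans (by
        rw [hU]; exact mul_le_of_le_one_left (norm_nonneg _) (hE.nrm s hs)))
  have g4 : ∀ a (s : ℝ), inner ℂ x (S s (U a x)) =
      ∫ p, exp (I * s * p 0) * exp (I * mink a p) ∂μ := fun a s => by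
    rw [hE.time, ← mul_apply_eq_comp, ← hE.grp.mul, hμ]
    simp only [mink_add, ← Complex.exp_add]
    congr 1
    funext p
    congr 1
    push_cast
    ring
  have p0 : μ {p | p 0 < 0} = 0 := pos (M := ‖x‖ ^ 2) m0 fun t ht => by
    simpa using bnd (v := fun _ => 1) m0 measurable_const (integrable_const _)
      (fun _ => zero_le_one) ht.le (g1 0 t) (g2 0 t) (g3 0 t) fun s => by
        simpa [mink] using g4 0 s
  have p0' : ∀ᵐ p ∂μ, 0 ≤ p 0 := by simpa only [ae_iff, not_le] using p0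
  have p1 : ∀ n, Un n → ∀ θ ∈ Ioo (0 : ℝ) 1, μ {p | p 0 + θ * mink n p < 0} = 0 := by
    intro n hn θ hθ
    refine pos (M := ‖x‖ ^ 2) (by fun_prop) fun t ht => ?_
    obtain ⟨G, d, b, e⟩ := hC n hn ((1 + θ) / 2) ⟨by linarith [hθ.1], by linarith [hθ.2]⟩ t ht x
    have hs : ∀ s : ℂ, 0 ≤ s.im → s.im ≤ θ * t → |s.im| < (1 + θ) / 2 * t := fun s h0 h1 => by
      rw [abs_of_nonneg h0]; nlinarith [hθ.2]
    have := bnd (μ := μ) (l := mink n) (v := fun p => Real.exp (-t * p 0)) (G := G) (y := θ * t)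
      (by fun_prop) (by fun_prop) (.of_bound (Measurable.aestronglyMeasurable (by fun_prop)) 1
        (p0'.mono fun p hp => by
          rw [Real.norm_of_nonneg (Real.exp_pos _).le]
          exact Real.exp_le_one_iff.2 (by nlinarith)))
      (fun p => (Real.exp_pos _).le) (mul_pos hθ.1 ht).le
      (d.continuousOn.mono fun s h => hs s h.1 h.2) (d.mono fun s h => hs s h.1.le h.2.le)
      (fun s h0 h1 => b s (hs s h0 h1)) fun s => by
        have h0 : (s • n) 0 = 0 := by simp [hn.1]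
        rw [e, hT.mul _ _ (by simp [ht.le]) h0.ge, ← hE.imag t ht.le, ← hE.space _ h0,
          mul_apply_eq_comp]
        refine (val m0 (.of_bound (Measurable.aestronglyMeasurable (by fun_prop)) 1
          (.of_forall fun p => by rw [norm_exp]; simp)) ht.le (g1 _ t) (g2 _ t) (g3 _ t) (g4 _)
          p0').trans ?_
        simp only [mink_smul, ofReal_mul, mul_assoc, mul_comm (Real.exp _ : ℂ)]
    refine le_trans (le_of_eq ?_) this
    congr 1
    funext p
    rw [← Real.exp_add]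
    congr 2
    ring
  rw [ae_iff]
  refine measure_null_of_locally_null _ fun p hp => ?_
  have hp : p 0 < ‖sp p‖ := by simpa [mg] using hp
  by_cases h0 : p 0 < 0
  · exact ⟨_, mem_nhdsWithin_of_mem_nhds
      ((isOpen_lt (f := fun p : R4 => p 0) (by fun_prop) continuous_const).mem_nhds h0), p0⟩
  have hs : 0 < ‖sp p‖ := (not_lt.1 h0).trans_lt hp
  refine ⟨_, mem_nhdsWithin_of_mem_nhds ((isOpen_lt (by fun_prop) continuous_const).mem_nhds ?_),
    p1 (‖sp p‖⁻¹ • sp p) ⟨by simp [sp_zero], by rw [norm_smul, norm_inv, norm_norm]; field_simp⟩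
      ((p 0 / ‖sp p‖ + 1) / 2) ⟨by have := div_nonneg (not_lt.1 h0) hs.le; linarith,
        by have := (div_lt_one hs).2 hp; linarith⟩⟩
  have e : mink (sp p) p = -‖sp p‖ ^ 2 := by
    rw [sp_sq, mink, sp_zero, sp_ne _ (by decide), sp_ne _ (by decide), sp_ne _ (by decide)]
    ring
  change p 0 + _ * mink _ p < 0
  rw [mink_smul, e]
  have : (p 0 / ‖sp p‖ + 1) / 2 * (‖sp p‖⁻¹ * -‖sp p‖ ^ 2) = -(p 0 + ‖sp p‖) / 2 := by field_simp
  rw [this]
  linarith

end Pool.Agent.Lib.MP_7f377f_mp.Wm
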