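import Pool.Agent.Lib.MP_7f377f_mp.G.WmSpec

/-! Stage 14: rotations and Lorentz matrices. -/

noncomputable section

namespace Pool.Agent.Lib.MP_7f377f_mp.Wm
variable [Pool.Agent.Lib.MP_7f377f_mp.GD]
set_option linter.unusedSectionVars false

open MeasureTheory Filter Topology Set YM7 Matrix Real

/-- the rotation in the plane of `e0` and `n` -/
def Rm (n : R4) (α : ℝ) : Mat := Matrix.of fun μ ν => (if μ = ν then 1 else 0) +
  (cos α - 1) * (e0 μ * e0 ν + n μ * n ν) + sin α * (e0 μ * n ν - n μ * e0 ν)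

variable {L M R : Mat} {n : ℕ}

theorem act_apply (L : Mat) (x : R4) (μ : Fin 4) : act L x μ = ∑ ν, L μ ν * x ν := rfl

theorem act_eq (L : Mat) (x : R4) : act L x = toLpLin 2 2 L x := rfl

@[simp] theorem act_one (x : R4) : act 1 x = x := by simp [act]

theorem act_mul (L M : Mat) (x : R4) : act (L * M) x = act L (act M x) := by simp [act]

theorem act_add (L : Mat) (x y : R4) : act L (x + y) = act L x + act L y := by
  simp only [act_eq, map_add]

theorem act_sub (L : Mat) (x y : R4) : act L (x - y) = act L x - act L y := by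
  simp only [act_eq, map_sub]

theorem act_smul (L : Mat) (t : ℝ) (x : R4) : act L (t • x) = t • act L x := by
  simp only [act_eq, map_smul]

theorem act_zero (L : Mat) : act L 0 = 0 := by simp only [act_eq, map_zero]

theorem act_neg (L : Mat) (x : R4) : act L (-x) = -act L x := by simp only [act_eq, map_neg]

theorem act_e0 (L : Mat) (μ : Fin 4) : act L e0 μ = L μ 0 := by simp [act_apply, e0]

theorem act_ext (h : ∀ x, act L x = act M x) : L = M :=
  (toLpLin 2 2).injective (LinearMap.ext h)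

@[fun_prop] theorem continuous_act {Y : Type*} [TopologicalSpace Y] {f : Y → Mat} {g : Y → R4}
    (hf : Continuous f) (hg : Continuous g) : Continuous fun y => act (f y) (g y) :=
  (PiLp.continuous_toLp 2 _).comp (hf.matrix_mulVec ((PiLp.continuous_ofLp 2 _).comp hg))

@[fun_prop] theorem continuous_cact {Y : Type*} [TopologicalSpace Y] {f : Y → Mat} {g : Y → C4}
    (hf : Continuous f) (hg : Continuous g) : Continuous fun y => cact (f y) (g y) :=
  (hf.matrix_map Complex.continuous_ofReal).matrix_mulVec hg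

theorem cact_apply (L : Mat) (z : C4) (μ : Fin 4) : cact L z μ = ∑ ν, (L μ ν : ℂ) * z ν := rfl

@[simp] theorem cact_one (z : C4) : cact 1 z = z := by
  rw [cact, Matrix.map_one _ Complex.ofReal_zero Complex.ofReal_one, one_mulVec]

theorem cact_mul (L M : Mat) (z : C4) : cact (L * M) z = cact L (cact M z) := by
  simp only [cact, mulVec_mulVec]
  exact congrArg (· *ᵥ z) (Matrix.map_mul (f := Complex.ofRealHom))

theorem cact_add (L : Mat) (z w : C4) : cact L (z + w) = cact L z + cact L w := mulVec_add _ _ _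

theorem cact_sub (L : Mat) (z w : C4) : cact L (z - w) = cact L z - cact L w := mulVec_sub _ _ _

theorem cact_smul (L : Mat) (t : ℂ) (z : C4) : cact L (t • z) = t • cact L z := mulVec_smul _ _ _

theorem cact_star (L : Mat) (z : C4) : cact L (star z) = star (cact L z) := by
  ext μ
  simp [cact_apply]

theorem cact_rl (L : Mat) (x : R4) : cact L (rl x) = rl (act L x) := by
  ext μ
  simp [cact_apply, act_apply, rl]

theorem imv_cact (L : Mat) (z : C4) : imv (cact L z) = act L (imv z) := by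
  ext μ
  simp [cact_apply, act_apply]

theorem inner_eq (u y : R4) : inner ℝ u y = ∑ ν, u ν * y ν := by
  simp [PiLp.inner_apply, mul_comm]

theorem act_Rm (u : R4) (α : ℝ) (y : R4) : act (Rm u α) y =
    y + ((cos α - 1) * y 0 + sin α * inner ℝ u y) • e0 +
      ((cos α - 1) * inner ℝ u y - sin α * y 0) • u := by
  ext μ
  simp only [act_apply, inner_eq, Rm, of_apply, add_mul, Finset.sum_add_distrib, ite_mul, one_mul,
    zero_mul, Finset.sum_ite_eq, Finset.mem_univ, if_true, PiLp.add_apply, PiLp.smul_apply,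
    smul_eq_mul, Fin.sum_univ_four, e0_zero, e0_ne (show (1 : Fin 4) ≠ 0 by decide),
    e0_ne (show (2 : Fin 4) ≠ 0 by decide), e0_ne (show (3 : Fin 4) ≠ 0 by decide)]
  ring

theorem inner_e0 (u : R4) : inner ℝ u e0 = u 0 := by simp [e0, EuclideanSpace.inner_single_right]

theorem Rm_zero (u : R4) : Rm u 0 = 1 := act_ext fun x => by simp [act_Rm]

theorem Rm_neg (u : R4) (α : ℝ) : Rm u (-α) = (Rm u α)ᵀ := by
  ext μ ν
  simp only [Rm, of_apply, transpose_apply, cos_neg, sin_neg, eq_comm (a := μ)]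
  ring

theorem Rm_zero_apply {u : R4} (h : Un u) (α : ℝ) (y : R4) :
    act (Rm u α) y 0 = cos α * y 0 + sin α * inner ℝ u y := by
  simp only [act_Rm, PiLp.add_apply, PiLp.smul_apply, smul_eq_mul, e0_zero, h.1]
  ring

theorem inner_Rm {u : R4} (h : Un u) (α : ℝ) (y : R4) :
    inner ℝ u (act (Rm u α) y) = cos α * inner ℝ u y - sin α * y 0 := by
  simp only [act_Rm, inner_add_right, inner_smul_right, inner_e0, h.1, real_inner_self_eq_norm_sq,
    h.2]
  ring

theorem Rm_add {u : R4} (h : Un u) (α β : ℝ) : Rm u (α + β) = Rm u α * Rm u β :=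
  act_ext fun x => by
    rw [act_mul, act_Rm u α, Rm_zero_apply h, inner_Rm h, act_Rm, act_Rm, cos_add, sin_add]
    module

theorem Rm_orth {u : R4} (h : Un u) (α : ℝ) : (Rm u α)ᵀ * Rm u α = 1 := by
  rw [← Rm_neg, ← Rm_add h, neg_add_cancel, Rm_zero]

theorem so_Rm {u : R4} (h : Un u) (α : ℝ) : SO (Rm u α) := by
  refine ⟨Rm_orth h α, ?_⟩
  have := congrArg det (Rm_orth h (α / 2))
  rwa [det_mul, det_transpose, det_one, ← det_mul, ← Rm_add h, add_halves] at this

theorem SO.mul_transpose (h : SO R) : R * Rᵀ = 1 := mul_eq_one_comm.1 h.1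

theorem SO.transpose (h : SO R) : SO Rᵀ :=
  ⟨by rw [transpose_transpose, h.mul_transpose], by rw [det_transpose, h.2]⟩

theorem SO.mul (h : SO L) (h' : SO M) : SO (L * M) :=
  ⟨by rw [transpose_mul, Matrix.mul_assoc, ← Matrix.mul_assoc Lᵀ, h.1, Matrix.one_mul, h'.1],
    by rw [det_mul, h.2, h'.2, one_mul]⟩

theorem inner_act (L : Mat) (x y : R4) : inner ℝ x (act L y) = inner ℝ (act Lᵀ x) y := by
  simp only [inner_eq, act_apply, transpose_apply, Fin.sum_univ_four]
  ring

theorem SO.inner (h : SO R) (x y : R4) : inner ℝ (act R x) (act R y) = inner ℝ x y := by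
  rw [inner_act, ← act_mul, h.1, act_one]

/-- matrices of determinant one as linear equivalences -/
def aE (h : L.det = 1) : R4 ≃L[ℝ] R4 :=
  (LinearEquiv.ofLinearMap (toLpLin 2 2 L) (toLpLin 2 2 L⁻¹)
    (LinearMap.ext fun x => (act_mul _ _ x).symm.trans (by
      rw [mul_nonsing_inv _ (h ▸ isUnit_one), act_one]; rfl))
    (LinearMap.ext fun x => (act_mul _ _ x).symm.trans (by
      rw [nonsing_inv_mul _ (h ▸ isUnit_one), act_one]; rfl))).toContinuousLinearEquiv

@[simp] theorem aE_apply (h : L.det = 1) (x : R4) : aE h x = act L x := rfl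

theorem SO.iso (h : SO R) : ∃ Q : R4 ≃ₗᵢ[ℝ] R4,
    LinearMap.det (Q.toLinearEquiv : R4 →ₗ[ℝ] R4) = 1 ∧ ∀ y, Q y = act R y :=
  ⟨(aE h.2).toLinearEquiv.isometryOfInner h.inner, (LinearMap.det_toLpLin 2 R).trans h.2,
    fun _ => rfl⟩

theorem lor_one : Lor 1 := ⟨fun x y => by rw [act_one, act_one], det_one, by simp⟩

theorem mink_eq (x y : R4) : mink x y = x 0 * y 0 - inner ℝ (sp x) (sp y) := by
  simp only [inner_eq, Fin.sum_univ_four, sp_zero, sp_ne _ (show (1 : Fin 4) ≠ 0 by decide),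
    sp_ne _ (show (2 : Fin 4) ≠ 0 by decide), sp_ne _ (show (3 : Fin 4) ≠ 0 by decide), mink]
  ring

theorem mink_e0 (y : R4) : mink e0 y = y 0 := by simp [mink, e0]

theorem mink_comm (x y : R4) : mink x y = mink y x := by
  simp only [mink]
  ring

theorem pos_of_mink {a b : R4} (ha : 0 < mg a) (hb : 0 < mink b b) (h : 0 < mink a b) :
    0 < mg b := by
  refine mg_pos_iff.2 ⟨not_le.1 fun h0 => ?_, hb⟩
  have h1 := (abs_le.1 (abs_real_inner_le_norm (sp a) (sp b))).1
  have h2 := norm_nonneg (sp a)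
  have h3 := norm_nonneg (sp b)
  rw [mink_self] at hb
  rw [mink_eq] at h
  rw [mg] at ha
  have h4 : ‖sp b‖ ≤ -b 0 := le_of_sq_le_sq (by linarith [neg_sq (b 0)]) (by linarith)
  nlinarith [mul_le_mul (sub_pos.1 ha).le h4 h3 (by linarith)]

theorem lor_e0 (h : Lor L) : 0 < mg (act L e0) :=
  mg_pos_iff.2 ⟨by rw [act_e0]; exact h.2.2, by rw [h.1, mink_e0, e0_zero]; exact one_pos⟩

theorem lor_pos (h : Lor L) {y : R4} (hy : 0 < mg y) : 0 < mg (act L y) :=
  pos_of_mink (lor_e0 h) (by rw [h.1]; exact (mg_pos_iff.1 hy).2)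
    (by rw [h.1, mink_e0]; exact (mg_pos_iff.1 hy).1)

theorem lor_mul (h : Lor L) (h' : Lor M) : Lor (L * M) :=
  ⟨fun x y => by rw [act_mul, act_mul, h.1, h'.1], by rw [det_mul, h.2.1, h'.2.1, one_mul], by
    rw [← act_e0 (L * M), act_mul]
    exact (mg_pos_iff.1 (lor_pos h (lor_e0 h'))).1⟩

theorem lor_inv (h : Lor L) : ∃ M, Lor M ∧ L * M = 1 ∧ M * L = 1 := by
  have u : IsUnit L.det := h.2.1 ▸ isUnit_one
  have e : ∀ x, act L (act L⁻¹ x) = x := fun x => by rw [← act_mul, mul_nonsing_inv _ u, act_one]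
  refine ⟨L⁻¹, ⟨fun x y => by rw [← h.1, e, e], by rw [det_nonsing_inv, h.2.1, Ring.inverse_one], ?_⟩,
    mul_nonsing_inv _ u, nonsing_inv_mul _ u⟩
  rw [← act_e0 L⁻¹, ← mink_e0, ← h.1, e, mink_comm, mink_e0, act_e0]
  exact h.2.2

theorem lor_to (h : Lor L) {z : C4} (hz : z ∈ TO) : cact L z ∈ TO :=
  show 0 < mg _ from imv_cact L z ▸ lor_pos h hz

theorem lor_tube (h : Lor L) {z : Fin n → C4} (hz : z ∈ Tube n) :
    (fun i => cact L (z i)) ∈ Tube n :=
  mem_tube.2 fun i j e => cact_sub L _ _ ▸ lor_to h (mem_tube.1 hz i j e)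

theorem lor_ft (h : Lor L) (a : R4) {z : Fin n → C4} (hz : z ∈ FT n) :
    (fun i => rl a + cact L (z i)) ∈ FT n := by
  simp only [add_comm (rl a)]
  exact FT.add ⟨fun i => lor_to h (hz.1 i), mem_tube.1 (lor_tube h (FT.tube hz))⟩ (rl_mem a)

theorem mp_act1 (h : L.det = 1) (a : R4) : MeasurePreserving fun x : R4 => a + act L x := by
  refine (measurePreserving_add_left volume a).comp (f := toLpLin 2 2 L)
    ⟨(aE h).continuous.measurable, ?_⟩
  have d : LinearMap.det (toLpLin 2 2 L) = 1 := (LinearMap.det_toLpLin 2 L).trans h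
  rw [Measure.map_linearMap_addHaar_eq_smul_addHaar _ (d ▸ one_ne_zero), d]
  simp

theorem mp_act (h : L.det = 1) (a : R4) :
    MeasurePreserving (fun (x : Fin n → R4) i => a + act L (x i)) :=
  measurePreserving_pi _ _ fun _ => mp_act1 h a

/-- the action on several points -/
def pE (n : ℕ) (h : L.det = 1) : (Fin n → R4) ≃L[ℝ] Fin n → R4 :=
  ContinuousLinearEquiv.piCongrRight fun _ => aE h

@[simp] theorem pE_apply (h : L.det = 1) (x : Fin n → R4) (i : Fin n) : pE n h x i = act L (x i) :=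
  rfl

theorem me_act (h : L.det = 1) (a : R4) :
    MeasurableEmbedding (fun (x : Fin n → R4) i => a + act L (x i)) :=
  ((pE n h).toHomeomorph.trans (Homeomorph.addLeft fun _ => a)).measurableEmbedding

theorem int_act {X : Type} [NormedAddCommGroup X] [NormedSpace ℝ X] (h : L.det = 1) (a : R4)
    (G : (Fin n → R4) → X) : ∫ x : Fin n → R4, G (fun i => a + act L (x i)) = ∫ x, G x :=
  (mp_act h a).integral_comp (me_act h a) G

theorem exists_act (h : L.det = 1) (a : R4) (F : Sw n) :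
    ∃ F' : Sw n, ∀ x, F' (fun i => a + act L (x i)) = F x :=
  ⟨(SchwartzMap.compCLMOfContinuousLinearEquiv ℂ (pE n h).symm F).compSubConstCLM ℂ fun _ => a,
    fun _ => congrArg F ((pE n h).symm_apply_eq.2 (funext fun _ => add_sub_cancel_left _ _))⟩

theorem exists_conj (f : Tf) : ∃ g : Tf, ∀ u, g u = starRingEnd ℂ (f u) :=
  ⟨f.postcompCLM (𝕜 := ℝ) Complex.conjCLE.toContinuousLinearMap, fun _ => rfl⟩

end Pool.Agent.Lib.MP_7f377f_mp.Wm
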