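import Pool.Agent.Lib.MP_7f377f_mp.G.WmSpecB
import Pool.Agent.Lib.MP_7f377f_mp.G.WmMat
import Pool.Agent.Lib.MP_7f377f_mp.G.RoA

/-! Stage 14: the cone condition from rotation invariance. -/

noncomputable section

namespace Pool.Agent.Lib.MP_7f377f_mp.Wm
variable [Pool.Agent.Lib.MP_7f377f_mp.GD]
set_option linter.unusedSectionVars false

open MeasureTheory Filter Topology Set YM7 Pur Lg MvPolynomial Real

namespace B0

variable {W : Pol →ₗ[ℂ] ℂ} {n : R4} {Z : Pol}

theorem rf_n (hn : Un n) (y : R4) : inner ℝ n (rf 0 y) = inner ℝ n y := by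
  simp [inner_eq, Fin.sum_univ_four, hn.1, rf_ne]

theorem v0 (hn : Un n) (t s : ℝ) : (t • e0 + s • n) 0 = t := by simp [hn.1]

theorem vn (hn : Un n) (t s : ℝ) : inner ℝ n (t • e0 + s • n) = s := by
  simp [inner_add_right, inner_smul_right, inner_e0, hn.1, hn.2]

theorem one (hS : net.St W) (hr : Rot W) (hn : Un n)
    (hZ : Z ∈ net.loc {y | |inner ℝ n y| < y 0}) : ∃ M, ∀ q : ℝ,
      S10.Hol (fun p => W (net.Θ 0 Z * net.τ ((p + q) • e0 + (p - q) • n) Z)) M := by
  obtain ⟨g, g1, g2⟩ := (so_Rm hn (-(π / 4))).iso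
  have c0 : 0 < cos (π / 4) := by rw [cos_pi_div_four]; positivity
  have c1 : sin (π / 4) = cos (π / 4) := by rw [cos_pi_div_four, sin_pi_div_four]
  have c2 : 2 * cos (π / 4) * cos (π / 4) = 1 := by
    linear_combination sin_sq_add_cos_sq (π / 4) - (sin (π / 4) + cos (π / 4)) * c1
  have iv : Ro.Inv W g.symm := .of_mon fun k f hf => (congrArg W (Ro.act_mon _ f)).trans (hr g g1 k f hf)
  have hA : Ro.act g.symm (net.Θ 0 Z) ∈ net.loc {y | y 0 < 0} :=
    net.mono (Ro.act_mem _ (net.Θ_mem 0 hZ)) fun y hy => by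
      simp only [mem_ofPred_eq, g.symm_symm, g2, rf_self, rf_n hn, Rm_zero_apply hn, inner_Rm hn,
        cos_neg, sin_neg, c1, abs_lt] at hy ⊢
      nlinarith [hy.2]
  have hB : Ro.act g.symm Z ∈ net.loc (Hs 0 0) :=
    net.mono (Ro.act_mem _ hZ) fun y hy => by
      simp only [Hs, mem_ofPred_eq, g.symm_symm, g2, Rm_zero_apply hn, inner_Rm hn,
        cos_neg, sin_neg, c1, abs_lt] at hy ⊢
      nlinarith [hy.1]
  obtain ⟨M, hM⟩ := Ro.RoA.hol hS 0 hA hB
  refine ⟨M, fun q => ((hM (-(2 * cos (π / 4) * q) • n) (by simp [hn.1])).scale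
    (mul_pos two_pos c0)).congr (fun p hp => ?_) le_rfl⟩
  have e : ax 0 (2 * cos (π / 4) * p) + -(2 * cos (π / 4) * q) • n =
      g.symm ((p + q) • e0 + (p - q) • n) := by
    rw [eq_comm, g.symm_apply_eq, g2, act_Rm, ← smul_e0, v0 hn, vn hn, cos_neg, sin_neg, c1]
    match_scalars
    · linear_combination -(p + q) * c2
    · linear_combination (q - p) * c2
  have m := net.mul hA (Net.τ_hs (v := ax 0 (2 * cos (π / 4) * p) + -(2 * cos (π / 4) * q) • n)
    (t' := 0) hB (by rw [← smul_e0, v0 hn]; positivity)) (disjoint_left.2 fun y a b =>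
      lt_asymm (show y 0 < 0 from a) (show 0 < y 0 from b))
  rw [e, ← Ro.act_τ, ← map_mul] at m ⊢
  refine iv _ ?_
  simpa only [Ro.act_act, show g * g.symm = 1 from mul_inv_cancel g, Ro.act_one] using
    Ro.act_adm g m

end B0

open B0

theorem sB0_of : S_B0 := fun H _ _ _ W r hS hr hT n hn θ hθ t ht x => by
  have p : ∀ {t : ℝ} (s : ℝ), 0 ≤ t → 0 ≤ (t • e0 + s • n) 0 := fun s ht =>
    ht.trans_eq (v0 hn _ s).symm
  obtain ⟨A, a1, a2, a3⟩ := S10.cone (T := fun t s => r.T (t • e0 + s • n))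
    (fun t ht s => r.nrm (p s ht))
    (fun t ht t' ht' s s' => by
      rw [← hT.mul _ _ (p s ht) (p s' ht'), add_add_add_comm, add_smul, add_smul, add_add_add_comm])
    (fun t ht s x y => by
      rw [hT.adj _ (p s ht)]
      refine congrArg (fun v => inner ℂ x (r.T v y)) ?_
      ext i
      by_cases i0 : i = 0 <;> simp [i0, hn.1, rf_ne, e0_ne])
    (D := range fun X : net.loc (Hs 0 0) => r.Ψ X) r.dense
    (fun a _ => by
      simpa [hT.zero, Function.comp_def] using (((hT.cont a).comp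
        (f := fun t : ℝ => t • e0 + (0 : ℝ) • n) (s := Ici 0) (by fun_prop) fun _ => p 0) 0
        self_mem_Ici).tendsto.mono_left (nhdsWithin_mono _ Ioi_subset_Ici_self))
    ((net.loc {y | |inner ℝ n y| < y 0}).map r.Ψ)
    (by
      rintro _ ⟨⟨X, hX⟩, rfl⟩
      obtain ⟨R, hR⟩ := net.bdd hX
      filter_upwards [eventually_ge_atTop (2 * R), eventually_ge_atTop 0] with t ht t0
      refine ⟨_, net.mono (net.τ_mem (t • e0 + (0 : ℝ) • n) hR) fun y hy => ?_,
        (r.act (p 0 t0) hX).symm⟩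
      have e1 : 0 < (y - (t • e0 + (0 : ℝ) • n)) 0 := hy.1
      have e2 := abs_real_inner_le_norm n (y - (t • e0 + (0 : ℝ) • n))
      have e3 : ‖y - (t • e0 + (0 : ℝ) • n)‖ ≤ 2 * R := by
        have h := fun l => sq_lt_sq' (abs_lt.1 (hy.2 l)).1 (abs_lt.1 (hy.2 l)).2
        refine le_of_sq_le_sq ?_ (by linarith [(abs_nonneg _).trans_lt (hy.2 0)])
        rw [EuclideanSpace.real_norm_sq_eq, Fin.sum_univ_four]
        linarith [h 0, h 1, h 2, h 3]
      rw [PiLp.sub_apply, v0 hn] at e1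
      rw [inner_sub_right, vn hn, sub_zero, hn.2] at e2
      change |inner ℝ n y| < y 0
      linarith)
    (by
      rintro _ ⟨Z, hZ, rfl⟩
      have hZ' : Z ∈ net.loc (Hs 0 0) := net.mono hZ fun y hy =>
        (abs_nonneg (inner ℝ n y)).trans_lt hy
      obtain ⟨M, m⟩ := one hS hr hn hZ
      obtain ⟨M', m'⟩ := one (n := -n) (Z := Z) hS hr ⟨by simp [hn.1], by simp [hn.2]⟩
        (by simpa using hZ)
      have e : ∀ a b : ℝ, 0 < a → 0 < b →
          W (net.Θ 0 Z * net.τ ((a + b) • e0 + (a - b) • n) Z) =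
          inner ℂ (r.Ψ Z) (r.T ((a + b) • e0 + (a - b) • n) (r.Ψ Z)) := fun a b ha hb => by
        have := p (a - b) (add_pos ha hb).le
        rw [r.act this hZ', r.inn hZ' (Net.τ_hs hZ' (by rwa [zero_add]))]
      refine ⟨max M M', fun b hb => (m b).congr (fun a ha => e a b ha hb) (le_max_left _ _),
        fun a ha => (m' a).congr (fun b hb => ?_) (le_max_right _ _)⟩
      rw [← e a b ha hb, add_comm b, smul_neg, ← neg_smul, neg_sub]) hθ.1 hθ.2
  exact ⟨fun s => inner ℂ x (A (t, s) x), (innerSL ℂ x).differentiable.comp_differentiableOn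
    ((a1.comp (f := fun s => ((t : ℂ), s)) (by fun_prop) fun s hs => hs).clm_apply
      (differentiableOn_const x)),
    fun s hs => (norm_inner_le_norm _ _).trans ((sq ‖x‖).symm ▸ mul_le_mul_of_nonneg_left
      (((A _).le_of_opNorm_le (a2 _ hs) x).trans_eq (one_mul _)) (norm_nonneg _)),
    fun s => by simp only [a3 t s ht]⟩

end Pool.Agent.Lib.MP_7f377f_mp.Wm
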