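import Pool.Agent.Lib.MP_7f377f_mp.G.WmSpecB
import Pool.Agent.Lib.MP_7f377f_mp.S10KA

/-! Stage 14: the Reeh-Schlieder property and the smeared field as a bounded operator. -/

noncomputable section

namespace Pool.Agent.Lib.MP_7f377f_mp.Wm
variable [Pool.Agent.Lib.MP_7f377f_mp.GD]
set_option linter.unusedSectionVars false

open MeasureTheory Filter Topology Set Complex YM7 Pur Lg MvPolynomial ComplexConjugate
open scoped NNReal

set_option linter.unusedSectionVars false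

namespace B1

variable {H : Type} [NormedAddCommGroup H] [InnerProductSpace ℂ H]

theorem le_of_dense {D : Set H} (hD : Dense D) {a : H} {C : ℝ} (C0 : 0 ≤ C)
    (h : ∀ y ∈ D, ‖inner ℂ y a‖ ≤ C * ‖y‖) : ‖a‖ ≤ C := by
  have h1 : ‖inner ℂ a a‖ ≤ C * ‖a‖ := hD.induction (P := fun y => ‖inner ℂ y a‖ ≤ C * ‖y‖) h
    (isClosed_le (by fun_prop) (by fun_prop)) a
  rw [inner_self_eq_norm_sq_to_K, norm_pow, RCLike.norm_ofReal, abs_norm, sq] at h1
  rcases (norm_nonneg a).eq_or_lt with e | e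
  · rwa [← e]
  · exact le_of_mul_le_mul_right h1 e

/-- the spatial diagonal -/
def nn : R4 := dg 1 - e0

theorem nn_zero : nn 0 = 0 := by simp [nn]

theorem nn_ne {l : Fin 4} (h : l ≠ 0) : nn l = 1 := by simp [nn, e0_ne h]

theorem norm_sp_nn : ‖sp nn‖ ≤ 2 := by
  refine le_of_sq_le_sq ?_ zero_le_two
  rw [sp_sq, nn_ne (by decide), nn_ne (by decide), nn_ne (by decide)]
  norm_num

variable {P : Type} [CommRing P] [Algebra ℂ P] {N : Net P} {S : P →ₗ[ℂ] ℂ} (r : N.Rep S 0 H)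
  {X Y Z : P} {R c : ℝ}

theorem rs [CompleteSpace H] {E : C4 → H →L[ℂ] H} (hE : Tub E)
    (hT : ∀ v : R4, 0 ≤ v 0 → E (euc v) = r.T v) (R : ℝ) :
    Dense {y | ∃ b ∈ N.loc (Ot 0), r.Ψ (N.τ (R • nn) b) = y} := by
  let D : Submodule ℂ H := (N.loc (Ot 0)).map (r.Ψ ∘ₗ (N.τ (R • nn)).toLinearMap)
  change Dense (D : Set H)
  rw [Submodule.dense_iff_topologicalClosure_eq_top, Submodule.topologicalClosure_eq_top_iff,
    eq_bot_iff]
  intro x hx
  refine r.dense.eq_zero_of_inner_left ℂ fun ⟨Y, hY⟩ => ?_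
  have key : ∀ t > (0 : ℝ), inner ℂ x (E (ie t) (r.Ψ Y)) = 0 := fun t t0 => by
    obtain ⟨R', hR⟩ := ((Net.box hY).and (eventually_ge_atTop 0)).exists
    have hU : Convex ℝ {s : ℂ | |s.im| < t / 2} := by
      simp only [abs_lt]
      exact (convex_halfSpace_im_gt _).inter (convex_halfSpace_im_lt _)
    have m : ∀ s : ℂ, |s.im| < t / 2 → ie t + s • rl nn ∈ TO := fun s hs => by
      have e : imv (ie t + s • rl nn) = s.im • nn + t • e0 := by
        rw [imv_add, imv_ie, add_comm]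
        congr 1
        ext; simp [rl]
      have := mul_le_mul_of_nonneg_left norm_sp_nn (abs_nonneg s.im)
      simp only [TO, mem_ofPred_eq, e, mg_add_e0]
      simp only [mg, sp_smul, norm_smul, PiLp.smul_apply, nn_zero, smul_zero, Real.norm_eq_abs]
      linarith
    have d : DifferentiableOn ℂ (fun s : ℂ => inner ℂ x (E (ie t + s • rl nn) (r.Ψ Y)))
        {s : ℂ | |s.im| < t / 2} :=
      (innerSL ℂ x).differentiable.comp_differentiableOn
        ((hE.hol.comp (by fun_prop) m).clm_apply (differentiableOn_const _))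
    have := S10.id_line (isOpen_lt (by fun_prop) continuous_const) hU.isPreconnected d
      (differentiableOn_const (0 : ℂ)) (z := (R' + R : ℝ)) (d := 1) (by simpa using t0) one_ne_zero
      (by
        filter_upwards [self_mem_nhdsWithin] with u (u0 : 0 < u)
        have e : ie t + (((R' + R : ℝ) : ℂ) + u * 1) • rl nn =
            euc (R • nn + (t • e0 + (R' + u) • nn)) := by
          ext l
          by_cases h : l = 0
          · simp [ie, euc, rl, h, nn_zero]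
          · simp [ie, euc, rl, h, nn_ne h, e0_ne h]
            ring
        rw [e, hT _ (by simp [nn_zero, t0.le]), r.act (by simp [nn_zero, t0.le]) hY, ← N.τ_τ]
        refine (Submodule.mem_orthogonal' _ _).1 hx _ ⟨_, N.mono (N.τ_mem _ hR.1) fun y hy l => ?_,
          rfl⟩
        have h1 := (abs_lt.1 (hy.2 l)).1
        have h2 := hy.1
        by_cases h : l = 0
        · simp [nn_zero, Hs] at h2
          rw [h]
          linarith
        · simp [nn_ne h, e0_ne h] at h1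
          linarith)
      (x := 0) (by simpa using t0)
    simpa using this
  have c1 : Tendsto (fun t : ℝ => ie t) (𝓝[>] 0) (𝓝[TV 0] 0) :=
    tendsto_nhdsWithin_iff.2 ⟨tendsto_nhdsWithin_of_tendsto_nhds
      (Continuous.tendsto' (by unfold ie; fun_prop) _ _ (by simp [ie])),
      eventually_mem_nhdsWithin.mono fun t ht => TV.mono (le_of_lt ht) (ie_mem t)⟩
  have c2 := (tendsto_const_nhds (x := x)).inner (𝕜 := ℂ)
    ((hE.cont (r.Ψ Y) 0 (by simp [TV])).tendsto.comp c1)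
  rw [hE.zero] at c2
  exact tendsto_nhds_unique c2 (tendsto_const_nhds.congr'
    (eventually_mem_nhdsWithin.mono fun t ht => (key t ht).symm))

/-- the field in front of a state -/
def F (R : ℝ) (X : P) : N.loc (Hs 0 0) →ₗ[ℂ] H :=
  r.Ψ ∘ₗ LinearMap.mulLeft ℂ (N.τ (R • e0) X) ∘ₗ (N.τ ((2 * R) • e0)).toLinearMap ∘ₗ
    (N.loc (Hs 0 0)).subtype

/-- its extension -/
def Op [CompleteSpace H] (R : ℝ) (X : P) : H →L[ℂ] H :=
  (F r R X).extendOfNorm (r.Ψ ∘ₗ (N.loc (Hs 0 0)).subtype)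

theorem mem (R0 : 0 ≤ R) (hX : X ∈ N.loc (Bx R)) (hZ : Z ∈ N.loc (Hs 0 0)) :
    N.τ (R • e0) X * N.τ ((2 * R) • e0) Z ∈ N.loc (Hs 0 0) :=
  N.mono (N.mul (N.τ_mem _ hX) (N.τ_mem _ hZ) (disjoint_left.2 fun y e e' => by
    have := (abs_lt.1 (e 0)).2
    simp [Hs] at this e'
    linarith)) fun y e => by
    rcases e with e | e
    · simpa [Hs] using (abs_lt.1 (e 0)).1
    · simp [Hs] at e ⊢
      linarith

theorem mem2 (R0 : 0 ≤ R) (hY : Y ∈ N.loc (Hs 0 0)) (hZ : Z ∈ N.loc (Hs 0 0)) :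
    N.Θ 0 (N.τ (R • e0) Y) * N.τ (R • e0) Z ∈ N.loc (Bx R)ᶜ :=
  N.mono (N.mul (N.Θ_mem 0 (N.τ_mem _ hY)) (N.τ_mem _ hZ) (disjoint_left.2 fun y e e' => by
    simp [Hs] at e e'
    linarith)) fun y e e' => by
    have := abs_lt.1 (e' 0)
    rcases e with e | e <;> simp [Hs] at e <;> linarith [this.1, this.2]

theorem inn_F (hS : N.St S) (R0 : 0 ≤ R) (hX : X ∈ N.loc (Bx R)) (Y Z : N.loc (Hs 0 0)) :
    inner ℂ (r.Ψ Y) (F r R X Z) = S (X * (N.Θ 0 (N.τ (R • e0) Y) * N.τ (R • e0) Z)) := by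
  have h := mem R0 hX Z.2
  change inner ℂ _ (r.Ψ (_ * N.τ _ Z)) = _
  have e1 : -(R • e0) + (2 * R) • e0 = R • e0 := by module
  have e2 : rf 0 (R • e0) = -(R • e0) := by rw [← neg_smul, smul_e0, smul_e0, rf_ax]
  rw [r.inn Y.2 h, ← hS.ti (-(R • e0)) (Net.rp_adm Y.2 h), N.Θ_τ, e2]
  simp only [map_mul, N.τ_τ, neg_add_cancel, N.τ_zero, e1]
  rw [mul_left_comm]

theorem adj_F (hS : N.St S) (R0 : 0 ≤ R) (hX : X ∈ N.loc (Bx R)) (Y Z : N.loc (Hs 0 0)) :
    inner ℂ (F r R X Y) (r.Ψ Z) = inner ℂ (r.Ψ Y) (F r R (N.Θ 0 X) Z) := by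
  rw [← inner_conj_symm, inn_F r hS R0 hX, inn_F r hS R0 (Net.Θ_bx hX 0), ← hS.herm 0
    (Net.adm (N.mul hX (mem2 R0 Z.2 Y.2) disjoint_compl_right)), map_mul (N.Θ 0),
    map_mul (N.Θ 0), N.Θ_Θ, mul_comm (N.τ _ _)]

variable [CompleteSpace H] (hS : N.St S)
  (hD : Dense {y | ∃ b ∈ N.loc (Ot 0), r.Ψ (N.τ (R • nn) b) = y}) (h : N.QB S X R c)
include hS hD h

theorem bd_F (Z : N.loc (Hs 0 0)) : ‖F r R X Z‖ ≤ c * ‖r.Ψ Z‖ := by
  obtain ⟨hX, R0, c0, -⟩ := id h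
  have h1 : ∀ Y : N.loc (Hs 0 0), ‖F r R (N.Θ 0 X) Y‖ ≤ c * ‖r.Ψ Y‖ := fun Y => by
    refine le_of_dense hD (by positivity) ?_
    rintro _ ⟨b, hb, rfl⟩
    have hb' := N.mono hb (Ot.hs 0 le_rfl)
    have m := Net.τ_hs (v := R • nn) (t' := 0) hb' (by simp [nn_zero])
    have e1 := r.le (v := -(R • nn)) (by simp [nn_zero]) m
    rw [N.τ_τ, neg_add_cancel, N.τ_zero] at e1
    have e2 := h.rep r hb
    rw [map_mul, N.τ_τ, ← smul_e0, show R • e0 + dg R = (2 * R) • e0 + R • nn by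
      ext l; simp [nn]; ring, ← N.τ_τ] at e2
    rw [← adj_F r hS R0 hX ⟨_, m⟩ Y, mul_right_comm]
    exact (norm_inner_le_norm _ _).trans (mul_le_mul_of_nonneg_right
      (e2.trans (mul_le_mul_of_nonneg_left e1 c0)) (norm_nonneg _))
  refine le_of_dense r.dense (by positivity) ?_
  rintro _ ⟨Y, rfl⟩
  rw [← N.Θ_Θ 0 X, ← adj_F r hS R0 (Net.Θ_bx hX 0), mul_right_comm]
  exact (norm_inner_le_norm _ _).trans (mul_le_mul_of_nonneg_right (h1 Y) (norm_nonneg _))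

theorem Op_eq (Z : N.loc (Hs 0 0)) : Op r R X (r.Ψ Z) = F r R X Z :=
  LinearMap.extendOfNorm_eq r.dense ⟨c, bd_F r hS hD h⟩ Z

theorem Op_le : ‖Op r R X‖ ≤ c :=
  LinearMap.opNorm_extendOfNorm_le r.dense h.2.2.1 (bd_F r hS hD h)

omit hS hD h in
theorem ext {A B : H →L[ℂ] H} (e : ∀ Z : N.loc (Hs 0 0), A (r.Ψ Z) = B (r.Ψ Z)) : A = B :=
  ContinuousLinearMap.ext fun x => r.dense.induction_on (p := fun x => A x = B x) x
    (isClosed_eq (by fun_prop) (by fun_prop)) e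

end B1

open B1

theorem sB1_of : S_B1 := by
  rintro H _ _ _ W r E hS hL ⟨K, C, s, K1, C0, hQ⟩ hE hT
  have q : ∀ d ∈ Ioc (0 : ℝ) 1, ∀ g, C1 (Bx d) g → ∃ c, net.QB W (X g) (K * d) c :=
    fun d hd g hg => (hg.2.1.lipschitzWith_of_hasCompactSupport hg.1 one_ne_zero).elim
      fun L e => ⟨_, hQ d hd g L hg e⟩
  have act : ∀ d ∈ Ioc (0 : ℝ) 1, ∀ g, C1 (Bx d) g → ∀ Z : net.loc (Hs 0 0),
      Op r (K * d) (X g) (r.Ψ Z) = F r (K * d) (X g) Z := fun d hd g hg Z =>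
    (q d hd g hg).elim fun _ e => Op_eq r hS (rs r hE hT _) e Z
  have bx : ∀ d ∈ Ioc (0 : ℝ) 1, ∀ g, C1 (Bx d) g → X g ∈ net.loc (Bx (K * d)) ∧ 0 ≤ K * d :=
    fun d hd g hg => (q d hd g hg).elim fun _ e => ⟨e.1, e.2.1⟩
  refine ⟨fun d g => Op r (K * d) (X g), K, ⟨K1, fun d hd g g' t hg hg' => ?_,
    ⟨C, s, C0, fun d hd g L hg e => Op_le r hS (rs r hE hT _) (hQ d hd g L hg e)⟩,
    fun d hd d' hd' g u a b a' b' hg hg' ha hb ha' hb' e e' => ?_, fun d hd g hg x y => ?_⟩,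
    fun d hd g hg Z hZ => ?_⟩
  · have h2 : C1 (Bx d) (g + t • g') := ⟨hg.1.add hg'.1.smul_left, hg.2.1.add (hg'.2.1.const_smul t),
      (tsupport_add _ _).trans (union_subset hg.2.2 ((tsupport_smul_subset_right (fun _ => t) g').trans
        hg'.2.2))⟩
    refine ext r fun Z => r.dense.eq_of_inner_right ℂ fun Y => ?_
    have R0 := (bx d hd g hg).2
    rw [add_apply, smul_apply, act d hd _ h2,
      act d hd _ hg, act d hd _ hg', inner_add_right, inner_smul_right,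
      inn_F r hS R0 (bx d hd _ h2).1, inn_F r hS R0 (bx d hd _ hg).1,
      inn_F r hS R0 (bx d hd _ hg').1]
    exact hL g g' t hg.1 hg.2.1 hg'.1 hg'.2.1 _ (net.mono (mem2 R0 Y.2 Z.2) (compl_subset_compl.2
      ((union_subset hg.2.2 hg'.2.2).trans (Bx.mono (le_mul_of_one_le_left hd.1.le K1)))))
  · refine ext r fun Z => ?_
    have m := Net.τ_hs (v := b) (t' := 0) Z.2 (by linarith)
    have m' := Net.τ_hs (v := b') (t' := 0) Z.2 (by linarith)
    change E _ (Op _ _ _ (E _ _)) = E _ (Op _ _ _ (E _ _))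
    rw [hT _ ha, hT _ hb, hT _ ha', hT _ hb', r.act hb Z.2, r.act hb' Z.2, act d hd g hg ⟨_, m⟩,
      act d' hd' _ hg' ⟨_, m'⟩]
    refine (r.act ha (mem (bx d hd g hg).2 (bx d hd g hg).1 m)).trans
      (.trans ?_ (r.act ha' (mem (bx d' hd' _ hg').2 (bx d' hd' _ hg').1 m')).symm)
    rw [show (X fun y => g (y - u) : Pol) = net.τ u (X g) from
      (rename_X (fun (f : R4 → ℝ) y => f (y - u)) g).symm]
    simp only [map_mul, net.τ_τ]
    rw [e, add_assoc a', show a + ((2 * (K * d)) • e0 + b) = a' + ((2 * (K * d')) • e0 + b') by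
      linear_combination (norm := module) e + e']
  · have h2 : C1 (Bx d) fun u => g (rf 0 u) := by
      have := adm_rf (f := fun _ : Fin 1 => g) ⟨fun _ => ⟨hg.1, hg.2.1⟩, fun i j e =>
        absurd (Subsingleton.elim i j) e⟩ 0
      exact ⟨(this.1 0).1, (this.1 0).2, fun y hy l => (abs_rf 0 l y).symm.trans_lt
        (hg.2.2 (tsupport_comp (rfL_eq 0 ▸ (rfL 0).continuous) hy) l)⟩
    refine r.dense.induction_on₂ (p := fun x y => inner ℂ (Op r (K * d) (X g) x) y =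
      inner ℂ x (Op r (K * d) (X fun u => g (rf 0 u)) y))
      (isClosed_eq (by fun_prop) (by fun_prop)) (fun Y Z => ?_) x y
    rw [act d hd g hg, act d hd _ h2, adj_F r hS (bx d hd g hg).2 (bx d hd g hg).1]
    congr 2
    simp [net, thP]
  · rw [mul_assoc]
    exact act d hd g hg ⟨Z, hZ⟩

end Pool.Agent.Lib.MP_7f377f_mp.Wm
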