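import Pool.Agent.Lib.MP_7f377f_mp.G.WmSpecB

/-! Stage 14: fields smeared in a slab. -/

noncomputable section

namespace Pool.Agent.Lib.MP_7f377f_mp.Wm
variable [Pool.Agent.Lib.MP_7f377f_mp.GD]
set_option linter.unusedSectionVars false

open MeasureTheory Filter Topology Set Complex YM7 Pur Lg MvPolynomial Metric
open scoped Manifold

namespace B2

theorem mul_c1 {O V : Set R4} {g χ : R4 → ℝ} (hg : C1 O g) (h1 : ContDiff ℝ 1 χ)
    (h2 : ∀ᶠ x in 𝓝ˢ (tsupport g \ V), χ x = 0) : C1 (O ∩ V) fun y => χ y * g y := by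
  refine ⟨hg.1.mul_left, h1.mul hg.2.1, fun y hy => ?_⟩
  have e := tsupport_mul_subset_right hy
  refine ⟨hg.2.2 e, by_contra fun c => ?_⟩
  exact notMem_tsupport_iff_eventuallyEq.2 (h2.filter_mono (nhds_le_nhdsSet (mem_sdiff_of_mem e c)))
    (tsupport_mul_subset_left hy)

/-- from small supports to all supports -/
theorem pu {O : Set R4} {P : (R4 → ℝ) → Prop} (h0 : P 0)
    (h1 : ∀ g g', C1 O g → C1 O g' → P g → P g' → P (g + g'))
    (h2 : ∀ x ∈ O, ∃ ε > 0, ∀ g, C1 (O ∩ ball x ε) g → P g) {g : R4 → ℝ} (hg : C1 O g) : P g := by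
  have key : ∃ V, IsOpen V ∧ tsupport g ⊆ V ∧ ∀ g, C1 (O ∩ V) g → P g := by
    refine IsCompact.induction_on (p := fun s => ∃ V, IsOpen V ∧ s ⊆ V ∧
      ∀ g, C1 (O ∩ V) g → P g) hg.1 ⟨∅, isOpen_empty, le_rfl, fun g e => ?_⟩
      (fun s t e ⟨V, v1, v2, v3⟩ => ⟨V, v1, e.trans v2, v3⟩) ?_ fun x hx => ?_
    · rwa [tsupport_eq_empty_iff.1 (subset_empty_iff.1 fun y hy => (e.2.2 hy).2)]
    · rintro s t ⟨V, v1, v2, v3⟩ ⟨V', w1, w2, w3⟩
      refine ⟨V ∪ V', v1.union w1, union_subset_union v2 w2, fun g e => ?_⟩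
      obtain ⟨χ, c1, c2, -⟩ := exists_contMDiffMap_zero_one_nhds_of_isClosed (n := 1) 𝓘(ℝ, R4)
        ((isClosed_tsupport g).sdiff v1) ((isClosed_tsupport g).sdiff w1)
        (disjoint_left.2 fun y a b => (e.2.2 a.1).2.elim a.2 b.2)
      have e' : C1 O g := ⟨e.1, e.2.1, e.2.2.trans inter_subset_left⟩
      have a1 := mul_c1 e' χ.contMDiff.contDiff c1
      have a2 := mul_c1 (χ := fun y => 1 - χ y) e' (contDiff_const.sub χ.contMDiff.contDiff)
        (c2.mono fun y hy => by rw [hy, sub_self])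
      convert h1 _ _ ⟨a1.1, a1.2.1, a1.2.2.trans inter_subset_left⟩
        ⟨a2.1, a2.2.1, a2.2.2.trans inter_subset_left⟩ (v3 _ a1) (w3 _ a2) using 1
      funext y
      simp only [Pi.add_apply]
      ring
    · obtain ⟨ε, ε0, h⟩ := h2 x (hg.2.2 hx)
      exact ⟨_, mem_nhdsWithin_of_mem_nhds (ball_mem_nhds x ε0), _, isOpen_ball, le_rfl, h⟩
  obtain ⟨V, -, v2, v3⟩ := key
  exact v3 g ⟨hg.1, hg.2.1, subset_inter hg.2.2 v2⟩

theorem integ {Y : Type} [NormedAddCommGroup Y] [NormedSpace ℂ Y] {O : Set R4} (hO : IsOpen O)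
    {g : R4 → ℝ} (hg : C1 O g) {G : R4 → Y} (hG : ContinuousOn G O) :
    Integrable fun y => (g y : ℂ) • G y := by
  have s : tsupport (fun y => (g y : ℂ) • G y) ⊆ tsupport g :=
    closure_mono fun y hy e => hy (by simp [e])
  exact (((continuous_ofReal.comp hg.2.1.continuous).continuousOn.smul
    hG).continuous_of_tsupport_subset hO (s.trans hg.2.2)).integrable_of_hasCompactSupport
    (hg.1.of_isClosed_subset (isClosed_tsupport _) s)

theorem isOpen_Bx (R : ℝ) : IsOpen (Bx R) := by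
  have : Bx R = ⋂ l, {y : R4 | |y l| < R} := by ext; simp [Bx]
  exact this ▸ isOpen_iInter_of_finite fun l => isOpen_lt (by fun_prop) continuous_const

theorem τ_X (v : R4) (g : R4 → ℝ) : net.τ v (X g) = X fun y => g (y - v) := rename_X _ _

variable {H : Type} [NormedAddCommGroup H] [InnerProductSpace ℂ H] {E : C4 → H →L[ℂ] H}
  {A : C4 → C4 → H →L[ℂ] H}

theorem cont (hA : Pt E A) {O : Set R4} {z w : R4 → C4} (hz : Continuous z) (hw : Continuous w)
    (h : ∀ y ∈ O, z y ∈ TO ∧ w y ∈ TO) (x : H) : ContinuousOn (fun y => A (z y) (w y) x) O :=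
  (hA.hol.continuousOn.comp (hz.prodMk hw).continuousOn h).clm_apply continuousOn_const

end B2

open B2 in
theorem sB2_of : S_B2 := by
  intro H _ _ _ W r E M K A hS hL hE hT K1 hM hA hD b g b0 hg Z hZ
  set O : Set R4 := {y | 0 < y 0 ∧ y 0 < b}
  have oO : IsOpen O := isOpen_Ioo.preimage (f := fun y : R4 => y 0) (by fun_prop)
  have z1 : net.τ (b • e0) Z ∈ net.loc (Hs 0 b) := Net.τ_hs hZ (by simp)
  have m : ∀ {g}, C1 O g → X g * net.τ (b • e0) Z ∈ net.loc (Hs 0 0) := fun hg =>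
    net.mono (net.mul (PN.Gd.mem hg) z1 (disjoint_left.2 fun y e e' => e.2.not_gt e'))
      (union_subset (fun _ e => e.1) fun _ e => b0.trans e)
  have add : ∀ {g g'}, C1 O g → C1 O g' → r.Ψ (X (g + g') * net.τ (b • e0) Z) =
      r.Ψ (X g * net.τ (b • e0) Z) + r.Ψ (X g' * net.τ (b • e0) Z) := fun {g g'} h h' => by
    refine r.dense.eq_of_inner_right ℂ fun Y => ?_
    have e := hL g g' 1 h.1 h.2.1 h'.1 h'.2.1 _ (net.mono (net.mul (net.Θ_mem 0 Y.2) z1
      (disjoint_left.2 fun y e e' => ?_)) (union_subset (fun y e c => ?_) fun y e c => ?_))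
    · have h'' := PN.Gd.comb h h' 1
      rw [one_smul] at e h''
      rw [inner_add_right, r.inn Y.2 (m h''), r.inn Y.2 (m h), r.inn Y.2 (m h'), mul_left_comm, e,
        mul_left_comm _ (X g), mul_left_comm _ (X g'), ofReal_one, one_mul]
    · simp only [Hs, mem_ofPred_eq, rf_self] at e e'
      linarith
    · simp only [Hs, mem_ofPred_eq, rf_self] at e
      linarith [(union_subset h.2.2 h'.2.2 c).1]
    · exact (union_subset h.2.2 h'.2.2 c).2.not_gt e
  have c := cont hA (O := O) (z := euc) (w := fun y => euc (b • e0 - y)) (by fun_prop) (by fun_prop)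
    (fun y hy => ⟨TV.to hy.1 (euc_mem y), TV.to (by simpa using hy.2) (euc_mem _)⟩) (r.Ψ Z)
  refine pu (P := fun g => r.Ψ (X g * net.τ (b • e0) Z) =
    ∫ y, (g y : ℂ) • A (euc y) (euc (b • e0 - y)) (r.Ψ Z)) ?_ (fun g g' h h' e e' => ?_)
    (fun x hx => ?_) hg
  · have := add (PN.Gd.zero O) (PN.Gd.zero O)
    rw [add_zero, left_eq_add] at this
    simpa using this
  · rw [add h h', e, e', ← integral_add (integ oO h c) (integ oO h' c)]
    simp [add_smul]
  obtain ⟨d, d0, d1, d2, d3⟩ : ∃ d : ℝ, 0 < d ∧ d ≤ 1 ∧ (K + 1) * d ≤ x 0 ∧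
      (K + 1) * d ≤ b - x 0 := by
    have k : 0 < K + 1 := by linarith
    refine ⟨min 1 (min (x 0) (b - x 0) / (K + 1)), lt_min one_pos
      (div_pos (lt_min hx.1 (sub_pos.2 hx.2)) k), min_le_left _ _, le_min_iff.1 ?_⟩
    exact (le_div_iff₀' k).1 (min_le_right _ _)
  refine ⟨d / 32, by positivity, fun g hg => ?_⟩
  have h1 : C1 (Bx (d / 32)) fun y => g (y + x) :=
    ⟨hg.1.comp_homeomorph (Homeomorph.addRight x), hg.2.1.comp (by fun_prop), fun y hy l =>
      (PiLp.norm_apply_le y l).trans_lt (by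
        simpa using (hg.2.2 (tsupport_comp (θ := fun y => y + x) (by fun_prop) hy)).2)⟩
  have h2 : C1 (Bx d) fun y => g (y + x) := ⟨h1.1, h1.2.1, h1.2.2.trans (Bx.mono (by linarith))⟩
  have kd : d ≤ K * d := le_mul_of_one_le_left d0.le K1
  obtain ⟨p, hp⟩ : ∃ p, p = b • e0 - x - ((K + 1) * d) • e0 := ⟨_, rfl⟩
  obtain ⟨q, hq⟩ : ∃ q, q = x - ((K + 1) * d) • e0 := ⟨_, rfl⟩
  have p0 : 0 ≤ p 0 := by simpa [hp]
  have q0 : 0 ≤ q 0 := by simpa [hq]
  have i0 : 0 ≤ (d • e0) 0 := by simpa using d0.le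
  have z2 : net.τ (d • e0) (net.τ p Z) ∈ net.loc (Hs 0 0) :=
    Net.τ_hs (Net.τ_hs hZ (by simpa)) (by simpa using d0.le)
  have z3 : net.τ ((K * d) • e0) (X fun y => g (y + x)) * net.τ ((2 * K * d) • e0)
      (net.τ (d • e0) (net.τ p Z)) ∈ net.loc (Hs 0 0) := by
    refine net.mono (net.mul (net.τ_mem _ (PN.Gd.mem h2)) (Net.τ_hs (t' := 2 * K * d) z2 (by simp))
      (disjoint_left.2 fun y e e' => ?_)) (union_subset (fun y e => ?_) fun y e => ?_)
    · have := (abs_lt.1 (e 0)).2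
      simp only [Hs, mem_ofPred_eq, PiLp.sub_apply, PiLp.smul_apply, e0_zero, smul_eq_mul] at this e'
      linarith
    · have := (abs_lt.1 (e 0)).1
      simp only [Hs, mem_ofPred_eq, PiLp.sub_apply, PiLp.smul_apply, e0_zero, smul_eq_mul] at this ⊢
      linarith
    · exact lt_of_le_of_lt (show (0 : ℝ) ≤ 2 * K * d by linarith) e
  have t : ∀ y ∈ Bx (d / 32), ie ((K + 1) * d) + euc y ∈ TO ∧ ie ((K + 1) * d) - euc y ∈ TO :=
    fun y hy => by
      have := abs_lt.1 (hy 0)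
      rw [ie, ← euc_add, ← euc_sub]
      exact ⟨TV.to (by simp; linarith) (euc_mem _), TV.to (by simp; linarith) (euc_mem _)⟩
  have e := congrArg (E (euc q)) (hD d ⟨d0, d1⟩ _ h1 (E (euc p) (r.Ψ Z)))
  rw [← (E (euc q)).integral_comp_comm (integ (isOpen_Bx _) h1
      (cont hA (by fun_prop) (by fun_prop) t _)), ie, hT p p0, hT _ i0, r.act p0 hZ,
    r.act i0 (Net.τ_hs hZ (by simpa)), hM d ⟨d0, d1⟩ _ h2 _ z2, r.act i0 z3, hT q q0,
    r.act q0 (Net.τ_hs z3 (by simpa using d0.le)), map_mul, map_mul] at e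
  simp only [net.τ_τ] at e
  rw [show q + (d • e0 + (K * d) • e0) = x by rw [hq]; module,
    show q + (d • e0 + ((2 * K * d) • e0 + (d • e0 + p))) = b • e0 by rw [hq, hp]; module,
    τ_X] at e
  simp only [sub_add_cancel] at e
  rw [e, eq_comm, ← integral_add_right_eq_self _ x]
  refine integral_congr_ae (.of_forall fun y => ?_)
  by_cases g0 : g (y + x) = 0
  · simp [g0]
  obtain ⟨t1, t2⟩ := t y (h1.2.2 (subset_tsupport _ g0))
  have u1 := TV.mono p0 (euc_mem p)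
  simp only [map_smul, ← hT q q0, ← r.act p0 hZ, ← hT p p0, ← mul_apply_eq_comp,
    (hA.cov _ t1 _ t2 _ u1).2, (hA.cov _ t1 _ (TO.add t2 u1) _ (TV.mono q0 (euc_mem q))).1]
  simp only [ie, ← euc_add, ← euc_sub]
  congr 4
  · rw [hq]; module
  · rw [hp]; module

end Pool.Agent.Lib.MP_7f377f_mp.Wm
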