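import Pool.Agent.Lib.MP_7f377f_mp.G.WmSpec
import Pool.Agent.Lib.MP_7f377f_mp.S10KA
import Pool.Agent.Lib.MP_7f377f_mp.KitHol

/-! Stage 14: tools of complex analysis. -/

noncomputable section

namespace Pool.Agent.Lib.MP_7f377f_mp.Wm
variable [Pool.Agent.Lib.MP_7f377f_mp.GD]
set_option linter.unusedSectionVars false

open MeasureTheory Filter Topology Set Complex YM7 Metric
open scoped ContDiff

variable {V X : Type} [NormedAddCommGroup V] [NormedSpace ℂ V] [NormedAddCommGroup X]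
  [NormedSpace ℂ X] [CompleteSpace X]
  {H : Type} [NormedAddCommGroup H] [InnerProductSpace ℂ H] [CompleteSpace H]

/-- Schwarz lemma in several variables -/
theorem lip_hol {f : V → X} {x : V} {r M : ℝ} (hf : DifferentiableOn ℂ f (ball x r))
    (hM : ∀ y ∈ ball x r, ‖f y‖ ≤ M) {y : V} (hy : y ∈ ball x r) :
    ‖f y - f x‖ ≤ 2 * M / r * ‖y - x‖ := by
  simpa only [dist_eq_norm] using dist_le_div_mul_dist_of_mapsTo_ball hf (R₂ := 2 * M)
    (fun z hz => mem_closedBall_iff_norm.2 ((norm_sub_le _ _).trans (by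
      linarith [hM z hz, hM x (mem_ball_self (pos_of_mem_ball hy))]))) hy

namespace Tool

/-- balls -/
def dom (V : Type) [NormedAddCommGroup V] [NormedSpace ℂ V] {ρ : ℝ} (h : 0 < ρ) : Kit.Dom V where
  D θ := {B | ‖B‖ ≤ θ * ρ}
  smul c _ _ hB := (norm_smul c _).trans_le
    ((mul_le_mul_of_nonneg_left hB (norm_nonneg c)).trans_eq (mul_assoc _ _ _).symm)
  add h1 h2 := (norm_add_le _ _).trans ((add_le_add h1 h2).trans_eq (add_mul _ _ _).symm)
  mono h1 h2 := le_trans h2 (mul_le_mul_of_nonneg_right h1 h.le)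

omit [CompleteSpace X] in
theorem core [FiniteDimensional ℂ V] {k : V → X} {ρ M : ℝ} (r0 : 0 < ρ)
    (h : ∀ y, ‖y‖ ≤ ρ → ‖k y‖ ≤ M ∧ ∀ v, DifferentiableAt ℂ (fun t : ℂ => k (y + t • v)) 0) :
    DifferentiableAt ℂ k 0 := by
  have hL : (dom V r0).LH k := fun B δ S _ hS t ht => by
    have := DifferentiableAt.comp (g := fun s : ℂ => k (B + t • δ + s • δ)) (f := fun s => s - t) t
      (by rw [sub_self]; exact (h _ ((one_mul ρ).subst (hS t ht))).2 δ) (by fun_prop)
    refine (this.congr_of_eventuallyEq (.of_forall fun s => ?_)).differentiableWithinAt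
    simp only [Function.comp, sub_smul, add_add_sub_cancel]
  have hM : ∀ B ∈ (dom V r0).D 1, ‖k B‖ ≤ M := fun B hB => (h B ((one_mul ρ).subst hB)).1
  have m : ∀ B, B ∈ (dom V r0).D (‖B‖ / ρ) := fun B => (div_mul_cancel₀ _ r0.ne').ge
  let D : V →L[ℂ] X := LinearMap.toContinuousLinearMap
    ⟨⟨fun v => deriv (fun t : ℂ => k (t • v)) 0, fun v w => hL.deriv_add hM
      ((dom V r0).mono (le_max_left _ _) (m v)) ((dom V r0).mono (le_max_right _ _) (m w))⟩,
      fun c v => by
        have := deriv_comp_mul_left c (fun t : ℂ => k (t • v)) 0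
        rw [mul_zero] at this
        simpa only [mul_comm c, mul_smul, RingHom.id_apply] using this⟩
  have q : ∀ᶠ B in 𝓝 (0 : V), ‖k B - k 0 - D B‖ ≤ (M + M + ‖D‖ * ρ) / ρ ^ 2 * ‖‖B‖ ^ 2‖ := by
    filter_upwards [closedBall_mem_nhds 0 r0] with B hB
    rcases eq_or_ne B 0 with rfl | h0
    · simp
    have := (hL.sub (k' := D) fun B δ S _ _ => by fun_prop).sq (M := M + M + ‖D‖ * ρ)
      (fun B hB => by
        rw [map_zero, sub_zero, sub_right_comm]
        exact (norm_sub_le _ _).trans (add_le_add ((norm_sub_le _ _).trans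
          (add_le_add (hM B hB) (h 0 (by simpa using r0.le)).1))
          (D.le_opNorm_of_le ((one_mul ρ).subst hB)))) (m B) (by positivity)
      ((div_le_one r0).2 (mem_closedBall_zero_iff.1 hB)) (by
        simp only [map_smul]
        exact ((hL.diffAt (m B)).hasDerivAt.sub ((hasDerivAt_id' (0 : ℂ)).smul_const
          (D B))).deriv.trans (by rw [one_smul]; exact sub_self _))
    rw [map_zero, sub_zero, sub_right_comm, div_pow] at this
    exact this.trans_eq (by rw [norm_pow, norm_norm]; ring)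
  refine HasFDerivAt.differentiableAt (f' := D) (hasFDerivAt_iff_isLittleO_nhds_zero.2 ?_)
  simp only [zero_add]
  exact (Asymptotics.IsBigO.of_bound _ q).trans_isLittleO
    (Asymptotics.isLittleO_norm_pow_id one_lt_two)

omit [CompleteSpace X] in
theorem osg' [FiniteDimensional ℂ V] {U : Set V} (hU : IsOpen U) {f : V → X}
    (hc : ∀ x ∈ U, ∃ M, ∀ᶠ y in 𝓝 x, ‖f y‖ ≤ M)
    (h : ∀ x ∈ U, ∀ v, DifferentiableAt ℂ (fun t : ℂ => f (x + t • v)) 0) :
    DifferentiableOn ℂ f U := fun x hx => by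
  obtain ⟨M, hM⟩ := hc x hx
  obtain ⟨ρ, r0, hr⟩ := nhds_basis_closedBall.eventually_iff.1 (hM.and (hU.mem_nhds hx))
  have := core (k := fun y => f (x + y)) (M := M) r0 fun y hy => by
    have := hr (show x + y ∈ closedBall x ρ by simpa using hy)
    exact ⟨this.1, fun v => by simpa only [add_assoc] using h _ this.2 v⟩
  simpa using ((differentiableAt_comp_add_left x).1 this).differentiableWithinAt (s := U)

theorem line_mem {U : Set V} (hU : IsOpen U) {x : V} (hx : x ∈ U) (v : V) :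
    IsOpen {t : ℂ | x + t • v ∈ U} ∧ {t : ℂ | x + t • v ∈ U} ∈ 𝓝 0 :=
  have o : IsOpen {t : ℂ | x + t • v ∈ U} := hU.preimage (f := fun t : ℂ => x + t • v) (by fun_prop)
  ⟨o, o.mem_nhds (by simpa using hx)⟩

theorem line [NormedSpace ℝ V] [IsScalarTower ℝ ℂ V] {U : Set V} (hU : IsOpen U) (hc : Convex ℝ U)
    {f g : V → X} (hf : DifferentiableOn ℂ f U) (hg : DifferentiableOn ℂ g U) {p : V} (hp : p ∈ U)
    {v : V} (h : ∀ᶠ t : ℝ in 𝓝 0, f (p + (t : ℂ) • v) = g (p + (t : ℂ) • v)) {s : ℂ}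
    (hs : p + s • v ∈ U) : f (p + s • v) = g (p + s • v) :=
  S10.id_line (f := fun s => f (p + s • v)) (g := fun s => g (p + s • v)) (line_mem hU hp v).1
    (Convex.isPreconnected fun a ha b hb x y hx hy e => by
      have := hc ha hb hx hy e
      rwa [smul_add, smul_add, add_add_add_comm, ← add_smul, e, one_smul, ← smul_assoc,
        ← smul_assoc, ← add_smul] at this)
    (hf.comp (by fun_prop) fun _ h => h) (hg.comp (by fun_prop) fun _ h => h) (z := 0)
    (by simpa using hp) one_ne_zero (by simpa using h.filter_mono nhdsWithin_le_nhds) hs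

theorem holo [NormedSpace ℝ X] {Y : Type} [MeasurableSpace Y] {ν : Measure Y} {f : ℂ → Y → X}
    {S : Set ℂ} (hn : S ∈ 𝓝 0) {b : Y → ℝ} (hb : Integrable b ν)
    (hm : ∀ t ∈ S, AEStronglyMeasurable (f t) ν)
    (hd : ∀ᵐ a ∂ν, DifferentiableOn ℂ (fun t => f t a) S ∧ ∀ t ∈ S, ‖f t a‖ ≤ b a) :
    DifferentiableAt ℂ (fun t => ∫ a, f t a ∂ν) 0 := by
  obtain ⟨r, r0, hr⟩ := Metric.mem_nhds_iff.1 hn
  have h0 := mem_of_mem_nhds hn
  have m' : AEStronglyMeasurable (fun a => deriv (fun t => f t a) 0) ν := by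
    obtain ⟨u, ut⟩ := exists_seq_tendsto (𝓝[≠] (0 : ℂ))
    obtain ⟨N, hN⟩ := eventually_atTop.1 (ut.eventually (mem_nhdsWithin_of_mem_nhds hn))
    refine aestronglyMeasurable_of_tendsto_ae atTop
      (f := fun n a => slope (fun t => f t a) 0 (u (n + N))) (fun n => ?_) ?_
    · exact ((hm _ (hN _ (Nat.le_add_left _ _))).sub (hm _ h0)).const_smul _
    · filter_upwards [hd] with a h
      exact ((hasDerivAt_iff_tendsto_slope.1 (h.1.differentiableAt hn).hasDerivAt).comp ut).comp
        (tendsto_add_atTop_nat N)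
  refine (hasDerivAt_integral_of_dominated_loc_of_lip (s := ball 0 (r / 2))
    (bound := fun a => 2 * b a / (r / 2)) (ball_mem_nhds _ (by positivity))
    (mem_of_superset hn hm) ?_ m' ?_ ((hb.const_mul _).div_const _) ?_).2.differentiableAt
  · exact hb.mono' (hm _ h0) (hd.mono fun a h => h.2 _ h0)
  · filter_upwards [hd] with a h
    have hb : ∀ t ∈ ball (0 : ℂ) (r / 2), ball t (r / 2) ⊆ ball 0 r := fun t ht =>
      ball_subset_ball' (by rw [mem_ball] at ht; linarith)
    have c := fun t ht => hb t ht (mem_ball_self (half_pos r0))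
    refine (convex_ball _ _).lipschitzOnWith_of_nnnorm_deriv_le (𝕜 := ℂ) (fun t ht =>
      (h.1.mono hr).differentiableAt (isOpen_ball.mem_nhds (c t ht))) fun t ht => ?_
    rw [← NNReal.coe_le_coe, coe_nnnorm, Real.coe_nnabs]
    refine (Complex.norm_deriv_le_div_of_mapsTo_ball (h.1.mono ((hb t ht).trans hr))
      (fun s hs => ?_) (by positivity)).trans (le_abs_self _)
    rw [mem_closedBall_iff_norm]
    linarith [norm_sub_le (f s a) (f t a), h.2 s (hr (hb t ht hs)), h.2 t (hr (c t ht))]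
  · exact hd.mono fun a h => (h.1.differentiableAt hn).hasDerivAt

theorem pt [NormedSpace ℝ X] [IsScalarTower ℝ ℂ X] {Y : Type} [MetricSpace Y] [ProperSpace Y]
    [MeasureSpace Y] [BorelSpace Y] [IsFiniteMeasureOnCompacts (volume : Measure Y)] {G G' : Y → X}
    {y : Y} {r : ℝ} (r0 : 0 < r) (hG : ContinuousOn G (ball y r)) (hG' : ContinuousOn G' (ball y r))
    (h : ∀ δ ∈ Ioo 0 r, ∃ φ : Y → ℝ, Continuous φ ∧ (∀ x, 0 ≤ φ x) ∧ ∫ x, φ x = 1 ∧
      Function.support φ ⊆ closedBall y δ ∧ ∫ x, (φ x : ℂ) • G x = ∫ x, (φ x : ℂ) • G' x) :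
    G y = G' y := by
  refine eq_of_forall_dist_le fun ε e0 => ?_
  have c : ∀ {G : Y → X}, ContinuousOn G (ball y r) → ∀ᶠ x in 𝓝 y, ‖G x - G y‖ ≤ ε / 2 := fun hG =>
    (hG.continuousAt (ball_mem_nhds y r0)).eventually (closedBall_mem_nhds _ (half_pos e0)) |>.mono
      fun _ => mem_closedBall_iff_norm.1
  obtain ⟨δ, d0, hd⟩ := nhds_basis_closedBall.eventually_iff.1 ((c hG).and (c hG'))
  have d1 : min δ (r / 2) < r := min_lt_of_right_lt (half_lt_self r0)
  obtain ⟨φ, p1, p2, p3, p4, p5⟩ := h (min δ (r / 2)) ⟨by positivity, d1⟩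
  have i : Integrable φ := .of_integral_ne_zero (p3 ▸ one_ne_zero)
  have a : ∀ {G : Y → X}, ContinuousOn G (ball y r) → (∀ x ∈ closedBall y δ, ‖G x - G y‖ ≤ ε / 2) →
      dist (∫ x, (φ x : ℂ) • G x) (G y) ≤ ε / 2 := fun {G} hG hb => by
    have i1 : Integrable fun x => φ x • G x :=
      (integrableOn_iff_integrable_of_support_subset ((Function.support_smul_subset_left _ _).trans
        p4)).1 ((p1.continuousOn.smul (hG.mono (closedBall_subset_ball d1))).integrableOn_compact
          (isCompact_closedBall _ _))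
    simp only [show ∀ (t : ℝ) (v : X), (t : ℂ) • v = t • v from fun t v => algebraMap_smul ℂ t v]
    calc _ = ‖∫ x, φ x • (G x - G y)‖ := by
          simp only [smul_sub]
          rw [integral_sub i1 (i.smul_const _), integral_smul_const, p3, one_smul, dist_eq_norm]
      _ ≤ ∫ x, φ x * (ε / 2) := norm_integral_le_of_norm_le (i.mul_const _) (.of_forall fun x => by
          rw [norm_smul, Real.norm_of_nonneg (p2 x)]
          by_cases e : φ x = 0
          · simp [e]
          · exact mul_le_mul_of_nonneg_left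
              (hb x (closedBall_subset_closedBall (min_le_left _ _) (p4 e))) (p2 x))
      _ = _ := by rw [integral_mul_const, p3, one_mul]
  linarith [dist_triangle_left (G y) (G' y) (∫ x, (φ x : ℂ) • G x), a hG fun x hx => (hd hx).1,
    p5 ▸ a hG' fun x hx => (hd hx).2]

theorem bump (y : R4) {δ r : ℝ} (h : δ ∈ Ioo 0 r) : ∃ φ : R4 → ℝ,
    (HasCompactSupport φ ∧ ContDiff ℝ ∞ φ ∧ tsupport φ ⊆ ball y r) ∧ (∀ x, 0 ≤ φ x) ∧
      ∫ x, φ x = 1 ∧ Function.support φ ⊆ closedBall y δ :=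
  let b : ContDiffBump y := ⟨δ / 2, δ, half_pos h.1, half_lt_self h.1⟩
  ⟨b.normed volume, ⟨b.hasCompactSupport_normed, b.contDiff_normed,
    b.tsupport_normed_eq.subset.trans (closedBall_subset_ball h.2)⟩, b.nonneg_normed,
    b.integral_normed, b.support_normed_eq.subset.trans ball_subset_closedBall⟩

end Tool

open Tool

/-- Osgood lemma -/
theorem osg [FiniteDimensional ℂ V] {U : Set V} (hU : IsOpen U) {f : V → X} (hc : ContinuousOn f U)
    (h : ∀ x ∈ U, ∀ v, DifferentiableAt ℂ (fun t : ℂ => f (x + t • v)) 0) :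
    DifferentiableOn ℂ f U :=
  osg' hU (fun _ hx => (hc.continuousAt (hU.mem_nhds hx)).norm.isBoundedUnder_le) h

/-- Weierstrass theorem in several variables -/
theorem lim_hol [FiniteDimensional ℂ V] {ι : Type} {l : Filter ι} [l.NeBot] {U : Set V}
    (hU : IsOpen U) {F : ι → V → X} {f : V → X} (hF : ∀ᶠ i in l, DifferentiableOn ℂ (F i) U)
    (h : TendstoLocallyUniformlyOn F f l U) : DifferentiableOn ℂ f U :=
  osg hU (h.continuousOn (hF.mono fun _ e => e.continuousOn).frequently) fun x hx v =>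
    ((h.comp (fun t : ℂ => x + t • v) (fun _ e => e) (by fun_prop)).differentiableOn
      (hF.mono fun _ e => e.comp (by fun_prop) fun _ e => e) (line_mem hU hx v).1).differentiableAt
      (line_mem hU hx v).2

/-- strongly holomorphic bounded operator functions are holomorphic -/
theorem osgB [FiniteDimensional ℂ V] {U : Set V} (hU : IsOpen U) {F : V → H →L[ℂ] H} {M : ℝ}
    (hM : ∀ z ∈ U, ‖F z‖ ≤ M) (h : ∀ x, DifferentiableOn ℂ (fun z => F z x) U) :
    DifferentiableOn ℂ F U := by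
  have c : ContinuousOn F U := fun x hx => by
    obtain ⟨r, r0, hr⟩ := Metric.isOpen_iff.1 hU x hx
    have M0 := (norm_nonneg _).trans (hM x hx)
    refine (tendsto_iff_norm_sub_tendsto_zero.2 (squeeze_zero' (.of_forall fun _ => norm_nonneg _)
      (g := fun y => 2 * M / r * ‖y - x‖) ?_
      (Continuous.tendsto' (by fun_prop) _ _ (by simp)))).mono_left nhdsWithin_le_nhds
    filter_upwards [ball_mem_nhds x r0] with y hy
    refine ContinuousLinearMap.opNorm_le_bound _ (by positivity) fun v => ?_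
    exact (lip_hol ((h v).mono hr) (fun z hz => (F z).le_of_opNorm_le (hM z (hr hz)) v) hy).trans_eq
      (by ring)
  refine osg hU c fun x hx v => (S10.w2s (fun p : H × H => (innerSL ℂ p.1).comp
    (ContinuousLinearMap.apply ℂ H p.2)) (fun T e => ContinuousLinearMap.ext fun y =>
      inner_self_eq_zero.1 (e (T y, y))) (line_mem hU hx v).1
    (c.comp (by fun_prop) fun _ e => e) fun p => ?_).differentiableAt (line_mem hU hx v).2
  exact (innerSL ℂ p.1).differentiable.comp_differentiableOn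
    ((h p.2).comp (f := fun t : ℂ => x + t • v) (by fun_prop) fun _ e => e)

/-- identity theorem, totally real form -/
theorem idR [NormedSpace ℝ V] [IsScalarTower ℝ ℂ V] {Y : Type} [NormedAddCommGroup Y]
    [NormedSpace ℝ Y] {U : Set V} (hU : IsOpen U)
    (hc : Convex ℝ U) {f g : V → X} (hf : DifferentiableOn ℂ f U) (hg : DifferentiableOn ℂ g U)
    {x : V} (hx : x ∈ U) (J : Y → V) (hJ : ∀ (t : ℝ) y, J (t • y) = (t : ℂ) • J y)
    (hJ' : ∀ y y', J (y + y') = J y + J y') (hs : ∀ v, ∃ a b, v = J a + I • J b)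
    (h : ∀ᶠ y in 𝓝 0, f (x + J y) = g (x + J y)) : EqOn f g U := fun z hz => by
  obtain ⟨a, b, e⟩ := hs (z - x)
  have t : ∀ v, ∀ᶠ t : ℝ in 𝓝 0, x + (t : ℂ) • v ∈ U := fun v =>
    (continuous_ofReal.tendsto' 0 0 rfl).eventually (line_mem hU hx v).2
  have := line hU hc hf hg hx (v := z - x) (s := 1) ?_ (by simpa using hz)
  · simpa using this
  filter_upwards [t (J a), t (z - x), (Continuous.tendsto' (f := fun t : ℝ => t • a) (by fun_prop) 0 0
    (by simp)).eventually h.eventually_nhds] with s h1 h2 h3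
  have q : x + (s : ℂ) • (z - x) = x + (s : ℂ) • J a + (s * I : ℂ) • J b := by
    rw [e, smul_add, mul_smul, add_assoc]
  rw [q] at h2 ⊢
  refine line hU hc hf hg h1 ?_ h2
  simpa only [hJ', hJ, add_assoc] using (Continuous.tendsto' (f := fun t : ℝ => s • a + t • b)
    (by fun_prop) 0 _ (by simp)).eventually h3

/-- identity theorem, open form -/
theorem idO [NormedSpace ℝ V] [IsScalarTower ℝ ℂ V] {U : Set V} (hU : IsOpen U) (hc : Convex ℝ U)
    {f g : V → X}
    (hf : DifferentiableOn ℂ f U) (hg : DifferentiableOn ℂ g U) {x : V} (hx : x ∈ U)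
    (h : ∀ᶠ y in 𝓝 x, f y = g y) : EqOn f g U := fun z hz => by
  simpa using line hU hc hf hg hx (v := z - x) (s := 1) ((Continuous.tendsto'
    (f := fun t : ℝ => x + (t : ℂ) • (z - x)) (by fun_prop) 0 _ (by simp)).eventually h)
    (by simpa using hz)

/-- Phragmen-Lindelof principle on the half plane `c ≤ im` -/
theorem pl {f : ℂ → X} {c B M : ℝ} (hd : DifferentiableOn ℂ f {s | c < s.im})
    (hc : ContinuousOn f {s | c ≤ s.im}) (hB : ∀ s : ℂ, c ≤ s.im → ‖f s‖ ≤ B)
    (hM : ∀ s : ℂ, s.im = c → ‖f s‖ ≤ M) {s : ℂ} (hs : c ≤ s.im) : ‖f s‖ ≤ M := by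
  have := PhragmenLindelof.right_half_plane_of_bounded_on_real (f := fun z => f (I * (z + c)))
    (C := M) (z := -I * s - c) ⟨hd.comp (by fun_prop) fun z hz => by simpa using hz, by
      rw [closure_setOfPred_lt_re]
      exact hc.comp (by fun_prop) fun z hz => by simpa using hz⟩
    ⟨0, two_pos, 0, .of_bound B (eventually_inf_principal.2 (.of_forall fun z hz => by
      simpa using hB _ (by simpa using le_of_lt hz)))⟩
    ⟨B, eventually_map.2 ((eventually_ge_atTop 0).mono fun x hx => hB _ (by simpa using hx))⟩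
    (fun x => hM _ (by simp)) (by simpa using hs)
  simpa [← mul_assoc] using this

variable [NormedSpace ℝ X] [IsScalarTower ℝ ℂ X]

/-- holomorphic dependence of integrals on parameters -/
theorem hol_int [FiniteDimensional ℂ V] {Y : Type} [MeasurableSpace Y] {μ : Measure Y} {U : Set V}
    (hU : IsOpen U) {f : V → Y → X} {b : Y → ℝ} (hb : Integrable b μ)
    (hm : ∀ z ∈ U, AEStronglyMeasurable (f z) μ)
    (hd : ∀ᵐ y ∂μ, DifferentiableOn ℂ (fun z => f z y) U ∧ ∀ z ∈ U, ‖f z y‖ ≤ b y) :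
    DifferentiableOn ℂ (fun z => ∫ y, f z y ∂μ) U :=
  osg' hU (fun x hx => .intro (∫ y, b y ∂μ) (mem_of_superset (hU.mem_nhds hx) fun z hz =>
    norm_integral_le_of_norm_le hb (hd.mono fun _ e => e.2 z hz))) fun x hx v =>
    holo (f := fun t => f (x + t • v)) (line_mem hU hx v).2 hb (fun _ e => hm _ e)
      (hd.mono fun _ e => ⟨e.1.comp (f := fun t : ℂ => x + t • v) (by fun_prop) fun _ e => e,
        fun _ k => e.2 _ k⟩)

/-- continuous densities are unique -/
theorem pt_eq1 {G G' : R4 → X} {y : R4} {r : ℝ} (r0 : 0 < r) (hG : ContinuousOn G (ball y r))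
    (hG' : ContinuousOn G' (ball y r)) (h : ∀ f : R4 → ℝ, HasCompactSupport f → ContDiff ℝ ∞ f →
      tsupport f ⊆ ball y r → ∫ x, (f x : ℂ) • G x = ∫ x, (f x : ℂ) • G' x) : G y = G' y :=
  pt r0 hG hG' fun _ hδ => let ⟨φ, a, b, c, d⟩ := bump y hδ
    ⟨φ, a.2.1.continuous, b, c, d, h φ a.1 a.2.1 a.2.2⟩

/-- the same for product test functions -/
theorem pt_eq {n : ℕ} {G G' : (Fin n → R4) → X} {y : Fin n → R4} {r : ℝ} (r0 : 0 < r)
    (hG : ContinuousOn G (ball y r)) (hG' : ContinuousOn G' (ball y r))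
    (h : ∀ f : Fin n → R4 → ℝ, (∀ i, HasCompactSupport (f i) ∧ ContDiff ℝ ∞ (f i) ∧
      tsupport (f i) ⊆ ball (y i) r) →
      ∫ x : Fin n → R4, (∏ i, (f i (x i) : ℂ)) • G x = ∫ x : Fin n → R4, (∏ i, (f i (x i) : ℂ)) • G' x) :
    G y = G' y :=
  pt r0 hG hG' fun δ hδ => by
    choose φ a b c d using fun i => bump (y i) hδ
    refine ⟨fun x => ∏ i, φ i (x i), continuous_finsetProd _ fun i _ =>
      (a i).2.1.continuous.comp (continuous_apply i), fun x => Finset.prod_nonneg fun i _ => b i _,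
      by simp [integral_fintype_prod_volume_eq_prod, c], fun x hx => ?_, by simpa using h φ a⟩
    rw [closedBall_pi _ hδ.1.le]
    exact fun i _ => d i (Finset.prod_ne_zero_iff.1 hx i (Finset.mem_univ i))

/-- splitting off the first point -/
theorem int_cons {n : ℕ} {G : (Fin (n + 1) → R4) → X} (hG : Integrable G) :
    Integrable (fun p : R4 × (Fin n → R4) => G (Fin.cons p.1 p.2)) ∧
      ∫ x, G x = ∫ p : R4 × (Fin n → R4), G (Fin.cons p.1 p.2) := by
  have m := (volume_preserving_piFinSuccAbove (fun _ : Fin (n + 1) => R4) 0).symm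
  have e : ∀ p : R4 × (Fin n → R4), (MeasurableEquiv.piFinSuccAbove (fun _ => R4) 0).symm p =
      Fin.cons p.1 p.2 := fun p => by simp [MeasurableEquiv.piFinSuccAbove, Fin.consEquiv]
  simp only [← e]
  exact ⟨(m.integrable_comp_emb (MeasurableEquiv.measurableEmbedding _)).2 hG,
    (m.integral_comp' G).symm⟩

end Pool.Agent.Lib.MP_7f377f_mp.Wm
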