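import Pool.Agent.Lib.MP_7f377f_mp.G.WmSpec

/-! Stage 14: the vector valued Wightman functions. -/

noncomputable section

namespace Pool.Agent.Lib.MP_7f377f_mp.Wm
variable [Pool.Agent.Lib.MP_7f377f_mp.GD]
set_option linter.unusedSectionVars false

open Filter Topology Set Complex YM7

namespace D

variable {H : Type} [NormedAddCommGroup H] [InnerProductSpace ℂ H] {E : C4 → H →L[ℂ] H}
  {A : C4 → C4 → H →L[ℂ] H} {Ω : H} {n : ℕ}

/-- an admissible imaginary time -/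
def tt (z : Fin (n + 1) → C4) : ℝ :=
  Classical.epsilon fun t => 0 < t ∧ (fun i : Fin n => z i.succ - z 0 - ie t) ∈ FT n

/-- the vectors -/
def ps (A : C4 → C4 → H →L[ℂ] H) (Ω : H) : ∀ n, (Fin n → C4) → H
  | 0, _ => Ω
  | n + 1, z => A (z 0) (ie (tt z)) (ps A Ω n fun i => z i.succ - z 0 - ie (tt z))

theorem ie_to {t : ℝ} (h : 0 < t) : ie t ∈ TO := TV.to h (ie_mem t)

theorem sub_to {z : C4} (h : z ∈ TO) : ∀ᶠ t in 𝓝[>] (0 : ℝ), z - ie t ∈ TO :=
  mem_of_superset (Ioo_mem_nhdsGT h) fun _ ht => TV.to (sub_pos.2 ht.2) (sub_ie_mem (le_refl (mg (imv z))))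

theorem sub_ft {z : Fin n → C4} (h : z ∈ FT n) :
    ∀ᶠ t in 𝓝[>] (0 : ℝ), (fun i => z i - ie t) ∈ FT n :=
  (eventually_all.2 fun i => sub_to (h.1 i)).mono fun _ ht =>
    ⟨ht, fun i j e => by simpa using h.2 i j e⟩

theorem tail_ft {z : Fin (n + 1) → C4} (h : z ∈ FT (n + 1)) :
    (fun i : Fin n => z i.succ - z 0) ∈ FT n := (cons_mem.1 (Fin.cons_self_tail z ▸ h)).2

theorem ex_t {z : Fin (n + 1) → C4} (h : z ∈ FT (n + 1)) :
    ∃ t, 0 < t ∧ (fun i : Fin n => z i.succ - z 0 - ie t) ∈ FT n :=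
  (Eventually.and (f := 𝓝[>] (0 : ℝ)) self_mem_nhdsWithin (sub_ft (tail_ft h))).exists

/-- covariance -/
def Cov (E : C4 → H →L[ℂ] H) (A : C4 → C4 → H →L[ℂ] H) (Ω : H) (n : ℕ) : Prop :=
  ∀ z ∈ FT n, ∀ u ∈ TV 0, E u (ps A Ω n z) = ps A Ω n fun i => z i + u

theorem eq_of (hA : Pt E A) (h : Cov E A Ω n) {z : Fin (n + 1) → C4} {u : C4} (h0 : z 0 ∈ TO)
    (hu : u ∈ TO) (hz : (fun i : Fin n => z i.succ - z 0 - u) ∈ FT n) :
    ps A Ω (n + 1) z = A (z 0) u (ps A Ω n fun i => z i.succ - z 0 - u) := by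
  have key : ∀ {u : C4} {t : ℝ}, 0 < t → u - ie t ∈ TO →
      (fun i : Fin n => z i.succ - z 0 - u) ∈ FT n →
      A (z 0) u (ps A Ω n fun i => z i.succ - z 0 - u) =
        A (z 0) (ie t) (ps A Ω n fun i => z i.succ - z 0 - ie t) := fun {u t} t0 e1 e2 => by
    have := (hA.cov _ h0 _ (ie_to t0) _ (TO.tv e1)).2
    rw [add_sub_cancel] at this
    rw [← this, mul_apply_eq_comp, h _ e2 _ (TO.tv e1)]
    simp only [sub_add_sub_cancel]
  have m : z ∈ FT (n + 1) := Fin.cons_self_tail z ▸ cons_mem.2 ⟨h0, by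
    simpa [Fin.tail] using FT.add hz (TO.tv hu)⟩
  have e := Classical.epsilon_spec (ex_t m)
  obtain ⟨t, t0, t1, t2⟩ := (Eventually.and (f := 𝓝[>] (0 : ℝ)) self_mem_nhdsWithin
    ((sub_to hu).and (sub_to (ie_to e.1)))).exists
  exact (key t0 t2 e.2).trans (key t0 t1 hz).symm

theorem cov (hA : Pt E A) (hΩ : ∀ z ∈ TV 0, E z Ω = Ω) : ∀ n, Cov E A Ω n
  | 0 => fun _ _ u hu => hΩ u hu
  | n + 1 => fun z hz u hu => by
    obtain ⟨t, t0, t1⟩ := ex_t hz
    rw [eq_of hA (cov hA hΩ n) (hz.1 0) (ie_to t0) t1, eq_of hA (cov hA hΩ n)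
      (TO.add (hz.1 0) hu) (ie_to t0) (by simpa using t1), ← mul_apply_eq_comp,
      (hA.cov _ (hz.1 0) _ (ie_to t0) u hu).1, add_comm u]
    simp only [add_sub_add_right_eq_sub]

theorem recu (hA : Pt E A) (hΩ : ∀ z ∈ TV 0, E z Ω = Ω) : Rec A (ps A Ω) := fun n p hp u hu z hz => by
  have e : (fun i : Fin n => z i + (p + u) - p - u) = z := funext fun i => by abel
  rw [eq_of hA (cov hA hΩ n) (u := u) hp hu (by simpa only [Fin.cons_succ, Fin.cons_zero, e])]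
  simp only [Fin.cons_succ, Fin.cons_zero, e]

theorem hol (hA : Pt E A) (hΩ : ∀ z ∈ TV 0, E z Ω = Ω) :
    ∀ n, DifferentiableOn ℂ (ps A Ω n) (FT n)
  | 0 => differentiableOn_const Ω
  | n + 1 => fun z hz => by
    obtain ⟨t, t0, t1⟩ := ex_t hz
    have d : Differentiable ℂ fun (y : Fin (n + 1) → C4) (i : Fin n) => y i.succ - y 0 - ie t := by
      fun_prop
    have d1 := ((hol hA hΩ n).differentiableAt ((isOpen_FT n).mem_nhds t1)).comp z (d z)
    have d2 := (hA.hol.differentiableAt (x := (z 0, ie t)) ((isOpen_TO.prod isOpen_TO).mem_nhds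
      ⟨hz.1 0, ie_to t0⟩)).comp z (f := fun y : Fin (n + 1) → C4 => (y 0, ie t)) (by fun_prop)
    refine ((d2.clm_apply d1).congr_of_eventuallyEq ?_).differentiableWithinAt
    filter_upwards [(isOpen_FT _).mem_nhds hz,
      d.continuous.continuousAt.eventually ((isOpen_FT n).mem_nhds t1)] with y e1 e2
    exact eq_of hA (cov hA hΩ n) (e1.1 0) (ie_to t0) e2

theorem bd (hA : Pt E A) (hΩ : ∀ z ∈ TV 0, E z Ω = Ω) : ∀ n, ∃ (C : ℝ) (N : ℕ), 0 ≤ C ∧
    ∀ δ ∈ Ioc (0 : ℝ) 1, ∀ z ∈ FTd n δ, ‖ps A Ω n z‖ ≤ C / δ ^ N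
  | 0 => ⟨‖Ω‖, 0, norm_nonneg _, fun _ _ _ _ => by simp [ps]⟩
  | n + 1 => by
    obtain ⟨C, N, C0, h⟩ := bd hA hΩ n
    obtain ⟨C', N', C0', h'⟩ := hA.bd
    refine ⟨C' * C * 2 ^ (N' + N), N' + N, by positivity, fun δ hδ z hz => ?_⟩
    have d0 := half_pos hδ.1
    have d1 : δ / 2 ∈ Ioc (0 : ℝ) 1 := ⟨d0, by linarith [hδ.2]⟩
    have d2 : δ / 2 ≤ δ := half_le_self hδ.1.le
    have m : (fun i : Fin n => z i.succ - z 0 - ie (δ / 2)) ∈ FTd n (δ / 2) :=
      ⟨fun i => TV.mono (by linarith) (sub_ie_mem (hz.2 0 i.succ i.succ_pos)), fun i j e => by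
        simpa using TV.mono d2 (hz.2 i.succ j.succ (Fin.succ_lt_succ_iff.2 e))⟩
    rw [eq_of hA (cov hA hΩ n) (TV.to hδ.1 (hz.1 0)) (ie_to d0) (FTd.ft d0 m)]
    refine (ContinuousLinearMap.le_opNorm _ _).trans ((mul_le_mul
      (h' _ d1 _ (TV.mono d2 (hz.1 0)) _ (ie_mem _)) (h _ d1 _ m) (norm_nonneg _)
      (by positivity)).trans_eq ?_)
    rw [div_pow, div_pow, pow_add, pow_add]
    field_simp

/-- the first point -/
def fst : ∀ {n : ℕ}, (Fin n → C4) → C4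
  | 0, _ => 0
  | _ + 1, z => z 0

/-- the scalar functions -/
def ww (A : C4 → C4 → H →L[ℂ] H) (Ω : H) (n : ℕ) (z : Fin n → C4) : ℂ :=
  inner ℂ Ω (ps A Ω n fun i => z i - fst z + ie 1)

theorem nm_ft : ∀ {n : ℕ} {z : Fin n → C4}, z ∈ Tube n → (fun i => z i - fst z + ie 1) ∈ FT n
  | 0, _, _ => ⟨fun i => i.elim0, fun i => i.elim0⟩
  | n + 1, z, h => by
    refine ⟨fun i => ?_, fun i j e => by simpa using mem_tube.1 h i j e⟩
    induction i using Fin.cases with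
    | zero => simpa [fst] using ie_to one_pos
    | succ i => exact TO.add (mem_tube.1 h 0 _ i.succ_pos) (TV.mono zero_le_one (ie_mem 1))

theorem whol (hA : Pt E A) (hΩ : ∀ z ∈ TV 0, E z Ω = Ω) (n : ℕ) :
    DifferentiableOn ℂ (ww A Ω n) (Tube n) := by
  have d : Differentiable ℂ fun (z : Fin n → C4) i => z i - fst z + ie 1 := by
    cases n <;> simp only [fst] <;> fun_prop
  exact (innerSL ℂ Ω).differentiable.comp_differentiableOn
    ((hol hA hΩ n).comp d.differentiableOn fun _ => nm_ft)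

theorem wtr (n : ℕ) (z : Fin n → C4) (c : C4) : ww A Ω n (fun i => z i + c) = ww A Ω n z := by
  cases n with
  | zero => rfl
  | succ n => simp [ww, fst]

theorem wval (hE : Tub E) (hA : Pt E A) (hΩ : ∀ z ∈ TV 0, E z Ω = Ω) (n : ℕ) (z : Fin n → C4)
    (hz : z ∈ FT n) : ww A Ω n z = inner ℂ Ω (ps A Ω n z) := by
  have key : ∀ z ∈ FT n, ∀ u ∈ TV 0,
      inner ℂ Ω (ps A Ω n fun i => z i + u) = inner ℂ Ω (ps A Ω n z) := fun z hz u hu => by
    have := hE.adj _ (neg_star_mem hu) Ω (ps A Ω n z)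
    rw [hΩ _ (neg_star_mem hu), star_neg, star_star, neg_neg, cov hA hΩ n z hz u hu] at this
    exact this.symm
  have f : fst z ∈ TV 0 := by
    cases n with
    | zero => simp [fst, TV]
    | succ n => exact TO.tv (hz.1 0)
  rw [ww, ← key _ (nm_ft (FT.tube hz)) _ f, ← key z hz _ (TV.mono zero_le_one (ie_mem 1))]
  congr 2
  funext i
  abel

theorem shift (hA : Pt E A) (hΩ : ∀ z ∈ TV 0, E z Ω = Ω) (m n : ℕ) (p c : C4) (a : Fin m → C4)
    (ha : a ∈ FT m) (b : Fin n → C4) (hb : b ∈ FT n) (hp : p ∈ TO) (hc : star p - c ∈ TO) :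
    inner ℂ (ps A Ω m a) (ps A Ω (n + 1) (Fin.cons (star p - c) fun i => b i - c)) =
      inner ℂ (ps A Ω (m + 1) (Fin.cons p fun i => a i + star c)) (ps A Ω n b) := by
  have e1 := recu hA hΩ n _ hc _ (neg_star_mem' hp) b hb
  have e2 := recu hA hΩ m _ hp _ (neg_star_mem' hc) a ha
  have e3 := hA.adj _ hp _ (neg_star_mem' hc) (ps A Ω m a) (ps A Ω n b)
  rw [show star p - c + -star p = -c by abel] at e1
  rw [show p + -star (star p - c) = star c by simp] at e2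
  rw [star_neg, star_star, neg_neg] at e3
  rw [e2, e3, ← e1]
  simp only [sub_eq_add_neg]

theorem ww_cast {n n' : ℕ} (h : n = n') (z : Fin n' → C4) :
    ww A Ω n (z ∘ Fin.cast h) = ww A Ω n' z := by
  subst h
  rfl

theorem inn (hE : Tub E) (hA : Pt E A) (hΩ : ∀ z ∈ TV 0, E z Ω = Ω) : ∀ m n, ∀ a ∈ FT m,
    ∀ b ∈ FT n, inner ℂ (ps A Ω m a) (ps A Ω n b) = ww A Ω (m + n) (glue a b)
  | 0, n, a, _, b, hb => by
    rw [glue, Fin.append_left_nil _ _ rfl, ww_cast, wval hE hA hΩ n b hb]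
    rfl
  | m + 1, n, a, ha, b, hb => by
    obtain ⟨t, t0, t1⟩ := ex_t ha
    have e : star (a 0) - star (a 0 + ie t) ∈ TO := by simpa [star_ie] using ie_to t0
    have e1 := shift hA hΩ m n (a 0) (star (a 0 + ie t)) _ t1 b hb (ha.1 0) e
    have e2 : (Fin.cons (a 0) fun i : Fin m => a i.succ - a 0 - ie t + star (star (a 0 + ie t))) =
        a := by
      funext i
      induction i using Fin.cases with
      | zero => rfl
      | succ i => simp
    rw [e2] at e1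
    rw [← e1, inn hE hA hΩ m (n + 1) _ t1 _ (cons_mem.2 ⟨e, by
      simpa only [sub_sub_sub_cancel_right, ← sub_eq_add_neg] using
        FT.add hb (TO.tv (neg_star_mem' (ha.1 0)))⟩),
      ← wtr _ _ (star (a 0 + ie t)), ← ww_cast (Nat.succ_add_eq_add_succ m n)]
    congr 1
    have e3 : (fun i : Fin (m + 1) => star (a i.rev)) =
        Fin.snoc (fun i : Fin m => star (a i.rev.succ)) (star (a 0)) := by
      funext i
      induction i using Fin.lastCases with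
      | last => simp
      | cast i => simp [Fin.rev_castSucc]
    rw [glue, glue, e3, Fin.append_left_snoc]
    congr 1
    funext i
    induction i using Fin.addCases with
    | left i => simp
    | right i =>
      induction i using Fin.cases with
      | zero => simp
      | succ i => simp

end D

open D in
theorem sD_of : S_D := fun _ _ _ _ _ A Ω hE hA hΩ =>
  ⟨ps A Ω, ww A Ω, ⟨fun _ => rfl, hol hA hΩ, bd hA hΩ, cov hA hΩ, whol hA hΩ, wtr, wval hE hA hΩ,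
    inn hE hA hΩ, fun m n p c a ha b hb => shift hA hΩ m n p c a ha b hb⟩, recu hA hΩ⟩

end Pool.Agent.Lib.MP_7f377f_mp.Wm
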