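import Pool.Agent.Lib.MP_7f377f_mp.G.WmMat

/-! Stage 14: the domain and the field operators. -/

noncomputable section

namespace Pool.Agent.Lib.MP_7f377f_mp.Wm
variable [Pool.Agent.Lib.MP_7f377f_mp.GD]
set_option linter.unusedSectionVars false

open MeasureTheory Filter Topology Set Complex YM7 DirectSum

namespace G2

variable {H : Type} [NormedAddCommGroup H] [InnerProductSpace ℂ H] (Φ : ∀ n, Sw n →L[ℂ] H)

/-- the sum of the boundary values -/
def tot : (⨁ n, Sw n) →ₗ[ℂ] H := toModule ℂ ℕ H fun n => (Φ n).toLinearMap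

/-- the domain -/
def dom : Submodule ℂ H := LinearMap.range (tot Φ)

/-- the sum with values in the domain -/
def R : (⨁ n, Sw n) →ₗ[ℂ] dom Φ := (tot Φ).rangeRestrict

/-- the generators of the domain -/
def v (n : ℕ) : Sw n →ₗ[ℂ] dom Φ := R Φ ∘ₗ lof ℂ ℕ Sw n

theorem coe_v (n : ℕ) (F : Sw n) : (v Φ n F : H) = Φ n F := toModule_lof ℂ n F

theorem surj : Function.Surjective (R Φ) := (tot Φ).surjective_rangeRestrict

/-- the field on finite sequences -/
def B : (⨁ n, Sw n) →ₗ[ℂ] Tf →ₗ[ℂ] dom Φ :=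
  toModule ℂ ℕ _ fun n => (csL n).flip.compr₂ (v Φ (n + 1))

theorem B_lof (n : ℕ) (F : Sw n) (f : Tf) : B Φ (lof ℂ ℕ Sw n F) f = v Φ (n + 1) (cs f F) := by
  rw [B, toModule_lof]
  rfl

theorem ind {P : dom Φ → Prop} (h0 : P 0) (h1 : ∀ n F, P (v Φ n F))
    (h2 : ∀ x y, P x → P y → P (x + y)) (x : dom Φ) : P x := by
  obtain ⟨a, rfl⟩ := surj Φ x
  induction a using DirectSum.induction_on with
  | zero => rwa [map_zero]
  | of n F => exact h1 n F
  | add a b ha hb => exact map_add (R Φ) a b ▸ h2 _ _ ha hb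

variable {Φ}

theorem herm (h : Herm Φ) {f g : Tf} (e : ∀ u, g u = starRingEnd ℂ (f u)) (a b : ⨁ n, Sw n) :
    inner ℂ (R Φ a) (B Φ b f) = inner ℂ (B Φ a g) (R Φ b) := by
  induction a using DirectSum.induction_on with
  | zero => simp
  | add a a' ha ha' => simp only [map_add, LinearMap.add_apply, inner_add_left, ha, ha']
  | of m G =>
    induction b using DirectSum.induction_on with
    | zero => simp
    | add b b' hb hb' => simp only [map_add, LinearMap.add_apply, inner_add_right, hb, hb']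
    | of n F =>
      have := h m n G F f g e
      rwa [← coe_v, ← coe_v, ← coe_v, ← coe_v, ← B_lof, ← B_lof] at this

theorem field (h : Herm Φ) (hc : Cyc Φ) :
    ∃ φ : Tf →ₗ[ℂ] Module.End ℂ (dom Φ), ∀ f a, φ f (R Φ a) = B Φ a f := by
  obtain ⟨s, hs⟩ := (R Φ).exists_rightInverse_of_surjective (LinearMap.range_eq_top.2 (surj Φ))
  refine ⟨(B Φ ∘ₗ s).flip, fun f a => ?_⟩
  obtain ⟨g, e⟩ := exists_conj f
  change B Φ (s (R Φ a)) f = _
  rw [← sub_eq_zero, ← LinearMap.sub_apply, ← map_sub]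
  refine Subtype.ext (hc _ fun n k => ?_)
  have := herm h e (lof ℂ ℕ Sw n (tn k)) (s (R Φ a) - a)
  rw [map_sub (R Φ), show R Φ (s (R Φ a)) = R Φ a from LinearMap.congr_fun hs _, sub_self,
    inner_zero_right] at this
  rw [← coe_v, inner_eq_zero_symm]
  exact this

end G2

open G2

theorem sG2_eq {H : Type} [NormedAddCommGroup H] [InnerProductSpace ℂ H] [CompleteSpace H]
    {E : C4 → H →L[ℂ] H} {Ω ψ w Φ U} (s : Sys E Ω ψ w) (u : Poi E Ω Φ U) (h0 : Φ 0 one0 = Ω) (hh : Herm Φ) (hc : Cyc Φ)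
    (hl : Loc2 Φ) : ∃ (D : Submodule ℂ H) (Ω' : D) (φ : Tf →ₗ[ℂ] Module.End ℂ D), ↑Ω' = Ω ∧
      Wight U D Ω' φ ∧ ∀ n (f : Fin n → Tf),
        inner ℂ Ω' ((List.ofFn fun i => φ (f i)).prod Ω') = inner ℂ Ω (Φ n (tn f)) := by
  obtain ⟨φ, hφ⟩ := field hh hc
  have e : ∀ f n F, φ f (v Φ n F) = v Φ (n + 1) (cs f F) := fun f n F =>
    (hφ f _).trans (B_lof Φ n F f)
  have o : (v Φ 0 one0 : H) = Ω := (coe_v Φ 0 _).trans h0
  have p : ∀ n (f : Fin n → Tf),
      (List.ofFn fun i => φ (f i)).prod (v Φ 0 one0) = v Φ n (tn f) := fun n => by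
    induction n with
    | zero => exact fun f => rfl
    | succ n ih =>
      intro f
      rw [List.ofFn_succ, List.prod_cons, Module.End.mul_apply, ih fun i => f i.succ, e]
      rfl
  refine ⟨dom Φ, v Φ 0 one0, φ, o, ⟨u.rep, u.cont, fun x => ?_, ?_, ?_, fun x hx => ?_, ?_,
    fun x y => ⟨?_, fun f g c => ?_⟩, fun a L hL x => ?_, fun f g c => ?_⟩, fun n f => ?_⟩
  · obtain ⟨μ, h1, h2⟩ := s.spec x
    exact ⟨μ, h1.1, h2.mono fun _ => mg_nonneg_iff.1, fun a => u.tr a ▸ h1.2 a⟩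
  · rw [← s.unit, ← o]
    rfl
  · exact o ▸ u.vac
  · exact o ▸ s.vac x fun a => u.tr a ▸ hx a
  · rw [Submodule.dense_iff_topologicalClosure_eq_top, Submodule.topologicalClosure_eq_top_iff,
      eq_bot_iff]
    refine fun x hx => hc x fun n f => ?_
    rw [← coe_v, ← p]
    exact (Submodule.mem_orthogonal' _ _).1 hx _
      (Submodule.subset_span ⟨List.ofFn f, by simp only [List.map_ofFn]; rfl⟩)
  · induction y using ind with
    | h0 => simpa using continuous_const
    | h1 n F =>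
      simp only [e, Submodule.coe_inner, coe_v]
      exact continuous_const.inner ((Φ _).continuous.comp (continuous_cs_left F))
    | h2 y z hy hz => simpa only [map_add, inner_add_right] using hy.fun_add hz
  · obtain ⟨a, rfl⟩ := surj Φ x
    obtain ⟨b, rfl⟩ := surj Φ y
    rw [hφ, hφ, herm hh c]
  · induction x using ind with
    | h0 => exact ⟨0, by simp, fun f g _ => by simp⟩
    | h1 n F =>
      obtain ⟨F', hF⟩ := exists_act hL.2.1 a F
      refine ⟨v Φ n F', ?_, fun f g c => ?_⟩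
      · rw [coe_v, coe_v, u.cov a L hL n F F' hF]
      · rw [e, e, coe_v, coe_v]
        exact u.cov a L hL _ _ _ fun x => congrArg₂ (· * ·) (c (x 0)) (hF (Fin.tail x))
    | h2 x y hx hy =>
      obtain ⟨x', a1, a2⟩ := hx
      obtain ⟨y', b1, b2⟩ := hy
      exact ⟨x' + y', by rw [Submodule.coe_add, map_add, a1, b1, Submodule.coe_add], fun f g c => by
        rw [map_add, map_add, Submodule.coe_add, map_add, a2 f g c, b2 f g c, Submodule.coe_add]⟩
  · refine LinearMap.ext fun x => ?_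
    induction x using ind with
    | h0 => simp
    | h1 n F =>
      simp only [Module.End.mul_apply, e]
      exact Subtype.ext (by rw [coe_v, coe_v]; exact hl f g c n F)
    | h2 x y hx hy => rw [map_add, map_add, hx, hy]
  · rw [p, Submodule.coe_inner, o, coe_v]

theorem sG2_of : S_G2 := fun _ _ _ _ _ _ _ _ _ _ s u h0 hh hc hl =>
  let ⟨D, Ω, φ, _, h⟩ := sG2_eq s u h0 hh hc hl
  ⟨D, Ω, φ, h⟩

end Pool.Agent.Lib.MP_7f377f_mp.Wm
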