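import Pool.Agent.Lib.MP_7f377f_mp.G.WmSpec

/-! Stage 14: hermiticity of the boundary values. -/

noncomputable section

namespace Pool.Agent.Lib.MP_7f377f_mp.Wm
variable [Pool.Agent.Lib.MP_7f377f_mp.GD]
set_option linter.unusedSectionVars false

open MeasureTheory Filter Topology Set Complex YM7

namespace HermA

variable {H : Type} [NormedAddCommGroup H] [InnerProductSpace ℂ H] [CompleteSpace H]
  {E : C4 → H →L[ℂ] H} {Ω : H} {ψ : ∀ n, (Fin n → C4) → H} {w : ∀ n, (Fin n → C4) → ℂ}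
  {n : ℕ}

instance haar : (volume : Measure (Fin n → R4)).IsAddHaarMeasure := Measure.pi.isAddHaarMeasure _

/-- one more point in front -/
def up (η : Fin n → R4) : Fin (n + 1) → R4 := Fin.cons e0 fun i => η i + (2 : ℝ) • e0

theorem ftd_iff {δ : ℝ} (x y : Fin n → R4) :
    cxn x y ∈ FTd n δ ↔ (∀ i, δ ≤ mg (y i)) ∧ ∀ i j, i < j → δ ≤ mg (y j - y i) := by
  simp [FTd, TV, cxn, imv_sub]

theorem ft_iff (x y : Fin n → R4) :
    cxn x y ∈ FT n ↔ (∀ i, 0 < mg (y i)) ∧ ∀ i j, i < j → 0 < mg (y j - y i) := by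
  simp [FT, TO, cxn, imv_sub]

theorem dir_smul {η : Fin n → R4} (h : η ∈ Dir n) {t : ℝ} (ht : 0 < t) : t • η ∈ Dir n := by
  obtain ⟨a, b⟩ := (ft_iff _ _).1 h
  refine (ft_iff _ _).2 ⟨fun i => ?_, fun i j e => ?_⟩
  · rw [Pi.smul_apply, mg_smul ht.le]
    exact mul_pos ht (a i)
  · rw [Pi.smul_apply, Pi.smul_apply, ← smul_sub, mg_smul ht.le]
    exact mul_pos ht (b i j e)

theorem dir_ft {η : Fin n → R4} (h : η ∈ Dir n) (x : Fin n → R4) : cxn x η ∈ FT n :=
  (ft_iff _ _).2 ((ft_iff _ _).1 h)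

theorem dir_up {η : Fin n → R4} (h : η ∈ Dir n) : up η ∈ Dir (n + 1) := by
  obtain ⟨a, b⟩ := (ft_iff _ _).1 h
  have h1 : mg e0 = 1 := by simpa using mg_e0 1
  refine (ft_iff _ _).2 ⟨fun i => ?_, fun i j e => ?_⟩
  · induction i using Fin.cases with
    | zero => simp [up, h1]
    | succ i =>
      have := a i
      simp only [up, Fin.cons_succ, mg_add_e0]
      linarith
  · induction j using Fin.cases with
    | zero => exact absurd e (Fin.not_lt_zero _)
    | succ j =>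
      induction i using Fin.cases with
      | zero =>
        have e1 : η j + (2 : ℝ) • e0 - e0 = η j + (1 : ℝ) • e0 := by module
        have := a j
        simp only [up, Fin.cons_succ, Fin.cons_zero, e1, mg_add_e0]
        linarith
      | succ i => simpa [up] using b i j (Fin.succ_lt_succ_iff.1 e)

theorem dir_ne : ∀ n, ∃ η, η ∈ Dir n
  | 0 => ⟨0, (ft_iff _ _).2 ⟨fun i => i.elim0, fun i => i.elim0⟩⟩
  | n + 1 => (dir_ne n).elim fun _ h => ⟨_, dir_up h⟩

omit [CompleteSpace H] in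
theorem good (h : Vec E Ω ψ w) {η : Fin n → R4} (hη : η ∈ Dir n) :
    (Continuous fun x => ψ n (cxn x η)) ∧ ∃ M, ∀ x, ‖ψ n (cxn x η)‖ ≤ M := by
  refine ⟨(h.hol n).continuousOn.comp_continuous
    (continuous_pi fun i => continuous_cx (by fun_prop) continuous_const) (dir_ft hη), ?_⟩
  obtain ⟨C, N, -, hC⟩ := h.bd n
  obtain ⟨δ, h1, h2⟩ := FT.exists hη
  exact ⟨_, fun x => hC δ h1 _ ((ftd_iff _ _).2 ((ftd_iff _ _).1 h2))⟩

omit [CompleteSpace H] in
theorem integ {G : (Fin n → R4) → H} (hc : Continuous G) {M : ℝ} (hM : ∀ x, ‖G x‖ ≤ M) (F : Sw n) :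
    Integrable fun x => F x • G x :=
  F.integrable.smul_of_top_left (memLp_top_of_bound hc.aestronglyMeasurable M (.of_forall hM))

omit [CompleteSpace H] in
theorem split {G : (Fin (n + 1) → R4) → H} (hG : Integrable G) :
    (Integrable fun u : R4 => ∫ x : Fin n → R4, G (Fin.cons u x)) ∧
      ∫ x, G x = ∫ u : R4, ∫ x : Fin n → R4, G (Fin.cons u x) := by
  have e := (volume_preserving_piFinSuccAbove (fun _ : Fin (n + 1) => R4) 0).symm
  have e1 : ∀ p : R4 × (Fin n → R4),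
      (MeasurableEquiv.piFinSuccAbove (fun _ : Fin (n + 1) => R4) 0).symm p = Fin.cons p.1 p.2 :=
    fun p => by simp [MeasurableEquiv.piFinSuccAbove_symm_apply, Fin.insertNthEquiv]
  have h1 : Integrable (fun p : R4 × (Fin n → R4) => G (Fin.cons p.1 p.2)) (volume.prod volume) := by
    have := (e.integrable_comp_emb (MeasurableEquiv.measurableEmbedding _)).2 hG
    exact this.congr (.of_forall fun p => congrArg G (e1 p))
  refine ⟨h1.integral_prod_left, ?_⟩
  rw [← e.integral_comp', ← integral_prod _ h1]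
  exact integral_congr_ae (.of_forall fun p => congrArg G (e1 p))

theorem inner_l {Y : Type} [MeasurableSpace Y] {μ : Measure Y} {f : Y → H} (hf : Integrable f μ)
    (c : H) : inner ℂ (∫ x, f x ∂μ) c = ∫ x, inner ℂ (f x) c ∂μ := by
  rw [← inner_conj_symm, ← integral_inner hf, ← integral_conj]
  simp

theorem swap {Y Z : Type} [MeasurableSpace Y] [MeasurableSpace Z] {μ : Measure Y} {ν : Measure Z}
    {G : Y → ℂ} {F : Z → ℂ} {a q : Y → H} {p b : Z → H} (ha : Integrable (fun y => G y • a y) μ)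
    (hq : Integrable (fun y => G y • q y) μ) (hp : Integrable (fun x => F x • p x) ν)
    (hb : Integrable (fun x => F x • b x) ν) (h : ∀ y x, inner ℂ (a y) (p x) = inner ℂ (q y) (b x)) :
    inner ℂ (∫ y, G y • a y ∂μ) (∫ x, F x • p x ∂ν) =
      inner ℂ (∫ y, G y • q y ∂μ) (∫ x, F x • b x ∂ν) := by
  rw [inner_l ha, inner_l hq]
  refine integral_congr_ae (.of_forall fun y => ?_)
  simp only [inner_smul_left, ← integral_inner hp, ← integral_inner hb, inner_smul_right, h]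

theorem cxn_cons (u : R4) (x η : Fin n → R4) (t : ℝ) : cxn (Fin.cons u x) (t • up η) =
    Fin.cons (cx u (t • e0)) fun i => cxn x (t • η) i + cx 0 ((2 * t) • e0) := by
  funext i
  induction i using Fin.cases with
  | zero => simp [cxn, up]
  | succ i =>
    simp only [cxn, up, Fin.cons_succ, Pi.smul_apply, ← cx_add, add_zero, smul_add, smul_smul,
      mul_comm]

omit [CompleteSpace H] in
theorem pt (h : Vec E Ω ψ w) {m : ℕ} {η : Fin m → R4} {η' : Fin n → R4} (hη : η ∈ Dir m)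
    (hη' : η' ∈ Dir n) {t : ℝ} (ht : 0 < t) (u : R4) (y : Fin m → R4) (x : Fin n → R4) :
    inner ℂ (ψ m (cxn y (t • η))) (ψ (n + 1) (cxn (Fin.cons u x) (t • up η'))) =
      inner ℂ (ψ (m + 1) (cxn (Fin.cons u y) (t • up η))) (ψ n (cxn x (t • η'))) := by
  have e1 : star (cx u (t • e0)) - -cx 0 ((2 * t) • e0) = cx u (t • e0) := by
    rw [star_cx, sub_neg_eq_add, ← cx_add, add_zero]
    congr 1
    module
  have e2 : star (-cx 0 ((2 * t) • e0)) = cx 0 ((2 * t) • e0) := by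
    ext μ
    simp [cx]
  have e3 : cx u (t • e0) ∈ TO := by simpa [TO] using ht
  have := h.shift m n (cx u (t • e0)) (-cx 0 ((2 * t) • e0)) _ (dir_ft (dir_smul hη ht) y) _
    (dir_ft (dir_smul hη' ht) x) e3 (e1.symm ▸ e3)
  rw [e1, e2] at this
  simpa only [cxn_cons, sub_neg_eq_add] using this

omit [CompleteSpace H] in
theorem smear (h : Vec E Ω ψ w) {η : Fin n → R4} (hη : η ∈ Dir n) {t : ℝ} (ht : 0 < t) (f : Tf)
    (F : Sw n) : (∀ u : R4, Integrable fun x => F x • ψ (n + 1) (cxn (Fin.cons u x) (t • up η))) ∧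
      (Integrable fun u : R4 => f u • ∫ x, F x • ψ (n + 1) (cxn (Fin.cons u x) (t • up η))) ∧
      ∫ x, cs f F x • ψ (n + 1) (cxn x (t • up η)) =
        ∫ u : R4, f u • ∫ x, F x • ψ (n + 1) (cxn (Fin.cons u x) (t • up η)) := by
  obtain ⟨hc, M, hM⟩ := good h (dir_smul (dir_up hη) ht)
  have := split (integ hc hM (cs f F))
  have e : ∀ u : R4, ∫ x, cs f F (Fin.cons u x) • ψ (n + 1) (cxn (Fin.cons u x) (t • up η)) =
      f u • ∫ x, F x • ψ (n + 1) (cxn (Fin.cons u x) (t • up η)) := fun u => by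
    simp only [cs_apply, Fin.cons_zero, Fin.tail_cons, mul_smul, integral_smul]
  exact ⟨fun u => integ (hc.comp (by fun_prop)) (fun x => hM _) F, this.1.congr (.of_forall e),
    this.2.trans (integral_congr_ae (.of_forall e))⟩

omit [CompleteSpace H] in
theorem lim {Φ : ∀ n, Sw n →L[ℂ] H} (h : IsBV ψ Φ) {η : Fin n → R4} (hη : η ∈ Dir n) (F : Sw n) :
    Tendsto (fun t : ℝ => ∫ x, F x • ψ n (cxn x (t • η))) (𝓝[>] 0) (𝓝 (Φ n F)) := by
  obtain ⟨B, hB⟩ := h n η hη F
  refine tendsto_iff_norm_sub_tendsto_zero.2 (squeeze_zero' (.of_forall fun _ => norm_nonneg _)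
    (Eventually.mono (Ioc_mem_nhdsGT one_pos) (hB 0 F fun x => by rw [sub_zero])) ?_)
  exact ((continuous_const.mul continuous_id).tendsto' 0 0 (mul_zero B)).mono_left
    nhdsWithin_le_nhds

end HermA

open HermA in
theorem sHerm_of : S_Herm := fun _ _ _ _ _ _ ψ _ _ h hΦ m n G F f g e => by
  obtain ⟨η, hη⟩ := dir_ne m
  obtain ⟨η', hη'⟩ := dir_ne n
  refine tendsto_nhds_unique ((lim hΦ hη G).inner (lim hΦ (dir_up hη') (cs f F)))
    (((lim hΦ (dir_up hη) (cs g G)).inner (lim hΦ hη' F)).congr' ?_)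
  filter_upwards [self_mem_nhdsWithin] with t ht
  obtain ⟨a1, a2, a3⟩ := smear h.toVec hη ht g G
  obtain ⟨b1, b2, b3⟩ := smear h.toVec hη' ht f F
  obtain ⟨c1, M, c2⟩ := good h.toVec (dir_smul hη ht)
  obtain ⟨d1, M', d2⟩ := good h.toVec (dir_smul hη' ht)
  rw [a3, b3, inner_l a2, ← integral_inner b2]
  refine integral_congr_ae (.of_forall fun u => ?_)
  simp only [inner_smul_left, inner_smul_right, e, conj_conj]
  rw [swap (integ c1 c2 G) (a1 u) (b1 u) (integ d1 d2 F) (pt h.toVec hη hη' ht u)]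

end Pool.Agent.Lib.MP_7f377f_mp.Wm
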