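import Pool.Agent.Lib.MP_7f377f_mp.G.WmSpecB
import Pool.Agent.Lib.MP_7f377f_mp.G.WmR
import Pool.Agent.Lib.MP_7f377f_mp.G.LgNG

/-! Stage 14: the Hamiltonian is not zero. -/

noncomputable section

namespace Pool.Agent.Lib.MP_7f377f_mp.Wm
variable [Pool.Agent.Lib.MP_7f377f_mp.GD]
set_option linter.unusedSectionVars false

open MeasureTheory Filter Topology Set Complex YM7 Pur Lg MvPolynomial

variable {H : Type} [NormedAddCommGroup H] [InnerProductSpace ℂ H] {E : C4 → H →L[ℂ] H} {Ω : H}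
  {ψ : ∀ n, (Fin n → C4) → H} {w : ∀ n, (Fin n → C4) → ℂ}

theorem triv_of (s : Sys0 E Ω ψ w) (h : ∀ (t : ℝ) x, E (rl (t • e0)) x = x) (a : R4) (x : H) :
    E (rl a) x = x := by
  obtain ⟨μ, ⟨_, f⟩, c⟩ := s.spec x
  have i : ∀ b, Integrable (fun p => exp (I * mink b p)) μ := fun b =>
    (integrable_const (1 : ℝ)).mono' (Continuous.aestronglyMeasurable (by unfold mink; fun_prop))
      (.of_forall fun p => by rw [mul_comm, norm_exp_ofReal_mul_I])
  have f0 : inner ℂ x x = ∫ _, (1 : ℂ) ∂μ := by simpa [s.tub.zero, mink] using f 0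
  have z : ∀ t : ℝ, ∀ᵐ p ∂μ, Real.cos (t * p 0) = 1 := fun t => by
    have j := (integrable_const (1 : ℂ)).sub (i (t • e0))
    have e : ∀ p : R4, (1 - exp (I * mink (t • e0) p)).re = 1 - Real.cos (t * p 0) := fun p => by
      rw [sub_re, mul_comm I, exp_ofReal_mul_I_re]
      simp [mink, e0]
    have k : ∫ p, (1 - exp (I * mink (t • e0) p)).re ∂μ = 0 := by
      refine (integral_re j).trans ?_
      simp only [Pi.sub_apply]
      rw [integral_sub (integrable_const _) (i _), ← f, ← f0, h, sub_self, map_zero]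
    filter_upwards [(integral_eq_zero_iff_of_nonneg (fun p =>
      (sub_nonneg.2 (Real.cos_le_one _)).trans_eq (e p).symm) j.re).1 k] with p hp
    exact (sub_eq_zero.1 ((e p).symm.trans hp)).symm
  have z0 : ∀ᵐ p ∂μ, p = 0 := by
    filter_upwards [c, ae_all_iff.2 fun n : ℕ => z (1 / ((n : ℝ) + 1))] with p p1 p2
    have l : Tendsto (fun n : ℕ => 1 / ((n : ℝ) + 1) * p 0) atTop (𝓝 (0 * p 0)) :=
      tendsto_one_div_add_atTop_nhds_zero_nat.mul_const _
    obtain ⟨n, n1, n2⟩ := ((l.eventually_const_lt (u := -(2 * Real.pi))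
      (by linarith [Real.pi_pos])).and (l.eventually_lt_const (u := 2 * Real.pi)
        (by linarith [Real.pi_pos]))).exists
    have p0 : p 0 = 0 := (mul_eq_zero.1
      ((Real.cos_eq_one_iff_of_lt_of_lt n1 n2).1 (p2 n))).resolve_left (by positivity)
    simpa [mg, sp, p0] using p1
  have k : inner ℂ x (E (rl a) x) = inner ℂ x x := by
    rw [f, f0]
    exact integral_congr_ae (z0.mono fun p hp => by simp [hp, mink])
  have n : ‖E (rl a) x‖ ≤ 1 * ‖x‖ := (E _).le_of_opNorm_le (s.tub.nrm _ (rl_mem a)) x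
  have m := norm_sub_sq (𝕜 := ℂ) x (E (rl a) x)
  rw [k, inner_self_eq_norm_sq] at m
  refine (sub_eq_zero.1 (norm_eq_zero.1 (pow_eq_zero_iff two_ne_zero |>.1 (le_antisymm ?_
    (sq_nonneg _))))).symm
  nlinarith [norm_nonneg (E (rl a) x)]

theorem two_const (s : Sys0 E Ω ψ w) (h : ∀ x, ∃ c : ℂ, x = c • Ω) :
    ∀ z ∈ Tube 2, w 2 z = starRingEnd ℂ (w 1 0) * w 1 0 := fun z hz => by
  have o : inner ℂ Ω Ω = 1 := by simp [s.unit]
  have e : ∀ u ∈ TO, (fun _ => u) ∈ FT 1 ∧ ψ 1 (fun _ => u) = w 1 0 • Ω := fun u hu => by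
    have m : (fun _ => u) ∈ FT 1 := ⟨fun _ => hu, fun i j e => absurd (Subsingleton.elim i j) e.ne⟩
    obtain ⟨c, hc⟩ := h (ψ 1 fun _ => u)
    have := s.wval 1 _ m
    rw [hc, inner_smul_right, o, mul_one, ← s.wtr 1 _ (-u)] at this
    exact ⟨m, by rw [hc, ← this]; simp [Pi.zero_def]⟩
  have u : (1 / 2 : ℝ) • (z 1 - z 0) ∈ TO := by
    have := mem_tube.1 hz 0 1 (by decide)
    rw [TO, mem_ofPred_eq] at this ⊢
    rw [imv_smul, mg_smul (by norm_num)]
    positivity
  have := s.inn 1 1 _ (e _ (neg_star_mem' u)).1 _ (e _ u).1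
  rw [(e _ u).2, (e _ (neg_star_mem' u)).2, inner_smul_left, inner_smul_right, o, mul_one] at this
  rw [this, ← s.wtr 2 z (-((1 / 2 : ℝ) • (z 0 + z 1)))]
  congr 1
  funext i μ
  fin_cases i <;> simp [glue, Fin.append, Fin.addCases] <;> ring

theorem nontriv {W : Pol →ₗ[ℂ] ℂ} (s : Sys0 E Ω ψ w) (l : Link W w) {γ κ : ℝ} (hγ : γ ≠ 0)
    (hκ : κ ≠ 0) (h2 : ∀ y : Fin 2 → R4, y 0 ≠ y 1 → free y = κ / ‖y 0 - y 1‖ ^ 8)
    (af : ∀ k (f : Fin k → R4 → ℝ), Adm f →
      Tendsto (fun d : ℝ => (Real.log d⁻¹ : ℂ) ^ k * W (mon fun i y => f i (d⁻¹ • y))) (𝓝[>] 0)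
        (𝓝 (γ ^ k * ∫ y : Fin k → R4, (∏ i, f i (y i)) * free y : ℝ))) :
    ∃ t x, E (rl (EuclideanSpace.single 0 t)) x ≠ x := by
  by_contra! h
  have c := two_const s fun x => s.vac x fun a => triv_of s (fun t => smul_e0 t ▸ h t) a x
  generalize starRingEnd ℂ (w 1 0) * w 1 0 = k at c
  have a : ∀ f : Fin 2 → R4 → ℝ, Adm f → Ord f →
      W (mon f) = k * (∫ y : Fin 2 → R4, ∏ i, f i (y i) : ℝ) := fun f f1 f2 => by
    rw [l 2 f f1 f2, ← integral_complex_ofReal, ← integral_const_mul]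
    refine integral_congr_ae (.of_forall fun y => ?_)
    by_cases e : ∏ i, f i (y i) = 0
    · simp only [← ofReal_prod, e, ofReal_zero, zero_mul, mul_zero]
    · simp only [← ofReal_prod]
      rw [c _ (euc_tube.2 fun i j o => f2 i j o _ (subset_tsupport _
        (Finset.prod_ne_zero_iff.1 e i (Finset.mem_univ _))) _ (subset_tsupport _
          (Finset.prod_ne_zero_iff.1 e j (Finset.mem_univ _)))), mul_comm]
  have b : ∀ f : Fin 2 → R4 → ℝ, Adm f → Ord f → NG.iv f = 0 := fun f f1 f2 => by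
    have t : Tendsto (fun d : ℝ => Real.log d * d) (𝓝[>] 0) (𝓝 0) := by
      simpa using tendsto_log_mul_rpow_nhdsGT_zero one_pos
    have t1 : Tendsto (fun d : ℝ => (Real.log d * d) ^ 2 * d ^ 6 * ∫ y : Fin 2 → R4, ∏ i, f i (y i))
        (𝓝[>] 0) (𝓝 (0 ^ 2 * 0 ^ 6 * _)) :=
      ((t.pow 2).mul ((tendsto_id.mono_left nhdsWithin_le_nhds).pow 6)).mul_const _
    have := tendsto_nhds_unique (af 2 f f1) (((continuous_ofReal.tendsto _).comp t1).const_mul k
      |>.congr' ?_)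
    · simpa [hγ, NG.iv] using this
    filter_upwards [self_mem_nhdsWithin] with d (hd : 0 < d)
    have q := Measure.integral_comp_inv_smul_of_nonneg volume
      (fun y : Fin 2 → R4 => ∏ i, f i (y i)) hd.le
    rw [a _ (f1.smul (inv_ne_zero hd.ne')) fun i j o x hx y hy => ?_]
    · simp only [Pi.smul_apply, Module.finrank_pi_fintype, finrank_euclideanSpace_fin] at q
      simp only [q, Function.comp]
      simp
      ring
    · have := f2 i j o _ (tsupport_comp_subset_preimage _ (continuous_const_smul d⁻¹) hx) _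
        (tsupport_comp_subset_preimage _ (continuous_const_smul d⁻¹) hy)
      exact lt_of_mul_lt_mul_left this (inv_pos.2 hd).le
  let p : Fin 2 → R4 := fun i => NG.pt (i.castLE (by norm_num))
  have p1 : p.Injective := NG.pt_inj.comp (Fin.castLE_injective _)
  have := tendsto_nhds_unique (NG.conc p NG.free_meas (NG.free_cont p1))
    (tendsto_const_nhds.congr fun n => (b (fun i => NG.bu n (p i))
      ⟨fun i => (NG.adm_bu n).1 _, fun i j o => (NG.adm_bu n).2 ((Fin.castLE_injective _).ne o)⟩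
        fun i j o x hx y hy => ?_).symm)
  · rw [h2 p (p1.ne (by decide))] at this
    exact div_ne_zero hκ (pow_ne_zero _ (norm_ne_zero_iff.2 (sub_ne_zero.2 (p1.ne (by decide)))))
      this
  simp only [NG.bu, ContDiffBump.tsupport_normed_eq, mem_closedBall_iff_norm] at hx hy
  have r : (NG.bp n (p i)).rOut ≤ 3⁻¹ ∧ (NG.bp n (p j)).rOut ≤ 3⁻¹ := ⟨inv_anti₀ (by norm_num)
    (by linarith [n.cast_nonneg (α := ℝ)]), inv_anti₀ (by norm_num)
      (by linarith [n.cast_nonneg (α := ℝ)])⟩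
  have x1 := (abs_le.1 ((PiLp.norm_apply_le (x - p i) 0).trans hx)).2
  have y1 := (abs_le.1 ((PiLp.norm_apply_le (y - p j) 0).trans hy)).1
  have o1 : ((i : ℕ) : ℝ) + 1 ≤ (j : ℕ) := by exact_mod_cast o
  have v : ∀ i, p i 0 = (i : ℕ) := fun i => by simp [p, NG.pt]
  rw [PiLp.sub_apply, v] at x1 y1
  linarith [r.1, r.2]

end Pool.Agent.Lib.MP_7f377f_mp.Wm
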