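import Pool.Agent.Lib.MP_7f377f_mp.G.WmFin
import Pool.Agent.Lib.MP_7f377f_mp.G.WmNT
import Pool.Agent.Lib.MP_7f377f_mp.G.WmA1
import Pool.Agent.Lib.MP_7f377f_mp.G.WmA2
import Pool.Agent.Lib.MP_7f377f_mp.G.WmA3
import Pool.Agent.Lib.MP_7f377f_mp.G.WmA4
import Pool.Agent.Lib.MP_7f377f_mp.G.WmB0
import Pool.Agent.Lib.MP_7f377f_mp.G.WmB1
import Pool.Agent.Lib.MP_7f377f_mp.G.WmB2
import Pool.Agent.Lib.MP_7f377f_mp.G.WmB3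
import Pool.Agent.Lib.MP_7f377f_mp.G.WmB4
import Pool.Agent.Lib.MP_7f377f_mp.G.WmC
import Pool.Agent.Lib.MP_7f377f_mp.G.WmD
import Pool.Agent.Lib.MP_7f377f_mp.G.WmDa
import Pool.Agent.Lib.MP_7f377f_mp.G.WmDb
import Pool.Agent.Lib.MP_7f377f_mp.G.WmF2
import Pool.Agent.Lib.MP_7f377f_mp.G.WmG1
import Pool.Agent.Lib.MP_7f377f_mp.G.WmG2
import Pool.Agent.Lib.MP_7f377f_mp.G.WmHerm
import Pool.Agent.Lib.MP_7f377f_mp.G.WmL1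
import Pool.Agent.Lib.MP_7f377f_mp.G.WmL2
import Pool.Agent.Lib.MP_7f377f_mp.G.WmPhi
import Pool.Agent.Lib.MP_7f377f_mp.G.WmQ1

/-! Stage 14: the Wightman reconstruction. -/

noncomputable section

namespace Pool.Agent.Lib.MP_7f377f_mp.Wm
variable [Pool.Agent.Lib.MP_7f377f_mp.GD]
set_option linter.unusedSectionVars false

open MeasureTheory Filter Topology Set Complex YM7 Pur Lg MvPolynomial

variable {H : Type} [NormedAddCommGroup H] [InnerProductSpace ℂ H] [CompleteSpace H]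
  {W : Pol →ₗ[ℂ] ℂ} {γ κ : ℝ}

theorem core_of (hS : net.St W) (hL : LinP W) (hr : Rot W) (hQ : Q1 W) (hq : Quantum H W)
    (hγ : γ ≠ 0) (hκ : κ ≠ 0) (h2 : ∀ y : Fin 2 → R4, y 0 ≠ y 1 → free y = κ / ‖y 0 - y 1‖ ^ 8)
    (af : ∀ k (f : Fin k → R4 → ℝ), Adm f →
      Tendsto (fun d : ℝ => (Real.log d⁻¹ : ℂ) ^ k * W (mon fun i y => f i (d⁻¹ • y))) (𝓝[>] 0)
        (𝓝 (γ ^ k * ∫ y : Fin k → R4, (∏ i, f i (y i)) * free y : ℝ))) :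
    ∃ (r : net.Rep W 0 H) (E : C4 → H →L[ℂ] H) (K : Type) (_ : NormedAddCommGroup K)
      (_ : InnerProductSpace ℂ K) (_ : CompleteSpace K) (E' : C4 → K →L[ℂ] K) (j : K →ₗᵢ[ℂ] H)
      (U : R4 → Mat → K →L[ℂ] K) (Ω : K) (D : Submodule ℂ K) (φ : Tf → K → K),
      (Tub E ∧ (∀ v : R4, 0 ≤ v 0 → E (euc v) = r.T v) ∧ Tub E' ∧ j Ω = r.Ψ 1 ∧
        (∀ z ∈ TV 0, ∀ x, j (E' z x) = E z (j x)) ∧ ∀ a, U a 1 = E' (rl a)) ∧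
      WA.Poin U Ω ∧ WA.Wfield U Ω D φ ∧ WA.Wrot (fun _ => Adm) (fun _ f => W (fld f)) Ω φ := by
  obtain ⟨r, r1, r2, r3, r4⟩ := rep_of hS hq
  obtain ⟨E, e1, e2, e3, e4, e5⟩ := sA_of sA1_of sA2_of sA3_of sA4_of H r.T r1
    (sB0_of H W r hS hr r1)
  obtain ⟨M, K, m1, m2⟩ := sB1_of H W r E hS hL hQ e1 e2
  obtain ⟨A, a1, a2⟩ := sC_of (sDens_of sDa_of) H E M K e1 m1
  obtain ⟨ψ, w, v1, v2⟩ := sD_of H E A _ e1 a1 (e5 _ r3)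
  have l1 := sB3_of H W r E A ψ w hS a1 (sB2_of H W r E M K A hS hL e1 e2 m1.one m2 a1 a2) v1 v2
  have l2 := sF1_of w v1.whol (sB4_of W w hr v1.whol l1)
  obtain ⟨K, _, _, _, E', Ω, ψ', j, j1, j2, s⟩ :=
    sR_iso (E := E) ⟨v1, e1, r2, e3, fun x hx => r4 x (e4 x hx)⟩
  obtain ⟨Φ, p1, p2, p3⟩ := sPhi_of sBV_of K E' Ω ψ' w s.toVec
  obtain ⟨U, u⟩ := sG1_of K E' Ω ψ' w Φ s (sF2_of w v1.whol l2) p1
  obtain ⟨D, Ω', φ, rfl, g1, g2⟩ := sG2_eq s u p2 (sHerm_of K E' Ω ψ' w Φ s p1)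
    (sCyc_of K E' Ω ψ' w Φ s p1) (sL2_of K Φ (sL1_of sBV_of K E' Ω ψ' w Φ s l2 p1))
  obtain ⟨ph, h⟩ := fin_of (W := W) g1 (fun n => ⟨w n, v1.whol n, l1 n,
    fun f G hG => g2 n f ▸ p3 n f G hG⟩) (by simpa only [u.tr] using nontriv s.1 l1 hγ hκ h2 af)
  exact ⟨r, E, K, _, _, ‹_›, E', j, U, _, D, ph, ⟨e1, e2, s.tub, j1, j2, u.tr⟩, h⟩

theorem wightman_of (hS : net.St W) (hL : LinP W) (hr : Rot W) (hQ : Q1 W) (hq : Quantum H W)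
    (hγ : γ ≠ 0) (hκ : κ ≠ 0) (h2 : ∀ y : Fin 2 → R4, y 0 ≠ y 1 → free y = κ / ‖y 0 - y 1‖ ^ 8)
    (af : ∀ k (f : Fin k → R4 → ℝ), Adm f →
      Tendsto (fun d : ℝ => (Real.log d⁻¹ : ℂ) ^ k * W (mon fun i y => f i (d⁻¹ • y))) (𝓝[>] 0)
        (𝓝 (γ ^ k * ∫ y : Fin k → R4, (∏ i, f i (y i)) * free y : ℝ))) :
    WA.Wightman (fun _ => Adm) fun _ f => W (fld f) :=
  let ⟨_, _, K, _, _, i, _, _, U, Ω, D, φ, _, h⟩ := core_of hS hL hr hQ hq hγ hκ h2 af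
  ⟨K, _, _, i, U, Ω, D, φ, h⟩

end Pool.Agent.Lib.MP_7f377f_mp.Wm
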