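import Pool.Agent.Lib.MP_7f377f_mp.WAx
import Pool.Agent.Lib.MP_7f377f_mp.G.YGDefs

/-! Partition functions of periodic boxes, a finite size criterion and the mass gap. -/

noncomputable section

namespace Pool.Agent.Lib.MP_7f377f_mp.YG

open MeasureTheory

variable {G : Type} [Group G] [MeasurableSpace G] {N : ℕ} (ρ : G →* Matrix.unitaryGroup (Fin N) ℂ)
  (h : Measure G) (b : ℝ)

/-- the partition function of the Wilson action on the periodic box with `M i` sites in the
direction `i` -/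
def part (M : Fin 4 → ℕ+) : ℝ :=
  ∫ U : (∀ i, ZMod (M i)) × Fin 4 → G, Real.exp (-b * ∑ x, ∑ i, ∑ j, if i < j then
    N - (ρ (U (x, i) * U (x + Pi.single i 1, j) * (U (x + Pi.single j 1, i))⁻¹ *
      (U (x, j))⁻¹)).1.trace.re else 0) ∂Measure.pi fun _ => h

/-- the finite size criterion: doubling the time side `t` of eight boxes squares the partition
function up to the factor `1 + 10 ^ (-6)` -/
def Crit (t : ℕ+) : Prop := ∀ x ∈ [t, 2 * t], ∀ y ∈ [t, 2 * t], ∀ z ∈ [t, 2 * t],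
  part ρ h b ![t, x, y, z] ^ 2 ≤ (1 + 1 / 10 ^ 6) * part ρ h b ![2 * t, x, y, z]

/-- the Hamiltonian has no spectrum below `Δ` except for the vacuum: the spectral measures of the
vectors orthogonal to `Ω` are carried by the energies at least `Δ` -/
def Mass {H : Type} [NormedAddCommGroup H] [InnerProductSpace ℂ H] (Δ : ℝ)
    (U : R4 → WA.Mat → H →L[ℂ] H) (Ω : H) : Prop :=
  ∀ x, inner ℂ Ω x = 0 → ∃ μ : Measure R4, IsFiniteMeasure μ ∧ (∀ᵐ p ∂μ, Δ ≤ p 0) ∧
    ∀ a, inner ℂ x (U a 1 x) = ∫ p, Complex.exp (Complex.I * WA.mink a p) ∂μ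

end Pool.Agent.Lib.MP_7f377f_mp.YG
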