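import Pool.Agent.Lib.MP_7f377f_mp.G.GapD
import Pool.Agent.Lib.MP_7f377f_mp.G.WmAll
import Pool.Agent.Lib.MP_7f377f_mp.G.YKDefs

/-! Exponential clustering gives a mass gap of the Wightman theory. -/

noncomputable section

namespace Pool.Agent.Lib.MP_7f377f_mp.Wm
variable [Pool.Agent.Lib.MP_7f377f_mp.GD]
set_option linter.unusedSectionVars false

open MeasureTheory Filter Topology Set Complex YM7 Pur Lg MvPolynomial

variable {H : Type} [NormedAddCommGroup H] [InnerProductSpace ℂ H]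

theorem energy {E : C4 → H →L[ℂ] H} (hE : Tub E) {x : H} {μ : Measure R4} [IsFiniteMeasure μ]
    (h0 : ∀ᵐ p ∂μ, 0 ≤ p 0) (hf : ∀ a, inner ℂ x (E (rl a) x) = ∫ p, exp (I * mink a p) ∂μ) {Δ : ℝ}
    (hg : ∀ t ≥ 0, (inner ℂ x (E (ie t) x)).re ≤ Real.exp (-Δ * t) * ‖x‖ ^ 2) :
    ∀ᵐ p ∂μ, Δ ≤ p 0 := by
  have m0 : Measurable fun p : R4 => p 0 := by fun_prop
  have i : ∀ s : ℂ, mg (imv (s • rl e0)) = s.im := fun s => by
    rw [show imv (s • rl e0) = s.im • e0 by ext; simp [rl], mg_e0]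
  have key : ∀ t > (0 : ℝ), ∫⁻ p, ENNReal.ofReal (Real.exp (-t * (p 0 - Δ))) ∂μ ≤
      ENNReal.ofReal (‖x‖ ^ 2) := fun t ht => by
    have v := A3.val (μ := μ) (l := fun p : R4 => p 0) (w := fun _ => 1) (y := t) (M := ‖x‖ ^ 2)
      (G := fun s => inner ℂ x (E (s • rl e0) x)) m0 (integrable_const _) ht.le
      (continuousOn_const.inner ((hE.cont x).comp (by fun_prop) fun s hs =>
        hs.1.trans_eq (i s).symm))
      ((innerSL ℂ x).differentiable.comp_differentiableOn ((hE.hol.comp (by fun_prop) fun s hs =>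
        hs.1.trans_eq (i s).symm).clm_apply (differentiableOn_const _)))
      (fun s hs _ => (norm_inner_le_norm _ _).trans (by
        rw [sq]
        gcongr
        exact ((E _).le_of_opNorm_le (hE.nrm _ (hs.trans_eq (i s).symm)) x).trans_eq (one_mul _)))
      (fun s => by
        rw [show (s : ℂ) • rl e0 = rl (s • e0) by ext; simp [rl], hf]
        simp [mink, e0, mul_assoc]) h0
    have j : Integrable (fun p : R4 => Real.exp (-t * p 0)) μ :=
      .of_bound (Measurable.aestronglyMeasurable (by fun_prop)) 1 (h0.mono fun p hp => by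
        rw [Real.norm_of_nonneg (Real.exp_pos _).le, Real.exp_le_one_iff]
        nlinarith)
    have e : ∀ p : R4, Real.exp (-t * (p 0 - Δ)) = Real.exp (Δ * t) * Real.exp (-t * p 0) :=
      fun p => by rw [← Real.exp_add]; ring_nf
    have g := hg t ht.le
    rw [show ie t = (t * I : ℂ) • rl e0 by
      ext l; by_cases h : l = 0 <;> simp [ie, euc, rl, e0, h, mul_comm], v] at g
    simp only [mul_one, integral_complex_ofReal, ofReal_re] at g
    simp only [e]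
    rw [← ofReal_integral_eq_lintegral_ofReal (j.const_mul _) (.of_forall fun p => by positivity),
      integral_const_mul]
    refine ENNReal.ofReal_le_ofReal ((mul_le_mul_of_nonneg_left g (Real.exp_pos _).le).trans_eq ?_)
    rw [← mul_assoc, ← Real.exp_add]
    simp
  simpa only [ae_iff, not_le, sub_neg] using A3.pos (m0.sub_const Δ) key

theorem mass_of [CompleteSpace H] {W : Pol →ₗ[ℂ] ℂ} {γ κ : ℝ} (hS : net.St W) (hL : LinP W)
    (hr : Rot W) (hQ : Q1 W) (hq : Quantum H W) (hγ : γ ≠ 0) (hκ : κ ≠ 0)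
    (h2 : ∀ y : Fin 2 → R4, y 0 ≠ y 1 → free y = κ / ‖y 0 - y 1‖ ^ 8)
    (af : ∀ k (f : Fin k → R4 → ℝ), Adm f →
      Tendsto (fun d : ℝ => (Real.log d⁻¹ : ℂ) ^ k * W (mon fun i y => f i (d⁻¹ • y))) (𝓝[>] 0)
        (𝓝 (γ ^ k * ∫ y : Fin k → R4, (∏ i, f i (y i)) * free y : ℝ))) :
    ∃ (K : Type) (_ : NormedAddCommGroup K) (_ : InnerProductSpace ℂ K) (_ : CompleteSpace K)
      (U : R4 → Mat → K →L[ℂ] K) (Ω : K) (D : Submodule ℂ K) (φ : Tf → K → K),
      WA.Poin U Ω ∧ WA.Wfield U Ω D φ ∧ WA.Wrot (fun _ => Adm) (fun _ f => W (fld f)) Ω φ ∧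
      ∀ Δ, L6.Gap Δ W → YG.Mass Δ U Ω := by
  obtain ⟨r, E, K, _, _, _, E', j, U, Ω, D, φ, ⟨-, e2, e3, e4, e5, e6⟩, p1, p2, p3⟩ :=
    core_of hS hL hr hQ hq hγ hκ h2 af
  refine ⟨K, _, _, ‹_›, U, Ω, D, φ, p1, p2, p3, fun Δ hG x hx => ?_⟩
  obtain ⟨μ, m1, m2, m3⟩ := (p1.2.1 x).2
  refine ⟨μ, m1, energy e3 (m2.mono fun _ h => h.1) (fun a => e6 a ▸ m3 a) fun t ht => ?_, m3⟩
  have := hG.rep r ht (j x)
  rwa [← e4, j.inner_map_map, hx, norm_zero, zero_pow two_ne_zero, sub_zero, ← smul_e0,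
    ← e2 _ (by simpa), ← ie, ← e5 _ (TV.mono ht (ie_mem t)), j.inner_map_map, j.norm_map] at this

end Pool.Agent.Lib.MP_7f377f_mp.Wm
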