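import Mathlib

/-! Measures with an exponential moment are determined by their moments. -/

noncomputable section

namespace Pool.Agent.Lib.MP_7f377f_mp.Det

open MeasureTheory ProbabilityTheory Real Set Filter Topology

variable {X Y : Type*} [MeasurableSpace X] [MeasurableSpace Y] {c : ℝ} (c0 : 0 < c)
include c0

/-- measures on the line -/
theorem ham {A B : Measure ℝ} [IsFiniteMeasure A] [IsFiniteMeasure B]
    (hA : Integrable (fun x => exp (c * |x|)) A) (hB : Integrable (fun x => exp (c * |x|)) B)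
    (e : ∀ j : ℕ, ∫ x, x ^ j ∂A = ∫ x, x ^ j ∂B) : A = B := by
  have s : ∀ {A : Measure ℝ}, Integrable (fun x => exp (c * |x|)) A → ∀ z : ℂ, z.re ∈ Ioo (-c) c →
      z.re ∈ interior (integrableExpSet id A) := fun hA z hz => by
    refine interior_maximal (fun t ht => ?_) isOpen_Ioo hz
    refine hA.mono' (by fun_prop) (.of_forall fun x => ?_)
    rw [norm_of_nonneg (exp_pos _).le]
    exact exp_le_exp.2 ((le_abs_self _).trans ((abs_mul _ _).trans_le
      (mul_le_mul_of_nonneg_right (abs_lt.2 ht).le (abs_nonneg _))))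
  have z : (0 : ℂ).re ∈ Ioo (-c) c := by simpa
  have E := AnalyticOnNhd.eqOn_of_preconnected_of_eventuallyEq (U := {z : ℂ | z.re ∈ Ioo (-c) c})
    (fun z hz => analyticAt_complexMGF (s hA z hz)) (fun z hz => analyticAt_complexMGF (s hB z hz))
    ((convex_Ioo _ _).linear_preimage Complex.reLm).isPreconnected z (by
      have a := (analyticAt_complexMGF (s hA 0 z)).hasFPowerSeriesAt
      have b := (analyticAt_complexMGF (s hB 0 z)).hasFPowerSeriesAt
      simp only [iteratedDeriv_complexMGF (s hA 0 z), iteratedDeriv_complexMGF (s hB 0 z), id,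
        zero_mul, Complex.exp_zero, mul_one, ← Complex.ofReal_pow, integral_complex_ofReal, e] at a b
      filter_upwards [a.eventually_hasSum_sub, b.eventually_hasSum_sub] with y a b using a.unique b)
  exact Measure.ext_of_charFun (funext fun t => by
    rw [← complexMGF_id_mul_I, ← complexMGF_id_mul_I]
    exact E (by simpa))

theorem int_pw {E : Type*} [NormedAddCommGroup E] [NormedSpace ℝ E] {μ : Measure X} {s : X → ℝ}
    {h : X → E} (hs : Measurable s) (i : Integrable (fun x => exp (c * |s x|) • h x) μ) (j : ℕ) :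
    Integrable (fun x => s x ^ j • h x) μ := by
  refine ((i.bdd_smul (φ := fun x => s x ^ j / exp (c * |s x|)) (j.factorial / c ^ j)
    (Measurable.aestronglyMeasurable (by fun_prop)) (.of_forall fun x => ?_))).congr (.of_forall fun x => ?_)
  · have := pow_div_factorial_le_exp (c * |s x|) (by positivity) j
    rw [norm_div, norm_pow, norm_of_nonneg (exp_pos _).le, norm_eq_abs,
      div_le_div_iff₀ (exp_pos _) (by positivity), ← mul_pow, mul_comm _ c]
    rwa [div_le_iff₀' (by positivity)] at this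
  · simp only [Pi.smul_apply', smul_smul, div_mul_cancel₀ _ (exp_pos _).ne']

variable {m : X → ℝ} (hm : Measurable m) (m0 : ∀ x, 0 ≤ m x)
include hm m0

/-- measures on the half line -/
theorem sti {A B : Measure X} [IsFiniteMeasure A] [IsFiniteMeasure B]
    (hA : Integrable (fun x => exp (c * √(m x))) A) (hB : Integrable (fun x => exp (c * √(m x))) B)
    (e : ∀ j : ℕ, ∫ x, m x ^ j ∂A = ∫ x, m x ^ j ∂B) : A.map m = B.map m := by
  have s1 : Measurable fun x => √(m x) := hm.sqrt
  have a : ∀ {A : Measure X}, Integrable (fun x => exp (c * √(m x))) A →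
      Integrable (fun x => exp (c * |x|)) (A.map (fun x => √(m x)) + A.map fun x => -√(m x)) ∧
      (∀ j : ℕ, ∫ x, x ^ j ∂(A.map (fun x => √(m x)) + A.map fun x => -√(m x)) =
        if Even j then 2 * ∫ x, m x ^ (j / 2) ∂A else 0) ∧
      (A.map (fun x => √(m x)) + A.map fun x => -√(m x)).map (· ^ 2) = 2 • A.map m := fun {A} hA => by
    have i : Integrable (fun x => exp (c * |x|)) (A.map fun x => √(m x)) ∧
        Integrable (fun x => exp (c * |x|)) (A.map fun x => -√(m x)) := by
      constructor <;> rw [integrable_map_measure (by fun_prop) (by fun_prop)] <;>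
        simpa [Function.comp_def, abs_of_nonneg] using hA
    have p : ∀ {A : Measure ℝ}, Integrable (fun x => exp (c * |x|)) A → ∀ j : ℕ,
        Integrable (fun x : ℝ => x ^ j) A := fun i j => by
      simpa using int_pw c0 (h := fun _ => (1 : ℝ)) measurable_id (by simpa using i) j
    refine ⟨i.1.add_measure i.2, fun j => ?_, ?_⟩
    · rw [integral_add_measure (p i.1 j) (p i.2 j), integral_map (by fun_prop) (by fun_prop),
        integral_map (by fun_prop) (by fun_prop)]
      split_ifs with e
      · obtain ⟨k, rfl⟩ := e.two_dvd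
        simp [pow_mul, sq_sqrt (m0 _), two_mul (∫ _, _ ∂_)]
      · simp [(Nat.not_even_iff_odd.1 e).neg_pow, integral_neg]
    · rw [Measure.map_add _ _ (by fun_prop), Measure.map_map (by fun_prop) s1,
        Measure.map_map (by fun_prop) s1.fun_neg, two_smul]
      simp [Function.comp_def, sq_sqrt (m0 _)]
  have := congrArg (Measure.map (· ^ 2)) (ham c0 (a hA).1 (a hB).1 fun j => by
    rw [(a hA).2.1, (a hB).2.1, e])
  rw [(a hA).2.2, (a hB).2.2] at this
  ext s hs
  simpa [ENNReal.mul_right_inj] using congrArg (· s) this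

theorem int_sq {μ : Measure X} {h : X → ℂ} (i : Integrable (fun x => exp (c * √(m x)) * h x) μ)
    (j : ℕ) : Integrable (fun x => m x ^ j * h x) μ := by
  simpa [pow_mul, sq_sqrt (m0 _)] using
    int_pw (h := h) c0 hm.sqrt (by simpa [abs_of_nonneg] using i) (2 * j)

variable {μ : Measure X} {φ : ℝ → ℂ} {C : ℝ} (hφ : Measurable φ) (hC : ∀ t, ‖φ t‖ ≤ C)
include hφ hC

theorem det0 {h : X → ℝ} (i : Integrable (fun x => exp (c * √(m x)) * h x) μ)
    (e : ∀ j : ℕ, ∫ x, m x ^ j * h x ∂μ = 0) : ∫ x, h x • φ (m x) ∂μ = 0 := by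
  have p : ∀ {h : X → ℝ}, Integrable (fun x => exp (c * √(m x)) * h x) μ → ∀ j : ℕ,
      Integrable (fun x => m x ^ j * h x) μ := fun {h} i j => by
    simpa [pow_mul, sq_sqrt (m0 _)] using
      int_pw (h := h) c0 hm.sqrt (by simpa [abs_of_nonneg] using i) (2 * j)
  have a : ∀ {h : X → ℝ}, Integrable (fun x => exp (c * √(m x)) * h x) μ →
      Integrable (fun x => exp (c * √(m x)) * max (h x) 0) μ := fun i => by
    simpa [mul_max_of_nonneg _ _ (exp_pos _).le] using i.pos_part
  have b : ∀ {h : X → ℝ}, Integrable (fun x => exp (c * √(m x)) * h x) μ → ∃ A : Measure X,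
      IsFiniteMeasure A ∧ Integrable (fun x => exp (c * √(m x))) A ∧
      (∀ j : ℕ, ∫ x, m x ^ j ∂A = ∫ x, m x ^ j * max (h x) 0 ∂μ) ∧
      ∫ t, φ t ∂A.map m = ∫ x, max (h x) 0 • φ (m x) ∂μ := fun {h} i => by
    have i0 : Integrable h μ := by simpa using p i 0
    have u : AEMeasurable (fun x => ENNReal.ofReal (h x)) μ := i0.1.aemeasurable.ennreal_ofReal
    have v : ∀ᵐ x ∂μ, ENNReal.ofReal (h x) < ⊤ := .of_forall fun _ => ENNReal.ofReal_lt_top
    refine ⟨_, isFiniteMeasure_withDensity_ofReal i0.2, ?_, fun j => ?_, ?_⟩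
    · simpa [integrable_withDensity_iff_integrable_smul₀' u v, ENNReal.toReal_ofReal', mul_comm]
        using a i
    · simp [integral_withDensity_eq_integral_toReal_smul₀ u v, ENNReal.toReal_ofReal', mul_comm]
    · simp [integral_map hm.aemeasurable hφ.aestronglyMeasurable,
        integral_withDensity_eq_integral_toReal_smul₀ u v, ENNReal.toReal_ofReal']
  have i' : Integrable (fun x => exp (c * √(m x)) * -h x) μ := by simpa using i.neg
  obtain ⟨A, _, a1, a2, a3⟩ := b i
  obtain ⟨B, _, b1, b2, b3⟩ := b i'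
  have q : ∀ {h : X → ℝ}, Integrable (fun x => exp (c * √(m x)) * h x) μ →
      Integrable (fun x => h x • φ (m x)) μ := fun i =>
    Integrable.smul_bdd (by simpa using p i 0) C (hφ.comp hm).aestronglyMeasurable
      (.of_forall fun _ => hC _)
  rw [sti c0 hm m0 a1 b1 fun j => ?_, b3, eq_comm, ← sub_eq_zero,
    ← integral_sub (q (a i)) (q (a i'))] at a3
  · simpa only [← sub_smul, max_zero_sub_max_neg_zero_eq_self] using a3
  rw [a2, b2, ← sub_eq_zero, ← integral_sub (p (a i) j) (p (a i') j)]
  simpa [← mul_sub] using e j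

theorem det1 {h : X → ℂ} (i : Integrable (fun x => exp (c * √(m x)) * h x) μ)
    (e : ∀ j : ℕ, ∫ x, m x ^ j * h x ∂μ = 0) : ∫ x, φ (m x) * h x ∂μ = 0 := by
  have p := int_sq c0 hm m0 i
  have q : ∀ L : ℂ →L[ℝ] ℝ, Integrable (fun x => L (h x) • φ (m x)) μ ∧
      ∫ x, L (h x) • φ (m x) ∂μ = 0 := fun L =>
    ⟨Integrable.smul_bdd (L.integrable_comp (by simpa using p 0)) C
      (hφ.comp hm).aestronglyMeasurable (.of_forall fun _ => hC _), det0 c0 hm m0 hφ hC
      (by simpa only [← Complex.real_smul, map_smul, smul_eq_mul] using L.integrable_comp i)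
      fun j => by
        have := L.integral_comp_comm (p j)
        rw [e, map_zero] at this
        simpa only [← Complex.ofReal_pow, ← Complex.real_smul, map_smul, smul_eq_mul] using this⟩
  have := integral_add (q Complex.reCLM).1 ((q Complex.imCLM).1.mul_const Complex.I)
  rw [integral_mul_const, (q _).2, (q _).2, zero_mul, add_zero] at this
  refine (integral_congr_ae (.of_forall fun x => ?_)).trans this
  simp only [Complex.reCLM_apply, Complex.imCLM_apply, Complex.real_smul]
  rw [mul_right_comm, ← add_mul, Complex.re_add_im, mul_comm]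

/-- complex measures on the half line -/
theorem det {ν : Measure Y} {n : Y → ℝ} (hn : Measurable n) (n0 : ∀ y, 0 ≤ n y) {h : X → ℂ}
    {k : Y → ℂ} (i : Integrable (fun x => exp (c * √(m x)) * h x) μ)
    (i' : Integrable (fun y => exp (c * √(n y)) * k y) ν)
    (e : ∀ j : ℕ, ∫ x, m x ^ j * h x ∂μ = ∫ y, n y ^ j * k y ∂ν) :
    ∫ x, φ (m x) * h x ∂μ = ∫ y, φ (n y) * k y ∂ν := by
  have l : MeasurableEmbedding (Sum.inl : X → X ⊕ Y) :=
    ⟨Sum.inl_injective, measurable_inl, fun _ => .inl_image⟩
  have r : MeasurableEmbedding (Sum.inr : Y → X ⊕ Y) :=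
    ⟨Sum.inr_injective, measurable_inr, fun _ => .inr_image⟩
  have s : ∀ {ψ : ℝ → ℂ}, Integrable (fun x => ψ (m x) * h x) μ →
      Integrable (fun y => ψ (n y) * k y) ν →
      Integrable (fun z => ψ (Sum.elim m n z) * Sum.elim h (-k) z) (μ.map .inl + ν.map .inr) ∧
      ∫ z, ψ (Sum.elim m n z) * Sum.elim h (-k) z ∂(μ.map .inl + ν.map .inr) =
        ∫ x, ψ (m x) * h x ∂μ - ∫ y, ψ (n y) * k y ∂ν := fun {ψ} a b => by
    have a' := (l.integrable_map_iff (g := fun z => ψ (Sum.elim m n z) * Sum.elim h (-k) z)).2 a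
    have b' := (r.integrable_map_iff (g := fun z => ψ (Sum.elim m n z) * Sum.elim h (-k) z)).2
      (by simpa [Function.comp_def] using b.neg)
    exact ⟨a'.add_measure b', by
      simp [integral_add_measure a' b', l.integral_map, r.integral_map, integral_neg, sub_eq_add_neg]⟩
  have a := int_sq c0 hm m0 i
  have b := int_sq c0 hn n0 i'
  rw [← sub_eq_zero, ← (s (((a 0).bdd_mul (hφ.comp hm).aestronglyMeasurable (.of_forall fun _ =>
    hC _)).congr (by simp)) (((b 0).bdd_mul (hφ.comp hn).aestronglyMeasurable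
      (.of_forall fun _ => hC _)).congr (by simp))).2]
  exact det1 c0 (hm.sumElim hn) (fun z => by cases z; exacts [m0 _, n0 _]) hφ hC
    (s (ψ := fun t => exp (c * √t)) i i').1 fun j => by
      rw [(s (ψ := fun t => t ^ j) (a j) (b j)).2, e, sub_self]

end Pool.Agent.Lib.MP_7f377f_mp.Det
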