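import Pool.Agent.Lib.MP_7f377f_mp.WeakT2
import Pool.Agent.Lib.MP_7f377f_mp.G.YM5Defs

/-! The quaternions as a Hilbert-Schmidt algebra: bridges between the three languages. -/

noncomputable section

namespace Pool.Agent.Lib.MP_7f377f_mp.YM5
variable [GD]

open MeasureTheory Weak
open scoped Quaternion InnerProductSpace

set_option linter.unusedSectionVars false

/-- real matrices with a multiple of the Frobenius norm -/
def MA : Type := Matrix (Fin GD.n) (Fin GD.n) ℝ

instance : Ring MA := inferInstanceAs (Ring (Matrix (Fin GD.n) (Fin GD.n) ℝ))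
instance : StarRing MA := inferInstanceAs (StarRing (Matrix (Fin GD.n) (Fin GD.n) ℝ))
instance : Algebra ℝ MA := inferInstanceAs (Algebra ℝ (Matrix (Fin GD.n) (Fin GD.n) ℝ))

/-- the underlying matrix -/
def MA.m : MA ≃ₐ[ℝ] Matrix (Fin GD.n) (Fin GD.n) ℝ := AlgEquiv.refl

theorem t_pos : 0 < GD.t := one_pos.trans_le GD.t1

section
open scoped Matrix.Norms.Frobenius

instance : NormedAddCommGroup MA := AddGroupNorm.toNormedAddCommGroup
  { toFun := fun X => GD.t * ‖MA.m X‖
    map_zero' := by simp
    add_le' := fun X Y => by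
      rw [map_add, ← mul_add]
      exact mul_le_mul_of_nonneg_left (norm_add_le _ _) t_pos.le
    neg' := fun X => by simp
    eq_zero_of_map_eq_zero' := fun X h => MA.m.map_eq_zero_iff.1
      (norm_eq_zero.1 ((mul_eq_zero.1 h).resolve_left t_pos.ne')) }

theorem norm_MA (X : MA) : ‖X‖ = GD.t * ‖MA.m X‖ := rfl

instance : NormedRing MA where
  dist_eq := NormedAddCommGroup.dist_eq
  norm_mul_le X Y := by
    have h := mul_le_mul_of_nonneg_left (norm_mul_le (MA.m X) (MA.m Y)) t_pos.le
    have h2 := mul_nonneg (mul_nonneg t_pos.le (sub_nonneg.2 GD.t1))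
      (mul_nonneg (norm_nonneg (MA.m X)) (norm_nonneg (MA.m Y)))
    simp only [norm_MA, map_mul]
    linarith

instance : NormedAlgebra ℝ MA where
  norm_smul_le c X := by
    simp only [norm_MA, map_smul, norm_smul]
    exact (mul_left_comm _ _ _).le

/-- the matrices with a multiple of the trace -/
@[reducible] def quatHS : HS MA where
  tr := GD.t ^ 2 • Matrix.traceLinearMap (Fin GD.n) ℝ ℝ ∘ₗ MA.m.toLinearMap
  tr_mul_comm a b := congrArg (GD.t ^ 2 * ·) (Matrix.trace_mul_comm (MA.m a) (MA.m b))
  tr_star a := congrArg (GD.t ^ 2 * ·) (Matrix.trace_transpose (MA.m a))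
  norm_sq a := by
    change _ = GD.t ^ 2 * ((MA.m a).transpose * MA.m a).trace
    rw [norm_MA, mul_pow, Matrix.frobenius_norm_def, ← Real.sqrt_eq_rpow,
      Real.sq_sqrt (by positivity), Finset.sum_comm]
    simp [Matrix.trace, Matrix.mul_apply, sq]
  star_smul r a := Matrix.transpose_smul r (MA.m a)
  fin := inferInstanceAs (FiniteDimensional ℝ (Matrix (Fin GD.n) (Fin GD.n) ℝ))

theorem cont_m : Continuous MA.m ∧ Continuous MA.m.symm := by
  let _ := quatHS
  exact ⟨MA.m.toLinearMap.continuous_of_finiteDimensional,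
    MA.m.symm.toLinearMap.continuous_of_finiteDimensional⟩

set_option backward.isDefEq.respectTransparency false in
theorem exp_m (X : MA) : MA.m (NormedSpace.exp X) = NormedSpace.exp (MA.m X) := by
  let _ := quatHS
  exact NormedSpace.map_exp MA.m cont_m.1 X

end

/-- the defining representation -/
def rho : SU2 →* unitary MA where
  toFun g := ⟨MA.m.symm (GD.rho g), GD.rho_orth g,
    (mul_eq_one_comm (a := (GD.rho g).transpose)).1 (GD.rho_orth g)⟩
  map_one' := Subtype.ext (map_one GD.rho)
  map_mul' g g' := Subtype.ext (map_mul GD.rho g g')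

theorem rho_val (g : SU2) : MA.m (rho g : MA) = GD.rho g := rfl

theorem rho_cont : Continuous rho := (cont_m.2.comp GD.rho_cont).subtype_mk _

theorem lie_rho : letI := quatHS
    lieAlg rho = Submodule.span ℝ (Set.range fun k => MA.m.symm (GD.e k)) := by
  let _ := quatHS
  rw [lieAlg, ← Submodule.span_eq (Submodule.span ℝ (Set.range _))]
  congr 1
  ext X
  refine Iff.trans (forall_congr' fun s => exists_congr fun g => ?_) (GD.lie (MA.m X)).symm
  rw [← MA.m.injective.eq_iff, exp_m, map_smul, rho_val]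

theorem finrank_lie : letI := quatHS
    Module.finrank ℝ (lieAlg rho) = GD.d := by
  let _ := quatHS
  rw [lie_rho, finrank_span_eq_card, Fintype.card_fin]
  exact (orthonormal_iff_ite.2 fun k j => GD.e_on k j).linearIndependent

theorem qq_rho (g : SU2) : qq rho g = 2 - 2 * GD.re1 g := by
  let _ := quatHS
  rw [qq_eq]
  change 2 * (GD.t ^ 2 * (1 : Matrix (Fin GD.n) (Fin GD.n) ℝ).trace -
    GD.t ^ 2 * (GD.rho g).trace) = _
  rw [Matrix.trace_one, Fintype.card_fin, GD.re1]
  ring

variable {n k : ℕ}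

theorem dens_eq (U : Cfg n) (x : Fin 4 → ZMod n) :
    dens U x = ∑ i, ∑ j, if i < j then qq rho (hol U x i j) else 0 := by
  simp only [qq_rho]
  rfl

theorem dens_nonneg (U : Cfg n) (x : Fin 4 → ZMod n) : 0 ≤ dens U x := by
  let _ := quatHS
  rw [dens_eq]
  refine Finset.sum_nonneg fun i _ => Finset.sum_nonneg fun j _ => ?_
  split_ifs
  · exact qq_nonneg _ _
  · exact le_rfl

theorem OU_diag {A : Type} [NormedRing A] [StarRing A] [NormedAlgebra ℝ A] [HS A] {G : Type}
    [Group G] (ρ : G →* unitary A) {d L : ℕ} (r : ℝ) (x : Site d L) (a : Fin d × Fin d)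
    (U : Link d L → G) : OU ρ r x a a U = r ^ 2 * qq ρ (hol U x a.1 a.2) := by
  rw [OU, real_inner_self_eq_norm_sq, qq]

variable [NeZero n]

theorem act_rho (U : Cfg n) : act rho U = 2 * ∑ x, dens U x := by
  let _ := quatHS
  rw [act, Finset.mul_sum]
  refine Finset.sum_congr rfl fun x _ => ?_
  rw [dens_eq]
  exact sum_lt_pairs _ (fun i j => by rw [hol_swap, qq_inv]) fun i => by rw [hol_self, qq_one]

variable [MeasurableSpace SU2] (h : Measure SU2)

theorem wilson_nu (b : ℝ) : wilson h b n = nu h rho 4 n (b / 2) := by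
  rw [wilson, nu]
  congr 1
  funext U
  rw [act_rho]
  ring

theorem tilted_add_const {α : Type} [MeasurableSpace α] (μ : Measure α) (f : α → ℝ) (c : ℝ) :
    μ.tilted (fun x => f x + c) = μ.tilted f := by
  simp only [Measure.tilted, Real.exp_add, integral_mul_const,
    mul_div_mul_right _ _ (Real.exp_ne_zero c)]

variable [BorelSpace SU2] [h.IsHaarMeasure] [IsProbabilityMeasure h]

theorem wilson_prob (b : ℝ) : IsProbabilityMeasure (wilson h b n) := by
  let _ := quatHS
  rw [wilson_nu]
  exact nu_prob h rho rho_cont _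

omit [MeasurableSpace SU2] [BorelSpace SU2] [NeZero n] in
theorem continuous_dens (x : Fin 4 → ZMod n) : Continuous fun U : Cfg n => dens U x := by
  unfold dens
  refine continuous_finsetSum _ fun i _ => continuous_finsetSum _ fun j _ => ?_
  split_ifs
  · exact continuous_const.sub (continuous_const.mul ((continuous_const.sub (continuous_const.mul
      (continuous_const.sub GD.rho_cont.matrix_trace))).comp (by fun_prop)))
  · exact continuous_const

omit [MeasurableSpace SU2] [BorelSpace SU2] in
theorem continuous_field (f : T4 → ℝ) : Continuous fun U : Cfg n => field f U :=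
  continuous_finsetSum _ fun x _ => continuous_const.mul (continuous_dens x)

omit [MeasurableSpace SU2] [BorelSpace SU2] in
theorem rep_toAddCircle (x : ZMod n) :
    (AddCircle.equivIoc 1 (-2⁻¹) (ZMod.toAddCircle x) : ℝ) = x.valMinAbs / n := by
  have n0 : (0 : ℝ) < n := Nat.cast_pos.2 (NeZero.pos n)
  have h := x.valMinAbs_mem_Ioc
  have h1 : (-(n : ℝ)) < x.valMinAbs * 2 := by exact_mod_cast h.1
  have h2 : (x.valMinAbs * 2 : ℝ) ≤ n := by exact_mod_cast h.2
  conv_lhs => rw [← x.coe_valMinAbs, ZMod.toAddCircle_intCast]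
  refine AddCircle.equivIoc_coe_of_mem ⟨?_, ?_⟩
  · rw [lt_div_iff₀ n0]; linarith
  · rw [div_le_iff₀ n0]; linarith

omit [MeasurableSpace SU2] [BorelSpace SU2] in
theorem zoom_site (d : ℝ) (f : R4 → ℝ) (x : Fin 4 → ZMod n) :
    zoom d f (fun i => ZMod.toAddCircle (x i)) =
      f (WithLp.toLp 2 fun i => (n * d)⁻¹ * (lift x i : ℝ)) := by
  simp only [zoom, rep_toAddCircle, lift]
  congr 2
  funext i
  rw [div_div, div_eq_inv_mul]

end Pool.Agent.Lib.MP_7f377f_mp.YM5
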