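import Pool.Agent.Lib.MP_7f377f_mp.G.InfDefs
import Pool.Agent.Lib.MP_7f377f_mp.G.SmeA
import Pool.Agent.Lib.MP_7f377f_mp.OddRP

/-! Exact properties of the lattice correlations: multilinearity, symmetries, positivity. -/

noncomputable section

namespace Pool.Agent.Lib.MP_7f377f_mp.YM7
variable [GD]

open MeasureTheory Weak
open scoped Quaternion

set_option linter.unusedSectionVars false

variable {n k : ℕ}

theorem pe_eq (U : Cfg n) (x : Site 4 n) (i j : Fin 4) :
    pe U x i j = qq YM5.rho (hol U x i j) := (YM5.qq_rho _).symm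

theorem pe_symm (U : Cfg n) (x : Site 4 n) (i j : Fin 4) : pe U x j i = pe U x i j := by
  let _ := YM5.quatHS
  rw [pe_eq, pe_eq, hol_swap, qq_inv]

theorem pe_self (U : Cfg n) (x : Site 4 n) (i : Fin 4) : pe U x i i = 0 := by
  let _ := YM5.quatHS
  rw [pe_eq, hol_self, qq_one]

theorem continuous_pe (x : Site 4 n) (i j : Fin 4) : Continuous fun U : Cfg n => pe U x i j := by
  let _ := YM5.quatHS
  simp only [pe_eq]
  exact (continuous_qq _ YM5.rho_cont).comp (continuous_hol x i j)

/-- permutation of the axes -/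
def prm (σ : Equiv.Perm (Fin 4)) (U : Cfg n) : Cfg n := fun e => U (e.1 ∘ σ.symm, σ e.2)

theorem pe_prm (σ : Equiv.Perm (Fin 4)) (U : Cfg n) (x : Site 4 n) (i j : Fin 4) :
    pe (prm σ U) x i j = pe U (x ∘ σ.symm) (σ i) (σ j) := by
  have e : ∀ i, (x + Pi.single i 1 : Site 4 n) ∘ σ.symm = x ∘ σ.symm + Pi.single (σ i) 1 := by
    intro i
    funext l
    simp only [Function.comp, Pi.add_apply, Pi.single_apply, Equiv.symm_apply_eq]
  simp only [pe, prm, e]

theorem dens_prm (σ : Equiv.Perm (Fin 4)) (U : Cfg n) (x : Site 4 n) :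
    dens (prm σ U) x = dens U (x ∘ σ.symm) := by
  have h1 := sum_lt_pairs (pe (prm σ U) x) (pe_symm _ _) (pe_self _ _)
  have h2 := sum_lt_pairs (pe U (x ∘ σ.symm)) (pe_symm _ _) (pe_self _ _)
  have h3 : ∑ i, ∑ j, pe (prm σ U) x i j = ∑ i, ∑ j, pe U (x ∘ σ.symm) i j := by
    simp only [pe_prm]
    rw [← Equiv.sum_comp σ fun i => ∑ j, pe U (x ∘ σ.symm) i j]
    exact Finset.sum_congr rfl fun i _ => Equiv.sum_comp σ fun j => pe U (x ∘ σ.symm) (σ i) j
  exact mul_left_cancel₀ two_ne_zero (h1.symm.trans (h3.trans h2))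

variable [NeZero n]

theorem continuous_gfield (F : Src n) : Continuous (gfield F) := by
  refine continuous_finsetSum _ fun x _ => continuous_finsetSum _ fun i _ =>
    continuous_finsetSum _ fun j _ => ?_
  split_ifs
  · exact continuous_const.mul (continuous_pe x i j)
  · exact continuous_const

theorem gfield_site (g : Site 4 n → ℝ) (U : Cfg n) :
    gfield (fun x _ _ => g x) U = ∑ x, g x * dens U x := by
  simp only [gfield, dens, pe, Finset.mul_sum, mul_ite, mul_zero]

theorem gfield_shift (F : Src n) (s : Site 4 n) (U : Cfg n) :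
    gfield (fun x => F (x - s)) U = gfield F (shift s U) := by
  simp only [gfield, pe_eq, hol_shift]
  rw [← Equiv.sum_comp (Equiv.addRight s)]
  simp only [Equiv.coe_addRight, add_sub_cancel_right]

/-- reflection of sources -/
def rF (l : Fin 4) (F : Src n) : Src n := fun x i j => F (rq l i j x) i j

theorem gfield_refl (l : Fin 4) (F : Src n) (U : Cfg n) :
    gfield (rF l F) U = gfield F (refl l U) := by
  let _ := YM5.quatHS
  simp only [gfield, pe_eq, qq_hol_refl, rF]
  rw [← sum_rq l]
  simp only [rq_rq]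

theorem gfield_prm (σ : Equiv.Perm (Fin 4)) (g : Site 4 n → ℝ) (U : Cfg n) :
    gfield (fun x _ _ => g (x ∘ σ)) U = gfield (fun x _ _ => g x) (prm σ U) := by
  simp only [gfield_site, dens_prm]
  rw [← (Equiv.arrowCongr σ (Equiv.refl (ZMod n))).sum_comp]
  refine Finset.sum_congr rfl fun x _ => ?_
  congr 2
  funext l
  simp

theorem dep_gfield {l : Fin 4} {F : Src n} (hF : ∀ x i j, F x i j ≠ 0 → (x l).val < n / 2) :
    Dep (n / 2) l (gfield F) := by
  intro U V hUV
  refine Finset.sum_congr rfl fun x _ => Finset.sum_congr rfl fun i _ =>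
    Finset.sum_congr rfl fun j _ => ?_
  by_cases h : F x i j = 0
  · simp only [h, zero_mul]
  · have h1 := hF x i j h
    have := dep_hol' (Nat.div_lt_self (NeZero.pos n) one_lt_two) l i j x h1.le (fun _ => h1) U V hUV
    simp only at this
    rw [pe_eq, pe_eq, this]

variable [MeasurableSpace SU2] [BorelSpace SU2] (h : Measure SU2) [h.IsHaarMeasure]
  [IsProbabilityMeasure h] (b : ℝ)

theorem wilson_nu : wilson h b n = nu h YM5.rho 4 n (b / 2) := YM5.wilson_nu h b

instance : IsProbabilityMeasure (wilson h b n) := YM5.wilson_prob h b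

theorem mp_shift' (s : Site 4 n) : MeasurePreserving (shift s) (wilson h b n) (wilson h b n) := by
  let _ := YM5.quatHS
  rw [wilson_nu]
  exact nu_shift h _ YM5.rho_cont _ s

theorem mp_refl' (l : Fin 4) : MeasurePreserving (refl l) (wilson h b n) (wilson h b n) := by
  let _ := YM5.quatHS
  rw [wilson_nu]
  exact nu_refl h _ YM5.rho_cont _ l

theorem mp_prm (σ : Equiv.Perm (Fin 4)) :
    MeasurePreserving (prm σ) (wilson h b n) (wilson h b n) := by
  let _ := YM5.quatHS
  rw [wilson_nu]
  refine nu_mp h _ YM5.rho_cont _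
    (mp_reindex h ((Equiv.arrowCongr σ (Equiv.refl (ZMod n))).prodCongr σ)) fun U => ?_
  rw [YM5.act_rho, YM5.act_rho]
  congr 1
  rw [← (Equiv.arrowCongr σ (Equiv.refl (ZMod n))).sum_comp fun x => YM5.dens U x]
  exact Finset.sum_congr rfl fun x _ => dens_prm σ U x

/-- the centred field -/
def cen (F : Src n) (U : Cfg n) : ℝ := gfield F U - ∫ V, gfield F V ∂wilson h b n

omit [BorelSpace SU2] [h.IsHaarMeasure] [IsProbabilityMeasure h] in
theorem continuous_cen (F : Src n) : Continuous (cen h b F) :=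
  (continuous_gfield F).sub continuous_const

theorem gcorr_eq (F : Fin k → Src n) :
    gcorr h b n F = ∫ U, ∏ i, cen h b (F i) U ∂wilson h b n := rfl

theorem cen_of {Θ : Cfg n → Cfg n} (hΘ : MeasurePreserving Θ (wilson h b n) (wilson h b n))
    {F G : Src n} (e : ∀ U, gfield G U = gfield F (Θ U)) (U : Cfg n) :
    cen h b G U = cen h b F (Θ U) := by
  simp only [cen, e, int_mp hΘ (continuous_gfield F)]

theorem gcorr_of {Θ : Cfg n → Cfg n} (hΘ : MeasurePreserving Θ (wilson h b n) (wilson h b n))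
    {F G : Fin k → Src n} (e : ∀ i U, gfield (G i) U = gfield (F i) (Θ U)) :
    gcorr h b n G = gcorr h b n F := by
  simp only [gcorr_eq, cen_of h b hΘ (e _)]
  exact int_mp hΘ (continuous_finsetProd _ fun i _ => continuous_cen h b (F i))

theorem gcorr_shift (F : Fin k → Src n) (s : Site 4 n) :
    gcorr h b n (fun i x => F i (x - s)) = gcorr h b n F :=
  gcorr_of h b (mp_shift' h b s) fun i => gfield_shift (F i) s

theorem gcorr_refl (l : Fin 4) (F : Fin k → Src n) :
    gcorr h b n (fun i => rF l (F i)) = gcorr h b n F :=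
  gcorr_of h b (mp_refl' h b l) fun i => gfield_refl l (F i)

theorem gcorr_prm (σ : Equiv.Perm (Fin 4)) (g : Fin k → Site 4 n → ℝ) :
    gcorr h b n (fun i x _ _ => g i (x ∘ σ)) = gcorr h b n fun i x _ _ => g i x :=
  gcorr_of h b (mp_prm h b σ) fun i => gfield_prm σ (g i)

theorem gcorr_comp (π : Equiv.Perm (Fin k)) (F : Fin k → Src n) :
    gcorr h b n (F ∘ π) = gcorr h b n F := by
  simp only [gcorr_eq, Function.comp]
  congr 1
  funext U
  exact Equiv.prod_comp π fun i => cen h b (F i) U

theorem corr_eq (a : ℝ) (f : Fin k → R4 → ℝ) : corr h b n a f =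
    gcorr h b n fun i x _ _ => f i (WithLp.toLp 2 fun l => a * (x l).valMinAbs) := by
  simp only [corr, gcorr, gfield_site, field]

theorem corr5_eq (f : Fin k → YM5.T4 → ℝ) : YM5.corr h b n f =
    gcorr h b n fun i x _ _ => f i fun l => ZMod.toAddCircle (x l) := by
  simp only [YM5.corr, gcorr, gfield_site, YM5.field]
  rfl

/-- the centred field as a linear map -/
def cenL : Src n →ₗ[ℝ] C(Cfg n, ℝ) where
  toFun F := ⟨cen h b F, continuous_cen h b F⟩
  map_add' F G := by
    have e : ∀ U, gfield (F + G) U = gfield F U + gfield G U := fun U => by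
      simp only [gfield, Pi.add_apply, add_mul, ← Finset.sum_add_distrib, ite_add_ite, add_zero]
    ext U
    simp only [cen, e, ContinuousMap.coe_mk, ContinuousMap.add_apply,
      integral_add (cint _ (continuous_gfield F)) (cint _ (continuous_gfield G))]
    ring
  map_smul' c F := by
    have e : ∀ U, gfield (c • F) U = c * gfield F U := fun U => by
      simp only [gfield, Pi.smul_apply, smul_eq_mul, Finset.mul_sum, mul_ite, mul_zero, mul_assoc]
    ext U
    simp only [cen, e, ContinuousMap.coe_mk, ContinuousMap.smul_apply, integral_const_mul,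
      RingHom.id_apply, smul_eq_mul, mul_sub]

/-- the expectation as a linear map -/
def intL : C(Cfg n, ℝ) →ₗ[ℝ] ℝ where
  toFun φ := ∫ U, φ U ∂wilson h b n
  map_add' φ ψ := integral_add (cint _ φ.2) (cint _ ψ.2)
  map_smul' c φ := integral_const_mul c φ

/-- the correlation function as a multilinear map -/
def gM (k : ℕ) : MultilinearMap ℝ (fun _ : Fin k => Src n) ℝ :=
  (intL h b).compMultilinearMap
    ((MultilinearMap.mkPiAlgebra ℝ (Fin k) C(Cfg n, ℝ)).compLinearMap fun _ => cenL h b)

theorem gM_apply (F : Fin k → Src n) : gM h b k F = gcorr h b n F := by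
  simp only [gM, LinearMap.compMultilinearMap_apply, MultilinearMap.compLinearMap_apply,
    MultilinearMap.mkPiAlgebra_apply, intL, LinearMap.coe_mk, AddHom.coe_mk,
    ContinuousMap.prod_apply]
  rfl

/-- linear combinations of products of centred fields -/
def pol {m : ℕ} (c : Fin m → ℝ) {k : Fin m → ℕ} (F : ∀ a, Fin (k a) → Src n) (U : Cfg n) : ℝ :=
  ∑ a, c a * ∏ i, cen h b (F a i) U

omit [BorelSpace SU2] [h.IsHaarMeasure] [IsProbabilityMeasure h] in
theorem continuous_pol {m : ℕ} (c : Fin m → ℝ) {k : Fin m → ℕ} (F : ∀ a, Fin (k a) → Src n) :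
    Continuous (pol h b c F) :=
  continuous_finsetSum _ fun a _ => continuous_const.mul
    (continuous_finsetProd _ fun i _ => continuous_cen h b (F a i))

/-- the reflection form -/
def gform {m : ℕ} (c : Fin m → ℝ) {k : Fin m → ℕ} (F G : ∀ a, Fin (k a) → Src n) : ℝ :=
  ∑ a, ∑ a', c a * c a' * gcorr h b n (Fin.append (fun i => rF 0 (F a i)) (G a'))

theorem gform_eq {m : ℕ} (c : Fin m → ℝ) {k : Fin m → ℕ} (F G : ∀ a, Fin (k a) → Src n) :
    gform h b c F G = ∫ U, pol h b c G U * pol h b c F (refl 0 U) ∂wilson h b n := by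
  have cc := continuous_cen (n := n) h b
  have cr := continuous_refl (G := SU2) (L := n) (0 : Fin 4)
  simp only [gform, gcorr_eq, Fin.prod_univ_add, Fin.append_left, Fin.append_right, pol,
    cen_of h b (mp_refl' h b 0) (gfield_refl 0 _), ← integral_const_mul]
  simp only [Finset.sum_mul_sum]
  rw [Finset.sum_comm, integral_finsetSum _ fun a _ => cint _ (by fun_prop)]
  refine Finset.sum_congr rfl fun a _ => ?_
  rw [integral_finsetSum _ fun a _ => cint _ (by fun_prop)]
  refine Finset.sum_congr rfl fun a' _ => ?_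
  congr 1
  funext U
  ring

theorem dep_pol {m : ℕ} (c : Fin m → ℝ) {k : Fin m → ℕ} {F : ∀ a, Fin (k a) → Src n}
    (hF : ∀ a i x μ ν, F a i x μ ν ≠ 0 → (x 0).val < n / 2) : Dep (n / 2) 0 (pol h b c F) := by
  intro U V hUV
  simp only [pol, cen, dep_gfield (hF _ _) U V hUV]

theorem gform_nonneg (hb : 0 ≤ b) {m : ℕ} (c : Fin m → ℝ) {k : Fin m → ℕ}
    {F : ∀ a, Fin (k a) → Src n} (hF : ∀ a i x μ ν, F a i x μ ν ≠ 0 → (x 0).val < n / 2) :
    0 ≤ gform h b c F F := by
  let _ := YM5.quatHS
  rw [gform_eq, wilson_nu]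
  exact rp_pos_all _ h YM5.rho_cont (by linarith) 0 (continuous_pol h b c F) (dep_pol h b c hF)

theorem gform_cs (hb : 0 ≤ b) {m : ℕ} (c : Fin m → ℝ) {k : Fin m → ℕ}
    {F G : ∀ a, Fin (k a) → Src n} (hF : ∀ a i x μ ν, F a i x μ ν ≠ 0 → (x 0).val < n / 2)
    (hG : ∀ a i x μ ν, G a i x μ ν ≠ 0 → (x 0).val < n / 2) :
    gform h b c F G ^ 2 ≤ gform h b c G G * gform h b c F F := by
  let _ := YM5.quatHS
  simp only [gform_eq, wilson_nu]
  exact rp_ineq_all _ h YM5.rho_cont (by linarith) 0 (continuous_pol h b c G)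
    (continuous_pol h b c F) (dep_pol h b c hG) (dep_pol h b c hF)

end Pool.Agent.Lib.MP_7f377f_mp.YM7
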