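import Pool.Agent.Lib.MP_7f377f_mp.G.SmeF

/-! The Schwinger functions on the torus from convergence, a multilinear bound and a comparison
with weakly coupled lattices. -/

noncomputable section

namespace Pool.Agent.Lib.MP_7f377f_mp.YM5
variable [GD]

open MeasureTheory Filter Topology Weak Real Set
open YM7 (Src Nrm gcorr Sz On Bnd rF)
open scoped NNReal

set_option linter.unusedSectionVars false

variable {k n : ℕ}

theorem pairwise_append {α : Type} {R : α → α → Prop} (hR : ∀ x y, R x y → R y x) {l : ℕ}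
    {f : Fin k → α} {g : Fin l → α} (hf : Pairwise fun i j => R (f i) (f j))
    (hg : Pairwise fun i j => R (g i) (g j)) (h : ∀ i j, R (f i) (g j)) :
    Pairwise fun i j => R (Fin.append f g i) (Fin.append f g j) := by
  intro i j hij
  induction i using Fin.addCases <;> induction j using Fin.addCases <;>
    simp only [Fin.append_left, Fin.append_right]
  · exact hf fun e => hij (by rw [e])
  · exact h _ _
  · exact hR _ _ (h _ _)
  · exact hg fun e => hij (by rw [e])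

theorem forall_append {α : Type} {P : α → Prop} {l : ℕ} {f : Fin k → α} {g : Fin l → α}
    (hf : ∀ i, P (f i)) (hg : ∀ i, P (g i)) (i : Fin (k + l)) : P (Fin.append f g i) := by
  induction i using Fin.addCases <;> simp only [Fin.append_left, Fin.append_right]
  exacts [hf _, hg _]

theorem forall_append₂ {α β : Type} {P : α → β → Prop} {l : ℕ} {f : Fin k → α} {g : Fin l → α}
    {f' : Fin k → β} {g' : Fin l → β} (hf : ∀ i, P (f i) (f' i)) (hg : ∀ i, P (g i) (g' i))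
    (i : Fin (k + l)) : P (Fin.append f g i) (Fin.append f' g' i) := by
  induction i using Fin.addCases <;> simp only [Fin.append_left, Fin.append_right]
  exacts [hf _, hg _]

theorem norm_coe_le (x : ℝ) : ‖(x : UnitAddCircle)‖ ≤ |x| := by
  rw [UnitAddCircle.norm_eq]
  simpa using round_le x 0

/-- reflection of the torus -/
def th (t : T4) : T4 := Function.update t 0 (-t 0)

theorem th_th (t : T4) : th (th t) = t := by simp [th]

theorem th_isometry : Isometry th := by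
  have key : ∀ s t, dist (th s) (th t) ≤ dist s t := fun s t =>
    (dist_pi_le_iff dist_nonneg).2 fun l => by
      by_cases hl : l = 0
      · rw [hl, th, th, Function.update_self, Function.update_self, dist_neg_neg]
        exact dist_le_pi_dist s t 0
      · rw [th, th, Function.update_of_ne hl, Function.update_of_ne hl]
        exact dist_le_pi_dist s t l
  exact Isometry.of_dist_eq fun s t => le_antisymm (key s t) (by
    simpa only [th_th] using key (th s) (th t))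

theorem adm_append {l : ℕ} {f : Fin k → T4 → ℝ} {g : Fin l → T4 → ℝ} (hf : Adm f) (hg : Adm g)
    (h1 : ∀ i, ∀ t ∈ tsupport (f i), ∃ s : ℝ, 0 < s ∧ s < 2⁻¹ ∧ t 0 = s)
    (h2 : ∀ i, ∀ t ∈ tsupport (g i), ∃ s : ℝ, 0 < s ∧ s < 2⁻¹ ∧ t 0 = s) :
    Adm (Fin.append (fun i => theta (f i)) g) := by
  have h3 : Adm fun i => theta (f i) := hf.comp th_isometry
  refine ⟨forall_append (P := fun u => HasCompactSupport u ∧ ∃ K, LipschitzWith K u) h3.1 hg.1,
    pairwise_append (R := fun u v => Disjoint (tsupport u) (tsupport v)) (fun _ _ h => h.symm)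
      h3.2 hg.2 fun i j => disjoint_left.2 fun t ht ht' => ?_⟩
  obtain ⟨s, s0, s1, hs⟩ := h1 i (th t) (closure_minimal (t := th ⁻¹' tsupport (f i))
    (fun u hu => subset_tsupport _ hu) ((isClosed_tsupport _).preimage th_isometry.continuous) ht)
  obtain ⟨r, r0, r1, hr⟩ := h2 j t ht'
  rw [th, Function.update_self, hr, neg_eq_iff_add_eq_zero, ← AddCircle.coe_add,
    ← AddCircle.coe_zero, AddCircle.coe_eq_coe_iff_of_mem_Ico (a := 0) ⟨by linarith, by linarith⟩
      ⟨le_rfl, by linarith⟩] at hs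
  linarith

variable [NeZero n]

/-- position of a lattice site on the unit torus -/
def pos (x : Site 4 n) : T4 := fun l => ZMod.toAddCircle (x l)

theorem pos_add (x y : Site 4 n) : pos (x + y) = pos x + pos y := funext fun _ => map_add _ _ _

theorem pos_sub (x y : Site 4 n) : pos (x - y) = pos x - pos y := funext fun _ => map_sub _ _ _

theorem exists_pos (a : T4) : ∃ s : Site 4 n, dist a (pos s) ≤ (n : ℝ)⁻¹ := by
  have n0 : (0 : ℝ) < n := Nat.cast_pos.2 (NeZero.pos n)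
  refine ⟨fun l => (⌊rep a l * n⌋ : ℤ), (dist_pi_le_iff (by positivity)).2 fun l => ?_⟩
  rw [pos, ZMod.toAddCircle_intCast, ← coe_rep a l, dist_eq_norm, ← AddCircle.coe_sub]
  refine (norm_coe_le _).trans ?_
  have h1 := Int.floor_le (rep a l * n)
  have h2 := Int.lt_floor_add_one (rep a l * n)
  rw [sub_div' n0.ne', abs_div, abs_of_pos n0, ← one_div, abs_of_nonneg (by linarith)]
  gcongr
  linarith

theorem pos_step (x : Site 4 n) (l : Fin 4) :
    dist (pos (x + Pi.single l 1)) (pos x) ≤ (n : ℝ)⁻¹ := by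
  rw [pos_add, dist_eq_norm, add_sub_cancel_left]
  refine (pi_norm_le_iff_of_nonneg (by positivity)).2 fun i => ?_
  rw [pos]
  by_cases h : i = l
  · rw [h, Pi.single_eq_same, ← Nat.cast_one (R := ZMod n), ZMod.toAddCircle_natCast]
    exact (norm_coe_le _).trans_eq (by rw [Nat.cast_one, one_div, abs_of_nonneg (by positivity)])
  · rw [Pi.single_eq_of_ne h, map_zero, norm_zero]
    positivity

theorem th_rq (μ ν : Fin 4) (x : Site 4 n) : dist (th (pos (rq 0 μ ν x))) (pos x) ≤ (n : ℝ)⁻¹ := by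
  have e : ∀ x : Site 4 n, th (pos (rf 0 x)) = pos x := fun x => funext fun l => by
    by_cases hl : l = 0 <;> simp [th, pos, rf, hl]
  rw [rq]
  split_ifs
  · rw [rc, sub_eq_add_neg, ← rf_single, ← rf_add, e]
    exact pos_step x 0
  · rw [e, dist_self]
    positivity

/-- a test function as a source -/
def src (n : ℕ) [NeZero n] (f : T4 → ℝ) : Src n := fun x _ _ => f (pos x)

/-- the source samples the function within one lattice spacing -/
def Near (F : Src n) (f : T4 → ℝ) : Prop :=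
  ∀ x μ ν, ∃ t, dist t (pos x) ≤ (n : ℝ)⁻¹ ∧ F x μ ν = f t

theorem near_src (f : T4 → ℝ) : Near (src n f) f :=
  fun x _ _ => ⟨pos x, by rw [dist_self]; positivity, rfl⟩

theorem sz_src {f : T4 → ℝ} {L : ℝ≥0} (h1 : LipschitzWith L f) (h2 : ∀ t, |f t| ≤ L) {τ : ℝ}
    (hτ : 0 ≤ τ) : Sz L (n : ℝ)⁻¹ τ (src n f) :=
  YM7.sz_site hτ (fun _ => h2 _) fun x l => (h1.dist_le_mul _ _).trans
    (mul_le_mul_of_nonneg_left (pos_step x l) L.2)

theorem half_pos_side {f : T4 → ℝ}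
    (hf : ∀ t ∈ tsupport f, ∃ s : ℝ, 0 < s ∧ s < 2⁻¹ ∧ t 0 = s) :
    ∃ M : ℝ, ∀ (n : ℕ) [NeZero n], M ≤ n → ∀ x : Site 4 n, f (pos x) ≠ 0 → (x 0).val < n / 2 := by
  obtain ⟨ρ, ρ0, hρ⟩ := (isClosed_tsupport f).isCompact.exists_forall_le' (a := 0)
    (f := fun t => ‖t 0 - ((2⁻¹ : ℝ) : UnitAddCircle)‖) (by fun_prop) fun t ht => by
      obtain ⟨s, s0, s1, hs⟩ := hf t ht
      rw [norm_pos_iff, sub_ne_zero, hs, Ne, AddCircle.coe_eq_coe_iff_of_mem_Ico (a := 0)
        ⟨by linarith, by linarith⟩ ⟨by linarith, by linarith⟩]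
      exact s1.ne
  refine ⟨1 / ρ, fun n _ hn x hx => ?_⟩
  have n0 : (0 : ℝ) < n := Nat.cast_pos.2 (NeZero.pos n)
  obtain ⟨s, s0, s1, hs⟩ := hf _ (subset_tsupport _ hx)
  have h1 := hρ _ (subset_tsupport _ hx)
  simp only [hs, ← AddCircle.coe_sub] at h1
  have h2 := h1.trans (norm_coe_le _)
  rw [pos, ZMod.toAddCircle_apply, AddCircle.coe_eq_coe_iff_of_mem_Ico (a := 0)
    ⟨by positivity, by rw [zero_add, div_lt_one n0]; exact_mod_cast ZMod.val_lt _⟩
    ⟨by linarith, by linarith⟩, div_eq_iff n0.ne'] at hs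
  rw [abs_of_neg (by linarith)] at h2
  rw [div_le_iff₀ ρ0] at hn
  have : (2 * (x 0).val + 2 : ℝ) ≤ n := by nlinarith
  have : 2 * (x 0).val + 2 ≤ n := by exact_mod_cast this
  omega

variable [MeasurableSpace SU2] [BorelSpace SU2] (h : Measure SU2) [h.IsHaarMeasure]
  [IsProbabilityMeasure h] (N : ℕ → ℕ) [∀ J, NeZero (N J)] (b τ : ℕ → ℝ)

/-- convergence of the correlation functions -/
def Cvg : Prop := ∀ k (f : Fin k → T4 → ℝ), Adm f →
  ∃ s, Tendsto (fun J => corr h (b J) (N J) f) atTop (𝓝 s)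

/-- uniform bound for normalised sources with separated supports -/
def Bd5 : Prop := ∀ (k : ℕ) (δ : ℝ), 0 < δ → ∃ C : ℝ, ∀ᶠ J in atTop, ∀ F : Fin k → Src (N J),
  (∀ i, Nrm (N J : ℝ)⁻¹ (τ J) (F i)) → (∀ i j, i ≠ j → ∀ x μ ν y μ' ν', F i x μ ν ≠ 0 →
    F j y μ' ν' ≠ 0 → δ ≤ dist (pos x) (pos y)) → |gcorr h (b J) (N J) F| ≤ C

/-- comparison with an earlier lattice of the sequence -/
def Cmp5 (K C : ℕ) : Prop := ∀ k ≤ K, ∀ f : Fin k → R4 → ℝ, Adm f → ∀ η > 0, ∀ D₀ : ℝ,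
  ∀ᶠ d in 𝓝[>] (0 : ℝ), ∃ (J₀ : ℕ) (γ : ℝ), D₀ ≤ N J₀ * d ∧ (N J₀ * d) ^ C ≤ b J₀ ∧ |γ - 1| ≤ η ∧
    ∀ᶠ J in atTop, b J₀ ^ k * |corr h (b J) (N J) (fun i => zoom d (f i)) -
      γ * corr h (b J₀) (N J₀) fun i => zoom d (f i)| ≤ η

variable {h N b τ}

theorem Bd5.near (hB : Bd5 h N b τ) (hN : Tendsto (fun J => (N J : ℝ)) atTop atTop)
    (hτ : Tendsto (fun J => N J * τ J) atTop atTop) {f : Fin k → T4 → ℝ} (hf : Adm f)
    {F : ∀ J, Fin k → Src (N J)} (hF : ∀ J i, Near (F J i) (f i)) :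
    Tendsto (fun J => gcorr h (b J) (N J) (F J) - corr h (b J) (N J) f) atTop (𝓝 0) := by
  obtain ⟨δ, δ0, hδ⟩ := hf.sep
  obtain ⟨K, hK⟩ := hf.lip
  obtain ⟨M, hM⟩ := (isCompact_range (continuous_pi fun i => hf.cont i)).isBounded.exists_norm_le
  obtain ⟨L, h1, h2⟩ : ∃ L : ℝ≥0, (∀ i, LipschitzWith L (f i)) ∧ ∀ i t, |f i t| ≤ L :=
    ⟨max K M.toNNReal, fun i => (hK i).weaken (le_max_left _ _), fun i t =>
      ((norm_le_pi_norm (fun i => f i t) i).trans (hM _ ⟨t, rfl⟩)).trans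
        ((le_coe_toNNReal M).trans (NNReal.coe_le_coe.2 (le_max_right _ _)))⟩
  obtain ⟨C, hC⟩ := hB k _ (half_pos δ0)
  have t1 := (tendsto_inv_atTop_zero.comp hτ).const_mul (2 ^ k * (max C 0 * L ^ k))
  rw [mul_zero] at t1
  refine squeeze_zero_norm' ?_ t1
  filter_upwards [hC, hτ.eventually_ge_atTop 1, (tendsto_inv_atTop_zero.comp hN).eventually_le_const
    (show 0 < δ / 4 by positivity)] with J h3 h4 (h5 : (N J : ℝ)⁻¹ ≤ δ / 4)
  have n0 : (0 : ℝ) < N J := Nat.cast_pos.2 (NeZero.pos _)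
  have τ0 : 0 < τ J := (mul_pos_iff_of_pos_left n0).1 (one_pos.trans_le h4)
  have hb : Bnd h (b J) (N J : ℝ)⁻¹ (τ J) (max C 0)
      fun i => {x | ∃ t ∈ tsupport (f i), dist t (pos x) ≤ δ / 4} := fun G g1 g2 =>
    (h3 G g1 fun i j hij x μ ν y μ' ν' hx hy => by
      obtain ⟨s, hs, hs'⟩ := g2 i x μ ν hx
      obtain ⟨t, ht, ht'⟩ := g2 j y μ' ν' hy
      linarith [hδ i j hij s hs t ht, dist_triangle4_right s t (pos x) (pos y)]).trans
      (le_max_left _ _)
  have on : ∀ i (G : Src (N J)), Near G (f i) →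
      On {x | ∃ t ∈ tsupport (f i), dist t (pos x) ≤ δ / 4} G := fun i G hG x μ ν hx => by
    obtain ⟨t, ht, e⟩ := hG x μ ν
    exact ⟨t, subset_tsupport _ (e ▸ hx :), ht.trans h5⟩
  rw [YM7.corr5_eq]
  refine hb.pert (ε := (N J * τ J)⁻¹) (L := L) (le_max_right _ _) L.2 (by positivity)
    (inv_le_one_of_one_le₀ h4)
    (fun i => sz_src (h1 i) (h2 i) τ0.le) (fun i => YM7.sz_small (by positivity) (by positivity)
      fun x μ ν => ?_) (fun i => on i _ (hF J i)) fun i => on i _ (near_src _)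
  obtain ⟨t, ht, e⟩ := hF J i x μ ν
  simp only [Pi.sub_apply, e]
  refine ((h1 i).dist_le_mul _ _).trans ((mul_le_mul_of_nonneg_left ht L.coe_nonneg).trans_eq ?_)
  field_simp

variable (h)

theorem final5 (K : ℕ) : ∃ C : ℕ, ∀ (N : ℕ → ℕ) [∀ J, NeZero (N J)] (b τ : ℕ → ℝ),
    Tendsto (fun J => (N J : ℝ)) atTop atTop →
    Tendsto (fun J => b J / log (N J)) atTop (𝓝 (11 * GD.b0 / (48 * π ^ 2))) →
    Tendsto (fun J => N J * τ J) atTop atTop → Cvg h N b → Bd5 h N b τ → Cmp5 h N b K C →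
    ∃ S : ∀ {k : ℕ}, (Fin k → T4 → ℝ) → ℝ,
      (∀ k (f : Fin k → T4 → ℝ), Adm f →
        Tendsto (fun J => corr h (b J) (N J) f) atTop (𝓝 (S f)) ∧
        (∀ a, S (fun i t => f i (t + a)) = S f) ∧
        (∀ σ : Equiv.Perm (Fin 4), S (fun i t => f i (t ∘ σ)) = S f) ∧
        S (fun i => theta (f i)) = S f) ∧
      (∀ k, ∀ δ > 0, ∃ C, ∀ (f : Fin k → T4 → ℝ) (L : Fin k → NNReal), Adm f →
        (∀ i, LipschitzWith (L i) (f i) ∧ ∀ t, |f i t| ≤ L i) →
        (∀ i j, i ≠ j → ∀ s t, f i s ≠ 0 → f j t ≠ 0 → δ ≤ dist s t) → |S f| ≤ C * ∏ i, L i) ∧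
      (∀ (m : ℕ) (c : Fin m → ℝ) (k : Fin m → ℕ) (f : ∀ a, Fin (k a) → T4 → ℝ), (∀ a, Adm (f a)) →
        (∀ a i, ∀ t ∈ tsupport (f a i), ∃ s : ℝ, 0 < s ∧ s < 2⁻¹ ∧ t 0 = s) →
        0 ≤ ∑ a, ∑ a', c a * c a' * S (Fin.append (fun i => theta (f a i)) (f a'))) ∧
      (∀ k ≤ K, ∀ f : Fin k → R4 → ℝ, Adm f →
        Tendsto (fun d => log d⁻¹ ^ k * S fun i => zoom d (f i)) (𝓝[>] 0)
          (𝓝 ((48 / (11 * GD.b0)) ^ k * ∫ y : Fin k → R4, (∏ i, f i (y i)) * free y))) ∧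
      ∀ y : Fin 2 → R4, y 0 ≠ y 1 → free y = 3 * GD.d / ‖y 0 - y 1‖ ^ 8 := by
  obtain ⟨C, hC⟩ := af_core h K
  refine ⟨C, fun N _ b τ hN hb hτ H1 H2 H3 => ?_⟩
  have cv : ∀ {k} {f : Fin k → T4 → ℝ}, Adm f → Tendsto (fun J => corr h (b J) (N J) f) atTop
      (𝓝 (limUnder atTop fun J => corr h (b J) (N J) f)) := fun hf =>
    tendsto_nhds_limUnder (H1 _ _ hf)
  have nr : ∀ {k} {f : Fin k → T4 → ℝ}, Adm f → ∀ {F : ∀ J, Fin k → Src (N J)},
      (∀ J i, Near (F J i) (f i)) → Tendsto (fun J => gcorr h (b J) (N J) (F J)) atTop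
      (𝓝 (limUnder atTop fun J => corr h (b J) (N J) f)) := fun hf F hF => by
    simpa using (H2.near hN hτ hf hF).add (cv hf)
  have c0 : (0 : ℝ) < 11 * GD.b0 / (48 * π ^ 2) := by have := GD.b0_pos; positivity
  have lN := tendsto_log_atTop.comp hN
  have b0 : ∀ᶠ J in atTop, 0 ≤ b J := by
    filter_upwards [hb.eventually_const_lt c0, lN.eventually_gt_atTop 0] with J h1 h2
    exact ((div_pos_iff_of_pos_right h2).1 h1).le
  refine ⟨fun f => limUnder atTop fun J => corr h (b J) (N J) f,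
    fun k f hf => ⟨cv hf, fun a => ?_, fun σ => ?_, ?_⟩, fun k δ δ0 => ?_,
    fun m c k f h1 h2 => ?_, fun k hk f hf => ?_, free_two⟩
  · choose s hs using fun J => exists_pos (n := N J) a
    refine Tendsto.limUnder_eq ((nr hf (F := fun J i x => src _ (fun t => f i (t + a)) (x - s J))
      fun J i x _ _ => ⟨_, ?_, rfl⟩).congr fun J => ?_)
    · rw [pos_sub, sub_add, dist_eq_norm, sub_sub_cancel_left, norm_neg, ← dist_eq_norm, dist_comm]
      exact hs J
    · rw [YM7.gcorr_shift, YM7.corr5_eq]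
      rfl
  · refine congrArg (limUnder atTop) (funext fun J => ?_)
    rw [YM7.corr5_eq, YM7.corr5_eq]
    exact YM7.gcorr_prm h _ σ fun i x => f i (pos x)
  · refine Tendsto.limUnder_eq ((nr hf (F := fun J i => rF 0 (src _ (theta (f i))))
      fun J i x μ ν => ⟨_, th_rq μ ν x, rfl⟩).congr fun J => ?_)
    rw [YM7.gcorr_refl, YM7.corr5_eq]
    rfl
  · obtain ⟨C, hC⟩ := H2 k δ δ0
    refine ⟨C, fun f L hf h1 h2 => le_of_tendsto (cv hf).abs ?_⟩
    filter_upwards [hC, hτ.eventually_ge_atTop 1] with J h3 h4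
    have τ0 : 0 < τ J := (mul_pos_iff_of_pos_left (Nat.cast_pos.2 (NeZero.pos _))).1
      (one_pos.trans_le h4)
    rw [YM7.corr5_eq, NNReal.coe_prod]
    exact Bnd.sz (s := fun i => {x | f i (pos x) ≠ 0}) (fun G g1 g2 => h3 G g1
      fun i j hij x μ ν y μ' ν' hx hy => h2 i j hij _ _ (g2 i x μ ν hx) (g2 j y μ' ν' hy))
      (fun i => sz_src (h1 i).1 (h1 i).2 τ0.le) fun i x _ _ hx => hx
  · refine ge_of_tendsto (f := fun J => YM7.gform h (b J) c (fun a i => src (N J) (f a i))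
      fun a i => src (N J) (f a i)) (tendsto_finsetSum _ fun a _ => tendsto_finsetSum _ fun a' _ =>
        (nr (adm_append (h1 a) (h1 a') (h2 a) (h2 a')) fun J => forall_append₂ (P := Near)
          (fun i x μ ν => ⟨_, th_rq μ ν x, congrArg (f a i) (th_th _).symm⟩)
          fun i => near_src _).const_mul _) ?_
    choose M hM using fun a i => half_pos_side (h2 a i)
    filter_upwards [b0, eventually_all.2 fun a => eventually_all.2 fun i =>
      hN.eventually_ge_atTop (M a i)] with J h3 h4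
    exact YM7.gform_nonneg h _ h3 c fun a i x _ _ => hM a i _ (h4 a i) x
  · refine Metric.tendsto_nhds.2 fun η' hη' => ?_
    obtain ⟨η, η0, D₀, D1, hD⟩ := hC k hk f hf.cont (fun i => (hf.1 i).1) hf.2 _ (half_pos hη')
    have t1 := hb.mul (isLittleO_log_id_atTop.tendsto_div_nhds_zero.comp hN)
    rw [mul_zero] at t1
    obtain ⟨J₁, hJ⟩ := eventually_atTop.1 ((Metric.tendsto_nhds.1 hb η η0).and
      ((t1.eventually_lt_const one_half_pos).and (lN.eventually_gt_atTop 0)))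
    filter_upwards [H3 k hk f hf η η0 D₀, adm_zoom hf, Ioo_mem_nhdsGT
      (show (0 : ℝ) < (((Finset.range J₁).sup N : ℕ) + 1 : ℝ)⁻¹ by positivity)] with d
      ⟨J₀, γ, h1, h2, h3, h4⟩ h5 h6
    have n0 : (0 : ℝ) < N J₀ := Nat.cast_pos.2 (NeZero.pos _)
    obtain ⟨h7, h8, h9⟩ := hJ J₀ (not_lt.1 fun hlt => by
      have : (N J₀ : ℝ) ≤ ((Finset.range J₁).sup N : ℕ) := by
        exact_mod_cast Finset.le_sup (Finset.mem_range.2 hlt)
      have h7 := h6.2
      rw [← one_div, lt_div_iff₀ (by positivity)] at h7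
      nlinarith [h6.1])
    have e : d / (N J₀ : ℝ)⁻¹ = N J₀ * d := by rw [div_inv_eq_mul, mul_comm]
    refine (hD (N J₀) (N J₀ : ℝ)⁻¹ (b J₀) d γ _ (inv_pos.2 n0) (e ▸ h1) (e ▸ h2) ?_
      (by rw [inv_inv]; exact h7.le) h3 ?_).trans_lt (half_lt_self hη')
    · simp only [Function.comp, id] at h8 h9
      rw [div_mul_div_cancel₀ h9.ne', div_lt_iff₀ n0] at h8
      linarith
    · rw [← corr_zoom h f _ e.symm]
      exact le_of_tendsto (((cv h5).sub_const _).abs.const_mul _) h4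

end Pool.Agent.Lib.MP_7f377f_mp.YM5
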