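import Pool.Agent.Lib.MP_7f377f_mp.G.InfC
import Pool.Agent.Lib.MP_7f377f_mp.G.SmeG

/-! Diagonal sequences, a maximum principle, and sources which sample a test function. -/

noncomputable section

namespace Pool.Agent.Lib.MP_7f377f_mp.YM7
variable [GD]

open MeasureTheory Filter Topology Weak Set
open scoped NNReal

set_option linter.unusedSectionVars false

theorem exists_seq {ι I : Type} [Countable I] (U : Filter ι) [U.NeBot] {X Y : I → Type}
    [∀ i, PseudoMetricSpace (Y i)] [∀ i, SecondCountableTopology (Y i)] (e : ∀ i, X i → Y i)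
    (u : ι → ∀ i, X i → ℝ) (S : ∀ i, X i → ℝ)
    (h1 : ∀ i x, Tendsto (fun p => u p i x) U (𝓝 (S i x)))
    (h2 : ∀ i, ∃ C ρ : ℝ, 0 < ρ ∧ ∀ᶠ p in U, ∀ x y, dist (e i x) (e i y) ≤ ρ →
      |u p i x - u p i y| ≤ C * dist (e i x) (e i y))
    (Ψ : Filter ι) [Ψ.IsCountablyGenerated] (hΨ : U ≤ Ψ) :
    ∃ p : ℕ → ι, Tendsto p atTop Ψ ∧ ∀ i x, Tendsto (fun j => u (p j) i x) atTop (𝓝 (S i x)) := by
  choose C ρ ρ0 hC using h2
  have hD : ∀ i, ∃ D : Set (X i), D.Countable ∧ ∀ x, ∀ r > 0, ∃ y ∈ D, dist (e i x) (e i y) < r :=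
    fun i => by
      let _ := PseudoMetricSpace.induced (e i) inferInstance
      have : SecondCountableTopology (X i) := TopologicalSpace.secondCountableTopology_induced _ _ _
      obtain ⟨D, h, h'⟩ := TopologicalSpace.exists_countable_dense (X i)
      exact ⟨D, h, fun x r hr => Metric.mem_closure_iff.1 (h' x) r hr⟩
  choose D D1 D2 using hD
  have := fun i => (D1 i).to_subtype
  obtain ⟨G, hG⟩ : ∃ G : Filter ι, G = Ψ ⊓ ⨅ i, (𝓟 {p | ∀ x y, dist (e i x) (e i y) ≤ ρ i →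
    |u p i x - u p i y| ≤ C i * dist (e i x) (e i y)} ⊓
      ⨅ y : D i, comap (fun p => u p i y) (𝓝 (S i y))) := ⟨_, rfl⟩
  have : G.IsCountablyGenerated := by rw [hG]; infer_instance
  have : G.NeBot := neBot_of_le (f := U) (hG ▸ le_inf hΨ (le_iInf fun i =>
    le_inf (le_principal_iff.2 (hC i)) (le_iInf fun y => (h1 i y).le_comap)))
  obtain ⟨p, hp⟩ := exists_seq_tendsto G
  simp only [hG, tendsto_inf, tendsto_iInf, tendsto_principal, tendsto_comap_iff] at hp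
  refine ⟨p, hp.1, fun i x => Metric.tendsto_nhds.2 fun ε hε => ?_⟩
  obtain ⟨r, r0, r1, r2⟩ : ∃ r > 0, r ≤ ρ i ∧ |C i| * r ≤ ε / 3 :=
    ⟨min (ρ i) (ε / 3 / (|C i| + 1)), lt_min (ρ0 i) (by positivity), min_le_left _ _,
      (mul_le_mul (le_add_of_nonneg_right zero_le_one) (min_le_right _ _)
        (le_min (ρ0 i).le (by positivity)) (by positivity)).trans_eq
        (mul_div_cancel₀ _ (by positivity))⟩
  obtain ⟨y, hy, hxy⟩ := D2 i x r r0
  have h3 : C i * dist (e i x) (e i y) ≤ ε / 3 :=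
    (mul_le_mul (le_abs_self _) hxy.le dist_nonneg (abs_nonneg _)).trans r2
  have h4 : |S i x - S i y| ≤ ε / 3 := le_of_tendsto ((h1 i x).sub (h1 i y)).abs
    ((hC i).mono fun p hp => (hp x y (hxy.le.trans r1)).trans h3)
  filter_upwards [(hp.2 i).1, Metric.tendsto_nhds.1 ((hp.2 i).2 ⟨y, hy⟩) (ε / 3) (by positivity)]
    with j h5 h6
  have h7 := (h5 x y (hxy.le.trans r1)).trans h3
  simp only [Function.comp, Real.dist_eq] at h6 ⊢
  rw [abs_le] at h4 h7
  rw [abs_lt] at h6 ⊢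
  constructor <;> linarith [h4.1, h4.2, h6.1, h6.2, h7.1, h7.2]

theorem ultra_lim {ι : Type} (U : Ultrafilter ι) {u : ι → ℝ} {C : ℝ} (h : ∀ᶠ p in U, |u p| ≤ C) :
    Tendsto u U (𝓝 (limUnder U u)) := by
  obtain ⟨s, -, hs⟩ := (isCompact_Icc (a := -C) (b := C)).ultrafilter_le_nhds' (U.map u)
    (h.mono fun p hp => abs_le.1 hp)
  exact tendsto_nhds_limUnder ⟨s, hs⟩

theorem max_principle {χ : ℕ → ℝ} {T : ℕ} (h0 : 0 ≤ χ 0)
    (h : ∀ j, j + 2 ≤ T → χ (j + 1) ^ 2 ≤ χ (j + 2) * χ j) (hp : ∀ j ≤ T, 0 ≤ χ j) :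
    ∀ j ≤ T, χ j ≤ max (χ 0) (χ T) := by
  obtain ⟨m, hm, hM⟩ := Finset.exists_max_image (Finset.range (T + 1)) χ ⟨0, by simp⟩
  simp only [Finset.mem_range, Nat.lt_succ_iff] at hm hM
  have key : ∀ j ≤ T, χ j = χ m → χ m ≤ max (χ 0) (χ T) := by
    intro j
    induction j with
    | zero => exact fun _ e => e ▸ le_max_left _ _
    | succ j ih =>
      intro hj e
      rcases hj.eq_or_lt with h1 | h1
      · exact e ▸ h1 ▸ le_max_right _ _
      rcases le_or_gt (χ m) 0 with h2 | h2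
      · exact h2.trans (h0.trans (le_max_left _ _))
      refine ih (by omega) (le_antisymm (hM j (by omega)) (le_of_mul_le_mul_left ?_ h2))
      have h3 := h j h1
      rw [e, sq] at h3
      exact h3.trans (mul_le_mul_of_nonneg_right (hM _ h1) (hp j (by omega)))
  exact fun j hj => (hM j hj).trans (key m hm rfl)

theorem contraction {G : ℝ → ℝ} {B : ℝ} (h0 : ∀ t ≥ 0, 0 ≤ G t) (h1 : ∀ t ≥ 0, G t ≤ B)
    (h2 : ∀ t ≥ 0, G t ^ 2 ≤ G (2 * t) * G 0) : ∀ t ≥ 0, G t ≤ G 0 := by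
  obtain ⟨M, hM⟩ := Real.exists_isLUB (s := G '' Ici 0) ⟨_, 0, self_mem_Ici, rfl⟩
    ⟨B, by rintro _ ⟨t, ht, rfl⟩; exact h1 t ht⟩
  have h3 : ∀ t ≥ 0, G t ≤ M := fun t ht => hM.1 ⟨t, ht, rfl⟩
  have G0 := h0 0 le_rfl
  have M0 := G0.trans (h3 0 le_rfl)
  have h4 : M ≤ √(M * G 0) := hM.2 (by
    rintro _ ⟨t, ht, rfl⟩
    exact Real.le_sqrt_of_sq_le ((h2 t ht).trans (mul_le_mul_of_nonneg_right
      (h3 _ (mul_nonneg zero_le_two ht)) G0)))
  have h5 := (Real.le_sqrt M0 (mul_nonneg M0 G0)).1 h4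
  intro t ht
  refine (h3 t ht).trans ?_
  rcases M0.eq_or_lt with h6 | h6
  · exact h6 ▸ G0
  · exact le_of_mul_le_mul_left (by rwa [← sq]) h6

variable {n k : ℕ}

/-- reflection of Euclidean space -/
def th (y : R4) : R4 := WithLp.toLp 2 (Function.update y 0 (-y 0))

theorem th_zero (y : R4) : th y 0 = -y 0 := by simp [th]

theorem th_th (y : R4) : th (th y) = y := by simp [th]

theorem abs_th (y : R4) (l : Fin 4) : |th y l| = |y l| := by
  by_cases h : l = 0 <;> simp [th, h]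

/-- the reflection as a linear isometry -/
def thL : R4 ≃ₗᵢ[ℝ] R4 := LinearIsometryEquiv.piLpCongrRight 2 fun l =>
  if l = 0 then LinearIsometryEquiv.neg ℝ else LinearIsometryEquiv.refl ℝ ℝ

theorem thL_eq : ⇑thL = th := by
  funext y
  ext l
  by_cases h : l = 0 <;> simp [th, thL, h]

theorem Adm.five {f : Fin k → R4 → ℝ} (hf : Adm f) : YM5.Adm f :=
  ⟨fun i => ⟨(hf.1 i).1, (hf.1 i).2.lipschitzWith_of_hasCompactSupport (hf.1 i).1 one_ne_zero⟩,
    hf.2⟩

theorem tsupport_comp {f : R4 → ℝ} {θ : R4 → R4} (hθ : Continuous θ) {y : R4}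
    (h : y ∈ tsupport fun y => f (θ y)) : θ y ∈ tsupport f :=
  closure_minimal (t := θ ⁻¹' tsupport f) (fun _ hu => subset_tsupport _ hu)
    ((isClosed_tsupport _).preimage hθ) h

theorem Adm.comp {f : Fin k → R4 → ℝ} (hf : Adm f) (θ : R4 ≃ₜ R4) (hθ : ContDiff ℝ 1 θ) :
    Adm fun i y => f i (θ y) :=
  ⟨fun i => ⟨(hf.1 i).1.comp_homeomorph θ, (hf.1 i).2.comp hθ⟩, fun _ _ hij =>
    disjoint_left.2 fun _ h1 h2 => disjoint_left.1 (hf.2 hij) (tsupport_comp θ.continuous h1)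
      (tsupport_comp θ.continuous h2)⟩

theorem Adm.add {f : Fin k → R4 → ℝ} (hf : Adm f) (v : R4) : Adm fun i y => f i (y + v) :=
  hf.comp (Homeomorph.addRight v) (contDiff_id.add contDiff_const)

theorem Adm.theta {f : Fin k → R4 → ℝ} (hf : Adm f) : Adm fun i => theta (f i) := by
  have := hf.comp thL.toHomeomorph thL.contDiff
  rwa [LinearIsometryEquiv.coe_toHomeomorph, thL_eq] at this

theorem Adm.smul {f : Fin k → R4 → ℝ} (hf : Adm f) {c : ℝ} (hc : c ≠ 0) :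
    Adm fun i y => f i (c • y) :=
  hf.comp (Homeomorph.smulOfNeZero c hc) (contDiff_id.const_smul c)

theorem Adm.append {l : ℕ} {f : Fin k → R4 → ℝ} {g : Fin l → R4 → ℝ} (hf : Adm f) (hg : Adm g)
    (h : ∀ i j, Disjoint (tsupport (f i)) (tsupport (g j))) : Adm (Fin.append f g) :=
  ⟨YM5.forall_append (P := fun u => HasCompactSupport u ∧ ContDiff ℝ 1 u) hf.1 hg.1,
    YM5.pairwise_append (R := fun u v => Disjoint (tsupport u) (tsupport v)) (fun _ _ h => h.symm)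
      hf.2 hg.2 h⟩

theorem sup_le {f : R4 → ℝ} {L : ℝ≥0} (hf : LipschitzWith L f) {R : ℝ} (R0 : 0 ≤ R)
    (hR : ∀ y, f y ≠ 0 → ‖y‖ ≤ R) (y : R4) : |f y| ≤ L * (2 * R + 1) := by
  by_cases h : f y = 0
  · rw [h, abs_zero]
    positivity
  have e : ‖(EuclideanSpace.single 0 (R + 1) : R4)‖ = R + 1 := by
    rw [PiLp.norm_single, Real.norm_of_nonneg (by positivity)]
  have h1 : f (EuclideanSpace.single 0 (R + 1)) = 0 := of_not_not fun h1 => by
    linarith [hR _ h1]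
  have h2 := hf.dist_le_mul y (EuclideanSpace.single 0 (R + 1))
  rw [h1, dist_zero_right] at h2
  refine h2.trans (mul_le_mul_of_nonneg_left ((dist_le_norm_add_norm _ _).trans ?_) L.2)
  linarith [hR y h]

variable [NeZero n]

/-- a test function as a source -/
def src (n : ℕ) (a : ℝ) (f : R4 → ℝ) : Src n := fun x _ _ => f (xp a x)

/-- the source samples the function within ten lattice spacings -/
def Near (a : ℝ) (F : Src n) (f : R4 → ℝ) : Prop :=
  ∀ x μ ν, (F x μ ν = 0 ∧ f (xp a x) = 0) ∨ ∃ y, dist y (xp a x) ≤ 10 * a ∧ F x μ ν = f y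

theorem near_src {a : ℝ} (ha : 0 ≤ a) (f : R4 → ℝ) : Near a (src n a f) f :=
  fun x _ _ => Or.inr ⟨xp a x, by rw [dist_self]; positivity, rfl⟩

theorem sz_src {f : R4 → ℝ} {L M ρ a τ : ℝ} (h1 : ∀ y z, |f y - f z| ≤ L * dist y z)
    (h2 : ∀ y, |f y| ≤ M) (hs : ∀ y, f y ≠ 0 → ∀ l, |y l| ≤ ρ) (hL : L ≤ M) (ha : 0 < a)
    (hn : 2 * ρ + 2 * a < a * n) (hτ : 0 ≤ τ) : Sz M a τ (src n a f) :=
  sz_site hτ (fun _ => h2 _) (grad_site ((abs_nonneg _).trans (h2 0)) (fun y l t =>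
    (h1 _ _).trans (by
      rw [dist_eq_norm, add_sub_cancel_left, PiLp.norm_single]
      exact mul_le_mul_of_nonneg_right hL (abs_nonneg _))) hs ha hn)

theorem shift_pt {f : R4 → ℝ} {R V a : ℝ} (hR : ∀ y, f y ≠ 0 → ∀ l, |y l| ≤ R) (ha : 0 < a)
    {s : Fin 4 → ℤ} {v : R4} (h1 : ∀ l, |v l - a * s l| ≤ 5 * a) (h2 : ∀ l, |v l| ≤ V)
    (hn : 2 * (R + V + 5 * a) < a * n) (x : Site 4 n) :
    (f (xp a (x - fun l => (s l : ZMod n)) + v) = 0 ∧ f (xp a x) = 0) ∨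
      dist (xp a (x - fun l => (s l : ZMod n)) + v) (xp a x) ≤ 10 * a := by
  have key : ∀ (y : ZMod n) (t : ℤ), |a * y.valMinAbs + a * t| ≤ R + V + 5 * a →
      (y + t).valMinAbs = y.valMinAbs + t := fun y t h => vma_add (by
    have : (|y.valMinAbs + (t : ℝ)| * 2 : ℝ) < n := by
      refine lt_of_mul_lt_mul_left ?_ ha.le
      rw [← mul_add, abs_mul, abs_of_pos ha] at h
      linarith
    exact_mod_cast this)
  by_cases h : ∀ l, (x l).valMinAbs = (x l - s l).valMinAbs + s l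
  · refine Or.inr ((dist_le_two (w := 5 * a) fun l => ?_).trans_eq (by ring))
    refine le_of_eq_of_le (congrArg abs ?_) (h1 l)
    simp only [xp, PiLp.add_apply, Pi.sub_apply, h l]
    push_cast
    ring
  · have V0 := (abs_nonneg _).trans (h2 0)
    refine Or.inl ⟨of_not_not fun h3 => h fun l => ?_, of_not_not fun h3 => h fun l => ?_⟩
    · have h4 : |a * (x l - s l).valMinAbs + v l| ≤ R := hR _ h3 l
      have h5 := abs_le.1 (h1 l)
      rw [← key _ _ (by rw [abs_le] at h4 ⊢; constructor <;> linarith [h4.1, h4.2]),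
        sub_add_cancel]
    · have h4 : |a * (x l).valMinAbs| ≤ R := hR _ h3 l
      have h5 := abs_le.1 (h1 l)
      have h6 := abs_le.1 (h2 l)
      have h7 := key (x l) (-s l) (by
        rw [abs_le] at h4 ⊢; push_cast; constructor <;> linarith [h4.1, h4.2])
      rw [Int.cast_neg, ← sub_eq_add_neg] at h7
      rw [h7, neg_add_cancel_right]

theorem near_shift {f : R4 → ℝ} {R V a : ℝ} (hR : ∀ y, f y ≠ 0 → ∀ l, |y l| ≤ R) (ha : 0 < a)
    {s : Fin 4 → ℤ} {v : R4} (h1 : ∀ l, |v l - a * s l| ≤ 5 * a) (h2 : ∀ l, |v l| ≤ V)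
    (hn : 2 * (R + V + 5 * a) < a * n) :
    Near a (fun x => src n a (fun y => f (y + v)) (x - fun l => (s l : ZMod n))) f :=
  fun x _ _ => (shift_pt hR ha h1 h2 hn x).imp_right fun h => ⟨_, h, rfl⟩

theorem th_rf {f : R4 → ℝ} {R a : ℝ} (hR : ∀ y, f y ≠ 0 → ∀ l, |y l| ≤ R) (ha : 0 < a)
    (hn : 2 * R < a * n) (x : Site 4 n) : f (th (xp a (rf 0 x))) = f (xp a x) := by
  by_cases h : 2 * (x 0).val = n
  · have e : ∀ y : ZMod n, 2 * y.val = n → R < |a * y.valMinAbs| := fun y hy => by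
      rw [y.valMinAbs_def_pos, if_pos (by omega), Int.cast_natCast, abs_of_nonneg (by positivity)]
      have : (2 * y.val : ℝ) = n := by exact_mod_cast hy
      nlinarith
    rw [of_not_not (a := f (xp a x) = 0) fun h1 => (hR _ h1 0).not_gt (e _ h)]
    refine of_not_not fun h1 => (hR _ h1 0).not_gt ?_
    rw [abs_th]
    refine e (rf 0 x 0) ?_
    rwa [rf, if_pos rfl, (x 0).neg_eq_self_iff.2 (Or.inr h)]
  · congr 1
    ext l
    by_cases hl : l = 0 <;> simp [th, xp, rf, hl, ZMod.valMinAbs_neg_of_ne_half h]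

theorem near_refl {f : R4 → ℝ} {R a : ℝ} (hR : ∀ y, f y ≠ 0 → ∀ l, |y l| ≤ R) (ha : 0 < a)
    (hn : 2 * (R + 0 + 5 * a) < a * n) : Near a (rF 0 (src n a (theta f))) f := by
  intro x μ ν
  have e := th_rf (n := n) hR ha (by linarith)
  change (f (th (xp a (rq 0 μ ν x))) = 0 ∧ _) ∨ ∃ y, _ ∧ f (th (xp a (rq 0 μ ν x))) = _
  rw [rq]
  split_ifs
  · rw [rc, sub_eq_add_neg, ← rf_single, ← rf_add, e]
    have h1 := shift_pt (s := -Pi.single 0 1) (v := 0) (V := 0) hR ha (fun l => by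
      by_cases hl : l = 0
      · simp only [hl, Pi.neg_apply, Pi.single_eq_same]
        simpa [abs_of_pos ha] using (by linarith : a ≤ 5 * a)
      · simp [hl, ha.le]) (fun l => by simp) hn x
    have e2 : (x - fun l => (((-Pi.single 0 1 : Fin 4 → ℤ) l : ℤ) : ZMod n)) =
        x + Pi.single 0 1 := funext fun l => by by_cases hl : l = 0 <;> simp [hl]
    rw [e2, add_zero] at h1
    exact h1.imp_right fun h => ⟨_, h, rfl⟩
  · rw [e]
    exact near_src ha.le f x μ ν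

end Pool.Agent.Lib.MP_7f377f_mp.YM7
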