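import Pool.Agent.Lib.MP_7f377f_mp.StFastK

/-! Flows of a frame of top states along a cocycle: cone, inversion, completeness. -/

noncomputable section

namespace Pool.Agent.Lib.MP_7f377f_mp.Cok

open Finset

variable {𝕜 V E β : Type} [NontriviallyNormedField 𝕜] [AddCommGroup V] [Module 𝕜 V]
  [NormedAddCommGroup E] [NormedSpace 𝕜 E] [Fintype β]

/-- the flow of `u` from the level `i` down to the level `k` -/
def fw {V : Type} (T : ℕ → V → V) (u : V) (i k : ℕ) : V :=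
  Nat.rec u (fun s x => T (i - 1 - s) x) (i - k)

theorem fw_top {V : Type} (T : ℕ → V → V) (u : V) (i : ℕ) : fw T u i i = u := by
  rw [fw, Nat.sub_self]; rfl

theorem fw_ge {V : Type} (T : ℕ → V → V) (u : V) {i k : ℕ} (h : i ≤ k) : fw T u i k = u := by
  rw [fw, Nat.sub_eq_zero_of_le h]; rfl

theorem fw_step {V : Type} (T : ℕ → V → V) (u : V) {i k : ℕ} (h : k < i) :
    fw T u i k = T k (fw T u i (k + 1)) := by
  rw [fw, fw, show i - k = i - (k + 1) + 1 by omega]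
  exact congrArg (T · _) (by omega)

theorem fw_fw {V : Type} (T : ℕ → V → V) (u : V) {i l : ℕ} (h : l ≤ i) :
    ∀ k ≤ l, fw T (fw T u i l) l k = fw T u i k := fun _ hk =>
  Nat.decreasingInduction (fun k hk e => by
    rw [fw_step T _ hk, e, fw_step T u (hk.trans_le h)]) (fw_top T _ l) hk

/-- the state at level `k` of the letter with the coefficients `c` -/
def st (T : ℕ → V → V) (τ : β → V) (J k : ℕ) (c : β → 𝕜) : V := fw T (∑ b, c b • τ b) J k

/-- a cocycle with a frame of top states whose symbols are a basis of `W` -/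
structure Fm (j J : ℕ) (P : ℕ → V → ℝ → Prop) (q : ℕ → V → E) (T : ℕ → V → V)
    (A : ℕ → E →ₗ[𝕜] E) (W : Submodule 𝕜 E) (a lam η : ℕ → ℝ) (τ : β → V) (M : ℝ) : Prop
    extends Co j J P q T A W a lam η where
  hj : j ≤ J
  M1 : 1 ≤ M
  adm : ∀ b, ∃ y, P J (τ b) y
  top : ∀ c : β → 𝕜, P J (∑ b, c b • τ b) (M * ‖∑ b, c b • q J (τ b)‖)
  inj : ∀ c : β → 𝕜, ∑ b, c b • q J (τ b) = 0 → c = 0
  span : ∀ e ∈ W, ∃ c : β → 𝕜, ∑ b, c b • q J (τ b) = e
  num : ∀ k, j ≤ k → k < J → 8 * (a k * lam k) ≤ 1 ∧ 200 * M * (a k * η k) ≤ 1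

variable {j J i k l : ℕ} {P : ℕ → V → ℝ → Prop} {q : ℕ → V → E} {T : ℕ → V → V}
  {A : ℕ → E →ₗ[𝕜] E} {W : Submodule 𝕜 E} {a a' lam η w : ℕ → ℝ} {C C' M x y : ℝ} {τ : β → V}
  {u f : ℕ → V} {v : V} {c : β → 𝕜}

theorem Co.fm (h : Co j J P q T A W a lam η) (hj : j ≤ J) (p1 : ∀ b, P J (τ b) C') (C0 : 0 ≤ C)
    (C1 : 0 ≤ C') (s1 : ∀ c : β → 𝕜, ∑ b, ‖c b‖ ≤ C * ‖∑ b, c b • q J (τ b)‖)
    (s2 : ∀ e ∈ W, ∃ c : β → 𝕜, ∑ b, c b • q J (τ b) = e) (hM : 1 + C * C' ≤ M)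
    (n : ∀ k, j ≤ k → k < J → 8 * (a k * lam k) ≤ 1 ∧ 200 * M * (a k * η k) ≤ 1) :
    Fm j J P q T A W a lam η τ M where
  toCo := h
  hj := hj
  M1 := by nlinarith [mul_nonneg C0 C1]
  adm b := ⟨_, p1 b⟩
  top c := h.mono _ _ _ _ (h.sum univ c τ (fun _ => C') p1).1 (by
    rw [← sum_mul]
    nlinarith [mul_le_mul_of_nonneg_right (s1 c) C1, norm_nonneg (∑ b, c b • q J (τ b)),
      mul_le_mul_of_nonneg_right hM (norm_nonneg (∑ b, c b • q J (τ b)))])
  inj c e := funext fun b => norm_le_zero_iff.1 ((single_le_sum (f := fun b => ‖c b‖)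
    (fun _ _ => norm_nonneg _) (mem_univ b)).trans (by simpa [e] using s1 c))
  span := s2
  num := n

/-- small perturbations of a basis -/
theorem near_frame [CompleteSpace 𝕜] {e : β → E} (li : LinearIndependent 𝕜 e)
    (sp : Submodule.span 𝕜 (Set.range e) = W) : ∃ C > (0 : ℝ), ∀ e' : β → E,
      (∀ b, e' b ∈ W ∧ ‖e' b - e b‖ ≤ C⁻¹) → (∀ c : β → 𝕜, ∑ b, ‖c b‖ ≤ C * ‖∑ b, c b • e' b‖) ∧
        ∀ x ∈ W, ∃ c : β → 𝕜, ∑ b, c b • e' b = x := by
  obtain ⟨K, -, hK⟩ := (Fintype.linearCombination 𝕜 e).exists_antilipschitzWith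
    (LinearMap.ker_eq_bot.2 li.fintypeLinearCombination_injective)
  have n : ∀ c : β → 𝕜, ∑ b, ‖c b‖ ≤ Fintype.card β * K * ‖∑ b, c b • e b‖ := fun c => by
    have a := hK.le_mul_dist c 0
    rw [dist_zero_right, map_zero, dist_zero_right, Fintype.linearCombination_apply] at a
    calc _ ≤ ∑ _b : β, ‖c‖ := sum_le_sum fun b _ => norm_le_pi_norm c b
      _ = Fintype.card β * ‖c‖ := by simp
      _ ≤ _ := by rw [mul_assoc]; gcongr
  obtain ⟨C, hC⟩ : ∃ C : ℝ, C = 2 * (Fintype.card β * K) + 1 := ⟨_, rfl⟩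
  have k0 : (0 : ℝ) ≤ Fintype.card β * K := by positivity
  have C0 : 0 < C := by linarith
  refine ⟨C, C0, fun e' he => ?_⟩
  have s1 : ∀ c : β → 𝕜, ∑ b, ‖c b‖ ≤ C * ‖∑ b, c b • e' b‖ := fun c => by
    have a : ‖∑ b, c b • e' b - ∑ b, c b • e b‖ ≤ (∑ b, ‖c b‖) * C⁻¹ := by
      rw [← sum_sub_distrib, sum_mul]
      exact norm_sum_le_of_le _ fun b _ => by
        rw [← smul_sub, norm_smul]; exact mul_le_mul_of_nonneg_left (he b).2 (norm_nonneg _)
    have s0 : 0 ≤ (∑ b, ‖c b‖) * C⁻¹ := by positivity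
    have t : ∑ b, ‖c b‖ = C * ((∑ b, ‖c b‖) * C⁻¹) := by field_simp
    have := n c
    have := norm_le_insert (∑ b, c b • e' b) (∑ b, c b • e b)
    have := norm_nonneg (∑ b, c b • e' b)
    generalize (∑ b, ‖c b‖) * C⁻¹ = z at *
    nlinarith
  refine ⟨s1, fun x hx => ?_⟩
  let F : (β → 𝕜) →ₗ[𝕜] W := (Fintype.linearCombination 𝕜 e').codRestrict W fun c => by
    rw [Fintype.linearCombination_apply]
    exact W.sum_mem fun b _ => W.smul_mem _ (he b).1
  have inj : Function.Injective F := (injective_iff_map_eq_zero _).2 fun c z => by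
    have a : ∑ b, c b • e' b = 0 := by
      simpa [F, Fintype.linearCombination_apply] using congrArg Subtype.val z
    exact funext fun b => norm_le_zero_iff.1 ((single_le_sum (f := fun b => ‖c b‖)
      (fun _ _ => norm_nonneg _) (mem_univ b)).trans (by simpa [a] using s1 c))
  have fr : Module.finrank 𝕜 (β → 𝕜) = Module.finrank 𝕜 W := by
    rw [← sp, finrank_span_eq_card li, Module.finrank_fintype_fun_eq_card]
  haveI : FiniteDimensional 𝕜 W := sp ▸ FiniteDimensional.span_of_finite 𝕜 (Set.finite_range e)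
  obtain ⟨c, hc⟩ := (LinearMap.injective_iff_surjective_of_finrank_eq_finrank fr).1 inj ⟨x, hx⟩
  exact ⟨c, by simpa [F, Fintype.linearCombination_apply] using congrArg Subtype.val hc⟩

theorem Co.sub (h : Co j J P q T A W a lam η) (hj : j ≤ l) (hi : i ≤ J) :
    Co l i P q T A W a lam η :=
  ⟨h.zero, h.nn, h.mono, h.lin, fun k u v y y' t e1 e2 => h.linT k u v y y' t (by omega) (by omega),
    h.mem, fun k u x y e1 e2 => h.step k u x y (by omega) (by omega),
    fun k e e1 e2 => h.inv k e (by omega) (by omega), h.nl⟩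

/-- the sizes may be measured in other units -/
theorem Co.resc (h : Co j J P q T A W a lam η) (w1 : ∀ k, 1 ≤ w k) :
    Co j J (fun k u y => P k u (w k * y)) q T A W a (fun k => lam k * w (k + 1) / w k)
      fun k => η k * w (k + 1) := by
  have w0 : ∀ k, 0 < w k := fun k => one_pos.trans_le (w1 k)
  refine ⟨fun k => by simpa using h.zero k, fun k u y e => nonneg_of_mul_nonneg_right ?_ (w0 k),
    fun k u y y' e e' => h.mono _ _ _ _ e (mul_le_mul_of_nonneg_left e' (w0 k).le),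
    fun k u v y y' t e e' => ⟨?_, (h.lin k u v _ _ t e e').2⟩,
    fun k u v y y' t e1 e2 e e' => h.linT k u v _ _ t e1 e2 e e', fun k u y e => h.mem _ _ _ e,
    fun k u x y e1 e2 e hx h0 => ?_, h.inv, fun k => ⟨(h.nl k).1,
      div_nonneg (mul_nonneg (h.nl k).2.1 (w0 _).le) (w0 _).le, mul_nonneg (h.nl k).2.2 (w0 _).le⟩⟩
  · exact h.nn _ _ _ e
  · exact h.mono _ _ _ _ (h.lin k u v _ _ t e e').1 (le_of_eq (by ring))
  · have y0 : 0 ≤ y := nonneg_of_mul_nonneg_right (h.nn _ _ _ e) (w0 _)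
    have x0 := (norm_nonneg _).trans hx
    have b : x + w (k + 1) * y ≤ w (k + 1) * (x + y) := by nlinarith [w1 (k + 1)]
    obtain ⟨s1, s2⟩ := h.step k u x _ e1 e2 e hx (by nlinarith [w1 (k + 1)])
    refine ⟨h.mono _ _ _ _ s1 ?_, s2.trans ?_⟩
    · rw [← mul_assoc, mul_div_cancel₀ _ (w0 k).ne', mul_assoc]
      exact mul_le_mul_of_nonneg_left b (h.nl k).2.1
    · rw [mul_assoc]
      exact mul_le_mul_of_nonneg_left b (h.nl k).2.2

/-- states stay admissible along the flow -/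
theorem Co.fw_adm (h : Co j J P q T A W a lam η) (hi : i ≤ J) (hv : P i v y) :
    ∀ k, j ≤ k → k ≤ i → ∃ y, P k (fw T v i k) y := by
  intro k h1 h2
  induction h2 using Nat.decreasingInduction with
  | self => exact ⟨y, by rwa [fw_top]⟩
  | of_succ k hk e =>
    obtain ⟨z, hz⟩ := e (by omega)
    rw [fw_step T v hk]
    exact ⟨_, (h.step k _ (‖q (k + 1) (fw T v i (k + 1))‖ + 1) z h1 (hk.trans_le hi) hz
      (by linarith) (by linarith [h.nn _ _ _ hz, norm_nonneg (q (k + 1) (fw T v i (k + 1)))])).1⟩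

/-- the flow is linear -/
theorem Co.fw_lin (h : Co j J P q T A W a lam η) (hi : i ≤ J) {v' : V} {y' : ℝ} (hv : P i v y)
    (hv' : P i v' y') (t : 𝕜) :
    ∀ k, j ≤ k → k ≤ i → fw T (v + t • v') i k = fw T v i k + t • fw T v' i k := by
  intro k h1 h2
  induction h2 using Nat.decreasingInduction with
  | self => simp only [fw_top]
  | of_succ k hk e =>
    obtain ⟨z, hz⟩ := h.fw_adm hi hv (k + 1) (by omega) hk
    obtain ⟨z', hz'⟩ := h.fw_adm hi hv' (k + 1) (by omega) hk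
    rw [fw_step T _ hk, e (by omega), h.linT k _ _ z z' t h1 (hk.trans_le hi) hz hz',
      fw_step T v hk, fw_step T v' hk]

namespace Fm

variable (h : Fm j J P q T A W a lam η τ M)
include h

theorem q_top (c : β → 𝕜) : q J (∑ b, c b • τ b) = ∑ b, c b • q J (τ b) := by
  choose y hy using h.adm
  exact (h.toCo.sum univ c τ y hy).2

theorem st_adm (c : β → 𝕜) (h1 : j ≤ k) (h2 : k ≤ J) : ∃ y, P k (st T τ J k c) y :=
  h.toCo.fw_adm le_rfl (h.top c) k h1 h2

theorem st_lin (c c' : β → 𝕜) (t : 𝕜) (h1 : j ≤ k) (h2 : k ≤ J) :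
    st T τ J k (c + t • c') = st T τ J k c + t • st T τ J k c' := by
  rw [st, st, st, ← h.toCo.fw_lin le_rfl (h.top c) (h.top c') t k h1 h2]
  congr 1
  simp only [Pi.add_apply, Pi.smul_apply, add_smul, sum_add_distrib, smul_sum, smul_smul,
    smul_eq_mul]

theorem st_zero (h1 : j ≤ k) (h2 : k ≤ J) : st T τ J k (0 : β → 𝕜) = 0 := by
  have e := h.st_lin 0 0 1 h1 h2
  simpa using e

theorem st_step (c : β → 𝕜) (h2 : k < J) : st T τ J k c = T k (st T τ J (k + 1) c) :=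
  fw_step T _ h2

theorem sy_lin (c c' : β → 𝕜) (t : 𝕜) (h1 : j ≤ k) (h2 : k ≤ J) :
    q k (st T τ J k (c + t • c')) = q k (st T τ J k c) + t • q k (st T τ J k c') := by
  obtain ⟨y, hy⟩ := h.st_adm c h1 h2
  obtain ⟨y', hy'⟩ := h.st_adm c' h1 h2
  rw [h.st_lin c c' t h1 h2, (h.lin k _ _ y y' t hy hy').2]

/-- the symbol at level `k` as a linear map of the coefficients -/
def sy (h1 : j ≤ k) (h2 : k ≤ J) : (β → 𝕜) →ₗ[𝕜] W where
  toFun c := ⟨q k (st T τ J k c), (h.st_adm c h1 h2).elim fun _ e => h.mem _ _ _ e⟩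
  map_add' c c' := Subtype.ext (by simpa using h.sy_lin c c' 1 h1 h2)
  map_smul' t c := Subtype.ext (by
    simpa [h.st_zero h1 h2, h.toCo.q0] using h.sy_lin 0 c t h1 h2)

/-- all letters lie in the cone -/
theorem cone (c : β → 𝕜) (h1 : j ≤ k) (h2 : k ≤ J) :
    (c ≠ 0 → q k (st T τ J k c) ≠ 0) ∧ P k (st T τ J k c) (M * ‖q k (st T τ J k c)‖) ∧
      (k < J → ‖q (k + 1) (st T τ J (k + 1) c)‖ ≤ 2 * a k * ‖q k (st T τ J k c)‖ ∧
        ‖q k (st T τ J k c) - A k (q (k + 1) (st T τ J (k + 1) c))‖ ≤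
          2 * M * η k * ‖q (k + 1) (st T τ J (k + 1) c)‖) := by
  by_cases e : c = 0
  · subst e
    refine ⟨fun e => absurd rfl e, ?_, fun hk => ?_⟩
    · rw [h.st_zero h1 h2, h.toCo.q0, norm_zero, mul_zero]; exact h.zero k
    · rw [h.st_zero h1 h2, h.st_zero (by omega) hk, h.toCo.q0, h.toCo.q0]; simp
  have t : st T τ J J c = ∑ b, c b • τ b := fw_top T _ J
  obtain ⟨b1, b2, b3⟩ := h.toCo.cone (u := fun k => st T τ J k c) h.M1
    (fun k e1 e2 => ⟨by nlinarith [(h.num k e1 e2).1, mul_nonneg (h.nl k).1 (h.nl k).2.1],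
      (h.num k e1 e2).2⟩) (fun k _ e2 => h.st_step c e2)
    (by rw [t, h.q_top]; exact fun z => e (h.inj c z))
    (by rw [t, h.q_top]; exact h.top c) k h1 h2
  refine ⟨fun _ => b1, b2, fun hk => ⟨?_, (b3 hk).2⟩⟩
  nlinarith [(b3 hk).1, norm_nonneg (q (k + 1) (st T τ J (k + 1) c))]

/-- below the top the part which is not seen by the symbol is small -/
theorem thin (c : β → 𝕜) (h1 : j ≤ k) (h2 : k < J) :
    P k (st T τ J k c) (4 * M * (a k * lam k) * ‖q k (st T τ J k c)‖) := by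
  by_cases e : c = 0
  · rw [e, h.st_zero h1 h2.le, h.toCo.q0, norm_zero, mul_zero]; exact h.zero k
  obtain ⟨b1, b2, -⟩ := h.cone c (by omega : j ≤ k + 1) h2
  have b3 := ((h.cone c h1 h2.le).2.2 h2).1
  have p := norm_pos_iff.2 (b1 e)
  have M1 := h.M1
  have s := (h.step k _ _ _ h1 h2 b2 le_rfl (by nlinarith)).1
  rw [← h.st_step c h2] at s
  refine h.mono _ _ _ _ s ?_
  have l0 := (h.nl k).2.1
  calc _ ≤ lam k * (2 * M * ‖q (k + 1) (st T τ J (k + 1) c)‖) := by gcongr; nlinarith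
    _ ≤ lam k * (2 * M * (2 * a k * ‖q k (st T τ J k c)‖)) := by gcongr
    _ = _ := by ring

/-- growth towards the top -/
theorem up (c : β → 𝕜) (h1 : j ≤ k) (h2 : k ≤ l) (h3 : l ≤ J) :
    ‖q l (st T τ J l c)‖ ≤ (∏ n ∈ Ico k l, 2 * a n) * ‖q k (st T τ J k c)‖ := by
  induction l, h2 using Nat.le_induction with
  | base => simp
  | succ l hl e =>
    rw [prod_Ico_succ_top hl]
    calc _ ≤ 2 * a l * ‖q l (st T τ J l c)‖ := ((h.cone c (h1.trans hl) (by omega)).2.2 h3).1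
      _ ≤ 2 * a l * ((∏ n ∈ Ico k l, 2 * a n) * ‖q k (st T τ J k c)‖) := by
        gcongr
        exacts [by linarith [(h.nl l).1], e (by omega)]
      _ = _ := by ring

/-- growth towards the bottom -/
theorem dn (hA : ∀ n, j ≤ n → n < J → ∀ e ∈ W, ‖A n e‖ ≤ a' n * ‖e‖) (a0 : ∀ n, 0 ≤ a' n)
    (c : β → 𝕜) (h1 : j ≤ k) (h2 : k ≤ l) (h3 : l ≤ J) :
    ‖q k (st T τ J k c)‖ ≤ (∏ n ∈ Ico k l, (a' n + 2 * M * η n)) * ‖q l (st T τ J l c)‖ := by
  induction h2 using Nat.decreasingInduction with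
  | self => simp
  | of_succ k hk e =>
    rw [prod_eq_prod_Ico_succ_bot hk]
    have b := ((h.cone c h1 (by omega)).2.2 (by omega)).2
    obtain ⟨z, hz⟩ := h.st_adm c (by omega : j ≤ k + 1) (by omega)
    have d := hA k h1 (by omega) _ (h.mem _ _ _ hz)
    have M1 := h.M1
    have n0 := (h.nl k).2.2
    have := a0 k
    calc _ ≤ (a' k + 2 * M * η k) * ‖q (k + 1) (st T τ J (k + 1) c)‖ := by
          linarith [norm_le_insert' (q k (st T τ J k c)) (A k (q (k + 1) (st T τ J (k + 1) c)))]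
      _ ≤ (a' k + 2 * M * η k) * ((∏ n ∈ Ico (k + 1) l, (a' n + 2 * M * η n)) *
          ‖q l (st T τ J l c)‖) := by gcongr; exact e (by omega)
      _ = _ := by ring

theorem sy_bij (h1 : j ≤ k) (h2 : k ≤ J) : Function.Bijective (h.sy h1 h2) := by
  have inj : ∀ k (h1 : j ≤ k) (h2 : k ≤ J), Function.Injective (h.sy h1 h2) := fun k h1 h2 =>
    (injective_iff_map_eq_zero _).2 fun c e => by
      by_contra z
      exact (h.cone c h1 h2).1 z (congrArg Subtype.val e)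
  have sur : Function.Surjective (h.sy h.hj le_rfl) := fun e => (h.span e e.2).imp fun c hc =>
    Subtype.ext (by
      show q J (fw T _ J J) = _
      rw [fw_top, h.q_top, hc])
  have E := LinearEquiv.ofBijective _ ⟨inj J h.hj le_rfl, sur⟩
  haveI := E.finiteDimensional
  exact ⟨inj k h1 h2, (LinearMap.injective_iff_surjective_of_finrank_eq_finrank
    E.finrank_eq).1 (inj k h1 h2)⟩

/-- letters are determined by their symbols at any level -/
def eqv (h1 : j ≤ k) (h2 : k ≤ J) : (β → 𝕜) ≃ₗ[𝕜] W := LinearEquiv.ofBijective _ (h.sy_bij h1 h2)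

theorem eqv_val (h1 : j ≤ k) (h2 : k ≤ J) (c : β → 𝕜) :
    (h.eqv h1 h2 c : E) = q k (st T τ J k c) := rfl

theorem ex (h1 : j ≤ k) (h2 : k ≤ J) {e : E} (he : e ∈ W) :
    ∃ c : β → 𝕜, q k (st T τ J k c) = e :=
  ((h.sy_bij h1 h2).2 ⟨e, he⟩).imp fun _ z => congrArg Subtype.val z

/-- completeness: a flow which starts at the level `i` and has sources below differs by a fast term
from the letter which has the same symbol at the level `l` -/
theorem kill (hj : j ≤ l) (hl : l ≤ i) (hi : i ≤ J) (w0 : ∀ k, 0 < w k)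
    (w1 : ∀ k, l ≤ k → k < i → 2 * a k * w k ≤ w (k + 1) ∧ 4 * lam k * w (k + 1) ≤ w k)
    (u1 : P i (u i) (w i) ∧ ‖q i (u i)‖ ≤ w i)
    (u2 : ∀ k, l ≤ k → k < i → u k = T k (u (k + 1)) + f k)
    (f1 : ∀ k, l ≤ k → k < i → P k (f k) (w k) ∧ ‖q k (f k)‖ ≤ w k)
    (u0 : q l (st T τ J l c) = q l (u l)) : ‖q i (st T τ J i c)‖ ≤ 3 * w i ∧
      ∀ k, l ≤ k → k ≤ i → P k (u k - st T τ J k c) (8 * M * w k) ∧
        ‖q k (u k - st T τ J k c)‖ ≤ 2 * w k := by
  have M1 := h.M1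
  have H := h.toCo.sub hj hi
  have ad := H.adm ⟨_, u1.1⟩ u2 fun k e1 e2 => ⟨_, (f1 k e1 e2).1⟩
  have sb : ∀ k, u k - st T τ J k c = u k + (-1 : 𝕜) • st T τ J k c := fun k => by
    rw [neg_one_smul, sub_eq_add_neg]
  have qs : ∀ k, l ≤ k → k ≤ i → q k (u k - st T τ J k c) = q k (u k) - q k (st T τ J k c) :=
    fun k e1 e2 => by
      obtain ⟨z, hz⟩ := ad k e1 e2
      obtain ⟨z', hz'⟩ := h.st_adm c (hj.trans e1) (e2.trans hi)
      rw [sb, (h.lin k _ _ z z' (-1) hz hz').2, neg_one_smul, sub_eq_add_neg]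
  have t : ‖q i (st T τ J i c)‖ ≤ ‖q i (u i - st T τ J i c)‖ + w i := by
    rw [qs i hl le_rfl]
    linarith [u1.2, norm_sub_rev (q i (u i)) (q i (st T τ J i c)),
      norm_le_insert' (q i (st T τ J i c)) (q i (u i))]
  classical
  have B := H.est (w := w) (D := M) (v := fun k => u k - st T τ J k c)
    (f := fun k => if k < i then f k else 0) hl (by linarith) w0
    (fun k e1 e2 => ⟨(w1 k e1 e2).1, (w1 k e1 e2).2, by
      nlinarith [(h.num k (by omega) (by omega)).2, mul_nonneg (h.nl k).1 (h.nl k).2.2]⟩)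
    (by
      have p := (h.lin i _ _ _ _ (-1 : 𝕜) u1.1 (h.cone c (hj.trans hl) hi).2.1).1
      rw [← sb, norm_neg, norm_one, one_mul] at p
      exact h.mono _ _ _ _ p (by nlinarith))
    (fun k e1 e2 => by
      obtain ⟨z, hz⟩ := ad (k + 1) (by omega) e2
      obtain ⟨z', hz'⟩ := h.st_adm c (by omega : j ≤ k + 1) (by omega)
      simp only [if_pos e2]
      rw [sb (k + 1), H.linT k _ _ z z' (-1) e1 e2 hz hz', ← h.st_step c (by omega), u2 k e1 e2,
        neg_one_smul]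
      abel)
    (by show q l (u l - st T τ J l c) = 0; rw [qs l le_rfl hl, u0, sub_self])
    (fun k e1 e2 => by
      by_cases e : k < i
      · simpa only [if_pos e] using f1 k e1 e
      · simp only [if_neg e]
        exact ⟨h.mono _ _ _ _ (h.zero k) (w0 k).le, by rw [h.toCo.q0, norm_zero]; exact (w0 k).le⟩)
  exact ⟨by linarith [(B i hl le_rfl).2], fun k e1 e2 =>
    ⟨h.mono _ _ _ _ (B k e1 e2).1 (by nlinarith [w0 k]), (B k e1 e2).2⟩⟩

/-- completeness for one start state: the rest decays with the fast rate -/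
theorem compl (hj : j ≤ l) (hl : l ≤ i) (hi : i ≤ J) (l0 : ∀ k, 0 < w k)
    (l1 : ∀ k, l ≤ k → k < i → 4 * lam k ≤ w k ∧ 2 * a k * w k ≤ 1) (x0 : 0 < x)
    (v1 : P i v x) (v2 : ‖q i v‖ ≤ x) : ∃ c : β → 𝕜, q l (st T τ J l c) = q l (fw T v i l) ∧
      ‖q i (st T τ J i c)‖ ≤ 3 * x ∧ ∀ k, l ≤ k → k ≤ i →
        P k (fw T v i k - st T τ J k c) (8 * M * ((∏ n ∈ Ico k i, w n) * x)) ∧
          ‖q k (fw T v i k - st T τ J k c)‖ ≤ 2 * ((∏ n ∈ Ico k i, w n) * x) := by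
  obtain ⟨z, hz⟩ := h.toCo.fw_adm hi v1 l hj hl
  obtain ⟨c, hc⟩ := h.ex hj (hl.trans hi) (h.mem _ _ _ hz)
  have p : ∀ k, 0 < (∏ n ∈ Ico k i, w n) * x := fun k => mul_pos (prod_pos fun n _ => l0 n) x0
  have := h.kill (w := fun k => (∏ n ∈ Ico k i, w n) * x) (u := fw T v i) (f := 0) hj hl hi p
    (fun k e1 e2 => by
      rw [prod_eq_prod_Ico_succ_bot e2, mul_assoc (w k)]
      constructor <;> nlinarith [p (k + 1), l1 k e1 e2])
    (by simpa [fw_top] using ⟨v1, v2⟩) (fun k _ e2 => by simpa using fw_step T v e2)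
    (fun k _ _ => ⟨h.mono _ _ _ _ (h.zero k) (p k).le, by
      rw [Pi.zero_apply, h.toCo.q0, norm_zero]; exact (p k).le⟩) hc
  exact ⟨c, hc, by simpa using this.1, this.2⟩

end Fm

end Pool.Agent.Lib.MP_7f377f_mp.Cok
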