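import Pool.Agent.Lib.MP_7f377f_mp.RGBase

/-! The linear data of a step on the slow fields. -/

noncomputable section

namespace Pool.Agent.Lib.MP_7f377f_mp.RG

/-- `p`, `p'` parametrise the slow fields of the fine and of the coarse level, `l` reads the
coordinates of the image of a coarse field under the linear step `T` -/
structure Lt {α : Type} [Fintype α] [DecidableEq α] (w : α → ℕ) (R R' : ℕ) (T : V →ₗ[ℝ] V)
    (p p' : (α → ℝ) →ₗ[ℝ] V) (l : V →ₗ[ℝ] α → ℝ) (U U' : Module.End ℝ (α → ℝ))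
    (L N b b' n η η' : ℝ) : Prop where
  bp : ∀ c, Cv R (b * ‖c‖) (p c)
  bp' : ∀ c, Cv R' (b' * ‖c‖) (p' c)
  bl : ∀ B δ, Cv R' δ B → ‖l B‖ ≤ n * δ
  int : ∀ B δ, Cv R' δ B → Cv R (η * δ) (T B - p fun a => l B a / L ^ w a)
  ex : ∀ c, Cv R (η' * ‖c‖) (T (p' c) - p fun a => U' c a / L ^ w a)
  inv : U * U' = 1
  inv' : U' * U = 1
  fU : ∀ a b, w b < w a → U (Pi.single b 1) a = 0
  fU' : ∀ a b, w b < w a → U' (Pi.single b 1) a = 0
  bU : ∀ c, ‖U c‖ ≤ N * ‖c‖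
  bU' : ∀ c, ‖U' c‖ ≤ N * ‖c‖

end Pool.Agent.Lib.MP_7f377f_mp.RG
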