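import Mathlib

/-! Weighted symbols of holomorphic functions. -/

noncomputable section

set_option linter.unusedSectionVars false

namespace Pool.Agent.Lib.MP_7f377f_mp.Ju

open Finset Filter Topology Metric MvPolynomial Asymptotics Function

/-- Taylor coefficients at the origin -/
def cf (m : ℕ) (g : ℂ → ℂ) : ℂ := (fun f => dslope f 0)^[m] g 0

theorem tay {s : ℝ} (s0 : 0 < s) (d : ℕ) {M : ℝ} {g : ℂ → ℂ} (hg : DifferentiableOn ℂ g (ball 0 s))
    (hb : ∀ t ∈ ball (0 : ℂ) s, ‖g t‖ ≤ M) : ‖cf d g‖ ≤ (2 / s) ^ d * M ∧ ∀ t ∈ ball (0 : ℂ) s,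
      ‖g t - ∑ m ∈ range d, t ^ m * cf m g‖ ≤ (2 * ‖t‖ / s) ^ d * M := by
  induction d generalizing g M with
  | zero => simpa [cf] using ⟨hb 0 (mem_ball_self s0), fun t ht => hb t (by simpa using ht)⟩
  | succ d ih =>
    obtain ⟨a, b⟩ := ih (M := 2 * M / s) ((Complex.differentiableOn_dslope (ball_mem_nhds _ s0)).2 hg)
      fun t ht => Complex.norm_dslope_le_div_of_mapsTo_ball hg (fun z hz => by
        rw [mem_closedBall, dist_eq_norm]
        linarith [norm_sub_le (g z) (g 0), hb z hz, hb 0 (mem_ball_self s0)]) ht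
    refine ⟨a.trans_eq (by ring), fun t ht => ?_⟩
    have e : g t - ∑ m ∈ range (d + 1), t ^ m * cf m g =
        t * (dslope g 0 t - ∑ m ∈ range d, t ^ m * cf m (dslope g 0)) := by
      have := sub_smul_dslope g 0 t
      rw [sub_zero, smul_eq_mul] at this
      rw [sum_range_succ', mul_sub, this, mul_sum, pow_zero, one_mul]
      simp only [pow_succ', mul_assoc]
      change _ - (∑ m ∈ range d, t * (t ^ m * cf m (dslope g 0)) + g 0) = _
      ring
    rw [e, norm_mul]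
    exact (mul_le_mul_of_nonneg_left (b t ht) (norm_nonneg t)).trans_eq (by ring)

theorem uniq {l : Filter ℂ} [l.NeBot] (hl : l ≤ 𝓝[≠] 0) (d : ℕ) {b : ℕ → ℂ}
    (h : (fun t => ∑ m ∈ range d, t ^ m * b m) =O[l] fun t => t ^ d) : ∀ m < d, b m = 0 := by
  induction d generalizing b with
  | zero => simp
  | succ d ih =>
    have l0 : l ≤ 𝓝 0 := hl.trans nhdsWithin_le_nhds
    have h0 : b 0 = 0 := tendsto_nhds_unique
      (Tendsto.mono_left (Continuous.tendsto' (by fun_prop) 0 _ (by simp [sum_range_succ'])) l0)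
      (h.trans_tendsto (Tendsto.mono_left (Continuous.tendsto' (by fun_prop) 0 _ (by simp)) l0))
    have h1 := ih (b := fun m => b (m + 1)) (((isBigO_refl (fun t : ℂ => t⁻¹) l).mul h).congr'
      (by
        filter_upwards [hl self_mem_nhdsWithin] with t (ht : t ≠ 0)
        simp only [sum_range_succ', h0, mul_zero, add_zero, mul_sum]
        exact sum_congr rfl fun m _ => by field_simp; ring)
      (by
        filter_upwards [hl self_mem_nhdsWithin] with t (ht : t ≠ 0)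
        field_simp; ring))
    intro m hm
    cases m with
    | zero => exact h0
    | succ m => exact h1 m (by omega)

theorem liou {f : ℂ → ℂ} {C : ℝ} {m : ℕ} (hf : Differentiable ℂ f)
    (hb : ∀ s : ℝ, 1 ≤ s → ∀ z ∈ ball (0 : ℂ) s, ‖f z‖ ≤ C * s ^ m) (z : ℂ) :
    f z = ∑ i ∈ range (m + 1), z ^ i * cf i f := by
  rw [← sub_eq_zero, ← norm_le_zero_iff]
  refine ge_of_tendsto (f := fun s : ℝ => (2 * ‖z‖) ^ (m + 1) * C / s) (x := atTop)
    (tendsto_const_nhds.div_atTop tendsto_id) ?_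
  filter_upwards [eventually_ge_atTop 1, eventually_gt_atTop ‖z‖] with s h1 h2
  have s0 : 0 < s := by linarith
  refine ((tay s0 (m + 1) hf.differentiableOn (hb s h1)).2 z (by simpa using h2)).trans_eq ?_
  rw [div_pow, pow_succ s]
  field_simp

/-- the coefficients depend holomorphically on a parameter -/
theorem cf_hol {s M : ℝ} (s0 : 0 < s) {Ω : Set ℂ} (o : IsOpen Ω) {g : ℂ → ℂ → ℂ}
    (h1 : ∀ z ∈ Ω, DifferentiableOn ℂ (g z) (ball 0 s))
    (h2 : ∀ t ∈ ball (0 : ℂ) s, DifferentiableOn ℂ (fun z => g z t) Ω)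
    (hb : ∀ z ∈ Ω, ∀ t ∈ ball (0 : ℂ) s, ‖g z t‖ ≤ M) (m : ℕ) :
    DifferentiableOn ℂ (fun z => cf m (g z)) Ω := by
  induction m using Nat.strong_induction_on with
  | _ m ih =>
    have e : ∀ᶠ t in 𝓝[≠] (0 : ℂ), t ∈ ball (0 : ℂ) s ∧ t ≠ 0 :=
      Eventually.and (nhdsWithin_le_nhds (ball_mem_nhds _ s0)) self_mem_nhdsWithin
    refine TendstoLocallyUniformlyOn.differentiableOn (φ := 𝓝[≠] (0 : ℂ))
      (F := fun t z => (g z t - ∑ i ∈ range m, t ^ i * cf i (g z)) / t ^ m)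
      (TendstoUniformlyOn.tendstoLocallyUniformlyOn (Metric.tendstoUniformlyOn_iff.2 fun ε hε => ?_))
      (e.mono fun t ht => ((h2 t ht.1).fun_sub (.fun_sum fun i hi =>
        (ih i (mem_range.1 hi)).const_mul _)).div_const _) o
    have : ∀ᶠ t in 𝓝[≠] (0 : ℂ), (2 / s) ^ (m + 1) * M * ‖t‖ < ε := nhdsWithin_le_nhds
      (ContinuousAt.eventually_lt (f := fun t : ℂ => (2 / s) ^ (m + 1) * M * ‖t‖) (g := fun _ => ε)
        (by fun_prop) continuousAt_const (by simpa using hε))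
    filter_upwards [e, this] with t ht h z hz
    have a := (tay s0 (m + 1) (h1 z hz) (hb z hz)).2 t ht.1
    have t0 := norm_pos_iff.2 ht.2
    have := ht.2
    rw [dist_comm, dist_eq_norm, show (g z t - ∑ i ∈ range m, t ^ i * cf i (g z)) / t ^ m -
      cf m (g z) = (g z t - ∑ i ∈ range (m + 1), t ^ i * cf i (g z)) / t ^ m by
        rw [sum_range_succ]; field_simp; ring, norm_div, norm_pow]
    refine lt_of_le_of_lt ?_ h
    rw [div_le_iff₀ (by positivity)]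
    exact a.trans_eq (by ring)

variable {ι κ : Type} [Fintype ι] [DecidableEq ι] [Fintype κ] [DecidableEq κ]

theorem poly_of_lines {F : (ι → ℂ) → ℂ} {m : ℕ} (h : ∀ c i, ∃ a : ℕ → ℂ, ∀ z,
    F (update c i z) = ∑ j ∈ range (m + 1), z ^ j * a j) :
    ∃ P : MvPolynomial ι ℂ, ∀ c, eval c P = F c := by
  suffices H : ∀ (S : Finset ι) b, ∃ P : MvPolynomial ι ℂ, ∀ c, eval c P = F (S.piecewise c b) by
    simpa using H univ 0
  intro S
  induction S using Finset.induction_on with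
  | empty => exact fun b => ⟨C (F b), fun c => by simp⟩
  | insert i S hi ih =>
    intro b
    choose P hP using ih
    refine ⟨∑ j ∈ range (m + 1), P (update b i j) *
      Polynomial.aeval (X i) (Lagrange.basis (range (m + 1)) (fun n : ℕ => (n : ℂ)) j), fun c => ?_⟩
    obtain ⟨a, ha⟩ := h (S.piecewise c b) i
    obtain ⟨p, hp⟩ : ∃ p : Polynomial ℂ, p = ∑ j ∈ range (m + 1), Polynomial.monomial j (a j) :=
      ⟨_, rfl⟩
    have e : ∀ z, p.eval z = F (update (S.piecewise c b) i z) := fun z => by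
      simp [hp, ha, Polynomial.eval_finsetSum, mul_comm]
    have q := Lagrange.eq_interpolate (s := range (m + 1)) (v := fun n : ℕ => (n : ℂ)) (f := p)
      Nat.cast_injective.injOn (by
        rw [hp, card_range]
        exact (Polynomial.degree_sum_le _ _).trans_lt ((Finset.sup_lt_iff (WithBot.bot_lt_coe _)).2
          fun j hj => (Polynomial.degree_monomial_le _ _).trans_lt (by exact_mod_cast mem_range.1 hj)))
    rw [piecewise_insert, ← e, q, Lagrange.interpolate_apply, Polynomial.eval_finsetSum, map_sum]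
    refine sum_congr rfl fun j _ => ?_
    rw [map_mul, hP, Polynomial.eval_mul, Polynomial.eval_C, e, update_piecewise_of_notMem _ _ _ hi]
    congr 1
    rw [← coe_aeval_eq_eval, RingHom.coe_coe, ← Polynomial.aeval_algHom_apply, aeval_X,
      Polynomial.coe_aeval_eq_eval]

/-- the weighted dilation -/
def dl (w : ι → ℕ) (t : ℂ) (c : ι → ℂ) : ι → ℂ := fun i => t ^ w i * c i

/-- polynomials of weight at most `d` -/
def Wd (w : ι → ℕ) (d : ℕ) : Submodule ℂ (MvPolynomial ι ℂ) :=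
  restrictSupport ℂ {α | Finsupp.weight w α ≤ d}

/-- the part of weight `m` -/
abbrev cp (w : ι → ℕ) (m : ℕ) : MvPolynomial ι ℂ →ₗ[ℂ] MvPolynomial ι ℂ :=
  weightedHomogeneousComponent w m

/-- the part of weight at most `d` -/
def tc (w : ι → ℕ) (d : ℕ) : MvPolynomial ι ℂ →ₗ[ℂ] MvPolynomial ι ℂ := ∑ m ∈ range (d + 1), cp w m

/-- `P` is the expansion of `F` up to the weight `d` -/
def Ex (w : ι → ℕ) (d : ℕ) (F : (ι → ℂ) → ℂ) (P : MvPolynomial ι ℂ) : Prop := P ∈ Wd w d ∧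
  ∀ c, (fun t => F (dl w t c) - eval (dl w t c) P) =O[𝓝 0] fun t => t ^ (d + 1)

open scoped Classical in
/-- the symbol -/
def sy (w : ι → ℕ) (d : ℕ) (F : (ι → ℂ) → ℂ) : MvPolynomial ι ℂ :=
  if h : ∃ P, Ex w d F P then h.choose else 0

/-- bounded and holomorphic on the unit ball -/
structure Hb (M : ℝ) (F : (ι → ℂ) → ℂ) : Prop where
  hol : ∀ (Ω : Set ℂ) (γ : ℂ → ι → ℂ), IsOpen Ω → (∀ i, DifferentiableOn ℂ (fun t => γ t i) Ω) →
    (∀ t ∈ Ω, ‖γ t‖ ≤ 1) → DifferentiableOn ℂ (fun t => F (γ t)) Ω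
  bd : ∀ c, ‖c‖ ≤ 1 → ‖F c‖ ≤ M

variable {w : ι → ℕ} {w' : κ → ℕ} {d d' m : ℕ} {F F' : (ι → ℂ) → ℂ} {P P' : MvPolynomial ι ℂ}
  {M M' N : ℝ} {c : ι → ℂ} {t : ℂ}

theorem dl_dl (w : ι → ℕ) (s t : ℂ) (c : ι → ℂ) : dl w s (dl w t c) = dl w (s * t) c :=
  funext fun i => by simp only [dl, mul_pow, mul_assoc]

@[simp] theorem dl_one (w : ι → ℕ) (c : ι → ℂ) : dl w 1 c = c := funext fun i => by simp [dl]

theorem dl_line (w : ι → ℕ) (t z : ℂ) (c c' : ι → ℂ) :
    dl w t (c + z • c') = dl w t c + z • dl w t c' := funext fun i => by simp [dl]; ring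

theorem norm_dl (hw : ∀ i, w i ≠ 0) (ht : ‖t‖ ≤ 1) (c : ι → ℂ) : ‖dl w t c‖ ≤ ‖t‖ * ‖c‖ :=
  (pi_norm_le_iff_of_nonneg (by positivity)).2 fun i => by
    rw [dl, norm_mul, norm_pow]
    exact mul_le_mul (pow_le_of_le_one (norm_nonneg t) ht (hw i)) (norm_le_pi_norm c i)
      (norm_nonneg _) (norm_nonneg _)

theorem mem_Wd : P ∈ Wd w d ↔ ∀ α, d < Finsupp.weight w α → coeff α P = 0 := by
  simp only [Wd, mem_restrictSupport_iff, Set.subset_def, mem_coe, mem_support_iff, Set.mem_ofPred_eq]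
  exact forall_congr' fun α => by rw [← not_le, not_imp_comm]

theorem coeff_tc (α : ι →₀ ℕ) :
    coeff α (tc w d P) = if Finsupp.weight w α ≤ d then coeff α P else 0 := by
  simp [tc, coeff_sum, coeff_weightedHomogeneousComponent]

theorem tc_mem (w : ι → ℕ) (d : ℕ) (P : MvPolynomial ι ℂ) : tc w d P ∈ Wd w d :=
  mem_Wd.2 fun α h => by rw [coeff_tc, if_neg h.not_ge]

theorem tc_eq (h : P ∈ Wd w d) : tc w d P = P := MvPolynomial.ext _ _ fun α => by
  rw [coeff_tc]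
  split_ifs with h1
  exacts [rfl, (mem_Wd.1 h α (not_le.1 h1)).symm]

theorem Wd_mono (h : d ≤ d') : Wd w d ≤ Wd w d' := restrictSupport_mono ℂ fun _ h1 => le_trans h1 h

theorem ex_Wd (w : ι → ℕ) (P : MvPolynomial ι ℂ) : ∃ d, P ∈ Wd w d :=
  ⟨weightedTotalDegree w P, fun _ h => le_weightedTotalDegree w h⟩

theorem cp_tc : cp w m (tc w d P) = if m ≤ d then cp w m P else 0 := MvPolynomial.ext _ _ fun α => by
  rw [coeff_weightedHomogeneousComponent, coeff_tc]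
  split_ifs with h1 h2 h3 h4 <;> simp_all [coeff_weightedHomogeneousComponent]

theorem eval_hom (h : IsWeightedHomogeneous w P m) (t : ℂ) (c : ι → ℂ) :
    eval (dl w t c) P = t ^ m * eval c P := by
  rw [eval_eq', eval_eq', mul_sum]
  refine sum_congr rfl fun α hα => ?_
  rw [← h (mem_support_iff.1 hα), Finsupp.weight_apply, Finsupp.sum_fintype _ _ (by simp)]
  simp only [dl, mul_pow, prod_mul_distrib, ← pow_mul, prod_pow_eq_pow_sum, smul_eq_mul,
    mul_comm (w _)]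
  ring

theorem eval_tc (t : ℂ) (c : ι → ℂ) :
    eval (dl w t c) (tc w d P) = ∑ m ∈ range (d + 1), t ^ m * eval c (cp w m P) := by
  simp only [tc, LinearMap.sum_apply, map_sum,
    eval_hom (weightedHomogeneousComponent_isWeightedHomogeneous _ _)]

theorem eval_dl (h : P ∈ Wd w d) (t : ℂ) (c : ι → ℂ) :
    eval (dl w t c) P = ∑ m ∈ range (d + 1), t ^ m * eval c (cp w m P) := by
  rw [← eval_tc, tc_eq h]

/-- uniqueness along any sequence of dilations -/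
theorem cp_zero {l : Filter ℂ} [l.NeBot] (hl : l ≤ 𝓝[≠] 0) (h : P ∈ Wd w d)
    (h1 : (fun t => eval (dl w t c) P) =O[l] fun t => t ^ (d + 1)) (m : ℕ) :
    eval c (cp w m P) = 0 := by
  by_cases hm : m ≤ d
  · exact uniq hl (d + 1) (b := fun m => eval c (cp w m P)) (by simpa only [eval_dl h] using h1) m
      (by omega)
  · rw [← tc_eq h, cp_tc, if_neg hm, map_zero]

theorem ev_zero {l : Filter ℂ} [l.NeBot] (hl : l ≤ 𝓝[≠] 0) (h : P ∈ Wd w d)
    (h1 : (fun t => eval (dl w t c) P) =O[l] fun t => t ^ (d + 1)) : eval c P = 0 := by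
  simpa [cp_zero hl h h1] using eval_dl h 1 c

theorem Ex.uniq (h : Ex w d F P) (h' : Ex w d F P') : P = P' := MvPolynomial.funext fun c => by
  rw [← sub_eq_zero, ← map_sub]
  exact ev_zero le_rfl (sub_mem h.1 h'.1) ((((h'.2 c).sub (h.2 c)).congr_left fun t => by
    simp).mono nhdsWithin_le_nhds)

theorem Ex.sy (h : Ex w d F P) : sy w d F = P := by
  rw [Ju.sy, dif_pos ⟨P, h⟩]
  exact (Exists.choose_spec ⟨P, h⟩).uniq h

theorem sy_mem (w : ι → ℕ) (d : ℕ) (F : (ι → ℂ) → ℂ) : sy w d F ∈ Wd w d := by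
  unfold sy
  split_ifs with h
  exacts [h.choose_spec.1, zero_mem _]

theorem Ex.add (h : Ex w d F P) (h' : Ex w d F' P') : Ex w d (F + F') (P + P') :=
  ⟨add_mem h.1 h'.1, fun c => ((h.2 c).add (h'.2 c)).congr_left fun t => by simp; ring⟩

theorem Ex.smul (h : Ex w d F P) (a : ℂ) : Ex w d (a • F) (a • P) :=
  ⟨Submodule.smul_mem _ a h.1, fun c => ((h.2 c).const_mul_left a).congr_left fun t => by
    simp; ring⟩

theorem Ex.tc (h : Ex w d' F P) (hd : d ≤ d') : Ex w d F (tc w d P) := by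
  refine ⟨tc_mem _ _ _, fun c => ?_⟩
  have a : ∀ {n}, d + 1 ≤ n → (fun t : ℂ => t ^ n) =O[𝓝 0] fun t => t ^ (d + 1) := fun hn =>
    hn.eq_or_lt.elim (fun e => e ▸ isBigO_refl _ _) fun e => (isLittleO_pow_pow e).isBigO
  refine (((h.2 c).trans (a (by omega))).add (IsBigO.sum (s := Ico (d + 1) (d' + 1))
    (A := fun m t => eval c (cp w m P) * t ^ m) fun m hm =>
      (a (mem_Ico.1 hm).1).const_mul_left _)).congr_left fun t => ?_
  rw [eval_tc, eval_dl h.1, ← sum_range_add_sum_Ico _ (show d + 1 ≤ d' + 1 by omega)]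
  simp only [Finset.sum_apply, mul_comm _ (t ^ _)]
  ring

theorem ex_eval (w : ι → ℕ) (d : ℕ) (P : MvPolynomial ι ℂ) :
    Ex w d (fun c => eval c P) (tc w d P) := by
  obtain ⟨n, hn⟩ := ex_Wd w P
  exact Ex.tc (d' := max n d) ⟨Wd_mono (le_max_left _ _) hn, fun c => by simpa using isBigO_zero _ _⟩
    (le_max_right _ _)

theorem sy_eval (w : ι → ℕ) (d : ℕ) (P : MvPolynomial ι ℂ) :
    sy w d (fun c => eval c P) = tc w d P := (ex_eval w d P).sy

theorem ev_dl (hw : ∀ i, w i ≠ 0) (c : ι → ℂ) : ∀ᶠ t in 𝓝 (0 : ℂ), ‖dl w t c‖ ≤ 1 := by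
  filter_upwards [ball_mem_nhds (0 : ℂ) (show 0 < (‖c‖ + 1)⁻¹ by positivity)] with t ht
  have h := (lt_div_iff₀ (by positivity)).1 ((mem_ball_zero_iff.1 ht).trans_eq (inv_eq_one_div _))
  nlinarith [norm_dl hw (t := t) (by nlinarith [norm_nonneg t, norm_nonneg c]) c, norm_nonneg t]

theorem Ex.congr (hw : ∀ i, w i ≠ 0) (h : Ex w d F P) (e : ∀ c, ‖c‖ ≤ 1 → F c = F' c) :
    Ex w d F' P :=
  ⟨h.1, fun c => (h.2 c).congr' ((ev_dl hw c).mono fun t ht => by simp only [e _ ht]) .rfl⟩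

theorem ex_dl (hw : ∀ i, w i ≠ 0) {s : ℝ} (s0 : 0 ≤ s) (hc : ∀ i, ‖c i‖ ≤ s ^ w i) :
    ∃ c', ‖c'‖ ≤ 1 ∧ c = dl w s c' := by
  rcases s0.eq_or_lt with rfl | h0
  · exact ⟨0, by simp, funext fun i => by simpa [dl, hw i] using hc i⟩
  have N0 : (s : ℂ) ≠ 0 := Complex.ofReal_ne_zero.2 h0.ne'
  refine ⟨dl w (s : ℂ)⁻¹ c, (pi_norm_le_iff_of_nonneg one_pos.le).2 fun i => ?_, by
    rw [dl_dl, mul_inv_cancel₀ N0, dl_one]⟩
  rw [dl, norm_mul, norm_pow, norm_inv, Complex.norm_of_nonneg s0, inv_pow]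
  exact inv_mul_le_one_of_le₀ (hc i) (by positivity)

namespace Hb

theorem nonneg (h : Hb M F) : 0 ≤ M := (norm_nonneg _).trans (h.bd 0 (by simp))

theorem mono (h : Hb M F) (hM : M ≤ M') : Hb M' F := ⟨h.hol, fun c hc => (h.bd c hc).trans hM⟩

theorem add (h : Hb M F) (h' : Hb M' F') : Hb (M + M') (F + F') :=
  ⟨fun Ω γ o a b => (h.hol Ω γ o a b).add (h'.hol Ω γ o a b),
    fun c hc => norm_add_le_of_le (h.bd c hc) (h'.bd c hc)⟩

theorem smul (h : Hb M F) (a : ℂ) : Hb (‖a‖ * M) (a • F) :=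
  ⟨fun Ω γ o x b => (h.hol Ω γ o x b).const_smul a, fun c hc =>
    (norm_smul a (F c)).trans_le (mul_le_mul_of_nonneg_left (h.bd c hc) (norm_nonneg a))⟩

theorem tay (h : Hb M F) (hw : ∀ i, w i ≠ 0) (hN : 1 ≤ N) (hc : ‖c‖ ≤ N) :
    DifferentiableOn ℂ (fun t => F (dl w t c)) (ball 0 N⁻¹) ∧
      ∀ t ∈ ball (0 : ℂ) N⁻¹, ‖dl w t c‖ ≤ 1 := by
  have a : ∀ t ∈ ball (0 : ℂ) N⁻¹, ‖dl w t c‖ ≤ 1 := fun t ht => by
    have h1 := (lt_div_iff₀ (by positivity)).1 ((mem_ball_zero_iff.1 ht).trans_eq (inv_eq_one_div _))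
    nlinarith [norm_dl hw (t := t) (by nlinarith [norm_nonneg t]) c, norm_nonneg t]
  exact ⟨h.hol _ _ isOpen_ball (fun i => by simp only [dl]; fun_prop) a, a⟩

theorem cf_poly (h : Hb M F) (hw : ∀ i, w i ≠ 0) (m : ℕ) :
    ∃ P : MvPolynomial ι ℂ, ∀ c, eval c P = cf m fun t => F (dl w t c) := by
  refine poly_of_lines (m := m) fun c i => ⟨_, liou (C := (2 * (‖c‖ + 1)) ^ m * M) (fun z => ?_) ?_⟩
  · have N1 : 1 ≤ ‖c‖ + ‖z‖ + 1 := by linarith [norm_nonneg c, norm_nonneg z]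
    have b : ∀ y ∈ ball (0 : ℂ) (‖z‖ + 1), ‖update c i y‖ ≤ ‖c‖ + ‖z‖ + 1 := fun y hy =>
      (pi_norm_le_iff_of_nonneg (by positivity)).2 fun j => by
        by_cases e : j = i
        · rw [e, update_self]; linarith [mem_ball_zero_iff.1 hy, norm_nonneg c]
        · rw [update_of_ne e]; linarith [norm_le_pi_norm c j, norm_nonneg z]
    refine (cf_hol (g := fun y t => F (dl w t (update c i y))) (M := M) (inv_pos.2 (by linarith))
      isOpen_ball (fun y hy => (h.tay hw N1 (b y hy)).1) (fun t ht => h.hol _ _ isOpen_ball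
        (fun j => ?_) fun y hy => (h.tay hw N1 (b y hy)).2 t ht)
      (fun y hy t ht => h.bd _ ((h.tay hw N1 (b y hy)).2 t ht)) m).differentiableAt
      (isOpen_ball.mem_nhds (by simp))
    by_cases e : j = i <;> simp only [dl, e, update_self, update_of_ne, ne_eq, not_false_eq_true] <;>
      fun_prop
  · intro s hs z hz
    have N1 : 1 ≤ (‖c‖ + 1) * s := by nlinarith [norm_nonneg c]
    have b : ‖update c i z‖ ≤ (‖c‖ + 1) * s :=
      (pi_norm_le_iff_of_nonneg (by positivity)).2 fun j => by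
        by_cases e : j = i
        · rw [e, update_self]; nlinarith [mem_ball_zero_iff.1 hz, norm_nonneg c]
        · rw [update_of_ne e]; nlinarith [norm_le_pi_norm c j, norm_nonneg c]
    refine (Ju.tay (inv_pos.2 (by linarith)) m (h.tay hw N1 b).1
      fun t ht => h.bd _ ((h.tay hw N1 b).2 t ht)).1.trans_eq ?_
    rw [div_inv_eq_mul, ← mul_assoc, mul_pow]
    ring

theorem cf_O (h : Hb M F) (hw : ∀ i, w i ≠ 0) (c : ι → ℂ) (n : ℕ) : (fun t => F (dl w t c) -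
    ∑ m ∈ range n, t ^ m * cf m fun t => F (dl w t c)) =O[𝓝 0] fun t => t ^ n := by
  have N1 : 1 ≤ ‖c‖ + 1 := by linarith [norm_nonneg c]
  have a := h.tay hw N1 (c := c) (by linarith)
  have s0 : 0 < (‖c‖ + 1)⁻¹ := by positivity
  refine IsBigO.of_bound ((2 * (‖c‖ + 1)) ^ n * M) (Eventually.mono (ball_mem_nhds _ s0)
    fun t ht => ((Ju.tay s0 n a.1 fun t ht => h.bd _ (a.2 t ht)).2 t ht).trans_eq ?_)
  rw [div_inv_eq_mul, norm_pow, mul_right_comm 2, mul_pow]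
  ring

theorem cf_dl (h : Hb M F) (hw : ∀ i, w i ≠ 0) (c : ι → ℂ) (s : ℂ) (m : ℕ) :
    (cf m fun t => F (dl w t (dl w s c))) = s ^ m * cf m fun t => F (dl w t c) := by
  have a := (h.cf_O hw c (m + 1)).comp_tendsto (k := fun t => t * s) (l' := 𝓝 0)
    (Continuous.tendsto' (by fun_prop) _ _ (by simp))
  have b := (a.trans (g := fun t : ℂ => (t * s) ^ (m + 1)) (k := fun t => t ^ (m + 1))
    (by simpa only [mul_pow, mul_comm (_ ^ _) (s ^ _)] using
      (isBigO_refl _ _).const_mul_left _)).sub (h.cf_O hw (dl w s c) (m + 1))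
  exact sub_eq_zero.1 (uniq le_rfl (m + 1) (b := fun m => (cf m fun t => F (dl w t (dl w s c))) -
    s ^ m * cf m fun t => F (dl w t c)) ((b.congr_left fun t => by
      simp only [comp, dl_dl, mul_sub, sum_sub_distrib, mul_pow, mul_assoc]
      ring).mono nhdsWithin_le_nhds) m (by omega))

theorem ex' (h : Hb M F) (hw : ∀ i, w i ≠ 0) (d : ℕ) : ∃ P ∈ Wd w d,
    ∀ m ≤ d, ∀ c, eval c (cp w m P) = cf m fun t => F (dl w t c) := by
  choose Q hQ using h.cf_poly hw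
  refine ⟨∑ m ∈ range (d + 1), cp w m (Q m), sum_mem fun m hm => mem_Wd.2 fun α hα => by
    rw [coeff_weightedHomogeneousComponent, if_neg (by have := mem_range.1 hm; omega)],
    fun m hm c => ?_⟩
  obtain ⟨n, hn⟩ := ex_Wd w (Q m)
  have a := uniq (l := 𝓝[≠] 0) le_rfl (max n m + 1) (b := fun j => eval c (cp w j (Q m)) -
    if j = m then eval c (Q m) else 0) ((isBigO_zero _ _).congr_left fun t => by
      simp only [mul_sub, sum_sub_distrib, ← eval_dl (Wd_mono (le_max_left n m) hn), hQ,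
        h.cf_dl hw, mul_ite, mul_zero, sum_ite_eq', mem_range]
      rw [if_pos (by omega), sub_self]) m (by omega)
  rw [if_pos rfl, sub_eq_zero, hQ] at a
  rw [← a, map_sum, sum_eq_single_of_mem m (mem_range.2 (by omega)) fun j _ hj =>
    (weightedHomogeneousComponent_isWeightedHomogeneous _ _).weightedHomogeneousComponent_ne _
      hj.symm, (weightedHomogeneousComponent_isWeightedHomogeneous _ _).weightedHomogeneousComponent_same]

theorem ex2 (h : Hb M F) (hw : ∀ i, w i ≠ 0) (d : ℕ) : Ex w d F (sy w d F) ∧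
    ∀ m ≤ d, ∀ c, eval c (cp w m (sy w d F)) = cf m fun t => F (dl w t c) := by
  obtain ⟨P, h1, h2⟩ := h.ex' hw d
  have e : Ex w d F P := ⟨h1, fun c => (h.cf_O hw c (d + 1)).congr_left fun t => by
    rw [eval_dl h1]
    exact congrArg _ (sum_congr rfl fun m hm => by rw [h2 m (Nat.lt_succ_iff.1 (mem_range.1 hm))])⟩
  exact e.sy ▸ ⟨e, h2⟩

/-- the symbol is the expansion -/
theorem ex (h : Hb M F) (hw : ∀ i, w i ≠ 0) (d : ℕ) : Ex w d F (sy w d F) := (h.ex2 hw d).1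

theorem cp_bd (h : Hb M F) (hw : ∀ i, w i ≠ 0) (hc : ‖c‖ ≤ 1) (d m : ℕ) :
    ‖eval c (cp w m (sy w d F))‖ ≤ 2 ^ m * M := by
  by_cases hm : m ≤ d
  · have a := h.tay hw le_rfl hc
    rw [(h.ex2 hw d).2 m hm]
    simpa using (Ju.tay (by simp) m a.1 fun t ht => h.bd _ (a.2 t ht)).1
  · rw [← tc_eq (sy_mem w d F), cp_tc, if_neg hm, map_zero, norm_zero]
    have := h.nonneg
    positivity

/-- the remainder -/
theorem rem (h : Hb M F) (hw : ∀ i, w i ≠ 0) (hc : ‖c‖ ≤ 1) (ht : ‖t‖ < 1) (d : ℕ) :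
    ‖F (dl w t c) - eval (dl w t c) (sy w d F)‖ ≤ (2 * ‖t‖) ^ (d + 1) * M := by
  have a := h.tay hw le_rfl hc
  rw [eval_dl (sy_mem w d F), sum_congr rfl fun m hm => by
    rw [(h.ex2 hw d).2 m (Nat.lt_succ_iff.1 (mem_range.1 hm))]]
  simpa using (Ju.tay (by simp) (d + 1) a.1 fun t ht => h.bd _ (a.2 t ht)).2 t (by simpa using ht)

/-- growth of the symbol -/
theorem sy_bd (h : Hb M F) (hw : ∀ i, w i ≠ 0) (hN : 1 ≤ N) (hc : ∀ i, ‖c i‖ ≤ N ^ w i) (d : ℕ) :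
    ‖eval c (sy w d F)‖ ≤ 2 * (2 * N) ^ d * M := by
  have M0 := h.nonneg
  obtain ⟨c, b, rfl⟩ := ex_dl hw (by linarith) hc
  rw [eval_dl (sy_mem w d F)]
  refine (norm_sum_le_of_le (n := fun m => 2 ^ m * (N ^ d * M)) _ fun m hm => ?_).trans ?_
  · rw [norm_mul, norm_pow, Complex.norm_of_nonneg (by linarith), mul_left_comm]
    exact mul_le_mul (pow_le_pow_right₀ hN (Nat.lt_succ_iff.1 (mem_range.1 hm))) (h.cp_bd hw b d m)
      (norm_nonneg _) (by positivity)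
  · rw [← sum_mul, geom_sum_eq (by norm_num), mul_pow, pow_succ]
    nlinarith [show 0 ≤ N ^ d * M by positivity]

theorem sy_add (h : Hb M F) (h' : Hb M' F') (hw : ∀ i, w i ≠ 0) (d : ℕ) (a : ℂ) :
    sy w d (F + a • F') = sy w d F + a • sy w d F' := ((h.ex hw d).add ((h'.ex hw d).smul a)).sy

theorem sy_tc (h : Hb M F) (hw : ∀ i, w i ≠ 0) (hd : d ≤ d') : sy w d F = tc w d (sy w d' F) :=
  ((h.ex hw d').tc hd).sy

end Hb

theorem hb_eval (P : MvPolynomial ι ℂ) {B : (κ → ℂ) →ₗ[ℂ] ι → ℂ}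
    (h : ∀ c, ‖c‖ ≤ 1 → ‖eval (B c) P‖ ≤ M) : Hb M fun c => eval (B c) P := by
  refine ⟨fun Ω γ _ a _ => ?_, h⟩
  have b : ∀ i, DifferentiableOn ℂ (fun t => B (γ t) i) Ω := fun i =>
    ((LinearMap.proj i ∘ₗ B).toContinuousLinearMap.differentiable.comp_differentiableOn
      (differentiableOn_pi.2 a) :)
  simp only [eval_eq']
  exact .fun_sum fun α _ => (DifferentiableOn.fun_finsetProd fun i _ => (b i).pow _).const_mul _

/-- the remainder at a small point -/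
theorem Hb.rem' (h : Hb M F) (hw : ∀ i, w i ≠ 0) {s : ℝ} (s0 : 0 ≤ s) (s1 : s < 1)
    (hc : ∀ i, ‖c i‖ ≤ s ^ w i) (d : ℕ) : ‖F c - eval c (sy w d F)‖ ≤ (2 * s) ^ (d + 1) * M := by
  obtain ⟨c', h1, rfl⟩ := ex_dl hw s0 hc
  simpa [abs_of_nonneg s0] using h.rem hw h1 (t := s) (by simpa [abs_of_nonneg s0] using s1) d

/-- linear substitution -/
def sb (B : (κ → ℂ) →ₗ[ℂ] ι → ℂ) : MvPolynomial ι ℂ →ₐ[ℂ] MvPolynomial κ ℂ :=
  aeval fun i => ∑ j, C (B (Pi.single j 1) i) * X j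

theorem lin_eq (B : (κ → ℂ) →ₗ[ℂ] ι → ℂ) (c : κ → ℂ) (i : ι) :
    B c i = ∑ j, B (Pi.single j 1) i * c j := by
  rw [LinearMap.pi_apply_eq_sum_univ, Finset.sum_apply]
  exact sum_congr rfl fun j _ => by
    rw [Pi.smul_apply, smul_eq_mul, mul_comm]
    rw [show (fun k => if j = k then 1 else 0) = Pi.single j (1 : ℂ) from
      _root_.funext fun k => by simp [Pi.single_apply, eq_comm]]

theorem eval_sb (B : (κ → ℂ) →ₗ[ℂ] ι → ℂ) (c : κ → ℂ) (P : MvPolynomial ι ℂ) :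
    eval c (sb B P) = eval (B c) P := by
  induction P using MvPolynomial.induction_on with
  | C a => simp [sb]
  | add p q hp hq => simp [hp, hq]
  | mul_X p i hp => rw [map_mul, map_mul, map_mul, hp]; simp [sb, lin_eq B c i]

/-- the pull back of symbols -/
def pb (w' : κ → ℕ) (d : ℕ) (B : (κ → ℂ) →ₗ[ℂ] ι → ℂ) :
    MvPolynomial ι ℂ →ₗ[ℂ] MvPolynomial κ ℂ := tc w' d ∘ₗ (sb B).toLinearMap

theorem pb_eq (w' : κ → ℕ) (d : ℕ) (B : (κ → ℂ) →ₗ[ℂ] ι → ℂ) (P : MvPolynomial ι ℂ) :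
    pb w' d B P = sy w' d fun c => eval (B c) P := by
  simp only [← eval_sb, sy_eval]; rfl

theorem pb_mem (w' : κ → ℕ) (d : ℕ) (B : (κ → ℂ) →ₗ[ℂ] ι → ℂ) (P : MvPolynomial ι ℂ) :
    pb w' d B P ∈ Wd w' d := tc_mem _ _ _

/-- a coordinate depends only on the coordinates of larger weight -/
def Fl (w' : κ → ℕ) (w : ι → ℕ) (B : (κ → ℂ) →ₗ[ℂ] ι → ℂ) : Prop :=
  ∀ j i, w' j < w i → B (Pi.single j 1) i = 0

variable {B : (κ → ℂ) →ₗ[ℂ] ι → ℂ}

theorem Fl.bd (hB : Fl w' w B) (hw : ∀ i, w i ≠ 0) (c : κ → ℂ) : ∃ N : ℝ, 1 ≤ N ∧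
    ∀ t : ℂ, ‖t‖ ≤ 1 → ∀ i, ‖B (dl w' t c) i‖ ≤ (‖t‖ * N) ^ w i := by
  have p : 0 ≤ ∑ j, ‖B (Pi.single j 1)‖ * ‖c j‖ := by positivity
  refine ⟨∑ j, ‖B (Pi.single j 1)‖ * ‖c j‖ + 1, by linarith, fun t ht i => ?_⟩
  rw [lin_eq, mul_pow]
  refine (norm_sum_le_of_le (n := fun j => ‖t‖ ^ w i * (‖B (Pi.single j 1)‖ * ‖c j‖)) _
    fun j _ => ?_).trans ?_
  · rcases lt_or_ge (w' j) (w i) with h | h
    · rw [hB j i h, zero_mul, norm_zero]; positivity
    · rw [dl, norm_mul, norm_mul, norm_pow, mul_left_comm]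
      gcongr ?_ * (?_ * _)
      exacts [pow_le_pow_of_le_one (norm_nonneg t) ht h, norm_le_pi_norm _ i]
  · rw [← mul_sum]
    gcongr
    exact le_trans (by linarith) (le_self_pow₀ (by linarith) (hw i))

theorem Hb.ex_comp (h : Hb M F) (hw : ∀ i, w i ≠ 0) (hB : Fl w' w B) (d : ℕ) :
    Ex w' d (fun c => F (B c)) (pb w' d B (sy w d F)) := by
  refine ⟨pb_mem _ _ _ _, fun c => ?_⟩
  obtain ⟨N, N1, hN⟩ := hB.bd hw c
  refine ((IsBigO.of_bound (f := fun t => F (B (dl w' t c)) - eval (B (dl w' t c)) (sy w d F))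
    ((2 * N) ^ (d + 1) * M) ?_).add ((ex_eval w' d (sb B (sy w d F))).2 c)).congr_left fun t => by
      simp only [eval_sb, sub_add_sub_cancel]; rfl
  filter_upwards [ball_mem_nhds (0 : ℂ) (show 0 < N⁻¹ by positivity)] with t ht
  have h1 := (lt_div_iff₀ (by positivity)).1 ((mem_ball_zero_iff.1 ht).trans_eq (inv_eq_one_div _))
  refine (h.rem' hw (by positivity) h1 (hN t (by nlinarith [norm_nonneg t])) d).trans_eq ?_
  rw [norm_pow, mul_comm ‖t‖, ← mul_assoc, mul_pow]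
  ring

/-- the symbol of a composition -/
theorem Hb.sy_comp (h : Hb M F) (hw : ∀ i, w i ≠ 0) (hB : Fl w' w B) (d : ℕ) :
    sy w' d (fun c => F (B c)) = pb w' d B (sy w d F) := (h.ex_comp hw hB d).sy

/-- the values on the unit ball -/
def rs : MvPolynomial ι ℂ →ₗ[ℂ] C(closedBall (0 : ι → ℂ) 1, ℂ) where
  toFun P := ⟨fun c => eval c.1 P, (continuous_eval P).comp continuous_subtype_val⟩
  map_add' P Q := by ext; simp
  map_smul' a P := by ext; simp

/-- the supremum on the unit ball -/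
def nP (P : MvPolynomial ι ℂ) : ℝ := ‖rs P‖

theorem nP_nonneg (P : MvPolynomial ι ℂ) : 0 ≤ nP P := norm_nonneg _

theorem le_nP (hc : ‖c‖ ≤ 1) (P : MvPolynomial ι ℂ) : ‖eval c P‖ ≤ nP P :=
  (rs P).norm_coe_le_norm ⟨c, by simpa using hc⟩

theorem nP_le (h : ∀ c, ‖c‖ ≤ 1 → ‖eval c P‖ ≤ M) : nP P ≤ M :=
  (ContinuousMap.norm_le _ ((norm_nonneg _).trans (h 0 (by simp)))).2 fun c =>
    h c.1 (mem_closedBall_zero_iff.1 c.2)

theorem nP_add (P Q : MvPolynomial ι ℂ) : nP (P + Q) ≤ nP P + nP Q := by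
  rw [nP, map_add]; exact norm_add_le _ _

theorem nP_smul (a : ℂ) (P : MvPolynomial ι ℂ) : nP (a • P) = ‖a‖ * nP P := by
  rw [nP, map_smul, norm_smul]; rfl

theorem rs_inj : Injective (rs (ι := ι)) := fun P Q h =>
  funext_set (fun _ => closedBall 0 1) (fun _ => infinite_of_mem_nhds (0 : ℂ)
    (closedBall_mem_nhds _ one_pos)) fun c hc => DFunLike.congr_fun h
      ⟨c, by rwa [closedBall_pi _ one_pos.le]⟩

theorem hb_nP (P : MvPolynomial ι ℂ) : Hb (nP P) fun c => eval c P :=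
  hb_eval P (B := LinearMap.id) fun _ hc => le_nP hc P

theorem Hb.nP_sy (h : Hb M F) (hw : ∀ i, w i ≠ 0) (d : ℕ) : nP (sy w d F) ≤ 2 * 2 ^ d * M :=
  nP_le fun c hc => by
    simpa using h.sy_bd hw le_rfl (fun i => by simpa using (norm_le_pi_norm c i).trans hc) d

/-- growth of polynomials -/
theorem grow (hw : ∀ i, w i ≠ 0) (h : P ∈ Wd w d) (hN : 1 ≤ N) (hc : ∀ i, ‖c i‖ ≤ N ^ w i) :
    ‖eval c P‖ ≤ 2 * (2 * N) ^ d * nP P := by
  simpa only [sy_eval, tc_eq h] using (hb_nP P).sy_bd hw hN hc d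

theorem nP_pb (hw : ∀ i, w i ≠ 0) (hw' : ∀ j, w' j ≠ 0) (h : P ∈ Wd w d) (hN : 1 ≤ N)
    (hB : ∀ c, ‖c‖ ≤ 1 → ∀ i, ‖B c i‖ ≤ N ^ w i) (d' : ℕ) :
    nP (pb w' d' B P) ≤ 2 * 2 ^ d' * (2 * (2 * N) ^ d * nP P) :=
  pb_eq w' d' B P ▸ (hb_eval P fun c hc => grow hw h hN (hB c hc)).nP_sy hw' d'

theorem pb_tc (hw : ∀ i, w i ≠ 0) (hB : Fl w' w B) (d : ℕ) (P : MvPolynomial ι ℂ) :
    pb w' d B (tc w d P) = pb w' d B P := by
  rw [← sy_eval, ← (hb_nP P).sy_comp hw hB, pb_eq]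

theorem pb_pb {ο : Type} [Fintype ο] [DecidableEq ο] {w'' : ο → ℕ} {B' : (ο → ℂ) →ₗ[ℂ] κ → ℂ}
    (hw' : ∀ j, w' j ≠ 0) (hB' : Fl w'' w' B') (d : ℕ) (P : MvPolynomial ι ℂ) :
    pb w'' d B' (pb w' d B P) = pb w'' d (B ∘ₗ B') P := by
  rw [pb, pb, LinearMap.comp_apply, LinearMap.comp_apply, ← LinearMap.comp_apply (tc w'' d), ← pb,
    pb_tc hw' hB', pb_eq, pb_eq]
  simp [eval_sb]

theorem pb_id (h : P ∈ Wd w d) : pb w d LinearMap.id P = P := by
  rw [pb_eq]; exact (sy_eval w d P).trans (tc_eq h)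

/-- maps which commute with the dilations preserve the weight -/
theorem eval_pb {T : (ι → ℂ) →ₗ[ℂ] ι → ℂ} (hT : ∀ t c, T (dl w t c) = dl w t (T c))
    (h : P ∈ Wd w d) (c : ι → ℂ) : eval c (pb w d T P) = eval (T c) P := by
  have a := uniq (l := 𝓝[≠] 0) le_rfl (d + 1) (b := fun m => eval (T c) (cp w m P) -
    eval c (cp w m (sb T P))) ((((ex_eval w d (sb T P)).2 c).congr_left fun t => by
      simp only [eval_sb, hT, eval_dl h, eval_tc, mul_sub, sum_sub_distrib]).mono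
        nhdsWithin_le_nhds)
  have b := eval_tc (w := w) (d := d) (P := sb T P) 1 c
  have e := eval_dl h 1 (T c)
  rw [dl_one] at b e
  rw [e]
  exact b.trans (sum_congr rfl fun m hm => by rw [sub_eq_zero.1 (a m (mem_range.1 hm))])

/-- invariance on small real points passes to the symbol -/
theorem Hb.inv (h : Hb M F) (hw : ∀ i, w i ≠ 0) {T : (ι → ℂ) →ₗ[ℂ] ι → ℂ} (hT : Fl w w T)
    (e : ∀ᶠ c in 𝓝 (0 : ι → ℂ), (∀ i, (c i).im = 0) → F (T c) = F c) (d : ℕ) :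
    pb w d T (sy w d F) = sy w d F := by
  refine funext_set (fun _ => Set.range ((↑) : ℝ → ℂ))
    (fun _ => Set.infinite_range_of_injective Complex.ofReal_injective) fun c hc => ?_
  have l1 : Tendsto ((↑) : ℝ → ℂ) (𝓝[≠] 0) (𝓝[≠] 0) :=
    tendsto_nhdsWithin_iff.2 ⟨(Complex.continuous_ofReal.tendsto' 0 0 rfl).mono_left
      nhdsWithin_le_nhds, eventually_mem_nhdsWithin.mono fun _ => Complex.ofReal_ne_zero.2⟩
  rw [← sub_eq_zero, ← map_sub]
  refine ev_zero (l := Filter.map ((↑) : ℝ → ℂ) (𝓝[≠] (0 : ℝ))) l1 (sub_mem (pb_mem _ _ _ _) (sy_mem _ _ _))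
    (((((h.ex hw d).2 c).sub ((h.ex_comp hw hT d).2 c)).mono
      (l1.trans nhdsWithin_le_nhds)).congr' ?_ .rfl)
  have l2 : Tendsto (fun t => dl w t c) (𝓝 0) (𝓝 0) :=
    Continuous.tendsto' (continuous_pi fun i => by simp only [dl]; fun_prop) _ _
      (funext fun i => by simp [dl, hw i])
  filter_upwards [(l1.trans nhdsWithin_le_nhds) (l2.eventually e), range_mem_map] with t h1 ⟨s, hs⟩
  rw [h1 fun i => ?_, map_sub]
  · ring
  · obtain ⟨x, hx⟩ := hc i trivial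
    rw [dl, ← hs, ← hx]
    norm_cast

/-- the space of the symbols -/
def Sy (w : ι → ℕ) (d : ℕ) : Type := Wd w d

instance : AddCommGroup (Sy w d) := inferInstanceAs (AddCommGroup (Wd w d))

instance : Module ℂ (Sy w d) := inferInstanceAs (Module ℂ (Wd w d))

/-- the polynomial of a symbol -/
def Sy.val : Sy w d →ₗ[ℂ] MvPolynomial ι ℂ := (Wd w d).subtype

/-- the symbol of a polynomial -/
def Sy.mk (w : ι → ℕ) (d : ℕ) : MvPolynomial ι ℂ →ₗ[ℂ] Sy w d :=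
  (tc w d).codRestrict (Wd w d) (tc_mem w d)

theorem Sy.val_mk (P : MvPolynomial ι ℂ) : (Sy.mk w d P).val = tc w d P := rfl

theorem Sy.mem (x : Sy w d) : x.val ∈ Wd w d := x.2

theorem Sy.inj : Injective (Sy.val (w := w) (d := d)) := Subtype.val_injective

theorem Sy.mk_val (x : Sy w d) : Sy.mk w d x.val = x := Sy.inj (tc_eq x.mem)

instance : NormedAddCommGroup (Sy w d) :=
  NormedAddCommGroup.induced _ _ (rs ∘ₗ Sy.val) (rs_inj.comp Sy.inj)

instance : NormedSpace ℂ (Sy w d) := NormedSpace.induced ℂ _ _ (rs ∘ₗ Sy.val)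

theorem Sy.norm_eq (x : Sy w d) : ‖x‖ = nP x.val := rfl

theorem Sy.fin (hw : ∀ i, w i ≠ 0) (d : ℕ) : FiniteDimensional ℂ (Sy w d) :=
  have := (Finsupp.finite_of_nat_weight_le w hw d).to_subtype
  Module.Finite.of_basis (basisRestrictSupport ℂ {α | Finsupp.weight w α ≤ d})

/-- the coefficients are bounded by the norm -/
theorem coeff_le (hw : ∀ i, w i ≠ 0) (d : ℕ) :
    ∃ C : ℝ, 0 < C ∧ ∀ P ∈ Wd w d, ∑ α ∈ P.support, ‖coeff α P‖ ≤ C * nP P := by
  have := Sy.fin hw d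
  have f := Finsupp.finite_of_nat_weight_le w hw d
  refine ⟨∑ α ∈ f.toFinset, ‖(lcoeff ℂ α ∘ₗ Sy.val (w := w) (d := d)).toContinuousLinearMap‖ + 1,
    by positivity, fun P hP => (sum_le_sum_of_subset_of_nonneg (t := f.toFinset)
      (fun α hα => f.mem_toFinset.2 (hP hα)) fun _ _ _ => norm_nonneg _).trans ?_⟩
  rw [add_mul, sum_mul]
  obtain ⟨x, rfl⟩ : ∃ x : Sy w d, x.val = P := ⟨⟨P, hP⟩, rfl⟩
  exact (sum_le_sum fun α _ => (lcoeff ℂ α ∘ₗ Sy.val).toContinuousLinearMap.le_opNorm x).trans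
    (by simpa [Sy.norm_eq] using nP_nonneg x.val)

end Pool.Agent.Lib.MP_7f377f_mp.Ju
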