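import Pool.Agent.Lib.MP_7f377f_mp.G.JuA
import Pool.Agent.Lib.MP_7f377f_mp.G.JuS
import Pool.Agent.Lib.MP_7f377f_mp.G.JuL

/-! The symbol of a local term, and the linear step. -/

noncomputable section

set_option linter.unusedSectionVars false
variable [Pool.Agent.Lib.MP_7f377f_mp.GD]

namespace Pool.Agent.Lib.MP_7f377f_mp.RG

namespace Q4

open Finset MvPolynomial Filter Topology Ju

variable {ι κ α β : Type}

/-- real part in a complex direction -/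
def rD (u : C3) (A : ι → C3) : ι → ℝ := fun e => (dot u (A e)).re

/-- complexification -/
def cz (T : (ι → ℝ) →ₗ[ℝ] κ → ℝ) : (ι → C3) →ₗ[ℂ] κ → C3 where
  toFun A f k := (T (fun e => (A e k).re) f : ℂ) + (T (fun e => (A e k).im) f : ℂ) * Complex.I
  map_add' A B := by
    funext f k
    have h1 := map_add T (fun e => (A e k).re) fun e => (B e k).re
    have h2 := map_add T (fun e => (A e k).im) fun e => (B e k).im
    simp only [Pi.add_def] at h1 h2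
    simp only [Pi.add_apply, Complex.add_re, Complex.add_im, h1, h2]
    push_cast
    ring
  map_smul' c A := by
    funext f k
    have h1 : (fun e => ((c • A) e k).re) =
        c.re • (fun e => (A e k).re) - c.im • fun e => (A e k).im := by funext e; simp
    have h2 : (fun e => ((c • A) e k).im) =
        c.re • (fun e => (A e k).im) + c.im • fun e => (A e k).re := by funext e; simp
    rw [h1, h2]
    apply Complex.ext <;> simp

theorem cz_ap (T : (ι → ℝ) →ₗ[ℝ] κ → ℝ) (A : ι → C3) (f : κ) (k : Fin GD.d) : cz T A f k =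
    (T (fun e => (A e k).re) f : ℂ) + (T (fun e => (A e k).im) f : ℂ) * Complex.I := rfl

theorem rD_eq (u : C3) (A : ι → C3) : rD u A =
    ∑ k, ((u k).re • (fun e => (A e k).re) - (u k).im • fun e => (A e k).im) := by
  funext e
  simp [rD, dot, Finset.sum_apply]

theorem rD_cz (T : (ι → ℝ) →ₗ[ℝ] κ → ℝ) (u : C3) (A : ι → C3) : rD u (cz T A) = T (rD u A) := by
  simp [rD_eq, cz_ap]

theorem cz_comp {ο : Type} (S : (κ → ℝ) →ₗ[ℝ] ο → ℝ) (T : (ι → ℝ) →ₗ[ℝ] κ → ℝ) (A : ι → C3) :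
    cz S (cz T A) = cz (S ∘ₗ T) A := by
  funext f k
  simp [cz_ap]

theorem cz_id (A : ι → C3) : cz LinearMap.id A = A := by
  funext f k
  simp [cz_ap]

/-- the matrix of the adjoint action -/
def am (u : S3) (k j : Fin GD.d) : ℝ := (adq (cS u) (Pi.single j 1) k).re

theorem adq_am (u : S3) (b : C3) (k : Fin GD.d) : adq (cS u) b k = ∑ j, (am u k j : ℂ) * b j := by
  have e : b = ∑ j, b j • (Pi.single j 1 : C3) := by
    funext k; simp [Finset.sum_apply, Pi.single_apply]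
  nth_rw 1 [e]
  rw [adq_sum, Finset.sum_apply]
  refine sum_congr rfl fun j _ => ?_
  rw [adq_smul, Pi.smul_apply, smul_eq_mul, mul_comm]
  congr 1
  exact Complex.ext rfl (adq_real u.q (fun k => by by_cases h : k = j <;> simp [h]) k)

theorem cz_ad (T : (ι → ℝ) →ₗ[ℝ] κ → ℝ) (u : S3) (A : ι → C3) :
    cz T (fun e => adq (cS u) (A e)) = fun f => adq (cS u) (cz T A f) := by
  funext f k
  have h1 : (fun e => (adq (cS u) (A e) k).re) = ∑ j, am u k j • fun e => (A e j).re := by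
    funext e; simp [adq_am, Finset.sum_apply]
  have h2 : (fun e => (adq (cS u) (A e) k).im) = ∑ j, am u k j • fun e => (A e j).im := by
    funext e; simp [adq_am, Finset.sum_apply]
  rw [cz_ap, h1, h2, adq_am]
  simp [cz_ap, Finset.sum_apply, mul_add, sum_add_distrib, sum_mul, mul_assoc]

/-- coloured coordinates -/
abbrev Cr (α : Type) : Type := α × Fin GD.d → ℂ

def cur : Cr α →ₗ[ℂ] α → C3 where
  toFun c a k := c (a, k)
  map_add' _ _ := rfl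
  map_smul' _ _ := rfl

def ucr : (α → C3) →ₗ[ℂ] Cr α where
  toFun c i := c i.1 i.2
  map_add' _ _ := rfl
  map_smul' _ _ := rfl

/-- the field with given coordinates -/
def emF (p : (α → ℝ) →ₗ[ℝ] V) : Cr α →ₗ[ℂ] Fld := cz p ∘ₗ cur

/-- the coordinates of a field -/
def crd (l : V →ₗ[ℝ] α → ℝ) : Fld →ₗ[ℂ] Cr α := ucr ∘ₗ cz l

/-- real matrices act on the coordinates -/
def cxM (U : (β → ℝ) →ₗ[ℝ] α → ℝ) : Cr β →ₗ[ℂ] Cr α := ucr ∘ₗ cz U ∘ₗ cur

/-- the adjoint action on the coordinates -/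
def adC (u : S3) : Cr α →ₗ[ℂ] Cr α :=
  LinearMap.pi fun i => ∑ j, (am u i.2 j : ℂ) • LinearMap.proj (i.1, j)

/-- the weights of the coordinates -/
def wC (w : α → ℕ) : α × Fin GD.d → ℕ := fun i => w i.1

/-- the real dilation -/
def dlR (w : α → ℕ) (t : ℝ) : Module.End ℝ (α → ℝ) :=
  LinearMap.pi fun a => t ^ w a • LinearMap.proj a

theorem adC_ap (u : S3) (c : Cr α) (i : α × Fin GD.d) :
    adC u c i = adq (cS u) (cur c i.1) i.2 := by
  simp [adC, adq_am, cur]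

theorem cur_adC (u : S3) (c : Cr α) : cur (adC u c) = fun a => adq (cS u) (cur c a) :=
  funext fun a => funext fun k => adC_ap u c (a, k)

theorem emF_ad (p : (α → ℝ) →ₗ[ℝ] V) (u : S3) (c : Cr α) :
    emF p (adC u c) = adF (fun _ => cS u) (emF p c) := by
  rw [emF, LinearMap.comp_apply, cur_adC, cz_ad]; rfl

theorem crd_ad (l : V →ₗ[ℝ] α → ℝ) (u : S3) (B : Fld) :
    crd l (adF (fun _ => cS u) B) = adC u (crd l B) := funext fun i => by
  rw [adC_ap]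
  exact congrFun (congrFun (cz_ad l u B) i.1) i.2

theorem cxM_ad (U : (β → ℝ) →ₗ[ℝ] α → ℝ) (u : S3) (c : Cr β) :
    cxM U (adC u c) = adC u (cxM U c) := funext fun i => by
  rw [adC_ap, cxM, LinearMap.comp_apply, LinearMap.comp_apply, cur_adC, cz_ad]; rfl

theorem cxM_comp {γ : Type} (U : (β → ℝ) →ₗ[ℝ] α → ℝ) (U' : (γ → ℝ) →ₗ[ℝ] β → ℝ) :
    cxM U ∘ₗ cxM U' = cxM (U ∘ₗ U') := LinearMap.ext fun c => congrArg ucr (cz_comp U U' (cur c))

theorem cxM_id : cxM (LinearMap.id : Module.End ℝ (α → ℝ)) = LinearMap.id :=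
  LinearMap.ext fun c => congrArg ucr (cz_id (cur c))

theorem cxM_crd (U : (β → ℝ) →ₗ[ℝ] α → ℝ) (l : V →ₗ[ℝ] β → ℝ) (B : Fld) :
    cxM U (crd l B) = crd (U ∘ₗ l) B := congrArg ucr (cz_comp U l B)

theorem cxM_dl (w : α → ℕ) (t : ℝ) (c : Cr α) : cxM (dlR w t) c = dl (wC w) t c := by
  funext i
  apply Complex.ext <;> simp [cxM, ucr, cur, cz_ap, dlR, dl, wC, ← Complex.ofReal_pow]

theorem adC_dl (w : α → ℕ) (u : S3) (t : ℂ) (c : Cr α) :
    adC u (dl (wC w) t c) = dl (wC w) t (adC u c) := by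
  funext i
  simp [adC, dl, wC, mul_sum, mul_left_comm]

theorem emF_real (p : (α → ℝ) →ₗ[ℝ] V) {c : Cr α} (h : ∀ i, (c i).im = 0) : RealF (emF p c) :=
  fun e k => by
    have : (fun a => (c (a, k)).im) = 0 := funext fun a => h _
    simp [emF, cz_ap, cur, this]

variable [Fintype α] [DecidableEq α] [Fintype β] [DecidableEq β] {w : α → ℕ} {R R' d : ℕ}
  {T : V →ₗ[ℝ] V} {p p' : (α → ℝ) →ₗ[ℝ] V} {l : V →ₗ[ℝ] α → ℝ} {U U' : Module.End ℝ (α → ℝ)}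
  {L N b b' n η η' ρ ρ' h h' h1 M M' δ : ℝ} {φ φ' : Fld → ℂ} {B : Fld} {u : C3}
  {P Q : MvPolynomial (α × Fin GD.d) ℂ}

theorem rD_cur (hu : ‖u‖ ≤ 1) (c : Cr α) : ‖rD u (cur c)‖ ≤ cG * ‖c‖ :=
  (pi_norm_le_iff_of_nonneg (mul_nonneg GD.cG_pos.le (norm_nonneg c))).2 fun a => by
    refine (Complex.abs_re_le_norm _).trans ((norm_sum_le_of_le (n := fun _ => ‖c‖) _ fun k _ => ?_).trans ?_)
    · rw [norm_mul]
      exact (mul_le_of_le_one_left (norm_nonneg _) ((norm_c3_le u k).trans hu)).trans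
        (norm_le_pi_norm c (a, k))
    · simpa using mul_le_mul_of_nonneg_right GD.d_le (norm_nonneg c)

theorem cv_dir (h : ∀ u : C3, ‖u‖ ≤ 1 → Cv R δ (rD u B)) : Cv R δ B := fun y hy μ ν =>
  norm_le_of_dir fun u hu => dd_reD u B y μ ν ▸ h u hu y hy μ ν

theorem ucr_le {A : α → C3} (h0 : 0 ≤ δ) (h : ∀ u : C3, ‖u‖ ≤ 1 → ‖rD u A‖ ≤ δ) : ‖ucr A‖ ≤ δ :=
  (pi_norm_le_iff_of_nonneg h0).2 fun i => (norm_c3_le (A i.1) i.2).trans
    (norm_le_of_dir fun u hu => (norm_le_pi_norm (rD u A) i.1).trans (h u hu))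

theorem cv_emF (hp : ∀ c, Cv R (b * ‖c‖) (p c)) (b0 : 0 ≤ b) (c : Cr α) :
    Cv R (b * (cG * ‖c‖)) (emF p c) := cv_dir fun u hu => by
  rw [emF, LinearMap.comp_apply, rD_cz]
  exact (hp _).mono le_rfl (mul_le_mul_of_nonneg_left (rD_cur hu c) b0)

theorem crd_le (hl : ∀ B δ, Cv R' δ B → ‖l B‖ ≤ n * δ) (hB : Cv R' δ B) : ‖crd l B‖ ≤ n * δ :=
  ucr_le (A := cz l B) ((norm_nonneg _).trans (hl 0 δ (Ho.cv_zero _ hB.nonneg))) fun u hu => by
    rw [rD_cz]; exact hl _ _ (hB.reD hu)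

theorem cxM_le {U : (β → ℝ) →ₗ[ℝ] α → ℝ} (hU : ∀ c, ‖U c‖ ≤ N * ‖c‖) (N0 : 0 ≤ N) (c : Cr β) :
    ‖cxM U c‖ ≤ N * (cG * ‖c‖) :=
  ucr_le (A := cz U (cur c)) (by have := GD.cG_pos; positivity) fun u hu => by
    rw [rD_cz]
    exact (hU _).trans (mul_le_mul_of_nonneg_left (rD_cur hu c) N0)

theorem fl_cxM {w' : β → ℕ} {U : (β → ℝ) →ₗ[ℝ] α → ℝ}
    (hU : ∀ a b, w' b < w a → U (Pi.single b 1) a = 0) : Ju.Fl (wC w') (wC w) (cxM U) := fun j i h => by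
  have h1 : (fun e => ((Pi.single j 1 : Cr β) (e, i.2)).im) = 0 := by
    funext e; by_cases h : (e, i.2) = j <;> simp [h]
  have h2 : (fun e => ((Pi.single j 1 : Cr β) (e, i.2)).re) =
      (if i.2 = j.2 then 1 else 0 : ℝ) • (Pi.single j.1 1 : β → ℝ) := by
    funext e; simp [Pi.single_apply, Prod.ext_iff]; split_ifs <;> simp_all
  change (U (fun e => ((Pi.single j 1 : Cr β) (e, i.2)).re) i.1 : ℂ) +
    (U (fun e => ((Pi.single j 1 : Cr β) (e, i.2)).im) i.1 : ℂ) * Complex.I = 0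
  rw [h1, h2, map_smul, Pi.smul_apply, hU i.1 j.1 h]
  simp

theorem fl_adC (w : α → ℕ) (u : S3) : Ju.Fl (wC w) (wC w) (adC u) := fun j i h => by
  have : ∀ k, (i.1, k) ≠ j := fun k e => by rw [← e] at h; exact lt_irrefl _ h
  simp [adC, this]

theorem fl_dl (w : α → ℕ) (t : ℝ) : Ju.Fl (wC w) (wC w) (cxM (dlR w t)) :=
  fl_cxM fun a b h => by
    have : a ≠ b := fun e => by rw [e] at h; exact lt_irrefl _ h
    simp [dlR, this]

theorem wC_ne (hw : ∀ a, w a ≠ 0) (i : α × Fin GD.d) : wC w i ≠ 0 := hw i.1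

/-- invariant symbols -/
def Iv (w : α → ℕ) (d : ℕ) : Submodule ℂ (MvPolynomial (α × Fin GD.d) ℂ) :=
  Wd (wC w) d ⊓ ⨅ u : S3, LinearMap.eqLocus (pb (wC w) d (adC u)) LinearMap.id

theorem mem_Iv : P ∈ Iv w d ↔ P ∈ Wd (wC w) d ∧ ∀ u, pb (wC w) d (adC u) P = P := by simp [Iv]

theorem Iv_eval (h : P ∈ Iv w d) (u : S3) (c : Cr α) : eval (adC u c) P = eval c P := by
  rw [← eval_pb (adC_dl w u) (mem_Iv.1 h).1, (mem_Iv.1 h).2]

theorem pb_Iv (hw : ∀ a, w a ≠ 0) (hU : Ju.Fl (wC w) (wC w) (cxM U)) (h : P ∈ Iv w d) :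
    pb (wC w) d (cxM U) P ∈ Iv w d := mem_Iv.2 ⟨pb_mem _ _ _ _, fun u => by
  rw [pb_pb (wC_ne hw) (fl_adC w u), show cxM U ∘ₗ adC u = adC u ∘ₗ cxM U from
    LinearMap.ext (cxM_ad U u), ← pb_pb (wC_ne hw) hU, (mem_Iv.1 h).2]⟩

/-- the symbol of a local term -/
def sg (w : α → ℕ) (d : ℕ) (p : (α → ℝ) →ₗ[ℝ] V) (φ : Fld → ℂ) : MvPolynomial (α × Fin GD.d) ℂ :=
  sy (wC w) d fun c => φ (emF p c)

/-- the local term of a symbol -/
def Ev (l : V →ₗ[ℝ] α → ℝ) (P : MvPolynomial (α × Fin GD.d) ℂ) : Fld → ℂ :=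
  fun B => eval (crd l B) P

theorem Ev_lin (l : V →ₗ[ℝ] α → ℝ) (P Q : MvPolynomial (α × Fin GD.d) ℂ) (a : ℂ) :
    Ev l (P + a • Q) = Ev l P + a • Ev l Q := funext fun B => by simp [Ev]

section
variable (hp : ∀ c, Cv R (b * ‖c‖) (p c)) (b0 : 0 ≤ b) (hb : b * cG < h) (ρ0 : 0 < ρ)
include hp b0 hb ρ0

theorem emF_inT {c : Cr α} (hc : ‖c‖ ≤ 1) : InT R ρ (b * cG) (emF p c) :=
  inT_ball ((cv_emF hp b0 c).mono le_rfl (by
    have := GD.cG_pos
    gcongr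
    exact mul_le_of_le_one_right this.le hc)) ρ0.le

theorem Tbw.hbl (H : Tbw R ρ h M φ) : Hb M fun c => φ (emF p c) :=
  ⟨fun _ _ o a q => H.disc hb o (fun f _ =>
    ((LinearMap.proj f ∘ₗ emF p).toContinuousLinearMap.differentiable.comp_differentiableOn
      (differentiableOn_pi.2 a) :)) fun t ht => emF_inT hp b0 hb ρ0 (q t ht),
    fun _ hc => H.bd _ ((emF_inT hp b0 hb ρ0 hc).mono le_rfl le_rfl hb.le)⟩

theorem Tbw.sg_mem (H : Tbw R ρ h M φ) (hw : ∀ a, w a ≠ 0) (d : ℕ) : sg w d p φ ∈ Iv w d := by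
  refine mem_Iv.2 ⟨sy_mem _ _ _, fun u => (H.hbl hp b0 hb ρ0).inv (wC_ne hw) (fl_adC w u) ?_ d⟩
  have a : ∀ f : Cr α →ₗ[ℂ] Cr α, ∀ᶠ c in 𝓝 (0 : Cr α), b * (cG * ‖f c‖) < ρ := fun f =>
    ContinuousAt.eventually_lt (g := fun _ => ρ) (by
      have := f.continuous_of_finiteDimensional
      fun_prop) continuousAt_const (by simpa using ρ0)
  filter_upwards [a LinearMap.id, a (adC u)] with c h1 h2 hc
  rw [emF_ad]
  exact H.ad u _ (emF_real p hc) ((cv_emF hp b0 c).mono le_rfl h1.le)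
    (emF_ad p u c ▸ (cv_emF hp b0 _).mono le_rfl h2.le)

theorem Tbw.nP_sg (H : Tbw R ρ h M φ) (hw : ∀ a, w a ≠ 0) (d : ℕ) :
    nP (sg w d p φ) ≤ 2 * 2 ^ d * M := (H.hbl hp b0 hb ρ0).nP_sy (wC_ne hw) d

theorem Tbw.sg_lin (H : Tbw R ρ h M φ) (H' : Tbw R ρ h M' φ') (hw : ∀ a, w a ≠ 0) (d : ℕ) (a : ℂ) :
    sg w d p (φ + a • φ') = sg w d p φ + a • sg w d p φ' :=
  (H.hbl hp b0 hb ρ0).sy_add (H'.hbl hp b0 hb ρ0) (wC_ne hw) d a

theorem Tbw.sg_tc (H : Tbw R ρ h M φ) (hw : ∀ a, w a ≠ 0) {d' : ℕ} (hd : d ≤ d') :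
    sg w d p φ = tc (wC w) d (sg w d' p φ) := (H.hbl hp b0 hb ρ0).sy_tc (wC_ne hw) hd

end

theorem crd_meas (hl : ∀ B δ, Cv R' δ B → ‖l B‖ ≤ n * δ) : Measurable (crd l) :=
  measurable_pi_lambda _ fun i => by
    have : Frg ((LinearMap.proj i.1 ∘ₗ l).smulRight (1 : V)) := fun f => ⟨R' + 1, fun a ha => by
      have := hl a _ (Sm.cv (δ := 0) fun e he => by rw [ha e he, norm_zero])
      simp only [mul_zero, norm_le_zero_iff] at this
      simp [this]⟩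
    simpa [cxL, crd, ucr, cz_ap] using! (this.meas.eval (a := (0, 0))).eval (a := i.2)

/-- invariant symbols define local terms -/
theorem tbw_Ev (hl : ∀ B δ, Cv R' δ B → ‖l B‖ ≤ n * δ) (hP : P ∈ Iv w d)
    (hM : ∀ B, InT R' ρ' h' B → ‖Ev l P B‖ ≤ M) : Tbw R' ρ' h' M (Ev l P) := by
  refine ⟨⟨fun A B _ _ _ q => ?_, fun u B _ _ _ => by rw [Ev, crd_ad, Iv_eval hP]; rfl⟩,
    fun A B Ω _ _ => ?_, hM, (continuous_eval P).measurable.comp (crd_meas hl)⟩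
  · have := crd_le hl (δ := 0) (B := A - B) fun y hy μ ν => by
      rw [RG.dd_sub, q y hy, sub_self, norm_zero]
    rw [mul_zero, norm_le_zero_iff, map_sub, sub_eq_zero] at this
    rw [Ev, this]; rfl
  · simp only [Ev, eval_eq', map_add, map_smul, Pi.add_apply, Pi.smul_apply]
    fun_prop

/-- the step on the symbols -/
def Aop (w : α → ℕ) (d : ℕ) (L : ℝ) (U' : Module.End ℝ (α → ℝ)) :
    Module.End ℂ (MvPolynomial (α × Fin GD.d) ℂ) := pb (wC w) d (cxM (dlR w L⁻¹ ∘ₗ U'))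

/-- the slow term with a given symbol -/
def Eop (w : α → ℕ) (d : ℕ) (l : V →ₗ[ℝ] α → ℝ) (U : Module.End ℝ (α → ℝ))
    (Q : MvPolynomial (α × Fin GD.d) ℂ) : Fld → ℂ := Ev l (pb (wC w) d (cxM U) Q)

theorem Eop_lin (P Q : MvPolynomial (α × Fin GD.d) ℂ) (a : ℂ) :
    Eop w d l U (P + a • Q) = Eop w d l U P + a • Eop w d l U Q := by
  rw [Eop, map_add, map_smul, Ev_lin]; rfl

theorem dlR_ap (w : α → ℕ) (L : ℝ) (c : α → ℝ) : dlR w L⁻¹ c = fun a => c a / L ^ w a := by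
  funext a; simp [dlR, div_eq_inv_mul]

theorem dlR_dlR (w : α → ℕ) (L0 : L ≠ 0) : dlR w L⁻¹ ∘ₗ dlR w L = LinearMap.id := by
  ext a b; simp [dlR, L0]

theorem nP_dl (hw : ∀ a, w a ≠ 0) (L1 : 1 ≤ L) (h : P ∈ Wd (wC w) d) :
    nP (pb (wC w) d (cxM (dlR w L)) P) ≤ 4 * (4 * L) ^ d * nP P :=
  (nP_pb (wC_ne hw) (wC_ne hw) h L1 (fun c hc i => by
    rw [cxM_dl, dl, norm_mul, norm_pow, Complex.norm_of_nonneg (by linarith)]
    exact mul_le_of_le_one_right (by positivity) ((norm_le_pi_norm c i).trans hc)) d).trans_eq (by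
      rw [show 4 * L = 2 * (2 * L) by ring, mul_pow 2 (2 * L)]; ring)

theorem nP_cxM (hw : ∀ a, w a ≠ 0) (N1 : 1 ≤ N) (hU : ∀ c, ‖U c‖ ≤ N * ‖c‖) (h : P ∈ Wd (wC w) d) :
    nP (pb (wC w) d (cxM U) P) ≤ 4 * (4 * (N * cG)) ^ d * nP P := by
  have g := GD.cG1
  have k : 1 ≤ N * cG := one_le_mul_of_one_le_of_one_le N1 g
  refine (nP_pb (wC_ne hw) (wC_ne hw) h k (fun c hc i => ?_) d).trans_eq (by
    rw [show 4 * (N * cG) = 2 * (2 * (N * cG)) by ring, mul_pow 2 (2 * _)]; ring)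
  refine (norm_le_pi_norm _ i).trans ((cxM_le hU (by linarith) c).trans
    (le_trans ?_ (le_self_pow₀ k (hw i.1))))
  gcongr
  exact mul_le_of_le_one_right (by linarith) hc

end Q4

namespace Lt

open Q4 Finset MvPolynomial Ju

variable {α : Type} [Fintype α] [DecidableEq α] {w : α → ℕ} {R R' d : ℕ}
  {T : V →ₗ[ℝ] V} {p p' : (α → ℝ) →ₗ[ℝ] V} {l : V →ₗ[ℝ] α → ℝ} {U U' : Module.End ℝ (α → ℝ)}
  {L N b b' n η η' ρ ρ' h h' M δ : ℝ} {φ : Fld → ℂ} {B : Fld}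
  {P Q : MvPolynomial (α × Fin GD.d) ℂ}
  (H : Lt w R R' T p p' l U U' L N b b' n η η') (hw : ∀ a, w a ≠ 0)
include H

theorem scale {κ κ' θ : ℝ} (k0 : 0 < κ) (k0' : 0 < κ') (h1 : κ / κ' ≤ θ) (h2 : κ' / κ ≤ θ)
    (N0 : 0 ≤ N) : Lt w R R' T (κ • p) (κ' • p') (κ⁻¹ • l) ((κ / κ') • U) ((κ' / κ) • U') L (θ * N)
      (κ * b) (κ' * b') (κ⁻¹ * n) η (κ' * η') := by
  have cs : ∀ {R : ℕ} {t δ x : ℝ} {a : V}, 0 < t → Cv R (δ * x) a → Cv R (t * δ * x) (t • a) :=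
    fun {_ t _ _ _} h0 h => by simpa only [abs_of_pos h0, mul_assoc] using La.Q.cv_smul' t h
  have ns : ∀ {t : ℝ} {U : Module.End ℝ (α → ℝ)}, 0 < t → t ≤ θ → (∀ c, ‖U c‖ ≤ N * ‖c‖) →
      ∀ c, ‖(t • U) c‖ ≤ θ * N * ‖c‖ := fun h0 h1 h c => by
    rw [LinearMap.smul_apply, norm_smul, Real.norm_of_nonneg h0.le, mul_assoc]
    exact mul_le_mul h1 (h c) (norm_nonneg _) (h0.le.trans h1)
  refine ⟨fun c => cs k0 (H.bp c), fun c => cs k0' (H.bp' c), fun B δ hB => ?_, fun B δ hB => ?_,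
    fun c => ?_, ?_, ?_, fun a b h => by simp [H.fU a b h], fun a b h => by simp [H.fU' a b h],
    ns (by positivity) h1 H.bU, ns (by positivity) h2 H.bU'⟩
  · rw [LinearMap.smul_apply, norm_smul, Real.norm_of_nonneg (by positivity), mul_assoc]
    exact mul_le_mul_of_nonneg_left (H.bl B δ hB) (by positivity)
  · rw [← dlR_ap, LinearMap.smul_apply, LinearMap.smul_apply, map_smul, map_smul, smul_smul,
      mul_inv_cancel₀ k0.ne', one_smul, dlR_ap]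
    exact H.int B δ hB
  · rw [← dlR_ap, LinearMap.smul_apply, LinearMap.smul_apply, LinearMap.smul_apply, map_smul,
      map_smul, map_smul, smul_smul, mul_div_cancel₀ _ k0.ne', ← smul_sub, dlR_ap]
    exact cs k0' (H.ex c)
  · rw [smul_mul_smul_comm, H.inv, div_mul_div_cancel₀ k0'.ne', div_self k0.ne', one_smul]
  · rw [smul_mul_smul_comm, H.inv', div_mul_div_cancel₀ k0.ne', div_self k0'.ne', one_smul]

theorem intC (hB : Cv R' δ B) : Cv R (η * δ) (cxL T B - emF p (cxM (dlR w L⁻¹) (crd l B))) :=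
  cv_dir fun u hu => by
    have := H.int _ _ (hB.reD hu)
    rwa [← dlR_ap, ← reD_cxL, show reD u B = rD u B from rfl, ← rD_cz, ← rD_cz, ← rD_cz,
      show rD u _ = reD u _ from rfl, ← reD_sub] at this

theorem exC (η0 : 0 ≤ η') (c : Cr α) :
    Cv R (η' * (cG * ‖c‖)) (cxL T (emF p' c) - emF p (cxM (dlR w L⁻¹ ∘ₗ U') c)) :=
  cv_dir fun u hu => by
    have := (H.ex (rD u (cur c))).mono le_rfl (mul_le_mul_of_nonneg_left (rD_cur hu c) η0)
    rwa [← dlR_ap, ← LinearMap.comp_apply (dlR w L⁻¹), ← rD_cz, ← rD_cz, ← rD_cz, ← rD_cz,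
      show rD u (cz T _) = reD u _ from rfl, show rD u (cz p _) = reD u _ from rfl,
      ← reD_sub] at this

theorem flA : Ju.Fl (wC w) (wC w) (cxM (dlR w L⁻¹ ∘ₗ U')) :=
  fl_cxM fun a b h => by simp [dlR, H.fU' a b h]

include hw

theorem Eop_Aop (P : MvPolynomial (α × Fin GD.d) ℂ) :
    Eop w d l U (Aop w d L U' P) = Ev l (pb (wC w) d (cxM (dlR w L⁻¹)) P) := by
  rw [Eop, Aop, pb_pb (wC_ne hw) (fl_cxM H.fU), cxM_comp, LinearMap.comp_assoc,
    ← Module.End.mul_eq_comp U' U, H.inv']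
  rfl

theorem Aop_mem (h : P ∈ Iv w d) : Aop w d L U' P ∈ Iv w d := pb_Iv hw H.flA h

/-- the step on the symbols is invertible -/
theorem le_Aop (L1 : 1 ≤ L) (N1 : 1 ≤ N) (h : P ∈ Wd (wC w) d) :
    nP P ≤ 16 * (16 * (N * cG) * L) ^ d * nP (Aop w d L U' P) := by
  have e : pb (wC w) d (cxM (dlR w L)) (pb (wC w) d (cxM U) (Aop w d L U' P)) = P := by
    rw [Aop, pb_pb (wC_ne hw) (fl_cxM H.fU), pb_pb (wC_ne hw) (fl_dl w L), cxM_comp, cxM_comp,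
      LinearMap.comp_assoc U, ← Module.End.mul_eq_comp U' U, H.inv', Module.End.one_eq_id,
      LinearMap.comp_id, dlR_dlR w (by linarith), cxM_id, pb_id h]
  nth_rw 1 [← e]
  refine (nP_dl hw L1 (pb_mem _ _ _ _)).trans ((mul_le_mul_of_nonneg_left
    (nP_cxM hw N1 H.bU (pb_mem _ _ _ _)) (by positivity)).trans_eq ?_)
  rw [show 16 * (N * cG) * L = 4 * L * (4 * (N * cG)) by ring, mul_pow (4 * L), Aop]
  ring

theorem tbw_Eop (N1 : 1 ≤ N) (hn : n * (ρ' + h') ≤ N) (h : Q ∈ Iv w d) :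
    Tbw R' ρ' h' (8 * (8 * (N * (N * cG))) ^ d * nP Q) (Eop w d l U Q) :=
  tbw_Ev H.bl (pb_Iv hw (fl_cxM H.fU) h) fun B q => by
    refine (grow (wC_ne hw) (pb_mem _ _ _ _) N1 fun i => (norm_le_pi_norm _ i).trans
      (((crd_le H.bl q.cv).trans hn).trans (le_self_pow₀ N1 (hw i.1)))).trans
      ((mul_le_mul_of_nonneg_left (nP_cxM hw N1 H.bU (mem_Iv.1 h).1) (by positivity)).trans_eq ?_)
    rw [show 8 * (N * (N * cG)) = 2 * N * (4 * (N * cG)) by ring, mul_pow (2 * N)]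
    ring

variable (Φ : Tbw R ρ h M φ) (N1 : 1 ≤ N) (hL : N * cG < L) (b0 : 0 ≤ b) (hb : b * cG < h)
  (ρ0 : 0 < ρ)
include Φ N1 hL b0 hb ρ0

/-- the image is close to the slow term -/
theorem rem (hn : n * (ρ' + h') ≤ N) (hη : η * (ρ' + h') < h - b * cG) (q : InT R' ρ' h' B) :
    ‖φ (cxL T B) - Eop w d l U (Aop w d L U' (sg w d p φ)) B‖ ≤
      ((2 * (N / L)) ^ (d + 1) + 2 * (η * (ρ' + h')) / (h - b * cG)) * M := by
  have g := GD.cG1
  have NL : N < L := by nlinarith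
  have L0 : 0 < L := by linarith
  have s1 : N / L < 1 := (div_lt_one L0).2 NL
  have a : ∀ i, ‖cxM (dlR w L⁻¹) (crd l B) i‖ ≤ (N / L) ^ wC w i := fun i => by
    rw [cxM_dl, dl, norm_mul, norm_pow, Complex.norm_of_nonneg (by positivity), div_pow,
      div_eq_inv_mul, inv_pow]
    gcongr
    exact (norm_le_pi_norm _ i).trans (((crd_le H.bl q.cv).trans hn).trans
      (le_self_pow₀ N1 (hw i.1)))
  have a1 := (Φ.hbl H.bp b0 hb ρ0).rem' (wC_ne hw) (by positivity) s1 a d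
  have a2 := Φ.lip (emF_inT H.bp b0 hb ρ0 ((pi_norm_le_iff_of_nonneg one_pos.le).2 fun i =>
    (a i).trans (pow_le_one₀ (by positivity) s1.le))) (H.intC q.cv) hη
  rw [H.Eop_Aop hw, Ev, sg, eval_pb (fun t c => by simp only [cxM_dl, dl_dl, mul_comm])
    (sy_mem _ _ _)]
  exact (norm_sub_le_norm_sub_add_norm_sub _ _ _).trans ((add_le_add a2 a1).trans_eq (by ring))

variable (Φ' : Tbw R' ρ' h' M fun B => φ (cxL T B)) (b0' : 0 ≤ b') (hb' : b' * cG < h')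
  (ρ0' : 0 < ρ') (η0 : 0 ≤ η') (hη' : η' * cG < h - b * cG)
include Φ' b0' hb' ρ0' η0 hη'

/-- the symbol of the image -/
theorem sym : nP (sg w d p' (fun B => φ (cxL T B)) - Aop w d L U' (sg w d p φ)) ≤
    2 * 2 ^ d * (2 * (η' * cG) / (h - b * cG) * M) := by
  have g := GD.cG1
  have L1 : 1 < L := by nlinarith
  have a : ∀ c : Cr α, ‖c‖ ≤ 1 → ‖cxM (dlR w L⁻¹ ∘ₗ U') c‖ ≤ 1 := fun c hc => by
    rw [← cxM_comp, LinearMap.comp_apply, cxM_dl]
    refine (norm_dl (wC_ne hw) (by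
      simpa [abs_of_pos (one_pos.trans L1)] using inv_le_one_of_one_le₀ L1.le) _).trans ?_
    rw [Complex.norm_of_nonneg (by positivity)]
    refine inv_mul_le_one_of_le₀ ((cxM_le H.bU' (by linarith) c).trans (le_trans ?_ hL.le))
      (by linarith)
    gcongr
    exact mul_le_of_le_one_right (by linarith) hc
  have F1 := Φ'.hbl H.bp' b0' hb' ρ0'
  have F0 := Φ.hbl H.bp b0 hb ρ0
  have F2 : Hb M fun c => φ (emF p (cxM (dlR w L⁻¹ ∘ₗ U') c)) :=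
    ⟨fun Ω γ o x y => F0.hol Ω _ o (differentiableOn_pi.1 ((cxM _).toContinuousLinearMap.differentiable
      |>.comp_differentiableOn (differentiableOn_pi.2 x))) fun t ht => a _ (y t ht),
      fun c hc => F0.bd _ (a c hc)⟩
  rw [Aop, sg, sg, ← F0.sy_comp (wC_ne hw) H.flA, sub_eq_add_neg, ← neg_one_smul ℂ (sy _ _ _),
    ← F1.sy_add F2 (wC_ne hw)]
  refine Hb.nP_sy ⟨(F1.add (F2.smul _)).hol, fun c hc => ?_⟩ (wC_ne hw) d
  have := Φ.lip (emF_inT H.bp b0 hb ρ0 (a c hc)) ((H.exC η0 c).mono le_rfl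
    (mul_le_mul_of_nonneg_left (mul_le_of_le_one_right (by linarith) hc) η0)) hη'
  simpa [← sub_eq_add_neg] using this.trans_eq (by ring)

/-- the fast part of the image -/
theorem fast (hn : n * (ρ' + h') ≤ N) (hη : η * (ρ' + h') < h - b * cG) :
    Tbw R' ρ' h' (((2 * (N / L)) ^ (d + 1) + 2 * (η * (ρ' + h')) / (h - b * cG) +
      8 * (8 * (N * (N * cG))) ^ d * (2 * 2 ^ d * (2 * (η' * cG) / (h - b * cG)))) * M)
      ((fun B => φ (cxL T B)) - Eop w d l U (sg w d p' fun B => φ (cxL T B))) := by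
  have m1 := Φ'.sg_mem H.bp' b0' hb' ρ0' hw d
  have m2 := H.Aop_mem hw (Φ.sg_mem H.bp b0 hb ρ0 hw d)
  have A := Φ'.sub (H.tbw_Eop hw N1 hn m1)
  refine ⟨A.toLA, A.hol, fun B q => ?_, A.meas⟩
  have a1 := H.rem (d := d) hw Φ N1 hL b0 hb ρ0 hn hη q
  have a2 := ((H.tbw_Eop hw N1 hn (sub_mem m1 m2)).bd B q).trans (mul_le_mul_of_nonneg_left
    (H.sym hw Φ N1 hL b0 hb ρ0 Φ' b0' hb' ρ0' η0 hη') (by have := GD.cG_pos; positivity))
  rw [sub_eq_add_neg, ← neg_one_smul ℂ (Aop _ _ _ _ _), Eop_lin, neg_one_smul, ← sub_eq_add_neg,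
    Pi.sub_apply, norm_sub_rev] at a2
  exact (norm_sub_le_norm_sub_add_norm_sub _ _ _).trans ((add_le_add a1 a2).trans_eq (by ring))

end Lt

end Pool.Agent.Lib.MP_7f377f_mp.RG
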