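import Pool.Agent.Lib.MP_7f377f_mp.G.JuD
import Pool.Agent.Lib.MP_7f377f_mp.G.JuB

/-! The symbol calculus of one linear step. -/

noncomputable section

set_option linter.unusedSectionVars false
variable [Pool.Agent.Lib.MP_7f377f_mp.GD]

namespace Pool.Agent.Lib.MP_7f377f_mp.RG

open Finset MvPolynomial Ju

variable {α : Type} [Fintype α] [DecidableEq α] {w : α → ℕ} {R R' d : ℕ}
  {T : V →ₗ[ℝ] V} {p p' : (α → ℝ) →ₗ[ℝ] V} {l : V →ₗ[ℝ] α → ℝ} {U U' : Module.End ℝ (α → ℝ)}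
  {L N b b' n η η' ρ ρ' h h' M C X : ℝ} {φ : Fld → ℂ}

namespace Q4

/-- the space of symbols -/
abbrev SyC (w : α → ℕ) (d : ℕ) : Type := Sy (wC w) d

/-- invariant symbols without constant term -/
def W0 (w : α → ℕ) (d : ℕ) : Submodule ℂ (SyC w d) :=
  (Iv w d ⊓ LinearMap.ker (lcoeff ℂ 0)).comap Sy.val

/-- the symbol as a vector -/
def sgS (w : α → ℕ) (d : ℕ) (p : (α → ℝ) →ₗ[ℝ] V) (φ : Fld → ℂ) : SyC w d :=
  Sy.mk _ d (sg w d p φ)

/-- the slow term of a symbol -/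
def evS (w : α → ℕ) (d : ℕ) (l : V →ₗ[ℝ] α → ℝ) (U : Module.End ℝ (α → ℝ)) (e : SyC w d) :
    Fld → ℂ := Eop w d l U e.val

/-- the step on the space of symbols -/
def AS (w : α → ℕ) (d : ℕ) (L : ℝ) (U' : Module.End ℝ (α → ℝ)) : SyC w d →ₗ[ℂ] SyC w d :=
  Sy.mk _ d ∘ₗ Aop w d L U' ∘ₗ Sy.val

/-- symbols without components of weight less than `m` -/
def Fg (w : α → ℕ) (d m : ℕ) : Submodule ℂ (SyC w d) where
  carrier := {e | ∀ a, Finsupp.weight (wC w) a < m → coeff a e.val = 0}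
  add_mem' ha hb a h := by simp [ha a h, hb a h]
  zero_mem' := by simp
  smul_mem' c e he a h := by simp [he a h]

theorem mem_Fg {m : ℕ} {e : SyC w d} : e ∈ Fg w d (m + 1) ↔ tc (wC w) m e.val = 0 := by
  refine Iff.trans (forall_congr' fun a => ?_) MvPolynomial.ext_iff.symm
  simp [coeff_tc]

theorem val_sgS (p : (α → ℝ) →ₗ[ℝ] V) (φ : Fld → ℂ) : (sgS w d p φ).val = sg w d p φ :=
  tc_eq (sy_mem _ _ _)

theorem val_AS (L : ℝ) (U' : Module.End ℝ (α → ℝ)) (e : SyC w d) :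
    (AS w d L U' e).val = Aop w d L U' e.val := tc_eq (pb_mem _ _ _ _)

theorem mem_W0 {e : SyC w d} : e ∈ W0 w d ↔ e.val ∈ Iv w d ∧ eval 0 e.val = 0 := by
  simp [W0, constantCoeff_eq]

theorem evS_lin (e e' : SyC w d) (t : ℂ) :
    evS w d l U (e + t • e') = evS w d l U e + t • evS w d l U e' := by
  rw [evS, map_add, map_smul, Eop_lin]; rfl

theorem sy1_zero {E : Type} [NormedAddCommGroup E] [NormedSpace ℂ E] (W : Submodule ℂ E) (R : ℕ)
    (ρ0 : 0 ≤ ρ) (h0 : 0 ≤ h) (C0 : 0 ≤ C) : Sy1 R ρ h C W 0 0 :=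
  ⟨by simp, fun _ _ H _ => ⟨W.zero_mem, by simpa using mul_nonneg C0 (H.nonneg ρ0 h0)⟩, by simp,
    fun _ _ => (Tbw.zero R ρ h).mono le_rfl le_rfl le_rfl (by positivity)⟩

section
variable (hp : ∀ c, Cv R (b * ‖c‖) (p c)) (b0 : 0 ≤ b) (hb : b * cG < h) (ρ0 : 0 < ρ)
  (hw : ∀ a, w a ≠ 0)
include hp b0 hb ρ0 hw

theorem Tbw.sg_zero (H : Tbw R ρ h M φ) (d : ℕ) : eval 0 (sg w d p φ) = φ 0 := by
  have := (H.hbl hp b0 hb ρ0).rem' (wC_ne hw) le_rfl one_pos (c := 0) (by simp) d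
  rw [mul_zero, zero_pow d.succ_ne_zero, zero_mul, norm_le_zero_iff, sub_eq_zero, map_zero] at this
  exact this.symm

theorem sy1_of (hC : 2 * 2 ^ d ≤ C) {ev : SyC w d → Fld → ℂ}
    (e1 : ∀ e e' (t : ℂ), ev (e + t • e') = ev e + t • ev e')
    (e2 : ∀ e ∈ W0 w d, Tbw R ρ h (C * ‖e‖) (ev e)) : Sy1 R ρ h C (W0 w d) (sgS w d p) ev := by
  refine ⟨fun φ φ' M M' t H H' => by
    rw [sgS, H.sg_lin hp b0 hb ρ0 H' hw, map_add, map_smul]; rfl, fun φ M H z => ⟨?_, ?_⟩, e1, e2⟩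
  · rw [mem_W0, val_sgS, H.sg_zero hp b0 hb ρ0 hw]
    exact ⟨H.sg_mem hp b0 hb ρ0 hw d, z⟩
  · rw [Sy.norm_eq, val_sgS]
    exact (H.nP_sg hp b0 hb ρ0 hw d).trans (mul_le_mul_of_nonneg_right hC
      (H.hbl hp b0 hb ρ0).nonneg)

end

end Q4

namespace Lt

open Q4

variable (H : Lt w R R' T p p' l U U' L N b b' n η η') (hw : ∀ a, w a ≠ 0)
include H hw

theorem AS_mem {e : SyC w d} (he : e ∈ W0 w d) : AS w d L U' e ∈ W0 w d := by
  rw [mem_W0, val_AS] at *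
  refine ⟨H.Aop_mem hw he.1, ?_⟩
  have := eval_sb (cxM (dlR w L⁻¹ ∘ₗ U')) 0 e.val
  rw [map_zero, he.2] at this
  simpa [Aop, Ju.pb, constantCoeff_eq, coeff_tc] using this

theorem AS_Fg {m : ℕ} {e : SyC w d} (he : e ∈ Fg w d m) : AS w d L U' e ∈ Fg w d m := by
  rcases m with _ | m
  · exact fun _ h => absurd h (Nat.not_lt_zero _)
  intro a ha
  have := congrArg (coeff a) (pb_tc (wC_ne hw) H.flA m e.val)
  rw [mem_Fg.1 he, map_zero] at this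
  simp only [val_AS, Aop, Ju.pb, LinearMap.comp_apply, coeff_tc, if_pos (Nat.lt_succ_iff.1 ha)]
    at this ⊢
  rw [← this]
  simp

/-- the step contracts according to the lowest weight -/
theorem AS_le (N1 : 1 ≤ N) (hL : N * cG < L) {m : ℕ} {e : SyC w d} (he : e ∈ Fg w d m) :
    ‖AS w d L U' e‖ ≤ 2 * 2 ^ d * (2 * (N * cG / L)) ^ m * ‖e‖ := by
  have g := GD.cG1
  have k : 1 ≤ N * cG := one_le_mul_of_one_le_of_one_le N1 g
  have s1 : N * cG / L < 1 := (div_lt_one (by linarith)).2 hL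
  have s0 : 0 ≤ N * cG / L := div_nonneg (by linarith) (by linarith)
  rw [Sy.norm_eq, Sy.norm_eq, val_AS, Aop, pb_eq, mul_assoc]
  refine (hb_eval _ fun c hc => ?_).nP_sy (wC_ne hw) d
  have a : ∀ i, ‖cxM (dlR w L⁻¹ ∘ₗ U') c i‖ ≤ (N * cG / L) ^ wC w i := fun i => by
    rw [← cxM_comp, LinearMap.comp_apply, cxM_dl, dl, norm_mul, norm_pow,
      Complex.norm_of_nonneg (inv_nonneg.2 (by linarith)), div_pow, div_eq_inv_mul, inv_pow]
    refine mul_le_mul_of_nonneg_left ((norm_le_pi_norm _ i).trans ((cxM_le H.bU' (by linarith)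
      c).trans (le_trans ?_ (le_self_pow₀ k (hw i.1))))) (inv_nonneg.2 (pow_nonneg (by linarith) _))
    gcongr
    exact mul_le_of_le_one_right (by linarith) hc
  rcases m with _ | m
  · rw [pow_zero, one_mul]
    exact le_nP ((pi_norm_le_iff_of_nonneg one_pos.le).2 fun i =>
      (a i).trans (pow_le_one₀ s0 s1.le)) _
  · simpa [sy_eval, mem_Fg.1 he] using (hb_nP e.val).rem' (wC_ne hw) s0 s1 a m

theorem le_AS (L1 : 1 ≤ L) (N1 : 1 ≤ N) (e : SyC w d) :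
    ‖e‖ ≤ 16 * (16 * (N * cG) * L) ^ d * ‖AS w d L U' e‖ := by
  rw [Sy.norm_eq, Sy.norm_eq, val_AS]
  exact H.le_Aop hw L1 N1 e.mem

theorem sy1 (N1 : 1 ≤ N) (hn : n * (ρ' + h') ≤ N) (b0' : 0 ≤ b') (hb' : b' * cG < h')
    (ρ0' : 0 < ρ') (hC : 8 * (8 * (N * (N * cG))) ^ d ≤ C) :
    Sy1 R' ρ' h' C (W0 w d) (sgS w d p') (evS w d l U) := by
  have g := GD.cG1
  refine sy1_of H.bp' b0' hb' ρ0' hw (le_trans ?_ hC) evS_lin fun e he =>
    (H.tbw_Eop hw N1 hn (mem_W0.1 he).1).mono le_rfl le_rfl le_rfl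
      (mul_le_mul_of_nonneg_right hC (norm_nonneg e))
  have : 1 ≤ N * (N * cG) := by nlinarith [mul_le_mul N1 g zero_le_one (by linarith)]
  gcongr <;> linarith

theorem sy2 (hT : Cvm R' R 2⁻¹ T) (hf : Frg T) (hρ : ρ' ≤ 2 * ρ) (hh : h' ≤ 2 * h) (N1 : 1 ≤ N)
    (hL : N * cG < L) (b0 : 0 ≤ b) (hb : b * cG < h) (ρ0 : 0 < ρ) (b0' : 0 ≤ b')
    (hb' : b' * cG < h') (ρ0' : 0 < ρ') (η0 : 0 ≤ η') (hη' : η' * cG < h - b * cG)
    (hn : n * (ρ' + h') ≤ N) (hη : η * (ρ' + h') < h - b * cG) {lam ε : ℝ}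
    (h1 : 2 * 2 ^ d * (2 * (η' * cG) / (h - b * cG)) ≤ ε)
    (h2 : (2 * (N / L)) ^ (d + 1) + 2 * (η * (ρ' + h')) / (h - b * cG) +
      8 * (8 * (N * (N * cG))) ^ d * ε ≤ lam) :
    Sy2 R R' ρ ρ' h h' lam ε (cxL T) (sgS w d p) (sgS w d p') (evS w d l U) (AS w d L U') := by
  intro φ M Φ _
  have Φ' := Φ.comp (ρ' := ρ') (h' := h') hT hf (by linarith) (by linarith)
  have M0 := (Φ.hbl H.bp b0 hb ρ0).nonneg
  have g := GD.cG_pos
  refine ⟨?_, ?_⟩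
  · rw [evS, val_sgS]
    refine (H.fast hw Φ N1 hL b0 hb ρ0 Φ' b0' hb' ρ0' η0 hη' hn hη).mono le_rfl le_rfl le_rfl
      (mul_le_mul_of_nonneg_right (le_trans ?_ h2) M0)
    gcongr
  · rw [Sy.norm_eq, map_sub, val_AS, val_sgS, val_sgS]
    exact (H.sym hw Φ N1 hL b0 hb ρ0 Φ' b0' hb' ρ0' η0 hη').trans
      ((mul_assoc _ _ _).symm.trans_le (mul_le_mul_of_nonneg_right h1 M0))

omit H hw in
/-- the step after the rescaling of the coordinates -/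
theorem cal (H : Lt w R R' T p p' l U U' L X X X X (X / L ^ (d + 1)) η) (hw : ∀ a, w a ≠ 0)
    (hT : Cvm R' R 2⁻¹ T) (hf : Frg T) {Y : ℝ} (ρ0 : 0 < ρ) (ρ0' : 0 < ρ') (r1 : ρ' ≤ 2 * ρ)
    (r2 : ρ' ≤ h') (h1 : h' ≤ 2 * h) (h2 : h ≤ X * h') (Y1 : X ≤ Y) (Y2 : Y ≤ X ^ 2)
    (X1 : 100 * cG ≤ X) (X2 : 8 * 2 ^ d ≤ X) (X3 : X ^ 6 ≤ L) (η0 : 0 ≤ η)
    (η1 : η ≤ (L ^ (d + 1))⁻¹) {κ κ' : ℝ} (e : κ = h / (2 * cG * Y)) (e' : κ' = h' / (2 * cG * X)) :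
    Sy1 R ρ h (Y ^ (9 * d + 6)) (W0 w d) (sgS w d (κ • p)) 0 ∧
    Sy1 R' ρ' h' (X ^ (9 * d + 6)) (W0 w d) (sgS w d (κ' • p'))
      (evS w d (κ⁻¹ • l) ((κ / κ') • U)) ∧
    Sy2 R R' ρ ρ' h h' (X ^ (9 * d + 6) / L ^ (d + 1)) η (cxL T) (sgS w d (κ • p))
      (sgS w d (κ' • p')) (evS w d (κ⁻¹ • l) ((κ / κ') • U)) (AS w d L ((κ' / κ) • U')) ∧
    (∀ e, ‖e‖ ≤ X ^ (9 * d + 6) * L ^ d * ‖AS w d L ((κ' / κ) • U') e‖) ∧
    (∀ e ∈ W0 w d, AS w d L ((κ' / κ) • U') e ∈ W0 w d) ∧ ∀ m, ∀ e ∈ Fg w d m,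
      AS w d L ((κ' / κ) • U') e ∈ Fg w d m ∧
        ‖AS w d L ((κ' / κ) • U') e‖ ≤ X * (X ^ 5 / L) ^ m * ‖e‖ := by
  have g := GD.cG1
  have g0 := GD.cG_pos
  have h0' : 0 < h' := ρ0'.trans_le r2
  have h0 : 0 < h := by linarith
  have x1 : 100 ≤ X := by linarith
  have x0 : 0 < X := by linarith
  have y0 : 0 < Y := by linarith
  have k0 : 0 < κ := by rw [e]; positivity
  have k0' : 0 < κ' := by rw [e']; positivity
  have pw : ∀ {i j : ℕ}, i ≤ j → X ^ i ≤ X ^ j := pow_le_pow_right₀ (by linarith)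
  have p1 : ∀ i j : ℕ, i < j → 100 * cG * X ^ i ≤ X ^ j := fun i j h => le_trans (by
    rw [pow_succ']; exact mul_le_mul_of_nonneg_right X1 (by positivity)) (pw h)
  have p2 : ∀ i j : ℕ, i < j → 100 * X ^ i ≤ X ^ j := fun i j h =>
    le_trans (by gcongr; linarith) (p1 i j h)
  have L1 : 1 ≤ L := (one_le_pow₀ (by linarith)).trans X3
  have L0 : 0 < L := by linarith
  have Ld : L ≤ L ^ (d + 1) := le_self_pow₀ L1 d.succ_ne_zero
  have S := H.scale (θ := X ^ 3) k0 k0' (by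
    rw [e, e', div_div_div_eq, div_le_iff₀ (by positivity)]
    calc h * (2 * cG * X) ≤ X * h' * (2 * cG * Y) := by gcongr
      _ ≤ X ^ 3 * h' * (2 * cG * Y) := by gcongr; simpa using pw (i := 1) (by norm_num)
      _ = _ := by ring) (by
    rw [e, e', div_div_div_eq, div_le_iff₀ (by positivity)]
    calc h' * (2 * cG * Y) ≤ 2 * h * (2 * cG * X ^ 2) := by gcongr
      _ ≤ X ^ 2 * h * (2 * cG * X ^ 2) := by gcongr; nlinarith
      _ = _ := by ring) x0.le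
  rw [← pow_succ, show 3 + 1 = 4 from rfl] at S
  have N1 : 1 ≤ X ^ 4 := one_le_pow₀ (by linarith)
  have b1 : κ * X * cG ≤ h / 2 := by
    rw [e, div_mul_eq_mul_div, div_mul_eq_mul_div, div_le_div_iff₀ (by positivity) two_pos]
    nlinarith [mul_le_mul_of_nonneg_left Y1 (mul_pos h0 g0).le]
  have b2 : κ' * X * cG = h' / 2 := by rw [e']; field_simp
  have b3 : κ' * η * cG ≤ h / X * η := by
    rw [mul_right_comm]
    refine mul_le_mul_of_nonneg_right ?_ η0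
    rw [le_div_iff₀ x0]; linarith
  have n1 : κ⁻¹ * X * (ρ' + h') ≤ X ^ 4 := by
    rw [e, inv_div, div_mul_eq_mul_div, div_mul_eq_mul_div, div_le_iff₀ h0]
    calc 2 * cG * Y * X * (ρ' + h') ≤ 2 * cG * X ^ 2 * X * (4 * h) := by gcongr; linarith
      _ = 8 * cG * X ^ 3 * h := by ring
      _ ≤ _ := by gcongr; linarith [p1 3 4 (by omega), mul_pos g0 (pow_pos x0 3)]
  have c1 : 8 * (8 * (X ^ 4 * (X ^ 4 * cG))) ^ d ≤ X ^ (9 * d + 1) := by
    rw [pow_succ' X (9 * d), pow_mul]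
    gcongr
    · linarith
    · linarith [p1 8 9 (by omega), mul_pos g0 (pow_pos x0 8)]
  have η2 : η ≤ 1 := η1.trans (inv_le_one_of_one_le₀ (L1.trans Ld))
  have hx : h / X * η ≤ h / 100 := (mul_le_of_le_one_right (by positivity) η2).trans (by gcongr)
  have i1 : X / L ^ (d + 1) * (ρ' + h') ≤ X / L ^ (d + 1) * (4 * h) := by gcongr; linarith
  have i2 : X / L ^ (d + 1) ≤ 1 / 100 := by
    rw [div_le_div_iff₀ (by positivity) (by norm_num)]
    linarith [p2 1 6 (by omega), pow_one X]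
  have hL : X ^ 4 * cG < L := by linarith [p1 4 6 (by omega), mul_pos g0 (pow_pos x0 4)]
  refine ⟨sy1_of S.bp (by positivity) (by linarith) ρ0 hw ?_ (by simp) fun _ _ =>
      (Tbw.zero R ρ h).mono le_rfl le_rfl le_rfl (by positivity),
    S.sy1 hw N1 n1 (by positivity) (by linarith) ρ0' (c1.trans (pw (by omega))),
    S.sy2 hw hT hf r1 h1 N1 hL (by positivity) (by linarith) ρ0 (by positivity) (by linarith) ρ0' (by positivity)
      (by linarith) n1 (by nlinarith) ?_ ?_,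
    fun e => (S.le_AS hw L1 N1 e).trans (mul_le_mul_of_nonneg_right ?_ (norm_nonneg _)),
    fun _ => S.AS_mem hw, fun m e he => ⟨S.AS_Fg hw he, (S.AS_le hw N1 hL he).trans ?_⟩⟩
  · refine le_trans ?_ (le_self_pow₀ (by linarith) (by omega))
    linarith [pow_pos (two_pos (α := ℝ)) d]
  · calc _ ≤ 2 * 2 ^ d * (2 * (h / X * η) / (h / 2)) := by gcongr; linarith
      _ = 8 * 2 ^ d / X * η := by field_simp; ring
      _ ≤ _ := mul_le_of_le_one_left η0 ((div_le_one x0).2 X2)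
  · have a1 : (2 * (X ^ 4 / L)) ^ (d + 1) ≤ X ^ (9 * d + 5) / L ^ (d + 1) := by
      rw [← mul_div_assoc, div_pow]
      gcongr
      refine le_trans ?_ (pw (show 5 * (d + 1) ≤ _ by omega))
      rw [pow_mul]
      gcongr
      linarith [p2 4 5 (by omega), pow_pos x0 4]
    have a2 : 2 * (X / L ^ (d + 1) * (ρ' + h')) / (h - κ * X * cG) ≤
        X ^ (9 * d + 5) / L ^ (d + 1) :=
      calc _ ≤ 2 * (X / L ^ (d + 1) * (4 * h)) / (h / 2) := by gcongr; linarith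
        _ = 16 * X / L ^ (d + 1) := by field_simp; ring
        _ ≤ _ := by gcongr; linarith [p2 1 (9 * d + 5) (by omega), pow_one X]
    have a3 := mul_le_mul (c1.trans (pw (show _ ≤ 9 * d + 5 by omega))) η1 η0 (by positivity)
    rw [← div_eq_mul_inv] at a3
    have a4 : 100 * X ^ (9 * d + 5) / L ^ (d + 1) ≤ X ^ (9 * d + 6) / L ^ (d + 1) := by
      gcongr; exact p2 _ _ (by omega)
    rw [mul_div_assoc] at a4
    linarith [div_pos (pow_pos x0 (9 * d + 5)) (pow_pos L0 (d + 1))]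
  · rw [mul_pow, ← mul_assoc]
    gcongr
    refine le_trans ?_ (pw (show 5 * d + 1 ≤ _ by omega))
    rw [pow_succ' X (5 * d), pow_mul]
    gcongr
    · linarith
    · linarith [p1 4 5 (by omega), mul_pos g0 (pow_pos x0 4)]
  · rw [← mul_div_assoc]
    gcongr
    · linarith [pow_pos (two_pos (α := ℝ)) d]
    · linarith [p1 4 5 (by omega), mul_pos g0 (pow_pos x0 4)]

end Lt

end Pool.Agent.Lib.MP_7f377f_mp.RG
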