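import Pool.Agent.Lib.MP_7f377f_mp.G.JuE
import Pool.Agent.Lib.MP_7f377f_mp.G.JuF

/-! The symbol calculus along a track. -/

noncomputable section

set_option linter.unusedSectionVars false
variable [Pool.Agent.Lib.MP_7f377f_mp.GD]

namespace Pool.Agent.Lib.MP_7f377f_mp.RG.Q4.En.Gl

variable {α : Type} [Fintype α] [DecidableEq α] (G : Gl)

/-- powers of the range -/
def Xr (C k : ℕ) : ℝ := (G.rn k : ℝ) ^ C

/-- the scale of the slow fields -/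
def ka (D C k : ℕ) : ℝ := G.lH D k / (2 * cG * G.Xr C k)

/-- the real linear minimiser seen from the track -/
def jl (c : ℕ → St) (b : ℝ) (J k : ℕ) : V →ₗ[ℝ] V :=
  shL (rc (G.L k) (c (k + 1))) ∘ₗ mu (G.l k) (G.sd k (G.zz b J (k + 1))).s

/-- linear data along the track -/
def Ld (w : α → ℕ) (d D C : ℕ) (c : ℕ → St) (b : ℝ) (J j : ℕ) (p : ℕ → (α → ℝ) →ₗ[ℝ] V)
    (l : ℕ → V →ₗ[ℝ] α → ℝ) (U U' : ℕ → Module.End ℝ (α → ℝ)) : Prop := ∀ k, j ≤ k → k < J →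
  Lt w (G.lR (k + 1)) (G.lR k) (G.jl c b J k) (p (k + 1)) (p k) (l k) (U k) (U' k) (G.L k)
    (G.Xr C k) (G.Xr C k) (G.Xr C k) (G.Xr C k) (G.Xr C k / (G.L k : ℝ) ^ (d + 1)) (G.eD D k)

/-- the levels at which the symbol calculus works -/
def Ew (d D C k : ℕ) : Prop := 100 * cG ≤ G.Xr C k ∧ 8 * 2 ^ d ≤ G.Xr C k ∧
  3 ^ (G.aA D + 1) ≤ G.Xr C k ∧ G.Xr C k ^ (18 * d + 13) ≤ G.L k

/-- the symbols -/
def js (w : α → ℕ) (d D C J j : ℕ) (p : ℕ → (α → ℝ) →ₗ[ℝ] V) (k : ℕ) : (Fld → ℂ) → SyC w d :=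
  if j ≤ k ∧ k ≤ J then sgS w d (G.ka D C k • p k) else 0

/-- the slow terms -/
def je (w : α → ℕ) (d D C J j : ℕ) (l : ℕ → V →ₗ[ℝ] α → ℝ) (U : ℕ → Module.End ℝ (α → ℝ))
    (k : ℕ) : SyC w d → Fld → ℂ :=
  if j ≤ k ∧ k < J then
    evS w d ((G.ka D C (k + 1))⁻¹ • l k) ((G.ka D C (k + 1) / G.ka D C k) • U k) else 0

/-- the step on the symbols -/
def jA (w : α → ℕ) (d D C : ℕ) (U' : ℕ → Module.End ℝ (α → ℝ)) (k : ℕ) : SyC w d →ₗ[ℂ] SyC w d :=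
  AS w d (G.L k) ((G.ka D C k / G.ka D C (k + 1)) • U' k)

/-- the constant of the calculus -/
def Ga (d C k : ℕ) : ℝ := G.Xr C k ^ (9 * d + 6)

variable {G} {w : α → ℕ} {b : ℝ} {d D C J j k : ℕ} {c : ℕ → St} {p : ℕ → (α → ℝ) →ₗ[ℝ] V} {l : ℕ → V →ₗ[ℝ] α → ℝ}
  {U U' : ℕ → Module.End ℝ (α → ℝ)}

namespace Ok

variable (h : G.Ok)
include h

theorem rn9 (k : ℕ) : 10 ^ 9 ≤ G.rn k :=
  le_trans (by omega) (h.sd_all k (G.top0 0 0)).nu.r_big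

theorem L3 (k : ℕ) : G.L (k + 1) ≤ 3 * G.L k := (h.sd_all k (G.top0 0 0)).nu.ok.ML

theorem rnm : Monotone G.rn := fun _ _ e =>
  Nat.pow_le_pow_left (Nat.log_mono_right (h.L_mono e)) _

theorem rn16 (k : ℕ) : G.rn (k + 1) ≤ 16 * G.rn k := by
  have a := Nat.log_mono_right (b := 3) (h.L3 k)
  have b := h.L_big k
  rw [mul_comm, Nat.log_mul_base (by norm_num) (by omega)] at a
  have c := Nat.log_pos (b := 3) (n := G.L k) (by norm_num) (by omega)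
  exact (Nat.pow_le_pow_left (a.trans (show _ ≤ 2 * Nat.log 3 (G.L k) by omega)) 4).trans_eq
    (by rw [mul_pow]; rfl)

theorem Xr1 (C k : ℕ) : 1 ≤ G.Xr C k :=
  one_le_pow₀ (by exact_mod_cast le_trans (by norm_num) (h.rn9 k))

theorem Xrm (C : ℕ) : Monotone (G.Xr C) := fun _ _ e =>
  pow_le_pow_left₀ (Nat.cast_nonneg _) (Nat.cast_le.2 (h.rnm e)) _

theorem Xr2 (C k : ℕ) : G.Xr C (k + 1) ≤ G.Xr C k ^ 2 := by
  rw [Xr, Xr, ← pow_mul, mul_comm, pow_mul]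
  gcongr
  exact_mod_cast (h.rn16 k).trans (by nlinarith [h.rn9 k])

theorem lHe (D k : ℕ) : G.lH D k = G.g k * (G.L k : ℝ) ^ (G.aA D + 1 - 7 * G.K) := by
  have := h.L1 k
  rw [lH, Q, ← pow_mul, pow_sub₀ _ (by positivity) (by unfold aA; omega), mul_comm G.K,
    mul_div_assoc, div_eq_mul_inv]

theorem ρe (k : ℕ) : (G.p k).ρ = G.g k * (G.L k : ℝ) ^ (G.K * 3) := by
  rw [pow_mul, mul_comm]; rfl

theorem g2 (k : ℕ) : G.g k ≤ 2 * G.g (k + 1) :=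
  (h.sd_all k (G.top0 0 0)).nu.ok.g'g.trans (by
    change 3 / 2 * G.g (k + 1) ≤ _; linarith [h.g0 (k + 1)])

theorem gL2 (k i : ℕ) : G.g k * (G.L k : ℝ) ^ i ≤ 2 * (G.g (k + 1) * (G.L (k + 1) : ℝ) ^ i) := by
  have := h.g0 (k + 1)
  rw [← mul_assoc]
  gcongr
  exacts [h.g2 k, h.L_mono k.le_succ]

theorem ρH (D k : ℕ) : 60 * (G.p k).ρ ≤ G.lH D k := by
  have a := h.L1 k
  have b := h.g0 k
  rw [h.lHe, h.ρe, mul_left_comm]
  gcongr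
  refine le_trans ?_ (pow_le_pow_right₀ (by linarith) (show G.K * 3 + 1 ≤ _ by unfold aA; omega))
  rw [pow_succ']
  gcongr
  linarith

theorem ρ60 (k : ℕ) : 0 < 60 * (G.p k).ρ := by
  have a := h.L1 k
  have b := h.g0 k
  rw [h.ρe]
  positivity

theorem lH3 (D k : ℕ) : G.lH D (k + 1) ≤ 3 ^ (G.aA D + 1) * G.lH D k := by
  have b := h.g0 k
  rw [h.lHe, h.lHe, mul_left_comm]
  gcongr
  · exact h.g_succ k
  refine (pow_le_pow_left₀ (by positivity) (show (G.L (k + 1) : ℝ) ≤ 3 * G.L k by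
    exact_mod_cast h.L3 k) _).trans ?_
  rw [mul_pow]
  gcongr
  · norm_num
  · omega

theorem ka0 (D C k : ℕ) : 0 < G.ka D C k := by
  have := GD.cG_pos
  have := h.Xr1 C k
  exact div_pos ((h.ρ60 k).trans_le (h.ρH D k)) (by positivity)

theorem rnt : Filter.Tendsto (fun k => (G.rn k : ℝ)) Filter.atTop Filter.atTop :=
  tendsto_natCast_atTop_atTop.comp (Filter.tendsto_atTop_mono
    (fun _ => Nat.le_self_pow (by norm_num) _) (log_top.comp h.sch.top))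

theorem XrL (C i : ℕ) : ∀ᶠ k in Filter.atTop, G.Xr C k ^ i ≤ G.L k := by
  filter_upwards [h.sch.top.eventually (log_pow_le (4 * C * i))] with k h1
  rw [Xr, rn, ← pow_mul]
  norm_cast
  rw [← pow_mul, ← mul_assoc]
  exact h1.trans (by unfold L l LL; omega)

theorem ew_ev (d D : ℕ) (C1 : C ≠ 0) : ∃ k0, ∀ k ≥ k0, G.Ew d D C k := by
  have a : ∀ y : ℝ, ∀ᶠ k in Filter.atTop, y ≤ G.Xr C k := fun y =>
    ((Filter.tendsto_pow_atTop C1).comp h.rnt).eventually_ge_atTop y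
  exact Filter.eventually_atTop.1 ((a _).and ((a _).and ((a _).and (h.XrL _ _))))

theorem jl_cm (t : G.Tu1 b J) (tr : G.Trk c j J) (h1 : j ≤ k) (h2 : k < J) :
    Cvm (G.lR k) (G.lR (k + 1)) 2⁻¹ (G.jl c b J k) ∧ Frg (G.jl c b J k) := by
  have n := h.ln (t.gd (k + 1) h2).tz (.inr rfl)
  have u := (h.sd_all k (G.zz b J (k + 1))).nu
  refine ⟨PtC.cm (r := G.rn k) (fun B δ hB => (n.pt B δ hB).mono le_rfl ?_) ?_
    (box_mono (Nat.sub_le _ _) (tr k h1 h2).2), frg_mu n.lin _⟩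
  · have L1 := h.L1 k
    have a : 2 * (G.rn k : ℝ) ^ 4 ≤ G.L k := u.crL (C := 2) (k := 4) (by norm_num) (by omega)
    have q : (G.L k : ℝ) ≤ G.L k * √(G.L k) :=
      le_mul_of_one_le_right (by positivity) (Real.one_le_sqrt.2 (by linarith))
    change (G.rn k : ℝ) ^ 4 * δ / (G.L k * √(G.L k)) ≤ _
    rw [div_le_iff₀ (by positivity)]
    nlinarith [mul_le_mul_of_nonneg_right (a.trans q) hB.nonneg]
  · have a : 10 ^ 9 * G.rn k ≤ G.l k := u.r_sq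
    have b := h.rn16 k
    have c := h.rn9 k
    have := Nat.div_eq_of_lt (show G.lR (k + 1) < LL (G.l k) by unfold lR LL; omega)
    rw [this, lR]
    omega

/-- powers of the range are negligible -/
theorem XrL4 (C i : ℕ) (y : ℝ) : ∀ᶠ k in Filter.atTop,
    y * G.Xr C k ^ i ≤ (G.L k : ℝ) ^ (4⁻¹ : ℝ) := by
  filter_upwards [h.XrL (C * i + 1) 4, h.rnt.eventually_ge_atTop y] with k h1 h2
  refine le_trans ?_ ((Real.le_rpow_inv_iff_of_pos (zero_le_one.trans (h.Xr1 (C * i + 1) k))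
    (Nat.cast_nonneg _) four_pos).2 (by exact_mod_cast h1))
  rw [Xr, Xr, ← pow_mul, pow_succ']
  gcongr

/-- the numbers of the cocycle, with the sizes measured in the units `Xr n` -/
theorem co_num (hd : d ≤ D) (C n : ℕ) (M : ℝ) : ∃ k0, ∀ k ≥ k0, ∀ a lam η : ℝ,
    a = G.Ga d C k * (G.L k : ℝ) ^ d →
    lam = (G.Ga d C (k + 1) * (G.Ga d C k / (G.L k : ℝ) ^ (d + 1)) + G.eD D k) * G.Xr n (k + 1) /
      G.Xr n k → η = (G.Ga d C (k + 1) * G.eD D k + G.eD D k) * G.Xr n (k + 1) →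
    8 * (a * lam) ≤ 1 ∧ 200 * M * (a * η) ≤ 1 ∧ 2 * a ≤ (G.L k : ℝ) ^ (d + 4⁻¹ : ℝ) ∧
      4 * lam ≤ (G.L k : ℝ) ^ (-(d + 3 / 4) : ℝ) := by
  refine Filter.eventually_atTop.1 ?_
  filter_upwards [h.XrL4 (C * (9 * d + 6) + n) 4 (400 * (|M| + 1))] with k h1
  rintro a lam η rfl rfl rfl
  obtain ⟨Y, hY⟩ : ∃ Y, Y = G.Xr (C * (9 * d + 6) + n) k := ⟨_, rfl⟩
  have L1 : (1 : ℝ) ≤ G.L k := by linarith [h.L1 k]
  have L0 : (0 : ℝ) < G.L k := by linarith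
  have x1 := h.Xr1 n k
  have g1 : 1 ≤ G.Ga d C k := one_le_pow₀ (h.Xr1 C k)
  have e1 : G.Ga d C k * G.Xr n k = Y := by rw [hY, Ga, Xr, Xr, Xr, pow_add _ _ n, pow_mul]
  have g2 : G.Ga d C (k + 1) ≤ G.Ga d C k ^ 2 := by
    rw [Ga, Ga, ← pow_mul, mul_comm _ 2, pow_mul]
    exact pow_le_pow_left₀ (by linarith [h.Xr1 C (k + 1)]) (h.Xr2 C k) _
  have g3 : 1 ≤ G.Ga d C (k + 1) := one_le_pow₀ (h.Xr1 C _)
  have x2 := h.Xr2 n k
  have x3 := h.Xr1 n (k + 1)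
  have y1 : G.Ga d C k ≤ Y := e1 ▸ le_mul_of_one_le_right (by linarith) x1
  have y2 : G.Xr n k ≤ Y := e1 ▸ le_mul_of_one_le_left (by linarith) g1
  have M0 := abs_nonneg M
  rw [← hY] at h1
  have r1 : (G.L k : ℝ) ^ (4⁻¹ : ℝ) ≤ G.L k := by
    simpa using Real.rpow_le_rpow_of_exponent_le L1 (show (4⁻¹ : ℝ) ≤ 1 by norm_num)
  have e2 : G.eD D k ≤ ((G.L k : ℝ) ^ (d + 1))⁻¹ :=
    inv_anti₀ (by positivity) (pow_le_pow_right₀ L1 (by omega))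
  have e0 : 0 ≤ G.eD D k := by unfold eD; positivity
  have Y4 : ∀ i ≤ 4, Y ^ i ≤ Y ^ 4 := fun i => pow_le_pow_right₀ (g1.trans y1)
  have Y0 : 0 < Y ^ 4 := pow_pos (by linarith) 4
  have b1 : (G.Ga d C (k + 1) * (G.Ga d C k / (G.L k : ℝ) ^ (d + 1)) + G.eD D k) * G.Xr n (k + 1) /
      G.Xr n k ≤ 2 * (G.Ga d C k ^ 3 * G.Xr n k) / (G.L k : ℝ) ^ (d + 1) := by
    rw [div_le_iff₀ (by linarith)]
    calc _ ≤ (G.Ga d C k ^ 2 * (G.Ga d C k / (G.L k : ℝ) ^ (d + 1)) +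
          G.Ga d C k ^ 3 * ((G.L k : ℝ) ^ (d + 1))⁻¹) * G.Xr n k ^ 2 := by
          gcongr
          exact e2.trans (le_mul_of_one_le_left (by positivity) (one_le_pow₀ g1))
      _ = _ := by ring
  have b2 : G.Ga d C k ^ 4 * G.Xr n k ^ 2 ≤ Y ^ 4 := by
    rw [← e1, mul_pow]
    gcongr
    norm_num
  have b3 : G.Ga d C k ^ 3 * G.Xr n k ≤ G.Ga d C k ^ 4 * G.Xr n k ^ 2 := by
    gcongr
    · norm_num
    · nlinarith
  refine ⟨?_, ?_, ?_, ?_⟩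
  · calc _ ≤ 8 * (G.Ga d C k * (G.L k : ℝ) ^ d *
          (2 * (G.Ga d C k ^ 3 * G.Xr n k) / (G.L k : ℝ) ^ (d + 1))) := by gcongr
      _ = 16 * (G.Ga d C k ^ 4 * G.Xr n k) / G.L k := by field_simp; ring
      _ ≤ 16 * (G.Ga d C k ^ 4 * G.Xr n k ^ 2) / G.L k := by gcongr; nlinarith
      _ ≤ 1 := by rw [div_le_one L0]; nlinarith
  · calc _ ≤ 200 * |M| * (G.Ga d C k * (G.L k : ℝ) ^ d * ((G.Ga d C k ^ 3 * ((G.L k : ℝ) ^
          (d + 1))⁻¹ + G.Ga d C k ^ 3 * ((G.L k : ℝ) ^ (d + 1))⁻¹) * G.Xr n k ^ 2)) := by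
          gcongr
          · exact le_abs_self M
          · exact g2.trans (pow_le_pow_right₀ g1 (by norm_num))
          · exact e2.trans (le_mul_of_one_le_left (by positivity) (one_le_pow₀ g1))
      _ = 400 * |M| * (G.Ga d C k ^ 4 * G.Xr n k ^ 2) / G.L k := by field_simp; ring
      _ ≤ 1 := by rw [div_le_one L0]; nlinarith
  · rw [Real.rpow_add L0, Real.rpow_natCast, ← mul_assoc, mul_comm]
    gcongr
    nlinarith [Y4 1 (by norm_num)]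
  · rw [show (-(d + 3 / 4) : ℝ) = 4⁻¹ - (d + 1 : ℕ) by push_cast; ring, Real.rpow_sub L0,
      Real.rpow_natCast]
    refine (mul_le_mul_of_nonneg_left b1 (by norm_num)).trans ?_
    rw [← mul_div_assoc]
    gcongr
    nlinarith

variable (t : G.Tu1 b J) (tr : G.Trk c j J) (hw : ∀ a, w a ≠ 0) (hd : d ≤ D + 1)
  (e : ∀ k ≥ j, G.Ew d D C k) (H : G.Ld w d D C c b J j p l U U')
include t tr hw hd e H

theorem cal0 (h1 : j ≤ k) (h2 : k < J) :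
    Sy1 (G.lR (k + 1)) (60 * (G.p (k + 1)).ρ) (G.lH D (k + 1)) (G.Ga d C (k + 1)) (W0 w d)
      (sgS w d (G.ka D C (k + 1) • p (k + 1))) 0 ∧
    Sy1 (G.lR k) (60 * (G.p k).ρ) (G.lH D k) (G.Ga d C k) (W0 w d) (sgS w d (G.ka D C k • p k))
      (evS w d ((G.ka D C (k + 1))⁻¹ • l k) ((G.ka D C (k + 1) / G.ka D C k) • U k)) ∧
    Sy2 (G.lR (k + 1)) (G.lR k) (60 * (G.p (k + 1)).ρ) (60 * (G.p k).ρ) (G.lH D (k + 1)) (G.lH D k)
      (G.Ga d C k / (G.L k : ℝ) ^ (d + 1)) (G.eD D k) (cxL (G.jl c b J k))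
      (sgS w d (G.ka D C (k + 1) • p (k + 1))) (sgS w d (G.ka D C k • p k))
      (evS w d ((G.ka D C (k + 1))⁻¹ • l k) ((G.ka D C (k + 1) / G.ka D C k) • U k))
      (G.jA w d D C U' k) ∧
    (∀ e, ‖e‖ ≤ G.Ga d C k * (G.L k : ℝ) ^ d * ‖G.jA w d D C U' k e‖) ∧
    (∀ e ∈ W0 w d, G.jA w d D C U' k e ∈ W0 w d) ∧ ∀ m, ∀ e ∈ Fg w d m,
      G.jA w d D C U' k e ∈ Fg w d m ∧
        ‖G.jA w d D C U' k e‖ ≤ G.Xr C k * (G.Xr C k ^ 5 / G.L k) ^ m * ‖e‖ :=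
  (H k h1 h2).cal hw (h.jl_cm t tr h1 h2).1 (h.jl_cm t tr h1 h2).2
    (h.ρ60 (k + 1)) (h.ρ60 k) (by rw [h.ρe, h.ρe]; linarith [h.gL2 k (G.K * 3)])
    (h.ρH D k) (by rw [h.lHe, h.lHe]; exact h.gL2 k _) ((h.lH3 D k).trans
      (mul_le_mul_of_nonneg_right (e k h1).2.2.1 ((h.ρ60 k).le.trans (h.ρH D k))))
    (h.Xrm C k.le_succ) (h.Xr2 C k) (e k h1).1 (e k h1).2.1
    ((pow_le_pow_right₀ (h.Xr1 C k) (by omega)).trans (e k h1).2.2.2) (by unfold eD; positivity)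
    (inv_anti₀ (by have := h.L1 k; positivity) (pow_le_pow_right₀ (by linarith [h.L1 k])
      (by omega))) rfl rfl

/-- the step on the symbols is bounded -/
theorem jA_le (h1 : j ≤ k) (h2 : k < J) (x : SyC w d) :
    ‖G.jA w d D C U' k x‖ ≤ G.Xr C k * ‖x‖ := by
  simpa using ((h.cal0 t tr hw hd e H h1 h2).2.2.2.2.2 0 x fun _ h => absurd h (Nat.not_lt_zero _)).2

/-- the symbol calculus -/
theorem cal (hj : j < J) :
    G.Cal D c b J j (W0 w d) (G.js w d D C J j p) (G.je w d D C J j l U) (G.jA w d D C U')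
      (G.Ga d C) (fun k => G.Ga d C k * (G.L k : ℝ) ^ d)
      (fun k => G.Ga d C k / (G.L k : ℝ) ^ (d + 1)) (G.eD D) := by
  have g1 : ∀ k, 1 ≤ G.Ga d C k := fun k => one_le_pow₀ (h.Xr1 C k)
  have e0 : ∀ k, 0 ≤ G.eD D k := fun k => by unfold eD; positivity
  have A := fun k => h.cal0 (k := k) t tr hw hd e H
  refine ⟨fun k => ?_, fun k h1 h2 => ?_, fun k x h1 h2 => (A k h1 h2).2.2.2.1 x, fun k =>
    ⟨by have := g1 k; positivity, by have := g1 k; positivity, e0 k, g1 k⟩, fun k h1 _ => ?_⟩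
  · rw [js, je]
    by_cases h1 : j ≤ k ∧ k < J
    · rw [if_pos h1, if_pos ⟨h1.1, h1.2.le⟩]
      exact (A k h1.1 h1.2).2.1
    rw [if_neg h1]
    split_ifs with h2
    · obtain ⟨k, rfl⟩ : ∃ i, k = i + 1 := ⟨k - 1, by omega⟩
      exact (A k (by omega) h2.2).1
    · exact sy1_zero _ _ (h.ρ60 k).le ((h.ρ60 k).le.trans (h.ρH D k)) (by linarith [g1 k])
  · rw [js, js, je, if_pos ⟨by omega, h2⟩, if_pos ⟨h1, h2.le⟩, if_pos ⟨h1, h2⟩]
    exact (A k h1 h2).2.2.1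
  · refine le_trans ?_ (e k h1).2.2.2
    rw [Ga, ← pow_mul, show 18 * d + 13 = (9 * d + 6) * 2 + 1 by ring, pow_succ']
    gcongr
    · have := h.Xr1 C k; positivity
    · linarith [(e k h1).1, GD.cG1]

end Ok

end Pool.Agent.Lib.MP_7f377f_mp.RG.Q4.En.Gl
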