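import Pool.Agent.Lib.MP_7f377f_mp.G.JuK2
import Pool.Agent.Lib.MP_7f377f_mp.G.StV6

/-! The activities of a source at the top are smaller than every power of the coupling. -/

noncomputable section

set_option linter.unusedSectionVars false
variable [Pool.Agent.Lib.MP_7f377f_mp.GD]

namespace Pool.Agent.Lib.MP_7f377f_mp.RG.Q4.En.Gl.Ok

open Finset Real Metric

variable {G : Gl} {A J n R : ℕ} {b C : ℝ} (h : G.Ok) (a : G.Big A J)
  (hn : n ≤ Nat.log 3 (G.L J) ^ 4)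
include h a hn

/-- the majorant of the activities at the top -/
theorem kI_big : kN (G.pA A J).up (G.N J) (kI (G.p J) (G.N J) (G.bb J / 4)) (G.g J ^ (n + 1)) := by
  obtain ⟨S, hS⟩ : ∃ S, S = G.sl J (G.top0 0 0) := ⟨_, rfl⟩
  have nu : S.Nu 100 := hS ▸ (h.sl_all J _).nu
  have n2 : (S.wK A).Nu 0 := by subst hS; exact h.nu_wK a nu rfl rfl rfl rfl
  have g0 := nu.ok.g0
  have r1 := nu.r1'
  have l0 : 0 ≤ 2 * A * log S.L := mul_nonneg (by positivity) (log_nonneg (Sd.L1 _))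
  have a2 := nu.kI_sum le_rfl (s := 2 * A * log S.L + 1 + S.r * S.r) (j := 0) (by positivity) (by
    have c1 : _ ≤ (S.r : ℝ) := n2.logQ_le
    have c2 := n2.logQ_ge
    have c3 := (nu.crL (C := 3) (k := 2) (by norm_num) (by omega)).trans nu.L_le_Q
    have c5 := log_le_log (pow_pos (Sd.L0 _) _) (show S.L ^ A ≤ (S.wK A).Q from
      Sd.pw S.toTd (Nat.le_add_left _ _))
    rw [log_pow] at c5
    norm_num at c1
    nlinarith) (by norm_num)
  have a3 := Mg.kN_ad (p := S.p.ad (2 * A * log S.L + 1)) (δ := S.r * S.r)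
    (by rw [Mg.ad_ad]; exact a2) (w := fun _ _ => 1) (C := exp (-S.r) ^ S.r)
    (fun _ _ => zero_le_one) (fun o _ => by
      have : (1 : ℝ) ≤ tau S.nf S.p.D o.1 := by
        exact_mod_cast tau_pos (by have := nu.ok.DM.trans' (Sd.D1 _); rw [Sd.p_D]; omega) _
      rw [← exp_nat_mul, ← exp_add]
      exact one_le_exp (by change 0 ≤ _ + _ * (tau S.nf S.p.D o.1 : ℝ); nlinarith)) (by positivity)
  have a4 : exp (-S.r) ≤ S.g := by
    simpa using nu.exp_g (i := 0) (j := 1) le_rfl (by norm_num) (by norm_num)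
  have a5 := a3.mono (show _ ≤ S.g ^ (n + 1) by
    rw [zero_add, pow_one, pow_succ]
    gcongr
    exact (pow_le_pow_left₀ (exp_nonneg _) a4 _).trans
      (pow_le_pow_of_le_one g0.le nu.ok.g1 (hS ▸ hn)))
  simp only [one_mul, ← Mg.ad_ad] at a5
  subst hS
  rwa [h.sl_nf] at a5

/-- the activities of a source -/
theorem topS {F : Sx} (hb : |b / G.bb J - 1| ≤ 10⁻¹) (hR : R ≤ (G.p J).R) (C0 : 0 < C)
    (pl : ∀ x μ ν, ‖F.1 x μ ν‖ ≤ C * (G.bb J / 4)) (lt : ∀ x, Ltt R (F.2.1 x) (F.2.2 x))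
    (bd : ∀ x U, ‖F.2.1 x U‖ ≤ C) : ∃ m, KM (G.p J) (G.N J) m (G.xv b J F).2 ∧
      kN (G.pA A J).up (G.N J) m (C * G.g J ^ n) := by
  have nu := (h.sl_all J (G.top b J)).nu
  have g0 := h.g0 J
  refine ⟨_, (km_schwarz (F := fun t => xK (G.p J) (G.N J) b (t • F)) C0 (fun t ht => ?_)
    fun Y c U => (xK_diff (fun x μ ν => ?_) (fun x U => ?_) Y c U).differentiableOn).1,
    ((h.kI_big a hn).smul (by positivity)).mono ?_⟩
  · rw [mem_ball_zero_iff] at ht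
    refine h.sl_nf J (G.top b J) ▸ xK_km nu hR (h.b34 hb) (fun x μ ν => ?_)
      (fun x => (lt x).smul t) fun x U => ?_
    · exact (norm_mul_le_of_le ht.le (pl x μ ν)).trans_eq (inv_mul_cancel_left₀ C0.ne' _)
    · exact (norm_mul_le_of_le ht.le (bd x U)).trans_eq (inv_mul_cancel₀ C0.ne')
  · simp only [Prod.smul_fst, Pi.smul_apply]; fun_prop
  · simp only [Prod.smul_fst, Prod.smul_snd, Pi.smul_apply]; fun_prop
  · have a1 : G.Q J ^ 1 * (G.Q J ^ 0 * G.g J) ≤ 1 := nu.ok.Qg_le (by norm_num)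
    have a2 := mul_le_mul_of_nonneg_right (h.cQ J (C := 2) (by norm_num)) g0.le
    rw [pow_succ]
    nlinarith [mul_pos C0 (pow_pos g0 n)]

/-- the activities of a letter -/
theorem topK {O : Conf → ℂ} {φ : Fld → ℂ} {F : St → ℂ} (hb : |b / G.bb J - 1| ≤ 10⁻¹)
    (hR : R ≤ (G.p J).R) (C0 : 0 < C) (lt : Ltt R O φ) (bd : ∀ U, ‖O U‖ ≤ C)
    (hF : ∀ x, ‖F x‖ ≤ 1) : ∃ m, KM (G.p J) (G.N J) m (G.xv b J (lS O φ F)).2 ∧
      kN (G.pA A J) (G.N J) m (C * G.g J ^ n) :=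
  (h.topS a hn (F := lS O φ F) hb hR C0
    (fun _ _ _ => norm_zero.trans_le (by have := h.b0 J; positivity)) (fun x => lt.smul _)
    fun x U => (norm_mul_le_of_le (hF x) (bd U)).trans_eq (one_mul C)).imp fun _ q =>
      ⟨q.1, kN_up q.2⟩

end Pool.Agent.Lib.MP_7f377f_mp.RG.Q4.En.Gl.Ok
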