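import Pool.Agent.Lib.MP_7f377f_mp.G.Q4PsD

/-! Local terms which are holomorphic on a tube: the class, the push and the linear part. -/

noncomputable section

set_option linter.unusedSectionVars false
variable [Pool.Agent.Lib.MP_7f377f_mp.GD]

namespace Pool.Agent.Lib.MP_7f377f_mp.RG.Q4

open Finset MeasureTheory Filter Topology Metric La La.Q

/-- bounded and holomorphic on the lines of a tube -/
structure Tbw (R : ℕ) (ρ h M : ℝ) (φ : Fld → ℂ) : Prop extends LA R ρ φ where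
  hol : ∀ (A B : Fld) (Ω : Set ℂ), IsOpen Ω → (∀ t ∈ Ω, InT R ρ h (A + t • B)) →
    DifferentiableOn ℂ (fun t : ℂ => φ (A + t • B)) Ω
  bd : ∀ B, InT R ρ h B → ‖φ B‖ ≤ M
  meas : Measurable φ

/-- every value depends on finitely many links -/
def Frg (T : V →ₗ[ℝ] V) : Prop := ∀ f, ∃ n, ∀ a : V, (∀ e ∈ lbox n, a e = 0) → T a f = 0

/-- the operator is bounded by `lam` on the curvature -/
def Cvm (R' R : ℕ) (lam : ℝ) (T : V →ₗ[ℝ] V) : Prop := ∀ a δ, Cv R' δ a → Cv R (lam * δ) (T a)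

variable {Z : Type} [MeasurableSpace Z] {ν : Measure Z} {l r R R' s : ℕ}
  {lam δ e ε d ρ ρ' h h' h1 η M M' : ℝ} {σ T : V →ₗ[ℝ] V}
  {G : St → Z → Fld → Fld} {φ φ' : Fld → ℂ} {A B : Fld} {x : St}

theorem InT.mono (H : InT R' ρ h B) (hR : R ≤ R') (hρ : ρ ≤ ρ') (hh : h ≤ h') : InT R ρ' h' B :=
  let ⟨B0, a, b, c⟩ := H; ⟨B0, a, b.mono hR hρ, c.mono hR hh⟩

theorem InT.add (H : InT R ρ h A) (hB : Cv R η B) : InT R ρ (h + η) (A + B) :=
  let ⟨B0, a, b, c⟩ := H; ⟨B0, a, b, by rw [add_sub_right_comm]; exact c.add hB⟩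

theorem inT_real (a : RealF B) (b : Cv R ρ B) (hh : 0 ≤ h) : InT R ρ h B :=
  ⟨B, a, b, by rw [sub_self]; exact Ho.cv_zero R hh⟩

theorem inT_ball (b : Cv R h B) (hρ : 0 ≤ ρ) : InT R ρ h B :=
  ⟨0, realF_zero, Ho.cv_zero R hρ, by rwa [sub_zero]⟩

theorem InT.h0 (H : InT R ρ h B) : 0 ≤ h := let ⟨_, _, _, c⟩ := H; c.nonneg

theorem InT.ρ0 (H : InT R ρ h B) : 0 ≤ ρ := let ⟨_, _, b, _⟩ := H; b.nonneg

namespace Tbw

theorem nonneg (H : Tbw R ρ h M φ) (hρ : 0 ≤ ρ) (hh : 0 ≤ h) : 0 ≤ M :=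
  (norm_nonneg _).trans (H.bd 0 (inT_ball (Ho.cv_zero R hh) hρ))

theorem mono (H : Tbw R ρ h M φ) (hR : R ≤ R') (hρ : ρ' ≤ ρ) (hh : h' ≤ h) (hM : M ≤ M') :
    Tbw R' ρ' h' M' φ :=
  ⟨H.toLA.mono hR hρ, fun A B Ω o q => H.hol A B Ω o fun t ht => (q t ht).mono hR hρ hh,
    fun B q => (H.bd B (q.mono hR hρ hh)).trans hM, H.meas⟩

theorem const (R : ℕ) (ρ h : ℝ) (c : ℂ) : Tbw R ρ h ‖c‖ fun _ => c :=
  ⟨⟨fun _ _ _ _ _ _ => rfl, fun _ _ _ _ _ => rfl⟩, fun _ _ _ _ _ => differentiableOn_const _,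
    fun _ _ => le_rfl, measurable_const⟩

theorem zero (R : ℕ) (ρ h : ℝ) : Tbw R ρ h 0 0 := norm_zero (E := ℂ) ▸ const R ρ h 0

theorem add (H : Tbw R ρ h M φ) (H' : Tbw R ρ h M' φ') : Tbw R ρ h (M + M') (φ + φ') :=
  ⟨⟨fun A B a b c q => by rw [Pi.add_apply, H.loc A B a b c q, H'.loc A B a b c q]; rfl,
    fun u B a b c => by rw [Pi.add_apply, H.ad u B a b c, H'.ad u B a b c]; rfl⟩,
    fun A B Ω o q => (H.hol A B Ω o q).add (H'.hol A B Ω o q),
    fun B q => norm_add_le_of_le (H.bd B q) (H'.bd B q), H.meas.add H'.meas⟩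

theorem smul (H : Tbw R ρ h M φ) (c : ℂ) : Tbw R ρ h (‖c‖ * M) (c • φ) :=
  ⟨⟨fun A B a b v q => by rw [Pi.smul_apply, H.loc A B a b v q]; rfl,
    fun u B a b v => by rw [Pi.smul_apply, H.ad u B a b v]; rfl⟩,
    fun A B Ω o q => (H.hol A B Ω o q).const_smul c,
    fun B q => (norm_smul c (φ B)).trans_le (mul_le_mul_of_nonneg_left (H.bd B q) (norm_nonneg c)),
    H.meas.const_smul c⟩

theorem sub (H : Tbw R ρ h M φ) (H' : Tbw R ρ h M' φ') : Tbw R ρ h (M + M') (φ - φ') := by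
  simpa [sub_eq_add_neg] using H.add (H'.smul (-1))

theorem sum {ι : Type} (S : Finset ι) {M : ι → ℝ} {φ : ι → Fld → ℂ}
    (H : ∀ i ∈ S, Tbw R ρ h (M i) (φ i)) : Tbw R ρ h (∑ i ∈ S, M i) (∑ i ∈ S, φ i) := by
  classical
  induction S using Finset.induction_on with
  | empty => simpa using zero R ρ h
  | insert i S hi ih =>
    rw [sum_insert hi, sum_insert hi]
    exact (H i (mem_insert_self _ _)).add (ih fun j hj => H j (mem_insert_of_mem hj))

theorem mul (H : Tbw R ρ h M φ) (H' : Tbw R ρ h M' φ') : Tbw R ρ h (M * M') (φ * φ') :=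
  ⟨⟨fun A B a b c q => by rw [Pi.mul_apply, H.loc A B a b c q, H'.loc A B a b c q]; rfl,
    fun u B a b c => by rw [Pi.mul_apply, H.ad u B a b c, H'.ad u B a b c]; rfl⟩,
    fun A B Ω o q => (H.hol A B Ω o q).mul (H'.hol A B Ω o q),
    fun B q => (norm_mul_le _ _).trans (mul_le_mul (H.bd B q) (H'.bd B q) (norm_nonneg _)
      ((norm_nonneg _).trans (H.bd B q))), H.meas.mul H'.meas⟩

theorem of_tb (H : Tb R ρ h M φ) (hm : Measurable φ) : Tbw R ρ h M φ :=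
  ⟨H.toLA, fun A B Ω o q => H.hol Ω _ o (Ho.disc_line Ω A B) q, H.bd, hm⟩

/-- the class of the small terms -/
theorem ps (H : Tbw R ρ' h M φ) (hh : 0 < h) (h1 : h ≤ 1000 * ρ') (hρ : 0 < ρ)
    (h2 : 20 * ρ ≤ ρ') (s : ℕ) :
    Ps R s ρ (2 * 10 ^ 11 * M / h ^ 2) (4 * 10 ^ 11 * (R + 1 : ℝ) ^ (2 * s) * M / h ^ 2)
      (2 * 10 ^ 18 * M * (ρ / h) ^ 3) fun B => φ B - φ 0 :=
  (jc_lines hh H.hol H.bd).ps' (H.toLA.mono le_rfl (by linarith)) (H.nonneg (by linarith) hh.le)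
    hh h1 hρ h2 s

end Tbw

/-- the Schwarz lemma on a line -/
theorem sch_line {F : Type} [NormedAddCommGroup F] [NormedSpace ℂ F] {f : ℂ → F} {k : ℝ}
    (hη : 0 ≤ η) (hk : η < k) (H : ∀ s, s * η ≤ k → DifferentiableOn ℂ f (ball 0 s) ∧
      ∀ t ∈ ball (0 : ℂ) s, ‖f t‖ ≤ M) : ‖f 1 - f 0‖ ≤ 2 * M * η / k := by
  have k0 : 0 < k := hη.trans_lt hk
  have a : ∀ η', η ≤ η' → 0 < η' → η' < k → ‖f 1 - f 0‖ ≤ 2 * M * η' / k := fun η' h1 h2 h3 => by
    have s1 : 1 < k / η' := (one_lt_div h2).2 h3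
    obtain ⟨b1, b2⟩ := H (k / η') ((mul_le_mul_of_nonneg_left h1 (by positivity)).trans_eq
      (div_mul_cancel₀ _ h2.ne'))
    have := Complex.dist_le_div_mul_dist_of_mapsTo_ball (R₂ := 2 * M) b1 (fun t ht => by
      rw [mem_closedBall, dist_eq_norm]
      linarith [norm_sub_le (f t) (f 0), b2 t ht, b2 0 (mem_ball_self (by linarith))])
      (z := 1) (by simpa using s1)
    rw [dist_eq_norm] at this
    refine this.trans_eq ?_
    simp only [dist_zero_right, norm_one]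
    field_simp
  rcases hη.eq_or_lt with rfl | h0
  · refine ge_of_tendsto (f := fun η' => 2 * M * η' / k) (x := 𝓝[>] 0)
      (Tendsto.mono_left (Continuous.tendsto (by fun_prop) 0) nhdsWithin_le_nhds) ?_
    filter_upwards [Ioo_mem_nhdsGT k0] with η' hη' using a η' hη'.1.le hη'.1 hη'.2
  · exact a η le_rfl h0 hk

theorem lip_of (hol : ∀ (A B : Fld) (Ω : Set ℂ), IsOpen Ω → (∀ t ∈ Ω, InT R ρ h (A + t • B)) →
    DifferentiableOn ℂ (fun t : ℂ => φ (A + t • B)) Ω) (bd : ∀ B, InT R ρ h B → ‖φ B‖ ≤ M)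
    (hA : InT R ρ h1 A) (hB : Cv R η (B - A)) (hη : η < h - h1) :
    ‖φ B - φ A‖ ≤ 2 * M * η / (h - h1) := by
  have q : ∀ s, s * η ≤ h - h1 → ∀ t ∈ ball (0 : ℂ) s, InT R ρ h (A + t • (B - A)) :=
    fun s hs t ht => (hA.add (hB.smul t)).mono le_rfl le_rfl (by
      nlinarith [mem_ball_zero_iff.1 ht, hB.nonneg])
  simpa using sch_line (f := fun t : ℂ => φ (A + t • (B - A))) hB.nonneg hη fun s hs =>
    ⟨hol _ _ _ isOpen_ball (q s hs), fun t ht => bd _ (q s hs t ht)⟩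

theorem Tbw.lip (H : Tbw R ρ h M φ) (hA : InT R ρ h1 A) (hB : Cv R η (B - A)) (hη : η < h - h1) :
    ‖φ B - φ A‖ ≤ 2 * M * η / (h - h1) := lip_of H.hol H.bd hA hB hη

theorem ev_cv (R : ℕ) (A : Fld) (h0 : 0 < η) : ∀ᶠ B in 𝓝 A, Cv R η (B - A) := by
  simp only [Cv, eventually_all_finset, eventually_all]
  intro x _ μ ν
  have c : Continuous fun B : Fld => ‖dd (B - A) x μ ν‖ := by
    simp only [dd, Pi.sub_apply]; fun_prop
  exact (c.continuousAt.eventually_lt continuousAt_const (by simpa [Ho.dd_zero] using h0)).mono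
    fun B hB => hB.le

open scoped Classical in
/-- restriction to the open tube -/
def opT (R : ℕ) (ρ h : ℝ) (φ : Fld → ℂ) (B : Fld) : ℂ := if ∃ k < h, InT R ρ k B then φ B else 0

theorem opT_eq (hh : h' < h) (q : InT R ρ h' B) : opT R ρ h φ B = φ B := if_pos ⟨h', hh, q⟩

/-- no measurability is needed after restriction to the open tube -/
theorem Tb.tbw (H : Tb R ρ h M φ) (h0 : 0 ≤ h') (hh : h' < h) : Tbw R ρ h' M (opT R ρ h φ) := by
  classical
  refine ⟨⟨fun A B a b c q => ?_, fun u B a b c => ?_⟩, fun A B Ω o q => (H.hol Ω _ o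
    (Ho.disc_line Ω A B) fun t ht => (q t ht).mono le_rfl le_rfl hh.le).congr fun t ht =>
      opT_eq hh (q t ht), fun B q => opT_eq hh q ▸ H.bd B (q.mono le_rfl le_rfl hh.le), ?_⟩
  · rw [opT_eq hh (inT_real a c h0), opT_eq hh (inT_real b (fun x hx μ ν => q x hx μ ν ▸ c x hx μ ν)
      h0), H.loc A B a b c q]
  · rw [opT_eq hh (inT_real a b h0), opT_eq hh (inT_real (real_ad u a) c h0), H.ad u B a b c]
  have o : IsOpen {B | ∃ k < h, InT R ρ k B} := isOpen_iff_mem_nhds.2 fun A ⟨k, hk, q⟩ =>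
    (ev_cv R A (η := (h - k) / 2) (by linarith)).mono fun B hB =>
      ⟨k + (h - k) / 2, by linarith, by simpa using q.add hB⟩
  refine ContinuousOn.measurable_piecewise (f := φ) (g := 0) (fun A ⟨k, hk, q⟩ =>
    ContinuousAt.continuousWithinAt (Metric.continuousAt_iff'.2 fun c hc => ?_))
    continuousOn_const o.measurableSet
  have M0 := H.nonneg q.ρ0 (q.h0.trans hk.le)
  have k0 : 0 < h - k := by linarith
  have d0 : 0 < min ((h - k) / 2) (c * (h - k) / (4 * M + 1)) := by positivity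
  filter_upwards [ev_cv R A d0] with B hB
  rw [dist_eq_norm]
  refine (lip_of (fun A B Ω o q => H.hol Ω _ o (Ho.disc_line Ω A B) q) H.bd q hB
    ((min_le_left _ _).trans_lt (by linarith))).trans_lt ?_
  have h3 := (le_div_iff₀ (by positivity)).1
    (min_le_right ((h - k) / 2) (c * (h - k) / (4 * M + 1)))
  rw [div_lt_iff₀ k0]
  nlinarith

theorem Tbw.loc' (H : Tbw R ρ h M φ) (hA : InT R ρ h1 A) (hh : h1 < h)
    (q : ∀ y ∈ box R, ∀ μ ν, dd B y μ ν = dd A y μ ν) : φ B = φ A := by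
  simpa [sub_eq_zero] using H.lip (η := 0) hA (fun y hy μ ν => by
    rw [RG.dd_sub, q y hy, sub_self, norm_zero]) (by linarith)

/-- holomorphy along discs -/
theorem Tbw.disc (H : Tbw R ρ h M φ) (hh : h1 < h) {Ω : Set ℂ} (o : IsOpen Ω) {γ : ℂ → Fld}
    (hγ : ∀ f ∈ lbox (R + 1), DifferentiableOn ℂ (fun t => γ t f) Ω)
    (q : ∀ t ∈ Ω, InT R ρ h1 (γ t)) : DifferentiableOn ℂ (fun t => φ (γ t)) Ω := fun t0 h0 => by
  have M0 := H.nonneg (q t0 h0).ρ0 ((q t0 h0).h0.trans hh.le)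
  have k0 : 0 < h - h1 := by linarith
  obtain ⟨D, hD⟩ : ∃ D : Fld, D = fun f => deriv (fun t => γ t f) t0 := ⟨_, rfl⟩
  obtain ⟨b, hb⟩ := Ho.cv_exists R D
  have b0 := hb.nonneg
  have e1 : ∀ t : ℂ, γ t0 - t0 • D + t • D = γ t0 + (t - t0) • D := fun t => by
    rw [sub_smul]; abel
  have g1 : DifferentiableAt ℂ (fun t : ℂ => φ (γ t0 - t0 • D + t • D)) t0 :=
    (H.hol _ _ (ball t0 ((h - h1) / (b + 1))) isOpen_ball fun t ht => e1 t ▸
      ((q t0 h0).add (hb.smul (t - t0))).mono le_rfl le_rfl (by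
        have := (lt_div_iff₀ (by positivity)).1 (mem_ball_iff_norm.1 ht)
        nlinarith [norm_nonneg (t - t0)])).differentiableAt
      (ball_mem_nhds _ (by positivity))
  have g2 : HasDerivAt (fun t : ℂ => φ (γ t0 - t0 • D + t • D) - φ (γ t)) 0 t0 := by
    rw [hasDerivAt_iff_isLittleO, Asymptotics.isLittleO_iff]
    intro c hc
    obtain ⟨c', hc'⟩ : ∃ c', c' = c * (h - h1) / (8 * M + 1) := ⟨_, rfl⟩
    have c0 : 0 < c' := by rw [hc']; positivity
    have a1 : ∀ᶠ t in 𝓝 t0, Sm (R + 1) (c' * ‖t - t0‖) (γ t0 - t0 • D + t • D - γ t) := by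
      simp only [Sm, eventually_all_finset]
      intro f hf
      have := ((hγ f hf).differentiableAt (o.mem_nhds h0)).hasDerivAt
      rw [hasDerivAt_iff_isLittleO, Asymptotics.isLittleO_iff] at this
      filter_upwards [this c0] with t ht
      rw [e1, ← norm_neg]
      refine le_of_eq_of_le (congrArg norm ?_) ht
      simp only [hD, Pi.sub_apply, Pi.add_apply, Pi.smul_apply]
      abel
    have a2 : ∀ᶠ t in 𝓝 t0, 4 * (c' * ‖t - t0‖) < h - h1 :=
      (ContinuousAt.eventually_lt (f := fun t : ℂ => 4 * (c' * ‖t - t0‖)) (g := fun _ => h - h1)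
        (by fun_prop) continuousAt_const (by simpa using k0))
    filter_upwards [a1, a2, o.mem_nhds h0] with t a1 a2 ht
    have := H.lip (q t ht) a1.cv a2
    simp only [sub_add_cancel, sub_self, sub_zero, smul_zero]
    refine this.trans ?_
    rw [div_le_iff₀ k0]
    have : 8 * M * c' ≤ c * (h - h1) := by
      rw [hc', mul_div_assoc', div_le_iff₀ (by positivity)]
      nlinarith [mul_pos hc k0]
    nlinarith [mul_le_mul_of_nonneg_right this (norm_nonneg (t - t0))]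
  simpa using (g1.fun_sub g2.differentiableAt).differentiableWithinAt

theorem Cvm.cx (H : Cvm R' R lam T) (hB : Cv R' d B) : Cv R (lam * d) (cxL T B) := fun y hy μ ν => by
  refine norm_le_of_dir fun u hu => ?_
  have a := H _ _ (hB.reD hu) y hy μ ν
  rwa [← reD_cxL, dd_reD] at a

theorem Frg.meas (H : Frg T) : Measurable (cxL T) := measurable_pi_lambda _ fun f => by
  obtain ⟨n, hn⟩ := H f
  simp only [cxL_eq_sum hn]
  fun_prop

theorem Frg.ad (H : Frg T) (u : Hc) (B : Fld) :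
    cxL T (adF (fun _ => u) B) = adF (fun _ => u) (cxL T B) :=
  funext fun f => let ⟨_, hn⟩ := H f; cxL_adF hn u B

theorem Cvm.inT (H : Cvm R' R lam T) (hB : InT R' ρ h B) :
    InT R (lam * ρ) (lam * h) (cxL T B) :=
  let ⟨B0, a, b, c⟩ := hB; ⟨cxL T B0, fun _ => cxL_real _ a _, H.cx b, cxL_sub T B B0 ▸ H.cx c⟩

/-- composition with a linear map -/
theorem Tbw.comp (H : Tbw R ρ h M φ) (hT : Cvm R' R lam T) (hf : Frg T) (hρ : lam * ρ' ≤ ρ)
    (hh : lam * h' ≤ h) : Tbw R' ρ' h' M fun B => φ (cxL T B) where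
  loc A B a b c q := H.loc _ _ (fun _ => cxL_real _ a _) (fun _ => cxL_real _ b _)
    ((hT.cx c).mono le_rfl hρ) fun y hy μ ν => by
      have := hT.cx (d := 0) (B := A - B) (fun y hy μ ν => by
        rw [RG.dd_sub, q y hy, sub_self, norm_zero]) y hy μ ν
      rwa [cxL_sub, RG.dd_sub, mul_zero, norm_le_zero_iff, sub_eq_zero] at this
  ad u B a b c := by
    rw [hf.ad]
    exact H.ad u _ (fun _ => cxL_real _ a _) ((hT.cx b).mono le_rfl hρ)
      (hf.ad _ B ▸ (hT.cx c).mono le_rfl hρ)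
  hol A B Ω o q := by
    have e : ∀ t : ℂ, cxL T (A + t • B) = cxL T A + t • cxL T B := fun t => by
      rw [cxL_add, cxL_smul]
    simp only [e]
    exact H.hol _ _ Ω o fun t ht => e t ▸ (hT.inT (q t ht)).mono le_rfl hρ hh
  bd B q := H.bd _ ((hT.inT q).mono le_rfl hρ hh)
  meas := H.meas.comp hf.meas

theorem PtC.cm (hp : PtC l r lam σ) (hR : r / 3 + (R / LL l + 1) ≤ R') (hx : x ∈ box l) :
    Cvm R' R lam (shL x ∘ₗ mu l σ) := fun _ _ hB => hp.sh (hB.mono hR le_rfl) hx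

theorem frg_mu {c : ℕ} {τ : ℝ} {m : BF} (H : Lin l r c τ m σ) (x : St) :
    Frg (shL x ∘ₗ mu l σ) := fun f => by
  obtain ⟨n, hn⟩ := mem_box_ht (yo l (f.1 + x))
  refine ⟨r / 4 + n, fun a ha => ?_⟩
  change mu l σ a (f.1 + x, f.2) = 0
  rw [La.mu_apply, H.s_rng (sh (yo l (f.1 + x)) a) fun e he => ha _ (RG.mem_lbox.2
    (add_mem_box (RG.mem_lbox.1 he) hn)), iz_apply,
    ha _ (RG.mem_lbox.2 (RG.box_mono (by omega) hn))]
  simp

theorem lm_eq (l : ℕ) (σ : V →ₗ[ℝ] V) (x : St) (B : Fld) :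
    lm l σ x B = cxL (shL x ∘ₗ mu l σ) B := rfl

/-- the image of a tube -/
theorem Fam.inT (F : Fam ν l R R' σ δ e ε G) (hp : PtC l r lam σ)
    (hR : r / 3 + (R / LL l + 1) ≤ R') (hx : x ∈ box l) (z : Z) (hB : InT R' ρ' h' B)
    (δ0 : 0 < δ) (hδ : 4 * (ρ' + h') ≤ δ) :
    InT R (2 * lam * ρ' + (e * ρ' + ε)) ((2 * lam + 4 * (e + ε / δ)) * h') (G x z B) := by
  obtain ⟨B0, a, b, c⟩ := hB
  have b0 := b.nonneg
  have c0 := c.nonneg
  refine ⟨G x z B0, F.real x hx z B0 a (b.mono le_rfl (by linarith)),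
    F.cv hp hR hx z b (by linarith), fun y hy μ ν => ?_⟩
  have q : ∀ s, s * h' ≤ δ / 2 → ∀ t ∈ ball (0 : ℂ) s, Cv R' δ (B0 + t • (B - B0)) :=
    fun s hs t ht => (b.add (c.smul t)).mono le_rfl (by nlinarith [mem_ball_zero_iff.1 ht])
  have h1 := sch_line (f := fun t : ℂ => dd (G x z (B0 + t • (B - B0)) -
    lm l σ x (B0 + t • (B - B0))) y μ ν) (M := e * δ + ε) (k := δ / 2) c0 (by linarith)
    fun s hs => ⟨diff_dd (fun f hf => (F.hol x hx z _ _ _ isOpen_ball (q s hs) f hf).sub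
      (diff_lm _ _ _ f)) hy μ ν, fun t ht => F.bd x hx z _ _ (q s hs t ht) le_rfl y hy μ ν⟩
  have h2 := hp.lm hR hx c y hy μ ν
  simp only [one_smul, zero_smul, add_zero, add_sub_cancel, map_sub, RG.dd_sub] at h1 h2 ⊢
  refine le_trans (le_of_eq (congrArg norm (by abel))) ((norm_add_le_of_le h2 h1).trans_eq ?_)
  field_simp
  ring

variable [IsProbabilityMeasure ν] {N : St → ℝ} {ψ : St → Fld → ℂ}

/-- the push keeps the bound and widens the tube -/
theorem Tbw.push (F : Fam ν l R R' σ δ e ε G) (hp : PtC l r lam σ)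
    (hR : r / 3 + (R / LL l + 1) ≤ R') (hG : ∀ x, Measurable fun p : Fld × Z => G x p.2 p.1)
    (H : ∀ x ∈ box l, Tbw R ρ h (N x) (ψ x)) (δ0 : 0 < δ) (hδ : 4 * (ρ' + h') ≤ δ) (h0 : 0 ≤ h')
    (hρ : 2 * lam * ρ' + (e * ρ' + ε) ≤ ρ) (hh : (2 * lam + 4 * (e + ε / δ)) * h' < h) :
    Tbw R' ρ' h' (∑ x ∈ box l, N x) (push ν l G ψ) := by
  have i : ∀ {B}, InT R' ρ' h' B → ∀ x ∈ box l, ∀ z, InT R ρ _ (G x z B) := fun q x hx z =>
    (F.inT hp hR hx z q δ0 hδ).mono le_rfl hρ le_rfl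
  have b : ∀ {B}, InT R' ρ' h' B → ∀ z, ‖∑ x ∈ box l, ψ x (G x z B)‖ ≤ ∑ x ∈ box l, N x :=
    fun q z => norm_sum_le_of_le _ fun x hx => (H x hx).bd _ ((i q x hx z).mono le_rfl le_rfl hh.le)
  have m : Measurable fun p : Fld × Z => ∑ x ∈ box l, ψ x (G x p.2 p.1) :=
    Finset.measurable_fun_sum _ fun x hx => (H x hx).meas.comp (hG x)
  refine ⟨F.la hp hR (fun x hx => (H x hx).toLA) (by linarith) hρ, fun A B Ω o q =>
    hol_integral ν o (fun z => DifferentiableOn.fun_sum fun x hx => (H x hx).disc hh o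
      (F.hol x hx z A B Ω o fun t ht => (q t ht).cv.mono le_rfl (by linarith [(q t ht).ρ0]))
      fun t ht => i (q t ht) x hx z)
      (fun t _ => (m.comp measurable_prodMk_left).aestronglyMeasurable) fun t ht => b (q t ht),
    fun B q => (norm_integral_le_of_norm_le_const (μ := ν) (ae_of_all _ (b q))).trans_eq (by simp),
    (m.stronglyMeasurable.integral_prod_right' (ν := ν)).measurable⟩

/-- the linear part of the push -/
def lpush (l : ℕ) (σ : V →ₗ[ℝ] V) (ψ : St → Fld → ℂ) : Fld → ℂ :=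
  ∑ x ∈ box l, fun B => ψ x (lm l σ x B)

theorem Tbw.lpush (hp : PtC l r lam σ) (hf : ∀ x, Frg (shL x ∘ₗ mu l σ))
    (hR : r / 3 + (R / LL l + 1) ≤ R') (H : ∀ x ∈ box l, Tbw R ρ h (N x) (ψ x))
    (hρ : lam * ρ' ≤ ρ) (hh : lam * h' ≤ h) : Tbw R' ρ' h' (∑ x ∈ box l, N x) (lpush l σ ψ) :=
  Tbw.sum _ fun x hx => (H x hx).comp (hp.cm hR hx) (hf x) hρ hh

/-- the nonlinear part of the push is small -/
theorem Tbw.rest (F : Fam ν l R R' σ δ e ε G) (hp : PtC l r lam σ)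
    (hf : ∀ x, Frg (shL x ∘ₗ mu l σ))
    (hR : r / 3 + (R / LL l + 1) ≤ R') (hG : ∀ x, Measurable fun p : Fld × Z => G x p.2 p.1)
    (H : ∀ x ∈ box l, Tbw R ρ h (N x) (ψ x)) (δ0 : 0 < δ) (hδ : 4 * (ρ' + h') ≤ δ) (h0 : 0 ≤ h')
    (lam0 : 0 ≤ lam) (e0 : 0 ≤ e) (ε0 : 0 ≤ ε) (ρ0 : 0 ≤ ρ')
    (hρ : 2 * lam * ρ' + (e * ρ' + ε) ≤ ρ) (hh : (2 * lam + 4 * (e + ε / δ)) * h' ≤ h / 2)
    (he : e * (ρ' + h') + ε < h / 2) :
    Tbw R' ρ' h' (4 * (e * (ρ' + h') + ε) / h * ∑ x ∈ box l, N x)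
      (Q4.push ν l G ψ - Q4.lpush l σ ψ) := by
  have p1 : 0 ≤ e * (ρ' + h') := by positivity
  have p2 : 0 ≤ (e + ε / δ) * h' := by positivity
  have p3 : 0 ≤ lam * ρ' := by positivity
  have p4 : 0 ≤ lam * h' := by positivity
  have hρ' : lam * ρ' ≤ ρ := by nlinarith [mul_nonneg e0 ρ0]
  have P := Tbw.push F hp hR hG H δ0 hδ h0 hρ (by linarith)
  refine ⟨(P.sub (Tbw.lpush hp hf hR H hρ' (by linarith))).toLA,
    (P.sub (Tbw.lpush hp hf hR H hρ' (by linarith))).hol, fun B q => ?_,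
    (P.sub (Tbw.lpush hp hf hR H hρ' (by linarith))).meas⟩
  have m : Measurable fun z => ∑ x ∈ box l, ψ x (G x z B) :=
    Finset.measurable_fun_sum _ fun x hx => (H x hx).meas.comp ((hG x).comp measurable_prodMk_left)
  have b : ∀ z, ‖∑ x ∈ box l, ψ x (G x z B) - Q4.lpush l σ ψ B‖ ≤
      4 * (e * (ρ' + h') + ε) / h * ∑ x ∈ box l, N x := fun z => by
    rw [Q4.lpush, Finset.sum_apply, ← sum_sub_distrib, mul_sum]
    refine norm_sum_le_of_le _ fun x hx => ?_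
    have := (H x hx).lip (h1 := h / 2) (((hp.cm hR hx).inT q).mono le_rfl hρ' (by linarith))
      (F.bd x hx z B _ q.cv (by linarith)) (by linarith)
    refine this.trans_eq ?_
    have : 0 < h := by linarith
    field_simp
    ring
  have i : Integrable (fun z => ∑ x ∈ box l, ψ x (G x z B) - Q4.lpush l σ ψ B) ν :=
    .of_bound (m.sub_const _).aestronglyMeasurable _ (ae_of_all _ b)
  have e1 : (Q4.push ν l G ψ - Q4.lpush l σ ψ) B =
      ∫ z, (∑ x ∈ box l, ψ x (G x z B) - Q4.lpush l σ ψ B) ∂ν := by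
    rw [integral_sub ((i.add (integrable_const (Q4.lpush l σ ψ B))).congr
      (ae_of_all _ fun z => sub_add_cancel _ _)) (integrable_const _)]
    simp [Q4.push]
  rw [e1]
  exact (norm_integral_le_of_norm_le_const (μ := ν) (ae_of_all _ b)).trans_eq (by simp)

end Pool.Agent.Lib.MP_7f377f_mp.RG.Q4
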