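import Pool.Agent.Lib.MP_7f377f_mp.G.StV6
import Pool.Agent.Lib.MP_7f377f_mp.G.JuA

/-! Polynomial letters: invariant polynomials in the holonomies of loops at the origin. -/

noncomputable section

set_option linter.unusedSectionVars false
variable [Pool.Agent.Lib.MP_7f377f_mp.GD]

namespace Pool.Agent.Lib.MP_7f377f_mp.RG.Tl

open Finset MvPolynomial Wd Q4 Q4.En

attribute [local irreducible] box lbox

/-- polynomials in variables with values in the Lie algebra -/
abbrev Cp (κ : Type) : Type := MvPolynomial (κ × Fin GD.d) ℂ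

/-- the value of a polynomial -/
def vl {κ : Type} (ξ : κ → C3) (P : Cp κ) : ℂ := eval (fun p => ξ p.1 p.2) P

/-- invariant polynomials -/
def Iv {κ : Type} (P : Cp κ) : Prop := ∀ (g : S3) ξ, vl (fun i => adq (cS g) (ξ i)) P = vl ξ P

/-- real polynomials -/
def Rl {κ : Type} (P : Cp κ) : Prop := map (starRingEnd ℂ) P = P

/-- polynomials as functions -/
def pF {κ X : Type} (ξ : X → κ → C3) : Cp κ →ₐ[ℂ] X → ℂ := aeval fun p x => ξ x p.1 p.2

/-- formal letters -/
abbrev Pl : Type := Cp Lp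

/-- holonomies -/
def hv (U : Cf) (w : Lp) : C3 := co (wh star U 0 w.1)

/-- fluxes -/
def av (B : Fld) (w : Lp) : C3 := fx B 0 w.1

/-- the letter as a function of the gauge field -/
def pG : Pl →ₐ[ℂ] Conf → ℂ := pF fun U => hv (cC U)

/-- the letter in the chart -/
def px : Pl →ₐ[ℂ] Fld → ℂ := pF fun B => hv (exF (cg B))

/-- the abelian letter -/
def pa : Pl →ₐ[ℂ] Fld → ℂ := pF av

/-- the letter lives in the box of radius `R` -/
def Rd (R : ℕ) (P : Pl) : Prop := ∀ p ∈ P.vars, p.1.1.length ≤ R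

/-- the action of the lattice symmetries -/
def act (g : B4) : Pl →ₐ[ℂ] Pl := rename fun p => (p.1.act g, p.2)

/-- `O` is a local observable with the form `φ` in the chart; it vanishes to the order `n` and
`σ` is its leading part -/
structure Top (R n : ℕ) (δ C : ℝ) (O : Conf → ℂ) (φ σ : Fld → ℂ) : Prop where
  cont : Continuous O
  lt : Ltt R O φ
  bd : ∀ U, ‖O U‖ ≤ C
  loc : ∀ A B, (∀ x ∈ box R, ∀ μ ν, dd A x μ ν = dd B x μ ν) → φ A = φ B
  ad : ∀ (u : S3) B, φ (adF (fun _ => cS u) B) = φ B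
  meas : Measurable φ
  hol : ∀ Ω γ, Disc Ω γ → (∀ t ∈ Ω, Cv R δ (γ t)) → DifferentiableOn ℂ (fun t => φ (γ t)) Ω
  nr : ∀ B d, Cv R d B → d ≤ δ → ‖φ B‖ ≤ C * d ^ n ∧ ‖φ B - σ B‖ ≤ C * d ^ (n + 1)

variable {κ κ' X : Type} {P Q : Cp κ} {ξ ξ' : κ → C3} {R R' n : ℕ} {δ δ' C C' ρ h : ℝ}
  {O O' : Conf → ℂ} {φ φ' σ σ' : Fld → ℂ}

theorem pF_ap (ξ : X → κ → C3) (P : Cp κ) (x : X) : pF ξ P x = vl (ξ x) P := by
  induction P using MvPolynomial.induction_on with
  | C a => simp [pF, vl]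
  | add p q h h' => simp only [vl, map_add, Pi.add_apply] at h h' ⊢; rw [h, h']
  | mul_X p i h => simp only [vl, map_mul, Pi.mul_apply, eval_X] at h ⊢; rw [h]; simp [pF]

theorem pG_ap (P : Pl) (U : Conf) : pG P U = vl (hv (cC U)) P := pF_ap ..

theorem px_ap (P : Pl) (B : Fld) : px P B = vl (hv (exF (cg B))) P := pF_ap ..

theorem pa_ap (P : Pl) (B : Fld) : pa P B = vl (av B) P := pF_ap ..

theorem vl_add (ξ : κ → C3) (P Q : Cp κ) : vl ξ (P + Q) = vl ξ P + vl ξ Q := map_add ..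

theorem vl_mul (ξ : κ → C3) (P Q : Cp κ) : vl ξ (P * Q) = vl ξ P * vl ξ Q := map_mul ..

theorem vl_smul (ξ : κ → C3) (c : ℂ) (P : Cp κ) : vl ξ (c • P) = c * vl ξ P := smul_eval ..

theorem vl_sum {ι : Type} (ξ : κ → C3) (A : Finset ι) (P : ι → Cp κ) :
    vl ξ (∑ i ∈ A, P i) = ∑ i ∈ A, vl ξ (P i) := map_sum ..

theorem vl_X (ξ : κ → C3) (p : κ × Fin GD.d) : vl ξ (MvPolynomial.X p) = ξ p.1 p.2 := eval_X _

theorem vl_congr (h : ∀ p ∈ P.vars, ξ p.1 = ξ' p.1) : vl ξ P = vl ξ' P :=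
  eval₂Hom_congr' rfl (fun p hp _ => by rw [h p hp]) rfl

theorem vl_rename (f : κ → κ') (ξ : κ' → C3) (P : Cp κ) :
    vl ξ (rename (fun p => (f p.1, p.2)) P) = vl (fun i => ξ (f i)) P := eval_rename ..

theorem vl_star (ξ : κ → C3) (P : Cp κ) :
    vl (star ξ) (map (starRingEnd ℂ) P) = starRingEnd ℂ (vl ξ P) := by
  rw [vl, vl, eval_map, eval, coe_eval₂Hom, hom_eval₂]
  rfl

theorem Iv.add (h : Iv P) (h' : Iv Q) : Iv (P + Q) := fun g ξ => by simp only [vl_add, h g, h' g]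

theorem Iv.mul (h : Iv P) (h' : Iv Q) : Iv (P * Q) := fun g ξ => by simp only [vl_mul, h g, h' g]

theorem Iv.smul (h : Iv P) (c : ℂ) : Iv (c • P) := fun g ξ => by simp only [vl_smul, h g]

theorem Iv.sum {ι : Type} {A : Finset ι} {P : ι → Cp κ} (h : ∀ i ∈ A, Iv (P i)) :
    Iv (∑ i ∈ A, P i) := fun g ξ => by
  simp only [vl_sum]
  exact sum_congr rfl fun i hi => h i hi g ξ

theorem Iv.rename (h : Iv P) (f : κ → κ') : Iv (rename (fun p => (f p.1, p.2)) P) := fun g ξ => by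
  simp only [vl_rename, h g]

theorem adq_star (g : S3) (b : C3) : adq (cS g) (star b) = star (adq (cS g) b) := funext fun k => by
  simp [adq_cS_apply]

theorem Iv.conj (h : Iv P) : Iv (map (starRingEnd ℂ) P) := fun g ξ => by
  have e : (fun i => adq (cS g) (ξ i)) = star fun i => adq (cS g) (star ξ i) := funext fun i => by
    rw [Pi.star_apply, ← adq_star, Pi.star_apply, star_star]
  rw [e, vl_star, h g, ← vl_star, star_star]

theorem Rl.real (h : Rl P) (hξ : ∀ i k, (ξ i k).im = 0) : (vl ξ P).im = 0 := by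
  have e : star ξ = ξ := funext₂ fun i k => Complex.conj_eq_iff_im.2 (hξ i k)
  rw [← Complex.conj_eq_iff_im, ← vl_star, e, h]

/-! ### Estimates for homogeneous polynomials -/

theorem prod_near {ι : Type} {a b : ι → ℂ} {s η : ℝ} (s0 : 0 ≤ s) (η0 : 0 ≤ η) (m : Multiset ι)
    (h : ∀ i ∈ m, ‖a i‖ ≤ s ∧ ‖b i‖ ≤ s ∧ ‖a i - b i‖ ≤ s * η) :
    ‖(m.map a).prod‖ ≤ s ^ m.card ∧ ‖(m.map b).prod‖ ≤ s ^ m.card ∧
      ‖(m.map a).prod - (m.map b).prod‖ ≤ m.card * s ^ m.card * η := by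
  induction m using Multiset.induction_on with
  | empty => simp
  | cons i m ih =>
    obtain ⟨a1, a2, a3⟩ := ih fun j hj => h j (Multiset.mem_cons_of_mem hj)
    obtain ⟨b1, b2, b3⟩ := h i (Multiset.mem_cons_self _ _)
    simp only [Multiset.map_cons, Multiset.prod_cons, Multiset.card_cons, pow_succ', Nat.cast_succ]
    refine ⟨norm_mul_le_of_le b1 a1, norm_mul_le_of_le b2 a2, ?_⟩
    rw [show ∀ x y z w : ℂ, x * y - z * w = (x - z) * y + z * (y - w) from fun _ _ _ _ => by ring]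
    exact (norm_add_le_of_le (norm_mul_le_of_le b3 a1) (norm_mul_le_of_le b2 a3)).trans_eq
      (by ring)

theorem hom_near {ι : Type} {P : MvPolynomial ι ℂ} (hP : P.IsHomogeneous n) : ∃ C, 0 ≤ C ∧
    ∀ (a b : ι → ℂ) (s η : ℝ), 0 ≤ s → 0 ≤ η →
      (∀ i ∈ P.vars, ‖a i‖ ≤ s ∧ ‖b i‖ ≤ s ∧ ‖a i - b i‖ ≤ s * η) →
        ‖eval a P‖ ≤ C * s ^ n ∧ ‖eval a P - eval b P‖ ≤ C * s ^ n * η := by
  classical
  refine ⟨(∑ m ∈ P.support, ‖coeff m P‖) * (n + 1), by positivity, fun a b s η s0 η0 h => ?_⟩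
  have e : ∀ (a : ι → ℂ) (m : ι →₀ ℕ), ∏ i ∈ m.support, a i ^ m i = (m.toMultiset.map a).prod :=
    fun a m => by
      rw [prod_multiset_map_count, Finsupp.toFinset_toMultiset]
      simp only [Finsupp.count_toMultiset]
  have k : ∀ m ∈ P.support, _ := fun m hm => by
    have := prod_near s0 η0 m.toMultiset fun i hi => h i ((mem_vars i).2 ⟨m, hm, by simpa using hi⟩)
    rwa [Finsupp.card_toMultiset, show (m.sum fun _ => id) = n from ?_] at this
    rw [← hP (mem_support_iff.1 hm), Finsupp.weight_apply]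
    simp [Finsupp.sum]
  have p := pow_nonneg s0 n
  simp only [eval_eq, e, ← sum_sub_distrib, ← mul_sub, sum_mul]
  constructor <;> refine norm_sum_le_of_le _ fun m hm => ?_ <;> simp only [norm_mul, mul_assoc] <;>
    refine mul_le_mul_of_nonneg_left ?_ (norm_nonneg _)
  · nlinarith [(k m hm).1, mul_nonneg (Nat.cast_nonneg (α := ℝ) n) p]
  · nlinarith [(k m hm).2.2, mul_nonneg p η0]

/-! ### The class -/

namespace Top

theorem nonneg (H : Top R n δ C O φ σ) : 0 ≤ C := (norm_nonneg _).trans (H.bd 1)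

theorem mono (H : Top R n δ C O φ σ) (hR : R ≤ R') (hδ : δ' ≤ δ) (hC : C ≤ C') :
    Top R' n δ' C' O φ σ := by
  refine ⟨H.cont, ⟨H.lt.meas, fun U U' e => H.lt.loc U U' fun l hl => e l (lbox_mono hR hl),
    H.lt.gi, fun ε U a b => H.lt.chart ε U (a.mono (by omega) le_rfl) (le_trans ?_ b)⟩,
    fun U => (H.bd U).trans hC, fun A B e => H.loc A B fun x hx => e x (box_mono hR hx), H.ad,
    H.meas, fun Ω γ a b => H.hol Ω γ a fun t ht => (b t ht).mono hR hδ, fun B d a b => ?_⟩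
  · have := a.nonneg
    gcongr
  · have := a.nonneg
    have c := H.nr B d (a.mono hR le_rfl) (b.trans hδ)
    exact ⟨c.1.trans (by gcongr), c.2.trans (by gcongr)⟩

theorem add (H : Top R n δ C O φ σ) (H' : Top R n δ C' O' φ' σ') :
    Top R n δ (C + C') (O + O') (φ + φ') (σ + σ') :=
  ⟨H.cont.add H'.cont, H.lt.add H'.lt, fun U => norm_add_le_of_le (H.bd U) (H'.bd U),
    fun A B e => congrArg₂ (· + ·) (H.loc A B e) (H'.loc A B e),
    fun u B => congrArg₂ (· + ·) (H.ad u B) (H'.ad u B), H.meas.add H'.meas,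
    fun Ω γ a b => (H.hol Ω γ a b).add (H'.hol Ω γ a b), fun B d a b => by
      rw [add_mul, add_mul, Pi.add_apply, Pi.add_apply, add_sub_add_comm]
      exact ⟨norm_add_le_of_le (H.nr B d a b).1 (H'.nr B d a b).1,
        norm_add_le_of_le (H.nr B d a b).2 (H'.nr B d a b).2⟩⟩

theorem smul (H : Top R n δ C O φ σ) (c : ℂ) : Top R n δ (‖c‖ * C) (c • O) (c • φ) (c • σ) :=
  ⟨H.cont.const_smul c, H.lt.smul c, fun U => norm_mul_le_of_le le_rfl (H.bd U),
    fun A B e => congrArg (c • ·) (H.loc A B e), fun u B => congrArg (c • ·) (H.ad u B),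
    H.meas.const_smul c, fun Ω γ a b => (H.hol Ω γ a b).const_smul c, fun B d a b => by
      rw [mul_assoc, mul_assoc, Pi.smul_apply, Pi.smul_apply, ← smul_sub]
      exact ⟨norm_mul_le_of_le le_rfl (H.nr B d a b).1, norm_mul_le_of_le le_rfl (H.nr B d a b).2⟩⟩

/-- the letter is in the tube class -/
theorem tbw (H : Top R n δ C O φ σ) (e : ρ + h ≤ δ) : Tbw R ρ h (C * (ρ + h) ^ n) φ :=
  ⟨⟨fun A B _ _ _ => H.loc A B, fun u B _ _ _ => H.ad u B⟩, fun A B Ω _ q => H.hol Ω _
    (Ho.disc_line Ω A B) fun t ht => (q t ht).cv.mono le_rfl e, fun B q => (H.nr B _ q.cv e).1,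
    H.meas⟩

/-- common constants for a finite family -/
theorem unif {β : Type} [Finite β] {n : β → ℕ} {O : β → Conf → ℂ} {φ σ : β → Fld → ℂ}
    (H : ∀ b, ∃ R, ∃ δ > 0, ∃ C, Top R (n b) δ C (O b) (φ b) (σ b)) :
    ∃ R, ∃ δ > 0, ∃ C ≥ 1, ∀ b, Top R (n b) δ C (O b) (φ b) (σ b) := by
  choose R δ δ0 C H using H
  obtain ⟨R', hR⟩ := (Set.finite_range R).bddAbove
  obtain ⟨C', hC⟩ := (Set.finite_range C).bddAbove
  obtain ⟨D, hD⟩ := (Set.finite_range fun b => (δ b)⁻¹).bddAbove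
  refine ⟨R', (max D 1)⁻¹, by positivity, max C' 1, le_max_right _ _, fun b => (H b).mono
    (hR ⟨b, rfl⟩) (inv_le_of_inv_le₀ (δ0 b) (le_max_of_le_left (hD ⟨b, rfl⟩)))
    (le_max_of_le_left (hC ⟨b, rfl⟩))⟩

end Top

/-- the bilinear letters -/
theorem top_let {X : Let} (hX : Rad R X) : ∃ δ > 0, ∃ C, Top R 2 δ C (evG X) (lx X) (qd X) := by
  obtain ⟨C, δ, C0, h1, h2, h3, h⟩ := lx_near hX
  obtain ⟨M, hM⟩ := evG_bd X
  have M0 := (norm_nonneg _).trans (hM 1)
  refine ⟨δ, h1, 2 * C + M, evG_cont X, ltt_ev hX, fun U => (hM U).trans (by linarith),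
    fun A B => lx_loc hX, lx_ad, lx_meas X, fun Ω γ => lx_hol hX h3, fun B d a b => ?_⟩
  have d0 := a.nonneg
  have c := h B d a b
  have e := norm_add_le_of_le c.1 c.2
  rw [sub_add_cancel] at e
  have d3 : d ^ 3 ≤ d ^ 2 := pow_le_pow_of_le_one d0 (b.trans h2) (by norm_num)
  exact ⟨by nlinarith [sq_nonneg d], c.1.trans (by gcongr; linarith)⟩

/-! ### Polynomial letters -/

variable {P Q : Pl}

theorem Rd.mono (h : Rd R P) (e : R ≤ R') : Rd R' P := fun p hp => (h p hp).trans e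

theorem exists_rd (P : Pl) : ∃ R, Rd R P :=
  ⟨P.vars.sup fun p => p.1.1.length, fun _ hp => le_sup (f := fun p : Lp × _ => p.1.1.length) hp⟩

theorem hv_cC (U : Conf) (w : Lp) : hv (cC U) w = co (cS (wh Inv.inv U 0 w.1)) := by
  rw [hv, wh_cC]

theorem hv_agr (hP : Rd R P) {U U' : Cf} (h : Agr R U U') : vl (hv U) P = vl (hv U') P :=
  vl_congr fun p hp => congrArg co
    (wh_agr star h _ 0 0 (zero_mem_box 0) (by simpa using hP p hp))

theorem pG_agr (hP : Rd R P) {U U' : Conf} (h : Agr R U U') : pG P U = pG P U' := by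
  rw [pG_ap, pG_ap]
  exact hv_agr hP fun e he => congrArg cS (h e he)

theorem pG_gauge (hP : Iv P) (u : St → S3) (U : Conf) : pG P (gauge Inv.inv u U) = pG P U := by
  rw [pG_ap, pG_ap, ← hP (u 0) (hv (cC U))]
  congr 1
  funext w
  simp only [hv_cC, wh_gauge, w.2, add_zero, cS_mul, cS_inv, co_conj (uni_cS _)]

theorem cont_hv (w : Lp) : Continuous fun U : Conf => hv (cC U) w := by
  simp only [hv_cC]
  exact coL.continuous.comp (Ms.cont_cS.comp (cont_wh _ _))

theorem pG_cont (P : Pl) : Continuous (pG P) := by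
  induction P using MvPolynomial.induction_on with
  | C a => rw [algHom_C]; exact continuous_const
  | add p q h h' => rw [map_add]; exact h.add h'
  | mul_X p i h =>
    rw [map_mul]
    refine h.mul ?_
    simp only [pG, pF, aeval_X]
    exact (continuous_apply _).comp (cont_hv _)

theorem pG_act (g : B4) (P : Pl) (U : Conf) : pG (act g P) U = pG P (pb Inv.inv g U) := by
  rw [pG_ap, pG_ap, act, vl_rename (Lp.act g), cC_pb]
  congr 1
  funext w
  rw [hv, hv, wh_pb star_star, gv_zero]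
  rfl

theorem pa_act (g : B4) (P : Pl) (B : Fld) : pa (act g P) B = pa P (pb Neg.neg g B) := by
  rw [pa_ap, pa_ap, act, vl_rename (Lp.act g)]
  congr 1
  funext w
  rw [av, av, fx_pb, gv_zero]
  rfl

theorem act_mul (g h : B4) (P : Pl) : act (g * h) P = act g (act h P) := by
  simp only [act, rename_rename]
  congr 2
  funext p
  simp only [Function.comp, Lp.act, List.map_map]
  rfl

theorem act_one (P : Pl) : act 1 P = P := by
  rw [act, show (fun p : Lp × Fin GD.d => (p.1.act 1, p.2)) = id from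
    funext fun p => by simp [Lp.act], rename_id]
  rfl

theorem Iv.act (h : Iv P) (g : B4) : Iv (act g P) := h.rename (Lp.act g)

theorem Rl.act (h : Rl P) (g : B4) : Rl (act g P) := by
  rw [Rl, Tl.act, map_rename, h]

theorem Rd.act (h : Rd R P) (g : B4) : Rd R (act g P) := fun p hp => by
  classical
  obtain ⟨q, hq, rfl⟩ := mem_image.1 (vars_rename _ _ hp)
  simpa [Lp.act] using h q hq

theorem hom_act (h : P.IsHomogeneous n) (g : B4) : (act g P).IsHomogeneous n := h.rename_isHomogeneous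

theorem hv_real (U : Conf) (w : Lp) (k : Fin GD.d) : (hv (cC U) w k).im = 0 := by
  rw [hv_cC, cS, co_real]

theorem pG_conj (P : Pl) (U : Conf) : pG (map (starRingEnd ℂ) P) U = starRingEnd ℂ (pG P U) := by
  rw [pG_ap, pG_ap, ← vl_star]
  exact congrArg (vl · _) (funext₂ fun w k => (Complex.conj_eq_iff_im.2 (hv_real U w k)).symm)

theorem pG_real (h : Rl P) (U : Conf) : (pG P U).im = 0 := pG_ap P U ▸ h.real (hv_real U)

theorem px_real (h : Rl P) {B : Fld} (hB : RealF B) : (px P B).im = 0 := by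
  have h2 : ∀ e, ∃ g : S3, cS g = ex (cg B e) := fun e => ex_real' fun k => by
    simp [cg, gr, lam, pr, hB _ k]
  choose U hU using h2
  rw [px_ap, show exF (cg B) = cC U from funext fun e => (hU e).symm]
  exact h.real (hv_real U)

theorem px_chart (hI : Iv P) (hP : Rd R P) {ε : ℝ} {U : Conf}
    (h : ∀ y ∈ box R, ∀ μ ν, fq U y μ ν ≤ ε) (h1 : 6 * R * ε ≤ 1) :
    px P (Bx 0 (cC U)) = pG P U := by
  rw [px_ap, cg_Bx, ← hv_agr hP (Bx_loc h h1).2, ← pG_ap, pG_gauge hI]

theorem px_meas (P : Pl) : Measurable (px P) := by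
  have h1 : ∀ e, Measurable fun B : Fld => cg B e := fun e => by
    simp only [cg, gr, lam, pr, Pi.sub_apply]
    fun_prop
  have h2 : ∀ e, MQ fun B : Fld => exF (cg B) e := fun e => mq_ex (h1 e)
  have h3 : ∀ w x, MQ fun B : Fld => wh star (exF (cg B)) x w := fun w => by
    induction w with
    | nil => exact fun _ => mq_const 1
    | cons d w ih =>
      refine fun x => MQ.mul ?_ (ih _)
      unfold Wd.stp
      split_ifs
      exacts [h2 _, (h2 _).star]
  induction P using MvPolynomial.induction_on with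
  | C a => rw [algHom_C]; exact measurable_const
  | add p q h h' => rw [map_add]; exact h.add h'
  | mul_X p i h =>
    rw [map_mul]
    refine h.mul ?_
    simp only [px, pF, aeval_X]
    exact (measurable_pi_apply _).comp (h3 _ _).co

theorem px_ad (hI : Iv P) (u : S3) (B : Fld) : px P (adF (fun _ => cS u) B) = px P B := by
  have h2 : cg (adF (fun _ => cS u) B) = adF (fun _ => cS u) (cg B) :=
    cg_map (adL (cS u)).toAddMonoidHom B
  have e : ∀ q : Hc, star (cS u) * (cS u * q) = q := fun q => by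
    rw [← mul_assoc, (uni_cS u).star_mul, one_mul]
  have h3 : ∀ w x, wh star (exF (adF (fun _ => cS u) (cg B))) x w =
      cS u * wh star (exF (cg B)) x w * star (cS u) := fun w => by
    induction w with
    | nil => exact fun _ => by simp [wh, (uni_cS u).mul_star]
    | cons d w ih =>
      intro x
      rw [wh, wh, ih]
      unfold Wd.stp
      split_ifs <;> simp only [exF, adF, ex_adq (uni_cS u), star_mul, star_star, mul_assoc, e]
  rw [px_ap, px_ap, ← hI u (hv (exF (cg B))), h2]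
  exact congrArg (vl · P) (funext fun w => by rw [hv, hv, h3, co_conj (uni_cS u)])

theorem px_hol (hP : Rd R P) (hδ : 3 * R * δ ≤ 1 / 100) {Ω : Set ℂ} {γ : ℂ → Fld}
    (hγ : Disc Ω γ) (hc : ∀ t ∈ Ω, Cv R δ (γ t)) : DifferentiableOn ℂ (fun t => px P (γ t)) Ω := by
  have h2 : ∀ e ∈ lbox R, DifferentiableOn ℂ (fun t => exF (cg (γ t)) e) Ω := fun e he =>
    diff_ex (hγ.cg e) fun t ht => (Sm_cg (hc t ht) e he).trans (by linarith)
  have h3 : ∀ (w : List Dr) r, ∀ x ∈ box r, r + w.length ≤ R →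
      DifferentiableOn ℂ (fun t => wh star (exF (cg (γ t))) x w) Ω := fun w => by
    induction w with
    | nil => exact fun _ _ _ _ => differentiableOn_const 1
    | cons d w ih =>
      intro r x hx h1
      rw [List.length_cons] at h1
      refine DifferentiableOn.mul ?_ (ih (r + 1) _ (add_mem_box hx (dv_box d)) (by omega))
      have := add_mem_box hx (dv_box (d.1, false))
      unfold Wd.stp
      split_ifs
      · exact h2 _ (mem_lbox.2 (box_mono (by omega) hx))
      · exact stL.differentiable.comp_differentiableOn (h2 (x - un d.1, d.1) (mem_lbox.2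
          (box_mono (r := r + 1) (by omega) (by simpa [dv, sub_eq_add_neg] using this))))
  simp only [px_ap, vl, eval_eq]
  refine .fun_sum fun m hm => .const_mul (.fun_finset_prod fun i hi => .pow ?_ _) _
  exact differentiableOn_pi.1 (coL.differentiable.comp_differentiableOn (h3 _ 0 0 (zero_mem_box 0)
    (by simpa using hP i ((mem_vars i).2 ⟨m, hm, hi⟩)))) i.2

theorem hv_near {B : Fld} {d : ℝ} (hB : Cv R d B) (hd : d * (300 * (R + 1) ^ 2) ≤ 1) {w : Lp}
    (h1 : w.1.length ≤ R) : ‖hv (exF (cg B)) w - av B w‖ ≤ 240 * ((R + 1) ^ 2 * d) ^ 2 ∧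
      ‖av B w‖ ≤ 3 * ((R + 1) ^ 2 * d) := by
  have R0 : (0 : ℝ) ≤ R := Nat.cast_nonneg R
  have d0 := hB.nonneg
  obtain ⟨t, ht⟩ : ∃ t : ℝ, t = (R + 1) ^ 2 * d := ⟨_, rfl⟩
  have t0 : 0 ≤ t := by rw [ht]; positivity
  have t1 : 300 * t ≤ 1 := by rw [ht]; linarith
  have t2 : R * (R * d) ≤ t := by rw [ht]; nlinarith
  have t3 : R * d ≤ t := by rw [ht]; nlinarith
  have ap := Ap_exF (Sm_cg hB) (by linarith)
  obtain ⟨a1, a2⟩ := nr_wh (fun e he => ⟨ap.nr (by nlinarith [mul_nonneg R0 d0]) e he,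
    (ap e he).1⟩) w.1 0 0 (zero_mem_box 0) (by omega)
  rw [fx_cg] at a1 a2
  have l1 : (w.1.length : ℝ) ≤ R := by exact_mod_cast h1
  have l0 : (0 : ℝ) ≤ w.1.length := Nat.cast_nonneg _
  have m : w.1.length * (R * d) ≤ t := (mul_le_mul_of_nonneg_right l1 (by positivity)).trans t2
  have m0 : 0 ≤ w.1.length * (R * d) := by positivity
  have e := norm_co (wh star (exF (cg B)) 0 w.1 - 1 - io (fx B 0 w.1))
  rw [co_sub, co_sub, co_one, co_io, sub_zero] at e
  rw [← ht]
  refine ⟨e.trans ((a1.le (by positivity) (by linarith)).2.trans ?_), a2.trans (by linarith)⟩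
  nlinarith [mul_le_mul m t3 (by positivity) t0, mul_le_mul m m m0 t0]

/-- invariant homogeneous polynomials are in the class -/
theorem top_pl (hI : Iv P) (hP : Rd R P) (hn : P.IsHomogeneous n) :
    ∃ δ > 0, ∃ C, Top R n δ C (pG P) (px P) (pa P) := by
  have R0 : (0 : ℝ) ≤ R := Nat.cast_nonneg R
  obtain ⟨C, C0, hC⟩ := hom_near hn
  obtain ⟨M, hM⟩ := isCompact_univ.exists_bound_of_continuousOn (pG_cont P).continuousOn
  have M0 := (norm_nonneg _).trans (hM 1 trivial)
  obtain ⟨K, hK⟩ : ∃ K : ℝ, K = (R + 1) ^ 2 := ⟨_, rfl⟩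
  have K1 : 1 ≤ K := by rw [hK]; nlinarith
  have p : 0 ≤ C * (4 * K) ^ n := by positivity
  refine ⟨1 / (300 * K), by positivity, M + C * (4 * K) ^ n * (60 * K), pG_cont P,
    ⟨(pG_cont P).measurable, fun U U' => pG_agr hP, pG_gauge hI, fun ε U a b => ?_⟩,
    fun U => (hM U trivial).trans (le_add_of_nonneg_right (by positivity)), fun A B e => ?_,
    px_ad hI, px_meas P, fun Ω γ => px_hol hP ?_, fun B d a b => ?_⟩
  · have d1 : (R + 1 : ℝ) ≤ (R + 1) ^ 4 := le_self_pow₀ (by linarith) (by norm_num)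
    rw [px_chart hI hP (fun y hy => a y (box_mono R.le_succ hy)) (by nlinarith [a.nonneg])]
  · rw [px_ap, px_ap]
    exact hv_agr hP fun l hl => congrArg ex (JT.cg_loc e l hl)
  · rw [mul_one_div, div_le_iff₀ (by positivity)]
    nlinarith
  · have d0 := a.nonneg
    rw [le_div_iff₀ (by positivity)] at b
    have t0 : 0 ≤ K * d := by positivity
    obtain ⟨c1, c2⟩ := hC (fun p => hv (exF (cg B)) p.1 p.2) (fun p => av B p.1 p.2) (4 * (K * d))
      (60 * (K * d)) (by positivity) (by positivity) fun p hp => by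
        obtain ⟨e1, e2⟩ := hv_near a (hK ▸ b) (hP p hp)
        rw [← hK] at e1 e2
        have e3 := norm_add_le_of_le e1 e2
        rw [sub_add_cancel] at e3
        exact ⟨(norm_c3_le _ _).trans (by nlinarith), (norm_c3_le _ _).trans (by linarith),
          (norm_c3_le (_ - _) _).trans (by nlinarith)⟩
    rw [px_ap, pa_ap, pow_succ]
    rw [← mul_assoc 4, mul_pow, ← mul_assoc C] at c1 c2
    have q := pow_nonneg d0 n
    have q1 := mul_nonneg p q
    exact ⟨c1.trans (by linarith [mul_nonneg M0 q, mul_le_mul_of_nonneg_left K1 q1]),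
      c2.trans (by linarith [mul_nonneg M0 (mul_nonneg q d0)])⟩

end Pool.Agent.Lib.MP_7f377f_mp.RG.Tl
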