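import Pool.Agent.Lib.MP_7f377f_mp.G.JuG
import Pool.Agent.Lib.MP_7f377f_mp.G.JuH
import Pool.Agent.Lib.MP_7f377f_mp.G.JuT1
import Pool.Agent.Lib.MP_7f377f_mp.G.JuK4

/-! Lattice letters along a track: tagged top states, frames, the cocycle of a frame. -/

noncomputable section

set_option linter.unusedSectionVars false
variable [Pool.Agent.Lib.MP_7f377f_mp.GD]

namespace Pool.Agent.Lib.MP_7f377f_mp.RG.Q4.En

open Finset Real Cok Filter Tl MvPolynomial Ju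
open scoped Classical

/-- lattice letters with their form in the chart -/
abbrev Lq : Type := (Conf → ℂ) × (Fld → ℂ)

/-- the indicator of the site `c` of the torus -/
def dt (n : ℕ) (c : St) : St → ℂ := fun x => if nearT n 0 c x then 1 else 0

variable {α β : Type} [Fintype α] [DecidableEq α] [Fintype β]

/-- the letter `X` has the degree `n` and the symbol `e` on the slow fields `p` -/
def Lsy (p : (α → ℝ) →ₗ[ℝ] V) (R n : ℕ) (δ C : ℝ) (X : Lq) (e : Cp α) : Prop :=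
  1 ≤ n ∧ e.IsHomogeneous n ∧
    ∃ σ, Top R n δ C X.1 X.2 σ ∧ ∀ c, σ (emF p c) = eval c e

/-- a frame of letters: the symbols are a basis of the invariant symbols of weight at most `d` -/
structure Fra (w : α → ℕ) (d : ℕ) (p : (α → ℝ) →ₗ[ℝ] V) (R : ℕ) (δ C : ℝ) (n : β → ℕ) (X : β → Lq)
    (e : β → Cp α) : Prop where
  δ0 : 0 < δ
  C0 : 0 < C
  top : ∀ b, Lsy p R (n b) δ C (X b) (e b) ∧ n b ≤ d
  li : LinearIndependent ℂ fun b => Sy.mk (wC w) d (e b)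
  sp : Submodule.span ℂ (Set.range fun b => Sy.mk (wC w) d (e b)) = W0 w d

namespace Gl

variable (G : Gl)

/-- the source of the letter `X` at the site `c` -/
def jx (J : ℕ) (c : St) (X : Lq) : Sx := lS X.1 X.2 (dt (G.N J) c)

/-- the direction of the letter `X` at the level `k` -/
def jv (b : ℝ) (J : ℕ) (c : St) (X : Lq) (k : ℕ) : Lx × Ac := G.tn b J (G.xv b J (G.jx J c X)) J k

/-- the tagged state of the letter `X` at the top -/
def tp (D : ℕ) (b : ℝ) (J : ℕ) (c : St) : Lq →ₗ[ℂ] Jv where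
  toFun X := (0, 0, opT (G.lR J) (60 * (G.p J).ρ) (2 * G.lH D J) X.2, (G.xv b J (G.jx J c X)).2)
  map_add' X Y := by
    have e : G.jx J c (X + Y) = G.jx J c X + G.jx J c Y := by
      ext <;> simp [jx, lS, mul_add]
    refine Prod.ext (by simp) (Prod.ext (by simp) (Prod.ext (funext fun B => ?_) ?_))
    · simp only [Prod.snd_add, Prod.fst_add, Pi.add_apply, opT]
      split_ifs <;> simp
    · simp only [e, xv, xS_add, Prod.snd_add]
  map_smul' t X := by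
    have e : G.jx J c (t • X) = t • G.jx J c X := by
      ext <;> simp [jx, lS, mul_left_comm]
    refine Prod.ext (by simp) (Prod.ext (by simp) (Prod.ext (funext fun B => ?_) ?_))
    · simp only [Prod.smul_snd, Prod.smul_fst, Pi.smul_apply, opT, RingHom.id_apply]
      split_ifs <;> simp
    · simp only [e, xv, xS_smul, Prod.smul_snd, RingHom.id_apply]

/-- the tagged state of the letter `X` at the level `k` -/
def ls (D : ℕ) (c : ℕ → St) (b : ℝ) (J : ℕ) (X : Lq) (k : ℕ) : Jv :=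
  G.jF D c b J (G.tp D b J (c J) X) J k

/-- the unit of the sizes -/
def Zu (d C k : ℕ) : ℝ := G.Xr C k ^ (20 * d + 13)

/-- the loss of one step -/
def Yr (d C k : ℕ) : ℝ := G.Xr C k ^ (60 * d + 40)

/-- the letter of a frame with the coefficients `t` -/
def fl (D C J : ℕ) (n : β → ℕ) (X : β → Lq) : (β → ℂ) →ₗ[ℂ] Lq :=
  Fintype.linearCombination ℂ fun b => ((G.ka D C J : ℂ) ^ n b)⁻¹ • X b

/-- the top level is fine enough for letters of range `R` -/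
def Tj (D R : ℕ) (δ : ℝ) (J : ℕ) : Prop :=
  R ≤ G.lR J ∧ 4 * G.lH D J ≤ δ ∧ G.jW D J * √(G.g J) ≤ 1 ∧ D + 2 ≤ G.rn J

/-- a track with its linear data -/
structure Tk (w : α → ℕ) (d D C : ℕ) (M : ℝ) (c : ℕ → St) (b : ℝ) (J j : ℕ) (ω : ℕ → ℝ)
    (p : ℕ → (α → ℝ) →ₗ[ℝ] V) (l : ℕ → V →ₗ[ℝ] α → ℝ) (U U' : ℕ → Module.End ℝ (α → ℝ)) :
    Prop where
  ok : G.Ok
  hp : G.HP Sd.StA
  t : G.Tu1 b J
  R : G.Run b J j ω
  e : ∀ i ≥ j, G.Ev D i ∧ G.Ew d D C i ∧ 200 * M * G.Yr d C i ^ 2 ≤ G.L i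
  tr : G.Trk c j J
  hj : j < J
  hw : ∀ a, w a ≠ 0
  hd : d ≤ D + 1
  M1 : 1 ≤ M
  ld : G.Ld w d D C c b J j p l U U'

/-- the symbol of a tagged state -/
def zq (w : α → ℕ) (d D C J j : ℕ) (p : ℕ → (α → ℝ) →ₗ[ℝ] V) (k : ℕ) (u : Jv) : SyC w d :=
  G.js w d D C J j p k u.2.2.1

/-- the size of the rest -/
def zP (w : α → ℕ) (d D C : ℕ) (c : ℕ → St) (J j : ℕ) (p : ℕ → (α → ℝ) →ₗ[ℝ] V)
    (l : ℕ → V →ₗ[ℝ] α → ℝ) (U : ℕ → Module.End ℝ (α → ℝ)) (k : ℕ) (u : Jv) (y : ℝ) : Prop :=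
  G.jP D c (G.js w d D C J j p) (G.je w d D C J j l U) k u (G.Zu d C k * y)

variable {G} {w : α → ℕ} {b M δ K x y : ℝ} {d D C J j k i R m : ℕ} {c : ℕ → St} {ω : ℕ → ℝ}
  {p : ℕ → (α → ℝ) →ₗ[ℝ] V} {l : ℕ → V →ₗ[ℝ] α → ℝ} {U U' : ℕ → Module.End ℝ (α → ℝ)}
  {p₀ : (α → ℝ) →ₗ[ℝ] V} {n : β → ℕ} {X : β → Lq} {e : β → Cp α} {Y : Lq} {σ : Fld → ℂ} {u : Jv}

theorem st_ls (t : β → ℂ) (k : ℕ) :
    st (G.jT D c b J) (fun a => ((G.ka D C J : ℂ) ^ n a)⁻¹ • G.tp D b J (c J) (X a)) J k t =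
      G.ls D c b J (G.fl D C J n X t) k := by
  simp only [st, ls, fl, Fintype.linearCombination_apply, map_sum, map_smul]

theorem Tj.mono {δ' : ℝ} (H : G.Tj D R δ J) (e : δ ≤ δ') : G.Tj D R δ' J :=
  ⟨H.1, H.2.1.trans e, H.2.2⟩

theorem top_zero {O : Conf → ℂ} {φ : Fld → ℂ} (H : Top R m δ K O φ σ) (δ0 : 0 ≤ δ) (m1 : 1 ≤ m) :
    φ 0 = 0 := by
  simpa [zero_pow (by omega : m ≠ 0)] using (H.nr 0 0 (Ho.cv_zero R le_rfl) δ0).1

namespace Ok

variable (h : G.Ok)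
include h

theorem lH0 (D k : ℕ) : 0 < G.lH D k := (h.ρ60 k).trans_le (h.ρH D k)

theorem lR_le (k : ℕ) : G.lR k ≤ (G.p k).R := h.ag_R 0 0 k ▸ (h.ag_ok 0 0 k).R _

theorem lH_ka (e : G.Ew d D C k) : 4 * G.lH D k ≤ G.Xr C k ^ 2 * G.ka D C k := by
  have g := GD.cG_pos
  have x := h.Xr1 C k
  have l := h.lH0 D k
  rw [ka, ← mul_div_assoc, le_div_iff₀ (by positivity)]
  nlinarith [mul_le_mul_of_nonneg_right e.1 (mul_pos (by linarith : 0 < G.Xr C k) l).le,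
    mul_pos g (mul_pos (by linarith : 0 < G.Xr C k) l)]

/-- the cut of the chart form -/
theorem top_cut {O : Conf → ℂ} {φ : Fld → ℂ} (J1 : G.Tj D R δ J) (H : Top R m δ K O φ σ) :
    Tbw (G.lR J) (60 * (G.p J).ρ) (3 * G.lH D J) (K * (4 * G.lH D J) ^ m) φ := by
  have a := h.ρH D J
  have b := h.ρ60 J
  have := H.nonneg
  exact (H.tbw (by linarith [J1.2.1])).mono J1.1 le_rfl le_rfl
    (mul_le_mul_of_nonneg_left (pow_le_pow_left₀ (by linarith) (by linarith) m) this)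

theorem tj_ev (D R : ℕ) (δ0 : 0 < δ) : ∀ᶠ J in atTop, G.Tj D R δ J := by
  obtain ⟨k0, e⟩ := h.ev_ev D
  have t : Tendsto (fun k => (G.L k : ℝ)) atTop atTop := tendsto_atTop_mono' _
    ((h.XrL 1 1).mono fun k a => by simpa [Xr] using a) h.rnt
  filter_upwards [eventually_ge_atTop k0, h.rnt.eventually_ge_atTop (3 * R),
    t.eventually_ge_atTop (8 / δ), h.rnt.eventually_ge_atTop (D + 2)] with J a1 a2 a3 a4
  have L1 := h.L1 J
  have g0 := h.g0 J
  have s : ∀ i, i + 1 ≤ (D + 8) * (G.aA D + G.aB + 4) → √(G.g J) * (G.L J : ℝ) ^ i ≤ 2 / G.L J :=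
    fun i hi => by
      have := h.sgL (e J a1) hi
      have q : √(G.g J) ≤ 2 * √(G.g (J + 1)) := sqrt_le_iff.2 ⟨by positivity, by
        rw [mul_pow, sq_sqrt (h.g0 _).le]; linarith [h.g2 J, h.g0 (J + 1)]⟩
      rw [le_div_iff₀ (by linarith), mul_assoc, ← pow_succ]
      nlinarith [pow_pos (show (0 : ℝ) < G.L J by linarith) (i + 1)]
  refine ⟨?_, ?_, ?_, by exact_mod_cast a4⟩
  · have : 3 * R ≤ G.rn J := by exact_mod_cast a2
    unfold lR; omega
  · have a := s (G.aA D + 1 - 7 * G.K) (by nlinarith [Nat.sub_le (G.aA D + 1) (7 * G.K)])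
    have q : G.g J ≤ √(G.g J) := le_sqrt_of_sq_le (by nlinarith [h.g1 J])
    rw [div_le_iff₀ δ0] at a3
    rw [le_div_iff₀ (by linarith)] at a
    rw [h.lHe]
    have := mul_le_mul_of_nonneg_right q (show (0 : ℝ) ≤ (G.L J : ℝ) ^ (G.aA D + 1 - 7 * G.K) * G.L J
      by positivity)
    exact le_of_mul_le_mul_right (a := (G.L J : ℝ)) (by nlinarith) (by linarith)
  · rw [mul_comm]
    exact (s _ (by nlinarith)).trans ((div_le_one (by linarith)).2 (by linarith))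

theorem yr_ev (d C m : ℕ) (M : ℝ) (C1 : C ≠ 0) : ∀ᶠ k in atTop, M * G.Yr d C k ^ m ≤ G.L k := by
  filter_upwards [h.XrL C ((60 * d + 40) * m + 1),
    ((tendsto_pow_atTop C1).comp h.rnt).eventually_ge_atTop M] with k a1 a2
  rw [pow_succ', pow_mul] at a1
  exact (mul_le_mul_of_nonneg_right a2 (by have := h.Xr1 C k; unfold Yr; positivity)).trans a1

theorem rt_prod (hk : k ≤ i) : ∏ n ∈ Ico k i, (G.L n : ℝ) = G.rt i k := by
  induction hk using Nat.decreasingInduction with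
  | self => simp [rt_top]
  | of_succ k hk e => rw [prod_eq_prod_Ico_succ_bot hk, e, h.rt_step hk, Nat.cast_mul]

/-- the losses are smaller than any power of the scale -/
theorem prod_le {y : ℕ → ℝ} (hk : k ≤ i) (y0 : ∀ n, 0 ≤ y n) (e : ∀ n ≥ k, y n ^ m ≤ G.L n) :
    (∏ n ∈ Ico k i, y n) ^ m ≤ G.rt i k := by
  rw [← prod_pow, ← h.rt_prod hk]
  exact prod_le_prod (fun n _ => pow_nonneg (y0 n) _) fun n hn => e n (mem_Ico.1 hn).1

theorem ks_top (s : St) (Y : Lq) (r : ℕ) : KS (G.N J) s r (G.xv b J (G.jx J s Y)).2 := by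
  intro Z a e
  funext U
  have : ∀ t : ℂ, xK (G.p J) (G.N J) b (t • G.jx J s Y) Z a = xK (G.p J) (G.N J) b 0 Z a :=
    fun t => xK_loc (h.N_odd J) (fun y hy _ => by
      simp [jx, lS, dt, if_neg fun q : nearT (G.N J) 0 s y => e y hy (q.mono r.zero_le)]) a
  simp [xv, xS, dA, this]

end Ok

namespace Tk

variable (T : G.Tk w d D C M c b J j ω p l U U')
include T

theorem pt : G.Pt D c b J j ω (W0 w d) (G.js w d D C J j p) (G.je w d D C J j l U)
    (G.jA w d D C U') (G.Ga d C) (fun k => G.Ga d C k * (G.L k : ℝ) ^ d)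
    (fun k => G.Ga d C k / (G.L k : ℝ) ^ (d + 1)) (G.eD D) :=
  ⟨T.ok, T.hp, T.t, T.R, fun i hi => (T.e i hi).1, T.tr,
    T.ok.cal T.t T.tr T.hw T.hd (fun i hi => (T.e i hi).2.1) T.ld T.hj⟩

/-- the cocycle -/
theorem co : Co j J (G.zP w d D C c J j p l U) (G.zq w d D C J j p) (G.jT D c b J)
    (G.jA w d D C U') (W0 w d) (fun k => G.Yr d C k * (G.L k : ℝ) ^ d)
    (fun k => G.Yr d C k / (G.L k : ℝ) ^ (d + 1)) fun k => G.Yr d C k / (G.L k : ℝ) ^ (D + 2) := by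
  have x := fun k => T.ok.Xr1 C k
  have y : ∀ k, 0 ≤ G.Yr d C k := fun k => pow_nonneg (by linarith [x k]) _
  refine (T.pt.co.resc (w := G.Zu d C) fun k => one_le_pow₀ (x k)).up
    (fun k => ⟨by have := y k; positivity, by have := y k; positivity, by have := y k; positivity⟩)
    fun k h1 h2 => ?_
  have x1 := x k
  have x2 := x (k + 1)
  have x3 : 100 ≤ G.Xr C k := by linarith [(T.e k h1).2.1.1, GD.cG1]
  have L1 := T.ok.L1 k
  have pw : ∀ {i j : ℕ}, i ≤ j → G.Xr C k ^ i ≤ G.Xr C k ^ j := pow_le_pow_right₀ x1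
  have up : ∀ i, G.Xr C (k + 1) ^ i ≤ G.Xr C k ^ (2 * i) := fun i => by
    rw [pow_mul]; gcongr; exact T.ok.Xr2 C k
  have p2 : ∀ {i}, i < 60 * d + 40 → G.Xr C k ^ i + G.Xr C k ^ i ≤ G.Yr d C k := fun {i} hi =>
    le_trans (by rw [pow_succ]; nlinarith [pow_pos (show 0 < G.Xr C k by linarith) i]) (pw hi)
  have e1 : G.eD D k ≤ 1 / (G.L k : ℝ) ^ (d + 1) := by
    rw [eD, ← one_div]
    exact one_div_le_one_div_of_le (by positivity)
      (pow_le_pow_right₀ (by linarith) (by linarith [T.hd]))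
  refine ⟨by gcongr; exact pw (by omega), ?_, ?_⟩
  · rw [div_le_iff₀ (by unfold Zu; positivity)]
    calc _ ≤ (G.Xr C k ^ (2 * (9 * d + 6)) * (G.Xr C k ^ (9 * d + 6) / (G.L k : ℝ) ^ (d + 1)) +
          1 / (G.L k : ℝ) ^ (d + 1)) * G.Xr C k ^ (2 * (20 * d + 13)) := by
          unfold Ga Zu
          gcongr
          exacts [up _, up _]
      _ = (G.Xr C k ^ (47 * d + 31) + G.Xr C k ^ (20 * d + 13)) / (G.L k : ℝ) ^ (d + 1) *
          G.Zu d C k := by unfold Zu; ring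
      _ ≤ _ := by
          gcongr
          · unfold Zu; positivity
          · exact (add_le_add le_rfl (pw (by omega))).trans (p2 (by omega))
  · calc _ ≤ (G.Xr C k ^ (2 * (9 * d + 6)) * G.eD D k + G.eD D k) *
          G.Xr C k ^ (2 * (20 * d + 13)) := by
          unfold Ga Zu eD
          gcongr
          exacts [up _, up _]
      _ = (G.Xr C k ^ (58 * d + 38) + G.Xr C k ^ (40 * d + 26)) / (G.L k : ℝ) ^ (D + 2) := by
          unfold eD; ring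
      _ ≤ _ := by
          gcongr
          exact (add_le_add le_rfl (pw (by omega))).trans (p2 (by omega))

/-- the linear step on symbols is bounded -/
theorem jA_le (h1 : j ≤ k) (h2 : k < J) (x : SyC w d) :
    ‖G.jA w d D C U' k x‖ ≤ G.Yr d C k * ‖x‖ := by
  refine (T.ok.jA_le T.t T.tr T.hw T.hd (fun i hi => (T.e i hi).2.1) T.ld h1 h2 x).trans ?_
  gcongr
  exact le_self_pow₀ (T.ok.Xr1 C k) (by omega)

theorem num (h1 : j ≤ k) :
    8 * (G.Yr d C k * (G.L k : ℝ) ^ d * (G.Yr d C k / (G.L k : ℝ) ^ (d + 1))) ≤ 1 ∧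
      200 * M * (G.Yr d C k * (G.L k : ℝ) ^ d * (G.Yr d C k / (G.L k : ℝ) ^ (D + 2))) ≤ 1 := by
  have L1 := T.ok.L1 k
  have e := (T.e k h1).2.2
  have M1 := T.M1
  have y := sq_nonneg (G.Yr d C k)
  have a : G.Yr d C k * (G.L k : ℝ) ^ d * (G.Yr d C k / (G.L k : ℝ) ^ (d + 1)) =
      G.Yr d C k ^ 2 / G.L k := by field_simp; ring
  have a' : G.Yr d C k * (G.L k : ℝ) ^ d * (G.Yr d C k / (G.L k : ℝ) ^ (D + 2)) ≤
      G.Yr d C k ^ 2 / G.L k := by
    have y0 : 0 ≤ G.Yr d C k := pow_nonneg (by linarith [T.ok.Xr1 C k]) _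
    rw [← a]
    exact mul_le_mul_of_nonneg_left (div_le_div_of_nonneg_left y0 (by positivity)
      (pow_le_pow_right₀ (by linarith) (by linarith [T.hd]))) (by positivity)
  have b : 200 * M * (G.Yr d C k ^ 2 / G.L k) ≤ 1 := by
    rwa [← mul_div_assoc, div_le_one (by linarith)]
  have c : 0 ≤ G.Yr d C k ^ 2 / G.L k := by positivity
  exact ⟨by rw [a]; nlinarith, (mul_le_mul_of_nonneg_left a' (by linarith)).trans b⟩

variable (J1 : G.Tj D R δ J) (H : Top R m δ K Y.1 Y.2 σ) (K0 : 0 < K) (m1 : 1 ≤ m) (m2 : m ≤ d)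
include J1 H K0 m1 m2

theorem tp_ent : G.zP w d D C c J j p l U J (G.tp D b J (c J) Y) (K * G.ka D C J ^ m) ∧
    (∃ k θ, KM (G.p J) (G.N J) k (G.xv b J (G.jx J (c J) Y)).2 ∧ kN (G.p J) (G.N J) k θ) ∧
    ∀ x B, RealF B → Cv (G.p J).R (G.p J).ρ B → (G.xv b J (G.jx J (c J) Y)).1 x B =
      (G.jp D c J (G.tp D b J (c J) Y)).1 x B := by
  have h := T.ok
  have l0 := h.lH0 D J
  have r0 := h.ρ60 J
  have g0 := h.g0 J
  have x1 := h.Xr1 C J
  have k0 := h.ka0 D C J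
  obtain ⟨e1, e2, -⟩ := T.e J T.hj.le
  obtain ⟨c1, c2, c3⟩ := (h.top_cut J1 H).cut l0.le (h1 := 2 * G.lH D J) (by linarith) (by linarith)
  have z := top_zero H (by linarith [J1.2.1]) m1
  have z' := (c3 0 (inT_zero r0.le l0.le)).trans z
  obtain ⟨k, k1, k2⟩ := h.topK e1.1 (n := m + 1) (le_trans (by linarith [T.hd]) J1.2.2.2)
    (by have := (T.t.gd J le_rfl).tz.v; rwa [zz_top] at this) (J1.1.trans (h.lR_le J)) K0 H.lt H.bd
    (F := dt (G.N J) (c J)) fun x => by unfold dt; split_ifs <;> simp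
  obtain ⟨p1, p2⟩ := T.pt.ent (k := J) ⟨_, c1⟩ (y := K * (4 * G.lH D J) ^ m)
    (by simpa [je] using c1) z' c2 k1 k2 (h.ks_top _ _ _)
  refine ⟨T.pt.co.mono _ _ _ _ p1 ?_, ⟨k, _, k1, kN_pA k2⟩, fun x B r v => ?_⟩
  · have a1 := h.lH_ka e2
    have a2 : G.g J ≤ 4 * G.lH D J := by
      have := le_mul_of_one_le_right g0.le (one_le_pow₀ (n := G.aA D + 1 - 7 * G.K)
        (show (1 : ℝ) ≤ G.L J by linarith [h.L1 J]))
      rw [← h.lHe] at this
      linarith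
    have a3 : G.jW D J * G.g J ≤ 1 := le_trans (mul_le_mul_of_nonneg_left
      (le_sqrt_of_sq_le (by nlinarith [h.g1 J])) (by unfold jW; positivity)) J1.2.2.1
    have a4 : (4 * G.lH D J) ^ m ≤ G.Xr C J ^ (2 * d) * G.ka D C J ^ m := by
      refine (pow_le_pow_left₀ (by positivity) a1 m).trans ?_
      rw [mul_pow, ← pow_mul]
      gcongr
    have a5 : 2 * G.Xr C J ^ (2 * d) ≤ G.Zu d C J := le_trans (by
      rw [pow_succ']; gcongr; linarith [e2.1, GD.cG1])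
      (pow_le_pow_right₀ x1 (show 2 * d + 1 ≤ 20 * d + 13 by omega))
    calc _ = K * ((4 * G.lH D J) ^ m + G.jW D J * G.g J * G.g J ^ m) := by ring
      _ ≤ K * ((4 * G.lH D J) ^ m + 1 * (4 * G.lH D J) ^ m) := by gcongr
      _ ≤ K * (2 * G.Xr C J ^ (2 * d) * G.ka D C J ^ m) := by gcongr; linarith
      _ ≤ K * (G.Zu d C J * G.ka D C J ^ m) := by gcongr
      _ = _ := by ring
  · have q := c3 B (inT_real r (v.mono (h.lR_le J) (by linarith)) l0.le)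
    erw [p2]
    simp only [xv, xP, jx, lS, dt, ptL, Pi.add_apply, Pos.sL]
    split_ifs
    · simp [ccn, ctr_of r v, ctr_zero (by linarith : 0 ≤ (G.p J).ρ), q, z']
    · simp

/-- letters are tagged states -/
theorem tp_P : G.zP w d D C c J j p l U J (G.tp D b J (c J) Y) (K * G.ka D C J ^ m) :=
  (T.tp_ent J1 H K0 m1 m2).1

/-- their flow is the tangent flow -/
theorem lv_ls (h1 : j ≤ k) (h2 : k < J) :
    G.jp D c k (G.ls D c b J Y k) = G.jv b J (c J) Y k := by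
  have h := T.ok
  obtain ⟨p1, ⟨k0, θ, k1, k2⟩, p3⟩ := T.tp_ent J1 H K0 m1 m2
  obtain ⟨o1, -⟩ := T.pt.om T.hj le_rfl
  have r0 := h.ρ0 J
  have g0 := h.g0 J
  have Q1 := h.Q1 J
  have z := top_zero H (by linarith [J1.2.1, h.lH0 D J]) m1
  obtain ⟨M0, t⟩ : ∃ M0, ∀ x, Tbw (G.p J).R (60 * (G.p J).ρ) (G.p J).ρ M0
      ((G.xv b J (G.jx J (c J) Y)).1 x) ∧ (G.xv b J (G.jx J (c J) Y)).1 x 0 = 0 := by
    have a := (h.top_cut J1 H).mono (h.lR_le J) le_rfl (h' := (G.p J).ρ)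
      (by linarith [h.ρH D J]) le_rfl
    refine ⟨K * (4 * G.lH D J) ^ m, fun x => ?_⟩
    have e : (G.xv b J (G.jx J (c J) Y)).1 x = ptL (G.N J) (c J) Y.2 x := by
      funext B
      simp only [xv, xP, jx, lS, dt, ptL, Pi.add_apply, Pos.sL]
      split_ifs <;> simp
    rw [e, ptL]
    split_ifs
    exacts [⟨a, z⟩, ⟨(Tbw.zero _ _ _).mono le_rfl le_rfl le_rfl
      (a.nonneg (by linarith) r0.le), rfl⟩]
  obtain ⟨x1, x2, x3, pm⟩ : ∃ x1 x2 x3, PM (G.p J) x1 x2 x3 (G.xv b J (G.jx J (c J) Y)).1 :=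
    ⟨_, _, _, fun x => ⟨by
      simpa only [(t x).2, sub_zero] using (t x).1.ps r0 (by linarith) r0 (by linarith) 6,
      (t x).1.meas⟩⟩
  have u0 : 0 < ω J * G.g J ^ 2 := by positivity
  obtain ⟨N, hN⟩ : ∃ N, N = |x1| + |x2| + (|x3| + |θ|) / (ω J * G.g J ^ 2) := ⟨_, rfl⟩
  have n1 : |x3| + |θ| ≤ ω J * N * G.g J ^ 2 := by
    rw [mul_right_comm, ← div_le_iff₀' u0, hN]
    linarith [abs_nonneg x1, abs_nonneg x2]
  have n2 : |x1| + |x2| ≤ N := hN ▸ le_add_of_nonneg_right (by positivity)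
  have n3 := abs_nonneg x1
  have n4 := abs_nonneg x2
  refine T.pt.flow' le_rfl p1 (N := N) ⟨PM.mono r0 pm (by linarith [le_abs_self x1])
    (le_trans (by linarith [le_abs_self x2]) (le_mul_of_one_le_left (by linarith)
      (one_le_pow₀ Q1))) ?_, k0, k1, k2.mono (by linarith [le_abs_self θ, abs_nonneg x3])⟩
    rfl p3 k h1 h2
  rw [mul_assoc, mul_assoc, ← mul_assoc (ω J)]
  exact le_trans (by linarith [le_abs_self x3, abs_nonneg θ]) (le_mul_of_one_le_left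
    (le_trans (by positivity) n1) (one_le_pow₀ Q1))

end Tk

/-- the symbol of a letter at the top -/
theorem sym_top (w : α → ℕ) (d : ℕ) {e : Cp α} (H : Lsy p₀ R m δ K Y e) (δ0 : 0 < δ) :
    ∃ K' δ' : ℝ, 0 < δ' ∧ ∀ (G : Gl) D C M c b J j ω p l U U',
      G.Tk w d D C M c b J j ω p l U U' → p J = p₀ → G.Tj D R δ' J →
        ‖((G.ka D C J : ℂ) ^ m)⁻¹ • G.zq w d D C J j p J (G.tp D b J (c J) Y) -
          Sy.mk (wC w) d e‖ ≤ K' * G.lH D J := by
  obtain ⟨m1, hom, σ, H, hσ⟩ := H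
  obtain ⟨b0, b1, hb⟩ : ∃ b0 ≥ (1 : ℝ), ∀ c, Cv R (b0 * ‖c‖) (p₀ c) := by
    choose f hf using fun a => Ho.cv_exists R (p₀ (Pi.single a 1))
    refine ⟨1 + ∑ a, f a, le_add_of_nonneg_right (sum_nonneg fun a _ => (hf a).nonneg),
      fun c x hx μ ν => ?_⟩
    have e : dd (p₀ c) x μ ν = ∑ a, c a * dd (p₀ (Pi.single a 1)) x μ ν := by
      conv_lhs => rw [pi_eq_sum_univ' c]
      simp [dd, sum_sub_distrib, sum_add_distrib, mul_sub, mul_add]
    rw [e, add_mul, sum_mul]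
    refine (norm_sum_le_of_le _ fun a _ => ?_).trans (le_add_of_nonneg_left (by positivity))
    rw [norm_mul, mul_comm]
    exact mul_le_mul (hf a x hx μ ν) (norm_le_pi_norm c a) (norm_nonneg _) (hf a).nonneg
  have g := GD.cG1
  have K0 := H.nonneg
  refine ⟨2 * 2 ^ d * K * b0 ^ (m + 1) * cG ^ m, δ / b0, by positivity,
    fun G D C M c b J j ω p l U U' T hp J1 => ?_⟩
  have h := T.ok
  have k0 := h.ka0 D C J
  have l0 := h.lH0 D J
  have x1 := h.Xr1 C J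
  have J2 := J1.mono (div_le_self δ0.le b1)
  obtain ⟨κ, hκ⟩ : ∃ κ, κ = G.ka D C J := ⟨_, rfl⟩
  have k1 : κ * cG ≤ G.lH D J := by
    rw [hκ, ka, div_mul_eq_mul_div, div_le_iff₀ (by positivity)]
    nlinarith [mul_pos l0 (show 0 < cG by linarith)]
  have k2 : 4 * (κ * b0 * cG) ≤ δ := by
    have := (le_div_iff₀ (by linarith)).1 J1.2.1
    nlinarith
  rw [← hκ] at k0 ⊢
  have q0 : 0 < κ * b0 * cG := by positivity
  have hq : ∀ c, Cv R (κ * b0 * ‖c‖) ((κ • p₀) c) := fun c => by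
    simpa [abs_of_pos k0, mul_assoc] using La.Q.cv_smul' κ (hb c)
  have F := (H.tbw (ρ := κ * b0 * cG) (h := 2 * (κ * b0 * cG)) (by linarith)).hbl hq
    (by positivity) (by linarith) q0
  have es : ∀ c, emF (κ • p₀) c = emF p₀ ((κ : ℂ) • c) := fun c => by
    rw [map_smul]
    funext f i
    simp [emF, cz_ap, mul_add, mul_assoc]
  have ev : ∀ c, σ (emF (κ • p₀) c) = MvPolynomial.eval c ((κ : ℂ) ^ m • e) := fun c => by
    rw [es, hσ, show (κ : ℂ) • c = dl 1 κ c from funext fun i => by simp [dl],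
      eval_hom hom, smul_eval]
  have B := hb_nP ((κ : ℂ) ^ m • e)
  have N : Hb (K * (κ * b0 * cG) ^ (m + 1)) ((fun c => Y.2 (emF (κ • p₀) c)) +
      (-1 : ℂ) • fun c => MvPolynomial.eval c ((κ : ℂ) ^ m • e)) :=
    ⟨(F.add (B.smul (-1))).hol, fun c hc => by
      simpa [← ev, sub_eq_add_neg] using (H.nr _ _ ((cv_emF hq (by positivity) c).mono le_rfl
        (by nlinarith [mul_le_mul_of_nonneg_left hc q0.le])) (by linarith)).2⟩
  have S := N.nP_sy (wC_ne T.hw) d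
  rw [F.sy_add B (wC_ne T.hw), sy_eval] at S
  obtain ⟨c1, -, c3⟩ := (h.top_cut J2 H).cut l0.le (h1 := 2 * G.lH D J) (by linarith) (by linarith)
  have e1 := (T.pt.s.s1 J).congr c1 ((h.top_cut J2 H).mono le_rfl le_rfl (by linarith) le_rfl)
    (h.ρ60 J).le l0.le c3
  have kc : (κ : ℂ) ^ m ≠ 0 := pow_ne_zero _ (Complex.ofReal_ne_zero.2 k0.ne')
  have e2 : ((κ : ℂ) ^ m)⁻¹ • G.zq w d D C J j p J (G.tp D b J (c J) Y) - Sy.mk (wC w) d e =
      ((κ : ℂ) ^ m)⁻¹ • (sgS w d (κ • p₀) Y.2 + (-1 : ℂ) • Sy.mk (wC w) d ((κ : ℂ) ^ m • e)) := by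
    rw [smul_add, map_smul, smul_comm _ (-1 : ℂ), inv_smul_smul₀ kc, neg_one_smul, sub_eq_add_neg]
    congr 2
    refine e1.trans ?_
    rw [js, if_pos ⟨T.hj.le, le_rfl⟩, hp, hκ]
  rw [e2, norm_smul, Sy.norm_eq, map_add, map_smul, val_sgS, Sy.val_mk, norm_inv, norm_pow,
    Complex.norm_real, Real.norm_of_nonneg k0.le, inv_mul_le_iff₀ (by positivity)]
  refine S.trans ?_
  calc _ = κ ^ m * (2 * 2 ^ d * K * b0 ^ (m + 1) * cG ^ m * (κ * cG)) := by ring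
    _ ≤ _ := by gcongr

/-- the cocycle of a frame -/
theorem Fra.fm (F : Fra w d p₀ R δ K n X e) : ∃ M δ' : ℝ, 0 < δ' ∧ δ' ≤ δ ∧
    ∀ (G : Gl) D C M' c b J j ω p l U U', M ≤ M' → G.Tk w d D C M' c b J j ω p l U U' → p J = p₀ →
      G.Tj D R δ' J → Cok.Fm j J (G.zP w d D C c J j p l U) (G.zq w d D C J j p) (G.jT D c b J)
        (G.jA w d D C U') (W0 w d) (fun k => G.Yr d C k * (G.L k : ℝ) ^ d)
        (fun k => G.Yr d C k / (G.L k : ℝ) ^ (d + 1)) (fun k => G.Yr d C k / (G.L k : ℝ) ^ (D + 2))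
        (fun a => ((G.ka D C J : ℂ) ^ n a)⁻¹ • G.tp D b J (c J) (X a)) M' ∧
      ∀ t : β → ℂ, ∑ a, ‖t a‖ ≤ M' * ‖∑ a, t a • G.zq w d D C J j p J
        (((G.ka D C J : ℂ) ^ n a)⁻¹ • G.tp D b J (c J) (X a))‖ := by
  obtain ⟨C₀, C0, hC⟩ := near_frame F.li F.sp
  choose K' δ' d0 hs using fun a => sym_top w d (F.top a).1 F.δ0
  have ev : ∀ᶠ t in nhdsWithin (0 : ℝ) (Set.Ioi 0), t ≤ δ ∧ ∀ a, t ≤ δ' a ∧ |K' a| * t ≤ C₀⁻¹ := by
    refine Eventually.filter_mono nhdsWithin_le_nhds ((eventually_le_nhds F.δ0).and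
      (eventually_all.2 fun a => (eventually_le_nhds (d0 a)).and ?_))
    exact (Continuous.tendsto' (f := fun t => |K' a| * t) (by fun_prop) 0 0
      (by simp)).eventually_le_const (inv_pos.2 C0)
  obtain ⟨t, ⟨t1, t2⟩, t0⟩ := (ev.and self_mem_nhdsWithin).exists
  refine ⟨1 + C₀ * K + C₀, t, t0, t1, fun G D C M' c b J j ω p l U U' hM T hp J1 => ?_⟩
  have A : ∀ a, G.zP w d D C c J j p l U J
      (((G.ka D C J : ℂ) ^ n a)⁻¹ • G.tp D b J (c J) (X a)) K ∧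
      G.zq w d D C J j p J (((G.ka D C J : ℂ) ^ n a)⁻¹ • G.tp D b J (c J) (X a)) =
        ((G.ka D C J : ℂ) ^ n a)⁻¹ • G.zq w d D C J j p J (G.tp D b J (c J) (X a)) := fun a => by
    obtain ⟨⟨m1, -, σ, H, -⟩, m2⟩ := F.top a
    have k0 := T.ok.ka0 D C J
    have := T.co.lin J _ _ _ _ ((G.ka D C J : ℂ) ^ n a)⁻¹ (T.co.zero J)
      (T.tp_P (J1.mono t1) H F.C0 m1 m2)
    rwa [zero_add, T.co.q0, zero_add, zero_add, norm_inv, norm_pow, Complex.norm_real,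
      Real.norm_of_nonneg k0.le, mul_comm K, inv_mul_cancel_left₀ (by positivity)] at this
  obtain ⟨s1, s2⟩ := hC (fun a => G.zq w d D C J j p J
    (((G.ka D C J : ℂ) ^ n a)⁻¹ • G.tp D b J (c J) (X a))) fun a =>
      ⟨T.co.mem _ _ _ (A a).1, by
        rw [(A a).2]
        refine (hs a G D C M' c b J j ω p l U U' T hp (J1.mono (t2 a).1)).trans
          (le_trans ?_ (t2 a).2)
        exact mul_le_mul (le_abs_self _) (by linarith [J1.2.1, T.ok.lH0 D J]) (T.ok.lH0 D J).le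
          (abs_nonneg _)⟩
  have := mul_pos C0 F.C0
  exact ⟨T.co.fm T.hj.le (fun a => (A a).1) C0.le F.C0.le s1 s2 (by linarith)
    fun k h1 _ => T.num h1, fun t => (s1 t).trans (by gcongr; linarith)⟩

end Gl

end Pool.Agent.Lib.MP_7f377f_mp.RG.Q4.En
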