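import Pool.Agent.Lib.MP_7f377f_mp.G.JvA

/-! Families of point insertions with fast growing radii: definitions for the merging. -/

noncomputable section

open Pool.Agent.Lib.MP_7f377f_mp.Jet

set_option linter.unusedSectionVars false
variable [Pool.Agent.Lib.MP_7f377f_mp.GD]

namespace Pool.Agent.Lib.MP_7f377f_mp.RG.Q4.En

open Finset Function Sg Real Pos Mg
open scoped Classical

attribute [local irreducible] box lbox tb tau rc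

variable {ι Ω γ κ α : Type} [DecidableEq ι] [DecidableEq Ω] [Fintype γ] [DecidableEq γ] [Fintype κ]
  [DecidableEq κ] [Inhabited κ] [Fintype α]

namespace Gl

variable (G : Gl) (A : ℕ)

/-- the size of the activities -/
def tA (k : ℕ) : ℝ := (G.QA A k ^ 329)⁻¹

/-- a majorant with some room in the weight -/
def KB (δ : ℝ) (k : ℕ) (r : ι → ℝ) (θ : ℝ) (K : (ι → ℂ) → Ac) : Prop :=
  ∃ m, kN ((G.pA A k).ad δ) (G.N k) m θ ∧ ∀ s ∈ Pd r, KM (G.p k) (G.N k) m (K s)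

/-- one majorant for all admissible subfamilies -/
def UA (D : Wd St ι Ω) (δ : ℝ) (k : ℕ) (r : ι → ℝ) (θ : ℝ) (K : (ι → ℂ) → Ac) : Prop :=
  ∃ m, kN ((G.pA A k).ad δ) (G.N k) m θ ∧
    ∀ N, D.Tr N → ∀ s ∈ Pd r, KM (G.p k) (G.N k) m (K (cutS (D.ad N) s))

/-- the direction `u` is small on the disc of radius `r` -/
def SzA (k : ℕ) (r : ℝ) (u : Lx × Ac) : Prop :=
  ∃ N, G.QA A k ^ 223 * (r * N) ≤ G.bb k ∧ G.Sz k N N (G.Q k ^ 100)⁻¹ u.1 u.2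

/-- the distance of the cells -/
def dL (k : ℕ) : ℝ := G.L k * (G.p k).D

/-- admissible growth `ρ` of the radii for letters at the distance `(m + 2) D`, at most `c` in
each cell -/
def Gr (c k m : ℕ) (ρ : ℝ) : Prop := 1 ≤ m ∧ 1 ≤ ρ ∧ log (1 + ρ) ≤ m ∧ m + 2 ≤ G.L k ∧
  400 * (1 + ρ) ^ c ≤ G.QA A k

/-- the size of an insertion -/
def cMA (k c : ℕ) (C : ℝ) : ℝ := exp (c * C + c + 2) * G.QA A k ^ (2 * c)

/-- the letters enter at level `i` as the family `Y` and the words merge at level `k` -/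
structure MhA (D : Wd St ι Ω) (b : ℝ) (J : ℕ) (Y : Fy ι) (i k : ℕ) (a : ι → ℂ) (c : ℕ) (C : ℝ)
    (r0 : ι → ℝ) (r : ℕ → ι → ℝ) (m : ℕ → ℕ) (ρ : ℕ → ℝ) (f : (ι → ℂ) → Conf → ℂ)
    (W Zc : ι → Finset St) : Prop where
  lt : k < i
  le : i ≤ J
  c1 : 1 ≤ c
  cA : c ≤ A
  C0 : 0 ≤ C
  big : ∀ j ≥ k, G.Big A j
  geo : D.Ok (box (G.N k / 2))
  wd : ∀ ω ∈ D.Om, tb (G.N k) ((G.p k).R + 3) (D.Z0 ω) ⊆ D.X0 ω ∧ D.X0 ω ⊆ Zc (D.cl ω) ∧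
    (D.A ω).card ≤ c ∧ tau (G.N k) (G.p k).D (D.X0 ω) ≤ c
  zA : ∀ ω ∈ D.Om, ∀ x ∈ D.A ω, G.zs (Y.Z x) i k ⊆ D.Z0 ω ∧ Y.Z x ⊆ W (D.cl ω) ∧
    r (k + 1) x * ‖jd {x} (G.fw D.al b J Y i (k + 1)).E - a x‖ ≤ C
  zB : ∀ x ∈ D.B, Y.Z x ⊆ W x ∧ G.zs (W x) i k ⊆ Zc x
  cel : ∀ j, k < j → j < i → G.Gr A c j (m j) (ρ j) ∧
    Cls (G.N j) (G.dL j) D.B id fun x => G.zs (W x) i j
  las : Cls (G.N k) (G.dL k) D.B id Zc
  fw : ∀ N, D.Tr N → G.FwA A (D.ad N) b J i (k + 1) r0 r m ρ Y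
  sz : ∀ x ∈ D.al, G.SzA A (k + 1) (r (k + 1) x) (G.tn b J (Y.jt {x}) i (k + 1))
  fd : ∀ N, D.Tr N → G.Fd i (G.zz b J i) (D.ad N) r0 (r i) (G.tA A i) (Y.cut (D.ad N))
    (fun s => f (cutS (D.ad N) s)) ∧ Y.Ec (D.ad N) id
  bs : Y.bs = (G.zz b J i).d
  um : G.UA A D 0 i (r i) (G.tA A i) Y.K
  loc : Loc (G.N i) Y.Z Y.ψ Y.K

variable (b : ℝ) (J k : ℕ)

/-- the source `F` is admissible with the radii `σ` down to the level `k` -/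
def RxA (d : ℕ) (σ : ℕ → ℝ) (F : Sx) : Prop :=
  (∃ a M, F.Ok (G.p J) d a M ∧ σ J * a ≤ G.bb J / 4 ∧ σ J * M ≤ 1) ∧
    ∀ j, k ≤ j → j ≤ J → G.SzA A j (σ j) (G.tn b J (G.xv b J F) J j)

/-- the hypotheses of the merging of sources at level `k` -/
structure MxA (S : Wx γ Ω κ α) (c d : ℕ) (C : ℝ) (m : ℕ → ℕ) (ρ : ℕ → ℝ) (σ : ℕ → Ω → κ → ℝ)
    (r : ℕ → γ → ℝ) : Prop where
  lt : k < J
  card : Fintype.card κ ≤ c
  cA : c ≤ A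
  C0 : 0 ≤ C
  big : ∀ j ≥ k, G.Big A j
  dR : d ≤ (G.p J).R
  rad : ∀ j, k < j → j ≤ J → G.Gr A c j (m j) (ρ j) ∧ (∀ ω l, 0 < σ j ω l) ∧ (∀ q, 0 < r j q) ∧
    (j < J → (∀ ω l, σ j ω l ≤ ρ j * σ (j + 1) ω l) ∧ ∀ q, r j q ≤ ρ j * r (j + 1) q)
  wd : ∀ ω ∈ S.Om, (S.X0 ω).Nonempty ∧ S.Z0 ω ⊆ S.X0 ω ∧
    tb (G.N k) ((G.p k).R + 3) (S.Z0 ω) ⊆ S.X0 ω ∧ S.X0 ω ⊆ G.zs (S.W (S.cl ω)) J k ∧
    tau (G.N k) (G.p k).D (S.X0 ω) ≤ c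
  lF : ∀ ω l, (S.F ω l).In (G.N J) (S.V ω l)
  lP : ∀ q, (S.P q).In (G.N J) (S.W q)
  lt' : ∀ ω ∈ S.Om, ∀ l, S.V ω l ⊆ S.W (S.cl ω) ∧ G.zs (S.V ω l) J k ⊆ S.Z0 ω ∧
    G.RxA A b J (k + 1) d (σ · ω l) (S.F ω l) ∧
    σ (k + 1) ω l * ‖G.ex b J (k + 1) (S.F ω l) - S.a ω l‖ ≤ C
  sl : ∀ q, G.RxA A b J (k + 1) d (r · q) (S.P q)
  sep : ∀ j, k < j → j ≤ J → ∀ ω ∈ S.Om,
    Cls (G.N j) ((m j + 2) * (G.p j).D) univ id fun l => G.zs (S.V ω l) J j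
  cel : ∀ j, k ≤ j → j ≤ J → Cls (G.N j) (G.dL j) univ id fun q => G.zs (S.W q) J j

/-- the family of the sources `F` -/
def xw (F : γ → Sx) (W : γ → Finset St) : Fy γ := G.fw univ b J (G.xt univ F W b J) J k

variable {G A b J k} {δ δ' θ θ' : ℝ} {r r' r0 : ι → ℝ} {K : (ι → ℂ) → Ac} {D : Wd St ι Ω}
  {S : Finset ι} {Y : Fy ι}

theorem xw_Z {F : γ → Sx} {W : γ → Finset St} (hk : k ≤ J) :
    (G.xw b J k F W).Z = fun q => G.zs (W q) J k := fw_Z k hk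

theorem KB.mono (h : G.KB A δ k r θ K) (e : δ' ≤ δ) (e' : ∀ x, r' x ≤ r x) (e'' : θ ≤ θ') :
    G.KB A δ' k r' θ' K := h.imp fun _ a =>
  ⟨(kN_drop a.1 e).mono e'', fun s hs => a.2 s fun x => (hs x).trans_le (e' x)⟩

theorem UA.mono (h : G.UA A D δ k r θ K) (e : δ' ≤ δ) (e' : ∀ x, r' x ≤ r x) (e'' : θ ≤ θ') :
    G.UA A D δ' k r' θ' K := h.imp fun _ a =>
  ⟨(kN_drop a.1 e).mono e'', fun N hN s hs => a.2 N hN s fun x => (hs x).trans_le (e' x)⟩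

theorem kN_A {m : Mj} {n : ℕ} (h : kN ((G.pA A k).ad δ) n m θ) : kN ((G.p k).ad δ) n m θ := by
  rw [pA, ad_ad] at h
  exact kN_drop h (le_add_of_nonneg_left (mul_nonneg (by positivity) (log_natCast_nonneg _)))

theorem kN_A0 {m : Mj} {n : ℕ} (h : kN ((G.pA A k).ad δ) n m θ) (δ0 : 0 ≤ δ) :
    kN (G.pA A k) n m θ := ad_zero (G.pA A k) ▸ kN_drop h δ0

theorem kN_AA {m : Mj} {n A' : ℕ} (h : kN (G.pA A k) n m θ) (e : A' ≤ A) : kN (G.pA A' k) n m θ :=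
  kN_drop h (mul_le_mul_of_nonneg_right (by exact_mod_cast Nat.mul_le_mul_left 2 e)
    (log_natCast_nonneg _))

theorem KB.ka (h : G.KB A δ k r θ K) (δ0 : 0 ≤ δ) : G.KA A k r θ K :=
  h.imp fun _ a => ⟨kN_A0 a.1 δ0, a.2⟩

theorem KA.kb (h : G.KA (A + 1) k r θ K) (o : G.Ok) : G.KB A 1 k r θ K := h.imp fun _ a =>
  ⟨by
    rw [pA, ad_ad]
    refine kN_drop a.1 ?_
    have := (le_log_iff_exp_le (x := 1) (y := G.L k) (by linarith [o.L1 k])).2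
      (exp_one_lt_three.le.trans (by linarith [o.L1 k]))
    push_cast
    linarith, a.2⟩

theorem UA.um (h : G.UA A D δ k r θ K) : Um D (G.p k) δ (G.N k) r θ K :=
  h.imp fun _ a => ⟨kN_A a.1, a.2⟩

theorem UA.ka {N : Finset Ω} (h : G.UA A D δ k r θ K) (δ0 : 0 ≤ δ) (hN : D.Tr N) :
    G.KA A k r θ fun s => K (cutS (D.ad N) s) := h.imp fun _ a => ⟨kN_A0 a.1 δ0, a.2 N hN⟩

theorem FwA.cut {i l : ℕ} {r : ℕ → ι → ℝ} {m : ℕ → ℕ} {ρ : ℕ → ℝ}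
    (h : G.FwA A S b J i l r0 r m ρ Y) : G.FwA A S b J i l r0 r m ρ (Y.cut S) :=
  ⟨h.big, fun k h1 h2 x hx => cut_jt (Y := Y) (singleton_subset_iff.2 hx) ▸ h.sz k h1 h2 x hx,
    h.sep, h.rad⟩

namespace Ok

variable (h : G.Ok)
include h

theorem tA0 (A k : ℕ) : 0 < G.tA A k := inv_pos.2 (pow_pos (h.QA0 A k) _)

theorem invA (A k : ℕ) {i j : ℕ} (e : i < j) : 1000 * (G.QA A k ^ j)⁻¹ ≤ (G.QA A k ^ i)⁻¹ := by
  have q := h.QA0 A k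
  have q1 := h.QA1 A k
  rw [← div_eq_mul_inv, div_le_iff₀ (pow_pos q _), le_inv_mul_iff₀ (pow_pos q _)]
  exact (mul_le_mul_of_nonneg_left q1 (pow_pos q _).le).trans
    ((pow_succ _ _).ge.trans (pow_le_pow_right₀ (by linarith) e))

theorem expA (A k : ℕ) : exp (G.pA A k).a = G.QA A k ^ 2 := by
  have L := h.L1 k
  change exp (2 * log (G.Q k) + 2 * A * log (G.L k)) = _
  rw [← exp_log (pow_pos (h.QA0 A k) 2), QA, Gl.Q, log_pow, log_pow, log_pow]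
  push_cast
  ring_nf

theorem sz_puA {r : ℝ} {u : Lx × Ac} (e : G.SzA A k r u) (r0 : 0 ≤ r) :
    ∃ y, r * y ≤ (G.QA A k ^ 211)⁻¹ ∧ PU (G.p k) y u.1 := by
  obtain ⟨N, e1, e2⟩ := e
  have q := h.QA0 A k
  have q0 := h.Q0 k
  have N0 := (h.sz_nn e2).1
  refine ⟨_, ?_, h.sz_pu e2 (mul_inv_cancel₀ (pow_pos q0 _).ne').le⟩
  have := h.QA_ge A k
  rw [← one_div, le_div_iff₀ (pow_pos q _), ← h.bg k]
  calc _ = 2 * G.Q k ^ 10 * G.QA A k ^ 211 * (r * N) * G.g k ^ 2 := by ring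
    _ ≤ G.QA A k ^ 2 * G.QA A k ^ 10 * G.QA A k ^ 211 * (r * N) * G.g k ^ 2 := by
        gcongr; nlinarith [h.QA1 A k]
    _ = G.QA A k ^ 223 * (r * N) * G.g k ^ 2 := by ring
    _ ≤ _ := by gcongr

theorem LA (a : G.Big A k) : 1000 * 2 ^ A ≤ G.L k := by
  have l : 2 ≤ Nat.log 3 (G.L k) := Nat.le_log_of_pow_le (by norm_num) (by linarith [h.L_big k])
  calc _ ≤ 2 ^ 10 * 2 ^ A := by gcongr; norm_num
    _ = 2 ^ (10 + A) := (pow_add _ _ _).symm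
    _ ≤ 2 ^ (4 * (20 * (20 + (G.K + A)))) := Nat.pow_le_pow_right two_pos (by omega)
    _ ≤ (Nat.log 3 (G.L k) ^ 4) ^ (20 * (20 + (G.K + A))) := by
        rw [← pow_mul]; exact Nat.pow_le_pow_left l _
    _ ≤ _ := a.2.trans (by unfold Gl.L LL Gl.l; omega)

end Ok

end Gl

end Pool.Agent.Lib.MP_7f377f_mp.RG.Q4.En
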