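import Pool.Agent.Lib.MP_7f377f_mp.G.JsS
import Pool.Agent.Lib.MP_7f377f_mp.G.JvD

/-! Lattice letters along a track: sizes, growth, completeness and translations. -/

noncomputable section

set_option linter.unusedSectionVars false
variable [Pool.Agent.Lib.MP_7f377f_mp.GD]

namespace Pool.Agent.Lib.MP_7f377f_mp.RG.Q4.En

open Finset Real Cok Filter Tl MvPolynomial Ju
open scoped Classical

attribute [local irreducible] box lbox tb tau rc

/-- letters of range `R` and size `K` -/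
def Lt1 (R : ℕ) (δ K : ℝ) (Y : Lq) : Prop := ∃ σ, Top R 1 δ K Y.1 Y.2 σ

section

variable {R R' m : ℕ} {δ δ' K K' : ℝ} {Y Y' : Lq} {σ : Fld → ℂ}

theorem lt1_of (H : Top R m δ K Y.1 Y.2 σ) (m1 : 1 ≤ m) (δ1 : δ ≤ 1) : Lt1 R δ K Y := by
  rcases m1.eq_or_lt with rfl | m2
  · exact ⟨σ, H⟩
  have K0 := H.nonneg
  refine ⟨0, { H with nr := fun B d a b => ?_ }⟩
  have d0 := a.nonneg
  have e : ∀ i ≤ m, ‖Y.2 B‖ ≤ K * d ^ i := fun i hi => (H.nr B d a b).1.trans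
    (mul_le_mul_of_nonneg_left (pow_le_pow_of_le_one d0 (b.trans δ1) hi) K0)
  exact ⟨e 1 m1, by simpa using e 2 m2⟩

namespace Lt1

theorem nn (H : Lt1 R δ K Y) : 0 ≤ K := H.elim fun _ a => a.nonneg

theorem mono (H : Lt1 R δ K Y) (hR : R ≤ R') (hδ : δ' ≤ δ) (hK : K ≤ K') : Lt1 R' δ' K' Y :=
  H.imp fun _ a => a.mono hR hδ hK

theorem smul (H : Lt1 R δ K Y) (t : ℂ) : Lt1 R δ (‖t‖ * K) (t • Y) := H.elim fun _ a => ⟨_, a.smul t⟩

theorem add (H : Lt1 R δ K Y) (H' : Lt1 R δ K' Y') : Lt1 R δ (K + K') (Y + Y') :=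
  H.elim fun _ a => H'.elim fun _ b => ⟨_, a.add b⟩

theorem sub (H : Lt1 R δ K Y) (H' : Lt1 R δ K' Y') : Lt1 R δ (K + K') (Y - Y') := by
  simpa [sub_eq_add_neg] using H.add (H'.smul (-1))

theorem zero (R : ℕ) (δ : ℝ) : Lt1 R δ 0 0 :=
  ⟨0, continuous_const, .zero, fun _ => norm_zero.le, fun _ _ _ => rfl, fun _ _ => rfl,
    measurable_zero, fun _ _ _ _ => differentiableOn_const 0, fun _ _ _ _ => by simp⟩

theorem sum {ι : Type} (s : Finset ι) {K : ι → ℝ} {Y : ι → Lq} (H : ∀ i, Lt1 R δ (K i) (Y i)) :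
    Lt1 R δ (∑ i ∈ s, K i) (∑ i ∈ s, Y i) := by
  induction s using Finset.cons_induction with
  | empty => exact zero R δ
  | cons i s hi ih => rw [sum_cons, sum_cons]; exact (H i).add ih

end Lt1

end

variable {α β : Type} [Fintype α] [DecidableEq α] [Fintype β]

namespace Gl

variable (G : Gl)

/-- the symbol of the letter `Y` at the level `k` -/
def ys (w : α → ℕ) (d D C : ℕ) (c : ℕ → St) (b : ℝ) (J j : ℕ) (p : ℕ → (α → ℝ) →ₗ[ℝ] V) (Y : Lq)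
    (k : ℕ) : SyC w d := G.zq w d D C J j p k (G.ls D c b J Y k)

/-- the losses between two levels -/
def Pw (d C k l : ℕ) : ℝ := ∏ n ∈ Ico k l, 4 * G.Yr d C n

/-- a frame of letters on a track -/
structure Fk (w : α → ℕ) (d D C : ℕ) (M : ℝ) (c : ℕ → St) (b : ℝ) (J j : ℕ) (ω : ℕ → ℝ)
    (p : ℕ → (α → ℝ) →ₗ[ℝ] V) (l : ℕ → V →ₗ[ℝ] α → ℝ) (U U' : ℕ → Module.End ℝ (α → ℝ))
    (R : ℕ) (δ K : ℝ) (n : β → ℕ) (X : β → Lq) : Prop where
  T : G.Tk w d D C M c b J j ω p l U U'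
  J1 : G.Tj D R δ J
  δ1 : δ ≤ 1
  d1 : 1 ≤ d
  K0 : 0 < K
  top : ∀ a, 1 ≤ n a ∧ n a ≤ d ∧ ∃ σ, Top R (n a) δ K (X a).1 (X a).2 σ
  fm : Cok.Fm j J (G.zP w d D C c J j p l U) (G.zq w d D C J j p) (G.jT D c b J)
    (G.jA w d D C U') (W0 w d) (fun k => G.Yr d C k * (G.L k : ℝ) ^ d)
    (fun k => G.Yr d C k / (G.L k : ℝ) ^ (d + 1)) (fun k => G.Yr d C k / (G.L k : ℝ) ^ (D + 2))
    (fun a => ((G.ka D C J : ℂ) ^ n a)⁻¹ • G.tp D b J (c J) (X a)) M
  s1 : ∀ t, ∑ a, ‖t a‖ ≤ M * ‖G.ys w d D C c b J j p (G.fl D C J n X t) J‖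

variable {G} {w : α → ℕ} {b M δ δ' K K' x y r θ : ℝ} {d D C J j k i o R m A : ℕ} {c c' v : ℕ → St}
  {ω ρ : ℕ → ℝ} {p : ℕ → (α → ℝ) →ₗ[ℝ] V} {l : ℕ → V →ₗ[ℝ] α → ℝ}
  {U U' : ℕ → Module.End ℝ (α → ℝ)} {p₀ : (α → ℝ) →ₗ[ℝ] V} {n : β → ℕ} {X : β → Lq}
  {e : β → Cp α} {Y Y' : Lq} {σ : Fld → ℂ} {u : Jv} {s : St} {H : Ac} {κ : Mj}

theorem ls_top : G.ls D c b J Y J = G.tp D b J (c J) Y := Cok.fw_top ..

theorem jv_top : G.jv b J s Y J = G.xv b J (G.jx J s Y) := tn_top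

theorem jx_in (h : G.Ok) (s : St) (Y : Lq) : (G.jx J s Y).In (G.N J) {rc (G.N J) s} := fun x hx => by
  have : ¬ nearT (G.N J) 0 s x := fun q => hx (mem_singleton.2 (nearT_zero.1 q).symm)
  simp [jx, lS, dt, this]

theorem jx_sxT (s z : St) (Y : Lq) : sxT (G.N J) z (G.jx J (s + z) Y) = G.jx J s Y := by
  have e : ∀ x, dt (G.N J) (s + z) (rc (G.N J) (x + z)) = dt (G.N J) s x := fun x =>
    if_congr (by rw [nearT_rc_right, nearT_add_right]) rfl rfl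
  exact Prod.ext rfl (Prod.ext (funext fun x => congrArg (· • Y.1) (e x))
    (funext fun x => congrArg (· • Y.2) (e x)))

/-- frames on tracks -/
theorem Fra.fk (F : Fra w d p₀ R δ K n X e) (d1 : 1 ≤ d) : ∃ M δ' : ℝ, 0 < δ' ∧
    ∀ (G : Gl) D C M' c b J j ω p l U U', M ≤ M' → G.Tk w d D C M' c b J j ω p l U U' → p J = p₀ →
      G.Tj D R δ' J → G.Fk w d D C M' c b J j ω p l U U' R δ' K n X := by
  obtain ⟨M, δ', d0, d2, H⟩ := Fra.fm F
  refine ⟨M, min δ' 1, lt_min d0 one_pos, fun G D C M' c b J j ω p l U U' hM T hp J1 => ?_⟩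
  obtain ⟨f, s⟩ := H G D C M' c b J j ω p l U U' hM T hp (J1.mono (min_le_left _ _))
  refine ⟨T, J1, min_le_right _ _, d1, F.C0, fun a => ?_, f, fun t => (s t).trans_eq ?_⟩
  · obtain ⟨⟨m1, -, σ, H, -⟩, m2⟩ := F.top a
    exact ⟨m1, m2, σ, H.mono le_rfl ((min_le_left _ _).trans d2) le_rfl⟩
  · rw [ys, ← st_ls, st, Cok.fw_top, f.q_top]

namespace Ok

variable (h : G.Ok)
include h

theorem Yr1 (d C k : ℕ) : 1 ≤ G.Yr d C k := one_le_pow₀ (h.Xr1 C k)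

theorem Pw1 (d C k i : ℕ) : 1 ≤ G.Pw d C k i :=
  one_le_prod fun n _ => by linarith [h.Yr1 d C n]

omit h in
theorem Pw_mul (h1 : k ≤ o) (h2 : o ≤ i) : G.Pw d C k o * G.Pw d C o i = G.Pw d C k i :=
  prod_Ico_consecutive _ h1 h2

/-- the losses are smaller than any power of the scale -/
theorem Pw_ev (d C m : ℕ) (C1 : C ≠ 0) : ∃ k0, ∀ k ≥ k0, ∀ i ≥ k, G.Pw d C k i ^ m ≤ G.rt i k := by
  obtain ⟨k0, e⟩ := eventually_atTop.1 (h.yr_ev d C m (4 ^ m) C1)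
  exact ⟨k0, fun k hk i hi => h.prod_le hi (fun n => by linarith [h.Yr1 d C n]) fun n hn => by
    rw [mul_pow]; exact e n (hk.trans hn)⟩

/-- the size of a direction in the norm of the run -/
theorem sz_of {ψ : Lx} (a : ∀ z, Tbw (G.p k).R (60 * (G.p k).ρ) (G.p k).ρ x (ψ z) ∧ ψ z 0 = 0)
    (k1 : KM (G.p k) (G.N k) κ H) (k2 : kN (G.p k) (G.N k) κ x) :
    G.Sz k (G.Q k ^ 100 * x * G.bb k) (G.Q k ^ 100 * x * G.bb k) (G.Q k ^ 100)⁻¹ ψ H := by
  have x0 := k2.nonneg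
  have r0 := h.ρ0 k
  have g0 := h.g0 k
  have b0 := h.b0 k
  have Q1 := h.Q1 k
  have D1 := h.D1 k
  have e : ∀ y : ℝ, (G.Q k ^ 100)⁻¹ * (G.Q k ^ 100 * y * G.bb k) * G.g k ^ 2 = y := fun y => by
    rw [mul_assoc (G.Q k ^ 100), inv_mul_cancel_left₀ (by positivity), mul_assoc, h.bg, mul_one]
  have w : ∀ {B : ℝ}, B ≤ G.Q k → B * x / (G.p k).ρ ^ 2 ≤ G.Q k ^ 100 * x * G.bb k := fun {B} q => by
    rw [div_le_iff₀ (by positivity), show (G.p k).ρ = G.Q k ^ 3 * G.g k from rfl]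
    calc _ ≤ G.Q k ^ 106 * x := by gcongr; exact q.trans (le_self_pow₀ Q1 (by norm_num))
      _ = G.Q k ^ 106 * x * (G.bb k * G.g k ^ 2) := by rw [h.bg, mul_one]
      _ = _ := by ring
  have R5 : ((G.p k).R + 1 : ℝ) ≤ 5 * G.D0 k := by
    change ((4 * G.D0 k : ℕ) + 1 : ℝ) ≤ _
    push_cast
    linarith
  refine ⟨PM.mono r0 (fun z => ⟨by
    simpa only [(a z).2, sub_zero] using (a z).1.ps r0 (by linarith) r0 (by linarith) 6,
    (a z).1.meas⟩) (w (h.cQ k (by norm_num))) (le_trans (w ?_)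
      (le_mul_of_one_le_left (by positivity) (one_le_pow₀ Q1))) ?_, κ, k1, by rwa [e]⟩
  · refine le_trans ?_ (h.nm k (C := 4 * 10 ^ 11 * 5 ^ 12) (i := 0) (j := 12) (by norm_num)
      (by norm_num) (by norm_num))
    calc _ ≤ 4 * 10 ^ 11 * (5 * G.D0 k : ℝ) ^ 12 := by gcongr
      _ = _ := by ring
  · rw [mul_assoc (G.Q k ^ 50), mul_assoc (G.Q k ^ 50), e, div_self r0.ne', one_pow, mul_one]
    gcongr
    exact (h.cQ k (by norm_num)).trans (le_self_pow₀ Q1 (by norm_num))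

theorem szA_of {z : Lx × Ac} (a : G.Sz k (G.Q k ^ i * x * G.bb k) (G.Q k ^ i * x * G.bb k)
    (G.Q k ^ 100)⁻¹ z.1 z.2) (r0 : 0 ≤ r) (e : G.QA A k ^ (223 + i) * (r * x) ≤ 1) :
    G.SzA A k r z := by
  have b0 := h.b0 k
  have Q0 := h.Q0 k
  have q0 := h.QA0 A k
  have x0 : 0 ≤ x := by
    have := (h.sz_nn a).1
    rwa [mul_nonneg_iff_of_pos_right b0, mul_nonneg_iff_of_pos_left (pow_pos Q0 _)] at this
  refine ⟨_, ?_, a⟩
  calc _ = G.QA A k ^ 223 * G.Q k ^ i * (r * x) * G.bb k := by ring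
    _ ≤ G.QA A k ^ 223 * G.QA A k ^ i * (r * x) * G.bb k := by gcongr; exact h.QA_ge A k
    _ ≤ 1 * G.bb k := by rw [← pow_add]; gcongr
    _ = _ := one_mul _

theorem xv_jx (s z : St) (Y : Lq) {o : LP St} (ho : o ∈ lps (box (G.N J / 2))) :
    (G.xv b J (G.jx J s Y)).2 o.1 o.2 =
      trA (G.N J) z (G.xv b J (G.jx J (s + z) Y)).2 o.1 o.2 := by
  have a : ∀ t : ℂ, trA (G.N J) z (xK (G.p J) (G.N J) b (t • G.jx J (s + z) Y)) o.1 o.2 =
      xK (G.p J) (G.N J) b (t • G.jx J s Y) o.1 o.2 := fun t =>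
    xK_tr (h.N_odd J) z (fun y => by
      rw [← jx_sxT s z Y]
      simp only [sxT, srT, Prod.smul_fst, Prod.smul_snd, Pi.smul_apply, and_self]) ho
  funext V
  simp only [xv, xS, dA, ← a, trA]

/-- translated letters have translated top states -/
theorem jr_tp (s z : St) (Y : Lq) : Jr (G.N J) z (G.tp D b J (s + z) Y) (G.tp D b J s Y) :=
  have e : ∀ (φ : Fld → ℂ) (K K' : Ac),
      (∀ o ∈ lps (box (G.N J / 2)), K' o.1 o.2 = trA (G.N J) z K o.1 o.2) →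
        Jr (G.N J) z (0, 0, φ, K) (0, 0, φ, K') := fun _ _ _ q => ⟨fun _ => rfl, fun _ => rfl, rfl, q⟩
  e _ _ _ fun _ ho => h.xv_jx s z Y ho

end Ok

namespace Tk

variable (T : G.Tk w d D C M c b J j ω p l U U')
include T

theorem MY (h1 : j ≤ k) : 200 * M * G.Yr d C k ≤ G.L k := by
  refine le_trans ?_ (T.e k h1).2.2
  have := T.M1
  gcongr
  exact le_self_pow₀ (T.ok.Yr1 d C k) two_ne_zero

theorem YL (h1 : j ≤ k) {i : ℕ} (hi : i ≤ 60 * d + 40) : 200 * G.Xr C k ^ i ≤ G.L k := by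
  have := pow_le_pow_right₀ (T.ok.Xr1 C k) hi
  have y := T.ok.Yr1 d C k
  nlinarith [T.MY h1, T.M1, show G.Xr C k ^ (60 * d + 40) = G.Yr d C k from rfl]

theorem zP0 (a : G.zP w d D C c J j p l U k u y) : 0 ≤ y := T.co.nn _ _ _ a

/-- the size of a tagged state in the norm of the run -/
theorem sz (h1 : j ≤ k) (a : G.zP w d D C c J j p l U k u y)
    (hx : ‖G.zq w d D C J j p k u‖ ≤ x) :
    G.Sz k (G.Q k ^ 121 * (x + y) * G.bb k) (G.Q k ^ 121 * (x + y) * G.bb k) (G.Q k ^ 100)⁻¹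
      (G.jp D c k u).1 (G.jp D c k u).2 := by
  have h := T.ok
  have Q0 := h.Q0 k
  have g0 := h.g0 k
  have b0 := h.b0 k
  have y0 := T.zP0 a
  have x0 := (norm_nonneg _).trans hx
  have x1 := h.Xr1 C k
  have s := h.jp_s1 (ω := fun _ => (G.Q k ^ 100)⁻¹) (T.pt.s.s1 k) (T.pt.s.nl k).2.2.2 (T.e k h1).1 a hx
    (by positivity) (inv_le_one_of_one_le₀ (one_le_pow₀ (h.Q1 k)))
  have z : ∀ i ≤ 60 * d + 40, G.Xr C k ^ i ≤ G.Q k := fun i hi => by
    linarith [T.YL h1 hi, h.LQ k, show 0 < G.Xr C k ^ i by positivity]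
  have e : G.Q k ^ 20 * (G.Zu d C k * y + G.Ga d C k * x) / ((G.Q k ^ 100)⁻¹ * G.g k ^ 2) ≤
      G.Q k ^ 121 * (x + y) * G.bb k := by
    rw [div_le_iff₀ (by positivity)]
    calc _ ≤ G.Q k ^ 20 * (G.Q k * y + G.Q k * x) := by
          gcongr
          exacts [z _ (by omega), z _ (by omega)]
      _ = G.Q k ^ 21 * (x + y) * (G.bb k * G.g k ^ 2) := by rw [h.bg]; ring
      _ = _ := by field_simp
  exact h.sz_le s (by positivity) e e le_rfl

theorem szA (h1 : j ≤ k) (a : G.zP w d D C c J j p l U k u y)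
    (hx : ‖G.zq w d D C J j p k u‖ ≤ x) (r0 : 0 ≤ r) (e : G.QA A k ^ 344 * (r * (x + y)) ≤ 1) :
    G.SzA A k r (G.jp D c k u) := T.ok.szA_of (T.sz h1 a hx) r0 e

/-- values, activities and supports of a tagged state -/
theorem exit (h1 : j ≤ k) (a : G.zP w d D C c J j p l U k u y)
    (hx : ‖G.zq w d D C J j p k u‖ ≤ x) :
    PU (G.p k) ((G.L k : ℝ) ^ 2 * (x + y)) (G.jp D c k u).1 ∧
      (∃ m, KM (G.p k) (G.N k) m (G.jp D c k u).2 ∧
        kN (G.pA (D + 7) k) (G.N k) m (G.L k * y / G.jW D k)) ∧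
      (∀ z, ¬ nearT (G.N k) (G.L k * G.D0 k + 2) (c k) z → (G.jp D c k u).1 z = 0) ∧
      KS (G.N k) (c k) (G.L k * G.D0 k + 2) (G.jp D c k u).2 := by
  have h := T.ok
  have y0 := T.zP0 a
  have x0 := (norm_nonneg _).trans hx
  have x1 := h.Xr1 C k
  have L1 := h.L1 k
  obtain ⟨a1, ⟨m, a2, a3⟩, a4⟩ := T.pt.exit a hx
  have z1 : 200 * G.Zu d C k ≤ G.L k := T.YL h1 (by omega)
  have z2 : 200 * G.Ga d C k ≤ G.L k := T.YL h1 (by omega)
  have z3 : 0 ≤ G.Zu d C k := by unfold Zu; positivity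
  have ab : 100 * (G.aA D + G.aB + 4 : ℝ) ≤ G.L k := by
    exact_mod_cast (Nat.le_add_left _ _).trans (T.e k h1).1.2.2
  refine ⟨pu_mono a1 ?_, ⟨m, a2, a3.mono ?_⟩, a4⟩
  · calc _ ≤ 2 * (G.L k / 2 * (G.L k * y) + G.L k / 2 * x) := by gcongr <;> linarith
      _ ≤ _ := by nlinarith [mul_nonneg (show 0 ≤ (G.L k : ℝ) * (G.L k - 1) by nlinarith) x0]
  · unfold jW
    gcongr
    linarith

/-- activities near the track are tagged states without symbol -/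
theorem act (k1 : KM (G.p k) (G.N k) κ H) (k2 : kN (G.pA (D + 7) k) (G.N k) κ θ)
    (k3 : KS (G.N k) (c k) (G.L k * G.D0 k) H) :
    G.zP w d D C c J j p l U k (0, 0, 0, H) (G.jW D k * θ) ∧
      G.zq w d D C J j p k (0, 0, 0, H) = 0 ∧ G.jp D c k (0, 0, 0, H) = (0, H) := by
  obtain ⟨a1, a2, a3⟩ := T.ok.jP_act (c := c) (T.pt.s.s1 k) k1 k2 k3
  have L1 := T.ok.L1 k
  exact ⟨T.pt.co.mono _ _ _ _ a1 (le_mul_of_one_le_left (mul_nonneg (by positivity)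
    k2.nonneg) (one_le_pow₀ (T.ok.Xr1 C k))), a2, a3⟩

/-- the same setting on a translated track -/
theorem trl (r : G.Trl c c' v j J) : G.Tk w d D C M c' b J j ω p l U U' := by
  refine { T with tr := (T.pt.trl r).tr, ld := fun k h1 h2 => ?_ }
  have e : rc (G.L k) (c' (k + 1)) = rc (G.L k) (c (k + 1)) := by
    rw [← r.1 (k + 1) (by omega) h2, r.2 k h1 h2]
    exact (rc_add_smul _ _ _).symm
  rw [jl, e]
  exact T.ld k h1 h2

/-- a letter has the same symbols on a translated track -/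
theorem ys_trl (r : G.Trl c c' v j J) (Y : Lq) (h1 : j ≤ k) (h2 : k ≤ J) :
    G.ys w d D C c' b J j p Y k = G.ys w d D C c b J j p Y k := by
  have e := T.ok.jr_tp (J := J) (D := D) (b := b) (c' J) (v J) Y
  rw [r.1 J T.hj.le le_rfl] at e
  have := (T.pt.jr r le_rfl e k h1 h2).2.2.1
  rw [ys, ys, zq, zq, ls, ls, this]

variable (J1 : G.Tj D R δ J)
include J1

/-- the symbol of a letter at the top -/
theorem tp_q (a : Top R m δ K Y.1 Y.2 σ) (m1 : 1 ≤ m) (m2 : m ≤ d) :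
    ‖G.ys w d D C c b J j p Y J‖ ≤ G.Yr d C J * (K * G.ka D C J ^ m) := by
  have h := T.ok
  have l0 := h.lH0 D J
  have x1 := h.Xr1 C J
  have k0 := h.ka0 D C J
  have K0 := a.nonneg
  obtain ⟨c1, -, c3⟩ := (h.top_cut J1 a).cut l0.le (h1 := 2 * G.lH D J) (by linarith) (by linarith)
  have a4 : (4 * G.lH D J) ^ m ≤ G.Xr C J ^ (2 * d) * G.ka D C J ^ m := by
    refine (pow_le_pow_left₀ (by positivity) (h.lH_ka (T.e J T.hj.le).2.1) m).trans ?_
    rw [mul_pow, ← pow_mul]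
    gcongr
  rw [ys, ls_top]
  refine ((T.pt.s.s1 J).bd _ _ c1 ((c3 0 (inT_zero (h.ρ60 J).le l0.le)).trans
    (top_zero a (by linarith [J1.2.1]) m1))).2.trans ?_
  calc _ ≤ G.Xr C J ^ (9 * d + 6) * (K * (G.Xr C J ^ (2 * d) * G.ka D C J ^ m)) := by
        unfold Ga; gcongr
    _ = G.Xr C J ^ (11 * d + 6) * (K * G.ka D C J ^ m) := by ring
    _ ≤ _ := mul_le_mul_of_nonneg_right (pow_le_pow_right₀ x1 (by omega)) (by positivity)

theorem ka1 (δ1 : δ ≤ 1) : G.ka D C J ≤ 1 := by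
  have := mul_le_mul GD.cG1 (T.ok.Xr1 C J) zero_le_one GD.cG_pos.le
  rw [ka, div_le_one (by linarith)]
  linarith [J1.2.1]

variable (d1 : 1 ≤ d) (a : Lt1 R δ K Y)
include d1 a

theorem ls_adm (h1 : j ≤ k) (h2 : k ≤ J) :
    ∃ y, G.zP w d D C c J j p l U k (G.ls D c b J Y k) y :=
  a.elim fun _ H => T.co.fw_adm le_rfl (T.tp_P J1 (H.mono le_rfl le_rfl (lt_add_one K).le)
    (by linarith [H.nonneg]) le_rfl d1) k h1 h2

theorem ls_lin (a' : Lt1 R δ K' Y') (t : ℂ) (h1 : j ≤ k) (h2 : k ≤ J) :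
    G.ls D c b J (Y + t • Y') k = G.ls D c b J Y k + t • G.ls D c b J Y' k := by
  obtain ⟨y, e⟩ := T.ls_adm J1 d1 a T.hj.le le_rfl
  obtain ⟨y', e'⟩ := T.ls_adm J1 d1 a' T.hj.le le_rfl
  rw [ls_top] at e e'
  rw [ls, map_add, map_smul]
  exact T.co.fw_lin le_rfl e e' t k h1 h2

theorem ys_lin (a' : Lt1 R δ K' Y') (t : ℂ) (h1 : j ≤ k) (h2 : k ≤ J) :
    G.ys w d D C c b J j p (Y + t • Y') k =
      G.ys w d D C c b J j p Y k + t • G.ys w d D C c b J j p Y' k := by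
  obtain ⟨y, e⟩ := T.ls_adm J1 d1 a h1 h2
  obtain ⟨y', e'⟩ := T.ls_adm J1 d1 a' h1 h2
  rw [ys, T.ls_lin J1 d1 a a' t h1 h2]
  exact (T.co.lin k _ _ _ _ t e e').2

theorem lv1 (h1 : j ≤ k) (h2 : k < J) :
    G.jp D c k (G.ls D c b J Y k) = G.jv b J (c J) Y k :=
  a.elim fun _ H => T.lv_ls J1 (H.mono le_rfl le_rfl (lt_add_one K).le)
    (by linarith [H.nonneg]) le_rfl d1 h1 h2

omit d1 in
theorem tb_top (δ1 : δ ≤ 1) (s z : St) :
    Tbw (G.p J).R (60 * (G.p J).ρ) (G.p J).ρ K ((G.jx J s Y).2.2 z) ∧ (G.jx J s Y).2.2 z 0 = 0 := by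
  obtain ⟨σ, H⟩ := a
  have h := T.ok
  have r0 := h.ρ0 J
  have l0 := h.lH0 D J
  have e := (h.top_cut J1 H).mono (h.lR_le J) le_rfl (h' := (G.p J).ρ) (by linarith [h.ρH D J])
    (mul_le_of_le_one_right H.nonneg (by linarith [J1.2.1]))
  simp only [jx, lS, dt]
  split_ifs
  · exact (one_smul ℂ Y.2).symm ▸ ⟨e, top_zero H (by linarith [J1.2.1]) le_rfl⟩
  · exact (zero_smul ℂ Y.2).symm ▸ ⟨(Tbw.zero _ _ _).mono le_rfl le_rfl le_rfl H.nonneg, rfl⟩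

omit d1 in
theorem jx_ok (δ1 : δ ≤ 1) (s : St) : (G.jx J s Y).Ok (G.p J) R 0 K := by
  have r0 := T.ok.ρ0 J
  have t := T.tb_top J1 a δ1 s
  obtain ⟨σ, H⟩ := a
  exact ⟨fun _ _ _ => norm_zero.le, fun _ => H.lt.smul _, fun x U => (norm_mul_le_of_le
    (show ‖dt _ s x‖ ≤ 1 by unfold dt; split_ifs <;> simp) (H.bd U)).trans_eq (one_mul K),
    _, _, _, fun x => ⟨by
      simpa only [(t x).2, sub_zero] using (t x).1.ps r0 (by linarith) r0 (by linarith) 6,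
      (t x).1.meas⟩⟩

omit d1 in
theorem sz_top (δ1 : δ ≤ 1) (s : St) :
    G.Sz J (G.Q J ^ 100 * K * G.bb J) (G.Q J ^ 100 * K * G.bb J) (G.Q J ^ 100)⁻¹
      (G.jv b J s Y J).1 (G.jv b J s Y J).2 := by
  have h := T.ok
  have o := T.jx_ok J1 a δ1 s
  rw [jv_top]
  obtain ⟨κ, k1, k2⟩ : ∃ κ, KM (G.p J) (G.N J) κ (G.xv b J (G.jx J s Y)).2 ∧
      kN (G.p J) (G.N J) κ K := by
    rcases a.nn.eq_or_lt with rfl | K0
    · have e : (G.jx J s Y).2.1 = 0 := funext₂ fun x U => norm_le_zero_iff.1 (o.bd x U)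
      have e' : (G.xv b J (G.jx J s Y)).2 = 0 := by
        funext Z q U
        have : (G.jx J s Y).1 = 0 := rfl
        simp [xv, xS, dA, xK, e, this]
      exact ⟨0, e' ▸ km_zero, fun _ _ => le_rfl, fun _ => by simp⟩
    · simpa using (h.topS (n := 0) (T.e J T.hj.le).1.1 (Nat.zero_le _)
        (by have := (T.t.gd J le_rfl).tz.v; rwa [zz_top] at this) (J1.1.trans (h.lR_le J)) K0
        (fun x μ ν => (o.pl x μ ν).trans (by have := h.b0 J; positivity)) o.lt o.bd).imp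
          fun _ q => And.intro q.1 (kN_pA (kN_up q.2))
  refine h.sz_of (fun z => ?_) k1 k2
  have : (G.xv b J (G.jx J s Y)).1 z = (G.jx J s Y).2.2 z := by
    funext B
    simp [xv, xP, jx, lS, Pos.sL]
  exact this ▸ T.tb_top J1 a δ1 s z

/-- admissible radii of a letter -/
theorem rxA (δ1 : δ ≤ 1) (ho : j ≤ o) (r0 : ∀ k, 0 ≤ ρ k) (e1 : G.QA A J ^ 323 * (ρ J * K) ≤ 1)
    (e2 : ∀ k, o ≤ k → k < J → ∃ x y, G.zP w d D C c J j p l U k (G.ls D c b J Y k) y ∧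
      ‖G.ys w d D C c b J j p Y k‖ ≤ x ∧ G.QA A k ^ 344 * (ρ k * (x + y)) ≤ 1) :
    G.RxA A b J o R ρ (G.jx J (c J) Y) := by
  have q := T.ok.QA1 A J
  refine ⟨⟨0, K, T.jx_ok J1 a δ1 _, by have := T.ok.b0 J; rw [mul_zero]; positivity,
    (le_mul_of_one_le_left (mul_nonneg (r0 J) a.nn) (one_le_pow₀ (by linarith))).trans e1⟩,
    fun k h1 h2 => ?_⟩
  rcases h2.eq_or_lt with rfl | h2
  · exact T.ok.szA_of (T.sz_top J1 a δ1 _) (r0 _) e1
  · obtain ⟨x, y, p1, p2, p3⟩ := e2 k h1 h2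
    have := T.szA (ho.trans h1) p1 p2 (r0 k) p3
    rwa [T.lv1 J1 d1 a (ho.trans h1) h2] at this

end Tk

/-- majorants of translated activities -/
theorem km_tr {p pw : Pa} {n : ℕ} {z : St} {m m' : Mj} {H H' : Ac} {θ : ℝ} (hn : Odd n)
    (h : KM p n m H) (h' : KM p n m' H') (a : kN pw n m θ) (a' : ∀ X c, 0 ≤ m' X c)
    (e : ∀ o ∈ lps (box (n / 2)), H' o.1 o.2 = trA n z H o.1 o.2) :
    ∃ m, KM p n m H' ∧ kN pw n m θ := by
  have inj : ∀ o ∈ lps (box (n / 2)), Set.InjOn (trS n z) o.2 := fun o ho C h1 C' h2 =>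
    have s := fun C hC => ((mem_fams.1 (mem_lps.1 ho).2.2).1 C hC).trans (mem_lps.1 ho).1
    Sh.trS_inj hn z (mem_coe.2 (mem_powerset.2 (s C h1))) (mem_coe.2 (mem_powerset.2 (s C' h2)))
  refine ⟨fun X c => if (⟨X, c⟩ : LP St) ∈ lps (box (n / 2)) then
    m (trS n z X) (c.image (trS n z)) else m' X c, ⟨h'.meas, h'.per, h'.dep, h'.gi,
      fun X c V hV => ?_⟩, fun X c => ?_, fun x => ?_⟩
  · split_ifs with ho
    · have s := fun C hC => ((mem_fams.1 (mem_lps.1 ho).2.2).1 C hC).trans (mem_lps.1 ho).1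
      have pV := (Mx.per_pc n V).sh (-z)
      have r : Rg (c.image (trS n z)) (sh (-z) (pc n V)) = Rg c V := by
        rw [Rg, sum_image (inj _ ho)]
        refine sum_congr rfl fun C hC => ?_
        rw [trS, sum_image ((In.sh_inj hn z).mono (s C hC))]
        refine sum_congr rfl fun x _ => (Sh.fs_tp pV z x).trans ?_
        rw [sh_sh, Sh.pc_per hV]
        simp [sh_zero]
      have := h.bd (trS n z X) (c.image (trS n z)) _ pV
      rw [r] at this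
      exact (congrArg norm (congrFun (e _ ho) V)).trans_le this
    · exact h'.bd X c V hV
  · dsimp only
    split_ifs
    exacts [a.1 _ _, a' _ _]
  · refine le_trans ?_ (a.2 (rc n (x + z)))
    have w : ∀ o ∈ lps (box (n / 2)), wgt pw n o.1 o.2 =
        wgt pw n (Sh.trP n z o).1 (Sh.trP n z o).2 := fun o ho => by
      simp only [wgt, Sh.trP]
      rw [sum_image (inj o ho)]
      simp only [trS, tau_sh]
    rw [sum_congr rfl (g := fun o => m (Sh.trP n z o).1 (Sh.trP n z o).2 *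
      wgt pw n (Sh.trP n z o).1 (Sh.trP n z o).2) fun o ho => by
        rw [← w o (mem_filter.1 ho).1]
        exact congrArg (· * _) (if_pos (mem_filter.1 ho).1),
      ← sum_image (f := fun o : LP St => m o.1 o.2 * wgt pw n o.1 o.2)
        ((Sh.trP_inj hn z).mono (coe_subset.2 (filter_subset _ _)))]
    refine sum_le_sum_of_subset_of_nonneg (image_subset_iff.2 fun o ho => mem_filter.2
      ⟨Sh.trP_mem hn (mem_filter.1 ho).1 z, mem_image_of_mem _ (mem_filter.1 ho).2⟩)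
      fun o _ _ => mul_nonneg (a.1 _ _) (exp_pos _).le

/-- the size of a top state does not depend on the site -/
theorem Ok.zP_tr (h : G.Ok) {z : St} {φ : Fld → ℂ} {H' : Ac}
    (e : ∀ o ∈ lps (box (G.N J / 2)), H' o.1 o.2 = trA (G.N J) z H o.1 o.2)
    (a : G.zP w d D C c J j p l U J (0, 0, φ, H) y)
    (a' : G.zP w d D C c' J j p l U J (0, 0, φ, H') x) :
    G.zP w d D C c' J j p l U J (0, 0, φ, H') y := by
  have o := h.ag_ok D c J
  have y0 := fun i => div_nonneg (Ag.P.nn o a) (o.Wp i).le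
  obtain ⟨m, k1, k2⟩ := a.K
  obtain ⟨m', k1', k2'⟩ := a'.K
  exact ⟨fun _ _ => Tf.zero (y0 _), fun _ _ => Tf.zero (y0 _), a.z, a.bd, a.tb, a.l,
    km_tr (h.N_odd J) k1 k1' k2 k2'.1 e, a'.s⟩

theorem tp_fl (s : St) (t : β → ℂ) :
    ∑ a, t a • ((G.ka D C J : ℂ) ^ n a)⁻¹ • G.tp D b J s (X a) = G.tp D b J s (G.fl D C J n X t) := by
  simp only [fl, Fintype.linearCombination_apply, map_sum, map_smul]

namespace Fk

variable (F : G.Fk w d D C M c b J j ω p l U U' R δ K n X)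
include F

theorem trl (r : G.Trl c c' v j J) : G.Fk w d D C M c' b J j ω p l U U' R δ K n X := by
  have T := F.T.trl r
  have ad : ∀ a, ∃ y, G.zP w d D C c' J j p l U J
      (((G.ka D C J : ℂ) ^ n a)⁻¹ • G.tp D b J (c' J) (X a)) y := fun a => by
    obtain ⟨m1, m2, σ, H⟩ := F.top a
    exact ⟨_, by simpa only [zero_add] using (T.co.lin J _ _ _ _ ((G.ka D C J : ℂ) ^ n a)⁻¹
      (T.co.zero J) (T.tp_P F.J1 H F.K0 m1 m2)).1⟩
  have jr := fun Y => r.1 J T.hj.le le_rfl ▸ T.ok.jr_tp (J := J) (D := D) (b := b) (c' J) (v J) Y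
  have q : ∀ a, G.zq w d D C J j p J (((G.ka D C J : ℂ) ^ n a)⁻¹ • G.tp D b J (c' J) (X a)) =
      G.zq w d D C J j p J (((G.ka D C J : ℂ) ^ n a)⁻¹ • G.tp D b J (c J) (X a)) := fun a => by
    rw [zq, zq, ← map_smul, ← map_smul, (jr _).2.2.1]
  refine ⟨T, F.J1, F.δ1, F.d1, F.K0, F.top, ⟨T.co, F.fm.hj, F.fm.M1, ad, fun t => ?_,
    by simpa only [q] using F.fm.inj, by simpa only [q] using F.fm.span, F.fm.num⟩, fun t => ?_⟩
  · choose y hy using ad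
    have a := F.fm.top t
    have a' := (T.co.sum univ t _ y hy).1
    simp only [q]
    rw [tp_fl] at a a' ⊢
    exact T.ok.zP_tr (jr _).2.2.2 a a'
  · rw [F.T.ys_trl r _ T.hj.le le_rfl]
    exact F.s1 t

/-- the letters of the frame -/
theorem lt1 (t : β → ℂ) : Lt1 R δ (M * K / G.ka D C J ^ d *
    ‖G.ys w d D C c b J j p (G.fl D C J n X t) J‖) (G.fl D C J n X t) := by
  have k0 := F.T.ok.ka0 D C J
  have k1 := F.T.ka1 F.J1 F.δ1
  have K0 := F.K0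
  have a := Lt1.sum (R := R) (δ := δ) univ
    (Y := fun a => t a • ((G.ka D C J : ℂ) ^ n a)⁻¹ • X a) fun a => by
      obtain ⟨m1, -, σ, H⟩ := F.top a
      exact ((lt1_of H m1 F.δ1).smul _).smul (t a)
  rw [fl, Fintype.linearCombination_apply]
  refine a.mono le_rfl le_rfl ?_
  calc _ ≤ ∑ a, ‖t a‖ * (K / G.ka D C J ^ d) := sum_le_sum fun a _ => by
        rw [norm_inv, norm_pow, Complex.norm_real, Real.norm_of_nonneg k0.le, inv_mul_eq_div]
        gcongr ‖t a‖ * ?_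
        exact div_le_div_of_nonneg_left K0.le (by positivity)
          (pow_le_pow_of_le_one k0.le k1 (F.top a).2.1)
    _ = (∑ a, ‖t a‖) * (K / G.ka D C J ^ d) := (sum_mul ..).symm
    _ ≤ M * ‖G.ys w d D C c b J j p (G.fl D C J n X t) J‖ * (K / G.ka D C J ^ d) := by
        gcongr; exact F.s1 t
    _ = _ := by rw [fl, Fintype.linearCombination_apply]; ring

theorem lv (t : β → ℂ) (h1 : j ≤ k) (h2 : k < J) :
    G.jp D c k (G.ls D c b J (G.fl D C J n X t) k) = G.jv b J (c J) (G.fl D C J n X t) k :=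
  F.T.lv1 F.J1 F.d1 (F.lt1 t) h1 h2

theorem cone (t : β → ℂ) (h1 : j ≤ k) (h2 : k ≤ J) :
    G.zP w d D C c J j p l U k (G.ls D c b J (G.fl D C J n X t) k)
      (M * ‖G.ys w d D C c b J j p (G.fl D C J n X t) k‖) := by
  simpa only [st_ls, ys] using (F.fm.cone t h1 h2).2.1

/-- growth towards the top -/
theorem up (t : β → ℂ) (h1 : j ≤ k) (h2 : k ≤ i) (h3 : i ≤ J) :
    ‖G.ys w d D C c b J j p (G.fl D C J n X t) i‖ ≤ G.Pw d C k i * (G.rt i k : ℝ) ^ d *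
      ‖G.ys w d D C c b J j p (G.fl D C J n X t) k‖ := by
  have a := F.fm.up t h1 h2 h3
  simp only [st_ls] at a
  refine a.trans (mul_le_mul_of_nonneg_right ?_ (norm_nonneg _))
  rw [Pw, ← F.T.ok.rt_prod h2, ← prod_pow, ← prod_mul_distrib]
  refine prod_le_prod (fun m _ => ?_) fun m _ => ?_ <;>
    have := F.T.ok.Yr1 d C m
  · positivity
  · nlinarith [show (0 : ℝ) ≤ (G.L m : ℝ) ^ d by positivity]

/-- growth towards the bottom -/
theorem dn (t : β → ℂ) (h1 : j ≤ k) (h2 : k ≤ i) (h3 : i ≤ J) :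
    ‖G.ys w d D C c b J j p (G.fl D C J n X t) k‖ ≤ G.Pw d C k i *
      ‖G.ys w d D C c b J j p (G.fl D C J n X t) i‖ := by
  have y1 := F.T.ok.Yr1 d C
  have M1 := F.T.M1
  have a := F.fm.dn (a' := G.Yr d C) (fun m e1 e2 x _ => F.T.jA_le e1 e2 x)
    (fun m => by linarith [y1 m]) t h1 h2 h3
  simp only [st_ls] at a
  refine a.trans (mul_le_mul_of_nonneg_right (prod_le_prod (fun m _ => ?_) fun m hm => ?_)
    (norm_nonneg _)) <;> have := y1 m
  · positivity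
  · have L1 := F.T.ok.L1 m
    have e := F.T.MY (h1.trans (mem_Ico.1 hm).1)
    have : 2 * M * (G.Yr d C m / (G.L m : ℝ) ^ (D + 2)) ≤ 1 := by
      rw [← mul_div_assoc, div_le_one (by positivity)]
      exact le_trans (by nlinarith) (le_self_pow₀ (by linarith) (by omega))
    linarith

/-- letters are determined by their symbols at any level -/
def eqv (h1 : j ≤ k) (h2 : k ≤ J) : (β → ℂ) ≃ₗ[ℂ] W0 w d := F.fm.eqv h1 h2

theorem eqv_val (h1 : j ≤ k) (h2 : k ≤ J) (t : β → ℂ) :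
    (F.eqv h1 h2 t : SyC w d) = G.ys w d D C c b J j p (G.fl D C J n X t) k := by
  rw [ys, ← st_ls]; rfl

/-- admissible radii of the letters of the frame -/
theorem rxA (t : β → ℂ) (ho : j ≤ o) (r0 : ∀ k, 0 ≤ ρ k)
    (e1 : G.QA A J ^ 324 * (ρ J * (K / G.ka D C J ^ d *
      ‖G.ys w d D C c b J j p (G.fl D C J n X t) J‖)) ≤ 1)
    (e2 : ∀ k, o ≤ k → k < J →
      G.QA A k ^ 345 * (ρ k * ‖G.ys w d D C c b J j p (G.fl D C J n X t) k‖) ≤ 1) :
    G.RxA A b J o R ρ (G.jx J (c J) (G.fl D C J n X t)) := by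
  have h := F.T.ok
  have M1 := F.T.M1
  have q : ∀ k, j ≤ k → 1 + M ≤ G.QA A k := fun k e => by
    nlinarith [F.T.MY e, h.Yr1 d C k, h.LQ k, h.QA_ge A k]
  refine F.T.rxA F.J1 F.d1 (F.lt1 t) F.δ1 ho r0 (le_trans ?_ e1) fun k a1 a2 =>
    ⟨_, _, F.cone t (ho.trans a1) a2.le, le_rfl, le_trans ?_ (e2 k a1 a2)⟩
  · have := q J F.T.hj.le
    have := h.ka0 D C J
    have := F.K0
    have := r0 J
    have := h.QA0 A J
    calc _ = G.QA A J ^ 323 * M * (ρ J * (K / G.ka D C J ^ d *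
          ‖G.ys w d D C c b J j p (G.fl D C J n X t) J‖)) := by ring
      _ ≤ _ := by rw [pow_succ _ 323]; gcongr; linarith
  · have := q k (ho.trans a1)
    have := r0 k
    have := h.QA0 A k
    calc _ = G.QA A k ^ 344 * (1 + M) *
          (ρ k * ‖G.ys w d D C c b J j p (G.fl D C J n X t) k‖) := by ring
      _ ≤ _ := by rw [pow_succ _ 344]; gcongr

/-- completeness for a state which enters at the level `i` -/
theorem cmp (h1 : j ≤ o) (h2 : o ≤ i) (h3 : i ≤ J) (x0 : 0 < x)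
    (a : G.zP w d D C c J j p l U i u x) (hx : ‖G.zq w d D C J j p i u‖ ≤ x) : ∃ t,
    G.ys w d D C c b J j p (G.fl D C J n X t) o = G.zq w d D C J j p o (G.jF D c b J u i o) ∧
      ‖G.ys w d D C c b J j p (G.fl D C J n X t) i‖ ≤ 3 * x ∧ ∀ k, o ≤ k → k ≤ i →
        G.zP w d D C c J j p l U k (G.jF D c b J u i k - G.ls D c b J (G.fl D C J n X t) k)
          (8 * M * (G.Pw d C k i / (G.rt i k : ℝ) ^ (d + 1) * x)) ∧
        ‖G.zq w d D C J j p k (G.jF D c b J u i k - G.ls D c b J (G.fl D C J n X t) k)‖ ≤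
          2 * (G.Pw d C k i / (G.rt i k : ℝ) ^ (d + 1) * x) := by
  have h := F.T.ok
  have y1 := h.Yr1 d C
  have L1 := h.L1
  obtain ⟨t, a1, a2, a3⟩ := F.fm.compl (w := fun k => 4 * (G.Yr d C k / (G.L k : ℝ) ^ (d + 1)))
    h1 h2 h3 (fun k => by have := y1 k; have := L1 k; positivity)
    (fun k e1 e2 => ⟨le_rfl, by linarith [(F.T.num (h1.trans e1)).1]⟩) x0 a hx
  simp only [st_ls] at a1 a2 a3
  refine ⟨t, a1, a2, fun k e1 e2 => ?_⟩
  have e : G.Pw d C k i / (G.rt i k : ℝ) ^ (d + 1) =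
      ∏ m ∈ Ico k i, 4 * (G.Yr d C m / (G.L m : ℝ) ^ (d + 1)) := by
    simp only [Pw, ← h.rt_prod e2, ← prod_pow, ← prod_div_distrib, mul_div_assoc]
  rw [e]
  exact a3 k e1 e2

/-- the direction of the rest -/
theorem jp_cmp (h3 : i < J) (a : G.zP w d D C c J j p l U i u x) (t : β → ℂ) (h1 : j ≤ k)
    (h2 : k ≤ i) : G.jp D c k (G.jF D c b J u i k - G.ls D c b J (G.fl D C J n X t) k) =
      G.tn b J (G.jv b J (c J) (-G.fl D C J n X t) i + G.jp D c i u) i k := by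
  have hi := h1.trans h2
  have ng : ∀ k, j ≤ k → k ≤ J → G.ls D c b J (G.fl D C J n X (-t)) k =
      -G.ls D c b J (G.fl D C J n X t) k := fun k e1 e2 => by
    have := F.fm.st_lin 0 t (-1) e1 e2
    rwa [F.fm.st_zero e1 e2, zero_add, zero_add, neg_one_smul, neg_one_smul, st_ls, st_ls] at this
  have a' := F.cone (-t) hi h3.le
  have f := F.T.co.fw_lin h3.le a a' 1 k h1 h2
  have g := F.T.pt.flow h3.le (F.T.co.lin i _ _ _ _ 1 a a').1 k h1 h2
  rw [one_smul] at f g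
  rw [jp_add, F.lv (-t) hi h3, map_neg, add_comm (G.jp D c i u)] at g
  rw [← g, ← map_neg, jF, jF, f, one_smul, sub_eq_add_neg, ← ng k h1 (h2.trans h3.le)]
  exact congrArg (fun z => G.jp D c k (_ + z)) (Cok.fw_fw _ _ h3.le k h2).symm

/-- completeness for an activity which enters at the level `i` -/
theorem cmpK (h1 : j ≤ o) (h2 : o ≤ i) (h3 : i < J) (θ0 : 0 < θ) (k1 : KM (G.p i) (G.N i) κ H)
    (k2 : kN (G.pA (D + 7) i) (G.N i) κ θ) (k3 : KS (G.N i) (c i) (G.L i * G.D0 i) H) : ∃ t,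
    G.ys w d D C c b J j p (G.fl D C J n X t) o =
        G.zq w d D C J j p o (G.jF D c b J (0, 0, 0, H) i o) ∧
      ‖G.ys w d D C c b J j p (G.fl D C J n X t) i‖ ≤ 3 * (G.jW D i * θ) ∧
      ∀ k, o ≤ k → k ≤ i → ∀ N, N = G.Q k ^ 122 *
        (G.Pw d C k i / (G.rt i k : ℝ) ^ (d + 1) * (G.jW D i * θ)) * G.bb k →
        G.Sz k N N (G.Q k ^ 100)⁻¹
          (G.tn b J (G.jv b J (c J) (-G.fl D C J n X t) i + (0, H)) i k).1
          (G.tn b J (G.jv b J (c J) (-G.fl D C J n X t) i + (0, H)) i k).2 := by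
  have h := F.T.ok
  obtain ⟨a1, a2, a3⟩ := F.T.act k1 k2 k3
  have x0 : 0 < G.jW D i * θ := by have := h.L1 i; unfold jW; positivity
  obtain ⟨t, b1, b2, b3⟩ := F.cmp h1 h2 h3.le x0 a1 (by rw [a2, norm_zero]; exact x0.le)
  refine ⟨t, b1, b2, fun k e1 e2 N hN => ?_⟩
  have hk := h1.trans e1
  obtain ⟨z, hz⟩ : ∃ z, z = G.Pw d C k i / (G.rt i k : ℝ) ^ (d + 1) * (G.jW D i * θ) := ⟨_, rfl⟩
  have z0 : 0 ≤ z := by have := h.Pw1 d C k i; rw [hz]; positivity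
  obtain ⟨c1, c2⟩ := b3 k e1 e2
  rw [← hz] at c1 c2 hN
  have s := F.T.sz hk (F.T.co.mono _ _ _ ((G.Q k - 2) * z) c1 (mul_le_mul_of_nonneg_right
    (by nlinarith [F.T.MY hk, h.Yr1 d C k, h.LQ k, F.T.M1]) z0)) c2
  rw [F.jp_cmp h3 a1 t hk e2, a3] at s
  rwa [show N = G.Q k ^ 121 * (2 * z + (G.Q k - 2) * z) * G.bb k by rw [hN]; ring]

/-- completeness for letters -/
theorem cmpT (h1 : j ≤ o) (h2 : o ≤ J) (x0 : 0 < x) (a : Lt1 R δ K' Y)
    (a1 : G.zP w d D C c J j p l U J (G.tp D b J (c J) Y) x)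
    (hx : ‖G.ys w d D C c b J j p Y J‖ ≤ x) : ∃ t,
    G.ys w d D C c b J j p (G.fl D C J n X t) o = G.ys w d D C c b J j p Y o ∧
      ‖G.ys w d D C c b J j p (G.fl D C J n X t) J‖ ≤ 3 * x ∧ ∀ k, o ≤ k → k ≤ J →
        G.zP w d D C c J j p l U k (G.ls D c b J (Y - G.fl D C J n X t) k)
          (8 * M * (G.Pw d C k J / (G.rt J k : ℝ) ^ (d + 1) * x)) ∧
        ‖G.ys w d D C c b J j p (Y - G.fl D C J n X t) k‖ ≤
          2 * (G.Pw d C k J / (G.rt J k : ℝ) ^ (d + 1) * x) := by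
  obtain ⟨t, b1, b2, b3⟩ := F.cmp h1 h2 le_rfl x0 a1 (by rwa [ys, ls_top] at hx)
  refine ⟨t, b1, b2, fun k e1 e2 => ?_⟩
  have e := F.T.ls_lin F.J1 F.d1 a (F.lt1 t) (-1) (h1.trans e1) e2
  rw [neg_one_smul, neg_one_smul, ← sub_eq_add_neg, ← sub_eq_add_neg] at e
  rw [ys, e]
  exact b3 k e1 e2

end Fk

end Gl

end Pool.Agent.Lib.MP_7f377f_mp.RG.Q4.En
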