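import Pool.Agent.Lib.MP_7f377f_mp.G.ZfD

/-! The Wick algebra: the exponential of a second order operator with constant coefficients on
polynomials, integration by parts, covariance and derivatives with respect to the kernel. -/

noncomputable section

namespace Pool.Agent.Lib.MP_7f377f_mp.Zf

open MvPolynomial Function

set_option linter.unusedSectionVars false

variable {σ τ K : Type} [Field K] {A B : σ → σ → K} {P Q : MvPolynomial σ K} {s : Finset σ}

/-- the derivation with constant coefficients `c` -/
def D (c : σ → K) : Derivation K (MvPolynomial σ K) (MvPolynomial σ K) := mkDerivation K fun q => C (c q)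

@[simp] theorem D_X (c : σ → K) (q : σ) : D c (X q) = C (c q) := mkDerivation_X _ _ _

theorem D_add (c c' : σ → K) : D (fun q => c q + c' q) = D c + D c' := derivation_ext fun q => by simp

theorem D_smul (a : K) (c : σ → K) : D (fun q => a * c q) = a • D c :=
  derivation_ext fun q => by simp [smul_eq_C_mul]

theorem D_single [DecidableEq σ] (q : σ) : D (Pi.single q (1 : K)) = pderiv q :=
  derivation_ext fun r => by by_cases h : r = q <;> simp [h]

theorem D_sum (c : σ → K) (h : P.vars ⊆ s) : D c P = ∑ q ∈ s, c q • pderiv q P := by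
  classical
  have e : ∀ (f : σ → Derivation K (MvPolynomial σ K) (MvPolynomial σ K)) Q (s : Finset σ),
      (∑ q ∈ s, f q) Q = ∑ q ∈ s, f q Q :=
    fun f Q s => by induction s using Finset.induction_on <;> simp_all
  have : D c P = (∑ q ∈ s, c q • pderiv (R := K) q) P :=
    derivation_eq_of_forall_mem_vars fun i hi => by
      simp [e, Pi.single_apply, h hi, smul_eq_C_mul]
  simpa [e] using this

theorem D_congr {c c' : σ → K} (h : ∀ q ∈ P.vars, c q = c' q) : D c P = D c' P :=
  derivation_eq_of_forall_mem_vars fun i hi => by simp [h i hi]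

theorem D_comm (c c' : σ → K) (P : MvPolynomial σ K) : D c (D c' P) = D c' (D c P) := by
  have : ⁅D c, D c'⁆ = 0 := derivation_ext fun q => by simp [Derivation.commutator_apply]
  simpa [Derivation.commutator_apply, sub_eq_zero] using DFunLike.congr_fun this P

theorem D_pderiv (c : σ → K) (q : σ) (P : MvPolynomial σ K) : D c (pderiv q P) = pderiv q (D c P) := by
  classical rw [← D_single, D_comm]

/-- induction on the degree -/
theorem ind (S : Submodule K (MvPolynomial σ K)) (h1 : 1 ∈ S)
    (h : ∀ r Q, Q ∈ S → (∀ c, D c Q ∈ S) → X r * Q ∈ S) (P : MvPolynomial σ K) : P ∈ S := by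
  set F : Submodule K (MvPolynomial σ K) := .span K (insert 1 (Set.range X))
  have f1 : (1 : MvPolynomial σ K) ∈ F := Submodule.subset_span (.inl rfl)
  have fD : ∀ c, ∀ b ∈ F, D c b ∈ F := fun c b hb => by
    induction hb using Submodule.span_induction with
    | mem x hx =>
      rcases hx with rfl | ⟨q, rfl⟩
      · simp
      · simpa [smul_eq_C_mul] using F.smul_mem (c q) f1
    | zero => simp
    | add x y _ _ a b => simpa using F.add_mem a b
    | smul a x _ b => simpa using F.smul_mem a b
  have pD : ∀ c n, ∀ b ∈ F ^ n, D c b ∈ F ^ n := fun c n => by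
    induction n with
    | zero => simp [Submodule.mem_one]
    | succ n ih =>
      intro b hb
      rw [pow_succ] at hb ⊢
      refine Submodule.mul_induction_on hb (fun x hx y hy => ?_) fun x y a b => by
        simpa using Submodule.add_mem _ a b
      rw [Derivation.leibniz, smul_eq_mul, smul_eq_mul, mul_comm y]
      exact Submodule.add_mem _ (Submodule.mul_mem_mul hx (fD c y hy))
        (Submodule.mul_mem_mul (ih x hx) hy)
  have le : ∀ n, F ^ n ≤ S := fun n => by
    induction n with
    | zero => simpa [Submodule.one_eq_span] using h1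
    | succ n ih =>
      rw [pow_succ, Submodule.mul_le]
      intro x hx y hy
      induction hy using Submodule.span_induction with
      | mem y hy =>
        rcases hy with rfl | ⟨q, rfl⟩
        · simpa using ih hx
        · exact mul_comm x _ ▸ h q x (ih hx) fun c => ih (pD c n x hx)
      | zero => simp
      | add y z _ _ a b => simpa [mul_add] using S.add_mem a b
      | smul a y _ b => simpa using S.smul_mem a b
  have mono : Monotone fun n => F ^ n := monotone_nat_of_le_succ fun n x hx => by
    simpa [pow_succ] using Submodule.mul_mem_mul hx f1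
  have : ∃ n, P ∈ F ^ n := by
    induction P using MvPolynomial.induction_on with
    | C a => exact ⟨0, by simp [Submodule.mem_one]⟩
    | add p q a b =>
      obtain ⟨m, a⟩ := a
      obtain ⟨n, b⟩ := b
      exact ⟨max m n, Submodule.add_mem _ (mono (le_max_left _ _) a) (mono (le_max_right _ _) b)⟩
    | mul_X p q a =>
      obtain ⟨m, a⟩ := a
      exact ⟨m + 1, by
        simpa [pow_succ] using Submodule.mul_mem_mul a (Submodule.subset_span (.inr ⟨q, rfl⟩))⟩
  exact this.elim fun n hn => le n hn

theorem la_eq (A : σ → σ → K) (h : P.vars ⊆ s) :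
    ∑ᶠ p, D (A p) (pderiv p P) = ∑ p ∈ s, D (A p) (pderiv p P) :=
  finsum_eq_sum_of_support_subset _ fun p hp => by
    by_contra e
    exact hp (by simp [pderiv_eq_zero_of_notMem_vars fun a => e (h a)])

/-- the operator `∑ A p q ∂ p ∂ q` -/
def La (A : σ → σ → K) : Module.End K (MvPolynomial σ K) where
  toFun P := ∑ᶠ p, D (A p) (pderiv p P)
  map_add' P Q := by
    classical
    rw [la_eq A (vars_add_subset P Q), la_eq A (Finset.subset_union_left (s₂ := Q.vars)),
      la_eq A (Finset.subset_union_right (s₁ := P.vars))]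
    simp [Finset.sum_add_distrib]
  map_smul' a P := by
    classical
    rw [la_eq A (s := P.vars ∪ (a • P).vars) Finset.subset_union_right,
      la_eq A (Finset.subset_union_left (s₂ := (a • P).vars))]
    simp [Finset.smul_sum]

theorem La_eq (A : σ → σ → K) (h : P.vars ⊆ s) : La A P = ∑ p ∈ s, D (A p) (pderiv p P) :=
  la_eq A h

theorem La_sum (A : σ → σ → K) (h : P.vars ⊆ s) :
    La A P = ∑ p ∈ s, ∑ q ∈ s, A p q • pderiv p (pderiv q P) := by
  simp only [La_eq A h, D_pderiv, D_sum _ h, map_sum, Derivation.map_smul]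

@[simp] theorem La_C (a : K) : La A (C a) = 0 := by simp [La_eq A (vars_C (r := a)).le]

@[simp] theorem La_one : La A 1 = 0 := La_C 1

/-- the symmetrised kernel -/
def sy (A : σ → σ → K) (p q : σ) : K := A p q + A q p

theorem La_X_mul (r : σ) (Q : MvPolynomial σ K) : La A (X r * Q) = X r * La A Q + D (sy A r) Q := by
  classical
  have h : Q.vars ⊆ insert r Q.vars := Finset.subset_insert _ _
  have e : sy A r = fun q => A r q + A q r := rfl
  rw [La_eq A (s := insert r Q.vars) ((vars_mul _ _).trans (by simp [vars_X])), La_eq A h, e, D_add,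
    Derivation.add_apply, D_sum (fun q => A q r) h]
  simp [Finset.sum_add_distrib, Pi.single_apply, Finset.mul_sum, apply_ite, smul_eq_C_mul,
    mul_comm, add_left_comm]

theorem La_D (c : σ → K) (P : MvPolynomial σ K) : La A (D c P) = D c (La A P) := by
  classical
  rw [La_eq A (s := P.vars ∪ (D c P).vars) Finset.subset_union_right,
    La_eq A (s := P.vars ∪ (D c P).vars) Finset.subset_union_left, map_sum]
  simp only [← D_pderiv, D_comm c]

theorem La_pow_D (c : σ → K) (m : ℕ) (P : MvPolynomial σ K) : (La A ^ m) (D c P) = D c ((La A ^ m) P) := by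
  induction m with
  | zero => rfl
  | succ m ih => simp only [pow_succ', Module.End.mul_apply, ih, La_D]

theorem La_pow_X_mul (r : σ) (m : ℕ) (Q : MvPolynomial σ K) : (La A ^ (m + 1)) (X r * Q) =
    X r * (La A ^ (m + 1)) Q + ((m + 1 : ℕ) : K) • (La A ^ m) (D (sy A r) Q) := by
  induction m with
  | zero => simp [La_X_mul]
  | succ m ih =>
    rw [pow_succ', Module.End.mul_apply, ih, map_add, La_X_mul, map_smul, ← La_pow_D, add_assoc,
      pow_succ' _ m, Module.End.mul_apply, Module.End.mul_apply, Module.End.mul_apply]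
    push_cast
    module

theorem La_nil (A : σ → σ → K) (P : MvPolynomial σ K) : ∀ᶠ m in Filter.atTop, (La A ^ m) P = 0 := by
  refine ind ⟨⟨⟨{P | ∀ᶠ m in Filter.atTop, (La A ^ m) P = 0}, fun a b => ?_⟩, by simp⟩,
    fun c P a => ?_⟩ ?_ (fun r Q a b => ?_) P
  · exact (Filter.Eventually.and a b).mono fun m e => by simp [e.1, e.2]
  · exact Filter.Eventually.mono a fun m e => by simp [e]
  · exact (Filter.eventually_ge_atTop 1).mono fun m e => by
      obtain ⟨m, rfl⟩ := Nat.exists_eq_add_of_le' e
      simp [pow_succ]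
  · obtain ⟨M, e⟩ := Filter.eventually_atTop.1 (Filter.Eventually.and a (b (sy A r)))
    refine (Filter.eventually_ge_atTop (M + 1)).mono fun m h => ?_
    obtain ⟨m, rfl⟩ := Nat.exists_eq_add_of_le' (le_of_add_le_right h)
    simp [La_pow_X_mul, (e (m + 1) (by omega)).1, (e m (by omega)).2]

theorem ex_eq (A : σ → σ → K) (P : MvPolynomial σ K) : ∀ᶠ M in Filter.atTop,
    ∑ᶠ m : ℕ, (m.factorial : K)⁻¹ • (La A ^ m) P =
      ∑ m ∈ Finset.range M, (m.factorial : K)⁻¹ • (La A ^ m) P := by
  obtain ⟨M, e⟩ := Filter.eventually_atTop.1 (La_nil A P)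
  exact (Filter.eventually_ge_atTop M).mono fun N h =>
    finsum_eq_sum_of_support_subset _ fun m hm => by
      by_contra a
      exact hm (by simp at a; simp [e m (by omega)])

/-- the exponential of `La A` -/
def ex (A : σ → σ → K) : Module.End K (MvPolynomial σ K) where
  toFun P := ∑ᶠ m : ℕ, (m.factorial : K)⁻¹ • (La A ^ m) P
  map_add' P Q := by
    obtain ⟨M, a, b, c⟩ := ((ex_eq A P).and ((ex_eq A Q).and (ex_eq A (P + Q)))).exists
    rw [a, b, c]
    simp only [map_add, smul_add, Finset.sum_add_distrib]
  map_smul' t P := by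
    obtain ⟨M, a, b⟩ := ((ex_eq A P).and (ex_eq A (t • P))).exists
    rw [a, b]
    simp only [map_smul, Finset.smul_sum, smul_comm t, RingHom.id_apply]

theorem ex_sum (A : σ → σ → K) (P : MvPolynomial σ K) : ∀ᶠ M in Filter.atTop,
    ex A P = ∑ m ∈ Finset.range M, (m.factorial : K)⁻¹ • (La A ^ m) P := ex_eq A P

@[simp] theorem ex_one : ex A 1 = 1 := by
  obtain ⟨M, e⟩ := Filter.eventually_atTop.1 (ex_sum A 1)
  simp [e (M + 1) (by omega), Finset.sum_range_succ', pow_succ]

theorem ex_D (c : σ → K) (P : MvPolynomial σ K) : ex A (D c P) = D c (ex A P) := by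
  obtain ⟨M, a, b⟩ := ((ex_sum A P).and (ex_sum A (D c P))).exists
  simp only [a, b, La_pow_D, map_sum, Derivation.map_smul]

variable [CharZero K]

/-- integration by parts -/
theorem ex_X_mul (r : σ) (Q : MvPolynomial σ K) :
    ex A (X r * Q) = X r * ex A Q + ex A (D (sy A r) Q) := by
  obtain ⟨M, e⟩ := Filter.eventually_atTop.1
    ((ex_sum A Q).and ((ex_sum A (X r * Q)).and (ex_sum A (D (sy A r) Q))))
  rw [(e (M + 1) (by omega)).1, (e (M + 1) (by omega)).2.1, (e M le_rfl).2.2]
  simp only [Finset.sum_range_succ', La_pow_X_mul, smul_add, Finset.sum_add_distrib, mul_add,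
    Finset.mul_sum, mul_smul_comm, smul_smul, pow_zero, Module.End.one_apply]
  rw [add_right_comm]
  refine congrArg _ (Finset.sum_congr rfl fun m _ => congrArg (· • _) ?_)
  rw [Nat.factorial_succ, Nat.cast_mul, mul_inv, mul_right_comm, inv_mul_cancel₀, one_mul]
  exact Nat.cast_ne_zero.2 (by omega)

/-- the Wick functional with the two point function `sy A` -/
def E (A : σ → σ → K) : MvPolynomial σ K →ₗ[K] K := lcoeff K 0 ∘ₗ ex A

theorem E_apply (A : σ → σ → K) (P : MvPolynomial σ K) : E A P = constantCoeff (ex A P) := rfl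

theorem E_eq (A : σ → σ → K) (P : MvPolynomial σ K) :
    E A P = ∑ᶠ m : ℕ, constantCoeff ((La A)^[m] P) / m.factorial := by
  obtain ⟨M, e⟩ := Filter.eventually_atTop.1 ((ex_sum A P).and (La_nil A P))
  rw [E_apply, (e M le_rfl).1, map_sum, finsum_eq_sum_of_support_subset (s := Finset.range M)]
  · simp [Module.End.pow_apply, div_eq_inv_mul]
  · intro m hm
    by_contra a
    exact hm (by simp at a; simp [← Module.End.pow_apply, (e m a).2])

@[simp] theorem E_one : E A 1 = 1 := by simp [E_apply]

@[simp] theorem E_C (a : K) : E A (C a) = a := by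
  rw [← mul_one (C a), ← smul_eq_C_mul, map_smul, E_one, smul_eq_mul, mul_one]

/-- integration by parts -/
theorem E_X_mul (r : σ) (Q : MvPolynomial σ K) : E A (X r * Q) = E A (D (sy A r) Q) := by
  simp [E_apply, ex_X_mul]

@[simp] theorem E_X (r : σ) : E A (X r) = 0 := by simpa using E_X_mul (A := A) r 1

theorem E_X_X (r q : σ) : E A (X r * X q) = sy A r q := by simp [E_X_mul]

theorem E_unique {A : Type} [AddCommGroup A] [Module K A] {F G : MvPolynomial σ K →ₗ[K] A} (c : σ → σ → K)
    (h : F 1 = G 1) (hF : ∀ r Q, F (X r * Q) = F (D (c r) Q))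
    (hG : ∀ r Q, G (X r * Q) = G (D (c r) Q)) (P : MvPolynomial σ K) : F P = G P :=
  ind (F.eqLocus G) h (fun r Q _ b => (hF r Q).trans ((b _).trans (hG r Q).symm)) P

theorem E_congr (h : sy A = sy B) (P : MvPolynomial σ K) : E A P = E B P :=
  E_unique (sy A) (by simp) E_X_mul (h ▸ E_X_mul) P

/-- the exponential of a sum -/
theorem E_add (A B : σ → σ → K) (P : MvPolynomial σ K) : E (A + B) P = E A (ex B P) :=
  E_unique (G := E A ∘ₗ ex B) (sy (A + B)) (by simp) E_X_mul (fun r Q => by
    have : sy (A + B) r = fun q => sy A r q + sy B r q := by ext; simp [sy]; ring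
    simp [ex_X_mul, E_X_mul, this, D_add, ex_D]) P

/-- linear forms -/
def Lin (σ K : Type) [Field K] : Submodule K (MvPolynomial σ K) := .span K (Set.range X)

theorem X_mem_Lin (q : σ) : X q ∈ Lin σ K := Submodule.subset_span ⟨q, rfl⟩

theorem E_lin_mul {l : MvPolynomial σ K} (h : l ∈ Lin σ K) (Q : MvPolynomial σ K) :
    E A (l * Q) = E A (D (fun q => E A (l * X q)) Q) := by
  induction h using Submodule.span_induction with
  | mem x hx => obtain ⟨r, rfl⟩ := hx; simp only [E_X_X]; exact E_X_mul r Q
  | zero => simp [show D (fun _ : σ => (0 : K)) = 0 from derivation_ext fun q => by simp]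
  | add x y _ _ a b => simp only [add_mul, map_add, D_add, Derivation.add_apply, ← a, ← b]
  | smul t x _ a => simp only [smul_mul_assoc, map_smul, smul_eq_mul, D_smul,
      Derivation.smul_apply, ← a]

theorem D_lin {l : MvPolynomial σ K} (F : MvPolynomial σ K →ₗ[K] K) (h : l ∈ Lin σ K) :
    D (fun q => F (X q)) l = C (F l) := by
  induction h using Submodule.span_induction with
  | mem x hx => obtain ⟨r, rfl⟩ := hx; simp
  | zero => simp
  | add x y _ _ a b => simp [a, b]
  | smul t x _ a => rw [Derivation.map_smul, a, map_smul, smul_eq_C_mul, ← C_mul, smul_eq_mul]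

/-- the chain rule -/
theorem D_map (φ : MvPolynomial σ K →ₐ[K] MvPolynomial τ K) {c : τ → K} {c' : σ → K} (h : ∀ q, D c (φ (X q)) = C (c' q))
    (P : MvPolynomial σ K) : D c (φ P) = φ (D c' P) := by
  induction P using MvPolynomial.induction_on with
  | C a => simp
  | add p q a b => simp [a, b]
  | mul_X p q a => simp [a, h]

/-- covariance under linear substitutions -/
theorem E_map (φ : MvPolynomial σ K →ₐ[K] MvPolynomial τ K) (hφ : ∀ q, φ (X q) ∈ Lin τ K) {L : τ → τ → K}
    (h : ∀ r q, E L (φ (X r) * φ (X q)) = sy A r q) (P : MvPolynomial σ K) : E L (φ P) = E A P :=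
  E_unique (F := E L ∘ₗ φ.toLinearMap) (sy A) (by simp) (fun r Q => by
    simp only [LinearMap.comp_apply, AlgHom.toLinearMap_apply, map_mul]
    rw [E_lin_mul (hφ r)]
    exact congrArg _ (D_map φ (fun q => (D_lin (E L ∘ₗ LinearMap.mulLeft K (φ (X r))) (hφ q)).trans
      (congrArg _ (h r q))) Q)) E_X_mul P

theorem E_rename (f : σ → τ) (L : τ → τ → K) (P : MvPolynomial σ K) :
    E L (rename f P) = E (fun p q => L (f p) (f q)) P :=
  E_map (rename f) (fun q => by simpa using X_mem_Lin _) (fun r q => by simp [E_X_X, sy]) P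

/-- only the values of the kernel on the variables of the polynomial matter -/
theorem E_congr_vars (h : ∀ p ∈ P.vars, ∀ q ∈ P.vars, sy A p q = sy B p q) : E A P = E B P := by
  obtain ⟨Q, e⟩ := exists_rename_eq_of_vars_subset_range P (Subtype.val : P.vars → σ)
    Subtype.val_injective (by simp)
  rw [← e, E_rename, E_rename]
  exact E_congr (by ext p q; exact h _ p.2 _ q.2) Q

theorem E_X_mul_sum (r : σ) (h : Q.vars ⊆ s) :
    E A (X r * Q) = ∑ q ∈ s, sy A r q * E A (pderiv q Q) := by
  simp [E_X_mul, D_sum _ h]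

/-- the Wick functional is a polynomial in the kernel -/
theorem E_mem {Y : Type} {p : (Y → K) → Prop} (hc : ∀ a, p fun _ => a)
    (ha : ∀ f g, p f → p g → p fun y => f y + g y) (hm : ∀ f g, p f → p g → p fun y => f y * g y)
    (A : Y → σ → σ → K) (h : ∀ r q, p fun y => sy (A y) r q) (P : MvPolynomial σ K) :
    p fun y => E (A y) P := by
  classical
  refine ind ⟨⟨⟨{P | p fun y => E (A y) P}, fun a b => ?_⟩, ?_⟩, fun c P a => ?_⟩ ?_
    (fun r Q _ b => ?_) P
  · simpa using ha _ _ a b
  · simpa using hc 0
  · simpa using hm _ _ (hc c) a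
  · simpa using hc 1
  · change p _
    simp only [E_X_mul_sum r (subset_refl _)]
    induction Q.vars using Finset.induction_on with
    | empty => simpa using hc 0
    | insert q s hq ih =>
      simpa [Finset.sum_insert hq] using ha _ _ (hm _ _ (h r q) (D_single (K := K) q ▸ b _)) ih

/-- the derivative with respect to the kernel -/
theorem E_deriv {𝕜 K : Type} [NontriviallyNormedField 𝕜] [NormedField K] [NormedAlgebra 𝕜 K]
    [CharZero K] (A : 𝕜 → σ → σ → K) {B : σ → σ → K} {t : 𝕜}
    (h : ∀ p q, HasDerivAt (fun t => sy (A t) p q) (sy B p q) t) (P : MvPolynomial σ K) :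
    HasDerivAt (fun t => E (A t) P) (E (A t) (La B P)) t := by
  classical
  refine ind ⟨⟨⟨{P | HasDerivAt (fun t => E (A t) P) (E (A t) (La B P)) t}, fun a b => ?_⟩, ?_⟩,
    fun c P a => ?_⟩ ?_ (fun r Q _ b => ?_) P
  · simpa using HasDerivAt.fun_add a b
  · simpa using hasDerivAt_const t (0 : K)
  · simpa using HasDerivAt.const_mul c a
  · simpa using hasDerivAt_const t (1 : K)
  · change HasDerivAt _ _ _
    rw [La_X_mul, map_add, E_X_mul, ← La_D, add_comm]
    simp only [E_X_mul_sum r (subset_refl _), D_sum _ (subset_refl Q.vars), map_sum, map_smul,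
      ← Finset.sum_add_distrib]
    exact .fun_sum fun q _ => (h r q).fun_mul (D_single (K := K) q ▸ b _)

/-- linear derivations act as second order operators -/
theorem E_der (δ : Derivation K (MvPolynomial σ K) (MvPolynomial σ K)) (hδ : ∀ q, δ (X q) ∈ Lin σ K)
    (h : ∀ p q, E A (δ (X p * X q)) = sy B p q) (P : MvPolynomial σ K) : E A (δ P) = E A (La B P) := by
  refine ind ((E A ∘ₗ δ.toLinearMap).eqLocus (E A ∘ₗ La B)) (by simp) (fun r Q _ b => ?_) P
  have e : ⁅D (sy A r), δ⁆ = D fun q => E A (X r * δ (X q)) := derivation_ext fun q => by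
    simpa [Derivation.commutator_apply, E_X_X] using
      D_lin (E A ∘ₗ LinearMap.mulLeft K (X r)) (hδ q)
  have e' : sy B r = fun q => E A (X r * δ (X q)) + E A (δ (X r) * X q) := by
    ext q; simp [← h, mul_comm]
  have := DFunLike.congr_fun e Q
  rw [Derivation.commutator_apply, sub_eq_iff_eq_add] at this
  change E A (δ _) = E A (La B _)
  rw [La_X_mul, map_add, E_X_mul, ← La_D, e', D_add, Derivation.leibniz, smul_eq_mul, smul_eq_mul,
    map_add, E_X_mul, this, mul_comm Q, E_lin_mul (hδ r), map_add, Derivation.add_apply, map_add,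
    show E A (δ _) = E A (La B _) from b _]
  ring

/-- factorisation -/
theorem E_mul (h : ∀ p ∈ P.vars, ∀ q ∈ Q.vars, sy A p q = 0) : E A (P * Q) = E A P * E A Q := by
  obtain ⟨R, e⟩ := exists_rename_eq_of_vars_subset_range P (Subtype.val : P.vars → σ)
    Subtype.val_injective (by simp)
  have c : ∀ (r : P.vars) (R : MvPolynomial P.vars K), D (sy A r) (rename Subtype.val R) =
      rename Subtype.val (D (fun q : P.vars => sy A r q) R) :=
    fun r => D_map (rename Subtype.val) fun q => by simp
  rw [← e, mul_comm (E A _)]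
  refine E_unique (F := E A ∘ₗ LinearMap.mulRight K Q ∘ₗ (rename Subtype.val).toLinearMap)
    (G := E A Q • E A ∘ₗ (rename Subtype.val).toLinearMap) (fun r q : P.vars => sy A r q) (by simp)
    (fun r R => ?_) (fun r R => by simp [E_X_mul, c]) R
  have : D (sy A r) Q = 0 := derivation_eq_zero_of_forall_mem_vars fun q hq => by
    simp [h _ r.2 q hq]
  simp [mul_assoc, E_X_mul, c, this, mul_comm Q]

theorem D_ring {L : Type} [Field L] (f : K →+* L) (c : σ → K) (P : MvPolynomial σ K) :
    D (fun q => f (c q)) (map f P) = map f (D c P) := by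
  induction P using MvPolynomial.induction_on with
  | C a => simp
  | add p q a b => simp [a, b]
  | mul_X p q a => simp [a]

/-- change of the field -/
theorem E_ring {L : Type} [Field L] [CharZero L] (f : K →+* L) (A : σ → σ → K)
    (P : MvPolynomial σ K) : E (fun p q => f (A p q)) (map f P) = f (E A P) := by
  refine ind ⟨⟨⟨{P | E (fun p q => f (A p q)) (map f P) = f (E A P)}, fun a b => ?_⟩, by simp⟩,
    fun c P a => ?_⟩ (by simp) (fun r Q _ b => ?_) P
  · simp_all
  · change _ = _
    rw [(E A).map_smul, smul_eq_C_mul, map_mul, map_C, ← smul_eq_C_mul, map_smul, a, smul_eq_mul,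
      smul_eq_mul, map_mul]
  · change _ = _
    rw [map_mul, map_X, E_X_mul, E_X_mul, ← b, ← D_ring]
    simp only [sy, map_add]
    rfl

/-! ### The link to the definitions -/

theorem dl_eq (A : σ → σ → K) (P : MvPolynomial σ K) : dl A P = La A P :=
  finsum_congr fun p => by
    rw [D_pderiv, D_sum _ (subset_refl _), map_sum, finsum_eq_sum_of_support_subset (s := P.vars)]
    · simp
    · intro q hq
      by_contra e
      exact hq (by simp [pderiv_eq_zero_of_notMem_vars e])

theorem ep_eq (A : σ → σ → K) (P : MvPolynomial σ K) : ep A P = ex A P :=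
  finsum_congr fun m => by rw [funext (dl_eq A), Module.End.pow_apply]

theorem wk_eq (A : σ → σ → K) (P : MvPolynomial σ K) : wk A P = E (fun p q => A p q / 2) P := by
  rw [wk, ep_eq, E_apply]

theorem sy_half (h : ∀ p q, A p q = A q p) : sy (fun p q => A p q / 2) = A := by
  ext p q; simp [sy, h q p]

theorem wk_sy (A : σ → σ → K) (P : MvPolynomial σ K) : wk (sy A) P = E A P := by
  rw [wk_eq]
  exact E_congr (sy_half fun p q => add_comm _ _) P

/-- integration by parts for `wk` -/
theorem wk_X_mul (h : ∀ p q, A p q = A q p) (r : σ) (hs : Q.vars ⊆ s) :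
    wk A (X r * Q) = ∑ q ∈ s, A r q * wk A (pderiv q Q) := by
  simp only [wk_eq, E_X_mul_sum r hs, sy_half h]

end Pool.Agent.Lib.MP_7f377f_mp.Zf
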