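import Pool.Agent.Lib.MP_7f377f_mp.G.KwB
import Pool.Agent.Lib.MP_7f377f_mp.G.ZfA

/-! The Wick theorem at weak coupling for polynomials in the curvature in the comb gauge. -/

noncomputable section

namespace Pool.Agent.Lib.MP_7f377f_mp.Kw

open MeasureTheory Filter Topology Weak HS MvPolynomial Heat
open Zf (wk)
open scoped InnerProductSpace

set_option linter.unusedSectionVars false

theorem hk_neg (a b : ℕ) (t : ℝ) (n : ℤ) : hk a b t (-n) = hk b a t n := by
  have := intervalIntegral.integral_comp_neg (a := -Real.pi) (b := Real.pi)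
    fun θ : ℝ => sym a b t (-n) θ
  rw [neg_neg] at this
  rw [hk, hk, ← this]
  congr 2
  funext θ
  simp only [sym, Complex.ofReal_neg, mul_neg, neg_neg, Int.cast_neg, neg_mul]
  ring_nf

theorem K_neg {d : ℕ} (a b : Fin d → ℕ) (x : Fin d → ℤ) : K a b (-x) = K b a x := by
  simp only [K, H, Pi.neg_apply, hk_neg]

theorem kM_neg {d : ℕ} (z : Fin d → ℤ) (a b : Fin d × Fin d) : kM kk (-z) b a = kM kk z a b := by
  simp only [kM, kk, K_neg, eq_comm (a := b.2), eq_comm (a := b.1)]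
  ring

theorem wk_insert {ι : Type} [DecidableEq ι] {C : ι → ι → ℝ} (h : ∀ p q, C p q = C q p) (j : ι)
    (S : Finset ι) (hj : j ∉ S) :
    wk C (∏ i ∈ insert j S, X i) = ∑ i ∈ S, C j i * wk C (∏ l ∈ S.erase i, X l) := by
  have v : ∀ T : Finset ι, (∏ i ∈ T, X i : MvPolynomial ι ℝ).vars ⊆ T := fun T =>
    (vars_prod _).trans fun i hi => by simpa [vars_X] using hi
  rw [Finset.prod_insert hj, Zf.wk_X_mul h j (v S)]
  refine Finset.sum_congr rfl fun i hi => ?_
  rw [← Finset.mul_prod_erase S _ hi, Derivation.leibniz,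
    pderiv_eq_zero_of_notMem_vars fun e => Finset.notMem_erase i S (v _ e)]
  simp

/-- plaquettes of the infinite lattice -/
abbrev PZ (d : ℕ) : Type := (Fin d → ℤ) × Fin d × Fin d

variable {d : ℕ} [NeZero d]
variable {A : Type} [NormedRing A] [StarRing A] [NormedAlgebra ℝ A] [HS A]
variable {G : Type} [Group G] (ρ : G →* unitary A) {σ ι : Type}

/-- a component of the rescaled curvature in the comb gauge -/
def lt {L : ℕ} [NeZero L] (r : ℝ) (v : A) (p : PZ d) (U : Link d L → G) : ℝ :=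
  ⟪v, ZU ρ r (fun l => p.1 l, p.2) U⟫_ℝ

/-- the lattice Maxwell covariance -/
def cz (v : σ → A) (p : σ → PZ d) (i j : σ) : ℝ :=
  ⟪v i, v j⟫_ℝ * kM kk ((p j).1 - (p i).1) (p i).2 (p j).2

theorem cz_symm (v : σ → A) (p : σ → PZ d) (i j : σ) : cz v p i j = cz v p j i := by
  rw [cz, cz, real_inner_comm, ← kM_neg, neg_sub]

/-- quantities which are small for points at distances that are a power of the coupling -/
def Sm (e : ∀ (L : ℕ) [NeZero L], ℝ → (ι → Fin d → ℤ) → ℝ) : Prop :=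
  ∃ (C₀ : ℝ) (q : ℕ), 1 ≤ C₀ ∧ 1 ≤ q ∧ ∀ (s L : ℕ) [NeZero L] (r : ℝ) (x : ι → Fin d → ℤ), 1 ≤ s →
    C₀ * s ^ q ≤ r → r ^ 2 ≤ L → (∀ i l, (x i l).natAbs ≤ s) → |e L r x| ≤ 1 / s

variable {e e' : ∀ (L : ℕ) [NeZero L], ℝ → (ι → Fin d → ℤ) → ℝ}

theorem Sm.lin (h : Sm e) (h' : Sm e') (a : ℝ) : Sm fun L _ r x => a * e L r x + e' L r x := by
  obtain ⟨C, q, C1, q1, h⟩ := h
  obtain ⟨C', q', C1', -, h'⟩ := h'
  obtain ⟨N, hN⟩ := exists_nat_ge (|a| + 1)
  have N1 : (1 : ℝ) ≤ N := le_trans (le_add_of_nonneg_left (abs_nonneg a)) hN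
  have N1' : 1 ≤ N := by exact_mod_cast N1
  have p1 : (1 : ℝ) ≤ N ^ (q + q') := one_le_pow₀ N1
  refine ⟨(C + C') * N ^ (q + q'), q + q', by nlinarith, by omega, fun s L _ r x s1 hr hL hx => ?_⟩
  have s1' : (1 : ℝ) ≤ s := by exact_mod_cast s1
  have k : ∀ (D : ℝ) (n : ℕ), 0 ≤ D → D ≤ C + C' → n ≤ q + q' → D * ((N * s : ℕ) : ℝ) ^ n ≤ r :=
    fun D n D0 h1 h2 => le_trans (by
      rw [mul_assoc, ← mul_pow, Nat.cast_mul]
      exact mul_le_mul h1 (pow_le_pow_right₀ (by nlinarith) h2) (by positivity) (by linarith)) hr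
  have b : ∀ i l, (x i l).natAbs ≤ N * s := fun i l => (hx i l).trans (Nat.le_mul_of_pos_left _ N1')
  have a1 := h _ L r x (Nat.mul_pos N1' s1) (k C q (by linarith) (by linarith) (by omega)) hL b
  have a2 := h' _ L r x (Nat.mul_pos N1' s1) (k C' q' (by linarith) (by linarith) (by omega)) hL b
  refine (abs_add_le _ _).trans ?_
  rw [abs_mul]
  refine (add_le_add (mul_le_mul_of_nonneg_left a1 (abs_nonneg a)) a2).trans ?_
  rw [← add_one_mul, mul_one_div, Nat.cast_mul, div_le_div_iff₀ (by positivity) (by positivity),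
    one_mul]
  gcongr

theorem Sm.zero : Sm (ι := ι) (d := d) fun _ _ _ _ => 0 :=
  ⟨1, 1, le_rfl, le_rfl, fun _ _ _ _ _ _ _ _ _ => by simp⟩

theorem Sm.sum {κ : Type} (S : Finset κ) (a : κ → ℝ)
    {e : κ → ∀ (L : ℕ) [NeZero L], ℝ → (ι → Fin d → ℤ) → ℝ} (h : ∀ j ∈ S, Sm (e j)) :
    Sm fun L _ r x => ∑ j ∈ S, a j * e j L r x := by
  classical
  induction S using Finset.induction_on with
  | empty => exact Sm.zero
  | insert j S hj ih =>
    simp only [Finset.sum_insert hj]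
    exact (h j (Finset.mem_insert_self _ _)).lin (ih fun i hi => h i (Finset.mem_insert_of_mem hi)) _

variable [TopologicalSpace G] [IsTopologicalGroup G] [CompactSpace G]
  [SecondCountableTopology G] [MeasurableSpace G] [BorelSpace G] (μ : Measure G)
  [μ.IsHaarMeasure] [IsProbabilityMeasure μ]

theorem continuous_lt (hρ : Continuous ρ) {L : ℕ} [NeZero L] (r : ℝ) (v : A) (p : PZ d) :
    Continuous (lt (L := L) ρ r v p) := continuous_const.inner (continuous_ZU ρ hρ r _)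

theorem continuous_ev (hρ : Continuous ρ) {L : ℕ} [NeZero L] (r : ℝ) (v : σ → A) (p : σ → PZ d)
    (P : MvPolynomial σ ℝ) :
    Continuous fun U : Link d L → G => eval (fun u => lt ρ r (v u) (p u) U) P :=
  (continuous_eval _).comp (continuous_pi fun _ => continuous_lt ρ hρ r _ _)

theorem wick_mon (hρ : Continuous ρ) (hd : 2 ≤ d) (m : ℕ) {B : ℝ} (B0 : 0 ≤ B) :
    ∃ (C₀ : ℝ) (q : ℕ), 1 ≤ C₀ ∧ 1 ≤ q ∧ ∀ (s L : ℕ) [NeZero L] (r : ℝ), 1 ≤ s →
      C₀ * s ^ q ≤ r → r ^ 2 ≤ L → ∀ (ι : Type) [Fintype ι] (v : ι → A) (p : ι → PZ d),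
      Fintype.card ι ≤ m → (∀ i, v i ∈ lieAlg ρ) → (∀ i, ‖v i‖ ≤ B) →
      (∀ i l, ((p i).1 l).natAbs ≤ s) →
      |∫ U, ∏ i, lt ρ r (v i) (p i) U ∂(nu μ ρ d L (r ^ 2 / 4)) - wk (cz v p) (∏ i, X i)| ≤
        1 / s := by
  obtain ⟨C, hC, hk, hG⟩ := gd_data ρ μ hρ d hd
  obtain ⟨c₁, p₁, m₁⟩ := moment_EU' ρ μ hρ d 1
  obtain ⟨c₂, p₂, m₂⟩ := moment_EU' ρ μ hρ d 2
  obtain ⟨c₃, p₃, m₃⟩ := moment_EU' ρ μ hρ d (2 * m + 1 + 1)
  have D0 : (0 : ℝ) ≤ Module.finrank ℝ (lieAlg ρ) := by positivity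
  obtain ⟨c, hc⟩ : ∃ c, c = c₁ + c₂ := ⟨_, rfl⟩
  have c0 : 0 ≤ c := by rw [hc]; positivity
  obtain ⟨cΞ, hcΞ⟩ : ∃ x : ℝ, x = (1 + B) ^ (2 * m + 1 + 1) * (2 ^ (2 * m + 1) *
    (1 ^ (2 * m + 1 + 1) + m ^ (2 * m + 1 + 1) * c₃)) := ⟨_, rfl⟩
  have cΞ0 : 0 ≤ cΞ := by rw [hcΞ]; positivity
  obtain ⟨cB, hcB⟩ : ∃ x : ℝ, x = 4 * Module.finrank ℝ (lieAlg ρ) *
    (15 + 2 * c + C * (7 + 2 * c)) + 4 * c + 1 := ⟨_, rfl⟩
  have cB1 : 1 ≤ cB := by rw [hcB]; exact le_add_of_nonneg_left (by positivity)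
  obtain ⟨cI, hcI⟩ : ∃ x : ℝ, x = (1 + m * (B * B * (4 * C))) ^ m *
    (B * ((1 + 5 * (m + 1 : ℕ) * B) * (1 + cΞ) * cB)) := ⟨_, rfl⟩
  have cI0 : 0 ≤ cI := by rw [hcI]; positivity
  obtain ⟨C₀, q, C1, q1, hG⟩ := hG (1 + cI) (by positivity)
  refine ⟨3 * C₀, q, by linarith, q1, fun s L _ r s1 hr hL ι _ v p hm hv hB hx => ?_⟩
  classical
  have s1' : (1 : ℝ) ≤ s := by exact_mod_cast s1
  have sq : (s : ℝ) ≤ C₀ * s ^ q := (le_self_pow₀ s1' (by omega)).trans
    (le_mul_of_one_le_left (by positivity) C1)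
  have sL : 4 * s < L := by
    have : (4 * s : ℝ) < L := by nlinarith
    exact_mod_cast this
  obtain ⟨n, l, τ, W, w, h, g, r1, hR, hτ, ht, sl, hk', he⟩ := hG s L r s1 (by linarith) hL
  have hr0 : 0 < r := by linarith
  have := nu_prob (d := d) (L := L) μ ρ hρ (r ^ 2 / 4)
  have u1 : 0 ≤ cI * τ := by positivity
  have t1 : τ ≤ 1 := by linarith [(div_le_one (by linarith)).2 s1']
  have t2 : τ ^ 2 ≤ τ := by rw [pow_two]; exact mul_le_of_le_one_left hτ.le t1
  have t3 : τ ^ 2 ≤ cB * τ := t2.trans (le_mul_of_one_le_left hτ.le cB1)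
  have n₁ : ∀ p, ∫ U, EU ρ r p U ∂(nu μ ρ d L (r ^ 2 / 4)) ≤ c := fun p => by
    have := m₁ L r hr0 hL p
    simp only [pow_one] at this
    linarith
  have n₂ : ∀ p, ∫ U, EU ρ r p U ^ 2 ∂(nu μ ρ d L (r ^ 2 / 4)) ≤ c := fun p => by
    linarith [m₂ L r hr0 hL p]
  have cE := continuous_EU (d := d) (L := L) ρ hρ r
  set P : ι → Plaq d L := fun i => (fun l => (p i).1 l, (p i).2) with hP
  have h0 : ∀ U, 0 ≤ ∑ i, EU ρ r (P i) U := fun U =>
    Finset.sum_nonneg fun i _ => EU_nonneg ρ r (P i) U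
  have hS := stein ρ μ g hρ hr0 hR (δ := cB * τ) (by positivity) t3
    (he.trans (pow_le_pow_left₀ (by positivity) t3 2)) (fun y hy b => by
      refine (g.background' ρ μ hρ hr0 hR (by positivity) (t2.trans t1) c0 n₁ n₂ he rfl hk' hy
        b).trans ?_
      rw [mul_pow]
      refine mul_le_mul_of_nonneg_right (le_trans ?_ (le_self_pow₀ cB1 two_ne_zero)) (sq_nonneg _)
      rw [hcB]
      linarith) v hv P (fun i => inBox_mono sl (inBox_cast _ (hx i))) hB
    (Ξ := fun U => (1 + B) * (1 + ∑ i, EU ρ r (P i) U)) (by fun_prop)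
    (fun U => one_le_mul_of_one_le_of_one_le (by linarith) (by linarith [h0 U]))
    (fun i U => (abs_real_inner_le_norm _ _).trans (mul_le_mul ((hB i).trans (by linarith))
      ((norm_ZU_le ρ r _ U).trans (add_le_add_right (Finset.single_le_sum
        (f := fun i => EU ρ r (P i) U) (fun _ _ => EU_nonneg ρ _ _ _) (Finset.mem_univ i)) 1))
      (norm_nonneg _) (by linarith))) (m := m + 1) (c := cΞ) (by
      have := moment_sum (nu μ ρ d L (r ^ 2 / 4)) Finset.univ (fun i => EU ρ r (P i))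
        (fun α => cE _) (fun α => EU_nonneg ρ r _) (2 * m + 1) zero_le_one
        fun α => m₃ L r hr0 hL _
      simp only [← pow_mul, mul_pow, show (m + 1) * 2 = 2 * m + 1 + 1 by ring, integral_const_mul]
      rw [hcΞ]
      refine mul_le_mul_of_nonneg_left (this.trans ?_) (by positivity)
      have : ((Finset.univ : Finset ι).card : ℝ) ≤ m := by exact_mod_cast hm
      gcongr)
  have e : ∀ i j, ⟪v i, v j⟫_ℝ * kP kk (P i) (P j) = cz v p i j := fun i j => by
    rw [cz, kP, ← lift_cast (L := L) ((p j).1 - (p i).1) fun l => by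
      have := hx i l
      have := hx j l
      rw [Pi.sub_apply]
      omega]
    congr 3
    funext l
    simp [hP]
  have := iss_alg (cz v p) (fun S => ∫ U, ∏ i ∈ S, lt ρ r (v i) (p i) U ∂(nu μ ρ d L (r ^ 2 / 4)))
    (fun S => wk (cz v p) (∏ i ∈ S, X i)) (B := B * B * (4 * C)) (m := m)
    (δ := B * ((1 + 5 * (m + 1 : ℕ) * B) * (1 + cΞ) * (cB * τ))) (by positivity) (by positivity)
    (fun i j => by
      rw [cz, abs_mul]
      refine mul_le_mul ((abs_real_inner_le_norm _ _).trans (mul_le_mul (hB i) (hB j)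
        (norm_nonneg _) B0)) ((abs_kM_le _ _ _ _).trans ?_) (abs_nonneg _) (by positivity)
      linarith [hk (p j).2.1 (p i).2.1 ((p j).1 - (p i).1), hk (p j).2.2 (p i).2.1 ((p j).1 - (p i).1),
        hk (p j).2.1 (p i).2.2 ((p j).1 - (p i).1), hk (p j).2.2 (p i).2.2 ((p j).1 - (p i).1)])
    (by simp [Zf.wk_eq]) (wk_insert (cz_symm v p)) (fun j S hj hS' => by
      simp only [Finset.prod_insert hj, ← e]
      exact hS j S (by omega)) Finset.univ hm
  refine this.trans (le_trans ?_ ht)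
  have h1 : (1 + m * (B * B * (4 * C))) ^ (Finset.univ : Finset ι).card ≤
      (1 + m * (B * B * (4 * C))) ^ m := pow_le_pow_right₀ (le_add_of_nonneg_right (by positivity)) hm
  refine (mul_le_mul_of_nonneg_right h1 (by positivity)).trans ?_
  rw [add_mul, hcI]
  linarith

/-- the Wick theorem: the variable `u` is the component `v u` of the curvature on the plaquette
`z u` seen from the point with the number `π u` -/
theorem wick (hρ : Continuous ρ) (hd : 2 ≤ d) (ϖ : σ → ι) (v : σ → A) (hv : ∀ u, v u ∈ lieAlg ρ)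
    (z : σ → PZ d) (P : MvPolynomial σ ℝ) : Sm fun L _ r x =>
      ∫ U, eval (fun u => lt ρ r (v u) (x (ϖ u) + (z u).1, (z u).2) U) P
        ∂(nu μ ρ d L (r ^ 2 / 4)) - wk (cz v fun u => (x (ϖ u) + (z u).1, (z u).2)) P := by
  classical
  have key : ∀ m : σ →₀ ℕ, Sm fun L _ r x =>
      ∫ U, eval (fun u => lt ρ r (v u) (x (ϖ u) + (z u).1, (z u).2) U) (monomial m 1)
        ∂(nu μ ρ d L (r ^ 2 / 4)) -
        wk (cz v fun u => (x (ϖ u) + (z u).1, (z u).2)) (monomial m 1) := fun m => by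
    obtain ⟨κ, _, f, e⟩ : ∃ (κ : Type) (_ : Fintype κ) (f : κ → σ),
        (monomial m 1 : MvPolynomial σ ℝ) = ∏ i, X (f i) :=
      ⟨Σ u : m.support, Fin (m u), inferInstance, fun i => i.1, by
        rw [monomial_eq, C_1, one_mul, Finsupp.prod, Fintype.prod_sigma, ← Finset.prod_coe_sort]
        simp⟩
    obtain ⟨C₀, q, C1, q1, h⟩ := wick_mon ρ μ hρ hd (Fintype.card κ) (B := ∑ i, ‖v (f i)‖)
      (by positivity)
    obtain ⟨R, hR⟩ : ∃ R : ℕ, ∀ i l, ((z (f i)).1 l).natAbs ≤ R :=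
      ⟨∑ j : κ × Fin d, ((z (f j.1)).1 j.2).natAbs, fun i l => Finset.single_le_sum
        (f := fun j : κ × Fin d => ((z (f j.1)).1 j.2).natAbs) (fun _ _ => Nat.zero_le _)
        (Finset.mem_univ (i, l))⟩
    have R1 : (1 : ℝ) ≤ (R + 1 : ℕ) := by exact_mod_cast Nat.le_add_left 1 R
    refine ⟨C₀ * (R + 1 : ℕ) ^ q, q, one_le_mul_of_one_le_of_one_le C1 (one_le_pow₀ R1), q1,
      fun s L _ r x s1 hr hL hx => ?_⟩
    have := h ((R + 1) * s) L r (Nat.mul_pos R.succ_pos s1) (by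
      rwa [Nat.cast_mul, mul_pow, ← mul_assoc]) hL κ (fun i => v (f i))
      (fun i => (x (ϖ (f i)) + (z (f i)).1, (z (f i)).2)) le_rfl (fun i => hv _)
      (fun i => Finset.single_le_sum (f := fun i => ‖v (f i)‖) (fun _ _ => norm_nonneg _)
        (Finset.mem_univ i)) fun i l => by
        have := hR i l
        have := hx (ϖ (f i)) l
        have := Nat.mul_le_mul_left R s1
        simp only [Pi.add_apply, add_mul]
        omega
    have e2 : (∏ i, X (f i) : MvPolynomial σ ℝ) = rename f (∏ i, X i) := by simp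
    have s0 : (0 : ℝ) < s := by exact_mod_cast s1
    simp only [e, map_prod, eval_X]
    rw [e2, Zf.wk_eq, Zf.E_rename]
    rw [Zf.wk_eq] at this
    refine this.trans (one_div_le_one_div_of_le s0 ?_)
    rw [Nat.cast_mul]
    exact le_mul_of_one_le_left s0.le R1
  have := Sm.sum P.support (fun m => coeff m P) fun m _ => key m
  refine (congrArg Sm ?_).mp this
  funext L _ r x
  have := nu_prob (d := d) (L := L) μ ρ hρ (r ^ 2 / 4)
  have e : P = ∑ m ∈ P.support, coeff m P • monomial m 1 := by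
    simpa only [smul_monomial, smul_eq_mul, mul_one] using P.as_sum
  conv_rhs => rw [e]
  simp only [Zf.wk_eq, map_sum, map_smul, smul_eval, smul_eq_mul, mul_sub, Finset.sum_sub_distrib]
  rw [integral_finsetSum _ fun m _ => cint _ (continuous_const.fun_mul
    (continuous_ev ρ hρ r _ _ _))]
  simp only [integral_const_mul]

end Pool.Agent.Lib.MP_7f377f_mp.Kw
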