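import Pool.Agent.Lib.MP_7f377f_mp.G.ZfB0

/-! The propagator of the jets of the free Maxwell field: symbols, analyticity, covariance,
derivatives and field equations. -/

noncomputable section

namespace Pool.Agent.Lib.MP_7f377f_mp.Zf

open MvPolynomial Filter Topology Matrix
open YZ (R4 Var pr alt)
open scoped ContDiff

/-- space-time indices of a jet -/
abbrev Jx : Type := Σ n : ℕ, Fin (n + 2) → Fin 4

/-- the symbol of the jet `I` of the curvature, as an operator on the component `l` of the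
potential -/
def syb (I : Jx) (l : Fin 4) : Pp :=
  ((if I.2 0 = l then X (I.2 1) else 0) - if I.2 1 = l then X (I.2 0) else 0) *
    ∏ r : Fin I.1, X (I.2 r.succ.succ)

/-- the symbol of the propagator -/
def spr (I J : Jx) : Pp := ∑ l, syb I l * syb J l

/-- the propagator of one Maxwell field -/
def pr0 (I J : Jx) (v : R4) : ℝ := pr (d := 1) (I, 0) (J, 0) v

/-- one more derivative, as last index -/
def up {d : ℕ} (ν : Fin 4) (p : Var d) : Var d := (⟨p.1.1 + 1, Fin.snoc p.1.2 ν⟩, p.2)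

/-- one more derivative, as first of the derivative indices -/
def up2 {d : ℕ} (ν : Fin 4) (p : Var d) : Var d :=
  (⟨p.1.1 + 1, vecCons (p.1.2 0) (vecCons (p.1.2 1) (vecCons ν fun r => p.1.2 r.succ.succ))⟩, p.2)

variable {d n : ℕ} {v : R4}

theorem sy_cons (i j l : Fin 4) (w : Fin n → Fin 4) : syb ⟨n, vecCons i (vecCons j w)⟩ l =
    ((if i = l then X j else 0) - if j = l then X i else 0) * ∏ r, X (w r) := by
  simp [syb]

theorem sy_tr (I : Jx) : ∑ l, X l * syb I l = 0 := by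
  simp only [syb, ← mul_assoc, ← Finset.sum_mul, mul_sub, mul_ite, mul_zero, Finset.sum_sub_distrib,
    Finset.sum_ite_eq, Finset.mem_univ, if_true]
  ring

theorem sp_comm (I J : Jx) : spr I J = spr J I := by simp only [spr, mul_comm]

theorem sy_up (ν : Fin 4) (p : Var d) (l : Fin 4) : syb (up ν p).1 l = X ν * syb p.1 l := by
  obtain ⟨⟨n, I⟩, a⟩ := p
  have h0 : (Fin.snoc I ν : Fin (n + 3) → Fin 4) 0 = I 0 := Fin.snoc_castSucc (α := fun _ => _) ν I 0
  have h1 : (Fin.snoc I ν : Fin (n + 3) → Fin 4) 1 = I 1 := Fin.snoc_castSucc (α := fun _ => _) ν I 1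
  have h2 (r : Fin n) : (Fin.snoc I ν : Fin (n + 3) → Fin 4) r.castSucc.succ.succ = I r.succ.succ :=
    Fin.snoc_castSucc (α := fun _ => _) ν I r.succ.succ
  have h3 : (Fin.snoc I ν : Fin (n + 3) → Fin 4) (Fin.last n).succ.succ = ν :=
    Fin.snoc_last (α := fun _ => _) ν I
  show syb ⟨n + 1, (Fin.snoc I ν : Fin (n + 3) → Fin 4)⟩ l = X ν * syb ⟨n, I⟩ l
  generalize (Fin.snoc I ν : Fin (n + 3) → Fin 4) = K at *
  simp only [syb, Fin.prod_univ_castSucc, h0, h1, h2, h3]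
  ring

theorem sy_up2 (ν : Fin 4) (p : Var d) (l : Fin 4) : syb (up2 ν p).1 l = X ν * syb p.1 l := by
  simp only [up2, sy_cons, Fin.prod_univ_succ, cons_val_zero, cons_val_succ]
  rw [syb]; ring

theorem sy_swap (I : Fin (n + 2) → Fin 4) (l : Fin 4) :
    syb ⟨n, I ∘ Equiv.swap 0 1⟩ l = -syb ⟨n, I⟩ l := by
  have h (r : Fin n) : Equiv.swap (0 : Fin (n + 2)) 1 r.succ.succ = r.succ.succ :=
    Equiv.swap_apply_of_ne_of_ne (Fin.succ_ne_zero _) (Fin.succ_succ_ne_one _)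
  simp only [syb, Function.comp, Equiv.swap_apply_left, Equiv.swap_apply_right, h]
  ring

theorem sy_perm (I : Fin (n + 2) → Fin 4) (σ : Equiv.Perm (Fin (n + 2))) (h0 : σ 0 = 0)
    (h1 : σ 1 = 1) (l : Fin 4) : syb ⟨n, I ∘ σ⟩ l = syb ⟨n, I⟩ l := by
  have h := Equiv.prod_comp σ fun r => (X (I r) : Pp)
  simp only [Fin.prod_univ_succ, Fin.succ_zero_eq_one, h0, h1] at h
  simp only [syb, Function.comp, h0, h1]
  rw [mul_left_cancel₀ (X_ne_zero _) (mul_left_cancel₀ (X_ne_zero _) h)]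

theorem sy_alt (I : Fin (n + 2) → Fin 4) (l : Fin 4) : syb ⟨n, I⟩ l =
    (if I 0 = l then ∏ r, X (Fin.tail I r) else 0) -
      if (I ∘ Equiv.swap 0 1) 0 = l then ∏ r, X (Fin.tail (I ∘ Equiv.swap 0 1) r) else 0 := by
  have h (r : Fin n) : Equiv.swap (0 : Fin (n + 2)) 1 r.succ.succ = r.succ.succ :=
    Equiv.swap_apply_of_ne_of_ne (Fin.succ_ne_zero _) (Fin.succ_succ_ne_one _)
  simp only [syb, Function.comp, Fin.tail, Fin.prod_univ_succ, Fin.succ_zero_eq_one,
    Equiv.swap_apply_left, Equiv.swap_apply_right, h, sub_mul, ite_mul, zero_mul]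

/-- the propagator is its symbol applied to the fundamental solution -/
theorem pr_eq (p q : Var d) (hv : v ≠ 0) : pr p q v =
    if p.2 = q.2 then (-1) ^ (q.1.1 + 1) * Dc v (spr p.1 q.1) else 0 := by
  obtain ⟨⟨n, I⟩, a⟩ := p
  obtain ⟨⟨m, J⟩, b⟩ := q
  have h (I : Fin (n + 2) → Fin 4) (J : Fin (m + 2) → Fin 4) :
      iteratedFDeriv ℝ _ (fun v : R4 => (4 * Real.pi ^ 2 * ‖v‖ ^ 2)⁻¹) v
        (fun r => EuclideanSpace.single (Fin.append (Fin.tail I) (Fin.tail J) r) 1) =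
      Dc v ((∏ r, X (Fin.tail I r)) * ∏ r, X (Fin.tail J r)) := by
    refine (Dc_prod (Fin.append (Fin.tail I) (Fin.tail J)) hv).symm.trans ?_
    rw [Fin.prod_univ_add]; simp
  by_cases hab : a = b
  · simp only [pr, alt, hab, true_and, if_true, spr, sy_alt, sub_mul, mul_sub, ite_mul, mul_ite,
      zero_mul, mul_zero, Finset.sum_sub_distrib, map_sub, h, Finset.sum_ite_eq, Finset.mem_univ,
      apply_ite (Dc v), map_zero]
    ring
  · simp [pr, alt, hab]

theorem pr_col (I J : Jx) (a b : Fin d) (v : R4) :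
    pr (I, a) (J, b) v = if a = b then pr0 I J v else 0 := by
  by_cases hab : a = b <;> simp [pr0, pr, alt, hab]

theorem pr0_eq (I J : Jx) (hv : v ≠ 0) : pr0 I J v = (-1) ^ (J.1 + 1) * Dc v (spr I J) := by
  rw [pr0, pr_eq _ _ hv, if_pos rfl]

theorem pr_an (p q : Var d) (hv : v ≠ 0) : AnalyticAt ℝ (pr p q) v := by
  have h : AnalyticAt ℝ (fun v : R4 => if p.2 = q.2 then
      (-1) ^ (q.1.1 + 1) * Dc v (spr p.1 q.1) else 0) v := by
    split_ifs
    · exact analyticAt_const.mul (Dc_an _ hv)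
    · exact analyticAt_const
  exact h.congr ((ev_ne hv).mono fun u hu => (pr_eq p q hu).symm)

theorem pr_smooth (p q : Var d) (hv : v ≠ 0) : ContDiffAt ℝ ∞ (pr p q) v :=
  (pr_an p q hv).contDiffAt

theorem pr_cont (p q : Var d) : ContinuousOn (pr p q) {0}ᶜ := fun _ hv =>
  (pr_an p q hv).continuousAt.continuousWithinAt

/-- linear relations between jets which follow from the field equations -/
theorem pr_null {ι : Type} (s : Finset ι) (c : ι → ℝ) (I : ι → Jx) (u : Fin 4 → Pp) (u' : Pp)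
    (h : ∀ l, ∑ i ∈ s, c i • syb (I i) l = sq4 * u l + X l * u') (a : Fin d) (q : Var d)
    (hv : v ≠ 0) : ∑ i ∈ s, c i * pr (I i, a) q v = 0 := by
  simp only [pr_eq _ _ hv]
  split_ifs
  · have e : ∑ i ∈ s, c i • spr (I i) q.1 = sq4 * ∑ l, u l * syb q.1 l := by
      simp only [spr, Finset.smul_sum, ← smul_mul_assoc]
      rw [Finset.sum_comm]
      simp only [← Finset.sum_mul, h, add_mul, Finset.sum_add_distrib, Finset.mul_sum, mul_assoc,
        mul_left_comm _ u']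
      rw [← Finset.mul_sum _ _ u', sy_tr, mul_zero, add_zero]
    have := Dc_sq (∑ l, u l * syb q.1 l) hv
    rw [← e, map_sum] at this
    simp only [map_smul, smul_eq_mul] at this
    simp only [mul_left_comm (c _), ← Finset.mul_sum, this, mul_zero]
  · simp

theorem pr_congr {p p' : Var d} (h : ∀ l, syb p.1 l = syb p'.1 l) (h2 : p.2 = p'.2) (q : Var d)
    (hv : v ≠ 0) : pr p q v = pr p' q v := by
  simp only [pr_eq _ _ hv, spr, h, h2]

theorem pr_swap (I : Fin (n + 2) → Fin 4) (a : Fin d) (q : Var d) (v : R4) :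
    pr (⟨n, I ∘ Equiv.swap 0 1⟩, a) q v = -pr (⟨n, I⟩, a) q v := by
  have : (I ∘ Equiv.swap 0 1) ∘ Equiv.swap 0 1 = I := by funext r; simp
  have h (g : (Fin (n + 2) → Fin 4) → ℝ) : alt g (I ∘ Equiv.swap 0 1) = -alt g I := by
    rw [alt, alt, this, neg_sub]
  exact h _

theorem pr_perm (I : Fin (n + 2) → Fin 4) (σ : Equiv.Perm (Fin (n + 2))) (h0 : σ 0 = 0)
    (h1 : σ 1 = 1) (a : Fin d) (q : Var d) (hv : v ≠ 0) :
    pr (⟨n, I ∘ σ⟩, a) q v = pr (⟨n, I⟩, a) q v :=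
  pr_congr (p := (⟨n, I ∘ σ⟩, a)) (p' := (⟨n, I⟩, a)) (sy_perm I σ h0 h1) rfl q hv

theorem pr_up2 (ν : Fin 4) (p q : Var d) (hv : v ≠ 0) : pr (up2 ν p) q v = pr (up ν p) q v :=
  pr_congr (p := up2 ν p) (p' := up ν p) (fun l => by rw [sy_up, sy_up2]) rfl q hv

theorem pr_bianchi (i j k : Fin 4) (w : Fin n → Fin 4) (a : Fin d) (q : Var d) (hv : v ≠ 0) :
    pr (⟨n + 1, vecCons i (vecCons j (vecCons k w))⟩, a) q v +
      pr (⟨n + 1, vecCons j (vecCons k (vecCons i w))⟩, a) q v +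
      pr (⟨n + 1, vecCons k (vecCons i (vecCons j w))⟩, a) q v = 0 := by
  have := pr_null Finset.univ (fun _ : Fin 3 => 1) ![⟨n + 1, vecCons i (vecCons j (vecCons k w))⟩,
    ⟨n + 1, vecCons j (vecCons k (vecCons i w))⟩, ⟨n + 1, vecCons k (vecCons i (vecCons j w))⟩]
    0 0 (fun l => by
      simp only [Fin.sum_univ_three, cons_val, sy_cons, Fin.prod_univ_succ, cons_val_succ, one_smul,
        Pi.zero_apply]
      split_ifs <;> ring) a q hv
  simpa only [Fin.sum_univ_three, cons_val, one_mul] using this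

theorem pr_maxwell (i : Fin 4) (w : Fin n → Fin 4) (a : Fin d) (q : Var d) (hv : v ≠ 0) :
    ∑ μ, pr (⟨n + 1, vecCons i (vecCons μ (vecCons μ w))⟩, a) q v = 0 := by
  have := pr_null Finset.univ (fun _ : Fin 4 => 1)
    (fun μ => ⟨n + 1, vecCons i (vecCons μ (vecCons μ w))⟩)
    (fun l => if i = l then ∏ r, X (w r) else 0) (-(X i * ∏ r, X (w r))) (fun l => by
      simp only [sy_cons, Fin.prod_univ_succ, cons_val_succ, one_smul, cons_val_zero, sub_mul,
        ite_mul, zero_mul, Finset.sum_sub_distrib, Finset.sum_ite_eq', Finset.mem_univ, if_true, sq4]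
      split_ifs
      · simp only [Finset.sum_mul, mul_assoc]; ring
      · simp; ring) a q hv
  simpa only [one_mul] using this

theorem pr_box (μ' : Fin 4 → Var d) (p q : Var d) (h : ∀ μ l, syb (μ' μ).1 l = X μ * X μ * syb p.1 l)
    (h2 : ∀ μ, (μ' μ).2 = p.2) (hv : v ≠ 0) : ∑ μ, pr (μ' μ) q v = 0 := by
  have := pr_null Finset.univ (fun _ : Fin 4 => 1) (fun μ => (μ' μ).1) (syb p.1) 0 (fun l => by
    simp only [h, one_smul, sq4, Finset.sum_mul, mul_zero, add_zero]) p.2 q hv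
  have e (μ : Fin 4) : ((μ' μ).1, p.2) = μ' μ := Prod.ext rfl (h2 μ).symm
  simpa only [one_mul, e] using this

theorem pr_fd (ν : Fin 4) (p q : Var d) (hv : v ≠ 0) :
    fderiv ℝ (pr p q) v (ee ν) = pr (up ν p) q v := by
  have e : pr p q =ᶠ[𝓝 v] fun v => if p.2 = q.2 then
      (-1) ^ (q.1.1 + 1) * Dc v (spr p.1 q.1) else 0 := (ev_ne hv).mono fun u hu => pr_eq p q hu
  have e2 : spr (up ν p).1 q.1 = X ν * spr p.1 q.1 := by
    simp only [spr, sy_up, Finset.mul_sum, mul_assoc]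
  rw [e.fderiv_eq, pr_eq _ _ hv, e2, Dc_X _ _ hv]
  show _ = if p.2 = q.2 then _ else _
  split_ifs
  · rw [fderiv_const_mul (Dc_an _ hv).differentiableAt]; rfl
  · simp

theorem pr_hasFDeriv (p q : Var d) (hv : v ≠ 0) : HasFDerivAt (pr p q)
    (∑ ν, pr (up ν p) q v • (EuclideanSpace.proj ν : R4 →L[ℝ] ℝ)) v := by
  refine (pr_an p q hv).differentiableAt.hasFDerivAt.congr_fderiv ?_
  ext h
  conv_lhs => rw [← sum_ee h]
  simp [pr_fd _ _ _ hv, mul_comm]

theorem pr_line (ν : Fin 4) (p q : Var d) (hv : v ≠ 0) :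
    HasDerivAt (fun t : ℝ => pr p q (v + t • ee ν)) (pr (up ν p) q v) 0 := by
  rw [← pr_fd ν p q hv]
  exact (pr_an p q hv).differentiableAt.hasFDerivAt.hasLineDerivAt (ee ν)

theorem pr_up_right (ν : Fin 4) (p q : Var d) (hv : v ≠ 0) :
    pr p (up ν q) v = -pr (up ν p) q v := by
  have e : spr p.1 (up ν q).1 = spr (up ν p).1 q.1 := by
    simp only [spr, sy_up, mul_assoc, mul_left_comm]
  rw [pr_eq _ _ hv, pr_eq _ _ hv, e]
  show (if p.2 = q.2 then (-1) ^ (q.1.1 + 1 + 1) * _ else _) = -if p.2 = q.2 then _ else _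
  split_ifs
  · ring
  · simp

theorem sy_cov (g : Matrix (Fin 4) (Fin 4) ℝ) (I : Fin (n + 2) → Fin 4) (l : Fin 4) :
    ∑ J : Fin (n + 2) → Fin 4, (∏ r, g (J r) (I r)) • syb ⟨n, J⟩ l =
      ∑ l', g l l' • sb g (syb ⟨n, I⟩ l') := by
  have e (k : Fin (n + 2)) : ∑ J : Fin (n + 2) → Fin 4, (∏ r, g (J r) (I r)) •
      ∏ r, (if r = k then (if J r = l then 1 else 0) else X (J r) : Pp) =
      ∏ r, (if r = k then g l (I r) • 1 else sb g (X (I r)) : Pp) := by
    simp only [← Finset.prod_smul]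
    rw [← Fintype.piFinset_univ, ← Finset.prod_univ_sum (fun _ => Finset.univ) fun r j =>
      g j (I r) • (if r = k then (if j = l then 1 else 0) else X j : Pp)]
    refine Finset.prod_congr rfl fun r _ => ?_
    split_ifs <;> simp [sb]
  have f (J : Fin (n + 2) → Fin 4) : syb ⟨n, J⟩ l =
      ∏ r, (if r = 0 then (if J r = l then 1 else 0) else X (J r) : Pp) -
      ∏ r, (if r = 1 then (if J r = l then 1 else 0) else X (J r) : Pp) := by
    simp [syb, Fin.prod_univ_succ, sub_mul, Fin.succ_succ_ne_one]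
  simp only [f, smul_sub, Finset.sum_sub_distrib, e]
  simp [syb, Fin.prod_univ_succ, sub_mul, Fin.succ_succ_ne_one, apply_ite (sb g), smul_sub,
    Finset.sum_sub_distrib]

theorem sp_cov {g : Matrix (Fin 4) (Fin 4) ℝ} {s : ℝ} (hg : gᵀ * g = s • 1) {m : ℕ}
    (I : Fin (n + 2) → Fin 4) (J : Fin (m + 2) → Fin 4) :
    ∑ I' : Fin (n + 2) → Fin 4, ∑ J' : Fin (m + 2) → Fin 4,
      ((∏ r, g (I' r) (I r)) * ∏ r, g (J' r) (J r)) • spr ⟨n, I'⟩ ⟨m, J'⟩ =
      s • sb g (spr ⟨n, I⟩ ⟨m, J⟩) := by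
  have h (a b : Fin 4) : ∑ l, g l a * g l b = if a = b then s else 0 := by
    have := congrFun (congrFun hg a) b
    simpa [mul_apply, one_apply] using this
  calc _ = ∑ l, (∑ I' : Fin (n + 2) → Fin 4, (∏ r, g (I' r) (I r)) • syb ⟨n, I'⟩ l) *
        ∑ J' : Fin (m + 2) → Fin 4, (∏ r, g (J' r) (J r)) • syb ⟨m, J'⟩ l := by
        simp only [spr, Finset.sum_mul_sum, smul_mul_smul_comm, Finset.smul_sum]
        rw [Finset.sum_comm (s := (Finset.univ : Finset (Fin 4)))]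
        refine Finset.sum_congr rfl fun _ _ => Finset.sum_comm
    _ = ∑ a, ∑ b, (∑ l, g l a * g l b) • (sb g (syb ⟨n, I⟩ a) * sb g (syb ⟨m, J⟩ b)) := by
        simp only [sy_cov, Finset.sum_mul_sum, smul_mul_smul_comm, Finset.sum_smul]
        rw [Finset.sum_comm]
        refine Finset.sum_congr rfl fun _ _ => Finset.sum_comm
    _ = _ := by simp [h, spr, Finset.smul_sum]

/-- covariance under rotations, reflections and dilations -/
theorem pr_cov {g : Matrix (Fin 4) (Fin 4) ℝ} {s : ℝ} (hg : gᵀ * g = s • 1) (hs : s ≠ 0)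
    (p q : Var d) (hv : v ≠ 0) : ∑ I : Fin (p.1.1 + 2) → Fin 4, ∑ J : Fin (q.1.1 + 2) → Fin 4,
      (∏ r, g (I r) (p.1.2 r)) * (∏ r, g (J r) (q.1.2 r)) *
        pr (⟨_, I⟩, p.2) (⟨_, J⟩, q.2) (ac g v) = pr p q v := by
  rw [← mv_apply]
  simp only [pr_eq _ _ hv, pr_eq _ _ (mv_ne hg hs hv)]
  split_ifs
  · have h := congrArg (Dc (mv g v)) (sp_cov hg p.1.2 q.1.2)
    simp only [map_sum, map_smul, smul_eq_mul, Dc_cov hg hs _ hv] at h
    simp only [mul_left_comm _ ((-1 : ℝ) ^ _), ← Finset.mul_sum, h]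
    rw [mul_inv_cancel_left₀ hs]
  · simp

theorem sum_diag {R : Type} [CommRing R] (e : Fin 4 → R) {m : ℕ} (I : Fin m → Fin 4)
    (F : (Fin m → Fin 4) → R) :
    ∑ J : Fin m → Fin 4, (∏ r, diagonal e (J r) (I r)) * F J = (∏ r, e (I r)) * F I := by
  rw [Finset.sum_eq_single I]
  · simp
  · intro J _ h
    obtain ⟨r, hr⟩ := Function.ne_iff.1 h
    rw [Finset.prod_eq_zero (f := fun r => diagonal e (J r) (I r)) (Finset.mem_univ r)
      (diagonal_apply_ne _ hr), zero_mul]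
  · simp

/-- diagonal matrices: reflections and dilations -/
theorem pr_diag (e : Fin 4 → ℝ) {s : ℝ} (he : ∀ i, e i * e i = s) (hs : s ≠ 0) (p q : Var d)
    (hv : v ≠ 0) : ((∏ r, e (p.1.2 r)) * ∏ r, e (q.1.2 r)) * pr p q (ac (diagonal e) v) =
      pr p q v := by
  rw [← pr_cov (g := diagonal e) (s := s) (by
    rw [diagonal_transpose, diagonal_mul_diagonal, smul_one_eq_diagonal]; simp [he]) hs p q hv]
  simp only [mul_assoc, ← Finset.mul_sum, sum_diag]

theorem pr_hom {t : ℝ} (ht : t ≠ 0) (p q : Var d) (hv : v ≠ 0) :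
    t ^ (p.1.1 + 2 + (q.1.1 + 2)) * pr p q (t • v) = pr p q v := by
  have := pr_diag (fun _ => t) (fun _ => rfl) (mul_ne_zero ht ht) p q hv
  have e : ac (diagonal fun _ => t) v = t • v := by ext i; simp [ac]
  simpa [e, pow_add] using this

theorem pr_neg (p q : Var d) (hv : v ≠ 0) : pr q p (-v) = pr p q v := by
  have := pr_hom (t := -1) (by norm_num) q p hv
  rw [neg_one_smul] at this
  have h : pr q p v = (-1) ^ (q.1.1 + 2 + (p.1.1 + 2)) * pr p q v := by
    simp only [pr_eq _ _ hv, sp_comm q.1, eq_comm (a := q.2)]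
    split_ifs
    · rw [← mul_assoc, ← pow_add, show q.1.1 + 2 + (p.1.1 + 2) + (q.1.1 + 1) =
        p.1.1 + 1 + 2 * (q.1.1 + 2) by ring, pow_add _ _ (2 * _), pow_mul]
      simp
    · simp
  exact mul_left_cancel₀ (by simp) (this.trans h)

theorem pr_symm (p q : Var d) (hv : v ≠ 0) : pr p q v = pr q p (-v) := (pr_neg p q hv).symm

theorem pr_snoc (μ : Fin 4) (p q : Var d) (hv : v ≠ 0) :
    HasDerivAt (fun s : ℝ => pr p q (v + EuclideanSpace.single μ s))
      (pr (⟨p.1.1 + 1, Fin.snoc p.1.2 μ⟩, p.2) q v) 0 := by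
  have e (s : ℝ) : EuclideanSpace.single μ s = s • ee μ := by ext i; simp [ee]
  simp only [e]
  exact pr_line μ p q hv

theorem pr_snoc' (μ : Fin 4) (p q : Var d) (hv : v ≠ 0) :
    HasDerivAt (fun s : ℝ => pr p q (v - EuclideanSpace.single μ s))
      (pr p (⟨q.1.1 + 1, Fin.snoc q.1.2 μ⟩, q.2) v) 0 := by
  have e (s : ℝ) : v - EuclideanSpace.single μ s = v + s • -ee μ := by
    ext i; simp [ee, sub_eq_add_neg]
  simp only [e]
  refine HasDerivAt.congr_deriv
    ((pr_an p q hv).differentiableAt.hasFDerivAt.hasLineDerivAt (-ee μ)) ?_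
  rw [map_neg, pr_fd μ p q hv]
  exact (pr_up_right μ p q hv).symm

end Pool.Agent.Lib.MP_7f377f_mp.Zf
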