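import Pool.Agent.Lib.MP_7f377f_mp.G.KwI
import Pool.Agent.Lib.MP_7f377f_mp.G.KwC
import Pool.Agent.Lib.MP_7f377f_mp.G.ZfB

/-! Difference operators on `ℤ^4`, the lattice propagator of jets and its scaling limit. -/

noncomputable section

namespace Pool.Agent.Lib.MP_7f377f_mp.Kw

open Filter Topology MvPolynomial Heat Weak Sum
open YZ (R4)
open Zf (Pp Dc Jx syb spr pr0 ee)

/-- polynomials in the forward differences `inl μ` and the backward differences `inr μ` -/
abbrev Lp : Type := MvPolynomial (Fin 4 ⊕ Fin 4) ℝ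

/-- the linear functional with the values `f a b` on the monomials -/
def cf (f : (Fin 4 → ℕ) → (Fin 4 → ℕ) → ℂ) : Lp →ₗ[ℝ] ℝ :=
  (basisMonomials _ ℝ).constr ℝ fun m => (f (fun l => m (inl l)) fun l => m (inr l)).re

theorem cf_mono (f) (m : Fin 4 ⊕ Fin 4 →₀ ℕ) (c : ℝ) :
    cf f (monomial m c) = c * (f (fun l => m (inl l)) fun l => m (inr l)).re := by
  have : (monomial m c : Lp) = c • basisMonomials _ ℝ m := by simp [smul_monomial]
  rw [this, map_smul, cf, Module.Basis.constr_basis, smul_eq_mul]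

theorem cf_inl (f) (μ : Fin 4) (q : Lp) :
    cf f (X (inl μ) * q) = cf (fun a b => f (a + Pi.single μ 1) b) q := by
  induction q using MvPolynomial.induction_on' with
  | add p q hp hq => simp only [mul_add, map_add, hp, hq]
  | monomial m c =>
    rw [X, monomial_mul, one_mul, cf_mono, cf_mono]
    congr 3 <;> funext l <;> simp [Finsupp.single_apply, Pi.single_apply, add_comm, eq_comm]

theorem cf_inr (f) (μ : Fin 4) (q : Lp) :
    cf f (X (inr μ) * q) = cf (fun a b => f a (b + Pi.single μ 1)) q := by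
  induction q using MvPolynomial.induction_on' with
  | add p q hp hq => simp only [mul_add, map_add, hp, hq]
  | monomial m c =>
    rw [X, monomial_mul, one_mul, cf_mono, cf_mono]
    congr 3 <;> funext l <;> simp [Finsupp.single_apply, Pi.single_apply, add_comm, eq_comm]

theorem cf_sub (f g) (q : Lp) : cf (fun a b => f a b - g a b) q = cf f q - cf g q := by
  induction q using MvPolynomial.induction_on' with
  | add p q hp hq => simp only [map_add, hp, hq]; ring
  | monomial m c => simp only [cf_mono, Complex.sub_re, mul_sub]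

/-- `Dz x q` is the difference operator `q` applied to the lattice Green function at `x` -/
def Dz (x : Fin 4 → ℤ) : Lp →ₗ[ℝ] ℝ := cf fun a b => K a b x

theorem Dz_inl (x : Fin 4 → ℤ) (μ : Fin 4) (q : Lp) :
    Dz x (X (inl μ) * q) = Dz (x + Pi.single μ 1) q - Dz x q := by
  simp only [Dz, cf_inl, ← cf_sub, fun a b => K_dp a b (Nat.le_add_left _ _) x μ]

theorem Dz_inr (x : Fin 4 → ℤ) (μ : Fin 4) (q : Lp) :
    Dz x (X (inr μ) * q) = Dz (x - Pi.single μ 1) q - Dz x q := by
  simp only [Dz, cf_inr, ← cf_sub, fun a b => K_dm a b (Nat.le_add_left _ _) x μ]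

/-- the continuum symbol -/
def lm : Lp →ₐ[ℝ] Pp := aeval (Sum.elim X fun l => -X l)

theorem cf_Ph (q : Lp) {v : R4} (hv : v ≠ 0) : cf (fun a b => Ph a b v) q = Dc v (lm q) := by
  have ne : ∀ {v : R4}, v ≠ 0 → (v : Fin 4 → ℝ) ≠ 0 := fun h e => h (by ext l; exact congrFun e l)
  induction q using MvPolynomial.induction_on generalizing v with
  | C c =>
    rw [C_apply, cf_mono, ← C_apply, lm, aeval_C, algebraMap_eq, Zf.Dc_C]
    exact congrArg (fun z : ℂ => c * z.re) (Ph_zero hv)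
  | add p q hp hq => simp only [map_add, hp hv, hq hv]
  | mul_X p μ ih =>
    have k : ∀ μ, cf (fun a b => Ph (a + Pi.single μ 1) b v) p = Dc v (X μ * lm p) := fun μ => by
      refine HasDerivAt.unique ?_ ((Zf.Dc_line μ _ hv).congr_of_eventuallyEq
        (f₁ := fun t : ℝ => cf (fun a b => Ph a b (v + t • ee μ : R4)) p) ?_)
      · clear ih
        induction p using MvPolynomial.induction_on' with
        | add p q hp hq => simpa only [map_add] using hp.fun_add hq
        | monomial m c =>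
          simp only [cf_mono]
          exact (Complex.reCLM.hasFDerivAt.comp_hasDerivAt _ (Ph_deriv _ _ (ne hv) μ)).const_mul c
      · have : ContinuousAt (fun t : ℝ => v + t • ee μ) 0 := by fun_prop
        exact (this.eventually (isOpen_ne.mem_nhds (by simpa using hv))).mono fun t ht => ih ht
    rw [mul_comm, map_mul lm]
    cases μ with
    | inl μ => rw [cf_inl, k, lm, aeval_X]; rfl
    | inr μ =>
      have := cf_sub (fun _ _ => 0) (fun a b => Ph (a + Pi.single μ 1) b v) p
      have e : cf (fun _ _ => 0) p = 0 := by simpa using cf_sub (fun _ _ => 0) (fun _ _ => 0) p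
      simp only [zero_sub, e] at this
      simp only [cf_inr, Ph_right, this, k]
      rw [← map_neg, lm, aeval_X, ← neg_mul]
      rfl

/-- the operator `q` is of order `n` with the leading symbol `s` -/
def Ld (n : ℕ) (q : Lp) (s : Pp) : Prop :=
  ∃ h : Lp, h.IsHomogeneous n ∧ lm h = s ∧ q - h ∈ idealOfVars _ ℝ ^ (n + 1)

theorem Ld.of_hom {n : ℕ} {q : Lp} (h : q.IsHomogeneous n) : Ld n q (lm q) :=
  ⟨q, h, rfl, by simp⟩

theorem hom_mem {n : ℕ} {q : Lp} (h : q.IsHomogeneous n) : q ∈ idealOfVars _ ℝ ^ n :=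
  (mem_pow_idealOfVars_iff' _ _).2 fun _ e => h.coeff_eq_zero e.ne

theorem Ld.mul {n m : ℕ} {p q : Lp} {s t : Pp} (h : Ld n p s) (h' : Ld m q t) :
    Ld (n + m) (p * q) (s * t) := by
  obtain ⟨a, a1, rfl, a2⟩ := h
  obtain ⟨b, b1, rfl, b2⟩ := h'
  refine ⟨a * b, a1.mul b1, map_mul _ _ _, ?_⟩
  rw [show p * q - a * b = (p - a) * (q - b) + (p - a) * b + a * (q - b) by ring]
  refine add_mem (add_mem ?_ ?_) ?_
  · exact Ideal.pow_le_pow_right (n := n + 1 + (m + 1)) (by omega)
      (by rw [pow_add]; exact Ideal.mul_mem_mul a2 b2)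
  · rw [add_right_comm, pow_add]
    exact Ideal.mul_mem_mul a2 (hom_mem b1)
  · rw [add_assoc, pow_add]
    exact Ideal.mul_mem_mul (hom_mem a1) b2

theorem Ld.add {n : ℕ} {p q : Lp} {s t : Pp} (h : Ld n p s) (h' : Ld n q t) :
    Ld n (p + q) (s + t) := by
  obtain ⟨a, a1, rfl, a2⟩ := h
  obtain ⟨b, b1, rfl, b2⟩ := h'
  exact ⟨a + b, a1.add b1, map_add _ _ _, add_sub_add_comm p q a b ▸ add_mem a2 b2⟩

theorem Ld.high {n : ℕ} {q : Lp} (h : q ∈ idealOfVars _ ℝ ^ (n + 1)) : Ld n q 0 :=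
  ⟨0, isHomogeneous_zero _ _ _, map_zero _, by simpa using h⟩

theorem Ld.prod {κ : Type} (S : Finset κ) {n : κ → ℕ} {p : κ → Lp} {s : κ → Pp}
    (h : ∀ i ∈ S, Ld (n i) (p i) (s i)) : Ld (∑ i ∈ S, n i) (∏ i ∈ S, p i) (∏ i ∈ S, s i) := by
  classical
  induction S using Finset.induction_on with
  | empty => simpa using Ld.of_hom (isHomogeneous_one _ _)
  | insert j S hj ih =>
    simp only [Finset.sum_insert hj, Finset.prod_insert hj]
    exact (h j (Finset.mem_insert_self _ _)).mul (ih fun i hi => h i (Finset.mem_insert_of_mem hi))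

theorem lm_swap {n : ℕ} {q : Lp} (h : q.IsHomogeneous n) :
    lm (rename Sum.swap q) = (-1 : ℝ) ^ n • lm q := by
  conv => enter [1, 2, 2]; rw [q.as_sum]
  conv => enter [2, 2, 2]; rw [q.as_sum]
  simp only [map_sum, Finset.smul_sum]
  refine Finset.sum_congr rfl fun m hm => ?_
  have e : ∀ u, lm (X (Sum.swap u)) = (-1 : ℝ) • lm (X u) := by
    rintro (u | u) <;> simp [lm]
  rw [h.degree_eq_sum_deg_support hm]
  simp only [monomial_eq, Finsupp.prod, map_mul, map_prod, map_pow, rename_X, rename_C, e, smul_pow,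
    Finset.prod_smul, Finset.prod_pow_eq_pow_sum, mul_smul_comm]

theorem Ld.swap {n : ℕ} {q : Lp} {s : Pp} (h : Ld n q s) :
    Ld n (rename Sum.swap q) ((-1 : ℝ) ^ n • s) := by
  obtain ⟨a, a1, rfl, a2⟩ := h
  refine ⟨_, a1.rename_isHomogeneous, lm_swap a1, ?_⟩
  rw [← map_sub]
  have := Ideal.mem_map_of_mem (rename Sum.swap : Lp →ₐ[ℝ] Lp) a2
  rw [Ideal.map_pow] at this
  refine Ideal.pow_right_mono ?_ _ this
  rw [Ideal.map_span, Ideal.span_le]
  rintro _ ⟨_, ⟨u, rfl⟩, rfl⟩
  exact Ideal.subset_span ⟨_, (rename_X _ _).symm⟩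

variable {T : Type} {F : Filter T} {ε : T → ℝ} {x : T → Fin 4 → ℤ} {y : R4}

theorem Dz_mono (hy : y ≠ 0) (hε : Tendsto ε F (𝓝[>] 0))
    (hx : ∀ l, Tendsto (fun t => ε t * x t l) F (𝓝 (y l))) (m : Fin 4 ⊕ Fin 4 →₀ ℕ) (c : ℝ) :
    Tendsto (fun t => Dz (x t) (monomial m c) / ε t ^ (m.degree + 2)) F
      (𝓝 (Dc y (lm (monomial m c)))) := by
  have := ((Complex.continuous_re.tendsto _).comp (K_lim (fun l => m (inl l)) (fun l => m (inr l))
    (y := y) (fun e => hy (by ext l; exact congrFun e l)) hε hx)).const_mul c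
  rw [← cf_Ph _ hy, cf_mono]
  refine this.congr fun t => ?_
  rw [Dz, cf_mono, Finsupp.degree_eq_sum, Fintype.sum_sum_type, mul_div_assoc, Function.comp,
    ← Complex.ofReal_pow, Complex.div_ofReal_re]

theorem Dz_lim (hy : y ≠ 0) (hε : Tendsto ε F (𝓝[>] 0))
    (hx : ∀ l, Tendsto (fun t => ε t * x t l) F (𝓝 (y l))) {n : ℕ} {q : Lp} {s : Pp}
    (h : Ld n q s) : Tendsto (fun t => Dz (x t) q / ε t ^ (n + 2)) F (𝓝 (Dc y s)) := by
  obtain ⟨a, a1, rfl, a2⟩ := h
  obtain ⟨h0, h1⟩ := tendsto_nhdsWithin_iff.1 hε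
  have e1 : Tendsto (fun t => Dz (x t) a / ε t ^ (n + 2)) F (𝓝 (Dc y (lm a))) := by
    conv => enter [1, t, 1, 2]; rw [a.as_sum]
    conv => enter [3, 1, 2, 2]; rw [a.as_sum]
    simp only [map_sum, Finset.sum_div]
    refine tendsto_finsetSum _ fun m hm => ?_
    have := Dz_mono hy hε hx m (coeff m a)
    rwa [show m.degree = n from by_contra fun e => mem_support_iff.1 hm (a1.coeff_eq_zero e)] at this
  have e2 : Tendsto (fun t => Dz (x t) (q - a) / ε t ^ (n + 2)) F (𝓝 0) := by
    conv => enter [1, t, 1, 2]; rw [(q - a).as_sum]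
    simp only [map_sum, Finset.sum_div]
    rw [← Finset.sum_const_zero (s := (q - a).support)]
    refine tendsto_finsetSum _ fun m hm => ?_
    obtain ⟨k, hk⟩ := Nat.exists_eq_add_of_le ((mem_pow_idealOfVars_iff _ _).1 a2 m hm)
    have := (Dz_mono hy hε hx m (coeff m (q - a))).mul (h0.pow (k + 1))
    rw [zero_pow k.succ_ne_zero, mul_zero, hk] at this
    refine this.congr' (h1.mono fun t ht => ?_)
    have : ε t ≠ 0 := ne_of_gt ht
    field_simp
    ring
  simpa only [← add_div, ← map_add, add_sub_cancel, add_zero] using e1.add e2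

/-! ### Difference operators acting on functions -/

/-- the stencil of a difference operator -/
def sten : Lp →ₐ[ℝ] AddMonoidAlgebra ℝ (Fin 4 → ℤ) :=
  aeval (Sum.elim (fun l => .single (Pi.single l 1) 1 - 1) fun l => .single (-Pi.single l 1) 1 - 1)

variable {M N : Type} [AddCommGroup M] [Module ℝ M] [AddCommGroup N] [Module ℝ N]

/-- the difference operator `r` applied to `f`, at the origin -/
def op (r : Lp) (f : (Fin 4 → ℤ) → M) : M := Finsupp.linearCombination ℝ f (sten r).coeff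

theorem op_map (φ : M →ₗ[ℝ] N) (r : Lp) (f : (Fin 4 → ℤ) → M) :
    φ (op r f) = op r fun z => φ (f z) := Finsupp.apply_linearCombination _ _ _ _

theorem op_C (a : ℝ) (f : (Fin 4 → ℤ) → M) : op (C a) f = a • f 0 := by
  simp [op, sten, AddMonoidAlgebra.coe_algebraMap]

theorem op_add (r r' : Lp) (f : (Fin 4 → ℤ) → M) : op (r + r') f = op r f + op r' f := by
  simp [op]

theorem op_step (r : Lp) {u : Fin 4 ⊕ Fin 4} {w : Fin 4 → ℤ} (h : sten (X u) = .single w 1 - 1)
    (f : (Fin 4 → ℤ) → M) : op (r * X u) f = op r (fun z => f (z + w)) - op r f := by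
  rw [op, op, op, map_mul, h, mul_sub, mul_one]
  induction sten r using AddMonoidAlgebra.induction_linear with
  | zero => simp
  | add a b ha hb => simp only [add_mul, AddMonoidAlgebra.coeff_sub, AddMonoidAlgebra.coeff_add,
      map_sub, map_add, sub_left_inj] at *; rw [ha, hb]
  | single z a => simp [AddMonoidAlgebra.single_mul_single]

theorem op_inl (r : Lp) (μ : Fin 4) (f : (Fin 4 → ℤ) → M) :
    op (r * X (inl μ)) f = op r (fun z => f (z + Pi.single μ 1)) - op r f :=
  op_step r (by simp [sten]) f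

theorem op_inr (r : Lp) (μ : Fin 4) (f : (Fin 4 → ℤ) → M) :
    op (r * X (inr μ)) f = op r (fun z => f (z - Pi.single μ 1)) - op r f := by
  simpa only [sub_eq_add_neg] using op_step r (u := inr μ) (w := -Pi.single μ 1) (by simp [sten]) f

theorem op_Dz (r q : Lp) (x : Fin 4 → ℤ) : op r (fun z => Dz (x + z) q) = Dz x (r * q) := by
  induction r using MvPolynomial.induction_on generalizing x with
  | C a => simp [op_C, C_mul']
  | add a b ha hb => simp only [op_add, ha, hb, add_mul, map_add]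
  | mul_X r u ih =>
    rw [mul_comm r, mul_assoc, mul_comm _ r]
    cases u with
    | inl μ => simp only [op_inl, Dz_inl, ← ih, add_assoc, add_comm (Pi.single μ 1)]
    | inr μ => simp only [op_inr, Dz_inr, ← ih, sub_add_eq_add_sub, add_sub_assoc]

theorem op_Dz' (r q : Lp) (x : Fin 4 → ℤ) :
    op r (fun z => Dz (x - z) q) = Dz x (rename Sum.swap r * q) := by
  induction r using MvPolynomial.induction_on generalizing x with
  | C a => simp [op_C, C_mul']
  | add a b ha hb => simp only [op_add, ha, hb, add_mul, map_add]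
  | mul_X r u ih =>
    rw [map_mul (rename _), rename_X, mul_comm (rename _ r), mul_assoc]
    cases u with
    | inl μ => simp only [op_inl, swap_inl, Dz_inr, ← ih, sub_sub, add_comm (Pi.single μ 1)]
    | inr μ => simp only [op_inr, swap_inr, Dz_inl, ← ih, sub_sub_eq_add_sub]

/-! ### The propagator of lattice jets -/

/-- the symbol of the curvature -/
def sF (s : Fin 4 → Fin 4 ⊕ Fin 4) (a : Fin 4 × Fin 4) (l : Fin 4) : Lp :=
  (if a.2 = l then X (s a.1) else 0) - if a.1 = l then X (s a.2) else 0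

theorem Dz_XX (z : Fin 4 → ℤ) (i j : Fin 4) : Dz z (X (inl i) * X (inr j)) = kk i j z := by
  rw [← mul_one (X (inr j)), Dz, cf_inl, cf_inr, ← C_1, C_apply, cf_mono, one_mul, kk]
  congr 2 <;> exact zero_add _

theorem kM_Dz (z : Fin 4 → ℤ) (a b : Fin 4 × Fin 4) :
    kM kk z a b = Dz z (∑ l, sF inl b l * sF inr a l) := by
  simp only [kM, sF, sub_mul, mul_sub, ite_mul, mul_ite, zero_mul, mul_zero, Finset.sum_sub_distrib,
    Finset.sum_ite_eq, Finset.mem_univ, if_true, map_sub, apply_ite (Dz z), map_zero, Dz_XX,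
    eq_comm (a := b.2), eq_comm (a := b.1)]
  ring

/-- the plane of a jet -/
def pl (I : Jx) : Fin 4 × Fin 4 := (I.2 0, I.2 1)

variable (R : Jx → Lp)

/-- the lattice propagator between the jet `I` at the origin and the jet `J` at `z` -/
def kJ (z : Fin 4 → ℤ) (I J : Jx) : ℝ :=
  op (R I) fun u => op (R J) fun w => kM kk (z + w - u) (pl I) (pl J)

theorem kJ_eq (z : Fin 4 → ℤ) (I J : Jx) :
    kJ R z I J = Dz z (rename Sum.swap (R I) * (R J * ∑ l, sF inl (pl J) l * sF inr (pl I) l)) := by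
  simp only [kJ, kM_Dz, ← sub_add_eq_add_sub, op_Dz, op_Dz']

/-- the operators `R I` approximate the derivatives -/
def Jet : Prop := ∀ I : Jx, Ld I.1 (R I) (∏ r : Fin I.1, X (I.2 r.succ.succ))

variable {R}

theorem kJ_lim (hR : Jet R) (hy : y ≠ 0) (hε : Tendsto ε F (𝓝[>] 0))
    (hx : ∀ l, Tendsto (fun t => ε t * x t l) F (𝓝 (y l))) (I J : Jx) :
    Tendsto (fun t => kJ R (x t) I J / ε t ^ (I.1 + 2 + (J.1 + 2))) F (𝓝 (pr0 J I y)) := by
  have h1 : ∀ s a l, (sF s a l).IsHomogeneous 1 := fun s a l => by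
    refine IsHomogeneous.sub ?_ ?_ <;> split_ifs <;>
      first | exact isHomogeneous_X _ _ | exact isHomogeneous_zero _ _ _
  have := Dz_lim hy hε hx ((hR I).swap.mul ((hR J).mul (Ld.of_hom (IsHomogeneous.sum Finset.univ
    (fun l => sF inl (pl J) l * sF inr (pl I) l) 2 fun l _ => (h1 _ _ _).mul (h1 _ _ _)))))
  simp only [kJ_eq]
  rw [Zf.pr0_eq _ _ hy, show I.1 + 2 + (J.1 + 2) = I.1 + (J.1 + 2) + 2 by ring,
    ← smul_eq_mul (α := ℝ) ((-1) ^ _), ← map_smul]
  convert this using 3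
  have l1 : ∀ μ, lm (X (inl μ)) = X μ := fun μ => aeval_X _ _
  have l2 : ∀ μ, lm (X (inr μ)) = -X μ := fun μ => aeval_X _ _
  rw [smul_mul_assoc, pow_succ, mul_smul, map_sum, Finset.mul_sum, Finset.mul_sum, spr,
    Finset.smul_sum]
  refine congrArg _ (Finset.sum_congr rfl fun l _ => ?_)
  simp only [syb, map_mul, sF, map_sub, apply_ite lm, map_zero, pl, l1, l2, neg_smul, one_smul]
  split_ifs <;> ring

/-- forward differences -/
theorem jet_fwd : Jet fun I => ∏ r : Fin I.1, X (inl (I.2 r.succ.succ)) := fun I => by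
  simpa [lm] using Ld.prod Finset.univ fun (r : Fin I.1) _ =>
    Ld.of_hom (isHomogeneous_X ℝ (inl (I.2 r.succ.succ)))

/-- the clover average and symmetric differences -/
theorem jet_sym : Jet fun I => (1 + (2⁻¹ : ℝ) • X (inr (I.2 0))) * (1 + (2⁻¹ : ℝ) • X (inr (I.2 1))) *
    ∏ r : Fin I.1, (2⁻¹ : ℝ) • (X (inl (I.2 r.succ.succ)) - X (inr (I.2 r.succ.succ))) := fun I => by
  have h1 : ∀ μ, Ld 0 (1 + (2⁻¹ : ℝ) • X (inr μ)) 1 := fun μ => by
    simpa using (Ld.of_hom (isHomogeneous_one _ _)).add (Ld.high (q := (2⁻¹ : ℝ) • X (inr μ)) (by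
      rw [zero_add, pow_one, smul_eq_C_mul]
      exact Ideal.mul_mem_left _ _ (Ideal.subset_span ⟨_, rfl⟩)))
  have h2 : ∀ μ, Ld 1 ((2⁻¹ : ℝ) • (X (inl μ) - X (inr μ))) (X μ) := fun μ => by
    have := Ld.of_hom (((isHomogeneous_X ℝ (inl μ)).sub (isHomogeneous_X ℝ (inr μ))).C_mul 2⁻¹)
    rw [← smul_eq_C_mul] at this
    convert this
    simp only [lm, map_smul, map_sub, aeval_X, elim_inl, elim_inr]
    module
  simpa using ((h1 _).mul (h1 _)).mul (Ld.prod Finset.univ fun (r : Fin I.1) _ => h2 _)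

end Pool.Agent.Lib.MP_7f377f_mp.Kw
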