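import Pool.Agent.Lib.MP_7f377f_mp.G.KwE
import Pool.Agent.Lib.MP_7f377f_mp.G.KwJ
import Pool.Agent.Lib.MP_7f377f_mp.JtQ

/-! The lattice propagator of local linear forms and their leading labels. -/

noncomputable section

namespace Pool.Agent.Lib.MP_7f377f_mp.Kw

open Filter Topology MvPolynomial Heat Weak Sum
open YZ (R4)
open Zf (Pp Dc Jx syb spr pr0)
open RG (Lk St V dd sh un gr)
open Finsupp (linearCombination)

section op
variable {M : Type} [AddCommGroup M] [Module ℝ M]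

theorem op_mul (r s : Lp) (f : St → M) :
    op (r * s) f = op r fun x => op s fun y => f (y + x) := by
  simp only [op, map_mul]
  induction sten r using AddMonoidAlgebra.induction_linear with
  | zero => simp
  | add a b ha hb => simp only [add_mul, AddMonoidAlgebra.coeff_add, map_add, ha, hb]
  | single z a =>
    induction sten s using AddMonoidAlgebra.induction_linear with
    | zero => simp
    | add a b ha hb =>
      simp only [mul_add, AddMonoidAlgebra.coeff_add, map_add, ha, hb, AddMonoidAlgebra.coeff_single,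
        Finsupp.linearCombination_single, smul_add]
    | single w b => simp only [AddMonoidAlgebra.single_mul_single, AddMonoidAlgebra.coeff_single,
        Finsupp.linearCombination_single, mul_smul, add_comm]

/-- `op` as a linear map -/
def opL (f : St → M) : Lp →ₗ[ℝ] M :=
  linearCombination ℝ f ∘ₗ (AddMonoidAlgebra.coeffLinearEquiv ℝ).toLinearMap ∘ₗ sten.toLinearMap

theorem opL_ap (f : St → M) (r : Lp) : opL f r = op r f := rfl

theorem op_sum {κ : Type} (S : Finset κ) (r : Lp) (f : κ → St → M) :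
    op r (fun x => ∑ i ∈ S, f i x) = ∑ i ∈ S, op r (f i) := by
  simp only [op, Finsupp.linearCombination_apply, Finsupp.sum, Finset.smul_sum]
  exact Finset.sum_comm

theorem op_one (f : St → M) : op 1 f = f 0 := by rw [← C_1, op_C, one_smul]

theorem ex_sh (x : St) : ∃ t : Lp, ∀ f : St → M, op t f = f x := by
  have h : ∀ (l : Fin 4) (n : ℤ), ∃ t : Lp, sten t = .single (Pi.single l n) 1 := fun l n => by
    induction n using Int.induction_on with
    | zero => exact ⟨1, by rw [map_one, Pi.single_zero]; rfl⟩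
    | succ n ih => exact ⟨ih.choose * (X (inl l) + 1), by
        rw [map_mul, ih.choose_spec]
        simp [sten, AddMonoidAlgebra.single_mul_single, Pi.single_add]⟩
    | pred n ih => exact ⟨ih.choose * (X (inr l) + 1), by
        rw [map_mul, ih.choose_spec]
        simp [sten, AddMonoidAlgebra.single_mul_single, Pi.single_add, sub_eq_add_neg, Pi.single_neg]⟩
  choose t ht using h
  exact ⟨∏ l, t l (x l), fun f => by
    simp [op, ht, AddMonoidAlgebra.prod_single, Finset.univ_sum_single]⟩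

end op

theorem Dz_neg (z : St) (r : Lp) : Dz (-z) r = Dz z (rename Sum.swap r) := by
  have e : ∀ y, Dz (-y) 1 = Dz y 1 := fun y => by
    simp only [Dz, ← C_1, C_apply, cf_mono, K_neg]
    rfl
  rw [← mul_one r, ← op_Dz, map_mul, map_one, ← op_Dz']
  simp only [← e (z - _), neg_sub', sub_neg_eq_add]

theorem Dz_lap (z : St) : Dz z (∑ l, X (inl l) * X (inr l)) = if z = 0 then 1 else 0 := by
  have := congrArg Complex.re (K_lap 0 0 (by simp) z 0)
  simp only [map_sum, Dz_XX, kk]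
  simpa [H_zero, apply_ite Complex.re] using this

/-- the linear form of a vector of difference operators -/
def fq : (Fin 4 → Lp) →ₗ[ℝ] V →ₗ[ℝ] ℝ :=
  ∑ l, opL (fun x => LinearMap.proj (x, l)) ∘ₗ LinearMap.proj l

theorem fq_map {M : Type} [AddCommGroup M] [Module ℝ M] (η : (V →ₗ[ℝ] ℝ) →ₗ[ℝ] M) (q : Fin 4 → Lp) :
    η (fq q) = ∑ l, op (q l) fun x => η (LinearMap.proj (x, l)) := by
  simp [fq, opL_ap, op_map]

theorem fq_ap (q : Fin 4 → Lp) (a : V) : fq q a = ∑ l, op (q l) fun x => a (x, l) :=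
  fq_map (LinearMap.applyₗ a) q

theorem fq_mul (r : Lp) (q : Fin 4 → Lp) (a : V) :
    fq (r • q) a = op r fun x => fq q (sh x a) := by
  simp only [fq_ap, Pi.smul_apply, smul_eq_mul, op_mul, op_sum, RG.sh_apply]

theorem fq_single (l : Fin 4) (r : Lp) (a : V) : fq (Pi.single l r) a = op r fun x => a (x, l) := by
  rw [fq_ap, Finset.sum_eq_single l (fun k _ h => by simp [h, ← opL_ap]) (by simp), Pi.single_eq_same]

theorem fq_sF (p : Fin 4 × Fin 4) (a : V) : fq (sF inl p) a = dd a 0 p.1 p.2 := by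
  have : sF inl p = Pi.single p.2 (1 * X (inl p.1)) - Pi.single p.1 (1 * X (inl p.2)) :=
    funext fun l => by simp [sF, Pi.single_apply, eq_comm]
  simp only [this, map_sub, LinearMap.sub_apply, fq_single, op_inl, op_one, dd, un]
  ring

/-- the lattice Maxwell operator -/
def mx : Module.End ℝ V := LinearMap.pi fun e =>
  ∑ ν, LinearMap.proj (e.1, ν) ∘ₗ (1 - RG.shL (-un ν)) ∘ₗ RG.Jt.io e.2

theorem mx_ap (a : V) (e : Lk) : mx a e = ∑ ν, (dd a e.1 e.2 ν - dd a (e.1 - un ν) e.2 ν) := by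
  simp [mx, RG.Jt.io_ap, RG.shL, LinearMap.funLeft_apply, ← sub_eq_add_neg]

/-- its transpose -/
def mT (χ : Fin 4 → Lp) : Fin 4 → Lp := ∑ μ, ∑ ν, (χ μ * -X (inr ν)) • sF inl (μ, ν)

theorem fq_mT (χ : Fin 4 → Lp) (a : V) : fq (mT χ) a = fq χ (mx a) := by
  simp only [mT, map_sum, LinearMap.sum_apply, fq_mul, fq_sF, RG.dd_sh, zero_add, fq_ap χ, mx_ap,
    op_sum]
  simp only [mul_neg, ← opL_ap, map_neg]
  simp only [opL_ap, op_inr, neg_sub]
  simp only [op, Finsupp.linearCombination_apply, Finsupp.sum, smul_sub, Finset.sum_sub_distrib, un]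

/-- the propagator from `φ` at the origin to `ψ` at `z` -/
def kf (z : St) (φ ψ : V →ₗ[ℝ] ℝ) : ℝ :=
  φ fun e => ψ fun e' => if e'.2 = e.2 then Dz (z + e'.1 - e.1) 1 else 0

theorem kf_fq (z : St) (q r : Fin 4 → Lp) :
    kf z (fq q) (fq r) = Dz z (∑ l, rename Sum.swap (q l) * r l) := by
  have e : ∀ (c : Prop) [Decidable c] (s : Lp) (f : St → ℝ),
      op s (fun x => if c then f x else 0) = if c then op s f else 0 := fun c _ s f => by
    split_ifs
    exacts [rfl, by simp [op, Finsupp.linearCombination_apply]]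
  simp only [kf, fq_ap, e, Finset.sum_ite_eq', Finset.mem_univ, if_true, ← sub_add_eq_add_sub,
    op_Dz, op_Dz', mul_one, map_sum]

theorem kf_neg (z : St) (q r : Fin 4 → Lp) : kf (-z) (fq r) (fq q) = kf z (fq q) (fq r) := by
  simp [kf_fq, Dz_neg, rename_rename, mul_comm]

theorem Fil.fq {φ : V →ₗ[ℝ] ℝ} {f : PZ 4 →₀ ℝ} (h : Fil φ f) {t : St → Lp}
    (ht : ∀ x (g : St → ℝ), op (t x) g = g x) :
    φ = fq (linearCombination ℝ (fun p : PZ 4 => t p.1 • sF inl p.2) f) := LinearMap.ext fun a => by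
  rw [h]
  simp [Finsupp.linearCombination_apply, Finsupp.sum, fq_mul, ht, fq_sF, RG.dd_sh]

theorem kl_kf {φ ψ : V →ₗ[ℝ] ℝ} {f g : PZ 4 →₀ ℝ} (h : Fil φ f) (h' : Fil ψ g) (z : St) :
    kl z f g = kf z φ ψ := by
  choose t ht using ex_sh (M := ℝ)
  rw [h.fq ht, h'.fq ht, kf_fq]
  clear h h'
  induction f using Finsupp.induction_linear with
  | zero => simp [kl]
  | add a b ha hb =>
    simp only [kl, map_add, Pi.add_apply, add_mul, Finset.sum_add_distrib] at ha hb ⊢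
    rw [ha, hb]
  | single p a =>
    induction g using Finsupp.induction_linear with
    | zero => simp [kl]
    | add c b ha hb =>
      simp only [kl, map_add, Pi.add_apply, mul_add, Finset.sum_add_distrib, smul_add,
        Finsupp.linearCombination_single] at ha hb ⊢
      rw [ha, hb]
    | single q b =>
      have e : ∀ l, rename Sum.swap (sF inl p.2 l) = sF inr p.2 l := fun l => by
        simp [sF, apply_ite (rename _)]
      simp only [kl, Finsupp.linearCombination_single, Pi.smul_apply, map_smul, smul_mul_smul_comm,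
        ← Finset.smul_sum, smul_eq_mul, map_mul, e, mul_assoc, mul_left_comm (sF inr p.2 _),
        ← Finset.mul_sum, ← op_Dz', ht, kM_Dz]
      simp only [← op_Dz, ht, mul_comm (sF inr p.2 _), sub_add_eq_add_sub]

/-- local forms -/
def Lc (φ : V →ₗ[ℝ] ℝ) : Prop := φ ∈ LinearMap.range fq ∧ ∀ u, φ (gr u) = 0

theorem Fil.lc {φ : V →ₗ[ℝ] ℝ} {f : PZ 4 →₀ ℝ} (h : Fil φ f) : Lc φ := by
  choose t ht using ex_sh (M := ℝ)
  refine ⟨⟨_, (h.fq ht).symm⟩, fun u => ?_⟩
  rw [h]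
  simp [Finsupp.linearCombination_apply, Finsupp.sum, RG.dd_gr]

theorem mT_gr (χ : Fin 4 → Lp) (u : St → ℝ) : fq (mT χ) (gr u) = 0 := by
  rw [fq_mT, show mx (gr u) = 0 from funext fun e => by simp [mx_ap, RG.dd_gr], map_zero]

/-- the form of a jet -/
def jq (I : Jx) : Fin 4 → Lp := (∏ r : Fin I.1, X (inl (I.2 r.succ.succ)) : Lp) • sF inl (pl I)

/-- forward differences -/
def xg (γ : RG.Jt.Mi) : Lp := ∏ l, X (inl l) ^ γ l

theorem fq_xg (γ : RG.Jt.Mi) (q : Fin 4 → Lp) (a : V) : fq (xg γ • q) a = fq q (RG.Jt.Dm γ a) := by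
  induction γ using RG.Jt.ind generalizing a with
  | h0 => simp [xg]
  | h1 γ i ih =>
    have e : xg (γ + RG.Jt.ei i) = 1 * X (inl i) * xg γ := by
      simp only [xg, Pi.add_apply, pow_add, Finset.prod_mul_distrib]
      simp [RG.Jt.ei_apply, pow_ite, mul_comm]
    rw [e, mul_smul, fq_mul, op_inl, op_one, op_one, RG.Jt.Dm_succ_ap, ← ih, RG.Jt.D1_apply, map_sub,
      zero_add, RG.sh_zero]
    rfl

theorem fq_jq (I : Jx) (a : V) :
    fq (jq I) a = dd (RG.Jt.Dm (∑ r : Fin I.1, RG.Jt.ei (I.2 r.succ.succ)) a) 0 (I.2 0) (I.2 1) := by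
  refine Eq.trans ?_ ((fq_xg _ _ a).trans (fq_sF (pl I) _))
  simp only [jq, xg, Finset.sum_apply, ← Finset.prod_pow_eq_pow_sum]
  rw [Finset.prod_comm]
  simp [RG.Jt.ei_apply, pow_ite]

/-- duality -/
theorem ex_dec {φ : V →ₗ[ℝ] ℝ} (h : φ ∈ LinearMap.range fq) {N : ℕ}
    (h0 : ∀ a ∈ RG.Jt.Pd N, mx a = 0 → φ a = 0) :
    ∃ s χ, (∀ l, s l ∈ idealOfVars _ ℝ ^ N) ∧ φ = fq s + fq (mT χ) := by
  let S : Submodule ℝ (V →ₗ[ℝ] ℝ) :=
    { carrier := {φ | ∃ s χ, (∀ l, s l ∈ idealOfVars _ ℝ ^ N) ∧ φ = fq s + fq (mT χ)}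
      add_mem' := by
        rintro _ _ ⟨s, χ, a, rfl⟩ ⟨s', χ', b, rfl⟩
        refine ⟨s + s', χ + χ', fun l => add_mem (a l) (b l), LinearMap.ext fun v => ?_⟩
        simp only [LinearMap.add_apply, fq_mT, map_add]
        ring
      zero_mem' := ⟨0, 0, fun _ => zero_mem _, LinearMap.ext fun v => by simp [fq_mT]⟩
      smul_mem' := by
        rintro c _ ⟨s, χ, a, rfl⟩
        refine ⟨c • s, c • χ, fun l => Submodule.smul_of_tower_mem _ c (a l),
          LinearMap.ext fun v => ?_⟩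
        simp only [LinearMap.add_apply, fq_mT, map_smul, LinearMap.smul_apply, smul_add] }
  by_contra hn
  obtain ⟨η, h1, h2⟩ := S.exists_dual_map_eq_bot_of_notMem hn inferInstance
  have k : ∀ q, η (fq q) = fq q fun e => η (LinearMap.proj e) := fun q => by rw [fq_map, fq_ap]
  have z : ∀ s χ, (∀ l, s l ∈ idealOfVars _ ℝ ^ N) → η (fq s + fq (mT χ)) = 0 := fun s χ a =>
    (Submodule.eq_bot_iff _).1 h2 _ ⟨_, ⟨s, χ, a, rfl⟩, rfl⟩
  obtain ⟨q, rfl⟩ := h
  choose t ht using ex_sh (M := ℝ)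
  refine h1 ((k q).trans (h0 _ (RG.Jt.mem_Pd.2 fun γ hγ => funext fun e => ?_) (funext fun e => ?_)))
  · have := z (xg γ • Pi.single e.2 (t e.1)) 0 fun l => Ideal.mul_mem_right _ _ (hom_mem (by
      simpa [← hγ, RG.Jt.dg, xg] using IsHomogeneous.prod _ _ _ fun l _ =>
        (isHomogeneous_X ℝ (inl l : Fin 4 ⊕ Fin 4)).pow (γ l)))
    simpa [k, fq_mT, fq_xg, fq_single, ht] using this
  · simpa [k, fq_mT, fq_single, ht] using z 0 (Pi.single e.2 (t e.1)) fun _ => zero_mem _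

theorem kf_null {ψ : V →ₗ[ℝ] ℝ} (h : Lc ψ) (χ : Fin 4 → Lp) :
    ∀ᶠ z in cofinite, kf z (fq (mT χ)) ψ = 0 := by
  obtain ⟨⟨r, rfl⟩, h⟩ := h
  have e : ∀ z s, Dz z (s * ∑ l, r l * X (inl l)) = 0 := fun z s => by
    rw [← h fun x => Dz (z + x) s, fq_ap, mul_comm, ← op_Dz, ← opL_ap, map_sum]
    simp only [opL_ap, op_inl, gr, un]
    simp only [op, Finsupp.linearCombination_apply, Finsupp.sum, smul_sub, Finset.sum_sub_distrib]
  have e2 : ∑ l, rename Sum.swap (mT χ l) * r l = (∑ μ, rename Sum.swap (χ μ) * r μ) *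
      ∑ l, X (inl l) * X (inr l) - (∑ μ, rename Sum.swap (χ μ) * X (inr μ)) * ∑ l, r l * X (inl l) := by
    simp [mT, sF, Fin.sum_univ_four]
    ring
  simp only [kf_fq, e2, map_sub, e, sub_zero]
  simp only [← op_Dz, Dz_lap]
  generalize ∑ μ, rename Sum.swap (χ μ) * r μ = s
  refine (((sten s).coeff.support.finite_toSet.image Neg.neg).eventually_cofinite_notMem).mono
    fun z hz => (Finsupp.linearCombination_apply ..).trans (Finset.sum_eq_zero fun x hx => ?_)
  beta_reduce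
  rw [if_neg fun k => hz ⟨x, hx, (eq_neg_of_add_eq_zero_left k).symm⟩, smul_zero]

/-- the leading label of a form is `c`, of order `n` -/
structure Lead (n : ℕ) (φ : V →ₗ[ℝ] ℝ) (c : Jx →₀ ℝ) : Prop where
  lc : Lc φ
  ord : ∀ I ∈ c.support, I.1 = n
  eq : ∀ a ∈ RG.Jt.Pd (n + 2), mx a = 0 → φ a = linearCombination ℝ (fun I => fq (jq I) a) c

theorem Ld.sum {κ : Type} {n : ℕ} {q : κ → Lp} {s : κ → Pp} (S : Finset κ)
    (h : ∀ i ∈ S, Ld n (q i) (s i)) : Ld n (∑ i ∈ S, q i) (∑ i ∈ S, s i) := by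
  classical
  induction S using Finset.induction_on with
  | empty => exact Ld.high (zero_mem _)
  | insert j S hj ih =>
    simp only [Finset.sum_insert hj]
    exact (h j (Finset.mem_insert_self ..)).add (ih fun i hi => h i (Finset.mem_insert_of_mem hi))

theorem Ld.smul {n : ℕ} {q : Lp} {s : Pp} (h : Ld n q s) (c : ℝ) : Ld n (c • q) (c • s) := by
  simpa [lm, C_mul'] using (Ld.of_hom (isHomogeneous_C _ c)).mul h

theorem Lead.dec {n : ℕ} {φ : V →ₗ[ℝ] ℝ} {c : Jx →₀ ℝ} (h : Lead n φ c) : ∃ q χ, Lc (fq q) ∧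
    φ = fq q + fq (mT χ) ∧ ∀ l, Ld (n + 1) (q l) (linearCombination ℝ (fun I => -syb I l) c) := by
  obtain ⟨s, χ, h1, h2⟩ := ex_dec (N := n + 2) (sub_mem h.lc.1 ⟨linearCombination ℝ jq c, rfl⟩)
    fun a a1 a2 => by
    simp [h.eq a a1 a2, Finsupp.linearCombination_apply, Finsupp.sum]
  rw [sub_eq_iff_eq_add', ← add_assoc, ← map_add] at h2
  refine ⟨_, χ, ⟨⟨_, rfl⟩, fun u => ?_⟩, h2, fun l => ?_⟩
  · simpa only [h2, LinearMap.add_apply, mT_gr, add_zero] using h.lc.2 u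
  have := (Ld.sum (n := n + 1) c.support fun I hI => Ld.smul (q := jq I l) (s := -syb I l) (by
    have h1 : (sF inl (pl I) l).IsHomogeneous 1 := by
      refine IsHomogeneous.sub ?_ ?_ <;> split_ifs <;>
        first | exact isHomogeneous_X _ _ | exact isHomogeneous_zero _ _ _
    rw [← h.ord I hI]
    refine (congrArg (Ld _ _) ?_).mp ((jet_fwd I).mul (Ld.of_hom h1))
    have l1 : ∀ μ, lm (X (inl μ)) = X μ := fun μ => aeval_X _ _
    simp only [syb, sF, map_sub, apply_ite lm, map_zero, pl, l1]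
    ring) (c I)).add (Ld.high (h1 l))
  simpa [Finsupp.linearCombination_apply, Finsupp.sum] using this

/-- the propagator of linear labels -/
def pL (c c' : Jx →₀ ℝ) (y : R4) : ℝ :=
  linearCombination ℝ (fun I => linearCombination ℝ (fun J => pr0 J I y) c') c

theorem kf_lim {T : Type} {F : Filter T} {ε : T → ℝ} {x : T → St} {y : R4} (hy : y ≠ 0)
    (hε : Tendsto ε F (𝓝[>] 0)) (hx : ∀ l, Tendsto (fun t => ε t * x t l) F (𝓝 (y l))) {n m : ℕ}
    {φ ψ : V →ₗ[ℝ] ℝ} {c c' : Jx →₀ ℝ} (h : Lead n φ c) (h' : Lead m ψ c') :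
    Tendsto (fun t => kf (x t) φ ψ / ε t ^ (n + 2 + (m + 2))) F (𝓝 (pL c c' y)) := by
  obtain ⟨q, χ, a1, rfl, a2⟩ := h.dec
  have b := kf_null h'.lc χ
  obtain ⟨r, χ', -, rfl, b2⟩ := h'.dec
  have e : Tendsto x F cofinite := le_cofinite_iff_eventually_ne.2 fun u => by
    obtain ⟨l, hl⟩ : ∃ l, y l ≠ 0 := by_contra fun k => hy (by ext l; exact not_not.1 (not_exists.1 k l))
    have := ((hx l).sub ((tendsto_nhdsWithin_iff.1 hε).1.mul_const (u l : ℝ))).eventually_ne
      (by simpa using hl)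
    exact this.mono fun t ht k => ht (by rw [show x t = u from k, sub_self])
  have := Dz_lim hy hε hx (Ld.sum Finset.univ fun l _ => (a2 l).swap.mul (b2 l))
  convert this.congr' (f₂ := fun t => kf (x t) (fq q + fq (mT χ)) (fq r + fq (mT χ')) /
    ε t ^ (n + 2 + (m + 2))) ?_ using 2
  · simp only [pL, Finsupp.linearCombination_apply, Finsupp.sum, Zf.pr0_eq _ _ hy, spr, smul_neg,
      Finset.sum_neg_distrib, smul_mul_assoc, neg_mul_neg, Finset.sum_mul_sum]
    simp only [smul_mul_smul_comm, map_sum, map_smul, smul_eq_mul, Finset.mul_sum, mul_smul_comm]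
    refine Eq.trans (Finset.sum_congr rfl fun I hI => ?_) Finset.sum_comm
    refine Eq.trans (Finset.sum_congr rfl fun J _ => ?_) Finset.sum_comm
    simp only [h.ord I hI, mul_comm (syb I _), mul_left_comm ((-1 : ℝ) ^ _)]
  · filter_upwards [e.eventually b, (neg_injective.tendsto_cofinite.comp e).eventually
      (kf_null a1 χ')] with t h1 h2
    rw [Function.comp, kf_neg] at h2
    rw [← kf_fq, show n + 1 + (m + 1) + 2 = n + 2 + (m + 2) by ring]
    simp only [kf, LinearMap.add_apply, ← Pi.add_def, map_add] at h1 h2 ⊢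
    congr 1
    linarith

theorem lc_jq (I : Jx) : Lc (fq (jq I)) := ⟨⟨_, rfl⟩, fun u => by
  simp [jq, fq_mul, RG.sh_gr, fq_sF, RG.dd_gr, op, Finsupp.linearCombination_apply]⟩

theorem lead_jq (I : Jx) : Lead I.1 (fq (jq I)) (.single I 1) :=
  ⟨lc_jq I, fun J h => by rw [Finset.mem_singleton.1 (Finsupp.support_single_subset h)],
    fun a _ _ => by simp⟩

theorem Lc.add {φ ψ : V →ₗ[ℝ] ℝ} (h : Lc φ) (h' : Lc ψ) : Lc (φ + ψ) :=
  ⟨add_mem h.1 h'.1, fun u => by simp [h.2, h'.2]⟩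

theorem Lc.smul {φ : V →ₗ[ℝ] ℝ} (h : Lc φ) (t : ℝ) : Lc (t • φ) :=
  ⟨Submodule.smul_mem _ t h.1, fun u => by simp [h.2]⟩

theorem Lc.dd {φ : V →ₗ[ℝ] ℝ} (h : Lc φ) {a b : V} (e : dd a = dd b) : φ a = φ b := by
  rw [RG.Jt.closed e, map_add, h.2, add_zero]

theorem ex_wd (n : ℕ) : ∀ γ, RG.Jt.dg γ = n → ∃ w : Fin n → Fin 4, ∑ r, RG.Jt.ei (w r) = γ := by
  induction n with
  | zero => exact fun γ h => ⟨0, by simp [RG.Jt.dg_eq_zero h]⟩
  | succ n ih =>
    intro γ h
    obtain ⟨β, i, rfl, k⟩ := RG.Jt.ex_succ h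
    obtain ⟨w, rfl⟩ := ih β k
    exact ⟨Fin.cons i w, by simp [Fin.sum_univ_succ, add_comm]⟩

/-- the jets of order `n` of the curvature see the field up to lower order -/
theorem ex_low {n : ℕ} {a : V} (ha : a ∈ RG.Jt.Pd (n + 2)) (h : ∀ I, fq (jq ⟨n, I⟩) a = 0) :
    ∃ b ∈ RG.Jt.Pd (n + 1), dd a = dd b := by
  refine ⟨_, RG.Jt.nw_mem (n + 1) (RG.Jt.jet a), _root_.funext fun x => funext₂ fun μ ν => ?_⟩
  have b : a - RG.Jt.nw (n + 1) (RG.Jt.jet a) ∈ RG.Jt.Pd (n + 1 + 1) :=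
    sub_mem ha (RG.Jt.Pd_mono (n + 1).le_succ (RG.Jt.nw_mem _ _))
  have := RG.Jt.Pd_ext (RG.Jt.io_Pd (k := n + 1) b μ) fun γ κ hγ => by
      rw [RG.Jt.jet_ap, ← (RG.Jt.cov_io μ).dm, RG.Jt.io_ap, RG.Jt.dd_Dm]
      simp only [map_sub, Pi.sub_apply, RG.Jt.jet_nw, RG.Jt.dg_add, RG.Jt.dg_ei]
      split_ifs with k
      · simp
      · obtain ⟨w, rfl⟩ := ex_wd n γ (by omega)
        simpa [fq_jq, RG.Jt.dd_Dm] using h (Fin.cons μ (Fin.cons κ w))
  simpa [RG.Jt.io_ap, RG.dd_sub, sub_eq_zero] using congrFun this (x, ν)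

theorem mx_congr {a b : V} (e : dd a = dd b) : mx a = mx b := funext fun _ => by
  rw [mx_ap, mx_ap, e]

/-- forms of order `n` on the solutions have a leading label -/
theorem ex_lead {n : ℕ} {φ : V →ₗ[ℝ] ℝ} (h : Lc φ)
    (h0 : ∀ a ∈ RG.Jt.Pd (n + 1), mx a = 0 → φ a = 0) : ∃ c, Lead n φ c := by
  let W := RG.Jt.Pd (n + 2) ⊓ LinearMap.ker mx
  have := mem_span_of_iInf_ker_le_ker (K := φ.domRestrict W)
    (L := fun I => (fq (jq ⟨n, I⟩)).domRestrict W) fun a ha => by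
      obtain ⟨b, b1, b2⟩ := ex_low a.2.1 fun I => (Submodule.mem_iInf _).1 ha I
      exact (h.dd b2).trans (h0 b b1 ((mx_congr b2).symm.trans a.2.2))
  obtain ⟨f, hf⟩ := Finsupp.mem_span_range_iff_exists_finsupp.1 this
  refine ⟨f.mapDomain (Sigma.mk n), h, fun I hI => ?_, fun a a1 a2 => ?_⟩
  · classical
    obtain ⟨J, -, rfl⟩ := Finset.mem_image.1 (Finsupp.mapDomain_support hI)
    rfl
  · rw [Finsupp.linearCombination_mapDomain]
    simpa [Finsupp.linearCombination_apply, Finsupp.sum] using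
      (LinearMap.congr_fun hf ⟨a, a1, a2⟩).symm

end Pool.Agent.Lib.MP_7f377f_mp.Kw
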