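import Pool.Agent.Lib.MP_7f377f_mp.G.ZfA
import Pool.Agent.Lib.MP_7f377f_mp.G.ZfB

/-! The free correlation functions: algebraic properties, covariance, derivatives. -/

noncomputable section

namespace Pool.Agent.Lib.MP_7f377f_mp.Zf

open MeasureTheory MvPolynomial Filter Topology Matrix Set Function
open YZ (R4 Var pr Adm)
open scoped ContDiff

set_option linter.unusedSectionVars false

variable {K : Type} [RCLike K] {d : ℕ} {ι κ : Type} [Fintype ι] [Fintype κ]

theorem E_zero {σ : Type} {A : σ → σ → K} (h : sy A = 0) (P : MvPolynomial σ K) :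
    E A P = constantCoeff P :=
  E_unique (G := lcoeff K 0) (sy A) (by simp) E_X_mul (fun r Q => by
    simp [h, show D (0 : σ → K) = 0 from derivation_ext fun q => by simp, ← constantCoeff_eq]) P

theorem La_congr {σ : Type} {A B : σ → σ → K} (h : sy A = sy B) (P : MvPolynomial σ K) :
    La A P = La B P :=
  ind ((La A).eqLocus (La B)) (by simp) (fun r Q a _ => by
    rw [LinearMap.mem_eqLocus] at a ⊢; rw [La_X_mul, La_X_mul, a, h]) P

/-- the product of the labels -/
def Rn (c : ι → Lb d K) : MvPolynomial (ι × Var d) K := ∏ i, rename (Prod.mk i) (c i)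

/-- the Wick functional of a configuration -/
def Ek (y : ι → R4) : MvPolynomial (ι × Var d) K →ₗ[K] K := E fun p q => kr K y p q / 2

theorem fp_eq (c : ι → Lb d K) (y : ι → R4) : fp c y = Ek y (Rn c) := wk_eq _ _

theorem kr_symm (y : ι → R4) (p q : ι × Var d) : kr K y p q = kr K y q p := by
  unfold kr
  by_cases h : y p.1 = y q.1
  · simp [h]
  · rw [if_neg h, if_neg (Ne.symm h), pr_symm _ _ (sub_ne_zero.2 h), neg_sub]

theorem sy_kr (y : ι → R4) : sy (fun p q : ι × Var d => kr K y p q / 2) = kr K y :=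
  sy_half (kr_symm y)

theorem Ek_X_mul (y : ι → R4) (r : ι × Var d) (Q) : Ek y (X r * Q) = Ek y (D (kr K y r) Q) := by
  rw [Ek, E_X_mul, sy_kr]

theorem Ek_X_X (y : ι → R4) (p q : ι × Var d) : Ek y (X p * X q) = kr K y p q := by
  rw [Ek, E_X_X, sy_kr]

theorem s_link : S_link d := fun k c f h => by
  refine integral_congr_ae (.of_forall fun y => ?_)
  by_cases e : ∏ i, (f i (y i) : ℂ) = 0
  · exact (mul_eq_zero_of_left e _).trans (mul_eq_zero_of_left e _).symm
  have hy : Injective y := fun i j a => by_contra fun n => Set.disjoint_left.1 (h.2 n)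
    (subset_tsupport _ fun z : f i (y i) = 0 => e (Finset.prod_eq_zero (Finset.mem_univ i) (by simp [z])))
    (subset_tsupport _ fun z => e (Finset.prod_eq_zero (Finset.mem_univ j) (by simp [← a, z])))
  refine congrArg (_ * ·) ?_
  rw [fp_eq, Ek, E_congr (B := fun p q =>
    if p.1 < q.1 then (pr p.2 q.2 (y p.1 - y q.1) : ℂ) else 0), E_eq, ← funext (dl_eq _)]
  · unfold dl
    simp only [finsum_eq_if, ite_smul, zero_smul]
    rfl
  · ext p q
    rw [sy_kr, sy]
    rcases lt_trichotomy p.1 q.1 with a | a | a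
    · simp [kr, a, a.asymm, hy.ne a.ne]
    · simp [kr, a]
    · rw [kr_symm]
      simp [kr, a, a.asymm, hy.ne a.ne]

theorem fp_ring {L : Type} [RCLike L] (f : K →+* L) (h : ∀ x : ℝ, f x = x) (c : ι → Lb d K)
    (y : ι → R4) : fp (fun i => map f (c i)) y = f (fp c y) := by
  rw [fp_eq, fp_eq, Ek, Ek, ← E_ring]
  simp only [Rn, map_prod, map_rename, kr, map_div₀, apply_ite f, map_zero, h, map_ofNat]

theorem s_real : S_real d := fun _ _ c y => fp_ring (algebraMap ℝ ℂ) (fun _ => rfl) c y

theorem fp_comp (π : κ → ι) (c : κ → Lb d K) (y : ι → R4) :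
    fp c (y ∘ π) = Ek y (∏ i, rename (Prod.mk (π i)) (c i)) := by
  have := E_rename (Prod.map π id) (fun p q => kr K y p q / 2) (Rn c)
  simp only [Rn, map_prod, rename_rename] at this
  exact (fp_eq _ _).trans this.symm

/-- the correlation function is multilinear -/
def fm [DecidableEq ι] (y : ι → R4) : MultilinearMap K (fun _ : ι => Lb d K) K :=
  (Ek y).compMultilinearMap ((MultilinearMap.mkPiAlgebra K ι _).compLinearMap fun i =>
    (rename (Prod.mk i)).toLinearMap)

theorem fm_apply [DecidableEq ι] (y : ι → R4) (c : ι → Lb d K) : fm y c = fp c y :=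
  (fp_eq c y).symm

theorem s_alg : S_alg K d := fun ι _ _ y => by
  refine ⟨⟨fm y, fm_apply y⟩, fun κ _ e c => ?_, fun c x => ?_, fun c a b x => ?_, fun c x => ?_⟩
  · rw [fp_comp, fp_eq, Rn, ← e.prod_comp]
    rfl
  · rw [fp_eq, Rn, Fintype.prod_option]
    simpa [comp_def] using (fp_comp some c fun i => i.elim x y).symm
  · refine Eq.trans (congrArg _ ?_) ((fp_comp (fun i : Option (Option ι) => i.join) _
      fun i => i.elim x y).trans ?_)
    · ext1 i
      rcases i with _ | _ | _ <;> rfl
    · simp [fp_eq, Rn, Fintype.prod_option, mul_assoc]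
  · rw [fp_eq, Ek, E_zero (by rw [sy_kr]; ext; simp [kr])]
    simp [Rn]

theorem rename_Lin {σ τ : Type} (f : σ → τ) {l : MvPolynomial σ K} (h : l ∈ Lin σ K) :
    rename f l ∈ Lin τ K :=
  (Submodule.span_le (p := (Lin τ K).comap (rename f).toLinearMap)).2
    (range_subset_iff.2 fun q => by simpa using X_mem_Lin _) h

/-- linear substitutions -/
theorem fp_map (φ : ι → Lb d K →ₐ[K] Lb d K) (hφ : ∀ i p, φ i (X p) ∈ Lin _ K) {y y' : ι → R4}
    (h : ∀ p q : ι × Var d, Ek y' (rename (Prod.mk p.1) (φ p.1 (X p.2)) *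
      rename (Prod.mk q.1) (φ q.1 (X q.2))) = kr K y p q) (c : ι → Lb d K) :
    fp (fun i => φ i (c i)) y' = fp c y := by
  have e : ∀ i P, aeval (fun p : ι × Var d => rename (Prod.mk p.1) (φ p.1 (X p.2)))
      (rename (Prod.mk i) P) = rename (Prod.mk i) (φ i P) := fun i P =>
    DFunLike.congr_fun (algHom_ext (f := (aeval _).comp (rename (Prod.mk i)))
      (g := (rename (Prod.mk i)).comp (φ i)) fun p => by simp) P
  have := E_map (aeval fun p : ι × Var d => rename (Prod.mk p.1) (φ p.1 (X p.2)))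
    (fun p => by simpa using rename_Lin _ (hφ _ _)) (A := fun p q => kr K y p q / 2)
    (L := fun p q => kr K y' p q / 2) (fun p q => by simpa [sy_kr, Ek] using h p q) (Rn c)
  simpa only [fp_eq, Ek, Rn, map_prod, e] using this

theorem ac_sub (g : Matrix (Fin 4) (Fin 4) ℝ) (x y : R4) : ac g (x - y) = ac g x - ac g y := by
  simp [ac, mulVec_sub]

theorem ac_inj {g : Matrix (Fin 4) (Fin 4) ℝ} {s : ℝ} (hs : s ≠ 0) (hg : gᵀ * g = s • 1) :
    Injective (ac g) := fun x y h => by
  have := congrArg (fun v : R4 => gᵀ *ᵥ v) h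
  simp only [ac, mulVec_mulVec, hg, smul_mulVec, one_mulVec] at this
  exact WithLp.ofLp_injective _ (smul_right_injective _ hs this)

theorem s_cov : S_cov K d := fun ι _ c y => by
  refine ⟨fun v => congrArg (wk · _) (by ext; simp [kr]),
    fun g s hs hg => fp_map (fun _ => _) (fun _ p => ?_)
    (fun p q => ?_) c, fun A h => fp_map (fun _ => _) (fun _ p => ?_) (fun p q => ?_) c⟩
  · simpa [rh] using Submodule.sum_mem _ fun J _ => Submodule.smul_mem _ _ (X_mem_Lin _)
  · simp only [rh, aeval_X, map_sum, map_smul, rename_X, Finset.sum_mul_sum, smul_mul_smul_comm,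
      Ek_X_X, kr, (ac_inj hs hg).eq_iff, ← ac_sub]
    split_ifs with e
    · simp
    · simp [← pr_cov hg hs p.2 q.2 (sub_ne_zero.2 e)]
  · simpa only [ad, aeval_X] using
      Submodule.sum_mem _ fun J _ => Submodule.smul_mem _ _ (X_mem_Lin _)
  · have e := fun a b : Fin d => pr_col p.2.1 q.2.1 a b (y p.1 - y q.1)
    have := congrFun₂ h p.2.2 q.2.2
    rw [one_apply] at this
    simp only [ad, aeval_X, map_sum, map_smul, rename_X, Finset.sum_mul_sum, smul_mul_smul_comm,
      Ek_X_X, kr, e, show pr p.2 q.2 _ = _ from e p.2.2 q.2.2, smul_eq_mul]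
    split_ifs with a b
    · simp
    all_goals
      norm_cast
      simp_all [mul_apply, ← Finset.sum_mul]

/-- derivations of the labels, one for every point -/
def lift (δ : ι → Derivation K (Lb d K) (Lb d K)) :
    Derivation K (MvPolynomial (ι × Var d) K) (MvPolynomial (ι × Var d) K) :=
  mkDerivation K fun p => rename (Prod.mk p.1) (δ p.1 (X p.2))

theorem lift_X (δ : ι → Derivation K (Lb d K) (Lb d K)) (p : ι × Var d) :
    lift δ (X p) = rename (Prod.mk p.1) (δ p.1 (X p.2)) := mkDerivation_X _ _ _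

theorem lift_Rn [DecidableEq ι] (δ : ι → Derivation K (Lb d K) (Lb d K)) (c : ι → Lb d K) :
    lift δ (Rn c) = ∑ i, Rn (update c i (δ i (c i))) := by
  have e : ∀ i P, lift δ (rename (Prod.mk i) P) = rename (Prod.mk i) (δ i P) := fun i P => by
    induction P using MvPolynomial.induction_on with
    | C a => simp
    | add p q a b => simp [a, b]
    | mul_X p q a => simp [a, lift_X]
  have l : ∀ (s : Finset ι) (f : ι → MvPolynomial (ι × Var d) K),
      lift δ (∏ i ∈ s, f i) = ∑ i ∈ s, (∏ j ∈ s.erase i, f j) • lift δ (f i) := fun s f => by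
    induction s using Finset.induction_on with
    | empty => simp
    | insert i s h ih =>
      rw [Finset.prod_insert h, Finset.sum_insert h, Finset.erase_insert h, Derivation.leibniz, ih,
        add_comm, Finset.smul_sum]
      refine congrArg _ (Finset.sum_congr rfl fun j a => ?_)
      rw [Finset.erase_insert_of_ne (ne_of_mem_of_not_mem a h).symm,
        Finset.prod_insert fun b => h (Finset.mem_of_mem_erase b), mul_smul]
  rw [Rn, l]
  refine Finset.sum_congr rfl fun i h => ?_
  rw [Rn, ← Finset.prod_erase_mul _ _ h, update_self, e, smul_eq_mul]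
  exact congrArg (· * _) (Finset.prod_congr rfl fun j a => by
    rw [update_of_ne (Finset.ne_of_mem_erase a)])

theorem fp_der [DecidableEq ι] (δ : ι → Derivation K (Lb d K) (Lb d K))
    (hδ : ∀ i p, δ i (X p) ∈ Lin _ K) {y : ι → R4} {B : ι × Var d → ι × Var d → K}
    (h : ∀ p q, Ek y (lift δ (X p * X q)) = sy B p q) (c : ι → Lb d K) :
    ∑ i, fp (update c i (δ i (c i))) y = Ek y (La B (Rn c)) := by
  simp only [fp_eq, ← map_sum, ← lift_Rn]
  exact E_der _ (fun p => lift_X δ p ▸ rename_Lin _ (hδ _ _)) h _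

theorem kr_smooth {y : ι → R4} (h : Injective y) (p q : ι × Var d) :
    ContDiffAt ℝ ∞ (fun y => kr K y p q) y := by
  by_cases e : p.1 = q.1
  · simpa [kr, e] using contDiffAt_const
  have : ∀ᶠ y : ι → R4 in 𝓝 y, y p.1 ≠ y q.1 :=
    (isOpen_ne_fun (by fun_prop) (by fun_prop)).mem_nhds (h.ne e)
  exact ((RCLike.ofRealCLM (K := K)).contDiff.contDiffAt.comp y ((pr_smooth p.2 q.2 (sub_ne_zero.2
    (h.ne e))).comp (f := fun y : ι → R4 => y p.1 - y q.1) y (by fun_prop))).congr_of_eventuallyEq
    (this.mono fun _ a => if_neg a)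

theorem fp_smooth {y : ι → R4} (h : Injective y) (c : ι → Lb d K) : ContDiffAt ℝ ∞ (fp c) y := by
  rw [funext (fp_eq c)]
  exact E_mem (p := fun f => ContDiffAt ℝ ∞ f y) (fun _ => contDiffAt_const) (fun _ _ => .add)
    (fun _ _ => .mul) _ (fun p q => by simpa only [sy_kr] using kr_smooth h p q) _

theorem Dv_X (μ : Fin 4) (p : Var d) :
    Dv μ (X p : Lb d K) = X (⟨p.1.1 + 1, Fin.snoc p.1.2 μ⟩, p.2) := mkDerivation_X _ _ _

theorem single_eq (μ : Fin 4) (s : ℝ) :
    (EuclideanSpace.single μ s : R4) = s • EuclideanSpace.single μ 1 := by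
  ext ν; simp

theorem sy_lift (y : ι → R4) (δ : ι → Derivation K (Lb d K) (Lb d K)) (p q : ι × Var d) :
    Ek y (lift δ (X p * X q)) = sy (fun p q => Ek y (lift δ (X p * X q)) / 2) p q := by
  rw [sy, mul_comm (X q), add_halves]

theorem s_der : S_der K d := fun ι _ _ c y h => by
  refine ⟨fp_smooth h c, fun i μ => ?_⟩
  set δ : ι → Derivation K (Lb d K) (Lb d K) := Pi.single i (Dv μ)
  have k : ∀ j ≠ i, ∀ p q : Var d, HasDerivAt (fun s : ℝ =>
      kr K (update y i (y i + EuclideanSpace.single μ s)) (i, p) (j, q))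
      (Ek y (lift δ (X (i, p) * X (j, q)))) 0 := fun j e p q => by
    have a : y i ≠ y j := h.ne e.symm
    have : ∀ᶠ s : ℝ in 𝓝 0, y i + s • EuclideanSpace.single μ 1 ≠ y j :=
      (isOpen_ne_fun (by fun_prop) (by fun_prop)).mem_nhds (by simpa using a)
    refine (((RCLike.ofRealCLM (K := K)).hasFDerivAt.comp_hasDerivAt _
      (pr_snoc μ p q (sub_ne_zero.2 a))).congr_of_eventuallyEq
      (this.mono fun s b => ?_)).congr_deriv ?_
    · rw [← single_eq] at b
      simp [kr, e, b, add_sub_right_comm]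
    · simp only [Derivation.leibniz, lift_X, δ, Pi.single_eq_of_ne e, Pi.single_eq_same, Dv_X,
        rename_X, smul_eq_mul, map_add, mul_comm (X (j, q)), Ek_X_X]
      simp [kr, a]
  have := E_deriv (fun (s : ℝ) p q => kr K (update y i (y i + EuclideanSpace.single μ s)) p q / 2)
    (B := fun p q => Ek y (lift δ (X p * X q)) / 2) (t := 0) (fun p q => ?_) (Rn c)
  · have e := fp_der δ (fun j p => ?_) (sy_lift y δ) c
    · rw [Finset.sum_eq_single i (fun j _ a => by
        simp [δ, a, ← fm_apply, MultilinearMap.map_update_zero]) (by simp)] at e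
      simp only [single_eq μ 0, zero_smul, add_zero, update_eq_self] at this
      rw [show δ i = Dv μ from Pi.single_eq_same _ _] at e
      simpa only [e, fp_eq _ (update _ _ _), Ek] using this
    · by_cases a : j = i <;> simp [δ, a, Dv_X, X_mem_Lin]
  · obtain ⟨j, p⟩ := p
    obtain ⟨l, q⟩ := q
    simp only [sy_kr, ← sy_lift]
    by_cases a : j = i <;> by_cases b : l = i
    · simpa [a, b, kr, lift_X, δ, Dv_X, Ek_X_X] using hasDerivAt_const (0 : ℝ) (0 : K)
    · exact a ▸ k l b p q
    · simpa only [b, kr_symm _ (j, p), mul_comm (X (j, p))] using k j a q p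
    · simpa [a, b, kr, lift_X, δ] using hasDerivAt_const (0 : ℝ) _

end Pool.Agent.Lib.MP_7f377f_mp.Zf
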