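import Pool.Agent.Lib.MP_7f377f_mp.G.ZfN0
import Pool.Agent.Lib.MP_7f377f_mp.G.ZfC

/-! The null ideal is invariant and is killed by the free theory. -/

noncomputable section

namespace Pool.Agent.Lib.MP_7f377f_mp.Zf

open MvPolynomial Filter Topology Matrix
open Function (update)
open YZ (R4 Var pr alt)

variable {K : Type} [RCLike K] {d n : ℕ} {ξ ξ' : Var d → ℝ} {c : Lb d K}

theorem on_zero : (0 : Var d → ℝ) ∈ On d := on_iff.2 ⟨0, by simp, by simp⟩

theorem on_add (h : ξ ∈ On d) (h' : ξ' ∈ On d) : ξ + ξ' ∈ On d := by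
  obtain ⟨η, h1, h2⟩ := on_iff.1 h
  obtain ⟨η', h3, h4⟩ := on_iff.1 h'
  exact on_iff.2 ⟨η + η', by simp [h1, h3, Finset.sum_add_distrib], fun p => by
    simp [h2, h4, Finset.sum_add_distrib, add_comm]⟩

theorem on_smul (t : ℝ) (h : ξ ∈ On d) : t • ξ ∈ On d := by
  obtain ⟨η, h1, h2⟩ := on_iff.1 h
  exact on_iff.2 ⟨t • η, by simp [h1, Finset.mul_sum], fun p => by simp [h2, Finset.mul_sum]⟩

theorem mul_tr {g : Matrix (Fin 4) (Fin 4) ℝ} {s : ℝ} (hg : gᵀ * g = s • 1) : g * gᵀ = s • 1 := by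
  by_cases hs : s = 0
  · rw [hs, zero_smul, ← conjTranspose_eq_transpose_of_trivial,
      conjTranspose_mul_self_eq_zero] at hg
    simp [hg, hs]
  · have : (s⁻¹ • gᵀ) * g = 1 := by rw [smul_mul, hg, inv_smul_smul₀ hs]
    rw [mul_eq_one_comm, Matrix.mul_smul, inv_smul_eq_iff₀ hs] at this
    exact this

theorem on_rh {g : Matrix (Fin 4) (Fin 4) ℝ} {s : ℝ} (hg : gᵀ * g = s • 1) (h : ξ ∈ On d) :
    (fun p : Var d => ∑ J : Fin (p.1.1 + 2) → Fin 4,
      (∏ r, g (J r) (p.1.2 r)) * ξ (⟨p.1.1, J⟩, p.2)) ∈ On d := by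
  obtain ⟨η, h1, h2⟩ := on_iff.1 h
  have e (a b : Fin 4) : ∑ l, g a l * g b l = if a = b then s else 0 := by
    simpa [mul_apply, one_apply] using congrFun (congrFun (mul_tr hg) a) b
  have e1 (f : Fin 4 → Fin 4 → ℝ) : ∑ μ, ∑ l, g l μ * ∑ ν, g ν μ * f l ν = s * ∑ l, f l l := by
    rw [Finset.sum_comm, Finset.mul_sum]
    refine Finset.sum_congr rfl fun l _ => ?_
    simp only [Finset.mul_sum, ← mul_assoc]
    rw [Finset.sum_comm]
    simp [← Finset.sum_mul, e]
  have e2 : sb g sq4 = s • sq4 := by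
    simp only [sq4, sb, map_sum, map_mul, aeval_X, Finset.sum_mul_sum, smul_mul_smul_comm]
    rw [Finset.sum_comm, Finset.smul_sum]
    refine Finset.sum_congr rfl fun l _ => ?_
    rw [Finset.sum_comm]
    simp [← Finset.sum_smul, e]
  have e3 (μ) (r) : sb g (X μ * r) = ∑ ν, g ν μ • (X ν * sb g r) := by simp [sb, Finset.sum_mul]
  refine on_iff.2 ⟨fun a l => ∑ l', g l' l • η a l' ∘ₗ (sb g).toLinearMap, fun a l r => ?_,
    fun p => ?_⟩
  · simp only [LinearMap.sum_apply, LinearMap.smul_apply, LinearMap.comp_apply,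
      AlgHom.toLinearMap_apply, smul_eq_mul]
    simp only [e3 _ (_ * _), map_sum, map_smul, smul_eq_mul, e1]
    simp only [map_mul (sb g) sq4, e2, smul_mul_assoc, map_smul, h1, smul_eq_mul, e3,
      Finset.mul_sum, mul_smul_comm, map_sum]
    rw [Finset.sum_comm]
    simp only [mul_left_comm s]
  · simp only [LinearMap.sum_apply, LinearMap.smul_apply, LinearMap.comp_apply,
      AlgHom.toLinearMap_apply, h2, mul_neg, Finset.sum_neg_distrib, Finset.mul_sum, neg_inj]
    rw [Finset.sum_comm, Finset.sum_comm (f := fun l l' => g l' l • _)]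
    refine Finset.sum_congr rfl fun l _ => ?_
    simpa only [map_sum, map_smul, smul_eq_mul] using congrArg (η p.2 l) (sy_cov g p.1.2 l)

theorem on_ad (A : Matrix (Fin d) (Fin d) ℝ) (h : ξ ∈ On d) :
    (fun p : Var d => ∑ b, A p.2 b * ξ (p.1, b)) ∈ On d := by
  obtain ⟨η, h1, h2⟩ := on_iff.1 h
  refine on_iff.2 ⟨fun a l => ∑ b, A a b • η b l, fun a l r => ?_, fun p => ?_⟩ <;>
    simp only [LinearMap.sum_apply, LinearMap.smul_apply, smul_eq_mul, h1, h2, Finset.mul_sum,
      mul_neg, Finset.sum_neg_distrib, neg_inj] <;> exact Finset.sum_comm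

theorem on_up (μ : Fin 4) (h : ξ ∈ On d) : (fun p : Var d => ξ (up μ p)) ∈ On d := by
  obtain ⟨η, h1, h2⟩ := on_iff.1 h
  refine on_iff.2 ⟨fun a l => η a l ∘ₗ LinearMap.mulLeft ℝ (X μ), fun a l r => ?_, fun p => ?_⟩
  · simp only [LinearMap.comp_apply, LinearMap.mulLeft_apply, mul_left_comm (X μ), h1]
  · simp only [h2, sy_up]; rfl

/-- infinitesimal action of a matrix on symbols -/
def dw (w : Matrix (Fin 4) (Fin 4) ℝ) : Derivation ℝ Pp Pp :=
  mkDerivation ℝ fun μ => ∑ ν, w ν μ • X ν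

theorem dw_X (w : Matrix (Fin 4) (Fin 4) ℝ) (μ : Fin 4) : dw w (X μ) = ∑ ν, w ν μ • X ν :=
  mkDerivation_X _ _ _

theorem dw_prod (w : Matrix (Fin 4) (Fin 4) ℝ) (t : Fin n → Fin 4) :
    ∑ r, ∑ l, w l (t r) • ∏ i, (X (update t r l i) : Pp) = dw w (∏ i, X (t i)) := by
  induction n with
  | zero => simp
  | succ n ih =>
    rw [← Fin.cons_self_tail t]
    simp only [Fin.sum_univ_succ (n := n), Fin.update_cons_zero, ← Fin.cons_update,
      Fin.prod_univ_succ, Fin.cons_zero, Fin.cons_succ, Derivation.leibniz, ← ih, dw_X, smul_eq_mul,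
      Finset.mul_sum, mul_smul_comm]
    rw [add_comm]
    simp only [mul_comm]

theorem sy_inf (w : Matrix (Fin 4) (Fin 4) ℝ) (I : Fin (n + 2) → Fin 4) (m : Fin 4) :
    ∑ r, ∑ l, w l (I r) • syb ⟨n, update I r l⟩ m =
      ∑ l, w m l • syb ⟨n, I⟩ l + dw w (syb ⟨n, I⟩ m) := by
  obtain ⟨i, j, t, rfl⟩ : ∃ i j t, I = vecCons i (vecCons j t) :=
    ⟨I 0, I 1, fun r => I r.succ.succ, by
      funext r; refine Fin.cases rfl (fun r => Fin.cases rfl (fun r => rfl) r) r⟩
  have e0 (l) : update (vecCons i (vecCons j t)) 0 l = vecCons l (vecCons j t) :=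
    Fin.update_cons_zero ..
  have e1 (l) : update (vecCons i (vecCons j t)) (Fin.succ 0) l = vecCons i (vecCons l t) :=
    (Fin.cons_update ..).symm.trans (congrArg _ (Fin.update_cons_zero ..))
  have e2 (r : Fin n) (l) : update (vecCons i (vecCons j t)) r.succ.succ l =
      vecCons i (vecCons j (update t r l)) :=
    (Fin.cons_update ..).symm.trans (congrArg _ (Fin.cons_update ..).symm)
  simp only [Fin.sum_univ_succ (n := n + 1), Fin.sum_univ_succ (n := n), e0, e1, e2, sy_cons,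
    cons_val_zero, cons_val_succ, ← mul_smul_comm, ← Finset.mul_sum, dw_prod, Derivation.leibniz,
    smul_eq_mul]
  simp only [mul_smul_comm, ← smul_mul_assoc, ← Finset.sum_mul, smul_sub, smul_ite, smul_zero,
    Finset.sum_sub_distrib, Finset.sum_ite_eq, Finset.sum_ite_eq', Finset.mem_univ, if_true,
    map_sub, apply_ite (dw w), map_zero, dw_X, Finset.sum_ite_irrel, Finset.sum_const_zero]
  ring

theorem on_sp {w : Matrix (Fin 4) (Fin 4) ℝ} (hw : wᵀ = -w) (h : ξ ∈ On d) :
    (fun p : Var d => ∑ r, ∑ l, w l (p.1.2 r) * ξ (⟨p.1.1, update p.1.2 r l⟩, p.2)) ∈ On d := by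
  obtain ⟨η, h1, h2⟩ := on_iff.1 h
  have e (a b) : w a b = -w b a := congrFun (congrFun hw b) a
  have e1 {M : Type} [AddCommGroup M] [Module ℝ M] (f : Fin 4 → Fin 4 → M) :
      ∑ a, ∑ b, w b a • f a b = -∑ a, ∑ b, w b a • f b a := by
    rw [Finset.sum_comm]
    simp only [← Finset.sum_neg_distrib, ← neg_smul, ← e]
  have e3 (μ) (r) : dw w (X μ * r) = X μ * dw w r + ∑ ν, w ν μ • (X ν * r) := by
    simp [dw_X, Finset.sum_mul, mul_comm r]
  have e2 : dw w sq4 = 0 := by
    have := e1 fun a b => (X a * X b : Pp)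
    simp only [sq4, map_sum, e3, dw_X, Finset.sum_add_distrib, Finset.mul_sum, mul_smul_comm, this,
      neg_add_cancel]
  refine on_iff.2 ⟨fun a l => ∑ l', w l' l • η a l' + η a l ∘ₗ (dw w).toLinearMap,
    fun a l r => ?_, fun p => ?_⟩
  · have := e1 fun μ ν => η a μ (X ν * (X l * r))
    have e4 : dw w (sq4 * r) = sq4 * dw w r := by simp [e2]
    simp only [LinearMap.add_apply, LinearMap.sum_apply, LinearMap.smul_apply, LinearMap.comp_apply,
      Derivation.coeFn_coe, e3, e4, h1, map_add, map_sum, map_smul, mul_add, Finset.mul_sum,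
      mul_smul_comm, Finset.sum_add_distrib, this, Finset.smul_sum]
    rw [Finset.sum_comm]
    ring
  · simp only [LinearMap.add_apply, LinearMap.sum_apply, LinearMap.smul_apply, LinearMap.comp_apply,
      Derivation.coeFn_coe, h2, mul_neg, Finset.sum_neg_distrib, Finset.mul_sum, neg_inj,
      Finset.sum_add_distrib]
    rw [Finset.sum_comm (f := fun l l' => w l' l • _), ← Finset.sum_add_distrib,
      Finset.sum_congr rfl fun r _ => Finset.sum_comm, Finset.sum_comm]
    refine Finset.sum_congr rfl fun l _ => ?_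
    simpa only [map_sum, map_smul, smul_eq_mul, map_add] using congrArg (η p.2 l) (sy_inf w p.1.2 l)

theorem on_sc (t : ℝ) (h : ξ ∈ On d) : (fun p : Var d => t ^ wt p * ξ p) ∈ On d := by
  have := on_rh (g := diagonal fun _ => t) (s := t * t) (by
    rw [diagonal_transpose, diagonal_mul_diagonal, smul_one_eq_diagonal]) h
  simpa [sum_diag, wt] using this

theorem mem_Nl : c ∈ Nl d K ↔ ∀ ξ ∈ On d, eval (fun p => (ξ p : K)) c = 0 := by
  simp [Nl, Submodule.mem_iInf]

theorem Nl_alg (φ : Lb d K →ₐ[K] Lb d K)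
    (h : ∀ ξ ∈ On d, ∃ ξ' ∈ On d, ∀ p, eval (fun p => (ξ p : K)) (φ (X p)) = ξ' p)
    (hc : c ∈ Nl d K) : φ c ∈ Nl d K := mem_Nl.2 fun ξ hξ => by
  obtain ⟨ξ', h1, h2⟩ := h ξ hξ
  rw [← mem_Nl.1 hc ξ' h1]
  exact DFunLike.congr_fun (ringHom_ext (f := (eval fun p => (ξ p : K)).comp φ.toRingHom)
    (g := eval fun p => (ξ' p : K)) (fun a => by simp) fun p => by simpa using h2 p) c

theorem Nl_der (δ : Derivation K (Lb d K) (Lb d K))
    (h : ∀ ξ ∈ On d, ∃ ξ' ∈ On d, ∀ p, eval (fun p => (ξ p : K)) (δ (X p)) = ξ' p)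
    (hc : c ∈ Nl d K) : δ c ∈ Nl d K := mem_Nl.2 fun ξ hξ => by
  obtain ⟨ξ', h1, h2⟩ := h ξ hξ
  refine (ev_der _ _ δ h2 c).unique ((hasDerivAt_const (0 : ℝ) (0 : K)).congr_of_eventuallyEq
    (.of_forall fun t => ?_))
  have := mem_Nl.1 hc _ (on_add hξ (on_smul t h1))
  simpa [RCLike.real_smul_eq_coe_mul] using this

theorem Nl_D (h : ξ ∈ On d) (hc : c ∈ Nl d K) : D (fun p => (ξ p : K)) c ∈ Nl d K :=
  Nl_der _ (fun _ _ => ⟨ξ, h, fun p => by simp⟩) hc

theorem Nl_wt (m : ℕ) (hc : c ∈ Nl d K) : weightedHomogeneousComponent wt m c ∈ Nl d K :=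
  mem_Nl.2 fun ξ hξ => by
    set φ : Lb d K →ₐ[K] Polynomial K :=
      aeval fun p => Polynomial.C (ξ p : K) * Polynomial.X ^ wt p with hφ
    have e (c : Lb d K) : eval (fun p => (ξ p : K)) (weightedHomogeneousComponent wt m c) =
        (φ c).coeff m := by
      induction c using MvPolynomial.induction_on' with
      | monomial α a =>
        have : φ (monomial α a) = Polynomial.C (eval (fun p => (ξ p : K)) (monomial α a)) *
            Polynomial.X ^ Finsupp.weight wt α := by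
          simp [hφ, aeval_monomial, eval_monomial, Finsupp.prod, mul_pow, Finset.prod_mul_distrib,
            ← pow_mul, Finset.prod_pow_eq_pow_sum, Finsupp.weight_apply, Finsupp.sum, mul_assoc,
            mul_comm (wt _)]
        rw [this, Polynomial.coeff_C_mul_X_pow, weightedHomogeneousComponent_of_mem
          (isWeightedHomogeneous_monomial wt α a rfl), apply_ite (eval _), map_zero]
      | add p q hp hq => simp only [map_add, hp, hq, Polynomial.coeff_add]
    rw [e, Polynomial.eq_zero_of_infinite_isRoot (φ c) ((Set.infinite_range_of_injective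
      (RCLike.ofReal_injective (K := K))).mono ?_), Polynomial.coeff_zero]
    rintro _ ⟨t, rfl⟩
    refine Eq.trans ?_ (mem_Nl.1 hc _ (on_sc t hξ))
    exact DFunLike.congr_fun (ringHom_ext (f := (Polynomial.evalRingHom (t : K)).comp φ.toRingHom)
      (g := eval fun p => ((t ^ wt p * ξ p : ℝ) : K)) (fun a => by simp) fun p => by
        simp only [φ, RingHom.comp_apply, AlgHom.toRingHom_eq_coe, RingHom.coe_coe, aeval_X, eval_X,
          Polynomial.coe_evalRingHom, Polynomial.eval_mul, Polynomial.eval_C, Polynomial.eval_pow,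
          Polynomial.eval_X]
        push_cast
        ring) c

theorem Nl_conj (hc : c ∈ Nl d K) : map (starRingEnd K) c ∈ Nl d K := mem_Nl.2 fun ξ hξ => by
  rw [← map_zero (starRingEnd K), ← mem_Nl.1 hc ξ hξ]
  exact DFunLike.congr_fun (ringHom_ext (f := (eval fun p => (ξ p : K)).comp (map (starRingEnd K)))
    (g := (starRingEnd K).comp (eval fun p => (ξ p : K))) (fun a => by simp) fun p => by simp) c

theorem Nl_fp {ι : Type} [Fintype ι] (a : ι → Lb d K) (y : ι → R4) (i : ι) (h : a i ∈ Nl d K) :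
    fp a y = 0 := by
  classical
  have k (R : MvPolynomial {q : ι × Var d // q.1 ≠ i} K) : ∀ c ∈ Nl d K,
      Ek y (rename (Prod.mk i) c * rename Subtype.val R) = 0 := by
    refine ind ⟨⟨⟨{R | ∀ c ∈ Nl d K, Ek y (rename (Prod.mk i) c * rename Subtype.val R) = 0},
      fun a b c hc => by simp [mul_add, a c hc, b c hc]⟩, by simp⟩,
      fun t R a c hc => by simp [a c hc]⟩ (fun c hc => ?_) (fun r Q hQ b c hc => ?_) R
    · rw [map_one, mul_one, Ek, E_rename, E_zero (by ext; simp [sy, kr]), ← eval_zero']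
      simpa using mem_Nl.1 hc 0 on_zero
    · rw [map_mul (rename _), rename_X, mul_left_comm, Ek_X_mul, Derivation.leibniz, smul_eq_mul, smul_eq_mul,
        D_map _ (c' := fun q => kr K y r q.1) (by simp),
        D_map _ (c' := fun p => kr K y r (i, p)) (by simp), map_add, b _ c hc, zero_add, mul_comm]
      refine hQ _ ?_
      simp only [kr_symm y r.1]
      simp only [kr]
      split_ifs with e
      · simpa using Nl_D on_zero hc
      · exact Nl_D (pr_on r.1.2 (sub_ne_zero.2 e)) hc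
  obtain ⟨R, hR⟩ : ∏ j ∈ Finset.univ.erase i, rename (Prod.mk j) (a j) ∈
      (rename (Subtype.val : {q : ι × Var d // q.1 ≠ i} → _) : _ →ₐ[K] _).range :=
    prod_mem fun j hj => ⟨rename (fun p => ⟨(j, p), Finset.ne_of_mem_erase hj⟩) (a j), by
      simp [rename_rename, Function.comp_def]⟩
  rw [fp_eq, Rn, ← Finset.mul_prod_erase _ _ (Finset.mem_univ i), ← hR]
  exact k R _ h

theorem s_null : S_null K d := fun c hc =>
  ⟨fun g s hg => Nl_alg _ (fun ξ h => ⟨_, on_rh hg h, fun p => by simp [rh]⟩) hc,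
    fun A => Nl_alg _ (fun ξ h => ⟨_, on_ad A h, fun p => by
      simp only [ad, aeval_X, map_sum, smul_eval, eval_X]; push_cast; rfl⟩) hc,
    fun μ => Nl_der _ (fun ξ h => ⟨_, on_up μ h, fun p => by simp [Dv_X, up]⟩) hc,
    fun w hw => Nl_der _ (fun ξ h => ⟨_, on_sp hw h, fun p => by
      simp only [Sp, mkDerivation_X, map_sum, smul_eval, eval_X]; push_cast; rfl⟩) hc,
    fun m => Nl_wt m hc, Nl_conj hc, fun _ _ a y i e => Nl_fp a y i (e ▸ hc)⟩

end Pool.Agent.Lib.MP_7f377f_mp.Zf
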