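import Pool.Agent.Lib.MP_7f377f_mp.JtK
import Pool.Agent.Lib.MP_7f377f_mp.G.ZfN1
import Pool.Agent.Lib.MP_7f377f_mp.G.KwF

/-! The dictionary between labels and symbols. -/

noncomputable section

namespace Pool.Agent.Lib.MP_7f377f_mp.RG.Jt

open Finset MvPolynomial
open Zf (Jx Lb Nl Pp mem_Nl)
open YZ (Var)

/-- the multi-index of a jet -/
def wd (I : Jx) : Mi := ∑ r : Fin I.1, ei (I.2 r.succ.succ)

/-- a jet of the curvature -/
def jx (I : Jx) : V →ₗ[ℝ] ℝ := LinearMap.proj (0, I.2 1) ∘ₗ io (I.2 0) ∘ₗ Dm (wd I)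

/-- the jets of the model fields -/
def jm (s : ℕ) (I : Jx) : (Ia s → ℝ) →ₗ[ℝ] ℝ := jx I ∘ₗ md s

/-- the coordinates as combinations of jets -/
def du {s : ℕ} (b : Ia s) : (Fin (dI b + 2) → Fin 4) → ℝ :=
  Classical.epsilon fun t => ∀ c, ∑ I, t I * jm s ⟨dI b, I⟩ c = c b

variable (K : Type) [RCLike K] (d s : ℕ)

/-- symbols -/
abbrev Sb : Type := MvPolynomial (Ia s × Fin d) K

/-- the symbol of a label -/
def toS : Lb d K →ₐ[K] Sb K d s :=
  aeval fun p => ∑ b, (jm s p.1 (Pi.single b 1) : K) • X (b, p.2)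

/-- the label of a symbol -/
def toL : Sb K d s →ₐ[K] Lb d K := aeval fun q => ∑ I, (du q.1 I : K) • X (⟨dI q.1, I⟩, q.2)

/-- symbols which vanish on shell -/
def Zo : Ideal (Sb K d s) := ⨅ x ∈ {x : Ia s × Fin d → K | ∀ k a, x (.inr k, a) = 0},
  RingHom.ker (eval x)

variable {K d s}

/-- matrices act on the colour index -/
def adS (A : Matrix (Fin d) (Fin d) ℝ) : Sb K d s →ₐ[K] Sb K d s :=
  aeval fun p => ∑ b, (A p.2 b : K) • X (p.1, b)

variable {I : Jx} {a : V} {k : ℕ} {c : Lb d K} {P : Sb K d s}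

theorem dg_wd (I : Jx) : dg (wd I) = I.1 := by
  simp only [wd, dg, Finset.sum_apply]
  rw [sum_comm]
  simp [ei_apply]

theorem jx_ap (I : Jx) (a : V) : jx I a = dd (Dm (wd I) a) 0 (I.2 0) (I.2 1) := rfl

theorem jx_cj (I : Jx) (a : V) : jx I a = cj I.1 a (⟨wd I, mem_Ih.2 (dg_wd I)⟩, I.2 0, I.2 1) := rfl

theorem ex_word (n : ℕ) : ∀ γ, dg γ = n → ∃ w : Fin n → Fin 4, ∑ r, ei (w r) = γ := by
  induction n with
  | zero => exact fun γ h => ⟨0, by simp [dg_eq_zero h]⟩
  | succ n ih =>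
    intro γ h
    obtain ⟨β, i, rfl, k⟩ := ex_succ h
    obtain ⟨w, rfl⟩ := ih β k
    exact ⟨Fin.cons i w, by simp [Fin.sum_univ_succ, add_comm]⟩

theorem cj_jx (p : Ih k × Fin 4 × Fin 4) : ∃ I, ∀ a, cj k a p = jx ⟨k, I⟩ a := by
  obtain ⟨w, hw⟩ := ex_word k p.1 (mem_Ih.1 p.1.2)
  exact ⟨Fin.cons p.2.1 (Fin.cons p.2.2 w), fun a => by simp [cj_ap, jx_ap, wd, hw]⟩

theorem cj_le {A : ℝ} (A0 : 0 ≤ A) (h : ∀ I, |jx ⟨k, I⟩ a| ≤ A) : ‖cj k a‖ ≤ A :=
  (pi_norm_le_iff_of_nonneg A0).2 fun p => let ⟨I, e⟩ := cj_jx p; (e a).symm ▸ h I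

theorem jx_le (I : Jx) (a : V) : |jx I a| ≤ ‖cj I.1 a‖ := by
  rw [jx_cj]
  exact norm_le_pi_norm (cj I.1 a) _

theorem fq_jx (I : Jx) (a : V) : Kw.fq (Kw.jq I) a = jx I a := Kw.fq_jq I a

theorem md_hom (b : Ia s) : ∀ α μ, dg α ≠ dI b + 1 → jet (md s (Pi.single b 1)) α μ = 0 := by
  intro α μ h
  rcases b with b | k
  · have : rl s (Pi.single (.inl b) 1) = Pi.single b 1 := funext fun i => by
      simp [rl, LinearMap.funLeft_apply, Pi.single_apply]
    rw [md_ap, this, show rr s (Pi.single (.inl b) 1) = 0 from funext fun i => by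
      simp [rr, LinearMap.funLeft_apply]]
    simpa [p0_ap, Pi.single_apply] using (eo_spec b.1 b.2).1.1.2 α μ h
  · have : rr s (Pi.single (.inr k) 1) = Pi.single k 1 := funext fun i => by
      simp [rr, LinearMap.funLeft_apply, Pi.single_apply]
    rw [md_ap, this, show rl s (Pi.single (.inr k) 1) = 0 from funext fun i => by
      simp [rl, LinearMap.funLeft_apply]]
    simp only [map_zero, zero_add, Gp, LinearMap.comp_apply, jet_nw]
    split_ifs
    · simpa using G0_bd (c := jet (pT (Pi.single k 1))) (α := α) le_rfl (fun β i hβ => by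
        have e : dg β ≠ dg (ta k).1 := fun e' => h (by rw [← hβ, e']; rfl)
        have : jet (tc k) β i = 0 := by
          rw [jet_tc, if_neg fun e' => e (by rw [← e']), if_neg, sub_zero]
          rintro ⟨e1, e2⟩
          obtain ⟨j, rfl⟩ := Sum.isRight_iff.1 e1
          exact e (by rw [(Prod.mk.inj e2).1]; simp [ta])
        simp [pT_ap, Pi.single_apply, this]) μ
    · rfl

/-- the jets are graded -/
theorem jm_gr (b : Ia s) (h : I.1 ≠ dI b) : jm s I (Pi.single b 1) = 0 := by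
  have : ∀ κ, dg (wd I + ei κ) ≠ dI b + 1 := fun κ => by simpa [dg_add, dg_wd] using h
  change jx I _ = 0
  rw [jx_ap, dd_Dm, md_hom b _ _ (this _), md_hom b _ _ (this _), sub_self]

theorem jm_sum (I : Jx) (x : Ia s → ℝ) : jm s I x = ∑ b, jm s I (Pi.single b 1) * x b := by
  conv_lhs => rw [pi_eq_sum_univ' x, map_sum]
  simp only [map_smul, smul_eq_mul, mul_comm]

theorem md_Pd (x : Ia s → ℝ) : md s x ∈ Pd (s + 2) := add_mem (p0_mem _) (nw_mem _ _)

theorem M0_md (hs : 2 ≤ s) (x : Ia s → ℝ) : M0 (md s x) = pT (rr s x) := by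
  rw [md_ap, map_add, M0_p0, zero_add, M0_Gp (pT_mem hs _)]

theorem md_inj (hs : 2 ≤ s) {x : Ia s → ℝ} (h : ∀ i, cj i (md s x) = 0) : x = 0 := by
  have h2 : rr s x = 0 := funext fun k => by
    rw [← jet_pT_ta (rr s x) k, ← M0_md hs, jet_ap, ← cov_M0.dm, M0_ap]
    simp only [← Dm_succ_ap']
    exact neg_eq_zero.2 (sum_eq_zero fun ν _ => congrFun (h _) (⟨_, mem_Ih.2 rfl⟩, ν, _))
  have h3 : rl s x = 0 := by
    rw [← pi0_p0 (rl s x)]
    simp only [md_ap, h2, map_zero, add_zero] at h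
    exact funext fun b => by simp [pi0_ap, h]
  funext a
  rcases a with b | k
  exacts [congrFun h3 b, congrFun h2 k]

theorem du_spec (hs : 2 ≤ s) (b : Ia s) (x : Ia s → ℝ) :
    ∑ I, du b I * jm s ⟨dI b, I⟩ x = x b := by
  refine Classical.epsilon_spec (p := fun t : (Fin (dI b + 2) → Fin 4) → ℝ =>
    ∀ c, ∑ I, t I * jm s ⟨dI b, I⟩ c = c b) ?_ x
  obtain ⟨t, ht⟩ := (Submodule.mem_span_range_iff_exists_fun ℝ).1 (mem_span_of_iInf_ker_le_ker
    (K := LinearMap.proj b) (L := fun I => jm s ⟨dI b, I⟩) fun x hx => by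
      have := md_inj hs (x := fun a => if dI a = dI b then x a else 0) fun i => funext fun p => by
        obtain ⟨I, e⟩ := cj_jx p
        refine (e _).trans ((jm_sum ⟨i, I⟩ _).trans ?_)
        by_cases h : i = dI b
        · subst h
          refine Eq.trans (sum_congr rfl fun a _ => ?_) ((jm_sum _ x).symm.trans
            ((Submodule.mem_iInf _).1 hx I))
          split_ifs with h1
          exacts [rfl, by rw [jm_gr a (Ne.symm h1), zero_mul, zero_mul]]
        · refine sum_eq_zero fun a _ => ?_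
          split_ifs with h1
          exacts [by rw [jm_gr a (h1 ▸ h), zero_mul], mul_zero _]
      simpa using congrFun this b)
  exact ⟨t, fun x => by simpa using LinearMap.congr_fun ht x⟩

/-- the functional on polynomials with given values on the monomials -/
def fn (g : Mi → ℝ) : Pp →ₗ[ℝ] ℝ := (basisMonomials _ ℝ).constr ℝ fun m => g m

theorem fn_mono (g : Mi → ℝ) (m : Fin 4 →₀ ℕ) : fn g (monomial m 1) = g m :=
  (basisMonomials _ ℝ).constr_basis ℝ _ m

theorem X_wd (I : Jx) (μ : Fin 4) : (X μ * ∏ r : Fin I.1, X (I.2 r.succ.succ) : Pp) =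
    monomial (Finsupp.equivFunOnFinite.symm (wd I + ei μ)) 1 := by
  simp only [X, ← monomial_sum_one, monomial_mul, mul_one]
  congr 2
  ext l
  simp [wd, ei_apply, Finsupp.single_apply, add_comm, eq_comm]

/-- solutions have on shell jets -/
theorem jx_on {A : Fin d → ℕ → V} (h : ∀ a n, M0 (A a n) = 0) :
    (fun p : Var d => jx p.1 (A p.2 p.1.1)) ∈ Zf.On d := by
  refine ⟨fun a l => fn fun m => jet (A a (dg m - 1)) m l, fun a l r => ?_, fun p => by
    simp only [jx_ap, dd_Dm, X_wd, fn_mono, Finsupp.coe_equivFunOnFinite_symm, dg_add, dg_ei, dg_wd,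
      add_tsub_cancel_right]⟩
  induction r using MvPolynomial.induction_on' with
  | add p q hp hq => simp only [mul_add, map_add, add_sub_add_comm, sum_add_distrib, hp, hq, add_zero]
  | monomial m t =>
    have := jet_M0 (A a (dg m + 1)) m l
    rw [h, map_zero, Pi.zero_apply, Pi.zero_apply, zero_eq_neg] at this
    have e : ∀ μ ν : Fin 4, ⇑(Finsupp.single μ 1 + Finsupp.single ν 1 + m : Fin 4 →₀ ℕ) =
        m + ei μ + ei ν :=
      fun μ ν => funext fun i => by simp [ei_apply, Finsupp.single_apply, eq_comm]; ring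
    rw [← mul_one t, ← smul_eq_mul, ← smul_monomial]
    simp only [mul_smul_comm, map_smul, ← smul_sub, ← smul_sum, X, monomial_mul, mul_one, fn_mono, e,
      dg_add, dg_ei, add_tsub_cancel_right]
    exact smul_eq_zero_of_right _ this

theorem jm_on (hs : 2 ≤ s) {x : Fin d → Ia s → ℝ} (h : ∀ a, x a ∈ Fo s) :
    (fun p : Var d => jm s p.1 (x p.2)) ∈ Zf.On d := jx_on (A := fun a _ => md s (x a)) fun a _ => by
  rw [M0_md hs, show rr s (x a) = 0 from funext (mem_Fo.1 (h a)), map_zero]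

theorem on_ex {ξ : Var d → ℝ} (h : ξ ∈ Zf.On d) (s : ℕ) : ∃ A : Fin d → V,
    (∀ a, A a ∈ Pd (s + 2) ∧ M0 (A a) = 0) ∧ ∀ p : Var d, p.1.1 ≤ s → ξ p = jx p.1 (A p.2) := by
  obtain ⟨η, h1, h2⟩ := h
  refine ⟨fun a => nw (s + 2) fun m l => η a l (monomial (Finsupp.equivFunOnFinite.symm m) 1),
    fun a => ⟨nw_mem _ _, Pd_ext (M0_Pd (nw_mem _ _)) fun α μ hα => ?_⟩, fun p hp => ?_⟩
  · have := h1 a μ (monomial (Finsupp.equivFunOnFinite.symm α) 1)
    have e : ∀ μ ν : Fin 4, Finsupp.single μ 1 + Finsupp.single ν 1 +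
        Finsupp.equivFunOnFinite.symm α = Finsupp.equivFunOnFinite.symm (α + ei μ + ei ν) :=
      fun μ ν => Finsupp.ext fun i => by simp [ei_apply, Finsupp.single_apply, eq_comm]; ring
    simpa only [X, monomial_mul, mul_one, e, jet_M0, jet_nw, dg_add, dg_ei,
      show dg α + 1 + 1 < s + 2 by omega, if_true, neg_eq_zero] using this
  · simp only [h2, jx_ap, dd_Dm, X_wd, jet_nw, dg_add, dg_ei, dg_wd,
      show p.1.1 + 1 < s + 2 by omega, if_true]

/-- on shell jets are jets of model fields -/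
theorem on_jm {ξ : Var d → ℝ} (h : ξ ∈ Zf.On d) (s : ℕ) : ∃ x : Fin d → Ia s → ℝ,
    (∀ a, x a ∈ Fo s) ∧ ∀ p : Var d, p.1.1 ≤ s → ξ p = jm s p.1 (x p.2) := by
  obtain ⟨A, h1, h2⟩ := on_ex h s
  refine ⟨fun a => Sum.elim (pi0 s (A a)) 0, fun a => mem_Fo.2 fun _ => rfl, fun p hp => ?_⟩
  change _ = jx p.1 (p0 s (pi0 s (A p.2)) + Gp s (pT 0))
  rw [map_zero, map_zero, add_zero, jx_cj, cj_congr (p0_pi0 (h1 _).1 (h1 _).2), ← jx_cj, h2 p hp]

theorem jx_eo (h : M0 a = 0) (n : ℕ) :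
    ∃ y : Fin (don n) → ℝ, ∀ w, jx ⟨n, w⟩ a = ∑ k, jx ⟨n, w⟩ (eo n k) * y k :=
  ⟨(bo n).repr ⟨_, cj_mem h n⟩, fun w => by
    have := congrArg Subtype.val ((bo n).sum_repr ⟨_, cj_mem h n⟩)
    simp only [AddSubmonoidClass.coe_finsetSum, SetLike.val_smul, ← (eo_spec _ _).2] at this
    simp only [jx_cj]
    conv_lhs => rw [← this]
    simp only [Finset.sum_apply, Pi.smul_apply, smul_eq_mul, mul_comm]⟩

/-- on shell jets in coordinates -/
theorem on_eo {ξ : Var d → ℝ} : ξ ∈ Zf.On d ↔ ∃ y : (Σ n, Fin (don n)) → Fin d → ℝ,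
    ∀ I a, ξ (I, a) = ∑ k : Fin (don I.1), Kw.fq (Kw.jq I) (eo I.1 k) * y ⟨I.1, k⟩ a := by
  simp only [fq_jx]
  refine ⟨fun h => ?_, fun ⟨y, h⟩ => ?_⟩
  · choose A h1 h2 using on_ex h
    choose y hy using fun n a => jx_eo (h1 n a).2 n
    exact ⟨fun q a => y q.1 a q.2, fun I a => (h2 _ (I, a) le_rfl).trans (hy _ _ _)⟩
  · convert jx_on (A := fun a n => ∑ k, y ⟨n, k⟩ a • eo n k) fun a n => by
      simp [(eo_spec _ _).1.2] using 2 with p
    simp only [h p.1 p.2, map_sum, map_smul, smul_eq_mul, mul_comm]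

theorem toS_X (p : Var d) :
    toS K d s (X p) = ∑ b, (jm s p.1 (Pi.single b 1) : K) • X (b, p.2) := aeval_X _ _

theorem toL_X (q : Ia s × Fin d) :
    toL K d s (X q) = ∑ I, (du q.1 I : K) • X (⟨dI q.1, I⟩, q.2) := aeval_X _ _

theorem ev_alg {σ τ : Type} (φ : MvPolynomial σ K →ₐ[K] MvPolynomial τ K) (x : τ → K)
    (P : MvPolynomial σ K) : eval x (φ P) = eval (fun p => eval x (φ (X p))) P := by
  induction P using MvPolynomial.induction_on <;> simp [*]

theorem eval_toS (x : Ia s × Fin d → K) (c : Lb d K) : eval x (toS K d s c) =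
    eval (fun p => ∑ b, (jm s p.1 (Pi.single b 1) : K) * x (b, p.2)) c := by
  simp only [ev_alg (toS K d s), toS_X, map_sum, smul_eval, eval_X]

theorem eval_toS' (x : Fin d → Ia s → ℝ) (c : Lb d K) :
    eval (fun q => (x q.2 q.1 : K)) (toS K d s c) = eval (fun p => (jm s p.1 (x p.2) : K)) c := by
  simp only [eval_toS, jm_sum _ (x _), RCLike.ofReal_sum, RCLike.ofReal_mul]

theorem toS_toL (hs : 2 ≤ s) (P : Sb K d s) : toS K d s (toL K d s P) = P := by
  refine AlgHom.congr_fun (φ₁ := (toS K d s).comp (toL K d s)) (φ₂ := AlgHom.id K _)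
    (algHom_ext fun q => ?_) P
  simp only [AlgHom.comp_apply, toL_X, toS_X, map_sum, map_smul, smul_sum, smul_smul]
  rw [sum_comm]
  simp only [← sum_smul, ← RCLike.ofReal_mul, ← RCLike.ofReal_sum, du_spec hs]
  simp [Pi.single_apply, apply_ite]

theorem toL_toS (hs : 2 ≤ s) (h : ∀ p ∈ c.vars, p.1.1 ≤ s) :
    toL K d s (toS K d s c) - c ∈ Nl d K := mem_Nl.2 fun ξ hξ => by
  obtain ⟨x, -, e⟩ := on_jm hξ s
  rw [map_sub, ev_alg (toL K d s), sub_eq_zero]
  refine Eq.trans (congrArg (eval · _) (funext fun q => ?_)) ((eval_toS' x c).trans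
    (eval₂Hom_congr' rfl (fun p hp _ => by rw [e p (h p hp)]) rfl))
  rw [toL_X, map_sum, ← du_spec hs q.1 (x q.2), RCLike.ofReal_sum]
  refine sum_congr rfl fun I _ => ?_
  rw [smul_eval, eval_X, e (⟨_, I⟩, q.2) (dI_le hs q.1), RCLike.ofReal_mul]

theorem mem_Zo : P ∈ Zo K d s ↔ ∀ x, (∀ k a, x (.inr k, a) = 0) → eval x P = 0 :=
  (Submodule.mem_iInf _).trans (forall_congr' fun _ => Submodule.mem_iInf _)

theorem Zo_real (h : ∀ x : Fin d → Ia s → ℝ, (∀ a, x a ∈ Fo s) →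
    eval (fun q => (x q.2 q.1 : K)) P = 0) : P ∈ Zo K d s := mem_Zo.2 fun x hx => by
  let z : Sb K d s →ₐ[K] Sb K d s := aeval fun q => if q.1.isLeft then X q else 0
  have e : ∀ y, eval y (z P) = eval (fun q => if q.1.isLeft then y q else 0) P := fun y => by
    rw [ev_alg]
    simp [z, apply_ite (eval y)]
  have h0 : z P = 0 := funext_set (fun _ => Set.range RCLike.ofReal) (fun _ =>
    Set.infinite_range_of_injective RCLike.ofReal_injective) fun y hy => by
      choose u hu using fun q => hy q trivial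
      rw [e, map_zero]
      exact (congrArg (eval · P) (funext fun q => by
        simp only [← hu, apply_ite (RCLike.ofReal (K := K)), RCLike.ofReal_zero])).trans
        (h (fun a b => if b.isLeft then u (b, a) else 0) fun a => mem_Fo.2 fun _ => rfl)
  have := e x
  rw [h0, map_zero] at this
  refine Eq.trans (congrArg (eval · P) (funext fun q => ?_)) this.symm
  rcases q with ⟨b | k, a⟩ <;> simp [hx]

/-- null labels have null symbols -/
theorem toS_null (hs : 2 ≤ s) (h : c ∈ Nl d K) : toS K d s c ∈ Zo K d s :=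
  Zo_real fun x hx => (eval_toS' x c).trans (mem_Nl.1 h _ (jm_on hs hx))

theorem null_toS (h : ∀ p ∈ c.vars, p.1.1 ≤ s) (h1 : toS K d s c ∈ Zo K d s) : c ∈ Nl d K :=
  mem_Nl.2 fun ξ hξ => by
    obtain ⟨x, hx, e⟩ := on_jm hξ s
    exact (eval₂Hom_congr' rfl (fun p hp _ => by rw [e p (h p hp)]) rfl).trans
      ((eval_toS' x c).symm.trans (mem_Zo.1 h1 _ fun k a => by simp [mem_Fo.1 (hx a)]))

theorem toL_vars (hs : 2 ≤ s) (P : Sb K d s) : ∀ p ∈ (toL K d s P).vars, p.1.1 ≤ s := by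
  classical
  intro p hp
  obtain ⟨q, -, h1⟩ := mem_biUnion.1 (vars_bind₁ _ _ hp)
  obtain ⟨I, -, h2⟩ := mem_biUnion.1 (vars_sum_subset _ _ h1)
  rw [smul_eq_C_mul] at h2
  have := vars_mul _ _ h2
  simp only [vars_C, vars_X, empty_union, mem_singleton] at this
  exact this ▸ dI_le hs q.1

theorem toL_null (hs : 2 ≤ s) : toL K d s P ∈ Nl d K ↔ P ∈ Zo K d s :=
  ⟨fun h => toS_toL hs P ▸ toS_null hs h, fun h => null_toS (toL_vars hs P) ((toS_toL hs P).symm ▸ h)⟩

theorem hom_alg {σ τ : Type} {w : σ → ℕ} {w' : τ → ℕ} {φ : MvPolynomial σ K →ₐ[K] MvPolynomial τ K}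
    (h : ∀ p, IsWeightedHomogeneous w' (φ (X p)) (w p)) {c : MvPolynomial σ K}
    (hc : IsWeightedHomogeneous w c k) : IsWeightedHomogeneous w' (φ c) k := by
  rw [c.as_sum, map_sum]
  refine .sum _ _ _ fun m hm => ?_
  rw [← hc (mem_support_iff.1 hm), monomial_eq, map_mul, algHom_C, algebraMap_eq, Finsupp.prod,
    map_prod, Finsupp.weight_apply, Finsupp.sum]
  exact .C_mul (.prod _ _ _ fun p _ => map_pow φ _ _ ▸ (h p).pow _) _

theorem toS_hom (h : IsWeightedHomogeneous Zf.wt c k) :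
    IsWeightedHomogeneous (fun q => wt q.1) (toS K d s c) k :=
  hom_alg (fun p => toS_X (K := K) p ▸ .sum _ _ _ fun b _ => by
    by_cases e : p.1.1 = dI b
    · rw [show Zf.wt p = wt b by rw [Zf.wt, wt, e, add_comm]]
      exact (weightedHomogeneousSubmodule K _ _).smul_mem _ (isWeightedHomogeneous_X K _ (b, p.2))
    · rw [jm_gr b e, RCLike.ofReal_zero, zero_smul]
      exact isWeightedHomogeneous_zero K _ _) h

theorem toL_hom (h : IsWeightedHomogeneous (fun q => wt q.1) P k) :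
    IsWeightedHomogeneous Zf.wt (toL K d s P) k :=
  hom_alg (fun q => toL_X (K := K) q ▸ .sum _ _ _ fun I _ => by
    rw [wt, add_comm]
    exact (weightedHomogeneousSubmodule K _ _).smul_mem _
      (isWeightedHomogeneous_X K Zf.wt (⟨_, I⟩, q.2))) h

theorem toS_deg (h : c.IsHomogeneous k) : (toS K d s c).IsHomogeneous k :=
  hom_alg (fun p => toS_X (K := K) p ▸ .sum _ _ _ fun _ _ =>
    (weightedHomogeneousSubmodule K _ _).smul_mem _ (isWeightedHomogeneous_X K _ _)) h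

theorem toL_deg (h : P.IsHomogeneous k) : (toL K d s P).IsHomogeneous k :=
  hom_alg (fun p => toL_X (K := K) p ▸ .sum _ _ _ fun _ _ =>
    (weightedHomogeneousSubmodule K _ _).smul_mem _ (isWeightedHomogeneous_X K _ _)) h

theorem toS_ad (A : Matrix (Fin d) (Fin d) ℝ) (c : Lb d K) :
    toS K d s (Zf.ad A c) = adS A (toS K d s c) := by
  refine AlgHom.congr_fun (φ₁ := (toS K d s).comp (Zf.ad A)) (φ₂ := (adS A).comp (toS K d s))
    (algHom_ext fun p => ?_) c
  simp only [AlgHom.comp_apply, Zf.ad, adS, aeval_X, toS_X, map_sum, map_smul, smul_sum, smul_smul]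
  rw [sum_comm]
  simp only [mul_comm]

theorem toL_ad (A : Matrix (Fin d) (Fin d) ℝ) (P : Sb K d s) :
    toL K d s (adS A P) = Zf.ad A (toL K d s P) := by
  refine AlgHom.congr_fun (φ₁ := (toL K d s).comp (adS A)) (φ₂ := (Zf.ad A).comp (toL K d s))
    (algHom_ext fun p => ?_) P
  simp only [AlgHom.comp_apply, Zf.ad, adS, aeval_X, toL_X, map_sum, map_smul, smul_sum, smul_smul]
  rw [sum_comm]
  simp only [mul_comm]

theorem toS_map {K' : Type} [RCLike K'] (f : K →+* K') (hf : ∀ t : ℝ, f t = t) (c : Lb d K) :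
    toS K' d s (map f c) = map f (toS K d s c) := by
  induction c using MvPolynomial.induction_on <;> simp only [map_add, map_mul, map_X, toS_X, map_sum,
    smul_eq_C_mul, map_C, algHom_C, algebraMap_eq, *]

theorem toL_map {K' : Type} [RCLike K'] (f : K →+* K') (hf : ∀ t : ℝ, f t = t) (P : Sb K d s) :
    toL K' d s (map f P) = map f (toL K d s P) := by
  induction P using MvPolynomial.induction_on <;> simp only [map_add, map_mul, map_X, toL_X, map_sum,
    smul_eq_C_mul, map_C, algHom_C, algebraMap_eq, *]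

/-- the jets of the sections are those of the model up to the anisotropy -/
theorem Lv.jx_sec {R : ℕ} {m : BF} {v σ t A : ℝ} (hm : Lv R m v σ) (ht : Sc R s σ t A) (hs : 2 ≤ s)
    (b : Ia s) (h : dI b ≤ I.1) :
    |jx I (sec R m v s (Pi.single b 1)) - jm s I (Pi.single b 1)| ≤ C2 s * (64 * σ) := by
  rcases h.eq_or_lt with e | e
  · have := hm.sec_top ht hs b
    rw [e] at this
    rw [abs_sub_comm]
    exact le_of_eq_of_le (by rw [map_sub]; rfl) ((jx_le I _).trans this)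
  · rw [jm_gr b e.ne', jx_cj, cj_Pd (hm.sec_mem ht hs (dI_le hs b) (mem_Fk.1 (single_Fk b))).1 e]
    rw [Pi.zero_apply, sub_zero, abs_zero]
    exact mul_nonneg (C2_nonneg s) (mul_nonneg (by norm_num) hm.σ0)

end Pool.Agent.Lib.MP_7f377f_mp.RG.Jt
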