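import Pool.Agent.Lib.MP_7f377f_mp.G.JuA
import Pool.Agent.Lib.MP_7f377f_mp.G.Q5TanD

/-! The tangent step on holomorphic local terms near a point: the pieces of one step. -/

noncomputable section

set_option linter.unusedSectionVars false
variable [Pool.Agent.Lib.MP_7f377f_mp.GD]

namespace Pool.Agent.Lib.MP_7f377f_mp.RG.Q4

open Finset MeasureTheory La La.Q
open scoped Classical

attribute [local irreducible] box lbox tb tau rc

/-- the function minus its value at zero -/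
def cen (φ : Fld → ℂ) : Fld → ℂ := fun B => φ B - φ 0

/-- the same for the restriction to small real fields -/
def ccn (p : Pa) (φ : Fld → ℂ) : Fld → ℂ := fun B => ctr p.R p.ρ φ B - ctr p.R p.ρ φ 0

def Bdd (φ : Fld → ℂ) : Prop := ∃ M, ∀ B, ‖φ B‖ ≤ M

/-- holomorphic local terms within the distance `d` of the site `c` -/
def Tf (n R : ℕ) (ρ h M : ℝ) (c : St) (d : ℕ) (φ : Lx) : Prop :=
  ∀ x, Tbw R ρ h M (φ x) ∧ Bdd (φ x) ∧ (¬ nearT n d c x → φ x = 0)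

/-- a local term at the site `c` -/
def ptL (n : ℕ) (c : St) (φ : Fld → ℂ) : Lx := fun x => if nearT n 0 c x then φ else 0

/-- activities which vanish away from `c` -/
def KS (n : ℕ) (c : St) (d : ℕ) (K : Ac) : Prop :=
  ∀ X a, (∀ x ∈ X, ¬ nearT n d c x) → K X a = 0

/-- the blocks of the ball of radius `d` around `c` lie in the ball of radius `d'` -/
def Dn (l : ℕ) (c : St) (d d' : ℕ) : Prop := ∀ w ∈ box d, yo l (c + w) - yo l c ∈ box d'

namespace Sd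

variable (S : Sd)

/-- the push -/
def uP (φ : Lx) : Lx := fun y => push (nuI S.ζ) S.l S.Gx fun x => cen (S.ψy φ y x)

/-- its linear part -/
def uL (φ : Lx) : Lx := fun y => lpush S.l S.s fun x => cen (S.ψy φ y x)

/-- the local terms which are born from the small polymers -/
def uB (J : Ac) : Lx := fun y => -∑ X ∈ S.X1s, ((dn S.l S.n X).card : ℂ)⁻¹ •
  opT S.p'.R (60 * S.p'.ρ) (S.g / S.Q ^ 6) (S.Fsr (S.Ky J y) X)

end Sd

section basic

variable {n l R R' d d' : ℕ} {ρ ρ' h h' M M' : ℝ} {c x : St} {φ φ' : Fld → ℂ} {ψ ψ' : Lx}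
  {K K' : Ac}

theorem Bdd.zero : Bdd 0 := ⟨0, fun _ => norm_zero.le⟩

theorem Bdd.add (a : Bdd φ) (b : Bdd φ') : Bdd (φ + φ') :=
  let ⟨_, p⟩ := a; let ⟨_, q⟩ := b; ⟨_, fun B => norm_add_le_of_le (p B) (q B)⟩

theorem Bdd.smul (a : Bdd φ) (t : ℂ) : Bdd (t • φ) :=
  let ⟨M, p⟩ := a
  ⟨‖t‖ * M, fun B => (norm_smul_le t (φ B)).trans (mul_le_mul_of_nonneg_left (p B) (norm_nonneg _))⟩

theorem Bdd.neg (a : Bdd φ) : Bdd (-φ) := by simpa using a.smul (-1)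

theorem Bdd.sub (a : Bdd φ) (b : Bdd φ') : Bdd (φ - φ') := sub_eq_add_neg φ φ' ▸ a.add b.neg

theorem Bdd.sum {ι : Type} (s : Finset ι) {f : ι → Fld → ℂ} (a : ∀ i ∈ s, Bdd (f i)) :
    Bdd (∑ i ∈ s, f i) := sum_induction f Bdd (fun _ _ => Bdd.add) Bdd.zero a

theorem Bdd.cen (a : Bdd φ) : Bdd (cen φ) := a.sub ⟨‖φ 0‖, fun _ => le_rfl⟩

theorem cen_lin (φ φ' : Fld → ℂ) (t : ℂ) : cen (φ + t • φ') = cen φ + t • cen φ' := by
  funext B; simp only [cen, Pi.add_apply, Pi.smul_apply, smul_eq_mul]; ring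

theorem cen_zero : cen 0 = 0 := funext fun _ => sub_self _

theorem cen_of (e : φ 0 = 0) : cen φ = φ := funext fun B => by rw [cen, e, sub_zero]

theorem inT_zero (h1 : 0 ≤ ρ) (h2 : 0 ≤ h) : InT R ρ h 0 := inT_ball (Ho.cv_zero R h2) h1

theorem Tbw.cen (H : Tbw R ρ h M φ) (h1 : 0 ≤ ρ) (h2 : 0 ≤ h) : Tbw R ρ h (2 * M) (cen φ) :=
  (H.sub (Tbw.const R ρ h (φ 0))).mono le_rfl le_rfl le_rfl
    (by linarith [H.bd 0 (inT_zero h1 h2)])

theorem opT_bdd (H : ∀ B, InT R ρ h B → ‖φ B‖ ≤ M) : Bdd (opT R ρ h φ) :=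
  ⟨|M|, fun B => by
    unfold opT
    split_ifs with e
    · obtain ⟨k, e1, e2⟩ := e
      exact (H B (e2.mono le_rfl le_rfl e1.le)).trans (le_abs_self M)
    · simp⟩

theorem Tf.mono (H : Tf n R ρ h M c d ψ) (hR : R ≤ R') (hh : h' ≤ h) (hM : M ≤ M') (hd : d ≤ d') :
    Tf n R' ρ h' M' c d' ψ := fun x =>
  ⟨(H x).1.mono hR le_rfl hh hM, (H x).2.1, fun e => (H x).2.2 fun q => e (q.mono hd)⟩

theorem Tf.zero (M0 : 0 ≤ M) : Tf n R ρ h M c d 0 := fun _ =>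
  ⟨(Tbw.zero R ρ h).mono le_rfl le_rfl le_rfl M0, Bdd.zero, fun _ => rfl⟩

theorem Tf.add (H : Tf n R ρ h M c d ψ) (H' : Tf n R ρ h M' c d ψ') :
    Tf n R ρ h (M + M') c d (ψ + ψ') := fun x =>
  ⟨(H x).1.add (H' x).1, (H x).2.1.add (H' x).2.1, fun e => by
    rw [Pi.add_apply, (H x).2.2 e, (H' x).2.2 e, add_zero]⟩

theorem Tf.smul (H : Tf n R ρ h M c d ψ) (t : ℂ) : Tf n R ρ h (‖t‖ * M) c d (t • ψ) := fun x =>
  ⟨(H x).1.smul t, (H x).2.1.smul t, fun e => by rw [Pi.smul_apply, (H x).2.2 e, smul_zero]⟩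

theorem Tf.sum {ι : Type} (s : Finset ι) {N : ι → ℝ} {f : ι → Lx}
    (H : ∀ i ∈ s, Tf n R ρ h (N i) c d (f i)) : Tf n R ρ h (∑ i ∈ s, N i) c d (∑ i ∈ s, f i) := by
  induction s using Finset.cons_induction with
  | empty => simpa using Tf.zero le_rfl
  | cons i s hi ih =>
    rw [sum_cons, sum_cons]
    exact (H i (mem_cons_self ..)).add (ih fun j hj => H j (mem_cons_of_mem hj))

theorem Tf.nn (H : Tf n R ρ h M c d ψ) (h1 : 0 ≤ ρ) (h2 : 0 ≤ h) : 0 ≤ M := (H 0).1.nonneg h1 h2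

theorem tf_pt (H : Tbw R ρ h M φ) (b : Bdd φ) (h1 : 0 ≤ ρ) (h2 : 0 ≤ h) :
    Tf n R ρ h M c 0 (ptL n c φ) := fun x => by
  unfold ptL
  split_ifs with e
  exacts [⟨H, b, fun q => absurd e q⟩, Tf.zero (n := n) (c := c) (d := 0) (H.nonneg h1 h2) x]

theorem ptL_lin (n : ℕ) (c : St) (φ φ' : Fld → ℂ) (t : ℂ) :
    ptL n c (φ + t • φ') = ptL n c φ + t • ptL n c φ' := by
  funext x
  simp only [ptL, Pi.add_apply, Pi.smul_apply]
  split_ifs <;> simp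

theorem KS.mono (H : KS n c d K) (hd : d ≤ d') : KS n c d' K :=
  fun X a e => H X a fun x hx q => e x hx (q.mono hd)

theorem KS.lin (H : KS n c d K) (H' : KS n c d K') (t : ℂ) : KS n c d (K + t • K') :=
  fun X a e => by simp [H X a e, H' X a e]

theorem Dn.div (l : ℕ) (c : St) (d : ℕ) : Dn l c d (d / LL l + 1) := by
  intro w hw
  obtain ⟨v, hv⟩ := nearT.yo (n := 0) (l := l) (x := c) (y := c + w) (nearT_add hw)
  simpa using hv

theorem Dn.zero (hc : rc (LL l) c ∈ box (l - d)) (hd : d ≤ l) : Dn l c d 0 := by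
  intro w hw
  have e : c + w = (rc (LL l) c + w) + up l (yo l c) := by
    rw [Fr.rc_up, Op.up_neg]; abel
  rw [e, Op.yo_add_box (box_mono (by omega) (add_mem_box hc hw)), sub_self]
  exact zero_mem_box _

theorem Dn.mono (H : Dn l c d d') {e e' : ℕ} (h1 : e ≤ d) (h2 : d' ≤ e') : Dn l c e e' :=
  fun w hw => box_mono h2 (H w (box_mono h1 hw))

theorem Dn.near (H : Dn l c d d') (a : nearT (LL l * n) d c x) : nearT n d' (yo l c) (yo l x) := by
  obtain ⟨v, hv⟩ := a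
  refine ⟨v, ?_⟩
  have e : x = (c + (x - c - ((LL l * n : ℕ) : ℤ) • v)) + up l ((n : ℤ) • v) := by
    rw [up_per]; abel
  rw [e, Op.yo_add_up, add_sub_right_comm, add_sub_cancel_right]
  exact H _ hv

end basic

namespace Sd

variable {S : Sd} {R R' d d' e : ℕ} {h h' M M' θ u : ℝ} {c : St} {φ φ' ψ : Lx} {J J' K : Ac}
  {k k' : Mj} {f : Fld → ℂ}

theorem ψy_van (hφ : ∀ x, ¬ nearT S.nf d c x → φ x = 0) (D : Dn S.l c d d') {y x : St}
    (hy : ¬ nearT S.n d' (yo S.l c) y) (hx : x ∈ box S.l) : cen (S.ψy φ y x) = 0 := by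
  rw [ψy, trL, hφ (rc S.nf _) fun q => hy (Op.yo_add_box hx y ▸ D.near (nearT_rc_right.1 q)),
    cen_zero]

theorem uP_van (hφ : ∀ x, ¬ nearT S.nf d c x → φ x = 0) (D : Dn S.l c d d') {y : St}
    (hy : ¬ nearT S.n d' (yo S.l c) y) : S.uP φ y = 0 := by
  funext B
  rw [uP, push]
  simp only [sum_congr rfl fun x hx => congrFun (ψy_van hφ D hy hx) _]
  simp

theorem uL_van (hφ : ∀ x, ¬ nearT S.nf d c x → φ x = 0) (D : Dn S.l c d d') {y : St}
    (hy : ¬ nearT S.n d' (yo S.l c) y) : S.uL φ y = 0 :=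
  sum_eq_zero fun x hx => funext fun B => congrFun (ψy_van hφ D hy hx) _

theorem card_sum (S : Sd) (M : ℝ) : ∑ _x ∈ box S.l, 2 * M = 2 * S.L ^ 4 * M := by
  rw [sum_const, nsmul_eq_mul, JS.card_boxR, Td.L]; ring

theorem uL_lin (S : Sd) (φ φ' : Lx) (t : ℂ) : S.uL (φ + t • φ') = S.uL φ + t • S.uL φ' := by
  funext y B
  simp only [uL, lpush, Finset.sum_apply, Pi.add_apply, Pi.smul_apply, smul_eq_mul, mul_sum,
    ← sum_add_distrib]
  exact sum_congr rfl fun x _ => congrFun (cen_lin (S.ψy φ y x) (S.ψy φ' y x) t) _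

theorem uL_zero (S : Sd) (φ : Lx) (y : St) : S.uL φ y 0 = 0 := by
  simp [uL, lpush, cen]

/-- the image of a term at one site is a term at one site -/
theorem uL_one (hφ : ∀ x, ¬ nearT S.nf 0 c x → φ x = 0) :
    S.uL φ = ptL S.n (yo S.l c) (S.uL φ (yo S.l c)) := by
  funext y
  unfold ptL
  split_ifs with e
  · rw [nearT_zero] at e
    simp only [uL, ψy, nf]
    rw [← Sh.trL_up_rc, ← e, Sh.trL_up_rc]
  · exact uL_van hφ (Dn.zero (by simpa using Fr.rc_box _ _) (Nat.zero_le _)) e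

theorem uL_pt (o : Odd S.n) (e : f 0 = 0) :
    S.uL (ptL S.nf c f) (yo S.l c) = fun B => f (lm S.l S.s (rc (LL S.l) c) B) := by
  have e1 : rc (LL S.l) c + up S.l (yo S.l c) = c := by rw [Fr.rc_up, Op.up_neg]; abel
  have hn := Sh.onf (S := S) o
  have hb : box S.l ⊆ box (S.nf / 2) := fun x hx => by
    simpa using Sh.blk_mem o hx (zero_mem_box _)
  funext B
  rw [uL, lpush, Finset.sum_apply, sum_eq_single (rc (LL S.l) c)]
  · rw [ψy, trL, e1, ptL, if_pos (nearT_rc _ _), cen_of e]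
  · intro x hx hne
    rw [ψy, trL, ptL, if_neg, cen_zero, Pi.zero_apply]
    rw [nearT_rc_right, nearT_zero]
    exact fun q => hne (rc_inj (up S.l (yo S.l c)) (rc_eq hn (hb hx)) (rc_eq hn (hb (Fr.rc_box _ _)))
      (by rw [e1, q]))
  · exact fun q => absurd (Fr.rc_box _ _) q

/-- the support of the derivative of the new activities -/
theorem dK_ks (H : S.Nu 100) (hφ : ∀ x, ¬ nearT S.nf d c x → φ x = 0) (hJ : KS S.nf c d J)
    (D : Dn S.l c d d') : KS S.n (yo S.l c) d' (En.dK S ψ K φ J) := by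
  intro Y a hY
  rw [En.dK_loc H (φ := ψ) (J := K) (φ' := 0) (J' := 0) ⟨fun _ _ _ => rfl, fun _ _ _ => rfl⟩
    ⟨fun x _ hx => hφ x fun q => hY _ hx (D.near q), fun o _ ho => hJ _ _ fun x hx q =>
      hY _ (ho (mem_image_of_mem _ hx)) (nearT_rc_right.2 (D.near q))⟩]
  funext U
  simp [En.dK, dA]

namespace Pu

variable (P : S.Pu)
include P

theorem Gx_meas (x : St) : Measurable fun p : Fld × (Lk → E3) => S.Gx x p.2 p.1 :=
  Fx.mcut (Bx_measurable (Sd.U0_meas (P.tk.fo (P.nu.mono (Nat.zero_le _))).ok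
    (Fx.mq_wB measurable_fst) measurable_snd) x) _

theorem frg (x : St) : Frg (shL x ∘ₗ mu S.l S.s) := frg_mu P.tk.ok.lin x

theorem num1 (h0 : 0 < h') (h1 : h' ≤ 2 * S.r * S.L * h) :
    (2 * S.lc0 + 4 * (S.Q * S.u + S.Q ^ 2 * S.g / S.u)) * h' ≤ h / 2 ∧ 0 < h ∧
      S.lc0 * h' ≤ h := by
  obtain ⟨l0, l1, -, -⟩ := P.lc0_le
  have u0 := P.nu.ok.u0
  have Q1 := S.Q1
  have L1 := L1 S.toTd
  have r1 := P.nu.r1'
  have hh : 0 < h := by
    by_contra q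
    nlinarith [mul_nonneg (show 0 ≤ 2 * (S.r : ℝ) * S.L by positivity) (neg_nonneg.2 (not_lt.1 q))]
  have a1 : 10 ^ 8 * S.L ^ 2 ≤ S.Q := by
    simpa using P.nu.mon (C := 10 ^ 8) (i := 2) (j := 0) (by norm_num) (by have := P.nu.exps; omega)
      (by omega)
  have a2 : 8 ≤ S.Q * S.lc0 := by nlinarith
  have a3 : 8 * (S.Q ^ 2 * S.u) ≤ S.lc0 :=
    calc _ ≤ S.Q * S.lc0 * (S.Q ^ 2 * S.u) := by gcongr
      _ = S.Q ^ 3 * S.u * S.lc0 := by ring
      _ ≤ _ := mul_le_of_le_one_left l0.le (P.nu.ok.Qu (by omega))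
  have a4 : S.Q * S.u ≤ S.Q ^ 2 * S.u :=
    mul_le_mul_of_nonneg_right (le_self_pow₀ S.Q1 (by norm_num)) u0.le
  have a5 : S.Q ^ 2 * S.g / S.u = S.Q ^ 2 * S.u := by
    rw [← P.nu.ok.u_sq, sq S.u, ← mul_assoc, mul_div_cancel_right₀ _ u0.ne']
  have a6 : 12 * (S.r : ℝ) ^ 5 ≤ √S.L := Real.le_sqrt_of_sq_le (by
    rw [mul_pow, ← pow_mul]; exact P.nu.crL (by norm_num) (by omega))
  have a7 : S.lc0 * (2 * S.r * S.L) ≤ 1 / 6 := by
    have s0 : 0 < √S.L := Real.sqrt_pos.2 (by linarith)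
    rw [show S.lc0 = (S.r : ℝ) ^ 4 / (S.L * √S.L) from rfl, div_mul_eq_mul_div,
      div_le_iff₀ (by positivity)]
    nlinarith
  have a8 : S.lc0 * h' ≤ h / 6 := (mul_le_mul_of_nonneg_left h1 l0.le).trans (by nlinarith)
  rw [a5]
  exact ⟨by nlinarith, hh, by linarith⟩

theorem num2 : 2 * S.lc0 * (60 * S.p'.ρ) + (S.Q * S.u * (60 * S.p'.ρ) + S.Q ^ 2 * S.g) ≤
    60 * S.p.ρ ∧ S.lc0 * (60 * S.p'.ρ) ≤ 60 * S.p.ρ ∧ 480 * S.p'.ρ ≤ S.u ∧ 0 < S.p.ρ := by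
  obtain ⟨l0, -, -, l1⟩ := P.lc0_le
  have ρ0 := P.ρ0
  have a1 := P.ρ_le
  have a2 := P.nu.ρ_ge
  have a3 := P.nu.cQ' (C := 1000) (by norm_num)
  have a4 := P.nu.ok.Qu (i := 2) (by omega)
  have u0 := P.nu.ok.u0
  have g0 := P.nu.ok.g0
  have a5 : 1000 * (S.Q * S.u) ≤ 1 := by nlinarith [mul_pos S.Q0 u0]
  have a6 : S.Q ^ 2 * S.g ≤ S.Q ^ 3 * S.g := mul_le_mul_of_nonneg_right (S.Qw (by omega)) g0.le
  exact ⟨by nlinarith, by nlinarith, by nlinarith [P.ρ_u], by linarith⟩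

theorem cen_tb (H : Tf S.nf R (60 * S.p.ρ) h M c d φ) (h0 : 0 < h) (y x : St) :
    Tbw R (60 * S.p.ρ) h (2 * M) (cen (S.ψy φ y x)) :=
  (H _).1.cen (by linarith [P.num2.2.2.2]) h0.le

theorem uP_bdd (a : ∀ x, Bdd (φ x)) (y : St) : Bdd (S.uP φ y) := by
  have := nuI_prob (ζ := S.ζ) S.Q0
  choose N hN using fun x => (a (rc S.nf (x + up S.l y))).cen
  exact ⟨∑ x ∈ box S.l, N x, fun B => (norm_integral_le_of_norm_le_const (ae_of_all _ fun z =>
    norm_sum_le_of_le _ fun x _ => hN x _)).trans_eq (by simp)⟩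

omit P in
theorem uL_bdd (a : ∀ x, Bdd (φ x)) (y : St) : Bdd (S.uL φ y) :=
  Bdd.sum _ fun x _ => let ⟨N, hN⟩ := (a (rc S.nf (x + up S.l y))).cen; ⟨N, fun _ => hN _⟩

theorem uP_lin (a : ∀ x, Measurable (φ x) ∧ Bdd (φ x)) (a' : ∀ x, Measurable (φ' x) ∧ Bdd (φ' x))
    (t : ℂ) : S.uP (φ + t • φ') = S.uP φ + t • S.uP φ' := by
  have := nuI_prob (ζ := S.ζ) S.Q0
  have i : ∀ {φ : Lx}, (∀ x, Measurable (φ x) ∧ Bdd (φ x)) → ∀ y B, Integrable
      (fun z => ∑ x ∈ box S.l, cen (S.ψy φ y x) (S.Gx x z B)) (nuI S.ζ) := fun a y B =>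
    integrable_finset_sum _ fun x _ =>
      let ⟨N, hN⟩ := (a (rc S.nf (x + up S.l y))).2.cen
      .of_bound ((((a _).1.sub_const _).comp ((P.Gx_meas x).comp
        measurable_prodMk_left)).aestronglyMeasurable) N (ae_of_all _ fun _ => hN _)
  funext y B
  simp only [uP, push, Pi.add_apply, Pi.smul_apply, smul_eq_mul]
  rw [← integral_const_mul, ← integral_add (i a y B) ((i a' y B).const_mul t)]
  refine congrArg _ (funext fun z => ?_)
  rw [mul_sum, ← sum_add_distrib]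
  exact sum_congr rfl fun x _ => congrFun (cen_lin (S.ψy φ y x) (S.ψy φ' y x) t) _

theorem uB_lin (a : KM S.p S.nf k J) (a' : KM S.p S.nf k' J') (t : ℂ) :
    S.uB (J + t • J') = S.uB J + t • S.uB J' := by
  funext y B
  simp only [uB, Pi.add_apply, Pi.smul_apply, Pi.neg_apply, Finset.sum_apply, smul_eq_mul, mul_neg,
    mul_sum, ← neg_add, ← sum_add_distrib]
  refine congrArg _ (sum_congr rfl fun X hX => ?_)
  have k1 := k1y P.nu.ok a y hX
  have k2 := k1y P.nu.ok a' y hX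
  unfold opT
  split_ifs
  · rw [mul_left_comm, ← mul_add]
    exact congrArg _ (smL_lin k1.meas k2.meas k1.bd k2.bd t)
  · simp

theorem uP_tf (H : Tf S.nf S.p.R (60 * S.p.ρ) h M c d φ) (D : Dn S.l c d d') (h0 : 0 < h')
    (h1 : h' ≤ 2 * S.r * S.L * h) (h2 : 8 * h' ≤ S.u) :
    Tf S.n S.p'.R (60 * S.p'.ρ) h' (2 * S.L ^ 4 * M) (yo S.l c) d' (S.uP φ) := by
  have := nuI_prob (ζ := S.ζ) S.Q0
  obtain ⟨a1, a2, -⟩ := P.num1 h0 h1
  obtain ⟨b1, -, b2, -⟩ := P.num2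
  exact fun y => ⟨S.card_sum M ▸ Tbw.push P.fam P.pt P.rad P.Gx_meas
    (fun x _ => P.cen_tb H a2 y x) P.nu.ok.u0 (by linarith) h0.le b1 (by linarith),
    P.uP_bdd (fun x => (H x).2.1) y, uP_van (fun x => (H x).2.2) D⟩

theorem uL_tf (H : Tf S.nf R (60 * S.p.ρ) h M c d φ) (D : Dn S.l c d d') (h0 : 0 < h')
    (h1 : h' ≤ 2 * S.r * S.L * h) (hR : S.r / 3 + (R / LL S.l + 1) ≤ R') :
    Tf S.n R' (60 * S.p'.ρ) h' (2 * S.L ^ 4 * M) (yo S.l c) d' (S.uL φ) := by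
  obtain ⟨-, a2, a3⟩ := P.num1 h0 h1
  exact fun y => ⟨S.card_sum M ▸ Tbw.lpush P.pt P.frg hR (fun x _ => P.cen_tb H a2 y x)
    P.num2.2.1 a3, uL_bdd (fun x => (H x).2.1) y, uL_van (fun x => (H x).2.2) D⟩

theorem rest_tf (H : Tf S.nf S.p.R (60 * S.p.ρ) h M c d φ) (D : Dn S.l c d d') (h0 : 0 < h')
    (h1 : h' ≤ 2 * S.r * S.L * h) (h2 : 8 * h' ≤ S.u) (h3 : 4 * (S.Q ^ 2 * S.g) < h) :
    Tf S.n S.p'.R (60 * S.p'.ρ) h' (16 * S.L ^ 4 * (S.Q ^ 2 * S.g) / h * M) (yo S.l c) d'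
      (S.uP φ - S.uL φ) := by
  have := nuI_prob (ζ := S.ζ) S.Q0
  obtain ⟨a1, a2, -⟩ := P.num1 h0 h1
  obtain ⟨b1, -, b2, b3⟩ := P.num2
  have u0 := P.nu.ok.u0
  have g0 := P.nu.ok.g0
  have Q1 := S.Q1
  have ρ0 := P.ρ0
  have M0 := H.nn (by linarith) a2.le
  have L0 := L0 S.toTd
  have e : S.Q * S.u * (60 * S.p'.ρ + h') ≤ S.Q ^ 2 * S.g :=
    calc _ ≤ S.Q ^ 2 * S.u * S.u := by
          gcongr
          exacts [le_self_pow₀ Q1 (by norm_num), by linarith]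
      _ = _ := by rw [← P.nu.ok.u_sq]; ring
  refine fun y => ⟨(Tbw.rest P.fam P.pt P.frg P.rad P.Gx_meas (fun x _ => P.cen_tb H a2 y x) u0
    (by linarith) h0.le P.lc0_le.1.le (by positivity) (by positivity) (by positivity) b1 a1
    (by linarith)).mono le_rfl le_rfl le_rfl ?_,
    (P.uP_bdd (fun x => (H x).2.1) y).sub (uL_bdd (fun x => (H x).2.1) y), fun q => by
      rw [Pi.sub_apply, uP_van (fun x => (H x).2.2) D q, uL_van (fun x => (H x).2.2) D q, sub_zero]⟩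
  rw [S.card_sum]
  calc _ ≤ 4 * (S.Q ^ 2 * S.g + S.Q ^ 2 * S.g) / h * (2 * S.L ^ 4 * M) := by gcongr
    _ = _ := by ring

theorem uB_tf (a : KM S.p S.nf k J) (b : kN S.p S.nf k θ) (s : KS S.nf c d J) (D : Dn S.l c d d')
    (h0 : 0 ≤ h') (h1 : h' < S.g / S.Q ^ 6) :
    Tf S.n S.p'.R (60 * S.p'.ρ) h' (2 * θ / S.Q) (yo S.l c) (d' + S.D0) (S.uB J) := by
  have T := fun y X (hX : X ∈ S.X1s) =>
    Fsr_tb P.nu P.tk.ok P.tk.gr P.P_le hX (k1y P.nu.ok a y hX)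
  refine fun y => ⟨?_, (Bdd.sum _ fun X hX => (opT_bdd (T y X hX).bd).smul _).neg, fun q => ?_⟩
  · have := (Tbw.sum _ fun X hX => ((T y X hX).tbw h0 h1).smul
      ((dn S.l S.n X).card : ℂ)⁻¹).smul (-1)
    rw [neg_one_smul] at this
    refine this.mono le_rfl le_rfl le_rfl ?_
    rw [norm_neg, norm_one, one_mul, mul_div_assoc]
    refine le_trans (sum_le_sum fun X hX => ?_) ((mul_sum _ _ _).ge.trans
      (mul_le_mul_of_nonneg_left (sum_X1 P.nu b (up S.l y)) zero_le_two))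
    refine mul_le_of_le_one_left (mul_nonneg zero_le_two (b.1 _ _)) ?_
    rw [norm_inv, Complex.norm_natCast]
    exact inv_le_one_of_one_le₀ (X1_card hX)
  · refine neg_eq_zero.2 (sum_eq_zero fun X hX => ?_)
    have e : S.Ky J y X ∅ = fun _ => 0 := funext fun U => by
      refine congrFun (s _ _ fun x hx w => q ?_) _
      obtain ⟨z, hz, rfl⟩ := mem_image.1 hx
      have := D.near (nearT_rc_right.1 w)
      rw [Op.yo_add_up] at this
      exact this.trans (add_comm y _ ▸ nearT_add (Op.mem_fb.1 (X1_sub P.nu hX hz))).symm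
    funext B
    simp [opT, Fsr, e, smL_zero]

/-- the linear part of the step in terms of the holomorphic pieces -/
theorem PL_eq (a : ∀ x, Measurable (φ x) ∧ Bdd (φ x)) (J : Ac) :
    S.PL (fun x => ccn S.p (φ x)) J = fun y => ccn S.p' ((S.uB J + S.uP φ) y) := by
  funext y B
  have ρ0 := P.ρ0
  have g0 := P.nu.ok.g0
  have Q0 := S.Q0
  have e : ∀ B, ctr S.p'.R S.p'.ρ ((S.uB J + S.uP φ) y) B =
      S.pz (S.ψy (fun x => ccn S.p (φ x)) y) B - ∑ X ∈ S.X1s, S.Fs (S.Ky J y) X B := fun B => by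
    rcases ctr_cases (R := S.p'.R) ρ0.le B with e | ⟨r, v, e⟩ <;> simp only [pz, Fs, e]
    · simp
    have q : InT S.p'.R (60 * S.p'.ρ) 0 B := inT_real r (v.mono le_rfl (by linarith)) le_rfl
    simp only [uB, Pi.add_apply, Pi.neg_apply, Finset.sum_apply, Pi.smul_apply, smul_eq_mul,
      opT_eq (show 0 < S.g / S.Q ^ 6 by positivity) q, neg_add_eq_sub]
    simp only [div_eq_inv_mul]
    refine congrArg₂ (· - ·) (congrArg _ (funext fun z => sum_congr rfl fun x hx => ?_)) rfl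
    obtain ⟨a1, a2⟩ := P.Gx_cv hx z r (v.mono le_rfl (by linarith))
    exact (congrArg₂ (· - ·) (ctr_of a1 a2) (ctr_zero P.num2.2.2.2.le)).symm
  rw [ccn, e, e, PL, Pl, sum_sub_distrib]
  ring

end Pu

end Sd

/-- the sizes in the classes of the run -/
theorem Tf.pm {p : Pa} {n d : ℕ} {h M : ℝ} {c : St} {φ : Lx} (H : Tf n p.R (60 * p.ρ) h M c d φ)
    (h0 : 0 < h) (h1 : h ≤ p.ρ) :
    PM p (2 * 10 ^ 11 * M / h ^ 2) (4 * 10 ^ 11 * (p.R + 1 : ℝ) ^ 12 * M / h ^ 2)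
      (2 * 10 ^ 18 * M * (p.ρ / h) ^ 3) (fun x => ccn p (φ x)) ∧
      PU p (2 * M) (fun x => ccn p (φ x)) ∧ ∀ x, ¬ nearT n d c x → ccn p (φ x) = 0 := by
  have ρ0 := h0.trans_le h1
  have e : ∀ x B, RealF B → Cv p.R p.ρ B → ccn p (φ x) B = φ x B - φ x 0 := fun x B r v => by
    rw [ccn, ctr_of r v, ctr_zero ρ0.le]
  have m : PM p _ _ _ fun x => ccn p (φ x) := fun x =>
    ⟨(((H x).1.ps h0 (by linarith) ρ0 (by linarith) 6).congr ρ0 (e x)).1,
      (Fx.ctr_meas (H x).1.meas).sub_const _⟩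
  refine ⟨m, ⟨⟨_, _, _, m⟩, fun x B r v => (congrArg norm (e x B r v)).trans_le
    (((H x).1.cen (by linarith) h0.le).bd B (inT_real r (v.mono le_rfl (by linarith)) h0.le))⟩, fun x q => ?_⟩
  funext B
  simp [ccn, (H x).2.2 q, ctr, ctf]

end Pool.Agent.Lib.MP_7f377f_mp.RG.Q4
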