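import Pool.Agent.Lib.MP_7f377f_mp.G.JuC
import Pool.Agent.Lib.MP_7f377f_mp.G.Q5Mass

/-! The tangent step on tagged sums of holomorphic local terms near a point. -/

noncomputable section

set_option linter.unusedSectionVars false
variable [Pool.Agent.Lib.MP_7f377f_mp.GD]

namespace Pool.Agent.Lib.MP_7f377f_mp.RG.Q4

open Finset En
open scoped Classical

attribute [local irreducible] box lbox tb tau rc

/-- tagged states: young terms by age, old terms by age, the term at the centre, the activities -/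
abbrev Jv : Type := (ℕ → Lx) × (ℕ → Lx) × (Fld → ℂ) × Ac

/-- the shape of the classes at one level -/
structure Ag where
  n : ℕ
  p : Pa
  pw : Pa
  c : St
  W : ℝ
  h : ℕ → ℝ
  R : ℕ → ℕ
  d : ℕ → ℕ

variable {E : Type} [NormedAddCommGroup E] [NormedSpace ℂ E]

/-- symbols at one level -/
structure Sy1 (R : ℕ) (ρ H C : ℝ) (W : Submodule ℂ E) (σ : (Fld → ℂ) → E)
    (ev : E → Fld → ℂ) : Prop where
  lin : ∀ φ φ' M M' (t : ℂ), Tbw R ρ H M φ → Tbw R ρ H M' φ' → σ (φ + t • φ') = σ φ + t • σ φ'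
  bd : ∀ φ M, Tbw R ρ H M φ → φ 0 = 0 → σ φ ∈ W ∧ ‖σ φ‖ ≤ C * M
  evl : ∀ e e' (t : ℂ), ev (e + t • e') = ev e + t • ev e'
  ev : ∀ e ∈ W, Tbw R ρ H (C * ‖e‖) (ev e)

/-- symbols along the linear map `T` from the coarse level to the fine level -/
def Sy2 (R R' : ℕ) (ρ ρ' H H' lam η : ℝ) (T : Fld → Fld) (σ σ' : (Fld → ℂ) → E)
    (ev' : E → Fld → ℂ) (A : E →ₗ[ℂ] E) : Prop :=
  ∀ φ M, Tbw R ρ H M φ → φ 0 = 0 →
    Tbw R' ρ' H' (lam * M) ((fun B => φ (T B)) - ev' (σ' fun B => φ (T B))) ∧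
      ‖σ' (fun B => φ (T B)) - A (σ φ)‖ ≤ η * M

section

variable {R n d : ℕ} {ρ H C M : ℝ} {W : Submodule ℂ E} {σ : (Fld → ℂ) → E} {ev : E → Fld → ℂ}
  {φ φ' : Lx} {c : St} {S : Sd}

theorem Sy1.s0 (s : Sy1 R ρ H C W σ ev) : σ 0 = 0 := by
  simpa using s.lin 0 0 _ _ 1 (Tbw.zero ..) (Tbw.zero ..)

theorem Sy1.e0 (s : Sy1 R ρ H C W σ ev) : ev 0 = 0 := by simpa using s.evl 0 0 1

theorem ccn_lin (p : Pa) (φ φ' : Fld → ℂ) (t : ℂ) : ccn p (φ + t • φ') = ccn p φ + t • ccn p φ' := by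
  have e : ∀ B, ctr p.R p.ρ (φ + t • φ') B = ctr p.R p.ρ φ B + t * ctr p.R p.ρ φ' B := fun B => by
    unfold ctr ctf
    split_ifs <;> simp
  funext B
  simp only [ccn, e, Pi.add_apply, Pi.smul_apply, smul_eq_mul]
  ring

/-- measurable and bounded -/
def MB (φ : Lx) : Prop := ∀ x, Measurable (φ x) ∧ Bdd (φ x)

theorem Tf.mb (h : Tf n R ρ H M c d φ) : MB φ := fun x => ⟨(h x).1.meas, (h x).2.1⟩

theorem MB.add (h : MB φ) (h' : MB φ') : MB (φ + φ') :=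
  fun x => ⟨(h x).1.add (h' x).1, (h x).2.add (h' x).2⟩

theorem MB.zero : MB 0 := fun _ => ⟨measurable_const, Bdd.zero⟩

theorem MB.sum {ι : Type} (s : Finset ι) {f : ι → Lx} (h : ∀ i ∈ s, MB (f i)) : MB (∑ i ∈ s, f i) :=
  sum_induction f MB (fun _ _ => MB.add) MB.zero h

theorem Sd.uL_add (S : Sd) (φ φ' : Lx) : S.uL (φ + φ') = S.uL φ + S.uL φ' := by
  simpa using S.uL_lin φ φ' 1

theorem Sd.uL_sum (S : Sd) {ι : Type} (s : Finset ι) (f : ι → Lx) :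
    S.uL (∑ i ∈ s, f i) = ∑ i ∈ s, S.uL (f i) :=
  map_sum (AddMonoidHom.mk' S.uL S.uL_add) f s

theorem Sd.Pu.uP_add (P : S.Pu) (h : MB φ) (h' : MB φ') : S.uP (φ + φ') = S.uP φ + S.uP φ' := by
  simpa using P.uP_lin h h' 1

theorem Sd.Pu.uP_sum (P : S.Pu) {ι : Type} (s : Finset ι) {f : ι → Lx} (h : ∀ i ∈ s, MB (f i)) :
    S.uP (∑ i ∈ s, f i) = ∑ i ∈ s, S.uP (f i) := by
  induction s using Finset.cons_induction with
  | empty => simpa using P.uP_add MB.zero MB.zero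
  | cons i s hi ih =>
    have h' := fun j hj => h j (mem_cons_of_mem hj)
    rw [sum_cons, sum_cons, P.uP_add (h i (mem_cons_self ..)) (MB.sum s h'), ih h']

end

namespace Ag

variable (A : Ag) (a b : ℕ)

/-- the old terms -/
def old (u : Jv) : Lx := ∑ m ∈ range (b + 1), u.2.1 m + ptL A.n A.c u.2.2.1

/-- the sum of all terms -/
def tot (u : Jv) : Lx := ∑ i ∈ range (a + 1), u.1 i + A.old b u

/-- the direction which is described by a tagged state -/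
def prj (u : Jv) : Lx × Ac := (fun x => ccn A.p (A.tot a b u x), u.2.2.2)

/-- the size of everything except the symbol -/
structure P (σ : (Fld → ℂ) → E) (ev : E → Fld → ℂ) (u : Jv) (y : ℝ) : Prop where
  f : ∀ i ≤ a, Tf A.n A.p.R (60 * A.p.ρ) (A.h i) (y / A.W ^ (a + b + 2 - i)) A.c (A.d 0) (u.1 i)
  g : ∀ m ≤ b, Tf A.n (A.R m) (60 * A.p.ρ) (A.h (a + 1)) (y / A.W ^ (b + 1 - m)) A.c (A.d m)
    (u.2.1 m)
  z : u.2.2.1 0 = 0
  bd : Bdd u.2.2.1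
  tb : ∃ M, Tbw (A.R (b + 1)) (60 * A.p.ρ) (A.h (a + 1)) M u.2.2.1
  l : Tbw (A.R (b + 1)) (60 * A.p.ρ) (A.h (a + 1)) y (u.2.2.1 - ev (σ u.2.2.1))
  K : ∃ k, KM A.p A.n k u.2.2.2 ∧ kN A.pw A.n k (y / A.W ^ (a + b + 3))
  s : KS A.n A.c (A.d 0) u.2.2.2

/-- admissible shapes -/
structure Ok : Prop where
  W1 : 1 ≤ A.W
  h0 : 0 < A.h 0
  h1 : A.h 0 ≤ A.p.ρ
  hm : ∀ i ≤ a + 1, A.h 0 ≤ A.h i
  R : ∀ m, A.R m ≤ A.p.R
  R0 : A.R 0 = A.p.R
  d : ∀ m, A.d m ≤ A.d 0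
  db : A.d b = 0
  kn : ∀ k θ, kN A.pw A.n k θ → kN A.p A.n k θ

/-- the step at the base point `(ψ, K)` -/
def T (S : Sd) (ψ : Lx) (K : Ac) (u : Jv) : Jv :=
  (fun i => i.casesOn (S.uB u.2.2.2) fun i => if i < a then S.uP (u.1 i) else 0,
    fun m => m.casesOn (S.uP (u.1 a) + (S.uP (A.old b u) - S.uL (A.old b u)))
      fun m => if m < b then S.uL (u.2.1 m) else 0,
    S.uL (u.2.1 b + ptL A.n A.c u.2.2.1) (yo S.l A.c), dK S ψ K (A.prj a b u).1 u.2.2.2)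

/-- the shapes `A` of the fine and `A'` of the coarse level fit to the step `S` -/
structure Fit (A' : Ag) (S : Sd) (ψ : Lx) (K : Ac) (C C' ε : ℝ) : Prop where
  n : A.n = S.nf
  n' : A'.n = S.n
  p : A.p = S.p
  p' : A'.p = S.p'
  c : A'.c = yo S.l A.c
  ok : A.Ok a b
  ok' : A'.Ok a b
  pu : S.Pu
  nu : S.Nu 100
  st : St2 S
  rm : En.Rm S ψ K
  hs : ∀ i ≤ a, A'.h (i + 1) ≤ 2 * S.r * S.L * A.h i
  hl : A'.h (a + 1) ≤ 2 * S.r * S.L * A.h (a + 1)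
  hu : ∀ i ≤ a + 1, 8 * A'.h i ≤ S.u
  hb : A'.h 0 < S.g / S.Q ^ 6
  hr : 4 * (S.Q ^ 2 * S.g) < A.h (a + 1)
  Rs : ∀ m ≤ b, S.r / 3 + (A.R m / LL S.l + 1) ≤ A'.R (m + 1)
  Rl : S.r / 3 + (A.R (b + 1) / LL S.l + 1) ≤ A'.R (b + 1)
  d0 : ∃ e, Dn S.l A.c (A.d 0) e ∧ e + S.D0 ≤ A'.d 0
  ds : ∀ m < b, Dn S.l A.c (A.d m) (A'.d (m + 1))
  W : A'.W ≤ A.W
  C1 : 1 ≤ C
  C1' : 1 ≤ C'
  e1 : 8 * C' ^ 2 * S.L ^ 4 ≤ ε * A'.W
  e2 : 32 * S.L ^ 4 * (S.Q ^ 2 * S.g) * (b + 2 + C) * A'.W ^ (b + 1) ≤ ε * A.h (a + 1)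
  K : ∃ κ κ', 0 ≤ κ ∧ 4 * κ * (a + b + 3 + C) * A'.W ^ (a + b + 3) ≤ ε ∧ 2 * κ' ≤ ε ∧
    ∀ u y j, 0 < u → kN A.pw A.n j y → ∃ m, kN A'.pw A'.n m (κ * u + κ' * y) ∧
      ∀ φ J, PU A.p u φ → KM A.p A.n j J → KM A'.p A'.n m (dK S ψ K φ J)

variable {A a b} {A' : Ag} {S : Sd} {ψ : Lx} {K : Ac} {C C' ε x y y' lam η : ℝ} {u v : Jv}
  {W : Submodule ℂ E} {σ σ' : (Fld → ℂ) → E} {ev ev' : E → Fld → ℂ} {L : E →ₗ[ℂ] E}

/-- the symbol calculus of the shape -/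
abbrev Sy (A : Ag) (a b : ℕ) (C : ℝ) (W : Submodule ℂ E) (σ : (Fld → ℂ) → E)
    (ev : E → Fld → ℂ) : Prop := Sy1 (A.R (b + 1)) (60 * A.p.ρ) (A.h (a + 1)) C W σ ev

theorem Ok.ρ0 (o : A.Ok a b) : 0 ≤ 60 * A.p.ρ := by linarith [o.h0, o.h1]

theorem Ok.hp (o : A.Ok a b) {i : ℕ} (hi : i ≤ a + 1) : 0 < A.h i := o.h0.trans_le (o.hm i hi)

theorem Ok.Wp (o : A.Ok a b) (i : ℕ) : 0 < A.W ^ i := pow_pos (one_pos.trans_le o.W1) i

theorem P.zero (o : A.Ok a b) (s : A.Sy a b C W σ ev) : A.P a b σ ev 0 0 := by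
  refine ⟨fun _ _ => Tf.zero (zero_div _).ge, fun _ _ => Tf.zero (zero_div _).ge, rfl, Bdd.zero,
    ⟨0, Tbw.zero ..⟩, ?_, ⟨0, km_zero, fun _ _ => le_rfl, fun _ => by simp⟩, fun _ _ _ => rfl⟩
  simpa [s.s0, s.e0] using Tbw.zero (A.R (b + 1)) (60 * A.p.ρ) (A.h (a + 1))

theorem P.nn (o : A.Ok a b) (H : A.P a b σ ev u y) : 0 ≤ y := by
  exact H.l.nonneg o.ρ0 (o.hp le_rfl).le

theorem P.mono (o : A.Ok a b) (H : A.P a b σ ev u y) (e : y ≤ y') : A.P a b σ ev u y' := by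
  obtain ⟨k, k1, k2⟩ := H.K
  have m := fun i => div_le_div_of_nonneg_right e (o.Wp i).le
  exact ⟨fun i hi => (H.f i hi).mono le_rfl le_rfl (m _) le_rfl,
    fun i hi => (H.g i hi).mono le_rfl le_rfl (m _) le_rfl, H.z, H.bd, H.tb,
    H.l.mono le_rfl le_rfl le_rfl e, ⟨k, k1, k2.mono (m _)⟩, H.s⟩

theorem P.lin (o : A.Ok a b) (s : A.Sy a b C W σ ev) (H : A.P a b σ ev u y)
    (H' : A.P a b σ ev v y') (t : ℂ) : A.P a b σ ev (u + t • v) (y + ‖t‖ * y') ∧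
      σ (u + t • v).2.2.1 = σ u.2.2.1 + t • σ v.2.2.1 := by
  obtain ⟨k, k1, k2⟩ := H.K
  obtain ⟨k', k1', k2'⟩ := H'.K
  obtain ⟨M, hM⟩ := H.tb
  obtain ⟨M', hM'⟩ := H'.tb
  have m : ∀ i, y / A.W ^ i + ‖t‖ * (y' / A.W ^ i) ≤ (y + ‖t‖ * y') / A.W ^ i := fun i =>
    le_of_eq (by ring)
  have e : σ (u + t • v).2.2.1 = _ := s.lin _ _ _ _ t hM hM'
  refine ⟨⟨fun i hi => ((H.f i hi).add ((H'.f i hi).smul t)).mono le_rfl le_rfl (m _) le_rfl,
    fun i hi => ((H.g i hi).add ((H'.g i hi).smul t)).mono le_rfl le_rfl (m _) le_rfl,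
    by simp [H.z, H'.z], H.bd.add (H'.bd.smul t), ⟨_, hM.add (hM'.smul t)⟩, ?_,
    ⟨_, k1.add (k1'.smul t), (k2.add (k2'.smul (norm_nonneg t))).mono (m _)⟩, H.s.lin H'.s t⟩, e⟩
  rw [e, s.evl]
  convert H.l.add (H'.l.smul t) using 1
  simp only [Prod.snd_add, Prod.fst_add, Prod.smul_snd, Prod.smul_fst, smul_sub]
  abel

theorem P.mem (s : A.Sy a b C W σ ev) (H : A.P a b σ ev u y) : σ u.2.2.1 ∈ W := by
  exact let ⟨_, h⟩ := H.tb; (s.bd _ _ h H.z).1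

/-- the term at the centre -/
theorem P.last (s : A.Sy a b C W σ ev) (H : A.P a b σ ev u y) (hx : ‖σ u.2.2.1‖ ≤ x) (C0 : 0 ≤ C) :
    Tbw (A.R (b + 1)) (60 * A.p.ρ) (A.h (a + 1)) (y + C * x) u.2.2.1 := by
  have := H.l.add (s.ev _ (H.mem s))
  rw [sub_add_cancel] at this
  exact this.mono le_rfl le_rfl le_rfl (by gcongr)

theorem P.old (o : A.Ok a b) (s : A.Sy a b C W σ ev) (H : A.P a b σ ev u y)
    (hx : ‖σ u.2.2.1‖ ≤ x) (C0 : 0 ≤ C) : Tf A.n A.p.R (60 * A.p.ρ) (A.h (a + 1))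
      ((b + 2) * y + C * x) A.c (A.d 0) (A.old b u) := by
  have y0 := H.nn o
  refine ((Tf.sum (range (b + 1)) (N := fun _ => y) fun m hm =>
    (H.g m (Nat.lt_succ_iff.1 (mem_range.1 hm))).mono (o.R m) le_rfl
      (div_le_self y0 (one_le_pow₀ o.W1)) (o.d m)).add ((tf_pt (H.last s hx C0) H.bd o.ρ0
        (o.hp le_rfl).le).mono (o.R _) le_rfl le_rfl (Nat.zero_le _))).mono le_rfl le_rfl
          (le_of_eq ?_) le_rfl
  simp only [sum_const, card_range, nsmul_eq_mul]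
  push_cast
  ring

theorem P.tot (o : A.Ok a b) (s : A.Sy a b C W σ ev) (H : A.P a b σ ev u y)
    (hx : ‖σ u.2.2.1‖ ≤ x) (C0 : 0 ≤ C) :
    Tf A.n A.p.R (60 * A.p.ρ) (A.h 0) ((a + b + 3) * y + C * x) A.c (A.d 0) (A.tot a b u) := by
  have y0 := H.nn o
  refine ((Tf.sum (range (a + 1)) (N := fun _ => y) fun i hi =>
    (H.f i (Nat.lt_succ_iff.1 (mem_range.1 hi))).mono le_rfl (o.hm i (mem_range.1 hi).le)
      (div_le_self y0 (one_le_pow₀ o.W1)) le_rfl).add ((H.old o s hx C0).mono le_rfl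
        (o.hm _ le_rfl) le_rfl le_rfl)).mono le_rfl le_rfl (le_of_eq ?_) le_rfl
  simp only [sum_const, card_range, nsmul_eq_mul]
  push_cast
  ring

theorem old_lin (A : Ag) (b : ℕ) (u v : Jv) (t : ℂ) :
    A.old b (u + t • v) = A.old b u + t • A.old b v := by
  simp only [old, Prod.snd_add, Prod.fst_add, Prod.smul_snd, Prod.smul_fst, Pi.add_apply,
    Pi.smul_apply, ptL_lin, sum_add_distrib, smul_add, smul_sum]
  abel

theorem tot_lin (A : Ag) (a b : ℕ) (u v : Jv) (t : ℂ) :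
    A.tot a b (u + t • v) = A.tot a b u + t • A.tot a b v := by
  simp only [tot, old_lin, Prod.fst_add, Prod.smul_fst, Pi.add_apply, Pi.smul_apply,
    sum_add_distrib, smul_add, smul_sum]
  abel

theorem prj_lin (A : Ag) (a b : ℕ) (u v : Jv) (t : ℂ) :
    A.prj a b (u + t • v) = A.prj a b u + t • A.prj a b v := by
  refine Prod.ext (funext fun x => ?_) rfl
  simp only [prj, tot_lin, Prod.fst_add, Prod.smul_fst, Pi.add_apply, Pi.smul_apply, ccn_lin]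

namespace Fit

variable (F : A.Fit a b A' S ψ K C C' ε) (s : A.Sy a b C W σ ev)
include F s

omit s in
theorem C0 : 0 ≤ C := zero_le_one.trans F.C1

/-- the size of the direction -/
theorem pu' (H : A.P a b σ ev u y) (hx : ‖σ u.2.2.1‖ ≤ x) :
    PU A.p (2 * ((a + b + 3) * y + C * x)) (A.prj a b u).1 ∧
      ∀ z, ¬ nearT A.n (A.d 0) A.c z → (A.prj a b u).1 z = 0 :=
  ((H.tot F.ok s hx F.C0).pm F.ok.h0 F.ok.h1).2

theorem dir (H : A.P a b σ ev u y) : Dir S (A.prj a b u).1 u.2.2.2 := by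
  obtain ⟨k, k1, k2⟩ := H.K
  rw [Dir, ← F.n, ← F.p]
  exact ⟨_, _, k, (F.pu' s H le_rfl).1, k1, F.ok.kn _ _ k2⟩

/-- the step on tagged states is the tangent step -/
theorem prj (H : A.P a b σ ev u y) : A'.prj a b (A.T a b S ψ K u) =
    (S.PL (A.prj a b u).1 (A.prj a b u).2, dK S ψ K (A.prj a b u).1 (A.prj a b u).2) := by
  refine Prod.ext ?_ rfl
  have m1 := fun i (hi : i ∈ range a) => (H.f i (mem_range.1 hi).le).mb
  have m2 := (H.old F.ok s le_rfl F.C0).mb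
  have e : A'.tot a b (A.T a b S ψ K u) = S.uB u.2.2.2 + S.uP (A.tot a b u) := by
    have e1 : ptL A'.n A'.c (A.T a b S ψ K u).2.2.1 = S.uL (u.2.1 b + ptL A.n A.c u.2.2.1) := by
      rw [F.n', F.c]
      refine (Sd.uL_one fun z hz => ?_).symm
      rw [← F.n] at hz
      rw [Pi.add_apply, (H.g b le_rfl z).2.2 (F.ok.db ▸ hz), ptL, if_neg hz, add_zero]
    have e2 : S.uL (A.old b u) = ∑ m ∈ range b, S.uL (u.2.1 m) +
        S.uL (u.2.1 b + ptL A.n A.c u.2.2.1) := by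
      rw [old, sum_range_succ, add_assoc, Sd.uL_add, Sd.uL_sum]
    rw [tot, old, e1, tot, sum_range_succ u.1, F.pu.uP_add ((MB.sum _ m1).add (H.f a le_rfl).mb) m2,
      F.pu.uP_add (MB.sum _ m1) (H.f a le_rfl).mb, F.pu.uP_sum _ m1, sum_range_succ',
      sum_range_succ']
    simp only [T, Nat.casesOn, Nat.rec_zero]
    rw [sum_congr rfl fun i hi => if_pos (mem_range.1 hi),
      sum_congr rfl fun i hi => if_pos (mem_range.1 hi), e2]
    abel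
  have := F.pu.PL_eq (H.tot F.ok s le_rfl F.C0).mb u.2.2.2
  simp only [Ag.prj, e, F.p, F.p']
  exact this.symm

theorem lin (H : A.P a b σ ev u y) (H' : A.P a b σ ev v y') (t : ℂ) :
    A.T a b S ψ K (u + t • v) = A.T a b S ψ K u + t • A.T a b S ψ K v := by
  obtain ⟨k, k1, -⟩ := H.K
  obtain ⟨k', k1', -⟩ := H'.K
  rw [F.n, F.p] at k1 k1'
  refine Prod.ext (funext fun i => ?_) (Prod.ext (funext fun m => ?_) (Prod.ext ?_ ?_))
  · rcases i with _ | i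
    · exact F.pu.uB_lin k1 k1' t
    · change (if i < a then S.uP (u.1 i + t • v.1 i) else 0) =
        (if i < a then S.uP (u.1 i) else 0) + t • if i < a then S.uP (v.1 i) else 0
      split_ifs with e
      exacts [F.pu.uP_lin (H.f i e.le).mb (H'.f i e.le).mb t, by simp]
  · rcases m with _ | m
    · change S.uP (u.1 a + t • v.1 a) + (_ - _) = _ + (_ - _) + t • (_ + (_ - _))
      rw [old_lin, F.pu.uP_lin (H.f a le_rfl).mb (H'.f a le_rfl).mb, Sd.uL_lin,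
        F.pu.uP_lin (H.old F.ok s le_rfl F.C0).mb (H'.old F.ok s le_rfl F.C0).mb, smul_add, smul_sub]
      abel
    · change (if m < b then S.uL (u.2.1 m + t • v.2.1 m) else 0) =
        (if m < b then S.uL (u.2.1 m) else 0) + t • if m < b then S.uL (v.2.1 m) else 0
      split_ifs
      exacts [S.uL_lin _ _ t, by simp]
  · change S.uL (u.2.1 b + t • v.2.1 b + ptL _ _ (u.2.2.1 + t • v.2.2.1)) _ =
      (S.uL _ + t • S.uL _) _
    rw [← Sd.uL_lin, ptL_lin, smul_add, add_add_add_comm]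
  · change dK S ψ K (A.prj a b (u + t • v)).1 _ = _
    rw [prj_lin]
    exact (dK_add F.nu F.st F.rm (F.dir s H) ((F.dir s H').smul F.nu t)).trans
      (congrArg _ (dK_smul ..))

omit s in
/-- the gain of one age -/
theorem age (y0 : 0 ≤ y) (x0 : 0 ≤ x) (i : ℕ) :
    2 * S.L ^ 4 * (y / A.W ^ (i + 1)) ≤ ε / (4 * C' ^ 2) * (x + y) / A'.W ^ i := by
  have W0 := F.ok'.Wp 1
  have Wi := F.ok'.Wp i
  have c0 : 0 < C' := one_pos.trans_le F.C1'
  have L0 := Sd.L0 S.toTd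
  rw [pow_one] at W0
  have e : 2 * S.L ^ 4 ≤ ε / (4 * C' ^ 2) * A'.W := by
    rw [div_mul_eq_mul_div, le_div_iff₀ (by positivity)]
    linarith [F.e1]
  calc _ ≤ ε / (4 * C' ^ 2) * A'.W * ((x + y) / A'.W ^ (i + 1)) := by
        refine mul_le_mul e ?_ (div_nonneg y0 (F.ok.Wp _).le) (le_trans (by positivity) e)
        gcongr
        exacts [by linarith, F.W]
    _ = _ := by field_simp; ring

omit s in
theorem ε0 : 8 ≤ ε * A'.W ∧ 0 < ε := by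
  have a1 : 8 ≤ ε * A'.W := le_trans (by
    nlinarith [one_le_pow₀ (n := 2) F.C1', one_le_pow₀ (n := 4) (Sd.L1 S.toTd)]) F.e1
  exact ⟨a1, by nlinarith [F.ok'.W1]⟩

theorem step (s' : A'.Sy a b C' W σ' ev')
    (s2 : Sy2 (A.R (b + 1)) (A'.R (b + 1)) (60 * A.p.ρ) (60 * A'.p.ρ) (A.h (a + 1)) (A'.h (a + 1))
      lam η (lm S.l S.s (rc (LL S.l) A.c)) σ σ' ev' L) (l0 : 0 ≤ lam) (η0 : 0 ≤ η)
    (H : A.P a b σ ev u y) (hx : ‖σ u.2.2.1‖ ≤ x) (h0 : 0 < x + y) :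
    A'.P a b σ' ev' (A.T a b S ψ K u) ((C * lam + ε) * (x + y)) ∧
      ‖σ' (A.T a b S ψ K u).2.2.1 - L (σ u.2.2.1)‖ ≤ (C * η + ε) * (x + y) := by
  have o := F.ok
  have o' := F.ok'
  have P := F.pu
  have y0 := H.nn o
  have x0 := (norm_nonneg _).trans hx
  obtain ⟨ε1, ε0⟩ := F.ε0
  have C1 := F.C1
  have C1' := F.C1'
  have c2 := one_le_pow₀ (n := 2) C1'
  have L0 := Sd.L0 S.toTd
  have up : ε * (x + y) ≤ (C * lam + ε) * (x + y) := by gcongr; nlinarith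
  have a1 : ε / (4 * C' ^ 2) * (x + y) ≤ ε / 4 * (x + y) := by gcongr; linarith
  have ag : ∀ i, 2 * S.L ^ 4 * (y / A.W ^ (i + 1)) ≤ (C * lam + ε) * (x + y) / A'.W ^ i := fun i =>
    (F.age y0 x0 i).trans (div_le_div_of_nonneg_right (by nlinarith) (o'.Wp i).le)
  obtain ⟨e, d1, d2⟩ := F.d0
  obtain ⟨k, k1, k2⟩ := H.K
  obtain ⟨κ, κ', κ0, κ1, κ2, hK⟩ := F.K
  obtain ⟨m, m1, m2⟩ := hK (2 * ((a + b + 3 + C) * (x + y))) _ k (by positivity) k2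
  have hφ := (H.last s hx F.C0).mono le_rfl le_rfl le_rfl (show _ ≤ C * (x + y) by nlinarith)
  obtain ⟨s3, s4⟩ := s2 _ _ hφ H.z
  have hf := H.f
  have hg := H.g
  have ho := H.old o s hx F.C0
  have hp := tf_pt (n := A.n) (c := A.c) hφ H.bd o.ρ0 (o.hp le_rfl).le
  obtain ⟨q1, q2⟩ := F.pu' s H hx
  have ks := H.s
  have k3 := o.kn _ _ k2
  have eφ : (A.T a b S ψ K u).2.2.1 = (fun B => u.2.2.1 (lm S.l S.s (rc (LL S.l) A.c) B)) +
      (1 : ℂ) • S.uL (u.2.1 b) (yo S.l A.c) := by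
    rw [← Sd.uL_pt P.nu.ok.odd H.z, ← F.n, one_smul, add_comm]
    exact congrFun (S.uL_add _ _) _
  rw [F.n, F.p] at hf hg ho hp k1 k3
  rw [F.n] at q2 ks
  have t1 := (P.uL_tf (hg b le_rfl) (Dn.div _ _ _) (o'.hp le_rfl) F.hl (F.Rs b le_rfl) (yo S.l A.c))
  have t2 := (P.uL_tf hp (Dn.div _ _ _) (o'.hp le_rfl) F.hl F.Rl (yo S.l A.c))
  rw [← F.n, ← F.p'] at t2
  rw [← F.p', Nat.add_sub_cancel_left] at t1
  rw [F.n, Sd.uL_pt P.nu.ok.odd H.z] at t2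
  have t3 := t1.1.mono le_rfl le_rfl le_rfl (F.age y0 x0 0)
  rw [pow_zero, div_one] at t3
  obtain ⟨t4, t5⟩ := s'.bd _ _ t3 (S.uL_zero _ _)
  have eσ := s'.lin _ _ _ _ 1 t2.1 t3
  have a2 : C' * (C' * (ε / (4 * C' ^ 2) * (x + y))) = ε / 4 * (x + y) := by field_simp
  have a3 : C' * (ε / (4 * C' ^ 2) * (x + y)) ≤ ε / 4 * (x + y) :=
    (le_mul_of_one_le_left (by positivity) C1').trans a2.le
  refine ⟨⟨fun i hi => ?_, fun i hi => ?_, S.uL_zero _ _, eφ ▸ t2.2.1.add (t1.2.1.smul 1),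
    ⟨_, eφ ▸ t2.1.add (t3.smul 1)⟩, ?_, ⟨m, m2 _ _ (pu_mono q1 (by nlinarith)) (F.n ▸ F.p ▸ k1),
      m1.mono ?_⟩, ?_⟩, ?_⟩
  · rw [F.n', F.p', F.c]
    rcases i with _ | i
    · refine (P.uB_tf k1 k3 ks d1 o'.h0.le F.hb).mono le_rfl le_rfl ?_ d2
      have W0 := o'.Wp 1
      have Wi := o'.Wp (a + b + 2)
      rw [pow_one] at W0
      calc _ ≤ ε * A'.W * ((x + y) / A'.W ^ (a + b + 3)) / 1 := by
            have := S.Q1
            have := o.Wp (a + b + 3)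
            gcongr
            exacts [by linarith, by linarith, F.W]
        _ = ε * (x + y) / A'.W ^ (a + b + 2) := by field_simp; ring
        _ ≤ _ := by rw [Nat.sub_zero]; gcongr
    · change Tf _ _ _ _ _ _ _ (if i < a then _ else _)
      rw [if_pos (show i < a from hi)]
      refine (P.uP_tf (hf i (by omega)) d1 (o'.hp (by omega)) (F.hs i (by omega))
        (F.hu _ (by omega))).mono le_rfl le_rfl ?_ (by omega)
      rw [show a + b + 2 - i = a + b + 2 - (i + 1) + 1 by omega]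
      exact ag _
  · rw [F.n', F.p', F.c]
    rcases i with _ | i
    · rw [o'.R0, F.p']
      refine ((P.uP_tf (hf a le_rfl) d1 (o'.hp le_rfl) (F.hs a le_rfl) (F.hu _ le_rfl)).add
        (P.rest_tf ho d1 (o'.hp le_rfl) F.hl (F.hu _ le_rfl) F.hr)).mono le_rfl le_rfl ?_ (by omega)
      rw [show a + b + 2 - a = b + 1 + 1 by omega, Nat.sub_zero]
      have Wi := o'.Wp (b + 1)
      have H0 := o.hp (i := a + 1) le_rfl
      have g0 := P.nu.ok.g0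
      have b1 := (F.age y0 x0 (b + 1)).trans (div_le_div_of_nonneg_right a1 Wi.le)
      have b2 : 16 * S.L ^ 4 * (S.Q ^ 2 * S.g) / A.h (a + 1) * ((b + 2) * y + C * x) ≤
          ε / 2 * (x + y) / A'.W ^ (b + 1) :=
        calc _ ≤ 16 * S.L ^ 4 * (S.Q ^ 2 * S.g) / A.h (a + 1) * ((b + 2 + C) * (x + y)) := by
              gcongr
              nlinarith [mul_nonneg (Nat.cast_nonneg (α := ℝ) b) x0]
          _ = 32 * S.L ^ 4 * (S.Q ^ 2 * S.g) * (b + 2 + C) * A'.W ^ (b + 1) *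
              ((x + y) / 2 / A.h (a + 1) / A'.W ^ (b + 1)) := by field_simp; ring
          _ ≤ ε * A.h (a + 1) * ((x + y) / 2 / A.h (a + 1) / A'.W ^ (b + 1)) :=
              mul_le_mul_of_nonneg_right F.e2 (by positivity)
          _ = _ := by field_simp
      refine (add_le_add b1 b2).trans ?_
      rw [← add_div]
      exact div_le_div_of_nonneg_right (by nlinarith) Wi.le
    · change Tf _ _ _ _ _ _ _ (if i < b then _ else _)
      rw [if_pos (show i < b from hi)]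
      refine (P.uL_tf (hg i (by omega)) (F.ds i hi) (o'.hp le_rfl) F.hl (F.Rs i (by omega))).mono
        le_rfl le_rfl ?_ le_rfl
      rw [show b + 1 - i = b + 1 - (i + 1) + 1 by omega]
      exact ag _
  · rw [eφ, eσ, s'.evl, one_smul, one_smul, add_sub_add_comm]
    refine (s3.add (t3.sub (s'.ev _ t4))).mono le_rfl le_rfl le_rfl ?_
    nlinarith [mul_le_mul_of_nonneg_left t5 (zero_le_one.trans C1')]
  · have Wi := o'.Wp (a + b + 3)
    have b1 : κ' * (y / A.W ^ (a + b + 3)) ≤ ε / 2 * ((x + y) / A'.W ^ (a + b + 3)) := by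
      refine mul_le_mul (by linarith) ?_ (div_nonneg y0 (o.Wp _).le) (by linarith)
      gcongr
      exacts [by linarith, zero_le_one.trans o'.W1, F.W]
    rw [le_div_iff₀ Wi, add_mul]
    have b2 := mul_le_mul_of_nonneg_right b1 Wi.le
    rw [mul_assoc (ε / 2), div_mul_cancel₀ _ Wi.ne'] at b2
    nlinarith [mul_le_mul_of_nonneg_right κ1 h0.le]
  · rw [F.n', F.c]
    exact (Sd.dK_ks F.nu q2 ks d1).mono (by omega)
  · rw [eφ, eσ, one_smul, add_sub_right_comm]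
    refine (norm_add_le_of_le s4 t5).trans ?_
    nlinarith

end Fit

end Ag

end Pool.Agent.Lib.MP_7f377f_mp.RG.Q4
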