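import Pool.Agent.Lib.MP_7f377f_mp.G.JuK1
import Pool.Agent.Lib.MP_7f377f_mp.G.Q5TanD

/-! The run and its tangents in the norm with a larger weight of the size. -/

noncomputable section

set_option linter.unusedSectionVars false
variable [Pool.Agent.Lib.MP_7f377f_mp.GD]

namespace Pool.Agent.Lib.MP_7f377f_mp.RG.Q4.En

open Finset Real Sd Filter Metric

section step

variable {S : Sd} {A : ℕ} {b θ u y : ℝ} {ψ φ : Lx} {K J : Ac} {k j : Mj}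

omit [GD] in
theorem th_num {q s b θ : ℝ} (c : 100 ≤ q) (s0 : 0 < s) (e : q ^ 500 * s ^ 2 ≤ 1) (b0 : 0 ≤ b)
    (θ0 : 0 ≤ θ) (hb : b ≤ 3 * q ^ 10 * (s ^ 2) ^ 2) (hθ : θ ≤ 2 * (s * (s ^ 2) ^ 2)) :
    q ^ 100 * b ≤ 1 ∧ q ^ 100 * θ ≤ 1 ∧ q ^ 90 * ((s ^ 2) ^ 3 + s ^ 2 * b + b ^ 2 + θ ^ 2 +
      s ^ 2 * θ) + θ / q ≤ (s * (s ^ 2) ^ 2 + θ) / q := by
  have q1 : 1 ≤ q := by linarith
  have q0 : 0 < q := by linarith
  have e1 : q ^ 250 * s ≤ 1 := le_of_sq_le_sq (by rwa [mul_pow, ← pow_mul, one_pow]) zero_le_one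
  have e2 : ∀ i ≤ 249, 100 * (q ^ i * s) ≤ 1 := fun i hi => le_trans (by
    rw [show 250 = 1 + 249 from rfl, pow_add, pow_one, mul_assoc]
    gcongr) e1
  have s1 : s ≤ 1 := by linarith [e2 0 (by norm_num), pow_zero q, s0]
  have s3 : ∀ i, s ^ i ≤ 1 := fun i => pow_le_one₀ s0.le s1
  have q3 : ∀ i, 1 ≤ q ^ i := fun i => one_le_pow₀ q1
  refine ⟨?_, ?_, ?_⟩
  · calc _ ≤ q ^ 100 * (3 * q ^ 10 * (s ^ 2) ^ 2) := by gcongr
      _ = 3 * (q ^ 110 * s) * s ^ 3 := by ring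
      _ ≤ 1 * 1 := by gcongr; exacts [by linarith [e2 110 (by norm_num), mul_pos (pow_pos q0 110) s0], s3 3]
      _ = 1 := one_mul _
  · calc _ ≤ q ^ 100 * (2 * (s * (s ^ 2) ^ 2)) := by gcongr
      _ = 2 * (q ^ 100 * s) * s ^ 4 := by ring
      _ ≤ 1 * 1 := by gcongr; exacts [by linarith [e2 100 (by norm_num), mul_pos (pow_pos q0 100) s0], s3 4]
      _ = 1 := one_mul _
  · rw [add_div, add_le_add_iff_right, le_div_iff₀ q0]
    calc _ ≤ q ^ 90 * ((s ^ 2) ^ 3 + s ^ 2 * (3 * q ^ 10 * (s ^ 2) ^ 2) + (3 * q ^ 10 * (s ^ 2) ^ 2) ^ 2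
          + (2 * (s * (s ^ 2) ^ 2)) ^ 2 + s ^ 2 * (2 * (s * (s ^ 2) ^ 2))) * q := by gcongr
      _ = q ^ 91 * s ^ 6 * (1 + 3 * q ^ 10 + 9 * q ^ 20 * s ^ 2 + 4 * s ^ 4 + 2 * s ^ 1) := by ring
      _ ≤ q ^ 91 * s ^ 6 * (q ^ 20 + 3 * q ^ 20 + 9 * q ^ 20 * 1 + 4 * q ^ 20 + 2 * q ^ 20) := by
        gcongr
        exacts [q3 _, by norm_num, s3 _, (s3 _).trans (q3 _), (s3 _).trans (q3 _)]
      _ = 19 * (q ^ 111 * s) * (s * (s ^ 2) ^ 2) := by ring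
      _ ≤ 1 * (s * (s ^ 2) ^ 2) := by
        gcongr; linarith [e2 111 (by norm_num), mul_pos (pow_pos q0 111) s0]
      _ = _ := one_mul _

theorem th_le (n2 : (S.wK A).Nu 0) (b0 : 0 ≤ b) (θ0 : 0 ≤ θ) (hb : b ≤ 3 * S.Q ^ 10 * S.g ^ 2)
    (hθ : θ ≤ 2 * (√S.g * S.g ^ 2)) : (S.wK A).Q ^ 100 * b ≤ 1 ∧ (S.wK A).Q ^ 100 * θ ≤ 1 ∧
      (S.wK A).θ' b θ ≤ (√S.g * S.g ^ 2 + θ) / (S.wK A).Q := by
  have g0 : 0 < S.g := n2.ok.g0
  have e : _ * S.g ≤ 1 := n2.ok.Qg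
  have := th_num (n2.cQ' (C := 100) (by norm_num)) (sqrt_pos.2 g0) (by rwa [sq_sqrt g0.le]) b0 θ0
    (by
      rw [sq_sqrt g0.le]
      exact hb.trans (by have := Kp.Qp_le S A 10; gcongr)) (by rwa [sq_sqrt g0.le])
  rwa [sq_sqrt g0.le] at this

/-- the base point stays small in the stronger norm -/
theorem baseA (a : S.StA) (n2 : (S.wK A).Nu 0) (pu : PU S.p (2 * S.Q ^ 10 * S.g ^ 2) ψ)
    (km : KM S.p S.nf k K) (kn : kN (S.pA A) S.nf k (√S.g * S.g ^ 2)) :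
    ∃ m, KM S.p' S.n m (S.KK ψ K) ∧
      kN (S.pA' A).up S.n m (2 * (√S.g * S.g ^ 2) / (S.wK A).Q) := by
  have q := S.Q0
  have b0 : 0 ≤ 2 * S.Q ^ 10 * S.g ^ 2 := by positivity
  obtain ⟨c1, c2, c3⟩ := th_le n2 b0 kn.nonneg (by gcongr; norm_num) (by linarith [kn.nonneg])
  obtain ⟨m, m1, m2⟩ := a A n2 _ _ k c1 c2 b0 kn
  exact ⟨m, m2 _ _ pu km, m1.mono (two_mul (√S.g * S.g ^ 2) ▸ c3)⟩

/-- the derivative of the new activities in the stronger norm -/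
theorem tanA (h : S.Nu 100) (f : St2 S) (a : S.StA) (n2 : (S.wK A).Nu 0)
    (kn : kN (S.pA A) S.nf k (√S.g * S.g ^ 2)) (u0 : 0 < u) (jn : kN (S.pA A) S.nf j y) :
    ∃ m, kN (S.pA' A).up S.n m (6 * (√S.g * u + y) / (S.wK A).Q) ∧ ∀ ψ K φ J,
      PU S.p (2 * S.Q ^ 10 * S.g ^ 2) ψ → KM S.p S.nf k K → PU S.p u φ → KM S.p S.nf j J →
        KM S.p' S.n m (dK S ψ K φ J) := by
  have q := S.Q0
  have q2 := (S.wK A).Q0
  have g0 := h.ok.g0
  have s0 := sqrt_pos.2 g0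
  have y0 := jn.nonneg
  obtain ⟨w, hw⟩ : ∃ w, w = √S.g * S.g ^ 2 := ⟨_, rfl⟩
  have w0 : 0 < w := by rw [hw]; positivity
  obtain ⟨e, he⟩ : ∃ e, e = (√S.g * u + y) / w := ⟨_, rfl⟩
  have e0 : 0 < e := by rw [he]; positivity
  have r0 := (inv_pos.2 e0).le
  have e1 : e⁻¹ * u ≤ S.g ^ 2 := by
    rw [inv_mul_le_iff₀ e0, he, hw, div_mul_eq_mul_div, mul_div_mul_right _ _ (by positivity),
      le_div_iff₀ s0]
    linarith
  have e2 : e⁻¹ * y ≤ w := by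
    rw [inv_mul_le_iff₀ e0, he, div_mul_cancel₀ _ w0.ne']
    linarith [mul_pos s0 u0]
  have b0 : 0 ≤ 2 * S.Q ^ 10 * S.g ^ 2 + e⁻¹ * u := by positivity
  rw [← hw] at kn
  have k2 := kn.add (jn.smul r0)
  obtain ⟨c1, c2, c3⟩ := th_le n2 b0 k2.nonneg (by
    linarith [le_mul_of_one_le_left (sq_nonneg S.g) (one_le_pow₀ (n := 10) S.Q1)]) (by linarith)
  obtain ⟨m, m1, m2⟩ := a A n2 _ _ _ c1 c2 b0 k2
  refine ⟨(2 * e) • m, (m1.smul (by positivity)).mono ?_, fun ψ K φ J p1 p2 p3 p4 => ?_⟩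
  · rw [← hw] at c3
    calc _ ≤ 2 * e * ((w + (w + w)) / (S.wK A).Q) := by
          refine mul_le_mul_of_nonneg_left (c3.trans ?_) (by positivity)
          gcongr
      _ = _ := by rw [he]; field_simp; ring
  · have d1 := (mul_le_mul_of_nonneg_right (Kp.Qp_le S A 100) b0).trans c1
    have d2 := (mul_le_mul_of_nonneg_right (Kp.Qp_le S A 100) k2.nonneg).trans c2
    have q100 := (pow_pos q 100).le
    have F := fam_sml h ⟨(mul_le_mul_of_nonneg_left (le_add_of_nonneg_right (by positivity))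
      q100).trans d1, (mul_le_mul_of_nonneg_left (le_add_of_nonneg_right (by positivity))
      q100).trans d2, p1, p2, kN_pA kn⟩ p3 p4 (kN_pA jn) r0 d1 d2
    exact (km_schwarz e0 (fun t ht => m2 _ _ (F t ht).pu (F t ht).km)
      (f.hol _ _ _ _ _ _ isOpen_ball F (holL_line _ _ _) (holA_line _ _ _))).1

end step

namespace Gl

variable (G : Gl)

/-- all steps of `G` have the property `P` -/
def HP (P : Sd → Prop) : Prop := ∀ S : Sd, S.Ok → S.c = G.c → S.Kt = G.Kt → S.K0 = G.K0 →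
  S.K = G.K → S.B = 4 * G.B S.l → G.l0 ≤ S.l → S.TOk → P S

/-- the parameters of level `k` with the larger weight -/
def pA (A k : ℕ) : Pa := (G.p k).ad (2 * A * log (G.L k))

/-- the rate of contraction in the stronger norm -/
def QA (A k : ℕ) : ℝ := (G.L k : ℝ) ^ (G.K + A)

/-- the levels at which the larger weight is admissible -/
def Big (A k : ℕ) : Prop := 1000 * (G.K + A) ≤ G.Bk k ∧
  (Nat.log 3 (G.L k) ^ 4) ^ (20 * (20 + (G.K + A))) ≤ G.l k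

variable {G} {A J k : ℕ} {b u y : ℝ} {z : Z} {P : Sd → Prop} {m : Mj} {θ : ℝ}

theorem kN_pA {n : ℕ} (hk : kN (G.pA A k) n m θ) : kN (G.p k) n m θ :=
  Mg.ad_zero (G.p k) ▸ Mg.kN_drop hk (mul_nonneg (by positivity) (log_natCast_nonneg _))

namespace Ok

variable (h : G.Ok)
include h

theorem hp_sd (hp : G.HP P) (t : G.Tz J (k + 1) z) : P (G.sd k z) :=
  hp _ (h.sd_all k z).nu.ok rfl rfl rfl rfl rfl (h.sch.big k)
    ⟨_, _, _, (v12 t).1, (v12 t).2, ze0 t, h.ze2 t, t.tr k (.inr rfl), h.ln t (.inr rfl)⟩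

theorem hp_sl (hp : G.HP P) (t : G.Tz J k z) : P (G.sl k z) :=
  hp _ (h.sl_all k z).nu.ok rfl rfl rfl rfl rfl (h.sch.big k)
    ⟨_, _, _, (v12 t).1, (v12 t).2, ze0 t, h.ze2 t, t.tr k (.inl rfl), h.ln t (.inl rfl)⟩

theorem big_ev (A : ℕ) : ∃ k0, ∀ k ≥ k0, G.Big A k := eventually_atTop.1 <| by
  filter_upwards [h.sch.Btop.eventually (eventually_ge_atTop (1000 * (G.K + A))),
    h.sch.top.eventually (log_pow_le (4 * (20 * (20 + (G.K + A)))))] with k h1 h2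
  exact ⟨h1, by rw [← pow_mul]; exact h2⟩

theorem nu_wK (a : G.Big A k) {S : Sd} (u : S.Nu 100) (e1 : S.l = G.l k) (e2 : S.K = G.K)
    (e3 : S.B = 4 * G.Bk k) (e4 : S.β' = G.bb k) : (S.wK A).Nu 0 := by
  have v := u.mono (Nat.zero_le _)
  have o := u.ok
  have a1 := a.1
  refine ⟨⟨o.c1, o.size, o.odd, o.vol, ?_, o.le, o.two, o.upp⟩, v.Kt_ge, v.K0_ge,
    v.K_ge.trans (Nat.le_add_right _ _), le_trans (Nat.pow_le_pow_right (by norm_num) ?_) u.r_ge,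
    ?_, v.ex, v.cg⟩
  · change ((LL S.l : ℝ) ^ (S.K + A)) ^ 1000 ≤ S.β'
    rw [← pow_mul, e1, e2, e4]
    exact h.Lbk k (by omega)
  · change (0 + 20) * (S.K + A + S.B + 1) ≤ _
    omega
  · change (Nat.log 3 (LL S.l) ^ 4) ^ (20 * (0 + 20 + (S.K + A))) ≤ S.l
    rw [e1, e2]
    exact a.2

theorem nuA (a : G.Big A k) (z : Z) : ((G.sd k z).wK A).Nu 0 :=
  h.nu_wK a (h.sd_all k z).nu rfl rfl rfl rfl

theorem QA_ge (A k : ℕ) : G.Q k ≤ G.QA A k := Kp.Q_le (G.sd k (G.top0 0 0)) A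

theorem pu_zz (t : G.Tu1 b J) (hk : k < J) : PU (G.p (k + 1))
    (2 * G.Q k ^ 10 * G.g (k + 1) ^ 2) (G.zz b J (k + 1)).ψ := by
  have := Sz.pu (h.sd_all k (G.zz b J (k + 1))).nu (h.sz_sd (t.gd (k + 1) hk).dt.sz _) (by
    refine le_trans ?_ (h.Qsg (k + 1))
    exact mul_le_mul_of_nonneg_right ((pow_le_pow_left₀ (h.Q0 k).le (h.Q_mono k.le_succ) _).trans
      (pow_le_pow_right₀ (h.Q1 _) (by norm_num))) (sqrt_nonneg _))
  exact pu_mono this (le_of_eq (by change G.Q k ^ 10 * _ * G.g (k + 1) ^ 2 = _; ring))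

/-- the activities of the run are small in the stronger norm -/
theorem baseK (hp : G.HP StA) (t : G.Tu1 b J) : ∀ k ≤ J, (∀ i ≥ k, G.Big A i) →
    ∃ m, KM (G.p k) (G.N k) m (G.zz b J k).K ∧
      kN (G.pA A k).up (G.N k) m (√(G.g k) * G.g k ^ 2) := by
  refine dw_ind (fun a => ?_) fun k hk ih a => ?_
  · have nu := (h.sl_all J (G.top b J)).nu
    have n2 := h.nu_wK (a J le_rfl) nu rfl rfl rfl rfl
    have g0 := h.g0 J
    have b1 : G.bb J / 4 ≤ b := by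
      have v := (abs_le.1 (t.gd J le_rfl).tz.v).1
      rw [zz_top] at v
      have := (le_div_iff₀ (h.b0 J)).1 (show 2⁻¹ ≤ b / G.bb J by
        change _ ≤ b / G.bb J - 1 at v; linarith)
      linarith [h.b0 J]
    have a1 := nu.KI_km' b1 (wz_ww (b := fun _ _ _ => (b : ℝ)) (by linarith [h.b0 J])
      fun _ _ _ => le_rfl)
    have l0 : 0 ≤ 2 * A * log (G.L J) := mul_nonneg (by positivity) (log_natCast_nonneg _)
    have a2 := nu.kI_sum b1 (s := 2 * A * log (G.L J) + 1) (j := 2) (by positivity) (by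
      have c1 := n2.logQ_le
      have c2 := n2.logQ_ge
      have c3 := nu.r_le_Q
      have c4 : (G.L J : ℝ) ^ A ≤ ((G.sl J (G.top b J)).wK A).Q :=
        pw (G.sl J (G.top b J)).toTd (Nat.le_add_left _ _)
      have c5 := log_le_log (by have := h.L1 J; positivity) c4
      rw [log_pow] at c5
      change _ ≤ ((G.sl J (G.top b J)).r : ℝ) at c1
      norm_num at c1
      linarith) (by norm_num)
    rw [h.sl_nf] at a1 a2
    rw [zz_top]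
    refine ⟨_, a1, kN.mono (p := ((G.p J).ad _).ad 1) (by rw [Mg.ad_ad]; exact a2) ?_⟩
    rw [pow_succ']
    exact mul_le_mul_of_nonneg_right (le_sqrt_of_sq_le (show G.g J ^ 2 ≤ _ by
      nlinarith only [h.g1 J, g0])) (sq_nonneg _)
  · obtain ⟨m, m1, m2⟩ := ih fun i hi => a i (by omega)
    have n2 := h.nuA (a k le_rfl) (G.zz b J (k + 1))
    rw [← h.sd_nf k (G.zz b J (k + 1))] at m1 m2
    obtain ⟨m', a1, a2⟩ := baseA (h.hp_sd hp (t.gd (k + 1) hk).tz) n2 (h.pu_zz t hk) m1 (kN_up m2)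
    rw [zz_step b hk]
    refine ⟨m', a1, a2.mono ?_⟩
    have g0 := h.g0 (k + 1)
    have c := n2.cQ' (C := 2) (by norm_num)
    rw [div_le_iff₀' (by linarith)]
    change 2 * (√(G.g (k + 1)) * G.g (k + 1) ^ 2) ≤ _
    have := h.g_succ k
    gcongr

/-- the tangent step in the stronger norm -/
theorem tanK (hp : G.HP StA) (t : G.Tu1 b J) (hk : k < J) (a : ∀ i ≥ k, G.Big A i) (u0 : 0 < u)
    {j : Mj} (jn : kN (G.pA A (k + 1)) (G.N (k + 1)) j y) :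
    ∃ m, kN (G.pA A k).up (G.N k) m (6 * (√(G.g (k + 1)) * u + y) / G.QA A k) ∧
      ∀ d : Lx × Ac, PU (G.p (k + 1)) u d.1 → KM (G.p (k + 1)) (G.N (k + 1)) j d.2 →
        KM (G.p k) (G.N k) m (G.ts k (G.zz b J (k + 1)) (G.zz b J (k + 1)).d d).2 := by
  obtain ⟨m, m1, m2⟩ := h.baseK hp t (k + 1) hk fun i hi => a i (by omega)
  have tz := (t.gd (k + 1) hk).tz
  rw [← h.sd_nf k (G.zz b J (k + 1))] at m1 m2 jn ⊢
  obtain ⟨m', a1, a2⟩ := tanA (h.sd_all k _).nu (h.st2 tz) (h.hp_sd hp tz) (h.nuA (a k le_rfl) _)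
    (kN_up m2) u0 jn
  exact ⟨m', a1, fun d d1 d2 => a2 _ _ _ _ (h.pu_zz t hk) m1 d1 d2⟩

end Ok

end Gl

end Pool.Agent.Lib.MP_7f377f_mp.RG.Q4.En
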