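import Pool.Agent.Lib.MP_7f377f_mp.G.JuD
import Pool.Agent.Lib.MP_7f377f_mp.G.JuK2
import Pool.Agent.Lib.MP_7f377f_mp.G.StV8a

/-! Tagged states along a run: the cocycle of a point insertion. -/

noncomputable section

set_option linter.unusedSectionVars false
variable [Pool.Agent.Lib.MP_7f377f_mp.GD]

namespace Pool.Agent.Lib.MP_7f377f_mp.RG.Q4.En

open Finset Real Cok Filter

attribute [local irreducible] box lbox tb tau rc

namespace Gl

variable (G : Gl)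

/-- the number of ages of the old terms -/
def aB : ℕ := G.K0 + 3

/-- the number of ages of the young terms -/
def aA (D : ℕ) : ℕ := 10 * G.K + (D + 7) * (G.K0 + 5) + 1

/-- the range of the linear minimiser -/
def rn (k : ℕ) : ℕ := Nat.log 3 (G.L k) ^ 4

/-- lengths which shrink with the age -/
def sc (m k : ℕ) : ℕ :=
  if m ≤ G.K0 + 1 then 3 ^ ((G.K0 + 1) * m) * G.L k ^ (G.K0 + 1 - m) else 0

/-- the shape at level `k` around the track `c` -/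
def ag (D : ℕ) (c : ℕ → St) (k : ℕ) : Ag where
  n := G.N k
  p := G.p k
  pw := G.pA (D + 7) k
  c := c k
  W := (G.L k : ℝ) ^ (D + 7)
  h i := G.g k * (G.L k : ℝ) ^ i / G.Q k ^ 7
  R m := min (G.p k).R (G.sc m k + G.rn k / 3 + 2)
  d m := if m ≤ G.K0 + 2 then G.sc m k + 2 else 0

/-- the range of the term at the centre -/
def lR (k : ℕ) : ℕ := G.rn k / 3 + 2

/-- the width of its tube -/
def lH (D k : ℕ) : ℝ := G.g k * (G.L k : ℝ) ^ (G.aA D + 1) / G.Q k ^ 7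

/-- the small errors -/
def eD (D k : ℕ) : ℝ := ((G.L k : ℝ) ^ (D + 2))⁻¹

/-- the levels at which the calculus works -/
def Ev (D k : ℕ) : Prop := G.Big (D + 7) k ∧ 4 * (D + 8) * (G.aA D + G.aB + 4) ≤ G.Bk k ∧
  4 * 3 ^ (G.K0 + 1) ^ 2 + 100 * (G.aA D + G.aB + 4) ≤ G.L k

/-- tracks which keep away from the faces of the blocks -/
def Trk (c : ℕ → St) (j J : ℕ) : Prop := ∀ k, j ≤ k → k < J →
  c k = yo (G.l k) (c (k + 1)) ∧ rc (G.L k) (c (k + 1)) ∈ box (G.l k - 2)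

/-- the direction of a tagged state -/
def jp (D : ℕ) (c : ℕ → St) (k : ℕ) (u : Jv) : Lx × Ac := (G.ag D c k).prj (G.aA D) G.aB u

/-- the step on tagged states -/
def jT (D : ℕ) (c : ℕ → St) (b : ℝ) (J k : ℕ) (u : Jv) : Jv :=
  (G.ag D c (k + 1)).T (G.aA D) G.aB (G.sd k (G.zz b J (k + 1))) (G.zz b J (k + 1)).ψ
    (G.zz b J (k + 1)).K u

/-- the linear minimiser seen from the track -/
def jm (c : ℕ → St) (b : ℝ) (J k : ℕ) : Fld → Fld :=
  lm (G.l k) (G.sd k (G.zz b J (k + 1))).s (rc (G.L k) (c (k + 1)))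

variable {E : Type} [NormedAddCommGroup E] [NormedSpace ℂ E]

/-- the sizes -/
def jP (D : ℕ) (c : ℕ → St) (σ : ℕ → (Fld → ℂ) → E) (ev : ℕ → E → Fld → ℂ) (k : ℕ) (u : Jv)
    (y : ℝ) : Prop := (G.ag D c k).P (G.aA D) G.aB (σ k) (ev k) u y

/-- a symbol calculus along the track -/
structure Cal (D : ℕ) (c : ℕ → St) (b : ℝ) (J j : ℕ) (W : Submodule ℂ E)
    (σ : ℕ → (Fld → ℂ) → E) (ev : ℕ → E → Fld → ℂ) (A : ℕ → E →ₗ[ℂ] E) (C a lam η : ℕ → ℝ) :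
    Prop where
  s1 : ∀ k, Sy1 (G.lR k) (60 * (G.p k).ρ) (G.lH D k) (C k) W (σ k) (ev k)
  s2 : ∀ k, j ≤ k → k < J → Sy2 (G.lR (k + 1)) (G.lR k) (60 * (G.p (k + 1)).ρ) (60 * (G.p k).ρ)
    (G.lH D (k + 1)) (G.lH D k) (lam k) (η k) (G.jm c b J k) (σ (k + 1)) (σ k) (ev k) (A k)
  inv : ∀ k e, j ≤ k → k < J → ‖e‖ ≤ a k * ‖A k e‖
  nl : ∀ k, 0 ≤ a k ∧ 0 ≤ lam k ∧ 0 ≤ η k ∧ 1 ≤ C k
  C1 : ∀ k, j ≤ k → k ≤ J → 100 * C k ^ 2 ≤ G.L k

variable {G} {D J j k : ℕ} {c : ℕ → St} {b x y N : ℝ} {ω C a lam η : ℕ → ℝ} {W : Submodule ℂ E}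
  {σ : ℕ → (Fld → ℂ) → E} {ev : ℕ → E → Fld → ℂ} {A : ℕ → E →ₗ[ℂ] E} {u v : Jv}

theorem trk_zero (G : Gl) (j J : ℕ) : G.Trk 0 j J := fun k _ _ =>
  ⟨(Op.yo_eq_zero.2 (zero_mem_box _)).symm, by
    rw [Pi.zero_apply, rc_eq (n := G.L k) ⟨G.l k, rfl⟩ (zero_mem_box _)]; exact zero_mem_box _⟩

theorem Sy1.zero {R : ℕ} {ρ H C : ℝ} {σ : (Fld → ℂ) → E} {ev : E → Fld → ℂ}
    (s : Sy1 R ρ H C W σ ev) : σ 0 = 0 ∧ ev 0 = 0 :=
  ⟨by simpa using s.lin 0 0 0 0 1 (Tbw.zero ..) (Tbw.zero ..), by simpa using s.evl 0 0 1⟩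

namespace Ok

variable (h : G.Ok)
include h

theorem ev_ev (D : ℕ) : ∃ k0, ∀ k ≥ k0, G.Ev D k := eventually_atTop.1 <| by
  obtain ⟨k0, a⟩ := h.big_ev (D + 7)
  filter_upwards [eventually_ge_atTop k0, h.sch.Btop.eventually (eventually_ge_atTop _),
    h.sch.top.eventually (eventually_ge_atTop
      (4 * 3 ^ (G.K0 + 1) ^ 2 + 100 * (G.aA D + G.aB + 4)))] with k h1 h2 h3
  exact ⟨a k h1, h2, h3.trans (by unfold L l LL; omega)⟩

theorem rn_le (k : ℕ) : 10 ^ 9 * G.rn k ≤ G.l k ∧ 10 ^ 9 ≤ G.rn k ∧ G.L k = 2 * G.l k + 1 ∧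
    G.L k ≤ G.D0 k ∧ G.L (k + 1) ≤ 3 * G.L k :=
  have n := (h.sd_all k (G.top0 0 0)).nu
  ⟨n.r_sq, n.lens.1, rfl, by exact_mod_cast h.LD k, n.ok.ML⟩

theorem sc_zero (k : ℕ) : G.sc 0 k = G.L k * G.D0 k := by simp [sc, D0, pow_succ']

theorem sc_le (m k : ℕ) : G.sc m k ≤ G.sc 0 k := by
  have n := (h.sd_all k (G.top0 0 0)).nu
  have a : 3 ^ (G.K0 + 1) ≤ G.L k := by
    have a : 20 * (G.K0 + 1) ≤ G.K := n.exps.2.2.2.1
    have : (3 : ℝ) ^ (G.K0 + 1) ≤ G.L k :=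
      (n.three (show _ ≤ 120 * (G.Kt + G.K0 + G.K) by omega)).trans n.r_le_L
    exact_mod_cast this
  unfold sc
  split_ifs with e e' e'
  · rw [pow_mul, mul_zero, pow_zero, one_mul, Nat.sub_zero]
    calc _ ≤ G.L k ^ m * G.L k ^ (G.K0 + 1 - m) := by gcongr
      _ = _ := by rw [← pow_add, Nat.add_sub_cancel' e]
  · omega
  · exact Nat.zero_le _
  · exact le_rfl

theorem sc_step (e : G.Ev D k) (m : ℕ) :
    4 * G.sc m (k + 1) ≤ 4 * (G.L k * G.sc (m + 1) k) + G.L k := by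
  have a := (h.rn_le k).2.2.2.2
  have b := e.2.2
  unfold sc
  split_ifs with e1 e2 e2
  · refine (Nat.mul_le_mul_left _ ?_).trans (Nat.le_add_right _ _)
    calc _ ≤ 3 ^ ((G.K0 + 1) * m) * (3 * G.L k) ^ (G.K0 + 1 - m) := by gcongr
      _ ≤ 3 ^ ((G.K0 + 1) * m) * (3 ^ (G.K0 + 1) * G.L k ^ (G.K0 + 1 - m)) := by
        rw [mul_pow]; gcongr <;> omega
      _ = _ := by rw [show G.K0 + 1 - m = G.K0 + 1 - (m + 1) + 1 by omega]; ring
  · obtain rfl : m = G.K0 + 1 := by omega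
    rw [Nat.sub_self, pow_zero, mul_one, ← sq]
    omega
  · omega
  · omega

theorem sc_div (e : G.Ev D k) (m : ℕ) {x : ℕ} (hx : x ≤ G.L k) :
    (G.sc m (k + 1) + x) / G.L k ≤ G.sc (m + 1) k + 1 := by
  have := h.sc_step e m
  have := h.L_big k
  rw [← Nat.lt_succ_iff, Nat.div_lt_iff_lt_mul (by omega), Nat.succ_mul, add_mul, mul_comm _ (G.L k)]
  omega

theorem ag_R (D : ℕ) (c : ℕ → St) (k : ℕ) : (G.ag D c k).R (G.aB + 1) = G.lR k := by
  have := h.rn_le k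
  change min (4 * G.D0 k) (G.sc (G.K0 + 3 + 1) k + G.rn k / 3 + 2) = G.rn k / 3 + 2
  rw [sc, if_neg (by omega)]
  omega

theorem ag_ok (D : ℕ) (c : ℕ → St) (k : ℕ) : (G.ag D c k).Ok (G.aA D) G.aB := by
  have L1 : (1 : ℝ) ≤ G.L k := by linarith [h.L1 k]
  have g0 := h.g0 k
  have Q1 := h.Q1 k
  refine ⟨one_le_pow₀ L1, show 0 < _ * _ / _ by positivity, ?_, fun i _ => ?_,
    fun m => min_le_left _ _, min_eq_left ?_, fun m => ?_, if_neg (by unfold aB; omega),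
    fun _ _ => kN_pA⟩
  · change _ * _ / _ ≤ G.Q k ^ 3 * G.g k
    rw [pow_zero, mul_one]
    exact (div_le_self g0.le (one_le_pow₀ Q1)).trans (le_mul_of_one_le_left g0.le (one_le_pow₀ Q1))
  · change _ * _ / _ ≤ _ * _ / _
    gcongr
    exact Nat.zero_le _
  · have := Nat.mul_le_mul_right (G.D0 k) (h.L_big k)
    change 4 * G.D0 k ≤ _
    rw [h.sc_zero]
    omega
  · have := h.sc_le m k
    simp only [ag]
    split_ifs <;> omega

theorem sgL (e : G.Ev D k) {i : ℕ} (hi : i ≤ (D + 8) * (G.aA D + G.aB + 4)) :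
    √(G.g (k + 1)) * (G.L k : ℝ) ^ i ≤ 1 := by
  have g0 := h.g0 (k + 1)
  refine pow_le_one_iff_of_nonneg (n := 4) (by positivity) (by norm_num) |>.1 ?_
  rw [mul_pow, ← pow_mul, show 4 = 2 * 2 from rfl, pow_mul, sq_sqrt g0.le, ← h.bg (k + 1), mul_comm]
  exact mul_le_mul_of_nonneg_right ((h.Lbk k (by have := e.2.1; nlinarith)).trans
    (h.b_mono k.le_succ)) (sq_nonneg _)

/-- the numbers -/
theorem fit (hp : G.HP Sd.StA) (t : G.Tu1 b J) (R : G.Run b J j ω) (e : ∀ i ≥ j, G.Ev D i)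
    (tr : G.Trk c j J) (h1 : j ≤ k) (h2 : k < J) {C C' : ℝ} (C1 : 1 ≤ C) (C1' : 1 ≤ C')
    (C2 : 100 * C ^ 2 ≤ G.L (k + 1)) (C2' : 100 * C' ^ 2 ≤ G.L k) :
    (G.ag D c (k + 1)).Fit (G.aA D) G.aB (G.ag D c k) (G.sd k (G.zz b J (k + 1)))
      (G.zz b J (k + 1)).ψ (G.zz b J (k + 1)).K C C' (G.eD D k) := by
  obtain ⟨s, v, -, g, -⟩ := R k h1 h2
  have n := (h.sd_all k (G.zz b J (k + 1))).nu
  have ek := e k h1
  obtain ⟨r1, r2, r3, r4, r5⟩ := h.rn_le k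
  obtain ⟨r6, -, r7, -, -⟩ := h.rn_le (k + 1)
  have L1 := h.L1 k
  have L0 : (0 : ℝ) < G.L k := by linarith
  have L2 : (1 : ℝ) ≤ G.L k := by linarith
  have LL : (G.L k : ℝ) ≤ G.L (k + 1) := Nat.cast_le.2 (h.L_mono k.le_succ)
  have L3 : (G.L (k + 1) : ℝ) ≤ 3 * G.L k := by exact_mod_cast r5
  have g0 := h.g0 k
  have g1 := h.g0 (k + 1)
  have gg : G.g k ≤ 3 / 2 * G.g (k + 1) := n.ok.g'g
  have Q0 := h.Q0 k
  have Q1 := h.Q0 (k + 1)
  have QQ := h.Q_mono k.le_succ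
  have ab : 100 * (G.aA D + G.aB + 4 : ℝ) ≤ G.L k := by
    exact_mod_cast (Nat.le_add_left _ _).trans ek.2.2
  have a0 : (0 : ℝ) ≤ G.aA D := Nat.cast_nonneg _
  have b0 : (0 : ℝ) ≤ G.aB := Nat.cast_nonneg _
  have C3 : 100 * C ≤ G.L (k + 1) := le_trans (by nlinarith only [C1]) C2
  have s0 := sqrt_pos.2 g1
  have hs : ∀ i, G.g k * (G.L k : ℝ) ^ (i + 1) / G.Q k ^ 7 ≤
      2 * G.rr k * G.L k * (G.g (k + 1) * (G.L (k + 1) : ℝ) ^ i / G.Q (k + 1) ^ 7) := fun i => by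
    have := h.r1 k
    rw [← mul_div_assoc, div_le_div_iff₀ (by positivity) (by positivity)]
    calc _ ≤ 2 * G.g (k + 1) * ((G.L (k + 1) : ℝ) ^ i * G.L k) * (G.rr k * G.Q k ^ 7) := by
          rw [pow_succ]
          gcongr
          exacts [by linarith, h.Qr k (by norm_num)]
      _ = _ := by ring
  refine ⟨(h.sd_nf k _).symm, rfl, rfl, rfl, (tr k h1 h2).1, h.ag_ok D c _, h.ag_ok D c _, v.pu, n, s,
    g.rm, fun i _ => hs i, le_trans ?_ (hs (G.aA D + 1)), fun i hi => ?_, ?_, ?_, fun m _ => ?_, ?_,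
    ⟨_, Dn.div _ _ _, ?_⟩, fun m hm => ?_, pow_le_pow_left₀ L0.le LL _, C1, C1', ?_, ?_,
    6 * √(G.g (k + 1)) / G.QA (D + 7) k, 6 / G.QA (D + 7) k, ?_, ?_, ?_, fun u y m u0 jn => ?_⟩
  · change _ * _ / _ ≤ _ * _ / _
    gcongr
    exact Nat.le_succ _
  · change 8 * (_ * _ / _) ≤ √(G.g (k + 1))
    have a := h.sgL ek (i := i + 1) (by nlinarith)
    rw [pow_succ] at a
    refine (mul_le_mul_of_nonneg_left (div_le_self (by positivity) (one_le_pow₀ (h.Q1 k)))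
      (by norm_num)).trans ?_
    calc _ ≤ G.L k * (G.g (k + 1) * (G.L k : ℝ) ^ i) := by
          rw [← mul_assoc, ← mul_assoc]
          gcongr ?_ * _
          nlinarith
      _ = √(G.g (k + 1)) * (√(G.g (k + 1)) * ((G.L k : ℝ) ^ i * G.L k)) := by
          rw [← mul_assoc, ← mul_assoc, mul_self_sqrt g1.le]; ring
      _ ≤ _ := mul_le_of_le_one_right s0.le a
  · change _ * _ / _ < G.g (k + 1) / G.Q k ^ 6
    rw [pow_zero, mul_one, div_lt_div_iff₀ (by positivity) (by positivity), pow_succ' _ 6,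
      ← mul_assoc]
    gcongr ?_ * _
    nlinarith [h.LQ k]
  · change 4 * (G.Q k ^ 2 * G.g (k + 1)) < _ * _ / _
    rw [lt_div_iff₀ (by positivity)]
    calc _ ≤ G.g (k + 1) * (4 * G.Q (k + 1) ^ 9) := by
          rw [show 9 = 2 + 7 from rfl, pow_add]
          exact le_of_eq_of_le (by ring) (by gcongr : G.g (k + 1) *
            (4 * (G.Q k ^ 2 * G.Q (k + 1) ^ 7)) ≤ _ * (4 * (G.Q (k + 1) ^ 2 * G.Q (k + 1) ^ 7)))
      _ < G.g (k + 1) * (G.L (k + 1) * G.Q (k + 1) ^ 9) := by gcongr; linarith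
      _ ≤ _ := by
          rw [Q, ← pow_mul, ← pow_succ']
          gcongr
          exacts [by linarith, by unfold aA; omega]
  · refine le_min (le_trans (by gcongr; exact min_le_left _ _) v.pu.rad) ?_
    have := (Nat.div_le_div_right (c := G.L k) (show (G.ag D c (k + 1)).R m ≤ _ from
      (min_le_right _ _).trans_eq (add_assoc _ _ 2))).trans (h.sc_div ek m (by omega))
    change G.rn k / 3 + (_ / G.L k + 1) ≤ _
    omega
  · rw [h.ag_R, h.ag_R]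
    have := Nat.div_eq_of_lt (show G.lR (k + 1) < G.L k by unfold lR; omega)
    change G.rn k / 3 + (_ / G.L k + 1) ≤ G.rn k / 3 + 2
    omega
  · change (G.sc 0 (k + 1) + 2) / G.L k + 1 + G.D0 k ≤ G.sc 0 k + 2
    have a1 : 1000 * G.D0 (k + 1) ≤ G.L k * G.D0 k := h.D_step k
    have a2 := Nat.mul_le_mul_right (G.D0 k) (h.L_big k)
    have a3 := Nat.mul_le_mul_right (G.D0 (k + 1)) r5
    have a4 : (G.sc 0 (k + 1) + 2) / G.L k < 3 * G.D0 (k + 1) + 1 := by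
      rw [h.sc_zero, Nat.div_lt_iff_lt_mul (by omega)]
      nlinarith
    rw [h.sc_zero k]
    omega
  · change Dn _ _ (ite _ _ _) (ite _ _ _)
    rw [if_pos (by unfold aB at hm; omega)]
    split_ifs with q
    · exact (Dn.div _ _ _).mono le_rfl (Nat.succ_le_succ (h.sc_div ek m (by omega)))
    · rw [sc, if_neg (by omega)]
      exact Dn.zero (tr k h1 h2).2 (show 2 ≤ G.l k by omega)
  · change 8 * C' ^ 2 * (G.L k : ℝ) ^ 4 ≤ _⁻¹ * _ ^ (D + 7)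
    rw [show D + 7 = D + 2 + (1 + 4) from rfl, pow_add _ (D + 2), inv_mul_cancel_left₀ (by positivity),
      pow_add, pow_one]
    gcongr
    nlinarith [sq_nonneg C']
  · change 32 * (G.L k : ℝ) ^ 4 * (G.Q k ^ 2 * G.g (k + 1)) * _ * ((G.L k : ℝ) ^ (D + 7)) ^ _ ≤
      _⁻¹ * (_ * _ / _)
    rw [le_inv_mul_iff₀ (by positivity), le_div_iff₀ (by positivity)]
    calc _ = G.g (k + 1) * (32 * (G.aB + 2 + C) * ((G.L k : ℝ) ^ (D + 6 + (D + 7) * (G.aB + 1)) *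
          (G.Q k ^ 2 * G.Q (k + 1) ^ 7))) := by ring
      _ ≤ G.g (k + 1) * (G.L (k + 1) * ((G.L (k + 1) : ℝ) ^ (D + 6 + (D + 7) * (G.aB + 1)) *
          (G.Q (k + 1) ^ 2 * G.Q (k + 1) ^ 7))) := by gcongr; linarith
      _ ≤ _ := by
          rw [Q, ← pow_add, ← pow_mul, ← pow_add, ← pow_succ']
          gcongr
          exacts [by linarith, by unfold aA aB; nlinarith]
  · unfold QA; positivity
  · change _ * ((G.L k : ℝ) ^ (D + 7)) ^ _ ≤ _⁻¹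
    have a := h.sgL ek (i := (D + 7) * (G.aA D + G.aB + 3)) (by gcongr <;> omega)
    rw [inv_eq_one_div, le_div_iff₀ (by positivity), QA]
    calc _ = 24 * (G.aA D + G.aB + 3 + C) * (G.L k : ℝ) ^ (D + 2) / (G.L k : ℝ) ^ (G.K + (D + 7)) *
          (√(G.g (k + 1)) * (G.L k : ℝ) ^ ((D + 7) * (G.aA D + G.aB + 3))) := by ring
      _ ≤ 1 * 1 := by
          gcongr
          rw [div_le_one (by positivity)]
          calc _ ≤ G.L k * (G.L k : ℝ) ^ (D + 2) := by gcongr; linarith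
            _ ≤ _ := by rw [← pow_succ']; exact pow_le_pow_right₀ L2 (by omega)
      _ = 1 := one_mul _
  · rw [eD, inv_eq_one_div, ← mul_div_assoc, QA, div_le_div_iff₀ (by positivity) (by positivity)]
    calc _ ≤ G.L k * (G.L k : ℝ) ^ (D + 2) := by gcongr; linarith
      _ ≤ _ := by rw [← pow_succ', one_mul]; exact pow_le_pow_right₀ L2 (by omega)
  · obtain ⟨m', a1, a2⟩ := h.tanK hp t h2 (fun i hi => (e i (h1.trans hi)).1) u0 jn
    exact ⟨m', (kN_up a1).mono (le_of_eq (by ring)), fun φ J' p q => a2 (φ, J') p q⟩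

theorem sy (s : Sy1 (G.lR k) (60 * (G.p k).ρ) (G.lH D k) N W (σ k) (ev k)) :
    (G.ag D c k).Sy (G.aA D) G.aB N W (σ k) (ev k) := by
  rw [← h.ag_R D c k] at s
  exact s

/-- the size in the norm of the run -/
theorem jp_s1 (s : Sy1 (G.lR k) (60 * (G.p k).ρ) (G.lH D k) N W (σ k) (ev k)) (N1 : 1 ≤ N)
    (e : G.Ev D k) (H : G.jP D c σ ev k u y) (hx : ‖σ k u.2.2.1‖ ≤ x) (ω0 : 0 < ω k)
    (ω1 : ω k ≤ 1) :
    G.S1 ω k (G.Q k ^ 20 * (y + N * x) / (ω k * G.g k ^ 2)) (G.jp D c k u) := by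
  have o := h.ag_ok D c k
  have y0 := H.nn o
  have x0 : 0 ≤ N * x := mul_nonneg (by linarith) ((norm_nonneg _).trans hx)
  have g0 := h.g0 k
  have Q0 := h.Q0 k
  have Q1 := h.Q1 k
  have L1 := h.L1 k
  have ab : 100 * (G.aA D + G.aB + 4 : ℝ) ≤ G.L k := by
    exact_mod_cast (Nat.le_add_left _ _).trans e.2.2
  have T := ((H.tot o (h.sy s) hx (by linarith)).mono (M' := G.L k * (y + N * x)) le_rfl le_rfl
    (by nlinarith) le_rfl).pm o.h0 o.h1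
  obtain ⟨m, m1, m2⟩ := H.K
  have yz : y ≤ y + N * x := by linarith
  generalize y + N * x = z at *
  have z0 := y0.trans yz
  have D1 := h.D1 k
  have w : ∀ {B : ℝ}, B * G.L k ≤ G.Q k →
      B * (G.L k * z) / (G.g k / G.Q k ^ 7) ^ 2 ≤ G.Q k ^ 20 * z / (ω k * G.g k ^ 2) := fun {B} q =>
    calc _ = B * G.L k * G.Q k ^ 14 * z / (1 * G.g k ^ 2) := by field_simp
      _ ≤ G.Q k * G.Q k ^ 19 * z / (ω k * G.g k ^ 2) := by gcongr; norm_num
      _ = _ := by rw [← pow_succ']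
  simp only [ag, pow_zero, mul_one] at T
  refine ⟨PM.mono (h.ρ0 k) T.1 (w ?_) (le_trans (w ?_)
    (le_mul_of_one_le_left (by positivity) (one_le_pow₀ Q1))) ?_, m, m1, (kN_pA m2).mono ?_⟩
  · simpa only [pow_zero, pow_one, mul_one] using
      h.nm k (C := 2 * 10 ^ 11) (i := 1) (j := 0) (by norm_num) (by norm_num) (by norm_num)
  · refine le_trans ?_ (h.nm k (C := 4 * 10 ^ 11 * 5 ^ 12) (i := 1) (j := 12) (by norm_num)
      (by norm_num) (by norm_num))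
    have : ((G.p k).R + 1 : ℝ) ≤ 5 * G.D0 k := by
      change ((4 * G.D0 k : ℕ) + 1 : ℝ) ≤ _
      push_cast
      linarith
    calc _ ≤ 4 * 10 ^ 11 * (5 * G.D0 k : ℝ) ^ 12 * G.L k := by gcongr
      _ = _ := by ring
  · have := h.nm k (C := 2 * 10 ^ 18) (i := 1) (j := 0) (by norm_num) (by norm_num) (by norm_num)
    calc _ = 2 * 10 ^ 18 * (G.L k : ℝ) ^ 1 * (G.D0 k : ℝ) ^ 0 * G.Q k ^ 30 * z := by
          rw [show (G.p k).ρ = G.Q k ^ 3 * G.g k from rfl]; field_simp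
      _ ≤ G.Q k * G.Q k ^ 69 * z := by gcongr; norm_num
      _ = _ := by field_simp
  · calc _ ≤ 1 * z := by rw [one_mul]; exact (div_le_self y0 (one_le_pow₀ o.W1)).trans yz
      _ ≤ G.Q k ^ 20 * z := by gcongr; exact one_le_pow₀ Q1
      _ = _ := by field_simp

/-- activities near the track are tagged states -/
theorem jP_act {K : Ac} {m : Mj} (s : Sy1 (G.lR k) (60 * (G.p k).ρ) (G.lH D k) N W (σ k) (ev k))
    (a1 : KM (G.p k) (G.N k) m K) (a2 : kN (G.pA (D + 7) k) (G.N k) m y)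
    (a3 : KS (G.N k) (c k) (G.L k * G.D0 k) K) :
    G.jP D c σ ev k (0, 0, 0, K) ((G.L k : ℝ) ^ ((D + 7) * (G.aA D + G.aB + 3)) * y) ∧
      σ k 0 = 0 ∧ G.jp D c k (0, 0, 0, K) = (0, K) := by
  have y0 := a2.nonneg
  have W0 : 0 < (G.ag D c k).W := one_pos.trans_le (h.ag_ok D c k).W1
  refine ⟨⟨fun i _ => Tf.zero (by positivity), fun i _ => Tf.zero (by positivity), rfl, Bdd.zero,
    ⟨0, Tbw.zero ..⟩, ?_, ⟨m, a1, a2.mono (le_of_eq ?_)⟩, a3.mono ?_⟩, (Sy1.zero s).1,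
    Prod.ext (funext fun x => funext fun B => ?_) rfl⟩
  · rw [(Sy1.zero s).1, (Sy1.zero s).2, sub_zero]
    exact (Tbw.zero ..).mono le_rfl le_rfl le_rfl (by positivity)
  · rw [pow_mul]
    exact (mul_div_cancel_left₀ _ (pow_pos W0 _).ne').symm
  · exact h.sc_zero k ▸ Nat.le_add_right _ 2
  · simp [jp, Ag.prj, Ag.tot, Ag.old, ptL, ccn, ctr, ctf]

/-- local terms at the centre are tagged states -/
theorem jP_pt {φ : Fld → ℂ} (s : Sy1 (G.lR k) (60 * (G.p k).ρ) (G.lH D k) N W (σ k) (ev k))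
    (N1 : 1 ≤ N) (a1 : Tbw (G.lR k) (60 * (G.p k).ρ) (G.lH D k) y φ) (a2 : φ 0 = 0) (a3 : Bdd φ) :
    G.jP D c σ ev k (0, 0, φ, 0) ((1 + N ^ 2) * y) ∧
      G.jp D c k (0, 0, φ, 0) = (ptL (G.N k) (c k) (ccn (G.p k) φ), 0) := by
  have o := h.ag_ok D c k
  have W0 : 0 < (G.ag D c k).W := one_pos.trans_le o.W1
  have y0 : 0 ≤ y := a1.nonneg (by linarith [h.ρ0 k]) (o.h0.le.trans (o.hm _ le_rfl))
  obtain ⟨b1, b2⟩ := s.bd φ y a1 a2
  have b3 := (a1.sub (s.ev _ b1)).mono le_rfl le_rfl le_rfl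
    (show _ ≤ (1 + N ^ 2) * y by nlinarith [mul_le_mul_of_nonneg_left b2 (by linarith : 0 ≤ N)])
  rw [← h.ag_R D c k] at a1 b3
  refine ⟨⟨fun i _ => Tf.zero (by positivity), fun i _ => Tf.zero (by positivity), a2, a3,
    ⟨y, a1⟩, b3, ⟨0, km_zero, fun _ _ => le_rfl, fun _ => by simp; positivity⟩, fun _ _ _ => rfl⟩,
    Prod.ext (funext fun x => funext fun B => ?_) rfl⟩
  by_cases q : nearT (G.N k) 0 (c k) x <;> simp [jp, Ag.prj, Ag.tot, Ag.old, ptL, ag, q, ccn, ctr, ctf]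

/-- only the values on small real fields enter the tangent step -/
theorem tm_congr (R : G.Run b J j ω) (h1 : j ≤ k) (h2 : k < J) {d d' : Lx × Ac} {N' : ℝ}
    (a1 : G.S1 ω (k + 1) N d) (a2 : G.S1 ω (k + 1) N' d') (e1 : d.2 = d'.2)
    (e2 : ∀ x B, RealF B → Cv (G.p (k + 1)).R (G.p (k + 1)).ρ B → d.1 x B = d'.1 x B) :
    G.tm b J k d = G.tm b J k d' := by
  obtain ⟨φ, hφ⟩ : ∃ φ, φ = d.1 - d'.1 := ⟨_, rfl⟩
  have ρ0 := h.ρ0 (k + 1)
  have z : ∀ x B, RealF B → Cv (G.p (k + 1)).R (G.p (k + 1)).ρ B → φ x B = 0 := fun x B r v => by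
    rw [hφ]; exact sub_eq_zero.2 (e2 x B r v)
  have s : ∀ t : ℂ, G.Sz (k + 1) 1 0 (ω (k + 1)) (t • φ) (t • 0) := fun t =>
    ⟨PM.mono ρ0 (fun x => ⟨((pm_zero ρ0 x).1.congr ρ0 fun B r v => by simp [z x B r v]).1,
      (hφ ▸ (a1.1 x).2.sub (a2.1 x).2 : Measurable (φ x)).const_smul t⟩) zero_le_one (by simp)
      (by simp), by rw [smul_zero]; exact (h.sz_zero _ _).2⟩
  have e : d = d' + (1 : ℂ) • (φ, 0) := Prod.ext (by simp [hφ]) (by simp [e1])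
  rw [e, h.tm_lin R h1 h2 a2 (v := (φ, 0)) (by simpa using s 1), one_smul, add_eq_left]
  obtain ⟨-, v, -, g, -⟩ := R k h1 h2
  refine Prod.ext (funext fun y => funext fun B => ?_) (funext fun X => funext fun a =>
    funext fun U => ?_)
  · change Sd.Pl _ _ _ B = 0
    change ∀ x B, RealF B → Cv (G.sd k (G.zz b J (k + 1))).p.R (G.sd k (G.zz b J (k + 1))).p.ρ B → _
      at z
    generalize G.sd k (G.zz b J (k + 1)) = S at *
    have p : ∀ B, S.pz (S.ψy φ y) B = 0 := fun B => by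
      rcases ctr_cases (R := S.p'.R) v.pu.ρ0.le B with q | ⟨r, w, q⟩ <;> rw [Sd.pz, q]
      refine (congrArg _ (funext fun _ => sum_eq_zero fun x hx => ?_)).trans (MeasureTheory.integral_zero _ _)
      obtain ⟨p1, p2⟩ := v.pu.Gx_cv hx _ r (w.mono le_rfl (by linarith [v.pu.ρ0]))
      exact z _ _ p1 p2
    have q : ∀ X B, S.Fs (S.Ky 0 y) X B = 0 := fun X B => by
      rw [Sd.Fs, show S.Fsr (S.Ky 0 y) X = 0 from funext fun _ => smL_zero]
      simp [ctr, ctf]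
    simp [Sd.Pl, p, q]
  · obtain ⟨m, -, hm⟩ := g.maj 0 1 0 ⟨fun _ _ => le_rfl, fun _ => by simp⟩ zero_le_one (by norm_num)
    have w := fun t : ℂ => hm _ _ (h.sz_fine _ (s t)) (by rw [smul_zero]; exact km_zero)
    simp only [dK_smul] at w
    have w1 := (w 1).per X a U
    rw [one_smul] at w1
    change dK _ _ _ φ 0 X a U = 0
    rw [← w1]
    by_contra q
    have w2 := fun t => (w t).bd X a _ (Mx.per_pc _ U)
    generalize m X a * _ = M at w2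
    simp only [Pi.smul_apply, smul_eq_mul] at w2
    generalize dK _ _ _ φ 0 X a _ = E at q w2
    have := w2 (((M + 1 : ℝ) : ℂ) / E)
    rw [div_mul_cancel₀ _ q, Complex.norm_real] at this
    linarith [le_abs_self (M + 1), Real.norm_eq_abs (M + 1)]

variable (hp : G.HP Sd.StA) (t : G.Tu1 b J) (R : G.Run b J j ω) (e : ∀ i ≥ j, G.Ev D i)
  (tr : G.Trk c j J) (s : G.Cal D c b J j W σ ev A C a lam η)
include hp t R e tr s

theorem fit' (h1 : j ≤ k) (h2 : k < J) : (G.ag D c (k + 1)).Fit (G.aA D) G.aB (G.ag D c k)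
    (G.sd k (G.zz b J (k + 1))) (G.zz b J (k + 1)).ψ (G.zz b J (k + 1)).K (C (k + 1)) (C k)
    (G.eD D k) :=
  h.fit hp t R e tr h1 h2 (s.nl _).2.2.2 (s.nl _).2.2.2 (s.C1 _ (by omega) h2) (s.C1 _ h1 h2.le)

/-- the flow of tagged states is the tangent flow -/
theorem jp_jT (h1 : j ≤ k) (h2 : k < J) (H : G.jP D c σ ev (k + 1) u y) :
    G.jp D c k (G.jT D c b J k u) = G.tm b J k (G.jp D c (k + 1) u) :=
  (h.fit' hp t R e tr s h1 h2).prj (h.sy (s.s1 _)) H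

/-- the cocycle -/
theorem co : Co j J (G.jP D c σ ev) (fun k u => σ k u.2.2.1) (G.jT D c b J) A W a
    (fun k => C (k + 1) * lam k + G.eD D k) fun k => C (k + 1) * η k + G.eD D k where
  zero k := Ag.P.zero (h.ag_ok D c k) (h.sy (s.s1 k))
  nn k _ _ H := H.nn (h.ag_ok D c k)
  mono k _ _ _ H q := H.mono (h.ag_ok D c k) q
  lin k _ _ _ _ z H H' := H.lin (h.ag_ok D c k) (h.sy (s.s1 k)) H' z
  linT k _ _ _ _ z h1 h2 H H' := (h.fit' hp t R e tr s h1 h2).lin (h.sy (s.s1 _)) H H' z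
  mem k _ _ H := H.mem (h.sy (s.s1 k))
  step k _ _ _ h1 h2 H hx h0 := (h.fit' hp t R e tr s h1 h2).step (h.sy (s.s1 _)) (h.sy (s.s1 _))
    (by rw [h.ag_R, h.ag_R]; exact s.s2 k h1 h2) (s.nl k).2.1 (s.nl k).2.2.1 H hx h0
  inv := s.inv
  nl k := by
    obtain ⟨a1, a2, a3, -⟩ := s.nl k
    have := (s.nl (k + 1)).2.2.2
    unfold eD
    exact ⟨a1, by positivity, by positivity⟩

end Ok

end Gl

end Pool.Agent.Lib.MP_7f377f_mp.RG.Q4.En
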