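import Pool.Agent.Lib.MP_7f377f_mp.G.JsA

/-! Larger constants of a cocycle. -/

namespace Pool.Agent.Lib.MP_7f377f_mp.Cok

variable {𝕜 V E : Type} [NontriviallyNormedField 𝕜] [AddCommGroup V] [Module 𝕜 V]
  [NormedAddCommGroup E] [NormedSpace 𝕜 E] {j J : ℕ} {P : ℕ → V → ℝ → Prop} {q : ℕ → V → E}
  {T : ℕ → V → V} {A : ℕ → E →ₗ[𝕜] E} {W : Submodule 𝕜 E} {a lam η a' lam' η' : ℕ → ℝ}

/-- larger constants -/
theorem Co.up (h : Co j J P q T A W a lam η) (n : ∀ k, 0 ≤ a' k ∧ 0 ≤ lam' k ∧ 0 ≤ η' k)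
    (e : ∀ k, j ≤ k → k < J → a k ≤ a' k ∧ lam k ≤ lam' k ∧ η k ≤ η' k) :
    Co j J P q T A W a' lam' η' :=
  ⟨h.zero, h.nn, h.mono, h.lin, h.linT, h.mem, fun k u x y h1 h2 p hx h0 =>
    ⟨h.mono _ _ _ _ (h.step k u x y h1 h2 p hx h0).1
      (mul_le_mul_of_nonneg_right (e k h1 h2).2.1 h0.le), (h.step k u x y h1 h2 p hx h0).2.trans
        (mul_le_mul_of_nonneg_right (e k h1 h2).2.2 h0.le)⟩, fun k x h1 h2 => (h.inv k x h1 h2).trans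
      (mul_le_mul_of_nonneg_right (e k h1 h2).1 (norm_nonneg _)), n⟩

end Pool.Agent.Lib.MP_7f377f_mp.Cok
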