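import Pool.Agent.Lib.MP_7f377f_mp.G.JuE
import Pool.Agent.Lib.MP_7f377f_mp.G.JuO

/-! The flow of tagged states: entrance, sources, exit and translations. -/

noncomputable section

set_option linter.unusedSectionVars false
variable [Pool.Agent.Lib.MP_7f377f_mp.GD]

namespace Pool.Agent.Lib.MP_7f377f_mp.RG.Q4

open Finset Real Cok En
open scoped Classical

attribute [local irreducible] box lbox tb tau rc

variable {E : Type} [NormedAddCommGroup E] [NormedSpace ℂ E]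

section cut

variable {R : ℕ} {ρ h h1 h' M C : ℝ} {φ : Fld → ℂ} {W : Submodule ℂ E} {σ : (Fld → ℂ) → E}
  {ev : E → Fld → ℂ}

/-- a bounded function with the same values on the smaller tube -/
theorem Tbw.cut (H : Tbw R ρ h M φ) (h0 : 0 ≤ h') (e1 : h' < h1) (e2 : h1 < h) :
    Tbw R ρ h' M (opT R ρ h1 φ) ∧ Bdd (opT R ρ h1 φ) ∧
      ∀ B, InT R ρ h' B → opT R ρ h1 φ B = φ B :=
  have b : ∀ B, InT R ρ h1 B → ‖φ B‖ ≤ M := fun B q => H.bd B (q.mono le_rfl le_rfl e2.le)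
  ⟨Tb.tbw ⟨H.toLA, fun _ _ o g q => H.disc e2 o (fun f _ => g f) q, b⟩ h0 e1, opT_bdd b,
    fun _ => opT_eq e1⟩

/-- the symbol depends only on the values on the tube -/
theorem Sy1.congr (s : Sy1 R ρ h C W σ ev) {φ' : Fld → ℂ} {M' : ℝ} (H : Tbw R ρ h M φ)
    (H' : Tbw R ρ h M' φ') (ρ0 : 0 ≤ ρ) (h0 : 0 ≤ h) (e : ∀ B, InT R ρ h B → φ B = φ' B) :
    σ φ = σ φ' := by
  have a := H.add (H'.smul (-1))
  have := (s.bd _ 0 { a with bd := fun B q => by simp [e B q] }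
    (by simp [e 0 (inT_zero ρ0 h0)])).2
  rw [s.lin _ _ _ _ _ H H', mul_zero, norm_le_zero_iff, neg_one_smul] at this
  exact add_neg_eq_zero.1 this

end cut

/-- `u'` is the state `u` seen from `v` -/
def Jr (n : ℕ) (v : St) (u u' : Jv) : Prop :=
  (∀ i, u'.1 i = trL n v (u.1 i)) ∧ (∀ m, u'.2.1 m = trL n v (u.2.1 m)) ∧ u'.2.2.1 = u.2.2.1 ∧
    ∀ o ∈ lps (box (n / 2)), u'.2.2.2 o.1 o.2 = trA n v u.2.2.2 o.1 o.2

section tr

variable {n a b : ℕ} {v w c c' : St} {u u' z z' : Jv} {A A' : Ag} {S : Sd} {ψ : Lx} {K J J' : Ac}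

theorem Jr.lin (r : Jr n v u u') (r' : Jr n v z z') (t : ℂ) : Jr n v (u + t • z) (u' + t • z') :=
  ⟨fun i => congrArg₂ (· + t • ·) (r.1 i) (r'.1 i), fun i => congrArg₂ (· + t • ·) (r.2.1 i) (r'.2.1 i),
    congrArg₂ (· + t • ·) r.2.2.1 r'.2.2.1,
    fun o ho => congrArg₂ (· + t • ·) (r.2.2.2 o ho) (r'.2.2.2 o ho)⟩

theorem Jr.zero (n : ℕ) (v : St) : Jr n v 0 0 := ⟨fun _ => rfl, fun _ => rfl, rfl, fun _ _ => rfl⟩

theorem Jr.sum {ι : Type} (s : Finset ι) (c : ι → ℂ) {u u' : ι → Jv} (r : ∀ i, Jr n v (u i) (u' i)) :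
    Jr n v (∑ i ∈ s, c i • u i) (∑ i ∈ s, c i • u' i) := by
  induction s using Finset.cons_induction with
  | empty => exact Jr.zero n v
  | cons i s hi ih => rw [sum_cons, sum_cons, add_comm, add_comm (c i • u' i)]; exact ih.lin (r i) _

theorem ptL_tr (e : c' + v = c) (φ : Fld → ℂ) : ptL n c' φ = trL n v (ptL n c φ) :=
  funext fun x => if_congr (by rw [nearT_rc_right, ← e, nearT_add_right]) rfl rfl

theorem trL_sum {ι : Type} (s : Finset ι) (f : ι → Lx) :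
    trL n v (∑ i ∈ s, f i) = ∑ i ∈ s, trL n v (f i) := funext fun x => by
  simp only [trL, Finset.sum_apply]

theorem Sd.uP_tr (S : Sd) (φ : Lx) (v : St) : S.uP (trL S.nf (up S.l v) φ) = trL S.n v (S.uP φ) :=
  funext fun y => congrArg (fun f : Lx => push (nuI S.ζ) S.l S.Gx fun x => cen (f x))
    (Sh.ψy_ψy S φ v y)

theorem Sd.uL_tr (S : Sd) (φ : Lx) (v : St) : S.uL (trL S.nf (up S.l v) φ) = trL S.n v (S.uL φ) :=
  funext fun y => congrArg (fun f : Lx => lpush S.l S.s fun x => cen (f x)) (Sh.ψy_ψy S φ v y)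

theorem Sd.uL_rc (S : Sd) (φ : Lx) (y : St) : S.uL φ (rc S.n y) = S.uL φ y := by
  simp only [Sd.uL, Sd.ψy, Sd.nf, Sh.trL_up_rc]

theorem Sd.uB_tr (o : Odd S.n)
    (r : ∀ q ∈ lps (box (S.nf / 2)), J' q.1 q.2 = trA S.nf (up S.l v) J q.1 q.2) :
    S.uB J' = trL S.n v (S.uB J) := by
  funext y
  refine congrArg Neg.neg (sum_congr rfl fun X hX => ?_)
  have e : S.Ky J' y X ∅ = S.Ky J (rc S.n (y + v)) X ∅ :=
    (funext fun _ => congrFun (r _ (Sh.trP_mem (Sh.onf o) (Sh.X1_lps hX) _)) _).trans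
      (congrFun₂ (Sh.Ky_Ky S J v y) X ∅)
  have : S.Fsr (S.Ky J' y) X = S.Fsr (S.Ky J (rc S.n (y + v))) X := by unfold Sd.Fsr; rw [e]
  rw [this]

variable (hn : A.n = n) (hn' : A'.n = n) (hc : A'.c + v = A.c) (r : Jr n v u u')
include hn hn' hc r

theorem Jr.old : A'.old b u' = trL n v (A.old b u) := by
  rw [Ag.old, Ag.old, hn, hn', ptL_tr hc, r.2.2.1, sum_congr rfl fun m _ => r.2.1 m, ← trL_sum]
  rfl

theorem Jr.prj (hp : A'.p = A.p) : (A'.prj a b u').1 = trL n v (A.prj a b u).1 := by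
  have : A'.tot a b u' = trL n v (A.tot a b u) := by
    rw [Ag.tot, Ag.tot, r.old hn hn' hc, sum_congr rfl fun m _ => r.1 m, ← trL_sum]
    rfl
  simp only [Ag.prj, this, hp]
  rfl

end tr

/-- the step commutes with translations by blocks -/
theorem Jr.step {a b : ℕ} {v : St} {u u' : Jv} {A A' : Ag} {S : Sd} {ψ : Lx} {K : Ac}
    (r : Jr S.nf (up S.l v) u u') (hn : A.n = S.nf) (hn' : A'.n = S.nf)
    (hc : A'.c + up S.l v = A.c) (hp : A'.p = A.p) (h : S.Nu 100) (t : TCov S.nf ψ K) :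
    Jr S.n v (A.T a b S ψ K u) (A'.T a b S ψ K u') := by
  refine ⟨fun i => ?_, fun m => ?_, ?_, fun o ho => ?_⟩
  · rcases i with _ | i
    · exact Sd.uB_tr h.ok.odd r.2.2.2
    · change (if i < a then S.uP (u'.1 i) else 0) = trL _ _ (if i < a then S.uP (u.1 i) else 0)
      split_ifs
      exacts [by rw [r.1, Sd.uP_tr], rfl]
  · rcases m with _ | m
    · change S.uP (u'.1 a) + (S.uP _ - S.uL _) = _
      rw [r.1, r.old hn hn' hc, Sd.uP_tr, Sd.uP_tr, Sd.uL_tr]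
      rfl
    · change (if m < b then S.uL (u'.2.1 m) else 0) = trL _ _ (if m < b then S.uL (u.2.1 m) else 0)
      split_ifs
      exacts [by rw [r.2.1, Sd.uL_tr], rfl]
  · change S.uL (u'.2.1 b + ptL _ _ _) _ = S.uL _ _
    rw [hn, hn', r.2.1, ptL_tr hc, r.2.2.1, ← hc, Op.yo_add_up, ← S.uL_rc _ (_ + v)]
    exact congrFun (S.uL_tr (_ + _) v) _
  · refine Eq.trans ?_ (dK_sh h.ok v ho)
    change dK S ψ K (A'.prj a b u').1 _ _ _ = _
    rw [r.prj hn hn' hc hp]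
    exact dK_loc h ⟨fun x _ _ => congrFun (t _).1.symm x, fun q hq _ => ((t _).2 q hq).symm⟩
      ⟨fun _ _ _ => rfl, fun q hq _ => r.2.2.2 q hq⟩ _

namespace En.Gl

variable (G : Gl)

/-- the setting of a point insertion -/
structure Pt (D : ℕ) (c : ℕ → St) (b : ℝ) (J j : ℕ) (ω : ℕ → ℝ) (W : Submodule ℂ E)
    (σ : ℕ → (Fld → ℂ) → E) (ev : ℕ → E → Fld → ℂ) (A : ℕ → E →ₗ[ℂ] E) (C a lam η : ℕ → ℝ) :
    Prop where
  ok : G.Ok
  hp : G.HP Sd.StA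
  t : G.Tu1 b J
  R : G.Run b J j ω
  e : ∀ i ≥ j, G.Ev D i
  tr : G.Trk c j J
  s : G.Cal D c b J j W σ ev A C a lam η

/-- the flow of a tagged state -/
abbrev jF (D : ℕ) (c : ℕ → St) (b : ℝ) (J : ℕ) (u : Jv) (i k : ℕ) : Jv := Cok.fw (G.jT D c b J) u i k

/-- the price of the activities -/
def jW (D k : ℕ) : ℝ := (G.L k : ℝ) ^ ((D + 7) * (G.aA D + G.aB + 3))

variable {G} {D J i j k : ℕ} {c c' v : ℕ → St} {b x y θ N : ℝ} {ω C a lam η : ℕ → ℝ}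
  {W : Submodule ℂ E} {σ : ℕ → (Fld → ℂ) → E} {ev : ℕ → E → Fld → ℂ} {A : ℕ → E →ₗ[ℂ] E}
  {u u' : Jv} {d : Lx × Ac} {φ : Fld → ℂ} {K : Ac} {m : Mj}

theorem jp_lin (u u' : Jv) (t : ℂ) :
    G.jp D c k (u + t • u') = G.jp D c k u + t • G.jp D c k u' := Ag.prj_lin ..

theorem jp_add (u u' : Jv) : G.jp D c k (u + u') = G.jp D c k u + G.jp D c k u' := by
  simpa using jp_lin u u' 1

theorem jp_sub (u u' : Jv) : G.jp D c k (u - u') = G.jp D c k u - G.jp D c k u' := by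
  simpa [sub_eq_add_neg] using jp_lin u u' (-1)

theorem jp_sum {ι : Type} (s : Finset ι) (t : ι → ℂ) (u : ι → Jv) :
    G.jp D c k (∑ i ∈ s, t i • u i) = ∑ i ∈ s, t i • G.jp D c k (u i) := by
  induction s using Finset.cons_induction with
  | empty => simpa using jp_add (G := G) (D := D) (c := c) (k := k) 0 0
  | cons i s hi ih => rw [sum_cons, sum_cons, add_comm, jp_lin, ih, add_comm]

/-- the calculus depends only on the digits of the track -/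
theorem Cal.congr (s : G.Cal D c b J j W σ ev A C a lam η)
    (e : ∀ k, j ≤ k → k < J → rc (G.L k) (c' (k + 1)) = rc (G.L k) (c (k + 1))) :
    G.Cal D c' b J j W σ ev A C a lam η :=
  ⟨s.s1, fun k h1 h2 => by rw [jm, e k h1 h2]; exact s.s2 k h1 h2, s.inv, s.nl, s.C1⟩

/-- tracks which differ by a translation -/
def Trl (G : Gl) (c c' v : ℕ → St) (j J : ℕ) : Prop :=
  (∀ k, j ≤ k → k ≤ J → c' k + v k = c k) ∧ ∀ k, j ≤ k → k < J → v (k + 1) = up (G.l k) (v k)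

namespace Pt

variable (P : G.Pt D c b J j ω W σ ev A C a lam η)
include P

theorem co : Co j J (G.jP D c σ ev) (fun k u => σ k u.2.2.1) (G.jT D c b J) A W a
    (fun k => C (k + 1) * lam k + G.eD D k) fun k => C (k + 1) * η k + G.eD D k :=
  P.ok.co P.hp P.t P.R P.e P.tr P.s

/-- the same setting on a translated track -/
theorem trl (r : G.Trl c c' v j J) : G.Pt D c' b J j ω W σ ev A C a lam η := by
  have e : ∀ k, j ≤ k → k < J → rc (G.L k) (c' (k + 1)) = rc (G.L k) (c (k + 1)) := fun k h1 h2 => by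
    rw [← r.1 (k + 1) (by omega) h2, r.2 k h1 h2]
    exact (rc_add_smul _ _ _).symm
  refine { P with tr := fun k h1 h2 => ⟨?_, e k h1 h2 ▸ (P.tr k h1 h2).2⟩, s := P.s.congr e }
  have := (P.tr k h1 h2).1
  rw [← r.1 (k + 1) (by omega) h2, r.2 k h1 h2, Op.yo_add_up, ← r.1 k h1 h2.le] at this
  exact add_right_cancel this

/-- translated states have translated flows, in particular the same symbols -/
theorem jr (r : G.Trl c c' v j J) (hi : i ≤ J) (e : Jr (G.N i) (v i) u u') :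
    ∀ k, j ≤ k → k ≤ i → Jr (G.N k) (v k) (G.jF D c b J u i k) (G.jF D c' b J u' i k) := by
  refine down (by simpa only [Cok.fw_top] using e) fun k h1 h2 ih => ?_
  have h3 := h2.trans_le hi
  have n := P.ok.sd_nf k (G.zz b J (k + 1))
  rw [r.2 k h1 h3, ← n] at ih
  simp only [Cok.fw_step _ _ h2]
  exact ih.step n.symm n.symm (r.2 k h1 h3 ▸ r.1 (k + 1) (by omega) h3) rfl (P.ok.sd_all _ _).nu
    (n ▸ (P.R k h1 h3).2.2.2.2)

/-- the flow of tagged states is the tangent flow -/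
theorem flow (hi : i ≤ J) (H : G.jP D c σ ev i u y) : ∀ k, j ≤ k → k ≤ i →
    G.jp D c k (G.jF D c b J u i k) = G.tn b J (G.jp D c i u) i k := by
  refine down (by rw [jF, Cok.fw_top, tn_top]) fun k h1 h2 ih => ?_
  obtain ⟨z, hz⟩ := P.co.fw_adm hi H (k + 1) (by omega) h2
  rw [jF, Cok.fw_step _ _ h2, tn_tm h2, ← ih]
  exact P.ok.jp_jT P.hp P.t P.R P.e P.tr P.s h1 (h2.trans_le hi) hz

theorem om (h1 : j < i) (hi : i ≤ J) : 0 < ω i ∧ ω i ≤ 1 := by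
  obtain ⟨k, rfl⟩ : ∃ k, i = k + 1 := ⟨i - 1, by omega⟩
  have g := (P.R k (by omega) hi).2.2.2.1
  have n := (P.ok.sd_all k (G.zz b J (k + 1))).nu
  exact ⟨(sqrt_pos.2 n.ok.g0).trans_le g.lo, by linarith [qom n g.hi (i := 0) (by norm_num)]⟩

/-- the same for a direction which agrees with the state on small real fields -/
theorem flow' (hi : i ≤ J) (H : G.jP D c σ ev i u y) (a1 : G.S1 ω i N d) (e1 : d.2 = u.2.2.2)
    (e2 : ∀ x B, RealF B → Cv (G.p i).R (G.p i).ρ B → d.1 x B = (G.jp D c i u).1 x B) :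
    ∀ k, j ≤ k → k < i → G.jp D c k (G.jF D c b J u i k) = G.tn b J d i k := by
  intro k h1 h2
  rw [P.flow hi H k h1 h2.le]
  obtain ⟨i, rfl⟩ : ∃ l, i = l + 1 := ⟨i - 1, by omega⟩
  obtain ⟨o1, o2⟩ := P.om (i := i + 1) (by omega) hi
  have e := P.ok.tm_congr P.R (show j ≤ i by omega) hi a1 (P.ok.jp_s1 (P.s.s1 _) (P.s.nl _).2.2.2
    (P.e _ (by omega)) H le_rfl o1 o2) e1 e2
  refine down (j := j) (J := i) (Q := fun k => G.tn b J (G.jp D c (i + 1) u) (i + 1) k =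
    G.tn b J d (i + 1) k) ?_ (fun k _ h ih => ?_) k h1 (by omega)
  · rw [tn_tm i.lt_succ_self, tn_tm i.lt_succ_self, tn_top, tn_top, e]
  · rw [tn_tm (h.trans i.lt_succ_self), tn_tm (h.trans i.lt_succ_self), ih]

/-- a local term at the centre together with activities near the centre -/
theorem ent (a1 : ∃ M, Tbw (G.lR k) (60 * (G.p k).ρ) (G.lH D k) M φ)
    (a2 : Tbw (G.lR k) (60 * (G.p k).ρ) (G.lH D k) y (φ - ev k (σ k φ))) (a3 : φ 0 = 0) (a4 : Bdd φ)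
    (k1 : KM (G.p k) (G.N k) m K) (k2 : kN (G.pA (D + 7) k) (G.N k) m θ)
    (k3 : KS (G.N k) (c k) (G.L k * G.D0 k) K) :
    G.jP D c σ ev k (0, 0, φ, K) (y + G.jW D k * θ) ∧
      G.jp D c k (0, 0, φ, K) = (ptL (G.N k) (c k) (ccn (G.p k) φ), K) := by
  obtain ⟨M, a1⟩ := a1
  obtain ⟨p1, p2⟩ := P.ok.jP_pt (c := c) (P.s.s1 k) (P.s.nl k).2.2.2 a1 a3 a4
  obtain ⟨q1, -, q2⟩ := P.ok.jP_act (P.s.s1 k) k1 k2 k3
  have o := P.ok.ag_ok D c k
  have z := (Ag.P.zero o (P.ok.sy (P.s.s1 k))).mono o (a2.nonneg o.ρ0 (o.hp le_rfl).le)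
  have p3 : G.jP D c σ ev k (0, 0, φ, 0) y :=
    ⟨z.f, z.g, p1.z, p1.bd, p1.tb, (P.ok.ag_R D c k).symm ▸ a2, z.K, z.s⟩
  have e : ((0, 0, φ, K) : Jv) = (0, 0, φ, 0) + (1 : ℂ) • (0, 0, 0, K) := by simp
  have := (P.co.lin k _ _ _ _ 1 p3 q1).1
  rw [← e, norm_one, one_mul] at this
  exact ⟨this, by rw [e, jp_lin, p2, q2]; simp⟩

/-- orbits whose sources are activities near the track -/
theorem src {U : ℕ → Lx × Ac} {F : ℕ → Ac} (hi : i ≤ J) (H : G.jP D c σ ev i u y)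
    (e0 : U i = G.jp D c i u)
    (e1 : ∀ k, j ≤ k → k < i → U k = G.tm b J k (U (k + 1)) + (0, F k))
    (e2 : ∀ k, j ≤ k → k < i → (∃ m θ, KM (G.p k) (G.N k) m (F k) ∧
      kN (G.pA (D + 7) k) (G.N k) m θ) ∧ KS (G.N k) (c k) (G.L k * G.D0 k) (F k)) :
    ∃ z : ℕ → Jv, z i = u ∧ (∀ k < i, z k = G.jT D c b J k (z (k + 1)) + (0, 0, 0, F k)) ∧
      ∀ k, j ≤ k → k ≤ i → G.jp D c k (z k) = U k := by
  have a := fun k h1 h2 => let ⟨⟨_, _, k1, k2⟩, k3⟩ := e2 k h1 h2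
    (⟨_, P.ok.jP_act (P.s.s1 k) k1 k2 k3⟩ : ∃ y, G.jP D c σ ev k (0, 0, 0, F k) y ∧ _)
  have s := fun k (h : k < i) => Cok.fw_step (fun k z => G.jT D c b J k z + (0, 0, 0, F k)) u h
  refine ⟨_, Cok.fw_top .., s, down (by rw [Cok.fw_top, e0]) fun k h1 h2 ih => ?_⟩
  obtain ⟨z, hz⟩ := (P.co.sub le_rfl hi).adm ⟨y, (Cok.fw_top _ u i).symm ▸ H⟩ (fun k _ => s k)
    (fun k h1 h2 => (a k h1 h2).imp fun _ q => q.1) (k + 1) (by omega) h2
  obtain ⟨_, -, -, q⟩ := a k h1 h2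
  rw [s k h2, jp_add, q, P.ok.jp_jT P.hp P.t P.R P.e P.tr P.s h1 (h2.trans_le hi) hz, ih, e1 k h1 h2]

/-- sizes and supports of the direction -/
theorem exit (H : G.jP D c σ ev k u y) (hx : ‖σ k u.2.2.1‖ ≤ x) :
    PU (G.p k) (2 * ((G.aA D + G.aB + 3) * y + C k * x)) (G.jp D c k u).1 ∧
      (∃ m, KM (G.p k) (G.N k) m (G.jp D c k u).2 ∧
        kN (G.pA (D + 7) k) (G.N k) m (y / G.jW D k)) ∧
      (∀ z, ¬ nearT (G.N k) (G.L k * G.D0 k + 2) (c k) z → (G.jp D c k u).1 z = 0) ∧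
      KS (G.N k) (c k) (G.L k * G.D0 k + 2) (G.jp D c k u).2 := by
  have o := P.ok.ag_ok D c k
  have e : (G.ag D c k).d 0 = G.L k * G.D0 k + 2 := by simp [ag, P.ok.sc_zero]
  obtain ⟨-, a1, a2⟩ := (H.tot o (P.ok.sy (P.s.s1 k)) hx
    (zero_le_one.trans (P.s.nl k).2.2.2)).pm o.h0 o.h1
  exact ⟨a1, by rw [jW, pow_mul]; exact H.K, e ▸ a2, e ▸ H.s⟩

end Pt

end En.Gl

end Pool.Agent.Lib.MP_7f377f_mp.RG.Q4
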