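import Pool.Agent.Lib.MP_7f377f_mp.G.JuK2
import Pool.Agent.Lib.MP_7f377f_mp.G.Q5HyP

/-! The sharp hybrid: two tuned runs are close to each other to any power of the block size. -/

noncomputable section

set_option linter.unusedSectionVars false
variable [Pool.Agent.Lib.MP_7f377f_mp.GD]

namespace Pool.Agent.Lib.MP_7f377f_mp.RG.Q4.En

open Finset Real Sd Pos Metric

section step

variable {S : Sd} {A : ℕ} {b θ u y τ : ℝ} {ψ φ : Lx} {K J : Ac} {k j : Mj}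

omit [GD] in
theorem th_numB {q g : ℝ} (c : 100 ≤ q) (g0 : 0 ≤ g) (h1 : g ≤ τ ^ 2) (h2 : q ^ 101 * τ ≤ 1)
    (τ0 : 0 < τ) (b0 : 0 ≤ b) (θ0 : 0 ≤ θ) (hb : b ≤ 2 * τ ^ 2) (hθ : θ ≤ 2 * τ ^ 3) :
    q ^ 100 * b < 1 ∧ q ^ 100 * θ < 1 ∧
      q ^ 90 * (g ^ 3 + g * b + b ^ 2 + θ ^ 2 + g * θ) + θ / q ≤ (τ ^ 3 + θ) / q := by
  have q1 : 1 ≤ q := by linarith
  have q0 : 0 < q := by linarith
  have e2 : ∀ i ≤ 100, 100 * (q ^ i * τ) ≤ 1 := fun i hi => le_trans (by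
    rw [show 101 = 1 + 100 from rfl, pow_add, pow_one, mul_assoc]
    gcongr) h2
  have s1 : τ ≤ 1 := by linarith [e2 0 (by norm_num), pow_zero q]
  have s3 : ∀ i, τ ^ i ≤ 1 := fun i => pow_le_one₀ τ0.le s1
  have p0 := mul_pos (pow_pos q0 100) τ0
  have p1 := e2 100 le_rfl
  refine ⟨?_, ?_, ?_⟩
  · calc _ ≤ q ^ 100 * (2 * τ ^ 2) := by gcongr
      _ = 2 * (q ^ 100 * τ) * τ ^ 1 := by ring
      _ ≤ 2 * (q ^ 100 * τ) * 1 := by gcongr; exact s3 1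
      _ < 1 := by linarith
  · calc _ ≤ q ^ 100 * (2 * τ ^ 3) := by gcongr
      _ = 2 * (q ^ 100 * τ) * τ ^ 2 := by ring
      _ ≤ 2 * (q ^ 100 * τ) * 1 := by gcongr; exact s3 2
      _ < 1 := by linarith
  · rw [add_div, add_le_add_iff_right, le_div_iff₀ q0]
    calc _ ≤ q ^ 90 * ((τ ^ 2) ^ 3 + τ ^ 2 * (2 * τ ^ 2) + (2 * τ ^ 2) ^ 2 + (2 * τ ^ 3) ^ 2 +
          τ ^ 2 * (2 * τ ^ 3)) * q := by gcongr
      _ = q ^ 91 * τ ^ 4 * (τ ^ 2 + 6 + 4 * τ ^ 2 + 2 * τ ^ 1) := by ring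
      _ ≤ q ^ 91 * τ ^ 4 * (1 + 6 + 4 * 1 + 2 * 1) := by gcongr <;> exact s3 _
      _ = 13 * (q ^ 91 * τ) * τ ^ 3 := by ring
      _ ≤ 1 * τ ^ 3 := by gcongr; linarith [e2 91 (by norm_num), mul_pos (pow_pos q0 91) τ0]
      _ = _ := one_mul _

variable (n2 : (S.wK A).Nu 0) (h1 : S.g ≤ τ ^ 2) (h2 : (S.wK A).Q ^ 101 * τ ≤ 1) (τ0 : 0 < τ)
include n2 h1 h2 τ0

theorem th_leB (b0 : 0 ≤ b) (θ0 : 0 ≤ θ) (hb : b ≤ 2 * τ ^ 2) (hθ : θ ≤ 2 * τ ^ 3) :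
    (S.wK A).Q ^ 100 * b < 1 ∧ (S.wK A).Q ^ 100 * θ < 1 ∧
      (S.wK A).θ' b θ ≤ (τ ^ 3 + θ) / (S.wK A).Q :=
  th_numB (n2.cQ' (C := 100) (by norm_num)) n2.ok.g0.le h1 h2 τ0 b0 θ0 hb hθ

/-- base points of size `τ ^ 2` -/
theorem baseB (a : S.StA) (pu : PU S.p (τ ^ 2) ψ) (km : KM S.p S.nf k K)
    (kn : kN (S.pA A) S.nf k (τ ^ 3)) : Rm S ψ K ∧
      ∃ m, KM S.p' S.n m (S.KK ψ K) ∧ kN (S.pA' A).up S.n m (2 * τ ^ 3 / (S.wK A).Q) := by
  have b0 := sq_nonneg τ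
  obtain ⟨c1, c2, c3⟩ := th_leB n2 h1 h2 τ0 b0 kn.nonneg (by linarith) (by linarith [kn.nonneg])
  obtain ⟨m, m1, m2⟩ := a A n2 _ _ k c1.le c2.le b0 kn
  have d1 := (mul_le_mul_of_nonneg_right (Kp.Qp_le S A 100) b0).trans_lt c1
  have d2 := (mul_le_mul_of_nonneg_right (Kp.Qp_le S A 100) kn.nonneg).trans_lt c2
  exact ⟨⟨_, _, k, ⟨d1.le, d2.le, pu, km, kN_pA kn⟩, d1, d2⟩, m, m2 _ _ pu km,
    m1.mono (two_mul (τ ^ 3) ▸ c3)⟩

/-- the derivative of the new activities at such a base point -/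
theorem tanB (h : S.Nu 100) (f : St2 S) (a : S.StA) (kn : kN (S.pA A) S.nf k (τ ^ 3)) (u0 : 0 < u)
    (jn : kN (S.pA A) S.nf j y) :
    ∃ m, kN (S.pA' A).up S.n m (6 * (τ * u + y) / (S.wK A).Q) ∧ ∀ ψ K φ J,
      PU S.p (τ ^ 2) ψ → KM S.p S.nf k K → PU S.p u φ → KM S.p S.nf j J →
        KM S.p' S.n m (dK S ψ K φ J) := by
  have q := S.Q0
  have q2 := (S.wK A).Q0
  have y0 := jn.nonneg
  obtain ⟨e, he⟩ : ∃ e, e = (τ * u + y) / τ ^ 3 := ⟨_, rfl⟩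
  have e0 : 0 < e := by rw [he]; positivity
  have r0 := (inv_pos.2 e0).le
  have e1 : e⁻¹ * u ≤ τ ^ 2 := by
    rw [inv_mul_le_iff₀ e0, he, div_mul_eq_mul_div, pow_succ' τ 2,
      mul_div_mul_right _ _ (by positivity), le_div_iff₀ τ0]
    linarith
  have e2 : e⁻¹ * y ≤ τ ^ 3 := by
    rw [inv_mul_le_iff₀ e0, he, div_mul_cancel₀ _ (by positivity)]
    linarith [mul_pos τ0 u0]
  have b0 : 0 ≤ τ ^ 2 + e⁻¹ * u := by positivity
  have k2 := kn.add (jn.smul r0)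
  obtain ⟨c1, c2, c3⟩ := th_leB n2 h1 h2 τ0 b0 k2.nonneg (by linarith) (by linarith)
  obtain ⟨m, m1, m2⟩ := a A n2 _ _ _ c1.le c2.le b0 k2
  refine ⟨(2 * e) • m, (m1.smul (by positivity)).mono ?_, fun ψ K φ J p1 p2 p3 p4 => ?_⟩
  · calc _ ≤ 2 * e * ((τ ^ 3 + (τ ^ 3 + τ ^ 3)) / (S.wK A).Q) := by
          refine mul_le_mul_of_nonneg_left (c3.trans ?_) (by positivity)
          gcongr
      _ = _ := by rw [he]; field_simp; ring
  · have d1 := (mul_le_mul_of_nonneg_right (Kp.Qp_le S A 100) b0).trans c1.le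
    have d2 := (mul_le_mul_of_nonneg_right (Kp.Qp_le S A 100) k2.nonneg).trans c2.le
    have q100 := (pow_pos q 100).le
    have F := fam_sml h ⟨(mul_le_mul_of_nonneg_left (le_add_of_nonneg_right (by positivity))
      q100).trans d1, (mul_le_mul_of_nonneg_left (le_add_of_nonneg_right (by positivity))
      q100).trans d2, p1, p2, kN_pA kn⟩ p3 p4 (kN_pA jn) r0 d1 d2
    exact (km_schwarz e0 (fun t ht => m2 _ _ (F t ht).pu (F t ht).km)
      (f.hol _ _ _ _ _ _ isOpen_ball F (holL_line _ _ _) (holA_line _ _ _))).1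

end step

namespace Gl

/-- base points `H` of size `τ ^ 2` along the run `(b, J)` between the levels `i` and `j` -/
structure Hb (G : Gl) (a : ℕ) (τ b : ℝ) (J i j : ℕ) (H : ℕ → Lx × Ac) : Prop where
  le : i ≤ J
  t0 : 0 < τ
  nm : ∀ k, j ≤ k → k ≤ i → G.Big a k ∧ G.g k ≤ τ ^ 2 ∧ G.QA a k ^ 101 * τ ≤ 1
  hs : ∀ k < i, H k = G.hs k (G.zz b J (k + 1)) (H (k + 1))
  pu : ∀ k, j ≤ k → k ≤ i → PU (G.p k) (τ ^ 2) (H k).1
  ka : ∀ k, j ≤ k → k ≤ i → ∃ m, KM (G.p k) (G.N k) m (H k).2 ∧ kN (G.pA a k).up (G.N k) m (τ ^ 3)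
  df : ∀ k, j ≤ k → k ≤ i → G.Sz k (G.bb k * τ ^ 2) (G.bb k * τ ^ 2) (G.Q k ^ 100)⁻¹
    ((H k).1 - (G.zz b J k).ψ) ((H k).2 - (G.zz b J k).K)

variable {G : Gl} {b b' x y η σ ε τ : ℝ} {J J' a e i j k n s : ℕ} {z : Z} {ψ : Lx} {K : Ac}
  {H : ℕ → Lx × Ac}

namespace Ok

variable (h : G.Ok)
include h

/-- one step for the difference of two sets of data, upper bounds -/
theorem dif_up (t : G.Tz J (k + 1) z) (a : G.Sz (k + 1) 1 1 √(G.g (k + 1)) z.ψ z.K)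
    (s : G.Sz (k + 1) x x (G.Q (k + 1) ^ 100)⁻¹ (ψ - z.ψ) (K - z.K)) (x0 : 0 < x)
    (hx : G.Q (k + 1) ^ 300 * (x + x) * G.g (k + 1) ^ 2 ≤ 1) :
    G.Sz k (2 * x) (2 * x) (G.Q k ^ 100)⁻¹ ((G.hs k z (ψ, K)).1 - (G.nx k z).ψ)
      ((G.hs k z (ψ, K)).2 - (G.nx k z).K) := by
  have n := (h.sd_all k z).nu
  have f := h.st2 t
  generalize e1 : ψ - z.ψ = φ at s
  generalize e2 : K - z.K = L at s
  obtain rfl : ψ = z.ψ + φ := by rw [← e1]; abel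
  obtain rfl : K = z.K + L := by rw [← e2]; abel
  rw [Sz, ← h.sd_nf k z] at a s
  have Q0 := h.Q0 k
  have Q1 := h.Q0 (k + 1)
  have Qm := h.Q_mono k.le_succ
  have g0 := h.g0 (k + 1)
  have gm := h.g_succ k
  have c0 := h.cr0 k
  have c1 := h.cr1 k
  have w : (G.Q (k + 1) ^ 100)⁻¹ ≤ (G.Q k ^ 100)⁻¹ := by gcongr
  have iv : ∀ {t : ℝ}, t ≤ (G.Q k ^ 100)⁻¹ → G.Q k ^ 100 * t ≤ 1 := fun ht =>
    (mul_le_mul_of_nonneg_left ht (by positivity)).trans_eq (mul_inv_cancel₀ (by positivity))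
  have w1 := iv w
  have w2 := iv ((h.sg_le _).trans w)
  have E : (G.hs k z (z.ψ + φ, z.K + L)).1 - (G.nx k z).ψ = (G.sd k z).PL φ L := by
    obtain ⟨_, k1, -⟩ := a.2
    obtain ⟨_, k2, -⟩ := s.2
    have := f.lin _ _ _ _ _ _ _ _ 1 (Sz.pu n a w2) (Sz.pu n s w1) k1 k2
    rw [one_smul, one_smul, one_smul] at this
    show stp _ _ _ _ - stp _ _ _ _ = _
    rw [stp, stp, this]
    abel
  have q : ∀ {t : ℝ}, 0 ≤ t → G.Q (k + 1) ^ 300 * t * G.g (k + 1) ^ 2 ≤ 1 →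
      G.Q k ^ 115 * t * G.g (k + 1) ^ 2 ≤ (G.Q (k + 1) ^ 100)⁻¹ := fun t0 ht => by
    rw [← one_div, le_div_iff₀' (by positivity), ← mul_assoc, ← mul_assoc]
    refine le_trans ?_ ht
    gcongr
    exact (mul_le_mul_of_nonneg_left (pow_le_pow_left₀ Q0.le Qm _) (by positivity)).trans
      ((pow_add _ _ _).ge.trans (pow_le_pow_right₀ (h.Q1 _) (by norm_num)))
  obtain ⟨p1, d, d1, d2⟩ := (sz_step_c n f a s (h.sg_le _) w1 (h.sg_le _) (q zero_le_one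
    (h.u_g (x := 1) (k + 1) (by linarith [h.u_one (k + 1)]))) (by positivity)).2
      (q (by positivity) hx)
  rw [E]
  have c2 : G.cr k * (x + x) ≤ 2 * x := by nlinarith
  have c3 : G.Q k ^ 50 * (G.Q (k + 1) ^ 100)⁻¹ ≤ 2⁻¹ := by
    have := mul_le_mul_of_nonneg_right (h.qpw k (show 50 < 100 by norm_num))
      (inv_pos.2 (pow_pos Q1 100)).le
    linarith
  refine ⟨PM.mono (h.rh0 k) p1 ?_ ?_ ?_, d, d1, d2.mono ?_⟩
  · show x + G.Q k ^ 50 * _ * _ ≤ _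
    nlinarith
  · show G.Q k ^ 2 * (G.cr k * _) ≤ _
    gcongr
  · show G.Q k ^ 50 * _ * (G.cr k * _) * G.g (k + 1) ^ 2 ≤ _
    gcongr
  · show _ * (G.cr k * _) * G.g (k + 1) ^ 2 ≤ _
    gcongr

variable (A : G.Tu b J) (B : G.Tu b' J')
include A B

/-- two representations of the same density -/
theorem v_cmp (hk : k ≤ J) (hk' : k ≤ J') {u ω : ℝ} (d : G.Dt k (G.zz b J k) u u ω ψ K (G.f b' J' k))
    (s : G.Sz k y y (G.Q k ^ 100)⁻¹ (ψ - (G.zz b J k).ψ) (K - (G.zz b J k).K)) (y0 : 0 ≤ y)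
    (hy : y ≤ 4 * G.u k) : G.bb k * |(G.zz b' J' k).v - (G.zz b J k).v| ≤ 14 * (1 + y) := by
  have Q0 := h.Q0 k
  have Q1 := h.Q1 k
  have g0 := h.g0 k
  have b0 := h.b0 k
  have a := h.lf (A.gd k hk).tz
  have μ := (h.meas B.b0 (B.gd k hk')).1
  have z1 := sz_add (h.rh0 k) (sz_gen (ω' := (G.Q k ^ 100)⁻¹) (h.rh0 k) Q0.le (A.gd k hk).dt.sz le_rfl
    le_rfl (by rw [mul_one, mul_one]; exact h.sg_le k)) s
  rw [add_sub_cancel, add_sub_cancel] at z1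
  obtain ⟨s1, c, c1, c2⟩ := z1
  have r := d.re
  have sy := ((h.f_facts J' k).1 b' B.b0).2.1
  rw [← h.sl_nf k (G.zz b J k)] at c1 c2 r sy μ
  have u1 := h.u_one k
  have x1 : (1 + y) * G.g k ^ 2 ≤ 5 * (G.Q k ^ 400)⁻¹ := by
    rw [← h.hy_ug, ← mul_assoc]; gcongr; linarith
  have x4 : ∀ {i}, 0 < i → 10 ^ 4 * (G.Q k ^ i)⁻¹ ≤ 1 := fun e => by simpa using h.hy_pw k e
  have x5 : ∀ i, 0 < (G.Q k ^ i)⁻¹ := fun i => by positivity
  obtain ⟨f1, -⟩ := a.flux (η := 2 * (1 + y)) s1 c1 c2 r sy d.rp (by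
      show (1 + y + G.Q k ^ 2 * (1 + y)) * G.g k ^ 2 ≤ 1
      have q1 := one_le_pow₀ (n := 2) Q1
      calc _ = (1 + G.Q k ^ 2) * ((1 + y) * G.g k ^ 2) := by ring
        _ ≤ 2 * G.Q k ^ 2 * (5 * (G.Q k ^ 400)⁻¹) := by gcongr; linarith
        _ = 10 * (G.Q k ^ 398)⁻¹ := by field_simp; norm_num
        _ ≤ 1 := by linarith [x4 (show 0 < 398 by norm_num), x5 398]) (by
      calc _ = G.Q k ^ 50 * (G.Q k ^ 100)⁻¹ * ((1 + y) * G.g k ^ 2) := by ring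
        _ ≤ G.Q k ^ 50 * (G.Q k ^ 100)⁻¹ * (5 * (G.Q k ^ 400)⁻¹) := by gcongr
        _ = 5 * (G.Q k ^ 450)⁻¹ := by field_simp
        _ ≤ 1 := by linarith [x4 (show 0 < 450 by norm_num), x5 450]) (by
      show 2 * G.Q k * _ ≤ 1
      calc _ = 2 * G.Q k * (G.Q k ^ 100)⁻¹ * ((1 + y) * G.g k ^ 2) := by ring
        _ ≤ 2 * G.Q k * (G.Q k ^ 100)⁻¹ * (5 * (G.Q k ^ 400)⁻¹) := by gcongr
        _ = 10 * (G.Q k ^ 499)⁻¹ := by field_simp; norm_num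
        _ ≤ 1 := by linarith [x4 (show 0 < 499 by norm_num), x5 499]) le_rfl
    ((pow_le_pow_right₀ Q1 (by norm_num)).trans (h.Qb k)) (by
      show G.Q k ^ 2 / G.Q k ^ 2 + _ / (G.Q k ^ 9 * G.g k ^ 2) + 2 * G.Q k ^ 2 * _ / G.g k ^ 2 ≤ _
      calc _ = 1 + ((G.Q k ^ 59)⁻¹ + 2 * (G.Q k ^ 98)⁻¹) * (1 + y) := by field_simp; ring
        _ ≤ 1 + 1 * (1 + y) := by
          gcongr; linarith [x4 (show 0 < 59 by norm_num), x4 (show 0 < 98 by norm_num), x5 59]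
        _ ≤ _ := by linarith)
  have f2 := (Complex.abs_re_le_norm _).trans ((s1 0).1.cb e1 e1 1 1 (cv_EE (0, 1)) (cv_EE (0, 1)))
  have f3 := abs_le.1 f1
  have f4 := abs_le.1 μ
  have f5 := abs_le.1 f2
  change _ ≤ bh _ (G.g k / G.Q k) _ - (G.bb k * _ + _) ∧ bh _ (G.g k / G.Q k) _ - (G.bb k * _ + _) ≤ _
    at f3
  refine (congrArg (· * _) (abs_of_pos b0)).ge.trans ((abs_mul _ _).ge.trans ?_)
  rw [mul_sub]
  exact abs_le.2 ⟨by linarith, by linarith⟩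

theorem v_hy (hJ : J ≤ J') (hi : i + 20 * (405 * G.K + 1) + 1 ≤ J) (hk : k + 40 * n ≤ i)
    (hb : G.bb i ≤ 2 * G.bb k) (hn : n + 1 ≤ G.Bk k) :
    |(G.zz b' J' k).v - (G.zz b J k).v| ≤ ((G.L k : ℝ) ^ n)⁻¹ := by
  have i1 : i ≤ J := by omega
  have i2 := i1.trans hJ
  have k1 : k ≤ i := by omega
  have hd := h.dfc (z := G.zz b J i) A B hJ hi
  obtain ⟨y, y0, y1, y2, s⟩ := h.hy_c A B i1 i2 hd k k1
  have a := h.v_cmp A B (k1.trans i1) (k1.trans i2) (h.hy_dt A B i1 i2 hd k k1) s y0.le y1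
  have L1 := h.L1 k
  have b0 := h.b0 k
  have p0 : 0 < ((G.L k : ℝ) ^ n)⁻¹ := by positivity
  have u1 : 1000 * G.u i ≤ G.bb i := by
    have := h.hy_bw i (show 0 < 400 by norm_num)
    rw [pow_zero, div_one] at this
    have := h.u_one i
    unfold u at *
    linarith
  have y3 : y ≤ ((G.L k : ℝ) ^ n)⁻¹ * (2 * G.u i) :=
    y2.trans (mul_le_mul_of_nonneg_right (h.cr_prod hk) (by linarith [h.u_one i]))
  have y4 : 1000 ≤ ((G.L k : ℝ) ^ n)⁻¹ * G.bb k := by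
    rw [le_inv_mul_iff₀ (by positivity)]
    refine le_trans ?_ (h.Lbk k hn)
    rw [pow_succ]; gcongr
  refine le_of_mul_le_mul_left (a.trans ?_) b0
  nlinarith [mul_le_mul_of_nonneg_left (u1.trans hb) p0.le]

theorem dfc_eta' (hk : k < J) (hk' : k < J')
    (h1 : |(G.zz b' J' (k + 1)).v - (G.zz b J (k + 1)).v| ≤ η) (h2 : 3 * G.Q k ≤ η * G.bb k)
    (h3 : G.Q k * η ≤ 1) (σ0 : 0 ≤ σ)
    (hd : Df (3 * (G.td k z).r) σ (G.zz b' J' (k + 1)).m (G.zz b J (k + 1)).m) :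
    Df ((G.td k z).r + 3) ((G.sd k z).cs / 3 * σ + 2 * G.L k * η) (G.zz b' J' k).m
      (G.zz b J k).m := by
  have t := (A.gd (k + 1) hk).tz
  have t' := (B.gd (k + 1) hk').tz
  have q1 := h.Q1 k
  have b0 := h.b0 k
  have b1 := h.b0 (k + 1)
  have η0 : 0 ≤ η := (abs_nonneg _).trans h1
  have b2 : (G.bb (k + 1))⁻¹ ≤ η := by
    rw [inv_le_iff_one_le_mul₀ b1]
    nlinarith [mul_le_mul_of_nonneg_left (h.sch.le k).1 η0]
  have b3 : 1 ≤ G.bb (k + 1) := (one_le_pow₀ (h.Q1 _)).trans (h.Qb _)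
  have ze : ∀ {J z}, G.Tz J (k + 1) z → z.e ≤ η := fun {J z} t => le_trans (by
    rw [← one_div, le_div_iff₀ b1]
    nlinarith [h.ze1 t, mul_le_mul_of_nonneg_left b3 (mul_nonneg (ze0 t) b1.le)]) b2
  have la : 3 * G.Q k / G.bb k ≤ η := (div_le_iff₀ b0).2 h2
  have H := (h.sd_all k (G.zz b' J' (k + 1))).df (G.td k (G.zz b J (k + 1))) _ _ _ _ _ _ _ _
    _ _ η σ rfl rfl (v12 t').1 (v12 t').2 (v12 t).1 (v12 t).2 (ze0 t') (ze0 t)
    (t'.tr k (.inr rfl)) (h.ln t' (.inr rfl)) (t.tr k (.inr rfl)) (h.ln t (.inr rfl)) h1 (ze t')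
    (ze t) ((B.lam k hk').2.trans la) ((A.lam k hk).2.trans la) h3 σ0
  intro a δ ha
  have e : ∀ z, (G.nx k z).m = G.lam k z • (G.td k z).m1 := fun z =>
    congrArg (fun t : Td => G.lam k z • t.m1) (show (G.sd k z).toTd = G.td k z from rfl)
  rw [zz_step b hk, zz_step b' hk', e, e]
  have e' : ∀ z, (G.sd k z).m1 = (G.td k z).m1 := fun z =>
    congrArg Td.m1 (show (G.sd k z).toTd = G.td k z from rfl)
  have k1 := H.2 hd a δ ha
  rw [e'] at k1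
  refine k1.trans (mul_le_mul_of_nonneg_right ?_ (sq_nonneg δ))
  rw [add_assoc]
  exact add_le_add_right (show (G.L k : ℝ) * _ + (G.bb (k + 1))⁻¹ ≤ _ by
    nlinarith [h.L1 k]) _

theorem dfc' (hJ : J ≤ J') (hi : i + 20 * n + 1 ≤ J) (hw : ∀ k, i ≤ k → k ≤ i + 20 * n →
      |(G.zz b' J' (k + 1)).v - (G.zz b J (k + 1)).v| ≤ η ∧ 3 * G.Q k ≤ η * G.bb k ∧
        G.Q k * η ≤ 1 ∧ 2 * G.L k * η ≤ x) :
    Df (3 * (G.td i z).r) (G.L i / G.L i ^ n + 2 * x) (G.zz b' J' i).m (G.zz b J i).m := by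
  have c0 := fun k => Nu.cs0 (S := G.sd k z)
  have c1 : ∀ k, (G.sd k z).cs ≤ 1 := fun k => by
    simpa using (h.sd_all k z).nu.cs_le (k := 0) (by omega)
  have x0 : 0 ≤ x := le_trans (mul_nonneg (by positivity) ((abs_nonneg _).trans
    (hw i le_rfl (by omega)).1)) (hw i le_rfl (by omega)).2.2.2
  have H : ∀ s k, i ≤ k → k + s ≤ i + 20 * n → Df ((G.td k z).r + 3)
      (G.L k * (G.sd k z).cs ^ s + 2 * x) (G.zz b' J' k).m (G.zz b J k).m := by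
    intro s
    induction s with
    | zero =>
      intro k hk hk' a δ ha
      obtain ⟨w1, w2, w3, w4⟩ := hw k hk hk'
      exact (h.dfc_eta' A B (by omega) (by omega) w1 w2 w3 (Nat.cast_nonneg _)
        (h.dfc_step (z := z) (k := k) A B (by omega) (by omega)).1 a δ ha).trans
        (mul_le_mul_of_nonneg_right (by nlinarith [c1 k, h.L1 k]) (sq_nonneg δ))
    | succ s ih =>
      intro k hk hk' a δ ha
      obtain ⟨w1, w2, w3, w4⟩ := hw k hk (by omega)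
      have x1 : 0 < G.L k * (G.sd k z).cs ^ s := mul_pos (by linarith [h.L1 k]) (pow_pos (c0 k) _)
      have r1 : (G.td (k + 1) z).r + 100 ≤ _ :=
        ((h.sl_all (k + 1) z).nu.r_next (t := G.td k z) (h.sch.size k)).1
      have l1 : (G.L (k + 1) : ℝ) ≤ 3 * G.L k := by
        exact_mod_cast (h.sd_all k z).nu.ok.ML
      have l2 : (G.sd (k + 1) z).cs ≤ (G.sd k z).cs := Real.rpow_le_rpow_of_nonpos (L0 _)
        (Nat.cast_le.2 (h.L_mono k.le_succ)) (by norm_num)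
      refine (h.dfc_eta' (z := z) (σ := 3 * G.L k * (G.sd k z).cs ^ s + 2 * x) A B (by omega)
        (by omega) w1 w2 w3 (by linarith) (fun a δ ha =>
          (ih (k + 1) (by omega) (by omega) a δ (ha.mono (by omega) le_rfl)).trans
            (mul_le_mul_of_nonneg_right ?_ (sq_nonneg δ))) a δ ha).trans
        (mul_le_mul_of_nonneg_right ?_ (sq_nonneg δ))
      · have := (c0 (k + 1)).le
        gcongr
      · rw [pow_succ _ s]
        nlinarith [c1 k]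
  have r1 := (h.sd_all i z).nu.r_3.1
  refine fun a δ ha => (H _ i le_rfl le_rfl a δ (ha.mono
    (show (G.sd i z).r + 3 ≤ 3 * (G.sd i z).r by omega) le_rfl)).trans
    (mul_le_mul_of_nonneg_right (le_of_eq ?_) (sq_nonneg δ))
  have e : (G.sd i z).cs ^ 20 = (G.L i : ℝ)⁻¹ := eq_inv_of_mul_eq_one_left Nu.cs_pow
  rw [pow_mul, e, inv_pow, div_eq_mul_inv]

theorem hy_top' (hi : i ≤ J) (hi' : i ≤ J') (h1 : 40 * |(G.zz b' J' i).v - (G.zz b J i).v| ≤ ε)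
    (hd : Df (3 * (G.td i (G.zz b J i)).r) ε (G.zz b' J' i).m (G.zz b J i).m)
    (h2 : G.Q i ^ 62 * G.g i ≤ ε) :
    G.Sz i (G.bb i * ε) (G.bb i * ε) (G.Q i ^ 100)⁻¹
      ((G.hy b J b' J' i i).1 - (G.zz b J i).ψ) ((G.hy b J b' J' i i).2 - (G.zz b J i).K) := by
  have a := h.lf (A.gd i hi).tz
  obtain ⟨p, -⟩ := a.hyb_ps (h.lf (B.gd i hi').tz) rfl rfl rfl rfl rfl hd
  have ρ0 := h.rh0 i
  obtain ⟨s, c, c1, c2⟩ := sz_sub ρ0 (B.gd i hi').dt.sz (A.gd i hi).dt.sz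
  rw [abs_sub_comm] at h1
  rw [hy_top]
  generalize G.zz b J i = z at *
  generalize G.zz b' J' i = z' at *
  have Q0 := h.Q0 i
  have Q1 := h.Q1 i
  have g0 := h.g0 i
  have g1 := h.g1 i
  have b0 := h.b0 i
  have bg := h.bg i
  have s1 : √(G.g i) ≤ 1 := sqrt_le_one.2 g1
  have x1 : G.Q i ^ 62 ≤ G.bb i * ε * G.g i := by
    calc _ = G.bb i * (G.Q i ^ 62 * G.g i) * G.g i := by linear_combination (-G.Q i ^ 62) * bg
      _ ≤ _ := by gcongr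
  have x0 : 0 < G.bb i * ε := (mul_pos_iff_of_pos_right g0).1 ((pow_pos Q0 _).trans_le x1)
  have x2 : G.Q i ^ 62 ≤ G.bb i * ε := x1.trans (mul_le_of_le_one_right x0.le g1)
  have x3 : 1000 ≤ G.bb i * ε := by
    simpa using (h.qpw i (show 0 < 62 by norm_num)).trans x2
  have x4 : G.Q i ^ 100 * G.g i ≤ 1 := le_trans (by gcongr; norm_num) (h.Qg i)
  have x5 : G.Q i ^ 100 * √(G.g i) ≤ 1 := le_trans (by gcongr; norm_num) (h.Qsg i)
  have x6 : √(G.g i) * (1 + 1) * G.g i ^ 2 ≤ (G.Q i ^ 100)⁻¹ * (G.bb i * ε / 2) * G.g i ^ 2 := by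
    gcongr ?_ * _
    rw [le_inv_mul_iff₀ (by positivity)]
    linarith
  have e : z'.ψ + ((G.sl i z').Φ 0 - (G.sl i z).Φ 0) - z.ψ =
    z'.ψ - z.ψ + ((G.sl i z').Φ 0 - (G.sl i z).Φ 0) := by abel
  refine ⟨e ▸ PM.mono ρ0 (PM.add ρ0 s p).1 ?_ ?_ ?_, c, c1, c2.mono (x6.trans ?_)⟩
  · show 1 + 1 + 20 * G.bb i * (_ + G.g i ^ 2) ≤ _
    nlinarith [mul_le_mul_of_nonneg_left h1 b0.le]
  · show G.Q i ^ 2 * (1 + 1) + G.bb i * G.Q i * _ ≤ _
    have := h.qpw i (show 1 < 2 by norm_num)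
    nlinarith [mul_le_mul_of_nonneg_right this x0.le, mul_le_mul_of_nonneg_left x3 (sq_nonneg (G.Q i))]
  · show G.Q i ^ 50 * √(G.g i) * (1 + 1) * G.g i ^ 2 + G.Q i ^ 11 * G.g i ≤ _
    have y1 := mul_le_mul_of_nonneg_left x6 (pow_pos Q0 50).le
    have y2 : G.Q i ^ 11 * G.g i ≤
        G.Q i ^ 50 * ((G.Q i ^ 100)⁻¹ * (G.bb i * ε / 2) * G.g i ^ 2) := by
      have := h.qpw i (show 61 < 62 by norm_num)
      calc _ = (G.Q i ^ 50)⁻¹ * G.g i * G.Q i ^ 61 := by field_simp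
        _ ≤ (G.Q i ^ 50)⁻¹ * G.g i * (G.bb i * ε * G.g i / 2) := by
          gcongr; linarith [pow_pos Q0 61]
        _ = _ := by field_simp
    linarith
  · gcongr; linarith

/-- the sharp hybrid -/
theorem hy_hb (hp : G.HP StA) (hJ : J ≤ J') (hj : j ≤ i) (big : ∀ k ≥ j, G.Big a k)
    (h1 : i + 60 * n + 1 + 20 * (405 * G.K + 1) + 1 ≤ J) (h2 : i + 60 * n + 1 ≤ j + G.Bk j)
    (h3 : 2 * e + 20 * G.K + 6 ≤ n) (h4 : 300 * (G.K + a) ≤ e) (h5 : 2 * (62 * G.K + n) ≤ G.Bk j) :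
    G.Hb a ((G.L j : ℝ) ^ e)⁻¹ b J i j (G.hy b J b' J' i) ∧
      Df (3 * (G.td i (G.zz b J i)).r) (((G.L j : ℝ) ^ e)⁻¹ ^ 2) (G.zz b' J' i).m (G.zz b J i).m ∧
      |(G.zz b' J' i).v - (G.zz b J i).v| ≤ ((G.L j : ℝ) ^ e)⁻¹ ^ 2 := by
  have i1 : i ≤ J := by omega
  have i2 := i1.trans hJ
  have L1 := h.L1 j
  have L0 : (0 : ℝ) < G.L j := by linarith
  have L2 : (1 : ℝ) ≤ G.L j := by linarith
  have Li := h.L1 i
  have wn : ∀ k l, j ≤ k → k ≤ l → l ≤ i + 60 * n + 1 →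
      G.L l ≤ G.L k ^ 2 ∧ G.Q l ≤ G.Q k ^ 2 ∧ G.bb l ≤ 2 * G.bb k := fun k l a1 a2 a3 =>
    h.win1 a2 le_rfl (by have := h.B_mono (a1.trans a2); omega)
  have Bm : ∀ k, j ≤ k → G.Bk j ≤ G.Bk k := fun k a => h.B_mono a
  have Lm : ∀ k l, k ≤ l → G.L k ≤ G.L l := fun k l a => h.L_mono a
  obtain ⟨τ, hτ⟩ : ∃ τ, τ = ((G.L j : ℝ) ^ e)⁻¹ := ⟨_, rfl⟩
  obtain ⟨η, hη⟩ : ∃ η, η = ((G.L i : ℝ) ^ n)⁻¹ := ⟨_, rfl⟩
  have τ0 : 0 < τ := by rw [hτ]; positivity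
  have η0 : 0 < η := by rw [hη]; positivity
  have gl : ∀ k m, j ≤ k → 2 * m ≤ G.Bk j → (G.L k : ℝ) ^ m * G.g k ≤ 1 := fun k m a1 a2 =>
    le_of_sq_le_sq (by
      rw [mul_pow, ← pow_mul, one_pow, ← h.bg k]
      exact mul_le_mul_of_nonneg_right (h.Lbk k (by have := Bm k a1; omega)) (sq_nonneg _))
      zero_le_one
  have hd := h.dfc' (z := G.zz b J i) (n := n) (η := η) (x := 2 * G.L i ^ 2 * η) A B hJ (i := i)
    (by omega) fun k a1 a2 => by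
      have w := wn i k hj a1 (by omega)
      have Lk := h.L1 k
      refine ⟨(h.v_hy A B hJ (i := i + 60 * n + 1) (n := n) h1 (by omega)
        (wn (k + 1) _ (by omega) (by omega) le_rfl).2.2 (by have := Bm (k + 1) (by omega); omega)).trans
        (by rw [hη]; gcongr; exact Lm _ _ (by omega)), ?_, ?_, ?_⟩
      · rw [hη, le_inv_mul_iff₀ (by positivity)]
        refine le_trans ?_ (h.Lbk k (i := n + (1 + G.K)) (by have := Bm k (by omega); omega))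
        rw [pow_add, pow_add, pow_one, Q]
        gcongr
        exacts [Lm _ _ a1, by linarith]
      · rw [hη, ← div_eq_mul_inv, div_le_one (by positivity)]
        refine w.2.1.trans ?_
        rw [Q, ← pow_mul]
        exact pow_le_pow_right₀ (by linarith) (by omega)
      · gcongr
        exact_mod_cast w.1
  obtain ⟨ε, hε⟩ : ∃ ε, ε = (G.L i : ℝ) ^ 3 * η := ⟨_, rfl⟩
  have ε0 : 0 < ε := by rw [hε]; positivity
  have tv : 40 * |(G.zz b' J' i).v - (G.zz b J i).v| ≤ ε := by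
    refine (mul_le_mul_of_nonneg_left (h.v_hy A B hJ (i := i + 60 * n + 1) (n := n) h1 (by omega)
      (wn i _ hj (by omega) le_rfl).2.2 (by have := Bm i hj; omega)) (by norm_num)).trans ?_
    rw [← hη, hε]
    gcongr
    nlinarith [sq_nonneg (G.L i : ℝ), mul_le_mul Li Li (by norm_num) (by linarith)]
  have td : Df (3 * (G.td i (G.zz b J i)).r) ε (G.zz b' J' i).m (G.zz b J i).m := fun a δ ha =>
    (hd a δ ha).trans (mul_le_mul_of_nonneg_right (by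
      rw [hε, div_eq_mul_inv, ← hη]
      nlinarith [mul_pos η0 (show 0 < (G.L i : ℝ) ^ 3 - 4 * G.L i ^ 2 - G.L i by
        nlinarith [mul_le_mul Li Li (by norm_num) (by linarith)])]) (sq_nonneg δ))
  have top := h.hy_top' A B i1 i2 tv td (by
      refine le_trans ?_ (hε ▸ le_mul_of_one_le_left η0.le (one_le_pow₀ (by linarith)))
      rw [hη, ← one_div, le_div_iff₀' (by positivity), ← mul_assoc, Q, ← pow_mul, ← pow_add]
      exact gl i _ hj (by omega))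
  have t2 : ∀ k, j ≤ k → k ≤ i → G.Q k ^ 10 * (8 * (2 ^ (i - k) * ε)) ≤ τ ^ 2 := fun k a1 a2 => by
    have w := (wn j k le_rfl a1 (by omega)).2.1
    have w2 : (2 : ℝ) ^ (i - k) ≤ G.L j := by
      have : 2 ^ (i - k) ≤ G.L j := (Nat.pow_le_pow_left (by norm_num) _).trans
        ((Nat.pow_le_pow_right (by norm_num) (by omega)).trans (h.pow_low hj (by
          have := Bm i hj; omega)))
      exact_mod_cast this
    have w3 : ε ≤ ((G.L j : ℝ) ^ (n - 3))⁻¹ := by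
      rw [hε, hη, show n = 3 + (n - 3) by omega, pow_add, mul_inv, mul_inv_cancel_left₀ (by positivity),
        Nat.add_sub_cancel_left]
      gcongr
      exact Lm _ _ hj
    have := h.Q0 k
    calc _ ≤ (G.Q j ^ 2) ^ 10 * (G.L j * (G.L j * ((G.L j : ℝ) ^ (n - 3))⁻¹)) := by
          gcongr; linarith
      _ = (G.L j : ℝ) ^ (20 * G.K + 2) / (G.L j : ℝ) ^ (n - 3) := by rw [Q]; field_simp; ring
      _ ≤ _ := by
          rw [hτ, inv_pow, ← pow_mul, div_le_iff₀ (by positivity), le_inv_mul_iff₀ (by positivity),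
            ← pow_add]
          exact pow_le_pow_right₀ L2 (by omega)
  have nm : ∀ k, j ≤ k → k ≤ i → G.Big a k ∧ G.g k ≤ τ ^ 2 ∧ G.QA a k ^ 101 * τ ≤ 1 ∧
      G.Q k ^ 150 * τ ≤ 1 := fun k a1 a2 => by
    have w := wn j k le_rfl a1 (by omega)
    have w1 : (G.L k : ℝ) ≤ G.L j ^ 2 := by exact_mod_cast w.1
    have q : ∀ m, 2 * m ≤ e → (G.L k : ℝ) ^ m * τ ≤ 1 := fun m hm => by
      rw [hτ, ← div_eq_mul_inv, div_le_one (by positivity)]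
      exact (pow_le_pow_left₀ (Nat.cast_nonneg _) w1 _).trans
        ((pow_mul _ _ _).ge.trans (pow_le_pow_right₀ L2 hm))
    refine ⟨big k a1, ?_, by rw [QA, ← pow_mul]; exact q _ (by omega),
      by rw [Q, ← pow_mul]; exact q _ (by omega)⟩
    rw [hτ, inv_pow, ← pow_mul, ← one_div, le_div_iff₀' (by positivity)]
    exact le_trans (by have := h.g0 k; gcongr; exact Lm _ _ a1) (gl k _ a1 (by omega))
  have xb : ∀ k, j ≤ k → k ≤ i → 2 ^ (i - k) * (G.bb i * ε) * G.g k ^ 2 ≤ 2 * (2 ^ (i - k) * ε) :=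
    fun k a1 a2 => by
      have w := (wn k i a1 a2 (by omega)).2.2
      calc _ ≤ 2 ^ (i - k) * (2 * G.bb k * ε) * G.g k ^ 2 := by gcongr
        _ = 2 * (2 ^ (i - k) * ε) * (G.bb k * G.g k ^ 2) := by ring
        _ = _ := by rw [h.bg, mul_one]
  have X0 : 0 < G.bb i * ε := mul_pos (h.b0 i) ε0
  have sh : ∀ k ≤ i, j ≤ k → G.Sz k (2 ^ (i - k) * (G.bb i * ε)) (2 ^ (i - k) * (G.bb i * ε))
      (G.Q k ^ 100)⁻¹ ((G.hy b J b' J' i k).1 - (G.zz b J k).ψ)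
      ((G.hy b J b' J' i k).2 - (G.zz b J k).K) := dw_ind (fun _ => by simpa using top)
    fun k hk ih a1 => by
      have d := A.gd (k + 1) (by omega)
      have := h.dif_up d.tz d.dt.sz (ih (by omega)) (by positivity) (by
        have a2 := xb (k + 1) (by omega) hk
        have a3 := t2 (k + 1) (by omega) hk
        have a4 := (nm (k + 1) (by omega) hk).2.2.2
        have Q0 := h.Q0 (k + 1)
        have a5 : (G.Q (k + 1) ^ 150 * τ) ^ 2 ≤ 1 := pow_le_one₀ (by positivity) a4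
        have a6 := mul_le_mul_of_nonneg_left a3 (pow_pos Q0 300).le
        have a7 : 8 * (2 ^ (i - (k + 1)) * ε) ≤ G.Q (k + 1) ^ 10 * (8 * (2 ^ (i - (k + 1)) * ε)) :=
          le_mul_of_one_le_left (by positivity) (one_le_pow₀ (h.Q1 _))
        have a8 := mul_le_mul_of_nonneg_left a7 (pow_pos Q0 300).le
        have a9 := mul_le_mul_of_nonneg_left a2 (pow_pos Q0 300).le
        have a0 : 0 < G.Q (k + 1) ^ 300 * (2 ^ (i - (k + 1)) * ε) := by positivity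
        nlinarith)
      rw [hy_step hk, zz_step b (show k < J by omega), show i - k = i - (k + 1) + 1 by omega,
        pow_succ', mul_assoc]
      exact this
  have pu : ∀ k, j ≤ k → k ≤ i → PU (G.p k) (τ ^ 2) (G.hy b J b' J' i k).1 := fun k a1 a2 => by
    have Q0 := h.Q0 k
    have g0 := h.g0 k
    have o1 : G.Q k ^ 100 * (G.Q k ^ 100)⁻¹ ≤ 1 := (mul_inv_cancel₀ (by positivity)).le
    have p1 := h.sz_pu (sh k a2 a1) o1
    have p2 := h.sz_pu (A.gd k (by omega)).dt.sz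
      ((mul_le_mul_of_nonneg_left (h.sg_le k) (by positivity)).trans o1)
    have p3 := pu_add (h.sl_all k (G.zz b J k)).nu p2 p1
    rw [add_sub_cancel] at p3
    refine pu_mono p3 ?_
    have a3 := mul_le_mul_of_nonneg_left (xb k a1 a2) (pow_pos Q0 10).le
    have a4 : 1000 * (G.Q k ^ 10 * G.g k) ≤ 1 := le_trans (by
      rw [← mul_assoc]; gcongr; exact h.qpw k (by norm_num)) (h.Qg k)
    nlinarith [t2 k a1 a2, (nm k a1 a2).2.1, mul_le_mul_of_nonneg_right a4 g0.le]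
  have εt : ε ≤ τ ^ 2 := by
    have := t2 i hj le_rfl
    rw [Nat.sub_self, pow_zero, one_mul] at this
    nlinarith [mul_le_mul_of_nonneg_right (one_le_pow₀ (n := 10) (h.Q1 i)) ε0.le]
  rw [← hτ]
  refine ⟨⟨i1, τ0, fun k a1 a2 => ⟨(nm k a1 a2).1, (nm k a1 a2).2.1, (nm k a1 a2).2.2.1⟩,
    fun _ => hy_step, pu, fun k a1 a2 => ?_, fun k a1 a2 => ?_⟩, fun a δ ha => (td a δ ha).trans
      (mul_le_mul_of_nonneg_right εt (sq_nonneg δ)),
    by linarith [abs_nonneg ((G.zz b' J' i).v - (G.zz b J i).v)]⟩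
  · revert a1
    refine dw_ind (P := fun k => j ≤ k → ∃ m, KM (G.p k) (G.N k) m (G.hy b J b' J' i k).2 ∧
      kN (G.pA a k).up (G.N k) m (τ ^ 3)) (fun _ => ?_) (fun k hk ih a1 => ?_) k a2
    · obtain ⟨m, m1, m2⟩ := h.baseK hp B.toTu1 i i2 fun l hl => big l (hj.trans hl)
      rw [hy_top]
      refine ⟨m, m1, m2.mono ?_⟩
      have a1 := (nm i hj le_rfl).2.1
      have g0 := h.g0 i
      rw [pow_succ' τ 2]
      gcongr ?_ * ?_
      exacts [sqrt_le_iff.2 ⟨τ0.le, a1⟩, le_trans (by nlinarith [h.g1 i]) a1]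
    · obtain ⟨m, m1, m2⟩ := ih (by omega)
      have n2 := h.nuA (big k a1) (G.zz b J (k + 1))
      rw [← h.sd_nf k (G.zz b J (k + 1))] at m1 m2
      obtain ⟨-, m', b1, b2⟩ := baseB n2 (nm (k + 1) (by omega) hk).2.1 (nm k a1 hk.le).2.2.1 τ0
        (h.hp_sd hp (A.gd (k + 1) (by omega)).tz) (pu (k + 1) (by omega) hk) m1 (kN_up m2)
      rw [hy_step hk]
      refine ⟨m', b1, b2.mono ?_⟩
      have c := n2.cQ' (C := 2) (by norm_num)
      rw [div_le_iff₀' (by linarith)]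
      gcongr
  · have Q0 := h.Q0 k
    have b0 := h.b0 k
    have : 2 ^ (i - k) * (G.bb i * ε) ≤ G.bb k * τ ^ 2 := by
      have w := (wn k i a1 a2 (by omega)).2.2
      have a7 : 8 * (2 ^ (i - k) * ε) ≤ G.Q k ^ 10 * (8 * (2 ^ (i - k) * ε)) :=
        le_mul_of_one_le_left (by positivity) (one_le_pow₀ (h.Q1 _))
      have a8 : 0 < 2 ^ (i - k) * ε := by positivity
      nlinarith [mul_le_mul_of_nonneg_left (a7.trans (t2 k a1 a2)) b0.le,
        mul_le_mul_of_nonneg_right w a8.le, mul_pos b0 a8]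
    exact h.sz_up (sh k a2 a1) (by positivity) this this

end Ok

end Gl

end Pool.Agent.Lib.MP_7f377f_mp.RG.Q4.En
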