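import Pool.Agent.Lib.MP_7f377f_mp.G.MgX0

/-! Merging of general sources: the top level. -/

noncomputable section

open Pool.Agent.Lib.MP_7f377f_mp.Jet

set_option linter.unusedSectionVars false
variable [Pool.Agent.Lib.MP_7f377f_mp.GD]

namespace Pool.Agent.Lib.MP_7f377f_mp.RG.Q4.En

open Finset Function Sg Real Pos Mg
open scoped Classical

attribute [local irreducible] box lbox tb tau rc

variable {γ Ω κ α ι : Type} [Fintype γ] [DecidableEq γ] [DecidableEq Ω] [Fintype κ] [DecidableEq κ]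
  [Inhabited κ] [Fintype α] [DecidableEq ι] {A A' T : Finset ι} {s : ι → ℂ} {F H : ι → Sx}
  {W W' : ι → Finset St} {p : Pa} {n d : ℕ} {β a M : ℝ} {r : ι → ℝ}

theorem sum_cut {V : Type} [AddCommMonoid V] [Module ℂ V] {H : ι → V} (e : A ⊆ A') :
    ∑ i ∈ A', cutS A s i • H i = ∑ i ∈ A, s i • H i := by
  rw [← sum_subset e fun i _ h => by rw [cutS, if_neg h, zero_smul]]
  exact sum_congr rfl fun i h => by rw [cutS, if_pos h]

omit [DecidableEq ι] in
theorem xO_sum (U : Conf) : xO n (∑ i ∈ A, s i • F i) U = ∑ i ∈ A, s i * xO n (F i) U := by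
  simp only [xO, sO, sx_app, Finset.sum_apply, Pi.smul_apply, smul_eq_mul, mul_add, sum_add_distrib,
    mul_sum, sum_mul, mul_assoc, sum_comm (s := A)]

theorem gi_xO {F : Sx} (h : F.Ok p d a M) : GI n (xO n F) :=
  (Br.gi_cont (Br.cont_sO _) (Br.sO_gauge _)).add (.sum fun x _ =>
    ⟨(h.lt x).meas.comp (Ms.cont_sh x).measurable, ⟨M, fun _ => h.bd x _⟩, fun u U _ _ => by
      simp only [Ms.sh_gauge, (h.lt x).gi]⟩)

theorem hb_xw (hr : ∀ i, 0 < r i) (x : St) (U : Conf) :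
    Hb r fun s => xw β (∑ i ∈ A, s i • F i) x U := by
  have := hb_mul (hb_const hr (ww (fun _ _ _ => β) x U)) (Gl.hb_lin hr A fun i =>
    ∑ μ, ∑ ν, (F i).1 x μ ν * (2⁻¹ * fq U x μ ν ^ 2 : ℝ) + (F i).2.1 x (sh x U))
  convert this using 2 with s
  simp only [xw, ww, sx_app, Finset.sum_apply, Pi.smul_apply, smul_eq_mul, ← Complex.exp_add,
    add_mul, mul_add, sum_add_distrib, mul_sum, sum_mul, mul_assoc, sum_comm (s := A)]
  congr 1
  ring

theorem hb_xK (hr : ∀ i, 0 < r i) (X : Finset St) (c : Finset (Finset St)) (U : Conf) :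
    Hb r fun s => xK p n β (∑ i ∈ A, s i • F i) X c U :=
  hb_sum hr fun _ _ => hb_mul (hb_prod hr fun _ _ => hb_mul (hb_const hr _) (hb_xw hr _ _))
    (hb_prod hr fun _ _ => hb_mul (hb_const hr _) (hb_xw hr _ _))

theorem xK_real {F : Sx} (h : F.Re p) : RealA (xK p n β F) :=
  KI_real fun x U => by
    rw [Complex.mul_im, ww_real fun μ ν => by simp [h.1], Complex.exp_im]
    simp [h.2.1]

theorem xP_real {F : Sx} (h : F.Re p) : RealP p (xP F) := fun x B u v => by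
  rw [xP, Pi.add_apply, Pi.add_apply, Complex.add_im, sL_real h.1 x B u, h.2.2 x B u v, add_zero]

omit [DecidableEq ι] in
theorem sx_re_sum (h : ∀ i ∈ A, (F i).Re p) (hs : ∀ i, (s i).im = 0) :
    Sx.Re p (∑ i ∈ A, s i • F i) := by
  refine ⟨fun x μ ν => ?_, fun x U => ?_, fun x B u v => ?_⟩ <;>
    simp only [Prod.fst_sum, Prod.snd_sum, Finset.sum_apply, Prod.smul_fst, Prod.smul_snd,
      Pi.smul_apply, smul_eq_mul, Complex.im_sum] <;> refine sum_eq_zero fun i hi => ?_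
  · simp [hs, (h i hi).1]
  · simp [hs, (h i hi).2.1]
  · simp [hs, (h i hi).2.2 x B u v]

theorem sum_exz {V : Type} [AddCommMonoid V] [Module ℂ V] {H : ι → V} {e : κ → ι}
    (he : Injective e) (h : ∀ x, e x ∈ A) (s : κ → ℂ) :
    ∑ i ∈ A, exz e s i • H i = ∑ x, s x • H (e x) := by
  rw [← exz_cut (A := univ.image e) fun x => mem_image_of_mem _ (mem_univ x),
    sum_cut (image_subset_iff.2 fun x _ => h x), sum_image he.injOn]
  simp only [exz_apply he]

/-- words of linear letters -/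
theorem md_lin {D : Wd St ι Ω} (g : ∀ ω ∈ D.Om, Disjoint (D.A ω) D.B)
    (g' : ∀ ω ∈ D.Om, ∀ ω' ∈ D.Om, ω ≠ ω' → Disjoint (D.A ω) (D.A ω')) (hA : D.al ⊆ A)
    {y : ι → Conf → ℂ} {c : Conf → ℂ} {a : ι → ℂ} {w : Ω → ℂ}
    {f' : (ι → ℂ) → Conf → ℂ} (hd : HD r f') (e : ∀ U, Per n U → ∀ T ⊆ D.B, jd T (f' · U) =
      c U * ∏ q ∈ T, (y q U + ∑ ω ∈ D.Om.filter (D.cl · = q), w ω * ∏ x ∈ D.A ω, (y x U - a x))) :
    Md D a w n r (fun s U => c U * Complex.exp (∑ i ∈ A, s i * y i U)) f' := by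
  refine ⟨hd, fun U hU T hT => ?_⟩
  rw [e U hU T hT, prod_cells, mul_sum]
  refine sum_congr rfl fun N hN => ?_
  have hN := mem_powerset.1 hN
  have o := (disjoint_biUnion_left _ _ _).2 fun ω a => g ω (hN a)
  have u := (ad_sub hN).trans hA
  split_ifs
  swap
  · exact mul_zero _
  rw [show (fun s : ι → ℂ => Complex.exp (-∑ x ∈ N.biUnion D.A, s x * a x) *
      (c U * Complex.exp (∑ i ∈ A, s i * y i U))) = c U • fun s => Complex.exp (∑ i ∈ A,
      s i * (y i U - if i ∈ N.biUnion D.A then a i else 0)) from funext fun s => by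
    simp only [mul_sub, sum_sub_distrib, mul_ite, mul_zero, sum_ite_mem, Pi.smul_apply, smul_eq_mul,
      inter_eq_right.2 (subset_union_left.trans u), sub_eq_add_neg (∑ i ∈ A, _), Complex.exp_add]
    ring, jd_smul, jd_exp_lin _ ((lt_sub hT).trans u), Mg.Wd.lt,
    prod_union (o.symm.mono_left (sdiff_subset.trans hT)),
    prod_congr (s₁ := N.biUnion D.A) (g := fun x => y x U - a x) rfl fun x hx => by rw [if_pos hx],
    prod_congr (s₁ := T \ _) (f := fun x => y x U - _) (g := (y · U)) rfl fun x hx => by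
      rw [if_neg (disjoint_right.1 o (hT (mem_sdiff.1 hx).1)), sub_zero],
    prod_biUnion fun ω a ω' a' => g' ω (hN a) ω' (hN a'), prod_mul_distrib]
  ring

omit [DecidableEq ι] in
/-- sums of separated sources -/
theorem ok_sum {δ : ℝ} (h0 : 0 < p.ρ) (hc : Cls n δ A id W) (hd : 0 < δ)
    (hZ : ∀ i ∈ A, (F i).In n (W i)) (a0 : 0 ≤ a) (M0 : 0 ≤ M)
    (hF : ∀ i ∈ A, ∃ a' M', (F i).Ok p d a' M' ∧ r i * a' ≤ a ∧ r i * M' ≤ M) (hs : s ∈ Pd r) :
    (∑ i ∈ A, s i • F i).Ok p d a M := by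
  have o : ∀ B ⊆ A, ∃ a M, (∑ i ∈ B, s i • F i).Ok p d a M := fun B => by
    induction B using Finset.cons_induction with
    | empty => exact fun _ => ⟨_, _, .zero h0⟩
    | cons i B _ ih =>
      intro e
      obtain ⟨_, _, u⟩ := ih ((subset_cons _).trans e)
      obtain ⟨_, _, v, -⟩ := hF i (e (mem_cons_self ..))
      exact ⟨_, _, by rw [sum_cons, add_comm]; exact u.add h0 v _⟩
  obtain ⟨_, _, o⟩ := o A Subset.rfl
  have k : ∀ x {y : ι → ℂ} {c : ℝ}, 0 ≤ c → (∀ i ∈ A, rc n x ∉ W i → y i = 0) →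
      (∀ i ∈ A, r i * ‖y i‖ ≤ c) → ‖∑ i ∈ A, s i * y i‖ ≤ c := fun x y c c0 h1 h2 => by
    by_cases e : ∃ i ∈ A, rc n x ∈ W i
    · obtain ⟨i, hi, e⟩ := e
      rw [sum_eq_single_of_mem i hi fun j hj u => by
        rw [h1 j hj fun a => u (one_cluster hc hd hj hi a e), mul_zero]]
      exact (norm_mul_le_of_le (hs i).le le_rfl).trans (h2 i hi)
    · rwa [sum_eq_zero fun j hj => by rw [h1 j hj fun a => e ⟨j, hj, a⟩, mul_zero], norm_zero]
  have r0 := fun i => ((norm_nonneg _).trans_lt (hs i)).le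
  refine ⟨fun x μ ν => ?_, o.lt, fun x U => ?_, o.pm⟩ <;>
    simp only [sx_app, Finset.sum_apply, Pi.smul_apply, smul_eq_mul]
  · refine k x a0 (fun i hi e => by simp [(hZ i hi x e).1]) fun i hi => ?_
    obtain ⟨_, _, u, v, -⟩ := hF i hi
    exact (mul_le_mul_of_nonneg_left (u.pl x μ ν) (r0 i)).trans v
  · refine k x M0 (fun i hi e => by simp [(hZ i hi x e).2.1]) fun i hi => ?_
    obtain ⟨_, _, u, -, v⟩ := hF i hi
    exact (mul_le_mul_of_nonneg_left (u.bd x U) (r0 i)).trans v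

theorem xK_lc (hn : Odd n) (hZ : ∀ i, (F i).In n (W i)) : Loc n W (fun s => xP (∑ i ∈ A, s i • F i))
    fun s => xK p n β (∑ i ∈ A, s i • F i) := by
  refine ⟨fun i x hx => ?_, fun i X c hX s t => xK_loc hn (fun y hy e => ?_) c⟩
  · simp only [xP_sum, Finset.sum_apply, Pi.smul_apply]
    exact lin_ind (funext fun B => by simp [xP, sL, hZ i x hx])
  · have z := hZ i y fun a => disjoint_left.1 hX (e ▸ a) hy
    simp only [sx_app]
    exact ⟨lin_ind (H := fun j => (F j).1 y) z.1 s t, lin_ind (H := fun j => (F j).2.1 y) z.2.1 s t⟩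

namespace Gl

variable {G : Gl} {b : ℝ} {J k : ℕ}

theorem xt_loc (h : G.Ok) (hZ : ∀ i, (F i).In (G.N J) (W i)) :
    Loc (G.N J) (G.xt A F W b J).Z (G.xt A F W b J).ψ (G.xt A F W b J).K := by
  have := (xK_lc (A := A) (p := G.p J) (β := b) (h.N_odd J) hZ).trunc A
  rwa [← show trK A _ = _ from funext fun s => funext fun X => funext fun c => funext fun U =>
    congrFun (trK_eq X c U) s] at this

theorem Ok.top_le (h : G.Ok) {c : ℕ} (hc : 2 ^ c ≤ G.Q J) :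
    2 ^ c * G.g J ^ 29 ≤ (G.Q J ^ 329)⁻¹ := by
  have q := h.Q0 J
  have g0 := h.g0 J
  calc _ ≤ G.Q J * (G.Q J ^ 4000)⁻¹ := mul_le_mul hc ((pow_le_pow_of_le_one g0.le (h.g1 J)
        (by norm_num)).trans (h.g_le J)) (by positivity) q.le
    _ = (G.Q J ^ 3999)⁻¹ := by field_simp
    _ ≤ _ := inv_anti₀ (by positivity) (pow_le_pow_right₀ (h.Q1 J) (by norm_num))

theorem Tu.hb (t : G.Tu b J) : |b / G.bb J - 1| ≤ 10⁻¹ := by
  have v := (t.gd J le_rfl).tz.v
  rwa [zz_top] at v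

/-- separated sources at the top -/
theorem Ok.xt_fd (h : G.Ok) (t : G.Tu b J) (hd : d ≤ (G.p J).R) (hr : ∀ x, 0 < r x) {δ : ℝ}
    (hZ : ∀ i, (F i).In (G.N J) (W i)) (hF : ∀ i ∈ A, ∃ a M, (F i).Ok (G.p J) d a M ∧
      r i * a ≤ G.bb J / 4 ∧ r i * M ≤ 1) (hc : Cls (G.N J) δ A id W) (hδ : 3 * (G.p J).D ≤ δ) :
    G.Fd J (G.zz b J J) A r r (G.Q J ^ 329)⁻¹ (G.xt A F W b J) (G.xf A F b J J) := by
  have D0 := h.D_pos J
  rw [zz_top]
  exact (h.fam_top_x t.hb hd (m := 1) (c := 1) hr (fun s hs => ok_sum (h.ρ0 J) hc (by linarith)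
    (fun i _ => hZ i) (by linarith [h.b0 J]) zero_le_one hF hs) hZ
    (fun i hi => (hF i hi).imp fun _ a => a.imp fun _ a => a.1) hc (by norm_num; exact hδ)
    (fun c => card_le_one.2 fun a ha b hb => (mem_filter.1 ha).2.trans (mem_filter.1 hb).2.symm)
    le_rfl).1.mono hr (fun _ => le_rfl) (h.top_le (by linarith [h.cQ J (C := 2) (by norm_num)]))

/-- the uniform majorant at the top -/
theorem Ok.xt_um {D : Wd St ι Ω} {Λ : Finset St} {c : ℕ} {δ δ' : ℝ}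
    {V : ι → Finset St} (h : G.Ok) (t : G.Tu b J) (hd : d ≤ (G.p J).R) (hr : ∀ x, 0 < r x)
    (g : D.Ok Λ) (hZ : ∀ i, (F i).In (G.N J) (W i)) (hF : ∀ i ∈ D.al, ∃ a M,
      (F i).Ok (G.p J) d a M ∧ r i * a ≤ G.bb J / 4 ∧ r i * M ≤ 1)
    (hc : ∀ N, D.Tr N → Cls (G.N J) δ (D.ad N) id W) (δ0 : 0 < δ)
    (hV : ∀ x ∈ D.al, W x ⊆ V (D.ce x)) (hA : ∀ ω ∈ D.Om, (D.A ω).card ≤ c) (c1 : 1 ≤ c)
    (cl : Cls (G.N J) δ' D.B id V) (hδ : (2 * c + 2) * (G.p J).D ≤ δ') (hQ : 2 ^ c ≤ G.Q J) :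
    Um D (G.p J) 0 (G.N J) r (G.Q J ^ 329)⁻¹ (G.xt D.al F W b J).K := by
  have nu := (h.sl_all J (G.top b J)).nu
  have n := h.sl_nf J (G.top b J)
  have g0 := h.g0 J
  refine (um_trK (m := 2 * c) (ρ := 1) g hV hA c1 (h.ps0 J).D (n ▸ kI_up nu) (fun N hN => ?_)
    (xK_lc (h.N_odd J) hZ) cl (by push_cast; exact hδ) zero_le_one (by simp) hr
    fun _ => (one_mul _).ge).mono (by norm_num) (le_trans ?_ (h.top_le hQ))
  · have u := fun s => ok_sum (s := s) (h.ρ0 J) (hc N hN) δ0 (fun i _ => hZ i)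
      (by linarith [h.b0 J]) zero_le_one fun i hi => hF i (ad_sub hN.1 hi)
    simp only [sum_cut (ad_sub hN.1)]
    exact ⟨hr, fun s hs i X c U => (hb_xK hr X c U).choose_spec.hol s hs i, fun s hs =>
      n ▸ xK_km nu hd (h.b34 t.hb) (u s hs).pl (u s hs).lt (u s hs).bd⟩
  · rw [one_add_one_eq_two]
    exact mul_le_mul_of_nonneg_left (pow_le_pow_of_le_one g0.le (h.g1 J) (by norm_num))
      (by positivity)

theorem xt_cut (e : A ⊆ A') : (G.xt A' H W b J).cut A = G.xt A H W b J := by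
  simp only [xt, Fy.cut, ← trK_cut e, sum_cut e]
  rfl

theorem xf_cut (e : A ⊆ A') (s : ι → ℂ) : G.xf A' H b J k (cutS A s) = G.xf A H b J k s := by
  simp only [xf, sum_cut e]

theorem xt_se {e : κ → ι} (he : Injective e) (h : ∀ x, e x ∈ A) (V : κ → Finset St) :
    (G.xt univ (H ∘ e) V b J).Se ((G.xt A H W b J).pull e) := by
  refine ⟨funext fun s => ?_, funext fun s => ?_, rfl⟩
  · simp only [xt, Fy.pull, sum_exz he h, comp]
  · simp only [xt, Fy.pull, trK, ma_exz he _ h]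
    refine congrFun (ma_congr fun T _ => funext₃ fun X c U => ?_) s
    simp only [jA, ← jd_exz he (hb_xK (r := fun _ => 1) (fun _ => one_pos) X c U), sum_exz he h,
      comp]

theorem Ok.xt_tq (h : G.Ok) (v : St) :
    (G.xt A H W b J).Tq (G.N J) v (G.xt A (fun i => sxT (G.N J) v (H i)) W' b J) := fun s => by
  refine ⟨funext fun x => ?_, fun o ho => funext fun U => ?_, rfl⟩
  · simp only [xt, trL, xP_sum, Finset.sum_apply, Pi.smul_apply]
    rfl
  · have := fun s : ι → ℂ => congrFun (xK_tr (p := G.p J) (β := b) (F := ∑ i ∈ A, s i • H i)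
      (F' := ∑ i ∈ A, s i • sxT (G.N J) v (H i)) (h.N_odd J) v (fun y => by
        simp only [sx_app]; exact ⟨rfl, rfl⟩) ho) U
    simp only [trA] at this
    simp only [xt, trA, trK, ma_apply, jA, this]

theorem xt_rl (h : ∀ i ∈ A, (H i).Re (G.p J)) (r : ι → ℝ) : (G.xt A H W b J).Rl (G.p J) r :=
  fun s _ hs => ⟨xP_real (sx_re_sum h hs), fun X c U =>
    (congrArg _ (congrFun (trK_eq X c U) s)).trans (tr_real (hb_xK (r := fun _ => 1)
      (fun _ => one_pos) X c U).choose_spec (fun _ _ hs => xK_real (sx_re_sum h hs) X c U) hs), rfl⟩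

theorem ex_eq {i : ι} (hi : i ∈ A) (hk : k ≤ J) :
    jd {i} (G.fw A b J (G.xt A H W b J) J k).E = G.ex b J k (H i) := by
  have he : Injective fun _ : Unit => i := fun _ _ _ => rfl
  refine (jd_exz1 (x := ()) he).symm.trans (congrArg (jd {()}) (fw_pull he (fun _ => hi)
    (xt_se he (fun _ => hi) _) (fun j _ _ T X c U g _ => ?_) k hk le_rfl).2.2.symm)
  rcases T.eq_empty_or_nonempty with rfl | ⟨x, hx⟩
  · simp [exz_zero]
  · rw [eq_singleton_iff_unique_mem.2 ⟨hx, fun _ _ => rfl⟩, image_singleton, jd_exz1 he]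

theorem Ok.ex_tr (h : G.Ok) (hk : k ≤ J) (F : Sx) (v : St) :
    G.ex b J k (sxT (G.N J) ((G.rt J k : ℤ) • v) F) = G.ex b J k F :=
  congrArg (jd {()}) (funext fun s => (h.fw_tr hk (h.xt_tq (H := fun _ => F) _) s).2.2.symm)

theorem Ok.cSx_tr (h : G.Ok) (hk : k ≤ J) (F : κ → Sx) (a : κ → ℂ) (v : St) {Z0 X0 : Finset St}
    (hZ : Z0 ⊆ X0) (hX : X0 ⊆ box (G.N k / 2)) {o : LP St} (ho : o ∈ lps (box (G.N k / 2))) :
    trA (G.N k) v (G.cSx b J k F a (trS (G.N k) v Z0) (trS (G.N k) v X0)) o.1 o.2 =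
      G.cSx b J k (fun l => sxT (G.N J) ((G.rt J k : ℤ) • v) (F l)) a Z0 X0 o.1 o.2 :=
  h.cIn_tr hk (h.xt_tq _) a hZ hX ho

theorem xt_pl (F : ι → Sr) : G.xt A (fun i => (F i, 0, 0)) W b J = G.ft A F W b J := by
  have : ∀ s : ι → ℂ, ∑ i ∈ A, s i • ((F i, 0, 0) : Sx) = (sF A F s, 0, 0) := fun s => by
    simp [Prod.ext_iff, Prod.fst_sum, Prod.snd_sum, sF]
  simp only [xt, ft, this, xK_pl, xP, add_zero]

theorem gi_Y {S : Wx γ Ω κ α} (hF : ∀ ω ∈ S.Om, ∀ l, GI n (xO n (S.F ω l)))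
    (hP : ∀ q, GI n (xO n (S.P q))) (w : Ω → ℂ) (q : γ) : GI n (S.Y n w q) :=
  (Br.gi_comp (hP q) continuous_neg).add (.sum fun ω hω => (GI.const _ _).mul (.prod fun l _ =>
    Br.gi_comp (hF ω (mem_filter.1 hω).1 l) (continuous_neg.sub continuous_const)))

/-- the words as jets of the density with all the letters -/
theorem md_x {S : Wx γ Ω κ α} (hF : ∀ ω ∈ S.Om, ∀ l, GI (G.N J) (xO (G.N J) (S.F ω l)))
    (hP : ∀ q, GI (G.N J) (xO (G.N J) (S.P q))) (w : Ω → ℂ) {r : Ω × κ ⊕ γ → ℝ} (hr : ∀ x, 0 < r x) :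
    Md S.wd S.cen w (G.N J) r (G.xf S.wd.al S.src b J J)
      fun s => pr b (G.N J) (S.Y (G.N J) w) (s ∘ .inr) := by
  obtain ⟨X, hX⟩ : ∃ X : Ω × κ ⊕ γ → Conf → ℂ, X = Sum.elim (fun _ _ => 0) (S.Y (G.N J) w) := ⟨_, rfl⟩
  have g : ∀ x, GI (G.N J) (X x) := by
    rintro (x | q) <;> rw [hX]
    exacts [GI.const _ 0, gi_Y hF hP w q]
  have e : ∀ U, (fun s => pr b (G.N J) (S.Y (G.N J) w) (s ∘ .inr) U) =
      ma S.wd.B fun T => (∏ q ∈ T, X q U) * wil b (G.N J) U := fun U => funext fun s => by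
    have : ∏ q, (1 + s (.inr q) * S.Y (G.N J) w q U) = ∏ x ∈ S.wd.B, (1 + s x * X x U) := by
      rw [Wx.wd, prod_image Sum.inr_injective.injOn, hX]
      rfl
    simp only [pr, comp, this, ma, prod_one_add, mul_sum, prod_mul_distrib, mon, smul_eq_mul]
    exact sum_congr rfl fun _ _ => by ring
  choose C hC using fun T : Finset (Ω × κ ⊕ γ) =>
    ((GI.prod (s := T) fun q _ => g q).mul (gi_wil (b := b) (n := G.N J) (G.N J))).2.1
  have := md_lin (D := S.wd) (a := S.cen) (w := w) (n := G.N J) (r := r)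
    (y := fun x U => -xO (G.N J) (S.src x) U) (c := fun U => wil b (G.N J) U)
    (f' := fun s => pr b (G.N J) (S.Y (G.N J) w) (s ∘ .inr)) (by simp [Wx.wd, disjoint_left])
    (by simp +contextual [Wx.wd, disjoint_left, eq_comm]) Subset.rfl
    ⟨⟨∑ T ∈ S.wd.B.powerset, (∏ i ∈ T, r i) * C T, fun U => e U ▸ (sh_ma hr _ _).mono
      (sum_le_sum fun T _ => mul_le_mul_of_nonneg_left (hC T U) (prod_nonneg fun i _ => (hr i).le))⟩,
      fun s _ => (pr_gi (gi_Y hF hP w) _).1⟩ fun U _ T hT => by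
      rw [e, jd_ma _ hT, mul_comm]
      refine congrArg _ (prod_congr rfl fun x hx => ?_)
      obtain ⟨q, -, rfl⟩ := mem_image.1 (hT hx)
      simp only [hX, Sum.elim_inr, Wx.Y, Wx.wo, Wx.wd, Wx.src, Sum.inr.injEq]
      refine congrArg _ (sum_congr rfl fun ω _ => ?_)
      rw [prod_image fun _ _ _ _ e => by simpa using e]
      rfl
  simpa only [xf_top, mul_neg, sum_neg_distrib, ← xO_sum] using this

end Gl

end Pool.Agent.Lib.MP_7f377f_mp.RG.Q4.En
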