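import Pool.Agent.Lib.MP_7f377f_mp.G.JuK2
import Pool.Agent.Lib.MP_7f377f_mp.G.CaX2a
import Pool.Agent.Lib.MP_7f377f_mp.G.MgX1

/-! Families of data in the norm with the larger weight: the flow. -/

noncomputable section

open Pool.Agent.Lib.MP_7f377f_mp.Jet

set_option linter.unusedSectionVars false
variable [Pool.Agent.Lib.MP_7f377f_mp.GD]

namespace Pool.Agent.Lib.MP_7f377f_mp.RG.Q4.En

open Finset Function Sg Real Pos Mg
open scoped Classical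

attribute [local irreducible] box lbox tb tau rc

variable {ι : Type} [DecidableEq ι]

omit [GD] in
theorem thA_num {q g : ℝ} (c : 1000 ≤ q) (g0 : 0 < g) (e : q ^ 500 * g ≤ 1) :
    q ^ 90 * (g ^ 3 + g * (2 * (q ^ 210)⁻¹) + (2 * (q ^ 210)⁻¹) ^ 2 + ((q ^ 329)⁻¹) ^ 2 +
      g * (q ^ 329)⁻¹) + (q ^ 329)⁻¹ / q ≤ 10 * (q ^ 330)⁻¹ := by
  have q0 : 0 < q := by linarith
  obtain ⟨u, hu⟩ : ∃ u, u = q⁻¹ := ⟨_, rfl⟩
  have u0 : 0 < u := hu ▸ inv_pos.2 q0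
  have u1 : u ≤ 1 := hu ▸ inv_le_one_of_one_le₀ (by linarith)
  have g1 : g ≤ u ^ 500 := by
    rw [hu, inv_pow, ← one_div, le_div_iff₀' (by positivity)]; exact e
  have p : ∀ i, 420 ≤ i → u ^ i ≤ u ^ 420 := fun i hi => pow_le_pow_of_le_one u0.le u1 hi
  have e1 : q ^ 90 * u ^ 420 = u ^ 330 := by rw [hu]; field_simp
  simp only [← inv_pow, ← hu, div_eq_mul_inv]
  calc _ ≤ q ^ 90 * ((u ^ 500) ^ 3 + u ^ 500 * (2 * u ^ 210) + (2 * u ^ 210) ^ 2 + (u ^ 329) ^ 2 +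
        u ^ 500 * u ^ 329) + u ^ 329 * u := by gcongr
    _ = q ^ 90 * (u ^ 1500 + 2 * u ^ 710 + 4 * u ^ 420 + u ^ 658 + u ^ 829) + u ^ 330 := by ring
    _ ≤ q ^ 90 * (u ^ 420 + 2 * u ^ 420 + 4 * u ^ 420 + u ^ 420 + u ^ 420) + u ^ 330 := by
        gcongr q ^ 90 * (?_ + 2 * ?_ + _ + ?_ + ?_) + _ <;> exact p _ (by norm_num)
    _ = 9 * (q ^ 90 * u ^ 420) + u ^ 330 := by ring
    _ = _ := by rw [e1]; ring

/-- separated sources with individual sizes -/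
theorem ML.pu_ind {p : Pa} {n : ℕ} {A : Finset ι} {Z : ι → Finset St} {ψ : (ι → ℂ) → Lx}
    {b c d : ℝ} {s : ι → ℂ} (h : ML n A Z ψ) (h0 : 0 < p.ρ) (hc : Cls n d A id Z) (hd : 0 < d)
    (a : PU p b (ψ 0)) (c0 : 0 ≤ c) (a' : ∀ i ∈ A, ∃ N, ‖s i‖ * N ≤ c ∧ PU p N (jL {i} ψ)) :
    PU p (b + c) (ψ s) := by
  choose! N e1 e2 using a'
  have N0 : ∀ i ∈ A, 0 ≤ N i := fun i hi => (e2 i hi).nonneg h0.le
  refine ⟨(h.pu_one h0 hc hd a (b' := ∑ i ∈ A, N i) (σ := ∑ i ∈ A, ‖s i‖)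
    (fun i hi => pu_mono (e2 i hi) (single_le_sum N0 hi))
    (mul_nonneg (sum_nonneg fun _ _ => norm_nonneg _) (sum_nonneg N0))
    fun i hi => single_le_sum (f := fun i => ‖s i‖) (fun _ _ => norm_nonneg _) hi).1,
    fun v B h1 h2 => ?_⟩
  rcases h.one hc hd v with e | ⟨i, hi, -, e⟩ <;> rw [e]
  · exact (a.2 v B h1 h2).trans (by linarith)
  · exact norm_add_le_of_le (a.2 v B h1 h2)
      ((norm_mul_le_of_le le_rfl ((e2 i hi).2 v B h1 h2)).trans (e1 i hi))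

namespace Gl

/-- one majorant in the stronger norm on the polydisc -/
def KA (G : Gl) (a k : ℕ) (r : ι → ℝ) (θ : ℝ) (K : (ι → ℂ) → Ac) : Prop :=
  ∃ m, kN (G.pA a k) (G.N k) m θ ∧ ∀ s ∈ Pd r, KM (G.p k) (G.N k) m (K s)

/-- separated letters with the radii `r k` between the levels `i` and `l` of a run, in the stronger
norm -/
structure FwA (G : Gl) (a : ℕ) (A : Finset ι) (b : ℝ) (J i l : ℕ) (r0 : ι → ℝ) (r : ℕ → ι → ℝ)
    (m : ℕ → ℕ) (ρ : ℕ → ℝ) (Y : Fy ι) : Prop where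
  big : ∀ k, l ≤ k → G.Big a k
  sz : ∀ k, l ≤ k → k ≤ i → ∀ x ∈ A, ∃ N, r k x * N ≤ (G.QA a k ^ 211)⁻¹ ∧
    PU (G.p k) N (G.tn b J (Y.jt {x}) i k).1
  sep : ∀ k, l ≤ k → k ≤ i → Cls (G.N k) ((m k + 2) * (G.p k).D) A id fun a => G.zs (Y.Z a) i k
  rad : ∀ k, l ≤ k → k ≤ i → 1 ≤ m k ∧ 0 ≤ ρ k ∧ log (1 + ρ k) ≤ m k ∧
    10 * (1 + ρ k) ≤ G.QA a k ∧ ∀ x, r0 x ≤ r k x ∧ (k < i → r k x ≤ ρ k * r (k + 1) x)

variable {G : Gl} {A : Finset ι} {b θ θ' d ρ : ℝ} {a J i j k l m : ℕ} {z : Z} {Y : Fy ι}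
  {r r' r0 : ι → ℝ} {f : (ι → ℂ) → Conf → ℂ} {K : (ι → ℂ) → Ac}

theorem KA.mono (e : G.KA a k r θ K) (h1 : ∀ x, r' x ≤ r x) (h2 : θ ≤ θ') : G.KA a k r' θ' K :=
  e.imp fun _ u => ⟨u.1.mono h2, fun s hs => u.2 s fun i => (hs i).trans_le (h1 i)⟩

/-- a larger polydisc on which the activities are small -/
theorem Fd.rad (e : G.Fd k z A r0 r θ Y f) (hr : ∀ x, 0 < r' x) (u : G.KA a k r' θ' Y.K) :
    G.Fd k z A r0 r' θ' Y f :=
  ⟨⟨hr, e.fi.psi, e.fi.act, e.fi.pu, e.fi.loc, u.imp fun _ v => ⟨kN_pA v.1, v.2⟩⟩, e.ma, e.eq⟩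

namespace Ok

variable (h : G.Ok)
include h

theorem QA0 (a k : ℕ) : 0 < G.QA a k := (h.Q0 k).trans_le (h.QA_ge a k)

theorem QA1 (a k : ℕ) : 1000 ≤ G.QA a k := (h.cQ k (by norm_num)).trans (h.QA_ge a k)

theorem QA_up (a : ℕ) (e : k ≤ j) (C : ℕ) : (G.QA a j ^ C)⁻¹ ≤ (G.QA a k ^ C)⁻¹ :=
  inv_anti₀ (pow_pos (h.QA0 a k) _) (pow_le_pow_left₀ (h.QA0 a k).le
    (pow_le_pow_left₀ (Nat.cast_nonneg _) (Nat.cast_le.2 (h.L_mono e)) _) _)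

theorem QA_inv (a k C : ℕ) : (G.QA a k ^ C)⁻¹ ≤ (G.Q k ^ C)⁻¹ :=
  inv_anti₀ (pow_pos (h.Q0 k) _) (pow_le_pow_left₀ (h.Q0 k).le (h.QA_ge a k) _)

theorem QA_sm (a k : ℕ) {i : ℕ} {C : ℝ} (hi : 100 < i) (hC : C ≤ 1000) :
    G.QA a k ^ 100 * (C * (G.QA a k ^ i)⁻¹) ≤ 1 := by
  have q := h.QA0 a k
  have q1 := h.QA1 a k
  rw [← mul_assoc, ← div_eq_mul_inv, div_le_one (pow_pos q _)]
  calc _ ≤ G.QA a k ^ 100 * G.QA a k := by gcongr; linarith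
    _ = G.QA a k ^ 101 := by ring
    _ ≤ _ := pow_le_pow_right₀ (by linarith) hi

/-- truncation of a local family -/
theorem trK_KA {ψ : (ι → ℂ) → Lx} {Z : ι → Finset St} {k0 : Mj} (fa : FA r (G.p k) (G.N k) k0 K)
    (l : Loc (G.N k) Z ψ K) (k1 : kN (G.pA a k).up (G.N k) k0 θ) (hc : Cls (G.N k) d A id Z)
    (hm : (m + 2 : ℝ) * (G.p k).D ≤ d) (ρ0 : 0 ≤ ρ) (hρ : log (1 + ρ) ≤ m) (hr : ∀ x, 0 < r' x)
    (h1 : ∀ x, r' x ≤ ρ * r x) : G.KA a k r' ((1 + ρ) * θ) (trK A K) := by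
  have k3 := kN_tch' (p := G.pA a k) (q := 1) (δ := 1) (ρ := 1 + ρ) (h.ps0 k).D hc hm id_card
    (by linarith) (by simpa using hρ) zero_le_one k1
  rw [pow_one] at k3
  refine ⟨_, k3, (fa.trK (D := fun X _ => tch A Z X) (fun X c T hT w => ?_) hr h1).km⟩
  obtain ⟨i, w1, w2⟩ := not_subset.1 w
  exact funext fun U => l.jdA w1 (by_contra fun a => w2 (mem_tch.2 ⟨hT w1, a⟩)) c U

/-- one step in the stronger norm, with a large growth of the radii -/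
theorem famA (t : G.Ad J k z) (sa : (G.sd k z).StA) (big : G.Big a k)
    (e : G.Fd (k + 1) z A r0 r θ Y f) (u : G.KA a (k + 1) r (G.QA a k ^ 329)⁻¹ Y.K)
    (h0 : ∀ x, r0 x ≤ r x) (pu : ∀ s ∈ Pd r, PU (G.p (k + 1)) (2 * (G.QA a k ^ 210)⁻¹) (Y.ψ s))
    (hc : Cls (G.N k) d A id (G.fs A k z Y).Z) (hm : (m + 2 : ℝ) * (G.p k).D ≤ d) (m1 : 1 ≤ m)
    (ρ0 : 0 ≤ ρ) (hρ : log (1 + ρ) ≤ m) (hr : ∀ x, 0 < r' x) (h1 : ∀ x, r' x ≤ ρ * r x) :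
    G.Fd k (G.nx k z) A r0 r' ((1 + ρ) * (10 * (G.QA a k ^ 330)⁻¹)) (G.fs A k z Y)
      (fun s => TT (G.l k) (G.a k) (G.N k) (f s)) ∧
      G.KA a k r' ((1 + ρ) * (10 * (G.QA a k ^ 330)⁻¹)) (G.fs A k z Y).K := by
  have q := h.QA0 a k
  have nu := (h.sd_all k z).nu
  have n2 := h.nuA big z
  have st := h.st2 t.tz
  have b1 := h.QA_sm a k (i := 210) (C := 2) (by norm_num) (by norm_num)
  have b2 := h.QA_sm a k (i := 329) (C := 1) (by norm_num) (by norm_num)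
  rw [one_mul] at b2
  have Q1 : G.Q k ^ 100 ≤ G.QA a k ^ 100 := pow_le_pow_left₀ (h.Q0 k).le (h.QA_ge a k) _
  have c1 := (mul_le_mul_of_nonneg_right Q1 (by positivity)).trans b1
  have c2 := (mul_le_mul_of_nonneg_right Q1 (by positivity)).trans b2
  have e' := e.rad e.fi.pos u
  have F := h.fi_sd e'.fi z
  obtain ⟨k0, k1, k2⟩ := u
  rw [← h.sd_nf k z] at k1 k2
  obtain ⟨k', a1, a2⟩ := sa a n2 _ _ k0 b1 b2 (by positivity) k1
  have sm : ∀ s ∈ Pd r, (G.sd k z).Sml (2 * (G.QA a k ^ 210)⁻¹) (G.QA a k ^ 329)⁻¹ k0 (Y.ψ s)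
      (Y.K s) := fun s hs => ⟨c1, c2, pu s hs, k2 s hs, Q4.kN_pA k1⟩
  have fa := fa_KK st F.pos (F.sl r) (F.sa r) sm fun ψ K v => a2 ψ K v.pu v.km
  have v : G.KA a k r' ((1 + ρ) * (10 * (G.QA a k ^ 330)⁻¹)) (G.fs A k z Y).K :=
    h.trK_KA fa (F.loc.step nu) (a1.mono (thA_num (h.QA1 a k) n2.ok.g0 n2.ok.Qg)) hc hm ρ0 hρ hr h1
  exact ⟨(h.fam1 (c := 1) (ρ := 1) t e' h0 pu c1 c2 hc hm id_card zero_le_one (by simpa using m1)
    e'.fi.pos fun _ => (one_mul _).ge).rad hr v, v⟩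

theorem ad1 (t : G.Tu1 b J) (hp : G.Pu) (hk : k < J) : G.Ad J k (G.zz b J (k + 1)) :=
  ⟨(t.gd _ hk).tz, hk, t.v20 h _ hk, (t.lam k hk).1, hp k _ (h.tok_sd (t.gd _ hk).tz)⟩

theorem QAg (big : G.Big a k) : G.QA a k ^ 500 * G.g k ≤ 1 := (h.nuA big (G.top0 0 0)).ok.Qg'

/-- the local terms of the run -/
theorem pu_run (t : G.Tu1 b J) (hk : k ≤ J) (big : G.Big a k) :
    PU (G.p k) (G.QA a k ^ 211)⁻¹ (G.zz b J k).ψ := by
  have q := h.QA0 a k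
  have q1 := h.QA1 a k
  have g0 := h.g0 k
  refine pu_mono (h.sz_pu (t.gd k hk).dt.sz ((mul_le_mul_of_nonneg_right (pow_le_pow_right₀ (h.Q1 k)
    (by norm_num)) (sqrt_nonneg _)).trans (h.Qsg k))) ?_
  rw [← one_div, le_div_iff₀ (pow_pos q _)]
  have := h.QA_ge a k
  have := h.Q0 k
  calc _ ≤ G.QA a k ^ 10 * G.QA a k * G.g k ^ 2 * G.QA a k ^ 211 := by gcongr; linarith
    _ = G.QA a k ^ 222 * G.g k * G.g k := by ring
    _ ≤ G.QA a k ^ 500 * G.g k * 1 := by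
        gcongr
        exacts [by linarith, by norm_num, h.g1 k]
    _ ≤ 1 := by rw [mul_one]; exact h.QAg big

/-- the large field activities at the top -/
theorem kI_pA (big : G.Big a J) : kN (G.pA a J).up (G.N J) (kI (G.p J) (G.N J) (G.bb J / 4))
    (G.g J ^ 31) := by
  have nu := (h.sl_all J (G.top0 0 0)).nu
  have n2 := h.nu_wK big nu rfl rfl rfl rfl
  have l0 : 0 ≤ 2 * a * log (G.L J) := mul_nonneg (by positivity) (log_natCast_nonneg _)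
  have a2 := nu.kI_sum le_rfl (s := 2 * a * log (G.L J) + 1) (j := 30) (by positivity) (by
    have c1 := n2.logQ_le
    have c2 := n2.logQ_ge
    have c3 := nu.r_le_Q
    have c4 : (G.L J : ℝ) ^ a ≤ ((G.sl J (G.top0 0 0)).wK a).Q :=
      Sd.pw (G.sl J (G.top0 0 0)).toTd (Nat.le_add_left _ _)
    have c5 := log_le_log (by have := h.L1 J; positivity) c4
    rw [log_pow] at c5
    change _ ≤ ((G.sl J (G.top0 0 0)).r : ℝ) at c1
    norm_num at c1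
    linarith) le_rfl
  rw [h.sl_nf] at a2
  exact kN.mono (p := ((G.p J).ad _).ad 1) (by rw [Mg.ad_ad]; exact a2) le_rfl

/-- separated sources at the top -/
theorem xt_KA {F : ι → Sx} {W : ι → Finset St} {c : ℕ} (hb : |b / G.bb J - 1| ≤ 10⁻¹)
    (big : G.Big a J) (hd : c ≤ (G.p J).R) (hr : ∀ x, 0 < r x) (hZ : ∀ i, (F i).In (G.N J) (W i))
    (hF : ∀ i ∈ A, ∃ a M, (F i).Ok (G.p J) c a M ∧ r i * a ≤ G.bb J / 4 ∧ r i * M ≤ 1)
    (hc : Cls (G.N J) d A id W) (hδ : 3 * (G.p J).D ≤ d) :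
    G.KA a J r (G.QA a J ^ 329)⁻¹ (G.xt A F W b J).K := by
  have nu := (h.sl_all J (G.top b J)).nu
  have n := h.sl_nf J (G.top b J)
  have g0 := h.g0 J
  have q := h.QA0 a J
  have q1 := h.QA1 a J
  have D0 := h.D_pos J
  have u := fun s => ok_sum (s := s) (h.ρ0 J) hc (by linarith) (fun i _ => hZ i)
    (by linarith [h.b0 J]) zero_le_one hF
  refine (h.trK_KA (m := 1) (ρ := 1) ⟨hr, fun s hs i X c U => (hb_xK hr X c U).choose_spec.hol s hs i,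
    fun s hs => n ▸ xK_km nu hd (h.b34 hb) (u s hs).pl (u s hs).lt (u s hs).bd⟩
    (xK_lc (h.N_odd J) hZ) (h.kI_pA big) hc (by norm_num; exact hδ) zero_le_one (by
      rw [one_add_one_eq_two, Nat.cast_one]; linarith [log_two_lt_d9]) hr
    fun _ => (one_mul _).ge).mono (fun _ => le_rfl) ?_
  rw [← one_div, le_div_iff₀ (pow_pos q _)]
  calc _ ≤ G.QA a J * G.g J ^ 1 * G.QA a J ^ 329 := by
        gcongr ?_ * ?_ * _
        exacts [by linarith, pow_le_pow_of_le_one g0.le (h.g1 J) (by norm_num)]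
    _ = G.QA a J ^ 330 * G.g J := by ring
    _ ≤ G.QA a J ^ 500 * G.g J := by
        gcongr
        exacts [by linarith, by norm_num]
    _ ≤ 1 := h.QAg big

/-- separated letters with quickly growing radii -/
theorem chainA {r : ℕ → ι → ℝ} {m : ℕ → ℕ} {ρ : ℕ → ℝ} (t : G.Tu1 b J) (hp : G.Pu)
    (ha : G.HP Sd.StA) (hi : i ≤ J) (w : G.FwA a A b J i l r0 r m ρ Y)
    (e : G.Fd i (G.zz b J i) A r0 (r i) θ Y f) (u : G.KA a i (r i) (G.QA a i ^ 329)⁻¹ Y.K)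
    (e1 : Y.bs = (G.zz b J i).d) (e3 : Y.Ec A id) : ∀ k ≤ i, l ≤ k →
      G.Fd k (G.zz b J k) A r0 (r k) (G.QA a k ^ 329)⁻¹ (G.fw A b J Y i k)
        (fun s => G.tt (f s) i k) ∧
      G.KA a k (r k) (G.QA a k ^ 329)⁻¹ (G.fw A b J Y i k).K ∧
      (G.fw A b J Y i k).bs = (G.zz b J k).d ∧
      (∀ x ∈ A, (G.fw A b J Y i k).jt {x} = G.tn b J (Y.jt {x}) i k) ∧ (G.fw A b J Y i k).Ec A id ∧
      ∀ s ∈ Pd (r k), PU (G.p k) (2 * (G.QA a k ^ 211)⁻¹) ((G.fw A b J Y i k).ψ s) := by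
  have D : ∀ k, (0 : ℝ) < (m k + 2) * (G.p k).D := fun k => by have := h.D_pos k; positivity
  have c : ∀ k, l ≤ k → k ≤ i → Cls (G.N k) ((m k + 2) * (G.p k).D) A id (G.fw A b J Y i k).Z :=
    fun k a b => by rw [fw_Z k b]; exact w.sep k a b
  have S : ∀ k ≤ i, l ≤ k → ∀ {f θ}, G.Fd k (G.zz b J k) A r0 (r k) θ
      (G.fw A b J Y i k) f → (G.fw A b J Y i k).bs = (G.zz b J k).d →
      (∀ x ∈ A, (G.fw A b J Y i k).jt {x} = G.tn b J (Y.jt {x}) i k) → ∀ s ∈ Pd (r k),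
        PU (G.p k) (2 * (G.QA a k ^ 211)⁻¹) ((G.fw A b J Y i k).ψ s) :=
    fun k a1 a2 _ _ a3 a4 a5 s hs => two_mul (G.QA a k ^ 211)⁻¹ ▸ a3.fi.ml.pu_ind (h.ρ0 k)
      (c k a2 a1) (D k) ((show _ = (G.zz b J k).ψ from congrArg Prod.fst a4).symm ▸ h.pu_run t (a1.trans hi)
        (w.big k a2) : PU _ _ (G.fw A b J Y i k).bs.1)
      (inv_pos.2 (pow_pos (h.QA0 a k) _)).le fun x hx => (w.sz k a2 a1 x hx).imp fun _ v =>
        ⟨(mul_le_mul_of_nonneg_right (hs x).le (v.2.nonneg (h.ρ0 k).le)).trans v.1,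
          (a5 x hx ▸ v.2 : PU _ _ ((G.fw A b J Y i k).jt {x}).1)⟩
  refine dw_ind (fun a' => ?_) fun k hk ih a' => ?_
  · have e' : G.Fd i (G.zz b J i) A r0 (r i) (G.QA a i ^ 329)⁻¹ (G.fw A b J Y i i)
        fun s => G.tt (f s) i i := by simpa only [fw_top, tt_top] using e.rad e.fi.pos u
    have e2 : ∀ x ∈ A, (G.fw A b J Y i i).jt {x} = G.tn b J (Y.jt {x}) i i := by
      simp only [fw_top, Gl.tn_top, implies_true]
    exact ⟨e', by rwa [fw_top], by rwa [fw_top], e2, by rwa [fw_top],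
      S i le_rfl a' e' (by rwa [fw_top]) e2⟩
  obtain ⟨c1, c0, c2, c3, c4, c5⟩ := ih (by omega)
  obtain ⟨m1, m2, m3, m4, m5⟩ := w.rad k a' hk.le
  have kJ := hk.trans_le hi
  have ad := h.ad1 t hp kJ
  have cl := c k a' hk.le
  have q := h.QA0 a k
  have p : ∀ x, 0 < r k x := fun x => (e.eq.fst.pos x).trans_le (m5 x).1
  rw [fw_step hk] at cl
  obtain ⟨a1, a0⟩ := h.famA ad (h.hp_sd ha ad.tz) (w.big k a') c1
    (c0.mono (fun _ => le_rfl) (h.QA_up a k.le_succ _))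
    (fun x => ((w.rad _ (by omega) hk).2.2.2.2 x).1) (fun s hs => pu_mono (c5 s hs)
      (mul_le_mul_of_nonneg_left ((h.QA_up a k.le_succ _).trans (inv_anti₀ (pow_pos q _)
        (pow_le_pow_right₀ (by linarith [h.QA1 a k]) (by norm_num)))) zero_le_two))
    cl le_rfl m1 m2 m3 p fun x => (m5 x).2 hk
  have n : (1 + ρ k) * (10 * (G.QA a k ^ 330)⁻¹) ≤ (G.QA a k ^ 329)⁻¹ := by
    rw [← mul_assoc, mul_comm _ 10]
    exact (mul_le_mul_of_nonneg_right m4 (by positivity)).trans_eq (by field_simp)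
  have a2 : (G.fw A b J Y i k).bs = (G.zz b J k).d := by
    rw [fw_step hk, fs_bs, c2, zz_step b kJ]; rfl
  have a3 : ∀ x ∈ A, (G.fw A b J Y i k).jt {x} = G.tn b J (Y.jt {x}) i k := fun x hx => by
    rw [fw_step hk, h.fs_jt ad.tz c1.fi hx, c2, c3 x hx, Gl.tn_step hk]; rfl
  have a4 := h.fs_ec ad.pu c1 c4 cl (D k)
  simp only [← tt_step _ hk, ← zz_step b kJ, ← fw_step hk] at a0 a1 a4
  exact ⟨a1.mono p (fun _ => le_rfl) n, a0.mono (fun _ => le_rfl) n, a2, a3, a4,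
    S k hk.le a' a1 a2 a3⟩

end Ok

end Gl

end Pool.Agent.Lib.MP_7f377f_mp.RG.Q4.En
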