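import Pool.Agent.Lib.MP_7f377f_mp.G.JuI
import Pool.Agent.Lib.MP_7f377f_mp.G.JsS
import Pool.Agent.Lib.MP_7f377f_mp.G.JvA

/-! Point insertions and families of letters at the base points of a sharp hybrid. -/

noncomputable section

set_option linter.unusedSectionVars false

namespace Pool.Agent.Lib.MP_7f377f_mp.Cok

open Finset

variable {𝕜 V E β : Type} [NontriviallyNormedField 𝕜] [AddCommGroup V] [Module 𝕜 V]
  [NormedAddCommGroup E] [NormedSpace 𝕜 E] [Fintype β] [DecidableEq β] {j J j' J' i : ℕ}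
  {P P' : ℕ → V → ℝ → Prop} {q q' : ℕ → V → E} {T T' : ℕ → V → V} {A A' : ℕ → E →ₗ[𝕜] E}
  {W : Submodule 𝕜 E} {a lam η a' lam' η' g : ℕ → ℝ} {M M' x : ℝ} {τ : β → V} {v : V}

/-- crude growth along the flow -/
theorem Co.grow (h : Co j J P q T A W a lam η) (hA : ∀ k, j ≤ k → k < J → (∀ e, ‖A k e‖ ≤ a' k * ‖e‖) ∧
      0 ≤ a' k ∧ 0 < g k ∧ 2 * lam k ≤ g k ∧ a' k + 2 * η k ≤ g k) (hi : i ≤ J) (x0 : 0 < x)
    (h1 : P i v x) (h2 : ‖q i v‖ ≤ x) : ∀ k, j ≤ k → k ≤ i →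
      0 < (∏ n ∈ Ico k i, g n) * x ∧ P k (fw T v i k) ((∏ n ∈ Ico k i, g n) * x) ∧
        ‖q k (fw T v i k)‖ ≤ (∏ n ∈ Ico k i, g n) * x := by
  refine down (by simpa [fw_top] using ⟨x0, h1, h2⟩) fun k a1 a2 ⟨c0, c1, c2⟩ => ?_
  obtain ⟨b1, b2, b3, b4, b5⟩ := hA k a1 (a2.trans_le hi)
  rw [fw_step _ _ a2, prod_eq_prod_Ico_succ_bot a2, mul_assoc]
  generalize (∏ n ∈ Ico (k + 1) i, g n) * x = s at *
  obtain ⟨d1, d2⟩ := h.step k _ _ _ a1 (a2.trans_le hi) c1 c2 (by linarith)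
  refine ⟨mul_pos b3 c0, h.mono _ _ _ _ d1 (by nlinarith), ?_⟩
  have := (norm_le_insert' _ _).trans (add_le_add ((b1 _).trans
    (mul_le_mul_of_nonneg_left c2 b2)) d2)
  nlinarith

/-- the states of a frame at the level `i` are a frame for a calculus with nearby symbols -/
theorem Fm.near (F : Fm j' J' P' q' T' A' W a' lam' η' τ M') (h1 : j' ≤ i) (h2 : i ≤ J')
    (h : Co j i P q T A W a lam η) (hj : j ≤ i) (M1 : 1 ≤ M)
    (e : ∀ u x, P' i u (M' * x) → ‖q' i u‖ ≤ x → P i u (M / 2 * x) ∧ ‖q i u - q' i u‖ ≤ x / 2)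
    (n : ∀ k, j ≤ k → k < i → 8 * (a k * lam k) ≤ 1 ∧ 200 * M * (a k * η k) ≤ 1) :
    Fm j i P q T A W a lam η (fun b => st T' τ J' i (Pi.single b (1 : 𝕜))) M ∧
      ∀ c : β → 𝕜, ∑ b, c b • st T' τ J' i (Pi.single b (1 : 𝕜)) = st T' τ J' i c := by
  have sl : ∀ c : β → 𝕜, ∑ b, c b • st T' τ J' i (Pi.single b (1 : 𝕜)) = st T' τ J' i c := fun c => by
    have : ∀ s : Finset β, ∑ b ∈ s, c b • st T' τ J' i (Pi.single b (1 : 𝕜)) =
        st T' τ J' i (∑ b ∈ s, c b • (Pi.single b 1 : β → 𝕜)) := fun s => by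
      induction s using Finset.cons_induction with
      | empty => simpa using (F.st_zero h1 h2).symm
      | cons b s hb ih => rw [sum_cons, sum_cons, add_comm, ih, ← F.st_lin _ _ _ h1 h2, add_comm]
    rw [this, ← pi_eq_sum_univ']
  have e1 := fun c => e _ _ (F.cone c h1 h2).2.1 le_rfl
  choose y hy using fun b => (⟨_, (e1 (Pi.single b 1)).1⟩ : ∃ y, P i _ y)
  have sq : ∀ c : β → 𝕜, ∑ b, c b • q i (st T' τ J' i (Pi.single b (1 : 𝕜))) =
      q i (st T' τ J' i c) := fun c => by rw [← (h.sum univ c _ y hy).2, sl]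
  have lo : ∀ c : β → 𝕜, ‖q' i (st T' τ J' i c)‖ ≤ 2 * ‖q i (st T' τ J' i c)‖ := fun c => by
    linarith [(e1 c).2, norm_le_insert (q i (st T' τ J' i c)) (q' i (st T' τ J' i c))]
  have inj : ∀ c : β → 𝕜, q i (st T' τ J' i c) = 0 → c = 0 := fun c z => by_contra fun c0 =>
    (F.cone c h1 h2).1 c0 (norm_le_zero_iff.1 (by simpa [z] using lo c))
  refine ⟨⟨h, hj, M1, fun b => ⟨_, hy b⟩, fun c => ?_, fun c z => inj c (sq c ▸ z), fun x hx => ?_,
    n⟩, sl⟩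
  · rw [sl, sq]
    exact h.mono _ _ _ _ (e1 c).1 (by nlinarith [lo c])
  · let L : (β → 𝕜) →ₗ[𝕜] W := (Fintype.linearCombination 𝕜
      fun b => q i (st T' τ J' i (Pi.single b (1 : 𝕜)))).codRestrict W fun c => by
        rw [Fintype.linearCombination_apply, sq]
        exact h.mem _ _ _ (e1 c).1
    have a : Function.Injective ((F.eqv h1 h2).symm.toLinearMap ∘ₗ L) :=
      (F.eqv h1 h2).symm.injective.comp ((injective_iff_map_eq_zero _).2 fun c z => inj c (by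
        simpa [L, Fintype.linearCombination_apply, sq] using congrArg Subtype.val z))
    obtain ⟨c, hc⟩ := LinearMap.injective_iff_surjective.1 a ((F.eqv h1 h2).symm ⟨x, hx⟩)
    have := congrArg Subtype.val ((F.eqv h1 h2).symm.injective hc)
    exact ⟨c, by simpa [L, Fintype.linearCombination_apply] using this⟩

end Pool.Agent.Lib.MP_7f377f_mp.Cok

open Pool.Agent.Lib.MP_7f377f_mp.Jet

variable [Pool.Agent.Lib.MP_7f377f_mp.GD]

namespace Pool.Agent.Lib.MP_7f377f_mp.RG.Q4.En.Gl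

open Finset Real Cok Pos Sg
open scoped Classical

variable (G : Gl)

/-- the tangent flow along the base points `H` -/
def tH (b : ℝ) (J : ℕ) (H : ℕ → Lx × Ac) (v : Lx × Ac) (i k : ℕ) : Lx × Ac :=
  dw (fun k => G.ts k (G.zz b J (k + 1)) (H (k + 1))) v i k

/-- the step on tagged states at these base points -/
def jH (D : ℕ) (c : ℕ → St) (b : ℝ) (J : ℕ) (H : ℕ → Lx × Ac) (k : ℕ) (u : Jv) : Jv :=
  (G.ag D c (k + 1)).T (G.aA D) G.aB (G.sd k (G.zz b J (k + 1))) (H (k + 1)).1 (H (k + 1)).2 u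

variable {G} {E : Type} [NormedAddCommGroup E] [NormedSpace ℂ E] {D J J' a' a1 i j j' k l : ℕ}
  {c : ℕ → St} {b b' x y τ ε N N' : ℝ} {ω ω' C a lam η w : ℕ → ℝ} {W : Submodule ℂ E}
  {σ σ' : ℕ → (Fld → ℂ) → E} {ev ev' : ℕ → E → Fld → ℂ} {A : ℕ → E →ₗ[ℂ] E} {u : Jv}
  {H : ℕ → Lx × Ac} {v : Lx × Ac}

theorem tH_top : G.tH b J H v i i = v := dw_top ..

theorem tH_step (hk : k < i) :
    G.tH b J H v i k = G.ts k (G.zz b J (k + 1)) (H (k + 1)) (G.tH b J H v i (k + 1)) :=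
  dw_step _ _ hk

theorem jH_eq (u : Jv) : G.jH D c b J H k u =
    G.jT D c b J k u + (0, 0, 0, (G.jH D c b J H k u).2.2.2 - (G.jT D c b J k u).2.2.2) :=
  Prod.ext (add_zero _).symm (Prod.ext (add_zero _).symm (Prod.ext (add_zero _).symm
    (add_sub_cancel _ _).symm))

theorem Hb.down (B : G.Hb a1 τ b J i j H) (h : G.Ok) (e : a' ≤ a1) (e' : j ≤ l) :
    G.Hb a' τ b J i l H := by
  have L1 := h.L1
  refine ⟨B.le, B.t0, fun k a b => ?_, B.hs, fun k a => B.pu k (e'.trans a), fun k a b => ?_,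
    fun k a => B.df k (e'.trans a)⟩
  · obtain ⟨⟨c1, c2⟩, c3, c4⟩ := B.nm k (e'.trans a) b
    refine ⟨⟨by omega, (Nat.pow_le_pow_right (Nat.pow_pos (Nat.log_pos (by norm_num)
      (by have := h.L_big k; omega))) (by omega)).trans c2⟩, c3, le_trans ?_ c4⟩
    have := B.t0
    have := L1 k
    unfold QA
    gcongr
    linarith
  · refine (B.ka k (e'.trans a) b).imp fun m q => ⟨q.1, ?_⟩
    have := q.2
    rw [pA, ← Mg.ad_one, Mg.ad_ad] at this ⊢
    exact Mg.kN_drop this (add_le_add_left (mul_le_mul_of_nonneg_right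
      (by exact_mod_cast Nat.mul_le_mul_left 2 e) (log_natCast_nonneg _)) _)

/-- the tangent step in the stronger norm -/
theorem Hb.tan (B : G.Hb a' τ b J i j H) (h : G.Ok) (hp : G.HP Sd.StA) (t : G.Tu1 b J) (h1 : j ≤ k)
    (h2 : k < i) : Rm (G.sd k (G.zz b J (k + 1))) (H (k + 1)).1 (H (k + 1)).2 ∧
      ∀ x y m, 0 < x → kN (G.pA a' (k + 1)) (G.N (k + 1)) m y →
        ∃ m', kN (G.pA a' k) (G.N k) m' (6 * (τ * x + y) / G.QA a' k) ∧
          ∀ d : Lx × Ac, PU (G.p (k + 1)) x d.1 → KM (G.p (k + 1)) (G.N (k + 1)) m d.2 →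
            KM (G.p k) (G.N k) m' (G.ts k (G.zz b J (k + 1)) (H (k + 1)) d).2 := by
  obtain ⟨m, m1, m2⟩ := B.ka (k + 1) (by omega) h2
  have tz := (t.gd (k + 1) (h2.trans_le B.le)).tz
  have n2 := h.nuA (B.nm k h1 h2.le).1 (G.zz b J (k + 1))
  have a1 := (B.nm (k + 1) (by omega) h2).2.1
  have a2 := (B.nm k h1 h2.le).2.2
  have pu := B.pu (k + 1) (by omega) h2
  rw [← h.sd_nf k (G.zz b J (k + 1))] at m1 m2 ⊢
  refine ⟨(baseB n2 a1 a2 B.t0 (h.hp_sd hp tz) pu m1 (kN_up m2)).1, fun x y m' x0 jn => ?_⟩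
  obtain ⟨m', b1, b2⟩ := tanB n2 a1 a2 B.t0 (h.sd_all k _).nu (h.st2 tz) (h.hp_sd hp tz)
    (kN_up m2) x0 jn
  exact ⟨m', kN_up b1, fun d d1 d2 => b2 _ _ _ _ pu m1 d1 d2⟩

/-- change of the calculus -/
theorem Ok.jP_chg (h : G.Ok) (s : Sy1 (G.lR k) (60 * (G.p k).ρ) (G.lH D k) N W (σ k) (ev k))
    (s' : Sy1 (G.lR k) (60 * (G.p k).ρ) (G.lH D k) N' W (σ' k) (ev' k)) (N0 : 0 ≤ N) (N1 : 0 ≤ N')
    (ε0 : 0 ≤ ε) (e : ∀ φ M, Tbw (G.lR k) (60 * (G.p k).ρ) (G.lH D k) M φ → ‖σ k φ - σ' k φ‖ ≤ ε * M)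
    (H : G.jP D c σ' ev' k u y) (hx : ‖σ' k u.2.2.1‖ ≤ x) :
    G.jP D c σ ev k u (y + N' * x + N * (x + ε * (y + N' * x))) ∧
      ‖σ k u.2.2.1 - σ' k u.2.2.1‖ ≤ ε * (y + N' * x) := by
  have o := h.ag_ok D c k
  have a := Ag.P.last (h.sy (D := D) (c := c) s') H hx N1
  have a' := h.ag_R D c k ▸ a
  have q := e _ _ a'
  have m := (s.bd _ _ a' H.z).1
  have y0 := H.nn o
  have x0 := (norm_nonneg _).trans hx
  have q1 : ‖σ k u.2.2.1‖ ≤ x + ε * (y + N' * x) :=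
    (norm_le_insert' _ _).trans (add_le_add hx q)
  have le : y ≤ y + N' * x + N * (x + ε * (y + N' * x)) := by
    have : 0 ≤ N' * x + N * (x + ε * (y + N' * x)) := by positivity
    linarith
  have H' := H.mono o le
  refine ⟨⟨H'.f, H'.g, H.z, H.bd, H.tb, ?_, H'.K, H.s⟩, q⟩
  have := (a'.add ((s.ev _ m).smul (-1))).mono le_rfl le_rfl le_rfl
    (M' := y + N' * x + N * (x + ε * (y + N' * x))) (by
      rw [norm_neg, norm_one, one_mul]; gcongr)
  rw [neg_one_smul, ← sub_eq_add_neg] at this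
  exact (h.ag_R D c k).symm ▸ this

namespace Pt

variable (P : G.Pt D c b J j ω W σ ev A C a lam η) (B : G.Hb (D + 7) τ b J i j H)
  (hτ : τ * G.jW D i ≤ 1)
include P B hτ

theorem fitH (h1 : j ≤ k) (h2 : k < i) : (G.ag D c (k + 1)).Fit (G.aA D) G.aB (G.ag D c k)
    (G.sd k (G.zz b J (k + 1))) (H (k + 1)).1 (H (k + 1)).2 (C (k + 1)) (C k) (G.eD D k) := by
  have h := P.ok
  have h3 := h2.trans_le B.le
  have F := h.fit' P.hp P.t P.R P.e P.tr P.s h1 h3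
  obtain ⟨r, q⟩ := B.tan h P.hp P.t h1 h2
  have L1 := h.L1 k
  have L2 : (1 : ℝ) ≤ G.L k := by linarith
  have t0 := B.t0
  have ab : 100 * (G.aA D + G.aB + 4 : ℝ) ≤ G.L k := by
    exact_mod_cast (Nat.le_add_left _ _).trans (P.e k h1).2.2
  have L3 : (G.L (k + 1) : ℝ) ≤ 3 * G.L k := by exact_mod_cast h.L_succ k
  have C1 := F.C1
  have C3 : 100 * C (k + 1) ≤ G.L (k + 1) :=
    le_trans (by nlinarith only [C1]) (P.s.C1 (k + 1) (by omega) h3)
  have a : τ * (G.L k : ℝ) ^ ((D + 7) * (G.aA D + G.aB + 3)) ≤ 1 := le_trans (by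
    unfold jW; gcongr; exact h.L_mono h2.le) hτ
  refine ⟨F.n, F.n', F.p, F.p', F.c, F.ok, F.ok', F.pu, F.nu, F.st, r, F.hs, F.hl, F.hu, F.hb, F.hr,
    F.Rs, F.Rl, F.d0, F.ds, F.W, F.C1, F.C1', F.e1, F.e2, 6 * τ / G.QA (D + 7) k,
    6 / G.QA (D + 7) k, ?_, ?_, ?_, fun u y m u0 jn => ?_⟩
  · unfold QA; positivity
  · change _ * ((G.L k : ℝ) ^ (D + 7)) ^ _ ≤ _⁻¹
    rw [inv_eq_one_div, le_div_iff₀ (by positivity), QA]
    calc _ = 24 * (G.aA D + G.aB + 3 + C (k + 1)) * (G.L k : ℝ) ^ (D + 2) /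
          (G.L k : ℝ) ^ (G.K + (D + 7)) * (τ * (G.L k : ℝ) ^ ((D + 7) * (G.aA D + G.aB + 3))) := by ring
      _ ≤ 1 * 1 := by
          gcongr
          rw [div_le_one (by positivity)]
          calc _ ≤ G.L k * (G.L k : ℝ) ^ (D + 2) := by gcongr; linarith
            _ ≤ _ := by rw [← pow_succ']; exact pow_le_pow_right₀ L2 (by omega)
      _ = 1 := one_mul _
  · rw [eD, inv_eq_one_div, ← mul_div_assoc, QA, div_le_div_iff₀ (by positivity) (by positivity)]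
    calc _ ≤ G.L k * (G.L k : ℝ) ^ (D + 2) := by gcongr; linarith
      _ ≤ _ := by rw [← pow_succ', one_mul]; exact pow_le_pow_right₀ L2 (by omega)
  · obtain ⟨m', a1, a2⟩ := q u y m u0 jn
    exact ⟨m', a1.mono (le_of_eq (by ring)), fun φ J' p q => a2 (φ, J') p q⟩

/-- the cocycle at the base points `H` -/
theorem coH : Co j i (G.jP D c σ ev) (fun k u => σ k u.2.2.1) (G.jH D c b J H) A W a
    (fun k => C (k + 1) * lam k + G.eD D k) fun k => C (k + 1) * η k + G.eD D k where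
  zero := P.co.zero
  nn := P.co.nn
  mono := P.co.mono
  lin := P.co.lin
  linT k _ _ _ _ z h1 h2 H H' := (P.fitH B hτ h1 h2).lin (P.ok.sy (P.s.s1 _)) H H' z
  mem := P.co.mem
  step k _ _ _ h1 h2 H hx h0 := (P.fitH B hτ h1 h2).step (P.ok.sy (P.s.s1 _))
    (P.ok.sy (P.s.s1 _)) (by rw [P.ok.ag_R, P.ok.ag_R]; exact P.s.s2 k h1 (h2.trans_le B.le))
    (P.s.nl k).2.1 (P.s.nl k).2.2.1 H hx h0
  inv k e h1 h2 := P.s.inv k e h1 (h2.trans_le B.le)
  nl := P.co.nl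

/-- its flow is the tangent flow -/
theorem flowH (h : G.jP D c σ ev i u y) : ∀ k, j ≤ k → k ≤ i →
    G.jp D c k (Cok.fw (G.jH D c b J H) u i k) = G.tH b J H (G.jp D c i u) i k := by
  refine down (by rw [Cok.fw_top, tH_top]) fun k h1 h2 ih => ?_
  obtain ⟨z, hz⟩ := (P.coH B hτ).fw_adm le_rfl h (k + 1) (by omega) h2
  rw [Cok.fw_step _ _ h2, tH_step h2, ← ih]
  exact (P.fitH B hτ h1 h2).prj (P.ok.sy (P.s.s1 _)) hz

/-- the change of the base points is a small source -/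
theorem srcH {n : ℕ → ℝ} (hl : j ≤ l) (h0 : G.jP D c σ ev i u (w i))
    (w1 : ∀ k, l ≤ k → k < i → 0 ≤ w k ∧ 4 * G.eD D k * w (k + 1) ≤ w k ∧ 0 < n (k + 1) ∧
      G.jW D k * τ * n (k + 1) ≤ w k ∧
      PU (G.p (k + 1)) (n (k + 1)) (G.jp D c (k + 1) (Cok.fw (G.jH D c b J H) u i (k + 1))).1) :
    ∀ k, l ≤ k → k < i → G.jP D c σ ev k
      (0, 0, 0, (G.jH D c b J H k (Cok.fw (G.jH D c b J H) u i (k + 1))).2.2.2 -
        (G.jT D c b J k (Cok.fw (G.jH D c b J H) u i (k + 1))).2.2.2) (w k) := by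
  have h := P.ok
  have W0 : ∀ k, 0 < G.jW D k := fun k => pow_pos (by linarith [h.L1 k]) _
  have st : ∀ k, l ≤ k → k < i → (∃ m, KM (G.p (k + 1)) (G.N (k + 1)) m
      (Cok.fw (G.jH D c b J H) u i (k + 1)).2.2.2 ∧ kN (G.pA (D + 7) (k + 1)) (G.N (k + 1)) m
        (w (k + 1) / G.jW D (k + 1))) → ∃ m m', kN (G.pA (D + 7) k) (G.N k) m (w k / G.jW D k / 2) ∧
      kN (G.pA (D + 7) k) (G.N k) m' (w k / G.jW D k / 2) ∧
      KM (G.p k) (G.N k) m (G.jH D c b J H k (Cok.fw (G.jH D c b J H) u i (k + 1))).2.2.2 ∧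
      KM (G.p k) (G.N k) m' (G.jT D c b J k (Cok.fw (G.jH D c b J H) u i (k + 1))).2.2.2 :=
    fun k h1 h2 ⟨m, m1, m2⟩ => by
      obtain ⟨a0, a1, a2, a3, a4⟩ := w1 k h1 h2
      obtain ⟨m', b1, b2⟩ := (B.tan h P.hp P.t (hl.trans h1) h2).2 _ _ m a2 m2
      obtain ⟨m'', b3, b4⟩ := h.tanK P.hp P.t (h2.trans_le B.le)
        (fun i hi => (P.e i ((hl.trans h1).trans hi)).1) a2 m2
      have L1 := h.L1 k
      have W1 := W0 k
      have y0 := m2.nonneg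
      have t0 := B.t0
      have e : 6 * (τ * n (k + 1) + w (k + 1) / G.jW D (k + 1)) / G.QA (D + 7) k ≤
          w k / G.jW D k / 2 := by
        have c1 : w (k + 1) / G.jW D (k + 1) * G.jW D k ≤ w (k + 1) := by
          refine le_trans ?_ (div_mul_cancel₀ _ (W0 (k + 1)).ne').le
          unfold jW; gcongr; exact h.L_mono k.le_succ
        have p0 : (1 : ℝ) ≤ (G.L k : ℝ) ^ (D + 2) := one_le_pow₀ (by linarith)
        have c2 : 4 * w (k + 1) ≤ (G.L k : ℝ) ^ (D + 2) * w k := by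
          rwa [eD, mul_comm 4, mul_assoc, inv_mul_le_iff₀ (by linarith)] at a1
        have c3 : 1000 * (G.L k : ℝ) ^ (D + 2) ≤ G.QA (D + 7) k := by
          calc _ ≤ G.L k * (G.L k : ℝ) ^ (D + 2) := by gcongr
            _ ≤ _ := by rw [← pow_succ']; exact pow_le_pow_right₀ (by linarith) (by omega)
        rw [div_div, div_le_div_iff₀ (by linarith) (by positivity)]
        nlinarith [mul_le_mul_of_nonneg_right c3 a0, mul_le_mul_of_nonneg_right p0 a0]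
      refine ⟨m', m'', b1.mono e, (kN_up b3).mono (le_trans ?_ e), b2 _ a4 m1, b4 _ a4 m1⟩
      have := h.QA0 (D + 7) k
      gcongr
      exact sqrt_le_iff.2 ⟨t0.le, (B.nm (k + 1) (by omega) h2).2.1⟩
  have K : ∀ k, l ≤ k → k ≤ i → ∃ m, KM (G.p k) (G.N k) m (Cok.fw (G.jH D c b J H) u i k).2.2.2 ∧
      kN (G.pA (D + 7) k) (G.N k) m (w k / G.jW D k) := by
    refine down (by rw [Cok.fw_top]; exact (P.exit h0 le_rfl).2.1) fun k h1 h2 ih => ?_
    obtain ⟨m, -, a1, -, a2, -⟩ := st k h1 h2 ih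
    rw [Cok.fw_step _ _ h2]
    exact ⟨m, a2, a1.mono (by linarith [a1.nonneg])⟩
  intro k h1 h2
  obtain ⟨m, m', a1, a2, a3, a4⟩ := st k h1 h2 (K (k + 1) (by omega) h2)
  obtain ⟨z, hz⟩ := (P.coH B hτ).fw_adm le_rfl h0 (k + 1) (by omega) h2
  have F := P.fitH B hτ (hl.trans h1) h2
  obtain ⟨e, e1, e2⟩ := F.d0
  obtain ⟨-, -, s1, s2⟩ := P.exit hz le_rfl
  have d0 : ∀ k, (G.ag D c k).d 0 = G.L k * G.D0 k + 2 := fun k => by simp [ag, h.sc_zero]
  rw [d0] at e1 e2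
  rw [← h.sd_nf k (G.zz b J (k + 1))] at s1 s2
  have ks := fun ψ K => (Sd.dK_ks (ψ := ψ) (K := K) F.nu s1 s2 e1).mono (d' := G.L k * G.D0 k) (by
    have := (h.rn_le k).2.2.2.1
    have := h.L_big k
    change e + G.D0 k ≤ _ at e2
    omega)
  have := (h.jP_act (c := c) (P.s.s1 k) (a3.add (a4.smul (-1))) (a1.add (a2.smul (norm_nonneg _)))
    ((P.tr k (hl.trans h1) (h2.trans_le B.le)).1.symm ▸ (ks _ _).lin (ks _ _) (-1))).1
  rw [neg_one_smul, ← sub_eq_add_neg] at this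
  refine P.co.mono _ _ _ _ this (le_of_eq ?_)
  have := W0 k
  rw [norm_neg, norm_one, one_mul, add_halves]
  exact mul_div_cancel₀ _ this.ne'

end Pt

section track

variable {α β : Type} [Fintype α] [DecidableEq α] [Fintype β] [DecidableEq β] {wt : α → ℕ}
  {d C : ℕ} {M M' : ℝ} {p p' : ℕ → (α → ℝ) →ₗ[ℝ] V} {lc lc' : ℕ → V →ₗ[ℝ] α → ℝ}
  {U U' U1 U1' : ℕ → Module.End ℝ (α → ℝ)} {s : β → Jv} {t : β → ℂ}

namespace Tk

variable (T : G.Tk wt d D C M c b J j ω p lc U U') (B : G.Hb (D + 7) τ b J i j H)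
  (hτ : τ * G.jW D i ≤ 1)
include T B hτ

theorem coH : Co j i (G.zP wt d D C c J j p lc U) (G.zq wt d D C J j p) (G.jH D c b J H)
    (G.jA wt d D C U') (W0 wt d) (fun k => G.Yr d C k * (G.L k : ℝ) ^ d)
    (fun k => G.Yr d C k / (G.L k : ℝ) ^ (d + 1)) fun k => G.Yr d C k / (G.L k : ℝ) ^ (D + 2) := by
  have x := fun k => T.ok.Xr1 C k
  have y : ∀ k, 0 ≤ G.Yr d C k := fun k => pow_nonneg (by linarith [x k]) _
  refine ((T.pt.coH B hτ).resc (w := G.Zu d C) fun k => one_le_pow₀ (x k)).up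
    (fun k => ⟨by have := y k; positivity, by have := y k; positivity, by have := y k; positivity⟩)
    fun k h1 h2 => ?_
  have x1 := x k
  have x2 := x (k + 1)
  have x3 : 100 ≤ G.Xr C k := by linarith [(T.e k h1).2.1.1, GD.cG1]
  have L1 := T.ok.L1 k
  have pw : ∀ {i j : ℕ}, i ≤ j → G.Xr C k ^ i ≤ G.Xr C k ^ j := pow_le_pow_right₀ x1
  have up : ∀ i, G.Xr C (k + 1) ^ i ≤ G.Xr C k ^ (2 * i) := fun i => by
    rw [pow_mul]; gcongr; exact T.ok.Xr2 C k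
  have p2 : ∀ {i}, i < 60 * d + 40 → G.Xr C k ^ i + G.Xr C k ^ i ≤ G.Yr d C k := fun {i} hi =>
    le_trans (by rw [pow_succ]; nlinarith [pow_pos (show 0 < G.Xr C k by linarith) i]) (pw hi)
  have e1 : G.eD D k ≤ 1 / (G.L k : ℝ) ^ (d + 1) := by
    rw [eD, ← one_div]
    exact one_div_le_one_div_of_le (by positivity)
      (pow_le_pow_right₀ (by linarith) (by linarith [T.hd]))
  refine ⟨by gcongr; exact pw (by omega), ?_, ?_⟩
  · rw [div_le_iff₀ (by unfold Zu; positivity)]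
    calc _ ≤ (G.Xr C k ^ (2 * (9 * d + 6)) * (G.Xr C k ^ (9 * d + 6) / (G.L k : ℝ) ^ (d + 1)) +
          1 / (G.L k : ℝ) ^ (d + 1)) * G.Xr C k ^ (2 * (20 * d + 13)) := by
          unfold Ga Zu
          gcongr
          exacts [up _, up _]
      _ = (G.Xr C k ^ (47 * d + 31) + G.Xr C k ^ (20 * d + 13)) / (G.L k : ℝ) ^ (d + 1) *
          G.Zu d C k := by unfold Zu; ring
      _ ≤ _ := by
          gcongr
          · unfold Zu; positivity
          · exact (add_le_add le_rfl (pw (by omega))).trans (p2 (by omega))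
  · calc _ ≤ (G.Xr C k ^ (2 * (9 * d + 6)) * G.eD D k + G.eD D k) *
          G.Xr C k ^ (2 * (20 * d + 13)) := by
          unfold Ga Zu eD
          gcongr
          exacts [up _, up _]
      _ = (G.Xr C k ^ (58 * d + 38) + G.Xr C k ^ (40 * d + 26)) / (G.L k : ℝ) ^ (D + 2) := by
          unfold eD; ring
      _ ≤ _ := by
          gcongr
          exact (add_le_add le_rfl (pw (by omega))).trans (p2 (by omega))

/-- the letters of the long run at the level of the exchange are a frame of the hybrid -/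
theorem fmH (T' : G.Tk wt d D C M' c b' J' j' ω' p' lc' U1 U1') {a lam η : ℕ → ℝ}
    (F : Cok.Fm j' J' (G.zP wt d D C c J' j' p' lc' U1) (G.zq wt d D C J' j' p') (G.jT D c b' J')
      (G.jA wt d D C U1') (W0 wt d) a lam η s M') (hj : j ≤ i) (h1 : j' ≤ i) (h2 : i ≤ J')
    (hM : 2 * M' + 6 ≤ M) (ε0 : 0 ≤ ε) (hε : 2 * ε * (M' + 1) * G.Zu d C i ≤ 1)
    (e : ∀ φ K, Tbw (G.lR i) (60 * (G.p i).ρ) (G.lH D i) K φ →
      ‖sgS wt d (G.ka D C i • p i) φ - sgS wt d (G.ka D C i • p' i) φ‖ ≤ ε * K) :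
    Cok.Fm j i (G.zP wt d D C c J j p lc U) (G.zq wt d D C J j p) (G.jH D c b J H) (G.jA wt d D C U')
      (W0 wt d) (fun k => G.Yr d C k * (G.L k : ℝ) ^ d) (fun k => G.Yr d C k / (G.L k : ℝ) ^ (d + 1))
      (fun k => G.Yr d C k / (G.L k : ℝ) ^ (D + 2))
      (fun a => st (G.jT D c b' J') s J' i (Pi.single a (1 : ℂ))) M ∧
    ∀ t : β → ℂ, ∑ a, t a • st (G.jT D c b' J') s J' i (Pi.single a (1 : ℂ)) =
      st (G.jT D c b' J') s J' i t := by
  have h := T.ok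
  have i1 := B.le
  have x1 := h.Xr1 C i
  have Z1 : G.Ga d C i ≤ G.Zu d C i := pow_le_pow_right₀ x1 (by omega)
  have G1 : 1 ≤ G.Ga d C i := one_le_pow₀ x1
  have M1 := F.M1
  refine F.near h1 h2 (T.coH B hτ) hj T.M1 (fun u x a1 a2 => ?_) fun k a _ => T.num a
  have x0 := (norm_nonneg _).trans a2
  obtain ⟨b1, b2⟩ := h.jP_chg (T.pt.s.s1 i) (T'.pt.s.s1 i) (by linarith) (by linarith) ε0
    (fun φ K a => by rw [js, js, if_pos ⟨hj, i1⟩, if_pos ⟨h1, h2⟩]; exact e φ K a) a1 a2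
  have q : ε * (G.Zu d C i * (M' * x) + G.Ga d C i * x) ≤ x / 2 := by
    nlinarith [mul_le_mul_of_nonneg_right hε x0,
      mul_le_mul_of_nonneg_left (mul_le_mul_of_nonneg_right Z1 x0) ε0]
  refine ⟨T.pt.co.mono _ _ _ _ b1 ?_, b2.trans q⟩
  nlinarith [mul_le_mul_of_nonneg_left q (zero_le_one.trans G1), mul_le_mul_of_nonneg_right Z1 x0,
    mul_le_mul_of_nonneg_left (mul_le_mul_of_nonneg_right hM x0) (zero_le_one.trans (G1.trans Z1)),
    mul_nonneg (zero_le_one.trans G1) x0]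

omit hτ in
/-- a state carried by the hybrid differs by a fast term from the letter of the run which has the
same symbol at the level `l` -/
theorem killH (F : Cok.Fm j J (G.zP wt d D C c J j p lc U) (G.zq wt d D C J j p) (G.jT D c b J)
      (G.jA wt d D C U') (W0 wt d) (fun k => G.Yr d C k * (G.L k : ℝ) ^ d)
      (fun k => G.Yr d C k / (G.L k : ℝ) ^ (d + 1)) (fun k => G.Yr d C k / (G.L k : ℝ) ^ (D + 2)) s M')
    (hl : j ≤ l) (hi : l ≤ i) (hτ : τ * G.jW D i * (G.L i : ℝ) ^ 2 * (G.rt i l : ℝ) ^ (d + 2) ≤ 1)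
    (w0 : ∀ k, 0 < w k) (w1 : ∀ k, l ≤ k → k < i →
      2 * (G.Yr d C k * (G.L k : ℝ) ^ d) * w k ≤ w (k + 1) ∧
        4 * (G.Yr d C k / (G.L k : ℝ) ^ (d + 1)) * w (k + 1) ≤ w k)
    (u1 : G.zP wt d D C c J j p lc U i u (w i) ∧ ‖G.zq wt d D C J j p i u‖ ≤ w i)
    (u0 : G.zq wt d D C J j p l (st (G.jT D c b J) s J l t) =
      G.zq wt d D C J j p l (Cok.fw (G.jH D c b J H) u i l)) :
    ‖G.zq wt d D C J j p i (st (G.jT D c b J) s J i t)‖ ≤ 3 * w i ∧ ∀ k, l ≤ k → k ≤ i →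
      G.zP wt d D C c J j p lc U k (Cok.fw (G.jH D c b J H) u i k - st (G.jT D c b J) s J k t)
        (8 * M' * w k) ∧
      ‖G.zq wt d D C J j p k (Cok.fw (G.jH D c b J H) u i k - st (G.jT D c b J) s J k t)‖ ≤
        2 * w k := by
  have h := T.ok
  have L1 := h.L1
  have x1 := h.Xr1 C
  have t0 := B.t0
  have M1 := T.M1
  have W0 : ∀ k, 0 < G.jW D k := fun k => pow_pos (by linarith [h.L1 k]) _
  have r1 : ∀ k ≤ i, (1 : ℝ) ≤ G.rt i k := fun k _ => by exact_mod_cast Nat.one_le_pow _ _ (by norm_num)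
  have rm : ∀ k, l ≤ k → k ≤ i → (G.rt i k : ℝ) ≤ G.rt i l := fun k a _ => by
    exact_mod_cast Nat.pow_le_pow_right (by norm_num)
      (Nat.sub_le_sub_left (h.sch.mono.monotone a) _)
  have hτ' : τ * G.jW D i ≤ 1 := le_trans (by
    have := W0 i
    rw [mul_assoc]
    exact le_mul_of_one_le_right (by positivity) (one_le_mul_of_one_le_of_one_le
      (one_le_pow₀ (by linarith [L1 i])) (one_le_pow₀ (r1 l hi)))) hτ
  have Y : ∀ k, j ≤ k → 1 ≤ G.Yr d C k ∧ 200 * G.Yr d C k ≤ G.L k ∧ G.Zu d C k ≤ G.Yr d C k ∧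
      1 ≤ G.Zu d C k ∧ G.Ga d C k ≤ G.Zu d C k := fun k a => by
    have y1 : 1 ≤ G.Yr d C k := one_le_pow₀ (x1 k)
    refine ⟨y1, le_trans ?_ (T.e k a).2.2, pow_le_pow_right₀ (x1 k) (by omega), one_le_pow₀ (x1 k),
      pow_le_pow_right₀ (x1 k) (by omega)⟩
    nlinarith [mul_le_mul M1 y1 zero_le_one (by linarith)]
  have gr := (T.coH B hτ').grow (a' := G.Yr d C) (g := fun k => G.L k) (fun k a1 a2 => by
    obtain ⟨y1, y2, -⟩ := Y k a1
    have q : ∀ n, G.Yr d C k / (G.L k : ℝ) ^ n ≤ G.Yr d C k := fun n =>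
      div_le_self (by linarith) (one_le_pow₀ (by linarith))
    exact ⟨T.jA_le a1 (a2.trans_le B.le), by linarith, by linarith, by linarith [q (d + 1)],
      by linarith [q (D + 2)]⟩) le_rfl (w0 i) u1.1 u1.2
  have lo : ∀ k, l ≤ k → k ≤ i → w i ≤ (G.rt i k : ℝ) ^ (d + 1) * w k := by
    refine down (by simp [rt_top]) fun k a1 a2 ih => ih.trans ?_
    have a3 := (w1 k a1 a2).2
    have := w0 (k + 1)
    have := L1 k
    have := r1 (k + 1) a2
    rw [h.rt_step a2, Nat.cast_mul, mul_pow, mul_comm ((G.L k : ℝ) ^ _), mul_assoc]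
    gcongr
    rw [← div_le_iff₀' (by positivity)]
    refine le_trans ?_ a3
    rw [div_eq_mul_inv, div_eq_mul_inv]
    have : 0 < ((G.L k : ℝ) ^ (d + 1))⁻¹ * w (k + 1) := by positivity
    nlinarith [mul_le_mul_of_nonneg_right (Y k (hl.trans a1)).1 this.le]
  have sr := T.pt.srcH B hτ' (w := fun k => G.Zu d C k * w k)
    (n := fun k => (G.L k : ℝ) ^ 2 * (G.rt i k * w i)) hl u1.1 fun k a1 a2 => by
      obtain ⟨y1, y2, y3, y4, y5⟩ := Y k (hl.trans a1)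
      obtain ⟨z1, z2, z3, z4, z5⟩ := Y (k + 1) (by omega)
      obtain ⟨c0, c1, c2⟩ := gr (k + 1) (by omega) a2
      rw [h.rt_prod a2] at c0 c1 c2
      have wk := w0 k
      have wk' := w0 (k + 1)
      have wi := w0 i
      have Lk := L1 k
      have Lk' := L1 (k + 1)
      refine ⟨by positivity, ?_, by positivity, ?_, pu_mono (T.pt.exit c1 c2).1 ?_⟩
      · refine le_trans ?_ (mul_le_mul_of_nonneg_left (w1 k a1 a2).2 (by linarith))
        have e1 : G.eD D k ≤ 1 / (G.L k : ℝ) ^ (d + 1) := by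
          rw [eD, ← one_div]
          exact one_div_le_one_div_of_le (by positivity)
            (pow_le_pow_right₀ (by linarith) (by linarith [T.hd]))
        have e2 : G.Zu d C (k + 1) ≤ G.Zu d C k * G.Yr d C k := by
          refine le_trans ?_ (mul_le_mul_of_nonneg_left y3 (by linarith))
          rw [Zu, Zu, ← mul_pow, ← sq]
          gcongr
          exacts [by linarith [x1 (k + 1)], h.Xr2 C k]
        calc _ ≤ 4 * (1 / (G.L k : ℝ) ^ (d + 1)) * (G.Zu d C k * G.Yr d C k * w (k + 1)) := by gcongr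
          _ = _ := by ring
      · have b1 := r1 k a2.le
        have b2 := rm k a1 a2.le
        have b3 := rm (k + 1) (by omega) a2
        have b4 := r1 (k + 1) a2
        have := W0 k
        calc _ ≤ G.jW D i * τ * ((G.L i : ℝ) ^ 2 * (G.rt i l * ((G.rt i l : ℝ) ^ (d + 1) * w k))) := by
              unfold jW
              gcongr
              exacts [h.L_mono a2.le, h.L_mono a2, (lo k a1 a2.le).trans (by gcongr)]
          _ = τ * G.jW D i * (G.L i : ℝ) ^ 2 * (G.rt i l : ℝ) ^ (d + 2) * w k := by ring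
          _ ≤ G.Zu d C k * w k := by gcongr; linarith
      · have ab : 100 * (G.aA D + G.aB + 4 : ℝ) ≤ G.L (k + 1) := by
          exact_mod_cast (Nat.le_add_left _ _).trans (T.e (k + 1) (by omega)).1.2.2
        generalize (G.rt i (k + 1) : ℝ) * w i = s at *
        calc _ ≤ 2 * (G.L (k + 1) * (G.L (k + 1) / 200 * s) + G.L (k + 1) * s) := by
              gcongr <;> linarith
          _ ≤ _ := by nlinarith [mul_pos c0 (show (0 : ℝ) < G.L (k + 1) by linarith)]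
  refine F.kill (u := Cok.fw (G.jH D c b J H) u i) (f := fun k => (0, 0, 0,
    (G.jH D c b J H k (Cok.fw (G.jH D c b J H) u i (k + 1))).2.2.2 -
      (G.jT D c b J k (Cok.fw (G.jH D c b J H) u i (k + 1))).2.2.2)) hl hi B.le w0 w1
    (by rwa [Cok.fw_top]) (fun k _ a => (Cok.fw_step _ _ a).trans (jH_eq _))
    (fun k a1 a2 => ⟨sr k a1 a2, ?_⟩) u0
  rw [zq, (T.pt.s.s1 k).s0, norm_zero]
  exact (w0 k).le

end Tk

end track

/-- separated letters with quickly growing radii at the base points `H` -/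
theorem Ok.chainH (h : G.Ok) {ι : Type} [DecidableEq ι] {A : Finset ι} {r0 : ι → ℝ} {r : ℕ → ι → ℝ}
    {m : ℕ → ℕ} {ρ : ℕ → ℝ} {Y : Fy ι} {θ : ℝ} {f : (ι → ℂ) → Conf → ℂ} (t : G.Tu1 b J) (hp : G.Pu)
    (ha : G.HP Sd.StA) (B : G.Hb a' τ b J i l H)
    (hτ : ∀ k, l ≤ k → k ≤ i → τ ^ 2 ≤ (G.QA a' k ^ 211)⁻¹)
    (sz : ∀ k, l ≤ k → k ≤ i → ∀ x ∈ A, ∃ N, r k x * N ≤ (G.QA a' k ^ 211)⁻¹ ∧
      PU (G.p k) N (G.tH b J H (Y.jt {x}) i k).1)
    (sep : ∀ k, l ≤ k → k ≤ i → Cls (G.N k) ((m k + 2) * (G.p k).D) A id fun a => G.zs (Y.Z a) i k)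
    (rad : ∀ k, l ≤ k → k ≤ i → 1 ≤ m k ∧ 0 ≤ ρ k ∧ log (1 + ρ k) ≤ m k ∧
      10 * (1 + ρ k) ≤ G.QA a' k ∧ ∀ x, r0 x ≤ r k x ∧ (k < i → r k x ≤ ρ k * r (k + 1) x))
    (e : G.Fd i (G.zz b J i) A r0 (r i) θ Y f) (u : G.KA a' i (r i) (G.QA a' i ^ 329)⁻¹ Y.K)
    (e1 : Y.bs = H i) (e3 : Y.Ec A id) : ∀ k ≤ i, l ≤ k →
      G.Fd k (G.zz b J k) A r0 (r k) (G.QA a' k ^ 329)⁻¹ (G.fw A b J Y i k)
        (fun s => G.tt (f s) i k) ∧
      G.KA a' k (r k) (G.QA a' k ^ 329)⁻¹ (G.fw A b J Y i k).K ∧ (G.fw A b J Y i k).bs = H k ∧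
      (∀ x ∈ A, (G.fw A b J Y i k).jt {x} = G.tH b J H (Y.jt {x}) i k) ∧
      (G.fw A b J Y i k).Ec A id ∧
      ∀ s ∈ Pd (r k), PU (G.p k) (2 * (G.QA a' k ^ 211)⁻¹) ((G.fw A b J Y i k).ψ s) := by
  have hi := B.le
  have D : ∀ k, (0 : ℝ) < (m k + 2) * (G.p k).D := fun k => by have := h.D_pos k; positivity
  have c : ∀ k, l ≤ k → k ≤ i → Cls (G.N k) ((m k + 2) * (G.p k).D) A id (G.fw A b J Y i k).Z :=
    fun k a b => by rw [fw_Z k b]; exact sep k a b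
  have S : ∀ k ≤ i, l ≤ k → ∀ {f θ}, G.Fd k (G.zz b J k) A r0 (r k) θ
      (G.fw A b J Y i k) f → (G.fw A b J Y i k).bs = H k →
      (∀ x ∈ A, (G.fw A b J Y i k).jt {x} = G.tH b J H (Y.jt {x}) i k) → ∀ s ∈ Pd (r k),
        PU (G.p k) (2 * (G.QA a' k ^ 211)⁻¹) ((G.fw A b J Y i k).ψ s) :=
    fun k a1 a2 _ _ a3 a4 a5 s hs => two_mul (G.QA a' k ^ 211)⁻¹ ▸ a3.fi.ml.pu_ind (h.ρ0 k)
      (c k a2 a1) (D k) (a4.symm ▸ pu_mono (B.pu k a2 a1) (hτ k a2 a1) :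
        PU _ _ (G.fw A b J Y i k).bs.1)
      (inv_pos.2 (pow_pos (h.QA0 a' k) _)).le fun x hx => (sz k a2 a1 x hx).imp fun _ v =>
        ⟨(mul_le_mul_of_nonneg_right (hs x).le (v.2.nonneg (h.ρ0 k).le)).trans v.1,
          (a5 x hx ▸ v.2 : PU _ _ ((G.fw A b J Y i k).jt {x}).1)⟩
  refine dw_ind (fun hl => ?_) fun k hk ih hl => ?_
  · have e' := e.rad e.fi.pos u
    have e2 : ∀ x ∈ A, (G.fw A b J Y i i).jt {x} = G.tH b J H (Y.jt {x}) i i := by
      simp only [fw_top, tH_top, implies_true]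
    refine ⟨by simpa only [fw_top, tt_top] using e', by rwa [fw_top], by rwa [fw_top], e2,
      by rwa [fw_top], S i le_rfl hl (by rw [fw_top]; exact e') (by rwa [fw_top]) e2⟩
  obtain ⟨c1, c0, c2, c3, c4, c5⟩ := ih (by omega)
  obtain ⟨m1, m2, m3, m4, m5⟩ := rad k hl hk.le
  have kJ := hk.trans_le hi
  have ad := h.ad1 t hp kJ
  have cl := c k hl hk.le
  have q := h.QA0 a' k
  have p : ∀ x, 0 < r k x := fun x => (e.eq.fst.pos x).trans_le (m5 x).1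
  rw [fw_step hk] at cl
  obtain ⟨a1, a0⟩ := h.famA ad (h.hp_sd ha ad.tz) (B.nm k hl hk.le).1 c1
    (c0.mono (fun _ => le_rfl) (h.QA_up _ k.le_succ _))
    (fun x => ((rad _ (by omega) hk).2.2.2.2 x).1) (fun s hs => pu_mono (c5 s hs)
      (mul_le_mul_of_nonneg_left ((h.QA_up _ k.le_succ _).trans (inv_anti₀ (pow_pos (h.QA0 _ k) _)
        (pow_le_pow_right₀ (le_trans (by norm_num) (h.QA1 _ k)) (by norm_num)))) zero_le_two))
    cl le_rfl m1 m2 m3 p fun x => (m5 x).2 hk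
  have n := (mul_assoc _ _ _).ge.trans ((mul_le_mul_of_nonneg_right (mul_comm (1 + ρ k) 10 ▸ m4 :
    (1 + ρ k) * 10 ≤ _) (inv_pos.2 (pow_pos (h.QA0 _ k) 330)).le).trans_eq
      (by field_simp : _ = (G.QA a' k ^ 329)⁻¹))
  have a2 : (G.fw A b J Y i k).bs = H k := by
    rw [fw_step hk, fs_bs, c2, B.hs k hk]
  have a3 : ∀ x ∈ A, (G.fw A b J Y i k).jt {x} = G.tH b J H (Y.jt {x}) i k := fun x hx => by
    rw [fw_step hk, h.fs_jt ad.tz c1.fi hx, c2, c3 x hx, tH_step hk]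
  have a4 := h.fs_ec ad.pu c1 c4 cl (D k)
  simp only [← tt_step _ hk, ← zz_step b kJ, ← fw_step hk] at a0 a1 a4
  exact ⟨a1.mono p (fun _ => le_rfl) n, a0.mono (fun _ => le_rfl) n, a2, a3, a4,
    S k hk.le hl a1 a2 a3⟩

end Pool.Agent.Lib.MP_7f377f_mp.RG.Q4.En.Gl
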