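import Pool.Agent.Lib.MP_7f377f_mp.G.MgB

/-! The new activities in a norm with a larger weight of the size. -/

noncomputable section

set_option linter.unusedSectionVars false
variable [Pool.Agent.Lib.MP_7f377f_mp.GD]

namespace Pool.Agent.Lib.MP_7f377f_mp.RG.Q4

/-- the same step with a larger exponent -/
def Sd.wK (S : Sd) (A : ℕ) : Sd := { S with K := S.K + A }

/-- the parameters of the fine level with the larger weight -/
def Sd.pA (S : Sd) (A : ℕ) : Pa := S.p.ad (2 * A * Real.log S.M)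

/-- the parameters of the coarse level with the larger weight -/
def Sd.pA' (S : Sd) (A : ℕ) : Pa := S.p'.ad (2 * A * Real.log (LL S.l))

/-- the step in the norm with the larger weight -/
def Sd.StA (S : Sd) : Prop := ∀ A, (S.wK A).Nu 0 → ∀ b θ k, (S.wK A).Q ^ 100 * b ≤ 1 →
  (S.wK A).Q ^ 100 * θ ≤ 1 → 0 ≤ b → kN (S.pA A) S.nf k θ →
    ∃ k', kN (S.pA' A).up S.n k' ((S.wK A).θ' b θ) ∧
      ∀ ψ K, PU S.p b ψ → KM S.p S.nf k K → KM S.p' S.n k' (S.KK ψ K)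

namespace Kp

open Finset Sd MeasureTheory En.Mg
open scoped Classical

attribute [local irreducible] box lbox tb tau rc

variable {p : Pa} {n A : ℕ} {k : Mj} {θ b : ℝ} {S : Sd} {o : Ob} {O : Finset Ob} {W : Conf}
  {ψ : Lx} {K : Ac} {Y : Finset St} {c : Finset (Finset St)} {y u : St}

namespace Hy

variable (h : Hy S)
include h

theorem w1_nn (b0 : 0 ≤ b) (hk : ∀ X c, 0 ≤ k X c) (t0 : 0 ≤ (S.Q ^ 10)⁻¹ + 10 * θ) :
    ∀ o, 0 ≤ w1 S b θ k o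
  | .inl (.inl _) => mul_nonneg (wo_nonneg h.nu.ok h.op b0 hk _) (ite_nonneg t0 zero_le_one)
  | .inl (.inr y) => wo_nonneg h.nu.ok h.op b0 hk (.inl (.inr y))
  | .inr (.inl _) => h.θ2_nonneg b0
  | .inr (.inr (.inl _)) => h.θ2_nonneg b0
  | .inr (.inr (.inr (.inl _))) => le_rfl
  | .inr (.inr (.inr (.inr Z))) => wo_nonneg h.nu.ok h.op b0 hk (oZ Z)

theorem kr_le2 (b0 : 0 ≤ b) (hk : ∀ X c, 0 ≤ k X c) (t0 : 0 ≤ (S.Q ^ 10)⁻¹ + 10 * θ)
    (C : Cn S b θ k ψ K W) :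
    ‖S.Kr ψ K Y c W‖ ≤ kk S b θ k Y c * Real.exp (-(S.p'.lam * Rg c W)) := by
  have w0 := wo_nonneg h.nu.ok h.op b0 hk
  have w2 := h.w1_nn b0 hk t0
  have ok := h.nu.ok
  set F := (clus S.sp S.obs Y).filter (S.lab W · = c) with hF
  set H := Real.exp (-cw S.p' S.n c) * Real.exp (-(S.p'.lam * Rg c W)) with hH
  have H0 : 0 ≤ H := by positivity
  have mF : ∀ O, O ∈ F ↔ (O ⊆ S.obs ∧ Conn S.sp O ∧ us S.sp O = Y) ∧ S.lab W O = c := fun O => by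
    rw [hF, mem_filter, mem_clus]
  set μ : Ob → ℝ := fun o => if {o} ∈ F then w1 S b θ k o * H else 0 with hμ
  have μ0 : ∀ o, 0 ≤ μ o := fun o => ite_nonneg (mul_nonneg (w2 o) H0) le_rfl
  have fin : ∑ O ∈ F.filter (fun O => O.card ≠ 1 ∧ ¬ MM O), (∏ o ∈ O, S.wo b k o) * H +
      ∑ o ∈ S.obs, μ o + ∑ q ∈ S.Λ'.offDiag, (if {oM q.1, oM q.2} ∈ F then S.θ2 b ^ 2 * H else 0) ≤
      kk S b θ k Y c * Real.exp (-(S.p'.lam * Rg c W)) := by
    simp only [kk, kL, Pi.add_apply, add_mul, mul_assoc, ← hH, sum_mul, ite_mul, zero_mul,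
      ← sum_filter, filter_filter, hμ]
    refine add_le_add (add_le_add ?_ ?_) ?_ <;>
      refine sum_le_sum_of_subset_of_nonneg (fun i hi => ?_) fun i _ _ => mul_nonneg ?_ H0
    · obtain ⟨⟨⟨a1, a2, a3⟩, a4⟩, a5⟩ := (mem_filter.1 hi).imp_left (mF i).1
      exact mem_filter.2 ⟨mem_powerset.2 a1, ⟨a2, a5⟩, a3, a4 ▸ lab_zo⟩
    · exact prod_nonneg fun o _ => w0 o
    · obtain ⟨a0, ⟨-, -, a3⟩, a4⟩ := (mem_filter.1 hi).imp_right (mF _).1
      exact mem_filter.2 ⟨a0, (us_singleton _ _).symm.trans a3, a4 ▸ lab_zo⟩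
    · exact w2 i
    · obtain ⟨a0, ⟨-, a2, a3⟩, a4⟩ := (mem_filter.1 hi).imp_right (mF _).1
      exact mem_filter.2 ⟨a0, a2, a3, by rw [← a4, Pl.lab (by simp [Pl, oM, nc])]⟩
    · exact sq_nonneg _
  have n0 : 0 ≤ ∑ O ∈ F.filter (fun O => O.card ≠ 1 ∧ ¬ MM O), (∏ o ∈ O, S.wo b k o) * H :=
    sum_nonneg fun O _ => mul_nonneg (prod_nonneg fun o _ => w0 o) H0
  have n1 : 0 ≤ ∑ q ∈ S.Λ'.offDiag, (if {oM q.1, oM q.2} ∈ F then S.θ2 b ^ 2 * H else 0) :=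
    sum_nonneg fun q _ => ite_nonneg (mul_nonneg (sq_nonneg _) H0) le_rfl
  refine le_trans ?_ fin
  rw [Sd.Kr, norm_mul, ← hF]
  by_cases hχ : ∀ y ∈ S.Din Y \ c.biUnion id, Fq (S.p'.R + 1) S.p'.ε (sh y W)
  swap
  · obtain ⟨y, hy, h1⟩ : ∃ y ∈ _, ¬ _ := by simpa only [not_forall, exists_prop] using hχ
    rw [prod_eq_zero hy (if_neg h1), norm_zero, mul_zero]
    exact add_nonneg (add_nonneg n0 (sum_nonneg fun o _ => μ0 o)) n1
  rw [prod_eq_one (f := chi S.p' W) fun y hy => if_pos (hχ y hy), norm_one, mul_one]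
  have gen : ∀ O ∈ F, ‖S.wO ψ K W O‖ ≤ (∏ o ∈ O, S.wo b k o) * H := fun O hO => by
    obtain ⟨⟨a1, -, a3⟩, a4⟩ := (mF O).1 hO
    by_cases hw : S.wf W O = 0
    · rw [Sd.wO, hw, zero_mul, norm_zero]
      exact mul_nonneg (prod_nonneg fun o _ => w0 o) H0
    · refine (C.hole O a1 ⟨hw, by rwa [a3, a4]⟩).trans_eq ?_
      rw [Sd.hw, a4, hH, ← Real.exp_add, neg_add_rev]
      rfl
  have pl : ∀ O ∈ F, Pl O → S.In W O ∧ H = 1 := fun O hO hp => by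
    obtain ⟨⟨-, -, a3⟩, a4⟩ := (mF O).1 hO
    rw [hp.lab] at a4
    subst a4
    exact ⟨fun y hy => hχ y (by simpa [a3] using hy), by simp [hH, cw, Rg]⟩
  have eqv : ∀ O O', O ⊆ S.obs → O' ⊆ S.obs → Conn S.sp O → Conn S.sp O' → Pl O → Pl O' →
      us S.sp O = us S.sp O' → (O ∈ F ↔ O' ∈ F) := fun O O' a1 a2 a3 a4 a5 a6 a7 => by
    simp only [mF, a1, a2, a3, a4, a5.lab, a6.lab, a7]
  set φ : Finset Ob → ℂ := fun O => if O ∈ F then S.wO ψ K W O else 0 with hφ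
  have one : ∀ {ι : Type} (T : Finset ι) (f : ι → Ob), (∀ i ∈ T, {f i} ∈ F →
      ‖S.wO ψ K W {f i}‖ ≤ w1 S b θ k (f i) * H) → ‖∑ i ∈ T, φ {f i}‖ ≤ ∑ i ∈ T, μ (f i) :=
    fun T f hf => norm_sum_le_of_le _ fun i hi => by
      simp only [hφ, hμ]
      split_ifs with a1
      exacts [hf i hi a1, norm_zero.le]
  have gen1 : ∀ o, {o} ∈ F → ‖S.wO ψ K W {o}‖ ≤ S.wo b k o * H := fun o ho => by
    simpa only [prod_singleton] using gen _ ho
  have m0 := norm_sum_le_of_le (F.filter fun O => O.card ≠ 1 ∧ ¬ MM O)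
    fun O hO => gen O (mem_filter.1 hO).1
  have m1 := one ((lps (box (S.nf / 2))).filter (¬ Sm1 S ·)) (fun o => .inl (.inl o))
    fun o ho a1 => by rw [w1, if_neg (mem_filter.1 ho).2, mul_one]; exact gen1 _ a1
  have m2 := one S.Λ' oD fun y _ => gen1 _
  have m3 := one S.Λ' oW fun y _ => gen1 _
  have m4 := one (S.Λ'.powerset.erase ∅) oZ fun y _ => gen1 _
  have m5 := one S.Λ' oM fun y hy a1 => by
    obtain ⟨a2, a3⟩ := pl _ a1 (by simp [Pl, oM, nc])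
    rw [a3, mul_one]
    exact C.c1 y hy a2
  have m6 : ‖∑ q ∈ S.Λ'.offDiag.filter (fun q => ¬ nearT S.n (2 * S.D0) q.1 q.2),
      φ {oM q.1, oM q.2}‖ ≤ _ := (norm_sum_le_of_le _ fun q hq => ?_).trans
    (sum_le_sum_of_subset_of_nonneg (f := fun q : St × St => if {oM q.1, oM q.2} ∈ F then
      S.θ2 b ^ 2 * H else 0) (filter_subset _ _) fun q _ _ =>
        ite_nonneg (mul_nonneg (sq_nonneg _) H0) le_rfl)
  swap
  · simp only [hφ]
    split_ifs with a1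
    · obtain ⟨a2, a3⟩ := pl _ a1 (by simp [Pl, oM, nc])
      obtain ⟨a4, a5⟩ := mem_filter.1 hq
      rw [a3, mul_one]
      exact C.far _ (mem_offDiag.1 a4).1 _ (mem_offDiag.1 a4).2.1 a5 a2
    · exact norm_zero.le
  have m7 : ‖∑ q ∈ S.Λ'.offDiag.filter (fun q => nearT S.n (2 * S.D0) q.1 q.2),
      φ {oM q.1, oM q.2} + 2 • ∑ q ∈ S.Λ' ×ˢ S.prs, φ {oP q.1 q.2}‖ ≤
      ∑ q ∈ S.Λ' ×ˢ S.prs, μ (oP q.1 q.2) := by
    rw [sum_near ok fun y y' => φ {oM y, oM y'}, two_smul, ← add_assoc]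
    conv_lhs => enter [1, 2]; rw [sum_flip ok fun y u => φ {oP y u}]
    rw [← sum_add_distrib, ← sum_add_distrib]
    refine norm_sum_le_of_le _ fun q hq => ?_
    obtain ⟨a1, a2⟩ := mem_product.1 hq
    have sP : ∀ y ∈ S.Λ', ∀ u ∈ S.prs, {oP y u} ⊆ S.obs := fun y hy u hu => by
      simp [oP, obs, mks, hy, hu]
    have a3 : rc S.n (q.1 + q.2) ∈ S.Λ' := rc_mem ok.odd _
    have pP : ∀ y u, Pl {oP y u} := by simp [Pl, oP, nc]
    have e1 := eqv {oM q.1, oM (rc S.n (q.1 + q.2))} _ (insert_subset (mem_obs_M.2 a1)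
      (singleton_subset_iff.2 (mem_obs_M.2 a3))) (sP _ a1 _ a2) (conn_pair (not_disjoint_iff.2
        ⟨_, mem_tb_single.2 ⟨rc_rc _ _, nearT_rc_right.2 ((nearT_add (mem_of_mem_erase a2)).mono
          (by omega))⟩, mem_tb_single.2 ⟨rc_rc _ _, nearT.refl _ _ _⟩⟩)) (conn_single _ _)
      (by simp [Pl, oM, nc]) (pP _ _) (by rw [us_MM, us_singleton]; rfl)
    have e2 := eqv _ _ (sP _ a3 (-q.2) (mem_erase.2 ⟨neg_ne_zero.2 (mem_erase.1 a2).1,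
      neg_mem_box (mem_erase.1 a2).2⟩)) (sP _ a1 _ a2) (conn_single _ _) (conn_single _ _) (pP _ _)
      (pP _ _) (by simp only [us_singleton, sp, oP, bs, rc_back ok a1, pair_comm])
    simp only [hφ, hμ, e1, e2]
    split_ifs with a4
    · obtain ⟨a5, a6⟩ := pl _ a4 (pP _ _)
      rw [a6, mul_one]
      exact C.c2 _ a1 _ a2 a5
    · simp
  have m8 : ‖∑ o ∈ (lps (box (S.nf / 2))).filter (Sm1 S), φ {.inl (.inl o)} +
      ∑ q ∈ S.Λ' ×ˢ S.X1s, φ {oS q.1 q.2}‖ ≤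
      ∑ o ∈ (lps (box (S.nf / 2))).filter (Sm1 S), μ (.inl (.inl o)) := by
    rw [smo_eq ok fun y X => φ {oS y X}, ← sum_add_distrib]
    refine norm_sum_le_of_le _ fun o ho => ?_
    obtain ⟨a1, a2⟩ := mem_filter.1 ho
    have pX : Pl {.inl (.inl o)} := by simp [Pl, nc, a2.1]
    have e1 : ∀ y ∈ dn S.l S.n o.1, {oS y (trS S.nf (-up S.l y) o.1)} ∈ F ↔ {.inl (.inl o)} ∈ F :=
      fun y hy => eqv _ _ (by simpa [oS, obs, mks] using (smo_inv ok ho hy).1)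
        (by simpa [obs] using a1) (conn_single _ _) (conn_single _ _) (by simp [Pl, oS, nc]) pX
        (by simp only [us_singleton, sp, oS, bs, (smo_inv ok ho hy).2])
    rw [sum_congr rfl fun y hy => if_congr (e1 y hy) rfl rfl]
    simp only [hφ, hμ]
    split_ifs with a4
    · obtain ⟨a5, a6⟩ := pl _ a4 pX
      rw [a6, mul_one, w1, if_pos a2]
      obtain ⟨X, c⟩ := o
      obtain rfl : c = ∅ := a2.1
      simpa [wo, oX] using C.c3 X (mem_lps.1 a1).1 (mem_lps.1 a1).2.1 a2.2 a5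
    · simp
  have m9 := sum_nonneg fun (q : St × St) (_ : q ∈ S.Λ' ×ˢ S.prs) => μ0 (oP q.1 q.2)
  have m10 := sum_nonneg fun (q : St × Finset St) (_ : q ∈ S.Λ' ×ˢ S.X1s) => μ0 (oS q.1 q.2)
  have key := sum_split (S := S) (F := F) (fun O hO => ((mF O).1 hO).1.1) (S.wO ψ K W)
  change _ = _ + 2 • ∑ o ∈ S.obs, φ {o} + ∑ q ∈ _, φ _ at key
  rw [sum_obs, ← sum_filter_add_sum_filter_not _ (Sm1 S), ← sum_filter_add_sum_filter_not
    S.Λ'.offDiag fun q => nearT S.n (2 * S.D0) q.1 q.2] at key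
  rw [sum_obs, ← sum_filter_add_sum_filter_not (lps _) (Sm1 S)]
  have alg : ∀ x x0 x1 x2 x3 x4 x5 x6 x7 x8 x9 x10 : ℂ,
      2 • x = 2 • x0 + 2 • (x8 + x1 + (x2 + x3) + (x5 + (x9 + (x10 + x4)))) + (x7 + x6) → 2 * ‖x‖ ≤
      2 * (‖x0‖ + ‖x1‖ + ‖x2‖ + ‖x3‖ + ‖x4‖ + ‖x5‖ + ‖x8 + x10‖) + ‖x6‖ + ‖x7 + 2 • x9‖ := by
    intro x x0 x1 x2 x3 x4 x5 x6 x7 x8 x9 x10 e
    have e' : 2 * x = 2 * (x0 + x1 + x2 + x3 + x4 + x5 + (x8 + x10)) + x6 + (x7 + 2 • x9) := by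
      simp only [two_smul] at e ⊢
      linear_combination e
    rw [← Complex.norm_two, ← norm_mul, e']
    refine norm_add₃_le.trans ?_
    rw [norm_mul]
    gcongr
    iterate 6 refine (norm_add_le _ _).trans (add_le_add_left ?_ _)
    rfl
  linarith [alg _ _ _ _ _ _ _ _ _ _ _ _ key]

end Hy

theorem lv_a (K0 K A M : ℕ) (β : ℝ) :
    (lv K0 (K + A) M β).a = ((lv K0 K M β).ad (2 * A * Real.log M)).a := by
  simp only [lv, Pa.ad, Real.log_pow]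
  push_cast
  ring

theorem wgt_eq (p : Pa) (n : ℕ) (X : Finset St) (c : Finset (Finset St)) :
    wgt p n X c = Real.exp (p.a * tau n p.D X) * Real.exp (cw p n c) := Real.exp_add _ _

/-- the majorant with the weights of the cores of the larger exponent -/
def rs (S : Sd) (A : ℕ) (k : Mj) : Mj := fun X c =>
  k X c * Real.exp (cw S.p S.nf c - cw (S.wK A).p S.nf c)

theorem kN_rs (hk : kN (S.pA A) S.nf k θ) : kN (S.wK A).p (S.wK A).nf (rs S A k) θ := by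
  refine ⟨fun X c => mul_nonneg (hk.1 X c) (Real.exp_nonneg _), fun x => le_of_eq_of_le
    (sum_congr rfl fun o _ => ?_) (hk.2 x)⟩
  rw [rs, wgt_eq, wgt_eq, mul_assoc, mul_left_comm (Real.exp _), ← Real.exp_add (_ - _),
    show (S.wK A).nf = S.nf from rfl, sub_add_cancel, show (S.wK A).p.a = (S.pA A).a from lv_a ..]
  rfl

theorem Q_le (S : Sd) (A : ℕ) : S.Q ≤ (S.wK A).Q := pw S.toTd (Nat.le_add_right _ _)

theorem Qp_le (S : Sd) (A i : ℕ) : S.Q ^ i ≤ (S.wK A).Q ^ i := pow_le_pow_left₀ S.Q0.le (Q_le S A) i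

theorem wo_le (g0 : 0 ≤ S.g) (b0 : 0 ≤ b) : ∀ o, S.wo b k o ≤ (S.wK A).wo b (rs S A k) o
  | .inl (.inl o) => le_of_eq (by
      simp only [wo, rs, cw, sum_sub_distrib, mul_assoc, ← Real.exp_add]
      congr 2
      change _ = _ - _ + (∑ C ∈ o.2, ((S.wK A).p.G0 + (S.wK A).p.G2 * tau S.nf (S.wK A).p.D C) -
        ∑ C ∈ o.2, (S.D0 : ℝ))
      ring)
  | .inl (.inr _) => le_rfl
  | .inr (.inl _) => mul_le_mul_of_nonneg_right (Qp_le S A _) (add_nonneg g0 b0)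
  | .inr (.inr (.inl _)) => mul_le_mul_of_nonneg_right (Qp_le S A _) (sq_nonneg _)
  | .inr (.inr (.inr (.inl _))) => le_of_eq (by simp [wo, wk, rs, cw]; rfl)
  | .inr (.inr (.inr (.inr _))) => le_rfl

theorem θ2_le (g0 : 0 ≤ S.g) (b0 : 0 ≤ b) : S.θ2 b ≤ (S.wK A).θ2 b :=
  mul_le_mul_of_nonneg_right (Qp_le S A _) (by positivity)

theorem kL_le {ι : Type} {T : Finset ι} {sp : ι → Finset St} {Z : ι → Finset (Finset St)}
    {w w' : ι → ℝ} (hw : ∀ i, w i ≤ w' i) (Y : Finset St) (c : Finset (Finset St)) :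
    kL S.p' S.n T sp Z w Y c * wgt (S.pA' A).up S.n Y c ≤
      kL (S.wK A).p' S.n T sp Z w' Y c * wgt (S.wK A).p'.up S.n Y c := by
  have e : ∀ p : Pa, Real.exp (-cw p S.n c) * Real.exp (cw p S.n c) = 1 := fun p => by
    rw [← Real.exp_add, neg_add_cancel, Real.exp_zero]
  rw [kL, kL, wgt_eq, wgt_eq, mul_assoc, mul_assoc, mul_left_comm (Real.exp _),
    mul_left_comm (Real.exp (-_)), show cw (S.pA' A).up = cw S.p' from rfl,
    show cw (S.wK A).p'.up = cw (S.wK A).p' from rfl, e, e,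
    show (S.wK A).p'.up.a = (S.pA' A).up.a from congrArg (· + 1) (lv_a ..)]
  exact mul_le_mul_of_nonneg_right (sum_le_sum fun i _ => ite_le_ite_of fun _ => hw i)
    (by positivity)

theorem Hy.kN2 (h : Hy S) (h2 : (S.wK A).Nu 0) (b0 : 0 ≤ b) (hb : (S.wK A).Q ^ 100 * b ≤ 1)
    (hθ : (S.wK A).Q ^ 100 * θ ≤ 1) (hk : kN (S.pA A) S.nf k θ) {t : ℝ}
    (e : (S.Q ^ 10)⁻¹ + 10 * t = ((S.wK A).Q ^ 10)⁻¹ + 10 * θ) :
    kN (S.pA' A).up S.n (kk S b t k) ((S.wK A).θ' b θ) := by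
  have H : Hy (S.wK A) := ⟨h2, h.op⟩
  have a := H.kN_kk b0 hb hθ (kN_rs hk)
  have g0 := h.nu.ok.g0.le
  have w0 := wo_nonneg h.nu.ok h.op b0 hk.1
  have t0 : 0 ≤ (S.Q ^ 10)⁻¹ + 10 * t := by
    have := hk.nonneg
    have := (S.wK A).Q0
    rw [e]; positivity
  have w2 := h.w1_nn b0 hk.1 t0
  have z : ∀ {ι : Type} {T : Finset ι} {sp : ι → Finset St} {Z : ι → Finset (Finset St)}
      {w : ι → ℝ}, (∀ i, 0 ≤ w i) → ∀ Y c, 0 ≤ kL S.p' S.n T sp Z w Y c := fun hw Y c =>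
    mul_nonneg (sum_nonneg fun i _ => ite_nonneg (hw i) le_rfl) (Real.exp_nonneg _)
  refine ⟨fun Y c => add_nonneg (add_nonneg (z (fun O => prod_nonneg fun o _ => w0 o) Y c)
    (z w2 Y c)) (z (fun _ => sq_nonneg _) Y c), fun x => le_trans (sum_le_sum fun o _ => ?_) (a.2 x)⟩
  simp only [kk, Pi.add_apply, add_mul]
  refine add_le_add (add_le_add (kL_le (fun O => prod_le_prod (fun o _ => w0 o)
    fun o _ => wo_le g0 b0 o) _ _) (kL_le (fun o => ?_) _ _)) (kL_le (fun _ =>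
      pow_le_pow_left₀ (h.θ2_nonneg b0) (θ2_le g0 b0) 2) _ _)
  rcases o with (o | y) | y | q | q | Z
  · rw [w1, w1, e]
    exact mul_le_mul_of_nonneg_right (wo_le g0 b0 _) (ite_nonneg (e ▸ t0) zero_le_one)
  exacts [le_rfl, θ2_le g0 b0, θ2_le g0 b0, le_rfl, le_rfl]

end Kp

open Kp En.Mg in
theorem kN_pA {S : Sd} {A : ℕ} {k : Mj} {θ : ℝ} (hk : kN (S.pA A) S.nf k θ) : kN S.p S.nf k θ :=
  ad_zero S.p ▸ kN_drop hk (mul_nonneg (by positivity) (Real.log_natCast_nonneg _))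

open Kp in
theorem ev_stA (c : ℕ) : ∀ᶠ S in ev c, S.StA := by
  filter_upwards [ev_hy c, hole_bd c, canc1 c, canc2 c, canc2far c, ev_fo c, kr_loc c]
    with S h h0 h1 h2 h3 h4 h5 A n2 b θ k hb hθ b0 hk
  have θ0 := hk.nonneg
  have q0 := (S.wK A).Q0
  have e : (S.Q ^ 10)⁻¹ + 10 * ((((S.wK A).Q ^ 10)⁻¹ + 10 * θ - (S.Q ^ 10)⁻¹) / 10) =
      ((S.wK A).Q ^ 10)⁻¹ + 10 * θ := by ring
  refine ⟨_, h.kN2 n2 b0 hb hθ hk e, fun ψ K p1 p2 => ?_⟩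
  have s : S.Sml b θ k ψ K := ⟨(mul_le_mul_of_nonneg_right (Qp_le S A _) b0).trans hb,
    (mul_le_mul_of_nonneg_right (Qp_le S A _) θ0).trans hθ, p1, p2, kN_pA hk⟩
  refine Xp.km_of (fun Y c' => (h5 b θ k ψ K s Y c').1) (fun Y c' => (h5 b θ k ψ K s Y c').2)
    fun Y c' W hW => h.kr_le2 b0 hk.1 (by rw [e]; positivity) ⟨fun O hO u =>
      (h0 b θ k ψ K s W hW O hO u).2, h1 b θ k ψ K s W hW, h2 b θ k ψ K s W hW,
      h3 b θ k ψ K s W hW, fun X hX x0 ht i => ?_⟩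
  have k0 := hk.1 X ∅
  have k1 := s.kn.le h.nu.a0 hX x0
  have q := (h.nu.cQ' (C := 2) (by norm_num)).trans (le_self_pow₀ S.Q1 (n := 100) (by norm_num))
  have g : S.g ^ 30 ≤ ((S.wK A).Q ^ 10)⁻¹ := by
    rw [← one_div, le_div_iff₀' (pow_pos q0 _)]
    refine le_trans ?_ (n2.ok.Qg_le (i := 0) (j := 10) (by norm_num))
    rw [pow_zero, one_mul]
    exact mul_le_mul_of_nonneg_left (pow_le_of_le_one h.nu.ok.g0.le h.nu.ok.g1 (n := 30)
      (by norm_num)) (pow_pos q0 _).le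
  rw [e]
  refine (Sd.c3 h4 hW hX x0 ht i (s.km.k1 X) (by nlinarith [s.θ_le])).trans ?_
  nlinarith

end Pool.Agent.Lib.MP_7f377f_mp.RG.Q4
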