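import Pool.Agent.Lib.MP_7f377f_mp.G.S15A
import Pool.Agent.Lib.MP_7f377f_mp.G.JuK2

/-! The continuum limit together with a run whose steps have a given property. -/

noncomputable section

set_option linter.unusedSectionVars false
variable [Pool.Agent.Lib.MP_7f377f_mp.GD]

namespace Pool.Agent.Lib.MP_7f377f_mp.RG.Q4.En

open YM7 Filter MeasureTheory Topology Real L6 Pur Set

theorem exists_oksP (P : Sd → Prop) (hP : ∀ c, ∀ᶠ S in ev c, P S) :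
    ∃ G : Gl, G.Oks ∧ G.HT ∧ G.HP P := by
  obtain ⟨c, h1⟩ := tree_lin
  obtain ⟨G, -, -, -, a3, a4⟩ := exists_gl2 h1 (Af.af_all h1) _
    (inter_mem (inter_mem (ev_pu c) (ev_HT c)) (hP c)) 0 0
  exact ⟨G, fun m => have o := a4 _ (odd_two_mul_add_one m); ⟨o, fun k z t => (a3 _
    ((Gl.Ok.sd_all o k z).nu.ok) rfl rfl rfl rfl rfl (o.sch.big k) t).1.1⟩,
    fun S o e0 e1 e2 e3 e4 e5 t => (a3 S o e0 e1 e2 e3 e4 e5 t).1.2,
    fun S o e0 e1 e2 e3 e4 e5 t => (a3 S o e0 e1 e2 e3 e4 e5 t).2⟩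

theorem Gl.HP.wm {G : Gl} {P : Sd → Prop} (h : G.HP P) (m : ℕ) : (G.wm m).HP P := h

theorem Gl.HP.imp {G : Gl} {P P' : Sd → Prop} (h : G.HP P) (e : ∀ S, P S → P' S) : G.HP P' :=
  fun S o e0 e1 e2 e3 e4 e5 t => e S (h S o e0 e1 e2 e3 e4 e5 t)

theorem big_wm {G : Gl} {A k m : ℕ} : (G.wm m).Big A k ↔ G.Big A k := Iff.rfl

theorem out_allP (P : Sd → Prop) (hP : ∀ c, ∀ᶠ S in ev c, P S) [m : MeasurableSpace SU2]
    [BorelSpace SU2] (h : Measure SU2) [h.IsHaarMeasure] [IsProbabilityMeasure h] :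
    ∃ (G : Gl) (β : ℕ × ℕ → ℝ), G.Oks ∧ G.HT ∧ G.HP P ∧ G.Tus β ∧ ∀ Φ : Filter ℕ,
      Poly2 h (Φ ×ˢ atTop) G.nn G.aa β (fun p => 4 * ta p) ∧
        ∀ K, Short h (Φ ×ˢ atTop) G.nn G.aa β K := by
  choose C hC using short_of2 h
  obtain rfl : m = Fi.mS := BorelSpace.measurable_eq
  have : (Fi.tr haar).IsHaarMeasure := (inferInstance : haar.IsHaarMeasure)
  obtain rfl := Measure.isHaarMeasure_eq_of_isProbabilityMeasure h (Fi.tr haar)
  obtain ⟨G, o, ht, hq⟩ := exists_oksP P hP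
  obtain ⟨β, hβ⟩ := o.tus1
  exact ⟨G, fun p => β p.2, o, ht, hq, hβ, fun Φ => ⟨o.poly2 hβ (fun p _ e =>
    ((o _).1.tan_main (o _).2 (hβ p) e).1.sz) Φ, fun K k hk f hf η hη =>
      (hC K _ _ _ _ (cmp2_main G _ o hβ K _) k hk f hf η hη).mono fun _ =>
        Eventually.filter_mono (prod_mono_left _ le_top)⟩⟩

theorem out_runP (P : Sd → Prop) (hP : ∀ c, ∀ᶠ S in ev c, P S) [m : MeasurableSpace SU2] [BorelSpace SU2] (h : Measure SU2) [h.IsHaarMeasure]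
    [IsProbabilityMeasure h] : ∃ (n : ℕ → ℕ+) (a b : ℕ → ℝ) (S : Pol →ₗ[ℂ] ℂ),
      Tendsto a atTop (𝓝[>] 0) ∧ Tendsto (fun j => a j * n j) atTop atTop ∧
      Tendsto (fun j => b j / log (a j)⁻¹) atTop (𝓝 (11 * GD.b0 / (48 * π ^ 2))) ∧
      (∀ Z ∈ Loc univ, Tendsto (fun j => vev h (b j) (n j) (a j) Z) atTop (𝓝 (S Z))) ∧
      ∃ G β U S₀, Rn G β U S₀ S ∧ G.HP P := by
  obtain ⟨G, β, o, ht, hq, hβ, e⟩ := out_allP P hP h
  obtain rfl : m = Fi.mS := BorelSpace.measurable_eq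
  have : (Fi.tr haar).IsHaarMeasure := (inferInstance : haar.IsHaarMeasure)
  obtain rfl := Measure.isHaarMeasure_eq_of_isProbabilityMeasure h (Fi.tr haar)
  have hF := o.fam hβ
  have hC := cellA_of_poly2 hF (e _).1
  have hA := fun K => shortA_of hF ((e _).2 K) (o.arr2 hβ _ K)
  have z := fun (p : ℕ × ℕ) k (e : k ≤ p.2) => ((o p.1).1.tan_main (o p.1).2 (hβ p) e).1.sz
  have hP := Lg.polyC_of hF (o.poly3 hβ z _)
  have hB := hC.cell.bd7 hF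
  obtain ⟨U, S₀, S, n', a', b', e0, e1, e2, e3, e4, e5, e6, e7, e8⟩ := lim10 (Φ := fast)
    ⟨hF.a0.mono_left fast_le, hF.vol.mono_left fast_le, hF.cpl.mono_left fast_le,
      hF.tau.mono_left fast_le⟩
    (fun k R δ δ0 => (hB k R δ δ0).imp fun _ e => ⟨e.1, e.2.filter_mono fast_le⟩)
    (fun K k hk f hf η η0 => (hA K k hk f hf η η0).mono fun _ => .imp fun _ e =>
      ⟨e.1, e.2.1, fun lo hi => (e.2.2 lo hi).filter_mono fast_le⟩)
    (hP.imp fun _ e => ⟨e.1, e.2.mono fun _ => .filter_mono fast_le⟩)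
    (swapL_of thD hF (N := G.e) (fun _ => rfl) fun _ => rfl)
  have u := e0.le.trans fast_le
  have e9 := Ro.o4 e5.st e5.lin (Lg.qual_of e5.st e5.lin e5.grow) e6 e7 e8
    (Th.thinQ_of e5.st e5.lin e0.lift (Th.arrT_of hF (o.poly4 hβ z _) u e0.cv))
  refine ⟨n', a', b', S, e1, e2, e3, e4, G, β, U, S₀, ⟨o, ht, hβ, e0,
    ⟨u, e0.cv, fun hf _ e => e0.nr hf (e.filter_mono fast_le), e0.lift⟩, e5,
    fun R _ k f hf => ?_, e9, arrS_of hF hC u e0.cv, Lg.prodS_of hF hP u e0.cv⟩, hq⟩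
  have := e9 R.symm _ (mon_mem hf fun _ => subset_univ _)
  rwa [Ro.act_mon] at this

end Pool.Agent.Lib.MP_7f377f_mp.RG.Q4.En
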