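import Pool.Agent.Lib.MP_7f377f_mp.G.Q5FamB

/-! Tracks of lattice sites through the levels and their digits. -/

noncomputable section

set_option linter.unusedSectionVars false
variable [Pool.Agent.Lib.MP_7f377f_mp.GD]

namespace Pool.Agent.Lib.MP_7f377f_mp.RG.Q4.En

open Finset Real Sg

attribute [local irreducible] box lbox tb

theorem rc_sub (l : ℕ) (x : St) : rc (LL l) x = x - up l (yo l x) := by
  have := rc_add_smul (LL l) (x - up l (yo l x)) (yo l x)
  rw [show x - up l (yo l x) + (LL l : ℤ) • yo l x = x from sub_add_cancel _ _] at this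
  rw [this]
  exact rc_eq ⟨l, rfl⟩ (by rw [show (2 * l + 1) / 2 = l by omega]; exact Op.sub_up_yo l x)

theorem ex_digit1 {ι : Type} [Fintype ι] {l r : ℕ} (h : Fintype.card ι * (2 * (l - r)) < LL l)
    (t : ι → ℤ) : ∃ s : ℤ, ∀ a, -(r : ℤ) ≤ (t a + s + l) % LL l - l ∧ (t a + s + l) % LL l - l ≤ r := by
  classical
  have L0 := Op.LL_pos l
  have L1 := Op.LL_cast l
  obtain ⟨s, h1, h2⟩ := exists_mem_notMem_of_card_lt_card (t := Ico (0 : ℤ) (LL l))
    (s := univ.biUnion fun a => (Ico (0 : ℤ) (l - r) ∪ Ioc (l + r : ℤ) (2 * l)).image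
      fun u => (u - t a - l) % LL l) (by
    refine card_biUnion_le.trans_lt ((sum_le_card_nsmul _ _ (2 * (l - r)) fun a _ =>
      card_image_le.trans ((card_union_le _ _).trans ?_)).trans_lt ?_)
    · rw [Int.card_Ico, Int.card_Ioc]; omega
    · rw [Int.card_Ico, card_univ, smul_eq_mul]; omega)
  refine ⟨s, fun a => by_contra fun e => h2 (mem_biUnion.2 ⟨a, mem_univ _,
    mem_image.2 ⟨(t a + s + l) % LL l, ?_, ?_⟩⟩)⟩
  · have a1 := Int.emod_nonneg (t a + s + l) L0.ne'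
    have a2 := Int.emod_lt_of_pos (t a + s + l) L0
    simp only [mem_union, mem_Ico, mem_Ioc]
    omega
  · rw [sub_sub, Int.emod_sub_emod, show t a + s + l - (t a + l) = s by ring]
    exact Int.emod_eq_of_lt (mem_Ico.1 h1).1 (mem_Ico.1 h1).2

/-- a common shift which makes all residues small -/
theorem ex_digit {ι : Type} [Fintype ι] {l r : ℕ} (h : Fintype.card ι * (2 * (l - r)) < LL l)
    (x : ι → St) : ∃ w : St, ∀ a, rc (LL l) (x a + w) ∈ box r := by
  choose w hw using fun μ => ex_digit1 h fun a => x a μ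
  refine ⟨w, fun a => Op.mem_box.2 fun μ => ?_⟩
  simpa only [rc, show LL l / 2 = l by unfold LL; omega, Pi.add_apply] using hw μ a

attribute [local irreducible] rc

namespace Gl

/-- the block of level `k` which contains the site `x` of level `J` -/
def tk (G : Gl) (x : St) (J k : ℕ) : St := dw (fun k y => yo (G.l k) y) x J k

/-- tracks whose digits are at most `r` -/
def Dg (G : Gl) (r : ℕ → ℕ) (c : ℕ → St) (j J : ℕ) : Prop := ∀ k, j ≤ k → k < J →
  c k = yo (G.l k) (c (k + 1)) ∧ rc (G.L k) (c (k + 1)) ∈ box (r k)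

/-- the bound for good digits -/
def gd (G : Gl) (k : ℕ) : ℕ := 7 * G.L k / 16

variable {G : Gl} {x x' v : St} {i j k J R : ℕ} {r r' : ℕ → ℕ} {c : ℕ → St} {μ : Fin 4}
  {X : Finset St}

theorem tk_top : G.tk x J J = x := dw_top ..

theorem tk_step (h : k < J) : G.tk x J k = yo (G.l k) (G.tk x J (k + 1)) := dw_step _ _ h

theorem tk_tk (hj : j ≤ i) : ∀ k ≤ j, G.tk (G.tk x i j) j k = G.tk x i k :=
  dw_ind tk_top fun k hk ih => by rw [tk_step hk, ih, tk_step (hk.trans_le hj)]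

theorem tk_map {g : St → St} (hg : ∀ l y, yo l (g y) = g (yo l y)) :
    ∀ k ≤ J, G.tk (g x) J k = g (G.tk x J k) :=
  dw_ind (by rw [tk_top, tk_top]) fun k hk ih => by rw [tk_step hk, ih, hg, tk_step hk]

theorem yo_neg (l : ℕ) (y : St) : yo l (-y) = -yo l y := by
  have := Op.yo_add_box (Op.box_neg (Op.sub_up_yo l y)) (-yo l y)
  rwa [Op.up_neg, neg_sub, sub_add_eq_add_sub, add_neg_cancel, zero_sub] at this

theorem tk_neg (hk : k ≤ J) : G.tk (-x) J k = -G.tk x J k := tk_map (g := Neg.neg) yo_neg k hk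

theorem tk_perm (σ : Fin 4 → Fin 4) (hk : k ≤ J) :
    G.tk (fun i => x (σ i)) J k = fun i => G.tk x J k (σ i) :=
  tk_map (g := fun x i => x (σ i)) (fun _ _ => rfl) k hk

theorem tk_rfl (μ : Fin 4) (hk : k ≤ J) : G.tk (Function.update x μ (-x μ)) J k =
    Function.update (G.tk x J k) μ (-G.tk x J k μ) :=
  tk_map (g := fun x => Function.update x μ (-x μ)) (fun l y => funext fun i => by
    by_cases e : i = μ
    · simpa [e, yo] using congrFun (yo_neg l y) μ
    · simp [e, yo]) k hk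

theorem tk_axis (e : x μ = x' μ) : ∀ k ≤ J, G.tk x J k μ = G.tk x' J k μ :=
  dw_ind (by rwa [tk_top, tk_top]) fun k hk ih => by
    rw [tk_step hk, tk_step hk, yo, yo, ih]

theorem tk_zero (hk : k ≤ J) (e : G.tk x J k = 0) : ∀ i ≤ k, G.tk x J i = 0 :=
  dw_ind e fun i hi ih => by
    rw [tk_step (hi.trans_le hk), ih, Op.yo_eq_zero.2 (zero_mem_box _)]

theorem Dg.mono (h : G.Dg r c j J) (hj : j ≤ k) (hJ : i ≤ J) (hr : ∀ k, r k ≤ r' k) :
    G.Dg r' c k i := fun m a b =>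
  (h m (hj.trans a) (b.trans_le hJ)).imp_right (box_mono (hr m))

theorem Dg.eq (h : G.Dg r c j J) : ∀ k ≤ J, j ≤ k → c k = G.tk (c J) J k :=
  dw_ind (fun _ => tk_top.symm) fun k hk ih hj => by
    rw [tk_step hk, ← ih (by omega), (h k hj hk).1]

theorem Dg.trans (h : G.Dg r c k J) (h' : G.Dg r c j k) : G.Dg r c j J := fun m a b =>
  (lt_or_ge m k).elim (h' m a) fun e => h m e b

/-- the digit -/
theorem Dg.sub (h : G.Dg r c j J) (hj : j ≤ k) (hk : k < J) :
    c (k + 1) - up (G.l k) (c k) ∈ box (r k) := by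
  rw [(h k hj hk).1, ← rc_sub]
  exact (h k hj hk).2

theorem dg_tk : G.Dg r (G.tk x J) j J ↔
    ∀ k, j ≤ k → k < J → rc (G.L k) (G.tk x J (k + 1)) ∈ box (r k) :=
  ⟨fun h k a b => (h k a b).2, fun h k a b => ⟨tk_step b, h k a b⟩⟩

/-- a track which has reached the centre -/
theorem Dg.low (h : G.Dg r (G.tk x J) (k + 1) J) (hk : k < J) (hr : r k ≤ G.l k)
    (e : G.tk x J (k + 1) ∈ box (r k)) :
    (∀ i ≤ k, G.tk x J i = 0) ∧ G.Dg r (G.tk x J) 0 J := by
  have a := tk_zero hk.le (by rw [tk_step hk, Op.yo_eq_zero.2 (box_mono hr e)])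
  have b : ∀ m {y}, y ∈ box (G.l m) → rc (G.L m) y = y := fun m y hy =>
    rc_eq ⟨G.l m, rfl⟩ (by rwa [show (2 * G.l m + 1) / 2 = G.l m by omega])
  refine ⟨a, dg_tk.2 fun m _ hm => ?_⟩
  rcases lt_trichotomy m k with u | rfl | u
  · rw [a _ u, b _ (zero_mem_box _)]
    exact zero_mem_box _
  · rwa [b _ (box_mono hr e)]
  · exact (h m u hm).2

namespace Ok

variable (h : G.Ok)
include h

theorem rt_rt (hk : k ≤ j) (hj : j ≤ i) : G.rt i k = G.rt i j * G.rt j k := by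
  have a := h.sch.mono.monotone hk
  have b := h.sch.mono.monotone hj
  rw [rt, rt, rt, ← pow_add]
  congr 1
  omega

theorem rt_L (k : ℕ) : G.rt (k + 1) k = G.L k := by
  rw [h.rt_step k.lt_succ_self, rt_top, mul_one]

omit h in
theorem rt_half (i k : ℕ) : 2 * (G.rt i k / 2) + 1 = G.rt i k :=
  Nat.two_mul_div_two_add_one_of_odd (odd3 _)

theorem gd_le (k : ℕ) : G.gd k ≤ G.l k - 2 := by
  have := h.L_big k
  unfold gd L LL at *
  omega

theorem tk_add (v : St) :
    ∀ i ≤ J, k ≤ i → G.tk (x + (G.rt J k : ℤ) • v) J i = G.tk x J i + (G.rt i k : ℤ) • v :=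
  dw_ind (fun _ => by rw [tk_top, tk_top]) fun i hi ih hk => by
    rw [tk_step hi, ih (by omega), tk_step hi, h.rt_rt hk i.le_succ, h.rt_L, Nat.cast_mul,
      mul_smul]
    exact Op.yo_add_up _ _ _

theorem dg_add (e : G.Dg r (G.tk x J) k J) (v : St) :
    G.Dg r (G.tk (x + (G.rt J k : ℤ) • v) J) k J := dg_tk.2 fun m a b => by
  rw [h.tk_add v _ b (by omega), h.rt_rt a m.le_succ, h.rt_L, Nat.cast_mul, mul_smul,
    rc_add_smul]
  exact (e m a b).2

/-- the digits depend only on the classes of the coordinates -/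
theorem dg_axis (e : ∀ μ, ∃ p, G.Dg r (G.tk p J) k J ∧ (G.rt J k : ℤ) ∣ x μ - p μ) :
    G.Dg r (G.tk x J) k J := dg_tk.2 fun m a b => Op.mem_box.2 fun μ => by
  obtain ⟨p, p1, q, p2⟩ := e μ
  have := Op.mem_box.1 (h.dg_add p1 (fun _ => q) m a b).2 μ
  have u := tk_axis (G := G) (x := x) (x' := p + (G.rt J k : ℤ) • fun _ => q) (μ := μ)
    (by rw [Pi.add_apply, Pi.smul_apply, smul_eq_mul, ← p2, add_sub_cancel]) (m + 1) b
  unfold rc at this ⊢
  rwa [u]

theorem ex_shift {ι : Type} [Fintype ι] (hr : ∀ k, Fintype.card ι * (2 * (G.l k - r k)) < G.L k)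
    (x : ι → St) : ∀ k ≤ J, ∃ w, ∀ a, G.Dg r (G.tk (x a + w) J) k J :=
  dw_ind ⟨0, fun _ _ a b => absurd b a.not_gt⟩ fun k hk ⟨w, hw⟩ => by
    obtain ⟨v, hv⟩ := ex_digit (hr k) fun a => G.tk (x a + w) J (k + 1)
    refine ⟨w + (G.rt J (k + 1) : ℤ) • v, fun a => dg_tk.2 fun m a1 a2 => ?_⟩
    rw [← add_assoc]
    rcases a1.eq_or_lt with rfl | u
    · rw [h.tk_add v _ hk le_rfl, rt_top, Nat.cast_one, one_smul]
      exact hv a
    · exact (h.dg_add (hw a) v m u a2).2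

/-- at most seven points: good digits above the level `k`, one point is centred below -/
theorem ex_track {ι : Type} [Fintype ι] (hι : Fintype.card ι ≤ 7) (x : ι → St) (a₀ : ι)
    (hk : k ≤ J) : ∃ w, (∀ a, G.Dg G.gd (G.tk (x a + w) J) k J) ∧
      (∀ i ≤ k, G.tk (x a₀ + w) J i = 0) ∧ G.Dg G.gd (G.tk (x a₀ + w) J) 0 J := by
  obtain ⟨w, hw⟩ := h.ex_shift (r := G.gd) (fun k => (Nat.mul_le_mul_right _ hι).trans_lt (by
    have := h.L_big k
    unfold gd L LL at *
    omega)) x k hk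
  obtain ⟨u, e⟩ : ∃ u, u = w + (G.rt J k : ℤ) • -G.tk (x a₀ + w) J k := ⟨_, rfl⟩
  have a : ∀ a, G.Dg G.gd (G.tk (x a + u) J) k J := fun a => by
    rw [e, ← add_assoc]
    exact h.dg_add (hw a) _
  have b := tk_zero (G := G) (x := x a₀ + u) hk (by
    rw [e, ← add_assoc, h.tk_add _ _ hk le_rfl, rt_top, Nat.cast_one, one_smul, add_neg_cancel])
  refine ⟨u, a, b, (a a₀).trans fun m _ hm => ⟨tk_step (hm.trans_le hk), ?_⟩⟩
  rw [b _ hm, rc_eq (n := G.L m) ⟨G.l m, rfl⟩ (zero_mem_box _)]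
  exact zero_mem_box _

theorem sub_step (hk : k < J) {y : St} {a : ℕ}
    (e : x - (G.rt J (k + 1) : ℤ) • y ∈ box R) (e' : rc (G.L k) y ∈ box a) :
    x - (G.rt J k : ℤ) • yo (G.l k) y ∈ box (G.rt J (k + 1) * a + R) := Op.mem_box.2 fun μ => by
  have a1 := Op.mem_box.1 e μ
  have a2 := Op.mem_box.1 e' μ
  rw [L, rc_sub] at a2
  rw [h.rt_step hk]
  simp only [Pi.sub_apply, Pi.smul_apply, smul_eq_mul, Op.up_apply, L] at a1 a2 ⊢
  push_cast
  have p := Int.natCast_nonneg (G.rt J (k + 1))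
  constructor <;> nlinarith [mul_le_mul_of_nonneg_left a2.1 p, mul_le_mul_of_nonneg_left a2.2 p,
    a1.1, a1.2]

theorem tk_sub (x : St) : ∀ k ≤ J, x - (G.rt J k : ℤ) • G.tk x J k ∈ box (G.rt J k / 2) :=
  dw_ind (by simpa [tk_top, rt_top] using zero_mem_box _) fun k hk ih => by
    rw [tk_step hk]
    refine box_mono ?_ (h.sub_step hk ih (rc_mem ⟨G.l k, rfl⟩ _))
    have a := rt_half (G := G) J (k + 1)
    rw [h.rt_step hk, show (2 * G.l k + 1) / 2 = G.l k by omega, L, LL]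
    generalize G.rt J (k + 1) = n at *
    have : (2 * G.l k + 1) * n = 2 * (n * G.l k) + n := by ring
    omega

theorem tk_eq (hk : k ≤ J) : G.tk x J k = yo (G.rt J k / 2) x := by
  have := Op.yo_add_box (h.tk_sub x k hk) (G.tk x J k)
  rwa [up, LL, rt_half, sub_add_cancel, eq_comm] at this

/-- a good digit keeps the site away from the faces of its block -/
theorem dg_sub (e : G.Dg r (G.tk x J) k J) (hk : k < J) : x - (G.rt J k : ℤ) • G.tk x J k ∈
    box (G.rt J (k + 1) * r k + G.rt J (k + 1) / 2) := by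
  rw [tk_step hk]
  exact h.sub_step hk (h.tk_sub x _ hk) (e k le_rfl hk).2

/-- distances at the two levels -/
theorem tk_abs (hk : k ≤ J) (x x' : St) (μ : Fin 4) :
    |x μ - x' μ - G.rt J k * (G.tk x J k μ - G.tk x' J k μ)| < G.rt J k := by
  have a := Op.mem_box.1 (h.tk_sub x k hk) μ
  have b := Op.mem_box.1 (h.tk_sub x' k hk) μ
  have c := rt_half (G := G) J k
  simp only [Pi.sub_apply, Pi.smul_apply, smul_eq_mul] at a b
  rw [mul_sub, abs_lt]
  omega

theorem tk_near (hk : k ≤ J) (e : x - x' ∈ box R) :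
    G.tk x J k - G.tk x' J k ∈ box (R / G.rt J k + 1) := Op.mem_box.2 fun μ => by
  have a := abs_lt.1 (h.tk_abs hk x x' μ)
  have b := Op.mem_box.1 e μ
  have c : 0 < G.rt J k := pow_pos three_pos _
  have d : (R : ℤ) < G.rt J k * (R / G.rt J k + 1 : ℕ) := by exact_mod_cast Nat.lt_mul_div_succ R c
  have c' : (0 : ℤ) < G.rt J k := by exact_mod_cast c
  rw [Pi.sub_apply] at b ⊢
  constructor <;> by_contra u <;> rw [not_le, ← Int.add_one_le_iff] at u <;>
    nlinarith [mul_le_mul_of_nonneg_left u c'.le, a.1, a.2, b.1, b.2]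

theorem tk_far (hk : k ≤ J) (e : G.tk x J k - G.tk x' J k ∈ box R) :
    x - x' ∈ box (G.rt J k * (R + 1)) := Op.mem_box.2 fun μ => by
  have a := abs_lt.1 (h.tk_abs hk x x' μ)
  have b := Op.mem_box.1 e μ
  have p := Int.natCast_nonneg (G.rt J k)
  rw [Pi.sub_apply] at b ⊢
  push_cast
  constructor <;> nlinarith [mul_le_mul_of_nonneg_left b.1 p, mul_le_mul_of_nonneg_left b.2 p,
    a.1, a.2]

/-- distances on the torus -/
theorem tk_nearT (hk : k ≤ J) (e : nearT (G.N J) R x x') :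
    nearT (G.N k) (R / G.rt J k + 1) (G.tk x J k) (G.tk x' J k) := by
  rw [← h.rt_N hk, ← rt_half (G := G) J k] at e
  have := nearT.yo (l := G.rt J k / 2) e
  rwa [← h.tk_eq hk, ← h.tk_eq hk, LL, rt_half] at this

theorem tk_farT (hk : k ≤ J) (e : nearT (G.N k) R (G.tk x J k) (G.tk x' J k)) :
    nearT (G.N J) (G.rt J k * (R + 1)) x x' := by
  obtain ⟨v, hv⟩ := e
  refine ⟨v, ?_⟩
  have := h.tk_far (x := x' + (G.rt J k : ℤ) • -((G.N k : ℤ) • v)) (x' := x) (R := R) hk (by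
    rwa [h.tk_add _ _ hk le_rfl, rt_top, Nat.cast_one, one_smul, add_sub_right_comm,
      ← sub_eq_add_neg])
  rwa [add_sub_right_comm, smul_neg, ← sub_eq_add_neg, smul_smul, ← Nat.cast_mul,
    h.rt_N hk] at this

/-- the supports stay in balls around the track -/
theorem zs_tk (e : X ⊆ tb (G.N i) R {x}) :
    ∀ k ≤ i, G.zs X i k ⊆ tb (G.N k) (R / G.rt i k + 4 * G.L k ^ G.K0) {G.tk x i k} :=
  dw_ind (by
    rw [zs_top, rt_top, Nat.div_one, tk_top]
    exact e.trans (tb_mono Subset.rfl (by omega))) fun k hk ih w hw => by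
    rw [zs_step hk (G.top0 0 0)] at hw
    obtain ⟨a, u, hu, a'⟩ := mem_nxt.1 hw
    have := (mem_tb_single.1 (ih hu)).2
    rw [← h.N_succ] at this
    rw [tk_step hk]
    refine mem_tb_single.2 ⟨a, (this.yo.trans a').mono ?_⟩
    have L0 : 0 < G.L k := by linarith [h.L_big k]
    have a1 : 4 * G.L (k + 1) ^ G.K0 / G.L k ≤ G.L k ^ G.K0 :=
      Nat.div_le_of_le_mul (by have := h.D_step k; omega)
    have a2 := @Nat.add_div (R / G.rt i (k + 1)) (4 * G.L (k + 1) ^ G.K0) _ L0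
    have a3 := Nat.one_le_pow G.K0 _ L0
    rw [h.rt_step hk, mul_comm (G.L k), ← Nat.div_div_eq_div_mul]
    change _ / G.L k + 1 + G.L k ^ G.K0 ≤ _
    split_ifs at a2 <;> omega

end Ok

end Gl

end Pool.Agent.Lib.MP_7f377f_mp.RG.Q4.En
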