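import Pool.Agent.Lib.MP_7f377f_mp.G.JuH
import Pool.Agent.Lib.MP_7f377f_mp.G.KzP
import Pool.Agent.Lib.MP_7f377f_mp.JtL

/-! The linear data along a track. -/

noncomputable section

set_option linter.unusedSectionVars false
variable [Pool.Agent.Lib.MP_7f377f_mp.GD]

namespace Pool.Agent.Lib.MP_7f377f_mp.RG

namespace Jt

attribute [local irreducible] box lbox

variable {R R' s : ℕ} {m m' : BF} {v σ σ' t t' K K' : ℝ}

theorem sec_congr (h : Lv R m v σ) (ht : Sc R s σ t K) (h' : Lv R' m' 1 σ') (ht' : Sc R' s σ' t' K')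
    (hs : 2 ≤ s) (e : Mo R m = v • Mo R' m') : sec R m v s = sec R' m' 1 s := by
  have a : ∀ j ∈ Zc s, v • ri R m s j = ri R' m' s j := fun j hj => by
    obtain ⟨i, hi, h1, h2⟩ := h.ri ht j hj
    obtain ⟨i', hi', h3, h4⟩ := h'.ri ht' j hj
    rw [e, LinearMap.smul_apply] at h2
    rw [h1, h3, ← map_smul, sub_eq_zero.1 (h'.inj ht' (sub_mem (Submodule.smul_mem _ v hi) hi') (by
      rw [map_sub, map_sub, map_sub, h4, map_smul, map_smul, h2, sub_self]))]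
  refine LinearMap.ext fun c => ?_
  rw [sec_ap, sec_ap, on_ap, on_ap, e, LinearMap.smul_apply, map_smul, map_smul, map_smul,
    a _ (h'.mem (p0_mem _)), a _ (pT_mem hs _), one_smul]

theorem lv_zero (hR : 1 ≤ R) (h1 : 2⁻¹ ≤ v) (h2 : v ≤ 2) : Lv R (v • m0) v 0 :=
  ⟨⟨_, _, _, le_rfl, by linarith, (Q4.ch_zero hR h1).inv⟩, fun _ _ => by simp, le_rfl, h1, h2⟩

theorem sc_zero (R s : ℕ) {K : ℝ} (hK : 8 * 7 ^ (s + 1) ≤ K) : ∃ t, Sc R s 0 t K := by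
  obtain ⟨t, h1, h2⟩ := ex_big (4 * (2 * R + 1)) (K * ((s + 1) * (KM R * (4 * (2 * R + 1)) ^ 2)))
    one_pos
  refine ⟨t, h1, hK, ?_⟩
  rw [ep, mul_zero, zero_add, ← mul_div_assoc, div_le_one (lt_of_lt_of_le (by positivity) h1)]
  linarith

/-- the section of the Wilson density -/
theorem sec_zero (hR : 1 ≤ R) (h1 : 2⁻¹ ≤ v) (h2 : v ≤ 2) (hs : 2 ≤ s) :
    sec R (v • m0) v s = sec 1 m0 1 s := by
  obtain ⟨t, ht⟩ := sc_zero R s le_rfl
  obtain ⟨t', ht'⟩ := sc_zero 1 s le_rfl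
  have a : Lv 1 m0 1 0 := by simpa using lv_zero (v := 1) le_rfl (by norm_num) (by norm_num)
  refine sec_congr (lv_zero hR h1 h2) ht a ht' hs (LinearMap.ext fun x => funext fun e => ?_)
  obtain ⟨N, hN⟩ := mem_box_ex e.1
  rw [LinearMap.smul_apply, Pi.smul_apply, ← Mo_wk (lv_zero hR h1 h2).rng (S := box (N + R))
    fun u hu => sub_mem_box hN hu, ← Mo_wk a.rng (S := box (N + R))
    fun u hu => sub_mem_box hN (box_mono hR hu), Finset.smul_sum]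
  rfl

/-- the section depends continuously on the density -/
theorem sec_lip {v' δ A : ℝ} (h : Lv R m v σ) (ht : Sc R s σ t K) (h' : Lv R m' v' σ')
    (ht' : Sc R s σ' t K') (hs : 2 ≤ s) (hd : Q4.Df R δ m m') (hv : |v - v'| ≤ δ) {c : Ia s → ℝ}
    (hc : Wi t A c) : Wc t (8 * 7 ^ (s + 1) * t * ((3 + (2 * R + 1) ^ 4 * (8 * (s + 1) * C2 s)) *
      (δ * A))) (sec R m v s c - sec R m' v' s c) := by
  have t1 := ht.one
  have A0 := hc.nonneg (by linarith)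
  have d0 := (abs_nonneg _).trans hv
  have c0 := C2_nonneg s
  have k : ∀ {m v σ K}, Lv R m v σ → Sc R s σ t K →
      ∃ i ∈ Zc s, sec R m v s c = p0 s (rl s c) + Gp s i := fun {m v _ _} h ht => by
    obtain ⟨i, hi, h1, -⟩ := h.ri ht _ (sub_mem (Submodule.smul_mem _ v (pT_mem hs (rr s c)))
      (h.mem (p0_mem (rl s c))))
    exact ⟨i, hi, by rw [← h1, sec_ap, on_ap, map_sub]; abel⟩
  obtain ⟨i, hi, e⟩ := k h ht
  obtain ⟨i', hi', e'⟩ := k h' ht'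
  have e1 : sec R m v s c - sec R m' v' s c = Gp s (i - i') := by rw [e, e', map_sub]; abel
  have b := La.Q.bil (k := m - m') (fun a b => by simp [h.symm a b, h'.symm a b]) hd
  have w1 := wb_smul (pT_bd (c := rr s c) t1 A0 fun k => hc (.inr k)) (v - v')
  have w2 := h'.sec_bd ht' hs hc
  rw [e1]
  refine ((Gp_bd t1 (h.apri (B := (3 + (2 * R + 1) ^ 4 * (8 * (s + 1) * C2 s)) * (δ * A)) ht
    (sub_mem hi hi') fun α μ => ?_)).wc t1).mono (by linarith) (le_of_eq (by field_simp; ring))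
  have e2 : tw (Mo R m (Gp s (i - i'))) =
      (v - v') • pT (rr s c) - tw (Mo R (m - m') (sec R m' v' s c)) := by
    rw [← e1, map_sub, map_sub, h.sec_cur ht hs, sub_smul, ← h'.sec_cur ht' hs, sub_sub, ← map_add]
    congr 2
    funext f
    simp [Mo_ap]
  have w3 : |jet (tw (Mo R (m - m') (sec R m' v' s c))) α μ| ≤
      (2 * R + 1) ^ 4 * (2 * δ * ((s + 1 : ℕ) * (C2 s * A / t ^ dg α)) * (4 * 1)) := by
    rw [jet_ap, ← cov_tw.dm, ← (cov_Mo R _).dm, tw_ap, Mo_ap]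
    refine (Finset.abs_sum_le_sum_abs _ _).trans ((Finset.sum_le_card_nsmul _ _ _ fun u hu =>
      b _ _ _ _ ((w2.cv (ρ := R + (1 + R)) t1 (h'.sec_Pk ht' hs c).1 (by
        push_cast; linarith [ht.t1]) α).sh (R' := 1 + R) (sub_mem_box (sub_mem_box
          (zero_mem_box 0) (un_mem_box μ)) hu)) (Sm.cv (δ := 1) fun f _ => ?_)).trans_eq (by simp [card_box]))
    rw [Pi.single_apply]
    split_ifs <;> simp
  rw [e2, map_sub, Pi.sub_apply, Pi.sub_apply]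
  refine (abs_sub _ _).trans ((add_le_add ((w1 α μ).trans (?_ : _ ≤ δ * (3 * A) / t ^ dg α))
    w3).trans_eq (by push_cast; ring))
  gcongr
  exact div_le_self (by positivity) t1

end Jt

/-- the symbol depends continuously on the section -/
theorem Q4.Tbw.sg_lip {α : Type} [Fintype α] [DecidableEq α] {w : α → ℕ} {R : ℕ} {ρ h M b ε : ℝ}
    {φ : Fld → ℂ} {p p' : (α → ℝ) →ₗ[ℝ] V} (H : Q4.Tbw R ρ h M φ)
    (hp : ∀ c, Cv R (b * ‖c‖) (p c)) (hp' : ∀ c, Cv R (b * ‖c‖) (p' c)) (b0 : 0 ≤ b)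
    (hb : b * cG < h) (ρ0 : 0 < ρ) (hw : ∀ a, w a ≠ 0) (hd : ∀ c, Cv R (ε * ‖c‖) (p' c - p c))
    (ε0 : 0 ≤ ε) (hε : ε * cG < h - b * cG) (d : ℕ) :
    ‖Q4.sgS w d p' φ - Q4.sgS w d p φ‖ ≤ 2 * 2 ^ d * (2 * (ε * cG) / (h - b * cG) * M) := by
  have F := H.hbl hp b0 hb ρ0
  have F' := H.hbl hp' b0 hb ρ0
  rw [Ju.Sy.norm_eq, map_sub, Q4.val_sgS, Q4.val_sgS, Q4.sg, Q4.sg, sub_eq_add_neg,
    ← neg_one_smul ℂ (Ju.sy _ _ _), ← F'.sy_add F (Q4.wC_ne hw)]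
  refine Ju.Hb.nP_sy ⟨(F'.add (F.smul _)).hol, fun c hc => ?_⟩ (Q4.wC_ne hw) d
  have a := (Q4.cv_emF (p := p' - p) hd ε0 c).mono le_rfl (mul_le_mul_of_nonneg_left
    (mul_le_of_le_one_right GD.cG_pos.le hc) ε0)
  rw [show Q4.emF (p' - p) c = Q4.emF p' c - Q4.emF p c from funext fun e => funext fun k => by
    simp [Q4.emF, Q4.cz_ap]; ring] at a
  simpa [← sub_eq_add_neg] using (H.lip (Q4.emF_inT hp b0 hb ρ0 hc) a hε).trans_eq (by ring)

namespace Q4.En.Gl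

open Jt Filter

attribute [local irreducible] box lbox rc

variable (G : Gl)

/-- the sections of the slow fields along a run -/
def sek (s : ℕ) (b : ℝ) (J k : ℕ) : (Ia s → ℝ) →ₗ[ℝ] V :=
  sec (3 * G.rn k) (G.zz b J k).m (G.zz b J k).v s

/-- the coordinates of the images of coarse fields -/
def lK (s : ℕ) (c : ℕ → St) (b : ℝ) (J k : ℕ) : V →ₗ[ℝ] Ia s → ℝ :=
  lI s (3 * G.rn (k + 1)) (G.zz b J (k + 1)).m (G.zz b J (k + 1)).v (G.L k) (G.jl c b J k)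

/-- the step on the coordinates -/
def Uk (s : ℕ) (c : ℕ → St) (b : ℝ) (J k : ℕ) : Module.End ℝ (Ia s → ℝ) :=
  UU s (G.l k) (3 * G.rn (k + 1)) (3 * G.rn k) (G.zz b J (k + 1)).m (G.zz b J k).m
    (G.zz b J (k + 1)).v (G.zz b J k).v (rc (G.L k) (c (k + 1)))

/-- its inverse -/
def Ui (s : ℕ) (c : ℕ → St) (b : ℝ) (J k : ℕ) : Module.End ℝ (Ia s → ℝ) :=
  Ring.inverse (G.Uk s c b J k)

/-- the bound for admissible digits -/
def dm (k : ℕ) : ℕ := G.l k - G.l k / G.rn k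

/-- the levels at which the linear data exist -/
def Ey (C D k : ℕ) : Prop := C ≤ G.bb k ∧ G.Xr C k ≤ G.L k ∧
  (G.L k : ℝ) ^ (C + (D + 2)) * (G.sd k (G.top0 0 0)).τ ≤ 1

/-- the levels at which the sections exist -/
def Ex (s k : ℕ) : Prop := Sc (3 * G.rn k) s (2 / G.bb k ^ 2) (G.Xr 12 k) (Jt.K0 s) ∧
  10 ^ 6 * 7 ^ (s + 1) * (s + 1) ^ 2 * C2 s ≤ G.rn k

variable {G} {b b' δ M : ℝ} {s d D C J J' j k : ℕ} {c : ℕ → St} {φ : Fld → ℂ}

namespace Ok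

variable (h : G.Ok)
include h

theorem lv (t : G.Tu1 b J) (hk : k ≤ J) :
    Lv (3 * G.rn k) (G.zz b J k).m (G.zz b J k).v (2 / G.bb k ^ 2) := by
  have z := (t.gd k hk).tz
  obtain ⟨ρ, -, -, c⟩ := (z.tr k (.inl rfl)).ch
  have v := v12 z
  have e0 := ze0 z
  have e2 := h.ze2 z
  have b0 := h.b0 k
  refine ⟨⟨_, _, _, le_rfl, by nlinarith, c.inv⟩, fun a ha => (c.cc a ha).trans
    (mul_le_mul_of_nonneg_right ?_ (Finset.sum_nonneg fun _ _ => Finset.sum_nonneg fun _ _ =>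
      sq_nonneg _)), by positivity, v.1, v.2⟩
  rw [le_div_iff₀ (by positivity), mul_assoc]
  exact (mul_le_mul v.2 (h.ze1 z) (by positivity) zero_le_two).trans_eq (mul_one _)

theorem sek_top (t : G.Tu1 b J) (hs : 2 ≤ s) : G.sek s b J J = sec 1 m0 1 s := by
  have v := v12 (t.gd J le_rfl).tz
  rw [sek, zz_top] at *
  exact sec_zero (by linarith [h.rn9 J]) v.1 v.2 hs

/-- negative powers of the coupling are negligible -/
theorem bb_ev (i : ℕ) : ∀ᶠ k in atTop, (G.L k : ℝ) ^ i ≤ G.bb k :=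
  (h.sch.Btop.eventually_ge_atTop i).mono fun k => h.Lbk k

theorem τ_ev (i : ℕ) : ∀ᶠ k in atTop, ∀ z, (G.L k : ℝ) ^ i * (G.sd k z).τ ≤ 1 := by
  filter_upwards [h.bb_ev (i + G.c)] with k a z
  have u := (h.sd_all k z).nu
  have b := (a.trans (h.b_mono k.le_succ)).trans ((le_self_pow₀ u.ok.β1 (by norm_num)).trans u.ex)
  change _ * ((G.L k : ℝ) ^ G.c * _) ≤ _
  rw [← mul_assoc, ← pow_add, Real.exp_neg, ← div_eq_mul_inv, div_le_one (Real.exp_pos _)]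
  exact b

theorem ex_ev (s : ℕ) : ∀ᶠ k in atTop, G.Ex s k := by
  have c0 := C0_nonneg s
  have c1 := C1_nonneg s
  have k0 : 8 * 7 ^ (s + 1) ≤ Jt.K0 s := by
    unfold Jt.K0; nlinarith [mul_nonneg c0 c1, pow_pos (show (0 : ℝ) < 7 by norm_num) (s + 1)]
  filter_upwards [h.rnt.eventually_ge_atTop (10 ^ 6 * 7 ^ (s + 1) * (s + 1) ^ 2 * C2 s),
    h.rnt.eventually_ge_atTop (2 * Jt.K0 s * ((s + 1) * (7 ^ 4 * (5120 * Lin.KK ^ 2 * 7 ^ 4 * 9) *
      (4 * 7) ^ 2))), h.rnt.eventually_ge_atTop (256 * Jt.K0 s), h.XrL 1 1, h.bb_ev 1]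
    with k a1 a2 a3 a4 a5
  have r9 : (10 : ℝ) ^ 9 ≤ G.rn k := by exact_mod_cast h.rn9 k
  have k1 : 0 ≤ Jt.K0 s := le_trans (by positivity) k0
  simp only [Xr, pow_one] at a4 a5
  refine ⟨⟨?_, k0, ?_⟩, a1⟩
  · refine le_trans ?_ (pow_le_pow_right₀ (by linarith) (show 2 ≤ 12 by norm_num))
    push_cast
    nlinarith
  have e1 : Jt.K0 s * (64 * (2 / G.bb k ^ 2)) ≤ 2⁻¹ := by
    rw [← mul_div_assoc, ← mul_div_assoc, div_le_iff₀ (pow_pos (h.b0 k) 2)]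
    nlinarith
  have e2 : Jt.K0 s * ((s + 1) * (Jt.KM (3 * G.rn k) * (4 * (2 * (3 * G.rn k : ℕ) + 1)) ^ 2) /
      G.Xr 12 k) ≤ 2⁻¹ := by
    rw [← mul_div_assoc, div_le_iff₀ (one_pos.trans_le (h.Xr1 12 k)), Xr, Jt.KM]
    push_cast
    calc _ ≤ Jt.K0 s * ((s + 1) * ((7 * G.rn k) ^ 4 * (5120 * Lin.KK ^ 2 * (7 * G.rn k) ^ 4 *
          (3 * (3 * G.rn k))) * (4 * (7 * G.rn k)) ^ 2)) := by gcongr <;> linarith
      _ = 2⁻¹ * (2 * Jt.K0 s * ((s + 1) * (7 ^ 4 * (5120 * Lin.KK ^ 2 * 7 ^ 4 * 9) * (4 * 7) ^ 2)) *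
          (G.rn k : ℝ) ^ 11) := by ring
      _ ≤ 2⁻¹ * (G.rn k * (G.rn k : ℝ) ^ 11) := by gcongr
      _ = _ := by ring
  rw [Jt.ep, mul_add]
  linarith

omit h in
theorem wi_norm (t1 : 1 ≤ M) (hs : 2 ≤ s) (x : Ia s → ℝ) : Wi M (M ^ s * ‖x‖) x := fun a => by
  rw [le_div_iff₀ (by positivity), mul_comm]
  exact mul_le_mul (pow_le_pow_right₀ t1 (dI_le hs a)) (norm_le_pi_norm x a) (abs_nonneg _)
    (by positivity)

theorem lR4 (k : ℕ) : 4 * (G.lR k : ℝ) ≤ G.Xr 12 k := by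
  have := h.rn9 k
  refine le_trans ?_ (pow_le_pow_right₀ (by exact_mod_cast by omega) (show 2 ≤ 12 by norm_num))
  have : 4 * G.lR k ≤ G.rn k ^ 2 := by unfold lR; nlinarith [Nat.div_le_self (G.rn k) 3]
  exact_mod_cast this

/-- the sections of two runs are close -/
theorem sek_lip (t : G.Tu1 b J) (t' : G.Tu1 b' J') (hk : k ≤ J) (hk' : k ≤ J') (hs : 2 ≤ s)
    (e : G.Ex s k) (hd : Df (3 * G.rn k) δ (G.zz b' J' k).m (G.zz b J k).m)
    (hv : |(G.zz b' J' k).v - (G.zz b J k).v| ≤ δ) (x : Ia s → ℝ) :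
    Cv (G.lR k) (G.Xr (12 * s + 17) k * δ * ‖x‖) (G.sek s b' J' k x - G.sek s b J k x) := by
  have t1 := h.Xr1 12 k
  have d0 := (abs_nonneg _).trans hv
  have r9 : (10 : ℝ) ^ 9 ≤ G.rn k := by exact_mod_cast h.rn9 k
  have c2 := (C2_ge s).2.1
  have := (sec_lip (h.lv t' hk') e.1 (h.lv t hk) e.1 hs hd hv (wi_norm t1 hs x)).cv t1
    (sub_mem ((h.lv t' hk').sec_Pk e.1 hs x).1 ((h.lv t hk).sec_Pk e.1 hs x).1) (h.lR4 k) 0
  simp only [Dm_zero, dg_zero, pow_zero, div_one, Module.End.one_apply] at this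
  refine this.mono le_rfl ?_
  have a : (3 + (2 * (3 * G.rn k : ℕ) + 1) ^ 4 * (8 * (s + 1) * C2 s) : ℝ) ≤
      2 * ((7 * G.rn k) ^ 4 * (8 * (s + 1) * C2 s)) := by
    have : (1 : ℝ) * (8 * 1 * 18) ≤ (7 * G.rn k) ^ 4 * (8 * (s + 1) * C2 s) := by
      gcongr
      exacts [one_le_pow₀ (by linarith), le_add_of_nonneg_left s.cast_nonneg]
    have : ((2 * (3 * G.rn k : ℕ) + 1) ^ 4 * (8 * (s + 1) * C2 s) : ℝ) ≤
        (7 * G.rn k) ^ 4 * (8 * (s + 1) * C2 s) := by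
      push_cast
      gcongr
      linarith
    linarith
  calc _ ≤ ((s + 1 : ℕ) : ℝ) * (8 * 7 ^ (s + 1) * G.Xr 12 k * (2 * ((7 * G.rn k) ^ 4 *
        (8 * (s + 1) * C2 s)) * (δ * (G.Xr 12 k ^ s * ‖x‖)))) := by gcongr
    _ = 307328 * 7 ^ (s + 1) * (s + 1) ^ 2 * C2 s * (G.Xr (12 * s + 16) k * δ * ‖x‖) := by
        simp only [Xr]; push_cast; ring
    _ ≤ G.rn k * (G.Xr (12 * s + 16) k * δ * ‖x‖) := by
        have := h.Xr1 (12 * s + 16) k
        gcongr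
        exact le_trans (by gcongr; norm_num) e.2
    _ = _ := by simp only [Xr]; ring

/-- the symbols of two runs are close -/
theorem js_lip (t : G.Tu1 b J) (t' : G.Tu1 b' J') (hk : k ≤ J) (hk' : k ≤ J') (hs : 2 ≤ s)
    (e : G.Ex s k) (e' : G.Ew d D C k) (hd : Df (3 * G.rn k) δ (G.zz b' J' k).m (G.zz b J k).m)
    (hv : |(G.zz b' J' k).v - (G.zz b J k).v| ≤ δ) (hδ : G.Xr (12 * s + 17) k * δ ≤ 1)
    (hp : ∀ x, Cv (G.lR k) (G.Xr C k * ‖x‖) (G.sek s b J k x))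
    (hp' : ∀ x, Cv (G.lR k) (G.Xr C k * ‖x‖) (G.sek s b' J' k x))
    (H : Tbw (G.lR k) (60 * (G.p k).ρ) (G.lH D k) M φ) :
    ‖sgS Jt.wt d (G.ka D C k • G.sek s b' J' k) φ - sgS Jt.wt d (G.ka D C k • G.sek s b J k) φ‖ ≤
      G.Xr (12 * s + 17) k * δ * M := by
  have g := GD.cG1
  have k0 := h.ka0 D C k
  have h0 := (h.ρ60 k).trans_le (h.ρH D k)
  have x1 := h.Xr1 C k
  have y0 : 0 ≤ G.Xr (12 * s + 17) k * δ :=
    mul_nonneg (zero_le_one.trans (h.Xr1 _ k)) ((abs_nonneg _).trans hv)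
  have M0 := H.nonneg (h.ρ60 k).le h0.le
  have cs : ∀ {y x : ℝ} {a : V}, Cv (G.lR k) (y * x) a →
      Cv (G.lR k) (G.ka D C k * y * x) (G.ka D C k • a) := fun q => by
    simpa only [abs_of_pos k0, mul_assoc] using La.Q.cv_smul' (G.ka D C k) q
  have b1 : G.ka D C k * G.Xr C k * cG = G.lH D k / 2 := by rw [ka]; field_simp
  have b2 : G.ka D C k * (G.Xr (12 * s + 17) k * δ) * cG =
      G.lH D k / 2 * (G.Xr (12 * s + 17) k * δ / G.Xr C k) := by rw [ka]; field_simp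
  refine (H.sg_lip (fun x => cs (hp x)) (fun x => cs (hp' x)) (by positivity) (by linarith)
    (h.ρ60 k) (fun a => by unfold Jt.wt; omega) (fun x => by
      simpa only [LinearMap.smul_apply, smul_sub] using cs (h.sek_lip t t' hk hk' hs e hd hv x))
    (by positivity) (by
      rw [b1, b2, sub_half]
      exact mul_lt_of_lt_one_right (by positivity) ((div_lt_one (by linarith)).2
        (by linarith [e'.1]))) d).trans ?_
  rw [b1, b2, sub_half]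
  calc _ = 4 * 2 ^ d / G.Xr C k * (G.Xr (12 * s + 17) k * δ * M) := by field_simp; ring
    _ ≤ _ := mul_le_of_le_one_left (by positivity) ((div_le_one (by linarith)).2
      (by linarith [e'.2.1, pow_pos (two_pos (α := ℝ)) d]))

theorem rl9 (k : ℕ) : 10 ^ 9 * G.rn k ≤ G.l k := (h.sd_all k (G.top0 0 0)).nu.r_sq

theorem dm_le (k : ℕ) : G.dm k ≤ G.l k - 2 := Nat.sub_le_sub_left
  ((Nat.le_div_iff_mul_le (by have := h.rn9 k; omega)).2 (by have := h.rl9 k; omega)) _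

theorem gd_dm (k : ℕ) : G.gd k ≤ G.dm k :=
  le_trans (show 7 * LL (G.l k) / 16 ≤ G.l k - G.l k / 8 by unfold LL; omega)
    (Nat.sub_le_sub_left (Nat.div_le_div_left (by have := h.rn9 k; omega) (by norm_num)) _)

theorem trk_dm (tr : G.Dg G.dm c j J) : G.Trk c j J := tr.mono le_rfl le_rfl h.dm_le

theorem ey_ev (C D : ℕ) : ∀ᶠ k in atTop, G.Ey C D k := by
  filter_upwards [h.bb_ev 1, h.XrL 1 1, h.rnt.eventually_ge_atTop C, h.XrL C 1,
    h.τ_ev (C + (D + 2))] with k a1 a2 a3 a4 a5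
  simp only [Xr, pow_one] at a1 a2 a4
  exact ⟨by linarith, a4, a5 _⟩

end Ok

theorem nx_mb (k : ℕ) (z : Z) : (G.nx k z).m = G.lam k z • mb (G.l k) 3 z.m (G.sd k z).s :=
  congrArg (G.lam k z • ·) (Td.m1.eq_1 _)

/-- the linear data along a track with good digits -/
theorem ld_ex (s c0 : ℕ) (hs : 2 ≤ s) : ∃ C0 : ℕ, ∀ {G : Gl} {d D C j J : ℕ} {b : ℝ} {c : ℕ → St},
    G.Ok → G.c = c0 → C0 ≤ C → d ≤ s + 2 → (∀ k ≥ j, G.Ey C0 D k) → G.Tu1 b J →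
    G.Dg G.dm c j J →
    G.Ld Jt.wt d D C c b J j (G.sek s b J) (G.lK s c b J) (G.Uk s c b J) (G.Ui s c b J) ∧
    ∀ k, j ≤ k → k < J → (∀ x ∈ Jt.Fo s, G.Uk s c b J k x ∈ Jt.Fo s) ∧
      (∀ x ∈ Jt.Fo s, G.Ui s c b J k x ∈ Jt.Fo s) ∧
      Jt.Gr (4 / G.bb k + G.eD D k) (G.Uk s c b J k) ∧
      Jt.Gr (4 / G.bb k + G.eD D k) (G.Ui s c b J k) := by
  obtain ⟨C0, H⟩ := lt_ex s c0 hs
  refine ⟨C0, fun {G d D C j J b c} h hc hC hd e t tr => ?_⟩
  subst hc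
  simp only [Ld, ← forall_and]
  intro k h1 h2
  obtain ⟨e1, e2, e3⟩ := e k h1
  have n := h.ln (t.gd (k + 1) h2).tz (.inr rfl)
  have r9 := h.rn9 k
  have r16 := h.rn16 k
  have L1 : (1 : ℝ) ≤ G.L k := by linarith [h.L1 k]
  have b0 := h.b0 k
  have b1 := h.b_mono k.le_succ
  have b2 : 1000 ≤ G.bb k :=
    (h.L1 k).trans (by simpa using h.Lb k (i := 1) (by have := h.B1; omega))
  have s1 : 2 / G.bb (k + 1) ^ 2 ≤ 2 / G.bb k ^ 2 := by gcongr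
  have s2 : C0 * (2 / G.bb k ^ 2) ≤ 2 / G.bb k :=
    (mul_le_mul_of_nonneg_right e1 (by positivity)).trans_eq (by field_simp)
  have s3 := (mul_le_mul_of_nonneg_left s1 C0.cast_nonneg).trans s2
  have s4 : 2 / G.bb k ≤ 1 := (div_le_one b0).2 (by linarith)
  have l1 : 3 * G.Q k / G.bb k ≤ 1 := (div_le_one b0).2 (le_trans (by
    nlinarith [h.cQ k (C := 3) (by norm_num)]) ((pow_le_pow_right₀ (h.Q1 k)
      (show 2 ≤ 1000 by norm_num)).trans (h.Q1000 k)))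
  have l2 := abs_le.1 ((t.lam k h2).2.trans l1)
  have a := fun i => Nat.div_le_self (G.rn i) 3
  obtain ⟨a1, a2, a3, a4, a5⟩ := H (R := G.lR (k + 1)) (R' := G.lR k) (X := G.Xr C k)
    (η := G.eD D k) (l := G.l k) (r := G.rn k) (z := rc (G.L k) (c (k + 1)))
    (S := (G.sd k (G.zz b J (k + 1))).s) (τ := (G.sd k (G.top0 0 0)).τ) (lam := G.lam k (G.zz b J (k + 1))) (h.lv t h2) (h.lv t h2.le)
    n.lin n.grad (by rw [zz_step b h2, nx_mb]) (abs_le.2 ⟨by linarith, by linarith⟩) (by positivity)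
    (div_mul_cancel₀ _ (La.LL_posR _).ne').le (by unfold Td.τ Td.L; positivity) (by omega)
    (by nlinarith) (by nlinarith) (by unfold lR; nlinarith [a (k + 1)])
    (by unfold lR; nlinarith [a k]) (by unfold lR; omega) (s3.trans s4) (s2.trans s4) e2
    (pow_le_pow_right₀ (by exact_mod_cast by omega) hC) (by
      rw [eD, ← one_div, le_div_iff₀' (by positivity), ← mul_assoc, mul_comm (_ ^ (D + 2))]
      exact (pow_add (G.L k : ℝ) C0 _ ▸ e3 :)) (inv_le_one_of_one_le₀ (one_le_pow₀ L1))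
    (tr k h1 h2).2
  have g : ∀ {U : Module.End ℝ (Ia s → ℝ)}, Jt.Gr (C0 * (2 / G.bb (k + 1) ^ 2 + 2 / G.bb k ^ 2) +
      G.eD D k) U → Jt.Gr (4 / G.bb k + G.eD D k) U := fun q x y z => (q x y z).trans (by
    rw [mul_add, show 4 / G.bb k = 2 / G.bb k + 2 / G.bb k by ring]
    linarith)
  change Lt _ _ _ (G.jl c b J k) (G.sek s b J (k + 1)) (G.sek s b J k) (G.lK s c b J k)
    (G.Uk s c b J k) (G.Ui s c b J k) (G.L k) _ _ _ _ (_ / (G.L k : ℝ) ^ _) _ at a1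
  refine ⟨{ a1 with int := fun B δ hB => (a1.int B δ hB).mono le_rfl ?_ }, a2, a3, g a4, g a5⟩
  have := h.Xr1 C k
  have := hB.nonneg
  exact mul_le_mul_of_nonneg_right (div_le_div_of_nonneg_left (by linarith) (by positivity)
    (pow_le_pow_right₀ L1 (by omega))) this

end Q4.En.Gl

end Pool.Agent.Lib.MP_7f377f_mp.RG
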