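import Pool.Agent.Lib.MP_7f377f_mp.G.Q4FlatC
import Pool.Agent.Lib.MP_7f377f_mp.G.Q5Br
import Pool.Agent.Lib.MP_7f377f_mp.G.SoftG

/-! Generating functions of moments from families of data. -/

noncomputable section

open Pool.Agent.Lib.MP_7f377f_mp.Jet

set_option linter.unusedSectionVars false
variable [Pool.Agent.Lib.MP_7f377f_mp.GD]

namespace Pool.Agent.Lib.MP_7f377f_mp.RG.Q4.En

open Finset Real Sg MeasureTheory Br YM7

/-- the constant in the bound of the ratio of the integrals -/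
def cI : ℝ → ℝ := int_ratio.choose

theorem cI_nn {g : ℝ} (h : 0 < g) : 0 ≤ cI g := int_ratio.choose_spec.1 g h

namespace Gl

variable {ι κ : Type} [Fintype ι] [DecidableEq ι] [Fintype κ] [DecidableEq κ]

/-- the family `Y` represents the sources `F` at level `j` on the polydisc of radius `w⁻¹` -/
def Fe (G : Gl) (b : ℝ) (J j : ℕ) (F : ι → Src (G.N J)) (w N : ℝ) (Y : Fy ι) : Prop :=
  ∃ J' z r0 r θ β, G.Tz J' j z ∧ G.Fd j z univ r0 r θ Y (G.fr univ (fun i => symF (F i)) b J j) ∧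
    RealP (G.p j) (Y.ψ 0) ∧ RealA (Y.K 0) ∧ (∀ s ∈ Pd r, PU (G.p j) β (Y.ψ s)) ∧
    G.Q j ^ 100 * β ≤ 1 ∧ G.Q j ^ 100 * θ ≤ 1 ∧ ∀ i, w⁻¹ ≤ r i ∧ (Y.Z i).card ≤ N

namespace Ok

variable {G : Gl} {J j : ℕ} [NeZero (G.N J)] {F : ι → Src (G.N J)} {b w N M : ℝ} {Y : Fy ι}
  (h : G.Ok) (b0 : 0 ≤ b) (hj : j ≤ J) (w0 : 0 < w)
include h b0 hj w0

theorem fe_al (e : G.Fe b J j F w N Y) : ∃ q : (ι → ℂ) → ℂ, q 0 = 1 ∧ (∀ T, mom (G.al b J j) F T =
    jd T fun s => Complex.exp (ma univ (ce Y.E) s) * q s) ∧ ∀ B : Finset ι,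
      SH (fun _ => w⁻¹) (exp (B.card * N)) (fun s => q (cutS B s)) ∧ ∃ y,
      SH (fun _ => w⁻¹) (exp (B.card * N)) y ∧ ∀ s ∈ Pd fun _ => w⁻¹, y s * q (cutS B s) = 1 := by
  obtain ⟨J', z, r0, r, θ, β, t, e, -, -, -, -, hθ, hr⟩ := e
  have a := e.eq.eqv (U := 1) fun _ => rfl
  simp only [h.fd_flat t e] at a
  have n0 := h.fd_ne t e hθ (zero_mem e.fi.pos)
  refine ⟨_, div_self n0, mom_eqv (h.mom_al b0 hj F) a e.ma, fun B => ?_⟩
  have p : ∀ _ : ι, 0 < w⁻¹ := fun _ => inv_pos.2 w0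
  have θ0 := e.fi.km.choose_spec.1.nonneg
  have c : exp (4 * θ * (B.biUnion Y.Z).card) ≤ exp (B.card * N) := by
    have a1 : ((B.biUnion Y.Z).card : ℝ) ≤ B.card * N := (Nat.cast_le.2 card_biUnion_le).trans (by
      rw [Nat.cast_sum, ← nsmul_eq_mul]; exact sum_le_card_nsmul _ _ _ fun i _ => (hr i).2)
    have a2 := mul_le_mul_of_nonneg_right ((h.cQ j (C := 4) (by norm_num)).trans
      (le_self_pow₀ (h.Q1 j) (n := 100) (by norm_num))) θ0
    exact exp_le_exp.2 ((mul_le_of_le_one_left (by positivity) (a2.trans hθ)).trans a1)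
  obtain ⟨u, v⟩ := h.fd_ratio t e hθ B
  refine ⟨(u.shrink p fun i => (hr i).1).mono c, _, (v.shrink p fun i => (hr i).1).mono c,
    fun s hs => ?_⟩
  have := h.fd_ne t e hθ (cut_mem (B := B) fun i => (hs i).trans_le (hr i).1)
  field_simp

/-- moments at the flat field -/
theorem red_al (e : G.Fe b J j F w N Y) (hM : exp (Fintype.card ι * N) ≤ M) :
    Red (G.al b J j) F w M (ce Y.E) :=
  let ⟨q, a, c, d⟩ := h.fe_al b0 hj w0 e
  ⟨if_pos rfl, q, ((d univ).1.mono hM).congr fun s _ => congrArg q (by ext; simp [cutS]), a, c⟩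

/-- moments of the Wilson measure -/
theorem red_ex (e : G.Fe b J j F w N Y) (hM : exp (cI (G.g j) * G.N j ^ 4) ≤ M) :
    Red (YM7.ex (Fi.tr haar) b (G.N J)) F w M (ce Y.E) := by
  obtain ⟨J', z, r0, r, θ, β, t, e, r1, r2, pu, hb, hθ, hr⟩ := e
  obtain ⟨g1, -, g2⟩ := (h.f_facts J j).1 b b0
  rw [← h.fr_zero (A := univ) (F := fun i => symF (F i)) j hj] at g1 g2
  obtain ⟨n0, a⟩ := int_ratio.choose_spec.2 h t e g1 g2 r1 r2 pu hb hθ
  have c := e.eq.int PP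
  simp only [integral_const_mul] at c
  exact red_eqv (h.mom_ex hj F) c e.ma n0
    ((a.shrink (fun _ => inv_pos.2 w0) fun i => (hr i).1).mono hM)

/-- factorisation over the cells -/
theorem gen_of {m : ℕ} [NeZero m] {P : Weak.Site 4 m → (κ → Src (G.N J)) → Prop}
    (hP : ∀ F : _ → κ → _, (∀ c, P c (F c)) → ∃ Y, G.Fe b J j (fun p : Weak.Site 4 m × κ => F p.1 p.2) w N Y ∧
      Y.Ec univ Prod.fst) (hM : cI (G.g j) * G.N j ^ 4 + Fintype.card κ * N * m ^ 4 ≤ M) :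
    Gen (Fi.tr haar) b (G.al b J j) P w (exp M) := fun F hF => by
  obtain ⟨Y, e, ec⟩ := hP F hF
  obtain ⟨e0, q, q1, -, q2⟩ := h.red_ex b0 hj w0 e le_rfl
  obtain ⟨z, -, z1, z2⟩ := h.fe_al b0 hj w0 e
  obtain ⟨g, g1, g2⟩ := gen_abs (M' := exp (Fintype.card κ * N)) e0 (fun T i hi j hj k => by
    rw [ce, if_neg (ne_empty_of_mem hi), ec T (subset_univ T) i hi j hj k]) q2 z1 q1
    ⟨_, (z2 univ).1.congr fun s _ => congrArg z (by ext; simp [cutS])⟩ fun c => by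
      have := (z2 ({c} ×ˢ univ)).2
      rw [card_product, card_singleton, one_mul, card_univ] at this
      convert this with y s
      ext p
      simp only [YM7.ct, cutS, mem_product, mem_singleton, mem_univ, and_true]
  refine ⟨g, g1.mono ?_, g2⟩
  rw [← exp_nat_mul, ← exp_add, exp_le_exp]
  simp only [Fintype.card_pi, ZMod.card, prod_const, card_univ, Fintype.card_fin, Nat.cast_pow]
  linarith

end Ok

end Gl

end Pool.Agent.Lib.MP_7f377f_mp.RG.Q4.En
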