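import Pool.Agent.Lib.MP_7f377f_mp.G.Q5Chn
import Pool.Agent.Lib.MP_7f377f_mp.G.Q5Dif
import Pool.Agent.Lib.MP_7f377f_mp.G.Q5Gen
import Pool.Agent.Lib.MP_7f377f_mp.G.Q5PosM
import Pool.Agent.Lib.MP_7f377f_mp.G.Q5DifC

/-! The flow of a family from separated sources to merged sources. -/

noncomputable section

open Pool.Agent.Lib.MP_7f377f_mp.Jet

set_option linter.unusedSectionVars false
variable [Pool.Agent.Lib.MP_7f377f_mp.GD]

namespace Pool.Agent.Lib.MP_7f377f_mp.RG.Q4.En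

open Finset Real Sg Pos

theorem dw_dw {α : Type} (f : ℕ → α → α) (a : α) {i j : ℕ} (hj : j ≤ i) :
    ∀ k ≤ j, dw f (dw f a i j) j k = dw f a i k :=
  dw_ind (dw_top ..) fun k hk ih => by rw [dw_step _ _ hk, ih, dw_step _ _ (hk.trans_le hj)]

namespace Gl

variable {ι κ : Type} [DecidableEq ι] [DecidableEq κ] (G : Gl)

/-- base points -/
def Bz (k : ℕ) (H : Lx × Ac) : Prop :=
  PU (G.p k) (G.Q k ^ 212)⁻¹ H.1 ∧ RealP (G.p k) H.1 ∧ RealA H.2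

/-- base points `H` and directions `v` along the run from level `J`, between the levels `i` and
`j`; the directions are controlled above the level `l` -/
structure Fw2 (A : Finset ι) (b : ℝ) (J i l j : ℕ) (σ : ℝ) (H : ℕ → Lx × Ac)
    (v : ι → ℕ → Lx × Ac) (N : ℕ → ℝ) (f : ℕ → (ι → ℂ) → Conf → ℂ) : Prop where
  hs : ∀ k, j ≤ k → k < i → H k = G.hs k (G.zz b J (k + 1)) (H (k + 1))
  bz : ∀ k, j ≤ k → k ≤ i → G.Bz k (H k)
  tt : ∀ k, j ≤ k → k < i → f k = fun s => TT (G.l k) (G.a k) (G.N k) (f (k + 1) s)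
  ts : ∀ k, l ≤ k → k < i → ∀ x ∈ A, v x k = G.ts k (G.zz b J (k + 1)) (H (k + 1)) (v x (k + 1))
  sz : ∀ k, l ≤ k → k ≤ i → 0 ≤ N k ∧ G.Q k ^ 223 * (σ * N k) ≤ G.bb k ∧
    ∀ x ∈ A, G.Sz k (N k) (N k) (G.Q k ^ 100)⁻¹ (v x k).1 (v x k).2

/-- the geometry: the sources are separated down to level `l`, the groups down to level `j`, and
the groups are small at level `l` -/
structure Geo (A : Finset ι) (cl : ι → κ) (c : ℕ) (W : ι → Finset St) (i l j : ℕ) : Prop where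
  one : ∀ k, l ≤ k → k ≤ i → Cls (G.N k) (3 * (G.p k).D) A id fun a => G.zs (W a) i k
  grp : ∀ k, j ≤ k → k ≤ l →
    Cls (G.N k) ((2 * c + 2) * (G.p k).D) A cl fun a => G.zs (W a) i k
  card : ∀ a, (A.filter (cl · = a)).card ≤ c
  big : 1000 * 3 ^ c ≤ G.L j
  vol : ∀ a, ∃ Y : Finset St, (Y.card : ℝ) ≤ G.Q l ^ 50 ∧ ∀ x ∈ A, cl x = a → G.zs (W x) i l ⊆ Y

/-- the radius of the polydisc -/
def sg (l : ℕ) : ℝ := G.bb l / G.Q l ^ 1200

/-- `g` is the slowly varying part of the source `F` -/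
structure Pf (J : ℕ) (a τ : ℝ) (F : Sr) (g : St → ℂ) : Prop where
  lip : LipT (G.N J) a g
  le : ∀ x, ‖g x‖ ≤ 1
  near : ∀ x μ ν, ‖F x μ ν - g x‖ ≤ τ

variable {G} {A T : Finset ι} {cl : ι → κ} {W : ι → Finset St} {b σ x y ω ω' u : ℝ}
  {J i j k l c C : ℕ} {z : Z} {Y : Fy ι} {X : Finset St} {H : ℕ → Lx × Ac} {v : ι → ℕ → Lx × Ac}
  {N : ℕ → ℝ} {f : ℕ → (ι → ℂ) → Conf → ℂ} {φ : Lx} {L : Ac}

theorem zs_zs (hj : j ≤ i) (hk : k ≤ j) : G.zs (G.zs X i j) j k = G.zs X i k := dw_dw _ _ hj k hk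

namespace Ok

variable (h : G.Ok)
include h

theorem mem_zs : ∀ k ≤ i, ∀ y, rc (G.N i) ((G.rt i k : ℤ) • y) ∈ X → rc (G.N k) y ∈ G.zs X i k :=
  dw_ind (by simp [zs_top, rt_top]) fun k hk ih y hy => by
    rw [zs_step hk (G.top0 0 0)]
    refine mem_nxt.2 ⟨rc_rc _ _, _, ih (up (G.l k) y) (by
      rwa [up, smul_smul, mul_comm, ← Nat.cast_mul, ← show _ = LL (G.l k) * _ from h.rt_step hk]), ?_⟩
    have : nearT (LL (G.l k) * G.N k) 0 (rc (G.N (k + 1)) (up (G.l k) y)) (up (G.l k) y) := by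
      rw [← h.N_succ]; exact nearT_rc_left.2 (nearT.refl _ _ _)
    have := this.yo
    rw [yo_up] at this
    exact nearT_rc_right.2 (this.mono (by
      rw [Nat.zero_div]; exact Nat.one_le_pow G.K0 _ (by linarith [h.L_big k] : 0 < G.L k)))

/-- the coupling grows faster than powers of `Q` -/
theorem mono5 (hj : j ≤ k) (hC : C ≤ 800) : G.bb j * G.Q k ^ C ≤ G.bb k * G.Q j ^ (5 * C) := by
  have L1 := h.L1 j
  have L2 := h.L1 k
  have q := h.Q0 k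
  rcases le_total (G.L k : ℝ) (G.L j ^ 5) with e | e
  · refine mul_le_mul (h.b_mono hj) ?_ (by positivity) (h.b0 k).le
    rw [pow_mul, Q, Q, pow_right_comm _ _ 5]
    exact pow_le_pow_left₀ (by positivity) (pow_le_pow_left₀ (by positivity) e _) _
  · refine le_trans ?_ (le_mul_of_one_le_right (h.b0 k).le (one_le_pow₀ (h.Q1 j)))
    have u : G.bb j ≤ (G.L j : ℝ) ^ (4 * G.Bk j) := (h.sch.le j).1.trans (h.sch.upp j)
    refine le_trans ((pow_le_pow_iff_left₀ (mul_pos (h.b0 j) (by positivity)).le (by positivity)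
      (show 5 ≠ 0 by norm_num)).1 ?_) (h.Lbk k (h.B_mono hj))
    calc _ ≤ ((G.L j : ℝ) ^ (4 * G.Bk j) * G.Q k ^ C) ^ 5 := by have := h.b0 j; gcongr
      _ = ((G.L j : ℝ) ^ 5) ^ (4 * G.Bk j) * G.L k ^ (G.K * C * 5) := by
        rw [Q, mul_pow, pow_right_comm, ← pow_mul _ G.K, ← pow_mul _ (G.K * C)]
      _ ≤ (G.L k : ℝ) ^ (4 * G.Bk j) * G.L k ^ G.Bk j := by
        gcongr
        · linarith
        · have := h.B1; have := h.B_lo j; nlinarith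
      _ = _ := by ring

theorem inv_up (hk : k ≤ j) (C : ℕ) : (G.Q j ^ C)⁻¹ ≤ (G.Q k ^ C)⁻¹ :=
  inv_anti₀ (pow_pos (h.Q0 k) _) (pow_le_pow_left₀ (h.Q0 k).le (h.Q_mono hk) _)

theorem pu_num (u0 : 0 ≤ u) (hu : G.Q k ^ 223 * u ≤ G.bb k) :
    G.Q k ^ 10 * (u + u) * G.g k ^ 2 ≤ (G.Q k ^ 212)⁻¹ := by
  have q := h.Q0 k
  rw [← one_div, le_div_iff₀ (pow_pos q _), ← h.bg k, mul_right_comm]
  refine mul_le_mul_of_nonneg_right (le_trans ?_ hu) (sq_nonneg _)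
  have := mul_le_mul_of_nonneg_right (h.qpw k (show 222 < 223 by norm_num)) u0
  linarith [mul_nonneg (pow_pos q 222).le u0]

theorem sz_pu (e : G.Sz k x y ω φ L) (hω : G.Q k ^ 100 * ω ≤ 1) :
    PU (G.p k) (G.Q k ^ 10 * (x + y) * G.g k ^ 2) φ :=
  (h.sz_sl e (G.top0 0 0)).pu (h.sl_all k _).nu hω

theorem bz_of {g : Conf → ℂ} (d : G.Dt k z u u ω φ L g) (hω : G.Q k ^ 100 * ω ≤ 1)
    (hu : G.Q k ^ 223 * u ≤ G.bb k) : G.Bz k (φ, L) :=
  ⟨pu_mono (h.sz_pu d.sz hω) (h.pu_num ((h.sz_sl d.sz z).nn (h.sl_all k _).nu).1 hu), d.re.1,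
    d.re.2.1⟩

theorem bz_run (t : G.Tu b J) (hk : k ≤ J) : G.Bz k (G.zz b J k).d :=
  h.bz_of (t.gd k hk).dt (qsq (h.sl_all k (G.top0 0 0)).nu (by norm_num)) (by
    linarith [h.Qbb k (show 223 < 4000 by norm_num), pow_pos (h.Q0 k) 223])

theorem bz_hyb {g : Conf → ℂ} (d : G.Dt k z (G.u k) (G.u k) (G.Q k ^ 280)⁻¹ φ L g) :
    G.Bz k (φ, L) := by
  have q := h.Q0 k
  refine h.bz_of d ?_ ?_
  · rw [← div_eq_mul_inv, div_le_one (pow_pos q _)]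
    exact pow_le_pow_right₀ (h.Q1 k) (by norm_num)
  · rw [Gl.u, ← mul_div_assoc, div_le_iff₀ (pow_pos q _), mul_comm]
    exact mul_le_mul_of_nonneg_left (pow_le_pow_right₀ (h.Q1 k) (by norm_num)) (h.b0 _).le

variable (t : G.Tu b J) (hp : G.Pu) (hi : i ≤ J) (hl : l ≤ i) (hj : j ≤ l) (σ0 : 0 < σ)
  (w : G.Fw2 A b J i l j σ H v N f) (g : G.Geo A cl c Y.Z i l j)
  (e : G.Fd i (G.zz b J i) A (fun _ => σ) (fun _ => σ) (G.Q i ^ 329)⁻¹ Y (f i)) (e1 : Y.bs = H i)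
  (e2 : ∀ x ∈ A, Y.jt {x} = v x i) (e3 : Y.Ec A id)
include t hp

omit [DecidableEq ι] [DecidableEq κ] in
theorem pu_all : ∀ k < J, (G.sd k (G.zz b J (k + 1))).Pu :=
  fun k hk => hp k _ (h.tok_sd (t.gd _ hk).tz)

include hi hl hj σ0 w g e e1 e2 e3

omit hl in
/-- separated sources -/
theorem flow1 : ∀ k ≤ i, l ≤ k → G.Fd k (G.zz b J k) A (fun _ => σ) (fun _ => σ) (G.Q k ^ 329)⁻¹
      (G.fw A b J Y i k) (f k) ∧ (G.fw A b J Y i k).bs = H k ∧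
      (∀ x ∈ A, (G.fw A b J Y i k).jt {x} = v x k) ∧ (G.fw A b J Y i k).Ec A id ∧
      ∀ s ∈ Pd fun _ => σ, PU (G.p k) (G.Q k ^ 211)⁻¹ ((G.fw A b J Y i k).ψ s) := by
  have u := h.pu_all t hp
  have c : ∀ k, l ≤ k → k ≤ i → Cls (G.N k) (3 * (G.p k).D) A id (G.fw A b J Y i k).Z :=
    fun k a b => by rw [fw_Z k b]; exact g.one k a b
  have n : ∀ k, l ≤ k → k ≤ i → (∀ x ∈ A, PU (G.p k) (G.Q k ^ 10 * (N k + N k) * G.g k ^ 2)
      (v x k).1) ∧ 0 ≤ σ * (G.Q k ^ 10 * (N k + N k) * G.g k ^ 2) ∧ (G.Q k ^ 212)⁻¹ +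
        σ * (G.Q k ^ 10 * (N k + N k) * G.g k ^ 2) ≤ (G.Q k ^ 211)⁻¹ := fun k a b => by
    obtain ⟨n0, n1, n2⟩ := w.sz k a b
    have q := h.Q0 k
    refine ⟨fun x hx => h.sz_pu (n2 x hx) (mul_inv_cancel₀ (pow_pos q _).ne').le,
      mul_nonneg σ0.le (mul_nonneg (mul_nonneg (pow_pos q _).le (by linarith)) (sq_nonneg _)), ?_⟩
    linarith [h.pu_num (mul_nonneg σ0.le n0) n1, h.inv_le k (show 211 < 212 by norm_num),
      inv_pos.2 (pow_pos q 212)]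
  have R := h.chain1 (z := G.zz b J) (Y := G.fw A b J Y i) (σ := σ) (j := l)
    (b0 := fun k => (G.Q (k + 1) ^ 212)⁻¹)
    (fun k a b => ⟨h.ad t (b.trans_le hi) (u k (by omega)), zz_step _ (b.trans_le hi), fw_step b,
      w.tt k (by omega) b, w.hs k (by omega) b, w.ts k a b⟩)
    (fun k a b => ⟨(w.bz _ (by omega) b).1, (n _ (by omega) b).1, (n _ (by omega) b).2.1,
      (n _ (by omega) b).2.2.trans ((h.inv_up k.le_succ _).trans (by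
        linarith [h.inv_le k (show 210 < 211 by norm_num), inv_pos.2 (pow_pos (h.Q0 k) 211)]))⟩)
    c (fun _ => le_rfl) (fun _ _ => le_rfl) (by rwa [fw_top]) (by rwa [fw_top]) (by rwa [fw_top])
  refine fun k a b => ⟨(R k a b).1, (R k a b).2.1, (R k a b).2.2, h.fw_ec (fun k a b =>
    ⟨u k (by omega), (R (k + 1) b (by omega)).1, mul_pos three_pos (h.D_pos k), c k a b.le⟩) e3 k a b,
    fun s hs => pu_mono ((R k a b).1.fi.ml.pu_one (h.ρ0 k) (c k b a) (mul_pos three_pos (h.D_pos k))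
      ((R k a b).2.1 ▸ (w.bz k (by omega) a).1 : PU _ _ (Fy.bs _).1)
      (fun x hx => ((R k a b).2.2 x hx ▸ (n k b a).1 x hx : PU _ _ (Fy.jt _ {x}).1)) (n k b a).2.1
      fun x _ => (hs x).le) (n k b a).2.2⟩

/-- merged sources -/
theorem flow2 (hV : G.Q l ^ 273 * (σ * N l) ≤ G.bb l) : ∀ k ≤ l, j ≤ k →
    G.Fd k (G.zz b J k) A (fun _ => σ) (fun _ => 2 ^ (l - k) * σ) (G.Q k ^ 329)⁻¹
      (G.fw A b J Y i k) (f k) ∧ (G.fw A b J Y i k).bs = H k ∧ (G.fw A b J Y i k).Ec A cl ∧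
      (∀ s ∈ Pd fun _ => 2 ^ (l - k) * σ, PU (G.p k) (G.Q k ^ 211)⁻¹ ((G.fw A b J Y i k).ψ s)) ∧
      ∀ T ⊆ A, T.Nonempty → ‖jd T (G.fw A b J Y i j).E - jd T (G.fw A b J Y i k).E‖ ≤
        (100 ^ (l - k))⁻¹ / σ ^ T.card := by
  have u := h.pu_all t hp
  obtain ⟨a1, a2, a3, a4, -⟩ := h.flow1 t hp hi hj σ0 w g e e1 e2 e3 l hl le_rfl
  obtain ⟨n0, -, n2⟩ := w.sz l le_rfl hl
  have q := h.Q0 l
  have Z := fw_Z (G := G) (A := A) (b := b) (J := J) (Y := Y) l hl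
  have C : ∀ k, j ≤ k → k ≤ l → Cls (G.N k) ((2 * c + 2) * (G.p k).D) A cl
      fun a => G.zs ((G.fw A b J Y i l).Z a) l k := fun k a b => by
    simpa only [Z, zs_zs hl b] using g.grp k a b
  have R := h.famII t u (hl.trans hi) (fun k a b => ⟨w.hs k a (by omega),
    pu_mono (w.bz _ (by omega) (by omega)).1 (h.inv_up k.le_succ _)⟩) a2 C g.card g.big
    (inv_pos.2 (pow_pos q 220)).le (mul_inv_cancel₀ (pow_pos q _).ne').le (fun _ => le_rfl)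
    (fun k a b => w.tt k a (by omega)) a1 fun a => by
      obtain ⟨Y0, y1, y2⟩ := g.vol a
      refine h.ms_init a1.fi (Z ▸ g.one l le_rfl hl) (mul_pos three_pos (h.D_pos l))
        (fun _ _ => le_rfl) σ0.le n0 (inv_pos.2 (pow_pos q 100)).le ?_
        (fun x hx => a3 x hx ▸ n2 x hx) (fun x hx a => Z ▸ y2 x hx a) y1 le_rfl
        ((le_of_eq (by ring)).trans hV)
      rw [← div_eq_mul_inv, div_le_one (pow_pos q _)]
      exact pow_le_pow_right₀ (h.Q1 l) (by norm_num)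
  have F := fun k (a : k ≤ l) => fw_fw (G := G) (A := A) (β := b) (J := J) (Y := Y) hl k a
  have D : ∀ k, (0 : ℝ) < (2 * c + 2) * (G.p k).D := fun k => by have := h.D_pos k; positivity
  intro k a b
  obtain ⟨r1, r2, r3, -, r4⟩ := R k a b
  have q' := h.Q0 k
  have n1 : (G.Q l ^ 220)⁻¹ / 100 ^ (l - k) ≤ (G.Q k ^ 220)⁻¹ / 100 ^ (l - k) :=
    div_le_div_of_nonneg_right (h.inv_up a _) (by positivity)
  have n2 : (G.Q k ^ 220)⁻¹ / 100 ^ (l - k) ≤ (G.Q k ^ 220)⁻¹ :=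
    div_le_self (by positivity) (one_le_pow₀ (by norm_num))
  have ec := h.fw_ec (fun k a b => ⟨u k (by omega), (R (k + 1) b (by omega)).1, D k,
    by rw [fw_Z k b.le]; exact C k a b.le⟩) (fun T hT x hx y hy e => a4 T hT x hx y hy
      fun a => e (congrArg cl a)) k a b
  have pu := fun s hs => (h.ms_pm (x := 0) (y := 0) (w := 0) r1.fi (by rw [fw_Z k a]; exact C k b a)
    (D k) (by positivity) r3 (s := s) hs).2 (r2 ▸ (w.bz k b (by omega)).1 : PU _ _ (Fy.bs _).1)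
  rw [F k a] at r1 r2 r4 ec pu
  rw [F j hj] at r4
  refine ⟨r1, r2, ec, fun s hs => pu_mono (pu s hs) ?_, fun T hT h0 => (r4 T hT h0).trans ?_⟩
  · linarith [mul_le_mul_of_nonneg_left (n1.trans n2) (pow_pos q' 7).le,
      h.pw_inv k (i := 7) (j := 213) (l := 220) rfl, h.inv_le k (show 211 < 212 by norm_num),
      h.inv_le k (show 212 < 213 by norm_num), inv_pos.2 (pow_pos q' 213)]
  · rw [prod_const]
    refine div_le_div_of_nonneg_right (((mul_le_mul_of_nonneg_left n1 (by positivity))).trans ?_)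
      (by positivity)
    rw [← mul_div_assoc, mul_assoc, h.pw_inv k (j := 210) rfl, ← one_div (100 ^ _)]
    refine div_le_div_of_nonneg_right ?_ (by positivity)
    have := h.inv_le k (show 0 < 210 by norm_num)
    rw [pow_zero, inv_one] at this
    linarith [inv_pos.2 (pow_pos q' 210)]

omit hi hl hj σ0 w g e e1 e2 e3 hp

variable {F : ι → Sr} {a : ℝ}

omit [DecidableEq κ] in
/-- the family at the top of a run -/
theorem top_fd (σ0 : 0 < σ) (hZ : ∀ a x, rc (G.N J) x ∉ W a → F a x = 0)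
    (hF : ∀ i ∈ A, ∀ x μ ν, ‖F i x μ ν‖ ≤ a) (a0 : 0 ≤ a) (ha : σ * a ≤ G.bb J / 4)
    (c : Cls (G.N J) (3 * (G.p J).D) A id W) : G.Fd J (G.zz b J J) A (fun _ => σ) (fun _ => σ)
      (G.Q J ^ 329)⁻¹ (G.ft A F W b J) (G.fr A F b J J) := by
  have v := (t.gd J le_rfl).tz.v
  rw [zz_top] at v ⊢
  refine (h.fam_top (m := 1) (c := 1) v (fun _ => σ0) (fun s hs x μ ν => (sF_le c (mul_pos three_pos
    (h.D_pos J)) hZ hF (fun x _ => (hs x).le) (mul_nonneg σ0.le a0) x μ ν).trans ha) hZ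
    (fun x hx => ⟨_, hF x hx⟩) c (by norm_num) (fun c => card_le_one.2 fun a ha b hb =>
      (mem_filter.1 ha).2.trans (mem_filter.1 hb).2.symm) le_rfl).mono (fun _ => σ0)
    (fun _ => le_rfl) ?_
  have g0 := h.g0 J
  have := pow_le_pow_of_le_one g0.le (h.g1 J) (show 2 ≤ 31 by norm_num)
  linarith [h.g_le J, h.inv_le J (i := 329) (j := 4000) (by norm_num), pow_pos g0 2]

omit [DecidableEq ι] [DecidableEq κ] in
theorem run_fw2 (sz : ∀ k, l ≤ k → k ≤ J → 0 ≤ N k ∧ G.Q k ^ 223 * (σ * N k) ≤ G.bb k ∧ ∀ x ∈ A,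
      G.Sz k (N k) (N k) (G.Q k ^ 100)⁻¹ (G.tv (F x) b J k).1 (G.tv (F x) b J k).2) :
    G.Fw2 A b J J l j σ (fun k => (G.zz b J k).d) (fun x => G.tv (F x) b J) N (G.fr A F b J) :=
  ⟨fun k _ hk => by rw [zz_step b hk]; rfl, fun _ _ hk => h.bz_run t hk, fun _ _ hk => fr_step hk,
    fun _ _ hk _ _ => tn_step hk, sz⟩

omit t [DecidableEq ι] in
theorem geo_of {Δ Δ' : ℝ} {R : ℕ} (hl : l ≤ i) (h1 : Cls (G.N i) Δ A id W)
    (h2 : 66 * ((G.L l : ℝ) ^ G.K0 * G.rt i l) ≤ Δ) (h3 : Cls (G.N i) Δ' A cl W)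
    (h4 : (40 * c + 46) * ((G.L j : ℝ) ^ G.K0 * G.rt i j) ≤ Δ')
    (hc : ∀ a, (A.filter (cl · = a)).card ≤ c) (hL : 1000 * 3 ^ c ≤ G.L j)
    (hR : ∀ a, ∃ y, ∀ x ∈ A, cl x = a → W x ⊆ tb (G.N i) R {y})
    (hV : ((2 * (R / G.rt i l + 4 * G.L l ^ G.K0) + 1) ^ 4 : ℕ) ≤ G.Q l ^ 50) :
    G.Geo A cl c W i l j :=
  ⟨fun _ a b => h.zs_cls h1 zero_le_three (by linarith) a b,
    fun _ a b => h.zs_cls h3 (by positivity) (by linarith) a (b.trans hl), hc, hL, fun a =>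
      let ⟨_, e⟩ := hR a
      ⟨_, (Nat.cast_le.2 (h.zs_card Subset.rfl hl)).trans hV, fun x hx u => zs_mono (e x hx u) l hl⟩⟩

omit t [DecidableEq ι] [DecidableEq κ] in
theorem sig_le (hσ : σ ≤ G.sg l) (hk : l ≤ k) :
    G.Q k ^ 223 * (σ * G.Q k ^ 2) ≤ G.bb k ∧ G.Q l ^ 273 * (σ * G.Q l ^ 2) ≤ G.bb l ∧
      σ * 2 ≤ G.bb k / 4 := by
  have q := h.Q0 l
  have q' := h.Q0 k
  have a := (le_div_iff₀ (pow_pos q _)).1 hσ
  have a1 := h.mono5 hk (C := 225) (by norm_num)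
  have b0 := h.b0 l
  rcases le_total σ 0 with σ0 | σ0
  · refine ⟨?_, ?_, by linarith [h.b0 k]⟩ <;>
      exact (mul_nonpos_of_nonneg_of_nonpos (by positivity)
        (mul_nonpos_of_nonpos_of_nonneg σ0 (by positivity))).trans (h.b0 _).le
  have p : ∀ {i}, i ≤ 1200 → σ * G.Q l ^ i ≤ G.bb l := fun e =>
    (mul_le_mul_of_nonneg_left (pow_le_pow_right₀ (h.Q1 l) e) σ0).trans a
  refine ⟨le_of_mul_le_mul_right ?_ (pow_pos q (5 * 225)), (le_of_eq (by ring)).trans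
    (p (i := 275) (by norm_num)), ?_⟩
  · refine le_trans ((le_of_eq (by ring)).trans (mul_le_mul_of_nonneg_right (p (i := 5 * 225)
      (by norm_num)) (pow_pos q' 225).le)) a1
  · have := mul_le_mul_of_nonneg_left (h.cQ l (C := 8) (by norm_num)) σ0
    linarith [p (i := 1) (by norm_num), h.b_mono hk]

omit t [DecidableEq ι] [DecidableEq κ] in
theorem sq_le (k : ℕ) {x : ℝ} (e : x ≤ 10 ^ 6 * G.Q k) : x ≤ G.Q k ^ 2 := by
  nlinarith [h.cQ k (C := 10 ^ 6) (by norm_num)]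

variable {g : ι → St → ℂ} {τ : ℝ} (hu : G.Tv b J) (P : ∀ x ∈ A, G.Pf J a τ (F x) (g x))
  (a0 : 0 < a) (hτ : 1.01 ^ (J - l) * (10 ^ 37 * τ) ≤ 1) (τ0 : 0 ≤ τ) (ha : G.rt J l * a ≤ 4)
  (hσ : σ ≤ G.sg l)
include hu P a0 hτ τ0 ha hσ

omit t hu P hσ [DecidableEq ι] [DecidableEq κ] in
theorem pe_sq (hk : l ≤ k) : G.pe J k a τ + 1 * 1000 ≤ G.Q k ^ 2 := h.sq_le k (by
  have b1 : (1.01 : ℝ) ^ (J - k) ≤ 1.01 ^ (J - l) := pow_le_pow_right₀ (by norm_num) (by omega)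
  have b2 : (G.rt J k : ℝ) ≤ G.rt J l := Nat.cast_le.2 (Nat.pow_le_pow_right (by norm_num)
    (Nat.sub_le_sub_left (h.sch.mono.monotone hk) _))
  have b3 := mul_le_mul_of_nonneg_left ((mul_le_mul_of_nonneg_right b2 a0.le).trans ha) (h.Q0 k).le
  rw [pe]
  linarith [mul_le_mul_of_nonneg_right b1 (show 0 ≤ 10 ^ 37 * τ by positivity), h.Q1 k])

omit [DecidableEq ι] [DecidableEq κ] in
theorem run_fw : G.Fw2 A b J J l j σ (fun k => (G.zz b J k).d) (fun x => G.tv (F x) b J)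
    (fun k => G.Q k ^ 2) (G.fr A F b J) := h.run_fw2 t fun k a1 a2 =>
  have e := h.pe_sq a0 hτ τ0 ha a1
  ⟨sq_nonneg _, (h.sig_le hσ a1).1, fun x hx => h.sz_le (h.tv_sz' t hu (P x hx).lip a0 (P x hx).le
    (P x hx).near a2) (sqrt_nonneg _) e (by linarith) (h.sg_le k)⟩

omit hu a0 ha in
theorem run_top (σ0 : 0 < σ) (hl : l ≤ J) (hZ : ∀ a x, rc (G.N J) x ∉ W a → F a x = 0)
    (geo : G.Geo A cl c W J l j) : G.Fd J (G.zz b J J) A (fun _ => σ) (fun _ => σ)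
      (G.Q J ^ 329)⁻¹ (G.ft A F W b J) (G.fr A F b J J) ∧ (G.ft A F W b J).bs = (G.zz b J J).d ∧
      ∀ x ∈ A, (G.ft A F W b J).jt {x} = G.tv (F x) b J J := by
  refine ⟨h.top_fd t (a := 2) σ0 hZ (fun x hx y μ ν => ?_) zero_le_two (h.sig_le hσ hl).2.2
    (by simpa only [zs_top] using geo.one J hl le_rfl), fm_top (G := G) (A := A) ▸ fm_bs J le_rfl,
    fun x hx => by rw [ft_jt hx, tv, tn_top]⟩
  have := mul_le_mul_of_nonneg_right (one_le_pow₀ (show (1 : ℝ) ≤ 1.01 by norm_num) :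
    _ ≤ _ ^ (J - l)) (show 0 ≤ 10 ^ 37 * τ by positivity)
  linarith [norm_le_norm_add_norm_sub' (F x y μ ν) (g x y), (P x hx).le y, (P x hx).near y μ ν]

omit t hu P a0 hτ τ0 ha hσ

/-- the last level -/
theorem th_le (k : ℕ) : G.Q k ^ 100 * (G.Q k ^ 211)⁻¹ ≤ 1 ∧ G.Q k ^ 100 * (G.Q k ^ 329)⁻¹ ≤ 1 := by
  constructor <;> rw [← div_eq_mul_inv, div_le_one (pow_pos (h.Q0 k) _)] <;>
    exact pow_le_pow_right₀ (h.Q1 k) (by norm_num)

omit h in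
theorem jd_two (e : Y.Ec A id) (hT : T ⊆ A) (h2 : 2 ≤ T.card) : jd T Y.E = 0 :=
  let ⟨x, hx, y, hy, u⟩ := one_lt_card.1 h2
  e T hT x hx y hy u

/-- the family of the sources of a run -/
theorem fe_run [Fintype ι] {F : ι → YM7.Src (G.N J)} {w M : ℝ} (t : G.Tu b J) (hp : G.Pu)
    (hu : G.Tv b J) (P : ∀ x, YM7.Nrm a τ (F x)) (a0 : 0 < a)
    (hτ : 1.01 ^ (J - l) * (10 ^ 37 * τ) ≤ 1) (τ0 : 0 ≤ τ) (ha : G.rt J l * a ≤ 1) (σ0 : 0 < σ)
    (hσ : σ ≤ G.sg l) (hl : l ≤ J) (hj : j ≤ l) (hW : ∀ x, Br.sup (F x) ⊆ W x)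
    (geo : G.Geo univ cl c W J l j) (hw : w⁻¹ ≤ 2 ^ (l - j) * σ)
    (hM : ∀ x, (G.zs (W x) J j).card ≤ M) :
    G.Fe b J j F w M (G.fm univ (fun x => Br.symF (F x)) W b J j) ∧
      (G.fm univ (fun x => Br.symF (F x)) W b J j).Ec univ cl ∧ ∀ T, 2 ≤ T.card →
        ‖jd T (G.fm univ (fun x => Br.symF (F x)) W b J j).E‖ ≤ σ⁻¹ ^ T.card := by
  choose g g1 g2 _ g3 using fun x => Br.nrm_lip (P x)
  have P' : ∀ x ∈ univ, G.Pf J (4 * a) τ (Br.symF (F x)) (g x) := fun x _ => ⟨g1 x, g2 x, g3 x⟩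
  have w := h.run_fw (j := j) t hu P' (by positivity) hτ τ0 (by linarith) hσ
  obtain ⟨e, e1, e2⟩ := h.run_top t P' hτ τ0 hσ σ0 hl (fun x y u => Br.symF_out (h.N_odd J)
    fun v => u (hW x v)) geo
  have R := h.flow2 t hp le_rfl hl hj σ0 w geo e e1 e2 ft_ec (h.sig_le hσ le_rfl).2.1
  obtain ⟨r1, r2, r3, r4, -⟩ := R j hj le_rfl
  have u := r2 ▸ w.bz j le_rfl (hj.trans hl)
  refine ⟨⟨_, _, _, _, _, _, (t.gd j (hj.trans hl)).tz, r1, u.2.1, u.2.2, r4, (h.th_le j).1,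
    (h.th_le j).2, fun x => ⟨hw, by rw [fm_Z (hj.trans hl)]; exact hM x⟩⟩, r3, fun T hT => ?_⟩
  simpa [fm, jd_two (h.flow1 t hp le_rfl hj σ0 w geo e e1 e2 ft_ec l hl le_rfl).2.2.2.1
    (subset_univ T) hT] using (R l le_rfl hj).2.2.2.2 T (subset_univ T) (card_pos.1 (by omega))

end Ok

end Gl

end Pool.Agent.Lib.MP_7f377f_mp.RG.Q4.En
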