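import Pool.Agent.Lib.MP_7f377f_mp.G.SoftH
import Pool.Agent.Lib.MP_7f377f_mp.G.LgDefs

/-! Half cells of the torus and array bounds with explicit constants. -/

noncomputable section

namespace Pool.Agent.Lib.MP_7f377f_mp.Lg
variable [Pool.Agent.Lib.MP_7f377f_mp.GD]
set_option linter.unusedSectionVars false

open MeasureTheory Filter Topology Real YM7 Weak

variable {n m : ℕ}

/-- all corners of the plaquettes of the source lie inside the slot `c` of width `lam / 2` -/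
def Slot (lam : ℕ) (c : Fin 4 → ℤ) (F : Src n) : Prop := ∀ x μ ν y, F x μ ν ≠ 0 → Cor x μ ν y →
  ∀ l, ∃ t : ℤ, y l = t ∧ c l * lam + 2 ≤ 2 * t ∧ 2 * t + 2 ≤ (c l + 1) * lam

/-- reflection of the axes `l` with `ε l` -/
def rE (ε : Fin 4 → Bool) (F : Src n) : Src n := fun x μ ν =>
  F (fun l => if ε l then -x l - (if μ = l ∨ ν = l then 1 else 0) else x l) μ ν

/-- the images of a source under the reflections in the walls of the slots -/
def img (lam : ℕ) (g : (Fin 4 → Bool) × Site 4 m) (F : Src n) : Src n :=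
  fun x => rE g.1 F (x - corner lam g.2)

variable [MeasurableSpace SU2] (h : Measure SU2) {ι : Type} (Φ : Filter ι) (n : ι → ℕ)
  [∀ p, NeZero (n p)] (a b τ : ι → ℝ)

/-- one source in each cell, margin proportional to the mesh, constant linear in `e` -/
def Poly3 : Prop :=
  ∃ N : ℝ, 0 ≤ N ∧ ∀ᶠ e : ℕ in atTop, ∀ᶠ p in Φ, ∃ (m lam : ℕ) (_ : NeZero m), Odd m ∧ 3 ^ e ∣ m ∧
    n p = m * lam ∧ a p * lam = (3 ^ e)⁻¹ ∧ ∃ Λ, Inv Λ lam ∧ Gen h (b p) (κ := Unit) (n := n p) Λ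
      (Cla (m := m) (a p) (a p) (τ p) ((3 ^ e)⁻¹ / 32) lam 0) 1 (exp (N * e * m ^ 4))

/-- the same for centred fields -/
def PolyC : Prop :=
  ∃ N : ℝ, 0 ≤ N ∧ ∀ᶠ e : ℕ in atTop, ∀ᶠ p in Φ, ∃ (m lam : ℕ) (_ : NeZero m), Odd m ∧ 3 ^ e ∣ m ∧
    n p = m * lam ∧ a p * lam = (3 ^ e)⁻¹ ∧ ∀ (A : Finset (Site 4 m)) (F : Site 4 m → Src (n p)),
      (∀ c ∈ A, Nrm (a p) (τ p) (F c) ∧ InT (a p) ((3 ^ e)⁻¹ / 16) lam c (F c)) →
      |∫ U, ∏ c ∈ A, cen h (b p) (F c) U ∂wilson h (b p) (n p)| ≤ exp (N * e * m ^ 4)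

end Pool.Agent.Lib.MP_7f377f_mp.Lg
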