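import Pool.Agent.Lib.MP_7f377f_mp.G.Q5Poly
import Pool.Agent.Lib.MP_7f377f_mp.G.Q5Lev
import Pool.Agent.Lib.MP_7f377f_mp.G.LgLat

/-! One source in each cell, with a constant which is linear in the logarithm of the mesh. -/

noncomputable section

open Pool.Agent.Lib.MP_7f377f_mp.Jet

set_option linter.unusedSectionVars false
variable [Pool.Agent.Lib.MP_7f377f_mp.GD]

namespace Pool.Agent.Lib.MP_7f377f_mp.RG.Q4.En

open Finset Real Sg Br YM7 Filter Topology MeasureTheory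

theorem int_ratio2 : ∃ C : ℝ, 0 ≤ C ∧ ∀ {ι : Type} [DecidableEq ι]
    {A : Finset ι} {r r0 : ι → ℝ} {θ β : ℝ} {G : Gl} {J j : ℕ} {z : Z} {Y : Fy ι}
    {f : (ι → ℂ) → Conf → ℂ}, G.Ok → G.Tz J j z → G.Fd j z A r0 r θ Y f → GI (G.N j) (f 0) →
    Pos (f 0) → RealP (G.p j) (Y.ψ 0) → RealA (Y.K 0) → (∀ s ∈ Pd r, PU (G.p j) β (Y.ψ s)) →
    G.Q j ^ 100 * β ≤ 1 → G.Q j ^ 100 * θ ≤ 1 → Y.ir G j z 0 ≠ 0 ∧
      SH r (exp (C / G.g j * G.N j ^ 4)) fun s => Y.ir G j z s / Y.ir G j z 0 := by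
  obtain ⟨c, C, c0, -, C0, H⟩ := maj_rep
  obtain ⟨a, a0, a1, hz⟩ := z_low
  have a2 : ∀ g, a * min a g ≤ 1 := fun g => by nlinarith [min_le_left a g]
  refine ⟨2 * C + 4 * GD.d * (a * a)⁻¹, by positivity,
    fun {ι _ A r r0 θ β G J j z Y f} h t e gf pf r1 r2 pu hb hθ => ?_⟩
  have n := h.sl_nf j z
  have g0 := h.g0 j
  have g1 : G.g j ≤ 1 := (le_mul_of_one_le_left g0.le (one_le_pow₀ (h.Q1 j))).trans (h.Qg j)
  have m0 := lt_min a0 g0
  have a3 := mul_pos a0 m0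
  obtain ⟨k, sm⟩ := Fi.sml (S := G.sl j z) (n.symm ▸ e.fi) pu hb hθ
  have w := fun s hs U hU => H _ _ _ _ _ _ _ _ (h.lf t) (sm s hs) U (n.symm ▸ hU)
  rw [n] at w
  have e0 : ∀ U, Per (G.N j) U → f 0 U = _ := fun U hU => (e.eq.eqv hU).zero
  have κ0 := norm_pos_iff.2 (Complex.exp_ne_zero (Y.E 0))
  have lo := hz _ _ (‖Complex.exp (Y.E 0)‖ * exp (-(C * G.N j ^ 4))) _ (h.N_odd j) gf pf
    (by positivity) m0 (min_le_left _ _) fun U hU h1 => by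
      rw [← abs_of_pos (pf U).2, Complex.abs_re_eq_norm.2 (pf U).1, e0 U hU, norm_mul]
      exact mul_le_mul_of_nonneg_left (((w 0 (zero_mem e.fi.pos) U hU).2 r1 r2 fun f =>
        (h1 f).trans (min_le_right _ _)).trans (Complex.re_le_norm _)) κ0.le
  have up : zz (G.N j) (f 0) (fun _ => 1) ≤ ‖Complex.exp (Y.E 0)‖ * ‖Y.ir G j z 0‖ := by
    rw [← norm_mul, Fy.ir, ← integral_const_mul, zz]
    simp only [← e0 _ (Mx.per_pc _ _), mul_one]
    obtain ⟨M, hM⟩ := gf.2.1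
    exact (integral_re (.of_bound (gf.1.comp Fi.meas_pc).aestronglyMeasurable M
      (.of_forall fun _ => hM _))).trans_le (RCLike.re_le_norm _)
  have lw := le_of_mul_le_mul_left ((mul_assoc ..).ge.trans (lo.trans up)) κ0
  have n0 := norm_pos_iff.1 (lt_of_lt_of_le (by positivity) lw)
  have d := h.fd_hd t e
  have I := sh_int PP e.fi.pos (fun U => d.1.choose_spec (pc (G.N j) U))
    fun s hs => (d.2 s hs).comp Fi.meas_pc
  refine ⟨n0, e.fi.pos, fun s hs i => (I.hol s hs i).div_const _, fun s hs => ?_⟩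
  have N1 : (1 : ℝ) ≤ G.N j ^ 4 := one_le_pow₀ (by exact_mod_cast (h.N_odd j).pos)
  have u : ‖Y.ir G j z s‖ ≤ exp (C * G.N j ^ 4) :=
    (norm_integral_le_of_norm_le_const (μ := PP) (.of_forall fun U =>
      (w s hs _ (Mx.per_pc _ U)).1.trans (exp_le_exp.2 (sub_le_self _
        (mul_nonneg (div_pos c0 g0).le (ps_nonneg _ _)))))).trans_eq (by simp)
  have v : 2 * C - 4 * GD.d * log (a * min a (G.g j)) ≤
      (2 * C + 4 * GD.d * (a * a)⁻¹) / G.g j := by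
    have v1 : a * a * G.g j ≤ a * min a (G.g j) := by
      rw [mul_assoc]
      exact mul_le_mul_of_nonneg_left (le_min (by nlinarith) (by nlinarith)) a0.le
    have v2 := (log_le_sub_one_of_pos (inv_pos.2 a3)).trans (sub_le_sub_right (inv_anti₀
      (by positivity) v1) 1)
    rw [log_inv, mul_inv] at v2
    rw [add_div, mul_div_assoc (4 * GD.d : ℝ), div_eq_mul_inv _⁻¹]
    nlinarith [le_div_self (show 0 ≤ 2 * C by positivity) g0 g1, GD.d.cast_nonneg (α := ℝ)]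
  rw [norm_div]
  refine (div_le_div₀ (exp_pos _).le u (by positivity) lw).trans
    (le_trans ?_ (exp_le_exp.2 (mul_le_mul_of_nonneg_right v (by positivity))))
  rw [← exp_log a3, ← exp_nat_mul, ← exp_add, ← exp_sub, exp_le_exp, log_exp]
  push_cast
  nlinarith [mul_nonneg (GD.d.cast_nonneg (α := ℝ)) (mul_nonneg (neg_nonneg.2 (log_nonpos a3.le
    (a2 (G.g j)))) (sub_nonneg.2 N1))]

namespace Gl

theorem gen_cell2 : ∃ C : ℝ, 0 ≤ C ∧ ∀ {G : Gl} {J j m u : ℕ} [NeZero (G.N J)] [NeZero m]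
    {b w N : ℝ} {P : Weak.Site 4 m → (Unit → Src (G.N J)) → Prop}, G.Ok → 0 ≤ b → j ≤ J → 0 < w →
    G.N j = m * u → (∀ F : _ → Unit → _, (∀ c, P c (F c)) → ∃ Y,
      G.Fe b J j (fun p : Weak.Site 4 m × Unit => F p.1 p.2) w N Y ∧ Y.Ec univ Prod.fst) →
    Gen (Fi.tr haar) b (G.al b J j) P w (exp ((C / G.g j * u ^ 4 + N) * m ^ 4)) := by
  obtain ⟨C, C0, H⟩ := int_ratio2
  refine ⟨C, C0, fun {G J j m u _ _ b w N P} h b0 hj w0 hn hP F hF => ?_⟩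
  obtain ⟨Y, e, ec⟩ := hP F hF
  obtain ⟨z, -, z1, z2⟩ := h.fe_al b0 hj w0 e
  obtain ⟨J', z', r0, r, θ, β, t, e, r1, r2, pu, hb, hθ, hr⟩ := e
  obtain ⟨g1, -, g2⟩ := (h.f_facts J j).1 b b0
  rw [← h.fr_zero (A := univ) (F := fun i : _ × Unit => symF (F i.1 i.2)) j hj] at g1 g2
  obtain ⟨n0, a⟩ := H h t e g1 g2 r1 r2 pu hb hθ
  have c := e.eq.int PP
  simp only [integral_const_mul] at c
  obtain ⟨e0, q, q1, -, q2⟩ := red_eqv (h.mom_ex hj fun i : _ × Unit => F i.1 i.2) c e.ma n0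
    (a.shrink (fun _ => inv_pos.2 w0) fun i => (hr i).1)
  obtain ⟨g, g1, g2⟩ := gen_abs (M' := exp (Fintype.card Unit * N)) e0 (fun T i hi j hj k => by
    rw [ce, if_neg (ne_empty_of_mem hi), ec T (subset_univ T) i hi j hj k]) q2 z1 q1
    ⟨_, (z2 univ).1.congr fun s _ => congrArg z (by ext; simp [cutS])⟩ fun c => by
      have := (z2 ({c} ×ˢ univ)).2
      rw [card_product, card_singleton, one_mul, card_univ] at this
      convert this with y s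
      ext p
      simp only [YM7.ct, cutS, mem_product, mem_singleton, mem_univ, and_true]
  refine ⟨g, g1.mono ?_, g2⟩
  rw [← exp_nat_mul, ← exp_add, exp_le_exp, hn]
  simp only [Fintype.card_pi, ZMod.card, prod_const, card_univ, Fintype.card_fin, Nat.cast_pow,
    Fintype.card_unit, Nat.cast_one, Nat.cast_mul]
  linarith

variable {G : Gl} {β : ℕ × ℕ → ℝ}

/-- the level adapted to the mesh -/
theorem Ok.ex_lev (h : G.Ok) {C : ℝ} (C0 : 0 ≤ C) : ∀ᶠ e : ℕ in atTop, ∃ j, e ≤ G.e j ∧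
    1100 * G.L j ^ G.K0 ≤ 3 ^ (G.e j - e) ∧ C / G.g j * (3 ^ (G.e j - e) : ℕ) ^ 4 +
      ((2 * (3 ^ (G.e j - e) + 4 * G.L j ^ G.K0) + 1) ^ 4 : ℕ) ≤ 2 * (C + 1) * e := by
  have t : Tendsto (fun e : ℕ => ((3 : ℝ) ^ e)⁻¹) atTop (𝓝[>] 0) := tendsto_nhdsWithin_iff.2
    ⟨(tendsto_pow_atTop_atTop_of_one_lt (by norm_num)).inv_tendsto_atTop,
      .of_forall fun e => by simp⟩
  filter_upwards [t.eventually (h.ex_jm (A := 1100) (by norm_num) (h.ev_L 10000))] with e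
    ⟨_, j, l, e1, e2⟩
  have y : 1 ≤ (G.L j : ℝ) ^ G.K0 := one_le_pow₀ (by linarith)
  have j1 : e ≤ G.e j := by
    have : (1 : ℝ) ≤ (3 ^ e)⁻¹ * 3 ^ G.e j := by linarith
    rw [le_inv_mul_iff₀ (by positivity), mul_one] at this
    exact (pow_le_pow_iff_right₀ (by norm_num)).1 this
  rw [inv_mul_eq_div, div_eq_mul_inv, ← pow_sub₀ _ three_ne_zero j1] at e1 e2
  refine ⟨j, j1, by exact_mod_cast e1, ?_⟩
  have b0 := h.b0 j
  have x1 : (3 : ℝ) ^ (G.e j - e) ≤ G.L j ^ (G.K0 + 2) := by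
    rw [pow_succ _ (G.K0 + 1)]
    nlinarith [pow_pos (show (0 : ℝ) < G.L j by linarith) (G.K0 + 1)]
  have x2 : ((G.L j : ℝ) ^ (G.K0 + 3)) ^ 8 ≤ G.bb j := by
    rw [← pow_mul]
    exact h.Lb j (by have := h.B1; have := h.K0_le; omega)
  have x3 : 2 * (3 ^ (G.e j - e) + 4 * (G.L j : ℝ) ^ G.K0) + 1 ≤ G.L j ^ (G.K0 + 3) := by
    rw [pow_add] at x1 ⊢
    nlinarith [mul_le_mul_of_nonneg_left (show 2 * (G.L j : ℝ) ^ 2 + 9 ≤ G.L j ^ 3 by
      nlinarith [sq_nonneg (G.L j : ℝ)]) (zero_le_one.trans y)]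
  have x4 : ((G.L j : ℝ) ^ (G.K0 + 3)) ^ 4 ≤ √(G.bb j) := le_sqrt_of_sq_le (by rwa [← pow_mul])
  have x5 : G.bb j ≤ 2 * e := by
    have c1 : G.bb j ≤ G.e j := (h.sch.cmp j).2
    have c2 : (3 : ℝ) ^ (G.e j - e) ≤ G.bb j := x1.trans (h.Lb j (by
      have := h.B1; have := h.K0_le; omega))
    have c3 := one_add_mul_le_pow (show (-2 : ℝ) ≤ 2 by norm_num) (G.e j - e)
    rw [Nat.cast_sub j1] at c3
    norm_num at c3
    linarith
  have x6 := mul_self_sqrt b0.le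
  have x7 : 1 ≤ √(G.bb j) := one_le_sqrt.2 ((one_le_pow₀ (h.Q1 j)).trans (h.Qb j))
  have x8 : ((3 : ℝ) ^ (G.e j - e)) ^ 4 ≤ √(G.bb j) :=
    (pow_le_pow_left₀ (by positivity) (by linarith [pow_pos (three_pos (α := ℝ)) (G.e j - e)]) 4).trans x4
  have x9 := (pow_le_pow_left₀ (by positivity) x3 4).trans x4
  rw [g, div_inv_eq_mul]
  push_cast
  nlinarith [mul_le_mul_of_nonneg_left x8 (mul_nonneg C0 (sqrt_nonneg (G.bb j))),
    mul_le_mul_of_nonneg_left x5 C0]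

theorem Oks.poly3 (h : G.Oks) (hβ : G.Tus β) (T : ∀ p, (G.wm p.1).Tv (β p) p.2) (Φ : Filter ℕ) :
    Lg.Poly3 (Fi.tr haar) (Φ ×ˢ atTop) G.nn G.aa β fun p => 4 * ta p := by
  obtain ⟨C, C0, H⟩ := gen_cell2
  refine ⟨2 * (C + 1), by positivity, ((h 0).1.ex_lev C0).mono fun e ⟨j, j1, j2, j3⟩ => ?_⟩
  change e ≤ G.e j at j1
  change 1100 * G.L j ^ G.K0 ≤ 3 ^ (G.e j - e) at j2
  have δ0 : (0 : ℝ) < (3 ^ e)⁻¹ / 32 := by positivity
  filter_upwards [tendsto_snd.eventually_ge_atTop (j + 3)] with p hp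
  obtain ⟨o, pu⟩ := h p.1
  have hj : j ≤ p.2 := by omega
  have a0 := G.aa_pos p
  have τ1 := ta_le (p := p) (by omega) p.2
  rw [Nat.sub_self, pow_zero, one_mul] at τ1
  have a1 : G.aa p * 3 ^ (G.wm p.1).e p.2 = 1 := inv_mul_cancel₀ (by positivity)
  have τ0 : 0 ≤ 4 * ta p := by unfold ta; positivity
  have hn : (G.wm p.1).N j = (2 * p.1 + 1) * 3 ^ e * 3 ^ (G.e j - e) := by
    rw [mul_assoc, ← pow_add, Nat.add_sub_cancel' j1]; rfl
  have hn' : G.nn p = (2 * p.1 + 1) * 3 ^ e * ((G.wm p.1).rt p.2 j * 3 ^ (G.e j - e)) := by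
    rw [nn, ← o.rt_N hj, hn, mul_left_comm]
  have hl : G.aa p * ((G.wm p.1).rt p.2 j * 3 ^ (G.e j - e) : ℕ) = (3 ^ e)⁻¹ := by
    have := G.aa_nn p
    rw [hn'] at this
    push_cast at this ⊢
    refine eq_inv_of_mul_eq_one_left (mul_left_cancel₀ (by positivity : (2 * p.1 + 1 : ℝ) ≠ 0) ?_)
    linarith
  refine ⟨_, _, inferInstance, (odd_two_mul_add_one _).mul (odd3 e), dvd_mul_left _ _, hn', hl, _,
    o.al_inv (hβ p).b0 hj (by rw [o.N_div hj]; exact dvd_mul_right _ _), fun F hF =>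
      (H o (hβ p).b0 hj one_pos hn (fun F hF => ?_) F hF).imp fun g hg => ⟨hg.1.mono
        (exp_le_exp.2 (mul_le_mul_of_nonneg_right j3 (by positivity))), hg.2⟩⟩
  have := o.fe_of pu (hβ p) hj (F := fun q : _ × Unit => F q.1 q.2) one_pos
    (fun q => nrm_le ((hF q.1).1 q.2).1) (by linarith) (by linarith [o.Qbb p.2 (i := 0) (by norm_num)])
    (fun q _ q' _ u => sep_cell hn' a0 ((hF q.1).1 q.2).2 ((hF q'.1).1 q'.2).2
      fun v => u (Prod.ext v rfl)) ?_ (N := 10 ^ 38) (by norm_num) ?_ (fun q k _ hk =>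
      let ⟨_, g1, g2, _, g3⟩ := nrm_lip ((hF q.1).1 q.2).1
      o.tv_sz (hβ p) (T p) g1 (by positivity) g2 g3 le_rfl hk (ta_le (by omega) k)
        (o.Q_rt1 hk (by linarith) (by positivity)))
    fun q => ⟨_, sup_cell (o.N_odd _) a0 δ0.le ((hF q.1).1 q.2).2⟩
  · rw [Nat.mul_div_cancel_left _ (Nat.cast_pos.1 (Ok.rt_pos _ _)), inv_one] at this
    exact this.imp fun Y y => ⟨y.1, fun T hT q hq q' hq' u =>
      y.2 T hT q hq q' hq' fun v => u (congrArg _ v)⟩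
  · have j4 : (1100 * G.L j ^ G.K0 : ℝ) ≤ 3 ^ (G.e j - e) := by exact_mod_cast j2
    have x0 := mul_pos (Ok.rt_pos (G := G.wm p.1) p.2 j) a0
    rw [le_div_iff₀ a0, ← hl]
    push_cast
    change 66 * ((G.L j : ℝ) ^ G.K0 * _) * _ ≤ _
    nlinarith [mul_le_mul_of_nonneg_left j4 x0.le, mul_pos x0 (pow_pos (three_pos (α := ℝ)) (G.e j - e))]
  · have := o.cQ j (C := 10 ^ 20) le_rfl
    exact le_trans (by nlinarith) (pow_le_pow_right₀ (o.Q1 j) (show 2 ≤ 1000 by norm_num))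

end Gl

end Pool.Agent.Lib.MP_7f377f_mp.RG.Q4.En
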