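import Pool.Agent.Lib.MP_7f377f_mp.G.ObA0
import Pool.Agent.Lib.MP_7f377f_mp.G.Q6Poly
import Pool.Agent.Lib.MP_7f377f_mp.G.Q5CmA

/-! Arrays of general observables: from the renormalisation group to the moments. -/

noncomputable section

open Pool.Agent.Lib.MP_7f377f_mp.Jet

set_option linter.unusedSectionVars false
variable [Pool.Agent.Lib.MP_7f377f_mp.GD]

namespace Pool.Agent.Lib.MP_7f377f_mp.RG.Q4.En

open Finset Real Sg Br YM7 MeasureTheory Mx
open Ob (mo arr)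

variable {ι κ : Type} [Fintype ι] [DecidableEq ι] [Fintype κ] [DecidableEq κ] {n : ℕ} {b : ℝ}
  {X : ι → Conf → ℂ}

/-- the Wilson weight with insertions -/
def pr (b : ℝ) (n : ℕ) (X : ι → Conf → ℂ) (s : ι → ℂ) (U : Conf) : ℂ :=
  wil b n U * ∏ q, (1 + s q * X q U)

theorem pr_eq (U : Conf) :
    (pr b n X · U) = ma univ fun T => (∏ q ∈ T, X q U) * wil b n U := funext fun s => by
  simp only [pr, ma, prod_one_add, mul_sum, prod_mul_distrib, mon, smul_eq_mul]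
  exact sum_congr rfl fun _ _ => by ring

theorem pr_zero : pr b n X 0 = fun U => (wil b n U : ℂ) := funext fun U => by simp [pr]

theorem gi_wil (m : ℕ) : GI m fun U => (wil b n U : ℂ) :=
  gi_cont (Complex.continuous_ofReal.comp (Fi.cont_wil b)) fun u U => by rw [wil_gauge]

theorem pr_gi (hX : ∀ q, GI n (X q)) (s : ι → ℂ) : GI n (pr b n X s) :=
  (gi_wil n).mul (.prod fun q _ => (GI.const n 1).add ((GI.const n _).mul (hX q)))

theorem pr_hd (hX : ∀ q, GI n (X q)) {r : ι → ℝ} (hr : ∀ i, 0 < r i) : HD r (pr b n X) := by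
  choose C hC using fun T : Finset ι =>
    ((GI.prod (s := T) fun q _ => hX q).mul (gi_wil (b := b) (n := n) n)).2.1
  refine ⟨⟨∑ S ∈ univ.powerset, (∏ i ∈ S, r i) * C S, fun U => ?_⟩, fun s _ => (pr_gi hX s).1⟩
  rw [pr_eq]
  exact (sh_ma hr _ _).mono (sum_le_sum fun S _ => mul_le_mul_of_nonneg_left (hC S U)
    (prod_nonneg fun i _ => (hr i).le))

/-- `X` extends the observables `O` of the torus -/
def Xo (n : ℕ) (X : ι → Conf → ℂ) (O : ι → Cfg n → ℝ) : Prop :=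
  ∀ q, GI n (X q) ∧ Continuous (O q) ∧ ∀ U, Per n U → X q U = O q (Fi.rs n U)

variable {O : ι → Cfg n → ℝ}

theorem Xo.jd (e : Xo n X O) (T : Finset ι) {U : Conf} (hU : Per n U) :
    jd T (pr b n X · U) = ((∏ q ∈ T, O q (Fi.rs n U)) * wil b n U : ℝ) := by
  rw [pr_eq, jd_ma _ (subset_univ T), prod_congr rfl fun q _ => (e q).2.2 U hU]
  push_cast
  rfl

theorem Xo.mo_ex [NeZero n] (e : Xo n X O) (hn : Odd n) (T : Finset ι) :
    mo (YM7.ex (Fi.tr haar) b n) O T =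
      Jet.jd T (fun s => ∫ U, pr b n X s (pc n U) ∂PP) / ∫ U, pr b n X 0 (pc n U) ∂PP := by
  have h := pr_hd (b := b) (fun q => (e q).1) (r := fun _ => 1) fun _ => one_pos
  rw [jd_int PP h.pos (fun U => h.1.choose_spec (pc n U)) fun s hs => (h.2 s hs).comp Fi.meas_pc,
    mo, ex_eq hn b (O := fun U => ∏ i ∈ T, O i U)
      (continuous_finsetProd _ fun i _ => (e i).2.1).measurable]
  simp only [e.jd T (per_pc n _), pr_zero, Fi.rs_pc, integral_complex_ofReal, Complex.ofReal_div]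

/-- the constant in the bound of the ratio of the integrals -/
def cJ : ℝ := int_ratio2.choose

theorem cJ_nn : 0 ≤ cJ := int_ratio2.choose_spec.1

namespace Gl

/-- the family `Y` represents the insertions `X` at level `j` on the polydisc of radius `w⁻¹` -/
def Fob (G : Gl) (b : ℝ) (J j : ℕ) (X : ι → Conf → ℂ) (w N : ℝ) (Y : Fy ι) : Prop :=
  ∃ J' z r0 r θ β, G.Tz J' j z ∧ G.Fd j z univ r0 r θ Y (fun s => G.tt (pr b (G.N J) X s) J j) ∧
    RealP (G.p j) (Y.ψ 0) ∧ RealA (Y.K 0) ∧ (∀ s ∈ Pd r, PU (G.p j) β (Y.ψ s)) ∧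
    G.Q j ^ 100 * β ≤ 1 ∧ G.Q j ^ 100 * θ ≤ 1 ∧ ∀ i, w⁻¹ ≤ r i ∧ (Y.Z i).card ≤ N

/-- the slots are separated and small at level `l` -/
def Sl (G : Gl) (b : ℝ) (J l : ℕ) (X : ι → Conf → ℂ) (σ : ℝ) (W : ι → Finset St) : Prop :=
  ∃ Y r0 N, G.Fd l (G.zz b J l) univ r0 (fun _ => σ) (G.Q l ^ 329)⁻¹ Y
    (fun s => G.tt (pr b (G.N J) X s) J l) ∧ Y.bs = (G.zz b J l).d ∧ Y.Ec univ id ∧ 0 ≤ N ∧
    G.Q l ^ 273 * (σ * N) ≤ G.bb l ∧
    ∀ q, G.Sz l N N (G.Q l ^ 100)⁻¹ (Y.jt {q}).1 (Y.jt {q}).2 ∧ Y.Z q ⊆ G.zs (W q) J l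

namespace Ok

variable {G : Gl} {J j l c : ℕ} {w N M σ : ℝ} {Y : Fy ι} (h : G.Ok)
include h

omit [Fintype ι] in
/-- the radius of the identity is irrelevant -/
theorem fd_up {J' : ℕ} {z : Z} {A : Finset ι} {r r0 : ι → ℝ} {θ : ℝ} {f : (ι → ℂ) → Conf → ℂ}
    (t : G.Tz J' j z) (e : G.Fd j z A r0 r θ Y f) (hf : HD r f) : G.Fd j z A r r θ Y f :=
  ⟨e.fi, e.ma, hf, (Hb.hd ⟨_, (e.hb e.fi.pos).choose_spec.exp⟩).mul (h.fd_hd t e), e.eq.eq⟩

/-- the flow of the clusters -/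
theorem fo_sl {γ : Type} [DecidableEq γ] {cl : ι → γ} {W : ι → Finset St} (t : G.Tu b J)
    (hp : G.Pu) (hl : l ≤ J) (hj : j ≤ l) (σ0 : 0 < σ) (hX : ∀ q, GI (G.N J) (X q))
    (s : G.Sl b J l X σ W)
    (geo : G.Geo univ cl c W J l j) (hM : ∀ x, (G.zs (W x) J j).card ≤ M) :
    ∃ Y, G.Fob b J j X (2 ^ (l - j) * σ)⁻¹ M Y ∧ Y.Ec univ cl ∧
      ∀ T, 2 ≤ T.card → ‖jd T Y.E‖ ≤ σ⁻¹ ^ T.card := by
  obtain ⟨Y, r0, N, e, e1, e3, N0, hN, sz⟩ := s
  have p := e.fi.pos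
  have e' := h.fd_up (t.gd l hl).tz e (tt_hd (pr_hd hX p) hl)
  let Y' : Fy ι := ⟨Y.ψ, Y.K, Y.E, fun x => G.zs (W x) J l⟩
  have f : G.Fd l (G.zz b J l) univ (fun _ => σ) (fun _ => σ) (G.Q l ^ 329)⁻¹ Y'
      fun s => G.tt (pr b (G.N J) X s) J l :=
    ⟨e'.fi.mono p (fun _ => le_rfl) le_rfl fun q => (sz q).2, e'.ma, e'.eq⟩
  have g : G.Geo univ cl c Y'.Z l l j :=
    ⟨fun k a b => by simpa only [Y', zs_zs hl b] using geo.one k a (b.trans hl),
      fun k a b => by simpa only [Y', zs_zs hl b] using geo.grp k a b, geo.card, geo.big,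
      by simpa only [Y', zs_top] using geo.vol⟩
  have w : G.Fw2 univ b J l l j σ (fun k => (G.zz b J k).d) (fun x _ => Y.jt {x}) (fun _ => N)
      fun k s => G.tt (pr b (G.N J) X s) J k :=
    ⟨fun k _ hk => by rw [zz_step b (hk.trans_le hl)]; rfl, fun _ _ hk => h.bz_run t (hk.trans hl),
      fun _ _ hk => funext fun _ => tt_step _ (hk.trans_le hl), fun _ a b => (a.not_gt b).elim,
      fun k a b => by
        obtain rfl := a.antisymm b
        exact ⟨N0, (mul_le_mul_of_nonneg_right (pow_le_pow_right₀ (h.Q1 _) (by norm_num))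
          (mul_nonneg σ0.le N0)).trans hN, fun x _ => (sz x).1⟩⟩
  have R := h.flow2 t hp hl le_rfl hj σ0 w g f e1 (fun _ _ => rfl) e3 hN
  obtain ⟨r1, r2, r3, r4, -⟩ := R j hj le_rfl
  have u := r2 ▸ w.bz j le_rfl hj
  refine ⟨_, ⟨_, _, _, _, _, _, (t.gd j (hj.trans hl)).tz, r1, u.2.1, u.2.2, r4, (h.th_le j).1,
    (h.th_le j).2, fun x => ⟨(inv_inv _).le, ?_⟩⟩, r3, fun T hT => ?_⟩
  · rw [fw_Z j hj]
    simpa only [Y', zs_zs hl hj] using hM x
  · simpa [fw_top, Y', jd_two e3 (subset_univ T) hT] using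
      (R l le_rfl hj).2.2.2.2 T (subset_univ T) (card_pos.1 (by omega))

variable [NeZero (G.N J)] {O : ι → Cfg (G.N J) → ℝ} (b0 : 0 ≤ b) (hj : j ≤ J) (w0 : 0 < w)
  (o : Xo (G.N J) X O) (e : G.Fob b J j X w N Y)
include b0 hj w0 o e

theorem fo_al : ∃ q : (ι → ℂ) → ℂ, q 0 = 1 ∧ (∀ T, mo (G.al b J j) O T =
    jd T fun s => Complex.exp (ma univ (ce Y.E) s) * q s) ∧ ∀ B : Finset ι,
      SH (fun _ => w⁻¹) (exp (B.card * N)) (fun s => q (cutS B s)) ∧ ∃ y,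
      SH (fun _ => w⁻¹) (exp (B.card * N)) y ∧ ∀ s ∈ Pd fun _ => w⁻¹, y s * q (cutS B s) = 1 := by
  obtain ⟨J', z, r0, r, θ, β, t, e, -, -, -, -, hθ, hr⟩ := e
  have a := e.eq.eqv (U := 1) fun _ => rfl
  simp only [h.fd_flat t e] at a
  have n0 := h.fd_ne t e hθ (zero_mem e.fi.pos)
  refine ⟨_, div_self n0, Ob.mo_eqv (fun T => ?_) a e.ma, fun B => ?_⟩
  · rw [mo, h.al_eq b0 _ hj, jd_tt (pr_hd (fun q => (o q).1) (r := fun _ => 1) fun _ => one_pos) hj,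
      h.tt_congr (fun U hU => o.jd T hU) hj 1 fun _ => rfl, pr_zero, h.f_tt b hj]
  have p : ∀ _ : ι, 0 < w⁻¹ := fun _ => inv_pos.2 w0
  have θ0 := e.fi.km.choose_spec.1.nonneg
  have c : exp (4 * θ * (B.biUnion Y.Z).card) ≤ exp (B.card * N) := by
    have a1 : ((B.biUnion Y.Z).card : ℝ) ≤ B.card * N := (Nat.cast_le.2 card_biUnion_le).trans (by
      rw [Nat.cast_sum, ← nsmul_eq_mul]; exact sum_le_card_nsmul _ _ _ fun i _ => (hr i).2)
    have a2 := mul_le_mul_of_nonneg_right ((h.cQ j (C := 4) (by norm_num)).trans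
      (le_self_pow₀ (h.Q1 j) (n := 100) (by norm_num))) θ0
    exact exp_le_exp.2 ((mul_le_of_le_one_left (by positivity) (a2.trans hθ)).trans a1)
  obtain ⟨u, v⟩ := h.fd_ratio t e hθ B
  refine ⟨(u.shrink p fun i => (hr i).1).mono c, _, (v.shrink p fun i => (hr i).1).mono c,
    fun s hs => ?_⟩
  have := h.fd_ne t e hθ (cut_mem (B := B) fun i => (hs i).trans_le (hr i).1)
  field_simp

theorem fo_ex : ∃ q, SH (fun _ => w⁻¹) (exp (cJ / G.g j * G.N j ^ 4)) q ∧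
    ∀ T, mo (YM7.ex (Fi.tr haar) b (G.N J)) O T =
      jd T fun s => Complex.exp (ma univ (ce Y.E) s) * q s := by
  obtain ⟨J', z, r0, r, θ, β, t, e, r1, r2, pu, hb, hθ, hr⟩ := e
  obtain ⟨g1, -, g2⟩ := (h.f_facts J j).1 b b0
  rw [h.f_tt b hj, ← pr_zero (X := X)] at g1 g2
  obtain ⟨n0, a⟩ := int_ratio2.choose_spec.2 h t e g1 g2 r1 r2 pu hb hθ
  have c := e.eq.int PP
  simp only [integral_const_mul] at c
  refine ⟨_, a.shrink (fun _ => inv_pos.2 w0) fun i => (hr i).1, Ob.mo_eqv (fun T => ?_) c e.ma⟩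
  simp only [(h.int_tt (pr_gi (fun q => (o q).1) _) hj).2, o.mo_ex (h.N_odd J)]

omit o e

/-- the input of the chessboard estimate -/
theorem rg_fo {m u : ℕ} [NeZero m] {ρ : ℝ} (hn : G.N j = m * u) (N0 : 0 ≤ N)
    {L : (κ → Cfg (G.N J) → ℝ) → Prop} (hL : Ob.Cl (G.rt J j * u) L)
    (H : ∀ O : Weak.Site 4 m → κ → _, (∀ c, L (O c)) → ∃ X Y,
      Xo (G.N J) X (arr (G.rt J j * u) O) ∧ G.Fob b J j X w N Y ∧ Y.Ec univ Prod.fst ∧
        ∀ T, 2 ≤ T.card → ‖jd T Y.E‖ ≤ ρ ^ T.card) :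
    Ob.Rg (Fi.tr haar) b (G.rt J j * u) L w ρ (cJ / G.g j * u ^ 4 + Fintype.card κ * N)
      (exp (Fintype.card κ * N)) := by
  have I : YM7.Inv (G.al b J j) (G.rt J j * u) :=
    h.al_inv b0 hj (by rw [h.N_div hj]; exact dvd_mul_right _ _)
  have k : ∀ (O : Weak.Site 4 m → κ → _), (∀ c, L (O c)) → ∀ c T,
      mo (G.al b J j) (arr (G.rt J j * u) O) (image (Prod.mk c) T) = mo (G.al b J j) (O c) T :=
    fun O hO c T => by
      simp only [mo, prod_image (Prod.mk_right_injective c).injOn, arr]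
      rw [I.sh (fun U => ∏ i ∈ T, O c i U) (continuous_finsetProd _ fun i _ => hL.cont _ (hO c) i)
        (Weak.corner _ c) fun _ => ⟨_, rfl⟩]
  have cu : ∀ (c : Weak.Site 4 m) (s : _ × κ → ℂ), cutS ({c} ×ˢ univ) s = YM7.ct c s :=
    fun c s => funext fun p => by
      simp only [YM7.ct, cutS, mem_product, mem_singleton, mem_univ, and_true]
  refine ⟨b0, w0, by have := cJ_nn; have := h.g0 j; positivity, hL, m, inferInstance, _,
    Nat.Odd.of_mul_left (hn ▸ h.N_odd j), by rw [← h.rt_N hj, hn, mul_left_comm], I,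
    fun O hO => ?_, fun O hO => ?_⟩
  · obtain ⟨X, Y, o, e, ec, -⟩ := H O hO
    obtain ⟨q, q1, q2⟩ := h.fo_ex b0 hj w0 o e
    obtain ⟨z, -, z1, z2⟩ := h.fo_al b0 hj w0 o e
    obtain ⟨g, g1, g2⟩ := Ob.gen_abs (M' := exp (Fintype.card κ * N)) (if_pos rfl)
      (fun T i hi j hj k => by
        rw [ce, if_neg (ne_empty_of_mem hi), ec T (subset_univ T) i hi j hj k]) q2 z1 q1
      ⟨_, (z2 univ).1.congr fun s _ => congrArg z (by ext; simp [cutS])⟩ fun c => by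
        simpa only [card_product, card_singleton, one_mul, card_univ, cu] using
          (z2 ({c} ×ˢ univ)).2
    refine ⟨g, g1.mono ?_, by simpa only [k O hO] using g2⟩
    rw [← exp_nat_mul, ← exp_add, exp_le_exp, hn]
    simp only [Fintype.card_pi, ZMod.card, prod_const, card_univ, Fintype.card_fin, Nat.cast_pow,
      Nat.cast_mul]
    linarith
  · obtain ⟨X, Y, o, e, -, ec⟩ := H (fun _ => O) fun _ => hO
    obtain ⟨z, z0, z1, z2⟩ := h.fo_al b0 hj w0 o e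
    have i := Prod.mk_right_injective (β := κ) (0 : Weak.Site 4 m)
    have a := (z2 ({0} ×ˢ univ)).1
    simp only [card_product, card_singleton, one_mul, card_univ, cu] at a
    obtain ⟨_, a'⟩ : Hb (fun _ => w⁻¹) z :=
      ⟨_, (z2 univ).1.congr fun s _ => congrArg z (by ext; simp [cutS])⟩
    refine ⟨fun T => ce Y.E (T.image (Prod.mk 0)), ⟨by simp [ce], fun s => z (Function.extend
      (Prod.mk 0) s 0), (Ob.sh_ext i a).congr fun s _ => congrArg z (funext fun p => ?_),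
      by simp only [Ob.ext_zero, z0], fun T => by rw [← k _ fun _ => hO, z1, Ob.red_ext i a']⟩,
      fun T hT => ?_⟩
    · rw [YM7.ct]
      split_ifs with v
      · rfl
      · exact Function.extend_apply' _ _ _ fun ⟨_, y⟩ => v (congrArg Prod.fst y).symm
    · have := ec _ (card_image_of_injective T i ▸ hT)
      rwa [card_image_of_injective T i, ← if_neg (c := image (Prod.mk (0 : Weak.Site 4 m)) T = ∅)
        (t := 0) (e := jd _ _) (by simpa using (card_pos.1 (by omega)).ne_empty)] at this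

end Ok

end Gl

end Pool.Agent.Lib.MP_7f377f_mp.RG.Q4.En
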