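import Pool.Agent.Lib.MP_7f377f_mp.G.JvD
import Pool.Agent.Lib.MP_7f377f_mp.G.JuJ
import Pool.Agent.Lib.MP_7f377f_mp.G.Q5CmC
import Pool.Agent.Lib.MP_7f377f_mp.G.ObA

/-! Families of point insertions at a general base point and their comparison. -/

noncomputable section

open Pool.Agent.Lib.MP_7f377f_mp.Jet

set_option linter.unusedSectionVars false
variable [Pool.Agent.Lib.MP_7f377f_mp.GD]

namespace Pool.Agent.Lib.MP_7f377f_mp.RG.Q4.En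

open Finset Function Sg Real Pos Mg
open scoped Classical

attribute [local irreducible] box lbox tb tau rc

variable {ι κ : Type} [DecidableEq ι] [DecidableEq κ]

namespace Gl

variable (G : Gl)

/-- the direction `u` is small on the disc of radius `σ` -/
def Sq (k : ℕ) (σ : ℝ) (u : Lx × Ac) : Prop :=
  ∃ N, G.Q k ^ 273 * (σ * N) ≤ G.bb k ∧ G.Sz k N N (G.Q k ^ 100)⁻¹ u.1 u.2

/-- a family at level `i` with the base points `H`, whose slots are small down to level `l` -/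
structure Ry (A : Finset ι) (b : ℝ) (J i l : ℕ) (σ : ℝ) (H : ℕ → Lx × Ac) (Y : Fy ι)
    (f : (ι → ℂ) → Conf → ℂ) : Prop where
  fd : ∃ r0, G.Fd i (G.zz b J i) A r0 (fun _ => σ) (G.Q i ^ 329)⁻¹ Y f
  hd : HD (fun _ => σ) f
  bs : Y.bs = H i
  ec : Y.Ec A id
  hs : ∀ k < i, H k = G.hs k (G.zz b J (k + 1)) (H (k + 1))
  bz : ∀ k ≤ i, G.Bz k (H k)
  sz : ∀ k, l ≤ k → k ≤ i → ∀ x ∈ A, G.Sq k σ (G.tH b J H (Y.jt {x}) i k)

/-- the family `Y` represents the densities `f` at level `j` on the polydisc of radius `w⁻¹` -/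
def Fg (j : ℕ) (A : Finset ι) (f : (ι → ℂ) → Conf → ℂ) (w N : ℝ) (Y : Fy ι) : Prop :=
  ∃ J' z r0 r θ β, G.Tz J' j z ∧ G.Fd j z A r0 r θ Y f ∧
    RealP (G.p j) (Y.ψ 0) ∧ RealA (Y.K 0) ∧ (∀ s ∈ Pd r, PU (G.p j) β (Y.ψ s)) ∧
    G.Q j ^ 100 * β ≤ 1 ∧ G.Q j ^ 100 * θ ≤ 1 ∧ ∀ i, w⁻¹ ≤ r i ∧ (Y.Z i).card ≤ N

variable {G} {A T : Finset ι} {b b' θ σ x y C M τ : ℝ} {a J J' i j k l n c : ℕ} {Y Y' : Fy ι}
  {r0 : ι → ℝ} {f f' : (ι → ℂ) → Conf → ℂ} {H H' : ℕ → Lx × Ac} {v : Lx × Ac} {cl : ι → κ}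

theorem tH_tH (hj : j ≤ i) (hk : k ≤ j) : G.tH b J H (G.tH b J H v i j) j k = G.tH b J H v i k :=
  dw_dw _ _ hj k hk

theorem tH_run : G.tH b J (fun k => (G.zz b J k).d) v i k = G.tn b J v i k := rfl

namespace Ok

variable (h : G.Ok)
include h

theorem sq_of {u : Lx × Ac} (e : G.SzA a k (G.Q k ^ 50 * σ) u) (σ0 : 0 ≤ σ) : G.Sq k σ u := by
  obtain ⟨N, e1, e2⟩ := e
  have q := h.Q0 k
  have N0 := (h.sz_nn e2).1
  refine ⟨N, le_trans ?_ e1, e2⟩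
  calc _ = G.Q k ^ 223 * (G.Q k ^ 50 * σ * N) := by ring
    _ ≤ _ := by gcongr; exact h.QA_ge a k

/-- the base points of the hybrid -/
theorem hy_bz (t : G.Tu b J) (t' : G.Tu b' J') (hJ : J ≤ J')
    (hi : i + 20 * (405 * G.K + 1) + 1 ≤ J) (hk : k ≤ i) : G.Bz k (G.hy b J b' J' i k) :=
  h.bz_hyb (h.hy_dt t t' (by omega) (by omega) (h.dfc (z := G.zz b J i) t t' hJ hi) k hk)

/-- exchange of the tree data -/
theorem exch {r : ι → ℝ} (e : G.Fd i (G.zz b' J' i) A r0 r θ Y f) (e1 : Y.bs = (G.zz b' J' i).d)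
    (bz : G.Bz i (G.hy b J b' J' i i)) : ∃ Y' : Fy ι, G.Fd i (G.zz b J i) A r0 r θ Y' f ∧
      Y'.bs = G.hy b J b' J' i i ∧ (∀ x ∈ A, Y'.jt {x} = Y.jt {x}) ∧ Y'.K = Y.K ∧ Y'.E = Y.E ∧
        Y'.Z = Y.Z := by
  have _ := h
  obtain ⟨_, _, _, bi⟩ := bz.1.1
  rw [hy_top, ← show _ = (G.zz b' J' i).ψ from congrArg Prod.fst e1] at bi
  exact ⟨_, e.hy bi, by rw [hy_top]; exact Prod.ext (congrArg (·.1 + _) e1) (congrArg Prod.snd e1 :),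
    fun x hx => Fy.hy_jt e.fi hx, rfl, rfl, rfl⟩

omit [DecidableEq κ] in
/-- the geometry of one group of small slots -/
theorem geo_grp {W : ι → Finset St} (hA : A.card ≤ c) (big : 1000 * 3 ^ c ≤ G.L j) (hj : j ≤ l)
    (one : ∀ k, l ≤ k → k ≤ i → Cls (G.N k) (3 * (G.p k).D) A id fun a => G.zs (W a) i k)
    (vol : ∀ a ∈ A, ((G.zs (W a) i l).card : ℝ) ≤ G.Q l ^ 49) :
    G.Geo A (fun _ => ()) c W i l j := by
  refine ⟨one, fun _ _ _ _ _ _ _ e => (e rfl).elim, fun _ => (card_filter_le _ _).trans hA, big,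
    fun _ => ⟨A.biUnion fun a => G.zs (W a) i l, ?_, fun x hx _ =>
      subset_biUnion_of_mem (fun a => G.zs (W a) i l) hx⟩⟩
  have a1 : (A.card : ℝ) ≤ G.Q l := by
    have : (A.card : ℝ) ≤ G.L l := Nat.cast_le.2 (hA.trans ((Nat.lt_pow_self (a := 3)
      (by norm_num)).le.trans ((by omega : 3 ^ c ≤ G.L j).trans (h.L_mono hj))))
    exact this.trans (h.LQ l)
  refine (Nat.cast_le.2 card_biUnion_le).trans ?_
  rw [Nat.cast_sum, pow_succ']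
  exact (sum_le_card_nsmul _ _ _ vol).trans ((nsmul_eq_mul _ _).trans_le
    (mul_le_mul_of_nonneg_right a1 (pow_pos (h.Q0 l) _).le))

/-- a family with individual radii in the stronger norm -/
theorem ry_of {r : ι → ℝ} (e : G.Fd i (G.zz b J i) A r0 r θ Y f) (hθ : θ ≤ (G.QA a i ^ 329)⁻¹)
    (σ0 : 0 < σ) (hr : ∀ x, σ ≤ r x) (hd : HD (fun _ => σ) f) (e1 : Y.bs = H i) (ec : Y.Ec A id)
    (hs : ∀ k < i, H k = G.hs k (G.zz b J (k + 1)) (H (k + 1))) (bz : ∀ k ≤ i, G.Bz k (H k))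
    (sz : ∀ k, l ≤ k → k ≤ i → ∀ x ∈ A,
      G.SzA a k (G.Q k ^ 50 * σ) (G.tH b J H (Y.jt {x}) i k)) : G.Ry A b J i l σ H Y f :=
  ⟨⟨r0, e.mono (fun _ => σ0) hr (hθ.trans (h.QA_inv a i _))⟩, hd, e1, ec, hs, bz,
    fun k a1 a2 x hx => h.sq_of (sz k a1 a2 x hx) σ0.le⟩

theorem run_hs (k : ℕ) (hk : k < J) :
    (G.zz b J k).d = G.hs k (G.zz b J (k + 1)) (G.zz b J (k + 1)).d := by
  have _ := h
  rw [zz_step b hk]
  rfl

/-- the flow to the bottom -/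
theorem ry_fo (t : G.Tu b J) (hp : G.Pu) (hi : i ≤ J) (hl : l ≤ i) (hj : j ≤ l) (σ0 : 0 < σ)
    (R : G.Ry A b J i l σ H Y f) (g : G.Geo A cl c Y.Z i l j) :
    G.Fo A b J i l j σ (G.fw A b J Y i) H (fun x => G.tH b J H (Y.jt {x}) i)
      (fun k s => G.tt (f s) i k) ∧ (G.fw A b J Y i j).Ec A cl := by
  obtain ⟨r0, e⟩ := R.fd
  have e' := h.fd_up (t.gd i hi).tz e R.hd
  have n : ∀ k, G.Q k ^ 273 * (σ * (G.bb k / G.Q k ^ 273 / σ)) = G.bb k := fun k => by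
    have := h.Q0 k
    field_simp
  have w : G.Fw2 A b J i l j σ H (fun x => G.tH b J H (Y.jt {x}) i)
      (fun k => G.bb k / G.Q k ^ 273 / σ) fun k s => G.tt (f s) i k :=
    ⟨fun k _ => R.hs k, fun k _ => R.bz k, fun k _ a => funext fun _ => tt_step _ a,
      fun k _ a x _ => tH_step a, fun k a b => by
        have q := h.Q0 k
        have b0 := h.b0 k
        refine ⟨by positivity, (mul_le_mul_of_nonneg_right (pow_le_pow_right₀ (h.Q1 k)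
          (by norm_num)) (by positivity)).trans (n k).le, fun x hx => ?_⟩
        obtain ⟨N, a1, a2⟩ := R.sz k a b x hx
        have : N ≤ G.bb k / G.Q k ^ 273 / σ := by rwa [le_div_iff₀' σ0, le_div_iff₀' (pow_pos q _)]
        exact h.sz_le a2 (inv_pos.2 (pow_pos q _)).le this this le_rfl⟩
  have e2 : G.Fd i (G.zz b J i) A (fun _ => σ) (fun _ => σ) (G.Q i ^ 329)⁻¹ Y
      fun s => G.tt (f s) i i := by simpa only [tt_top] using e'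
  exact ⟨h.flow t hp hi hl hj σ0 w g e2 R.bs (fun _ _ => tH_top.symm) R.ec (n l).le,
    (h.flow2 t hp hi hl hj σ0 w g e2 R.bs (fun _ _ => tH_top.symm) R.ec (n l).le j hj
      le_rfl).2.2.1⟩

theorem ry_fg (t : G.Tu b J) (hp : G.Pu) (hi : i ≤ J) (hl : l ≤ i) (hj : j ≤ l) (σ0 : 0 < σ)
    (R : G.Ry A b J i l σ H Y f) (g : G.Geo A cl c Y.Z i l j)
    (hM : ∀ x, (G.zs (Y.Z x) i j).card ≤ M) :
    G.Fg j A (fun s => G.tt (f s) i j) (2 ^ (l - j) * σ)⁻¹ M (G.fw A b J Y i j) ∧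
      (G.fw A b J Y i j).Ec A cl ∧
      ∀ T ⊆ A, 2 ≤ T.card → ‖jd T (G.fw A b J Y i j).E‖ ≤ σ⁻¹ ^ T.card := by
  obtain ⟨P, ec⟩ := h.ry_fo t hp hi hl hj σ0 R g
  have ji := hj.trans hl
  have u := P.bs j ji le_rfl ▸ R.bz j ji
  refine ⟨⟨_, _, _, _, _, _, (t.gd j (ji.trans hi)).tz, P.fe, u.2.1, u.2.2, P.pe, (h.th_le j).1,
    (h.th_le j).2, fun x => ⟨(inv_inv _).le, by rw [fw_Z j ji]; exact hM x⟩⟩, ec, fun T hT T2 => ?_⟩
  simpa [P.e0 T hT T2] using P.tl l le_rfl hj T hT (card_pos.1 (by omega))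

variable {m : ℕ}

/-- comparison of two flows along the same run -/
theorem cmp_fp {Y Y' : ℕ → Fy ι} {v v' : ι → ℕ → Lx × Ac} {f f' : ℕ → (ι → ℂ) → Conf → ℂ}
    (hp : G.Pu) (t : G.Tu b J) (h1 : j ≤ m) (h2 : m ≤ l) (h3 : l ≤ k) (h4 : k < i) (h5 : i ≤ J)
    (σ0 : 0 < σ) (P : G.Fo A b J i l j σ Y H v f) (P' : G.Fo A b J i l j σ Y' H' v' f')
    (Z : ∀ n ≤ i, (Y' n).Z = (Y n).Z) (hA : A.card ≤ c) (big : 8 * 2 ^ c ≤ G.Q m) (x0 : 0 ≤ x)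
    (e0 : G.Sz k y y (G.Q k ^ 100)⁻¹ ((H k).1 - (H' k).1) ((H k).2 - (H' k).2))
    (e1 : ∀ a ∈ A, G.Sz k x x (G.Q k ^ 100)⁻¹ (v a k - v' a k).1 (v a k - v' a k).2)
    (sep : Cls (G.N k) (3 * (G.p k).D) A id (Y k).Z)
    (far : Cls (G.N k) (C * (G.p k).D) A id (Y k).Z)
    (hV : ∀ n ≤ l, ∀ a, ((Y n).Z a).card ≤ G.Q l ^ 50) (hT : T ⊆ A) (T2 : 2 ≤ T.card) :
    ‖jd T (Y j).E - jd T (Y' j).E‖ ≤ (2 * G.Q l ^ 62 * 4 ^ (k - m) * ((y + c * (σ * x)) * G.g k ^ 2 +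
      2 ^ (c + 1) * G.Q k ^ 100 * exp (2 - C)) + 2 / 100 ^ (l - m)) * σ⁻¹ ^ T.card := by
  have F : ∀ n ≤ i, j ≤ n → Fi (G.p n) (G.N n) A (Y n).Z (fun _ => σ) (G.Q n ^ 329)⁻¹ (Y n).ψ
      (Y n).K ∧ Fi (G.p n) (G.N n) A (Y n).Z (fun _ => σ) (G.Q n ^ 329)⁻¹ (Y' n).ψ (Y' n).K :=
    fun n a b => ⟨(P.fd n a b).fi, Z n a ▸ (P'.fd n a b).fi⟩
  have q : ∀ n, (G.Q (n + 1) ^ 211)⁻¹ ≤ (G.Q n ^ 210)⁻¹ := fun n => by
    linarith [h.inv_up n.le_succ 211, h.inv_le n (show 210 < 211 by norm_num),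
      inv_pos.2 (pow_pos (h.Q0 n) 211)]
  have tw : ∀ n < i, j ≤ n → G.Tw n A (fun _ => σ) (Y (n + 1)) (Y' (n + 1)) :=
    fun n a b => ⟨(F _ a (by omega)).1, (F _ a (by omega)).2,
      fun s hs => pu_mono (P.pu _ a (by omega) s hs) (q n),
      fun s hs => pu_mono (P'.pu _ a (by omega) s hs) (q n)⟩
  have tz : ∀ n < i, G.Tz J (n + 1) (G.zz b J (n + 1)) := fun n a => (t.gd _ (by omega)).tz
  have jk : j ≤ k := by omega
  have y0 := (h.sz_nn e0).1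
  set X := y + c * (σ * x) + 2 ^ (c + 1) * G.Q k ^ 100 * exp (2 - C) * G.bb k with hX
  have X0 : 0 < X := by have := h.Q0 k; have := h.b0 k; positivity
  have D0 : G.Df2 k (fun _ => σ) X X (Y k) (Y' k) := by
    have w := tw k h4 jk
    rw [P.st k h4] at far
    refine h.df2_of (F k h4.le jk).1 (F k h4.le jk).2 σ0 sep
      (mul_pos three_pos (h.D_pos k)) hA (by linarith [card_le_card hT]) x0 (exp_pos _).le ?_
      (fun a ha => ?_) (fun T hT e => ⟨?_, ?_⟩) le_rfl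
    · rw [← P.bs k h4.le jk, ← P'.bs k h4.le jk] at e0
      exact e0
    · rw [P.jt k h4.le h3 a ha, P'.jt k h4.le h3 a ha]
      exact e1 a ha
    · rw [P.st k h4]; exact h.far_jet (tz k h4) w.fi w.pu far hT e
    · rw [P'.st k h4]; exact h.far_jet (tz k h4) w.fi' w.pu' far hT e
  have D := h.dif_chain (z := fun n => G.zz b J (n + 1)) (Y := Y) (Y' := Y')
    (X := fun n => 2 ^ (k - n) * X) (V := fun n => 2 ^ (k - n) * X) (C := fun _ => 1) (i := k)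
    (j := m) (cl := fun _ => ()) (c := c) (fun n a b => ⟨tz n (by omega), P.st n (by omega),
      P'.st n (by omega), tw n (by omega) (by omega), fun _ _ _ _ e => (e rfl).elim⟩)
    (fun _ => (card_filter_le _ _).trans hA) (fun n a b => by
      have u : 0 < 2 ^ (k - (n + 1)) * X := by positivity
      have u' := h.qpw n (show 0 < 50 by norm_num)
      rw [show k - n = k - (n + 1) + 1 by omega, pow_succ' (2 : ℝ), mul_assoc, sd_cr]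
      refine ⟨by linarith [h.cr1 n, h.cr0 n], by linarith [h.Q_mono a], by linarith, by linarith,
        Or.inl ?_⟩
      rw [← le_sub_iff_add_le', div_le_iff₀ (pow_pos (h.Q0 n) _)]
      nlinarith) (by simpa using D0)
  obtain ⟨a, ha, -⟩ := one_lt_card.1 T2
  have E := (h.dif_E_chain (z := fun n => G.zz b J (n + 1)) (Y := Y) (Y' := Y')
    (X := fun n => 2 ^ (k - n) * X) (V := fun n => 2 ^ (k - n) * X) (i := l) (j := m)
    (fun n a b => ⟨h.pu_all t hp n (by omega), P.st n (by omega), P'.st n (by omega),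
      tw n (by omega) (by omega), D _ (by omega) (by omega)⟩)
    (P.fd l (by omega) (by omega)).ma (P'.fd l (by omega) (by omega)).ma ha m h2 le_rfl).2.2
  have ρ : (∏ _ ∈ T, σ)⁻¹ = σ⁻¹ ^ T.card := by rw [prod_const, ← inv_pow]
  have ρ0 : 0 < σ⁻¹ ^ T.card := by positivity
  have q0 := h.Q0 l
  have S := sum_geo (B := 2 * G.Q l ^ 62 * (X * G.g k ^ 2) * σ⁻¹ ^ T.card) (a := fun n =>
    ((Y n).Z a).card * (G.Q n ^ 12 * (2 ^ (k - (n + 1)) * X + 2 ^ (k - (n + 1)) * X) *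
      G.g (n + 1) ^ 2 / ∏ _ ∈ T, σ)) (by positivity) h3 (fun n e => by
    have := h.Q0 n
    rw [div_eq_mul_inv, ρ, show k - n = k - (n + 1) + 1 by omega]
    calc _ ≤ G.Q l ^ 50 * (G.Q l ^ 12 * (2 ^ (k - (n + 1)) * X + 2 ^ (k - (n + 1)) * X) *
          (2 ^ (k - (n + 1)) * G.g k ^ 2) * σ⁻¹ ^ T.card) := by
          gcongr
          exacts [hV n e.le a, h.Q_mono e.le, h.g_pow _ (by omega)]
      _ = 4 ^ (k - (n + 1) + 1) * (G.Q l ^ 62 * (X * G.g k ^ 2) * σ⁻¹ ^ T.card) / 2 := by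
          rw [show (4 : ℝ) = 2 * 2 by norm_num, mul_pow]; ring
      _ ≤ _ := by gcongr; linarith [pow_pos q0 62]) m h2
  have t1 := P.tl m h2 h1 T hT ⟨a, ha⟩
  have t2 := P'.tl m h2 h1 T hT ⟨a, ha⟩
  simp only [P.e0 T hT T2, P'.e0 T hT T2, sub_zero, norm_zero, zero_add] at E
  rw [div_eq_mul_inv, ← inv_pow σ] at t1 t2
  have t5 : X * G.g k ^ 2 =
      (y + c * (σ * x)) * G.g k ^ 2 + 2 ^ (c + 1) * G.Q k ^ 100 * exp (2 - C) := by
    rw [hX, add_mul _ _ (G.g k ^ 2), mul_assoc _ (G.bb k), h.bg, mul_one]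
  rw [show ∀ a c d e : ℂ, a - c = a - d + (d - e) - (c - e) from fun _ _ _ _ => by ring, ← t5,
    div_eq_mul_inv 2]
  refine (norm_sub_le_of_le (norm_add_le_of_le t1 (E.trans S)) t2).trans (le_of_eq ?_)
  ring

/-- comparison of two families of point insertions -/
theorem cmp_pt (hp : G.Pu) (t : G.Tu b J) (h1 : j ≤ m) (h2 : m ≤ l) (h3 : l ≤ k) (h4 : k < i)
    (h5 : i ≤ J) (σ0 : 0 < σ) (R : G.Ry A b J i l σ H Y f) (R' : G.Ry A b J i l σ H' Y' f')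
    (Z : Y'.Z = Y.Z) (hA : A.card ≤ c) (g : G.Geo A (fun _ => ()) c Y.Z i l j) (x0 : 0 ≤ x)
    (e0 : G.Sz k y y (G.Q k ^ 100)⁻¹ ((H k).1 - (H' k).1) ((H k).2 - (H' k).2))
    (e1 : ∀ a ∈ A, G.Sz k x x (G.Q k ^ 100)⁻¹
      (G.tH b J H (Y.jt {a}) i k - G.tH b J H' (Y'.jt {a}) i k).1
      (G.tH b J H (Y.jt {a}) i k - G.tH b J H' (Y'.jt {a}) i k).2)
    (far : Cls (G.N k) (C * (G.p k).D) A id fun a => G.zs (Y.Z a) i k)
    (hV : ∀ n ≤ l, ∀ a, (G.zs (Y.Z a) i n).card ≤ G.Q l ^ 50) (hT : T ⊆ A) (T2 : 2 ≤ T.card) :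
    ‖jd T (G.fw A b J Y i j).E - jd T (G.fw A b J Y' i j).E‖ ≤
      (2 * G.Q l ^ 62 * 4 ^ (k - m) * ((y + c * (σ * x)) * G.g k ^ 2 +
        2 ^ (c + 1) * G.Q k ^ 100 * exp (2 - C)) + 2 / 100 ^ (l - m)) * σ⁻¹ ^ T.card := by
  have z : ∀ n ≤ i, (G.fw A b J Y i n).Z = fun a => G.zs (Y.Z a) i n := fun n => fw_Z n
  refine h.cmp_fp hp t h1 h2 h3 h4 h5 σ0 (h.ry_fo t hp h5 (by omega) (by omega) σ0 R g).1
    (h.ry_fo t hp h5 (by omega) (by omega) σ0 R' (Z ▸ g)).1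
    (fun n a => by rw [z n a, fw_Z n a, Z]) hA ?_ x0 e0 e1 (z k h4.le ▸ g.one k h3 h4.le)
    (z k h4.le ▸ far) (fun n a x => by rw [z n (by omega)]; exact hV n a x) hT T2
  have e : (1000 * 3 ^ c : ℝ) ≤ G.L j := by exact_mod_cast g.big
  linarith [h.LQ j, h.Q_mono h1, pow_le_pow_left₀ zero_le_two (show (2 : ℝ) ≤ 3 by norm_num) c,
    pow_pos (two_pos (α := ℝ)) c]

/-- the choice of the intermediate level -/
theorem cmp_ptN (hp : G.Pu) (t : G.Tu b J) (h1 : j + n * (Nat.log 2 (G.L l) + 1) ≤ l) (h3 : l ≤ k)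
    (h4 : k < i) (h5 : i ≤ J) (σ0 : 0 < σ) (R : G.Ry A b J i l σ H Y f)
    (R' : G.Ry A b J i l σ H' Y' f') (Z : Y'.Z = Y.Z) (hA : A.card ≤ c)
    (g : G.Geo A (fun _ => ()) c Y.Z i l j) (x0 : 0 ≤ x)
    (e0 : G.Sz k y y (G.Q k ^ 100)⁻¹ ((H k).1 - (H' k).1) ((H k).2 - (H' k).2))
    (e1 : ∀ a ∈ A, G.Sz k x x (G.Q k ^ 100)⁻¹
      (G.tH b J H (Y.jt {a}) i k - G.tH b J H' (Y'.jt {a}) i k).1
      (G.tH b J H (Y.jt {a}) i k - G.tH b J H' (Y'.jt {a}) i k).2)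
    (far : Cls (G.N k) (C * (G.p k).D) A id fun a => G.zs (Y.Z a) i k)
    (hV : ∀ n ≤ l, ∀ a, (G.zs (Y.Z a) i n).card ≤ G.Q l ^ 50) (hT : T ⊆ A) (T2 : 2 ≤ T.card) :
    ‖jd T (G.fw A b J Y i j).E - jd T (G.fw A b J Y' i j).E‖ ≤
      (2 * G.Q l ^ 62 * 4 ^ (k - l) * (G.L l : ℝ) ^ (3 * n) * ((y + c * (σ * x)) * G.g k ^ 2 +
        2 ^ (c + 1) * G.Q k ^ 100 * exp (2 - C)) + 2 / (G.L l : ℝ) ^ (6 * n)) * σ⁻¹ ^ T.card := by
  obtain ⟨s, hs⟩ : ∃ s, s = Nat.log 2 (G.L l) + 1 := ⟨_, rfl⟩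
  have L := h.L1 l
  have y0 := (h.sz_nn e0).1
  have q := h.Q0 l
  have q' := h.Q0 k
  have a1 : (G.L l : ℝ) ≤ 2 ^ s := by
    rw [hs]
    exact_mod_cast (Nat.lt_pow_succ_log_self one_lt_two _).le
  have a2 : (2 : ℝ) ^ s ≤ 2 * G.L l := by
    rw [hs, pow_succ']
    exact_mod_cast Nat.mul_le_mul_left 2 (Nat.pow_log_le_self 2 (by have := h.L_big l; omega))
  rw [← hs] at h1
  refine (h.cmp_pt (m := l - n * s) hp t (by omega) (Nat.sub_le ..) h3 h4 h5 σ0 R R' Z hA g x0 e0 e1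
    far hV hT T2).trans ?_
  rw [show k - (l - n * s) = k - l + s * n by rw [mul_comm s]; omega,
    show l - (l - n * s) = s * n by rw [mul_comm s]; omega, pow_add, ← mul_assoc, pow_mul, pow_mul,
    pow_mul, pow_mul]
  gcongr
  · calc (4 : ℝ) ^ s = (2 ^ s) ^ 2 := by rw [← pow_mul, mul_comm, pow_mul]; norm_num
      _ ≤ (2 * G.L l) ^ 2 := by gcongr
      _ ≤ _ := by nlinarith [sq_nonneg (G.L l : ℝ)]
  · calc (G.L l : ℝ) ^ 6 ≤ (2 ^ s) ^ 6 := by gcongr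
      _ = 64 ^ s := by rw [← pow_mul, mul_comm, pow_mul]; norm_num
      _ ≤ _ := by gcongr; norm_num

end Ok

end Gl

end Pool.Agent.Lib.MP_7f377f_mp.RG.Q4.En
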