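import Pool.Agent.Lib.MP_7f377f_mp.G.JuT5
import Pool.Agent.Lib.MP_7f377f_mp.G.JsS
import Pool.Agent.Lib.MP_7f377f_mp.G.JuM

/-! One countable family of letters which is a frame for every weight. -/

noncomputable section

set_option linter.unusedSectionVars false
variable [Pool.Agent.Lib.MP_7f377f_mp.GD]

namespace Pool.Agent.Lib.MP_7f377f_mp.RG.Tl

open Finset MvPolynomial Q4 Q4.En Ju Jt Submodule

attribute [local irreducible] box lbox sm

/-- the section at the top -/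
abbrev s0 (s : ℕ) : (Ia s → ℝ) →ₗ[ℝ] V := sec 1 m0 1 s

/-- the currents -/
abbrev cA (s : ℕ) : Set (Ia s) := Set.range Sum.inr

/-- more jets -/
def em {s s' : ℕ} (h : s ≤ s') : Ia s → Ia s' :=
  Sum.map (fun b => ⟨b.1.castLE (Nat.succ_le_succ h), b.2⟩) id

variable {s s' d n R : ℕ} {Q : Pl}

theorem lv0 : Lv 1 m0 1 0 := by simpa using lv_zero (v := 1) le_rfl (by norm_num) (by norm_num)

theorem clc (hs : 2 ≤ s) : Clc wt (s0 s) (cA s) := by
  obtain ⟨t, ht⟩ := sc_zero 1 s (K0_ge s)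
  refine ⟨fun a => by unfold Jt.wt; omega, ⟨s, lv0.sec_Pk ht hs⟩, fun c h => ?_, fun c =>
    ⟨fun h _ ⟨k, e⟩ => by rw [← e, ← lv0.crd_sec ht hs c, crd_on h], fun h =>
      lv0.sec_on ht hs fun k => h _ ⟨k, rfl⟩⟩⟩
  have z : dd (s0 s c) = dd (0 : V) := h.trans (funext fun x => by funext μ ν; simp [dd])
  have e : Mo 1 m0 (s0 s c) = 0 := (Mo_closed lv0.gauge z).trans (map_zero _)
  rw [← lv0.crd_sec ht hs c]
  funext a
  rcases a with b | k
  · rw [crd_inl, on_eq e, show pi0 s (s0 s c) = 0 from funext fun b => by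
      simp [pi0_ap, cj_congr z], map_zero]
    rfl
  · exact crd_on e k

theorem ri_eq (h : s ≤ s') {j : V} (hj : j ∈ Zc s) : ri 1 m0 s' j = ri 1 m0 s j := by
  obtain ⟨t, ht⟩ := sc_zero 1 s le_rfl
  obtain ⟨t', ht'⟩ := sc_zero 1 s' le_rfl
  obtain ⟨i, hi, h1, h2⟩ := lv0.ri ht j hj
  obtain ⟨i', hi', h3, h4⟩ := lv0.ri ht' j (Zc_mono h hj)
  have e : Gp s' i = Gp s i := sub_eq_zero.1 (Pd_ext (sub_mem (Gp_Pd hi.1) (nw_mem _ _))
    fun α μ hα => by simp [Jt.Gp, jet_nw, hα, show dg α < s' + 2 by omega])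
  rw [h1, h3, ← e, sub_eq_zero.1 (lv0.inj ht' (sub_mem hi' (Zc_mono h hi)) (by
    rw [map_sub, map_sub, map_sub, h4, e, h2, sub_self]))]

theorem emb (hs : 2 ≤ s) (h : s ≤ s') (hd : d ≤ s + 2) :
    Emb wt wt (s0 s) (s0 s') (cA s) (cA s') d (em h) := by
  have i : Function.Injective fun b : On s =>
      (⟨b.1.castLE (Nat.succ_le_succ h), b.2⟩ : On s') := by
    rintro ⟨⟨i, _⟩, k⟩ ⟨⟨j, _⟩, l⟩ e
    obtain rfl : i = j := congrArg (·.1.1) e
    obtain rfl : k = l := eq_of_heq (Sigma.mk.inj e).2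
    rfl
  refine ⟨i.sumMap Function.injective_id, fun a => by cases a <;> rfl, fun a ha => ?_,
    fun _ ⟨k, e⟩ => ⟨_, ⟨k, rfl⟩, e⟩, fun c hc => ?_⟩
  · rcases a with ⟨⟨i, _⟩, k⟩ | k
    · by_contra z
      exact ha ⟨.inl ⟨⟨i, by simp only [Jt.wt, dI] at z; omega⟩, k⟩, rfl⟩
    · exact absurd ⟨.inr k, rfl⟩ ha
  · have e : p0 s' (rl s' c) = p0 s (rl s (c ∘ em h)) := by
      rw [p0_ap, p0_ap]
      exact (Fintype.sum_of_injective _ i _ _ (fun b hb => by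
        rw [show rl s' c b = 0 from hc _ fun ⟨a, z⟩ => by
          rcases a with a | a
          exacts [hb ⟨a, Sum.inl.inj z⟩, Sum.inr_ne_inl z], zero_smul]) fun _ => rfl).symm
    rw [sec_ap, sec_ap, on_ap, on_ap, e, ri_eq h (lv0.mem (p0_mem _)),
      ri_eq h (smul_mem _ _ (pT_mem hs _))]
    rfl

/-- the letters of weight `m` -/
def bS (m : ℕ) : Set Pl := ((clc (s := m - 4 + 2) (by omega)).ex m).choose

/-- the family of letters; `b.m` is the weight and `b.P` the letter -/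
abbrev Lb : Type := Fb bS

theorem bS_spec (m : ℕ) : Bh wt (s0 (m - 4 + 2)) (cA _) m (bS m) := Exists.choose_spec _

theorem Fb.gl (b : Lb) : Gl b.P := ((bS_spec _).gl _ b.mem).1

/-- the degree minus one -/
def Fb.dg (b : Lb) : ℕ := b.gl.2.2.choose

theorem Fb.hom (b : Lb) : b.P.IsHomogeneous (b.dg + 1) := b.gl.2.2.choose_spec

/-- the family is a frame in every calculus -/
theorem fr (hs : 2 ≤ s) (hd : d ≤ s + 2) : Fr wt (s0 s) (cA s) d (Fb.m (S := bS)) Fb.P :=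
  fr_of (clc hs) (fun m Q q => ((bS_spec m).gl Q q).1) fun m hm =>
    (emb (by omega) (by omega) (by omega)).bs (bS_spec m)

/-- the letters of weight at most `d` -/
abbrev Ld (d : ℕ) : Type := {b : Lb // b.m ≤ d}

instance (d : ℕ) : Fintype (Ld d) :=
  have := (fr (s := d + 2) (d := d) (by omega) (by omega)).fin (clc (by omega)).hw
  .ofFinite _

instance : Countable Lb := Set.countable_univ_iff.1 <|
  (Set.countable_iUnion fun d => Set.Finite.countable (s := {b : Lb | b.m ≤ d})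
    (inferInstanceAs (Finite (Ld d)))).mono fun b _ => Set.mem_iUnion.2 ⟨b.m, le_refl b.m⟩

/-- the lattice letter -/
def lq : Pl →ₗ[ℂ] Lq := pG.toLinearMap.prod px.toLinearMap

theorem lsy {α : Type} [Fintype α] [DecidableEq α] (p : (α → ℝ) →ₗ[ℝ] V) {δ C : ℝ}
    (hn : Q.IsHomogeneous (n + 1)) (H : Top R (n + 1) δ C (pG Q) (px Q) (pa Q)) :
    Lsy p R (n + 1) δ C (lq Q) (sm p Q) :=
  ⟨n.succ_pos, hom_sm hn, _, H, fun c => (eval_sm c Q).symm⟩

/-- common constants for finitely many letters -/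
theorem ex_top {β : Type} [Finite β] {n : β → ℕ} {P : β → Pl} (h1 : ∀ b, Iv (P b))
    (h2 : ∀ b, (P b).IsHomogeneous (n b)) : ∃ R, ∃ δ > 0, ∃ C ≥ 1, ∀ b,
      Top R (n b) δ C (pG (P b)) (px (P b)) (pa (P b)) :=
  Top.unif fun b => (exists_rd (P b)).imp fun _ q => top_pl (h1 b) q (h2 b)

section

variable {α β : Type} [Fintype α] [DecidableEq α] {w : α → ℕ} {p : (α → ℝ) →ₗ[ℝ] V} {A : Set α}
  {m : β → ℕ} {P : β → Pl}

theorem mk_mem (h1 : Iv Q) (h2 : Q.IsHomogeneous (n + 1)) : Sy.mk (wC w) d (sm p Q) ∈ W0 w d := by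
  have := tc_in (d := d) (iz_cp w Set.univ) ⟨h1.sm (p := p), zr_univ.2 (hom_zero (hom_sm h2))⟩
  exact mem_W0.2 ⟨mem_iv.2 ⟨tc_mem _ _ _, this.1⟩, zr_univ.1 this.2⟩

theorem mk_nl (c : Clc w p A) (h1 : Iv Q) (h2 : Q ∈ Nl) : Zr A (Sy.mk (wC w) d (sm p Q)).val :=
  (tc_in (d := d) (iz_cp w A) ⟨h1.sm (p := p), c.zer h2⟩).2

theorem mem_mk {T : Set β} {e : SyC w d}
    (h : e.val ∈ span ℂ ((fun b => tc (wC w) d (sm p (P b))) '' T)) :
    e ∈ span ℂ ((fun b => Sy.mk (wC w) d (sm p (P b))) '' T) := by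
  rw [show (fun b => tc (wC w) d (sm p (P b))) = Sy.val ∘ fun b => Sy.mk (wC w) d (sm p (P b))
    from rfl, Set.image_comp, span_image] at h
  obtain ⟨y, h, e⟩ := h
  exact Sy.inj e ▸ h

end

/-- the frame of the letters of weight at most `d` -/
theorem fra (hs : 2 ≤ s) (hd : d ≤ s + 2) : ∃ R δ C, Fra wt d (s0 s) R δ C
    (fun b : Ld d => b.1.dg + 1) (fun b => lq b.1.P) fun b => sm (s0 s) b.1.P := by
  have F := fr hs hd
  obtain ⟨R, δ, d0, C, C1, H⟩ := ex_top (fun b : Ld d => b.1.gl.1) fun b => b.1.hom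
  refine ⟨R, δ, C, d0, by linarith, fun b => ⟨lsy _ b.1.hom (H b), F.deg (clc hs).hw b.2 b.1.hom⟩,
    F.li, le_antisymm (span_le.2 ?_) fun e he => ?_⟩
  · rintro _ ⟨b, rfl⟩
    exact mk_mem b.1.gl.1 b.1.hom
  · have := mem_mk (F.spn _ (mem_W0.1 he).1 (mem_W0.1 he).2)
    rwa [Set.image_eq_range] at this

/-- the null symbols are the symbols of the null letters of the frame -/
theorem fra_nul (hs : 2 ≤ s) (hd : d ≤ s + 2) {e : SyC wt d} (he : e ∈ W0 wt d) :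
    Zr (cA s) e.val ↔ e ∈ span ℂ
      ((fun b : Ld d => Sy.mk (wC wt) d (sm (s0 s) b.1.P)) '' {b | b.1.P ∈ Nl}) := by
  refine ⟨fun z => span_mono ?_ (mem_mk ((fr hs hd).nul _ (mem_W0.1 he).1 z)), fun z =>
    (span_le (p := (Zs (cA s)).comap Sy.val)).2 ?_ z⟩
  · rintro _ ⟨b, q, rfl⟩
    exact ⟨⟨b, q.1⟩, q.2, rfl⟩
  · rintro _ ⟨b, q, rfl⟩
    exact mk_nl (clc hs) b.1.gl.1 q

end Pool.Agent.Lib.MP_7f377f_mp.RG.Tl
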