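import Pool.Agent.Lib.MP_7f377f_mp.G.JsT
import Pool.Agent.Lib.MP_7f377f_mp.G.JuI
import Pool.Agent.Lib.MP_7f377f_mp.G.JuT6
import Pool.Agent.Lib.MP_7f377f_mp.G.StW1

/-! Real letters have real tagged states, real symbols and real coefficients. -/

noncomputable section

set_option linter.unusedSectionVars false
variable [Pool.Agent.Lib.MP_7f377f_mp.GD]

namespace Pool.Agent.Lib.MP_7f377f_mp.RG.Q4

open Finset Real Cok Filter Topology Tl MvPolynomial Ju En
open scoped Classical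

attribute [local irreducible] box lbox tb tau rc

section sym

omit [GD] in
/-- a function which is real on small real points has a real symbol -/
theorem sy_real {ι : Type} [Fintype ι] [DecidableEq ι] {w : ι → ℕ} (hw : ∀ i, w i ≠ 0) (d : ℕ)
    {F : (ι → ℂ) → ℂ} (e : ∀ᶠ c in 𝓝 (0 : ι → ℂ), (∀ i, (c i).im = 0) → (F c).im = 0) :
    map (starRingEnd ℂ) (sy w d F) = sy w d F := by
  by_cases h : ∃ P, Ex w d F P
  swap
  · rw [sy, dif_neg h, map_zero]
  obtain ⟨P, h⟩ := h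
  rw [h.sy]
  refine funext_set (fun _ => Set.range ((↑) : ℝ → ℂ))
    (fun _ => Set.infinite_range_of_injective Complex.ofReal_injective) fun c hc => ?_
  have l1 : Tendsto ((↑) : ℝ → ℂ) (𝓝[≠] 0) (𝓝[≠] 0) :=
    tendsto_nhdsWithin_iff.2 ⟨(Complex.continuous_ofReal.tendsto' 0 0 rfl).mono_left
      nhdsWithin_le_nhds, eventually_mem_nhdsWithin.mono fun _ => Complex.ofReal_ne_zero.2⟩
  have l3 := l1.trans (nhdsWithin_le_nhds (s := {0}ᶜ))
  have m : map (starRingEnd ℂ) P ∈ Wd w d := mem_Wd.2 fun a ha => by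
    rw [coeff_map, mem_Wd.1 h.1 a ha, map_zero]
  rw [← sub_eq_zero, ← map_sub]
  refine ev_zero (l := Filter.map ((↑) : ℝ → ℂ) (𝓝[≠] (0 : ℝ))) l1 (sub_mem m h.1)
    (.trans (.of_bound 2 ?_) ((h.2 c).mono l3))
  have l2 : Tendsto (fun t => dl w t c) (𝓝 0) (𝓝 0) :=
    Continuous.tendsto' (continuous_pi fun i => by simp only [dl]; fun_prop) _ _
      (funext fun i => by simp [dl, hw i])
  filter_upwards [l3 (l2.eventually e), range_mem_map] with t h1 ⟨s, hs⟩
  have r : ∀ i, (dl w t c i).im = 0 := fun i => by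
    obtain ⟨x, hx⟩ := hc i trivial
    rw [dl, ← hs, ← hx]
    norm_cast
  have a : eval (dl w t c) (map (starRingEnd ℂ) P) = starRingEnd ℂ (eval (dl w t c) P) := by
    rw [eval_map, eval, coe_eval₂Hom, hom_eval₂]
    exact congrArg (eval₂ _ · P) (funext fun i => (Complex.conj_eq_iff_im.2 (r i)).symm)
  have b : eval (dl w t c) (map (starRingEnd ℂ) P - P) = (F (dl w t c) - eval (dl w t c) P) -
      starRingEnd ℂ (F (dl w t c) - eval (dl w t c) P) := by
    rw [map_sub, map_sub, a, Complex.conj_eq_iff_im.2 (h1 r)]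
    ring
  rw [b]
  exact (norm_sub_le _ _).trans_eq (by rw [Complex.norm_conj, two_mul])

variable {α : Type} [Fintype α] [DecidableEq α] {w : α → ℕ} {d : ℕ} {e e' : SyC w d} {t : ℂ}

/-- real symbols -/
def SyR (e : SyC w d) : Prop := Rl e.val

theorem syR_iff : SyR e ↔ ∀ a, (coeff a e.val).im = 0 := by
  simp only [SyR, Rl, MvPolynomial.ext_iff, coeff_map, Complex.conj_eq_iff_im]

namespace SyR

theorem zero : SyR (0 : SyC w d) := syR_iff.2 fun a => by simp

theorem lin (h : SyR e) (h' : SyR e') (ht : t.im = 0) : SyR (e + t • e') :=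
  syR_iff.2 fun a => by simp [syR_iff.1 h a, syR_iff.1 h' a, ht]

theorem add (h : SyR e) (h' : SyR e') : SyR (e + e') := by simpa using h.lin h' Complex.one_im

theorem smul (h : SyR e) (ht : t.im = 0) : SyR (t • e) := by simpa using zero.lin h ht

theorem neg (h : SyR e) : SyR (-e) := by simpa using h.smul (t := -1) (by simp)

theorem sub (h : SyR e) (h' : SyR e') : SyR (e - e') := sub_eq_add_neg e e' ▸ h.add h'.neg

theorem sum {ι : Type} (s : Finset ι) {f : ι → SyC w d} (h : ∀ i ∈ s, SyR (f i)) :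
    SyR (∑ i ∈ s, f i) := sum_induction f SyR (fun _ _ => add) zero h

theorem mk {P : Cp α} (h : Rl P) : SyR (Sy.mk (wC w) d P) := syR_iff.2 fun a => by
  rw [Sy.val_mk, coeff_tc]
  split_ifs
  exacts [Complex.conj_eq_iff_im.1 ((coeff_map ..).symm.trans (congrArg (coeff a) h)), rfl]

/-- the imaginary part of a real symbol vanishes -/
theorem im (h : SyR e) (h' : SyR e') (h2 : SyR (e + Complex.I • e')) : e' = 0 :=
  Sy.inj (MvPolynomial.ext _ _ fun a => Complex.ext (by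
    simpa [syR_iff.1 h a] using syR_iff.1 h2 a) (by simpa using syR_iff.1 h' a))

/-- the values on real points are real -/
theorem eval (h : SyR e) {c : Cr α} (hc : ∀ i, (c i).im = 0) : (eval c e.val).im = 0 :=
  Rl.real (ξ := fun a k => c (a, k)) h fun _ _ => hc _

end SyR

theorem cv_lin (R : ℕ) (p : (α → ℝ) →ₗ[ℝ] V) : ∃ b0 ≥ (1 : ℝ), ∀ c, Cv R (b0 * ‖c‖) (p c) := by
  choose f hf using fun a => Ho.cv_exists R (p (Pi.single a 1))
  refine ⟨1 + ∑ a, f a, le_add_of_nonneg_right (sum_nonneg fun a _ => (hf a).nonneg),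
    fun c x hx μ ν => ?_⟩
  have e : dd (p c) x μ ν = ∑ a, c a * dd (p (Pi.single a 1)) x μ ν := by
    conv_lhs => rw [pi_eq_sum_univ' c]
    simp [dd, sum_sub_distrib, sum_add_distrib, mul_sub, mul_add]
  rw [e, add_mul, sum_mul]
  refine (norm_sum_le_of_le _ fun a _ => ?_).trans (le_add_of_nonneg_left (by positivity))
  rw [norm_mul, mul_comm]
  exact mul_le_mul (hf a x hx μ ν) (norm_le_pi_norm c a) (norm_nonneg _) (hf a).nonneg

/-- local terms which are real on small real fields have real symbols -/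
theorem sgS_real (hw : ∀ a, w a ≠ 0) (p : (α → ℝ) →ₗ[ℝ] V) {R : ℕ} {ρ : ℝ} (ρ0 : 0 < ρ)
    {φ : Fld → ℂ} (h : ∀ B, RealF B → Cv R ρ B → (φ B).im = 0) : SyR (sgS w d p φ) := by
  obtain ⟨b, b1, hb⟩ := cv_lin R p
  rw [SyR, val_sgS]
  refine sy_real (wC_ne hw) d ?_
  filter_upwards [ContinuousAt.eventually_lt (f := fun c : Cr α => b * (cG * ‖c‖)) (g := fun _ => ρ)
    (by fun_prop) continuousAt_const (by simpa using ρ0)] with c h1 hc
  exact h _ (emF_real p hc) ((cv_emF hb (by linarith) c).mono le_rfl h1.le)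

/-- real substitutions keep real symbols -/
theorem SyR.AS (h : SyR e) (hw : ∀ a, w a ≠ 0) (L : ℝ) (U : Module.End ℝ (α → ℝ)) :
    SyR (AS w d L U e) := by
  rw [SyR, val_AS, Aop, pb_eq]
  exact sy_real (wC_ne hw) d (.of_forall fun c hc => h.eval fun i => by
    simp [cxM, ucr, cur, cz_ap, show (fun a => (c (a, i.2)).im) = 0 from funext fun a => hc _])

end sym

section state

variable {p : Pa} {n : ℕ} {c : St} {u v : Jv} {t : ℂ} {φ φ' : Lx} {K K' : Ac}

theorem RealP.zero : RealP p 0 := fun _ _ _ _ => rfl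

theorem RealP.lin (h : RealP p φ) (h' : RealP p φ') (ht : t.im = 0) : RealP p (φ + t • φ') :=
  fun x B r a => by simp [h x B r a, h' x B r a, ht]

theorem RealP.add (h : RealP p φ) (h' : RealP p φ') : RealP p (φ + φ') :=
  fun x B r a => Im.add (h x B r a) (h' x B r a)

theorem RealP.sub (h : RealP p φ) (h' : RealP p φ') : RealP p (φ - φ') :=
  fun x B r a => Im.sub (h x B r a) (h' x B r a)

theorem RealP.sum {ι : Type} (s : Finset ι) {f : ι → Lx} (h : ∀ i ∈ s, RealP p (f i)) :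
    RealP p (∑ i ∈ s, f i) := sum_induction f (RealP p) (fun _ _ => RealP.add) RealP.zero h

theorem RealP.pt {f : Fld → ℂ} (h : RealP p fun _ => f) : RealP p (ptL n c f) := fun x B r a => by
  unfold ptL
  split_ifs
  exacts [h x B r a, rfl]

theorem RealP.cen (h : RealP p φ) (ρ0 : 0 ≤ p.ρ) : RealP p fun x => cen (φ x) :=
  fun x B r a => Im.sub (h x B r a) (h x 0 realF_zero (Ho.cv_zero _ ρ0))

theorem RealA.lin (h : RealA K) (h' : RealA K') (ht : t.im = 0) : RealA (K + t • K') :=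
  fun X a U => by simp [h X a U, h' X a U, ht]

/-- real tagged states -/
structure JR (p : Pa) (u : Jv) : Prop where
  f : ∀ i, RealP p (u.1 i)
  g : ∀ m, RealP p (u.2.1 m)
  l : RealP p fun _ => u.2.2.1
  K : RealA u.2.2.2

namespace JR

theorem zero : JR p 0 := ⟨fun _ => .zero, fun _ => .zero, .zero, fun _ _ _ => rfl⟩

theorem lin (h : JR p u) (h' : JR p v) (ht : t.im = 0) : JR p (u + t • v) :=
  ⟨fun i => (h.f i).lin (h'.f i) ht, fun i => (h.g i).lin (h'.g i) ht, h.l.lin h'.l ht,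
    h.K.lin h'.K ht⟩

theorem add (h : JR p u) (h' : JR p v) : JR p (u + v) := by simpa using h.lin h' Complex.one_im

theorem smul (h : JR p u) (ht : t.im = 0) : JR p (t • u) := by simpa using zero.lin h ht

theorem neg (h : JR p u) : JR p (-u) := by simpa using h.smul (t := -1) (by simp)

theorem sub (h : JR p u) (h' : JR p v) : JR p (u - v) := sub_eq_add_neg u v ▸ h.add h'.neg

theorem sum {ι : Type} (s : Finset ι) {f : ι → Jv} (h : ∀ i ∈ s, JR p (f i)) :
    JR p (∑ i ∈ s, f i) := sum_induction f (JR p) (fun _ _ => add) zero h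

/-- a term at the centre together with activities -/
theorem ent {f : Fld → ℂ} (h : RealP p fun _ => f) (h' : RealA K) : JR p (0, 0, f, K) :=
  ⟨fun _ => .zero, fun _ => .zero, h, h'⟩

theorem act (h : RealA K) : JR p (0, 0, 0, K) := ent .zero h

variable {A : Ag} {a b : ℕ} (h : JR p u)
include h

theorem old : RealP p (A.old b u) := (RealP.sum _ fun m _ => h.g m).add h.l.pt

theorem prj (e : A.p = p) (ρ0 : 0 ≤ p.ρ) : RealP p (A.prj a b u).1 ∧ RealA (A.prj a b u).2 := by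
  subst e
  refine ⟨fun x B r q => ?_, h.K⟩
  simp only [Ag.prj, ccn, ctr_of r q, ctr_zero ρ0]
  exact ((RealP.sum _ fun i _ => h.f i).add h.old).cen ρ0 x B r q

end JR

namespace Sd.Pu

variable {S : Sd} (P : S.Pu)
include P

theorem uP_real (h : RealP S.p φ) : RealP S.p' (S.uP φ) := fun y B r a =>
  Im.int _ fun z => Im.sum fun x hx =>
    have q := P.Gx_cv hx z r (a.mono le_rfl (by linarith [P.ρ0]))
    (h.tr _ _).cen P.num2.2.2.2.le x _ q.1 q.2

theorem uL_real (h : RealP S.p φ) : RealP S.p' (S.uL φ) := fun y B r a => by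
  rw [Sd.uL, lpush, Finset.sum_apply]
  exact Im.sum fun x hx => (h.tr _ _).cen P.num2.2.2.2.le x _ (real_lm r)
    (((P.pt.cm P.rad hx).cx a).mono le_rfl (by linarith [P.num2.2.1]))

theorem uB_real (h : RealA K) : RealP S.p' (S.uB K) := fun y B r a => by
  rw [Sd.uB, Pi.neg_apply, Finset.sum_apply]
  refine Im.neg (Im.sum fun X hX => ?_)
  have := Fs_real (K := S.Ky K y) P.nu P.tk.ok P.tk.gr P.P_le hX (h.tr _ _ X ∅) B
  rw [Sd.Fs, ctr_of r a, div_eq_inv_mul] at this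
  rw [Pi.smul_apply, opT]
  split_ifs
  exacts [this, by simp]

end Sd.Pu

variable {E : Type} [NormedAddCommGroup E] [NormedSpace ℂ E]

/-- the step at a real base point keeps real states -/
theorem Ag.Fit.real {A A' : Ag} {a b : ℕ} {S : Sd} {ψ : Lx} {C C' ε y : ℝ} {W : Submodule ℂ E}
    {σ : (Fld → ℂ) → E} {ev : E → Fld → ℂ} (F : A.Fit a b A' S ψ K C C' ε) (s : A.Sy a b C W σ ev)
    (H : A.P a b σ ev u y) (r1 : RealP A.p ψ) (r2 : RealA K) (r : JR A.p u) :
    JR A'.p (A.T a b S ψ K u) := by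
  have P := F.pu
  have d := F.dir s H
  rw [F.p] at r r1
  rw [F.p']
  refine ⟨fun i => ?_, fun m => ?_, fun _ => P.uL_real ((r.g b).add r.l.pt) _,
    dK_real F.nu F.st F.rm d r1 r2 (r.prj F.p P.num2.2.2.2.le).1 r.K⟩
  · rcases i with _ | i
    · exact P.uB_real r.K
    · change RealP _ (if i < a then _ else _)
      split_ifs
      exacts [P.uP_real (r.f i), .zero]
  · rcases m with _ | m
    · exact (P.uP_real (r.f a)).add ((P.uP_real r.old).sub (P.uL_real r.old))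
    · change RealP _ (if m < b then _ else _)
      split_ifs
      exacts [P.uL_real (r.g m), .zero]

end state

section flow

variable {V E β : Type} [AddCommGroup V] [Module ℂ V] [NormedAddCommGroup E] [NormedSpace ℂ E]
  [Fintype β] {j J i k : ℕ} {P : ℕ → V → ℝ → Prop} {q : ℕ → V → E} {T : ℕ → V → V}
  {A : ℕ → E →ₗ[ℂ] E} {W : Submodule ℂ E} {a lam η : ℕ → ℝ} {M y : ℝ} {u : V} {τ : β → V}

omit [GD] in
/-- a property which is kept by the steps on admissible states is kept by the flow -/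
theorem co_fw (h : Co j J P q T A W a lam η) {R : ℕ → V → Prop}
    (hT : ∀ k u y, j ≤ k → k < J → P (k + 1) u y → R (k + 1) u → R k (T k u)) (hi : i ≤ J)
    (H : P i u y) (r : R i u) : ∀ k, j ≤ k → k ≤ i → R k (Cok.fw T u i k) :=
  down (by rwa [Cok.fw_top]) fun k h1 h2 ih => by
    obtain ⟨z, hz⟩ := h.fw_adm hi H (k + 1) (by omega) h2
    rw [Cok.fw_step _ _ h2]
    exact hT k _ z h1 (h2.trans_le hi) hz ih

/-- if real coefficients give real symbols then real symbols come from real coefficients -/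
theorem fm_real {α : Type} [Fintype α] [DecidableEq α] {w : α → ℕ} {d : ℕ} {q : ℕ → V → SyC w d}
    {A : ℕ → SyC w d →ₗ[ℂ] SyC w d} {W : Submodule ℂ (SyC w d)}
    (h : Cok.Fm j J P q T A W a lam η τ M) (h1 : j ≤ k) (h2 : k ≤ J)
    (hr : ∀ c : β → ℂ, (∀ b, (c b).im = 0) → SyR (q k (st T τ J k c))) {c : β → ℂ}
    (e : SyR (q k (st T τ J k c))) (b : β) : (c b).im = 0 := by
  have s : c = (fun b => ((c b).re : ℂ)) + Complex.I • fun b => ((c b).im : ℂ) :=
    funext fun b => by simp [mul_comm Complex.I]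
  rw [s, h.sy_lin _ _ _ h1 h2] at e
  have z := (hr _ fun _ => Complex.ofReal_im _).im (hr _ fun _ => Complex.ofReal_im _) e
  by_contra n
  exact (h.cone _ h1 h2).1 (fun o => n (Complex.ofReal_eq_zero.1 (congrFun o b))) z

end flow

namespace En

/-- real lattice letters -/
def LqR (Y : Lq) : Prop := (∀ U, (Y.1 U).im = 0) ∧ ∀ B, RealF B → (Y.2 B).im = 0

namespace LqR

variable {Y Y' : Lq} {t : ℂ}

theorem zero : LqR 0 := ⟨fun _ => rfl, fun _ _ => rfl⟩

theorem lin (h : LqR Y) (h' : LqR Y') (ht : t.im = 0) : LqR (Y + t • Y') :=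
  ⟨fun U => by simp [h.1 U, h'.1 U, ht], fun B r => by simp [h.2 B r, h'.2 B r, ht]⟩

theorem add (h : LqR Y) (h' : LqR Y') : LqR (Y + Y') := by simpa using h.lin h' Complex.one_im

theorem smul (h : LqR Y) (ht : t.im = 0) : LqR (t • Y) := by simpa using zero.lin h ht

theorem neg (h : LqR Y) : LqR (-Y) := by simpa using h.smul (t := -1) (by simp)

theorem sub (h : LqR Y) (h' : LqR Y') : LqR (Y - Y') := sub_eq_add_neg Y Y' ▸ h.add h'.neg

theorem sum {ι : Type} (s : Finset ι) {f : ι → Lq} (h : ∀ i ∈ s, LqR (f i)) :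
    LqR (∑ i ∈ s, f i) := sum_induction f LqR (fun _ _ => add) zero h

theorem lq {Q : Pl} (h : Rl Q) : LqR (Tl.lq Q) := ⟨pG_real h, fun _ r => px_real h r⟩

theorem lb (b : Lb) : LqR (Tl.lq b.P) := lq b.gl.2.1

end LqR

namespace Gl

variable {α β E : Type} [Fintype α] [DecidableEq α] [Fintype β] [NormedAddCommGroup E]
  [NormedSpace ℂ E] {G : Gl} {w : α → ℕ} {b b' M δ K K' x y τ : ℝ} {d D C J J' j k i o R a : ℕ}
  {c : ℕ → St} {ω : ℕ → ℝ} {p : ℕ → (α → ℝ) →ₗ[ℝ] V} {l : ℕ → V →ₗ[ℝ] α → ℝ}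
  {U U' : ℕ → Module.End ℝ (α → ℝ)} {n : β → ℕ} {X : β → Lq} {Y : Lq} {u : Jv} {s : St}
  {t : β → ℂ} {H : ℕ → Lx × Ac}

theorem jx_real (r : LqR Y) (q : Pa) : (G.jx J s Y).Re q := by
  have e : ∀ x, (dt (G.N J) s x).im = 0 := fun x => by unfold dt; split_ifs <;> rfl
  exact ⟨fun _ _ _ => rfl, fun x U => Im.mul (e x) (r.1 U), fun x B v _ => Im.mul (e x) (r.2 B v)⟩

theorem tp_real (r : LqR Y) : JR (G.p J) (G.tp D b J s Y) :=
  .ent (fun _ B v _ => by
    simp only [opT]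
    split_ifs
    exacts [r.2 B v, rfl]) (xS_real (jx_real r _))

theorem fl_real (r : ∀ a, LqR (X a)) (ht : ∀ a, (t a).im = 0) : LqR (G.fl D C J n X t) := by
  rw [fl, Fintype.linearCombination_apply]
  exact .sum _ fun a _ => ((r a).smul (by norm_cast)).smul (ht a)

theorem jp_real (h : G.Ok) (r : JR (G.p k) u) :
    RealP (G.p k) (G.jp D c k u).1 ∧ RealA (G.jp D c k u).2 := r.prj rfl (h.ρ0 k).le

theorem zq_real (h : G.Ok) (hw : ∀ a, w a ≠ 0) (r : JR (G.p k) u) :
    SyR (G.zq w d D C J j p k u) := by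
  unfold zq js
  split_ifs
  exacts [sgS_real hw _ (h.ρ0 k) (r.l 0), .zero]

theorem jA_real (hw : ∀ a, w a ≠ 0) {e : SyC w d} (r : SyR e) : SyR (G.jA w d D C U' k e) :=
  r.AS hw _ _

section

variable {W : Submodule ℂ E} {σ : ℕ → (Fld → ℂ) → E} {ev : ℕ → E → Fld → ℂ} {A : ℕ → E →ₗ[ℂ] E}
  {C a lam η : ℕ → ℝ} (P : G.Pt D c b J j ω W σ ev A C a lam η)
include P

theorem Pt.jT_real (h1 : j ≤ k) (h2 : k < J) (H : G.jP D c σ ev (k + 1) u y)
    (r : JR (G.p (k + 1)) u) : JR (G.p k) (G.jT D c b J k u) :=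
  have e := (P.t.gd (k + 1) h2).dt.re
  (P.ok.fit' P.hp P.t P.R P.e P.tr P.s h1 h2).real (P.ok.sy (P.s.s1 _)) H e.1 e.2.1 r

theorem Pt.real (hi : i ≤ J) (H : G.jP D c σ ev i u y) (r : JR (G.p i) u) :
    ∀ k, j ≤ k → k ≤ i → JR (G.p k) (G.jF D c b J u i k) :=
  co_fw P.co (R := fun k => JR (G.p k)) (fun _ _ _ h1 h2 H r => P.jT_real h1 h2 H r) hi H r

end

namespace Tk

variable (T : G.Tk w d D C M c b J j ω p l U U')
include T

theorem jF_real (hi : i ≤ J) (a : G.zP w d D C c J j p l U i u y) (r : JR (G.p i) u) (h1 : j ≤ k)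
    (h2 : k ≤ i) : JR (G.p k) (G.jF D c b J u i k) := T.pt.real hi a r k h1 h2

theorem zq_jF (hi : i ≤ J) (a : G.zP w d D C c J j p l U i u y) (r : JR (G.p i) u) (h1 : j ≤ k)
    (h2 : k ≤ i) : SyR (G.zq w d D C J j p k (G.jF D c b J u i k)) :=
  zq_real T.ok T.hw (T.jF_real hi a r h1 h2)

variable (J1 : G.Tj D R δ J) (d1 : 1 ≤ d) (e : Lt1 R δ K Y) (r : LqR Y) (h1 : j ≤ k) (h2 : k ≤ J)
include J1 d1 e r h1 h2

/-- real letters have real tagged states -/
theorem ls_real : JR (G.p k) (G.ls D c b J Y k) := by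
  obtain ⟨y, hy⟩ := T.ls_adm J1 d1 e T.hj.le le_rfl
  rw [ls_top] at hy
  exact T.jF_real le_rfl hy (tp_real r) h1 h2

/-- real letters have real symbols -/
theorem ys_real : SyR (G.ys w d D C c b J j p Y k) :=
  zq_real T.ok T.hw (T.ls_real J1 d1 e r h1 h2)

end Tk

theorem Tk.jv_real (T : G.Tk w d D C M c b J j ω p l U U') (J1 : G.Tj D R δ J) (d1 : 1 ≤ d)
    (a : Lt1 R δ K Y) (r : LqR Y) (h1 : j ≤ k) (h2 : k ≤ J) :
    RealP (G.p k) (G.jv b J (c J) Y k).1 ∧ RealA (G.jv b J (c J) Y k).2 := by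
  rcases h2.eq_or_lt with rfl | h3
  · rw [jv_top]
    exact ⟨xP_real (jx_real r _), xS_real (jx_real r _)⟩
  · rw [← T.lv1 J1 d1 a h1 h3]
    exact jp_real T.ok (T.ls_real J1 d1 a r h1 h2)

namespace Fk

variable (F : G.Fk w d D C M c b J j ω p l U U' R δ K n X) (r : ∀ a, LqR (X a)) (h1 : j ≤ k)
  (h2 : k ≤ J)
include F r h1 h2

theorem ls_real (ht : ∀ a, (t a).im = 0) : JR (G.p k) (G.ls D c b J (G.fl D C J n X t) k) :=
  F.T.ls_real F.J1 F.d1 (F.lt1 t) (fl_real r ht) h1 h2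

/-- the symbol of a letter of a real frame is real iff its coefficients are real -/
theorem ys_iff : SyR (G.ys w d D C c b J j p (G.fl D C J n X t) k) ↔ ∀ a, (t a).im = 0 :=
  ⟨fun e => fm_real F.fm h1 h2 (fun _ ht => by
      rw [st_ls]; exact zq_real F.T.ok F.T.hw (F.ls_real r h1 h2 ht)) (c := t) (by rwa [st_ls]),
    fun ht => zq_real F.T.ok F.T.hw (F.ls_real r h1 h2 ht)⟩

theorem symm_real {e : W0 w d} (he : SyR e.1) (a : β) : ((F.eqv h1 h2).symm e a).im = 0 :=
  (F.ys_iff r h1 h2).1 (by rwa [← F.eqv_val h1 h2, LinearEquiv.apply_symm_apply]) a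

/-- the letter which matches a real letter is real -/
theorem cmpT_real (a : Lt1 R δ K' Y) (rY : LqR Y)
    (e : G.ys w d D C c b J j p (G.fl D C J n X t) k = G.ys w d D C c b J j p Y k) :
    ∀ a, (t a).im = 0 := (F.ys_iff r h1 h2).1 (e ▸ F.T.ys_real F.J1 F.d1 a rY h1 h2)

omit h2 in
/-- the letter which matches a real state is real -/
theorem cmp_real (h2 : k ≤ i) (h3 : i ≤ J) (a : G.zP w d D C c J j p l U i u x)
    (ru : JR (G.p i) u) (e : G.ys w d D C c b J j p (G.fl D C J n X t) k =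
      G.zq w d D C J j p k (G.jF D c b J u i k)) : ∀ a, (t a).im = 0 :=
  (F.ys_iff r h1 (h2.trans h3)).1 (e ▸ F.T.zq_jF h3 a ru h1 h2)

end Fk

/-- the data which do not depend on the base point are real -/
theorem Ok.src_real (h : G.Ok) (A : G.Tu1 b J) (hk : k < J) :
    RealP (G.p k) fun _ => src (G.sd k (G.zz b J (k + 1))) (G.kp k (G.zz b J (k + 1))) :=
  (h.src_ps (A.gd _ hk).tz hk (h.v20 (A.v _ hk)) (A.lam k hk).1).2.1

/-- hybrid base points are real -/
theorem Hb.real (B : G.Hb a τ b J i j H) (h : G.Ok) (A : G.Tu1 b J)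
    (r : RealP (G.p i) (H i).1 ∧ RealA (H i).2) :
    ∀ k, j ≤ k → k ≤ i → RealP (G.p k) (H k).1 ∧ RealA (H k).2 :=
  down r fun k h1 h2 ih => by
    have hk := h2.trans_le B.le
    obtain ⟨m, m1, m2⟩ := B.ka (k + 1) (by omega) h2
    have m3 := kN_pA (kN_up m2)
    have t0 := B.t0
    obtain ⟨c1, c2, -⟩ := th_leB (h.nuA (B.nm k h1 h2.le).1 (G.zz b J (k + 1)))
      (B.nm (k + 1) (by omega) h2).2.1 (B.nm k h1 h2.le).2.2 t0 (b := τ ^ 2) (θ := τ ^ 3)
      (by positivity) (by positivity) (by linarith [sq_nonneg τ]) (by linarith [pow_pos t0 3])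
    rw [← h.sd_nf k (G.zz b J (k + 1))] at m1 m3
    obtain ⟨r1, r2, -⟩ := (h.st2 (A.gd _ hk).tz).real _ _ _ _ _
      ⟨((mul_le_mul_of_nonneg_right (Kp.Qp_le _ a 100) (by positivity)).trans_lt c1).le,
        ((mul_le_mul_of_nonneg_right (Kp.Qp_le _ a 100) (by positivity)).trans_lt c2).le,
        B.pu (k + 1) (by omega) h2, m1, m3⟩ ih.1 ih.2
    rw [B.hs k h2]
    exact ⟨r1.add (h.src_real A hk), r2⟩

theorem hy_top_real (A : G.Tu1 b J) (B : G.Tu1 b' J') (hi : i ≤ J) (hi' : i ≤ J') :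
    RealP (G.p i) (G.hy b J b' J' i i).1 ∧ RealA (G.hy b J b' J' i i).2 := by
  have e : ∀ {J z}, G.Tz J i z → RealP (G.p i) ((G.sl i z).Φ 0) := fun t x B r _ =>
    Im.add (Im.mul (Complex.ofReal_im _) (Im.add (cx_im _ r r) ((t.tr i (.inl rfl)).real B r))) rfl
  rw [hy_top]
  exact ⟨(B.gd i hi').dt.re.1.add ((e (B.gd i hi').tz).sub (e (A.gd i hi).tz)),
    (B.gd i hi').dt.re.2.1⟩

theorem Hb.hy_real (B : G.Hb a τ b J i j (G.hy b J b' J' i)) (h : G.Ok) (A : G.Tu1 b J)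
    (A' : G.Tu1 b' J') (hi : i ≤ J') : ∀ k, j ≤ k → k ≤ i →
      RealP (G.p k) (G.hy b J b' J' i k).1 ∧ RealA (G.hy b J b' J' i k).2 :=
  B.real h A (hy_top_real A A' B.le hi)

end Gl

end En

end Pool.Agent.Lib.MP_7f377f_mp.RG.Q4
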