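import Pool.Agent.Lib.MP_7f377f_mp.G.JuT1
import Pool.Agent.Lib.MP_7f377f_mp.StP
import Pool.Agent.Lib.MP_7f377f_mp.JtR

/-! Lassos which avoid a link; their fluxes separate the lattice polynomials. -/

noncomputable section

set_option linter.unusedSectionVars false
variable [Pool.Agent.Lib.MP_7f377f_mp.GD]

namespace Pool.Agent.Lib.MP_7f377f_mp.RG.Tl

open Finset Wd

attribute [local irreducible] box lbox

/-- the holonomy does not depend on the link `b` -/
def Av (b : Lk) (w : Lp) : Prop := DependsOn (fun U : Conf => wh Inv.inv U 0 w.1) {b}ᶜ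

/-- the holonomy depends only on the links above the plane `x ν = 1` -/
def Hi (ν : Fin 4) (z : St) (w : Lp) : Prop :=
  DependsOn (fun U : Conf => wh Inv.inv U z w.1) {e | 1 ≤ e.1 ν}

/-- the flux through a formal sum of loops -/
def fl (f : Lp →₀ ℝ) : V →ₗ[ℝ] ℝ := f.sum fun w t => t • fxL 0 w.1

/-- the current -/
def cu (a : V) (e : Lk) : ℝ := ∑ d : Dr, fx a e.1 (pq (e.2, true) d).1

/-- the links which carry the equations -/
def bk (i : Bool × Fin 4) : Lk := (if i.1 then un i.2 else 0, i.2)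

/-- the plaquettes which contain these links -/
def jl (i : Bool × Fin 4) (d : Dr) : Lp :=
  if i.1 then las (i.2, true) (pq (i.2, true) d) else pq (i.2, true) d

/-- their sum -/
def jf (i : Bool × Fin 4) : Lp →₀ ℝ := ∑ d : Dr, Finsupp.single (jl i d) 1

variable {α : Type} [Fintype α] [DecidableEq α] {p : (α → ℝ) →ₗ[ℝ] V} {N R s : ℕ} {ν : Fin 4}
  {b : Lk} {a : V}

theorem wh_las {G : Type} [Group G] (U : Lk → G) (x : St) (d : Dr) (w : Lp) :
    wh Inv.inv U x (las d w).1 =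
      stp Inv.inv U x d * wh Inv.inv U (x + dv d) w.1 * (stp Inv.inv U x d)⁻¹ := by
  simp [las, wh, wh_append, w.2, stp_fl inv_inv, mul_assoc]

theorem wh_pq {G : Type} [Group G] (U : Lk → G) (x : St) (m r : Fin 4) :
    wh Inv.inv U x (pq (m, true) (r, true)).1 =
      U (x, m) * U (x + un m, r) * (U (x + un r, m))⁻¹ * (U (x, r))⁻¹ := by
  simp only [pq, wh, stp, dv, Wd.fl, if_true, Bool.not_true, Bool.false_eq_true, if_false,
    show x + un m + un r - un m = x + un r by abel, show x + un m + un r + -un m - un r = x by abel,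
    mul_one, mul_assoc]

theorem fl_ap (f : Lp →₀ ℝ) (a : V) : fl f a = f.sum fun w t => t * fx a 0 w.1 := by
  simp [fl, Finsupp.sum, fxL]

theorem fl_jf (i : Bool × Fin 4) (a : V) : fl (jf i) a = cu a (bk i) := by
  rw [fl_ap, jf, ← Finsupp.sum_finset_sum_index (by simp) (by simp [add_mul]), cu]
  refine sum_congr rfl fun d _ => ?_
  rw [Finsupp.sum_single_index (by simp), one_mul, jl, bk]
  split_ifs
  · rw [fx_las, zero_add]; rfl
  · rfl

theorem hi_up (β : Jt.Mi) : ∀ z : St, 1 ≤ z ν → ∀ w, Hi ν (z + fun i => (β i : ℤ)) w →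
    ∃ w', Hi ν z w' ∧ ∀ a : V, fx a z w'.1 = fx a (z + fun i => (β i : ℤ)) w.1 := by
  induction β using Jt.ind with
  | h0 => exact fun z _ w h => ⟨w, by simpa [← Pi.zero_def] using h, by simp [← Pi.zero_def]⟩
  | h1 β i ih =>
    intro z hz w h
    have e : (z + fun j => ((β + Jt.ei i) j : ℤ)) = z + un i + fun j => (β j : ℤ) :=
      funext fun j => by by_cases h : j = i <;> simp [Jt.ei_apply, un, h]; ring
    rw [e] at h ⊢
    obtain ⟨w', h1, h2⟩ := ih (z + un i) (by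
      by_cases h : ν = i <;> simp [un, h] at hz ⊢ <;> omega) w h
    refine ⟨las (i, true) w', fun U U' k => ?_, fun a => by rw [fx_las, ← h2]; rfl⟩
    have := h1 k
    simp only [wh_las, stp, dv, if_true, k (z, i) hz] at this ⊢
    rw [this]

theorem hi_pq {x : St} (hx : 1 ≤ x ν) (m r : Fin 4) : Hi ν x (pq (m, true) (r, true)) := by
  intro U U' k
  have k0 : ∀ j, U (x, j) = U' (x, j) := fun j => k _ hx
  have k1 : ∀ i j, U (x + un i, j) = U' (x + un i, j) := fun i j => k _ (by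
    by_cases h : ν = i <;> simp [un, h] at hx ⊢ <;> omega)
  simp only [wh_pq, k0, k1]

/-- lassos which avoid the link -/
theorem ex_las (h1 : ν ≠ b.2) (h2 : b.1 ν ≤ 0) (β : Jt.Mi) (m r : Fin 4) : ∃ w, Av b w ∧
    ∀ a : V, fx a 0 w.1 = dd a (un ν + fun i => (β i : ℤ)) m r := by
  obtain ⟨w, k1, k2⟩ := hi_up (ν := ν) β (un ν) (by simp [un]) _ (hi_pq (by simp [un]) m r)
  refine ⟨las (ν, true) w, fun U U' k => ?_, fun a => by
    rw [fx_las, zero_add, ← fx_pq, ← k2]; rfl⟩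
  have := k1 fun e he => k e fun h => by
    rw [h, Set.mem_ofPred_eq] at he
    omega
  simp only [wh_las, stp, dv, if_true, zero_add, k (0, ν) fun h => h1 (congrArg Prod.snd h)]
    at this ⊢
  rw [this]

theorem orth (μ : Fin 4) (h : ∀ β : Jt.Mi, a (fun i => (β i : ℤ), μ) = 0) (γ : Jt.Mi) :
    ∀ β : Jt.Mi, Jt.Dm γ a (fun i => (β i : ℤ), μ) = 0 := by
  induction γ using Jt.ind with
  | h0 => simpa using h
  | h1 γ i ih =>
    intro β
    have e : (fun j => (β j : ℤ)) + un i = fun j => ((β + Jt.ei i) j : ℤ) :=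
      funext fun j => by by_cases h : j = i <;> simp [Jt.ei_apply, un, h]
    rw [Jt.Dm_succ_ap', Jt.D1_ap, ih, e, ih, sub_zero]

theorem dd_zero (ha : a ∈ Jt.Pd N) (x : St)
    (h : ∀ (β : Jt.Mi) m r, dd a (x + fun i => (β i : ℤ)) m r = 0) : dd a = 0 := by
  funext y m r
  have h1 : Jt.io m (sh x a) = 0 :=
    Jt.Pd_ext ((Jt.cov_io m).Pd ((Jt.cov_sh x).Pd ha)) fun γ μ _ => by
      simpa [Jt.jet_ap, ← Pi.zero_def] using orth (a := Jt.io m (sh x a)) μ
        (fun β => by rw [Jt.io_ap, dd_sh, add_comm, h]) γ 0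
  simpa [Jt.io_ap, dd_sh] using congrFun h1 (y - x, r)

/-- every coordinate is the flux through a sum of loops which avoid the link -/
theorem ex_dual (hp : ∀ c, p c ∈ Jt.Pd N) (hi : ∀ c, dd (p c) = 0 → c = 0) (h1 : ν ≠ b.2)
    (h2 : b.1 ν ≤ 0) : ∃ l : α → Lp →₀ ℝ, (∀ a, ∀ w ∈ (l a).support, Av b w) ∧
      ∀ a c, fl (l a) (p c) = c a := by
  have k : ∀ a : α, ∃ f : Lp →₀ ℝ, (∀ w ∈ f.support, Av b w) ∧ ∀ c, fl f (p c) = c a := fun a => by
    have := FiniteDimensional.mem_span_of_iInf_ker_le_ker (K := LinearMap.proj a)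
      (L := fun w : {w // Av b w} => fxL 0 w.1.1 ∘ₗ p) fun c hc => by
        rw [hi c (dd_zero (hp c) (un ν) fun β m r => ?_)]
        · exact zero_mem _
        · obtain ⟨w, k1, k2⟩ := ex_las h1 h2 β m r
          exact (k2 _).symm.trans ((Submodule.mem_iInf _).1 hc ⟨w, k1⟩)
    obtain ⟨f, hf⟩ := Finsupp.mem_span_range_iff_exists_finsupp.1 this
    refine ⟨f.embDomain (.subtype _), fun w hw => ?_, fun c => ?_⟩
    · rw [Finsupp.support_embDomain] at hw
      obtain ⟨v, -, rfl⟩ := mem_map.1 hw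
      exact v.2
    · rw [fl_ap, Finsupp.sum_embDomain]
      simpa [Finsupp.sum, fxL] using LinearMap.congr_fun hf c
  choose l hl using k
  exact ⟨l, fun a => (hl a).1, fun a => (hl a).2⟩

theorem ex_dir (i : Bool × Fin 4) : ∃ ν, ν ≠ (bk i).2 ∧ (bk i).1 ν ≤ 0 := by
  obtain ⟨ν, h⟩ := exists_ne i.2
  refine ⟨ν, h, ?_⟩
  simp only [bk]
  split_ifs <;> simp [un, h]

/-! ### The current -/

theorem cu_eq (a : V) (x : St) (μ : Fin 4) :
    cu a (x, μ) = ∑ ν, (dd a x μ ν - dd a (x - un ν) μ ν) := by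
  rw [cu, Fintype.sum_prod_type]
  exact sum_congr rfl fun ν _ => by rw [Fintype.sum_bool, fx_pq, fx_pq']; rfl

theorem Mo_m0 (hR : 1 ≤ R) (a : V) : Jt.Mo R m0 a = cu a := by
  funext ⟨x, μ⟩
  have k : ∀ y ∈ box R, ∀ κ (f : St → ℝ), ∑ u ∈ box R, f u * (Pi.single (u, μ) 1 : V) (y, κ) =
      if κ = μ then f y else 0 := fun y hy κ f => by
    rw [sum_eq_single_of_mem y hy fun u _ hu => by simp [Pi.single_apply, hu.symm]]
    simp [Pi.single_apply]
  have k0 := k 0 (zero_mem_box R)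
  have k1 := fun i => k (un i) (box_mono hR (un_mem_box i))
  simp only [Jt.Mo_ap, Li.m0_apply, dd_sh, zero_add, ← mul_sum]
  rw [sum_comm, sum_congr rfl fun _ _ => sum_comm, cu_eq]
  simp only [show ∀ e κ ν, dd (Pi.single e 1 : V) 0 κ ν = (Pi.single e 1 : V) (0, κ) +
    (Pi.single e 1 : V) (un κ, ν) - (Pi.single e 1 : V) (un ν, κ) - (Pi.single e 1 : V) (0, ν) from
    fun _ _ _ => by simp [dd], mul_add, mul_sub, sum_add_distrib, sum_sub_distrib, k0, k1, sub_zero,
    sum_ite_irrel, sum_ite_eq', mem_univ, if_true, sum_const_zero, dd_anti a _ μ, sum_neg_distrib]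
  ring

theorem tn_zero {j : V} (h : j ∈ Jt.Tn) (e : ∀ i, j (bk i) = 0) : j = 0 := by
  refine Jt.Pd_ext (n := 2) (Jt.mem_Pd.2 fun γ hγ => funext fun f =>
    h γ f.2 (Jt.NT_two hγ.ge _) f.1) fun γ μ _ => ?_
  by_cases k : Jt.NT γ μ
  · exact h γ μ k 0
  have e0 : j (0, μ) = 0 := e (false, μ)
  have e1 : j (un μ, μ) = 0 := e (true, μ)
  rcases not_and_or.1 k with k | k <;> rw [not_not.1 k, Jt.jet_ap]
  · simpa using e0
  · rw [Jt.Dm_ei, Jt.D1_ap, zero_add, e0, e1, sub_zero]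

/-- the coordinates which vanish on the solutions are combinations of currents -/
theorem ex_cur (hR : 1 ≤ R) (hp : ∀ c, p c ∈ Jt.Pk R m0 s) {a : α}
    (h : ∀ c, Jt.Mo R m0 (p c) = 0 → c a = 0) :
    ∃ t : Bool × Fin 4 → ℝ, ∀ c, ∑ i, t i * fl (jf i) (p c) = c a := by
  have := mem_span_of_iInf_ker_le_ker (K := LinearMap.proj a) (L := fun i => fl (jf i) ∘ₗ p)
    fun c hc => h c (tn_zero (hp c).2 fun i => by
      rw [Mo_m0 hR, ← fl_jf]
      exact (Submodule.mem_iInf _).1 hc i)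
  obtain ⟨t, ht⟩ := (Submodule.mem_span_range_iff_exists_fun ℝ).1 this
  exact ⟨t, fun c => by simpa using LinearMap.congr_fun ht c⟩

end Pool.Agent.Lib.MP_7f377f_mp.RG.Tl
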