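import Pool.Agent.Lib.MP_7f377f_mp.G.JuT2
import Pool.Agent.Lib.MP_7f377f_mp.G.StSD

/-! Null letters: the equation of motion at one link. -/

noncomputable section

set_option linter.unusedSectionVars false
variable [Pool.Agent.Lib.MP_7f377f_mp.GD]

namespace Pool.Agent.Lib.MP_7f377f_mp.RG.Tl

open Finset MeasureTheory Wd Q4 Q4.Fi Q4.Em
open scoped InnerProductSpace

attribute [local irreducible] box lbox

/-- `O` does not depend on the links near `x` -/
def Far (n R : ℕ) (x : St) (O : Conf → ℂ) : Prop :=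
  ∀ U V, Per n U → Per n V → (∀ e : Lk, ¬ nearT n R x e.1 → U e = V e) → O U = O V

/-- the observable has no correlations with far observables -/
def Nul (R : ℕ) (N : Conf → ℂ) : Prop := Continuous N ∧ ∀ n : ℕ, Odd n → 2 * R + 1 < n →
  ∀ (b : ℝ) (x : St) (O : Conf → ℂ), Continuous O → Far n R x O →
    ∫ U, wil b n (pc n U) * (N (sh x (pc n U)) * O (pc n U)) ∂PP = 0

/-- the variation of the action at a link -/
def jk (U : Conf) (e : Lk) (k : Fin GD.d) : ℝ :=
  ∑ d : Dr, cR (wh Inv.inv U e.1 (pq (e.2, true) d).1) k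

variable {n R R' : ℕ} {N N' O : Conf → ℂ} {x : St}

theorem cont_jk (e : Lk) (k : Fin GD.d) : Continuous fun U => jk U e k :=
  continuous_finsetSum _ fun _ _ => (cont_cR k).comp (Wd.cont_wh _ _)

theorem sd_lk [NeZero n] (b : ℝ) (y : St) (m : Fin 4) (k : Fin GD.d) {O : YM7.Cfg n → ℝ}
    (hO : Continuous O) (hi : ∀ U g, O (Function.update U (cst n y, m) g) = O U) :
    ∫ U : YM7.Cfg n, jk (Fi.lf U) (y, m) k * O U * Real.exp (-b * ∑ x, YM7.dens U x)
      ∂(Measure.pi fun _ => Fi.tr haar) = 0 := by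
  let _ := YM5.quatHS
  have : (Fi.tr haar).IsHaarMeasure := inferInstanceAs haar.IsHaarMeasure
  obtain ⟨v, hv⟩ : ∃ v : YM7.Cfg n → Weak.Link 4 n → YM5.MA,
    v = fun _ e => if e = (cst n y, m) then eM k else 0 := ⟨_, rfl⟩
  have hm : ∀ U e, v U e ∈ Weak.lieAlg YM5.rho := fun U e => by
    simp only [hv, YM5.lie_rho]
    split_ifs
    · exact Submodule.subset_span ⟨k, rfl⟩
    · exact Submodule.zero_mem _
  have h := Weak.sd_wt YM5.rho (Fi.tr haar) YM5.rho_cont (v := v)
    ⟨hv ▸ continuous_const, hm, fun U e g => by rw [hv]⟩ hO (fun e => by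
      by_cases h : e = (cst n y, m)
      · exact Or.inr (h ▸ hi)
      · exact Or.inl fun U => by rw [hv]; exact if_neg h) (b / 2)
  have e2 : ∀ U, Weak.YD YM5.rho v Weak.actA U = 4 * jk (Fi.lf U) (y, m) k := fun U => by
    have i1 : ∀ g : S3, ⟪eM k, (YM5.rho g : YM5.MA)⟫_ℝ = cR g k := fun _ => rfl
    have w1 : ∀ j, wh Inv.inv (Fi.lf U) y (pq (m, true) (j, true)).1 = Weak.hol U (cst n y) m j :=
      fun j => by
        simp only [wh_pq, Fi.lf, Fi.lift, Weak.hol, cst_add, cst_un1]
        rfl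
    have w2 : ∀ j, wh Inv.inv (Fi.lf U) y (pq (m, true) (j, false)).1 = Weak.holN U (cst n y) m j :=
      fun j => by
        simp only [pq, wh, stp, dv, Wd.fl, if_true, Bool.not_true, Bool.false_eq_true, if_false,
          Bool.not_false, show y + un m + -un j - un m = y - un j by abel,
          show y + un m + -un j + -un m = y - un j by abel,
          show y + un m - un j = y - un j + un m by abel]
        simp only [Fi.lf, Fi.lift, Weak.holN, cst_add, cst_sub, cst_un1, mul_assoc, mul_one]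
        rfl
    rw [← Weak.plA_one, Weak.YD_plA _ U fun e => Weak.lieAlg_skew _ YM5.rho_cont (hm U e),
      sum_eq_single (cst n y) (fun x _ hx => by simp [hv, hx]) (by simp),
      sum_eq_single m (fun x _ hx => by simp [hv, hx]) (by simp), jk, Fintype.sum_prod_type, mul_sum]
    refine sum_congr rfl fun j _ => ?_
    simp only [hv, if_true, i1, Fintype.sum_bool, w1, w2]
    ring
  simp only [e2, YM5.act_rho, mul_assoc, integral_const_mul] at h
  refine Eq.trans ?_ ((mul_eq_zero.1 h).resolve_left (by norm_num))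
  refine integral_congr_ae (.of_forall fun U => ?_)
  simp only [mul_assoc]
  congr 3
  change -b * ∑ x, YM5.dens U x = _
  ring

theorem int_c {F : Conf → ℂ} (h : Continuous F) (n : ℕ) : Integrable (fun U => F (pc n U)) PP :=
  Br.bc_int ⟨h.measurable, (isCompact_univ.exists_bound_of_continuousOn h.continuousOn).imp
    fun _ h U => h U trivial⟩ n

theorem sd_cx (hn : Odd n) (b : ℝ) (e : Lk) (k : Fin GD.d) (hO : Continuous O)
    (hi : ∀ U V, Per n U → Per n V → (∀ f : Lk, ¬(nearT n 0 e.1 f.1 ∧ f.2 = e.2) → U f = V f) →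
      O U = O V) : ∫ U, wil b n (pc n U) * (jk (pc n U) e k * O (pc n U)) ∂PP = 0 := by
  have : NeZero n := ⟨hn.pos.ne'⟩
  have key : ∀ φ : ℂ →L[ℝ] ℝ,
      ∫ U, jk (pc n U) e k * φ (O (pc n U)) * wil b n (pc n U) ∂PP = 0 := fun φ => by
    rw [← Br.int_lf (f := fun U => jk U e k * φ (O U) * wil b n U)
      (((cont_jk e k).mul (φ.continuous.comp hO)).mul (cont_wil b)).measurable]
    simp only [Br.wil_lf hn]
    refine sd_lk b e.1 e.2 k (φ.continuous.comp (hO.comp cont_lf)) fun U g => congrArg φ ?_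
    refine hi _ _ (per_lf _) (per_lf _) fun f hf => Function.update_of_ne (fun h => hf ?_) _ _
    exact ⟨nearT_zero.2 (by rw [← vl_cst, ← vl_cst, (Prod.mk.inj h).1]), (Prod.mk.inj h).2⟩
  have i := int_c (F := fun U => wil b n U * (jk U e k * O U))
    ((Complex.continuous_ofReal.comp (cont_wil b)).mul
      ((Complex.continuous_ofReal.comp (cont_jk e k)).mul hO)) n
  apply Complex.ext
  · rw [← Complex.reCLM_apply, ← ContinuousLinearMap.integral_comp_comm _ i]
    simpa [mul_comm] using key Complex.reCLM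
  · rw [← Complex.imCLM_apply, ← ContinuousLinearMap.integral_comp_comm _ i]
    simpa [mul_comm] using key Complex.imCLM

theorem int_w (h : Continuous N) (k : Continuous O) (b : ℝ) (x : St) :
    Integrable (fun U => wil b n (pc n U) * (N (sh x (pc n U)) * O (pc n U))) PP :=
  int_c (((Complex.continuous_ofReal.comp (cont_wil b)).mul ((h.comp (Ms.cont_sh x)).mul k))) n

theorem Far.mono (h : Far n R' x O) (e : R ≤ R') : Far n R x O := fun U V a b c =>
  h U V a b fun f hf => c f fun k => hf (k.mono e)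

namespace Nul

theorem mono (h : Nul R N) (e : R ≤ R') : Nul R' N :=
  ⟨h.1, fun n a b β x O c f => h.2 n a (by omega) β x O c (f.mono e)⟩

theorem zero (R : ℕ) : Nul R 0 := ⟨continuous_const, fun _ _ _ _ _ _ _ _ => by simp⟩

theorem smul (h : Nul R N) (c : ℂ) : Nul R (c • N) :=
  ⟨h.1.const_smul c, fun n a b β x O k f => by
    simp only [Pi.smul_apply, smul_eq_mul, mul_assoc, mul_left_comm _ c, integral_const_mul,
      h.2 n a b β x O k f, mul_zero]⟩

theorem add (h : Nul R N) (h' : Nul R N') : Nul R (N + N') :=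
  ⟨h.1.add h'.1, fun n a b β x O k f => by
    simp only [Pi.add_apply, add_mul, mul_add]
    rw [integral_add (int_w h.1 k β x) (int_w h'.1 k β x), h.2 n a b β x O k f,
      h'.2 n a b β x O k f, add_zero]⟩

theorem sum {ι : Type} {A : Finset ι} {N : ι → Conf → ℂ} (h : ∀ i ∈ A, Nul R (N i)) :
    Nul R (∑ i ∈ A, N i) := sum_induction N (Nul R) (fun _ _ => add) (zero R) h

/-- the lattice symmetries preserve the null observables -/
theorem act (h : Nul R N) (g : B4) : Nul (R + 1) fun U => N (pb Inv.inv g U) := by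
  refine ⟨h.1.comp (cont_pb g), fun n a b β x O k f => ?_⟩
  have e : ∀ U : Conf, pb Inv.inv g⁻¹ (pb Inv.inv g U) = U := fun U => by
    rw [← pb_mul inv_inv, mul_inv_cancel]
    rfl
  have := int_pb a β g (F := fun U => N (sh (gv g⁻¹ x) U) * O (pb Inv.inv g⁻¹ U))
    ((h.1.comp (Ms.cont_sh _)).mul (k.comp (cont_pb _)))
  simp only [sh_pb, gv_inv', e] at this
  refine this.trans (h.2 n a (by omega) β _ _ (k.comp (cont_pb _)) fun U V c1 c2 c3 =>
    f _ _ (per_pb _ _ c1) (per_pb _ _ c2) fun l hl => ?_)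
  have q : ∀ w ∈ box 1, ¬ nearT n R (gv g⁻¹ x) (gv g⁻¹ l.1 + w) := fun w hw ⟨v, hv⟩ => hl ⟨gv g v, by
    have := sub_mem_box (gv_box g hv) (gv_box g hw)
    rwa [← gv_sub, show ∀ a b c : St, a + w - b - c - w = a - b - c from fun _ _ _ => by abel,
      gv_sub, gv_sub, gv_inv', gv_inv', show gv g ((n : ℤ) • v) = (n : ℤ) • gv g v from
        map_zsmul (gvE g ℤ) _ _] at this⟩
  simp only [Wd.pb, stp]
  split_ifs
  · exact c3 _ (by simpa using q 0 (zero_mem_box 1))
  · exact congrArg _ (c3 _ (by simpa [dv, sub_eq_add_neg] using q _ (dv_box (_, false))))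

/-- smeared null observables -/
theorem smear (h : Nul R N) (hn : Odd n) (h1 : 2 * R + 1 < n) (b : ℝ) (ξ : St → ℂ)
    (hO : Continuous O) (hf : ∀ x ∈ box (n / 2), ξ x ≠ 0 → Far n R x O) :
    ∫ U, wil b n (pc n U) * ((∑ x ∈ box (n / 2), ξ x * N (sh x (pc n U))) * O (pc n U)) ∂PP = 0 := by
  simp only [sum_mul, mul_sum, mul_assoc, mul_left_comm _ (ξ _)]
  rw [integral_finsetSum _ fun x _ => (int_w h.1 hO b x).const_mul _]
  refine sum_eq_zero fun x hx => ?_
  by_cases h0 : ξ x = 0
  · simp [h0]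
  · rw [integral_const_mul, h.2 n hn h1 b x O hO (hf x hx h0), mul_zero]

end Nul

/-- the equation of motion times a function which does not depend on the link -/
theorem nul_jk {e : Lk} (he : e.1 ∈ box R) (k : Fin GD.d) {Y : Conf → ℂ} (hY : Continuous Y)
    (h1 : DependsOn Y {e}ᶜ) (h2 : ∀ U U', Agr R U U' → Y U = Y U') :
    Nul R fun U => jk U e k * Y U := by
  refine ⟨(Complex.continuous_ofReal.comp (cont_jk e k)).mul hY, fun n a b β x O c f => ?_⟩
  have := sd_cx a β (e.1 + x, e.2) k ((hY.comp (Ms.cont_sh x)).mul c) fun U V c1 c2 c3 => by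
    classical
    rw [Pi.mul_apply, Pi.mul_apply, f U V c1 c2 fun l hl => c3 l fun q => hl
      (((nearT_add he).trans (add_comm x _ ▸ q.1)).mono (R.add_zero).le)]
    refine congrArg (· * _) ((h1 (y := Function.update (sh x U) e (sh x V e)) fun l hl =>
      (Function.update_of_ne hl _ _).symm).trans (h2 _ _ fun l hl => ?_))
    by_cases k : l = e
    · rw [k, Function.update_self]
    rw [Function.update_of_ne k]
    refine c3 (l.1 + x, l.2) fun ⟨q1, q2⟩ => k (Prod.ext (funext fun i => ?_) q2)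
    obtain ⟨v, hv⟩ := nearT_iff.1 (nearT_add_right x |>.1 q1)
    have a1 := mem_box.1 he i
    have a2 := mem_box.1 (mem_lbox.1 hl) i
    have a3 := hv i
    have a4 : (2 * R + 1 : ℤ) < n := by exact_mod_cast b
    have a6 : (0 : ℤ) ≤ n := by omega
    rcases lt_trichotomy (v i) 0 with a5 | a5 | a5
    · have := mul_le_mul_of_nonneg_left (show v i ≤ -1 by omega) a6
      omega
    · rw [a5] at a3; omega
    · have := mul_le_mul_of_nonneg_left (show 1 ≤ v i by omega) a6
      omega
  simpa only [jk, wh_sh, mul_assoc, Pi.mul_apply, Function.comp] using this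

end Pool.Agent.Lib.MP_7f377f_mp.RG.Tl
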