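import Pool.Agent.Lib.MP_7f377f_mp.G.JuT3
import Pool.Agent.Lib.MP_7f377f_mp.G.JuB

/-! Letters with a given symbol; null letters for the ideal of the equations of motion. -/

noncomputable section

set_option linter.unusedSectionVars false
variable [Pool.Agent.Lib.MP_7f377f_mp.GD]

namespace Pool.Agent.Lib.MP_7f377f_mp.RG.Tl

open Finset MvPolynomial Wd Q4 Ju Filter Topology

attribute [local irreducible] box lbox

/-- combinations of values -/
def cm (f : Lp →₀ ℝ) (ξ : Lp → C3) : C3 := f.sum fun w t => (t : ℂ) • ξ w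

/-- linear letters -/
def lw (f : Lp →₀ ℝ) (k : Fin GD.d) : Pl := f.sum fun w t => (t : ℂ) • X (w, k)

/-- substitution of linear letters -/
def lf {α : Type} (l : α → Lp →₀ ℝ) : Cp α →ₐ[ℂ] Pl := aeval fun q => lw (l q.1) q.2

/-- the gradient in one variable -/
def gd {α : Type} (a : α) (P : Cp α) (ξ : α → C3) : C3 := fun k => vl ξ (pderiv (a, k) P)

/-- the gradient contracted with the variation of the action -/
def sd {α : Type} (l : α → Lp →₀ ℝ) (i : Bool × Fin 4) (a : α) (P : Cp α) : Pl :=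
  ∑ k, lf l (pderiv (a, k) P) * lw (jf i) k

/-- polynomials which vanish where the coordinates in `A` vanish -/
def Zr {α : Type} (A : Set α) (P : Cp α) : Prop :=
  ∀ c : Cr α, (∀ a ∈ A, ∀ k, c (a, k) = 0) → eval c P = 0

/-- `Q` is a letter with the symbol `P` -/
structure Lf {α : Type} (p : (α → ℝ) →ₗ[ℝ] V) (n : ℕ) (P : Cp α) (Q : Pl) : Prop where
  iv : Iv Q
  rl : Rl Q
  hom : Q.IsHomogeneous n
  sym : ∀ c, pa Q (emF p c) = eval c P

variable {α : Type} [Fintype α] [DecidableEq α] {p : (α → ℝ) →ₗ[ℝ] V} {N R s n m D : ℕ}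
  {l : α → Lp →₀ ℝ} {f : Lp →₀ ℝ} {P P' : Cp α} {Q Q' : Pl} {A : Set α} {v w : α → ℕ} {a : α}
  {i : Bool × Fin 4} {b : Lk}

theorem vl_lw (ξ : Lp → C3) (f : Lp →₀ ℝ) (k : Fin GD.d) : vl ξ (lw f k) = cm f ξ k := by
  simp only [lw, cm, Finsupp.sum, vl_sum, vl_smul, vl_X, Finset.sum_apply, Pi.smul_apply,
    smul_eq_mul]

theorem vl_lf (ξ : Lp → C3) (l : α → Lp →₀ ℝ) (P : Cp α) :
    vl ξ (lf l P) = vl (fun a => cm (l a) ξ) P := by
  induction P using MvPolynomial.induction_on with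
  | C a => simp [lf, vl]
  | add p q h h' => rw [map_add, vl_add, vl_add, h, h']
  | mul_X p i h => rw [map_mul, vl_mul, vl_mul, h, vl_X, lf, aeval_X, vl_lw]

theorem cm_ad (f : Lp →₀ ℝ) (u : Hc) (ξ : Lp → C3) :
    cm f (fun w => adq u (ξ w)) = adq u (cm f ξ) := by
  simp only [cm, Finsupp.sum, adq_sum, adq_smul]

theorem fx_cx (B : Fld) (k : Fin GD.d) (w : List Dr) : ∀ x, fx B x w k =
    (fx (fun e => (B e k).re) x w : ℝ) + (fx (fun e => (B e k).im) x w : ℝ) * Complex.I := by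
  induction w with
  | nil => simp [fx]
  | cons d w ih =>
    intro x
    simp only [fx, stp, Pi.add_apply, ih]
    split_ifs <;> apply Complex.ext <;> simp

theorem cm_av (f : Lp →₀ ℝ) (c : Cr α) (k : Fin GD.d) : cm f (av (emF p c)) k =
    (fl f (p fun a => (c (a, k)).re) : ℝ) + (fl f (p fun a => (c (a, k)).im) : ℝ) * Complex.I := by
  have h1 : (fun e => (emF p c e k).re) = p fun a => (c (a, k)).re :=
    funext fun e => by simp [emF, cz_ap, cur]
  have h2 : (fun e => (emF p c e k).im) = p fun a => (c (a, k)).im :=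
    funext fun e => by simp [emF, cz_ap, cur]
  simp [cm, fl_ap, Finsupp.sum, Finset.sum_apply, av, fx_cx, h1, h2, mul_add, sum_add_distrib,
    sum_mul, mul_assoc]

theorem cm_dual (h : ∀ a c, fl (l a) (p c) = c a) (c : Cr α) :
    (fun a => cm (l a) (av (emF p c))) = cur c := funext₂ fun a k => by
  rw [cm_av, h, h, Complex.re_add_im]
  rfl

theorem cj_smul {κ : Type} (t : ℂ) (P : Cp κ) :
    map (starRingEnd ℂ) (t • P) = starRingEnd ℂ t • map (starRingEnd ℂ) P := by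
  rw [smul_eq_C_mul, smul_eq_C_mul, map_mul, map_C]

theorem cj_cj {κ : Type} (P : Cp κ) : map (starRingEnd ℂ) (map (starRingEnd ℂ) P) = P :=
  MvPolynomial.ext _ _ fun _ => by simp [coeff_map]

theorem rl_lw (f : Lp →₀ ℝ) (k : Fin GD.d) : Rl (lw f k) := by
  simp only [Rl, lw, Finsupp.sum, map_sum, cj_smul, Complex.conj_ofReal, map_X]

theorem hom_lw (f : Lp →₀ ℝ) (k : Fin GD.d) : (lw f k).IsHomogeneous 1 :=
  .sum _ _ _ fun _ _ => (homogeneousSubmodule _ ℂ 1).smul_mem _ (isHomogeneous_X _ _)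

theorem cj_lf (l : α → Lp →₀ ℝ) (P : Cp α) :
    map (starRingEnd ℂ) (lf l P) = lf l (map (starRingEnd ℂ) P) := by
  induction P using MvPolynomial.induction_on with
  | C a => simp [lf]
  | add p q h h' => simp only [map_add, h, h']
  | mul_X p i h => rw [map_mul, map_mul, h, map_mul, map_mul, map_X, lf, aeval_X, rl_lw]

theorem hom_lf (h : P.IsHomogeneous n) : (lf l P).IsHomogeneous n := by
  have := h.aeval _ fun q => hom_lw (l q.1) q.2
  rwa [one_mul] at this

theorem iv_lf (h : Iv P) : Iv (lf l P) := fun g ξ => by simp only [vl_lf, cm_ad, h g]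

theorem dep_lf (h : ∀ a, ∀ w ∈ (l a).support, Av b w) (P : Cp α) :
    DependsOn (pG (lf l P)) {b}ᶜ := fun U U' e => by
  rw [pG_ap, pG_ap, vl_lf, vl_lf]
  refine congrArg (vl · P) (funext fun a => sum_congr rfl fun w hw => ?_)
  simp only [hv_cC, show wh Inv.inv U 0 w.1 = wh Inv.inv U' 0 w.1 from h a w hw e]

theorem lf_lf (h : ∀ a c, fl (l a) (p c) = c a) (h1 : Iv P) (h2 : Rl P) (h3 : P.IsHomogeneous n) :
    Lf p n P (lf l P) :=
  ⟨iv_lf h1, by rw [Rl, cj_lf, h2], hom_lf h3, fun c => by rw [pa_ap, vl_lf, cm_dual h]; rfl⟩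

theorem Lf.zero (p : (α → ℝ) →ₗ[ℝ] V) (n : ℕ) : Lf p n 0 0 :=
  ⟨fun _ _ => by simp [vl], map_zero _, isHomogeneous_zero _ _ _, fun _ => by simp⟩

theorem Lf.add (h : Lf p n P Q) (h' : Lf p n P' Q') : Lf p n (P + P') (Q + Q') :=
  ⟨h.iv.add h'.iv, by rw [Rl, map_add, h.rl, h'.rl], h.hom.add h'.hom, fun c => by
    rw [map_add, map_add, Pi.add_apply, h.sym, h'.sym]⟩

/-! ### The gradient -/

theorem der_eval {ι : Type} [Fintype ι] [DecidableEq ι] (c u : ι → ℂ) (P : MvPolynomial ι ℂ) :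
    HasDerivAt (fun t : ℂ => eval (c + t • u) P) (∑ i, u i * eval c (pderiv i P)) 0 := by
  induction P using MvPolynomial.induction_on with
  | C a => simpa using hasDerivAt_const (0 : ℂ) a
  | add p q h h' => simpa [mul_add, sum_add_distrib] using h.fun_add h'
  | mul_X p i h =>
    simp only [map_mul, eval_X]
    refine (h.fun_mul (((hasDerivAt_id' (0 : ℂ)).mul_const (u i)).const_add (c i))).congr_deriv ?_
    simp [pderiv_X, Pi.single_apply, mul_add, sum_add_distrib, apply_ite (eval c), sum_mul,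
      mul_left_comm, mul_comm, add_comm, mul_sum]

theorem der_vl (ξ : α → C3) (a : α) (J : C3) (P : Cp α) :
    HasDerivAt (fun t : ℂ => vl (ξ + t • (Pi.single a J : α → C3)) P) (dot (gd a P ξ) J) 0 := by
  refine (der_eval (ucr ξ) (ucr (Pi.single a J : α → C3)) P).congr_deriv ?_
  rw [Fintype.sum_prod_type, sum_eq_single a (fun a' _ h => by simp [ucr, h]) (by simp)]
  exact sum_congr rfl fun k _ => by simp [ucr, gd, vl, mul_comm]

theorem gd_ad (h : Iv P) (g : S3) (ξ : α → C3) (J : C3) :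
    dot (gd a P fun i => adq (cS g) (ξ i)) (adq (cS g) J) = dot (gd a P ξ) J := by
  refine (der_vl _ a _ P).unique ((der_vl ξ a J P).congr_of_eventuallyEq (.of_forall fun t => ?_))
  refine (congrArg (vl · P) (funext fun i => ?_)).trans (h g _)
  simp only [Pi.add_apply, Pi.smul_apply, adq_add, adq_smul]
  by_cases e : i = a
  · simp [e]
  · simp [e, show adq (cS g) 0 = 0 from (adL _).map_zero]

theorem vl_sd (ξ : Lp → C3) : vl ξ (sd l i a P) =
    dot (gd a P fun a => cm (l a) ξ) (cm (jf i) ξ) := by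
  simp only [sd, vl_sum, vl_mul, vl_lf, vl_lw, dot, gd]

theorem iv_sd (h : Iv P) : Iv (sd l i a P) := fun g ξ => by simp only [vl_sd, cm_ad, gd_ad h]

theorem rl_sd (h : Rl P) : Rl (sd l i a P) := by
  simp only [Rl, sd, map_sum, map_mul, cj_lf, ← pderiv_map, show map _ P = P from h,
    show ∀ k, map _ (lw (jf i) k) = _ from rl_lw _]

theorem hom_sd (h : P.IsHomogeneous (n + 1)) : (sd l i a P).IsHomogeneous (n + 1) :=
  .sum _ _ _ fun k _ => (hom_lf h.pderiv).mul (hom_lw _ k)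

theorem cm_jf (i : Bool × Fin 4) (U : Conf) : cm (jf i) (hv (cC U)) =
    adq (cS (if i.1 then U (0, i.2) else 1)) fun k => jk U (bk i) k := by
  have e : (fun k => (jk U (bk i) k : ℂ)) =
      ∑ d, co (cS (wh Inv.inv U (bk i).1 (pq (i.2, true) d).1)) := funext fun k => by
    simp [jk, Finset.sum_apply, Em.co_cS, bk]
  rw [cm, jf, ← Finsupp.sum_finset_sum_index (by simp) (by simp [add_smul]), e, adq_sum]
  refine sum_congr rfl fun d _ => ?_
  rw [Finsupp.sum_single_index (by simp), hv_cC, ← co_conj (uni_cS _), ← cS_inv, ← cS_mul,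
    ← cS_mul, jl, bk]
  split_ifs
  · simp [wh_las, stp, dv]
  · simp

/-- the Schwinger-Dyson letters are null -/
theorem nul_sd (h : ∀ a, ∀ w ∈ (l a).support, Av (bk i) w) : ∃ R, Nul R (pG (sd l i a P)) := by
  choose r hr using fun k => exists_rd (lf l (pderiv (a, k) P))
  obtain ⟨R, hR⟩ := (Set.finite_range r).bddAbove
  obtain ⟨u, hu⟩ : ∃ u : Conf → S3, u = fun U => if i.1 then U (0, i.2) else 1 := ⟨_, rfl⟩
  have e : pG (sd l i a P) = ∑ k, fun U => (jk U (bk i) k : ℂ) * adq (star (cS (u U)))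
      (fun k => pG (lf l (pderiv (a, k) P)) U) k := funext fun U => by
    rw [pG_ap, vl_sd, cm_jf, dot_comm, dot_adq, Finset.sum_apply, hu]
    simp only [pG_ap, vl_lf]
    rfl
  have c : Continuous fun U => star (cS (u U)) := stL.continuous.comp (Ms.cont_cS.comp (by
    rw [hu]; split_ifs <;> fun_prop))
  refine ⟨R + 1, e ▸ Nul.sum fun k _ => nul_jk ?_ k ?_ (fun U U' q => ?_) fun U U' q => ?_⟩
  · simp only [bk]
    split_ifs
    exacts [box_mono (by omega) (un_mem_box _), zero_mem_box _]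
  · exact (continuous_apply k).comp (coL.continuous.comp ((c.mul (ioL.continuous.comp
      (continuous_pi fun _ => pG_cont _))).mul (stL.continuous.comp c)))
  · have : u U = u U' := by
      simp only [hu]
      split_ifs with j
      · exact q _ fun z => by simpa [bk, j, un] using congrFun (congrArg Prod.fst z) i.2
      · rfl
    simp only [this, dep_lf h _ q]
  · have : u U = u U' := by simp only [hu, q (0, i.2) (mem_lbox.2 (zero_mem_box _))]
    simp only [this, fun k => pG_agr ((hr k).mono ((hR ⟨k, rfl⟩).trans R.le_succ)) q]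

/-- null letters whose symbols vanish on shell -/
def Nl : Submodule ℂ Pl where
  carrier := {Q | (∃ r, Nul r (pG Q)) ∧ ∀ B, (∀ i, cm (jf i) (av B) = 0) → pa Q B = 0}
  add_mem' := fun ⟨⟨r, a⟩, b⟩ ⟨⟨r', a'⟩, b'⟩ => ⟨⟨max r r', by
    rw [map_add]
    exact (a.mono (le_max_left _ _)).add (a'.mono (le_max_right _ _))⟩, fun B h => by
      simp [b B h, b' B h]⟩
  zero_mem' := ⟨⟨0, by rw [map_zero]; exact .zero 0⟩, fun _ _ => by simp⟩
  smul_mem' := fun c _ ⟨⟨r, a⟩, b⟩ => ⟨⟨r, by rw [map_smul]; exact a.smul c⟩, fun B h => by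
    simp [b B h]⟩

theorem nl_sd (h : ∀ a, ∀ w ∈ (l a).support, Av (bk i) w) : sd l i a P ∈ Nl :=
  ⟨nul_sd h, fun B e => by simp [pa_ap, vl_sd, e, dot]⟩

/-! ### Gradings -/

theorem cp_rel {T : Cr α → Cr α} (hT : ∀ t c, T (dl (wC v) t c) = dl (wC v) t (T c))
    (h : ∀ c, eval (T c) P = eval c P') (m : ℕ) (c : Cr α) :
    eval (T c) (cp (wC v) m P) = eval c (cp (wC v) m P') := by
  obtain ⟨d, h1⟩ := ex_Wd (wC v) P
  obtain ⟨d', h2⟩ := ex_Wd (wC v) P'
  refine sub_eq_zero.1 (uniq (l := 𝓝[≠] 0) le_rfl (d + d' + m + 1) (b := fun m =>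
    eval (T c) (cp (wC v) m P) - eval c (cp (wC v) m P')) ?_ m (by omega))
  simp only [mul_sub, sum_sub_distrib, ← eval_dl (Wd_mono (show d ≤ d + d' + m by omega) h1),
    ← eval_dl (Wd_mono (show d' ≤ d + d' + m by omega) h2), ← hT, h, sub_self]
  exact Asymptotics.isBigO_zero _ _

theorem iv_iff : Iv P ↔ ∀ u c, eval (adC u c) P = eval c P :=
  ⟨fun h u c => (congrArg (vl · P) (cur_adC u c)).trans (h u (cur c)), fun h u ξ =>
    (congrArg (vl · P) (cur_adC u (ucr ξ))).symm.trans (h u (ucr ξ))⟩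

theorem mem_iv : P ∈ Q4.Iv w D ↔ P ∈ Wd (wC w) D ∧ Iv P :=
  ⟨fun h => ⟨(mem_Iv.1 h).1, iv_iff.2 (Iv_eval h)⟩, fun h => mem_Iv.2 ⟨h.1, fun u =>
    MvPolynomial.funext fun c => (eval_pb (adC_dl w u) h.1 c).trans (iv_iff.1 h.2 u c)⟩⟩

theorem Iv.cp (h : Iv P) (v : α → ℕ) (m : ℕ) : Iv (cp (wC v) m P) :=
  iv_iff.2 fun u => cp_rel (adC_dl v u) (iv_iff.1 h u) m

open Classical in
/-- the weight which counts the coordinates in `A` -/
def iA (A : Set α) (a : α) : ℕ := if a ∈ A then 1 else 0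

theorem Zr.dl (h : Zr A P) (c : Cr α) : eval (dl (wC (iA A)) 0 c) P = 0 :=
  h _ fun a ha k => by simp [Ju.dl, wC, iA, ha]

theorem Zr.cp (h : Zr A P) (v : α → ℕ) (m : ℕ) : Zr A (cp (wC v) m P) := fun c hc => by
  have := cp_rel (v := v) (P' := 0) (T := Ju.dl (wC (iA A)) 0) (fun t c => funext fun i => by
    simp only [Ju.dl, mul_left_comm]) (fun c => h.dl c) m c
  rwa [map_zero, map_zero, show Ju.dl (wC (iA A)) 0 c = c from funext fun i => by
    by_cases q : i.1 ∈ A <;> simp [Ju.dl, wC, iA, q, hc i.1]] at this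

theorem Rl.cp (h : Rl P) (v : α → ℕ) (m : ℕ) : Rl (cp (wC v) m P) :=
  MvPolynomial.ext _ _ fun γ => by
    have := congrArg (coeff γ) h
    rw [coeff_map] at this ⊢
    rw [coeff_weightedHomogeneousComponent]
    split_ifs <;> simp [this]

theorem hom_cp {u : α × Fin GD.d → ℕ} (h : P.IsWeightedHomogeneous u n) (v : α → ℕ) (m : ℕ) :
    (cp (wC v) m P).IsWeightedHomogeneous u n := fun γ hγ => h fun e => hγ (by
  rw [coeff_weightedHomogeneousComponent, e, ite_self])

theorem sum_cp (v : α → ℕ) (P : Cp α) : ∃ d, P = ∑ m ∈ range d, cp (wC v) m P :=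
  let ⟨d, h⟩ := ex_Wd (wC v) P
  ⟨d + 1, (tc_eq h).symm.trans (LinearMap.sum_apply ..)⟩

/-! ### Lifts -/

section
variable (hp : ∀ c, p c ∈ Jt.Pk R m0 s) (hi : ∀ c, dd (p c) = 0 → c = 0)
include hp hi

theorem ex_lift (h1 : Iv P) (h2 : Rl P) (h3 : P.IsHomogeneous n) : ∃ Q, Lf p n P Q :=
  let ⟨_, a, b⟩ := ex_dir (true, 0)
  let ⟨_, _, h⟩ := ex_dual (fun c => (hp c).1) hi a b
  ⟨_, lf_lf h h1 h2 h3⟩

theorem ex_null (hR : 1 ≤ R) (hA : ∀ c, Jt.Mo R m0 (p c) = 0 → ∀ a ∈ A, c a = 0) (h1 : Iv P)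
    (h2 : Rl P) (h3 : P.IsHomogeneous (n + 1)) (h4 : Zr A P) :
    ∃ Q ∈ Nl, Lf p (n + 1) P Q := by
  classical
  choose ν a1 a2 using ex_dir
  choose l l1 l2 using fun i => ex_dual (fun c => (hp c).1) hi (a1 i) (a2 i)
  choose! t ht using fun a (ha : a ∈ A) => ex_cur hR hp fun c h => hA c h a ha
  have k : ∀ j, ∃ Q ∈ Nl, Lf p (n + 1) (cp (wC (iA A)) j P) Q := fun j => by
    rcases j.eq_zero_or_pos with rfl | j0
    · refine ⟨0, zero_mem _, ?_⟩
      obtain ⟨d, h⟩ := ex_Wd (wC (iA A)) P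
      rw [show cp (wC (iA A)) 0 P = 0 from MvPolynomial.funext fun c => by
        simpa [sum_range_succ', h4.dl] using (eval_dl h 0 c).symm]
      exact .zero p _
    obtain ⟨Y, hY⟩ : ∃ Y, Y = cp (wC (iA A)) j P := ⟨_, rfl⟩
    have y1 : Iv Y := hY ▸ h1.cp _ _
    have y2 : Rl Y := hY ▸ h2.cp _ _
    have y3 : Y.IsHomogeneous (n + 1) := hY ▸ hom_cp h3 _ _
    have y4 : Y.IsWeightedHomogeneous (wC (iA A)) j :=
      hY ▸ weightedHomogeneousComponent_isWeightedHomogeneous _ _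
    refine ⟨∑ q : α × Bool × Fin 4, ((iA A q.1 * t q.1 q.2 / j : ℝ) : ℂ) • sd (l q.2) q.2 q.1 Y,
      sum_mem fun q _ => Nl.smul_mem _ (nl_sd (l1 q.2)),
      .sum fun q _ => (iv_sd y1).smul _, ?_, .sum _ _ _ fun q _ =>
        (homogeneousSubmodule _ ℂ _).smul_mem _ (hom_sd y3), fun c => ?_⟩
    · simp only [Rl, map_sum, cj_smul, Complex.conj_ofReal,
        show ∀ q : α × Bool × Fin 4, map _ (sd (l q.2) q.2 q.1 Y) = _ from fun _ => rl_sd y2]
    · have j1 : (j : ℂ) ≠ 0 := by exact_mod_cast j0.ne'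
      have e := congrArg (eval c) y4.sum_weight_X_mul_pderiv
      simp only [map_sum, nsmul_eq_mul, map_mul, map_natCast, eval_X] at e
      rw [← hY, ← mul_right_inj' j1, ← e, pa_ap, vl_sum, mul_sum, Fintype.sum_prod_type,
        Fintype.sum_prod_type]
      refine sum_congr rfl fun a _ => ?_
      by_cases ha : a ∈ A
      · have q : ∀ k, c (a, k) = ∑ i, (t a i : ℂ) * cm (jf i) (av (emF p c)) k := fun k => by
          have q1 := ht a ha fun a => (c (a, k)).re
          have q2 := ht a ha fun a => (c (a, k)).im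
          apply Complex.ext <;> simp [cm_av, q1, q2]
        simp only [vl_smul, vl_sd, cm_dual (l2 _), dot, wC, iA, ha, if_true, q, sum_mul, mul_sum]
        rw [sum_comm]
        refine sum_congr rfl fun k _ => sum_congr rfl fun i _ => ?_
        push_cast
        rw [show gd a Y (cur c) k = eval c (pderiv (a, k) Y) from rfl]
        field_simp
      · simp [wC, iA, ha, vl]
  obtain ⟨d, hd⟩ := sum_cp (iA A) P
  rw [hd]
  exact sum_induction _ (fun P => ∃ Q ∈ Nl, Lf p (n + 1) P Q)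
    (fun _ _ ⟨Q, a, b⟩ ⟨Q', a', b'⟩ => ⟨Q + Q', add_mem a a', b.add b'⟩)
    ⟨0, zero_mem _, .zero p _⟩ fun j _ => k j

end

end Pool.Agent.Lib.MP_7f377f_mp.RG.Tl
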