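import Pool.Agent.Lib.MP_7f377f_mp.G.JuT4

/-! The symbol of a letter; triangular families of letters; translations of letters. -/

noncomputable section

set_option linter.unusedSectionVars false
variable [Pool.Agent.Lib.MP_7f377f_mp.GD]

namespace Pool.Agent.Lib.MP_7f377f_mp.RG.Tl

open Finset MvPolynomial Wd Q4 Ju Submodule

attribute [local irreducible] box lbox

section defs

variable {α α' β : Type} [Fintype α] [DecidableEq α] [Fintype α'] [DecidableEq α']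

/-- the abelian symbol of a letter in the coordinates `p` -/
def sm (p : (α → ℝ) →ₗ[ℝ] V) : Pl →ₐ[ℂ] Cp α :=
  aeval fun q => ∑ a, ((fx (p (Pi.single a 1)) 0 q.1.1 : ℝ) : ℂ) • X (a, q.2)

/-- polynomials without terms of weight below `m` -/
def Lo (w : α → ℕ) (m : ℕ) : Submodule ℂ (Cp α) := ⨅ j < m, LinearMap.ker (cp (wC w) j)

/-- polynomials which vanish where the coordinates in `A` vanish -/
def Zs (A : Set α) : Submodule ℂ (Cp α) where
  carrier := {P | Zr A P}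
  add_mem' h h' c e := by rw [map_add, h c e, h' c e, add_zero]
  zero_mem' _ _ := map_zero _
  smul_mem' t _ h c e := by rw [smul_eval, h c e, mul_zero]

/-- invariant polynomials -/
def Is (κ : Type) : Submodule ℂ (Cp κ) where
  carrier := {P | Iv P}
  add_mem' := Iv.add
  zero_mem' _ _ := by simp [vl]
  smul_mem' t _ h := h.smul t

/-- real invariant homogeneous letters -/
def Gl (Q : Pl) : Prop := Iv Q ∧ Rl Q ∧ ∃ n, Q.IsHomogeneous (n + 1)

/-- coordinates on the polynomial fields; `A` is the set of the currents -/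
structure Clc (w : α → ℕ) (p : (α → ℝ) →ₗ[ℝ] V) (A : Set α) : Prop where
  hw : ∀ a, w a ≠ 0
  hp : ∃ s, ∀ c, p c ∈ Jt.Pk 1 m0 s
  hi : ∀ c, dd (p c) = 0 → c = 0
  hA : ∀ c, Jt.Mo 1 m0 (p c) = 0 ↔ ∀ a ∈ A, c a = 0

/-- the second system of coordinates has new coordinates of weight above `m` -/
structure Emb (w : α → ℕ) (w' : α' → ℕ) (p : (α → ℝ) →ₗ[ℝ] V) (p' : (α' → ℝ) →ₗ[ℝ] V) (A : Set α)
    (A' : Set α') (m : ℕ) (ι : α → α') : Prop where
  inj : Function.Injective ι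
  wt : ∀ a, w' (ι a) = w a
  new : ∀ a ∉ Set.range ι, m < w' a
  mem : A' ⊆ ι '' A
  cmp : ∀ c, (∀ a ∉ Set.range ι, c a = 0) → p' c = p (c ∘ ι)

/-- the parts of weight `m` of the symbols of the letters in `S` are a basis; those in `Nl`
span the null symbols -/
structure Bs (w : α → ℕ) (p : (α → ℝ) →ₗ[ℝ] V) (A : Set α) (m : ℕ) (S : Set Pl) : Prop where
  low : ∀ Q ∈ S, sm p Q ∈ Lo w m
  ind : LinearIndepOn ℂ (fun Q => cp (wC w) m (sm p Q)) S
  spn : ∀ P, Iv P → P.IsWeightedHomogeneous (wC w) m → eval 0 P = 0 →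
    P ∈ span ℂ ((fun Q => cp (wC w) m (sm p Q)) '' S)
  nul : ∀ P, Iv P → P.IsWeightedHomogeneous (wC w) m → Zr A P →
    P ∈ span ℂ ((fun Q => cp (wC w) m (sm p Q)) '' (S ∩ Nl))

/-- the same for symbols which are homogeneous -/
structure Bh (w : α → ℕ) (p : (α → ℝ) →ₗ[ℝ] V) (A : Set α) (m : ℕ) (S : Set Pl) : Prop where
  gl : ∀ Q ∈ S, Gl Q ∧ (sm p Q).IsWeightedHomogeneous (wC w) m
  ind : LinearIndepOn ℂ (sm p) S
  spn : ∀ P, Iv P → P.IsWeightedHomogeneous (wC w) m → eval 0 P = 0 → P ∈ span ℂ (sm p '' S)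
  nul : ∀ P, Iv P → P.IsWeightedHomogeneous (wC w) m → Zr A P → P ∈ span ℂ (sm p '' (S ∩ Nl))

/-- the symbols of the letters `P b` with `m b ≤ d` are a basis of the invariant symbols -/
structure Fr (w : α → ℕ) (p : (α → ℝ) →ₗ[ℝ] V) (A : Set α) (d : ℕ) (m : β → ℕ) (P : β → Pl) :
    Prop where
  low : ∀ b, m b ≤ d → sm p (P b) ∈ Lo w (m b)
  ind : LinearIndepOn ℂ (fun b => tc (wC w) d (sm p (P b))) {b | m b ≤ d}
  spn : ∀ Q ∈ Q4.Iv w d, eval 0 Q = 0 →
    Q ∈ span ℂ ((fun b => tc (wC w) d (sm p (P b))) '' {b | m b ≤ d})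
  zer : ∀ Q ∈ Nl, Zr A (sm p Q)
  nul : ∀ Q ∈ Q4.Iv w d, Zr A Q →
    Q ∈ span ℂ ((fun b => tc (wC w) d (sm p (P b))) '' {b | m b ≤ d ∧ P b ∈ Nl})

/-- the letters of all weights -/
structure Fb (S : ℕ → Set Pl) : Type where
  m : ℕ
  P : Pl
  mem : P ∈ S m

/-- the letter moved by one step -/
def mv (d : Dr) : Pl →ₐ[ℂ] Pl := rename fun p => (las d p.1, p.2)

end defs

variable {α α' β : Type} [Fintype α] [DecidableEq α] [Fintype α'] [DecidableEq α']
  {p : (α → ℝ) →ₗ[ℝ] V} {p' : (α' → ℝ) →ₗ[ℝ] V} {n m d R : ℕ} {P : Cp α} {Q : Pl} {A : Set α}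
  {A' : Set α'} {w : α → ℕ} {w' : α' → ℕ} {ι : α → α'} {S : Set Pl}

/-! ### The symbol -/

theorem vl_sm (ξ : α → C3) (Q : Pl) : vl ξ (sm p Q) =
    vl (fun w => ∑ a, ((fx (p (Pi.single a 1)) 0 w.1 : ℝ) : ℂ) • ξ a) Q := by
  induction Q using MvPolynomial.induction_on with
  | C a => simp [sm, vl]
  | add p q h h' => rw [map_add, vl_add, vl_add, h, h']
  | mul_X p i h =>
    rw [map_mul, vl_mul, vl_mul, h, vl_X, sm, aeval_X]
    simp only [vl_sum, vl_smul, vl_X, Finset.sum_apply, Pi.smul_apply, smul_eq_mul]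

theorem eval_sm (c : Cr α) (Q : Pl) : eval c (sm p Q) = pa Q (emF p c) := by
  rw [pa_ap]
  refine (vl_sm (cur c) Q).trans (congrArg (vl · Q) (funext₂ fun w k => ?_))
  have e : ∀ x : α → ℝ, fx (p x) 0 w.1 = ∑ a, fx (p (Pi.single a 1)) 0 w.1 * x a := fun x => by
    nth_rw 1 [← univ_sum_single x]
    refine (map_sum (fxL 0 w.1 ∘ₗ p) _ _).trans (sum_congr rfl fun a _ => ?_)
    rw [← mul_one (x a), ← smul_eq_mul, Pi.single_smul, map_smul, smul_eq_mul, smul_eq_mul,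
      mul_one, mul_comm]
    rfl
  have := cm_av (p := p) (Finsupp.single w 1) c k
  simp only [cm, fl_ap, Finsupp.sum_single_index, Complex.ofReal_zero, zero_smul, zero_mul,
    Complex.ofReal_one, one_smul, one_mul] at this
  rw [this, e, e (fun a => (c (a, k)).im)]
  apply Complex.ext <;> simp [cur, Finset.sum_apply]

theorem Lf.sm (h : Lf p n P Q) : sm p Q = P :=
  MvPolynomial.funext fun c => (eval_sm c Q).trans (h.sym c)

theorem Iv.sm {Q : Pl} (h : Iv Q) : Iv (sm p Q) := fun g ξ => by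
  simp only [vl_sm, ← adq_smul, ← adq_sum, h g]

theorem Rl.sm {Q : Pl} (h : Rl Q) : Rl (sm p Q) := by
  have : ∀ Q : Pl, map (starRingEnd ℂ) (Tl.sm p Q) = Tl.sm p (map (starRingEnd ℂ) Q) := fun Q => by
    induction Q using MvPolynomial.induction_on with
    | C a => simp [Tl.sm]
    | add p q h h' => simp only [map_add, h, h']
    | mul_X p i h =>
      rw [map_mul, map_mul, h, map_mul, map_mul, map_X, Tl.sm, aeval_X]
      simp only [map_sum, cj_smul, Complex.conj_ofReal, map_X]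
  rw [Rl, this, h]

theorem hom_sm (h : Q.IsHomogeneous n) : (sm p Q).IsHomogeneous n := by
  have := h.aeval (fun q : Lp × Fin GD.d =>
    (∑ a, ((fx (p (Pi.single a 1)) 0 q.1.1 : ℝ) : ℂ) • X (a, q.2) : Cp α)) fun q =>
      .sum _ _ 1 fun _ _ => (homogeneousSubmodule _ ℂ 1).smul_mem _ (isHomogeneous_X _ _)
  rwa [one_mul] at this

theorem hom_zero {κ : Type} {P : Cp κ} (h : P.IsHomogeneous (n + 1)) : eval 0 P = 0 := by
  rw [MvPolynomial.eval_zero, constantCoeff_eq]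
  exact h.coeff_eq_zero (by simp)

theorem Clc.zer (h : Clc w p A) (hQ : Q ∈ Nl) : Zr A (sm p Q) := fun c hc => by
  rw [eval_sm]
  refine hQ.2 _ fun i => funext fun k => ?_
  rw [cm_av, fl_jf, fl_jf, ← Mo_m0 le_rfl, ← Mo_m0 le_rfl, (h.hA _).2 fun a ha => by simp [hc a ha],
    (h.hA _).2 fun a ha => by simp [hc a ha]]
  simp

/-! ### Triangular families -/

attribute [local irreducible] sm

theorem mem_Lo : P ∈ Lo w m ↔ ∀ j < m, cp (wC w) j P = 0 := by simp [Lo]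

theorem cp_cp (j : ℕ) : cp (wC w) j (cp (wC w) m P) = if j = m then cp (wC w) m P else 0 :=
  weightedHomogeneousComponent_of_mem (weightedHomogeneousComponent_mem _ _ _)

theorem tc_in {T : Submodule ℂ (Cp α)} (hT : ∀ P ∈ T, ∀ j, cp (wC w) j P ∈ T) (h : P ∈ T) :
    tc (wC w) d P ∈ T := by
  rw [tc, LinearMap.sum_apply]
  exact sum_mem fun j _ => hT P h j

theorem tri_ind {E : β → Cp α} {m : β → ℕ} (h1 : ∀ b, m b ≤ d → E b ∈ Lo w (m b))
    (h2 : ∀ j ≤ d, LinearIndepOn ℂ (fun b => cp (wC w) j (E b)) {b | m b = j}) :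
    LinearIndepOn ℂ (fun b => tc (wC w) d (E b)) {b | m b ≤ d} := by
  refine linearIndepOn_iff'.2 fun t g ht e => ?_
  suffices ∀ j, ∀ i ∈ t, m i = j → g i = 0 from fun i hi => this _ i hi rfl
  intro j
  induction j using Nat.strong_induction_on with
  | _ j ih =>
    intro i hi hj
    have jd : j ≤ d := hj ▸ ht hi
    refine linearIndepOn_iff'.1 (h2 j jd) (t.filter (m · = j)) g (fun b hb => (mem_filter.1 hb).2) ?_
      i (mem_filter.2 ⟨hi, hj⟩)
    have := congrArg (cp (wC w) j) e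
    simp only [map_sum, map_smul, cp_tc, if_pos jd, map_zero] at this
    rw [← this]
    refine sum_filter_of_ne fun b hb q => by_contra fun z => q ?_
    rcases Nat.lt_or_gt_of_ne z with y | y
    · rw [ih _ y b hb rfl, zero_smul]
    · rw [mem_Lo.1 (h1 b (ht hb)) j y, smul_zero]

theorem tri_span {E : β → Cp α} {m : β → ℕ} {B : Set β} {T : Submodule ℂ (Cp α)}
    (hT : ∀ P ∈ T, ∀ j, cp (wC w) j P ∈ T) (h0 : ∀ b ∈ B, E b ∈ T)
    (h1 : ∀ b, m b ≤ d → E b ∈ Lo w (m b))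
    (h2 : ∀ j ≤ d, ∀ P ∈ T, P.IsWeightedHomogeneous (wC w) j →
      P ∈ span ℂ ((fun b => cp (wC w) j (E b)) '' {b | m b = j ∧ b ∈ B}))
    (hP : P ∈ T) (hd : P ∈ Ju.Wd (wC w) d) :
    P ∈ span ℂ ((fun b => tc (wC w) d (E b)) '' {b | m b ≤ d ∧ b ∈ B}) := by
  suffices ∀ j ≤ d + 1, ∀ P ∈ T ⊓ Ju.Wd (wC w) d ⊓ Lo w j, P ∈ span ℂ _ from
    this 0 (by omega) P ⟨⟨hP, hd⟩, mem_Lo.2 (by simp)⟩
  intro j hj
  induction hj using Nat.decreasingInduction with
  | self =>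
    intro P h
    rw [← tc_eq h.1.2, tc, LinearMap.sum_apply,
      sum_eq_zero fun j hj => mem_Lo.1 h.2 j (mem_range.1 hj)]
    exact zero_mem _
  | of_succ j hj ih =>
    intro P h
    have jd : j ≤ d := by omega
    have e := h2 j jd _ (hT P h.1.1 j) (weightedHomogeneousComponent_isWeightedHomogeneous _ _)
    rw [show (fun b => cp (wC w) j (E b)) = cp (wC w) j ∘ fun b => tc (wC w) d (E b) from
      funext fun b => by simp [cp_tc, jd], Set.image_comp, span_image] at e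
    obtain ⟨Y, y1, y2⟩ := e
    have y3 : Y ∈ T ⊓ Ju.Wd (wC w) d ⊓ Lo w j := span_le.2 (by
      rintro _ ⟨b, ⟨rfl, hb⟩, rfl⟩
      exact ⟨⟨tc_in hT (h0 b hb), tc_mem _ _ _⟩, mem_Lo.2 fun i hi => by
        rw [cp_tc, mem_Lo.1 (h1 b jd) i hi, ite_self]⟩) y1
    have := ih (P - Y) ⟨(sub_mem h y3).1, mem_Lo.2 fun i hi => by
      rcases Nat.lt_succ_iff_lt_or_eq.1 hi with q | rfl
      · exact mem_Lo.1 (sub_mem h y3).2 i q
      · rw [map_sub, y2, sub_self]⟩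
    exact sub_add_cancel P Y ▸ add_mem this
      (span_mono (Set.image_mono fun b hb => And.intro (hb.1.trans_le jd) hb.2) y1)

theorem zr_univ : Zr Set.univ P ↔ eval 0 P = 0 :=
  ⟨fun h => h 0 fun _ _ _ => rfl, fun h c hc => by
    rwa [show c = 0 from funext fun i => hc i.1 trivial i.2]⟩

theorem iz_cp (w : α → ℕ) (A : Set α) : ∀ P ∈ Is α ⊓ Zs A, ∀ j, cp (wC w) j P ∈ Is α ⊓ Zs A :=
  fun _ q j => ⟨Iv.cp q.1 w j, Zr.cp q.2 w j⟩

/-- bases in all weights give a frame -/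
theorem fr_of {S : ℕ → Set Pl} (c : Clc w p A) (g : ∀ m, ∀ Q ∈ S m, Gl Q)
    (h : ∀ m ≤ d, Bs w p A m (S m)) : Fr w p A d (Fb.m (S := S)) Fb.P := by
  have l : ∀ b : Fb S, b.m ≤ d → sm p b.P ∈ Lo w b.m := fun b q => (h _ q).low _ b.mem
  have i : ∀ j (T : Set Pl), (fun Q => cp (wC w) j (sm p Q)) '' (S j ∩ T) ⊆
      (fun b : Fb S => cp (wC w) j (sm p b.P)) '' {b | b.m = j ∧ b ∈ {b | b.P ∈ T}} := by
    rintro j T _ ⟨Q, q, rfl⟩
    exact ⟨⟨j, Q, q.1⟩, ⟨rfl, q.2⟩, rfl⟩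
  refine ⟨l, tri_ind l fun j hj => ?_, fun Q q z => ?_, fun _ => c.zer, fun Q q z => ?_⟩
  · have := LinearIndepOn.comp_of_image (s := {b : Fb S | b.m = j}) (f := Fb.P)
      ((h j hj).ind.mono (by rintro _ ⟨b, rfl, rfl⟩; exact b.mem))
      (by
        rintro ⟨m, P, _⟩ a ⟨m', P', _⟩ b e
        obtain rfl : m = m' := Eq.trans a (Eq.symm b)
        obtain rfl : P = P' := e
        rfl)
    exact this
  · have := tri_span (B := {b : Fb S | b.P ∈ Set.univ}) (iz_cp w Set.univ)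
      (fun b _ => ⟨(g _ _ b.mem).1.sm, (g _ _ b.mem).2.2.elim fun n hn =>
        zr_univ.2 (hom_zero (hom_sm hn))⟩) l (fun j hj P q1 q2 => span_mono (i j _) (by
          rw [Set.inter_univ]; exact (h j hj).spn P q1.1 q2 (zr_univ.1 q1.2)))
      ⟨(mem_iv.1 q).2, zr_univ.2 z⟩ (mem_iv.1 q).1
    exact span_mono (Set.image_mono fun b hb => hb.1) this
  · exact tri_span (B := {b : Fb S | b.P ∈ (Nl : Set Pl)}) (iz_cp w A)
      (fun b q => ⟨(g _ _ b.mem).1.sm, c.zer q⟩) l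
      (fun j hj P q1 q2 => span_mono (i j _) ((h j hj).nul P q1.1 q2 q1.2)) ⟨(mem_iv.1 q).2, z⟩
      (mem_iv.1 q).1

/-! ### Bases -/

theorem hom_cj {u : α × Fin GD.d → ℕ} (h : P.IsWeightedHomogeneous u n) :
    (map (starRingEnd ℂ) P).IsWeightedHomogeneous u n :=
  fun γ hγ => h fun e => hγ (by rw [coeff_map, e, map_zero])

theorem Zr.cj (h : Zr A P) : Zr A (map (starRingEnd ℂ) P) := fun c hc => by
  have := vl_star (star (cur c)) P
  rw [star_star, show vl _ P = 0 from h _ fun a ha k => by simp [cur, hc a ha], map_zero] at this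
  exact this

/-- real homogeneous parts -/
theorem dec {T : Set (Cp α)} (h1 : Iv P) (h2 : P.IsWeightedHomogeneous (wC w) m) (h3 : Zr A P)
    (hT : ∀ Y n, Iv Y → Rl Y → Y.IsHomogeneous (n + 1) → Y.IsWeightedHomogeneous (wC w) m →
      Zr A Y → Y ∈ span ℂ T) : P ∈ span ℂ T := by
  obtain ⟨d, hd⟩ := sum_cp 1 P
  rw [hd]
  refine sum_mem fun j _ => ?_
  rcases j with _ | j
  · rw [weightedHomogeneousComponent_zero _ (by simp [wC]), ← constantCoeff_eq,
      ← MvPolynomial.eval_zero, h3 0 fun _ _ _ => rfl, map_zero]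
    exact zero_mem _
  obtain ⟨Y, hY⟩ : ∃ Y, Y = cp (wC 1) (j + 1) P := ⟨_, rfl⟩
  have y : Y ∈ Is α ⊓ Zs A ⊓ (homogeneousSubmodule _ ℂ (j + 1) ⊓
      weightedHomogeneousSubmodule ℂ (wC w) m) := hY ▸ ⟨iz_cp 1 A P ⟨h1, h3⟩ _,
    weightedHomogeneousComponent_isWeightedHomogeneous _ _, hom_cp h2 _ _⟩
  have y' : map (starRingEnd ℂ) Y ∈ Is α ⊓ Zs A ⊓ (homogeneousSubmodule _ ℂ (j + 1) ⊓
      weightedHomogeneousSubmodule ℂ (wC w) m) :=
    ⟨⟨Iv.conj y.1.1, Zr.cj y.1.2⟩, hom_cj y.2.1, hom_cj y.2.2⟩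
  have a := add_mem y y'
  have b := smul_mem _ Complex.I (sub_mem y y')
  have e : Y = (2⁻¹ : ℂ) • (Y + map (starRingEnd ℂ) Y) +
      (-Complex.I / 2) • Complex.I • (Y - map (starRingEnd ℂ) Y) := by
    rw [smul_smul, show -Complex.I / 2 * Complex.I = 2⁻¹ by
      linear_combination (-2⁻¹ : ℂ) * Complex.I_mul_I]
    module
  rw [← hY, e]
  exact add_mem (smul_mem _ _ (hT _ j a.1.1 (by rw [Rl, map_add, cj_cj, add_comm]) a.2.1 a.2.2 a.1.2))
    (smul_mem _ _ (hT _ j b.1.1 (by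
      rw [Rl, cj_smul, map_sub, cj_cj, Complex.conj_I, neg_smul, ← smul_neg, neg_sub])
      b.2.1 b.2.2 b.1.2))

theorem Clc.ex (c : Clc w p A) (m : ℕ) : ∃ S, Bh w p A m S := by
  obtain ⟨s, hp⟩ := c.hp
  obtain ⟨S0, a1, -, a2, a3⟩ := exists_linearIndepOn_extension (K := ℂ) (v := sm p)
    (t := {Q | Gl Q ∧ (sm p Q).IsWeightedHomogeneous (wC w) m} ∩ Nl) (linearIndepOn_empty _ _)
    (Set.empty_subset _)
  obtain ⟨S, b1, b2, b3, b4⟩ := exists_linearIndepOn_extension a3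
    (a1.trans Set.inter_subset_left)
  refine ⟨S, b1, b4, fun P h1 h2 h3 => dec h1 h2 (zr_univ.2 h3) fun Y n y1 y2 y3 y4 _ => ?_,
    fun P h1 h2 h3 => dec h1 h2 h3 fun Y n y1 y2 y3 y4 y5 => ?_⟩
  · obtain ⟨Q, q⟩ := ex_lift hp c.hi y1 y2 y3
    exact b3 ⟨Q, ⟨⟨q.iv, q.rl, n, q.hom⟩, q.sm.symm ▸ y4⟩, q.sm⟩
  · obtain ⟨Q, z, q⟩ := ex_null hp c.hi le_rfl (fun x => (c.hA x).1) y1 y2 y3 y5
    exact span_mono (Set.image_mono fun Q h => And.intro (b2 h) (a1 h).2)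
      (a2 ⟨Q, ⟨⟨⟨q.iv, q.rl, n, q.hom⟩, q.sm.symm ▸ y4⟩, z⟩, q.sm⟩)

theorem var_le (h : P.IsWeightedHomogeneous (wC w) m) {q : α × Fin GD.d} (hq : q ∈ P.vars) :
    w q.1 ≤ m :=
  let ⟨_, a, b⟩ := (mem_vars q).1 hq
  h (mem_support_iff.1 a) ▸ Finsupp.le_weight_of_ne_zero' (wC w) (Finsupp.mem_support_iff.1 b)

theorem Zr.low (h : Zr A P) (hA : ∀ a ∈ A, m < w a) : Ju.cp (wC w) m P = 0 :=
  MvPolynomial.funext fun c => by
    refine (vl_congr (ξ := cur c) (ξ' := cur (Ju.dl (wC (iA A)) 0 c)) fun q hq => funext fun k =>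
      ?_).trans ((h.cp w m).dl c)
    have := var_le (weightedHomogeneousComponent_isWeightedHomogeneous _ _) hq
    simp [cur, Ju.dl, wC, iA, show q.1 ∉ A from fun z => (hA _ z).not_ge this]

namespace Emb

variable (E : Emb w w' p p' A A' m ι)
include E

theorem inj' : Function.Injective fun q : α × Fin GD.d => (ι q.1, q.2) :=
  E.inj.prodMap Function.injective_id

theorem hom : (rename (fun q : α × Fin GD.d => (ι q.1, q.2)) P).IsWeightedHomogeneous (wC w') n ↔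
    P.IsWeightedHomogeneous (wC w) n := by
  have e : ∀ γ : α × Fin GD.d →₀ ℕ, Finsupp.weight (wC w') (γ.mapDomain fun q => (ι q.1, q.2)) =
      Finsupp.weight (wC w) γ := fun γ => by
    rw [Finsupp.weight_apply, Finsupp.sum_mapDomain_index (by simp) (by simp [add_mul])]
    simp only [wC, E.wt, Finsupp.weight_apply]
  refine ⟨fun h γ q => e γ ▸ h (by rwa [coeff_rename_mapDomain _ E.inj']), fun h γ q => ?_⟩
  obtain ⟨γ, rfl, z⟩ := coeff_rename_ne_zero _ _ _ q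
  exact e γ ▸ h z

theorem lead (h : (sm p Q).IsWeightedHomogeneous (wC w) m) {j : ℕ} (hj : j ≤ m) :
    cp (wC w') j (sm p' Q) =
      if j = m then rename (fun q : α × Fin GD.d => (ι q.1, q.2)) (sm p Q) else 0 := by
  rw [← weightedHomogeneousComponent_of_mem (E.hom.2 h), ← sub_eq_zero, ← map_sub]
  refine Zr.low (A := (Set.range ι)ᶜ) (fun c hc => ?_) fun a ha => hj.trans_lt (E.new a ha)
  rw [map_sub, eval_rename, eval_sm, eval_sm, sub_eq_zero]
  refine congrArg _ (funext₂ fun e k => ?_)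
  simp only [emF, LinearMap.comp_apply, cz_ap]
  rw [E.cmp _ fun a ha => by simp [cur, hc a ha], E.cmp _ fun a ha => by simp [cur, hc a ha]]
  rfl

theorem ex {P : Cp α'} (h1 : Iv P) (h2 : P.IsWeightedHomogeneous (wC w') m) :
    ∃ Y : Cp α, rename (fun q : α × Fin GD.d => (ι q.1, q.2)) Y = P ∧ Iv Y ∧
      Y.IsWeightedHomogeneous (wC w) m := by
  obtain ⟨Y, rfl⟩ := exists_rename_eq_of_vars_subset_range P _ E.inj' fun q hq => by
    obtain ⟨a, ha⟩ : q.1 ∈ Set.range ι := by_contra fun z => (E.new _ z).not_ge (var_le h2 hq)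
    exact ⟨(a, q.2), Prod.ext ha rfl⟩
  refine ⟨Y, rfl, fun g ξ => ?_, E.hom.1 h2⟩
  obtain ⟨ξ, rfl⟩ := E.inj.surjective_comp_right ξ
  simpa only [vl_rename, Function.comp_def] using h1 g ξ

theorem bs (h : Bh w p A m S) : Bs w' p' A' m S := by
  have e : ∀ Q ∈ S, cp (wC w') m (sm p' Q) =
      (rename fun q : α × Fin GD.d => (ι q.1, q.2)).toLinearMap (sm p Q) := fun Q q => by
    rw [E.lead (h.gl Q q).2 le_rfl, if_pos rfl]; rfl
  have i : ∀ T ⊆ S, ∀ Y ∈ span ℂ (sm p '' T), rename (fun q : α × Fin GD.d => (ι q.1, q.2)) Y ∈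
      span ℂ ((fun Q => cp (wC w') m (sm p' Q)) '' T) := fun T hT Y y => by
    rw [Set.image_congr fun Q q => e Q (hT q), ← Set.image_image, span_image]
    exact mem_map_of_mem y
  refine ⟨fun Q q => mem_Lo.2 fun j hj => by rw [E.lead (h.gl Q q).2 hj.le, if_neg hj.ne],
    (h.ind.map_injOn _ (rename_injective _ E.inj').injOn).congr fun Q q => (e Q q).symm,
    fun P h1 h2 h3 => ?_, fun P h1 h2 h3 => ?_⟩ <;> obtain ⟨Y, rfl, y1, y2⟩ := E.ex h1 h2
  · exact i _ le_rfl Y (h.spn Y y1 y2 (by rwa [eval_rename] at h3))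
  · refine i _ Set.inter_subset_left Y (h.nul Y y1 y2 fun c hc => ?_)
    obtain ⟨c, rfl⟩ := E.inj'.surjective_comp_right c
    rw [← eval_rename]
    refine h3 c fun a ha k => ?_
    obtain ⟨a, z, rfl⟩ := E.mem ha
    exact hc a z k

end Emb

/-! ### Frames -/

namespace Fr

variable {m : β → ℕ} {P : β → Pl} (F : Fr w p A d m P)
include F

theorem li : LinearIndependent ℂ fun b : {b // m b ≤ d} => Sy.mk (wC w) d (sm p (P b)) :=
  .of_comp Sy.val F.ind

theorem fin (hw : ∀ a, w a ≠ 0) : Finite {b // m b ≤ d} :=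
  have := Sy.fin (wC_ne hw) d
  F.li.finite_of_isNoetherian

theorem deg (hw : ∀ a, w a ≠ 0) {b : β} (hb : m b ≤ d) (h : (P b).IsHomogeneous n) : n ≤ d := by
  obtain ⟨γ, q⟩ := exists_coeff_ne_zero (F.ind.ne_zero hb)
  rw [coeff_tc] at q
  split_ifs at q with z
  · rw [← hom_sm h q]
    refine le_trans ?_ z
    simp only [Finsupp.weight_apply]
    exact sum_le_sum fun i _ => nsmul_le_nsmul_right (Nat.pos_of_ne_zero (hw i.1)) _
  · exact absurd rfl q

end Fr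

/-! ### Translations -/

theorem pG_mv (h : Iv Q) (d : Dr) (U : Conf) : pG (mv d Q) U = pG Q (sh (dv d) U) := by
  rw [pG_ap, pG_ap, mv, vl_rename (las d)]
  refine (congrArg (vl · Q) (funext fun w => ?_)).trans (h (stp Inv.inv U 0 d) _)
  simp only [hv_cC, wh_las, wh_sh, cS_mul, cS_inv, co_conj (uni_cS _)]

theorem pa_mv (Q : Pl) (d : Dr) (B : Fld) : pa (mv d Q) B = pa Q (sh (dv d) B) := by
  rw [pa_ap, pa_ap, mv, vl_rename (las d)]
  exact congrArg (vl · Q) (funext fun w => by rw [av, av, fx_las, fx_sh])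

theorem Iv.mv {Q : Pl} (h : Iv Q) (d : Dr) : Iv (mv d Q) := h.rename (las d)

theorem Rl.mv {Q : Pl} (h : Rl Q) (d : Dr) : Rl (mv d Q) := by rw [Rl, Tl.mv, map_rename, h]

theorem Rd.mv (h : Rd R Q) (d : Dr) : Rd (R + 2) (mv d Q) := fun p hp => by
  classical
  obtain ⟨q, hq, rfl⟩ := mem_image.1 (vars_rename _ _ hp)
  simpa [las] using h q hq

theorem hom_mv (h : Q.IsHomogeneous n) (d : Dr) : (mv d Q).IsHomogeneous n :=
  h.rename_isHomogeneous

theorem Gl.mv (h : Gl Q) (d : Dr) : Gl (mv d Q) :=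
  ⟨h.1.mv d, h.2.1.mv d, h.2.2.imp fun _ q => hom_mv q d⟩

theorem Gl.act (h : Gl Q) (g : B4) : Gl (act g Q) :=
  ⟨h.1.act g, h.2.1.act g, h.2.2.imp fun _ q => hom_act q g⟩

end Pool.Agent.Lib.MP_7f377f_mp.RG.Tl
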