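import Pool.Agent.Lib.MP_7f377f_mp.G.JvA
import Pool.Agent.Lib.MP_7f377f_mp.G.CaI2

/-! Families of data in the norm with the larger weight: insertions. -/

noncomputable section

open Pool.Agent.Lib.MP_7f377f_mp.Jet

set_option linter.unusedSectionVars false
variable [Pool.Agent.Lib.MP_7f377f_mp.GD]

namespace Pool.Agent.Lib.MP_7f377f_mp.RG.Q4.En

open Finset Function Sg Real Pos Mg
open scoped Classical

attribute [local irreducible] box lbox tb tau rc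

variable {ι : Type} [DecidableEq ι]

namespace Gl.Ok

variable {G : Gl} {A : Finset ι} {θ δ x : ℝ} {a J k : ℕ} {z : Z} {Y : Fy ι} {r r0 : ι → ℝ}
  {f f' : (ι → ℂ) → Conf → ℂ} {K : (ι → ℂ) → Ac} {H : ι → St → Conf → ℂ} {Ψ : ι → Lx} (h : G.Ok)
include h

theorem QA_le (a k : ℕ) {i j : ℕ} (e : i < j) :
    1000 * (G.QA a k ^ j)⁻¹ ≤ (G.QA a k ^ i)⁻¹ := by
  have q := h.QA0 a k
  have q1 := h.QA1 a k
  rw [← div_eq_mul_inv, div_le_iff₀ (pow_pos q _), le_inv_mul_iff₀ (pow_pos q _)]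
  calc _ ≤ G.QA a k ^ i * G.QA a k := by gcongr
    _ = G.QA a k ^ (i + 1) := by ring
    _ ≤ _ := pow_le_pow_right₀ (by linarith) e

theorem psA (a k : ℕ) : Ps0 (G.pA a k) :=
  (h.ps0 k).ad (mul_nonneg (by positivity) (log_natCast_nonneg _))

theorem exp_pA (a k : ℕ) : exp (G.pA a k).a = G.QA a k ^ 2 := by
  have := h.L1 k
  have e : (G.pA a k).a = log (G.QA a k ^ 2) := by
    change 2 * log ((G.L k : ℝ) ^ G.K) + _ = _
    simp only [QA, log_pow]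
    push_cast
    ring
  rw [e, exp_log (pow_pos (h.QA0 a k) _)]

theorem vA (a k : ℕ) (x0 : 0 ≤ x) (δ1 : δ ≤ 2) :
    x * exp ((G.pA a k).a + δ) * (2 * (G.p k).D + 1) ^ 4 ≤ 9 * G.QA a k ^ 3 * x := by
  have q := h.QA0 a k
  have e : exp δ ≤ 9 := (exp_le_exp.2 (δ1.trans_eq one_add_one_eq_two.symm)).trans (by
    rw [exp_add]; nlinarith [exp_one_lt_three, exp_pos 1])
  rw [exp_add, h.exp_pA]
  calc _ ≤ x * (G.QA a k ^ 2 * 9) * G.QA a k := by
        gcongr; exact (h.DQ k).trans (h.QA_ge a k)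
    _ = _ := by ring

theorem smA (a k : ℕ) (δ1 : δ ≤ 2) (hx : x ≤ (G.QA a k ^ 329)⁻¹) :
    8 * (exp (4 * ((G.pA a k).a + δ)) * x) * (2 * (G.p k).D + 1) ^ 4 ≤ 1 / 6 := by
  have q := h.QA0 a k
  have e : exp δ ≤ 9 := (exp_le_exp.2 (δ1.trans_eq one_add_one_eq_two.symm)).trans (by
    rw [exp_add]; nlinarith [exp_one_lt_three, exp_pos 1])
  have a1 := h.QA_le a k (i := 0) (j := 319) (by norm_num)
  have a2 := h.QA_le a k (i := 319) (j := 320) (by norm_num)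
  rw [pow_zero, inv_one] at a1
  rw [show 4 * ((G.pA a k).a + δ) = (4 : ℕ) * ((G.pA a k).a + δ) by norm_num, exp_nat_mul, exp_add,
    h.exp_pA]
  calc _ ≤ 8 * ((G.QA a k ^ 2 * exp δ) ^ 4 * (G.QA a k ^ 329)⁻¹) * (2 * (G.p k).D + 1) ^ 4 := by
        gcongr
    _ ≤ 8 * ((G.QA a k ^ 2 * 9) ^ 4 * (G.QA a k ^ 329)⁻¹) * G.QA a k := by
        gcongr; exact (h.DQ k).trans (h.QA_ge a k)
    _ = 52488 * (G.QA a k ^ 320)⁻¹ := by field_simp; norm_num
    _ ≤ _ := by linarith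

/-- one unit of the weight gives room -/
theorem kN_sl {n : ℕ} {m : Mj} (u : kN (G.pA (a + 1) k) n m θ) (δ1 : δ ≤ 2) :
    kN ((G.pA a k).ad δ) n m θ := by
  have : 1 ≤ log (G.L k) := by
    rw [le_log_iff_exp_le (by linarith [h.L1 k])]
    linarith [exp_one_lt_three, h.L1 k]
  rw [pA, ad_ad]
  exact kN_drop u (by push_cast; linarith)

theorem QA_sl (a k C : ℕ) : 1000 * (G.QA (a + 1) k ^ (C + 1))⁻¹ ≤ (G.QA a k ^ (C + 1))⁻¹ := by
  have q := h.QA0 a k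
  have l := h.L1 k
  have e : G.QA (a + 1) k = G.QA a k * G.L k := pow_succ _ _
  rw [← div_eq_mul_inv, div_le_iff₀ (pow_pos (h.QA0 _ _) _), le_inv_mul_iff₀ (pow_pos q _), e,
    mul_pow]
  gcongr
  exact l.trans (le_self_pow₀ (by linarith) C.succ_ne_zero)

theorem big_sl (e : G.Big (a + 1) k) : G.Big a k :=
  ⟨by have := e.1; omega, (Nat.pow_le_pow_right (Nat.pow_pos (Nat.log_pos (by norm_num)
    (by have := h.L_big k; omega))) (by omega)).trans e.2⟩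

/-- insertion of local functions of the block field, in the stronger norm -/
theorem insA (tz : G.Tz J k z) (F : G.Fd k z A r0 r θ Y f) (h0 : ∀ x, r0 x ≤ r x)
    (u : G.KA (a + 1) k r (G.QA (a + 1) k ^ 329)⁻¹ Y.K) (hc : Cls (G.N k) δ A id Y.Z)
    (hm : 7 * ((G.p k).D : ℝ) ≤ δ) (L : ∀ q ∈ A, Lt (G.p k) (G.N k) (H q) (Ψ q))
    (pu : ∀ q ∈ A, ∃ x y u, PM (G.p k) x y u (Ψ q))
    (hZ : ∀ q y, rc (G.N k) y ∉ Y.Z q → H q y = 0 ∧ Ψ q y = 0)
    (bd : ∀ q ∈ A, ∀ y U, r q * ‖H q y U‖ ≤ (G.QA a k ^ 340)⁻¹) (hf : HD r0 f')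
    (e : ∀ U, Per (G.N k) U → ∀ T ⊆ A, jd T (f' · U) = ∑ N ∈ T.powerset,
      (∏ q ∈ N, ∑ y ∈ box (G.N k / 2), H q y U) * jd (T \ N) (f · U)) :
    G.Fd k z A r0 r (G.QA a k ^ 329)⁻¹ (Y.ins (G.p k) (G.N k) A H Ψ) f' ∧
      G.KA a k r (G.QA a k ^ 329)⁻¹ (Y.ins (G.p k) (G.N k) A H Ψ).K ∧
      (Y.ins (G.p k) (G.N k) A H Ψ).bs = Y.bs ∧ ∀ q ∈ A, (Y.ins (G.p k) (G.N k) A H Ψ).jt {q} =
        Y.jt {q} + (Ψ q, i1 (G.p k) (G.N k) (Y.K 0) (H q)) := by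
  have q := h.QA0 a k
  have hn := h.N_odd k
  have D0 := h.D_pos k
  have hr := F.fi.pos
  have p0 := F.eq.fst.pos
  have q0 := inv_pos.2 (pow_pos q 340)
  have q1 := inv_pos.2 (pow_pos q 329)
  have q2 := h.QA_le a k (show 329 < 337 by norm_num)
  have q3 := h.QA_sl a k 328
  have q4 := h.QA_inv a k 329
  obtain ⟨k0, k1, k2⟩ := u
  replace k1 := k1.mono (show _ ≤ (G.QA a k ^ 329)⁻¹ / 8 by linarith)
  have fa : FA r (G.p k) (G.N k) k0 Y.K := ⟨hr, F.fi.sa r, k2⟩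
  have fb := fa_iF fa (sqrt_nonneg _) k1.1 L hc (by linarith) (fun q y a => (hZ q y a).1) bd q0.le
    (inv_le_one_of_one_le₀ (one_le_pow₀ (by linarith [h.QA1 a k])))
  have lb := loc_iF (p := G.p k) (A := A) hn F.fi.loc fun q y a => (hZ q y a).1
  have k3 := kN_kP (p := (G.pA a k).ad 1) (P := (· ≠ 0)) (δ := 1 / 6)
    (v := 2 * (G.QA a k ^ 340)⁻¹) (θ' := 18 * (G.QA a k ^ 337)⁻¹) ((h.psA a k).ad zero_le_one) hn
    (h.RD k) (by norm_num) (by rw [ad_ad]; exact h.kN_sl k1 (by norm_num)) (by positivity) le_rfl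
    (by positivity) (((h.vA a k (δ := 1 + 1 / 6) (mul_pos two_pos q0).le (by norm_num)).trans_eq'
      (by simp only [Pa.ad, add_assoc]; rfl)).trans_eq (by field_simp; norm_num))
    (fun m a => ⟨a, .inl (by linarith)⟩) (h.smA a k one_le_two (by linarith))
  rw [mul_right_comm 4, mul_div_assoc, div_self (by positivity), mul_one] at k3
  have v : G.KA a k r _ (Y.ins (G.p k) (G.N k) A H Ψ).K :=
    h.trK_KA (m := 1) (ρ := 1) (ψ := Y.ψ) (fa_add fa fb) ⟨F.fi.loc.psi,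
      fun i X c hX => (F.fi.loc.act i X c hX).comp₂ (lb.act i X c hX) (· + ·)⟩
      ((h.kN_sl k1 one_le_two).add k3) hc (by norm_num; linarith) zero_le_one (by
        rw [one_add_one_eq_two, Nat.cast_one]; linarith [log_two_lt_d9]) hr fun _ => (one_mul _).ge
  replace v := v.mono (fun _ => le_rfl) (show _ ≤ (G.QA a k ^ 329)⁻¹ by linarith)
  obtain ⟨a1, a2⟩ := h.ins tz (F.mono p0 h0 le_rfl) ⟨k0, (by
    have := h.kN_sl (a := 0) (δ := 1 / 4) (kN_drop (p := G.p k) k1 (by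
      have := log_natCast_nonneg (G.L k)
      gcongr; omega)) (by norm_num)
    simp only [pA, Nat.cast_zero, mul_zero, zero_mul, ad_zero] at this
    exact this.mono (by linarith)), fun s hs => k2 s fun i => (hs i).trans_le (h0 i)⟩ hc hm L pu hZ
    (fun q hq y U => ((mul_le_mul_of_nonneg_right (h0 q) (norm_nonneg _)).trans
      (bd q hq y U)).trans (h.QA_inv a k _)) hf e
  exact ⟨a1.rad hr v, v, a2⟩

end Gl.Ok

end Pool.Agent.Lib.MP_7f377f_mp.RG.Q4.En
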