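import Pool.Agent.Lib.MP_7f377f_mp.G.MgE

/-! Merging of sources: the main statement. -/

noncomputable section

open Pool.Agent.Lib.MP_7f377f_mp.Jet

set_option linter.unusedSectionVars false
variable [Pool.Agent.Lib.MP_7f377f_mp.GD]

namespace Pool.Agent.Lib.MP_7f377f_mp.RG.Q4.En

open Finset Function Sg Real Pos Mg
open scoped Classical

attribute [local irreducible] box lbox tb tau rc

variable {ι Ω α : Type} [DecidableEq ι] [DecidableEq Ω]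

namespace Mg

/-- `f'` is the density with the words of `D` in the cells, `f` is the density with the letters -/
structure Md (D : Wd St ι Ω) (a : ι → ℂ) (w : Ω → ℂ) (n : ℕ) (r : ι → ℝ)
    (f f' : (ι → ℂ) → Conf → ℂ) : Prop where
  hd : HD r f'
  eq : ∀ U, Per n U → ∀ T ⊆ D.B, jd T (f' · U) = ∑ N ∈ D.Om.powerset, if Tv D.cl N T then
    (∏ ω ∈ N, w ω) * jd (D.lt N T)
      (fun s => Complex.exp (-∑ x ∈ N.biUnion D.A, s x * a x) * f s U) else 0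

/-- the constant factor of a word -/
def eta (D : Wd St ι Ω) (E : (ι → ℂ) → ℂ) (a : ι → ℂ) (ω : Ω) (s : ι → ℂ) (_ : Conf) : ℂ :=
  Complex.exp (tr (D.A ω) E s - E 0 - ∑ x ∈ D.A ω, s x * a x)

/-- the entire extension of the local terms -/
def ent (A : Finset ι) (ψ : (ι → ℂ) → Lx) : (ι → ℂ) → Lx := ma A fun T => jL T ψ

end Mg

namespace Gl

variable (G : Gl) (D : Wd St ι Ω) (b : ℝ) (J : ℕ) (Y : Fy ι) (i k : ℕ) (a : ι → ℂ)

/-- the insertion of the word `ω` at level `k` -/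
def ins (ω : Ω) : Ac := Ins (G.p k) (G.N k) D (ent D.al (G.fw D.al b J Y i k).ψ)
  (G.fw D.al b J Y i k).K (eta D (G.fw D.al b J Y i k).E a) ω

/-- the family of the cells at level `k` -/
def mg (w : Ω → ℂ) (Zc : ι → Finset St) : Fy ι where
  ψ s := (G.fw D.al b J Y i k).ψ (cutS D.B s)
  K := trK D.B (K2 (G.p k) (G.N k) D (ent D.al (G.fw D.al b J Y i k).ψ) (G.fw D.al b J Y i k).K
    (eta D (G.fw D.al b J Y i k).E a) w)
  E s := (G.fw D.al b J Y i k).E (cutS D.B s)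
  Z := Zc

/-- the letters enter at level `i` as the family `Y` and the words merge at level `k`; `W` and `Zc`
are the regions of the cells at the levels `i` and `k` -/
structure Mh (c : ℕ) (C : ℝ) (r0 : ι → ℝ) (r : ℕ → ι → ℝ) (m : ℕ → ℕ) (f : (ι → ℂ) → Conf → ℂ)
    (W Zc : ι → Finset St) : Prop where
  lt : k < i
  le : i ≤ J
  c1 : 1 ≤ c
  C0 : 0 ≤ C
  geo : D.Ok (box (G.N k / 2))
  wd : ∀ ω ∈ D.Om, tb (G.N k) ((G.p k).R + 3) (D.Z0 ω) ⊆ D.X0 ω ∧ D.X0 ω ⊆ Zc (D.cl ω) ∧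
    (D.A ω).card ≤ c ∧ tau (G.N k) (G.p k).D (D.X0 ω) ≤ c
  zA : ∀ ω ∈ D.Om, ∀ x ∈ D.A ω, G.zs (Y.Z x) i k ⊆ D.Z0 ω ∧ Y.Z x ⊆ W (D.cl ω) ∧
    r (k + 1) x * ‖jd {x} (G.fw D.al b J Y i (k + 1)).E - a x‖ ≤ C
  zB : ∀ x ∈ D.B, Y.Z x ⊆ W x ∧ G.zs (W x) i k ⊆ Zc x
  cel : ∀ j, k < j → j < i → 400 * (1 + m j : ℝ) ^ c ≤ G.Q j ∧
    Cls (G.N j) ((2 * c * m j + 2) * (G.p j).D) D.B id fun x => G.zs (W x) i j
  las : 400 * 2 ^ c ≤ G.Q k ∧ Cls (G.N k) ((2 * c + 5) * (G.p k).D) D.B id Zc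
  fw : ∀ N, D.Tr N → G.Fw3 (D.ad N) b J i (k + 1) r0 r m Y
  fd : ∀ N, D.Tr N → G.Fd i (G.zz b J i) (D.ad N) r0 (r i) (G.Q i ^ 329)⁻¹ (Y.cut (D.ad N))
    (fun s => f (cutS (D.ad N) s)) ∧ Y.Ec (D.ad N) id
  bs : Y.bs = (G.zz b J i).d
  um : Um D (G.p i) 0 (G.N i) (r i) (G.Q i ^ 329)⁻¹ Y.K
  loc : Loc (G.N i) Y.Z Y.ψ Y.K

/-- the size of an insertion -/
def cM (k c : ℕ) (C : ℝ) : ℝ := exp (c * C + c + 2) * G.Q k ^ (2 * c)

variable {G D b J Y i k a} {c j l : ℕ} {C Wt θ : ℝ} {r0 r2 σ : ι → ℝ} {r : ℕ → ι → ℝ} {m : ℕ → ℕ}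
  {f f' : (ι → ℂ) → Conf → ℂ} {W Zc : ι → Finset St} {N : Finset Ω} {A T : Finset ι} {s : ι → ℂ}
  {w : Ω → ℂ} {ω : Ω} {z : En.Z}

theorem tt_fsum {t : Finset α} {g : α → Conf → ℂ} (h : ∀ x ∈ t, BC (g x)) (hk : k ≤ i) :
    BC (fun U => ∑ x ∈ t, g x U) ∧
      G.tt (fun U => ∑ x ∈ t, g x U) i k = fun U => ∑ x ∈ t, G.tt (g x) i k U := by
  induction t using Finset.cons_induction with
  | empty => exact ⟨⟨measurable_const, 0, by simp⟩, by simpa using tt_mul (G := G) 0 0 hk⟩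
  | cons x t _ ih =>
    obtain ⟨a1, a2⟩ := ih fun y hy => h y (mem_cons_of_mem hy)
    have a3 := h x (mem_cons_self ..)
    simp only [sum_cons]
    exact ⟨⟨a3.1.add a1.1, _, fun U => norm_add_le_of_le (a3.2.choose_spec U) (a1.2.choose_spec U)⟩,
      by rw [tt_add a3 a1 hk, a2]⟩

theorem ec_cut {κ : Type} {cl : ι → κ} (h : Y.Ec A cl) : (Y.cut A).Ec A cl :=
  fun T hT x hx y hy e => (jd_cut hT).trans (h T hT x hx y hy e)

theorem Fw3.cut (h : G.Fw3 A b J i l r0 r m Y) : G.Fw3 A b J i l r0 r m (Y.cut A) :=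
  ⟨fun k h1 h2 x hx => cut_jt (Y := Y) (singleton_subset_iff.2 hx) ▸ h.sz k h1 h2 x hx, h.sep, h.rad⟩

theorem hb_lin (hr : ∀ x, 0 < σ x) (A : Finset ι) (a : ι → ℂ) :
    Hb σ fun s => Complex.exp (-∑ x ∈ A, s x * a x) := (Hb.refl ⟨_, sh_lin hr A a⟩ (A := ∅)).neg.exp.fst

theorem lin_cut (e : A ⊆ T) : ∑ x ∈ A, cutS T s x * a x = ∑ x ∈ A, s x * a x :=
  sum_congr rfl fun x hx => by rw [cutS, if_pos (e hx)]

theorem Ok.md_tt (h : G.Ok) (e : Md D a w (G.N i) r2 f f') (hk : k ≤ i)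
    (hf : ∀ N, D.Tr N → HD r0 fun s => f (cutS (D.ad N) s)) :
    Md D a w (G.N k) r2 (fun s => G.tt (f s) i k) fun s => G.tt (f' s) i k := by
  refine ⟨tt_hd e.hd hk, fun U hU T hT => ?_⟩
  have u : ∀ N ∈ D.Om.powerset, ∀ {f : (ι → ℂ) → ℂ}, jd (D.lt N T) (fun s => Complex.exp
      (-∑ x ∈ N.biUnion D.A, s x * a x) * f s) = jd (D.lt N T) fun s => Complex.exp
      (-∑ x ∈ N.biUnion D.A, s x * a x) * f (cutS (D.ad N) s) := fun N _ f => by
    rw [← jd_cut (lt_sub hT)]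
    exact congrArg _ (funext fun s => by rw [lin_cut (T := D.ad N) subset_union_left])
  have v := fun N (hN : D.Tr N) => (hb_lin (hf N hN).pos (N.biUnion D.A) a).hd.mul (hf N hN)
  rw [jd_tt e.hd hk, h.tt_congr (fun U hU => (e.eq U hU T hT).trans (sum_congr rfl fun N hN => by
    rw [u N hN])) hk U hU, (tt_fsum (fun N hN => ?_) hk).2]
  · refine sum_congr rfl fun N hN => ?_
    rw [u N hN]
    split_ifs with a
    · have := jd_tt (G := G) (v N ⟨mem_powerset.1 hN, a.1⟩) hk (D.lt N T) U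
      simp only [tt_mul _ _ hk] at this ⊢
      rw [this]
    · simpa using congrFun (tt_mul (G := G) 0 0 hk) U
  · split_ifs with a
    · have := v N ⟨mem_powerset.1 hN, a.1⟩
      exact ⟨(this.meas_jd _).const_mul _, _, fun U => norm_mul_le_of_le le_rfl
        ((this.1.choose_spec U).jd_le _)⟩
    · exact ⟨measurable_const, 0, by simp⟩

theorem Ok.pu_last (h : G.Ok) (t : G.Ad J k z) {φ : Lx} {L : Ac} (e : G.Sz (k + 1)
    (G.bb (k + 1) / G.Q (k + 1) ^ 222) (G.bb (k + 1) / G.Q (k + 1) ^ 222) (G.Q (k + 1) ^ 100)⁻¹ φ L) :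
    PU (G.p k) (G.Q k ^ 210)⁻¹ (stp (G.sd k z) (G.kp k z) φ L) := by
  have q := h.Q0 k
  have q' := h.Q0 (k + 1)
  have g0 := h.g0 k
  have g1 := h.g0 (k + 1)
  have i1 := h.inv_up k.le_succ 100
  have hω := mul_le_mul_of_nonneg_left i1 (pow_pos q 100).le
  rw [mul_inv_cancel₀ (pow_pos q _).ne'] at hω
  obtain ⟨u, hu⟩ : ∃ u, u = G.bb (k + 1) / G.Q (k + 1) ^ 222 := ⟨_, rfl⟩
  rw [← hu] at e
  have u0 := (h.sz_nn e).1
  have a := (PM.add (h.ρ0 k) (lin_step (h.sd_all k z).nu (h.st2 t.tz) (h.sz_sd e z) (h.sg_le _)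
    hω).1 (h.src_ps t.tz t.lt t.v t.kp).1).1
  have w := qom (h.sd_all k z).nu hω (i := 50) (by norm_num)
  obtain ⟨k0, k1, k2⟩ := (h.sz_sl (h.gd_top (b := G.bb k) (J := k) (by
    rw [div_self (h.b0 k).ne']; norm_num)).dt.sz z).2
  rw [h.sl_nf] at k1 k2
  have s : G.Sz k (3 * u + G.Q k ^ 2) (u + 1) (G.Q k ^ 100)⁻¹ (stp (G.sd k z) (G.kp k z) φ L) _ :=
    ⟨PM.mono (h.ρ0 k) a (by change 1000 * (G.Q k ^ 50 * _) ≤ 1 at w; change u + G.Q k ^ 50 * _ * _ + _ ≤ _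
                            nlinarith) (by change G.Q k ^ 2 * _ + _ ≤ _; nlinarith [sq_nonneg (G.Q k)]) (by
      change G.Q k ^ 50 * _ * _ * G.g (k + 1) ^ 2 + _ ≤ _
      calc _ ≤ G.Q k ^ 50 * (G.Q k ^ 100)⁻¹ * u * G.g k ^ 2 +
            G.Q k ^ 50 * (G.Q k ^ 100)⁻¹ * G.g k ^ 2 / 1 := by
            gcongr
            exacts [by linarith, h.g_succ k, h.sg_le k, by norm_num]
        _ = _ := by ring), _, k1.smul 0, (k2.smul (norm_nonneg _)).mono (by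
      rw [norm_zero, zero_mul]; positivity)⟩
  refine pu_mono (h.sz_pu s (mul_inv_cancel₀ (pow_pos q _).ne').le) ?_
  have a1 : u * G.g k ^ 2 ≤ 2 * (G.Q k ^ 222)⁻¹ := by
    rw [hu, div_eq_mul_inv, mul_right_comm]
    refine mul_le_mul ?_ (h.inv_up k.le_succ _) (by positivity) zero_le_two
    nlinarith [h.b_succ k, h.bg k, sq_nonneg (G.g k)]
  have a2 := mul_le_mul_of_nonneg_left (h.g_le k) (pow_pos q 12).le
  have a3 := mul_le_mul_of_nonneg_left (h.g_le k) (pow_pos q 10).le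
  rw [h.pw_inv k (j := 3988) rfl] at a2
  rw [h.pw_inv k (j := 3990) rfl] at a3
  have a4 := mul_le_mul_of_nonneg_left a1 (pow_pos q 10).le
  rw [mul_left_comm _ 2, h.pw_inv k (j := 212) rfl] at a4
  linarith [h.inv_le k (show 210 < 212 by norm_num), h.inv_le k (show 212 < 3988 by norm_num),
    h.inv_le k (show 212 < 3990 by norm_num), inv_pos.2 (pow_pos q 212)]

namespace Mh

variable (M : G.Mh D b J Y i k a c C r0 r m f W Zc)
include M

theorem card (ω) (h : ω ∈ D.Om) : (D.A ω).card ≤ c := (M.wd ω h).2.2.1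

theorem zW (x) (hx : x ∈ D.al) : Y.Z x ⊆ W (D.ce x) := by
  rcases mem_union.1 hx with h | h
  · obtain ⟨ω, h, e⟩ := mem_biUnion.1 h
    exact ce_A M.geo h e ▸ (M.zA ω h x e).2.1
  · rw [ce_B M.geo h]; exact (M.zB x h).1

theorem zC (x) (hx : x ∈ D.al) : G.zs (Y.Z x) i k ⊆ Zc (D.ce x) :=
  (zs_mono (M.zW x hx) k M.lt.le).trans (M.zB _ (ce_mem M.geo hx)).2

variable (h : G.Ok) (t : G.Tu b J) (hp : G.Pu)
include h t hp

theorem ad (hj : j < i) : G.Ad J j (G.zz b J (j + 1)) :=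
  h.ad t (hj.trans_le M.le) (h.pu_all t hp j (hj.trans_le M.le))

/-- the subfamilies above the level of the merging -/
theorem up (hN : D.Tr N) (hj : j ≤ i) (hk : k < j) : G.Fd j (G.zz b J j) (D.ad N) r0 (r j)
      (G.Q j ^ 329)⁻¹ ((G.fw D.al b J Y i j).cut (D.ad N))
      (fun s => G.tt (f (cutS (D.ad N) s)) i j) ∧ (G.fw D.al b J Y i j).bs = (G.zz b J j).d ∧
      (∀ x ∈ D.ad N, (G.fw D.al b J Y i j).jt {x} = G.tn b J (Y.jt {x}) i j) ∧
      ((G.fw D.al b J Y i j).cut (D.ad N)).Ec (D.ad N) id ∧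
      ∀ s ∈ Pd (r j), G.Sz j (G.bb j / G.Q j ^ 222) (G.bb j / G.Q j ^ 222) (G.Q j ^ 100)⁻¹
        ((G.fw D.al b J Y i j).ψ (cutS (D.ad N) s)) ((G.fw D.al b J Y i j).K (cutS (D.ad N) s)) := by
  have := h.chainG t hp M.le (M.fw N hN).cut (M.fd N hN).1 (cut_bs.trans M.bs)
    (ec_cut (M.fd N hN).2) j hj hk
  rw [fw_cut (ad_sub hN.1) j hj, cut_bs] at this
  exact ⟨this.1, this.2.1, fun x hx => by
    simpa only [cut_jt (singleton_subset_iff.2 hx)] using this.2.2.1 x hx, this.2.2.2⟩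

theorem um_step {ρ d : ℝ} {μ : ℕ} {V : ι → Finset St} (hj : j < i) (hk : k ≤ j)
    (u : Um D (G.p (j + 1)) 0 (G.N (j + 1)) (r (j + 1)) (G.Q (j + 1) ^ 329)⁻¹
      (G.fw D.al b J Y i (j + 1)).K) (hV : ∀ x ∈ D.al, G.zs (Y.Z x) i j ⊆ V (D.ce x))
    (cl : Cls (G.N j) d D.B id V) (hm : (μ + 2 : ℝ) * (G.p j).D ≤ d) (ρ0 : 0 ≤ ρ) (hρ : 2 * c * ρ ≤ μ)
    (hQ : 400 * (1 + ρ) ^ c ≤ G.Q j) (hr : ∀ x, 0 < σ x) (e : ∀ x, σ x ≤ ρ * r (j + 1) x) :
    Um D (G.p j) (1 / 2) (G.N j) σ ((G.Q j ^ 329)⁻¹ / 20) (G.fw D.al b J Y i j).K := by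
  obtain ⟨k0, k1, k2⟩ := u
  have B := h.bl_big j (G.zz b J (j + 1))
  have T := h.th_big j (G.zz b J (j + 1))
  have st := h.st2 (M.ad h t hp hj).tz
  have q := h.Q0 j
  rw [ad_zero, ← h.sd_nf j (G.zz b J (j + 1))] at k1
  obtain ⟨k', a1, a2⟩ := st.K _ _ k0 B.b_le B.θ_le (by positivity) (k1.mono T.1)
  have l := fw_loc (A := D.al) (b := b) (J := J) h M.loc (j + 1) hj
  rw [← h.sd_nf j (G.zz b J (j + 1))] at l
  rw [fw_step hj]
  refine (um_trK M.geo (fun x hx => ?_) M.card M.c1 (h.ps0 j).D a1 (fun N hN => ?_)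
    (l.step (h.sd_all j _).nu) cl hm ρ0 hρ hr e).mono le_rfl ((T.2 _ (by positivity)).trans ?_)
  · rw [fw_Z _ hj, ← zs_step hj]
    exact hV x hx
  · obtain ⟨F, -, -, -, S⟩ := M.up h t hp hN hj (Nat.lt_succ_of_le hk)
    exact fa_KK st F.fi.pos (F.fi.sl _) (F.fi.sa _) (fun s hs => ⟨B.b_le, B.θ_le,
      h.pu_big (h.pu_fam (S s hs)), by rw [h.sd_nf]; exact k2 N hN s hs, k1.mono T.1⟩) a2
  · rw [div_eq_inv_mul _ 20]
    exact mul_le_mul_of_nonneg_right ((div_le_iff₀ q).2 (by linarith)) (by positivity)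

theorem um_up : ∀ j ≤ i, k < j →
    Um D (G.p j) 0 (G.N j) (r j) (G.Q j ^ 329)⁻¹ (G.fw D.al b J Y i j).K :=
  dw_ind (fun _ => by simpa only [fw_top] using M.um) fun j hj ih hk => by
    have R := (M.fw ∅ tr_empty).rad j hk hj.le
    exact (M.um_step h t hp (μ := 2 * c * m j) hj hk.le (ih (by omega)) (fun x hx =>
      zs_mono (M.zW x hx) j hj.le) (M.cel j hk hj).2 (by push_cast; rfl) (m j).cast_nonneg
      (by push_cast; rfl) (M.cel j hk hj).1 (M.up h t hp tr_empty hj.le hk).1.fi.pos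
      fun x => (R.2.2 x).2 hj).mono (by norm_num) (div_le_self
        (inv_pos.2 (pow_pos (h.Q0 j) _)).le (by norm_num))

/-- the subfamilies at the level of the merging -/
theorem low (hN : D.Tr N) : G.Fd k (G.zz b J k) (D.ad N) r0 (r (k + 1))
      (G.Q k ^ 329)⁻¹ ((G.fw D.al b J Y i k).cut (D.ad N))
      (fun s => G.tt (f (cutS (D.ad N) s)) i k) ∧ (G.fw D.al b J Y i k).bs = (G.zz b J k).d ∧
      (∀ x ∈ D.ad N, (G.fw D.al b J Y i k).jt {x} = G.tn b J (Y.jt {x}) i k) ∧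
      ((G.fw D.al b J Y i k).cut (D.ad N)).Ec (D.ad N) D.ce ∧ ∀ s ∈ Pd (r (k + 1)),
        PU (G.p k) (G.Q k ^ 210)⁻¹ ((G.fw D.al b J Y i k).ψ (cutS (D.ad N) s)) := by
  obtain ⟨F, a1, a2, a3, S⟩ := M.up h t hp hN M.lt k.lt_succ_self
  have ad := M.ad h t hp M.lt
  have D0 := h.D_pos k
  have cl : Cls (G.N k) ((c + 2) * (G.p k).D) (D.ad N) D.ce (G.fs (D.ad N) k (G.zz b J (k + 1))
      ((G.fw D.al b J Y i (k + 1)).cut (D.ad N))).Z := fun x hx y hy e => by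
    have := cls_ce M.geo M.zC hN.1 M.las.2 x hx y hy e
    simp only [fs, Fy.cut, fw_Z _ M.lt, ← zs_step M.lt]
    exact this.mono (by nlinarith) Subset.rfl Subset.rfl
  have b1 := h.fam1' ad F (fun x => (((M.fw N hN).rad _ le_rfl M.lt).2.2 x).1)
    (fun s hs => h.pu_big (h.pu_fam (S s hs))) cl (ce_card M.geo hN M.card M.c1)
    (by linarith [M.las.1, pow_pos (two_pos (α := ℝ)) c])
  have b2 := h.fs_ec ad.pu F (fun T hT x hx y hy e => a3 T hT x hx y hy fun a => e (congrArg _ a))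
    cl (by positivity)
  rw [fs_cut (ad_sub hN.1), ← fw_step M.lt] at b1 b2
  simp only [← tt_step _ M.lt, ← zz_step b ad.lt] at b1
  refine ⟨b1, by rw [fw_step M.lt, fs_bs, a1, zz_step b ad.lt]; rfl, fun x hx => ?_, b2,
    fun s hs => by rw [fw_step M.lt]; exact h.pu_last ad (S s hs)⟩
  have e := singleton_subset_iff.2 hx
  rw [← cut_jt e, fw_step M.lt, ← fs_cut (ad_sub hN.1), h.fs_jt ad.tz F.fi hx, cut_bs, cut_jt e, a1,
    a2 x hx, tn_step M.lt]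
  rfl

theorem ent_cut (hN : D.Tr N) (s : ι → ℂ) : ent D.al (G.fw D.al b J Y i k).ψ (cutS (D.ad N) s) =
    (G.fw D.al b J Y i k).ψ (cutS (D.ad N) s) :=
  (ma_cut _ (ad_sub hN.1)).trans ((congrFun (ma_congr fun _ hT => (jL_cut hT).symm) s).trans
    (congrFun (M.low h t hp hN).1.fi.psi s).symm)

omit M h t hp in
theorem tr_E {Y : Fy ι} {r : ι → ℝ} (F : G.Fd j z T r0 r θ (Y.cut T) f) (e : A ⊆ T) :
    tr A Y.E s = Y.E (cutS A s) := by
  rw [show cutS A s = cutS T (cutS A s) by rw [cut_comm, cut_cut e], Jet.tr, ← ma_cut _ e,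
    ← ma_congr fun T hT => jd_cut hT]
  exact (congrFun F.ma _).symm

omit t hp in
theorem z0_le (hω : ω ∈ D.Om) : ((D.Z0 ω).card : ℝ) ≤ G.Q k ^ 2 := by
  have g := M.geo.sub ω hω
  have a := (card_le_card g.1).trans ((card_le_tau (h.ps0 k).D fun x hx =>
    rc_eq (h.N_odd k) (g.2.2 hx)).trans (Nat.mul_le_mul_right _ (M.wd ω hω).2.2.2))
  have c2 : (c : ℝ) ≤ 2 ^ c := by exact_mod_cast c.lt_two_pow_self.le
  calc _ ≤ (c : ℝ) * (2 * (G.p k).D + 1) ^ 4 := by exact_mod_cast a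
    _ ≤ G.Q k * G.Q k := mul_le_mul (by linarith [M.las.1, c.cast_nonneg (α := ℝ)]) (h.DQ k)
      (by positivity) (h.Q0 k).le
    _ = _ := (sq _).symm

theorem eta_le (hω : ω ∈ D.Om) (hs : s ∈ Pd (r (k + 1))) (U : Conf) :
    ‖eta D (G.fw D.al b J Y i k).E a ω s U‖ ≤ exp (c * C + 1) := by
  have hN := tr_one hω
  have sA : D.A ω ⊆ D.ad {ω} := a_sub (mem_singleton_self ω)
  obtain ⟨F, -, -, a3, S⟩ := M.up h t hp hN M.lt k.lt_add_one
  have ad := M.ad h t hp M.lt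
  have q := h.Q0 k
  have cc : cutS (D.ad {ω}) (cutS (D.A ω) s) = cutS (D.A ω) s := by rw [cut_comm, cut_cut sA]
  have e2 := tr_E (s := s) F sA
  rw [Jet.tr, ma_lin fun T hT x hx y hy ne => (jd_cut (hT.trans sA)).symm.trans
    (a3 T (hT.trans sA) x hx y hy ne), jd_empty] at e2
  have l := fw_loc (A := D.al) (b := b) (J := J) h M.loc (k + 1) M.lt
  rw [← h.sd_nf k (G.zz b J (k + 1))] at l
  obtain ⟨k0, k1, k2⟩ := F.fi.km
  rw [← h.sd_nf k (G.zz b J (k + 1))] at k1 k2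
  have ey := fun s hs => ey_le ad.pu (h.pu_fam (S s hs)) (k2 s hs) k1
  refine (Complex.norm_exp_le_exp_norm _).trans (exp_le_exp.2 ?_)
  rw [tr_E (M.low h t hp hN).1 sA, fw_step M.lt]
  simp only [fs]
  rw [← e2, add_sub_add_comm, add_sub_cancel_left, add_sub_right_comm, ← sum_sub_distrib,
    ← sum_sub_distrib]
  refine norm_add_le_of_le ((norm_sum_le_of_le _ fun x hx => ?_).trans
    ((sum_le_card_nsmul _ _ C fun x hx => (M.zA ω hω x hx).2.2).trans ?_)) ?_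
  · rw [← mul_sub]
    exact norm_mul_le_of_le (hs x).le le_rfl
  · rw [nsmul_eq_mul]
    exact mul_le_mul_of_nonneg_right (Nat.cast_le.2 (M.card ω hω)) M.C0
  rw [← sum_subset (inter_subset_left (s₂ := D.Z0 ω)) fun y h1 h2 => sub_eq_zero.2 (ind_zero
    (g := fun s => (G.sd k _).Ey _ _ y) fun x hx => l.ey (h.sd_all k _).nu fun e => h2 ?_)]
  swap
  · rw [fw_Z _ M.lt, ← zs_step M.lt] at e
    exact mem_inter.2 ⟨h1, (M.zA ω hω x hx).1 (rc_eq (h.N_odd k) h1 ▸ e)⟩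
  refine (norm_sum_le_of_le _ (n := fun _ => 2 * (G.Q k * (G.Q (k + 1) ^ 211)⁻¹ +
    (G.Q (k + 1) ^ 329)⁻¹)) fun y _ => ?_).trans ?_
  · have a1 := ey _ (cut_mem (B := D.A ω) hs) y
    have a2 := ey 0 (zero_mem F.fi.pos) y
    simp only [Fy.cut, cc, cut_zero] at a1 a2
    exact (norm_sub_le_norm_sub_add_norm_sub _ _ _).trans
      ((add_le_add a1 ((norm_sub_rev _ _).trans_le a2)).trans_eq (two_mul _).symm)
  · have a1 := mul_le_mul_of_nonneg_left (h.inv_up k.le_succ 211) q.le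
    have a2 := (h.inv_up k.le_succ 329).trans ((inv_anti₀ (pow_pos q _) (pow_le_pow_right₀ (h.Q1 k)
      (show 211 ≤ 329 by norm_num))).trans (le_mul_of_one_le_left (by positivity) (h.Q1 k)))
    have a3 := h.inv_le k (i := 0) (j := 208) (by norm_num)
    have q' := h.Q0 (k + 1)
    rw [sum_const, nsmul_eq_mul]
    calc _ ≤ G.Q k ^ 2 * (4 * (G.Q k * (G.Q k ^ 211)⁻¹)) := mul_le_mul ((Nat.cast_le.2
          (card_le_card inter_subset_right)).trans (M.z0_le h hω)) (by linarith) (by positivity)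
          (by positivity)
      _ = 4 * (G.Q k ^ 208)⁻¹ := by field_simp
      _ ≤ 1 := by simp only [pow_zero, inv_one] at a3; linarith [inv_pos.2 (pow_pos q 208)]

theorem pos (x : ι) : 0 < r (k + 1) x := (M.low h t hp tr_empty).1.fi.pos x

theorem lc : Lc (G.N k) D (ent D.al (G.fw D.al b J Y i k).ψ) (G.fw D.al b J Y i k).K
    (eta D (G.fw D.al b J Y i k).E a) (r (k + 1)) (G.fw D.al b J Y i k).Z Zc := by
  have p := M.pos h t hp
  have l := fw_loc (A := D.al) (b := b) (J := J) h M.loc k M.lt.le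
  refine ⟨h.N_odd k, fun X c U => ?_, fun x B => ?_, fun ω U => ((((hb_ma p _).refl (A := ∅)).sub
    (eqv_const p _)).sub (Hb.refl ⟨_, sh_lin p _ a⟩)).exp.fst, ⟨fun x y hy => ?_, l.act⟩,
    fun ω h1 x h2 => ?_, fun x hx => ?_, fun ω _ x hx s t => funext fun U => ?_⟩
  · simp only [fw_step M.lt, fs, trK_eq]
    exact hb_ma p _
  · simp only [ent, ma_apply]
    exact hb_ma p _
  · refine ind_pi.2 fun B => ?_
    simp only [ent, ma_apply]
    exact (ind_pi.1 (l.psi x y hy) B).tr _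
  · rw [fw_Z _ M.lt.le]
    exact (M.zA ω h1 x h2).1
  · rw [fw_Z _ M.lt.le]
    exact (M.zC x (mem_union_right _ hx)).trans_eq (by rw [ce_B M.geo hx])
  · rw [eta, eta, Jet.tr, ma_upd hx, sum_congr rfl fun y hy => by
      rw [update_of_ne (ne_of_mem_of_not_mem hy hx)]]

theorem hyp : ∃ kk, kN ((G.p k).ad (1 / 2)) (G.N k) kk ((G.Q k ^ 329)⁻¹ / 20) ∧
    Hyp (G.p k) (G.N k) D (ent D.al (G.fw D.al b J Y i k).ψ) (G.fw D.al b J Y i k).K
      (eta D (G.fw D.al b J Y i k).E a) (r (k + 1)) kk (G.Q k ^ 210)⁻¹ 1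
      (fun _ => exp (c * C + 1)) Zc := by
  have p := M.pos h t hp
  obtain ⟨kk, k1, k2⟩ := M.um_step h t hp (μ := 2 * c + 3) M.lt le_rfl
    (M.um_up h t hp _ M.lt k.lt_add_one) M.zC M.las.2 (by push_cast; linarith) zero_le_one
    (by push_cast; linarith) (one_add_one_eq_two (R := ℝ) ▸ M.las.1) p fun _ => (one_mul _).ge
  have F := fun N hN => M.low h t hp (N := N) hN
  refine ⟨kk, k1, (h.sl_all k (G.top0 0 0)).nu.p_ok.1, sqrt_nonneg _, M.geo,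
    fun ω h => ⟨(M.wd ω h).1, (M.wd ω h).2.1⟩, k1.1, (inv_pos.2 (pow_pos (h.Q0 k) _)).le, le_rfl,
    fun _ => (exp_pos _).le, fun N a b => ⟨p, (F N ⟨a, b⟩).1.fi.sa _, k2 N ⟨a, b⟩⟩, fun N a b => ?_,
    fun N a b s hs => ?_, fun ω hω => ⟨fun _ _ => .const _, fun s hs x U =>
      ((M.lc h t hp).eη ω U).choose_spec.hol s hs x, fun s hs U _ => ?_⟩⟩
  · simp only [M.ent_cut h t hp ⟨a, b⟩]
    exact (F N ⟨a, b⟩).1.fi.sl _
  · rw [M.ent_cut h t hp ⟨a, b⟩]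
    exact (F N ⟨a, b⟩).2.2.2.2 s hs
  · rw [one_mul]
    exact ⟨M.eta_le h t hp hω hs U, fun _ => M.eta_le h t hp hω hs U⟩

omit t hp in
theorem vw_le {v : Ω → ℝ} (v0 : ∀ ω, 0 ≤ v ω) (p : ∀ x, 0 < r (k + 1) x) {δ : ℝ}
    (δ1 : δ ≤ 1) (hv : ∀ y, ∑ ω ∈ D.Om.filter (y ∈ D.X0 ·), v ω / ∏ x ∈ D.A ω, r (k + 1) x ≤ Wt)
    (y : St) : ∑ ω ∈ D.Om.filter (y ∈ D.X0 ·), v ω * vw D (r (k + 1)) (G.Q k ^ 210)⁻¹
      (fun _ => exp (c * C + 1)) ω * exp (((G.p k).a + δ) * tau (G.N k) (G.p k).D (D.X0 ω)) ≤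
      G.cM k c C * Wt := by
  have q := h.Q0 k
  refine le_trans (sum_le_sum fun ω hω => ?_) ((mul_sum _ _ _).ge.trans
    (mul_le_mul_of_nonneg_left (hv y) (mul_pos (exp_pos _) (pow_pos q _)).le))
  have hω := (mem_filter.1 hω).1
  have a1 := mul_le_mul_of_nonneg_left (M.z0_le h hω) (inv_pos.2 (pow_pos q 210)).le
  have a2 := h.inv_le k (i := 0) (j := 208) (by norm_num)
  have a3 : (tau (G.N k) (G.p k).D (D.X0 ω) : ℝ) ≤ c := Nat.cast_le.2 (M.wd ω hω).2.2.2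
  have a4 := mul_le_mul (add_le_add_right δ1 (G.p k).a) a3 (Nat.cast_nonneg _)
    (add_nonneg (h.ps0 k).a zero_le_one)
  rw [mul_comm _ (_ ^ 2), h.pw_inv k (j := 208) rfl] at a1
  rw [show (G.Q k ^ 0)⁻¹ = 1 by simp] at a2
  refine le_trans (le_of_eq (by rw [vw]; ring)) (mul_le_mul_of_nonneg_right (show exp (c * C + 1) *
    exp (2 * (G.Q k ^ 210)⁻¹ * (D.Z0 ω).card) * exp (((G.p k).a + δ) * tau (G.N k) (G.p k).D
      (D.X0 ω)) ≤ _ from ?_) (div_nonneg (v0 ω) (prod_nonneg fun x _ => (p x).le)))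
  rw [cM, ← exp_log (pow_pos q (2 * c)), log_pow, ← exp_add, ← exp_add, ← exp_add, exp_le_exp]
  change _ ≤ (2 * log (G.Q k) + 1) * c at a4
  push_cast
  nlinarith [inv_pos.2 (pow_pos q 208)]

omit M t hp in
theorem sm_le {δ x : ℝ} (δ1 : δ ≤ 1 / 2) (hx : x ≤ (G.Q k ^ 329)⁻¹) :
    8 * (exp (4 * ((G.p k).a + δ)) * x) * (2 * (G.p k).D + 1) ^ 4 ≤ 1 / 6 := by
  have q := h.Q0 k
  have a : exp (4 * ((G.p k).a + δ)) ≤ G.Q k ^ 8 * 9 := by
    change exp (4 * (2 * log (G.Q k) + δ)) ≤ _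
    rw [mul_add, exp_add, ← mul_assoc, show (4 * 2 : ℝ) = (8 : ℕ) by norm_num, exp_nat_mul,
      exp_log q]
    refine mul_le_mul_of_nonneg_left ((exp_le_exp.2 (show _ ≤ (1 + 1 : ℝ) by linarith)).trans ?_)
      (by positivity)
    rw [exp_add]
    nlinarith [exp_one_lt_three, exp_pos 1]
  have a2 := h.inv_le k (i := 0) (j := 320) (by norm_num)
  rw [show (G.Q k ^ 0)⁻¹ = 1 by simp] at a2
  calc _ ≤ 8 * (exp (4 * ((G.p k).a + δ)) * (G.Q k ^ 329)⁻¹) * (2 * (G.p k).D + 1) ^ 4 := by gcongr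
    _ ≤ 8 * (G.Q k ^ 8 * 9 * (G.Q k ^ 329)⁻¹) * G.Q k := by gcongr; exact h.DQ k
    _ = 72 * (G.Q k ^ 320)⁻¹ := by field_simp; norm_num
    _ ≤ _ := by linarith

/-- the free energy of a family of words -/
theorem en (hN : D.Tr N) (s : ι → ℂ) : (G.fw D.al b J Y i k).E (cutS (D.ad N) s) =
    ∑ ω ∈ N, (tr (D.A ω) (G.fw D.al b J Y i k).E (cutS (D.ad N) s) - (G.fw D.al b J Y i k).E 0) +
      (G.fw D.al b J Y i k).E (cutS D.B (cutS (D.ad N) s)) := by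
  obtain ⟨F, -, -, e, -⟩ := M.low h t hp hN
  have e' := fun T hT x hx y hy ne => (jd_cut hT).symm.trans (e T hT x hx y hy ne)
  have cA := fun ω (h : ω ∈ N) x => ce_A (i := x) M.geo (hN.1 h)
  have : cutS D.B (cutS (D.ad N) s) = cutS (D.B \ N.image D.cl) (cutS (D.ad N) s) := funext fun x => by
    by_cases a : x ∈ D.B
    · by_cases a' : x ∈ N.image D.cl <;> simp [cutS, a, a', Wd.ad,
        disjoint_right.1 (a_out M.geo hN.1) a]
    · simp [cutS, a]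
  rw [this, ← tr_E F subset_union_right, ← cut_cut (Subset.refl (D.ad N)), ← tr_E F Subset.rfl,
    cut_cut Subset.rfl, Jet.tr, Wd.ad, ma_union ((a_out M.geo hN.1).mono_right sdiff_subset)
      fun T hT x hx y hy a1 a2 => e' T hT x hx y hy ?_, ma_bi (fun ω a ω' a' =>
        M.geo.dis ω (hN.1 a) ω' (hN.1 a')) fun T hT x hx y hy ω a ω' a' ne a1 a2 => e' T
          (hT.trans subset_union_left) x hx y hy ?_, jd_empty]
  · simp only [Jet.tr]
    ring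
  · rw [cA ω a x a1, cA ω' a' y a2]
    exact fun e => ne (hN.2 a a' e)
  · obtain ⟨ω, a, a1⟩ := mem_biUnion.1 a1
    rw [cA ω a x a1, ce_B M.geo (mem_sdiff.1 a2).1]
    exact fun e => (mem_sdiff.1 a2).2 (e ▸ mem_image_of_mem _ a)

/-- the merging of the words -/
theorem merge (hr : ∀ x, r2 x ≤ r (k + 1) x) (e : Md D a w (G.N i) r2 f f')
    (hw : ∀ y, ∑ ω ∈ D.Om.filter (y ∈ D.X0 ·),
      ‖w ω‖ * r2 (D.cl ω) / ∏ x ∈ D.A ω, r (k + 1) x ≤ Wt) (sm : G.Q k ^ 330 * (G.cM k c C * Wt) ≤ 1) :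
    G.Fd k (G.zz b J k) D.B r2 r2 (G.Q k ^ 329)⁻¹ (G.mg D b J Y i k a w Zc)
      (fun s => G.tt (f' s) i k) ∧ (G.mg D b J Y i k a w Zc).bs = (G.zz b J k).d ∧
      (G.mg D b J Y i k a w Zc).Ec D.B id ∧ ∀ x ∈ D.B, (G.mg D b J Y i k a w Zc).jt {x} =
        G.tn b J (Y.jt {x}) i k + (0, ∑ ω ∈ D.Om.filter (D.cl · = x), w ω • G.ins D b J Y i k a ω) := by
  have q := h.Q0 k
  have p2 := e.hd.pos
  have p := M.pos h t hp
  have L := M.lc h t hp
  obtain ⟨kk, k1, H⟩ := M.hyp h t hp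
  obtain ⟨F, a1, a2, a3, -⟩ := M.low h t hp tr_empty
  have ec := M.ent_cut h t hp tr_empty
  rw [ad_empty] at F a2 a3 ec
  have q0 := inv_pos.2 (pow_pos q 330)
  have q1 := h.inv_le k (show 329 < 330 by norm_num)
  have f1 : Fi (G.p k) (G.N k) D.B Zc r2 (G.Q k ^ 329)⁻¹ (G.mg D b J Y i k a w Zc).ψ
      (G.mg D b J Y i k a w Zc).K := by
    have := H.fi (w := w) (m := 2 * c + 3) (δ := 1 / 6) (θ' := (G.Q k ^ 330)⁻¹) L (h.ps0 k) p2 hr
      (by simp only [ec]; exact F.fi) (by norm_num) (by norm_num; simpa using k1) M.las.2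
      (by push_cast; linarith) (by
        have : (1 : ℝ) ≤ c := by exact_mod_cast M.c1
        push_cast
        linarith [log_two_lt_d9, mul_one (2 : ℝ) ▸ (rfl : log 2 = log 2)])
      (fun y => (M.vw_le h (fun ω => mul_nonneg (norm_nonneg _) (p2 _).le) p (by norm_num)
        hw y).trans (by rwa [← mul_one (_⁻¹), le_inv_mul_iff₀ (pow_pos q _)]))
      (le_trans (by
        have := exp_pos (4 * ((G.p k).a + 1 / 6))
        gcongr; norm_num) (sm_le h (by norm_num) (by linarith)))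
    simp only [ec] at this
    exact this.mono p2 (fun _ => le_rfl) (by linarith) fun _ => Subset.rfl
  have hE : ∀ {r : ι → ℝ}, (∀ x, 0 < r x) → Hb r fun s => Complex.exp
      ((G.fw D.al b J Y i k).E (cutS D.B s)) := fun p =>
    (Hb.refl (A := ∅) (show Hb _ ((G.fw D.al b J Y i k).cut D.B).E from F.ma ▸ hb_ma p _)).exp.fst
  have nu := (h.sl_all k (G.zz b J k)).nu
  have md := h.md_tt e M.lt.le fun N hN => (M.fd N hN).1.eq.fst
  refine ⟨⟨f1, F.ma, md.hd, ?_, fun U hU T hT => ?_⟩, Prod.ext ?_ ?_, fun T hT x hx y hy ne =>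
    a3 T hT x hx y hy (by rwa [ce_B M.geo (hT hx), ce_B M.geo (hT hy)]), fun x hx => ?_⟩
  · obtain ⟨_, -, fa⟩ := f1.fa
    have := f1.fl.add (nu.lo_Φ (h.tok_sl (t.gd k (M.lt.le.trans M.le)).tz) (pm_zero (h.ρ0 k)).lo)
    simp only [Sd.Φ, Pi.zero_apply, add_zero] at this
    exact (hE p2).hd.mul (hd_rep nu.p_ok.1 (sqrt_nonneg _) this fa)
  · have := L.rep M.geo (p := G.p k) (w := w) (U := U) (fun x B => (G.sl k (G.zz b J k)).β *
      (cx (G.sl k (G.zz b J k)).m B B + (G.sl k (G.zz b J k)).T B)) (hE p)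
      (fun s => by rw [cut_cut Subset.rfl]) hT
    simp only [ec] at this
    refine (md.eq U hU T hT).trans (.trans (sum_congr rfl fun N hN => ?_) this.symm)
    split_ifs with v
    swap
    · rfl
    have hN : D.Tr N := ⟨mem_powerset.1 hN, v.1⟩
    have F := (M.low h t hp hN).1.eq
    rw [← jd_cut (lt_sub hT), ← jd_cut (g := fun s => _ * _ * _) (lt_sub hT)]
    simp only [lin_cut (T := D.ad N) subset_union_left]
    rw [((hb_lin F.fst.pos _ a).refl.mul (F.eqv hU)).eq _ (lt_sub hT)]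
    refine congrArg _ (congrArg _ (funext fun s => ?_))
    rw [M.ent_cut h t hp hN, mul_right_comm, ← mul_assoc, ← Complex.exp_add]
    simp only [eta, ← Complex.exp_sum, ← Complex.exp_add]
    refine congrArg₂ _ (congrArg _ ?_) rfl
    rw [show (Fy.cut _ _).E s = _ from M.en h t hp hN s, sum_biUnion fun ω a ω' a' =>
      M.geo.dis ω (hN.1 a) ω' (hN.1 a'), ← sum_congr (s₁ := N) rfl fun ω h => lin_cut (a_sub h)]
    simp only [sum_sub_distrib]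
    ring
  · exact (congrArg _ cut_zero).trans (congrArg Prod.fst a1)
  · exact K2_zero.trans (congrArg Prod.snd a1)
  · rw [← a2 x hx]
    exact Prod.ext ((jL_cut (singleton_subset_iff.2 hx)).trans (add_zero _).symm) (L.jA_one M.geo hx)

/-- the majorants of the insertions -/
theorem ins_km : ∃ kI : Ω → Mj, (∀ ω ∈ D.Om, KM (G.p k) (G.N k) (kI ω) (G.ins D b J Y i k a ω)) ∧
    (∀ ω X c, 0 ≤ kI ω X c ∧ (kI ω X c ≠ 0 → D.X0 ω ⊆ X)) ∧ ∀ (v : Ω → ℝ) Wt, (∀ ω, 0 ≤ v ω) → 0 < Wt →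
      (∀ y, ∑ ω ∈ D.Om.filter (y ∈ D.X0 ·), v ω / ∏ x ∈ D.A ω, r (k + 1) x ≤ Wt) →
      kN ((G.p k).ad (1 / 3)) (G.N k) (fun X c => ∑ ω ∈ D.Om, v ω * kI ω X c)
        (4 * (G.cM k c C * Wt)) := by
  obtain ⟨kk, k1, H⟩ := M.hyp h t hp
  have q := h.Q0 k
  have q0 := inv_pos.2 (pow_pos q 329)
  refine ⟨_, fun ω => H.km_ins, fun ω X c => ⟨kc_nn H.kt_nn H.vw_nn,
    fun a => kc_sup a (mem_singleton_self ω)⟩, fun v Wt v0 W0 hv => ?_⟩
  have := kN_ins (δ := 1 / 6) ((h.ps0 k).ad (show (0 : ℝ) ≤ 1 / 3 by norm_num)) (h.N_odd k) M.geo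
    (by norm_num) (by rw [ad_ad]; norm_num; simpa using k1) (θ1 := (G.Q k ^ 329)⁻¹) (by linarith) q0
    (mul_pos (mul_pos (exp_pos _) (pow_pos q _)) W0) (fun ω => mul_nonneg (v0 ω) (H.vw_nn ω))
    (fun y => by
      simpa only [Pa.ad, add_assoc, cM] using M.vw_le h v0 H.pos (δ := 1 / 3 + 1 / 6) (by norm_num) hv y)
    (sm_le h (by norm_num) le_rfl)
  simpa only [one_pow, one_mul, ← kc_mul, prod_singleton, cM, add_assoc] using this

end Mh

end Gl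

end Pool.Agent.Lib.MP_7f377f_mp.RG.Q4.En
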