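import Pool.Agent.Lib.MP_7f377f_mp.G.CaF
import Pool.Agent.Lib.MP_7f377f_mp.G.MgF

/-! Families of point insertions: from a family to the moments on the torus. -/

noncomputable section

open Pool.Agent.Lib.MP_7f377f_mp.Jet

set_option linter.unusedSectionVars false
variable [Pool.Agent.Lib.MP_7f377f_mp.GD]

namespace Pool.Agent.Lib.MP_7f377f_mp.RG.Q4.En

open Finset Function Sg Real Pos Mg
open scoped Classical

attribute [local irreducible] box lbox tb tau rc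

variable {ι : Type} [Fintype ι] [DecidableEq ι]

omit [GD] in
/-- centring by arbitrary constants -/
theorem cen_any {a t : ι → ℂ} {r : ι → ℝ} {M : ℝ} {q : (ι → ℂ) → ℂ} {m : Finset ι → ℂ}
    (hq : SH r M q) (hm : ∀ T, m T = jd T fun s => Complex.exp (∑ i, s i * a i) * q s)
    (A : Finset ι) : ‖∑ T ∈ A.powerset, (∏ i ∈ A \ T, -t i) * m T‖ ≤
      M * ∏ i ∈ A, ((r i)⁻¹ + ‖a i - t i‖) := by
  have e := jd_mul ((sh_lin hq.pos univ a).exp.mul hq) (sh_lin hq.pos univ fun i => -t i).exp A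
  have e' := jd_mul hq (sh_lin hq.pos univ fun i => a i - t i).exp A
  rw [show ∑ T ∈ A.powerset, (∏ i ∈ A \ T, -t i) * m T = _ from
    ((sum_congr rfl fun T _ => ?_).trans e.symm).trans ((congrArg _ (funext fun s => ?_)).trans e'),
    prod_add, mul_sum]
  · refine norm_sum_le_of_le _ fun T _ => ?_
    rw [jd_exp_lin _ (subset_univ _), ← mul_assoc, prod_inv_distrib, norm_mul, norm_prod]
    exact mul_le_mul_of_nonneg_right (hq.jd_le T) (prod_nonneg fun _ _ => norm_nonneg _)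
  · rw [jd_exp_lin _ (subset_univ _), hm, mul_comm]
    rfl
  · simp only [Pi.mul_apply]
    rw [mul_right_comm, ← Complex.exp_add, ← sum_add_distrib, mul_comm]
    congr 2
    exact sum_congr rfl fun i _ => by ring

namespace Gl.Ok

variable {G : Gl} {J j k : ℕ} {b σ θ M : ℝ} {r r0 : ι → ℝ} {Y : Fy ι} {X : ι → Conf → ℂ}
  {W : ι → Finset St} {z : En.Z} {S : Finset ι} {f : (ι → ℂ) → Conf → ℂ} (h : G.Ok)
include h

/-- small slots -/
theorem sl_of (e : G.Fd j (G.zz b J j) univ r0 r θ Y fun s => G.tt (pr b (G.N J) X s) J j)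
    (hθ : θ ≤ (G.Q j ^ 329)⁻¹) (e1 : Y.bs = (G.zz b J j).d) (ec : Y.Ec univ id) (σ0 : 0 < σ)
    (sz : ∀ q, σ ≤ r q ∧ Y.Z q ⊆ G.zs (W q) J j ∧ ∃ N, G.Q j ^ 273 * (σ * N) ≤ G.bb j ∧
      G.Sz j N N (G.Q j ^ 100)⁻¹ (Y.jt {q}).1 (Y.jt {q}).2) : G.Sl b J j X σ W := by
  have q := h.Q0 j
  have q0 := pow_pos q 273
  have b0 := h.b0 j
  refine ⟨Y, r0, G.bb j / G.Q j ^ 273 / σ, e.mono (fun _ => σ0) (fun q => (sz q).1) hθ, e1, ec,
    by positivity, le_of_eq (by field_simp), fun q => ⟨?_, (sz q).2.1⟩⟩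
  obtain ⟨N, a1, a2⟩ := (sz q).2.2
  have : N ≤ G.bb j / G.Q j ^ 273 / σ := by rwa [le_div_iff₀' σ0, le_div_iff₀' q0]
  exact h.sz_le a2 (inv_pos.2 (pow_pos (h.Q0 j) _)).le this this le_rfl

/-- the free energy of first order in one step -/
theorem e_step (t : G.Ad J k z) (e : G.Fd (k + 1) z S r0 r (G.Q (k + 1) ^ 329)⁻¹ Y f)
    (pu : ∀ s ∈ Pd r, PU (G.p (k + 1)) (G.Q (k + 1) ^ 210)⁻¹ (Y.ψ s)) {x : ι} (hx : x ∈ S)
    (hZ : (((G.fs S k z Y).Z x).card : ℝ) ≤ G.Q k ^ 100) :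
    r x * ‖jd {x} (G.fs S k z Y).E - jd {x} Y.E‖ ≤ (G.Q k ^ 100)⁻¹ := by
  have _ := hx
  have nu := (h.sd_all k z).nu
  have F := h.fi_sd e.fi z
  have q := h.Q0 k
  have p := F.pos
  have px := p x
  obtain ⟨k0, k1, k2⟩ := F.km
  have a1 := mul_le_mul_of_nonneg_left (h.inv_up k.le_succ 210) q.le
  have a2 := (h.inv_up k.le_succ 329).trans (inv_anti₀ (pow_pos q _) (pow_le_pow_right₀ (h.Q1 k)
    (show 209 ≤ 329 by norm_num)))
  have a3 := h.inv_le k (show 200 < 209 by norm_num)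
  have a4 := inv_pos.2 (pow_pos q 209)
  rw [show G.Q k * (G.Q k ^ 210)⁻¹ = (G.Q k ^ 209)⁻¹ by field_simp] at a1
  rw [(h.fs_E' t.pu e.fi e.ma).2, add_sub_cancel_left, ← le_div_iff₀' px,
    ← sum_subset (filter_subset (· ∈ (G.fs S k z Y).Z x) (G.sd k z).Λ') fun v h1 h2 =>
      (F.loc.ey nu fun u => h2 (mem_filter.2 ⟨h1, rc_eq nu.ok.odd h1 ▸ u⟩)).jd (mem_singleton_self x)]
  refine (norm_sum_le _ _).trans ((sum_le_card_nsmul _ _ ((G.Q k ^ 200)⁻¹ / r x) fun v _ => ?_).trans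
    ((nsmul_le_nsmul_left (by positivity) (card_le_card fun v hv => (mem_filter.1 hv).2)).trans ?_))
  · obtain ⟨_, c⟩ : Hb r fun s => (G.sd k z).Ey (Y.ψ s) (Y.K s) v := F.ey nu t.pu v ▸ hb_ma p _
    have c' := sh_const p ((G.sd k z).Ey 0 0 v)
    rw [← sub_zero (jd _ _), ← jd_const ((G.sd k z).Ey 0 0 v) (singleton_nonempty x), ← jd_sub c c',
      ← prod_singleton r x]
    refine SH.jd_le ⟨p, (c.sub c').hol, fun s hs => (ey_le t.pu (pu s hs) (k2 s hs) k1 v).trans ?_⟩ _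
    change G.Q k * _ + _ ≤ _
    linarith
  · rw [nsmul_eq_mul, ← mul_div_assoc]
    refine div_le_div_of_nonneg_right ((mul_le_mul_of_nonneg_right hZ (by positivity)).trans_eq ?_)
      px.le
    field_simp

/-- the first jet at the flat field -/
theorem e_fl (t : G.Tz J j z) (e : G.Fd j z univ r0 r θ Y f) (hθ : G.Q j ^ 100 * θ ≤ 1) {q : ι}
    (hN : (Y.Z q).card ≤ M) : r q * ‖jd {q} (f · 1) / f 0 1 - jd {q} Y.E‖ ≤ exp M := by
  have p := e.fi.pos
  have a' := e.eq.eqv (U := 1) fun _ => rfl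
  simp only [h.fd_flat t e] at a'
  have n0 := h.fd_ne t e hθ (zero_mem p)
  have θ0 := e.fi.km.choose_spec.1.nonneg
  have u : SH r (exp M)
      fun s => Sg.zf (G.N j) (Y.K (cutS {q} s)) / Sg.zf (G.N j) (Y.K 0) := by
    refine (h.fd_ratio t e hθ {q}).1.mono (exp_le_exp.2 ?_)
    have a2 := mul_le_mul_of_nonneg_right ((h.cQ j (C := 4) (by norm_num)).trans
      (le_self_pow₀ (h.Q1 j) (n := 100) (by norm_num))) θ0
    rw [singleton_biUnion]
    exact (mul_le_of_le_one_left (by positivity) (a2.trans hθ)).trans hN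
  have k := jd_mul (sh_lin p {q} fun q => jd {q} Y.E).exp u {q}
  rw [show powerset {q} = {∅, {q}} from rfl, sum_pair (singleton_ne_empty q).symm,
    jd_exp_lin _ (empty_subset _), jd_exp_lin _ Subset.rfl, sdiff_empty, sdiff_self] at k
  simp only [prod_empty, prod_singleton, bot_eq_empty, one_mul, jd_empty, cut_zero, div_self n0,
    mul_one] at k
  rw [Ob.mo_eqv (m := fun T => jd T (f · 1) / f 0 1) (fun _ => rfl) a' e.ma {q},
    show jd {q} (fun s => Complex.exp (ma univ (YM7.ce Y.E) s) * (Sg.zf (G.N j) (Y.K s) /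
      Sg.zf (G.N j) (Y.K 0))) = _ from Eq.trans ?_ k, add_sub_cancel_right, ← le_div_iff₀' (p q)]
  · simpa only [prod_singleton] using u.jd_le {q}
  rw [jd_single, jd_single]
  simp only [Pi.mul_apply, ma_single (mem_univ q), YM7.ce, if_true, if_neg (singleton_ne_empty q),
    sum_singleton, Pi.single_eq_same, zero_add, smul_eq_mul,
    show ∀ t, cutS {q} (Pi.single q t) = Pi.single q t from fun t =>
    funext fun i => by by_cases v : i = q <;> simp [cutS, v]]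

variable [NeZero (G.N J)] {O : ι → YM7.Cfg (G.N J) → ℝ} (t : G.Tu b J) (hj : j ≤ J)
  (o : Xo (G.N J) X O)
  (e : G.Fd j (G.zz b J j) univ r0 r (G.Q j ^ 329)⁻¹ Y fun s => G.tt (pr b (G.N J) X s) J j)
include t hj o e

/-- the free energy of first order is the local mean -/
theorem e_al (q : ι) (hZ : ((Y.Z q).card : ℝ) ≤ M) :
    r q * ‖jd {q} Y.E - G.al b J j (O q)‖ ≤ exp M := by
  have a := h.e_fl (t.gd j hj).tz e (h.th_le j).2 hZ
  rw [jd_tt (pr_hd (fun q => (o q).1) (r := fun _ => 1) fun _ => one_pos) hj,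
    h.tt_congr (fun U hU => o.jd {q} hU) hj 1 fun _ => rfl, pr_zero, ← h.f_tt b hj] at a
  simp only [prod_singleton] at a
  rwa [norm_sub_rev, h.al_eq t.b0 _ hj]

/-- the moments on the whole torus -/
theorem e0 (e1 : Y.bs = (G.zz b J j).d) (ec : Y.Ec univ id)
    (pu : ∀ s ∈ Pd r, PU (G.p j) (G.Q j ^ 210)⁻¹ (Y.ψ s)) (hZ : ∀ q, ((Y.Z q).card : ℝ) ≤ M)
    (B : Finset ι) (m : ι → ℝ) :
    |YM7.ex (Fi.tr haar) b (G.N J) fun U => ∏ q ∈ B, (O q U - m q)| ≤
      exp (cJ / G.g j * G.N j ^ 4) * ∏ q ∈ B, ((1 + exp M) / r q + |m q - G.al b J j (O q)|) := by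
  have u := e1 ▸ h.bz_run t hj
  have p := e.fi.pos
  have l := ma_lin1 (a := YM7.ce Y.E) (if_pos rfl) fun T hT => by
    rw [YM7.ce, jd_two ec (subset_univ T) hT, ite_self]
  obtain ⟨g1, -, g2⟩ := (h.f_facts J j).1 b t.b0
  rw [h.f_tt b hj, ← pr_zero (X := X)] at g1 g2
  obtain ⟨-, a⟩ := int_ratio2.choose_spec.2 h (t.gd j hj).tz e g1 g2 u.2.1 u.2.2 pu (by
    rw [← div_eq_mul_inv, div_le_one (pow_pos (h.Q0 j) _)]
    exact pow_le_pow_right₀ (h.Q1 j) (by norm_num)) (h.th_le j).2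
  have c := e.eq.int PP
  simp only [MeasureTheory.integral_const_mul] at c
  have v := cen_any (a := fun q => YM7.ce Y.E {q}) (t := fun q => (m q : ℂ))
    (m := Ob.mo (YM7.ex (Fi.tr haar) b (G.N J)) O) a (fun T => (Ob.mo_eqv (fun T => by
      simp only [(h.int_tt (pr_gi (fun q => (o q).1) _) hj).2, o.mo_ex (h.N_odd J)]) c e.ma T).trans
      (by simp only [l]; rfl)) B
  have w : (YM7.ex (Fi.tr haar) b (G.N J) fun U => ∏ q ∈ B, (O q U - m q)) = ∑ T ∈ B.powerset,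
      (∏ q ∈ B \ T, -m q) * YM7.ex (Fi.tr haar) b (G.N J) fun U => ∏ q ∈ T, O q U := by
    have : (Fi.tr haar).IsHaarMeasure := (inferInstance : haar.IsHaarMeasure)
    simp only [YM7.ex, ← MeasureTheory.integral_const_mul]
    rw [← MeasureTheory.integral_finset_sum _ fun T _ => (Weak.cint _
      (continuous_finsetProd T fun i _ => (o i).2.1)).const_mul _]
    simp only [sub_eq_add_neg, prod_add, mul_comm]
  rw [w, ← norm_eq_abs, ← Complex.norm_real]
  push_cast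
  refine v.trans (mul_le_mul_of_nonneg_left (prod_le_prod (fun q _ => by have := p q; positivity)
    fun q _ => ?_) (exp_pos _).le)
  have := (le_div_iff₀' (p q)).2 (h.e_al t hj o e q (hZ q))
  rw [YM7.ce, if_neg (singleton_ne_empty q), add_div, one_div, add_assoc, abs_sub_comm,
    ← norm_eq_abs, ← Complex.norm_real, Complex.ofReal_sub]
  linarith [norm_sub_le_norm_sub_add_norm_sub (jd {q} Y.E) (G.al b J j (O q)) (m q)]

end Gl.Ok

end Pool.Agent.Lib.MP_7f377f_mp.RG.Q4.En
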