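import Pool.Agent.Lib.MP_7f377f_mp.G.JvD
import Pool.Agent.Lib.MP_7f377f_mp.G.JvE
import Pool.Agent.Lib.MP_7f377f_mp.G.KzP

/-! Families of point insertions: radii and the geometry of the merging of two points. -/

noncomputable section

open Pool.Agent.Lib.MP_7f377f_mp.Jet

set_option linter.unusedSectionVars false
variable [Pool.Agent.Lib.MP_7f377f_mp.GD]

namespace Pool.Agent.Lib.MP_7f377f_mp.RG.Q4.En

open Finset Function Sg Real Pos Mg Filter
open scoped Classical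

attribute [local irreducible] box lbox tb tau rc

section
variable {n D R j k : ℕ} {x y : St}

/-- balls around points which are close to `x` -/
theorem tau_star (P : Finset St) (hP : P.Nonempty) (e : ∀ y ∈ P, nearT n ((j + 1) * D) x y) :
    tau n D (tb n D (insert x P)) ≤ 2 * (j + 1) * P.card := by
  have a : ∀ B ⊆ P, Ta.Wk n D x x (2 * (j + 1) * B.card) {w | ∃ v ∈ insert x B, nearT n D v w} :=
    fun B => by
    induction B using Finset.cons_induction with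
    | empty => exact fun _ => ⟨fun _ => x, rfl, rfl, fun _ _ => nearT.refl _ _ _,
        fun w hw => ⟨0, Nat.zero_le _, by simpa using hw⟩⟩
    | cons v B hv ih =>
      intro u
      have u1 := e v (u (mem_cons_self ..))
      obtain ⟨p, p0, p1, p2, -⟩ := Ta.wk_line j _ u1.symm
      have w : Ta.Wk n D v x (j + 1) {w | nearT n D v w} :=
        ⟨p, p0, p1, p2, fun w hw => ⟨0, Nat.zero_le _, p0 ▸ hw⟩⟩
      rw [card_cons, show 2 * (j + 1) * (B.card + 1) = j + 1 + (j + 1) + 2 * (j + 1) * B.card by ring]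
      refine (((Ta.wk_line j _ u1).append w).append (ih ((subset_cons _).trans u))).mono ?_
      rintro w ⟨z, hz, hw⟩
      rcases mem_insert.1 hz with rfl | hz
      · exact .inr ⟨z, mem_insert_self .., hw⟩
      rcases mem_cons.1 hz with rfl | hz
      exacts [.inl (.inr hw), .inr ⟨z, mem_insert_of_mem hz, hw⟩]
  have := card_pos.2 hP
  exact tau_le (Ta.tour_iff.2 ⟨by positivity, x, (a P Subset.rfl).mono fun w hw => (mem_tb.1 hw).2⟩)

/-- small differences: the distance in the torus is the distance in the lattice -/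
theorem near_box (h : y - x ∈ box R) (hR : 2 * R < n) (e : nearT n D x y) : y - x ∈ box D := by
  obtain ⟨v, hv⟩ := nearT_iff.1 e
  refine mem_box.2 fun i => ?_
  have a := mem_box.1 h i
  have b := hv i
  have c : (2 * R : ℤ) < n := by exact_mod_cast hR
  simp only [Pi.sub_apply] at a ⊢
  rcases lt_trichotomy (v i) 0 with u | u | u
  · constructor <;> nlinarith [a.1, a.2, b.1, b.2]
  · simpa [u] using b
  · constructor <;> nlinarith [a.1, a.2, b.1, b.2]

theorem near_mul (r : ℕ) (h : nearT n R x y) :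
    nearT (r * n) (r * R) ((r : ℤ) • x) ((r : ℤ) • y) := by
  obtain ⟨v, hv⟩ := nearT_iff.1 h
  refine nearT_iff.2 ⟨v, fun i => ?_⟩
  have r0 : (0 : ℤ) ≤ r := Int.natCast_nonneg r
  have a1 := mul_le_mul_of_nonneg_left (hv i).1 r0
  have a2 := mul_le_mul_of_nonneg_left (hv i).2 r0
  simp only [Pi.smul_apply, smul_eq_mul]
  push_cast
  constructor <;> nlinarith

/-- balls around distant points -/
theorem sep_ball {R' Δ : ℕ} {V V' : Finset St} (e : ∀ D, nearT n D x y → Δ + R + R' ≤ D)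
    (hV : V ⊆ tb n R {x}) (hV' : V' ⊆ tb n R' {y}) : Sep n Δ V V' := fun _ hu _ hv D a => by
  have := e _ (((mem_tb_single.1 (hV hu)).2.trans a).trans (mem_tb_single.1 (hV' hv)).2.symm)
  exact_mod_cast (by omega : Δ ≤ D)

/-- sums of increments for radii which at least double -/
theorem sum_dbl {E : ℕ → ℂ} {r : ℕ → ℝ} {ε : ℝ} (hj : j ≤ k) (r0 : 0 < r k) (ε0 : 0 ≤ ε)
    (gr : ∀ i, j ≤ i → i < k → 2 * r (i + 1) ≤ r i)
    (e : ∀ i, j ≤ i → i < k → r (i + 1) * ‖E i - E (i + 1)‖ ≤ ε) : r k * ‖E j - E k‖ ≤ 2 * ε := by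
  have : ∀ i ≤ k, j ≤ i → 0 < r i ∧ ‖E i - E k‖ ≤ 2 * ε * ((r k)⁻¹ - (r i)⁻¹) :=
    dw_ind (fun _ => ⟨r0, by simp⟩) fun i hi ih a => by
      obtain ⟨b1, b2⟩ := ih (by omega)
      have c := gr i a hi
      have c0 : 0 < r i := by linarith
      have c1 : ‖E i - E (i + 1)‖ ≤ ε * (r (i + 1))⁻¹ := by
        rw [← div_eq_mul_inv, le_div_iff₀' b1]; exact e i a hi
      have c2 : 2 * (r i)⁻¹ ≤ (r (i + 1))⁻¹ := by
        rw [← div_eq_mul_inv, div_le_iff₀ c0, le_inv_mul_iff₀ b1]; linarith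
      refine ⟨c0, (norm_sub_le_norm_sub_add_norm_sub _ (E (i + 1)) _).trans ?_⟩
      nlinarith [mul_le_mul_of_nonneg_left c2 ε0]
  obtain ⟨a1, a2⟩ := this j hj le_rfl
  rw [← le_div_iff₀' r0, div_eq_mul_inv]
  nlinarith [mul_nonneg ε0 (inv_pos.2 a1).le]

/-- sums of increments for monotone radii -/
theorem sum_lin {E : ℕ → ℂ} {r : ℕ → ℝ} {ε a : ℝ} (hj : j ≤ k) (a0 : 0 ≤ a)
    (gr : ∀ i, j ≤ i → i < k → a ≤ r (i + 1))
    (e : ∀ i, j ≤ i → i < k → r (i + 1) * ‖E i - E (i + 1)‖ ≤ ε) :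
    a * ‖E j - E k‖ ≤ (k - j : ℕ) * ε := by
  refine dw_ind (P := fun i => j ≤ i → a * ‖E i - E k‖ ≤ (k - i : ℕ) * ε) (fun _ => by simp)
    (fun i hi ih u => ?_) j hj le_rfl
  have b := (mul_le_mul_of_nonneg_right (gr i u hi) (norm_nonneg _)).trans (e i u hi)
  rw [show k - i = k - (i + 1) + 1 by omega, Nat.cast_succ]
  linarith [ih (by omega), mul_le_mul_of_nonneg_left
    (norm_sub_le_norm_sub_add_norm_sub (E i) (E (i + 1)) (E k)) a0]

/-- radii which start with `a` at level `J`, grow by `ρ` and are cut at `ν` -/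
def upR (ν ρ : ℕ → ℝ) (a : ℝ) (J k : ℕ) : ℝ := min (ν k) (a * ∏ i ∈ Ico k J, ρ i)

variable {ν ρ : ℕ → ℝ} {a : ℝ} {J : ℕ}

theorem upR_le : upR ν ρ a J k ≤ ν k := min_le_left ..

theorem upR_top : upR ν ρ a J J ≤ a := (min_le_right ..).trans_eq (by simp)

theorem upR_pos (ν0 : 0 < ν k) (a0 : 0 < a) (ρ0 : ∀ i, 0 < ρ i) : 0 < upR ν ρ a J k :=
  lt_min ν0 (mul_pos a0 (prod_pos fun i _ => ρ0 i))

theorem upR_eq (e : ν k ≤ a * ∏ i ∈ Ico k J, ρ i) : upR ν ρ a J k = ν k := min_eq_left e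

theorem upR_step (hk : k < J) (ρ0 : 0 ≤ ρ k) (e : ν k ≤ ρ k * ν (k + 1)) :
    upR ν ρ a J k ≤ ρ k * upR ν ρ a J (k + 1) := by
  rw [upR, upR, mul_min_of_nonneg _ _ ρ0, prod_eq_prod_Ico_succ_bot hk, mul_left_comm]
  exact min_le_min e le_rfl

end

namespace Gl

variable (G : Gl)

/-- the range of level `j` in units of the lattice of level `J` -/
def sJ (J j : ℕ) : ℕ := G.L j ^ G.K0 * G.rt J j

/-- the separation of the letters: large from level `t` on -/
def mJ (t j : ℕ) : ℕ := if t ≤ j then G.L j - 2 else 1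

/-- the growth of the radii: large from level `t` on -/
def rJ (n t j : ℕ) : ℝ := if t ≤ j then (G.L j : ℝ) ^ n else 1

/-- radii which start with `a` at level `J`, grow by `rJ` and are cut at `ν` -/
def rC (n t : ℕ) (ν : ℕ → ℝ) (a : ℝ) (J j : ℕ) : ℝ :=
  min (ν (max j t)) (a * (G.rt J (max j t) : ℝ) ^ n)

/-- the core of a word with letters at the points `P` -/
def ptZ (J k : ℕ) (P : Finset St) : Finset St :=
  tb (G.N k) (10 * G.L k ^ G.K0) (P.image fun x => G.tk x J k)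

/-- the support of the insertion of a word with letters at the points `P` -/
def ptX (J k : ℕ) (P : Finset St) : Finset St :=
  tb (G.N k) (G.p k).D (P.image fun x => G.tk x J k)

/-- letters of radius `R` at `x` and `y` merge at level `k` -/
structure Mv (J k R : ℕ) (x y : St) : Prop where
  lt : k < J
  far : ∀ D, nearT (G.N J) D x y → 66 * G.sJ J (k + 1) + R + R ≤ D
  near : nearT (G.N J) (66 * G.sJ J k + R + R) x y
  rad : R ≤ 6 * G.sJ J k

variable {G} {A J c c' i j k m n t R E : ℕ} {ρ a b Δ : ℝ} {ν : ℕ → ℝ} {x y z : St}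
  {P V V' W : Finset St} {ι κ : Type}

theorem Gr.mono (u : G.Gr A c k m ρ) (e : c' ≤ c) : G.Gr A c' k m ρ :=
  ⟨u.1, u.2.1, u.2.2.1, u.2.2.2.1, le_trans (mul_le_mul_of_nonneg_left
    (pow_le_pow_right₀ (by linarith [u.2.1]) e) (by norm_num)) u.2.2.2.2⟩

theorem Gr.le_dL (u : G.Gr A c k m ρ) : (m + 2 : ℝ) * (G.p k).D ≤ G.dL k :=
  mul_le_mul_of_nonneg_right (by exact_mod_cast u.2.2.2.1) (Nat.cast_nonneg _)

theorem rC_le : G.rC n t ν a J j ≤ ν (max j t) := min_le_left ..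

theorem rC_eq (e : ν (max j t) ≤ a * (G.rt J (max j t) : ℝ) ^ n) :
    G.rC n t ν a J j = ν (max j t) := min_eq_left e

theorem rC_low (e : j ≤ t) : G.rC n t ν a J j = G.rC n t ν a J t := by
  rw [rC, rC, max_eq_right e, max_self]

theorem rC_pos (ν0 : 0 < ν (max j t)) (a0 : 0 < a) : 0 < G.rC n t ν a J j :=
  lt_min ν0 (mul_pos a0 (pow_pos (Ok.rt_pos _ _) _))

theorem Mv.symm (M : G.Mv J k R x y) : G.Mv J k R y x :=
  ⟨M.lt, fun D e => M.far D e.symm, M.near.symm, M.rad⟩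

theorem Mv.sep (M : G.Mv J k R x y) (hV : V ⊆ tb (G.N J) R {x}) (hV' : V' ⊆ tb (G.N J) R {y}) :
    Sep (G.N J) (66 * G.sJ J (k + 1) : ℕ) V V' := sep_ball M.far hV hV'

/-- words with two letters -/
theorem Mv.cls (M : G.Mv J k R x y) {p : κ → St} {V : κ → Finset St}
    (hV : ∀ l, V l ⊆ tb (G.N J) R {p l})
    (hp : ∀ l l', l ≠ l' → p l = x ∧ p l' = y ∨ p l = y ∧ p l' = x) (S : Finset κ) :
    Cls (G.N J) (66 * G.sJ J (k + 1) : ℕ) S id V := fun l _ l' _ e => by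
  rcases hp l l' e with ⟨a, b⟩ | ⟨a, b⟩
  exacts [M.sep (a ▸ hV l) (b ▸ hV l'), M.symm.sep (a ▸ hV l) (b ▸ hV l')]

theorem Mv.cls2 (M : G.Mv J k R x y) {V : Fin 2 → Finset St} (h0 : V 0 ⊆ tb (G.N J) R {x})
    (h1 : V 1 ⊆ tb (G.N J) R {y}) : Cls (G.N J) (66 * G.sJ J (k + 1) : ℕ) univ id V :=
  M.cls (p := ![x, y]) (Fin.forall_fin_two.2 ⟨h0, h1⟩) (by simp [Fin.forall_fin_two]) _

theorem ptZ_sub : G.ptZ J k P ⊆ G.ptX J k P :=
  tb_mono Subset.rfl (show _ ≤ 20 * G.L k ^ G.K0 by omega)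

theorem tk_ptZ (hx : x ∈ P) : rc (G.N k) (G.tk x J k) ∈ G.ptZ J k P :=
  mem_tb.2 ⟨rc_rc _ _, _, mem_image_of_mem _ hx, nearT_rc_right.2 (nearT.refl _ _ _)⟩

namespace Ok

variable (h : G.Ok)
include h

/-! ### The growth of the radii -/

theorem QA_eq (A j : ℕ) : G.QA A j = G.Q j * (G.L j : ℝ) ^ A := pow_add ..

theorem gr_one (e : c ≤ A) : G.Gr A c j 1 1 := by
  have L := h.L1 j
  refine ⟨le_rfl, le_rfl, ?_, by linarith [h.L_big j], ?_⟩
  · rw [one_add_one_eq_two, Nat.cast_one]; linarith [log_two_lt_d9]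
  · rw [h.QA_eq]
    exact mul_le_mul (h.cQ j (by norm_num)) ((pow_le_pow_left₀ (by norm_num) (by linarith) c).trans
      (pow_le_pow_right₀ (by linarith) e)) (by positivity) (h.Q0 j).le

theorem gr_big (u : G.Big A j) (c1 : 1 ≤ c) (e : c * (n + 1) ≤ A) :
    G.Gr A c j (G.L j - 2) ((G.L j : ℝ) ^ n) := by
  have L := h.L1 j
  have L' := h.L_big j
  have a0 : (1 : ℝ) ≤ (G.L j : ℝ) ^ n := one_le_pow₀ (by linarith)
  have a1 : 1 + (G.L j : ℝ) ^ n ≤ (G.L j : ℝ) ^ (n + 1) := by rw [pow_succ]; nlinarith only [a0, L]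
  refine ⟨by omega, a0, ?_, by omega, ?_⟩
  · have b1 : (n + 1 : ℝ) ≤ A := by exact_mod_cast (by nlinarith only [c1, e] : n + 1 ≤ A)
    have b2 : A ^ 2 ≤ 4 * 2 ^ A := by
      have := Nat.lt_two_pow_self (n := A / 2)
      calc _ ≤ (2 * 2 ^ (A / 2)) ^ 2 := Nat.pow_le_pow_left (by omega) 2
        _ = 4 * 2 ^ (A / 2 * 2) := by ring
        _ ≤ _ := Nat.mul_le_mul_left _ (Nat.pow_le_pow_right two_pos (by omega))
    have b3 : 250 * (A : ℝ) ^ 2 ≤ G.L j := by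
      exact_mod_cast (by have := h.LA u; omega : 250 * A ^ 2 ≤ G.L j)
    obtain ⟨s, s0, hs⟩ : ∃ s : ℝ, 0 < s ∧ s ^ 2 = G.L j :=
      ⟨√_, sqrt_pos.2 (by linarith), sq_sqrt (by linarith)⟩
    have b4 : 15 * (A : ℝ) ≤ s := le_of_sq_le_sq (by nlinarith only [sq_nonneg (A : ℝ), b3, hs]) s0.le
    have b5 : log (G.L j) ≤ 2 * s := by
      rw [← hs, log_pow]; push_cast; linarith [log_le_sub_one_of_pos s0]
    have b6 := log_le_log (by linarith) a1
    rw [log_pow] at b6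
    have b7 : 0 ≤ log (G.L j) := log_natCast_nonneg _
    rw [Nat.cast_sub (by omega)]
    push_cast at b6 ⊢
    nlinarith only [mul_le_mul b1 b5 b7 (Nat.cast_nonneg _), b6, hs, L, s0,
      mul_le_mul_of_nonneg_right b4 s0.le]
  · rw [h.QA_eq]
    refine mul_le_mul (h.cQ j (by norm_num)) ((pow_le_pow_left₀ (by linarith) a1 c).trans ?_)
      (by positivity) (h.Q0 j).le
    rw [← pow_mul]
    exact pow_le_pow_right₀ (by linarith) (mul_comm c _ ▸ e)

theorem gr_J (u : G.Big A j) (c1 : 1 ≤ c) (e : c * (n + 1) ≤ A) :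
    G.Gr A c j (G.mJ t j) (G.rJ n t j) := by
  unfold mJ rJ
  split_ifs
  exacts [h.gr_big u c1 e, h.gr_one (by nlinarith only [e])]

theorem dL_eq (j : ℕ) : ((G.L j - 2 : ℕ) + 2 : ℝ) * (G.p j).D = G.dL j := by
  rw [Nat.cast_sub (by linarith [h.L_big j]), dL]; push_cast; ring

theorem rJ_one (n t j : ℕ) : 1 ≤ G.rJ n t j := by
  unfold rJ
  split_ifs
  exacts [one_le_pow₀ (by linarith [h.L1 j]), le_rfl]

theorem rt_hi (e : J ≤ j) : G.rt J j = 1 := by
  rw [rt, Nat.sub_eq_zero_of_le (h.sch.mono.monotone e), pow_zero]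

theorem rC_top : G.rC n t ν a J J ≤ a :=
  (min_le_right ..).trans_eq (by rw [h.rt_hi (le_max_left ..)]; simp)

theorem rC_step (hj : j < J) (e : t ≤ j → ν j ≤ (G.L j : ℝ) ^ n * ν (j + 1)) :
    G.rC n t ν a J j ≤ G.rJ n t j * G.rC n t ν a J (j + 1) := by
  unfold rJ
  split_ifs with u
  · rw [rC, rC, max_eq_left u, max_eq_left (by omega), mul_min_of_nonneg _ _ (by positivity),
      h.rt_step hj, Nat.cast_mul, mul_pow, mul_left_comm]
    exact min_le_min (e u) le_rfl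
  · rw [one_mul, rC_low (by omega), rC_low (j := j + 1) (by omega)]

/-- the radii catch up with any power of the coupling -/
theorem ev_rt (j m : ℕ) (C : ℝ) : ∀ᶠ J in atTop, C * G.bb J ^ m ≤ G.rt J j := by
  have a := (tendsto_pow_const_div_const_pow_of_one_lt m (r := 3) (by norm_num)).const_mul
    (|C| * 3 ^ G.e j)
  rw [mul_zero] at a
  filter_upwards [(a.comp h.sch.mono.tendsto_atTop).eventually_le_const one_pos,
    eventually_ge_atTop j] with J a1 a2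
  have b : (G.rt J j : ℝ) * 3 ^ G.e j = 3 ^ G.e J := by
    rw [rt]; push_cast; rw [← pow_add, Nat.sub_add_cancel (h.sch.mono.monotone a2)]
  rw [comp_apply, ← mul_div_assoc, div_le_one (by positivity), ← b, mul_right_comm] at a1
  refine le_trans ?_ (le_of_mul_le_mul_right a1 (by positivity))
  have := h.b0 J
  gcongr
  exacts [le_abs_self C, (h.sch.cmp J).2]

/-! ### Scales -/

theorem three_L (j : ℕ) {i : ℕ} (hi : i ≤ 100 * (G.K0 + 1)) : 10 ^ 9 * 3 ^ i ≤ G.L j := by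
  have nu := (h.sl_all j (G.top0 0 0)).nu
  have a := nu.r_sq
  have b : 3 ^ i ≤ 3 ^ ((100 + 20) * (G.Kt + G.K0 + G.K)) := Nat.pow_le_pow_right three_pos (by
    have : 20 * (G.K0 + 1) ≤ G.K := nu.exps.2.2.2.1
    omega)
  have c := b.trans nu.r_three
  change _ ≤ G.l j at a
  unfold L LL
  omega

theorem L_add (k m : ℕ) : G.L (k + m) ≤ 3 ^ m * G.L k := by
  induction m with
  | zero => simp
  | succ m ih => rw [pow_succ', mul_assoc]; exact (h.L_succ _).trans (Nat.mul_le_mul_left _ ih)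

theorem LK0 (k : ℕ) : 1000 ≤ G.L k ^ G.K0 ∧ G.L k ≤ G.L k ^ G.K0 := by
  have : 20 * (G.Kt + 1) ≤ G.K0 := (h.sl_all k (G.top0 0 0)).nu.exps.2.2.1
  have a := Nat.le_self_pow (n := G.K0) (by omega) (G.L k)
  exact ⟨(h.L_big k).trans a, a⟩

theorem sJ_top (J : ℕ) : G.sJ J J = G.L J ^ G.K0 := by rw [sJ, rt_top, mul_one]

theorem sJ_anti (hj : j ≤ k) (hk : k ≤ J) : G.sJ J k ≤ G.sJ J j := h.D_rt hj hk

theorem sJ_step (hk : k < J) : 1000 * G.sJ J (k + 1) ≤ G.sJ J k := by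
  rw [sJ, sJ, h.rt_step hk, ← mul_assoc, ← mul_assoc, mul_comm _ (G.L k)]
  exact Nat.mul_le_mul_right _ (h.D_step k)

theorem sJ_two (hk : k + 2 ≤ J) : 1000 * (G.L (k + 2) * G.sJ J (k + 2)) ≤ G.sJ J k := by
  have a := Nat.pow_le_pow_left (h.L_add k 2) (G.K0 + 1)
  have b := h.three_L (k + 1) (i := 2 * (G.K0 + 1)) (by omega)
  rw [sJ, sJ, h.rt_step (show k < J by omega), h.rt_step (show k + 1 < J by omega)]
  calc _ = 1000 * G.L (k + 2) ^ (G.K0 + 1) * G.rt J (k + 2) := by ring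
    _ ≤ 10 ^ 9 * (3 ^ 2 * G.L k) ^ (G.K0 + 1) * G.rt J (k + 2) := by gcongr; norm_num
    _ = 10 ^ 9 * 3 ^ (2 * (G.K0 + 1)) * G.L k ^ (G.K0 + 1) * G.rt J (k + 2) := by
        rw [mul_pow, ← pow_mul, ← mul_assoc]
    _ ≤ G.L (k + 1) * G.L k ^ (G.K0 + 1) * G.rt J (k + 2) := by gcongr
    _ = _ := by ring

theorem LsJ_anti (hj : j ≤ k) (hk : k ≤ J) : G.L k * G.sJ J k ≤ G.L j * G.sJ J j := by
  induction k, hj using Nat.le_induction with
  | base => rfl
  | succ k _ ih =>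
    refine le_trans ?_ (ih (by omega))
    nlinarith [Nat.mul_le_mul (h.L_succ k) (h.sJ_step (show k < J from hk))]

theorem rt_sJ (hk : k < J) : G.rt J k ≤ G.sJ J (k + 1) := by
  rw [sJ, h.rt_step hk]
  exact Nat.mul_le_mul_right _ ((h.L_mono k.le_succ).trans (h.LK0 _).2)

/-- a bounded number of levels costs a bounded power of `L` -/
theorem rt_skip (hk : k ≤ J) (hm : m ≤ 10) : G.rt J k ≤ G.L k ^ (m + 1) * G.rt J (k + m) := by
  have L0 : 0 < G.L (k + m) := by linarith [h.L_big (k + m)]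
  have a : G.L (k + m) ^ m ≤ G.L k ^ (m + 1) := by
    have := h.three_L k (i := m * m) (by nlinarith)
    refine (Nat.pow_le_pow_left (h.L_add k m) m).trans ?_
    rw [mul_pow, ← pow_mul, pow_succ']
    exact Nat.mul_le_mul_right _ (by omega)
  rcases le_total (k + m) J with e | e
  · rw [h.rt_rt (k.le_add_right m) e, mul_comm]
    exact Nat.mul_le_mul_right _ (((h.rt_le k (k.le_add_right m)).trans_eq (by simp)).trans a)
  · rw [h.rt_hi e, mul_one]
    exact (h.rt_le k hk).trans ((Nat.pow_le_pow_left (h.L_mono e) _).trans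
      ((Nat.pow_le_pow_right L0 (by omega)).trans a))

/-! ### Separation -/

section cls
variable {S : Finset ι} {cl : ι → κ} {U : ι → Finset St} (e : Cls (G.N J) Δ S cl U)
include e

theorem cls_3 (hΔ : (66 * G.sJ J k : ℕ) ≤ Δ) (hk : k ≤ j) (hj : j ≤ J) :
    Cls (G.N j) (3 * (G.p j).D) S cl fun a => G.zs (U a) J j :=
  h.zs_cls e (by norm_num) (le_trans (by rw [sJ]; push_cast; norm_num) hΔ) hk hj

theorem cls_L (hΔ : (21 * (G.L k * G.sJ J k) : ℕ) ≤ Δ) (hk : k ≤ j) (hj : j ≤ J) :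
    Cls (G.N j) (G.dL j) S cl fun a => G.zs (U a) J j := by
  refine h.zs_cls e (Nat.cast_nonneg _) (le_trans ?_ hΔ) le_rfl hj
  have a := h.LsJ_anti hk hj
  have b := Nat.mul_le_mul_right (G.sJ J j) (h.L_big j)
  exact_mod_cast (by nlinarith : (20 * G.L j + 6) * G.sJ J j ≤ 21 * (G.L k * G.sJ J k))

theorem cls_L3 (hΔ : (66 * G.sJ J (k + 1) : ℕ) ≤ Δ) (hk : k + 3 ≤ j) (hj : j ≤ J) :
    Cls (G.N j) (G.dL j) S cl fun a => G.zs (U a) J j :=
  h.cls_L e (k := k + 1 + 2) (le_trans (Nat.cast_le.2 (by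
    have := h.sJ_two (k := k + 1) (J := J) (by omega); omega)) hΔ) hk hj

/-- the field `sep` of the merging -/
theorem cls_J (hΔ : (66 * G.sJ J (k + 1) : ℕ) ≤ Δ) (ht : k + 3 ≤ t) (hk : k < j) (hj : j ≤ J) :
    Cls (G.N j) ((G.mJ t j + 2) * (G.p j).D) S cl fun a => G.zs (U a) J j := by
  unfold mJ
  split_ifs with u
  · rw [h.dL_eq]; exact h.cls_L3 e hΔ (ht.trans u) hj
  · rw [show ((1 : ℕ) + 2 : ℝ) = 3 by norm_num]; exact h.cls_3 e hΔ hk hj

end cls

/-! ### The level of the merging -/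

theorem ex_mv {k0 : ℕ} (hk : k0 < J) (hR : R ≤ 6000 * G.L J ^ G.K0)
    (far : ∀ D, nearT (G.N J) D x y → 66 * G.L J ^ G.K0 + R + R ≤ D)
    (near : nearT (G.N J) (66 * G.sJ J k0 + R + R) x y) : ∃ k ≥ k0, G.Mv J k R x y := by
  obtain ⟨k, a, b, c, d⟩ : ∃ k, nearT (G.N J) (66 * G.sJ J k + R + R) x y ∧ k0 ≤ k ∧ k ≤ J - 1 ∧
      ∀ i, k < i → i ≤ J - 1 → ¬nearT (G.N J) (66 * G.sJ J i + R + R) x y :=
    have e : k0 ≤ J - 1 := by omega
    ⟨Nat.findGreatest (fun k => nearT (G.N J) (66 * G.sJ J k + R + R) x y) (J - 1),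
      Nat.findGreatest_spec (P := fun k => nearT (G.N J) (66 * G.sJ J k + R + R) x y) e near,
      Nat.le_findGreatest e near, Nat.findGreatest_le _, fun _ => Nat.findGreatest_is_greatest⟩
  have kJ : k < J := by omega
  refine ⟨k, b, kJ, fun D u => ?_, a, ?_⟩
  · rcases (show k + 1 ≤ J from kJ).eq_or_lt with e | e
    · rw [e, h.sJ_top]; exact far D u
    · exact by_contra fun w => d (k + 1) k.lt_succ_self (by omega) (u.mono (by omega))
  · have := h.sJ_step kJ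
    have := h.sJ_anti (show k + 1 ≤ J from kJ) le_rfl
    rw [h.sJ_top] at this
    omega

/-- the letters lie in the core -/
theorem zs_ptZ (hk : k ≤ J) (hR : R ≤ 6 * G.sJ J k) (hx : x ∈ P) (hV : V ⊆ tb (G.N J) R {x}) :
    G.zs V J k ⊆ G.ptZ J k P := by
  refine (h.zs_tk hV k hk).trans (tb_mono (singleton_subset_iff.2 (mem_image_of_mem _ hx)) ?_)
  have : R / G.rt J k ≤ 6 * G.L k ^ G.K0 := Nat.div_le_of_le_mul (by rw [sJ] at hR; nlinarith)
  omega

theorem tb_ptZ : tb (G.N k) ((G.p k).R + 3) (G.ptZ J k P) ⊆ G.ptX J k P := by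
  rw [ptZ, tb_tb]
  exact tb_mono Subset.rfl (show _ + (4 * G.L k ^ G.K0 + 3) ≤ 20 * G.L k ^ G.K0 by
    have := (h.LK0 k).1; omega)

theorem tau_ptX (hk : k ≤ J) (hP : P.Nonempty) (e : ∀ y ∈ P, nearT (G.N J) E x y)
    (hE : E + G.sJ J k ≤ (j + 1) * (20 * G.sJ J k)) :
    tau (G.N k) (G.p k).D (G.ptX J k (insert x P)) ≤ 2 * (j + 1) * P.card := by
  rw [ptX, image_insert]
  refine (tau_star (j := j) _ (hP.image _) fun _ u => ?_).trans
    (Nat.mul_le_mul_left _ card_image_le)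
  obtain ⟨y, hy, rfl⟩ := mem_image.1 u
  refine (h.tk_nearT hk (e y hy)).mono ?_
  have r : 0 < G.rt J k := pow_pos three_pos _
  have := (h.LK0 k).1
  rw [← Nat.add_div_right _ r]
  refine Nat.div_le_of_le_mul ?_
  change _ ≤ _ * ((j + 1) * (20 * G.L k ^ G.K0))
  rw [sJ] at hE
  nlinarith

/-- the support of the insertion lies in the cell -/
theorem ptX_zs (hk : k ≤ J) (e : ∀ y ∈ P, nearT (G.N J) E z y)
    (hW : tb (G.N J) (E + 21 * G.sJ J k) {z} ⊆ W) : G.ptX J k P ⊆ G.zs W J k := fun w hw => by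
  obtain ⟨w1, _, u, w2⟩ := mem_tb.1 hw
  obtain ⟨y, hy, rfl⟩ := mem_image.1 u
  have a := near_mul (G.rt J k) w2
  rw [h.rt_N hk] at a
  have b : nearT (G.N J) (G.rt J k / 2) ((G.rt J k : ℤ) • G.tk y J k) y :=
    nearT_of_box (h.tk_sub y k hk)
  rw [← w1]
  refine h.mem_zs k hk w (hW (mem_tb_single.2 ⟨rc_rc _ _, nearT_rc_right.2
    ((((e y hy).trans b.symm).trans a).mono ?_)⟩))
  have := Nat.mul_le_mul_right (G.rt J k) (h.LK0 k).1
  change _ + _ * (20 * G.L k ^ G.K0) ≤ _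
  rw [sJ, mul_left_comm, mul_comm (G.rt J k)]
  omega

theorem card_zs' {X : Finset St} (e : X ⊆ tb (G.N i) R {x}) (hk : k ≤ i) (hR : R ≤ 6 * G.sJ i k) :
    ((G.zs X i k).card : ℝ) ≤ G.Q k := by
  have a : R / G.rt i k ≤ 6 * G.L k ^ G.K0 := Nat.div_le_of_le_mul (by rw [sJ] at hR; nlinarith)
  have b := (h.LK0 k).1
  have c := (h.zs_card e hk).trans (Nat.pow_le_pow_left
    (show _ ≤ 21 * G.L k ^ G.K0 by omega) 4)
  have d := (h.sl_all k (G.top0 0 0)).nu.mon (C := 21 ^ 4) (i := 0) (j := 4) (by norm_num)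
    (Nat.zero_le _) (by norm_num)
  refine le_trans ?_ d
  rw [pow_zero, mul_one, ← mul_pow]
  exact_mod_cast c

section mv
variable (M : G.Mv J k R x y)
include M

/-- the field `wd` of the merging; the cell contains a ball around `y` -/
theorem mv_wd (hW : tb (G.N J) (99 * G.sJ J k) {y} ⊆ W) :
    (G.ptX J k {x, y}).Nonempty ∧ G.ptZ J k {x, y} ⊆ G.ptX J k {x, y} ∧
      tb (G.N k) ((G.p k).R + 3) (G.ptZ J k {x, y}) ⊆ G.ptX J k {x, y} ∧
      G.ptX J k {x, y} ⊆ G.zs W J k ∧ tau (G.N k) (G.p k).D (G.ptX J k {x, y}) ≤ 8 := by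
  have r := M.rad
  refine ⟨⟨_, ptZ_sub (tk_ptZ (mem_insert_self ..))⟩, ptZ_sub, h.tb_ptZ,
    h.ptX_zs (E := 78 * G.sJ J k) M.lt.le (fun w u => ?_) ((tb_mono Subset.rfl (by omega)).trans hW),
    h.tau_ptX (j := 3) (P := {y}) M.lt.le (singleton_nonempty _)
      (fun w u => mem_singleton.1 u ▸ M.near) (by omega)⟩
  rcases mem_insert.1 u with rfl | u
  exacts [M.near.symm.mono (by omega), mem_singleton.1 u ▸ nearT.refl _ _ _]

/-- the letters lie in the core and in the cell -/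
theorem mv_lt (hW : tb (G.N J) (99 * G.sJ J k) {y} ⊆ W) (hz : z = x ∨ z = y)
    (hV : V ⊆ tb (G.N J) R {z}) : V ⊆ W ∧ G.zs V J k ⊆ G.ptZ J k {x, y} := by
  have r := M.rad
  refine ⟨fun w u => hW ?_, h.zs_ptZ M.lt.le r (by simpa using hz) hV⟩
  obtain ⟨u1, u2⟩ := mem_tb_single.1 (hV u)
  refine mem_tb_single.2 ⟨u1, ?_⟩
  rcases hz with rfl | rfl
  exacts [(M.near.symm.trans u2).mono (by omega), u2.mono (by omega)]

/-- the scale of the merging is the distance of the points -/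
theorem mv_scale : (∀ D, nearT (G.N J) D x y → G.rt J k ≤ D) ∧
    nearT (G.N J) (G.L k ^ (G.K0 + 1) * G.rt J k) x y := by
  have r := M.rad
  refine ⟨fun D u => by have := M.far D u; have := h.rt_sJ M.lt; omega, M.near.mono ?_⟩
  have := Nat.mul_le_mul_right (G.sJ J k) (h.L_big k)
  rw [pow_succ', mul_assoc, ← sJ]
  omega

/-- the tracks of the two points at the level of the merging -/
theorem mv_tk : nearT (G.N k) (4 * (G.p k).D) (G.tk x J k) (G.tk y J k) := by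
  have r := M.rad
  refine (h.tk_nearT M.lt.le (M.near.mono (show _ ≤ 78 * G.sJ J k by omega))).mono ?_
  have := (h.LK0 k).1
  rw [sJ, ← mul_assoc, Nat.mul_div_cancel _ (show 0 < G.rt J k from pow_pos three_pos _)]
  change _ ≤ 4 * (20 * G.L k ^ G.K0)
  omega

end mv

/-! ### The free energy of first order through the levels -/

section fe
variable [Fintype ι] [DecidableEq ι] {S : Finset ι} {Y : Fy ι} {r0 r : ℕ → ι → ℝ}
  {f : ℕ → (ι → ℂ) → Conf → ℂ} {q : ι} (T : G.Tu1 b J) (hp : G.Pu) (hj : j ≤ k) (hk : k ≤ i)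
  (hi : i ≤ J) (e : ∀ l, j < l → l ≤ k →
    G.Fd l (G.zz b J l) S (r0 l) (r l) (G.Q l ^ 329)⁻¹ (G.fw S b J Y i l) (f l) ∧
      ∀ s ∈ Pd (r l), PU (G.p l) (G.Q l ^ 210)⁻¹ ((G.fw S b J Y i l).ψ s)) (hq : q ∈ S)
  (hZ : ∀ l, j ≤ l → l < k → ((G.zs (Y.Z q) i l).card : ℝ) ≤ G.Q l ^ 100)
include T hp hk hi e hq hZ

theorem e_lev {l : ℕ} (h1 : j ≤ l) (h2 : l < k) : r (l + 1) q *
    ‖jd {q} (G.fw S b J Y i l).E - jd {q} (G.fw S b J Y i (l + 1)).E‖ ≤ 2⁻¹ := by
  have li := h2.trans_le hk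
  obtain ⟨e1, e2⟩ := e (l + 1) (by omega) h2
  have := h.e_step (h.ad1 T hp (li.trans_le hi)) e1 e2 hq (by
    rw [← fw_step li, fw_Z l li.le]; exact hZ l h1 h2)
  rw [← fw_step li] at this
  exact this.trans (inv_anti₀ two_pos ((h.cQ l (by norm_num)).trans
    (le_self_pow₀ (h.Q1 l) (by norm_num))))

include hj

/-- radii which at least double in each step -/
theorem e_sum (r0 : 0 < r k q) (gr : ∀ l, j ≤ l → l < k → 2 * r (l + 1) q ≤ r l q) :
    r k q * ‖jd {q} (G.fw S b J Y i j).E - jd {q} (G.fw S b J Y i k).E‖ ≤ 1 := by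
  simpa using sum_dbl (E := fun l => jd {q} (G.fw S b J Y i l).E) (r := (r · q)) hj r0
    (by norm_num) gr fun l => h.e_lev T hp hk hi e hq hZ

/-- radii which are at least `a` -/
theorem e_sum' (a0 : 0 ≤ a) (gr : ∀ l, j ≤ l → l < k → a ≤ r (l + 1) q) :
    a * ‖jd {q} (G.fw S b J Y i j).E - jd {q} (G.fw S b J Y i k).E‖ ≤ (k - j : ℕ) * 2⁻¹ :=
  sum_lin (E := fun l => jd {q} (G.fw S b J Y i l).E) (r := (r · q)) hj a0 gr
    fun _ => h.e_lev T hp hk hi e hq hZ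

end fe

end Ok

end Gl

end Pool.Agent.Lib.MP_7f377f_mp.RG.Q4.En
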