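import Pool.Agent.Lib.MP_7f377f_mp.G.JvD
import Pool.Agent.Lib.MP_7f377f_mp.G.JvB

/-! Families of point insertions: insertion of local functions of the block field. -/

noncomputable section

open Pool.Agent.Lib.MP_7f377f_mp.Jet

set_option linter.unusedSectionVars false
variable [Pool.Agent.Lib.MP_7f377f_mp.GD]

namespace Pool.Agent.Lib.MP_7f377f_mp.RG.Q4.En

open Finset Function Sg Real Pos Mg
open scoped Classical

attribute [local irreducible] box lbox tb tau rc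

/-- the clusters with a factor contain the site of the factor -/
theorem iP_off {p : Pa} {n : ℕ} {P : ℕ → Prop} {K : Ac} {H : St → Conf → ℂ} {y : St}
    {X : Finset St} {c : Finset (Finset St)} {U : Conf} (hn : Odd n) (hP : ¬ P 0)
    (hy : ∀ v, rc n v ≠ y → H v = 0) (hX : y ∉ X) : iP p n P K H X c U = 0 :=
  sum_eq_zero fun O hO => by
    obtain ⟨a1, -, rfl, -, a2⟩ := mem_iP.1 hO
    obtain ⟨w, hw⟩ := card_ne_zero.1 fun u : O.toRight.card = 0 => hP (u ▸ a2)
    have w1 := right_mem a1 hw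
    rw [gw, prod_eq_zero hw (congrFun (hy w fun v => hX (by
      rw [← v, rc_eq hn w1]; exact right_sub hw (self_tb hn w1 _))) U), mul_zero, ite_self]

namespace Gl.Ok

variable {G : Gl} {A J k : ℕ} {b : ℝ} (h : G.Ok)
include h

/-- the activity of an inserted letter -/
theorem i1_km (hq : G.HP Sd.StA) (t : G.Tu b J) (hk : k ≤ J) (a : ∀ j ≥ k, G.Big A j)
    {H : St → Conf → ℂ} {Ψ : Lx} {x : ℝ} {y : St} (L : Lt (G.p k) (G.N k) H Ψ) (x0 : 0 < x)
    (bd : ∀ v U, ‖H v U‖ ≤ x) (hy : ∀ v, rc (G.N k) v ≠ y → H v = 0) :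
    ∃ m, KM (G.p k) (G.N k) m (i1 (G.p k) (G.N k) (G.zz b J k).K H) ∧
      kN (G.pA A k) (G.N k) m (G.QA A k ^ 340 * √(G.g k) * G.g k ^ 2 * x) ∧
      ∀ X c, y ∉ X → i1 (G.p k) (G.N k) (G.zz b J k).K H X c = 0 := by
  have q := h.QA0 A k
  have q1 := h.QA1 A k
  have hn := h.N_odd k
  have g0 := h.g0 k
  have s0 := sqrt_pos.2 g0
  obtain ⟨m, m1, m2⟩ := h.baseK hq t.toTu1 k hk a
  generalize (G.zz b J k).K = K at m1 ⊢
  have e : √(G.g k) * G.g k ^ 2 ≤ (G.QA A k ^ 329)⁻¹ := by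
    rw [← one_div, le_div_iff₀' (pow_pos q _)]
    calc _ = G.QA A k ^ 329 * G.g k * (√(G.g k) * G.g k) := by ring
      _ ≤ G.QA A k ^ 500 * G.g k * (1 * 1) := by
          gcongr
          exacts [by linarith, by norm_num, sqrt_le_one.2 (h.g1 k), h.g1 k]
      _ ≤ 1 := by simpa using h.QAg (a k le_rfl)
  have k3 := kN_kP (p := G.pA A k) (P := (· = 1)) (δ := 1 / 6) (h.psA A k) hn (h.RD k)
    (by norm_num) (kN_drop (δ := 1) m2 (by norm_num)) (by positivity) e x0
    (h.vA A k x0.le (by norm_num)) (fun m u => ⟨by omega, .inr u⟩)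
    (add_zero (G.pA A k).a ▸ h.smA A k (δ := 0) zero_le_two le_rfl :)
  refine ⟨_, km_iP (P := (· = 1)) (sqrt_nonneg _) (by simp) m2.1 m1 L.lf bd, k3.mono ?_,
    fun X c hX => funext fun U => iP_off (p := G.p k) (P := (· = 1)) (K := K) (c := c) (U := U)
      hn (by simp) hy hX⟩
  rw [div_inv_eq_mul]
  calc _ = 36 * G.QA A k ^ 332 * (√(G.g k) * G.g k ^ 2 * x) := by ring
    _ ≤ G.QA A k ^ 8 * G.QA A k ^ 332 * (√(G.g k) * G.g k ^ 2 * x) := by
        gcongr
        exact le_trans (by linarith) (le_self_pow₀ (by linarith) (by norm_num))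
    _ = _ := by ring

end Gl.Ok

end Pool.Agent.Lib.MP_7f377f_mp.RG.Q4.En
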