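import Pool.Agent.Lib.MP_7f377f_mp.G.JvD

/-! Families of point insertions: reduction of the merging to its last step. -/

noncomputable section

open Pool.Agent.Lib.MP_7f377f_mp.Jet

set_option linter.unusedSectionVars false
variable [Pool.Agent.Lib.MP_7f377f_mp.GD]

namespace Pool.Agent.Lib.MP_7f377f_mp.RG.Q4.En

open Finset Function Sg Real Pos Mg
open scoped Classical

attribute [local irreducible] box lbox tb tau rc

variable {ι Ω : Type} [DecidableEq ι] [DecidableEq Ω]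

namespace Gl.MhA

variable {G : Gl} {A J i j k c : ℕ} {m : ℕ → ℕ} {ρ : ℕ → ℝ} {D : Wd St ι Ω} {b C : ℝ} {Y : Fy ι}
  {a : ι → ℂ} {r0 : ι → ℝ} {r : ℕ → ι → ℝ} {f : (ι → ℂ) → Conf → ℂ} {W Zc : ι → Finset St}
  {N : Finset Ω} {ω : Ω}
  (M : G.MhA A D b J Y i k a c C r0 r m ρ f W Zc) (h : G.Ok) (t : G.Tu b J) (hp : G.Pu)
  (hq : G.HP Sd.StA)
include M h

/-- the room for the cells -/
theorem cL (hj : k ≤ j) : 1000 * 2 ^ c ≤ G.L j :=
  (Nat.mul_le_mul_left _ (Nat.pow_le_pow_right two_pos M.cA)).trans (h.LA (M.big j hj))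

include t hp

theorem ad (hj : j < i) : G.Ad J j (G.zz b J (j + 1)) := h.ad1 t.toTu1 hp (hj.trans_le M.le)

include hq

/-- the subfamilies above the level of the merging -/
theorem up (hN : D.Tr N) (hj : j ≤ i) (hk : k < j) : G.Fd j (G.zz b J j) (D.ad N) r0 (r j)
      (G.tA A j) ((G.fw D.al b J Y i j).cut (D.ad N))
      (fun s => G.tt (f (cutS (D.ad N) s)) i j) ∧ (G.fw D.al b J Y i j).bs = (G.zz b J j).d ∧
      (∀ x ∈ D.ad N, (G.fw D.al b J Y i j).jt {x} = G.tn b J (Y.jt {x}) i j) ∧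
      ((G.fw D.al b J Y i j).cut (D.ad N)).Ec (D.ad N) id ∧
      ∀ s ∈ Pd (r j), PU (G.p j) (2 * (G.QA A j ^ 211)⁻¹)
        ((G.fw D.al b J Y i j).ψ (cutS (D.ad N) s)) := by
  have := h.chainA t.toTu1 hp hq M.le (M.fw N hN).cut (M.fd N hN).1 (M.um.ka le_rfl hN)
    (cut_bs.trans M.bs) (ec_cut (M.fd N hN).2) j hj hk
  rw [fw_cut (ad_sub hN.1) j hj, cut_bs] at this
  exact ⟨this.1, this.2.2.1, fun x hx => by
    simpa only [cut_jt (singleton_subset_iff.2 hx)] using this.2.2.2.1 x hx, this.2.2.2.2⟩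

theorem jt (hj : j ≤ i) (hk : k < j) :
    ∀ x ∈ D.al, (G.fw D.al b J Y i j).jt {x} = G.tn b J (Y.jt {x}) i j := fun x hx => by
  rcases mem_union.1 hx with e | e
  · obtain ⟨ω, e, e'⟩ := mem_biUnion.1 e
    exact (M.up h t hp hq (tr_one e) hj hk).2.2.1 x (a_sub (mem_singleton_self ω) e')
  · exact (M.up h t hp hq tr_empty hj hk).2.2.1 x (ad_empty (D := D) ▸ e)

/-- the steps above the level of the merging are small -/
theorem sml (hN : D.Tr N) (hj : j < i) (hk : k ≤ j) : ∃ β θ k0 k', (∀ s ∈ Pd (r (j + 1)),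
    (G.sd j (G.zz b J (j + 1))).Sml β θ k0 ((G.fw D.al b J Y i (j + 1)).ψ (cutS (D.ad N) s))
      ((G.fw D.al b J Y i (j + 1)).K (cutS (D.ad N) s))) ∧ FA (r (j + 1)) (G.p j) (G.N j) k' fun s =>
      (G.sd j (G.zz b J (j + 1))).KK ((G.fw D.al b J Y i (j + 1)).ψ (cutS (D.ad N) s))
        ((G.fw D.al b J Y i (j + 1)).K (cutS (D.ad N) s)) := by
  obtain ⟨F, -, -, -, S⟩ := M.up h t hp hq hN hj (Nat.lt_succ_of_le hk)
  have B := h.bl_big j (G.zz b J (j + 1))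
  have st := h.st2 (M.ad h t hp hj).tz
  have q := h.Q0 j
  obtain ⟨k0, k1, k2⟩ := (h.fi_sd F.fi (G.zz b J (j + 1))).km
  have k3 := k1.mono ((h.QA_inv ..).trans (h.th_big j (G.zz b J (j + 1))).1)
  obtain ⟨k', -, a2⟩ := st.K _ _ k0 B.b_le B.θ_le (by positivity) k3
  have u := fun s hs => show (G.sd j (G.zz b J (j + 1))).Sml _ _ k0 _ _ from
    ⟨B.b_le, B.θ_le, pu_mono (S s hs) (mul_le_mul_of_nonneg_left ((h.QA_inv ..).trans
      ((h.inv_up j.le_succ _).trans (inv_anti₀ (pow_pos q _) (pow_le_pow_right₀ (h.Q1 j)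
        (by norm_num))))) zero_le_two), k2 s hs, k3⟩
  exact ⟨_, _, k0, k', u, fa_KK st F.fi.pos (F.fi.sl _) (F.fi.sa _) u a2⟩

theorem rl (hN : D.Tr N) (e : (Y.cut (D.ad N)).Rl (G.p i) (r i)) : ∀ j ≤ i, k < j →
    ∀ r', ((G.fw D.al b J Y i j).cut (D.ad N)).Rl (G.p j) r' :=
  dw_ind (fun _ => by rw [fw_top]; exact (M.fd N hN).1.rl (M.fd N hN).1.fi.pos e)
    fun j hj ih hk => by
    obtain ⟨_, _, _, _, S, F⟩ := M.sml h t hp hq hN hj hk.le
    have ad := M.ad h t hp hj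
    have u := fun s hs a => (h.st2 ad.tz).real _ _ _ _ _ (S s hs) (ih (by omega) _ s hs a).1
      (ih (by omega) _ s hs a).2.1
    refine (M.up h t hp hq hN hj.le hk).1.rl F.pos fun s hs a => ?_
    rw [fw_step hj]
    refine ⟨fun x B h1 h2 => Im.add ((u s hs a).1 x B h1 h2)
      ((h.src_ps ad.tz ad.lt ad.v ad.kp).2.1 x B h1 h2), fun X c U => ?_,
      Im.add (ih (by omega) _ s hs a).2.2 (Im.sum fun y _ => (u s hs a).2.2 y)⟩
    simp only [Fy.cut, fs]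
    rw [← congrFun (trK_cut (ad_sub hN.1)) s, congrFun (trK_eq X c U) s]
    exact tr_real (F.sh X c U) (fun s hs a => (u s hs a).2.1 X c U) a

omit h t hp hq in
theorem ins_eq (ω : Ω) : G.ins D b J (G.fw D.al b J Y i (k + 1)) (k + 1) k a ω =
    G.ins D b J Y i k a ω := by rw [ins, ins, fw_fw M.lt k k.le_succ]

omit h t hp hq in
theorem mg_eq (w : Ω → ℂ) : G.mg D b J (G.fw D.al b J Y i (k + 1)) (k + 1) k a w Zc =
    G.mg D b J Y i k a w Zc := by rw [mg, mg, fw_fw M.lt k k.le_succ]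

variable (u : G.UA A D 0 (k + 1) (r (k + 1)) (G.tA A (k + 1)) (G.fw D.al b J Y i (k + 1)).K)
include u

/-- the last step is an ordinary merging -/
theorem mh0 : G.Mh D b J (G.fw D.al b J Y i (k + 1)) (k + 1) k a c C r0 r (fun _ => 1)
    (fun s => G.tt (f s) i (k + 1)) (fun x => G.zs (W x) i (k + 1)) Zc := by
  have l : k + 1 ≤ i := M.lt
  have Z := fw_Z (G := G) (A := D.al) (b := b) (J := J) (Y := Y) (k + 1) l
  have zz := fun X => zs_zs (G := G) (X := X) l k.le_succ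
  have cL : (1000 * 2 ^ c : ℝ) ≤ G.L k := by exact_mod_cast M.cL h le_rfl
  have c2 : (c : ℝ) < 2 ^ c := by exact_mod_cast c.lt_two_pow_self
  have c0 : (1 : ℝ) ≤ 2 ^ c := one_le_pow₀ one_le_two
  have U := fun N hN => M.up h t hp hq (N := N) hN l k.lt_succ_self
  refine ⟨k.lt_succ_self, l.trans M.le, M.c1, M.C0, M.geo, M.wd, fun ω hω x hx => ?_,
    fun x hx => ?_, fun j a b => (by omega : False).elim, ⟨by linarith [h.LQ k], fun x hx y hy e =>
      (M.las x hx y hy e).mono (mul_le_mul_of_nonneg_right (by linarith) (h.D_pos k).le)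
        Subset.rfl Subset.rfl⟩, fun N hN => ⟨fun j a b x hx => ?_, fun j a b => ?_, fun j a b => ?_⟩,
    fun N hN => ⟨(U N hN).1.mono (U N hN).1.fi.pos (fun _ => le_rfl) (h.QA_inv ..),
      fun T hT x hx y hy e => (jd_cut hT).symm.trans ((U N hN).2.2.2.1 T hT x hx y hy e)⟩,
    (U ∅ tr_empty).2.1, u.um.mono le_rfl (h.QA_inv ..), fw_loc h M.loc _ l⟩
  · rw [Z, zz, fw_top]
    exact ⟨(M.zA ω hω x hx).1, zs_mono (M.zA ω hω x hx).2.1 _ l, (M.zA ω hω x hx).2.2⟩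
  · rw [Z, zz]
    exact ⟨zs_mono (M.zB x hx).1 _ l, (M.zB x hx).2⟩
  all_goals obtain rfl := a.antisymm b
  · obtain ⟨n, e1, e2⟩ := M.sz x (ad_sub hN.1 hx)
    rw [Gl.tn_top, (U N hN).2.2.1 x hx]
    exact ⟨n, (mul_le_mul_of_nonneg_right (pow_le_pow_left₀ (h.Q0 _).le (h.QA_ge A _) _)
      (mul_nonneg ((U N hN).1.fi.pos x).le (h.sz_nn e2).1)).trans e1, e2⟩
  · have m1 : (1 : ℝ) ≤ m (k + 1) := Nat.one_le_cast.2 ((M.fw N hN).rad _ le_rfl l).1
    simp only [Z, zs_top]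
    exact fun x hx y hy e => ((M.fw N hN).sep _ le_rfl l x hx y hy e).mono
      (mul_le_mul_of_nonneg_right (by push_cast; linarith) (h.D_pos _).le) Subset.rfl Subset.rfl
  · exact ⟨le_rfl, by simpa using h.cQ (k + 1) (C := 40) (by norm_num), fun x =>
      ⟨(((M.fw N hN).rad _ le_rfl l).2.2.2.2 x).1, fun e => (lt_irrefl _ e).elim⟩⟩

/-- the insertion of a word depends only on its letters -/
theorem ins_can0 {κ : Type} [DecidableEq κ] [Fintype κ] [Inhabited κ] {e : κ → ι}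
    (he : Injective e) (hω : ω ∈ D.Om) (hA : D.A ω = univ.image e) {Y' : Fy κ}
    (v : Y'.Se (Y.pull e)) :
    G.ins D b J Y i k a ω = G.cIn b J Y' i k (a ∘ e) (D.Z0 ω) (D.X0 ω) := by
  have hN := tr_one hω
  have e1 : ∀ x, e x ∈ D.ad {ω} := fun x =>
    a_sub (mem_singleton_self ω) (hA ▸ mem_image_of_mem _ (mem_univ x))
  have e2 : ∀ {s}, cutS (D.ad {ω}) (exz e s) = exz e s := exz_cut e1
  have al : (wd1 κ (D.Z0 ω) (D.X0 ω)).al = univ := by simp [Wd.al, wd1]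
  rw [← M.ins_eq, (M.mh0 h t hp hq u).ins_can h t hp he hω hA (fw_pull (k := k + 1) he
    (fun x => ad_sub hN.1 (e1 x)) v (fun j hk hj T X c U g hg => by
      obtain ⟨_, _, _, _, -, F⟩ := M.sml h t hp hq hN hj (by omega)
      rw [← jd_cut (g := g) (image_subset_iff.2 fun x _ => e1 x), hg,
        ← jd_exz he ⟨_, F.sh X c U⟩]
      simp only [e2]) (k + 1) M.lt le_rfl), cIn, cIn, ins, ins, al, fw_fw M.lt k k.le_succ]

/-- reality of the insertions -/
theorem real0 (e : (Y.cut (D.ad {ω})).Rl (G.p i) (r i)) (hω : ω ∈ D.Om)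
    (ha : ∀ x ∈ D.A ω, (a x).im = 0) : RealA (G.ins D b J Y i k a ω) :=
  M.ins_eq ω ▸ (M.mh0 h t hp hq u).real h t hp
    (M.rl h t hp hq (tr_one hω) e _ M.lt k.lt_succ_self _) hω ha

end Gl.MhA

end Pool.Agent.Lib.MP_7f377f_mp.RG.Q4.En
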