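import Pool.Agent.Lib.MP_7f377f_mp.G.JvB
import Pool.Agent.Lib.MP_7f377f_mp.G.JvN

/-! Families of point insertions: the merging of words. -/

noncomputable section

open Pool.Agent.Lib.MP_7f377f_mp.Jet

set_option linter.unusedSectionVars false
variable [Pool.Agent.Lib.MP_7f377f_mp.GD]

namespace Pool.Agent.Lib.MP_7f377f_mp.RG.Q4.En

open Finset Function Sg Real Pos Mg
open scoped Classical

attribute [local irreducible] box lbox tb tau rc

variable {ι Ω : Type} [DecidableEq ι] [DecidableEq Ω]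

/-- the values of the new local terms -/
theorem pu_PL {S : Sd} {b θ : ℝ} (u : S.Pu) (st : St2 S) {ψ : Lx} {K : Ac} {k : Mj}
    (hψ : PU S.p b ψ) (hK : KM S.p S.nf k K) (hk : kN S.p S.nf k θ) :
    PU S.p' (2 * (S.Q * b + θ)) (S.PL ψ K) := by
  obtain ⟨_, _, _, a⟩ := hψ.1
  refine ⟨⟨_, _, _, (st.ps _ _ _ _ k ψ K a hK hk).1⟩, fun v B _ _ => ?_⟩
  have h1 := fun B => u.pz_le (ψ := S.ψy ψ v) (fun x _ => hψ.2 _) B
  have h2 : ∀ B, ‖∑ X ∈ S.X1s, S.Fs (S.Ky K v) X B‖ ≤ 2 * (θ / S.Q) := fun B =>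
    (norm_sum_le_of_le _ fun X hX => (Sd.Fs_bd u.nu u.tk.ok u.tk.gr u.P_le hX
      (Sd.k1y u.nu.ok hK v hX) B).trans (div_le_self (mul_nonneg zero_le_two (hk.1 _ _))
        (Sd.X1_card hX))).trans ((mul_sum _ _ _).ge.trans
          (mul_le_mul_of_nonneg_left (Sd.sum_X1 u.nu hk _) zero_le_two))
  have h3 : θ / S.Q ≤ θ / 2 :=
    div_le_div_of_nonneg_left hk.nonneg two_pos (u.nu.cQ' (by norm_num))
  have h4 := mul_le_mul_of_nonneg_right (u.nu.LQ (k := 4) (by have := u.nu.exps; omega))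
    (hψ.nonneg (by linarith [u.ρ0, u.ρ_le]))
  rw [Sd.PL, Sd.Pl, sum_sub_distrib]
  linarith [norm_sub_le_of_le (norm_sub_le_of_le (h1 B) (h1 0)) (norm_sub_le_of_le (h2 B) (h2 0))]

/-- activities whose majorant vanishes -/
theorem km_van {p : Pa} {n : ℕ} {k : Mj} {K : Ac} (h : KM p n k K) {X : Finset St}
    {c : Finset (Finset St)} (e : k X c = 0) : K X c = 0 := funext fun U => by
  have := h.bd X c _ (Mx.per_pc n U)
  rw [h.per, e, zero_mul] at this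
  exact norm_le_zero_iff.1 this

/-- truncation keeps the uniform majorant -/
theorem um_trKA {D : Wd St ι Ω} {Λ : Finset St} {Z W : ι → Finset St} {c n μ : ℕ} {p : Pa} {k : Mj}
    {δ θ d ρ : ℝ} {r r' : ι → ℝ} {ψ : (ι → ℂ) → Lx} {K : (ι → ℂ) → Ac} (g : D.Ok Λ)
    (hZ : ∀ x ∈ D.al, Z x ⊆ W (D.ce x)) (hc : ∀ ω ∈ D.Om, (D.A ω).card ≤ c) (c1 : 1 ≤ c)
    (hD : 1 ≤ p.D) (k1 : kN ((p.ad δ).ad 1) n k θ)
    (h : ∀ N, D.Tr N → FA r p n k fun s => K (cutS (D.ad N) s)) (l : Loc n Z ψ K)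
    (cl : Cls n d D.B id W) (hm : (μ + 2 : ℝ) * p.D ≤ d) (ρ0 : 0 ≤ ρ)
    (hρ : 2 * c * log (1 + ρ) ≤ μ) (hr : ∀ i, 0 < r' i) (e : ∀ i, r' i ≤ ρ * r i) :
    ∃ k', kN ((p.ad δ).ad (1 / 2)) n k' ((1 + ρ) ^ c * θ) ∧
      ∀ N, D.Tr N → ∀ s ∈ Pd r', KM p n k' (trK D.al K (cutS (D.ad N) s)) := by
  have ρ1 : 1 ≤ 1 + ρ := by linarith
  have := kN_tch' (p := (p.ad δ).ad (1 / 2)) (q := 1) (δ := 1 / 2) hD cl hm id_card
    (one_le_pow₀ (n := c) ρ1) (by rw [log_pow]; push_cast; linarith) (by norm_num)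
    (by rwa [ad_ad _ (1 / 2), add_halves])
  rw [pow_one] at this
  refine ⟨_, this, fun N hN s hs => ?_⟩
  rw [← congrFun (trK_cut (ad_sub hN.1)) s]
  refine (((h N hN).trK (D := fun X _ => tch (D.ad N) Z X) (fun X a T hT e => ?_) hr e).km s
    hs).mono fun X a => mul_le_mul_of_nonneg_right ?_ (k1.1 X a)
  · obtain ⟨i, h1, h2⟩ := not_subset.1 e
    rw [jA_cut hT]
    exact funext fun U => l.jdA h1 (by_contra fun a => h2 (mem_tch.2 ⟨hT h1, a⟩)) a U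
  · rw [← pow_mul]
    exact pow_le_pow_right₀ ρ1 (tch_ce g hZ hN hc c1)

/-- truncation of a local family of separated letters -/
theorem trK_sq {A : Finset ι} {p q : Pa} {n m : ℕ} {r : ι → ℝ} {θ d : ℝ} {K : (ι → ℂ) → Ac}
    {ψ : (ι → ℂ) → Lx} {Z : ι → Finset St} {k : Mj} (h : FA r p n k K) (l : Loc n Z ψ (trK A K))
    (hk : kN (q.ad (1 / 6)) n k θ) (hD : 1 ≤ q.D) (hc : Cls n d A id Z)
    (hm : (m + 2 : ℝ) * q.D ≤ d) (m5 : 5 ≤ m) :
    ∃ k', kN q n k' (2 * θ) ∧ ∀ s ∈ Pd r, KM p n k' (trK A K s) := by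
  have k3 := kN_tch' (p := q) hD hc hm id_card one_le_two (δ := 1 / 6) (by
    have : (5 : ℝ) ≤ m := by exact_mod_cast m5
    rw [Nat.cast_one]
    linarith [log_two_lt_d9]) (by norm_num) hk
  rw [pow_one] at k3
  refine ⟨_, k3, ?_⟩
  rw [← one_add_one_eq_two]
  refine (h.trK (D := fun X _ => tch A Z X) (fun X a T hT e => ?_) h.pos fun _ => (one_mul _).ge).km
  obtain ⟨i, h1, h2⟩ := not_subset.1 e
  rw [← jA_trK hT]
  exact funext fun U => l.jdA h1 (by_contra fun a => h2 (mem_tch.2 ⟨hT h1, a⟩)) a U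

namespace Gl

variable {G : Gl} {A J i j k l c : ℕ} {m : ℕ → ℕ} {ρ : ℕ → ℝ} {D : Wd St ι Ω} {b C Wt θ : ℝ}
  {Y : Fy ι} {a : ι → ℂ} {r0 r1 r2 σ : ι → ℝ} {r : ℕ → ι → ℝ} {f f' : (ι → ℂ) → Conf → ℂ}
  {W Zc : ι → Finset St} {w : Ω → ℂ} {N : Finset Ω} {s : ι → ℂ} {ω : Ω} {z : En.Z}

theorem Ok.cMA0 (h : G.Ok) : 0 < G.cMA A k c C := mul_pos (exp_pos _) (pow_pos (h.QA0 A k) _)

theorem Ok.pu_up (h : G.Ok) {φ : Lx} (e : PU (G.p (k + 1)) (2 * (G.QA A (k + 1) ^ 211)⁻¹) φ) :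
    PU (G.p (k + 1)) (2 * (G.QA A k ^ 210)⁻¹) φ :=
  pu_mono e (mul_le_mul_of_nonneg_left ((h.QA_up A k.le_succ _).trans (inv_anti₀
    (pow_pos (h.QA0 A k) _) (pow_le_pow_right₀ (by linarith [h.QA1 A k]) (by norm_num)))) zero_le_two)

/-- the local terms after one step -/
theorem Ok.pu_lastA (h : G.Ok) (t : G.Ad J k z) (big : G.Big A k) {φ : Lx} {L : Ac} {k0 : Mj}
    (e : PU (G.p (k + 1)) (2 * (G.QA A (k + 1) ^ 211)⁻¹) φ)
    (k1 : kN (G.p (k + 1)) (G.N (k + 1)) k0 (G.QA A (k + 1) ^ 329)⁻¹)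
    (k2 : KM (G.p (k + 1)) (G.N (k + 1)) k0 L) :
    PU (G.p k) (G.QA A k ^ 209)⁻¹ (stp (G.sd k z) (G.kp k z) φ L) := by
  have q := h.QA0 A k
  have q1 := h.QA1 A k
  have q2 := h.Q0 k
  have q3 := h.QA_ge A k
  have q4 := h.QA0 A (k + 1)
  have g0 := h.g0 k
  rw [← h.sd_nf k z] at k1 k2
  have a1 := pu_PL t.pu (h.st2 t.tz) e k2 k1
  have s : G.Sz k (G.Q k ^ 2) 1 (G.Q k ^ 100)⁻¹ (fun _ => src (G.sd k z) (G.kp k z)) 0 :=
    ⟨PM.mono (h.ρ0 k) (h.src_ps t.tz t.lt t.v t.kp).1 le_rfl (by nlinarith [sq_nonneg (G.Q k)]) (by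
      have := h.sg_le k
      calc _ ≤ G.Q k ^ 50 * (G.Q k ^ 100)⁻¹ * G.g k ^ 2 / 1 := by gcongr; norm_num
        _ = _ := by ring), 0, km_zero, fun _ _ => le_rfl, fun _ => by
      simp only [Pi.zero_apply, zero_mul, sum_const_zero]; positivity⟩
  refine pu_mono (pu_add (h.sl_all k z).nu a1
    (h.sz_pu s (mul_inv_cancel₀ (pow_pos q2 _).ne').le)) ?_
  have b1 : G.Q k * (2 * (G.QA A (k + 1) ^ 211)⁻¹) ≤ 2 * (G.QA A k ^ 210)⁻¹ :=
    calc _ ≤ G.QA A k * (2 * (G.QA A k ^ 211)⁻¹) := mul_le_mul q3 (mul_le_mul_of_nonneg_left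
          (h.QA_up A k.le_succ _) zero_le_two) (by positivity) q.le
      _ = _ := by field_simp
  have b2 : G.Q k ^ 10 * (G.Q k ^ 2 + 1) * G.g k ^ 2 ≤ (G.QA A k ^ 210)⁻¹ := by
    rw [← one_div, le_div_iff₀ (pow_pos q _)]
    calc _ ≤ G.QA A k ^ 10 * (G.QA A k ^ 2 * G.QA A k) * G.g k ^ 2 * G.QA A k ^ 210 := by
          gcongr
          nlinarith [pow_le_pow_left₀ q2.le q3 2, one_le_pow₀ (n := 2) (show 1 ≤ G.QA A k by linarith)]
      _ = G.QA A k ^ 223 * G.g k * G.g k := by ring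
      _ ≤ G.QA A k ^ 500 * G.g k * 1 := by
          gcongr
          exacts [by linarith, by norm_num, h.g1 k]
      _ ≤ 1 := by rw [mul_one]; exact h.QAg big
  change 2 * (G.Q k * _ + _) + _ ≤ _
  linarith [h.QA_up A k.le_succ 329, h.QA_le A k (show 209 < 210 by norm_num),
    h.QA_le A k (show 210 < 329 by norm_num), inv_pos.2 (pow_pos q 329)]

theorem Ok.gr_log (h : G.Ok) (big : G.Big A k) {x : ℝ} (x0 : 0 ≤ x)
    (e : 200 * (1 + x) ^ c ≤ G.QA A k) : 2 * c * log (1 + x) ≤ (G.L k - 2 : ℕ) ∧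
      ((G.L k - 2 : ℕ) + 2 : ℝ) * (G.p k).D ≤ G.dL k := by
  have n2 := h.nuA big (G.top0 0 0)
  have c1 : 1000 * ((0 : ℕ) + 20) * log (G.QA A k) ≤ (G.L k : ℝ) := n2.logQ_le.trans n2.r_le_L
  have c2 : 10 ≤ log (G.QA A k) := n2.logQ_ge
  have p := pow_pos (show 0 < 1 + x by linarith) c
  have c3 := log_le_log p (show _ ≤ G.QA A k by linarith)
  rw [log_pow] at c3
  rw [Nat.cast_sub (by have := h.L_big k; omega), dL]
  norm_num at c1 ⊢
  linarith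

namespace MhA

variable (M : G.MhA A D b J Y i k a c C r0 r m ρ f W Zc)
include M

theorem card (ω) (h : ω ∈ D.Om) : (D.A ω).card ≤ c := (M.wd ω h).2.2.1

theorem zW (x) (hx : x ∈ D.al) : Y.Z x ⊆ W (D.ce x) := by
  rcases mem_union.1 hx with h | h
  · obtain ⟨ω, h, e⟩ := mem_biUnion.1 h
    exact ce_A M.geo h e ▸ (M.zA ω h x e).2.1
  · rw [ce_B M.geo h]; exact (M.zB x h).1

theorem zC (x) (hx : x ∈ D.al) : G.zs (Y.Z x) i k ⊆ Zc (D.ce x) :=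
  (zs_mono (M.zW x hx) k M.lt.le).trans (M.zB _ (ce_mem M.geo hx)).2

theorem las' (h : G.Ok) :
    200 * 2 ^ c ≤ G.Q k ∧ Cls (G.N k) ((2 * c + 5) * (G.p k).D) D.B id Zc := by
  have a1 : (1000 * 2 ^ c : ℝ) ≤ G.L k := by exact_mod_cast M.cL h le_rfl
  have a2 : (c + 1 : ℝ) ≤ 2 ^ c := by exact_mod_cast c.lt_two_pow_self
  have a3 : (0 : ℝ) ≤ c := c.cast_nonneg
  exact ⟨by linarith [h.LQ k], fun x hx y hy e => (M.las x hx y hy e).mono
    (mul_le_mul_of_nonneg_right (by linarith) (h.D_pos k).le) Subset.rfl Subset.rfl⟩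

variable (h : G.Ok) (t : G.Tu b J) (hp : G.Pu) (hq : G.HP Sd.StA)
include h t hp hq

theorem um_step {ρ' d : ℝ} {μ : ℕ} {V : ι → Finset St} (hj : j < i) (hk : k ≤ j)
    (u : G.UA A D 0 (j + 1) (r (j + 1)) (G.QA A (j + 1) ^ 329)⁻¹
      (G.fw D.al b J Y i (j + 1)).K) (hV : ∀ x ∈ D.al, G.zs (Y.Z x) i j ⊆ V (D.ce x))
    (cl : Cls (G.N j) d D.B id V) (hm : (μ + 2 : ℝ) * (G.p j).D ≤ d) (ρ0 : 0 ≤ ρ')
    (hρ : 2 * c * log (1 + ρ') ≤ μ) (hQ : 200 * (1 + ρ') ^ c ≤ G.QA A j) (hr : ∀ x, 0 < σ x)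
    (e : ∀ x, σ x ≤ ρ' * r (j + 1) x) : G.UA A D (1 / 2) j σ
      ((G.QA A j ^ 329)⁻¹ / 20) (G.fw D.al b J Y i j).K := by
  obtain ⟨k0, k1, k2⟩ := u
  have ad := M.ad h t hp hj
  have q := h.QA0 A j
  have n2 := h.nuA (M.big j hk) (G.zz b J (j + 1))
  have st := h.st2 ad.tz
  have b1 := h.QA_sm A j (i := 210) (C := 2) (by norm_num) (by norm_num)
  have b2 := h.QA_sm A j (i := 329) (C := 1) (by norm_num) (by norm_num)
  rw [one_mul] at b2
  have Q1 : G.Q j ^ 100 ≤ G.QA A j ^ 100 := pow_le_pow_left₀ (h.Q0 j).le (h.QA_ge A j) _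
  have c1 := (mul_le_mul_of_nonneg_right Q1 (by positivity)).trans b1
  have c2 := (mul_le_mul_of_nonneg_right Q1 (by positivity)).trans b2
  replace k1 := (kN_A0 k1 le_rfl).mono (h.QA_up A j.le_succ _)
  rw [← h.sd_nf j (G.zz b J (j + 1))] at k1 k2
  obtain ⟨k', a1, a2⟩ := h.hp_sd hq ad.tz A n2 _ _ k0 b1 b2 (by positivity) k1
  have l := fw_loc (A := D.al) (b := b) (J := J) h M.loc (j + 1) hj
  rw [← h.sd_nf j (G.zz b J (j + 1))] at l
  rw [fw_step hj]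
  refine UA.mono (θ := (1 + ρ') ^ c * (10 * (G.QA A j ^ 330)⁻¹)) (um_trKA M.geo (fun x hx => ?_)
    M.card M.c1 (h.ps0 j).D (a1.mono (thA_num (h.QA1 A j) n2.ok.g0 n2.ok.Qg)) (fun N hN => ?_)
    (l.step (h.sd_all j _).nu) cl hm ρ0 hρ hr e) le_rfl (fun _ => le_rfl) ?_
  · rw [fw_Z _ hj, ← zs_step hj]
    exact hV x hx
  · obtain ⟨F, -, -, -, S⟩ := M.up h t hp hq hN hj (Nat.lt_succ_of_le hk)
    exact fa_KK st F.fi.pos (F.fi.sl _) (F.fi.sa _) (fun s hs => ⟨c1, c2, h.pu_up (S s hs),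
      k2 N hN s hs, Q4.kN_pA k1⟩) fun ψ K v => a2 ψ K v.pu v.km
  · rw [le_div_iff₀ (by norm_num)]
    calc _ = 200 * (1 + ρ') ^ c * (G.QA A j ^ 330)⁻¹ := by ring
      _ ≤ G.QA A j * (G.QA A j ^ 330)⁻¹ := by gcongr
      _ = _ := by field_simp

/-- the uniform majorant above the level of the merging -/
theorem um_up : ∀ j ≤ i, k < j → G.UA A D 0 j (r j) (G.tA A j) (G.fw D.al b J Y i j).K :=
  dw_ind (fun _ => by simpa only [fw_top] using M.um) fun j hj ih hk => by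
    obtain ⟨-, R1, -, -, R3⟩ := (M.fw ∅ tr_empty).rad j hk hj.le
    have R4 : 200 * (1 + ρ j) ^ c ≤ G.QA A j := by
      linarith [(M.cel j hk hj).1.2.2.2.2, pow_pos (show 0 < 1 + ρ j by linarith) c]
    have R5 := h.gr_log (M.big j hk.le) R1 R4
    exact (M.um_step h t hp hq hj hk.le (ih (by omega)) (fun x hx =>
      zs_mono (M.zW x hx) j hj.le) (M.cel j hk hj).2 R5.2 R1 R5.1 R4
      (M.up h t hp hq tr_empty hj.le hk).1.fi.pos fun x => (R3 x).2 hj).mono (by norm_num)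
      (fun _ => le_rfl) (div_le_self (h.tA0 A j).le (by norm_num))

theorem pos (x : ι) : 0 < r (k + 1) x := (M.up h t hp hq tr_empty M.lt k.lt_succ_self).1.fi.pos x

/-- the uniform majorant at the level of the merging -/
theorem um_low : G.UA A D (1 / 2) k (r (k + 1)) ((G.QA A k ^ 329)⁻¹ / 20)
    (G.fw D.al b J Y i k).K :=
  M.um_step h t hp hq (μ := 2 * c + 3) M.lt le_rfl (M.um_up h t hp hq _ M.lt k.lt_add_one) M.zC
    (M.las' h).2 (by push_cast; linarith) zero_le_one (by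
      have : (0 : ℝ) ≤ c := c.cast_nonneg
      rw [one_add_one_eq_two]
      push_cast
      nlinarith [log_two_lt_d9])
    (one_add_one_eq_two (R := ℝ) ▸ (M.las' h).1.trans (h.QA_ge A k)) (M.pos h t hp hq)
    fun _ => (one_mul _).ge

/-- the subfamilies at the level of the merging -/
theorem low (hN : D.Tr N) : G.Fd k (G.zz b J k) (D.ad N) r0 (r (k + 1))
      (G.QA A k ^ 329)⁻¹ ((G.fw D.al b J Y i k).cut (D.ad N))
      (fun s => G.tt (f (cutS (D.ad N) s)) i k) ∧ (G.fw D.al b J Y i k).bs = (G.zz b J k).d ∧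
      (∀ x ∈ D.ad N, (G.fw D.al b J Y i k).jt {x} = G.tn b J (Y.jt {x}) i k) ∧
      ((G.fw D.al b J Y i k).cut (D.ad N)).Ec (D.ad N) D.ce ∧ ∀ s ∈ Pd (r (k + 1)),
        PU (G.p k) (G.QA A k ^ 209)⁻¹ ((G.fw D.al b J Y i k).ψ (cutS (D.ad N) s)) := by
  obtain ⟨F, a1, a2, a3, S⟩ := M.up h t hp hq hN M.lt k.lt_succ_self
  have ad := M.ad h t hp M.lt
  have D0 := h.D_pos k
  have q := h.QA0 A k
  have cl : Cls (G.N k) ((c + 2) * (G.p k).D) (D.ad N) D.ce (G.fs (D.ad N) k (G.zz b J (k + 1))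
      ((G.fw D.al b J Y i (k + 1)).cut (D.ad N))).Z := fun x hx y hy e => by
    have := cls_ce M.geo M.zC hN.1 (M.las' h).2 x hx y hy e
    simp only [fs, Fy.cut, fw_Z _ M.lt, ← zs_step M.lt]
    exact this.mono (by nlinarith) Subset.rfl Subset.rfl
  have c1 := h.QA_sm A k (i := 210) (C := 2) (by norm_num) (by norm_num)
  have c2 := h.QA_sm A k (i := 329) (C := 1) (by norm_num) (by norm_num)
  rw [one_mul] at c2
  have Q1 : G.Q k ^ 100 ≤ G.QA A k ^ 100 := pow_le_pow_left₀ (h.Q0 k).le (h.QA_ge A k) _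
  have b1 := h.fam1 (ρ := 1) ad (F.mono F.fi.pos (fun _ => le_rfl) (h.QA_up A k.le_succ _))
    (fun x => (((M.fw N hN).rad _ le_rfl M.lt).2.2.2.2 x).1) (fun s hs => h.pu_up (S s hs))
    ((mul_le_mul_of_nonneg_right Q1 (by positivity)).trans c1)
    ((mul_le_mul_of_nonneg_right Q1 (by positivity)).trans c2) cl le_rfl
    (ce_card M.geo hN M.card M.c1) zero_le_one (mul_one _).le F.fi.pos fun _ => (one_mul _).ge
  have b2 := h.fs_ec ad.pu F (fun T hT x hx y hy e => a3 T hT x hx y hy fun a => e (congrArg _ a))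
    cl (by positivity)
  rw [fs_cut (ad_sub hN.1), ← fw_step M.lt] at b1 b2
  simp only [← tt_step _ M.lt, ← zz_step b ad.lt] at b1
  obtain ⟨k0, k1, k2⟩ := F.fi.km
  refine ⟨b1.rad F.fi.pos (((M.um_low h t hp hq).ka (by norm_num) hN).mono (fun _ => le_rfl)
    (div_le_self (by positivity) (by norm_num))),
    by rw [fw_step M.lt, fs_bs, a1, zz_step b ad.lt]; rfl, fun x hx => ?_, b2,
    fun s hs => by rw [fw_step M.lt]; exact h.pu_lastA ad (M.big k le_rfl) (S s hs) k1 (k2 s hs)⟩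
  have e := singleton_subset_iff.2 hx
  rw [← cut_jt e, fw_step M.lt, ← fs_cut (ad_sub hN.1), h.fs_jt ad.tz F.fi hx, cut_bs, cut_jt e, a1,
    a2 x hx, Gl.tn_step M.lt]
  rfl

theorem ent_cut (hN : D.Tr N) (s : ι → ℂ) : ent D.al (G.fw D.al b J Y i k).ψ (cutS (D.ad N) s) =
    (G.fw D.al b J Y i k).ψ (cutS (D.ad N) s) :=
  (ma_cut _ (ad_sub hN.1)).trans ((congrFun (ma_congr fun _ hT => (jL_cut hT).symm) s).trans
    (congrFun (M.low h t hp hq hN).1.fi.psi s).symm)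

omit t hp hq in
theorem z0_le (hω : ω ∈ D.Om) : ((D.Z0 ω).card : ℝ) ≤ G.QA A k ^ 2 := by
  have g := M.geo.sub ω hω
  have e := (card_le_card g.1).trans ((card_le_tau (h.ps0 k).D fun x hx =>
    rc_eq (h.N_odd k) (g.2.2 hx)).trans (Nat.mul_le_mul_right _ (M.wd ω hω).2.2.2))
  have c2 : (c : ℝ) ≤ 2 ^ c := by exact_mod_cast c.lt_two_pow_self.le
  calc _ ≤ (c : ℝ) * (2 * (G.p k).D + 1) ^ 4 := by exact_mod_cast e
    _ ≤ G.Q k * G.Q k := mul_le_mul (by linarith [(M.las' h).1, c.cast_nonneg (α := ℝ)]) (h.DQ k)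
      (by positivity) (h.Q0 k).le
    _ = G.Q k ^ 2 := (sq _).symm
    _ ≤ _ := pow_le_pow_left₀ (h.Q0 k).le (h.QA_ge A k) _

theorem eta_le (hω : ω ∈ D.Om) (hs : s ∈ Pd (r (k + 1))) (U : Conf) :
    ‖eta D (G.fw D.al b J Y i k).E a ω s U‖ ≤ exp (c * C + 1) := by
  have hN := tr_one hω
  have sA : D.A ω ⊆ D.ad {ω} := a_sub (mem_singleton_self ω)
  obtain ⟨F, -, -, a3, S⟩ := M.up h t hp hq hN M.lt k.lt_add_one
  have ad := M.ad h t hp M.lt
  have q := h.QA0 A k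
  have cc : cutS (D.ad {ω}) (cutS (D.A ω) s) = cutS (D.A ω) s := by rw [cut_comm, cut_cut sA]
  have e2 := Mh.tr_E (s := s) F sA
  rw [Jet.tr, ma_lin fun T hT x hx y hy ne => (jd_cut (hT.trans sA)).symm.trans
    (a3 T (hT.trans sA) x hx y hy ne), jd_empty] at e2
  have l := fw_loc (A := D.al) (b := b) (J := J) h M.loc (k + 1) M.lt
  rw [← h.sd_nf k (G.zz b J (k + 1))] at l
  obtain ⟨k0, k1, k2⟩ := F.fi.km
  rw [← h.sd_nf k (G.zz b J (k + 1))] at k1 k2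
  have ey := fun s hs => ey_le ad.pu (S s hs) (k2 s hs) k1
  refine (Complex.norm_exp_le_exp_norm _).trans (exp_le_exp.2 ?_)
  rw [Mh.tr_E (M.low h t hp hq hN).1 sA, fw_step M.lt]
  simp only [fs]
  rw [← e2, add_sub_add_comm, add_sub_cancel_left, add_sub_right_comm, ← sum_sub_distrib,
    ← sum_sub_distrib]
  refine norm_add_le_of_le ((norm_sum_le_of_le _ fun x hx => ?_).trans
    ((sum_le_card_nsmul _ _ C fun x hx => (M.zA ω hω x hx).2.2).trans ?_)) ?_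
  · rw [← mul_sub]
    exact norm_mul_le_of_le (hs x).le le_rfl
  · rw [nsmul_eq_mul]
    exact mul_le_mul_of_nonneg_right (Nat.cast_le.2 (M.card ω hω)) M.C0
  rw [← sum_subset (inter_subset_left (s₂ := D.Z0 ω)) fun y h1 h2 => sub_eq_zero.2 (ind_zero
    (g := fun s => (G.sd k _).Ey _ _ y) fun x hx => l.ey (h.sd_all k _).nu fun e => h2 ?_)]
  swap
  · rw [fw_Z _ M.lt, ← zs_step M.lt] at e
    exact mem_inter.2 ⟨h1, (M.zA ω hω x hx).1 (rc_eq (h.N_odd k) h1 ▸ e)⟩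
  refine (norm_sum_le_of_le _ (n := fun _ => 2 * (G.Q k * (2 * (G.QA A (k + 1) ^ 211)⁻¹) +
    (G.QA A (k + 1) ^ 329)⁻¹)) fun y _ => ?_).trans ?_
  · have a1 := ey _ (cut_mem (B := D.A ω) hs) y
    have a2 := ey 0 (zero_mem F.fi.pos) y
    simp only [Fy.cut, cc, cut_zero] at a1 a2
    exact (norm_sub_le_norm_sub_add_norm_sub _ _ _).trans
      ((add_le_add a1 ((norm_sub_rev _ _).trans_le a2)).trans_eq (two_mul _).symm)
  · have q' := h.QA0 A (k + 1)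
    have q2 := h.Q0 k
    have a1 : G.Q k * (2 * (G.QA A (k + 1) ^ 211)⁻¹) ≤ 2 * (G.QA A k ^ 210)⁻¹ :=
      calc _ ≤ G.QA A k * (2 * (G.QA A k ^ 211)⁻¹) := by
            exact mul_le_mul (h.QA_ge A k) (mul_le_mul_of_nonneg_left (h.QA_up A k.le_succ _)
              zero_le_two) (by positivity) q.le
        _ = _ := by field_simp
    have a2 := h.QA_up A k.le_succ 329
    have a3 := h.QA_le A k (i := 0) (j := 208) (by norm_num)
    have a4 := h.QA_le A k (i := 210) (j := 329) (by norm_num)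
    rw [sum_const, nsmul_eq_mul]
    calc _ ≤ G.QA A k ^ 2 * (6 * (G.QA A k ^ 210)⁻¹) := mul_le_mul ((Nat.cast_le.2
          (card_le_card inter_subset_right)).trans (M.z0_le h hω))
          (by linarith [inv_pos.2 (pow_pos q 329)]) (by positivity) (by positivity)
      _ = 6 * (G.QA A k ^ 208)⁻¹ := by field_simp
      _ ≤ 1 := by simp only [pow_zero, inv_one] at a3; linarith [inv_pos.2 (pow_pos q 208)]

theorem lc : Lc (G.N k) D (ent D.al (G.fw D.al b J Y i k).ψ) (G.fw D.al b J Y i k).K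
    (eta D (G.fw D.al b J Y i k).E a) (r (k + 1)) (G.fw D.al b J Y i k).Z Zc := by
  have p := M.pos h t hp hq
  have l := fw_loc (A := D.al) (b := b) (J := J) h M.loc k M.lt.le
  refine ⟨h.N_odd k, fun X c U => ?_, fun x B => ?_, fun ω U => ((((hb_ma p _).refl (A := ∅)).sub
    (eqv_const p _)).sub (Hb.refl ⟨_, sh_lin p _ a⟩)).exp.fst, ⟨fun x y hy => ?_, l.act⟩,
    fun ω h1 x h2 => ?_, fun x hx => ?_, fun ω _ x hx s t => funext fun U => ?_⟩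
  · simp only [fw_step M.lt, fs, trK_eq]
    exact hb_ma p _
  · simp only [ent, ma_apply]
    exact hb_ma p _
  · refine ind_pi.2 fun B => ?_
    simp only [ent, ma_apply]
    exact (ind_pi.1 (l.psi x y hy) B).tr _
  · rw [fw_Z _ M.lt.le]
    exact (M.zA ω h1 x h2).1
  · rw [fw_Z _ M.lt.le]
    exact (M.zC x (mem_union_right _ hx)).trans_eq (by rw [ce_B M.geo hx])
  · rw [eta, eta, Jet.tr, ma_upd hx, sum_congr rfl fun y hy => by
      rw [update_of_ne (ne_of_mem_of_not_mem hy hx)]]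

theorem hyp : ∃ kk, kN ((G.pA A k).ad (1 / 2)) (G.N k) kk ((G.QA A k ^ 329)⁻¹ / 20) ∧
    Hyp (G.p k) (G.N k) D (ent D.al (G.fw D.al b J Y i k).ψ) (G.fw D.al b J Y i k).K
      (eta D (G.fw D.al b J Y i k).E a) (r (k + 1)) kk (G.QA A k ^ 209)⁻¹ 1
      (fun _ => exp (c * C + 1)) Zc := by
  have p := M.pos h t hp hq
  obtain ⟨kk, k1, k2⟩ := M.um_low h t hp hq
  have F := fun N hN => M.low h t hp hq (N := N) hN
  refine ⟨kk, k1, (h.sl_all k (G.top0 0 0)).nu.p_ok.1, sqrt_nonneg _, M.geo,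
    fun ω h => ⟨(M.wd ω h).1, (M.wd ω h).2.1⟩, k1.1, (inv_pos.2 (pow_pos (h.QA0 A k) _)).le, le_rfl,
    fun _ => (exp_pos _).le, fun N a b => ⟨p, (F N ⟨a, b⟩).1.fi.sa _, k2 N ⟨a, b⟩⟩, fun N a b => ?_,
    fun N a b s hs => ?_, fun ω hω => ⟨fun _ _ => .const _, fun s hs x U =>
      ((M.lc h t hp hq).eη ω U).choose_spec.hol s hs x, fun s hs U _ => ?_⟩⟩
  · simp only [M.ent_cut h t hp hq ⟨a, b⟩]
    exact (F N ⟨a, b⟩).1.fi.sl _
  · rw [M.ent_cut h t hp hq ⟨a, b⟩]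
    exact (F N ⟨a, b⟩).2.2.2.2 s hs
  · rw [one_mul]
    exact ⟨M.eta_le h t hp hq hω hs U, fun _ => M.eta_le h t hp hq hω hs U⟩

omit t hp hq in
theorem vw_le {v : Ω → ℝ} (v0 : ∀ ω, 0 ≤ v ω) (p : ∀ x, 0 < r (k + 1) x) {δ : ℝ}
    (δ1 : δ ≤ 1) (hv : ∀ y, ∑ ω ∈ D.Om.filter (y ∈ D.X0 ·), v ω / ∏ x ∈ D.A ω, r (k + 1) x ≤ Wt)
    (y : St) : ∑ ω ∈ D.Om.filter (y ∈ D.X0 ·), v ω * vw D (r (k + 1)) (G.QA A k ^ 209)⁻¹
      (fun _ => exp (c * C + 1)) ω * exp (((G.pA A k).a + δ) * tau (G.N k) (G.p k).D (D.X0 ω)) ≤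
      G.cMA A k c C * Wt := by
  have q := h.QA0 A k
  refine le_trans (sum_le_sum fun ω hω => ?_) ((mul_sum _ _ _).ge.trans
    (mul_le_mul_of_nonneg_left (hv y) h.cMA0.le))
  have hω := (mem_filter.1 hω).1
  have a1 := mul_le_mul_of_nonneg_left (M.z0_le h hω) (inv_pos.2 (pow_pos q 209)).le
  have a2 := h.QA_le A k (i := 0) (j := 207) (by norm_num)
  have a3 : (tau (G.N k) (G.p k).D (D.X0 ω) : ℝ) ≤ c := Nat.cast_le.2 (M.wd ω hω).2.2.2
  have a4 := mul_le_mul (add_le_add_right δ1 (G.pA A k).a) a3 (Nat.cast_nonneg _)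
    (add_nonneg (h.psA A k).a zero_le_one)
  rw [show (G.QA A k ^ 209)⁻¹ * G.QA A k ^ 2 = (G.QA A k ^ 207)⁻¹ by field_simp] at a1
  rw [pow_zero, inv_one] at a2
  refine le_trans (le_of_eq (by rw [vw]; ring)) (mul_le_mul_of_nonneg_right (show exp (c * C + 1) *
    exp (2 * (G.QA A k ^ 209)⁻¹ * (D.Z0 ω).card) * exp (((G.pA A k).a + δ) * tau (G.N k) (G.p k).D
      (D.X0 ω)) ≤ _ from ?_) (div_nonneg (v0 ω) (prod_nonneg fun x _ => (p x).le)))
  rw [cMA, pow_mul, ← h.exp_pA, ← exp_nat_mul, ← exp_add, ← exp_add, ← exp_add, exp_le_exp]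
  nlinarith [inv_pos.2 (pow_pos q 207)]

/-- the free energy of a family of words -/
theorem en (hN : D.Tr N) (s : ι → ℂ) : (G.fw D.al b J Y i k).E (cutS (D.ad N) s) =
    ∑ ω ∈ N, (tr (D.A ω) (G.fw D.al b J Y i k).E (cutS (D.ad N) s) - (G.fw D.al b J Y i k).E 0) +
      (G.fw D.al b J Y i k).E (cutS D.B (cutS (D.ad N) s)) := by
  obtain ⟨F, -, -, e, -⟩ := M.low h t hp hq hN
  have e' := fun T hT x hx y hy ne => (jd_cut hT).symm.trans (e T hT x hx y hy ne)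
  have cA := fun ω (h : ω ∈ N) x => ce_A (i := x) M.geo (hN.1 h)
  have : cutS D.B (cutS (D.ad N) s) = cutS (D.B \ N.image D.cl) (cutS (D.ad N) s) := funext fun x => by
    by_cases a : x ∈ D.B
    · by_cases a' : x ∈ N.image D.cl <;> simp [cutS, a, a', Wd.ad,
        disjoint_right.1 (a_out M.geo hN.1) a]
    · simp [cutS, a]
  rw [this, ← Mh.tr_E F subset_union_right, ← cut_cut (Subset.refl (D.ad N)), ← Mh.tr_E F Subset.rfl,
    cut_cut Subset.rfl, Jet.tr, Wd.ad, ma_union ((a_out M.geo hN.1).mono_right sdiff_subset)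
      fun T hT x hx y hy a1 a2 => e' T hT x hx y hy ?_, ma_bi (fun ω a ω' a' =>
        M.geo.dis ω (hN.1 a) ω' (hN.1 a')) fun T hT x hx y hy ω a ω' a' ne a1 a2 => e' T
          (hT.trans subset_union_left) x hx y hy ?_, jd_empty]
  · simp only [Jet.tr]
    ring
  · rw [cA ω a x a1, cA ω' a' y a2]
    exact fun e => ne (hN.2 a a' e)
  · obtain ⟨ω, a, a1⟩ := mem_biUnion.1 a1
    rw [cA ω a x a1, ce_B M.geo (mem_sdiff.1 a2).1]
    exact fun e => (mem_sdiff.1 a2).2 (e ▸ mem_image_of_mem _ a)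

/-- the new activities, with room in the norm -/
theorem merge_sl (p2 : ∀ x, 0 < r2 x) (hr : ∀ x, r2 x ≤ r (k + 1) x)
    (hw : ∀ y, ∑ ω ∈ D.Om.filter (y ∈ D.X0 ·),
      ‖w ω‖ * r2 (D.cl ω) / ∏ x ∈ D.A ω, r (k + 1) x ≤ Wt)
    (sm : G.QA A k ^ 330 * (G.cMA A k c C * Wt) ≤ 1) :
    ∃ k', kN ((G.pA A k).ad (1 / 4)) (G.N k) k' ((G.QA A k ^ 329)⁻¹ / 3) ∧
      ∀ s ∈ Pd r2, KM (G.p k) (G.N k) k' ((G.mg D b J Y i k a w Zc).K s) := by
  have q := h.QA0 A k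
  obtain ⟨kk, k1, H⟩ := M.hyp h t hp hq
  have q0 := inv_pos.2 (pow_pos q 330)
  have q1 := h.QA_le A k (show 329 < 330 by norm_num)
  have k2 := kN_clus ((h.psA A k).ad (show (0 : ℝ) ≤ 5 / 12 by norm_num)) (h.N_odd k) M.geo
    (δ := 1 / 12) (θ' := (G.QA A k ^ 330)⁻¹) (by norm_num) (by rw [ad_ad]; norm_num; simpa using k1)
    (fun ω => mul_nonneg (mul_nonneg (norm_nonneg (w ω)) (p2 (D.cl ω)).le) (H.vw_nn ω))
    (fun y => (M.vw_le h (δ := 5 / 12 + 1 / 12) (fun ω => mul_nonneg (norm_nonneg _) (p2 _).le) H.pos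
      (by norm_num) hw y).trans_eq' (by simp only [Pa.ad, add_assoc]; rfl) |>.trans
        (by rwa [← mul_one (_⁻¹), le_inv_mul_iff₀ (pow_pos q _)]))
    (by
      have := h.smA A k (δ := 5 / 12) (by norm_num)
        (show 4 * ((G.QA A k ^ 329)⁻¹ / 20 + (G.QA A k ^ 330)⁻¹) ≤ _ by linarith)
      change 4 * (exp (4 * ((G.pA A k).a + 5 / 12)) * _) * (2 * (G.p k).D + 1) ^ 4 ≤ _
      linarith)
  have fa := H.fa_K2 (w := w) p2 hr
  simp only [one_pow, one_mul] at fa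
  obtain ⟨k', a1, a2⟩ := trK_sq (q := (G.pA A k).ad (1 / 4)) (m := 2 * c + 3) fa
    ((M.lc h t hp hq).loc2 M.geo fun ω e => (H.col ω e).2)
    (by rw [ad_ad]; norm_num; exact (kN_drop k1 (by norm_num)).add k2) (h.ps0 k).D
    (M.las' h).2 (by push_cast; exact le_of_eq (congrArg₂ _ (by ring) rfl)) (by linarith [M.c1])
  exact ⟨k', a1.mono (by linarith), a2⟩

/-- the merging of the words, with two radii -/
theorem merge' (h1 : ∀ x, r1 x ≤ r2 x) (hr : ∀ x, r2 x ≤ r (k + 1) x) (e : Md D a w (G.N i) r1 f f')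
    (hw : ∀ y, ∑ ω ∈ D.Om.filter (y ∈ D.X0 ·),
      ‖w ω‖ * r2 (D.cl ω) / ∏ x ∈ D.A ω, r (k + 1) x ≤ Wt)
    (sm : G.QA A k ^ 330 * (G.cMA A k c C * Wt) ≤ 1) :
    G.Fd k (G.zz b J k) D.B r1 r2 (G.QA A k ^ 329)⁻¹ (G.mg D b J Y i k a w Zc)
      (fun s => G.tt (f' s) i k) ∧
      G.KB A (1 / 4) k r2 ((G.QA A k ^ 329)⁻¹ / 3) (G.mg D b J Y i k a w Zc).K ∧
      (G.mg D b J Y i k a w Zc).bs = (G.zz b J k).d ∧ (G.mg D b J Y i k a w Zc).Ec D.B id ∧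
      (∀ x ∈ D.B, (G.mg D b J Y i k a w Zc).jt {x} = G.tn b J (Y.jt {x}) i k +
        (0, ∑ ω ∈ D.Om.filter (D.cl · = x), w ω • G.ins D b J Y i k a ω)) ∧
      ∀ s ∈ Pd r2, PU (G.p k) (G.QA A k ^ 209)⁻¹ ((G.mg D b J Y i k a w Zc).ψ s) := by
  have q := h.QA0 A k
  have p1 := e.hd.pos
  have p2 := fun x => (p1 x).trans_le (h1 x)
  have p := M.pos h t hp hq
  have L := M.lc h t hp hq
  obtain ⟨kk, -, H⟩ := M.hyp h t hp hq
  obtain ⟨F, a1, a2, a3, a4⟩ := M.low h t hp hq tr_empty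
  have ec := M.ent_cut h t hp hq tr_empty
  rw [ad_empty] at F a2 a3 a4 ec
  have v' : G.KB A (1 / 4) k r2 _ _ := M.merge_sl h t hp hq p2 hr hw sm
  have v : G.KA A k r2 (G.QA A k ^ 329)⁻¹ (G.mg D b J Y i k a w Zc).K :=
    (v'.ka (by norm_num)).mono (fun _ => le_rfl) (div_le_self (by positivity) (by norm_num))
  have f1 : Fi (G.p k) (G.N k) D.B Zc r2 (G.QA A k ^ 329)⁻¹ (G.mg D b J Y i k a w Zc).ψ
      (G.mg D b J Y i k a w Zc).K := by
    have l := L.loc2 (p := G.p k) (w := w) M.geo fun ω e => (H.col ω e).2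
    simp only [ec] at l
    exact ⟨p2, F.fi.psi, ma_congr fun T hT => (jA_trK hT).symm, F.fi.pu, l,
      v.imp fun _ u => ⟨kN_pA u.1, u.2⟩⟩
  have hE : ∀ {r : ι → ℝ}, (∀ x, 0 < r x) → Hb r fun s => Complex.exp
      ((G.fw D.al b J Y i k).E (cutS D.B s)) := fun p =>
    (Hb.refl (A := ∅) (show Hb _ ((G.fw D.al b J Y i k).cut D.B).E from F.ma ▸ hb_ma p _)).exp.fst
  have nu := (h.sl_all k (G.zz b J k)).nu
  have md := h.md_tt e M.lt.le fun N hN => (M.fd N hN).1.eq.fst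
  refine ⟨⟨f1, F.ma, md.hd, ?_, fun U hU T hT => ?_⟩, v', Prod.ext ?_ ?_, fun T hT x hx y hy ne =>
    a3 T hT x hx y hy (by rwa [ce_B M.geo (hT hx), ce_B M.geo (hT hy)]), fun x hx => ?_,
    fun s hs => a4 s fun x => (hs x).trans_le (hr x)⟩
  · have f2 := f1.mono p1 h1 le_rfl fun _ => Subset.rfl
    obtain ⟨_, -, fa⟩ := f2.fa
    have := f2.fl.add (nu.lo_Φ (h.tok_sl (t.gd k (M.lt.le.trans M.le)).tz) (pm_zero (h.ρ0 k)).lo)
    simp only [Sd.Φ, Pi.zero_apply, add_zero] at this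
    exact (hE p1).hd.mul (hd_rep nu.p_ok.1 (sqrt_nonneg _) this fa)
  · have := L.rep M.geo (p := G.p k) (w := w) (U := U) (fun x B => (G.sl k (G.zz b J k)).β *
      (cx (G.sl k (G.zz b J k)).m B B + (G.sl k (G.zz b J k)).T B)) (hE p)
      (fun s => by rw [cut_cut Subset.rfl]) hT
    simp only [ec] at this
    refine (md.eq U hU T hT).trans (.trans (sum_congr rfl fun N hN => ?_) this.symm)
    split_ifs with v
    swap
    · rfl
    have hN : D.Tr N := ⟨mem_powerset.1 hN, v.1⟩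
    have F := (M.low h t hp hq hN).1.eq
    rw [← jd_cut (lt_sub hT), ← jd_cut (g := fun s => _ * _ * _) (lt_sub hT)]
    simp only [lin_cut (T := D.ad N) subset_union_left]
    rw [((hb_lin F.fst.pos _ a).refl.mul (F.eqv hU)).eq _ (lt_sub hT)]
    refine congrArg _ (congrArg _ (funext fun s => ?_))
    rw [M.ent_cut h t hp hq hN, mul_right_comm, ← mul_assoc, ← Complex.exp_add]
    simp only [eta, ← Complex.exp_sum, ← Complex.exp_add]
    refine congrArg₂ _ (congrArg _ ?_) rfl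
    rw [show (Fy.cut _ _).E s = _ from M.en h t hp hq hN s, sum_biUnion fun ω a ω' a' =>
      M.geo.dis ω (hN.1 a) ω' (hN.1 a'), ← sum_congr (s₁ := N) rfl fun ω h => lin_cut (a_sub h)]
    simp only [sum_sub_distrib]
    ring
  · exact (congrArg _ cut_zero).trans (congrArg Prod.fst a1)
  · exact K2_zero.trans (congrArg Prod.snd a1)
  · rw [← a2 x hx]
    exact Prod.ext ((jL_cut (singleton_subset_iff.2 hx)).trans (add_zero _).symm) (L.jA_one M.geo hx)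

/-- the merging of the words -/
theorem merge (hr : ∀ x, r2 x ≤ r (k + 1) x) (e : Md D a w (G.N i) r2 f f')
    (hw : ∀ y, ∑ ω ∈ D.Om.filter (y ∈ D.X0 ·),
      ‖w ω‖ * r2 (D.cl ω) / ∏ x ∈ D.A ω, r (k + 1) x ≤ Wt)
    (sm : G.QA A k ^ 330 * (G.cMA A k c C * Wt) ≤ 1) :
    G.Fd k (G.zz b J k) D.B r2 r2 (G.tA A k) (G.mg D b J Y i k a w Zc)
      (fun s => G.tt (f' s) i k) ∧ G.KB A (1 / 4) k r2 (G.tA A k / 3) (G.mg D b J Y i k a w Zc).K ∧
      (G.mg D b J Y i k a w Zc).bs = (G.zz b J k).d ∧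
      (G.mg D b J Y i k a w Zc).Ec D.B id ∧ ∀ x ∈ D.B, (G.mg D b J Y i k a w Zc).jt {x} =
        G.tn b J (Y.jt {x}) i k +
          (0, ∑ ω ∈ D.Om.filter (D.cl · = x), w ω • G.ins D b J Y i k a ω) :=
  have ⟨a1, a2, a3, a4, a5, _⟩ := M.merge' h t hp hq (fun _ => le_rfl) hr e hw sm
  ⟨a1, a2, a3, a4, a5⟩

/-- the majorants of the insertions -/
theorem ins_km : ∃ kI : Ω → Mj, (∀ ω ∈ D.Om, KM (G.p k) (G.N k) (kI ω) (G.ins D b J Y i k a ω)) ∧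
    (∀ ω X c, 0 ≤ kI ω X c ∧ (kI ω X c ≠ 0 → D.X0 ω ⊆ X)) ∧ ∀ (v : Ω → ℝ) Wt, (∀ ω, 0 ≤ v ω) →
      0 < Wt → (∀ y, ∑ ω ∈ D.Om.filter (y ∈ D.X0 ·), v ω / ∏ x ∈ D.A ω, r (k + 1) x ≤ Wt) →
      kN ((G.pA A k).ad (1 / 3)) (G.N k) (fun X c => ∑ ω ∈ D.Om, v ω * kI ω X c)
        (4 * (G.cMA A k c C * Wt)) := by
  obtain ⟨kk, k1, H⟩ := M.hyp h t hp hq
  have q0 := inv_pos.2 (pow_pos (h.QA0 A k) 329)
  refine ⟨_, fun ω => H.km_ins, fun ω X c => ⟨kc_nn H.kt_nn H.vw_nn,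
    fun a => kc_sup a (mem_singleton_self ω)⟩, fun v Wt v0 W0 hv => ?_⟩
  have := kN_ins (δ := 1 / 6) ((h.psA A k).ad (show (0 : ℝ) ≤ 1 / 3 by norm_num)) (h.N_odd k) M.geo
    (by norm_num) (by rw [ad_ad]; norm_num; simpa using k1) (θ1 := (G.QA A k ^ 329)⁻¹)
    (by linarith) q0 (mul_pos h.cMA0 W0) (fun ω => mul_nonneg (v0 ω) (H.vw_nn ω))
    (fun y => (M.vw_le h v0 H.pos (δ := 1 / 3 + 1 / 6) (by norm_num) hv y).trans_eq'
      (by simp only [Pa.ad, add_assoc]; rfl)) (h.smA A k (by norm_num) le_rfl)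
  simpa only [one_pow, one_mul, ← kc_mul, prod_singleton] using this

/-- one word: the size in the stronger norm and the support -/
theorem ins_one (hω : ω ∈ D.Om) : (∃ k0, KM (G.p k) (G.N k) k0 (G.ins D b J Y i k a ω) ∧
    kN (G.pA A k) (G.N k) k0 (4 * (G.cMA A k c C / ∏ x ∈ D.A ω, r (k + 1) x))) ∧
    ∀ X c, ¬ D.X0 ω ⊆ X → G.ins D b J Y i k a ω X c = 0 := by
  obtain ⟨kI, a1, a2, a3⟩ := M.ins_km h t hp hq
  have p := prod_pos fun x (_ : x ∈ D.A ω) => M.pos h t hp hq x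
  refine ⟨⟨_, a1 ω hω, ?_⟩, fun X c e => km_van (a1 ω hω) (by_contra fun u => e ((a2 ω X c).2 u))⟩
  have := a3 (fun ω' => if ω' = ω then 1 else 0) (∏ x ∈ D.A ω, r (k + 1) x)⁻¹
    (fun _ => ite_nonneg zero_le_one le_rfl) (inv_pos.2 p) fun y => by
      simp only [ite_div, zero_div, sum_ite_eq', one_div]
      split_ifs
      exacts [le_rfl, (inv_pos.2 p).le]
  simp only [ite_mul, one_mul, zero_mul, sum_ite_eq', if_pos hω] at this
  exact kN_A0 this (by norm_num)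

/-- the last step is an ordinary merging -/
theorem mh : G.Mh D b J (G.fw D.al b J Y i (k + 1)) (k + 1) k a c C r0 r (fun _ => 1)
    (fun s => G.tt (f s) i (k + 1)) (fun x => G.zs (W x) i (k + 1)) Zc ∧
    ∀ x ∈ D.al, (G.fw D.al b J Y i (k + 1)).jt {x} = G.tn b J (Y.jt {x}) i (k + 1) :=
  ⟨M.mh0 h t hp hq (M.um_up h t hp hq _ M.lt k.lt_succ_self), M.jt h t hp hq M.lt k.lt_succ_self⟩

/-- the insertion of a word depends only on its letters -/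
theorem ins_can {κ : Type} [DecidableEq κ] [Fintype κ] [Inhabited κ] {e : κ → ι} {ω : Ω}
    (he : Injective e) (hω : ω ∈ D.Om) (hA : D.A ω = univ.image e) {Y' : Fy κ}
    (u : Y'.Se (Y.pull e)) :
    G.ins D b J Y i k a ω = G.cIn b J Y' i k (a ∘ e) (D.Z0 ω) (D.X0 ω) :=
  M.ins_can0 h t hp hq (M.um_up h t hp hq _ M.lt k.lt_succ_self) he hω hA u

/-- reality of the insertions -/
theorem real {ω : Ω} (e : (Y.cut (D.ad {ω})).Rl (G.p i) (r i)) (hω : ω ∈ D.Om)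
    (ha : ∀ x ∈ D.A ω, (a x).im = 0) : RealA (G.ins D b J Y i k a ω) :=
  M.real0 h t hp hq (M.um_up h t hp hq _ M.lt k.lt_succ_self) e hω ha

end MhA

end Gl

end Pool.Agent.Lib.MP_7f377f_mp.RG.Q4.En
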