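import Pool.Agent.Lib.MP_7f377f_mp.G.MgX1
import Pool.Agent.Lib.MP_7f377f_mp.G.CaX2a

/-! Merging of general sources: the main statements. -/

noncomputable section

open Pool.Agent.Lib.MP_7f377f_mp.Jet

set_option linter.unusedSectionVars false
variable [Pool.Agent.Lib.MP_7f377f_mp.GD]

namespace Pool.Agent.Lib.MP_7f377f_mp.RG.Q4.En

open Finset Function Sg Real Pos Mg
open scoped Classical

attribute [local irreducible] box lbox tb tau rc Gl.zs Gl.fw Gl.tn Gl.tt Gl.zz Gl.xf Gl.cIn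
  Gl.ins

variable {γ Ω κ α ι : Type} [Fintype γ] [DecidableEq γ] [DecidableEq Ω] [Fintype κ] [DecidableEq κ]
  [Inhabited κ] [Fintype α] [DecidableEq ι]

theorem hd_less {r r' : ι → ℝ} {f : (ι → ℂ) → Conf → ℂ} (h : HD r f) (hr : ∀ i, 0 < r' i)
    (e : ∀ i, r' i ≤ r i) : HD r' f :=
  ⟨h.1.imp fun _ a U => (a U).shrink hr e, fun s hs => h.2 s fun i => (hs i).trans_le (e i)⟩

theorem xO_zero (n : ℕ) (U : Conf) : xO n 0 U = 0 := by simp [xO, sO]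

/-- all the words in one cell -/
def Wx.one (S : Wx γ Ω κ α) : Wx Unit Ω κ Empty :=
  ⟨S.Om, fun _ => (), S.F, S.a, 0, S.V, fun _ => univ.biUnion S.W, S.Z0, S.X0, (·.elim), 0⟩

namespace Wx

variable {S : Wx γ Ω κ α} {ω : Ω} {N : Finset Ω} {x : Ω × κ ⊕ γ}

theorem mem_A : x ∈ S.wd.A ω ↔ ∃ l, x = .inl (ω, l) := by simp [wd, eq_comm]

theorem mem_B : x ∈ S.wd.B ↔ ∃ q, x = .inr q := by simp [wd, eq_comm]

theorem mem_ad : x ∈ S.wd.ad N ↔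
    (∃ ω ∈ N, ∃ l, x = .inl (ω, l)) ∨ ∃ q, (∀ ω ∈ N, S.cl ω ≠ q) ∧ x = .inr q := by
  rcases x with x | x <;> simp [Wd.ad, wd, eq_comm]

theorem inj_A (ω : Ω) : Injective fun l : κ => (.inl (ω, l) : Ω × κ ⊕ γ) := fun _ _ e => by
  simpa using e

end Wx

namespace Gl

variable {G : Gl} {b : ℝ} {J k j : ℕ} {S : Wx γ Ω κ α} {c d l : ℕ} {C A Wt x y E : ℝ} {m : ℕ → ℕ}
  {σ : ℕ → ℝ} {ρ : ℕ → γ → ℝ} {w : Ω → ℂ} {N : Finset Ω} {ω : Ω}

theorem xv_zero : G.xv b J 0 = 0 := by simpa using xv_add (G := G) (b := b) (I := J) (F1 := 0) (F2 := 0) (-1)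

theorem Ok.tn_zero (h : G.Ok) (t : G.Tu b J) {i : ℕ} (hi : i ≤ J) (k : ℕ) : G.tn b J 0 i k = 0 := by
  rcases le_total k i with hk | hk
  · refine dw_ind (P := fun k => G.tn b J 0 i k = 0) Gl.tn_top (fun k hk ih => ?_) k hk
    have u := pu_of_pm (pm_zero (h.ρ0 (k + 1)))
    have v := (h.st2 (t.gd (k + 1) (hk.trans_le hi)).tz).lin _ _ _ _ _ _ _ _ (-1) u u km_zero km_zero
    rw [Gl.tn_step hk, ih]
    exact Prod.ext (by simpa [ts] using v) (by simpa [ts] using dK_smul _ _ _ 0 0 0)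
  · simp only [tn, dw, Nat.sub_eq_zero_of_le hk]
    rfl

theorem Ok.rx_zero (h : G.Ok) (t : G.Tu b J) : G.Rx b J k d σ 0 :=
  ⟨⟨0, 0, .zero (h.ρ0 J), by linarith [h.b0 J], by simp⟩, fun j _ _ => ⟨0, by
    simpa using (h.b0 j).le, by
    rw [xv_zero, h.tn_zero t le_rfl]
    exact ⟨by simpa using pm_zero (h.ρ0 j), 0, km_zero, fun _ _ => le_rfl, fun _ => by simp⟩⟩⟩

namespace Mx

variable (M : G.Mx b J k S c d C A m σ ρ) (h : G.Ok) (t : G.Tu b J) (hp : G.Pu)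
include M

theorem c1 : 1 ≤ c := Fintype.card_pos.trans_le M.card

theorem pos (hk : k < j) (hj : j ≤ J) : ∀ x : Ω × κ ⊕ γ, 0 < x.elim (fun _ => σ j) (ρ j)
  | .inl _ => (M.rad j hk hj).2.2.1
  | .inr q => (M.rad j hk hj).2.2.2.1 q

theorem rx {x : Ω × κ ⊕ γ} (hx : x ∈ S.wd.al) :
    G.Rx b J k d (fun j => x.elim (fun _ => σ j) (ρ j)) (S.src x) := by
  rcases mem_union.1 hx with a | a
  · obtain ⟨ω, h, a⟩ := mem_biUnion.1 a
    obtain ⟨l, rfl⟩ := Wx.mem_A.1 a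
    exact (M.lt' ω h l).2.2.1
  · obtain ⟨q, rfl⟩ := Wx.mem_B.1 a
    exact M.sl q

theorem ins (x : Ω × κ ⊕ γ) : (S.src x).In (G.N J) (S.sup x) := by
  rcases x with x | x
  exacts [M.lF _ _, M.lP _]

theorem clB {δ : ℝ} (e : Cls (G.N j) δ univ id fun q => G.zs (S.W q) J j) :
    Cls (G.N j) δ S.wd.B id fun x => G.zs (S.sup x) J j := fun x hx y hy ne => by
  obtain ⟨q, rfl⟩ := Wx.mem_B.1 hx
  obtain ⟨q', rfl⟩ := Wx.mem_B.1 hy
  exact e q (mem_univ _) q' (mem_univ _) fun a => ne (congrArg Sum.inr a)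

include h

theorem cls (hN : S.wd.Tr N) (hk : k < j) (hj : j ≤ J) :
    Cls (G.N j) ((m j + 2) * (G.p j).D) (S.wd.ad N) id fun x => G.zs (S.sup x) J j := by
  have D0 := h.D_pos j
  have c1 : (1 : ℝ) ≤ c := by exact_mod_cast M.c1
  have u : ∀ {q q' V V'}, q ≠ q' → V ⊆ S.W q → V' ⊆ S.W q' → Sep (G.N j) ((m j + 2) * (G.p j).D)
      (G.zs V J j) (G.zs V' J j) := fun {q q' V V'} a a1 a2 =>
    (M.cel.2 j hk hj q (mem_univ _) q' (mem_univ _) a).mono (mul_le_mul_of_nonneg_right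
      (by nlinarith [(m j).cast_nonneg (α := ℝ)]) D0.le) (zs_mono a1 j hj) (zs_mono a2 j hj)
  have v := fun ω (a : ω ∈ N) l => (M.lt' ω (hN.1 a) l).1
  intro x hx y hy ne
  rcases Wx.mem_ad.1 hx with ⟨ω, a, l, rfl⟩ | ⟨q, a, rfl⟩ <;>
    rcases Wx.mem_ad.1 hy with ⟨ω', a', l', rfl⟩ | ⟨q', a', rfl⟩
  · by_cases e : ω = ω'
    · subst e
      exact M.sep j hk hj ω (hN.1 a) l (mem_univ _) l' (mem_univ _) fun e => ne (congrArg
        (fun l => Sum.inl (ω, l)) e)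
    · exact u (fun e' => e (hN.2 a a' (congrArg Sum.inr e'))) (v ω a l) (v ω' a' l')
  · exact u (a' ω a) (v ω a l) Subset.rfl
  · exact u (a ω' a').symm Subset.rfl (v ω' a' l')
  · exact u (fun e => ne (congrArg Sum.inr e)) Subset.rfl Subset.rfl

theorem x0_box (hω : ω ∈ S.Om) : S.X0 ω ⊆ box (G.N k / 2) :=
  (M.wd ω hω).2.2.2.1.trans (by
    rw [zs_step M.lt (G.top0 0 0)]
    exact tb_dom (h.N_odd k))

theorem geo : S.wd.Ok (box (G.N k / 2)) :=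
  ⟨fun ω a => ⟨(M.wd ω a).2.1, (M.wd ω a).1, M.x0_box h a⟩, fun _ _ => by simp [Wx.wd, disjoint_left],
    fun _ _ _ _ e => by simp [Wx.wd, disjoint_left, e.symm], fun _ _ => Wx.mem_B.2 ⟨_, rfl⟩⟩

theorem dJ : d ≤ (G.p J).R := M.dR.trans
  (Nat.mul_le_mul_left 4 (Nat.pow_le_pow_left (h.L_mono M.lt.le) _))

include t

/-- the hypotheses of the merging for the family of all the letters -/
theorem mh : ∃ r0, G.Mh S.wd b J (G.xt S.wd.al S.src S.sup b J) J k S.cen c C r0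
    (fun j => Sum.elim (fun _ => σ j) (ρ j)) m (G.xf S.wd.al S.src b J J) S.sup
    fun x => G.zs (S.sup x) J k := by
  obtain ⟨r0, p0, hr⟩ : ∃ r0 : Ω × κ ⊕ γ → ℝ, (∀ x, 0 < r0 x) ∧ ∀ j, k < j → j ≤ J → ∀ x,
      r0 x ≤ x.elim (fun _ => σ j) (ρ j) :=
    ⟨fun x => (Ioc k J).inf' (nonempty_Ioc.2 M.lt) fun j => x.elim (fun _ => σ j) (ρ j),
      fun x => (lt_inf'_iff _).2 fun j a => M.pos (mem_Ioc.1 a).1 (mem_Ioc.1 a).2 x,
      fun j a a' x => inf'_le _ (mem_Ioc.2 ⟨a, a'⟩)⟩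
  have pJ := M.pos M.lt le_rfl
  have g := M.geo h
  have D0 := h.D_pos J
  have m1 : (1 : ℝ) ≤ m J := by exact_mod_cast (M.rad J M.lt le_rfl).1
  have c0 : (0 : ℝ) ≤ c := c.cast_nonneg
  have cl := fun N hN => by simpa only [zs_top] using M.cls h (N := N) hN M.lt le_rfl
  have cA : ∀ ω, (S.wd.A ω).card ≤ c := fun ω => card_image_le.trans M.card
  have cB := M.clB (M.cel.2 J M.lt le_rfl)
  simp only [zs_top] at cB
  have zA : ∀ ω ∈ S.Om, ∀ x ∈ S.wd.A ω, S.sup x ⊆ S.sup (S.wd.cl ω) := fun ω a x hx => by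
    obtain ⟨l, rfl⟩ := Wx.mem_A.1 hx
    exact (M.lt' ω a l).1
  refine ⟨r0, M.lt, le_rfl, M.c1, M.C0, g, fun ω a => ⟨(M.wd ω a).2.2.1, (M.wd ω a).2.2.2.1, cA ω,
    (M.wd ω a).2.2.2.2⟩, fun ω a x hx => ⟨?_, zA ω a x hx, ?_⟩, fun _ _ => ⟨Subset.rfl, Subset.rfl⟩,
    fun j a a' => ⟨(M.rad j a a'.le).2.1, fun x hx y hy ne => (M.clB (M.cel.2 j a a'.le) x hx y hy
      ne).mono (mul_le_mul_of_nonneg_right (by linarith) (h.D_pos j).le) Subset.rfl Subset.rfl⟩,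
    ⟨M.big, M.clB M.cel.1⟩, fun N hN => ⟨fun j a a' x hx => ?_, fun j a => M.cls h hN a,
      fun j a a' => ⟨(M.rad j a a').1, ?_, fun x => ⟨hr j a a' x, fun e => ?_⟩⟩⟩,
    fun N hN => ⟨?_, fun T _ _ _ _ _ _ => jd_zero T⟩, xt_bs, ?_, xt_loc h M.ins⟩
  · obtain ⟨l, rfl⟩ := Wx.mem_A.1 hx
    exact (M.lt' ω a l).2.1
  · rw [ex_eq (ad_sub (tr_one a).1 (a_sub (mem_singleton_self ω) hx)) M.lt]
    obtain ⟨l, rfl⟩ := Wx.mem_A.1 hx
    exact (M.lt' ω a l).2.2.2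
  · rw [xt_jt (ad_sub hN.1 hx)]
    exact (M.rx (ad_sub hN.1 hx)).2 j a a'
  · have := le_self_pow₀ (show 1 ≤ 1 + (m j : ℝ) by simp) (Nat.ne_of_gt M.c1)
    linarith [(M.rad j a a').2.1]
  · rcases x with x | x
    exacts [((M.rad j a a').2.2.2.2 e).1, ((M.rad j a a').2.2.2.2 e).2 x]
  · have F := h.xt_fd t (M.dJ h) pJ M.ins (fun _ a => (M.rx (ad_sub hN.1 a)).1) (cl N hN)
      (mul_le_mul_of_nonneg_right (by linarith) D0.le)
    have e := hr J M.lt le_rfl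
    simp only [xt_cut (ad_sub hN.1), xf_cut (ad_sub hN.1)]
    exact ⟨F.fi, F.ma, hd_less F.eq.fst p0 e, hd_less F.eq.snd p0 e, F.eq.eq⟩
  · refine h.xt_um t (M.dJ h) pJ g M.ins (fun _ a => (M.rx a).1) cl (by positivity)
      (fun x hx => ?_) (fun ω _ => cA ω) M.c1 cB (mul_le_mul_of_nonneg_right (by nlinarith) D0.le)
      (by linarith [M.big, h.Q_mono M.lt.le, pow_pos (two_pos (α := ℝ)) c])
    rcases mem_union.1 hx with a | a
    · obtain ⟨ω, a, e⟩ := mem_biUnion.1 a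
      exact ce_A g a e ▸ zA ω a x e
    · rw [ce_B g a]

include hp

theorem ins_eq {r0} (H : G.Mh S.wd b J (G.xt S.wd.al S.src S.sup b J) J k S.cen c C r0
    (fun j => Sum.elim (fun _ => σ j) (ρ j)) m (G.xf S.wd.al S.src b J J) S.sup
    fun x => G.zs (S.sup x) J k) (hω : ω ∈ S.Om) :
    G.ins S.wd b J (G.xt S.wd.al S.src S.sup b J) J k S.cen ω = G.wX b J k S ω :=
  H.ins_can h t hp (Y' := G.xt univ (S.F ω) (fun _ => ∅) b J) (Wx.inj_A ω) hω rfl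
    (xt_se (H := S.src) (Wx.inj_A ω) (fun _ => ad_sub (tr_one hω).1 (a_sub (mem_singleton_self ω)
      (Wx.mem_A.2 ⟨_, rfl⟩))) _)

omit M h t hp in
theorem prod_A (ω : Ω) (σ : ℝ) (ρ : γ → ℝ) :
    ∏ x ∈ S.wd.A ω, x.elim (fun _ => σ) ρ = σ ^ Fintype.card κ := by
  simp [Wx.wd, prod_image (Wx.inj_A ω).injOn]

/-- the merging -/
theorem merge0 {r : γ → ℝ} (r0 : ∀ q, 0 < r q ∧ r q ≤ ρ (k + 1) q)
    (hw : ∀ y, ∑ ω ∈ S.Om.filter (y ∈ S.X0 ·), ‖w ω‖ * r (S.cl ω) ≤ Wt)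
    (sm : G.Q k ^ 330 * (G.cM k c C * Wt) ≤ σ (k + 1) ^ Fintype.card κ) : ∃ Y : Fy γ,
    G.Fd k (G.zz b J k) univ r r (G.Q k ^ 329)⁻¹ Y
      (fun s => G.tt (pr b (G.N J) (S.Y (G.N J) w) s) J k) ∧ Y.bs = (G.zz b J k).d ∧
      Y.Ec univ id ∧ (Y.Z = fun q => G.zs (S.W q) J k) ∧ (∀ q, Y.jt {q} =
        G.tn b J (G.xv b J (S.P q)) J k +
          (0, ∑ ω ∈ S.Om.filter (S.cl · = q), w ω • G.wX b J k S ω)) ∧
      (∀ s ∈ Pd r, PU (G.p k) (G.Q k ^ 210)⁻¹ (Y.ψ s)) ∧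
      ∃ k', kN ((G.p k).ad (1 / 4)) (G.N k) k' ((G.Q k ^ 329)⁻¹ / 3) ∧
        ∀ s ∈ Pd r, KM (G.p k) (G.N k) k' (Y.K s) := by
  obtain ⟨_, H⟩ := M.mh h t
  have p := M.pos k.lt_succ_self M.lt
  have σ0 := pow_pos (M.rad _ k.lt_succ_self M.lt).2.2.1 (Fintype.card κ)
  have p2 : ∀ x : Ω × κ ⊕ γ, 0 < x.elim (fun _ => σ (k + 1)) r := by
    rintro (x | x)
    exacts [p (.inl x), (r0 x).1]
  have le : ∀ x : Ω × κ ⊕ γ, x.elim (fun _ => σ (k + 1)) r ≤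
      x.elim (fun _ => σ (k + 1)) (ρ (k + 1)) := by
    rintro (x | x)
    exacts [le_rfl, (r0 x).2]
  have md := md_x (G := G) (b := b) (J := J) (fun ω a l => gi_xO (M.lt' ω a l).2.2.1.1.choose_spec.choose_spec.1)
    (fun q => gi_xO (M.sl q).1.choose_spec.choose_spec.1) w p2
  have hw' : ∀ y, ∑ ω ∈ S.wd.Om.filter (y ∈ S.wd.X0 ·), ‖w ω‖ * (S.wd.cl ω).elim
      (fun _ => σ (k + 1)) r / ∏ x ∈ S.wd.A ω, x.elim (fun _ => σ (k + 1)) (ρ (k + 1)) ≤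
        Wt / σ (k + 1) ^ Fintype.card κ := fun y => by
    simp only [prod_A, ← sum_div]
    exact div_le_div_of_nonneg_right (hw y) σ0.le
  have sm' : G.Q k ^ 330 * (G.cM k c C * (Wt / σ (k + 1) ^ Fintype.card κ)) ≤ 1 := by
    rwa [← mul_div_assoc, ← mul_div_assoc, div_le_one σ0]
  obtain ⟨F, a1, a2, a3⟩ := H.merge h t hp le md hw' sm'
  have e := fun q : γ => (Wx.mem_B (S := S)).2 ⟨q, rfl⟩
  obtain ⟨F', a4⟩ := F.pull Sum.inr_injective e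
  refine ⟨_, by simpa only [comp_def, exz_apply Sum.inr_injective, Sum.elim_inr] using F', ?_, a4 a2, rfl,
    fun q => ?_, fun s hs => ?_, (H.merge_sl h t hp p2 le hw' sm').imp fun _ a => ⟨a.1,
      fun s hs => a.2 _ (exz_mem Sum.inr_injective p2 hs)⟩⟩
  · simpa only [Fy.bs, Fy.pull, exz_zero] using a1
  · rw [pull_jt Sum.inr_injective, a3 _ (e q), xt_jt (B := S.wd.al) (mem_union_right _ (e q))]
    refine congrArg₂ (· + ·) rfl (Prod.ext rfl (sum_congr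
      (filter_congr fun _ _ => Sum.inr_injective.eq_iff) fun ω a => ?_))
    rw [M.ins_eq h t hp H (mem_filter.1 a).1]
  · have := (H.low h t hp tr_empty).2.2.2.2 (exz .inr s) fun x =>
      (exz_mem Sum.inr_injective p2 hs x).trans_le (le x)
    rwa [ad_empty] at this

/-- the majorants of the insertions -/
theorem km : ∃ kI : Ω → Mj, (∀ ω ∈ S.Om, KM (G.p k) (G.N k) (kI ω) (G.wX b J k S ω)) ∧
    (∀ ω X c, 0 ≤ kI ω X c ∧ (kI ω X c ≠ 0 → S.X0 ω ⊆ X)) ∧ ∀ (v : Ω → ℝ) Wt, (∀ ω, 0 ≤ v ω) →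
      0 < Wt → (∀ y, ∑ ω ∈ S.Om.filter (y ∈ S.X0 ·), v ω ≤ Wt) →
      kN ((G.p k).ad (1 / 3)) (G.N k) (fun X c => ∑ ω ∈ S.Om, v ω * kI ω X c)
        (4 * (G.cM k c C * (Wt / σ (k + 1) ^ Fintype.card κ))) := by
  obtain ⟨_, H⟩ := M.mh h t
  obtain ⟨kI, a1, a2, a3⟩ := H.ins_km h t hp
  have σ0 := pow_pos (M.rad _ k.lt_succ_self M.lt).2.2.1 (Fintype.card κ)
  refine ⟨kI, fun ω a => M.ins_eq h t hp H a ▸ a1 ω a, a2, fun v Wt v0 W0 hv =>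
    a3 v _ v0 (div_pos W0 σ0) fun y => ?_⟩
  simp only [prod_A, ← sum_div]
  exact div_le_div_of_nonneg_right (hv y) σ0.le

omit hp in
theorem one : G.Mx b J k S.one c d C 0 m σ fun _ _ => 1 :=
  have u := fun ω => subset_biUnion_of_mem S.W (mem_univ (S.cl ω))
  have v : ∀ {n δ Z}, Cls n δ (univ : Finset Unit) id Z := fun _ _ _ _ e => (e rfl).elim
  ⟨M.lt, M.card, M.C0, M.dR, M.big, fun j a a' =>
    let ⟨a1, a2, a3, _, a4⟩ := M.rad j a a'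
    ⟨a1, a2, a3, fun _ => one_pos, fun e => ⟨(a4 e).1, fun _ => by simpa using a1⟩⟩, fun ω a =>
    let ⟨a1, a2, a3, a4, a5⟩ := M.wd ω a
    ⟨a1, a2, a3, a4.trans (zs_mono (u ω) k M.lt.le), a5⟩, M.lF, fun _ _ _ => ⟨rfl, rfl, rfl⟩,
    fun ω a l => ⟨(M.lt' ω a l).1.trans (u ω), (M.lt' ω a l).2⟩, fun _ => h.rx_zero t, M.sep,
    ⟨v, fun _ _ _ => v⟩, ⟨(h.Q0 k).le, (·.elim)⟩, fun _ x => x.elim⟩

/-- reality -/
theorem real (hω : ω ∈ S.Om) (hF : ∀ l, (S.F ω l).Re (G.p J)) (ha : ∀ l, (S.a ω l).im = 0) :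
    RealA (G.wX b J k S ω) := by
  have M' := M.one h t
  obtain ⟨_, H⟩ := M'.mh h t
  have := H.real h t hp (ω := ω) (by
    rw [xt_cut (ad_sub (tr_one hω).1)]
    refine xt_rl (fun i hi => ?_) _
    rcases Wx.mem_ad.1 hi with ⟨ω', a, l, rfl⟩ | ⟨q, a, -⟩
    exacts [mem_singleton.1 a ▸ hF l, (a ω (mem_singleton_self _) rfl).elim]) hω fun x hx => by
    obtain ⟨l, rfl⟩ := Wx.mem_A.1 hx
    exact ha l
  rwa [M'.ins_eq h t hp H hω] at this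

/-- the direction of a cell represents its observable -/
theorem rt (w : Ω → ℂ) (q : γ) : Rt (G.sl k (G.zz b J k)) (G.zz b J k).d
    (G.tn b J (G.xv b J (S.P q)) J k +
      (0, ∑ ω ∈ S.Om.filter (S.cl · = q), w ω • G.wX b J k S ω)) (G.f b J k)
    (G.tt (fun U => wil b (G.N J) U * S.Y (G.N J) w q U) J k) := by
  obtain ⟨Wt, W0, hw⟩ : ∃ Wt, 0 < Wt ∧ ∑ ω ∈ S.Om, ‖w ω‖ ≤ Wt := ⟨_, by positivity, (lt_add_one _).le⟩
  have R := M.rad _ k.lt_succ_self M.lt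
  have σ0 := pow_pos R.2.2.1 (Fintype.card κ)
  have c0 : 0 < G.Q k ^ 330 * (G.cM k c C * Wt) :=
    mul_pos (pow_pos (h.Q0 k) _) (mul_pos (mul_pos (exp_pos _) (pow_pos (h.Q0 k) _)) W0)
  obtain ⟨Y, F, a1, -, -, a2, -⟩ := M.merge0 h t hp (w := w) (r := fun q => min (ρ (k + 1) q)
    (σ (k + 1) ^ Fintype.card κ / (G.Q k ^ 330 * (G.cM k c C * Wt))))
    (fun q => ⟨lt_min (R.2.2.2.1 q) (div_pos σ0 c0), min_le_left _ _⟩) (fun y =>
      (sum_le_sum fun ω _ => mul_le_mul_of_nonneg_left (min_le_right _ _) (norm_nonneg _)).trans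
        ((sum_mul _ _ _).ge.trans (mul_le_mul_of_nonneg_right ((sum_le_sum_of_subset_of_nonneg
          (filter_subset _ _) fun _ _ _ => norm_nonneg _).trans hw) (div_pos σ0 c0).le)))
    (by rw [← mul_assoc, ← mul_assoc, mul_assoc _ _ Wt, mul_div_cancel₀ _ c0.ne'])
  have u := h.rt_fd F (mem_univ q)
  have hd := pr_hd (b := b) (n := G.N J) (gi_Y (fun ω a l => gi_xO
    (M.lt' ω a l).2.2.1.1.choose_spec.choose_spec.1)
    (fun q => gi_xO (M.sl q).1.choose_spec.choose_spec.1) w) (r := fun _ => 1) fun _ => one_pos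
  simp only [a1, a2, jd_tt hd M.lt.le, pr_eq, jd_ma _ (subset_univ _), prod_singleton, pr_zero,
    mul_comm (S.Y _ _ _ _)] at u
  have e := h.xf_zero (B := (∅ : Finset Unit)) (H := fun _ => 0) t.hb (M.dJ h) k M.lt.le
  simp only [xf, sum_empty, xO_zero, neg_zero, Complex.exp_zero, mul_one] at e
  rwa [e] at u

/-- the same for all the words, without the sources of the cells -/
theorem rt0 (w : Ω → ℂ) : Rt (G.sl k (G.zz b J k)) (G.zz b J k).d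
    (0, ∑ ω ∈ S.Om, w ω • G.wX b J k S ω) (G.f b J k)
    (G.tt (fun U => wil b (G.N J) U * ∑ ω ∈ S.Om, w ω * S.wo (G.N J) ω U) J k) := by
  have := (M.one h t).rt h t hp w ()
  simp only [Wx.Y, show S.one.P () = 0 from rfl, xv_zero, h.tn_zero t le_rfl, xO_zero, neg_zero,
    zero_add, filter_true] at this
  exact this

end Mx

end Gl

end Pool.Agent.Lib.MP_7f377f_mp.RG.Q4.En
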