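import Pool.Agent.Lib.MP_7f377f_mp.G.JvM
import Pool.Agent.Lib.MP_7f377f_mp.G.MgX2

/-! Families of point insertions: sources at the top. -/

noncomputable section

open Pool.Agent.Lib.MP_7f377f_mp.Jet

set_option linter.unusedSectionVars false
variable [Pool.Agent.Lib.MP_7f377f_mp.GD]

namespace Pool.Agent.Lib.MP_7f377f_mp.RG.Q4.En

open Finset Function Sg Real Pos Mg
open scoped Classical

attribute [local irreducible] box lbox tb tau rc Gl.zs Gl.fw Gl.tn Gl.tt Gl.zz Gl.xf Gl.cIn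
  Gl.ins

variable {γ Ω κ α ι : Type} [Fintype γ] [DecidableEq γ] [DecidableEq Ω] [Fintype κ] [DecidableEq κ]
  [Inhabited κ] [Fintype α] [DecidableEq ι]

omit [GD] in
/-- a common lower bound of the radii -/
theorem low_rad {β : Type} {r : ℕ → β → ℝ} {l J : ℕ} (hl : l ≤ J)
    (p : ∀ j, l ≤ j → j ≤ J → ∀ x, 0 < r j x) : ∃ r0 : β → ℝ,
      (∀ x, 0 < r0 x) ∧ ∀ j, l ≤ j → j ≤ J → ∀ x, r0 x ≤ r j x :=
  ⟨fun x => (Icc l J).inf' (nonempty_Icc.2 hl) fun j => r j x,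
    fun x => (lt_inf'_iff _).2 fun j a => p j (mem_Icc.1 a).1 (mem_Icc.1 a).2 x,
    fun j a a' x => inf'_le _ (mem_Icc.2 ⟨a, a'⟩)⟩

namespace Gl

variable {G : Gl} {A J k l c d : ℕ} {b C Wt : ℝ} {m : ℕ → ℕ} {ρ : ℕ → ℝ}

theorem Gr.num {x : ℝ} (e : G.Gr A c k l x) (c1 : 1 ≤ c) :
    1 ≤ l ∧ 0 ≤ x ∧ log (1 + x) ≤ l ∧ 10 * (1 + x) ≤ G.QA A k ∧ 2 ^ c ≤ G.QA A k := by
  obtain ⟨a1, a2, a3, -, a4⟩ := e
  have := le_self_pow₀ (show 1 ≤ 1 + x by linarith) (Nat.ne_of_gt c1)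
  have := pow_le_pow_left₀ zero_le_two (show 2 ≤ 1 + x by linarith) c
  exact ⟨a1, by linarith, a3, by linarith, by linarith⟩

section top

variable {B : Finset ι} {F : ι → Sx} {W V : ι → Finset St} {r r0 : ι → ℝ} {δ : ℝ} (h : G.Ok)
  (t : G.Tu b J) (a : G.Big A J) (hd : d ≤ (G.p J).R) (hZ : ∀ i, (F i).In (G.N J) (W i))
include h t a hd hZ

/-- separated sources at the top -/
theorem Ok.xt_fdA (p0 : ∀ x, 0 < r0 x) (e : ∀ x, r0 x ≤ r x) (hF : ∀ i ∈ B, ∃ a M,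
      (F i).Ok (G.p J) d a M ∧ r i * a ≤ G.bb J / 4 ∧ r i * M ≤ 1) (hc : Cls (G.N J) δ B id W)
    (hδ : 3 * (G.p J).D ≤ δ) :
    G.Fd J (G.zz b J J) B r0 r (G.tA A J) (G.xt B F W b J) (G.xf B F b J J) ∧
      G.KA A J r (G.tA A J) (G.xt B F W b J).K :=
  have p := fun x => (p0 x).trans_le (e x)
  have u := h.xt_KA t.hb a hd p hZ hF hc hδ
  have v := (h.xt_fd t hd p hZ hF hc hδ).rad p u
  ⟨⟨v.fi, v.ma, hd_less v.eq.fst p0 e, hd_less v.eq.snd p0 e, v.eq.eq⟩, u⟩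

/-- the uniform majorant at the top -/
theorem Ok.xt_ua {D : Wd St ι Ω} {Λ : Finset St} (hr : ∀ x, 0 < r x) (g : D.Ok Λ)
    (hF : ∀ i ∈ D.al, ∃ a M, (F i).Ok (G.p J) d a M ∧ r i * a ≤ G.bb J / 4 ∧ r i * M ≤ 1)
    (hc : ∀ N, D.Tr N → Cls (G.N J) δ (D.ad N) id W) (δ0 : 0 < δ)
    (hV : ∀ x ∈ D.al, W x ⊆ V (D.ce x)) (hA : ∀ ω ∈ D.Om, (D.A ω).card ≤ c) (c1 : 1 ≤ c)
    (cA : c ≤ A) (cl : Cls (G.N J) (G.dL J) D.B id V) (hQ : 2 ^ c ≤ G.QA A J) :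
    G.UA A D 0 J r (G.tA A J) (G.xt D.al F W b J).K := by
  have nu := (h.sl_all J (G.top b J)).nu
  have n := h.sl_nf J (G.top b J)
  have q := h.QA0 A J
  have g0 := h.g0 J
  have L : 2 * c + 2 ≤ G.L J := by
    have := h.LA a
    have := Nat.lt_two_pow_self (n := A)
    omega
  refine (um_trKA (δ := 2 * A * log (G.L J)) (μ := 2 * c) (ρ := 1) g hV hA c1 (h.ps0 J).D
    (h.kI_pA a) (fun N hN => ?_) (xK_lc (h.N_odd J) hZ) cl
    (mul_le_mul_of_nonneg_right (by exact_mod_cast L) (h.D_pos J).le) zero_le_one ?_ hr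
    fun _ => (one_mul _).ge).imp fun _ v => ⟨(kN_drop v.1 (by norm_num)).mono ?_, v.2⟩
  · have u := fun s => ok_sum (s := s) (h.ρ0 J) (hc N hN) δ0 (fun i _ => hZ i)
      (by linarith [h.b0 J]) zero_le_one fun i hi => hF i (ad_sub hN.1 hi)
    simp only [sum_cut (ad_sub hN.1)]
    exact ⟨hr, fun s hs i X c U => (hb_xK hr X c U).choose_spec.hol s hs i, fun s hs =>
      n ▸ xK_km nu hd (h.b34 t.hb) (u s hs).pl (u s hs).lt (u s hs).bd⟩
  · rw [one_add_one_eq_two]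
    push_cast
    exact mul_le_of_le_one_right (by positivity) (by linarith [log_two_lt_d9])
  · rw [one_add_one_eq_two, tA, ← one_div, le_div_iff₀ (pow_pos q _)]
    calc _ ≤ G.QA A J * G.g J ^ 1 * G.QA A J ^ 329 := by
          gcongr ?_ * ?_ * _
          exact pow_le_pow_of_le_one g0.le (h.g1 J) (by norm_num)
      _ = G.QA A J ^ 330 * G.g J := by ring
      _ ≤ G.QA A J ^ 500 * G.g J := by
          gcongr
          exacts [by linarith [h.QA1 A J], by norm_num]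
      _ ≤ 1 := h.QAg a

end top

/-- separated sources down to the level `l` -/
theorem Ok.srcA {F : γ → Sx} {W : γ → Finset St} {r : ℕ → γ → ℝ} (h : G.Ok) (t : G.Tu b J)
    (hp : G.Pu) (hq : G.HP Sd.StA) (hl : l ≤ J) (a : ∀ j ≥ l, G.Big A j)
    (hd : d ≤ (G.p J).R) (rad : ∀ j, l ≤ j → j ≤ J → G.Gr A 1 j (m j) (ρ j) ∧ ∀ q, 0 < r j q ∧
      (j < J → r j q ≤ ρ j * r (j + 1) q)) (hZ : ∀ q, (F q).In (G.N J) (W q))
    (sl : ∀ q, G.RxA A b J l d (r · q) (F q)) (cel : ∀ j, l ≤ j → j ≤ J →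
      Cls (G.N j) ((m j + 2) * (G.p j).D) univ id fun q => G.zs (W q) J j) :
    ∀ k ≤ J, l ≤ k → G.Fd k (G.zz b J k) univ (r k) (r k) (G.tA A k) (G.xw b J k F W)
      (fun s => G.tt (pr b (G.N J) (fun q U => -xO (G.N J) (F q) U) s) J k) ∧
      G.KA A k (r k) (G.tA A k) (G.xw b J k F W).K ∧
      (G.xw b J k F W).bs = (G.zz b J k).d ∧ (G.xw b J k F W).Ec univ id ∧
      (∀ q, (G.xw b J k F W).jt {q} = G.tn b J (G.xv b J (F q)) J k ∧
        jd {q} (G.xw b J k F W).E = G.ex b J k (F q)) ∧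
      ∀ s ∈ Pd (r k), PU (G.p k) (G.Q k ^ 210)⁻¹ ((G.xw b J k F W).ψ s) := by
  obtain ⟨r0, p0, hr⟩ := low_rad hl fun j a a' q => ((rad j a a').2 q).1
  have m1 : (1 : ℝ) ≤ m J := by exact_mod_cast (rad J hl le_rfl).1.1
  obtain ⟨e, u⟩ := h.xt_fdA t (a J hl) hd hZ p0 (hr J hl le_rfl) (fun q _ => (sl q).1)
    (by simpa only [zs_top] using cel J hl le_rfl)
    (mul_le_mul_of_nonneg_right (by linarith) (h.D_pos J).le)
  have g := fun q => Br.gi_comp (gi_xO (n := G.N J) (sl q).1.choose_spec.choose_spec.1)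
    continuous_neg
  have e' : EqD r0 univ (G.N J) (pr b (G.N J) fun q U => -xO (G.N J) (F q) U)
      (G.xf univ F b J J) := ⟨pr_hd g p0, e.eq.fst, fun U _ T hT => by
    have := jd_smul (wil b (G.N J) U) (fun s : γ → ℂ =>
      Complex.exp (∑ i, s i * -xO (G.N J) (F i) U)) T
    rw [jd_exp_lin _ hT, mul_comm] at this
    rw [pr_eq, jd_ma _ hT, ← this]
    simp only [xf_top, xO_sum, mul_neg, sum_neg_distrib]
    rfl⟩
  intro k hk lk
  obtain ⟨c1, c2, c3, c4, c5, c6⟩ := h.chainA t.toTu1 hp hq le_rfl ⟨a, fun j b1 b2 x hx => by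
    rw [xt_jt hx]
    exact h.sz_puA ((sl x).2 j b1 b2) ((rad j b1 b2).2 x).1.le, cel, fun j b1 b2 =>
    let ⟨n1, n2, n3, n4, _⟩ := (rad j b1 b2).1.num le_rfl
    ⟨n1, n2, n3, n4, fun x => ⟨hr j b1 b2 x, ((rad j b1 b2).2 x).2⟩⟩⟩
    ⟨e.fi, e.ma, e'.trans e.eq⟩ u xt_bs xt_ec k hk lk
  refine ⟨h.fd_up (t.gd k hk).tz c1 (tt_hd (pr_hd g c1.fi.pos) hk), c2, c3, c5, fun q =>
    ⟨(c4 q (mem_univ _)).trans (by rw [xt_jt (mem_univ _)]), ex_eq (mem_univ _) hk⟩,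
    fun s hs => pu_mono (c6 s hs) ?_⟩
  have := h.invA A k (show 210 < 211 by norm_num)
  have := inv_pos.2 (pow_pos (h.QA0 A k) 211)
  linarith [h.QA_inv A k 210]

namespace MxA

variable {S : Wx γ Ω κ α} {σ : ℕ → Ω → κ → ℝ} {r : ℕ → γ → ℝ} {w : Ω → ℂ}
  (M : G.MxA A b J k S c d C m ρ σ r) (h : G.Ok) (t : G.Tu b J) (hp : G.Pu) (hq : G.HP Sd.StA)

theorem prod_A (ω : Ω) (σ : Ω → κ → ℝ) (r : γ → ℝ) :
    ∏ x ∈ S.wd.A ω, x.elim (fun x => σ x.1 x.2) r = ∏ l, σ ω l := by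
  simp [Wx.wd, prod_image (Wx.inj_A ω).injOn]

theorem clB {δ : ℝ} {j : ℕ} (e : Cls (G.N j) δ univ id fun q => G.zs (S.W q) J j) :
    Cls (G.N j) δ S.wd.B id fun x => G.zs (S.sup x) J j := fun x hx y hy ne => by
  obtain ⟨q, rfl⟩ := Wx.mem_B.1 hx
  obtain ⟨q', rfl⟩ := Wx.mem_B.1 hy
  exact e q (mem_univ _) q' (mem_univ _) fun a => ne (congrArg Sum.inr a)

include M

theorem c1 : 1 ≤ c := Fintype.card_pos.trans_le M.card

theorem pos {j : ℕ} (hk : k < j) (hj : j ≤ J) :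
    ∀ x : Ω × κ ⊕ γ, 0 < x.elim (fun x => σ j x.1 x.2) (r j)
  | .inl _ => (M.rad j hk hj).2.1 _ _
  | .inr q => (M.rad j hk hj).2.2.1 q

theorem rx {x : Ω × κ ⊕ γ} (hx : x ∈ S.wd.al) :
    G.RxA A b J (k + 1) d (fun j => x.elim (fun x => σ j x.1 x.2) (r j)) (S.src x) := by
  rcases mem_union.1 hx with a | a
  · obtain ⟨ω, h, a⟩ := mem_biUnion.1 a
    obtain ⟨l, rfl⟩ := Wx.mem_A.1 a
    exact (M.lt' ω h l).2.2.1
  · obtain ⟨q, rfl⟩ := Wx.mem_B.1 a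
    exact M.sl q

theorem ins (x : Ω × κ ⊕ γ) : (S.src x).In (G.N J) (S.sup x) := by
  rcases x with x | x
  exacts [M.lF _ _, M.lP _]

include h

theorem cls {N : Finset Ω} {j : ℕ} (hN : S.wd.Tr N) (hk : k < j) (hj : j ≤ J) :
    Cls (G.N j) ((m j + 2) * (G.p j).D) (S.wd.ad N) id fun x => G.zs (S.sup x) J j := by
  have u : ∀ {q q' V V'}, q ≠ q' → V ⊆ S.W q → V' ⊆ S.W q' → Sep (G.N j) ((m j + 2) * (G.p j).D)
      (G.zs V J j) (G.zs V' J j) := fun {q q' V V'} a a1 a2 =>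
    (M.cel j hk.le hj q (mem_univ _) q' (mem_univ _) a).mono (mul_le_mul_of_nonneg_right
      (by exact_mod_cast (M.rad j hk hj).1.2.2.2.1) (h.D_pos j).le) (zs_mono a1 j hj)
      (zs_mono a2 j hj)
  have v := fun ω (a : ω ∈ N) l => (M.lt' ω (hN.1 a) l).1
  intro x hx y hy ne
  rcases Wx.mem_ad.1 hx with ⟨ω, a, l, rfl⟩ | ⟨q, a, rfl⟩ <;>
    rcases Wx.mem_ad.1 hy with ⟨ω', a', l', rfl⟩ | ⟨q', a', rfl⟩
  · by_cases e : ω = ω'
    · subst e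
      exact M.sep j hk hj ω (hN.1 a) l (mem_univ _) l' (mem_univ _) fun e => ne (congrArg
        (fun l => Sum.inl (ω, l)) e)
    · exact u (fun e' => e (hN.2 a a' (congrArg Sum.inr e'))) (v ω a l) (v ω' a' l')
  · exact u (a' ω a) (v ω a l) Subset.rfl
  · exact u (a ω' a').symm Subset.rfl (v ω' a' l')
  · exact u (fun e => ne (congrArg Sum.inr e)) Subset.rfl Subset.rfl

theorem geo : S.wd.Ok (box (G.N k / 2)) :=
  ⟨fun ω a => ⟨(M.wd ω a).2.1, (M.wd ω a).1, (M.wd ω a).2.2.2.1.trans (by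
    rw [zs_step M.lt (G.top0 0 0)]
    exact tb_dom (h.N_odd k))⟩, fun _ _ => by simp [Wx.wd, disjoint_left],
    fun _ _ _ _ e => by simp [Wx.wd, disjoint_left, e.symm], fun _ _ => Wx.mem_B.2 ⟨_, rfl⟩⟩

include t hp hq

/-- the hypotheses of the merging for the family of all the letters -/
theorem mh : ∃ r0, G.MhA A S.wd b J (G.xt S.wd.al S.src S.sup b J) J k S.cen c C r0
    (fun j => Sum.elim (fun x => σ j x.1 x.2) (r j)) m ρ (G.xf S.wd.al S.src b J J) S.sup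
    fun x => G.zs (S.sup x) J k := by
  obtain ⟨r0, p0, hr⟩ := low_rad (l := k + 1) M.lt fun j a a' => M.pos a a'
  have g := M.geo h
  have D0 := h.D_pos J
  have R := (M.rad J M.lt le_rfl).1.num M.c1
  have m1 : (1 : ℝ) ≤ m J := by exact_mod_cast R.1
  have cl := fun N hN => by simpa only [zs_top] using M.cls h (N := N) hN M.lt le_rfl
  have cA : ∀ ω, (S.wd.A ω).card ≤ c := fun ω => card_image_le.trans M.card
  have zA : ∀ ω ∈ S.Om, ∀ x ∈ S.wd.A ω, S.sup x ⊆ S.sup (S.wd.cl ω) := fun ω a x hx => by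
    obtain ⟨l, rfl⟩ := Wx.mem_A.1 hx
    exact (M.lt' ω a l).1
  refine ⟨r0, M.lt, le_rfl, M.c1, M.cA, M.C0, M.big, g, fun ω a => ⟨(M.wd ω a).2.2.1,
    (M.wd ω a).2.2.2.1, cA ω, (M.wd ω a).2.2.2.2⟩, fun ω a x hx => ⟨?_, zA ω a x hx, ?_⟩,
    fun _ _ => ⟨Subset.rfl, Subset.rfl⟩, fun j a a' => ⟨(M.rad j a a'.le).1,
      clB (M.cel j a.le a'.le)⟩, clB (M.cel k le_rfl M.lt.le), fun N hN =>
    ⟨fun j a => M.big j (Nat.le_of_succ_le a), fun j a a' x hx => ?_, fun j a => M.cls h hN a,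
      fun j a a' => ?_⟩, fun x hx => ?_, fun N hN => ⟨?_, fun T _ _ _ _ _ _ => jd_zero T⟩, xt_bs, ?_,
    xt_loc h M.ins⟩
  · obtain ⟨l, rfl⟩ := Wx.mem_A.1 hx
    exact (M.lt' ω a l).2.1
  · rw [ex_eq (ad_sub (tr_one a).1 (a_sub (mem_singleton_self ω) hx)) M.lt]
    obtain ⟨l, rfl⟩ := Wx.mem_A.1 hx
    exact (M.lt' ω a l).2.2.2
  · rw [xt_jt (ad_sub hN.1 hx)]
    exact h.sz_puA ((M.rx (ad_sub hN.1 hx)).2 j a a') (M.pos a a' x).le
  · obtain ⟨n1, n2, n3, n4, -⟩ := (M.rad j a a').1.num M.c1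
    refine ⟨n1, n2, n3, n4, fun x => ⟨hr j a a' x, fun e => ?_⟩⟩
    rcases x with x | x
    exacts [((M.rad j a a').2.2.2 e).1 _ _, ((M.rad j a a').2.2.2 e).2 x]
  · rw [xt_jt hx]
    exact (M.rx hx).2 _ le_rfl M.lt
  · simp only [xt_cut (ad_sub hN.1), xf_cut (ad_sub hN.1)]
    exact (h.xt_fdA t (M.big J M.lt.le) M.dR M.ins p0 (hr J M.lt le_rfl)
      (fun _ a => (M.rx (ad_sub hN.1 a)).1) (cl N hN)
      (mul_le_mul_of_nonneg_right (by linarith) D0.le)).1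
  · refine h.xt_ua t (M.big J M.lt.le) M.dR M.ins (M.pos M.lt le_rfl) g (fun _ a => (M.rx a).1) cl
      (by positivity) (fun x hx => ?_) (fun ω _ => cA ω) M.c1 M.cA
      (by simpa only [zs_top] using clB (M.cel J M.lt.le le_rfl)) R.2.2.2.2
    rcases mem_union.1 hx with a | a
    · obtain ⟨ω, a, e⟩ := mem_biUnion.1 a
      exact ce_A g a e ▸ zA ω a x e
    · rw [ce_B g a]

omit M in
theorem ins_eq {r0} {ω : Ω} (H : G.MhA A S.wd b J (G.xt S.wd.al S.src S.sup b J) J k S.cen c C r0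
    (fun j => Sum.elim (fun x => σ j x.1 x.2) (r j)) m ρ (G.xf S.wd.al S.src b J J) S.sup
    fun x => G.zs (S.sup x) J k) (hω : ω ∈ S.Om) :
    G.ins S.wd b J (G.xt S.wd.al S.src S.sup b J) J k S.cen ω = G.wX b J k S ω :=
  H.ins_can h t hp hq (Y' := G.xt univ (S.F ω) (fun _ => ∅) b J) (Wx.inj_A ω) hω rfl
    (xt_se (H := S.src) (Wx.inj_A ω) (fun _ => ad_sub (tr_one hω).1 (a_sub (mem_singleton_self ω)
      (Wx.mem_A.2 ⟨_, rfl⟩))) _)

/-- the merging -/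
theorem merge {r' : γ → ℝ} (r0 : ∀ q, 0 < r' q ∧ r' q ≤ r (k + 1) q)
    (hw : ∀ y, ∑ ω ∈ S.Om.filter (y ∈ S.X0 ·), ‖w ω‖ * r' (S.cl ω) / ∏ l, σ (k + 1) ω l ≤ Wt)
    (sm : G.QA A k ^ 330 * (G.cMA A k c C * Wt) ≤ 1) : ∃ Y : Fy γ,
    G.Fd k (G.zz b J k) univ r' r' (G.tA A k) Y
      (fun s => G.tt (pr b (G.N J) (S.Y (G.N J) w) s) J k) ∧
      G.KB A (1 / 4) k r' (G.tA A k / 3) Y.K ∧ Y.bs = (G.zz b J k).d ∧
      Y.Ec univ id ∧ (Y.Z = fun q => G.zs (S.W q) J k) ∧ ∀ q, Y.jt {q} =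
        G.tn b J (G.xv b J (S.P q)) J k +
          (0, ∑ ω ∈ S.Om.filter (S.cl · = q), w ω • G.wX b J k S ω) ∧
        jd {q} Y.E = G.ex b J k (S.P q) := by
  obtain ⟨_, H⟩ := M.mh h t hp hq
  have p := M.pos k.lt_succ_self M.lt
  have p2 : ∀ x : Ω × κ ⊕ γ, 0 < x.elim (fun x => σ (k + 1) x.1 x.2) r' := by
    rintro (x | x)
    exacts [p (.inl x), (r0 x).1]
  have le : ∀ x : Ω × κ ⊕ γ, x.elim (fun x => σ (k + 1) x.1 x.2) r' ≤
      x.elim (fun x => σ (k + 1) x.1 x.2) (r (k + 1)) := by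
    rintro (x | x)
    exacts [le_rfl, (r0 x).2]
  obtain ⟨F, a0, a1, a2, a3⟩ := H.merge h t hp hq le (md_x (fun ω a l => gi_xO
    (M.lt' ω a l).2.2.1.1.choose_spec.choose_spec.1)
    (fun q => gi_xO (M.sl q).1.choose_spec.choose_spec.1) w p2)
    (fun y => by simp only [prod_A]; exact hw y) sm
  have e := fun q : γ => (Wx.mem_B (S := S)).2 ⟨q, rfl⟩
  obtain ⟨F', a4⟩ := F.pull Sum.inr_injective e
  refine ⟨_, by simpa only [comp_def, exz_apply Sum.inr_injective, Sum.elim_inr] using F',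
    a0.imp fun _ a => ⟨a.1, fun s hs => a.2 _ (exz_mem Sum.inr_injective p2 hs)⟩, ?_, a4 a2, rfl,
    fun q => ⟨?_, (jd_exz1 Sum.inr_injective).trans ((jd_cut (singleton_subset_iff.2 (e q))).trans
      (ex_eq (mem_union_right _ (e q)) M.lt.le))⟩⟩
  · simpa only [Fy.bs, Fy.pull, exz_zero] using a1
  · rw [pull_jt Sum.inr_injective, a3 _ (e q), xt_jt (B := S.wd.al) (mem_union_right _ (e q))]
    refine congrArg₂ (· + ·) rfl (Prod.ext rfl (sum_congr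
      (filter_congr fun _ _ => Sum.inr_injective.eq_iff) fun ω a => ?_))
    rw [ins_eq h t hp hq H (mem_filter.1 a).1]

/-- the insertion of a word -/
theorem km {ω : Ω} (hω : ω ∈ S.Om) : (∃ kI, KM (G.p k) (G.N k) kI (G.wX b J k S ω) ∧
    kN (G.pA A k) (G.N k) kI (4 * (G.cMA A k c C / ∏ l, σ (k + 1) ω l))) ∧
      ∀ X c, ¬S.X0 ω ⊆ X → G.wX b J k S ω X c = 0 := by
  obtain ⟨_, H⟩ := M.mh h t hp hq
  obtain ⟨kI, a1, a2, a3⟩ := H.ins_km h t hp hq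
  have σ0 := inv_pos.2 (prod_pos fun l (_ : l ∈ univ) => (M.rad _ k.lt_succ_self M.lt).2.1 ω l)
  have u := ins_eq h t hp hq H hω ▸ a1 ω hω
  have v := kN_A0 (a3 (fun x => if x = ω then 1 else 0) _ (fun _ => by positivity) σ0 fun y => by
    simp only [prod_A, ite_div, zero_div, sum_ite_eq', one_div]
    split_ifs
    exacts [le_rfl, σ0.le]) (by norm_num)
  simp only [ite_mul, one_mul, zero_mul, sum_ite_eq', show ω ∈ S.wd.Om from hω, if_true] at v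
  refine ⟨⟨_, u, v⟩, fun X o e => funext fun U => ?_⟩
  have := u.bd X o _ (Mx.per_pc _ U)
  rwa [by_contra fun a => e ((a2 ω X o).2 a), zero_mul, norm_le_zero_iff, u.per] at this

/-- reality -/
theorem real {ω : Ω} (hω : ω ∈ S.Om) (hF : ∀ l, (S.F ω l).Re (G.p J))
    (ha : ∀ l, (S.a ω l).im = 0) (hP : ∀ q, (S.P q).Re (G.p J)) : RealA (G.wX b J k S ω) := by
  obtain ⟨_, H⟩ := M.mh h t hp hq
  have := H.real h t hp hq (ω := ω) (by
    rw [xt_cut (ad_sub (tr_one hω).1)]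
    refine xt_rl (fun i hi => ?_) _
    rcases Wx.mem_ad.1 hi with ⟨ω', a, l, rfl⟩ | ⟨q, -, rfl⟩
    exacts [mem_singleton.1 a ▸ hF l, hP q]) hω fun x hx => by
    obtain ⟨l, rfl⟩ := Wx.mem_A.1 hx
    exact ha l
  rwa [ins_eq h t hp hq H hω] at this

end MxA

end Gl

end Pool.Agent.Lib.MP_7f377f_mp.RG.Q4.En
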