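import Pool.Agent.Lib.MP_7f377f_mp.G.JvX

/-! Families of point insertions: the flow below the level of the merging. -/

noncomputable section

open Pool.Agent.Lib.MP_7f377f_mp.Jet

set_option linter.unusedSectionVars false
variable [Pool.Agent.Lib.MP_7f377f_mp.GD]

namespace Pool.Agent.Lib.MP_7f377f_mp.RG.Q4.En

open Finset Function Sg Real Pos Mg
open scoped Classical

attribute [local irreducible] box lbox tb tau rc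

variable {γ Ω κ α ι : Type} [Fintype γ] [DecidableEq γ] [DecidableEq Ω] [Fintype κ] [DecidableEq κ]
  [Inhabited κ] [Fintype α] [DecidableEq ι]

namespace Gl

variable {G : Gl} {A J i k l c d : ℕ} {b C Wt θ : ℝ} {m m' : ℕ → ℕ} {ρ ρ' : ℕ → ℝ}

theorem Fd.less {z : En.Z} {B : Finset ι} {r0 r1 r : ι → ℝ} {Y : Fy ι} {f : (ι → ℂ) → Conf → ℂ}
    (F : G.Fd k z B r0 r θ Y f) (p : ∀ x, 0 < r1 x) (e : ∀ x, r1 x ≤ r0 x) :
    G.Fd k z B r1 r θ Y f := ⟨F.fi, F.ma, hd_less F.eq.fst p e, hd_less F.eq.snd p e, F.eq.eq⟩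

/-- the flow of a family with small directions -/
theorem Ok.flowA {B : Finset ι} {r0 : ι → ℝ} {r : ℕ → ι → ℝ} {Y : Fy ι} {f : (ι → ℂ) → Conf → ℂ}
    (h : G.Ok) (t : G.Tu b J) (hp : G.Pu) (hq : G.HP Sd.StA) (hi : i ≤ J) (hl : l ≤ i)
    (a : ∀ j ≥ l, G.Big A j) (e : G.Fd i (G.zz b J i) B r0 (r i) θ Y f)
    (u : G.KA A i (r i) (G.tA A i) Y.K) (e1 : Y.bs = (G.zz b J i).d) (e3 : Y.Ec B id)
    (rad : ∀ j, l ≤ j → j ≤ i → G.Gr A 1 j (m j) (ρ j) ∧ ∀ q, 0 < r j q ∧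
      (j < i → r j q ≤ ρ j * r (j + 1) q))
    (sz : ∀ j, l ≤ j → j ≤ i → ∀ q ∈ B, G.SzA A j (r j q) (G.tn b J (Y.jt {q}) i j))
    (cel : ∀ j, l ≤ j → j ≤ i →
      Cls (G.N j) ((m j + 2) * (G.p j).D) B id fun q => G.zs (Y.Z q) i j) :
    ∃ r1, ∀ k ≤ i, l ≤ k → G.Fd k (G.zz b J k) B r1 (r k) (G.tA A k) (G.fw B b J Y i k)
      (fun s => G.tt (f s) i k) ∧ G.KA A k (r k) (G.tA A k) (G.fw B b J Y i k).K ∧
      (G.fw B b J Y i k).bs = (G.zz b J k).d ∧ (G.fw B b J Y i k).Ec B id ∧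
      (∀ q ∈ B, (G.fw B b J Y i k).jt {q} = G.tn b J (Y.jt {q}) i k) ∧
      ∀ s ∈ Pd (r k), PU (G.p k) (G.Q k ^ 210)⁻¹ ((G.fw B b J Y i k).ψ s) := by
  obtain ⟨r1, p1, h0, h1⟩ : ∃ r1 : ι → ℝ, (∀ x, 0 < r1 x) ∧ (∀ x, r1 x ≤ r0 x) ∧
      ∀ j, l ≤ j → j ≤ i → ∀ x, r1 x ≤ r j x :=
    ⟨fun x => min (r0 x) ((Icc l i).inf' (nonempty_Icc.2 hl) (r · x)), fun x =>
      lt_min (e.eq.fst.pos x) ((lt_inf'_iff _).2 fun j a =>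
        ((rad j (mem_Icc.1 a).1 (mem_Icc.1 a).2).2 x).1), fun _ => min_le_left _ _,
      fun j a a' x => (min_le_right _ _).trans (inf'_le _ (mem_Icc.2 ⟨a, a'⟩))⟩
  refine ⟨r1, fun k hk hk' => ?_⟩
  obtain ⟨a1, a2, a3, a4, a5, a6⟩ := h.chainA (l := l) (m := m) (ρ := ρ) t.toTu1 hp hq hi
    ⟨a, fun j b1 b2 q hq => h.sz_puA (sz j b1 b2 q hq) ((rad j b1 b2).2 q).1.le, cel,
      fun j b1 b2 => by
        obtain ⟨⟨c1, c2, c3, -, c4⟩, c5⟩ := rad j b1 b2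
        exact ⟨c1, by linarith, c3, by rw [pow_one] at c4; linarith,
          fun x => ⟨h1 j b1 b2 x, (c5 x).2⟩⟩⟩ (e.less p1 h0) u e1 e3 k hk hk'
  refine ⟨a1, a2, a3, a5, a4, fun s hs => pu_mono (a6 s hs) ?_⟩
  linarith [h.QA_inv A k 211, h.inv_le k (show 210 < 211 by norm_num),
    inv_pos.2 (pow_pos (h.Q0 k) 211)]

/-- the words merge at level `k` and flow to the level `l` -/
theorem MxA.down {S : Wx γ Ω κ α} {σ : ℕ → Ω → κ → ℝ} {r r' : ℕ → γ → ℝ} {w : Ω → ℂ}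
    (M : G.MxA A b J k S c d C m ρ σ r) (h : G.Ok) (t : G.Tu b J) (hp : G.Pu) (hq : G.HP Sd.StA)
    (hl : l ≤ k) (a : ∀ j ≥ l, G.Big A j) (r0 : ∀ q, r' k q ≤ r (k + 1) q)
    (hw : ∀ y, ∑ ω ∈ S.Om.filter (y ∈ S.X0 ·), ‖w ω‖ * r' k (S.cl ω) / ∏ l, σ (k + 1) ω l ≤ Wt)
    (sm : G.QA A k ^ 330 * (G.cMA A k c C * Wt) ≤ 1)
    (rad : ∀ j, l ≤ j → j ≤ k → G.Gr A 1 j (m' j) (ρ' j) ∧ ∀ q, 0 < r' j q ∧
      (j < k → r' j q ≤ ρ' j * r' (j + 1) q))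
    (sz : ∀ j, l ≤ j → j ≤ k → ∀ q, G.SzA A j (r' j q) (G.tn b J (G.tn b J (G.xv b J (S.P q)) J k +
      (0, ∑ ω ∈ S.Om.filter (S.cl · = q), w ω • G.wX b J k S ω)) k j))
    (cel : ∀ j, l ≤ j → j ≤ k →
      Cls (G.N j) ((m' j + 2) * (G.p j).D) univ id fun q => G.zs (S.W q) J j) :
    ∃ (Y : ℕ → Fy γ) (r1 : γ → ℝ), (∀ q, jd {q} (Y k).E = G.ex b J k (S.P q)) ∧
      (∀ j ≤ k, Y j = G.fw univ b J (Y k) k j) ∧ ∀ j ≤ k, l ≤ j →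
      G.Fd j (G.zz b J j) univ r1 (r' j) (G.tA A j) (Y j)
        (fun s => G.tt (pr b (G.N J) (S.Y (G.N J) w) s) J j) ∧
      G.KA A j (r' j) (G.tA A j) (Y j).K ∧ (Y j).bs = (G.zz b J j).d ∧ (Y j).Ec univ id ∧
      ((Y j).Z = fun q => G.zs (S.W q) J j) ∧ (∀ q, (Y j).jt {q} =
        G.tn b J (G.tn b J (G.xv b J (S.P q)) J k +
          (0, ∑ ω ∈ S.Om.filter (S.cl · = q), w ω • G.wX b J k S ω)) k j) ∧
      ∀ s ∈ Pd (r' j), PU (G.p j) (G.Q j ^ 210)⁻¹ ((Y j).ψ s) := by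
  obtain ⟨Y, F, a1, a2, a3, a4, a5⟩ := M.merge h t hp hq
    (fun q => ⟨((rad k hl le_rfl).2 q).1, r0 q⟩) hw sm
  have z : ∀ j ≤ k, (fun q => G.zs (Y.Z q) k j) = fun q => G.zs (S.W q) J j := fun j hj => by
    simp only [a4, zs_zs M.lt.le hj]
  obtain ⟨r1, u⟩ := h.flowA t hp hq M.lt.le hl a F ((a1.ka (by norm_num)).mono (fun _ => le_rfl)
    (div_le_self (h.tA0 A k).le (by norm_num))) a2 a3 rad
    (fun j b1 b2 q _ => (a5 q).1 ▸ sz j b1 b2 q) fun j b1 b2 => z j b2 ▸ cel j b1 b2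
  refine ⟨G.fw univ b J Y k, r1, fun q => by rw [fw_top]; exact (a5 q).2,
    fun j _ => by rw [fw_top], fun j b2 b1 => ?_⟩
  obtain ⟨c1, c2, c3, c4, c5, c6⟩ := u j b2 b1
  simp only [show ∀ f, G.tt (G.tt f J k) k j = G.tt f J j from fun _ => dw_dw _ _ M.lt.le j b2] at c1
  exact ⟨c1, c2, c3, c4, (fw_Z j b2).trans (z j b2), fun q => (a5 q).1 ▸ c5 q (mem_univ q), c6⟩

end Gl

end Pool.Agent.Lib.MP_7f377f_mp.RG.Q4.En
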