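import Pool.Agent.Lib.MP_7f377f_mp.G.JwA
import Pool.Agent.Lib.MP_7f377f_mp.G.JvE
import Pool.Agent.Lib.MP_7f377f_mp.G.JvG
import Pool.Agent.Lib.MP_7f377f_mp.G.JuT3

/-! Arrays of point insertions: from the renormalisation group to the mixed bound on the torus. -/

noncomputable section

open Pool.Agent.Lib.MP_7f377f_mp.Jet

set_option linter.unusedSectionVars false
variable [Pool.Agent.Lib.MP_7f377f_mp.GD]

namespace Pool.Agent.Lib.MP_7f377f_mp.RG.Q4.En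

open Finset Function Sg Real Pos Mg Filter MeasureTheory
open L6 (Fz)
open Wy (tz E1 kC)
open scoped Classical

attribute [local irreducible] box lbox tb tau rc

variable {β : Type}

/-- null letters of the torus -/
theorem nl_of_nul {R n : ℕ} [NeZero n] {N : Conf → ℂ} (H : Tl.Nul R N) (hn : Odd n)
    (hR : 2 * R + 1 < n) (b : ℝ) : Wy.Nl (Fi.tr haar) b n R fun U => (N U).re := fun F c d => by
  have c0 : Continuous fun U => (F (Fi.rs n U) : ℂ) :=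
    Complex.continuous_ofReal.comp (c.comp (continuous_pi fun _ => continuous_apply _))
  have a := congrArg Complex.re (H.2 n hn hR b 0 _ c0
    fun U V _ _ e => congrArg _ (d fun l ⟨i, hi⟩ => e (Fi.vl l.1, l.2) fun u => by
      obtain ⟨v, hv⟩ := nearT_iff.1 u
      have := ZMod.natAbs_min_of_le_div_two n _ (Fi.vl l.1 i - 0 - n * v i)
        ((ZMod.coe_valMinAbs _).trans (by simpa [Fi.cst] using congrFun (Fi.cst_vl l.1).symm i))
        (ZMod.natAbs_valMinAbs_le (l.1 i))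
      have := hv i
      rw [Int.abs_eq_natAbs] at hi
      simp only [Pi.zero_apply] at this
      omega))
  have c1 : Continuous fun U : YM7.Cfg n => (N (L6.lf U)).re * F U :=
    (Complex.continuous_re.comp (H.1.comp Wy.cont_lf)).mul c
  refine (Br.ex_eq hn b c1.measurable).trans (div_eq_zero_iff.2 (.inl ?_))
  rw [← RCLike.re_to_complex, ← integral_re (Tl.int_w H.1 c0 b 0)] at a
  refine .trans (congrArg _ (funext fun U => ?_)) a
  rw [show sh 0 (pc n U) = L6.lf (Fi.rs n U) from (funext fun e => by simp [sh]).trans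
    (Fi.lf_rs U).symm, Fi.rs_pc]
  simp [mul_comm]

namespace Gl

variable (G : Gl)

/-- the distance of the letters of an array -/
def dZ (j : ℕ) : ℕ := 30 * G.L j ^ (G.K0 + 1)

/-- the side of the cells of size `9 / 3 ^ e` at level `j` -/
def uZ (e j : ℕ) : ℕ := 3 ^ (G.e j + 2 - e)

/-- the cost of the volume -/
def vlZ (u j : ℕ) : ℝ := cJ / G.g j * u ^ 4

/-- the loss in the weights -/
def wZ (u j : ℕ) : ℝ := (1 + kC (G.vlZ u j)) * (1 + exp (G.Q j))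

/-- arrays of the letters `O` are small at level `j` -/
def Ag (b : ℝ) (J j : ℕ) (O : β → Fz → ℝ) (A : Set β) (w : β → ℝ) : Prop :=
  ∀ (ι : Type) [Fintype ι] [DecidableEq ι] (y : ι → St) (σ : ι → β), (∀ q, σ q ∈ A) →
    (∀ q q', q ≠ q' → ¬nearT (G.N j) (G.dZ j) (y q) (y q')) →
    ∃ (X : ι → Conf → ℂ) (Y : Fy ι) (r1 r : ι → ℝ),
      Xo (G.N J) X (fun q U => O (σ q) (tz ((G.rt J j : ℤ) • y q) (L6.lf U))) ∧
      G.Fd j (G.zz b J j) univ r1 r (G.Q j ^ 329)⁻¹ Y (fun s => G.tt (pr b (G.N J) X s) J j) ∧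
      Y.bs = (G.zz b J j).d ∧ Y.Ec univ id ∧
      (∀ s ∈ Pd r, PU (G.p j) (G.Q j ^ 210)⁻¹ (Y.ψ s)) ∧
      ∀ q, ((Y.Z q).card : ℝ) ≤ G.Q j ∧ 1 ≤ r q * w (σ q)

/-- letters of the arrays, up to constants `u` and null letters -/
def Az (b : ℝ) (J j : ℕ) [NeZero (G.N J)] (T : β → Fz → ℝ) (A : Set β) (w u : β → ℝ) : Prop :=
  ∃ (α : Type) (_ : Nonempty α) (O : α → Fz → ℝ) (B : Set α) (v : α → ℝ), G.Ag b J j O B v ∧
    (∀ d ∈ B, Continuous (O d) ∧ DependsOn (O d) {l | ∀ i, |l.1 i| ≤ (4 * G.rt J j : ℕ)} ∧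
      0 ≤ v d) ∧ ∀ c ∈ A, ∃ (s : Finset α) (t : α → ℝ), ↑s ⊆ B ∧ ∑ d ∈ s, |t d| * v d ≤ w c ∧
        Wy.Nl (Fi.tr haar) b (G.N J) (4 * G.rt J j) fun U => T c U -
          (u c + ∑ d ∈ s, t d * (O d U - G.al b J j fun V => O d (L6.lf V)))

variable {G} {b K : ℝ} {J j m u e : ℕ} {O T : β → Fz → ℝ} {A : Set β} {w κ : β → ℝ}
  {r : Fin 4 → β → β}

theorem vlZ_nn (h : G.Ok) (u j : ℕ) : 0 ≤ G.vlZ u j := by
  have := cJ_nn; have := h.g0 j; unfold vlZ; positivity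

theorem wZ_pos (u j : ℕ) : 0 < G.wZ u j := by
  have := Wy.kC_pos (G.vlZ u j); unfold wZ; positivity

namespace Ok

variable (h : G.Ok) [NeZero (G.N J)] (t : G.Tu b J) (hj : j ≤ J) (hn : G.N j = m * u)
  (hu : G.dZ j + 1 < u)
include h t hj hn hu

/-- the mixed bound with the local means -/
theorem e1_of (c : ∀ d ∈ A, Continuous (O d)) (H : G.Ag b J j O A w) :
    E1 (Fi.tr haar) b (G.N J) (G.rt J j * u) (G.rt J j)
      (fun d U => O d U - G.al b J j fun V => O d (L6.lf V)) A (fun d => (1 + exp (G.Q j)) * w d)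
      (G.vlZ u j) := by
  refine ⟨m, by rw [← h.rt_N hj, hn, mul_left_comm], fun s σ hσ => ?_⟩
  have m0 : m ≠ 0 := by rintro rfl; exact (h.N_odd j).pos.ne' (by simpa using hn)
  have : NeZero m := ⟨m0⟩
  obtain ⟨X, Y, r1, r, o, f, e1, ec, pu, z⟩ := H s
    (fun x i => u * ((x.1 i).val : ℤ) + Wy.off 1 (σ x).2 i) (fun x => (σ x).1)
    (fun x => (hσ x x.2).1) fun x x' ne e => ne (Subtype.ext (funext fun i => by
      obtain ⟨v, hv⟩ := nearT_iff.1 e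
      have a := hv i
      have o : ∀ e, 0 ≤ Wy.off 1 e i ∧ Wy.off 1 e i ≤ 1 := fun e => by
        unfold Wy.off; cases e i <;> simp
      have o1 := o (σ x).2
      have o2 := o (σ x').2
      have := Int.eq_zero_of_abs_lt_dvd (m := u)
        (x := u * (((x'.1 i).val : ℤ) - (x.1 i).val - m * v i)) ⟨_, rfl⟩ (by
          rw [hn] at a; push_cast at a; rw [abs_lt]; constructor <;> nlinarith)
      rw [mul_eq_zero] at this
      rw [← ZMod.natCast_zmod_val (x.1 i), ← ZMod.natCast_zmod_val (x'.1 i), ← Int.cast_natCast,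
        ← Int.cast_natCast (x'.1 i).val, ZMod.intCast_eq_intCast_iff_dvd_sub]
      exact ⟨v i, by linarith [this.resolve_left (by omega)]⟩))
  have a := h.e0 t hj o f e1 ec pu (fun q => (z q).1) univ
    fun q => G.al b J j fun V => O (σ q).1 (L6.lf V)
  have p := f.fi.pos
  rw [← prod_coe_sort s, funext fun U => (prod_coe_sort s _).symm]
  refine le_trans (le_of_eq_of_le (congrArg _ (congrArg _ (funext fun U => prod_congr rfl
    fun x _ => ?_))) a) (mul_le_mul (le_of_eq ?_) (prod_le_prod (fun q _ => by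
      have := p q; positivity) fun q _ => ?_) (prod_nonneg fun q _ => by
      have := p q; positivity) (exp_pos _).le)
  · rw [show Weak.corner (G.rt J j * u) x.1 = fun i => ((G.rt J j * u * (x.1 i).val : ℤ) :
      ZMod (G.N J)) from funext fun i => by simp [Weak.corner], Wy.lf_shift]
    simp only [Wy.tz_tz]
    congr 3
    funext i
    simp only [Wy.off, Pi.add_apply, Pi.smul_apply, smul_eq_mul]
    cases (σ x).2 i <;> simp <;> ring
  · rw [hn, vlZ]; push_cast; ring_nf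
  · simp only [← Wy.lf_shift]
    rw [h.al_shift' (O := fun V => O (σ q).1 (L6.lf V)) ((c _ (hσ q q.2).1).comp Wy.cont_lf) hj
      fun i => ⟨_, by rw [h.N_div hj]; rfl⟩, sub_self, abs_zero, add_zero, div_eq_mul_inv]
    exact mul_le_mul_of_nonneg_left ((inv_le_iff_one_le_mul₀' (p q)).2 (z q).2) (by positivity)

/-- the mixed bound with the true means -/
theorem e1_fin (uo : Odd u) (H : G.Az b J j T A w κ) (L : Wy.Lt T r A (4 * G.rt J j) K)
    (fin : A.Finite) (cl : ∀ μ, ∀ c ∈ A, r μ c ∈ A ∧ w (r μ c) = w c) (pos : ∀ c ∈ A, 0 < w c)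
    (m0 : ∀ c ∈ A, ∫ U, T c (L6.lf U) ∂YM7.wilson (Fi.tr haar) b (G.N J) = 0) :
    E1 (Fi.tr haar) b (G.N J) (G.rt J j * u) (G.rt J j) T A (fun c => G.wZ u j * w c) (G.vlZ u j) ∧
      ∀ c ∈ A, |κ c| ≤ G.wZ u j * w c := by
  have : (Fi.tr haar).IsHaarMeasure := (inferInstance : haar.IsHaarMeasure)
  obtain ⟨α, _, O, B, v, h1, h2, h3⟩ := H
  obtain ⟨k, rfl⟩ := uo
  have r0 : 0 < G.rt J j := pow_pos three_pos _
  have k1 : 15 ≤ k := by
    have : 0 < G.L j ^ (G.K0 + 1) := pow_pos (by linarith [h.L_big j]) _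
    unfold dZ at hu; omega
  have q0 : 0 < 1 + exp (G.Q j) := by positivity
  obtain ⟨a1, a2⟩ := (h.e1_of t hj hn hu (fun d hd => (h2 d hd).1) h1).fin t.b0 (h.N_odd J)
    (vlZ_nn h _ _) (z := G.rt J j * k) (rad := 4 * G.rt J j) (R := 4 * G.rt J j) (by ring)
    (by nlinarith) (by nlinarith) (fun d hd => ⟨(h2 d hd).1.sub continuous_const,
      fun U V e => by simp only [(h2 d hd).2.1 e], mul_nonneg q0.le (h2 d hd).2.2⟩) L fin
    (w' := fun c => (1 + exp (G.Q j)) * w c) (u := κ)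
    (fun μ c hc => ⟨(cl μ c hc).1, by rw [(cl μ c hc).2]⟩) (fun c hc => mul_pos q0 (pos c hc)) m0
    fun c hc => let ⟨s, t, b1, b2, b3⟩ := h3 c hc
      ⟨s, t, b1, by
        simp only [mul_left_comm _ (1 + exp (G.Q j)), ← mul_sum]
        exact mul_le_mul_of_nonneg_left b2 q0.le, b3⟩
  refine ⟨by simpa only [wZ, mul_assoc] using a1, fun c hc => (a2 c hc).trans ?_⟩
  rw [wZ, mul_assoc]
  exact mul_le_mul_of_nonneg_right (by linarith) (mul_pos q0 (pos c hc)).le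

end Ok

/-- the input at the scale `9 / 3 ^ e` -/
theorem Oks.ef (h : G.Oks) {b : ℕ × ℕ → ℝ} (tu : G.Tus b) (hu : G.dZ j + 1 < G.uZ e j)
    {T : ℕ × ℕ → β → Fz → ℝ} {A : ℕ → Set β} {w : ℕ → β → ℝ}
    (H : ∀ᶠ J in atTop, (A J).Finite ∧
      (∀ μ, ∀ c ∈ A J, r μ c ∈ A J ∧ r μ (r μ c) = c ∧ w J (r μ c) = w J c) ∧
      (∀ c ∈ A J, 0 < w J c) ∧ ∃ K, ∀ᶠ s in (hyperfilter ℕ : Filter ℕ),
        Wy.Lt (T (3 ^ s / 2, J)) r (A J) (4 * G.rt J j) K ∧
        (∀ c ∈ A J, ∫ U, T (3 ^ s / 2, J) c (L6.lf U)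
          ∂YM7.wilson (Fi.tr haar) (b (3 ^ s / 2, J)) (G.nn (3 ^ s / 2, J)) = 0) ∧
        ∃ κ, (G.wm (3 ^ s / 2)).Az (b (3 ^ s / 2, J)) J j (T (3 ^ s / 2, J)) (A J) (w J) κ) :
    Wy.EF (Fi.tr haar) G.nn G.aa b T r A (fun J c => G.wZ (G.uZ e j) j * w J c) (9 / 3 ^ e)
      (G.vlZ (G.uZ e j) j) := by
  have : (Fi.tr haar).IsHaarMeasure := (inferInstance : haar.IsHaarMeasure)
  have o := (h 0).1
  have d1 : 40 ≤ G.dZ j := by
    have : G.L j ≤ G.L j ^ (G.K0 + 1) := Nat.le_self_pow (G.K0).succ_ne_zero _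
    have : 1000 ≤ G.L j := o.L_big j
    unfold dZ; omega
  have e1 : e ≤ G.e j + 2 := by
    by_contra a
    rw [uZ, Nat.sub_eq_zero_of_le (not_le.1 a).le] at hu
    omega
  filter_upwards [H, eventually_ge_atTop j] with J ⟨fin, cl, pos, K, H⟩ hj
  have e2 := o.sch.mono.monotone hj
  have r0 : 0 < G.rt J j := pow_pos three_pos _
  refine ⟨G.rt J j * G.uZ e j, ?_, fin, fun μ c hc => ⟨(cl μ c hc).1, (cl μ c hc).2.1, by
    rw [(cl μ c hc).2.2]⟩, fun c hc => mul_pos (wZ_pos _ _) (pos c hc), ⟨K, H.mono fun s a =>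
      ⟨a.1.cont, fun c hc => (a.1.dep c hc).mono fun l hl i => (hl i).trans (Int.ofNat_le.2
        ((Nat.le_div_iff_mul_le (by norm_num)).2 (by nlinarith))), a.1.rf, a.1.bd⟩⟩, ?_⟩
  · change ((3 : ℝ) ^ G.e J)⁻¹ * _ = _
    rw [rt, uZ, ← pow_add, inv_mul_eq_div, div_eq_div_iff (by positivity) (by positivity)]
    push_cast
    rw [← pow_add, show (9 : ℝ) = 3 ^ 2 by norm_num, ← pow_add]
    congr 1
    change G.e j ≤ G.e J at e2
    omega
  filter_upwards [H, (eventually_ge_atTop 2).filter_mono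
    (Nat.cofinite_eq_atTop ▸ hyperfilter_le_cofinite)] with s ⟨a1, a2, κ, a3⟩ s2
  exact ((h _).1.e1_fin (tu (3 ^ s / 2, J)) hj (m := 3 ^ (s + e - 2)) (u := G.uZ e j) (by
    change (2 * (3 ^ s / 2) + 1) * 3 ^ G.e j = _
    rw [Nat.two_mul_div_two_add_one_of_odd (odd3 s), uZ, ← pow_add, ← pow_add]
    congr 1
    omega) hu (odd3 _) a3 a1 fin (fun μ c hc => ⟨(cl μ c hc).1, (cl μ c hc).2.2⟩) pos a2).1.e0

omit [GD] in
theorem two_mul_lt (x : ℕ) : 2 * x < 3 ^ x := by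
  induction x with
  | zero => simp
  | succ x ih => rw [pow_succ]; omega

theorem Ok.dZ_le (h : G.Ok) (j : ℕ) : ((G.L j * (G.dZ j + 1) : ℕ) : ℝ) ≤ G.Q j := by
  have L := h.L1 j
  have a : (1 : ℝ) ≤ G.L j ^ (G.K0 + 1) := one_le_pow₀ (by linarith)
  refine le_trans ?_ (pow_le_pow_right₀ (by linarith) (show G.K0 + 1 + 2 ≤ G.K by
    have := h.K0_le; omega))
  rw [dZ, pow_add _ _ 2]
  push_cast
  nlinarith [mul_le_mul_of_nonneg_left L (zero_le_one.trans a)]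

theorem Ok.ex_cel0 (h : G.Ok) {P : ℕ → Prop} (hP : ∀ᶠ j in atTop, P j) : ∃ E : ℕ, ∀ e, ∃ j, P j ∧
    G.dZ j + 1 < G.uZ e j ∧ G.e j ≤ E * (e + 1) ∧
      (G.uZ e j : ℝ) ^ 4 * √(G.bb j) ≤ E * (e + 1) := by
  obtain ⟨n, hn⟩ := eventually_atTop.1 hP
  have Qe : ∀ j, G.Q j ≤ G.e j := fun j =>
    ((le_self_pow₀ (h.Q1 j) (by norm_num)).trans (h.Qb j)).trans (h.sch.cmp j).2
  refine ⟨G.e n + 2 + ⌈((3 : ℝ) ^ (G.e n + 2)) ^ 4 * √(G.bb n)⌉₊, fun e => ?_⟩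
  have ex : ∃ j, n ≤ j ∧ G.dZ j + 1 < G.uZ e j := ⟨n + 2 * e, by omega, by
    have a := h.sch.mono.le_apply (x := n + 2 * e)
    have b := Nat.cast_le.1 ((h.dZ_le (n + 2 * e)).trans (Qe _))
    have c := two_mul_lt (G.e (n + 2 * e) + 2 - e)
    have d := Nat.le_mul_of_pos_left (G.dZ (n + 2 * e) + 1)
      (show 0 < G.L (n + 2 * e) by linarith [h.L_big (n + 2 * e)])
    unfold uZ; omega⟩
  obtain ⟨a1, a2⟩ := Nat.find_spec ex
  have a3 := fun i => Nat.find_min ex (m := i)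
  generalize Nat.find ex = j at *
  have e0 : (1 : ℝ) ≤ e + 1 := le_add_of_nonneg_left e.cast_nonneg
  refine ⟨j, hn j a1, a2, ?_⟩
  rcases a1.eq_or_lt with rfl | a1
  · refine ⟨le_trans (by omega) (Nat.le_mul_of_pos_right _ e.succ_pos), le_trans ?_
      (le_mul_of_one_le_right (Nat.cast_nonneg _) e0)⟩
    refine le_trans ?_ ((Nat.le_ceil _).trans (Nat.cast_le.2 (Nat.le_add_left _ _)))
    gcongr
    exact_mod_cast Nat.pow_le_pow_right three_pos (Nat.sub_le _ _)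
  obtain ⟨i, rfl⟩ : ∃ i, j = i + 1 := ⟨j - 1, by omega⟩
  have b1 : G.uZ e (i + 1) ≤ G.L i * G.uZ e i := by
    have := h.rt_step (Nat.lt_add_one i)
    rw [rt_top, mul_one] at this
    rw [← this, rt, uZ, uZ, ← pow_add]
    exact Nat.pow_le_pow_right three_pos (by have := h.sch.mono (Nat.lt_add_one i); omega)
  have b2 : (G.uZ e (i + 1) : ℝ) ≤ G.Q i := (Nat.cast_le.2 (b1.trans (Nat.mul_le_mul_left _
    (not_lt.1 fun a => a3 i i.lt_succ_self ⟨by omega, a⟩)))).trans (h.dZ_le i)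
  have b3 : G.uZ e (i + 1) ≤ G.e (i + 1) := (by exact_mod_cast b2.trans (Qe i) : _ ≤ G.e i).trans
    (h.sch.mono.monotone i.le_succ)
  have b4 := two_mul_lt (G.e (i + 1) + 2 - e)
  have b5 : G.e (i + 1) ≤ 2 * (e + 1) := by have := b4.trans_le b3; omega
  have b6 : 2 * (e + 1) ≤ (G.e n + 2 + ⌈((3 : ℝ) ^ (G.e n + 2)) ^ 4 * √(G.bb n)⌉₊) * (e + 1) :=
    Nat.mul_le_mul_right _ (by omega)
  refine ⟨b5.trans b6, le_trans ?_ (((h.sch.cmp (i + 1)).2.trans (Nat.cast_le.2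
    (b5.trans b6))).trans_eq (by push_cast; rfl))⟩
  rw [← le_div_iff₀ (sqrt_pos.2 (h.b0 _)), div_sqrt]
  refine le_sqrt_of_sq_le (le_trans ?_ ((h.Qb i).trans (h.b_mono i.le_succ)))
  rw [← pow_mul]
  exact (pow_le_pow_left₀ (Nat.cast_nonneg _) b2 _).trans (pow_le_pow_right₀ (h.Q1 i) (by norm_num))

/-- the level of the cells -/
theorem Ok.ex_cel (h : G.Ok) {P : ℕ → Prop} (hP : ∀ᶠ j in atTop, P j) : ∃ E : ℕ, ∀ e, ∃ j, P j ∧
    G.dZ j + 1 < G.uZ e j ∧ G.e j ≤ E * (e + 1) ∧ G.vlZ (G.uZ e j) j ≤ E * (e + 1) ∧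
      G.wZ (G.uZ e j) j ≤ 3 ^ (E * (e + 1)) := by
  obtain ⟨E, hE⟩ := h.ex_cel0 hP
  refine ⟨17 + (256 * ⌈cJ⌉₊ + 1) * E, fun e => (hE e).imp fun j ⟨a1, a2, a3, a4⟩ => ?_⟩
  have e0 : (0 : ℝ) ≤ E * (e + 1) := by positivity
  have v : G.vlZ (G.uZ e j) j ≤ ⌈cJ⌉₊ * (E * (e + 1)) := by
    rw [vlZ, g, div_inv_eq_mul, mul_assoc, mul_comm √_]
    exact mul_le_mul (Nat.le_ceil _) a4 (by positivity) (Nat.cast_nonneg _)
  have q : G.Q j ≤ E * (e + 1) := (((le_self_pow₀ (h.Q1 j) (by norm_num)).trans (h.Qb j)).trans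
    (h.sch.cmp j).2).trans (by exact_mod_cast a3)
  have c0 : (0 : ℝ) ≤ ⌈cJ⌉₊ := Nat.cast_nonneg _
  refine ⟨a1, a2, a3.trans (Nat.mul_le_mul_right _ (by nlinarith)), v.trans (by
    push_cast; nlinarith [mul_nonneg c0 e0, (e.cast_nonneg : (0 : ℝ) ≤ e)]), ?_⟩
  have x : ∀ (y : ℝ) (k : ℕ), y ≤ k → exp y ≤ 3 ^ k := fun y k a => (exp_le_exp.2 a).trans (by
    rw [← exp_one_pow]; exact pow_le_pow_left₀ (exp_pos 1).le exp_one_lt_three.le _)
  have x1 := x (256 * G.vlZ (G.uZ e j) j) (256 * ⌈cJ⌉₊ * (E * (e + 1))) (by push_cast; linarith)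
  have x2 := x _ (E * (e + 1)) (by push_cast; exact q)
  have y1 := one_le_pow₀ (n := 256 * ⌈cJ⌉₊ * (E * (e + 1))) (show (1 : ℝ) ≤ 3 by norm_num)
  have y2 := one_le_pow₀ (n := E * (e + 1)) (show (1 : ℝ) ≤ 3 by norm_num)
  calc _ ≤ (3 ^ 16 * 3 ^ (256 * ⌈cJ⌉₊ * (E * (e + 1)))) * (3 * 3 ^ (E * (e + 1))) :=
        mul_le_mul (by unfold kC; linarith) (by linarith) (by positivity) (by positivity)
    _ = (3 : ℝ) ^ (17 + (256 * ⌈cJ⌉₊ + 1) * E * (e + 1)) := by ring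
    _ ≤ _ := pow_le_pow_right₀ (by norm_num) (by nlinarith)

end Gl

end Pool.Agent.Lib.MP_7f377f_mp.RG.Q4.En
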