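import Pool.Agent.Lib.MP_7f377f_mp.G.KzM

/-! Words of point letters and arrays of slots. -/

noncomputable section

open Pool.Agent.Lib.MP_7f377f_mp.Jet

set_option linter.unusedSectionVars false
variable [Pool.Agent.Lib.MP_7f377f_mp.GD]

namespace Pool.Agent.Lib.MP_7f377f_mp.RG.Q4.En

open Finset Real Cok Filter Tl Ju Sg Pos Mg
open scoped Classical

attribute [local irreducible] box lbox tb tau rc

/-- a word: sites, letters, centrings and weights of the letters, and the base point -/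
structure Ptw (κ : Type) where
  x : κ → St
  Y : κ → Lq
  a : κ → ℂ
  u : κ → ℝ
  z : St

variable {α β γ κ : Type} [Fintype α] [DecidableEq α] [Fintype β] [Fintype γ] [DecidableEq γ]
  [Fintype κ] [DecidableEq κ] [Inhabited κ]

/-- the translated word -/
def Ptw.tr (P : Ptw κ) (v : St) : Ptw κ := ⟨fun l => P.x l + v, P.Y, P.a, P.u, P.z + v⟩

/-- the points of a word -/
def Ptw.pts (P : Ptw κ) : Finset St := insert P.z (univ.image P.x)

/-- the observable of a word -/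
def Ptw.ob (P : Ptw κ) (U : Conf) : ℂ := ∏ l, (-(P.Y l).1 (sh (P.x l) U) - P.a l)

namespace Gl

variable (G : Gl)

/-- the radii above the level `k` of a letter of weight `x` -/
def rX (n k : ℕ) (x : ℝ) (j : ℕ) : ℝ := (x * (G.rt (max j (k + 3)) k : ℝ) ^ n)⁻¹

/-- the activity of a word which merges at the level `k` -/
def wH (b : ℝ) (J k : ℕ) (P : Ptw κ) : Ac :=
  G.cSx b J k (fun l => G.jx J (P.x l) (P.Y l)) P.a (G.ptZ J k P.pts) (G.ptX J k P.pts)

/-- the size of this activity -/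
def thW (A n g k : ℕ) (C₀ : ℝ) (P : Ptw κ) : ℝ :=
  4 * (G.cMA A k (2 * (g + 1) * Fintype.card κ) C₀ * ∏ l, P.u l * (G.rt (k + 3) k : ℝ) ^ n)

/-- the run and the parameters -/
structure Aok (κ : Type) [Fintype κ] (A n g : ℕ) (C₀ b : ℝ) (J k l R : ℕ) : Prop where
  ok : G.Ok
  t : G.Tu b J
  hp : G.Pu
  hq : G.HP Sd.StA
  lt : k < J
  le : l ≤ k
  big : ∀ j ≥ l, G.Big A j
  cA : 2 * (g + 1) * Fintype.card κ * (n + 1) ≤ A
  C0 : 0 ≤ C₀
  dR : R ≤ (G.p J).R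

/-- words which merge at the level `k` -/
structure Wok (A n g : ℕ) (C₀ b : ℝ) (J k R : ℕ) (P : Ptw κ) : Prop where
  near : ∀ l, nearT (G.N J) (20 * g * G.sJ J k) P.z (P.x l)
  far : ∀ l l', l ≠ l' → ∀ D, nearT (G.N J) D (P.x l) (P.x l') → 66 * G.sJ J (k + 1) ≤ D
  rx : ∀ l, G.RxA A b J (k + 1) R (G.rX n k (P.u l)) (G.jx J (P.x l) (P.Y l))
  ce : ∀ l, ‖G.ex b J (k + 1) (G.jx J (P.x l) (P.Y l)) - P.a l‖ ≤
    C₀ * (P.u l * (G.rt (k + 3) k : ℝ) ^ n)

/-- the slot with the letter `Z` at `z` and the activity `H` has the weights `W` -/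
structure SlW (A n : ℕ) (b : ℝ) (J k l R : ℕ) (z : St) (Z : Lq) (H : Ac) (W : ℕ → ℝ) : Prop where
  pos : ∀ i, 0 < W i
  gr : ∀ i, l ≤ i → i < k → W (i + 1) ≤ (G.L i : ℝ) ^ n * W i
  up : G.RxA A b J (k + 1) R (G.rX n k (W k)) (G.jx J z Z)
  dn : ∀ i, l ≤ i → i ≤ k → G.SzA A i (W i * (G.rt (k + 3) k : ℝ) ^ n)⁻¹
    (G.tn b J (G.tn b J (G.xv b J (G.jx J z Z)) J k + (0, H)) k i)

/-- the radii below the level `k` -/
def rZ (n k t : ℕ) (W : ℕ → ℝ) (i : ℕ) : ℝ :=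
  (W i * (G.rt t i : ℝ) ^ n * (G.rt (k + 3) k : ℝ) ^ n)⁻¹

/-- the region of a slot -/
def cW (g J k : ℕ) (z : St) : Finset St := tb (G.N J) ((20 * g + 21) * G.sJ J k) {z}

/-- the array: the slot `q` carries the letter `Z q` and, for `q ∈ Om`, the word `P q` -/
def ptW (g J k : ℕ) (Om : Finset γ) (P : γ → Ptw κ) (Z : γ → Lq) : Wx γ γ κ Empty :=
  ⟨Om, id, fun q l => G.jx J ((P q).x l) ((P q).Y l), fun q => (P q).a,
    fun q => G.jx J (P q).z (Z q), fun q l => {rc (G.N J) ((P q).x l)}, fun q => G.cW g J k (P q).z,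
    fun q => G.ptZ J k (P q).pts, fun q => G.ptX J k (P q).pts, Empty.elim, fun _ => Empty.elim⟩

variable {G} {w : α → ℕ} {b M δ K C₀ θ x r : ℝ} {d D C J j k i l t R A n g : ℕ} {c : ℕ → St}
  {ω : ℕ → ℝ} {p : ℕ → (α → ℝ) →ₗ[ℝ] V} {lm : ℕ → V →ₗ[ℝ] α → ℝ}
  {U U' : ℕ → Module.End ℝ (α → ℝ)} {m : β → ℕ} {X : β → Lq} {H : Ac} {s s' : β → ℂ}
  {P : Ptw κ} {W : ℕ → ℝ} {z y : St} {Z : Lq} {Om : Finset γ} {Q : γ → Ptw κ} {Zs : γ → Lq}

theorem SzA.mono {u : Lx × Ac} {r' : ℝ} (e : G.SzA A k r u) (h : G.Ok) (a : r' ≤ r) :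
    G.SzA A k r' u := e.imp fun _ e => ⟨le_trans (mul_le_mul_of_nonneg_left
  (mul_le_mul_of_nonneg_right a (h.sz_nn e.2).1) (pow_pos (h.QA0 A k) _).le) e.1, e.2⟩

theorem trS_img (n r : ℕ) (v : St) (S : Finset St) :
    trS n v (tb n r S) = tb n r (S.image (· + v)) := by
  ext w
  simp only [trS, mem_image, mem_tb]
  constructor
  · rintro ⟨u, ⟨-, x, hx, e⟩, rfl⟩
    exact ⟨rc_rc _ _, _, ⟨x, hx, rfl⟩, nearT_rc_right.2 ((nearT_add_right v).2 e)⟩
  · rintro ⟨h1, _, ⟨x, hx, rfl⟩, e⟩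
    exact ⟨rc n (w - v), ⟨rc_rc _ _, x, hx, nearT_rc_right.2 ((nearT_add_right v).1
      (by rwa [sub_add_cancel]))⟩, by rw [rc_add_rc, sub_add_cancel, h1]⟩

namespace Ok

variable (h : G.Ok)
include h

/-- the observable of a letter -/
theorem xO_jx {V : Conf} (hV : Per (G.N J) V) : xO (G.N J) (G.jx J z Z) V = Z.1 (sh z V) := by
  rw [xO, sum_eq_single_of_mem _ (rc_mem (h.N_odd J) z) fun x hx e => by
    simp [jx, lS, dt, nearT_zero, rc_eq (h.N_odd J) hx, e.symm]]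
  simp [jx, lS, dt, sO, nearT_rc, Hj.sh_rc hV]

/-- the observables of the slots -/
theorem ptW_Y (q : γ) {V : Conf} (hV : Per (G.N J) V) :
    (G.ptW g J k Om Q Zs).Y (G.N J) 1 q V =
      -(Zs q).1 (sh (Q q).z V) + if q ∈ Om then (Q q).ob V else 0 := by
  simp only [Wx.Y, Wx.wo, ptW, h.xO_jx hV, sum_filter, id, Pi.one_apply, one_mul, sum_ite_eq']
  rfl

/-- translations of a word -/
theorem wH_tr (hk : k ≤ J) (P : Ptw κ) (y : St) {o : LP St}
    (ho : o ∈ lps (box (G.N k / 2))) : G.wH b J k (P.tr ((G.rt J k : ℤ) • y)) o.1 o.2 =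
      trA (G.N k) (-y) (G.wH b J k P) o.1 o.2 := by
  have e : ((P.tr ((G.rt J k : ℤ) • y)).pts.image fun x => G.tk x J k).image (· + -y) =
      P.pts.image fun x => G.tk x J k := by
    simp only [Ptw.pts, Ptw.tr, image_insert, image_image, Function.comp_def,
      h.tk_add y k hk le_rfl, rt_top, Nat.cast_one, one_smul, add_neg_cancel_right]
  have := h.cSx_tr (b := b) hk (fun l => G.jx J (P.x l) (P.Y l)) P.a (-y)
    (ptZ_sub (J := J) (P := (P.tr ((G.rt J k : ℤ) • y)).pts)) (tb_dom (h.N_odd k)) ho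
  rw [ptZ, ptX, trS_img, trS_img, e] at this
  refine Eq.trans (congrArg (fun F => G.cSx b J k F _ _ _ o.1 o.2) (funext fun l => ?_)) this.symm
  rw [← jx_sxT (z := (G.rt J k : ℤ) • -y)]
  simp [Ptw.tr]

theorem trl_tk (z y : St) : G.Trl (G.tk z J) (G.tk (z + (G.rt J j : ℤ) • y) J)
    (fun i => (G.rt i j : ℤ) • -y) j J :=
  ⟨fun i a a' => by simp only [h.tk_add y i a' a, smul_neg, add_neg_cancel_right], fun i a _ => by
    simp only [up, h.rt_rt a i.le_succ, h.rt_L, Nat.cast_mul, mul_smul]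
    rfl⟩

theorem ex_jx (hk : k ≤ J) (z y : St) (Z : Lq) :
    G.ex b J k (G.jx J (z + (G.rt J k : ℤ) • y) Z) = G.ex b J k (G.jx J z Z) := by
  rw [← h.ex_tr hk _ y, jx_sxT]

omit h in
theorem rt0 (i k n : ℕ) : (1 : ℝ) ≤ (G.rt i k : ℝ) ^ n :=
  one_le_pow₀ (by exact_mod_cast (pow_pos three_pos _ : 0 < G.rt i k))

theorem rt_up2 (e : i ≤ j) : (G.rt i k : ℝ) ≤ G.rt j k := Nat.cast_le.2
  (Nat.pow_le_pow_right three_pos (Nat.sub_le_sub_right (h.sch.mono.monotone e) _))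

theorem rt_succ (e : k ≤ i) : (G.rt (i + 1) k : ℝ) = G.L i * G.rt i k := by
  rw [h.rt_rt e i.le_succ, h.rt_L, Nat.cast_mul]

omit h in
theorem rX_pos (x0 : 0 < x) : 0 < G.rX n k x j :=
  inv_pos.2 (mul_pos x0 (one_pos.trans_le (rt0 ..)))

theorem rX_step (hj : k < j) : G.rX n k x j = G.rJ n (k + 3) j * G.rX n k x (j + 1) := by
  have L := h.L1 j
  unfold rX rJ
  split_ifs with e
  · rw [max_eq_left e, max_eq_left (by omega), h.rt_succ hj.le, mul_pow, mul_left_comm, mul_inv,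
      mul_inv (_ ^ n), mul_inv_cancel_left₀ (by positivity), mul_inv]
  · rw [max_eq_right (by omega), max_eq_right (by omega), one_mul]

theorem QA_rt (big : ∀ i ≥ k, G.Big A i) (e : k ≤ i) :
    G.QA A i ^ 345 ≤ G.QA A k ^ 345 * (G.rt i k : ℝ) ^ 5 := by
  induction i, e using Nat.le_induction with
  | base => simp [rt_top]
  | succ i e ih =>
    have l : 3 ≤ Nat.log 3 (G.L i) := Nat.le_log_of_pow_le (by norm_num) (by linarith [h.L_big i])
    have a : 3 ^ (69 * (G.K + A)) ≤ G.L i :=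
      calc _ ≤ 3 ^ (4 * (20 * (20 + (G.K + A)))) := Nat.pow_le_pow_right three_pos (by omega)
        _ ≤ (Nat.log 3 (G.L i) ^ 4) ^ (20 * (20 + (G.K + A))) := by
            rw [← pow_mul]; exact Nat.pow_le_pow_left l _
        _ ≤ _ := (big i e).2.trans (by unfold Gl.L LL Gl.l; omega)
    have a' : ((3 : ℝ) ^ (69 * (G.K + A))) ≤ G.L i := by exact_mod_cast a
    have b : (G.L (i + 1) : ℝ) ≤ 3 * G.L i := by exact_mod_cast h.L_succ i
    calc _ ≤ ((3 * G.L i : ℝ) ^ (G.K + A)) ^ 345 := by unfold QA; gcongr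
      _ = (3 ^ (69 * (G.K + A))) ^ 5 * G.QA A i ^ 345 := by unfold QA; ring
      _ ≤ (G.L i : ℝ) ^ 5 * (G.QA A k ^ 345 * (G.rt i k : ℝ) ^ 5) := by
          have := h.QA0 A i
          gcongr
      _ = _ := by rw [h.rt_succ e]; ring

theorem QA_mono (e : i ≤ k) : G.QA A i ≤ G.QA A k :=
  pow_le_pow_left₀ (Nat.cast_nonneg _) (Nat.cast_le.2 (h.L_mono e)) _

end Ok

namespace Aok

variable (a : G.Aok κ A n g C₀ b J k l R)
include a

theorem gA : 2 * (g + 1) ≤ A ∧ n + 1 ≤ A := by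
  have := a.cA
  have := Fintype.card_pos (α := κ)
  constructor <;> nlinarith [Nat.zero_le (g * n), Nat.zero_le (g * Fintype.card κ),
    Nat.zero_le (n * Fintype.card κ), Nat.zero_le (g * Fintype.card κ * n)]

theorem cls {Δ Δ' : ℕ} (sep : ∀ q q', q ≠ q' → ∀ E, nearT (G.N J) E (Q q).z (Q q').z → Δ ≤ E)
    (e : Δ' + G.L k * G.sJ J k ≤ Δ) : Cls (G.N J) Δ' univ id fun q => G.cW g J k (Q q).z := by
  have a1 := a.ok.LA (a.big k a.le)
  have a2 := A.lt_two_pow_self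
  have a3 := a.gA.1
  have a4 := Nat.mul_le_mul_right (G.sJ J k) (show 2 * (20 * g + 21) ≤ G.L k by omega)
  exact fun q _ q' _ u => sep_ball (fun E v => by have := sep q q' u E v; nlinarith)
    Subset.rfl Subset.rfl

/-- the hypotheses of the merging -/
theorem mx {v : γ → ℝ} (u0 : ∀ q l, 0 < (Q q).u l) (e : ∀ q ∈ Om, G.Wok A n g C₀ b J k R (Q q))
    (v0 : ∀ q, 0 < v q) (up : ∀ q, G.RxA A b J (k + 1) R (G.rX n k (v q)) (G.jx J (Q q).z (Zs q)))
    (cel : ∀ j, k ≤ j → j ≤ J →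
      Cls (G.N j) (G.dL j) univ id fun q => G.zs (G.cW g J k (Q q).z) J j) :
    G.MxA A b J k (G.ptW g J k Om Q Zs) (2 * (g + 1) * Fintype.card κ) R C₀ (G.mJ (k + 3))
      (G.rJ n (k + 3)) (fun j q l => G.rX n k ((Q q).u l) j) fun j q => G.rX n k (v q) j := by
  have h := a.ok
  have c0 := Fintype.card_pos (α := κ)
  have m : ∀ {s z E}, nearT (G.N J) E z s → E ≤ (20 * g + 21) * G.sJ J k →
      {rc (G.N J) s} ⊆ G.cW g J k z := fun u u' => singleton_subset_iff.2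
    (mem_tb_single.2 ⟨rc_rc _ _, nearT_rc_right.2 (u.mono u')⟩)
  have one : ∀ s, {rc (G.N J) s} ⊆ tb (G.N J) 0 {s} := fun s => singleton_subset_iff.2
    (mem_tb_single.2 ⟨rc_rc _ _, nearT_rc _ _⟩)
  refine ⟨a.lt, Nat.le_mul_of_pos_left _ (by positivity), le_trans (Nat.le_mul_of_pos_right _
    n.succ_pos) a.cA, a.C0, fun j u => a.big j (a.le.trans u), a.dR,
    fun j h1 _ => ⟨h.gr_J (a.big j (a.le.trans h1.le)) (Nat.mul_pos (by positivity) c0) a.cA,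
      fun q l => Ok.rX_pos (u0 q l), fun q => Ok.rX_pos (v0 q),
      fun _ => ⟨fun _ _ => (h.rX_step h1).le, fun _ => (h.rX_step h1).le⟩⟩,
    fun q hq => ⟨⟨_, ptZ_sub (tk_ptZ (mem_insert_self ..))⟩, ptZ_sub, h.tb_ptZ,
      h.ptX_zs (E := 20 * g * G.sJ J k) a.lt.le (fun y u => ?_)
        (tb_mono Subset.rfl (le_of_eq (by ring))), (h.tau_ptX (j := g) (E := 20 * g * G.sJ J k) a.lt.le
          (univ_nonempty.image _) (fun y u => ?_) (by nlinarith)).trans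
            (Nat.mul_le_mul_left _ card_image_le)⟩,
    fun q l => jx_in h _ _, fun q x u => jx_in h _ _ x fun u' => u (m (nearT.refl _ 0 _)
      (Nat.zero_le _) u'), fun q hq l => ⟨m ((e q hq).near l) (by nlinarith),
      h.zs_ptZ a.lt.le (Nat.zero_le _) (mem_insert_of_mem (mem_image_of_mem _ (mem_univ l))) (one _),
      (e q hq).rx l, ?_⟩, up, fun j h1 h2 q hq => h.cls_J (Δ := (66 * G.sJ J (k + 1) : ℕ))
        (fun l _ l' _ u => sep_ball ((e q hq).far l l' u) (one _) (one _)) le_rfl le_rfl h1 h2, cel⟩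
  · rcases mem_insert.1 u with rfl | u
    · exact nearT.refl _ _ _
    · obtain ⟨l, -, rfl⟩ := mem_image.1 u
      exact (e q hq).near l
  · obtain ⟨l, -, rfl⟩ := mem_image.1 u
    exact (e q hq).near l
  · simp only [rX, max_eq_right (show k + 1 ≤ k + 3 by omega)]
    rw [inv_mul_le_iff₀ (mul_pos (u0 q l) (one_pos.trans_le (Ok.rt0 ..))), mul_comm]
    exact (e q hq).ce l

theorem mx1 (e : G.Wok A n g C₀ b J k R P) (u0 : ∀ l, 0 < P.u l) :
    G.MxA A b J k (G.ptW g J k univ (fun _ : Unit => P) 0) (2 * (g + 1) * Fintype.card κ) R C₀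
      (G.mJ (k + 3)) (G.rJ n (k + 3)) (fun j _ l => G.rX n k (P.u l) j) fun j _ => G.rX n k 1 j := by
  have h := a.ok
  refine a.mx (fun _ => u0) (fun _ _ => e) (fun _ => one_pos) (fun _ => ?_)
    fun _ _ _ _ _ _ _ u => (u rfl).elim
  rw [show G.jx J P.z ((0 : Unit → Lq) _) = 0 by ext <;> simp [jx, lS]]
  exact ⟨⟨0, 0, .zero (h.ρ0 J), by linarith [h.b0 J], by simp⟩, fun j _ _ => ⟨0, by
    simpa using (h.b0 j).le, by
    rw [xv_zero, h.tn_zero a.t le_rfl]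
    exact ⟨by simpa using pm_zero (h.ρ0 j), 0, km_zero, fun _ _ => le_rfl, fun _ => by simp⟩⟩⟩

/-- a word is an activity near the track of its base point -/
theorem ka (e : G.Wok A n g C₀ b J k R P) (u0 : ∀ l, 0 < P.u l) (hA : D + 7 ≤ A) :
    G.Ka D k (G.tk P.z J k) (G.thW A n g k C₀ P) (G.wH b J k P) := by
  have := (a.mx1 e u0).ka a.ok a.t a.hp a.hq hA (mem_univ ()) (s := G.tk P.z J k)
    ⟨_, ptZ_sub (tk_ptZ (mem_insert_self ..)), nearT_rc_right.2 (nearT.refl _ _ _)⟩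
  simp only [rX, max_eq_right (show k + 1 ≤ k + 3 by omega), prod_inv_distrib, div_inv_eq_mul] at this
  exact this

theorem real (e : G.Wok A n g C₀ b J k R P) (u0 : ∀ l, 0 < P.u l)
    (hY : ∀ l, (G.jx J (P.x l) (P.Y l)).Re (G.p J) ∧ (P.a l).im = 0) : RealA (G.wH b J k P) :=
  (a.mx1 e u0).real a.ok a.t a.hp a.hq (mem_univ ()) (fun l => (hY l).1) (fun l => (hY l).2)
    fun _ => ⟨fun _ _ _ => rfl, fun _ _ => by simp [ptW, jx, lS], fun _ _ _ _ => by simp [ptW, jx, lS]⟩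

/-- the flow of an array from the level `k` of the merging to the level `l`; the radii do not grow
below the level `t` -/
theorem arr {Ws : γ → ℕ → ℝ} {Δ : ℕ} (u0 : ∀ q l, 0 < (Q q).u l)
    (e : ∀ q ∈ Om, G.Wok A n g C₀ b J k R (Q q) ∧
      G.QA A k ^ 330 * G.thW A n g k C₀ (Q q) ≤ Ws q k)
    (sl : ∀ q, G.SlW A n b J k l R (Q q).z (Zs q) (if q ∈ Om then G.wH b J k (Q q) else 0) (Ws q))
    (sep : ∀ q q', q ≠ q' → ∀ E, nearT (G.N J) E (Q q).z (Q q').z → Δ ≤ E) (ht : t ≤ k)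
    (h1 : 22 * (G.L t * G.sJ J t) ≤ Δ) (h2 : 66 * G.sJ J l + G.L k * G.sJ J k ≤ Δ) :
    ∃ (Y : ℕ → Fy γ) (r1 : γ → ℝ),
      (∀ q, jd {q} (Y k).E = G.ex b J k (G.jx J (Q q).z (Zs q))) ∧
      (∀ i ≤ k, Y i = G.fw univ b J (Y k) k i) ∧ ∀ i ≤ k, l ≤ i →
      G.Fd i (G.zz b J i) univ r1 (fun q => G.rZ n k t (Ws q) i) (G.tA A i) (Y i)
        (fun s => G.tt (pr b (G.N J) ((G.ptW g J k Om Q Zs).Y (G.N J) 1) s) J i) ∧
      G.KA A i (fun q => G.rZ n k t (Ws q) i) (G.tA A i) (Y i).K ∧ (Y i).bs = (G.zz b J i).d ∧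
      (Y i).Ec univ id ∧ ((Y i).Z = fun q => G.zs (G.cW g J k (Q q).z) J i) ∧
      (∀ q, (Y i).jt {q} = G.tn b J (G.tn b J (G.xv b J (G.jx J (Q q).z (Zs q))) J k +
          (0, if q ∈ Om then G.wH b J k (Q q) else 0)) k i ∧
        G.SzA A i (G.rZ n k t (Ws q) i) ((Y i).jt {q})) ∧
      ∀ s ∈ Pd fun q => G.rZ n k t (Ws q) i, PU (G.p i) (G.Q i ^ 210)⁻¹ ((Y i).ψ s) := by
  have h := a.ok
  have kJ := a.lt.le
  have c1 := a.cls sep (Δ' := 21 * (G.L t * G.sJ J t)) (by have := h.LsJ_anti ht kJ; omega)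
  have M := a.mx u0 (fun q u => (e q u).1) (fun q => (sl q).pos k) (fun q => (sl q).up)
    fun j u u' => h.cls_L c1 le_rfl (ht.trans u) u'
  have p : ∀ q i, 0 < Ws q i * (G.rt t i : ℝ) ^ n * (G.rt (k + 3) k : ℝ) ^ n := fun q i =>
    mul_pos (mul_pos ((sl q).pos i) (one_pos.trans_le (Ok.rt0 ..))) (one_pos.trans_le (Ok.rt0 ..))
  have p' := fun q i => mul_pos ((sl q).pos i) (one_pos.trans_le (Ok.rt0 (G := G) (k + 3) k n))
  have le : ∀ q i, G.rZ n k t (Ws q) i ≤ (Ws q i * (G.rt (k + 3) k : ℝ) ^ n)⁻¹ := fun q i =>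
    inv_anti₀ (p' q i) (by
      rw [mul_right_comm]
      exact le_mul_of_one_le_right (p' q i).le (Ok.rt0 ..))
  have w : ∀ q, ∑ ω ∈ Om.filter (id · = q), (1 : γ → ℂ) ω • G.wX b J k (G.ptW g J k Om Q Zs) ω =
      if q ∈ Om then G.wH b J k (Q q) else 0 := fun q => by
    simp only [sum_filter, id, Pi.one_apply, one_smul, sum_ite_eq']
    rfl
  have c0 : 0 < G.cMA A k (2 * (g + 1) * Fintype.card κ) C₀ :=
    mul_pos (exp_pos _) (pow_pos (h.QA0 A k) _)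
  have q0 := pow_pos (h.QA0 A k) 330
  have sz := fun i u u' q => ((sl q).dn i u u').mono h (le q i)
  refine (M.down h a.t a.hp a.hq a.le a.big (w := 1) (m' := G.mJ t)
    (ρ' := G.rJ n t) (r' := fun i q => G.rZ n k t (Ws q) i)
    (Wt := (G.QA A k ^ 330 * G.cMA A k (2 * (g + 1) * Fintype.card κ) C₀)⁻¹)
    (fun q => by simp [rZ, rX, h.rt_hi ht]) (fun y => ?_)
    (by rw [← mul_assoc, mul_inv_cancel₀ (by positivity)])
    (fun i u u' => ⟨h.gr_J (a.big i u) le_rfl (by simpa using a.gA.2), fun q =>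
      ⟨inv_pos.2 (p q i), fun v => ?_⟩⟩) (fun i u u' q => (w q).symm ▸ sz i u u' q)
    fun i u u' => ?_).imp fun Y => Exists.imp fun r1 y => ⟨y.1, y.2.1, fun i u u' => ?_⟩
  · refine (sum_le_card_nsmul _ _ _ fun q u => ?_).trans (nsmul_le_nsmul_left (by positivity)
      (card_le_one.2 fun q u q' u' => ?_) |>.trans_eq (one_nsmul _))
    · have := (e q (mem_filter.1 u).1).2
      simp only [rX, max_eq_right (show k + 1 ≤ k + 3 by omega), prod_inv_distrib, div_inv_eq_mul,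
        Pi.one_apply, norm_one, one_mul]
      have P0 : 0 ≤ ∏ l, (Q q).u l * (G.rt (k + 3) k : ℝ) ^ n :=
        prod_nonneg fun l _ => by have := u0 q l; positivity
      refine (mul_le_mul_of_nonneg_right ((le q k).trans (inv_anti₀ ((sl q).pos k)
        (le_mul_of_one_le_right ((sl q).pos k).le (Ok.rt0 ..)))) P0).trans ?_
      rw [inv_mul_le_iff₀ ((sl q).pos k), ← div_eq_mul_inv, le_div_iff₀ (by positivity)]
      unfold thW at this
      nlinarith [mul_nonneg (mul_pos q0 c0).le P0]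
    · obtain ⟨v1, v2⟩ := mem_filter.1 u
      obtain ⟨v3, v4⟩ := mem_filter.1 u'
      exact one_cluster (M.cel k le_rfl kJ) (mul_pos (by linarith [h.L1 k]) (h.D_pos k))
        (mem_univ q) (mem_univ q') ((M.wd q v1).2.2.2.1 v2) ((M.wd q' v3).2.2.2.1 v4)
  · have L := h.L1 i
    have := mul_le_mul_of_nonneg_right ((sl q).gr i u v)
      (show 0 ≤ (G.rt t (i + 1) : ℝ) ^ n * (G.rt (k + 3) k : ℝ) ^ n by positivity)
    simp only [rZ, rJ]
    rw [← div_eq_mul_inv, inv_eq_one_div, div_le_div_iff₀ (p q i) (p q _)]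
    split_ifs with u
    · simpa [h.rt_hi u, h.rt_hi (u.trans i.le_succ), mul_assoc] using this
    · rw [h.rt_step (show i < t by omega), Nat.cast_mul, mul_pow]
      linarith
  · unfold mJ
    split_ifs with v
    · rw [h.dL_eq]
      exact h.cls_L c1 le_rfl v (u'.trans kJ)
    · rw [show ((1 : ℕ) + 2 : ℝ) = 3 by norm_num]
      exact h.cls_3 (a.cls sep h2) le_rfl u (u'.trans kJ)
  · obtain ⟨b1, b2, b3, b4, b5, b6, b7⟩ := y.2.2 i u u'
    have b8 := fun q => (b6 q).trans (congrArg (fun H => G.tn b J (_ + (0, H)) k i) (w q))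
    exact ⟨b1, b2, b3, b4, b5, fun q => ⟨b8 q, b8 q ▸ sz i u' u q⟩, b7⟩

end Aok

namespace Fk

variable (F : G.Fk w d D C M c b J j ω p lm U U' R δ K m X)
include F

theorem up' (h1 : j ≤ k) (h2 : k ≤ i) (h3 : i ≤ J) :
    ‖G.ys w d D C c b J j p (G.fl D C J m X s) i‖ ≤ (G.rt i k : ℝ) ^ (d + 1) *
      ‖G.ys w d D C c b J j p (G.fl D C J m X s) k‖ := by
  have h := F.T.ok
  refine (F.up s h1 h2 h3).trans ?_
  rw [pow_succ' _ d]
  gcongr
  rw [← h.rt_prod h2]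
  refine prod_le_prod (fun n _ => by linarith [h.Yr1 d C n]) fun n hn => ?_
  have := F.T.MY (h1.trans (mem_Ico.1 hn).1)
  nlinarith [h.Yr1 d C n, F.T.M1]

/-- the radii of a letter of the frame -/
theorem rX (hj : j ≤ k) (hk : k < J) (big : ∀ i ≥ k, G.Big A i) (hn : d + 9 ≤ n)
    (hJ : K / G.ka D C J ^ d ≤ G.rt J k) (x0 : 0 < x)
    (hx : G.QA A k ^ 345 * ‖G.ys w d D C c b J j p (G.fl D C J m X s) k‖ ≤ x) :
    G.RxA A b J (k + 1) R (G.rX n k x) (G.jx J (c J) (G.fl D C J m X s)) := by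
  have h := F.T.ok
  have e : ∀ i, k ≤ i → i ≤ J → G.QA A i ^ 345 * (G.rX n k x i * (G.rt i k *
      ‖G.ys w d D C c b J j p (G.fl D C J m X s) i‖)) ≤ 1 := fun i h1 h2 => by
    have r1 := Ok.rt0 (G := G) i k 1
    have q := h.QA0 A k
    rw [mul_left_comm, Gl.rX, inv_mul_le_iff₀ (mul_pos x0 (one_pos.trans_le (Ok.rt0 ..))), mul_one]
    calc _ ≤ G.QA A k ^ 345 * (G.rt i k : ℝ) ^ 5 * (G.rt i k * ((G.rt i k : ℝ) ^ (d + 1) *
          ‖G.ys w d D C c b J j p (G.fl D C J m X s) k‖)) := by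
          gcongr
          exacts [h.QA_rt big h1, F.up' hj h1 h2]
      _ = G.QA A k ^ 345 * ‖G.ys w d D C c b J j p (G.fl D C J m X s) k‖ *
          (G.rt i k : ℝ) ^ (d + 7) := by ring
      _ ≤ _ := mul_le_mul hx ((pow_le_pow_right₀ (by simpa using r1) (by omega)).trans
          (pow_le_pow_left₀ (Nat.cast_nonneg _) (h.rt_up2 (le_max_left ..)) n)) (by positivity) x0.le
  have r0 := fun i => (Ok.rX_pos (G := G) (n := n) (k := k) (j := i) x0).le
  refine F.rxA s (by omega) r0 (le_trans ?_ (e J hk.le le_rfl))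
    fun i h1 h2 => le_trans ?_ (e i (by omega) h2.le)
  · have := h.QA1 A J
    have := r0 J
    have := F.K0
    have := h.ka0 D C J
    gcongr
    exacts [by linarith, by norm_num]
  · have := h.QA0 A i
    have := r0 i
    gcongr
    exact le_mul_of_one_le_left (norm_nonneg _) (by simpa using Ok.rt0 (G := G) i k 1)

theorem MQ (h1 : j ≤ k) : 200 * M ≤ G.QA A k := by
  have h := F.T.ok
  have := F.T.MY h1
  nlinarith [h.Yr1 d C k, F.T.M1, h.LQ k, h.QA_ge A k]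

variable (hj : j ≤ l) (hl : l ≤ k) (hk : k < J) (big : ∀ i ≥ k, G.Big A i) (hn : d + 9 ≤ n)
  (hJ : K / G.ka D C J ^ d ≤ G.rt J k) (W0 : ∀ i, 0 < W i)
  (gr : ∀ i, l ≤ i → i < k → W (i + 1) ≤ (G.L i : ℝ) ^ n * W i)
include hj hl hk big hn hJ W0 gr

omit hl hk big hn hJ gr W0 in
theorem szW {u : Jv} {y v : ℝ} (h1 : l ≤ i) (a : G.zP w d D C c J j p lm U i u y)
    (a' : ‖G.zq w d D C J j p i u‖ ≤ x) (v0 : 0 < v) (r0 : 0 ≤ r) (e : x + y ≤ 200 * M * r)
    (hW : G.QA A i ^ 345 * r ≤ v) : G.SzA A i v⁻¹ (G.jp D c i u) := by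
  have q := F.T.ok.QA0 A i
  refine F.T.szA (hj.trans h1) a a' (inv_pos.2 v0).le ?_
  rw [mul_left_comm, inv_mul_le_iff₀ v0, mul_one]
  calc _ ≤ G.QA A i ^ 344 * (G.QA A i * r) := by
        gcongr
        exact e.trans (mul_le_mul_of_nonneg_right (F.MQ (hj.trans h1)) r0)
    _ = G.QA A i ^ 345 * r := by ring
    _ ≤ _ := hW

/-- slots with one letter -/
theorem slw (hW' : G.QA A k ^ 345 * ‖G.ys w d D C c b J j p (G.fl D C J m X s) k‖ ≤ W k)
    (hW : ∀ i, l ≤ i → i ≤ k → G.QA A i ^ 345 * ‖G.ys w d D C c b J j p (G.fl D C J m X s) i‖ ≤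
      W i * (G.rt (k + 3) k : ℝ) ^ n) : G.SlW A n b J k l R (c J) (G.fl D C J m X s) 0 W := by
  refine ⟨W0, gr, F.rX (hj.trans hl) hk big hn hJ (W0 k) hW', fun i h1 h2 => ?_⟩
  rw [show ((0, 0) : Lx × Ac) = 0 from rfl, add_zero,
    show G.tn b J (G.tn ..) k i = G.jv b J (c J) _ i from dw_dw _ _ hk.le i h2,
    ← F.lv s (hj.trans h1) (h2.trans_lt hk)]
  refine F.szW hj h1 (F.cone s (hj.trans h1) (h2.trans hk.le)) le_rfl
    (mul_pos (W0 i) (one_pos.trans_le (Ok.rt0 ..))) (norm_nonneg _) ?_ (hW i h1 h2)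
  rw [← ys]
  nlinarith [F.T.M1, norm_nonneg (G.ys w d D C c b J j p (G.fl D C J m X s) i)]

/-- slots with an activity minus a letter -/
theorem slw_im (a : G.Ka D k (c k) θ H) (e : G.Im w d D C c b J j p m X H k s)
    (hW : ∀ i, l ≤ i → i ≤ k → 3 * G.QA A k ^ 345 *
      (G.wR d D C k i θ + ‖G.ys w d D C c b J j p (G.fl D C J m X (s - s')) i‖) ≤ W i) :
    G.SlW A n b J k l R (c J) (-G.fl D C J m X s') H W := by
  have h := F.T.ok
  have jk := hj.trans hl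
  have q := pow_pos (h.QA0 A k) 345
  refine ⟨W0, gr, ?_, fun i h1 h2 => ?_⟩
  · rw [← map_neg]
    refine F.rX jk hk big hn hJ (W0 k) (le_trans ?_ (hW k hl le_rfl))
    have := F.im_le jk hk a e
    rw [← F.eqv_val jk hk.le] at this ⊢
    rw [← F.eqv_val jk hk.le, show -s' = s - s' - s by abel, map_sub _ _ s, Submodule.coe_sub, wR, Pw,
      rt_top]
    have u := norm_sub_le (F.eqv jk hk.le (s - s') : SyC w d) (F.eqv jk hk.le s)
    simp only [Ico_self, prod_empty, Nat.cast_one, one_pow, div_one, one_mul]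
    nlinarith [norm_nonneg (F.eqv jk hk.le (s - s') : SyC w d)]
  obtain ⟨θ0, ⟨_, k1, k2⟩, k3⟩ := a
  obtain ⟨a1, a2, a3⟩ := F.T.act k1 k2 k3
  have x0 : 0 < G.jW D k * θ := mul_pos (pow_pos (by linarith [h.L1 k]) _) θ0
  obtain ⟨s₀, e1, -, e2⟩ := F.cmp le_rfl jk hk.le x0 a1 (by rw [a2, norm_zero]; exact x0.le)
  obtain rfl := F.im_uniq e e1
  have ji := hj.trans h1
  have iJ := h2.trans hk.le
  obtain ⟨b1, b2⟩ := e2 i ji h2
  obtain ⟨c1, c2⟩ := F.T.co.lin i _ _ _ _ 1 b1 (F.cone (s - s') ji iJ)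
  have c3 := F.fm.st_lin s' (s - s') 1 ji iJ
  simp only [st_ls, one_smul, add_sub_cancel] at c3
  have c4 := (congrArg norm c2).trans_le ((norm_add_le _ _).trans
    (add_le_add b2 (congrArg norm (one_smul ℂ _)).le))
  rw [one_smul, c3, ← sub_sub, sub_add_cancel] at c1 c4
  rw [← a3, ← jv, ← F.jp_cmp hk a1 s' ji h2]
  have w0 : 0 ≤ G.wR d D C k i θ := by have := h.Pw1 d C i k; unfold wR; positivity
  have n0 := norm_nonneg (G.ys w d D C c b J j p (G.fl D C J m X (s - s')) i)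
  have M1 := F.T.M1
  have q' := pow_le_pow_left₀ (h.QA0 A i).le (h.QA_mono (A := A) h2) 345
  refine F.szW hj h1 c1 c4 (mul_pos (W0 i) (one_pos.trans_le (Ok.rt0 ..))) (add_nonneg w0 n0) ?_
    (le_trans (mul_le_mul_of_nonneg_right (by linarith) (add_nonneg w0 n0))
      ((hW i h1 h2).trans (le_mul_of_one_le_right (W0 i).le (Ok.rt0 ..))))
  rw [← wR, norm_one, ← ys]
  nlinarith

end Fk

/-- translated words have the same image -/
theorem Fk.im_tr (F : G.Fk w d D C M (G.tk P.z J) b J j ω p lm U U' R δ K m X) (h1 : j ≤ k)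
    (h2 : k ≤ J) (e : G.Im w d D C (G.tk P.z J) b J j p m X (G.wH b J k P) k s) (y : St) :
    G.Im w d D C (G.tk (P.z + (G.rt J j : ℤ) • y) J) b J j p m X
      (G.wH b J k (P.tr ((G.rt J j : ℤ) • y))) k s :=
  F.im_trl e (F.T.ok.trl_tk _ y) h1 h2 fun o ho => by
    rw [F.T.ok.rt_rt h1 h2, Nat.cast_mul, mul_smul, F.T.ok.wH_tr h2 P _ ho, smul_neg]

/-- words of letters of frames on their tracks, at all translates -/
theorem Aok.wok (a : G.Aok κ A n g C₀ b J k l R) (hj : j ≤ k) (hn : d + 9 ≤ n)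
    (hJ : K / G.ka D C J ^ d ≤ G.rt J k)
    (near : ∀ l, nearT (G.N J) (20 * g * G.sJ J k) P.z (P.x l))
    (far : ∀ l l', l ≠ l' → ∀ D, nearT (G.N J) D (P.x l) (P.x l') → 66 * G.sJ J (k + 1) ≤ D)
    (lt : ∀ l, 0 < P.u l ∧ ∃ p lm U U' s,
      G.Fk w d D C M (G.tk (P.x l) J) b J j ω p lm U U' R δ K m X ∧ P.Y l = G.fl D C J m X s ∧
      G.QA A k ^ 345 * ‖G.ys w d D C (G.tk (P.x l) J) b J j p (P.Y l) k‖ ≤ P.u l)
    (ce : ∀ l, ‖G.ex b J (k + 1) (G.jx J (P.x l) (P.Y l)) - P.a l‖ ≤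
      C₀ * (P.u l * (G.rt (k + 3) k : ℝ) ^ n)) (y : St) :
    G.Wok A n g C₀ b J k R (P.tr ((G.rt J j : ℤ) • y)) := by
  have h := a.ok
  refine ⟨fun l => (nearT_add_right _).2 (near l),
    fun l l' u E v => far l l' u E ((nearT_add_right _).1 v), fun l => ?_, fun l => ?_⟩
  · obtain ⟨u0, p, lm, U, U', s, F, e1, e2⟩ := lt l
    have r := h.trl_tk (J := J) (j := j) (P.x l) y
    rw [e1, ← F.T.ys_trl r _ hj a.lt.le] at e2
    have := (F.trl r).rX hj a.lt (fun i u => a.big i (a.le.trans u)) hn hJ u0 e2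
    rwa [tk_top, ← e1] at this
  · have := ce l
    rwa [← h.ex_jx a.lt _ ((G.rt (k + 1) j : ℤ) • y), ← mul_smul, ← Nat.cast_mul,
      ← h.rt_rt (hj.trans k.le_succ) a.lt] at this

section
variable (hj : j ≤ l) (hn : d + 9 ≤ n) (hJ : K / G.ka D C J ^ d ≤ G.rt J k) (W0 : ∀ i, 0 < W i)
  (gr : ∀ i, l ≤ i → i < k → W (i + 1) ≤ (G.L i : ℝ) ^ n * W i)
include hj hn hJ W0 gr

/-- slots with one letter, at all translates -/
theorem Aok.slw (a : G.Aok κ A n g C₀ b J k l R)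
    (F : G.Fk w d D C M (G.tk z J) b J j ω p lm U U' R δ K m X)
    (hW' : G.QA A k ^ 345 * ‖G.ys w d D C (G.tk z J) b J j p (G.fl D C J m X s) k‖ ≤ W k)
    (hW : ∀ i, l ≤ i → i ≤ k → G.QA A i ^ 345 *
      ‖G.ys w d D C (G.tk z J) b J j p (G.fl D C J m X s) i‖ ≤ W i * (G.rt (k + 3) k : ℝ) ^ n)
    (y : St) :
    G.SlW A n b J k l R (z + (G.rt J j : ℤ) • y) (G.fl D C J m X s) 0 W := by
  have r := a.ok.trl_tk (J := J) (j := j) z y
  have := (F.trl r).slw hj a.le a.lt (fun i u => a.big i (a.le.trans u)) hn hJ W0 gr (s := s)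
    (by rwa [F.T.ys_trl r _ (hj.trans a.le) a.lt.le]) fun i u u' => by
      rw [F.T.ys_trl r _ (hj.trans u) (u'.trans a.lt.le)]
      exact hW i u u'
  rwa [tk_top] at this

/-- slots with a word minus a letter, at all translates -/
theorem Aok.slw_im (a : G.Aok κ A n g C₀ b J k l R)
    (F : G.Fk w d D C M (G.tk P.z J) b J j ω p lm U U' R δ K m X) (hA : D + 7 ≤ A)
    (o : ∀ y, G.Wok A n g C₀ b J k R (P.tr ((G.rt J j : ℤ) • y))) (u0 : ∀ l, 0 < P.u l)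
    (e : G.Im w d D C (G.tk P.z J) b J j p m X (G.wH b J k P) k s)
    (hW : ∀ i, l ≤ i → i ≤ k → 3 * G.QA A k ^ 345 * (G.wR d D C k i (G.thW A n g k C₀ P) +
      ‖G.ys w d D C (G.tk P.z J) b J j p (G.fl D C J m X (s - s')) i‖) ≤ W i) (y : St) :
    G.SlW A n b J k l R (P.z + (G.rt J j : ℤ) • y) (-G.fl D C J m X s')
      (G.wH b J k (P.tr ((G.rt J j : ℤ) • y))) W ∧ G.QA A k ^ 330 * G.thW A n g k C₀ P ≤ W k := by
  have h := a.ok
  have r := h.trl_tk (J := J) (j := j) P.z y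
  have u := a.ka (o y) u0 hA
  have := (F.trl r).slw_im hj a.le a.lt (fun i u => a.big i (a.le.trans u)) hn hJ W0 gr u
    (F.im_tr (hj.trans a.le) a.lt.le e y) (s' := s') fun i u u' => by
      rw [F.T.ys_trl r _ (hj.trans u) (u'.trans a.lt.le)]
      exact hW i u u'
  rw [tk_top] at this
  refine ⟨this, le_trans ?_ (hW k a.le le_rfl)⟩
  have θ0 : 0 < G.thW A n g k C₀ P := u.1
  have q := h.QA1 A k
  have j1 : 1 ≤ G.jW D k := one_le_pow₀ (by linarith [h.L1 k])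
  simp only [wR, Pw, rt_top, Ico_self, prod_empty, Nat.cast_one, one_pow, div_one, one_mul]
  refine mul_le_mul (le_trans (pow_le_pow_right₀ (by linarith) (by norm_num))
    (le_mul_of_one_le_left (by positivity) (by norm_num))) (le_add_of_le_of_nonneg
      (le_mul_of_one_le_left θ0.le j1) (norm_nonneg _)) θ0.le (by positivity)

end

end Gl

end Pool.Agent.Lib.MP_7f377f_mp.RG.Q4.En
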