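import Pool.Agent.Lib.MP_7f377f_mp.G.JvZ
import Pool.Agent.Lib.MP_7f377f_mp.G.KzM2

/-! Arrays of slots with words and letters. -/

noncomputable section

open Pool.Agent.Lib.MP_7f377f_mp.Jet

set_option linter.unusedSectionVars false
variable [Pool.Agent.Lib.MP_7f377f_mp.GD]

namespace Pool.Agent.Lib.MP_7f377f_mp.RG.Q4.En

open Finset Function Sg Real Pos Mg Filter MeasureTheory
open L6 (Fz)
open Wy (tz E1 kC)
open scoped Classical

attribute [local irreducible] box lbox tb tau rc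

/-- a slot: a word, which may be absent, a letter at its base point and the weights -/
structure Tmz (κ : Type) where
  P : Ptw κ
  om : Prop
  Z : Lq
  W : ℕ → ℝ

variable {β κ : Type} [Fintype κ] [DecidableEq κ] [Inhabited κ]

/-- the observable of a slot -/
def Tmz.ob (T : Tmz κ) (U : Conf) : ℂ := -T.Z.1 (sh T.P.z U) + if T.om then T.P.ob U else 0

theorem Ptw.ob_tr (P : Ptw κ) (v : St) (U : Conf) : (P.tr v).ob U = P.ob (sh v U) := by
  simp only [Ptw.ob, Ptw.tr, sh_sh, add_comm v]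

namespace Gl

/-- the slot is admissible down to the level `l` at all the sites of level `j` -/
structure Tok (G : Gl) (A n g : ℕ) (C₀ b : ℝ) (J k l j R : ℕ) (T : Tmz κ) : Prop where
  u : ∀ l, 0 < T.P.u l
  wok : T.om → G.QA A k ^ 330 * G.thW A n g k C₀ T.P ≤ T.W k ∧
    ∀ y, G.Wok A n g C₀ b J k R (T.P.tr ((G.rt J j : ℤ) • y))
  sl : ∀ y, G.SlW A n b J k l R (T.P.z + (G.rt J j : ℤ) • y) T.Z
    (if T.om then G.wH b J k (T.P.tr ((G.rt J j : ℤ) • y)) else 0) T.W

variable {G : Gl} {b C₀ K : ℝ} {A n g J j k R m u : ℕ} {O T : β → Fz → ℝ} {S : Set β}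
  {w κ' : β → ℝ}

/-- arrays of admissible slots -/
theorem Aok.ag (a : G.Aok κ A n g C₀ b J k j R) (hg : (20 * g + 21) * G.sJ J k ≤ 6 * G.sJ J j)
    {T : β → Tmz κ} (ok : ∀ c ∈ S, G.Tok A n g C₀ b J k j j R (T c) ∧
      (T c).P.z ∈ box (G.rt J j) ∧ Continuous (O c) ∧ (∀ U, (T c).ob U = O c U) ∧
      (T c).W j * (G.rt (k + 3) k : ℝ) ^ n ≤ w c) :
    G.Ag b J j O S w := fun ι _ _ y σ hσ sep => by
  have h := a.ok
  have : NeZero (G.N J) := ⟨(h.N_odd J).pos.ne'⟩
  have hj := a.le.trans a.lt.le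
  have r0 : 0 < G.rt J j := pow_pos three_pos _
  have L := h.L_big j
  have s1 : G.rt J j ≤ G.sJ J j := Nat.le_mul_of_pos_left _ (pow_pos (by omega) _)
  have s2 := Nat.mul_le_mul_right (G.sJ J j) L
  have o := fun q => (ok _ (hσ q)).1
  have wk : ∀ q ∈ univ.filter fun q => (T (σ q)).om, _ := fun q hq => (o q).wok (mem_filter.1 hq).2
  obtain ⟨Y, r1, -, -, H⟩ := a.arr (Om := univ.filter fun q => (T (σ q)).om)
    (Q := fun q => (T (σ q)).P.tr ((G.rt J j : ℤ) • y q)) (Zs := fun q => (T (σ q)).Z)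
    (Ws := fun q => (T (σ q)).W) (Δ := 22 * (G.L j * G.sJ J j)) (t := j) (fun q => (o q).u)
    (fun q hq => ⟨(wk q hq).2 _, (wk q hq).1⟩)
    (fun q => by simp only [mem_filter, mem_univ, true_and]; exact (o q).sl (y q))
    (fun q q' ne E e => by
      by_contra c
      obtain ⟨v, hv⟩ := nearT_iff.1 e
      refine sep q q' ne (nearT_iff.2 ⟨v, fun i => ?_⟩)
      have a1 := hv i
      have a2 := mem_box.1 (ok _ (hσ q)).2.1 i
      have a3 := mem_box.1 (ok _ (hσ q')).2.1 i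
      have a4 : (E : ℤ) + 2 * G.rt J j ≤ G.rt J j * G.dZ j := by
        have : G.rt J j * G.dZ j = 30 * (G.L j * G.sJ J j) := by rw [dZ, sJ]; ring
        exact_mod_cast (show E + 2 * G.rt J j ≤ G.rt J j * G.dZ j by omega)
      have r1 : (0 : ℤ) < G.rt J j := by exact_mod_cast r0
      simp only [Ptw.tr, Pi.add_apply, Pi.smul_apply, smul_eq_mul, ← h.rt_N hj] at a1
      push_cast at a1
      exact ⟨le_of_mul_le_mul_left (by linarith) r1, le_of_mul_le_mul_left (by linarith) r1⟩)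
    a.le le_rfl (by have := h.LsJ_anti a.le a.lt.le; omega)
  obtain ⟨c1, -, c3, c4, c5, -, c7⟩ := H j a.le le_rfl
  refine ⟨_, Y j, r1, _, fun q => ⟨gi_Y (fun ω hω l => gi_xO
    (((wk ω hω).2 (y ω)).rx l).1.choose_spec.choose_spec.1) (fun q => gi_xO
    ((o q).sl (y q)).up.1.choose_spec.choose_spec.1) 1 q, (ok _ (hσ q)).2.2.1.comp
    ((Wy.cont_tz _).comp Wy.cont_lf), fun U hU => ?_⟩, c1.mono c1.fi.pos (fun _ => le_rfl)
    (h.QA_inv A j 329), c3, c4, c7, fun q => ⟨?_, ?_⟩⟩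
  · rw [h.ptW_Y q hU, ← (ok _ (hσ q)).2.2.2.1, show tz ((G.rt J j : ℤ) • y q) (L6.lf (Fi.rs _ U)) =
      sh ((G.rt J j : ℤ) • y q) U from funext fun e => (congrFun ((Fi.lf_rs U).trans
        (Sh.pc_per hU)) _).trans (by simp only [sh, add_comm])]
    simp only [Tmz.ob, Ptw.ob_tr, mem_filter, mem_univ, true_and, sh_sh]
    simp only [Ptw.tr, add_comm]
  · rw [c5]
    exact h.card_zs' Subset.rfl hj hg
  · have := ((o q).sl 0).pos j
    have : (0 : ℝ) < G.rt (k + 3) k := Nat.cast_pos.2 (pow_pos three_pos _)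
    rw [rZ, rt_top, Nat.cast_one, one_pow, mul_one, le_inv_mul_iff₀ (by positivity), mul_one]
    exact (ok _ (hσ q)).2.2.2.2

/-- the mixed bound up to the constants -/
theorem Ok.e0_az (h : G.Ok) [NeZero (G.N J)] (t : G.Tu b J) (hj : j ≤ J) (hn : G.N j = m * u)
    (hu : G.dZ j + 1 < u) (H : G.Az b J j T S w κ')
    (c : ∀ c ∈ S, Continuous (T c) ∧ DependsOn (T c) {l | ∀ i, |l.1 i| ≤ (4 * G.rt J j : ℕ)}) :
    Wy.E0 (Fi.tr haar) b (G.N J) (G.rt J j * u) (fun c U => T c U - κ' c) S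
      (fun c => (1 + exp (G.Q j)) * w c) (G.vlZ u j) := by
  have : (Fi.tr haar).IsHaarMeasure := (inferInstance : haar.IsHaarMeasure)
  obtain ⟨α, _, O, B, v, h1, h2, h3⟩ := H
  choose! s t' e1 e2 e3 using h3
  have r0 : 0 < G.rt J j := pow_pos three_pos _
  have k1 : 15 ≤ u := by
    have : 0 < G.L j ^ (G.K0 + 1) := pow_pos (by linarith [h.L_big j]) _
    unfold dZ at hu; omega
  have q0 : 0 < 1 + exp (G.Q j) := by positivity
  have c1 := fun d hd => (h2 d hd).1.sub (continuous_const (y := G.al b J j fun V => O d (L6.lf V)))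
  refine ((h.e1_of t hj hn hu (fun d hd => (h2 d hd).1) h1).e0.comb c1
    (fun d hd => mul_nonneg q0.le (h2 d hd).2.2) (O' := fun c U => ∑ d ∈ s c, t' c d *
      (O d U - G.al b J j fun V => O d (L6.lf V))) fun c hc => ⟨s c, t' c, 0, e1 c hc, ?_,
        fun U => (zero_add _).symm⟩).null (R := 4 * G.rt J j) (R' := 4 * G.rt J j) (by nlinarith)
    (fun c hc => ⟨continuous_finsetSum _ fun d hd => continuous_const.mul (c1 d (e1 c hc hd)),
      fun U V e => sum_congr rfl fun d hd => by rw [(h2 d (e1 c hc hd)).2.1 e]⟩)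
    (fun d hd => ⟨(c d hd).1.sub continuous_const, fun U V e => by simp only [(c d hd).2 e]⟩)
    fun c hc => by simpa only [sub_sub] using e3 c hc
  simp only [abs_zero, zero_add, mul_left_comm _ (1 + exp (G.Q j)), ← mul_sum]
  exact mul_le_mul_of_nonneg_left (e2 c hc) q0.le

end Gl

end Pool.Agent.Lib.MP_7f377f_mp.RG.Q4.En
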