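import Pool.Agent.Lib.MP_7f377f_mp.G.ObB

/-! Reference moments which depend on the mirror image. -/

noncomputable section

namespace Pool.Agent.Lib.MP_7f377f_mp.Kz
variable [GD]
set_option linter.unusedSectionVars false

open MeasureTheory Weak Filter Topology Real Jet Finset YM7 Pur Ob Function

variable {n lam : ℕ} [NeZero n] {κ : Type} [Fintype κ] [DecidableEq κ]

/-- the recursion for the constant -/
def kq (k : ℕ) (c : ℝ) : ℕ → ℝ
  | 0 => 1
  | j + 1 => 3 * (2 ^ k * kq k c j ^ 2) + 2 * (4 ^ 15 * c)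

/-- the constant -/
def kR (k : ℕ) (C : ℝ) : ℝ := 2 ^ k * kq k (exp (256 * C)) k

variable [MeasurableSpace SU2] [BorelSpace SU2] {h : Measure SU2} [h.IsHaarMeasure]
  [IsProbabilityMeasure h] {b w C M : ℝ} {m : ℕ} [NeZero m]

/-- the mirror images of a family of local observables -/
structure Mr (ρ : Fin 4 → Cfg n → Cfg n) (D : Link 4 n → Prop)
    (O : (Fin 4 → Bool) → κ → Cfg n → ℝ) : Prop where
  bm : ∀ e i, BM (O e i)
  rf : ∀ e k i U, O (update e k (!e k)) i U = O e i (ρ k U)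
  dep : ∀ e i U V, (∀ l, D l → U l = V l) → O e i U = O e i V

/-- observables of the cell at the origin -/
abbrev Mir (lam : ℕ) (O : (Fin 4 → Bool) → κ → Cfg n → ℝ) : Prop :=
  Mr (rcl lam) (fun l => ∀ k, half lam k l) O

/-- observables centred at the origin -/
abbrev Mic (R : ℕ) (O : (Fin 4 → Bool) → κ → Cfg n → ℝ) : Prop :=
  Mr Weak.refl (fun l => ∀ k, ∃ z : ℤ, |z| ≤ R ∧ l.1 k = (z : ZMod n)) O

variable (h b m) in
/-- factorisation over the cells -/
def GenM (lam : ℕ) (O : (Fin 4 → Bool) → κ → Cfg n → ℝ) (μ : (Fin 4 → Bool) → Finset κ → ℝ)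
    (w M : ℝ) : Prop := ∀ e : Site 4 m → Fin 4 → Bool, ∃ g : (Site 4 m × κ → ℂ) → ℂ, SH (fun _ => w⁻¹) M g ∧
  ∀ B, mo (ex h b n) (arr lam fun c => O (e c)) B =
    jd B fun s => g s * ∏ c, ma univ (fun T => (μ (e c) T : ℂ)) fun i => s (c, i)

/-- the chessboard estimate with the geometric mean of the weights -/
theorem gm0 (hb : 0 ≤ b) (hm : Odd m) (hn : n = m * lam) (hC : 0 ≤ C) {H : Type} [Fintype H]
    {r : Fin 4 → H → H} (rr : ∀ k, Involutive (r k)) {A : H → Cfg n → ℝ}
    (a1 : ∀ e, BM (A e)) (a2 : ∀ e k U, A (r k e) U = A e (rcl lam k U))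
    (a3 : ∀ k, ∃ τ, (τ = id ∨ τ = Weak.refl k) ∧ ∀ e (x : Site 4 m), (x k).val < m / 2 →
      Dep (n / 2) k fun U => A e (shift (corner lam x) (τ U))) {om : H → ℝ}
    (o0 : ∀ e, 0 ≤ om e) (hM : ∀ (s : Finset (Site 4 m)) (σ : Site 4 m → H),
      |∫ U, ∏ x ∈ s, A (σ x) (shift (corner lam x) U) ∂wilson h b n| ≤
        exp (C * m ^ 4) * ∏ x ∈ s, om (σ x)) :
    ∏ e, |∫ U, A e U ∂wilson h b n| ≤ exp (16 * C) ^ Fintype.card H * ∏ e, om e := by
  classical
  let _ := YM5.quatHS
  obtain ⟨q, hq⟩ := hm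
  let P : (Fin 4 → ℕ) → Prop := fun N => ∃ (s : Finset (Site 4 m)) (σ : Site 4 m → Equiv.Perm H),
    (∀ x ∈ s, ∀ k, (x k).val < N k) ∧ s.card = ∏ k, N k ∧ ∀ e, |∫ U, A e U ∂wilson h b n| ^ s.card ≤
      |∫ U, ∏ x ∈ s, A (σ x e) (shift (corner lam x) U) ∂wilson h b n|
  have step : ∀ N k, N k ≤ q → P N → P (update N k (2 * N k)) := by
    rintro N k hk ⟨s, σ, s1, s2, s3⟩
    obtain ⟨y, hy⟩ : ∃ y : Site 4 m, y = Pi.single k (N k : ZMod m) := ⟨_, rfl⟩
    have y1 : (y k).val = N k := by rw [hy, Pi.single_eq_same, ZMod.val_cast_of_lt (by omega)]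
    have y2 : ∀ l, l ≠ k → y l = 0 := fun l e => by rw [hy, Pi.single_eq_of_ne e]
    have v1 : ∀ x ∈ s, ((x + y) k).val = (x k).val + N k := fun x hx => by
      have := s1 x hx k
      rw [Pi.add_apply, ZMod.val_add_of_lt (by omega), y1]
    have v2 : ∀ x ∈ s, ((rc k x + y) k).val = N k - 1 - (x k).val := fun x hx => by
      have := s1 x hx k
      rw [Pi.add_apply, ZMod.val_add_of_le (by rw [rc_val]; omega), y1, rc_val]
      omega
    have pr : ∀ {R : Type} [CommMonoid R] (f : Site 4 m → R), ∏ x ∈ s.image (· + y) ∪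
        s.image (rc k · + y), f x = (∏ x ∈ s, f (x + y)) * ∏ x ∈ s, f (rc k x + y) := fun f => by
      rw [prod_union, prod_image (add_left_injective y).injOn, prod_image fun x _ x' _ e =>
        (Involutive.injective (rc_rc k)) (add_left_injective y e)]
      simp only [disjoint_left, mem_image]
      rintro _ ⟨x, hx, rfl⟩ ⟨x', hx', e⟩
      have := v2 x' hx'
      have := s1 x' hx' k
      rw [e, v1 x hx] at *
      omega
    have cd : (s.image (· + y) ∪ s.image (rc k · + y)).card = 2 * s.card := by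
      have := pr fun _ => 2
      simp only [prod_const, ← pow_add, ← two_mul] at this
      exact Nat.pow_right_injective le_rfl this
    refine ⟨s.image (· + y) ∪ s.image (rc k · + y), fun x => if N k ≤ (x k).val then σ (x - y) else
      (σ (rc k (x - y))).trans (rr k).toPerm, fun x hx l => ?_, ?_, fun e => ?_⟩
    · by_cases u : l = k
      · rw [u, update_self]
        simp only [mem_union, mem_image] at hx
        obtain ⟨x, hx, rfl⟩ | ⟨x, hx, rfl⟩ := hx <;> have := s1 x hx k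
        · rw [v1 x hx]; omega
        · rw [v2 x hx]; omega
      · simp only [mem_union, mem_image] at hx
        obtain ⟨x, hx, rfl⟩ | ⟨x, hx, rfl⟩ := hx <;>
          simpa [u, y2 l u, rc_ne u] using s1 x hx l
    · rw [cd, s2, prod_update_of_mem (mem_univ k), mul_assoc, sdiff_singleton_eq_erase,
        mul_prod_erase _ _ (mem_univ k)]
    · have c1 : BM fun U => ∏ x ∈ s, A (σ x e) (shift (corner lam x) U) :=
        .prod _ fun x => (a1 _).comp (continuous_shift _).measurable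
      have c2 := c1.comp (continuous_refl k).measurable
      have : (∫ U, ∏ x ∈ s, A (σ x e) (shift (corner lam x) U) ∂wilson h b n) ^ 2 ≤
          ∫ U, (∏ x ∈ s, A (σ x e) (shift (corner lam x) U)) *
            ∏ x ∈ s, A (σ x e) (shift (corner lam x) (Weak.refl k U)) ∂wilson h b n := by
        obtain ⟨τ, rfl | rfl, u⟩ := a3 k
        on_goal 2 =>
          rw [← c1.mp (mp_refl' h b k)]
          replace c1 := c2
        all_goals
          have := rp_ineq_meas _ h YM5.rho_cont (b := b / 2) (by linarith) k c1 (.const 1)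
            (fun U V v => prod_congr rfl fun x hx => u _ x (by have := s1 x hx k; omega) U V v)
            fun _ _ _ => rfl
          simp only [← wilson_nu, mul_one, integral_const, probReal_univ, one_smul, refl_refl] at this
          simpa only [mul_comm] using this
      · replace this := this.trans_eq ((c1.mul c2).mp
          (mp_shift' h b (corner lam y))).symm
        rw [cd, pow_mul']
        refine (pow_le_pow_left₀ (by positivity) (s3 e) 2).trans ((sq_abs _).trans_le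
          (this.trans ((le_abs_self _).trans_eq (congrArg abs (integral_congr_ae
            (.of_forall fun U => ?_))))))
        simp only [pr]
        congr 1 <;> refine prod_congr rfl fun x hx => ?_ <;> have := s1 x hx k
        · rw [if_pos (by rw [v1 x hx]; omega), add_sub_cancel_right, shift_shift, corner_add hn]
        · rw [if_neg (by rw [v2 x hx]; omega), add_sub_cancel_right, rc_rc, Equiv.trans_apply,
            Involutive.coe_toPerm, a2, rcl, corner_add hn, ← shift_shift, shift_shift (Pi.single _ _),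
            corner_rc hn, shift_refl]
  have st2 : ∀ N k, N k = 1 → P N → ∀ j ≤ Nat.clog 2 (q + 1), P (update N k (2 ^ j)) :=
    fun N k e hN j hj => by
      induction j with
      | zero => rwa [pow_zero, ← e, update_eq_self]
      | succ j ih =>
        have := step _ k (by simpa using Nat.le_of_lt_succ (Nat.pow_lt_of_lt_clog hj)) (ih (by omega))
        rwa [update_idem, update_self, ← pow_succ'] at this
  have st3 : ∀ K : Finset (Fin 4), P (K.piecewise (fun _ => 2 ^ Nat.clog 2 (q + 1)) 1) := fun K => by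
    induction K using Finset.induction_on with
    | empty =>
      refine ⟨{0}, 1, by simp, by simp, fun e => le_of_eq ?_⟩
      have : ∀ U : Cfg n, shift (corner lam (0 : Site 4 m)) U = U := fun U => by
        funext l
        exact congrArg U (Prod.ext (funext fun k => by simp [corner]) rfl)
      simp [this]
    | insert k K hk ih =>
      rw [piecewise_insert]
      exact st2 _ k (piecewise_eq_of_notMem _ _ _ hk) ih _ le_rfl
  obtain ⟨s, σ, -, s2, s3⟩ := st3 univ
  have e1 : (m : ℝ) ≤ 2 * 2 ^ Nat.clog 2 (q + 1) := by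
    have := Nat.le_pow_clog one_lt_two (q + 1)
    exact_mod_cast (by omega : m ≤ 2 * 2 ^ Nat.clog 2 (q + 1))
  rw [piecewise_univ, Fin.prod_const] at s2
  refine le_of_pow_le_pow_left₀ (n := s.card) (by rw [s2]; positivity)
    (mul_nonneg (by positivity) (prod_nonneg fun e _ => o0 e)) ?_
  rw [← prod_pow, mul_pow, pow_right_comm]
  refine (prod_le_prod (fun _ _ => by positivity) fun e _ => (s3 e).trans (hM s _)).trans ?_
  rw [prod_mul_distrib, Finset.prod_comm, prod_congr rfl fun x _ => Equiv.prod_comp (σ x) om, prod_const,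
    prod_const, card_univ, ← exp_nat_mul (16 * C), s2]
  have := prod_nonneg fun e (_ : e ∈ univ) => o0 e
  refine mul_le_mul_of_nonneg_right (pow_le_pow_left₀ (exp_pos _).le (exp_le_exp.2 ?_) _)
    (by positivity)
  have := mul_le_mul_of_nonneg_left (pow_le_pow_left₀ (by positivity) e1 4) hC
  push_cast
  linarith

theorem gm (hb : 0 ≤ b) (hm : Odd m) (hn : n = m * lam) (hC : 0 ≤ C) {H : Type} [Fintype H]
    {r : Fin 4 → H → H} (rr : ∀ k, Involutive (r k)) {A : H → Cfg n → ℝ}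
    (a1 : ∀ e, BM (A e)) (a2 : ∀ e k U, A (r k e) U = A e (rcl lam k U))
    (a3 : ∀ e U V, (∀ l, (∀ k, half lam k l) → U l = V l) → A e U = A e V) {om : H → ℝ}
    (o0 : ∀ e, 0 ≤ om e) (hM : ∀ (s : Finset (Site 4 m)) (σ : Site 4 m → H),
      |∫ U, ∏ x ∈ s, A (σ x) (shift (corner lam x) U) ∂wilson h b n| ≤
        exp (C * m ^ 4) * ∏ x ∈ s, om (σ x)) :
    ∏ e, |∫ U, A e U ∂wilson h b n| ≤ exp (16 * C) ^ Fintype.card H * ∏ e, om e := by
  refine gm0 hb hm hn hC rr a1 a2 (fun k => ⟨id, .inl rfl, fun e x hx U V u =>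
    a3 _ _ _ fun l hl => u _ ?_⟩) o0 hM
  obtain ⟨h1, h2⟩ := hl k
  have e1 : lam * ((x k).val + 1) ≤ lam * (m / 2) := Nat.mul_le_mul_left _ hx
  have e2 : 2 * (lam * (m / 2)) ≤ n := by
    rw [hn, mul_left_comm, mul_comm m]; exact Nat.mul_le_mul_left _ (Nat.mul_div_le m 2)
  have e3 := NeZero.pos n
  rw [mul_add_one] at e1
  have e4 : ((l.1 + corner lam x : Site 4 n) k).val = (l.1 k).val + lam * (x k).val := by
    rw [Pi.add_apply, corner, ← ZMod.natCast_zmod_val (l.1 k), ← Nat.cast_add,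
      ZMod.val_cast_of_lt (by omega), ZMod.natCast_zmod_val]
  exact ⟨by simp only [e4]; omega, fun h => by have := h2 h; simp only [e4]; omega⟩

/-- the same for letters at the corners -/
theorem gmc (hb : 0 ≤ b) (hm : Odd m) (hn : n = m * lam) (hC : 0 ≤ C) {R : ℕ} (hR : 2 * R ≤ lam)
    {H : Type} [Fintype H] {r : Fin 4 → H → H} (rr : ∀ k, Involutive (r k)) {A : H → Cfg n → ℝ}
    (a1 : ∀ e, BM (A e)) (a2 : ∀ e k U, A (r k e) U = A e (Weak.refl k U))
    (a3 : ∀ e U V, (∀ l, (∀ k, ∃ z : ℤ, |z| ≤ R ∧ l.1 k = (z : ZMod n)) → U l = V l) → A e U = A e V)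
    {om : H → ℝ} (o0 : ∀ e, 0 ≤ om e) (hM : ∀ (s : Finset (Site 4 m)) (σ : Site 4 m → H),
      |∫ U, ∏ x ∈ s, A (σ x) (shift (corner lam x) U) ∂wilson h b n| ≤
        exp (C * m ^ 4) * ∏ x ∈ s, om (σ x)) :
    ∏ e, |∫ U, A e U ∂wilson h b n| ≤ exp (16 * C) ^ Fintype.card H * ∏ e, om e := by
  obtain ⟨q, hq⟩ := id hm
  obtain ⟨v, hv⟩ : ∃ v : Site 4 n, v = fun _ => (lam * (q + 1) : ZMod n) := ⟨_, rfl⟩
  have n0 : ((2 * q + 1) * lam : ZMod n) = 0 := by
    exact_mod_cast (congrArg Nat.cast (hq ▸ hn)).symm.trans (ZMod.natCast_self n)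
  have := gm0 (h := h) hb hm hn hC rr (A := fun e U => A e (shift v U))
    (fun e => (a1 e).comp (continuous_shift _).measurable) (fun e k U => ?_)
    (fun k => ⟨_, .inr rfl, fun e x hx U V u => a3 _ _ _ fun l hl => ?_⟩) o0 fun s σ => ?_
  · rwa [funext fun e => congrArg abs ((a1 e).mp (mp_shift' h b v))] at this
  · rw [a2, rcl, shift_refl, shift_shift]
    congr 3
    funext l
    by_cases u : l = k <;> simp [Weak.rf, u, hv]
    linear_combination n0
  · obtain ⟨z, z1, z2⟩ := hl k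
    have e1 : lam * ((x k).val + 1) ≤ lam * q := Nat.mul_le_mul_left _ (by omega)
    have e2 : n = 2 * (lam * q) + lam := by rw [hn, hq]; ring
    have e3 := Nat.pos_of_mul_pos_left (hn ▸ NeZero.pos n)
    have e4 := abs_le.1 z1
    rw [mul_add_one] at e1
    have e5 : ∀ t : ℕ, t ≤ 1 → ((-(l.1 + v + corner lam x : Site 4 n) k - t).val : ℤ) =
        (lam * q : ℕ) - (lam * (x k).val : ℕ) - z - t := fun t ht => by
      rw [← Int.emod_eq_of_lt (a := _ - _ - z - t) (b := n) (by omega) (by omega), ← ZMod.val_intCast]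
      congr 2
      simp only [Pi.add_apply, corner, z2, hv]
      push_cast
      linear_combination -n0
    have e6 := e5 0 zero_le_one
    have e7 := e5 1 le_rfl
    simp only [shift, Weak.refl]
    rw [u]
    generalize lam * (x k).val = y at *
    by_cases w : l.2 = k <;> simp only [half, rl, w, rc, Weak.rf, if_true, if_false, Pi.sub_apply,
      Pi.single_eq_same, Nat.cast_zero, Nat.cast_one, sub_zero, false_imp_iff,
      and_true] at e6 e7 ⊢ <;> omega
  · simp only [shift_shift, add_comm v]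
    simp only [← shift_shift]
    rw [(BM.prod s fun x => (a1 (σ x)).comp (continuous_shift _).measurable).mp (mp_shift' h b v)]
    exact hM s σ

theorem flip_const {α : Type} {f : (Fin 4 → Bool) → α} (hf : ∀ e k, f (update e k (!e k)) = f e)
    (e e') : f e' = f e := by
  have : ∀ K : Finset (Fin 4), f (K.piecewise e' e) = f e := fun K => by
    induction K using Finset.induction_on with
    | empty => rfl
    | insert k K hk ih =>
      rw [piecewise_insert, ← ih]
      rcases Bool.eq_or_eq_not (e' k) (K.piecewise e' e k) with u | u <;> rw [u]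
      exacts [by rw [update_eq_self], hf _ _]
  simpa using this univ

theorem int_rcl {F : Cfg n → ℝ} (hF : BM F) (k) :
    ∫ U, F (rcl lam k U) ∂wilson h b n = ∫ U, F U ∂wilson h b n :=
  hF.mp ((mp_refl' h b k).comp (mp_shift' h b _))

variable {ρ : Fin 4 → Cfg n → Cfg n} {D : Link 4 n → Prop}

variable (ρ D) in
/-- the two geometries -/
def Geo (lam : ℕ) : Prop := (ρ = rcl lam ∧ D = fun l => ∀ k, half lam k l) ∨
  ρ = Weak.refl ∧ ∃ R, 2 * R ≤ lam ∧ D = fun l => ∀ k, ∃ z : ℤ, |z| ≤ R ∧ l.1 k = (z : ZMod n)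

theorem Geo.int (g : Geo ρ D lam) {A : (Fin 4 → Bool) → Cfg n → ℝ}
    (hA : Mr ρ D fun e (_ : Unit) => A e) (e e') :
    ∫ U, A e' U ∂wilson h b n = ∫ U, A e U ∂wilson h b n :=
  flip_const (f := fun e => ∫ U, A e U ∂wilson h b n) (fun e k => by
    simp only [hA.rf e k ()]
    obtain ⟨rfl, -⟩ | ⟨rfl, -⟩ := g
    exacts [int_rcl (hA.bm e ()) k, (hA.bm e ()).mp (mp_refl' h b k)]) e e'

/-- the same for the sixteen mirror images -/
theorem Geo.gm16 (g : Geo ρ D lam) (hb : 0 ≤ b) (hm : Odd m) (hn : n = m * lam) (hC : 0 ≤ C)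
    {A : (Fin 4 → Bool) → Cfg n → ℝ} (hA : Mr ρ D fun e (_ : Unit) => A e)
    {om : (Fin 4 → Bool) → ℝ} (o0 : ∀ e, 0 ≤ om e)
    (hM : ∀ (s : Finset (Site 4 m)) (σ : Site 4 m → Fin 4 → Bool),
      |∫ U, ∏ x ∈ s, A (σ x) (shift (corner lam x) U) ∂wilson h b n| ≤
        exp (C * m ^ 4) * ∏ x ∈ s, om (σ x)) (e) :
    |∫ U, A e U ∂wilson h b n| ^ 16 ≤ exp (256 * C) * ∏ e, om e := by
  have : ∏ e, |∫ U, A e U ∂wilson h b n| ≤
      exp (16 * C) ^ Fintype.card (Fin 4 → Bool) * ∏ e, om e := by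
    obtain ⟨rfl, rfl⟩ | ⟨rfl, R, u, rfl⟩ := g
    on_goal 1 => refine gm hb hm hn hC (r := fun k e => update e k (!e k)) ?_ ?_ ?_ ?_ o0 hM
    on_goal 5 => refine gmc hb hm hn hC u (r := fun k e => update e k (!e k)) ?_ ?_ ?_ ?_ o0 hM
    all_goals first
      | exact fun e => hA.bm e () | exact fun e k => hA.rf e k () | exact fun e => hA.dep e ()
      | exact fun k e => by simp
  rwa [prod_congr rfl fun e' _ => congrArg abs (g.int hA e e'), prod_const, card_univ,
    show Fintype.card (Fin 4 → Bool) = 16 by simp, ← exp_nat_mul,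
    show ((16 : ℕ) : ℝ) * (16 * C) = 256 * C by push_cast; ring] at this

theorem kq_le (k : ℕ) {c : ℝ} (c0 : 0 ≤ c) (j : ℕ) : 1 ≤ kq k c j ∧ kq k c j ≤ 2 ^ k * kq k c j ^ 2 := by
  have e : ∀ x : ℝ, 1 ≤ x → x ≤ 2 ^ k * x ^ 2 := fun x u => (le_self_pow₀ u two_ne_zero).trans
    (le_mul_of_one_le_left (by positivity) (one_le_pow₀ one_le_two))
  refine (fun u => ⟨u, e _ u⟩) ?_
  induction j with
  | zero => exact le_rfl
  | succ j ih =>
    have := e _ ih
    rw [kq]
    nlinarith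

/-- the bootstrap -/
theorem boot {H : Type} [Fintype H] (hH : Fintype.card H = 16) {E : H → Finset κ → ℝ}
    {δ : H → H → Finset κ → ℝ} {c : ℝ} (w0 : 0 < w) (c0 : 0 ≤ c) (E0 : ∀ e, E e ∅ = 1)
    (δ0 : ∀ e e', δ e e' ∅ = 1) (δ1 : ∀ e T, T.Nonempty → δ e e T = 0)
    (cv : ∀ e e' T, E e' T = ∑ S ∈ T.powerset, E e S * δ e e' (T \ S))
    (hg : ∀ e' T, |E e' T| ^ 16 ≤ c * ∏ e, ∑ S ∈ T.powerset, |δ e e' (T \ S)| * w ^ S.card)
    (j : ℕ) : ∀ T, T.card ≤ j → (∀ e, |E e T| ≤ kq (Fintype.card κ) c j * w ^ T.card) ∧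
      ∀ e e', |δ e e' T| ≤ kq (Fintype.card κ) c j * w ^ T.card := by
  classical
  induction j with
  | zero => simp [E0, δ0, kq]
  | succ j ih =>
    intro T hT
    obtain ⟨k1, k2⟩ := kq_le (Fintype.card κ) c0 j
    rw [kq]
    generalize kq (Fintype.card κ) c j = X at *
    have W0 : 0 < w ^ T.card := by positivity
    have c1 : 0 ≤ 4 ^ 15 * c := by positivity
    generalize ha : 2 ^ Fintype.card κ * X ^ 2 = a at *
    rcases hT.eq_or_lt with hT | hT
    swap
    · have := ih T (by omega)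
      have u : X * w ^ T.card ≤ (3 * a + 2 * (4 ^ 15 * c)) * w ^ T.card := by gcongr; nlinarith
      exact ⟨fun e => (this.1 e).trans u, fun e e' => (this.2 e e').trans u⟩
    have T0 : T.Nonempty := card_pos.1 (by omega)
    have sm : ∀ {s : Finset (Finset κ)} {u : Finset κ → ℝ}, (∀ S ∈ s, u S ≤ X ^ 2 * w ^ T.card) →
        ∑ S ∈ s, u S ≤ a * w ^ T.card := fun {s u} e => (sum_le_card_nsmul _ _ _ e).trans (by
      rw [nsmul_eq_mul, ← ha, mul_assoc]
      gcongr
      exact_mod_cast (card_le_univ s).trans_eq (by simp))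
    have cd : ∀ S ∈ T.powerset.erase ∅, (T \ S).card ≤ j ∧
        w ^ T.card = w ^ S.card * w ^ (T \ S).card := fun S hS => by
      have e1 := card_sdiff_add_card_eq_card (mem_powerset.1 (mem_of_mem_erase hS))
      have e2 := card_pos.2 (nonempty_iff_ne_empty.2 (ne_of_mem_erase hS))
      exact ⟨by omega, by rw [← pow_add, add_comm, e1]⟩
    obtain ⟨e₀, -, h0⟩ := exists_max_image univ (fun e => |E e T|) (card_pos.1 (by simp [hH]))
    obtain ⟨x, hx⟩ : ∃ x, |E e₀ T| = x * w ^ T.card := ⟨_, (div_mul_cancel₀ _ W0.ne').symm⟩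
    have x0 : 0 ≤ x := nonneg_of_mul_nonneg_left (hx ▸ abs_nonneg _) W0
    have d1 : ∀ e e', |δ e e' T| ≤ (2 * x + a) * w ^ T.card := fun e e' => by
      have := cv e e' T
      rw [← add_sum_erase _ _ (empty_mem_powerset T), ← add_sum_erase _ _ (mem_erase.2
        ⟨T0.ne_empty, mem_powerset_self T⟩), E0, sdiff_self, bot_eq_empty, δ0, sdiff_empty] at this
      have u := (abs_sum_le_sum_abs (fun S => E e S * δ e e' (T \ S)) _).trans
        (sm (s := (T.powerset.erase ∅).erase T) fun S hS => by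
          obtain ⟨e1, e2⟩ := cd S (mem_of_mem_erase hS)
          have e3 := card_lt_card (Finset.ssubset_iff_subset_ne.2 ⟨mem_powerset.1 (mem_of_mem_erase
            (mem_of_mem_erase hS)), ne_of_mem_erase hS⟩)
          rw [abs_mul, e2, sq, mul_mul_mul_comm]
          exact mul_le_mul ((ih S (by omega)).1 e) ((ih _ e1).2 e e') (abs_nonneg _) (by positivity))
      have u1 := abs_le.1 ((h0 e (mem_univ _)).trans_eq hx)
      have u2 := abs_le.1 ((h0 e' (mem_univ _)).trans_eq hx)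
      rw [abs_le] at u ⊢
      constructor <;> linarith [u.1, u.2, u1.1, u1.2, u2.1, u2.2]
    have d2 : x ^ 16 ≤ c * (2 * x + 2 * a) ^ 15 := by
      have := hg e₀ T
      rw [← mul_prod_erase _ _ (mem_univ e₀), sum_eq_single T (fun S hS u => by
        rw [δ1 _ _ (sdiff_nonempty.2 fun v => u (subset_antisymm (mem_powerset.1 hS) v)), abs_zero,
          zero_mul]) (by simp), sdiff_self, bot_eq_empty, δ0, abs_one, one_mul, hx] at this
      have u := prod_le_prod (s := univ.erase e₀) (g := fun _ => (2 * x + 2 * a) * w ^ T.card)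
        (f := fun e => ∑ S ∈ T.powerset, |δ e e₀ (T \ S)| * w ^ S.card)
        (fun _ _ => by positivity) fun e _ => by
          have := sm (s := T.powerset.erase ∅) (u := fun S => |δ e e₀ (T \ S)| * w ^ S.card)
            fun S hS => by
              rw [(cd S hS).2, mul_comm (w ^ _), ← mul_assoc]
              gcongr
              exact ((ih _ (cd S hS).1).2 e e₀).trans (by gcongr; nlinarith)
          rw [← add_sum_erase _ _ (empty_mem_powerset T), sdiff_empty, card_empty]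
          linarith [d1 e e₀]
      rw [prod_const, card_erase_of_mem (mem_univ _), card_univ, hH] at u
      refine le_of_mul_le_mul_right ((mul_pow _ _ _).symm.trans_le (this.trans ?_)) (pow_pos W0 16)
      refine (mul_le_mul_of_nonneg_left (mul_le_mul_of_nonneg_left u W0.le) c0).trans_eq ?_
      ring
    have d3 : x ≤ a + 4 ^ 15 * c := by
      by_contra! u
      have x1 : 0 < x := by nlinarith
      have : x * x ^ 15 ≤ 4 ^ 15 * c * x ^ 15 := by
        rw [← pow_succ', mul_right_comm, ← mul_pow, mul_comm]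
        refine d2.trans ?_
        gcongr <;> linarith
      linarith [le_of_mul_le_mul_right this (by positivity)]
    exact ⟨fun e => ((h0 e (mem_univ _)).trans_eq hx).trans (mul_le_mul_of_nonneg_right
      (by linarith) W0.le), fun e e' => (d1 e e').trans (mul_le_mul_of_nonneg_right
        (by linarith) W0.le)⟩

/-- the jets of the quotient of two reference functions -/
def qt (μ μ' : Finset κ → ℝ) (T : Finset κ) : ℝ :=
  (jd T fun s => ma univ (fun T => (μ T : ℂ)) s * (ma univ (fun T => (μ' T : ℂ)) s)⁻¹).re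

/-- the observables of a cell -/
def obm (μ : Finset κ → ℝ) (O : κ → Cfg n → ℝ) (T : Finset κ) (U : Cfg n) : ℝ :=
  ∑ S ∈ T.powerset, (∏ i ∈ S, O i U) * (jd (T \ S) fun s => (ma univ (fun T => (μ T : ℂ)) s)⁻¹).re

section
variable {μ μ' : Finset κ → ℝ} {O : κ → Cfg n → ℝ}

theorem bm_obm (cO : ∀ i, BM (O i)) (T : Finset κ) : BM (obm μ O T) := by
  unfold obm
  induction T.powerset using Finset.induction_on with
  | empty => simpa using BM.const 0
  | insert S s u ih => simpa only [sum_insert u] using ((BM.prod S cO).mul (.const _)).add ih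

theorem int_jd' (cO : ∀ i, BM (O i)) {r : κ → ℝ} {H : (κ → ℂ) → ℂ} (hH : SH r M H) (B : Finset κ) :
    ∫ U, jd B (fun s => Complex.exp (∑ i, s i * (O i U : ℝ)) * H s) ∂wilson h b n =
      jd B fun s => ma univ (mo (ex h b n) O) s * H s := by
  have e : ∀ U, jd B (fun s => Complex.exp (∑ i, s i * (O i U : ℝ)) * H s) =
      ∑ T ∈ B.powerset, (∏ i ∈ T, O i U : ℝ) * jd (B \ T) H := fun U =>
    (jd_mul (sh_lin hH.pos univ _).exp hH B).trans (sum_congr rfl fun T _ => by
      rw [jd_exp_lin _ (subset_univ T), Complex.ofReal_prod])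
  simp only [e]
  rw [integral_finsetSum _ fun T _ => (Integrable.ofReal ((BM.prod T cO).int _)).mul_const _]
  exact (sum_congr rfl fun T _ => by
    rw [integral_mul_const, integral_complex_ofReal, jd_ma _ (subset_univ T)]; rfl).trans
      (jd_mul (sh_ma hH.pos univ _) hH B).symm

variable (μ0 : μ ∅ = 1)
include μ0

theorem ev_mu : ∀ᶠ r in 𝓝[>] (0 : ℝ), SH (fun _ => r) 2 (fun s => (ma univ (fun T => (μ T : ℂ)) s)⁻¹) ∧
    ∀ s ∈ Pd fun _ => r, ma univ (fun T => (μ T : ℂ)) s ≠ 0 := ev_inv (by simp [μ0])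

theorem obm0 (U : Cfg n) : obm μ O ∅ U = 1 := by simp [obm, ma_zero, μ0]

theorem obm_eq (T : Finset κ) (U : Cfg n) : (obm μ O T U : ℂ) = jd T fun s =>
    Complex.exp (∑ i, s i * (O i U : ℝ)) * (ma univ (fun T => (μ T : ℂ)) s)⁻¹ := by
  obtain ⟨r, hr, -⟩ := (ev_mu μ0).exists
  refine Eq.trans ?_ (jd_mul (sh_lin hr.pos univ _).exp hr T).symm
  rw [obm, Complex.ofReal_sum]
  refine sum_congr rfl fun S _ => ?_
  rw [jd_exp_lin _ (subset_univ S), Complex.ofReal_mul, Complex.ofReal_prod]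
  refine congrArg _ (Complex.ext rfl (jd_real hr (fun s _ hs => ?_) _).symm)
  have : ∀ T, (Jet.mon T s).im = 0 := fun T => prod_induction _ (fun z : ℂ => z.im = 0)
    (fun _ _ h h' => by simp [h, h']) rfl fun i _ => hs i
  simp [ma, this]

theorem qt_self {T : Finset κ} (hT : T.Nonempty) : qt μ μ T = 0 := by
  obtain ⟨r, hr, h2⟩ := (ev_mu μ0).exists
  rw [qt, jd_congr hr.pos (g' := fun _ => 1) fun s hs => mul_inv_cancel₀ (h2 s hs), jd_const _ hT,
    Complex.zero_re]

theorem obm_chg (μ1 : μ' ∅ = 1) (T : Finset κ) (U : Cfg n) :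
    obm μ' O T U = ∑ S ∈ T.powerset, obm μ O S U * qt μ μ' (T \ S) := by
  obtain ⟨r, ⟨hr, h2⟩, hr', -⟩ := ((ev_mu μ0).and (ev_mu μ1)).exists
  have k := jd_mul ((sh_lin hr.pos univ fun i => (O i U : ℝ)).exp.mul hr)
    ((sh_ma hr.pos univ fun T => (μ T : ℂ)).mul hr') T
  rw [jd_congr hr.pos (fun s hs => by
    simp only [Pi.mul_apply, mul_assoc, inv_mul_cancel_left₀ (h2 s hs)]; rfl), ← obm_eq μ1] at k
  simpa only [Complex.ofReal_re, Complex.re_sum, Pi.mul_def, ← obm_eq μ0, Complex.re_ofReal_mul,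
    qt] using congrArg Complex.re k

end

variable {O : (Fin 4 → Bool) → κ → Cfg n → ℝ} {μ : (Fin 4 → Bool) → Finset κ → ℝ}

theorem GenM.le (hG : GenM h b m lam O μ w M) (hO : Mr ρ D O) (μ0 : ∀ e, μ e ∅ = 1) (w0 : 0 < w)
    (e : Site 4 m → Fin 4 → Bool) (T : Site 4 m → Finset κ) :
    |∫ U, ∏ c, obm (μ (e c)) (O (e c)) (T c) (shift (corner lam c) U) ∂wilson h b n| ≤
      M * ∏ c, w ^ (T c).card := by
  obtain ⟨g, hg, e1⟩ := hG e
  obtain ⟨r, hr, r1⟩ := ((eventually_all.2 fun c => ev_mu (μ0 (e c))).and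
    (Ioo_mem_nhdsGT (inv_pos.2 w0))).exists
  have r0 : ∀ _ : Site 4 m × κ, 0 < r := fun _ => r1.1
  have h1 := SH.prod (X := univ) r0 fun c _ => (hr c).1.cell c
  have h2 := SH.prod (X := univ) r0 fun c _ =>
    (sh_ma (fun _ => r1.1) univ fun T => (μ (e c) T : ℂ)).cell c
  have h3 := hg.shrink r0 fun _ => r1.2.le
  have h4 := ((Eqv.mk ⟨_, sh_ma r0 univ _⟩ ⟨_, h3.mul h2⟩ fun B hB => (jd_ma _ hB).trans (e1 B)).mul
    (Hb.refl (A := univ) ⟨_, h1⟩))
  have h5 := (h4.trans (h4.snd.congr (g' := g) fun s hs => by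
    simp only [Pi.mul_apply, mul_assoc, ← prod_mul_distrib]
    rw [prod_eq_one fun c _ => mul_inv_cancel₀ ((hr c).2 _ fun i => hs _), mul_one])).eq _
      (subset_univ (univ.biUnion fun c => (T c).image (Prod.mk c)))
  rw [← int_jd' (O := arr lam fun c => O (e c))
    (fun q => (hO.bm _ q.2).comp (continuous_shift _).measurable) h1] at h5
  rw [← Real.norm_eq_abs, ← Complex.norm_real, ← integral_complex_ofReal]
  refine (congrArg _ ((congrArg _ (funext fun U => ?_)).trans h5)).trans_le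
    ((hg.jd_le _).trans_eq ?_)
  · simp only [Complex.ofReal_prod, obm_eq (μ0 _)]
    refine (jd_cells r1.1 univ (fun c => (sh_lin (fun _ => r1.1) univ _).exp.mul (hr c).1)
      T).symm.trans ?_
    simp only [Pi.mul_apply, prod_mul_distrib, ← Complex.exp_sum, Fintype.sum_prod_type, arr]
  · rw [prod_biUnion fun c _ c' _ e => disjoint_left.2 (by simp; grind), div_eq_mul_inv,
      ← prod_inv_distrib]
    exact congrArg _ (prod_congr rfl fun c _ => by
      rw [prod_image (Prod.mk_right_injective c).injOn]; simp)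

theorem Geo.obm_le (g : Geo ρ D lam) (hb : 0 ≤ b) (hm : Odd m) (hn : n = m * lam) (w0 : 0 < w)
    (hC : 0 ≤ C) (hO : Mr ρ D O) (μ0 : ∀ e, μ e ∅ = 1) (hG : GenM h b m lam O μ w (exp (C * m ^ 4))) (e T) :
    |∫ U, obm (μ e) (O e) T U ∂wilson h b n| ≤
      kq (Fintype.card κ) (exp (256 * C)) (Fintype.card κ) * w ^ T.card := by
  classical
  have a1 : ∀ e' T, Mr ρ D fun e (_ : Unit) => obm (μ e') (O e) T := fun e' T =>
    ⟨fun e _ => bm_obm (hO.bm e) T, fun e k _ U => by simp only [obm, hO.rf],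
      fun e _ U V u => by simp only [obm, fun i => hO.dep e i U V u]⟩
  refine (boot (δ := fun e e' => qt (μ e) (μ e')) (by simp) w0 (exp_pos _).le (fun e => ?_)
    (fun e e' => by simp [qt, ma_zero, μ0]) (fun e T => qt_self (μ0 e)) (fun e e' T => ?_)
    (fun e' T => g.gm16 hb hm hn hC (a1 e' T) (fun _ => by positivity) (fun s σ => ?_) e') _ T
    (card_le_univ T)).1 e
  · simp [obm0 (μ0 e)]
  · rw [g.int (a1 e' T) e e']
    simp only [obm_chg (μ0 e) (μ0 e') T]
    rw [integral_finsetSum _ fun S _ => ((bm_obm (hO.bm e) S).int _).mul_const _]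
    simp only [integral_mul_const]
  · simp only [fun x => obm_chg (O := O (σ x)) (μ0 (σ x)) (μ0 e') T, prod_sum, prod_mul_distrib]
    rw [integral_finsetSum _ fun p _ => ((BM.prod _ fun x =>
      (bm_obm (hO.bm _) _).comp (continuous_shift _).measurable).int _).mul_const _, mul_sum]
    refine (abs_sum_le_sum_abs _ _).trans (sum_le_sum fun p _ => ?_)
    have := hG.le hO μ0 w0 σ fun x => if u : x ∈ s then p x u else ∅
    rw [← prod_subset (subset_univ s) fun x _ u => by rw [dif_neg u, card_empty, pow_zero],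
      ← funext fun U => prod_subset (subset_univ s) fun x _ u => by rw [dif_neg u, obm0 (μ0 _)]]
      at this
    simp only [← prod_attach s, coe_mem, dif_pos] at this
    rw [integral_mul_const, abs_mul, abs_prod, mul_comm, mul_left_comm]
    exact mul_le_mul_of_nonneg_left this (by positivity)

/-- the true moments are the reference moments up to a bounded correction -/
theorem Geo.red (g : Geo ρ D lam) (hb : 0 ≤ b) (hm : Odd m) (hn : n = m * lam) (w0 : 0 < w)
    (hC : 0 ≤ C) (hO : Mr ρ D O) (μ0 : ∀ e, μ e ∅ = 1) (hG : GenM h b m lam O μ w (exp (C * m ^ 4))) (e) :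
    ∃ q, SH (fun _ => w⁻¹) (kR (Fintype.card κ) C) q ∧ q 0 = 1 ∧ ∀ T,
      mo (ex h b n) (O e) T = jd T fun s => ma univ (fun T => (μ e T : ℂ)) s * q s := by
  have hN := sh_ma_le (a := fun T => (∫ U, obm (μ e) (O e) T U ∂wilson h b n : ℝ)) w0 fun T => by
    simpa using g.obm_le hb hm hn w0 hC hO μ0 hG e T
  refine ⟨_, hN, by simp [ma_zero, obm0 (μ0 e)], fun T => ?_⟩
  obtain ⟨r, ⟨h1, h2⟩, r1⟩ := ((ev_mu (μ0 e)).and (Ioo_mem_nhdsGT (inv_pos.2 w0))).exists
  have r0 : ∀ _ : κ, 0 < r := fun _ => r1.1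
  have h4 := (Hb.refl (A := univ) ⟨_, sh_ma r0 univ fun T => (μ e T : ℂ)⟩).mul
    (Eqv.mk (A := univ) ⟨_, (sh_ma r0 univ (mo (ex h b n) (O e))).mul h1⟩
      ⟨_, hN.shrink r0 fun _ => r1.2.le⟩ fun S hS => by
        rw [jd_ma _ hS, ← integral_complex_ofReal]
        simp only [obm_eq (μ0 e)]
        exact (int_jd' (hO.bm e) h1 S).symm)
  rw [← jd_ma (mo (ex h b n) (O e)) (subset_univ T), ← h4.eq T (subset_univ T)]
  exact jd_congr r0 (fun s hs => by
    rw [Pi.mul_apply, mul_left_comm, mul_inv_cancel₀ (h2 s hs), mul_one]) T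

theorem red_mir (hb : 0 ≤ b) (hm : Odd m) (hn : n = m * lam) (w0 : 0 < w) (hC : 0 ≤ C)
    (hO : Mir lam O) (μ0 : ∀ e, μ e ∅ = 1) (hG : GenM h b m lam O μ w (exp (C * m ^ 4))) (e) :
    ∃ q, SH (fun _ => w⁻¹) (kR (Fintype.card κ) C) q ∧ q 0 = 1 ∧ ∀ T,
      mo (ex h b n) (O e) T = jd T fun s => ma univ (fun T => (μ e T : ℂ)) s * q s :=
  Geo.red (.inl ⟨rfl, rfl⟩) hb hm hn w0 hC hO μ0 hG e

theorem red_mic (hb : 0 ≤ b) (hm : Odd m) (hn : n = m * lam) (w0 : 0 < w) (hC : 0 ≤ C) {R : ℕ}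
    (hR : 2 * R ≤ lam) (hO : Mic R O) (μ0 : ∀ e, μ e ∅ = 1)
    (hG : GenM h b m lam O μ w (exp (C * m ^ 4))) (e) :
    ∃ q, SH (fun _ => w⁻¹) (kR (Fintype.card κ) C) q ∧ q 0 = 1 ∧ ∀ T,
      mo (ex h b n) (O e) T = jd T fun s => ma univ (fun T => (μ e T : ℂ)) s * q s :=
  Geo.red (.inr ⟨rfl, R, hR, rfl⟩) hb hm hn w0 hC hO μ0 hG e

end Pool.Agent.Lib.MP_7f377f_mp.Kz
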