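import Pool.Agent.Lib.MP_7f377f_mp.G.JwA0
import Pool.Agent.Lib.MP_7f377f_mp.G.KzR

/-! The mixed bound on the torus: null letters and centring by the true means. -/

noncomputable section

namespace Pool.Agent.Lib.MP_7f377f_mp.Wy
variable [Pool.Agent.Lib.MP_7f377f_mp.GD]
set_option linter.unusedSectionVars false

open MeasureTheory Filter Topology Set Real YM7 Weak L6 Function
open Wu (Z4)

variable [MeasurableSpace SU2] {β β' ι : Type}

variable [BorelSpace SU2] {h : Measure SU2} [h.IsHaarMeasure] [IsProbabilityMeasure h]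
  {n lam ρ z rad R R' : ℕ} [NeZero n] {b C C' K : ℝ} {O O' : β → Fz → ℝ} {A A' : Set β}
  {w w' : β → ℝ} {N N' F : Fz → ℝ} {y : Z4}

/-- the mirror images of a letter -/
theorem Lt.tw {r : Fin 4 → β → β} (L : Lt O r A rad K)
    (cl : ∀ μ, ∀ c ∈ A, r μ c ∈ A ∧ w (r μ c) = w c) (e : Fin 4 → Bool) {c : β} (hc : c ∈ A) :
    ∃ d ∈ A, w d = w c ∧ ∀ U, O d U = O c (Wx.tw rz e U) := by
  have a : ∀ μ t, ∀ c ∈ A, ∃ d ∈ A, w d = w c ∧ ∀ U, O d U = O c (Wx.pw (rz μ) t U) :=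
    fun μ t c hc => by
      cases t
      exacts [⟨_, (cl μ c hc).1, (cl μ c hc).2, L.rf μ c hc⟩, ⟨c, hc, rfl, fun _ => rfl⟩]
  obtain ⟨c0, a0, b0, d0⟩ := a 0 (e 0) c hc
  obtain ⟨c1, a1, b1, d1⟩ := a 1 (e 1) c0 a0
  obtain ⟨c2, a2, b2, d2⟩ := a 2 (e 2) c1 a1
  obtain ⟨c3, a3, b3, d3⟩ := a 3 (e 3) c2 a2
  exact ⟨c3, a3, by rw [b3, b2, b1, b0], fun U => by rw [d3, d2, d1, d0, Wx.tw]⟩

theorem tw_rz (μ e U) : Wx.tw rz e (rz μ U) = rz μ (Wx.tw rz e U) := by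
  have a : ∀ ν t U, Wx.pw (rz ν) t (rz μ U) = rz μ (Wx.pw (rz ν) t U) := fun ν t U => by
    cases t
    exacts [rz_comm _ _ _, rfl]
  simp only [Wx.tw, a]

theorem E0.cen {r : Fin 4 → β → β} {κ : β → ℝ}
    (H : E0 h b n lam (fun c U => O c U - κ c) A w C) (hb : 0 ≤ b) (hn : Odd n) (C0 : 0 ≤ C)
    (h1 : 2 * rad ≤ lam) (L : Lt O r A rad K) (fin : A.Finite)
    (cl : ∀ μ, ∀ c ∈ A, r μ c ∈ A ∧ w (r μ c) = w c) (pos : ∀ c ∈ A, 0 < w c)
    (m0 : ∀ c ∈ A, ∫ U, O c (lf U) ∂wilson h b n = 0) : ∀ c ∈ A, |κ c| ≤ kC C * w c := by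
  classical
  intro c hc
  obtain ⟨c₀, h0, hx⟩ := exists_max_image A (fun c => |κ c| / w c) fin ⟨c, hc⟩
  obtain ⟨x, e0⟩ : ∃ x, |κ c₀| / w c₀ = x := ⟨_, rfl⟩
  have w0 := pos _ h0
  have x0 : 0 ≤ x := by rw [← e0]; positivity
  replace hx : ∀ d ∈ A, |κ d| ≤ x * w d := fun d hd => (div_le_iff₀ (pos d hd)).1 (e0 ▸ hx d hd)
  refine (hx c hc).trans (mul_le_mul_of_nonneg_right ?_ (pos c hc).le)
  obtain ⟨om, ho⟩ : ∃ om : (Fin 4 → Bool) → ℝ, ∀ e, om e =
      if e = fun _ => true then w c₀ else (1 + 2 * x) * w c₀ := ⟨_, fun _ => rfl⟩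
  have : ∀ e, ∃ d ∈ A, (∀ U, O d U = O c₀ (Wx.tw rz e U)) ∧ |κ d - κ c₀| + w d ≤ om e := fun e => by
    rw [ho]
    split_ifs with u
    · exact ⟨c₀, h0, fun U => u ▸ rfl, by simp⟩
    · obtain ⟨d, d1, d2, d3⟩ := L.tw cl e h0
      exact ⟨d, d1, d3, by linarith [abs_sub (κ d) (κ c₀), d2 ▸ hx d d1, hx _ h0]⟩
  choose d d1 d2 d3 using this
  haveI : Nonempty β := ⟨c⟩
  obtain ⟨m, hm, H'⟩ := H.comb (fun c hc => (L.cont c hc).sub continuous_const)
    (fun c hc => (pos c hc).le) (O' := fun e U => O (d e) U - κ c₀) (A' := univ) (w' := om) fun e _ =>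
      ⟨{d e}, 1, κ (d e) - κ c₀, by simpa using d1 e, by simpa using d3 e, fun U => by simp⟩
  haveI : NeZero m := ⟨by rintro rfl; exact NeZero.ne n (by simpa using hm)⟩
  have c1 := fun e => (L.cont _ (d1 e)).comp' (cont_lf (n := n))
  have := Kz.Geo.gm16 (h := h) (.inr ⟨rfl, rad, h1, rfl⟩) hb (Nat.Odd.of_mul_left (hm ▸ hn : Odd (m * lam))) hm C0
    (A := fun e U => O (d e) (lf U) - κ c₀) ⟨fun e _ => .of_continuous ((c1 e).sub continuous_const),
      fun e k _ U => by rw [d2, d2, lf_refl, tw_rz, Wx.θ_tw inv4_rz],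
      fun e _ U V u => congrArg (· - _) (L.dep _ (d1 e) fun l hl => u _ fun k => ⟨_, hl k, rfl⟩)⟩
    (fun e => by rw [ho]; split_ifs <;> positivity) (fun s σ => H' s σ fun _ _ => trivial) fun _ => true
  rw [integral_sub (cint _ (c1 _)) (integrable_const _), m0 _ (d1 _), ← Finset.mul_prod_erase _ _
    (Finset.mem_univ fun _ => true), ho, if_pos rfl, Finset.prod_congr rfl fun e u =>
      (ho e).trans (if_neg (Finset.ne_of_mem_erase u)), Finset.prod_const, Finset.card_erase_of_mem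
        (Finset.mem_univ _), show (Finset.univ : Finset (Fin 4 → Bool)).card - 1 = 15 by simp,
    integral_const, probReal_univ, one_smul, zero_sub, abs_neg, (div_eq_iff w0.ne').1 e0] at this
  replace this : x ^ 16 ≤ exp (256 * C) * (1 + 2 * x) ^ 15 :=
    le_of_mul_le_mul_right ((mul_pow _ _ _).symm.trans_le (this.trans_eq (by ring))) (pow_pos w0 16)
  have e1 := one_le_exp (by positivity : 0 ≤ 256 * C)
  by_contra! u
  rw [kC] at u
  have x1 : 1 < x := by linarith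
  have : x * x ^ 15 ≤ 3 ^ 15 * exp (256 * C) * x ^ 15 := by
    rw [← pow_succ', mul_right_comm, ← mul_pow, mul_comm]
    refine this.trans ?_
    gcongr
    linarith
  linarith [le_of_mul_le_mul_right this (by positivity)]

/-- constants which are allowed in the mixed bound for letters without mean are small -/
theorem E1.cen {r : Fin 4 → β → β} {κ : β → ℝ}
    (H : E1 h b n lam ρ (fun c U => O c U - κ c) A w C) (hb : 0 ≤ b) (hn : Odd n) (C0 : 0 ≤ C)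
    (hz : 2 * z + ρ = lam) (h1 : rad < z) (L : Lt O r A rad K) (fin : A.Finite)
    (cl : ∀ μ, ∀ c ∈ A, r μ c ∈ A ∧ w (r μ c) = w c) (pos : ∀ c ∈ A, 0 < w c)
    (m0 : ∀ c ∈ A, ∫ U, O c (lf U) ∂wilson h b n = 0) : ∀ c ∈ A, |κ c| ≤ kC C * w c :=
  H.e0.cen hb hn C0 (by omega) L fin cl pos m0

/-- letters without mean which are combinations of the letters `O` up to constants and null
letters -/
theorem E1.fin [Nonempty β] (H : E1 h b n lam ρ O A w C) (hb : 0 ≤ b) (hn : Odd n) (C0 : 0 ≤ C)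
    (hz : 2 * z + ρ = lam) (h1 : rad < z) (h2 : R + rad + 2 * ρ < lam)
    (hO : ∀ c ∈ A, Continuous (O c) ∧ DependsOn (O c) {l | ∀ i, |l.1 i| ≤ rad} ∧ 0 ≤ w c)
    {T : β' → Fz → ℝ} {r : Fin 4 → β' → β'} {A' : Set β'} {w' u : β' → ℝ} (L : Lt T r A' rad K)
    (fin : A'.Finite) (cl : ∀ μ, ∀ c ∈ A', r μ c ∈ A' ∧ w' (r μ c) = w' c)
    (pos : ∀ c ∈ A', 0 < w' c) (m0 : ∀ c ∈ A', ∫ U, T c (lf U) ∂wilson h b n = 0)
    (e : ∀ c ∈ A', ∃ (s : Finset β) (t : β → ℝ), ↑s ⊆ A ∧ ∑ d ∈ s, |t d| * w d ≤ w' c ∧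
      Nl h b n R fun U => T c U - (u c + ∑ d ∈ s, t d * O d U)) :
    E1 h b n lam ρ T A' (fun c => (1 + kC C) * w' c) C ∧ ∀ c ∈ A', |u c| ≤ kC C * w' c := by
  choose! s t e1 e2 e3 using e
  have c1 := fun c hc => (L.cont c hc).sub (continuous_const (y := u c))
  have H1 := (H.comb (fun c hc => (hO c hc).1) (fun c hc => (hO c hc).2.2)
    (O' := fun c U => ∑ d ∈ s c, t c d * O d U) fun c hc => ⟨s c, t c, 0, e1 c hc,
      by simpa using e2 c hc, fun U => (zero_add _).symm⟩).null (O' := fun c U => T c U - u c) h2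
    (fun c hc => ⟨continuous_finsetSum _ fun d hd => continuous_const.mul (hO d (e1 c hc hd)).1,
      fun U V v => Finset.sum_congr rfl fun d hd => congrArg _ ((hO d (e1 c hc hd)).2.1 v)⟩)
    (fun c hc => ⟨c1 c hc, fun U V v => congrArg (· - _) (L.dep c hc v)⟩)
    fun c hc => by simpa only [sub_sub] using e3 c hc
  have H2 := H1.cen hb hn C0 hz h1 L fin cl pos m0
  refine ⟨?_, H2⟩
  cases isEmpty_or_nonempty β'
  · exact (congrArg₂ (fun X Y => E1 h b n lam ρ X A' Y C) (funext fun c => isEmptyElim c)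
      (funext fun c => isEmptyElim c)).mp H1
  · exact H1.comb c1 (fun c hc => (pos c hc).le) fun c hc => ⟨{c}, 1, u c, by simpa,
      by simpa [add_mul, add_comm] using H2 c hc, fun U => by simp⟩

theorem E0.fin [Nonempty β] (H : E0 h b n lam O A w C) (hb : 0 ≤ b) (hn : Odd n) (C0 : 0 ≤ C)
    (h1 : 2 * rad ≤ lam) (h2 : R + rad < lam)
    (hO : ∀ c ∈ A, Continuous (O c) ∧ DependsOn (O c) {l | ∀ i, |l.1 i| ≤ rad} ∧ 0 ≤ w c)
    {T : β' → Fz → ℝ} {r : Fin 4 → β' → β'} {A' : Set β'} {w' u : β' → ℝ} (L : Lt T r A' rad K)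
    (fin : A'.Finite) (cl : ∀ μ, ∀ c ∈ A', r μ c ∈ A' ∧ w' (r μ c) = w' c)
    (pos : ∀ c ∈ A', 0 < w' c) (m0 : ∀ c ∈ A', ∫ U, T c (lf U) ∂wilson h b n = 0)
    (e : ∀ c ∈ A', ∃ (s : Finset β) (t : β → ℝ), ↑s ⊆ A ∧ ∑ d ∈ s, |t d| * w d ≤ w' c ∧
      Nl h b n R fun U => T c U - (u c + ∑ d ∈ s, t d * O d U)) :
    E0 h b n lam T A' (fun c => (1 + kC C) * w' c) C ∧ ∀ c ∈ A', |u c| ≤ kC C * w' c := by
  choose! s t e1 e2 e3 using e
  have c1 := fun c hc => (L.cont c hc).sub (continuous_const (y := u c))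
  have H1 := (H.comb (fun c hc => (hO c hc).1) (fun c hc => (hO c hc).2.2)
    (O' := fun c U => ∑ d ∈ s c, t c d * O d U) fun c hc => ⟨s c, t c, 0, e1 c hc,
      by simpa using e2 c hc, fun U => (zero_add _).symm⟩).null (O' := fun c U => T c U - u c) h2
    (fun c hc => ⟨continuous_finsetSum _ fun d hd => continuous_const.mul (hO d (e1 c hc hd)).1,
      fun U V v => Finset.sum_congr rfl fun d hd => congrArg _ ((hO d (e1 c hc hd)).2.1 v)⟩)
    (fun c hc => ⟨c1 c hc, fun U V v => congrArg (· - _) (L.dep c hc v)⟩)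
    fun c hc => by simpa only [sub_sub] using e3 c hc
  have H2 := H1.cen hb hn C0 h1 L fin cl pos m0
  refine ⟨?_, H2⟩
  cases isEmpty_or_nonempty β'
  · exact (congrArg₂ (fun X Y => E0 h b n lam X A' Y C) (funext fun c => isEmptyElim c)
      (funext fun c => isEmptyElim c)).mp H1
  · exact H1.comb c1 (fun c hc => (pos c hc).le) fun c hc => ⟨{c}, 1, u c, by simpa,
      by simpa [add_mul, add_comm] using H2 c hc, fun U => by simp⟩

end Pool.Agent.Lib.MP_7f377f_mp.Wy
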