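import Pool.Agent.Lib.MP_7f377f_mp.G.WyH

/-! The mixed bound on the torus: null letters. -/

noncomputable section

namespace Pool.Agent.Lib.MP_7f377f_mp.Wy
variable [Pool.Agent.Lib.MP_7f377f_mp.GD]
set_option linter.unusedSectionVars false

open MeasureTheory Filter Topology Set Real YM7 Weak L6 Function
open Wu (Z4)

/-- small shifts of the sites of the grid -/
def off (ρ : ℕ) (e : Fin 4 → Bool) : Z4 := fun k => bif e k then 0 else ρ

/-- the constant of the centring -/
def kC (C : ℝ) : ℝ := 3 ^ 15 * exp (256 * C)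

variable [MeasurableSpace SU2] {β β' ι : Type}

/-- the mixed bound for letters at the shifted sites of the grid -/
def E1 (h : Measure SU2) (b : ℝ) (n : ℕ) [NeZero n] (lam ρ : ℕ) (O : β → Fz → ℝ) (A : Set β)
    (w : β → ℝ) (C : ℝ) : Prop :=
  E0 h b n lam (fun (q : β × (Fin 4 → Bool)) U => O q.1 (tz (off ρ q.2) U)) (A ×ˢ univ)
    (fun q => w q.1) C

variable [BorelSpace SU2] {h : Measure SU2} [h.IsHaarMeasure] [IsProbabilityMeasure h]
  {n lam ρ z rad R R' : ℕ} [NeZero n] {b C C' K : ℝ} {O O' : β → Fz → ℝ} {A A' : Set β}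
  {w w' : β → ℝ} {N N' F : Fz → ℝ} {y : Z4}

theorem kC_pos (C : ℝ) : 0 < kC C := by unfold kC; positivity

theorem E1.e0 (H : E1 h b n lam ρ O A w C) : E0 h b n lam O A w C :=
  H.imp fun _ e => ⟨e.1, fun s σ hσ => by
    simpa [show off ρ (fun _ => true) = 0 from rfl] using
      e.2 s (fun x => (σ x, fun _ => true)) fun x hx => ⟨hσ x hx, trivial⟩⟩

theorem E1.mono (H : E1 h b n lam ρ O A w C) (hA : A' ⊆ A)
    (hw : ∀ c ∈ A', 0 ≤ w c ∧ w c ≤ w' c) (hC : C ≤ C') : E1 h b n lam ρ O A' w' C' :=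
  E0.mono H (prod_mono_left hA) (fun q hq => hw _ hq.1) hC

theorem E1.comb [Nonempty β] (H : E1 h b n lam ρ O A w C) (hO : ∀ c ∈ A, Continuous (O c))
    (w0 : ∀ c ∈ A, 0 ≤ w c) {O' : β' → Fz → ℝ} {A' : Set β'} {w' : β' → ℝ}
    (e : ∀ c ∈ A', ∃ (s : Finset β) (t : β → ℝ) (u : ℝ), ↑s ⊆ A ∧
      |u| + ∑ d ∈ s, |t d| * w d ≤ w' c ∧ ∀ U, O' c U = u + ∑ d ∈ s, t d * O d U) :
    E1 h b n lam ρ O' A' w' C :=
  E0.comb H (fun q hq => (hO _ hq.1).comp (cont_tz _)) (fun q hq => w0 _ hq.1) fun q hq =>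
    let ⟨s, t, u, e1, e2, e3⟩ := e _ hq.1
    ⟨s.map ⟨(·, q.2), Prod.mk_left_injective _⟩, fun d => t d.1, u, fun d hd => by
      obtain ⟨d, h, rfl⟩ := Finset.mem_map.1 hd
      exact ⟨e1 h, trivial⟩, by simpa, fun U => by simp [e3]⟩

theorem Nl.zero : Nl h b n R fun _ => 0 := fun _ _ _ => by simp

theorem Nl.mono (H : Nl h b n R N) (e : R ≤ R') : Nl h b n R' N := fun G c d =>
  H G c (d.mono fun _ => .imp fun _ => (Nat.cast_le.2 e).trans_lt)

theorem Nl.add (H : Nl h b n R N) (H' : Nl h b n R N') (c : Continuous N) (c' : Continuous N') :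
    Nl h b n R fun U => N U + N' U := fun G g d => by
  simp only [add_mul]
  rw [integral_add (cint _ (by fun_prop)) (cint _ (by fun_prop)), H G g d, H' G g d, add_zero]

theorem Nl.smul (H : Nl h b n R N) (t : ℝ) : Nl h b n R fun U => t * N U := fun G g d => by
  simp only [mul_assoc, integral_const_mul, H G g d, mul_zero]

theorem Nl.sum {s : Finset ι} {N : ι → Fz → ℝ} (H : ∀ i ∈ s, Nl h b n R (N i) ∧ Continuous (N i)) :
    Nl h b n R fun U => ∑ i ∈ s, N i U := fun G g d => by
  simp only [Finset.sum_mul]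
  rw [integral_finsetSum _ fun i hi => cint _ (((H i hi).2.comp' cont_lf).fun_mul g)]
  exact Finset.sum_eq_zero fun i hi => (H i hi).1 G g d

/-- null letters have no mean -/
theorem Nl.mean (H : Nl h b n R N) : ∫ U, N (lf U) ∂wilson h b n = 0 := by
  simpa using H (fun _ => 1) continuous_const fun _ _ _ => rfl

theorem abs_vma (x : ℤ) : |((x : ZMod n).valMinAbs : ℤ)| ≤ |x| := by
  simpa only [Int.abs_eq_natAbs, Nat.cast_le] using ZMod.natAbs_min_of_le_div_two n _ x
    (ZMod.coe_valMinAbs _) (ZMod.natAbs_valMinAbs_le _)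

/-- a null letter at `y` times a function of the links which are far from `y` -/
theorem Nl.at (H : Nl h b n R N) (c : Continuous N) {G : Cfg n → ℝ} (g : Continuous G)
    (d : DependsOn G {e | ∃ i, R < |(e.1 i - y i).valMinAbs|}) :
    ∫ U, N (tz y (lf U)) * G U ∂wilson h b n = 0 := by
  have m := mp_shift' h b (n := n) fun i => (y i : ZMod n)
  have g' := g.comp (continuous_shift fun i => -(y i : ZMod n))
  have := H _ g' fun U V e => d fun l hl => e _ (by simpa [sub_eq_add_neg] using hl)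
  rw [← m.map_eq, integral_map m.measurable.aemeasurable
    ((c.comp' cont_lf).fun_mul g').aestronglyMeasurable] at this
  convert this using 4 with U
  · rw [lf_shift]
  · exact congrArg G (funext fun l => congrArg U (Prod.ext (funext fun i => by simp) rfl))

theorem far {x : ZMod n} {i : Fin 4} (hy : |y i| + R ≤ R') (e : R' < |x.valMinAbs|) :
    R < |(x - y i).valMinAbs| := by
  have := abs_vma (n := n) ((x - y i).valMinAbs + y i)
  simp only [Int.cast_add, ZMod.coe_valMinAbs, sub_add_cancel] at this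
  linarith [abs_add_le (x - y i).valMinAbs (y i)]

/-- a null letter at `y` times a letter which lives away from `y` -/
theorem Nl.mul (H : Nl h b n R N) (c : Continuous N) (cF : Continuous F) (hn : 2 * R' < n)
    (hy : ∀ i, |y i| + R ≤ R')
    (d : DependsOn F {l | (∃ i, R < |l.1 i - y i|) ∧ ∀ i, |l.1 i| ≤ R'}) :
    Nl h b n R' fun U => N (tz y U) * F U := fun G g e => by
  simp only [mul_assoc]
  refine H.at c ((cF.comp' cont_lf).fun_mul g) fun U V u => congrArg₂ _ (d fun l ⟨⟨i, h1⟩, h2⟩ =>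
    u _ ⟨i, ?_⟩) (e fun l ⟨i, hi⟩ => u _ ⟨i, far (hy i) hi⟩)
  obtain ⟨k, hk⟩ := (ZMod.intCast_eq_intCast_iff_dvd_sub _ (l.1 i - y i) n).1
    ((ZMod.coe_valMinAbs _).trans (Int.cast_sub _ _).symm)
  have := h2 i
  have := hy i
  refine lt_of_not_ge fun v => ?_
  simp only at v
  rw [abs_le] at *
  rcases lt_trichotomy k 0 with e | rfl | e
  · nlinarith [le_abs_self (y i), neg_abs_le (y i)]
  · exact h1.not_ge (abs_le.2 ⟨by linarith [v.1], by linarith [v.2]⟩)
  · nlinarith [le_abs_self (y i), neg_abs_le (y i)]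

theorem Nl.tz (H : Nl h b n R N) (c : Continuous N) (hy : ∀ i, |y i| + R ≤ R') :
    Nl h b n R' fun U => N (tz y U) := fun _ g e =>
  H.at c g (e.mono fun _ => .imp fun i => far (hy i))

/-- words of letters which differ by null letters -/
theorem Nl.word [Fintype ι] {P P' : ι → Fz → ℝ} {y : ι → Z4} (hn : 2 * R' < n)
    (c : ∀ i, Continuous (P i) ∧ DependsOn (P i) {l | ∀ k, |l.1 k| ≤ rad})
    (c' : ∀ i, Continuous (P' i) ∧ DependsOn (P' i) {l | ∀ k, |l.1 k| ≤ rad})
    (e : ∀ i, Nl h b n R fun U => P' i U - P i U) (h1 : ∀ i k, |y i k| + R + rad ≤ R')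
    (h2 : ∀ i j, i ≠ j → ∃ k, (R : ℤ) + rad < |y i k - y j k|) :
    Nl h b n R' fun U => ∏ i, P' i (Wy.tz (y i) U) - ∏ i, P i (Wy.tz (y i) U) := by
  classical
  suffices ∀ T : Finset ι, Nl h b n R' fun U =>
      ∏ i, T.piecewise P' P i (Wy.tz (y i) U) - ∏ i, P i (Wy.tz (y i) U) by simpa using this .univ
  intro T
  have p : ∀ (T : Finset ι) i, Continuous (T.piecewise P' P i) ∧
      DependsOn (T.piecewise P' P i) {l | ∀ k, |l.1 k| ≤ rad} := fun T i => by
    by_cases u : i ∈ T <;> simp [u, c, c']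
  induction T using Finset.induction_on with
  | empty => simpa using Nl.zero
  | insert z T hz ih =>
    have q := fun T i => ((p T i).1.comp' (cont_tz (y i)))
    convert ((e z).mul (y := y z) ((c' z).1.sub (c z).1) (continuous_finsetProd (Finset.univ.erase z)
      fun i _ => q T i) hn (fun k => by linarith [h1 z k]) fun U V u => Finset.prod_congr rfl
        fun i hi => (p T i).2 fun l hl => u _ ⟨?_, fun k => ?_⟩).add ih
      ((((c' z).1.sub (c z).1).comp' (cont_tz _)).fun_mul (continuous_finsetProd _ fun i _ => q T i))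
      ((continuous_finsetProd _ fun i _ => q T i).sub
        (continuous_finsetProd _ fun i _ => (c i).1.comp' (cont_tz _))) using 2 with U
    · rw [← Finset.mul_prod_erase _ (fun i => T.piecewise P' P i _) (Finset.mem_univ z),
        ← Finset.mul_prod_erase _ (fun i => (insert z T).piecewise P' P i _) (Finset.mem_univ z),
        Finset.prod_congr rfl fun i hi => by
          rw [Finset.piecewise_insert_of_ne _ _ _ (Finset.ne_of_mem_erase hi)]]
      simp [hz]
      ring
    · refine (h2 i z (Finset.ne_of_mem_erase hi)).imp fun k v => ?_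
      have := abs_sub_le (y i k - y z k) (y i k + l.1 k - y z k) 0
      simp only [Pi.add_apply, sub_zero, sub_sub_sub_cancel_right, sub_add_cancel_left, abs_neg] at this ⊢
      linarith [hl k]
    · exact (abs_add_le _ _).trans (by linarith [hl k, h1 i k])

theorem E1.null (H : E1 h b n lam ρ O A w C) (hR : R + R' + 2 * ρ < lam)
    (hO : ∀ c ∈ A, Continuous (O c) ∧ DependsOn (O c) {l | ∀ i, |l.1 i| ≤ R'})
    (hO' : ∀ c ∈ A, Continuous (O' c) ∧ DependsOn (O' c) {l | ∀ i, |l.1 i| ≤ R'})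
    (e : ∀ c ∈ A, Nl h b n R fun U => O' c U - O c U) : E1 h b n lam ρ O' A w C := by
  have o : ∀ e i, |off ρ e i| ≤ ρ := fun e i => by cases u : e i <;> simp [off, u]
  have d : ∀ {F : Fz → ℝ} e, (Continuous F ∧ DependsOn F {l | ∀ i, |l.1 i| ≤ R'}) →
      Continuous (fun U => F (tz (off ρ e) U)) ∧
        DependsOn (fun U => F (tz (off ρ e) U)) {l | ∀ i, |l.1 i| ≤ (R' + ρ : ℕ)} := fun e f =>
    ⟨f.1.comp (cont_tz _), fun U V u => f.2 fun l hl => u _ fun i =>
      (abs_add_le _ _).trans (by push_cast; linarith [o e i, hl i])⟩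
  exact E0.null H (R := R + ρ) (by omega) (fun q hq => d _ (hO _ hq.1)) (fun q hq => d _ (hO' _ hq.1))
    fun q hq => (e _ hq.1).tz ((hO' _ hq.1).1.sub (hO _ hq.1).1) fun i => by
      push_cast
      linarith [o q.2 i]

end Pool.Agent.Lib.MP_7f377f_mp.Wy
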