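import Pool.Agent.Lib.MP_7f377f_mp.G.KzF
import Pool.Agent.Lib.MP_7f377f_mp.G.JuT4
import Pool.Agent.Lib.MP_7f377f_mp.G.GSchur

/-! Positive symbols of weight four. -/

noncomputable section

set_option linter.unusedSectionVars false
variable [Pool.Agent.Lib.MP_7f377f_mp.GD]

namespace Pool.Agent.Lib.MP_7f377f_mp.RG.Q4.En

open Finset Real Cok Filter Topology Tl MvPolynomial Ju

variable {α β : Type} [Fintype α] [DecidableEq α] [Fintype β]

/-- real fields of the first colour -/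
def s1 (x : α → ℝ) : Cr α := fun q => if q.2.1 = 0 then x q.1 else 0

/-- fields of the lowest weight -/
def Lw (w : α → ℕ) : Submodule ℝ (α → ℝ) where
  carrier := {x | ∀ a, w a ≠ 2 → x a = 0}
  add_mem' h h' a e := by simp [h a e, h' a e]
  zero_mem' _ _ := rfl
  smul_mem' _ _ h a e := by simp [h a e]

/-- the value of a symbol -/
def qv {w : α → ℕ} {d : ℕ} (x : α → ℝ) : SyC w d →ₗ[ℝ] ℝ where
  toFun e := (eval (s1 x) e.val).re
  map_add' _ _ := by simp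
  map_smul' t e := by
    rw [← Complex.coe_smul, map_smul, smul_eval]
    simp

/-- positive definite symbols -/
def Pv (w : α → ℕ) (κ : ℝ) (e : SyC w 4) : Prop :=
  e ∈ W0 w 4 ∧ e ≠ 0 ∧ ∀ x ∈ Lw w, κ * ‖e‖ * ‖x‖ ^ 2 ≤ qv x e

variable {w : α → ℕ} {κ κ' ε μ : ℝ} {e e' : SyC w 4} {x : α → ℝ}

theorem lin_zero {P : Cp α} (h : Tl.Iv P) (q : α × Fin GD.d) : coeff (.single q 1) P = 0 := by
  have e : ∀ k, coeff (.single (q.1, k) 1) P = Tl.gd q.1 P 0 k := fun k => by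
    simp [Tl.gd, vl, constantCoeff_eq, coeff_pderiv]
  have a : ∀ g i, ∑ k, (GD.t ^ 2 * Matrix.trace ((GD.e k).transpose * (GD.rho g * GD.e i *
      (GD.rho g).transpose)) : ℝ) * Tl.gd q.1 P 0 k = Tl.gd q.1 P 0 i := fun g i => by
    have := gd_ad (a := q.1) h g 0 (Pi.single i 1)
    rw [show (fun i => adq (cS g) ((0 : α → C3) i)) = 0 from funext fun _ => (adL _).map_zero] at this
    simpa [dot, adq_cS_apply, Pi.single_apply, mul_comm] using this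
  have b := GE.schur_vec _ GD.schur (by linarith [GD.d3])
  exact (e q.2).trans (Complex.ext (b (fun k => (Tl.gd q.1 P 0 k).re) (fun g i => by
    simpa only [Complex.re_sum, Complex.re_ofReal_mul] using congrArg Complex.re (a g i)) _) (b (fun k => (Tl.gd q.1 P 0 k).im) (fun g i => by
    simpa only [Complex.im_sum, Complex.im_ofReal_mul] using congrArg Complex.im (a g i)) _))

theorem s1_le (x : α → ℝ) : ‖s1 x‖ ≤ ‖x‖ := (pi_norm_le_iff_of_nonneg (norm_nonneg _)).2 fun q => by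
  rw [s1]
  split_ifs
  exacts [(Complex.norm_real _).trans_le (norm_le_pi_norm x _), by simp]

theorem cxM_s1 (T : Module.End ℝ (α → ℝ)) (x : α → ℝ) : cxM T (s1 x) = s1 (T x) := by
  funext q
  by_cases h : q.2.1 = 0 <;> simp [cxM, ucr, cur, cz_ap, s1, h, ← Pi.zero_def]

theorem dl_s1 (hx : x ∈ Lw w) (t : ℂ) : dl (wC w) t (s1 x) = t ^ 2 • s1 x := funext fun q => by
  by_cases h : w q.1 = 2
  · simp [dl, wC, h]
  · simp [dl, s1, hx _ h]

theorem Pv.mono (h : Pv w κ e) (k : κ' ≤ κ) : Pv w κ' e :=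
  ⟨h.1, h.2.1, fun x hx => le_trans (by gcongr) (h.2.2 x hx)⟩

theorem Pv.smul (h : Pv w κ e) (m0 : 0 < μ) : Pv w κ (μ • e) :=
  ⟨(W0 w 4).smul_of_tower_mem _ h.1, smul_ne_zero m0.ne' h.2.1, fun x hx => by
    rw [map_smul, norm_smul, Real.norm_of_nonneg m0.le, mul_left_comm, mul_assoc]
    exact mul_le_mul_of_nonneg_left (h.2.2 x hx) m0.le⟩

theorem eval_pb' {ι : Type} [Fintype ι] [DecidableEq ι] {w : ι → ℕ} {d : ℕ} {P : MvPolynomial ι ℂ}
    {T : (ι → ℂ) →ₗ[ℂ] ι → ℂ} {c : ι → ℂ} (hT : ∀ t, T (dl w t c) = dl w t (T c))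
    (h : P ∈ Ju.Wd w d) : eval c (Ju.pb w d T P) = eval (T c) P := by
  have a := uniq (l := 𝓝[≠] 0) le_rfl (d + 1) (b := fun m => eval (T c) (cp w m P) -
    eval c (cp w m (sb T P))) ((((ex_eval w d (sb T P)).2 c).congr_left fun t => by
      simp only [eval_sb, hT, eval_dl h, eval_tc, mul_sub, sum_sub_distrib]).mono
        nhdsWithin_le_nhds)
  have b := eval_tc (w := w) (d := d) (P := sb T P) 1 c
  have e := eval_dl h 1 (T c)
  rw [dl_one] at b e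
  rw [e]
  exact b.trans (sum_congr rfl fun m hm => by rw [sub_eq_zero.1 (a m (mem_range.1 hm))])

/-- the step is a substitution -/
theorem qv_AS {T : Module.End ℝ (α → ℝ)} (L : ℝ) (hx : x ∈ Lw w) (hT : T x ∈ Lw w) (e : SyC w 4) :
    qv x (AS w 4 L T e) = qv ((L ^ 2)⁻¹ • T x) e := by
  have a : dlR w L⁻¹ (T x) = (L ^ 2)⁻¹ • T x := funext fun a => by
    by_cases h : w a = 2
    · simp [dlR, h]
    · simp [dlR, hT _ h]
  change (eval (s1 x) (AS w 4 L T e).val).re = (eval (s1 _) e.val).re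
  rw [val_AS, Aop, eval_pb' (fun t => by
    rw [dl_s1 hx, map_smul, cxM_s1, dl_s1 (by
      rw [LinearMap.comp_apply, a]; exact (Lw w).smul_mem _ hT)]) e.mem, cxM_s1, ← a]
  rfl

variable (hw : ∀ a, 2 ≤ w a)
include hw

theorem fg4 (h : e ∈ W0 w 4) : e ∈ Fg w 4 4 := fun γ hγ => by
  obtain ⟨h1, h2⟩ := mem_W0.1 h
  by_cases z : γ = 0
  · simpa [z, constantCoeff_eq] using h2
  obtain ⟨q, hq⟩ := Finsupp.ne_iff.1 z
  obtain ⟨γ, rfl⟩ := exists_add_of_le (Finsupp.single_le_iff.2 (Nat.one_le_iff_ne_zero.2 hq))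
  have : γ = 0 := Finsupp.ext fun i => by_contra fun z => by
    have := Finsupp.le_weight_of_ne_zero' (wC w) z
    simp only [map_add, Finsupp.weight_single, smul_eq_mul, one_mul, wC] at hγ this
    linarith [hw q.1, hw i.1]
  rw [this, add_zero]
  exact lin_zero (mem_iv.1 h1).2 q

theorem hom4 (h : e ∈ W0 w 4) : e.val.IsWeightedHomogeneous (wC w) 4 := fun γ z =>
  le_antisymm (not_lt.1 fun k => z (mem_Wd.1 e.mem γ k)) (not_lt.1 fun k => z (fg4 hw h γ k))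

theorem qv_smul (h : e ∈ W0 w 4) (hx : x ∈ Lw w) {t : ℝ} (t0 : 0 ≤ t) :
    qv (t • x) e = t ^ 2 * qv x e := by
  have b : s1 (t • x) = dl (wC w) (√t : ℝ) (s1 x) := by
    rw [dl_s1 hx, ← Complex.ofReal_pow, sq_sqrt t0]
    funext q
    simp [s1]
  change (eval (s1 _) e.val).re = _ * (eval (s1 x) e.val).re
  rw [b, eval_hom (hom4 hw h), ← Complex.ofReal_pow, Complex.re_ofReal_mul, pow_mul _ 2 2, sq_sqrt t0]

theorem qv_le (h : e ∈ W0 w 4) (hx : x ∈ Lw w) : |qv x e| ≤ ‖e‖ * ‖x‖ ^ 2 := by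
  rcases eq_or_ne x 0 with rfl | z
  · simpa using qv_smul hw h hx le_rfl
  have n := norm_pos_iff.2 z
  have := qv_smul hw h ((Lw w).smul_mem ‖x‖⁻¹ hx) n.le
  rw [smul_inv_smul₀ n.ne'] at this
  rw [this, abs_mul, abs_sq, mul_comm]
  gcongr
  exact (Complex.abs_re_le_norm _).trans (le_nP ((s1_le _).trans (by
    rw [norm_smul, norm_inv, norm_norm, inv_mul_cancel₀ n.ne'])) _)

theorem Pv.of (h : e ∈ W0 w 4) (a0 : 0 < μ) {a : α} (ha : w a = 2)
    (h1 : ∀ x ∈ Lw w, μ * ‖x‖ ^ 2 ≤ qv x e) (h2 : κ * ‖e‖ ≤ μ) : Pv w κ e := by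
  refine ⟨h, fun z => ?_, fun x hx => le_trans (by gcongr) (h1 x hx)⟩
  have := h1 (Pi.single a 1) fun b hb => Pi.single_eq_of_ne (by rintro rfl; exact hb ha) _
  simp [z, Pi.norm_single] at this
  linarith

/-- perturbations -/
theorem Pv.pert (h : Pv w κ e) (k0 : 0 ≤ κ) (h' : e' ∈ W0 w 4) (h1 : ‖e' - e‖ ≤ ε * ‖e‖)
    (h2 : 2 * ε ≤ κ) (h3 : 2 * ε ≤ 1) : Pv w (κ / 4) e' := by
  have n := norm_pos_iff.2 h.2.1
  refine ⟨h', fun z => ?_, fun x hx => ?_⟩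
  · rw [z, zero_sub, norm_neg] at h1
    nlinarith
  · have a := (abs_le.1 (qv_le hw (sub_mem h' h.1) hx)).1
    have b := h.2.2 x hx
    have c := norm_le_norm_add_norm_sub' e' e
    have s := sq_nonneg ‖x‖
    rw [map_sub] at a
    have : κ / 4 * ‖e'‖ ≤ κ * ‖e‖ - ‖e' - e‖ := by nlinarith [mul_nonneg k0 n.le]
    nlinarith

/-- the sign of a multiple -/
theorem Pv.sgn (h : Pv w κ e) (h' : Pv w κ' (μ • e)) (k0 : 0 < κ) (k1 : 0 < κ') {a : α}
    (ha : w a = 2) : 0 < μ := by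
  have l : Pi.single a (1 : ℝ) ∈ Lw w := fun b hb =>
    Pi.single_eq_of_ne (by rintro rfl; exact hb ha) _
  have a := h.2.2 _ l
  have b := h'.2.2 _ l
  rw [Pi.norm_single, norm_one, one_pow, mul_one] at a b
  rw [map_smul, smul_eq_mul] at b
  exact (mul_pos_iff_of_pos_right ((mul_pos k0 (norm_pos_iff.2 h.2.1)).trans_le a)).1
    ((mul_pos k1 (norm_pos_iff.2 h'.2.1)).trans_le b)

namespace Gl

variable {G : Gl} {b M : ℝ} {D C J j k i q : ℕ} {c : ℕ → St}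
  {ω : ℕ → ℝ} {p : ℕ → (α → ℝ) →ₗ[ℝ] V} {l : ℕ → V →ₗ[ℝ] α → ℝ}
  {U U' : ℕ → Module.End ℝ (α → ℝ)} {S : ℕ → Jv → Jv} {τ : β → Jv}

omit hw in
theorem Tk.ka_r (T : G.Tk w 4 D C M c b J j ω p l U U') (h1 : j ≤ k) :
    G.ka D C (k + 1) ≤ G.Xr C k * G.ka D C k ∧ G.ka D C k ≤ G.Xr C k ^ 2 * G.ka D C (k + 1) := by
  have h := T.ok
  have g := GD.cG1
  obtain ⟨e1, -, e3, -⟩ := (T.e k h1).2.1
  have l0 := h.lH0 D k
  have l1 := h.lH0 D (k + 1)
  have x0 := h.Xr1 C k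
  have x1 := h.Xr1 C (k + 1)
  have a := (h.lH3 D k).trans (mul_le_mul_of_nonneg_right e3 l0.le)
  have a' : G.lH D k ≤ 2 * G.lH D (k + 1) := by rw [h.lHe, h.lHe]; exact h.gL2 k _
  simp only [ka, ← mul_div_assoc]
  refine ⟨by gcongr; exact h.Xrm C k.le_succ, ?_⟩
  rw [div_le_div_iff₀ (by positivity) (by positivity)]
  calc _ ≤ 2 * G.lH D (k + 1) * (2 * cG * G.Xr C k ^ 2) := by gcongr; exact h.Xr2 C k
    _ = G.Xr C k ^ 2 * G.lH D (k + 1) * (2 * cG * 2) := by ring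
    _ ≤ _ := by gcongr; linarith

theorem lw_map {T : Module.End ℝ (α → ℝ)} (h : ∀ a b, w b < w a → T (Pi.single b 1) a = 0)
    (hx : x ∈ Lw w) : T x ∈ Lw w := fun a ha => by
  rw [pi_eq_sum_univ' x, map_sum, Finset.sum_apply]
  refine sum_eq_zero fun b _ => ?_
  by_cases e : w b = 2
  · rw [map_smul, Pi.smul_apply, h a b (by have := hw a; omega), smul_zero]
  · simp [hx b e]

theorem Tk.qv_A (T : G.Tk w 4 D C M c b J j ω p l U U') (h1 : j ≤ k) (h2 : k < J) (hx : x ∈ Lw w) :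
    qv x (G.jA w 4 D C U' k e) = qv ((G.ka D C k / G.ka D C (k + 1) / G.L k ^ 2) • U' k x) e := by
  rw [jA, qv_AS _ hx ((Lw w).smul_mem _ (lw_map hw (T.ld k h1 h2).fU' hx)), LinearMap.smul_apply,
    smul_smul, inv_mul_eq_div]

theorem Tk.pv_A (T : G.Tk w 4 D C M c b J j ω p l U U') (h1 : j ≤ k) (h2 : k < J) (k0 : 0 ≤ κ)
    (he : e ∈ W0 w 4) : (Pv w κ e → Pv w (κ / G.Xr C k ^ 25) (G.jA w 4 D C U' k e)) ∧
      (Pv w κ (G.jA w 4 D C U' k e) → Pv w (κ / G.Xr C k ^ 48) e) := by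
  obtain ⟨r1, r2⟩ := T.ka_r h1
  obtain ⟨-, -, -, c1, c2, c3⟩ := T.ok.cal0 T.t T.tr T.hw T.hd (fun i hi => (T.e i hi).2.1) T.ld h1 h2
  have H := T.ld k h1 h2
  have c4 := (c3 4 e (fg4 hw he)).2
  have c5 := c1 e
  have k1 := T.ok.ka0 D C k
  have k2 := T.ok.ka0 D C (k + 1)
  have x1 := T.ok.Xr1 C k
  have L1 := T.ok.L1 k
  obtain ⟨ρ, hρ⟩ : ∃ ρ, ρ = G.ka D C k / G.ka D C (k + 1) := ⟨_, rfl⟩
  have p0 : 0 < ρ := by rw [hρ]; positivity
  have p1 : 1 ≤ G.Xr C k * ρ := by rwa [hρ, ← mul_div_assoc, one_le_div k2]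
  have p2 : ρ ≤ G.Xr C k ^ 2 := by rwa [hρ, div_le_iff₀ k2]
  have q := fun x => hρ ▸ T.qv_A hw (e := e) (x := x) h1 h2
  have n : ∀ x, ‖(ρ / G.L k ^ 2) • U' k x‖ = ρ / G.L k ^ 2 * ‖U' k x‖ := fun x => by
    rw [norm_smul, Real.norm_of_nonneg (by positivity)]
  rw [Ga] at c5
  generalize G.jA w 4 D C U' k = A at *
  generalize G.Xr C k = X at *
  generalize (G.L k : ℝ) = L at *
  refine ⟨fun h => ⟨c2 e he, fun z => h.2.1 (by simpa [z] using c5), fun x hx => ?_⟩,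
    fun h => ⟨he, fun z => h.2.1 (by rw [z, map_zero]), fun x hx => ?_⟩⟩
  · have a := H.bU (U' k x)
    rw [← Module.End.mul_apply, H.inv, Module.End.one_apply] at a
    rw [q x hx]
    refine le_trans ?_ (h.2.2 _ ((Lw w).smul_mem _ (lw_map hw H.fU' hx)))
    calc _ ≤ κ / X ^ 25 * (X * (X ^ 5 / L) ^ 4 * ‖e‖) * (X * ρ * (X * ‖U' k x‖)) ^ 2 := by
          gcongr
          exact a.trans (le_mul_of_one_le_left (by positivity) p1)
      _ = _ := by rw [n]; field_simp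
  · have a := (Lw w).smul_mem (L ^ 2 / ρ) (lw_map hw H.fU hx)
    have z : (ρ / L ^ 2) • U' k ((L ^ 2 / ρ) • U k x) = x := by
      rw [map_smul, smul_smul, ← Module.End.mul_apply, H.inv', Module.End.one_apply,
        show ρ / L ^ 2 * (L ^ 2 / ρ) = 1 by field_simp, one_smul]
    generalize (L ^ 2 / ρ) • U k x = y at *
    rw [← z, ← q y a, n]
    refine le_trans ?_ (h.2.2 y a)
    calc _ ≤ κ / X ^ 48 * (X ^ (9 * 4 + 6) * L ^ 4 * ‖A e‖) * (X ^ 2 / L ^ 2 * (X * ‖y‖)) ^ 2 := by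
          gcongr
          exact H.bU' y
      _ = _ := by field_simp

namespace Fx

variable (F : G.Fx w 4 D C M c b J j ω p l U U' S i τ) (t : β → ℂ)
include F

theorem pv_1 (h1 : j ≤ k) (h2 : k < i) (k0 : 0 ≤ κ) (n : 8 * M * G.Yr 4 C k ^ 3 ≤ κ * G.L k) :
    (Pv w κ (G.zq w 4 D C J j p (k + 1) (st S τ i (k + 1) t)) →
      Pv w (κ / (4 * G.Yr 4 C k)) (G.zq w 4 D C J j p k (st S τ i k t))) ∧
    (Pv w κ (G.zq w 4 D C J j p k (st S τ i k t)) →
      Pv w (κ / (4 * G.Yr 4 C k)) (G.zq w 4 D C J j p (k + 1) (st S τ i (k + 1) t))) := by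
  obtain ⟨-, a1, a2⟩ := F.fm.cone t h1 h2.le
  obtain ⟨a2, a3⟩ := a2 h2
  have m1 := F.fm.mem _ _ _ a1
  have m2 := F.fm.mem _ _ _ (F.fm.cone t (h1.trans k.le_succ) h2).2.1
  have kJ := h2.trans_le F.iJ
  have i1 := F.fm.inv k (G.zq w 4 D C J j p (k + 1) (st S τ i (k + 1) t)) h1 h2
  have A := fun κ k0 => F.T.pv_A hw (κ := κ) h1 kJ k0 m2
  have m3 := (F.T.ok.cal0 F.T.t F.T.tr F.T.hw F.T.hd (fun i hi => (F.T.e i hi).2.1) F.T.ld h1
    kJ).2.2.2.2.1 _ m2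
  have e1 := (F.T.e k h1).2.2
  have x1 := F.T.ok.Xr1 C k
  have y1 := F.T.ok.Yr1 4 C k
  have y2 : ∀ i ≤ 280, G.Xr C k ^ i ≤ G.Yr 4 C k := fun i => pow_le_pow_right₀ x1
  have L1 := F.T.ok.L1 k
  have M1 := F.fm.M1
  have e2 : G.Yr 4 C k / (G.L k : ℝ) ^ (D + 2) ≤ G.Yr 4 C k / (G.L k : ℝ) ^ 5 :=
    div_le_div_of_nonneg_left (by linarith) (by positivity)
      (pow_le_pow_right₀ (by linarith) (by linarith [F.T.hd]))
  generalize G.zq w 4 D C J j p k _ = u at *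
  generalize G.zq w 4 D C J j p (k + 1) _ = u' at *
  generalize G.Yr 4 C k = Y at *
  generalize (G.L k : ℝ) = L at *
  have y3 : Y ^ 2 ≤ Y ^ 3 := pow_le_pow_right₀ y1 (by norm_num)
  have y4 : 0 < M * Y ^ 2 := by positivity
  refine ⟨fun h => ?_, fun h => ?_⟩
  · rw [mul_comm, ← div_div]
    refine (((A κ k0).1 h).mono (κ' := κ / Y) (by gcongr; exact y2 _ (by norm_num))).pert hw
      (by positivity) m1 (ε := 2 * M * Y ^ 2 / L) (a3.trans ?_) ?_ ?_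
    · calc _ ≤ 2 * M * (Y / L ^ 5) * (Y * L ^ 4 * _) := by gcongr
        _ = _ := by field_simp
    · rw [← mul_div_assoc, div_le_div_iff₀ (by linarith) (by linarith)]
      nlinarith
    · rw [← mul_div_assoc, div_le_one (by linarith)]
      linarith
  · rw [← div_div]
    refine ((A _ (by positivity)).2 (h.pert hw k0 m3 (ε := 4 * M * Y ^ 2 / L)
      ((norm_sub_rev _ _).trans_le (a3.trans ?_)) ?_ ?_)).mono (by gcongr; exact y2 _ (by norm_num))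
    · calc _ ≤ 2 * M * (Y / L ^ 5) * (2 * (Y * L ^ 4) * _) := by gcongr
        _ = _ := by field_simp; ring
    · rw [← mul_div_assoc, div_le_iff₀ (by linarith)]
      nlinarith
    · rw [← mul_div_assoc, div_le_one (by linarith)]
      linarith

omit hw in
theorem pv_n {o r : ℕ} (h1 : k ≤ o) (h2 : o ≤ r) (h3 : r ≤ q) {x y : ℝ} (x0 : 0 ≤ x)
    (n : x * G.Pw 4 C k q ≤ κ * y) : x ≤ κ / G.Pw 4 C o r * y := by
  have a := F.T.ok.Pw1 4 C
  rw [div_mul_eq_mul_div, le_div_iff₀ (by linarith [a o r])]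
  refine le_trans (mul_le_mul_of_nonneg_left ?_ x0) n
  rw [← Ok.Pw_mul h1 (h2.trans h3), ← Ok.Pw_mul h2 h3]
  exact (le_mul_of_one_le_right (by linarith [a o r]) (a r q)).trans
    (le_mul_of_one_le_left (by nlinarith [a o r, a r q]) (a k o))

/-- positivity towards the bottom -/
theorem pv_dn (h1 : j ≤ k) (h2 : k ≤ q) (h3 : q ≤ i) (k0 : 0 ≤ κ)
    (n : ∀ o, k ≤ o → o < q → 8 * M * G.Yr 4 C o ^ 3 * G.Pw 4 C k q ≤ κ * G.L o)
    (h : Pv w κ (G.zq w 4 D C J j p q (st S τ i q t))) :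
    Pv w (κ / G.Pw 4 C k q) (G.zq w 4 D C J j p k (st S τ i k t)) := by
  suffices ∀ o ≤ q, k ≤ o → Pv w (κ / G.Pw 4 C o q) (G.zq w 4 D C J j p o (st S τ i o t)) from
    this k h2 le_rfl
  intro o ho
  induction ho using Nat.decreasingInduction with
  | self => simpa [Pw] using fun _ => h
  | of_succ o ho ih =>
    intro e
    have y := F.T.ok.Yr1 4 C o
    have m := F.fm.M1
    have := (F.pv_1 hw t (h1.trans e) (ho.trans_le h3) (div_nonneg k0 (by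
      linarith [F.T.ok.Pw1 4 C (o + 1) q])) (F.pv_n (by omega) ho le_rfl (by positivity)
        (n o e ho))).1 (ih (by omega))
    rwa [Pw, prod_eq_prod_Ico_succ_bot ho, mul_comm, ← div_div]

/-- positivity towards the top -/
theorem pv_up (h1 : j ≤ k) (h2 : k ≤ q) (h3 : q ≤ i) (k0 : 0 ≤ κ)
    (n : ∀ o, k ≤ o → o < q → 8 * M * G.Yr 4 C o ^ 3 * G.Pw 4 C k q ≤ κ * G.L o)
    (h : Pv w κ (G.zq w 4 D C J j p k (st S τ i k t))) :
    Pv w (κ / G.Pw 4 C k q) (G.zq w 4 D C J j p q (st S τ i q t)) := by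
  suffices ∀ o, k ≤ o → o ≤ q → Pv w (κ / G.Pw 4 C k o) (G.zq w 4 D C J j p o (st S τ i o t)) from
    this q h2 le_rfl
  intro o ho
  induction o, ho using Nat.le_induction with
  | base => simpa [Pw] using fun _ => h
  | succ o ho ih =>
    intro e
    have y := F.T.ok.Yr1 4 C o
    have m := F.fm.M1
    have := (F.pv_1 hw t (h1.trans ho) (by omega) (div_nonneg k0 (by
      linarith [F.T.ok.Pw1 4 C k o])) (F.pv_n le_rfl ho (by omega) (by positivity)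
        (n o ho e))).2 (ih (by omega))
    rwa [Pw, prod_Ico_succ_top ho, ← div_div]

end Fx

end Gl

end Pool.Agent.Lib.MP_7f377f_mp.RG.Q4.En
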