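import Pool.Agent.Lib.MP_7f377f_mp.G.KzL1

/-! Frames made of the letters of a basis of the labels and of null letters. -/

noncomputable section

set_option linter.unusedSectionVars false
variable [Pool.Agent.Lib.MP_7f377f_mp.GD]

namespace Pool.Agent.Lib.MP_7f377f_mp.RG.Tl

open Finset MvPolynomial Wd Q4 Q4.En Ju Jt Submodule
open Zf (Jx)
open Zg (V0 Og r0 fil)

attribute [local irreducible] box lbox sm

variable (𝒜 : Set CM) [Og 𝒜]

/-- labels without constant term -/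
def Vp (d : ℕ) : Submodule ℝ (V0 𝒜) := (fil 𝒜).F d ⊓ LinearMap.ker ((fil 𝒜).π 0)

/-- labels of the dimension `m` and of a definite degree -/
def Hv (m : ℕ) : Set (V0 𝒜) := {c | Zf.Hm c.1 m ∧ ∃ n, c.1.IsHomogeneous (n + 1)}

theorem ex_vs (m : ℕ) : ∃ S ⊆ Hv 𝒜 m, Hv 𝒜 m ⊆ span ℝ S ∧ LinearIndepOn ℝ id S := by
  obtain ⟨S, a, -, b, c⟩ := exists_linearIndepOn_extension (K := ℝ) (v := id) (t := Hv 𝒜 m)
    (linearIndepOn_empty _ _) (Set.empty_subset _)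
  exact ⟨S, a, by simpa using b, c⟩

/-- a homogeneous basis of the labels; `b.m` is the dimension and `b.c` the label -/
structure Vb : Type where
  m : ℕ
  c : V0 𝒜
  mem : c ∈ (ex_vs 𝒜 m).choose

/-- the basis labels of dimension at most `d` -/
abbrev Vd (d : ℕ) : Type := {b : Vb 𝒜 // b.m ≤ d}

/-- the null letters of weight at most `d` -/
abbrev Nd (d : ℕ) : Type := {b : {b : Lb // b.P ∈ Nl} // b.1.m ≤ d}

/-- the index set of the frames -/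
abbrev Bd (d : ℕ) : Type := Vd 𝒜 d ⊕ Nd d

variable {𝒜} {s d n m : ℕ} {L : V0 𝒜 →ₗ[ℝ] Pl} {c : V0 𝒜}

theorem Vb.hv (b : Vb 𝒜) : b.c ∈ Hv 𝒜 b.m := (ex_vs 𝒜 _).choose_spec.1 b.mem

/-- the degree minus one -/
def Vb.dg (b : Vb 𝒜) : ℕ := b.hv.2.choose

theorem Vb.hom (b : Vb 𝒜) : b.c.1.IsHomogeneous (b.dg + 1) := b.hv.2.choose_spec

/-- the letters of the frame -/
def Bd.P (L : V0 𝒜 →ₗ[ℝ] Pl) : Bd 𝒜 d → Pl := Sum.elim (fun b => L b.1.c) fun b => b.1.1.P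

/-- their degrees -/
def Bd.dg : Bd 𝒜 d → ℕ := Sum.elim (fun b => b.1.dg + 1) fun b => b.1.1.dg + 1

/-- their weights -/
def Bd.wt : Bd 𝒜 d → ℕ := Sum.elim (fun b => b.1.m) fun b => b.1.1.m

/-! ### The degree -/

theorem cp_add {σ τ K K' : Type} [Field K] [Field K'] {w : σ → ℕ} {w' : τ → ℕ}
    {F : MvPolynomial σ K →+ MvPolynomial τ K'}
    (h : ∀ n c, c.IsWeightedHomogeneous w n → (F c).IsWeightedHomogeneous w' n) (n : ℕ) (c) :
    F (weightedHomogeneousComponent w n c) = weightedHomogeneousComponent w' n (F c) := by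
  induction c using MvPolynomial.induction_on' with
  | add p q hp hq => simp only [map_add, hp, hq]
  | monomial m a =>
    have e := isWeightedHomogeneous_monomial w m a rfl
    rw [weightedHomogeneousComponent_of_mem e, weightedHomogeneousComponent_of_mem (h _ _ e)]
    split_ifs <;> simp

theorem tO_hom {w : Jx → ℕ} {w' : Oi → ℕ} (e : ∀ I k, w' ⟨I.1, k⟩ = w I) {c : Cp Jx}
    (h : c.IsWeightedHomogeneous (wC w) n) : (tO c).IsWeightedHomogeneous (wC w') n :=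
  hom_alg (fun q => tO_X q ▸ .sum _ _ _ fun k _ => (weightedHomogeneousSubmodule ℂ _ _).smul_mem _
    ((e q.1 k).subst (motive := IsWeightedHomogeneous _ _) (isWeightedHomogeneous_X ℂ _ _))) h

theorem gd_dg (n : ℕ) : Zf.Gd (homogeneousComponent n : Zf.Lb GD.d ℝ →ₗ[ℝ] _) := by
  refine ⟨homogeneousComponent n, fun P Q => ?_, fun c h => ?_, fun c h => and_self_iff.2 ?_⟩
  · induction P using MvPolynomial.induction_on' with
    | add p q hp hq => simp only [map_add, LinearMap.add_apply, hp, hq]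
    | monomial m a =>
      rw [homogeneousComponent_of_mem (isHomogeneous_monomial a rfl), Zf.fis_mon,
        coeff_homogeneousComponent]
      by_cases e : n = m.degree
      · simp [e, Zf.fis_mon]
      · simp [e, Ne.symm e]
  · rw [homogeneousComponent_of_mem (p := c) (n := 2) (Zf.A4_map (L := .id) (fun μ ν =>
      IsHomogeneous.sum _ _ _ fun _ _ => .sum _ _ _ fun _ _ =>
        (isHomogeneous_X _ _).mul (isHomogeneous_X _ _)) h)]
    split_ifs <;> simp [h]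
  · refine cx_nl.1 (tO_nl.1 ((cp_add (F := (tO.toRingHom.comp cx).toAddMonoidHom) (w' := wC 1)
      (fun n c h => tO_hom (w := 1) (fun _ _ => rfl) (IsHomogeneous.map h _)) n c).trans ?_))
    exact (congrArg _ (tO_nl.2 (cx_nl.2 h))).trans (map_zero _)

theorem dg_v0 (n : ℕ) (c : V0 𝒜) : homogeneousComponent n c.1 ∈ V0 𝒜 :=
  Zg.Gd.v0 (gd_dg n) (fun A => cp_add (F := (Zf.ad A).toLinearMap.toAddMonoidHom) (w := 1) (w' := 1)
    (fun _ _ => hom_alg (φ := Zf.ad A) fun p => Zf.ad_X (K := ℝ) A p ▸ .sum _ _ _ fun _ _ =>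
      (weightedHomogeneousSubmodule ℝ _ _).smul_mem _ (isWeightedHomogeneous_X ℝ _ _)) n) _ c.2

/-! ### The basis -/

theorem vb_m (m : ℕ) : LinearIndepOn ℝ (Vb.c (𝒜 := 𝒜)) {b | b.m = m} := by
  have := LinearIndepOn.comp_of_image (s := {b : Vb 𝒜 | b.m = m}) (f := Vb.c)
    ((ex_vs 𝒜 m).choose_spec.2.2.mono (by rintro _ ⟨b, rfl, rfl⟩; exact b.mem)) (by
      rintro ⟨m, P, _⟩ a ⟨m', P', _⟩ b e
      obtain rfl : m = m' := Eq.trans a (Eq.symm b)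
      obtain rfl : P = P' := e
      rfl)
  exact this

theorem Vb.pi (b : Vb 𝒜) (m : ℕ) : (fil 𝒜).π m b.c = if m = b.m then b.c else 0 :=
  Subtype.ext ((b.hv.1.hc_eq m).trans (by split_ifs <;> rfl))

theorem vb_li : LinearIndependent ℝ (Vb.c (𝒜 := 𝒜)) := linearIndependent_iff'.2 fun t g e i hi => by
  refine linearIndepOn_iff'.1 (vb_m i.m) (t.filter (·.m = i.m)) g (fun b hb => (mem_filter.1 hb).2)
    ?_ i (mem_filter.2 ⟨hi, rfl⟩)
  simpa [Vb.pi, sum_filter, eq_comm] using congrArg ((fil 𝒜).π i.m) e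

theorem hv_span (h : c ∈ Hv 𝒜 m) : c ∈ span ℝ (Vb.c '' {b : Vb 𝒜 | b.m = m}) :=
  span_mono (fun c e => Set.mem_image_of_mem Vb.c (x := ⟨m, c, e⟩) rfl)
    ((ex_vs 𝒜 m).choose_spec.2.1 h)

theorem vp_eq (d : ℕ) : Vp 𝒜 d = span ℝ (Set.range fun b : Vd 𝒜 d => b.1.c) := by
  have z : ∀ c : Zf.Lb GD.d ℝ, Zf.hc 0 c = C (coeff 0 c) := fun c =>
    weightedHomogeneousComponent_zero _ (by simp [Zf.wt])
  refine le_antisymm (fun c h => ?_) (span_le.2 ?_)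
  · rw [← (fil 𝒜).π_sum h.1]
    refine sum_mem fun m hm => ?_
    have e : (fil 𝒜).π m c = ∑ n ∈ range (((fil 𝒜).π m c).1.totalDegree + 1),
        (⟨_, dg_v0 n ((fil 𝒜).π m c)⟩ : V0 𝒜) :=
      Subtype.ext ((sum_homogeneousComponent _).symm.trans (by rw [Submodule.coe_sum]))
    rw [e]
    refine sum_mem fun n _ => ?_
    rcases n with _ | n
    · have : coeff 0 c.1 = 0 := C_eq_zero.1 ((z _).symm.trans (congrArg Subtype.val h.2))
      refine (Submodule.mem_bot ℝ).2 (Subtype.ext ?_) |> bot_le (a := span ℝ _)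
      simp [Zg.π_val, coeff_weightedHomogeneousComponent, this]
    · refine span_mono ?_ (hv_span (m := m) ⟨fun γ hγ => Zf.hc_hm m c.1 fun e => hγ ?_, n,
        homogeneousComponent_isHomogeneous _ _⟩)
      · rintro _ ⟨b, rfl, rfl⟩
        exact ⟨⟨b, Nat.lt_succ_iff.1 (mem_range.1 hm)⟩, rfl⟩
      · rw [coeff_homogeneousComponent, Zg.π_val, e, ite_self]
  · rintro _ ⟨b, rfl⟩
    exact ⟨(fil 𝒜).mono b.2 b.1.hv.1.mem, Subtype.ext ((z _).trans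
      (C_eq_zero.2 (b.1.hom.coeff_eq_zero (by simp))))⟩

instance (d : ℕ) : Fintype (Vd 𝒜 d) :=
  have : Finite (Vd 𝒜 d) := by
    have := (fil 𝒜).fin d
    exact LinearIndependent.finite (R := ℝ)
      (f := fun b : Vd 𝒜 d => (⟨b.1.c, (fil 𝒜).mono b.2 b.1.hv.1.mem⟩ : (fil 𝒜).F d))
      (.of_comp ((fil 𝒜).F d).subtype (vb_li.comp _ Subtype.val_injective))
  .ofFinite _

instance (d : ℕ) : Fintype (Nd d) :=
  have : Finite (Nd d) := .of_injective (fun b => (⟨b.1.1, b.2⟩ : Ld d)) fun _ _ e =>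
    Subtype.ext (Subtype.ext (congrArg (·.1) e))
  .ofFinite _

variable (𝒜) in
/-- the basis of the labels without constant term -/
def bV (d : ℕ) : Module.Basis (Vd 𝒜 d) ℝ (Vp 𝒜 d) :=
  (Module.Basis.span (vb_li.comp _ Subtype.val_injective)).map (.ofEq _ _ (vp_eq d).symm)

theorem bV_ap (b : Vd 𝒜 d) : (bV 𝒜 d b).1 = b.1.c := by simp [bV]

theorem Bd.dgl (b : Nd d) : Bd.P L (.inr b) ∈ Nl := b.1.2

variable [Adj 𝒜]

theorem Rz.gl (h : Rz L) (b : Bd 𝒜 d) :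
    Iv (b.P L) ∧ Rl (b.P L) ∧ 1 ≤ b.dg ∧ (b.P L).IsHomogeneous b.dg := by
  rcases b with b | b
  exacts [⟨(h.gm _).1, (h.gm _).2.1, Nat.succ_pos _, (h.gm _).2.2 _ b.1.hom⟩,
    ⟨b.1.1.gl.1, b.1.1.gl.2.1, Nat.succ_pos _, b.1.1.hom⟩]

theorem Rz.lo (h : Rz L) (hs : 2 ≤ s) (hd : d ≤ s + 2) (b : Bd 𝒜 d) :
    sm (s0 s) (b.P L) ∈ Lo wt b.wt := by
  rcases b with b | b
  exacts [h.low _ _ _ hs b.1.hv.1, (fr hs hd).low _ b.2]

theorem Bd.le (b : Bd 𝒜 d) : b.wt ≤ d := by rcases b with b | b <;> exact b.2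

theorem li_cx {ι κ : Type} {v : ι → Cp κ} (h : LinearIndependent ℝ v) (r : ∀ i, Rl (v i)) :
    LinearIndependent ℂ v := by
  have k : ∀ (t : Finset ι) (g : ι → ℂ), ∑ i ∈ t, g i • v i = 0 → ∀ i ∈ t, (g i).re = 0 :=
    fun t g e i hi => by
      have e' := congrArg (MvPolynomial.map (starRingEnd ℂ)) e
      simp only [map_sum, cj_smul, show ∀ i, MvPolynomial.map _ (v i) = _ from r, map_zero] at e'
      have := linearIndependent_iff'.1 h t (fun i => 2 * (g i).re) (by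
        simpa only [← sum_add_distrib, ← add_smul, Complex.add_conj, Complex.coe_smul, add_zero]
          using congrArg₂ (· + ·) e e') i hi
      linarith
  refine linearIndependent_iff'.2 fun t g e i hi => Complex.ext (k t g e i hi) ?_
  simpa using k t (fun i => Complex.I * g i) (by simp only [mul_smul, ← smul_sum, e, smul_zero]) i hi

theorem rl_tO (c : Zf.Lb GD.d ℝ) : Rl (tO (cx c)) := by
  induction c using MvPolynomial.induction_on <;>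
    simp_all [Rl, tO_X, cj_smul, -Complex.coe_smul]

variable (𝒜) in
/-- the polynomial on shell -/
def tR : V0 𝒜 →ₗ[ℝ] Cp Oi where
  toFun c := tO (cx c.1)
  map_add' _ _ := by simp
  map_smul' t c := by
    simp only [SetLike.val_smul, smul_eq_C_mul, map_mul, map_C, RingHom.id_apply, algHom_C,
      algebraMap_eq]
    exact (Algebra.smul_def t _).symm

theorem vb_tO : LinearIndependent ℂ fun b : Vb 𝒜 => tO (cx b.c.1) :=
  li_cx (vb_li.map' (tR 𝒜) (LinearMap.ker_eq_bot'.2 fun _ e => Zg.v0_null (cx_nl.1 (tO_nl.1 e))))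
    fun _ => rl_tO _

theorem li_sum {ι κ M N : Type} [AddCommGroup M] [Module ℂ M] [AddCommGroup N] [Module ℂ N]
    (f : M →ₗ[ℂ] N) {v : ι ⊕ κ → M} {p : ι ⊕ κ → Prop}
    (h1 : LinearIndepOn ℂ (fun a => f (v (.inl a))) {a | p (.inl a)})
    (h2 : LinearIndepOn ℂ (fun b => v (.inr b)) {b | p (.inr b)})
    (h3 : ∀ b, p (.inr b) → f (v (.inr b)) = 0) : LinearIndepOn ℂ v {x | p x} :=
  (linearIndependent_equiv (Equiv.subtypeSum (p := p)).symm).1 (linearIndependent_sum.2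
    ⟨.of_comp f h1, h2, (range_ker_disjoint h1).mono_right (span_le.2 (by
      rintro _ ⟨b, rfl⟩; exact h3 _ b.2))⟩)

theorem bs (hm : m ≤ s + 2) (hs : 2 ≤ s) : Bs wt (s0 s) (cA s) m (bS m) :=
  (emb (by omega) (by omega) (by omega)).bs (bS_spec m)

theorem tO_toL (hs : 2 ≤ s) (P : Cp (Ia s)) : tO (toL ℂ GD.d s P) = rO s P := by
  refine AlgHom.congr_fun (φ₁ := tO.comp (toL ℂ GD.d s)) (algHom_ext fun ⟨b, a⟩ => ?_) P
  have e : ∀ k, ∑ I, (Jt.du b I : ℂ) * (jI ⟨dI b, I⟩ (eo (dI b) k) : ℝ) = (Pi.single (.inl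
      ⟨⟨dI b, Nat.lt_succ_of_le (dI_le hs b)⟩, k⟩) 1 : Ia s → ℝ) b := fun k => by
    rw [← du_spec hs b (Pi.single _ _), Complex.ofReal_sum]
    refine sum_congr rfl fun I _ => ?_
    rw [Complex.ofReal_mul, fq_jx]
    simp [jm, md_ap, p0_ap, pT_ap, rl, rr, LinearMap.funLeft_apply, Pi.single_apply]
  simp only [AlgHom.comp_apply, toL_X, map_sum, map_smul, tO_X, smul_sum, smul_smul]
  refine (sum_comm (t := (univ : Finset (Fin (don (dI b))))) (f := fun I k => (Jt.du b I *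
    (jI ⟨dI b, I⟩ (eo (dI b) k) : ℝ) : ℂ) • (X (⟨dI b, k⟩, a) : Cp Oi))).trans ?_
  simp only [← sum_smul, e]
  rcases b with ⟨i, k⟩ | k <;> simp [rO, Pi.single_apply, dI, apply_ite]

theorem iv_toL {P : Cp (Ia s)} (h : Iv P) : Iv (toL ℂ GD.d s P) := fun g ξ => by
  have e : ∀ ξ : Jx → C3, vl ξ (toL ℂ GD.d s P) =
      vl (fun b => ∑ I, (Jt.du b I : ℂ) • ξ ⟨dI b, I⟩) P := fun ξ => by
    simp [vl, ev_alg (toL ℂ GD.d s), toL_X, smul_eval, -Complex.coe_smul]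
  simp only [e, ← adq_smul, ← adq_sum, h g]

theorem ex_lab (hs : 2 ≤ s) {Y : Cp (Ia s)} (h1 : Iv Y) (h2 : Rl Y) (h3 : Y.IsHomogeneous (n + 1))
    (h4 : Y.IsWeightedHomogeneous (wC wt) m) : ∃ c ∈ Hv 𝒜 m, tO (cx c.1) = rO s Y := by
  obtain ⟨Z, rfl⟩ : Y ∈ Set.range (MvPolynomial.map (algebraMap ℝ ℂ)) :=
    mem_range_map_iff_coeffs_subset.2 fun t ht => by
      obtain ⟨γ, -, rfl⟩ := mem_coeffs_iff.1 ht
      exact ⟨_, Complex.conj_eq_iff_re.1 ((coeff_map ..).symm.trans (congrArg (coeff γ) h2))⟩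
  have e := toL_map (algebraMap ℝ ℂ) (fun _ => rfl) Z
  have k : ∀ {w : Ia s × Fin GD.d → ℕ} {j}, (map (algebraMap ℝ ℂ) Z).IsWeightedHomogeneous w j →
      Z.IsWeightedHomogeneous w j := fun h γ hγ => h (by simpa [coeff_map] using hγ)
  refine ⟨Zg.p0 𝒜 ⟨toL ℝ GD.d s Z, iv_cx.1 (e ▸ iv_toL h1)⟩, ⟨?_, n, ?_⟩, ?_⟩
  · change Zf.Hm (Zf.pj (toL ℝ GD.d s Z)) m
    rw [← weightedHomogeneousComponent_eq_self (toL_hom (k h4)), Zf.pj_hc]
    exact Zf.hc_hm _ _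
  · change (Zf.pj (toL ℝ GD.d s Z)).IsHomogeneous _
    rw [← homogeneousComponent_eq_self (toL_deg (k h3)), (gd_dg _).pj]
    exact homogeneousComponent_isHomogeneous _ _
  · have := tO_nl.2 (cx_nl.2 (Zf.sub_pj (toL ℝ GD.d s Z)))
    rw [map_sub, map_sub, sub_eq_zero, ← e, tO_toL hs] at this
    exact this.symm

theorem Rz.fr (h : Rz L) (hs : 2 ≤ s) (hd : d ≤ s + 2) :
    Fr wt (s0 s) (cA s) d (Bd.wt (𝒜 := 𝒜) (d := d)) (Bd.P L) := by
  have l := fun b (_ : Bd.wt b ≤ d) => h.lo hs hd b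
  have i : ∀ Q, Iv Q → ∀ j, cp (wC wt) j (sm (s0 s) Q) ∈ Is _ := fun Q q j => q.sm.cp _ _
  refine ⟨l, tri_ind l fun j hj => li_sum (rO s).toLinearMap ?_ ?_ fun b _ =>
    zr_iff.1 (((clc hs).zer b.1.2).cp _ _), fun Q q z => ?_, fun _ => (clc hs).zer, fun Q q z =>
      span_mono ?_ ((Tl.fr hs hd).nul Q q z)⟩
  · refine ((vb_tO.comp _ Subtype.val_injective).linearIndepOn _).congr fun b (e : b.1.m = j) => ?_
    exact (h.lead _ _ _ hs (hj.trans hd) (e ▸ b.1.hv.1)).symm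
  · have := LinearIndepOn.comp_of_image (s := {b : Nd d | b.1.1.m = j}) (f := fun b => b.1.1.P)
      ((bs (hj.trans hd) hs).ind.mono (by rintro _ ⟨b, rfl, rfl⟩; exact b.1.1.mem)) (by
        rintro ⟨⟨⟨m, P, _⟩, _⟩, _⟩ a ⟨⟨⟨m', P', _⟩, _⟩, _⟩ b e
        obtain rfl : m = m' := Eq.trans a (Eq.symm b)
        obtain rfl : P = P' := e
        rfl)
    exact this
  · have := tri_span (B := Set.univ) (iz_cp wt Set.univ) (fun b _ => ⟨(h.gl b).1.sm, zr_univ.2 (by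
      obtain ⟨-, -, a, b⟩ := h.gl b
      obtain ⟨n, e⟩ := Nat.exists_eq_add_of_le' a
      exact hom_zero (hom_sm (e ▸ b)))⟩) l (fun j hj P q1 q2 =>
        dec q1.1 q2 q1.2 fun Y n y1 y2 y3 y4 _ => ?_) ⟨(mem_iv.1 q).2, zr_univ.2 z⟩ (mem_iv.1 q).1
    · exact span_mono (Set.image_mono fun b hb => hb.1) this
    obtain ⟨c, c1, c2⟩ := ex_lab (𝒜 := 𝒜) hs y1 y2 y3 y4
    rw [← sub_add_cancel Y (cp (wC wt) j (sm (s0 s) (L c)))]
    refine add_mem (span_mono ?_ ((bs (hj.trans hd) hs).nul _ (Submodule.sub_mem (Is _) y1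
      (i _ (h.gm c).1 j)) ((weightedHomogeneousSubmodule ℂ (wC wt) j).sub_mem y4
        (weightedHomogeneousComponent_mem ..)) (zr_iff.2 ?_))) ?_
    · rintro _ ⟨P, p, rfl⟩
      exact ⟨.inr ⟨⟨⟨j, P, p.1⟩, p.2⟩, hj⟩, ⟨rfl, trivial⟩, rfl⟩
    · rw [map_sub, h.lead _ _ _ hs (hj.trans hd) c1.1, c2, sub_self]
    · refine span_induction (fun _ ⟨b, e, k⟩ => subset_span ⟨.inl ⟨b, e.trans_le hj⟩, ⟨e, trivial⟩,
        by rw [← k]; rfl⟩) (by simp) (fun _ _ _ _ a b => by simpa using add_mem a b)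
        (fun t _ _ a => ?_) (hv_span c1)
      rw [map_smul, ← Complex.coe_smul, map_smul, map_smul]
      exact smul_mem _ _ a
  · rintro _ ⟨b, q, rfl⟩
    exact ⟨.inr ⟨⟨b, q.2⟩, q.1⟩, ⟨q.1, q.2⟩, rfl⟩

/-- the frames of finitely many maps have common constants -/
theorem fraF {ι : Type} [Finite ι] {L : ι → V0 𝒜 →ₗ[ℝ] Pl} (h : ∀ i, Rz (L i)) (hs : 2 ≤ s) :
    ∃ R δ C, ∀ d ≤ s + 2, ∀ i, Fra wt d (s0 s) R δ C Bd.dg (fun b : Bd 𝒜 d => lq (b.P (L i)))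
      fun b => sm (s0 s) (b.P (L i)) := by
  obtain ⟨R, δ, d0, C, C1, H⟩ := ex_top (β := ι × Σ d : Fin (s + 3), Bd 𝒜 d)
    (fun b => ((h b.1).gl b.2.2).1) fun b => ((h b.1).gl b.2.2).2.2.2
  refine ⟨R, δ, C, fun d hd i => ?_⟩
  have F := (h i).fr hs hd
  have g := fun b : Bd 𝒜 d => (h i).gl b
  refine ⟨d0, by linarith, fun b => ⟨⟨(g b).2.2.1, hom_sm (g b).2.2.2, _,
    H (i, ⟨⟨d, by omega⟩, b⟩), fun c => (eval_sm c _).symm⟩, F.deg (clc hs).hw b.le (g b).2.2.2⟩,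
    F.li.comp (fun b => ⟨b, b.le⟩) fun _ _ e => congrArg (·.1) e,
    le_antisymm (span_le.2 ?_) fun e he => span_mono (Set.image_subset_range ..)
      (mem_mk (F.spn _ (mem_W0.1 he).1 (mem_W0.1 he).2))⟩
  rintro _ ⟨b, rfl⟩
  obtain ⟨n, e⟩ := Nat.exists_eq_add_of_le' (g b).2.2.1
  exact mk_mem (g b).1 (e ▸ (g b).2.2.2)

/-- the frame -/
theorem Rz.fra (h : Rz L) (hs : 2 ≤ s) : ∃ R δ C, ∀ d ≤ s + 2, Fra wt d (s0 s) R δ C Bd.dg
    (fun b : Bd 𝒜 d => lq (b.P L)) fun b => sm (s0 s) (b.P L) :=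
  let ⟨R, δ, C, H⟩ := fraF (fun _ : Unit => h) hs
  ⟨R, δ, C, fun d hd => H d hd ()⟩

/-- the same constants for both runs -/
theorem fra2 (hs : 2 ≤ s) : ∃ R δ C, ∀ d ≤ s + 2, ∀ L ∈ ({ls 𝒜, lE 𝒜} : Set _),
    Fra wt d (s0 s) R δ C Bd.dg (fun b : Bd 𝒜 d => lq (b.P L)) fun b => sm (s0 s) (b.P L) :=
  let ⟨R, δ, C, H⟩ := fraF (L := fun i : ({ls 𝒜, lE 𝒜} : Set _) => i.1)
    (by rintro ⟨_, rfl | rfl⟩; exacts [rz_ls, rz_lE]) hs
  ⟨R, δ, C, fun d hd L hL => H d hd ⟨L, hL⟩⟩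

/-- the null symbols are the symbols of the null letters -/
theorem nul_iff (hs : 2 ≤ s) (hd : d ≤ s + 2) {e : SyC wt d} (he : e ∈ W0 wt d) :
    Zr (cA s) e.val ↔
      e ∈ span ℂ (Set.range fun b : Nd d => Sy.mk (wC wt) d (sm (s0 s) b.1.1.P)) := by
  refine (fra_nul hs hd he).trans (iff_of_eq (congrArg (e ∈ span ℂ ·) ?_))
  exact Set.ext fun _ => ⟨fun ⟨b, q, k⟩ => ⟨⟨⟨b.1, q⟩, b.2⟩, k⟩, fun ⟨b, k⟩ =>
    ⟨⟨b.1.1, b.2⟩, b.1.2, k⟩⟩

end Pool.Agent.Lib.MP_7f377f_mp.RG.Tl
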