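import Pool.Agent.Lib.MP_7f377f_mp.G.KsC
import Pool.Agent.Lib.MP_7f377f_mp.G.KzL2
import Pool.Agent.Lib.MP_7f377f_mp.G.ZhK

/-! Labels of dimension four and their symbols. -/

noncomputable section

set_option linter.unusedSectionVars false
variable [Pool.Agent.Lib.MP_7f377f_mp.GD]

namespace Pool.Agent.Lib.MP_7f377f_mp.RG.Q4.En

open Finset Filter Topology Tl MvPolynomial Ju Matrix
open Zg (V0 Og fil u0 l0)
open Jt (Ia)

attribute [local irreducible] box lbox sm Jt.sec Jt.eo Lo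

variable {𝒜 : Set CM} [Og 𝒜]

/-- labels which are minimal at the zero field -/
def Pn (c : V0 𝒜) : Prop := ∀ F : Matrix (Fin 4) (Fin 4) ℝ, Fᵀ = -F → Zg.ev 0 c ≤ Zg.ev F c

/-- letters with a positive definite quadratic part -/
def Dp (X : Wd.Let) : Prop := ∃ κ > (0 : ℝ), ∀ a μ ν, κ * dd a 0 μ ν ^ 2 ≤ (Wd.sig X a a).re

/-- the symbol of weight four of a label -/
def sy0 (s : ℕ) : V0 𝒜 →ₗ[ℝ] SyC (Jt.wt (s := s)) 4 :=
  (Sy.mk (wC Jt.wt) 4 ∘ₗ (sm (s0 s)).toLinearMap).restrictScalars ℝ ∘ₗ lE 𝒜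

/-- the constant field with the coordinates `x` -/
def Fc (s : ℕ) (x : Ia s → ℝ) : Matrix (Fin 4) (Fin 4) ℝ := fun μ ν => Jt.jm s ⟨0, ![μ, ν]⟩ x

/-- the symbol of a bilinear letter -/
def eX {α : Type} [Fintype α] [DecidableEq α] (p : (α → ℝ) →ₗ[ℝ] V) (Y : Wd.Let) : Cp α :=
  ∑ b ∈ Y.support, Y b • sm (shL b.2.1 ∘ₗ p) (∑ k, X (b.2.2.1, k) * X (b.2.2.2, k))

variable {c : V0 𝒜} {r : ℝ} {s : ℕ} {x : Ia s → ℝ}

theorem Pn.lin (h : Pn c) (r0 : 0 ≤ r) (a : ℝ) : Pn (r • c + a • u0 𝒜) := fun F e => by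
  simpa [Zg.ev_u0] using mul_le_mul_of_nonneg_left (h F e) r0

theorem sy0_ap (s : ℕ) (c : V0 𝒜) : sy0 s c = Sy.mk (wC Jt.wt) 4 (sm (s0 s) (lE 𝒜 c)) := rfl

theorem wt2 (a : Ia s) : 2 ≤ Jt.wt a := Nat.le_add_right ..

theorem lw_iff : x ∈ Lw Jt.wt ↔ ∀ a, Jt.dI a ≠ 0 → x a = 0 :=
  forall_congr' fun a => imp_congr_left (by unfold Jt.wt; omega)

theorem hm4 (h : c ∈ Vp 𝒜 4) : Zf.Hm c.1 4 ∧ c.1.IsHomogeneous 2 := by
  obtain ⟨a, w, k⟩ := Zg.cl0 c.2.1 h.1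
  have z : C (coeff 0 c.1) = 0 := (weightedHomogeneousComponent_zero _ (by simp [Zf.wt])).symm.trans
    (congrArg Subtype.val h.2)
  have a0 : a = 0 := by simpa [k, Zf.qd, coeff_sum, ← constantCoeff_eq] using z
  have (v : _ → ℕ) (n) (e : ∀ I a, v (⟨0, I⟩, a) = n) : c.1.IsWeightedHomogeneous v (n + n) := by
    rw [k, a0, map_zero, zero_add]
    exact .sum _ _ _ fun I _ => .sum _ _ _ fun J _ => (weightedHomogeneousSubmodule ℝ v _).smul_mem _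
      (IsWeightedHomogeneous.sum _ _ _ fun a _ => (e I a ▸ isWeightedHomogeneous_X ℝ v _).mul
        (e J a ▸ isWeightedHomogeneous_X ℝ v _))
  exact ⟨this _ 2 fun _ _ => rfl, this _ 1 fun _ _ => rfl⟩

theorem jm_lw (hx : x ∈ Lw Jt.wt) {I : Zf.Jx} (h : I.1 ≠ 0) : Jt.jm s I x = 0 := by
  rw [Jt.jm_sum]
  refine sum_eq_zero fun b _ => ?_
  by_cases e : Jt.dI b = 0
  · rw [Jt.jm_gr b (e ▸ h), zero_mul]
  · rw [lw_iff.1 hx b e, mul_zero]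

theorem Fc_eq (hs : 2 ≤ s) (hx : x ∈ Lw Jt.wt) (μ ν) : Fc s x μ ν = dd (s0 s x) 0 μ ν := by
  obtain ⟨_, ht⟩ := Jt.sc_zero 1 s (Jt.K0_ge s)
  refine Eq.trans ?_ (show Jt.jx ⟨0, ![μ, ν]⟩ (s0 s x) = _ by simp [Jt.jx_ap, Jt.wd])
  rw [Fc, pi_eq_sum_univ' x, map_sum, map_sum, map_sum]
  refine sum_congr rfl fun b _ => ?_
  by_cases e : Jt.dI b = 0
  · have := lv0.jx_sec (I := ⟨0, ![μ, ν]⟩) ht hs b e.le
    rw [mul_zero, mul_zero, abs_nonpos_iff, sub_eq_zero] at this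
    simp only [map_smul, this]
  · simp [lw_iff.1 hx b e]

theorem Fc_sur (hs : 2 ≤ s) {F : Matrix (Fin 4) (Fin 4) ℝ} (h : Fᵀ = -F) :
    ∃ x ∈ Lw Jt.wt, Fc s x = F := by
  obtain ⟨A, hA⟩ : ∃ A, A = Jt.nw 2 fun m l => ∑ μ, if m = Jt.ei μ then F μ l / 2 else 0 := ⟨_, rfl⟩
  have m : A ∈ Jt.Pd 2 := hA ▸ Jt.nw_mem _ _
  obtain ⟨x, -, e⟩ := Jt.on_jm (Jt.jx_on (d := 1) (A := fun _ _ => A) fun _ _ =>
    Jt.Pd_zero (Jt.M0_Pd m)) s
  refine ⟨x 0, lw_iff.2 fun a ha => ?_, funext₂ fun μ ν => ?_⟩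
  · rw [← Jt.du_spec hs a (x 0)]
    refine sum_eq_zero fun I _ => ?_
    rw [← e (⟨_, I⟩, 0) (Jt.dI_le hs a), Jt.jx_cj, Jt.cj_Pd m (Nat.pos_of_ne_zero ha)]
    simp
  · have i : ∀ μ ν : Fin 4, Jt.ei μ = Jt.ei ν ↔ μ = ν := fun μ ν =>
      ⟨fun q => by simpa [Jt.ei_apply] using congrFun q μ, congrArg _⟩
    have := congrFun₂ h μ ν
    rw [Fc, ← e (⟨0, _⟩, 0) s.zero_le, Jt.jx_ap, Jt.dd_Dm, hA]
    simp [Jt.jet_nw, Jt.wd, i] at this ⊢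
    linarith

theorem am_as (x : Fin 6 → ℝ) : (Zg.am x)ᵀ = -Zg.am x := by
  ext i j; fin_cases i <;> fin_cases j <;> simp [Zg.am]

theorem wt_ex (hs : 2 ≤ s) : ∃ a : Ia s, Jt.wt a = 2 := by
  obtain ⟨x, h, e⟩ := Fc_sur hs (am_as 1)
  by_contra! z
  simpa [Fc, show x = 0 from funext fun a => h a (z a), Zg.am] using congrFun₂ e 0 1

theorem Fc_bd (hs : 2 ≤ s) : ∃ B > (0 : ℝ), ∀ x ∈ Lw Jt.wt, ∀ y, (∀ μ ν, Fc s x μ ν ^ 2 ≤ y) →
    ‖x‖ ^ 2 ≤ B * y := by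
  refine ⟨(1 + ∑ b : Ia s, ∑ I, |Jt.du b I|) ^ 2, by positivity, fun x hx y h => ?_⟩
  have y0 := (sq_nonneg _).trans (h 0 0)
  rw [← Real.sq_sqrt y0, ← mul_pow]
  refine pow_le_pow_left₀ (norm_nonneg _) ((pi_norm_le_iff_of_nonneg (by positivity)).2 fun b => ?_) 2
  rw [← Jt.du_spec hs b x]
  refine (abs_sum_le_sum_abs _ _).trans ((sum_le_sum (g := fun I => |Jt.du b I| * √y)
    fun I _ => ?_).trans ?_)
  · rw [abs_mul]
    gcongr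
    by_cases e : Jt.dI b = 0
    · generalize Jt.dI b = n at *
      subst e
      exact Real.abs_le_sqrt (by
        rw [show I = ![I 0, I 1] by ext i; fin_cases i <;> rfl]; exact h _ _)
    · simp [jm_lw hx (I := ⟨_, I⟩) e]
  · rw [← sum_mul]
    gcongr
    exact le_add_of_nonneg_of_le zero_le_one (single_le_sum (f := fun b => ∑ I, |Jt.du b I|)
      (fun _ _ => by positivity) (mem_univ b))

section
variable {α : Type} [Fintype α] [DecidableEq α] {w : α → ℕ} {p : (α → ℝ) →ₗ[ℝ] V} {Y : Wd.Let}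

theorem qv_ap {d : ℕ} (x : α → ℝ) (e : SyC w d) : qv x e = (eval (s1 x) e.val).re := rfl

theorem ev_tc {P : Cp α} (h : P.IsHomogeneous 2) {z : Cr α} (hz : ∀ q, w q.1 ≠ 2 → z q = 0) :
    eval z (tc (wC w) 4 P) = eval z P := by
  rw [← sub_eq_zero, ← map_sub, eval_eq]
  refine sum_eq_zero fun γ hγ => ?_
  rw [mem_support_iff, coeff_sub, coeff_tc] at hγ
  split_ifs at hγ with k
  · simp at hγ
  obtain ⟨q, a, b⟩ : ∃ q ∈ γ.support, w q.1 ≠ 2 := by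
    by_contra! u
    have := h (show coeff γ P ≠ 0 by simpa using hγ)
    simp only [Finsupp.weight_apply, Finsupp.sum, wC, smul_eq_mul] at k this
    rw [sum_congr rfl fun q hq => by rw [u q hq], ← sum_mul] at k
    simp only [Pi.one_apply, mul_one] at this
    omega
  rw [prod_eq_zero a (by rw [hz q b, zero_pow (Finsupp.mem_support_iff.1 a)]), mul_zero]

theorem eX_ev (c : Cr α) : eval c (eX p Y) = Wd.qd Y (emF p c) := by
  simp only [eX, map_sum, smul_eval, map_mul, eval_sm, Wd.qd, dot]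
  refine sum_congr rfl fun b _ => congrArg _ (sum_congr rfl fun k _ => ?_)
  have e (w : Wd.Lp) : pa (X (w, k)) (emF (shL b.2.1 ∘ₗ p) c) = Wd.fx (emF p c) b.2.1 w.1 k := by
    rw [pa_ap, vl_X, Tl.av, show emF (shL b.2.1 ∘ₗ p) c = sh b.2.1 (emF p c) from rfl, Wd.fx_sh, zero_add]
  rw [e, e]

theorem eX_hom : (eX p Y).IsHomogeneous 2 := .sum _ _ _ fun _ _ =>
  (homogeneousSubmodule _ ℂ 2).smul_mem _ (hom_sm (.sum _ _ _ fun _ _ =>
    (isHomogeneous_X _ _).mul (isHomogeneous_X _ _)))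

theorem eX_mem (d : ℕ) : Sy.mk (wC w) d (eX p Y) ∈ W0 w d := by
  rw [eX, map_sum]
  refine sum_mem fun b _ => ?_
  rw [map_smul]
  refine Submodule.smul_mem _ _ (mk_mem (n := 1) (fun g ξ => ?_) (.sum _ _ _ fun _ _ =>
    (isHomogeneous_X _ _).mul (isHomogeneous_X _ _)))
  simpa only [vl_sum, vl_mul, vl_X, dot] using dot_adq_adq (uni_cS g) (ξ b.2.2.1) (ξ b.2.2.2)

theorem eX_lsy (Y : Wd.Let) {R : ℕ} (h : Wd.Rad R Y) :
    ∃ δ > 0, ∃ K, Lsy p R 2 δ K (Wd.evG Y, Wd.lx Y) (eX p Y) :=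
  let ⟨δ, d0, K, H⟩ := top_let h
  ⟨δ, d0, K, one_le_two, eX_hom, _, H, fun c => (eX_ev c).symm⟩

theorem qv_eX {x : α → ℝ} (hx : x ∈ Lw w) :
    qv x (Sy.mk (wC w) 4 (eX p Y)) = (Wd.sig Y (p x) (p x)).re := by
  rw [qv_ap, Sy.val_mk, ev_tc eX_hom fun q hq => by simp [s1, hx _ hq], eX_ev, ← Wd.qf_qd _ (emF_real p fun q => by
    unfold s1; split_ifs <;> rfl), qf, sum_eq_single ⟨0, by linarith [GD.d3]⟩ (fun k _ hk => by
      rw [show reF (emF p (s1 x)) k = 0 from funext fun e => by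
        have : k.1 ≠ 0 := fun z => hk (Fin.ext z)
        simp [reF, emF, cz_ap, cur, s1, this, ← Pi.zero_def]]
      simp) (by simp), show reF (emF p (s1 x)) ⟨0, _⟩ = p x from funext fun e => by
        simp [reF, emF, cz_ap, cur, s1, ← Pi.zero_def]]

end

theorem nd4e : IsEmpty (Nd 4) := ⟨fun b => by
  obtain ⟨_, _, _, F⟩ := fra (s := 2) (d := 4) le_rfl le_rfl
  refine F.li.ne_zero ⟨b.1.1, b.2⟩ (Sy.inj (MvPolynomial.funext fun z => ?_))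
  rw [ev_lw wt2 (mk_mem b.1.1.gl.1 b.1.1.hom), map_zero, map_zero]
  refine mk_nl (clc le_rfl) b.1.1.gl.1 b.1.2 _ ?_
  rintro _ ⟨k, rfl⟩ _
  exact if_neg (by simp [Jt.wt, Jt.dI])⟩

variable [Adj 𝒜]

theorem sy0_mem (h : c ∈ Vp 𝒜 4) : sy0 s c ∈ W0 Jt.wt 4 :=
  mk_mem (n := 1) (gm_lE c).1 ((gm_lE c).2.2 _ (hm4 h).2)

theorem qv_sy0 (hs : 2 ≤ s) (h : c ∈ Vp 𝒜 4) (hx : x ∈ Lw Jt.wt) :
    qv x (sy0 s c) = Zg.ev (Fc s x) c := by
  have h4 := (hm4 h).1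
  have e1 : (sy0 s c).val = cp (wC Jt.wt) 4 (sm (s0 s) (lE 𝒜 c)) := by
    rw [sy0_ap, Sy.val_mk, tc, LinearMap.sum_apply, sum_range_succ, sum_eq_zero fun m hm =>
      mem_Lo.1 (rz_lE.low s 4 c hs h4) m (mem_range.1 hm), zero_add]
  have e2 := tO_nl.2 (Jt.toL_toS (c := Tl.cx c.1) hs fun p hp => by
    obtain ⟨γ, a, b⟩ := (mem_vars _).1 hp
    have := hm_cx h4 (mem_support_iff.1 a) ▸
      Finsupp.le_weight_of_ne_zero' Zf.wt (Finsupp.mem_support_iff.1 b)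
    simp only [Zf.wt] at this
    omega)
  rw [map_sub, tO_toL hs, ← rz_lE.lead s 4 c hs (by omega) h4, ← map_sub] at e2
  have e3 := zr_iff.2 e2 (s1 x) (by
    rintro _ ⟨k, rfl⟩ _
    simp [s1, lw_iff.1 hx (.inr k) (by simp [Jt.dI])])
  rw [map_sub, sub_eq_zero, ← e1] at e3
  have e4 := (Jt.eval_toS' (fun a => if a.1 = 0 then x else 0) _).trans (ev_cx _ c.1)
  rw [qv_ap, ← e3, show s1 x = _ from ?_, e4, Complex.ofReal_re, Zg.ev_val]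
  swap
  · funext q
    unfold s1
    split_ifs <;> simp
  refine congrArg (eval · _) (funext fun ⟨⟨n, I⟩, a⟩ => ?_)
  by_cases u : a.1 = 0
  · rcases n with _ | n
    · simp only [Zg.xi, u, if_true, and_self, Fc]
      congr 2
    · simp [Zg.xi, u, jm_lw hx]
  · simp [Zg.xi, u]

end Pool.Agent.Lib.MP_7f377f_mp.RG.Q4.En
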