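import Pool.Agent.Lib.MP_7f377f_mp.G.KsA

/-! Positive symbols along many almost conformal steps. -/

noncomputable section

set_option linter.unusedSectionVars false
variable [Pool.Agent.Lib.MP_7f377f_mp.GD]

namespace Pool.Agent.Lib.MP_7f377f_mp.RG.Q4.En

open Finset Real Cok Filter Topology Tl MvPolynomial Ju

variable {α β : Type} [Fintype α] [DecidableEq α] [Fintype β]

/-- close to the identity on the lowest weight -/
def Gw (w : α → ℕ) (ε : ℝ) (T : Module.End ℝ (α → ℝ)) : Prop := (∀ x ∈ Lw w, T x ∈ Lw w) ∧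
  ∀ a b, w a = 2 → w b = 2 → |T (Pi.single b 1) a - (Pi.single b 1 : α → ℝ) a| ≤ ε

variable {w : α → ℕ} {κ ε t : ℝ} {e e' : SyC w 4} {x : α → ℝ} {z : Cr α}
  {T : Module.End ℝ (α → ℝ)}

theorem s1_eq (x : α → ℝ) : ‖s1 x‖ = ‖x‖ := (s1_le x).antisymm
  ((pi_norm_le_iff_of_nonneg (norm_nonneg _)).2 fun a => by
    simpa [s1] using norm_le_pi_norm (s1 x) (a, ⟨0, by linarith [GD.d3]⟩))

theorem cxM_sum (T : Module.End ℝ (α → ℝ)) (z : Cr α) (q : α × Fin GD.d) :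
    cxM T z q = ∑ b, (T (Pi.single b 1) q.1 : ℂ) * z (b, q.2) := by
  have e : ∀ x : α → ℝ, T x q.1 = ∑ b, T (Pi.single b 1) q.1 * x b := fun x => by
    conv_lhs => rw [pi_eq_sum_univ' x, map_sum]
    simp [Finset.sum_apply, mul_comm]
  apply Complex.ext <;> simp [cxM, ucr, cur, cz_ap, e (fun a => (z (a, q.2)).re),
    e (fun a => (z (a, q.2)).im)]

theorem Gw.cx (h : Gw w ε T) (e0 : 0 ≤ ε) (hz : ∀ q, w q.1 ≠ 2 → z q = 0) :
    (∀ q, w q.1 ≠ 2 → cxM T z q = 0) ∧ ‖cxM T z‖ ≤ (1 + Fintype.card α * ε) * ‖z‖ := by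
  have a : ∀ q, w q.1 ≠ 2 → cxM T z q = 0 := fun q hq => by
    rw [cxM_sum]
    refine sum_eq_zero fun b _ => ?_
    by_cases k : w b = 2
    · rw [h.1 _ (fun a ha => Pi.single_eq_of_ne (by rintro rfl; exact ha k) _) _ hq]; simp
    · rw [hz _ k, mul_zero]
  refine ⟨a, (pi_norm_le_iff_of_nonneg (by positivity)).2 fun q => ?_⟩
  by_cases hq : w q.1 = 2
  · have : cxM T z q = z q + ∑ b, (T (Pi.single b 1) q.1 - (Pi.single b 1 : α → ℝ) q.1 : ℝ) *
        z (b, q.2) := by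
      simp [cxM_sum, sub_mul, Pi.single_apply, apply_ite Complex.ofReal]
    rw [this, add_mul, one_mul, mul_assoc, ← card_univ, ← nsmul_eq_mul, ← sum_const]
    refine norm_add_le_of_le (norm_le_pi_norm z q) (norm_sum_le_of_le _ fun b _ => ?_)
    by_cases k : w b = 2
    · exact norm_mul_le_of_le ((Complex.norm_real _).trans_le (h.2 _ _ hq k)) (norm_le_pi_norm z _)
    · rw [hz _ k, mul_zero, norm_zero]; positivity
  · rw [a q hq, norm_zero]; positivity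

theorem Gw.le (h : Gw w ε T) (e0 : 0 ≤ ε) (hx : x ∈ Lw w) :
    ‖T x‖ ≤ (1 + Fintype.card α * ε) * ‖x‖ := by
  simpa only [cxM_s1, s1_eq] using (h.cx e0 (z := s1 x) fun q hq => by simp [s1, hx _ hq]).2

theorem dl_lw (hz : ∀ q, w q.1 ≠ 2 → z q = 0) (t : ℂ) : dl (wC w) t z = t ^ 2 • z :=
  funext fun q => by
    by_cases h : w q.1 = 2
    · simp [dl, wC, h]
    · simp [dl, hz _ h]

variable (hw : ∀ a, 2 ≤ w a)
include hw

theorem ev_le (h : e ∈ W0 w 4) (hz : ∀ q, w q.1 ≠ 2 → z q = 0) (t0 : 0 < t) (h1 : ‖z‖ ≤ t) :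
    ‖eval z e.val‖ ≤ t ^ 2 * ‖e‖ := by
  have : z = dl (wC w) (√t : ℝ) ((t⁻¹ : ℝ) • z) := by
    rw [dl_lw (fun q hq => by simp [hz q hq]), ← Complex.ofReal_pow, sq_sqrt t0.le, Complex.coe_smul,
      smul_inv_smul₀ t0.ne']
  rw [this, eval_hom (hom4 hw h), norm_mul, norm_pow, Complex.norm_of_nonneg (sqrt_nonneg t),
    pow_mul _ 2 2, sq_sqrt t0.le]
  gcongr
  exact le_nP (by rwa [norm_smul, norm_inv, Real.norm_of_nonneg t0.le, inv_mul_le_one₀ t0]) _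

theorem ev_lw (h : e ∈ W0 w 4) (z : Cr α) :
    eval z e.val = eval (fun q => if w q.1 = 2 then z q else 0) e.val := by
  refine eval₂Hom_congr' rfl (fun q hq _ => (if_pos ?_).symm) rfl
  obtain ⟨γ, a, b⟩ := (mem_vars q).1 hq
  obtain ⟨γ, rfl⟩ := exists_add_of_le (Finsupp.single_le_iff.2
    (Nat.one_le_iff_ne_zero.2 (Finsupp.mem_support_iff.1 b)))
  have c := hom4 hw h (mem_support_iff.1 a)
  obtain ⟨i, hi⟩ := Finsupp.ne_iff.1 (show γ ≠ 0 from fun k => mem_support_iff.1 a (by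
    rw [k, add_zero]; exact lin_zero (mem_iv.1 (mem_W0.1 h).1).2 q))
  have := Finsupp.le_weight_of_ne_zero' (wC w) hi
  simp only [map_add, Finsupp.weight_single, smul_eq_mul, one_mul, wC] at c this
  linarith [hw q.1, hw i.1]

/-- sharp perturbations -/
theorem Pv.pert' (h : Pv w κ e) (h' : e' ∈ W0 w 4) (h1 : ‖e' - e‖ ≤ ε * ‖e‖) (h2 : 2 * ε ≤ κ)
    (h3 : κ ≤ 1) : Pv w (κ - 2 * ε) e' := by
  have n := norm_pos_iff.2 h.2.1
  have e0 : 0 ≤ ε := nonneg_of_mul_nonneg_left ((norm_nonneg _).trans h1) n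
  refine ⟨h', fun z => ?_, fun x hx => ?_⟩
  · rw [z, zero_sub, norm_neg] at h1
    nlinarith
  · have a := (abs_le.1 (qv_le hw (sub_mem h' h.1) hx)).1
    have b := h.2.2 x hx
    have c := norm_le_norm_add_norm_sub' e' e
    have s := sq_nonneg ‖x‖
    rw [map_sub] at a
    have : (κ - 2 * ε) * ‖e'‖ ≤ κ * ‖e‖ - ‖e' - e‖ := by
      nlinarith [mul_nonneg (sub_nonneg.2 h2) (sub_nonneg.2 (c.trans (add_le_add le_rfl h1))),
        mul_nonneg (mul_nonneg e0 n.le) (sub_nonneg.2 h3), mul_nonneg (mul_nonneg e0 n.le) e0]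
    nlinarith

namespace Gl

variable {G : Gl} {b M θ : ℝ} {D C J j k i q : ℕ} {c : ℕ → St}
  {ω : ℕ → ℝ} {p : ℕ → (α → ℝ) →ₗ[ℝ] V} {l : ℕ → V →ₗ[ℝ] α → ℝ}
  {U U' : ℕ → Module.End ℝ (α → ℝ)} {S : ℕ → Jv → Jv} {τ : β → Jv}

theorem Tk.pv_B (T : G.Tk w 4 D C M c b J j ω p l U U') (h1 : j ≤ k) (h2 : k < J) (k0 : 0 ≤ κ)
    (e0 : 0 ≤ ε) (g : Gw w ε (U k)) (g' : Gw w ε (U' k)) (h : Pv w κ e) :
    Pv w (κ / (1 + Fintype.card α * ε) ^ 4) (G.jA w 4 D C U' k e) := by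
  obtain ⟨-, -, -, c1, c2, -⟩ := T.ok.cal0 T.t T.tr T.hw T.hd (fun i hi => (T.e i hi).2.1) T.ld h1 h2
  have k1 := T.ok.ka0 D C k
  have k2 := T.ok.ka0 D C (k + 1)
  have L1 := T.ok.L1 k
  obtain ⟨ρ, hρ⟩ : ∃ ρ, ρ = G.ka D C k / G.ka D C (k + 1) / G.L k ^ 2 := ⟨_, rfl⟩
  obtain ⟨u, hu⟩ : ∃ u, u = 1 + Fintype.card α * ε := ⟨_, rfl⟩
  have p0 : 0 < ρ := by rw [hρ]; positivity
  have u0 : 0 < u := by rw [hu]; positivity
  have n : ‖G.jA w 4 D C U' k e‖ ≤ (ρ * u) ^ 2 * ‖e‖ := nP_le fun z hz => by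
    rw [ev_lw hw (c2 e h.1)]
    have z1 : ∀ q, w q.1 ≠ 2 → (fun q => if w q.1 = 2 then z q else 0 : Cr α) q = 0 :=
      fun q hq => if_neg hq
    have z2 : ‖(fun q => if w q.1 = 2 then z q else 0 : Cr α)‖ ≤ 1 :=
      (pi_norm_le_iff_of_nonneg one_pos.le).2 fun q => by
        split_ifs
        exacts [(norm_le_pi_norm z q).trans hz, by simp]
    generalize (fun q => if w q.1 = 2 then z q else 0 : Cr α) = y at *
    obtain ⟨a1, a2⟩ := g'.cx e0 z1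
    have a3 : cxM (dlR w (G.L k : ℝ)⁻¹ ∘ₗ ((G.ka D C k / G.ka D C (k + 1)) • U' k)) y =
        (ρ : ℂ) • cxM (U' k) y := funext fun q => by
      by_cases z : w q.1 = 2
      · simp [cxM_sum, dlR, z, hρ, mul_sum, div_eq_inv_mul, mul_assoc, mul_left_comm]
      · have := a1 q z
        simp only [cxM_sum] at this
        simp [cxM_sum, dlR, mul_assoc, ← mul_sum, this]
    have a4 : ∀ q, w q.1 ≠ 2 → ((ρ : ℂ) • cxM (U' k) y) q = 0 := fun q hq => by simp [a1 q hq]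
    rw [jA, val_AS, Aop, eval_pb' (fun t => by rw [dl_lw z1, map_smul, a3, dl_lw a4]) e.mem, a3]
    refine ev_le hw h.1 a4 (by positivity) ?_
    rw [norm_smul, Complex.norm_of_nonneg p0.le]
    gcongr
    exact a2.trans (hu ▸ mul_le_of_le_one_right u0.le z2)
  refine ⟨c2 e h.1, fun z => h.2.1 (by simpa [z] using c1 e), fun x hx => ?_⟩
  have a := g.le e0 (g'.1 x hx)
  rw [← Module.End.mul_apply, (T.ld k h1 h2).inv, Module.End.one_apply] at a
  rw [T.qv_A hw h1 h2 hx, ← hρ, ← hu] at *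
  refine le_trans ?_ (h.2.2 _ ((Lw w).smul_mem _ (g'.1 x hx)))
  calc _ ≤ κ / u ^ 4 * ((ρ * u) ^ 2 * ‖e‖) * (u * ‖U' k x‖) ^ 2 := by gcongr
    _ = _ := by rw [norm_smul, Real.norm_of_nonneg p0.le]; field_simp

/-- positivity along a window -/
theorem Fx.pv_w (F : G.Fx w 4 D C M c b J j ω p l U U' S i τ) (t : β → ℂ) (hD : 5 ≤ D) (h1 : j ≤ k)
    (h3 : q ≤ i) (e0 : 0 ≤ ε) (k1 : κ ≤ 1) (g : ∀ o, k ≤ o → o < q → Gw w ε (U o) ∧ Gw w ε (U' o) ∧
      4 * (Fintype.card α * ε) + 4 * M * G.Yr 4 C o ^ 2 / G.L o ^ 3 ≤ θ) (n : q * θ ≤ k * θ + κ)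
    (h : Pv w κ (G.zq w 4 D C J j p q (st S τ i q t))) : ∀ o ≤ q, k ≤ o →
    Pv w (κ - (q - o) * θ) (G.zq w 4 D C J j p o (st S τ i o t)) := by
  intro o ho
  induction ho using Nat.decreasingInduction with
  | self => simpa using fun _ => h
  | of_succ o ho ih =>
    intro e
    obtain ⟨g1, g2, g3⟩ := g o e ho
    have h2 := ho.trans_le h3
    obtain ⟨-, a1, a2⟩ := F.fm.cone t (h1.trans e) h2.le
    have a3 := (a2 h2).2
    have i1 := F.fm.inv o (G.zq w 4 D C J j p (o + 1) (st S τ i (o + 1) t)) (h1.trans e) h2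
    have y1 := F.T.ok.Yr1 4 C o
    have L1 := F.T.ok.L1 o
    have M1 := F.fm.M1
    have e2 : G.Yr 4 C o / (G.L o : ℝ) ^ (D + 2) ≤ G.Yr 4 C o / (G.L o : ℝ) ^ 7 :=
      div_le_div_of_nonneg_left (by linarith) (by positivity)
        (pow_le_pow_right₀ (by linarith) (by linarith))
    have x0 : 0 ≤ Fintype.card α * ε := by positivity
    have o1 : (k : ℝ) ≤ o := by exact_mod_cast e
    have o2 : (o : ℝ) + 1 ≤ q := by exact_mod_cast ho
    have A := fun κ k0 => F.T.pv_B hw (κ := κ) (e := G.zq w 4 D C J j p (o + 1) (st S τ i (o + 1) t))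
      (h1.trans e) (h2.trans_le F.iJ) k0 e0 g1 g2
    have m1 := F.fm.mem _ _ _ a1
    generalize G.Yr 4 C o = Y at *
    generalize (G.L o : ℝ) = L at *
    have x1 : 0 ≤ 4 * M * Y ^ 2 / L ^ 3 := by positivity
    have t0 : 0 ≤ θ := by linarith
    have ih := ih (by omega)
    push_cast at ih
    obtain ⟨κ', hκ⟩ : ∃ κ', κ' = κ - (q - (o + 1)) * θ := ⟨_, rfl⟩
    have z1 : θ ≤ κ' := by nlinarith
    have z2 : κ' ≤ 1 := by nlinarith
    rw [← hκ] at ih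
    generalize Fintype.card α * ε = x at *
    have b : κ' - 4 * x ≤ κ' / (1 + x) ^ 4 := by
      have := one_add_mul_le_pow (show -2 ≤ (1 + x)⁻¹ - 1 by
        linarith [inv_pos.2 (show 0 < 1 + x by linarith)]) 4
      have q : 1 - x ≤ (1 + x)⁻¹ := by rw [← one_div, le_div_iff₀ (by linarith)]; nlinarith
      rw [add_sub_cancel, inv_pow] at this
      rw [div_eq_mul_inv]
      push_cast at this
      nlinarith
    refine (((A _ (by linarith) ih).mono b).pert' hw m1 (ε := 2 * M * Y ^ 2 / L ^ 3)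
      (a3.trans ?_) ?_ (by linarith)).mono ?_
    · calc _ ≤ 2 * M * (Y / L ^ 7) * (Y * L ^ 4 * _) := by gcongr
        _ = _ := by field_simp
    all_goals
      rw [← mul_div_assoc, ← mul_assoc, ← mul_assoc]
      norm_num
      nlinarith

end Gl

end Pool.Agent.Lib.MP_7f377f_mp.RG.Q4.En
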