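import Pool.Agent.Lib.MP_7f377f_mp.G.WyG
import Pool.Agent.Lib.MP_7f377f_mp.G.ZgI

/-! Clusters of lattice letters: the input for the short distance expansions. -/

noncomputable section

namespace Pool.Agent.Lib.MP_7f377f_mp.Wx
variable [Pool.Agent.Lib.MP_7f377f_mp.GD]
set_option linter.unusedSectionVars false

open MeasureTheory Filter Topology Set YM7 Weak L6 Wy Sw Function
open Wu (Z4)

variable {V : Type} {k : ℕ}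

/-- configurations of sites at the scale `s` -/
def Cf (κ s a : ℝ) (y : Fin k → Z4) : Prop :=
  (∀ i l, |a * y i l| ≤ κ * s) ∧ ∀ i j, i ≠ j → ∃ l, s ≤ κ * |a * y i l - a * y j l|

/-- a product of letters -/
def cl (O : V → Fz → ℝ) (c : Fin k → V) (y : Fin k → Z4) (W : Fz) : ℝ := ∏ i, O (c i) (tz (y i) W)

variable [NormedAddCommGroup V] [NormedSpace ℝ V] (Φ : Fil V)

/-- the average of labels over the configurations -/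
def av (a s : ℝ) (u : Fin k → R4 → ℝ) (m : (Fin k → Z4) → V) : V :=
  ∑ᶠ y : Fin k → Z4, (a ^ (4 * k) * ∏ i, u i (s⁻¹ • pz a (y i))) • m y

/-- configurations in disjoint compact sets, with a margin -/
theorem exists_cf [MeasurableSpace SU2] [BorelSpace SU2] {K : Fin k → Set R4}
    (hK : ∀ i, IsCompact (K i))
    (hd : Pairwise fun i j => Disjoint (K i) (K j)) : ∃ κ ≥ (1 : ℝ), ∀ s > (0 : ℝ), ∀ (a : ℝ)
      (y : Fin k → Z4) (q : R4), (∀ l, |q l| ≤ s) → (∀ i, s⁻¹ • (pz a (y i) - q) ∈ K i) →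
        Cf κ s a y := by
  obtain ⟨δ, δ0, hδ⟩ := (isCompact_iUnion fun p : {p : Fin k × Fin k // p.1 ≠ p.2} =>
    (hK p.1.1).prod (hK p.1.2)).exists_forall_le' (f := fun q => dist q.1 q.2) (a := 0)
    (by fun_prop) fun q hq => by
      obtain ⟨p, h1, h2⟩ := mem_iUnion.1 hq
      exact dist_pos.2 fun e => disjoint_left.1 (hd p.2) h1 (e ▸ h2)
  obtain ⟨r, r0, hr⟩ := (isCompact_iUnion hK).isBounded.exists_pos_norm_le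
  have := div_pos two_pos δ0
  refine ⟨r + 1 + 2 / δ, by linarith, fun s s0 a y q hq hy => ⟨fun i l => ?_, fun i j e => ?_⟩⟩
  · have := (PiLp.norm_apply_le _ l).trans (hr _ (mem_iUnion.2 ⟨i, hy i⟩))
    simp only [pz, PiLp.smul_apply, PiLp.sub_apply, smul_eq_mul, Real.norm_eq_abs, abs_mul, abs_inv,
      abs_of_pos s0, inv_mul_le_iff₀ s0] at this
    nlinarith [abs_sub_abs_le_abs_sub (a * y i l) (q l), hq l]
  · refine (exists_coord (hδ (_, _) (mem_iUnion.2 ⟨⟨(i, j), e⟩, hy i, hy j⟩))).imp fun l e => ?_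
    simp only [pz, PiLp.smul_apply, PiLp.sub_apply, smul_eq_mul, ← mul_sub, abs_mul, abs_inv,
      abs_of_pos s0, le_inv_mul_iff₀ s0, sub_sub_sub_cancel_right] at e ⊢
    refine le_trans ?_ (mul_le_mul_of_nonneg_right (show 2 / δ ≤ _ by linarith) (by positivity))
    rw [div_mul_eq_mul_div, le_div_iff₀ δ0]
    linarith

/-- the free theory at points -/
structure Fp (S₀ : Cor V) (fp : ∀ k, (Fin k → V) → (Fin k → R4) → ℝ)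
    (Bp : (Fin 2 → V) → ℕ → (Fin 2 → R4) → V) : Prop where
  eq : ∀ k c f, Adm f → S₀ k c f = (∫ y : Fin k → R4, (∏ i, f i (y i)) * fp k c y : ℝ)
  cont : ∀ k c, ContinuousOn (fp k c) {y | Injective y}
  cb : ∀ c D (l : V →ₗ[ℝ] ℝ), ContinuousOn (fun y => l (Bp c D y)) {y | Injective y}
  fo : ∀ c u D, Adm u → ∃ B, (∀ l : V →ₗ[ℝ] ℝ, l B = ∫ y : Fin 2 → R4, (∏ i, u i (y i)) * l (Bp c D y)) ∧
    ∀ sc, Zo.Sc Φ S₀ sc → Zo.Fo Φ S₀ sc c u D B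
  mem : ∀ c D y, Bp c D y ∈ Φ.F D

variable [MeasurableSpace SU2] (h : Measure SU2) (n : ℕ × ℕ → ℕ) [∀ p, NeZero (n p)]
  (a b : ℕ × ℕ → ℝ) (U : Ultrafilter (ℕ × ℕ)) (O : ℕ × ℕ → V →ₗ[ℝ] Fz → ℝ)

/-- the product of the letters `c s` at the scale `s` is the letter `m` at the origin, up to a
letter of weight `η s` -/
structure Em (c : ℝ → Fin k → V) (D : ℕ) (κ : ℝ) (η : ℝ → ℝ)
    (m : ℝ → ℕ × ℕ → (Fin k → Z4) → V) : Prop where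
  mem : ∀ s p y, m s p y ∈ Φ.F D
  bd : ∀ᶠ s in 𝓝[>] 0, ∃ B, ∀ᶠ p in U, ∀ y, Cf κ s (a p) y → ‖m s p y‖ ≤ B
  al : ∀ A₀ : Set V, A₀.Finite → ∀ e : ℕ, ∃ C K : ℝ, 0 ≤ C ∧ 0 ≤ K ∧ ∀ᶠ s in 𝓝[>] 0,
    ∃ (β : Type) (Q : ℕ × ℕ → β → Fz → ℝ) (r : _) (A : _) (w : _),
      EF h n a b Q r A w (9 / 3 ^ e) C ∧ ∀ᶠ p in U,
        (∀ d ∈ A₀, Cb (Q p) (A p.2) (w p.2) (a p) 0 (9 / 3 ^ e / 50) K fun W => O p d W) ∧
        ∀ y, Cf κ s (a p) y → Cb (Q p) (A p.2) (w p.2) (a p) 0 (9 / 3 ^ e / 50) (K * η s) fun W =>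
          ((cl (O p) (c s) y W - O p (m s p y) W : ℝ) : ℂ)

/-- the input for the short distance expansions -/
structure Ci (A : ℝ → V ≃ₗ[ℝ] V) (fp : ∀ k, (Fin k → V) → (Fin k → R4) → ℝ)
    (Bp : (Fin 2 → V) → ℕ → (Fin 2 → R4) → V) : Prop where
  m1 : ∀ d, ∀ c ∈ Φ.F d, ∀ κ ≥ 1,
    ∃ m, Em Φ h n a b U O (fun _ => ![c]) (d + 1) κ (· ^ (3 / 2 : ℝ)) m
  m2 : ∀ c' ∈ Φ.F 4, ∀ d, ∀ c ∈ Φ.F d, ∀ κ ≥ 1,
    (∃ m, Em Φ h n a b U O (fun _ => ![c', c]) (d + 1) κ (· ^ (-5 / 2 : ℝ)) m) ∧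
      ∃ m, Em Φ h n a b U O (fun _ => ![c', c]) d κ (· ^ (-7 / 2 : ℝ)) m
  op : ∀ (c : Fin 2 → V) (D : ℕ), ∀ κ ≥ 1,
    ∃ m, Em Φ h n a b U O (fun t i => A t (c i)) D κ (· ^ (D - 15 / 2 : ℝ)) m ∧
      ∀ ε > 0, ∀ᶠ t in 𝓝[>] 0, ∀ᶠ p in U, ∀ y, Cf κ t (a p) y →
        ‖(A t).symm (t ^ 4 • m t p y) - Bp c D fun i => t⁻¹ • pz (a p) (y i)‖ ≤ ε
  af : ∀ k (c : Fin k → V), ∀ κ ≥ 1, ∀ ε > 0, ∀ᶠ t : ℝ in 𝓝[>] 0, ∀ᶠ p in U, ∀ y, Cf κ t (a p) y →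
    ‖t ^ (4 * k) * ex h (b p) (n p) (fun W => cl (O p) (fun i => A t (c i)) y W) -
      fp k c fun i => t⁻¹ • pz (a p) (y i)‖ ≤ ε
  ct : ∀ k (c : Fin k → V), ∀ κ ≥ 1, ∃ (e : ℕ) (C : ℝ), 0 ≤ C ∧ ∀ ε > 0, ∀ᶠ t : ℝ in 𝓝[>] 0,
    ∃ (β : Type) (Q : ℕ × ℕ → β → Fz → ℝ) (r : _) (L : _) (w : _),
      EF h n a b Q r L w (9 / 3 ^ e) C ∧ ∀ᶠ p in U, ∀ y, Cf κ t (a p) y →
        Cb (Q p) (L p.2) (w p.2) (a p) 0 (9 / 3 ^ e / 50) ε fun W =>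
          t ^ (4 * k) * (cl (O p) (fun i => A t (c i)) y W -
            ex h (b p) (n p) fun W => cl (O p) (fun i => A t (c i)) y W)

end Pool.Agent.Lib.MP_7f377f_mp.Wx
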