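import Pool.Agent.Lib.MP_7f377f_mp.G.ZhO
import Pool.Agent.Lib.MP_7f377f_mp.G.ZgFc
import Pool.Agent.Lib.MP_7f377f_mp.G.Zo
import Pool.Agent.Lib.MP_7f377f_mp.G.WzD

/-! The free theory at points. -/

noncomputable section

namespace Pool.Agent.Lib.MP_7f377f_mp.Zg
variable [Pool.Agent.Lib.MP_7f377f_mp.GD]

open Filter Topology Set YM7 Sw Zf Function

variable {d : ℕ} (𝒜 : Set (Matrix (Fin d) (Fin d) ℝ)) [o : Og 𝒜]

/-- the free correlation functions at points -/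
def fp0 (k : ℕ) (c : Fin k → V0 𝒜) (y : Fin k → R4) : ℝ := fp (fun i => (c i).1) y

theorem fp_fp0 : Wx.Fp (fil 𝒜) (S0 𝒜) (fp0 𝒜) Bp where
  eq _ _ _ _ := rfl
  cont _ _ := fp_cont continuous_id (fun _ e => e) _
  cb c D l := fun y hy => Zo.lin_tend l (Bp_mem c) (Bp_mem c y) (Bp_cont c y hy)
  fo c _ D hu := (fo1 c D hu).imp fun _ e => ⟨e.2, e.1.all sc0⟩
  mem c _ := Bp_mem c

theorem fp0_two (d c : V0 𝒜) (y) : fp0 𝒜 2 ![d, c] y = fp ![d.1, c.1] y := by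
  rw [fp0, show (fun i => (![d, c] i).1) = ![d.1, c.1] from funext (Fin.forall_fin_two.2 ⟨rfl, rfl⟩)]

theorem fp0_lin (d : V0 𝒜) (y) : IsLinearMap ℝ fun c => fp0 𝒜 2 ![d, c] y := by
  have e : ∀ c, fp ![d.1, c] y = (fm y).toLinearMap ![d.1, 0] 1 c := fun c => by
    rw [show ![d.1, c] = update ![d.1, 0] 1 c from funext (Fin.forall_fin_two.2 ⟨rfl, rfl⟩)]
    exact (fm_apply _ _).symm
  exact ⟨fun a b => by simp only [fp0_two, e, Submodule.coe_add, map_add],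
    fun a b => by simp only [fp0_two, e, Submodule.coe_smul, map_smul]⟩

theorem fp0_nd {v : R4} (hv : v ≠ 0) (c : V0 𝒜) (hc : c ≠ 0) : ∃ d, fp0 𝒜 2 ![d, c] ![v, 0] ≠ 0 := by
  by_contra! e
  refine hc (v0_null (low_null hv c.2.1 fun b hb => ?_))
  have := e (p0 𝒜 ⟨b, hb⟩)
  rw [fp0_two, p0_val] at this
  rw [fp_mod (c' := ![pj b, c.1]) (Fin.forall_fin_two.2 ⟨sub_pj b, by simp⟩), this]

end Pool.Agent.Lib.MP_7f377f_mp.Zg
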