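import Pool.Agent.Lib.MP_7f377f_mp.G.KzT0
import Pool.Agent.Lib.MP_7f377f_mp.G.ZhP

/-! Properties of the normalised lattice fields. -/

noncomputable section

set_option linter.unusedSectionVars false
variable [Pool.Agent.Lib.MP_7f377f_mp.GD]

namespace Pool.Agent.Lib.MP_7f377f_mp.Kz

open MeasureTheory Filter Set YM7 L6 RG RG.Tl RG.Q4 RG.Q4.En Wy MvPolynomial
open RG.Wd (B4 gv pb)
open Wu (Z4)
open Zg (V0 Og r0 fil u0)

variable {𝒜 : Set CM} [Og 𝒜] {ι : Type} [Fintype ι] [MeasurableSpace SU2] [BorelSpace SU2]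
  {h : Measure SU2} [h.IsHaarMeasure] [IsProbabilityMeasure h] {b : ℝ} {n D : ℕ} [NeZero n]
  {c : V0 𝒜}

theorem π0_eq (c : V0 𝒜) : (fil 𝒜).π 0 c = constantCoeff c.1 • u0 𝒜 :=
  Subtype.ext ((weightedHomogeneousComponent_zero _ (by simp [Zf.wt])).trans (by
    rw [Submodule.coe_smul, u0, smul_eq_C_mul, mul_one, constantCoeff_eq]; rfl))

theorem u0_F (D : ℕ) : u0 𝒜 ∈ (fil 𝒜).F D :=
  (fil 𝒜).mono D.zero_le (Zf.Hm.mem (isWeightedHomogeneous_one _ _))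

theorem f0_eq (e : c ∈ (fil 𝒜).F 0) : c = constantCoeff c.1 • u0 𝒜 := by
  rw [← π0_eq, ← Finset.sum_range_one fun d => (fil 𝒜).π d c, (fil 𝒜).π_sum e]

theorem vp_sub (e : c ∈ (fil 𝒜).F D) : c - constantCoeff c.1 • u0 𝒜 ∈ Vp 𝒜 D :=
  ⟨Submodule.sub_mem _ e (Submodule.smul_mem _ _ (u0_F D)), (π0_eq _).trans (by simp [u0])⟩

theorem rB_u0 (g : B4) : rB 𝒜 g (u0 𝒜) = u0 𝒜 := Subtype.ext (map_one (Zf.rh _))

theorem cc_rB (g : B4) (c : V0 𝒜) : constantCoeff (rB 𝒜 g c).1 = constantCoeff c.1 := by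
  have := Zg.r0_gr (gI g) 0 c
  rw [π0_eq, π0_eq, map_smul, show r0 𝒜 (gI g) (u0 𝒜) = _ from rB_u0 g] at this
  simpa [u0, rB] using congrArg (fun c : V0 𝒜 => constantCoeff c.1) this

theorem lt_u0 : lt 𝒜 (u0 𝒜) = 1 := funext fun U => by
  have e (g) : lg 𝒜 g (u0 𝒜) = 1 := by
    rw [lg_ap, show r0 𝒜 (gI g⁻¹) (u0 𝒜) = _ from rB_u0 _, ls_ap]
    simp [u0]
  have : lE 𝒜 (u0 𝒜) = 1 := by
    simp only [lE_ap, e, Finset.sum_const, Finset.card_univ, ← Nat.cast_smul_eq_nsmul ℝ, smul_smul]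
    rw [inv_mul_cancel₀ (by simp), one_smul]
  change (pG (lE 𝒜 _) U).re = 1
  rw [this, map_one]
  rfl

theorem oc_u0 : oc h b n (u0 𝒜) = 1 := funext fun U => by
  change ct h b n (lt 𝒜 _) U + _ = _
  rw [lt_u0]
  simp [ct, er, u0]

theorem oc_rB (g : B4) (c : V0 𝒜) (U : Fz) :
    oc h b n (rB 𝒜 g c) U = oc h b n c (pb Inv.inv g U) := 
  congrArg₂ (· + ·) (ct_rB g c U) (cc_rB g c)

theorem oc_cont (c : V0 𝒜) : Continuous (oc h b n c) := (ct_cont c).add continuous_const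

variable (𝒜 D) in
theorem lt_loc : ∃ R : ℕ, ∀ c ∈ (fil 𝒜).F D, DependsOn (lt 𝒜 c) {l | ∀ i, |l.1 i| ≤ R} := by
  have := (fil 𝒜).fin D
  obtain ⟨s, hs⟩ := (Module.Finite.iff_fg (N := (fil 𝒜).F D)).1 this
  choose R hR using fun c : V0 𝒜 => exists_rd (lE 𝒜 c)
  refine ⟨s.sup R, fun c e U U' k => ?_⟩
  rw [← hs] at e
  induction e using Submodule.span_induction with
  | mem c e => exact congrArg Complex.re (pG_agr ((hR c).mono (Finset.le_sup e)) fun l hl =>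
      k l fun i => abs_le.2 (Op.mem_box.1 (Op.mem_lbox.1 hl) i))
  | zero => simp
  | add _ _ _ _ a a' => simp only [map_add, Pi.add_apply, a, a']
  | smul _ _ _ a => simp only [map_smul, Pi.smul_apply, a]

theorem oc_dep {S} (e : DependsOn (lt 𝒜 c) S) : DependsOn (oc h b n c) S := fun _ _ k =>
  congrArg (· - _ + _) (e k)

theorem fq_tr (u : ℝ) (e : ι → V0 𝒜) (x : ι → Z4) (w : Z4) :
    fq u e (fun a => x a + w) = fq u e x :=
  Eq.trans (congrArg (Zf.fp _) (funext fun a => by ext l; simp [pz, mul_add]))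
    ((Zf.s_cov ι (fun a => (e a).1) fun a => pz u⁻¹ (x a)).1 (pz u⁻¹ w))

theorem ml_dif {V : Type} [NormedAddCommGroup V] [NormedSpace ℝ V] {W : Submodule ℝ V}
    (f : MultilinearMap ℝ (fun _ : ι => V) ℝ) {C : ℝ} (C0 : 0 ≤ C)
    (h : ∀ c, (∀ i, c i ∈ W) → |f c| ≤ C * ∏ i, ‖c i‖) {c e : ι → V} (k : ∀ i, c i ∈ W ∧ e i ∈ W) :
    |f e - f c| ≤ C * Fintype.card ι * max ‖e‖ ‖c‖ ^ (Fintype.card ι - 1) * ‖e - c‖ :=
  (f.compLinearMap fun _ => W.subtype).norm_image_sub_le_of_bound C0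
    (fun m => h _ fun i => (m i).2) (fun i => ⟨e i, (k i).2⟩) fun i => ⟨c i, (k i).1⟩

variable (𝒜 ι D) in
/-- the free correlation functions are Lipschitz in the labels -/
theorem fp_dif {δ : ℝ} (δ0 : 0 < δ) (B : ℝ) : ∃ C, 0 ≤ C ∧ ∀ (c e : ι → V0 𝒜) (y : ι → R4),
    (∀ i, c i ∈ (fil 𝒜).F D ∧ e i ∈ (fil 𝒜).F D) → ‖c‖ ≤ B → ‖e‖ ≤ B → Zg.Sep δ y →
      |Zf.fp (fun i => (e i).1) y - Zf.fp (fun i => (c i).1) y| ≤ C * ‖e - c‖ := by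
  classical
  obtain ⟨C, C0, hC⟩ := Zg.fp_ub (𝒜 := 𝒜) (ι := ι) D δ0
  refine ⟨C * Fintype.card ι * |B| ^ (Fintype.card ι - 1), by positivity, fun c e y k h1 h2 s => ?_⟩
  have := ml_dif ((Zf.fm y).compLinearMap fun _ => (V0 𝒜).subtype) C0
    (fun m a => by simpa [Zf.fm_apply] using hC m y a s) k
  simp only [MultilinearMap.compLinearMap_apply, Zf.fm_apply] at this
  refine this.trans ?_
  have := (max_le h2 h1).trans (le_abs_self B)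
  gcongr

end Pool.Agent.Lib.MP_7f377f_mp.Kz

namespace Pool.Agent.Lib.MP_7f377f_mp.RG.Q4.En.Gl

open MeasureTheory Filter Topology Set YM7 L6 RG.Tl Wy Kz
open RG.Wd (B4 gv)
open Wu (Z4)
open Zg (V0 Og r0 fil)

variable {G : Gl} {𝒜 : Set CM} [Og 𝒜] {β : ℕ × ℕ → ℝ} {U : Ultrafilter (ℕ × ℕ)}
  {N : ℕ × ℕ → V0 𝒜 →ₗ[ℝ] V0 𝒜} {A : ℝ → V0 𝒜 ≃ₗ[ℝ] V0 𝒜}

/-- finitely many sites can be moved to good sites -/
theorem Ok.gs_sh (h : G.Ok) (ι : Type) [Fintype ι] :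
    ∀ᶠ k in atTop, ∀ J ≥ k, ∀ x : ι → Z4, ∃ w, ∀ a, x a + w ∈ G.Gs J k := by
  filter_upwards [eventually_forall_ge_atTop.2 (h.rnt.eventually_ge_atTop (Fintype.card ι))]
    with k e J a x
  obtain ⟨w, hw⟩ := h.ex_shift (r := fun j => if j < k then G.l j else G.dm j) (fun j => by
    split_ifs with u
    · simp [L, LL]
    have := (Nat.mul_le_mul_right (G.l j / G.rn j) (Nat.cast_le.1 (e j (not_lt.1 u)))).trans
      (Nat.mul_div_le _ _)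
    rw [dm, Nat.sub_sub_self (Nat.div_le_self _ _), mul_left_comm]
    unfold L LL
    omega) x k a
  exact ⟨w, fun i j u v => by simpa only [if_neg u.not_gt] using hw i j u v⟩

theorem Oz_ap (p c) : G.Oz 𝒜 β N p c = oc (Fi.tr haar) (β p) (G.nn p) (N p c) := rfl

namespace Nz

variable (o : G.Oks) (hU : U ≤ fast) (H : G.Nz 𝒜 β U N A)
include o hU H

theorem loc (c : V0 𝒜) : ∃ R : ℕ, ∀ p, Continuous (G.Oz 𝒜 β N p c) ∧
    DependsOn (G.Oz 𝒜 β N p c) {l | ∀ i, |l.1 i| ≤ R} :=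
  ((Zg.fil 𝒜).ex c).elim fun D e => (lt_loc 𝒜 D).imp fun _ k p => by
    rw [Oz_ap]
    exact ⟨oc_cont _, oc_dep (k _ (H.fil p D c e))⟩

theorem obs [Adj 𝒜] (c : V0 𝒜) : ∃ R, ∀ p, YZ.Obs R fun W => (G.Oz 𝒜 β N p c W : ℂ) :=
  (H.loc o hU c).imp fun _ k p => ⟨Complex.continuous_ofReal.comp (k p).1,
    fun _ _ e => congrArg _ ((k p).2 e), fun W g => congrArg (fun z : ℂ => ((z.re - _ + _ : ℝ) : ℂ))
      (pG_gauge (gm_lE (N p c)).1 g W)⟩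

theorem cov (g : B4) (c : V0 𝒜) : ∀ᶠ p in fast, ∀ W,
    G.Oz 𝒜 β N p (rB 𝒜 g c) W = G.Oz 𝒜 β N p c (Wd.pb Inv.inv g W) :=
  ((Zg.fil 𝒜).ex c).elim fun D e => (H.bij D).mono fun _ k W => by
    rw [Oz_ap, k.2.2 g c e, oc_rB, Oz_ap]

theorem pl : Pl (fun p c => G.Oz 𝒜 β N p c) fun μ => r0 𝒜 (Pur.rfL μ) :=
  ⟨H.loc o hU, fun μ c => by
    simp only [← gI_rf, ← pb_rf]
    exact H.cov o hU (Wd.rf μ) c⟩

theorem pm (σ) (c : V0 𝒜) :
    ∀ᶠ p in fast, ∀ W, G.Oz 𝒜 β N p (r0 𝒜 (Ro.prm σ) c) W = G.Oz 𝒜 β N p c (qz σ W) :=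
  gI_pe σ ▸ H.cov o hU (Wd.pe σ) c

theorem un : ∀ᶠ p in fast, G.Oz 𝒜 β N p (Zg.u0 𝒜) = 1 ∧
    ∀ c ∈ (Zg.fil 𝒜).F 0, ∃ r : ℝ, G.Oz 𝒜 β N p c = fun _ => r := (H.bij 0).mono fun p k =>
  have e : G.Oz 𝒜 β N p (Zg.u0 𝒜) = 1 := by rw [Oz_ap, k.2.1, oc_u0]
  ⟨e, fun c u => ⟨MvPolynomial.constantCoeff c.1, by
    conv_lhs => rw [f0_eq u, map_smul, e]
    ext
    simp⟩⟩

theorem c1 (t μ c) : A t (r0 𝒜 (Pur.rfL μ) c) = r0 𝒜 (Pur.rfL μ) (A t c) :=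
  gI_rf μ ▸ H.cm t (Wd.rf μ) c

theorem c2 (t σ c) : A t (r0 𝒜 (Ro.prm σ) c) = r0 𝒜 (Ro.prm σ) (A t c) :=
  gI_pe σ ▸ H.cm t (Wd.pe σ) c

theorem af (k) (c : Fin k → V0 𝒜) (κ : ℝ) (κ1 : κ ≥ 1) (ε : ℝ) (ε0 : ε > 0) :
    ∀ᶠ t : ℝ in 𝓝[>] 0, ∀ᶠ p in (U : Filter (ℕ × ℕ)), ∀ y, MP_7f377f_mp.Wx.Cf κ t (G.aa p) y →
      ‖t ^ (4 * k) * Wy.ex (Fi.tr haar) (β p) (G.nn p)
        (fun W => MP_7f377f_mp.Wx.cl (G.Oz 𝒜 β N p) (fun i => A t (c i)) y W) -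
          Zg.fp0 𝒜 k c fun i => t⁻¹ • pz (G.aa p) (y i)‖ ≤ ε := by
  choose d hd using fun i => (Zg.fil 𝒜).ex (c i)
  have hD i := (Zg.fil 𝒜).mono (Finset.le_sup (f := d) (Finset.mem_univ i)) (hd i)
  have κ0 : 0 < κ := by linarith
  obtain ⟨C, C0, hC⟩ := fp_dif 𝒜 (Fin k) (Finset.univ.sup d) (inv_pos.2 κ0) (‖c‖ + 1)
  set c' := fun i => c i - MvPolynomial.constantCoeff (c i).1 • Zg.u0 𝒜
  have z (a : ℝ) : Tendsto (fun δ : ℝ => a * (δ * ‖c'‖)) (𝓝[>] 0) (𝓝 0) :=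
    (Continuous.tendsto' (by fun_prop) _ _ (by simp)).mono_left nhdsWithin_le_nhds
  obtain ⟨δ, ⟨δ1, δ2⟩, δ0 : 0 < δ⟩ := ((((z 1).eventually_le_const one_pos).and
    ((z C).eventually_le_const (half_pos ε0))).and self_mem_nhdsWithin).exists
  have L := (o 0).1.L_top.comp (kt_top o)
  filter_upwards [H.ax (Finset.univ.sup d) k 1 1 κ κ1 δ δ0, self_mem_nhdsWithin,
    L.eventually_ge_atTop (2 * κ), (L.inv_tendsto_atTop.mul_const ((‖c‖ + 1) ^ k)).eventually_le_const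
      (by rw [zero_mul]; exact half_pos ε0), (kt_top o).eventually ((o 0).1.gs_sh (Fin k))]
    with t a (t0 : 0 < t) l1 l2 s
  filter_upwards [a, hU (ev_lev o (G.kt t))] with p ⟨T, _, T1, T2⟩ l y hy
  obtain ⟨w, hw⟩ := s _ l y
  have a0 := G.aa_pos p
  replace l1 : 2 * κ ≤ G.L (G.kt t) := l1
  choose e e1 e2 e3 using fun i => ((T1 _ (hw i)).2.2 1 ⟨le_rfl, by rw [pow_one]; linarith⟩).1 _
    (vp_sub (hD i))
  simp only [LinearMap.comp_apply, rs_one, LinearMap.id_apply] at e2 e3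
  set e' := fun i => e i + MvPolynomial.constantCoeff (c i).1 • Zg.u0 𝒜
  have f1 (i) : e' i ∈ (Zg.fil 𝒜).F _ := add_mem (e1 i).1 (Submodule.smul_mem _ _ (u0_F _))
  have f2 : ‖e' - c‖ ≤ δ * ‖c'‖ := (pi_norm_le_iff_of_nonneg (by positivity)).2 fun i =>
    (show ‖e' i - c i‖ = _ by congr 1; simp only [e']; abel).trans_le
      ((e3 i).trans (mul_le_mul_of_nonneg_left (norm_le_pi_norm c' i) δ0.le))
  have f3 : ‖e'‖ ≤ ‖c‖ + 1 := by linarith [norm_sub_norm_le e' c]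
  have f4 (i) : T (y i + w) (e' i) = c i := by
    rw [map_add, map_smul, e2, (T1 _ (hw i)).1, sub_add_cancel]
  have g (i j) (v : i ≠ j) : Ds (t / κ / G.aa p) (G.L (G.kt t) ^ 1 * t / G.aa p) (y i) (y j) := by
    refine ⟨(hy.2 i j v).imp fun m u => ?_, fun m => ?_⟩
    · rwa [← mul_sub, abs_mul, abs_of_pos a0, ← div_le_iff₀' κ0, ← div_le_iff₀' a0] at u
    · have := abs_sub (G.aa p * y i m) (G.aa p * y j m)
      rw [← mul_sub, abs_mul, abs_of_pos a0] at this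
      rw [le_div_iff₀' a0, pow_one]
      nlinarith [hy.1 i m, hy.1 j m]
  have b1 := T2 k le_rfl (fun i => y i + w) e' (fun i => ⟨hw i, f1 i⟩) fun i j v => by
    simpa only [Ds, Pi.add_apply, Int.cast_add, add_sub_add_right_eq_sub] using g i j v
  have q : (fun i => t⁻¹ • pz (G.aa p) (y i)) = fun i => pz (t / G.aa p)⁻¹ (y i) := funext fun i => by
    ext m
    simp [pz, div_eq_inv_mul, mul_assoc]
  have b2 := hC c e' (fun i => pz (t / G.aa p)⁻¹ (y i)) (fun i => ⟨hD i, f1 i⟩) (by linarith) f3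
    fun i j v => (hy.2 i j v).elim fun m u => le_trans (by
      simp only [pz, PiLp.sub_apply, inv_div, div_mul_eq_mul_div, ← sub_div, Real.norm_eq_abs,
        abs_div, abs_of_pos t0]
      rwa [le_div_iff₀ t0, inv_mul_le_iff₀ κ0]) (PiLp.norm_apply_le _ m)
  have b3 (c) : Wy.er (Fi.tr haar) (β p) (G.nn p) (MP_7f377f_mp.Wx.cl (G.Oz 𝒜 β N p) c fun i =>
      y i + w) = Wy.er (Fi.tr haar) (β p) (G.nn p) (MP_7f377f_mp.Wx.cl (G.Oz 𝒜 β N p) c y) := by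
    unfold MP_7f377f_mp.Wx.cl
    simp only [add_comm _ w, ← tz_tz, Oz_ap]
    exact Complex.ofReal_injective ((er_ex _).symm.trans ((ex_tz w (Complex.continuous_ofReal.comp
      (continuous_finsetProd _ fun a _ => (oc_cont _).comp (cont_tz (y a))))).trans (er_ex _)))
  have b4 : ∏ i, ‖e' i‖ ≤ (‖c‖ + 1) ^ k := (Finset.prod_le_prod (fun _ _ => norm_nonneg _)
    fun i _ => (norm_le_pi_norm e' i).trans f3).trans_eq (Fin.prod_const ..)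
  simp only [f4, b3, fq_tr, pow_one] at b1
  rw [er_ex, q, ← Complex.ofReal_pow, ← Complex.ofReal_mul, ← Complex.ofReal_sub, Complex.norm_real]
  refine (abs_sub_le _ _ _).trans ((add_le_add (b1.trans ((mul_le_mul_of_nonneg_left b4
    (by positivity)).trans l2)) (b2.trans ((mul_le_mul_of_nonneg_left f2 C0).trans δ2))).trans_eq
      (add_halves ε))

end Nz

end Pool.Agent.Lib.MP_7f377f_mp.RG.Q4.En.Gl
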