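import Pool.Agent.Lib.MP_7f377f_mp.G.JvG
import Pool.Agent.Lib.MP_7f377f_mp.G.JuM

/-! The tops of short runs. -/

noncomputable section

set_option linter.unusedSectionVars false
variable [Pool.Agent.Lib.MP_7f377f_mp.GD]

namespace Pool.Agent.Lib.MP_7f377f_mp.RG.Q4.En.Gl

open Filter Topology

variable (G : Gl)

/-- `J` is the top of a short run for the level `k` -/
structure Sh (C k J : ℕ) : Prop where
  lt : k < J
  lo : (G.rt J k : ℝ) ^ C ≤ G.bb k
  hi : G.bb J ≤ (G.rt J k : ℝ) ^ (3 * C + 1)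

variable {G} {C k J : ℕ}

theorem Sh.wm (s : G.Sh C k J) (m : ℕ) : (G.wm m).Sh C k J := ⟨s.lt, s.lo, s.hi⟩

theorem one_rt (J k : ℕ) : (1 : ℝ) ≤ G.rt J k :=
  Nat.one_le_cast.2 (pow_pos three_pos _ : 0 < G.rt J k)

namespace Ok

variable (h : G.Ok)
include h

theorem rt_upR (hk : k ≤ J) : (G.rt (J + 1) k : ℝ) = G.rt J k * G.L J := by
  rw [← h.rt_mul hk J.le_succ, h.rt_L, Nat.cast_mul]

theorem bb_rt (hk : k ≤ J) : G.bb J + 2 ≤ G.bb k + 2 * G.rt J k := by
  induction J, hk using Nat.le_induction with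
  | base => simp [rt_top]
  | succ J hk ih =>
    have a : G.bb (J + 1) ≤ G.bb J + G.L J := (h.sch.le J).2
    have b := one_rt (G := G) J k
    rw [h.rt_upR hk]
    nlinarith [h.L1 J]

theorem L_rt (hk : k < J) : (G.L J : ℝ) ≤ 3 * G.rt J k ∧ (G.L k : ℝ) ≤ G.rt J k := by
  obtain ⟨J, rfl⟩ : ∃ j, J = j + 1 := ⟨J - 1, by omega⟩
  have a : (G.L (J + 1) : ℝ) ≤ 3 * G.L J := by exact_mod_cast h.L_succ J
  have b := one_rt (G := G) J k
  have c : (G.L k : ℝ) ≤ G.L J := Nat.cast_le.2 (h.L_mono (by omega))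
  rw [h.rt_upR (by omega)]
  constructor <;> nlinarith [h.L1 J]

theorem sh_ex (hC : 3 ≤ C) : ∀ᶠ k in atTop, ∃ J, G.Sh C k J := by
  have C0 : 0 < C := by omega
  filter_upwards [h.bb_ev C] with k a
  have ex : ∃ j, G.bb k < (G.rt (k + 1 + j) k : ℝ) ^ C := by
    obtain ⟨j, b1, b2⟩ := ((h.ev_rt k 1 2).and (eventually_ge_atTop (k + 1))).exists
    refine ⟨j - (k + 1), ?_⟩
    rw [Nat.add_sub_cancel' b2]
    have := h.b_mono (show k ≤ j by omega)
    have := h.b0 k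
    refine lt_of_lt_of_le (b := (G.rt j k : ℝ)) (by rw [pow_one] at b1; linarith)
      (le_self_pow₀ (one_rt j k) C0.ne')
  classical
  have p := Nat.find_spec ex
  have n0 : Nat.find ex ≠ 0 := fun e => by
    rw [e, add_zero, h.rt_L] at p
    linarith
  obtain ⟨j, hj⟩ := Nat.exists_eq_succ_of_ne_zero n0
  have q := not_lt.1 (Nat.find_min ex (show j < Nat.find ex by omega))
  have lt : k < k + 1 + j := by omega
  refine ⟨k + 1 + j, lt, q, ?_⟩
  rw [hj, Nat.succ_eq_add_one, ← add_assoc, h.rt_upR lt.le] at p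
  obtain ⟨l1, l2⟩ := h.L_rt lt
  have l3 := h.bb_rt lt.le
  have l4 := h.L1 k
  generalize (G.rt (k + 1 + j) k : ℝ) = r at *
  have r3 : r * G.L (k + 1 + j) ≤ r ^ 3 := by
    nlinarith [mul_nonneg (by linarith : 0 ≤ r - 3) (sq_nonneg r)]
  have s := p.le.trans (pow_le_pow_left₀ (mul_nonneg (by linarith) (Nat.cast_nonneg _)) r3 C)
  rw [← pow_mul] at s
  have t : r ≤ r ^ (3 * C) := le_self_pow₀ (by linarith) (by omega)
  rw [pow_succ]
  nlinarith

/-- the blocks at the top are small compared with the length of the run -/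
theorem sh_L (C N : ℕ) : ∀ᶠ k in atTop, ∀ J, G.Sh C k J → (G.L J : ℝ) ^ N ≤ G.rt J k := by
  filter_upwards [eventually_forall_ge_atTop.2 (h.bb_ev (N * (3 * C + 1)))] with k a J s
  have := (a J s.lt.le).trans s.hi
  rw [pow_mul] at this
  exact (pow_le_pow_iff_left₀ (by positivity) (by positivity) (by omega)).1 this

theorem sh_far (C w : ℕ) : ∀ᶠ k in atTop, ∀ J, G.Sh C k J → k + w ≤ J := by
  filter_upwards [h.sh_L C (w + 1)] with k a J s
  by_contra e
  have b : (G.rt J k : ℝ) ≤ (G.L J : ℝ) ^ (J - k) := by exact_mod_cast h.rt_le k s.lt.le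
  have := (pow_le_pow_iff_right₀ (by linarith [h.L1 J])).1 ((a J s).trans b)
  omega

theorem ka_ev (D C : ℕ) : ∀ᶠ k in atTop, (G.ka D C k)⁻¹ ≤ √(G.bb k) := by
  filter_upwards [h.XrL4 C 1 (2 * GD.cG)] with k a
  have l := h.L1 k
  have b : (G.L k : ℝ) ^ (4⁻¹ : ℝ) ≤ (G.L k : ℝ) ^ (G.aA D + 1 - 7 * G.K) := by
    rw [← Real.rpow_natCast]
    refine Real.rpow_le_rpow_of_exponent_le (by linarith) (le_trans (b := 1) (by norm_num) ?_)
    exact Nat.one_le_cast.2 (by unfold aA; omega)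
  have := Real.sqrt_pos.2 (h.b0 k)
  rw [pow_one] at a
  rw [ka, inv_div, h.lHe, g, div_le_iff₀ (by positivity), mul_inv_cancel_left₀ this.ne']
  exact a.trans b

theorem sh_ka (D C0 C : ℕ) : ∀ᶠ k in atTop, ∀ J, G.Sh C k J →
    (G.ka D C0 J)⁻¹ ≤ (G.rt J k : ℝ) ^ (3 * C + 1) := by
  filter_upwards [eventually_forall_ge_atTop.2 (h.ka_ev D C0)] with k a J s
  refine (a J s.lt.le).trans (le_trans ?_ s.hi)
  have := h.Lb J (i := 0) (Nat.zero_le _)
  rw [pow_zero] at this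
  exact Real.sqrt_le_iff.2 ⟨by linarith, by nlinarith⟩

end Ok

end Pool.Agent.Lib.MP_7f377f_mp.RG.Q4.En.Gl
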