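import Pool.Agent.Lib.MP_7f377f_mp.G.WyA

/-! Operations on the mixed bound on the torus. -/

noncomputable section

namespace Pool.Agent.Lib.MP_7f377f_mp.Wy
variable [Pool.Agent.Lib.MP_7f377f_mp.GD]
set_option linter.unusedSectionVars false

open MeasureTheory Filter Topology Set Real YM7 Weak L6 Function
open Wu (Z4)

variable [MeasurableSpace SU2] [BorelSpace SU2] {h : Measure SU2} [h.IsHaarMeasure]
  [IsProbabilityMeasure h] {β β' : Type} {n lam : ℕ} [NeZero n] {b C C' : ℝ} {O O' : β → Fz → ℝ}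
  {A A' : Set β} {w w' : β → ℝ}

theorem E0.mono (H : E0 h b n lam O A w C) (hA : A' ⊆ A) (hw : ∀ c ∈ A', 0 ≤ w c ∧ w c ≤ w' c)
    (hC : C ≤ C') : E0 h b n lam O A' w' C' := H.imp fun m e => ⟨e.1, fun s σ hσ =>
  (e.2 s σ fun x hx => hA (hσ x hx)).trans (mul_le_mul (by gcongr)
    (Finset.prod_le_prod (fun x hx => (hw _ (hσ x hx)).1) fun x hx => (hw _ (hσ x hx)).2)
    (Finset.prod_nonneg fun x hx => (hw _ (hσ x hx)).1) (exp_pos _).le)⟩

/-- linear combinations of letters and constants -/
theorem E0.comb [Nonempty β] (H : E0 h b n lam O A w C) (hO : ∀ c ∈ A, Continuous (O c))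
    (w0 : ∀ c ∈ A, 0 ≤ w c) {O' : β' → Fz → ℝ} {A' : Set β'} {w' : β' → ℝ}
    (e : ∀ c ∈ A', ∃ (s : Finset β) (t : β → ℝ) (u : ℝ), ↑s ⊆ A ∧
      |u| + ∑ d ∈ s, |t d| * w d ≤ w' c ∧ ∀ U, O' c U = u + ∑ d ∈ s, t d * O d U) :
    E0 h b n lam O' A' w' C := by
  classical
  obtain ⟨m, hm, H⟩ := H
  haveI : NeZero m := ⟨by rintro rfl; exact NeZero.ne n (by simpa using hm)⟩
  choose! s t u e1 e2 e3 using e
  refine ⟨m, hm, fun S σ hσ => ?_⟩
  let T : Site 4 m → Finset (Option β) := fun x => if x ∈ S then (s (σ x)).insertNone else {none}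
  let c : Site 4 m → Option β → ℝ := fun x d => if x ∈ S then d.elim (u (σ x)) (t (σ x)) else 1
  have a : ∀ f : Site 4 m → β → ℝ, ∀ c : Site 4 m → Option β → ℝ, (∀ x ∉ S, c x none = 1) →
      ∏ x ∈ S, (c x none + ∑ d ∈ s (σ x), c x (some d) * f x d) =
        ∑ p ∈ Fintype.piFinset T, (∏ x, c x (p x)) * ∏ x, (p x).elim 1 (f x) := fun f c hc => by
    simp only [← Finset.prod_mul_distrib]
    rw [← Finset.prod_univ_sum (f := fun x d => c x d * d.elim 1 (f x)),
      ← Finset.prod_subset S.subset_univ fun x _ hx => by simp [T, hx, hc x hx]]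
    exact Finset.prod_congr rfl fun x hx => by simp [T, hx]
  have m1 : ∀ p ∈ Fintype.piFinset T, ∀ x d, p x = some d → d ∈ A := fun p hp x d e => by
    have := Fintype.mem_piFinset.1 hp x
    by_cases hx : x ∈ S <;> simp only [T, hx, e, if_true, if_false] at this
    · exact e1 _ (hσ x hx) (by simpa using this)
    · simp at this
  have m2 : ∀ (p : Site 4 m → Option β) (f : Site 4 m → β → ℝ), ∏ x, (p x).elim 1 (f x) =
      ∏ x with p x ≠ none, f x ((p x).getD (Classical.arbitrary β)) := fun p f => by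
    rw [Finset.prod_filter]
    exact Finset.prod_congr rfl fun x _ => by cases p x <;> simp
  have m3 : ∀ p ∈ Fintype.piFinset T, ∀ x ∈ Finset.univ.filter fun x => p x ≠ none,
      (p x).getD (Classical.arbitrary β) ∈ A := fun p hp x hx => by
    obtain ⟨d, hd⟩ := Option.ne_none_iff_exists'.1 (Finset.mem_filter.1 hx).2
    simpa [hd] using m1 p hp x d hd
  have a1 : ∀ U : Cfg n, ∏ x ∈ S, O' (σ x) (lf (shift (corner lam x) U)) = _ := fun U =>
    (Finset.prod_congr rfl fun x hx => by simp [c, hx, e3 _ (hσ x hx)]).trans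
      (a (fun x d => O d (lf (shift (corner lam x) U))) c fun x hx => if_neg hx)
  have a2 := a (fun _ => w) (fun x d => |c x d|) fun x hx => by simp [c, hx]
  simp only [a1, m2] at a2 ⊢
  rw [integral_finsetSum _ fun p hp => cint _ (continuous_const.fun_mul (continuous_finsetProd _
    fun x hx => (hO _ (m3 p hp x hx)).comp' (cont_lf.comp' (continuous_shift _))))]
  refine (Finset.abs_sum_le_sum_abs _ _).trans (le_trans ?_ (mul_le_mul_of_nonneg_left
    (a2.ge.trans (Finset.prod_le_prod (fun x hx => add_nonneg (abs_nonneg _) (Finset.sum_nonneg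
      fun d hd => mul_nonneg (abs_nonneg _) (w0 d (e1 _ (hσ x hx) hd)))) fun x hx => by
        simpa [c, hx] using e2 _ (hσ x hx))) (exp_pos _).le))
  rw [Finset.mul_sum]
  refine Finset.sum_le_sum fun p hp => ?_
  rw [integral_const_mul, abs_mul, Finset.abs_prod, mul_left_comm]
  exact mul_le_mul_of_nonneg_left (H _ _ (m3 p hp)) (Finset.prod_nonneg fun _ _ => abs_nonneg _)

/-- observables without correlations with far observables -/
def Nl (h : Measure SU2) (b : ℝ) (n : ℕ) [NeZero n] (R : ℕ) (N : Fz → ℝ) : Prop :=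
  ∀ G : Cfg n → ℝ, Continuous G →
  DependsOn G {e | ∃ i, R < |(e.1 i).valMinAbs|} → ∫ U, N (lf U) * G U ∂wilson h b n = 0

/-- null letters can be added -/
theorem E0.null (H : E0 h b n lam O A w C) {R R' : ℕ} (hR : R + R' < lam)
    (hO : ∀ c ∈ A, Continuous (O c) ∧ DependsOn (O c) {l | ∀ i, |l.1 i| ≤ R'})
    (hO' : ∀ c ∈ A, Continuous (O' c) ∧ DependsOn (O' c) {l | ∀ i, |l.1 i| ≤ R'})
    (e : ∀ c ∈ A, Nl h b n R fun U => O' c U - O c U) : E0 h b n lam O' A w C := by
  classical
  obtain ⟨m, hm, H⟩ := H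
  haveI : NeZero m := ⟨by rintro rfl; exact NeZero.ne n (by simpa using hm)⟩
  refine ⟨m, hm, fun S σ hσ => le_of_eq_of_le (congrArg _ ?_) (H S σ hσ)⟩
  suffices ∀ T ⊆ S, ∫ U, ∏ x ∈ S, (if x ∈ T then O' else O) (σ x) (lf (shift (corner lam x) U))
      ∂wilson h b n = ∫ U, ∏ x ∈ S, O (σ x) (lf (shift (corner lam x) U)) ∂wilson h b n from
    .trans (congrArg _ (funext fun U => Finset.prod_congr rfl fun x hx => by rw [if_pos hx]))
      (this S subset_rfl)
  intro T
  induction T using Finset.induction_on with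
  | empty => simp
  | insert z T hz ih =>
    intro hT
    have z1 := hT (Finset.mem_insert_self _ _)
    have p : ∀ x ∈ S, Continuous ((if x ∈ T then O' else O) (σ x)) ∧
        DependsOn ((if x ∈ T then O' else O) (σ x)) {l | ∀ i, |l.1 i| ≤ R'} := fun x hx => by
      split_ifs
      exacts [hO' _ (hσ x hx), hO _ (hσ x hx)]
    have c : ∀ v : Site 4 m → Site 4 n, Continuous fun U : Cfg n => ∏ x ∈ S.erase z,
        (if x ∈ T then O' else O) (σ x) (lf (shift (v x) U)) := fun v =>
      continuous_finsetProd _ fun x hx => (p x (Finset.mem_of_mem_erase hx)).1.comp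
        (cont_lf.comp (continuous_shift _))
    have c1 := (hO _ (hσ z z1)).1.comp' (cont_lf (n := n))
    have c2 := (hO' _ (hσ z z1)).1.comp' (cont_lf (n := n))
    have := e _ (hσ z z1) _ (c fun x => corner lam x - corner lam z) fun U V e =>
      Finset.prod_congr rfl fun x hx => (p x (Finset.mem_of_mem_erase hx)).2 fun l hl => e _ (by
        obtain ⟨i, hi⟩ := ne_iff.1 (Finset.ne_of_mem_erase hx)
        refine ⟨i, lt_of_not_ge fun u => hi ?_⟩
        obtain ⟨v, hv⟩ : ∃ v : ℤ, v = ((l.1 i : ZMod n) + (corner lam x - corner lam z : Site 4 n)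
          i).valMinAbs := ⟨_, rfl⟩
        have v1 : (n : ℤ) ∣ v - l.1 i - lam * ((x i).val - (z i).val) := by
          rw [← ZMod.intCast_zmod_eq_zero_iff_dvd, hv]
          simp [corner, mul_sub]
        obtain ⟨k, hk⟩ := v1
        have v2 : v - l.1 i = lam * ((x i).val - (z i).val + m * k) := by
          rw [hm] at hk
          push_cast at hk
          linarith
        have v3 := Int.eq_zero_of_abs_lt_dvd ⟨_, v2⟩ (by
          have := abs_le.1 (hl i)
          have := abs_le.1 (hv ▸ u : |v| ≤ R)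
          rw [abs_lt]
          omega)
        rw [v3, eq_comm, mul_eq_zero] at v2
        rw [← ZMod.natCast_zmod_val (x i), ← ZMod.natCast_zmod_val (z i), ← Int.cast_natCast,
          ← Int.cast_natCast (z i).val, ZMod.intCast_eq_intCast_iff_dvd_sub]
        exact ⟨k, by linarith [v2.resolve_left (by omega)]⟩)
    rw [← int_mp (mp_shift' h b (corner lam z)) ((c2.fun_sub c1).fun_mul (c _))] at this
    simp only [shift_shift, sub_add_cancel, sub_mul] at this
    rw [integral_sub (cint _ ((c2.comp' (continuous_shift _)).fun_mul (c _)))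
      (cint _ ((c1.comp' (continuous_shift _)).fun_mul (c _))), sub_eq_zero] at this
    rw [← ih ((Finset.subset_insert _ _).trans hT)]
    simp only [← Finset.mul_prod_erase S _ z1, Finset.mem_insert_self, hz, if_true, if_false]
    refine .trans (congrArg _ (funext fun U => congrArg _ (Finset.prod_congr rfl fun x hx => ?_))) this
    simp only [Finset.mem_insert, Finset.ne_of_mem_erase hx, false_or]

end Pool.Agent.Lib.MP_7f377f_mp.Wy
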