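import Pool.Agent.Lib.MP_7f377f_mp.G.WyP

/-! Bounds for products of combinations of letters. -/

noncomputable section

namespace Pool.Agent.Lib.MP_7f377f_mp.Wy
variable [Pool.Agent.Lib.MP_7f377f_mp.GD]
set_option linter.unusedSectionVars false

open MeasureTheory Filter Topology Set Real YM7 Weak L6 MvPolynomial Wv ComplexConjugate Function
open Wu (Z4)

variable [MeasurableSpace SU2] [BorelSpace SU2] {h : Measure SU2} [h.IsHaarMeasure]
  [IsProbabilityMeasure h] {β V : Type} {n : ℕ × ℕ → ℕ} [∀ p, NeZero (n p)] {a b : ℕ × ℕ → ℝ}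
  {O : ℕ × ℕ → V → Fz → ℝ} {θ : Fin 4 → V → V} {Q : ℕ × ℕ → β → Fz → ℝ} {r : Fin 4 → β → β}
  {A : ℕ → Set β} {w : ℕ → β → ℝ} {ℓ C : ℝ}

theorem fin_sites {a : ℝ} (a0 : 0 < a) (R : ℝ) : {y : Z4 | ∀ l, |a * y l| ≤ R}.Finite :=
  (Finite.pi' fun _ => finite_Icc (-⌈R / a⌉) ⌈R / a⌉).subset fun y hy l => by
    have := hy l
    rw [abs_mul, abs_of_pos a0, ← le_div_iff₀' a0, ← Int.cast_abs] at this
    exact abs_le.1 (Int.cast_le.1 (this.trans (Int.le_ceil _)))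

theorem lb (hF : Fm n a b) (hE : EF h n a b Q r A w ℓ C) (C0 : 0 ≤ C) {g H ρ : ℝ} (g0 : 0 ≤ g)
    (ρ0 : 0 ≤ ρ) (h1 : 10 * (g + 2 * ρ) < 9 * ℓ) (h2 : 7 * ℓ + 2 * ρ < H) (I : Type) [Fintype I]
    (R : ℝ) {ε : ℝ} (e0 : 0 < ε) : ∀ᶠ p in fast, ∀ (z : I → R4) (η : I → ℝ) (Y : I → Fz → ℂ),
      Tm z g H → (∀ i l, |z i l| ≤ R) →
      (∀ i, Cb (Q p) (A p.2) (w p.2) (a p) (z i) ρ (η i) (Y i)) →
      ‖ex h (b p) (n p) fun U => ∏ i, Y i U‖ ≤ exp (ε + 256 * C * Fintype.card I) * ∏ i, η i := by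
  classical
  have a1 := ev_fast.1 (hF.a0.eventually (Ioo_mem_nhdsGT (show 0 < (H - 2 * ρ - 7 * ℓ) / 8 by
    linarith)))
  refine ev_fast.2 ?_
  filter_upwards [hE, a1, ev_fast.1 hF.b0] with J ⟨lam, e1, hJ⟩ a1 hb
  obtain ⟨_, a0, a2⟩ := a1.exists
  simp only [hF.aJ (_, J)] at a0 a2 ⊢
  generalize a (0, J) = t at *
  have g1 : 10 * ⌊(g + 2 * ρ) / t⌋ < 9 * lam := by
    have := (le_div_iff₀' a0).1 (Int.floor_le ((g + 2 * ρ) / t))
    exact_mod_cast lt_of_mul_lt_mul_left (show t * (10 * ⌊(g + 2 * ρ) / t⌋) < t * (9 * lam) by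
      linarith) a0.le
  have g2 : 0 ≤ ⌊(g + 2 * ρ) / t⌋ := Int.floor_nonneg.2 (by positivity)
  obtain ⟨K, hK⟩ := hJ.lt
  filter_upwards [hK, (eventually_all_finite (Finite.pi' fun _ : I =>
    (fin_sites a0 (R + ρ)).prod hJ.fin)).2 fun q hq => eventually_imp_distrib_left.2 fun k1 =>
      eventually_imp_distrib_left.2 fun k2 => pt ((hF.vol J).mono_left hyp_le) hb hJ C0 g2 (by omega)
        (fun i => (q i).2) (fun i => (q i).1) (fun i => (hq i).2) k1 k2 e0] with s k0 k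
  intro z η Y hz hR hY
  choose S u u1 u2 u3 using hY
  have c : ∀ q ∈ Fintype.piFinset S, Continuous fun U => ∏ i, (Q (3 ^ s / 2, J) (q i).2
      (tz (q i).1 U) : ℂ) := fun q hq => continuous_finsetProd _ fun i _ =>
    Complex.continuous_ofReal.comp ((k0.cont _ (u1 i _ (Fintype.mem_piFinset.1 hq i)).1).comp
      (cont_tz _))
  simp only [u3, Finset.prod_univ_sum, Finset.prod_mul_distrib]
  rw [ex_sum _ fun q hq => continuous_const.fun_mul (c q hq)]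
  refine le_trans ?_ (mul_le_mul_of_nonneg_left (Finset.prod_le_prod (fun i _ => Finset.sum_nonneg
    fun q hq => mul_nonneg (norm_nonneg _) (hJ.pos _ (u1 i q hq).1).le) fun i _ => u2 i)
      (exp_pos _).le)
  rw [Finset.prod_univ_sum, Finset.mul_sum]
  refine (norm_sum_le _ _).trans (Finset.sum_le_sum fun q hq => ?_)
  have v := fun i => u1 i _ (Fintype.mem_piFinset.1 hq i)
  have d : ∀ i j l, |(|t * (q i).1 l - t * (q j).1 l|) - (|z i l - z j l|)| ≤ 2 * ρ := fun i j l =>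
    (abs_abs_sub_abs_le _ _).trans (by
      rw [sub_sub_sub_comm]; linarith [abs_sub _ _ |>.trans (add_le_add ((v i).2 l) ((v j).2 l))])
  simp only [← mul_sub, abs_mul, abs_of_pos a0, ← Int.cast_sub, ← Int.cast_abs, abs_le] at d
  have f : ∀ i j l, H ≤ |z i l - z j l| → 7 * lam + 8 ≤ |(q i).1 l - (q j).1 l| := fun i j l e => by
    exact_mod_cast le_of_mul_le_mul_left (show t * (7 * lam + 8) ≤ t * (|(q i).1 l - (q j).1 l| : ℤ)
      by linarith [(d i j l).1]) a0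
  rw [ex_mul, norm_mul, Finset.prod_mul_distrib, mul_left_comm, norm_prod]
  refine mul_le_mul_of_nonneg_left (k q (fun i => ⟨fun l => ?_, (v i).1⟩) (fun i j l =>
    (hz.1 i j l).imp (fun e => Int.le_floor.2 ((le_div_iff₀' a0).2 ?_)) (f i j l)) fun i j e =>
      (hz.2 i j e).imp fun l e => by have := f i j l e; omega) (by positivity)
  · linarith [abs_sub_abs_le_abs_sub (t * (q i).1 l) (z i l), (v i).2 l, hR i l]
  · linarith [(d i j l).2]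

theorem exists_scale {g : ℝ} (g0 : 0 < g) (g1 : g ≤ 1) :
    ∃ e : ℕ, 9 * g ≤ 2 * (9 / 3 ^ e) ∧ 2 * (9 / 3 ^ e) ≤ 27 * g := by
  obtain ⟨e, h1, h2⟩ := exists_nat_pow_near_of_lt_one (half_pos g0) (by linarith)
    (by norm_num : (0 : ℝ) < 3⁻¹) (by norm_num)
  rw [pow_succ] at h1
  exact ⟨e, by rw [div_eq_mul_inv, ← inv_pow]; constructor <;> linarith⟩

theorem EN.el {D : Set V} (hN : EN h n a b O θ D) : EL h n a b O θ := by
  intro A h1 h2
  obtain ⟨C, s, C0, e⟩ := hN A h1 h2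
  exact ⟨C, s, C0, fun k => by simpa only [ite_self] using e k (3 ^ (s * (k + 1))) (by positivity)⟩

theorem ex_cl (hθ : Lm.Inv4 θ) {k : ℕ} (c : Fin k → V) : ∃ A : Set V, A.Finite ∧
    (∀ μ, ∀ c ∈ A, θ μ c ∈ A) ∧ ∀ i, c i ∈ A :=
  ⟨range fun q : Fin k × (Fin 4 → Bool) => Wx.tw θ q.2 (c q.1), finite_range _,
    by rintro μ _ ⟨q, rfl⟩; exact ⟨(q.1, _), (Wx.θ_tw hθ μ _ _).symm⟩, fun i => ⟨(i, fun _ => true), rfl⟩⟩

theorem pb_core (hF : Fm n a b) {k : ℕ} {c : Fin k → V} {A : Set V} (hA : ∀ i, c i ∈ A) {δ : ℝ}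
    (δ0 : 0 < δ) {w : ℕ → V → ℝ} (C0 : 0 ≤ C) (hE : ∀ e : ℕ,
      EF h n a b O θ (fun _ => A) (fun _ => w e) (9 / 3 ^ e) (C * (e + 1))) :
    ∃ E : Finset ℕ, ∀ R : ℝ, ∀ᶠ p in fast, ∀ y : Fin k → Z4, (∀ i l, |a p * y i l| ≤ R) →
      (∀ i j, i ≠ j → ∃ l, δ ≤ |a p * y i l - a p * y j l|) → ∃ e ∈ E,
      ‖ex h (b p) (n p) fun U => ∏ i, (O p (c i) (tz (y i) U) : ℂ)‖ ≤
        exp (1 + 256 * (C * (e + 1)) * k) * ∏ i, w e (c i) := by
  obtain ⟨d, d0, d1, d2⟩ : ∃ d > (0 : ℝ), d ≤ 1 ∧ d < δ :=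
    ⟨min 1 (δ / 2), by positivity, min_le_left _ _, (min_le_right _ _).trans_lt (half_lt_self δ0)⟩
  have g0 : ∀ m : ℕ, 0 < d / 100 ^ m := fun m => by positivity
  have g1 : ∀ m : ℕ, d / 100 ^ m ≤ d := fun m => div_le_self d0.le (one_le_pow₀ (by norm_num))
  choose e e1 e2 using fun m => exists_scale (g0 m) ((g1 m).trans d1)
  refine ⟨(Finset.range (Fintype.card (Fin k × Fin k × Fin 4) + 1)).image e, fun R => ?_⟩
  filter_upwards [(eventually_all_finset (Finset.range (Fintype.card (Fin k × Fin k × Fin 4) + 1))).2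
    fun m _ => lb (H := 100 * (d / 100 ^ m)) hF (hE (e m)) (by positivity) (g0 m).le le_rfl
      (by linarith [e1 m, g0 m]) (by linarith [e2 m, g0 m]) (Fin k) R one_pos] with p hp y y1 y2
  obtain ⟨m, m1, m2⟩ := Wx.gap (fun q : Fin k × Fin k × Fin 4 =>
    |a p * y q.1 q.2.2 - a p * y q.2.1 q.2.2|) d0
  have m3 := Finset.mem_range.2 (Nat.lt_succ_of_le m1)
  refine ⟨e m, Finset.mem_image_of_mem _ m3, ?_⟩
  simpa only [Fintype.card_fin] using hp m m3 (fun i => pz (a p) (y i)) _ _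
    ⟨fun i j l => m2 (i, j, l), fun i j u => (y2 i j u).imp fun l v => (m2 (i, j, l)).resolve_left
      (not_le.2 (((g1 m).trans_lt d2).trans_le v))⟩ y1 fun i =>
    ⟨{(y i, c i)}, 1, by simp [hA, pz], by simp, by simp⟩

theorem pb (hF : Fm n a b) (hθ : Lm.Inv4 θ) (hL : EL h n a b O θ) : PB h n a b O := by
  intro k c δ δ0
  obtain ⟨A, h1, h2, h3⟩ := ex_cl hθ c
  obtain ⟨C, s, C0, e⟩ := hL A h1 h2
  obtain ⟨E, hE⟩ := pb_core hF h3 δ0 C0 e
  refine ⟨∑ e ∈ E, exp (1 + 256 * (C * (e + 1)) * k) * ∏ _ : Fin k, 3 ^ (s * (e + 1)), fun R =>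
    (hE R).mono fun p hp y y1 y2 => ?_⟩
  obtain ⟨m, m1, m2⟩ := hp y y1 y2
  exact m2.trans (Finset.single_le_sum (f := fun e : ℕ => exp (1 + 256 * (C * (e + 1)) * k) *
    ∏ _ : Fin k, (3 : ℝ) ^ (s * (e + 1))) (fun _ _ => by positivity) m1)

/-- words with a negligible letter -/
theorem pbn (hF : Fm n a b) (hθ : Lm.Inv4 θ) {D : Set V} (hN : EN h n a b O θ D) {k : ℕ}
    (c : Fin k → V) (hc : ∃ i, c i ∈ D) {δ ε : ℝ} (δ0 : 0 < δ) (e0 : 0 < ε) (R : ℝ) :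
    ∀ᶠ p in fast, ∀ y : Fin k → Z4, (∀ i l, |a p * y i l| ≤ R) →
      (∀ i j, i ≠ j → ∃ l, δ ≤ |a p * y i l - a p * y j l|) →
      ‖ex h (b p) (n p) fun U => ∏ i, (O p (c i) (tz (y i) U) : ℂ)‖ ≤ ε := by
  obtain ⟨A, h1, h2, h3⟩ := ex_cl hθ c
  obtain ⟨C, s, C0, e⟩ := hN A h1 h2
  obtain ⟨i, hi⟩ := hc
  obtain ⟨E, hE⟩ := pb_core hF h3 δ0 C0 fun m => e m (min 1 (ε / (exp (1 + 256 * (C * (m + 1)) * k) *
    (3 ^ (s * (m + 1))) ^ k))) (by positivity)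
  refine (hE R).mono fun p hp y y1 y2 => ?_
  obtain ⟨m, -, m2⟩ := hp y y1 y2
  have W : (1 : ℝ) ≤ 3 ^ (s * (m + 1)) := one_le_pow₀ (by norm_num)
  refine m2.trans ?_
  rw [← Finset.mul_prod_erase _ _ (Finset.mem_univ i), if_pos hi, mul_left_comm]
  refine (mul_le_mul (min_le_right _ _) (mul_le_mul_of_nonneg_left ((Finset.prod_le_prod
    (g := fun _ => 3 ^ (s * (m + 1))) (fun j _ => by positivity) fun j _ => ?_).trans ?_)
      (exp_pos _).le) (by positivity) (by positivity)).trans_eq (div_mul_cancel₀ _ (by positivity))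
  · split_ifs
    exacts [(min_le_left _ _).trans W, le_rfl]
  · rw [Finset.prod_const]
    exact pow_le_pow_right₀ W (Finset.card_erase_le.trans (by simp))

end Pool.Agent.Lib.MP_7f377f_mp.Wy
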