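import Pool.Agent.Lib.MP_7f377f_mp.G.WyS2
import Pool.Agent.Lib.MP_7f377f_mp.G.WyB

/-! Negligible letters. -/

noncomputable section

namespace Pool.Agent.Lib.MP_7f377f_mp.Wy
variable [Pool.Agent.Lib.MP_7f377f_mp.GD]
set_option linter.unusedSectionVars false

open MeasureTheory Filter Topology Set Real YM7 Weak L6 MvPolynomial Wv ComplexConjugate Function
open Wu (Z4)

variable [MeasurableSpace SU2] [BorelSpace SU2] {h : Measure SU2} [h.IsHaarMeasure]
  [IsProbabilityMeasure h] {β V : Type} {n : ℕ × ℕ → ℕ} [∀ p, NeZero (n p)] {a b : ℕ × ℕ → ℝ}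
  {O : ℕ × ℕ → V → Fz → ℝ} {θ : Fin 4 → V → V} {hθ : Lm.Inv4 θ} {U : Ultrafilter (ℕ × ℕ)}
  {S : PolL V →ₗ[ℂ] ℂ} {Q : ℕ × ℕ → β → Fz → ℝ} {r : Fin 4 → β → β} {A : ℕ → Set β}
  {w : ℕ → β → ℝ} {ℓ C : ℝ}
  {Δ : ℕ × ℕ → Fz → ℝ}

theorem inv4_e (hθ : Lm.Inv4 θ) : Lm.Inv4 (θe θ) := by
  refine ⟨?_, ?_⟩
  · rintro μ (c | e) <;> simp [θe, hθ.1]
  · rintro μ ν (c | e)
    · simp [θe, hθ.2 μ]
    · by_cases u : μ = ν <;> simp [θe, u, update_comm, eq_comm (a := ν)]

theorem tw_θ (hθ : Lm.Inv4 θ) (μ e c) : Wx.tw θ e (θ μ c) = θ μ (Wx.tw θ e c) := by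
  have a : ∀ ν b c, Wx.pw (θ ν) b (θ μ c) = θ μ (Wx.pw (θ ν) b c) := fun ν b c => by
    cases b <;> simp [Wx.pw, hθ.2 μ ν]
  simp only [Wx.tw, a]

theorem pw_loc {α : Type} [TopologicalSpace α] {F : Fz → α} {R : ℕ} (μ : Fin 4) (e : Bool)
    (hF : Continuous F ∧ DependsOn F {l | ∀ i, |l.1 i| ≤ R}) :
    Continuous (F ∘ Wx.pw (rz μ) e) ∧
      DependsOn (F ∘ Wx.pw (rz μ) e) {l | ∀ i, |l.1 i| ≤ (R + 1 : ℕ)} := by
  cases e
  · refine ⟨hF.1.comp (cont_rz μ), fun U V e => hF.2 fun l hl => ?_⟩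
    have u (t : ℤ) (h : |t| ≤ 1) : U (update l.1 μ (-l.1 μ - t), l.2) =
        V (update l.1 μ (-l.1 μ - t), l.2) := e _ fun i => by
      have := abs_le.1 (hl i)
      have := abs_le.1 h
      by_cases k : i = μ <;> simp [k, abs_le] at * <;> omega
    show rz μ U l = rz μ V l
    unfold rz
    split_ifs
    exacts [congrArg Inv.inv (u 1 (by simp)), by have := u 0 (by simp); rwa [sub_zero] at this]
  · exact ⟨hF.1, hF.2.mono fun l hl i => (hl i).trans (by simp)⟩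

section
variable {m k : ℕ} [NeZero m] {a b R δ : ℝ}

theorem ex_co {Y : Fin k → Bool → Fz → ℂ} (hY : ∀ i e, Continuous (Y i e)) (t : Fin k → ℂ) :
    ex h b m (fun W => ∏ i, (Y i false W + t i * Y i true W)) =
      ∑ e : Fin k → Bool, (∏ i, bif e i then t i else 1) * ex h b m fun W => ∏ i, Y i (e i) W := by
  simp only [← ex_mul, ← Finset.prod_mul_distrib]
  rw [← ex_sum _ fun e _ => by fun_prop]
  refine congrArg _ (funext fun W => ?_)
  rw [← Fintype.piFinset_univ, ← Finset.prod_univ_sum (fun _ => Finset.univ)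
    fun i e => (bif e then t i else 1) * Y i e W]
  simp [add_comm]

/-- smeared words from bounds at points -/
theorem word_pt (a0 : 0 < a ∧ a ≤ 1) (R0 : 0 ≤ R) {O : Fin k → Fz → ℝ} (hO : ∀ i, Continuous (O i))
    (hC : ∀ y : Fin k → Z4, (∀ i l, |a * y i l| ≤ R) →
      (∀ i j, i ≠ j → ∃ l, δ / 2 ≤ |a * y i l - a * y j l|) →
      ‖ex h b m fun U => ∏ i, (O i (tz (y i) U) : ℂ)‖ ≤ C) {g : Fin k → R4 → ℝ} {t : Fin k → ℝ}
    (hg : ∀ i y, |g i y| ≤ t i ∧ (g i y ≠ 0 → ‖y‖ ≤ R))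
    (hs : ∀ i j, i ≠ j → ∀ x y, g i x ≠ 0 → g j y ≠ 0 → δ ≤ dist x y) :
    ‖ex h b m fun W => ∏ i, (sm a (O i) (g i) W : ℂ)‖ ≤ |C| * ∏ i, (2 * R + 1) ^ 4 * t i := by
  obtain ⟨s, s1, s2⟩ := exists_box a0.1 0 R0
  have e (i y) (u : g i (pz a y) ≠ 0) (l) : |a * y l| ≤ R :=
    (PiLp.norm_apply_le (pz a y) l).trans ((hg i _).2 u)
  have t0 (i) : 0 ≤ t i := (abs_nonneg _).trans (hg i 0).1
  simp only [fun i => sm_eq (s := s) (fun y u => (s1 y).2 (by simpa using e i y u)) (O i),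
    Complex.ofReal_sum, Finset.prod_univ_sum, Complex.ofReal_mul, Finset.prod_mul_distrib (f := fun i =>
      ((a ^ 4 : ℝ) : ℂ) * (g i _ : ℝ))]
  rw [ex_sum _ fun y _ => by fun_prop]
  refine (norm_sum_le_of_le (n := fun _ => |C| * ∏ i, a ^ 4 * t i) _ fun y _ => ?_).trans ?_
  · rw [ex_mul, norm_mul, mul_comm]
    by_cases u : ∀ i, g i (pz a (y i)) ≠ 0
    · refine mul_le_mul ((hC y (fun i => e i _ (u i)) fun i j v => exists_coord
        (hs i j v _ _ (u i) (u j))).trans (le_abs_self C)) ?_ (norm_nonneg _) (abs_nonneg _)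
      rw [norm_prod]
      refine Finset.prod_le_prod (fun _ _ => norm_nonneg _) fun i _ => ?_
      rw [norm_mul, Complex.norm_real, Complex.norm_real, norm_of_nonneg (pow_pos a0.1 4).le]
      exact mul_le_mul_of_nonneg_left (hg i _).1 (pow_pos a0.1 4).le
    · obtain ⟨i, u⟩ := not_forall.1 u
      rw [Finset.prod_eq_zero (Finset.mem_univ i) (by simp [not_not.1 u]), norm_zero, mul_zero]
      exact mul_nonneg (abs_nonneg _) (Finset.prod_nonneg fun i _ =>
        mul_nonneg (pow_pos a0.1 4).le (t0 i))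
  · rw [Finset.sum_const, nsmul_eq_mul, mul_left_comm, Fintype.card_piFinset, Nat.cast_prod,
      ← Finset.prod_mul_distrib]
    refine mul_le_mul_of_nonneg_left (Finset.prod_le_prod (fun i _ => mul_nonneg (Nat.cast_nonneg _)
      (mul_nonneg (pow_pos a0.1 4).le (t0 i))) fun i _ => ?_) (abs_nonneg _)
    rw [← mul_assoc, mul_comm _ (a ^ 4)]
    exact mul_le_mul_of_nonneg_right (s2.trans (pow_le_pow_left₀ (by linarith [a0.1])
      (by linarith [a0.2]) 4)) (t0 i)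

end

theorem negl_word (hF : Fm n a b) (hθ : Lm.Inv4 θ) (hP : Pl O θ) {D : Set V}
    (hN : EN h n a b O θ D) {k : ℕ} (c : Fin k → V) (hc : ∃ i, c i ∈ D) {f : Fin k → R4 → ℝ}
    (hf : Adm f) : Tendsto (fun p => ex h (b p) (n p) fun W =>
      ∏ i, (sm (a p) (O p (c i)) (f i) W : ℂ)) fast (𝓝 0) := by
  obtain ⟨R, q, e1, e2, e3⟩ := hf.data
  refine NormedAddGroup.tendsto_nhds_zero.2 fun ε ε0 => ?_
  set K : ℝ := ∏ _ : Fin k, (2 * R + 1) ^ 4 * R
  have K0 : 0 ≤ K := by positivity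
  have e0 : 0 < ε / (K + 1) := by positivity
  filter_upwards [hF.pos one_pos, pbn hF hθ hN c hc (δ := 1 / (q + 1) / 2) (by positivity) e0 R] with p a0 u
  refine (word_pt a0 R.cast_nonneg (fun i => hP.cont p _) u (t := fun _ => R)
    (fun i y => ⟨(e2 i).2 y, fun v => e1 i y (subset_tsupport _ v)⟩) fun i j v x y h1 h2 =>
      e3 i j v x (subset_tsupport _ h1) y (subset_tsupport _ h2)).trans_lt ?_
  rw [abs_of_pos e0, div_mul_eq_mul_div, div_lt_iff₀ (by linarith)]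
  nlinarith

theorem tend_ind {h1 h2} {l : Filter (ℕ × ℕ)} (hl : ∀ᶠ p in l, 0 < a p) (hO : ∀ p c, Continuous (O p c))
    {G : ℕ × ℕ → Fz → ℂ} (hG : ∀ᶠ p in l, Continuous (G p)) {T : PolL V →ₗ[ℂ] ℂ} {K : Set R4}
    (H : ∀ k (c : Fin k → V) f, Adm f → (∀ i, tsupport (f i) ⊆ K) → Tendsto (fun p => ex h (b p) (n p)
      fun W => G p W * ∏ i, (sm (a p) (O p (c i)) (f i) W : ℂ)) l (𝓝 (T (∏ i, xL (c i) (f i)))))
    {Z : PolL V} (hZ : Z ∈ (netL (θ := θ) h1 h2).loc K) :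
    Tendsto (fun p => ex h (b p) (n p) fun W => G p W * ev (a p) (O p) W Z) l (𝓝 (T Z)) := by
  induction hZ using Submodule.span_induction with
  | mem Z hZ =>
    obtain ⟨k, f, q, hf, e, rfl⟩ := hZ
    choose e c hc using e
    simpa only [← hc, map_prod, ev_x] using H k c f hf e
  | zero => simpa [ex_const] using tendsto_const_nhds
  | add X Y hX hY u v =>
    rw [map_add]
    refine (u.add v).congr' ?_
    filter_upwards [hl, hG] with p a0 g
    simp only [map_add, mul_add]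
    exact (ex_add (g.mul (ev_cont a0 (hO p) ((netL h1 h2).mono hX (subset_univ _))))
      (g.mul (ev_cont a0 (hO p) ((netL h1 h2).mono hY (subset_univ _))))).symm
  | smul t X _ h1 =>
    simpa only [map_smul, smul_eq_mul, mul_left_comm _ t, ex_mul] using h1.const_mul t

theorem Pl.ext (hP : Pl O θ)
    (hΔ : ∃ R : ℕ, ∀ p, Continuous (Δ p) ∧ DependsOn (Δ p) {l | ∀ i, |l.1 i| ≤ R}) :
    Pl (Oe O Δ) (θe θ) := by
  refine ⟨?_, ?_⟩
  · rintro (c | e)
    · exact hP.loc c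
    · exact hΔ.elim fun R u => ⟨_, fun p => pw_loc 3 _ (pw_loc 2 _ (pw_loc 1 _ (pw_loc 0 _ (u p))))⟩
  · rintro μ (c | e)
    · exact hP.rf μ c
    · refine .of_forall fun p U => congrArg (Δ p) ?_
      rw [tw_θ inv4_rz, Wx.θ_tw inv4_rz]
      exact congrArg (Wx.tw rz · U) (funext fun ν => by by_cases u : ν = μ <;> simp [u])

/-- a negligible letter does not contribute -/
theorem negl (hF : Fm n a b) (hθ : Lm.Inv4 θ) (hP : Pl O θ)
    (hΔ : ∃ R : ℕ, ∀ p, Continuous (Δ p) ∧ DependsOn (Δ p) {l | ∀ i, |l.1 i| ≤ R})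
    (hN : EN h n a b (Oe O Δ) (θe θ) (range Sum.inr)) {g : R4 → ℝ} (hg : Wm.C1 univ g)
    {Z : PolL V} (hZ : Z ∈ (netL hθ.1 hθ.2).loc (tsupport g)ᶜ) :
    Tendsto (fun p => ex h (b p) (n p) fun W => sm (a p) (Δ p) g W * ev (a p) (O p) W Z) fast
      (𝓝 0) := by
  refine tend_ind (T := 0) ((hF.pos one_pos).mono fun _ e => e.1) hP.cont ((hF.pos one_pos).mono fun p e =>
    Complex.continuous_ofReal.comp (sm_cont e.1 hg.1 (hΔ.choose_spec p).1)) (fun k c f hf e => ?_) hZ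
  simpa [Fin.prod_univ_succ, Oe, Wx.tw, Wx.pw] using negl_word hF (inv4_e hθ) (hP.ext hΔ) hN
    (Fin.cons (.inr fun _ => false) fun i => .inl (c i)) ⟨0, _, rfl⟩ (f := Fin.cons g f) 
      (have u i := disjoint_compl_right.mono_right (e i); ⟨Fin.forall_fin_succ.2 ⟨⟨hg.1, hg.2.1⟩, hf.1⟩,
        pairwise_fin_succ_iff.2 ⟨fun i => (u i).symm, u, hf.2⟩⟩)

theorem PB.mod (hF : Fm n a b) (hθ : Lm.Inv4 θ) (hP : Pl O θ)
    (hΔ : ∃ R : ℕ, ∀ p, Continuous (Δ p) ∧ DependsOn (Δ p) {l | ∀ i, |l.1 i| ≤ R})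
    (hN : EN h n a b (Oe O Δ) (θe θ) (range Sum.inr)) (t : V → ℝ) :
    PB h n a b fun p c W => O p c W + t c * Δ p W := fun k c δ δ0 => by
  choose C hC using fun e : Fin k → Bool => pb hF (inv4_e hθ) hN.el k
    (fun i => bif e i then .inr fun _ => false else .inl (c i)) δ δ0
  refine ⟨∑ e, ‖∏ i, bif e i then (t (c i) : ℂ) else 1‖ * C e, fun R =>
    (eventually_all.2 fun e => hC e R).mono fun p u y h1 h2 => ?_⟩
  have := ex_co (h := h) (b := b p) (m := n p) (Y := fun i e W => Oe O Δ p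
    (bif e then .inr fun _ => false else .inl (c i)) (tz (y i) W)) (fun i e =>
      Complex.continuous_ofReal.comp (((hP.ext hΔ).cont p _).comp (cont_tz _))) fun i => t (c i)
  push_cast
  exact (congrArg _ this).trans_le (norm_sum_le_of_le _ fun e _ => (norm_mul _ _).trans_le
    (mul_le_mul_of_nonneg_left (u e y h1 h2) (norm_nonneg _)))

theorem LimL.mod (L : LimL h n a b O (netL hθ.1 hθ.2) U S) (hF : Fm n a b) (hP : Pl O θ)
    (hΔ : ∃ R : ℕ, ∀ p, Continuous (Δ p) ∧ DependsOn (Δ p) {l | ∀ i, |l.1 i| ≤ R})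
    (hN : EN h n a b (Oe O Δ) (θe θ) (range Sum.inr)) (t : V → ℝ) :
    LimL h n a b (fun p c W => O p c W + t c * Δ p W) (netL hθ.1 hθ.2) U S := by
  have a0 : ∀ᶠ p in U, 0 < a p := ((hF.pos one_pos).mono fun _ e => e.1).filter_mono L.le
  refine ⟨L.le, fun Z hZ => ?_⟩
  refine (tend_ind (h := h) (n := n) (b := b) (G := fun _ _ => 1) (O := fun p c W => O p c W + t c * Δ p W) a0
    (fun p c => (hP.cont p c).add (continuous_const.mul (hΔ.choose_spec p).1))
    (.of_forall fun _ => continuous_const) (fun k c f hf _ => ?_) hZ).congr fun p => by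
      simp only [one_mul]
  have := tendsto_finsetSum Finset.univ fun (e : Fin k → Bool) _ => Tendsto.const_mul
    (∏ i, bif e i then (t (c i) : ℂ) else 1) (show Tendsto (fun p => ex h (b p) (n p) fun W =>
      ∏ i, (sm (a p) (Oe O Δ p (bif e i then .inr fun _ => false else .inl (c i))) (f i) W : ℂ)) U
      (𝓝 (if e = fun _ => false then S (∏ i, xL (c i) (f i)) else 0)) by
    split_ifs with u
    · subst u
      exact L.word c hf
    · obtain ⟨i, u⟩ := ne_iff.1 u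
      exact (negl_word hF (inv4_e hθ) (hP.ext hΔ) hN _
        ⟨i, by simp [eq_true_of_ne_false u]⟩ hf).mono_left L.le)
  simp only [mul_ite, mul_zero, Finset.sum_ite_eq', Finset.mem_univ, if_true, cond_false,
    Finset.prod_const_one, one_mul] at this ⊢
  refine this.congr' (a0.mono fun p a0 => ?_)
  have := ex_co (h := h) (b := b p) (m := n p) (Y := fun i e W => sm (a p) (Oe O Δ p
    (bif e then .inr fun _ => false else .inl (c i))) (f i) W) (fun i e =>
      Complex.continuous_ofReal.comp (sm_cont a0 (hf.1 i).1 ((hP.ext hΔ).cont p _))) fun i => t (c i)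
  refine this.symm.trans (congrArg _ (_root_.funext fun W => Finset.prod_congr rfl fun i _ => ?_))
  rw [_root_.funext fun W => add_comm (O p (c i) W) _, sm_lab a0 (hf.1 i).1, add_comm]
  push_cast
  rfl

end Pool.Agent.Lib.MP_7f377f_mp.Wy
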