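import Pool.Agent.Lib.MP_7f377f_mp.G.KzN0
import Pool.Agent.Lib.MP_7f377f_mp.G.KzR
import Pool.Agent.Lib.MP_7f377f_mp.G.WyH
import Pool.Agent.Lib.MP_7f377f_mp.G.WyS

/-! Mirror images with different weights, at fixed lattice. -/

noncomputable section

namespace Pool.Agent.Lib.MP_7f377f_mp.Wx
variable [Pool.Agent.Lib.MP_7f377f_mp.GD]
set_option linter.unusedSectionVars false

open MeasureTheory Filter Topology Set Real YM7 Weak L6 Wy Function
open Wu (Z4)

/-- continuous observables of the links near the origin -/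
def Lc (r : ℕ) (X : Fz → ℝ) : Prop := Continuous X ∧ DependsOn X {l | ∀ i, |l.1 i| ≤ r}

/-- combinations of letters -/
def Sn (L : Set ((Fz → ℝ) × ℝ)) (X : Fz → ℝ) (u : ℝ) : Prop :=
  ∃ (I : Type) (s : Finset I) (f : I → (Fz → ℝ) × ℝ) (t : I → ℝ),
    (∀ i ∈ s, f i ∈ L ∧ Continuous (f i).1 ∧ 0 ≤ (f i).2) ∧ ∑ i ∈ s, |t i| * (f i).2 ≤ u ∧
      ∀ W, X W = ∑ i ∈ s, t i * (f i).1 W

/-- coordinates -/
def Bs {V : Type} [NormedAddCommGroup V] [NormedSpace ℝ V] (F : Submodule ℝ V) {N : ℕ}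
    (bs : Fin N → V) (κ : ℝ) : Prop :=
  0 ≤ κ ∧ (∀ i, bs i ∈ F) ∧ ∀ c ∈ F, ∃ t : Fin N → ℝ, c = ∑ i, t i • bs i ∧ ∑ i, |t i| ≤ κ * ‖c‖

section
variable {r r' : ℕ} {X Y : Fz → ℝ} {v : Z4}

theorem Lc.mono (h : Lc r X) (e : r ≤ r') : Lc r' X :=
  ⟨h.1, h.2.mono fun _ hl i => (hl i).trans (Int.ofNat_le.2 e)⟩

theorem Lc.sub (h : Lc r X) (h' : Lc r Y) : Lc r (X - Y) :=
  ⟨h.1.sub h'.1, fun _ _ e => congrArg₂ (· - ·) (h.2 e) (h'.2 e)⟩

theorem Lc.tz (h : Lc r X) (e : ∀ i, |v i| ≤ r') : Lc (r + r') fun W => X (tz v W) :=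
  ⟨h.1.comp (cont_tz v), fun _ _ u => h.2 fun l hl => u _ fun i =>
    (abs_add_le _ _).trans (by push_cast; linarith [e i, hl i])⟩

theorem Lc.mr (h : Lc r X) (e : ∀ i, |v i| ≤ r') (g) : Lc (r + r' + 4) (mr g v X) :=
  pw_loc 3 _ (pw_loc 2 _ (pw_loc 1 _ (pw_loc 0 _ (h.tz e))))

theorem Lc.cl {V : Type} {k : ℕ} {O : V → Fz → ℝ} {c : Fin k → V} {y : Fin k → Z4}
    (h : ∀ i, Lc r (O (c i))) (e : ∀ i l, |y i l| ≤ r') : Lc (r + r') (cl O c y) :=
  ⟨continuous_finsetProd _ fun i _ => ((h i).tz (e i)).1, fun _ _ u =>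
    Finset.prod_congr rfl fun i _ => ((h i).tz (e i)).2 u⟩

theorem Sn.one {L} {u u' : ℝ} (h : (X, u) ∈ L) (c : Continuous X) (u0 : 0 ≤ u) (e : u ≤ u') :
    Sn L X u' := ⟨Unit, Finset.univ, fun _ => (X, u), 1, fun _ _ => ⟨h, c, u0⟩, by simpa, by simp⟩

theorem mr_rz (g μ W) : mr (update g μ (!g μ)) v X W = mr g v X (rz μ W) := by
  simp only [mr, tw_θ inv4_rz, θ_tw inv4_rz]

variable {V : Type} [NormedAddCommGroup V] [NormedSpace ℝ V] {F : Submodule ℝ V} {N : ℕ}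
  {bs : Fin N → V} {κ ε K : ℝ} {O : V →ₗ[ℝ] Fz → ℝ} {c c' : V}

theorem ex_bs (F : Submodule ℝ V) [FiniteDimensional ℝ F] : ∃ (N : ℕ) (bs : Fin N → V) (κ : ℝ),
    Bs F bs κ := by
  let B := Module.finBasis ℝ F
  let f := B.equivFun.toLinearMap.toContinuousLinearMap
  refine ⟨_, fun i => B i, Module.finrank ℝ F * ‖f‖, by positivity, fun i => (B i).2, fun c hc =>
    ⟨f ⟨c, hc⟩, (congrArg F.subtype (B.sum_equivFun ⟨c, hc⟩)).symm.trans (map_sum _ _ _), ?_⟩⟩
  simpa [mul_assoc] using Finset.sum_le_card_nsmul Finset.univ (fun i => |f ⟨c, hc⟩ i|) _ fun i _ =>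
    (norm_le_pi_norm _ i).trans (f.le_opNorm _)

theorem Bs.le (B : Bs F bs κ) {E : Type} [NormedAddCommGroup E] [NormedSpace ℝ E] {f : V → E}
    (hf : IsLinearMap ℝ f) (e0 : 0 ≤ ε) (e : ∀ i, ‖f (bs i)‖ ≤ ε) (hc : c ∈ F) :
    ‖f c‖ ≤ ε * κ * ‖c‖ := by
  obtain ⟨t, t1, t2⟩ := B.2.2 c hc
  refine le_trans ?_ ((mul_le_mul_of_nonneg_left t2 e0).trans_eq (mul_assoc _ _ _).symm)
  rw [Finset.mul_sum, show f c = hf.mk' f c from rfl, t1, map_sum]
  refine norm_sum_le_of_le _ fun i _ => ?_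
  rw [map_smul, norm_smul, mul_comm]
  exact mul_le_mul_of_nonneg_right (e i) (norm_nonneg _)

theorem Bs.lc (B : Bs F bs κ) (e : ∀ i, Lc r (O (bs i))) (hc : c ∈ F) : Lc r (O c) := by
  obtain ⟨t, rfl, -⟩ := B.2.2 c hc
  rw [show O (∑ i, t i • bs i) = fun W => ∑ i, t i * O (bs i) W from funext fun W => by simp]
  exact ⟨continuous_finsetSum _ fun i _ => (e i).1.const_mul _, fun _ _ u =>
    Finset.sum_congr rfl fun i _ => congrArg _ ((e i).2 u)⟩

theorem Bs.sp (B : Bs F bs κ) {L g} (hX : Lc r X) (e : ∀ i, Lc r (O (bs i))) (hc : c ∈ F)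
    (hc' : c' ∈ F) (e0 : 0 ≤ ε) (K0 : 0 ≤ K) (h1 : (mr g v (X - O c), ε) ∈ L)
    (h2 : ∀ i, (mr g v (O (bs i)), K) ∈ L) {u : ℝ} (hu : ε + K * κ * ‖c - c'‖ ≤ u) :
    Sn L (mr g v (X - O c')) u := by
  obtain ⟨t, t1, t2⟩ := B.2.2 _ (F.sub_mem hc hc')
  have v0 : ∀ i, |v i| ≤ (∑ i, (v i).natAbs : ℕ) := fun i => by
    rw [Int.abs_eq_natAbs, Int.ofNat_le]
    exact Finset.single_le_sum (f := fun i => (v i).natAbs) (by simp) (by simp)
  refine ⟨Option (Fin N), Finset.univ, fun i => i.elim (mr g v (X - O c), ε) fun i =>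
    (mr g v (O (bs i)), K),
    fun i => i.elim 1 t, ?_, ?_, fun W => ?_⟩
  · rintro (_ | i) -
    exacts [⟨h1, ((hX.sub (B.lc e hc)).mr v0 g).1, e0⟩, ⟨h2 i, ((e i).mr v0 g).1, K0⟩]
  · simp only [Fintype.sum_option, Option.elim, ← Finset.sum_mul, abs_one]
    nlinarith
  · have := congrArg (fun c => O c (tz v (tw rz g W))) t1
    simp only [map_sub, map_sum, map_smul, Pi.sub_apply, Finset.sum_apply, Pi.smul_apply,
      smul_eq_mul] at this
    simp only [Fintype.sum_option, Option.elim, mr, Pi.sub_apply, ← this]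
    ring

/-- finitely many functionals control the norm -/
theorem ex_test [FiniteDimensional ℝ F] {φ : V → V → ℝ} (hφ : ∀ d, IsLinearMap ℝ (φ d))
    (nd : ∀ c ≠ 0, ∃ d, φ d c ≠ 0) : ∃ (T : Finset V) (K : ℝ), 0 ≤ K ∧
      ∀ c ∈ F, ‖c‖ ≤ K * ∑ d ∈ T, |φ d c| := by
  classical
  let f := fun T : Finset V => LinearMap.pi fun d : T => ((hφ d).mk' _).domRestrict F
  obtain ⟨_, ⟨T, rfl⟩, hT⟩ := wellFounded_lt.has_min (range fun T => LinearMap.ker (f T)) ⟨_, ∅, rfl⟩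
  have u : ∀ T c, c ∈ LinearMap.ker (f T) ↔ ∀ d ∈ T, φ d c = 0 := fun T c => by
    simp [f, funext_iff]
  obtain ⟨K, -, hK⟩ := (f T).exists_antilipschitzWith (eq_bot_iff.2 fun c hc => by
    by_contra c0
    obtain ⟨d, hd⟩ := nd c fun e => c0 (Subtype.ext e)
    refine hT _ ⟨insert d T, rfl⟩ (lt_of_le_not_ge (fun x hx => (u _ _).2 fun d hd =>
      (u _ _).1 hx d (by simp [hd])) fun e => hd ((u _ _).1 (e hc) d (by simp))))
  refine ⟨T, K, K.2, fun c hc => (ZeroHomClass.bound_of_antilipschitz _ hK ⟨c, hc⟩).trans ?_⟩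
  exact mul_le_mul_of_nonneg_left ((pi_norm_le_iff_of_nonneg (by positivity)).2 fun d =>
    Finset.single_le_sum (f := fun d => |φ d c|) (by simp) d.2) K.2

theorem boot {τ c β : ℝ} (e0 : 0 ≤ ε) (c0 : 0 ≤ c) (β0 : 0 ≤ β)
    (e : τ ^ 16 ≤ c * (ε * (ε + β * τ) ^ 15)) : τ ≤ (1 + c * (1 + β) ^ 15) * ε := by
  have : 0 ≤ c * (1 + β) ^ 15 * ε := by positivity
  rcases le_or_gt τ ε with u | u
  · linarith
  have τ0 := e0.trans_lt u
  suffices τ * τ ^ 15 ≤ c * (1 + β) ^ 15 * ε * τ ^ 15 by linarith [le_of_mul_le_mul_right this (pow_pos τ0 15)]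
  rw [← pow_succ']
  exact e.trans ((mul_le_mul_of_nonneg_left (mul_le_mul_of_nonneg_left (pow_le_pow_left₀
    (by positivity) (show _ ≤ (1 + β) * τ by linarith) 15) e0) c0).trans_eq (by ring))

end

variable [MeasurableSpace SU2] [BorelSpace SU2] {h : Measure SU2} [h.IsHaarMeasure]
  [IsProbabilityMeasure h] {β : Type} {n lam m : ℕ} [NeZero n] {b C : ℝ} {O : β → Fz → ℝ}
  {A : Set β} {w : β → ℝ}

theorem lf_corner (x : Site 4 m) (U : Cfg n) :
    lf (shift (corner lam x) U) = tz (fun l => (lam * (x l).val : ℕ)) (lf U) := by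
  rw [← lf_shift]
  simp only [Int.cast_natCast]
  rfl

theorem grid (H : E0 h b n lam O A w C) (hm : n = m * lam) (C0 : 0 ≤ C) {I : Type} (s : Finset I)
    (z : I → Fin 4 → ℕ) (σ : I → β) (h1 : ∀ i ∈ s, σ i ∈ A ∧ ∀ l, z i l < m) (h2 : InjOn z s) :
    |∫ U, ∏ i ∈ s, O (σ i) (tz (fun l => (lam * z i l : ℕ)) (lf U)) ∂wilson h b n| ≤
      exp (C * m ^ 4) * ∏ i ∈ s, w (σ i) := by
  classical
  obtain ⟨m', hm', H⟩ := H
  have l0 : lam ≠ 0 := by rintro rfl; exact NeZero.ne n hm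
  obtain rfl : m' = m := mul_right_cancel₀ l0 (hm'.symm.trans hm)
  rcases s.eq_empty_or_nonempty with rfl | ⟨i, -⟩
  · simp [mul_nonneg C0]
  haveI : Nonempty I := ⟨i⟩
  have v : ∀ i ∈ s, ∀ l, (z i l : ZMod m').val = z i l := fun i hi l =>
    ZMod.val_cast_of_lt ((h1 i hi).2 l)
  have inj : InjOn (fun i l => (z i l : ZMod m')) s := fun i hi j hj e =>
    h2 hi hj (funext fun l => (v i hi l).symm.trans ((congrArg _ (congrFun e l)).trans (v j hj l)))
  have := H (s.image fun i l => (z i l : ZMod m')) (fun x => σ (invFunOn _ s x)) fun x hx => by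
    obtain ⟨i, hi, rfl⟩ := Finset.mem_image.1 hx
    rw [inj.leftInvOn_invFunOn hi]
    exact (h1 i hi).1
  simp only [Finset.prod_image inj, lf_corner] at this
  convert this using 4 with U i hi i hi
  · refine Finset.prod_congr rfl fun i hi => ?_
    simp only [inj.leftInvOn_invFunOn hi, v i hi]
  · rw [inj.leftInvOn_invFunOn hi]

/-- larger cells -/
theorem coarse (H : E0 h b n lam O A w C) {q : ℕ} (hq : q * lam ∣ n) (C0 : 0 ≤ C) :
    E0 h b n (q * lam) O A w (C * q ^ 4) := by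
  obtain ⟨m, hm⟩ := hq
  haveI : NeZero m := ⟨by rintro rfl; exact NeZero.ne n hm⟩
  have q0 : q ≠ 0 := by rintro rfl; exact NeZero.ne n (by simpa using hm)
  refine ⟨m, by rw [hm, mul_comm], fun s σ hσ => ?_⟩
  have := grid H (m := q * m) (by rw [hm]; ring) C0 s (fun x l => q * (x l).val) σ (fun x hx =>
    ⟨hσ x hx, fun l => Nat.mul_lt_mul_of_pos_left (ZMod.val_lt _) q0.bot_lt⟩) fun x _ y _ e =>
      funext fun l => ZMod.val_injective _ (mul_left_cancel₀ q0 (congrFun e l))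
  simpa only [lf_corner, ← mul_assoc, mul_comm lam q, Nat.cast_mul (α := ℝ), mul_pow] using this

theorem cmb {L : Set ((Fz → ℝ) × ℝ)} (H : E0 h b n lam Prod.fst L Prod.snd C)
    (e : ∀ c ∈ A, Sn L (O c) (w c)) : E0 h b n lam O A w C := by
  classical
  refine (H.mono (A' := {q | q ∈ L ∧ Continuous q.1 ∧ 0 ≤ q.2}) (fun _ e => e.1)
    (fun _ e => ⟨e.2.2, le_rfl⟩) le_rfl).comb (fun _ e => e.2.1) (fun _ e => e.2.2) fun c hc => ?_
  obtain ⟨I, s, f, t, e1, e2, e3⟩ := e c hc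
  have u : ∀ (t : I → ℝ) (F : _ → ℝ), ∑ d ∈ s.image f, (∑ i ∈ s with f i = d, t i) * F d =
      ∑ i ∈ s, t i * F (f i) := fun t F => by
    rw [← Finset.sum_fiberwise_of_maps_to fun i hi => Finset.mem_image_of_mem f hi]
    exact Finset.sum_congr rfl fun d _ => by
      rw [Finset.sum_mul]
      exact Finset.sum_congr rfl fun i hi => by rw [(Finset.mem_filter.1 hi).2]
  have m : ∀ d ∈ s.image f, d ∈ L ∧ Continuous d.1 ∧ 0 ≤ d.2 := Finset.forall_mem_image.2 e1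
  refine ⟨s.image f, fun d => ∑ i ∈ s with f i = d, t i, 0, m, ?_, fun W => by
    rw [zero_add, e3, u t fun d => d.1 W]⟩
  rw [abs_zero, zero_add]
  exact le_trans (Finset.sum_le_sum fun d hd => mul_le_mul_of_nonneg_right
    (Finset.abs_sum_le_sum_abs _ _) (m d hd).2.2) ((u (fun i => |t i|) Prod.snd).trans_le e2)

variable (h b n lam) in
/-- correlations at the distance of one cell -/
def co (X Y : Fz → ℝ) : ℝ := ∫ U, X (tz (Pi.single 0 lam) (lf U)) * Y (lf U) ∂wilson h b n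

theorem co_sub {X Y Y' : Fz → ℝ} (hX : Continuous X) (hY : Continuous Y) (hY' : Continuous Y') :
    co h n lam b X (Y - Y') = co h n lam b X Y - co h n lam b X Y' := by
  simp only [co, Pi.sub_apply, mul_sub]
  exact integral_sub (cint _ (by fun_prop)) (cint _ (by fun_prop))

/-- two letters in neighbouring cells -/
theorem pair (b0 : 0 ≤ b) (hn : 3 * lam ∣ n) (o : Odd n) (C0 : 0 ≤ C)
    {F : (Fin 4 → Bool) × Bool → Fz → ℝ} {om : (Fin 4 → Bool) × Bool → ℝ} {r : ℕ} (hr : r < lam)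
    (f1 : ∀ q, Lc r (F q) ∧ 0 ≤ om q)
    (f2 : ∀ e k i W, F (update e k (!e k), i) W = F (e, i) (rz k W))
    (H : E0 h b n lam F univ om C) :
    |co h n lam b (F (fun _ => true, false)) (F (fun _ => true, true))| ^ 16 ≤
      exp (256 * (C * 81)) * ∏ e, ∏ i, om (e, i) := by
  obtain ⟨m, hm⟩ := hn
  haveI : NeZero m := ⟨by rintro rfl; exact NeZero.ne n hm⟩
  obtain ⟨ps, hp⟩ : ∃ ps : (Fin 4 → Bool) → Bool → Fin 4 → ℕ,
    ∀ e i l, ps e i l = if e l = (i || l ≠ 0) then 1 else 2 := ⟨_, fun _ _ _ => rfl⟩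
  have p1 : ∀ e i l, 1 ≤ ps e i l ∧ ps e i l ≤ 2 := fun e i l => by rw [hp]; split_ifs <;> simp
  have c : ∀ e, Continuous fun W => ∏ i, F (e, i) (tz (fun l => (lam * ps e i l : ℕ)) W) :=
    fun e => continuous_finsetProd _ fun i _ => (f1 _).1.1.comp (cont_tz _)
  have := Kz.Geo.gm16 (h := h) (lam := 3 * lam) (C := C * 81) (m := m) (.inl ⟨rfl, rfl⟩) b0
    (Nat.Odd.of_mul_right (hm ▸ o)) (hm.trans (mul_comm _ _)) (by positivity)
    (A := fun e U => ∏ i, F (e, i) (tz (fun l => (lam * ps e i l : ℕ)) (lf U)))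
    ⟨fun e _ => .of_continuous ((c e).comp cont_lf), fun e k _ U => ?_, fun e _ U V u => ?_⟩
    (om := fun e => ∏ i, om (e, i)) (fun e => Finset.prod_nonneg fun _ _ => (f1 _).2)
    (fun s σ => ?_) fun _ => true
  · rw [← int_tz (fun _ => -lam) (c _)] at this
    rw [co]
    convert this with U
    simp only [Fintype.prod_bool, tz_tz]
    rw [mul_comm, ← tz_zero (lf U), tz_tz, tz_tz, tz_tz]
    congr 3 <;> funext l <;> by_cases u : l = 0 <;> simp [hp, u]
    ring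
  · refine Finset.prod_congr rfl fun i _ => ?_
    rw [f2, Ob.rcl, lf_refl, ← rz_tz, show (Pi.single k ((3 * lam : ℕ) : ZMod n) : Site 4 n) =
      fun l => ((Pi.single k (3 * lam : ℤ) : Z4) l : ZMod n) from funext fun l => by
        by_cases u : l = k <;> simp [u], lf_shift, tz_tz]
    congr 3
    funext l
    by_cases u : l = k
    · subst u
      simp only [Wu.th, hp, Pi.add_apply, update_self, Pi.single_eq_same]
      cases e l <;> cases (i || l ≠ 0) <;> simp <;> ring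
    · simp [Wu.th, hp, u]
  · refine Finset.prod_congr rfl fun i _ => (f1 _).1.2 fun l hl => u _ fun k => ?_
    have v : ((((lam * ps e i k : ℕ) + l.1 k : ℤ) : ZMod n).val : ℤ) = (lam * ps e i k : ℕ) + l.1 k ∧
        (lam * ps e i k : ℕ) + l.1 k < 3 * lam := by
      have := abs_le.1 (hl k)
      have a1 := Nat.mul_le_mul_left lam (p1 e i k).1
      have a2 := Nat.mul_le_mul_left lam (p1 e i k).2
      have a3 := Nat.le_mul_of_pos_right (3 * lam) (NeZero.pos m)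
      exact ⟨by rw [ZMod.val_intCast, Int.emod_eq_of_lt (by omega) (by omega)], by omega⟩
    exact ⟨by simp only [Pi.add_apply]; omega, fun _ => by simp only [Pi.add_apply]; omega⟩
  · have := grid H (m := 3 * m) (by rw [hm]; ring) C0 (s ×ˢ Finset.univ)
      (fun q l => 3 * (q.1 l).val + ps (σ q.1) q.2 l) (fun q => (σ q.1, q.2))
      (fun q _ => ⟨trivial, fun l => by
        have := ZMod.val_lt (q.1 l)
        have := p1 (σ q.1) q.2 l
        omega⟩) fun ⟨x, i⟩ _ ⟨y, j⟩ _ e => by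
      have e1 : ∀ l, (x l).val = (y l).val ∧ ps (σ x) i l = ps (σ y) j l := fun l => by
        have := congrFun e l
        have := p1 (σ x) i l
        have := p1 (σ y) j l
        simp only at *
        omega
      obtain rfl : x = y := funext fun l => ZMod.val_injective _ (e1 l).1
      have := (e1 0).2
      revert this
      cases i <;> cases j <;> cases u : σ x 0 <;> simp [hp, u]
    simp only [Finset.prod_product, Nat.cast_mul (α := ℝ), mul_pow, ← mul_assoc] at this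
    simp only [lf_corner, tz_tz]
    convert this using 8 with U x _ i
    · exact funext fun l => by simp; ring
    · norm_num

variable {V : Type} [NormedAddCommGroup V] [NormedSpace ℝ V] {F : Submodule ℝ V} {N : ℕ}
  {bs : Fin N → V} {κ ε K K' : ℝ} {O : V →ₗ[ℝ] Fz → ℝ} {T : Finset V}

/-- the bootstrap -/
theorem core (B : Bs F bs κ) (b0 : 0 ≤ b) (hn : 3 * lam ∣ n) (o : Odd n) (C0 : 0 ≤ C) {L}
    (H : E0 h b n lam Prod.fst L Prod.snd C) (K0 : 0 ≤ K) (K1 : 0 ≤ K') (e0 : 0 ≤ ε) {r r' : ℕ}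
    (hr : r + r' + 4 < lam) {v : Z4} (hv : ∀ i, |v i| ≤ r') {X : Fz → ℝ} (hX : Lc r X)
    (e1 : ∀ i, Lc r (O (bs i))) (e2 : ∀ d ∈ T, Lc r (O d))
    (nd : ∀ c ∈ F, ‖c‖ ≤ K' * ∑ d ∈ T, |co h n lam b (O d) (O c)|) {m : (Fin 4 → Bool) → V}
    (hm : ∀ g, m g ∈ F) (h1 : ∀ g, (mr g v (X - O (m g)), ε) ∈ L)
    (h2 : ∀ g i, (mr g v (O (bs i)), K) ∈ L) (h3 : ∀ g, ∀ d ∈ T, (mr g v (O d), K) ∈ L) (g) :
    ∑ d ∈ T, |co h n lam b (O d) (X - O (m g))| ≤
      (1 + (T.card * K) ^ 16 * exp (256 * (C * 81)) * (1 + K * κ * (K' * 2)) ^ 15) * ε := by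
  classical
  obtain ⟨g₀, -, h0⟩ := Finset.exists_max_image Finset.univ
    (fun g => ∑ d ∈ T, |co h n lam b (O d) (X - O (m g))|) ⟨g, by simp⟩
  have κ0 := B.1
  refine (h0 g (by simp)).trans (boot e0 (by positivity) (by positivity) ?_)
  generalize hτ : ∑ d ∈ T, |co h n lam b (O d) (X - O (m g₀))| = τ at *
  have c := fun g => hX.sub (B.lc e1 (hm g))
  have d1 : ∀ g, ‖m g - m g₀‖ ≤ K' * 2 * τ := fun g => by
    refine (nd _ (F.sub_mem (hm g) (hm g₀))).trans ?_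
    rw [mul_assoc, show O (m g - m g₀) = (X - O (m g₀)) - (X - O (m g)) by simp]
    refine mul_le_mul_of_nonneg_left ((Finset.sum_le_sum fun d hd => ?_).trans
      (Finset.sum_add_distrib.trans_le ((add_le_add hτ.le (h0 g (by simp))).trans_eq
        (two_mul τ).symm))) K1
    rw [co_sub (e2 d hd).1 (c _).1 (c _).1]
    exact abs_sub _ _
  rcases T.eq_empty_or_nonempty with rfl | T0
  · simp [← hτ]
  obtain ⟨d, hd, h4⟩ := T.exists_max_image (fun d => |co h n lam b (O d) (X - O (m g₀))|) T0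
  have τ0 : 0 ≤ τ := hτ ▸ by positivity
  have := pair (h := h) b0 hn o C0 (F := fun q => mr q.1 v (bif q.2 then X - O (m g₀) else O d))
    (om := fun q => bif q.2 then if q.1 = g₀ then ε else ε + K * κ * (K' * 2) * τ else K) hr
    (by rintro ⟨g, _ | _⟩
        exacts [⟨(e2 d hd).mr hv g, K0⟩, ⟨(c _).mr hv g, by simp only [cond_true]; positivity⟩])
    (fun _ _ _ => mr_rz _ _) (cmb H ?_)
  · simp only [Fintype.prod_bool, cond_true, cond_false, Finset.prod_mul_distrib] at this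
    rw [← Finset.mul_prod_erase _ _ (Finset.mem_univ g₀), if_pos rfl, Finset.prod_congr rfl
      fun g hg => if_neg (Finset.ne_of_mem_erase hg)] at this
    have u : co h n lam b (mr (fun _ => true) v (O d)) (mr (fun _ => true) v (X - O (m g₀))) =
        co h n lam b (O d) (X - O (m g₀)) := by
      have := (e2 d hd).1
      have := (c g₀).1
      refine .trans ?_ (int_tz v (F := fun W => O d (tz (Pi.single 0 lam) W) * (X - O (m g₀)) W)
        (by fun_prop))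
      simp only [co, mr, tw, pw, cond_true, id, tz_tz, add_comm]
    refine (pow_le_pow_left₀ τ0 (hτ.ge.trans (T.sum_le_card_nsmul _ _ h4)) 16).trans ?_
    rw [nsmul_eq_mul, mul_pow, ← u]
    refine (mul_le_mul_of_nonneg_left this (by positivity)).trans_eq ?_
    simp [Finset.card_erase_of_mem]
    ring
  rintro ⟨g, _ | _⟩ -
  · exact .one (h3 g d hd) ((e2 d hd).mr hv g).1 K0 le_rfl
  · refine B.sp hX e1 (hm g) (hm g₀) e0 K0 (h1 g) (h2 g) ?_
    simp only [cond_true]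
    split_ifs with u
    · simp [u]
    · rw [mul_assoc (K * κ)]
      gcongr
      exact d1 g

end Pool.Agent.Lib.MP_7f377f_mp.Wx
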