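import Pool.Agent.Lib.MP_7f377f_mp.G.KzX
import Pool.Agent.Lib.MP_7f377f_mp.G.KzU
import Pool.Agent.Lib.MP_7f377f_mp.G.StV7
import Pool.Agent.Lib.MP_7f377f_mp.G.JvZ2
import Pool.Agent.Lib.MP_7f377f_mp.G.JuR
import Pool.Agent.Lib.MP_7f377f_mp.G.KzN1
import Pool.Agent.Lib.MP_7f377f_mp.G.KyH

/-! Letters of labels as slots of arrays. -/

noncomputable section

open Pool.Agent.Lib.MP_7f377f_mp.Jet

set_option linter.unusedSectionVars false
variable [Pool.Agent.Lib.MP_7f377f_mp.GD]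

namespace Pool.Agent.Lib.MP_7f377f_mp.RG.Q4.En

open Finset Function Sg Real Pos Mg Filter MeasureTheory Tl
open L6 (Fz fast)
open Wy (tz)
open Zg (V0 Og fil)
open Kz (rB ct)
open MP_7f377f_mp.Wx (Lc)
open scoped Classical

attribute [local irreducible] box lbox tb tau rc

variable (𝒜 : Set CM) [Og 𝒜]

/-- the letters of the standard frames -/
abbrev lX (d : ℕ) (q : Tl.Bd 𝒜 d) : Lq := Tl.lq (q.P (lE 𝒜))

/-- the real part of the letter `Y` -/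
def Lq.re (Y : Lq) (U : Fz) : ℝ := (Y.1 U).re

namespace Gl

variable (G : Gl)

/-- the standard frame on the track of the site `x` -/
abbrev Sf (s C d : ℕ) (M : ℝ) (R : ℕ) (δ K b : ℝ) (J j : ℕ) (x : St) : Prop :=
  G.Fk Jt.wt d (s + 1) C M (G.tk x J) b J j G.om (G.sek s b J) (G.lK s (G.tk x J) b J)
    (G.Uk s (G.tk x J) b J) (G.Ui s (G.tk x J) b J) R δ K Tl.Bd.dg (lX 𝒜 d)

variable {𝒜}

/-- the letter with the real coefficients `t` -/
abbrev fz (s C J : ℕ) {d : ℕ} (t : Tl.Bd 𝒜 d → ℝ) : Lq :=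
  G.fl (s + 1) C J Tl.Bd.dg (lX 𝒜 d) fun q => t q

/-- its label -/
def lb (s C J : ℕ) {d : ℕ} (t : Tl.Bd 𝒜 d → ℝ) : V0 𝒜 :=
  ∑ q : Vd 𝒜 d, (t (.inl q) / G.ka (s + 1) C J ^ Tl.Bd.dg (.inl q : Tl.Bd 𝒜 d)) • q.1.c

/-- the size of the letter `Y` at the site `x` at the level `k` -/
abbrev sz (s C d : ℕ) (b : ℝ) (J : ℕ) (x : St) (Y : Lq) (k : ℕ) : ℝ :=
  ‖G.ys Jt.wt d (s + 1) C (G.tk x J) b J 0 (G.sek s b J) Y k‖

variable (𝒜)

/-- the standard frames on all good tracks -/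
structure Fw (s C : ℕ) (M : ℝ) (R : ℕ) (δ K b : ℝ) (J j : ℕ) : Prop where
  ok : G.Ok
  fr : ∀ x ∈ G.Gs J j, ∀ d, 1 ≤ d → d ≤ s + 2 → G.Sf 𝒜 s C d M R δ K b J j x
  lc : ∀ c ∈ (fil 𝒜).F (s + 2), Lc R (Kz.lt 𝒜 c)
  nl : ∀ d ≤ s + 2, ∀ t : Tl.Bd 𝒜 d → ℝ, Lc R (G.fz s C J t).re ∧ ∀ [NeZero (G.N J)],
    Wy.Nl (Fi.tr haar) b (G.N J) R fun U => (G.fz s C J t).re U - Kz.lt 𝒜 (G.lb s C J t) U
  rad : R ≤ G.rt J j

variable {𝒜}

/-- the loss for a letter -/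
def cL (A n l : ℕ) : ℝ := G.QA A l ^ 345 * (G.L l : ℝ) ^ (3 * n + 2)

/-- the slot of the letter `Z` at the site `z` with the weight `y` at the level `l` -/
def tmL (κ : Type) (n k l : ℕ) (z : St) (Z : Lq) (y : ℝ) : Tmz κ :=
  ⟨⟨fun _ => z, 0, 0, 1, z⟩, False, Z,
    fun i => y * (G.rt i l : ℝ) ^ n / (G.rt (k + 3) k : ℝ) ^ n⟩

/-- the observables of the admissible slots with their weights -/
def Lsl (κ : Type) [Fintype κ] [DecidableEq κ] [Inhabited κ] (A n g : ℕ) (C₀ b : ℝ) (J k j R : ℕ) :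
    Set ((Fz → ℝ) × ℝ) :=
  {d | Lc (4 * G.rt J j) d.1 ∧ 0 ≤ d.2 ∧ ∃ T : Tmz κ, G.Tok A n g C₀ b J k j j R T ∧
    T.P.z ∈ box (G.rt J j) ∧ (∀ U, T.ob U = d.1 U) ∧ T.W j * (G.rt (k + 3) k : ℝ) ^ n ≤ d.2}

/-- up to the constant `u` and a null letter, `T` is a combination of weight `w` of the letters
`L` centred by the local means -/
def Zn (b : ℝ) (J j : ℕ) [NeZero (G.N J)] (L : Set ((Fz → ℝ) × ℝ)) (T : Fz → ℝ) (w u : ℝ) : Prop :=
  Continuous T ∧ ∃ (s : Finset ((Fz → ℝ) × ℝ)) (t : (Fz → ℝ) × ℝ → ℝ), ↑s ⊆ L ∧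
    ∑ d ∈ s, |t d| * d.2 ≤ w ∧ Wy.Nl (Fi.tr haar) b (G.N J) (4 * G.rt J j) fun U => T U -
      (u + ∑ d ∈ s, t d * (d.1 U - G.al b J j fun V => d.1 (L6.lf V)))

variable {G} {α β κ : Type} [Fintype α] [DecidableEq α] [Fintype β] [Fintype κ] [DecidableEq κ]
  [Inhabited κ] {w : α → ℕ} {b M δ K K' C₀ x y y' u u' : ℝ} {s d D C J j k i l R A n g m : ℕ}
  {c : ℕ → St} {ω : ℕ → ℝ} {p : ℕ → (α → ℝ) →ₗ[ℝ] V} {lm : ℕ → V →ₗ[ℝ] α → ℝ}
  {U U' : ℕ → Module.End ℝ (α → ℝ)} {ν : β → ℕ} {X : β → Lq} {Y : Lq} {z : St} {e : V0 𝒜}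
  {σ : Fld → ℂ}

theorem ys_bot (h : j ≤ k) : G.ys w d D C c b J j p Y k = G.ys w d D C c b J 0 p Y k := by
  simp only [ys, zq, js, h, Nat.zero_le]

theorem os_iff : G.Os 𝒜 s C d b J k z e y ↔
    ∃ t : Tl.Bd 𝒜 d → ℝ, G.lb s C J t = e ∧ G.sz s C d b J z (G.fz s C J t) k ≤ y := Iff.rfl

theorem lb_mem (t : Tl.Bd 𝒜 d → ℝ) : G.lb s C J t ∈ Vp 𝒜 d :=
  Submodule.sum_mem _ fun q _ => Submodule.smul_mem _ _ (bV_ap q ▸ (bV 𝒜 d q).2)

theorem lb_sub (t t' : Tl.Bd 𝒜 d → ℝ) : G.lb s C J (t - t') = G.lb s C J t - G.lb s C J t' := by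
  unfold lb
  rw [← sum_sub_distrib]
  refine sum_congr rfl fun q _ => ?_
  rw [Pi.sub_apply, sub_div]
  exact sub_smul (M := V0 𝒜) _ _ _

theorem lb_smul (r : ℝ) (t : Tl.Bd 𝒜 d → ℝ) : G.lb s C J (r • t) = r • G.lb s C J t := by
  simp only [lb, Pi.smul_apply, smul_eq_mul, smul_sum, smul_smul, mul_div_assoc]

theorem fz_sub (t t' : Tl.Bd 𝒜 d → ℝ) : G.fz s C J (t - t') = G.fz s C J t - G.fz s C J t' := by
  rw [← map_sub]
  exact congrArg (G.fl _ _ _ _ _) (funext fun q => by simp)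

theorem fz_smul (r : ℝ) (t : Tl.Bd 𝒜 d → ℝ) : G.fz s C J (r • t) = (r : ℂ) • G.fz s C J t := by
  rw [← map_smul]
  exact congrArg (G.fl _ _ _ _ _) (funext fun q => by simp)

theorem Os.mono (h : G.Os 𝒜 s C d b J k z e y) (r : y ≤ y') : G.Os 𝒜 s C d b J k z e y' :=
  h.imp fun _ a => ⟨a.1, a.2.trans r⟩

theorem gs_mono (h : z ∈ G.Gs J j) (r : j ≤ k) : z ∈ G.Gs J k := Dg.mono h r le_rfl fun _ => le_rfl

/-- the symbols contract -/
theorem Fk.dn2 (F : G.Fk w d D C M c b J j ω p lm U U' R δ K ν X) (t : β → ℂ) (h1 : j ≤ k)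
    (h2 : k ≤ i) (h3 : i ≤ J) : 2 ^ (i - k) * ‖G.ys w d D C c b J j p (G.fl D C J ν X t) k‖ ≤
      ‖G.ys w d D C c b J j p (G.fl D C J ν X t) i‖ := by
  have T := F.T
  have x1 := T.ok.Xr1 C
  have a := F.fm.dn (a' := fun m => G.Xr C m * (G.Xr C m ^ 5 / G.L m) ^ 1) (fun m e1 e2 x hx =>
    ((T.ok.cal0 T.t T.tr T.hw T.hd (fun i hi => (T.e i hi).2.1) T.ld e1 e2).2.2.2.2.2 1 x
      fun a ha => ?_).2) (fun m => by have := x1 m; positivity) t h1 h2 h3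
  · simp only [st_ls] at a
    rw [← le_div_iff₀' (by positivity), div_eq_inv_mul, ← inv_pow, ← Nat.card_Ico, ← prod_const]
    refine a.trans (mul_le_mul_of_nonneg_right (prod_le_prod (fun m _ => ?_) fun m hm => ?_)
      (norm_nonneg _)) <;> have := x1 m <;> have := T.M1 <;> have := T.ok.Yr1 d C m
    · positivity
    · have L1 := T.ok.L1 m
      have e := T.MY (h1.trans (mem_Ico.1 hm).1)
      have e' := T.YL (h1.trans (mem_Ico.1 hm).1) (i := 6) (by omega)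
      have b1 : G.Xr C m * (G.Xr C m ^ 5 / G.L m) ^ 1 ≤ 4⁻¹ := by
        rw [pow_one, ← mul_div_assoc, div_le_iff₀ (by positivity), ← pow_succ']
        linarith
      have b2 : 2 * M * (G.Yr d C m / (G.L m : ℝ) ^ (D + 2)) ≤ 4⁻¹ := by
        rw [← mul_div_assoc, div_le_iff₀ (by positivity)]
        have := le_self_pow₀ (show (1 : ℝ) ≤ G.L m by linarith) (show D + 2 ≠ 0 by omega)
        nlinarith
      linarith
  · obtain rfl : a = 0 := Finsupp.ext fun q => by_contra fun z => by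
      have := Finsupp.le_weight_of_ne_zero' (wC w) z
      have := wC_ne T.hw q
      omega
    simpa [MvPolynomial.constantCoeff_eq] using (mem_W0.1 hx).2

theorem Ok.rt3 (h : G.Ok) (hL : 27 ^ n ≤ G.L l) (hk : l ≤ k) :
    (G.rt (k + 3) k : ℝ) ^ n ≤ (G.L l : ℝ) ^ (3 * n + 1) * G.rt k l := by
  have L3 : ∀ i, (G.L (i + 1) : ℝ) ≤ 3 * G.L i := fun i => by exact_mod_cast h.L3 i
  have hL' : (27 : ℝ) ^ n ≤ G.L l := by exact_mod_cast hL
  have a : (G.L k : ℝ) ^ (3 * n) ≤ (G.L l : ℝ) ^ (3 * n) * G.rt k l := by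
    induction k, hk using Nat.le_induction with
    | base => simp [rt_top]
    | succ k hk ih =>
      have : (G.L l : ℝ) ≤ G.L k := by exact_mod_cast h.L_mono hk
      calc _ ≤ (3 * G.L k : ℝ) ^ (3 * n) := by gcongr; exact L3 k
        _ = 27 ^ n * (G.L k : ℝ) ^ (3 * n) := by rw [mul_pow, pow_mul]; norm_num
        _ ≤ G.L k * ((G.L l : ℝ) ^ (3 * n) * G.rt k l) := by gcongr; linarith
        _ = _ := by rw [h.rt_succ hk]; ring
  have e : (G.rt (k + 3) k : ℝ) ≤ 27 * (G.L k : ℝ) ^ 3 := by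
    rw [h.rt_succ (i := k + 2) (by omega), h.rt_succ (i := k + 1) (by omega), h.rt_L]
    calc _ ≤ 3 * (3 * G.L k) * (3 * G.L k * (G.L k : ℝ)) := by
          gcongr
          exacts [(L3 _).trans (by gcongr; exact L3 k), L3 k]
      _ = _ := by ring
  calc _ ≤ (27 * (G.L k : ℝ) ^ 3) ^ n := by gcongr
    _ = 27 ^ n * (G.L k : ℝ) ^ (3 * n) := by rw [mul_pow, pow_mul]
    _ ≤ G.L l * ((G.L l : ℝ) ^ (3 * n) * G.rt k l) := by gcongr
    _ = _ := by ring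

/-- slots with one letter whose states are small at all translates -/
theorem Aok.tok_gen (a : G.Aok κ A n g C₀ b J k l R) (hj : j ≤ l) (hn : m + 7 ≤ n)
    (hL : 27 ^ n ≤ G.L l) (T : G.Tk w d D C M (G.tk z J) b J j ω p lm U U') (J1 : G.Tj D R δ J)
    (d1 : 1 ≤ d) (δ1 : δ ≤ 1) (o : Lt1 R δ K Y) (y0 : 0 < y) (hy : G.cL A n l * x ≤ G.L l * y)
    (hK : K ≤ x * (G.rt J l : ℝ) ^ m) (h : ∀ v i, l ≤ i → i < J → ∃ r r',
      G.zP w d D C (G.tk (z + (G.rt J j : ℤ) • v) J) J j p lm U i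
        (G.ls D (G.tk (z + (G.rt J j : ℤ) • v) J) b J Y i) r ∧
      ‖G.ys w d D C (G.tk (z + (G.rt J j : ℤ) • v) J) b J j p Y i‖ ≤ r' ∧
        r' + r ≤ x * (G.rt i l : ℝ) ^ m) :
    G.Tok A n g C₀ b J k l j R (G.tmL κ n k l z Y y) := by
  have H := a.ok
  have r1 := fun i k => (pow_one (G.rt i k : ℝ)) ▸ Ok.rt0 (G := G) i k 1
  have L1 := H.L1 l
  have q1 := H.QA1 A
  have x0 : 0 ≤ x := by
    have := o.nn.trans hK
    rwa [mul_nonneg_iff_of_pos_right (by have := r1 J l; positivity)] at this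
  have key : ∀ i e, l ≤ i → e ≤ 345 → ∀ B s, 0 < B → s ≤ x * (G.rt i l : ℝ) ^ m →
      y * (G.rt i l : ℝ) ^ (m + 5) ≤ (G.L l : ℝ) ^ (3 * n + 1) * B →
      G.QA A i ^ e * (B⁻¹ * s) ≤ 1 := fun i e hi he B s B0 hs hB => by
    have := q1 i
    rw [mul_left_comm, inv_mul_le_iff₀ B0, mul_one]
    refine le_of_mul_le_mul_left ?_ (show 0 < (G.L l : ℝ) ^ (3 * n + 2) by positivity)
    calc _ ≤ (G.L l : ℝ) ^ (3 * n + 2) * (G.QA A l ^ 345 * (G.rt i l : ℝ) ^ 5 *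
          (x * (G.rt i l : ℝ) ^ m)) := by
          gcongr _ * ?_
          refine (mul_le_mul_of_nonneg_left hs (by positivity)).trans ?_
          gcongr
          exact (pow_le_pow_right₀ (by linarith) he).trans (H.QA_rt a.big hi)
      _ = G.cL A n l * x * (G.rt i l : ℝ) ^ (m + 5) := by unfold cL; ring
      _ ≤ G.L l * y * (G.rt i l : ℝ) ^ (m + 5) := by gcongr
      _ ≤ _ := by rw [mul_assoc, pow_succ' _ (3 * n + 1), mul_assoc]; gcongr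
  have up : ∀ i, k ≤ i → y * (G.rt i l : ℝ) ^ (m + 5) ≤ (G.L l : ℝ) ^ (3 * n + 1) *
      (y * (G.rt k l : ℝ) ^ n / (G.rt (k + 3) k : ℝ) ^ n * (G.rt (max i (k + 3)) k : ℝ) ^ n) :=
    fun i hi => by
      have := r1 (k + 3) k
      have := r1 k l
      have := r1 (max i (k + 3)) k
      rw [div_mul_eq_mul_div, ← mul_div_assoc, le_div_iff₀ (by positivity), H.rt_rt a.le hi]
      push_cast
      calc _ ≤ y * ((G.rt (max i (k + 3)) k : ℝ) * G.rt k l) ^ (m + 5) *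
            ((G.L l : ℝ) ^ (3 * n + 1) * G.rt k l) := by
            gcongr
            exacts [Nat.cast_le.1 (H.rt_up2 (le_max_left ..)), H.rt3 hL a.le]
        _ = (G.L l : ℝ) ^ (3 * n + 1) * (y * (G.rt k l : ℝ) ^ (m + 6) *
            (G.rt (max i (k + 3)) k : ℝ) ^ (m + 5)) := by ring
        _ ≤ _ := by gcongr <;> omega
  have W0 : ∀ i, 0 < y * (G.rt i l : ℝ) ^ n / (G.rt (k + 3) k : ℝ) ^ n := fun i => by
    have := r1 (k + 3) k
    have := r1 i l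
    positivity
  refine ⟨fun _ => one_pos, False.elim, fun v => ?_⟩
  have T' := T.trl (H.trl_tk z v)
  have e := tk_top (G := G) (x := z + (G.rt J j : ℤ) • v) (J := J)
  refine ⟨W0, fun i h1 _ => le_of_eq ?_, ?_, fun i h1 h2 => ?_⟩
  · simp only [tmL, H.rt_succ h1]
    ring
  · have := T'.rxA J1 d1 o (A := A) (o := k + 1) (ρ := G.rX n k _) δ1 (by have := a.le; omega)
      (fun _ => (Ok.rX_pos (W0 k)).le) (key J 323 (a.le.trans a.lt.le) (by omega) _ _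
        (inv_pos.1 (Ok.rX_pos (W0 k))) hK (up J a.lt.le)) fun i h1 h2 => by
      obtain ⟨r, r', p1, p2, p3⟩ := h v i (by have := a.le; omega) h2
      exact ⟨r', r, p1, p2, key i 344 (by have := a.le; omega) (by omega) _ _
        (inv_pos.1 (Ok.rX_pos (W0 k))) p3 (up i (by omega))⟩
    rwa [e] at this
  · obtain ⟨r, r', p1, p2, p3⟩ := h v i h1 (h2.trans_lt a.lt)
    have b0 := mul_pos (W0 i) (one_pos.trans_le (Ok.rt0 (G := G) (k + 3) k n))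
    have := T'.szA (hj.trans h1) p1 p2 (inv_pos.2 b0).le (key i 344 h1 (by omega) _ _ b0 p3 (by
      have := r1 (k + 3) k
      have := r1 i l
      rw [div_mul_cancel₀ _ (by positivity)]
      refine le_trans ?_ (le_mul_of_one_le_left (by positivity) (one_le_pow₀ (by linarith)))
      gcongr <;> omega))
    rw [T'.lv1 J1 d1 o (hj.trans h1) (h2.trans_lt a.lt), e,
      ← show G.tn b J (G.tn ..) k i = G.jv b J _ Y i from dw_dw _ _ a.lt.le i h2] at this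
    simpa only [tmL, if_false, Prod.mk_zero_zero, add_zero] using this

section
variable (a : G.Aok κ A n g C₀ b J k l R) (F : G.Fk w d D C M (G.tk z J) b J j ω p lm U U' R δ K ν X)
  (hj : j ≤ l) (hn : d + 9 ≤ n) (hL : 27 ^ n ≤ G.L l) (hJ : K / G.ka D C J ^ d ≤ G.rt J l)
  (y0 : 0 < y) {t : β → ℂ}
include a F hj hn hL hJ y0

/-- the letters of a frame -/
theorem Aok.tok_fl (hy : G.cL A n l * ‖G.ys w d D C (G.tk z J) b J j p (G.fl D C J ν X t) l‖ ≤ y) :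
    G.Tok A n g C₀ b J k l j R (G.tmL κ n k l z (G.fl D C J ν X t) y) := by
  have H := a.ok
  have lJ := a.le.trans a.lt.le
  have M1 := F.T.M1
  have L1 := H.L1 l
  have q := H.QA0 A l
  refine a.tok_gen (m := d + 2) (x := (1 + M) * ‖G.ys w d D C (G.tk z J) b J j p
    (G.fl D C J ν X t) l‖) hj (by omega) hL F.T F.J1 F.d1 F.δ1 (F.lt1 t) y0 ?_ ?_ fun v i h1 h2 => ?_
  · rw [mul_left_comm]
    exact mul_le_mul (by nlinarith [F.T.MY hj, H.Yr1 d C l]) hy (by unfold cL; positivity) (by linarith)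
  · calc _ = M * (K / G.ka D C J ^ d * ‖G.ys w d D C (G.tk z J) b J j p (G.fl D C J ν X t) J‖) := by
          ring
      _ ≤ (1 + M) * (G.rt J l * ((G.rt J l : ℝ) ^ (d + 1) *
          ‖G.ys w d D C (G.tk z J) b J j p (G.fl D C J ν X t) l‖)) := by
          have := H.ka0 D C J
          have := F.K0
          gcongr
          exacts [by linarith, F.up' hj lJ le_rfl]
      _ = _ := by ring
  · refine ⟨_, _, (F.trl (H.trl_tk z v)).cone t (hj.trans h1) h2.le, le_rfl, ?_⟩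
    rw [F.T.ys_trl (H.trl_tk z v) _ (hj.trans h1) h2.le, ← one_add_mul, mul_assoc, mul_comm ‖_‖]
    gcongr
    refine (F.up' hj h1 h2.le).trans ?_
    gcongr
    exacts [(pow_one (G.rt i l : ℝ)) ▸ Ok.rt0 i l 1, by omega]

/-- a letter minus the letter of the frame with the same symbol at the bottom -/
theorem Aok.tok_cmp (H : Top R m δ K' Y.1 Y.2 σ) (K0 : 0 < K') (m1 : 1 ≤ m) (m2 : m ≤ d)
    (ht : G.ys w d D C (G.tk z J) b J j p (G.fl D C J ν X t) j =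
      G.ys w d D C (G.tk z J) b J j p Y j) (hK : (G.ka D C J ^ d)⁻¹ ≤ G.rt J l)
    (hy : G.cL A n l * (G.Pw d C l J / (G.rt J l : ℝ) ^ (d + 1) *
      (G.Yr d C J * (K' * G.ka D C J ^ m))) ≤ y) :
    G.Tok A n g C₀ b J k l j R (G.tmL κ n k l z (Y - G.fl D C J ν X t) y) := by
  have h := a.ok
  have lJ := a.le.trans a.lt.le
  have jJ := hj.trans lJ
  have M1 := F.T.M1
  have L1 := h.L1 l
  have q := h.QA0 A l
  have k0 := h.ka0 D C J
  have y1 := h.Yr1 d C J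
  have P1 := h.Pw1 d C
  have r1 := fun i k => (pow_one (G.rt i k : ℝ)) ▸ Ok.rt0 (G := G) i k 1
  have o := lt1_of H m1 F.δ1
  obtain ⟨x, hx⟩ : ∃ x, x = G.Yr d C J * (K' * G.ka D C J ^ m) := ⟨_, rfl⟩
  have x1 : K' * G.ka D C J ^ m ≤ x := hx ▸ le_mul_of_one_le_left (by positivity) y1
  have x0 : 0 < x := lt_of_lt_of_le (by positivity) x1
  have c := fun v => (F.trl (h.trl_tk z v)).cmpT le_rfl jJ x0 o ((F.T.trl (h.trl_tk z v)).co.mono
    _ _ _ _ ((F.T.trl (h.trl_tk z v)).tp_P F.J1 H K0 m1 m2) x1)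
      (hx ▸ (F.T.trl (h.trl_tk z v)).tp_q F.J1 H m1 m2)
  choose t' c1 c2 c3 using c
  have e : ∀ v, t' v = t := fun v => (F.eqv le_rfl jJ).injective (Subtype.ext (by
    have := c1 v
    rw [F.T.ys_trl (h.trl_tk z v) _ le_rfl jJ, F.T.ys_trl (h.trl_tk z v) _ le_rfl jJ] at this
    rw [F.eqv_val, F.eqv_val, this, ht]))
  simp only [e] at c2 c3
  rw [← hx] at hy
  have := P1 l J
  have := r1 J l
  refine a.tok_gen (m := d + 2) (x := (8 * M + 2) * (G.Pw d C l J / (G.rt J l : ℝ) ^ (d + 1) * x))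
    hj (by omega) hL F.T F.J1 F.d1 F.δ1 (o.sub (F.lt1 t)) y0 ?_ ?_ fun v i h1 h2 => ?_
  · rw [mul_left_comm]
    exact mul_le_mul (by nlinarith [F.T.MY hj, h.Yr1 d C l]) hy (by unfold cL; positivity) (by linarith)
  · have b1 := c2 0
    rw [F.T.ys_trl (h.trl_tk z 0) _ jJ le_rfl] at b1
    have b2 : K' ≤ G.rt J l * x := calc
      _ = (G.ka D C J ^ d)⁻¹ * (K' * G.ka D C J ^ d) := by field_simp
      _ ≤ _ := mul_le_mul hK (le_trans (mul_le_mul_of_nonneg_left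
        (pow_le_pow_of_le_one k0.le (F.T.ka1 F.J1 F.δ1) m2) K0.le) x1) (by positivity) (by linarith)
    calc _ ≤ G.rt J l * x + M * G.rt J l * (3 * x) := by rw [mul_div_assoc]; gcongr
      _ ≤ (8 * M + 2) * (G.Pw d C l J * (G.rt J l * x)) := by
          have : 0 < G.rt J l * x := by positivity
          nlinarith [mul_le_mul_of_nonneg_right (P1 l J) this.le, mul_pos this (show 0 < M by linarith)]
      _ = _ := by field_simp; ring
  · obtain ⟨b1, b2⟩ := c3 v i (hj.trans h1) h2.le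
    refine ⟨_, _, b1, b2, ?_⟩
    have := r1 i l
    have := r1 J i
    have := P1 i J
    have := P1 l i
    rw [← add_mul, add_comm, mul_assoc (8 * M + 2), h.rt_rt h1 h2.le, ← Ok.Pw_mul h1 h2.le]
    push_cast
    gcongr _ * ?_
    calc _ ≤ G.Pw d C i J / (G.rt J i : ℝ) ^ (d + 1) * x * (G.Pw d C l i * G.rt i l) :=
          le_mul_of_one_le_right (by positivity) (by nlinarith)
      _ = _ := by field_simp; ring

end

theorem tmL_ob (U : Conf) : (G.tmL κ n k l z Y y).ob U = -Y.1 (sh z U) := by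
  simp [tmL, Tmz.ob]

theorem tmL_W : (G.tmL κ n k l z Y y).W l * (G.rt (k + 3) k : ℝ) ^ n = y := by
  have := Ok.rt0 (G := G) (k + 3) k n
  simp only [tmL, rt_top, Nat.cast_one, one_pow, mul_one]
  exact div_mul_cancel₀ _ (by positivity)

variable [Adj 𝒜]

theorem lX_real (q : Tl.Bd 𝒜 d) : LqR (lX 𝒜 d q) := .lq (rz_lE.gl q).2.1

theorem fz_real (t : Tl.Bd 𝒜 d → ℝ) : LqR (G.fz s C J t) := fl_real lX_real fun _ => Complex.ofReal_im _

theorem fz_ap (t : Tl.Bd 𝒜 d → ℝ) (U : Conf) : (G.fz s C J t).1 U =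
    ∑ q, ((t q / G.ka (s + 1) C J ^ q.dg : ℝ) : ℂ) * pG (q.P (lE 𝒜)) U := by
  rw [fz, fl, Fintype.linearCombination_apply, Prod.fst_sum, Finset.sum_apply]
  simp only [Complex.ofReal_mul, div_eq_mul_inv, mul_assoc, Complex.ofReal_inv, Complex.ofReal_pow]
  rfl

/-- the standard frames exist -/
theorem Oks.fwU {β : ℕ × ℕ → ℝ} (o : G.Oks) (q : G.HP Sd.StA) (tu : G.Tus β) (hs : 2 ≤ s) (R₀ : ℕ) :
    ∀ᶠ C in atTop, ∃ M₀, ∃ R ≥ R₀, ∀ δ₀ > (0 : ℝ), ∃ δ ≤ δ₀, ∃ K, ∀ M ≥ M₀, ∀ᶠ j in atTop, ∀ J > j,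
      ∀ m, (G.wm m).Fw 𝒜 s C M R δ K (β (m, J)) J j := by
  have h := (o 0).1
  obtain ⟨R1, δ1, K, F⟩ := (rz_lE (𝒜 := 𝒜)).fra hs
  obtain ⟨R2, l2⟩ := Kz.lt_loc 𝒜 (s + 2)
  choose r hr using fun q : Nd (s + 2) => q.1.2.1
  obtain ⟨R3, l3⟩ := (Set.finite_range r).bddAbove
  obtain ⟨R, r0, r1, r2, r3⟩ : ∃ R, R₀ ≤ R ∧ R1 ≤ R ∧ R2 ≤ R ∧ R3 ≤ R :=
    ⟨R₀ + R1 + R2 + R3, by omega⟩
  have F' : ∀ d ≤ s + 2, Fra Jt.wt d (s0 s) R δ1 K Tl.Bd.dg (lX 𝒜 d) _ := fun d hd =>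
    { F d hd with top b := ⟨⟨((F d hd).top b).1.1, ((F d hd).top b).1.2.1, ((F d hd).top b).1.2.2.imp
      fun _ a => ⟨a.1.mono r1 le_rfl le_rfl, a.2⟩⟩, ((F d hd).top b).2⟩ }
  choose M1 δ2 d0 H using fun d : Fin (s + 2) => Fra.fk (F' (d + 1) d.2) d.1.succ_pos
  obtain ⟨M2, m2⟩ := (Set.finite_range M1).bddAbove
  obtain ⟨d₀, -, m3⟩ := exists_min_image univ δ2 univ_nonempty
  obtain ⟨C0, ld⟩ := ld_ex s G.c hs
  obtain ⟨k0, rn⟩ := h.runs
  filter_upwards [eventually_ge_atTop C0, eventually_ne_atTop 0] with C c0 c1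
  refine ⟨max M2 1, R, r0, fun δ₀ δ0 => ⟨min δ₀ (δ2 d₀), min_le_left .., K, fun M hM => ?_⟩⟩
  obtain ⟨k1, e1⟩ := h.ev_ev (s + 1)
  have e2 : ∀ᶠ k in atTop, ∀ d : Fin (s + 2), (G.wm 0).Ew (d + 1) (s + 1) C k ∧
      200 * M * (G.wm 0).Yr (d + 1) C k ^ 2 ≤ (G.wm 0).L k := eventually_all.2 fun d =>
    (eventually_atTop.2 (h.ew_ev _ _ c1)).and (h.yr_ev _ _ _ _ c1)
  filter_upwards [eventually_ge_atTop k0, eventually_ge_atTop k1, eventually_forall_ge_atTop.2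
    (((e2.and (h.ey_ev C0 (s + 1))).and (h.tj_ev (s + 1) R (lt_min δ0 (d0 d₀)))).and
      (h.L_nat.eventually_ge_atTop (2 * R + 2)))] with j a0 a1 a2 J hJ m
  have g := (o m).1
  have t := tu (m, J)
  have rad : 2 * R + 2 ≤ (G.wm m).rt J j := (a2 j le_rfl).2.trans (by
    rw [g.rt_step hJ]; exact Nat.le_mul_of_pos_right _ (pow_pos three_pos _))
  refine ⟨g, fun x hx d d1 d2 => ?_, fun c hc => ⟨Kz.lt_cont 𝒜 c, (l2 c hc).mono fun _ e i =>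
    (e i).trans (Int.ofNat_le.2 r2)⟩, fun d hd u => ⟨⟨?_, fun U U' e => ?_⟩, ?_⟩, by omega⟩
  · obtain ⟨d, rfl⟩ := Nat.exists_eq_add_of_le' d1
    have J1 := (a2 J hJ.le).1.2
    have e := (min_le_right δ₀ _).trans (m3 ⟨d, d2⟩ (mem_univ _))
    have := H ⟨d, d2⟩ (G.wm m) (s + 1) C M _ _ J j _ _ _ _ _
      ((m2 ⟨_, rfl⟩).trans ((le_max_left ..).trans hM)) ⟨g, q, t.toTu1,
        rn _ g (o m).2 _ _ _ a0 t 280 (by norm_num) (by norm_num),
        fun i hi => ⟨e1 i (a1.trans hi), (a2 i hi).1.1.1 ⟨d, d2⟩⟩, g.trk_dm hx, hJ, (clc hs).hw, d2,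
        (le_max_right ..).trans hM, (ld g rfl c0 d2 (fun i hi => (a2 i hi).1.1.2) t.toTu1 hx).1⟩
      (g.sek_top t.toTu1 hs) (J1.mono e)
    exact { this with
      J1 := J1
      δ1 := e.trans this.δ1
      top a := ⟨(this.top a).1, (this.top a).2.1, (this.top a).2.2.imp fun _ z => z.mono le_rfl e le_rfl⟩ }
  · exact Complex.continuous_re.comp ((continuous_finsetSum _ fun q _ =>
      continuous_const.mul (pG_cont _)).congr fun U => (fz_ap u U).symm)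
  · simp only [Lq.re, fz_ap]
    exact congrArg _ (sum_congr rfl fun q _ => congrArg _ (((F' d hd).top q).1.2.2.elim fun _ z =>
      z.1.lt.loc _ _ fun l hl => e l fun i => abs_le.2 (Op.mem_box.1 (Op.mem_lbox.1 hl) i)))
  · intro
    have := nl_of_nul (Tl.Nul.sum (A := univ) fun (q : Nd d) _ => ((hr ⟨q.1, q.2.trans hd⟩).mono
      ((l3 ⟨_, rfl⟩).trans r3)).smul ((u (.inr q) / (G.wm m).ka (s + 1) C J ^
        Tl.Bd.dg (.inr q : Tl.Bd 𝒜 d) : ℝ) : ℂ)) (g.N_odd J) (by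
          have := (g.N_odd j).pos
          nlinarith [g.rt_N hJ.le]) (β (m, J))
    refine (congrArg _ (funext fun U => ?_)).mp this
    simp [Lq.re, fz_ap, lb, Kz.lt, Tl.Bd.P, -Complex.ofReal_div]

theorem Oks.fw {β : ℕ × ℕ → ℝ} (o : G.Oks) (q : G.HP Sd.StA) (tu : G.Tus β) (hs : 2 ≤ s) (R₀ : ℕ) :
    ∀ᶠ C in atTop, ∃ M, ∃ R ≥ R₀, ∀ δ₀ > (0 : ℝ), ∃ δ ≤ δ₀, ∃ K, ∀ᶠ j in atTop, ∀ᶠ J in atTop,
      ∀ m, (G.wm m).Fw 𝒜 s C M R δ K (β (m, J)) J j :=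
  (o.fwU q tu hs R₀).mono fun _ ⟨M, R, r, a⟩ => ⟨M, R, r, fun δ δ0 => (a δ δ0).imp fun _ =>
    .imp_right <| .imp fun _ e => (e M le_rfl).mono fun j z => (eventually_gt_atTop j).mono z⟩

/-- the top of the run is far away -/
theorem Ok.ka_far (h : G.Ok) (D C d l : ℕ) (K : ℝ) :
    ∀ᶠ J in atTop, K / G.ka D C J ^ d ≤ G.rt J l := by
  filter_upwards [h.ka_ev D C, h.ev_rt l d |K|] with J a e
  have b1 : 1 ≤ G.bb J := by simpa using h.Lb J (i := 0) (Nat.zero_le _)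
  have k0 := (h.ka0 D C J).le
  rw [div_eq_mul_inv, ← inv_pow]
  exact (mul_le_mul (le_abs_self K) (pow_le_pow_left₀ (by positivity) (a.trans (Real.sqrt_le_iff.2
    ⟨by linarith, by nlinarith⟩)) d) (by positivity) (abs_nonneg K)).trans e

/-- the parameters of the arrays -/
theorem Oks.aok {β : ℕ × ℕ → ℝ} (o : G.Oks) (q : G.HP Sd.StA) (tu : G.Tus β) (A n R : ℕ) :
    ∀ᶠ j in atTop, 27 ^ n ≤ G.L j ∧ ∀ k ≥ j, ∀ᶠ J in atTop, ∀ m l g (C₀ : ℝ), j ≤ l → l ≤ k →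
      2 * (g + 1) * Fintype.card κ * (n + 1) ≤ A → 0 ≤ C₀ →
        (G.wm m).Aok κ A n g C₀ (β (m, J)) J k l R := by
  have h := (o 0).1
  obtain ⟨k0, e⟩ := h.big_ev A
  filter_upwards [eventually_ge_atTop k0, h.L_top.eventually_ge_atTop ((27 ^ n : ℕ) : ℝ)] with j a1 a2
  refine ⟨Nat.cast_le.1 a2, fun k _ => ?_⟩
  filter_upwards [eventually_gt_atTop k, h.L_top.eventually_ge_atTop (R : ℝ)] with J a3 a4 m l g C₀
    a5 a6 a7 a8
  have : R ≤ G.D0 J := by exact_mod_cast a4.trans (h.LD J)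
  exact ⟨(o m).1, tu (m, J), (o m).2, q, a3, a6, fun i a => e i (a1.trans (a5.trans a)), a7, a8,
    this.trans (Nat.le_mul_of_pos_left _ four_pos)⟩

namespace Fw

variable (W : G.Fw 𝒜 s C M R δ K b J j) (hz : z ∈ G.Gs J j) (d1 : 1 ≤ d) (d2 : d ≤ s + 2)
include W hz d1 d2

theorem up (h1 : j ≤ k) (h2 : k ≤ i) (h3 : i ≤ J) (t : Tl.Bd 𝒜 d → ℝ) :
    G.sz s C d b J z (G.fz s C J t) i ≤
      G.Pw d C k i * (G.rt i k : ℝ) ^ d * G.sz s C d b J z (G.fz s C J t) k := by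
  simpa only [ys_bot h1, ys_bot (h1.trans h2)] using (W.fr z hz d d1 d2).up (fun q => t q) h1 h2 h3

theorem dn (h1 : j ≤ k) (h2 : k ≤ i) (h3 : i ≤ J) (t : Tl.Bd 𝒜 d → ℝ) :
    2 ^ (i - k) * G.sz s C d b J z (G.fz s C J t) k ≤ G.sz s C d b J z (G.fz s C J t) i := by
  simpa only [ys_bot h1, ys_bot (h1.trans h2)] using (W.fr z hz d d1 d2).dn2 (fun q => t q) h1 h2 h3

theorem os_up (h1 : j ≤ k) (h2 : k ≤ i) (h3 : i ≤ J) (o : G.Os 𝒜 s C d b J k z e y) :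
    G.Os 𝒜 s C d b J i z e (G.Pw d C k i * (G.rt i k : ℝ) ^ d * y) :=
  o.imp fun t a => ⟨a.1, (W.up hz d1 d2 h1 h2 h3 t).trans (mul_le_mul_of_nonneg_left a.2
    (mul_nonneg (zero_le_one.trans (W.ok.Pw1 ..)) (by positivity)))⟩

theorem os_dn (h1 : j ≤ k) (h2 : k ≤ i) (h3 : i ≤ J) (o : G.Os 𝒜 s C d b J i z e y) :
    G.Os 𝒜 s C d b J k z e (y / 2 ^ (i - k)) :=
  o.imp fun t a => ⟨a.1, (le_div_iff₀' (by positivity)).2 ((W.dn hz d1 d2 h1 h2 h3 t).trans a.2)⟩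

end Fw

variable [NeZero (G.N J)] {L L' : Set ((Fz → ℝ) × ℝ)} {T T' : Fz → ℝ}

theorem Aok.ag_lw (a : G.Aok κ A n g C₀ b J k j R) (hg : (20 * g + 21) * G.sJ J k ≤ 6 * G.sJ J j) :
    G.Ag b J j Prod.fst (G.Lsl κ A n g C₀ b J k j R) Prod.snd := by
  have : Nonempty (Tmz κ) := ⟨G.tmL κ 0 0 0 0 0 0⟩
  choose! T hT using fun d (h : d ∈ G.Lsl κ A n g C₀ b J k j R) => h.2.2
  exact a.ag hg fun d h => ⟨(hT d h).1, (hT d h).2.1, h.1.1, (hT d h).2.2⟩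

namespace Zn

theorem one {d : (Fz → ℝ) × ℝ} (h : d ∈ L) (c : Continuous d.1) :
    G.Zn b J j L d.1 d.2 (G.al b J j fun V => d.1 (L6.lf V)) :=
  ⟨c, {d}, 1, by simpa using h, by simp, by simpa using Wy.Nl.zero⟩

theorem const (u : ℝ) : G.Zn b J j L (fun _ => u) 0 u :=
  ⟨continuous_const, ∅, 0, by simp, by simp, by simpa using Wy.Nl.zero⟩

variable (h : G.Zn b J j L T y u)
include h

theorem mono (r : y ≤ y') : G.Zn b J j L T y' u :=
  ⟨h.1, h.2.imp fun _ => .imp fun _ a => ⟨a.1, a.2.1.trans r, a.2.2⟩⟩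

theorem smul (r : ℝ) : G.Zn b J j L (fun U => r * T U) (|r| * y) (r * u) := by
  obtain ⟨c, s, t, h1, h2, h3⟩ := h
  refine ⟨continuous_const.mul c, s, fun d => r * t d, h1, ?_, ?_⟩
  · simpa only [abs_mul, mul_assoc, ← mul_sum] using mul_le_mul_of_nonneg_left h2 (abs_nonneg r)
  · simpa only [mul_assoc, ← mul_sum, ← mul_add, ← mul_sub r] using h3.smul r

variable (hc : ∀ d ∈ L, Continuous d.1 ∧ 0 ≤ d.2)
include hc

theorem nn : 0 ≤ y :=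
  let ⟨_, _, _, h1, h2, _⟩ := h
  (sum_nonneg fun d e => mul_nonneg (abs_nonneg _) (hc d (h1 e)).2).trans h2

omit h in
theorem cmb {s : Finset ((Fz → ℝ) × ℝ)} (e : ↑s ⊆ L) (t a : (Fz → ℝ) × ℝ → ℝ) (c' : Continuous T) :
    Continuous fun U => T U - (u + ∑ d ∈ s, t d * (d.1 U - a d)) :=
  c'.sub (continuous_const.add (continuous_finsetSum _ fun d x =>
    continuous_const.mul ((hc d (e x)).1.sub continuous_const)))

theorem add (h' : G.Zn b J j L T' y' u') :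
    G.Zn b J j L (fun U => T U + T' U) (y + y') (u + u') := by
  obtain ⟨c1, s, t, h1, h2, h3⟩ := h
  obtain ⟨c2, s', t', k1, k2, k3⟩ := h'
  refine ⟨c1.add c2, s ∪ s', fun d => (if d ∈ s then t d else 0) + if d ∈ s' then t' d else 0,
    by simp [h1, k1], (sum_le_sum fun d e => mul_le_mul_of_nonneg_right (abs_add_le _ _)
      (hc d ((mem_union.1 e).elim (h1 ·) (k1 ·))).2).trans ?_, ?_⟩
  · simpa only [apply_ite abs, abs_zero, add_mul, ite_mul, zero_mul, sum_add_distrib, sum_ite_mem,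
      union_inter_cancel_left, union_inter_cancel_right] using add_le_add h2 k2
  · simpa only [add_mul, ite_mul, zero_mul, sum_add_distrib, sum_ite_mem, union_inter_cancel_left,
      union_inter_cancel_right, add_add_add_comm u u', ← add_sub_add_comm] using
        h3.add k3 (cmb hc h1 _ _ c1) (cmb hc k1 _ _ c2)

theorem null (c' : Continuous T')
    (r : Wy.Nl (Fi.tr haar) b (G.N J) (4 * G.rt J j) fun U => T' U - T U) :
    G.Zn b J j L T' y u :=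
  let ⟨c1, s, t, h1, h2, h3⟩ := h
  ⟨c', s, t, h1, h2, by
    simpa only [sub_add_sub_cancel] using r.add h3 (c'.sub c1) (cmb hc h1 _ _ c1)⟩

end Zn

theorem lw_c : ∀ d ∈ G.Lsl κ A n g C₀ b J k j R, Continuous d.1 ∧ 0 ≤ d.2 :=
  fun _ h => ⟨h.1.1, h.2.1⟩

theorem az_of {γ : Type} {T : γ → Fz → ℝ} {S : Set γ} {v κ' : γ → ℝ}
    (a : G.Aok κ A n g C₀ b J k j R) (hg : (20 * g + 21) * G.sJ J k ≤ 6 * G.sJ J j)
    (h : ∀ c ∈ S, G.Zn b J j (G.Lsl κ A n g C₀ b J k j R) (T c) (v c) (κ' c)) :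
    G.Az b J j T S v κ' :=
  ⟨_, ⟨0⟩, _, _, _, a.ag_lw hg, fun _ h => ⟨h.1.1, h.1.2, h.2.1⟩, fun c hc => (h c hc).2⟩

theorem cL_pos (h : G.Ok) (A n l : ℕ) : 0 < G.cL A n l :=
  mul_pos (pow_pos (h.QA0 ..) _) (pow_pos (by linarith [h.L1 l]) _)

theorem zn_slot (o : G.Tok A n g C₀ b J k j j R (G.tmL κ n k j z Y y)) (r : LqR Y) (e : Lc R Y.re)
    (hz : z ∈ box (G.rt J j)) (hR : R ≤ G.rt J j) (y0 : 0 ≤ y) :
    ∃ u, G.Zn b J j (G.Lsl κ A n g C₀ b J k j R) (fun U => Y.re (tz z U)) y u := by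
  have c := (e.tz fun i => abs_le.2 (Op.mem_box.1 hz i)).mono (show _ ≤ 4 * G.rt J j by omega)
  have := (Zn.one (G := G) (b := b) (J := J) (j := j) (L := G.Lsl κ A n g C₀ b J k j R)
    (d := (fun U => -Y.re (tz z U), y)) ⟨⟨c.1.neg, fun _ _ u => congrArg Neg.neg (c.2 u)⟩, y0, _, o, hz,
      fun U => ?_, tmL_W.le⟩ c.1.neg).smul (-1)
  · exact ⟨_, by simpa only [neg_mul, one_mul, neg_neg, abs_neg, abs_one] using this⟩
  rw [tmL_ob, show sh z U = tz z U from funext fun e => by simp [tz, sh, add_comm], Complex.ofReal_neg]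
  exact congrArg _ (Complex.ext rfl (r.1 _))

theorem Fw.nz (W : G.Fw 𝒜 s C M R δ K b J j) (hz : z ∈ box (G.rt J j)) (d2 : d ≤ s + 2)
    (t : Tl.Bd 𝒜 d → ℝ) : Wy.Nl (Fi.tr haar) b (G.N J) (4 * G.rt J j) fun U =>
      (G.fz s C J t).re (tz z U) - Kz.lt 𝒜 (G.lb s C J t) (tz z U) :=
  have : (Fi.tr haar).IsHaarMeasure := (inferInstance : haar.IsHaarMeasure)
  (W.nl d d2 t).2.tz ((W.nl d d2 t).1.1.sub (Kz.lt_cont ..)) fun i => by
    have := abs_le.2 (Op.mem_box.1 hz i)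
    have := W.rad
    omega

section
variable (a : G.Aok κ A n g C₀ b J k j R) (W : G.Fw 𝒜 s C M R δ K b J j) (hz : z ∈ G.Gs J j)
  (hz' : z ∈ box (G.rt J j)) (d1 : 1 ≤ d) (d2 : d ≤ s + 2) (hn : d + 9 ≤ n) (hL : 27 ^ n ≤ G.L j)
  (hJ : K / G.ka (s + 1) C J ^ d ≤ G.rt J j) (y0 : 0 < y)
include a W hz hz' d1 d2 hn hL hJ y0

theorem Aok.zn_fz {t : Tl.Bd 𝒜 d → ℝ} (e : G.sz s C d b J z (G.fz s C J t) j ≤ y) :
    ∃ u, G.Zn b J j (G.Lsl κ A n g C₀ b J k j R) (fun U => (G.fz s C J t).re (tz z U))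
      (G.cL A n j * y) u :=
  have c := cL_pos a.ok A n j
  zn_slot (a.tok_fl (W.fr z hz d d1 d2) le_rfl hn hL hJ (mul_pos c y0) (by
    rw [ys_bot le_rfl]
    exact mul_le_mul_of_nonneg_left e c.le)) (fz_real t) (W.nl d d2 t).1 hz' W.rad (mul_pos c y0).le

/-- the letter of a label -/
theorem Aok.zn_os (o : G.Os 𝒜 s C d b J j z e y) : ∃ u,
    G.Zn b J j (G.Lsl κ A n g C₀ b J k j R) (fun U => Kz.lt 𝒜 e (tz z U)) (G.cL A n j * y) u := by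
  obtain ⟨t, rfl, e⟩ := os_iff.1 o
  exact (a.zn_fz W hz hz' d1 d2 hn hL hJ y0 e).imp fun u h => h.null lw_c
    ((Kz.lt_cont ..).comp (Wy.cont_tz z)) (by
      simpa only [neg_mul, one_mul, neg_sub] using (W.nz hz' d2 t).smul (-1))

/-- a letter minus the letter of a label -/
theorem Aok.zn_top (H : Top R m δ K' Y.1 Y.2 σ) (r : LqR Y) (K0 : 0 < K') (m1 : 1 ≤ m) (m2 : m ≤ d)
    (hK : (G.ka (s + 1) C J ^ d)⁻¹ ≤ G.rt J j) (t : Tl.Bd 𝒜 d → ℝ)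
    (ht : G.sz s C d b J z (Y - G.fz s C J t) j ≤ y) : ∃ u,
    G.Zn b J j (G.Lsl κ A n g C₀ b J k j R)
      (fun U => Y.re (tz z U) - Kz.lt 𝒜 (G.lb s C J t) (tz z U)) (G.cL A n j * (y +
        G.Pw d C j J / (G.rt J j : ℝ) ^ (d + 1) * (G.Yr d C J * (K' * G.ka (s + 1) C J ^ m)))) u := by
  have F := W.fr z hz d d1 d2
  have h := a.ok
  have hj := a.le.trans a.lt.le
  have o := lt1_of H m1 F.δ1
  have x0 := mul_pos K0 (pow_pos (h.ka0 (s + 1) C J) m)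
  have y1 := h.Yr1 d C J
  obtain ⟨t₀, e, -⟩ := F.cmpT le_rfl hj (by positivity) o (F.T.co.mono _ _ _ _
    (F.T.tp_P F.J1 H K0 m1 m2) (le_mul_of_one_le_left x0.le y1)) (F.T.tp_q F.J1 H m1 m2)
  obtain ⟨t', rfl⟩ : ∃ t' : _ → ℝ, t₀ = fun q => (t' q : ℂ) := ⟨fun q => (t₀ q).re, funext fun q =>
    Complex.ext rfl (F.cmpT_real lX_real le_rfl hj o r e q)⟩
  have v0 : 0 < G.cL A n j * (G.Pw d C j J / (G.rt J j : ℝ) ^ (d + 1) *
      (G.Yr d C J * (K' * G.ka (s + 1) C J ^ m))) := by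
    have := cL_pos h A n j
    have := h.Pw1 d C j J
    have := Ok.rt0 (G := G) J j (d + 1)
    positivity
  have cY : Lc R Y.re := ⟨Complex.continuous_re.comp H.cont, fun _ _ u => congrArg Complex.re
    (H.lt.loc _ _ fun l hl => u l fun i => abs_le.2 (Op.mem_box.1 (Op.mem_lbox.1 hl) i))⟩
  obtain ⟨u1, h1⟩ := zn_slot (a.tok_cmp F le_rfl hn hL hJ v0 H K0 m1 m2 e hK le_rfl)
    (r.sub (fz_real t')) (cY.sub (W.nl d d2 t').1) hz' W.rad v0.le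
  obtain ⟨u2, h2⟩ := a.zn_fz W hz hz' d1 d2 hn hL hJ y0 (t := t' - t) (by
    have b1 := F.T.ys_lin F.J1 F.d1 o (F.lt1 fun q => t q) (-1) le_rfl hj
    have b2 := F.T.ys_lin F.J1 F.d1 (F.lt1 fun q => t' q) (F.lt1 fun q => t q) (-1) le_rfl hj
    simp only [e, neg_one_smul, ← sub_eq_add_neg, ys_bot le_rfl] at b1 b2
    rwa [fz_sub, sz, b2, ← b1])
  refine ⟨_, ((h2.add lw_c h1).mono (mul_add ..).ge).null lw_c
    ((cY.1.comp (Wy.cont_tz z)).sub ((Kz.lt_cont ..).comp (Wy.cont_tz z))) ?_⟩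
  convert W.nz hz' d2 t using 2
  simp only [fz_sub, Lq.re, Prod.fst_sub, Pi.sub_apply, Complex.sub_re]
  ring

end

end Gl

end Pool.Agent.Lib.MP_7f377f_mp.RG.Q4.En
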