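import Pool.Agent.Lib.MP_7f377f_mp.G.KsB
import Pool.Agent.Lib.MP_7f377f_mp.G.KzW
import Pool.Agent.Lib.MP_7f377f_mp.G.KzU

/-! The sign of the label of the action density. -/

noncomputable section

namespace Pool.Agent.Lib.MP_7f377f_mp.Cok

open Finset

/-- a state and the letter of the frame which has the same symbol below are close at the top -/
theorem Fm.near4 {𝕜 V E β : Type} [NontriviallyNormedField 𝕜] [AddCommGroup V] [Module 𝕜 V]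
    [NormedAddCommGroup E] [NormedSpace 𝕜 E] [Fintype β] {j i l : ℕ} {P : ℕ → V → ℝ → Prop}
    {q : ℕ → V → E} {T : ℕ → V → V} {A : ℕ → E →ₗ[𝕜] E} {W : Submodule 𝕜 E} {a lam η : ℕ → ℝ}
    {M x : ℝ} {τ : β → V} {v : V} {c : β → 𝕜} (h : Fm j (i + 1) P q T A W a lam η τ M) (hj : j ≤ l)
    (hl : l ≤ i) (l0 : ∀ k, 0 < lam k) (x0 : 0 < x) (v1 : P (i + 1) v x) (v2 : ‖q (i + 1) v‖ ≤ x)
    (e : q l (st T τ (i + 1) l c) = q l (fw T v (i + 1) l)) :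
    ‖q (i + 1) (st T τ (i + 1) (i + 1) c)‖ ≤ 3 * x ∧
      ‖q (i + 1) v - q (i + 1) (st T τ (i + 1) (i + 1) c)‖ ≤
        a i * (8 * lam i + 10 * M * η i) * x := by
  obtain ⟨c', e', b1, b2⟩ := h.compl (w := fun k => 4 * lam k) hj (by omega) le_rfl
    (fun k => by linarith [l0 k]) (fun k e1 e2 => ⟨le_rfl, by
      linarith [(h.num k (hj.trans e1) e2).1]⟩) x0 v1 v2
  obtain rfl : c' = c := (h.sy_bij hj (by omega)).1 (Subtype.ext (e'.trans e.symm))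
  have i1 := hj.trans hl
  have i2 := i.lt_succ_self
  have M1 := h.M1
  obtain ⟨p1, p2⟩ := b2 (i + 1) (by omega) le_rfl
  have p3 := (b2 i hl i2.le).2
  rw [Ico_self, prod_empty, one_mul, fw_top] at p1 p2
  obtain ⟨z, hz⟩ := h.st_adm c' (i1.trans i2.le) le_rfl
  have s1 := (h.lin _ _ _ _ _ (-1) v1 hz).2
  have s2 := h.linT i _ _ _ _ (-1) i1 i2 v1 hz
  simp only [neg_one_smul, ← sub_eq_add_neg] at s1 s2
  have s3 := (h.step i _ _ _ i1 i2 p1 p2 (by nlinarith)).2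
  rw [Nat.Ico_succ_singleton, prod_singleton, fw_step T v i2, fw_top, h.st_step c' i2, ← s2] at p3
  refine ⟨b1, s1 ▸ (h.inv i _ i1 i2).trans ?_⟩
  rw [mul_assoc]
  refine mul_le_mul_of_nonneg_left ((norm_le_insert (q i (T i _)) _).trans ((add_le_add p3 s3).trans
    ?_)) (h.nl i).1
  nlinarith [mul_nonneg (mul_nonneg (h.nl i).2.2 x0.le) (sub_nonneg.2 M1)]

end Pool.Agent.Lib.MP_7f377f_mp.Cok

set_option linter.unusedSectionVars false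
variable [Pool.Agent.Lib.MP_7f377f_mp.GD]

namespace Pool.Agent.Lib.MP_7f377f_mp.RG.Q4.En

open Finset Filter Topology Tl Kz
open L6 (fast)
open Zg (V0 Og fil u0)

variable {𝒜 : Set CM} [Og 𝒜]

/-- the normalised labels are positive -/
def Pq (N : ℕ × ℕ → V0 𝒜 →ₗ[ℝ] V0 𝒜) (ψ : ℕ × ℕ → V0 𝒜) : Prop :=
  ∀ᶠ p in fast, ψ p ∈ (fil 𝒜).F 4 ∧ Pn (N p (ψ p))

theorem nn_lim {V ι : Type} [NormedAddCommGroup V] [NormedSpace ℝ V] {W : Submodule ℝ V}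
    [FiniteDimensional ℝ W] (f : V →ₗ[ℝ] ℝ) {l : Filter ι} [l.NeBot] {ψ : ι → V} {φ : V}
    (h : Tendsto ψ l (𝓝 φ)) (e : ∀ᶠ p in l, ψ p ∈ W ∧ 0 ≤ f (ψ p)) : 0 ≤ f φ := by
  obtain ⟨c, k, rfl⟩ := (W.closed_of_finiteDimensional.isClosedEmbedding_subtypeVal.isClosedMap
    {c | 0 ≤ f c.1} (isClosed_le continuous_const
      (f ∘ₗ W.subtype).continuous_of_finiteDimensional)).mem_of_tendsto h
    (e.mono fun p a => ⟨⟨_, a.1⟩, a.2, rfl⟩)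
  exact k

theorem l0_vp : Zg.l0 𝒜 ∈ Vp 𝒜 4 :=
  have h4 : Zf.Hm (Zg.l0 𝒜).1 4 := Zg.l0_val (𝒜 := 𝒜) ▸ Zf.hm_lg
  ⟨h4.mem, Subtype.ext ((h4.hc_eq 0).trans (if_neg (by simp)))⟩

theorem cl_rB {c : V0 𝒜} (h : c ∈ (fil 𝒜).F 4) (e : ∀ g, rB 𝒜 g c = c) :
    ∃ a b : ℝ, c = a • u0 𝒜 + b • Zg.l0 𝒜 :=
  Zg.cl_b4 h (fun μ => gI_rf μ ▸ e (Wd.rf μ)) fun σ => gI_pe σ ▸ e (Wd.pe σ)

theorem cl_vp {c : V0 𝒜} (h : c ∈ Vp 𝒜 4) (e : ∀ g, rB 𝒜 g c = c) : ∃ b : ℝ, c = b • Zg.l0 𝒜 := by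
  obtain ⟨a, b, rfl⟩ := cl_rB h.1 e
  have : (fil 𝒜).π 0 _ = 0 := h.2
  rw [map_add, map_smul, map_smul, show (fil 𝒜).π 0 (Zg.l0 𝒜) = 0 from l0_vp.2, π0_eq] at this
  exact ⟨b, by simpa [u0] using this⟩

namespace Gl

variable {G : Gl} {s C J : ℕ}

/-- the symbol of a letter at the top -/
theorem sym_eps {α : Type} [Fintype α] [DecidableEq α] (w : α → ℕ) {d R m : ℕ} {δ K ε : ℝ} {Y : Lq}
    {p₀ : (α → ℝ) →ₗ[ℝ] V} {e : Cp α} (H : Lsy p₀ R m δ K Y e) (δ0 : 0 < δ) (md : m ≤ d)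
    (e0 : 0 < ε) : ∃ δ' > (0 : ℝ), ∀ (G : Gl) D C M c b J j ω p l U U',
      G.Tk w d D C M c b J j ω p l U U' → p J = p₀ → G.Tj D R δ' J →
        G.zP w d D C c J j p l U J (G.tp D b J (c J) Y) ((|K| + 1) * G.ka D C J ^ m) ∧
        ‖((G.ka D C J : ℂ) ^ m)⁻¹ • G.zq w d D C J j p J (G.tp D b J (c J) Y) -
          Ju.Sy.mk (wC w) d e‖ ≤ ε ∧ ∀ a : ℂ, G.zq w d D C J j p J (a • G.tp D b J (c J) Y) =
            a • G.zq w d D C J j p J (G.tp D b J (c J) Y) := by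
  obtain ⟨K', δ', d0, k⟩ := sym_top w d H δ0
  obtain ⟨m1, -, σ, H, -⟩ := H
  refine ⟨min (min δ δ') (ε / (|K'| + 1)), by positivity, fun G D C M c b J j ω p l U U' T hp J1 => ?_⟩
  have z := T.tp_P (J1.mono ((min_le_left _ _).trans (min_le_left _ _))) (K := |K| + 1)
    (H.mono le_rfl le_rfl (by linarith [le_abs_self K])) (by positivity) m1 md
  refine ⟨z, (k G D C M c b J j ω p l U U' T hp (J1.mono ((min_le_left _ _).trans
    (min_le_right _ _)))).trans ?_, fun a => by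
      simpa [T.co.q0] using (T.co.lin J 0 _ _ _ a (T.co.zero J) z).2⟩
  have := (le_div_iff₀ (by positivity)).1 (J1.2.1.trans (min_le_right _ _))
  nlinarith [le_abs_self K', abs_nonneg K', T.ok.lH0 D J]

theorem dg4 (q : Tl.Bd 𝒜 4) : q.dg = 2 := by
  rcases q with q | q
  · exact q.1.hom.inj_right (hm4 (bV_ap q ▸ (bV 𝒜 4 q).2)).2 fun z =>
      vb_li.ne_zero q.1 (Subtype.ext z)
  · exact nd4e.elim q

theorem sy0_lb (k0 : G.ka (s + 1) C J ≠ 0) (t : Tl.Bd 𝒜 4 → ℝ) :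
    ∑ q, (t q : ℂ) • Ju.Sy.mk (wC Jt.wt) 4 (sm (s0 s) (q.P (lE 𝒜))) =
      G.ka (s + 1) C J ^ 2 • sy0 s (G.lb s C J t) := by
  have := nd4e
  simp only [lb, Fintype.sum_sum_type, univ_eq_empty (α := Nd 4), sum_empty, add_zero, map_sum,
    map_smul, smul_sum, smul_smul, dg4, mul_div_cancel₀ _ (pow_ne_zero 2 k0), Complex.coe_smul]
  rfl

/-- the label which matches a positive letter is positive -/
theorem Oks.pn [Adj 𝒜] (o : G.Oks) (hs : 2 ≤ s) {X : Wd.Let} (hX : Dp X) (C R : ℕ) (M K : ℝ) :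
    ∀ᶠ J in atTop, ∀ m b δ j z l (t : Tl.Bd 𝒜 4 → ℝ), (G.wm m).Sf 𝒜 s C 4 M R δ K b J j z →
      j ≤ l → l < J → (G.wm m).ys Jt.wt 4 (s + 1) C ((G.wm m).tk z J) b J j ((G.wm m).sek s b J)
        ((G.wm m).fz s C J t) l = (G.wm m).ys Jt.wt 4 (s + 1) C ((G.wm m).tk z J) b J j
          ((G.wm m).sek s b J) (Wd.evG X, Wd.lx X) l → Pn ((G.wm m).lb s C J t) := by
  by_cases h0 : C ≠ 0 ∧ 0 < M
  swap
  · refine .of_forall fun J m b δ j z l t F _ _ _ => (h0 ⟨fun c => ?_, by linarith [F.T.M1]⟩).elim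
    have := (F.T.e j le_rfl).2.1.1
    rw [c, Xr, pow_zero] at this
    linarith [GD.cG1]
  obtain ⟨c0, M0⟩ := h0
  have h := (o 0).1
  obtain ⟨κ, κ0, hX⟩ := hX
  obtain ⟨B, B0, hB⟩ := Fc_bd hs
  obtain ⟨R1, r1⟩ := Wd.exists_rad X
  obtain ⟨δ1, d1, K1, H1⟩ := eX_lsy (p := s0 s) X r1
  obtain ⟨R2, δ2, K2, H2⟩ := (rz_lE (𝒜 := 𝒜)).fra hs
  replace H2 := H2 4 (by omega)
  obtain ⟨E, hE⟩ : ∃ E, E = Ju.Sy.mk (wC Jt.wt) 4 (eX (s0 s) X) := ⟨_, rfl⟩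
  obtain ⟨x, hx⟩ : ∃ x, x = |K1| + 1 + ‖E‖ := ⟨_, rfl⟩
  have x0 : 0 < x := by rw [hx]; positivity
  obtain ⟨ε, e0, e1, e2⟩ : ∃ ε > (0 : ℝ), ε ≤ 1 ∧ ε * (1 + 3 * M * x) ≤ κ / B / 2 :=
    ⟨min 1 (κ / B / 2 / (1 + 3 * M * x)), by positivity, min_le_left _ _,
      (le_div_iff₀ (by positivity)).1 (min_le_right _ _)⟩
  obtain ⟨δ3, d3, H3⟩ := sym_eps Jt.wt (d := 4) H1 d1 (by omega) e0
  choose δ4 d4 H4 using fun q => sym_eps Jt.wt (H2.top q).1 H2.δ0 (H2.top q).2 e0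
  filter_upwards [h.tj_ev (s + 1) R1 d3, eventually_all.2 fun q => h.tj_ev (s + 1) R2 (d4 q),
    (tendsto_sub_atTop_nat 1).eventually (h.yr_ev 4 C 2 (36 * M * x / (κ / B)) c0)]
    with J j1 j2 j3 m b δ j z l t F l1 l2 e
  obtain ⟨i, rfl⟩ : ∃ i, J = i + 1 := ⟨J - 1, by omega⟩
  have T := F.T
  have hp := T.ok.sek_top T.t hs
  obtain ⟨a1, a2, -⟩ := H3 _ _ _ _ _ _ _ _ _ _ _ _ _ T hp j1
  have a3 := fun q => (H4 q _ _ _ _ _ _ _ _ _ _ _ _ _ T hp (j2 q)).2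
  have a4 := F.s1 fun q => t q
  have a5 := sy0_lb (T.ok.ka0 (s + 1) C (i + 1)).ne' t
  have k0 := T.ok.ka0 (s + 1) C (i + 1)
  have L1 := T.ok.L1 i
  have Y1 := T.ok.Yr1 4 C i
  have M1 := T.M1
  replace j3 : 36 * M * x / (κ / B) * (G.wm m).Yr 4 C i ^ 2 ≤ (G.wm m).L i := j3
  have v2 : ∀ {u : SyC Jt.wt 4} {k : ℝ}, 0 < k → ‖((k : ℂ) ^ 2)⁻¹ • u - E‖ ≤ ε →
      ‖u - k ^ 2 • E‖ ≤ ε * k ^ 2 := fun {u k} k0 a => by
    rw [show u - k ^ 2 • E = k ^ 2 • (((k : ℂ) ^ 2)⁻¹ • u - E) by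
      rw [smul_sub, ← Complex.coe_smul _ (_ • u), Complex.ofReal_pow, smul_inv_smul₀ (by
        simpa using k0.ne')], norm_smul, Real.norm_of_nonneg (by positivity), mul_comm]
    gcongr
  replace a2 := v2 k0 (hE ▸ a2)
  have N := fun c x v => F.fm.near4 (c := c) (x := x) (v := v) l1 (by omega)
  obtain ⟨b1, b2⟩ := N (fun q => t q) (x * (G.wm m).ka (s + 1) C (i + 1) ^ 2) _
    (fun k => div_pos (by linarith [T.ok.Yr1 4 C k]) (pow_pos (by linarith [T.ok.L1 k]) _))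
    (mul_pos x0 (pow_pos k0 2))
    (F.fm.mono _ _ _ _ a1 (by gcongr; linarith [norm_nonneg E])) ((norm_le_insert' _ _).trans
      ((add_le_add le_rfl a2).trans (by
        rw [norm_smul, Real.norm_of_nonneg (by positivity)]
        nlinarith [abs_nonneg K1, pow_pos k0 2]))) (by rw [st_ls]; exact e)
  have b3 := norm_sum_le_of_le univ fun q _ => (norm_smul_le (t q : ℂ) _).trans
    (mul_le_mul_of_nonneg_left (a3 q).1 (norm_nonneg _))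
  simp only [smul_sub, sum_sub_distrib, ← sum_mul, a5, ← (a3 _).2] at b3
  rw [ys, ← st_ls] at a4
  rw [Cok.st, Cok.fw_top, F.fm.q_top] at a4 b1 b2
  clear N a1 a3 a5 e H3 H4
  have c1 := lb_mem (G := G.wm m) (s := s) (C := C) (J := i + 1) t
  generalize (G.wm m).lb s C (i + 1) t = c at *
  generalize (G.wm m).ka (s + 1) C (i + 1) = k at *
  generalize (G.wm m).Yr 4 C i = y at *
  generalize ((G.wm m).L i : ℝ) = L at *
  have b4 : y * L ^ 4 * (8 * (y / L ^ (4 + 1)) + 10 * M * (y / L ^ (s + 1 + 2))) * x ≤ κ / B / 2 := by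
    have : y / L ^ (s + 1 + 2) ≤ y / L ^ (4 + 1) := div_le_div_of_nonneg_left (by linarith)
      (by positivity) (pow_le_pow_right₀ (by linarith) (by omega))
    rw [div_mul_eq_mul_div, div_le_iff₀ (by positivity)] at j3
    calc _ ≤ y * L ^ 4 * (8 * M * (y / L ^ (4 + 1)) + 10 * M * (y / L ^ (4 + 1))) * x := by
          gcongr; linarith
      _ = 36 * M * x * y ^ 2 / L / 2 := by field_simp; ring
      _ ≤ _ := div_le_div_of_nonneg_right ((div_le_iff₀' (by linarith)).2 j3) two_pos.le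
  have b5 : ‖sy0 s c - E‖ ≤ κ / B := by
    refine le_of_mul_le_mul_left ?_ (pow_pos k0 2)
    rw [← Real.norm_of_nonneg (pow_pos k0 2).le, ← norm_smul, smul_sub,
      Real.norm_of_nonneg (pow_pos k0 2).le]
    refine (norm_sub_le_norm_sub_add_norm_sub _ _ _).trans ((add_le_add
      ((norm_sub_rev _ _).trans_le b3) ((norm_sub_le_norm_sub_add_norm_sub _ _ _).trans (add_le_add
        ((norm_sub_rev _ _).trans_le b2) a2))).trans ?_)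
    have := mul_le_mul_of_nonneg_right (a4.trans (mul_le_mul_of_nonneg_left b1 M0.le)) e0.le
    nlinarith [pow_pos k0 2]
  intro A hA
  obtain ⟨u, hu, rfl⟩ := Fc_sur hs hA
  have q0 := qv_sy0 hs c1 (zero_mem _)
  have q1 := qv_le wt2 (sy0_mem (s := s) c1) (zero_mem _)
  have q2 := (abs_le.1 (qv_le wt2 (sub_mem (sy0_mem c1) (hE ▸ eX_mem 4)) hu)).1
  have q3 := hB u hu (qv u E / κ) fun μ ν => by
    rw [hE, qv_eX hu, Fc_eq hs hu, le_div_iff₀' κ0]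
    exact hX ..
  rw [show Fc s 0 = 0 from funext₂ fun _ _ => map_zero _] at q0
  rw [← q0, ← qv_sy0 hs c1 hu]
  rw [map_sub] at q2
  rw [← div_le_iff₀' B0, le_div_iff₀' κ0, ← mul_div_assoc, mul_div_right_comm] at q3
  simp only [norm_zero, ne_eq, OfNat.ofNat_ne_zero, not_false_eq_true, zero_pow, mul_zero,
    abs_nonpos_iff] at q1
  nlinarith [mul_le_mul_of_nonneg_right b5 (sq_nonneg ‖u‖)]

variable {β : ℕ × ℕ → ℝ} {U : Ultrafilter (ℕ × ℕ)} {N : ℕ × ℕ → V0 𝒜 →ₗ[ℝ] V0 𝒜}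
  {A : ℝ → V0 𝒜 ≃ₗ[ℝ] V0 𝒜}

/-- the sign law -/
theorem Nz.sgn (H : G.Nz 𝒜 β U N A) (hU : U ≤ fast) {ψ : ℕ × ℕ → V0 𝒜} {φ : V0 𝒜} (P : Pq N ψ)
    (l : Tendsto ψ U (𝓝 φ)) :
    ∀ᶠ t in 𝓝[>] (0 : ℝ), ∀ x y : ℝ, (A t).symm φ = x • u0 𝒜 + y • Zg.l0 𝒜 → 0 ≤ y := by
  have := (Zg.fil 𝒜).fin 4
  obtain ⟨lam, e0⟩ : ∃ lam : V0 𝒜 →ₗ[ℝ] ℝ, lam = Zg.ev (Zg.am 1) - Zg.ev 0 := ⟨_, rfl⟩
  have e1 : lam (u0 𝒜) = 0 := by simp [e0, Zg.ev_u0]
  have e2 : lam (Zg.l0 𝒜) = 3 := by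
    rw [e0, LinearMap.sub_apply, Zg.ev_l0]
    norm_num [Zg.l0, Zg.ev_f0]
  have e3 (g) : rB 𝒜 g (Zg.l0 𝒜) = Zg.l0 𝒜 := Zg.r0_l0 _
  have e4 (t g c) : rB 𝒜 g ((A t).symm c) = (A t).symm (rB 𝒜 g c) := (A t).injective (by simp [H.cm])
  filter_upwards [H.pos] with t pos x y e
  obtain ⟨f, hf⟩ : ∃ f : V0 𝒜 →ₗ[ℝ] ℝ, ∀ c, f c = lam (∑ g, rB 𝒜 g ((A t).symm c)) :=
    ⟨lam ∘ₗ ∑ g, rB 𝒜 g ∘ₗ (A t).symm, fun c => by simp⟩
  have h := nn_lim (W := (Zg.fil 𝒜).F 4) f l (by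
    filter_upwards [pos, hU P, hU (H.bij 4)] with p pos ⟨m, q⟩ ⟨b1, b2, b3⟩
    refine ⟨m, (hf _).ge.trans' ?_⟩
    obtain ⟨a, b, k⟩ := cl_rB (c := ∑ g, rB 𝒜 g ((A t).symm (ψ p))) (sum_mem fun g _ =>
      up_of_comm (rv_π (Zg.mat_o (gI g))) ((H.up t).2 4 _ m)) fun g => by
        simp only [map_sum, rB_rB]
        exact Equiv.sum_comp (.mulLeft g) fun g => rB 𝒜 g _
    have v : A t (Zg.l0 𝒜) ∈ Vp 𝒜 4 := ⟨(H.up t).1 4 _ l0_vp.1, (H.c0 t _).symm.trans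
      ((congrArg _ l0_vp.2).trans (map_zero _))⟩
    obtain ⟨μ, u⟩ := cl_vp (b1.1 v) fun g => by rw [← b3 g _ v.1, ← H.cm, e3]
    have w := congrArg (fun c => lam (N p (A t c))) k
    have z : 0 ≤ ∑ g, lam (rB 𝒜 g (N p (ψ p))) := sum_nonneg fun g _ => by
      have := q ((Wv.mat (gI g)).transpose * Zg.am 1 * Wv.mat (gI g)) (by
        rw [Matrix.transpose_mul, Matrix.transpose_mul, show (Zg.am 1).transpose = -Zg.am 1 by
          ext i j; fin_cases i <;> fin_cases j <;> simp [Zg.am]]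
        simp [Matrix.mul_assoc])
      simpa [e0, rB, Zg.ev_r0] using this
    simp only [e4, map_sum, map_add, map_smul, LinearEquiv.apply_symm_apply, b3 _ _ m, u] at w
    rw [f0_eq ((H.up t).1 0 _ (u0_F 0))] at w
    simp only [map_smul, b2, e1, e2, smul_eq_mul] at w
    simp only [k, map_add, map_smul, e1, e2, smul_eq_mul]
    nlinarith [pos μ u])
  simp only [hf, e, map_add, map_smul, rB_u0, e3, map_sum, sum_const, card_univ] at h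
  simpa [e1, e2, Fintype.card_pos] using h

end Gl

end Pool.Agent.Lib.MP_7f377f_mp.RG.Q4.En
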