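import Pool.Agent.Lib.MP_7f377f_mp.G.ZhK1

/-! Labels of dimension at most four as quadratic forms of a constant field. -/

noncomputable section

namespace Pool.Agent.Lib.MP_7f377f_mp.Zg
variable [Pool.Agent.Lib.MP_7f377f_mp.GD]
set_option linter.unusedSectionVars false

open MvPolynomial Set YM7 Pur Wm Wv Matrix Sw Zf S3
open Ro (Iso rot prm)

variable {d : ℕ} {𝒜 : Set (Matrix (Fin d) (Fin d) ℝ)} [o : Og 𝒜] {c : V0 𝒜}

theorem cl0 {c : Lb d ℝ} (h : c ∈ Iv ℝ 𝒜) (h4 : c ∈ Fd d ℝ 4) :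
    ∃ (a : ℝ) (w : (Fin 2 → Fin 4) → (Fin 2 → Fin 4) → ℝ), c = C a + ∑ I, ∑ J, w I J • qd I J :=
  Zf.cl0 og_sch o.two h (mem_Fd.1 h4)

/-- a constant field of the first colour -/
def xi (d : ℕ) (F : Mat) (p : YZ.Var d) : ℝ :=
  if p.1.1 = 0 ∧ p.2.1 = 0 then F (p.1.2 0) (p.1.2 1) else 0

/-- antisymmetric matrices -/
def am (x : Fin 6 → ℝ) : Mat :=
  !![0, x 0, x 1, x 2; -x 0, 0, x 3, x 4; -x 1, -x 3, 0, x 5; -x 2, -x 4, -x 5, 0]

/-- the value of a label at a constant field -/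
def ev (F : Mat) : V0 𝒜 →ₗ[ℝ] ℝ := (aeval (xi d F)).toLinearMap ∘ₗ (V0 𝒜).subtype

theorem ev_val (F : Mat) (c : V0 𝒜) : ev F c = eval (xi d F) c.1 := rfl

theorem sum_xi (h : 2 ≤ d) (F : Mat) (I J : Fin 2 → Fin 4) :
    ∑ a, xi d F (⟨0, I⟩, a) * xi d F (⟨0, J⟩, a) = F (I 0) (I 1) * F (J 0) (J 1) := by
  rw [Finset.sum_eq_single ⟨0, by omega⟩ (fun b _ e => by
    rw [xi, if_neg fun k => e (Fin.ext k.2), zero_mul]) (by simp)]
  simp [xi]

theorem ev_u0 (F : Mat) : ev F (u0 𝒜) = 1 := map_one (eval _)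

theorem ev_f0 (F : Mat) (μ ν : Fin 4) : ev F (f0 𝒜 μ ν) = ∑ l, F μ l * F ν l := by
  simp only [ev_val, f0, ff, map_sum, map_mul, eval_X, sum_xi o.two]
  rfl

theorem ev_l0 (x : Fin 6 → ℝ) : ev (am x) (l0 𝒜) = 2⁻¹ * ∑ i, x i * x i := by
  simp [l0, ev_f0, am, Fin.sum_univ_succ]
  ring

theorem ev_tt (x : Fin 6 → ℝ) : ev (am x) (tt 𝒜 0 1) = x 1 * x 3 + x 2 * x 4 := by
  simp [tt, ev_f0, am, Fin.sum_univ_succ]

theorem ev_r0 (R : Iso) (F : Mat) (c : V0 𝒜) :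
    ev F (r0 𝒜 R c) = ev ((mat R)ᵀ * F * mat R) c := by
  refine AlgHom.congr_fun (φ₁ := (aeval (xi d F)).comp (rh (mat R))) (φ₂ := aeval _)
    (algHom_ext fun ⟨⟨n, I⟩, a⟩ => ?_) c.1
  simp only [AlgHom.comp_apply, rh_X, map_sum, map_smul, aeval_X, xi]
  split_ifs with e
  · obtain ⟨rfl, -⟩ := e
    rw [← (piFinTwoEquiv fun _ => Fin 4).symm.sum_comp, Fintype.sum_prod_type, mul_apply,
      Finset.sum_comm]
    simp [mul_apply, Finset.sum_mul, mul_right_comm]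
  · simp

theorem ev_rfl (l : Fin 4) (x : Fin 6 → ℝ) (c : V0 𝒜) : ev (am x) (r0 𝒜 (rfL l) c) =
    ev (am (![sr l 0 * sr l 1, sr l 0 * sr l 2, sr l 0 * sr l 3, sr l 1 * sr l 2, sr l 1 * sr l 3,
      sr l 2 * sr l 3] * x)) c := by
  have : mat (rfL l) = diagonal (sr l) := by
    ext i j
    rw [mat_rfL, diagonal_apply]
    split_ifs with e <;> simp [e]
  rw [ev_r0, this]
  congr 2
  ext i j
  rw [mul_diagonal, diagonal_transpose, diagonal_mul]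
  fin_cases i <;> fin_cases j <;> simp [am] <;> ring

theorem mat_prm (σ : Equiv.Perm (Fin 4)) (i j : Fin 4) :
    mat (prm σ) i j = if i = σ j then 1 else 0 := by
  simp [mat, Ro.prm]

theorem ev_prm (σ : Equiv.Perm (Fin 4)) {x y : Fin 6 → ℝ} (h : (am x).submatrix σ σ = am y)
    (c : V0 𝒜) : ev (am x) (r0 𝒜 (prm σ) c) = ev (am y) c := by
  rw [ev_r0, ← h]
  congr 2
  ext i j
  simp [mul_apply, mat_prm]

theorem ev_inj (h : c ∈ (fil 𝒜).F 4) (e : ∀ x, ev (am x) c = 0) : c = 0 := by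
  obtain ⟨a, w, k⟩ := cl0 c.2.1 h
  simp only [ev_val, k, map_add, eval_C, map_sum, smul_eval, qd, map_mul, eval_X,
    sum_xi o.two] at e
  have a0 : a = 0 := by
    have := e 0
    rw [show am 0 = 0 by ext i j; fin_cases i <;> fin_cases j <;> simp [am]] at this
    simpa using this
  refine v0_null (mem_Nl.2 fun ξ ⟨η, _, hξ⟩ => ?_)
  simp only [k, a0, map_add, eval_C, map_sum, smul_eval, qd, map_mul, eval_X, Finset.mul_sum,
    zero_add] at e ⊢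
  rw [(Finset.sum_congr rfl fun _ _ => Finset.sum_comm).trans Finset.sum_comm]
  refine Finset.sum_eq_zero fun b _ => ?_
  set G : Mat := fun i j => η b j (X i) - η b i (X j) with hG
  have : G = am ![G 0 1, G 0 2, G 0 3, G 1 2, G 1 3, G 2 3] := by
    ext i j
    fin_cases i <;> fin_cases j <;> simp [am, hG]
  rw [← e ![G 0 1, G 0 2, G 0 3, G 1 2, G 1 3, G 2 3], ← this]
  simp [hξ, hG]

/-- quadratic forms -/
def Qf (c : V0 𝒜) (a : ℝ) (m : Fin 6 → Fin 6 → ℝ) : Prop :=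
  ∀ x, ev (am x) c = a + ∑ i, ∑ j, m i j * (x i * x j)

theorem ev_form (h : c ∈ (fil 𝒜).F 4) : ∃ a m, Qf c a m := by
  obtain ⟨a, w, k⟩ := cl0 c.2.1 h
  have e : ∀ x i j, am x i j = ∑ k, am (Pi.single k 1) i j * x k := fun x i j => by
    fin_cases i <;> fin_cases j <;> simp [am, Pi.single_apply]
  refine ⟨a, fun i j => ∑ I, ∑ J, w I J * (am (Pi.single i 1) (I 0) (I 1) *
    am (Pi.single j 1) (J 0) (J 1)), fun x => ?_⟩
  simp only [ev_val, k, map_add, eval_C, map_sum, smul_eval, qd, map_mul, eval_X,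
    sum_xi o.two, e x, Finset.sum_mul_sum]
  simp only [Finset.mul_sum, Finset.sum_mul, ← Fintype.sum_prod_type']
  exact congrArg _ (Fintype.sum_equiv ⟨fun p => (p.2.2.1, p.2.2.2, p.1, p.2.1),
    fun p => (p.2.2.1, p.2.2.2, p.1, p.2.1), fun _ => rfl, fun _ => rfl⟩ _ _ fun p => by
      simp only [Equiv.coe_fn_mk]; ring)

theorem Qf.avg {a m} (h : Qf c a m) {l : Fin 4} {ε : ℝ} (e : r0 𝒜 (rfL l) c = ε • c)
    (hε : ε * ε = 1) : Qf c (a * ((1 + ε) / 2)) fun i j => m i j * ((1 + ε *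
      (![sr l 0 * sr l 1, sr l 0 * sr l 2, sr l 0 * sr l 3, sr l 1 * sr l 2, sr l 1 * sr l 3,
        sr l 2 * sr l 3] i * ![sr l 0 * sr l 1, sr l 0 * sr l 2, sr l 0 * sr l 3, sr l 1 * sr l 2,
          sr l 1 * sr l 3, sr l 2 * sr l 3] j)) / 2) := fun x => by
  have := ev_rfl l x c
  rw [e, map_smul, h (_ * x), smul_eq_mul] at this
  generalize ![sr l 0 * sr l 1, sr l 0 * sr l 2, sr l 0 * sr l 3, sr l 1 * sr l 2,
    sr l 1 * sr l 3, sr l 2 * sr l 3] = s at *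
  have k := h x
  simp only [Fin.sum_univ_six, Pi.mul_apply] at *
  linear_combination k / 2 + ε / 2 * this - ev (am x) c / 2 * hε

theorem ev_sec (h : c ∈ (fil 𝒜).F 4) (h0 : r0 𝒜 (rfL 0) c = -c) (h2 : r0 𝒜 (rfL 2) c = c)
    (h3 : r0 𝒜 (rfL 3) c = c) : ∃ a b : ℝ, ∀ x, ev (am x) c = a * (x 1 * x 3) + b * (x 2 * x 4) := by
  obtain ⟨a, m, k⟩ := ev_form h
  refine ⟨m 1 3 + m 3 1, m 2 4 + m 4 2, fun x => ?_⟩
  rw [((k.avg (h0.trans (neg_one_smul ℝ c).symm) (by simp)).avg (h2.trans (one_smul ℝ c).symm)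
    (by simp)).avg (h3.trans (one_smul ℝ c).symm) (by simp) x]
  simp [Fin.sum_univ_six, sr]
  ring

theorem ev_even (h : c ∈ (fil 𝒜).F 4) (e : ∀ l, r0 𝒜 (rfL l) c = c) :
    ∃ (a : ℝ) (n : Fin 6 → ℝ), ∀ x, ev (am x) c = a + ∑ i, n i * (x i * x i) := by
  obtain ⟨a, m, k⟩ := ev_form h
  have e l := (e l).trans (one_smul ℝ c).symm
  refine ⟨a, fun i => m i i, fun x => ?_⟩
  rw [((k.avg (e 0) (by simp)).avg (e 2) (by simp)).avg (e 3) (by simp) x]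
  simp [Fin.sum_univ_six, sr]

end Pool.Agent.Lib.MP_7f377f_mp.Zg
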