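import Pool.Agent.Lib.MP_7f377f_mp.G.KyS
import Pool.Agent.Lib.MP_7f377f_mp.G.KsC
import Pool.Agent.Lib.MP_7f377f_mp.G.ZhK0

/-! The Wick ordered letters of dimension four. -/

noncomputable section

set_option linter.unusedSectionVars false
variable [Pool.Agent.Lib.MP_7f377f_mp.GD]

namespace Pool.Agent.Lib.MP_7f377f_mp.RG.Tl

open Finset MvPolynomial Wd Q4 Q4.En Ju
open Zg (V0 Og r0 fil u0)

variable {𝒜 : Set CM} [Og 𝒜] {s d : ℕ} {e : V0 𝒜}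

theorem wt2 (a : Jt.Ia s) : 2 ≤ Jt.wt a := Nat.le_add_right ..

/-- there are no null letters of weight four -/
theorem nd4 (b : Nd d) : 4 < b.1.1.m := by
  by_contra h
  have S := bS_spec b.1.1.m
  obtain ⟨g, u⟩ := S.gl _ b.1.1.mem
  have v : (Sy.mk (wC Jt.wt) 4 (sm (s0 (b.1.1.m - 4 + 2)) b.1.1.P)).val = _ :=
    (Sy.val_mk ..).trans (tc_eq (mem_Wd.2 fun γ k => by_contra fun z => by have := u z; omega))
  refine S.ind.ne_zero b.1.1.mem (MvPolynomial.funext fun z => ?_)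
  have := ev_lw wt2 (mk_mem (p := s0 (b.1.1.m - 4 + 2)) g.1 b.1.1.hom) z
  rw [v] at this
  refine this.trans ((clc (by omega)).zer b.1.2 _ ?_)
  rintro _ ⟨a, rfl⟩ k
  exact if_neg (by simp only [Jt.wt, Jt.dI]; omega)

theorem vp4 (h : e ∈ Vp 𝒜 4) : Zf.Hm e.1 4 ∧ e.1.IsHomogeneous 2 := by
  obtain ⟨a, m, k⟩ := Zg.cl0 e.2.1 h.1
  have q : Zf.Hm (∑ I, ∑ J, m I J • Zf.qd I J : Zf.Lb GD.d ℝ) 4 :=
    .sum _ _ _ fun _ _ => .sum _ _ _ fun _ _ => (Zg.hm_qd _ _).smul _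
  have z : Zf.hc 0 e.1 = 0 := congrArg Subtype.val h.2
  rw [k, map_add, q.hc_eq, Zf.Hm.hc_eq (isWeightedHomogeneous_C _ _), if_pos rfl,
    if_neg (by norm_num), add_zero] at z
  rw [k, z, zero_add]
  exact ⟨q, .sum _ _ _ fun _ _ => .sum _ _ _ fun _ _ => (homogeneousSubmodule _ ℝ 2).smul_mem _
    (IsHomogeneous.sum _ _ _ fun _ _ => (isHomogeneous_X _ _).mul (isHomogeneous_X _ _))⟩

variable [Adj 𝒜]

theorem Ze4 (h : e ∈ Vp 𝒜 4) (ε r : ℝ) :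
    ∃ a : ℂ, Ze 𝒜 ε r e = ((r ^ 2 * ε⁻¹ ^ 4 : ℝ) : ℂ) • lE 𝒜 e + C a := by
  obtain ⟨h1, h2⟩ := vp4 h
  have k : ∀ g, ∃ a : ℂ, act g (Kw.sc (fun _ => 1) (r : ℂ) (ls 𝒜 (zV 𝒜 ε (r0 𝒜 (gI g⁻¹) e)))) =
      ((r ^ 2 * ε⁻¹ ^ 4 : ℝ) : ℂ) • lg 𝒜 g e + C a := fun g => by
    have h3 : Zf.Hm (r0 𝒜 (gI g⁻¹) e).1 4 := Zf.hm_rh _ h1
    have h4 : (r0 𝒜 (gI g⁻¹) e).1.IsHomogeneous 2 := deg_rh _ h2
    rw [lg_ap]
    generalize r0 𝒜 (gI g⁻¹) e = c at *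
    obtain ⟨a, q⟩ := Zg.cl3 (wV_F h3.mem)
    have z : zV 𝒜 ε c = ε⁻¹ ^ 4 • wV 𝒜 c :=
      (congrArg (wV 𝒜) (Subtype.ext (Zf.rh_smul h3 _))).trans (map_smul ..)
    refine ⟨(ε⁻¹ ^ 4 * a : ℝ), ?_⟩
    rw [z, sub_eq_iff_eq_add'.1 q]
    simp only [map_add, map_smul, ← Complex.coe_smul, sc_hom ((gm_ls c).2.2 _ h4),
      show ls 𝒜 (u0 𝒜) = 1 by simp [ls_ap, u0], map_one, smul_add, smul_smul, C_eq_smul_one]
    push_cast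
    rw [mul_comm]
  choose a k using k
  refine ⟨(Fintype.card B4 : ℝ)⁻¹ • ∑ g, a g, ?_⟩
  simp only [Ze_ap, k, lE_ap, sum_add_distrib, smul_add, ← smul_sum, ← map_sum, smul_comm _ (_ : ℂ),
    C_eq_smul_one, smul_assoc, ← sum_smul]

end Pool.Agent.Lib.MP_7f377f_mp.RG.Tl

namespace Pool.Agent.Lib.MP_7f377f_mp.RG.Q4.En.Gl

open Finset MvPolynomial Tl
open Zg (V0 Og)

variable {G : Gl} {𝒜 : Set CM} [Og 𝒜] [Adj 𝒜] {s C d J k : ℕ} {b y : ℝ} {x : St} {e : V0 𝒜}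
  {t : Bq 𝒜 s → ℝ}

theorem Kq.e4 (a : G.Kq s C d b J k x e y t) (he : e ∈ Vp 𝒜 d) (b0 : 0 ≤ b) (h : d ≤ 4) :
    Tl.lq (Py (G.ka (s + 1) C J) t) = ((2 * b * (G.rt J k : ℝ) ^ 4 : ℝ) : ℂ) • Tl.lq (lE 𝒜 e) := by
  obtain ⟨u, m, hm, r⟩ := a.eq
  have h4 : e ∈ Vp 𝒜 4 := ⟨(Zg.fil 𝒜).mono h he.1, he.2⟩
  obtain ⟨v, z⟩ := Ze4 h4 (G.rt J k : ℝ)⁻¹ √(2 * b)
  obtain rfl : m = 0 := funext fun q => hm q fun ⟨_, a, c⟩ => by
    obtain ⟨g, q | q⟩ := q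
    · simpa using a
    · exact absurd (c.trans h) (nd4 q).not_ge
  have c : ∀ {P : Pl} {n}, P.IsHomogeneous (n + 1) → constantCoeff P = 0 := fun h =>
    h.coeff_eq_zero (by simp)
  have c1 : constantCoeff (Py (G.ka (s + 1) C J) t) = 0 := by
    rw [Py_ap, map_sum]
    refine sum_eq_zero fun q _ => ?_
    obtain ⟨-, -, a, b⟩ := (rz_ls (𝒜 := 𝒜)).gl q.2
    obtain ⟨n, e⟩ := Nat.exists_eq_add_of_le' a
    rw [constantCoeff_smul, Bq.P, c (hom_act (e ▸ b) _), smul_zero]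
  rw [z, map_zero, add_zero, inv_inv, Real.sq_sqrt (by linarith)] at r
  have c2 := congrArg constantCoeff r
  simp only [map_add, constantCoeff_C, c1, constantCoeff_smul, c ((gm_lE e).2.2 _ (vp4 h4).2),
    smul_zero, add_zero, zero_add] at c2
  rw [c2, add_comm, add_left_inj] at r
  rw [r, map_smul]

end Pool.Agent.Lib.MP_7f377f_mp.RG.Q4.En.Gl
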