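import Pool.Agent.Lib.MP_7f377f_mp.G.ZfR
import Pool.Agent.Lib.MP_7f377f_mp.G.ZgFc

/-! Quantitative bounds for the free correlation functions at points. -/

noncomputable section

namespace Pool.Agent.Lib.MP_7f377f_mp.Zg
variable [Pool.Agent.Lib.MP_7f377f_mp.GD]
set_option linter.unusedSectionVars false

open MvPolynomial Filter Topology Set YM7 Pur Wm Wv Matrix Sw Zf Function
open Ro (Iso)

variable {d D : ℕ} {θ : Iso} {v : R4}

/-- `θ` is the reflection along `v` -/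
def Rf (θ : Iso) (v : R4) : Prop := θ v = -v ∧ ∀ x, inner ℝ x v = 0 → θ x = x

theorem ex_rf (v : R4) : ∃ θ, Rf θ v :=
  ⟨(ℝ ∙ v)ᗮ.reflection, Submodule.reflection_orthogonalComplement_singleton_eq_neg v, fun _ h =>
    Submodule.reflection_mem_subspace_eq_self
      (Submodule.mem_orthogonal_singleton_iff_inner_left.2 h)⟩

theorem rf_rfL (μ : Fin 4) {t : ℝ} (ht : t ≠ 0) : Rf (rfL μ) (t • ee μ) := by
  refine ⟨?_, fun x h => ?_⟩ <;> ext l <;> by_cases e : l = μ <;>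
    simp_all [rfL_eq, rf_ne, ee, EuclideanSpace.inner_single_right, inner_smul_right]

theorem Rf.eq {θ' : Iso} (h : Rf θ v) (h' : Rf θ' v) (hv : v ≠ 0) : θ = θ' := by
  ext1 x
  have e : inner ℝ (x - (inner ℝ x v / ‖v‖ ^ 2) • v) v = 0 := by
    have := norm_ne_zero_iff.2 hv
    rw [inner_sub_left, inner_smul_left, real_inner_self_eq_norm_sq]
    simp [this]
  rw [← sub_add_cancel x ((inner ℝ x v / ‖v‖ ^ 2) • v), map_add, map_add, h.2 _ e, h'.2 _ e, map_smul,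
    map_smul, h.1, h'.1]

theorem mat_th : mat (rfL 0) = diagonal Zf.th := act_ext fun y => by
  rw [act_mat]
  ext l
  refine Fin.cases ?_ (fun k => ?_) l <;> simp [rfL_eq, rf_ne, act, Zf.th, mulVec_diagonal]

theorem fp_rf (h : Rf θ v) (hv : v ≠ 0) : ∃ g : Mat, gᵀ * g = (‖v‖ ^ 2)⁻¹ • 1 ∧ ∀ b c : Lb d ℝ,
    fp ![rh (mat θ) b, c] ![v, 0] = fp ![rh (diagonal Zf.th) (rh g b), rh g c] ![ee 0, 0] := by
  have v0 := norm_ne_zero_iff.2 hv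
  obtain ⟨R, hR⟩ : ∃ R : Iso, R v = ‖v‖ • ee 0 :=
    ⟨_, Submodule.reflection_sub (by simp [norm_smul, ee])⟩
  have e : R * θ * R⁻¹ = rfL 0 := Rf.eq (v := R v) ⟨by simp [h.1], fun x k => by
    simp [h.2 (R.symm x) (by rw [← R.inner_map_map]; simpa using k)]⟩ (hR ▸ rf_rfL 0 v0)
    (by simpa using hv)
  have o : (‖v‖⁻¹ • mat R)ᵀ * (‖v‖⁻¹ • mat R) = (‖v‖ ^ 2)⁻¹ • (1 : Mat) := by
    simp [mat_o, smul_smul, sq]
  refine ⟨_, o, fun b c => ((s_cov _ _ _).2.1 _ _ (by positivity) o).symm.trans ?_⟩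
  congr 1 <;> funext i <;> fin_cases i
  · change rh (‖v‖⁻¹ • mat R) (rh (mat θ) b) = rh _ (rh _ b)
    rw [← rh_mul, ← rh_mul, ← mat_th, ← e, Matrix.smul_mul, Matrix.mul_smul, ← mat_mul, ← mat_mul,
      inv_mul_cancel_right]
  · rfl
  · have : ac (mat R) v = ‖v‖ • ee 0 := (act_mat R v).trans hR
    ext l
    simpa [ac, smul_mulVec, inv_mul_eq_iff_eq_mul₀ v0] using congrArg (· l) this
  · simp [ac]

theorem fis_sc {s : ℝ} (s0 : 0 ≤ s) {c : Lb d ℝ} (h : c ∈ Fd d ℝ D) :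
    min 1 s ^ D * fis c c ≤ fis c (rh (s • 1) c) ∧ fis c (rh (s • 1) c) ≤ max 1 s ^ D * fis c c := by
  have p (j) : 0 ≤ fis c (hc j c) := by
    rw [← if_pos (c := j = j) (t := hc j c) rfl, ← (hc_hm j c).hc_eq j, ← fis_hc]
    exact real_inner_self_nonneg (x := hc j c)
  have e1 : fis c c = ∑ j ∈ Finset.range (D + 1), fis c (hc j c) := by rw [← map_sum, sum_hc h]
  have e2 : fis c (rh (s • 1) c) = ∑ j ∈ Finset.range (D + 1), s ^ j * fis c (hc j c) := by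
    conv_lhs => enter [2]; rw [← sum_hc h]
    simp only [map_sum, fun j => rh_smul (hc_hm j c) s, map_smul, smul_eq_mul]
  rw [e1, e2, Finset.mul_sum, Finset.mul_sum]
  refine ⟨Finset.sum_le_sum fun j e => mul_le_mul_of_nonneg_right ?_ (p j),
    Finset.sum_le_sum fun j e => mul_le_mul_of_nonneg_right ?_ (p j)⟩
  · exact (pow_le_pow_of_le_one (by positivity) (min_le_left _ _)
      (Finset.mem_range_succ_iff.1 e)).trans (pow_le_pow_left₀ (by positivity) (min_le_right _ _) _)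
  · exact (pow_le_pow_left₀ s0 (le_max_right _ _) _).trans
      (pow_le_pow_right₀ (le_max_left _ _) (Finset.mem_range_succ_iff.1 e))

variable {𝒜 : Set (Matrix (Fin d) (Fin d) ℝ)} [o : Og 𝒜]

theorem rv_norm {g : Mat} {s : ℝ} (h : gᵀ * g = s • 1) (s0 : 0 ≤ s) {c : V0 𝒜}
    (hc : c ∈ (fil 𝒜).F D) :
    min 1 s ^ D * ‖c‖ ^ 2 ≤ ‖rv 𝒜 h c‖ ^ 2 ∧ ‖rv 𝒜 h c‖ ^ 2 ≤ max 1 s ^ D * ‖c‖ ^ 2 := by
  have e : ‖rv 𝒜 h c‖ ^ 2 = fis c.1 (rh (s • 1) c.1) := by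
    rw [← h, rh_mul, ← fis_rh]
    exact (real_inner_self_eq_norm_sq _).symm
  rw [e, ← real_inner_self_eq_norm_sq]
  exact fis_sc s0 hc

theorem norm_r0 (R : Iso) (c : V0 𝒜) : ‖r0 𝒜 R c‖ = ‖c‖ := by
  obtain ⟨D, h⟩ := (fil 𝒜).ex c
  have := rv_norm (mat_o R) zero_le_one h
  simp only [min_self, max_self, one_pow, one_mul] at this
  exact (sq_eq_sq₀ (norm_nonneg _) (norm_nonneg _)).1 (this.2.antisymm this.1)

theorem pd_of {V : Type} [NormedAddCommGroup V] [NormedSpace ℝ V] (W : Submodule ℝ V)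
    [FiniteDimensional ℝ W] (B : V →ₗ[ℝ] V →ₗ[ℝ] ℝ) (h : ∀ e ∈ W, e ≠ 0 → 0 < B e e) :
    ∃ m > 0, ∀ e ∈ W, m * ‖e‖ ^ 2 ≤ B e e := by
  have c : Continuous fun e : W => B e e :=
    (B.compl₁₂ W.subtype W.subtype).toContinuousBilinearMap.continuous₂.comp
      (continuous_id.prodMk continuous_id)
  obtain ⟨m, m0, k⟩ := (isCompact_sphere (0 : W) 1).exists_forall_le' c.continuousOn
    fun e he => h e e.2 fun z => by simp [Submodule.coe_eq_zero.1 z] at he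
  refine ⟨m, m0, fun e he => ?_⟩
  by_cases z : e = 0
  · simp [z]
  have n0 := norm_pos_iff.2 z
  have := k (‖e‖⁻¹ • ⟨e, he⟩) (by simp [norm_smul, n0.ne'])
  simp only [Submodule.coe_smul, map_smul, LinearMap.smul_apply, smul_eq_mul] at this
  rw [← le_div_iff₀ (by positivity)]
  exact this.trans_eq (by field_simp)

variable (𝒜) in
/-- the two point form -/
def b2 (y : Fin 2 → R4) : V0 𝒜 →ₗ[ℝ] V0 𝒜 →ₗ[ℝ] ℝ :=
  ((LinearMap.mul ℝ _).compl₁₂ ((rename (Prod.mk 0)).toLinearMap ∘ₗ (V0 𝒜).subtype)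
    ((rename (Prod.mk 1)).toLinearMap ∘ₗ (V0 𝒜).subtype)).compr₂ (Ek y)

theorem b2_eq (y : Fin 2 → R4) (b c : V0 𝒜) : b2 𝒜 y b c = fp ![b.1, c.1] y := by
  simp [b2, fp_eq, Rn]

theorem b2_fp (y : Fin 2 → R4) (b c : V0 𝒜) : b2 𝒜 y b c = fp (fun i => (![b, c] i).1) y := by
  rw [b2_eq]
  congr 1
  funext i
  fin_cases i <;> rfl

theorem b2_sub (x y : R4) (b c : V0 𝒜) : b2 𝒜 ![x, y] b c = b2 𝒜 ![x - y, 0] b c := by
  rw [b2_eq, b2_eq, ← (s_cov _ _ ![x - y, 0]).1 y]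
  congr 1
  funext i
  fin_cases i <;> simp

theorem pd0 {e : V0 𝒜} (z : e ≠ 0) : 0 < fp ![rh (diagonal Zf.th) e.1, e.1] ![ee 0, 0] := by
  refine (fp_rp 0 e.1).1.lt_of_ne fun k =>
    z (v0_null (low_null (v := ee 0) (by simp [ee]) e.2.1 fun b _ => ?_))
  have := (fp_rp (rh (diagonal Zf.th) b) e.1).2
  have o := th_o
  rw [diagonal_transpose] at o
  rw [← k, mul_zero, ← rh_mul, o, one_smul, rh_one] at this
  exact pow_eq_zero_iff two_ne_zero |>.1 (this.antisymm (sq_nonneg _))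

/-- the reflected two point form is positive definite -/
theorem pd (D : ℕ) : ∃ m > 0, ∀ θ v, Rf θ v → v ≠ 0 → ∀ e ∈ (fil 𝒜).F D,
    m * min 1 (‖v‖ ^ 2)⁻¹ ^ D * ‖e‖ ^ 2 ≤ b2 𝒜 ![v, 0] (r0 𝒜 θ e) e := by
  have := (fil 𝒜).fin D
  obtain ⟨m, m0, h⟩ := pd_of ((fil 𝒜).F D) (b2 𝒜 ![ee 0, 0] ∘ₗ rv 𝒜 th_o) fun e _ z => by
    rw [LinearMap.comp_apply, b2_eq]
    exact pd0 z
  refine ⟨m, m0, fun θ v k v0 e he => ?_⟩
  obtain ⟨g, g1, g2⟩ := fp_rf (d := d) k v0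
  have a := h (rv 𝒜 g1 e) (Fd_up (L := (rh g).toLinearMap) (n := 0) (fun _ _ => hm_rh _) he)
  rw [LinearMap.comp_apply, b2_eq] at a
  rw [mul_assoc, b2_eq]
  exact (mul_le_mul_of_nonneg_left (rv_norm g1 (by positivity) he).1 m0.le).trans
    (a.trans_eq (g2 e.1 e.1).symm)

/-- the two point form is not degenerate on invariant subspaces -/
theorem nd (D : ℕ) : ∃ m > 0, ∀ W ≤ (fil 𝒜).F D, (∀ R, MapsTo (r0 𝒜 R) W W) → ∀ x y : R4, x ≠ y →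
    ∀ e ∈ W, ∀ B, 0 ≤ B → (∀ f ∈ W, |b2 𝒜 ![x, y] f e| ≤ B * ‖f‖) →
      m * min 1 (‖x - y‖ ^ 2)⁻¹ ^ D * ‖e‖ ≤ B := by
  obtain ⟨m, m0, h⟩ := pd (𝒜 := 𝒜) D
  refine ⟨m, m0, fun W le hW x y xy e he B B0 k => ?_⟩
  obtain ⟨θ, t⟩ := ex_rf (x - y)
  have := ((h θ _ t (sub_ne_zero.2 xy) e (le he)).trans_eq (b2_sub _ _ _ _).symm).trans
    ((le_abs_self _).trans (k _ (hW θ he)))
  rw [norm_r0, sq ‖e‖, ← mul_assoc] at this
  rcases (norm_nonneg e).eq_or_lt with z | z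
  · rwa [← z, mul_zero]
  · exact le_of_mul_le_mul_right this z

section
variable {ι : Type} [Fintype ι] {δ : ℝ}

theorem pr_bd (δ0 : 0 < δ) (p q : YZ.Var d) : ∃ C, 0 ≤ C ∧ ∀ v : R4, δ ≤ ‖v‖ → |YZ.pr p q v| ≤ C := by
  obtain ⟨C, h⟩ := (isCompact_sphere (0 : R4) δ).exists_bound_of_continuousOn
    ((pr_cont p q).mono fun v hv e => by simp_all)
  refine ⟨|C|, abs_nonneg _, fun v hv => ?_⟩
  have v0 := δ0.trans_le hv
  rw [← pr_hom (t := δ / ‖v‖) (by positivity) p q (norm_pos_iff.1 v0), abs_mul]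
  refine (mul_le_of_le_one_left (abs_nonneg _) ?_).trans ((h _ ?_).trans (le_abs_self _))
  · rw [abs_of_pos (by positivity)]
    exact pow_le_one₀ (by positivity) ((div_le_one v0).2 hv)
  · simp [norm_smul, abs_of_pos δ0, v0.ne']

theorem pr_lip (δ0 : 0 < δ) (p q : YZ.Var d) : ∃ C, 0 ≤ C ∧ ∀ v v' : R4, 3 * δ ≤ ‖v‖ →
    ‖v' - v‖ ≤ 2 * δ → |YZ.pr p q v' - YZ.pr p q v| ≤ C * ‖v' - v‖ := by
  choose C C0 h using fun ν => pr_bd δ0 (up ν p) q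
  refine ⟨∑ ν, C ν, Finset.sum_nonneg fun ν _ => C0 ν, fun v v' h1 h2 => ?_⟩
  have k (u) (hu : u ∈ Metric.closedBall v (2 * δ)) : δ ≤ ‖u‖ := by
    linarith [norm_sub_norm_le v u, norm_sub_rev u v, mem_closedBall_iff_norm.1 hu]
  refine (convex_closedBall v (2 * δ)).norm_image_sub_le_of_norm_hasFDerivWithin_le
    (fun u hu => (pr_hasFDeriv p q (norm_pos_iff.1 (δ0.trans_le (k u hu)))).hasFDerivWithinAt)
    (fun u hu => norm_sum_le_of_le _ fun ν _ => ContinuousLinearMap.opNorm_le_bound _ (C0 ν)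
      fun x => (norm_mul _ _).trans_le (mul_le_mul (h ν u (k u hu)) (PiLp.norm_apply_le x ν)
        (norm_nonneg _) (C0 ν)))
    (Metric.mem_closedBall_self (by positivity)) (mem_closedBall_iff_norm.2 h2)

/-- separated points -/
def Sep (δ : ℝ) (y : ι → R4) : Prop := ∀ i j, i ≠ j → δ ≤ ‖y i - y j‖

theorem fp_bl (δ0 : 0 < δ) (c : ι → Lb d ℝ) : ∃ C, 0 ≤ C ∧ ∀ y y' : {y : ι → R4 // Sep (3 * δ) y},
    |fp c y| ≤ C ∧ (‖y'.1 - y‖ ≤ δ → |fp c y' - fp c y| ≤ C * ‖y'.1 - y‖) := by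
  simp only [fp_eq, Ek]
  refine E_mem (p := fun f : {y : ι → R4 // Sep (3 * δ) y} → ℝ => ∃ C, 0 ≤ C ∧ ∀ y y',
    |f y| ≤ C ∧ (‖y'.1 - y.1‖ ≤ δ → |f y' - f y| ≤ C * ‖y'.1 - y.1‖))
    (fun a => ⟨|a|, abs_nonneg _, fun y y' => ⟨le_rfl, fun _ => by simp; positivity⟩⟩)
    (fun f g ⟨C, C0, h⟩ ⟨E, E0, k⟩ => ⟨C + E, by positivity, fun y y' =>
      ⟨(abs_add_le _ _).trans (add_le_add (h y y).1 (k y y).1), fun e => ?_⟩⟩)
    (fun f g ⟨C, C0, h⟩ ⟨E, E0, k⟩ => ⟨2 * (C * E), by positivity, fun y y' => ⟨?_, fun e => ?_⟩⟩)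
    _ (fun r q => ?_) _
  · rw [add_sub_add_comm, add_mul]
    exact (abs_add_le _ _).trans (add_le_add ((h y y').2 e) ((k y y').2 e))
  · rw [abs_mul]
    nlinarith [mul_le_mul (h y y).1 (k y y).1 (abs_nonneg _) C0, mul_nonneg C0 E0]
  · rw [show f y' * g y' - f y * g y = f y' * (g y' - g y) + (f y' - f y) * g y by ring]
    refine (abs_add_le _ _).trans ?_
    rw [abs_mul, abs_mul]
    linarith [mul_le_mul (h y' y).1 ((k y y').2 e) (abs_nonneg _) C0,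
      mul_le_mul ((h y y').2 e) (k y y).1 (abs_nonneg _) (by positivity)]
  simp only [sy_kr]
  simp only [kr]
  by_cases u : r.1 = q.1
  · exact ⟨0, le_rfl, fun y y' => by simp [u]⟩
  obtain ⟨C, C0, h⟩ := pr_bd δ0 r.2 q.2
  obtain ⟨E, E0, k⟩ := pr_lip δ0 r.2 q.2
  have n (y : {y : ι → R4 // Sep (3 * δ) y}) : y.1 r.1 ≠ y.1 q.1 :=
    sub_ne_zero.1 (norm_pos_iff.1 (by linarith [y.2 _ _ u]))
  refine ⟨C + 2 * E, by positivity, fun y y' => ?_⟩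
  simp only [if_neg (n _), RCLike.ofReal_real_eq_id, id]
  refine ⟨(h _ (by linarith [y.2 _ _ u])).trans (by linarith), fun e => ?_⟩
  have a : ‖y'.1 r.1 - y'.1 q.1 - (y.1 r.1 - y.1 q.1)‖ ≤ 2 * ‖y'.1 - y‖ := by
    rw [sub_sub_sub_comm, two_mul]
    exact norm_sub_le_of_le (norm_le_pi_norm (y'.1 - y.1) _) (norm_le_pi_norm (y'.1 - y.1) _)
  refine (k _ _ (y.2 _ _ u) (by linarith)).trans ?_
  nlinarith [norm_nonneg (y'.1 - y.1)]

theorem ml_bd {V Y : Type} [NormedAddCommGroup V] [NormedSpace ℝ V] (W : Submodule ℝ V)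
    [FiniteDimensional ℝ W] (m : Y → MultilinearMap ℝ (fun _ : ι => V) ℝ) (w : Y → ℝ)
    (w0 : ∀ y, 0 ≤ w y) (h : ∀ c, ∃ C, ∀ y, |m y c| ≤ C * w y) :
    ∃ C, 0 ≤ C ∧ ∀ y c, (∀ i, c i ∈ W) → |m y c| ≤ C * w y * ∏ i, ‖c i‖ := by
  classical
  let b := Module.finBasis ℝ W
  choose C hC using h
  refine ⟨∑ r : ι → _, |C fun i => b (r i)| *
    ∏ i, ‖LinearMap.toContinuousLinearMap (b.coord (r i))‖, by positivity, fun y c hc => ?_⟩
  have e : c = fun i => ∑ j, b.coord j ⟨c i, hc i⟩ • (b j : V) := funext fun i => by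
    simpa only [Submodule.coe_sum, Submodule.coe_smul, Module.Basis.coord_apply] using
      congrArg Subtype.val (b.sum_repr ⟨c i, hc i⟩).symm
  conv_lhs => rw [e]
  rw [MultilinearMap.map_sum, Finset.sum_mul, Finset.sum_mul]
  refine (Finset.abs_sum_le_sum_abs _ _).trans (Finset.sum_le_sum fun r _ => ?_)
  rw [MultilinearMap.map_smul_univ, smul_eq_mul, abs_mul, Finset.abs_prod, mul_comm,
    mul_right_comm _ _ (w y), mul_assoc, ← Finset.prod_mul_distrib]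
  exact mul_le_mul ((hC _ y).trans (mul_le_mul_of_nonneg_right (le_abs_self _) (w0 y)))
    (Finset.prod_le_prod (fun _ _ => abs_nonneg _) fun i _ =>
      (LinearMap.toContinuousLinearMap (b.coord (r i))).le_opNorm ⟨c i, hc i⟩)
    (by positivity) (mul_nonneg (abs_nonneg _) (w0 y))

/-- the free correlation functions are bounded -/
theorem fp_ub (D : ℕ) (δ0 : 0 < δ) : ∃ C, 0 ≤ C ∧ ∀ (c : ι → V0 𝒜) (y : ι → R4),
    (∀ i, c i ∈ (fil 𝒜).F D) → Sep δ y → |fp (fun i => (c i).1) y| ≤ C * ∏ i, ‖c i‖ := by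
  classical
  have := (fil 𝒜).fin D
  obtain ⟨C, C0, h⟩ := ml_bd ((fil 𝒜).F D) (fun y : {y : ι → R4 // Sep (3 * (δ / 3)) y} =>
    (fm y.1).compLinearMap fun _ => (V0 𝒜).subtype) (fun _ => 1) (fun _ => one_pos.le) fun c =>
      (fp_bl (δ := δ / 3) (by positivity) fun i => (c i).1).imp fun C e y => by
        simpa [fm_apply] using (e.2 y y).1
  exact ⟨C, C0, fun c y hc hy => by
    simpa [fm_apply] using h ⟨y, by rwa [mul_div_cancel₀ _ three_ne_zero]⟩ c hc⟩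

/-- the free correlation functions are Lipschitz -/
theorem fp_lip (D : ℕ) (δ0 : 0 < δ) : ∃ C, 0 ≤ C ∧ ∀ (c : ι → V0 𝒜) (y y' : ι → R4),
    (∀ i, c i ∈ (fil 𝒜).F D) → Sep (3 * δ) y → Sep (3 * δ) y' → ‖y' - y‖ ≤ δ →
      |fp (fun i => (c i).1) y' - fp (fun i => (c i).1) y| ≤ C * ‖y' - y‖ * ∏ i, ‖c i‖ := by
  classical
  have := (fil 𝒜).fin D
  obtain ⟨C, C0, h⟩ := ml_bd ((fil 𝒜).F D) (fun y : {y : (ι → R4) × (ι → R4) //
    Sep (3 * δ) y.1 ∧ Sep (3 * δ) y.2 ∧ ‖y.2 - y.1‖ ≤ δ} =>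
    (fm (K := ℝ) y.1.2 - fm y.1.1 :).compLinearMap fun _ => (V0 𝒜).subtype) (fun y => ‖y.1.2 - y.1.1‖)
    (fun _ => norm_nonneg _) fun c => (fp_bl δ0 fun i => (c i).1).imp fun C e y => by
      simpa [fm_apply] using (e.2 ⟨_, y.2.1⟩ ⟨_, y.2.2.1⟩).2 y.2.2.2
  exact ⟨C, C0, fun c y y' hc h1 h2 h3 => by
    simpa [fm_apply] using h ⟨(y, y'), h1, h2, h3⟩ c hc⟩

end

end Pool.Agent.Lib.MP_7f377f_mp.Zg
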