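import Pool.Agent.Lib.MP_7f377f_mp.G.KzB1
import Pool.Agent.Lib.MP_7f377f_mp.G.ZhR

/-! Charts are bijective and almost covariant. -/

noncomputable section

set_option linter.unusedSectionVars false
variable [Pool.Agent.Lib.MP_7f377f_mp.GD]

namespace Pool.Agent.Lib.MP_7f377f_mp.Kz

open MeasureTheory Filter Set YM7 L6 RG RG.Tl RG.Q4 RG.Q4.En Wy
open RG.Wd (B4 gv)
open Wu (Z4)
open Zg (V0 Og r0 fil)

variable {𝒜 : Set CM} [Og 𝒜] {ι : Type} [Fintype ι] [MeasurableSpace SU2] [BorelSpace SU2]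
  {h : Measure SU2} [h.IsHaarMeasure] [IsProbabilityMeasure h] {b : ℝ} {n : ℕ} [NeZero n]

instance (d : ℕ) : FiniteDimensional ℝ (Vp 𝒜 d) :=
  have := (fil 𝒜).fin d
  Submodule.finiteDimensional_inf_left _ _

theorem vp_mono {d D : ℕ} (e : d ≤ D) : Vp 𝒜 d ≤ Vp 𝒜 D := inf_le_inf_right _ ((fil 𝒜).mono e)

theorem rv_π {g s} (o : Matrix.transpose g * g = s • 1) (d : ℕ) (c : V0 𝒜) :
    Zg.rv 𝒜 o ((fil 𝒜).π d c) = (fil 𝒜).π d (Zg.rv 𝒜 o c) := Subtype.ext (Zf.hc_rh _ _ _)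

theorem rv_vp {g s} (o : Matrix.transpose g * g = s • 1) (d : ℕ) :
    MapsTo (Zg.rv 𝒜 o) (Vp 𝒜 d) (Vp 𝒜 d) := fun c e =>
  ⟨up_of_comm (rv_π o) e.1, (rv_π o 0 c).symm.trans ((congrArg _ e.2).trans (map_zero _))⟩

theorem r0_vp (R : Ro.Iso) (d : ℕ) : MapsTo (r0 𝒜 R) (Vp 𝒜 d) (Vp 𝒜 d) := rv_vp (Zg.mat_o R) d

theorem rB_vp (g : B4) (d : ℕ) : MapsTo (rB 𝒜 g) (Vp 𝒜 d) (Vp 𝒜 d) := r0_vp _ d

theorem rB_norm (g : B4) (c : V0 𝒜) : ‖rB 𝒜 g c‖ = ‖c‖ := Zg.norm_r0 _ c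

theorem rB_rB (g g' : B4) (c : V0 𝒜) : rB 𝒜 g (rB 𝒜 g' c) = rB 𝒜 (g * g') c := by
  rw [map_mul, Module.End.mul_apply]

variable {R₀ R₁ : ℝ} {x y : Z4} {r : ℕ}

theorem Ds.gv (e : Ds R₀ R₁ x y) (g : B4) : Ds R₀ R₁ (gv g x) (gv g y) := by
  have a (u : Z4) (d : Wd.Dr) : |((Wd.cd u d : ℤ) : ℝ)| = |(u d.1 : ℝ)| := by
    unfold Wd.cd
    split_ifs <;> simp
  simp only [Ds, ← Int.cast_sub, ← Pi.sub_apply, ← Wd.gv_sub] at e ⊢
  refine ⟨e.1.elim fun l k => ⟨(g.1 (l, true)).1, ?_⟩, fun l => (a _ _).trans_le (e.2 _)⟩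
  rwa [← a, Wd.cd_gv', a]

theorem Ds.symm (e : Ds R₀ R₁ x y) : Ds R₀ R₁ y x := by
  simpa only [Ds, abs_sub_comm] using e

theorem Ds.smul (e : Ds R₀ R₁ x y) (r : ℕ) : Ds (R₀ * r) (R₁ * r) ((r : ℤ) • x) ((r : ℤ) • y) := by
  simp only [Ds, Pi.smul_apply, smul_eq_mul, Int.cast_mul, Int.cast_natCast, ← sub_mul, abs_mul,
    Nat.abs_cast, mul_comm (r : ℝ)]
  exact ⟨e.1.imp fun l k => by gcongr, fun l => by have := e.2 l; gcongr⟩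

theorem Ds.norm (e : Ds R₀ R₁ x y) : R₀ ≤ ‖pz 1 x - pz 1 y‖ :=
  e.1.elim fun l k => k.trans (by simpa [pz] using PiLp.norm_apply_le (pz 1 x - pz 1 y) l)

theorem ex_ds {P : ℝ} (r0 : 0 < r) (P1 : 1 ≤ P) (x : Z4) :
    ∃ z : Z4, Ds (P * r) (2 * P * r) x ((r : ℤ) • z) := by
  have r1 : (0 : ℝ) < r := by exact_mod_cast r0
  have k (l) : P * r ≤ |(x l - ((r : ℤ) • fun l => ⌈(x l + P * r) / r⌉ : Z4) l : ℝ)| ∧
      |(x l - ((r : ℤ) • fun l => ⌈(x l + P * r) / r⌉ : Z4) l : ℝ)| ≤ 2 * P * r := by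
    have a := (div_le_iff₀ r1).1 (Int.le_ceil ((x l + P * r) / r))
    have c := (lt_div_iff₀ r1).1 (sub_lt_iff_lt_add.2 (Int.ceil_lt_add_one ((x l + P * r) / r)))
    simp only [Pi.smul_apply, smul_eq_mul, Int.cast_mul, Int.cast_natCast]
    rw [abs_sub_comm, abs_of_nonneg (by nlinarith)]
    constructor <;> nlinarith
  exact ⟨_, ⟨0, (k 0).1⟩, fun l => (k l).2⟩

theorem fq_smul (r0 : 0 < r) (e : ι → V0 𝒜) (z : ι → Z4) :
    fq r e (fun a => (r : ℤ) • z a) = fq 1 e z := by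
  unfold fq
  congr 1
  funext a
  ext l
  simp [pz, r0.ne']

theorem fq_two (u : ℝ) (e : Fin 2 → V0 𝒜) (z : Fin 2 → Z4) :
    fq u e z = Zg.b2 𝒜 (fun a => pz u⁻¹ (z a)) (e 0) (e 1) := by
  rw [Zg.b2_fp, show ![e 0, e 1] = e from (funext fun a => by fin_cases a <;> rfl), fq]

theorem per_fin {α : Type} {N : Z4 → α} (r0 : 0 < r) (e : ∀ x v : Z4, N (x + (r : ℤ) • v) = N x) :
    (range N).Finite :=
  ((Set.Finite.pi' fun _ => finite_Ico (0 : ℤ) r).image N).subset (by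
    rintro _ ⟨x, rfl⟩
    refine ⟨fun l => x l % r, fun l => ⟨Int.emod_nonneg _ (by omega), Int.emod_lt_of_pos _
      (by omega)⟩, (e _ fun l => x l / r).symm.trans (congrArg N (funext fun l => ?_))⟩
    exact Int.emod_add_mul_ediv _ _)

section
variable {V : Type} [NormedAddCommGroup V] [NormedSpace ℝ V] {W : Submodule ℝ V}
  [FiniteDimensional ℝ W] {κ : Type} {N M T : κ → V →ₗ[ℝ] V} {C δ : ℝ}

/-- the bootstrap for a family with finitely many values -/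
theorem boot_fin (f1 : (range N).Finite) (f2 : (range M).Finite)
    (b : ∀ g, BijOn (N g) W W) (m : ∀ g, MapsTo (M g) W W) (C0 : 0 ≤ C)
    (hT : ∀ g, ∀ e ∈ W, ‖T g e‖ ≤ C * ‖e‖) (δ1 : δ ≤ 1 / 2)
    (H : ∀ B, 0 ≤ B → (∀ g, Nr W (N g) (M g) 0 B) → ∀ g, Nr W (N g) (M g) (T g) (δ * (1 + B))) (g) :
    Nr W (N g) (M g) (T g) (δ * (2 * C + 3)) := by
  choose! B hB using fun (t : (V →ₗ[ℝ] V) × (V →ₗ[ℝ] V)) (u : BijOn t.1 W W ∧ MapsTo t.2 W W) =>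
    ex_nr u.1 u.2
  obtain ⟨K, hK⟩ := ((f1.prod f2).image B).bddAbove
  have := boot1 (P := fun B => ∀ g, Nr W (N g) (M g) 0 B) C0 (fun _ _ u h g => (h g).mono u)
    ⟨K, fun g => (hB (N g, M g) ⟨b g, m g⟩).2.mono (hK ⟨_, ⟨⟨g, rfl⟩, g, rfl⟩, rfl⟩)⟩
    fun B B0 h g => ((H B B0 h g).bd (hT g)).mono (by nlinarith)
  exact (H _ (by positivity) this g).mono (by linarith)

end

namespace Cz

variable {D m : ℕ} {M R P ε : ℝ} {Γ : Set Z4} {N : Z4 → V0 𝒜 →ₗ[ℝ] V0 𝒜}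
  {Hs : Z4 → V0 𝒜 → ℝ → Prop} {Pr : Type}
  {pa : B4 → Pr → Pr} {S : Set Pr} {cp sg : Z4 → Pr → Z4 → V0 𝒜 →ₗ[ℝ] ℝ}
  (H : Cz h b n D m r M R P ε Γ N Hs pa S cp sg)
include H

theorem bij (u : M * ε < 1) (hx : x ∈ Γ) {d} (hd : d ≤ D) : BijOn (N x) (Vp 𝒜 d) (Vp 𝒜 d) := by
  refine bij_of_inj (H.fil x hx d hd) fun c hc c' hc' e => sub_eq_zero.1 ?_
  have a := vp_mono hd (Submodule.sub_mem _ hc hc')
  have e0 : N x (c - c') = 0 := by rw [map_sub, e, sub_self]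
  obtain ⟨z, hz⟩ := ex_ds H.r0 H.P1 x
  have := H.p3 x hx z hz _ a _ (mul_nonneg H.e0 (norm_nonneg (c - c'))) fun q hq => by
    simpa only [e0, map_zero, zero_sub, abs_neg, add_zero] using
      H.p1 x hx q hq z hz _ a 0 le_rfl fun g => by
        simpa [e0] using H.h1 _ (H.gg g x hx) 0 (Submodule.zero_mem _)
  exact norm_le_zero_iff.1 (by nlinarith [norm_nonneg (c - c')])

theorem hs {B : ℝ} (k : ∀ g, Nr (Vp 𝒜 D) (N (gv g x)) (rB 𝒜 g ∘ₗ N x) 0 B) (hx : x ∈ Γ) {e}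
    (he : e ∈ Vp 𝒜 D) (g : B4) : Hs (gv g x) (rB 𝒜 g (N x e)) (M * B * ‖e‖) := by
  obtain ⟨e', h1, h2, h3⟩ := k g e he
  refine H.h3 _ _ _ _ ((show N _ e' = rB 𝒜 g (N x e) from h2) ▸ H.h1 _ (H.gg g x hx) e' h1) ?_
  rw [mul_assoc]
  exact mul_le_mul_of_nonneg_left (by simpa using h3) (by linarith [H.M1])

theorem cov (u : 6 * M ^ 2 * ε ≤ 1) (g : B4) (hx : x ∈ Γ) :
    Nr (Vp 𝒜 D) (N (gv g x)) (rB 𝒜 g ∘ₗ N x) (rB 𝒜 g) (15 * M ^ 2 * ε) := by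
  have M1 := H.M1
  have e0 := H.e0
  have u1 : M * ε < 1 := by nlinarith [mul_nonneg e0 (mul_nonneg (by linarith : 0 ≤ M) (sub_nonneg.2 M1))]
  have f := per_fin H.r0 H.per
  refine (boot_fin (κ := B4 × Γ) (N := fun t => N (gv t.1 t.2)) (M := fun t => rB 𝒜 t.1 ∘ₗ N t.2)
    (T := fun t => rB 𝒜 t.1) (δ := 3 * M ^ 2 * ε) (f.subset (range_subset_iff.2 fun _ => ⟨_, rfl⟩))
    (((finite_range (rB 𝒜)).image2 (· ∘ₗ ·) f).subset
      (range_subset_iff.2 fun _ => ⟨_, ⟨_, rfl⟩, _, ⟨_, rfl⟩, rfl⟩))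
    (fun t => H.bij u1 (H.gg _ _ t.2.2) le_rfl)
    (fun t => (rB_vp _ _).comp (H.fil _ t.2.2 D le_rfl)) zero_le_one
    (fun t e _ => by rw [rB_norm, one_mul]) (by linarith) (fun B B0 k ⟨g, x, hx⟩ => ?_)
    (g, ⟨x, hx⟩)).mono (by linarith)
  have gx := H.gg g x hx
  refine fun e he => (k (g, ⟨x, hx⟩) e he).imp fun e' ⟨h1, h2, h3⟩ => ⟨h1, h2, ?_⟩
  replace h2 : N (gv g x) e' = rB 𝒜 g (N x e) := h2
  obtain ⟨z, hz⟩ := ex_ds H.r0 H.P1 (gv g x)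
  have hz' := hz.gv g⁻¹
  rw [Wd.gv_inv, Wd.gv_smul] at hz'
  have s := H.hs (fun g => k (g, ⟨x, hx⟩)) hx he
  have n0 := norm_nonneg e
  refine (H.p3 _ gx z hz _ (Submodule.sub_mem _ h1 (rB_vp g D he)) (3 * M * ε * (1 + B) * ‖e‖)
    (by positivity) fun q hq => ?_).trans_eq (by ring)
  have a1 := H.p1 _ gx q hq z hz e' h1 (M * B * ‖e‖) (by positivity) fun g' => by
    rw [h2, rB_rB, ← Wd.gv_mul]
    exact s _
  have a2 := H.p1 x hx _ (H.ps g⁻¹ q hq) _ hz' e he _ (by positivity) s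
  have a3 := H.p2 g⁻¹ _ gx q hq z hz _ (rB_vp g D he)
  have a4 := H.pv g⁻¹ (gv g x) q z _ (rB_vp g D (H.fil x hx D le_rfl he))
  simp only [rB_rB, inv_mul_cancel, map_one, Module.End.one_apply, Wd.gv_inv, rB_norm] at a3 a4
  simp only [LinearMap.zero_apply, sub_zero] at h3
  rw [h2, ← a4] at a1
  rw [map_sub, abs_le] at *
  have b1 := mul_le_mul_of_nonneg_left h3 e0
  have b2 := mul_nonneg (mul_nonneg e0 n0) (sub_nonneg.2 M1)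
  have b3 := mul_nonneg b2 B0
  have b4 := mul_nonneg e0 n0
  constructor <;> linarith [a1.1, a1.2, a2.1, a2.2, a3.1, a3.2]

theorem out (u : 15 * M ^ 2 * ε ≤ 1) {k} (hk : k ≤ m) (x : Fin k → Z4) (e : Fin k → V0 𝒜)
    (h1 : ∀ a, x a ∈ Γ ∧ e a ∈ Vp 𝒜 D) (h2 : ∀ a a', a ≠ a' → Ds (M * r) (R * r) (x a) (x a')) :
    |cm h b n (fun a => N (x a) (e a)) x - fq r e x| ≤ 3 ^ m * M ^ m * ε * ∏ a, ‖e a‖ := by
  have M1 := H.M1
  have e0 := H.e0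
  have u0 : 0 ≤ M ^ 2 * ε := by positivity
  refine (H.oa k hk x e (fun a => M * 2 * ‖e a‖) (fun a => ⟨(h1 a).1, (h1 a).2, by positivity,
    H.hs (fun g => ((H.cov (by linarith) g (h1 a).1).bd (C := 1) fun e _ => by
      rw [rB_norm, one_mul]).mono (by linarith)) (h1 a).1 (h1 a).2⟩) h2).trans ?_
  rw [← mul_pow, mul_comm _ ε, mul_assoc]
  refine mul_le_mul_of_nonneg_left ((Finset.prod_le_prod (g := fun a => 3 * M * ‖e a‖)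
    (fun _ _ => by positivity) fun a _ => by nlinarith [norm_nonneg (e a)]).trans ?_) e0
  rw [Finset.prod_mul_distrib, Fin.prod_const]
  exact mul_le_mul_of_nonneg_right (pow_le_pow_right₀ (by linarith) hk) (by positivity)

end Cz

variable (𝒜 h) in
theorem Cz.eq (D m : ℕ) : ∃ K ≥ (1 : ℝ), ∀ {b : ℝ} {n : ℕ} [NeZero n] {r M R P ε Γ N Hs Pr}
    {pa : B4 → Pr → Pr} {S cp sg},
    Cz (𝒜 := 𝒜) h b n D m r M R P ε Γ N Hs pa S cp sg → K * M ^ 2 * ε ≤ 1 →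
    (∀ x ∈ Γ, ∀ d ≤ D, BijOn (N x) (Vp 𝒜 d) (Vp 𝒜 d)) ∧
    (∀ g, ∀ x ∈ Γ, Nr (Vp 𝒜 D) (N (gv g x)) (rB 𝒜 g ∘ₗ N x) (rB 𝒜 g) (K * M ^ 2 * ε)) ∧
    (∀ k ≤ m, ∀ (x : Fin k → Z4) (e : Fin k → V0 𝒜), (∀ a, x a ∈ Γ ∧ e a ∈ Vp 𝒜 D) →
      (∀ a a', a ≠ a' → Ds (M * r) (R * r) (x a) (x a')) →
      |cm h b n (fun a => N (x a) (e a)) x - fq r e x| ≤ K * M ^ m * ε * ∏ a, ‖e a‖) ∧
    Nr (Vp 𝒜 D) (N 0) (av (rB 𝒜) (N 0)) .id (K * M ^ 2 * ε) ∧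
    Ce h b n D r M R (K * M ^ m * ε) (av (rB 𝒜) (N 0)) := by
  obtain ⟨C, C0, hC⟩ := Zg.fp_ub (𝒜 := 𝒜) (ι := Fin 2) D one_pos
  have t : (1 : ℝ) ≤ 3 ^ m := one_le_pow₀ (by norm_num)
  refine ⟨30 + 4 * 3 ^ m + 45 * C, by linarith, fun {b n _ r M R P ε Γ N Hs Pr pa S cp sg} H u => ?_⟩
  have M1 := H.M1
  have e0 := H.e0
  have u0 : 0 ≤ M ^ 2 * ε := by positivity
  have u1 : 30 * M ^ 2 * ε ≤ 1 := by nlinarith
  have u2 : 15 * M ^ 2 * ε ≤ (30 + 4 * 3 ^ m + 45 * C) * M ^ 2 * ε := by nlinarith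
  have u3 : M ^ 2 * ε ≤ M ^ m * ε := mul_le_mul_of_nonneg_right (pow_le_pow_right₀ M1 H.m2) e0
  have u4 : M * ε < 1 := by
    nlinarith [mul_nonneg e0 (mul_nonneg (by linarith : 0 ≤ M) (sub_nonneg.2 M1))]
  have a := nr_av (C := 1) (fun g => rB_vp g D) (fun g e _ => by rw [rB_norm, one_mul])
    (by positivity) fun g => Wd.gv_zero (R := ℤ) g ▸ H.cov (by linarith) g H.g0
  rw [mul_one] at a
  refine ⟨fun x hx d => H.bij u4 hx, fun g x hx => (H.cov (by linarith) g hx).mono u2,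
    fun k hk x e h1 h2 => (H.out (by linarith) hk x e h1 h2).trans ?_, a.mono u2, H.r0,
    by positivity, fun d hd => bij_of_inj (av_maps (fun g => rB_vp g d) (H.fil 0 H.g0 d hd))
      ((a.symm (H.bij u4 H.g0 le_rfl) (by positivity) (by linarith)).1.2.1.mono (vp_mono hd)),
    av_comm, fun z e he hz => ?_⟩
  · gcongr
    linarith
  choose e' h1 h2 h3 using fun i => a _ (he i)
  have h4 (i) : ‖e' i‖ ≤ 2 * ‖e i‖ := by
    nlinarith [norm_sub_norm_le (e' i) (e i), show ‖e' i - e i‖ ≤ _ from h3 i, norm_nonneg (e i)]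
  have p (i) : N ((r : ℤ) • z i) = N 0 := by rw [← H.per 0 (z i), zero_add]
  have c1 := H.out (by linarith) H.m2 (fun i => (r : ℤ) • z i) e'
    (fun i => ⟨by simpa using H.gp 0 H.g0 (z i), h1 i⟩) fun i j v => by
      fin_cases i <;> fin_cases j
      exacts [(v rfl).elim, hz.smul r, hz.symm.smul r, (v rfl).elim]
  have s : Zg.Sep 1 fun i => pz 1⁻¹ (z i) := fun i j v => by
    rw [inv_one]
    fin_cases i <;> fin_cases j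
    exacts [(v rfl).elim, M1.trans hz.norm, M1.trans hz.symm.norm, (v rfl).elim]
  have c2 (c c') (v : c ∈ Vp 𝒜 D) (v' : c' ∈ Vp 𝒜 D) :
      |Zg.b2 𝒜 (fun i => pz 1⁻¹ (z i)) c c'| ≤ C * (‖c‖ * ‖c'‖) := by
    simpa only [Zg.b2_fp, Fin.prod_univ_two, Matrix.cons_val_zero, Matrix.cons_val_one] using
      hC ![c, c'] _ (Fin.forall_fin_two.2 ⟨v.1, v'.1⟩) s
  have c3 := c2 _ _ (Submodule.sub_mem _ (h1 0) (he 0)) (h1 1)
  have c4 := c2 _ _ (he 0) (Submodule.sub_mem _ (h1 1) (he 1))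
  simp only [p, h2, fq_smul H.r0, fq_two, Fin.prod_univ_two, map_sub, LinearMap.sub_apply,
    LinearMap.id_apply] at c1 c3 c4 h3 ⊢
  have n0 := norm_nonneg (e 0)
  have n1 := norm_nonneg (e 1)
  have d1 := mul_le_mul_of_nonneg_left (mul_le_mul (h4 0) (h4 1) (norm_nonneg _) (by positivity))
    (show 0 ≤ 3 ^ m * M ^ m * ε by positivity)
  have d3 := mul_le_mul_of_nonneg_left (mul_le_mul (h3 0) (h4 1) (norm_nonneg _) (by positivity)) C0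
  have d4 := mul_le_mul_of_nonneg_left (mul_le_mul_of_nonneg_left (h3 1) n0) C0
  have d5 := mul_le_mul_of_nonneg_left u3 (show 0 ≤ C * (‖e 0‖ * ‖e 1‖) by positivity)
  have d6 : 0 ≤ M ^ m * ε * (‖e 0‖ * ‖e 1‖) := by positivity
  rw [abs_le] at *
  constructor <;> linarith [c1.1, c1.2, c3.1, c3.2, c4.1, c4.2]

end Pool.Agent.Lib.MP_7f377f_mp.Kz
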