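import Pool.Agent.Lib.MP_7f377f_mp.G.KzH0
import Pool.Agent.Lib.MP_7f377f_mp.G.KzX
import Pool.Agent.Lib.MP_7f377f_mp.G.KsA

/-! The sign of the charts. -/

noncomputable section

set_option linter.unusedSectionVars false
variable [Pool.Agent.Lib.MP_7f377f_mp.GD]

namespace Pool.Agent.Lib.MP_7f377f_mp.RG.Q4.En.Gl

open MeasureTheory Filter Topology Set YM7 L6 RG.Tl Wy Kz
open RG.Wd (B4 gv)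
open Wu (Z4)
open Zg (V0 Og r0 fil)

variable (G : Gl) (𝒜 : Set CM) [Og 𝒜] (β : ℕ × ℕ → ℝ)

/-- the letter of the label `c` at the origin has a positive symbol at the level `i` -/
def Po (s C : ℕ) (b : ℝ) (J i : ℕ) (κ : ℝ) (c : V0 𝒜) : Prop :=
  Pv Jt.wt κ (G.ys Jt.wt 4 (s + 1) C (G.tk 0 J) b J 0 (G.sek s b J) (Tl.lq (lE 𝒜 c)) i)

/-- a chart at the level `k` with the property `Q` at the origin -/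
def Cu (s C m c N W c₁ k : ℕ) (p : ℕ × ℕ) (Q : (V0 𝒜 →ₗ[ℝ] V0 𝒜) → Prop) : Prop :=
  ∃ (M : Z4 → V0 𝒜 →ₗ[ℝ] V0 𝒜) (Hs : _) (Pr : Type) (pa : B4 → Pr → Pr)
    (S : _) (cp sg : _) (P : ℝ), Kz.Cz (Fi.tr haar) (β p) (G.nn p) s m (G.rt p.2 k) (G.L k ^ c)
      (G.L k ^ W) P (G.L k ^ N)⁻¹ (G.Gs p.2 k) M Hs pa S cp sg ∧ (∀ x ∈ G.Gs p.2 k, ∀ d ≤ s,
        ∀ e ∈ Vp 𝒜 d, (G.wm p.1).Os 𝒜 s C d (β p) p.2 k x (M x e) (G.L k ^ c₁ * ‖e‖)) ∧ Q (M 0)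

/-- charts for all runs which are longer than the short run -/
def ChartsP : Prop := ∀ s ≥ (2 : ℕ), ∀ᶠ C in atTop, ∀ m ≥ 2, ∃ C' ≥ 3, ∃ c : ℕ, ∀ N W : ℕ,
  ∃ c₁ w : ℕ, ∀ᶠ k in atTop, ∀ J', (∃ J ≤ J', G.Sh C' k J) → ∀ᶠ v in (hyperfilter ℕ : Filter ℕ),
    G.Cu 𝒜 β s C m c N W c₁ k (3 ^ v / 2, J') fun M => 4 ≤ s → ∀ e ∈ Vp 𝒜 4,
      ‖e - Zg.l0 𝒜‖ ≤ 2 / G.L k →
        (G.wm (3 ^ v / 2)).Po 𝒜 s C (β (3 ^ v / 2, J')) J' (k + w) (√(G.L k))⁻¹ (M e)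

end Pool.Agent.Lib.MP_7f377f_mp.RG.Q4.En.Gl
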