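import Pool.Agent.Lib.MP_7f377f_mp.G.KzK1
import Pool.Agent.Lib.MP_7f377f_mp.G.KyP
import Pool.Agent.Lib.MP_7f377f_mp.G.KsG

/-! Positive symbols of matched letters. -/

noncomputable section

set_option linter.unusedSectionVars false
variable [Pool.Agent.Lib.MP_7f377f_mp.GD]

namespace Pool.Agent.Lib.MP_7f377f_mp.RG.Q4.En

open Finset Real Cok Tl Ju
open Zg (V0 Og)
open scoped Classical

namespace Gl

variable {α β : Type} [Fintype α] [DecidableEq α] [Fintype β] [DecidableEq β] {G : Gl}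
  {A n D C J J' i k R : ℕ} {τ M b b' δ K κ ε : ℝ} {w : α → ℕ} {z : St}
  {p p' : ℕ → (α → ℝ) →ₗ[ℝ] V} {m : β → ℕ} {X : β → Lq} {Y : Lq} {t : β → ℂ}

/-- the letter which is matched with a positive letter is positive -/
theorem Fh.pv (E : G.Fh A n τ w 4 D C M z b b' J J' i k p p' R δ K m X) (hw : ∀ a, 2 ≤ w a)
    (e : G.Eh w 4 D C (G.tk z J') b b' J J' i k p Y (G.fl D C J' m X t)) (k0 : 0 ≤ κ) (k1 : κ ≤ 1)
    (h : Pv w κ (G.ys w 4 D C (G.tk z J') b J k p Y k))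
    (h1 : ∀ o, k ≤ o → o < i → 8 * (2 * M + 6) * G.Yr 4 C o ^ 3 * G.Pw 4 C k i ≤ κ * G.L o)
    (ε0 : 0 ≤ ε) (h2 : 4 * ε * (M + 1) * G.Zu 4 C i * G.Pw 4 C k i ≤ κ)
    (h3 : ∀ φ N, Tbw (G.lR i) (60 * (G.p i).ρ) (G.lH D i) N φ →
      ‖sgS w 4 (G.ka D C i • p i) φ - sgS w 4 (G.ka D C i • p' i) φ‖ ≤ ε * N) :
    Pv w (κ / G.Pw 4 C k i / 4) (G.ys w 4 D C (G.tk z J') b' J' k p' (G.fl D C J' m X t) i) := by
  obtain ⟨_, _, _, _, F⟩ := E.F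
  obtain ⟨_, _, _, _, F'⟩ := E.F'
  obtain ⟨s, H, q⟩ := E.fm F
  have x := E.xh
  have o := x.ok
  have i1 := x.hb.le.trans x.le
  have a := Fx.pv_up hw ⟨F.T, x.hb.le, H⟩ t le_rfl x.lt.le le_rfl k0 h1 (by rwa [q, e])
  rw [q, hS, Cok.fw_top] at a
  have P1 := o.Pw1 4 C k i
  have x1 := o.Xr1 C i
  have Z1 : G.Ga 4 C i ≤ G.Zu 4 C i := pow_le_pow_right₀ x1 (by omega)
  have G0 : 0 ≤ G.Ga 4 C i := by unfold Ga; positivity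
  have c := F'.cone t x.lt.le i1
  have b1 := (o.jP_chg (F.T.pt.s.s1 i) (F'.T.pt.s.s1 i) G0 G0 ε0 (fun φ K a => by
    rw [js, js, if_pos ⟨x.lt.le, x.hb.le⟩, if_pos ⟨x.lt.le, i1⟩]; exact h3 φ K a) c le_rfl).2
  have h4 : 4 * ε * (M + 1) * G.Zu 4 C i ≤ κ / G.Pw 4 C k i := (le_div_iff₀ (by linarith)).2 h2
  have h5 := h4.trans ((div_le_self k0 P1).trans k1)
  have M1 := F'.T.M1
  refine a.pert hw (by positivity) (F'.T.co.mem _ _ _ c) (ε := 2 * ε * (M + 1) * G.Zu 4 C i) ?_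
    (by linarith) (by linarith)
  change ‖G.zq w 4 D C J k p i _ - G.ys w 4 D C _ b' J' k p' _ i‖ ≤
    ε * (_ + _ * ‖G.ys w 4 D C _ b' J' k p' _ i‖) at b1
  have b2 := norm_le_insert (G.zq w 4 D C J k p i (G.ls D (G.tk z J') b' J' (G.fl D C J' m X t) i))
    (G.ys w 4 D C (G.tk z J') b' J' k p' (G.fl D C J' m X t) i)
  rw [norm_sub_rev]
  have n0 := norm_nonneg (G.ys w 4 D C (G.tk z J') b' J' k p' (G.fl D C J' m X t) i)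
  have b3 := b1.trans (show _ ≤ ε * (M + 1) * G.Zu 4 C i *
      ‖G.ys w 4 D C (G.tk z J') b' J' k p' (G.fl D C J' m X t) i‖ by
    nlinarith [mul_le_mul_of_nonneg_left (mul_le_mul_of_nonneg_right Z1 n0) ε0])
  have : 0 ≤ ε * (M + 1) * G.Zu 4 C i := by have := G0.trans Z1; positivity
  nlinarith [mul_le_mul_of_nonneg_right h5 n0]

theorem Fh.sum {d : ℕ} (E : G.Fh A n τ w d D C M z b b' J J' i k p p' R δ K m X) {ι : Type}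
    {Y : ι → Lq} {K' : ι → ℝ} {t : ι → β → ℂ} {a : ι → ℂ} (l : ∀ q, Lt1 R δ (K' q) (Y q))
    (e : ∀ q, a q ≠ 0 → G.Eh w d D C (G.tk z J') b b' J J' i k p (Y q) (G.fl D C J' m X (t q)))
    (S : Finset ι) : G.Eh w d D C (G.tk z J') b b' J J' i k p (∑ q ∈ S, a q • Y q)
      (G.fl D C J' m X (∑ q ∈ S, a q • t q)) := by
  induction S using Finset.cons_induction with
  | empty =>
    obtain ⟨t, u⟩ := E.ex (.zero R δ)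
    simpa using E.lin (.zero R δ) (.zero R δ) (-1) u u
  | cons q S _ ih =>
    rw [sum_cons, sum_cons, add_comm, add_comm (a q • t q)]
    by_cases u : a q = 0
    · simpa [u] using ih
    · exact E.lin (.sum S fun q => (l q).smul _) (l q) _ ih (e q u)

theorem fz4 {𝒜 : Set CM} [Og 𝒜] {s d : ℕ} (h : d ≤ 4) (t : Tl.Bd 𝒜 d → ℝ) :
    G.fz s C J t = Tl.lq (lE 𝒜 (G.lb s C J t)) := by
  have : IsEmpty (Nd d) := ⟨fun b => (nd4 b).not_ge (b.2.trans h)⟩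
  simp [fz, fl, lX, lb, Fintype.linearCombination_apply, Bd.P, ← Complex.coe_smul, smul_smul,
    div_eq_mul_inv]

end Gl

variable {𝒜 : Set CM} [Og 𝒜] [Adj 𝒜] {P : Kd} [∀ J, NeZero (P.G.N J)] {e : V0 𝒜} {κ : ℝ}

theorem vb4 (q : Vb 𝒜) : 4 ≤ q.m := not_lt.1 fun h => vb_li.ne_zero q <| by
  have u := bV_ap (d := q.m) ⟨q, le_rfl⟩ ▸ (bV 𝒜 q.m ⟨q, le_rfl⟩).2
  obtain ⟨a, v⟩ := Zg.cl3 ((Zg.fil 𝒜).mono (Nat.le_of_lt_succ h) u.1)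
  have z : (Zg.fil 𝒜).π 0 q.c = 0 := u.2
  rw [v] at z ⊢
  simpa [pi_zero, Zg.u0] using z

/-- the sign of the matched label -/
theorem Kd.Ok.po (H : P.Ok 𝒜) (s4 : 4 ≤ P.s) (he : e ∈ Vp 𝒜 4) (k0 : 0 ≤ κ) (k1 : κ ≤ 1)
    (h : Pv Jt.wt κ (P.G.ys Jt.wt 4 (P.s + 1) P.C (P.G.tk 0 P.J') P.b P.J 0 (P.G.sek P.s P.b P.J)
      (Tl.lq (lE 𝒜 e)) P.k))
    (h1 : ∀ o, P.k ≤ o → o < P.i →
      8 * (2 * P.M + 6) * P.G.Yr 4 P.C o ^ 3 * P.G.Pw 4 P.C P.k P.i ≤ κ * P.G.L o)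
    (h2 : 4 * (P.M + 1) * P.G.Zu 4 P.C P.i * P.G.Pw 4 P.C P.k P.i ≤ κ * P.G.L P.k ^ 2) :
    P.G.Po 𝒜 P.s P.C P.b' P.J' P.i (κ / P.G.Pw 4 P.C P.k P.i / 4) (P.N 𝒜 0 e) := by
  have E := H.fh Gl.gs_zero (by norm_num) s4
  obtain ⟨_, _, _, _, F⟩ := E.F
  obtain ⟨ε, e0, -, e1, e2⟩ := H.eps 4 s4
  have o := H.xh.ok
  have m4 : ∀ q, (cW 𝒜 P.s q e : ℂ) ≠ 0 → q.1.m ≤ 4 := fun q u =>
    not_lt.1 fun v => u (by rw [cW_low he s4 v]; rfl)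
  have k : ∀ (q : Vd 𝒜 P.s) u, P.Mt 0 q u → ∃ t : Tl.Bd 𝒜 4 → ℝ, q.1.m ≤ 4 →
      P.G.Eh Jt.wt 4 (P.s + 1) P.C (P.G.tk 0 P.J') P.b P.b' P.J P.J' P.i P.k (P.G.sek P.s P.b P.J)
        u.1 (P.G.fz P.s P.C P.J' t) ∧ P.G.lb P.s P.C P.J' t = P.G.lb P.s P.C P.J' u.2 := by
    rintro ⟨⟨m, c, h⟩, hq⟩ u a
    rcases (vb4 ⟨m, c, h⟩).eq_or_lt with (rfl : 4 = m) | v
    exacts [⟨u.2, fun _ => ⟨a.2.2.2.2, rfl⟩⟩, ⟨0, fun a => absurd a v.not_ge⟩]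
  choose t k using fun q => k q _ (H.mt Gl.gs_zero q)
  have l := fun q => (H.mt Gl.gs_zero q).2.1
  have a := E.sum l (fun q u => (k q (m4 q u)).1) univ
  have l' := Lt1.sum univ fun q => (l q).smul (cW 𝒜 P.s q e : ℂ)
  obtain ⟨r, hr⟩ : ∃ r, r = 2 * P.b * (P.G.rt P.J P.k : ℝ) ^ 4 := ⟨_, rfl⟩
  have r0 : 0 < r := by
    have := (o.b34 H.xh.t.hb).trans_lt' (by have := o.b0 P.J; positivity)
    have := Gl.one_rt (G := P.G) P.J P.k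
    rw [hr]; positivity
  have a1 : ∑ q, (cW 𝒜 P.s q e : ℂ) • (P.ch 0 q).1 = (r : ℂ) • Tl.lq (lE 𝒜 e) := by
    conv_rhs => rw [← cW_sum (Kz.vp_mono s4 he)]
    simp only [map_sum, map_smul, smul_sum, ← Complex.coe_smul]
    refine sum_congr rfl fun q _ => ?_
    by_cases u : (cW 𝒜 P.s q e : ℂ) = 0
    · simp [u]
    · rw [(H.mt2 Gl.gs_zero q).2 (m4 q u), smul_comm, hr]
  have a2 : P.G.fl (P.s + 1) P.C P.J' Tl.Bd.dg (lX 𝒜 4)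
      (∑ q, (cW 𝒜 P.s q e : ℂ) • fun a => (t q a : ℂ)) = Tl.lq (lE 𝒜 (P.N 𝒜 0 e)) := by
    simp only [Kd.N, LinearMap.sum_apply, LinearMap.smulRight_apply, map_sum, map_smul,
      ← Complex.coe_smul]
    refine sum_congr rfl fun q _ => ?_
    by_cases u : (cW 𝒜 P.s q e : ℂ) = 0
    · simp [u]
    · rw [← (k q (m4 q u)).2, ← Gl.fz4 le_rfl]
  rw [a1] at a l'
  have l2 := l'.smul (r : ℂ)⁻¹
  rw [inv_smul_smul₀ (Complex.ofReal_ne_zero.2 r0.ne')] at l2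
  have a3 := F.T.ys_lin F.J1 F.d1 l2 l2 (r - 1) le_rfl F.T.hj.le
  simp only [sub_smul, one_smul, add_sub_cancel] at a3
  have L1 := o.L1 P.k
  rw [Gl.Po, ← a2, ← Gl.ys_bot H.xh.lt.le]
  refine E.pv wt2 a k0 k1 ?_ h1 e0 ?_ e2
  · rw [a3, Complex.coe_smul, Gl.ys_bot le_rfl]
    exact h.smul r0
  · nlinarith [mul_le_mul_of_nonneg_left h2 e0, mul_le_mul_of_nonneg_left e1 k0]

end Pool.Agent.Lib.MP_7f377f_mp.RG.Q4.En
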