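import Pool.Agent.Lib.MP_7f377f_mp.G.KzU
import Pool.Agent.Lib.MP_7f377f_mp.G.JvG

/-! Negligible losses, the level of the merging and good base points. -/

noncomputable section

set_option linter.unusedSectionVars false
variable [Pool.Agent.Lib.MP_7f377f_mp.GD]

namespace Pool.Agent.Lib.MP_7f377f_mp.RG.Q4.En.Gl

open Filter Topology Set YM7 L6 Wy Asymptotics
open RG.Wd (B4 gv)
open Wu (Z4)

attribute [local irreducible] box rc

variable (G : Gl)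

/-- functions of the level which are smaller than all powers of the scale -/
def Ng (f : ℕ → ℝ) : Prop := ∀ ε > (0 : ℝ), f =O[atTop] fun k => (G.aa (0, k))⁻¹ ^ ε

/-- `kk t` is the level at which the configurations of the scale `t` merge -/
def Mk (κ : ℝ) (kk : ℝ → ℕ) : Prop := Tendsto kk (𝓝[>] 0) atTop ∧ ∃ w, ∀ᶠ t in 𝓝[>] (0 : ℝ),
  G.kt t ≤ kk t ∧ kk t ≤ G.kt t + w ∧ 66 * κ * G.L (kk t + 1) ^ G.K0 * G.aa (0, kk t + 1) ≤ t ∧
    G.aa (0, kk t) ≤ t ∧ t ≤ 66 * κ * G.L (kk t) ^ G.K0 * G.aa (0, kk t)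

variable {G} {f g : ℕ → ℝ} {κ x : ℝ} {J j : ℕ} {z : St}

theorem aa_le (p) : G.aa p ≤ 1 := inv_le_one_of_one_le₀ (one_le_pow₀ (by norm_num))

theorem ng_const (c : ℝ) : G.Ng fun _ => c := fun _ e => .of_bound ‖c‖ (.of_forall fun k =>
  le_mul_of_one_le_right (norm_nonneg _) ((Real.one_le_rpow
    ((one_le_inv₀ (G.aa_pos _)).2 (aa_le _)) e.le).trans (le_abs_self _)))

theorem Ng.mul (hf : G.Ng f) (hg : G.Ng g) : G.Ng fun k => f k * g k := fun ε e =>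
  ((hf _ (half_pos e)).mul (hg _ (half_pos e))).congr_right fun k => by
    rw [← Real.rpow_add (inv_pos.2 (G.aa_pos _)), add_halves]

theorem Ng.prod {ι : Type} (s : Finset ι) {f : ι → ℕ → ℝ} (h : ∀ i, G.Ng (f i)) :
    G.Ng fun k => ∏ i ∈ s, f i k := by
  induction s using Finset.cons_induction with
  | empty => exact ng_const 1
  | cons i s hi ih => simpa only [Finset.prod_cons] using (h i).mul ih

theorem Ng.pow (hf : G.Ng f) (n : ℕ) : G.Ng fun k => f k ^ n := by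
  simpa using Ng.prod (Finset.range n) fun _ => hf

theorem ng_of (f0 : ∀ k, 0 ≤ f k)
    (h : ∀ m : ℕ, ∃ c ≥ (0 : ℝ), ∀ᶠ k in atTop, f k ^ (m + 1) ≤ c * 3 ^ G.e k) : G.Ng f := fun ε e => by
  obtain ⟨m, hm⟩ := exists_nat_one_div_lt e
  obtain ⟨c, c0, a⟩ := h m
  refine .of_bound (c ^ ε + 1) (a.mono fun k a => ?_)
  have E : (1 : ℝ) ≤ 3 ^ G.e k := one_le_pow₀ (by norm_num)
  rw [aa, inv_inv, Real.norm_of_nonneg (f0 k), Real.norm_of_nonneg (by positivity)]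
  have c1 : 0 ≤ c ^ ε := by positivity
  have E1 := Real.one_le_rpow E e.le
  rcases le_total (f k) 1 with u | u
  · nlinarith
  · calc f k = f k ^ (1 : ℝ) := (Real.rpow_one _).symm
      _ ≤ f k ^ ((m + 1 : ℕ) * ε) := Real.rpow_le_rpow_of_exponent_le u (by
          rw [div_lt_iff₀ (by positivity)] at hm; push_cast; linarith)
      _ ≤ (c * 3 ^ G.e k) ^ ε := by
          rw [Real.rpow_natCast_mul (f0 k)]
          exact Real.rpow_le_rpow (pow_nonneg (f0 k) _) a e.le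
      _ ≤ _ := by rw [Real.mul_rpow c0 (by positivity)]; nlinarith

theorem rt_le3 (k j : ℕ) : (G.rt k j : ℝ) ≤ 3 ^ G.e k := by
  exact_mod_cast Nat.pow_le_pow_right three_pos (Nat.sub_le _ _)

theorem yo_gv (γ : B4) (l : ℕ) (y : St) : yo l (gv γ y) = gv γ (yo l y) := funext fun i => by
  simp only [gv, Wd.cd, yo]
  split_ifs
  exacts [rfl, congrFun (yo_neg l y) _]

theorem gs_gv (h : z ∈ G.Gs J j) (γ : B4) : gv γ z ∈ G.Gs J j := dg_tk.2 fun k a b => by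
  have := Wd.gv_box γ (h k a b).2
  rwa [tk_map (yo_gv γ) _ b, L, rc_sub, yo_gv, up, ← Wd.gv_smul, ← Wd.gv_sub, ← up, ← rc_sub]

theorem gs_zero : 0 ∈ G.Gs J j := dg_tk.2 fun k _ b => by
  rw [tk_zero le_rfl tk_top _ b, L, rc_sub, Op.yo_eq_zero.2 (zero_mem_box _), up, smul_zero, sub_zero]
  exact zero_mem_box _

theorem ex_gv {R : ℕ} (γ : B4) (h : ∃ μ, (R : ℤ) ≤ |z μ|) : ∃ μ, (R : ℤ) ≤ |gv γ z μ| := by
  obtain ⟨μ, h⟩ := h
  refine ⟨(γ.1 (μ, true)).1, h.trans_eq ?_⟩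
  have := Wd.cd_gv' γ z (μ, true)
  simp only [Wd.cd, if_true] at this
  rw [← this]
  split_ifs <;> simp

theorem abs_cd (u : Z4) (d : Wd.Dr) : |Wd.cd u d| = |u d.1| := by
  unfold Wd.cd
  split_ifs <;> simp

theorem gv_near (γ : B4) {r : ℤ} {z' : St} (h : ∀ μ, |z μ - z' μ| ≤ r) (μ : Fin 4) :
    |gv γ z μ - gv γ z' μ| ≤ r := by
  rw [← Pi.sub_apply, ← Wd.gv_sub]
  exact (abs_cd _ _).trans_le (h _)

theorem gv_far (γ : B4) {r : ℤ} {z' : St} (h : ∃ μ, r ≤ |z μ - z' μ|) :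
    ∃ μ, r ≤ |gv γ z μ - gv γ z' μ| :=
  h.elim fun μ e => ⟨(γ.1 (μ, true)).1, by
    rwa [← Pi.sub_apply, ← Wd.gv_sub, ← abs_cd, Wd.cd_gv', abs_cd]⟩

theorem ex_B4 : ∃ γ : (Fin 4 → Bool) → B4, γ (fun _ => true) = 1 ∧
    ∀ g W, MP_7f377f_mp.Wx.tw rz g W = Wd.pb Inv.inv (γ g) W := by
  have a : ∀ μ b, ∃ γ : B4, (b = true → γ = 1) ∧ ∀ W,
      MP_7f377f_mp.Wx.pw (rz μ) b W = Wd.pb Inv.inv γ W := fun μ b => by
    cases b
    exacts [⟨_, nofun, fun W => (Kz.pb_rf μ W).symm⟩, ⟨1, fun _ => rfl, fun _ => rfl⟩]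
  choose γ h1 h2 using a
  exact ⟨fun g => γ 3 (g 3) * γ 2 (g 2) * γ 1 (g 1) * γ 0 (g 0), by simp [h1], fun g W => by
    simp only [MP_7f377f_mp.Wx.tw, h2, Wd.pb_mul inv_inv]⟩

theorem Ok.ex_v0 (h : G.Ok) {ι : Type} {x : ι → Z4} (hJ : j + 1 ≤ J)
    (hx : ∀ l μ, 2 * |x l μ| ≤ G.rt J (j + 1))
    (hw : ∃ w, ∀ a : Option ι, a.elim 0 x + w ∈ G.Gs J (j + 1)) : ∃ v ∈ box (G.rt J (j + 1) / 2),
      (∀ l ≤ j, G.tk v J l = 0) ∧ v ∈ G.Gs J 0 ∧
        ∀ l, v + x l ∈ G.Gs J 0 ∧ v + x l ∈ box (G.rt J (j + 1)) := by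
  obtain ⟨w, hw⟩ := hw
  have hv := h.tk_sub w _ hJ
  have low : ∀ y ∈ box (G.rt J (j + 1)), y ∈ G.Gs J (j + 1) →
      (∀ l ≤ j, G.tk y J l = 0) ∧ y ∈ G.Gs J 0 := fun y b c => by
    have := h.tk_near (x' := 0) hJ (by rwa [sub_zero])
    rw [tk_zero le_rfl tk_top _ hJ, sub_zero, Nat.div_self (show 0 < G.rt J (j + 1) from pow_pos three_pos _)]
      at this
    refine Dg.low c hJ (Nat.sub_le _ _) (box_mono (le_trans ?_ (h.gd_dm j)) this)
    have := h.L_big j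
    unfold gd
    omega
  have g : ∀ a : Option ι, w - (G.rt J (j + 1) : ℤ) • G.tk w J (j + 1) + a.elim 0 x ∈
      G.Gs J (j + 1) := fun a => by
    have := h.dg_add (hw a) (-G.tk w J (j + 1))
    rwa [smul_neg, add_assoc, add_comm, ← sub_eq_add_neg] at this
  have v := low _ (box_mono (Nat.div_le_self _ _) hv) (by simpa only [Option.elim, add_zero] using g none)
  refine ⟨_, hv, v.1, v.2, fun l => ?_⟩
  have b : w - (G.rt J (j + 1) : ℤ) • G.tk w J (j + 1) + x l ∈ box (G.rt J (j + 1)) :=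
    Op.mem_box.2 fun μ => by
      have := Op.mem_box.1 hv μ
      have := hx l μ
      have := le_abs_self (x l μ)
      have := neg_abs_le (x l μ)
      rw [Pi.add_apply]
      omega
  exact ⟨(low _ b (g (some l))).2, b⟩

variable (o : G.Oks)
include o

theorem ng_L : G.Ng fun k => G.L k := ng_of (fun _ => Nat.cast_nonneg _) fun m => ⟨1, zero_le_one, by
  filter_upwards [(o 0).1.bb_ev (m + 1), (o 0).1.ev_rt 0 1 1] with k a b
  rw [pow_one, one_mul] at b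
  exact ((a.trans b).trans (G.rt_le3 k 0)).trans_eq (one_mul _).symm⟩

theorem ng_Pw (d : ℕ) {C : ℕ} (C0 : C ≠ 0) (j : ℕ) : G.Ng (G.Pw d C j) := by
  have p := fun k i => zero_le_one.trans ((o 0).1.Pw1 d C k i)
  refine ng_of (p j) fun m => ?_
  obtain ⟨i, e⟩ := (o 0).1.Pw_ev d C (m + 1) C0
  refine ⟨G.Pw d C j (max i j) ^ (m + 1), pow_nonneg (p _ _) _,
    (eventually_ge_atTop (max i j)).mono fun k a => ?_⟩
  rw [← Ok.Pw_mul (le_max_right i j) a, mul_pow]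
  exact mul_le_mul_of_nonneg_left ((e _ (le_max_left ..) k a).trans (G.rt_le3 k _)) (pow_nonneg (p _ _) _)

theorem Ng.budget (hf : G.Ng f) (hg : G.Ng g) (j q D : ℕ) (hx : x = D + 1 / 2 - q) :
    ∃ K ≥ 0, ∀ᶠ k in atTop, ∀ t, G.aa (0, k) ≤ t → t ≤ g k * G.aa (0, k) →
      f k * G.rt k j ^ q / G.rt k j ^ (D + 1) ≤ K * t ^ x := by
  obtain ⟨c, c0, a⟩ := ((hf.mul (hg.pow ⌈|x|⌉₊)) _ one_half_pos).exists_nonneg
  have j0 := G.aa_pos (0, j)
  refine ⟨c * (G.aa (0, j) ^ q / G.aa (0, j) ^ (D + 1)), by positivity, ?_⟩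
  filter_upwards [a.bound, eventually_ge_atTop j] with k a hk t t1 t2
  have k0 := G.aa_pos (0, k)
  obtain ⟨τ, rfl⟩ : ∃ τ, t = τ * G.aa (0, k) := ⟨t / _, (div_mul_cancel₀ _ k0.ne').symm⟩
  have τ1 : 1 ≤ τ := (le_mul_iff_one_le_left k0).1 t1
  have τ2 := le_of_mul_le_mul_right t2 k0
  have b : 1 ≤ g k ^ ⌈|x|⌉₊ * τ ^ x := le_trans (by
    rw [← Real.rpow_natCast, ← Real.rpow_add (by linarith)]
    exact Real.one_le_rpow τ1 (by linarith [Nat.le_ceil |x|, neg_abs_le x]))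
    (mul_le_mul_of_nonneg_right (pow_le_pow_left₀ (by linarith) τ2 _) (by positivity))
  have r : (G.rt k j : ℝ) = G.aa (0, j) / G.aa (0, k) := by
    rw [← aa_rt o (i := 0) hk, mul_div_cancel_left₀ _ k0.ne']
  have e : G.aa (0, k) ^ x = G.aa (0, k) ^ (D + 1) / G.aa (0, k) ^ q * (G.aa (0, k))⁻¹ ^ (1 / 2 : ℝ) := by
    rw [Real.inv_rpow k0.le, ← Real.rpow_neg k0.le, ← Real.rpow_natCast, ← Real.rpow_natCast,
      ← Real.rpow_sub k0, ← Real.rpow_add k0, hx]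
    congr 1
    push_cast
    ring
  rw [Real.norm_of_nonneg (r := _ ^ _) (by positivity), Real.norm_eq_abs, abs_mul,
    abs_of_nonneg (pow_nonneg (show 0 ≤ g k by linarith) _)] at a
  have u : f k ≤ c * (G.aa (0, k))⁻¹ ^ (1 / 2 : ℝ) * τ ^ x := (le_abs_self _).trans
    ((le_mul_of_one_le_right (abs_nonneg _) b).trans (by
      rw [← mul_assoc]; exact mul_le_mul_of_nonneg_right a (by positivity)))
  rw [Real.mul_rpow (by linarith) k0.le, e, r, mul_div_assoc]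
  refine (mul_le_mul_of_nonneg_right u (by positivity)).trans_eq ?_
  simp only [div_pow]
  field_simp

theorem ex_kk (κ1 : 1 ≤ κ) : ∃ kk, G.Mk κ kk := by
  classical
  have h := (o 0).1
  obtain ⟨φ, hφ⟩ : ∃ φ : ℕ → ℝ, ∀ k, φ k = 66 * κ * G.L k ^ G.K0 * G.aa (0, k) := ⟨_, fun _ => rfl⟩
  have L1 : ∀ k, (1000 : ℝ) ≤ G.L k := h.L1
  have p : ∀ k, G.aa (0, k) ≤ φ (k + 1) := fun k => by
    rw [hφ, ← aa_rt o (i := 0) k.le_succ, mul_comm]
    refine mul_le_mul_of_nonneg_right (le_trans ?_ (le_mul_of_one_le_left (by positivity)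
      (by linarith))) (G.aa_pos _).le
    exact_mod_cast ((h.rt_L k).trans_le (h.L_mono k.le_succ)).trans (h.LK0 _).2
  have z : Tendsto (fun k => φ (k + 1)) atTop (𝓝 0) := by
    have a := (((ng_const (66 * κ)).mul ((ng_L o).pow G.K0)) _ one_half_pos).mul
      (isBigO_refl (fun k => G.aa (0, k)) _)
    refine ((a.congr_left fun k => (hφ k).symm).trans_tendsto ?_).comp (tendsto_add_atTop_nat 1)
    refine (((Real.continuousAt_rpow_const 0 (1 / 2) (.inr one_half_pos.le)).tendsto.comp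
      ((aa_lim o).mono_right nhdsWithin_le_nhds)).congr fun k => ?_).trans_eq (by simp)
    have := G.aa_pos (0, k)
    rw [Real.inv_rpow this.le, ← Real.rpow_neg this.le, ← Real.rpow_add_one this.ne']
    norm_num
  have ex : ∀ t > 0, ∃ k, φ (k + 1) ≤ t := fun t t0 => (z.eventually_le_const t0).exists
  obtain ⟨kk, e⟩ : ∃ kk : ℝ → ℕ, ∀ t > 0, φ (kk t + 1) ≤ t ∧ ∀ k < kk t, t < φ (k + 1) :=
    ⟨fun t => if e : ∃ k, φ (k + 1) ≤ t then Nat.find e else 0, fun t t0 => by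
      simp only [dif_pos (ex t t0)]
      exact ⟨Nat.find_spec (ex t t0), fun k a => not_le.1 (Nat.find_min _ a)⟩⟩
  have a : ∀ᶠ t in 𝓝[>] (0 : ℝ), G.kt t ≤ kk t := eventually_mem_nhdsWithin.mono fun t t0 =>
    not_lt.1 fun u => ((kt_eq o t0).2 _ u).not_ge ((p _).trans (e t t0).1)
  refine ⟨kk, tendsto_atTop_mono' _ a (kt_top o), 2 * G.K0 + 2, ?_⟩
  filter_upwards [a, kt_ev o, (kt_top o).eventually_ge_atTop 1,
    (kt_top o).eventually (h.L_top.eventually_ge_atTop (66 * κ))] with t a ⟨t0, b, _⟩ c d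
  obtain ⟨k, hk⟩ : ∃ k, kk t = k + 1 := ⟨kk t - 1, by omega⟩
  have u := ((e t t0).2 k (by omega)).le
  rw [← hk, hφ] at u
  refine ⟨a, ?_, hφ _ ▸ (e t t0).1, (p _).trans (e t t0).1, u⟩
  obtain ⟨w, hw⟩ := Nat.exists_eq_add_of_le a
  rw [hw] at u ⊢
  generalize G.kt t = i at *
  have v := b.trans u
  rw [← aa_rt o (i := 0) (i.le_add_right w), mul_comm] at v
  have v1 := le_of_mul_le_mul_right v (G.aa_pos _)
  have v2 : (G.L i : ℝ) ^ w ≤ G.rt (i + w) i := by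
    rw [← show _ = (G.rt (i + w) i : ℝ) from h.rt_prod (i.le_add_right w)]
    refine le_trans (by simp) (Finset.prod_le_prod (f := fun _ => (G.L i : ℝ))
      (fun _ _ => Nat.cast_nonneg _) fun n hn => Nat.cast_le.2 (h.L_mono (Finset.mem_Ico.1 hn).1))
  have v3 : (G.L (i + w) : ℝ) ≤ 3 ^ w * G.L i := by exact_mod_cast h.L_add i w
  have v4 : (3 : ℝ) ^ (2 * G.K0) ≤ G.L i := by
    exact_mod_cast le_trans (Nat.le_mul_of_pos_left _ (by norm_num))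
      (h.three_L i (i := 2 * G.K0) (by change _ ≤ 100 * (G.K0 + 1); omega))
  have l := L1 i
  have v5 : (G.L i : ℝ) ^ w * G.L i ^ w ≤ G.L i ^ (2 * G.K0 + 2) * G.L i ^ w :=
    calc _ ≤ (G.L i * (3 ^ w * G.L i) ^ G.K0 : ℝ) ^ 2 := by
          rw [← sq]
          refine pow_le_pow_left₀ (by positivity) ((v2.trans v1).trans ?_) _
          gcongr
          exact d
      _ = G.L i ^ (2 * G.K0 + 2) * (3 ^ (2 * G.K0)) ^ w := by ring
      _ ≤ _ := by gcongr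
  exact Nat.add_le_add_left ((pow_le_pow_iff_right₀ (by linarith)).1
    (le_of_mul_le_mul_right v5 (by positivity))) _

theorem ex_v (ι : Type) [Fintype ι] (κ : ℝ) : ∀ᶠ t in 𝓝[>] (0 : ℝ), ∀ p : ℕ × ℕ, G.kt t ≤ p.2 →
    ∀ x : ι → Z4, (∀ i l, |G.aa p * x i l| ≤ κ * t) → ∃ v ∈ box (G.rt p.2 (G.kt t - 2) / 2),
      (∀ l ≤ G.kt t - 3, G.tk v p.2 l = 0) ∧ v ∈ G.Gs p.2 0 ∧
        ∀ i, v + x i ∈ G.Gs p.2 0 ∧ v + x i ∈ box (G.rt p.2 (G.kt t - 2)) := by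
  have h := (o 0).1
  obtain ⟨n, e⟩ := eventually_atTop.1 ((h.gs_sh (Option ι)).and
    (h.L_top.eventually_ge_atTop (6 * |κ|)))
  filter_upwards [kt_ev o, (kt_top o).eventually_ge_atTop (n + 3)] with t ⟨t0, _, t1⟩ a p hp x hx
  obtain ⟨i, hi⟩ : ∃ i, G.kt t = i + 3 := ⟨G.kt t - 3, by omega⟩
  rw [hi] at t1 hp a ⊢
  obtain ⟨e1, (e2 : _ ≤ (G.L (i + 1) : ℝ))⟩ := e (i + 1) (by omega)
  have hJ : i + 1 ≤ p.2 := by omega
  refine h.ex_v0 hJ (fun l μ => ?_) (e1 _ hJ _)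
  have a0 := G.aa_pos p
  have a1 := G.aa_pos (0, i + 3)
  have r : (G.rt (i + 3) (i + 1) : ℝ) = G.L (i + 1) * G.L (i + 2) := by
    exact_mod_cast (h.rt_step (by omega)).trans (congrArg _ (h.rt_L _))
  have s : (G.L (i + 3) : ℝ) ≤ 3 * G.L (i + 2) := by exact_mod_cast h.L_succ (i + 2)
  have u := aa_rt o (i := p.1) hJ
  rw [← aa_rt o (i := 0) (show i + 1 ≤ i + 3 by omega), r] at u
  have y := (hx l μ).trans (mul_le_mul (le_abs_self κ) (t1.trans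
    (mul_le_mul_of_nonneg_right s a1.le)) t0.le (abs_nonneg _))
  rw [abs_mul, abs_of_pos a0] at y
  have : 2 * |(x l μ : ℝ)| ≤ G.rt p.2 (i + 1) := le_of_mul_le_mul_left (by
    nlinarith [mul_le_mul_of_nonneg_right e2
      (show 0 ≤ G.L (i + 2) * G.aa (0, i + 3) by positivity)]) a0
  exact_mod_cast this

theorem aa_sJ {k : ℕ} {p : ℕ × ℕ} (hk : k ≤ p.2) :
    G.aa p * G.sJ p.2 k = (G.L k : ℝ) ^ G.K0 * G.aa (0, k) := by
  rw [← aa_rt o (i := p.1) hk, sJ]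
  push_cast
  ring

/-- the distances in a configuration -/
theorem cf_nf {n k g : ℕ} {p : ℕ × ℕ} {t : ℝ} {y : Fin n → Z4}
    (c : MP_7f377f_mp.Wx.Cf κ t (G.aa p) y) (κ1 : 1 ≤ κ)
    (hg : 66 * κ ^ 2 ≤ 20 * g) (hk : k < p.2)
    (h1 : 66 * κ * (G.L (k + 1) : ℝ) ^ G.K0 * G.aa (0, k + 1) ≤ t)
    (h2 : t ≤ 66 * κ * (G.L k : ℝ) ^ G.K0 * G.aa (0, k)) (γ : B4) (v : Z4) :
    (∀ l μ, |gv γ (v + y l) μ - gv γ v μ| ≤ (20 * g * G.sJ p.2 k : ℕ)) ∧ ∀ l l', l ≠ l' →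
      ∃ μ, ((66 * G.sJ p.2 (k + 1) : ℕ) : ℤ) ≤ |gv γ (v + y l) μ - gv γ (v + y l') μ| := by
  have a0 := G.aa_pos p
  rw [mul_assoc, ← aa_sJ o hk] at h1
  rw [mul_assoc, ← aa_sJ o hk.le] at h2
  refine ⟨fun l => gv_near γ fun μ => ?_, fun l l' e => gv_far γ ((c.2 l l' e).imp fun μ a => ?_)⟩
  · have a := c.1 l μ
    rw [abs_mul, abs_of_pos a0] at a
    rw [Pi.add_apply, add_sub_cancel_left, ← Int.cast_le (R := ℝ)]
    push_cast
    refine le_of_mul_le_mul_left (a.trans ?_) a0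
    nlinarith [mul_le_mul_of_nonneg_left h2 (zero_le_one.trans κ1), mul_le_mul_of_nonneg_right hg
      (show 0 ≤ G.aa p * G.sJ p.2 k by positivity)]
  · rw [← mul_sub, abs_mul, abs_of_pos a0] at a
    rw [Pi.add_apply, Pi.add_apply, add_sub_add_left_eq_sub, ← Int.cast_le (R := ℝ)]
    push_cast
    refine le_of_mul_le_mul_left (a := κ * G.aa p) ?_ (by positivity)
    linarith

end Pool.Agent.Lib.MP_7f377f_mp.RG.Q4.En.Gl
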