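import Pool.Agent.Lib.MP_7f377f_mp.G.KsT
import Pool.Agent.Lib.MP_7f377f_mp.G.KyB

/-! The action density is positive near the top of a run. -/

noncomputable section

set_option linter.unusedSectionVars false
variable [Pool.Agent.Lib.MP_7f377f_mp.GD]

namespace Pool.Agent.Lib.MP_7f377f_mp.RG.Q4.En.Gl

open Finset Filter Topology Tl Kz
open Zg (V0 Og fil u0)

variable {G : Gl} {𝒜 : Set CM} [Og 𝒜] {β : ℕ × ℕ → ℝ} {s : ℕ}

theorem tk_00 (J : ℕ) : G.tk 0 J = 0 := funext fun k => (le_total k J).elim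
  (tk_zero le_rfl tk_top k) fun a => by rw [tk, dw, Nat.sub_eq_zero_of_le a]; rfl

theorem Ok.lq_fl (h : G.Ok) (D C J : ℕ) {d : ℕ} {e : V0 𝒜} (he : e ∈ Vp 𝒜 d) :
    ∃ t, G.fl D C J Tl.Bd.dg (lX 𝒜 d) t = Tl.lq (lE 𝒜 e) := by
  refine ⟨Sum.elim (fun q => (G.ka D C J : ℂ) ^ Tl.Bd.dg (.inl q : Tl.Bd 𝒜 d) *
    (bV 𝒜 d).repr ⟨e, he⟩ q) 0, ?_⟩
  have := congrArg (fun c : Vp 𝒜 d => Tl.lq (lE 𝒜 c)) ((bV 𝒜 d).sum_repr ⟨e, he⟩)
  simp only [Submodule.coe_sum, Submodule.coe_smul, map_sum, map_smul, bV_ap, ← Complex.coe_smul] at this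
  have k := Complex.ofReal_ne_zero.2 (h.ka0 D C J).ne'
  simpa only [fl, Fintype.linearCombination_apply, Fintype.sum_sum_type, Sum.elim_inl, Sum.elim_inr,
    smul_smul, Pi.zero_apply, zero_mul, zero_smul, sum_const_zero, add_zero, mul_comm (_ ^ _),
    mul_inv_cancel_right₀ (pow_ne_zero _ k), lX, Tl.Bd.P] using this

theorem Ok.win (h : G.Ok) {J k : ℕ} (e : k ≤ J) (a : (G.rt J k : ℝ) ≤ G.bb k) :
    (J : ℝ) ≤ k + 2 * G.rn k := by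
  have u := (h.sd_all k (G.top0 0 0)).nu
  have b := ((a.trans (h.b_mono k.le_succ)).trans (le_self_pow₀ u.ok.β1 (by omega))).trans u.ex_r
  have c := h.sch.mono.add_le_nat (J - k) k
  rw [Nat.sub_add_cancel e] at c
  have : Real.exp (J - k : ℕ) ≤ Real.exp (G.rn k) := by
    refine le_trans ?_ b
    rw [← Real.exp_one_pow, rt]
    push_cast
    exact (pow_le_pow_left₀ (Real.exp_pos 1).le (Real.exp_one_lt_three.le) _).trans
      (pow_le_pow_right₀ (by norm_num) (by omega))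
  rw [Real.exp_le_exp, Nat.cast_sub e] at this
  linarith [(G.rn k).cast_nonneg (α := ℝ)]

/-- positivity in the window below the top -/
theorem Oks.pv_top [Adj 𝒜] (o : G.Oks) (q : G.HP Sd.StA) (tu : G.Tus β) (hs : 4 ≤ s) :
    ∀ᶠ C in atTop, ∃ κ > (0 : ℝ), ∀ᶠ k in atTop, ∀ J J' m, (G.rt J k : ℝ) ≤ G.bb k → J ≤ J' →
      ∀ i, k ≤ i → i < J → ∀ e ∈ Vp 𝒜 4, ‖e - Zg.l0 𝒜‖ ≤ 2 / G.L k →
        Pv Jt.wt κ ((G.wm m).ys Jt.wt 4 (s + 1) C ((G.wm m).tk 0 J') (β (m, J)) J 0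
          ((G.wm m).sek s (β (m, J)) J) (Tl.lq (lE 𝒜 e)) i) := by
  have h := (o 0).1
  have hw : ∀ a : Jt.Ia s, 2 ≤ Jt.wt a := fun _ => Nat.le_add_right ..
  obtain ⟨κ, κ0, κ1, ε, ε0, R1, δ1, δ0, top⟩ := pv_J 𝒜 (s := s) (by omega)
  obtain ⟨C0, ld⟩ := ld_ex s G.c (by omega)
  obtain ⟨c, hc⟩ : ∃ c : ℝ, c = Fintype.card (Jt.Ia s) := ⟨_, rfl⟩
  have c0 : 0 ≤ c := hc ▸ Nat.cast_nonneg _
  filter_upwards [o.fwU (𝒜 := 𝒜) (s := s) q tu (by omega) 0, eventually_ge_atTop C0]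
    with C ⟨M, R, _, W⟩ hC
  obtain ⟨δ, -, K, W⟩ := W 1 one_pos
  refine ⟨κ / 2, half_pos κ0, ?_⟩
  filter_upwards [W M le_rfl, eventually_forall_ge_atTop.2
    ((h.tj_ev (s + 1) R1 δ0).and (h.ey_ev C0 (s + 1))), h.L_top.eventually_ge_atTop (2 / ε),
    h.XrL 1 2, h.rnt.eventually_ge_atTop (4 * (20 * c + 1) / κ)]
    with k W a1 (a2 : _ ≤ (G.L k : ℝ)) (a3 : ((G.rn k : ℝ) ^ 1) ^ 2 ≤ G.L k) (a4 : _ ≤ (G.rn k : ℝ))
      J J' m r hJ i h1 h2 e he n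
  have hk := h1.trans_lt h2
  have W := W J hk m
  have g := W.ok
  have F := W.fr 0 gs_zero 4 (by omega) (by omega)
  have L1 : (1000 : ℝ) ≤ G.L k := h.L1 k
  obtain ⟨t, ht⟩ := g.lq_fl (s + 1) C J he
  have P := top _ _ _ _ _ _ _ _ _ _ _ _ _ F.T (g.sek_top F.T.t (by omega)) (a1 J hk.le).1 e he
    (n.trans (by rwa [div_le_comm₀ (by positivity) ε0]))
  have w : (J : ℝ) ≤ k + 2 * G.rn k := h.win hk.le r
  have z : 2 * G.rn k * ((20 * c + 1) / G.L k) ≤ κ / 2 := by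
    rw [div_le_iff₀ κ0] at a4
    rw [← mul_div_assoc, div_le_iff₀ (by positivity)]
    nlinarith [mul_le_mul_of_nonneg_left a4 (G.rn k).cast_nonneg]
  have θ0 : 0 ≤ (20 * c + 1) / G.L k := by positivity
  rw [← ht, ys, ← st_ls] at P
  have := F.fx.pv_w hw t (ε := 5 / G.L k) (θ := (20 * c + 1) / G.L k) (by omega) le_rfl le_rfl
    (by positivity) κ1 (fun l l1 l2 => ?_) (by nlinarith) P i h2.le h1
  · rw [tk_00, ← tk_00 J, ← ys_bot h1, ← ht, ys, ← st_ls]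
    refine this.mono ?_
    have : (k : ℝ) ≤ i := by exact_mod_cast h1
    nlinarith
  obtain ⟨-, -, g1, g2⟩ := (ld (d := 4) (D := s + 1) g rfl hC (by omega) (fun i hi => (a1 i hi).2)
    F.T.t gs_zero).2 l l1 l2
  have H := F.T.ld l l1 l2
  have L2 : (G.L k : ℝ) ≤ G.L l := by exact_mod_cast h.L_mono l1
  have u : 4 / G.bb l + G.eD (s + 1) l ≤ 5 / G.L k := by
    have : (G.L l : ℝ) ^ 1 ≤ G.bb l := h.Lb l (by have := h.B1; omega)
    have := le_self_pow₀ (show (1 : ℝ) ≤ G.L l by linarith) (show s + 1 + 2 ≠ 0 by omega)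
    rw [eD, ← one_div, show 5 / (G.L k : ℝ) = 4 / G.L k + 1 / G.L k by ring]
    gcongr <;> linarith
  have v : ∀ {T}, Jt.Gr (4 / G.bb l + G.eD (s + 1) l) T →
      (∀ a b, Jt.wt b < Jt.wt a → T (Pi.single b 1) a = 0) → Gw Jt.wt (5 / G.L k) T :=
    fun x y => ⟨fun _ => lw_map hw y, fun a b p p' =>
      (x a b (Nat.add_left_cancel (p.trans p'.symm))).trans u⟩
  refine ⟨v g1 H.fU, v g2 H.fU', ?_⟩
  have y : 200 * M * (G.wm m).Yr 4 C l ^ 2 ≤ G.L l := (F.T.e l l1).2.2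
  rw [← hc, add_div]
  refine add_le_add (le_of_eq (by ring)) ?_
  change _ / (G.L l : ℝ) ^ 3 ≤ _
  have L3 : (0 : ℝ) < G.L l := by linarith
  rw [div_le_div_iff₀ (by positivity) (by positivity)]
  nlinarith [mul_le_mul y L2 (by positivity) L3.le, mul_pos L3 L3]

end Pool.Agent.Lib.MP_7f377f_mp.RG.Q4.En.Gl
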