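import Pool.Agent.Lib.MP_7f377f_mp.G.KyP
import Pool.Agent.Lib.MP_7f377f_mp.G.KsH

/-! The sign of the charts along the long run. -/

noncomputable section

set_option linter.unusedSectionVars false
variable [Pool.Agent.Lib.MP_7f377f_mp.GD]

namespace Pool.Agent.Lib.MP_7f377f_mp.RG.Q4.En.Gl

open MeasureTheory Filter Topology Set YM7 L6 RG.Tl Wy Kz
open Zg (V0 Og r0 fil)

variable {G : Gl} {𝒜 : Set CM} [Og 𝒜] {β : ℕ × ℕ → ℝ} {U : Ultrafilter (ℕ × ℕ)}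
  {S₀ : ∀ {k : ℕ}, (Fin k → R4 → ℝ) → ℝ} {S : Pur.Pol →ₗ[ℂ] ℂ} {s C R J j i : ℕ} {M δ K b κ μ : ℝ}

theorem Fw.po (W : G.Fw 𝒜 s C M R δ K b J j) (hs : 2 ≤ s) (h1 : j ≤ i) (h2 : i ≤ J) :
    ∃ y : SyC (Jt.wt (s := s)) 4,
      (∀ μ κ : ℝ, G.Po 𝒜 s C b J i κ (μ • Zg.l0 𝒜) ↔ Pv Jt.wt κ (μ • y)) ∧
      (i < J → 0 ≤ κ → 8 * M * G.Yr 4 C i ^ 3 ≤ κ * G.L i → G.Po 𝒜 s C b J (i + 1) κ (Zg.l0 𝒜) →
        G.Po 𝒜 s C b J i (κ / (4 * G.Yr 4 C i)) (Zg.l0 𝒜)) := by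
  have F := W.fr 0 gs_zero 4 (by omega) (by omega)
  obtain ⟨t, ht⟩ := W.ok.lq_fl (s + 1) C J (l0_vp (𝒜 := 𝒜))
  refine ⟨G.ys _ 4 (s + 1) C (G.tk 0 J) b J 0 (G.sek s b J) (Tl.lq (lE 𝒜 (Zg.l0 𝒜))) i, fun μ κ => ?_,
    fun h3 k0 n a => ?_⟩
  · rw [Po, map_smul, ← Complex.coe_smul, map_smul, ← ht, ← map_smul, ← ys_bot h1, ← ys_bot h1,
      ← F.eqv_val h1 h2, ← F.eqv_val h1 h2, map_smul, Submodule.coe_smul, Complex.coe_smul]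
  · rw [Po, ← ys_bot (h1.trans i.le_succ), ← ht, ys, ← st_ls] at a
    rw [Po, ← ys_bot h1, ← ht, ys, ← st_ls]
    exact (F.fx.pv_1 (fun _ => Nat.le_add_right ..) t h1 h3 k0 n).1 a

theorem ChartsP.charts2 [Adj 𝒜] (H : G.ChartsP 𝒜 β) (R : Rn G β U S₀ S) (q : G.HP Sd.StA) :
    G.Charts 𝒜 β := fun s hs => by
  have o := R.ok
  have h := (o 0).1
  filter_upwards [H s hs, eventually_imp_distrib_left.2 (o.pv_top (𝒜 := 𝒜) (s := s) q R.tu),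
    o.fwU (𝒜 := 𝒜) q R.tu hs 0, eventually_ne_atTop 0] with C H top ⟨M, R, _, W⟩ C0 m hm
  obtain ⟨C', c3, c, H⟩ := H m hm
  obtain ⟨δ, -, K, W⟩ := W 1 one_pos
  refine ⟨c, fun N W' => ?_⟩
  obtain ⟨c₁, w, H⟩ := H N W'
  obtain ⟨B, B1, eq⟩ := Cz.eq 𝒜 (Fi.tr haar) s m
  obtain ⟨a₀, ha⟩ := wt_ex hs
  have top : ∀ᶠ k in atTop, 4 ≤ s → ∀ J m, (G.rt J k : ℝ) ≤ G.bb k → k + w < J →
      (G.wm m).Po 𝒜 s C (β (m, J)) J (k + w) (√(G.L k))⁻¹ (Zg.l0 𝒜) :=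
    eventually_imp_distrib_left.2 fun s4 => by
      obtain ⟨κ, κ0, a⟩ := top s4
      filter_upwards [a, h.L_top.eventually_ge_atTop (κ⁻¹ ^ 2)] with k a e J m r u
      refine (a J J m r le_rfl _ (k.le_add_right w) u _ l0_vp (by simp; positivity)).mono ?_
      exact inv_le_of_inv_le₀ κ0 (Real.le_sqrt_of_sq_le e)
  refine ⟨c₁, ?_⟩
  filter_upwards [W M le_rfl, eventually_forall_ge_atTop.2 (((((H.and top).and (h.sh_ex c3)).and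
    (h.sh_far C' (w + 2))).and (h.L_top.eventually_ge_atTop (B * (‖Zg.l0 𝒜‖ + 1)))).and
      (h.yr_ev 4 C 6 (192 * M ^ 2) C0))] with k W a
  obtain ⟨J₀, j0⟩ := (a k le_rfl).1.1.1.2
  refine ev_fast.2 ((eventually_ge_atTop J₀).mono fun J hJ => ?_)
  have hw := ((a k le_rfl).1.1.2 J₀ j0).trans hJ
  filter_upwards [(eventually_all_finite (finite_Icc k J)).2 fun l hl => eventually_imp_distrib_left.2
    ((a l hl.1).1.1.1.1.1 J)] with v ch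
  have W := W J (by omega) (3 ^ v / 2)
  obtain ⟨M₁, Hs, Pr, pa, S, cp, sg, P, z, os, Q⟩ := ch k ⟨le_rfl, by omega⟩ ⟨J₀, hJ, j0.1, j0.2, j0.3⟩
  refine ⟨M₁, Hs, Pr, pa, S, cp, sg, P, z, os, fun s4 hN => ?_⟩
  have A : ∀ l ≥ k, ∀ {M₁ Hs Pr} {pa : Wd.B4 → Pr → Pr} {S cp sg P Γ x}, Cz (𝒜 := 𝒜) (Fi.tr haar)
      (β (3 ^ v / 2, J)) (G.nn (3 ^ v / 2, J)) s m x (G.L l ^ c) (G.L l ^ W') P (G.L l ^ N)⁻¹ Γ M₁ Hs
        pa S cp sg → ∀ e ∈ Vp 𝒜 4, ‖e - Zg.l0 𝒜‖ ≤ (G.L l : ℝ)⁻¹ →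
          ∃ e' ∈ Vp 𝒜 4, ‖e' - Zg.l0 𝒜‖ ≤ 2 / G.L l ∧ M₁ 0 e' = Kz.av (rB 𝒜) (M₁ 0) e :=
    fun l hl M₁ _ _ _ _ _ _ _ _ _ z e he n => by
      have L1 : (1000 : ℝ) ≤ G.L l := h.L1 l
      have b : B * (‖Zg.l0 𝒜‖ + 1) ≤ G.L l := (a l hl).1.2
      have n0 := norm_nonneg (Zg.l0 𝒜)
      have u : B * ((G.L l : ℝ) ^ c) ^ 2 * ((G.L l : ℝ) ^ N)⁻¹ * (‖Zg.l0 𝒜‖ + 1) ≤ (G.L l : ℝ)⁻¹ := by
        rw [mul_right_comm, mul_right_comm B, ← div_eq_mul_inv, div_le_iff₀ (by positivity),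
          le_inv_mul_iff₀ (by positivity), ← pow_mul]
        calc _ ≤ G.L l * (G.L l * (G.L l : ℝ) ^ (c * 2)) := by gcongr
          _ = (G.L l : ℝ) ^ (c * 2 + 2) := by ring
          _ ≤ _ := pow_le_pow_right₀ (by linarith) (by omega)
      have i1 : (G.L l : ℝ)⁻¹ ≤ 1 := inv_le_one_of_one_le₀ (by linarith)
      have x0 : 0 ≤ B * ((G.L l : ℝ) ^ c) ^ 2 * ((G.L l : ℝ) ^ N)⁻¹ := by positivity
      obtain ⟨b1, -, -, b2, -⟩ := eq z (by nlinarith)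
      obtain ⟨e', m1, m2, m3⟩ := b2 e (vp_mono s4 he)
      obtain ⟨e'', m4, m5⟩ := (b1 0 z.g0 4 s4).2.2
        (av_maps (fun g => rB_vp g 4) (z.fil 0 z.g0 4 s4) he)
      obtain rfl := (b1 0 z.g0 s le_rfl).2.1 (vp_mono s4 m4) m1 (m5.trans m2.symm)
      refine ⟨_, m4, (norm_sub_le_norm_sub_add_norm_sub _ e _).trans ?_, m2⟩
      have := norm_le_norm_add_norm_sub' e (Zg.l0 𝒜)
      have := mul_le_mul_of_nonneg_left (show ‖e‖ ≤ ‖Zg.l0 𝒜‖ + 1 by linarith) x0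
      rw [LinearMap.id_apply] at m3
      rw [div_eq_mul_inv]
      linarith
  have key : ∀ l ≤ J, k ≤ l → l + w < J →
      (G.wm (3 ^ v / 2)).Po 𝒜 s C (β (3 ^ v / 2, J)) J (l + w) (√(G.L l))⁻¹ (Zg.l0 𝒜) := by
    refine dw_ind (fun _ u => by omega) fun l hl ih h1 h2 => ?_
    obtain ⟨⟨⟨⟨⟨-, top⟩, J₁, j1⟩, far⟩, -⟩, -⟩ := a l h1
    rcases le_total J J₁ with e | e
    · exact top s4 _ _ ((h.rt_up2 e).trans ((le_self_pow₀ (one_rt ..) (by omega)).trans j1.lo)) h2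
    have f := (far J₁ j1).trans e
    obtain ⟨M₁, Hs, Pr, pa, S, cp, sg, P, z, -, Q⟩ := ch l ⟨h1, hl.le⟩ ⟨J₁, e, j1.1, j1.2, j1.3⟩
    have L0 : ∀ l, 0 < (√(G.L l))⁻¹ := fun l => by have := h.L1 l; positivity
    obtain ⟨y, y1, y2⟩ := W.po (κ := (√(G.L (l + 1)))⁻¹) hs (h1.trans (l.le_add_right w)) h2.le
    have p := y2 h2 (L0 _).le ?_ (add_right_comm l 1 w ▸ ih (by omega) (by omega))
    · obtain ⟨e', m1, m2, m3⟩ := A l h1 z _ l0_vp (by simp)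
      obtain ⟨μ, u⟩ := cl_vp (av_maps (fun g => rB_vp g 4) (z.fil 0 z.g0 4 s4) l0_vp) fun g => by
        rw [← av_comm, show rB 𝒜 g (Zg.l0 𝒜) = Zg.l0 𝒜 from Zg.r0_l0 _]
      have p' := Q s4 e' m1 m2
      rw [m3, u, y1] at p'
      rw [← one_smul ℝ (Zg.l0 𝒜), y1, one_smul] at p
      have y0 := W.ok.Yr1 4 C (l + w)
      have := p.sgn (fun _ => Nat.le_add_right ..) p' (div_pos (L0 _) (by linarith)) (L0 _) ha
      rw [← one_smul ℝ (Zg.l0 𝒜), y1, ← inv_mul_cancel₀ this.ne', mul_smul]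
      exact p'.smul (inv_pos.2 this)
    have y : 192 * M ^ 2 * (G.wm (3 ^ v / 2)).Yr 4 C (l + w) ^ 6 ≤ G.L (l + w) := (a _ (by omega)).2
    have l1 : (G.L (l + 1) : ℝ) ≤ 3 * G.L (l + w) := by
      exact_mod_cast (h.L3 l).trans (Nat.mul_le_mul_left 3 (h.L_mono (l.le_add_right w)))
    have l2 := h.L1 (l + 1)
    have l3 := h.L1 (l + w)
    rw [le_inv_mul_iff₀ (by positivity)]
    refine le_of_sq_le_sq ?_ (Nat.cast_nonneg _)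
    rw [mul_pow, Real.sq_sqrt (Nat.cast_nonneg _)]
    change _ ≤ (G.L (l + w) : ℝ) ^ 2
    nlinarith [mul_le_mul l1 y (by positivity) (by positivity)]
  intro e he n μ u
  obtain ⟨e', m1, m2, m3⟩ := A k le_rfl z e he n
  obtain ⟨y, y1, -⟩ := W.po (κ := 0) hs (k.le_add_right w) (show k + w ≤ J by omega)
  have p := key k (by omega) le_rfl (by omega)
  have p' := Q s4 e' m1 m2
  have L0 : 0 < (√(G.L k))⁻¹ := by have := h.L1 k; positivity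
  rw [m3, u, y1] at p'
  rw [← one_smul ℝ (Zg.l0 𝒜), y1, one_smul] at p
  exact p.sgn (fun _ => Nat.le_add_right ..) p' L0 L0 ha

end Pool.Agent.Lib.MP_7f377f_mp.RG.Q4.En.Gl
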