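import Pool.Agent.Lib.MP_7f377f_mp.G.KsD
import Pool.Agent.Lib.MP_7f377f_mp.G.KsG

/-! The action density is positive at the top of a run. -/

noncomputable section

set_option linter.unusedSectionVars false
variable [Pool.Agent.Lib.MP_7f377f_mp.GD]

namespace Pool.Agent.Lib.MP_7f377f_mp.RG.Q4.En

open Finset Filter Topology Tl MvPolynomial Ju
open Zg (V0 Og fil u0)

attribute [local irreducible] sm

variable (𝒜 : Set CM) [Og 𝒜] [Adj 𝒜] {s : ℕ}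

theorem fd_bd {E F : Type} [NormedAddCommGroup E] [NormedSpace ℝ E] [NormedAddCommGroup F]
    [NormedSpace ℝ F] {W : Submodule ℝ E} [FiniteDimensional ℝ W] (f : W →ₗ[ℝ] F) :
    ∃ A > (0 : ℝ), ∀ e, ‖f e‖ ≤ A * ‖e‖ := f.toContinuousLinearMap.bound

theorem pv_l0 (hs : 2 ≤ s) : ∃ κ > (0 : ℝ), κ ≤ 1 ∧ Pv Jt.wt κ (sy0 s (Zg.l0 𝒜)) := by
  obtain ⟨B, B0, h⟩ := Fc_bd hs
  obtain ⟨a, ha⟩ := wt_ex hs
  have n := norm_nonneg (sy0 s (Zg.l0 𝒜))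
  have m0 : 0 < (4 * B)⁻¹ := by positivity
  refine ⟨(4 * B)⁻¹ / ((4 * B)⁻¹ + ‖sy0 s (Zg.l0 𝒜)‖), by positivity, div_le_one_of_le₀
    (by linarith) (by positivity), .of En.wt2 (sy0_mem l0_vp) m0 ha (fun x hx => ?_) ?_⟩
  · have := h x hx (∑ μ, ∑ ν, Fc s x μ ν * Fc s x μ ν) fun μ ν =>
      (sq _).trans_le ((single_le_sum (fun _ _ => mul_self_nonneg _) (mem_univ ν)).trans
        (single_le_sum (fun _ _ => sum_nonneg fun _ _ => mul_self_nonneg _) (mem_univ μ)))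
    rw [qv_sy0 hs l0_vp hx, Zg.l0, map_smul, map_sum, inv_mul_le_iff₀ (by positivity)]
    simp only [Zg.ev_f0, smul_eq_mul]
    linarith
  · rw [div_mul_eq_mul_div, div_le_iff₀ (by positivity)]
    gcongr
    linarith

namespace Gl

theorem Tk.ys_sum {α ι : Type} [Fintype α] [DecidableEq α] {G : Gl} {w d D C M c b J j ω}
    {p : ℕ → (α → ℝ) →ₗ[ℝ] V} {l U U' R δ K k} (T : G.Tk w d D C M c b J j ω p l U U')
    (J1 : G.Tj D R δ J) (d1 : 1 ≤ d) {Y : ι → Lq} (a : ∀ i, Lt1 R δ K (Y i)) (t : ι → ℂ)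
    (h1 : j ≤ k) (h2 : k ≤ J) (S : Finset ι) : G.ys w d D C c b J j p (∑ i ∈ S, t i • Y i) k =
      ∑ i ∈ S, t i • G.ys w d D C c b J j p (Y i) k := by
  induction S using Finset.cons_induction with
  | empty => simpa using T.ys_lin J1 d1 (.zero R δ) (.zero R δ) 1 h1 h2
  | cons i S hi ih => rw [sum_cons, sum_cons, add_comm, T.ys_lin J1 d1
      (.sum S fun i => (a i).smul _) (a i) _ h1 h2, ih, add_comm]

/-- the symbols at the top -/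
theorem top4 (s : ℕ) {η : ℝ} (η0 : 0 < η) : ∃ R, ∃ δ > (0 : ℝ),
    ∀ (G : Gl) D C M c b J j ω p l U U', G.Tk Jt.wt 4 D C M c b J j ω p l U U' → p J = s0 s →
      G.Tj D R δ J → ∀ e ∈ Vp 𝒜 4, G.ys Jt.wt 4 D C c b J j p (Tl.lq (lE 𝒜 e)) J ∈ W0 Jt.wt 4 ∧
        ‖(G.ka D C J ^ 2)⁻¹ • G.ys Jt.wt 4 D C c b J j p (Tl.lq (lE 𝒜 e)) J - sy0 s e‖ ≤
          η * ‖e‖ := by
  have hom : ∀ q : Vd 𝒜 4, (lE 𝒜 q.1.c).IsHomogeneous (1 + 1) := fun q =>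
    (gm_lE _).2.2 2 (vp4 (bV_ap q ▸ (bV 𝒜 4 q).2)).2
  obtain ⟨R, δ, d0, K, K1, H⟩ := ex_top (fun q : Vd 𝒜 4 => (gm_lE q.1.c).1) hom
  choose K' δ' d1 hs using fun q => sym_top (Jt.wt (s := s)) 4 (lsy (s0 s) (hom q) (H q)) d0
  obtain ⟨A, A0, hA⟩ : ∃ A > (0 : ℝ), ∀ e : Vp 𝒜 4, ‖(bV 𝒜 4).equivFun e‖ ≤ A * ‖e‖ :=
    fd_bd (bV 𝒜 4).equivFun.toLinearMap
  have ev : ∀ᶠ t in 𝓝[>] (0 : ℝ), (t ≤ δ ∧ t ≤ 1) ∧ (∀ q, t ≤ δ' q) ∧ (∑ q, |K' q|) * t * A ≤ η := by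
    refine .filter_mono nhdsWithin_le_nhds (((eventually_le_nhds d0).and
      (eventually_le_nhds one_pos)).and ((eventually_all.2 fun a => eventually_le_nhds (d1 a)).and
        ?_))
    exact (Continuous.tendsto' (f := fun t => (∑ q, |K' q|) * t * A) (by fun_prop) 0 0
      (by simp)).eventually_le_const η0
  obtain ⟨t, ⟨⟨t1, t2⟩, t3, t4⟩, t0⟩ := (ev.and self_mem_nhdsWithin).exists
  refine ⟨R, t, t0, fun G D C M c b J j ω p l U U' T hp J1 e he => ?_⟩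
  have L : ∀ q : Vd 𝒜 4, Lt1 R t K (Tl.lq (lE 𝒜 q.1.c)) := fun q =>
    lt1_of ((H q).mono le_rfl t1 le_rfl) (by norm_num) t2
  obtain ⟨u, hu⟩ : ∃ u, u = (bV 𝒜 4).equivFun ⟨e, he⟩ := ⟨_, rfl⟩
  have a := hu ▸ hA ⟨e, he⟩
  have z : e = ∑ q, u q • q.1.c := by
    have := congrArg Subtype.val ((bV 𝒜 4).sum_equivFun ⟨e, he⟩)
    simp only [Submodule.coe_sum, Submodule.coe_smul, bV_ap, ← hu] at this
    exact this.symm
  have z' : Tl.lq (lE 𝒜 e) = ∑ q, (u q : ℂ) • Tl.lq (lE 𝒜 q.1.c) := by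
    rw [z]
    simp only [map_sum, map_smul, ← Complex.coe_smul]
  have l0 := T.ok.lH0 D J
  refine ⟨(T.ls_adm J1 (by norm_num) (z' ▸ Lt1.sum univ fun q => (L q).smul _) T.hj.le
    le_rfl).elim fun _ => T.co.mem _ _ _, ?_⟩
  rw [z', T.ys_sum J1 (by norm_num) L _ T.hj.le le_rfl, congrArg (sy0 s) z, map_sum, smul_sum,
    ← sum_sub_distrib]
  refine (norm_sum_le_of_le _ (n := fun q => |K' q| * t * (A * ‖e‖)) fun q _ => ?_).trans ?_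
  · have := hs q G D C M c b J j ω p l U U' T hp (J1.mono (t3 q))
    rw [map_smul, Complex.coe_smul, smul_comm, ← smul_sub, norm_smul, mul_comm, ys, ls_top,
      ← Complex.coe_smul]
    push_cast
    exact mul_le_mul (this.trans (mul_le_mul (le_abs_self _) (by linarith [J1.2.1]) l0.le
      (abs_nonneg _))) ((norm_le_pi_norm u q).trans a) (norm_nonneg _) (by positivity)
  · rw [← sum_mul, ← sum_mul, ← mul_assoc]
    gcongr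

/-- positivity at the top -/
theorem pv_J (hs : 2 ≤ s) : ∃ κ > (0 : ℝ), κ ≤ 1 ∧ ∃ ε > (0 : ℝ), ∃ R, ∃ δ > (0 : ℝ),
    ∀ (G : Gl) D C M c b J j ω p l U U', G.Tk Jt.wt 4 D C M c b J j ω p l U U' →
      p J = s0 s → G.Tj D R δ J → ∀ e ∈ Vp 𝒜 4, ‖e - Zg.l0 𝒜‖ ≤ ε →
        Pv Jt.wt κ (G.ys Jt.wt 4 D C c b J j p (Tl.lq (lE 𝒜 e)) J) := by
  obtain ⟨κ, k0, k1, P⟩ := pv_l0 𝒜 hs
  have n := norm_pos_iff.2 P.2.1
  obtain ⟨A, A0, hA⟩ : ∃ A > (0 : ℝ), ∀ e : Vp 𝒜 4, ‖sy0 s e.1‖ ≤ A * ‖e‖ :=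
    fd_bd ((sy0 s).domRestrict (Vp 𝒜 4))
  have ev : ∀ᶠ t in 𝓝[>] (0 : ℝ), t * (‖Zg.l0 𝒜‖ + t) + A * t ≤ κ / 2 * ‖sy0 s (Zg.l0 𝒜)‖ :=
    ((Continuous.tendsto' (f := fun t => t * (‖Zg.l0 𝒜‖ + t) + A * t) (by fun_prop) 0 0
      (by simp)).eventually_le_const (by positivity)).filter_mono nhdsWithin_le_nhds
  obtain ⟨t, t1, t0⟩ := (ev.and self_mem_nhdsWithin).exists
  obtain ⟨R, δ, d0, H⟩ := top4 𝒜 s t0
  refine ⟨κ / 4, by positivity, by linarith, t, t0, R, δ, d0,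
    fun G D C M c b J j ω p l U U' T hp J1 e he a => ?_⟩
  obtain ⟨h1, h2⟩ := H G D C M c b J j ω p l U U' T hp J1 e he
  have q := pow_pos (T.ok.ka0 D C J) 2
  have h3 := hA ⟨_, sub_mem he l0_vp⟩
  have := (P.pert En.wt2 k0.le ((W0 _ 4).smul_of_tower_mem (G.ka D C J ^ 2)⁻¹ h1) (ε := κ / 2)
    ((norm_sub_le_norm_sub_add_norm_sub _ _ _).trans ((add_le_add (h2.trans
      (mul_le_mul_of_nonneg_left ((norm_le_insert' e (Zg.l0 𝒜)).trans (by gcongr)) (le_of_lt t0)))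
        ((map_sub (sy0 s) e _ ▸ h3).trans (mul_le_mul_of_nonneg_left a A0.le))).trans t1))
    (by linarith) (by linarith)).smul q
  rwa [smul_inv_smul₀ q.ne'] at this

end Gl

end Pool.Agent.Lib.MP_7f377f_mp.RG.Q4.En
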