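import Pool.Agent.Lib.MP_7f377f_mp.EmLatB

/-! Approximate Green functions on the torus with the explicit lattice kernel. -/

namespace Pool.Agent.Lib.MP_7f377f_mp.Kw

open MeasureTheory Filter Topology Weak Heat

theorem gauss_kk (d : ℕ) (hd : 2 ≤ d) :
    ∃ C a : ℝ, 0 < a ∧ (∀ (i j : Fin d) z l, |kk i j z| * (1 + |(z l : ℝ)|) ≤ C) ∧
        ∀ n : ℕ, 1 ≤ n → ∃ w h : (Fin d → ℤ) → ℝ,
          (∀ z l, (n : ℤ) < |z l| → w z = 0) ∧ (∀ z, |w z| ≤ n) ∧
          (∀ z, h z = (if z = 0 then 1 else 0) - ∑ l, dmZ (dpZ w l) l z) ∧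
          (∀ S : Finset (Fin d → ℤ), ∑ z ∈ S, |h z| ≤ C) ∧
          (∀ l (S : Finset (Fin d → ℤ)), ∑ z ∈ S, |dpZ h l z| ≤ C / n ^ a) ∧
          (∀ i j z, |dpZ (dmZ w j) i z - kk i j z| ≤ C / n ^ a) ∧
          (∀ i j x (S : Finset (Fin d → ℤ)), ∑ z ∈ S, |kk i j (z - x)| * |h z| ≤ C / n ^ a) := by
  have hd1 : 1 ≤ d := by omega
  have hs : ∀ i : Fin d, ∑ l, (Pi.single i 1 : Fin d → ℕ) l = 1 := by simp
  obtain ⟨C, hC1, hC⟩ : ∃ C : ℝ, 1 ≤ C ∧ ∀ (i j : Fin d) z l, |kk i j z| * (1 + |(z l : ℝ)|) ≤ C := by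
    let B : Fin d × Fin d → ℝ := fun p => |(∏ l, hC ((Pi.single p.1 1 : Fin d → ℕ) l +
      (Pi.single p.2 1 : Fin d → ℕ) l)) * ∫ t in Set.Ioi (0 : ℝ), (t + 1) ^ (-(3 / 2) : ℝ)|
    have hB : ∀ p, 0 ≤ B p := fun p => abs_nonneg _
    refine ⟨1 + ∑ p, B p, by linarith [Finset.sum_nonneg fun p (_ : p ∈ Finset.univ) => hB p],
      fun i j z l => ?_⟩
    have h1 := norm_K_le (Pi.single i 1) (Pi.single j 1) (by rw [hs, hs]; omega) z l
    have h2 : B (i, j) ≤ ∑ p, B p := Finset.single_le_sum (fun p _ => hB p) (Finset.mem_univ _)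
    have h3 : |kk i j z| ≤ ‖K (Pi.single i 1) (Pi.single j 1) z‖ := Complex.abs_re_le_norm _
    calc _ ≤ ‖K (Pi.single i 1) (Pi.single j 1) z‖ * (1 + |(z l : ℝ)|) := by gcongr
      _ ≤ B (i, j) := h1.trans (le_abs_self _)
      _ ≤ _ := by linarith
  have hM : (2 + 2 * d : ℝ) ≤ 3 ^ d * (2 + 2 * d) :=
    le_mul_of_one_le_left (by positivity) (one_le_pow₀ (by norm_num))
  have hM0 : (0 : ℝ) ≤ 2 + 2 * d := by positivity
  have hCC : C ≤ C * (1 + 3 ^ d * (2 + 2 * d)) := by nlinarith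
  refine ⟨C * (1 + 3 ^ d * (2 + 2 * d)), 1 / (2 * (d + 1)), by positivity,
    fun i j z l => (hC i j z l).trans hCC, fun n hn => ⟨ww d n, hh d n, ww_supp n, fun z => ?_,
      hh_eq hd1 n, fun S => (hh_l1 hd1 n S).trans (hC1.trans hCC), fun l S => ?_, fun i j z => ?_,
      fun i j x S => ?_⟩⟩
  · rw [abs_of_nonneg (ww_bound hd1 n z).1]; exact (ww_bound hd1 n z).2
  · obtain ⟨ρ, hρ⟩ := rate (d := d) hn (C := C) (by linarith)
    refine (hh_grad hd1 l hn S).trans (le_trans ?_ hρ)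
    have h1 : 0 ≤ C / (1 + ρ) := by positivity
    have h2 : (1 : ℝ) ≤ (2 * ρ + 1) ^ d := one_le_pow₀ (by linarith [Nat.cast_nonneg (α := ℝ) ρ])
    have h3 : 0 ≤ (2 + 2 * d : ℝ) / √n := by positivity
    have h4 : (2 + 2 * d : ℝ) / √n ≤ (2 * ρ + 1) ^ d * ((2 + 2 * d) / √n) :=
      le_mul_of_one_le_left h3 h2
    nlinarith
  · obtain ⟨ρ, hρ⟩ := rate (d := d) hn (C := C) (by linarith)
    refine le_trans ?_ hρ
    have h := green_id hd1 (kk_lap hd i j) (u := fun n => dpZ (dmZ (ww d n) j) i)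
      (by funext z; simp [ww, dpZ, dmZ]) (dpm_step i j) n
    have h' := congrFun h z
    simp only [Pi.sub_apply] at h'
    rw [abs_sub_comm, h']
    let g : (Fin d → ℤ) → ℝ := (fun _ => C / (1 + ρ)) + C • ∑ v ∈ box d ρ, fun z => del d (z + -v)
    have hg : ∀ z, |kk i j z| ≤ g z := fun z => by
      simpa [g] using decay_split hd1 (hC i j) ρ z
    have hg2 : (Pw d ^ n) g z ≤ C / (1 + ρ) + C * ((2 * ρ + 1) ^ d * ((2 + 2 * d) / √n)) := by
      simp only [g, map_add, map_smul, map_sum, Pn_const hd1, Pn_shift, Pi.add_apply,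
        Pi.smul_apply, Finset.sum_apply, smul_eq_mul]
      gcongr
      refine (Finset.sum_le_card_nsmul _ _ _ fun v _ => hh_sup hd1 hn (z + -v)).trans ?_
      rw [box_card, nsmul_eq_mul]; push_cast; rfl
    refine le_trans (abs_le.2 ⟨?_, ?_⟩) hg2
    · have := Pn_mono n (f := -g) (g := kk i j) (fun z => (abs_le.1 (hg z)).1) z
      rwa [map_neg] at this
    · exact Pn_mono n (fun z => (abs_le.1 (hg z)).2) z
  · obtain ⟨ρ, hρ⟩ := rate (d := d) hn (C := C) (by linarith)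
    refine le_trans ?_ hρ
    calc _ ≤ ∑ z ∈ S, (C / (1 + ρ) + C * ∑ v ∈ box d ρ, del d (z - x + -v)) * |hh d n z| :=
          Finset.sum_le_sum fun z _ => by gcongr; exact decay_split hd1 (hC i j) ρ _
      _ = C / (1 + ρ) * ∑ z ∈ S, |hh d n z| +
          C * ∑ v ∈ box d ρ, ∑ z ∈ S, del d (z - x + -v) * |hh d n z| := by
          simp only [add_mul, Finset.sum_add_distrib, Finset.mul_sum, Finset.sum_mul, mul_assoc]
          rw [Finset.sum_comm]
      _ ≤ C / (1 + ρ) * 1 + C * ((2 * ρ + 1) ^ d * ((2 + 2 * d) / √n)) := by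
          gcongr
          · exact hh_l1 hd1 n S
          · refine (Finset.sum_le_card_nsmul _ _ ((2 + 2 * d) / √n) fun v _ => ?_).trans ?_
            · calc _ ≤ ∑ z ∈ S, |del d (z + (-x + -v))| * ((2 + 2 * d) / √n) := by
                    refine Finset.sum_le_sum fun z _ => ?_
                    rw [abs_of_nonneg (del_nonneg _), abs_of_nonneg (hh_nonneg _ _),
                      sub_eq_add_neg, add_assoc]
                    exact mul_le_mul_of_nonneg_left (hh_sup hd1 hn z) (del_nonneg _)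
                _ ≤ 1 * ((2 + 2 * d) / √n) := by
                    rw [← Finset.sum_mul, sum_shift (fun z => |del d z|)]
                    gcongr; exact del_l1 _
                _ = _ := one_mul _
            · rw [box_card, nsmul_eq_mul]; push_cast; rfl
      _ = _ := by rw [mul_one]

theorem torus_kk (d : ℕ) [NeZero d] (hd : 2 ≤ d) :
    ∃ C a : ℝ, 0 < a ∧ 0 ≤ C ∧ (∀ (i j : Fin d) z l, |kk i j z| * (1 + |(z l : ℝ)|) ≤ C) ∧
        ∀ (n R L : ℕ) [NeZero L], 1 ≤ n → (n + R + 2) * 2 < L → ∃ w h : Site d L → ℝ,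
          (∀ y, w y ≠ 0 → inBox n y) ∧ (∀ y, h y ≠ 0 → inBox (n + 1) y) ∧
          ∑ y, |w y| ≤ n * (2 * n + 1) ^ d ∧ lapT w = Pi.single 0 1 - h ∧ ∑ y, |h y| ≤ C ∧
          (∀ x, ∑ y, |h (y + x) - h y| ≤ ht x * (C / n ^ a)) ∧
          (∀ i j y, |dpT i (dmT j w) y - kk i j (lift y)| ≤ C / n ^ a) ∧
          (∀ i j x, inBox R x → ∑ y, |kk i j (lift (y + x))| * |h y| ≤ C / n ^ a) := by
  obtain ⟨C, a, ha, hC, H⟩ := gauss_kk d hd
  have hC0 : 0 ≤ C := le_trans (by positivity) (hC 0 0 0 0)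
  refine ⟨C, a, ha, hC0, hC, fun n R L _ hn hL => ?_⟩
  obtain ⟨w, h, w1, w2, h1, h2, h3, h4, h5⟩ := H n hn
  have hs : ∀ z l, ((n + 1 : ℕ) : ℤ) < |z l| → h z = 0 := by
    intro z l hz
    have hz0 : z ≠ 0 := by
      rintro rfl
      simp at hz; omega
    rw [h1, if_neg hz0, Finset.sum_eq_zero, sub_zero]
    intro m _
    have e := natAbs_single m l
    rw [Int.abs_eq_natAbs] at hz
    simp only [dmZ, dpZ, sub_add_cancel]
    rw [w1 z l (by rw [Int.abs_eq_natAbs]; omega),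
      w1 (z + Pi.single m 1) l (by rw [Int.abs_eq_natAbs, Pi.add_apply]; omega),
      w1 (z - Pi.single m 1) l (by rw [Int.abs_eq_natAbs, Pi.sub_apply]; omega)]
    simp
  have box : ∀ {f : (Fin d → ℤ) → ℝ} {M : ℕ}, (∀ z l, (M : ℤ) < |z l| → f z = 0) →
      ∀ y : Site d L, f (lift y) ≠ 0 → inBox M y := by
    intro f M hf y hy l
    by_contra h'
    exact hy (hf _ l (by rw [Int.abs_eq_natAbs]; unfold lift; omega))
  have tp : ∀ {f : (Fin d → ℤ) → ℝ} {M : ℕ}, (∀ z l, (M : ℤ) < |z l| → f z = 0) → M ≤ n + 1 →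
      ∀ (y : Site d L) i, f (lift (y + Pi.single i 1)) = f (lift y + Pi.single i 1) := by
    intro f M hf hM y i
    rw [← cast_single]
    exact transfer hf (r := 1) (by omega) y _ (natAbs_single i)
  have tm : ∀ (y : Site d L) i, w (lift (y - Pi.single i 1)) = w (lift y - Pi.single i 1) := by
    intro y i
    have := transfer w1 (r := 1) (L := L) (by omega) y (-Pi.single i 1)
      (fun k => by rw [Pi.neg_apply, Int.natAbs_neg]; exact natAbs_single i k)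
    rw [sub_eq_add_neg, sub_eq_add_neg, ← this, ← cast_single]
    congr 3; funext k; simp
  have tpm : ∀ (y : Site d L) i j, w (lift (y + Pi.single i 1 - Pi.single j 1)) =
      w (lift y + Pi.single i 1 - Pi.single j 1) := by
    intro y i j
    have := transfer w1 (r := 2) (L := L) (by omega) y (Pi.single i 1 - Pi.single j 1)
      (fun k => by
        have := natAbs_single i k
        have := natAbs_single j k
        rw [Pi.sub_apply]; omega)
    rw [add_sub_assoc, add_sub_assoc, ← this, ← cast_single, ← cast_single]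
    congr 3; funext k; simp
  have e1 : ∀ i j (y : Site d L), dpT i (dmT j fun y => w (lift y)) y =
      dpZ (dmZ w j) i (lift y) := by
    intro i j y
    simp only [dpT_apply, dmT_apply, dpZ, dmZ, tpm, tm, tp w1 (Nat.le_succ n)]
  have grad : ∀ i, ∑ y : Site d L, |h (lift (y + Pi.single i 1)) - h (lift y)| ≤ C / n ^ a := by
    intro i
    simp only [tp hs le_rfl]
    exact (sum_lift fun z => |dpZ h i z|).trans_le (h3 i _)
  refine ⟨fun y => w (lift y), fun y => h (lift y), box w1, box hs, ?_, ?_,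
    (sum_lift fun z => |h z|).trans_le (h2 _), fun x => ?_, fun i j y => ?_, fun i j x hx => ?_⟩
  · classical
    calc _ = ∑ y ∈ Finset.univ.filter fun x : Site d L => inBox n x, |w (lift y)| := by
          refine (Finset.sum_filter_of_ne fun y _ hy => box w1 y ?_).symm
          exact abs_ne_zero.1 hy
      _ ≤ (Finset.univ.filter fun x : Site d L => inBox n x).card • (n : ℝ) :=
          Finset.sum_le_card_nsmul _ _ _ fun y _ => w2 _
      _ ≤ _ := by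
          rw [nsmul_eq_mul, mul_comm]
          have := card_inBox d L n
          gcongr
          exact_mod_cast this
  · funext y
    simp only [lapT, Finset.sum_apply, dmT_dpT, e1, Pi.sub_apply, h1, dm_dp]
    have : lift y = 0 ↔ y = 0 := by
      constructor
      · intro h'; apply lift_inj; rw [h']; funext k; simp [lift]
      · rintro rfl; funext k; simp [lift]
    by_cases hy : y = 0
    · rw [if_pos (this.2 hy), hy]; simp
    · rw [if_neg (mt this.1 hy), Pi.single_eq_of_ne hy]; simp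
  · induction x using site_induction with
    | h0 => simp [ht]
    | h x hx ih =>
      have step : ∑ y : Site d L, |h (lift (y + x)) - h (lift (y + par x))| ≤ C / n ^ a := by
        by_cases hf : fwd x
        · refine le_trans (le_of_eq ?_) (grad (ix x))
          refine Fintype.sum_equiv (Equiv.addRight (par x)) _ _ fun y => ?_
          simp only [Equiv.coe_addRight, add_assoc, (plink_fwd hf).2]
        · refine le_trans (le_of_eq ?_) (grad (ix x))
          refine Fintype.sum_equiv (Equiv.addRight x) _ _ fun y => ?_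
          simp only [Equiv.coe_addRight, add_assoc, (plink_bwd hf).2]
          exact abs_sub_comm _ _
      rw [← ht_par hx]
      push_cast
      calc _ ≤ ∑ y : Site d L, (|h (lift (y + x)) - h (lift (y + par x))| +
            |h (lift (y + par x)) - h (lift y)|) :=
            Finset.sum_le_sum fun y _ => abs_sub_le _ _ _
        _ ≤ _ := by rw [Finset.sum_add_distrib]; linarith
  · rw [e1]; exact h4 i j _
  · refine le_trans (le_of_eq ?_) ((sum_lift (L := L) fun z => |kk i j (z - -lift x)| * |h z|).trans_le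
      (h5 i j (-lift x) _))
    refine Finset.sum_congr rfl fun y _ => ?_
    by_cases hy : h (lift y) = 0
    · simp [hy]
    · have hb := box hs y hy
      rw [sub_neg_eq_add, ← lift_add y (lift x) fun l => ?_, cast_lift]
      have := hb l
      have := hx l
      unfold lift
      omega

variable {A : Type} [NormedRing A] [StarRing A] [NormedAlgebra ℝ A] [HS A]
variable {G : Type} [Group G] (ρ : G →* unitary A)
  [TopologicalSpace G] [IsTopologicalGroup G] [CompactSpace G]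
  [SecondCountableTopology G] [MeasurableSpace G] [BorelSpace G] (μ : Measure G)
  [μ.IsHaarMeasure] [IsProbabilityMeasure μ]

theorem gd_data (hρ : Continuous ρ) (d : ℕ) [NeZero d] (hd : 2 ≤ d) : ∃ C : ℝ, 0 ≤ C ∧
    (∀ (i j : Fin d) z, |kk i j z| ≤ C) ∧ ∀ C' : ℝ, 0 < C' → ∃ (C₀ : ℝ) (q : ℕ), 1 ≤ C₀ ∧ 1 ≤ q ∧
      ∀ (s L : ℕ) [NeZero L] (r : ℝ), 1 ≤ s → C₀ * s ^ q ≤ r → r ^ 2 ≤ L →
      ∃ (n m : ℕ) (τ W : ℝ) (w h : Site d L → ℝ), Weak.GD kk C n (2 * m + 1) (τ ^ 2) W w h ∧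
        1 ≤ r ∧ (n + (2 * m + 1) + 4) * 2 ≤ L ∧ 0 < τ ∧ C' * τ ≤ 1 / s ∧ s ≤ 2 * m + 1 ∧
        (∀ (i j : Fin d) z l, ((2 * m + 1 : ℕ) : ℤ) ≤ |z l| → |kk i j z| ≤ τ ^ 2) ∧
        ∫ U, err ρ r (n + (2 * m + 1) + 3) W U ^ 2 ∂(nu μ ρ d L (r ^ 2 / 4)) ≤ (τ ^ 2) ^ 2 := by
  obtain ⟨C, a, ha, hC, hdec, hT⟩ := torus_kk d hd
  refine ⟨C, hC, fun i j z => (le_mul_of_one_le_right (abs_nonneg _)
    (le_add_of_nonneg_right (abs_nonneg _))).trans (hdec i j z 0), fun C' hC' => ?_⟩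
  obtain ⟨Ce, hCe, hE⟩ := moment_err' ρ μ hρ d
  obtain ⟨N, hN, N1⟩ : ∃ N : ℕ, C' ≤ N ∧ 1 ≤ N :=
    ⟨⌈C'⌉₊, Nat.le_ceil _, Nat.ceil_pos.mpr hC'⟩
  obtain ⟨N₀, hN₀, N₀1⟩ : ∃ N : ℕ, C ≤ N ∧ 1 ≤ N :=
    ⟨⌈C⌉₊ + 1, (Nat.le_ceil _).trans (by push_cast; linarith), by omega⟩
  obtain ⟨q₁, hq₁, q₁4⟩ : ∃ q : ℕ, 4 ≤ q * a ∧ 4 ≤ q :=
    ⟨⌈4 / a⌉₊ + 4, by
      have := (div_le_iff₀ ha).mp (Nat.le_ceil (4 / a))
      push_cast
      linarith, by omega⟩
  obtain ⟨N₁, hN₁⟩ : ∃ x : ℕ, x = 6 * d * N₀ ^ 2 := ⟨_, rfl⟩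
  have N₁3 : 3 * N₀ ≤ N₁ := by rw [hN₁]; nlinarith
  have hc : (12 : ℝ) ≤ Ce * 25 * 33 ^ d + 12 := le_add_of_nonneg_left (by positivity)
  refine ⟨(Ce * 25 * 33 ^ d + 12) * ((N₁ * N) ^ (q₁ * (2 * d + 3)) * N ^ 2 : ℕ),
    q₁ * (2 * d + 3) + 2, ?_, by omega, ?_⟩
  · refine one_le_mul_of_one_le_of_one_le (by linarith) ?_
    exact_mod_cast Nat.mul_pos (pow_pos (Nat.mul_pos (by omega) N1) _) (pow_pos N1 _)
  intro s L _ r hs hr hrL
  obtain ⟨u, hu⟩ : ∃ u : ℕ, u = N * s := ⟨_, rfl⟩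
  obtain ⟨n, hn⟩ : ∃ n : ℕ, n = (N₁ * u) ^ q₁ := ⟨_, rfl⟩
  have u1 : 1 ≤ u := hu ▸ Nat.mul_pos N1 hs
  have su : s ≤ u := hu ▸ Nat.le_mul_of_pos_left _ N1
  have uu : u ≤ u ^ 2 := Nat.le_self_pow two_ne_zero u
  have Nu : 1 ≤ N₁ * u := Nat.mul_pos (by omega) u1
  have n4 : N₁ * u ^ 4 ≤ (N₁ * u) ^ 4 := by
    rw [mul_pow]; exact Nat.mul_le_mul_right _ (Nat.le_self_pow (by norm_num) _)
  have n1 : 1 ≤ n := hn ▸ Nat.one_le_pow _ _ Nu
  have R1 : 2 * (N₀ * u ^ 2) + 1 ≤ 3 * (N₀ * u ^ 2) := by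
    have := Nat.mul_pos N₀1 (u1.trans uu); omega
  have Rn : 2 * (N₀ * u ^ 2) + 1 ≤ n := by
    calc _ ≤ 3 * N₀ * u ^ 2 := by rw [mul_assoc]; exact R1
      _ ≤ N₁ * u ^ 4 := Nat.mul_le_mul N₁3 (Nat.pow_le_pow_right u1 (by norm_num))
      _ ≤ n := n4.trans (hn ▸ Nat.pow_le_pow_right Nu q₁4)
  have sR : s ≤ 2 * (N₀ * u ^ 2) + 1 := by
    have := Nat.le_mul_of_pos_left (u ^ 2) N₀1; omega
  have hr' : (Ce * 25 * 33 ^ d + 12) * (n ^ (2 * d + 3) * u ^ 2) ≤ r := by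
    refine le_trans (le_of_eq ?_) hr
    rw [hn, hu]; push_cast; ring
  have u1' : (1 : ℝ) ≤ u := by exact_mod_cast u1
  have n1' : (1 : ℝ) ≤ n := by exact_mod_cast n1
  have p1 : (n : ℝ) ≤ n ^ (2 * d + 3) := le_self_pow₀ n1' (by omega)
  have p2 : (u : ℝ) ≤ u ^ 2 := le_self_pow₀ u1' two_ne_zero
  have p3 : 12 * ((n : ℝ) * u) ≤ r := le_trans (by gcongr) hr'
  have p4 : (n : ℝ) ≤ n * u := le_mul_of_one_le_right (by linarith) u1'
  have p5 : (u : ℝ) ≤ n * u := le_mul_of_one_le_left (by linarith) n1'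
  have r1 : 1 ≤ r := by linarith
  have rr : r ≤ r ^ 2 := le_self_pow₀ r1 two_ne_zero
  have nL : 12 * n ≤ L := by
    have : (12 * n : ℝ) ≤ L := by linarith
    exact_mod_cast this
  obtain ⟨w, h, g1, g2, g3, g4, g5, g6, g7, g8⟩ := hT n (2 * (N₀ * u ^ 2) + 1) L n1 (by omega)
  have N₁0 : (0 : ℝ) < N₁ := by exact_mod_cast (by omega : 0 < N₁)
  have θ1 : C / n ^ a ≤ N₀ / (N₁ * u ^ 4) := by
    refine div_le_div₀ (by positivity) hN₀ (by positivity) ?_
    have Nu' : (1 : ℝ) ≤ N₁ * u := by exact_mod_cast Nu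
    calc (N₁ : ℝ) * u ^ 4 ≤ (N₁ * u) ^ 4 := by exact_mod_cast n4
      _ = (N₁ * u : ℝ) ^ ((4 : ℕ) : ℝ) := (Real.rpow_natCast _ _).symm
      _ ≤ (N₁ * u : ℝ) ^ (q₁ * a) := Real.rpow_le_rpow_of_exponent_le Nu' (by exact_mod_cast hq₁)
      _ = _ := by rw [hn, Real.rpow_mul (by positivity), Real.rpow_natCast]; push_cast; rfl
  have θ0 : 0 ≤ C / n ^ a := by positivity
  have θ2 : (6 * d * (N₀ * u ^ 2) : ℕ) * (C / n ^ a) ≤ (1 / u : ℝ) ^ 2 := by
    refine (mul_le_mul_of_nonneg_left θ1 (by positivity)).trans_eq ?_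
    have e : (N₁ : ℝ) = 6 * d * N₀ ^ 2 := by rw [hN₁]; push_cast; rfl
    have d0 : (0 : ℝ) < d := by exact_mod_cast NeZero.pos d
    have : (0 : ℝ) < N₀ := by exact_mod_cast N₀1
    push_cast
    rw [e]
    field_simp
  have θ3 : C / n ^ a ≤ (1 / u : ℝ) ^ 2 := by
    refine le_trans (le_mul_of_one_le_left θ0 ?_) θ2
    exact_mod_cast Nat.mul_pos (by omega) (Nat.mul_pos N₀1 (u1.trans uu))
  have s0 : (0 : ℝ) < s := by exact_mod_cast hs
  have fin : C' * (1 / u) ≤ 1 / s := by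
    rw [mul_one_div, div_le_div_iff₀ (by linarith) s0, hu, one_mul]
    push_cast
    gcongr
  refine ⟨n, N₀ * u ^ 2, 1 / u, _, w, h, ⟨g1, g2, g3, g4, g5, fun x hx => ?_,
    fun i j y => (g7 i j y).trans θ3, fun i j x hx => (g8 i j x hx).trans θ3⟩, r1, by omega,
    by positivity, fin, sR, fun i j z l hl => ?_, ?_⟩
  · refine (g6 x).trans (le_trans (mul_le_mul_of_nonneg_right ?_ θ0) θ2)
    exact_mod_cast (ht_le hx).trans (by nlinarith)
  · have h1 : ((2 * (N₀ * u ^ 2) + 1 : ℕ) : ℝ) ≤ |(z l : ℝ)| := by exact_mod_cast hl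
    have h2 := (hdec i j z l).trans hN₀
    have : (0 : ℝ) < N₀ := by exact_mod_cast N₀1
    push_cast at h1
    rw [one_div, inv_pow, ← one_div, le_div_iff₀ (by positivity)]
    refine le_of_mul_le_mul_left (le_trans ?_ (h2.trans_eq (mul_one _).symm)) this
    have h3 : (N₀ : ℝ) * u ^ 2 ≤ 1 + |(z l : ℝ)| := by
      have : (0 : ℝ) ≤ N₀ * u ^ 2 := by positivity
      linarith
    have := mul_le_mul_of_nonneg_left h3 (abs_nonneg (kk i j z))
    linarith
  · refine (hE L r (by linarith) hrL _ _).trans (pow_le_pow_left₀ (by positivity) ?_ 2)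
    have M5 : ((n + (2 * (N₀ * u ^ 2) + 1) + 3 : ℕ) : ℝ) ≤ 5 * n := by
      exact_mod_cast (by omega : n + (2 * (N₀ * u ^ 2) + 1) + 3 ≤ 5 * n)
    have M0 : (0 : ℝ) ≤ ((n + (2 * (N₀ * u ^ 2) + 1) + 3 : ℕ) : ℝ) := by positivity
    generalize ((n + (2 * (N₀ * u ^ 2) + 1) + 3 : ℕ) : ℝ) = M at M5 M0 ⊢
    rw [one_div, inv_pow, ← one_div, div_le_div_iff₀ (by linarith) (by positivity), one_mul]
    refine le_trans ?_ hr'
    calc _ ≤ Ce * (5 * n) ^ 2 * (11 * n) ^ d * (n * (3 * n) ^ d) * u ^ 2 := by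
          gcongr <;> linarith
      _ = Ce * 25 * 33 ^ d * (n ^ (2 * d + 3) * u ^ 2) := by
          rw [show (33 : ℝ) = 11 * 3 by norm_num]; simp only [mul_pow]; ring
      _ ≤ _ := by gcongr; linarith

end Pool.Agent.Lib.MP_7f377f_mp.Kw
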