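import Pool.Agent.Lib.MP_7f377f_mp.G.KwA

/-! The Stein identity for monomials in the components of the curvature in the comb gauge. -/

namespace Pool.Agent.Lib.MP_7f377f_mp.Kw

open MeasureTheory Filter Topology Weak HS
open scoped InnerProductSpace

set_option linter.unusedSectionVars false

theorem iss_alg {ι : Type} [DecidableEq ι] (C : ι → ι → ℝ) (M w : Finset ι → ℝ) {B δ : ℝ} {m : ℕ}
    (B0 : 0 ≤ B) (δ0 : 0 ≤ δ) (hC : ∀ i j, |C i j| ≤ B) (h0 : M ∅ = w ∅)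
    (hw : ∀ j S, j ∉ S → w (insert j S) = ∑ i ∈ S, C j i * w (S.erase i))
    (hM : ∀ j S, j ∉ S → S.card ≤ m → |M (insert j S) - ∑ i ∈ S, C j i * M (S.erase i)| ≤ δ)
    (S : Finset ι) (hS : S.card ≤ m) : |M S - w S| ≤ (1 + m * B) ^ S.card * δ := by
  have h1 : (1 : ℝ) ≤ 1 + m * B := le_add_of_nonneg_right (by positivity)
  induction hn : S.card using Nat.strong_induction_on generalizing S with
  | _ n ih =>
    rcases S.eq_empty_or_nonempty with rfl | ⟨j, hj⟩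
    · rw [h0, sub_self, abs_zero]
      positivity
    obtain ⟨T, hT, rfl⟩ : ∃ T, j ∉ T ∧ S = insert j T :=
      ⟨S.erase j, Finset.notMem_erase j S, (Finset.insert_erase hj).symm⟩
    rw [Finset.card_insert_of_notMem hT] at hn hS
    have a1 := hM j T hT (by omega)
    have a2 : |∑ i ∈ T, C j i * M (T.erase i) - w (insert j T)| ≤
        m * B * ((1 + m * B) ^ T.card * δ) := by
      rw [hw j T hT, ← Finset.sum_sub_distrib]
      refine (Finset.abs_sum_le_sum_abs _ _).trans ((Finset.sum_le_card_nsmul _ _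
        (B * ((1 + m * B) ^ T.card * δ)) fun i hi => ?_).trans ?_)
      · have e := Finset.card_erase_of_mem hi
        have := Finset.card_pos.2 ⟨i, hi⟩
        rw [← mul_sub, abs_mul]
        refine mul_le_mul (hC j i) ((ih _ (by omega) _ (by omega) rfl).trans ?_) (abs_nonneg _) B0
        exact mul_le_mul_of_nonneg_right (pow_le_pow_right₀ h1 (by omega)) δ0
      · rw [nsmul_eq_mul, mul_assoc]
        exact mul_le_mul_of_nonneg_right (by exact_mod_cast (by omega : T.card ≤ m))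
          (by positivity)
    have a3 : δ ≤ (1 + m * B) ^ T.card * δ := le_mul_of_one_le_left δ0 (one_le_pow₀ h1)
    refine (abs_sub_le _ _ _).trans ((add_le_add a1 a2).trans ?_)
    rw [← hn, pow_succ]
    linarith

variable {d L : ℕ} [NeZero L] [NeZero d]
variable {A : Type} [NormedRing A] [StarRing A] [NormedAlgebra ℝ A] [HS A]
variable {G : Type} [Group G] (ρ : G →* unitary A)
  [TopologicalSpace G] [IsTopologicalGroup G] [CompactSpace G]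
  [SecondCountableTopology G] [MeasurableSpace G] [BorelSpace G] (μ : Measure G)
  [μ.IsHaarMeasure] [IsProbabilityMeasure μ] {ι : Type} [DecidableEq ι]

theorem stein_Y (hρ : Continuous ρ) {r : ℝ} (hr : 0 < r) {R : ℕ} (hR : (R + 4) * 2 ≤ L)
    {w : Site d L → ℝ} (hw : ∀ y, w y ≠ 0 → inBox R y) {W : ℝ} (hW : ∑ y, |w y| ≤ W)
    (a : Fin d × Fin d) {v : A} (hv : v ∈ lieAlg ρ) (hv1 : ‖v‖ = 1) (u : ι → A)
    (p : ι → Plaq d L) (hp : ∀ i, inBox (R + 2) (p i).1) {B : ℝ} (hu : ∀ i, ‖u i‖ ≤ B)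
    {Ξ : (Link d L → G) → ℝ} (hΞ : Continuous Ξ) (h1 : ∀ U, 1 ≤ Ξ U)
    (hZ : ∀ i U, |⟪u i, ZU ρ r (p i) U⟫_ℝ| ≤ Ξ U) (S : Finset ι) {m : ℕ} (hS : S.card ≤ m) :
    |∫ U, (⟪v, YU ρ r (lapT w) a U⟫_ℝ * ∏ i ∈ S, ⟪u i, ZU ρ r (p i) U⟫_ℝ -
        ∑ j ∈ S, KT w a (p j) * ⟪u j, v⟫_ℝ * ∏ i ∈ S.erase j, ⟪u i, ZU ρ r (p i) U⟫_ℝ)
        ∂(nu μ ρ d L (r ^ 2 / 4))| ≤
      (1 + S.card * B) * ∫ U, err ρ r (R + 3) W U * Ξ U ^ m ∂(nu μ ρ d L (r ^ 2 / 4)) := by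
  set ψ := psiW (r⁻¹ • w) a with hψ
  set f : (Link d L → A) → ℝ := fun B => ∏ i ∈ S, ⟪u i, ZA ρ r (p i) B⟫_ℝ with hf
  have cf : ContDiff ℝ 1 f := contDiff_prod fun i _ => contDiff_const.inner ℝ (contDiff_ZA ρ r _)
  have fU : ∀ U, f (rU ρ U) = ∏ i ∈ S, ⟪u i, ZU ρ r (p i) U⟫_ℝ := fun U => by
    simp only [hf, ZA_rU]
  have c1 := continuous_DD ρ hρ ψ v cf
  have c2 := continuous_DD ρ hρ ψ v (contDiff_actA (A := A) (d := d) (L := L))
  have c3 : Continuous fun U : Link d L → G => f (rU ρ U) * (r ^ 2 / 4 * DD ρ ψ v actA U) :=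
    (cf.continuous.comp (continuous_rU ρ hρ)).mul (continuous_const.mul c2)
  have sd : ∫ U, (f (rU ρ U) * (r ^ 2 / 4 * DD ρ ψ v actA U) - DD ρ ψ v f U)
      ∂(nu μ ρ d L (r ^ 2 / 4)) = 0 := by
    rw [integral_sub (cint _ c3) (cint _ c1), sd_nu ρ μ hρ _ ψ (lieAlg_exp ρ hρ hv) cf
      fun h U h0 => by simp only [fU, ZU_gauge ρ r _ h0], sub_self]
  have cZ := continuous_ZU (d := d) (L := L) ρ hρ r
  have cY := continuous_YU ρ hρ r (lapT w) a
  have ce := continuous_err (d := d) (L := L) ρ hρ r (R + 3) W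
  have W0 : 0 ≤ W := (Finset.sum_nonneg fun _ _ => abs_nonneg _).trans hW
  rw [← sub_zero (∫ U, _ ∂_), ← sd, ← integral_sub (cint _ (by fun_prop)) (cint _ (c3.fun_sub c1)),
    ← integral_const_mul]
  refine abs_int_le _ (by fun_prop) fun U => ?_
  have a1 := est_act ρ hρ hr hR hw hW a hv hv1 U
  have dZ := fun q => DD_deriv ρ ψ v (contDiff_ZA ρ r q) U
  have a2 := (DD_deriv ρ ψ v cf U).unique (HasDerivAt.fun_finsetProd (u := S)
    fun i _ => (hasDerivAt_const _ (u i)).inner ℝ (dZ (p i)))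
  have zf : ∀ q, ZU ρ r q (fix U) = ZU ρ r q U := fun q => ZU_gauge ρ r q (cmb_zero _ _) U
  simp only [flow_zero, ZA_rU, inner_zero_left, add_zero, zf, smul_eq_mul] at a2
  have e0 := err_nonneg ρ hr (R + 3) W0 U
  have Ξ0 : 0 ≤ Ξ U ^ m := pow_nonneg (by linarith [h1 U]) _
  have a3 : |DD ρ ψ v f U - ∑ j ∈ S, KT w a (p j) * ⟪u j, v⟫_ℝ *
      ∏ i ∈ S.erase j, ⟪u i, ZU ρ r (p i) U⟫_ℝ| ≤ S.card * (B * err ρ r (R + 3) W U * Ξ U ^ m) := by
    rw [a2, ← Finset.sum_sub_distrib, ← nsmul_eq_mul]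
    refine (Finset.abs_sum_le_sum_abs _ _).trans (Finset.sum_le_card_nsmul _ _ _ fun j hj => ?_)
    rw [mul_comm (∏ _ ∈ _, _), ← sub_mul, abs_mul, ← real_inner_smul_right, ← inner_sub_right]
    have B0 := (norm_nonneg _).trans (hu j)
    exact mul_le_mul ((abs_real_inner_le_norm _ _).trans (mul_le_mul (hu j)
      (est_Z ρ hρ hr hR w hW a hv hv1 U (hp j)) (norm_nonneg _) B0))
      (abs_prod_le _ _ (h1 U) (fun i => hZ i U) (Finset.card_erase_le.trans hS)) (abs_nonneg _)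
      (mul_nonneg B0 e0)
  have a4 : |f (rU ρ U)| ≤ Ξ U ^ m := fU U ▸ abs_prod_le S _ (h1 U) (fun i => hZ i U) hS
  have a5 := mul_le_mul a4 a1 (abs_nonneg _) Ξ0
  rw [← abs_mul] at a5
  rw [← fU]
  have : ∀ F Y M T D : ℝ, Y * F - M - (F * T - D) = (D - M) - F * (T - Y) := fun _ _ _ _ _ => by
    ring
  rw [this]
  refine (abs_sub _ _).trans ?_
  linarith

variable {k : Fin d → Fin d → (Fin d → ℤ) → ℝ} {C : ℝ} {n R : ℕ} {t W : ℝ} {w h : Site d L → ℝ}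

theorem stein (g : Weak.GD k C n R t W w h) (hρ : Continuous ρ) {r : ℝ} (hr : 0 < r)
    (hR : (n + R + 4) * 2 ≤ L) {δ : ℝ} (hδ : 0 < δ) (htδ : t ≤ δ)
    (he : ∫ U, err ρ r (n + R + 3) W U ^ 2 ∂(nu μ ρ d L (r ^ 2 / 4)) ≤ δ ^ 2)
    (hH : ∀ x, inBox R x → ∀ a, ∫ U, ‖YU ρ r (trl x h) a U‖ ^ 2 ∂(nu μ ρ d L (r ^ 2 / 4)) ≤ δ ^ 2)
    (u : ι → A) (hl : ∀ i, u i ∈ lieAlg ρ) (p : ι → Plaq d L) (hp : ∀ i, inBox R (p i).1) {B : ℝ}
    (hu : ∀ i, ‖u i‖ ≤ B) {Ξ : (Link d L → G) → ℝ} (hΞ : Continuous Ξ) (h1 : ∀ U, 1 ≤ Ξ U)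
    (hZ : ∀ i U, |⟪u i, ZU ρ r (p i) U⟫_ℝ| ≤ Ξ U) {m : ℕ} {c : ℝ}
    (hc : ∫ U, (Ξ U ^ m) ^ 2 ∂(nu μ ρ d L (r ^ 2 / 4)) ≤ c) (j : ι) (S : Finset ι)
    (hS : S.card ≤ m) :
    |∫ U, ⟪u j, ZU ρ r (p j) U⟫_ℝ * ∏ i ∈ S, ⟪u i, ZU ρ r (p i) U⟫_ℝ ∂(nu μ ρ d L (r ^ 2 / 4)) -
      ∑ i ∈ S, ⟪u j, u i⟫_ℝ * kP k (p j) (p i) *
        ∫ U, ∏ l ∈ S.erase i, ⟪u l, ZU ρ r (p l) U⟫_ℝ ∂(nu μ ρ d L (r ^ 2 / 4))| ≤
      B * ((1 + 5 * m * B) * (1 + c) * δ) := by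
  have := nu_prob (d := d) (L := L) μ ρ hρ (r ^ 2 / 4)
  have B0 := (norm_nonneg _).trans (hu j)
  have c0 : 0 ≤ c := (integral_nonneg fun U => sq_nonneg _).trans hc
  by_cases h0 : u j = 0
  · simp only [h0, inner_zero_left, zero_mul, integral_zero, Finset.sum_const_zero, sub_zero,
      abs_zero]
    positivity
  obtain ⟨v, hv, hv1, e⟩ : ∃ v, v ∈ lieAlg ρ ∧ ‖v‖ = 1 ∧ u j = ‖u j‖ • v :=
    ⟨‖u j‖⁻¹ • u j, Submodule.smul_mem _ _ (hl j), norm_smul_inv_norm h0, by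
      rw [smul_inv_smul₀ (norm_ne_zero_iff.2 h0)]⟩
  rw [e]
  simp only [real_inner_smul_left, mul_assoc, integral_const_mul, ← Finset.mul_sum]
  rw [← mul_sub, abs_mul, abs_norm]
  refine mul_le_mul (hu j) ?_ (abs_nonneg _) B0
  have cZ := continuous_ZU (d := d) (L := L) ρ hρ r
  have cY := continuous_YU (d := d) (L := L) ρ hρ r
  have a1 := stein_Y ρ μ hρ hr hR (trl_supp g.sw (hp j)) (W := W)
    (by rw [← sum_trl (p j).1]; simpa [trl] using g.w1) (p j).2 hv hv1 u p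
    (fun i => inBox_mono (by omega) (hp i)) hu hΞ h1 hZ S hS
  have a2 := cs_small _ (continuous_err ρ hρ r _ W) (g := fun U => Ξ U ^ m) (by fun_prop) hδ he hc
  have a3 := cs_small _ (f := fun U => ‖YU ρ r (trl (p j).1 h) (p j).2 U‖)
    (g := fun U => Ξ U ^ m) (by fun_prop) (by fun_prop) hδ (hH _ (hp j) _) hc
  have a4 : ∫ U, Ξ U ^ m ∂(nu μ ρ d L (r ^ 2 / 4)) ≤ c :=
    (integral_mono (g := fun U => (Ξ U ^ m) ^ 2) (cint _ (hΞ.pow _)) (cint _ ((hΞ.pow _).pow _))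
      fun U => le_self_pow₀ (one_le_pow₀ (h1 U)) two_ne_zero).trans hc
  have Sm : (S.card : ℝ) ≤ m := by exact_mod_cast hS
  have a5 := abs_int_le (nu μ ρ d L (r ^ 2 / 4))
    (f := fun U => ⟪v, YU ρ r (trl (p j).1 h) (p j).2 U⟫_ℝ * ∏ i ∈ S, ⟪u i, ZU ρ r (p i) U⟫_ℝ +
      ∑ i ∈ S, (KT (trl (p j).1 w) (p j).2 (p i) - kP k (p j) (p i)) * ⟪u i, v⟫_ℝ *
        ∏ l ∈ S.erase i, ⟪u l, ZU ρ r (p l) U⟫_ℝ)
    (g := fun U => ‖YU ρ r (trl (p j).1 h) (p j).2 U‖ * Ξ U ^ m + m * (4 * δ * B) * Ξ U ^ m)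
    (by fun_prop) fun U => by
      have Ξ0 : 0 ≤ Ξ U ^ m := pow_nonneg (by linarith [h1 U]) _
      refine (abs_add_le _ _).trans (add_le_add ?_ ?_)
      · rw [abs_mul]
        exact mul_le_mul ((abs_real_inner_le_norm _ _).trans_eq (by rw [hv1, one_mul]))
          (abs_prod_le S _ (h1 U) (fun i => hZ i U) hS) (abs_nonneg _) (norm_nonneg _)
      refine (Finset.abs_sum_le_sum_abs _ _).trans ((Finset.sum_le_card_nsmul _ _
        (4 * δ * B * Ξ U ^ m) fun i _ => ?_).trans ?_)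
      · rw [abs_mul, abs_mul]
        exact mul_le_mul (mul_le_mul ((g.KT_near _ _ _).trans (by linarith))
          ((abs_real_inner_le_norm _ _).trans (by rw [hv1, mul_one]; exact hu i)) (abs_nonneg _)
          (by positivity)) (abs_prod_le _ _ (h1 U) (fun i => hZ i U)
          (Finset.card_erase_le.trans hS)) (abs_nonneg _) (by positivity)
      · rw [nsmul_eq_mul, mul_assoc (m : ℝ)]
        gcongr
  rw [integral_add (cint _ (by fun_prop)) (cint _ (by fun_prop)) (f := fun U =>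
    ‖YU ρ r (trl (p j).1 h) (p j).2 U‖ * Ξ U ^ m), integral_const_mul] at a5
  have a6 := (abs_add_le _ _).trans (add_le_add a1 a5)
  rw [← integral_add (cint _ (by fun_prop)) (cint _ (by fun_prop))] at a6
  refine le_trans (le_of_eq ?_) (a6.trans ?_)
  · congr 1
    simp only [← integral_const_mul]
    rw [← integral_finsetSum _ fun i _ => cint _ (by fun_prop),
      ← integral_sub (cint _ (by fun_prop)) (cint _ (by fun_prop))]
    refine integral_congr_ae (Eventually.of_forall fun U => ?_)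
    simp only [g.YU_lap, inner_sub_right, sub_mul, Finset.sum_sub_distrib, real_inner_comm v,
      mul_left_comm ⟪v, _⟫_ℝ, mul_assoc]
    ring
  · have b1 := mul_le_mul (add_le_add_right (mul_le_mul_of_nonneg_right Sm B0) 1) a2
      (integral_nonneg fun U => mul_nonneg (err_nonneg ρ hr _ ((Finset.sum_nonneg fun _ _ =>
        abs_nonneg _).trans g.w1) U) (pow_nonneg (by linarith [h1 U]) _)) (by positivity)
    have b2 := mul_le_mul_of_nonneg_left a4 (show 0 ≤ m * (4 * δ * B) by positivity)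
    have b3 : 0 ≤ m * B * δ := by positivity
    have b4 : 0 ≤ m * B * δ * c := by positivity
    nlinarith

end Pool.Agent.Lib.MP_7f377f_mp.Kw
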