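import Pool.Agent.Lib.MP_7f377f_mp.G.KwC

/-! The Wick theorem for linear combinations of plaquettes, Wick ordering, scaling limits. -/

noncomputable section

namespace Pool.Agent.Lib.MP_7f377f_mp.Kw

open MeasureTheory Filter Topology Weak HS MvPolynomial
open Zf (wk ex E D sy)
open Finsupp (linearCombination)
open scoped InnerProductSpace

set_option linter.unusedSectionVars false

section algebra
variable {σ τ ι κ K : Type} [Field K] [CharZero K]

theorem ex_mul (f : σ → τ) (B : τ → τ → K) {Q : MvPolynomial τ K}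
    (h : ∀ r, D (sy B (f r)) Q = 0) (P : MvPolynomial σ K) :
    ex B (rename f P * Q) = rename f (ex (fun p q => B (f p) (f q)) P) * ex B Q := by
  refine Zf.ind ((ex B ∘ₗ LinearMap.mulRight K Q ∘ₗ (rename f).toLinearMap).eqLocus
    (LinearMap.mulRight K (ex B Q) ∘ₗ (rename f).toLinearMap ∘ₗ ex fun p q => B (f p) (f q)))
    (by simp) (fun r P a b => ?_) P
  have c : D (sy B (f r)) (rename f P) = rename f (D (sy (fun p q => B (f p) (f q)) r) P) :=
    Zf.D_map (rename f) (fun q => by simp [sy]) P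
  have b := b (sy (fun p q => B (f p) (f q)) r)
  simp only [LinearMap.mem_eqLocus, LinearMap.comp_apply, AlgHom.toLinearMap_apply,
    LinearMap.mulRight_apply, map_mul, rename_X, mul_assoc, Zf.ex_X_mul, map_add, add_mul] at a b ⊢
  rw [a, ← b, Derivation.leibniz, h, c, smul_zero, zero_add, smul_eq_mul, mul_comm Q]

/-- the diagonal kernel -/
def dg [DecidableEq ι] (B : κ → κ → K) (p q : ι × κ) : K := if p.1 = q.1 then B p.2 q.2 else 0

theorem ex_prod [DecidableEq ι] (B : κ → κ → K) (c : ι → MvPolynomial κ K) (S : Finset ι) :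
    ex (dg B) (∏ i ∈ S, rename (Prod.mk i) (c i)) = ∏ i ∈ S, rename (Prod.mk i) (ex B (c i)) := by
  induction S using Finset.induction_on with
  | empty => simp
  | insert j S hj ih =>
    rw [Finset.prod_insert hj, Finset.prod_insert hj, ex_mul _ _ fun r => ?_, ih]
    · simp only [dg, if_true]
    refine derivation_eq_zero_of_forall_mem_vars fun q hq => ?_
    classical
    obtain ⟨i, hi, e⟩ := Finset.mem_biUnion.1 (vars_prod _ hq)
    obtain ⟨u, -, rfl⟩ := mem_vars_rename _ _ e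
    have : j ≠ i := fun e => hj (e ▸ hi)
    simp [sy, dg, this, this.symm]

/-- dilations -/
def sc (w : σ → ℕ) (t : K) : MvPolynomial σ K →ₐ[K] MvPolynomial σ K :=
  aeval fun u => t ^ w u • X u

theorem sc_mono (w : σ → ℕ) (t : K) (m : σ →₀ ℕ) (a : K) :
    sc w t (monomial m a) = t ^ Finsupp.weight w m • monomial m a := by
  simp only [sc, monomial_eq, map_mul, aeval_C, Finsupp.prod, map_prod, map_pow, aeval_X, smul_pow,
    Finset.prod_smul, ← pow_mul, Finset.prod_pow_eq_pow_sum, mul_smul_comm, algebraMap_eq,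
    Finsupp.weight_apply, Finsupp.sum, smul_eq_mul, mul_comm (m _)]

theorem E_sc (w : σ → ℕ) (t : K) (C : σ → σ → K) (P : MvPolynomial σ K) :
    E C (sc w t P) = E (fun p q => t ^ (w p + w q) * C p q) P :=
  Zf.E_map _ (fun q => by simpa [sc] using Submodule.smul_mem _ _ (Zf.X_mem_Lin q))
    (fun p q => by simp [sc, Zf.E_X_X, sy]; ring) P

theorem sc_rn (w : κ → ℕ) (t : K) (i : ι) (P : MvPolynomial κ K) :
    sc (fun u : ι × κ => w u.2) t (rename (Prod.mk i) P) = rename (Prod.mk i) (sc w t P) :=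
  DFunLike.congr_fun (algHom_ext (f := (sc (fun u : ι × κ => w u.2) t).comp (rename (Prod.mk i)))
    (g := (rename (Prod.mk i)).comp (sc w t)) fun u => by simp [sc]) P

theorem E_tendsto {T : Type} {F : Filter T} {C : T → σ → σ → ℝ} {C' : σ → σ → ℝ}
    (h : ∀ p q, Tendsto (fun t => C t p q) F (𝓝 (C' p q))) (P : MvPolynomial σ ℝ) :
    Tendsto (fun t => E (C t) P) F (𝓝 (E C' P)) :=
  Zf.E_mem (Y := Option T) (p := fun f => Tendsto (fun t => f (some t)) F (𝓝 (f none)))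
    (fun _ => tendsto_const_nhds) (fun _ _ => .add) (fun _ _ => .mul) (fun o => o.elim C' C)
    (fun p q => (h p q).add (h q p)) P

end algebra

variable {d : ℕ} [NeZero d]
variable {A : Type} [NormedRing A] [StarRing A] [NormedAlgebra ℝ A] [HS A]
variable {G : Type} [Group G] (ρ : G →* unitary A) {σ ι κ : Type}

theorem Sm.abs {e : ∀ (L : ℕ) [NeZero L], ℝ → (ι → Fin d → ℤ) → ℝ} (h : Sm e) :
    Sm fun L _ r x => |e L r x| := by simpa only [Sm, abs_abs] using h

/-- small quantities tend to zero faster than any given power -/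
theorem Sm.lim {e : ∀ (L : ℕ) [NeZero L], ℝ → (ι → Fin d → ℤ) → ℝ} [Finite ι] (h : Sm e) (N : ℕ) :
    ∃ C : ℕ, ∀ {T : Type} {F : Filter T} (ε r : T → ℝ) (L : T → ℕ) [∀ t, NeZero (L t)]
      (x : T → ι → Fin d → ℤ), Tendsto ε F (𝓝[>] 0) →
      (∀ᶠ t in F, (ε t)⁻¹ ^ C ≤ r t ∧ r t ^ 2 ≤ L t) → (∀ i l, ∀ᶠ t in F, ε t ^ 2 * |(x t i l : ℝ)| ≤ 1) →
      Tendsto (fun t => (ε t)⁻¹ ^ N * e (L t) (r t) (x t)) F (𝓝 0) := by
  obtain ⟨C₀, q, C1, q1, h⟩ := h
  refine ⟨(N + 2) * q + 1, fun ε r L _ x hε hr hx => ?_⟩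
  have hE := tendsto_inv_nhdsGT_zero.comp hε
  refine squeeze_zero_norm' ?_ (tendsto_nhdsWithin_iff.1 hε).1
  filter_upwards [hr, eventually_all.2 fun i => eventually_all.2 (hx i),
    hE.eventually_ge_atTop (C₀ * 2 ^ q), hE.eventually_ge_atTop 1,
    (tendsto_nhdsWithin_iff.1 hε).2] with t h1 h2 h3 h4 h5
  have e0 : 0 < ε t := h5
  obtain ⟨E, hE, e⟩ : ∃ E, (ε t)⁻¹ = E ∧ ε t = E⁻¹ := ⟨_, rfl, (inv_inv _).symm⟩
  simp only [Function.comp, hE] at h1 h3 h4 ⊢
  have Ep : 1 ≤ E ^ (N + 2) := one_le_pow₀ h4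
  obtain ⟨s, hs1, hs2⟩ : ∃ s : ℕ, E ^ (N + 2) ≤ s ∧ s ≤ 2 * E ^ (N + 2) :=
    ⟨⌈E ^ (N + 2)⌉₊, Nat.le_ceil _, by linarith [Nat.ceil_lt_add_one (zero_le_one.trans Ep)]⟩
  have := h s (L t) (r t) (x t) (by exact_mod_cast Ep.trans hs1) (le_trans (by
    calc _ ≤ C₀ * (2 * E ^ (N + 2)) ^ q := by gcongr
      _ = E ^ ((N + 2) * q) * (C₀ * 2 ^ q) := by rw [mul_pow, ← pow_mul]; ring
      _ ≤ _ := by rw [pow_succ]; gcongr) h1.1) h1.2 fun i l => by
    have h6 := h2 i l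
    rw [e, inv_pow, inv_mul_le_iff₀ (by positivity), mul_one] at h6
    have := h6.trans ((pow_le_pow_right₀ h4 (Nat.le_add_left 2 N)).trans hs1)
    rw [← Int.cast_abs, ← Nat.cast_natAbs] at this
    exact_mod_cast this
  rw [norm_mul, Real.norm_of_nonneg (by positivity), e]
  refine (mul_le_mul_of_nonneg_left (this.trans (one_div_le_one_div_of_le (by positivity) hs1))
    (by positivity)).trans ?_
  rw [mul_one_div, div_le_iff₀ (by positivity), pow_succ, ← mul_assoc, mul_right_comm,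
    inv_mul_cancel₀ (by positivity), one_mul]
  exact pow_le_pow_right₀ h4 N.le_succ

/-- a linear combination of plaquettes seen from the site `x` -/
def ll {L : ℕ} [NeZero L] (r : ℝ) (v : A) (f : PZ d →₀ ℝ) (x : Fin d → ℤ) (U : Link d L → G) : ℝ :=
  linearCombination ℝ (fun p => lt ρ r v (x + p.1, p.2) U) f

/-- the propagator from `f` at the origin to `g` at `z` -/
def kl (z : Fin d → ℤ) (f g : PZ d →₀ ℝ) : ℝ := linearCombination ℝ
  (fun p => linearCombination ℝ (fun q => kM kk (z + q.1 - p.1) p.2 q.2) g) f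

theorem kl_neg (z : Fin d → ℤ) (f g : PZ d →₀ ℝ) : kl (-z) g f = kl z f g := by
  simp only [kl, Finsupp.linearCombination_apply, Finsupp.sum, smul_eq_mul, Finset.mul_sum]
  rw [Finset.sum_comm]
  refine Finset.sum_congr rfl fun p _ => Finset.sum_congr rfl fun q _ => ?_
  rw [← kM_neg, mul_left_comm]
  congr 3
  abel

variable [TopologicalSpace G] [IsTopologicalGroup G] [CompactSpace G]
  [SecondCountableTopology G] [MeasurableSpace G] [BorelSpace G] (μ : Measure G)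
  [μ.IsHaarMeasure] [IsProbabilityMeasure μ]

theorem continuous_ll (hρ : Continuous ρ) {L : ℕ} [NeZero L] (r : ℝ) (v : A) (f : PZ d →₀ ℝ)
    (x : Fin d → ℤ) : Continuous (ll (L := L) ρ r v f x) :=
  continuous_finsetSum _ fun p _ => (continuous_lt ρ hρ r _ _).fun_const_smul (f p)

theorem wick_lin (hρ : Continuous ρ) (hd : 2 ≤ d) (ϖ : σ → ι) (v : σ → A)
    (hv : ∀ u, v u ∈ lieAlg ρ) (f : σ → PZ d →₀ ℝ) (P : MvPolynomial σ ℝ) : Sm fun L _ r x =>
      ∫ U, eval (fun u => ll ρ r (v u) (f u) (x (ϖ u)) U) P ∂(nu μ ρ d L (r ^ 2 / 4)) -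
        wk (fun u u' => ⟪v u, v u'⟫_ℝ * kl (x (ϖ u') - x (ϖ u)) (f u) (f u')) P := by
  set φ : MvPolynomial σ ℝ →ₐ[ℝ] MvPolynomial (σ × PZ d) ℝ :=
    aeval fun u => linearCombination ℝ (fun p => X (u, p)) (f u) with hφ
  refine (congrArg Sm ?_).mp (wick ρ μ hρ hd (fun u : σ × PZ d => ϖ u.1) (fun u => v u.1)
    (fun u => hv _) (fun u => u.2) (φ P))
  funext L _ r x
  congr 1
  · refine integral_congr_ae (.of_forall fun U => ?_)
    simp only [← coe_aeval_eq_eval, RingHom.coe_coe, ← AlgHom.comp_apply]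
    congr 1
    refine algHom_ext fun u => ?_
    simp [hφ, ll, Finsupp.linearCombination_apply, Finsupp.sum]
  · rw [Zf.wk_eq, Zf.wk_eq]
    refine Zf.E_map φ (fun u => ?_) (fun u u' => ?_) P
    · rw [hφ, aeval_X]
      exact Submodule.sum_mem _ fun p _ => Submodule.smul_mem _ _ (Zf.X_mem_Lin _)
    · rw [Zf.sy_half fun u u' => by rw [← kl_neg, neg_sub, real_inner_comm]]
      simp only [hφ, aeval_X, Finsupp.linearCombination_apply, Finsupp.sum, Finset.sum_mul_sum,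
        map_sum, smul_mul_smul_comm, map_smul, Zf.E_X_X, Zf.sy_half (cz_symm _ _)]
      simp only [cz, smul_eq_mul, kl, Finsupp.linearCombination_apply, Finsupp.sum, Finset.mul_sum]
      refine Finset.sum_congr rfl fun p _ => Finset.sum_congr rfl fun q _ => ?_
      rw [show x (ϖ u') - x (ϖ u) + q.1 - p.1 = x (ϖ u') + q.1 - (x (ϖ u) + p.1) by abel]
      ring

variable (v : κ → A) (f : κ → PZ d →₀ ℝ) [DecidableEq ι]

/-- lattice Wick ordering -/
def wo : Module.End ℝ (MvPolynomial κ ℝ) := ex fun p q => -(⟪v p, v q⟫_ℝ * kl 0 (f p) (f q) / 2)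

/-- the propagator between different slots -/
def ko (x : ι → Fin d → ℤ) (p q : ι × κ) : ℝ :=
  if p.1 = q.1 then 0 else ⟪v p.2, v q.2⟫_ℝ * kl (x q.1 - x p.1) (f p.2) (f q.2)

theorem wick_dg (hρ : Continuous ρ) (hd : 2 ≤ d) (hv : ∀ u, v u ∈ lieAlg ρ)
    (P : MvPolynomial (ι × κ) ℝ) : Sm fun L _ r x =>
      ∫ U, eval (fun u : ι × κ => ll ρ r (v u.2) (f u.2) (x u.1) U)
        (ex (dg fun p q => -(⟪v p, v q⟫_ℝ * kl 0 (f p) (f q) / 2)) P) ∂(nu μ ρ d L (r ^ 2 / 4)) -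
        wk (ko v f x) P := by
  refine (congrArg Sm ?_).mp (wick_lin ρ μ hρ hd Prod.fst (fun u : ι × κ => v u.2) (fun u => hv _)
    (fun u => f u.2) (ex (dg fun p q => -(⟪v p, v q⟫_ℝ * kl 0 (f p) (f q) / 2)) P))
  funext L _ r x
  rw [Zf.wk_eq, Zf.wk_eq, ← Zf.E_add]
  congr 3
  funext p q
  simp only [Pi.add_apply, dg, ko]
  split_ifs with h <;> simp [h]

variable [Fintype ι]

theorem eval_rn (ξ : ι × κ → ℝ) (c : ι → MvPolynomial κ ℝ) :
    eval ξ (∏ i, rename (Prod.mk i) (c i)) = ∏ i, eval (fun u => ξ (i, u)) (c i) := by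
  simp only [map_prod, eval_rename]
  rfl

/-- products of Wick ordered polynomials -/
theorem wick_wo (hρ : Continuous ρ) (hd : 2 ≤ d) (hv : ∀ u, v u ∈ lieAlg ρ)
    (c : ι → MvPolynomial κ ℝ) : Sm fun L _ r x =>
      ∫ U, ∏ i, eval (fun u => ll ρ r (v u) (f u) (x i) U) (wo v f (c i))
        ∂(nu μ ρ d L (r ^ 2 / 4)) - wk (ko v f x) (∏ i, rename (Prod.mk i) (c i)) := by
  simpa only [ex_prod, eval_rn, wo] using wick_dg ρ μ v f hρ hd hv (∏ i, rename (Prod.mk i) (c i))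

/-- the scaling limit -/
theorem wick_lim (hρ : Continuous ρ) (hd : 2 ≤ d) (hv : ∀ u, v u ∈ lieAlg ρ) (w : κ → ℕ)
    (c : ι → MvPolynomial κ ℝ) : ∃ C : ℕ, ∀ {T : Type} {F : Filter T} (ε r : T → ℝ) (L : T → ℕ)
      [∀ t, NeZero (L t)] (x : T → ι → Fin d → ℤ) (k : ι × κ → ι × κ → ℝ), Tendsto ε F (𝓝[>] 0) →
      (∀ᶠ t in F, (ε t)⁻¹ ^ C ≤ r t ∧ r t ^ 2 ≤ L t) → (∀ i l, ∀ᶠ t in F, ε t ^ 2 * |(x t i l : ℝ)| ≤ 1) →
      (∀ p q, Tendsto (fun t => (ε t)⁻¹ ^ (w p.2 + w q.2) * ko v f (x t) p q) F (𝓝 (k p q))) →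
      Tendsto (fun t => ∫ U, ∏ i, eval (fun u => ll ρ (r t) (v u) (f u) (x t i) U)
        (wo v f (sc w (ε t)⁻¹ (c i))) ∂(nu μ ρ d (L t) (r t ^ 2 / 4))) F
        (𝓝 (wk k (∏ i, rename (Prod.mk i) (c i)))) := by
  classical
  set P := ∏ i, rename (Prod.mk i) (c i) with hP
  choose C hC using fun m : ι × κ →₀ ℕ => (wick_dg ρ μ v f hρ hd hv (monomial m 1)).lim
    (Finsupp.weight (fun u : ι × κ => w u.2) m)
  refine ⟨P.support.sup C, fun ε r L _ x k hε hr hx hk => ?_⟩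
  have h1 := tendsto_finsetSum P.support fun m hm => (hC m ε r L x hε (by
    filter_upwards [hr, (tendsto_inv_nhdsGT_zero.comp hε).eventually_ge_atTop 1] with t a b
    exact ⟨(pow_le_pow_right₀ b (Finset.le_sup hm)).trans a.1, a.2⟩) hx).const_mul (coeff m P)
  have h2 := h1.add (E_tendsto (fun p q => (hk p q).div_const 2) P)
  simp only [mul_zero, Finset.sum_const_zero, zero_add] at h2
  rw [Zf.wk_eq]
  refine h2.congr fun t => ?_
  have := nu_prob (d := d) (L := L t) μ ρ hρ (r t ^ 2 / 4)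
  have e : sc (fun u : ι × κ => w u.2) (ε t)⁻¹ P = ∑ m ∈ P.support,
      (coeff m P * (ε t)⁻¹ ^ Finsupp.weight (fun u : ι × κ => w u.2) m) • monomial m 1 := by
    conv_lhs => rw [P.as_sum]
    simp only [map_sum, sc_mono, smul_monomial, smul_eq_mul, mul_one, mul_comm (coeff _ P)]
  have e2 : ∀ U : Link d (L t) → G, ∏ i, eval (fun u => ll ρ (r t) (v u) (f u) (x t i) U)
      (wo v f (sc w (ε t)⁻¹ (c i))) = eval (fun u : ι × κ => ll ρ (r t) (v u.2) (f u.2) (x t u.1) U)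
        (ex (dg fun p q => -(⟪v p, v q⟫_ℝ * kl 0 (f p) (f q) / 2))
          (sc (fun u : ι × κ => w u.2) (ε t)⁻¹ P)) := fun U => by
    simp only [hP, map_prod (sc _ _), sc_rn, ex_prod, eval_rn, wo]
  simp only [e2, mul_div_assoc ((ε t)⁻¹ ^ _), ← E_sc fun u : ι × κ => w u.2]
  simp only [e, map_sum, map_smul, smul_eval, smul_eq_mul, Zf.wk_eq, mul_sub,
    Finset.sum_sub_distrib, mul_assoc, sub_add_cancel]
  rw [integral_finsetSum _ fun m _ => cint _ (continuous_const.fun_mul (continuous_const.fun_mul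
    ((continuous_eval _).comp' (continuous_pi fun u => continuous_ll ρ hρ _ _ _ _))))]
  simp only [integral_const_mul]

end Pool.Agent.Lib.MP_7f377f_mp.Kw
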