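import Pool.Agent.Lib.MP_7f377f_mp.G.KwD
import Pool.Agent.Lib.MP_7f377f_mp.StP

/-! The Wick theorem for holonomies of closed words in the comb gauge. -/

noncomputable section

namespace Pool.Agent.Lib.MP_7f377f_mp.Kw

open MeasureTheory Filter Topology Weak HS MvPolynomial
open Zf (wk)
open RG (Lk St lbox dd)
open RG.Wd (wh fx stp pq Dr)
open Finsupp (linearCombination)
open scoped InnerProductSpace

set_option linter.unusedSectionVars false

variable {d : ℕ} [NeZero d]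
variable {A : Type} [NormedRing A] [StarRing A] [NormedAlgebra ℝ A] [HS A]
variable {G : Type} [Group G] (ρ : G →* unitary A) {σ ι κ : Type}

/-- the random majorant -/
def Th {L : ℕ} [NeZero L] (N s : ℕ) (r : ℝ) (U : Link d L → G) : ℝ :=
  (s * (1 + SM ρ r (s + N) U)) ^ N

/-- observables which depend on the parameters -/
abbrev Ob (ι G : Type) (d : ℕ) : Type :=
  ∀ (L : ℕ) [NeZero L], ℝ → (ι → Fin d → ℤ) → (Link d L → G) → ℝ

/-- the observables are close at weak coupling -/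
def Cl (a b : Ob ι G d) : Prop := ∃ (K : ℝ) (N : ℕ), 0 ≤ K ∧ ∀ (s L : ℕ) [NeZero L] (r : ℝ) x U,
  1 ≤ s → 1 ≤ r → (s + N + 1) * 2 ≤ L → (∀ i l, (x i l).natAbs ≤ s) →
    |b L r x U| ≤ K * Th ρ N s r U ∧ |a L r x U - b L r x U| ≤ K * Th ρ N s r U / r

theorem Th_le {L N N' s : ℕ} [NeZero L] (s1 : 1 ≤ s) (h : N ≤ N') (r : ℝ) (U : Link d L → G) :
    1 ≤ Th ρ N s r U ∧ Th ρ N s r U ≤ (s * (1 + SM ρ r (s + N') U)) ^ N ∧
      Th ρ N s r U ≤ Th ρ N' s r U := by
  have s1' : (1 : ℝ) ≤ s := by exact_mod_cast s1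
  have b : ∀ M, 1 ≤ s * (1 + SM ρ r M U) := fun M =>
    one_le_mul_of_one_le_of_one_le s1' (le_add_of_nonneg_right (SM_nonneg ρ r M U))
  have c : Th ρ N s r U ≤ (s * (1 + SM ρ r (s + N') U)) ^ N := pow_le_pow_left₀ (by linarith [b (s + N)])
    (by gcongr; exact SM_mono ρ r (by omega) U) _
  exact ⟨one_le_pow₀ (b _), c, c.trans (pow_le_pow_right₀ (b _) h)⟩

variable {ρ} {a b c a' b' : Ob ι G d}

theorem Cl.const (t : ℝ) : Cl ρ (fun _ _ _ (_ : ι → Fin d → ℤ) _ => t) fun _ _ _ _ _ => t :=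
  ⟨|t|, 0, abs_nonneg t, fun _ _ _ _ _ _ _ _ _ _ => by simp [Th]; positivity⟩

theorem Cl.two (h : Cl ρ a b) (h' : Cl ρ a' b') {e f : Ob ι G d}
    (H : ∀ (L : ℕ) [NeZero L] r x U (T T' : ℝ), 1 ≤ r → 1 ≤ T → 1 ≤ T' → |b L r x U| ≤ T →
      |a L r x U - b L r x U| ≤ T / r → |b' L r x U| ≤ T' → |a' L r x U - b' L r x U| ≤ T' / r →
      |f L r x U| ≤ 3 * (T * T') ∧ |e L r x U - f L r x U| ≤ 3 * (T * T') / r) : Cl ρ e f := by
  obtain ⟨K, N, K0, h⟩ := h
  obtain ⟨K', N', K0', h'⟩ := h'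
  refine ⟨3 * ((K + 1) * (K' + 1)), N + N', by positivity, fun s L _ r x U s1 r1 hL hx => ?_⟩
  obtain ⟨a1, a2⟩ := h s L r x U s1 r1 (by omega) hx
  obtain ⟨b1, b2⟩ := h' s L r x U s1 r1 (by omega) hx
  obtain ⟨t1, t2, -⟩ := Th_le ρ s1 (N.le_add_right N') r U
  obtain ⟨u1, u2, -⟩ := Th_le ρ s1 (N'.le_add_left N) r U
  have e : 3 * ((K + 1) * Th ρ N s r U * ((K' + 1) * Th ρ N' s r U)) ≤
      3 * ((K + 1) * (K' + 1)) * Th ρ (N + N') s r U := by
    rw [mul_mul_mul_comm, ← mul_assoc, Th.eq_def ρ (N + N'), pow_add]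
    gcongr
    linarith
  have := H L r x U ((K + 1) * Th ρ N s r U) ((K' + 1) * Th ρ N' s r U) r1 (by nlinarith)
    (by nlinarith) (by linarith) (a2.trans (by gcongr; linarith)) (by linarith)
    (b2.trans (by gcongr; linarith))
  exact ⟨this.1.trans e, this.2.trans (by gcongr)⟩

theorem Cl.add (h : Cl ρ a b) (h' : Cl ρ a' b') :
    Cl ρ (fun L _ r x U => a L r x U + a' L r x U) fun L _ r x U => b L r x U + b' L r x U :=
  h.two h' fun L _ r x U T T' r1 _ _ a1 a2 b1 b2 => by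
    have : T + T' ≤ 3 * (T * T') := by nlinarith
    rw [add_sub_add_comm]
    exact ⟨(abs_add_le _ _).trans (by linarith), (abs_add_le _ _).trans ((add_le_add a2 b2).trans
      (by rw [← add_div]; gcongr))⟩

theorem Cl.mul (h : Cl ρ a b) (h' : Cl ρ a' b') :
    Cl ρ (fun L _ r x U => a L r x U * a' L r x U) fun L _ r x U => b L r x U * b' L r x U :=
  h.two h' fun L _ r x U T T' r1 _ _ a1 a2 b1 b2 => by
    have e : T' / r ≤ T' := div_le_self (by linarith) r1
    have p : 0 ≤ T / r := by positivity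
    rw [show ∀ x y z w : ℝ, x * y - z * w = (x - z) * (y - w) + (x - z) * w + z * (y - w) from
      fun _ _ _ _ => by ring, abs_mul]
    refine ⟨(mul_le_mul a1 b1 (abs_nonneg _) (by linarith)).trans (by nlinarith),
      (abs_add_three _ _ _).trans ?_⟩
    simp only [abs_mul]
    refine (add_le_add_three (mul_le_mul a2 (b2.trans e) (abs_nonneg _) p)
      (mul_le_mul a2 b1 (abs_nonneg _) p) (mul_le_mul a1 b2 (abs_nonneg _) (by linarith))).trans_eq ?_
    ring

theorem Cl.symm (h : Cl ρ a b) : Cl ρ b a :=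
  h.two h fun L _ r x U T T' r1 _ _ a1 a2 _ _ => by
    have e : T / r ≤ T := div_le_self (by linarith) r1
    have := abs_add_le (a L r x U - b L r x U) (b L r x U)
    rw [sub_add_cancel] at this
    exact ⟨by nlinarith, (abs_sub_comm _ _).trans_le (a2.trans (by gcongr; nlinarith))⟩

theorem Cl.trans (h : Cl ρ a b) (h' : Cl ρ b c) : Cl ρ a c :=
  h.two h' fun L _ r x U T T' r1 _ _ _ a2 b1 b2 => ⟨by nlinarith, (abs_sub_le _ _ _).trans
    ((add_le_add a2 b2).trans (by rw [← add_div]; gcongr; nlinarith))⟩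

theorem Cl.lin {a b : κ → Ob ι G d} (h : ∀ p, Cl ρ (a p) (b p)) (f : κ →₀ ℝ) :
    Cl ρ (fun L _ r x U => linearCombination ℝ (fun p => a p L r x U) f)
      fun L _ r x U => linearCombination ℝ (fun p => b p L r x U) f := by
  induction f using Finsupp.induction_linear with
  | zero => simpa using Cl.const 0
  | add f g hf hg => simpa using hf.add hg
  | single p t => simpa using (Cl.const t).mul (h p)

theorem Cl.ev {a b : σ → Ob ι G d} (h : ∀ p, Cl ρ (a p) (b p)) (P : MvPolynomial σ ℝ) :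
    Cl ρ (fun L _ r x U => eval (fun p => a p L r x U) P)
      fun L _ r x U => eval (fun p => b p L r x U) P := by
  induction P using MvPolynomial.induction_on with
  | C t => simpa using Cl.const t
  | add f g hf hg => simpa using hf.add hg
  | mul_X f p hf => simpa using hf.mul (h p)

variable (ρ) [TopologicalSpace G] [IsTopologicalGroup G] [CompactSpace G]
  [SecondCountableTopology G] [MeasurableSpace G] [BorelSpace G] (μ : Measure G)
  [μ.IsHaarMeasure] [IsProbabilityMeasure μ]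

theorem Cl.sm (hρ : Continuous ρ) (h : Cl ρ a b) (ca : ∀ L [NeZero L] r x, Continuous (a L r x))
    (cb : ∀ L [NeZero L] r x, Continuous (b L r x)) : Sm fun L _ r x =>
      ∫ U, a L r x U ∂(nu μ ρ d L (r ^ 2 / 4)) - ∫ U, b L r x U ∂(nu μ ρ d L (r ^ 2 / 4)) := by
  obtain ⟨K, N, K0, h⟩ := h
  obtain ⟨C, C1, hC⟩ := moment_SM ρ μ hρ d N
  have p : 0 ≤ K * (C * (N + 1) ^ (d * (N + 1))) := by positivity
  have N0 : (0 : ℝ) ≤ N := N.cast_nonneg
  refine ⟨K * (C * (N + 1) ^ (d * (N + 1))) + (2 * N + 4), N + d * (N + 1) + 1, by linarith,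
    by omega, fun s L _ r x s1 hr hL hx => ?_⟩
  have s1' : (1 : ℝ) ≤ s := by exact_mod_cast s1
  have := nu_prob (d := d) (L := L) μ ρ hρ (r ^ 2 / 4)
  have e := le_self_pow₀ s1' (show N + d * (N + 1) + 1 ≠ 0 by omega)
  have r1 : (2 * N + 4) * s ≤ r := by nlinarith
  have r2 : 1 ≤ r := by nlinarith
  have cS := continuous_SM (d := d) (L := L) ρ hρ r (s + N)
  beta_reduce
  rw [← integral_sub (cint _ (ca L r x)) (cint _ (cb L r x))]
  refine (abs_int_le _ (g := fun U => K * s ^ N / r * (1 + SM ρ r (s + N) U) ^ (N + 1))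
    (by fun_prop) fun U => ((h s L r x U s1 r2 (by
      have : ((s + N + 1) * 2 : ℝ) ≤ L := by nlinarith
      exact_mod_cast this) hx).2.trans ?_)).trans ?_
  · have := SM_nonneg ρ r (s + N) U
    rw [Th, mul_pow, ← mul_assoc, mul_div_right_comm]
    gcongr
    exacts [by linarith, N.le_succ]
  · rw [integral_const_mul]
    refine (mul_le_mul_of_nonneg_left ((hC L r (by linarith) hL _ (by omega)).trans
      (c := C * ((N + 1) * s) ^ (d * (N + 1))) (by push_cast; gcongr; nlinarith))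
      (by positivity)).trans ?_
    rw [div_mul_eq_mul_div, div_le_div_iff₀ (by linarith) (by linarith), one_mul]
    refine le_trans ?_ hr
    rw [mul_pow, add_mul _ (2 * N + 4 : ℝ)]
    refine le_trans (le_of_eq (by ring)) (le_add_of_nonneg_right (by positivity))

/-! ### Words -/

/-- the periodic configuration -/
def lz {L : ℕ} (U : Link 4 L → G) : Lk → G := fun e => U (fun l => e.1 l, e.2)

/-- a component of the rescaled holonomy -/
def hw (r : ℝ) (v : A) (w : List Dr) (x : St) (V : Lk → G) : ℝ :=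
  r * ⟪v, (ρ (wh Inv.inv V x w) : A)⟫_ℝ

/-- `f` is a surface with the boundary `l` -/
def Fil (l : RG.V →ₗ[ℝ] ℝ) (f : PZ 4 →₀ ℝ) : Prop :=
  ∀ a, l a = linearCombination ℝ (fun p : PZ 4 => dd a p.1 p.2.1 p.2.2) f

theorem fx_agr {a : RG.V} {R : ℕ} (h : ∀ e ∈ lbox R, a e = 0) (w : List Dr) :
    ∀ r, ∀ x ∈ RG.box r, r + w.length ≤ R → fx a x w = 0 := by
  induction w with
  | nil => exact fun _ _ _ _ => rfl
  | cons d w ih =>
    intro r x hx h1
    rw [List.length_cons] at h1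
    rw [fx, ih (r + 1) _ (RG.add_mem_box hx (RG.Wd.dv_box d)) (by omega),
      RG.Wd.stp_agr _ (U' := 0) (fun e he => h e (RG.lbox_mono (by omega) he)) hx]
    simp [stp]

theorem ex_fil (w : RG.Wd.Lp) : ∃ f, Fil (RG.Wd.fxL 0 w.1) f := by
  have := mem_span_of_iInf_ker_le_ker (K := RG.Wd.fxL 0 w.1)
    (L := fun p : RG.box w.1.length × Fin 4 × Fin 4 =>
      RG.Wd.fxL p.1 (pq (p.2.1, true) (p.2.2, true)).1) fun a ha => by
      refine (RG.Wd.fx_cg a w 0).symm.trans (fx_agr (fun e he => ?_) _ 0 0 (RG.zero_mem_box 0)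
        (zero_add _).le)
      simpa using RG.Sm_cg (δ := 0) (a := a) (fun x hx μ ν => by
        rw [← RG.Wd.fx_pq]
        exact norm_le_zero_iff.2 ((Submodule.mem_iInf _).1 ha (⟨x, hx⟩, μ, ν))) e he
  obtain ⟨f, hf⟩ := Finsupp.mem_span_range_iff_exists_finsupp.1 this
  refine ⟨f.mapDomain fun p => (p.1, p.2), fun a => ?_⟩
  rw [Finsupp.linearCombination_mapDomain, ← hf]
  simp [Finsupp.linearCombination_apply, Finsupp.sum, RG.Wd.fxL, RG.Wd.fx_pq]

theorem wh_near {v : A} (hv : star v = -v) {R : ℕ} {η : ℝ} {V : Lk → G} (η0 : 0 ≤ η)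
    (h : ∀ e ∈ lbox R, ‖(ρ (V e) : A) - 1‖ ≤ η) (w : List Dr) : ∀ r, ∀ x ∈ RG.box r, r + w.length ≤ R →
      ‖(ρ (wh Inv.inv V x w) : A) - 1‖ ≤ w.length * η ∧ |⟪v, (ρ (wh Inv.inv V x w) : A)⟫_ℝ -
        fx (fun e => ⟪v, (ρ (V e) : A)⟫_ℝ) x w| ≤ ‖v‖ * (w.length * η) ^ 2 := by
  have o : ⟪v, (1 : A)⟫_ℝ = 0 := by rw [real_inner_comm, ← tr_eq_inner, tr_skew hv]
  induction w with
  | nil => exact fun _ _ _ _ => by simp [wh, fx, rho_one, o]
  | cons d w ih =>
    intro r x hx h1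
    rw [List.length_cons] at h1 ⊢
    obtain ⟨a1, a2⟩ := ih (r + 1) _ (RG.add_mem_box hx (RG.Wd.dv_box d)) (by omega)
    have b : ‖(ρ (stp Inv.inv V x d) : A) - 1‖ ≤ η ∧ ⟪v, (ρ (stp Inv.inv V x d) : A)⟫_ℝ =
        stp Neg.neg (fun e => ⟪v, (ρ (V e) : A)⟫_ℝ) x d := by
      have := RG.add_mem_box hx (RG.Wd.dv_box (d.1, false))
      unfold stp
      split_ifs
      · exact ⟨h _ (RG.mem_lbox.2 (RG.box_mono (by omega) hx)), rfl⟩
      · rw [rho_inv, norm_star_sub_one]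
        refine ⟨h _ (RG.mem_lbox.2 (RG.box_mono (r := r + 1) (by omega)
          (by simpa [RG.Wd.dv, sub_eq_add_neg] using this))), ?_⟩
        simp only [inner_def]
        rw [← star_mul, HS.tr_star, hv, HS.tr_mul_comm, neg_mul, map_neg, neg_neg]
    rw [wh, fx, rho_mul, ← b.2, Nat.cast_succ]
    refine ⟨(norm_mul_sub_one_le (ρ _).2 _).trans (by linarith [b.1]), ?_⟩
    generalize (ρ (stp Inv.inv V x d) : A) = g at *
    generalize (ρ (wh Inv.inv V _ w) : A) = k at *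
    have c := (abs_real_inner_le_norm v _).trans (mul_le_mul_of_nonneg_left
      (norm_mul_le_of_le b.1 a1) (norm_nonneg _))
    rw [show (g - 1) * (k - 1) = g * k - g - k + 1 by noncomm_ring, inner_add_right, o, add_zero,
      inner_sub_right, inner_sub_right] at c
    rw [← sub_sub]
    refine (abs_sub_le _ _ _).trans ((add_le_add c a2).trans ?_)
    rw [← mul_add]
    gcongr
    nlinarith [mul_nonneg (w.length.cast_nonneg (α := ℝ)) (sq_nonneg η)]

theorem cl_fx (hρ : Continuous ρ) {v : A} (hv : v ∈ lieAlg ρ) (w : List Dr) (z : St) (i : ι) :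
    Cl ρ (fun _ _ r x U => r * fx (fun e => ⟪v, (ρ (lz (fix U) e) : A)⟫_ℝ) (x i + z) w)
      fun _ _ r x U => hw ρ r v w (x i + z) (lz (fix U)) := by
  obtain ⟨R, hR⟩ : ∃ R, z ∈ RG.box R := ⟨∑ l, (z l).natAbs, RG.mem_box.2 fun l => by
    have := Finset.single_le_sum (f := fun l => (z l).natAbs) (fun _ _ => Nat.zero_le _)
      (Finset.mem_univ l)
    omega⟩
  obtain ⟨N, hN⟩ : ∃ N, N = R + w.length + 2 := ⟨_, rfl⟩
  obtain ⟨K, hK⟩ : ∃ K : ℝ, K = w.length * (4 * (N + 1)) + 1 := ⟨_, rfl⟩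
  have K1 : 1 ≤ K := hK ▸ le_add_of_nonneg_left (by positivity)
  refine ⟨‖v‖ * K ^ 2, N, by positivity, fun s L _ r x U s1 r1 hL hx => ?_⟩
  have s1' : (1 : ℝ) ≤ s := by exact_mod_cast s1
  have r0 : 0 < r := by linarith
  obtain ⟨S, hS⟩ : ∃ S, S = √(SM ρ r (s + N) U) := ⟨_, rfl⟩
  have S0 : 0 ≤ S := hS ▸ Real.sqrt_nonneg _
  have S2 : S ^ 2 = SM ρ r (s + N) U := hS ▸ Real.sq_sqrt (SM_nonneg ..)
  have h1 := fix_small ρ hL U (η := S / r) (by positivity) fun y hy i j => by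
    rw [le_div_iff₀ r0, hS]
    refine Real.le_sqrt_of_sq_le ?_
    rw [mul_pow, mul_comm]
    exact EU_le_SM ρ r (p := (y, i, j)) hy U
  obtain ⟨a1, a2⟩ := wh_near ρ (lieAlg_skew ρ hρ hv) (R := s + N) (V := lz (fix U))
    (η := 4 * ((N + 1) * s) * (S / r)) (by positivity) (fun e he => by
      have b := inBox_cast (L := L) e.1 fun l => show (e.1 l).natAbs ≤ s + N by
        have := RG.mem_box.1 (RG.mem_lbox.1 he) l
        omega
      refine (h1 _ b _).trans (mul_le_mul_of_nonneg_right ?_ (by positivity))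
      exact_mod_cast (ht_le b).trans (by nlinarith)) w (s + R) (x i + z) (RG.add_mem_box
        (RG.mem_box.2 fun l => by have := hx i l; omega) hR) (by omega)
  have e : w.length * (4 * ((N + 1) * s) * (S / r)) ≤ K * (s * S) / r := by
    rw [← mul_div_assoc, ← mul_div_assoc, hK]
    refine div_le_div_of_nonneg_right ?_ r0.le
    nlinarith [mul_nonneg (zero_le_one.trans s1') S0]
  have t : (s * (1 + S ^ 2)) ^ 2 ≤ Th ρ N s r U := by
    rw [S2]
    exact pow_le_pow_right₀ (one_le_mul_of_one_le_of_one_le s1'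
      (le_add_of_nonneg_right (SM_nonneg ..))) (by omega)
  have t1 : s * S ≤ s * (1 + S ^ 2) := by gcongr; nlinarith
  have t2 : 1 ≤ s * (1 + S ^ 2) := by nlinarith
  have o : ⟪v, (1 : A)⟫_ℝ = 0 := by
    rw [real_inner_comm, ← tr_eq_inner, tr_skew (lieAlg_skew ρ hρ hv)]
  simp only [hw, ← mul_sub, abs_mul, abs_of_pos r0]
  constructor
  · rw [← sub_zero ⟪v, _⟫_ℝ, ← o, ← inner_sub_right]
    refine (mul_le_mul_of_nonneg_left ((abs_real_inner_le_norm _ _).trans
      (mul_le_mul_of_nonneg_left (a1.trans e) (norm_nonneg _))) r0.le).trans ?_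
    rw [mul_left_comm, mul_div_cancel₀ _ r0.ne', mul_assoc]
    exact mul_le_mul_of_nonneg_left (mul_le_mul (le_self_pow₀ K1 two_ne_zero) (t1.trans
      ((le_self_pow₀ t2 two_ne_zero).trans t)) (by positivity) (by positivity)) (norm_nonneg _)
  · rw [abs_sub_comm]
    refine (mul_le_mul_of_nonneg_left (a2.trans (mul_le_mul_of_nonneg_left
      (pow_le_pow_left₀ (by positivity) e 2) (norm_nonneg _))) r0.le).trans ?_
    rw [show r * (‖v‖ * (K * (s * S) / r) ^ 2) = ‖v‖ * K ^ 2 * (s * S) ^ 2 / r by field_simp]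
    gcongr
    exact (pow_le_pow_left₀ (by positivity) t1 2).trans t

theorem hw_pq {L : ℕ} [NeZero L] (hρ : Continuous ρ) (r : ℝ) {v : A} (hv : v ∈ lieAlg ρ) (p : PZ 4)
    (U : Link 4 L → G) :
    hw ρ r v (pq (p.2.1, true) (p.2.2, true)).1 p.1 (lz (fix U)) = lt ρ r v p U := by
  have c : ∀ m, (fun l => ((p.1 + RG.un m) l : ZMod L)) = (fun l => (p.1 l : ZMod L)) +
      Pi.single m 1 := fun m => funext fun l => by
    by_cases h : l = m <;> simp [RG.un, h]
  rw [lt, inner_ZU ρ hv, XX, inner_sub_right, real_inner_comm 1, ← tr_eq_inner,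
    tr_skew (lieAlg_skew ρ hρ hv), sub_zero, hw]
  simp only [pq, wh, stp, RG.Wd.dv, RG.Wd.fl, if_true, Bool.not_true, Bool.false_eq_true, if_false,
    show ∀ x a b : St, x + a + b - a = x + b from fun _ _ _ => by abel,
    show ∀ x a b : St, x + a + b + -a - b = x from fun _ _ _ => by abel, add_neg_cancel_right,
    add_sub_cancel_right,
    mul_one, lz, hol, c, mul_assoc]

theorem cl_hw (hρ : Continuous ρ) {v : A} (hv : v ∈ lieAlg ρ) {w : List Dr} {f : PZ 4 →₀ ℝ}
    (hf : Fil (RG.Wd.fxL 0 w) f) (i : ι) :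
    Cl ρ (fun _ _ r x U => hw ρ r v w (x i) (lz (fix U))) fun _ _ r x U => ll ρ r v f (x i) U := by
  have a := (cl_fx ρ hρ hv w 0 i).symm
  have b := Cl.lin (fun p : PZ 4 => cl_fx ρ hρ hv (pq (p.2.1, true) (p.2.2, true)).1 p.1 i) f
  simp only [add_zero, fun L [NeZero L] r (x : St) (p : PZ 4) U =>
    hw_pq (L := L) ρ hρ r hv (x + p.1, p.2) U] at a b
  refine a.trans ((congrArg (Cl ρ · _) ?_).mp b)
  funext L _ r x U
  have : fx _ 0 w = _ := hf (RG.sh (x i) fun e => ⟪v, (ρ (lz (fix U) e) : A)⟫_ℝ)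
  simp only [← RG.Wd.fx_pq, RG.Wd.fx_sh, zero_add] at this
  simp only [this, Finsupp.linearCombination_apply, Finsupp.sum, Finset.mul_sum, smul_eq_mul,
    mul_left_comm r, add_comm (x i)]

theorem continuous_hw (hρ : Continuous ρ) {L : ℕ} (r : ℝ) (v : A) (w : List Dr) (x : St) :
    Continuous fun U : Link 4 L → G => hw ρ r v w x (lz U) := by
  have : ∀ x, Continuous fun U : Link 4 L → G => wh Inv.inv (lz U) x w := by
    induction w with
    | nil => exact fun _ => continuous_const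
    | cons d w ih =>
      refine fun x => Continuous.mul ?_ (ih _)
      unfold stp lz
      split_ifs <;> fun_prop
  exact continuous_const.mul (continuous_const.inner
    (continuous_subtype_val.comp (hρ.comp (this x))))

/-- the Wick theorem for holonomies -/
theorem wick_hw (hρ : Continuous ρ) (ϖ : σ → ι) (v : σ → A) (hv : ∀ u, v u ∈ lieAlg ρ)
    (w : σ → List Dr) (f : σ → PZ 4 →₀ ℝ) (hf : ∀ u, Fil (RG.Wd.fxL 0 (w u)) (f u))
    (P : MvPolynomial σ ℝ) : Sm fun L _ r x =>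
      ∫ U, eval (fun u => hw ρ r (v u) (w u) (x (ϖ u)) (lz (fix U))) P ∂(nu μ ρ 4 L (r ^ 2 / 4)) -
        wk (fun u u' => ⟪v u, v u'⟫_ℝ * kl (x (ϖ u') - x (ϖ u)) (f u) (f u')) P := by
  simpa only [one_mul, sub_add_sub_cancel] using (Cl.sm ρ μ hρ
    (Cl.ev (fun u => cl_hw ρ hρ (hv u) (hf u) (ϖ u)) P) (fun L _ r x => (continuous_eval _).comp
      (continuous_pi fun u => (continuous_hw ρ hρ r _ _ _).comp continuous_fix))
    fun L _ r x => (continuous_eval _).comp (continuous_pi fun u => continuous_ll ρ hρ _ _ _ _)).lin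
    (wick_lin ρ μ hρ (by norm_num) ϖ v hv f P) 1

end Pool.Agent.Lib.MP_7f377f_mp.Kw
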