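import Pool.Agent.Lib.MP_7f377f_mp.G.KwF

/-! The Wick theorem for complex polynomials in formal sums of loops. -/

noncomputable section

namespace Pool.Agent.Lib.MP_7f377f_mp.Kw

open MeasureTheory Filter Topology Weak HS MvPolynomial
open Zf (wk ex E D sy)
open RG (Lk St V)
open Finsupp (linearCombination)
open scoped InnerProductSpace

set_option linter.unusedSectionVars false

section algebra
variable {σ τ K L : Type} [Field K] [CharZero K] [Field L] [CharZero L]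

theorem ex_ring (f : K →+* L) (B : σ → σ → K) (P : MvPolynomial σ K) :
    ex (fun p q => f (B p q)) (map f P) = map f (ex B P) := by
  refine Zf.ind ⟨⟨⟨{P | ex (fun p q => f (B p q)) (map f P) = map f (ex B P)}, fun a b => ?_⟩,
    by simp⟩, fun c P a => ?_⟩ (by simp) (fun r Q a b => ?_) P
  · simp_all
  · change _ = _
    rw [(ex B).map_smul, smul_eq_C_mul, map_mul, map_C, ← smul_eq_C_mul, map_smul, a, smul_eq_C_mul,
      smul_eq_C_mul, map_mul, map_C]
  · change _ = _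
    rw [map_mul, map_X, Zf.ex_X_mul, Zf.ex_X_mul, map_add, map_mul, map_X, ← a, ← b, ← Zf.D_ring]
    simp only [sy, map_add]
    rfl

theorem ex_map (φ : MvPolynomial σ K →ₐ[K] MvPolynomial τ K) (hφ : ∀ q, φ (X q) ∈ Zf.Lin τ K)
    {B : τ → τ → K} {B' : σ → σ → K} (h : ∀ p q, E B (φ (X p) * φ (X q)) = sy B' p q)
    (P : MvPolynomial σ K) : ex B (φ P) = φ (ex B' P) := by
  have k : ∀ l ∈ Zf.Lin τ K, ∀ Q, ex B (l * Q) =
      l * ex B Q + ex B (D (fun q => E B (l * X q)) Q) := fun l hl Q => by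
    induction hl using Submodule.span_induction with
    | mem l hl => obtain ⟨q, rfl⟩ := hl; simp only [Zf.ex_X_mul, Zf.E_X_X]
    | zero => simp [show D (fun _ : τ => (0 : K)) = 0 from derivation_ext fun _ => by simp]
    | add a b _ _ ha hb => simp only [add_mul, map_add, ha, hb, Zf.D_add, Derivation.add_apply]; abel
    | smul t a _ ha => simp only [smul_mul_assoc, map_smul, ha, smul_eq_mul, Zf.D_smul,
        Derivation.smul_apply, smul_add]
  refine Zf.ind ((ex B ∘ₗ φ.toLinearMap).eqLocus (φ.toLinearMap ∘ₗ ex B')) (by simp)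
    (fun r Q a b => ?_) P
  simp only [LinearMap.mem_eqLocus, LinearMap.comp_apply, AlgHom.toLinearMap_apply] at a b ⊢
  rw [map_mul, k _ (hφ r), Zf.ex_X_mul, map_add, map_mul, a, ← b]
  exact congrArg (_ + ex B ·) (Zf.D_map φ (fun q => (Zf.D_lin
    (E B ∘ₗ LinearMap.mulLeft K (φ (X r))) (hφ q)).trans (congrArg _ (h r q))) Q)

end algebra

variable {A : Type} [NormedRing A] [StarRing A] [NormedAlgebra ℝ A] [HS A]
variable {G : Type} [Group G] (ρ : G →* unitary A) {σ ι κ : Type}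

theorem sm_sc {d : ℕ} [NeZero d] [Finite ι]
    (Φ : ∀ (L : ℕ) [NeZero L], ℝ → (ι → Fin d → ℤ) → MvPolynomial σ ℂ →ₗ[ℂ] ℂ)
    (h : ∀ m, Sm fun L _ r x => ‖Φ L r x (monomial m 1)‖) (w : σ → ℕ) (P : MvPolynomial σ ℂ) (M : ℕ) :
    ∃ C : ℕ, ∀ {T : Type} {F : Filter T} (ε r : T → ℝ) (L : T → ℕ) [∀ t, NeZero (L t)]
      (x : T → ι → Fin d → ℤ), Tendsto ε F (𝓝[>] 0) →
      (∀ᶠ t in F, (ε t)⁻¹ ^ C ≤ r t ∧ r t ^ 2 ≤ L t) → (∀ i l, ∀ᶠ t in F, ε t ^ 2 * |(x t i l : ℝ)| ≤ 1) →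
      Tendsto (fun t => (ε t)⁻¹ ^ M * ‖Φ (L t) (r t) (x t) (sc w (((ε t)⁻¹ : ℝ) : ℂ) P)‖) F (𝓝 0) := by
  classical
  choose C hC using fun m => (h m).lim (M + Finsupp.weight w m)
  refine ⟨P.support.sup C, fun ε r L _ x hε hr hx => ?_⟩
  have h1 := tendsto_finsetSum P.support fun m hm => (hC m ε r L x hε (by
    filter_upwards [hr, (tendsto_inv_nhdsGT_zero.comp hε).eventually_ge_atTop 1] with t a b
    exact ⟨(pow_le_pow_right₀ b (Finset.le_sup hm)).trans a.1, a.2⟩) hx).const_mul ‖coeff m P‖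
  simp only [mul_zero, Finset.sum_const_zero] at h1
  have e0 : ∀ᶠ t in _, 0 < ε t := (tendsto_nhdsWithin_iff.1 hε).2
  refine squeeze_zero' (e0.mono fun t ht => by positivity) (e0.mono fun t ht => ?_) h1
  conv_lhs => rw [P.as_sum]
  simp only [map_sum, sc_mono]
  refine (mul_le_mul_of_nonneg_left (norm_sum_le _ _) (by positivity)).trans_eq ?_
  rw [Finset.mul_sum]
  refine Finset.sum_congr rfl fun m _ => ?_
  rw [show monomial m (coeff m P) = coeff m P • monomial m 1 by simp [smul_monomial], map_smul,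
    map_smul, norm_smul, norm_smul, norm_pow, Complex.norm_of_nonneg (by positivity), pow_add]
  ring

/-- the flux through a formal sum of loops -/
def fL : (RG.Wd.Lp →₀ ℝ) →ₗ[ℝ] V →ₗ[ℝ] ℝ := linearCombination ℝ fun w => RG.Wd.fxL 0 w.1

theorem ex_fL : ∃ S : RG.Wd.Lp → PZ 4 →₀ ℝ, (∀ w, Fil (RG.Wd.fxL 0 w.1) (S w)) ∧
    ∀ l, Fil (fL l) (linearCombination ℝ S l) := by
  choose S hS using ex_fil
  refine ⟨S, hS, fun l a => ?_⟩
  rw [Finsupp.apply_linearCombination, fL, Finsupp.linearCombination_apply,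
    Finsupp.linearCombination_apply]
  simp [Finsupp.sum, hS _ a]

theorem lc_fL (l : RG.Wd.Lp →₀ ℝ) : Lc (fL l) := (ex_fL.choose_spec.2 l).lc

/-- a component of the rescaled holonomy of a formal sum of loops -/
def hl (r : ℝ) (v : A) (l : RG.Wd.Lp →₀ ℝ) (x : St) (U : Lk → G) : ℝ :=
  linearCombination ℝ (fun w => hw ρ r v w.1 x U) l

variable (v : κ → A) (l : κ → RG.Wd.Lp →₀ ℝ)

/-- the propagator of formal sums of loops -/
def kv (z : St) (p q : κ) : ℝ := ⟪v p, v q⟫_ℝ * kf z (fL (l p)) (fL (l q))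

/-- lattice Wick ordering -/
def wc : Module.End ℂ (MvPolynomial κ ℂ) := ex fun p q => (-(kv v l 0 p q / 2) : ℝ)

variable [TopologicalSpace G] [IsTopologicalGroup G] [CompactSpace G]
  [SecondCountableTopology G] [MeasurableSpace G] [BorelSpace G] (μ : Measure G)
  [μ.IsHaarMeasure] [IsProbabilityMeasure μ]

theorem continuous_hl (hρ : Continuous ρ) {L : ℕ} (r : ℝ) (v : A) (l : RG.Wd.Lp →₀ ℝ) (x : St) :
    Continuous fun U : Link 4 L → G => hl ρ r v l x (lz U) :=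
  continuous_finsetSum _ fun w _ => (continuous_hw ρ hρ r _ _ _).fun_const_smul (l w)

theorem wick_hl (hρ : Continuous ρ) (hv : ∀ u, v u ∈ lieAlg ρ) (ϖ : κ → ι) (P : MvPolynomial κ ℝ) :
    Sm fun L _ r x => ∫ U, eval (fun u => hl ρ r (v u) (l u) (x (ϖ u)) (lz (fix U))) P
      ∂(nu μ ρ 4 L (r ^ 2 / 4)) - wk (fun u u' => kv v l (x (ϖ u') - x (ϖ u)) u u') P := by
  obtain ⟨S, h1, h2⟩ := ex_fL
  have c : ∀ u, Cl ρ (fun _ _ r x U => hl ρ r (v u) (l u) (x (ϖ u)) (lz (fix U)))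
      fun _ _ r x U => ll ρ r (v u) (linearCombination ℝ S (l u)) (x (ϖ u)) U := fun u => by
    simpa only [ll, hl, Finsupp.apply_linearCombination, Function.comp_def] using
      Cl.lin (fun w => cl_hw ρ hρ (hv u) (h1 w) (ϖ u)) (l u)
  have := (Cl.sm ρ μ hρ (Cl.ev c P)
    (fun L _ r x => (continuous_eval _).comp
      (continuous_pi fun u => (continuous_hl ρ hρ r _ _ _).comp continuous_fix))
    fun L _ r x => (continuous_eval _).comp (continuous_pi fun u => continuous_ll ρ hρ _ _ _ _)).lin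
    (wick_lin ρ μ hρ (by norm_num) ϖ v hv (fun u => linearCombination ℝ S (l u)) P) 1
  simpa only [one_mul, sub_add_sub_cancel, kl_kf (h2 _) (h2 _), kv] using this

variable [DecidableEq ι] [Fintype ι]

/-- the propagator between different slots -/
def kd (x : ι → St) (p q : ι × κ) : ℝ := if p.1 = q.1 then 0 else kv v l (x q.1 - x p.1) p.2 q.2

/-- rescaled Wick ordered polynomials -/
theorem wick_sc (hρ : Continuous ρ) (hv : ∀ u, v u ∈ lieAlg ρ) (w : κ → ℕ)
    (Q : ι → MvPolynomial κ ℂ) (M : ℕ) : ∃ C : ℕ, ∀ {T : Type} {F : Filter T} (ε r : T → ℝ)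
      (L : T → ℕ) [∀ t, NeZero (L t)] (x : T → ι → St), Tendsto ε F (𝓝[>] 0) →
      (∀ᶠ t in F, (ε t)⁻¹ ^ C ≤ r t ∧ r t ^ 2 ≤ L t) → (∀ i l, ∀ᶠ t in F, ε t ^ 2 * |(x t i l : ℝ)| ≤ 1) →
      Tendsto (fun t => (ε t)⁻¹ ^ M * ‖∫ U, ∏ i, eval (fun u =>
        (hl ρ (r t) (v u) (l u) (x t i) (lz (fix U)) : ℂ)) (wc v l (sc w (((ε t)⁻¹ : ℝ) : ℂ) (Q i)))
          ∂(nu μ ρ 4 (L t) (r t ^ 2 / 4)) - wk (fun p q =>
            (((ε t)⁻¹ ^ (w p.2 + w q.2) * kd v l (x t) p q : ℝ) : ℂ)) (∏ i, rename (Prod.mk i) (Q i))‖) F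
        (𝓝 0) := by
  have ci : ∀ (L : ℕ) [NeZero L] r (x : ι → St) (P : MvPolynomial (ι × κ) ℂ), Integrable
      (fun U : Link 4 L → G => eval (fun u : ι × κ => (hl ρ r (v u.2) (l u.2) (x u.1) (lz (fix U)) : ℂ)) P)
      (nu μ ρ 4 L (r ^ 2 / 4)) := fun L _ r x P => by
    have := nu_prob (d := 4) (L := L) μ ρ hρ (r ^ 2 / 4)
    exact ((continuous_eval _).comp (continuous_pi fun u => Complex.continuous_ofReal.comp
      ((continuous_hl ρ hρ r _ _ _).comp continuous_fix))).integrable_of_hasCompactSupport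
        (HasCompactSupport.of_compactSpace _)
  obtain ⟨C, hC⟩ := sm_sc (fun L _ r x => (⟨⟨fun P => ∫ U, eval (fun u : ι × κ =>
      (hl ρ r (v u.2) (l u.2) (x u.1) (lz (fix U)) : ℂ)) P ∂(nu μ ρ 4 L (r ^ 2 / 4)), fun P P' => by
        simp only [map_add, integral_add (ci L r x P) (ci L r x P')]⟩, fun c P => by
        simp only [smul_eval, integral_const_mul, RingHom.id_apply, smul_eq_mul]⟩ :
      MvPolynomial (ι × κ) ℂ →ₗ[ℂ] ℂ) ∘ₗ ex (dg fun p q => (-(kv v l 0 p q / 2) : ℝ)) -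
      E fun p q => (kd v l x p q : ℂ) / 2) (fun m => by
    refine (congrArg Sm ?_).mp (wick_hl ρ (fun u : ι × κ => v u.2) (fun u => l u.2) μ hρ
      (fun u => hv _) Prod.fst (ex (dg fun p q => -(kv v l 0 p q / 2)) (monomial m 1))).abs
    funext L _ r x
    have e1 : (dg fun p q => ((-(kv v l 0 p q / 2) : ℝ) : ℂ)) = fun p q : ι × κ =>
        Complex.ofRealHom (dg (fun p q => -(kv v l 0 p q / 2)) p q) := funext₂ fun p q => by
      simp only [dg]
      split_ifs <;> simp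
    have e2 : (fun p q => (kd v l x p q : ℂ) / 2) = fun p q =>
      Complex.ofRealHom (kd v l x p q / 2) := by simp
    have e3 : (monomial m 1 : MvPolynomial (ι × κ) ℂ) = map Complex.ofRealHom (monomial m 1) := by simp
    rw [← Real.norm_eq_abs, ← Complex.norm_real, LinearMap.sub_apply, LinearMap.comp_apply, e1, e2, e3, ex_ring, Zf.E_ring,
      Complex.ofReal_sub, ← integral_complex_ofReal, Zf.wk_eq, ← Zf.E_add]
    congr 2
    · refine integral_congr_ae (.of_forall fun U => ?_)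
      simp only [eval_map]
      exact hom_eval₂ _ (RingHom.id ℝ) Complex.ofRealHom _
    · congr 3
      funext p q
      simp only [Pi.add_apply, dg, kd, kv]
      split_ifs with h <;> simp [h]) (fun u => w u.2) (∏ i, rename (Prod.mk i) (Q i)) M
  refine ⟨C, fun ε r L _ x hε hr hx => (hC ε r L x hε hr hx).congr fun t => ?_⟩
  rw [LinearMap.sub_apply, LinearMap.comp_apply, E_sc, Zf.wk_eq]
  simp only [map_prod, sc_rn, ex_prod, eval_rename, wc, LinearMap.coe_mk, AddHom.coe_mk,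
    Complex.ofReal_mul, Complex.ofReal_pow, mul_div_assoc]
  rfl

end Pool.Agent.Lib.MP_7f377f_mp.Kw
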