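import Pool.Agent.Lib.MP_7f377f_mp.Heat3

/-! All differences of the lattice Green function on `ℤ^4` and their scaling limits. -/

noncomputable section

namespace Pool.Agent.Lib.MP_7f377f_mp.Kw

open Complex MeasureTheory Real Filter Topology Set Heat

theorem gk_right (a b : ℕ) (s x : ℝ) : gk a (b + 1) s x = -gk (a + 1) b s x := by
  rw [gk, gk, ← mul_neg, ← integral_neg]
  congr 2
  funext u
  simp only [gsym]
  ring

theorem norm_gsym (a b : ℕ) (s x u : ℝ) : ‖gsym a b s x u‖ ≤ maj (a + b) s u := by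
  have e1 : (I * x * u).re = 0 := by simp
  have e2 : (-(s : ℂ) * u ^ 2).re = -s * u ^ 2 := by
    rw [show -(s : ℂ) * u ^ 2 = ((-s * u ^ 2 : ℝ) : ℂ) by push_cast; ring, ofReal_re]
  simp only [gsym, norm_mul, norm_pow, norm_neg, norm_I, one_mul, Complex.norm_exp, e1, e2,
    Real.exp_zero, mul_one, norm_real, Real.norm_eq_abs, maj, ← pow_add]
  gcongr
  linarith

theorem gk_deriv (a b : ℕ) {s : ℝ} (hs : 0 < s) (x : ℝ) :
    HasDerivAt (gk a b s) (gk (a + 1) b s x) x := by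
  have c : ∀ a x, Continuous (gsym a b s x) := fun a x => by unfold gsym; fun_prop
  refine HasDerivAt.const_mul _ (hasDerivAt_integral_of_dominated_loc_of_deriv_le
    (F := fun x u => gsym a b s x u) (F' := fun x u => gsym (a + 1) b s x u)
    (bound := maj (a + 1 + b) s) univ_mem (.of_forall fun x => (c _ x).aestronglyMeasurable)
    ((maj_integrable _ hs).mono' (c _ x).aestronglyMeasurable (ae_of_all _ (norm_gsym a b s x)))
    (c _ x).aestronglyMeasurable (ae_of_all _ fun u x _ => norm_gsym _ _ _ _ _)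
    (maj_integrable _ hs) (ae_of_all _ fun u x _ => ?_)).2
  have h0 : HasDerivAt (fun t : ℝ => (t : ℂ)) 1 x := by
    simpa using (hasDerivAt_id x).ofReal_comp
  refine (((h0.const_mul I).mul_const (u : ℂ)).cexp.const_mul _).congr_deriv ?_
  simp only [gsym]
  ring

theorem gk_meas (a b : ℕ) (x : ℝ) : StronglyMeasurable fun s => gk a b s x :=
  stronglyMeasurable_const.mul (StronglyMeasurable.integral_prod_right
    (f := fun s u => gsym a b s x u) (Continuous.stronglyMeasurable (by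
      unfold Function.uncurry gsym; fun_prop)))

variable (a b : Fin 4 → ℕ)

/-- the majorant -/
def mj (δ s : ℝ) : ℝ := (∏ l, hC (a l + b l)) *
  (1 + (∑ l, a l + ∑ l, b l + 4 : ℕ) / δ) ^ (∑ l, a l + ∑ l, b l + 4) * (s + 1) ^ (-(3 / 2) : ℝ)

theorem H_bd {ε δ s : ℝ} (he : 0 < ε) (h1 : ε < 1) (hδ0 : 0 < δ) (hs0 : 0 < s) (x : Fin 4 → ℤ)
    {i : Fin 4} (h2 : δ < |ε * x i|) :
    ‖H a b (s / ε ^ 2) x / (ε : ℂ) ^ (∑ l, a l + ∑ l, b l + 4)‖ ≤ mj a b δ s := by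
  have h0 : 0 ≤ ∏ l, hC (a l + b l) := Finset.prod_nonneg fun l _ => hC_nonneg _
  have hb := norm_H_le a b (t := s / ε ^ 2) (by positivity) x i
  rw [norm_div, norm_pow, Complex.norm_real, Real.norm_of_nonneg he.le, mj, ← inv_sqrt_cube hs0.le]
  obtain ⟨m, hm⟩ : ∃ m, ∑ l, a l + ∑ l, b l + 4 = m + 3 := ⟨∑ l, a l + ∑ l, b l + 1, rfl⟩
  rw [hm] at hb ⊢
  set r := √(s / ε ^ 2 + 1) with hr
  have hr0 : 0 < r := by positivity
  have hr2 : r ^ 2 = s / ε ^ 2 + 1 := Real.sq_sqrt (by positivity)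
  set v := (ε * r)⁻¹ with hv
  have hv0 : 0 < v := by positivity
  have hu2 : (ε * r) ^ 2 = s + ε ^ 2 := by rw [mul_pow, hr2]; field_simp
  have hq : √(s + 1) ≤ ε * r + 1 := by
    apply Real.sqrt_le_iff.2 ⟨by positivity, ?_⟩
    nlinarith [mul_pos he hr0]
  have hq0 : 0 < √(s + 1) := by positivity
  have k1 : Real.exp (-(|(x i : ℝ)| / r)) ≤ Real.exp (-(δ * v)) := by
    apply Real.exp_le_exp.2
    rw [neg_le_neg_iff, abs_mul, abs_of_pos he] at *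
    calc δ * v ≤ ε * |(x i : ℝ)| * v := by gcongr
      _ = _ := by rw [hv]; field_simp
  have k2 : v ≤ (1 + v) * (√(s + 1))⁻¹ := by
    rw [le_mul_inv_iff₀ hq0]
    calc v * √(s + 1) ≤ v * (ε * r + 1) := by gcongr
      _ = _ := by rw [hv]; field_simp
  have k3 : v ^ (m + 3) ≤ (1 + v) ^ (m + 3) * ((√(s + 1))⁻¹) ^ 3 := by
    calc v ^ (m + 3) = v ^ m * v ^ 3 := by ring
      _ ≤ (1 + v) ^ m * ((1 + v) * (√(s + 1))⁻¹) ^ 3 := by gcongr; linarith
      _ = _ := by ring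
  have k4 := bound_aux (m + 3) hδ0 hv0.le
  calc _ ≤ (∏ l, hC (a l + b l)) * (r⁻¹) ^ (m + 3) * Real.exp (-(δ * v)) / ε ^ (m + 3) := by
        gcongr
        exact hb.trans (by gcongr)
    _ = (∏ l, hC (a l + b l)) * v ^ (m + 3) * Real.exp (-(δ * v)) := by
        rw [hv, mul_inv, mul_pow, inv_pow ε]; ring
    _ ≤ (∏ l, hC (a l + b l)) * ((1 + v) ^ (m + 3) * ((√(s + 1))⁻¹) ^ 3) *
        Real.exp (-(δ * v)) := by gcongr
    _ = (∏ l, hC (a l + b l)) * ((1 + v) ^ (m + 3) * Real.exp (-(δ * v))) *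
        ((√(s + 1))⁻¹) ^ 3 := by ring
    _ ≤ _ := by gcongr

theorem H_lim {ε : ℕ → ℝ} {x : ℕ → Fin 4 → ℤ} {y : Fin 4 → ℝ} (hε : ∀ n, 0 < ε n)
    (hε0 : Tendsto ε atTop (𝓝 0)) (hx : ∀ l, Tendsto (fun n => ε n * x n l) atTop (𝓝 (y l)))
    {s : ℝ} (hs : 0 < s) :
    Tendsto (fun n => H a b (s / ε n ^ 2) (x n) / (ε n : ℂ) ^ (∑ l, a l + ∑ l, b l + 4)) atTop
      (𝓝 (∏ l, gk (a l) (b l) s (y l))) := by
  refine (tendsto_finsetProd Finset.univ fun l _ =>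
    hk_tendsto (a l) (b l) hs hε hε0 (hx l)).congr fun n => ?_
  unfold H
  rw [Finset.prod_div_distrib, Finset.prod_pow_eq_pow_sum, Finset.sum_add_distrib,
    Finset.sum_add_distrib]
  simp

theorem H_ev {ε : ℕ → ℝ} {x : ℕ → Fin 4 → ℤ} {y δ : ℝ} {i : Fin 4} (hε : ∀ n, 0 < ε n)
    (hε0 : Tendsto ε atTop (𝓝 0)) (hx : Tendsto (fun n => ε n * x n i) atTop (𝓝 y)) (δ0 : 0 < δ)
    (hy : δ < |y|) : ∀ᶠ n in atTop, ∀ s, 0 < s →
      ‖H a b (s / ε n ^ 2) (x n) / (ε n : ℂ) ^ (∑ l, a l + ∑ l, b l + 4)‖ ≤ mj a b δ s := by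
  filter_upwards [hε0.eventually (gt_mem_nhds one_pos), hx.abs.eventually (lt_mem_nhds hy)]
    with n h1 h2 s hs using H_bd a b (hε n) h1 δ0 hs _ h2

theorem gk_bd {y : Fin 4 → ℝ} {δ s : ℝ} {i : Fin 4} (δ0 : 0 < δ) (hy : δ < |y i|) (hs : 0 < s) :
    ‖∏ l, gk (a l) (b l) s (y l)‖ ≤ mj a b δ s := by
  have hε : ∀ n : ℕ, 0 < 1 / ((n : ℝ) + 1) := fun n => by positivity
  have hε0 := tendsto_one_div_add_atTop_nhds_zero_nat (𝕜 := ℝ)
  have hx : ∀ l, Tendsto (fun n : ℕ => 1 / ((n : ℝ) + 1) * (⌊y l * (n + 1)⌋ : ℤ)) atTop (𝓝 (y l)) :=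
    fun l => by
      refine tendsto_iff_dist_tendsto_zero.2 (squeeze_zero (fun _ => dist_nonneg) (fun n => ?_) hε0)
      have n0 : (0 : ℝ) < n + 1 := by positivity
      rw [Real.dist_eq, show 1 / ((n : ℝ) + 1) * (⌊y l * (n + 1)⌋ : ℤ) - y l =
        1 / ((n : ℝ) + 1) * ((⌊y l * (n + 1)⌋ : ℤ) - y l * (n + 1)) by field_simp, abs_mul,
        abs_of_pos (hε n)]
      refine mul_le_of_le_one_right (hε n).le (abs_le.2 ⟨?_, ?_⟩)
      · linarith [Int.lt_floor_add_one (y l * (n + 1))]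
      · linarith [Int.floor_le (y l * (n + 1))]
  exact le_of_tendsto (H_lim a b (x := fun n l => ⌊y l * (n + 1)⌋) hε hε0 hx hs).norm
    ((H_ev a b (x := fun n l => ⌊y l * (n + 1)⌋) hε hε0 (hx i) δ0 hy).mono fun n h => h s hs)

/-- the scaling limit -/
def Ph (y : Fin 4 → ℝ) : ℂ := ∫ s in Ioi (0 : ℝ), ∏ l, gk (a l) (b l) s (y l)

theorem K_seq {ε : ℕ → ℝ} {x : ℕ → Fin 4 → ℤ} {y : Fin 4 → ℝ} {i : Fin 4} (hy : y i ≠ 0)
    (hε : ∀ n, 0 < ε n) (hε0 : Tendsto ε atTop (𝓝 0))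
    (hx : ∀ l, Tendsto (fun n => ε n * x n l) atTop (𝓝 (y l))) :
    Tendsto (fun n => K a b (x n) / (ε n : ℂ) ^ (∑ l, a l + ∑ l, b l + 2)) atTop (𝓝 (Ph a b y)) := by
  have e : ∀ n, K a b (x n) / (ε n : ℂ) ^ (∑ l, a l + ∑ l, b l + 2) = ∫ s in Ioi (0 : ℝ),
      H a b (s / ε n ^ 2) (x n) / (ε n : ℂ) ^ (∑ l, a l + ∑ l, b l + 4) := by
    intro n
    have hne : (ε n : ℂ) ≠ 0 := by exact_mod_cast (hε n).ne'
    have h := integral_comp_mul_right_Ioi (fun t => H a b t (x n)) 0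
      (b := (ε n ^ 2)⁻¹) (by have := hε n; positivity)
    rw [integral_div]
    simp only [div_eq_mul_inv (_ : ℝ)]
    rw [h, zero_mul, inv_inv, real_smul]
    unfold K
    push_cast
    field_simp
    ring
  simp_rw [e]
  have y0 := abs_pos.2 hy
  exact tendsto_integral_filter_of_dominated_convergence (mj a b (|y i| / 2))
    (.of_forall fun n => Continuous.aestronglyMeasurable
      (((H_cont a b (x n)).comp (continuous_id.div_const _)).div_const _))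
    ((H_ev a b hε hε0 (hx i) (half_pos y0) (half_lt_self y0)).mono fun n h =>
      (ae_restrict_iff' measurableSet_Ioi).2 (ae_of_all _ h)) (maj_int.const_mul _)
    ((ae_restrict_iff' measurableSet_Ioi).2 (ae_of_all _ fun s hs => H_lim a b hε hε0 hx hs))

theorem K_lim {T : Type} {F : Filter T} {ε : T → ℝ} {x : T → Fin 4 → ℤ} {y : Fin 4 → ℝ}
    (hy : y ≠ 0) (hε : Tendsto ε F (𝓝[>] 0)) (hx : ∀ l, Tendsto (fun t => ε t * x t l) F (𝓝 (y l))) :
    Tendsto (fun t => K a b (x t) / (ε t : ℂ) ^ (∑ l, a l + ∑ l, b l + 2)) F (𝓝 (Ph a b y)) := by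
  obtain ⟨i, hi⟩ := Function.ne_iff.1 hy
  have : Tendsto (fun q : ℝ × (Fin 4 → ℤ) => K a b q.2 / (q.1 : ℂ) ^ (∑ l, a l + ∑ l, b l + 2))
      (comap (fun q => (q.1, fun l => q.1 * q.2 l)) (𝓝[>] 0 ×ˢ 𝓝 y)) (𝓝 (Ph a b y)) := by
    refine tendsto_iff_seq_tendsto.2 fun u hu => ?_
    obtain ⟨h1, h2⟩ := tendsto_prod_iff'.1 (tendsto_comap_iff.1 hu)
    obtain ⟨h3, h4⟩ := tendsto_nhdsWithin_iff.1 h1
    obtain ⟨N, hN⟩ := eventually_atTop.1 h4
    exact (tendsto_add_atTop_iff_nat N).1 (K_seq a b (ε := fun n => (u (n + N)).1)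
      (x := fun n => (u (n + N)).2) hi (fun n => hN _ (Nat.le_add_left _ _))
      ((tendsto_add_atTop_iff_nat N).2 h3) fun l =>
        (tendsto_add_atTop_iff_nat N).2 (tendsto_pi_nhds.1 h2 l))
  exact this.comp (f := fun t => (ε t, x t))
    (tendsto_comap_iff.2 (hε.prodMk (tendsto_pi_nhds.2 hx)))

theorem prod_gk_split (s : ℝ) (y : Fin 4 → ℝ) (μ : Fin 4) : ∏ l, gk (a l) (b l) s (y l) =
    gk (a μ) (b μ) s (y μ) * ∏ l ∈ Finset.univ.erase μ, gk (a l) (b l) s (y l) :=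
  (Finset.mul_prod_erase _ (fun l => gk (a l) (b l) s (y l)) (Finset.mem_univ μ)).symm

theorem Ph_right (y : Fin 4 → ℝ) (μ : Fin 4) :
    Ph a (b + Pi.single μ 1) y = -Ph (a + Pi.single μ 1) b y := by
  rw [Ph, Ph, ← integral_neg]
  congr 1
  funext s
  rw [prod_gk_split _ _ _ _ μ, prod_gk_split _ _ _ _ μ]
  simp only [Pi.add_apply, Pi.single_eq_same, gk_right, neg_mul]
  congr 2
  refine Finset.prod_congr rfl fun l hl => ?_
  simp [Pi.single_eq_of_ne (Finset.ne_of_mem_erase hl)]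

theorem pg_deriv {s : ℝ} (hs : 0 < s) (y : Fin 4 → ℝ) (μ : Fin 4) (t : ℝ) : HasDerivAt
    (fun t : ℝ => ∏ l, gk (a l) (b l) s ((y + t • Pi.single μ 1 : Fin 4 → ℝ) l))
    (∏ l, gk ((a + Pi.single μ 1 : Fin 4 → ℕ) l) (b l) s ((y + t • Pi.single μ 1 : Fin 4 → ℝ) l))
    t := by
  have e : ∀ (t : ℝ) (a : Fin 4 → ℕ), ∏ l, gk (a l) (b l) s ((y + t • Pi.single μ 1 : Fin 4 → ℝ) l) =
      gk (a μ) (b μ) s (y μ + t) * ∏ l ∈ Finset.univ.erase μ, gk (a l) (b l) s (y l) := fun t a => by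
    rw [prod_gk_split _ _ _ _ μ]
    congr 1
    · simp
    · exact Finset.prod_congr rfl fun l hl => by
        simp [Pi.single_eq_of_ne (Finset.ne_of_mem_erase hl)]
  simp only [e]
  refine (((gk_deriv _ _ hs _).comp_const_add (y μ) t).mul_const _).congr_deriv ?_
  congr 1
  · simp
  · exact Finset.prod_congr rfl fun l hl => by
      simp [Pi.single_eq_of_ne (Finset.ne_of_mem_erase hl)]

theorem Ph_deriv {y : Fin 4 → ℝ} (hy : y ≠ 0) (μ : Fin 4) : HasDerivAt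
    (fun t : ℝ => Ph a b (y + t • Pi.single μ 1)) (Ph (a + Pi.single μ 1) b y) 0 := by
  obtain ⟨i, hi⟩ := Function.ne_iff.1 hy
  have y0 : 0 < |y i| / 2 := half_pos (abs_pos.2 hi)
  have m : ∀ (a : Fin 4 → ℕ) (y : Fin 4 → ℝ), AEStronglyMeasurable
      (fun s => ∏ l, gk (a l) (b l) s (y l)) (volume.restrict (Ioi 0)) := fun a y =>
    (Finset.stronglyMeasurable_fun_prod _ fun l _ => gk_meas _ _ _).aestronglyMeasurable
  have k : ∀ t ∈ Metric.ball (0 : ℝ) (|y i| / 2),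
      |y i| / 2 < |(y + t • Pi.single μ 1 : Fin 4 → ℝ) i| := fun t ht => by
    rw [mem_ball_zero_iff, Real.norm_eq_abs] at ht
    have h1 : |(t • Pi.single μ 1 : Fin 4 → ℝ) i| ≤ |t| := by
      by_cases h : i = μ <;> simp [h]
    have := abs_add_le ((y + t • Pi.single μ 1 : Fin 4 → ℝ) i) (-(t • Pi.single μ 1 : Fin 4 → ℝ) i)
    rw [abs_neg, Pi.add_apply, add_neg_cancel_right] at this
    rw [Pi.add_apply]
    linarith
  have bd : ∀ (a : Fin 4 → ℕ), ∀ᵐ s ∂volume.restrict (Ioi (0 : ℝ)),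
      ∀ t ∈ Metric.ball (0 : ℝ) (|y i| / 2), ‖∏ l, gk (a l) (b l) s
        ((y + t • Pi.single μ 1 : Fin 4 → ℝ) l)‖ ≤ mj a b (|y i| / 2) s := fun a =>
    (ae_restrict_iff' measurableSet_Ioi).2 (ae_of_all _ fun s hs t ht => gk_bd _ _ y0 (k t ht) hs)
  have I : ∀ a : Fin 4 → ℕ, Integrable (mj a b (|y i| / 2)) (volume.restrict (Ioi 0)) :=
    fun a => maj_int.const_mul _
  generalize hF : (fun (a : Fin 4 → ℕ) (t s : ℝ) =>
    ∏ l, gk (a l) (b l) s ((y + t • Pi.single μ 1 : Fin 4 → ℝ) l)) = F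
  have m' : ∀ a t, AEStronglyMeasurable (F a t) (volume.restrict (Ioi 0)) := fun a t => hF ▸ m a _
  have bd' : ∀ a, ∀ᵐ s ∂volume.restrict (Ioi (0 : ℝ)), ∀ t ∈ Metric.ball (0 : ℝ) (|y i| / 2),
      ‖F a t s‖ ≤ mj a b (|y i| / 2) s := hF ▸ bd
  have d' : ∀ s, 0 < s → ∀ t, HasDerivAt (fun t => F a t s) (F (a + Pi.single μ 1) t s) t :=
    hF ▸ fun s hs t => pg_deriv a b hs y μ t
  have := (hasDerivAt_integral_of_dominated_loc_of_deriv_le (F := F a)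
    (F' := F (a + Pi.single μ 1)) (Metric.ball_mem_nhds 0 y0) (.of_forall (m' a))
    ((I a).mono' (m' a 0) ((bd' a).mono fun s h => h 0 (Metric.mem_ball_self y0)))
    (m' _ 0) (bd' _) (I _) ((ae_restrict_iff' measurableSet_Ioi).2 (ae_of_all _ fun s hs t _ =>
      d' s hs t))).2
  subst hF
  simp only [zero_smul, add_zero] at this
  exact this

theorem Ph_zero {y : EuclideanSpace ℝ (Fin 4)} (hy : y ≠ 0) :
    Ph 0 0 y = ((4 * π ^ 2 * ‖y‖ ^ 2)⁻¹ : ℝ) := by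
  have hn : 0 < ‖y‖ := norm_pos_iff.2 hy
  obtain ⟨-, e1⟩ := gamma_int one_pos (show 0 < ‖y‖ ^ 2 / 4 by positivity)
  have e : ∀ s ∈ Ioi (0 : ℝ), ∏ l, gk ((0 : Fin 4 → ℕ) l) ((0 : Fin 4 → ℕ) l) s (y l) =
      (((4 * π) ^ 2)⁻¹ * (s ^ (-(1 : ℝ) - 1) * Real.exp (-(‖y‖ ^ 2 / 4 / s))) : ℝ) := fun s hs => by
    have hs0 : 0 < s := hs
    simp only [Pi.zero_apply, gk00 hs0, ← ofReal_prod, gs]
    rw [Finset.prod_mul_distrib, ← Real.exp_sum, Finset.prod_const, Finset.card_univ,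
      Fintype.card_fin, ← Real.rpow_natCast, ← Real.rpow_mul (by positivity),
      EuclideanSpace.real_norm_sq_eq, ← Finset.sum_div, Finset.sum_neg_distrib,
      show -(1 / 2 : ℝ) * (4 : ℕ) = -2 by norm_num, show -(1 : ℝ) - 1 = -2 by norm_num,
      Real.mul_rpow (by positivity) hs0.le, Real.rpow_neg (by positivity), Real.rpow_two, mul_assoc]
    congr 4
    ring
  rw [Ph, setIntegral_congr_fun measurableSet_Ioi e, integral_complex_ofReal, integral_const_mul, e1,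
    Real.rpow_one, Real.Gamma_one]
  congr 1
  field_simp

end Pool.Agent.Lib.MP_7f377f_mp.Kw
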