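import Pool.Agent.Lib.MP_7f377f_mp.G.KwR2

/-! Wick functionals of lattice propagators: the rate of convergence. -/

noncomputable section

namespace Pool.Agent.Lib.MP_7f377f_mp.Kw

open Filter Topology MvPolynomial Asymptotics
open YZ (R4)
open Zf (Jx pr0 E wk)
open RG (St V)

variable {T σ : Type} {F : Filter T} {η : T → ℝ} {f g f' g' : T → ℂ}

theorem ev_ex {A B : T → Prop} (h : ∀ᶠ t in comap η (𝓝 0) ⊓ 𝓟 {t | A t}, B t) :
    ∃ C : ℕ, ∀ t, 0 ≤ η t → C * η t ≤ 1 → A t → B t := by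
  obtain ⟨δ, δ0, k⟩ := Metric.eventually_nhds_iff.1
    (eventually_comap.1 (eventually_inf_principal.1 h))
  obtain ⟨C, hC⟩ := exists_nat_gt δ⁻¹
  refine ⟨C, fun t a b => k ?_ t rfl⟩
  rw [Real.dist_eq, sub_zero, abs_of_nonneg a]
  rw [inv_lt_iff_one_lt_mul₀ δ0] at hC
  by_contra e
  nlinarith [mul_le_mul_of_nonneg_left (not_lt.1 e) (C.cast_nonneg (α := ℝ))]

/-- `f` is close to the bounded function `g` -/
def Ro (F : Filter T) (η : T → ℝ) (f g : T → ℂ) : Prop :=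
  (∃ κ > (0 : ℝ), (fun t => f t - g t) =O[F] fun t => η t ^ κ) ∧ g =O[F] fun _ => (1 : ℝ)

theorem Ro.refl (h : g =O[F] fun _ => (1 : ℝ)) : Ro F η g g :=
  ⟨⟨1, one_pos, by simpa only [sub_self] using isBigO_zero _ _⟩, h⟩

section
variable (hη : ∀ᶠ t in F, 0 < η t ∧ η t ≤ 1)
include hη

theorem pw_le {a b : ℝ} (h : a ≤ b) : (fun t => η t ^ b) =O[F] fun t => η t ^ a :=
  .of_bound' (hη.mono fun t ht => by
    rw [Real.norm_of_nonneg (Real.rpow_nonneg ht.1.le _),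
      Real.norm_of_nonneg (Real.rpow_nonneg ht.1.le _)]
    exact Real.rpow_le_rpow_of_exponent_ge ht.1 ht.2 h)

theorem Ro.add (h : Ro F η f g) (h' : Ro F η f' g') :
    Ro F η (fun t => f t + f' t) fun t => g t + g' t := by
  obtain ⟨⟨a, a0, h⟩, k⟩ := h
  obtain ⟨⟨b, b0, h'⟩, k'⟩ := h'
  refine ⟨⟨min a b, lt_min a0 b0, ?_⟩, k.add k'⟩
  simpa only [add_sub_add_comm] using
    (h.trans (pw_le hη (min_le_left ..))).add (h'.trans (pw_le hη (min_le_right ..)))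

theorem Ro.mul (h : Ro F η f g) (h' : Ro F η f' g') :
    Ro F η (fun t => f t * f' t) fun t => g t * g' t := by
  obtain ⟨⟨a, a0, h⟩, k⟩ := h
  obtain ⟨⟨b, b0, h'⟩, k'⟩ := h'
  have e := (h'.trans (pw_le hη b0.le)).add (k'.congr_right fun t => (Real.rpow_zero _).symm)
  refine ⟨⟨min a b, lt_min a0 b0, ?_⟩, by simpa using k.mul k'⟩
  refine ((((h.trans (pw_le hη (min_le_left a b))).mul e).congr_right fun t => by simp).add
    ((k.mul (h'.trans (pw_le hη (min_le_right a b)))).congr_right fun t => one_mul _)).congr_left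
      fun t => by ring

theorem Ro.wk {C C' : T → σ → σ → ℂ} (h : ∀ p q, Ro F η (fun t => C t p q) fun t => C' t p q)
    (P : MvPolynomial σ ℂ) : Ro F η (fun t => wk (C t) P) fun t => wk (C' t) P := by
  have c : ∀ a : ℂ, Ro F η (fun _ => a) fun _ => a := fun a => .refl (isBigO_const_const _ one_ne_zero _)
  simp only [Zf.wk_eq]
  exact Zf.E_mem (Y := T × Bool) (p := fun f => Ro F η (fun t => f (t, true)) fun t => f (t, false))
    c (fun _ _ => .add hη) (fun _ _ => .mul hη) (fun o p q => (bif o.2 then C else C') o.1 p q / 2)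
    (fun p q => ((h p q).mul hη (c _)).add hη ((h q p).mul hη (c _))) P

end

theorem pL_bd {δ : ℝ} (δ0 : 0 < δ) {y : T → R4} (h : ∀ᶠ t in F, δ ≤ ‖y t‖) (c c' : Jx →₀ ℝ) :
    (fun t => pL c c' (y t)) =O[F] fun _ => (1 : ℝ) := by
  simp only [pL, Finsupp.linearCombination_apply, Finsupp.sum, smul_eq_mul]
  refine .fun_sum fun I _ => .const_mul_left (.fun_sum fun J _ => .const_mul_left ?_ _) _
  obtain ⟨C, hC⟩ := (isCompact_sphere (0 : R4) δ).exists_bound_of_continuousOn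
    ((Zf.pr_cont (d := 1) (J, 0) (I, 0)).mono fun v hv (e : v = 0) => δ0.ne (by simpa [e] using hv))
  refine .of_bound C (h.mono fun t ht => ?_)
  have n : 0 < ‖y t‖ := δ0.trans_le ht
  have p := div_pos δ0 n
  rw [pr0, ← Zf.pr_hom p.ne' _ _ (norm_pos_iff.1 n), norm_mul, norm_one, mul_comm C]
  exact mul_le_mul (by
    rw [Real.norm_of_nonneg (by positivity)]
    exact pow_le_one₀ p.le ((div_le_one n).2 ht)) (hC _ (by simp [norm_smul, n.ne', δ0.le]))
    (norm_nonneg _) zero_le_one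

theorem kf_ro {δ : ℝ} (δ0 : 0 < δ) {ε : T → ℝ} {x : T → St} {y : T → R4}
    (h0 : ∀ᶠ t in F, Ad δ (ε t) (η t) (x t) (y t)) (hε : Tendsto ε F (𝓝 0)) {n m : ℕ}
    {φ ψ : V →ₗ[ℝ] ℝ} {c c' : Jx →₀ ℝ} (h : Lead n φ c) (h' : Lead m ψ c') :
    Ro F η (fun t => (((ε t)⁻¹ ^ (n + 2 + (m + 2)) * kf (x t) φ ψ : ℝ) : ℂ))
      fun t => (pL c c' (y t) : ℝ) := by
  refine ⟨⟨_, by positivity, ((Complex.isBigO_ofReal_left).2
    (kf_rate δ0 h0 hε h h')).congr_left fun t => ?_⟩,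
    Complex.isBigO_ofReal_left.2 (pL_bd δ0 (h0.mono fun _ => Ad.far) c c')⟩
  rw [← Complex.ofReal_sub, inv_pow, div_eq_inv_mul]

end Pool.Agent.Lib.MP_7f377f_mp.Kw
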