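import Pool.Agent.Lib.MP_7f377f_mp.G.KwG
import Pool.Agent.Lib.MP_7f377f_mp.G.JuT4
import Pool.Agent.Lib.MP_7f377f_mp.G.ZfC
import Pool.Agent.Lib.MP_7f377f_mp.StD

/-! Wick ordered letters. -/

noncomputable section

set_option linter.unusedSectionVars false
variable [Pool.Agent.Lib.MP_7f377f_mp.GD]

namespace Pool.Agent.Lib.MP_7f377f_mp.RG.Tl

open Finset MvPolynomial Wd Q4
open Zf (Jx E wk fp sy)
open Kw (kf sc pL)
open Finsupp (linearCombination)
open YZ (R4)

variable {α β ι : Type}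

/-- linear substitutions -/
def sb (s : α → β →₀ ℝ) : Cp α →ₐ[ℂ] Cp β :=
  aeval fun q => (s q.1).sum fun b t => (t : ℂ) • X (b, q.2)

/-- kernels which are diagonal in the colour -/
def ck (B : α → α → ℝ) (p q : α × Fin GD.d) : ℂ := if p.2 = q.2 then B p.1 q.1 else 0

/-- lattice Wick ordering -/
def wq (l : α → Lp →₀ ℝ) : Module.End ℂ (Cp α) :=
  Zf.ex (ck fun a a' => -(kf 0 (fl (l a)) (fl (l a')) / 2))

/-- the rescaled Wick ordered letter -/
def zl (l : α → Lp →₀ ℝ) (n : α → ℕ) (ε r : ℝ) : Cp α →ₗ[ℂ] Pl :=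
  (lf fun a => r • l a).toLinearMap ∘ₗ wq l ∘ₗ
    (sc (fun q => n q.1 + 2) ((ε⁻¹ : ℝ) : ℂ)).toLinearMap

variable {l : α → Lp →₀ ℝ} {n : α → ℕ} {ε r : ℝ} {P : Cp α}

theorem lf_sb (l : α → Lp →₀ ℝ) : lf l = sb l := rfl

theorem zl_ap (P : Cp α) :
    zl l n ε r P = lf (fun a => r • l a) (wq l (sc (fun q => n q.1 + 2) ((ε⁻¹ : ℝ) : ℂ) P)) := rfl

theorem sb_X (s : α → β →₀ ℝ) (q : α × Fin GD.d) :
    sb s (X q) = ∑ b ∈ (s q.1).support, (s q.1 b : ℂ) • X (b, q.2) := aeval_X _ _

theorem sb_lin (s : α → β →₀ ℝ) (q : α × Fin GD.d) : sb s (X q) ∈ Zf.Lin _ ℂ :=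
  sb_X s q ▸ Submodule.sum_mem _ fun _ _ => Submodule.smul_mem _ _ (Zf.X_mem_Lin _)

theorem sb_sb {γ : Type} (s : α → β →₀ ℝ) (u : β → γ →₀ ℝ) (P : Cp α) :
    sb u (sb s P) = sb (fun a => linearCombination ℝ u (s a)) P := by
  refine DFunLike.congr_fun (algHom_ext (f := (sb u).comp (sb s)) fun q => ?_) P
  have e : ∀ f : γ →₀ ℝ, (f.sum fun b t => (t : ℂ) • (X (b, q.2) : Cp γ)) =
      linearCombination ℝ (fun b => X (b, q.2)) f := fun _ => rfl
  simp only [AlgHom.comp_apply, sb, aeval_X, e, Finsupp.apply_linearCombination]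
  simp only [Finsupp.sum, map_sum, map_smul, aeval_X, Finsupp.linearCombination_apply]
  rfl

theorem vl_sb (s : α → β →₀ ℝ) (ξ : β → C3) (P : Cp α) :
    vl ξ (sb s P) = vl (fun a => (s a).sum fun b t => (t : ℂ) • ξ b) P := by
  induction P using MvPolynomial.induction_on with
  | C a => simp [sb, vl]
  | add p q h h' => rw [map_add, vl_add, vl_add, h, h']
  | mul_X p i h =>
    rw [map_mul, vl_mul, vl_mul, h, vl_X, sb_X]
    simp only [Finsupp.sum, vl_sum, vl_smul, vl_X, Finset.sum_apply, Pi.smul_apply, smul_eq_mul]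

theorem iv_sb (h : Iv P) (s : α → β →₀ ℝ) : Iv (sb s P) := fun g ξ => by
  simp only [vl_sb, Finsupp.sum, ← adq_smul, ← adq_sum, h g]

theorem sc_sb (w : α → ℕ) (t : ℝ) :
    sc (fun q : α × Fin GD.d => w q.1) (t : ℂ) = sb fun a => .single a (t ^ w a) :=
  algHom_ext fun q => by simp [sc, sb, ← Complex.ofReal_pow]

theorem E_sb (s : α → β →₀ ℝ) (B : β → β → ℝ) (p q : α × Fin GD.d) :
    E (ck B) (sb s (X p) * sb s (X q)) = sy (ck fun a a' =>
      linearCombination ℝ (fun b => linearCombination ℝ (B b) (s a')) (s a)) p q := by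
  simp only [sb_X, sum_mul_sum, map_sum, smul_mul_smul_comm, map_smul, Zf.E_X_X, sy, ck,
    eq_comm (a := q.2), Finsupp.linearCombination_apply, Finsupp.sum, smul_eq_mul]
  split_ifs
  · push_cast
    simp only [mul_add, sum_add_distrib, mul_sum]
    rw [sum_comm (s := (s q.1).support)]
    simp only [mul_assoc, mul_left_comm]
  · simp

theorem kf_lin (z : St) (l' : β → Lp →₀ ℝ) (f : α →₀ ℝ) (g : β →₀ ℝ) :
    kf z (fl (linearCombination ℝ l f)) (fl (linearCombination ℝ l' g)) = linearCombination ℝ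
      (fun a => linearCombination ℝ (fun b => kf z (fl (l a)) (fl (l' b))) g) f := by
  have e : ∀ {γ : Type} (u : γ → Lp →₀ ℝ) f a,
      fl (linearCombination ℝ u f) a = ∑ c ∈ f.support, f c • fl (u c) a := fun u f a => by
    change Kw.fL _ a = ∑ c ∈ _, _ • Kw.fL _ a
    simp [Finsupp.linearCombination_apply, Finsupp.sum]
  simp only [kf, e]
  simp only [Finsupp.linearCombination_apply, Finsupp.sum, ← map_smul (fl _), ← map_sum (fl _)]
  refine sum_congr rfl fun a _ => congrArg _ (congrArg _ (_root_.funext fun e => ?_))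
  simp

theorem wq_sb (s : β → α →₀ ℝ) (P : Cp β) :
    wq l (sb s P) = sb s (wq (fun b => linearCombination ℝ l (s b)) P) :=
  Kw.ex_map _ (sb_lin s) (fun p q => by
    rw [E_sb]
    simp only [kf_lin]
    simp only [Finsupp.linearCombination_apply, Finsupp.sum, smul_eq_mul, mul_neg, sum_neg_distrib,
      sum_div, mul_div_assoc]) P

/-- substitutions which respect the orders -/
theorem zl_sb {m : β → ℕ} {s : β → α →₀ ℝ} (h : ∀ b, ∀ a ∈ (s b).support, n a = m b) (P : Cp β) :
    zl l n ε r (sb s P) = zl (fun b => linearCombination ℝ l (s b)) m ε r P := by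
  have e : sc (fun q => n q.1 + 2) ((ε⁻¹ : ℝ) : ℂ) (sb s P) =
      sb s (sc (fun q => m q.1 + 2) ((ε⁻¹ : ℝ) : ℂ) P) := by
    rw [sc_sb fun a => n a + 2, sc_sb fun a => m a + 2, sb_sb, sb_sb]
    congr 2
    funext b
    rw [Finsupp.linearCombination_single, Finsupp.linearCombination_apply]
    conv_rhs => rw [← (s b).sum_single, Finsupp.smul_sum]
    exact sum_congr rfl fun a ha => by simp [h b a ha, mul_comm]
  rw [zl_ap, zl_ap, e, wq_sb, lf_sb, sb_sb, lf_sb]
  simp only [Finsupp.linearCombination_apply, Finsupp.smul_sum, smul_comm r]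

theorem zl_rn (f : β → α) (P : Cp β) : zl l n ε r (rename (fun q => (f q.1, q.2)) P) =
    zl (fun b => l (f b)) (fun b => n (f b)) ε r P := by
  have e : rename (fun q : β × Fin GD.d => (f q.1, q.2)) = sb fun b => .single (f b) 1 :=
    algHom_ext fun q => by simp [sb]
  rw [e, zl_sb (m := fun b => n (f b)) fun b a ha => by
    rw [mem_singleton.1 (Finsupp.support_single_subset ha)]]
  simp only [Finsupp.linearCombination_single, one_smul]

theorem iv_ex (h : Iv P) (B : α → α → ℝ) : Iv (Zf.ex (ck B) P) := fun g => by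
  obtain ⟨φ, hφ⟩ : ∃ φ : Cp α →ₐ[ℂ] Cp α, φ = aeval fun q =>
    ∑ j, adq (star (cS g)) (Pi.single q.2 1) j • X (q.1, j) := ⟨_, rfl⟩
  have e : ∀ ξ P, vl ξ (φ P) = vl (fun i => adq (cS g) (ξ i)) P := fun ξ P => by
    induction P using MvPolynomial.induction_on with
    | C a => simp [vl]
    | add p q h h' => rw [map_add, vl_add, vl_add, h, h']
    | mul_X p i h =>
      rw [map_mul, vl_mul, vl_mul, h, vl_X, hφ, aeval_X]
      simp only [vl_sum, vl_smul, vl_X]
      have := dot_adq (cS g) (ξ i.1) (Pi.single i.2 1)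
      simp only [dot, Pi.single_apply, mul_ite, mul_one, mul_zero, sum_ite_eq', mem_univ,
        if_true] at this
      simp only [this, mul_comm]
  have k : φ P = P := MvPolynomial.funext fun c => (e (fun a k => c (a, k)) P).trans (h g _)
  intro ξ
  rw [← e, ← Kw.ex_map φ (B := ck B) (fun q => ?_) fun p q => ?_, k]
  · rw [hφ, aeval_X]
    exact Submodule.sum_mem _ fun _ _ => Submodule.smul_mem _ _ (Zf.X_mem_Lin _)
  · have := dot_adq_adq (uni_cS g⁻¹) (Pi.single p.2 1) (Pi.single q.2 1)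
    simp only [hφ, aeval_X, sum_mul_sum, map_sum, smul_mul_smul_comm, map_smul, Zf.E_X_X, sy, ck,
      smul_eq_mul, ← cS_inv, eq_comm (a := q.2)]
    simp only [dot, Pi.single_apply, ite_mul, one_mul, zero_mul, sum_ite_eq', mem_univ,
      if_true] at this
    simp only [eq_comm (b := _), ← ite_add_ite, add_zero, mul_ite, mul_zero, mul_add,
      sum_add_distrib, sum_ite_eq, sum_ite_eq', mem_univ, if_true, ← sum_mul, this]
    split_ifs <;> simp_all

theorem iv_zl (h : Iv P) : Iv (zl l n ε r P) := by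
  rw [zl_ap, sc_sb fun a => n a + 2, lf_sb]
  exact iv_sb (iv_ex (iv_sb h _) _) _

theorem cj_sb (s : α → β →₀ ℝ) (P : Cp α) :
    map (starRingEnd ℂ) (sb s P) = sb s (map (starRingEnd ℂ) P) := by
  induction P using MvPolynomial.induction_on with
  | C a => simp [sb]
  | add p q h h' => simp only [map_add, h, h']
  | mul_X p i h =>
    simp only [map_mul, h, map_X, sb_X, map_sum, cj_smul, Complex.conj_ofReal]

theorem cj_zl (P : Cp α) :
    map (starRingEnd ℂ) (zl l n ε r P) = zl l n ε r (map (starRingEnd ℂ) P) := by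
  rw [zl_ap, zl_ap, lf_sb, cj_sb, wq, ← Kw.ex_ring, sc_sb fun a => n a + 2, cj_sb]
  simp only [ck, apply_ite (starRingEnd ℂ), Complex.conj_ofReal, map_zero]
  rfl

theorem rl_zl (h : Rl P) : Rl (zl l n ε r P) := by rw [Rl, cj_zl, h]

theorem fl_map (g : B4) (f : Lp →₀ ℝ) (a : V) :
    fl (f.mapDomain (Lp.act g)) a = fl f (pb Neg.neg g a) := by
  change Kw.fL _ _ = _
  rw [Kw.fL, Finsupp.linearCombination_mapDomain]
  simp [fl, Finsupp.linearCombination_apply, Finsupp.sum, fxL, fx_pb, Lp.act]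

theorem Dz_gv (g : B4) (z : St) : Kw.Dz (gv g z) 1 = Kw.Dz z 1 := by
  simp only [Kw.Dz, ← C_1, C_apply, Kw.cf_mono, Heat.K, Heat.H, Finsupp.zero_apply]
  congr 3
  funext t
  rw [← Equiv.prod_comp (ax g⁻¹) fun l => Heat.hk 0 0 t (z l)]
  refine prod_congr rfl fun m _ => ?_
  unfold gv cd
  split_ifs
  exacts [rfl, Kw.hk_neg ..]

theorem kf_pb (g : B4) (z : St) (f f' : Lp →₀ ℝ) :
    kf (gv g z) (fl (f.mapDomain (Lp.act g))) (fl (f'.mapDomain (Lp.act g))) =
      kf z (fl f) (fl f') := by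
  simp only [kf, fl_map]
  refine congrArg _ (_root_.funext fun e => ?_)
  have k : ∀ (a : V) (e : Lk), pb Neg.neg g a e = (if (g.1 (e.2, true)).2 then 1 else -1 : ℝ) •
      a (gv g e.1 - if (g.1 (e.2, true)).2 then 0 else un (ax g e.2), ax g e.2) := fun a e => by
    unfold Wd.pb stp
    split_ifs <;> simp [ax]
  rw [k, ← map_smul]
  refine congrArg _ (_root_.funext fun e' => ?_)
  rw [Pi.smul_apply, k]
  by_cases h : e'.2 = e.2
  · simp only [h, if_true, ← Dz_gv g (z + e'.1 - e.1), gv_sub, gv_add, smul_smul, ← add_sub_assoc,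
      sub_sub_sub_cancel_right]
    split_ifs <;> simp
  · simp [h]

/-- covariance under the lattice symmetries -/
theorem act_zl (g : B4) (P : Cp α) :
    act g (zl l n ε r P) = zl (fun a => (l a).mapDomain (Lp.act g)) n ε r P := by
  have e : act g = sb fun w => .single (w.act g) 1 := algHom_ext fun q => by simp [sb, act]
  have := kf_pb g 0
  rw [gv_zero] at this
  rw [zl_ap, zl_ap, e, lf_sb, sb_sb, lf_sb, wq, wq]
  simp only [this, map_smul]
  congr 2
  funext a
  simp [Finsupp.linearCombination_apply, Finsupp.mapDomain]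

end Pool.Agent.Lib.MP_7f377f_mp.RG.Tl
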