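import Pool.Agent.Lib.MP_7f377f_mp.G.KwL
import Pool.Agent.Lib.MP_7f377f_mp.G.InfA

/-! Large fields are rare at weak coupling. -/

noncomputable section

set_option linter.unusedSectionVars false
variable [Pool.Agent.Lib.MP_7f377f_mp.GD]

namespace Pool.Agent.Lib.MP_7f377f_mp.RG.Tl

open Finset MeasureTheory Q4
open YM7 (SU2 wilson)

variable [MeasurableSpace SU2] [BorelSpace SU2] (h : Measure SU2) [h.IsHaarMeasure]
  [IsProbabilityMeasure h]

/-- one plaquette -/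
theorem prob_fq1 (m : ℕ) : ∃ K : ℝ, 0 ≤ K ∧ ∀ (b θ : ℝ) (L : ℕ) [NeZero L] (x : St) (μ ν : Fin 4),
    0 < b → 2 * b ≤ L → 0 < θ →
      (wilson h b L).real {U | θ < fq (Fi.lf U) x μ ν} ≤ K / (θ * √b) ^ m := by
  let _ := YM5.quatHS
  obtain ⟨C, C0, hC⟩ := Weak.moment_EU' YM5.rho h YM5.rho_cont 4 m
  refine ⟨1 + C, by positivity, fun b θ L _ x μ ν b0 hL θ0 => ?_⟩
  have r2 : √(2 * b) ^ 2 = 2 * b := Real.sq_sqrt (by positivity)
  have H := hC L √(2 * b) (by positivity) (by rw [r2]; exact hL) (Fi.cst L x, μ, ν)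
  rw [r2, show 2 * b / 4 = b / 2 by ring, ← YM7.wilson_nu] at H
  have cE := Weak.continuous_EU (d := 4) (L := L) YM5.rho YM5.rho_cont √(2 * b) (Fi.cst L x, μ, ν)
  set F := Weak.EU YM5.rho √(2 * b) ((Fi.cst L x, μ, ν) : Weak.Plaq 4 L) with hF
  have F0 : ∀ U, 0 ≤ F U := Weak.EU_nonneg _ _ _
  have iF : Integrable (fun U => F U ^ m) (wilson h b L) := Weak.cint _ (by fun_prop)
  have t0 : 0 < θ * √b := by positivity
  have M := mul_meas_ge_le_integral_of_nonneg (μ := wilson h b L) (f := fun U => 1 + F U ^ m)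
    (.of_forall fun U => by have := F0 U; positivity) ((integrable_const _).add iF) ((θ * √b) ^ m)
  rw [integral_add (integrable_const _) iF, integral_const, probReal_univ, one_smul] at M
  rw [le_div_iff₀ (by positivity), mul_comm]
  refine (mul_le_mul_of_nonneg_left (measureReal_mono fun U (hU : θ < _) => ?_)
    (by positivity)).trans (M.trans (by linarith))
  have e : F U = 2 * b * fq (Fi.lf U) x μ ν ^ 2 := by
    rw [hF, Weak.EU, r2, ← YM7.pe_eq, Fi.fq_lf]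
    exact congrArg _ (GD.norm_q_sq (YM4.plaq U (Fi.cst L x) μ ν)).symm
  have s : (θ * √b) ^ 2 ≤ F U := by
    rw [e, mul_pow, Real.sq_sqrt b0.le]
    nlinarith [pow_le_pow_left₀ θ0.le hU.le 2, mul_pos b0 (pow_pos θ0 2)]
  show (θ * √b) ^ m ≤ 1 + F U ^ m
  rcases le_total (θ * √b) 1 with c | c
  · exact (pow_le_one₀ t0.le c).trans (le_add_of_nonneg_right (pow_nonneg (F0 U) _))
  · exact (pow_le_pow_left₀ t0.le ((le_self_pow₀ c two_ne_zero).trans s) m).trans
      (le_add_of_nonneg_left one_pos.le)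

/-- large fields are rare -/
theorem prob_fq0 (m : ℕ) : ∃ K : ℝ, ∀ (b θ : ℝ) (L R : ℕ) [NeZero L] (x : St), 0 < b → 2 * b ≤ L →
    0 < θ → (wilson h b L).real {U | ¬ Fq R θ (sh x (Fi.lf U))} ≤
      K * (R + 1) ^ 4 / (θ * √b) ^ m := by
  obtain ⟨K, K0, hK⟩ := prob_fq1 h m
  refine ⟨256 * K, fun b θ L R _ x b0 hL θ0 => ?_⟩
  have e : {U : YM7.Cfg L | ¬ Fq R θ (sh x (Fi.lf U))} =
      ⋃ p ∈ box R ×ˢ (univ : Finset (Fin 4 × Fin 4)), {U | θ < fq (Fi.lf U) (p.1 + x) p.2.1 p.2.2} := by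
    ext U
    simp [Fq, Fi.fq_sh]
  rw [e]
  refine (measureReal_biUnion_finset_le _ _).trans
    ((sum_le_card_nsmul _ _ _ fun p _ => hK b θ L _ _ _ b0 hL θ0).trans ?_)
  rw [card_product, card_box, nsmul_eq_mul, mul_div_assoc']
  refine div_le_div_of_nonneg_right ?_ (by positivity)
  have : (2 * R + 1 : ℝ) ^ 4 ≤ (2 * (R + 1)) ^ 4 :=
    pow_le_pow_left₀ (by positivity) (by linarith) 4
  simp only [card_univ, Fintype.card_prod, Fintype.card_fin]
  push_cast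
  nlinarith

end Pool.Agent.Lib.MP_7f377f_mp.RG.Tl
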