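import Pool.Agent.Lib.MP_7f377f_mp.G.KwG

/-! Moments of polynomials in the holonomies; rare events. -/

noncomputable section

namespace Pool.Agent.Lib.MP_7f377f_mp.Kw

open MeasureTheory Filter Topology Weak HS MvPolynomial
open RG (St)
open Finsupp (linearCombination)

set_option linter.unusedSectionVars false

variable {A : Type} [NormedRing A] [StarRing A] [NormedAlgebra ℝ A] [HS A]
variable {G : Type} [Group G] (ρ : G →* unitary A) {σ ι κ : Type}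

theorem ex_maj (P : MvPolynomial σ ℂ) : ∃ P' : MvPolynomial σ ℝ, ∀ ξ : σ → ℝ,
    ‖eval (fun u => (ξ u : ℂ)) P‖ ≤ eval ξ P' := by
  induction P using MvPolynomial.induction_on with
  | C a => exact ⟨C ‖a‖, by simp⟩
  | add p q a b => exact ⟨a.choose + b.choose, fun ξ => by
      simpa only [map_add] using norm_add_le_of_le (a.choose_spec ξ) (b.choose_spec ξ)⟩
  | mul_X p u a =>
    refine ⟨a.choose * (1 + X u ^ 2), fun ξ => ?_⟩
    simp only [map_mul, map_add, map_one, map_pow, eval_X]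
    refine norm_mul_le_of_le (a.choose_spec ξ) ?_
    rw [Complex.norm_real, Real.norm_eq_abs, ← sq_abs]
    nlinarith [abs_nonneg (ξ u)]

theorem sc_maj (W : Module.End ℂ (MvPolynomial σ ℂ)) (w : σ → ℕ) (P : MvPolynomial σ ℂ) :
    ∃ (P' : MvPolynomial σ ℝ) (q : ℕ), ∀ (ξ : σ → ℝ) (t : ℝ), 1 ≤ t →
      ‖eval (fun u => (ξ u : ℂ)) (W (sc w (t : ℂ) P))‖ ≤ t ^ q * eval ξ P' := by
  induction P using MvPolynomial.induction_on' with
  | monomial m a =>
    obtain ⟨P', h⟩ := ex_maj (W (monomial m a))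
    refine ⟨P', Finsupp.weight w m, fun ξ t ht => ?_⟩
    rw [sc_mono, map_smul, smul_eval]
    exact norm_mul_le_of_le (by rw [norm_pow, Complex.norm_of_nonneg (by linarith)]) (h ξ)
  | add p p' a b =>
    obtain ⟨P, q, a⟩ := a
    obtain ⟨P', q', b⟩ := b
    refine ⟨P + P', q + q', fun ξ t ht => ?_⟩
    have a0 := (norm_nonneg _).trans (a ξ 1 le_rfl)
    have b0 := (norm_nonneg _).trans (b ξ 1 le_rfl)
    rw [one_pow, one_mul] at a0 b0
    simp only [map_add, mul_add]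
    refine norm_add_le_of_le ((a ξ t ht).trans ?_) ((b ξ t ht).trans ?_) <;> gcongr <;> omega

variable [TopologicalSpace G] [IsTopologicalGroup G] [CompactSpace G]
  [SecondCountableTopology G] [MeasurableSpace G] [BorelSpace G] (μ : Measure G)
  [μ.IsHaarMeasure] [IsProbabilityMeasure μ]

theorem Cl.mom {d : ℕ} [NeZero d] {a b : Ob ι G d} (hρ : Continuous ρ) (h : Cl ρ a b)
    (cb : ∀ L [NeZero L] r x, Continuous (b L r x)) : ∃ K q : ℕ, ∀ (s L : ℕ) [NeZero L] (r : ℝ) x,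
      1 ≤ s → K * s ≤ r → r ^ 2 ≤ L → (∀ i l, (x i l).natAbs ≤ s) →
        ∫ U, b L r x U ∂(nu μ ρ d L (r ^ 2 / 4)) ≤ K * s ^ q := by
  obtain ⟨K, N, K0, h⟩ := h
  obtain ⟨C, C1, hC⟩ := moment_SM ρ μ hρ d N
  have p : 0 ≤ K * (C * (N + 1) ^ (d * (N + 1))) := by positivity
  have N0 : (0 : ℝ) ≤ N := N.cast_nonneg
  obtain ⟨K', hK⟩ := exists_nat_ge (K * (C * (N + 1) ^ (d * (N + 1))) + (2 * N + 4))
  refine ⟨K', N + d * (N + 1), fun s L _ r x s1 hr hL hx => ?_⟩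
  have s1' : (1 : ℝ) ≤ s := by exact_mod_cast s1
  have := nu_prob (d := d) (L := L) μ ρ hρ (r ^ 2 / 4)
  have r1 : (2 * N + 4) * s ≤ r := by nlinarith
  have r2 : 1 ≤ r := by nlinarith
  have cS := continuous_SM (d := d) (L := L) ρ hρ r (s + N)
  refine (integral_mono (g := fun U => K * s ^ N * (1 + SM ρ r (s + N) U) ^ (N + 1))
    (cint _ (cb L r x)) (cint _ (by fun_prop)) fun U => ((le_abs_self _).trans
      (h s L r x U s1 r2 (by
        have : ((s + N + 1) * 2 : ℝ) ≤ L := by nlinarith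
        exact_mod_cast this) hx).1).trans ?_).trans ?_
  · have := SM_nonneg ρ r (s + N) U
    rw [Th, mul_pow, ← mul_assoc]
    beta_reduce
    gcongr
    exacts [by linarith, N.le_succ]
  · rw [integral_const_mul]
    refine (mul_le_mul_of_nonneg_left ((hC L r (by linarith) hL _ (by omega)).trans
      (c := C * ((N + 1) * s) ^ (d * (N + 1))) (by push_cast; gcongr; nlinarith))
      (by positivity)).trans (le_trans (le_of_eq (by rw [mul_pow]; ring)) (mul_le_mul_of_nonneg_right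
        (le_trans (le_add_of_nonneg_right (by positivity)) hK) (by positivity)))

variable (v : κ → A) (l : κ → RG.Wd.Lp →₀ ℝ)

theorem cl_hl (hρ : Continuous ρ) (hv : ∀ u, v u ∈ lieAlg ρ) (ϖ : κ → ι) (u : κ) :
    Cl ρ (fun _ _ r x U => hl ρ r (v u) (l u) (x (ϖ u)) (lz (fix U)))
      fun _ _ r x U => hl ρ r (v u) (l u) (x (ϖ u)) (lz (fix U)) := by
  obtain ⟨S, h1, -⟩ := ex_fL
  have c := fun w => cl_hw ρ hρ (hv u) (h1 w) (ϖ u)
  exact Cl.lin (fun w => (c w).trans (c w).symm) (l u)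

/-- rare events do not contribute -/
theorem cut_sc (hρ : Continuous ρ) (hv : ∀ u, v u ∈ lieAlg ρ) (ϖ : κ → ι)
    (W : Module.End ℂ (MvPolynomial κ ℂ)) (w : κ → ℕ) (P : MvPolynomial κ ℂ) (M : ℕ) :
    ∃ C : ℕ, ∀ (ε r : ℝ) (L : ℕ) [NeZero L] (x : ι → St) (ω : (Link 4 L → G) → ℂ), 0 < ε →
      C * ε ≤ 1 → ε⁻¹ ^ C ≤ r → r ^ 2 ≤ L → (∀ i l, ε ^ 2 * |(x i l : ℝ)| ≤ 1) → Measurable ω →
      (∀ U, ‖ω U‖ ≤ 2) → ∫ U, ‖ω U‖ ^ 2 ∂(nu μ ρ 4 L (r ^ 2 / 4)) ≤ (ε ^ C) ^ 2 →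
      ‖∫ U, ω U * eval (fun u => (hl ρ r (v u) (l u) (x (ϖ u)) (lz (fix U)) : ℂ))
        (W (sc w ((ε⁻¹ : ℝ) : ℂ) P)) ∂(nu μ ρ 4 L (r ^ 2 / 4))‖ ≤ ε ^ M := by
  obtain ⟨P', q, hP⟩ := sc_maj W w P
  have c : ∀ (Q : MvPolynomial κ ℝ) L [NeZero L] r (x : ι → St), Continuous fun U : Link 4 L → G =>
      eval (fun u => hl ρ r (v u) (l u) (x (ϖ u)) (lz (fix U))) Q := fun Q L _ r x =>
    (continuous_eval _).comp (continuous_pi fun u => (continuous_hl ρ hρ r _ _ _).comp continuous_fix)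
  obtain ⟨K, q', hK⟩ := Cl.mom ρ μ hρ (Cl.ev (cl_hl ρ v l hρ hv ϖ) (P' ^ 2)) (c _)
  refine ⟨K + M + q + 3 * q' + 4, fun ε r L _ x ω e0 e1 hr hL hx m1 m2 m3 => ?_⟩
  have := nu_prob (d := 4) (L := L) μ ρ hρ (r ^ 2 / 4)
  obtain ⟨E, hE, rfl⟩ : ∃ E, ε⁻¹ = E ∧ ε = E⁻¹ := ⟨_, rfl, (inv_inv _).symm⟩
  have E0 : 0 < E := inv_pos.1 e0
  rw [mul_inv_le_iff₀ E0, one_mul] at e1
  rw [hE] at hr ⊢
  have E1 : (K : ℝ) + 4 ≤ E := le_trans (by exact_mod_cast (by omega)) e1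
  have K0 : (0 : ℝ) ≤ K := K.cast_nonneg
  have E2 : 1 ≤ E := by linarith
  obtain ⟨s, s1, s2⟩ : ∃ s : ℕ, E ^ 2 ≤ s ∧ s ≤ E ^ 3 :=
    ⟨⌈E ^ 2⌉₊, Nat.le_ceil _, by nlinarith [Nat.ceil_lt_add_one (sq_nonneg E)]⟩
  have k := hK s L r x (by exact_mod_cast (one_le_pow₀ E2).trans s1) (le_trans (by
    calc _ ≤ E * E ^ 3 := by gcongr; linarith
      _ = E ^ 4 := by ring
      _ ≤ _ := pow_le_pow_right₀ E2 (by omega)) hr) hL fun i l => by
    have h6 := hx i l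
    rw [inv_pow, inv_mul_le_iff₀ (by positivity), mul_one, ← Int.cast_abs, ← Nat.cast_natAbs] at h6
    exact_mod_cast h6.trans s1
  obtain ⟨p, hp⟩ : ∃ p, p = E⁻¹ ^ (K + M + q + 3 * q' + 4) := ⟨_, rfl⟩
  have p0 : 0 < p := by rw [hp]; positivity
  rw [← hp] at m3
  have i1 : Integrable (fun U => ‖ω U‖ ^ 2) (nu μ ρ 4 L (r ^ 2 / 4)) :=
    .of_bound (m1.norm.pow_const 2).aestronglyMeasurable (2 ^ 2) (.of_forall fun U => by
      rw [norm_pow, norm_norm]; gcongr; exact m2 U)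
  have i2 := cint (nu μ ρ 4 L (r ^ 2 / 4)) (c (P' ^ 2) L r x)
  refine (norm_integral_le_of_norm_le (((i1.div_const p).add (i2.const_mul p)).const_mul (E ^ q))
    (.of_forall fun U => ?_)).trans ?_
  · refine (norm_mul_le_of_le le_rfl (hP _ E E2)).trans ?_
    rw [mul_left_comm, Pi.add_apply, map_pow]
    gcongr
    generalize eval _ P' = z
    rw [div_add' _ _ _ p0.ne', le_div_iff₀ p0]
    nlinarith [sq_nonneg (‖ω U‖ - p * z), sq_nonneg ‖ω U‖, sq_nonneg (p * z)]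
  · simp only [Pi.add_apply]
    rw [integral_const_mul, integral_add (i1.div_const p) (i2.const_mul p), integral_div,
      integral_const_mul]
    have k2 : (K : ℝ) * s ^ q' + 1 ≤ E * E ^ (3 * q') := by
      have := pow_le_pow_left₀ s.cast_nonneg s2 q'
      rw [← pow_mul] at this
      nlinarith [one_le_pow₀ (n := 3 * q') E2]
    calc _ ≤ E ^ q * (p * (E * E ^ (3 * q'))) := by
          gcongr
          have := (div_le_iff₀ p0).2 (m3.trans_eq (sq p))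
          nlinarith
      _ = E⁻¹ ^ M * E⁻¹ ^ (K + 3) := by rw [hp]; simp only [inv_pow]; field_simp; ring
      _ ≤ _ := mul_le_of_le_one_right (by positivity)
          (pow_le_one₀ e0.le (inv_le_one_of_one_le₀ E2))

end Pool.Agent.Lib.MP_7f377f_mp.Kw
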