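import Pool.Agent.Lib.MP_7f377f_mp.G.KwK
import Pool.Agent.Lib.MP_7f377f_mp.G.KwP
import Pool.Agent.Lib.MP_7f377f_mp.G.KwX

/-! Correlations of Wick ordered letters at weak coupling. -/

noncomputable section

set_option linter.unusedSectionVars false
variable [Pool.Agent.Lib.MP_7f377f_mp.GD]

namespace Pool.Agent.Lib.MP_7f377f_mp.RG.Tl

open Finset MvPolynomial MeasureTheory Filter Topology Wd Q4 Asymptotics
open Zf (Jx E wk fp)
open Kw (kf sc pL Lead)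
open YZ (R4)
open YM7 (SU2 wilson)

variable {α ι : Type}

/-- weak coupling, large volume, sites at distances at most `ε⁻¹ ^ 2` -/
structure Gwk (C : ℕ) (ε b : ℝ) (L : ℕ) (x : ι → St) : Prop where
  pos : 0 < ε
  sm : C * ε ≤ 1
  cpl : ε⁻¹ ^ C ≤ b
  vol : 2 * b ≤ L
  dia : ∀ i j μ, ε ^ 2 * |(x i μ - x j μ : ℝ)| ≤ 1

/-- the sites `x` approximate the separated points `y` -/
structure Gpt (C : ℕ) (δ ε η : ℝ) (x : ι → St) (y : ι → R4) : Prop where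
  le : ε ≤ η
  sm : C * η ≤ 1
  far : ∀ i j, i ≠ j → δ ≤ ‖y i - y j‖
  near : ∀ i μ, |ε * x i μ - y i μ| ≤ η

/-- cut off functions -/
structure Gct (N : ℕ) (ε b : ℝ) (x : ι → St) (X : Conf → ℂ) : Prop where
  meas : Measurable X
  bd : ∀ U, ‖X U‖ ≤ 1
  one : ∃ (R : ℕ) (θ : ℝ), 0 ≤ θ ∧ (R + 1 : ℝ) ≤ (θ * √b) ^ N ∧ ε⁻¹ ≤ (θ * √b) ^ N ∧
    ∀ U, (∀ i, Fq R θ (sh (x i) U)) → X U = 1

open Classical in
/-- the rescaled lattice propagator -/
def kz (l : α → Lp →₀ ℝ) (n : α → ℕ) (ε : ℝ) (x : ι → St) (p q : ι × α × Fin GD.d) : ℂ :=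
  if p.1 = q.1 ∨ p.2.2 ≠ q.2.2 then 0 else (ε⁻¹ ^ (n p.2.1 + 2 + (n q.2.1 + 2)) *
    kf (x q.1 - x p.1) (fl (l p.2.1)) (fl (l q.2.1)) : ℝ)

open Classical in
/-- its limit -/
def ky (c : α → Jx →₀ ℝ) (y : ι → R4) (p q : ι × α × Fin GD.d) : ℂ :=
  if p.1 = q.1 ∨ p.2.2 ≠ q.2.2 then 0 else (pL (c p.2.1) (c q.2.1) (y q.1 - y p.1) : ℝ)

variable {C C' L : ℕ} {ε b : ℝ} {x : ι → St} {l : α → Lp →₀ ℝ} {n : α → ℕ} {c : α → Jx →₀ ℝ}
  {Q : ι → Cp α}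

theorem Gwk.base (H : Gwk C ε b L x) : ∃ z : St, ∀ i μ, ε ^ 2 * |((x i + z) μ : ℝ)| ≤ 1 := by
  cases isEmpty_or_nonempty ι with
  | inl h => exact ⟨0, h.elim⟩
  | inr h => exact ⟨-x h.some, fun i μ => by simpa [sub_eq_add_neg] using H.dia i h.some μ⟩

theorem Gpt.mono {δ η : ℝ} {y : ι → R4} (H : Gpt C δ ε η x y) (h : C' ≤ C) : Gpt C' δ ε η x y :=
  ⟨H.le, (le_total 0 η).elim (fun e => le_trans (by gcongr) H.sm) fun e =>
    (mul_nonpos_of_nonneg_of_nonpos C'.cast_nonneg e).trans zero_le_one, H.far, H.near⟩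

theorem Gwk.mono (H : Gwk C ε b L x) (h : C' ≤ C) : Gwk C' ε b L x := by
  have e := H.pos
  rcases C.eq_zero_or_pos with rfl | c
  · rwa [Nat.le_zero.1 h]
  · refine ⟨e, le_trans (by gcongr) H.sm, (pow_le_pow_right₀ ((one_le_inv₀ e).2 ?_) h).trans H.cpl,
      H.vol, H.dia⟩
    exact (le_mul_of_one_le_left e.le (by exact_mod_cast c)).trans H.sm

theorem ker0 (H : ∀ a, Lead (n a) (fl (l a)) (c a)) (P : MvPolynomial (ι × α × Fin GD.d) ℂ) {δ : ℝ}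
    (δ0 : 0 < δ) : ∃ κ > (0 : ℝ), ∃ C : ℕ, ∀ (ε η : ℝ) (x : ι → St) (y : ι → R4), 0 < ε →
      Gpt C δ ε η x y → ‖wk (kz l n ε x) P - wk (ky c y) P‖ + 2 * η ≤ η ^ κ := by
  obtain ⟨F, hF⟩ : ∃ F : Filter (ℝ × ℝ × (ι → St) × (ι → R4)), F = comap (·.1) (𝓝 0) ⊓
    𝓟 {t | 0 < t.2.1 ∧ Gpt 0 δ t.2.1 t.1 t.2.2.1 t.2.2.2} := ⟨_, rfl⟩
  have a1 : Tendsto (·.1) F (𝓝 0) := hF ▸ tendsto_comap.mono_left inf_le_left
  have a2 : ∀ᶠ t in F, 0 < t.2.1 ∧ Gpt 0 δ t.2.1 t.1 t.2.2.1 t.2.2.2 :=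
    hF ▸ mem_inf_of_right (mem_principal_self _)
  have a3 : Tendsto (fun t => 2 * t.1) F (𝓝 0) := by simpa using a1.const_mul 2
  have a4 := a2.and ((a3.eventually (gt_mem_nhds one_pos)).and
    (a3.eventually (ge_mem_nhds (show 0 < δ / 4 by positivity))))
  have a5 : ∀ᶠ t in F, 0 < 2 * t.1 ∧ 2 * t.1 ≤ 1 := a4.mono fun t a =>
    ⟨by linarith [a.1.1, a.1.2.le], a.2.1.le⟩
  obtain ⟨⟨κ, κ0, k⟩, -⟩ := Kw.Ro.wk a5 (C := fun t => kz l n t.2.1 t.2.2.1)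
    (C' := fun t => ky c t.2.2.2) (fun p q => by
      unfold kz ky
      split_ifs with e
      · exact .refl (isBigO_zero _ _)
      · exact Kw.kf_ro δ0 (a4.mono fun t a => ⟨a.1.1, by linarith [a.1.1, a.1.2.le], a.2.1, a.2.2,
          a.1.2.far _ _ (Ne.symm (not_or.1 e).1), fun μ => by
            have := abs_le.1 (a.1.2.near q.1 μ)
            have := abs_le.1 (a.1.2.near p.1 μ)
            simp only [Pi.sub_apply, Int.cast_sub, PiLp.sub_apply]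
            exact abs_le.2 ⟨by linarith, by linarith⟩⟩)
          (squeeze_zero' (a2.mono fun _ a => a.1.le) (a2.mono fun _ a => a.2.le) a1) (H _) (H _)) P
  have m : 0 < min κ 1 := lt_min κ0 one_pos
  obtain ⟨K, hK⟩ := ((k.norm_left.trans (Kw.pw_le a5 (min_le_left κ 1))).add
    ((Kw.pw_le a5 (min_le_right κ 1)).congr_left fun _ => Real.rpow_one _)).bound
  obtain ⟨C, hC⟩ := Kw.ev_ex (hF ▸ hK.and (a5.and
    (((a1.rpow_const_nhds_zero (half_pos m)).const_mul (K * 2 ^ min κ 1)).eventually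
      (ge_mem_nhds (by simp : _ < (1 : ℝ))))))
  refine ⟨_, half_pos m, C, fun ε η x y e0 G => ?_⟩
  have η0 := e0.trans_le G.le
  obtain ⟨b1, -, b2⟩ := hC (η, ε, x, y) η0.le G.sm ⟨e0, G.mono C.zero_le⟩
  refine ((Real.le_norm_self _).trans b1).trans ?_
  rw [Real.norm_of_nonneg (by positivity), Real.mul_rpow zero_le_two η0.le,
    ← add_halves (min κ 1), Real.rpow_add η0, add_halves, ← mul_assoc, ← mul_assoc]
  exact mul_le_of_le_one_left (by positivity) b2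

theorem Gwk.prep (H : Gwk C ε b L x) (h : 2 * C' + 1 ≤ C) :
    C' * ε ≤ 1 ∧ ε⁻¹ ^ C' ≤ √(2 * b) ∧ 0 < b ∧ √(2 * b) ^ 2 = 2 * b := by
  have e := H.pos
  have a : (2 * C' + 1 : ℝ) * ε ≤ 1 :=
    (mul_le_mul_of_nonneg_right (by exact_mod_cast h) e.le).trans H.sm
  have p : 0 ≤ C' * ε := by positivity
  have b0 : 0 < b := lt_of_lt_of_le (by positivity) H.cpl
  refine ⟨by linarith, Real.le_sqrt_of_sq_le ?_, b0, Real.sq_sqrt (by positivity)⟩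
  rw [← pow_mul]
  exact ((pow_le_pow_right₀ ((one_le_inv₀ e).2 (by linarith)) (by omega)).trans H.cpl).trans
    (by linarith)

theorem pG_hl [NeZero L] {P : Cp α} (hP : Iv P) (r : ℝ) (x : St) (U : YM7.Cfg L) :
    letI := YM5.quatHS
    pG (lf (fun a => r • l a) P) (sh x (Fi.lf U)) = eval (fun u : α × Fin GD.d =>
      (Kw.hl YM5.rho r (Em.eM u.2) (l u.1) x (Kw.lz (Weak.fix U)) : ℂ)) P := by
  let _ := YM5.quatHS
  have e : gauge Inv.inv (fun y => (Weak.cmb Inv.inv U (Fi.cst L y) : S3)) (Fi.lf U) =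
      Kw.lz (Weak.fix U) := _root_.funext fun e => by
    simp only [gauge, Fi.cst_add, Fi.cst_un1]
    rfl
  rw [lf_sb, ← pG_gauge (iv_sb hP _) fun y => (Weak.cmb Inv.inv U (Fi.cst L (y + x)) : S3),
    ← sh_gauge Inv.inv fun y => (Weak.cmb Inv.inv U (Fi.cst L y) : S3), e, pG_ap, vl_sb, vl]
  refine congrArg (eval · P) (_root_.funext fun u => ?_)
  rw [Finsupp.sum_smul_index' (by simp), Kw.hl, Finsupp.linearCombination_apply]
  simp only [Finsupp.sum, Finset.sum_apply, Pi.smul_apply, hv_cC, Em.co_cS, wh_sh, zero_add,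
    smul_eq_mul, Kw.hw, Complex.ofReal_sum, Complex.ofReal_mul, mul_assoc, mul_left_comm (r : ℂ)]
  rfl

variable [MeasurableSpace SU2] [BorelSpace SU2] (h : Measure SU2) [h.IsHaarMeasure]
  [IsProbabilityMeasure h]

/-- large fields are rare -/
theorem prob_fq (m : ℕ) : ∃ K : ℝ, ∀ (b θ : ℝ) (L R : ℕ) [NeZero L] (x : St), 0 < b → 2 * b ≤ L →
    0 < θ → (wilson h b L).real {U | ¬ Fq R θ (sh x (Fi.lf U))} ≤
      K * (R + 1) ^ 4 / (θ * √b) ^ m := prob_fq0 h m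

theorem int_sh [NeZero L] {F : Conf → ℂ} (hF : Measurable F) (z : St) :
    ∫ U, F (Fi.lf U) ∂wilson h b L = ∫ U, F (sh z (Fi.lf U)) ∂wilson h b L := by
  have m := YM7.mp_shift' h b (Fi.cst L z)
  conv_lhs => rw [← m.map_eq, integral_map (f := fun U => F (Fi.lf U)) m.measurable.aemeasurable
    (hF.comp Em.cont_lf.measurable).aestronglyMeasurable]
  refine integral_congr_ae (.of_forall fun U => congrArg F (_root_.funext fun e => ?_))
  simp only [sh, Fi.lf, Fi.lift, Fi.cst_add]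
  rfl

variable [Fintype ι]

theorem fp_sb {y : ι → R4} (hy : Function.Injective y) (Q : ι → Cp α) :
    fp (fun i => sb c (Q i)) y = wk (ky c y) (∏ i, rename (Prod.mk i) (Q i)) := by
  have e : ∀ i P, aeval (fun p : ι × α × Fin GD.d => rename (Prod.mk p.1) (sb c (X p.2)))
      (rename (Prod.mk i) P) = rename (Prod.mk i) (sb c P) := fun i P =>
    DFunLike.congr_fun (algHom_ext (f := (aeval _).comp (rename (Prod.mk i)))
      (g := (rename (Prod.mk i)).comp (sb c)) fun p => by simp) P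
  have k : ∀ p q, ky c y p q = ∑ I ∈ (c p.2.1).support, ∑ J ∈ (c q.2.1).support,
      (c p.2.1 I * c q.2.1 J : ℂ) * Zf.kr ℂ y (q.1, J, q.2.2) (p.1, I, p.2.2) := fun p q => by
    have := hy.eq_iff (a := q.1) (b := p.1)
    simp only [ky, Zf.kr, Zf.pr_col, eq_comm (a := q.2.2), Kw.pL, eq_comm (a := p.1),
      Finsupp.linearCombination_apply, Finsupp.sum]
    split_ifs <;> simp_all [mul_sum, mul_assoc]
  rw [Zf.wk_eq, ← Zf.E_map (aeval fun p : ι × α × Fin GD.d => rename (Prod.mk p.1) (sb c (X p.2)))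
    (fun p => by simpa using Zf.rename_Lin _ (sb_lin c _)) (L := fun p q => Zf.kr ℂ y p q / 2)
    fun p q => ?_]
  · simp only [Zf.fp_eq, Zf.Ek, Zf.Rn, map_prod, e]
  · simp only [aeval_X, sb_X, map_sum, map_smul, rename_X, sum_mul_sum, smul_mul_smul_comm,
      Zf.E_X_X, Zf.sy_kr, smul_eq_mul]
    rw [Zf.sy, k, k, sum_comm (s := (c q.2.1).support)]
    simp only [Zf.kr_symm y (q.1, _, q.2.2), mul_comm (c q.2.1 _ : ℂ), add_halves]

theorem cut_X (N M : ℕ) : ∃ C : ℕ, ∀ (ε b : ℝ) (L : ℕ) [NeZero L] (x : ι → St) (X : Conf → ℂ),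
    0 < ε → C * ε ≤ 1 → 0 < b → 2 * b ≤ L → Gct N ε b x X →
      ∫ U, ‖X (Fi.lf U) - 1‖ ^ 2 ∂wilson h b L ≤ ε ^ M := by
  obtain ⟨K, hK⟩ := prob_fq h (N * (M + 5))
  obtain ⟨C, hC⟩ := exists_nat_ge (4 * Fintype.card ι * |K| + 2)
  refine ⟨C, fun ε b L _ x X e0 e1 b0 hL ⟨_, m, R, θ, θ0, h1, h2, h3⟩ => ?_⟩
  have p : 0 ≤ 4 * Fintype.card ι * |K| * ε := by positivity
  have e2 := (mul_le_mul_of_nonneg_right hC e0.le).trans e1
  have e3 : 1 < ε⁻¹ := (one_lt_inv₀ e0).2 (by linarith)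
  have θ1 : 0 < θ := θ0.lt_of_ne fun e => by
    rw [← e, zero_mul] at h2
    exact (e3.trans_le h2).not_ge (pow_le_one₀ le_rfl zero_le_one)
  rw [← setIntegral_eq_integral_of_forall_compl_eq_zero
    (s := ⋃ i ∈ univ, {U | ¬ Fq R θ (sh (x i) (Fi.lf U))}) fun U hU => by
      rw [h3 _ (by simpa using hU), sub_self, norm_zero, zero_pow two_ne_zero]]
  refine ((Real.le_norm_self _).trans (norm_setIntegral_le_of_norm_le_const (C := 2 ^ 2)
    (measure_lt_top _ _) fun U _ => ?_)).trans ((mul_le_mul_of_nonneg_left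
      ((measureReal_biUnion_finset_le _ _).trans (sum_le_card_nsmul _ _ (|K| * ε ^ (M + 1))
        fun i _ => (hK b θ L R _ b0 hL θ1).trans ?_)) (sq_nonneg 2)).trans ?_)
  · rw [norm_pow, norm_norm]
    gcongr
    exact (norm_sub_le_of_le (m _) norm_one.le).trans_eq one_add_one_eq_two
  · rw [pow_mul]
    generalize (θ * √b) ^ N = S at *
    have S0 : 0 < S := by linarith
    calc _ ≤ |K| * S ^ 4 / S ^ (M + 5) := by gcongr; exact le_abs_self K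
      _ = |K| * S⁻¹ ^ (M + 1) := by rw [inv_pow]; field_simp; ring
      _ ≤ _ := by gcongr; exact inv_le_of_inv_le₀ e0 h2
  · rw [card_univ, nsmul_eq_mul, pow_succ ε]
    nlinarith [pow_pos e0 M]

theorem cut0 {W : Module.End ℂ (Cp α)} {W' : Module.End ℂ (MvPolynomial (ι × α × Fin GD.d) ℂ)}
    (hW : ∀ c : ι → Cp α, W' (∏ i, rename (Prod.mk i) (c i)) = ∏ i, rename (Prod.mk i) (W (c i)))
    (w : α × Fin GD.d → ℕ) (hQ : ∀ i (t : ℝ), Iv (W (sc w (t : ℂ) (Q i)))) (N M : ℕ) :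
    ∃ C : ℕ, ∀ (ε b : ℝ) (L : ℕ) [NeZero L] (x : ι → St) (X : Conf → ℂ), Gwk C ε b L x →
      Gct N ε b x X → ‖∫ U, (X (Fi.lf U) - 1) * ∏ i, pG (lf (fun a => √(2 * b) • l a)
        (W (sc w ((ε⁻¹ : ℝ) : ℂ) (Q i)))) (sh (x i) (Fi.lf U)) ∂wilson h b L‖ ≤ ε ^ M := by
  let _ := YM5.quatHS
  obtain ⟨C, hC⟩ := Kw.cut_sc YM5.rho h (fun u : ι × α × Fin GD.d => Em.eM u.2.2)
    (fun u => l u.2.1) YM5.rho_cont (fun u => YM5.lie_rho ▸ Submodule.subset_span ⟨u.2.2, rfl⟩)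
    Prod.fst W' (fun u => w u.2) (∏ i, rename (Prod.mk i) (Q i)) M
  obtain ⟨C', hC'⟩ := cut_X (ι := ι) h N (C * 2)
  refine ⟨2 * (C + C') + 1, fun ε b L _ x X H G => ?_⟩
  obtain ⟨z, hz⟩ := H.base
  obtain ⟨a1, a2, a3, a4⟩ := H.prep (C' := C) (by omega)
  have m : Measurable fun V => X V - 1 := G.meas.sub measurable_const
  have k := hC' ε b L x X H.pos (H.prep (by omega)).1 a3 H.vol G
  have k' := int_sh h (b := b) (L := L) (Complex.measurable_ofReal.comp (m.norm.pow_const 2)) z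
  simp only [Function.comp, integral_complex_ofReal, Complex.ofReal_inj] at k'
  rw [int_sh h (F := fun V => (X V - 1) * ∏ i, pG _ (sh (x i) V)) (m.mul (continuous_finsetProd _
    fun i _ => (pG_cont _).comp (Ms.cont_sh _)).measurable) z]
  rw [k', pow_mul] at k
  have e : wilson h b L = Weak.nu h YM5.rho 4 L (√(2 * b) ^ 2 / 4) := by
    rw [a4, YM7.wilson_nu, show 2 * b / 4 = b / 2 by ring]
  rw [e] at k ⊢
  simpa only [map_prod, Kw.sc_rn, hW, eval_rename, sh_sh, pG_hl (hQ _ _), Function.comp_def] using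
    hC ε _ L (fun i => x i + z) _ H.pos a1 a2 (a4.trans_le H.vol) hz
      (m.comp ((Ms.cont_sh z).comp Em.cont_lf).measurable) (fun U =>
        (norm_sub_le_of_le (G.bd _) norm_one.le).trans_eq one_add_one_eq_two) k

/-- removal of the cut off -/
theorem cut_pG {P : ι → Pl} (hP : ∀ i, Iv (P i)) (N M : ℕ) : ∃ C : ℕ, ∀ (ε b : ℝ) (L : ℕ) [NeZero L]
    (x : ι → St) (X : Conf → ℂ), Gwk C ε b L x → Gct N ε b x X →
    ‖∫ U, (X (Fi.lf U) - 1) * ∏ i, pG (sc (fun _ => 1) ((√(2 * b) : ℝ) : ℂ) (P i)) (sh (x i) (Fi.lf U))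
      ∂wilson h b L‖ ≤ ε ^ M := by
  have e : ∀ t (P : Pl), sc (fun _ => 0) t P = P := fun t =>
    DFunLike.congr_fun (algHom_ext (g := .id _ _) fun u => by simp [sc])
  have k := cut0 h (l := fun w => .single w 1) (W := .id) (Q := P)
    (W' := .id) (fun _ => rfl) (fun _ => 0) (fun i t => by rw [e]; exact hP i) N M
  simpa only [e, sc_sb fun _ => 1, lf_sb, LinearMap.id_apply, pow_one, Finsupp.smul_single_one]
    using k

theorem wick0 (hQ : ∀ i, Iv (Q i)) : ∃ C : ℕ, ∀ (ε b : ℝ) (L : ℕ) [NeZero L] (x : ι → St),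
    Gwk C ε b L x → ‖∫ U, ∏ i, pG (zl l n ε √(2 * b) (Q i)) (sh (x i) (Fi.lf U)) ∂wilson h b L -
      wk (kz l n ε x) (∏ i, rename (Prod.mk i) (Q i))‖ ≤ ε := by
  classical
  let _ := YM5.quatHS
  obtain ⟨C, hC⟩ := Kw.wick_sc YM5.rho (fun u : α × Fin GD.d => Em.eM u.2) (fun u => l u.1) h
    YM5.rho_cont (fun u => YM5.lie_rho ▸ Submodule.subset_span ⟨u.2, rfl⟩) (fun u => n u.1 + 2) Q 1
  obtain ⟨C', hC'⟩ := Kw.ev_ex ((@hC (ℝ × ℝ × ℕ+ × (ι → St)) (comap (·.1) (𝓝 0) ⊓ 𝓟 {t | 0 < t.1 ∧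
    (t.1⁻¹ ^ C ≤ t.2.1 ∧ t.2.1 ^ 2 ≤ (t.2.2.1 : ℕ)) ∧ ∀ i μ, t.1 ^ 2 * |(t.2.2.2 i μ : ℝ)| ≤ 1})
    (·.1) (·.2.1) (·.2.2.1) (fun t => ⟨t.2.2.1.ne_zero⟩) (·.2.2.2) (tendsto_nhdsWithin_iff.2
      ⟨tendsto_comap.mono_left inf_le_left, mem_inf_of_right fun _ h => h.1⟩)
    (mem_inf_of_right fun _ h => h.2.1) fun i μ => mem_inf_of_right fun _ h => h.2.2 i μ).eventually
      (ge_mem_nhds one_pos))
  refine ⟨2 * (C + C') + 1, fun ε b L _ x H => ?_⟩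
  obtain ⟨z, hz⟩ := H.base
  obtain ⟨-, a2, a3, a4⟩ := H.prep (C' := C) (by omega)
  have k := hC' (ε, √(2 * b), ⟨L, NeZero.pos L⟩, fun i => x i + z) H.pos.le
    (H.prep (by omega)).1 ⟨H.pos, ⟨a2, a4.trans_le H.vol⟩, hz⟩
  have i : ∀ a b, inner ℝ (Em.eM a) (Em.eM b) = if a = b then (1 : ℝ) else 0 := GD.e_on
  have e1 : Kw.wc (fun u : α × Fin GD.d => Em.eM u.2) (fun u => l u.1) = wq l :=
    congrArg Zf.ex (funext₂ fun p q => by
      simp only [Kw.kv, i, ck]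
      split_ifs
      exacts [by rw [one_mul]; rfl, by simp])
  have e2 : (fun p q : ι × α × Fin GD.d => ((ε⁻¹ ^ (n p.2.1 + 2 + (n q.2.1 + 2)) * Kw.kd
      (fun u : α × Fin GD.d => Em.eM u.2) (fun u => l u.1) (fun i => x i + z) p q : ℝ) : ℂ)) =
      kz l n ε x := funext₂ fun p q => by
    simp only [Kw.kd, Kw.kv, i, kz, add_sub_add_right_eq_sub]
    by_cases a : p.1 = q.1 <;> by_cases b : p.2.2 = q.2.2 <;> simp [a, b]
    exact .inl rfl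
  rw [pow_one, inv_mul_le_iff₀ H.pos, mul_one, e1, e2] at k
  rw [int_sh h (F := fun V => ∏ i, pG _ (sh (x i) V)) (continuous_finsetProd _
    fun i _ => (pG_cont _).comp (Ms.cont_sh _)).measurable z, YM7.wilson_nu,
    show b / 2 = √(2 * b) ^ 2 / 4 by rw [a4]; ring]
  have q : ∀ i, Iv (wq l (sc (fun q => n q.1 + 2) ((ε⁻¹ : ℝ) : ℂ) (Q i))) := fun i => by
    rw [sc_sb fun a => n a + 2]
    exact iv_ex (iv_sb (hQ i) _) _
  simp only [zl_ap, sh_sh, pG_hl (q _)]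
  exact k

theorem gauss0 (H : ∀ a, Lead (n a) (fl (l a)) (c a)) (hQ : ∀ i, Iv (Q i)) (N : ℕ) {δ : ℝ}
    (δ0 : 0 < δ) : ∃ (C : ℕ) (κ : ℝ), 0 < κ ∧ ∀ (ε η b : ℝ) (L : ℕ) [NeZero L] (x : ι → St)
      (y : ι → R4) (X : Conf → ℂ), Gwk C ε b L x → Gpt C δ ε η x y → Gct N ε b x X →
      ‖∫ U, X (Fi.lf U) * ∏ i, pG (zl l n ε √(2 * b) (Q i)) (sh (x i) (Fi.lf U)) ∂wilson h b L -
        fp (fun i => sb c (Q i)) y‖ ≤ η ^ κ := by
  have q : ∀ i (t : ℝ), Iv (wq l (sc (fun q => n q.1 + 2) (t : ℂ) (Q i))) := fun i t => by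
    rw [sc_sb fun a => n a + 2]
    exact iv_ex (iv_sb (hQ i) _) _
  classical
  obtain ⟨C1, h1⟩ := cut0 h (l := l) (fun c => Kw.ex_prod _ c univ) _ q N 1
  obtain ⟨C2, h2⟩ := wick0 h (l := l) (n := n) hQ
  obtain ⟨κ, κ0, C3, h3⟩ := ker0 H (∏ i, rename (Prod.mk i) (Q i)) δ0
  refine ⟨C1 + C2 + C3, κ, κ0, fun ε η b L _ x y X a1 a2 a3 => ?_⟩
  have c : Continuous fun U : YM7.Cfg L =>
      ∏ i, pG (zl l n ε √(2 * b) (Q i)) (sh (x i) (Fi.lf U)) := continuous_finsetProd _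
    fun i _ => (pG_cont _).comp ((Ms.cont_sh _).comp Em.cont_lf)
  have i := c.integrable_of_hasCompactSupport (μ := wilson h b L) (.of_compactSpace _)
  have b1 := h1 ε b L x X (a1.mono (by omega)) a3
  change ‖∫ U, _ * ∏ i, pG (zl l n ε √(2 * b) (Q i)) _ ∂_‖ ≤ _ at b1
  simp only [sub_mul, one_mul] at b1
  rw [integral_sub (i.bdd_mul (f := fun U => X (Fi.lf U))
    (a3.meas.comp Em.cont_lf.measurable).aestronglyMeasurable (.of_forall fun U => a3.bd _)) i,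
    pow_one] at b1
  rw [fp_sb fun i j e => by_contra fun k => δ0.not_ge (by simpa [e] using a2.far i j k)]
  refine ((norm_sub_le_norm_sub_add_norm_sub _ _ _).trans (add_le_add b1
    ((norm_sub_le_norm_sub_add_norm_sub _ _ _).trans (add_le_add_left
      (h2 ε b L x (a1.mono (by omega))) _)))).trans (le_trans ?_
        (h3 ε η x y a1.pos (a2.mono (by omega))))
  linarith [a2.le]

/-- the Gaussian limit -/
theorem gauss {l : ι → α → Lp →₀ ℝ} {n : α → ℕ} {c : ι → α → Jx →₀ ℝ}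
    (H : ∀ i a, Lead (n a) (fl (l i a)) (c i a)) {Q : ι → Cp α} (hQ : ∀ i, Iv (Q i)) (N : ℕ) {δ : ℝ}
    (δ0 : 0 < δ) : ∃ (C : ℕ) (κ : ℝ), 0 < κ ∧ ∀ (ε η b : ℝ) (L : ℕ) [NeZero L] (x : ι → St)
      (y : ι → R4) (X : Conf → ℂ), Gwk C ε b L x → Gpt C δ ε η x y → Gct N ε b x X →
      ‖∫ U, X (Fi.lf U) * ∏ i, pG (zl (l i) n ε √(2 * b) (Q i)) (sh (x i) (Fi.lf U)) ∂wilson h b L -
        fp (fun i => sb (c i) (Q i)) y‖ ≤ η ^ κ := by
  have e : ∀ i, sb (fun a : ι × α => c a.1 a.2) (rename (fun q => ((i, q.1), q.2)) (Q i)) =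
      sb (c i) (Q i) := fun i => aeval_rename ..
  simpa only [zl_rn (Prod.mk _), e] using gauss0 h (l := fun a : ι × α => l a.1 a.2)
    (fun a => H a.1 a.2) (fun i => (hQ i).rename (Prod.mk i)) N δ0

end Pool.Agent.Lib.MP_7f377f_mp.RG.Tl
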