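import Pool.Agent.Lib.MP_7f377f_mp.G.KwP

/-! Moments of rescaled letters and removal of the cut off. -/

noncomputable section

set_option linter.unusedSectionVars false
variable [Pool.Agent.Lib.MP_7f377f_mp.GD]

namespace Pool.Agent.Lib.MP_7f377f_mp.RG.Tl

open Finset MvPolynomial MeasureTheory Wd Q4
open Kw (sc)
open YM7 (SU2 wilson Cfg)

theorem wh_small {R : ℕ} {η : ℝ} {V : Conf} (h : ∀ e ∈ lbox R, ‖(V e).q - 1‖ ≤ η) (w : List Dr) :
    ∀ r, ∀ x ∈ box r, r + w.length ≤ R → ‖(wh Inv.inv V x w).q - 1‖ ≤ w.length * η := by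
  induction w with
  | nil => exact fun _ _ _ _ => by simp [wh, S3.q_one]
  | cons d w ih =>
    intro r x hx h1
    rw [List.length_cons] at h1 ⊢
    have b : ‖(stp Inv.inv V x d).q - 1‖ ≤ η := by
      have := add_mem_box hx (dv_box (d.1, false))
      unfold stp
      split_ifs
      · exact h _ (mem_lbox.2 (box_mono (by omega) hx))
      · rw [S3.norm_inv_sub]
        exact h _ (mem_lbox.2 (box_mono (r := r + 1) (by omega)
          (by simpa [dv, sub_eq_add_neg] using this)))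
    have a := ih (r + 1) _ (add_mem_box hx (dv_box d)) (by omega)
    rw [wh]
    push_cast
    linarith [S3.norm_mul_sub (stp Inv.inv V x d) (wh Inv.inv V (x + dv d) w)]

/-- holonomies are controlled by the curvature -/
theorem hv_fq {ε : ℝ} {U : Conf} {w : Lp} (h : Fq w.1.length ε U) (k : Fin GD.d) :
    ‖hv (cC U) w k‖ ≤ 3 * w.1.length ^ 2 * ε := by
  have a := wh_small (V := gauge Inv.inv (cmb Inv.inv U) U) (fun e he => comb_small (ε := ε)
    (fun _ _ h _ => fix_tr U h)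
    (fun x hx μ ν => by rw [hol_gauge_inv, S3.norm_conj_sub]; exact h x hx μ ν) he) w.1 0 0
    (zero_mem_box 0) (zero_add _).le
  rw [wh_gauge, w.2, add_zero, S3.norm_conj_sub, ← norm_cS_sub] at a
  rw [hv_cC]
  exact ((norm_c3_le _ k).trans (norm_co_le _)).trans (by linarith)

theorem hv_sum (b : ℝ) (U : Conf) (q : Lp × Fin GD.d) :
    ‖pG (sc (fun _ => 1) ((√b : ℝ) : ℂ) (X q)) U‖ ≤ ‖((3 * q.1.1.length ^ 2 : ℝ) : ℂ) *
      ∑ p ∈ box q.1.1.length ×ˢ (univ : Finset (Fin 4 × Fin 4)),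
        ((√b * fq U p.1 p.2.1 p.2.2 : ℝ) : ℂ)‖ := by
  generalize hS : box q.1.1.length ×ˢ (univ : Finset (Fin 4 × Fin 4)) = S
  have f0 : ∀ p ∈ S, 0 ≤ fq U p.1 p.2.1 p.2.2 := fun _ _ => norm_nonneg _
  have := hv_fq (U := U) (w := q.1) (fun y hy μ ν => single_le_sum f0 (a := (y, μ, ν))
    (hS ▸ mk_mem_product hy (mem_univ _))) q.2
  have s := sum_nonneg f0
  rw [← Complex.ofReal_sum, ← Complex.ofReal_mul, ← mul_sum, Complex.norm_of_nonneg (by positivity),
    mul_left_comm, sc, aeval_X, pow_one, pG_ap, vl_smul, vl_X, norm_mul,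
    Complex.norm_of_nonneg (Real.sqrt_nonneg _)]
  exact mul_le_mul_of_nonneg_left this (Real.sqrt_nonneg _)

variable [MeasurableSpace SU2] [BorelSpace SU2] (h : Measure SU2) [h.IsHaarMeasure]
  [IsProbabilityMeasure h] {ι : Type}

/-- all moments are bounded at weak coupling -/
def Mo (f : ∀ L : ℕ, ℝ → (ι → St) → Cfg L → ℂ) : Prop := (∀ L b x, Continuous (f L b x)) ∧
  ∀ m : ℕ, ∃ K : ℝ, ∀ (L : ℕ) [NeZero L] (b : ℝ) x, 0 < b → 2 * b ≤ L →
    ∫ U, ‖f L b x U‖ ^ m ∂wilson h b L ≤ K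

variable {h} {e f g : ∀ L : ℕ, ℝ → (ι → St) → Cfg L → ℂ}

theorem Mo.two (hf : Mo h f) (hg : Mo h g) (c : ∀ L b x, Continuous (e L b x))
    (H : ∀ m : ℕ, ∃ (a : ℝ) (n : ℕ), 0 ≤ a ∧ ∀ L b x U,
      ‖e L b x U‖ ^ m ≤ a * (‖f L b x U‖ ^ n + ‖g L b x U‖ ^ n)) : Mo h e := ⟨c, fun m => by
  obtain ⟨a, n, a0, H⟩ := H m
  obtain ⟨K, hK⟩ := hf.2 n
  obtain ⟨K', hK'⟩ := hg.2 n
  refine ⟨a * (K + K'), fun L _ b x b0 hL => ?_⟩
  have c1 := hf.1 L b x
  have c2 := hg.1 L b x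
  have c3 := c L b x
  refine (integral_mono (Weak.cint _ (by fun_prop)) (Weak.cint _ (by fun_prop)) (H L b x)).trans ?_
  rw [integral_const_mul, integral_add (Weak.cint _ (by fun_prop)) (Weak.cint _ (by fun_prop))]
  exact mul_le_mul_of_nonneg_left (add_le_add (hK L b x b0 hL) (hK' L b x b0 hL)) a0⟩

theorem Mo.const (t : ℂ) : Mo h fun _ _ (_ : ι → St) _ => t :=
  ⟨fun _ _ _ => continuous_const, fun m => ⟨‖t‖ ^ m, fun _ _ _ _ _ _ => by simp⟩⟩

theorem Mo.add (hf : Mo h f) (hg : Mo h g) : Mo h fun L b x U => f L b x U + g L b x U :=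
  hf.two hg (fun L b x => (hf.1 L b x).add (hg.1 L b x)) fun m => ⟨2 ^ (m - 1), m, by positivity,
    fun _ _ _ _ => (pow_le_pow_left₀ (norm_nonneg _) (norm_add_le _ _) m).trans
      (add_pow_le (norm_nonneg _) (norm_nonneg _) m)⟩

theorem Mo.mul (hf : Mo h f) (hg : Mo h g) : Mo h fun L b x U => f L b x U * g L b x U :=
  hf.two hg (fun L b x => (hf.1 L b x).mul (hg.1 L b x)) fun m => ⟨1, m * 2, one_pos.le,
    fun L b x U => by
      rw [norm_mul, mul_pow, pow_mul, pow_mul]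
      nlinarith [sq_nonneg (‖f L b x U‖ ^ m - ‖g L b x U‖ ^ m), sq_nonneg (‖f L b x U‖ ^ m),
        sq_nonneg (‖g L b x U‖ ^ m)]⟩

theorem Mo.dom (hf : Mo h f) (c : ∀ L b x, Continuous (e L b x))
    (H : ∀ L b x U, ‖e L b x U‖ ≤ ‖f L b x U‖) : Mo h e :=
  hf.two hf c fun m => ⟨1, m, one_pos.le, fun L b x U => by
    linarith [pow_le_pow_left₀ (norm_nonneg _) (H L b x U) m,
      pow_nonneg (norm_nonneg (f L b x U)) m]⟩

theorem Mo.sum {κ : Type} {f : κ → ∀ L : ℕ, ℝ → (ι → St) → Cfg L → ℂ} (hf : ∀ k, Mo h (f k))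
    (S : Finset κ) : Mo h fun L b x U => ∑ k ∈ S, f k L b x U := by
  classical
  induction S using Finset.induction_on with
  | empty => exact Mo.const 0
  | insert j S hj ih => simpa only [sum_insert hj] using (hf j).add ih

theorem Mo.prod {κ : Type} {f : κ → ∀ L : ℕ, ℝ → (ι → St) → Cfg L → ℂ} (hf : ∀ k, Mo h (f k))
    (S : Finset κ) : Mo h fun L b x U => ∏ k ∈ S, f k L b x U := by
  classical
  induction S using Finset.induction_on with
  | empty => exact Mo.const 1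
  | insert j S hj ih => simpa only [prod_insert hj] using (hf j).mul ih

theorem cont_sl (L : ℕ) (x : St) : Continuous fun U : Cfg L => sh x (Fi.lf U) :=
  continuous_pi fun _ => continuous_apply _

theorem mo_fq (i : ι) (y : St) (μ ν : Fin 4) :
    Mo h fun _ b (x : ι → St) U => ((√(2 * b) * fq (sh (x i) (Fi.lf U)) y μ ν : ℝ) : ℂ) := by
  let _ := YM5.quatHS
  have c : ∀ L (b : ℝ) (x : St), Continuous fun U : Cfg L => √(2 * b) * fq (sh x (Fi.lf U)) y μ ν :=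
    fun L b x => continuous_const.mul ((Mx.cont_fq y μ ν).comp (cont_sl L x))
  refine ⟨fun L b x => Complex.continuous_ofReal.comp (c L b _), fun m => ?_⟩
  obtain ⟨C, -, hC⟩ := Weak.moment_EU' YM5.rho h YM5.rho_cont 4 m
  refine ⟨1 + C, fun L _ b x b0 hL => ?_⟩
  have r2 : √(2 * b) ^ 2 = 2 * b := Real.sq_sqrt (by positivity)
  have H := hC L √(2 * b) (by positivity) (by rw [r2]; exact hL) (Fi.cst L (y + x i), μ, ν)
  rw [r2, show 2 * b / 4 = b / 2 by ring, ← YM7.wilson_nu] at H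
  have e : ∀ U, Weak.EU YM5.rho √(2 * b) ((Fi.cst L (y + x i), μ, ν) : Weak.Plaq 4 L) U =
      (√(2 * b) * fq (sh (x i) (Fi.lf U)) y μ ν) ^ 2 := fun U => by
    rw [Weak.EU, ← YM7.pe_eq, Fi.fq_sh, Fi.fq_lf, mul_pow]
    exact congrArg _ (GD.norm_q_sq (YM4.plaq U (Fi.cst L (y + x i)) μ ν)).symm
  simp only [e] at H
  have c1 := c L b (x i)
  refine (integral_mono (g := fun U => 1 + ((√(2 * b) * fq (sh (x i) (Fi.lf U)) y μ ν) ^ 2) ^ m)
    (Weak.cint _ (by fun_prop)) (Weak.cint _ (by fun_prop)) fun U => ?_).trans ?_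
  · simp only [Complex.norm_real, Real.norm_eq_abs]
    generalize √(2 * b) * fq (sh (x i) (Fi.lf U)) y μ ν = t
    rw [← sq_abs t, ← pow_mul, mul_comm 2, pow_mul]
    nlinarith [sq_nonneg (|t| ^ m - 1), sq_nonneg (|t| ^ m)]
  · rw [integral_add (integrable_const _) (Weak.cint _ (by fun_prop))]
    simpa using H

/-- all moments of a rescaled letter are bounded -/
theorem mo_pG (i : ι) (P : Pl) : Mo h fun _ b (x : ι → St) U =>
    pG (sc (fun _ => 1) ((√(2 * b) : ℝ) : ℂ) P) (sh (x i) (Fi.lf U)) := by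
  induction P using MvPolynomial.induction_on with
  | C a => simpa only [algHom_C, AlgHom.commutes, Pi.algebraMap_apply] using Mo.const (h := h) _
  | add p q a b => simpa only [map_add, Pi.add_apply] using a.add b
  | mul_X p q a =>
    simp only [map_mul, Pi.mul_apply]
    refine a.mul (((Mo.const ((3 * q.1.1.length ^ 2 : ℝ) : ℂ)).mul (Mo.sum
      (fun p : St × Fin 4 × Fin 4 => mo_fq i p.1 p.2.1 p.2.2) (box q.1.1.length ×ˢ univ))).dom
      (fun L b x => (pG_cont _).comp (cont_sl L _)) fun L b x U => hv_sum _ _ q)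

variable [Fintype ι] (h)

/-- removal of the cut off from an observable with bounded moments -/
theorem cut_mo (hf : Mo h f) (N M : ℕ) : ∃ C : ℕ, ∀ (ε b θ : ℝ) (L R : ℕ) [NeZero L]
    (x : ι → St) (X : Conf → ℂ), 0 < ε → C * ε ≤ 1 → 0 < b → 2 * b ≤ L → (∀ U, ‖X U‖ ≤ 1) → 0 ≤ θ →
    (R + 1 : ℝ) ≤ (θ * √b) ^ N → ε⁻¹ ≤ (θ * √b) ^ N →
    (∀ U, (∀ i, Fq R θ (sh (x i) U)) → X U = 1) →
    ‖∫ U, (X (Fi.lf U) - 1) * f L b x U ∂wilson h b L‖ ≤ ε ^ M := by
  obtain ⟨B, hB⟩ := hf.2 2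
  obtain ⟨K, hK⟩ := prob_fq0 h (N * (4 + (M + 1) * 2))
  obtain ⟨C, hC⟩ := exists_nat_ge (2 * (Fintype.card ι * |K| + |B| + 1))
  refine ⟨C, fun ε b θ L R _ x X e0 hε b0 hL hX θ0 hR hN h1 => ?_⟩
  have p1 : 0 ≤ Fintype.card ι * |K| := by positivity
  have e1 : 1 < ε⁻¹ := (one_lt_inv₀ e0).2 (by nlinarith [abs_nonneg B])
  have θ1 : 0 < θ := θ0.lt_of_ne' fun e => by
    rw [e, zero_mul] at hN
    linarith [pow_le_one₀ (n := N) (le_refl (0 : ℝ)) zero_le_one]
  obtain ⟨T, hT⟩ : ∃ T, T = (θ * √b) ^ N := ⟨_, rfl⟩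
  have T0 : 0 < T := by rw [hT]; positivity
  obtain ⟨S, hS⟩ : ∃ S : Set (Cfg L), S = ⋃ i ∈ (univ : Finset ι),
    {U | ¬ Fq R θ (sh (x i) (Fi.lf U))} := ⟨_, rfl⟩
  obtain ⟨s, hs⟩ : ∃ s, s = ε ^ (M + 1) := ⟨_, rfl⟩
  have s0 : 0 < s := by rw [hs]; positivity
  have pS : (wilson h b L).real S ≤ Fintype.card ι * |K| * s ^ 2 := by
    rw [hS, mul_assoc, ← nsmul_eq_mul, ← card_univ]
    refine (measureReal_biUnion_finset_le _ _).trans (sum_le_card_nsmul _ _ _ fun i _ =>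
      (hK b θ L R _ b0 hL θ1).trans ?_)
    rw [pow_mul, ← hT, pow_add, div_le_iff₀ (by positivity)]
    have a : 1 ≤ s ^ 2 * T ^ ((M + 1) * 2) := by
      rw [hs, ← pow_mul, ← mul_pow]
      exact one_le_pow₀ ((inv_le_iff_one_le_mul₀' e0).1 (hT ▸ hN))
    calc K * (R + 1) ^ 4 ≤ |K| * T ^ 4 * 1 := by
          rw [mul_one]
          exact mul_le_mul (le_abs_self K) (pow_le_pow_left₀ (by positivity) (hT ▸ hR) 4)
            (by positivity) (abs_nonneg K)
      _ ≤ |K| * T ^ 4 * (s ^ 2 * T ^ ((M + 1) * 2)) := by gcongr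
      _ = _ := by ring
  have c := hf.1 L b x
  have mS := measurableSet_toMeasurable (wilson h b L) S
  have i1 : Integrable (fun U => (toMeasurable (wilson h b L) S).indicator (fun _ => 2 / s) U)
    (wilson h b L) := (integrable_const _).indicator mS
  have i2 : Integrable (fun U => 2 * s * ‖f L b x U‖ ^ 2) (wilson h b L) := Weak.cint _ (by fun_prop)
  refine (norm_integral_le_of_norm_le (i1.add i2) (.of_forall fun U => ?_)).trans ?_
  · by_cases hU : U ∈ toMeasurable (wilson h b L) S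
    · rw [Pi.add_apply, Set.indicator_of_mem hU, norm_mul]
      have a : ‖X (Fi.lf U) - 1‖ ≤ 2 := (norm_sub_le _ _).trans (by rw [norm_one]; linarith [hX (Fi.lf U)])
      refine (mul_le_mul_of_nonneg_right a (norm_nonneg _)).trans ?_
      rw [div_add' _ _ _ s0.ne', le_div_iff₀ s0]
      nlinarith [sq_nonneg (s * ‖f L b x U‖ - 1), sq_nonneg (s * ‖f L b x U‖)]
    · rw [h1 _ fun i => by_contra fun a => hU (subset_toMeasurable _ _
        (hS ▸ Set.mem_biUnion (mem_univ i) a)), sub_self, zero_mul, norm_zero, Pi.add_apply,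
        Set.indicator_of_notMem hU]
      positivity
  · simp only [Pi.add_apply]
    rw [integral_add i1 i2, integral_indicator_const _ mS, integral_const_mul, measureReal_def,
      measure_toMeasurable, ← measureReal_def, smul_eq_mul]
    have a := mul_le_mul_of_nonneg_right pS (show 0 ≤ 2 / s by positivity)
    have a' := mul_le_mul_of_nonneg_left ((hB L b x b0 hL).trans (le_abs_self B))
      (show 0 ≤ 2 * s by positivity)
    rw [show Fintype.card ι * |K| * s ^ 2 * (2 / s) = 2 * s * (Fintype.card ι * |K|) by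
      field_simp] at a
    have a'' : s * C ≤ ε ^ M := by
      rw [hs, pow_succ, mul_assoc, mul_comm ε]
      exact mul_le_of_le_one_right (by positivity) hε
    nlinarith

/-- removal of the cut off -/
theorem cut_pG0 (P : ι → Pl) (N M : ℕ) : ∃ C : ℕ, ∀ (ε b θ : ℝ) (L R : ℕ) [NeZero L]
    (x : ι → St) (X : Conf → ℂ), 0 < ε → C * ε ≤ 1 → 0 < b → 2 * b ≤ L → (∀ U, ‖X U‖ ≤ 1) → 0 ≤ θ →
    (R + 1 : ℝ) ≤ (θ * √b) ^ N → ε⁻¹ ≤ (θ * √b) ^ N →
    (∀ U, (∀ i, Fq R θ (sh (x i) U)) → X U = 1) →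
    ‖∫ U, (X (Fi.lf U) - 1) * ∏ i, pG (sc (fun _ => 1) ((√(2 * b) : ℝ) : ℂ) (P i)) (sh (x i) (Fi.lf U))
      ∂wilson h b L‖ ≤ ε ^ M :=
  cut_mo h (Mo.prod (fun i => mo_pG i (P i)) univ) N M

end Pool.Agent.Lib.MP_7f377f_mp.RG.Tl
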