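import Pool.Agent.Lib.MP_7f377f_mp.G.SwD

/-! Linear algebra for the normalisation of the fields. -/

noncomputable section

namespace Pool.Agent.Lib.MP_7f377f_mp.Kz

open Filter Topology Set Sw

/-- linear bootstrap -/
theorem boot1 {P : ℝ → Prop} {C : ℝ} (C0 : 0 ≤ C) (mono : ∀ B B', B ≤ B' → P B → P B')
    (ex : ∃ B, P B) (step : ∀ B, 0 ≤ B → P B → P (C + (1 + B) / 2)) : P (2 * C + 2) := by
  obtain ⟨B, hB⟩ := ex
  have e (n : ℕ) : P (2 * C + 1 + |B| * (1 / 2) ^ n) := by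
    induction n with
    | zero => exact mono _ _ (by simp; linarith [le_abs_self B]) hB
    | succ n ih => exact mono _ _ (by rw [pow_succ]; linarith) (step _ (by positivity) ih)
  obtain ⟨n, hn⟩ := (((tendsto_pow_atTop_nhds_zero_of_lt_one (r := (1 / 2 : ℝ)) (by norm_num)
    (by norm_num)).const_mul |B|).eventually (eventually_le_nhds (b := 1) (by simp))).exists
  exact mono _ _ (by linarith) (e n)

variable {V : Type} [NormedAddCommGroup V] [NormedSpace ℝ V] {W W' : Submodule ℝ V}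
  {N N' N'' T : V →ₗ[ℝ] V} {δ C : ℝ}

theorem bij_of_inj [FiniteDimensional ℝ W] (h : MapsTo N W W) (i : InjOn N W) : BijOn N W W := by
  refine ⟨h, i, fun y hy => ?_⟩
  obtain ⟨x, e⟩ := LinearMap.injective_iff_surjective.1 (show Function.Injective (N.restrict h) from
    fun x y e => Subtype.ext (i x.2 y.2 (congrArg Subtype.val e))) ⟨y, hy⟩
  exact ⟨x, x.2, congrArg Subtype.val e⟩

theorem bij_of_surj [FiniteDimensional ℝ W] (h : MapsTo N W W) (s : SurjOn N W W) :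
    BijOn N W W := by
  refine ⟨h, fun x hx y hy e => congrArg Subtype.val (LinearMap.injective_iff_surjective.2
    (show Function.Surjective (N.restrict h) from fun y => ?_) (a₁ := ⟨x, hx⟩) (a₂ := ⟨y, hy⟩)
    (Subtype.ext e)), s⟩
  obtain ⟨x, hx, e⟩ := s y.2
  exact ⟨⟨x, hx⟩, Subtype.ext e⟩

theorem ex_bd [FiniteDimensional ℝ W] (N : V →ₗ[ℝ] V) : ∃ C, 0 ≤ C ∧ ∀ e ∈ W, ‖N e‖ ≤ C * ‖e‖ :=
  ⟨_, norm_nonneg _, fun e he =>
    (LinearMap.toContinuousLinearMap (N.domRestrict W)).le_opNorm ⟨e, he⟩⟩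

/-- `N⁻¹ N' = T + O(δ)` on `W` -/
def Nr (W : Submodule ℝ V) (N N' T : V →ₗ[ℝ] V) (δ : ℝ) : Prop :=
  ∀ e ∈ W, ∃ e' ∈ W, N e' = N' e ∧ ‖e' - T e‖ ≤ δ * ‖e‖

theorem Nr.mono (h : Nr W N N' T δ) (u : δ ≤ C) : Nr W N N' T C := fun e he =>
  (h e he).imp fun _ h => ⟨h.1, h.2.1, h.2.2.trans (mul_le_mul_of_nonneg_right u (norm_nonneg _))⟩

theorem Nr.le (h : Nr W N N' T δ) (i : InjOn N W) {e e' : V} (he : e ∈ W) (he' : e' ∈ W)
    (u : N e' = N' e) : ‖e' - T e‖ ≤ δ * ‖e‖ := by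
  obtain ⟨z, h1, h2, h3⟩ := h e he
  rwa [i he' h1 (u.trans h2.symm)]

theorem nr_of_le (s : SurjOn N W W) (m : MapsTo N' W W)
    (h : ∀ e ∈ W, ∀ e' ∈ W, N e' = N' e → ‖e' - T e‖ ≤ δ * ‖e‖) : Nr W N N' T δ := fun e he =>
  (s (m he)).imp fun z u => ⟨u.1, u.2, h e he z u.1 u.2⟩

theorem ex_nr [FiniteDimensional ℝ W] (b : BijOn N W W) (m : MapsTo N' W W) :
    ∃ C, 0 ≤ C ∧ Nr W N N' 0 C := by
  let E := LinearEquiv.ofBijective (N.restrict b.1) ⟨fun x y e => Subtype.ext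
    (b.2.1 x.2 y.2 (congrArg Subtype.val e)), fun y => (b.2.2 y.2).elim fun x u =>
      ⟨⟨x, u.1⟩, Subtype.ext u.2⟩⟩
  refine ⟨_, norm_nonneg (LinearMap.toContinuousLinearMap (E.symm.toLinearMap ∘ₗ N'.restrict m)),
    fun e he => ⟨_, (E.symm ⟨_, m he⟩).2, congrArg Subtype.val (E.apply_symm_apply _), ?_⟩⟩
  rw [LinearMap.zero_apply, sub_zero]
  exact (LinearMap.toContinuousLinearMap (E.symm.toLinearMap ∘ₗ N'.restrict m)).le_opNorm ⟨e, he⟩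

theorem Nr.bd (h : Nr W N N' T δ) (hT : ∀ e ∈ W, ‖T e‖ ≤ C * ‖e‖) : Nr W N N' 0 (C + δ) :=
  fun e he => (h e he).imp fun z u => ⟨u.1, u.2.1, by
    have := norm_sub_norm_le z (T e)
    simp only [LinearMap.zero_apply, sub_zero]
    linarith [hT e he, u.2.2]⟩

/-- the bootstrap for a finite family of maps -/
theorem boot_nr [FiniteDimensional ℝ W] {ι : Type} [Finite ι] {N M T : ι → V →ₗ[ℝ] V}
    (b : ∀ g, BijOn (N g) W W) (m : ∀ g, MapsTo (M g) W W) (C0 : 0 ≤ C)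
    (hT : ∀ g, ∀ e ∈ W, ‖T g e‖ ≤ C * ‖e‖) (δ1 : δ ≤ 1 / 2)
    (H : ∀ B, 0 ≤ B → (∀ g, Nr W (N g) (M g) 0 B) → ∀ g, Nr W (N g) (M g) (T g) (δ * (1 + B))) (g) :
    Nr W (N g) (M g) (T g) (δ * (2 * C + 3)) := by
  choose B _ hB using fun g => ex_nr (b g) (m g)
  obtain ⟨K, hK⟩ := (finite_range B).bddAbove
  have := boot1 (P := fun B => ∀ g, Nr W (N g) (M g) 0 B) C0 (fun _ _ u h g => (h g).mono u)
    ⟨K, fun g => (hB g).mono (hK ⟨g, rfl⟩)⟩ fun B B0 h g => ((H B B0 h g).bd (hT g)).mono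
      (by nlinarith)
  exact (H _ (by positivity) this g).mono (by linarith)

/-- a small perturbation of the identity is invertible -/
theorem Nr.symm [FiniteDimensional ℝ W] (h : Nr W N N' .id δ) (b : BijOn N W W) (δ0 : 0 ≤ δ)
    (δ1 : δ ≤ 1 / 2) : BijOn N' W W ∧ Nr W N' N .id (2 * δ) := by
  have m : MapsTo N' W W := fun e he => (h e he).elim fun z u => u.2.1 ▸ b.1 u.1
  have k e (he : e ∈ W) e' (he' : e' ∈ W) (u : N' e' = N e) : ‖e' - e‖ ≤ 2 * δ * ‖e‖ := by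
    have a := h.le b.2.1 he' he u.symm
    have c := norm_sub_norm_le e' e
    rw [LinearMap.id_apply, norm_sub_rev] at a
    nlinarith [norm_nonneg e, norm_nonneg (e' - e), norm_nonneg e']
  have b' := bij_of_inj m fun x hx y hy u => sub_eq_zero.1 (by
    simpa using k 0 W.zero_mem _ (W.sub_mem hx hy) (by simp [u]))
  exact ⟨b', nr_of_le b'.2.2 b.1 k⟩

/-- the average over a finite group -/
def av {Γ : Type} [Group Γ] [Fintype Γ] (ρ : Γ →* V →ₗ[ℝ] V) (N : V →ₗ[ℝ] V) : V →ₗ[ℝ] V :=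
  (Fintype.card Γ : ℝ)⁻¹ • ∑ g, ρ g ∘ₗ N ∘ₗ ρ g⁻¹

section
variable {Γ : Type} [Group Γ] [Fintype Γ] {ρ : Γ →* V →ₗ[ℝ] V}

theorem av_apply (c : V) : av ρ N c = (Fintype.card Γ : ℝ)⁻¹ • ∑ g, ρ g (N (ρ g⁻¹ c)) := by
  simp [av]

theorem av_comm (h : Γ) (c : V) : av ρ N (ρ h c) = ρ h (av ρ N c) := by
  rw [av_apply, av_apply, map_smul, map_sum, ← Equiv.sum_comp (Equiv.mulLeft h)]
  refine congrArg _ (Finset.sum_congr rfl fun g _ => ?_)
  rw [← Module.End.mul_apply (ρ _) (ρ h), ← map_mul, ← Module.End.mul_apply (ρ h), ← map_mul]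
  simp

theorem av_maps (hρ : ∀ g, MapsTo (ρ g) W W) (m : MapsTo N W W) : MapsTo (av ρ N) W W :=
  fun c hc => av_apply (ρ := ρ) (N := N) c ▸ W.smul_mem _ (W.sum_mem fun g _ => hρ g (m (hρ _ hc)))

theorem av_fix {u : V} (hρ : ∀ g, ρ g u = u) (m : N u = u) : av ρ N u = u := by
  simp [av_apply, hρ, m, ← Nat.cast_smul_eq_nsmul ℝ, smul_smul]

theorem av_comm' (hρ : ∀ g c, ρ g (T c) = T (ρ g c)) (m : ∀ c, N (T c) = T (N c)) (c : V) :
    av ρ N (T c) = T (av ρ N c) := by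
  simp [av_apply, hρ, m]

/-- almost equivariant maps are close to their average -/
theorem nr_av (hρ : ∀ g, MapsTo (ρ g) W W) (hC : ∀ g, ∀ e ∈ W, ‖ρ g e‖ ≤ C * ‖e‖) (δ0 : 0 ≤ δ)
    (H : ∀ g, Nr W N (ρ g ∘ₗ N) (ρ g) δ) : Nr W N (av ρ N) .id (δ * C) := fun e he => by
  choose z z1 z2 z3 using fun g => H g _ (hρ g⁻¹ he)
  have c0 : (0 : ℝ) < Fintype.card Γ := by exact_mod_cast Fintype.card_pos
  refine ⟨(Fintype.card Γ : ℝ)⁻¹ • ∑ g, z g, W.smul_mem _ (W.sum_mem fun g _ => z1 g),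
    by simp [av_apply, z2], ?_⟩
  have e1 : (Fintype.card Γ : ℝ)⁻¹ • ∑ g, z g - e =
      (Fintype.card Γ : ℝ)⁻¹ • ∑ g, (z g - ρ g (ρ g⁻¹ e)) := by
    simp [← Module.End.mul_apply (ρ _), ← map_mul, smul_sub, ← Nat.cast_smul_eq_nsmul ℝ, smul_smul]
  rw [LinearMap.id_apply, e1, norm_smul, norm_inv, Real.norm_natCast, inv_mul_le_iff₀ c0]
  refine (norm_sum_le_of_le _ fun g _ => (z3 g).trans
    (mul_le_mul_of_nonneg_left (hC _ e he) δ0)).trans_eq ?_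
  simp [mul_assoc]

end

section
variable {ι : Type} {U : Filter ι} {M M' M'' : ι → V →ₗ[ℝ] V}

/-- `M⁻¹ M'` is bounded on `W` -/
def Bd (U : Filter ι) (W : Submodule ℝ V) (M M' : ι → V →ₗ[ℝ] V) : Prop :=
  ∃ C, 0 ≤ C ∧ ∀ᶠ j in U, Nr W (M j) (M' j) 0 C

theorem Nr.trans (h : Nr W N N' 0 δ) (h' : Nr W N' N'' 0 C) (δ0 : 0 ≤ δ) : Nr W N N'' 0 (δ * C) :=
  fun e he => by
    obtain ⟨z, z1, z2, z3⟩ := h' e he
    obtain ⟨y, y1, y2, y3⟩ := h z z1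
    simp only [LinearMap.zero_apply, sub_zero] at *
    exact ⟨y, y1, y2.trans z2, y3.trans ((mul_le_mul_of_nonneg_left z3 δ0).trans_eq (by ring))⟩

theorem Bd.trans (h : Bd U W M M') (h' : Bd U W M' M'') : Bd U W M M'' := by
  obtain ⟨C, C0, h⟩ := h
  obtain ⟨D, D0, h'⟩ := h'
  exact ⟨C * D, by positivity, (h.and h').mono fun j e => e.1.trans e.2 C0⟩

theorem Bd.refl : Bd U W M M := ⟨1, one_pos.le, .of_forall fun _ e he => ⟨e, he, rfl, by simp⟩⟩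

theorem Bd.congr (h : Bd U W M M') (e : ∀ j, ∀ c ∈ W, M' j c = M'' j c) : Bd U W M M'' :=
  h.imp fun _ h => ⟨h.1, h.2.mono fun j u c hc => e j c hc ▸ u c hc⟩

theorem Bd.add (h : Bd U W M M') (h' : Bd U W M M'') (t : ℝ) : Bd U W M fun j => M' j + t • M'' j := by
  obtain ⟨C, C0, h⟩ := h
  obtain ⟨D, D0, h'⟩ := h'
  refine ⟨C + |t| * D, by positivity, (h.and h').mono fun j e c hc => ?_⟩
  obtain ⟨z, z1, z2, z3⟩ := e.1 c hc
  obtain ⟨y, y1, y2, y3⟩ := e.2 c hc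
  simp only [LinearMap.zero_apply, sub_zero] at *
  refine ⟨z + t • y, W.add_mem z1 (W.smul_mem _ y1), by simp [z2, y2], (norm_add_le _ _).trans ?_⟩
  rw [norm_smul, Real.norm_eq_abs]
  nlinarith [mul_le_mul_of_nonneg_left y3 (abs_nonneg t)]

theorem Bd.sum {κ : Type} (s : Finset κ) {F : κ → ι → V →ₗ[ℝ] V} (h : ∀ k ∈ s, Bd U W M (F k)) :
    Bd U W M fun j => ∑ k ∈ s, F k j := by
  classical
  induction s using Finset.induction_on with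
  | empty => exact ⟨0, le_rfl, .of_forall fun _ e _ => ⟨0, W.zero_mem, by simp, by simp⟩⟩
  | insert k s hk ih =>
    simpa [Finset.sum_insert hk] using (h k (by simp)).add (ih fun l hl => h l (by simp [hl])) 1

theorem Bd.comp [FiniteDimensional ℝ W] (h : Bd U W' M M') (le : W' ≤ W) (m : MapsTo T W W') :
    Bd U W M fun j => M' j ∘ₗ T := by
  obtain ⟨C, C0, h⟩ := h
  obtain ⟨D, D0, hD⟩ := ex_bd (W := W) T
  refine ⟨C * D, by positivity, h.mono fun j u c hc => (u _ (m hc)).imp fun z u =>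
    ⟨le u.1, u.2.1, u.2.2.trans ?_⟩⟩
  exact (mul_le_mul_of_nonneg_left (hD c hc) C0).trans_eq (by ring)

/-- `c'` is the limit of `M⁻¹ M' c` -/
def Rl (U : Filter ι) (W : Submodule ℝ V) (M M' : ι → V →ₗ[ℝ] V) (c c' : V) : Prop :=
  ∃ z : ι → V, Tendsto z U (𝓝 c') ∧ ∀ᶠ j in U, z j ∈ W ∧ M j (z j) = M' j c

variable {c c' e e' : V}

theorem Rl.mem [FiniteDimensional ℝ W] [U.NeBot] (h : Rl U W M M' c c') : c' ∈ W :=
  h.elim fun _ h => W.closed_of_finiteDimensional.mem_of_tendsto h.1 (h.2.mono fun _ e => e.1)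

theorem Rl.mono (h : Rl U W M M' c c') (le : W ≤ W') : Rl U W' M M' c c' :=
  h.imp fun _ h => ⟨h.1, h.2.mono fun _ e => ⟨le e.1, e.2⟩⟩

theorem Rl.uniq [U.NeBot] (h : Rl U W M M' c c') (h' : Rl U W M M' c e')
    (i : ∀ᶠ j in U, InjOn (M j) W) : c' = e' := by
  obtain ⟨z, z1, z2⟩ := h
  obtain ⟨y, y1, y2⟩ := h'
  refine tendsto_nhds_unique_of_eventuallyEq z1 y1 ?_
  filter_upwards [z2, y2, i] with j a b i using i a.1 b.1 (a.2.trans b.2.symm)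

theorem Rl.add (h : Rl U W M M' c c') (h' : Rl U W M M' e e') (t : ℝ) :
    Rl U W M M' (c + t • e) (c' + t • e') := by
  obtain ⟨z, z1, z2⟩ := h
  obtain ⟨y, y1, y2⟩ := h'
  refine ⟨fun j => z j + t • y j, z1.add (y1.const_smul t), ?_⟩
  filter_upwards [z2, y2] with j a b using ⟨W.add_mem a.1 (W.smul_mem _ b.1), by simp [a.2, b.2]⟩

theorem Rl.map [FiniteDimensional ℝ W] [U.NeBot] (h : Rl U W M M' c c') (m : MapsTo T W W)
    (h1 : ∀ᶠ j in U, ∀ e ∈ W, M j (T e) = T (M j e)) (h2 : ∀ᶠ j in U, M' j (T c) = T (M' j c)) :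
    Rl U W M M' (T c) (T c') := by
  obtain ⟨D, D0, hD⟩ := ex_bd (W := W) T
  have := h.mem
  obtain ⟨z, z1, z2⟩ := h
  refine ⟨fun j => T (z j), tendsto_iff_norm_sub_tendsto_zero.2 (squeeze_zero' (.of_forall
    fun _ => norm_nonneg _) (z2.mono fun j a => map_sub T _ _ ▸ hD _ (W.sub_mem a.1 this))
    (by simpa using (tendsto_iff_norm_sub_tendsto_zero.1 z1).const_mul D)), ?_⟩
  filter_upwards [z2, h1, h2] with j a u v using ⟨m a.1, by rw [u _ a.1, a.2, v]⟩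

theorem Rl.inv [FiniteDimensional ℝ W] [U.NeBot] (h : Rl U W M M' c c') (hc : c ∈ W)
    (b : Bd U W M' M) : Rl U W M' M c' c := by
  obtain ⟨C, C0, b⟩ := b
  have := h.mem
  obtain ⟨z, z1, z2⟩ := h
  have k : ∀ᶠ j in U, ∃ y, (c + y ∈ W ∧ M' j (c + y) = M j c') ∧ ‖y‖ ≤ C * ‖z j - c'‖ := by
    filter_upwards [z2, b] with j a u
    obtain ⟨y, y1, y2, y3⟩ := u _ (W.sub_mem this a.1)
    exact ⟨y, ⟨W.add_mem hc y1, by simp [y2, a.2]⟩, by simpa [norm_sub_rev c'] using y3⟩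
  obtain ⟨y, k⟩ := k.choice
  refine ⟨fun j => c + y j, ?_, k.mono fun _ e => e.1⟩
  simpa using (squeeze_zero_norm' (k.mono fun _ e => e.2)
    (by simpa using (tendsto_iff_norm_sub_tendsto_zero.1 z1).const_mul C)).const_add c

theorem Bd.ex {U : Ultrafilter ι} [FiniteDimensional ℝ W] (b : Bd U W M M') (hc : c ∈ W) :
    ∃ c', Rl U W M M' c c' := by
  obtain ⟨C, C0, b⟩ := b
  obtain ⟨z, k⟩ := (b.mono fun j u => u c hc).choice
  obtain ⟨c', -, u⟩ := ((isCompact_closedBall (0 : W) (C * ‖c‖)).image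
    continuous_subtype_val).ultrafilter_le_nhds' (U.map z)
    (k.mono fun j e => ⟨⟨_, e.1⟩, by simpa using e.2.2, rfl⟩)
  exact ⟨c', z, u, k.mono fun _ e => ⟨e.1, e.2.1⟩⟩

theorem Bd.lin {U : Ultrafilter ι} [FiniteDimensional ℝ W] (b : Bd U W M M')
    (i : ∀ᶠ j in U, InjOn (M j) W) : ∃ T : W →ₗ[ℝ] V, ∀ c : W, Rl U W M M' c (T c) := by
  choose T hT using fun c : W => b.ex c.2
  have (c e : W) (t : ℝ) : T (c + t • e) = T c + t • T e := (hT _).uniq ((hT c).add (hT e) t) i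
  have h0 : T 0 = 0 := by simpa using this 0 0 (-1)
  exact ⟨⟨⟨T, fun c e => by simpa using this c e 1⟩, fun t e => by simpa [h0] using this 0 e t⟩, hT⟩

end

section
variable (Φ : Fil V) {D d : ℕ} {c : V}

/-- the map which is `M d` on the component `d` -/
def gl (M : ℕ → V →ₗ[ℝ] V) : V →ₗ[ℝ] V where
  toFun c := ∑ᶠ d, M d (Φ.π d c)
  map_add' c e := by
    have f (c : V) : (Function.support fun d => M d (Φ.π d c)).Finite := (Φ.ex c).elim fun D h =>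
      (finite_le_nat D).subset fun d u => show d ≤ D from not_lt.1 fun v => u (by simp [Φ.π_zero h v])
    simp only [map_add]
    exact finsum_add_distrib (f c) (f e)
  map_smul' t c := by simp only [map_smul, smul_finsum, RingHom.id_apply]

/-- the projection to `F D` -/
def pr (D : ℕ) : V →ₗ[ℝ] V := ∑ d ∈ Finset.range (D + 1), Φ.π d

variable {Φ}

theorem gl_eq {M : ℕ → V →ₗ[ℝ] V} (h : c ∈ Φ.F D) :
    gl Φ M c = ∑ d ∈ Finset.range (D + 1), M d (Φ.π d c) :=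
  finsum_eq_sum_of_support_subset _ fun d u => by
    simpa [Nat.lt_succ_iff] using not_lt.1 fun v => u (by simp [Φ.π_zero h v])

theorem pr_mem (c : V) : pr Φ D c ∈ Φ.F D := by
  rw [pr, LinearMap.sum_apply]
  exact Submodule.sum_mem _ fun d h => Φ.mono (Finset.mem_range_succ_iff.1 h) (Φ.π_mem d c)

theorem pr_of (h : c ∈ Φ.F D) : pr Φ D c = c := (LinearMap.sum_apply _ _ _).trans (Φ.π_sum h)

theorem up_of_comm (h : ∀ d c, T (Φ.π d c) = Φ.π d (T c)) : MapsTo T (Φ.F D) (Φ.F D) :=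
  fun c hc => by
    have := pr_mem (Φ := Φ) (D := D) (T c)
    simp only [pr, LinearMap.sum_apply, ← h, ← map_sum, Φ.π_sum hc] at this
    exact this

variable {ι K Γ : Type} {U : Ultrafilter ι} {N : ι → K → V →ₗ[ℝ] V} {dg : K → ℕ} {b : ℕ → K}

theorem gl_up {M : ℕ → V →ₗ[ℝ] V} (h : ∀ d ≤ D, MapsTo (M d) (Φ.F d) (Φ.F d)) :
    MapsTo (gl Φ M) (Φ.F D) (Φ.F D) := fun c hc => gl_eq (M := M) hc ▸ Submodule.sum_mem _
  fun d u => Φ.mono (Finset.mem_range_succ_iff.1 u)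
    (h d (Finset.mem_range_succ_iff.1 u) (Φ.π_mem d c))

theorem gl_comm {M : ℕ → V →ₗ[ℝ] V} (h : ∀ d c, T (Φ.π d c) = Φ.π d (T c))
    (h' : ∀ d ≤ D, ∀ c ∈ Φ.F d, M d (T c) = T (M d c)) (hc : c ∈ Φ.F D) :
    gl Φ M (T c) = T (gl Φ M c) := by
  rw [gl_eq hc, gl_eq (up_of_comm h hc), map_sum]
  exact Finset.sum_congr rfl fun d u => by
    rw [← h, h' d (Finset.mem_range_succ_iff.1 u) _ (Φ.π_mem d c)]

theorem bd_gl {U : Filter ι} (hb : ∀ d, d ≤ dg (b d)) (h : ∀ κ κ' d, d ≤ dg κ → d ≤ dg κ' →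
    Bd U (Φ.F d) (N · κ) (N · κ')) {κ : K} (hD : D ≤ dg κ) :
    Bd U (Φ.F D) (N · κ) (fun j => gl Φ fun d => N j (b d)) ∧
      Bd U (Φ.F D) (fun j => gl Φ fun d => N j (b d)) (N · κ) := by
  have := Φ.fin
  have m {d D} : MapsTo (Φ.π d) (Φ.F D) (Φ.F d) := fun c _ => Φ.π_mem d c
  refine ⟨(Bd.sum (Finset.range (D + 1)) fun d u => (h κ (b d) d
    ((Finset.mem_range_succ_iff.1 u).trans hD) (hb d)).comp (Φ.mono (Finset.mem_range_succ_iff.1 u))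
      m).congr fun j c hc => by simp [gl_eq hc], ?_⟩
  induction D using Nat.strong_induction_on generalizing κ with
  | _ D ih =>
    refine Bd.trans (((Bd.refl.add (Bd.sum (Finset.range D) fun d u =>
      ((ih d (Finset.mem_range.1 u) ((Finset.mem_range.1 u).le.trans (hb D))).add
        (ih d (Finset.mem_range.1 u) (hb d)) (-1)).comp (Φ.mono (Finset.mem_range.1 u).le) m) 1)).congr
      fun j c hc => ?_) (h (b D) κ D (hb D) hD)
    conv_rhs => rw [← Φ.π_sum hc]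
    simp [gl_eq hc, Finset.sum_range_succ, Finset.sum_add_distrib]
    abel

/-- normalisation of the labels from comparable charts -/
theorem glue {ρ : Γ → V →ₗ[ℝ] V} (hρ : ∀ g d c, ρ g (Φ.π d c) = Φ.π d (ρ g c))
    (hb : ∀ d, d ≤ dg (b d)) (h1 : ∀ κ, ∀ᶠ j in U, ∀ d ≤ dg κ, BijOn (N j κ) (Φ.F d) (Φ.F d))
    (h2 : ∀ κ g, ∀ᶠ j in U, ∀ c ∈ Φ.F (dg κ), N j κ (ρ g c) = ρ g (N j κ c))
    (h3 : ∀ κ κ' d, d ≤ dg κ → d ≤ dg κ' → Bd U (Φ.F d) (N · κ) (N · κ')) :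
    (∀ D, ∀ᶠ j in U, BijOn (gl Φ fun d => N j (b d)) (Φ.F D) (Φ.F D)) ∧
    (∀ D g, ∀ᶠ j in U, ∀ c ∈ Φ.F D,
      gl Φ (fun d => N j (b d)) (ρ g c) = ρ g (gl Φ (fun d => N j (b d)) c)) ∧
    ∀ κ, ∃ A : V ≃ₗ[ℝ] V, Φ.Up 0 A ∧ Φ.Up 0 A.symm ∧ (∀ g c, A (ρ g c) = ρ g (A c)) ∧
      ∀ d ≤ dg κ, ∀ c ∈ Φ.F d, Rl U (Φ.F d) (fun j => gl Φ fun d => N j (b d)) (N · κ) c (A c) := by
  have := Φ.fin
  have a1 (D) : ∀ᶠ j in U, BijOn (gl Φ fun d => N j (b d)) (Φ.F D) (Φ.F D) := by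
    obtain ⟨C, -, u⟩ := (bd_gl hb h3 (hb D)).2
    filter_upwards [u, h1 (b D), (eventually_all_finite (finite_le_nat D)).2 fun d _ => h1 (b d)]
      with j u v w
    refine bij_of_surj (gl_up fun d e => (w d e d (hb d)).1) fun y hy => ?_
    obtain ⟨x, hx, rfl⟩ := (v D (hb D)).2.2 hy
    exact (u x hx).imp fun z e => ⟨e.1, e.2.1⟩
  have a2 (D g) : ∀ᶠ j in U, ∀ c ∈ Φ.F D,
      gl Φ (fun d => N j (b d)) (ρ g c) = ρ g (gl Φ (fun d => N j (b d)) c) :=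
    ((eventually_all_finite (finite_le_nat D)).2 fun d _ => h2 (b d) g).mono fun j u c hc =>
      gl_comm (hρ g) (fun d e c hc => u d e c (Φ.mono (hb d) hc)) hc
  refine ⟨a1, a2, fun κ => ?_⟩
  have i1 := (a1 (dg κ)).mono fun j u => u.2.1
  have i2 := (h1 κ).mono fun j u => (u _ le_rfl).2.1
  obtain ⟨b2, b1⟩ := bd_gl hb h3 (le_refl (dg κ))
  obtain ⟨T, hT⟩ := b1.lin i1
  obtain ⟨T', hT'⟩ := b2.lin i2
  let P := (pr Φ (dg κ)).codRestrict _ pr_mem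
  have p1 (c : Φ.F (dg κ)) : P c = c := Subtype.ext (pr_of c.2)
  have inv {M M' : ι → V →ₗ[ℝ] V} {T T' : Φ.F (dg κ) →ₗ[ℝ] V} (hT : ∀ c : Φ.F (dg κ),
      Rl U (Φ.F (dg κ)) M M' c (T c)) (hT' : ∀ c : Φ.F (dg κ), Rl U (Φ.F (dg κ)) M' M c (T' c))
      (b : Bd U (Φ.F (dg κ)) M' M) (i : ∀ᶠ j in U, InjOn (M' j) (Φ.F (dg κ))) :
      (T' ∘ₗ P + .id - pr Φ (dg κ)) ∘ₗ (T ∘ₗ P + .id - pr Φ (dg κ)) = .id := by
    ext c
    have e1 := p1 ⟨_, (hT (P c)).mem⟩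
    have e2 := (hT' ⟨_, (hT (P c)).mem⟩).uniq ((hT (P c)).inv (P c).2 b) i
    have e3 : P (pr Φ (dg κ) c) = P c := p1 (P c)
    have e4 : pr Φ (dg κ) (T (P c)) = T (P c) := pr_of (hT (P c)).mem
    have e5 : pr Φ (dg κ) (pr Φ (dg κ) c) = pr Φ (dg κ) c := pr_of (pr_mem c)
    have e6 : (P c : V) = pr Φ (dg κ) c := rfl
    simp only at e1
    simp [e1, e2, e3, e4, e5, e6]
  have low {M M' : ι → V →ₗ[ℝ] V} {T : Φ.F (dg κ) →ₗ[ℝ] V} (hT : ∀ c : Φ.F (dg κ),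
      Rl U (Φ.F (dg κ)) M M' c (T c)) (b : ∀ d ≤ dg κ, Bd U (Φ.F d) M M')
      (i : ∀ᶠ j in U, InjOn (M j) (Φ.F (dg κ))) :
      (∀ d ≤ dg κ, ∀ c ∈ Φ.F d, Rl U (Φ.F d) M M' c ((T ∘ₗ P + .id - pr Φ (dg κ)) c)) ∧
      Φ.Up 0 (T ∘ₗ P + .id - pr Φ (dg κ) : V →ₗ[ℝ] V) := by
    have k : ∀ d ≤ dg κ, ∀ c ∈ Φ.F d, Rl U (Φ.F d) M M' c ((T ∘ₗ P + .id - pr Φ (dg κ)) c) :=
      fun d e c hc => ((b d e).ex hc).elim fun c' u => by
        have := (hT ⟨c, Φ.mono e hc⟩).uniq (u.mono (Φ.mono e)) i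
        simpa [p1 ⟨c, Φ.mono e hc⟩, pr_of (Φ.mono e hc), this] using u
    refine ⟨k, fun d c hc => (le_total d (dg κ)).elim (fun e => (k d e c hc).mem) fun e => ?_⟩
    exact Submodule.sub_mem _ (Submodule.add_mem _ (Φ.mono e (hT _).mem) hc) (Φ.mono e (pr_mem c))
  have l1 := low hT (fun d e => (bd_gl hb h3 e).2) i1
  refine ⟨.ofLinearMap _ _ (inv hT' hT b1 i1) (inv hT hT' b2 i2), l1.2,
    (low hT' (fun d e => (bd_gl hb h3 e).1) i2).2, fun g c => ?_, l1.1⟩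
  have q : pr Φ (dg κ) (ρ g c) = ρ g (pr Φ (dg κ) c) := by simp [pr, hρ]
  have := (hT (P (ρ g c))).uniq (q ▸ (hT (P c)).map (up_of_comm (hρ g)) (a2 _ g)
    ((h2 κ g).mono fun j u => u _ (P c).2)) i1
  simp [q, this]

end

end Pool.Agent.Lib.MP_7f377f_mp.Kz
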