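import Pool.Agent.Lib.MP_7f377f_mp.G.KwQ
import Pool.Agent.Lib.MP_7f377f_mp.G.KzL2
import Pool.Agent.Lib.MP_7f377f_mp.G.KzA

/-! Lattice Wick ordering of the labels. -/

noncomputable section

set_option linter.unusedSectionVars false
variable [Pool.Agent.Lib.MP_7f377f_mp.GD]

namespace Pool.Agent.Lib.MP_7f377f_mp.RG.Tl

open Finset MvPolynomial MeasureTheory Wd Q4
open Zf (Jx fp Fd rh)
open Kw (kf sc)
open Zg (V0 Og r0 fil)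
open YZ (R4)
open YM7 (SU2 wilson)

variable {𝒜 : Set CM} [Og 𝒜] {d : ℕ} {ε : ℝ} {ι : Type}

/-- Wick ordering of real polynomials -/
def wR : Module.End ℝ (Zf.Lb GD.d ℝ) :=
  Zf.ex fun p q => if p.2 = q.2 then -(kf 0 (fl (jo p.1)) (fl (jo q.1)) / 2) else 0

theorem cx_wR (c : Zf.Lb GD.d ℝ) : cx (wR c) = wq jo (cx c) := by
  rw [wR, ← Kw.ex_ring, wq]
  simp only [apply_ite (algebraMap ℝ ℂ), map_zero]
  rfl

theorem cx_rs (t : ℝ) (c : Zf.Lb GD.d ℝ) :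
    cx (rh (t • 1) c) = sc (fun q => q.1.1 + 2) (t : ℂ) (cx c) := by
  induction c using MvPolynomial.induction_on with
  | C a => simp [sc]
  | add p q h h' => simp only [map_add, h, h']
  | mul_X p q h =>
    rw [map_mul, map_mul, map_mul, map_mul, h, Zf.rh_smul (isWeightedHomogeneous_X ℝ _ q)]
    simp [sc, smul_eq_C_mul, Zf.wt]

theorem la_Fd (A) {c : Zf.Lb GD.d ℝ} (h : c ∈ Fd _ ℝ (d + 1)) : Zf.La A c ∈ Fd _ ℝ d := by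
  have k : ∀ p d (c : Zf.Lb GD.d ℝ), c ∈ Fd _ ℝ (d + 1) → pderiv p c ∈ Fd _ ℝ d := fun p d c h =>
    Zf.mem_Fd0.2 fun m hm => by
      have := Zf.mem_Fd0.1 h _ (left_ne_zero_of_mul (coeff_pderiv c m ▸ hm))
      simp only [map_add, Finsupp.weight_single, Zf.wt, one_smul] at this
      omega
  rw [Zf.La_sum A subset_rfl]
  exact sum_mem fun p _ => sum_mem fun q _ => Submodule.smul_mem _ _
    (k _ _ _ (Zf.Fd_mono d.le_succ (k _ _ _ h)))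

theorem ex_Fd (A) {c : Zf.Lb GD.d ℝ} (h : c ∈ Fd _ ℝ (d + 1)) : Zf.ex A c - c ∈ Fd _ ℝ d := by
  have k : ∀ m, (Zf.La A ^ m) c ∈ Fd _ ℝ (d + 1) := fun m => by
    induction m with
    | zero => exact h
    | succ m ih => exact pow_succ' (Zf.La A) m ▸ Zf.Fd_mono d.le_succ (la_Fd A ih)
  obtain ⟨M, e⟩ := Filter.eventually_atTop.1 (Zf.ex_sum A c)
  rw [e (M + 1) M.le_succ, sum_range_succ']
  simpa using sum_mem fun m _ => (Fd _ ℝ d).smul_mem _ (pow_succ' (Zf.La A) m ▸ la_Fd A (k m))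

variable [Adj 𝒜]

variable (𝒜) in
/-- Wick ordering of the labels -/
def wV : V0 𝒜 →ₗ[ℝ] V0 𝒜 := (Zf.pj ∘ₗ wR ∘ₗ (V0 𝒜).subtype).codRestrict _ fun c =>
  Zg.pj_v0 (iv_cx.1 ((cx_wR _).symm ▸ iv_ex (iv_cx.2 c.2.1) _))

variable (𝒜) in
/-- the rescaled Wick ordered label -/
def zV (ε : ℝ) : V0 𝒜 →ₗ[ℝ] V0 𝒜 := wV 𝒜 ∘ₗ Zg.rv 𝒜 (Zg.smul_o ε⁻¹)

theorem ls_wV (c : V0 𝒜) : ls 𝒜 (wV 𝒜 c) = lf jo (wq jo (cx c.1)) :=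
  (ls_p0 ⟨wR c.1, iv_cx.1 ((cx_wR _).symm ▸ iv_ex (iv_cx.2 c.2.1) _)⟩).trans (congrArg _ (cx_wR _))

/-- (a) -/
theorem zl_zV (ε r : ℝ) (c : V0 𝒜) :
    zl jo Sigma.fst ε r (cx c.1) = sc (fun _ => 1) (r : ℂ) (ls 𝒜 (zV 𝒜 ε c)) := by
  have e : (fun a => r • jo a) = fun a =>
      Finsupp.linearCombination ℝ (fun w => Finsupp.single w (r ^ 1)) (jo a) := funext fun a => by
    induction jo a using Finsupp.induction_linear <;> simp [*, mul_comm]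
  rw [zl_ap, ← cx_rs, e, lf_sb, ← sb_sb, ← sc_sb fun _ => 1]
  exact congrArg _ (ls_wV (Zg.rv 𝒜 (Zg.smul_o ε⁻¹) c)).symm

theorem wV_F {c : V0 𝒜} (h : c ∈ (fil 𝒜).F (d + 1)) : wV 𝒜 c - c ∈ (fil 𝒜).F d := by
  have := Zf.pj_Fd (ex_Fd _ h : wR c.1 - c.1 ∈ _)
  rwa [map_sub, Zf.pj_of c.2.2] at this

theorem wV_F' {c : V0 𝒜} (h : c ∈ (fil 𝒜).F d) : wV 𝒜 c ∈ (fil 𝒜).F d := by
  simpa using add_mem (wV_F ((fil 𝒜).mono d.le_succ h)) h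

theorem zV_pi (m : ℕ) (c : V0 𝒜) :
    zV 𝒜 ε ((fil 𝒜).π m c) = ε⁻¹ ^ m • wV 𝒜 ((fil 𝒜).π m c) :=
  (congrArg (wV 𝒜) (Subtype.ext (Zf.rh_smul (Zf.hc_hm m c.1) _))).trans (map_smul ..)

theorem zV_sum {c : V0 𝒜} (h : c ∈ (fil 𝒜).F d) :
    zV 𝒜 ε c = ∑ m ∈ range (d + 1), ε⁻¹ ^ m • wV 𝒜 ((fil 𝒜).π m c) := by
  simp only [← zV_pi, ← map_sum, (fil 𝒜).π_sum h]

/-- (b) -/
theorem zV_F (ε : ℝ) (d : ℕ) : Set.MapsTo (zV 𝒜 ε) ((fil 𝒜).F d) ((fil 𝒜).F d) := fun c h => by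
  rw [zV_sum h]
  exact sum_mem fun m hm => Submodule.smul_mem _ _ (wV_F' ((fil 𝒜).mono
    (Nat.lt_succ_iff.1 (mem_range.1 hm)) (Zf.hc_hm m c.1).mem))

/-- (c) -/
theorem zV_le (d : ℕ) : ∃ K ≥ (0 : ℝ), ∀ ε, 0 < ε → ε ≤ 1 → ∀ c ∈ (fil 𝒜).F d,
    ‖zV 𝒜 ε c‖ ≤ K * ε⁻¹ ^ d * ‖c‖ := by
  have := (fil 𝒜).fin d
  choose T T0 hT using fun m => Kz.ex_bd (W := (fil 𝒜).F d) (wV 𝒜 ∘ₗ (fil 𝒜).π m)
  refine ⟨∑ m ∈ range (d + 1), T m, sum_nonneg fun m _ => T0 m, fun ε h0 h1 c h => ?_⟩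
  rw [zV_sum h, sum_mul, sum_mul]
  refine norm_sum_le_of_le _ fun m hm => ?_
  rw [norm_smul, mul_comm (T m), mul_assoc, Real.norm_of_nonneg (by positivity)]
  exact mul_le_mul (pow_le_pow_right₀ ((one_le_inv₀ h0).2 h1) (Nat.lt_succ_iff.1 (mem_range.1 hm)))
    (hT m c h) (norm_nonneg _) (by positivity)

/-- (d) -/
theorem zV_sur (h0 : 0 < ε) {c : V0 𝒜} (h : c ∈ (fil 𝒜).F d) :
    ∃ e ∈ Vp 𝒜 d, zV 𝒜 ε e - c ∈ (fil 𝒜).F 0 := by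
  induction d generalizing c with
  | zero => exact ⟨0, zero_mem _, by simpa using h⟩
  | succ d ih =>
    have a : (fil 𝒜).π (d + 1) c ∈ (fil 𝒜).F (d + 1) := (Zf.hc_hm _ c.1).mem
    have b : c - (fil 𝒜).π (d + 1) c ∈ (fil 𝒜).F d :=
      sub_eq_of_eq_add (((fil 𝒜).π_sum h).symm.trans (sum_range_succ ..)) ▸ sum_mem fun m hm =>
        (fil 𝒜).mono (Nat.lt_succ_iff.1 (mem_range.1 hm)) ((fil 𝒜).π_mem m c)
    obtain ⟨e, he, k⟩ := ih (sub_mem b (wV_F a))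
    refine ⟨e + ε ^ (d + 1) • (fil 𝒜).π (d + 1) c, add_mem ⟨(fil 𝒜).mono d.le_succ he.1, he.2⟩
      (Submodule.smul_mem _ _ ⟨a, Subtype.ext ((Zf.hc_hm _ c.1).hc_eq 0)⟩), ?_⟩
    rw [map_add, map_smul, zV_pi, smul_smul, ← mul_pow, mul_inv_cancel₀ h0.ne', one_pow, one_smul]
    rwa [sub_sub, add_sub_cancel, ← sub_add, sub_add_eq_add_sub] at k

variable [MeasurableSpace SU2] [BorelSpace SU2] (h : Measure SU2) [h.IsHaarMeasure]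
  [IsProbabilityMeasure h] [Fintype ι]

variable (𝒜) in
/-- (e) the Gaussian limit for the mirror images of the letters -/
theorem gaussG (D N : ℕ) {δ : ℝ} (δ0 : 0 < δ) :
    ∃ (C : ℕ) (κ : ℝ), 0 < κ ∧ ∀ (ε η b : ℝ) (L : ℕ) [NeZero L] (x : ι → St)
      (y : ι → R4) (X : Conf → ℂ), Gwk C ε b L x → Gpt C δ ε η x y → Gct N ε b x X →
      ∀ (g : ι → B4) (e : ι → V0 𝒜), (∀ i, e i ∈ (fil 𝒜).F D) → ‖∫ U, X (Fi.lf U) *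
        ∏ i, pG (act (g i) (sc (fun _ => 1) ((√(2 * b) : ℝ) : ℂ) (ls 𝒜 (zV 𝒜 ε (e i)))))
          (sh (x i) (Fi.lf U)) ∂wilson h b L -
        (fp (fun i => (r0 𝒜 (gI (g i)) (e i)).1) y : ℝ)‖ ≤ η ^ κ * ∏ i, ‖e i‖ := by
  have := (fil 𝒜).fin D
  obtain ⟨C, κ, κ0, H⟩ := gaussU (ι := ι) h (fun g I => (lj_ga g I).lead) (W := (fil 𝒜).F D)
    (J := (mapAlgHom (Algebra.ofId ℝ ℂ)).toLinearMap ∘ₗ (V0 𝒜).subtype ∘ₗ ((fil 𝒜).F D).subtype)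
    (fun w => iv_cx.2 w.1.2.1) N δ0
  refine ⟨C, κ, κ0, fun ε η b L _ x y X h1 h2 h3 g e he => ?_⟩
  simp only [← zl_zV, act_zl, ← Zf.s_real ι, Zg.r0_val, ← sb_rJ]
  exact H ε η b L x y X h1 h2 h3 g fun i => ⟨e i, he i⟩

variable (𝒜) in
/-- (e) the Gaussian limit -/
theorem gaussV (D N : ℕ) {δ : ℝ} (δ0 : 0 < δ) :
    ∃ (C : ℕ) (κ : ℝ), 0 < κ ∧ ∀ (ε η b : ℝ) (L : ℕ) [NeZero L] (x : ι → St)
      (y : ι → R4) (X : Conf → ℂ), Gwk C ε b L x → Gpt C δ ε η x y → Gct N ε b x X →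
      ∀ e : ι → V0 𝒜, (∀ i, e i ∈ (fil 𝒜).F D) → ‖∫ U, X (Fi.lf U) *
        ∏ i, pG (sc (fun _ => 1) ((√(2 * b) : ℝ) : ℂ) (ls 𝒜 (zV 𝒜 ε (e i))))
          (sh (x i) (Fi.lf U)) ∂wilson h b L - (fp (fun i => (e i).1) y : ℝ)‖ ≤
        η ^ κ * ∏ i, ‖e i‖ := by
  obtain ⟨C, κ, κ0, H⟩ := gaussG (ι := ι) 𝒜 h D N δ0
  refine ⟨C, κ, κ0, fun ε η b L _ x y X h1 h2 h3 e he => ?_⟩
  simpa only [act_one, gI_one, map_one, Module.End.one_apply] using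
    H ε η b L x y X h1 h2 h3 (fun _ => 1) e he

end Pool.Agent.Lib.MP_7f377f_mp.RG.Tl
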