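import Pool.Agent.Lib.MP_7f377f_mp.G.KwM

/-! The Gaussian limit is uniform on finite dimensional spaces of letters. -/

noncomputable section

set_option linter.unusedSectionVars false
variable [Pool.Agent.Lib.MP_7f377f_mp.GD]

namespace Pool.Agent.Lib.MP_7f377f_mp.RG.Tl

open Finset MvPolynomial MeasureTheory Filter Topology Wd Q4
open Zf (Jx E wk fp)
open Kw (kf sc pL Lead)
open YZ (R4)
open YM7 (SU2 wilson)

variable {α γ ι : Type} {C C' : ℕ} {δ ε η b : ℝ} {x : ι → St}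

theorem Gwk.anti {L : ℕ} (h : Gwk C ε b L x) (e : C' ≤ C) : Gwk C' ε b L x := by
  have e' : (C' : ℝ) ≤ C := by exact_mod_cast e
  refine ⟨h.pos, (mul_le_mul_of_nonneg_right e' h.pos.le).trans h.sm, ?_, h.vol, h.dia⟩
  rcases C.eq_zero_or_pos with rfl | c
  · exact Nat.le_zero.1 e ▸ h.cpl
  · have c' : (1 : ℝ) ≤ C := by exact_mod_cast c
    exact (pow_le_pow_right₀ ((one_le_inv₀ h.pos).2 (by nlinarith [h.pos, h.sm])) e).trans h.cpl

theorem Gpt.anti {y : ι → R4} (h : Gpt C δ ε η x y) (η0 : 0 ≤ η) (e : C' ≤ C) : Gpt C' δ ε η x y :=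
  ⟨h.le, (mul_le_mul_of_nonneg_right (by exact_mod_cast e) η0).trans h.sm, h.far, h.near⟩

variable [MeasurableSpace SU2] [BorelSpace SU2] (h : Measure SU2) [h.IsHaarMeasure]
  [IsProbabilityMeasure h] [Fintype ι]

theorem Gct.int {N L : ℕ} [NeZero L] {X : Conf → ℂ} (hX : Gct N ε b x X) (P : ι → Pl) :
    Integrable (fun U => X (Fi.lf U) * ∏ i, pG (P i) (sh (x i) (Fi.lf U))) (wilson h b L) :=
  have c : Continuous (Fi.lf (n := L)) := continuous_pi fun _ => continuous_apply _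
  have c' : ∀ z, Continuous fun U : YM7.Cfg L => sh z (Fi.lf U) := fun _ =>
    continuous_pi fun _ => continuous_apply _
  Integrable.bdd_mul ((continuous_finsetProd _ fun i _ =>
    (pG_cont _).comp (c' _)).integrable_of_hasCompactSupport (.of_compactSpace _))
    (hX.meas.comp c.measurable).aestronglyMeasurable (.of_forall fun _ => hX.bd _)

/-- uniformity on finite dimensional spaces and for finitely many families of letters -/
theorem gaussU [Finite γ] {l : γ → α → Lp →₀ ℝ} {n : α → ℕ} {c : γ → α → Jx →₀ ℝ}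
    (H : ∀ g a, Lead (n a) (fl (l g a)) (c g a)) {W : Type} [NormedAddCommGroup W] [NormedSpace ℝ W]
    [FiniteDimensional ℝ W] {J : W →ₗ[ℝ] Cp α} (hJ : ∀ w, Iv (J w)) (N : ℕ) {δ : ℝ} (δ0 : 0 < δ) :
    ∃ (C : ℕ) (κ : ℝ), 0 < κ ∧ ∀ (ε η b : ℝ) (L : ℕ) [NeZero L] (x : ι → St)
      (y : ι → R4) (X : Conf → ℂ), Gwk C ε b L x → Gpt C δ ε η x y → Gct N ε b x X →
      ∀ (g : ι → γ) (w : ι → W), ‖∫ U, X (Fi.lf U) *
        ∏ i, pG (zl (l (g i)) n ε √(2 * b) (J (w i))) (sh (x i) (Fi.lf U)) ∂wilson h b L -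
        fp (fun i => sb (c (g i)) (J (w i))) y‖ ≤ η ^ κ * ∏ i, ‖w i‖ := by
  classical
  let B := Module.finBasis ℝ W
  choose C k k0 hC using fun p : (ι → γ) × (ι → Fin (Module.finrank ℝ W)) =>
    gauss h (fun i => H (p.1 i)) (fun i => hJ (B (p.2 i))) N δ0
  obtain ⟨C₁, h₁⟩ := Finite.exists_le C
  obtain ⟨κ, hκ, κ0⟩ := ((eventually_all.2 fun p => Ioc_mem_nhdsGT (half_pos (k0 p))).and
    (self_mem_nhdsWithin (s := Set.Ioi (0 : ℝ)))).exists
  obtain ⟨A, hA⟩ : ∃ A : ℝ, A = ∑ r : ι → _,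
    ∏ i, ‖LinearMap.toContinuousLinearMap (B.coord (r i))‖ := ⟨_, rfl⟩
  have A0 : 0 ≤ A := by rw [hA]; positivity
  obtain ⟨C₂, h₂⟩ := exists_nat_ge (A ^ κ⁻¹ + 1)
  refine ⟨max C₁ C₂, κ, κ0, fun ε η b L _ x y X h1 h2 h3 g w => ?_⟩
  have η0 : 0 < η := h1.pos.trans_le h2.le
  have s := (h2.anti η0.le (le_max_right _ _)).sm
  have p0 := Real.rpow_nonneg A0 κ⁻¹
  have a : η ^ κ * A ≤ 1 := by
    rw [← Real.rpow_inv_rpow A0 (ne_of_gt κ0), ← Real.mul_rpow η0.le p0]
    exact Real.rpow_le_one (by positivity) (by nlinarith) κ0.le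
  have e : ∀ i, J (w i) = ∑ j, (B.coord j (w i) : ℂ) • J (B j) := fun i => by
    conv_lhs => rw [← B.sum_repr (w i)]
    simp only [map_sum, map_smul, Module.Basis.coord_apply, Complex.coe_smul]
  simp only [e, map_sum, map_smul, Finset.sum_apply, Pi.smul_apply, smul_eq_mul, Fintype.prod_sum,
    prod_mul_distrib, mul_sum, mul_left_comm (X _)]
  rw [integral_finsetSum _ fun r _ => (h3.int h _).const_mul _, ← Zf.fm_apply,
    MultilinearMap.map_sum, ← sum_sub_distrib]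
  calc _ ≤ ∑ r : ι → _, (∏ i, ‖LinearMap.toContinuousLinearMap (B.coord (r i))‖) *
        ((∏ i, ‖w i‖) * (η ^ κ * η ^ κ)) := by
        refine norm_sum_le_of_le _ fun r _ => ?_
        rw [MultilinearMap.map_smul_univ, integral_const_mul, smul_eq_mul, ← mul_sub, norm_mul,
          ← mul_assoc, ← prod_mul_distrib, norm_prod, Zf.fm_apply, ← Real.rpow_add η0]
        refine mul_le_mul (prod_le_prod (fun _ _ => norm_nonneg _) fun i _ => ?_)
          ((hC (g, r) ε η b L x y X (h1.anti ((h₁ _).trans (le_max_left _ _)))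
            (h2.anti η0.le ((h₁ _).trans (le_max_left _ _))) h3).trans
            (Real.rpow_le_rpow_of_exponent_ge η0 (by nlinarith) (by linarith [(hκ (g, r)).2])))
          (norm_nonneg _) (by positivity)
        rw [Complex.norm_real]
        exact (LinearMap.toContinuousLinearMap (B.coord (r i))).le_opNorm (w i)
    _ = η ^ κ * (∏ i, ‖w i‖) * (η ^ κ * A) := by rw [← sum_mul, ← hA]; ring
    _ ≤ _ := mul_le_of_le_one_right (by positivity) a

end Pool.Agent.Lib.MP_7f377f_mp.RG.Tl
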