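import Pool.Agent.Lib.MP_7f377f_mp.G.KwJ

/-! The scaling limit of the lattice Green function with a polynomial rate. -/

noncomputable section

namespace Pool.Agent.Lib.MP_7f377f_mp.Kw

open Complex MeasureTheory Real Filter Topology Set Heat

/-- two numbers of size `M` at the relative distance `η` -/
def Nr (M η : ℝ) (x y : ℂ) : Prop := ‖x‖ ≤ M ∧ ‖y‖ ≤ M ∧ ‖x - y‖ ≤ η * M

namespace Nr

variable {M M' η η' : ℝ} {x y x' y' : ℂ}

theorem mul (h : Nr M η x y) (h' : Nr M' η' x' y') : Nr (M * M') (η + η') (x * x') (y * y') := by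
  obtain ⟨a, b, c⟩ := h
  obtain ⟨a', b', c'⟩ := h'
  have := (norm_nonneg _).trans a
  have := (norm_nonneg _).trans c
  refine ⟨by rw [norm_mul]; gcongr, by rw [norm_mul]; gcongr, ?_⟩
  rw [show x * x' - y * y' = (x - y) * x' + y * (x' - y') by ring]
  refine (norm_add_le _ _).trans ?_
  rw [norm_mul, norm_mul, show (η + η') * (M * M') = η * M * M' + M * (η' * M') by ring]
  gcongr

theorem prod {ι : Type} (s : Finset ι) {M η : ι → ℝ} {x y : ι → ℂ}
    (h : ∀ i, Nr (M i) (η i) (x i) (y i)) :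
    Nr (∏ i ∈ s, M i) (∑ i ∈ s, η i) (∏ i ∈ s, x i) (∏ i ∈ s, y i) := by
  induction s using Finset.cons_induction with
  | empty => simp [Nr]
  | cons i s hi ih => simpa only [Finset.prod_cons, Finset.sum_cons] using (h i).mul ih

theorem pow (h : Nr M η x y) (n : ℕ) : Nr (M ^ n) (n * η) (x ^ n) (y ^ n) := by
  simpa using prod (Finset.range n) fun _ => h

theorem mono (h : Nr M η x y) (e : M ≤ M') (e' : η * M ≤ η' * M') : Nr M' η' x y :=
  ⟨h.1.trans e, h.2.1.trans e, h.2.2.trans e'⟩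

theorem int {M : ℝ → ℝ} {F G : ℝ → ℂ} (i : Integrable M) (f : AEStronglyMeasurable F)
    (g : AEStronglyMeasurable G) (h : ∀ u, Nr (M u) η (F u) (G u)) :
    Nr (∫ u, M u) η (∫ u, F u) (∫ u, G u) := by
  refine ⟨norm_integral_le_of_norm_le i (ae_of_all _ fun u => (h u).1),
    norm_integral_le_of_norm_le i (ae_of_all _ fun u => (h u).2.1), ?_⟩
  rw [← integral_sub (i.mono' f (ae_of_all _ fun u => (h u).1))
    (i.mono' g (ae_of_all _ fun u => (h u).2.1)), ← integral_const_mul]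
  exact norm_integral_le_of_norm_le (i.const_mul _) (ae_of_all _ fun u => (h u).2.2)

theorem slope {ε : ℝ} (he : 0 < ε) (u : ℝ) :
    Nr |u| (2 * ε * |u|) ((cexp (I * (ε * u : ℝ)) - 1) / ε) (I * u) := by
  have hne : (ε : ℂ) ≠ 0 := by exact_mod_cast he.ne'
  have a : ‖cexp (I * (ε * u : ℝ)) - 1‖ ≤ |ε * u| := by
    simpa using Real.norm_exp_I_mul_ofReal_sub_one_le (x := ε * u)
  have n : ‖I * (ε * u : ℝ)‖ = |ε * u| := by rw [norm_mul, norm_I, one_mul, norm_real]; rfl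
  have b : ‖cexp (I * (ε * u : ℝ)) - 1 - I * (ε * u : ℝ)‖ ≤ 2 * |ε * u| ^ 2 := by
    rcases le_total |ε * u| 1 with h | h
    · have := Complex.norm_exp_sub_one_sub_id_le (n.trans_le h)
      rw [n] at this
      nlinarith [sq_nonneg |ε * u|]
    · refine (norm_sub_le _ _).trans ?_
      rw [n]
      nlinarith
  rw [abs_mul, abs_of_pos he] at a b
  refine ⟨?_, by simp, ?_⟩
  · rwa [norm_div, norm_real, Real.norm_of_nonneg he.le, div_le_iff₀' he]
  · rw [show (cexp (I * (ε * u : ℝ)) - 1) / ε - I * u =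
      (cexp (I * (ε * u : ℝ)) - 1 - I * (ε * u : ℝ)) / ε by push_cast; field_simp,
      norm_div, norm_real, Real.norm_of_nonneg he.le, div_le_iff₀' he]
    nlinarith

theorem phase (p q u : ℝ) : Nr 1 (|p - q| * |u|) (cexp (I * p * u)) (cexp (I * q * u)) := by
  have n : ∀ p : ℝ, ‖cexp (I * p * u)‖ = 1 := fun p => by rw [Complex.norm_exp]; simp
  refine ⟨(n p).le, (n q).le, ?_⟩
  rw [show cexp (I * p * u) - cexp (I * q * u) =
    (cexp (I * ((p - q) * u : ℝ)) - 1) * cexp (I * q * u) by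
      rw [sub_mul, ← Complex.exp_add]; push_cast; ring_nf, norm_mul, n, ← abs_mul]
  simpa using Real.norm_exp_I_mul_ofReal_sub_one_le (x := (p - q) * u)

theorem expn {p q m : ℝ} (hp : m ≤ p) (hq : m ≤ q) :
    Nr (Real.exp (-m)) |p - q| (cexp (-(p : ℂ))) (cexp (-(q : ℂ))) := by
  have n : ∀ {p : ℝ}, m ≤ p → ‖cexp (-(p : ℂ))‖ ≤ Real.exp (-m) := fun h => by
    rw [Complex.norm_exp]; simpa using h
  have k : ∀ {p q : ℝ}, m ≤ p → Real.exp (-p) - Real.exp (-q) ≤ |p - q| * Real.exp (-m) :=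
    fun {p q} h => by
      have e : Real.exp (-q) = Real.exp (p - q) * Real.exp (-p) := by
        rw [← Real.exp_add]; ring_nf
      have a := Real.add_one_le_exp (p - q)
      have b := Real.exp_pos (-p)
      have c : Real.exp (-p) ≤ Real.exp (-m) := Real.exp_le_exp.2 (by linarith)
      nlinarith [neg_abs_le (p - q), abs_nonneg (p - q)]
  refine ⟨n hp, n hq, ?_⟩
  rw [← ofReal_neg, ← ofReal_neg, ← ofReal_exp, ← ofReal_exp, ← ofReal_sub, norm_real]
  exact abs_le.2 ⟨by linarith [k (q := p) hq, abs_sub_comm p q ▸ k (q := p) hq], k hp⟩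

end Nr

theorem hk_int (a b : ℕ) (t : ℝ) {ε : ℝ} (he : 0 < ε) (n : ℤ) :
    hk a b t n / (ε : ℂ) ^ (a + b + 1) = ((2 * π : ℝ) : ℂ)⁻¹ * ∫ u, (Ioc (-π / ε) (π / ε)).indicator
      (fun u : ℝ => sym a b t n ((ε * u : ℝ) : ℂ) / (ε : ℂ) ^ (a + b)) u := by
  have hne : (ε : ℂ) ≠ 0 := by exact_mod_cast he.ne'
  unfold hk
  rw [integral_indicator measurableSet_Ioc, ← intervalIntegral.integral_of_le
    (div_le_div_of_nonneg_right (by linarith [pi_pos]) he.le), intervalIntegral.integral_div,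
    intervalIntegral.integral_comp_mul_left (fun θ : ℝ => sym a b t n θ) he.ne',
    mul_div_cancel₀ _ he.ne', mul_div_cancel₀ _ he.ne', real_smul]
  push_cast
  field_simp
  ring

theorem sym_nr (a b : ℕ) {s ε η y u : ℝ} (hs : 0 ≤ s) (he : 0 < ε) (n : ℤ) (hy : |ε * n - y| ≤ η)
    (hu : |ε * u| ≤ π) :
    Nr (|u| ^ (a + b) * Real.exp (-(4 / π ^ 2 * s * u ^ 2)))
      (2 * (a + b) * ε * |u| + 4 * s * ε * |u| ^ 3 + η * |u|)
      (sym a b (s / ε ^ 2) n ((ε * u : ℝ) : ℂ) / (ε : ℂ) ^ (a + b)) (gsym a b s y u) := by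
  have hne : (ε : ℂ) ≠ 0 := by exact_mod_cast he.ne'
  have A := Nr.slope he u
  have B := Nr.slope he (-u)
  rw [abs_neg] at B
  have c1 := Real.cos_le_one_sub_mul_cos_sq hu
  have p2 : 0 < π ^ 2 := by positivity
  have e : (cexp (I * (ε * u : ℝ)) - 1) / ε * ((cexp (I * (ε * -u : ℝ)) - 1) / ε) =
      ((2 - 2 * Real.cos (ε * u)) / ε ^ 2 : ℝ) := by
    push_cast
    rw [Complex.two_cos, show I * (ε * -u : ℂ) = -(ε * u) * I by ring, mul_comm I, neg_mul]
    have : cexp (ε * u * I) * cexp (-(ε * u * I)) = 1 := by rw [← Complex.exp_add]; simp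
    field_simp
    linear_combination this
  have AB := (A.mul B).2.2
  rw [e, show I * u * (I * (-u : ℝ)) = (u ^ 2 : ℝ) by
    push_cast; linear_combination -(u : ℂ) ^ 2 * I_mul_I, ← ofReal_sub, norm_real] at AB
  have E := Nr.expn (p := s * ((2 - 2 * Real.cos (ε * u)) / ε ^ 2)) (q := s * u ^ 2)
    (m := 4 / π ^ 2 * s * u ^ 2) (by
      rw [mul_comm _ s, mul_assoc]
      gcongr
      rw [le_div_iff₀ (by positivity)]
      have : 4 / π ^ 2 * u ^ 2 * ε ^ 2 = 2 * (2 / π ^ 2 * (ε * u) ^ 2) := by ring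
      linarith) (by
      rw [mul_assoc]
      exact mul_le_of_le_one_left (by positivity)
        ((div_le_one p2).2 (by nlinarith [pi_gt_three])))
  rw [← mul_sub, abs_mul, abs_of_nonneg hs] at E
  have := (((A.pow a).mul (B.pow b)).mul E).mul (Nr.phase (ε * n) y u)
  have n0 := abs_nonneg u
  have k : 0 ≤ |u| ^ a * |u| ^ b * Real.exp (-(4 / π ^ 2 * s * u ^ 2)) * 1 := by positivity
  have := this.mono le_rfl (η' := 2 * (a + b) * ε * |u| + 4 * s * ε * |u| ^ 3 + η * |u|) (by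
    refine mul_le_mul_of_nonneg_right ?_ k
    have h1 : |ε * n - y| * |u| ≤ η * |u| := by gcongr
    have h2 := mul_le_mul_of_nonneg_left AB hs
    rw [Real.norm_eq_abs] at h2
    nlinarith)
  rw [mul_one, ← pow_add] at this
  convert this using 1
  · unfold sym
    rw [ofReal_mul s, ← e, div_pow, div_pow, pow_add]
    have e4 : I * ((ε * -u : ℝ) : ℂ) = -(I * ((ε * u : ℝ) : ℂ)) := by push_cast; ring
    have e6 : cexp (I * (ε * u : ℝ)) * cexp (-(I * (ε * u : ℝ))) = 1 := by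
      rw [← Complex.exp_add]; simp
    have e7 : -((s : ℂ) * ((cexp (I * (ε * u : ℝ)) - 1) / ε * ((cexp (-(I * (ε * u : ℝ))) - 1) / ε))) =
        -((s / ε ^ 2 : ℝ) : ℂ) * (2 - cexp (I * (ε * u : ℝ)) - cexp (-(I * (ε * u : ℝ)))) := by
      rw [ofReal_div, ofReal_pow]
      field_simp
      linear_combination -(s : ℂ) * e6
    have e8 : I * ((ε * n : ℝ) : ℂ) * u = I * n * ((ε * u : ℝ) : ℂ) := by push_cast; ring
    rw [e4, e7, e8]
    field_simp
  · unfold gsym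
    push_cast
    ring_nf

theorem hk_nr (a b : ℕ) {s ε η y : ℝ} (hs : 0 < s) (he : 0 < ε) (h : ε ≤ η) (n : ℤ)
    (hy : |ε * n - y| ≤ η) :
    Nr ((2 * (a + b) + 5) * (∫ u, maj (a + b + 3) (4 / π ^ 2) u) * (√s)⁻¹ ^ (a + b + 1)) (η / √s)
      (hk a b (s / ε ^ 2) n / (ε : ℂ) ^ (a + b + 1)) (gk a b s y) := by
  set r := √s with hr
  have r0 : 0 < r := by positivity
  have r2 : r ^ 2 = s := Real.sq_sqrt hs.le
  have hc : 0 < 4 / π ^ 2 := by positivity
  have c1 : 4 / π ^ 2 ≤ 1 := (div_le_one (by positivity)).2 (by nlinarith [pi_gt_three])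
  have η0 : 0 < η := he.trans_le h
  have key := Nr.int (η := η / r)
    (M := fun u => (2 * (a + b) + 5) * r⁻¹ ^ (a + b) * maj (a + b + 3) (4 / π ^ 2) (r * u))
    (F := (Ioc (-π / ε) (π / ε)).indicator
      fun u : ℝ => sym a b (s / ε ^ 2) n ((ε * u : ℝ) : ℂ) / (ε : ℂ) ^ (a + b))
    (G := gsym a b s y) (((maj_integrable _ hc).comp_mul_left' r0.ne').const_mul _)
    ((((sym_cont _ _ _ _).comp (continuous_const.mul continuous_id)).div_const
      _).aestronglyMeasurable.indicator measurableSet_Ioc)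
    (Continuous.aestronglyMeasurable (by unfold gsym; fun_prop)) fun u => ?_
  · rw [integral_const_mul, Measure.integral_comp_mul_left, abs_of_pos (inv_pos.2 r0),
      smul_eq_mul] at key
    have p : ‖((2 * π : ℝ) : ℂ)⁻¹‖ ≤ 1 := by
      rw [norm_inv, norm_real, Real.norm_of_nonneg (by positivity)]
      exact inv_le_one_of_one_le₀ (by linarith [pi_gt_three])
    have := Nr.mul (⟨p, p, by simp⟩ : Nr 1 0 _ _) key
    rw [← hk_int a b _ he, one_mul, zero_add] at this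
    rw [gk]
    convert this using 1
    ring
  · set w := |u| * r with hw
    have w0 : 0 ≤ w := by positivity
    have eu : |u| = w * r⁻¹ := by rw [hw]; field_simp
    set E := Real.exp (-(4 / π ^ 2 * s * u ^ 2)) with hE
    have E0 : 0 < E := Real.exp_pos _
    have em : maj (a + b + 3) (4 / π ^ 2) (r * u) = (w + 1) ^ (a + b) * (w + 1) ^ 3 * E := by
      rw [maj, abs_mul, abs_of_pos r0, mul_comm r, ← hw, ← pow_add, hE, mul_pow, r2]
      congr 2
      ring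
    have j0 : (0 : ℝ) ≤ a + b := by positivity
    have b0 : |u| ^ (a + b) * E ≤ r⁻¹ ^ (a + b) * (w + 1) ^ (a + b) * E := by
      rw [eu, mul_pow, mul_comm (w ^ _)]
      gcongr
      linarith
    have q0 : 0 ≤ r⁻¹ ^ (a + b) * (w + 1) ^ (a + b) * E := by positivity
    have w1 : 1 ≤ (w + 1) ^ 3 := one_le_pow₀ (by linarith)
    have w2 : w ≤ (w + 1) ^ 3 := by nlinarith [sq_nonneg w, mul_nonneg w0 (sq_nonneg w)]
    have w3 : w ^ 3 ≤ (w + 1) ^ 3 := by gcongr; linarith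
    have b1 : |u| ^ (a + b) * E ≤
        (2 * (a + b) + 5) * r⁻¹ ^ (a + b) * maj (a + b + 3) (4 / π ^ 2) (r * u) := by
      rw [em]
      refine b0.trans ?_
      calc _ = 1 * 1 * (r⁻¹ ^ (a + b) * (w + 1) ^ (a + b) * E) := by ring
        _ ≤ (2 * (a + b) + 5) * (w + 1) ^ 3 * (r⁻¹ ^ (a + b) * (w + 1) ^ (a + b) * E) := by
          gcongr; linarith
        _ = _ := by ring
    have b2 : ∀ θ, 0 ≤ θ → θ ≤ η / r * ((2 * (a + b) + 5) * (w + 1) ^ 3) → θ * (|u| ^ (a + b) * E) ≤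
        η / r * ((2 * (a + b) + 5) * r⁻¹ ^ (a + b) * maj (a + b + 3) (4 / π ^ 2) (r * u)) :=
      fun θ h0 h1 => by
        rw [em]
        calc _ ≤ η / r * ((2 * (a + b) + 5) * (w + 1) ^ 3) *
            (r⁻¹ ^ (a + b) * (w + 1) ^ (a + b) * E) := by gcongr
          _ = _ := by ring
    by_cases hu : u ∈ Ioc (-π / ε) (π / ε)
    · rw [indicator_of_mem hu]
      have hθ : |ε * u| ≤ π := by
        have h1 := (div_lt_iff₀ he).1 hu.1
        have h2 := (le_div_iff₀ he).1 hu.2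
        rw [abs_le]; constructor <;> linarith
      refine (sym_nr a b hs.le he n hy hθ).mono b1 (b2 _ (by positivity) ?_)
      calc _ = r⁻¹ * (2 * (a + b) * ε * w + 4 * ε * w ^ 3 + η * w) := by
            rw [eu, ← r2]; field_simp
        _ ≤ r⁻¹ * (2 * (a + b) * η * (w + 1) ^ 3 + 4 * η * (w + 1) ^ 3 + η * (w + 1) ^ 3) := by gcongr
        _ = _ := by ring
    · rw [indicator_of_notMem hu]
      have g : ‖gsym a b s y u‖ ≤ |u| ^ (a + b) * E := by
        have e1 : (I * y * u).re = 0 := by simp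
        have e2 : (-(s : ℂ) * u ^ 2).re = -s * u ^ 2 := by
          rw [show -(s : ℂ) * u ^ 2 = ((-s * u ^ 2 : ℝ) : ℂ) by push_cast; ring, ofReal_re]
        simp only [gsym, norm_mul, norm_pow, norm_neg, norm_I, one_mul, Complex.norm_exp, e1, e2,
          Real.exp_zero, mul_one, norm_real, Real.norm_eq_abs, ← pow_add, hE]
        gcongr
        nlinarith [mul_nonneg hs.le (sq_nonneg u)]
      have h1 : 1 ≤ ε * |u| := by
        by_contra k
        have := abs_lt.1 ((lt_div_iff₀' he).2 ((not_le.1 k).trans (by linarith [pi_gt_three] : 1 < π)))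
        exact hu ⟨by rw [neg_div]; exact this.1, this.2.le⟩
      refine ⟨norm_zero.trans_le ((norm_nonneg _).trans (g.trans b1)), g.trans b1, ?_⟩
      rw [zero_sub, norm_neg]
      refine g.trans ((one_mul _).symm.trans_le (b2 1 zero_le_one (h1.trans ?_)))
      calc _ = ε / r * (1 * w) := by rw [eu]; field_simp
        _ ≤ _ := by gcongr; linarith

theorem H_nr (a b : Fin 4 → ℕ) : ∃ C, 0 ≤ C ∧ ∀ {s ε η : ℝ} (x : Fin 4 → ℤ) (y : Fin 4 → ℝ), 0 < s →
    0 < ε → ε ≤ η → (∀ l, |ε * x l - y l| ≤ η) →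
    ‖H a b (s / ε ^ 2) x / (ε : ℂ) ^ (∑ l, a l + ∑ l, b l + 4) - ∏ l, gk (a l) (b l) s (y l)‖ ≤
      C * η * (√s)⁻¹ ^ (∑ l, a l + ∑ l, b l + 5) := by
  refine ⟨4 * ∏ l, ((2 * (a l + b l : ℝ) + 5) * ∫ u, maj (a l + b l + 3) (4 / π ^ 2) u),
    mul_nonneg (by norm_num) (Finset.prod_nonneg fun l _ => mul_nonneg (by positivity)
      (integral_nonneg fun u => maj_nonneg _ _ _)), fun {s ε η} x y hs he h hy => ?_⟩
  have := (Nr.prod Finset.univ fun l => hk_nr (a l) (b l) hs he h (x l) (hy l)).2.2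
  have e : ∑ l, (a l + b l + 1) = ∑ l, a l + ∑ l, b l + 4 := by
    simp [Finset.sum_add_distrib]
  rw [Finset.prod_div_distrib, Finset.prod_pow_eq_pow_sum, Finset.prod_mul_distrib,
    Finset.prod_pow_eq_pow_sum, e, Finset.sum_const, Finset.card_univ, Fintype.card_fin] at this
  refine this.trans_eq ?_
  rw [nsmul_eq_mul, div_eq_mul_inv, pow_succ _ (_ + 4)]
  push_cast
  ring

theorem K_eq (a b : Fin 4 → ℕ) {ε : ℝ} (he : 0 < ε) (x : Fin 4 → ℤ) :
    K a b x / (ε : ℂ) ^ (∑ l, a l + ∑ l, b l + 2) = ∫ s in Ioi (0 : ℝ),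
      H a b (s / ε ^ 2) x / (ε : ℂ) ^ (∑ l, a l + ∑ l, b l + 4) := by
  have hne : (ε : ℂ) ≠ 0 := by exact_mod_cast he.ne'
  have h := integral_comp_mul_right_Ioi (fun t => H a b t x) 0 (b := (ε ^ 2)⁻¹) (by positivity)
  rw [integral_div]
  simp only [div_eq_mul_inv (_ : ℝ)]
  rw [h, zero_mul, inv_inv, real_smul]
  unfold K
  push_cast
  field_simp
  ring

theorem K_sq (a b : Fin 4 → ℕ) {δ : ℝ} (δ0 : 0 < δ) : ∃ C, ∀ {ε η σ : ℝ} (x : Fin 4 → ℤ)
    (y : Fin 4 → ℝ) (i : Fin 4), 0 < ε → ε ≤ η → ε < 1 → 0 < σ → σ ≤ 1 →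
    η ≤ σ ^ (∑ l, a l + ∑ l, b l + 7) → (∀ l, |ε * x l - y l| ≤ η) → δ < |ε * x i| → δ < |y i| →
    ‖K a b x / (ε : ℂ) ^ (∑ l, a l + ∑ l, b l + 2) - Ph a b y‖ ≤ C * σ ^ 2 := by
  obtain ⟨C, C0, hC'⟩ := H_nr a b
  set m := ∑ l, a l + ∑ l, b l with hm
  set A := (∏ l, hC (a l + b l)) * (1 + (m + 4 : ℕ) / δ) ^ (m + 4) with hA
  have A0 : 0 ≤ A := mul_nonneg (Finset.prod_nonneg fun l _ => hC_nonneg _) (by positivity)
  refine ⟨2 * A + 8 * C * ∫ s in Ioi (0 : ℝ), (s + 1) ^ (-(3 / 2) : ℝ),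
    fun {ε η σ} x y i he h h1 σ0 σ1 hη hy hx hy' => ?_⟩
  have I : Integrable (mj a b δ) (volume.restrict (Ioi 0)) := maj_int.const_mul _
  have pos : ∀ᵐ s ∂volume.restrict (Ioi (0 : ℝ)), 0 < s := ae_restrict_mem measurableSet_Ioi
  have i1 : Integrable ((Ioc (0 : ℝ) (σ ^ 2)).indicator fun _ => 2 * A) (volume.restrict (Ioi 0)) :=
    ((integrable_indicator_iff measurableSet_Ioc).2 (integrableOn_const (by simp))).restrict
  have i2 : Integrable (fun s => H a b (s / ε ^ 2) x / (ε : ℂ) ^ (m + 4)) (volume.restrict (Ioi 0)) :=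
    I.mono' (Continuous.aestronglyMeasurable
      (((H_cont a b x).comp (continuous_id.div_const _)).div_const _))
      (pos.mono fun s hs => H_bd a b he h1 δ0 hs x hx)
  rw [K_eq a b he, Ph, ← integral_sub i2
    (I.mono' (Finset.stronglyMeasurable_fun_prod _ fun l _ => gk_meas _ _ _).aestronglyMeasurable
      (pos.mono fun s hs => gk_bd a b δ0 hy' hs))]
  refine (norm_integral_le_of_norm_le (i1.add (maj_int.const_mul (8 * C * σ ^ 2)))
    (pos.mono fun s hs => ?_)).trans (le_of_eq ?_)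
  · have p0 : 0 ≤ (s + 1) ^ (-(3 / 2) : ℝ) := by positivity
    by_cases k : s ≤ σ ^ 2
    · rw [Pi.add_apply, indicator_of_mem (show s ∈ Ioc 0 (σ ^ 2) from ⟨hs, k⟩)]
      have : mj a b δ s ≤ A := mul_le_of_le_one_right A0
        (Real.rpow_le_one_of_one_le_of_nonpos (by linarith) (by norm_num))
      have := norm_sub_le_of_le (H_bd a b he h1 δ0 hs x hx) (gk_bd a b δ0 hy' hs)
      have : 0 ≤ 8 * C * σ ^ 2 * (s + 1) ^ (-(3 / 2) : ℝ) := by positivity
      linarith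
    · rw [Pi.add_apply, indicator_of_notMem fun h => k h.2, zero_add, ← inv_sqrt_cube hs.le]
      refine (hC' x y hs he h hy).trans ?_
      set r := √s with hr
      have r0 : 0 < r := by positivity
      have r2 : r ^ 2 = s := Real.sq_sqrt hs.le
      have σr : σ ≤ r := Real.le_sqrt_of_sq_le (not_le.1 k).le
      have q0 : 0 < √(s + 1) := by positivity
      have q1 : σ * √(s + 1) ≤ 2 * r := by
        rw [← Real.sqrt_sq σ0.le, ← Real.sqrt_mul (sq_nonneg _)]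
        refine Real.sqrt_le_iff.2 ⟨by positivity, ?_⟩
        have : σ ^ 2 ≤ 1 := pow_le_one₀ σ0.le σ1
        nlinarith [not_le.1 k]
      have q2 : σ * r⁻¹ ≤ 2 * (√(s + 1))⁻¹ := by
        rw [← div_eq_mul_inv, ← div_eq_mul_inv, div_le_div_iff₀ r0 q0]; exact q1
      have q3 : σ * r⁻¹ ≤ 1 := by rw [← div_eq_mul_inv]; exact (div_le_one r0).2 σr
      calc _ ≤ C * σ ^ (m + 7) * r⁻¹ ^ (m + 5) := by gcongr
        _ = C * σ ^ 2 * ((σ * r⁻¹) ^ (m + 2) * (σ * r⁻¹) ^ 3) := by ring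
        _ ≤ C * σ ^ 2 * (1 ^ (m + 2) * (2 * (√(s + 1))⁻¹) ^ 3) := by gcongr
        _ = _ := by ring
  · rw [integral_add' i1 (maj_int.const_mul _), integral_const_mul,
      integral_indicator measurableSet_Ioc, Measure.restrict_restrict measurableSet_Ioc,
      inter_eq_left.2 Ioc_subset_Ioi_self, setIntegral_const, smul_eq_mul, Real.volume_real_Ioc_of_le
        (sq_nonneg σ)]
    ring

open YZ (R4)

/-- admissible data: the lattice point `x` at the scale `ε` is within `η` of the point `y`, which is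
at the distance at least `δ` from the origin -/
structure Ad (δ ε η : ℝ) (x : Fin 4 → ℤ) (y : R4) : Prop where
  pos : 0 < ε
  le : ε ≤ η
  lt : η < 1
  sm : η ≤ δ / 4
  far : δ ≤ ‖y‖
  near : ∀ l, |ε * x l - y l| ≤ η

theorem Ad.ne {δ ε η : ℝ} {x : Fin 4 → ℤ} {y : R4} (h : Ad δ ε η x y) : y ≠ 0 :=
  norm_pos_iff.1 (by linarith [h.pos, h.le, h.sm, h.far])

theorem Ad.ex {δ ε η : ℝ} {x : Fin 4 → ℤ} {y : R4} (h : Ad δ ε η x y) :
    ∃ i, δ / 5 < |ε * x i| ∧ δ / 5 < |y i| := by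
  have δ0 : 0 < δ := by linarith [h.pos, h.le, h.sm]
  obtain ⟨i, hi⟩ : ∃ i, δ / 2 ≤ |y i| := by
    by_contra k
    have k' : ∀ i, y i ^ 2 < δ ^ 2 / 4 := fun i => by
      have := not_le.1 (not_exists.1 k i)
      rw [← sq_abs]
      nlinarith [abs_nonneg (y i)]
    have := pow_le_pow_left₀ δ0.le h.far 2
    rw [EuclideanSpace.real_norm_sq_eq, Fin.sum_univ_four] at this
    linarith [k' 0, k' 1, k' 2, k' 3]
  refine ⟨i, ?_, by linarith⟩
  have := abs_sub_abs_le_abs_sub (y i) (ε * x i)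
  rw [abs_sub_comm] at this
  linarith [h.near i, h.sm]

/-- the scaling limit of the differences of the Green function with a rate -/
theorem K_rate (a b : Fin 4 → ℕ) (δ : ℝ) : ∃ C, ∀ {ε η : ℝ} {x : Fin 4 → ℤ} {y : R4},
    Ad δ ε η x y → ‖K a b x / (ε : ℂ) ^ (∑ l, a l + ∑ l, b l + 2) - Ph a b y‖ ≤
      C * η ^ (2 / (∑ l, a l + ∑ l, b l + 7 : ℕ) : ℝ) := by
  by_cases δ0 : 0 < δ
  · obtain ⟨C, hC'⟩ := K_sq a b (δ := δ / 5) (by positivity)
    refine ⟨C, fun {ε η x y} h => ?_⟩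
    obtain ⟨i, h1, h2⟩ := h.ex
    have η0 := h.pos.trans_le h.le
    have := hC' (σ := η ^ ((∑ l, a l + ∑ l, b l + 7 : ℕ) : ℝ)⁻¹) x y i h.pos h.le (h.le.trans_lt h.lt)
      (by positivity) (Real.rpow_le_one η0.le h.lt.le (by positivity))
      (Real.rpow_inv_natCast_pow η0.le (by omega)).ge h.near h1 h2
    rwa [← Real.rpow_natCast, ← Real.rpow_mul η0.le, inv_mul_eq_div, Nat.cast_ofNat] at this
  · exact ⟨0, fun h => absurd (by linarith [h.pos, h.le, h.sm]) δ0⟩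

theorem K_bd (a b : Fin 4 → ℕ) (δ : ℝ) : ∃ C, ∀ {ε η : ℝ} {x : Fin 4 → ℤ} {y : R4},
    Ad δ ε η x y → ‖K a b x / (ε : ℂ) ^ (∑ l, a l + ∑ l, b l + 2)‖ ≤ C := by
  refine ⟨∫ s in Ioi (0 : ℝ), mj a b (δ / 5) s, fun {ε η x y} h => ?_⟩
  obtain ⟨i, h1, -⟩ := h.ex
  rw [K_eq a b h.pos]
  exact norm_integral_le_of_norm_le (maj_int.const_mul _) ((ae_restrict_mem measurableSet_Ioi).mono
    fun s hs => H_bd a b h.pos (h.le.trans_lt h.lt) (by linarith [h.pos, h.le, h.sm]) hs x h1)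

open MvPolynomial Asymptotics Sum Weak
open Zf (Pp Dc Jx syb spr pr0)

variable {T : Type} {F : Filter T} {δ : ℝ} {ε η : T → ℝ} {x : T → Fin 4 → ℤ} {y : T → R4}

theorem Dz_mono_bd (h : ∀ᶠ t in F, Ad δ (ε t) (η t) (x t) (y t)) (m : Fin 4 ⊕ Fin 4 →₀ ℕ) (c : ℝ) :
    (fun t => Dz (x t) (monomial m c) / ε t ^ (m.degree + 2)) =O[F] fun _ => (1 : ℝ) := by
  obtain ⟨C, hC'⟩ := K_bd (fun l => m (inl l)) (fun l => m (inr l)) δ
  refine .of_bound (|c| * C) (h.mono fun t ht => ?_)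
  rw [Dz, cf_mono, Finsupp.degree_eq_sum, Fintype.sum_sum_type, mul_div_assoc, norm_mul, norm_one,
    mul_one, ← Complex.div_ofReal_re, Complex.ofReal_pow]
  exact mul_le_mul_of_nonneg_left ((Complex.abs_re_le_norm _).trans (hC' ht)) (abs_nonneg c)

theorem Dz_mono_rate (h : ∀ᶠ t in F, Ad δ (ε t) (η t) (x t) (y t)) (m : Fin 4 ⊕ Fin 4 →₀ ℕ) (c : ℝ) :
    (fun t => Dz (x t) (monomial m c) / ε t ^ (m.degree + 2) - Dc (y t) (lm (monomial m c))) =O[F]
      fun t => η t ^ (2 / (m.degree + 7 : ℕ) : ℝ) := by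
  obtain ⟨C, hC'⟩ := K_rate (fun l => m (inl l)) (fun l => m (inr l)) δ
  refine .of_bound (|c| * C) (h.mono fun t ht => ?_)
  rw [← cf_Ph _ ht.ne, Dz, cf_mono, cf_mono, Finsupp.degree_eq_sum, Fintype.sum_sum_type,
    mul_div_assoc, ← mul_sub, norm_mul, ← Complex.div_ofReal_re, Complex.ofReal_pow,
    ← Complex.sub_re, mul_assoc, Real.norm_of_nonneg (Real.rpow_nonneg (ht.pos.le.trans ht.le) _)]
  exact mul_le_mul_of_nonneg_left ((Complex.abs_re_le_norm _).trans (hC' ht)) (abs_nonneg c)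

theorem Dz_rate (h : ∀ᶠ t in F, Ad δ (ε t) (η t) (x t) (y t)) {n : ℕ} {q : Lp} {s : Pp}
    (hq : Ld n q s) : (fun t => Dz (x t) q / ε t ^ (n + 2) - Dc (y t) s) =O[F]
      fun t => η t ^ (2 / (n + 7 : ℕ) : ℝ) := by
  obtain ⟨a, a1, rfl, a2⟩ := hq
  have e1 : (fun t => Dz (x t) a / ε t ^ (n + 2) - Dc (y t) (lm a)) =O[F]
      fun t => η t ^ (2 / (n + 7 : ℕ) : ℝ) := by
    conv => enter [2, t]; rw [a.as_sum]
    simp only [map_sum, Finset.sum_div, ← Finset.sum_sub_distrib]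
    refine IsBigO.fun_sum fun m hm => ?_
    have := Dz_mono_rate h m (coeff m a)
    rwa [show m.degree = n from by_contra fun e => mem_support_iff.1 hm (a1.coeff_eq_zero e)] at this
  have e2 : (fun t => Dz (x t) (q - a) / ε t ^ (n + 2)) =O[F]
      fun t => η t ^ (2 / (n + 7 : ℕ) : ℝ) := by
    conv => enter [2, t]; rw [(q - a).as_sum]
    simp only [map_sum, Finset.sum_div]
    refine IsBigO.fun_sum fun m hm => ?_
    obtain ⟨k, hk⟩ := Nat.exists_eq_add_of_le ((mem_pow_idealOfVars_iff _ _).1 a2 m hm)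
    have e : (fun t => ε t ^ (k + 1)) =O[F] fun t => η t ^ (2 / (n + 7 : ℕ) : ℝ) :=
      .of_bound' (h.mono fun t ht => by
        have η0 := ht.pos.trans_le ht.le
        rw [Real.norm_of_nonneg (pow_nonneg ht.pos.le _),
          Real.norm_of_nonneg (Real.rpow_nonneg η0.le _)]
        refine (pow_le_of_le_one ht.pos.le (ht.le.trans ht.lt.le) k.succ_ne_zero).trans
          (ht.le.trans (Real.self_le_rpow_of_le_one η0.le ht.lt.le ?_))
        rw [div_le_one (by positivity)]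
        exact_mod_cast (by omega : 2 ≤ n + 7))
    have := (Dz_mono_bd h m (coeff m (q - a))).mul e
    simp only [one_mul, hk] at this
    refine this.congr' (h.mono fun t ht => ?_) .rfl
    have := ht.pos.ne'
    field_simp
    ring
  refine (e1.add e2).congr_left fun t => ?_
  rw [map_sub]
  ring

theorem kJ_rate {R : Jx → Lp} (hR : Jet R) (h : ∀ᶠ t in F, Ad δ (ε t) (η t) (x t) (y t)) (I J : Jx) :
    (fun t => kJ R (x t) I J / ε t ^ (I.1 + 2 + (J.1 + 2)) - pr0 J I (y t)) =O[F]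
      fun t => η t ^ (2 / (I.1 + J.1 + 9 : ℕ) : ℝ) := by
  have h1 : ∀ s a l, (sF s a l).IsHomogeneous 1 := fun s a l => by
    refine IsHomogeneous.sub ?_ ?_ <;> split_ifs <;>
      first | exact isHomogeneous_X _ _ | exact isHomogeneous_zero _ _ _
  have := Dz_rate h ((hR I).swap.mul ((hR J).mul (Ld.of_hom (IsHomogeneous.sum Finset.univ
    (fun l => sF inl (pl J) l * sF inr (pl I) l) 2 fun l _ => (h1 _ _ _).mul (h1 _ _ _)))))
  rw [show I.1 + (J.1 + 2) + 7 = I.1 + J.1 + 9 by ring] at this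
  refine this.congr' (h.mono fun t ht => ?_) .rfl
  simp only [kJ_eq]
  rw [Zf.pr0_eq _ _ ht.ne, show I.1 + 2 + (J.1 + 2) = I.1 + (J.1 + 2) + 2 by ring,
    ← smul_eq_mul (α := ℝ) ((-1) ^ _), ← map_smul]
  rw [sub_right_inj]
  refine congrArg _ (Eq.symm ?_)
  have l1 : ∀ μ, lm (X (inl μ)) = X μ := fun μ => aeval_X _ _
  have l2 : ∀ μ, lm (X (inr μ)) = -X μ := fun μ => aeval_X _ _
  rw [smul_mul_assoc, pow_succ, mul_smul, map_sum, Finset.mul_sum, Finset.mul_sum, spr,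
    Finset.smul_sum]
  refine congrArg _ (Finset.sum_congr rfl fun l _ => ?_)
  simp only [syb, map_mul, sF, map_sub, apply_ite lm, map_zero, pl, l1, l2, neg_smul, one_smul]
  split_ifs <;> ring

/-- from the filter form to explicit constants -/
theorem unif {f g : ℝ → ℝ → (Fin 4 → ℤ) → R4 → ℝ} (δ : ℝ)
    (h : ∀ F : Filter (ℝ × ℝ × (Fin 4 → ℤ) × R4), (∀ᶠ t in F, Ad δ t.1 t.2.1 t.2.2.1 t.2.2.2) →
      (fun t => f t.1 t.2.1 t.2.2.1 t.2.2.2) =O[F] fun t => g t.1 t.2.1 t.2.2.1 t.2.2.2) :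
    ∃ C, ∀ {ε η : ℝ} {x : Fin 4 → ℤ} {y : R4}, Ad δ ε η x y → |f ε η x y| ≤ C * |g ε η x y| := by
  obtain ⟨C, hC'⟩ := (h (𝓟 {t | Ad δ t.1 t.2.1 t.2.2.1 t.2.2.2}) (mem_principal_self _)).bound
  exact ⟨C, fun {ε η x y} k => eventually_principal.1 hC' (ε, η, x, y) k⟩

theorem Dz_rate' (δ : ℝ) {n : ℕ} {q : Lp} {s : Pp} (hq : Ld n q s) :
    ∃ C, ∀ {ε η : ℝ} {x : Fin 4 → ℤ} {y : R4}, Ad δ ε η x y →
      |Dz x q / ε ^ (n + 2) - Dc y s| ≤ C * η ^ (2 / (n + 7 : ℕ) : ℝ) := by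
  obtain ⟨C, hC'⟩ := unif (f := fun ε _ x y => Dz x q / ε ^ (n + 2) - Dc y s)
    (g := fun _ η _ _ => η ^ (2 / (n + 7 : ℕ) : ℝ)) δ fun F h => Dz_rate h hq
  exact ⟨C, fun k => by
    simpa only [abs_of_nonneg (Real.rpow_nonneg (k.pos.le.trans k.le) _)] using hC' k⟩

theorem kJ_rate' (δ : ℝ) {R : Jx → Lp} (hR : Jet R) (I J : Jx) :
    ∃ C, ∀ {ε η : ℝ} {x : Fin 4 → ℤ} {y : R4}, Ad δ ε η x y →
      |kJ R x I J / ε ^ (I.1 + 2 + (J.1 + 2)) - pr0 J I y| ≤
        C * η ^ (2 / (I.1 + J.1 + 9 : ℕ) : ℝ) := by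
  obtain ⟨C, hC'⟩ := unif (f := fun ε _ x y => kJ R x I J / ε ^ (I.1 + 2 + (J.1 + 2)) - pr0 J I y)
    (g := fun _ η _ _ => η ^ (2 / (I.1 + J.1 + 9 : ℕ) : ℝ)) δ fun F h => kJ_rate hR h I J
  exact ⟨C, fun k => by
    simpa only [abs_of_nonneg (Real.rpow_nonneg (k.pos.le.trans k.le) _)] using hC' k⟩

end Pool.Agent.Lib.MP_7f377f_mp.Kw
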