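import Pool.Agent.Lib.MP_7f377f_mp.G.KwF
import Pool.Agent.Lib.MP_7f377f_mp.G.KwR

/-! The propagator of local gauge invariant linear forms with a polynomial rate. -/

noncomputable section

namespace Pool.Agent.Lib.MP_7f377f_mp.Kw

open Filter Topology MvPolynomial Heat Weak Sum Asymptotics
open YZ (R4)
open Zf (Pp Dc Jx syb spr pr0)
open RG (Lk St V)
open Finsupp (linearCombination)

variable {T : Type} {F : Filter T} {δ : ℝ} {ε η : T → ℝ} {x : T → St} {y : T → R4}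

theorem Ad.cof (δ0 : 0 < δ) (h : ∀ᶠ t in F, Ad δ (ε t) (η t) (x t) (y t))
    (hε : Tendsto ε F (𝓝 0)) : Tendsto x F cofinite :=
  le_cofinite_iff_eventually_ne.2 fun u => by
    have : ∀ᶠ t in F, ∀ l, |ε t * u l| < δ / 5 := eventually_all.2 fun l =>
      (hε.mul_const (u l : ℝ)).abs.eventually (gt_mem_nhds (by simpa using δ0))
    refine (h.and this).mono fun t ht k => ?_
    obtain ⟨i, h1, -⟩ := ht.1.ex
    rw [show x t = u from k] at h1
    exact h1.asymm (ht.2 i)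

theorem kf_rate (δ0 : 0 < δ) (h0 : ∀ᶠ t in F, Ad δ (ε t) (η t) (x t) (y t))
    (hε : Tendsto ε F (𝓝 0)) {n m : ℕ} {φ ψ : V →ₗ[ℝ] ℝ} {c c' : Jx →₀ ℝ} (h : Lead n φ c)
    (h' : Lead m ψ c') :
    (fun t => kf (x t) φ ψ / ε t ^ (n + 2 + (m + 2)) - pL c c' (y t)) =O[F]
      fun t => η t ^ (2 / (n + m + 9 : ℕ) : ℝ) := by
  obtain ⟨q, χ, a1, rfl, a2⟩ := h.dec
  have b := kf_null h'.lc χ
  obtain ⟨r, χ', -, rfl, b2⟩ := h'.dec
  have e := Ad.cof δ0 h0 hε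
  have := Dz_rate h0 (Ld.sum Finset.univ fun l _ => (a2 l).swap.mul (b2 l))
  rw [show n + 1 + (m + 1) + 7 = n + m + 9 by ring] at this
  refine this.congr' ?_ .rfl
  filter_upwards [h0, e.eventually b, (neg_injective.tendsto_cofinite.comp e).eventually
    (kf_null a1 χ')] with t ht h1 h2
  refine congrArg₂ (· - ·) ?_ (Eq.symm ?_)
  · rw [Function.comp, kf_neg] at h2
    rw [← kf_fq, show n + 1 + (m + 1) + 2 = n + 2 + (m + 2) by ring]
    simp only [kf, LinearMap.add_apply, ← Pi.add_def, map_add] at h1 h2 ⊢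
    congr 1
    linarith
  · simp only [pL, Finsupp.linearCombination_apply, Finsupp.sum, Zf.pr0_eq _ _ ht.ne, spr, smul_neg,
      Finset.sum_neg_distrib, smul_mul_assoc, neg_mul_neg, Finset.sum_mul_sum]
    simp only [smul_mul_smul_comm, map_sum, map_smul, smul_eq_mul, Finset.mul_sum, mul_smul_comm]
    refine Eq.trans (Finset.sum_congr rfl fun I hI => ?_) Finset.sum_comm
    refine Eq.trans (Finset.sum_congr rfl fun J _ => ?_) Finset.sum_comm
    simp only [h.ord I hI, mul_comm (syb I _), mul_left_comm ((-1 : ℝ) ^ _)]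

/-- explicit constants -/
theorem kf_rate' {δ : ℝ} (δ0 : 0 < δ) {n m : ℕ} {φ ψ : V →ₗ[ℝ] ℝ} {c c' : Jx →₀ ℝ} (h : Lead n φ c)
    (h' : Lead m ψ c') : ∃ C ε0, 0 < ε0 ∧ ∀ {ε η : ℝ} {x : St} {y : R4}, ε < ε0 → Ad δ ε η x y →
      |kf x φ ψ / ε ^ (n + 2 + (m + 2)) - pL c c' y| ≤ C * η ^ (2 / (n + m + 9 : ℕ) : ℝ) := by
  obtain ⟨C, hC⟩ := (kf_rate (T := ℝ × ℝ × St × R4) (F := comap (·.1) (𝓝 0) ⊓
    𝓟 {t | Ad δ t.1 t.2.1 t.2.2.1 t.2.2.2}) (ε := (·.1)) (η := (·.2.1)) (x := (·.2.2.1))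
    (y := (·.2.2.2)) δ0 (mem_inf_of_right (mem_principal_self _))
    (tendsto_comap.mono_left inf_le_left) h h').bound
  obtain ⟨ε0, e0, k⟩ := Metric.eventually_nhds_iff.1
    (eventually_comap.1 (eventually_inf_principal.1 hC))
  refine ⟨C, ε0, e0, fun {ε η x y} h1 h2 => ?_⟩
  have := k (y := ε) (by rwa [Real.dist_eq, sub_zero, abs_of_pos h2.pos]) (ε, η, x, y) rfl h2
  rwa [Real.norm_of_nonneg (Real.rpow_nonneg (h2.pos.le.trans h2.le) _)] at this

end Pool.Agent.Lib.MP_7f377f_mp.Kw
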