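import Pool.Agent.Lib.MP_7f377f_mp.G.KzX

/-! Scaling of the labels. -/

noncomputable section

set_option linter.unusedSectionVars false
variable [Pool.Agent.Lib.MP_7f377f_mp.GD]

namespace Pool.Agent.Lib.MP_7f377f_mp.Kz

open MeasureTheory Filter Set YM7 L6 RG RG.Tl RG.Q4 RG.Q4.En Wy
open RG.Wd (B4 gv)
open Wu (Z4)
open Zg (V0 Og r0 fil)

variable {𝒜 : Set CM} [Og 𝒜] {ι : Type} [Fintype ι] {s t : ℝ} {c : V0 𝒜} {D d : ℕ}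

theorem rs_mul (s t : ℝ) (c : V0 𝒜) : rs 𝒜 s (rs 𝒜 t c) = rs 𝒜 (s * t) c :=
  Subtype.ext ((Zf.rh_mul _ _ _).symm.trans (congrArg (Zf.rh · c.1) (by simp [smul_smul, mul_comm])))

theorem rs_one (c : V0 𝒜) : rs 𝒜 1 c = c :=
  Subtype.ext ((congrArg (Zf.rh · c.1) (one_smul _ _)).trans (Zf.rh_one _))

theorem rs_π (t : ℝ) (d : ℕ) (c : V0 𝒜) : rs 𝒜 t ((fil 𝒜).π d c) = (fil 𝒜).π d (rs 𝒜 t c) :=
  rv_π _ d c

theorem rs_π0 (t : ℝ) (c : V0 𝒜) : rs 𝒜 t ((fil 𝒜).π 0 c) = (fil 𝒜).π 0 c :=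
  Subtype.ext ((Zf.rh_smul (Zf.hc_hm 0 c.1) t).trans (by rw [pow_zero, one_smul]; rfl))

theorem rs_rB (t : ℝ) (g : B4) (c : V0 𝒜) : rs 𝒜 t (rB 𝒜 g c) = rB 𝒜 g (rs 𝒜 t c) :=
  Subtype.ext ((Zf.rh_mul _ _ c.1).symm.trans ((congrArg (Zf.rh · c.1) (by simp)).trans
    (Zf.rh_mul _ _ c.1)))

theorem rs_inv (h : t ≠ 0) : InvOn (rs 𝒜 t⁻¹) (rs 𝒜 t) univ univ :=
  ⟨fun c _ => by rw [rs_mul, inv_mul_cancel₀ h, rs_one],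
    fun c _ => by rw [rs_mul, mul_inv_cancel₀ h, rs_one]⟩

theorem rs_F (h : t ≠ 0) (d : ℕ) : BijOn (rs 𝒜 t) ((fil 𝒜).F d) ((fil 𝒜).F d) :=
  ((rs_inv h).mono (subset_univ _) (subset_univ _)).bijOn (up_of_comm (rs_π t))
    (up_of_comm (rs_π _))

theorem rs_Vp (h : t ≠ 0) (d : ℕ) : BijOn (rs 𝒜 t) (Vp 𝒜 d) (Vp 𝒜 d) :=
  ((rs_inv h).mono (subset_univ _) (subset_univ _)).bijOn (rv_vp _ d) (rv_vp _ d)

theorem rs_le (h : 1 ≤ t) (hc : c ∈ (fil 𝒜).F D) : ‖c‖ ≤ ‖rs 𝒜 t c‖ ∧ ‖rs 𝒜 t c‖ ≤ t ^ D * ‖c‖ := by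
  have t1 : 1 ≤ t * t := one_le_mul_of_one_le_of_one_le h h
  have := Zg.rv_norm (Zg.smul_o t) (by linarith) hc
  rw [min_eq_left t1, max_eq_right t1, one_pow, one_mul, mul_pow, ← sq (t ^ D), ← mul_pow] at this
  exact ⟨(sq_le_sq₀ (norm_nonneg _) (norm_nonneg _)).1 this.1,
    (sq_le_sq₀ (norm_nonneg _) (by positivity)).1 this.2⟩

theorem fq_rs {u : ℝ} (h : t ≠ 0) (e : ι → V0 𝒜) (x : ι → Z4) :
    fq u (fun a => rs 𝒜 t (e a)) x = fq (t * u) e x := by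
  refine Eq.trans ?_ ((Zf.s_cov _ (fun a => (e a).1) fun a => pz (t * u)⁻¹ (x a)).2.1 _ _
    (mul_ne_zero h h) (Zg.smul_o t))
  unfold fq
  congr 1
  funext a
  ext l
  simp only [pz, Zf.ac, Matrix.smul_mulVec, Matrix.one_mulVec, Pi.smul_apply, smul_eq_mul]
  field_simp

theorem Ds.mono {a b a' b' : ℝ} {x y : Z4} (h : Ds a b x y) (u : a' ≤ a) (v : b ≤ b') : Ds a' b' x y :=
  ⟨h.1.imp fun _ => u.trans, fun l => (h.2 l).trans v⟩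

end Pool.Agent.Lib.MP_7f377f_mp.Kz
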