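import Pool.Agent.Lib.MP_7f377f_mp.G.KzH0
import Pool.Agent.Lib.MP_7f377f_mp.G.KzS

/-! Expansion and rescaling of the Wick ordered letters. -/

noncomputable section

set_option linter.unusedSectionVars false
variable [Pool.Agent.Lib.MP_7f377f_mp.GD]

namespace Pool.Agent.Lib.MP_7f377f_mp.RG.Tl

open Finset MvPolynomial Wd Q4
open Kw (sc)
open Zg (V0 Og r0 fil u0)

variable {𝒜 : Set CM} [Og 𝒜] {ε t r : ℝ} {d n : ℕ} {c : V0 𝒜}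

theorem sc_hom {σ : Type} {P : MvPolynomial σ ℂ} (h : P.IsHomogeneous n) (t : ℂ) :
    sc (fun _ => 1) t P = t ^ n • P := by
  conv_lhs => rw [P.as_sum]
  conv_rhs => rw [P.as_sum]
  rw [map_sum, smul_sum]
  exact sum_congr rfl fun m hm => (Kw.sc_mono ..).trans
    (congrArg (t ^ · • _) (h (mem_support_iff.1 hm)))

theorem pi_zero (c : V0 𝒜) : (fil 𝒜).π 0 c = constantCoeff c.1 • u0 𝒜 :=
  Subtype.ext ((weightedHomogeneousComponent_zero _ (by simp [Zf.wt])).trans C_eq_smul_one)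

theorem sub_pi (h : c ∈ (fil 𝒜).F d) : c - (fil 𝒜).π 0 c ∈ Vp 𝒜 d :=
  ⟨sub_mem h ((fil 𝒜).mono d.zero_le ((fil 𝒜).π_mem 0 c)), Subtype.ext ((map_sub (Zf.hc 0) _ _).trans
    (sub_eq_zero.2 ((Zf.hc_hm 0 c.1).hc_eq 0).symm))⟩

theorem Vb.dg_le (b : Vb 𝒜) : 2 * (b.dg + 1) ≤ b.m := by
  obtain ⟨γ, h⟩ := ne_zero_iff.1 fun e : b.c.1 = 0 => vb_li.ne_zero b (Subtype.ext e)
  rw [← b.hv.1 h, ← b.hom h, Finsupp.weight_apply, Finsupp.weight_apply, Finsupp.sum, Finsupp.sum,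
    mul_sum]
  exact sum_le_sum fun p _ => by simp [Zf.wt, mul_add, mul_comm 2]

/-- coordinates -/
theorem ex_crd (s : ℕ) : ∃ κ : V0 𝒜 →ₗ[ℝ] Vd 𝒜 s → ℝ, ∀ d ≤ s, ∀ c ∈ (fil 𝒜).F d,
    c = constantCoeff c.1 • u0 𝒜 + ∑ q, κ c q • q.1.c ∧ ∀ q, d < q.1.m → κ c q = 0 := by
  obtain ⟨κ, h⟩ := LinearMap.exists_extend (bV 𝒜 s).equivFun.toLinearMap
  refine ⟨κ ∘ₗ (.id - (fil 𝒜).π 0), fun d hd c hc => ?_⟩
  have m := sub_pi ((fil 𝒜).mono hd hc)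
  have := congrArg Subtype.val ((bV 𝒜 s).sum_equivFun ⟨_, m⟩)
  simp only [Submodule.coe_sum, Submodule.coe_smul, bV_ap] at this
  have e : ∑ q, κ (c - (fil 𝒜).π 0 c) q • q.1.c = c - (fil 𝒜).π 0 c := (sum_congr rfl fun q _ =>
    congrArg (· q • _) (LinearMap.congr_fun h ⟨_, m⟩)).trans this
  refine ⟨by rw [← pi_zero, ← sub_eq_iff_eq_add']; exact e.symm, fun q hq => ?_⟩
  have z := (congrArg ((fil 𝒜).π q.1.m) e).trans ((fil 𝒜).π_zero (sub_pi hc).1 hq)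
  simp only [map_sum, map_smul, Vb.pi, smul_ite, smul_zero, ← ite_zero_smul] at z
  exact (if_pos rfl).symm.trans (Fintype.linearIndependent_iff.1
    (vb_li.comp _ Subtype.val_injective) _ z q)

variable [Adj 𝒜]

/-- change of the scale -/
theorem Ze_rs (ε t r : ℝ) (c : V0 𝒜) : Ze 𝒜 (ε * t) r c = Ze 𝒜 ε r (Kz.rs 𝒜 t⁻¹ c) := by
  have e : ∀ g, zV 𝒜 (ε * t) (r0 𝒜 (gI g) c) = zV 𝒜 ε (r0 𝒜 (gI g) (Kz.rs 𝒜 t⁻¹ c)) := fun g =>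
    congrArg (wV 𝒜) ((mul_inv ε t ▸ (Kz.rs_mul ..).symm :
      Kz.rs 𝒜 (ε * t)⁻¹ _ = _).trans (congrArg _ (Kz.rs_rB t⁻¹ g c)))
  simp only [Ze_ap, e]

/-- expansion in finitely many letters -/
theorem Ze_ex (s : ℕ) : ∃ K ≥ (0 : ℝ), ∀ ε, 0 < ε → ε ≤ 1 → ∃ (a : V0 𝒜 →ₗ[ℝ] ℝ)
    (t : V0 𝒜 →ₗ[ℝ] B4 × Vd 𝒜 s → ℝ), ∀ d ≤ s, ∀ c ∈ (fil 𝒜).F d, |a c| ≤ K * ε⁻¹ ^ d * ‖c‖ ∧
      ∑ p, |t c p| ≤ K * ε⁻¹ ^ d * ‖c‖ ∧ (∀ p, d < p.2.1.m → t c p = 0) ∧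
      ∀ r : ℝ, Ze 𝒜 ε r c = C (a c : ℂ) +
        ∑ p, ((t c p * r ^ (p.2.1.dg + 1) : ℝ) : ℂ) • act p.1 (ls 𝒜 p.2.1.c) := by
  obtain ⟨κ, hκ⟩ := ex_crd (𝒜 := 𝒜) s
  choose K' K0' hK' using zV_le (𝒜 := 𝒜)
  obtain ⟨K, hK⟩ := Finite.exists_le fun d : Fin (s + 1) => K' d
  have K0 := (K0' _).trans (hK 0)
  have := (fil 𝒜).fin s
  choose B B0 hB using fun q => Kz.ex_bd (W := (fil 𝒜).F s)
    ((LinearMap.proj q ∘ₗ κ).smulRight (u0 𝒜))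
  have u : 1 ≤ ‖u0 𝒜‖ := le_of_eq_of_le (by simp) (Zf.coeff_le 0 (1 : Zf.Lb GD.d ℝ))
  have f : ∀ {d} g, ∀ c ∈ (fil 𝒜).F d, r0 𝒜 (gI g) c ∈ (fil 𝒜).F d := fun g c =>
    Zf.Fd_up (n := 0) (L := (Zf.rh _).toLinearMap) fun _ _ => Zf.hm_rh _
  have N0 : (0 : ℝ) < Fintype.card B4 := by positivity
  refine ⟨(1 + ∑ q, B q) * K, by have := sum_nonneg fun q (_ : q ∈ univ) => B0 q; positivity,
    fun ε h0 h1 => ⟨(Fintype.card B4 : ℝ)⁻¹ • ∑ g, lcoeff ℝ 0 ∘ₗ (V0 𝒜).subtype ∘ₗ zV 𝒜 ε ∘ₗ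
      r0 𝒜 (gI g⁻¹), .pi fun p => (Fintype.card B4 : ℝ)⁻¹ • .proj p.2 ∘ₗ κ ∘ₗ zV 𝒜 ε ∘ₗ
        r0 𝒜 (gI p.1⁻¹), fun d hd c hc => ?_⟩⟩
  have z : ∀ g, ‖zV 𝒜 ε (r0 𝒜 (gI g) c)‖ ≤ K * ε⁻¹ ^ d * ‖c‖ := fun g =>
    (hK' d ε h0 h1 _ (f g c hc)).trans (by
      rw [Zg.norm_r0]; gcongr; exact hK ⟨d, Nat.lt_succ_of_le hd⟩)
  have y0 : 0 ≤ K * ε⁻¹ ^ d * ‖c‖ := by positivity
  have S0 := sum_nonneg fun q (_ : q ∈ univ) => B0 q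
  simp only [LinearMap.smul_apply, LinearMap.sum_apply, LinearMap.comp_apply, LinearMap.pi_apply,
    LinearMap.proj_apply, smul_eq_mul, abs_mul, abs_of_pos (inv_pos.2 N0), Fintype.sum_prod_type,
    ← mul_sum, inv_mul_le_iff₀ N0, lcoeff_apply, Submodule.subtype_apply]
  refine ⟨(abs_sum_le_sum_abs _ _).trans ((sum_le_card_nsmul _ _ _ fun g _ =>
    (Zf.coeff_le 0 _).trans (z _)).trans ?_), (sum_le_card_nsmul _ _ _ fun g _ =>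
      sum_le_sum (g := fun q => B q * (K * ε⁻¹ ^ d * ‖c‖)) fun q _ => ?_).trans ?_,
    fun p e => mul_eq_zero_of_right _ ((hκ d hd _ (zV_F ε d (f _ c hc))).2 _ e), fun r => ?_⟩
  · rw [nsmul_eq_mul, card_univ]
    gcongr
    nlinarith
  · have := hB q _ ((fil 𝒜).mono hd (zV_F ε d (f g⁻¹ c hc)))
    rw [LinearMap.smulRight_apply, norm_smul] at this
    exact (le_mul_of_one_le_right (abs_nonneg _) u).trans (this.trans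
      (mul_le_mul_of_nonneg_left (z _) (B0 q)))
  · rw [nsmul_eq_mul, card_univ, ← sum_mul]
    exact mul_le_mul_of_nonneg_left (by nlinarith) N0.le
  · rw [Ze_ap, sum_congr rfl fun g _ => by rw [(hκ d hd _ (zV_F ε d (f g⁻¹ c hc))).1]]
    simp only [map_add, map_sum, map_smul, ← Complex.coe_smul,
      fun q : Vd 𝒜 s => sc_hom ((gm_ls q.1.c).2.2 _ q.1.hom), show ls 𝒜 (u0 𝒜) = 1 by
        simp [ls_ap, u0], map_one, sum_add_distrib, smul_add, smul_sum, smul_smul, C_eq_smul_one]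
    simp [← sum_smul, mul_sum, mul_assoc, constantCoeff_eq]

end Pool.Agent.Lib.MP_7f377f_mp.RG.Tl

namespace Pool.Agent.Lib.MP_7f377f_mp.RG.Q4.En.Gl

open RG.Tl

/-- change of the level of normalisation -/
theorem Ok.zL_rs {G : Gl} (h : G.Ok) {𝒜 : Set CM} [Zg.Og 𝒜] [Adj 𝒜] (b : ℝ) {J k o : ℕ} (h1 : o ≤ k)
    (h2 : k ≤ J) (e : Zg.V0 𝒜) : G.zL 𝒜 b J o e = G.zL 𝒜 b J k (Kz.rs 𝒜 (G.rt k o) e) := by
  funext U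
  have := Ze_rs (G.rt J k : ℝ)⁻¹ (G.rt k o : ℝ)⁻¹ √(2 * b) e
  rw [← mul_inv, ← Nat.cast_mul, ← h.rt_rt h1 h2, inv_inv] at this
  exact congrArg (fun P => (pG P U).re) this

end Pool.Agent.Lib.MP_7f377f_mp.RG.Q4.En.Gl
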