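import Pool.Agent.Lib.MP_7f377f_mp.G.KzU

/-! Asymptotic freedom of the normalised fields at good sites. -/

noncomputable section

set_option linter.unusedSectionVars false
variable [Pool.Agent.Lib.MP_7f377f_mp.GD]

namespace Pool.Agent.Lib.MP_7f377f_mp.Kz

open MeasureTheory Filter Set YM7 L6 RG RG.Tl RG.Q4 RG.Q4.En Wy MvPolynomial
open Zg (V0 Og fil u0)

theorem ex_inv {V : Type} [AddCommGroup V] [Module ℝ V] {W : Submodule ℝ V} {B : V →ₗ[ℝ] V}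
    (b : BijOn B W W) : ∃ I : V →ₗ[ℝ] V, ∀ c ∈ W, I c ∈ W ∧ B (I c) = c := by
  let E := LinearEquiv.ofBijective (B.restrict b.1) ⟨fun x y e => Subtype.ext
    (b.2.1 x.2 y.2 (congrArg Subtype.val e)), fun y => (b.2.2 y.2).elim fun x u =>
      ⟨⟨x, u.1⟩, Subtype.ext u.2⟩⟩
  obtain ⟨I, e⟩ := (W.subtype ∘ₗ E.symm.toLinearMap).exists_extend
  refine ⟨I, fun c hc => ?_⟩
  rw [show I c = E.symm ⟨c, hc⟩ from LinearMap.congr_fun e ⟨c, hc⟩]
  exact ⟨Subtype.mem _, congrArg Subtype.val (E.apply_symm_apply _)⟩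

variable {𝒜 : Set CM} [Og 𝒜] [MeasurableSpace SU2] [BorelSpace SU2]
  {h : Measure SU2} [h.IsHaarMeasure] [IsProbabilityMeasure h] {b : ℝ} {n D D' k : ℕ} [NeZero n]

theorem cm_unit {c e : Fin k → V0 𝒜} (r : Fin k → ℝ) {x : Fin k → Wu.Z4} {u ε : ℝ} {y : Fin k → ℝ}
    (hc : ∀ a, c a ∈ Vp 𝒜 D) (H : ∀ j (π : Fin j ↪ Fin k),
      |cm h b n (c ∘ π) (x ∘ π) - fq u (e ∘ π) (x ∘ π)| ≤ ε * ∏ a, y (π a)) :
    |er h b n (MP_7f377f_mp.Wx.cl (oc h b n) (fun a => c a + r a • u0 𝒜) x) -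
      fq u (fun a => e a + r a • u0 𝒜) x| ≤ ε * ∏ a, (y a + |r a|) := by
  have p {M : Type} [CommMonoid M] (s : Finset (Fin k)) (F : Fin k → M) :
      ∏ a, F (s.orderEmbOfFin rfl a) = ∏ a ∈ s, F a := by
    conv_rhs => rw [← s.map_orderEmbOfFin_univ rfl, Finset.prod_map]
    rfl
  have z (a) : constantCoeff (c a).1 = 0 := by
    have := (π0_eq _).symm.trans (hc a).2
    simpa [u0] using congrArg (fun c : V0 𝒜 => constantCoeff c.1) this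
  have e1 : er h b n (MP_7f377f_mp.Wx.cl (oc h b n) (fun a => c a + r a • u0 𝒜) x) =
      ∑ s ∈ Finset.univ.powerset, cm h b n (c ∘ s.orderEmbOfFin rfl) (x ∘ s.orderEmbOfFin rfl) *
        ∏ a ∈ Finset.univ \ s, r a := by
    simp only [cm, er, ← integral_mul_const]
    refine (congrArg _ (funext fun U => ?_)).trans (integral_finsetSum _ fun s _ =>
      Continuous.integrable_of_hasCompactSupport (((continuous_finsetProd _ fun a _ =>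
        (ct_cont _).comp (cont_tz _)).comp cont_lf).mul continuous_const) (.of_compactSpace _))
    simp only [MP_7f377f_mp.Wx.cl, map_add, map_smul, oc_u0, Pi.add_apply, Pi.smul_apply, Pi.one_apply,
      smul_eq_mul, mul_one, Finset.prod_add, Function.comp]
    refine Finset.sum_congr rfl fun s _ => ?_
    rw [p s fun a => ct h b n (lt 𝒜 (c a)) (tz (x a) (L6.lf U))]
    simp [oc, z]
  have e2 : fq u (fun a => e a + r a • u0 𝒜) x =
      ∑ s ∈ Finset.univ.powerset, fq u (e ∘ s.orderEmbOfFin rfl) (x ∘ s.orderEmbOfFin rfl) *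
        ∏ a ∈ Finset.univ \ s, r a := by
    simp only [fq, Zf.fp_eq, Zf.Rn, Submodule.coe_add, Submodule.coe_smul, u0, map_add, map_smul, map_one,
      Finset.prod_add, map_sum]
    refine Finset.sum_congr rfl fun s _ => ?_
    rw [Finset.prod_smul, Finset.prod_const_one, mul_smul_one, map_smul, smul_eq_mul, mul_comm,
      ← p s fun a => rename (Prod.mk a) (e a).1, ← Zf.fp_comp, Zf.fp_eq]
    rfl
  rw [e1, e2, ← Finset.sum_sub_distrib, Finset.prod_add, Finset.mul_sum]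
  refine (Finset.abs_sum_le_sum_abs _ _).trans (Finset.sum_le_sum fun s _ => ?_)
  rw [← sub_mul, abs_mul, Finset.abs_prod, ← mul_assoc, ← p s y]
  exact mul_le_mul_of_nonneg_right (H _ (s.orderEmbOfFin rfl).toEmbedding) (by positivity)

/-- the change of the labels at a site -/
theorem ax_lin {B M N I : V0 𝒜 →ₗ[ℝ] V0 𝒜} {τ σ a η : ℝ} (hD : D' ≤ D) (τ0 : τ ≠ 0) (σ1 : 1 ≤ σ)
    (m : ∀ d ≤ D, BijOn M (Vp 𝒜 d) (Vp 𝒜 d)) (n : MapsTo N (Vp 𝒜 D') (Vp 𝒜 D'))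
    (b : InjOn B (Vp 𝒜 D)) (i : ∀ c ∈ Vp 𝒜 D, I c ∈ Vp 𝒜 D ∧ B (I c) = c)
    (key : Nr (Vp 𝒜 D') (N ∘ₗ rs 𝒜 τ) B .id η) (η0 : 0 ≤ η) (a1 : a ≤ 1) (ηa : η * σ ^ D' ≤ a)
    (off : Nr (Vp 𝒜 D) (M ∘ₗ rs 𝒜 (τ * σ)) (N ∘ₗ rs 𝒜 (τ * σ)) .id a) :
    Nr (Vp 𝒜 D') ((I ∘ₗ M ∘ₗ rs 𝒜 τ) ∘ₗ rs 𝒜 σ) (rs 𝒜 σ) .id (3 * a) := fun e he => by
  have σ0 : σ ≠ 0 := by positivity
  have s := rs_Vp (𝒜 := 𝒜) σ0
  have r := rs_Vp (𝒜 := 𝒜) (mul_ne_zero τ0 σ0)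
  obtain ⟨_, ⟨z, hz, rfl⟩, z2, z3⟩ := (key _ ((s _).1 he)).imp fun z u => (⟨(s _).2.2 u.1, u.2⟩ : _ ∧ _)
  obtain ⟨y, hy, y2, y3⟩ := off z (vp_mono hD hz)
  obtain ⟨w, hw, w2⟩ := ((m _ hD).comp (r _)).2.2 (n ((r _).1 hz))
  obtain rfl := ((m _ le_rfl).comp (r _)).2.1 hy (vp_mono hD hw) (y2.trans w2.symm)
  simp only [LinearMap.comp_apply, LinearMap.id_apply, rs_mul] at *
  have q := i _ ((m _ le_rfl).1 ((r _).1 hy))
  refine ⟨y, hw, b q.1 ((s _).1 (vp_mono hD he)) (q.2.trans (y2.trans z2)), ?_⟩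
  have u := (rs_le σ1 (sub_mem hz he).1).1
  rw [map_sub] at u
  have v : ‖z - e‖ ≤ a * ‖e‖ := u.trans (z3.trans ((mul_le_mul_of_nonneg_left (rs_le σ1 he.1).2
    η0).trans (by rw [← mul_assoc]; gcongr)))
  have a0 : 0 ≤ a := le_trans (by positivity) ηa
  have := norm_sub_le_norm_sub_add_norm_sub y z e
  have := mul_le_mul_of_nonneg_left (norm_le_norm_add_norm_sub' z e) a0
  nlinarith [norm_nonneg (z - e), norm_nonneg e]

end Pool.Agent.Lib.MP_7f377f_mp.Kz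

namespace Pool.Agent.Lib.MP_7f377f_mp.RG.Q4.En.Gl

open MeasureTheory Filter Topology Set YM7 L6 RG.Tl Wy Kz MvPolynomial
open Wu (Z4)
open Zg (V0 Og fil u0)

variable {G : Gl} {𝒜 : Set CM} [Og 𝒜] {β : ℕ × ℕ → ℝ} {U : Ultrafilter (ℕ × ℕ)}
  {N : ℕ × ℕ → V0 𝒜 →ₗ[ℝ] V0 𝒜} {A : ℝ → V0 𝒜 ≃ₗ[ℝ] V0 𝒜}

omit [GD] in
theorem ax_num {c E j M : ℕ} (h1 : 1 ≤ E) (h2 : j ≤ E) (h3 : M ≤ E) :
    ((2 * c + E + 5) * E + 1) * j + M ≤ (10 * (c + E)) ^ 3 := by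
  refine le_trans (b := (7 * (c + E) * (c + E) + (c + E)) * (c + E) + (c + E)) (by gcongr <;> omega) ?_
  obtain ⟨s, e⟩ := Nat.exists_eq_add_of_le' (show 1 ≤ c + E by omega)
  rw [e]
  ring_nf
  omega

theorem Ny.ax (o : G.Oks) (hU : U ≤ fast) (Y : G.Ny 𝒜 β U N A) :
    ∀ (D m n M : ℕ), ∀ κ ≥ (1 : ℝ), ∀ δ > (0 : ℝ), ∀ᶠ t in 𝓝[>] (0 : ℝ),
    ∀ᶠ p in (U : Filter (ℕ × ℕ)), ∃ T : Z4 → V0 𝒜 →ₗ[ℝ] V0 𝒜,
      (∀ x v : Z4, T (x + (G.rt p.2 (G.kt t) : ℤ) • v) = T x) ∧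
      (∀ x ∈ G.Gs p.2 (G.kt t), T x (Zg.u0 𝒜) = Zg.u0 𝒜 ∧
        (∀ d ≤ D, BijOn (T x) (Vp 𝒜 d) (Vp 𝒜 d)) ∧ ∀ σ ∈ Icc (1 : ℝ) (G.L (G.kt t) ^ n),
          Kz.Nr (Vp 𝒜 D) (T x ∘ₗ Kz.rs 𝒜 σ) (Kz.rs 𝒜 σ) .id δ ∧
            Kz.Nr (Vp 𝒜 D) (Kz.rs 𝒜 σ) (T x ∘ₗ Kz.rs 𝒜 σ) .id δ) ∧
      ∀ k ≤ m, ∀ (x : Fin k → Z4) (e : Fin k → V0 𝒜),
        (∀ a, x a ∈ G.Gs p.2 (G.kt t) ∧ e a ∈ (Zg.fil 𝒜).F D) →
        (∀ a a', a ≠ a' → Kz.Ds (t / κ / G.aa p) (G.L (G.kt t) ^ n * t / G.aa p) (x a) (x a')) →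
        |t ^ (4 * k) * Wy.er (Fi.tr haar) (β p) (G.nn p)
          (MP_7f377f_mp.Wx.cl (G.Oz 𝒜 β N p) (fun a => A t (T (x a) (e a))) x) -
            Kz.fq (t / G.aa p) e x| ≤ (G.L (G.kt t) ^ M : ℝ)⁻¹ * ∏ a, ‖e a‖ := by
  intro D m n M κ κ1 δ δ0
  have o0 := (o 0).1
  have := (Zg.fil 𝒜).fin D
  obtain ⟨C, C0, hC⟩ := Kz.ex_bd (W := (Zg.fil 𝒜).F D) ((Zg.fil 𝒜).π 0)
  have u1 : 0 < ‖u0 𝒜‖ := norm_pos_iff.2 fun e => one_ne_zero (congrArg Subtype.val e)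
  obtain ⟨a, a0, a1, a2⟩ : ∃ a > 0, a ≤ 1 / 6 ∧ 6 * a ≤ δ :=
    ⟨min 1 δ / 6, by positivity, by linarith [min_le_left 1 δ], by linarith [min_le_right 1 δ]⟩
  filter_upwards [Y.key (D + m + n + M + 1), kt_ev o, (o0.L_top.comp (kt_top o)).eventually_ge_atTop
    (max κ (max a⁻¹ (1 + C + C / ‖u0 𝒜‖)))] with t ⟨A0, E, hE, c, k, hk, l2, H⟩ ⟨t0, t1, t2⟩
      (l1 : _ ≤ (G.L (G.kt t) : ℝ))
  simp only [max_le_iff] at l1
  have kk : G.kt t ≤ k := by omega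
  have r1 : G.L _ ^ _ ≤ G.rt _ _ := o0.le_rt (k := k) _ kk
  have r2 : G.rt _ _ ≤ G.L _ ^ _ := o0.rt_le (k := k) _ kk
  have l3 : G.L _ ≤ G.L _ := o0.L_mono kk
  have q := G.aa_pos (0, k)
  rw [← aa_rt o (i := 0) kk] at t1 t2
  rw [show k - G.kt t = 2 * c + E + 4 by omega] at r1 r2
  obtain ⟨τ, hτ⟩ : ∃ τ, τ = t / G.aa (0, k) := ⟨_, rfl⟩
  rw [← Nat.cast_le (α := ℝ)] at r1 r2 l2 l3
  push_cast at r1 r2 l2
  replace r1 : (G.L (G.kt t) : ℝ) ^ (2 * c + E + 4) ≤ τ :=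
    r1.trans (by rw [hτ, le_div_iff₀' q]; exact t1)
  have L1 : (1 : ℝ) ≤ G.L (G.kt t) := κ1.trans l1.1
  replace r2 : τ ≤ (G.L k : ℝ) ^ (2 * c + E + 5) := by
    rw [hτ, div_le_iff₀' q, pow_succ', mul_left_comm]
    exact t2.trans (by gcongr)
  rw [← hτ] at H
  generalize (G.L (G.kt t) : ℝ) = L at *
  have K1 := L1.trans l3
  have τ1 : 1 ≤ τ := (one_le_pow₀ L1).trans r1
  have τ0 : τ ≠ 0 := by positivity
  have w1 : ∀ i, 2 * i + 1 ≤ 2 * c + E + 4 → L * G.L k ^ i ≤ τ := fun i e => le_trans (by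
    rw [pow_succ', pow_mul]; gcongr) ((pow_le_pow_right₀ L1 e).trans r1)
  have w2 : ∀ σ ≤ L ^ n, G.L k * (τ * σ) ≤ G.L k ^ (10 * (c + E)) := fun σ e => le_trans (by
    rw [pow_add, pow_add, pow_one, mul_assoc]
    exact mul_le_mul_of_nonneg_left ((mul_le_mul_of_nonneg_left e (by positivity)).trans (by gcongr))
      (by positivity)) (pow_le_pow_right₀ K1 (show 1 + (2 * c + E + 5) + n ≤ _ by omega))
  filter_upwards [H (a / (L ^ n) ^ D) (by positivity), hU (Y.bij 0), hU (ev_lev o k)]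
    with p ⟨X, g, key⟩ n0 hp
  have gs : G.Gs p.2 (G.kt t) ⊆ G.Gs p.2 k := fun x e => Dg.mono e kk le_rfl fun _ => le_rfl
  have η1 := div_le_self a0.le (one_le_pow₀ (n := D) (one_le_pow₀ (n := n) L1))
  have b := fun d e => ((key d e).symm ((g.ce.bij d e).comp (rs_Vp τ0 d)) (by positivity)
    (by linarith)).1
  obtain ⟨I, i⟩ := ex_inv (b E le_rfl)
  have hD : D ≤ E := by omega
  obtain ⟨T, hT⟩ : ∃ T : (V0 𝒜 →ₗ[ℝ] V0 𝒜) → V0 𝒜 →ₗ[ℝ] V0 𝒜, ∀ Y e, T Y e =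
      I (Y (Kz.rs 𝒜 τ (e - (Zg.fil 𝒜).π 0 e))) + (Zg.fil 𝒜).π 0 e :=
    ⟨fun Y => (I ∘ₗ Y ∘ₗ Kz.rs 𝒜 τ) ∘ₗ (.id - (Zg.fil 𝒜).π 0) + (Zg.fil 𝒜).π 0, fun _ _ => rfl⟩
  refine ⟨fun x => T (X x), fun x v => by
    simp only [show G.rt _ _ = G.rt _ _ * G.rt _ _ from o0.rt_rt kk hp, Nat.cast_mul, mul_smul, g.per],
      fun x hx => ?_, fun j hj x e h1 h2 => ?_⟩
  · have m := g.bij x (gs hx)
    have z : ∀ {d}, ∀ e ∈ Vp 𝒜 d, T (X x) e = I (X x (Kz.rs 𝒜 τ e)) := fun e he => by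
      simp [hT, show (Zg.fil 𝒜).π 0 e = 0 from he.2]
    have f : ∀ d ≤ E, BijOn (fun e => I (X x (Kz.rs 𝒜 τ e))) (Vp 𝒜 d) (Vp 𝒜 d) := fun d hd => by
      refine BijOn.comp (bij_of_surj (fun y hy => ?_) fun y hy => ?_) ((m d hd).comp (rs_Vp τ0 d))
      · obtain ⟨w, hw, rfl⟩ := (b d hd).2.2 hy
        have := i _ (vp_mono hd hy)
        rwa [(b E le_rfl).2.1 this.1 (vp_mono hd hw) this.2]
      · have := i _ (vp_mono hd ((b d hd).1 hy))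
        exact ⟨_, (b d hd).1 hy, (b E le_rfl).2.1 this.1 (vp_mono hd hy) this.2⟩
    refine ⟨by simp [hT, π0_eq, u0], fun d hd => (f d (hd.trans hD)).congr fun e he => (z e he).symm,
      fun σ s => ?_⟩
    have s0 := rs_Vp (𝒜 := 𝒜) (t := σ) (by linarith [s.1]) D
    have s1 := le_mul_of_one_le_right (zero_le_one.trans τ1) s.1
    have := ax_lin (a := a) hD τ0 s.1 m (g.ce.bij D hD).1 (b E le_rfl).2.1 i (key D hD) (by positivity)
      (by linarith) (by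
        rw [div_mul_eq_mul_div, div_le_iff₀ (by positivity)]
        gcongr
        exacts [by linarith [s.1], s.2]) ((g.off _ (((le_mul_of_one_le_left (by positivity) L1).trans
          (w1 _ (by omega))).trans s1) (w2 σ s.2) x (gs hx)).mono (by
        rw [div_le_iff₀ (by linarith), ← inv_mul_le_iff₀ a0]
        exact (mul_le_mul_of_nonneg_right l1.2.1 (by positivity)).trans
          ((pow_one (G.L k : ℝ) ▸ w1 1 (by omega) :).trans s1)))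
    replace : Kz.Nr (Vp 𝒜 D) (T (X x) ∘ₗ Kz.rs 𝒜 σ) (Kz.rs 𝒜 σ) .id (3 * a) := fun e he =>
      (this e he).imp fun y u => ⟨u.1, (z _ (s0.1 u.1)).trans u.2.1, u.2.2⟩
    exact ⟨this.mono (by linarith), (this.symm (((f D hD).congr fun e he => (z e he).symm).comp s0)
      (by positivity) (by linarith)).2.mono (by linarith)⟩
  have v := fun a => vp_sub (h1 a).2
  have v' := fun a => (rs_Vp τ0 E).1 (vp_mono hD (v a))
  have m := fun a => (g.bij _ (gs (h1 a).1) E le_rfl).1 (v' a)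
  have R0 : (0 : ℝ) < G.rt p.2 k := Ok.rt_pos p.2 k
  have e0 : t / G.aa p = τ * G.rt p.2 k := by
    have := G.aa_pos p
    rw [hτ, ← aa_rt o (i := p.1) hp]
    field_simp
  have := cm_unit (h := Fi.tr haar) (b := β p) (n := G.nn p) (fun a => constantCoeff (e a).1)
    (u := t / G.aa p) (ε := (G.L k ^ (10 * (c + E)) ^ 3 : ℝ)⁻¹) (x := x)
    (e := fun a => e a - constantCoeff (e a).1 • u0 𝒜)
    (y := fun a => ‖Kz.rs 𝒜 τ (e a - constantCoeff (e a).1 • u0 𝒜)‖) m fun i π => by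
      have := g.oa i ((Fintype.card_fin i ▸ Fintype.card_fin j ▸ Fintype.card_le_of_embedding π :).trans
        (by omega)) (x ∘ π) _ (fun a => ⟨gs (h1 (π a)).1, v' (π a)⟩) fun a a' e =>
          (h2 _ _ (π.injective.ne e)).mono (by
            rw [div_right_comm, e0, le_div_iff₀' (by positivity), ← mul_assoc]
            gcongr
            exact le_trans (by gcongr; exact l1.1) (w1 c (by omega))) (by
            rw [mul_div_assoc, e0, ← mul_assoc, mul_comm _ τ]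
            gcongr
            exact (le_mul_of_one_le_left (by positivity) K1).trans (w2 _ le_rfl))
      rwa [fq_rs τ0, ← e0] at this
  simp only [sub_add_cancel] at this
  refine (le_of_eq (congrArg (|· - _|) ?_)).trans (this.trans ?_)
  · simp only [Wy.er, ← integral_const_mul, MP_7f377f_mp.Wx.cl]
    congr 1
    funext W
    rw [pow_mul, ← Fin.prod_const, ← Finset.prod_mul_distrib]
    refine Finset.prod_congr rfl fun a _ => ?_
    have : t ^ 4 ≠ 0 := by positivity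
    rw [← (i _ (m a)).2, hT, π0_eq]
    simp [Oz_ap, A0, n0.2.1, mul_add, mul_left_comm (t ^ 4), this, -map_sub]
  calc _ ≤ (G.L k ^ (10 * (c + E)) ^ 3 : ℝ)⁻¹ * ∏ a, G.L k ^ ((2 * c + E + 5) * E + 1) * ‖e a‖ := by
        gcongr with a
        have b1 := hC _ (h1 a).2
        have b2 := (rs_le τ1 (v a).1).2
        have b3 := norm_sub_le (e a) (constantCoeff (e a).1 • u0 𝒜)
        rw [π0_eq] at b1
        have b4 : |constantCoeff (e a).1| ≤ C / ‖u0 𝒜‖ * ‖e a‖ := by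
          rwa [div_mul_eq_mul_div, le_div_iff₀ u1, ← Real.norm_eq_abs, ← norm_smul]
        have b5 : τ ^ D ≤ (G.L k : ℝ) ^ ((2 * c + E + 5) * E) := by
          rw [pow_mul]
          exact (pow_le_pow_right₀ τ1 hD).trans (by gcongr)
        have b6 := one_le_pow₀ (n := (2 * c + E + 5) * E) K1
        rw [pow_succ]
        generalize (G.L k : ℝ) ^ ((2 * c + E + 5) * E) = Z at *
        calc _ ≤ Z * ((1 + C) * ‖e a‖) + Z * (C / ‖u0 𝒜‖ * ‖e a‖) := add_le_add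
              (b2.trans (by gcongr; linarith)) (b4.trans (le_mul_of_one_le_left (by positivity) b6))
          _ = Z * (1 + C + C / ‖u0 𝒜‖) * ‖e a‖ := by ring
          _ ≤ _ := by gcongr; linarith [l1.2.2]
    _ ≤ _ := by
        rw [Finset.prod_mul_distrib, ← mul_assoc, Finset.prod_const, Finset.card_fin, ← pow_mul]
        have := ax_num (c := c) (j := j) (M := M) (E := E) (by omega) (by omega) (by omega)
        refine mul_le_mul_of_nonneg_right ?_ (Finset.prod_nonneg fun _ _ => norm_nonneg _)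
        rw [inv_mul_le_iff₀ (by positivity), le_mul_inv_iff₀ (by positivity)]
        exact (mul_le_mul_of_nonneg_left (pow_le_pow_left₀ (by positivity) l3 M) (by positivity)).trans
          ((pow_add _ _ _).symm.trans_le (pow_le_pow_right₀ K1 this))

end Pool.Agent.Lib.MP_7f377f_mp.RG.Q4.En.Gl
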