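import Pool.Agent.Lib.MP_7f377f_mp.G.KzK0

/-! Matched observables at arbitrary sites. -/

noncomputable section

set_option linter.unusedSectionVars false
variable [Pool.Agent.Lib.MP_7f377f_mp.GD]

namespace Pool.Agent.Lib.MP_7f377f_mp.RG.Q4.En.Gl

open Finset Function Real Sg YM7 MeasureTheory Kz Mg
open scoped Classical
open L6 (Fz)

variable {ι : Type} [Fintype ι] [DecidableEq ι] {G : Gl} {A n d D R c J J' i j k n0 : ℕ}
  {τ b b' η ε W W' : ℝ}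

theorem Ok.ex_near (h : G.Ok) (hj : j ≤ k) (hk : k ≤ J) {z : ι → St}
    (ds : ∀ q q', q ≠ q' → Ds W' (W * G.rt J k) (z q) (z q')) (hW : W + 1 ≤ G.rt k j) :
    ∃ v : St, ∀ q, z q + (G.rt J k : ℤ) • v ∈ box (G.rt J j) := by
  rcases isEmpty_or_nonempty ι with e | ⟨⟨p⟩⟩
  · exact ⟨0, e.elim⟩
  refine ⟨-G.tk (z p) J k, fun q => Op.mem_box.2 fun l => ?_⟩
  have a := abs_le.2 (Op.mem_box.1 (box_mono (Nat.div_le_self _ 2) (h.tk_sub (z p) k hk)) l)
  have r := one_rt (G := G) J k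
  have u : |(z q l - z p l : ℝ)| + G.rt J k ≤ G.rt J j := by
    rw [h.rt_rt hj hk, Nat.cast_mul]
    by_cases e : q = p
    · simpa [e] using le_mul_of_one_le_right (by linarith) (one_rt (G := G) k j)
    · nlinarith [(ds q p e).2 l]
  refine abs_le.1 (le_trans ?_ ((add_le_add_right a |z q l - z p l|).trans (by exact_mod_cast u)))
  refine le_trans (le_of_eq ?_) (abs_add_le _ _)
  simp [sub_eq_add_neg]

/-- matched observables have the same centred moments -/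
theorem Xh.dhT [NeZero (G.N J)] [NeZero (G.N J')] (X : G.Xh A n τ b b' J J' i k) {z : ι → St}
    {x w : ι → ℝ} {T T' : ι → Fz → ℝ} (hd : d ≤ (G.p J).R) (hd' : d ≤ (G.p J').R)
    (M : ∀ (v : St) q, G.Dh A n d D R b b' J J' i k (z q + (G.rt J' k : ℤ) • v) (x q) (w q) η (T q) (T' q))
    (ds : ∀ q q', q ≠ q' → Ds (22 * (G.L k * G.sJ J' k)) (W * G.rt J' k) (z q) (z q'))
    (hW : W + 1 ≤ G.rt k j) (hc : Fintype.card ι = c) (big : 1000 * 3 ^ c ≤ G.L j) (hj : j < k)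
    (hn : j + n0 * (Nat.log 2 (G.L k) + 1) ≤ k) (hτ : τ ≤ η)
    (h1 : 2 ^ (c + 1) * G.Q k ^ 100 * exp (2 - G.L k) ≤ η)
    (h2 : 4 * (c + 1) * G.Q k ^ 62 * (G.L k : ℝ) ^ (3 * n0) * η + 2 / (G.L k : ℝ) ^ (6 * n0) ≤ ε)
    (h3 : ε < 1) :
    |cL (Fi.tr haar) b' (G.N J') T' z - cL (Fi.tr haar) b (G.N J) T fun q => G.tk (z q) J' J| ≤
      kH c (G.Q j) * (ε + (2 ^ (k - j))⁻¹) * ∏ q, G.QA (A + 1) (k + 1) ^ 52 * x q +
        G.kD j c * (2 ^ (k - j))⁻¹ * ∏ q, G.Q k ^ 50 * w q := by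
  have kJ : k ≤ J := by have := X.lt; have := X.hi; omega
  obtain ⟨v, hv⟩ := X.ok.ex_near hj.le (kJ.trans X.le) ds hW
  have := X.dh hd hd' (M v) hv (fun q q' e => (ds q q' e).1.imp fun l a => by
    simp only [Pi.add_apply, add_sub_add_right_eq_sub]
    exact_mod_cast a) hc big hj hn hτ h1 h2 h3
  simp only [X.ok.tk_add v J X.le kJ] at this
  rwa [cL_tr _ _ fun q => (M v q).1, cL_tr _ _ fun q => (M v q).2.1] at this

end Pool.Agent.Lib.MP_7f377f_mp.RG.Q4.En.Gl
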