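import Pool.Agent.Lib.MP_7f377f_mp.G.KzW
import Pool.Agent.Lib.MP_7f377f_mp.G.KyB
import Pool.Agent.Lib.MP_7f377f_mp.G.ZgN

/-! Polynomial bounds for the lattice fields at all scales. -/

noncomputable section

set_option linter.unusedSectionVars false
variable [Pool.Agent.Lib.MP_7f377f_mp.GD]

namespace Pool.Agent.Lib.MP_7f377f_mp.RG.Q4.En.Gl

open MeasureTheory Filter Set YM7 L6 RG.Tl Wy Kz MvPolynomial
open Zg (V0 Og r0 u0)

variable {G : Gl} {𝒜 : Set CM} [Og 𝒜] {β : ℕ × ℕ → ℝ} {U : Ultrafilter (ℕ × ℕ)}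
  {N : ℕ × ℕ → V0 𝒜 →ₗ[ℝ] V0 𝒜} {A : ℝ → V0 𝒜 ≃ₗ[ℝ] V0 𝒜} {s C d R J j k D : ℕ} {M δ K b y : ℝ}
  {z : St} {c : V0 𝒜} {p : ℕ × ℕ}

/-- a crude bound for the letter of a label -/
theorem Fw.lt_bd (W : G.Fw 𝒜 s C M R δ K b J j) (hz : z ∈ G.Gs J j) (d1 : 1 ≤ d) (d2 : d ≤ s + 2)
    (h1 : j ≤ k) (h2 : k ≤ J) (o : G.Os 𝒜 s C d b J k z c y) (V : Fz) :
    |Kz.lt 𝒜 c V| ≤ M * ((G.rt J k : ℝ) ^ (d + 1) * y) * (K / G.ka (s + 1) C J ^ d) := by
  obtain ⟨t, rfl, e⟩ := os_iff.1 o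
  have F := W.fr z hz d d1 d2
  have k0 := W.ok.ka0 (s + 1) C J
  have K0 := F.K0
  have M1 := F.T.M1
  have a := (F.s1 fun q => t q).trans (mul_le_mul_of_nonneg_left ((F.up' h1 h2 le_rfl).trans
    (mul_le_mul_of_nonneg_left (c := y) (by rwa [ys_bot h1]) (by positivity)))
      (by linarith))
  refine le_trans ?_ (mul_le_mul_of_nonneg_right a (by positivity))
  rw [lb, map_sum, Finset.sum_apply, Fintype.sum_sum_type, add_mul, Finset.sum_mul]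
  refine ((Finset.abs_sum_le_sum_abs _ _).trans (Finset.sum_le_sum fun q _ => ?_)).trans
    (le_add_of_nonneg_right (by positivity))
  obtain ⟨-, m2, _, H⟩ := F.top (.inl q)
  rw [map_smul, Pi.smul_apply, smul_eq_mul, abs_mul, abs_div, abs_of_pos (pow_pos k0 _),
    Complex.norm_real, Real.norm_eq_abs, div_mul_eq_mul_div, mul_div_assoc]
  gcongr _ * ?_
  exact div_le_div₀ K0.le ((Complex.abs_re_le_norm _).trans (H.bd V)) (by positivity)
    (pow_le_pow_of_le_one k0.le (F.T.ka1 F.J1 F.δ1) m2)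

theorem oz_ct (h1 : MapsTo (N p) (Vp 𝒜 D) (Vp 𝒜 D)) (h2 : N p (u0 𝒜) = u0 𝒜)
    (hc : c ∈ (Zg.fil 𝒜).F D) : (fun V => G.Oz 𝒜 β N p c V - constantCoeff c.1) =
      Kz.ct (Fi.tr haar) (β p) (G.nn p) (Kz.lt 𝒜 (N p (c - constantCoeff c.1 • u0 𝒜))) := by
  have e : ∀ c ∈ Vp 𝒜 D, constantCoeff c.1 = 0 := fun c hc => by
    simpa [u0] using congrArg (fun c : V0 𝒜 => constantCoeff c.1) ((π0_eq c).symm.trans hc.2)
  have a : G.Oz 𝒜 β N p (c - constantCoeff c.1 • u0 𝒜) = G.Oz 𝒜 β N p c - constantCoeff c.1 • 1 := by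
    rw [map_sub, map_smul, Oz_ap p (u0 𝒜), h2, oc_u0]
  funext V
  have := congrFun a V
  change (_ + _ : ℝ) = _ at this
  rw [e _ (h1 (vp_sub hc)), add_zero] at this
  simpa using this.symm

variable [Adj 𝒜]

/-- polynomial bounds at all scales -/
theorem Nz.el (o : G.Oks) (q : G.HP Sd.StA) (tu : G.Tus β) (hU : U ≤ fast) (H : G.Nz 𝒜 β U N A) :
    EL (Fi.tr haar) G.nn G.aa β (fun p c => G.Oz 𝒜 β N p c) fun μ => r0 𝒜 (Pur.rfL μ) := by
  intro B fin cl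
  have h := (o 0).1
  choose D hD using fun c : V0 𝒜 => (Zg.fil 𝒜).ex c
  obtain ⟨D', hD'⟩ := (fin.image D).bddAbove
  obtain ⟨s, hs, mem⟩ : ∃ s, 2 ≤ s ∧ ∀ c ∈ B, c ∈ (Zg.fil 𝒜).F s := ⟨D' + 2, by omega, fun c hc =>
    (Zg.fil 𝒜).mono ((hD' ⟨c, hc, rfl⟩).trans (by omega)) (hD c)⟩
  obtain ⟨C, ⟨own, M, R, -, fw⟩, c1⟩ :=
    (((H.own s hs).and (o.fwU (𝒜 := 𝒜) q tu hs 0)).and (eventually_ne_atTop 0)).exists
  obtain ⟨δ, -, K, fw⟩ := fw 1 one_pos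
  obtain ⟨k1, pw⟩ := h.Pw_ev s C 1 c1
  obtain ⟨k, ⟨⟨K0, own⟩, fw⟩, hk⟩ := ((own.and (eventually_forall_ge_atTop.2 (fw M le_rfl))).and
    (eventually_ge_atTop k1)).exists
  obtain ⟨E, hE⟩ := h.ex_cel ((o.aok (κ := Unit) q tu (2 * (s + 10)) (s + 9) R).and
    (eventually_ge_atTop k))
  obtain ⟨y, hy⟩ := (fin.image fun c =>
    ⌈max (K0 * ‖c - constantCoeff c.1 • u0 𝒜‖) |constantCoeff c.1|⌉₊).bddAbove
  replace hy : ∀ c ∈ B, K0 * ‖c - constantCoeff c.1 • u0 𝒜‖ ≤ 3 ^ y ∧ |constantCoeff c.1| ≤ 3 ^ y :=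
    fun c hc => max_le_iff.1 ((Nat.ceil_le.1 (hy ⟨c, hc, rfl⟩)).trans (by
      exact_mod_cast (Nat.lt_pow_self (by norm_num)).le))
  obtain ⟨a, ha⟩ : ∃ a, a = (G.K + 2 * (s + 10)) * 345 + (3 * (s + 9) + 2) := ⟨_, rfl⟩
  refine ⟨E, E * (a + s + 2) + y + 1, Nat.cast_nonneg _, fun e => ?_⟩
  obtain ⟨j, ⟨⟨hL, ak⟩, kj⟩, a2, a3, a4, a5⟩ := hE e
  obtain ⟨x, hx⟩ : ∃ x, x = G.Pw s C k j * (G.rt j k : ℝ) ^ s * 3 ^ y := ⟨_, rfl⟩
  have P1 : 1 ≤ G.Pw s C k j := h.Pw1 ..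
  have r1 := Ok.rt0 (G := G) j k s
  have x0 : 0 < x := by rw [hx]; positivity
  have w0 : 0 < G.cL (2 * (s + 10)) (s + 9) j := cL_pos h ..
  have z0 := G.wZ_pos (G.uZ e j) j
  have wt : 3 ^ y + G.wZ (G.uZ e j) j * (G.cL (2 * (s + 10)) (s + 9) j * x) ≤
      3 ^ ((E * (a + s + 2) + y + 1) * (e + 1)) := by
    obtain ⟨v, hv⟩ : ∃ v : ℝ, v = 3 ^ (E * (e + 1)) := ⟨_, rfl⟩
    have v1 : 1 ≤ v := hv ▸ one_le_pow₀ (by norm_num)
    have b0 : (3 : ℝ) ^ G.e j ≤ v := hv ▸ pow_le_pow_right₀ (by norm_num) a3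
    have b1 := (rt_le3 (G := G) j k).trans b0
    have b2 : (G.L j : ℝ) ≤ v := ((((h.LQ j).trans (le_self_pow₀ (h.Q1 j) (by norm_num))).trans
      (h.Qb j)).trans (h.sch.cmp j).2).trans (le_trans (by
        exact_mod_cast (Nat.lt_pow_self (by norm_num)).le) b0)
    have b3 : G.Pw s C k j ≤ v := (pow_one (G.Pw s C k j) ▸ pw k hk j kj).trans b1
    have b4 : G.wZ (G.uZ e j) j ≤ v := hv ▸ a5
    calc _ ≤ v ^ (a + s + 2) * 3 ^ y + v * (v ^ a * (v * v ^ s * 3 ^ y)) := by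
          rw [hx, cL, QA, ← pow_mul, ← pow_add, ← ha]
          gcongr
          exact le_mul_of_one_le_left (by positivity) (one_le_pow₀ v1)
      _ = 2 * (v ^ (a + s + 2) * 3 ^ y) := by ring
      _ ≤ 3 * (v ^ (a + s + 2) * 3 ^ y) := by gcongr; norm_num
      _ = 3 ^ (E * (a + s + 2) * (e + 1) + y + 1) := by rw [hv]; ring
      _ ≤ _ := pow_le_pow_right₀ (by norm_num) (by nlinarith)
  refine (o.ef tu a2 (T := fun p c V => G.Oz 𝒜 β N p c V - constantCoeff c.1) (A := fun _ => B)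
    (w := fun _ _ => G.cL (2 * (s + 10)) (s + 9) j * x) (r := fun μ => r0 𝒜 (Pur.rfL μ)) ?_).mono
    fun J => .imp fun lam u => ⟨u.1, fin, fun μ c hc => ⟨cl μ c hc, (Zg.inv4 _).1 _ _, rfl⟩,
      fun _ _ => by positivity, ?_, ?_⟩
  · filter_upwards [ev_fast.1 ((own.and (H.bij s)).and (eventually_all.2 fun μ =>
      (eventually_all_finite fin).2 fun c _ => (H.pl o hU).rf μ c)), ak (j + 1) j.le_succ,
      h.ka_far (s + 1) C s j K, eventually_gt_atTop (j + 1)] with J b1 b2 b3 b4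
    refine ⟨fin, fun μ c hc => ⟨cl μ c hc, (Zg.inv4 _).1 _ _, rfl⟩, fun _ _ => by positivity,
      2 * (M * ((G.rt J k : ℝ) ^ (s + 1) * 3 ^ y) * (K / G.ka (s + 1) C J ^ s)),
      b1.mono fun i ⟨⟨e1, e2, e3, _⟩, e4⟩ => ?_⟩
    have W := fw k le_rfl J (by omega) (3 ^ i / 2)
    have W' := fw j kj J (by omega) (3 ^ i / 2)
    have g := b2 (3 ^ i / 2) j 0 0 le_rfl j.le_succ (by simp) le_rfl
    have os := fun c hc => (e1 0 gs_zero s le_rfl _ (vp_sub (mem c hc))).mono (hy c hc).1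
    have oz := fun c hc => oz_ct (G := G) (β := β) e2.mapsTo e3 (mem c hc)
    have bd := fun c hc => W.lt_bd gs_zero (by omega) (by omega) le_rfl (by omega) (os c hc)
    have lc := fun c hc => W'.lc _ ((Zg.fil 𝒜).mono (by omega) (e2.mapsTo (vp_sub (mem c hc))).1)
    choose! u hu using fun c hc => g.zn_os W' gs_zero (zero_mem_box _) (by omega) (by omega) le_rfl
      hL b3 x0 (hx ▸ W.os_up gs_zero (by omega) (by omega) le_rfl kj (by omega) (os c hc))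
    refine ⟨⟨fun c hc => oz c hc ▸ ct_cont _, fun c hc => oz c hc ▸ fun _ _ v => congrArg (· - _)
      (((lc c hc).mono (W'.rad.trans (Nat.le_mul_of_pos_left _ four_pos))).2 v), fun μ c hc V => ?_, fun c hc V => ?_⟩,
      fun c hc => ?_, ?_⟩
    · rw [e4 μ c hc, ← gI_rf, show constantCoeff (r0 𝒜 _ c).1 = _ from cc_rB _ c]
    · rw [congrFun (oz c hc), two_mul]
      refine (abs_sub _ _).trans (add_le_add (bd c hc V) ?_)
      exact (norm_integral_le_of_norm_le_const (.of_forall fun V => (Real.norm_eq_abs _).trans_le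
        (bd c hc (L6.lf V)))).trans_eq (by rw [probReal_univ, mul_one]; rfl)
    · simp only [congrFun (oz c hc), Kz.ct, Wy.er]
      refine (integral_sub (((lt_cont 𝒜 _).comp cont_lf).integrable_of_hasCompactSupport
        (.of_compactSpace _)) (integrable_const _)).trans ?_
      simp
    · refine ⟨fun c => u c + -Wy.er (Fi.tr haar) (β (3 ^ i / 2, J)) (G.nn (3 ^ i / 2, J)) (Kz.lt 𝒜
        (N (3 ^ i / 2, J) (c - constantCoeff c.1 • u0 𝒜))), az_of g (by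
          have := g.ok.sJ_step (k := j) (J := J) (by omega); omega) fun c hc => ?_⟩
      rw [oz c hc]
      convert (hu c hc).add lw_c (Zn.const _) using 1
      exacts [funext fun V => by rw [tz_zero]; rfl, (add_zero _).symm]
  · obtain ⟨K', v⟩ := u.2.lt
    refine ⟨K' + 3 ^ y, v.mono fun i v => ⟨fun c hc => ?_, fun c hc _ _ t => ?_, fun μ c hc V => ?_,
      fun c hc V => ?_⟩⟩
    · exact ((v.cont c hc).add continuous_const).congr fun _ => sub_add_cancel _ _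
    · simpa using v.dep c hc t
    · simpa [← gI_rf, show constantCoeff (r0 𝒜 _ c).1 = _ from cc_rB _ c] using v.rf μ c hc V
    · linarith [v.bd c hc V, (hy c hc).2, abs_sub_abs_le_abs_sub (G.Oz 𝒜 β N (3 ^ i / 2, J) c V)
        (constantCoeff c.1)]
  · obtain ⟨K', v⟩ := u.2.lt
    filter_upwards [v, u.2.e0] with i v t
    refine (t.comb v.cont (fun _ _ => by positivity) fun c hc => ⟨{c}, 1, constantCoeff c.1,
      by simpa using hc, ?_, by simp⟩).mono subset_rfl (fun _ _ => ⟨by positivity, le_rfl⟩) a4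
    simpa using (add_le_add_left (hy c hc).2 _).trans wt

end Pool.Agent.Lib.MP_7f377f_mp.RG.Q4.En.Gl
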