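import Pool.Agent.Lib.MP_7f377f_mp.G.KzF
import Pool.Agent.Lib.MP_7f377f_mp.G.JuR
import Pool.Agent.Lib.MP_7f377f_mp.G.JuJ

/-! Real coefficients in frames of tagged states. -/

noncomputable section

set_option linter.unusedSectionVars false
variable [Pool.Agent.Lib.MP_7f377f_mp.GD]

namespace Pool.Agent.Lib.MP_7f377f_mp.RG.Q4.En.Gl

open Finset Real Cok Filter Tl MvPolynomial Ju Mg
open scoped Classical

attribute [local irreducible] box lbox tb tau rc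

variable {α β : Type} [Fintype α] [DecidableEq α] [Fintype β]

/-- the step `S` keeps real admissible states real -/
def Kr (G : Gl) (w : α → ℕ) (d D C : ℕ) (c : ℕ → St) (J j : ℕ) (p : ℕ → (α → ℝ) →ₗ[ℝ] V)
    (l : ℕ → V →ₗ[ℝ] α → ℝ) (U : ℕ → Module.End ℝ (α → ℝ)) (S : ℕ → Jv → Jv) (i : ℕ) : Prop :=
  ∀ k u y, j ≤ k → k < i → G.zP w d D C c J j p l U (k + 1) u y → JR (G.p (k + 1)) u →
    JR (G.p k) (S k u)

variable {G : Gl} {w : α → ℕ} {b M δ K x y θ : ℝ} {d D C J j k i o q R : ℕ} {c : ℕ → St}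
  {ω : ℕ → ℝ} {p : ℕ → (α → ℝ) →ₗ[ℝ] V} {l : ℕ → V →ₗ[ℝ] α → ℝ}
  {U U' : ℕ → Module.End ℝ (α → ℝ)} {Y : Lq} {u : Jv} {s : St} {H : Ac} {S : ℕ → Jv → Jv}
  {τ : β → Jv} {t : β → ℂ} {B : ℕ → Lx × Ac}

theorem qh_real (r : LqR Y) (z : St) (W : Conf) : (G.qh R i s Y z W).im = 0 := by
  refine Im.neg (Im.mul ?_ (Im.mul ?_ (r.1 _)))
  · unfold dt; split_ifs <;> rfl
  · unfold cuf; split_ifs <;> rfl

/-- real letters inserted over real activities are real states -/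
theorem qt_real (e : RealA H) (r : LqR Y) : JR (G.p i) (G.qt D R i s H Y) :=
  .ent (fun _ B v _ => by
    simp only [opT]
    split_ifs
    exacts [r.2 B v, rfl]) (iP_real e (qh_real r))

theorem Tk.kr (T : G.Tk w d D C M c b J j ω p l U U') (hi : i ≤ J) :
    G.Kr w d D C c J j p l U (G.jT D c b J) i :=
  fun _ _ _ h1 h2 a r => T.pt.jT_real h1 (h2.trans_le hi) a r

theorem Tk.krH (T : G.Tk w d D C M c b J j ω p l U U') (a : G.Hb (D + 7) θ b J i j B)
    (hθ : θ * G.jW D i ≤ 1)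
    (r : ∀ k, j ≤ k → k ≤ i → RealP (G.p k) (B k).1 ∧ RealA (B k).2) :
    G.Kr w d D C c J j p l U (G.jH D c b J B) i := fun k _ _ h1 h2 e ru =>
  (T.pt.fitH a hθ h1 h2).real (T.ok.sy (T.pt.s.s1 _)) e (r _ (by omega) h2).1 (r _ (by omega) h2).2 ru

theorem Kr.fw (r : G.Kr w d D C c J j p l U S i) (co : G.Cx w d D C c J j p l U U' S i)
    (h1 : j ≤ k) (h2 : k ≤ q) (h3 : q ≤ i) (a : G.zP w d D C c J j p l U q u x)
    (ru : JR (G.p q) u) : JR (G.p k) (Cok.fw S u q k) :=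
  co_fw co (R := fun k => JR (G.p k)) r h3 a ru k h1 h2

namespace Fx

variable (F : G.Fx w d D C M c b J j ω p l U U' S i τ) (r : G.Kr w d D C c J j p l U S i)
  (rτ : ∀ a, JR (G.p i) (τ a))
include F r rτ

theorem st_real (h1 : j ≤ k) (h2 : k ≤ i) (ht : ∀ a, (t a).im = 0) : JR (G.p k) (st S τ i k t) :=
  r.fw F.fm.toCo h1 h2 le_rfl (F.fm.top t) (.sum _ fun a _ => (rτ a).smul (ht a))

/-- real symbols come from real coefficients -/
theorem real (h1 : j ≤ k) (h2 : k ≤ i) (e : SyR (G.zq w d D C J j p k (st S τ i k t))) :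
    ∀ a, (t a).im = 0 :=
  fm_real F.fm h1 h2 (fun _ ht => zq_real F.T.ok F.T.hw (F.st_real r rτ h1 h2 ht)) e

/-- the coefficients which match a real state are real -/
theorem cmp_real (h1 : j ≤ o) (h2 : o ≤ q) (h3 : q ≤ i) (a : G.zP w d D C c J j p l U q u x)
    (ru : JR (G.p q) u) (e : G.zq w d D C J j p o (st S τ i o t) =
      G.zq w d D C J j p o (Cok.fw S u q o)) : ∀ a, (t a).im = 0 :=
  F.real r rτ h1 (h2.trans h3) (e ▸ zq_real F.T.ok F.T.hw (r.fw F.fm.toCo h1 h2 h3 a ru))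

end Fx

/-- the states of a frame of real cut off letters are real -/
theorem qt_fr {n : β → ℕ} {X : β → Lq} (e : RealA H) (r : ∀ a, LqR (X a)) (a : β) :
    JR (G.p i) (((G.ka D C i : ℂ) ^ n a)⁻¹ • G.qt D R i s H (X a)) :=
  (qt_real e (r a)).smul (by norm_cast)

end Pool.Agent.Lib.MP_7f377f_mp.RG.Q4.En.Gl
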