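import Pool.Agent.Lib.MP_7f377f_mp.G.KzS

/-! Charts at different sites agree at large distances. -/

noncomputable section

set_option linter.unusedSectionVars false
variable [Pool.Agent.Lib.MP_7f377f_mp.GD]

namespace Pool.Agent.Lib.MP_7f377f_mp.Kz

open MeasureTheory Filter Set YM7 L6 RG RG.Tl RG.Q4 RG.Q4.En Wy
open RG.Wd (B4 gv)
open Wu (Z4)
open Zg (V0 Og r0 fil)

variable {𝒜 : Set CM} [Og 𝒜] {ι : Type} [Fintype ι] [MeasurableSpace SU2] [BorelSpace SU2]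
  {h : Measure SU2} [h.IsHaarMeasure] [IsProbabilityMeasure h] {b : ℝ} {n : ℕ} [NeZero n]

theorem pz_sub (u : ℝ) (x y : Z4) : pz u x - pz u y = u • (pz 1 x - pz 1 y) := by
  ext l
  simp [pz, mul_sub]

theorem pz_le {u T : ℝ} {x y : Z4} (u0 : 0 < u) (e : ∀ l, |(x l - y l : ℝ)| ≤ T) :
    ‖pz u⁻¹ x - pz u⁻¹ y‖ ≤ 2 * T / u := by
  have T0 := (abs_nonneg _).trans (e 0)
  rw [pz_sub, norm_smul, norm_inv, Real.norm_of_nonneg u0.le, inv_mul_eq_div]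
  refine div_le_div_of_nonneg_right ?_ u0.le
  rw [EuclideanSpace.norm_eq, Real.sqrt_le_left (by positivity)]
  refine (Finset.sum_le_sum (g := fun _ => T ^ 2) fun l _ =>
    pow_le_pow_left₀ (norm_nonneg _) (by simpa [pz] using e l) 2).trans_eq ?_
  simp
  ring

theorem Ds.ge {u T T' : ℝ} {x y : Z4} (e : Ds T T' x y) (u0 : 0 < u) (k : u ≤ T) :
    1 ≤ ‖pz u⁻¹ x - pz u⁻¹ y‖ := by
  rw [pz_sub, norm_smul, norm_inv, Real.norm_of_nonneg u0.le, inv_mul_eq_div, one_le_div u0]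
  exact k.trans e.norm

theorem sep2 {x y : R4} (e : 1 ≤ ‖x - y‖) : Zg.Sep 1 ![x, y] := fun i j v => by
  fin_cases i <;> fin_cases j
  exacts [(v rfl).elim, e, e.trans_eq (norm_sub_rev _ _), (v rfl).elim]

variable (𝒜) in
theorem b2_bd (D : ℕ) : ∃ C, 0 ≤ C ∧ ∀ a ∈ Vp 𝒜 D, ∀ c ∈ Vp 𝒜 D, ∀ y x : R4, 1 ≤ ‖y - x‖ →
    |Zg.b2 𝒜 ![y, x] a c| ≤ C * (‖a‖ * ‖c‖) ∧ ∀ x', 1 ≤ ‖y - x'‖ → ‖x' - x‖ ≤ 1 / 3 →
      |Zg.b2 𝒜 ![y, x'] a c - Zg.b2 𝒜 ![y, x] a c| ≤ C * ‖x' - x‖ * (‖a‖ * ‖c‖) := by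
  obtain ⟨C, C0, hC⟩ := Zg.fp_ub (𝒜 := 𝒜) (ι := Fin 2) D one_pos
  obtain ⟨E, E0, hE⟩ := Zg.fp_lip (𝒜 := 𝒜) (ι := Fin 2) D (δ := 1 / 3) (by norm_num)
  refine ⟨C + E, by positivity, fun a ha c hc y x e => ⟨?_, fun x' e' k => ?_⟩⟩
  · have := hC ![a, c] _ (Fin.forall_fin_two.2 ⟨ha.1, hc.1⟩) (sep2 e)
    rw [← Zg.b2_fp, Fin.prod_univ_two] at this
    exact this.trans (mul_le_mul_of_nonneg_right (by linarith) (by positivity))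
  · have n : ‖![y, x'] - ![y, x]‖ ≤ ‖x' - x‖ :=
      (pi_norm_le_iff_of_nonneg (norm_nonneg _)).2 (Fin.forall_fin_two.2 ⟨by simp, by simp⟩)
    have := hE ![a, c] ![y, x] ![y, x'] (Fin.forall_fin_two.2 ⟨ha.1, hc.1⟩)
      (by simpa using sep2 e) (by simpa using sep2 e') (n.trans k)
    rw [← Zg.b2_fp, ← Zg.b2_fp, Fin.prod_univ_two] at this
    refine this.trans (mul_le_mul_of_nonneg_right ?_ (by positivity))
    exact mul_le_mul (by linarith) n (norm_nonneg _) (by positivity)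

theorem fq2 (u : ℝ) (a c : V0 𝒜) (x y : Z4) :
    fq u ![a, c] ![x, y] = Zg.b2 𝒜 ![pz u⁻¹ x, pz u⁻¹ y] a c := by
  rw [fq_two]
  congr 3
  funext i
  fin_cases i <;> rfl

theorem fq2_rs {ρ : ℝ} (e : ρ ≠ 0) (u : ℝ) (a c : V0 𝒜) (x y : Z4) :
    Zg.b2 𝒜 ![pz u⁻¹ x, pz u⁻¹ y] (rs 𝒜 ρ a) (rs 𝒜 ρ c) =
      Zg.b2 𝒜 ![pz (ρ * u)⁻¹ x, pz (ρ * u)⁻¹ y] a c := by
  rw [← fq2, ← fq2, ← fq_rs e]
  congr 1
  funext i
  fin_cases i <;> rfl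

theorem cm2 (a : Fin 2 → V0 𝒜) (x : Fin 2 → Z4) : cm h b n a x =
    er h b n fun U => ct h b n (lt 𝒜 (a 1)) (tz (x 1) U) * ct h b n (lt 𝒜 (a 0)) (tz (x 0) U) := by
  simp only [cm, Fin.prod_univ_two, mul_comm]

theorem rs2 {D : ℕ} {ρ : ℝ} (e : 1 ≤ ρ) {a c : V0 𝒜} (ha : a ∈ Vp 𝒜 D) (hc : c ∈ Vp 𝒜 D) :
    ‖rs 𝒜 ρ a‖ * ‖rs 𝒜 ρ c‖ ≤ ρ ^ (2 * D) * (‖a‖ * ‖c‖) :=
  (mul_le_mul (rs_le e ha.1).2 (rs_le e hc.1).2 (norm_nonneg _) (by positivity)).trans_eq (by ring)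

section
variable {D r : ℕ} {M R ε ρ C : ℝ} {N : V0 𝒜 →ₗ[ℝ] V0 𝒜} (H : Ce h b n D r M R ε N) (e : 1 ≤ ρ)
  {a c : V0 𝒜} (ha : a ∈ Vp 𝒜 D)
include H e ha

theorem Ce.two (hc : c ∈ Vp 𝒜 D) {z z' : Z4} (d : Ds M R z z') :
    |er h b n (fun U => ct h b n (lt 𝒜 (N (rs 𝒜 ρ c))) (tz ((r : ℤ) • z') U) *
      ct h b n (lt 𝒜 (N (rs 𝒜 ρ a))) (tz ((r : ℤ) • z) U)) -
        Zg.b2 𝒜 ![pz ρ⁻¹ z, pz ρ⁻¹ z'] a c| ≤ ε * ρ ^ (2 * D) * (‖a‖ * ‖c‖) := by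
  have ρ0 : ρ ≠ 0 := by positivity
  have := H.o0 ![z, z'] ![rs 𝒜 ρ a, rs 𝒜 ρ c]
    (Fin.forall_fin_two.2 ⟨(rs_Vp ρ0 D).1 ha, (rs_Vp ρ0 D).1 hc⟩) d
  rw [fq2, fq2_rs ρ0, mul_one, cm2, Fin.prod_univ_two] at this
  rw [mul_assoc]
  exact this.trans (mul_le_mul_of_nonneg_left (rs2 e ha hc) H.e0)

theorem Ce.tp (hC : ∀ a ∈ Vp 𝒜 D, ∀ c ∈ Vp 𝒜 D, ∀ y x : R4, 1 ≤ ‖y - x‖ →
    |Zg.b2 𝒜 ![y, x] a c| ≤ C * (‖a‖ * ‖c‖)) (u : ε * ρ ^ (2 * D) ≤ 1) (v : M ≤ ρ) (μ : Fin 4)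
    {j : ℤ} (j1 : ρ ≤ j) (j2 : j ≤ R) :
    tp h b n μ (ct h b n (lt 𝒜 (N (rs 𝒜 ρ a)))) (ct h b n (lt 𝒜 (N (rs 𝒜 ρ a)))) (r * j) ≤
      (C + 1) * ‖a‖ ^ 2 := by
  have d : Ds ρ R 0 (Pi.single μ j) := by
    refine ⟨⟨μ, by simpa using j1.trans (le_abs_self _)⟩, fun l => ?_⟩
    by_cases k : l = μ
    · simpa [k, abs_of_nonneg (show (0 : ℝ) ≤ j by linarith)] using j2
    · simp [k]
      linarith
  have a1 := H.two e (rB_vp (Wd.rf μ) D ha) ha (d.mono v le_rfl)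
  have a2 := hC _ (rB_vp (Wd.rf μ) D ha) a ha _ _ (d.ge (by positivity) le_rfl)
  simp only [rs_rB, H.eqv, ct_rB, pb_rf, smul_zero, tz_zero, rB_norm, ← Pi.single_smul,
    smul_eq_mul, ← sq] at a1 a2
  unfold Wy.tp
  nlinarith [(abs_le.1 a1).2, (abs_le.1 a2).2, sq_nonneg ‖a‖]

end

variable (𝒜 h) in
theorem Cz.off (D m : ℕ) : ∃ K ≥ (1 : ℝ), ∀ {b : ℝ} {n : ℕ} [NeZero n] {r M R P ε Γ N Hs Pr}
    {pa : B4 → Pr → Pr} {S cp sg},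
    Cz (𝒜 := 𝒜) h b n D m r M R P ε Γ N Hs pa S cp sg → ∀ ρ : ℝ, K * M ≤ ρ → K * ρ ≤ R →
    K * M ^ (m + 2) * ρ ^ (4 * D + 1) * ε ≤ 1 → ∀ x ∈ Γ,
      Nr (Vp 𝒜 D) (N x ∘ₗ rs 𝒜 ρ) (av (rB 𝒜) (N 0) ∘ₗ rs 𝒜 ρ) .id (K / ρ) := by
  obtain ⟨K0, K1, hK⟩ := Cz.eq 𝒜 h D m
  obtain ⟨C, C0, hC⟩ := b2_bd 𝒜 D
  obtain ⟨w, w0, hw⟩ := Zg.nd (𝒜 := 𝒜) D
  obtain ⟨κ, hκ⟩ : ∃ κ, κ = (9 * C + 9) / (w * 64⁻¹ ^ D) := ⟨_, rfl⟩
  have κ0 : 0 ≤ κ := hκ ▸ by positivity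
  refine ⟨12 + K0 + 2 * κ, by linarith,
    fun {b n _ r M R P ε Γ N Hs Pr pa S cp sg} H ρ u1 u2 u3 x hx e he => ?_⟩
  have M1 := H.M1
  have e0 := H.e0
  have r1 : (1 : ℝ) ≤ r := by exact_mod_cast H.r0
  have ρK : 12 + K0 + 2 * κ ≤ ρ := by nlinarith
  have ρM : M ≤ ρ := by nlinarith
  have ρ1 : 1 ≤ ρ := by linarith
  have ρ0 : 0 < ρ := by linarith
  have ρR : 12 * ρ ≤ R := by nlinarith
  obtain ⟨η, hη⟩ : ∃ η, η = K0 * M ^ m * ε * ρ ^ (2 * D) := ⟨_, rfl⟩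
  have η0 : 0 ≤ η := hη ▸ by positivity
  have η1 : η ≤ ρ⁻¹ := by
    rw [← one_div, le_div_iff₀ ρ0, hη, mul_assoc, ← pow_succ, mul_right_comm]
    refine le_trans ?_ u3
    gcongr
    · linarith
    · omega
    · omega
  have i1 : ρ⁻¹ ≤ 1 / 12 := by rw [one_div]; gcongr; linarith
  have η2 : K0 * M ^ 2 * ε ≤ K0 * M ^ m * ε := by have := H.m2; gcongr
  have η3 : K0 * M ^ m * ε ≤ η := hη ▸ le_mul_of_one_le_right (by positivity) (one_le_pow₀ ρ1)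
  obtain ⟨h1, -, h3, h4, h5⟩ := hK H (by linarith)
  have hρ := rs_Vp (𝒜 := 𝒜) ρ0.ne' D
  have hN := ((h5.bij D le_rfl).comp hρ).1
  obtain ⟨e', he', k⟩ := ((h1 x hx D le_rfl).comp hρ).2.2 (hN he)
  refine ⟨e', he', k, ?_⟩
  replace k : N x (rs 𝒜 ρ e') = av (rB 𝒜) (N 0) (rs 𝒜 ρ e) := k
  generalize av (rB 𝒜) (N 0) = N' at *
  obtain ⟨q, q1, q2⟩ : ∃ q : ℕ, ρ ≤ q ∧ q ≤ ρ + 1 := ⟨_, Nat.le_ceil ρ, (Nat.ceil_lt_add_one ρ0.le).le⟩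
  have q3 : 12 ≤ q := by exact_mod_cast (show (12 : ℝ) ≤ q by linarith)
  obtain ⟨z, v, rfl, hv⟩ : ∃ z v : Z4, x = (r : ℤ) • z + v ∧ ∀ l, 0 ≤ v l ∧ v l ≤ r :=
    ⟨fun l => x l / r, fun l => x l % r, funext fun l => (Int.mul_ediv_add_emod _ _).symm, fun l =>
      ⟨Int.emod_nonneg _ (by have := H.r0; omega), (Int.emod_lt_of_pos _ (by have := H.r0; omega)).le⟩⟩
  have hv' (l) : (0 : ℝ) ≤ v l ∧ (v l : ℝ) ≤ r := by exact_mod_cast hv l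
  obtain ⟨y, hy⟩ : ∃ y : Z4, ∀ l, y l = z l - (3 * q + 1) := ⟨_, fun _ => rfl⟩
  have d1 : Ds (3 * q + 1) (3 * q + 1) y z := by
    have this (l) : |(y l - z l : ℝ)| = 3 * q + 1 := by
      rw [hy, abs_sub_comm]
      push_cast
      rw [sub_sub_cancel, abs_of_nonneg (by positivity)]
    exact ⟨⟨0, (this 0).ge⟩, fun l => (this l).le⟩
  have d2 : Ds (ρ * r) (4 * (ρ * r)) ((r : ℤ) • y) ((r : ℤ) • z + v) := by
    have this (l) : |((((r : ℤ) • y) l : ℝ) - ((r : ℤ) • z + v) l : ℝ)| = (3 * q + 1) * r + v l := by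
      have := (hv' l).1
      rw [← abs_of_nonneg (a := (3 * q + 1) * (r : ℝ) + v l) (by positivity), abs_sub_comm]
      simp only [Pi.add_apply, Pi.smul_apply, smul_eq_mul, hy]
      push_cast
      congr 1
      ring
    exact ⟨⟨0, by rw [this]; nlinarith [hv' 0]⟩, fun l => by rw [this]; nlinarith [hv' l]⟩
  have p0 (u : Z4) : pz ρ⁻¹ u = pz (ρ * r)⁻¹ ((r : ℤ) • u) := by
    ext l
    simp only [pz, Pi.smul_apply, smul_eq_mul]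
    push_cast
    field_simp
  have p1 := d2.ge (by positivity) le_rfl
  have p2 := pz_le (u := ρ * r) (by positivity) d2.2
  have p3 := pz_le (u := ρ * r) (T := r) (x := (r : ℤ) • z + v) (y := (r : ℤ) • z) (by positivity)
    fun l => by simpa [abs_of_nonneg (hv' l).1] using (hv' l).2
  have p4 := d1.ge ρ0 (by linarith)
  rw [show 2 * (4 * (ρ * r)) / (ρ * r) = 8 by field_simp; norm_num] at p2
  rw [show 2 * r / (ρ * r) = 2 * ρ⁻¹ by field_simp] at p3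
  rw [p0, p0] at p4
  have n0 := norm_nonneg e
  have n1 := norm_nonneg e'
  have a := hw _ inf_le_left (fun R => r0_vp R D) _ _ (sub_ne_zero.1 (norm_pos_iff.1 (one_pos.trans_le p1))) _
    (Submodule.sub_mem _ he' he) ((8 * C + 7) * ρ⁻¹ * ‖e‖ + (2 + C) * ρ⁻¹ * ‖e'‖) (by positivity)
    fun f hf => ?_
  · have a1 : (64 : ℝ)⁻¹ ≤ min 1 (‖pz (ρ * r)⁻¹ ((r : ℤ) • y) -
        pz (ρ * r)⁻¹ ((r : ℤ) • z + v)‖ ^ 2)⁻¹ :=
      le_min (by norm_num) (inv_anti₀ (by positivity) (by nlinarith))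
    replace a := le_trans (show w * 64⁻¹ ^ D * ‖e' - e‖ ≤ _ by gcongr) a
    rw [eq_div_iff (by positivity)] at hκ
    have w1 : 0 < w * 64⁻¹ ^ D := by positivity
    generalize w * 64⁻¹ ^ D = w' at *
    have a2 : ‖e'‖ ≤ ‖e‖ + ‖e' - e‖ := by linarith [norm_sub_norm_le e' e]
    have a3 : 2 * κ * ρ⁻¹ ≤ 1 := by rw [← div_eq_mul_inv, div_le_one ρ0]; linarith
    have a4 : 0 < ρ⁻¹ := by positivity
    have a5 : (2 + C) * ρ⁻¹ ≤ w' / 2 := by nlinarith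
    have a6 := mul_le_mul_of_nonneg_left a2 (show 0 ≤ (2 + C) * ρ⁻¹ by positivity)
    have a7 := mul_le_mul_of_nonneg_right a5 (norm_nonneg (e' - e))
    rw [LinearMap.id_apply, div_eq_mul_inv]
    refine le_trans (le_of_mul_le_mul_left (?_ : _ ≤ w' * (2 * κ * ρ⁻¹ * ‖e‖)) w1) (by gcongr; linarith)
    rw [show w' * (2 * κ * ρ⁻¹ * ‖e‖) = 2 * (κ * w') * ρ⁻¹ * ‖e‖ by ring, hκ]
    linarith
  obtain ⟨f', f1, f2, f3⟩ := h4 _ (hρ.1 hf)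
  rw [LinearMap.id_apply] at f3
  have n2 := norm_nonneg f
  have bm (c : V0 𝒜) : Weak.BM (ct h b n (lt 𝒜 c)) := ⟨(ct_cont c).measurable, _,
    (BoundedContinuousFunction.mkOfCompact ⟨_, ct_cont c⟩).norm_coe_le_norm⟩
  have dp {c} (hc : c ∈ Vp 𝒜 D) :
      DependsOn (ct h b n (lt 𝒜 (N' (rs 𝒜 ρ c)))) {l | ∀ i, |l.1 i| ≤ r} := fun U V u =>
    congrArg (· - _) (H.rad _ (hN hc) u)
  have t {c} (hc : c ∈ Vp 𝒜 D) (μ) := max_le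
    (h5.tp ρ1 hc (fun a ha c hc y x u => (hC a ha c hc y x u).1) (by linarith) ρM μ (j := q)
      (by exact_mod_cast q1) (by push_cast; linarith))
    (h5.tp ρ1 hc (fun a ha c hc y x u => (hC a ha c hc y x u).1) (by linarith) ρM μ (j := 5 * q + 2)
      (by push_cast; linarith) (by push_cast; linarith))
  have r2 : (1 : ℤ) ≤ r := by exact_mod_cast H.r0
  have s1 := sh_all H.b0 H.odd (k := q) (d := r) (S' := (C + 1) * ‖f‖ ^ 2) (bm _) (bm _) (dp he)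
    (dp hf) (by nlinarith) (by
      have : (r : ℝ) * (5 * q + 2) + 2 * r + 2 ≤ n := by nlinarith [H.vol]
      exact_mod_cast this) (by omega) (t he)
    (fun μ => by
      have := t (rB_vp (Wd.rf μ) D hf) μ
      simpa only [rs_rB, h5.eqv, funext (ct_rB _ _), pb_rf, rB_norm] using this)
    (x := (r : ℤ) • z) (y := (r : ℤ) • y) (v := v) (fun μ => abs_le.2 ⟨by linarith [hv μ], (hv μ).2⟩)
    (fun μ => by simp only [Pi.smul_apply, smul_eq_mul, hy]; linarith)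
    (fun μ => by simp only [Pi.smul_apply, smul_eq_mul, hy]; linarith)
  simp only [sub_mul] at s1
  rw [er_sub (((bm _).comp (meas_tz _)).mul ((bm _).comp (meas_tz _)))
    (((bm _).comp (meas_tz _)).mul ((bm _).comp (meas_tz _)))] at s1
  replace s1 := s1.trans (show _ ≤ 6 * (C + 1) * ρ⁻¹ * (‖f‖ * ‖e‖) by
    have : √(2 * ((C + 1) * ‖e‖ ^ 2) * ((C + 1) * ‖f‖ ^ 2)) ≤ 3 / 2 * (C + 1) * (‖f‖ * ‖e‖) :=
      Real.sqrt_le_iff.2 ⟨by positivity, by nlinarith [sq_nonneg ((C + 1) * (‖f‖ * ‖e‖))]⟩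
    rw [div_eq_mul_inv]
    exact (mul_le_mul (mul_le_mul_of_nonneg_left this (by norm_num)) (inv_anti₀ ρ0 q1)
      (by positivity) (by positivity)).trans_eq (by ring))
  have s2 := h5.two ρ1 hf he (d1.mono (by linarith) (by linarith))
  have d3 := d2.mono (a' := M * r) (b' := R * r) (by gcongr) (by nlinarith)
  have s3 := h3 2 H.m2 ![(r : ℤ) • y, (r : ℤ) • z + v] ![f', rs 𝒜 ρ e'] (Fin.forall_fin_two.2
    ⟨⟨by simpa using H.gp 0 H.g0 y, f1⟩, hx, hρ.1 he'⟩) fun i j u => by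
      fin_cases i <;> fin_cases j
      exacts [(u rfl).elim, d3, d3.symm, (u rfl).elim]
  have s4 := fq2_rs ρ0.ne' r f e' ((r : ℤ) • y) ((r : ℤ) • z + v)
  have s5 := (hC _ (Submodule.sub_mem _ f1 (hρ.1 hf)) _ (hρ.1 he') _ _
    (d2.ge (u := r) (by positivity) (by nlinarith))).1
  have s6 := (hC f hf e he _ _ p4).2 _ p1 (by linarith)
  have s7 := rs2 ρ1 hf he'
  rw [cm2, fq2, Fin.prod_univ_two] at s3
  simp only [Matrix.cons_val_zero, Matrix.cons_val_one, k, f2,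
    show N ((r : ℤ) • y) = N 0 by rw [← H.per 0 y, zero_add]] at s3
  rw [p0, p0, ← hη] at s2
  rw [map_sub, LinearMap.sub_apply, s4] at s5
  rw [map_sub]
  have n3 := norm_nonneg (rs 𝒜 ρ f)
  have n4 := norm_nonneg (rs 𝒜 ρ e')
  have c1 : K0 * M ^ m * ε * (‖rs 𝒜 ρ f‖ * ‖rs 𝒜 ρ e'‖) ≤ ρ⁻¹ * (‖f‖ * ‖e'‖) :=
    (mul_le_mul_of_nonneg_left s7 (by positivity)).trans (by rw [← mul_assoc, ← hη]; gcongr)
  have c2 : ‖f'‖ ≤ 2 * ‖rs 𝒜 ρ f‖ := by nlinarith [norm_sub_norm_le f' (rs 𝒜 ρ f)]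
  have c3 := mul_le_mul_of_nonneg_left (mul_le_mul_of_nonneg_right c2 n4)
    (show 0 ≤ K0 * M ^ m * ε by positivity)
  have c4 := mul_le_mul_of_nonneg_left ((mul_le_mul_of_nonneg_right
    (f3.trans (mul_le_mul_of_nonneg_right η2 n3)) n4).trans ((mul_assoc _ _ _).trans_le c1)) C0
  have c5 := mul_le_mul_of_nonneg_right η1 (mul_nonneg n2 n0)
  have c6 := mul_le_mul_of_nonneg_right (mul_le_mul_of_nonneg_left p3 C0) (mul_nonneg n2 n0)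
  rw [abs_le] at *
  constructor <;> linarith [s1.1, s1.2, s2.1, s2.2, s3.1, s3.2, s5.1, s5.2, s6.1, s6.2]

end Pool.Agent.Lib.MP_7f377f_mp.Kz
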