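import Pool.Agent.Lib.MP_7f377f_mp.G.KzH0
import Pool.Agent.Lib.MP_7f377f_mp.G.KzC

/-! The free side of the Gram test. -/

noncomputable section

set_option linter.unusedSectionVars false
variable [Pool.Agent.Lib.MP_7f377f_mp.GD]

namespace Pool.Agent.Lib.MP_7f377f_mp.RG.Q4.En.Gl

open MeasureTheory Filter Topology YM7 L6 RG.Tl Wy Kz
open Wu (Z4)
open Zg (V0 Og)

variable {G : Gl} {β : ℕ × ℕ → ℝ}

theorem b2_swap {𝒜 : Set CM} [Og 𝒜] (x y : R4) (e f : V0 𝒜) :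
    Zg.b2 𝒜 ![x, y] e f = Zg.b2 𝒜 ![y, x] f e := by
  rw [Zg.b2_eq, Zg.b2_eq, ← (Zf.s_alg (Fin 2) ![y, x]).2.1 (Fin 2) (Equiv.swap 0 1)]
  congr 1 <;> funext i <;> fin_cases i <;> rfl

/-- the pair correlations of the Wick ordered letters are not degenerate -/
theorem Oks.soft (o : G.Oks) (t : G.Tus β) (𝒜 : Set CM) [Og 𝒜] [Adj 𝒜] (s : ℕ) :
    ∀ᶠ C in atTop, ∀ W : ℕ, ∃ c : ℕ, ∀ N w : ℕ, ∀ᶠ k in atTop, ∀ J, G.Sh C k J → ∀ v J' l, J ≤ J' →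
      l ≤ k + w → k ≤ l + w → ∀ x x' : Z4, Ds (G.rt J' l) (G.L k ^ W * G.rt J' l) x x' →
      ∃ φ : V0 𝒜 →ₗ[ℝ] V0 𝒜 →ₗ[ℝ] ℝ, (∀ e ∈ Vp 𝒜 s, ∀ f ∈ Vp 𝒜 s,
        |Kz.cL (Fi.tr haar) (β (v, J)) (G.nn (v, J))
          ![G.zL 𝒜 (β (v, J)) J l e, G.zL 𝒜 (β (v, J)) J l f] ![G.tk x J' J, G.tk x' J' J] - φ e f| ≤
            (G.L k ^ N : ℝ)⁻¹ * ‖e‖ * ‖f‖ ∧ |φ e f| ≤ (G.L k : ℝ) ^ c * ‖e‖ * ‖f‖) ∧
        ∀ d ≤ s, ∀ e ∈ Vp 𝒜 d, ∀ y, 0 ≤ y → (∀ f ∈ Vp 𝒜 d, |φ e f| ≤ y * ‖f‖) →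
          ‖e‖ ≤ (G.L k : ℝ) ^ c * y := by
  obtain ⟨B, B0, hB⟩ := b2_bd 𝒜 s
  obtain ⟨m, m0, hm⟩ := Zg.nd (𝒜 := 𝒜) s
  have h := (o 0).1
  filter_upwards [o.gaussEv t 𝒜 s 2] with C a W
  refine ⟨(W + 1) * 2 * s + 1, fun N w => ?_⟩
  filter_upwards [a N W w, h.ev_L (B + m⁻¹)] with k a1 a2 J sh v J' l hJ l1 l2 x x' d
  have L1 : (1000 : ℝ) ≤ G.L k := h.L1 k
  have r1 := one_rt (G := G) J' l
  have i0 := inv_pos.2 m0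
  have g := d.ge (by linarith) le_rfl
  have p : (1 : ℝ) ≤ G.L k ^ ((W + 1) * 2 * s) := one_le_pow₀ (by linarith)
  refine ⟨Zg.b2 𝒜 ![pz (G.rt J' l : ℝ)⁻¹ x, pz (G.rt J' l : ℝ)⁻¹ x'], fun e he f hf => ⟨?_, ?_⟩,
    fun D hD e he y y0 z => ?_⟩
  · have := a1 J sh v J' l hJ l1 l2 2 le_rfl ![x, x'] ![e, f] (Fin.forall_fin_two.2 ⟨he, hf⟩) (by
      simpa [Fin.forall_fin_two, d, Ds, abs_sub_comm (x' _ : ℝ)] using d)
    rw [fq2, Fin.prod_univ_two, ← mul_assoc] at this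
    refine le_of_eq_of_le ?_ this
    congr 3 <;> funext i <;> fin_cases i <;> rfl
  · rw [mul_assoc, pow_succ _ (_ * s)]
    exact (hB e he f hf _ _ g).1.trans (mul_le_mul_of_nonneg_right
      (((le_add_of_nonneg_right i0.le).trans a2).trans (le_mul_of_one_le_left (by linarith) p)) (by positivity))
  have n := hm (Vp 𝒜 D) (inf_le_left.trans ((Zg.fil 𝒜).mono hD)) (fun R => r0_vp R D)
    (pz (G.rt J' l : ℝ)⁻¹ x') (pz (G.rt J' l : ℝ)⁻¹ x) (fun e => by simp [e] at g; linarith) e he y y0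
    fun f hf => (congrArg _ (b2_swap ..)).trans_le (z f hf)
  have u := pz_le (u := G.rt J' l) (by linarith) d.2
  rw [norm_sub_rev, mul_div_assoc, mul_div_cancel_right₀ _ (by linarith)] at u
  rw [norm_sub_rev] at g
  rw [min_eq_right (inv_le_one_of_one_le₀ (one_le_pow₀ g)), inv_pow, mul_assoc, ← le_inv_mul_iff₀ m0,
    inv_mul_le_iff₀ (by positivity), ← mul_assoc] at n
  refine n.trans (mul_le_mul_of_nonneg_right ?_ y0)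
  rw [pow_succ _ (_ * s), pow_mul, pow_mul]
  gcongr
  · rw [pow_succ']
    exact u.trans (by gcongr; linarith)
  · exact (le_add_of_nonneg_left B0).trans a2

end Pool.Agent.Lib.MP_7f377f_mp.RG.Q4.En.Gl
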