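import Pool.Agent.Lib.MP_7f377f_mp.G.KzY0

/-! Pairs of letters on an axis. -/

noncomputable section

namespace Pool.Agent.Lib.MP_7f377f_mp.Wx
variable [Pool.Agent.Lib.MP_7f377f_mp.GD]
set_option linter.unusedSectionVars false

open MeasureTheory Filter Topology Set Real YM7 Weak L6 Wy Sw Function
open Wu (Z4)

variable {V : Type} [MeasurableSpace SU2] [BorelSpace SU2] {h : Measure SU2} [h.IsHaarMeasure]
  [IsProbabilityMeasure h] {ℓ ε : ℝ}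

theorem er_two {n : ℕ} [NeZero n] {a b : ℝ} {O : V → Fz → ℝ} {c c' : V} (l0 : 0 ≤ ℓ)
    (H : ∀ y : Fin 2 → Z4, (∀ i l, |a * y i l| ≤ ℓ) →
      (∀ i j, i ≠ j → ∃ l, ℓ ≤ |a * y i l - a * y j l|) →
      ‖ex h b n fun U => ∏ i, (O (![c, c'] i) (tz (y i) U) : ℂ)‖ ≤ ε) (μ : Fin 4) (lam : ℤ)
    (e : a * lam = ℓ) : |er h b n fun W => O c (tz (Pi.single μ lam) W) * O c' W| ≤ ε := by
  have := H ![Pi.single μ lam, 0] (fun i l => by
    fin_cases i <;> by_cases u : l = μ <;> simp [u, e, l0, abs_of_nonneg l0]) fun i j u => ⟨μ, by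
      fin_cases i <;> fin_cases j <;> simp [e, abs_of_nonneg l0] at u ⊢⟩
  simp only [← Complex.ofReal_prod, er_ex, Complex.norm_real] at this
  simpa using this

variable {n : ℕ × ℕ → ℕ} [∀ p, NeZero (n p)] {a b : ℕ × ℕ → ℝ} {θ : Fin 4 → V → V}
  {Δ : ℕ × ℕ → Fz → ℝ}

theorem en_two {O : ℕ × ℕ → V → Fz → ℝ} (hF : Fm n a b) (hθ : Lm.Inv4 θ)
    (E : EN h n a b (Oe O Δ) (θe θ) (range Sum.inr)) (x g) (l0 : 0 < ℓ) (e0 : 0 < ε) :
    ∀ᶠ p in fast, ∀ (μ : Fin 4) (lam : ℤ), a p * lam = ℓ → |er h (b p) (n p) fun W =>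
      Oe O Δ p x (tz (Pi.single μ lam) W) * Oe O Δ p (.inr g) W| ≤ ε :=
  (pbn hF (inv4_e hθ) E ![x, .inr g] ⟨1, _, rfl⟩ l0 e0 ℓ).mono fun _ => er_two l0.le

theorem pb_two {O : ℕ × ℕ → V → Fz → ℝ} (H : PB h n a b O) (c c') (l0 : 0 < ℓ) : ∃ C,
    ∀ᶠ p in fast, ∀ (μ : Fin 4) (lam : ℤ), a p * lam = ℓ → |er h (b p) (n p) fun W =>
      O p c (tz (Pi.single μ lam) W) * O p c' W| ≤ C :=
  (H 2 ![c, c'] ℓ l0).imp fun _ e => (e ℓ).mono fun _ => er_two l0.le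

theorem oe_rz {O : ℕ × ℕ → V → Fz → ℝ} (p W) : Oe O Δ p (.inr fun _ => false) W = Δ p W ∧
    Oe O Δ p (.inr fun μ => μ = 0) W = Δ p (rz 0 W) := ⟨rfl, rfl⟩

variable [NormedAddCommGroup V] [NormedSpace ℝ V] {Φ : Fil V} {U : Ultrafilter (ℕ × ℕ)}
  {O : ℕ × ℕ → V →ₗ[ℝ] Fz → ℝ} {A : ℝ → V ≃ₗ[ℝ] V} {fp : ∀ k, (Fin k → V) → (Fin k → R4) → ℝ}

theorem ev_lin (Φ : Fil V) (D : ℕ) {l : Filter (ℕ × ℕ)} {T : V →ₗ[ℝ] V} {τ : Fz → Fz}
    (H : ∀ c, ∀ᶠ p in l, ∀ W, O p (T c) W = O p c (τ W)) :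
    ∀ᶠ p in l, ∀ c ∈ Φ.F D, ∀ W, O p (T c) W = O p c (τ W) := by
  haveI := Φ.fin D
  obtain ⟨N, bs, κ, B⟩ := ex_bs (Φ.F D)
  filter_upwards [eventually_all.2 fun i => H (bs i)] with p u c hc W
  obtain ⟨t, rfl, -⟩ := B.2.2 c hc
  simp [u]

namespace Sd

variable (S : Sd Φ h n a b U O θ A fp)
include S

/-- labels with small two point functions are small -/
theorem small {D : ℕ} {c : ℕ × ℕ → V} (m : ∀ p, c p ∈ Φ.F D) (H : ∀ (e : ℕ) d, ∀ ε > 0, ∀ᶠ p in U,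
    ∀ lam : ℕ, a p * lam = 9 / 3 ^ (e + 1) → |co h (n p) lam (b p) (O p d) (O p (c p))| ≤ ε) :
    Tendsto c U (𝓝 0) := by
  obtain ⟨e, T, K, K0, nd⟩ := S.ndg D
  refine (NormedAddGroup.tendsto_nhds_zero).2 fun ε e0 => ?_
  filter_upwards [nd, S.ex' (e + 1), (eventually_all_finset T).2 fun d _ =>
    H e d (ε / (K * T.card + 1)) (by positivity)] with p nd ⟨l, u, _⟩ v
  refine (nd l u _ (m p)).trans_lt ((mul_le_mul_of_nonneg_left
    (T.sum_le_card_nsmul _ _ fun d hd => v d hd l u) K0).trans_lt ?_)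
  rw [nsmul_eq_mul, ← mul_assoc, ← mul_div_assoc, div_lt_iff₀ (by positivity)]
  linarith

/-- a shift by one lattice unit costs one power of the spacing -/
theorem shift (E : EN h n a b (Oe (fun p c => O p c) Δ) (θe θ) (range Sum.inr))
    (hΔ : ∃ r, ∀ p, Lc r (Δ p)) (e : ℕ) (d : V) : ∃ C, ∀ᶠ p in U, ∀ lam : ℕ,
      a p * lam = 9 / 3 ^ (e + 1) → |er h (b p) (n p) fun W => (Δ p (tz (Pi.single 0 (-1)) W) - Δ p W) *
        O p d (rz 0 (tz (Pi.single 0 (-lam)) W))| ≤ C * a p := by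
  obtain ⟨r, hr⟩ := hΔ
  obtain ⟨r', hr'⟩ := S.pl.loc d
  have l0 : (0 : ℝ) < 9 / 3 ^ (e + 3) := by positivity
  have P := pb S.fm S.inv S.el
  obtain ⟨C, hC⟩ := pb_two P d (θ 0 d) (mul_pos three_pos l0)
  obtain ⟨C', hC'⟩ := pb_two P d (θ 0 d) (ℓ := 18 * (9 / 3 ^ (e + 3))) (by positivity)
  refine ⟨√(2 * 1 * max C C') / (9 / 3 ^ (e + 3)), ?_⟩
  filter_upwards [S.ex' (e + 3), S.dv' e 3 (r + r' + 9), S.le hC, S.le hC', S.le (S.pl.rf 0 d),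
    S.le (en_two S.fm S.inv E (.inr fun _ => false) (fun μ => μ = 0) (mul_pos three_pos l0) one_pos),
    S.le (en_two S.fm S.inv E (.inr fun _ => false) (fun μ => μ = 0)
      (ℓ := 18 * (9 / 3 ^ (e + 3))) (by positivity) one_pos), S.le S.odd, S.le S.fm.b0]
    with p ⟨l, u, _⟩ ⟨a0, v⟩ c1 c2 c3 c4 c5 o b0 lam w
  obtain ⟨-, v, v'⟩ := v l u
  have v := Nat.le_of_dvd (NeZero.pos _) v
  obtain rfl : lam = 9 * l := Nat.cast_injective (mul_left_cancel₀ a0.ne' (by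
    rw [w, Nat.cast_mul, mul_left_comm, u]
    field_simp
    ring))
  have k (t : ℤ) : a p * (t * l : ℤ) = t * (9 / 3 ^ (e + 3)) := by rw [← u]; push_cast; ring
  have s := Sb.box (μ := 0) (.of_continuous (hr' p).1) (hr' p).2
  have := sh_one (h := h) (n := n p) (k := l) (d := 1) (t₁ := 3 * l) (t₂ := 18 * l) (S := 1)
    (S' := max C C') (B := fun W => O p d (rz 0 W)) (x := 0) (y := Pi.single 0 (-(9 * l : ℕ)))
    (δ := -1) b0 o (Sb.box (μ := 0) (.of_continuous (hr p).1) (hr p).2) (by simpa only [rz_rz] using s)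
    (by omega) (by omega) (by omega)
    (max_le (le_of_abs_le (c4 0 _ (k 3))) (le_of_abs_le (c5 0 _ (k 18))))
    (by
      simpa only [rz_rz, tp, c3] using
        max_le_max (le_of_abs_le (c1 0 _ (k 3))) (le_of_abs_le (c2 0 _ (k 18))))
    (by simp) (by simp; omega) (by simp; omega)
  simp only [zero_add, tz_zero] at this
  refine this.trans_eq ?_
  rw [← u]
  field_simp

end Sd

end Pool.Agent.Lib.MP_7f377f_mp.Wx
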