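import Pool.Agent.Lib.MP_7f377f_mp.G.WyH

/-! Null letters and bounded measurable observables. -/

noncomputable section

namespace Pool.Agent.Lib.MP_7f377f_mp.Wy
variable [Pool.Agent.Lib.MP_7f377f_mp.GD]
set_option linter.unusedSectionVars false

open MeasureTheory Set YM7 Weak L6

variable [MeasurableSpace SU2] [BorelSpace SU2] {h : Measure SU2} [h.IsHaarMeasure]
  [IsProbabilityMeasure h] {n R : ℕ} [NeZero n] {b : ℝ} {N : Fz → ℝ}

theorem Nl.bm (H : Nl h b n R N) (c : Continuous N) {F : Cfg n → ℝ} (m : BM F)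
    (d : DependsOn F {e | ∃ i, R < |(e.1 i).valMinAbs|}) :
    ∫ U, N (lf U) * F U ∂wilson h b n = 0 := by
  classical
  obtain ⟨π, c1, p1⟩ : ∃ π : Cfg n → Cfg n, Continuous π ∧ ∀ U e,
      π U e = if ∃ i, (R : ℤ) < |(e.1 i).valMinAbs| then U e else 1 :=
    ⟨fun U e => _, continuous_pi fun e => by split_ifs <;> fun_prop, fun _ _ => rfl⟩
  have cN := c.comp (cont_lf (n := n))
  obtain ⟨M, hM⟩ := isCompact_univ.exists_bound_of_continuousOn cN.continuousOn
  have M0 := (norm_nonneg _).trans (hM 1 trivial)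
  have eF : ∀ U, F U = F (π U) := fun U => d fun e he => ((p1 U e).trans (if_pos he)).symm
  obtain ⟨B, hB⟩ := m.2
  have iF : ∀ (μ : Measure (Cfg n)) [IsFiniteMeasure μ], Integrable F μ := fun μ _ =>
    .of_bound m.1.aestronglyMeasurable B (.of_forall hB)
  refine norm_le_zero_iff.1 (le_of_forall_pos_le_add fun ε ε0 => ?_)
  obtain ⟨g, g1, g2⟩ := (iF ((wilson h b n).map π)).exists_boundedContinuous_integral_sub_le
    (ε := ε / (M + 1)) (by positivity)
  have cg := g.continuous.comp c1
  have z := H _ cg fun U V e => congrArg g (funext fun l => by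
    rw [p1, p1]; split_ifs with q; exacts [e l q, rfl])
  have i : ∀ {f : Cfg n → ℝ}, Integrable f (wilson h b n) →
      Integrable (fun U => N (lf U) * f U) (wilson h b n) := fun a =>
    a.bdd_mul cN.aestronglyMeasurable (.of_forall fun U => hM U trivial)
  have ig := cg.integrable_of_hasCompactSupport (μ := wilson h b n) (.of_compactSpace _)
  rw [integral_map c1.aemeasurable (f := fun x => ‖F x - g x‖)
    ((iF _).sub g2).norm.aestronglyMeasurable] at g1
  rw [zero_add, ← sub_zero (∫ _, _ ∂_), ← z, ← integral_sub (i (iF _)) (i ig)]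
  refine (norm_integral_le_of_norm_le (((iF _).sub ig).norm.const_mul (M + 1))
    (.of_forall fun U => ?_)).trans ?_
  · rw [← mul_sub, norm_mul]
    exact mul_le_mul_of_nonneg_right ((hM U trivial).trans (by linarith)) (norm_nonneg _)
  · rw [integral_const_mul, ← le_div_iff₀' (by linarith)]
    simp only [← eF] at g1
    exact g1

end Pool.Agent.Lib.MP_7f377f_mp.Wy
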