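import Pool.Agent.Lib.MP_7f377f_mp.G.KzN7

/-! The mixed bound for point letters and for words minus their labels. -/

noncomputable section

set_option linter.unusedSectionVars false
variable [Pool.Agent.Lib.MP_7f377f_mp.GD]

namespace Pool.Agent.Lib.MP_7f377f_mp.RG.Q4.En.Gl

open MeasureTheory Filter Topology Set YM7 L6 RG.Tl Wy Kz
open RG.Wd (B4 gv)
open Wu (Z4)
open Zg (V0 Og r0 fil)

variable (G : Gl) (𝒜 : Set CM) [Og 𝒜] (ι : Type) [Fintype ι] [DecidableEq ι] [Inhabited ι]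

/-- the set `L` of letters with weights contains the point letters and the words which merge at
the level `k`, minus their labels -/
structure Ly (s C g a : ℕ) (Z b : ℝ) (J j k : ℕ) [NeZero (G.N J)] (L : Set ((Fz → ℝ) × ℝ)) :
    Prop where
  up : ∀ X w w', (X, w) ∈ L → w ≤ w' → (X, w') ∈ L
  pt : ∀ x ∈ G.Gs J 0, x ∈ box (G.rt J j) → ∀ d, 1 ≤ d → d ≤ s → ∀ c ∈ Vp 𝒜 d, ∀ y > 0,
    (∀ γ, G.Os 𝒜 s C d b J j (gv γ x) (rB 𝒜 γ c) y) → ∀ r : ℝ,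
      (fun W => Kz.ct (Fi.tr haar) b (G.N J) (Kz.lt 𝒜 c) (tz x W) + r, |r| + Z * y) ∈ L
  wd : ∀ D, 1 ≤ D → D ≤ s → ∀ (d : ι → ℕ) (c : ι → V0 𝒜) (r y : ι → ℝ) (x : ι → Z4), ∀ z ∈ G.Gs J 0,
    z ∈ box (G.rt J j) → (∀ l, 1 ≤ d l ∧ d l ≤ s ∧ c l ∈ Vp 𝒜 (d l) ∧ 0 < y l ∧ |r l| ≤ y l ∧
      x l ∈ G.Gs J 0 ∧ x l ∈ box (G.rt J j) ∧ (∀ μ, |x l μ - z μ| ≤ (20 * g * G.sJ J k : ℕ)) ∧
      ∀ γ, G.Os 𝒜 s C (d l) b J k (gv γ (x l)) (rB 𝒜 γ (c l)) (y l)) →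
    (∀ l l', l ≠ l' → ∃ μ, (66 * G.sJ J (k + 1) : ℕ) ≤ |x l μ - x l' μ|) →
    ∃ P, ∃ e ∈ Vp 𝒜 D, P.z = z ∧ P.x = x ∧
      G.Wq s C D b J j k g d c r (fun l => G.L k ^ a * y l) P e ∧ ∃ u : ℝ,
      (fun W => ∏ l, (Kz.ct (Fi.tr haar) b (G.N J) (Kz.lt 𝒜 (c l)) (tz (x l) W) + r l) -
        (Kz.ct (Fi.tr haar) b (G.N J) (Kz.lt 𝒜 e) (tz z W) + u),
        G.L k ^ a * G.Pw D C j k * (∏ l, y l) / G.rt k j ^ (D + 1)) ∈ L

/-- the letters which are combinations of slots, up to constants and null letters -/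
def Lyz (A n g : ℕ) (b : ℝ) (J k j R : ℕ) [NeZero (G.N J)] : Set ((Fz → ℝ) × ℝ) :=
  {X | MP_7f377f_mp.Wx.Lc (4 * G.rt J j) X.1 ∧ ∃ w u, G.Zn b J j (G.Lsl ι A n g 1 b J k j R) X.1 w u ∧
    |u| + (1 + Real.exp (G.Q j)) * w ≤ X.2}

/-- functions of the level which are bounded by a power of `L` -/
def PbL (f : ℕ → ℝ) : Prop := ∃ a : ℕ, ∀ᶠ k in atTop, |f k| ≤ (G.L k : ℝ) ^ a

/-- the loss in the sizes -/
def cY (A n k : ℕ) : ℝ := 3 * (G.QA A k ^ 345 * (G.rt (k + 3) k : ℝ) ^ n)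

/-- the loss in the weights -/
def cZ (A n g s k : ℕ) : ℝ :=
  3 * G.QA A k ^ 345 * G.θW A n g s k (fun _ : ι => G.cY A n k) * (G.rt (k + 3) k : ℝ) ^ n

variable {G} {β : ℕ × ℕ → ℝ}

section
variable {f f' : ℕ → ℝ} {A n g J k j R m u : ℕ} {b : ℝ}

theorem PbL.mul (a : G.PbL f) (a' : G.PbL f') : G.PbL fun k => f k * f' k :=
  let ⟨i, e⟩ := a
  let ⟨i', e'⟩ := a'
  ⟨i + i', (e.and e').mono fun k c => by
    rw [abs_mul, pow_add]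
    exact mul_le_mul c.1 c.2 (abs_nonneg _) (by positivity)⟩

theorem pb_L (i : ℕ) : G.PbL fun k => (G.L k : ℝ) ^ i :=
  ⟨i, .of_forall fun _ => (abs_of_nonneg (by positivity)).le⟩

theorem PbL.pow (a : G.PbL f) (i : ℕ) : G.PbL fun k => f k ^ i :=
  let ⟨c, e⟩ := a
  ⟨c * i, e.mono fun k c => by rw [abs_pow, pow_mul]; gcongr⟩

theorem Ok.pb_c (h : G.Ok) (c : ℝ) : G.PbL fun _ => c :=
  ⟨1, (h.L_top.eventually_ge_atTop |c|).mono fun _ e => by rwa [pow_one]⟩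

theorem Ok.pb_rt (h : G.Ok) (n : ℕ) : G.PbL fun k => (G.rt (k + 3) k : ℝ) ^ n :=
  ⟨3 * n + 1, (h.L_top.eventually_ge_atTop ((27 ^ n : ℕ) : ℝ)).mono fun k e => by
    simpa only [rt_top, Nat.cast_one, mul_one, abs_pow, Nat.abs_cast] using
      h.rt3 (Nat.cast_le.1 e) le_rfl⟩

theorem Ok.pb_Y (h : G.Ok) (A n : ℕ) : G.PbL (G.cY A n) :=
  (h.pb_c 3).mul (((pb_L _).pow _).mul (h.pb_rt n))

theorem Ok.pb_Z (h : G.Ok) (A n g s : ℕ) : G.PbL (G.cZ ι A n g s) := by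
  unfold cZ θW
  simp only [Finset.prod_const]
  exact (((h.pb_c 3).mul ((pb_L _).pow _)).mul ((pb_L _).mul ((h.pb_c 4).mul (((h.pb_c _).mul
    ((pb_L _).pow _)).mul (((((pb_L _).pow _).mul (h.pb_Y A n)).mul (h.pb_rt n)).pow _))))).mul
      (h.pb_rt n)

/-- the cells of a high level are small -/
theorem Ok.sJ_ev (h : G.Ok) (j c : ℕ) : ∀ᶠ k in atTop, ∀ J ≥ k, c * G.sJ J k ≤ G.rt J j := by
  filter_upwards [h.ev_rt j 1 c, h.bb_ev G.K0, eventually_ge_atTop j] with k a e jk J kJ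
  rw [sJ, h.rt_rt jk kJ, ← mul_assoc, mul_comm (G.rt J k)]
  refine Nat.mul_le_mul_right _ (Nat.cast_le (α := ℝ).1 (le_trans ?_ a))
  push_cast
  rw [pow_one]
  gcongr

theorem Aok.e0_lyz [NeZero (G.N J)] (a : G.Aok ι A n g 1 b J k j R)
    (hg : (20 * g + 21) * G.sJ J k ≤ 6 * G.sJ J j) (hn : G.N j = m * u) (hu : G.dZ j + 1 < u) :
    Wy.E0 (Fi.tr haar) b (G.N J) (G.rt J j * u) Prod.fst (G.Lyz ι A n g b J k j R) Prod.snd
      (G.vlZ u j) := by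
  have : (Fi.tr haar).IsHaarMeasure := (inferInstance : haar.IsHaarMeasure)
  choose! w κ h1 h2 using fun X (h : X ∈ G.Lyz ι A n g b J k j R) => h.2
  exact (a.ok.e0_az a.t (a.le.trans a.lt.le) hn hu (az_of a hg h1) fun _ h => h.1).comb
    (fun _ h => h.1.1.sub continuous_const)
    (fun c h => mul_nonneg (by positivity) ((h1 c h).nn lw_c)) fun c h =>
      ⟨{c}, 1, κ c, by simpa using h, by simpa using h2 c h, fun U => by simp⟩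

variable {𝒜 ι} {s C D d : ℕ} {M δ K : ℝ} {x : St} {c : V0 𝒜}

theorem Wq.mono [NeZero (G.N J)] {d : ι → ℕ} {c : ι → V0 𝒜} {r y y' : ι → ℝ} {P : Ptw ι} {e : V0 𝒜}
    (q : G.Wq s C D b J j k g d c r y P e) (h : ∀ l, y l ≤ y' l) :
    G.Wq s C D b J j k g d c r y' P e :=
  ⟨q.gs, q.near, q.far, fun l => (q.lt l).imp fun _ a => ⟨a.1, a.2.1, a.2.2.trans (h l)⟩, q.a,
    fun l => (q.ce l).trans (h l), q.im⟩

theorem Fw.lc_ct [NeZero (G.N J)] (W : G.Fw 𝒜 s C M R δ K b J j) (hc : c ∈ Vp 𝒜 d) (hd : d ≤ s)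
    (hx : x ∈ box (G.rt J j)) (r : ℝ) : MP_7f377f_mp.Wx.Lc (4 * G.rt J j) fun U =>
      Kz.ct (Fi.tr haar) b (G.N J) (Kz.lt 𝒜 c) (tz x U) + r :=
  have e := ((W.lc c ((fil 𝒜).mono (by omega) hc.1)).tz fun i => abs_le.2 (Op.mem_box.1 hx i)).mono
    (show _ ≤ 4 * G.rt J j by have := W.rad; omega)
  ⟨(e.1.sub continuous_const).add continuous_const, fun _ _ u => congrArg (· - _ + r) (e.2 u)⟩

theorem Fw.ly [Adj 𝒜] [NeZero (G.N J)] (W : G.Fw 𝒜 s C M R δ K b J j)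
    (a : G.Aok ι A n g 1 b J k j R) (hm : G.N j = m * u) (hu : G.dZ j + 1 < u) (uo : Odd u)
    (hR : R + 4 ≤ G.rt J j) (hn : s + 11 ≤ n) (hA : s + 8 ≤ A) (hL : 27 ^ n ≤ G.L j)
    (hJ : ∀ d ≤ s + 2, K / G.ka (s + 1) C J ^ d ≤ G.rt J k) (hk : 2 * G.wZ u j ≤ 2 ^ (k + 1 - j))
    (hs : (20 * g + 21) * G.sJ J k ≤ G.rt J j) (h1 : G.cY A n k ≤ G.L k ^ d)
    (h2 : (1 + Real.exp (G.Q j)) * G.cZ ι A n g s k ≤ G.L k ^ d) :
    G.Ly 𝒜 ι s C g d ((G.wZ u j + (1 + Real.exp (G.Q j))) * G.cL A n j) b J j k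
      (G.Lyz ι A n g b J k j R) := by
  have h := a.ok
  have s1 : G.rt J j ≤ G.sJ J j := Nat.le_mul_of_pos_left _ (pow_pos (by linarith [h.L_big j]) _)
  have s2 := h.sJ_anti k.le_succ a.lt
  refine ⟨fun X w w' e c => ⟨e.1, e.2.imp fun _ => .imp fun _ e => ⟨e.1, e.2.trans c⟩⟩,
    fun x gs hx d d1 d2 c hc y y0 o r => ?_, fun D D1 D2 d c r y x z gs hz e far => ?_⟩
  · obtain ⟨v, v1, v2⟩ := W.pt hm hu uo hR hx a (by omega) (gs_mono gs j.zero_le) d1 (by omega)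
      (by omega) hL ((hJ d (by omega)).trans (Nat.cast_le.2 (h.rt_rt a.le a.lt.le ▸
        Nat.le_mul_of_pos_right _ (pow_pos three_pos _)))) y0 ((fil 𝒜).mono (by omega) hc.1) o
    refine ⟨W.lc_ct hc d2 hx r, _, _, v2.add lw_c (.const r), ?_⟩
    linarith [abs_add_le v r]
  · have y0 := fun l => (e l).2.2.2.1.le
    obtain ⟨P, f, hf, p1, p2, q, v, Z⟩ := W.wd hm hu uo hR hz a hn hA hJ hk (by nlinarith) D1
      (by omega : D ≤ s + 2) gs (fun l => ⟨(e l).1, by have := (e l).2.1; omega, (e l).2.2⟩) far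
      (y' := fun l => G.cY A n k * y l) fun _ => le_rfl
    have c := fun l => W.lc_ct (e l).2.2.1 (e l).2.1 (e l).2.2.2.2.2.2.1 (r l)
    have c' := W.lc_ct hf D2 hz v
    refine ⟨P, f, hf, p1, p2, q.mono fun l => mul_le_mul_of_nonneg_right h1 (y0 l), v,
      ⟨Z.1, fun _ _ u => congrArg₂ (· - ·) (Finset.prod_congr rfl fun l _ => (c l).2 u) (c'.2 u)⟩,
      _, _, Z, ?_⟩
    have := h.Pw1 D C j k
    have := Finset.prod_nonneg fun l (_ : l ∈ Finset.univ) => y0 l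
    calc _ = (1 + Real.exp (G.Q j)) * G.cZ ι A n g s k * G.Pw D C j k * (∏ l, y l) /
          G.rt k j ^ (D + 1) := by
          simp only [cZ, oW, θW, mul_right_comm _ (y _), ← mul_assoc _ _ (y _),
            Finset.prod_mul_distrib, abs_zero]
          ring
      _ ≤ _ := div_le_div_of_nonneg_right (mul_le_mul_of_nonneg_right
          (mul_le_mul_of_nonneg_right h2 (by linarith)) this) (by positivity)

end

theorem Oks.slots [Adj 𝒜] (o : G.Oks) (tu : G.Tus β) (q : G.HP Sd.StA) {s : ℕ} (hs : 2 ≤ s) (g : ℕ) :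
    ∀ᶠ C in atTop, ∃ a, ∀ᶠ j in atTop, ∀ u, Odd u → G.dZ j + 1 < u → ∃ Z ≥ (0 : ℝ),
      ∀ᶠ k in atTop, ∀ᶠ J in atTop, ∀ m m', (G.wm m).N j = m' * u → ∃ L,
        Wy.E0 (Fi.tr haar) (β (m, J)) (G.nn (m, J)) (G.rt J j * u) Prod.fst L Prod.snd (G.vlZ u j) ∧
        (G.wm m).Ly 𝒜 ι s C g a Z (β (m, J)) J j k L := by
  have h := (o 0).1
  obtain ⟨A, hA, hA'⟩ : ∃ A, s + 8 ≤ A ∧ 2 * (g + 1) * Fintype.card ι * (s + 11 + 1) ≤ A :=
    ⟨_, le_max_left _ _, le_max_right _ _⟩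
  obtain ⟨a1, e1⟩ := h.pb_Y A (s + 11)
  obtain ⟨a2, e2⟩ := h.pb_Z ι A (s + 11) g s
  filter_upwards [o.fw (𝒜 := 𝒜) q tu hs 0] with C ⟨M, R, _, e⟩
  obtain ⟨δ, -, K, e⟩ := e 1 one_pos
  refine ⟨a1 + a2 + 1, ?_⟩
  filter_upwards [e, o.aok (κ := ι) q tu A (s + 11) R] with j e ⟨hL, ea⟩ u uo hu
  refine ⟨(G.wZ u j + (1 + Real.exp (G.Q j))) * G.cL A (s + 11) j, mul_nonneg (add_nonneg
    (wZ_pos u j).le (by positivity)) (cL_pos h A _ j).le, ?_⟩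
  filter_upwards [e1, e2, h.sJ_ev j (20 * g + 21), eventually_ge_atTop j,
    h.L_top.eventually_ge_atTop (1 + Real.exp (G.Q j)),
    ((tendsto_pow_atTop_atTop_of_one_lt one_lt_two).comp ((tendsto_sub_atTop_nat j).comp
      (tendsto_add_atTop_nat 1))).eventually_ge_atTop (2 * G.wZ u j)] with k b1 b2 b3 jk b4 b5
  filter_upwards [e, ea k jk, (Finset.range (s + 3)).eventually_all.2 fun d _ =>
    h.ka_far (s + 1) C d k K, h.ev_rt j 0 (R + 4 : ℕ)] with J W a hJ hR m m' hm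
  have a := a m j g 1 le_rfl jk hA' zero_le_one
  have L1 : (1 : ℝ) ≤ G.L k := by linarith [show _ ≤ (G.L k : ℝ) from h.L1 k]
  have hs := b3 J a.lt.le
  refine ⟨_, a.e0_lyz ι (hs.trans ((Nat.le_mul_of_pos_left _ (pow_pos (by
    linarith [a.ok.L_big j]) _)).trans (Nat.le_mul_of_pos_left _ (by norm_num)))) hm hu,
    (W m).ly a hm hu uo (Nat.cast_le (α := ℝ).1 (by rwa [pow_zero, mul_one] at hR)) le_rfl hA hL
      (fun d e => hJ d (Finset.mem_range.2 (by omega))) b5 hs (((le_abs_self _).trans b1).trans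
        (pow_le_pow_right₀ L1 (by omega))) ?_⟩
  exact (mul_le_mul_of_nonneg_left (le_abs_self _) (by positivity)).trans ((mul_le_mul b4 b2
    (abs_nonneg _) (Nat.cast_nonneg _)).trans ((pow_succ' _ _).ge.trans
      (pow_le_pow_right₀ L1 (by omega))))

/-- sizes at higher levels -/
theorem Oks.os_up [Adj 𝒜] (o : G.Oks) (tu : G.Tus β) (q : G.HP Sd.StA) {s : ℕ} (hs : 2 ≤ s) :
    ∀ᶠ C in atTop, ∀ᶠ j in atTop, ∀ᶠ J in atTop, ∀ m, ∀ x ∈ G.Gs J j, ∀ d, 1 ≤ d → d ≤ s → ∀ c y k,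
      j ≤ k → k ≤ J → (G.wm m).Os 𝒜 s C d (β (m, J)) J j x c y →
        (G.wm m).Os 𝒜 s C d (β (m, J)) J k x c (G.Pw d C j k * G.rt k j ^ d * y) := by
  filter_upwards [o.fw (𝒜 := 𝒜) q tu hs 0] with C ⟨M, R, _, e⟩
  obtain ⟨δ, -, K, e⟩ := e 1 one_pos
  filter_upwards [e] with j e
  filter_upwards [e] with J e m x hx d d1 d2 c y k h1 h2 a
  exact (e m).os_up hx d1 (by omega) le_rfl h1 h2 a

end Pool.Agent.Lib.MP_7f377f_mp.RG.Q4.En.Gl
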