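import Pool.Agent.Lib.MP_7f377f_mp.G.KzO3
import Pool.Agent.Lib.MP_7f377f_mp.G.KzN5
import Pool.Agent.Lib.MP_7f377f_mp.G.KyB

/-! Levels, sites and numbers for the remainder of the expansion. -/

noncomputable section

set_option linter.unusedSectionVars false
variable [Pool.Agent.Lib.MP_7f377f_mp.GD]

namespace Pool.Agent.Lib.MP_7f377f_mp.RG.Q4.En.Gl

open Filter Topology Set YM7 L6 RG.Tl Wy Kz
open RG.Wd (B4 gv)
open Wu (Z4)

attribute [local irreducible] box rc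

/-- the losses at the level of the merging -/
def gW (G : Gl) (A n g s k : ℕ) : ℝ := G.Q k ^ 100 * (G.rt (k + 3) k : ℝ) ^ n * G.cL A n k *
  (3 * G.QA A k ^ 345) * G.θW A n g s k fun _ : Fin 2 => 1

omit [GD] in
theorem pb_num {T Λ X g r ρ P τ F η κ C x y : ℝ} {a c D D₁ w : ℕ} (T0 : 0 < T) (Λ1 : 1 ≤ Λ)
    (hX : Λ ≤ X) (g0 : 0 ≤ g) (r1 : 1 ≤ r) (hr : r ≤ X ^ w) (ρ1 : 1 ≤ ρ) (P0 : 0 ≤ P) (hP : P ≤ ρ)
    (τ0 : 0 ≤ τ) (hτ : 1 ≤ τ * (r * ρ)) (hF : g * X ^ (2 * c + 2 * a + D + 2 * w * D) ≤ F)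
    (κ0 : 0 ≤ κ) (C0 : 0 ≤ C) (x0 : 0 ≤ x) (y0 : 0 ≤ y) (hD : D ≤ D₁)
    (h1 : Real.exp 4 * F * P ≤ η / 2 * ρ) (h2 : κ * (7 + C) * F * ρ ^ (2 * D + 1) ≤ η / 2) :
    T ^ 3 * (g * (Λ ^ c / T * (r ^ D * x)) * (Real.exp 4 * (P / ρ ^ (D₁ + 1)) * (Λ ^ a * T⁻¹) ^ 2 +
      κ * ((P + 6) * (Λ ^ a * T⁻¹) ^ 2 + Λ ^ c / T * (T⁻¹ * ((X * ρ) ^ D * (C * y)))))) ≤
      η * (1 + y) * τ ^ D * x := by
  have X1 := Λ1.trans hX
  have u : (ρ ^ D)⁻¹ ≤ (τ * r) ^ D := by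
    rw [← inv_pow]
    exact pow_le_pow_left₀ (by positivity) ((inv_le_iff_one_le_mul₀ (by linarith)).2 (by linarith)) _
  have e : g * Λ ^ c * r ^ D * r ^ D * (Λ ^ a) ^ 2 * (Λ ^ c * X ^ D) ≤ F := le_trans (by
    calc _ ≤ g * X ^ c * (X ^ w) ^ D * (X ^ w) ^ D * (X ^ a) ^ 2 * (X ^ c * X ^ D) := by gcongr
      _ = _ := by ring) hF
  have z : 1 ≤ Λ ^ c * X ^ D := one_le_mul_of_one_le_of_one_le (one_le_pow₀ Λ1) (one_le_pow₀ X1)
  have z' : 1 ≤ (Λ ^ a) ^ 2 := one_le_pow₀ (one_le_pow₀ Λ1)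
  have z'' : 1 ≤ ρ ^ D := one_le_pow₀ ρ1
  have a1 : P / ρ ^ (D₁ + 1) ≤ P / ρ * (τ * r) ^ D * (Λ ^ c * X ^ D) :=
    calc _ ≤ P / ρ ^ (D + 1) := by gcongr
      _ = P / ρ * (ρ ^ D)⁻¹ * 1 := by field_simp; ring
      _ ≤ _ := by gcongr
  have a2 : (P + 6) * (Λ ^ a) ^ 2 + Λ ^ c * ((X * ρ) ^ D * (C * y)) ≤
      (7 + C) * (1 + y) * ((Λ ^ a) ^ 2 * (Λ ^ c * X ^ D) * ρ ^ (2 * D + 1) * (τ * r) ^ D) :=
    calc _ ≤ 7 * (ρ * (Λ ^ a) ^ 2 * 1 * 1) + C * y * (1 * 1 * (Λ ^ c * X ^ D) * ρ ^ D) := by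
          rw [mul_pow]; nlinarith
      _ ≤ 7 * (ρ * (Λ ^ a) ^ 2 * (Λ ^ c * X ^ D) * ρ ^ D) +
          C * y * (ρ * (Λ ^ a) ^ 2 * (Λ ^ c * X ^ D) * ρ ^ D) := by gcongr
      _ = (7 + C * y) * ((Λ ^ a) ^ 2 * (Λ ^ c * X ^ D) * ρ ^ (2 * D + 1) * (ρ ^ D)⁻¹) := by
          field_simp
          ring
      _ ≤ _ := by gcongr; nlinarith
  have b1 : Real.exp 4 * F * (P / ρ) ≤ η / 2 := by rwa [← mul_div_assoc, div_le_iff₀ (by linarith)]
  have F0 : 0 ≤ F := le_trans (by positivity) e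
  have η0 : 0 ≤ η := by
    linarith [show 0 ≤ Real.exp 4 * F * (P / ρ) by positivity]
  calc _ = g * Λ ^ c * r ^ D * (Real.exp 4 * (P / ρ ^ (D₁ + 1)) * (Λ ^ a) ^ 2 +
        κ * ((P + 6) * (Λ ^ a) ^ 2 + Λ ^ c * ((X * ρ) ^ D * (C * y)))) * x := by field_simp
    _ ≤ g * Λ ^ c * r ^ D * (Real.exp 4 * (P / ρ * (τ * r) ^ D * (Λ ^ c * X ^ D)) * (Λ ^ a) ^ 2 +
        κ * ((7 + C) * (1 + y) * ((Λ ^ a) ^ 2 * (Λ ^ c * X ^ D) * ρ ^ (2 * D + 1) *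
          (τ * r) ^ D))) * x := by gcongr
    _ = (Real.exp 4 * (g * Λ ^ c * r ^ D * r ^ D * (Λ ^ a) ^ 2 * (Λ ^ c * X ^ D)) * (P / ρ) * 1 +
        κ * (7 + C) * (g * Λ ^ c * r ^ D * r ^ D * (Λ ^ a) ^ 2 * (Λ ^ c * X ^ D)) * ρ ^ (2 * D + 1) *
          (1 + y)) * τ ^ D * x := by ring
    _ ≤ (Real.exp 4 * F * (P / ρ) * (1 + y) + κ * (7 + C) * F * ρ ^ (2 * D + 1) * (1 + y)) *
        τ ^ D * x := by gcongr; linarith
    _ ≤ (η / 2 * (1 + y) + η / 2 * (1 + y)) * τ ^ D * x := by gcongr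
    _ = _ := by ring

variable {G : Gl} {A n g s D C i j k l J : ℕ} {v : St}

theorem θW_eq (y : Fin 2 → ℝ) :
    G.θW A n g s k y = G.θW A n g s k (fun _ : Fin 2 => 1) * (y 0 * y 1) := by
  simp only [θW, Fin.prod_univ_two]
  ring

namespace Ok

variable (h : G.Ok)
include h

theorem pb_gW (A n g s : ℕ) : G.PbL (G.gW A n g s) := by
  have q := fun i => (pb_L (G := G) (G.K + A)).pow i
  have r := ((q 345).mul (h.pb_c 1)).mul (h.pb_rt n)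
  unfold gW θW
  simp only [Fin.prod_univ_two]
  exact (((((pb_L _).pow _).mul (h.pb_rt n)).mul ((q _).mul (pb_L _))).mul ((h.pb_c 3).mul (q _))).mul
    ((pb_L _).mul ((h.pb_c 4).mul (((h.pb_c _).mul (q _)).mul (r.mul r))))

theorem one_θW : 1 ≤ G.θW A n g s k fun _ : Fin 2 => 1 := by
  have l : ∀ i, (1 : ℝ) ≤ (G.L k : ℝ) ^ i := fun i => one_le_pow₀ (by linarith [h.L1 k])
  have m : ∀ {x y : ℝ}, 1 ≤ x → 1 ≤ y → 1 ≤ x * y := one_le_mul_of_one_le_of_one_le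
  have r := m (m (one_le_pow₀ (n := 345) (l (G.K + A))) le_rfl) (one_le_pow₀ (n := n) (one_rt (G := G) (k + 3) k))
  rw [θW, Fin.prod_univ_two]
  exact m (l _) (m (by norm_num) (m (m (Real.one_le_exp (by positivity)) (one_le_pow₀ (l _))) (m r r)))

theorem gW_nn : 0 ≤ G.gW A n g s k :=
  mul_nonneg (mul_nonneg (mul_nonneg (mul_nonneg (pow_pos (h.Q0 k) _).le (by positivity))
    (cL_pos h A n k).le) (mul_nonneg zero_le_three (pow_nonneg (pow_nonneg (Nat.cast_nonneg _) _) _)))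
    (zero_le_one.trans h.one_θW)

/-- the bound for a pair in terms of the losses at the level of the merging -/
theorem pair_le (hl : l ≤ k) {y : Fin 2 → ℝ} {y₀ y₁ κ : ℝ} (y0 : 0 ≤ y₀) (y1 : 0 ≤ y₁) (κ0 : 0 ≤ κ)
    (p : ∀ i, 0 ≤ y i) : G.Q l ^ 100 * (G.rt (k + 3) k : ℝ) ^ n * (G.cL A n l * y₁) *
      (Real.exp 4 * G.oW A n g s C D k y l + κ * ((2 ^ (l - j))⁻¹ *
        G.cW' A n g s C D k l y (3 * G.θW A n g s k y + y₀))) ≤
      G.gW A n g s k * y₁ * (Real.exp 4 * (G.Pw D C l k / (G.rt k l : ℝ) ^ (D + 1)) * (y 0 * y 1) +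
        κ / 2 ^ (l - j) * ((G.Pw D C l k + 6) * (y 0 * y 1) + y₀)) := by
  have a := h.one_θW (A := A) (n := n) (g := g) (s := s) (k := k)
  have b : G.cL A n l ≤ G.cL A n k := by
    have : (G.L l : ℝ) ≤ G.L k := Nat.cast_le.2 (h.L_mono hl)
    unfold cL QA
    gcongr
  have c := pow_le_pow_left₀ (h.Q0 l).le (h.Q_mono hl) 100
  have c0 := pow_pos (h.Q0 l) 100
  have b0 := cL_pos h A n l
  have := h.Pw1 D C l k
  have := mul_nonneg (p 0) (p 1)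
  have : 0 ≤ 3 * G.QA A k ^ 345 := mul_nonneg zero_le_three (pow_nonneg (pow_nonneg (Nat.cast_nonneg _) _) _)
  rw [oW, cW', θW_eq, gW]
  generalize (G.θW A n g s k fun _ : Fin 2 => 1) = θ at *
  generalize 3 * G.QA A k ^ 345 = q at *
  generalize G.Q l ^ 100 = Q at *
  generalize G.Q k ^ 100 = Q' at *
  generalize y 0 * y 1 = Y at *
  generalize G.cL A n l = c₁ at *
  generalize G.cL A n k = c₂ at *
  generalize G.Pw D C l k = P at *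
  calc _ ≤ Q' * (G.rt (k + 3) k : ℝ) ^ n * (c₂ * y₁) *
        (Real.exp 4 * (q * (P / (G.rt k l : ℝ) ^ (D + 1) * (θ * Y))) +
          κ * ((2 ^ (l - j))⁻¹ * (q * ((P + 3) * (θ * Y) + (3 * (θ * Y) + θ * y₀))))) := by
        have := c0.trans_le c
        have := b0.trans_le b
        gcongr
        exact le_mul_of_one_le_left y0 a
    _ = _ := by ring

/-- the choice of the level of the test letter -/
theorem lev (D E m w j n₀ : ℕ) (C0 : C ≠ 0) (K K' : ℝ) : ∃ n ≥ n₀, ∀ η > (0 : ℝ), ∀ᶠ l in atTop,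
    ∀ k, l + n ≤ k → k ≤ l + n + w → G.Pw D C l k ≤ G.rt k l ∧
      K * G.L k ^ E * G.Pw D C l k ≤ η * G.rt k l ∧
      K' / 2 ^ (l - j) * G.L k ^ E * G.rt k l ^ m ≤ η := by
  refine ⟨n₀ + (4 * E + 2), le_self_add, fun η η0 => ?_⟩
  generalize hn : n₀ + (4 * E + 2) = n
  obtain ⟨k0, pw⟩ := h.Pw_ev D C 2 C0
  filter_upwards [eventually_ge_atTop k0, eventually_ge_atTop j, h.ev_L (3 ^ (n + w)),
    h.ev_L (|K| / η), h.ev_L |K'|, h.bb_ev (1 + 2 * E + 2 * (n + w) * m),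
    h.sch.grow.eventually_le_const (show 0 < η / 2 ^ j by positivity)] with l a0 a1 a2 a3 a4 a5 a6 k k1 k2
  have l1 := h.L1 l
  have b1 : (G.L k : ℝ) ≤ G.L l ^ 2 := by
    have : (G.L k : ℝ) ≤ 3 ^ (n + w) * G.L l := by
      exact_mod_cast (h.L_mono (by omega)).trans (h.L_add l (n + w))
    nlinarith
  have b2 : (G.L l : ℝ) ^ (4 * E + 2) ≤ G.rt k l := by
    exact_mod_cast (Nat.pow_le_pow_right (by linarith [h.L_big l]) (by omega)).trans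
      (h.le_rt l (by omega))
  have b3 : (G.rt k l : ℝ) ≤ (G.L l ^ 2) ^ (n + w) :=
    calc _ ≤ (G.L k : ℝ) ^ (k - l) := by exact_mod_cast h.rt_le l (by omega)
      _ ≤ (G.L l ^ 2) ^ (k - l) := by gcongr
      _ ≤ _ := pow_le_pow_right₀ (by nlinarith) (by omega)
  have p := pw l a0 k (by omega)
  have p1 := h.Pw1 D C l k
  have b4 : (G.L l : ℝ) ^ (2 * E + 1) * G.Pw D C l k ≤ G.rt k l :=
    (pow_le_pow_iff_left₀ (by positivity) (by positivity) two_ne_zero).1 (by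
      rw [mul_pow, ← pow_mul, sq (G.rt k l : ℝ), show (2 * E + 1) * 2 = 4 * E + 2 by ring]
      gcongr)
  refine ⟨by nlinarith, ?_, ?_⟩
  · calc _ ≤ η * G.L l * (G.L l ^ 2) ^ E * G.Pw D C l k := by
          gcongr
          rw [div_le_iff₀' η0] at a3
          exact (le_abs_self _).trans a3
      _ = η * ((G.L l : ℝ) ^ (2 * E + 1) * G.Pw D C l k) := by ring
      _ ≤ _ := by gcongr
  · calc _ ≤ (G.L l : ℝ) / 2 ^ (l - j) * (G.L l ^ 2) ^ E * ((G.L l ^ 2) ^ (n + w)) ^ m := by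
          gcongr
          exact (le_abs_self _).trans a4
      _ = (G.L l : ℝ) ^ (1 + 2 * E + 2 * (n + w) * m) * ((1 / 2) ^ l * 2 ^ j) := by
          rw [pow_sub₀ _ two_ne_zero a1, one_div, inv_pow]
          field_simp
          ring
      _ ≤ G.bb l * ((2 / 3) ^ l * 2 ^ j) := by
          have := h.b0 l
          have : (1 / 2 : ℝ) ≤ 2 / 3 := by norm_num
          gcongr
      _ ≤ _ := by rwa [← mul_assoc, ← le_div_iff₀ (by positivity)]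

theorem sJ_lin (x : ℕ) (hJ : l + x ≤ J) : (x + 1) * G.sJ J (l + x) ≤ G.sJ J l := by
  induction x with
  | zero => simp
  | succ x ih =>
    have := h.sJ_step (show l + x < J from hJ)
    have := ih (by omega)
    rw [← add_assoc]
    nlinarith

/-- the site of the test letter -/
theorem geo2 {κ : ℕ} {z : St} (hj : j ≤ i) (hl : l = i + 1 + (2 * G.K0 + 3)) (hκ : κ = l + n)
    (hn : 20 * g + 21 ≤ n) (hk : κ ≤ k) (hJ : k ≤ J) (v1 : v ∈ box (G.rt J (κ - 2) / 2))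
    (v2 : ∀ l ≤ κ - 3, G.tk v J l = 0) (v3 : v ∈ G.Gs J 0)
    (hz : z = (G.rt J κ : ℤ) • Pi.single 0 (G.rt κ (i + 1) : ℤ)) :
    v + z ∈ G.Gs J 0 ∧ (v ∈ box (G.sJ J j) ∧ v + z ∈ box (G.sJ J j)) ∧
      (∃ μ, (22 * (G.L l * G.sJ J l) : ℕ) ≤ |z μ|) ∧ (20 * g + 21) * G.sJ J k ≤ G.sJ J l := by
  have e : z = (G.rt J (i + 1) : ℤ) • Pi.single 0 1 := by
    rw [hz, h.rt_rt (show i + 1 ≤ κ by omega) (hk.trans hJ), ← Pi.single_smul', ← Pi.single_smul']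
    simp
  have iJ : i + 1 ≤ J := by omega
  have a1 : G.rt J (κ - 2) ≤ G.rt J (i + 1) := by
    rw [h.rt_rt (show i + 1 ≤ κ - 2 by omega) (by omega)]
    exact Nat.le_mul_of_pos_right _ (pow_pos three_pos _)
  have a2 : 2 * G.rt J (i + 1) ≤ G.sJ J j := by
    have := (h.LK0 j).1
    rw [sJ, h.rt_rt (show j ≤ i + 1 by omega) iJ]
    exact Nat.mul_le_mul (by omega) (Nat.le_mul_of_pos_right _ (pow_pos three_pos _))
  have a3 : 22 * (G.L l * G.sJ J l) ≤ G.rt J (i + 1) := by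
    have b1 := h.le_rt (i + 1) (show i + 1 ≤ l by omega)
    have b2 := h.L_add (i + 1) (2 * G.K0 + 3)
    have b3 := h.three_L (i + 1) (i := 2 * G.K0 + 3) (by omega)
    have b4 := h.L_big (i + 1)
    rw [← hl] at b2
    rw [h.rt_rt (show i + 1 ≤ l by omega) (by omega), sJ, ← mul_assoc, ← mul_assoc, mul_comm]
    refine Nat.mul_le_mul_left _ (le_trans ?_ b1)
    calc _ ≤ G.L (i + 1) * G.L (i + 1) ^ 2 * (G.L (i + 1) ^ 2) ^ G.K0 := by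
          have : G.L l ≤ G.L (i + 1) ^ 2 :=
            sq (G.L (i + 1)) ▸ b2.trans (Nat.mul_le_mul_right _ (by omega))
          gcongr
          omega
      _ = _ := by rw [show l - (i + 1) = 2 * G.K0 + 3 by omega]; ring
  refine ⟨?_, ⟨box_mono (by omega) v1, Op.mem_box.2 fun μ => ?_⟩, ⟨0, ?_⟩, ?_⟩
  · refine e ▸ (Dg.low (h.dg_add (gs_mono v3 (i + 1).zero_le) _) iJ (Nat.sub_le _ _) ?_).2
    rw [h.tk_add _ _ iJ le_rfl, v2 _ (by omega), rt_top, zero_add, Nat.cast_one, one_smul]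
    refine box_mono (le_trans ?_ (h.gd_dm i)) (show _ ∈ box 1 from Op.mem_box.2 fun μ => ?_)
    · have := h.L_big i
      unfold gd
      omega
    · rw [Pi.single_apply]
      split_ifs <;> simp
  · have := Op.mem_box.1 v1 μ
    rw [e, Pi.add_apply, Pi.smul_apply, Pi.single_apply]
    split_ifs <;> simp only [smul_eq_mul, mul_one, mul_zero] <;> omega
  · rw [e]
    simpa using (by exact_mod_cast a3 : ((22 * (G.L l * G.sJ J l) : ℕ) : ℤ) ≤ G.rt J (i + 1))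
  · obtain ⟨x, rfl⟩ := Nat.exists_eq_add_of_le (show l ≤ k by omega)
    exact (Nat.mul_le_mul_right _ (by omega)).trans (h.sJ_lin x hJ)

end Ok

end Pool.Agent.Lib.MP_7f377f_mp.RG.Q4.En.Gl
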