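import Pool.Agent.Lib.MP_7f377f_mp.G.KzH0
import Pool.Agent.Lib.MP_7f377f_mp.G.JwA0
import Pool.Agent.Lib.MP_7f377f_mp.G.KzN1

/-! Centred moments. -/

noncomputable section

set_option linter.unusedSectionVars false
variable [Pool.Agent.Lib.MP_7f377f_mp.GD]

namespace Pool.Agent.Lib.MP_7f377f_mp.Kz

open MeasureTheory Filter Set YM7 L6 RG RG.Tl RG.Q4 RG.Q4.En Wy
open Wu (Z4)
open MP_7f377f_mp.Wx (Lc)

variable {ι Λ : Type} [Fintype ι] [AddCommGroup Λ] [Module ℝ Λ] [MeasurableSpace SU2]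
  [BorelSpace SU2] {h : Measure SU2} [h.IsHaarMeasure] [IsProbabilityMeasure h] {b : ℝ} {n : ℕ}
  [NeZero n] {A A' : ι → Fz → ℝ}

theorem bm_ct {X : Fz → ℝ} (c : Weak.BM X) (x : Z4) : Weak.BM fun U => ct h b n X (tz x U) :=
  (bm_sub c (.const _)).comp (meas_tz _)

theorem cL_tr0 (c : ∀ a, Weak.BM (A a)) (x : ι → Z4) (w : Z4) :
    cL h b n A (fun a => x a + w) = cL h b n A x := by
  simp only [cL, add_comm _ w, ← tz_tz]
  exact er_tz (.prod _ fun a => bm_ct (c a) _) w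

variable (h b n) in
/-- centred pair correlations are bilinear -/
theorem ex_cL2 (O O' : Λ →ₗ[ℝ] Fz → ℝ) (c : ∀ a, Weak.BM (O a) ∧ Weak.BM (O' a)) (x : Fin 2 → Z4) :
    ∃ B : Λ →ₗ[ℝ] Λ →ₗ[ℝ] ℝ, ∀ a a', B a a' = cL h b n ![O a, O' a'] x := by
  have e : ∀ {X Y : Fz → ℝ}, Weak.BM X → Weak.BM Y → ∀ U,
      ct h b n (X + Y) U = ct h b n X U + ct h b n Y U := fun u v U => by
    have := er_add (h := h) (b := b) (n := n) u v
    simp only [ct, Pi.add_def, this]
    ring
  have s : ∀ (t : ℝ) (X : Fz → ℝ) U, ct h b n (t • X) U = t * ct h b n X U := fun t X U => by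
    simp [ct, er, integral_const_mul, mul_sub]
  refine ⟨.mk₂ ℝ (fun a a' => cL h b n ![O a, O' a'] x) (fun a a' d => ?_) (fun t a d => ?_)
    (fun d a a' => ?_) fun t d a => ?_, fun _ _ => rfl⟩ <;>
    simp only [cL, Fin.prod_univ_two, Matrix.cons_val_zero, Matrix.cons_val_one, map_add, map_smul,
      e (c _).1 (c _).1, e (c _).2 (c _).2, s, add_mul, mul_add, mul_assoc, smul_eq_mul]
  exacts [er_add ((bm_ct (c _).1 _).mul (bm_ct (c _).2 _)) ((bm_ct (c _).1 _).mul (bm_ct (c _).2 _)),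
    integral_const_mul _ _,
    er_add ((bm_ct (c _).1 _).mul (bm_ct (c _).2 _)) ((bm_ct (c _).1 _).mul (bm_ct (c _).2 _)),
    by simp only [mul_left_comm _ t]; exact integral_const_mul _ _]

/-- constants and null letters do not change centred moments -/
theorem cL_null {R : ℕ} {x : ι → Z4} (c : ∀ a, Lc R (A a) ∧ Lc R (A' a))
    (e : ∀ a, ∃ u, Wy.Nl h b n R fun U => A a U - A' a U - u) {R₁ : ℝ}
    (far : ∀ a a', a ≠ a' → Ds (2 * R + 2) R₁ (x a) (x a')) (hn : R₁ + 2 * R + 2 ≤ n) :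
    cL h b n A x = cL h b n A' x := by
  classical
  choose u e using e
  obtain ⟨N, hN⟩ : ∃ N : ι → Fz → ℝ, N = fun a U => A a U - A' a U - u a := ⟨_, rfl⟩
  have cN : ∀ a, Lc R (N a) := fun a => hN ▸ ⟨((c a).1.1.sub (c a).2.1).sub continuous_const,
    fun U V w => by simp only [(c a).1.2 w, (c a).2.2 w]⟩
  have cA : ∀ a, Lc R (ct h b n (A' a)) := fun a =>
    ⟨(c a).2.1.sub continuous_const, fun U V w => by simp only [ct, (c a).2.2 w]⟩
  have m : ∀ a U, ct h b n (A a) U = N a U + ct h b n (A' a) U := fun a U => by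
    have := e a 1 continuous_const fun _ _ _ => rfl
    simp only [Pi.one_apply, mul_one] at this
    have a1 := er_sub (h := h) (b := b) (n := n) (bm_sub (.of_continuous (c a).1.1)
      (.of_continuous (c a).2.1)) (.const (u a))
    rw [er_sub (.of_continuous (c a).1.1) (.of_continuous (c a).2.1)] at a1
    have a2 : er h b n (fun _ => u a) = u a := by simp [er]
    simp only [ct, hN]
    linarith [a1.symm.trans this]
  have k : ∀ {Y : Fz → ℝ} q, Lc R Y → Continuous fun U : Cfg n => Y (tz (x q) (lf U)) :=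
    fun q a => a.1.comp ((cont_tz _).comp cont_lf)
  have d : ∀ {Y : Fz → ℝ} a q, a ≠ q → Lc R Y → DependsOn (fun U : Cfg n => Y (tz (x q) (lf U)))
      {e | ∃ i, R < |(e.1 i - x a i).valMinAbs|} := fun a q ne y U V w => y.2 fun l hl => w _ <| by
    obtain ⟨⟨i, f1⟩, f2⟩ := far a q ne
    refine ⟨i, not_le.1 fun v => ?_⟩
    have f3 : 2 * (R : ℤ) + 2 ≤ |x a i - x q i| := by exact_mod_cast f1
    have f4 : |x a i - x q i| + 2 * R + 2 ≤ n := by
      exact_mod_cast (show (|x a i - x q i| : ℝ) + 2 * R + 2 ≤ n by linarith [f2 i])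
    obtain ⟨z, hz, f6⟩ : ∃ z : ℤ, (z : ZMod n) = (x q i + l.1 i - x a i : ℤ) ∧ |z| ≤ R :=
      ⟨_, (ZMod.coe_valMinAbs _).trans (by simp), v⟩
    obtain ⟨t, ht⟩ := (ZMod.intCast_eq_intCast_iff_dvd_sub _ _ n).1 hz
    have f5 := abs_le.1 (hl i)
    have f6 := abs_le.1 f6
    have n0 : (0 : ℤ) ≤ n := by positivity
    rcases lt_trichotomy t 0 with t0 | rfl | t0 <;> cases abs_cases (x a i - x q i) <;> nlinarith
  simp only [cL, m, Finset.prod_add, er]
  rw [integral_finsetSum, Finset.sum_eq_single ∅ (fun S _ ne => ?_) (by simp)]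
  · simp
  swap
  · exact fun S _ => ((continuous_finsetProd _ fun q _ => k q (cN q)).mul (continuous_finsetProd _
      fun q _ => k q (cA q))).integrable_of_hasCompactSupport (.of_compactSpace _)
  obtain ⟨a, ha⟩ := Finset.nonempty_iff_ne_empty.2 ne
  simp only [← Finset.mul_prod_erase _ _ ha, mul_assoc]
  refine Nl.at (hN ▸ e a) (cN a).1 ((continuous_finsetProd _ fun q _ => k q (cN q)).mul
    (continuous_finsetProd _ fun q _ => k q (cA q))) fun U V w => congrArg₂ _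
    (Finset.prod_congr rfl fun q hq => d a q (Finset.ne_of_mem_erase hq).symm (cN q) w)
    (Finset.prod_congr rfl fun q hq => d a q (fun r => (Finset.mem_sdiff.1 hq).2 (r ▸ ha)) (cA q) w)

end Pool.Agent.Lib.MP_7f377f_mp.Kz
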