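import Pool.Agent.Lib.MP_7f377f_mp.G.KzH
import Pool.Agent.Lib.MP_7f377f_mp.G.KzM2
import Pool.Agent.Lib.MP_7f377f_mp.G.JuR

/-! Matching of the letters of two runs along the hybrid. -/

noncomputable section

set_option linter.unusedSectionVars false
variable [Pool.Agent.Lib.MP_7f377f_mp.GD]

namespace Pool.Agent.Lib.MP_7f377f_mp.RG.Q4.En.Gl

open Finset Real Cok Tl Ju
open scoped Classical

attribute [local irreducible] box lbox tb tau rc

variable {α β : Type} [Fintype α] [DecidableEq α] [Fintype β] [DecidableEq β] (G : Gl)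

/-- the state at the level `m` of the letter `Y'` of the long run which is carried by the hybrid
below the level `i` -/
def hS (D : ℕ) (c : ℕ → St) (b b' : ℝ) (J J' i : ℕ) (Y' : Lq) (m : ℕ) : Jv :=
  Cok.fw (G.jH D c b J (G.hy b J b' J' i)) (G.ls D c b' J' Y' i) i m

/-- the letters `Y` and `Y'` of the two runs have the same symbol at the level `k` -/
def Eh (w : α → ℕ) (d D C : ℕ) (c : ℕ → St) (b b' : ℝ) (J J' i k : ℕ)
    (p : ℕ → (α → ℝ) →ₗ[ℝ] V) (Y Y' : Lq) : Prop :=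
  G.zq w d D C J k p k (G.hS D c b b' J J' i Y' k) = G.ys w d D C c b J k p Y k

/-- frames of the two runs on the track of `z` -/
structure Fh (A n : ℕ) (τ : ℝ) (w : α → ℕ) (d D C : ℕ) (M : ℝ) (z : St) (b b' : ℝ) (J J' i k : ℕ)
    (p p' : ℕ → (α → ℝ) →ₗ[ℝ] V) (R : ℕ) (δ K : ℝ) (m : β → ℕ) (X : β → Lq) : Prop where
  xh : G.Xh A n τ b b' J J' i k
  F : ∃ ω l U U', G.Fk w d D C (2 * M + 6) (G.tk z J') b J k ω p l U U' R δ K m X
  F' : ∃ ω l U U', G.Fk w d D C M (G.tk z J') b' J' k ω p' l U U' R δ K m X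
  DA : D + 6 ≤ A
  eps : ∃ ε, 0 ≤ ε ∧ 2 * ε * (M + 1) * G.Zu d C i ≤ 1 ∧
    ∀ φ N, Tbw (G.lR i) (60 * (G.p i).ρ) (G.lH D i) N φ →
      ‖sgS w d (G.ka D C i • p i) φ - sgS w d (G.ka D C i • p' i) φ‖ ≤ ε * N
  tau : τ * G.jW D i * (G.L i : ℝ) ^ 2 * (G.rt i k : ℝ) ^ (d + 2) ≤ 1

/-- the letter `Y` has the size `y` at the level `k` and grows like the power `d` of the scale -/
def Gy (w : α → ℕ) (d D C : ℕ) (c : ℕ → St) (b : ℝ) (J k : ℕ) (p : ℕ → (α → ℝ) →ₗ[ℝ] V)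
    (l : ℕ → V →ₗ[ℝ] α → ℝ) (U : ℕ → Module.End ℝ (α → ℝ)) (y : ℝ) (Y : Lq) : Prop :=
  ∀ m, k ≤ m → m ≤ J → G.zP w d D C c J k p l U m (G.ls D c b J Y m) (y * (G.rt m k : ℝ) ^ d) ∧
    ‖G.ys w d D C c b J k p Y m‖ ≤ y * (G.rt m k : ℝ) ^ d

variable {G} {A n d d' D C J J' i j k R o : ℕ} {τ M M' b b' δ K K' x y η : ℝ} {w : α → ℕ} {z : St}
  {p p' : ℕ → (α → ℝ) →ₗ[ℝ] V} {m : β → ℕ} {X : β → Lq} {Y Y' : Lq} {t t' : β → ℂ} {c : ℕ → St}
  {ω ω' : ℕ → ℝ} {l l' : ℕ → V →ₗ[ℝ] α → ℝ} {U U' U1 U1' : ℕ → Module.End ℝ (α → ℝ)} {u : Jv}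

/-- change of the cut -/
theorem Tk.cut (T : G.Tk w d D C M c b J j ω p l U U') (T' : G.Tk w d' D C M' c b J j ω' p l' U1 U1')
    (h1 : j ≤ k) (h2 : k ≤ J) (a : G.zP w d' D C c J j p l' U1 k u y)
    (hx : ‖G.zq w d' D C J j p k u‖ ≤ x) :
    ‖G.zq w d D C J j p k u‖ ≤ G.Yr d C k * G.Yr d' C k * (x + y) := by
  have h := T.ok
  have x1 := h.Xr1 C k
  have g : ∀ d, 1 ≤ G.Ga d C k ∧ G.Ga d C k ≤ G.Yr d C k := fun d =>
    ⟨one_le_pow₀ x1, pow_le_pow_right₀ x1 (by omega)⟩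
  have z : 1 ≤ G.Zu d' C k ∧ G.Zu d' C k ≤ G.Yr d' C k :=
    ⟨one_le_pow₀ x1, pow_le_pow_right₀ x1 (by omega)⟩
  have y0 := nonneg_of_mul_nonneg_right (Ag.P.nn (h.ag_ok D c k) a) (one_pos.trans_le z.1)
  have x0 := (norm_nonneg _).trans hx
  have := Ag.P.last (h.sy (D := D) (c := c) (T'.pt.s.s1 k)) a hx (by linarith [(g d').1])
  refine ((T.pt.s.s1 k).bd _ _ (h.ag_R D c k ▸ this) a.z).2.trans ?_
  rw [mul_assoc, mul_add _ x, add_comm]
  have := h.Yr1 d C k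
  have := (g d').1
  have := z.1
  gcongr
  exacts [(g d).2, (g d').2, z.2]

theorem Ok.rH_le (h : G.Ok) (big : ∀ o ≥ k, G.Big A o) (e : k ≤ i) (y0 : 0 < y) (hn : 5 ≤ n)
    (x0 : 0 ≤ x) (hx : x ≤ y * (G.rt i k : ℝ) ^ (n - 5)) :
    G.QA A i ^ 345 * (G.rH n k (G.QA A k ^ 346 * y) i * x) ≤ 1 := by
  have q := h.QA1 A k
  have r := Ok.rt0 (G := G) i k
  rw [mul_left_comm, rH, inv_mul_le_iff₀ (by have := r n; positivity), mul_one]
  calc _ ≤ G.QA A k ^ 345 * (G.rt i k : ℝ) ^ 5 * (y * (G.rt i k : ℝ) ^ (n - 5)) := by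
        gcongr
        exact h.QA_rt big e
    _ = G.QA A k ^ 345 * y * (G.rt i k : ℝ) ^ n := by
        rw [← pow_sub_mul_pow _ hn]; ring
    _ ≤ _ := by gcongr <;> linarith

/-- the radii of a letter which grows slowly -/
theorem Fk.rH (F : G.Fk w d D C M c b J k ω p l U U' R δ K m X) (big : ∀ o ≥ k, G.Big A o)
    (a : Lt1 R δ K' Y) (g : G.Gy w d D C c b J k p l U y Y) (y0 : 0 < y) (hn : d + 5 ≤ n)
    (hK : K' ≤ y * (G.rt J k : ℝ) ^ (n - 5)) :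
    G.RxA A b J k R (G.rH n k (G.QA A k ^ 346 * y)) (G.jx J (c J) Y) := by
  have h := F.T.ok
  have q := h.QA1 A
  have r0 : ∀ o, 0 ≤ G.rH n k (G.QA A k ^ 346 * y) o := fun o => by
    have := q k
    unfold Gl.rH
    positivity
  refine F.T.rxA F.J1 F.d1 a F.δ1 le_rfl r0 (le_trans ?_ (h.rH_le big F.T.hj.le y0 (by omega) a.nn hK))
    fun o h1 h2 => ⟨_, _, (g o h1 h2.le).1, (g o h1 h2.le).2, le_trans ?_ (h.rH_le (n := n) big h1 y0
      (by omega) (by positivity) (mul_le_mul_of_nonneg_left (pow_le_pow_right₀ (m := d)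
        (by simpa using Ok.rt0 o k 1) (by omega)) y0.le))⟩
  · have := mul_nonneg (r0 J) a.nn
    gcongr
    exacts [by linarith [q J], by norm_num]
  · have := mul_nonneg (pow_nonneg (h.QA0 A o).le 344)
      (mul_nonneg (r0 o) (show 0 ≤ y * (G.rt o k : ℝ) ^ d by positivity))
    rw [pow_succ _ 344]
    nlinarith [q o]

/-- the radii of a letter of the frame -/
theorem Fk.rH' (F : G.Fk w d D C M c b J k ω p l U U' R δ K m X) (big : ∀ o ≥ k, G.Big A o)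
    (hk : k ≤ i) (hi : i ≤ J) (y0 : 0 < y) (hn : d + 9 ≤ n)
    (hK : K / G.ka D C J ^ d ≤ (G.rt J k : ℝ) ^ (n - d - 9))
    (e : ‖G.ys w d D C c b J k p (G.fl D C J m X t) i‖ ≤ y * (G.rt i k : ℝ) ^ (d + 1)) :
    G.RxA A b J i R (G.rH n k (G.QA A k ^ 346 * y)) (G.jx J (c J) (G.fl D C J m X t)) := by
  have h := F.T.ok
  have q := h.QA1 A
  have r1 : ∀ o, (1 : ℝ) ≤ G.rt o k := fun o => by simpa using Ok.rt0 o k 1
  have r0 : ∀ o, 0 ≤ G.rH n k (G.QA A k ^ 346 * y) o := fun o => by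
    have := q k
    unfold Gl.rH
    positivity
  have u : ∀ o, i ≤ o → o ≤ J → ‖G.ys w d D C c b J k p (G.fl D C J m X t) o‖ ≤
      y * (G.rt o k : ℝ) ^ (d + 1) := fun o h1 h2 => by
    rw [h.rt_rt hk h1, Nat.cast_mul, mul_pow, mul_left_comm]
    exact (F.up' hk h1 h2).trans (by gcongr)
  have K0 : 0 ≤ K / G.ka D C J ^ d := div_nonneg F.K0.le (pow_pos (h.ka0 D C J) _).le
  refine F.rxA t hk r0 (le_trans ?_ (h.rH_le (n := n) (x := K / G.ka D C J ^ d * _) big (hk.trans hi) y0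
    (by omega) (by positivity) ((mul_le_mul hK (u J hi le_rfl) (norm_nonneg _) (by positivity)).trans
      ?_))) fun o h1 h2 => h.rH_le big (hk.trans h1) y0 (by omega) (norm_nonneg _)
        ((u o h1 h2.le).trans (by gcongr; exacts [r1 o, by omega]))
  · have := r0 J
    gcongr
    exacts [by linarith [q J], by norm_num]
  · rw [mul_left_comm, ← pow_add]
    gcongr
    exacts [r1 J, by omega]

namespace Fh

variable (E : G.Fh A n τ w d D C M z b b' J J' i k p p' R δ K m X)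
include E

theorem hb : G.Hb (D + 7) τ b J i k (G.hy b J b' J' i) :=
  E.xh.hb.down E.xh.ok (by have := E.DA; omega) le_rfl

theorem ht : τ * G.jW D i ≤ 1 := by
  have := E.xh.ok.L1 i
  have := E.xh.hb.t0
  have : 0 ≤ τ * G.jW D i := by unfold jW; positivity
  exact (le_mul_of_one_le_right this (one_le_mul_of_one_le_of_one_le
    (one_le_pow₀ (by linarith)) (Ok.rt0 _ _ _))).trans (mul_assoc (τ * _) _ _ ▸ E.tau)

/-- the frame of the hybrid -/
theorem fm (F : G.Fk w d D C (2 * M + 6) (G.tk z J') b J k ω p l U U' R δ K m X) : ∃ s : β → Jv,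
    Cok.Fm k i (G.zP w d D C (G.tk z J') J k p l U) (G.zq w d D C J k p)
      (G.jH D (G.tk z J') b J (G.hy b J b' J' i)) (G.jA w d D C U') (W0 w d)
      (fun k => G.Yr d C k * (G.L k : ℝ) ^ d) (fun k => G.Yr d C k / (G.L k : ℝ) ^ (d + 1))
      (fun k => G.Yr d C k / (G.L k : ℝ) ^ (D + 2)) s (2 * M + 6) ∧
    ∀ t o, st (G.jH D (G.tk z J') b J (G.hy b J b' J' i)) s i o t =
      G.hS D (G.tk z J') b b' J J' i (G.fl D C J' m X t) o := by
  obtain ⟨_, _, _, _, F'⟩ := E.F'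
  obtain ⟨ε, e1, e2, e3⟩ := E.eps
  have x := E.xh
  obtain ⟨H, s⟩ := F.T.fmH E.hb E.ht F'.T F'.fm x.lt.le x.lt.le (x.hb.le.trans x.le) le_rfl e1 e2 e3
  exact ⟨_, H, fun t o => by rw [st, s, st_ls, hS]⟩

theorem ex (a : Lt1 R δ K' Y) :
    ∃ t, G.Eh w d D C (G.tk z J') b b' J J' i k p Y (G.fl D C J' m X t) := by
  obtain ⟨_, _, _, _, F⟩ := E.F
  obtain ⟨s, H, q⟩ := E.fm F
  obtain ⟨_, u⟩ := F.T.ls_adm F.J1 F.d1 a le_rfl F.T.hj.le
  exact (H.ex le_rfl H.hj (H.mem _ _ _ u)).imp fun t e => by rwa [q] at e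

theorem uniq (e : G.Eh w d D C (G.tk z J') b b' J J' i k p Y (G.fl D C J' m X t))
    (e' : G.Eh w d D C (G.tk z J') b b' J J' i k p Y (G.fl D C J' m X t')) : t = t' := by
  obtain ⟨_, _, _, _, F⟩ := E.F
  obtain ⟨s, H, q⟩ := E.fm F
  refine (H.eqv le_rfl H.hj).injective (Subtype.ext ?_)
  rw [H.eqv_val, H.eqv_val, q, q]
  exact e.trans e'.symm

/-- the matching is linear -/
theorem lin (a : Lt1 R δ K' Y) {K'' : ℝ} (a' : Lt1 R δ K'' Y') (s : ℂ)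
    (e : G.Eh w d D C (G.tk z J') b b' J J' i k p Y (G.fl D C J' m X t))
    (e' : G.Eh w d D C (G.tk z J') b b' J J' i k p Y' (G.fl D C J' m X t')) :
    G.Eh w d D C (G.tk z J') b b' J J' i k p (Y + s • Y') (G.fl D C J' m X (t + s • t')) := by
  obtain ⟨_, _, _, _, F⟩ := E.F
  obtain ⟨_, H, q⟩ := E.fm F
  rw [Eh, F.T.ys_lin F.J1 F.d1 a a' s le_rfl F.T.hj.le, ← q, H.sy_lin _ _ _ le_rfl H.hj, q, q, e, e']

theorem real (r : ∀ a, LqR (X a)) (a : Lt1 R δ K' Y) (rY : LqR Y)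
    (e : G.Eh w d D C (G.tk z J') b b' J J' i k p Y (G.fl D C J' m X t)) (q : β) :
    (t q).im = 0 := by
  obtain ⟨_, _, _, _, F⟩ := E.F
  obtain ⟨_, _, _, _, F'⟩ := E.F'
  obtain ⟨ε, e1, e2, e3⟩ := E.eps
  have x := E.xh
  have i1 : i ≤ J' := x.hb.le.trans x.le
  have B := x.hb.down x.ok (a' := D + 7) (by have := E.DA; omega) le_rfl
  have hτ : τ * G.jW D i ≤ 1 := by
    have := x.ok.L1 i
    have := x.hb.t0
    have : 0 ≤ τ * G.jW D i := by unfold jW; positivity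
    exact (le_mul_of_one_le_right this (one_le_mul_of_one_le_of_one_le
      (one_le_pow₀ (by linarith)) (Ok.rt0 _ _ _))).trans (mul_assoc (τ * _) _ _ ▸ E.tau)
  obtain ⟨H, s⟩ := F.T.fmH B hτ F'.T F'.fm x.lt.le x.lt.le i1 le_rfl e1 e2 e3
  have re := x.ok.hy_dt x.t x.t' x.hb.le i1 (x.ok.dfc x.t x.t' x.le x.hi)
  refine fm_real H le_rfl x.lt.le (fun c hc => zq_real x.ok F.T.hw (co_fw H.toCo
    (R := fun k => JR (G.p k)) (fun o _ _ h1 h2 a => (F.T.pt.fitH B hτ h1 h2).real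
      (x.ok.sy (F.T.pt.s.s1 _)) a (re _ h2).re.1 (re _ h2).re.2.1) le_rfl (H.top c) ?_ k le_rfl
        x.lt.le)) ?_ q
  · rw [s, st_ls]
    exact F'.ls_real r x.lt.le i1 hc
  · rw [st, s, st_ls]
    exact e ▸ F.T.ys_real F.J1 F.d1 a rY le_rfl F.T.hj.le

/-- translation by blocks -/
theorem trl (v : St) : G.Fh A n τ w d D C M (z + (G.rt J' k : ℤ) • v) b b' J J' i k p p' R δ K m X ∧
    ∀ Y Y', G.Eh w d D C (G.tk (z + (G.rt J' k : ℤ) • v) J') b b' J J' i k p Y Y' ↔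
      G.Eh w d D C (G.tk z J') b b' J J' i k p Y Y' := by
  obtain ⟨_, _, _, _, F⟩ := E.F
  obtain ⟨_, _, _, _, F'⟩ := E.F'
  have x := E.xh
  have i1 : i ≤ J' := x.hb.le.trans x.le
  have r' := x.ok.trl_tk (J := J') (j := k) z v
  have r : G.Trl _ _ _ k J :=
    ⟨fun o a b => r'.1 o a (b.trans x.le), fun o a b => r'.2 o a (b.trans_le x.le)⟩
  refine ⟨{ E with F := ⟨_, _, _, _, F.trl r⟩, F' := ⟨_, _, _, _, F'.trl r'⟩ }, fun Y Y' => ?_⟩
  have re := x.ok.hy_dt x.t x.t' x.hb.le i1 (x.ok.dfc x.t x.t' x.le x.hi)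
  have : ∀ o, k ≤ o → o ≤ i → Jr (G.N o) ((G.rt o k : ℤ) • -v) (G.hS D (G.tk z J') b b' J J' i Y' o)
      (G.hS D (G.tk (z + (G.rt J' k : ℤ) • v) J') b b' J J' i Y' o) := by
    refine down ?_ fun o h1 h2 ih => ?_
    · simpa only [hS, ls, Cok.fw_top] using F'.T.pt.jr r' le_rfl
        (r'.1 J' F'.T.hj.le le_rfl ▸ x.ok.jr_tp _ _ Y') i x.lt.le i1
    have n := x.ok.sd_nf o (G.zz b J (o + 1))
    have u := r'.2 o h1 (h2.trans_le i1)
    simp only [hS, Cok.fw_step _ _ h2] at u ih ⊢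
    rw [u, ← n] at ih
    exact ih.step n.symm n.symm (u ▸ r'.1 (o + 1) (by omega) (h2.trans_le i1)) rfl
      (x.ok.sd_all _ _).nu (n ▸ (re _ h2).re.2.2)
  rw [Eh, Eh, F.T.ys_trl r Y le_rfl F.T.hj.le, zq, zq, (this k le_rfl x.lt.le).2.2.1]

/-- the size of the matched letter along the hybrid -/
theorem up (e : G.Eh w d D C (G.tk z J') b b' J J' i k p Y (G.fl D C J' m X t))
    (hy : ‖G.ys w d D C (G.tk z J') b J k p Y k‖ ≤ y) (h1 : k ≤ o) (h2 : o ≤ i) :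
    ‖G.zq w d D C J k p o (G.hS D (G.tk z J') b b' J J' i (G.fl D C J' m X t) o)‖ ≤
      G.Pw d C k o * (G.rt o k : ℝ) ^ d * y ∧ G.Pw d C k o ≤ G.rt o k := by
  obtain ⟨_, _, _, _, F⟩ := E.F
  obtain ⟨_, H, q⟩ := E.fm F
  have h := F.T.ok
  have a := H.up t le_rfl h1 h2
  rw [q, q, e] at a
  have := h.Pw1 d C k o
  refine ⟨a.trans (mul_le_mul ?_ hy (norm_nonneg _) (by positivity)), ?_⟩
  · rw [Pw, ← h.rt_prod h1, ← prod_pow, ← prod_mul_distrib]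
    refine prod_le_prod (fun m _ => ?_) fun m _ => ?_ <;> have := h.Yr1 d C m
    · positivity
    · nlinarith [show (0 : ℝ) ≤ (G.L m : ℝ) ^ d by positivity]
  · rw [← h.rt_prod h1]
    refine prod_le_prod (fun n _ => by linarith [h.Yr1 d C n]) fun n hn => ?_
    have := F.T.MY (mem_Ico.1 hn).1
    nlinarith [h.Yr1 d C n, F.T.M1]

/-- the size of the matched letter in its own run -/
theorem own (e : G.Eh w d D C (G.tk z J') b b' J J' i k p Y (G.fl D C J' m X t))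
    (hy : ‖G.ys w d D C (G.tk z J') b J k p Y k‖ ≤ y) :
    ‖G.ys w d D C (G.tk z J') b' J' k p' (G.fl D C J' m X t) i‖ ≤
      2 * y * (G.rt i k : ℝ) ^ (d + 1) ∧
    ‖G.ys w d D C (G.tk z J') b' J' k p' (G.fl D C J' m X t) k‖ ≤
      2 * y * (G.rt i k : ℝ) ^ (d + 2) := by
  obtain ⟨_, _, _, _, F⟩ := E.F
  obtain ⟨_, _, _, _, F'⟩ := E.F'
  obtain ⟨ε, e1, e2, e3⟩ := E.eps
  have x := E.xh
  have h := x.ok
  have i1 := x.hb.le.trans x.le
  obtain ⟨a1, a2⟩ := E.up e hy x.lt.le le_rfl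
  have y0 := (norm_nonneg _).trans hy
  have x1 := h.Xr1 C i
  have Z1 : G.Ga d C i ≤ G.Zu d C i := pow_le_pow_right₀ x1 (by omega)
  have G0 : 0 ≤ G.Ga d C i := by unfold Ga; positivity
  have b1 := (h.jP_chg (F.T.pt.s.s1 i) (F'.T.pt.s.s1 i) G0 G0 e1 (fun φ K a => by
    rw [js, js, if_pos ⟨x.lt.le, x.hb.le⟩, if_pos ⟨x.lt.le, i1⟩]; exact e3 φ K a)
    (F'.cone t x.lt.le i1) le_rfl).2
  rw [hS, Cok.fw_top] at a1
  have b2 : ‖G.ys w d D C (G.tk z J') b' J' k p' (G.fl D C J' m X t) i‖ ≤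
      2 * y * (G.rt i k : ℝ) ^ (d + 1) := by
    have b3 := (norm_le_insert _ _).trans (add_le_add (a1.trans (mul_le_mul_of_nonneg_right
      (mul_le_mul_of_nonneg_right a2 (by positivity)) y0)) b1)
    change ‖G.ys w d D C _ b' J' k p' _ i‖ ≤ _ + ε * (_ + _ * ‖G.ys w d D C _ b' J' k p' _ i‖) at b3
    have n0 := norm_nonneg (G.ys w d D C (G.tk z J') b' J' k p' (G.fl D C J' m X t) i)
    rw [pow_succ']
    nlinarith [mul_le_mul_of_nonneg_right e2 n0,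
      mul_le_mul_of_nonneg_left (mul_le_mul_of_nonneg_right Z1 n0) e1]
  refine ⟨b2, (F'.dn t le_rfl x.lt.le i1).trans ?_⟩
  rw [pow_succ' _ (d + 1), mul_left_comm]
  gcongr

/-- matched letters -/
theorem yh (F : G.Fk w d D C (2 * M + 6) (G.tk z J') b J k ω p l U U' R δ K m X)
    (a : Lt1 R δ K' Y) (g : G.Gy w d D C (G.tk z J') b J k p l U y Y) (y0 : 0 < y)
    (hn : d + 9 ≤ n) (hK : K' ≤ y * (G.rt J k : ℝ) ^ (n - 5))
    (hK' : K / G.ka D C J' ^ d ≤ (G.rt J' k : ℝ) ^ (n - d - 9))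
    (e : G.Eh w d D C (G.tk z J') b b' J J' i k p Y (G.fl D C J' m X t))
    (h1 : G.Pw d C k i ^ 2 ≤ η * G.rt i k) (h2 : G.Pw d C k J ≤ η * G.rt J k) :
    G.Yh A n R b b' J J' i k z (G.QA (A + 1) k ^ 347 * y) η (G.jx J (G.tk z J' J) Y)
      (G.jx J' z (G.fl D C J' m X t)) := by
  obtain ⟨_, _, _, _, F'⟩ := E.F'
  obtain ⟨s, H, q⟩ := E.fm F
  have x := E.xh
  have h := x.ok
  have T := F.T
  have ik := x.lt.le
  have iJ : i < J := by have := x.hi; omega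
  have i1 := iJ.trans_le x.le
  have q1 := h.QA1 (A + 1) k
  have M1 := T.M1
  have y1 : 2 * y ≤ G.QA (A + 1) k * y := by gcongr; linarith
  have y2 : 0 < G.QA (A + 1) k * y := by positivity
  have r1 : ∀ o, (1 : ℝ) ≤ G.rt o k := fun o => by simpa using Ok.rt0 o k 1
  have hy : ‖G.ys w d D C (G.tk z J') b J k p Y k‖ ≤ y := by
    simpa [rt_top] using (g k le_rfl T.hj.le).2
  have c := fun o (a : k ≤ o) (b : o ≤ i) => (H.cone t a b).2.1
  simp only [q] at c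
  have c0 := c i ik le_rfl
  have u0 := (E.up e hy ik le_rfl).1
  rw [hS, Cok.fw_top] at c0 u0
  have f := T.pt.flowH E.hb E.ht c0
  rw [F'.lv t ik i1, tk_top, jv] at f
  rw [pow_succ, mul_assoc]
  refine ⟨by positivity, jx_in h _ _, jx_in h _ _, F.rH x.big a (fun o a b => ?_) y2 (by omega)
    (hK.trans (by gcongr; linarith)), ?_, fun o a u => ?_, ?_⟩
  · have : y * (G.rt o k : ℝ) ^ d ≤ G.QA (A + 1) k * y * (G.rt o k : ℝ) ^ d := by gcongr; linarith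
    exact ⟨T.co.mono _ _ _ _ (g o a b).1 this, (g o a b).2.trans this⟩
  · simpa only [tk_top] using F'.rH' x.big ik i1.le y2 hn hK' ((E.own e hy).1.trans (by gcongr))
  · obtain ⟨a1, a2⟩ := E.up e hy a.le u
    have r0 : 0 ≤ G.rH n k (G.QA (A + 1) k ^ 346 * (G.QA (A + 1) k * y)) o := by
      unfold rH; positivity
    rw [← f o a.le u]
    refine T.szA a.le (c o a.le u) le_rfl r0 (le_trans ?_ (h.rH_le (n := n) x.big a.le y2 (by omega)
      (norm_nonneg _) (a1.trans ?_)))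
    · have := h.QA0 (A + 1) o
      rw [← hS, ← one_add_mul, mul_left_comm _ (1 + _), ← mul_assoc, pow_succ _ 344]
      gcongr
      linarith [F.MQ (A := A + 1) a.le]
    · calc _ ≤ G.rt o k * (G.rt o k : ℝ) ^ d * y := by gcongr
        _ = y * (G.rt o k : ℝ) ^ (d + 1) := by ring
        _ ≤ _ := by
          gcongr
          exacts [by linarith, r1 o, by omega]
  have P1 := h.Pw1 d C k i
  have P2 := h.Pw1 d C k J
  have ri := r1 i
  have rJ := r1 J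
  have η0 : 0 ≤ η := nonneg_of_mul_nonneg_left (by linarith) (one_pos.trans_le rJ)
  have y3 := h.Yr1 d C
  have L1 := h.L1
  obtain ⟨v, v1, -, v2⟩ := F.cmpT le_rfl T.hj.le (x := y * (G.rt J k : ℝ) ^ d) (by positivity) a
    (ls_top (G := G) ▸ (g J T.hj.le le_rfl).1) (g J T.hj.le le_rfl).2
  obtain ⟨v2, -⟩ := v2 k le_rfl T.hj.le
  have lv := T.ls_lin F.J1 F.d1 a (F.lt1 v) (-1) le_rfl T.hj.le
  rw [neg_one_smul, neg_one_smul, ← sub_eq_add_neg, ← sub_eq_add_neg] at lv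
  obtain ⟨S, hS'⟩ : ∃ S, S = (2 * M + 6) * (G.Pw d C k i * (G.rt i k : ℝ) ^ d * y) := ⟨_, rfl⟩
  have S0 : 0 < S := by rw [hS']; positivity
  have w0 : ∀ o, 0 < (∏ n ∈ Ico o i, 4 * (G.Yr d C n / (G.L n : ℝ) ^ (d + 1))) * S := fun o =>
    mul_pos (prod_pos fun n _ => by have := y3 n; have := L1 n; positivity) S0
  obtain ⟨v3, -⟩ := (T.killH E.hb F.fm le_rfl ik E.tau w0 (fun o a b => by
    rw [prod_eq_prod_Ico_succ_bot b, mul_assoc (4 * _)]
    exact ⟨by nlinarith [w0 (o + 1), (T.num a).1], le_rfl⟩)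
    (by
      rw [Ico_self, prod_empty, one_mul, hS']
      exact ⟨T.co.mono _ _ _ _ c0 (by gcongr), u0.trans (le_mul_of_one_le_left (by positivity) M1)⟩)
    (t := v) (by rw [st_ls]; exact v1.trans e.symm)).2 k le_rfl ik
  rw [st_ls] at v3
  obtain ⟨_, ad⟩ := T.ls_adm F.J1 F.d1 a le_rfl T.hj.le
  have v4 := (T.co.lin k _ _ _ _ (-1) v3 v2).1
  have v5 := (T.co.lin k _ _ _ _ (-1) (c k le_rfl ik) ad).2
  rw [lv, neg_one_smul, ← sub_eq_add_neg, sub_sub_sub_cancel_right, norm_neg, norm_one,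
    one_mul] at v4
  rw [e, neg_one_smul, neg_one_smul, ← sub_eq_add_neg, ← sub_eq_add_neg, ← ys, sub_self] at v5
  have v6 := T.sz le_rfl v4 (v5 ▸ norm_zero.le)
  rw [jp_sub, f k le_rfl ik, T.lv1 F.J1 F.d1 a le_rfl T.hj] at v6
  have e1 : (∏ n ∈ Ico k i, 4 * (G.Yr d C n / (G.L n : ℝ) ^ (d + 1))) * S ≤
      (2 * M + 6) * (η * y) := by
    have : ∏ n ∈ Ico k i, 4 * (G.Yr d C n / (G.L n : ℝ) ^ (d + 1)) =
        G.Pw d C k i / (G.rt i k : ℝ) ^ (d + 1) := by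
      simp only [Pw, ← h.rt_prod ik, ← prod_pow, ← prod_div_distrib, mul_div_assoc]
    rw [this, hS', div_mul_eq_mul_div, div_le_iff₀ (by positivity)]
    calc _ = (2 * M + 6) * (G.Pw d C k i ^ 2 * (G.rt i k : ℝ) ^ d * y) := by ring
      _ ≤ (2 * M + 6) * (η * G.rt i k * (G.rt i k : ℝ) ^ d * y) := by gcongr
      _ = _ := by ring
  have e2 : G.Pw d C k J / (G.rt J k : ℝ) ^ (d + 1) * (y * (G.rt J k : ℝ) ^ d) ≤
      (2 * M + 6) * (η * y) := by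
    rw [div_mul_eq_mul_div, div_le_iff₀ (by positivity)]
    calc _ ≤ η * G.rt J k * (y * (G.rt J k : ℝ) ^ d) := by gcongr
      _ = 1 * (η * y) * (G.rt J k : ℝ) ^ (d + 1) := by ring
      _ ≤ _ := by gcongr
  have Q0 := h.Q0 k
  have b0 := h.b0 k
  have MQ := F.MQ (A := A + 1) le_rfl
  have e3 := (add_le_add (mul_le_mul_of_nonneg_left e1 (by positivity))
    (mul_le_mul_of_nonneg_left e2 (by positivity))).trans
    (show 8 * (2 * M + 6) * _ + 8 * (2 * M + 6) * _ ≤ G.QA (A + 1) k ^ 2 * (η * y) by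
      nlinarith [mul_le_mul_of_nonneg_right (pow_le_pow_left₀ (by positivity) MQ 2)
        (mul_nonneg η0 y0.le), mul_nonneg (sq_nonneg (2 * M + 6)) (mul_nonneg η0 y0.le)])
  have := T.zP0 v4
  refine h.sz_le v6 (by positivity) ?_ ?_ le_rfl <;> rw [zero_add] <;>
  calc _ ≤ G.QA (A + 1) k ^ 121 * (G.QA (A + 1) k ^ 2 * (η * y)) * G.bb k := by
        gcongr
        exact h.QA_ge _ _
    _ = η * (G.QA (A + 1) k ^ 122 * (G.QA (A + 1) k * y)) * G.bb k := by ring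
    _ ≤ _ := by
        gcongr
        exacts [by linarith, by norm_num]

end Fh

end Pool.Agent.Lib.MP_7f377f_mp.RG.Q4.En.Gl
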