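import Pool.Agent.Lib.MP_7f377f_mp.G.KzK0
import Pool.Agent.Lib.MP_7f377f_mp.G.KzW
import Pool.Agent.Lib.MP_7f377f_mp.G.KzI
import Pool.Agent.Lib.MP_7f377f_mp.G.KwS
import Pool.Agent.Lib.MP_7f377f_mp.G.KyS0

/-! The letters of short runs. -/

noncomputable section

set_option linter.unusedSectionVars false
variable [Pool.Agent.Lib.MP_7f377f_mp.GD]

namespace Pool.Agent.Lib.MP_7f377f_mp.RG.Tl

open Finset MvPolynomial Wd Q4 Q4.En
open Zg (V0 Og r0)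

/-- vectors which are supported on `p` -/
def Sp {ι : Type} (p : ι → Prop) : Submodule ℝ (ι → ℝ) := Submodule.pi {q | ¬p q} fun _ => ⊥

theorem mem_sp {ι : Type} {p : ι → Prop} {t : ι → ℝ} : t ∈ Sp p ↔ ∀ q, ¬p q → t q = 0 := Iff.rfl

variable (𝒜 : Set CM) [Og 𝒜]

/-- the index set of the images of the letters of a frame -/
abbrev Bq (s : ℕ) : Type := B4 × Bd 𝒜 s

variable {𝒜} {s d : ℕ} {κ : ℝ} {t : Bq 𝒜 s → ℝ}

/-- the images -/
def Bq.P (q : Bq 𝒜 s) : Pl := act q.1 (q.2.P (ls 𝒜))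

/-- their combinations -/
def Py (κ : ℝ) : (Bq 𝒜 s → ℝ) →ₗ[ℝ] Pl :=
  Fintype.linearCombination ℝ fun q => (κ ^ q.2.dg)⁻¹ • q.P

/-- the coefficients of the image under `g` -/
def mq (g : B4) (t : Bq 𝒜 s → ℝ) (q : Bq 𝒜 s) : ℝ := t (g⁻¹ * q.1, q.2)

variable (𝒜 s) in
/-- null letters of weight at most `d` -/
def Nu0 (d : ℕ) : Submodule ℝ (Bq 𝒜 s → ℝ) := Sp fun q => q.1 = 1 ∧ q.2.isRight ∧ q.2.wt ≤ d

variable (𝒜 s) in
/-- letters of degree at most `d` -/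
def Dq (d : ℕ) : Submodule ℝ (Bq 𝒜 s → ℝ) := Sp fun q => q.2.dg ≤ d

theorem Py_ap (t : Bq 𝒜 s → ℝ) : Py κ t = ∑ q, ((t q * (κ ^ q.2.dg)⁻¹ : ℝ) : ℂ) • q.P := by
  simp only [Py, Fintype.linearCombination_apply, smul_smul, Complex.coe_smul]

theorem act_Py (g : B4) (t : Bq 𝒜 s → ℝ) : act g (Py κ t) = Py κ (mq g t) := by
  rw [Py_ap (mq g t), ← Equiv.sum_comp ((Equiv.mulLeft g).prodCongr (.refl _)), Py_ap, map_sum]
  exact sum_congr rfl fun q _ => by simp [mq, Bq.P, act_mul, -Complex.coe_smul]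

theorem norm_mq (g : B4) (t : Bq 𝒜 s → ℝ) : ‖mq g t‖ = ‖t‖ :=
  ((Equiv.mulLeft g⁻¹).prodCongr (.refl _)).surjective.pi_norm_comp t

theorem mq_one (t : Bq 𝒜 s → ℝ) : mq 1 t = t := funext fun q => by simp [mq]

theorem mq_dq (h : t ∈ Dq 𝒜 s d) (g : B4) : mq g t ∈ Dq 𝒜 s d := fun q a => h (_, q.2) a

theorem nu0_mono : Monotone (Nu0 𝒜 s) := fun _ _ e _ h q a => h q fun b => a ⟨b.1, b.2.1, b.2.2.trans e⟩

theorem vp_one : Vp 𝒜 1 = ⊥ := by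
  rw [vp_eq, Submodule.span_eq_bot]
  rintro _ ⟨b, -⟩
  exact absurd (b.1.dg_le.trans b.2) (by omega)

/-- null letters of a smaller frame -/
theorem ex_nu0 (hd : d ≤ s) (t : Bd 𝒜 d → ℝ) (ht : ∀ q, t (.inl q) = 0) : ∃ n ∈ Nu0 𝒜 s d,
    ‖n‖ ≤ ‖t‖ ∧ ∀ (G : En.Gl) s' C J, lq (Py (G.ka (s' + 1) C J) n) = G.fz s' C J t := by
  obtain ⟨f, hf⟩ : ∃ f : Nd d → Bq 𝒜 s, f = fun b => (1, .inr ⟨b.1, b.2.trans hd⟩) := ⟨_, rfl⟩
  have i : f.Injective := fun a b e => by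
    rw [hf] at e
    exact Subtype.ext (congrArg (fun c : Nd s => c.1) (Sum.inr.inj (congrArg Prod.snd e)))
  refine ⟨f.extend (fun b => t (.inr b)) 0, fun q a => Function.extend_apply' _ _ _ ?_,
    (pi_norm_le_iff_of_nonneg (norm_nonneg _)).2 fun q => ?_, fun G s' C J => ?_⟩
  · rintro ⟨b, rfl⟩
    exact a (hf ▸ ⟨rfl, rfl, b.2⟩)
  · by_cases e : ∃ b, f b = q
    · obtain ⟨b, rfl⟩ := e
      exact i.extend_apply .. ▸ norm_le_pi_norm t _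
    · simp [Function.extend_apply' _ _ _ e]
  · rw [Py_ap, ← Fintype.sum_of_injective f i _ _ (fun q e => by
      simp [Function.extend_apply' _ _ _ e]) fun _ => rfl]
    simp only [i.extend_apply]
    simp [hf, Gl.fz, Gl.fl, lX, Fintype.linearCombination_apply, ht, Bq.P, act_one, Bd.P, Bd.dg,
      smul_smul]

/-- null letters have no correlations -/
theorem ex_nul (s : ℕ) : ∃ R, ∀ κ d, ∀ n ∈ Nu0 𝒜 s d, Nul R (pG (Py κ n)) := by
  choose r hr using fun b : Nd s => b.1.2.1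
  obtain ⟨R, hR⟩ := Finite.exists_le r
  refine ⟨R, fun κ d n h => ?_⟩
  rw [Py_ap, map_sum]
  refine .sum fun q _ => ?_
  by_cases e : n q = 0
  · simpa [e] using Nul.zero R
  obtain ⟨g, b | b⟩ := q
  · exact absurd (h _ fun a => by simpa using a.2.1) e
  obtain rfl : g = 1 := by_contra fun a => e (h _ fun z => a z.1)
  rw [map_smul, Bq.P, act_one]
  exact ((hr b).mono (hR b)).smul _

variable [Adj 𝒜]

theorem rl_Py (t : Bq 𝒜 s → ℝ) : Rl (Py κ t) := by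
  rw [Rl, Py_ap, map_sum]
  exact sum_congr rfl fun q _ => by
    rw [cj_smul, Complex.conj_ofReal, Bq.P, (rz_ls.gl q.2).2.1.act q.1]

theorem nu0_dq (hs : 2 ≤ s) (hd : d ≤ s) : Nu0 𝒜 s d ≤ Dq 𝒜 s d := fun _ h q a => h q fun b => by
  obtain ⟨g, c | c⟩ := q
  · simpa using b.2.1
  · exact a ((fr hs (hd.trans (s.le_add_right 2))).deg (clc hs).hw b.2.2 c.1.1.hom)

variable (𝒜) in
theorem ex_topq (s : ℕ) : ∃ R, ∃ δ > 0, ∃ K ≥ 1, (∀ q : Bq 𝒜 s, 1 ≤ q.2.dg ∧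
    Top R q.2.dg δ K (pG q.P) (px q.P) (pa q.P)) ∧ ∀ κ (t : Bq 𝒜 s → ℝ),
      MP_7f377f_mp.Wx.Lc R (Lq.re (lq (Py κ t))) := by
  obtain ⟨R, δ, δ0, K, K1, H⟩ := ex_top (P := Bq.P (𝒜 := 𝒜) (s := s))
    (fun q => (rz_ls.gl q.2).1.act q.1) fun q => hom_act (rz_ls.gl q.2).2.2.2 q.1
  refine ⟨R, δ, δ0, K, K1, fun q => ⟨(rz_ls.gl q.2).2.2.1, H q⟩, fun κ t =>
    ⟨Complex.continuous_re.comp (pG_cont _), fun U U' e => congrArg Complex.re ?_⟩⟩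
  change pG _ U = pG _ U'
  simp only [Py_ap, map_sum, map_smul, Finset.sum_apply, Pi.smul_apply]
  exact sum_congr rfl fun q _ => congrArg _ ((H q).lt.loc _ _ fun l hl =>
    e l fun i => abs_le.2 (Op.mem_box.1 (Op.mem_lbox.1 hl) i))

variable (𝒜) in
/-- the coefficients of the Wick ordered letters -/
theorem ex_Zc (s : ℕ) : ∃ K ≥ (1 : ℝ), ∀ ε r κ Λ : ℝ, 0 < ε → ε ≤ 1 → 0 < κ → 1 ≤ Λ →
    |r * κ| ≤ Λ → ∃ Z : V0 𝒜 →ₗ[ℝ] Bq 𝒜 s → ℝ, ∀ d ≤ s, ∀ e ∈ Vp 𝒜 d,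
      (∃ a : ℝ, Ze 𝒜 ε r e = C (a : ℂ) + Py κ (Z e)) ∧ Z e ∈ Dq 𝒜 s (d / 2) ∧
        ‖Z e‖ ≤ K * Λ ^ s * ε⁻¹ ^ d * ‖e‖ := by
  obtain ⟨K, K0, H⟩ := Ze_ex (𝒜 := 𝒜) s
  refine ⟨K + 1, by linarith, fun ε r κ Λ h0 h1 κ0 Λ1 h => ?_⟩
  obtain ⟨a, t, H⟩ := H ε h0 h1
  refine ⟨.pi fun q => q.2.elim (fun b => (r * κ) ^ (b.1.dg + 1) • .proj (q.1, b) ∘ₗ t) 0,
    fun d hd e he => ?_⟩
  obtain ⟨-, b, c, k⟩ := H d hd e he.1
  refine ⟨⟨a e, ?_⟩, ?_, (pi_norm_le_iff_of_nonneg (by positivity)).2 ?_⟩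
  · rw [k, Py_ap]
    simp only [Fintype.sum_prod_type, Fintype.sum_sum_type]
    refine congrArg _ (sum_congr rfl fun g _ => ?_)
    simp [Bq.P, Bd.P, Bd.dg, mul_pow, mul_comm, mul_left_comm, mul_assoc, κ0.ne', -Complex.coe_smul]
  · rintro ⟨g, q | q⟩ z
    · have := q.1.dg_le
      have : ¬q.1.dg + 1 ≤ d / 2 := z
      exact mul_eq_zero_of_right _ (c (g, q) (show d < q.1.m by omega))
    · rfl
  · rintro ⟨g, q | q⟩
    · have := q.1.dg_le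
      have := q.2
      refine (abs_mul _ _).trans_le ((mul_le_mul ((abs_pow _ _).trans_le ((pow_le_pow_left₀
        (abs_nonneg _) h _).trans (pow_le_pow_right₀ Λ1 (by omega : _ ≤ s)))) ((single_le_sum
          (fun p _ => abs_nonneg (t e p)) (mem_univ (g, q))).trans b) (abs_nonneg _)
            (by positivity)).trans ?_)
      nlinarith [show 0 ≤ Λ ^ s * ε⁻¹ ^ d * ‖e‖ by positivity]
    · exact norm_zero.trans_le (by positivity)

end Pool.Agent.Lib.MP_7f377f_mp.RG.Tl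

namespace Pool.Agent.Lib.MP_7f377f_mp.RG.Q4.En.Gl

open Finset Real Cok Filter Tl MvPolynomial Ju Kz
open Zg (V0 Og)
open scoped Classical

attribute [local irreducible] box lbox tb tau rc

variable {α β : Type} [Fintype α] [DecidableEq α] [Fintype β] (G : Gl)

/-- the letter `Y` has the size `y` at the level `j` and grows with the exponent `m` -/
def Gx (w : α → ℕ) (d D C : ℕ) (c : ℕ → St) (b : ℝ) (J j : ℕ) (p : ℕ → (α → ℝ) →ₗ[ℝ] V)
    (l : ℕ → V →ₗ[ℝ] α → ℝ) (U : ℕ → Module.End ℝ (α → ℝ)) (m : ℕ) (Y : Lq) (y : ℝ) : Prop :=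
  ∀ i, j ≤ i → i ≤ J → G.zP w d D C c J j p l U i (G.ls D c b J Y i) (y * (G.rt i j : ℝ) ^ m) ∧
    ‖G.ys w d D C c b J j p Y i‖ ≤ y * (G.rt i j : ℝ) ^ m

/-- modulo constants and null letters the Wick ordered letter of `e` is the letter with the
coefficients `t`, which has the size `y` at the site `x` at the level `o` -/
structure Kq {𝒜 : Set CM} [Og 𝒜] [Adj 𝒜] (s C d : ℕ) (b : ℝ) (J o : ℕ) (x : St) (e : V0 𝒜) (y : ℝ)
    (t : Bq 𝒜 s → ℝ) : Prop where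
  eq : ∃ a : ℝ, ∃ n ∈ Nu0 𝒜 s d, MvPolynomial.C (a : ℂ) + Py (G.ka (s + 1) C J) t =
    Ze 𝒜 (G.rt J o : ℝ)⁻¹ √(2 * b) e + Py (G.ka (s + 1) C J) n
  dg : t ∈ Dq 𝒜 s d
  nrm : ‖t‖ ≤ y * (G.rt J o : ℝ) ^ d
  gy : G.Gy Jt.wt d (s + 1) C (G.tk x J) b J o (G.sek s b J) (G.lK s (G.tk x J) b J)
    (G.Uk s (G.tk x J) b J) y (Tl.lq (Py (G.ka (s + 1) C J) t))

variable {G} {w : α → ℕ} {b M δ K K' x y y' : ℝ} {s d d' D C J j k i R m n A : ℕ} {c : ℕ → St}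
  {ω : ℕ → ℝ} {p : ℕ → (α → ℝ) →ₗ[ℝ] V} {l : ℕ → V →ₗ[ℝ] α → ℝ}
  {U U' : ℕ → Module.End ℝ (α → ℝ)} {ν : β → ℕ} {X : β → Lq} {Y : Lq} {u : Jv}

/-- the sizes depend only on the part of the track between the two levels -/
theorem Gy.congr {c' : ℕ → St} (a : G.Gy w d D C c b J j p l U y Y)
    (e : ∀ i, j ≤ i → i ≤ J → c' i = c i) : G.Gy w d D C c' b J j p l U y Y := by
  have g : ∀ i, j ≤ i → i ≤ J → G.ag D c' i = G.ag D c i := fun i h1 h2 => by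
    simp only [ag, e i h1 h2]
  intro m h1 h2
  have s : ∀ i, j ≤ i → i ≤ J → G.ls D c' b J Y i = G.ls D c b J Y i :=
    down (by rw [ls_top, ls_top, e J (h1.trans h2) le_rfl]) fun i e1 e2 ih => by
      rw [ls, ls, jF, jF, Cok.fw_step _ _ e2, Cok.fw_step _ _ e2]
      rw [ls, ls, jF, jF] at ih
      rw [ih, jT, jT, g (i + 1) (by omega) e2]
  have := a m h1 h2
  rw [ys, zP, jP] at this ⊢
  rwa [s m h1 h2, g m h1 h2]

namespace Tk

variable (T : G.Tk w d D C M c b J j ω p l U U')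
include T

theorem gx_mono (a : G.Gx w d D C c b J j p l U m Y y) (e : y ≤ y') (e' : m ≤ n) :
    G.Gx w d D C c b J j p l U n Y y' := by
  intro i h1 h2
  obtain ⟨a1, a2⟩ := a i h1 h2
  have r1 : (1 : ℝ) ≤ G.rt i j := by simpa using Ok.rt0 (G := G) i j 1
  have y0 : 0 ≤ y := nonneg_of_mul_nonneg_left (T.zP0 a1) (by positivity)
  have q : y * (G.rt i j : ℝ) ^ m ≤ y' * (G.rt i j : ℝ) ^ n := by gcongr; linarith
  exact ⟨T.co.mono _ _ _ _ a1 q, a2.trans q⟩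

variable (J1 : G.Tj D R δ J) (δ1 : δ ≤ 1)
include J1 δ1

/-- the sizes at the top -/
theorem fam {𝒜 : Set CM} [Og 𝒜] (K0 : 0 < K) (top : ∀ q : Bq 𝒜 s, 1 ≤ q.2.dg ∧
      Tl.Top R q.2.dg δ K (pG q.P) (px q.P) (Tl.pa q.P)) {t : Bq 𝒜 s → ℝ} (ht : t ∈ Dq 𝒜 s d)
    (hx : K * Fintype.card (Bq 𝒜 s) * ‖t‖ ≤ x) :
    Lt1 R δ (x / G.ka D C J ^ d) (Tl.lq (Py (G.ka D C J) t)) ∧
      G.zP w d D C c J j p l U J (G.tp D b J (c J) (Tl.lq (Py (G.ka D C J) t))) (G.Yr d C J * x) ∧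
      ‖G.ys w d D C c b J j p (Tl.lq (Py (G.ka D C J) t)) J‖ ≤ G.Yr d C J * x := by
  have k0 := T.ok.ka0 D C J
  have k1 := T.ka1 J1 δ1
  have y1 := T.ok.Yr1 d C J
  obtain ⟨Z, hZ⟩ : ∃ Z : Bq 𝒜 s → Lq, Z = fun q =>
      ((t q * (G.ka D C J ^ q.2.dg)⁻¹ : ℝ) : ℂ) • Tl.lq q.P := ⟨_, rfl⟩
  have e : Tl.lq (Py (G.ka D C J) t) = ∑ q, (1 : ℂ) • Z q := by
    simp only [Py, Fintype.linearCombination_apply, map_sum, hZ, smul_smul]
    exact sum_congr rfl fun q _ => by rw [← map_smul, one_mul, Complex.coe_smul]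
  have z : ∀ q, Lt1 R δ (K * ‖t‖ / G.ka D C J ^ d) (Z q) ∧
      G.zP w d D C c J j p l U J (G.tp D b J (c J) (Z q)) (K * ‖t‖) ∧
      ‖G.zq w d D C J j p J (G.tp D b J (c J) (Z q))‖ ≤ G.Yr d C J * (K * ‖t‖) := fun q => by
    by_cases hq : q.2.dg ≤ d
    · obtain ⟨m1, H⟩ := top q
      have n1 := norm_le_pi_norm t q
      have n2 : ‖((t q * (G.ka D C J ^ q.2.dg)⁻¹ : ℝ) : ℂ)‖ = ‖t q‖ / G.ka D C J ^ q.2.dg := by
        rw [Complex.norm_real, norm_mul, norm_inv, Real.norm_of_nonneg (pow_pos k0 _).le,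
          div_eq_mul_inv]
      have P := T.tp_P (Y := Tl.lq q.P) J1 H K0 m1 hq
      have Q := T.tp_q (Y := Tl.lq q.P) J1 H m1 hq
      obtain ⟨P1, P2⟩ := T.co.lin J _ _ _ _ ((t q * (G.ka D C J ^ q.2.dg)⁻¹ : ℝ) : ℂ) (T.co.zero J) P
      rw [zero_add] at P1 P2
      rw [T.co.q0, zero_add] at P2
      rw [ys, ls_top] at Q
      simp only [hZ, map_smul]
      refine ⟨((lt1_of (Y := Tl.lq q.P) H m1 δ1).smul _).mono le_rfl le_rfl ?_,
        T.co.mono _ _ _ _ P1 ?_, ?_⟩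
      · rw [n2, div_mul_eq_mul_div, mul_comm]
        exact div_le_div₀ (by positivity) (by gcongr) (by positivity)
          (pow_le_pow_of_le_one k0.le k1 hq)
      · rw [zero_add, n2]
        calc _ = K * ‖t q‖ := by field_simp
          _ ≤ _ := by gcongr
      · rw [P2, norm_smul, n2]
        calc _ ≤ ‖t q‖ / G.ka D C J ^ q.2.dg * (G.Yr d C J * (K * G.ka D C J ^ q.2.dg)) := by gcongr
          _ = G.Yr d C J * (K * ‖t q‖) := by field_simp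
          _ ≤ _ := by gcongr
    · have : Z q = 0 := by simp [hZ, show t q = 0 from ht q hq]
      rw [this, map_zero, T.co.q0, norm_zero]
      exact ⟨(Lt1.zero R δ).mono le_rfl le_rfl (by positivity),
        T.co.mono _ _ _ _ (T.co.zero J) (by positivity), by positivity⟩
  have hx' : Fintype.card (Bq 𝒜 s) * (K * ‖t‖) ≤ x := by linarith
  have x0 : 0 ≤ x := le_trans (by positivity) hx'
  obtain ⟨S1, S2⟩ := T.co.sum univ (fun _ => (1 : ℂ)) _ _ fun q => (z q).2.1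
  rw [ys, ls_top, e, map_sum]
  simp only [map_smul]
  refine ⟨?_, T.co.mono _ _ _ _ S1 ?_, ?_⟩
  · simp only [one_smul]
    refine (Lt1.sum univ fun q => (z q).1).mono le_rfl le_rfl ?_
    rw [sum_const, card_univ, nsmul_eq_mul, ← mul_div_assoc]
    gcongr
  · simp only [norm_one, one_mul, sum_const, card_univ, nsmul_eq_mul]
    nlinarith
  · rw [S2]
    simp only [one_smul]
    refine (norm_sum_le_of_le _ fun q _ => (z q).2.2).trans ?_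
    rw [sum_const, card_univ, nsmul_eq_mul, mul_left_comm]
    gcongr

/-- admissible radii -/
theorem rx (big : ∀ o ≥ j, G.Big A o) (d1 : 1 ≤ d) (o : Lt1 R δ K Y)
    (a : G.Gx w d D C c b J j p l U m Y y) (y0 : 0 < y) (hn : m + 5 ≤ n)
    (hK : K ≤ y * (G.rt J j : ℝ) ^ (n - 5)) :
    G.RxA A b J j R (G.rH n j (G.QA A j ^ 346 * y)) (G.jx J (c J) Y) := by
  have h := T.ok
  have q := h.QA1 A
  have r0 : ∀ o, 0 ≤ G.rH n j (G.QA A j ^ 346 * y) o := fun o => by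
    have := q j
    unfold Gl.rH
    positivity
  refine T.rxA J1 d1 o δ1 le_rfl r0 (le_trans ?_ (h.rH_le big T.hj.le y0 (by omega) o.nn hK))
    fun i h1 h2 => ⟨_, _, (a i h1 h2.le).1, (a i h1 h2.le).2, le_trans ?_ (h.rH_le (n := n) big h1 y0
      (by omega) (by positivity) (mul_le_mul_of_nonneg_left (pow_le_pow_right₀ (m := m)
        (by simpa using Ok.rt0 i j 1) (by omega)) y0.le))⟩
  · have := mul_nonneg (r0 J) o.nn
    gcongr
    exacts [by linarith [q J], by norm_num]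
  · have := mul_nonneg (pow_nonneg (h.QA0 A i).le 344)
      (mul_nonneg (r0 i) (show 0 ≤ y * (G.rt i j : ℝ) ^ m by positivity))
    rw [pow_succ _ 344]
    nlinarith [q i]

end Tk

/-- the sizes of a letter at all levels -/
theorem Fk.own (F : G.Fk w d D C M c b J j ω p l U U' R δ K ν X) (o : Lt1 R δ K' Y) (x0 : 0 < x)
    (a : G.zP w d D C c J j p l U J (G.tp D b J (c J) Y) x)
    (hx : ‖G.ys w d D C c b J j p Y J‖ ≤ x) (h1 : d ≤ m) (h2 : m ≤ d + 1) :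
    G.Gx w d D C c b J j p l U m Y (9 * M * G.Pw d C j J *
      (‖G.ys w d D C c b J j p Y j‖ + x / (G.rt J j : ℝ) ^ m)) ∧
    ‖G.ys w d D C c b J j p Y j‖ ≤ 3 * G.Pw d C j J * x := by
  have h := F.T.ok
  have M1 := F.T.M1
  obtain ⟨t, b1, b2, b3⟩ := F.cmpT le_rfl F.T.hj.le x0 o a hx
  have P1 := h.Pw1 d C
  refine ⟨fun i e1 e2 => ?_, ?_⟩
  · obtain ⟨c1, c2⟩ := b3 i e1 e2
    have o' := F.lt1 t
    have s1 := F.T.ls_lin F.J1 F.d1 (o.sub o') o' 1 e1 e2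
    have s2 := F.T.ys_lin F.J1 F.d1 (o.sub o') o' 1 e1 e2
    rw [one_smul, sub_add_cancel] at s1 s2
    rw [one_smul] at s2
    have u := F.up t le_rfl e1 e2
    rw [b1] at u
    have r1 : ∀ i k, (1 : ℝ) ≤ G.rt i k := fun i k => by simpa using Ok.rt0 (G := G) i k 1
    have w1 : G.Pw d C i J ≤ G.Pw d C j J := by
      rw [← Ok.Pw_mul e1 e2]; nlinarith [P1 j i, P1 i J]
    have w2 : G.Pw d C j i ≤ G.Pw d C j J := by
      rw [← Ok.Pw_mul e1 e2]; nlinarith [P1 j i, P1 i J]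
    have p0 := P1 j J
    have a1 := r1 i j
    have a2 := r1 J i
    have t1 : G.Pw d C i J / (G.rt J i : ℝ) ^ (d + 1) * x ≤
        G.Pw d C j J * (x / (G.rt J j : ℝ) ^ m) * (G.rt i j : ℝ) ^ m := by
      calc _ ≤ G.Pw d C j J / (G.rt J i : ℝ) ^ m * x := by gcongr
        _ = _ := by rw [h.rt_rt e1 e2, Nat.cast_mul, mul_pow]; field_simp
    have t2 : ‖G.ys w d D C c b J j p (G.fl D C J ν X t) i‖ ≤
        G.Pw d C j J * ‖G.ys w d D C c b J j p Y j‖ * (G.rt i j : ℝ) ^ m := by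
      refine u.trans ?_
      rw [mul_right_comm]
      gcongr
    have n1 : 0 ≤ G.Pw d C j J * (x / (G.rt J j : ℝ) ^ m) * (G.rt i j : ℝ) ^ m := by positivity
    have n2 : 0 ≤ G.Pw d C j J * ‖G.ys w d D C c b J j p Y j‖ * (G.rt i j : ℝ) ^ m := by positivity
    have f : 9 * M * G.Pw d C j J * (‖G.ys w d D C c b J j p Y j‖ + x / (G.rt J j : ℝ) ^ m) *
        (G.rt i j : ℝ) ^ m = 9 * M * (G.Pw d C j J * ‖G.ys w d D C c b J j p Y j‖ *
          (G.rt i j : ℝ) ^ m + G.Pw d C j J * (x / (G.rt J j : ℝ) ^ m) * (G.rt i j : ℝ) ^ m) := by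
      ring
    rw [f, s1, s2]
    refine ⟨F.T.co.mono _ _ _ _ (F.T.co.lin i _ _ _ _ 1 c1 (F.cone t e1 e2)).1 ?_,
      (norm_add_le_of_le c2 t2).trans ?_⟩
    · rw [norm_one, one_mul]
      nlinarith [mul_le_mul_of_nonneg_left t1 (zero_le_one.trans M1),
        mul_le_mul_of_nonneg_left t2 (zero_le_one.trans M1)]
    · nlinarith
  · rw [← b1]
    refine (F.dn t le_rfl F.T.hj.le le_rfl).trans ?_
    have := P1 j J
    calc _ ≤ G.Pw d C j J * (3 * x) := by gcongr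
      _ = _ := by ring

end Pool.Agent.Lib.MP_7f377f_mp.RG.Q4.En.Gl
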