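import Mathlib

/-! Gram induction: letters which are small modulo null letters. -/

noncomputable section

namespace Pool.Agent.Lib.MP_7f377f_mp.Kz

variable {V Λ T : Type} [NormedAddCommGroup V] [NormedSpace ℝ V] [AddCommGroup Λ] [Module ℝ Λ]

/-- `Z e` is the letter with the label `e`, `σ x` is the size on the track `x`, `ν` is a crude
size, `B` is the true pair correlation and `φ` the free one -/
structure Gi (F : ℕ → Submodule ℝ V) (Nu : ℕ → Submodule ℝ Λ) (Z : V →ₗ[ℝ] Λ)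
    (σ : T → Seminorm ℝ Λ) (ν : Seminorm ℝ Λ) (D : ℕ) (M : ℝ) (H : ℕ → ℝ) (η lk : ℝ) : Prop where
  M1 : 1 ≤ M
  H0 : 0 ≤ H 0
  mH : Monotone H
  η0 : 0 ≤ η
  l0 : 0 ≤ lk
  fin : ∀ d, FiniteDimensional ℝ (F d)
  zero : F 0 = ⊥
  mF : Monotone F
  mN : Monotone Nu
  zν : ∀ e ∈ F D, ν (Z e) ≤ H D * ‖e‖
  cmp : ∀ x, ∀ d < D, ∃ τ : V →ₗ[ℝ] V, Set.MapsTo τ (F (d + 1)) (F d) ∧ ∀ e ∈ F (d + 1),
    ∀ e' ∈ F d, τ e = τ e' → ∃ n ∈ Nu d, σ x (Z (e - e') - n) ≤ M * ‖e‖ + η * ‖e'‖ ∧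
      ν n ≤ H (d + 1) * (‖e‖ + ‖e'‖)
  test : ∀ x, ∃ (x' : T) (B : Λ →ₗ[ℝ] Λ →ₗ[ℝ] ℝ) (φ : V →ₗ[ℝ] V →ₗ[ℝ] ℝ),
    (∀ a b, |B a b| ≤ M * σ x a * σ x' b + lk * ν a * ν b) ∧
    (∀ e ∈ F D, ∀ f ∈ F D, |B (Z e) (Z f) - φ e f| ≤ η * ‖e‖ * ‖f‖ ∧ |φ e f| ≤ M * ‖e‖ * ‖f‖) ∧
    (∀ n ∈ Nu D, ∀ a, B n a = 0 ∧ B a n = 0) ∧
    ∀ d ≤ D, ∀ e ∈ F d, ∀ y, 0 ≤ y → (∀ f ∈ F d, |φ e f| ≤ y * ‖f‖) → ‖e‖ ≤ M * y
  num : 2 * M * ((2 * M * η + 4 * lk * H D ^ 2) * (12 * M ^ 3) ^ 2 ^ D) ≤ 1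

theorem Gi.out {F : ℕ → Submodule ℝ V} {Nu : ℕ → Submodule ℝ Λ} {Z : V →ₗ[ℝ] Λ}
    {σ : T → Seminorm ℝ Λ} {ν : Seminorm ℝ Λ} {D : ℕ} {M η lk : ℝ} {H : ℕ → ℝ}
    (h : Gi F Nu Z σ ν D M H η lk) {d : ℕ} (hd : d ≤ D) (x : T) : ∀ e ∈ F d, ∃ n ∈ Nu d,
      σ x (Z e + n) ≤ (12 * M ^ 3) ^ (2 ^ d - 1) * ‖e‖ ∧
        ν n ≤ H d * (12 * M ^ 3) ^ (2 ^ d - 1) * ‖e‖ := by
  have M1 := h.M1
  have H0 := fun d => h.H0.trans (h.mH (Nat.zero_le d))
  have l0 := h.l0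
  have η0 := h.η0
  have M3 : 1 ≤ M ^ 3 := one_le_pow₀ M1
  induction d generalizing x with
  | zero => exact fun e he => ⟨0, Submodule.zero_mem _, by simp [show e = 0 by simpa [h.zero] using he]⟩
  | succ d ih =>
    obtain ⟨τ, mτ, hτ⟩ := h.cmp x d hd
    obtain ⟨x', B, φ, b1, b2, b3, b4⟩ := h.test x
    have q : (12 * M ^ 3) ^ (2 ^ (d + 1) - 1) = 12 * M ^ 3 * ((12 * M ^ 3) ^ (2 ^ d - 1)) ^ 2 := by
      rw [← pow_mul, ← pow_succ']
      exact congrArg _ (by have := Nat.one_le_two_pow (n := d); omega)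
    have m2 : (12 * M ^ 3) ^ (2 ^ d - 1) ≤ (12 * M ^ 3) ^ 2 ^ D := pow_le_pow_right₀ (by linarith)
      ((Nat.sub_le _ _).trans (Nat.pow_le_pow_right two_pos (by omega)))
    have m1 : 1 ≤ (12 * M ^ 3) ^ (2 ^ d - 1) := one_le_pow₀ (by linarith)
    have dD : d ≤ D := by omega
    replace ih := ih dD
    rw [q]
    generalize (12 * M ^ 3) ^ (2 ^ d - 1) = m at *
    have HD := H0 D
    have δ1 : 2 * M * ((2 * M * η + 4 * lk * H D ^ 2) * m) ≤ 1 := le_trans (by gcongr) h.num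
    have key : ∀ e ∈ F (d + 1), ∀ e' ∈ F d, τ e = τ e' → ‖e'‖ ≤ 5 * M ^ 3 * m * ‖e‖ := by
      intro e he e' h1 et
      obtain ⟨n, h2, h3, h4⟩ := hτ e he e' h1 et
      have e1 := (F D).sub_mem (h.mF hd he) (h.mF dD h1)
      have e2 := norm_sub_le e e'
      have t0 := norm_nonneg e
      have s0 := norm_nonneg e'
      have a4 : ν (Z (e - e') - n) ≤ 2 * H D * (‖e‖ + ‖e'‖) := (map_sub_le_add ν _ _).trans (by
        have a1 : ν (Z (e - e')) ≤ H D * (‖e‖ + ‖e'‖) := (h.zν _ e1).trans (by gcongr)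
        have : ν n ≤ H D * (‖e‖ + ‖e'‖) := h4.trans (by gcongr; exact h.mH hd)
        linarith)
      have c8 := b4 d dD e' h1 ((M + M ^ 2 * m) * ‖e‖ + (2 * M * η + 4 * lk * H D ^ 2) * m *
        (‖e‖ + ‖e'‖)) (by positivity) fun f f1 => by
          obtain ⟨n', g1, g2, g3⟩ := ih x' f f1
          have u0 := norm_nonneg f
          have a3 : ν (Z f + n') ≤ 2 * (H D * m * ‖f‖) := (map_add_le_add ν _ _).trans (by
            have : ν n' ≤ H D * m * ‖f‖ := g3.trans (by gcongr; exact h.mH dD)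
            nlinarith [h.zν f (h.mF dD f1), mul_nonneg HD u0])
          have c1 : |B (Z (e - e') - n) (Z f + n')| ≤ M * (M * ‖e‖ + η * ‖e'‖) * (m * ‖f‖) +
            lk * (2 * H D * (‖e‖ + ‖e'‖)) * (2 * (H D * m * ‖f‖)) := (b1 _ _).trans (by gcongr)
          have c4 : |B (Z (e - e')) (Z f) - φ (e - e') f| ≤ η * (‖e‖ + ‖e'‖) * ‖f‖ :=
            (b2 _ e1 f (h.mF dD f1)).1.trans (by gcongr)
          have c5 := (b2 _ (h.mF hd he) f (h.mF dD f1)).2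
          have c6 : φ e' f = φ e f - B (Z (e - e') - n) (Z f + n') +
              (B (Z (e - e')) (Z f) - φ (e - e') f) := by
            simp only [map_sub φ, map_sub B, LinearMap.sub_apply, map_add,
              (b3 _ (h.mN dD g1) _).2, (b3 _ (h.mN dD h2) _).1]
            ring
          have v1 : η * (‖e‖ + ‖e'‖) * ‖f‖ ≤ M * m * (η * (‖e‖ + ‖e'‖) * ‖f‖) :=
            le_mul_of_one_le_left (by positivity) (one_le_mul_of_one_le_of_one_le M1 m1)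
          have v2 : 0 ≤ M * m * η * ‖e‖ * ‖f‖ := by positivity
          rw [c6]
          refine (abs_add_le _ _).trans ((add_le_add (abs_sub _ _) le_rfl).trans ?_)
          linarith
      have v2 := mul_le_mul_of_nonneg_right δ1 (add_nonneg t0 s0)
      have v3 : 1 ≤ M ^ 3 * m := one_le_mul_of_one_le_of_one_le M3 m1
      have v4 : M ^ 2 ≤ M ^ 3 * m :=
        (pow_le_pow_right₀ M1 (by norm_num)).trans (le_mul_of_one_le_right (by positivity) m1)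
      nlinarith [mul_le_mul_of_nonneg_right v3 t0, mul_le_mul_of_nonneg_right v4 t0]
    intro e he
    have := h.fin d
    obtain ⟨⟨e', h1⟩, et⟩ := LinearMap.injective_iff_surjective.1
      ((injective_iff_map_eq_zero (τ.restrict fun _ a => mτ (h.mF d.le_succ a))).2 fun a u =>
        Subtype.ext (by simpa using key 0 (zero_mem _) a a.2 (by
          rw [map_zero]; exact (congrArg Subtype.val u).symm))) ⟨τ e, mτ he⟩
    have et : τ e = τ e' := (congrArg Subtype.val et).symm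
    obtain ⟨n, h2, h3, h4⟩ := hτ e he e' h1 et
    obtain ⟨n'', k1, k2, k3⟩ := ih x e' h1
    have c8 := key e he e' h1 et
    have t0 := norm_nonneg e
    have s0 := norm_nonneg e'
    have v5 : 1 ≤ M ^ 3 * m ^ 2 := one_le_mul_of_one_le_of_one_le M3 (one_le_pow₀ m1)
    have v6 : M ≤ M ^ 3 * m ^ 2 := (le_self_pow₀ M1 (by norm_num)).trans
      (le_mul_of_one_le_right (by positivity) (one_le_pow₀ m1))
    have η1 : η ≤ m := by
      have : 0 ≤ M * lk * H D ^ 2 * m := by positivity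
      have : η ≤ M * M * m * η := le_mul_of_one_le_left η0 (one_le_mul_of_one_le_of_one_le
        (one_le_mul_of_one_le_of_one_le M1 M1) m1)
      nlinarith
    have v7 : m * ‖e'‖ ≤ 5 * M ^ 3 * m ^ 2 * ‖e‖ := by
      nlinarith [mul_le_mul_of_nonneg_left c8 (zero_le_one.trans m1)]
    refine ⟨n'' - n, h.mN d.le_succ ((Nu d).sub_mem k1 h2), ?_, (map_sub_le_add ν _ _).trans ?_⟩
    · rw [show Z e + (n'' - n) = Z (e - e') - n + (Z e' + n'') by rw [map_sub]; abel]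
      refine (map_add_le_add _ _ _).trans ?_
      nlinarith [mul_le_mul_of_nonneg_right v6 t0, mul_le_mul_of_nonneg_right η1 s0]
    · have H1 := H0 (d + 1)
      have : ν n'' ≤ H (d + 1) * (m * ‖e'‖) :=
        k3.trans (by rw [mul_assoc]; gcongr; exact h.mH d.le_succ)
      have v8 : m * ‖e'‖ + (‖e‖ + ‖e'‖) ≤ 12 * M ^ 3 * m ^ 2 * ‖e‖ := by
        nlinarith [mul_le_mul_of_nonneg_right v5 t0, mul_le_mul_of_nonneg_right m1 s0]
      nlinarith [mul_le_mul_of_nonneg_left v8 H1]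

end Pool.Agent.Lib.MP_7f377f_mp.Kz
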