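import Pool.Agent.Lib.MP_7f377f_mp.G.KyS
import Pool.Agent.Lib.MP_7f377f_mp.G.KzS0
import Pool.Agent.Lib.MP_7f377f_mp.G.KyB

/-! Pairs of letters in a short run and the Gram induction. -/

noncomputable section

set_option linter.unusedSectionVars false
variable [Pool.Agent.Lib.MP_7f377f_mp.GD]

namespace Pool.Agent.Lib.MP_7f377f_mp.RG.Q4.En.Gl

open Finset Real Cok Filter Tl Ju Kz
open Zg (V0 Og)
open Wd (B4)
open scoped Classical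

attribute [local irreducible] box lbox tb tau rc

variable (G : Gl) (𝒜 : Set CM) [Og 𝒜] [Adj 𝒜]

/-- the setting: `Λ` bounds all the losses -/
structure Sr (s C A n R j o J : ℕ) (b M δ K K' Λ : ℝ) : Prop where
  W : G.Fw 𝒜 s C M R δ K b J o
  u : G.Sru A R b J o o
  s2 : 2 ≤ s
  K0 : 0 < K'
  top : ∀ q : Bq 𝒜 s, 1 ≤ q.2.dg ∧ Tl.Top R q.2.dg δ K' (pG q.P) (px q.P) (Tl.pa q.P)
  lc : ∀ κ (t : Bq 𝒜 s → ℝ), MP_7f377f_mp.Wx.Lc R (Lq.re (Tl.lq (Py κ t)))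
  jo : j < o
  big : 9000 ≤ G.L j
  hn : s + 6 ≤ n
  nA : n + 1 ≤ A
  Λ1 : 100 ≤ Λ
  hM : M ≤ Λ
  hK : K' * Fintype.card (Bq 𝒜 s) ≤ Λ
  pw : ∀ d ≤ s, G.Pw d C o J ≤ Λ ∧ G.Yr d C o ≤ Λ ∧ G.Yr d C J ≤ Λ
  qa : G.QA (A + 1) o ^ 346 * G.Q o ^ 50 ≤ Λ
  ka : (G.rt J o : ℝ) ^ (s + 1) ≤ G.ka (s + 1) C J ^ s * (G.rt J o : ℝ) ^ (n - 5)

/-- the Wick ordered letters `Z`, the Gaussian limit at the distance `v` and the small numbers -/
structure Srq (s C A n R j o J N r : ℕ) [NeZero (G.N J)] (b M δ K K' Λ : ℝ) (v : St)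
    (Z : V0 𝒜 →ₗ[ℝ] Bq 𝒜 s → ℝ) : Prop extends G.Sr 𝒜 s C A n R j o J b M δ K K' Λ where
  Z1 : ∀ d ≤ s, ∀ e ∈ Vp 𝒜 d, (∃ a : ℝ, Ze 𝒜 (G.rt J o : ℝ)⁻¹ √(2 * b) e =
    MvPolynomial.C (a : ℂ) + Py (G.ka (s + 1) C J) (Z e)) ∧ Z e ∈ Dq 𝒜 s (d / 2) ∧
      ‖Z e‖ ≤ Λ * (G.rt J o : ℝ) ^ d * ‖e‖
  nul : ∀ κ d, ∀ t ∈ Nu0 𝒜 s d, Nul R (pG (Py κ t))
  hr : r + G.rt J o ≤ G.rt J j
  ds : ∀ x, Ds (21 * (G.L o * G.sJ J o) : ℕ) r (x + (G.rt J o : ℤ) • v) x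
  ga : ∀ x, ∃ φ : V0 𝒜 →ₗ[ℝ] V0 𝒜 →ₗ[ℝ] ℝ, (∀ e ∈ Vp 𝒜 s, ∀ f ∈ Vp 𝒜 s,
    |Kz.cL (Fi.tr haar) b (G.N J) ![G.zL 𝒜 b J o f, G.zL 𝒜 b J o e]
      ![x + (G.rt J o : ℤ) • v, x] - φ e f| ≤ (Λ ^ N)⁻¹ * ‖e‖ * ‖f‖ ∧ |φ e f| ≤ Λ * ‖e‖ * ‖f‖) ∧
    ∀ d ≤ s, ∀ e ∈ Vp 𝒜 d, ∀ y, 0 ≤ y → (∀ f ∈ Vp 𝒜 d, |φ e f| ≤ y * ‖f‖) → ‖e‖ ≤ Λ * y
  hN : 25 * 2 ^ s + 31 ≤ N
  rN : Λ ^ (N + 8) ≤ G.rt J o
  lk : G.kD j 2 * (G.rt J o : ℝ) ^ (2 * s) * Λ ^ N ≤ 2 ^ (o - j)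

variable {𝒜}

/-- the letter with the coefficients `t` -/
abbrev yq (s C J : ℕ) (t : Bq 𝒜 s → ℝ) : Lq := Tl.lq (Py (G.ka (s + 1) C J) t)

/-- its symbol -/
abbrev sy (s C d : ℕ) (b : ℝ) (J o : ℕ) (x : St) (Y : Lq) (i : ℕ) : SyC (Jt.wt (s := s)) d :=
  G.ys Jt.wt d (s + 1) C (G.tk x J) b J o (G.sek s b J) Y i

/-- its size -/
def sv (s C : ℕ) (b : ℝ) (J o : ℕ) (Λ : ℝ) (x : St) (t : Bq 𝒜 s → ℝ) : ℝ :=
  ‖G.sy s C s b J o x (G.yq s C J t) o‖ + Λ ^ 2 / (G.rt J o : ℝ) ^ (s + 1) * ‖t‖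

variable {G} {s C A n R j o J d m D : ℕ} {b M δ K K' Λ y : ℝ} {x : St} {t : Bq 𝒜 s → ℝ}

namespace Sr

variable (S : G.Sr 𝒜 s C A n R j o J b M δ K K' Λ)
include S

theorem fr (hx : x ∈ G.Gs J o) (d1 : 1 ≤ d) (hd : d ≤ s) : G.Sf 𝒜 s C d M R δ K b J o x :=
  S.W.fr x hx d d1 (by omega)

theorem fs (hx : x ∈ G.Gs J o) : G.Sf 𝒜 s C s M R δ K b J o x :=
  S.fr hx (by linarith [S.s2]) le_rfl

theorem dq (hx : x ∈ G.Gs J o) (t : Bq 𝒜 s → ℝ) : t ∈ Dq 𝒜 s s :=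
  fun q a => (a ((S.fs hx).top q.2).2.1).elim

/-- the sizes at the top -/
theorem fam (hx : x ∈ G.Gs J o) (d1 : 1 ≤ d) (hd : d ≤ s) (ht : t ∈ Dq 𝒜 s d) (hy : ‖t‖ ≤ y) :
    Lt1 R δ (Λ * y / G.ka (s + 1) C J ^ d) (G.yq s C J t) ∧
      G.zP Jt.wt d (s + 1) C (G.tk x J) J o (G.sek s b J) (G.lK s (G.tk x J) b J)
        (G.Uk s (G.tk x J) b J) J (G.tp (s + 1) b J (G.tk x J J) (G.yq s C J t)) (Λ ^ 2 * y) ∧
      ‖G.sy s C d b J o x (G.yq s C J t) J‖ ≤ Λ ^ 2 * y := by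
  have F := S.fr hx d1 hd
  have := S.Λ1
  have y0 := (norm_nonneg _).trans hy
  obtain ⟨a1, a2, a3⟩ := F.T.fam F.J1 F.δ1 S.K0 S.top ht (x := Λ * y)
    (mul_le_mul S.hK hy (norm_nonneg _) (by linarith))
  have e : G.Yr d C J * (Λ * y) ≤ Λ ^ 2 * y := by
    rw [sq, mul_assoc]; gcongr; exact (S.pw d hd).2.2
  exact ⟨a1, F.T.co.mono _ _ _ _ a2 e, a3.trans e⟩

theorem own (hx : x ∈ G.Gs J o) (d1 : 1 ≤ d) (hd : d ≤ s) (ht : t ∈ Dq 𝒜 s d) (hy : ‖t‖ ≤ y)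
    (y0 : 0 < y) (h1 : d ≤ m) (h2 : m ≤ d + 1) :
    G.Gx Jt.wt d (s + 1) C (G.tk x J) b J o (G.sek s b J) (G.lK s (G.tk x J) b J)
      (G.Uk s (G.tk x J) b J) m (G.yq s C J t) (9 * Λ ^ 2 *
        (‖G.sy s C d b J o x (G.yq s C J t) o‖ + Λ ^ 2 / (G.rt J o : ℝ) ^ m * y)) ∧
      ‖G.sy s C d b J o x (G.yq s C J t) o‖ ≤ 3 * Λ ^ 3 * y := by
  have F := S.fr hx d1 hd
  have := S.Λ1
  have := F.T.M1
  have := F.T.ok.Pw1 d C o J
  obtain ⟨a1, a2, a3⟩ := S.fam hx d1 hd ht hy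
  obtain ⟨b1, b2⟩ := F.own a1 (by positivity) a2 a3 h1 h2
  refine ⟨F.T.gx_mono b1 ?_ le_rfl, b2.trans ?_⟩
  · rw [mul_div_right_comm, sq Λ, ← mul_assoc 9]
    gcongr
    exacts [S.hM, (S.pw d hd).1]
  · rw [pow_succ' Λ 2, ← mul_assoc, ← mul_assoc]
    gcongr
    exact (S.pw d hd).1

theorem sv_pos (ht : t ≠ 0) : 0 < G.sv s C b J o Λ x t := by
  have := S.Λ1
  have := norm_pos_iff.2 ht
  have := Ok.rt0 (G := G) J o (s + 1)
  unfold sv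
  positivity

theorem sv_le (hx : x ∈ G.Gs J o) (ht : t ≠ 0) : G.sv s C b J o Λ x t ≤ 4 * Λ ^ 3 * ‖t‖ := by
  have := S.Λ1
  have a := (S.own hx (by linarith [S.s2]) le_rfl (S.dq hx t) le_rfl (norm_pos_iff.2 ht) le_rfl
    s.le_succ).2
  have : Λ ^ 2 / (G.rt J o : ℝ) ^ (s + 1) * ‖t‖ ≤ Λ ^ 3 * ‖t‖ := by
    gcongr
    exact (div_le_self (by positivity) (Ok.rt0 ..)).trans
      (pow_le_pow_right₀ (by linarith) (by norm_num))
  unfold sv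
  linarith

theorem sv_tr (hx : x ∈ G.Gs J o) (v : St) :
    G.sv s C b J o Λ (x + (G.rt J o : ℤ) • v) t = G.sv s C b J o Λ x t := by
  rw [sv, sv, sy, (S.fs hx).T.ys_trl (S.W.ok.trl_tk x v) _ le_rfl S.u.iJ]

/-- letters are admissible slots -/
theorem sok (hx : x ∈ G.Gs J o) (ht : t ≠ 0) (hy : G.sv s C b J o Λ x t ≤ y) :
    G.Sok A R D R b J o o (G.rH n o (G.QA (A + 1) o ^ 346 * (9 * Λ ^ 2 * y))) ⟨x, G.yq s C J t, 0⟩ := by
  have F := S.fs hx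
  have h := S.W.ok
  have := S.Λ1
  have t0 := norm_pos_iff.2 ht
  have y0 := (S.sv_pos ht).trans_le hy
  have q := h.QA1 (A + 1) o
  have r := Ok.rt0 (G := G)
  have a := F.T.rx F.J1 F.δ1 S.u.big F.d1 (S.fam hx F.d1 le_rfl (S.dq hx t) le_rfl).1
    (F.T.gx_mono (S.own hx F.d1 le_rfl (S.dq hx t) le_rfl t0 s.le_succ le_rfl).1
      (y' := 9 * Λ ^ 2 * y) (by gcongr; exact hy) le_rfl) (by positivity) (n := n)
    (by linarith [S.hn]) (by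
      have k := pow_pos (h.ka0 (s + 1) C J) s
      have r1 := r J o (s + 1)
      have r2 := r J o (n - 5)
      have e : Λ ^ 2 * ‖t‖ ≤ y * (G.rt J o : ℝ) ^ (s + 1) := by
        rw [← div_le_iff₀ (by linarith), mul_div_right_comm]
        exact (le_add_of_nonneg_left (norm_nonneg _)).trans hy
      rw [div_le_iff₀ k, mul_assoc, mul_comm _ (G.ka _ _ _ ^ s)]
      calc _ ≤ Λ ^ 2 * ‖t‖ := by gcongr; nlinarith
        _ ≤ 9 * Λ ^ 2 * (y * (G.rt J o : ℝ) ^ (s + 1)) :=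
          e.trans (le_mul_of_one_le_left (by positivity) (by nlinarith))
        _ ≤ _ := by rw [← mul_assoc]; gcongr; exact S.ka)
  rw [tk_top] at a
  refine S.u.letter a (fun k _ _ => inv_pos.2 (by have := r k o n; positivity)) (fun k a1 a2 => ?_)
    fun U => pG_real (rl_Py t) U
  have := r k o n
  have L1 := h.L1 k
  rw [rH, rH, h.rt_upR a1, mul_pow _ _ n, ← mul_assoc _ (_ ^ n), mul_inv _ ((G.L k : ℝ) ^ n),
    mul_left_comm ((G.L k : ℝ) ^ _)]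
  refine le_mul_of_one_le_right (by positivity) ?_
  rw [← div_eq_mul_inv, one_le_div (by positivity)]
  exact pow_le_pow_right₀ (by linarith) (by have := S.nA; omega)

omit S in
theorem yq_lin (t t' : Bq 𝒜 s → ℝ) (r : ℝ) :
    G.yq s C J (t + r • t') = G.yq s C J t + (r : ℂ) • G.yq s C J t' := by
  rw [yq, map_add, map_smul, map_add, ← Complex.coe_smul, map_smul]

/-- the coordinates in the frame -/
theorem crd (hx : x ∈ G.Gs J o) (d1 : 1 ≤ d) (hd : d ≤ s) :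
    ∃ c : (Bq 𝒜 s → ℝ) →ₗ[ℝ] Tl.Bd 𝒜 d → ℝ, ∀ t,
      G.sy s C d b J o x (G.fz s C J (c t)) o = G.sy s C d b J o x (G.yq s C J t) o := by
  have F := S.fr hx d1 hd
  have a := fun t => (S.fam hx (d1.trans hd) le_rfl (S.dq hx t) le_rfl).1
  have : ∀ t, ∃ c : Tl.Bd 𝒜 d → ℝ, (F.eqv le_rfl S.u.iJ fun q => c q).1 =
      G.sy s C d b J o x (G.yq s C J t) o := fun t => by
    obtain ⟨y, e⟩ := F.T.ls_adm F.J1 d1 (a t) S.u.iJ le_rfl
    rw [ls_top] at e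
    obtain ⟨c, e, -⟩ := F.cmpT le_rfl S.u.iJ (one_pos.trans_le (le_max_left _ (max y _))) (a t)
      (F.T.co.mono _ _ _ _ e (le_max_of_le_right (le_max_left _ _)))
      (le_max_of_le_right (le_max_right _ _))
    obtain ⟨c, rfl⟩ : ∃ c' : _ → ℝ, c = fun q => (c' q : ℂ) := ⟨fun q => (c q).re, funext fun q =>
      Complex.ext rfl (F.cmpT_real lX_real le_rfl S.u.iJ (a t) (.lq (rl_Py t)) e q)⟩
    exact ⟨c, (F.eqv_val ..).trans e⟩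
  choose c hc using this
  have l : ∀ t t' (r : ℝ), c (t + r • t') = c t + r • c t' := fun t t' r => funext fun q => by
    have : (fun q => (c (t + r • t') q : ℂ)) = (fun q => (c t q : ℂ)) + (r : ℂ) • fun q =>
        (c t' q : ℂ) := (F.eqv le_rfl S.u.iJ).injective (Subtype.ext (by
      rw [map_add, map_smul, Submodule.coe_add, Submodule.coe_smul, hc, hc, hc, yq_lin]
      exact F.T.ys_lin F.J1 d1 (a t) (a t') r le_rfl S.u.iJ))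
    exact Complex.ofReal_injective ((congrFun this q).trans (by simp))
  have z : c 0 = 0 := by simpa using l 0 0 1
  exact ⟨⟨⟨c, fun t t' => by simpa using l t t' 1⟩, fun r t => by simpa [z] using l 0 t r⟩,
    fun t => (F.eqv_val ..).symm.trans (hc t)⟩

theorem sv_zero (hx : x ∈ G.Gs J o) : G.sv s C b J o Λ x (0 : Bq 𝒜 s → ℝ) = 0 := by
  have F := S.fs hx
  have a := (S.fam hx F.d1 le_rfl (S.dq hx 0) le_rfl).1
  have := F.T.ys_lin F.J1 F.d1 a a 1 le_rfl S.u.iJ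
  rw [← Complex.ofReal_one, ← yq_lin, smul_zero, add_zero, Complex.ofReal_one, one_smul,
    left_eq_add] at this
  rw [sv, sy, this, norm_zero, norm_zero, mul_zero, add_zero]

omit S in
theorem kD0 (j : ℕ) : 0 ≤ cCe 2 1 (exp (2 * G.Q j) * G.kSl j 2) ∧
    cCe 2 1 (exp (2 * G.Q j) * G.kSl j 2) ≤ G.kD j 2 := by
  have : 0 ≤ G.kSl j 2 := mul_nonneg (by positivity)
    (zero_le_one.trans (kq_le _ (exp_pos _).le _).1)
  have c0 : ∀ y, 0 ≤ y → 0 ≤ cCe 2 1 y := fun y _ => by unfold cCe; positivity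
  have := c0 (exp (2 * G.Q j)) (by positivity)
  have := c0 (exp (2 * G.Q j) * G.kSl j 2) (by positivity)
  rw [kD, Nat.cast_ofNat]
  exact ⟨this, by linarith⟩

/-- the size is a seminorm -/
def sn (hx : x ∈ G.Gs J o) : Seminorm ℝ (Bq 𝒜 s → ℝ) :=
  have F := S.fs hx
  have a := fun t => (S.fam hx F.d1 le_rfl (S.dq hx t) le_rfl).1
  have l := fun t t' (r : ℝ) => (congrArg (G.sy s C s b J o x · o) (yq_lin t t' r)).trans
    (F.T.ys_lin F.J1 F.d1 (a t) (a t') r le_rfl S.u.iJ)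
  .of (G.sv s C b J o Λ x) (fun t t' => by
    have := l t t' 1
    rw [one_smul, Complex.ofReal_one, one_smul] at this
    rw [sv, this, sv, sv, add_add_add_comm, ← mul_add]
    gcongr <;> exact norm_add_le _ _) fun r t => by
    have := l 0 t r
    have e := S.sv_zero hx
    rw [sv, norm_zero, mul_zero, add_zero, norm_eq_zero] at e
    rw [zero_add, show G.ys _ _ _ _ _ _ _ _ _ _ _ = 0 from e, zero_add] at this
    rw [sv, this, sv, norm_smul, norm_smul, Complex.norm_real, mul_add, mul_left_comm]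

/-- the crude bound for pairs -/
theorem cr2 [NeZero (G.N J)] {x : Fin 2 → St} (hx : ∀ a, x a ∈ G.Gs J o) (t : Fin 2 → Bq 𝒜 s → ℝ)
    (ht : ∀ a, t a ≠ 0) {r : ℕ} (hr : r + G.rt J o ≤ G.rt J j)
    (ds : Ds (21 * (G.L o * G.sJ J o) : ℕ) r (x 0) (x 1)) :
    |Kz.cL (Fi.tr haar) b (G.N J) (fun a => (G.yq s C J (t a)).re) x| ≤
      Λ ^ 8 * G.sv s C b J o Λ (x 0) (t 0) * G.sv s C b J o Λ (x 1) (t 1) +
        G.kD j 2 / 2 ^ (o - j) * Λ ^ 14 * ‖t 0‖ * ‖t 1‖ := by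
  have h := S.W.ok
  have := S.Λ1
  have oJ := S.u.iJ
  have jJ := S.jo.le.trans oJ
  obtain ⟨z, hz⟩ : ∃ z : Fin 2 → St, z = fun a => x a + (G.rt J o : ℤ) • -G.tk (x 0) J o := ⟨_, rfl⟩
  have gz : ∀ a, z a ∈ G.Gs J o := fun a => hz ▸ h.dg_add (hx a) _
  have dz : ∀ a a', z a - z a' = x a - x a' := fun a a' => by simp [hz]
  have ds' : ∀ a a', a ≠ a' → Ds (21 * (G.L o * G.sJ J o) : ℕ) r (z a) (z a') := fun a a' e => by
    have : Ds (21 * (G.L o * G.sJ J o) : ℕ) r (x a) (x a') := by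
      fin_cases a <;> fin_cases a' <;> first | exact (e rfl).elim | exact ds | exact ds.symm
    simpa only [Ds, ← Int.cast_sub, ← Pi.sub_apply, dz] using this
  have z0 := Op.mem_box.1 (h.tk_sub (x 0) o oJ)
  have zb : ∀ a, z a ∈ box (G.rt J j) := fun a => Op.mem_box.2 fun i => by
    have e : |z a i - z 0 i| ≤ r := by
      by_cases e : a = 0
      · simp [e]
      · exact_mod_cast (ds' a 0 e).2 i
    have := z0 i
    rw [sub_eq_add_neg, ← smul_neg, ← congrFun hz 0] at this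
    rw [abs_le] at e
    omega
  have n0 : ∀ g a, mq g (t a) ≠ 0 := fun g a => norm_ne_zero_iff.1 (by
    rw [norm_mq]; exact norm_ne_zero_iff.2 (ht a))
  have P := h.pta_long (W := 21 * (G.L o * G.sJ J o)) jJ zb fun a a' e =>
    (ds' a a' e).1.imp fun i c => by exact_mod_cast c
  have F : G.Fms A R 0 R b J o o j
      (fun k a => G.rH n o (G.QA (A + 1) o ^ 346 * (9 * Λ ^ 2 * (4 * Λ ^ 3 * ‖t a‖))) k)
      (fun g a => ⟨Wd.gv g (z a), G.yq s C J (mq g (t a)), 0⟩) (fun a => (G.yq s C J (t a)).re) z :=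
    ⟨S.u, S.jo, by simpa using S.big, fun g a => S.sok (gs_gv (gz a) g) (n0 g a)
      (norm_mq g (t a) ▸ S.sv_le (gs_gv (gz a) g) (n0 g a)), ⟨fun g a => by
        refine box_mono ?_ (P.inn g a)
        have := Nat.mul_le_mul (h.L_big j) (Nat.mul_le_mul_right (G.rt J j) (h.LK0 j).1)
        rw [sJ]
        omega, P.far⟩,
      fun g a => ⟨0, ⟨continuous_const, fun _ _ _ => rfl, fun _ _ _ => by simp⟩, fun U _ => by
        rw [tz_pb, tz_sh]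
        simp only [sqO, Prod.fst_zero, Pi.zero_apply, mul_zero, h.ta_zero oJ, add_zero,
          Complex.ofReal_zero, yq, ← act_Py]
        exact (Complex.conj_eq_iff_re.1 (Complex.conj_eq_iff_im.2 (pG_real (rl_Py _) _))).trans
          (pG_act g _ _).symm⟩⟩
  have e := F.crude (r' := fun k a => G.rH n o (G.QA (A + 1) o ^ 346 *
    (9 * Λ ^ 2 * G.sv s C b J o Λ (x a) (t a))) k) S.u (fun a => by
      simp only [Wd.gv_one, mq_one]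
      exact S.sok (gz a) (ht a) (by rw [hz]; exact (S.sv_tr (hx a) _).le)) fun a => by
    have := h.QA1 (A + 1) o
    have := S.sv_pos (x := x a) (ht a)
    have := Ok.rt0 (G := G) o o n
    unfold rH
    gcongr
    exact S.sv_le (hx a) (ht a)
  rw [hz, cL_tr b _ (fun a => .of_continuous (S.lc _ _).1)] at e
  refine e.trans ?_
  obtain ⟨w, hw⟩ : ∃ w : ℝ → ℝ, ∀ y, (G.rH n o (G.QA (A + 1) o ^ 346 * (9 * Λ ^ 2 * y)) o /
    G.Q o ^ 50)⁻¹ = w y := ⟨_, fun _ => rfl⟩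
  have q : ∀ y, 0 ≤ y → 0 ≤ w y ∧ w y ≤ 9 * Λ ^ 3 * y := fun y y0 => by
    have := h.QA0 (A + 1) o
    have := h.Q0 o
    rw [← hw, rH, rt_top, Nat.cast_one, one_pow, mul_one, inv_div, div_inv_eq_mul, ← mul_assoc,
      mul_comm (G.Q o ^ 50)]
    exact ⟨by positivity, (mul_le_mul_of_nonneg_right S.qa (by positivity)).trans_eq (by ring)⟩
  have m : ∀ y y', 0 ≤ y → 0 ≤ y' → 0 ≤ w y * w y' ∧ w y * w y' ≤ 81 * Λ ^ 6 * (y * y') :=
    fun y y' a a' => ⟨mul_nonneg (q y a).1 (q y' a').1,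
      (mul_le_mul (q y a).2 (q y' a').2 (q y' a').1 (by positivity)).trans_eq (by ring)⟩
  have s0 := fun a => (S.sv_pos (x := x a) (ht a)).le
  have c1 := kD0 (G := G) j
  have c2 : exp (2 ^ 2) ≤ 81 := by
    rw [show (2 : ℝ) ^ 2 = (4 : ℕ) * 1 by norm_num, exp_nat_mul]
    exact (pow_le_pow_left₀ (exp_pos 1).le exp_one_lt_three.le 4).trans (by norm_num)
  have c3 : 6561 ≤ Λ ^ 2 := by nlinarith
  simp only [Fintype.card_fin, Fin.prod_univ_two, Nat.cast_ofNat, hw]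
  have a1 := m _ _ (s0 0) (s0 1)
  have a2 := m (4 * Λ ^ 3 * ‖t 0‖) (4 * Λ ^ 3 * ‖t 1‖) (by positivity) (by positivity)
  refine add_le_add ((mul_le_mul c2 a1.2 a1.1 (by norm_num)).trans ?_) ((mul_le_mul c1.2
    (mul_le_mul_of_nonneg_left a2.2 (by positivity)) (mul_nonneg (by positivity) a2.1)
    (c1.1.trans c1.2)).trans ?_)
  · refine (mul_le_mul_of_nonneg_right c3 (mul_nonneg (pow_pos (by linarith : 0 < Λ) 6).le
      (mul_nonneg (s0 0) (s0 1)))).trans_eq' ?_ |>.trans_eq ?_ <;> ring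
  · refine (mul_le_mul_of_nonneg_right ((by norm_num : (1296 : ℝ) ≤ 6561).trans c3)
      (mul_nonneg (c1.1.trans c1.2) (show 0 ≤ (2 ^ (o - j))⁻¹ * Λ ^ 12 * ‖t 0‖ * ‖t 1‖ by
        positivity))).trans_eq' ?_ |>.trans_eq ?_ <;> ring

end Sr

namespace Srq

variable [NeZero (G.N J)] {N r : ℕ} {v : St} {Z : V0 𝒜 →ₗ[ℝ] Bq 𝒜 s → ℝ}
  (S : G.Srq 𝒜 s C A n R j o J N r b M δ K K' Λ v Z) (hx : x ∈ G.Gs J o)
include S hx

/-- completeness -/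
theorem cmp (hd : d < s) : ∃ τ : V0 𝒜 →ₗ[ℝ] V0 𝒜, Set.MapsTo τ (Vp 𝒜 (d + 1)) (Vp 𝒜 d) ∧
    ∀ e ∈ Vp 𝒜 (d + 1), ∀ e' ∈ Vp 𝒜 d, τ e = τ e' → ∃ t ∈ Nu0 𝒜 s d,
      G.sv s C b J o Λ x (Z (e - e') - t) ≤ Λ ^ 8 * ‖e‖ + (Λ ^ N)⁻¹ * ‖e'‖ ∧
        ‖t‖ ≤ 3 * Λ ^ 4 * (G.rt J o : ℝ) ^ (d + 1) * (‖e‖ + ‖e'‖) := by
  have Λ1 := S.Λ1
  have z : ∀ e e' : V0 𝒜, e = 0 → e' = 0 → ∃ t ∈ Nu0 𝒜 s d,
      G.sv s C b J o Λ x (Z (e - e') - t) ≤ Λ ^ 8 * ‖e‖ + (Λ ^ N)⁻¹ * ‖e'‖ ∧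
        ‖t‖ ≤ 3 * Λ ^ 4 * (G.rt J o : ℝ) ^ (d + 1) * (‖e‖ + ‖e'‖) := by
    rintro _ _ rfl rfl
    exact ⟨0, zero_mem _, by simp [S.sv_zero hx]⟩
  rcases d.eq_zero_or_pos with rfl | d1
  · exact ⟨0, fun _ _ => zero_mem _, fun e he e' he' _ => z e e' (by rwa [vp_one] at he)
      (by simpa [vp_one] using vp_mono zero_le_one he')⟩
  obtain ⟨c, hc⟩ := S.crd hx d1 hd.le
  refine ⟨Fintype.linearCombination ℝ (fun q : Vd 𝒜 d => q.1.c) ∘ₗ .funLeft ℝ ℝ .inl ∘ₗ c ∘ₗ Z,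
    fun e _ => Submodule.sum_mem _ fun q _ => Submodule.smul_mem _ _ (by simpa only [bV_ap] using (bV 𝒜 d q).2),
    fun e he e' he' h => ?_⟩
  have r1 : (1 : ℝ) ≤ G.rt J o := by simpa using Ok.rt0 (G := G) J o 1
  obtain ⟨ε, hε⟩ : ∃ ε, ε = ‖e‖ + ‖e'‖ / G.rt J o := ⟨_, rfl⟩
  have e0 := norm_nonneg e
  have e1 : 0 ≤ ‖e'‖ / G.rt J o := by positivity
  rcases (hε ▸ add_nonneg e0 e1 : 0 ≤ ε).eq_or_lt with ε0 | ε0
  · exact z e e' (norm_eq_zero.1 (by linarith)) (norm_eq_zero.1 ((div_eq_zero_iff.1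
      (show ‖e'‖ / G.rt J o = 0 by linarith)).resolve_right (by positivity)))
  obtain ⟨n, n1, n2, n3⟩ := ex_nu0 hd.le (c (Z (e - e'))) (Fintype.linearIndependent_iff.1
    (vb_li.comp _ Subtype.val_injective) _ (by rw [← sub_eq_zero, ← map_sub] at h; exact h))
  have F := S.fr hx d1 hd.le
  have M1 := F.T.M1
  have hy : ‖Z (e - e')‖ ≤ Λ * (G.rt J o : ℝ) ^ (d + 1) * ε := by
    rw [map_sub, hε, mul_add]
    exact norm_sub_le_of_le (S.Z1 _ hd e he).2.2 ((S.Z1 _ hd.le e' he').2.2.trans_eq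
      (by field_simp; ring))
  obtain ⟨a1, a2, a3⟩ := S.fam hx d1 hd.le (fun q a => (S.Z1 _ hd _ (sub_mem he
    (vp_mono d.le_succ he'))).2.1 q fun u => a (by omega)) hy
  obtain ⟨t, b1, b2, b3⟩ := F.cmpT le_rfl S.u.iJ (by positivity) a1 a2 a3
  obtain rfl : t = fun q => (c (Z (e - e')) q : ℂ) := (F.eqv le_rfl S.u.iJ).injective
    (Subtype.ext (by rw [F.eqv_val, F.eqv_val, b1]; exact (hc _).symm))
  have b4 : ‖n‖ ≤ Λ * (3 * (Λ ^ 2 * (Λ * (G.rt J o : ℝ) ^ (d + 1) * ε))) := n2.trans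
    (((pi_norm_le_iff_of_nonneg (by positivity)).2 fun q => (Complex.norm_real _).ge.trans
      (single_le_sum (f := fun q => ‖(c (Z (e - e')) q : ℂ)‖) (fun _ _ => norm_nonneg _)
        (mem_univ q))).trans ((F.s1 _).trans (mul_le_mul S.hM b2 (norm_nonneg _) (by linarith))))
  refine ⟨n, n1, ?_, b4.trans ?_⟩
  · have b5 := (S.fs hx).T.cut F.T le_rfl S.u.iJ (b3 o le_rfl S.u.iJ).1 (b3 o le_rfl S.u.iJ).2
    have := F.T.ok.Pw1 d C o J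
    have := F.T.ok.Yr1 d C o
    rw [sv, show G.yq s C J (Z (e - e') - n) = G.yq s C J (Z (e - e')) - G.fz s C J _ by
      rw [← n3, yq, map_sub, map_sub]]
    calc _ ≤ Λ * Λ * (2 * (Λ / (G.rt J o : ℝ) ^ (d + 1) * (Λ ^ 2 * (Λ * (G.rt J o : ℝ) ^ (d + 1) *
          ε))) + 8 * Λ * (Λ / (G.rt J o : ℝ) ^ (d + 1) * (Λ ^ 2 * (Λ * (G.rt J o : ℝ) ^ (d + 1) *
          ε)))) + Λ ^ 2 / (G.rt J o : ℝ) ^ (d + 1) * (Λ * (G.rt J o : ℝ) ^ (d + 1) * ε +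
          Λ * (3 * (Λ ^ 2 * (Λ * (G.rt J o : ℝ) ^ (d + 1) * ε)))) := by
          refine add_le_add (b5.trans ?_) ?_
          · gcongr
            exacts [(S.pw s le_rfl).2.1, (S.pw d hd.le).2.1, (S.pw d hd.le).1, S.hM, (S.pw d hd.le).1]
          · gcongr
            exact norm_sub_le_of_le hy b4
      _ = (Λ ^ 3 + 5 * Λ ^ 6 + 8 * Λ ^ 7) * ε := by field_simp; ring
      _ ≤ Λ ^ 8 * ε := by
          gcongr
          nlinarith [pow_le_pow_right₀ (by linarith : 1 ≤ Λ) (show 3 ≤ 7 by norm_num),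
            pow_le_pow_right₀ (by linarith : 1 ≤ Λ) (show 6 ≤ 7 by norm_num), pow_pos
              (by linarith : 0 < Λ) 7]
      _ ≤ _ := by
          rw [hε, mul_add, ← mul_div_assoc, mul_div_right_comm]
          gcongr
          rw [div_le_iff₀ (by linarith), le_inv_mul_iff₀ (by positivity), ← pow_add]
          exact S.rN
  · calc _ = 3 * Λ ^ 4 * (G.rt J o : ℝ) ^ (d + 1) * ε := by ring
      _ ≤ _ := by rw [hε]; gcongr; exact div_le_self (norm_nonneg _) r1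

/-- the pair correlations -/
theorem test : ∃ (B : (Bq 𝒜 s → ℝ) →ₗ[ℝ] (Bq 𝒜 s → ℝ) →ₗ[ℝ] ℝ),
    (∀ t t', |B t t'| ≤ Λ ^ 8 * G.sv s C b J o Λ x t * G.sv s C b J o Λ x t' +
      G.kD j 2 / 2 ^ (o - j) * Λ ^ 14 * ‖t‖ * ‖t'‖) ∧
    (∀ e ∈ Vp 𝒜 s, ∀ f ∈ Vp 𝒜 s, B (Z e) (Z f) = Kz.cL (Fi.tr haar) b (G.N J)
      ![G.zL 𝒜 b J o f, G.zL 𝒜 b J o e] ![x + (G.rt J o : ℤ) • v, x]) ∧
    ∀ t ∈ Nu0 𝒜 s s, ∀ t', B t t' = 0 ∧ B t' t = 0 := by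
  have h := S.W.ok
  have L1 := S.Λ1
  let O : (Bq 𝒜 s → ℝ) →ₗ[ℝ] L6.Fz → ℝ :=
    { toFun t U := (pG (Py (G.ka (s + 1) C J) t) U).re
      map_add' t t' := funext fun U => by simp
      map_smul' c t := funext fun U => by
        rw [map_smul, ← Complex.coe_smul, map_smul]
        simp }
  have lc : ∀ t, MP_7f377f_mp.Wx.Lc R (O t) := S.lc _
  have m : ∀ t, Weak.BM (O t) := fun t => .of_continuous (lc t).1
  obtain ⟨B, hB⟩ := ex_cL2 (Fi.tr haar) b (G.N J) O O (fun t => ⟨m t, m t⟩)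
    ![x + (G.rt J o : ℤ) • v, x]
  have r1 := S.W.rad
  have r2 := S.hr
  have r3 : 5 * G.rt J j ≤ G.N J := by
    have a1 := h.e_big j
    have a2 : 0 < G.L j ^ (G.K0 + 1) := pow_pos (by linarith [h.L_big j]) _
    rw [← h.rt_N (S.jo.le.trans S.u.iJ), mul_comm]
    exact Nat.mul_le_mul_left _ (Nat.mul_le_mul h.odd.pos (show 5 ≤ 3 ^ G.e j by omega))
  have r4 : 0 < G.rt J o := pow_pos three_pos _
  have nul : ∀ t t' : Fin 2 → Bq 𝒜 s → ℝ, (∀ a, t a - t' a ∈ Nu0 𝒜 s s) →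
      B (t 0) (t 1) = B (t' 0) (t' 1) := fun t t' e => by
    have ds : Ds (2 * R + 2) r (x + (G.rt J o : ℤ) • v) x := (S.ds x).mono (by
      have := Nat.mul_le_mul (h.L_big o) (Nat.mul_le_mul_right (G.rt J o)
        (pow_pos (show 0 < G.L o by linarith [h.L_big o]) G.K0))
      rw [sJ]
      norm_cast
      omega) le_rfl
    rw [hB, hB]
    refine cL_null (R := R) (R₁ := r) (Fin.forall_fin_two.2 ⟨⟨lc _, lc _⟩, lc _, lc _⟩) ?_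
      (by simpa [Fin.forall_fin_two] using ⟨ds, ds.symm⟩) (by norm_cast; omega)
    have := fun a => nl_of_nul (S.nul (G.ka (s + 1) C J) _ _ (e a)) (h.N_odd J) (by omega) b
    refine Fin.forall_fin_two.2 ⟨⟨0, ?_⟩, 0, ?_⟩
    · simpa [O] using this 0
    · simpa [O] using this 1
  refine ⟨B.flip, fun t t' => ?_, fun e he f hf => ?_, fun t ht t' => ⟨?_, ?_⟩⟩
  · by_cases e : t = 0 ∨ t' = 0
    · rcases e with rfl | rfl <;> simp [S.sv_zero hx]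
    push Not at e
    have := S.cr2 (x := ![x + (G.rt J o : ℤ) • v, x])
      (Fin.forall_fin_two.2 ⟨h.dg_add hx v, hx⟩) ![t', t] (Fin.forall_fin_two.2 ⟨e.2, e.1⟩) r2 (S.ds x)
    rw [show (fun a => (G.yq s C J (![t', t] a)).re) = ![O t', O t] from
      funext (Fin.forall_fin_two.2 ⟨rfl, rfl⟩), ← hB] at this
    simp only [Matrix.cons_val_zero, Matrix.cons_val_one, S.sv_tr hx] at this
    exact this.trans_eq (by ring)
  · have z : ∀ e ∈ Vp 𝒜 s, ∃ a, O (Z e) = fun U => G.zL 𝒜 b J o e U - a := fun e he =>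
      (S.Z1 s le_rfl e he).1.imp fun a u => funext fun U => by
        change _ = (pG (Ze _ _ _ e) U).re - a
        rw [u]
        simp [O]
    obtain ⟨a, ha⟩ := z e he
    obtain ⟨c, hc⟩ := z f hf
    rw [LinearMap.flip_apply, hB, ha, hc, ← cL_const (T := ![G.zL 𝒜 b J o f, G.zL 𝒜 b J o e]) _ _
      (Fin.forall_fin_two.2 ⟨.of_continuous (lZ_cont ..), .of_continuous (lZ_cont ..)⟩) ![c, a]]
    exact congrArg (Kz.cL _ _ _ · _) (funext (Fin.forall_fin_two.2 ⟨rfl, rfl⟩))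
  · simpa using nul ![t', t] ![t', 0] (by simpa [Fin.forall_fin_two] using ht)
  · simpa using nul ![t, t'] ![0, t'] (by simpa [Fin.forall_fin_two] using ht)

/-- the result of the Gram induction -/
theorem gram (hd : d ≤ s) {e : V0 𝒜} (he : e ∈ Vp 𝒜 d) : ∃ t ∈ Nu0 𝒜 s d,
    G.sv s C b J o Λ x (Z e + t) ≤ Λ ^ (25 * 2 ^ s) * ‖e‖ ∧
      ‖t‖ ≤ 3 * Λ ^ 4 * (G.rt J o : ℝ) ^ d * Λ ^ (25 * 2 ^ s) * ‖e‖ := by
  have Λ1 := S.Λ1
  have r1 := Ok.rt0 (G := G) J o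
  have p : ∀ a b, a ≤ b → Λ ^ a ≤ Λ ^ b := fun _ _ => pow_le_pow_right₀ (by linarith)
  have k0 := (Sr.kD0 (G := G) j).1.trans (Sr.kD0 j).2
  have q : (12 * (Λ ^ 8) ^ 3) ^ 2 ^ s ≤ Λ ^ (25 * 2 ^ s) := by
    rw [pow_mul Λ 25, ← pow_mul Λ 8, pow_succ' Λ 24]
    gcongr
    linarith
  have p8 := p 1 8 (by norm_num)
  have p4 := p 1 4 (by norm_num)
  rw [pow_one] at p8 p4
  obtain ⟨t, a1, a2, a3⟩ := Gi.out (F := Vp 𝒜) (Nu := Nu0 𝒜 s) (Z := Z) (D := s) (M := Λ ^ 8)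
    (σ := fun _ : Unit => S.sn hx) (ν := normSeminorm ℝ _)
    (H := fun d => 3 * Λ ^ 4 * (G.rt J o : ℝ) ^ d) (η := (Λ ^ N)⁻¹)
    (lk := G.kD j 2 / 2 ^ (o - j) * Λ ^ 14) ⟨by linarith, by positivity,
      fun a a' e => by gcongr; exact one_rt J o, by positivity, by positivity,
      inferInstance, bot_unique ((vp_mono zero_le_one).trans vp_one.le), fun _ _ => vp_mono,
      nu0_mono, fun e he => (S.Z1 s le_rfl e he).2.2.trans (by gcongr; linarith),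
      fun _ _ => S.cmp hx, fun _ => by
        obtain ⟨B, a1, a2, a3⟩ := S.test hx
        obtain ⟨φ, b1, b2⟩ := S.ga x
        refine ⟨(), B, φ, a1, fun e he f hf => ⟨a2 e he f hf ▸ (b1 e he f hf).1,
          (b1 e he f hf).2.trans ?_⟩, a3, fun d hd e he y y0 a => (b2 d hd e he y y0 a).trans ?_⟩ <;>
          gcongr, by
        have e : G.kD j 2 / 2 ^ (o - j) * (G.rt J o : ℝ) ^ (2 * s) ≤ (Λ ^ N)⁻¹ := by
          rw [div_mul_eq_mul_div, div_le_iff₀ (by positivity), ← div_eq_inv_mul,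
            le_div_iff₀ (by positivity)]
          exact S.lk
        calc _ = (4 * Λ ^ 16 * (Λ ^ N)⁻¹ + 72 * Λ ^ 30 * (G.kD j 2 / 2 ^ (o - j) *
              (G.rt J o : ℝ) ^ (2 * s))) * (12 * (Λ ^ 8) ^ 3) ^ 2 ^ s := by ring
          _ ≤ (4 * Λ ^ 30 * (Λ ^ N)⁻¹ + 72 * Λ ^ 30 * (Λ ^ N)⁻¹) * Λ ^ (25 * 2 ^ s) := by
              gcongr
              exacts [by linarith, by norm_num]
          _ = 76 * Λ ^ (25 * 2 ^ s + 30) / Λ ^ N := by ring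
          _ ≤ _ := by
              rw [div_le_one (by positivity)]
              refine le_trans ?_ (p _ _ S.hN)
              rw [pow_succ' Λ (_ + 30)]
              gcongr
              linarith⟩ hd () e he
  have q' : (12 * (Λ ^ 8) ^ 3) ^ (2 ^ d - 1) ≤ Λ ^ (25 * 2 ^ s) := le_trans (pow_le_pow_right₀
    (by linarith [one_le_pow₀ (n := 3) (by linarith : 1 ≤ Λ ^ 8)])
    ((Nat.sub_le _ _).trans (Nat.pow_le_pow_right two_pos hd))) q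
  exact ⟨t, a1, a2.trans (by gcongr), a3.trans (by gcongr)⟩

theorem kq (d1 : 1 ≤ d) (hd : d ≤ s) {e : V0 𝒜} (he : e ∈ Vp 𝒜 d) :
    ∃ t, G.Kq s C d b J o x e (Λ ^ N * ‖e‖) t := by
  obtain ⟨u, u1, u2, u3⟩ := S.gram hx hd he
  obtain ⟨⟨a, z1⟩, z2, z3⟩ := S.Z1 d hd e he
  have F := S.fr hx d1 hd
  have F' := S.fs hx
  have Λ1 := S.Λ1
  have hN := S.hN
  have r := Ok.rt0 (G := G) J o d
  have n0 := norm_nonneg e
  have q : Z e + u ∈ Dq 𝒜 s d := add_mem (fun q a => z2 q fun b => a (b.trans (d.div_le_self 2)))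
    (nu0_dq S.s2 hd u1)
  generalize 25 * 2 ^ s = g at u2 u3 hN
  have g1 : 1 ≤ Λ ^ g := one_le_pow₀ (by linarith)
  have p {i} (h : i ≤ 31) : Λ ^ i * (Λ ^ g * ‖e‖) ≤ Λ ^ N * ‖e‖ := by
    rw [← mul_assoc, ← pow_add]
    gcongr
    exacts [by linarith, by omega]
  have y0 : ‖e‖ ≤ Λ ^ g * ‖e‖ := le_mul_of_one_le_left n0 g1
  rw [mul_assoc] at u3
  generalize Λ ^ g * ‖e‖ = y at u2 u3 p y0
  have w : ‖Z e + u‖ ≤ Λ ^ 5 * y * (G.rt J o : ℝ) ^ d := (norm_add_le_of_le z3 u3).trans (by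
    have : Λ * ‖e‖ + 3 * Λ ^ 4 * y ≤ Λ ^ 5 * y := by
      have : Λ ≤ Λ ^ 4 := le_self_pow₀ (by linarith) (by norm_num)
      nlinarith [mul_le_mul this y0 n0 (by positivity), mul_nonneg (pow_pos (show 0 < Λ by linarith) 4).le
        (n0.trans y0)]
    nlinarith)
  refine ⟨Z e + u, ⟨a, u, u1, by rw [z1, map_add, add_assoc]⟩, q,
    w.trans (mul_le_mul_of_nonneg_right (p (by norm_num)) (by linarith)), ?_⟩
  by_cases t0 : Z e + u = 0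
  · intro i h1 h2
    have z := F.T.ls_lin F.J1 F.d1 (Lt1.zero R δ) (Lt1.zero R δ) (-1) h1 h2
    rw [smul_zero, add_zero, neg_one_smul, add_neg_cancel] at z
    rw [t0, map_zero, map_zero, ys, z, F.T.co.q0, norm_zero]
    exact ⟨F.T.co.mono _ _ _ _ (F.T.co.zero i) (by positivity), by positivity⟩
  have c := (S.own hx F'.d1 le_rfl (S.dq hx _) le_rfl (norm_pos_iff.2 t0) s.le_succ le_rfl).1 o le_rfl
    S.u.iJ
  rw [rt_top, Nat.cast_one, one_pow, mul_one] at c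
  have c' : ‖G.sy s C d b J o x (G.yq s C J (Z e + u)) o‖ ≤ Λ * Λ * (9 * Λ ^ 2 * y + 9 * Λ ^ 2 * y) :=
    (F.T.cut F'.T le_rfl S.u.iJ c.1 c.2).trans (by
      have := (S.sv_pos (x := x) t0).le
      have := F.T.ok.Yr1 s C o
      gcongr
      exacts [(S.pw d hd).2.1, (S.pw s le_rfl).2.1, u2, u2])
  refine F.T.gx_mono (S.own hx d1 hd q le_rfl (norm_pos_iff.2 t0) le_rfl d.le_succ).1
    (le_trans ?_ (p (show 11 ≤ 31 by norm_num))) le_rfl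
  have v : Λ ^ 2 / (G.rt J o : ℝ) ^ d * ‖Z e + u‖ ≤ Λ ^ 7 * y := by
    rw [div_mul_eq_mul_div, div_le_iff₀ (by linarith)]
    exact (mul_le_mul_of_nonneg_left w (by positivity)).trans_eq (by ring)
  refine (mul_le_mul_of_nonneg_left (add_le_add c' v) (by positivity)).trans ?_
  have : 9 * (18 + Λ ^ 3) ≤ Λ ^ 5 := by
    nlinarith [pow_le_pow_left₀ (by norm_num) Λ1 3, pow_le_pow_left₀ (by norm_num) Λ1 2]
  exact le_trans (le_of_eq (by ring)) ((mul_le_mul_of_nonneg_right this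
    (show 0 ≤ Λ ^ 6 * y by have := n0.trans y0; positivity)).trans_eq (by ring))

end Srq

end Pool.Agent.Lib.MP_7f377f_mp.RG.Q4.En.Gl
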