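import Pool.Agent.Lib.MP_7f377f_mp.G.KyH
import Pool.Agent.Lib.MP_7f377f_mp.G.JsT

/-! The losses along short runs are small. -/

noncomputable section

set_option linter.unusedSectionVars false
variable [Pool.Agent.Lib.MP_7f377f_mp.GD]

namespace Pool.Agent.Lib.MP_7f377f_mp.RG.Q4.En.Gl

open Filter Topology Finset

theorem ev_sq (c : ℕ) : ∀ᶠ u : ℕ in atTop, c * u ^ 2 ≤ 2 ^ u := by
  filter_upwards [(tendsto_pow_const_div_const_pow_of_one_lt 3 one_lt_two).eventually_le_const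
    one_pos, eventually_ge_atTop c] with u a b
  rw [div_le_one (by positivity)] at a
  exact (Nat.mul_le_mul_right _ b).trans (by rw [← pow_succ']; exact_mod_cast a)

variable {G : Gl} {C k J : ℕ}

theorem rn_t (G : Gl) (k : ℕ) : G.rn k = G.t k ^ 4 := by
  rw [rn, L_eq, Nat.log_pow (by norm_num)]

namespace Ok

variable (h : G.Ok)
include h

theorem t_le {i : ℕ} (e : i ≤ k) : G.t k ≤ G.t i + (k - i) := by
  have := h.L_le e
  rw [L_eq, L_eq, ← pow_add] at this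
  rw [add_comm]
  exact (Nat.pow_le_pow_iff_right (by norm_num)).1 this

theorem t_mo : Monotone G.t := fun _ _ e => by
  have := h.L_mono e
  rw [L_eq, L_eq] at this
  exact (Nat.pow_le_pow_iff_right (by norm_num)).1 this

/-- short runs have few levels -/
theorem sh_len (hC : 1 ≤ C) (s : G.Sh C k J) : 2 ^ (J - k) ≤ G.t k := by
  have L := h.L1 k
  have a : (G.L k : ℝ) ^ (J - k) ≤ (G.L k : ℝ) ^ (4 * G.Bk k) :=
    (show _ ≤ (G.rt J k : ℝ) by exact_mod_cast h.le_rt k s.lt.le).trans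
      ((le_self_pow₀ (one_rt J k) (by omega)).trans (s.lo.trans ((h.sch.le k).1.trans (h.sch.upp k))))
  have b := (pow_le_pow_iff_right₀ (by linarith)).1 a
  have c : 100 ^ ((100 + 20) * (G.K + 4 * G.Bk k + 1)) ≤ G.rn k :=
    (h.sl_all k (G.top0 0 0)).nu.r_ge
  rw [rn_t] at c
  refine (Nat.pow_le_pow_iff_left four_ne_zero).1 (le_trans ?_ c)
  rw [← pow_mul]
  exact (Nat.pow_le_pow_left (by norm_num) _).trans (Nat.pow_le_pow_right (by norm_num) (by omega))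

theorem sh_pw (C0 d C m w : ℕ) (hC0 : 1 ≤ C0) : ∀ᶠ k in atTop, ∀ J, G.Sh C0 k J → ∀ o,
    k ≤ o + w → o ≤ J → G.Pw d C o J ^ m ≤ G.L k ∧ (G.L J : ℝ) ≤ (G.L k : ℝ) ^ 2 ∧
      (G.L k : ℝ) ≤ (G.L o : ℝ) ^ 2 ∧ G.Yr d C J ^ m ≤ G.L k := by
  obtain ⟨A, hA⟩ : ∃ A, A = 5 * (C * (60 * d + 40)) + 1 := ⟨_, rfl⟩
  have T : Tendsto (fun k => Nat.log 2 (G.t k)) atTop atTop := tendsto_atTop.2 fun n =>
    (h.t_top.eventually_ge_atTop (2 ^ n)).mono fun k a => Nat.le_log_of_pow_le one_lt_two a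
  filter_upwards [T.eventually (ev_sq (4 * A * m)), T.eventually_ge_atTop (2 * w + 4)]
    with k a1 a2 J s o h1 h2
  have b1 := h.sh_len hC0 s
  have b2 := Nat.le_log_of_pow_le one_lt_two b1
  have b3 := Nat.lt_pow_succ_log_self one_lt_two (G.t k)
  have b4 := Nat.pow_log_le_self 2 (show G.t k ≠ 0 by have := Nat.one_le_two_pow.trans b1; omega)
  have b5 := h.t_le s.lt.le
  generalize Nat.log 2 (G.t k) = u at *
  have b6 : u < 2 ^ u := Nat.lt_two_pow_self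
  have b7 : 2 ^ 4 ≤ 2 ^ u := Nat.pow_le_pow_right two_pos (by omega)
  have c1 : G.rn J ≤ G.t k ^ 5 := by
    rw [rn_t]
    refine (Nat.pow_le_pow_left (show _ ≤ 2 * G.t k by omega) 4).trans ?_
    rw [mul_pow, pow_succ' _ 4]
    exact Nat.mul_le_mul_right _ (by omega)
  have y0 : ∀ i, 1 ≤ G.Yr d C i := fun i => one_le_pow₀ (h.Xr1 C i)
  have c2 : ∀ i ≤ J, 4 * G.Yr d C i ≤ (G.t k : ℝ) ^ A := fun i e => by
    rw [hA, pow_succ', pow_mul, Yr, Xr, ← pow_mul]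
    gcongr
    · exact_mod_cast (by omega : 4 ≤ G.t k)
    · exact_mod_cast (h.rnm e).trans c1
  have c3 : ∀ n ≤ 2 * u, ((G.t k : ℝ) ^ A) ^ n ≤ ((G.t k : ℝ) ^ A) ^ (2 * u) := fun n e =>
    pow_le_pow_right₀ (by linarith [c2 J le_rfl, y0 J]) e
  have c4 : (((G.t k : ℝ) ^ A) ^ (2 * u)) ^ m ≤ G.L k := by
    rw [L_eq, ← pow_mul, ← pow_mul]
    norm_cast
    refine (Nat.pow_le_pow_left b3.le _).trans ?_
    rw [← pow_mul]
    refine (Nat.pow_le_pow_left (by norm_num) _).trans (Nat.pow_le_pow_right three_pos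
      (le_trans ?_ (a1.trans b4)))
    calc _ ≤ 2 * u * (A * (2 * u * m)) := Nat.mul_le_mul_right _ (by omega)
      _ = _ := by ring
  refine ⟨le_trans (pow_le_pow_left₀ (prod_nonneg fun i _ => by linarith [y0 i]) ?_ m) c4, ?_, ?_,
    le_trans (pow_le_pow_left₀ (by linarith [y0 J]) ?_ m) c4⟩
  · refine (prod_le_prod (fun i _ => by linarith [y0 i])
      fun i e => c2 i (mem_Ico.1 e).2.le).trans ?_
    rw [prod_const, Nat.card_Ico]
    exact c3 _ (by omega)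
  · rw [L_eq, L_eq]
    norm_cast
    rw [← pow_mul]
    exact Nat.pow_le_pow_right three_pos (by omega)
  · rw [L_eq, L_eq]
    norm_cast
    rw [← pow_mul]
    refine Nat.pow_le_pow_right three_pos ?_
    rcases le_total k o with e | e
    · have := h.t_mo e
      omega
    · have := h.t_le e
      omega
  · have := c3 1 (by omega)
    rw [pow_one] at this
    linarith [c2 J le_rfl, y0 J]

theorem rka (D : ℕ) : ∃ c : ℕ, ∀ C, ∀ᶠ J in atTop, ∀ m b, (G.wm m).Tu1 b J →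
    √(2 * b) * G.ka D C J ≤ (G.L J : ℝ) ^ c ∧
      1 ≤ (G.L J : ℝ) ^ c * (√(2 * b) * G.ka D C J) := by
  refine ⟨G.aA D + 1, fun C => ?_⟩
  filter_upwards [h.XrL4 C 1 (2 * GD.cG)] with J a m b t
  have v := (t.gd J le_rfl).tz.v
  rw [zz_top, abs_le] at v
  change _ ≤ b / G.bb J - 1 ∧ b / G.bb J - 1 ≤ _ at v
  have L := h.L1 J
  have x := h.Xr1 C J
  have g := GD.cG1
  have e : √(2 * b) * G.ka D C J = √(2 * (b / G.bb J)) *
      (G.L J : ℝ) ^ (G.aA D + 1 - 7 * G.K) / (2 * GD.cG * G.Xr C J) := by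
    rw [ka, h.lHe, Gl.g, ← mul_div_assoc 2, Real.sqrt_div' _ (h.b0 J).le]
    ring
  have s1 : 1 ≤ √(2 * (b / G.bb J)) := Real.one_le_sqrt.2 (by linarith [v.1])
  have s2 : √(2 * (b / G.bb J)) ≤ 2 := Real.sqrt_le_iff.2 ⟨by norm_num, by linarith [v.2]⟩
  have p1 : 1 ≤ (G.L J : ℝ) ^ (G.aA D + 1 - 7 * G.K) := one_le_pow₀ (by linarith)
  have p2 : (G.L J : ℝ) ^ (G.aA D + 1 - 7 * G.K) ≤ (G.L J : ℝ) ^ (G.aA D + 1) :=
    pow_le_pow_right₀ (by linarith) (by omega)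
  have p3 : (G.L J : ℝ) ^ (4⁻¹ : ℝ) ≤ (G.L J : ℝ) ^ (G.aA D + 1) := by
    rw [← Real.rpow_natCast]
    refine Real.rpow_le_rpow_of_exponent_le (by linarith) (le_trans (b := 1) (by norm_num) ?_)
    exact Nat.one_le_cast.2 (by omega)
  have q : 2 ≤ 2 * GD.cG * G.Xr C J := by nlinarith
  rw [pow_one] at a
  rw [e, div_le_iff₀ (by linarith), ← mul_div_assoc (_ ^ _), le_div_iff₀ (by linarith), one_mul]
  exact ⟨by nlinarith, (a.trans p3).trans
    (le_mul_of_one_le_right (by positivity) (one_le_mul_of_one_le_of_one_le s1 p1))⟩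

end Ok

end Pool.Agent.Lib.MP_7f377f_mp.RG.Q4.En.Gl
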