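import Pool.Agent.Lib.MP_7f377f_mp.G.KyH

/-! Growth of the block sizes. -/

noncomputable section

set_option linter.unusedSectionVars false
variable [Pool.Agent.Lib.MP_7f377f_mp.GD]

namespace Pool.Agent.Lib.MP_7f377f_mp.RG.Q4.En.Gl.Ok

open Filter Topology Real

variable {G : Gl} (h : G.Ok)
include h

theorem two_ev (j N : ℕ) (c : ℝ) : ∀ᶠ k in atTop, j < k ∧ c * (G.L k : ℝ) ^ N ≤ 2 ^ (k - j) := by
  filter_upwards [eventually_gt_atTop j, h.bb_ev N, (h.sch.grow.const_mul (|c| * 2 ^ j)).eventually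
    (eventually_le_nhds (show _ < (1 : ℝ) by simp))] with k a b e
  refine ⟨a, le_of_mul_le_mul_right ?_ (show (0 : ℝ) < 2 ^ j * (2 / 3) ^ k by positivity)⟩
  rw [← mul_assoc (2 ^ _), ← pow_add, Nat.sub_add_cancel a.le, ← mul_pow]
  calc _ ≤ |c| * G.bb k * (2 ^ j * (2 / 3) ^ k) := by gcongr; exact le_abs_self c
    _ ≤ 1 := (le_of_eq (by ring)).trans e
    _ ≤ _ := one_le_pow₀ (by norm_num)

theorem exp_ev (N : ℕ) (c : ℝ) : ∀ᶠ k in atTop, c * (G.L k : ℝ) ^ N * exp (2 - G.L k) ≤ 1 := by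
  filter_upwards [(((tendsto_pow_mul_exp_neg_atTop_nhds_zero N).comp h.L_top).const_mul
    (c * exp 2)).eventually (eventually_le_nhds (show _ < (1 : ℝ) by simp))] with k a
  rw [sub_eq_add_neg, exp_add]
  exact (le_of_eq (by simp only [Function.comp]; ring)).trans a

theorem lg_ev (j n : ℕ) : ∀ᶠ k in atTop, j + n * (Nat.log 2 (G.L k) + 1) ≤ k := by
  filter_upwards [h.two_ev j n (2 ^ n)] with k ⟨a, b⟩
  have c : 2 ^ (n * (Nat.log 2 (G.L k) + 1)) ≤ 2 ^ (k - j) := by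
    refine le_trans ?_ (show 2 ^ n * G.L k ^ n ≤ _ by exact_mod_cast b)
    rw [← mul_pow, mul_comm n, pow_mul, pow_succ']
    gcongr
    exact Nat.pow_log_le_self 2 (by have := h.L_big k; omega)
  have := (Nat.pow_le_pow_iff_right one_lt_two).1 c
  omega

theorem two_rt {j k : ℕ} (e : j ≤ k) : (2 : ℝ) ^ (k - j) ≤ G.rt k j := by
  have := h.sch.mono.add_le_nat (k - j) j
  rw [Nat.sub_add_cancel e] at this
  exact_mod_cast (Nat.pow_le_pow_left (by norm_num) _).trans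
    (Nat.pow_le_pow_right three_pos (show k - j ≤ G.e k - G.e j by omega))

theorem c_ev (c : ℝ) : ∀ᶠ k in atTop, c ≤ G.L k := h.L_top.eventually_ge_atTop c

end Pool.Agent.Lib.MP_7f377f_mp.RG.Q4.En.Gl.Ok
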