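import Pool.Agent.Lib.MP_7f377f_mp.G.KyT
import Pool.Agent.Lib.MP_7f377f_mp.G.KyU
import Pool.Agent.Lib.MP_7f377f_mp.G.KyG
import Pool.Agent.Lib.MP_7f377f_mp.G.KzK6

/-! The Wick ordered letters of a short run are small modulo null letters. -/

noncomputable section

set_option linter.unusedSectionVars false
variable [Pool.Agent.Lib.MP_7f377f_mp.GD]

namespace Pool.Agent.Lib.MP_7f377f_mp.RG.Q4.En.Gl

open Finset Real Cok Filter Tl Kz
open Zg (V0 Og)

variable {G : Gl} {β : ℕ × ℕ → ℝ} {s : ℕ}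

/-- levels near the bottom of a short run -/
theorem Ok.sh_win (h : G.Ok) {C p : ℕ} (j a w : ℕ) (c : ℝ) (hC : 2 * p + 1 ≤ C) :
    ∀ᶠ k in atTop, ∀ J, G.Sh C k J → ∀ l, l ≤ k + w → k ≤ l + w → j < l ∧ l < J ∧
      (G.L k : ℝ) ^ a ≤ G.rt J l ∧ (G.rt J k : ℝ) ≤ G.rt J l ^ 2 ∧ (G.L k : ℝ) ^ a ≤ G.rt l j ∧
        c * (G.rt J l : ℝ) ^ p * G.L k ^ a ≤ 2 ^ (l - j) := by
  filter_upwards [h.sh_far C (w + 1), h.sh_L C (a + w + 1 + w), h.two_ev (j + w) a 1, h.ev_L c,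
    (h.sch.grow.const_mul (2 ^ (j + w))).eventually (eventually_le_nhds (show _ < (1 : ℝ) by simp))]
    with k a1 a2 ⟨a3, a4⟩ a5 a6 J S l l1 l2
  have a1 := a1 J S
  have a2 := a2 J S
  have L := h.L1 k
  have m : ∀ {i}, i ≤ J → (G.L i : ℝ) ≤ G.L J := fun e => Nat.cast_le.2 (h.L_mono e)
  have LJ := m S.lt.le
  have u : ∀ i j, j ≤ i → i ≤ J → i ≤ j + w →
      (G.rt J i : ℝ) ≤ G.rt J j ∧ (G.rt J j : ℝ) ≤ G.rt J i * G.L J ^ w := fun i j e e' e'' => by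
    have : (G.rt J j : ℝ) = G.rt J i * G.rt i j := by exact_mod_cast h.rt_rt e e'
    have p := one_rt (G := G) J i
    have q : (G.rt i j : ℝ) ≤ G.L i ^ (i - j) := by exact_mod_cast h.rt_le j e
    rw [this]
    exact ⟨le_mul_of_one_le_right (by linarith) (one_rt _ _), mul_le_mul_of_nonneg_left (q.trans
      ((pow_le_pow_left₀ (by positivity) (m e') _).trans (pow_le_pow_right₀ (by linarith)
        (by omega)))) (by linarith)⟩
  have r0 := one_rt (G := G) J k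
  have r1 := one_rt (G := G) J l
  have w1 : (1 : ℝ) ≤ G.L J ^ w := one_le_pow₀ (by linarith)
  have w2 : ∀ i ≤ a + w + 1 + w, (G.L J : ℝ) ^ i ≤ G.rt J k := fun i e =>
    (pow_le_pow_right₀ (by linarith) e).trans a2
  have ⟨r2, r3⟩ : (G.rt J k : ℝ) ≤ G.rt J l * G.L J ^ w ∧ (G.rt J l : ℝ) ≤ G.rt J k ^ 2 := by
    have := w2 w (by omega)
    rcases le_total l k with e | e
    · have := u k l e S.lt.le l2
      exact ⟨by nlinarith, by nlinarith⟩
    · have := u l k e (by omega) l1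
      exact ⟨this.2, by nlinarith⟩
  have r4 : ∀ i ≤ a + w + 1, (G.L J : ℝ) ^ i ≤ G.rt J l := fun i e =>
    (pow_le_pow_right₀ (by linarith) e).trans
      (le_of_mul_le_mul_right ((pow_add ..).symm.trans_le (a2.trans r2)) (by positivity))
  have t : (2 : ℝ) ^ (k - (j + w)) ≤ 2 ^ (l - j) := pow_le_pow_right₀ one_le_two (by omega)
  have La : (G.L k : ℝ) ^ a ≤ G.L J ^ a := by gcongr
  refine ⟨by omega, by omega, La.trans (r4 a (by omega)), by nlinarith [r4 w (by omega)],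
    (one_mul _).ge.trans (a4.trans (t.trans (h.two_rt (by omega)))), le_trans ?_ t⟩
  calc _ ≤ G.L J * ((G.rt J k : ℝ) ^ 2) ^ p * G.L J ^ a := by gcongr; exact a5.trans LJ
    _ = ((G.rt J k : ℝ) ^ 2) ^ p * G.L J ^ (a + 1) := by ring
    _ ≤ ((G.rt J k : ℝ) ^ 2) ^ p * G.rt J k := by gcongr; exact w2 _ (by omega)
    _ ≤ G.bb k := by rw [← pow_mul, ← pow_succ]; exact (pow_le_pow_right₀ r0 hC).trans S.lo
    _ ≤ _ := by
      refine le_of_mul_le_mul_right ?_ (show (0 : ℝ) < 2 ^ (j + w) * (2 / 3) ^ k by positivity)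
      rw [← mul_assoc (2 ^ _), ← pow_add, Nat.sub_add_cancel a3.le, ← mul_pow]
      exact ((mul_left_comm ..).trans_le a6).trans (one_le_pow₀ (by norm_num))

theorem Oks.k5 (o : G.Oks) (q : G.HP Sd.StA) (tu : G.Tus β) (𝒜 : Set CM) [Og 𝒜] [Adj 𝒜]
    (hs : 2 ≤ s) : ∀ᶠ C in atTop, ∀ᶠ C' in atTop, ∃ c : ℕ, ∀ w : ℕ, ∀ᶠ k in atTop, ∀ J,
      G.Sh C' k J → ∀ v l, l ≤ k + w → k ≤ l + w → ∀ x ∈ G.Gs J l, ∀ d, 1 ≤ d → d ≤ s →
        ∀ e ∈ Vp 𝒜 d, ∃ t, (G.wm v).Kq s C d (β (v, J)) J l x e (G.L k ^ c * ‖e‖) t := by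
  have h := (o 0).1
  obtain ⟨R1, δ₀, d0, K', K1, top, lc⟩ := ex_topq 𝒜 s
  obtain ⟨R2, nul⟩ := ex_nul (𝒜 := 𝒜) s
  obtain ⟨KZ, Z1, hZ⟩ := ex_Zc 𝒜 s
  obtain ⟨cr, rk⟩ := h.rka (s + 1)
  filter_upwards [Oks.fwU (𝒜 := 𝒜) o q tu hs (max R1 R2)] with C ⟨M, R, hR, fw⟩
  obtain ⟨δ, hδ, K, fw⟩ := fw δ₀ d0
  filter_upwards [o.soft tu 𝒜 s, eventually_ge_atTop (2 * (2 * s) + 1)] with C' sf hC
  obtain ⟨cs, sf⟩ := sf (2 * G.K0 + 3)
  obtain ⟨n, hn⟩ : ∃ n, n = s + 1 + 2 * (3 * C' + 1) * s := ⟨_, rfl⟩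
  obtain ⟨k0, big⟩ := h.big_ev (n + 7)
  obtain ⟨j, j1, j2, j3⟩ := ((eventually_forall_ge_atTop.2 (fw M le_rfl)).and
    ((eventually_ge_atTop k0).and (h.L_nat.eventually_ge_atTop 9000))).exists
  obtain ⟨c, c1, c2, c3⟩ : ∃ c, 2 * ((G.K + (n + 7)) * 346 + G.K * 50) ≤ c ∧
    2 * cr * s + 1 ≤ c ∧ cs ≤ c := ⟨max _ (max _ _), le_max_left .., max_le_iff.1 (le_max_right ..)⟩
  obtain ⟨N, hN⟩ : ∃ N, N = 25 * 2 ^ s + 31 := ⟨_, rfl⟩
  refine ⟨c * N, fun w => ?_⟩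
  filter_upwards [sf (c * N) w, h.sh_win j (c * (N + 8) + (2 * G.K0 + 3)) w |G.kD j 2| hC,
    (eventually_all_finite (Set.finite_le_nat s)).2 fun d _ => h.sh_pw C' d C 1 w (by omega),
    h.sh_ka (s + 1) C C', eventually_forall_ge_atTop.2 (rk C), h.ev_L M, h.ev_L KZ,
    h.ev_L (K' * Fintype.card (Bq 𝒜 s))] with k a1 a2 a3 a4 a5 a6 a7 a8 J S v l l1 l2 x hx d d1 d2
      e he
  have g := (o v).1
  have S0 := S.wm 0
  obtain ⟨b1, b2, b3, b4, b5, b6⟩ := a2 J S0 l l1 l2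
  have L : (1000 : ℝ) ≤ G.L k := h.L1 k
  have p : ∀ {a a'}, a ≤ a' → (G.L k : ℝ) ^ a ≤ G.L k ^ a' := pow_le_pow_right₀ (by linarith)
  have p1 : (G.L k : ℝ) ≤ G.L k ^ c := (pow_one _).ge.trans (p (by omega))
  have LJ : (G.L J : ℝ) ≤ G.L k ^ 2 := (a3 0 s.zero_le J S0 l l2 b2.le).2.1
  have Ll : ∀ a, (G.L l : ℝ) ^ a ≤ G.L k ^ (2 * a) := fun a => pow_mul (G.L k : ℝ) 2 a ▸
    pow_le_pow_left₀ (by positivity) ((Nat.cast_le.2 (h.L_mono b2.le)).trans LJ) a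
  have r1 := one_rt (G := G) J l
  have k0 := h.ka0 (s + 1) C J
  have W := j1 l b1.le J b2 v
  obtain ⟨Z, hZ⟩ := hZ (G.rt J l : ℝ)⁻¹ √(2 * β (v, J)) (G.ka (s + 1) C J) (G.L k ^ (2 * cr))
    (by positivity) (inv_le_one_of_one_le₀ r1) k0 (one_le_pow₀ (by linarith))
    ((abs_of_nonneg (by positivity)).trans_le ((a5 J S.lt.le v _ (tu (v, J)).toTu1).1.trans
      (pow_mul (G.L k : ℝ) 2 cr ▸ pow_le_pow_left₀ (by positivity) LJ cr)))
  obtain ⟨u, hu⟩ : ∃ u : ℕ, u = 21 * (G.L l * G.L l ^ G.K0) := ⟨_, rfl⟩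
  have u1 : (u + 1 : ℝ) ≤ G.L k ^ (2 * G.K0 + 3) := by
    have := Ll (G.K0 + 1)
    have : (1 : ℝ) ≤ G.L k ^ (2 * (G.K0 + 1)) := one_le_pow₀ (by linarith)
    rw [hu, ← pow_succ', show 2 * G.K0 + 3 = 2 * (G.K0 + 1) + 1 from rfl, pow_succ (G.L k : ℝ),
      Nat.cast_mul, Nat.cast_pow, Nat.cast_ofNat]
    linarith [mul_le_mul_of_nonneg_left L (zero_le_one.trans this)]
  have u2 : (1 : ℝ) ≤ u := by
    have := (h.L_big l).trans' (show 1 ≤ _ by norm_num)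
    exact_mod_cast hu ▸ Nat.mul_pos (by norm_num) (Nat.mul_pos this (pow_pos this _))
  have ds : ∀ (x : St) i, |((x + (G.rt J l : ℤ) • fun _ => (u : ℤ) : St) i - x i : ℝ)| =
      u * G.rt J l := fun x i => by simp [abs_mul, mul_comm]
  have ru : ((21 * (G.L l * G.sJ J l) : ℕ) : ℝ) = u * G.rt J l := by rw [hu, sJ]; push_cast; ring
  have := (show (G.wm v).Srq 𝒜 s C (n + 6) (n + 5) R j l J N (21 * (G.L l * G.sJ J l)) (β (v, J)) M δ
    K K' (G.L k ^ c) (fun _ => u) Z from {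
      W := W
      u := ⟨g, tu (v, J), (o v).2, q, by omega, fun i hi => big i (by omega),
        (W.fr x hx 1 le_rfl (by omega)).J1.1.trans (g.lR_le J), le_rfl, b2.le⟩
      s2 := hs
      K0 := by linarith
      top p := ⟨(top p).1, (top p).2.mono (le_of_max_le_left hR) hδ le_rfl⟩
      lc κ t := (lc κ t).mono (le_of_max_le_left hR)
      jo := b1
      big := j3
      hn := by omega
      nA := le_rfl
      Λ1 := by linarith
      hM := a6.trans p1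
      hK := a8.trans p1
      pw d hd := by
        obtain ⟨e1, -, -, e2⟩ := a3 d hd J S0 l l2 b2.le
        rw [pow_one] at e1 e2
        exact ⟨e1.trans p1, (pow_le_pow_left₀ (by linarith [g.Xr1 C l]) (g.Xrm C b2.le) _).trans
          (e2.trans p1), e2.trans p1⟩
      qa := by
        rw [QA, Q, ← pow_mul, ← pow_mul, ← pow_add]
        exact (Ll _).trans (p c1)
      ka := by
        rw [Nat.add_sub_cancel, hn, pow_add _ (s + 1), mul_left_comm, pow_mul _ _ s, ← mul_pow, pow_mul]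
        refine le_mul_of_one_le_right (by positivity) (one_le_pow₀ ?_)
        exact (inv_le_iff_one_le_mul₀' k0).1 ((a4 J S0).trans (pow_le_pow_left₀ (by positivity) b4 _))
      Z1 d hd e he := (hZ d hd e he).imp_right <| .imp_right fun a => a.trans <| by
        rw [inv_inv, ← pow_mul]
        refine mul_le_mul_of_nonneg_right (mul_le_mul_of_nonneg_right (le_trans ?_ (p c2))
          (by positivity)) (norm_nonneg _)
        rw [pow_succ']
        exact mul_le_mul_of_nonneg_right a7 (by positivity)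
      nul κ d t ht := (nul κ d t ht).mono (le_of_max_le_right hR)
      hr := by
        rw [← Nat.cast_le (α := ℝ), Nat.cast_add, ru, g.rt_rt b1.le b2.le, Nat.cast_mul, mul_comm]
        exact (mul_add_one ..).ge.trans
          (mul_le_mul_of_nonneg_left (u1.trans ((p (by omega)).trans b5)) (by positivity))
      ds x := ⟨⟨0, (ru.trans (ds x 0).symm).le⟩, fun i => ((ds x i).trans ru.symm).le⟩
      ga x := by
        obtain ⟨φ, f1, f2⟩ := a1 J S v J l le_rfl l1 l2 x (x + (G.rt J l : ℤ) • fun _ => (u : ℤ))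
          ⟨⟨0, (le_mul_of_one_le_left (by positivity) u2).trans_eq ((ds x 0).symm.trans
            (abs_sub_comm ..))⟩, fun i => ((abs_sub_comm ..).trans (ds x i)).trans_le
              (mul_le_mul_of_nonneg_right (by linarith) (by positivity))⟩
        refine ⟨φ, fun e he f hf => ⟨?_, (f1 e he f hf).2.trans (by gcongr; linarith)⟩,
          fun d hd e he y y0 a => (f2 d hd e he y y0 a).trans (by gcongr; linarith)⟩
        have := (f1 e he f hf).1
        simp only [tk_top, Kz.cL, Fin.prod_univ_two, Matrix.cons_val_zero, Matrix.cons_val_one,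
          pow_mul, mul_comm (Kz.ct _ _ _ _ (Wy.tz x _))] at this ⊢
        exact this
      hN := hN.ge
      rN := (pow_mul ..).ge.trans ((p (by omega)).trans b3)
      lk := (mul_le_mul (mul_le_mul_of_nonneg_right (le_abs_self _) (by positivity))
        ((pow_mul ..).ge.trans (p (by rw [mul_add]; omega))) (by positivity) (by positivity)).trans
          b6 }).kq hx d1 d2 he
  rwa [← pow_mul] at this

end Pool.Agent.Lib.MP_7f377f_mp.RG.Q4.En.Gl
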