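import Pool.Agent.Lib.MP_7f377f_mp.G.KzK2
import Pool.Agent.Lib.MP_7f377f_mp.G.KyB
import Pool.Agent.Lib.MP_7f377f_mp.G.KzI
import Pool.Agent.Lib.MP_7f377f_mp.G.KzW

/-! The matched letters of the labels. -/

noncomputable section

set_option linter.unusedSectionVars false
variable [Pool.Agent.Lib.MP_7f377f_mp.GD]

namespace Pool.Agent.Lib.MP_7f377f_mp.RG.Q4.En

open Finset Function Real Sg YM7 Tl Mg
open Wd (B4)
open L6 (Fz)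
open Zg (V0 Og fil)
open Kz (rB)
open scoped Classical

attribute [local irreducible] box lbox tb tau rc

variable (𝒜 : Set CM) [Og 𝒜] [Adj 𝒜]

/-- the coordinates of the labels -/
def cW (s : ℕ) (q : Vd 𝒜 s) : V0 𝒜 →ₗ[ℝ] ℝ := (LinearMap.exists_extend ((bV 𝒜 s).coord q)).choose

theorem cW_eq {s : ℕ} (q : Vd 𝒜 s) (e : Vp 𝒜 s) : cW 𝒜 s q e = (bV 𝒜 s).repr e q :=
  LinearMap.congr_fun (LinearMap.exists_extend ((bV 𝒜 s).coord q)).choose_spec e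

theorem ex_fn {V : Type} [NormedAddCommGroup V] [NormedSpace ℝ V] (W : Submodule ℝ V)
    [FiniteDimensional ℝ W] (f : V →ₗ[ℝ] ℝ) : ∃ C, 0 ≤ C ∧ ∀ e ∈ W, |f e| ≤ C * ‖e‖ :=
  ⟨_, norm_nonneg _, fun e he =>
    (LinearMap.toContinuousLinearMap (f.domRestrict W)).le_opNorm ⟨e, he⟩⟩

theorem ex_kV (s : ℕ) : ∃ K ≥ (1 : ℝ), ∀ e ∈ Vp 𝒜 s, ∑ q, |cW 𝒜 s q e| ≤ K * ‖e‖ := by
  have := Module.Finite.of_basis (bV 𝒜 s)
  choose C C0 hC using fun q => ex_fn (Vp 𝒜 s) (cW 𝒜 s q)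
  refine ⟨1 + ∑ q, C q, le_add_of_nonneg_right (sum_nonneg fun q _ => C0 q), fun e h => ?_⟩
  rw [add_mul, sum_mul]
  exact le_add_of_nonneg_of_le (by positivity) (sum_le_sum fun q _ => hC q e h)

/-- a bound for the coordinates -/
def kV (s : ℕ) : ℝ := (ex_kV 𝒜 s).choose

variable {𝒜}

theorem cW_sum {s : ℕ} {e : V0 𝒜} (h : e ∈ Vp 𝒜 s) : ∑ q, cW 𝒜 s q e • q.1.c = e := by
  simpa only [Submodule.coe_sum, Submodule.coe_smul, bV_ap, ← cW_eq] using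
    congrArg Subtype.val ((bV 𝒜 s).sum_repr ⟨e, h⟩)

theorem cW_low {s d : ℕ} {e : V0 𝒜} (h : e ∈ Vp 𝒜 d) (hd : d ≤ s) {q : Vd 𝒜 s} (hq : d < q.1.m) :
    cW 𝒜 s q e = 0 := by
  refine (show _ ≤ LinearMap.ker (cW 𝒜 s q) from Submodule.span_le.2 ?_) ((vp_eq d).le h)
  rintro _ ⟨b, rfl⟩
  have := cW_eq 𝒜 q (bV 𝒜 s ⟨b.1, b.2.trans hd⟩)
  rw [bV_ap, Module.Basis.repr_self, Finsupp.single_eq_of_ne (by
    rintro rfl; exact hq.not_ge b.2)] at this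
  exact this

theorem vb_pos (q : Vb 𝒜) : 1 ≤ q.m := Nat.one_le_iff_ne_zero.2 fun e => vb_li.ne_zero q <| by
  have := (bV_ap (d := q.m) ⟨q, le_rfl⟩ ▸ (bV 𝒜 q.m ⟨q, le_rfl⟩).2).2
  rwa [SetLike.mem_coe, LinearMap.mem_ker, q.pi, if_pos e.symm] at this

theorem tf_tr {n R d : ℕ} {ρ h M : ℝ} {c c' v : St} {φ : Lx} (a : Tf n R ρ h M c d φ)
    (e : c' + v = c) : Tf n R ρ h M c' d (trL n v φ) := fun x =>
  ⟨(a _).1, (a _).2.1, fun q => (a _).2.2 (by rwa [nearT_rc_right, ← e, nearT_add_right])⟩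

namespace Gl

section
variable {G : Gl} {α : Type} [Fintype α] [DecidableEq α] {w : α → ℕ} {b M δ K x y : ℝ}
  {d D C J j k R : ℕ} {c c' v : ℕ → St} {ω : ℕ → ℝ} {p : ℕ → (α → ℝ) →ₗ[ℝ] V}
  {l : ℕ → V →ₗ[ℝ] α → ℝ} {U U' : ℕ → Module.End ℝ (α → ℝ)} {Y : Lq} {u u' : Jv} {z : St}

theorem Ok.zP_jr (h : G.Ok) (r : Jr (G.N k) z u u') (e : c' k + z = c k)
    (a : G.zP w d D C c J j p l U k u y) (a' : G.zP w d D C c' J j p l U k u' x) :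
    G.zP w d D C c' J j p l U k u' y :=
  let ⟨_, k1, k2⟩ := a.K
  let ⟨_, k1', k2'⟩ := a'.K
  ⟨fun i q => r.1 i ▸ tf_tr (a.f i q) e, fun i q => r.2.1 i ▸ tf_tr (a.g i q) e, a'.z, a'.bd, a'.tb,
    r.2.2.1 ▸ a.l, km_tr (h.N_odd k) k1 k1' k2 k2'.1 r.2.2.2, a'.s⟩

theorem Gy.trl (g : G.Gy w d D C c b J j p l U y Y) (T : G.Tk w d D C M c b J j ω p l U U')
    (J1 : G.Tj D R δ J) (d1 : 1 ≤ d) (a : Lt1 R δ K Y) (r : G.Trl c c' v j J) :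
    G.Gy w d D C c' b J j p l U y Y := fun m h1 h2 =>
  ((T.trl r).ls_adm J1 d1 a h1 h2).elim fun _ q => ⟨T.ok.zP_jr (T.pt.jr r le_rfl
    (r.1 J T.hj.le le_rfl ▸ T.ok.jr_tp (c' J) (v J) Y) m h1 h2) (r.1 m h1 h2) (g m h1 h2).1 q,
      T.ys_trl r Y h1 h2 ▸ (g m h1 h2).2⟩

theorem zq_zero : G.zq w d D C J j p k 0 = 0 := by
  have := Ju.sy_eval (wC w) d 0
  simp only [map_zero] at this
  rw [zq, js]
  split_ifs
  exacts [(congrArg _ this).trans (map_zero _), rfl]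

theorem ex_up {s d' : ℕ} (h : d' ≤ d) (t : Tl.Bd 𝒜 d' → ℝ) : ∃ t' : Tl.Bd 𝒜 d → ℝ,
    G.lb s C J t' = G.lb s C J t ∧ G.fz s C J t' = G.fz s C J t := by
  let i : Vd 𝒜 d' → Vd 𝒜 d := fun q => ⟨q.1, q.2.trans h⟩
  let e : Tl.Bd 𝒜 d' → Tl.Bd 𝒜 d := Sum.map i fun q => ⟨q.1, q.2.trans h⟩
  have hi : Injective i := fun _ _ u => Subtype.ext (congrArg (·.1) u)
  have he : Injective e := hi.sumMap fun _ _ u => Subtype.ext (congrArg (·.1) u)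
  refine ⟨extend e t 0, (Fintype.sum_of_injective i hi _ _ (fun q a => ?_) fun q => ?_).symm, ?_⟩
  · rw [extend_apply' _ _ _ ?_, Pi.zero_apply, zero_div, zero_smul]
    rintro ⟨_ | _, u⟩
    exacts [a ⟨_, Sum.inl_injective u⟩, Sum.inr_ne_inl u]
  · rw [show Sum.inl (i q) = e (.inl q) from rfl, he.extend_apply]
    rfl
  · simp only [fz, fl, Fintype.linearCombination_apply]
    refine (Fintype.sum_of_injective e he _ _ (fun q a => ?_) fun q => ?_).symm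
    · simp [extend_apply' _ _ _ a]
    · rw [he.extend_apply]
      cases q <;> rfl

end

variable (G : Gl)

variable (𝒜) in
/-- `Y` is the Wick ordered letter of `e` up to a constant and a null letter, and it has the size
`y` at the level `k` on the track of `x` -/
structure Kv (s C d R : ℕ) (δ b : ℝ) (J k n : ℕ) [NeZero (G.N J)] (x : St) (y : ℝ) (e : V0 𝒜)
    (Y : Lq) : Prop where
  re : LqR Y
  lt : Lt1 R δ (y * (G.rt J k : ℝ) ^ n) Y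
  gy : G.Gy Jt.wt d (s + 1) C (G.tk x J) b J k (G.sek s b J) (G.lK s (G.tk x J) b J)
    (G.Uk s (G.tk x J) b J) y Y
  nl : ∃ N, Nuq b (G.N J) R N ∧ ∀ U, G.zL 𝒜 b J k e U - G.zL 𝒜 b J k e 1 = Y.re U + N U
  e4 : d ≤ 4 → Y = ((2 * b * (G.rt J k : ℝ) ^ 4 : ℝ) : ℂ) • Tl.lq (lE 𝒜 e)

end Gl

/-- the parameters of a chart -/
structure Kd where
  G : Gl
  (s C A n R J J' i k : ℕ)
  (τ M δ K b b' y η : ℝ)

namespace Kd

variable (𝒜) (P : Kd) [∀ J, NeZero (P.G.N J)]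

/-- the hypotheses -/
structure Ok : Prop where
  s2 : 2 ≤ P.s
  xh : P.G.Xh P.A P.n P.τ P.b P.b' P.J P.J' P.i P.k
  fw : P.G.Fw 𝒜 P.s P.C (2 * P.M + 6) P.R P.δ P.K P.b P.J P.k
  fw' : P.G.Fw 𝒜 P.s P.C P.M P.R P.δ P.K P.b' P.J' P.k
  hA : P.s + 7 ≤ P.A
  hn : P.s + 9 ≤ P.n
  eps : ∀ d ≤ P.s, ∃ ε, 0 ≤ ε ∧ 2 * ε * (P.M + 1) * P.G.Zu d P.C P.i ≤ 1 ∧
    ε * (P.G.L P.k : ℝ) ^ 2 ≤ 1 ∧
    ∀ φ N, Tbw (P.G.lR P.i) (60 * (P.G.p P.i).ρ) (P.G.lH (P.s + 1) P.i) N φ →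
      ‖sgS Jt.wt d (P.G.ka (P.s + 1) P.C P.i • P.G.sek P.s P.b P.J P.i) φ -
        sgS Jt.wt d (P.G.ka (P.s + 1) P.C P.i • P.G.sek P.s P.b' P.J' P.i) φ‖ ≤ ε * N
  tau : P.τ * P.G.jW (P.s + 1) P.i * (P.G.L P.i : ℝ) ^ 2 * (P.G.rt P.i P.k : ℝ) ^ (P.s + 2) ≤ 1
  y0 : 0 < P.y
  k5 : ∀ x ∈ P.G.Gs P.J P.k, ∀ q : Vd 𝒜 P.s, ∃ Y,
    P.G.Kv 𝒜 P.s P.C q.1.m P.R P.δ P.b P.J P.k (P.n - 5) x P.y q.1.c Y
  ka : ∀ d ≤ P.s, P.K / P.G.ka (P.s + 1) P.C P.J' ^ d ≤ (P.G.rt P.J' P.k : ℝ) ^ (P.n - d - 9)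
  pw : ∀ d ≤ P.s, P.G.Pw d P.C P.k P.i ^ 2 ≤ P.η * P.G.rt P.i P.k ∧
    P.G.Pw d P.C P.k P.J ≤ P.η * P.G.rt P.J P.k

variable {𝒜}

/-- the letter `u.1` of the short run and the letter of the long run with the coefficients `u.2`
are matched on the track of `z` -/
def Mt (z : St) (q : Vd 𝒜 P.s) (u : Lq × (Tl.Bd 𝒜 q.1.m → ℝ)) : Prop :=
  LqR u.1 ∧ Lt1 P.R P.δ (P.y * (P.G.rt P.J P.k : ℝ) ^ (P.n - 5)) u.1 ∧
  (∃ N, Nuq P.b (P.G.N P.J) P.R N ∧ ∀ U,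
    P.G.zL 𝒜 P.b P.J P.k q.1.c U - P.G.zL 𝒜 P.b P.J P.k q.1.c 1 = u.1.re U + N U) ∧
  (∃ ω l U U', P.G.Fk Jt.wt q.1.m (P.s + 1) P.C (2 * P.M + 6) (P.G.tk z P.J') P.b P.J P.k ω
      (P.G.sek P.s P.b P.J) l U U' P.R P.δ P.K Tl.Bd.dg (lX 𝒜 q.1.m) ∧
    P.G.Gy Jt.wt q.1.m (P.s + 1) P.C (P.G.tk z P.J') P.b P.J P.k (P.G.sek P.s P.b P.J) l U P.y u.1) ∧
  P.G.Eh Jt.wt q.1.m (P.s + 1) P.C (P.G.tk z P.J') P.b P.b' P.J P.J' P.i P.k (P.G.sek P.s P.b P.J)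
    u.1 (P.G.fz P.s P.C P.J' u.2)

/-- a choice which depends only on the class of `z` -/
def ch (z : St) (q : Vd 𝒜 P.s) : Lq × (Tl.Bd 𝒜 q.1.m → ℝ) :=
  Classical.epsilon fun u => P.Mt (z - (P.G.rt P.J' P.k : ℤ) • P.G.tk z P.J' P.k) q u ∧
    (q.1.m ≤ 4 → u.1 = ((2 * P.b * (P.G.rt P.J P.k : ℝ) ^ 4 : ℝ) : ℂ) • Tl.lq (lE 𝒜 q.1.c))

variable (𝒜) in
/-- the labels of the matched letters -/
def N (z : St) : V0 𝒜 →ₗ[ℝ] V0 𝒜 :=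
  ∑ q, (cW 𝒜 P.s q).smulRight (P.G.lb P.s P.C P.J' (P.ch z q).2)

/-- the letter of the short run -/
def Ys (z : St) (e : V0 𝒜) : Lq := ∑ q, (cW 𝒜 P.s q e : ℂ) • (P.ch z q).1

/-- the letter of the long run -/
def Yl (z : St) (e : V0 𝒜) : Lq := ∑ q, (cW 𝒜 P.s q e : ℂ) • P.G.fz P.s P.C P.J' (P.ch z q).2

variable (𝒜) in
/-- the size of the matched letters in the long run -/
def Ow : ℝ := kV 𝒜 P.s * P.G.L P.k * P.y * (P.G.rt P.i P.k : ℝ) ^ (P.s + 2)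

variable {P} {z : St} {e c : V0 𝒜} {d D R m : ℕ} {x w v δ K : ℝ}

namespace Ok

variable (H : P.Ok 𝒜)
include H

theorem gs (hz : z ∈ P.G.Gs P.J' P.k) : P.G.tk z P.J' P.J ∈ P.G.Gs P.J P.k ∧
    P.G.Trl (P.G.tk (P.G.tk z P.J' P.J) P.J) (P.G.tk z P.J') 0 P.k P.J :=
  have e := Gl.tk_tk (G := P.G) (x := z) H.xh.le
  ⟨fun m a b => by
    rw [e m b.le, e _ b]
    exact hz m a (b.trans_le H.xh.le), fun m _ b => by rw [e m b, Pi.zero_apply, add_zero],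
    fun _ _ _ => (smul_zero _).symm⟩

theorem fh (hz : z ∈ P.G.Gs P.J' P.k) (d1 : 1 ≤ d) (hd : d ≤ P.s) :
    P.G.Fh P.A P.n P.τ Jt.wt d (P.s + 1) P.C P.M z P.b P.b' P.J P.J' P.i P.k (P.G.sek P.s P.b P.J)
      (P.G.sek P.s P.b' P.J') P.R P.δ P.K Tl.Bd.dg (lX 𝒜 d) := by
  refine ⟨H.xh, ⟨_, _, _, _, (H.fw.fr _ (H.gs hz).1 d d1 (by omega)).trl (H.gs hz).2⟩,
    ⟨_, _, _, _, H.fw'.fr z hz d d1 (by omega)⟩, H.hA,
    (H.eps d hd).imp fun _ a => ⟨a.1, a.2.1, a.2.2.2⟩, le_trans ?_ H.tau⟩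
  have := H.xh.hb.t0
  unfold Gl.jW
  gcongr
  simpa using Gl.Ok.rt0 (G := P.G) P.i P.k 1

theorem mt_tr (hz : z ∈ P.G.Gs P.J' P.k) {q : Vd 𝒜 P.s} {u} (a : P.Mt z q u) (v : St) :
    P.Mt (z + (P.G.rt P.J' P.k : ℤ) • v) q u := by
  obtain ⟨a1, a2, a3, ⟨_, _, _, _, F, g⟩, a5⟩ := a
  have r' := H.xh.ok.trl_tk (J := P.J') (j := P.k) z v
  have r : P.G.Trl _ _ _ P.k P.J :=
    ⟨fun o a b => r'.1 o a (b.trans H.xh.le), fun o a b => r'.2 o a (b.trans_le H.xh.le)⟩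
  exact ⟨a1, a2, a3, ⟨_, _, _, _, F.trl r, g.trl F.T F.J1 F.d1 a2 r⟩,
    (((H.fh hz (vb_pos _) q.2).trl v).2 _ _).2 a5⟩

theorem mt2 (hz : z ∈ P.G.Gs P.J' P.k) (q : Vd 𝒜 P.s) : P.Mt z q (P.ch z q) ∧ (q.1.m ≤ 4 →
    (P.ch z q).1 = ((2 * P.b * (P.G.rt P.J P.k : ℝ) ^ 4 : ℝ) : ℂ) • Tl.lq (lE 𝒜 q.1.c)) := by
  have h0 := H.xh.ok.dg_add hz (-P.G.tk z P.J' P.k)
  rw [smul_neg, ← sub_eq_add_neg] at h0
  obtain ⟨g1, g2⟩ := H.gs h0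
  obtain ⟨Y, y⟩ := H.k5 _ g1 q
  have E := H.fh h0 (vb_pos _) q.2
  have F := H.fw.fr _ g1 _ (vb_pos q.1) (q.2.trans (Nat.le_add_right ..))
  obtain ⟨t, e⟩ := E.ex y.lt
  obtain ⟨t, rfl⟩ : ∃ t' : _ → ℝ, t = fun q => (t' q : ℂ) := ⟨fun q => (t q).re, funext fun q =>
    Complex.ext rfl (E.real Gl.lX_real y.lt y.re e q)⟩
  refine (Classical.epsilon_spec (p := fun u => P.Mt _ q u ∧ (q.1.m ≤ 4 → u.1 = _)) ⟨(Y, t), ⟨y.re,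
    y.lt, y.nl, ⟨_, _, _, _, F.trl g2, y.gy.trl F.T F.J1 F.d1 y.lt g2⟩, e⟩, y.e4⟩).imp_left
      fun a => ?_
  simpa only [ch, sub_add_cancel] using H.mt_tr h0 a (P.G.tk z P.J' P.k)

theorem mt (hz : z ∈ P.G.Gs P.J' P.k) (q : Vd 𝒜 P.s) : P.Mt z q (P.ch z q) := (H.mt2 hz q).1

theorem per (z v : St) : P.N 𝒜 (z + (P.G.rt P.J' P.k : ℤ) • v) = P.N 𝒜 z := by
  simp only [N, ch, H.xh.ok.tk_add v P.k (H.fw'.fr 0 Gl.gs_zero 1 le_rfl (by omega)).T.hj.le le_rfl,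
    Gl.rt_top, Nat.cast_one, one_smul, smul_add, add_sub_add_right_eq_sub]

theorem fil (hd : d ≤ P.s) (he : e ∈ Vp 𝒜 d) : P.N 𝒜 z e ∈ Vp 𝒜 d := by
  simp only [N, LinearMap.sum_apply, LinearMap.smulRight_apply]
  refine Submodule.sum_mem _ fun q _ => (le_or_gt q.1.m d).elim (fun a => ?_) fun a => ?_
  · exact Submodule.smul_mem _ _ (Kz.vp_mono a (Gl.lb_mem _))
  · rw [cW_low he hd a, zero_smul]
    exact zero_mem _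

theorem own1 (hz : z ∈ P.G.Gs P.J' P.k) (hd : d ≤ P.s) (q : Vd 𝒜 P.s) (hq : q.1.m ≤ d) :
    P.G.sz P.s P.C d P.b' P.J' z (P.G.fz P.s P.C P.J' (P.ch z q).2) P.k ≤
      P.G.L P.k * P.y * (P.G.rt P.i P.k : ℝ) ^ (P.s + 2) := by
  obtain ⟨-, -, -, ⟨_, _, _, _, F, g⟩, e⟩ := H.mt hz q
  have q1 := vb_pos q.1
  have y0 := H.y0
  have T := (H.fw'.fr z hz d (q1.trans hq) (by omega)).T
  have F' := H.fw'.fr z hz _ q1 (by omega)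
  have a := ((H.fh hz q1 q.2).own e (y := P.y) (by
    simpa [Gl.rt_top] using (g _ le_rfl F.T.hj.le).2)).2
  have r1 : (1 : ℝ) ≤ P.G.rt P.i P.k := by simpa using Gl.Ok.rt0 (G := P.G) P.i P.k 1
  have M1 := T.M1
  rw [Gl.sz, ← Gl.ys_bot le_rfl]
  refine (T.cut F'.T le_rfl T.hj.le (F'.cone _ le_rfl T.hj.le) a).trans ?_
  have := T.ok.Yr1 d P.C P.k
  have := T.ok.Yr1 q.1.m P.C P.k
  calc _ ≤ P.G.Yr d P.C P.k * P.G.Yr q.1.m P.C P.k * (P.M * (2 * P.y * (P.G.rt P.i P.k : ℝ) ^ (P.s + 2)) +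
        P.M * (2 * P.y * (P.G.rt P.i P.k : ℝ) ^ (P.s + 2))) := by
        have b : 2 * P.y * (P.G.rt P.i P.k : ℝ) ^ (q.1.m + 2) ≤
            2 * P.y * (P.G.rt P.i P.k : ℝ) ^ (P.s + 2) := by gcongr; exact q.2
        gcongr _ * (?_ + _ * ?_)
        exacts [b.trans (le_mul_of_one_le_left (by positivity) M1), a.trans b]
    _ = 4 * P.M * (P.G.Yr d P.C P.k * P.G.Yr q.1.m P.C P.k) * P.y *
        (P.G.rt P.i P.k : ℝ) ^ (P.s + 2) := by ring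
    _ ≤ _ := by
        gcongr
        nlinarith [(T.e _ le_rfl).2.2, (F'.T.e _ le_rfl).2.2, T.ok.L1 P.k, mul_nonneg
          (zero_le_one.trans M1) (sq_nonneg (P.G.Yr d P.C P.k - P.G.Yr q.1.m P.C P.k))]

theorem own2 (hz : z ∈ P.G.Gs P.J' P.k) (hd : d ≤ P.s) (he : e ∈ Vp 𝒜 d) :
    ∃ t : Tl.Bd 𝒜 d → ℝ, P.G.lb P.s P.C P.J' t = P.N 𝒜 z e ∧ P.G.fz P.s P.C P.J' t = P.Yl z e ∧
      P.G.sz P.s P.C d P.b' P.J' z (P.G.fz P.s P.C P.J' t) P.k ≤ P.Ow 𝒜 * ‖e‖ := by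
  have y0 := H.y0
  have s2 := H.s2
  have : ∀ q, ∃ t : Tl.Bd 𝒜 d → ℝ, cW 𝒜 P.s q e = 0 ∨
      (P.G.lb P.s P.C P.J' t = P.G.lb P.s P.C P.J' (P.ch z q).2 ∧
        P.G.fz P.s P.C P.J' t = P.G.fz P.s P.C P.J' (P.ch z q).2) ∧ q.1.m ≤ d := fun q =>
    (le_or_gt q.1.m d).elim (fun a => (Gl.ex_up a _).imp fun _ u => .inr ⟨u, a⟩) fun a =>
      ⟨0, .inl (cW_low he hd a)⟩
  choose t ht using this
  have u : (fun a => (((∑ q, cW 𝒜 P.s q e • t q) a : ℝ) : ℂ)) =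
      ∑ q, (cW 𝒜 P.s q e : ℂ) • fun a => (t q a : ℂ) := funext fun a => by simp
  refine ⟨∑ q, cW 𝒜 P.s q e • t q, ?_, ?_, ?_⟩
  · rw [N, LinearMap.sum_apply, sum_congr rfl (g := fun q => cW 𝒜 P.s q e • P.G.lb P.s P.C P.J' (t q))
      fun q _ => (ht q).elim (fun a => by simp [a]) fun a => by rw [a.1.1]; rfl]
    simp only [Gl.lb, Finset.sum_apply, Pi.smul_apply, smul_eq_mul, sum_div, sum_smul, smul_sum,
      smul_smul, mul_div_assoc]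
    exact sum_comm
  · rw [Gl.fz, u, map_sum]
    exact sum_congr rfl fun q _ => (map_smul ..).trans
      ((ht q).elim (fun a => by simp [a]) fun a => congrArg _ a.1.2)
  refine le_trans ?_ ((mul_le_mul_of_nonneg_right ((ex_kV 𝒜 P.s).choose_spec.2 e (Kz.vp_mono hd he))
    (show 0 ≤ P.G.L P.k * P.y * (P.G.rt P.i P.k : ℝ) ^ (P.s + 2) by positivity)).trans_eq
      (by unfold Ow kV; ring))
  rcases d.eq_zero_or_pos with rfl | d1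
  · have F := H.fw'.fr z hz 1 le_rfl (by omega)
    have := F.fm.st_zero le_rfl F.T.hj.le
    rw [Gl.st_ls, map_zero] at this
    rw [Gl.sz, Gl.fz, u, sum_eq_zero fun q _ => by simp [cW_low he hd (vb_pos q.1)], map_zero, Gl.ys,
      this, Gl.zq_zero, norm_zero]
    positivity
  have F := H.fw'.fr z hz d d1 (by omega)
  rw [Gl.sz, ← Gl.ys_bot le_rfl, ← F.eqv_val le_rfl F.T.hj.le, u, map_sum, Submodule.coe_sum, sum_mul]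
  refine norm_sum_le_of_le _ fun q _ => ?_
  rw [map_smul, Submodule.coe_smul, norm_smul, Complex.norm_real, F.eqv_val, Gl.ys_bot le_rfl]
  exact (ht q).elim (fun a => by simp [a]) fun a => mul_le_mul_of_nonneg_left
    ((congrArg (P.G.sz _ _ _ _ _ _ · _) a.1.2).trans_le (H.own1 hz hd q a.2)) (abs_nonneg _)

/-- the size in the long run -/
theorem own (hz : z ∈ P.G.Gs P.J' P.k) (hd : d ≤ P.s) (he : e ∈ Vp 𝒜 d) :
    P.G.Os 𝒜 P.s P.C d P.b' P.J' P.k z (P.N 𝒜 z e) (P.Ow 𝒜 * ‖e‖) :=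
  (H.own2 hz hd he).imp fun _ a => ⟨a.1, a.2.2⟩

theorem os_ex (hc : c ∈ Vp 𝒜 P.s) (z : St) : ∃ y, P.G.Os 𝒜 P.s P.C P.s P.b' P.J' P.k z c y := by
  refine ⟨_, Sum.elim (fun q => (bV 𝒜 P.s).repr ⟨c, hc⟩ q * P.G.ka (P.s + 1) P.C P.J' ^
    Tl.Bd.dg (.inl q : Tl.Bd 𝒜 P.s)) 0, ?_, le_rfl⟩
  have := congrArg (Vp 𝒜 P.s).subtype ((bV 𝒜 P.s).sum_repr ⟨c, hc⟩)
  simp only [map_sum, map_smul, Submodule.subtype_apply, bV_ap] at this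
  simpa [(H.xh.ok.ka0 _ _ _).ne'] using this

theorem os_tr (hz : z ∈ P.G.Gs P.J' P.k) (d1 : 1 ≤ d) (hd : d ≤ P.s) (u : St)
    (a : P.G.Os 𝒜 P.s P.C d P.b' P.J' P.k z c v) :
    P.G.Os 𝒜 P.s P.C d P.b' P.J' P.k (z + (P.G.rt P.J' P.k : ℤ) • u) c v :=
  have T := (H.fw'.fr z hz d d1 (by omega)).T
  a.imp fun _ a => ⟨a.1, by
    rw [← Gl.ys_bot le_rfl, T.ys_trl (T.ok.trl_tk z u) _ le_rfl T.hj.le, Gl.ys_bot le_rfl]
    exact a.2⟩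

/-- the letters of a label are matched -/
theorem letter (hz : z ∈ P.G.Gs P.J' P.k) (he : e ∈ Vp 𝒜 P.s) (x0 : 0 < x)
    (hx : P.G.QA (P.A + 1) P.k ^ 347 * (kV 𝒜 P.s * P.y * ‖e‖) ≤ x)
    (o : ∀ g, P.G.Os 𝒜 P.s P.C P.s P.b' P.J' P.k (Wd.gv g z) (rB 𝒜 g (P.N 𝒜 z e)) v)
    (w0 : 0 < w) (hw : P.G.QA (P.A + 1) P.k ^ 347 * (P.Ow 𝒜 * ‖e‖ + v) ≤ w) :
    P.G.Dh P.A P.n P.R D R P.b P.b' P.J P.J' P.i P.k z x w P.η (P.G.zL 𝒜 P.b P.J P.k e)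
      (Kz.lt 𝒜 (P.N 𝒜 z e)) := by
  have X := H.xh
  have h := X.ok
  have j1 : P.k + 1 ≤ P.J := by have := X.hi; have := X.lt; omega
  have j2 := j1.trans X.le
  have s2 := H.s2
  have hn := H.hn
  have y0 := H.y0
  have A1 : 1 ≤ P.A := le_of_add_le_right X.nA
  obtain ⟨k1, k2⟩ : 1 ≤ kV 𝒜 P.s ∧ ∀ e ∈ Vp 𝒜 P.s, ∑ q, |cW 𝒜 P.s q e| ≤ kV 𝒜 P.s * ‖e‖ :=
    (ex_kV 𝒜 P.s).choose_spec
  have gz := Gl.gs_gv hz
  have q1 := h.QA1 (P.A + 1) P.k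
  have v0 : 0 ≤ v := (norm_nonneg _).trans (o 1).choose_spec.2
  have ow : kV 𝒜 P.s * P.y ≤ P.Ow 𝒜 := by
    have := h.L1 P.k
    refine le_trans ?_ (le_mul_of_one_le_right (by positivity) (Gl.Ok.rt0 _ _ _))
    gcongr
    exact le_mul_of_one_le_right (by positivity) (by linarith)
  have n0 := mul_nonneg ((mul_pos (one_pos.trans_le k1) y0).le.trans ow) (norm_nonneg e)
  have L : ∀ g, ∃ t : Tl.Bd 𝒜 P.s → ℝ, P.G.lb P.s P.C P.J' t = rB 𝒜 g (P.N 𝒜 z e) ∧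
      P.G.sz P.s P.C P.s P.b' P.J' (Wd.gv g z) (P.G.fz P.s P.C P.J' t) P.k ≤ P.Ow 𝒜 * ‖e‖ + v ∧
      (g = 1 → P.G.fz P.s P.C P.J' t = P.Yl z e) := fun g => by
    by_cases u : g = 1
    · subst u
      exact (H.own2 hz le_rfl he).imp fun _ a => ⟨by rw [map_one]; exact a.1,
        a.2.2.trans (le_add_of_nonneg_right v0), fun _ => a.2.1⟩
    · exact (o g).imp fun _ a => ⟨a.1, a.2.trans (le_add_of_nonneg_left n0), fun e => absurd e u⟩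
  choose t t1 t2 t3 using L
  refine ⟨.of_continuous (Kz.lZ_cont _ _ e), .of_continuous (Kz.lt_cont 𝒜 _),
    fun g => P.Ys (Wd.gv g z) (rB 𝒜 g e), fun g => P.G.fz P.s P.C P.J' (t g), 0,
    P.G.zL 𝒜 P.b P.J P.k e 1, 0, fun g => ⟨?_, ?_⟩, ?_, h.zh_zero x0⟩
  · choose r l n f _ using H.mt (gz g)
    choose N n1 n2 using n
    have he' := Kz.rB_vp g _ he
    refine Gl.Sru.rq ⟨h, X.t, X.hp, X.hq, A1, X.big, (H.fw.fr 0 Gl.gs_zero 1 le_rfl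
      (by omega)).J1.1.trans (h.lR_le _), P.k.le_succ, j1⟩ X.nA w0 le_rfl ?_
      (LqR.sum _ fun q _ => (r q).smul (Complex.ofReal_im _)).1
      (Nuq.sum n1 fun q => cW 𝒜 P.s q (rB 𝒜 g e)) H.fw.rad (Gl.tk_gv g z X.le) fun U => ?_
    · simp only [Ys, Gl.jx_sum]
      refine h.rxA_sum X.t.toTu1 (by omega) _ (by positivity) w0 (fun q =>
        let ⟨_, _, _, _, F, u⟩ := f q
        F.rH X.big (l q) u y0 (by have := q.2; omega) le_rfl) (le_trans ?_ hw)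
      simp only [Complex.norm_real, Real.norm_eq_abs]
      calc _ ≤ kV 𝒜 P.s * ‖e‖ * (P.G.QA (P.A + 1) P.k ^ 347 * P.y) := by
            gcongr
            exacts [(k2 _ he').trans_eq (by rw [Kz.rB_norm]), by linarith, by norm_num]
        _ = P.G.QA (P.A + 1) P.k ^ 347 * (kV 𝒜 P.s * P.y * ‖e‖ + 0) := by ring
        _ ≤ _ := by gcongr
    · have u : Wd.pb Inv.inv g (1 : Fz) = 1 := funext fun l => by
        unfold Wd.pb Wd.stp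
        split_ifs <;> simp
      have := congrArg (P.G.zL 𝒜 P.b P.J P.k) (cW_sum he')
      rw [← u, Gl.zL, ← Kz.lZ_rB, ← Kz.lZ_rB, ← Gl.zL, ← this]
      simp only [map_sum, map_smul, Finset.sum_apply, Pi.smul_apply, smul_eq_mul, ← sum_sub_distrib,
        ← mul_sub, n2, Ys, Prod.fst_sum, Prod.smul_fst, Complex.re_sum, Complex.re_ofReal_mul,
        ← sum_add_distrib, ← mul_add, Lq.re]
  · have F := H.fw'.fr _ (gz g) P.s (by omega) (by omega)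
    obtain ⟨n1, n2⟩ := H.fw'.nl P.s (by omega) (t g)
    have n3 := H.fw'.lc _ ((Zg.fil 𝒜).mono (by omega) (Gl.lb_mem (G := P.G) (s := P.s) (C := P.C)
      (J := P.J') (t g)).1)
    have c := F.rH' X.big le_rfl (by omega) (y := w / P.G.QA (P.A + 1) P.k ^ 346) (by positivity) hn
      (H.ka _ le_rfl) (t := fun q => t g q) (by
        rw [Gl.ys_bot le_rfl, Gl.rt_top, Nat.cast_one, one_pow, mul_one,
          le_div_iff₀' (by positivity)]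
        refine le_trans ?_ hw
        gcongr
        exacts [by linarith, by norm_num, t2 g])
    rw [mul_div_cancel₀ _ (by positivity), Gl.tk_top] at c
    refine Gl.Sru.rq ⟨h, X.t', X.hp, X.hq, A1, X.big, F.J1.1.trans (h.lR_le _), P.k.le_succ, j2⟩
      X.nA w0 le_rfl c (Gl.fz_real _).1 (Nuq.smul ⟨n1.1.sub n3.1, fun _ _ e =>
        congrArg₂ (· - ·) (n1.2 e) (n3.2 e), n2⟩ (-1)) H.fw'.rad rfl fun U => ?_
    simp only [← Kz.lt_rB, t1, Lq.re, Pi.sub_apply]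
    ring
  · choose r l n f E using H.mt hz
    simp only [t3 1 rfl, map_one, Wd.gv_one, Module.End.one_apply, Ys, Yl, Gl.jx_sum]
    refine X.yh_sum _ (by positivity) x0 (nonneg_of_mul_nonneg_left ((zero_le_one.trans
      (h.Pw1 ..)).trans (H.pw 0 (Nat.zero_le _)).2) (Gl.Ok.rt_pos _ _)) (fun q =>
        let ⟨_, _, _, _, F, u⟩ := f q
        (H.fh hz (vb_pos _) q.2).yh F (l q) u y0 (by have := q.2; omega) le_rfl (H.ka _ q.2) (E q)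
          (H.pw _ q.2).1 (H.pw _ q.2).2) (le_trans ?_ hx)
    simp only [Complex.norm_real, Real.norm_eq_abs]
    exact (mul_le_mul_of_nonneg_right (k2 e he) (by positivity)).trans_eq (by ring)

/-- the lifts of a probe are matched -/
theorem probe {Q : Pl} (J1 : P.G.Tj D R δ (P.k + 1)) (r : Rl Q) (m1 : 1 ≤ m)
    (a : ∀ g, Top R m δ K (pG (Tl.act g Q)) (px (Tl.act g Q)) (Tl.pa (Tl.act g Q))) (x0 : 0 < x)
    (hx : 4 * (P.G.QA (P.A + 1) (P.k + 1) ^ 340 * (K * (4 * P.G.lH D (P.k + 1)) ^ m)) ≤ x)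
    (hw : x ≤ w) (u : St) :
    P.G.Dh P.A P.n P.R D R P.b P.b' P.J P.J' P.i P.k ((P.G.rt P.J' P.k : ℤ) • u) x w P.η
      (P.G.pO R P.J (P.k + 1) Q) (P.G.pO R P.J' (P.k + 1) Q) :=
  have h := H.xh.ok
  H.xh.dh_probe ((H.fw.fr 0 Gl.gs_zero 1 le_rfl (by omega)).J1.1.trans (h.lR_le _))
    ((H.fw'.fr 0 Gl.gs_zero 1 le_rfl (by omega)).J1.1.trans (h.lR_le _))
    (nonneg_of_mul_nonneg_left ((zero_le_one.trans (h.Pw1 ..)).trans (H.pw 0 (Nat.zero_le _)).2)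
      (Gl.Ok.rt_pos _ _)) J1 r m1 a x0 hx hw u

end Ok

end Kd

end Pool.Agent.Lib.MP_7f377f_mp.RG.Q4.En
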