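import Pool.Agent.Lib.MP_7f377f_mp.G.KyV
import Pool.Agent.Lib.MP_7f377f_mp.G.KzK1
import Pool.Agent.Lib.MP_7f377f_mp.G.KsG

/-! The Wick ordered letters of a short run as letters of small size. -/

noncomputable section

set_option linter.unusedSectionVars false
variable [Pool.Agent.Lib.MP_7f377f_mp.GD]

namespace Pool.Agent.Lib.MP_7f377f_mp.RG.Q4.En.Gl

open Finset Real Filter Tl Kz
open Zg (V0 Og)

variable {G : Gl} {β : ℕ × ℕ → ℝ} {𝒜 : Set CM} [Og 𝒜] [Adj 𝒜] {s C d R J k n : ℕ}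
  {b M δ K K' y y' : ℝ} {x : St} {e : V0 𝒜} {t : Bq 𝒜 s → ℝ}

theorem Py_one (δ0 : 0 ≤ δ) (top : ∀ q : Bq 𝒜 s, 1 ≤ q.2.dg ∧
    Tl.Top R q.2.dg δ K (pG q.P) (px q.P) (Tl.pa q.P)) (κ : ℝ) (t : Bq 𝒜 s → ℝ) :
    pG (Py κ t) 1 = 0 := by
  have e (q : Bq 𝒜 s) : pG q.P 1 = 0 := by
    rw [(top q).2.lt.chart 0 1 (fun _ _ _ _ => by simp [fq, hol, S3.q_one]) (by simp),
      Sg.bx_one]
    exact top_zero (top q).2 δ0 (top q).1
  simp only [Py, Fintype.linearCombination_apply, ← Complex.coe_smul, map_sum, map_smul,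
    Finset.sum_apply, Pi.smul_apply, e, smul_zero, sum_const_zero]

theorem Kq.kv [NeZero (G.N J)] (a : G.Kq s C d b J k x e y t) (he : e ∈ Vp 𝒜 d)
    (W : G.Fw 𝒜 s C M R δ K b J k)
    (hx : x ∈ G.Gs J k) (d1 : 1 ≤ d) (d2 : d ≤ s + 2) (K0 : 0 < K')
    (top : ∀ q : Bq 𝒜 s, 1 ≤ q.2.dg ∧ Tl.Top R q.2.dg δ K' (pG q.P) (px q.P) (Tl.pa q.P))
    (nul : ∀ n ∈ Nu0 𝒜 s d, Nuq b (G.N J) R (Lq.re (Tl.lq (Py (G.ka (s + 1) C J) n))))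
    (hK : K' * Fintype.card (Bq 𝒜 s) * (G.rt J k : ℝ) ^ d / G.ka (s + 1) C J ^ d ≤
      (G.rt J k : ℝ) ^ n) (y0 : 0 ≤ y') (hy : y ≤ y') :
    G.Kv 𝒜 s C d R δ b J k n x y' e (Tl.lq (Py (G.ka (s + 1) C J) t)) := by
  have F := W.fr x hx d d1 d2
  have k0 := W.ok.ka0 (s + 1) C J
  obtain ⟨u, m, hm, r⟩ := a.eq
  obtain ⟨c1, c2, c3⟩ := nul m hm
  refine ⟨.lq (rl_Py t), (F.T.fam F.J1 F.δ1 K0 top a.dg le_rfl).1.mono le_rfl le_rfl ?_,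
    F.T.gx_mono (m := d) a.gy hy le_rfl, ⟨fun U => -1 * _, ⟨continuous_const.mul c1,
      fun _ _ v => congrArg _ (c2 v), c3.smul _⟩, fun U => ?_⟩, a.e4 he F.T.t.b0⟩
  · refine le_trans ?_ (mul_le_mul_of_nonneg_left hK y0)
    rw [← mul_div_assoc, mul_left_comm y']
    gcongr
    exact a.nrm.trans (by gcongr)
  · have v (U : L6.Fz) : u + (pG (Py (G.ka (s + 1) C J) t) U).re =
        G.zL 𝒜 b J k e U + (pG (Py (G.ka (s + 1) C J) m) U).re := by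
      have := congrArg (fun P => (pG P U).re) r
      simp only [map_add, MvPolynomial.algHom_C, Pi.add_apply, Complex.add_re] at this
      exact this
    have v1 := v 1
    have l0 := W.ok.lH0 (s + 1) J
    have z (t) : pG (Py (G.ka (s + 1) C J) t) (1 : L6.Fz) = 0 :=
      Py_one (by linarith [F.J1.2.1]) top _ t
    rw [z, z] at v1
    change _ = (pG _ U).re + -1 * (pG _ U).re
    linarith [v U]

variable (𝒜) in
theorem Oks.kv (o : G.Oks) (q : G.HP Sd.StA) (tu : G.Tus β) (hs : 2 ≤ s) :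
    ∃ R₀, ∃ δ₀ > (0 : ℝ), ∀ᶠ C in atTop, ∀ᶠ C' in atTop, ∃ c : ℕ, ∀ R ≥ R₀, ∀ᶠ k in atTop, ∀ J,
      G.Sh C' k J → ∀ v M δ K n, δ ≤ δ₀ → (3 * C' + 2) * s + 1 ≤ n →
        (G.wm v).Fw 𝒜 s C M R δ K (β (v, J)) J k → ∀ [NeZero ((G.wm v).N J)], ∀ x ∈ G.Gs J k,
          ∀ q : Vd 𝒜 s, ∃ Y, (G.wm v).Kv 𝒜 s C q.1.m R δ (β (v, J)) J k n x (G.L k ^ c) q.1.c Y := by
  obtain ⟨R1, δ₀, d0, K', K1, top, lc⟩ := ex_topq 𝒜 s
  obtain ⟨R2, nul⟩ := ex_nul (𝒜 := 𝒜) s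
  have h := (o 0).1
  refine ⟨max R1 R2, δ₀, d0, (o.k5 q tu 𝒜 hs).mono fun C a => a.mono fun C' ⟨c, H⟩ =>
    ⟨c + 1, fun R hR => ?_⟩⟩
  filter_upwards [H 0, h.sh_ka (s + 1) C C', h.L_top.eventually_ge_atTop (2 * R + 2 : ℕ),
    h.L_top.eventually_ge_atTop (K' * Fintype.card (Bq 𝒜 s)),
    eventually_all.2 fun q : Vd 𝒜 s => h.L_top.eventually_ge_atTop ‖q.1.c‖]
    with k a1 a2 a3 a4 a5 J S v M δ K n e1 e2 W _ x hx q
  have g := (o v).1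
  have r1 := one_rt (G := G) J k
  have l1 := (h.L_rt S.lt).2
  have he : q.1.c ∈ Vp 𝒜 q.1.m := bV_ap (⟨q.1, le_rfl⟩ : Vd 𝒜 _) ▸ (bV 𝒜 _ ⟨q.1, le_rfl⟩).2
  obtain ⟨t, a⟩ := a1 J S v k le_rfl le_rfl x hx _ (vb_pos q.1) q.2 _ he
  refine ⟨_, a.kv he W hx (vb_pos q.1) (q.2.trans (Nat.le_add_right ..)) (by linarith)
    (fun p => ⟨(top p).1, (top p).2.mono (le_of_max_le_left hR) e1 le_rfl⟩) (fun m hm => ?_) ?_
    (by positivity) (by rw [pow_succ]; gcongr; exact a5 q)⟩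
  · have c := (lc ((G.wm v).ka (s + 1) C J) m).mono (le_of_max_le_left hR)
    have := le_of_max_le_right hR
    have : 2 * R + 2 ≤ (G.wm v).N J := (Nat.cast_le.1 (a3.trans l1)).trans
      (g.rt_N S.lt.le ▸ Nat.le_mul_of_pos_right _ (g.N_odd k).pos)
    exact ⟨c.1, c.2, (nl_of_nul (nul _ _ m hm) (g.N_odd J) (by omega) _).mono (by omega)⟩
  · have k0 := h.ka0 (s + 1) C J
    rw [div_eq_mul_inv, ← inv_pow, mul_assoc, ← mul_pow]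
    calc _ ≤ G.rt J k * (G.rt J k * (G.rt J k : ℝ) ^ (3 * C' + 1)) ^ s :=
          mul_le_mul (a4.trans l1) ((pow_le_pow_left₀ (by positivity) (mul_le_mul_of_nonneg_left
            (a2 J (S.wm 0)) (by positivity)) _).trans (pow_le_pow_right₀ (one_le_mul_of_one_le_of_one_le r1
              (one_le_pow₀ r1)) q.2)) (by positivity) (by positivity)
      _ = (G.rt J k : ℝ) ^ ((3 * C' + 2) * s + 1) := by ring
      _ ≤ _ := pow_le_pow_right₀ r1 e2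

end Pool.Agent.Lib.MP_7f377f_mp.RG.Q4.En.Gl
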