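import Pool.Agent.Lib.MP_7f377f_mp.G.KzA

/-! Transitions between charts and the diagonal choice of the normalisation. -/

noncomputable section

namespace Pool.Agent.Lib.MP_7f377f_mp.Kz
set_option linter.unusedSectionVars false

open Filter Topology Set Sw

/-- diagonal choice -/
theorem diag {α : Type} {l : Filter α} {u : α → ℕ} (hu : Tendsto u l atTop) {P : ℕ → α → Prop}
    (h : ∀ n, ∀ᶠ t in l, P n t) : ∃ D : α → ℕ, Tendsto D l atTop ∧ ∀ᶠ t in l, ∀ n ≤ D t, P n t := by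
  classical
  have e := fun n => (eventually_all_finite (finite_le_nat n)).2 fun m _ => h m
  exact ⟨fun t => Nat.findGreatest (fun n => ∀ m ≤ n, P m t) (u t), tendsto_atTop.2 fun n =>
    ((hu.eventually_ge_atTop n).and (e n)).mono fun t a => Nat.le_findGreatest a.1 a.2,
    (e 0).mono fun t a => Nat.findGreatest_spec (P := fun n => ∀ m ≤ n, P m t) (Nat.zero_le _) a⟩

theorem diag0 {P : ℕ → ℝ → Prop} (h : ∀ n, ∀ᶠ t in 𝓝[>] 0, P n t) :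
    ∃ D : ℝ → ℕ, Tendsto D (𝓝[>] 0) atTop ∧ ∀ᶠ t in 𝓝[>] 0, ∀ n ≤ D t, P n t :=
  diag (tendsto_nat_floor_atTop.comp tendsto_inv_nhdsGT_zero) h

variable {V ι : Type} [NormedAddCommGroup V] [NormedSpace ℝ V] {W : Submodule ℝ V}
  {N N' T : V →ₗ[ℝ] V} {U : Filter ι} {M M' : ι → V →ₗ[ℝ] V} {m C : ℝ}

/-- one function which is comparable to the square of the norm in two charts -/
theorem nr_pair {G : V → ℝ} (m0 : 0 < m) (s : SurjOn N W W) (a : MapsTo N' W W)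
    (h : ∀ e ∈ W, m * ‖e‖ ^ 2 ≤ G (N e)) (h' : ∀ e ∈ W, G (N' e) ≤ C * ‖e‖ ^ 2) :
    Nr W N N' 0 √(C / m) := nr_of_le s a fun e he e' he' u => by
  rw [LinearMap.zero_apply, sub_zero, ← Real.sqrt_sq (norm_nonneg e), ← Real.sqrt_mul' _ (sq_nonneg _),
    div_mul_eq_mul_div]
  exact Real.le_sqrt_of_sq_le ((le_div_iff₀' m0).2 ((h e' he').trans (u ▸ h' e he)))

theorem bd_pair {G : ι → V → ℝ} (m0 : 0 < m) (h : ∀ᶠ j in U, SurjOn (M j) W W ∧ MapsTo (M' j) W W ∧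
    (∀ e ∈ W, m * ‖e‖ ^ 2 ≤ G j (M j e)) ∧ ∀ e ∈ W, G j (M' j e) ≤ C * ‖e‖ ^ 2) : Bd U W M M' :=
  ⟨_, Real.sqrt_nonneg _, h.mono fun _ a => nr_pair m0 a.1 a.2.1 a.2.2.1 a.2.2.2⟩

/-- charts which agree on the range of `T` -/
theorem Bd.unit [FiniteDimensional ℝ W] (a : MapsTo T W W) (b : ∀ c, T (T c) = T c)
    (h : Bd U (W ⊓ LinearMap.ker T) M M') (e : ∀ᶠ j in U, ∀ c ∈ W, M j (T c) = M' j (T c)) :
    Bd U W M M' := by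
  obtain ⟨C, C0, h⟩ := h
  obtain ⟨D, D0, hD⟩ := ex_bd (W := W) T
  refine ⟨D + C * (1 + D), by positivity, (h.and e).mono fun j u c hc => ?_⟩
  obtain ⟨z, z1, z2, z3⟩ := u.1 (c - T c) ⟨W.sub_mem hc (a hc), by simp [b]⟩
  simp only [LinearMap.zero_apply, sub_zero] at *
  refine ⟨T c + z, W.add_mem (a hc) z1.1, by simp [z2, u.2 c hc], (norm_add_le _ _).trans ?_⟩
  nlinarith [hD c hc, norm_sub_le c (T c), mul_le_mul_of_nonneg_left (norm_sub_le c (T c)) C0,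
    mul_le_mul_of_nonneg_left (hD c hc) C0]

theorem Bd.left [FiniteDimensional ℝ W] (h : Bd U W M M') (b : BijOn T W W) :
    Bd U W (fun j => M j ∘ₗ T) M' := by
  obtain ⟨C, C0, u⟩ := ex_nr (N' := .id) b (mapsTo_id _)
  refine Bd.trans ⟨C, C0, .of_forall fun j e he => (u e he).imp fun z a => ⟨a.1, ?_, a.2.2⟩⟩ h
  exact congrArg (M j) a.2.1

theorem Bd.chain {M : ℕ → ι → V →ₗ[ℝ] V} {k₀ : ℕ}
    (h : ∀ k ≥ k₀, Bd U W (M k) (M (k + 1)) ∧ Bd U W (M (k + 1)) (M k)) {k k' : ℕ} (a : k₀ ≤ k)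
    (b : k₀ ≤ k') : Bd U W (M k) (M k') := by
  have : ∀ k ≥ k₀, Bd U W (M k₀) (M k) ∧ Bd U W (M k) (M k₀) := fun k a => by
    induction a with
    | refl => exact ⟨.refl, .refl⟩
    | step a ih => exact ⟨ih.1.trans (h _ a).1, (h _ a).2.trans ih.2⟩
  exact (this k a).2.trans (this k' b).1

theorem Bd.filt {U' : Filter ι} (h : Bd U W M M') (e : U' ≤ U) : Bd U' W M M' :=
  h.imp fun _ h => ⟨h.1, e h.2⟩

theorem Bd.all {W : ℕ → Submodule ℝ V} {D : ℕ} (h : ∀ d ≤ D, Bd U (W d) M M') :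
    ∃ K ≥ 0, ∀ᶠ j in U, ∀ d ≤ D, Nr (W d) (M j) (M' j) 0 K := by
  choose! K K0 hK using h
  refine ⟨∑ d ∈ Finset.Iic D, K d, Finset.sum_nonneg fun d a => K0 d (by simpa using a),
    (eventually_all_finite (finite_le_nat D)).2 fun d a => (hK d a).mono fun j u => u.mono ?_⟩
  exact Finset.single_le_sum (fun d a => K0 d (by simpa using a)) (by simpa using a)

/-- pointwise limits are uniform -/
theorem Rl.nr [FiniteDimensional ℝ W] (h : ∀ c ∈ W, Rl U W M M' (T c) c) {η : ℝ} (η0 : 0 < η) :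
    ∀ᶠ j in U, Nr W (M j) (M' j ∘ₗ T) .id η := by
  let b := Module.finBasis ℝ W
  choose z z1 z2 using fun i => h _ (b i).2
  let C := fun i => ‖LinearMap.toContinuousLinearMap (b.coord i)‖
  have t : Tendsto (fun j => ∑ i, C i * ‖z i j - b i‖) U (𝓝 0) := by
    simpa using tendsto_finsetSum Finset.univ fun i _ =>
      (tendsto_iff_norm_sub_tendsto_zero.1 (z1 i)).const_mul (C i)
  filter_upwards [eventually_all.2 z2, t.eventually_le_const η0] with j u v e he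
  have r : ∑ i, b.coord i ⟨e, he⟩ • (b i : V) = e :=
    (Submodule.coe_sum ..).symm.trans (congrArg Subtype.val (b.sum_repr ⟨e, he⟩))
  refine ⟨∑ i, b.coord i ⟨e, he⟩ • z i j, W.sum_mem fun i _ => W.smul_mem _ (u i).1, ?_, ?_⟩
  · conv_rhs => rw [← r]
    simp only [map_sum, map_smul, (u _).2, LinearMap.comp_apply]
  · conv_lhs => rw [LinearMap.id_apply]; enter [1, 2]; rw [← r]
    rw [← Finset.sum_sub_distrib]
    refine (norm_sum_le_of_le _ fun i _ => ?_).trans ((Finset.sum_mul ..).symm.trans_le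
      (mul_le_mul_of_nonneg_right v (norm_nonneg _)))
    rw [← smul_sub, norm_smul, mul_right_comm]
    exact mul_le_mul_of_nonneg_right
      ((LinearMap.toContinuousLinearMap (b.coord i)).le_opNorm ⟨e, he⟩) (norm_nonneg _)

variable {Φ : Fil V} {Γ : Type} {l : Filter ι} {ρ : Γ → V →ₗ[ℝ] V} {N : ι → ℕ → ℕ → V →ₗ[ℝ] V}
  {k₀ : ℕ → ℕ}

variable (Φ l ρ N k₀) in
/-- comparable charts for all cuts `D` and levels `k ≥ k₀ D` -/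
structure Ch : Prop where
  gr : ∀ g d c, ρ g (Φ.π d c) = Φ.π d (ρ g c)
  bij : ∀ D, ∀ k ≥ k₀ D, ∀ᶠ j in l, ∀ d ≤ D, BijOn (N j D k) (Φ.F d) (Φ.F d)
  eqv : ∀ D, ∀ k ≥ k₀ D, ∀ g, ∀ᶠ j in l, ∀ c ∈ Φ.F D, N j D k (ρ g c) = ρ g (N j D k c)
  lev : ∀ D, ∀ k ≥ k₀ D, ∀ d ≤ D, Bd l (Φ.F d) (N · D k) (N · D (k + 1)) ∧
    Bd l (Φ.F d) (N · D (k + 1)) (N · D k)
  cut : ∀ D D' d, d ≤ D → d ≤ D' → ∃ k ≥ k₀ D, k₀ D' ≤ k ∧ Bd l (Φ.F d) (N · D k) (N · D' k)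

variable (Φ N k₀) in
/-- the normalisation of the labels -/
def NN (j : ι) : V →ₗ[ℝ] V := gl Φ fun d => N j d (k₀ d)

namespace Ch
variable (h : Ch Φ l ρ N k₀)
include h

theorem bd {D D' k k' d : ℕ} (a : k₀ D ≤ k) (a' : k₀ D' ≤ k') (b : d ≤ D) (b' : d ≤ D') :
    Bd l (Φ.F d) (N · D k) (N · D' k') :=
  let ⟨_, k1, k2, k3⟩ := h.cut _ _ d b b'
  ((Bd.chain (fun k e => h.lev _ k e d b) a k1).trans k3).trans
    (Bd.chain (fun k e => h.lev _ k e d b') k2 a')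

theorem nn {D k d : ℕ} (a : k₀ D ≤ k) (b : d ≤ D) :
    Bd l (Φ.F d) (N · D k) (NN Φ N k₀) ∧ Bd l (Φ.F d) (NN Φ N k₀) (N · D k) :=
  bd_gl (K := {κ : ℕ × ℕ // k₀ κ.1 ≤ κ.2}) (dg := fun κ => κ.1.1) (b := fun d => ⟨(d, k₀ d), le_rfl⟩)
    (N := fun j κ => N j κ.1.1 κ.1.2) (fun _ => le_rfl) (fun κ κ' _ => h.bd κ.2 κ'.2)
    (κ := ⟨(D, k), a⟩) b

theorem nn_bij (D : ℕ) : ∀ᶠ j in l, BijOn (NN Φ N k₀ j) (Φ.F D) (Φ.F D) := by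
  have := Φ.fin
  obtain ⟨C, -, u⟩ := (h.nn le_rfl (le_refl D)).2
  filter_upwards [u, (eventually_all_finite (finite_le_nat D)).2 fun d _ => h.bij d _ le_rfl]
    with j u w
  refine bij_of_surj (gl_up fun d e => (w d e d le_rfl).1) fun y hy => ?_
  obtain ⟨x, hx, rfl⟩ := (w D le_rfl D le_rfl).2.2 hy
  exact (u x hx).imp fun z e => ⟨e.1, e.2.1⟩

theorem nn_eqv (D g) : ∀ᶠ j in l, ∀ c ∈ Φ.F D, NN Φ N k₀ j (ρ g c) = ρ g (NN Φ N k₀ j c) :=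
  ((eventually_all_finite (finite_le_nat D)).2 fun d _ => h.eqv d _ le_rfl g).mono
    fun _ u _ hc => gl_comm (h.gr g) u hc

/-- the renormalisation of the labels at the scale `t` -/
theorem lim {U : Ultrafilter ι} (hU : U ≤ l) {sc : ℕ → ℝ → V →ₗ[ℝ] V}
    (s1 : ∀ D, ∀ᶠ t in 𝓝[>] 0, ∀ d, BijOn (sc D t) (Φ.F d) (Φ.F d))
    (s2 : ∀ D t g c, sc D t (ρ g c) = ρ g (sc D t c)) {k : ℕ → ℝ → ℕ}
    (hk : ∀ D, Tendsto (k D) (𝓝[>] 0) atTop) {P : ℕ → ℝ → Prop} (hP : ∀ n, ∀ᶠ t in 𝓝[>] 0, P n t) :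
    ∃ (D : ℝ → ℕ) (A : ℝ → V ≃ₗ[ℝ] V), (∀ t, Φ.Up 0 (A t) ∧ Φ.Up 0 (A t).symm) ∧
      (∀ t g c, A t (ρ g c) = ρ g (A t c)) ∧ Tendsto D (𝓝[>] 0) atTop ∧
      ∀ᶠ t in 𝓝[>] 0, k₀ (D t) ≤ k (D t) t ∧ P (D t) t ∧ ∀ d ≤ D t, ∀ c ∈ Φ.F d,
        Rl U (Φ.F d) (NN Φ N k₀) (fun j => N j (D t) (k (D t) t) ∘ₗ sc (D t) t) c (A t c) ∧
        Rl U (Φ.F d) (fun j => N j (D t) (k (D t) t) ∘ₗ sc (D t) t) (NN Φ N k₀) (A t c) c := by
  have := Φ.fin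
  let K := {κ : ℕ × ℕ × (V →ₗ[ℝ] V) // k₀ κ.1 ≤ κ.2.1 ∧ (∀ d, BijOn κ.2.2 (Φ.F d) (Φ.F d)) ∧
    ∀ g c, κ.2.2 (ρ g c) = ρ g (κ.2.2 c)}
  let b : ℕ → K := fun d => ⟨(d, k₀ d, .id), le_rfl, fun _ => bijOn_id _, fun _ _ => rfl⟩
  have h5 : ∀ (κ κ' : K) d, d ≤ κ.1.1 → d ≤ κ'.1.1 → Bd U (Φ.F d)
      (fun j => N j κ.1.1 κ.1.2.1 ∘ₗ κ.1.2.2) fun j => N j κ'.1.1 κ'.1.2.1 ∘ₗ κ'.1.2.2 :=
    fun κ κ' d a b => ((((h.bd κ.2.1 κ'.2.1 a b).filt hU).left (κ.2.2.1 d)).comp le_rfl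
      (κ'.2.2.1 d).1)
  choose A a1 a2 a3 a4 using (glue (dg := fun κ : K => κ.1.1) (b := b)
    (N := fun j (κ : K) => N j κ.1.1 κ.1.2.1 ∘ₗ κ.1.2.2) h.gr (fun _ => le_rfl)
    (fun κ => ((h.bij _ _ κ.2.1).filter_mono hU).mono fun j a d e => (a d e).comp (κ.2.2.1 d))
    (fun κ g => ((h.eqv _ _ κ.2.1 g).filter_mono hU).mono fun j a c e => by
      simp only [LinearMap.comp_apply, κ.2.2.2, a _ ((κ.2.2.1 _).1 e)]) h5).2.2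
  obtain ⟨D, d1, d2⟩ := diag0 fun n =>
    ((hk n).eventually_ge_atTop (k₀ n)).and ((s1 n).and (hP n))
  have : ∀ t, ∃ κ : K, k₀ (D t) ≤ k (D t) t ∧ (∀ d, BijOn (sc (D t) t) (Φ.F d) (Φ.F d)) →
      κ.1 = (D t, k (D t) t, sc (D t) t) := fun t => by
    by_cases e : k₀ (D t) ≤ k (D t) t ∧ ∀ d, BijOn (sc (D t) t) (Φ.F d) (Φ.F d)
    exacts [⟨⟨_, e.1, e.2, s2 _ _⟩, fun _ => rfl⟩, ⟨b 0, fun e' => absurd e' e⟩]
  choose κ q using this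
  refine ⟨D, fun t => A (κ t), fun t => ⟨a1 _, a2 _⟩, fun t => a3 _, d1, d2.mono fun t e => ?_⟩
  obtain ⟨e1, e2, e3⟩ := e _ le_rfl
  refine ⟨e1, e3, fun d a c hc => ?_⟩
  have q := q t ⟨e1, e2⟩
  have r := a4 (κ t) d (q ▸ a) c hc
  rw [q] at r
  exact ⟨r, r.inv hc (((h.nn e1 a).1.filt hU).left (e2 d))⟩

end Ch

end Pool.Agent.Lib.MP_7f377f_mp.Kz
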