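import Pool.Agent.Lib.MP_7f377f_mp.G.KzD

/-! Covariance of the letters of labels. -/

noncomputable section

set_option linter.unusedSectionVars false
variable [Pool.Agent.Lib.MP_7f377f_mp.GD]

namespace Pool.Agent.Lib.MP_7f377f_mp.Kz

open MeasureTheory Filter Set YM7 L6 RG RG.Tl RG.Q4 RG.Q4.En Wy
open RG.Wd (B4 gv pb)
open Wu (Z4)
open Zg (V0 Og r0 fil)

theorem pb_rf (μ : Fin 4) (U : Fz) : pb Inv.inv (Wd.rf μ) U = rz μ U := funext fun ⟨x, l⟩ => by
  have e : gv (Wd.rf μ) x = Function.update x μ (-x μ) := funext fun j => by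
    change Wd.cd x (if j = μ then _ else _) = _
    by_cases u : j = μ <;> simp [u, Wd.cd, Wd.fl]
  by_cases u : l = μ
  · simp [Wd.pb, Wd.stp, rz, e, u, Wd.rf_apply, Wd.fl]
    congr 2
    funext j
    by_cases v : j = μ <;> simp [v, un]
  · simp [Wd.pb, Wd.stp, rz, e, u, Wd.rf_apply]

theorem pb_pe (σ : Equiv.Perm (Fin 4)) (U : Fz) : pb Inv.inv (Wd.pe σ) U = qz σ U := rfl

theorem gI_rf (μ : Fin 4) : gI (Wd.rf μ) = Pur.rfL μ := by
  ext y j
  change Wd.cd y.ofLp (if j = μ then _ else _) = _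
  by_cases u : j = μ <;> simp [u, Wd.cd, Wd.fl, Pur.rfL]

theorem gI_pe (σ : Equiv.Perm (Fin 4)) : gI (Wd.pe σ) = Ro.prm σ := by
  ext y j
  rfl

theorem tz_pb (g : B4) (x : Z4) (U : Fz) : tz x (pb Inv.inv g U) = pb Inv.inv g (tz (gv g x) U) := by
  have e : ∀ x (U : Fz), tz x U = RG.sh x U := fun x U => funext fun l => by simp [tz, RG.sh, add_comm]
  rw [e, e]
  exact Wd.sh_pb g U x

variable {𝒜 : Set CM} [Og 𝒜] {ι : Type} [Fintype ι] [MeasurableSpace SU2] [BorelSpace SU2]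
  {h : Measure SU2} [h.IsHaarMeasure] [IsProbabilityMeasure h] {b : ℝ} {n : ℕ} [NeZero n]

theorem lt_rB (g : B4) (c : V0 𝒜) (U : Fz) : lt 𝒜 (rB 𝒜 g c) U = lt 𝒜 c (pb Inv.inv g U) :=
  congrArg Complex.re ((congrArg (pG · U) (act_lE g c).symm).trans (pG_act g _ U))

theorem er_pb (g : B4) : ∀ {F : Fz → ℝ}, Continuous F →
    er h b n (fun U => F (pb Inv.inv g U)) = er h b n F := by
  refine Wd.B4_ind (P := fun g => ∀ {F : Fz → ℝ}, Continuous F →
    er h b n (fun U => F (pb Inv.inv g U)) = er h b n F) (fun σ F hF => ?_) (fun μ F hF => ?_)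
      (fun g k a c F hF => ?_) g
  · exact Complex.ofReal_injective ((er_ex _).symm.trans
      ((ex_prm σ (Complex.continuous_ofReal.comp hF)).trans (er_ex _)))
  · simp only [pb_rf]
    exact Complex.ofReal_injective ((er_ex _).symm.trans
      ((ex_rz μ (Complex.continuous_ofReal.comp hF)).trans (er_ex _)))
  · simp only [Wd.pb_mul inv_inv]
    exact (a (F := fun U => F (pb Inv.inv k U)) (hF.comp (Wd.cont_pb k))).trans (c hF)

theorem ct_rB (g : B4) (c : V0 𝒜) (U : Fz) :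
    ct h b n (lt 𝒜 (rB 𝒜 g c)) U = ct h b n (lt 𝒜 c) (pb Inv.inv g U) := by
  rw [ct, ct, funext (lt_rB g c), er_pb g (lt_cont 𝒜 c)]

theorem ct_cont (c : V0 𝒜) : Continuous (ct h b n (lt 𝒜 c)) := (lt_cont 𝒜 c).sub continuous_const

theorem cm_tr (c : ι → V0 𝒜) (x : ι → Z4) (w : Z4) :
    cm h b n c (fun a => x a + w) = cm h b n c x := by
  simp only [cm, add_comm _ w, ← tz_tz]
  exact Complex.ofReal_injective ((er_ex _).symm.trans ((ex_tz w (Complex.continuous_ofReal.comp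
    (continuous_finsetProd _ fun a _ => (ct_cont (c a)).comp (cont_tz (x a))))).trans (er_ex _)))

theorem cm_cov (c : ι → V0 𝒜) (x : ι → Z4) (g : B4) :
    cm h b n (fun a => rB 𝒜 g (c a)) (fun a => gv g (x a)) = cm h b n c x := by
  simp only [cm, ct_rB, ← tz_pb]
  exact er_pb g (continuous_finsetProd _ fun a _ => (ct_cont (c a)).comp (cont_tz (x a)))

end Pool.Agent.Lib.MP_7f377f_mp.Kz
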