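import Pool.Agent.Lib.MP_7f377f_mp.G.WyA

/-! Differences of translates of a lattice observable from reflection positivity. -/

noncomputable section

namespace Pool.Agent.Lib.MP_7f377f_mp.Wy
variable [Pool.Agent.Lib.MP_7f377f_mp.GD]
set_option linter.unusedSectionVars false

open MeasureTheory Real YM7 Weak L6 Function Finset
open Wu (Z4)

omit [GD] in
theorem tel2 (g : ℕ → ℝ) (k : ℕ) : ∑ a ∈ range k, ∑ c ∈ range k,
    (g (a + c) - 2 * g (a + c + 1) + g (a + c + 2)) = g 0 - 2 * g k + g (2 * k) := by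
  have e : ∀ a, ∑ c ∈ range k, (g (a + c) - 2 * g (a + c + 1) + g (a + c + 2)) =
      (g (a + 1 + k) - g (a + 1)) - (g (a + k) - g a) := fun a => by
    have := sum_range_sub (fun c => g (a + 1 + c) - g (a + c)) k
    simp only [add_zero] at this
    refine (sum_congr rfl fun c _ => ?_).trans (this.trans (by ring))
    rw [show a + 1 + (c + 1) = a + c + 2 by ring, show a + 1 + c = a + c + 1 by ring, add_assoc a c]
    ring_nf
  simp only [e]
  rw [sum_range_sub (fun a => g (a + k) - g a), zero_add, two_mul]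
  ring

omit [GD] in
/-- the maximum principle -/
theorem cvx_max {g : ℤ → ℝ} {t₁ t₂ t : ℤ}
    (c : ∀ s, t₁ ≤ s → s + 2 ≤ t₂ → 0 ≤ g s - 2 * g (s + 1) + g (s + 2)) (h1 : t₁ ≤ t)
    (h2 : t ≤ t₂) : g t ≤ max (g t₁) (g t₂) := by
  have up : ∀ s, t₁ ≤ s → g s < g (s + 1) → ∀ u, s + 1 ≤ u → u ≤ t₂ →
      g (u - 1) < g u ∧ g s < g u := fun s a e u b => by
    induction u, b using Int.le_induction with
    | base => exact fun _ => ⟨by rwa [add_sub_cancel_right], e⟩
    | succ u b ih =>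
      intro d
      obtain ⟨i1, i2⟩ := ih (by omega)
      have := c (u - 1) (by omega) (by omega)
      rw [sub_add_cancel, show u - 1 + 2 = u + 1 by ring] at this
      rw [add_sub_cancel_right]
      constructor <;> linarith
  induction t, h1 using Int.le_induction with
  | base => exact le_max_left ..
  | succ u b ih =>
    rcases le_or_gt (g (u + 1)) (g u) with e | e
    · exact e.trans (ih (by omega))
    rcases h2.eq_or_lt with e' | e'
    · exact e' ▸ le_max_right ..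
    have := c u b (by omega)
    exact (up (u + 1) (by omega) (by rw [add_assoc, one_add_one_eq_two]; linarith) t₂ (by omega)
      le_rfl).2.le.trans (le_max_right ..)

variable [MeasurableSpace SU2] {n : ℕ} {μ : Fin 4} {A A' B B' : Fz → ℝ} {lo hi lo' hi' : ℤ}

/-- bounded observables which depend on the links in a slab -/
def Sb (μ : Fin 4) (lo hi : ℤ) (A : Fz → ℝ) : Prop :=
  BM A ∧ DependsOn A {l | lo ≤ l.1 μ ∧ l.1 μ ≤ hi}

/-- the difference of two translates -/
def df (v : Z4) (A : Fz → ℝ) (U : Fz) : ℝ := A (tz v U) - A U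

theorem meas_tz (y : Z4) : Measurable (tz y) := measurable_pi_lambda _ fun _ => measurable_pi_apply _

theorem bm_lf (e : BM A) : BM fun U : Cfg n => A (lf U) :=
  ⟨e.1.comp (measurable_pi_lambda _ fun _ => measurable_pi_apply _), e.2.imp fun _ a _ => a _⟩

theorem bm_sub {Ω : Type} [MeasurableSpace Ω] {F F' : Ω → ℝ} (e : BM F) (e' : BM F') :
    BM fun U => F U - F' U := by
  simpa only [neg_one_mul, ← sub_eq_add_neg] using e.add ((BM.const (-1)).mul e')

namespace Sb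

theorem mono (e : Sb μ lo hi A) (h1 : lo' ≤ lo) (h2 : hi ≤ hi') : Sb μ lo' hi' A :=
  ⟨e.1, e.2.mono fun _ a => ⟨h1.trans a.1, a.2.trans h2⟩⟩

theorem const (c : ℝ) : Sb μ lo hi fun _ => c := ⟨.const c, fun _ _ _ => rfl⟩

theorem add (e : Sb μ lo hi A) (e' : Sb μ lo hi B) : Sb μ lo hi fun U => A U + B U :=
  ⟨e.1.add e'.1, fun _ _ a => by simp only [e.2 a, e'.2 a]⟩

theorem sub (e : Sb μ lo hi A) (e' : Sb μ lo hi B) : Sb μ lo hi fun U => A U - B U :=
  ⟨bm_sub e.1 e'.1, fun _ _ a => by simp only [e.2 a, e'.2 a]⟩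

theorem mul (e : Sb μ lo hi A) (e' : Sb μ lo hi B) : Sb μ lo hi fun U => A U * B U :=
  ⟨e.1.mul e'.1, fun _ _ a => by simp only [e.2 a, e'.2 a]⟩

theorem tr (e : Sb μ lo hi A) (y : Z4) : Sb μ (lo + y μ) (hi + y μ) fun U => A (tz y U) :=
  ⟨e.1.comp (meas_tz y), fun _ _ a => e.2 fun l hl => a _
    ⟨(add_comm lo _).trans_le (add_le_add le_rfl hl.1),
      (add_le_add le_rfl hl.2).trans_eq (add_comm _ hi)⟩⟩

theorem dif (e : Sb μ lo hi A) {δ : ℤ} (h0 : 0 ≤ δ) : Sb μ lo (hi + δ) (df (Pi.single μ δ) A) :=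
  ((e.tr _).mono (by simpa) (by simp)).sub (e.mono le_rfl (by omega))

theorem box {R : ℤ} (e : BM A) (d : DependsOn A {l | ∀ i, |l.1 i| ≤ R}) : Sb μ (-R) R A :=
  ⟨e, fun _ _ a => d fun l hl => a l (abs_le.1 (hl μ))⟩

variable [BorelSpace SU2]

theorem meas_rz : Measurable (rz μ) := (cont_rz μ).measurable

theorem rf (e : Sb μ lo hi A) : Sb μ (-hi - 1) (-lo) fun U => A (rz μ U) :=
  ⟨e.1.comp meas_rz, fun U V a => e.2 fun l hl => by
    have h1 := hl.1
    have h2 := hl.2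
    simp only [rz]
    split_ifs
    · exact congrArg _ (a _ ⟨by simp; omega, by simp; omega⟩)
    · exact a _ ⟨by simp; omega, by simp; omega⟩⟩

end Sb

/-- the expectation of a real observable -/
def er (h : Measure SU2) (b : ℝ) (n : ℕ) [NeZero n] (F : Fz → ℝ) : ℝ := ∫ U, F (lf U) ∂wilson h b n

/-- the correlation of `A` at `t e_μ` with the mirror image of `B` -/
def tp (h : Measure SU2) (b : ℝ) (n : ℕ) [NeZero n] (μ : Fin 4) (A B : Fz → ℝ) (t : ℤ) : ℝ :=
  er h b n fun U => A (tz (Pi.single μ t) U) * B (rz μ U)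

variable {h : Measure SU2} {b : ℝ} [NeZero n] [BorelSpace SU2] [h.IsHaarMeasure]
  [IsProbabilityMeasure h] {t t' u t₁ t₂ s₁ s₂ δ : ℤ}

theorem er_ex (F : Fz → ℝ) : ex h b n (fun U => (F U : ℂ)) = er h b n F := ex_real F

theorem er_tz (e : BM A) (y : Z4) : er h b n (fun U => A (tz y U)) = er h b n A := by
  simp only [er, ← lf_shift]
  exact (bm_lf e).mp (mp_shift' h b _)

theorem er_rz (e : BM A) (μ : Fin 4) : er h b n (fun U => A (rz μ U)) = er h b n A := by
  simp only [er, ← lf_refl]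
  exact (bm_lf e).mp (mp_refl' h b μ)

theorem er_add (e : BM A) (e' : BM B) :
    er h b n (fun U => A U + B U) = er h b n A + er h b n B :=
  integral_add ((bm_lf e).int _) ((bm_lf e').int _)

theorem er_sub (e : BM A) (e' : BM B) :
    er h b n (fun U => A U - B U) = er h b n A - er h b n B :=
  integral_sub ((bm_lf e).int _) ((bm_lf e').int _)

theorem th_one (s : ℤ) : Wu.th μ 0 (Pi.single μ s) = Pi.single μ (-s) := funext fun l => by
  by_cases e : l = μ <;> simp [Wu.th, e]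

/-- correlations at general sites -/
theorem er_tp (e : BM A) (e' : BM B) (x y : Z4) (t : ℤ) :
    tp h b n μ (fun U => A (tz x U)) (fun U => B (tz y U)) t =
      er h b n fun U => A (tz (Pi.single μ t + x - Wu.th μ 0 y) U) * B (rz μ U) := by
  rw [← er_tz ((e.comp (meas_tz _)).mul (e'.comp Sb.meas_rz)) (Wu.th μ 0 y)]
  simp only [tp, tz_tz, rz_tz, add_sub_cancel]

theorem tp_tr (e : BM A) (e' : BM B) (x : Z4) (t : ℤ) :
    tp h b n μ (fun U => A (tz x U)) (fun U => B (tz x U)) t = tp h b n μ A B (t + 2 * x μ) := by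
  rw [er_tp e e', tp, show Pi.single μ t + x - Wu.th μ 0 x = Pi.single μ (t + 2 * x μ) from
    funext fun l => by by_cases e : l = μ <;> simp [Wu.th, e]; ring]

theorem tp_sh (e : BM A) (e' : BM B) (s s' t : ℤ) :
    tp h b n μ (fun U => A (tz (Pi.single μ s) U)) (fun U => B (tz (Pi.single μ s') U)) t =
      tp h b n μ A B (t + s + s') := by
  rw [er_tp e e', tp, th_one, ← Pi.single_add, ← Pi.single_sub, sub_neg_eq_add]

theorem tp_per (A B : Fz → ℝ) (t : ℤ) : tp h b n μ A B (t + n) = tp h b n μ A B t := by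
  have e : (fun i => ((Pi.single μ (t + n) : Z4) i : ZMod n)) =
      fun i => ((Pi.single μ t : Z4) i : ZMod n) := funext fun l => by
    by_cases e : l = μ <;> simp [e]
  simp only [tp, er, ← lf_shift, e]

theorem tp_comm (e : BM A) (e' : BM B) (t : ℤ) : tp h b n μ A B t = tp h b n μ B A t := by
  have a := tp_sh (h := h) (b := b) (n := n) (μ := μ) e e' 0 t 0
  rw [tp, ← er_rz ((e.comp (meas_tz _)).comp (meas_tz _) |>.mul
    ((e'.comp (meas_tz _)).comp Sb.meas_rz)) μ] at a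
  simp only [zero_add, Pi.single_zero, tz_zero, rz_rz] at a
  rw [← a, tp]
  simp only [mul_comm]

theorem tp_dif (e : BM A) (δ t : ℤ) :
    tp h b n μ (df (Pi.single μ δ) A) (df (Pi.single μ δ) A) t =
      tp h b n μ A A t - 2 * tp h b n μ A A (t + δ) + tp h b n μ A A (t + 2 * δ) := by
  have m := fun {F G : Fz → ℝ} (a : BM F) (c : BM G) =>
    (a.comp (meas_tz (Pi.single μ t))).mul (c.comp (Sb.meas_rz (μ := μ)))
  have e' := e.comp (meas_tz (Pi.single μ δ))
  have a1 := tp_sh (h := h) (b := b) (n := n) (μ := μ) e e δ δ t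
  have a2 := tp_sh (h := h) (b := b) (n := n) (μ := μ) e e δ 0 t
  have a3 := tp_sh (h := h) (b := b) (n := n) (μ := μ) e e 0 δ t
  simp only [Pi.single_zero, tz_zero, add_zero] at a2 a3
  rw [two_mul δ, ← add_assoc, ← a1, two_mul, tp]
  simp only [df, sub_mul, mul_sub]
  rw [er_sub (bm_sub (m e' e') (m e e')) (bm_sub (m e' e) (m e e)), er_sub (m e' e') (m e e'),
    er_sub (m e' e) (m e e)]
  nth_rw 1 [← a2, ← a3]
  simp only [tp]
  ring

variable (b0 : 0 ≤ b) (hn : Odd n)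
include b0

theorem cs0 (e : Sb μ lo hi A) (e' : Sb μ lo' hi' B) (k : ℤ) (h1 : 0 ≤ lo + k * n)
    (h2 : 2 * (hi + k * n + 1) ≤ n) (h3 : 0 ≤ lo' + k * n) (h4 : 2 * (hi' + k * n + 1) ≤ n) :
    0 ≤ tp h b n μ A A 0 ∧ tp h b n μ A B 0 ^ 2 ≤ tp h b n μ A A 0 * tp h b n μ B B 0 := by
  let _ := YM5.quatHS
  have d := dep_lf (n := n) (μ := μ) (e.2.mono fun l a => ⟨k, by linarith [a.1], by linarith [a.2]⟩)
  have d' := dep_lf (n := n) (μ := μ)
    (e'.2.mono fun l a => ⟨k, by linarith [a.1], by linarith [a.2]⟩)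
  simp only [tp, er, Pi.single_zero, tz_zero, ← lf_refl, wilson_nu]
  exact ⟨rp_pos_meas _ h YM5.rho_cont (by linarith) μ (bm_lf e.1) d,
    rp_ineq_meas _ h YM5.rho_cont (by linarith) μ (bm_lf e.1) (bm_lf e'.1) d d'⟩

include hn

/-- positivity and the Schwarz inequality at all distances -/
theorem cs (e : Sb μ lo hi A) (e' : Sb μ lo' hi' B) (hu : t + t' = 2 * u) (h1 : 2 ≤ t + 2 * lo)
    (h2 : t + 2 * hi + 2 ≤ n) (h3 : 2 ≤ t' + 2 * lo') (h4 : t' + 2 * hi' + 2 ≤ n) :
    0 ≤ tp h b n μ A A t ∧ tp h b n μ A B u ^ 2 ≤ tp h b n μ A A t * tp h b n μ B B t' := by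
  obtain ⟨m, hm⟩ := hn
  rcases Int.even_or_odd' t with ⟨s, rfl | rfl⟩
  · have a := cs0 (h := h) (n := n) b0 (e.tr (Pi.single μ s)) (e'.tr (Pi.single μ (u - s))) 0
      (by simp; omega) (by simp; omega) (by simp; omega) (by simp; omega)
    simp only [tp_sh e.1 e.1, tp_sh e.1 e'.1, tp_sh e'.1 e'.1] at a
    rwa [show 0 + s + s = 2 * s by ring, show 0 + s + (u - s) = u by ring,
      show 0 + (u - s) + (u - s) = t' by omega] at a
  · have f : ∀ {F G : Fz → ℝ}, BM F → BM G → tp h b n μ (fun U => F (rz μ U))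
        (fun U => G (rz μ U)) 0 = tp h b n μ G F 0 := fun _ _ => by
      simp only [tp, Pi.single_zero, tz_zero, rz_rz, mul_comm]
    have c := e.tr (Pi.single μ (s - m))
    have c' := e'.tr (Pi.single μ (u - s - m - 1))
    have a := cs0 (h := h) (n := n) b0 c.rf c'.rf 0 (by simp; omega) (by simp; omega) (by simp; omega)
      (by simp; omega)
    simp only [f c.1 c.1, f c.1 c'.1, f c'.1 c'.1, tp_sh e.1 e.1, tp_sh e'.1 e.1,
      tp_sh e'.1 e'.1] at a
    rwa [← tp_per A A, ← tp_per B A, ← tp_per B B, tp_comm e'.1 e.1,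
      show 0 + (s - m) + (s - m) + n = 2 * s + 1 by omega,
      show 0 + (u - s - m - 1) + (s - m) + n = u by omega,
      show 0 + (u - s - m - 1) + (u - s - m - 1) + n = t' by omega] at a

variable (e : Sb μ lo hi A) (h1 : 2 ≤ t₁ + 2 * lo) (h2 : t₂ + 2 * hi + 2 ≤ n)
include e h1 h2

theorem tp_nn (a : t₁ ≤ t) (c : t ≤ t₂) : 0 ≤ tp h b n μ A A t :=
  (cs (u := t) b0 hn e e (two_mul t).symm (by omega) (by omega) (by omega) (by omega)).1

theorem tp_cvx (d0 : 0 ≤ δ) (a : t₁ ≤ t) (c : t + 2 * δ ≤ t₂) :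
    0 ≤ tp h b n μ A A t - 2 * tp h b n μ A A (t + δ) + tp h b n μ A A (t + 2 * δ) :=
  tp_dif (h := h) (b := b) (n := n) (μ := μ) e.1 δ t ▸ tp_nn (t₂ := t₂ - 2 * δ) b0 hn (e.dif d0) h1 (by omega) a (by omega)

/-- the supremum is attained at the end points -/
theorem tp_max (a : t₁ ≤ t) (c : t ≤ t₂) :
    tp h b n μ A A t ≤ max (tp h b n μ A A t₁) (tp h b n μ A A t₂) :=
  cvx_max (fun s u v => by simpa using tp_cvx (h := h) b0 hn e h1 h2 zero_le_one u (by omega)) a c

/-- second differences are small in the interior -/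
theorem tp_two {k : ℕ} (d0 : 0 ≤ δ) (a : t₁ + 2 * k * δ ≤ t) (c : t + 2 * k * δ ≤ t₂) :
    k ^ 2 * tp h b n μ (df (Pi.single μ δ) A) (df (Pi.single μ δ) A) t ≤
      2 * max (tp h b n μ A A t₁) (tp h b n μ A A t₂) := by
  have m : ∀ j : ℕ, j ≤ 2 * k → 0 ≤ j * δ ∧ j * δ ≤ 2 * k * δ := fun j hj =>
    ⟨by positivity, mul_le_mul_of_nonneg_right (by exact_mod_cast hj) d0⟩
  rcases k.eq_zero_or_pos with rfl | k1
  · simpa using (tp_nn b0 hn e h1 h2 le_rfl (by simp at a c; omega)).trans (le_max_left ..)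
  have k2 := m 2 (by omega)
  have k3 := m k (by omega)
  have s1 := tel2 (fun j => tp h b n μ A A (t + j * δ)) k
  have s2 := tel2 (fun j => tp h b n μ A A (t + 2 * δ - j * δ)) k
  have s : ∑ i ∈ range k, ∑ j ∈ range k, 2 * tp h b n μ (df (Pi.single μ δ) A)
      (df (Pi.single μ δ) A) t ≤ _ := le_of_le_of_eq ?_ (congrArg₂ (· + ·) s1 s2)
  swap
  · rw [← sum_add_distrib]
    refine sum_le_sum fun i hi => ?_
    rw [← sum_add_distrib]
    refine sum_le_sum fun j hj => ?_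
    have hi := mem_range.1 hi
    have hj := mem_range.1 hj
    have v := m (i + j) (by omega)
    have w := m (i + j + 2) (by omega)
    have := tp_cvx (h := h) (t₂ := t₂ - 2 * δ) (t := t - (i + j : ℕ) * δ) b0 hn (e.dif d0) h1
      (by omega) v.1 (by omega) (by push_cast at w ⊢; linarith [w.2])
    rw [sub_add_cancel, tp_dif e.1 δ (_ - _), tp_dif e.1 δ (_ + _)] at this
    push_cast at this ⊢
    ring_nf at this ⊢
    linarith
  simp only [sum_const, card_range, nsmul_eq_mul] at s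
  push_cast at s k2
  have p := fun x u v => And.intro (tp_nn (h := h) (t := x) b0 hn e h1 h2 u v)
    (tp_max (h := h) (t := x) b0 hn e h1 h2 u v)
  linarith [(p (t + 0 * δ) (by omega) (by omega)).2, (p (t + k * δ) (by omega) (by omega)).1,
    (p (t + 2 * k * δ) (by omega) c).2, (p (t + 2 * δ - 0 * δ) (by omega) (by omega)).2,
    (p (t + 2 * δ - k * δ) (by omega) (by omega)).1,
    (p (t + 2 * δ - 2 * k * δ) (by omega) (by omega)).2]

/-- a shift along the axis of the separation -/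
theorem tp_df {k : ℕ} (e' : Sb μ lo' hi' B) (h3 : 2 ≤ s₁ + 2 * lo') (h4 : s₂ + 2 * hi' + 2 ≤ n)
    (k1 : 0 < k) (d0 : 0 ≤ δ) (a : t₁ + 2 * k * δ ≤ t) (c : t + 2 * k * δ ≤ t₂) (a' : s₁ ≤ t')
    (c' : t' ≤ s₂) (hu : t + t' = 2 * u) : k ^ 2 * tp h b n μ (df (Pi.single μ δ) A) B u ^ 2 ≤
      2 * max (tp h b n μ A A t₁) (tp h b n μ A A t₂) *
        max (tp h b n μ B B s₁) (tp h b n μ B B s₂) := by
  have m : δ ≤ k * δ := le_mul_of_one_le_left d0 (by exact_mod_cast k1)
  have p := cs (h := h) b0 hn (e.dif d0) e' hu (by linarith) (by linarith) (by omega) (by omega)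
  have q := tp_two (h := h) b0 hn e h1 h2 d0 a c
  refine (mul_le_mul_of_nonneg_left p.2 (sq_nonneg _)).trans ?_
  rw [← mul_assoc]
  exact mul_le_mul q (tp_max b0 hn e' h3 h4 a' c') (tp_nn b0 hn e' h3 h4 a' c')
    ((mul_nonneg (sq_nonneg _) p.1).trans q)

omit e h1 h2

/-- a shift along an axis, general sites -/
theorem sh_one {k d : ℕ} {S S' : ℝ} (e : Sb μ lo hi A) (e' : Sb μ lo' hi' fun U => B (rz μ U))
    (h1 : 2 ≤ t₁ + 2 * min lo lo') (h2 : t₂ + 2 * max hi hi' + 2 ≤ n) (k1 : 0 < k)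
    (hS : max (tp h b n μ A A t₁) (tp h b n μ A A t₂) ≤ S)
    (hS' : max (tp h b n μ (fun U => B (rz μ U)) (fun U => B (rz μ U)) t₁)
      (tp h b n μ (fun U => B (rz μ U)) (fun U => B (rz μ U)) t₂) ≤ S') {x y : Z4} (hd : |δ| ≤ d)
    (a : t₁ + (2 * k + 1) * d ≤ x μ - y μ) (c : x μ - y μ + (2 * k + 1) * d ≤ t₂) :
    |er h b n fun U => (A (tz (x + Pi.single μ δ) U) - A (tz x U)) * B (tz y U)| ≤
      √(2 * S * S') / k := by
  have eB : BM B := by simpa only [rz_rz] using e'.1.comp (Sb.meas_rz (μ := μ))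
  have K : ∀ (δ : ℤ) (x : Z4), 0 ≤ δ → δ ≤ d → t₁ + 2 * k * d ≤ x μ - y μ →
      x μ - y μ + 2 * k * d ≤ t₂ → |er h b n fun U => (A (tz (x + Pi.single μ δ) U) - A (tz x U)) *
        B (tz y U)| ≤ √(2 * S * S') / k := fun δ x d0 d1 a c => by
    have m : 2 * k * δ ≤ 2 * k * d := mul_le_mul_of_nonneg_left d1 (by positivity)
    have m' : (0 : ℤ) ≤ 2 * k * d := by positivity
    obtain ⟨w, hw⟩ : ∃ w : Z4, w = x - y - Pi.single μ (x μ - y μ) := ⟨_, rfl⟩
    have w0 : w μ = 0 := by simp [hw]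
    have q := tp_df (h := h) (t := x μ - y μ) (t' := x μ - y μ) (u := x μ - y μ) (t₁ := t₁)
      (t₂ := t₂) (s₁ := t₁) (s₂ := t₂) b0 hn (e.tr w) (by omega) (by omega) e' (by omega) (by omega)
      k1 d0 (by omega) (by omega) (by omega) (by omega) (two_mul _).symm
    simp only [tp_tr e.1 e.1, w0, mul_zero, add_zero] at q
    have S0 := (tp_nn (h := h) b0 hn e (t₁ := t₁) (t₂ := t₂) (by omega) (by omega) le_rfl
      (by omega)).trans ((le_max_left ..).trans hS)
    have S1 := (tp_nn (h := h) b0 hn e' (t₁ := t₁) (t₂ := t₂) (by omega) (by omega) le_rfl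
      (by omega)).trans (le_max_left _ (tp h b n μ (fun U => B (rz μ U)) (fun U => B (rz μ U)) t₂))
    rw [le_div_iff₀' (Nat.cast_pos.2 k1), ← abs_of_nonneg (k.cast_nonneg (α := ℝ)), ← abs_mul]
    refine abs_le_sqrt ((le_of_eq ?_).trans (q.trans (by gcongr)))
    rw [mul_pow, tp, ← er_tz (((e.tr w).dif d0).1.comp (meas_tz _) |>.mul
      (e'.1.comp Sb.meas_rz)) y]
    simp only [df, tz_tz, rz_rz, hw]
    congr 3
    funext U
    congr 4 <;> abel
  have d1 := abs_le.1 hd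
  rcases le_total 0 δ with d0 | d0
  · exact K δ x d0 d1.2 (by nlinarith) (by nlinarith)
  · have := K (-δ) (x + Pi.single μ δ) (by omega) (by omega) (by simp; nlinarith)
      (by simp; nlinarith)
    rw [add_assoc, ← Pi.single_add, add_neg_cancel, Pi.single_zero, add_zero] at this
    simp only [er, ← neg_sub (A (tz x _)), neg_mul, integral_neg, abs_neg]
    exact this

/-- a general shift -/
theorem sh_all {k d : ℕ} {R : ℤ} {S S' : ℝ} (e : BM A) (e' : BM B)
    (dA : DependsOn A {l | ∀ i, |l.1 i| ≤ R}) (dB : DependsOn B {l | ∀ i, |l.1 i| ≤ R})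
    (h1 : 2 * R + 4 ≤ t₁) (h2 : t₂ + 2 * R + 2 ≤ n) (k1 : 0 < k)
    (hS : ∀ μ, max (tp h b n μ A A t₁) (tp h b n μ A A t₂) ≤ S)
    (hS' : ∀ μ, max (tp h b n μ (fun U => B (rz μ U)) (fun U => B (rz μ U)) t₁)
      (tp h b n μ (fun U => B (rz μ U)) (fun U => B (rz μ U)) t₂) ≤ S') {x y v : Z4}
    (hd : ∀ μ, |v μ| ≤ d) (a : ∀ μ, t₁ + (2 * k + 1) * d ≤ x μ - y μ)
    (c : ∀ μ, x μ - y μ + (2 * k + 1) * d ≤ t₂) :
    |er h b n fun U => (A (tz (x + v) U) - A (tz x U)) * B (tz y U)| ≤ 4 * √(2 * S * S') / k := by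
  have m := fun z => (e.comp (meas_tz z)).mul (e'.comp (meas_tz y))
  have K : ∀ s : Finset (Fin 4), |er h b n fun U => (A (tz (x + ∑ μ ∈ s, Pi.single μ (v μ)) U) -
      A (tz x U)) * B (tz y U)| ≤ s.card * (√(2 * S * S') / k) := fun s => by
    induction s using Finset.induction_on with
    | empty => simp [er]
    | insert μ s hs ih =>
      have z : (x + ∑ ν ∈ s, Pi.single ν (v ν) : Z4) μ = x μ := by
        simp [Finset.sum_apply, Pi.single_apply, hs]
      have := sh_one (h := h) (x := x + ∑ ν ∈ s, Pi.single ν (v ν)) (y := y) b0 hn (Sb.box e dA)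
        (Sb.box e' dB).rf (by omega) (by omega) k1 (hS μ) (hS' μ) (hd μ) (z ▸ a μ) (z ▸ c μ)
      simp only [sub_mul] at this ih ⊢
      rw [er_sub (m _) (m _)] at this ih ⊢
      rw [sum_insert hs, card_insert_of_notMem hs, add_comm (Pi.single μ _), ← add_assoc,
        Nat.cast_succ, add_one_mul, add_comm (_ * _)]
      exact (abs_sub_le _ _ _).trans (add_le_add this ih)
  simpa only [univ_sum_single, card_univ, Fintype.card_fin, Nat.cast_ofNat, mul_div_assoc] using
    K univ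

end Pool.Agent.Lib.MP_7f377f_mp.Wy
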