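import Pool.Agent.Lib.MP_7f377f_mp.G.KzL2
import Pool.Agent.Lib.MP_7f377f_mp.G.KzA
import Pool.Agent.Lib.MP_7f377f_mp.G.KzV
import Pool.Agent.Lib.MP_7f377f_mp.G.KzP
import Pool.Agent.Lib.MP_7f377f_mp.G.JsT
import Pool.Agent.Lib.MP_7f377f_mp.G.JuM
import Pool.Agent.Lib.MP_7f377f_mp.G.S15A
import Pool.Agent.Lib.MP_7f377f_mp.G.WzD

/-! Charts: lattice letters whose correlation functions at one scale are those of the free theory. -/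

noncomputable section

set_option linter.unusedSectionVars false
variable [Pool.Agent.Lib.MP_7f377f_mp.GD]

namespace Pool.Agent.Lib.MP_7f377f_mp.Kz

open MeasureTheory Filter Set YM7 L6 RG RG.Tl RG.Q4 RG.Q4.En Wy
open RG.Wd (B4 gv)
open Wu (Z4)
open Zg (V0 Og r0 fil)

variable (𝒜 : Set CM) [Og 𝒜] {ι : Type} [Fintype ι]

/-- the real lattice letter of a label -/
def lt : V0 𝒜 →ₗ[ℝ] Fz → ℝ where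
  toFun c U := (pG (lE 𝒜 c) U).re
  map_add' _ _ := by ext; simp
  map_smul' t c := by
    ext U
    rw [map_smul, ← Complex.coe_smul, map_smul]
    simp

/-- the lattice symmetries act on the labels -/
def rB : B4 →* V0 𝒜 →ₗ[ℝ] V0 𝒜 where
  toFun g := r0 𝒜 (gI g)
  map_one' := by rw [gI_one, map_one]
  map_mul' g h := by rw [gI_mul, map_mul]

/-- scaling: `R ^ d` on the labels of dimension `d` -/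
def rs (R : ℝ) : V0 𝒜 →ₗ[ℝ] V0 𝒜 := Zg.rv 𝒜 (Zg.smul_o R)

theorem lt_cont (c : V0 𝒜) : Continuous (lt 𝒜 c) := Complex.continuous_re.comp (pG_cont _)

variable {𝒜}

/-- the free correlation function of labels at the sites `x` in units of `u` -/
def fq (u : ℝ) (e : ι → V0 𝒜) (x : ι → Z4) : ℝ := Zf.fp (fun a => (e a).1) fun a => pz u⁻¹ (x a)

/-- the sup distance of `x` and `y` lies between `R₀` and `R₁` -/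
def Ds (R₀ R₁ : ℝ) (x y : Z4) : Prop :=
  (∃ l, R₀ ≤ |(x l - y l : ℝ)|) ∧ ∀ l, |(x l - y l : ℝ)| ≤ R₁

variable [MeasurableSpace SU2] (h : Measure SU2) (b : ℝ) (n : ℕ) [NeZero n]

/-- centring by the true mean -/
def ct (A : Fz → ℝ) (U : Fz) : ℝ := A U - er h b n A

/-- centred moments of letters -/
def cm (c : ι → V0 𝒜) (x : ι → Z4) : ℝ := er h b n fun U => ∏ a, ct h b n (lt 𝒜 (c a)) (tz (x a) U)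

/-- centred letters, the unit is the constant one -/
def oc [BorelSpace SU2] [h.IsHaarMeasure] [IsProbabilityMeasure h] : V0 𝒜 →ₗ[ℝ] Fz → ℝ where
  toFun c U := ct h b n (lt 𝒜 c) U + MvPolynomial.constantCoeff c.1
  map_add' c c' := funext fun U => by
    have i := fun c => ((lt_cont 𝒜 c).comp (cont_lf (n := n))).integrable_of_hasCompactSupport
      (μ := wilson h b n) (.of_compactSpace _)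
    simp only [ct, er, map_add, Pi.add_apply, Submodule.coe_add]
    linarith [show ∫ U, (lt 𝒜 c (L6.lf U) + lt 𝒜 c' (L6.lf U)) ∂_ = ∫ U, lt 𝒜 c (L6.lf U) ∂_ +
      ∫ U, lt 𝒜 c' (L6.lf U) ∂_ from integral_add (i c) (i c')]
  map_smul' t c := funext fun U => by
    simp [ct, er, integral_const_mul, mul_sub, mul_add]

/-- a chart in units of `r` sites for at most `m` labels of dimension at most `D` at the good sites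
`Γ`; `Hs x c y` says that the letter `c` at `x` has the size `y` modulo null letters; `cp` is the
pairing with the probes `S` and `sg` its model -/
structure Cz (D m r : ℕ) (M R P ε : ℝ) (Γ : Set Z4) (N : Z4 → V0 𝒜 →ₗ[ℝ] V0 𝒜)
    (Hs : Z4 → V0 𝒜 → ℝ → Prop) {Pr : Type} (pa : B4 → Pr → Pr) (S : Set Pr)
    (cp sg : Z4 → Pr → Z4 → V0 𝒜 →ₗ[ℝ] ℝ) : Prop where
  b0 : 0 ≤ b
  odd : Odd n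
  r0 : 0 < r
  m2 : 2 ≤ m
  M1 : 1 ≤ M
  P1 : 1 ≤ P
  e0 : 0 ≤ ε
  vol : 100 * R * r ≤ n
  rad : ∀ c ∈ Vp 𝒜 D, DependsOn (lt 𝒜 c) {l | ∀ i, |l.1 i| ≤ r}
  g0 : 0 ∈ Γ
  gg : ∀ g, ∀ x ∈ Γ, gv g x ∈ Γ
  gp : ∀ x ∈ Γ, ∀ v : Z4, x + (r : ℤ) • v ∈ Γ
  gs : ∀ x : Fin m → Z4, ∃ w, ∀ a, x a + w ∈ Γ
  fil : ∀ x ∈ Γ, ∀ d ≤ D, MapsTo (N x) (Vp 𝒜 d) (Vp 𝒜 d)
  per : ∀ x v : Z4, N (x + (r : ℤ) • v) = N x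
  h1 : ∀ x ∈ Γ, ∀ e ∈ Vp 𝒜 D, Hs x (N x e) (M * ‖e‖)
  h2 : ∀ x ∈ Γ, ∀ c ∈ Vp 𝒜 D, ∃ y, Hs x c y
  h3 : ∀ x c y y', Hs x c y → y ≤ y' → Hs x c y'
  oa : ∀ k ≤ m, ∀ (x : Fin k → Z4) (e : Fin k → V0 𝒜) (y : Fin k → ℝ),
    (∀ a, x a ∈ Γ ∧ e a ∈ Vp 𝒜 D ∧ 0 ≤ y a ∧ ∀ g, Hs (gv g (x a)) (rB 𝒜 g (N (x a) (e a))) (y a)) →
    (∀ a a', a ≠ a' → Ds (M * r) (R * r) (x a) (x a')) →
    |cm h b n (fun a => N (x a) (e a)) x - fq r e x| ≤ ε * ∏ a, (‖e a‖ + y a)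
  ps : ∀ g, ∀ q ∈ S, pa g q ∈ S
  pv : ∀ g x q z, ∀ c ∈ Vp 𝒜 D, cp (gv g x) (pa g q) (gv g z) (rB 𝒜 g c) = cp x q z c
  p1 : ∀ x ∈ Γ, ∀ q ∈ S, ∀ z : Z4, Ds (P * r) (2 * P * r) x ((r : ℤ) • z) → ∀ e ∈ Vp 𝒜 D, ∀ y,
    0 ≤ y → (∀ g, Hs (gv g x) (rB 𝒜 g (N x e)) y) →
      |cp x q z (N x e) - sg x q z e| ≤ ε * (‖e‖ + y)
  p2 : ∀ g, ∀ x ∈ Γ, ∀ q ∈ S, ∀ z : Z4, Ds (P * r) (2 * P * r) x ((r : ℤ) • z) → ∀ e ∈ Vp 𝒜 D,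
    |sg (gv g x) (pa g q) (gv g z) (rB 𝒜 g e) - sg x q z e| ≤ ε * ‖e‖
  p3 : ∀ x ∈ Γ, ∀ z : Z4, Ds (P * r) (2 * P * r) x ((r : ℤ) • z) → ∀ e ∈ Vp 𝒜 D, ∀ y, 0 ≤ y →
    (∀ q ∈ S, |sg x q z e| ≤ y) → ‖e‖ ≤ M * y

/-- an equivariant chart for pairs at the block centres -/
structure Ce (D r : ℕ) (M R ε : ℝ) (N : V0 𝒜 →ₗ[ℝ] V0 𝒜) : Prop where
  r0 : 0 < r
  e0 : 0 ≤ ε
  bij : ∀ d ≤ D, BijOn N (Vp 𝒜 d) (Vp 𝒜 d)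
  eqv : ∀ g c, N (rB 𝒜 g c) = rB 𝒜 g (N c)
  o0 : ∀ (z : Fin 2 → Z4) (e : Fin 2 → V0 𝒜), (∀ a, e a ∈ Vp 𝒜 D) → Ds M R (z 0) (z 1) →
    |cm h b n (fun a => N (e a)) (fun a => (r : ℤ) • z a) - fq 1 e z| ≤ ε * ∏ a, ‖e a‖

variable (𝒜) in
/-- the sign of a chart on the Lagrangian -/
def Sg (δ : ℝ) (N : V0 𝒜 →ₗ[ℝ] V0 𝒜) : Prop :=
  ∀ e ∈ Vp 𝒜 4, ‖e - Zg.l0 𝒜‖ ≤ δ → ∀ μ : ℝ, N e = μ • Zg.l0 𝒜 → 0 < μ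

end Pool.Agent.Lib.MP_7f377f_mp.Kz

namespace Pool.Agent.Lib.MP_7f377f_mp.RG.Q4.En.Gl

open MeasureTheory Filter Topology Set YM7 L6 RG.Tl Wy Kz
open RG.Wd (B4 gv)
open Wu (Z4)
open Zg (V0 Og r0 fil)

variable (G : Gl) (𝒜 : Set CM) [Og 𝒜] (β : ℕ × ℕ → ℝ)

instance : (Fi.tr haar).IsHaarMeasure := (inferInstance : haar.IsHaarMeasure)

/-- the sites whose tracks are good between the levels `k` and `J` -/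
def Gs (J k : ℕ) : Set Z4 := {x | G.Dg G.dm (G.tk x J) k J}

/-- the letter of the label `c` at the site `x` has, modulo null letters, a symbol of size at most
`y` at the level `k` -/
def Os (s C d : ℕ) (b : ℝ) (J k : ℕ) (x : Z4) (c : V0 𝒜) (y : ℝ) : Prop :=
  ∃ t : Tl.Bd 𝒜 d → ℝ,
    ∑ q : Vd 𝒜 d, (t (.inl q) / G.ka (s + 1) C J ^ Tl.Bd.dg (.inl q : Tl.Bd 𝒜 d)) • q.1.c = c ∧
    ‖G.ys Jt.wt d (s + 1) C (G.tk x J) b J 0 (G.sek s b J) (G.fl (s + 1) C J Tl.Bd.dg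
      (fun q : Tl.Bd 𝒜 d => Tl.lq (q.P (lE 𝒜))) fun q => t q) k‖ ≤ y

/-- the input from the renormalisation group -/
def Charts : Prop := ∀ s ≥ (2 : ℕ), ∀ᶠ C in atTop, ∀ m ≥ 2, ∃ c : ℕ, ∀ N W : ℕ, ∃ c₁ : ℕ,
  ∀ᶠ k in atTop, ∀ᶠ p in fast, ∃ (M : Z4 → V0 𝒜 →ₗ[ℝ] V0 𝒜) (Hs : _) (Pr : Type) (pa : B4 → Pr → Pr)
    (S : _) (cp sg : _) (P : ℝ), Kz.Cz (Fi.tr haar) (β p) (G.nn p) s m (G.rt p.2 k) (G.L k ^ c)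
      (G.L k ^ W) P (G.L k ^ N)⁻¹ (G.Gs p.2 k) M Hs pa S cp sg ∧ (∀ x ∈ G.Gs p.2 k, ∀ d ≤ s,
        ∀ e ∈ Vp 𝒜 d, (G.wm p.1).Os 𝒜 s C d (β p) p.2 k x (M x e) (G.L k ^ c₁ * ‖e‖)) ∧
      (4 ≤ s → 9 * c + 9 ≤ N → Kz.Sg 𝒜 (G.L k)⁻¹ (Kz.av (rB 𝒜) (M 0)))

open Classical in
/-- the level of the scale `t` -/
def kt (t : ℝ) : ℕ := if e : ∃ k, G.aa (0, k) ≤ t then Nat.find e else 0

/-- the lattice fields -/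
def Oz (N : ℕ × ℕ → V0 𝒜 →ₗ[ℝ] V0 𝒜) (p : ℕ × ℕ) : V0 𝒜 →ₗ[ℝ] Fz → ℝ :=
  oc (Fi.tr haar) (β p) (G.nn p) ∘ₗ N p

/-- normalised fields -/
structure Nz (U : Ultrafilter (ℕ × ℕ)) (N : ℕ × ℕ → V0 𝒜 →ₗ[ℝ] V0 𝒜) (A : ℝ → V0 𝒜 ≃ₗ[ℝ] V0 𝒜) :
    Prop where
  up : ∀ t, (fil 𝒜).Up 0 (A t) ∧ (fil 𝒜).Up 0 (A t).symm
  cm : ∀ t g c, A t (rB 𝒜 g c) = rB 𝒜 g (A t c)
  c0 : ∀ t c, A t ((fil 𝒜).π 0 c) = (fil 𝒜).π 0 (A t c)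
  fil : ∀ p, (fil 𝒜).Up 0 (N p)
  bij : ∀ D, ∀ᶠ p in fast, BijOn (N p) (Vp 𝒜 D) (Vp 𝒜 D) ∧ N p (Zg.u0 𝒜) = Zg.u0 𝒜 ∧
    ∀ g, ∀ c ∈ (Zg.fil 𝒜).F D, N p (rB 𝒜 g c) = rB 𝒜 g (N p c)
  pos : ∀ᶠ t in 𝓝[>] (0 : ℝ), ∀ᶠ p in (U : Filter (ℕ × ℕ)), ∀ μ : ℝ,
    N p (A t (Zg.l0 𝒜)) = μ • Zg.l0 𝒜 → 0 < μ
  own : ∀ s ≥ 2, ∀ᶠ C in atTop, ∀ᶠ k in atTop, ∃ K, ∀ᶠ p in fast, ∀ x ∈ G.Gs p.2 k, ∀ d ≤ s,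
    ∀ c ∈ Vp 𝒜 d, (G.wm p.1).Os 𝒜 s C d (β p) p.2 k x (N p c) (K * ‖c‖)
  owt : ∀ s ≥ 2, ∀ᶠ C in atTop, ∀ w, ∃ c₁ : ℕ, ∀ n, ∀ᶠ t in 𝓝[>] (0 : ℝ), ∀ᶠ p in (U : Filter (ℕ × ℕ)),
    ∀ k, G.kt t ≤ k + n → k ≤ G.kt t + w → ∀ x ∈ G.Gs p.2 k, ∀ d ≤ s, ∀ c ∈ Vp 𝒜 d,
      (G.wm p.1).Os 𝒜 s C d (β p) p.2 k x (N p (A t c))
        (G.L (G.kt t) ^ c₁ / t ^ 4 * ‖Kz.rs 𝒜 (t / G.aa (0, k)) c‖)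
  ax : ∀ (D m n M : ℕ), ∀ κ ≥ (1 : ℝ), ∀ δ > (0 : ℝ), ∀ᶠ t in 𝓝[>] (0 : ℝ),
    ∀ᶠ p in (U : Filter (ℕ × ℕ)), ∃ T : Z4 → V0 𝒜 →ₗ[ℝ] V0 𝒜, (∀ x v : Z4, T (x + (G.rt p.2 (G.kt t) : ℤ) • v) = T x) ∧
      (∀ x ∈ G.Gs p.2 (G.kt t), T x (Zg.u0 𝒜) = Zg.u0 𝒜 ∧
        (∀ d ≤ D, BijOn (T x) (Vp 𝒜 d) (Vp 𝒜 d)) ∧ ∀ σ ∈ Icc (1 : ℝ) (G.L (G.kt t) ^ n),
          Kz.Nr (Vp 𝒜 D) (T x ∘ₗ Kz.rs 𝒜 σ) (Kz.rs 𝒜 σ) .id δ ∧ Kz.Nr (Vp 𝒜 D) (Kz.rs 𝒜 σ) (T x ∘ₗ Kz.rs 𝒜 σ) .id δ) ∧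
      ∀ k ≤ m, ∀ (x : Fin k → Z4) (e : Fin k → V0 𝒜),
        (∀ a, x a ∈ G.Gs p.2 (G.kt t) ∧ e a ∈ (Zg.fil 𝒜).F D) →
        (∀ a a', a ≠ a' → Kz.Ds (t / κ / G.aa p) (G.L (G.kt t) ^ n * t / G.aa p) (x a) (x a')) →
        |t ^ (4 * k) * Wy.er (Fi.tr haar) (β p) (G.nn p)
          (MP_7f377f_mp.Wx.cl (G.Oz 𝒜 β N p) (fun a => A t (T (x a) (e a))) x) - Kz.fq (t / G.aa p) e x| ≤
            (G.L (G.kt t) ^ M : ℝ)⁻¹ * ∏ a, ‖e a‖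

end Pool.Agent.Lib.MP_7f377f_mp.RG.Q4.En.Gl
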