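import Pool.Agent.Lib.MP_7f377f_mp.G.KzS
import Pool.Agent.Lib.MP_7f377f_mp.G.KzB

/-! Comparison of two charts by positivity. -/

noncomputable section

set_option linter.unusedSectionVars false
variable [Pool.Agent.Lib.MP_7f377f_mp.GD]

namespace Pool.Agent.Lib.MP_7f377f_mp.Kz

open MeasureTheory Filter Set YM7 L6 RG RG.Tl RG.Q4 RG.Q4.En Wy
open RG.Wd (B4 gv)
open Wu (Z4)
open Zg (V0 Og r0 fil)

variable {𝒜 : Set CM} [Og 𝒜] {ι : Type} [Fintype ι] [MeasurableSpace SU2] [BorelSpace SU2]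
  {h : Measure SU2} [h.IsHaarMeasure] [IsProbabilityMeasure h] {b : ℝ} {n : ℕ} [NeZero n]
  {D : ℕ} {c : V0 𝒜}

theorem Ce.pair {r M R ε N} (H : Ce (𝒜 := 𝒜) h b n D r M R ε N) {z : ℕ} (z0 : 0 < z)
    (a : M ≤ 2 * z) (a' : 2 * z ≤ R) (k : c ∈ Vp 𝒜 D) :
    |cm h b n ![rB 𝒜 (Wd.rf 0) (N (rs 𝒜 z c)), N (rs 𝒜 z c)] ![Pi.single 0 (2 * (z * r : ℕ)), 0] -
      Zg.b2 𝒜 ![(2 : ℝ) • Zf.ee 0, 0] (Zg.r0 𝒜 (Pur.rfL 0) c) c| ≤ (z : ℝ) ^ (2 * D) * ε * ‖c‖ ^ 2 := by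
  have := H.o0 ![Pi.single 0 (2 * z), 0] (fun i => rs 𝒜 z (![rB 𝒜 (Wd.rf 0) c, c] i))
    (Fin.forall_fin_two.2 ⟨rv_vp _ _ (rB_vp _ _ k), rv_vp _ _ k⟩) ⟨⟨0, by simpa using a⟩, fun l => by
      by_cases e : l = 0
      · simpa [e] using a'
      · simpa [e] using le_trans (by positivity) a'⟩
  have e1 : (fun a => N (rs 𝒜 z (![rB 𝒜 (Wd.rf 0) c, c] a))) =
      ![rB 𝒜 (Wd.rf 0) (N (rs 𝒜 z c)), N (rs 𝒜 z c)] :=
    funext (Fin.forall_fin_two.2 ⟨by simp [rs_rB, H.eqv], rfl⟩)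
  have e2 : (fun a => (r : ℤ) • (![Pi.single 0 (2 * z), 0] : Fin 2 → Z4) a) =
      ![Pi.single 0 (2 * (z * r : ℕ)), 0] := funext (Fin.forall_fin_two.2
    ⟨by simp [← Pi.single_smul, mul_comm, mul_left_comm, mul_assoc], by simp⟩)
  have e3 : (fun a => pz ((z : ℝ) * 1)⁻¹ ((![Pi.single 0 (2 * z), 0] : Fin 2 → Z4) a)) =
      ![(2 : ℝ) • Zf.ee 0, 0] := funext (Fin.forall_fin_two.2 ⟨by
    ext l
    by_cases e : l = 0 <;> simp [pz, Zf.ee, e]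
    field_simp, by ext; simp [pz]⟩)
  rw [fq_rs (by positivity), Fin.prod_univ_two, e1, e2, fq, e3, ← Zg.b2_fp] at this
  refine gI_rf 0 ▸ this.trans ?_
  simp only [Matrix.cons_val_zero, Matrix.cons_val_one, rs_rB]
  rw [rB_norm, mul_comm _ ε, mul_assoc, ← sq, pow_mul', ← mul_pow]
  exact mul_le_mul_of_nonneg_left (pow_le_pow_left₀ (norm_nonneg _)
    (rs_le (by exact_mod_cast z0) k.1).2 _) H.e0

variable (𝒜 h) in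
theorem Ce.tr (D D' : ℕ) : ∃ K ≥ (1 : ℝ), ∀ {b : ℝ} {n : ℕ} [NeZero n]
    {r r' M M' R R' ε ε' N N'},
    Ce (𝒜 := 𝒜) h b n D r M R ε N → Ce h b n D' r' M' R' ε' N' → ∀ z z' : ℕ, 0 < z → z * r = z' * r' →
    M ≤ 2 * z → 2 * z ≤ R → M' ≤ 2 * z' → 2 * z' ≤ R' → K * (z : ℝ) ^ (2 * D) * ε ≤ 1 →
    K * (z' : ℝ) ^ (2 * D') * ε' ≤ 1 → ∀ d ≤ D, d ≤ D' →
      Nr (Vp 𝒜 d) (N ∘ₗ rs 𝒜 z) (N' ∘ₗ rs 𝒜 z') 0 K := by
  obtain ⟨m, m0, p⟩ := Zg.pd (𝒜 := 𝒜) D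
  obtain ⟨C, C0, q⟩ := Zg.fp_ub (𝒜 := 𝒜) (ι := Fin 2) D one_pos
  have n2 : ‖(2 : ℝ) • Zf.ee 0‖ = 2 := by simp [norm_smul, Zf.ee]
  replace p := p _ _ (Zg.rf_rfL 0 two_ne_zero) (norm_ne_zero_iff.1 (by simp [n2]))
  generalize hm : m * min 1 (‖(2 : ℝ) • Zf.ee 0‖ ^ 2)⁻¹ ^ D = μ at p
  have μ0 : 0 < μ := by rw [← hm, n2]; positivity
  have s0 := Real.sqrt_nonneg ((C + 1) / (μ / 2))
  have i0 : 0 < 2 / μ := by positivity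
  refine ⟨1 + 2 / μ + √((C + 1) / (μ / 2)), by linarith,
    fun {b n _ r r' M M' R R' ε ε' N N'} H H' z z' z0 e a1 a2 a3 a4 k k' d d1 d2 => ?_⟩
  have z1 : 0 < z' := Nat.pos_of_mul_pos_right (e ▸ mul_pos z0 H.r0)
  have w {x : ℝ} (x0 : 0 ≤ x) (k : (1 + 2 / μ + √((C + 1) / (μ / 2))) * x ≤ 1) : x ≤ μ / 2 ∧ x ≤ 1 :=
    ⟨by rw [← inv_div, ← one_div, le_div_iff₀' i0]; nlinarith, by nlinarith⟩
  refine Nr.mono (nr_pair (C := C + 1) (G := fun c => cm h b n ![rB 𝒜 (Wd.rf 0) c, c] 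
    ![Pi.single 0 (2 * (z * r : ℕ)), 0]) (half_pos μ0) ((H.bij d d1).comp (rs_Vp (by positivity) d)).2.2
    ((H'.bij d d2).1.comp (rs_Vp (t := z') (by positivity) d).1) (fun c hc => ?_) fun c hc => ?_) (by linarith)
  · have := mul_le_mul_of_nonneg_right (w (by have := H.e0; positivity) (mul_assoc _ _ ε ▸ k)).1
      (sq_nonneg ‖c‖)
    have := p c (vp_mono d1 hc).1
    have := (abs_le.1 (H.pair z0 a1 a2 (vp_mono d1 hc))).1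
    rw [LinearMap.comp_apply]
    linarith
  · have := mul_le_mul_of_nonneg_right (w (by have := H'.e0; positivity) (mul_assoc _ _ ε' ▸ k')).2
      (sq_nonneg ‖c‖)
    have u := q ![Zg.r0 𝒜 (Pur.rfL 0) c, c] ![(2 : ℝ) • Zf.ee 0, 0] (Fin.forall_fin_two.2
      ⟨(r0_vp _ _ (vp_mono d1 hc)).1, (vp_mono d1 hc).1⟩) (by simp [Zg.Sep, n2])
    rw [← Zg.b2_fp, Fin.prod_univ_two] at u
    simp only [Matrix.cons_val_zero, Matrix.cons_val_one, Zg.norm_r0, ← sq] at u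
    have := (abs_le.1 (H'.pair z1 a3 a4 (vp_mono d2 hc))).2
    rw [e, LinearMap.comp_apply]
    linarith [(abs_le.1 u).2]

end Pool.Agent.Lib.MP_7f377f_mp.Kz
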