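import Pool.Agent.Lib.MP_7f377f_mp.G.JsT
import Pool.Agent.Lib.MP_7f377f_mp.G.JvI
import Pool.Agent.Lib.MP_7f377f_mp.G.StQ

/-! Cut off letters inserted at any level of a run; frames of tagged states. -/

noncomputable section

set_option linter.unusedSectionVars false
variable [Pool.Agent.Lib.MP_7f377f_mp.GD]

namespace Pool.Agent.Lib.MP_7f377f_mp.RG.Q4.En

open Finset Real Cok Filter Tl MvPolynomial Ju Mg
open scoped Classical

attribute [local irreducible] box lbox tb tau rc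

/-- the cut off for letters of range `R` -/
def cuf (R : ℕ) (ε : ℝ) (U : Conf) : ℂ := if Q4.Fl (R + 2) ε U then 1 else 0

section

variable {R : ℕ} {ε : ℝ} {U U' : Conf}

theorem cuf_meas (R : ℕ) (ε : ℝ) : Measurable (cuf R ε) :=
  .ite (Mx.meas_Fl _ _) measurable_const measurable_const

theorem cuf_gi (u : St → S3) (U : Conf) : cuf R ε (gauge Inv.inv u U) = cuf R ε U :=
  if_congr (by simp only [Q4.Fl, Mx.fq_gauge]) rfl rfl

theorem cuf_loc (e : Agr (R + 2) U U') : cuf R ε U = cuf R ε U' := by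
  rw [cuf, cuf, Mx.Fl_agr e]

theorem cuf_pb (g : Wd.B4) (U : Conf) : cuf R ε (Wd.pb Inv.inv g U) = cuf R ε U :=
  Wd.B4_ind (P := fun g => ∀ U, cuf R ε (Wd.pb Inv.inv g U) = cuf R ε U)
    (fun σ U => if_congr (Mx.Fl_pm σ _ _ U) rfl rfl)
    (fun i U => (congrArg _ (Wd.cf_pb (.inr i) U)).symm.trans
      (if_congr (Mx.Fl_rfl i _ _ U) rfl rfl))
    (fun g k a b U => by rw [Wd.pb_mul inv_inv, b, a]) g U

theorem cuf_one (h : Fq (R + 2) ε U) : cuf R ε U = 1 := if_pos fun x μ ν a _ => h x a μ ν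

theorem cuf_cases (R : ℕ) (ε : ℝ) (U : Conf) :
    cuf R ε U = 0 ∨ cuf R ε U = 1 ∧ Fq (R + 1) ε U := by
  by_cases h : Q4.Fl (R + 2) ε U
  · refine .inr ⟨if_pos h, fun x hx μ ν => ?_⟩
    by_cases e : μ = ν
    · subst e
      refine (?_ : fq U x μ μ = fq U 0 μ μ).trans_le (h 0 μ μ (zero_mem_box _)
        (add_un_mem_box (add_un_mem_box (box_mono (Nat.zero_le R) (zero_mem_box _)) _) _))
      simp [fq, hol]
    · refine h x μ ν (box_mono (by omega) hx) (mem_box.2 fun i => ?_)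
      have := mem_box.1 hx i
      simp only [Pi.add_apply, un, Pi.single_apply]
      split_ifs <;> omega
  · exact .inl (if_neg h)

end

variable {α β : Type} [Fintype α] [DecidableEq α] [Fintype β]

namespace Gl

variable (G : Gl)

/-- minus the cut off letter `Y` at the site `c` of the level `i` -/
def qh (R i : ℕ) (c : St) : Lq →ₗ[ℂ] St → Conf → ℂ where
  toFun Y y U := -(dt (G.N i) c y *
    (cuf R (G.p i).ε (sh y (pc (G.N i) U)) * Y.1 (sh y (pc (G.N i) U))))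
  map_add' X Y := by ext y U; simp only [Prod.fst_add, Pi.add_apply]; ring
  map_smul' t X := by
    ext y U; simp only [Prod.smul_fst, Pi.smul_apply, smul_eq_mul, RingHom.id_apply]; ring

/-- its local term -/
def ql (D i : ℕ) (c : St) (Y : Lq) : Lx :=
  ptL (G.N i) c (ccn (G.p i) (opT (G.lR i) (60 * (G.p i).ρ) (2 * G.lH D i) Y.2))

/-- its tagged state over the activities `K` -/
def qt (D R i : ℕ) (c : St) (K : Ac) : Lq →ₗ[ℂ] Jv where
  toFun X := (0, 0, opT (G.lR i) (60 * (G.p i).ρ) (2 * G.lH D i) X.2,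
    i1 (G.p i) (G.N i) K (G.qh R i c X))
  map_add' X Y := by
    refine Prod.ext (by simp) (Prod.ext (by simp) (Prod.ext (funext fun B => ?_) ?_))
    · simp only [Prod.snd_add, Prod.fst_add, Pi.add_apply, opT]
      split_ifs <;> simp
    · simp only [map_add, Prod.snd_add]
  map_smul' t X := by
    refine Prod.ext (by simp) (Prod.ext (by simp) (Prod.ext (funext fun B => ?_) ?_))
    · simp only [Prod.smul_snd, Prod.smul_fst, Pi.smul_apply, opT, RingHom.id_apply]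
      split_ifs <;> simp
    · simp only [map_smul, Prod.smul_snd, RingHom.id_apply]

/-- activities over which letters are inserted -/
def Kb (D i : ℕ) (K : Ac) : Prop := ∃ m θ, 0 < θ ∧ KM (G.p i) (G.N i) m K ∧
  kN (G.pA (D + 7) i).up (G.N i) m θ ∧ G.jW D i * G.QA (D + 7) i ^ 340 * θ ≤ 1

/-- the cocycle of the step `S` on the tagged states -/
abbrev Cx (w : α → ℕ) (d D C : ℕ) (c : ℕ → St) (J j : ℕ) (p : ℕ → (α → ℝ) →ₗ[ℝ] V)
    (l : ℕ → V →ₗ[ℝ] α → ℝ) (U U' : ℕ → Module.End ℝ (α → ℝ)) (S : ℕ → Jv → Jv) (i : ℕ) : Prop :=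
  Co j i (G.zP w d D C c J j p l U) (G.zq w d D C J j p) S (G.jA w d D C U') (W0 w d)
    (fun k => G.Yr d C k * (G.L k : ℝ) ^ d) (fun k => G.Yr d C k / (G.L k : ℝ) ^ (d + 1))
    fun k => G.Yr d C k / (G.L k : ℝ) ^ (D + 2)

/-- a frame of tagged states at the level `i` for the step `S` -/
structure Fx (w : α → ℕ) (d D C : ℕ) (M : ℝ) (c : ℕ → St) (b : ℝ) (J j : ℕ) (ω : ℕ → ℝ)
    (p : ℕ → (α → ℝ) →ₗ[ℝ] V) (l : ℕ → V →ₗ[ℝ] α → ℝ) (U U' : ℕ → Module.End ℝ (α → ℝ))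
    (S : ℕ → Jv → Jv) (i : ℕ) (τ : β → Jv) : Prop where
  T : G.Tk w d D C M c b J j ω p l U U'
  iJ : i ≤ J
  fm : Cok.Fm j i (G.zP w d D C c J j p l U) (G.zq w d D C J j p) S (G.jA w d D C U') (W0 w d)
    (fun k => G.Yr d C k * (G.L k : ℝ) ^ d) (fun k => G.Yr d C k / (G.L k : ℝ) ^ (d + 1))
    (fun k => G.Yr d C k / (G.L k : ℝ) ^ (D + 2)) τ M

variable {G} {w : α → ℕ} {b M δ K x y θ : ℝ} {d D C J j k i o q R m A : ℕ} {c c' v : ℕ → St}
  {ω : ℕ → ℝ} {p : ℕ → (α → ℝ) →ₗ[ℝ] V} {l : ℕ → V →ₗ[ℝ] α → ℝ}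
  {U U' : ℕ → Module.End ℝ (α → ℝ)} {n : β → ℕ} {X : β → Lq} {e : β → Cp α} {Y : Lq}
  {σ : Fld → ℂ} {u : Jv} {s : St} {H : Ac} {κ : Mj} {S : ℕ → Jv → Jv} {τ : β → Jv}

theorem Fk.fx (F : G.Fk w d D C M c b J j ω p l U U' R δ K n X) :
    G.Fx w d D C M c b J j ω p l U U' (G.jT D c b J) J
      fun a => ((G.ka D C J : ℂ) ^ n a)⁻¹ • G.tp D b J (c J) (X a) := ⟨F.T, le_rfl, F.fm⟩

theorem st_qt (t : β → ℂ) (k : ℕ) :
    st S (fun a => ((G.ka D C i : ℂ) ^ n a)⁻¹ • G.qt D R i s H (X a)) i k t =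
      Cok.fw S (G.qt D R i s H (G.fl D C i n X t)) i k := by
  simp only [st, fl, Fintype.linearCombination_apply, map_sum, map_smul]

theorem qh_off {z : St} (e : rc (G.N i) z ≠ rc (G.N i) s) :
    G.qh R i s Y z = 0 ∧ G.ql D i s Y z = 0 := by
  have : ¬ nearT (G.N i) 0 s z := fun a => e (nearT_zero.1 a).symm
  exact ⟨funext fun U => by simp [qh, dt, this], if_neg this⟩

namespace Ok

variable (h : G.Ok)
include h

/-- the inserted function -/
theorem qh_sum {W : Conf} (hW : Per (G.N i) W) : ∑ z ∈ box (G.N i / 2), G.qh R i s Y z W =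
    -(cuf R (G.p i).ε (sh s W) * Y.1 (sh s W)) := by
  have hn := h.N_odd i
  rw [sum_eq_single_of_mem _ (rc_mem hn s) fun z hz e =>
    congrFun (qh_off (D := 0) (by rwa [rc_eq hn hz])).1 W]
  change -(dt _ _ _ * _) = _
  rw [dt, if_pos (nearT_rc _ _), one_mul, pc_eq hW, Hj.sh_rc hW]

/-- translated insertions -/
theorem qt_jr {ψ : Lx} {s' z : St} (t : TCov (G.N i) ψ H) (e : s' + z = s) (Y : Lq) :
    Jr (G.N i) z (G.qt D R i s H Y) (G.qt D R i s' H Y) := by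
  have r : ∀ (φ : Fld → ℂ) (K K' : Ac),
      (∀ o ∈ lps (box (G.N i / 2)), K' o.1 o.2 = trA (G.N i) z K o.1 o.2) →
        Jr (G.N i) z (0, 0, φ, K) (0, 0, φ, K') := fun _ _ _ q => ⟨fun _ => rfl, fun _ => rfl, rfl, q⟩
  refine r _ _ _ fun o ho => (iP_tr (p := G.p i) (P := (· = 1)) (h := G.qh R i s Y)
    (h' := G.qh R i s' Y) (h.N_odd i) z (t z).2 (fun y _ V => ?_) ho).symm
  have q := per_sh' (Mx.per_pc (G.N i) V) (-z)
  change -(dt _ _ _ * _) = -(dt _ _ _ * _)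
  rw [pc_eq q, Hj.sh_rc q, SX.sh_sh, add_neg_cancel_right, ← e, dt, dt,
    if_congr (nearT_rc_right.trans (nearT_add_right z)) rfl rfl]

variable (J1 : G.Tj D R δ i) (a : Top R m δ K Y.1 Y.2 σ)
include J1

theorem qh_n : 10 ^ 10 * (R + 1 : ℝ) ^ 4 * (G.p i).ε ≤ 1 := by
  have g0 := h.g0 i
  have Q1 := h.Q1 i
  have : (R + 1 : ℝ) ≤ G.L i := by
    have := h.rn_le i
    have := J1.1
    unfold lR at this
    exact_mod_cast (by omega : R + 1 ≤ G.L i)
  rw [show (G.p i).ε = G.Q i ^ 2 * G.g i from rfl]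
  calc _ ≤ 10 ^ 10 * (G.L i : ℝ) ^ 4 * (G.D0 i : ℝ) ^ 0 * (G.Q i ^ 2 * G.g i) := by
        rw [pow_zero, mul_one]; gcongr
    _ ≤ G.Q i ^ 1998 * (G.Q i ^ 2 * G.g i) := by
        gcongr
        exact (h.nm i (by norm_num) (by norm_num) (by norm_num)).trans
          (le_self_pow₀ Q1 (by norm_num))
    _ ≤ 1 := by rw [← mul_assoc, ← pow_add]; exact h.Qg i

include a

theorem qh_bd (z : St) (W : Conf) : ‖G.qh R i s Y z W‖ ≤ K * (G.p i).ρ ^ m := by
  have r0 := h.ρ0 i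
  have K0 := a.nonneg
  obtain ⟨e0, e1, e2⟩ : (G.p i).Ok := (h.sl_all i (G.top0 0 0)).nu.p_ok.1
  have : (R : ℝ) ≤ (G.p i).R := by exact_mod_cast J1.1.trans (h.lR_le i)
  have e : (R + 1 : ℝ) * (G.p i).ε ≤ ((G.p i).R + 1) * (G.p i).ε := by gcongr
  change ‖-(dt _ _ _ * _)‖ ≤ _
  rw [norm_neg, norm_mul]
  refine (mul_le_of_le_one_left (norm_nonneg _) (by unfold dt; split_ifs <;> simp)).trans ?_
  rcases cuf_cases R (G.p i).ε (sh z (pc (G.N i) W)) with q | ⟨q, f⟩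
  · rw [q, zero_mul, norm_zero]; positivity
  rw [q, one_mul, a.lt.chart _ _ f (h.qh_n J1)]
  exact (a.nr _ _ ((JS.cv_of_sm (Bx_loc f (by push_cast; linarith)).1).mono le_rfl
    (by push_cast; nlinarith)) (by linarith [h.ρH D i, J1.2.1])).1

theorem qh_lt (m1 : 1 ≤ m) : Lt (G.p i) (G.N i) (G.qh R i s Y) (G.ql D i s Y) := by
  have l0 := h.lH0 D i
  have hp : (G.p i).Ok := (h.sl_all i (G.top0 0 0)).nu.p_ok.1
  have hR : R + 1 ≤ G.L i ∧ G.L i ≤ G.D0 i := by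
    have := h.rn_le i
    have := J1.1
    unfold lR at this
    omega
  have pR : (G.p i).R = 4 * G.D0 i := rfl
  have lf : ∀ y (f : Conf → ℂ), Measurable f → (∀ U U', Agr (R + 2) U U' → f U = f U') →
      (∀ u U, f (gauge Inv.inv u U) = f U) →
      Mg.LF (G.N i) (tb (G.N i) ((G.p i).R + 3) {y}) fun U => f (sh y (pc (G.N i) U)) :=
    fun y f f1 f2 f3 => ⟨(f1.comp (Ms.cont_sh y).measurable).comp (Cov.meas_pc _),
      fun U => by rw [pc_eq (Mx.per_pc _ U)], fun U U' e => f2 _ _ fun l hl => by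
        have m : ∀ z ∈ box ((G.p i).R + 3), rc (G.N i) (z + y) ∈ tb (G.N i) ((G.p i).R + 3) {y} :=
          fun z hz => mem_tb_single.2 ⟨rc_rc _ _, nearT_rc_right.2 (add_comm y z ▸ nearT_add hz)⟩
        have := mem_lbox.1 hl
        refine e (rc (G.N i) (l.1 + y), l.2) ⟨?_, ?_⟩
        · rw [rc_rc]; exact m _ (box_mono (by omega) this)
        · rw [rc_add_rc, add_right_comm]
          exact m _ (box_mono (by omega) (add_un_mem_box this _)),
      fun u U hu => by rw [Mx.pc_gauge (Mx.PS_iff.1 hu), Ms.sh_gauge, f3]⟩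
  refine ⟨fun y => lf y (fun W => -(dt (G.N i) s y * (cuf R (G.p i).ε W * Y.1 W)))
    (((cuf_meas _ _).mul a.lt.meas).const_mul _).neg (fun U U' e => by
      rw [cuf_loc e, a.lt.loc U U' fun l hl => e l (mem_lbox.2 (box_mono (by omega) (mem_lbox.1 hl)))])
    fun u U => by rw [cuf_gi, a.lt.gi], fun y U e => ?_⟩
  obtain ⟨-, -, c3⟩ := (h.top_cut J1 a).cut l0.le (h1 := 2 * G.lH D i) (by linarith) (by linarith)
  have z := (c3 0 (inT_zero (h.ρ60 i).le l0.le)).trans (top_zero a (by linarith [J1.2.1]) m1)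
  have v := Fq.cv' hp e
  have r := Bx_real y (pc (G.N i) U)
  have q := c3 _ (inT_real r (v.mono (h.lR_le i) (by linarith [hp.ρ0])) l0.le)
  have n := h.qh_n J1
  change -(dt _ _ _ * _) = _
  rw [cuf_one (e.mono (by omega) le_rfl), one_mul, a.lt.chart _ _ (e.mono (by omega) le_rfl) n,
    ← sh_cC, ← Bx_eq, ← q]
  simp only [ql, ptL, dt]
  split_ifs
  · rw [ccn, ctr_of r v, ctr_zero hp.ρ0.le, z, one_mul, sub_zero]
  · simp

theorem ql_pm : ∃ x y u, PM (G.p i) x y u (G.ql D i s Y) := by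
  have l0 := h.lH0 D i
  have r0 := h.ρ0 i
  obtain ⟨c1, c2, -⟩ := (h.top_cut J1 a).cut l0.le (h1 := 2 * G.lH D i) (by linarith) (by linarith)
  have t := ((tf_pt (n := G.N i) (c := s) (c1.mono (h.lR_le i) le_rfl (h' := (G.p i).ρ)
    (by linarith [h.ρH D i]) le_rfl) c2 (by linarith) r0.le).pm r0 le_rfl).1
  have e : G.ql D i s Y = fun x => ccn (G.p i)
      (ptL (G.N i) s (opT (G.lR i) (60 * (G.p i).ρ) (2 * G.lH D i) Y.2) x) := by
    funext z B
    simp only [ql, ptL]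
    split_ifs <;> simp [ccn, ctr, ctf]
  exact ⟨_, _, _, e ▸ t⟩

omit J1 a in
/-- the activity of an inserted function over any small base -/
theorem i1_gen (big : G.Big A k) (k1 : KM (G.p k) (G.N k) κ H) (k2 : kN (G.pA A k).up (G.N k) κ θ)
    (θ0 : 0 < θ) (θ1 : θ ≤ (G.QA A k ^ 329)⁻¹) {f : St → Conf → ℂ} {Ψ : Lx}
    (L : Lt (G.p k) (G.N k) f Ψ) (x0 : 0 < x) (bd : ∀ v U, ‖f v U‖ ≤ x)
    (hy : ∀ v, rc (G.N k) v ≠ s → f v = 0) :
    ∃ m, KM (G.p k) (G.N k) m (i1 (G.p k) (G.N k) H f) ∧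
      kN (G.pA A k) (G.N k) m (G.QA A k ^ 340 * θ * x) ∧
      ∀ X c, s ∉ X → i1 (G.p k) (G.N k) H f X c = 0 := by
  have q := h.QA0 A k
  have q1 := h.QA1 A k
  have hn := h.N_odd k
  have k3 := kN_kP (p := G.pA A k) (P := (· = 1)) (δ := 1 / 6) (h.psA A k) hn (h.RD k)
    (by norm_num) (kN_drop (δ := 1) k2 (by norm_num)) θ0 θ1 x0
    (h.vA A k x0.le (by norm_num)) (fun m u => ⟨by omega, .inr u⟩)
    (add_zero (G.pA A k).a ▸ h.smA A k (δ := 0) zero_le_two le_rfl :)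
  refine ⟨_, km_iP (P := (· = 1)) (sqrt_nonneg _) (by simp) k2.1 k1 L.lf bd, k3.mono ?_,
    fun X c hX => funext fun U => iP_off (p := G.p k) (P := (· = 1)) (K := H) (c := c) (U := U)
      hn (by simp) hy hX⟩
  rw [div_inv_eq_mul]
  calc _ = 36 * G.QA A k ^ 332 * (θ * x) := by ring
    _ ≤ G.QA A k ^ 8 * G.QA A k ^ 332 * (θ * x) := by
        gcongr
        exact le_trans (by linarith) (le_self_pow₀ (by linarith) (by norm_num))
    _ = _ := by ring

end Ok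

namespace Tk

variable (T : G.Tk w d D C M c b J j ω p l U U')
include T

theorem cx (hi : i ≤ J) : G.Cx w d D C c J j p l U U' (G.jT D c b J) i := T.co.sub le_rfl hi

variable (h1 : j ≤ i) (h2 : i ≤ J)
include h1 h2

theorem bp (x : α → ℝ) : Cv (G.lR i) (G.Xr C i * ‖x‖) (p i x) := by
  rcases h2.eq_or_lt with rfl | h
  · obtain ⟨k, rfl⟩ : ∃ k, i = k + 1 := ⟨i - 1, by have := T.hj; omega⟩
    exact ((T.ld k (Nat.lt_succ_iff.1 T.hj) k.lt_succ_self).bp x).mono le_rfl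
      (mul_le_mul_of_nonneg_right (T.ok.Xrm C k.le_succ) (norm_nonneg _))
  · exact (T.ld i h1 h).bp' x

variable (J1 : G.Tj D R δ i)
include J1

/-- the activities of the run are a base -/
theorem kb : G.Kb D i (G.zz b J i).K := by
  have h := T.ok
  have g0 := h.g0 i
  obtain ⟨m, m1, m2⟩ := h.baseK T.hp T.t (A := D + 7) i h2 fun k hk => (T.e k (h1.trans hk)).1.1
  refine ⟨m, _, by positivity, m1, m2, ?_⟩
  have a : G.QA (D + 7) i ^ 340 ≤ G.bb i := by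
    rw [QA, ← pow_mul]
    exact h.Lbk i (by have := (T.e i h1).1.1.1; omega)
  calc _ = G.jW D i * √(G.g i) * (G.QA (D + 7) i ^ 340 * G.g i ^ 2) := by ring
    _ ≤ 1 * (G.bb i * G.g i ^ 2) := by
        have := h.QA0 (D + 7) i
        gcongr
        exact J1.2.2.1
    _ = 1 := by rw [h.bg, mul_one]

section

variable (B : G.Kb D i H) (a : Top R m δ K Y.1 Y.2 σ) (K0 : 0 < K) (m1 : 1 ≤ m) (m2 : m ≤ d)
include B a K0 m1 m2

theorem qt_ent : G.jP D c (G.js w d D C J j p) (G.je w d D C J j l U) i (G.qt D R i (c i) H Y)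
    ((2 + G.Ga d C i ^ 2) * (K * (4 * G.lH D i) ^ m)) ∧
    ‖G.zq w d D C J j p i (G.qt D R i (c i) H Y)‖ ≤ G.Ga d C i * (K * (4 * G.lH D i) ^ m) ∧
    G.jp D c i (G.qt D R i (c i) H Y) =
      (G.ql D i (c i) Y, i1 (G.p i) (G.N i) H (G.qh R i (c i) Y)) := by
  have h := T.ok
  have l0 := h.lH0 D i
  have r0 := h.ρ0 i
  have q1 := h.QA1 (D + 7) i
  have W1 : 1 ≤ G.jW D i := one_le_pow₀ (by linarith [h.L1 i])
  obtain ⟨κ, θ, θ0, k1, k2, k3⟩ := B
  obtain ⟨c1, c2, c3⟩ := (h.top_cut J1 a).cut l0.le (h1 := 2 * G.lH D i) (by linarith) (by linarith)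
  have z := (c3 0 (inT_zero (h.ρ60 i).le l0.le)).trans (top_zero a (by linarith [J1.2.1]) m1)
  obtain ⟨μ, b1, b2, b3⟩ := h.i1_gen (T.e i h1).1.1 k1 k2 θ0 (by
      rw [← one_div, le_div_iff₀' (by positivity)]
      refine le_trans ?_ k3
      gcongr
      exact (pow_le_pow_right₀ (by linarith) (by norm_num)).trans
        (le_mul_of_one_le_left (by positivity) W1))
    (h.qh_lt (s := c i) J1 a m1) (by positivity) (h.qh_bd J1 a) fun _ e => (qh_off (D := D) e).1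
  have s := T.pt.s.s1 i
  have N1 := (T.pt.s.nl i).2.2.2
  obtain ⟨e1, e2⟩ := s.bd _ _ c1 z
  obtain ⟨p1, p2⟩ := T.pt.ent (k := i) ⟨_, c1⟩ ((c1.sub (s.ev _ e1)).mono le_rfl le_rfl le_rfl
    (show _ ≤ (1 + G.Ga d C i ^ 2) * (K * (4 * G.lH D i) ^ m) by
      nlinarith [mul_le_mul_of_nonneg_left e2 (by linarith : 0 ≤ G.Ga d C i)])) z c2 b1 b2
    fun X o e => b3 X o fun q => e _ q ((nearT_rc _ _).mono (Nat.zero_le _))
  refine ⟨T.pt.co.mono _ _ _ _ p1 ?_, e2, p2⟩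
  have : G.jW D i * (G.QA (D + 7) i ^ 340 * θ * (K * (G.p i).ρ ^ m)) ≤
      1 * (K * (4 * G.lH D i) ^ m) := by
    rw [← mul_assoc, ← mul_assoc (G.jW D i)]
    gcongr
    linarith [h.ρH D i]
  linarith

/-- inserted letters are tagged states -/
theorem qt_P (hK : K * (8 * cG) ^ d ≤ y * G.Xr C i ^ d) :
    G.zP w d D C c J j p l U i (G.qt D R i (c i) H Y) (y * G.ka D C i ^ m) ∧
      ‖G.zq w d D C J j p i (G.qt D R i (c i) H Y)‖ ≤ G.Yr d C i * (y * G.ka D C i ^ m) := by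
  obtain ⟨a1, a2, -⟩ := T.qt_ent h1 h2 J1 B a K0 m1 m2
  have h := T.ok
  have g := GD.cG1
  have x1 := h.Xr1 C i
  have x3 : 100 ≤ G.Xr C i := by linarith [(T.e i h1).2.1.1]
  have k0 := h.ka0 D C i
  have l0 := h.lH0 D i
  have y0 : 0 ≤ y := (mul_nonneg_iff_of_pos_right (by positivity)).1 (le_trans (by positivity) hK)
  have e : K * (4 * G.lH D i) ^ m ≤ G.Xr C i ^ (2 * d) * (y * G.ka D C i ^ m) := by
    rw [show 4 * G.lH D i = 8 * cG * G.Xr C i * G.ka D C i by rw [ka]; field_simp; ring,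
      mul_pow, mul_pow]
    calc _ ≤ K * ((8 * cG) ^ d * G.Xr C i ^ d * G.ka D C i ^ m) := by gcongr; linarith
      _ = K * (8 * cG) ^ d * G.Xr C i ^ d * G.ka D C i ^ m := by ring
      _ ≤ y * G.Xr C i ^ d * G.Xr C i ^ d * G.ka D C i ^ m := by gcongr
      _ = _ := by ring
  refine ⟨T.pt.co.mono _ _ _ _ a1 ?_, a2.trans ?_⟩
  · have : 2 + G.Ga d C i ^ 2 ≤ G.Xr C i ^ (18 * d + 13) := by
      have := one_le_pow₀ (n := 18 * d + 12) x1
      rw [Ga, ← pow_mul, show (9 * d + 6) * 2 = 18 * d + 12 by ring, pow_succ _ (18 * d + 12)]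
      nlinarith
    calc _ ≤ G.Xr C i ^ (18 * d + 13) * (G.Xr C i ^ (2 * d) * (y * G.ka D C i ^ m)) := by gcongr
      _ = _ := by unfold Zu; ring
  · calc _ ≤ G.Xr C i ^ (9 * d + 6) * (G.Xr C i ^ (2 * d) * (y * G.ka D C i ^ m)) := by
          unfold Ga; gcongr
      _ = G.Xr C i ^ (11 * d + 6) * (y * G.ka D C i ^ m) := by ring
      _ ≤ _ := mul_le_mul_of_nonneg_right (pow_le_pow_right₀ x1 (by omega)) (by positivity)

theorem qt_K : G.zP w d D C c J j p l U i (G.qt D R i (c i) H Y) (K * G.ka D C i ^ m) ∧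
    ‖G.zq w d D C J j p i (G.qt D R i (c i) H Y)‖ ≤ G.Yr d C i * (K * G.ka D C i ^ m) := by
  refine T.qt_P h1 h2 J1 B a K0 m1 m2 ?_
  have := GD.cG_pos
  gcongr
  linarith [(T.e i h1).2.1.1]

/-- the direction is the jet of the insertion -/
theorem qt_jp : G.jp D c i (G.qt D R i (c i) H Y) =
    (G.ql D i (c i) Y, i1 (G.p i) (G.N i) H (G.qh R i (c i) Y)) :=
  (T.qt_ent h1 h2 J1 B a K0 m1 m2).2.2

end

/-- the symbol of an inserted letter -/
theorem qt_sy {e : Cp α} (a : Lsy (p i) R m δ K Y e) :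
    ‖((G.ka D C i : ℂ) ^ m)⁻¹ • G.zq w d D C J j p i (G.qt D R i s H Y) - Sy.mk (wC w) d e‖ ≤
      2 ^ d * K * (cG * G.Xr C i) ^ m * G.lH D i := by
  obtain ⟨m1, hom, σ, H', hσ⟩ := a
  have H1 := H'.mono J1.1 le_rfl le_rfl
  have g := GD.cG1
  have K0 := H'.nonneg
  have h := T.ok
  have k0 := h.ka0 D C i
  have l0 := h.lH0 D i
  have x1 := h.Xr1 C i
  obtain ⟨κ, hκ⟩ : ∃ κ, κ = G.ka D C i := ⟨_, rfl⟩
  have k1 : 2 * (κ * G.Xr C i * cG) = G.lH D i := by rw [hκ, ka]; field_simp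
  rw [← hκ] at k0 ⊢
  have q0 : 0 < κ * G.Xr C i * cG := by positivity
  have hq : ∀ x, Cv (G.lR i) (κ * G.Xr C i * ‖x‖) ((κ • p i) x) := fun x => by
    simpa [abs_of_pos k0, mul_assoc] using La.Q.cv_smul' κ (T.bp h1 h2 x)
  have k2 := J1.2.1
  have F := (H1.tbw (ρ := κ * G.Xr C i * cG) (h := 2 * (κ * G.Xr C i * cG)) (by linarith)).hbl hq
    (by positivity) (by linarith) q0
  have es : ∀ x, emF (κ • p i) x = emF (p i) ((κ : ℂ) • x) := fun x => by
    rw [map_smul]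
    funext f i
    simp [emF, cz_ap, mul_add, mul_assoc]
  have ev : ∀ x, σ (emF (κ • p i) x) = MvPolynomial.eval x ((κ : ℂ) ^ m • e) := fun x => by
    rw [es, hσ, show (κ : ℂ) • x = dl 1 κ x from funext fun i => by simp [dl],
      eval_hom hom, smul_eval]
  have B := hb_nP ((κ : ℂ) ^ m • e)
  have N : Hb (K * (κ * G.Xr C i * cG) ^ (m + 1)) ((fun x => Y.2 (emF (κ • p i) x)) +
      (-1 : ℂ) • fun x => MvPolynomial.eval x ((κ : ℂ) ^ m • e)) :=
    ⟨(F.add (B.smul (-1))).hol, fun x hc => by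
      simpa [← ev, sub_eq_add_neg] using (H1.nr _ _ ((cv_emF hq (by positivity) x).mono le_rfl
        (by nlinarith [mul_le_mul_of_nonneg_left hc q0.le])) (by linarith)).2⟩
  have S := N.nP_sy (wC_ne T.hw) d
  rw [F.sy_add B (wC_ne T.hw), sy_eval] at S
  obtain ⟨c1, -, c3⟩ := (h.top_cut J1 H').cut l0.le (h1 := 2 * G.lH D i) (by linarith) (by linarith)
  have e1 := (T.pt.s.s1 i).congr c1 ((h.top_cut J1 H').mono le_rfl le_rfl (by linarith) le_rfl)
    (h.ρ60 i).le l0.le c3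
  have kc : (κ : ℂ) ^ m ≠ 0 := pow_ne_zero _ (Complex.ofReal_ne_zero.2 k0.ne')
  have e2 : ((κ : ℂ) ^ m)⁻¹ • G.zq w d D C J j p i (G.qt D R i s H Y) - Sy.mk (wC w) d e =
      ((κ : ℂ) ^ m)⁻¹ • (sgS w d (κ • p i) Y.2 + (-1 : ℂ) • Sy.mk (wC w) d ((κ : ℂ) ^ m • e)) := by
    rw [smul_add, map_smul, smul_comm _ (-1 : ℂ), inv_smul_smul₀ kc, neg_one_smul, sub_eq_add_neg]
    congr 2
    refine e1.trans ?_
    rw [js, if_pos ⟨h1, h2⟩, hκ]
  rw [e2, norm_smul, Sy.norm_eq, map_add, map_smul, val_sgS, Sy.val_mk, norm_inv, norm_pow,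
    Complex.norm_real, Real.norm_of_nonneg k0.le, inv_mul_le_iff₀ (by positivity)]
  refine S.trans_eq ?_
  rw [← k1]
  ring

end Tk

/-- frames of inserted letters -/
theorem fx_of (li : LinearIndependent ℂ fun b => Sy.mk (wC w) d (e b))
    (sp : Submodule.span ℂ (Set.range fun b => Sy.mk (wC w) d (e b)) = W0 w d) : ∃ M0 > (0 : ℝ),
    ∀ (G : Gl) D C M c b J j ω p l U U' i R δ K y (n : β → ℕ) (X : β → Lq) H S,
      G.Tk w d D C M c b J j ω p l U U' → j ≤ i → i ≤ J → G.Tj D R δ i → G.Kb D i H → 0 < K →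
      (∀ a, Lsy (p i) R (n a) δ K (X a) (e a) ∧ n a ≤ d) → K * (8 * cG) ^ d ≤ y * G.Xr C i ^ d →
      1 + M0 * y + M0 ≤ M → G.Cx w d D C c J j p l U U' S i →
      G.Fx w d D C M c b J j ω p l U U' S i
        (fun a => ((G.ka D C i : ℂ) ^ n a)⁻¹ • G.qt D R i (c i) H (X a)) ∧
      ∀ t : β → ℂ, ∑ a, ‖t a‖ ≤
        M * ‖G.zq w d D C J j p i (G.qt D R i (c i) H (G.fl D C i n X t))‖ := by
  obtain ⟨C₀, C0, hC⟩ := near_frame li sp
  refine ⟨C₀, C0, fun G D C M c b J j ω p l U U' i R δ K y n X H S T h1 h2 J1 B K0 top hK hM co => ?_⟩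
  have h := T.ok
  have g := GD.cG1
  have x1 := h.Xr1 C i
  have L1 := h.L1 i
  have g0 := h.g0 i
  have y0 : 0 < y := (mul_pos_iff_of_pos_right (by positivity)).1 (lt_of_lt_of_le (by positivity) hK)
  have lH : G.lH D i * G.L i ≤ 1 := by
    have a3 : G.jW D i * G.g i ≤ 1 := le_trans (mul_le_mul_of_nonneg_left
      (le_sqrt_of_sq_le (by nlinarith [h.g1 i])) (by unfold jW; positivity)) J1.2.2.1
    rw [h.lHe, mul_assoc, ← pow_succ, mul_comm]
    refine le_trans (mul_le_mul_of_nonneg_right (pow_le_pow_right₀ (by linarith) ?_) g0.le) a3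
    nlinarith [Nat.sub_le (G.aA D + 1) (7 * G.K)]
  have A : ∀ a, G.zP w d D C c J j p l U i
      (((G.ka D C i : ℂ) ^ n a)⁻¹ • G.qt D R i (c i) H (X a)) y ∧
      G.zq w d D C J j p i (((G.ka D C i : ℂ) ^ n a)⁻¹ • G.qt D R i (c i) H (X a)) =
        ((G.ka D C i : ℂ) ^ n a)⁻¹ • G.zq w d D C J j p i (G.qt D R i (c i) H (X a)) := fun a => by
    obtain ⟨⟨m1, -, σ, H', -⟩, m2⟩ := top a
    have k0 := h.ka0 D C i
    have := T.co.lin i _ _ _ _ ((G.ka D C i : ℂ) ^ n a)⁻¹ (T.co.zero i)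
      (T.qt_P h1 h2 J1 B H' K0 m1 m2 hK).1
    rwa [zero_add, T.co.q0, zero_add, zero_add, norm_inv, norm_pow, Complex.norm_real,
      Real.norm_of_nonneg k0.le, mul_comm y, inv_mul_cancel_left₀ (by positivity)] at this
  obtain ⟨s1, s2⟩ := hC (fun a => G.zq w d D C J j p i
    (((G.ka D C i : ℂ) ^ n a)⁻¹ • G.qt D R i (c i) H (X a))) fun a =>
      ⟨T.co.mem _ _ _ (A a).1, by
        rw [(A a).2]
        refine (T.qt_sy h1 h2 J1 (top a).1).trans ?_
        have l0 := h.lH0 D i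
        have b1 : C₀ * y * G.Xr C i ^ (2 * d) ≤ G.L i := by
          have := pow_le_pow_right₀ x1 (show 2 * d ≤ 60 * d + 40 by omega)
          have q : C₀ * y ≤ 200 * M := by linarith [T.M1]
          exact (mul_le_mul q this (by positivity) (by linarith [T.M1])).trans (T.MY h1)
        rw [← one_div, le_div_iff₀ C0]
        calc _ ≤ 8 ^ d * K * (cG * G.Xr C i) ^ d * G.lH D i * C₀ := by
              gcongr
              exacts [by norm_num, one_le_mul_of_one_le_of_one_le g x1, (top a).2]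
          _ = K * (8 * cG) ^ d * G.Xr C i ^ d * C₀ * G.lH D i := by simp only [mul_pow]; ring
          _ ≤ y * G.Xr C i ^ d * G.Xr C i ^ d * C₀ * G.lH D i := by gcongr
          _ = G.lH D i * (C₀ * y * G.Xr C i ^ (2 * d)) := by ring
          _ ≤ _ := (mul_le_mul_of_nonneg_left b1 l0.le).trans lH⟩
  have f := co.fm h1 (fun a => (A a).1) C0.le y0.le s1 s2 (by linarith) fun k a1 _ => T.num a1
  refine ⟨⟨T, h2, f⟩, fun t => (s1 t).trans ?_⟩
  have e := st_qt (G := G) (D := D) (C := C) (i := i) (n := n) (R := R) (s := c i) (H := H) (X := X)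
    (S := S) t i
  rw [st, Cok.fw_top, Cok.fw_top] at e
  rw [← f.q_top, e]
  gcongr
  linarith [mul_pos C0 y0]

/-- frames of cut off letters -/
theorem Fra.fx {p₀ : (α → ℝ) →ₗ[ℝ] V} (F : Fra w d p₀ R δ K n X e) : ∃ M0 : ℝ,
    ∀ (G : Gl) D C M c b J j ω p l U U' i H S, M0 ≤ M → G.Tk w d D C M c b J j ω p l U U' →
      j ≤ i → i ≤ J → p i = p₀ → G.Tj D R δ i → G.Kb D i H → G.Cx w d D C c J j p l U U' S i →
      G.Fx w d D C M c b J j ω p l U U' S i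
        (fun a => ((G.ka D C i : ℂ) ^ n a)⁻¹ • G.qt D R i (c i) H (X a)) ∧
      ∀ t : β → ℂ, ∑ a, ‖t a‖ ≤
        M * ‖G.zq w d D C J j p i (G.qt D R i (c i) H (G.fl D C i n X t))‖ := by
  obtain ⟨M0, -, hM⟩ := fx_of F.li F.sp
  refine ⟨1 + M0 * K + M0, fun G D C M c b J j ω p l U U' i H S e T h1 h2 hp J1 B co =>
    hM G D C M c b J j ω p l U U' i R δ K K n X H S T h1 h2 J1 B F.C0 (hp ▸ F.top) ?_ e co⟩
  have := F.C0
  have := GD.cG_pos
  gcongr
  linarith [(T.e i h1).2.1.1]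

namespace Fx

variable (F : G.Fx w d D C M c b J j ω p l U U' S i τ)
include F

theorem cone (t : β → ℂ) (h1 : j ≤ k) (h2 : k ≤ i) : G.zP w d D C c J j p l U k (st S τ i k t)
    (M * ‖G.zq w d D C J j p k (st S τ i k t)‖) := (F.fm.cone t h1 h2).2.1

/-- growth towards the top -/
theorem up (t : β → ℂ) (h1 : j ≤ k) (h2 : k ≤ q) (h3 : q ≤ i) :
    ‖G.zq w d D C J j p q (st S τ i q t)‖ ≤ G.Pw d C k q * (G.rt q k : ℝ) ^ d *
      ‖G.zq w d D C J j p k (st S τ i k t)‖ := by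
  refine (F.fm.up t h1 h2 h3).trans (mul_le_mul_of_nonneg_right ?_ (norm_nonneg _))
  rw [Pw, ← F.T.ok.rt_prod h2, ← prod_pow, ← prod_mul_distrib]
  refine prod_le_prod (fun n _ => ?_) fun n _ => ?_ <;> have := F.T.ok.Yr1 d C n
  · positivity
  · rw [← mul_assoc]; gcongr; norm_num

/-- growth towards the bottom -/
theorem dn (t : β → ℂ) (h1 : j ≤ k) (h2 : k ≤ q) (h3 : q ≤ i) :
    ‖G.zq w d D C J j p k (st S τ i k t)‖ ≤ G.Pw d C k q *
      ‖G.zq w d D C J j p q (st S τ i q t)‖ := by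
  have y := F.T.ok.Yr1 d C
  refine (F.fm.dn (a' := G.Yr d C) (fun n a1 a2 e _ => F.T.jA_le a1 (a2.trans_le F.iJ) e)
    (fun n => by linarith [y n]) t h1 h2 h3).trans (mul_le_mul_of_nonneg_right ?_ (norm_nonneg _))
  have M1 := F.T.M1
  refine prod_le_prod (fun n _ => ?_) fun n hn => ?_ <;> have := y n
  · positivity
  have L1 := F.T.ok.L1 n
  have a := F.T.MY (h1.trans (mem_Ico.1 hn).1)
  have : M * (G.Yr d C n / (G.L n : ℝ) ^ (D + 2)) ≤ 1 := by
    rw [← mul_div_assoc, div_le_one (by positivity)]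
    exact le_trans (by nlinarith) (le_self_pow₀ (by linarith) (by omega))
  linarith

/-- completeness for a state which enters at the level `q` -/
theorem cmp (h1 : j ≤ o) (h2 : o ≤ q) (h3 : q ≤ i) (x0 : 0 < x)
    (a : G.zP w d D C c J j p l U q u x) (hx : ‖G.zq w d D C J j p q u‖ ≤ x) : ∃ t : β → ℂ,
    G.zq w d D C J j p o (st S τ i o t) = G.zq w d D C J j p o (Cok.fw S u q o) ∧
      ‖G.zq w d D C J j p q (st S τ i q t)‖ ≤ 3 * x ∧ ∀ k, o ≤ k → k ≤ q →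
        G.zP w d D C c J j p l U k (Cok.fw S u q k - st S τ i k t)
          (8 * M * (G.Pw d C k q / (G.rt q k : ℝ) ^ (d + 1) * x)) ∧
        ‖G.zq w d D C J j p k (Cok.fw S u q k - st S τ i k t)‖ ≤
          2 * (G.Pw d C k q / (G.rt q k : ℝ) ^ (d + 1) * x) := by
  have y := F.T.ok.Yr1 d C
  have e : ∀ k ≤ q, ∏ n ∈ Ico k q, 4 * (G.Yr d C n / (G.L n : ℝ) ^ (d + 1)) =
      G.Pw d C k q / (G.rt q k : ℝ) ^ (d + 1) := fun k hk => by
    rw [Pw, ← F.T.ok.rt_prod hk, ← prod_pow, ← prod_div_distrib]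
    exact prod_congr rfl fun n _ => (mul_div_assoc _ _ _).symm
  obtain ⟨t, a1, a2, a3⟩ := F.fm.compl (w := fun n => 4 * (G.Yr d C n / (G.L n : ℝ) ^ (d + 1)))
    h1 h2 h3 (fun n => by have := y n; have := F.T.ok.L1 n; positivity)
    (fun n b1 _ => ⟨le_rfl, by linarith [(F.T.num (h1.trans b1)).1]⟩) x0 a hx
  exact ⟨t, a1, a2, fun k b1 b2 => e k b2 ▸ a3 k b1 b2⟩

end Fx

end Gl

end Pool.Agent.Lib.MP_7f377f_mp.RG.Q4.En
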