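import Pool.Agent.Lib.MP_7f377f_mp.G.SwD

/-! Scaling of the labels and the operator product expansion: definitions. -/

noncomputable section

namespace Pool.Agent.Lib.MP_7f377f_mp.Zo
variable [Pool.Agent.Lib.MP_7f377f_mp.GD]
set_option linter.unusedSectionVars false

open MeasureTheory Filter Topology Set YM7 Pur Wm Lm Wv S3 Matrix Sw Asymptotics
open Ro (Iso)

variable {V P : Type} [NormedAddCommGroup V] [NormedSpace ℝ V] [CommRing P] [Algebra ℂ P]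
  (Φ : Fil V) (x : V → (R4 → ℝ) → P) (W : P →ₗ[ℂ] ℂ) (ρ : Iso →* V →ₗ[ℝ] V)
  (A : ℝ → V ≃ₗ[ℝ] V) (S : Cor V)

/-- the correlation functions of the fields `x` -/
def cor : Cor V := fun _ c f => W (∏ i, x (c i) (f i))

/-- scale invariance of the free theory -/
structure Sc (sc : ℝ → V →ₗ[ℝ] V) : Prop where
  pi : ∀ d d' c, Φ.π d (Φ.π d' c) = if d = d' then Φ.π d c else 0
  eq : ∀ s > (0 : ℝ), ∀ d c, sc s (Φ.π d c) = s ^ ((d : ℤ) - 4) • Φ.π d c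
  inv : ∀ s > (0 : ℝ), ∀ k (c : Fin k → V) f, Adm f →
    S k (fun i => sc s (c i)) (fun i y => f i (s⁻¹ • y)) = S k c f

/-- bounds which are uniform in the scale -/
def Bdu : Prop := ∀ k (c : Fin k → V) (K : Fin k → Set R4), (∀ i, IsCompact (K i)) →
  (Pairwise fun i j => Disjoint (K i) (K j)) → ∃ C : ℝ, ∀ᶠ t : ℝ in 𝓝[>] 0,
    ∀ (g : Fin k → R4 → ℝ) (b : Fin k → ℝ), (∀ i, C1 (K i) (g i) ∧ ∀ y, |g i y| ≤ b i) →
      ‖cor x W k (fun i => A t (c i)) fun i y => g i (t⁻¹ • y)‖ ≤ C * ∏ i, b i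

/-- two fields at the scale `t` near `z` -/
def pp (u : Fin 2 → R4 → ℝ) (a : Fin 2 → V) (t : ℝ) {k : ℕ} (c : Fin k → V)
    (f : R4 → ℝ) (g : Fin k → R4 → ℝ) (z : R4) : ℂ :=
  f z * S (2 + k) (Fin.append a c) (Fin.append (fun i y => u i (t⁻¹ • (y - z))) g)

/-- the remainder of the expansion -/
def rm (u : Fin 2 → R4 → ℝ) (a : Fin 2 → V) (b : V) (t : ℝ) {k : ℕ} (c : Fin k → V)
    (f : R4 → ℝ) (g : Fin k → R4 → ℝ) : ℂ :=
  (∫ z, pp S u a t c f g z) - t ^ 4 * S (k + 1) (vecCons b c) (vecCons f g)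

/-- the product of the fields `a t 0`, `a t 1` is the field `b t` up to the order `t ^ p` -/
def Ex (u : Fin 2 → R4 → ℝ) (a : ℝ → Fin 2 → V) (b : ℝ → V) (p : ℝ) : Prop :=
  ∀ k (c : Fin k → V) f (g : Fin k → R4 → ℝ), Adm (vecCons f g) →
    (∀ᶠ t : ℝ in 𝓝[>] 0, Integrable (pp S u (a t) t c f g)) ∧
    (fun t : ℝ => rm S u (a t) (b t) t c f g) =O[𝓝[>] 0] fun t => t ^ p

/-- the operator product expansion of the free theory -/
def Fo (sc : ℝ → V →ₗ[ℝ] V) (a : Fin 2 → V) (u : Fin 2 → R4 → ℝ) (D : ℕ) (B : V) : Prop :=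
  B ∈ Φ.F D ∧ Ex S u (fun t i => sc t (a i)) (fun t => sc t B) (D + 1)

/-- the operator product expansion whose coefficients tend to those of the free theory -/
def Mu2 : Prop := ∀ (a : Fin 2 → V) u (D : ℕ), Adm u → ∃ δ > (0 : ℝ), ∃ (C : ℝ → V) (B : V),
  (∀ t, C t ∈ Φ.F D) ∧ Tendsto C (𝓝[>] 0) (𝓝 B) ∧ (∀ sc, Sc Φ S sc → Fo Φ S sc a u D B) ∧
  ∀ k (c : Fin k → V) f (g : Fin k → R4 → ℝ), Adm (vecCons f g) →
    (fun t : ℝ => rm (cor x W) u (fun i => A t (a i)) (A t (C t)) t c f g)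
      =O[𝓝[>] 0] fun t => t ^ (D + δ)

/-- the graded part `sc t ∘ M t` of `J⁻¹ ∘ A t` -/
structure Slow (sc : ℝ → V →ₗ[ℝ] V) (J : V ≃ₗ[ℝ] V) (M : ℝ → V ≃ₗ[ℝ] V) : Prop where
  gr : ∀ t d c, M t (Φ.π d c) = Φ.π d (M t c)
  comm : ∀ t R c, M t (ρ R c) = ρ R (M t c)
  lim : ∀ c, Tendsto (fun t => (A t).symm (J (sc t (M t c)))) (𝓝[>] 0) (𝓝 c)
  slow : ∀ ε > (0 : ℝ), ∀ c, Tendsto (fun t : ℝ => t ^ ε • M t c) (𝓝[>] 0) (𝓝 0) ∧
    Tendsto (fun t : ℝ => t ^ ε • (M t).symm c) (𝓝[>] 0) (𝓝 0)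

end Pool.Agent.Lib.MP_7f377f_mp.Zo
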