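import Pool.Agent.Lib.MP_7f377f_mp.G.ZgA
import Pool.Agent.Lib.MP_7f377f_mp.G.ZoD

/-! The space of real invariant labels modulo the null ideal. -/

noncomputable section

namespace Pool.Agent.Lib.MP_7f377f_mp.Zg
variable [Pool.Agent.Lib.MP_7f377f_mp.GD]
set_option linter.unusedSectionVars false

open MvPolynomial Filter Topology Set YM7 Pur Wm Wv Matrix Sw Zf
open Ro (Iso rot)

variable {d : ℕ}

/-- irreducible sets of orthogonal matrices -/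
class Og (𝒜 : Set (Matrix (Fin d) (Fin d) ℝ)) : Prop where
  orth : ∀ A ∈ 𝒜, A * Aᵀ = 1
  schur : ∀ M : Matrix (Fin d) (Fin d) ℝ, (∀ A ∈ 𝒜, Aᵀ * M * A = M) → ∃ c : ℝ, M = c • 1
  two : 2 ≤ d

variable (𝒜 : Set (Matrix (Fin d) (Fin d) ℝ))

/-- the labels -/
def V0 : Submodule ℝ (Lb d ℝ) := (Iv ℝ 𝒜).toSubmodule ⊓ Cm d

theorem mat_o (R : Iso) : (mat R)ᵀ * mat R = (1 : ℝ) • 1 :=
  (act_ext fun y => ext_inner_left ℝ fun x => by
    rw [act_mul, inner_act, transpose_transpose, act_mat, act_mat, act_one,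
      R.inner_map_map]).trans (one_smul _ _).symm

theorem ex_iso {R : Mat} (h : Rᵀ * R = 1) : ∃ Q : Iso, mat Q = R :=
  ⟨(LinearEquiv.ofLinear (toLpLin 2 2 R) (toLpLin 2 2 Rᵀ)
    (LinearMap.ext fun x => (act_mul _ _ x).symm.trans (by rw [mul_eq_one_comm.1 h, act_one]; rfl))
    (LinearMap.ext fun x => (act_mul _ _ x).symm.trans (by rw [h, act_one]; rfl))).isometryOfInner
      fun x y => (inner_act _ _ _).trans (by
        change inner ℝ (act Rᵀ (act R x)) y = _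
        rw [← act_mul, h, act_one]), act_ext fun y => act_mat _ y⟩

theorem smul_o (t : ℝ) : (t • 1 : Mat)ᵀ * (t • 1 : Mat) = (t * t) • 1 := by simp [smul_smul]

theorem hm_der {K : Type} [RCLike K] {δ : Derivation K (Lb d K) (Lb d K)} {n : ℕ}
    (h : ∀ p, Hm (δ (X p)) (wt p + n)) (D : ℕ) (c : Lb d K) (hc : Hm c D) : Hm (δ c) (D + n) := by
  rw [c.as_sum, map_sum]
  refine .sum _ _ _ fun m hm => ?_
  obtain ⟨E, e1, e2⟩ : ∃ E, Hm (monomial m (coeff m c)) E ∧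
      Hm (δ (monomial m (coeff m c))) (E + n) := by
    refine induction_on_monomial (motive := fun p => ∃ E, Hm p E ∧ Hm (δ p) (E + n))
      (fun a => ⟨0, isWeightedHomogeneous_C _ _, by
        rw [derivation_C]; exact isWeightedHomogeneous_zero _ _ _⟩) (fun p q ⟨E, e1, e2⟩ => ?_) _ _
    have x := isWeightedHomogeneous_X K wt q
    refine ⟨_, e1.mul x, ?_⟩
    rw [δ.leibniz]
    exact .add (by rw [add_assoc]; exact e1.mul (h q)) (by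
      rw [add_comm E, add_assoc]; exact x.mul e2)
  rwa [← hc (mem_support_iff.1 hm), ← e1 (d := m) (by simpa using mem_support_iff.1 hm)] at *

theorem hm_Dv {K : Type} [RCLike K] (μ : Fin 4) : ∀ D (c : Lb d K), Hm c D → Hm (Dv μ c) (D + 1) :=
  hm_der fun p => by
    rw [Dv, mkDerivation_X]
    exact isWeightedHomogeneous_X K wt _

theorem ad_der {K : Type} [RCLike K] {δ : Derivation K (Lb d K) (Lb d K)}
    {A : Matrix (Fin d) (Fin d) ℝ} (h : ∀ p, ad A (δ (X p)) = δ (ad A (X p))) (c : Lb d K) :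
    ad A (δ c) = δ (ad A c) := by
  induction c using MvPolynomial.induction_on with
  | C a => simp
  | add p q hp hq => simp [hp, hq]
  | mul_X p q hp => simp [hp, h]

theorem ad_Dv {K : Type} [RCLike K] (A : Matrix (Fin d) (Fin d) ℝ) (μ : Fin 4) (c : Lb d K) :
    ad A (Dv μ c) = Dv μ (ad A c) := ad_der (fun p => by simp [Dv, ad_X, mkDerivation_X]) c

theorem ad_Sp {K : Type} [RCLike K] (A : Matrix (Fin d) (Fin d) ℝ) (w : Mat) (c : Lb d K) :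
    ad A (Sp w c) = Sp w (ad A c) := ad_der (fun p => by
  simp only [Sp, ad_X, mkDerivation_X, map_sum, map_smul, Finset.smul_sum, Derivation.map_smul]
  refine ((Finset.sum_congr rfl fun r _ => Finset.sum_comm).trans Finset.sum_comm).trans ?_
  simp only [smul_smul, mul_comm]) c

variable {𝒜} [o : Og 𝒜]

theorem Gd.v0 {L : Lb d ℝ →ₗ[ℝ] Lb d ℝ} (h : Gd L) (k : ∀ A c, ad A (L c) = L (ad A c)) :
    ∀ c ∈ V0 𝒜, L c ∈ V0 𝒜 := fun c e =>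
  ⟨mem_Iv.2 fun A a => by rw [k, mem_Iv.1 e.1 A a], h.cm e.2⟩

theorem pj_v0 {c : Lb d ℝ} (h : c ∈ Iv ℝ 𝒜) : pj c ∈ V0 𝒜 :=
  ⟨mem_Iv.2 fun A a => by rw [← pj_ad (o.orth A a), mem_Iv.1 h A a], pj_mem c⟩

theorem v0_null {c : V0 𝒜} (h : c.1 ∈ Nl d ℝ) : c = 0 :=
  Subtype.ext ((pj_of c.2.2).symm.trans (pj_null.2 h))

variable (𝒜)

/-- the projection of the invariant polynomials -/
def p0 : Iv ℝ 𝒜 →ₗ[ℝ] V0 𝒜 := (pj ∘ₗ (Iv ℝ 𝒜).val.toLinearMap).codRestrict _ fun c => pj_v0 c.2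

/-- the filtration by the dimension -/
def fil : Fil (V0 𝒜) where
  F D := (Fd d ℝ D).comap (V0 𝒜).subtype
  π D := (hc D).restrict (Gd.v0 (gd_hc D) fun A => hc_ad A D)
  mono _ _ h := Submodule.comap_mono (Fd_mono h)
  fin D := .of_injective ((V0 𝒜).subtype.restrict (q := Fd d ℝ D) fun _ h => h)
    fun _ _ e => Subtype.ext (Subtype.ext (congrArg Subtype.val e :))
  ex c := ⟨_, mem_Fd.2 le_rfl⟩
  π_mem D c := (hc_hm D c.1).mem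
  π_zero h e := Subtype.ext (mem_Fd'.1 h _ e)
  π_sum h := Subtype.ext ((map_sum (V0 𝒜).subtype _ _).trans (sum_hc h))

/-- conformal matrices act on the labels -/
def rv {g : Mat} {s : ℝ} (h : gᵀ * g = s • 1) : V0 𝒜 →ₗ[ℝ] V0 𝒜 :=
  (rh g).toLinearMap.restrict (Gd.v0 (gd_rh h) fun A => ad_rh A g)

/-- isometries act on the labels -/
def r0 : Iso →* V0 𝒜 →ₗ[ℝ] V0 𝒜 where
  toFun R := rv 𝒜 (mat_o R)
  map_one' := LinearMap.ext fun c => Subtype.ext ((congrArg (rh · c.1) mat_one).trans (rh_one _))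
  map_mul' R Q := LinearMap.ext fun c =>
    Subtype.ext ((congrArg (rh · c.1) (mat_mul R Q)).trans (rh_mul _ _ _))

/-- scaling -/
def sc (t : ℝ) : V0 𝒜 →ₗ[ℝ] V0 𝒜 := (t ^ 4)⁻¹ • rv 𝒜 (smul_o t)

/-- the free correlation functions -/
def S0 : Cor (V0 𝒜) := fun _ c f => (fr (fun i => (c i).1) f : ℝ)

/-- the unit -/
def u0 : V0 𝒜 := ⟨1, one_mem (Iv ℝ 𝒜), one_Cm⟩

/-- the tensor `F μ l F ν l` -/
def f0 (μ ν : Fin 4) : V0 𝒜 := ⟨ff μ ν, mem_Iv.2 fun A a => ad_ff (o.orth A a) μ ν, ff_Cm μ ν⟩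

/-- the Lagrangian -/
def l0 : V0 𝒜 := (4⁻¹ : ℝ) • ∑ μ, f0 𝒜 μ μ

/-- the traceless stress tensor -/
def tt (μ ν : Fin 4) : V0 𝒜 := f0 𝒜 μ ν - if μ = ν then l0 𝒜 else 0

/-- minus the derivative -/
def d0 (ν : Fin 4) (c : V0 𝒜) : V0 𝒜 :=
  -p0 𝒜 ⟨Dv ν c.1, mem_Iv.2 fun A a => by rw [ad_Dv, mem_Iv.1 c.2.1 A a]⟩

/-- infinitesimal rotations -/
def s0 (l : Fin 3) : V0 𝒜 →ₗ[ℝ] V0 𝒜 := (pj ∘ₗ (Sp (om l) : Derivation ℝ _ _).toLinearMap).restrict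
  fun c e => pj_v0 (mem_Iv.2 fun A a => (ad_Sp A _ c).trans (by rw [mem_Iv.1 e.1 A a]; rfl))

variable {𝒜}

theorem p0_val (c : Iv ℝ 𝒜) : (p0 𝒜 c).1 = pj c.1 := rfl

theorem mem_F {D : ℕ} {c : V0 𝒜} : c ∈ (fil 𝒜).F D ↔ c.1 ∈ Fd d ℝ D := .rfl

theorem π_val (D : ℕ) (c : V0 𝒜) : ((fil 𝒜).π D c).1 = hc D c.1 := rfl

theorem r0_val (R : Iso) (c : V0 𝒜) : (r0 𝒜 R c).1 = rh (mat R) c.1 := rfl

theorem sc_val (t : ℝ) (c : V0 𝒜) : (sc 𝒜 t c).1 = (t ^ 4)⁻¹ • rh (t • 1) c.1 := rfl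

theorem l0_val : (l0 𝒜).1 = lg := by simp [l0, lg, f0]

theorem tt_val (μ ν : Fin 4) : (tt 𝒜 μ ν).1 = t0 μ ν := by
  rw [tt, t0, ← l0_val (𝒜 := 𝒜)]
  split_ifs <;> rfl

theorem r0_gr (R : Iso) (D : ℕ) (c : V0 𝒜) : (fil 𝒜).π D (r0 𝒜 R c) = r0 𝒜 R ((fil 𝒜).π D c) :=
  Subtype.ext (hc_rh _ _ _).symm

theorem r0_f0 (R : Iso) (μ ν : Fin 4) :
    r0 𝒜 R (f0 𝒜 μ ν) = ∑ α, ∑ β, (mat R α μ * mat R β ν) • f0 𝒜 α β := by
  have := mat_o R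
  rw [one_smul, mul_eq_one_comm, ← one_smul ℝ (1 : Mat)] at this
  exact Subtype.ext ((rh_ff this μ ν).trans (by simp [f0]))

/-- graded covariant maps commute with all conformal matrices -/
theorem comm_rh {M : V0 𝒜 →ₗ[ℝ] V0 𝒜} (h1 : ∀ D c, M ((fil 𝒜).π D c) = (fil 𝒜).π D (M c))
    (h2 : ∀ R c, M (r0 𝒜 R c) = r0 𝒜 R (M c)) {g : Mat} {s : ℝ} (h : gᵀ * g = s • 1) (c : V0 𝒜) :
    M (rv 𝒜 h c) = rv 𝒜 h (M c) := by
  obtain ⟨t, R, e, rfl⟩ := conf h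
  obtain ⟨Q, rfl⟩ := ex_iso e
  have a : ∀ c, rv 𝒜 h c = rv 𝒜 (smul_o t) (r0 𝒜 Q c) := fun c => Subtype.ext (rh_mul _ _ _)
  have b : ∀ D c, rv 𝒜 (smul_o t) ((fil 𝒜).π D c) = t ^ D • (fil 𝒜).π D c := fun D c =>
    Subtype.ext (rh_smul (hc_hm D _) t)
  rw [a, a, ← h2]
  generalize r0 𝒜 Q c = c
  obtain ⟨D, hD⟩ := (fil 𝒜).ex c
  rw [← (fil 𝒜).π_sum hD]
  simp only [map_sum, b, map_smul, h1]

end Pool.Agent.Lib.MP_7f377f_mp.Zg
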