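import Pool.Agent.Lib.MP_7f377f_mp.G.JuT4
import Pool.Agent.Lib.MP_7f377f_mp.G.JtZ
import Pool.Agent.Lib.MP_7f377f_mp.G.ZgB
import Pool.Agent.Lib.MP_7f377f_mp.G.StQ

/-! Lattice letters of the labels: jets on shell and the average over the lattice symmetries. -/

noncomputable section

set_option linter.unusedSectionVars false
variable [Pool.Agent.Lib.MP_7f377f_mp.GD]

namespace Pool.Agent.Lib.MP_7f377f_mp.RG.Tl

open Finset MvPolynomial Wd Q4 Jt Matrix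
open Zf (Jx rh)
open Kw (Lead mx Lc)
open Zg (V0 Og r0)
open Wv (mat)

attribute [local irreducible] box lbox

/-- colour matrices -/
abbrev CM : Type := Matrix (Fin GD.d) (Fin GD.d) ℝ

/-- the matrix of the adjoint action -/
def aM (g : S3) : CM :=
  of fun a b => GD.t ^ 2 * trace ((GD.e a)ᵀ * (GD.rho g * GD.e b * (GD.rho g)ᵀ))

/-- the adjoint group -/
class Adj (𝒜 : Set CM) : Prop where
  eq : 𝒜 = Set.range aM

/-- the lattice symmetries act on linear letters -/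
def ga (g : B4) : Module.End ℝ (Lp →₀ ℝ) := Finsupp.lmapDomain ℝ ℝ (Lp.act g)

/-- the action on Euclidean space -/
def gI (g : B4) : Ro.Iso where
  toFun y := WithLp.toLp 2 (gv g y.ofLp)
  invFun y := WithLp.toLp 2 (gv g⁻¹ y.ofLp)
  map_add' x y := congrArg _ (gv_add g _ _)
  map_smul' c x := congrArg _ (gv_map g _ (AddMonoidHom.mulLeft c))
  left_inv y := congrArg (WithLp.toLp 2) (gv_inv g _)
  right_inv y := congrArg (WithLp.toLp 2) (gv_inv' g _)
  norm_map' y := by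
    simp only [EuclideanSpace.norm_eq, Real.norm_eq_abs, sq_abs]
    simp only [sq]
    exact congrArg _ (sum_ax g⁻¹ (φ := fun a b : ℝ => a * b) neg_mul_neg _ _).symm

/-- the transformed jet -/
def rJ (M : Matrix (Fin 4) (Fin 4) ℝ) (I : Jx) : Jx →₀ ℝ :=
  ∑ J, (∏ r, M (J r) (I.2 r)) • Finsupp.single ⟨I.1, J⟩ 1

/-- the forward jet -/
abbrev jI (I : Jx) : V →ₗ[ℝ] ℝ := Kw.fq (Kw.jq I)

/-- coordinates on shell -/
abbrev Oi : Type := Σ n, Fin (don n)

/-- the linear letter `f` has the order `n` and the leading jet `c` -/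
structure Lj (n : ℕ) (f : Lp →₀ ℝ) (c : Jx →₀ ℝ) : Prop where
  low : ∀ a ∈ Pd (n + 1), fl f a = 0
  lead : Lead n (fl f) c

variable {n : ℕ} {a : V} {f : Lp →₀ ℝ} {κ : Type}

theorem fl_eq (f : Lp →₀ ℝ) : fl f = Finsupp.linearCombination ℝ (fun w : Lp => fxL 0 w.1) f := rfl

theorem ex_jet (γ : Mi) (μ ν : Fin 4) : ∃ f, ∀ a, fl f a = dd (Dm γ a) 0 μ ν := by
  induction γ using Jt.ind with
  | h0 => exact ⟨.single (pq (μ, true) (ν, true)) 1, fun a => by simp [fl_ap, fx_pq]⟩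
  | h1 β i ih =>
    obtain ⟨f, h⟩ := ih
    refine ⟨f.mapDomain (las (i, true)) - f, fun a => ?_⟩
    rw [Dm_succ_ap, ← h, D1_apply, map_sub, fl_eq, map_sub, Finsupp.linearCombination_mapDomain]
    simp [fl, Finsupp.linearCombination_apply, Finsupp.sum, fxL, fx_las, fx_sh, Wd.dv]

theorem ex_du (b : Oi) : ∃ f, ∀ a, fl f a = (bo b.1).repr (po b.1 (cj b.1 a)) b.2 := by
  classical
  choose f h using ex_jet
  refine ⟨∑ q : Ih b.1 × Fin 4 × Fin 4, (bo b.1).repr (po b.1 (Pi.single q 1)) b.2 •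
    f q.1 q.2.1 q.2.2, fun a => ?_⟩
  conv_rhs => rw [← univ_sum_single (cj b.1 a)]
  simp only [fl_eq, map_sum, map_smul, LinearMap.sum_apply, LinearMap.smul_apply,
    Finsupp.finset_sum_apply]
  refine sum_congr rfl fun q _ => ?_
  rw [← fl_eq, h, ← mul_one (cj _ a q), ← smul_eq_mul (cj _ a q), Pi.single_smul, map_smul, map_smul]
  exact mul_comm _ _

/-- the letters of the coordinates -/
def ow (b : Oi) : Lp →₀ ℝ := (ex_du b).choose

/-- the letters of the jets -/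
def jo (I : Jx) : Lp →₀ ℝ := ∑ k, jI I (eo I.1 k) • ow ⟨I.1, k⟩

/-- labels as polynomials on shell -/
def tO : Cp Jx →ₐ[ℂ] Cp Oi :=
  aeval fun q => ∑ k, ((jI q.1 (eo q.1.1 k) : ℝ) : ℂ) • X (⟨q.1.1, k⟩, q.2)

/-- complex labels -/
abbrev cx : Zf.Lb GD.d ℝ →+* Cp Jx := MvPolynomial.map (algebraMap ℝ ℂ)

/-- the letter of a label -/
def ls (𝒜 : Set CM) : V0 𝒜 →ₗ[ℝ] Pl where
  toFun c := lf jo (cx c.1)
  map_add' _ _ := by simp
  map_smul' t c := by
    simp only [SetLike.val_smul, smul_eq_C_mul, map_mul, map_C, RingHom.id_apply, algHom_C,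
      algebraMap_eq]
    exact (Algebra.smul_def t _).symm

/-- the letter seen through the symmetry `g` -/
def lg (𝒜 : Set CM) [Og 𝒜] (g : B4) : V0 𝒜 →ₗ[ℝ] Pl :=
  (act g).toLinearMap.restrictScalars ℝ ∘ₗ ls 𝒜 ∘ₗ r0 𝒜 (gI g⁻¹)

/-- the equivariant letter of a label -/
def lE (𝒜 : Set CM) [Og 𝒜] : V0 𝒜 →ₗ[ℝ] Pl := (Fintype.card B4 : ℝ)⁻¹ • ∑ g, lg 𝒜 g

/-! ### Linear letters -/

theorem lc_fl (f : Lp →₀ ℝ) : Lc (fl f) := by
  induction f using Finsupp.induction_linear with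
  | zero => exact ⟨zero_mem _, fun _ => rfl⟩
  | add f g a b => rw [fl_eq, map_add]; exact a.add b
  | single w t =>
    rw [fl_eq, Finsupp.linearCombination_single]
    exact (Kw.ex_fil w).elim fun _ h => h.lc.smul t

theorem fl_ga (g : B4) (f : Lp →₀ ℝ) (a : V) : fl (ga g f) a = fl f (pb Neg.neg g a) := by
  rw [fl_eq, ga, Finsupp.lmapDomain_apply, Finsupp.linearCombination_mapDomain]
  simp [fl, Finsupp.linearCombination_apply, Finsupp.sum, fxL, fx_pb, Lp.act]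

theorem fl_jo (I : Jx) (a : V) :
    fl (jo I) a = ∑ k, jI I (eo I.1 k) * (bo I.1).repr (po I.1 (cj I.1 a)) k := by
  simp only [jo, fl_eq, map_sum, map_smul, LinearMap.sum_apply, LinearMap.smul_apply, smul_eq_mul]
  exact sum_congr rfl fun k _ => congrArg _ ((ex_du ⟨I.1, k⟩).choose_spec a)

theorem cj_low (h : a ∈ Pd (n + 1)) : cj n a = 0 := funext fun p => by
  have : ∀ κ, n + 1 ≤ dg (p.1.1 + ei κ) := fun κ => by simp [dg_add, mem_Ih.1 p.1.2]
  simp only [cj_ap, dd_Dm, jet_ap, Pd_ge h (this _), Pi.zero_apply, sub_self]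

theorem mx_cu (a : V) : mx a = cu a := funext fun e => (Kw.mx_ap a e).trans (cu_eq a _ _).symm

theorem mx_Mo (a : V) : mx a = Mo 1 m0 a := (mx_cu a).trans (Mo_m0 le_rfl a).symm

theorem cj_on (h : a ∈ Pd (n + 2)) (h1 : mx a = 0) : cj n a ∈ So n := by
  rcases n with _ | n
  · exact cj_mem (Pd_zero (M0_Pd h)) 0
  have k : M0 a ∈ Pd n := mem_Pd.2 fun α hα => funext fun e => by
    have b : Dm α a ∈ Pd (2 + 1) := Pd_Dm (by rwa [hα, show 2 + 1 + n = n + 1 + 2 by omega])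
    have c := congrFun ((cov_Mo 1 m0).dm α a) e
    rw [← mx_Mo a, h1, map_zero, ← mx_Mo, Kw.mx_ap] at c
    rw [← cov_M0.dm, M0_ap, ← sum_neg_distrib, ← c]
    refine sum_congr rfl fun ν _ => ?_
    rw [← dd_anti, cst_of_Pd (Pd_D1 b ν), ← cst_of_Pd (Pd_D1 b ν) (e.1 - un ν), D1_apply,
      La.dd_sub, Pi.sub_apply, Pi.sub_apply, Pi.sub_apply, dd_sh, sub_add_cancel]
  have := cj_mem (a := a - Gp (n + 1) (M0 a)) (by
    rw [map_sub, M0_Gp ⟨M0_Pd h, dv_M0 a⟩, sub_self]) (n + 1)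
  rwa [map_sub, cj_low (Gp_Pd k), sub_zero] at this

theorem lj_jo (I : Jx) : Lj I.1 (jo I) (.single I 1) := by
  refine ⟨fun a h => by simp [fl_jo, cj_low h], lc_fl _, (Kw.lead_jq I).ord, fun a h h1 => ?_⟩
  have := congrArg Subtype.val ((bo I.1).sum_repr ⟨_, cj_on h h1⟩)
  simp only [AddSubmonoidClass.coe_finsetSum, SetLike.val_smul, ← (eo_spec _ _).2] at this
  rw [fl_jo, show po I.1 (cj I.1 a) = _ from po_coe ⟨_, cj_on h h1⟩]
  simp only [Finsupp.linearCombination_single, one_smul, fq_jx, jx_cj]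
  conv_rhs => rw [← this]
  simp only [Finset.sum_apply, Pi.smul_apply, smul_eq_mul, mul_comm]

/-- the sign of a direction -/
def sn (d : Dr) : ℝ := if d.2 then 1 else -1

/-- the pull back -/
def pV (g : B4) : Module.End ℝ V where
  toFun := pb Neg.neg g
  map_add' a b := funext fun e => by
    simp only [Wd.pb, stp, Pi.add_apply]
    split_ifs <;> ring
  map_smul' t a := funext fun e => by
    simp only [Wd.pb, stp, Pi.smul_apply, smul_eq_mul, RingHom.id_apply]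
    split_ifs <;> ring

theorem Dm_pb (g : B4) (n : ℕ) (w : Fin n → Fin 4) : ∃ v, ∀ a, Dm (∑ r, ei (w r)) (pV g a) =
    (∏ r, sn (g.1 (w r, true))) • pV g (sh v (Dm (∑ r, ei (ax g (w r))) a)) := by
  induction n with
  | zero => exact ⟨0, fun a => by simp⟩
  | succ n ih =>
    obtain ⟨v, hv⟩ := ih fun r => w r.succ
    obtain ⟨u, hu⟩ : ∃ u, ∀ a : V, sh (Wd.dv (g.1 (w 0, true))) a - a =
        sn (g.1 (w 0, true)) • sh u (D1 (ax g (w 0)) a) := by
      rw [show ax g (w 0) = (g.1 (w 0, true)).1 from rfl]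
      obtain ⟨j, _ | _⟩ := g.1 (w 0, true)
      · exact ⟨-un j, fun a => funext fun e => by simp [sn, Wd.dv, D1_ap]⟩
      · exact ⟨0, fun a => funext fun e => by simp [sn, Wd.dv, D1_ap]⟩
    refine ⟨v + u, fun a => ?_⟩
    have e : D1 (w 0) (pV g a) = pV g (sh (Wd.dv (g.1 (w 0, true))) a - a) := by
      rw [map_sub, ← gv_dv]
      exact congrArg (· - _) (sh_pb g a _)
    simp only [Fin.sum_univ_succ, Fin.prod_univ_succ, add_comm (ei _), Dm_succ_ap, e, hu, map_smul,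
      hv, cov_Dm _ u, sh_sh, mul_smul]

theorem dg_sum (w : Fin n → Fin 4) : dg (∑ r, ei (w r)) = n :=
  dg_wd ⟨n, Fin.cons 0 (Fin.cons 0 w)⟩

theorem pV_Pd (g : B4) (h : a ∈ Pd n) : pV g a ∈ Pd n := mem_Pd.2 fun α hα => by
  obtain ⟨w, rfl⟩ := ex_word n α hα
  obtain ⟨v, e⟩ := Dm_pb g n w
  rw [e, mem_Pd.1 h _ (dg_sum _), show sh v (0 : V) = 0 from rfl, map_zero, smul_zero]

theorem fx_flip (a : V) (x : St) (j : Fin 4) (e : Dr) :
    fx a x (pq (j, false) e).1 = -fx a (x - un j) (pq (j, true) e).1 := by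
  have := stp_fl neg_neg a (x - un j + un j) (j, false)
  have := stp_fl neg_neg a (x - un j + Wd.dv e) (j, true)
  have := stp_fl neg_neg a (x - un j) e
  have := stp_fl neg_neg a x e
  simp only [pq, fx, Wd.dv_fl, show ∀ b, Wd.dv (j, b) = if b then un j else -un j from fun _ => rfl,
    show ∀ b, Wd.fl (j, b) = (j, !b) from fun _ => rfl, Bool.not_true, Bool.not_false, if_true,
    Bool.false_eq_true, if_false, sub_add_cancel, ← sub_eq_add_neg,
    show x - un j + Wd.dv e + un j = x + Wd.dv e by abel,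
    show x + Wd.dv e - un j = x - un j + Wd.dv e by abel] at *
  linarith

theorem fx_cst (h : Cst a) (x : St) (d e : Dr) :
    fx a x (pq d e).1 = sn d * sn e * dd a 0 d.1 e.1 := by
  obtain ⟨m, _ | _⟩ := d <;> obtain ⟨r, _ | _⟩ := e <;> simp [fx_flip, fx_pq, fx_pq', sn, h _]

theorem jx_pb (g : B4) (I : Jx) (h : a ∈ Pd (I.1 + 2)) :
    jx I (pV g a) = (∏ r, sn (g.1 (I.2 r, true))) * jx ⟨I.1, fun r => ax g (I.2 r)⟩ a := by
  obtain ⟨v, e⟩ := Dm_pb g I.1 fun r => I.2 r.succ.succ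
  have b : Dm (∑ r : Fin I.1, ei (ax g (I.2 r.succ.succ))) a ∈ Pd 2 :=
    Pd_Dm (by rwa [dg_sum, add_comm])
  rw [jx_ap, Jt.wd, e, ← fx_pq, show ∀ (t : ℝ) (b : V) w, fx (t • b) 0 w = t * fx b 0 w from
    fun t b w => (fxL 0 w).map_smul t b]
  erw [fx_pb]
  rw [gv_zero, fx_sh, show List.map g.1 _ = _ from congrArg Subtype.val (pq_act g _ _),
    fx_cst (cst_of_Pd b), Fin.prod_univ_succ, Fin.prod_univ_succ, ← mul_assoc, mul_comm (∏ r, _),
    ← mul_assoc]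
  rfl

theorem mx_pb (g : B4) (h : mx a = 0) : mx (pV g a) = 0 := by
  rw [mx_cu] at h ⊢
  funext e
  have : cu (pV g a) e = ∑ d, fx a (gv g e.1) (pq (g.1 (e.2, true)) d).1 := by
    rw [← Equiv.sum_comp g.1]
    exact sum_congr rfl fun d _ => (fx_pb ..).trans
      (congrArg _ (congrArg Subtype.val (pq_act g _ _)))
  rw [this]
  obtain ⟨j, _ | _⟩ := g.1 (e.2, true)
  · simpa only [fx_flip, sum_neg_distrib, Pi.zero_apply, neg_eq_zero, cu] using
      congrFun h (gv g e.1 - un j, j)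
  · exact congrFun h (_, j)

theorem mat_gI (g : B4) (i j : Fin 4) :
    mat (gI g) j i = if j = ax g i then sn (g.1 (i, true)) else 0 := by
  have e : ∀ d i, (Wd.dv d i : ℝ) = if i = d.1 then sn d else 0 := fun ⟨m, b⟩ i => by
    cases b <;> by_cases u : i = m <;> simp [sn, Wd.dv, un, u]
  refine Eq.trans ?_ (e _ j)
  rw [← gv_dv]
  refine Eq.trans (congrArg (gv g · j) (funext fun l => ?_))
    (congrFun (gv_map g (Wd.dv (i, true)) (Int.castAddHom ℝ)) j)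
  simp [e, sn, Pi.single_apply]

theorem rJ_gI (g : B4) (I : Jx) : rJ (mat (gI g)) I =
    (∏ r, sn (g.1 (I.2 r, true))) • Finsupp.single ⟨I.1, fun r => ax g (I.2 r)⟩ 1 := by
  rw [rJ, sum_eq_single (fun r => ax g (I.2 r)) (fun J _ h => ?_) (by simp)]
  · simp [mat_gI]
  · obtain ⟨r, hr⟩ := Function.ne_iff.1 h
    rw [prod_eq_zero (mem_univ r) (by rw [mat_gI, if_neg hr]), zero_smul]

theorem lj_ga (g : B4) (I : Jx) : Lj I.1 (ga g (jo I)) (rJ (mat (gI g)) I) := by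
  refine ⟨fun a h => (fl_ga ..).trans ((lj_jo I).low _ (pV_Pd g h)), lc_fl _, fun J hJ => ?_,
    fun a h h1 => (fl_ga ..).trans (((lj_jo I).lead.eq _ (pV_Pd g h) (mx_pb g h1)).trans ?_)⟩
  · rw [rJ_gI] at hJ
    rw [mem_singleton.1 (Finsupp.support_single_subset (Finsupp.support_smul hJ))]
  · simpa [rJ_gI, fq_jx] using jx_pb g I h

theorem gI_mul (g h : B4) : gI (g * h) = gI g * gI h :=
  LinearIsometryEquiv.ext fun _ => congrArg (WithLp.toLp 2) (gv_mul g h _)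

theorem gI_one : gI 1 = 1 := LinearIsometryEquiv.ext fun _ => rfl

/-! ### Labels -/

theorem lw_eq (f : Lp →₀ ℝ) (k : Fin GD.d) :
    lw f k = Finsupp.linearCombination ℝ (fun w => (X (w, k) : Pl)) f := by
  simp only [lw, Complex.coe_smul, Finsupp.linearCombination_apply]

theorem lf_X (l : κ → Lp →₀ ℝ) (q : κ × Fin GD.d) : lf l (X q) = lw (l q.1) q.2 := aeval_X _ _

theorem act_lf (g : B4) (l : κ → Lp →₀ ℝ) (P : Cp κ) :
    act g (lf l P) = lf (fun a => ga g (l a)) P := by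
  refine AlgHom.congr_fun (φ₁ := (act g).comp (lf l)) (algHom_ext fun q => ?_) P
  rw [AlgHom.comp_apply, lf_X, lf_X, lw_eq (ga _ _), ga, Finsupp.lmapDomain_apply,
    Finsupp.linearCombination_mapDomain]
  simp only [lw, Finsupp.linearCombination_apply, Finsupp.sum, act, map_sum, map_smul, rename_X]
  simp only [Complex.coe_smul, Function.comp]

theorem tO_X (q : Jx × Fin GD.d) :
    tO (X q) = ∑ k, ((jI q.1 (eo q.1.1 k) : ℝ) : ℂ) • X (⟨q.1.1, k⟩, q.2) := aeval_X _ _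

theorem lf_jo (c : Cp Jx) : lf jo c = lf ow (tO c) := by
  refine AlgHom.congr_fun (φ₂ := (lf ow).comp tO) (algHom_ext fun q => ?_) c
  simp only [AlgHom.comp_apply, lf_X, tO_X, map_sum, map_smul, lw_eq, jo]
  simp only [Complex.coe_smul]

theorem tO_nl {c : Cp Jx} : tO c = 0 ↔ c ∈ Zf.Nl GD.d ℂ := by
  have e : ∀ y : Oi → Fin GD.d → ℝ, eval (fun q => (y q.1 q.2 : ℂ)) (tO c) = eval (fun p =>
      ((∑ k, jI p.1 (eo p.1.1 k) * y ⟨p.1.1, k⟩ p.2 : ℝ) : ℂ)) c := fun y => by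
    simp only [ev_alg tO, tO_X, map_sum, smul_eval, eval_X, Complex.ofReal_sum, Complex.ofReal_mul]
  refine ⟨fun h => Zf.mem_Nl.2 fun ξ hξ => ?_, fun h => funext_set
    (fun _ => Set.range Complex.ofReal) (fun _ =>
      Set.infinite_range_of_injective Complex.ofReal_injective) fun x hx => ?_⟩
  · obtain ⟨y, hy⟩ := on_eo.1 hξ
    have := e y
    simp only [← hy, h, map_zero] at this
    exact this.symm
  · choose u hu using fun q => hx q trivial
    rw [← funext hu, map_zero]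
    exact (e fun b a => u (b, a)).trans (Zf.mem_Nl.1 h _ (on_eo.2 ⟨fun b a => u (b, a), fun _ _ => rfl⟩))

/-- the null labels have no letter -/
theorem lf_nl {c : Cp Jx} (h : c ∈ Zf.Nl GD.d ℂ) : lf jo c = 0 := by
  rw [lf_jo, tO_nl.2 h, map_zero]

theorem ev_cx (ξ : Jx × Fin GD.d → ℝ) (c : Zf.Lb GD.d ℝ) :
    eval (fun p => (ξ p : ℂ)) (cx c) = (eval ξ c : ℝ) := by
  induction c using MvPolynomial.induction_on <;> simp [*]

theorem cx_nl {c : Zf.Lb GD.d ℝ} : cx c ∈ Zf.Nl GD.d ℂ ↔ c ∈ Zf.Nl GD.d ℝ := by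
  rw [Zf.mem_Nl, Zf.mem_Nl]
  exact forall₂_congr fun ξ _ => (ev_cx ξ c).congr_left.trans Complex.ofReal_eq_zero

variable {𝒜 : Set CM} [Og 𝒜] {c : V0 𝒜}

theorem ls_ap (c : V0 𝒜) : ls 𝒜 c = lf jo (cx c.1) := rfl

theorem ls_p0 (c : Zf.Iv ℝ 𝒜) : ls 𝒜 (Zg.p0 𝒜 c) = lf jo (cx c.1) := by
  have := lf_nl (cx_nl.2 (Zf.sub_pj c.1))
  rw [map_sub, map_sub, sub_eq_zero] at this
  exact this.symm

theorem lg_ap (g : B4) (c : V0 𝒜) : lg 𝒜 g c = act g (ls 𝒜 (r0 𝒜 (gI g⁻¹) c)) := rfl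

theorem lE_ap (c : V0 𝒜) : lE 𝒜 c = (Fintype.card B4 : ℝ)⁻¹ • ∑ g, lg 𝒜 g c := by simp [lE]

theorem r0_gI (g h : B4) (c : V0 𝒜) : r0 𝒜 (gI (g * h)) c = r0 𝒜 (gI g) (r0 𝒜 (gI h) c) := by
  rw [gI_mul, map_mul]; rfl

theorem act_lg (g h : B4) (c : V0 𝒜) :
    act g (lg 𝒜 h c) = lg 𝒜 (g * h) (r0 𝒜 (gI g) c) := by
  rw [lg_ap, lg_ap, act_mul, ← r0_gI, _root_.mul_inv_rev, inv_mul_cancel_right]

/-- exact equivariance -/
theorem act_lE (g : B4) (c : V0 𝒜) : act g (lE 𝒜 c) = lE 𝒜 (r0 𝒜 (gI g) c) := by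
  rw [lE_ap (r0 _ _ _), ← Equiv.sum_comp (Equiv.mulLeft g), lE_ap, ← Complex.coe_smul,
    ← Complex.coe_smul, map_smul, map_sum]
  simp only [act_lg, Equiv.coe_mulLeft]

theorem vl_ad (g : S3) (ξ : Jx → C3) (c : Zf.Lb GD.d ℝ) :
    vl ξ (cx (Zf.ad (aM g) c)) = vl (fun i => adq (cS g) (ξ i)) (cx c) := by
  induction c using MvPolynomial.induction_on with
  | C a => simp [vl]
  | add p q h h' => simp only [map_add, vl_add, h, h']
  | mul_X p i h =>
    simp only [map_mul, vl_mul, h, map_X, vl_X, Zf.ad_X, map_sum, vl_sum, smul_eq_C_mul, map_C,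
      adq_cS_apply]
    simp [vl, aM]

theorem iv_cx [A : Adj 𝒜] {c : Zf.Lb GD.d ℝ} : Iv (cx c) ↔ c ∈ Zf.Iv ℝ 𝒜 := by
  rw [Zf.mem_Iv, A.eq, Set.forall_mem_range]
  refine forall_congr' fun g => ⟨fun h => map_injective _ Complex.ofReal_injective
    (MvPolynomial.funext fun x => (vl_ad g (cur x) c).trans (h _)), fun h ξ => ?_⟩
  rw [← vl_ad, h]

/-- real linear maps to invariant real letters which preserve the degree -/
def Gm (L : V0 𝒜 →ₗ[ℝ] Pl) : Prop :=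
  ∀ c, Iv (L c) ∧ Rl (L c) ∧ ∀ n, c.1.IsHomogeneous n → (L c).IsHomogeneous n

theorem rl_cx (c : Zf.Lb GD.d ℝ) : Rl (cx c) := MvPolynomial.ext _ _ fun _ => by simp [coeff_map]

theorem vl_lf' (ξ : Lp → C3) (l : κ → Lp →₀ ℝ) (P : Cp κ) :
    vl ξ (lf l P) = vl (fun a => cm (l a) ξ) P := by
  induction P using MvPolynomial.induction_on with
  | C a => simp [lf, vl]
  | add p q h h' => rw [map_add, vl_add, vl_add, h, h']
  | mul_X p i h => rw [map_mul, vl_mul, vl_mul, h, vl_X, lf_X, vl_lw]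

theorem iv_lf' {P : Cp κ} (h : Iv P) (l : κ → Lp →₀ ℝ) : Iv (lf l P) := fun g ξ => by
  simp only [vl_lf', cm_ad, h g]

theorem cj_lf' (l : κ → Lp →₀ ℝ) (P : Cp κ) :
    map (starRingEnd ℂ) (lf l P) = lf l (map (starRingEnd ℂ) P) := by
  induction P using MvPolynomial.induction_on with
  | C a => simp [lf]
  | add p q h h' => simp only [map_add, h, h']
  | mul_X p i h => rw [map_mul, map_mul, h, map_mul, map_mul, map_X, lf_X, rl_lw]

theorem hom_lf' {P : Cp κ} (h : P.IsHomogeneous n) (l : κ → Lp →₀ ℝ) : (lf l P).IsHomogeneous n :=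
  hom_alg (fun q => lf_X l q ▸ hom_lw _ _) h

theorem gm_ls [Adj 𝒜] : Gm (ls 𝒜) := fun c =>
  ⟨iv_lf' (iv_cx.2 c.2.1) _, (cj_lf' _ _).trans (congrArg _ (rl_cx _)),
    fun _ h => hom_lf' (h.map _) _⟩

theorem deg_rh (M : Matrix (Fin 4) (Fin 4) ℝ) {c : Zf.Lb GD.d ℝ} (h : c.IsHomogeneous n) :
    (rh M c).IsHomogeneous n :=
  hom_alg (fun p => Zf.rh_X M p ▸ .sum _ _ _ fun _ _ =>
    (weightedHomogeneousSubmodule ℝ _ _).smul_mem _ (isWeightedHomogeneous_X ℝ _ _)) h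

theorem gm_lg [Adj 𝒜] (g : B4) : Gm (lg 𝒜 g) := fun _ =>
  ⟨(gm_ls _).1.act g, (gm_ls _).2.1.act g, fun _ h => hom_act ((gm_ls _).2.2 _ (deg_rh _ h)) g⟩

theorem gm_lE [Adj 𝒜] : Gm (lE 𝒜) := fun c => by
  rw [lE_ap, ← Complex.coe_smul]
  refine ⟨.smul (.sum fun g _ => (gm_lg g c).1) _, ?_, fun n h =>
    (homogeneousSubmodule _ ℂ n).smul_mem _ (.sum _ _ _ fun g _ => (gm_lg g c).2.2 n h)⟩
  rw [Rl, cj_smul, Complex.conj_ofReal, map_sum, sum_congr rfl fun g _ => (gm_lg g c).2.1]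

end Pool.Agent.Lib.MP_7f377f_mp.RG.Tl
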