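import Pool.Agent.Lib.MP_7f377f_mp.G.KyF
import Pool.Agent.Lib.MP_7f377f_mp.G.KzL
import Pool.Agent.Lib.MP_7f377f_mp.G.KwL
import Pool.Agent.Lib.MP_7f377f_mp.G.JuT6

/-! Probes: one finite family of letters which is complete at all levels of all runs. -/

noncomputable section

set_option linter.unusedSectionVars false
variable [Pool.Agent.Lib.MP_7f377f_mp.GD]

namespace Pool.Agent.Lib.MP_7f377f_mp.RG.Q4.En

open Finset Real Cok Filter Tl MvPolynomial Ju Jt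
open scoped Classical

attribute [local irreducible] box lbox tb tau rc

/-- the letters `P` are probes for the symbols of weight at most `d` -/
structure Prb (s d : ℕ) {N : ℕ} (n : Fin N → ℕ) (P : Fin N → Pl) (R : ℕ) (δ K M0 : ℝ) (C0 : ℕ) :
    Prop where
  δ0 : 0 < δ
  K0 : 0 < K
  gl : ∀ a, Tl.Iv (P a) ∧ Rl (P a) ∧ 1 ≤ n a ∧ n a ≤ d ∧ (P a).IsHomogeneous (n a)
  top : ∀ a g, Top R (n a) δ K (pG (Tl.act g (P a))) (Tl.px (Tl.act g (P a)))
    (Tl.pa (Tl.act g (P a)))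
  cmp : ∀ (G : Gl) D C M c b J j ω l U U' i H (S : ℕ → Jv → Jv), C0 ≤ C → M0 ≤ M →
    G.Tk Jt.wt d D C M c b J j ω (G.sek s b J) l U U' → i ≤ J → G.Ex s i → G.Tj D R δ i →
    G.Kb D i H → G.Cx Jt.wt d D C c J j (G.sek s b J) l U U' S i → ∀ o (u : Jv) x, j ≤ o →
    o ≤ i → 0 < x → G.zP Jt.wt d D C c J j (G.sek s b J) l U i u x →
    ‖G.zq Jt.wt d D C J j (G.sek s b J) i u‖ ≤ x →
    ∃ t : Fin N → ℂ, ∑ a, ‖t a‖ ≤ 3 * M * G.Xr C i * x ∧
      (G.Kr Jt.wt d D C c J j (G.sek s b J) l U S i → RealA H → JR (G.p i) u →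
        ∀ a, (t a).im = 0) ∧ ∀ v : Jv,
      v = G.qt D R i (c i) H (G.fl D C i n (fun a => Tl.lq (P a)) t) →
      G.zq Jt.wt d D C J j (G.sek s b J) o (Cok.fw S v i o) =
        G.zq Jt.wt d D C J j (G.sek s b J) o (Cok.fw S u i o) ∧ ∀ k, o ≤ k → k ≤ i →
      G.zP Jt.wt d D C c J j (G.sek s b J) l U k (Cok.fw S u i k - Cok.fw S v i k)
        (8 * M * (G.Pw d C k i / (G.rt i k : ℝ) ^ (d + 1) * x)) ∧
      ‖G.zq Jt.wt d D C J j (G.sek s b J) k (Cok.fw S u i k - Cok.fw S v i k)‖ ≤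
        2 * (G.Pw d C k i / (G.rt i k : ℝ) ^ (d + 1) * x)

section

variable {α κ : Type} [Fintype α] [DecidableEq α] [Fintype κ] [DecidableEq κ]

/-- bounded left inverses -/
theorem ex_left (f : (α → ℝ) →ₗ[ℝ] κ → ℝ) {B : ℝ} (B0 : 0 ≤ B) (h : ∀ c, ‖c‖ ≤ B * ‖f c‖) :
    ∃ u : α → κ →₀ ℝ, (∀ a q, |u a q| ≤ B) ∧ ∀ a c, ∑ q, u a q * f c q = c a := by
  have i : Function.Injective f := (injective_iff_map_eq_zero _).2 fun c e => by
    simpa [e] using h c
  have e : ∀ a, ∃ g : (κ → ℝ) →ₗ[ℝ] ℝ, (∀ c, g (f c) = c a) ∧ ∀ x, g x ≤ B * ‖x‖ := fun a => by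
    obtain ⟨g, g1, g2⟩ := exists_extension_of_le_sublinear
      ⟨LinearMap.range f, LinearMap.proj a ∘ₗ (LinearEquiv.ofInjective f i).symm.toLinearMap⟩
      (fun x => B * ‖x‖) (fun t ht x => by rw [norm_smul, norm_of_nonneg ht.le]; ring)
      (fun x y => by rw [← mul_add]; gcongr; exact norm_add_le x y) (by
        rintro ⟨_, c, rfl⟩
        refine le_trans ?_ (h c)
        change (LinearEquiv.ofInjective f i).symm ⟨f c, _⟩ a ≤ _
        rw [show (LinearEquiv.ofInjective f i).symm ⟨f c, c, rfl⟩ = c from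
          (LinearEquiv.ofInjective f i).symm_apply_apply c]
        exact (le_abs_self _).trans (norm_le_pi_norm c a))
    exact ⟨g, fun c => (g1 ⟨f c, c, rfl⟩).trans
      (congrFun ((LinearEquiv.ofInjective f i).symm_apply_apply c) a), g2⟩
  choose g g1 g2 using e
  refine ⟨fun a => Finsupp.equivFunOnFinite.symm fun q => g a (Pi.single q 1), fun a q => ?_,
    fun a c => ?_⟩
  · have := g2 a (Pi.single q 1)
    have := g2 a (-Pi.single q 1)
    simp only [map_neg, norm_neg, Pi.norm_single, norm_one, mul_one] at *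
    exact abs_le.2 ⟨neg_le.1 this, by assumption⟩
  · conv_rhs => rw [← g1 a c, ← univ_sum_single (f c), map_sum]
    refine sum_congr rfl fun q _ => ?_
    rw [← mul_one (f c q), ← smul_eq_mul (f c q), Pi.single_smul, map_smul, smul_eq_mul,
      smul_eq_mul, mul_one, mul_comm]
    rfl

theorem nP_sb {u : α → κ →₀ ℝ} {B : ℝ} {m : ℕ} {e : Cp α} (B0 : 0 < B)
    (h : ∀ a, ∑ q, |u a q| ≤ B) (he : e.IsHomogeneous m) : nP (sb u e) ≤ B ^ m * nP e := by
  refine nP_le fun x hx => ?_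
  have := eval_hom (w := 1) he B fun i => (B : ℂ)⁻¹ * (u i.1).sum fun q t => t * x (q, i.2)
  have e : eval x (sb u e) = _ := (vl_sb u (fun q k => x (q, k)) e).trans
    (Eq.trans (congrArg (eval · e) (funext fun i => by
      simp [dl, B0.ne', Finsupp.sum, Finset.sum_apply])) this)
  rw [e, norm_mul, norm_pow, Complex.norm_real, norm_of_nonneg B0.le]
  gcongr
  refine le_nP ((pi_norm_le_iff_of_nonneg zero_le_one).2 fun i => ?_) _
  rw [norm_mul, norm_inv, Complex.norm_real, norm_of_nonneg B0.le, inv_mul_le_one₀ B0,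
    Finsupp.sum_fintype _ _ (by simp)]
  refine le_trans (norm_sum_le_of_le _ fun q _ => ?_) (h i.1)
  rw [norm_mul, Complex.norm_real]
  exact mul_le_of_le_one_right (norm_nonneg _) ((norm_le_pi_norm x _).trans hx)

/-- finitely many real invariant homogeneous polynomials span -/
theorem ex_gen (κ : Type) [Fintype κ] [DecidableEq κ] (d : ℕ) :
    ∃ (N : ℕ) (n : Fin N → ℕ) (E : Fin N → Cp κ) (C : ℝ), 0 < C ∧
      (∀ a, Tl.Iv (E a) ∧ Rl (E a) ∧ 1 ≤ n a ∧ n a ≤ d ∧ (E a).IsHomogeneous (n a)) ∧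
      ∀ m Q, Tl.Iv Q → Rl Q → Q.IsHomogeneous (m + 1) → m + 1 ≤ d → ∃ t : Fin N → ℝ,
        ∑ a, |t a| ≤ C * nP Q ∧ (∀ a, n a ≠ m + 1 → t a = 0) ∧ Q = ∑ a, (t a : ℂ) • E a := by
  obtain ⟨S, a1, -, a2, a3⟩ := exists_linearIndepOn_extension (K := ℂ) (v := id)
    (t := {Q : Cp κ | Tl.Iv Q ∧ Rl Q ∧ ∃ n, 1 ≤ n ∧ n ≤ d ∧ Q.IsHomogeneous n})
    (linearIndepOn_empty _ _) (Set.empty_subset _)
  have v : ∀ {Q : Cp κ} {n}, n ≤ d → Q.IsHomogeneous n → (Sy.mk (wC 1) d Q).val = Q :=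
    fun hn hQ => tc_eq (mem_Wd.2 fun γ hγ => hQ.coeff_eq_zero (by
      rw [Finsupp.degree_eq_weight_one]; exact (hn.trans_lt hγ).ne'))
  choose n n1 n2 n3 using fun a : S => (a1 a.2).2.2
  have li : LinearIndependent ℂ fun a : S => Sy.mk (wC (1 : κ → ℕ)) d a.1 :=
    .of_comp Sy.val (by
      rw [show Sy.val ∘ (fun a : S => Sy.mk (wC (1 : κ → ℕ)) d a.1) = fun a => a.1 from
        funext fun a => v (n2 a) (n3 a)]
      exact a3)
  have := Sy.fin (w := wC (1 : κ → ℕ)) (fun _ => one_ne_zero) d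
  have := li.finite_of_isNoetherian
  obtain ⟨N, ⟨z⟩⟩ := Finite.exists_equiv_fin S
  obtain ⟨C, C0, hC⟩ := near_frame (li.comp _ z.symm.injective) rfl
  refine ⟨N, n ∘ z.symm, fun a => z.symm a, C, C0, fun a => ⟨(a1 (z.symm a).2).1,
    (a1 (z.symm a).2).2.1, n1 _, n2 _, n3 _⟩, fun m Q q1 q2 q3 q4 => ?_⟩
  have : Q ∈ Submodule.span ℂ (Set.range fun a => (z.symm a).1) := by
    rw [show (fun a => (z.symm a).1) = Subtype.val ∘ z.symm from rfl, z.symm.surjective.range_comp,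
      Subtype.range_coe]
    simpa using a2 ⟨Q, ⟨q1, q2, _, m.succ_pos, q4, q3⟩, rfl⟩
  obtain ⟨t, ht⟩ := (Submodule.mem_span_range_iff_exists_fun ℂ).1 this
  have e : Q = ∑ a, ((if n (z.symm a) = m + 1 then (t a).re else 0 : ℝ) : ℂ) • (z.symm a).1 := by
    have e1 : Q = ∑ a, ((t a).re : ℂ) • (z.symm a).1 := by
      have := congrArg (MvPolynomial.map (starRingEnd ℂ)) ht
      rw [q2, map_sum, sum_congr rfl fun a _ => by rw [cj_smul, (a1 (z.symm a).2).2.1]] at this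
      rw [← one_smul ℂ Q, ← add_halves (1 : ℂ), add_smul]
      nth_rw 1 [← ht, ← this]
      rw [← smul_add, ← sum_add_distrib, smul_sum]
      exact sum_congr rfl fun a _ => by
        rw [← add_smul, smul_smul, Complex.add_conj]; congr 1; push_cast; ring
    have := congrArg (cp (wC (1 : κ → ℕ)) (m + 1)) e1
    rw [cp, weightedHomogeneousComponent_of_mem (w := wC 1) q3, if_pos rfl, map_sum] at this
    refine this.trans (sum_congr rfl fun a _ => ?_)
    rw [map_smul, weightedHomogeneousComponent_of_mem (w := wC 1) (n3 _)]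
    by_cases h : n (z.symm a) = m + 1
    · rw [if_pos h, if_pos h.symm]
    · rw [if_neg h, if_neg (Ne.symm h), smul_zero, Complex.ofReal_zero, zero_smul]
  refine ⟨_, ?_, fun a h => if_neg h, e⟩
  have := (hC _ fun b => ⟨Submodule.subset_span ⟨b, rfl⟩, by simpa using C0.le⟩).1
    fun a => ((if n (z.symm a) = m + 1 then (t a).re else 0 : ℝ) : ℂ)
  simp only [Function.comp_apply, ← map_smul, ← map_sum, ← e, Sy.norm_eq, v q4 q3,
    Complex.norm_real] at this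
  exact this

theorem top_sum {R m : ℕ} {δ K : ℝ} {n : κ → ℕ} {P : κ → Pl} {t : κ → ℝ}
    (H : ∀ a, Top R (n a) δ K (pG (P a)) (Tl.px (P a)) (Tl.pa (P a))) (h : ∀ a, n a ≠ m → t a = 0)
    (A : Finset κ) : Top R m δ ((∑ a ∈ A, |t a|) * K) (pG (∑ a ∈ A, (t a : ℂ) • P a))
      (Tl.px (∑ a ∈ A, (t a : ℂ) • P a)) (Tl.pa (∑ a ∈ A, (t a : ℂ) • P a)) := by
  induction A using Finset.cons_induction with
  | empty =>
    simp only [sum_empty, map_zero, zero_mul]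
    exact ⟨continuous_const, .zero, fun _ => norm_zero.le, fun _ _ _ => rfl, fun _ _ => rfl,
      measurable_zero, fun _ _ _ _ => differentiableOn_const 0, fun _ _ _ _ => by simp⟩
  | cons a A _ ih =>
    rw [sum_cons, sum_cons]
    by_cases e : n a = m
    · have := ((e ▸ H a).smul (t a)).add ih
      rw [Complex.norm_real, norm_eq_abs] at this
      simpa only [map_add, map_smul, add_mul] using this
    · simpa only [h a e, abs_zero, Complex.ofReal_zero, zero_smul, zero_add] using ih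

end

theorem ex_prb {s d : ℕ} (hs : 2 ≤ s) (hd : d ≤ s + 2) :
    ∃ N n P R δ K M0 C0, Prb s d (N := N) n P R δ K M0 C0 := by
  obtain ⟨N, n, E, C₁, C0, hE, hC⟩ := ex_gen (Jt.Ix (s + 1) × Fin 4 × Fin 4) d
  choose f hf using ex_jet
  obtain ⟨P, hP⟩ : ∃ P : Fin N → Pl, P = fun a =>
    Tl.lf (fun q : Jt.Ix (s + 1) × Fin 4 × Fin 4 => f q.1.1 q.2.1 q.2.2) (E a) := ⟨_, rfl⟩
  have gl : ∀ a, Tl.Iv (P a) ∧ Rl (P a) ∧ 1 ≤ n a ∧ n a ≤ d ∧ (P a).IsHomogeneous (n a) :=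
    fun a => hP ▸ ⟨iv_lf (hE a).1, by rw [Rl, cj_lf, (hE a).2.1], (hE a).2.2.1, (hE a).2.2.2.1,
      hom_lf (hE a).2.2.2.2⟩
  obtain ⟨R, δ, δ0, K, K1, top⟩ := ex_top (n := fun q : Fin N × Wd.B4 => n q.1)
    (P := fun q => Tl.act q.2 (P q.1)) (fun q => (gl q.1).1.act _) fun q => hom_act (gl q.1).2.2.2.2 _
  obtain ⟨R', δ', K', F⟩ := fra hs hd
  obtain ⟨M0, -, hM⟩ := Gl.fx_of F.li F.sp
  obtain ⟨C2', hC2⟩ := (show Jt.Tm (fun r : ℝ => r) fun r => C₁ * ((Fintype.card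
      (Jt.Ix (s + 1) × Fin 4 × Fin 4) * (C2 s * (r ^ 12) ^ (s + 1)) + 1) ^ d *
        ∑ b : Ld d, nP (sm (s0 s) b.1.P)) from
    (Jt.Tm.cst _).mul ((((Jt.Tm.cst _).mul ((Jt.Tm.cst _).mul (((show Jt.Tm (fun r : ℝ => r) fun r => r from
      ⟨1, fun r hr => by rw [pow_one, abs_of_nonneg (by linarith)]⟩).pow _).pow _))).add
        (Jt.Tm.cst _)).pow _ |>.mul (Jt.Tm.cst _))).ev.exists_forall_of_atTop
  refine ⟨N, n, P, R, δ, K, 1 + M0 * (K * (8 * cG) ^ d) + M0, C2', δ0, by linarith, gl,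
    fun a g => top (a, g), fun G D C M c b J j ω l U U' i H S e1 e2 T hi ex J1 B co o u x h1 h2 x0
      a hx => ?_⟩
  have h := T.ok
  have lv := h.lv T.t hi
  have x1 := h.Xr1 C i
  have t1 := h.Xr1 12 i
  have c2 := C2_nonneg s
  obtain ⟨σ, σ1, σ2⟩ := ex_left (LinearMap.pi fun q : Jt.Ix (s + 1) × Fin 4 × Fin 4 =>
    Tl.fl (f q.1.1 q.2.1 q.2.2) ∘ₗ G.sek s b J i) (B := C2 s * G.Xr 12 i ^ (s + 1)) (by positivity)
    fun y => by
      have m := (lv.sec_Pk ex.1 hs y).1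
      nth_rw 1 [← lv.crd_sec ex.1 hs y, mul_assoc]
      refine lv.crd_le ex.1 m (wc_iff.2 fun γ μ ν => ?_)
      rw [one_pow, div_one]
      by_cases hγ : dg γ < s + 1
      · refine le_trans ?_ (norm_le_pi_norm _ (⟨γ, mem_Ix.2 hγ⟩, μ, ν))
        exact (congrArg abs (hf γ μ ν _)).ge
      · rw [show dd (Jt.Dm γ _) 0 μ ν = 0 from congrFun (cj_Pd m (not_lt.1 hγ))
          (⟨γ, mem_Ih.2 rfl⟩, μ, ν), abs_zero]
        exact norm_nonneg _
  choose τ τ1 τ2 τ3 using fun a : Ld d => hC a.1.dg (sb σ (sm (s0 s) a.1.P)) (iv_sb a.1.gl.1.sm _)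
    (by rw [Rl, cj_sb, a.1.gl.2.1.sm]) (by
      have := (hom_sm (p := s0 s) a.1.hom).aeval
        (fun q => (σ q.1).sum fun b t => (t : ℂ) • MvPolynomial.X (R := ℂ) (b, q.2)) fun q =>
          .sum _ _ 1 fun _ _ => (homogeneousSubmodule _ ℂ 1).smul_mem _ (isHomogeneous_X _ _)
      rwa [one_mul] at this) (F.top a).2
  have τ4 : ∀ a, ∑ q, |τ a q| ≤ G.Xr C i := fun a => by
    refine (τ1 a).trans (le_trans ?_ (hC2 C e1 (G.rn i) (by exact_mod_cast by linarith [h.rn9 i])))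
    have n0 : ∀ Q : Cp (Ia s), 0 ≤ nP Q := fun _ => norm_nonneg _
    gcongr
    refine (nP_sb (B := Fintype.card (Jt.Ix (s + 1) × Fin 4 × Fin 4) *
      (C2 s * G.Xr 12 i ^ (s + 1)) + 1) (by positivity) (fun a => le_add_of_le_of_nonneg
        ((sum_le_card_nsmul _ _ _ fun q _ => σ1 a q).trans_eq (nsmul_eq_mul _ _)) zero_le_one)
        (hom_sm a.1.hom)).trans ?_
    exact mul_le_mul (pow_le_pow_right₀ (le_add_of_nonneg_left (by positivity)) (F.top a).2)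
      (single_le_sum (f := fun b : Ld d => nP (sm (s0 s) b.1.P)) (fun _ _ => n0 _) (mem_univ a))
      (n0 _) (by positivity)
  have e : ∀ a : Ld d, ∑ q, (τ a q : ℂ) • P q = Tl.lf (fun a => Finsupp.linearCombination ℝ
      (fun q : Jt.Ix (s + 1) × Fin 4 × Fin 4 => f q.1.1 q.2.1 q.2.2) (σ a)) (sm (s0 s) a.1.P) :=
    fun a => by simp only [lf_sb, ← sb_sb, τ3 a, map_sum, map_smul, hP]
  have g0 := GD.cG_pos
  obtain ⟨Fx, s1⟩ := hM G D C M c b J j ω _ l U U' i R δ (G.Xr C i ^ d * K) (K * (8 * cG) ^ d)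
    (fun a => a.1.dg + 1) (fun a => Tl.lq (∑ q, (τ a q : ℂ) • P q)) H S T (h1.trans h2) hi J1 B
    (by positivity) (fun a => ⟨⟨a.1.dg.succ_pos, hom_sm a.1.hom, _,
      (top_sum (fun q => act_one (P q) ▸ top (q, 1)) (τ2 a) univ).mono le_rfl le_rfl (by
        gcongr
        exact (τ4 a).trans (le_self_pow₀ x1 (by have := (F.top a).2; omega))), fun y => by
      rw [e]
      exact (lf_lf (fun a y => by
        rw [← σ2 a y, fl_eq, Finsupp.apply_linearCombination, Finsupp.linearCombination_apply,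
          Finsupp.sum_fintype _ _ (by simp), LinearMap.sum_apply]
        rfl) a.1.gl.1.sm a.1.gl.2.1.sm (hom_sm a.1.hom)).sym y⟩, (F.top a).2⟩)
    (le_of_eq (by ring)) e2 co
  obtain ⟨t, a1, a2, a3⟩ := Fx.cmp h1 h2 le_rfl x0 a hx
  have e3 : G.fl D C i n (fun a => Tl.lq (P a)) (fun q => ∑ a, t a * τ a q) =
      G.fl D C i (fun a : Ld d => a.1.dg + 1) (fun a => Tl.lq (∑ q, (τ a q : ℂ) • P q)) t := by
    simp only [Gl.fl, Fintype.linearCombination_apply, map_sum, map_smul, sum_smul, smul_sum]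
    rw [sum_comm]
    refine sum_congr rfl fun a _ => sum_congr rfl fun q _ => ?_
    by_cases z : n q = a.1.dg + 1
    · rw [z, mul_smul, smul_comm (τ a q : ℂ)]
    · simp [τ2 a q z]
  refine ⟨fun q => ∑ a, t a * τ a q, ?_, fun r1 r2 r3 q => ?_, fun v hv => ?_⟩
  · rw [Gl.st_qt, Cok.fw_top] at a2
    calc _ ≤ ∑ q, ∑ a, ‖t a‖ * |τ a q| := sum_le_sum fun q _ => norm_sum_le_of_le _ fun a _ => by
          rw [norm_mul, Complex.norm_real, norm_eq_abs]
      _ ≤ ∑ a, ‖t a‖ * G.Xr C i := by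
          rw [sum_comm]
          exact sum_le_sum fun a _ => by rw [← mul_sum]; gcongr; exact τ4 a
      _ ≤ M * (3 * x) * G.Xr C i := by
          rw [← sum_mul]
          gcongr
          exact (s1 t).trans (mul_le_mul_of_nonneg_left a2 (by linarith [T.M1]))
      _ = _ := by ring
  · have := Fx.cmp_real r1 (Gl.qt_fr r2 fun a => by
      rw [map_sum]
      exact .sum _ fun q _ => by rw [map_smul]; exact (LqR.lq (gl q).2.1).smul (by simp))
      h1 h2 le_rfl a r3 a1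
    simp [this]
  · simp only [hv, e3, ← Gl.st_qt]
    exact ⟨a1, a3⟩

end Pool.Agent.Lib.MP_7f377f_mp.RG.Q4.En
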