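import Pool.Agent.Lib.MP_7f377f_mp.G.JvY
import Pool.Agent.Lib.MP_7f377f_mp.G.JvB
import Pool.Agent.Lib.MP_7f377f_mp.G.CaH1
import Pool.Agent.Lib.MP_7f377f_mp.G.CaH4
import Pool.Agent.Lib.MP_7f377f_mp.G.KzR
import Pool.Agent.Lib.MP_7f377f_mp.G.JuP

/-! From families of point insertions to the true centred moments. -/

noncomputable section

open Pool.Agent.Lib.MP_7f377f_mp.Jet

set_option linter.unusedSectionVars false

namespace Pool.Agent.Lib.MP_7f377f_mp.Kz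

open Finset Real

variable {κ : Type} [Fintype κ] [DecidableEq κ] {m μ e : Finset κ → ℂ} {r r' : κ → ℝ}
  {M M' X ε : ℝ} {q : (κ → ℂ) → ℂ}

/-- the moments `m` are those of `exp (∑ e T s ^ T)` up to a correction which is bounded on the
polydisc with the radii `r` -/
def Rdm (m : Finset κ → ℂ) (r : κ → ℝ) (M : ℝ) (e : Finset κ → ℂ) : Prop :=
  e ∅ = 0 ∧ ∃ q, SH r M q ∧ q 0 = 1 ∧ ∀ T, m T = jd T fun s => Complex.exp (ma univ e s) * q s

/-- the centred moment -/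
def cmo (m : Finset κ → ℂ) : ℂ := ∑ T, (∏ i ∈ Tᶜ, -m {i}) * m T

/-- the main term -/
def mtm (e : Finset κ → ℂ) : ℂ := jd univ fun s => Complex.exp (ma univ (hi e) s)

/-- the constant of the centring -/
def cCe (k : ℕ) (X M : ℝ) : ℝ := 2 * (exp (2 ^ k * X) * (2 ^ k * (M * exp (k * M))))

theorem cmo_jd (m : Finset κ → ℂ) :
    cmo m = jd univ fun s => ma univ m s * Complex.exp (∑ i, s i * -m {i}) := by
  have p : ∀ _ : κ, (0 : ℝ) < 1 := fun _ => one_pos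
  refine Eq.trans (sum_congr powerset_univ.symm fun T _ => ?_)
    (jd_mul (sh_ma p univ m) (sh_lin p univ fun i => -m {i}).exp univ).symm
  rw [jd_ma _ (subset_univ T), jd_exp_lin _ (subset_univ _), mul_comm, compl_eq_univ_sdiff]

theorem ma_sc (c : κ → ℝ) (e : Finset κ → ℂ) (s : κ → ℂ) :
    ma univ (fun T => (∏ i ∈ T, c i : ℝ) * e T) s = ma univ e ((fun i => (c i : ℂ)) * s) :=
  sum_congr rfl fun T _ => by
    simp only [mon, Pi.mul_apply, prod_mul_distrib, smul_eq_mul, Complex.ofReal_prod]; ring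

theorem cmo_sc (c : κ → ℝ) (m : Finset κ → ℂ) :
    cmo (fun T => (∏ i ∈ T, c i : ℝ) * m T) = (∏ i, c i : ℝ) * cmo m := by
  rw [cmo, cmo, mul_sum]
  refine sum_congr rfl fun T _ => ?_
  simp only [prod_singleton, ← mul_neg, prod_mul_distrib, Complex.ofReal_prod]
  rw [← prod_mul_prod_compl T]
  ring

theorem mtm_sc (c : κ → ℝ) (e : Finset κ → ℂ) :
    mtm (fun T => (∏ i ∈ T, c i : ℝ) * e T) = (∏ i, c i : ℝ) * mtm e := by
  rw [mtm, mtm, Complex.ofReal_prod, ← jd_scale]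
  refine congrArg _ (funext fun s => ?_)
  rw [← ma_sc]
  refine congrArg _ (congrFun (ma_congr fun T _ => ?_) s)
  unfold hi
  split_ifs <;> simp

omit [Fintype κ] in
theorem sh_scl (h : SH r M q) (p : ∀ i, 0 < r' i) :
    SH (fun i => r i / r' i) M fun s => q ((fun i => (r' i : ℂ)) * s) := by
  have k : ∀ i (t : ℂ), ‖t‖ < r i / r' i → ‖r' i * t‖ < r i := fun i t ht => by
    rwa [norm_mul, Complex.norm_of_nonneg (p i).le, ← lt_div_iff₀' (p i)]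
  refine ⟨fun i => div_pos (h.pos i) (p i), fun s hs i => ?_,
    fun s hs => h.bd _ fun i => k i _ (hs i)⟩
  refine ((h.hol ((fun i => (r' i : ℂ)) * s) (fun i => k i _ (hs i)) i).comp
    ((differentiable_id.const_mul (r' i : ℂ)).differentiableOn) fun t ht => mem_ball_zero_iff.2
      (k i t (mem_ball_zero_iff.1 ht))).congr fun t _ => congrArg q (funext fun j => ?_)
  by_cases u : j = i
  · subst u; simp
  · simp [u]

omit [Fintype κ] [DecidableEq κ] in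
theorem sc_le {a : ℂ} (p : ∀ i, 0 < r i) (T : Finset κ) :
    ‖(∏ i ∈ T, r i : ℝ) * a‖ ≤ X ↔ ‖a‖ ≤ X * ∏ i ∈ T, (r i)⁻¹ := by
  have := prod_pos fun i (_ : i ∈ T) => p i
  rw [prod_inv_distrib, norm_mul, Complex.norm_of_nonneg this.le, ← div_eq_mul_inv,
    le_div_iff₀' this]

theorem Rdm.pos (h : Rdm m r M e) (i : κ) : 0 < r i := h.2.choose_spec.1.pos i

theorem Rdm.zero (h : Rdm m r M e) : m ∅ = 1 := by
  obtain ⟨e0, q, -, q0, hm⟩ := h
  simp [hm, ma_zero, e0, q0]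

theorem Rdm.mono (h : Rdm m r M e) (p : ∀ i, 0 < r' i) (h1 : ∀ i, r' i ≤ r i) (h2 : M ≤ M') :
    Rdm m r' M' e :=
  let ⟨e0, q, hq, q0, hm⟩ := h
  ⟨e0, q, (hq.shrink p h1).mono h2, q0, hm⟩

/-- rescaling -/
theorem Rdm.sc (h : Rdm m r M e) (p : ∀ i, 0 < r' i) :
    Rdm (fun T => (∏ i ∈ T, r' i : ℝ) * m T) (fun i => r i / r' i) M
      fun T => (∏ i ∈ T, r' i : ℝ) * e T := by
  obtain ⟨e0, q, hq, q0, hm⟩ := h
  refine ⟨by simp [e0], _, sh_scl hq p, by simp [q0], fun T => ?_⟩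
  simp only [ma_sc]
  rw [hm, Complex.ofReal_prod, ← jd_scale]

/-- a further correction -/
theorem Rdm.mul (h : Rdm μ r M e) (hq : SH r M' q) (q0 : q 0 = 1)
    (hm : ∀ T, m T = jd T fun s => ma univ μ s * q s) : Rdm m r (M * M') e := by
  obtain ⟨e0, z, hz, z0, e1⟩ := h
  refine ⟨e0, _, hz.mul hq, by simp [z0, q0], fun T => (hm T).trans ?_⟩
  simpa only [Pi.mul_apply, mul_assoc] using ((Eqv.mk (A := univ) ⟨_, sh_ma hz.pos univ μ⟩
    ⟨_, (sh_ma hz.pos univ e).exp.mul hz⟩ fun T hT => (jd_ma _ hT).trans (e1 T)).mul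
      (Hb.refl ⟨_, hq⟩)).eq T (subset_univ T)

theorem Rdm.one (h : Rdm m r M e) (i : κ) : ‖m {i} - e {i}‖ ≤ M / r i := by
  obtain ⟨e0, q, hq, q0, hm⟩ := h
  have := (hm {i}).trans (jd_mul_one (sh_ma hq.pos univ e).exp hq i)
  simp only [jd_single i fun s => Complex.exp _, ma_single (mem_univ i), ma_zero, e0, q0] at this
  rw [show m {i} - e {i} = jd {i} q by simp at this; linear_combination this]
  simpa using hq.jd_le {i}

theorem mtm_le (p : ∀ i, 0 < r i) (X0 : 0 ≤ X)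
    (he : ∀ T, 2 ≤ T.card → ‖e T‖ ≤ X * ∏ i ∈ T, (r i)⁻¹) :
    ‖mtm e‖ ≤ exp (2 ^ Fintype.card κ * X) * ∏ i, (r i)⁻¹ := by
  rw [← sc_le p, ← mtm_sc]
  simpa only [mtm, one_pow, mul_one] using (sh_ma_le one_pos (hi_le
    (e := fun T => (∏ i ∈ T, r i : ℝ) * e T)
    (fun T hT => by rw [one_pow, mul_one, sc_le p]; exact he T hT) X0 one_pos)).exp.jd_pow univ

/-- the centred moment is the main term -/
theorem Rdm.cen (h : Rdm m (fun i => r i / ε) M e) (ε0 : 0 < ε) (ε1 : ε < 1) (X0 : 0 ≤ X)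
    (he : ∀ T, 2 ≤ T.card → ‖e T‖ ≤ X * ∏ i ∈ T, (r i)⁻¹) :
    ‖cmo m - mtm e‖ ≤ cCe (Fintype.card κ) X M * (ε * ∏ i, (r i)⁻¹) := by
  have p : ∀ i, 0 < r i := fun i => (div_pos_iff_of_pos_right ε0).1 (h.pos i)
  obtain ⟨e0, q, hq, q0, hm⟩ := (h.sc p).mono (r' := fun _ => ε⁻¹) (fun _ => inv_pos.2 ε0)
    (fun i => by rw [div_right_comm, div_self (p i).ne', one_div]) le_rfl
  have := (Eqv.mk ⟨_, sh_ma hq.pos univ _⟩ ⟨_, (sh_ma hq.pos univ _).exp.mul hq⟩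
    fun T hT => (jd_ma _ hT).trans (hm T)).mul (Hb.refl (A := univ) ⟨_, (sh_lin hq.pos univ
      fun i => -((∏ i ∈ {i}, r i : ℝ) * m {i})).exp⟩)
  rw [← mul_assoc, ← sc_le p, mul_sub, ← cmo_sc, ← mtm_sc, cmo_jd, this.eq _ Subset.rfl]
  exact (centre_le e0 hq q0 (fun i => by rw [← hm]; ring) ε0 one_pos (mul_one _).ge ε1
    (fun T hT => by rw [one_pow, mul_one, sc_le p]; exact he T hT) X0).trans_eq
      (by rw [one_pow, mul_one, cCe])

/-- comparison of the main terms -/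
theorem mtm_cmp {e' : Finset κ → ℂ} (p : ∀ i, 0 < r i) (ε0 : 0 < ε) (ε1 : ε < 1)
    (he : ∀ T, 2 ≤ T.card → ‖e' T‖ ≤ ∏ i ∈ T, (r i)⁻¹ ∧ ‖e T - e' T‖ ≤ ε * ∏ i ∈ T, (r i)⁻¹) :
    ‖mtm e - mtm e'‖ ≤ 2 * exp (2 ^ Fintype.card κ * (2 ^ Fintype.card κ + 1)) *
      (ε * ∏ i, (r i)⁻¹) := by
  rw [← mul_assoc, ← sc_le p, mul_sub, ← mtm_sc, ← mtm_sc]
  simpa only [mtm, one_pow, mul_one, one_mul] using hi_cmp (γ := 1)
    (e := fun T => (∏ i ∈ T, r i : ℝ) * e T) (e' := fun T => (∏ i ∈ T, r i : ℝ) * e' T)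
    one_pos ε0 ε1 (by simp) fun T hT => by
      simp only [one_pow, mul_one, one_mul, ← mul_sub, sc_le p]
      exact he T hT

end Pool.Agent.Lib.MP_7f377f_mp.Kz

variable [Pool.Agent.Lib.MP_7f377f_mp.GD]

namespace Pool.Agent.Lib.MP_7f377f_mp.RG.Q4.En

open Finset Function Real Sg Br YM7 MeasureTheory Mx Kz
open Ob (arr)
open scoped Classical

attribute [local irreducible] box lbox tb tau rc

variable {ι κ : Type} [Fintype ι] [DecidableEq ι] [Fintype κ] [DecidableEq κ] {n : ℕ} {b : ℝ}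

/-- rescaling of the variables -/
def scl (c : ι → ℝ) (s : ι → ℂ) : ι → ℂ := (fun i => (c i : ℂ)) * s

/-- the rescaled family -/
def Fy.scv (Y : Fy ι) (c : ι → ℝ) : Fy ι :=
  ⟨fun s => Y.ψ (scl c s), fun s => Y.K (scl c s), fun s => Y.E (scl c s), Y.Z⟩

/-- `X` extends the bounded measurable observables `O` of the torus -/
def Xm (n : ℕ) (X : ι → Conf → ℂ) (O : ι → Cfg n → ℝ) : Prop :=
  ∀ q, GI n (X q) ∧ ∀ U, Per n U → X q U = O q (Fi.rs n U)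

/-- the reference moments: the jets at the flat field -/
def rmo (f : (ι → ℂ) → Conf → ℂ) (T : Finset ι) : ℂ := jd T (f · 1) / f 0 1

/-- the corner of a cell -/
def czl {m : ℕ} (lam : ℕ) (x : Weak.Site 4 m) : St := fun l => (lam * (x l).val : ℕ)

section scl
omit [GD] [Fintype ι]

omit [DecidableEq ι] in
theorem scl_zero (c : ι → ℝ) : scl c 0 = 0 := mul_zero _

theorem scl_upd (c : ι → ℝ) (s : ι → ℂ) (i : ι) (t : ℂ) :
    scl c (update s i t) = update (scl c s) i (c i * t) := funext fun j => by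
  by_cases h : j = i <;> simp [h, scl]

omit [DecidableEq ι] in
theorem scl_mem {r r' : ι → ℝ} (p : ∀ i, 0 < r' i) {s : ι → ℂ} (hs : s ∈ Pd fun i => r i / r' i) :
    scl r' s ∈ Pd r := fun i => by
  simpa only [scl, Pi.mul_apply, norm_mul, Complex.norm_real, Real.norm_of_nonneg (p i).le,
    ← lt_div_iff₀' (p i)] using hs i

theorem jd_scl (c : ι → ℝ) (g : (ι → ℂ) → ℂ) (T : Finset ι) :
    jd T (fun s => g (scl c s)) = (∏ i ∈ T, c i : ℝ) * jd T g := by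
  rw [Complex.ofReal_prod]; exact jd_scale _ g T

omit [DecidableEq ι] in
theorem ma_scl {V : Type} [AddCommMonoid V] [Module ℂ V] (A : Finset ι) (c : ι → ℝ)
    (a : Finset ι → V) (s : ι → ℂ) :
    ma A a (scl c s) = ma A (fun T => ((∏ i ∈ T, c i : ℝ) : ℂ) • a T) s :=
  sum_congr rfl fun T _ => by simp [mon, scl, prod_mul_distrib, smul_smul, mul_comm]

end scl

omit [Fintype ι] in
theorem hd_scl {r r' : ι → ℝ} {f : (ι → ℂ) → Conf → ℂ} (h : HD r f) (p : ∀ i, 0 < r' i) :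
    HD (fun i => r i / r' i) fun s => f (scl r' s) :=
  ⟨h.1.imp fun _ a U => sh_scl (a U) p, fun _ hs => h.2 _ (scl_mem p hs)⟩

omit [Fintype ι] in
theorem jL_scl (c : ι → ℝ) (ψ : (ι → ℂ) → Lx) (T : Finset ι) :
    jL T (fun s => ψ (scl c s)) = ((∏ i ∈ T, c i : ℝ) : ℂ) • jL T ψ := by
  ext v B; exact jd_scl c (ψ · v B) T

omit [Fintype ι] in
theorem jA_scl (c : ι → ℝ) (K : (ι → ℂ) → Ac) (T : Finset ι) :
    jA T (fun s => K (scl c s)) = ((∏ i ∈ T, c i : ℝ) : ℂ) • jA T K := by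
  ext X a U; exact jd_scl c (K · X a U) T

theorem rmo_scl (c : ι → ℝ) (f : (ι → ℂ) → Conf → ℂ) :
    rmo (fun s => f (scl c s)) = fun T => (∏ i ∈ T, c i : ℝ) * rmo f T := funext fun T => by
  rw [rmo, rmo, scl_zero, ← mul_div_assoc, ← jd_scl]

theorem Xo.xm {X : ι → Conf → ℂ} {O : ι → Cfg n → ℝ} (e : Xo n X O) : Xm n X O :=
  fun q => ⟨(e q).1, (e q).2.2⟩

theorem Xm.bm [NeZero n] {X : ι → Conf → ℂ} {O : ι → Cfg n → ℝ} (e : Xm n X O) (hn : Odd n)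
    (q : ι) : Weak.BM (O q) := by
  have _ := hn
  have k : O q = fun U => (X q (Fi.lf U)).re := funext fun U => by
    rw [(e q).2 _ (by rw [← Fi.rs_lf U, Fi.lf_rs]; exact per_pc n _), Fi.rs_lf, Complex.ofReal_re]
  obtain ⟨g1, ⟨M, g2⟩, -⟩ := (e q).1
  rw [k]
  exact ⟨Complex.measurable_re.comp (g1.comp Fi.meas_lf), M,
    fun U => (Complex.abs_re_le_norm _).trans (g2 _)⟩

/-- arrays of translates -/
theorem xm_arr [NeZero n] {m lam : ℕ} [NeZero m] {X : Weak.Site 4 m × κ → Conf → ℂ}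
    {X0 : Weak.Site 4 m → κ → Conf → ℂ} {O : Weak.Site 4 m → κ → Cfg n → ℝ}
    (e : ∀ c, Xm n (X0 c) (O c)) (g : ∀ q, GI n (X q))
    (hX : ∀ c a U, Per n U → X (c, a) U = X0 c a (sh (czl lam c) U)) : Xm n X (arr lam O) := by
  refine fun q => ⟨g q, fun U hU => ?_⟩
  rw [hX q.1 q.2 U hU, (e q.1 q.2).2 _ (per_sh' hU _), rs_sh hU, arr]
  congr 3
  funext l
  simp [Fi.cst, czl, Weak.corner]

/-- the true centred moment -/
theorem cmo_ex [NeZero n] {O : κ → Cfg n → ℝ} (hO : ∀ a, Weak.BM (O a)) :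
    cmo (Ob.mo (YM7.ex (Fi.tr haar) b n) O) = YM7.ex (Fi.tr haar) b n fun U =>
      ∏ a, (O a U - YM7.ex (Fi.tr haar) b n (O a)) := by
  rw [cmo_jd, ← int_jd' hO (sh_lin (fun _ => one_pos) univ _).exp, YM7.ex,
    ← integral_complex_ofReal]
  refine congrArg _ (funext fun U => ?_)
  simp only [← Complex.exp_add, ← sum_add_distrib, ← mul_add]
  rw [jd_exp_lin _ Subset.rfl, Complex.ofReal_prod]
  exact prod_congr rfl fun i _ => by simp [Ob.mo, sub_eq_add_neg]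

/-- null observables do not change the moments -/
theorem mo_null [NeZero n] {O O' : ι → Cfg n → ℝ} (hO : ∀ a, Weak.BM (O a))
    (hO' : ∀ a, Weak.BM (O' a)) (e : ∀ a (S S' : Finset ι), a ∉ S → a ∉ S' → Disjoint S S' →
      (YM7.ex (Fi.tr haar) b n fun U =>
        (O a U - O' a U) * ((∏ i ∈ S, O i U) * ∏ i ∈ S', O' i U)) = 0) :
    Ob.mo (YM7.ex (Fi.tr haar) b n) O = Ob.mo (YM7.ex (Fi.tr haar) b n) O' := by
  have k : ∀ S S' : Finset ι, Disjoint S S' → (YM7.ex (Fi.tr haar) b n fun U =>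
      (∏ i ∈ S, O i U) * ∏ i ∈ S', O' i U) = YM7.ex (Fi.tr haar) b n fun U =>
      ∏ i ∈ S ∪ S', O' i U := fun S => by
    induction S using Finset.induction_on with
    | empty => simp
    | insert a S ha ih =>
      intro S' d
      obtain ⟨d1, d2⟩ := disjoint_insert_left.1 d
      have b1 := (Weak.BM.prod S hO).mul (Weak.BM.prod S' hO')
      have := e a S S' ha d1 d2
      simp only [sub_mul, YM7.ex] at this
      rw [integral_sub (((hO a).mul b1).int _) (((hO' a).mul b1).int _), sub_eq_zero] at this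
      rw [insert_union, ← union_insert, ← ih _ (disjoint_insert_right.2 ⟨ha, d2⟩)]
      simp only [prod_insert ha, prod_insert d1, mul_assoc, YM7.ex, this, mul_left_comm]
  funext T
  simpa [Ob.mo] using k T ∅ (disjoint_empty_right T)

namespace Gl

variable (G : Gl) (b) (J : ℕ)

/-- the densities `f` at level `j` have the moments `m` -/
structure Dnm (j : ℕ) (m : Finset ι → ℂ) (f : (ι → ℂ) → Conf → ℂ) : Prop where
  hd : ∀ r : ι → ℝ, (∀ i, 0 < r i) → HD r f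
  gi : ∀ s, GI (G.N j) (f s)
  z : f 0 = G.f b J j
  mo : ∀ T, m T = jd T (fun s => ∫ U, f s (pc (G.N j) U) ∂PP) / ∫ U, f 0 (pc (G.N j) U) ∂PP

/-- `O` is a letter at the top plus the lift of a local function of the field of level `k` -/
structure Xp (k : ℕ) (Y C : ι → Conf → ℂ) (V : ι → Finset St) (O : ι → Cfg (G.N J) → ℝ) :
    Prop where
  gY : ∀ q, GI (G.N J) (Y q)
  gC : ∀ q, GI (G.N k) (C q)
  lf : ∀ q, Mg.LF (G.N k) (V q) fun U => C q (pc (G.N k) U)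
  dis : ∀ q q', q ≠ q' → Disjoint (tb (G.N k) 2 (V q)) (tb (G.N k) 2 (V q'))
  eq : ∀ q U, Per (G.N J) U → Y q U + G.ta (C q) J k U = O q (Fi.rs _ U)

/-- the reference moments of the insertions -/
def mpa (k j : ℕ) (Y C : ι → Conf → ℂ) : Finset ι → ℂ := rmo fun s => G.tt (G.pq b J k Y C s) k j

/-- separated small slots at level `l`, with individual radii -/
def Slv (l : ℕ) (f : (ι → ℂ) → Conf → ℂ) (r : ι → ℝ) (W : ι → Finset St) : Prop :=
  ∃ Y r0, G.Fd l (G.zz b J l) univ r0 r (G.Q l ^ 329)⁻¹ Y f ∧ Y.bs = (G.zz b J l).d ∧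
    Y.Ec univ id ∧ ∀ q, Y.Z q ⊆ G.zs (W q) J l ∧ ∃ N, G.Q l ^ 273 * (r q * N) ≤ G.bb l ∧
      G.Sz l N N (G.Q l ^ 100)⁻¹ (Y.jt {q}).1 (Y.jt {q}).2

omit b J in
/-- the family `Y` represents `f` at level `j` on the polydisc with the radii `r` -/
def Fog (j : ℕ) (f : (ι → ℂ) → Conf → ℂ) (r : ι → ℝ) (N : ℝ) (Y : Fy ι) : Prop :=
  ∃ J' z r0 θ β, G.Tz J' j z ∧ G.Fd j z univ r0 r θ Y f ∧ RealP (G.p j) (Y.ψ 0) ∧ RealA (Y.K 0) ∧
    (∀ s ∈ Pd r, PU (G.p j) β (Y.ψ s)) ∧ G.Q j ^ 100 * β ≤ 1 ∧ G.Q j ^ 100 * θ ≤ 1 ∧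
    ∀ i, (Y.Z i).card ≤ N

/-- the slots at level `l` form the groups `cl` at level `j` -/
def Slg {γ : Type} [DecidableEq γ] (l j c : ℕ) (N : ℝ) (cl : ι → γ) (f : (ι → ℂ) → Conf → ℂ)
    (r : ι → ℝ) : Prop := ∃ W, G.Slv b J l f r W ∧ G.Geo univ cl c W J l j ∧
  ∀ x, (G.zs (W x) J j).card ≤ N

/-- the arrays of the mirror images -/
def Arf (l j c m u : ℕ) [NeZero m] [NeZero (G.N J)] (N : ℝ)
    (O : (Fin 4 → Bool) → κ → Cfg (G.N J) → ℝ) (μ : (Fin 4 → Bool) → Finset κ → ℝ)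
    (r : κ → ℝ) : Prop := ∀ e : Weak.Site 4 m → Fin 4 → Bool, ∃ f,
  G.Dnm b J l (Ob.mo (YM7.ex (Fi.tr haar) b (G.N J)) (arr (G.rt J j * u) fun x => O (e x))) f ∧
    G.Slg b J l j c N Prod.fst f (fun q => r q.2) ∧
    ∀ x T, rmo (fun s => G.tt (f s) l j) (T.image (Prod.mk x)) = μ (e x) T

omit b J in
/-- the constant of the reduction -/
def kArf (j u k : ℕ) (N : ℝ) : ℝ := kR k (cJ / G.g j * u ^ 4 + k * N)

variable {G b J} {A i j k l c d : ℕ} {m : Finset ι → ℂ} {f : (ι → ℂ) → Conf → ℂ}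
  {r r' r0 : ι → ℝ} {θ N : ℝ} {Y : Fy ι} {z : En.Z} {W V : ι → Finset St} {X C : ι → Conf → ℂ}

theorem Dnm.sc (e : G.Dnm b J j m f) (p : ∀ i, 0 < r i) :
    G.Dnm b J j (fun T => (∏ i ∈ T, r i : ℝ) * m T) fun s => f (scl r s) := by
  have z : scl r 0 = 0 := mul_zero _
  refine ⟨fun r' p' => ?_, fun s => e.gi _, by rw [z, e.z], fun T => ?_⟩
  · obtain ⟨⟨M, a⟩, -⟩ := e.hd (fun i => r' i * r i) fun i => mul_pos (p' i) (p i)
    refine ⟨⟨M, fun U => ?_⟩, fun s _ => (e.gi _).1⟩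
    simpa only [mul_div_cancel_right₀ _ (p _).ne'] using (show SH _ M fun s => f (scl r s) U from
      sh_scl (a U) p)
  · rw [e.mo, z, Complex.ofReal_prod, ← mul_div_assoc, ← jd_scale]
    rfl

theorem Slv.mono (e : G.Slv b J l f r W) (h : G.Ok) (p : ∀ q, 0 < r' q) (h1 : ∀ q, r' q ≤ r q) :
    G.Slv b J l f r' W := by
  obtain ⟨Y, r0, e, e1, e2, e3⟩ := e
  refine ⟨Y, r0, e.mono p h1 le_rfl, e1, e2, fun q => ⟨(e3 q).1, (e3 q).2.imp fun N a =>
    ⟨le_trans ?_ a.1, a.2⟩⟩⟩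
  have := h.Q0 l
  have := (h.sz_nn a.2).1
  have := h1 q
  gcongr

theorem Fg.fog {w : ℝ} (e : G.Fg j univ f w N Y) (w0 : 0 < w) : G.Fog j f (fun _ => w⁻¹) N Y :=
  let ⟨J', z, r0, _, θ, β, t, e, a1, a2, a3, a4, a5, a6⟩ := e
  ⟨J', z, r0, θ, β, t, e.mono (fun _ => inv_pos.2 w0) (fun i => (a6 i).1) le_rfl, a1, a2,
    fun s hs => a3 s fun i => (hs i).trans_le (a6 i).1, a4, a5, fun i => (a6 i).2⟩

theorem jd_pq (T : Finset ι) (U : Conf) : jd T (G.pq b J k X C · U) = G.pa b J k X C T U :=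
  jd_ma _ (subset_univ T)

omit [GD] in
theorem czl_mul {m : ℕ} (a u : ℕ) (x : Weak.Site 4 m) : czl (a * u) x = (a : ℤ) • czl u x :=
  funext fun l => by simp [czl, mul_assoc]

theorem pq_zero (hk : k ≤ J) (hX : ∀ q, GI (G.N J) (X q)) :
    G.pq b J k X 0 = fun s => G.tt (pr b (G.N J) X s) J k := by
  refine funext₂ fun s W => ?_
  have a : ∀ T : Finset ι, BC fun U => mon T s * ((∏ q ∈ T, X q U) * wil b (G.N J) U) := fun T =>
    gi_bc ((GI.const _ _).mul ((GI.prod fun q _ => hX q).mul (gi_wil _)))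
  rw [show pr b (G.N J) X s = _ from funext fun U => congrFun (pr_eq U) s]
  simp only [pq, ma, smul_eq_mul, (tt_fsum (fun T _ => a T) hk).2, tt_mul _ _ hk]
  refine sum_congr rfl fun T _ => congrArg _ ?_
  rw [sum_eq_single_of_mem ∅ (empty_mem_powerset T) fun N _ e => by
    simp [nonempty_iff_ne_empty.2 e |>.card_pos.ne'], prod_empty, one_mul, sdiff_empty]

theorem mpa_pr (hk : k ≤ J) (hj : j ≤ k) (hX : ∀ q, GI (G.N J) (X q)) :
    G.mpa b J k j X 0 = rmo fun s => G.tt (pr b (G.N J) X s) J j := by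
  simp only [mpa, pq_zero hk hX, tt_tt hk j hj]

namespace Ok

variable (h : G.Ok)
include h

theorem fd_sc {B : Finset ι} (e : G.Fd j z B r0 r θ Y f) (p : ∀ i, 0 < r' i) :
    G.Fd j z B (fun i => r0 i / r' i) (fun i => r i / r' i) θ (Y.scv r') fun s => f (scl r' s) := by
  have F := e.fi
  refine ⟨⟨fun i => div_pos (F.pos i) (p i), funext fun s => ?_, funext fun s => ?_, fun T hT => ?_,
    ⟨fun i v hv s t => ?_, fun i X c hX s t => ?_⟩,
    F.km.imp fun _ a => ⟨a.1, fun s hs => a.2 _ (scl_mem p hs)⟩⟩, funext fun s => ?_,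
    hd_scl e.eq.fst p, hd_scl e.eq.snd p, fun U hU T hT => ?_⟩
  · simp only [Fy.scv, jL_scl, ← ma_scl, ← congrFun F.psi]
  · simp only [Fy.scv, jA_scl, ← ma_scl, ← congrFun F.act]
  · obtain ⟨_, ⟨_, _, _, a⟩, -⟩ := F.pu T hT
    rw [Fy.scv, jL_scl]
    exact ⟨_, pu_of_pm fun v => ⟨((a v).1.smul (h.ρ0 j) _).1, (a v).2.const_mul _⟩⟩
  · simp only [Fy.scv, scl_upd]; exact F.loc.psi i v hv _ _
  · simp only [Fy.scv, scl_upd]; exact F.loc.act i X c hX _ _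
  · simp only [Fy.scv, jd_scl, ← smul_eq_mul, ← ma_scl, ← congrFun e.ma]
  · exact (jd_scl r' (f · U) T).trans ((congrArg _ (e.eq.eq U hU T hT)).trans (jd_scl r' _ T).symm)

/-! ### Densities -/

theorem tt_im {g : Conf → ℂ} (e : ∀ U, Per (G.N J) U → (g U).im = 0) (hk : k ≤ J) {U : Conf}
    (hU : Per (G.N k) U) : (G.tt g J k U).im = 0 := by
  rw [h.tt_congr (g := fun U => (g U).re) (fun U hU => (Complex.conj_eq_iff_re.1
    (Complex.conj_eq_iff_im.2 (e U hU))).symm) hk U hU]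
  exact tt_real (fun _ => rfl) hk U

theorem pq_nil (hk : k ≤ J) : G.pq b J k X C 0 = G.f b J k :=
  (funext fun _ => ma_zero).trans (h.pa_zero hk)

theorem gi_pq (hk : k ≤ J) (hX : ∀ q, GI (G.N J) (X q)) (hC : ∀ q, GI (G.N k) (C q)) (s : ι → ℂ) :
    GI (G.N k) (G.pq b J k X C s) :=
  GI.sum fun T _ => (GI.const _ _).mul (h.gi_pa hk hX hC T)

theorem hd_pq (hk : k ≤ J) (hX : ∀ q, GI (G.N J) (X q)) (hC : ∀ q, GI (G.N k) (C q))
    (p : ∀ i, 0 < r i) : HD r (G.pq b J k X C) := by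
  choose M hM using fun T => (h.gi_pa (b := b) hk hX hC T).2.1
  exact ⟨⟨∑ S ∈ univ.powerset, (∏ i ∈ S, r i) * M S, fun U => (sh_ma p _ _).mono (sum_le_sum
    fun S _ => mul_le_mul_of_nonneg_left (hM S U) (prod_nonneg fun i _ => (p i).le))⟩,
    fun s _ => (h.gi_pq hk hX hC s).1⟩

theorem dn_tt (e : G.Dnm b J k m f) (hk : k ≤ J) (hj : j ≤ k) :
    G.Dnm b J j m fun s => G.tt (f s) k j := by
  refine ⟨fun r p => tt_hd (e.hd r p) hj, fun s => (h.int_tt (e.gi s) hj).1, ?_, fun T => ?_⟩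
  · rw [e.z, h.f_tt b hk, tt_tt hk j hj, h.f_tt b (hj.trans hk)]
  · simp only [(h.int_tt (e.gi _) hj).2, e.mo]

section
variable [NeZero (G.N J)] {O : ι → Cfg (G.N J) → ℝ}

theorem mo_int (e : Xm (G.N J) X O) (T : Finset ι) :
    Ob.mo (YM7.ex (Fi.tr haar) b (G.N J)) O T = (∫ U, wil b (G.N J) (pc (G.N J) U) *
      ∏ q ∈ T, X q (pc (G.N J) U) ∂PP) / ∫ U, (wil b (G.N J) (pc (G.N J) U) : ℂ) ∂PP := by
  rw [Ob.mo, Br.ex_eq (h.N_odd J) b (O := fun U => ∏ i ∈ T, O i U)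
    (Finset.measurable_prod _ fun i _ => (e.bm (h.N_odd J) i).1)]
  simp only [fun q U => (e q).2 _ (per_pc _ U), Fi.rs_pc, ← Complex.ofReal_prod,
    ← Complex.ofReal_mul, integral_complex_ofReal, Complex.ofReal_div, mul_comm]

theorem dn_pr (e : Xm (G.N J) X O) (hj : j ≤ J) : G.Dnm b J j (Ob.mo (YM7.ex (Fi.tr haar) b (G.N J)) O)
    fun s => G.tt (pr b (G.N J) X s) J j := by
  have g := fun q => (e q).1
  have a := pr_hd (b := b) g (r := fun _ => 1) fun _ => one_pos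
  refine h.dn_tt ⟨fun r p => pr_hd g p, pr_gi g, by rw [pr_zero, f_top], fun T => ?_⟩ le_rfl hj
  rw [jd_int PP a.pos (fun U => a.1.choose_spec (pc _ U)) fun s hs => (a.2 s hs).comp Fi.meas_pc,
    h.mo_int e]
  simp only [pr_eq, jd_ma _ (subset_univ T), pr_zero, mul_comm]

theorem xp_xm (e : G.Xp J k X C V O) (hk : k ≤ J) :
    Xm (G.N J) (fun q U => X q U + G.ta (C q) J k U) O := by
  exact fun q => ⟨(e.gY q).add (h.gi_ta hk e.gY e.gC e.lf q), e.eq q⟩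

theorem dn_pa (e : G.Xp J k X C V O) (hk : k ≤ J) :
    G.Dnm b J k (Ob.mo (YM7.ex (Fi.tr haar) b (G.N J)) O) (G.pq b J k X C) := by
  have a := fun r p => h.hd_pq (b := b) (r := r) hk e.gY e.gC p
  have c := a (fun _ => 1) fun _ => one_pos
  refine ⟨a, h.gi_pq hk e.gY e.gC, h.pq_nil hk, fun T => ?_⟩
  rw [jd_int PP c.pos (fun U => c.1.choose_spec (pc _ U)) fun s hs => (c.2 s hs).comp Fi.meas_pc,
    h.mo_int (h.xp_xm e hk), h.pq_nil hk, h.f_tt b hk, (h.int_tt (gi_wil _) hk).2,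
    ← h.pa_int hk e.gY e.gC e.lf e.dis]
  simp only [jd_pq]

/-- without insertions the reference moments are those of the local mean -/
theorem rmo_pr (b0 : 0 ≤ b) (e : Xm (G.N J) X O) (hj : j ≤ J) :
    rmo (fun s => G.tt (pr b (G.N J) X s) J j) = Ob.mo (G.al b J j) O := by
  funext T
  rw [rmo, Ob.mo, h.al_eq b0 _ hj,
    jd_tt (pr_hd (fun q => (e q).1) (r := fun _ => 1) fun _ => one_pos) hj, pr_zero, h.f_tt b hj,
    h.tt_congr (fun U hU => ?_) hj 1 fun _ => rfl]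
  rw [pr_eq, jd_ma _ (subset_univ T), prod_congr rfl fun q _ => (e q).2 U hU]
  push_cast
  rfl

end

section
variable (hk : k ≤ J) (hj : j ≤ k) (hX : ∀ q, GI (G.N J) (X q)) (hC : ∀ q, GI (G.N k) (C q))
include hk hj hX hC

theorem mpa_eq (T : Finset ι) :
    G.mpa b J k j X C T = G.tt (G.pa b J k X C T) k j 1 / G.f b J j 1 := by
  rw [mpa, rmo, jd_tt (h.hd_pq hk hX hC (r := fun _ => 1) fun _ => one_pos) hj, h.pq_nil hk,
    h.f_tt b hk, tt_tt hk j hj, h.f_tt b (hj.trans hk)]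
  simp only [jd_pq]

theorem mpa_real (b0 : 0 ≤ b) (rX : ∀ q U, Per (G.N J) U → (X q U).im = 0)
    (rC : ∀ q U, Per (G.N k) U → (C q U).im = 0) (T : Finset ι) :
    ((G.mpa b J k j X C T).re : ℂ) = G.mpa b J k j X C T := by
  have i : ∀ {Z : ι → ℂ} (N : Finset ι), (∀ q, (Z q).im = 0) → (∏ q ∈ N, Z q).im = 0 := fun N a =>
    prod_induction _ (fun z : ℂ => z.im = 0) (fun _ _ u v => by simp [u, v]) rfl fun q _ => a q
  have a := h.tt_im (g := G.pa b J k X C T) (fun U hU => by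
    rw [pa, Complex.im_sum]
    refine sum_eq_zero fun N _ => ?_
    rw [Complex.mul_im, i N fun q => rC q U hU, h.tt_im (fun U hU => by
      simp [i _ fun q => rX q U hU]) hk hU, mul_zero, zero_mul, add_zero]) hj (U := 1) fun _ => rfl
  refine Complex.conj_eq_iff_re.1 (Complex.conj_eq_iff_im.2 ?_)
  simp [h.mpa_eq hk hj hX hC, Complex.div_im, a, (((h.f_facts J j).1 b b0).2.2 1).1]

/-- translation by a block of level `j` and restriction to some of the slots -/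
theorem mpa_sh {e : κ → ι} (he : Injective e) {X0 C0 : κ → Conf → ℂ}
    (gX : ∀ q, GI (G.N J) (X0 q)) (gC : ∀ q, GI (G.N k) (C0 q)) (v : St)
    (eX : ∀ a U, Per (G.N J) U → X (e a) U = X0 a (sh ((G.rt J j : ℤ) • v) U))
    (eC : ∀ a U, Per (G.N k) U → C (e a) U = C0 a (sh ((G.rt k j : ℤ) • v) U)) (T : Finset κ) :
    G.mpa b J k j X C (T.image e) = G.mpa b J k j X0 C0 T := by
  have r : ∀ {i j}, j ≤ i → G.N i / G.N j = G.rt i j := fun a => h.N_div a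
  have r' : (G.rt J k : ℤ) • (G.rt k j : ℤ) • v = (G.rt J j : ℤ) • v := by
    have := h.sch.mono.monotone hk
    have := h.sch.mono.monotone hj
    rw [smul_smul, ← Nat.cast_mul, rt, rt, rt, ← pow_add, show G.e J - G.e k + (G.e k - G.e j) =
      G.e J - G.e j by omega]
  rw [h.mpa_eq hk hj hX hC, h.mpa_eq hk hj gX gC, show G.tt (G.pa b J k X0 C0 T) k j 1 = _ from
    h.tt_sh (h.gi_pa hk gX gC T).1 hj (W := 1) (fun _ => rfl) v,
    h.tt_congr (fun U hU => ?_) hj 1 fun _ => rfl]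
  rw [pa, pa, powerset_image, sum_image (image_injective he).injOn]
  refine sum_congr rfl fun N _ => ?_
  rw [h.tt_sh ((GI.prod fun q _ => gX q).mul (gi_wil _)).1 hk hU, r hk, r hj, r',
    prod_image he.injOn, prod_congr rfl fun q _ => eC q U hU,
    h.tt_congr (fun U hU => ?_) hk U hU]
  rw [← image_sdiff _ _ he, prod_image he.injOn, prod_congr rfl fun q _ => eX q U hU,
    wil_sh (h.N_odd J) hU]

end

theorem mpa_zero (b0 : 0 ≤ b) (hk : k ≤ J) (hj : j ≤ k) (hX : ∀ q, GI (G.N J) (X q))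
    (hC : ∀ q, GI (G.N k) (C q)) : G.mpa b J k j X C ∅ = 1 := by
  rw [h.mpa_eq hk hj hX hC, h.pa_zero hk, h.f_tt b hk, tt_tt hk j hj, ← h.f_tt b (hj.trans hk)]
  exact div_self fun e => by simpa [e] using (((h.f_facts J j).1 b b0).2.2 1).2

/-! ### Families -/

/-- the moments at the flat field -/
theorem al_fd {J' : ℕ} (t : G.Tz J' j z) (e : G.Fd j z univ r0 r θ Y f)
    (hθ : G.Q j ^ 100 * θ ≤ 1) (hN : ∀ i, (Y.Z i).card ≤ N) :
    ∃ q : (ι → ℂ) → ℂ, q 0 = 1 ∧ (∀ T, rmo f T =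
      jd T fun s => Complex.exp (ma univ (ce Y.E) s) * q s) ∧ ∀ B : Finset ι,
      SH r (exp (B.card * N)) (fun s => q (cutS B s)) ∧ ∃ y,
      SH r (exp (B.card * N)) y ∧ ∀ s ∈ Pd r, y s * q (cutS B s) = 1 := by
  have a := e.eq.eqv (U := 1) fun _ => rfl
  simp only [h.fd_flat t e] at a
  have n0 := h.fd_ne t e hθ (zero_mem e.fi.pos)
  refine ⟨_, div_self n0, Ob.mo_eqv (fun T => rfl) a e.ma, fun B => ?_⟩
  have θ0 := e.fi.km.choose_spec.1.nonneg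
  have c : exp (4 * θ * (B.biUnion Y.Z).card) ≤ exp (B.card * N) := by
    have a1 : ((B.biUnion Y.Z).card : ℝ) ≤ B.card * N := (Nat.cast_le.2 card_biUnion_le).trans (by
      rw [Nat.cast_sum, ← nsmul_eq_mul]; exact sum_le_card_nsmul _ _ _ fun i _ => hN i)
    have a2 := mul_le_mul_of_nonneg_right ((h.cQ j (C := 4) (by norm_num)).trans
      (le_self_pow₀ (h.Q1 j) (n := 100) (by norm_num))) θ0
    exact exp_le_exp.2 ((mul_le_of_le_one_left (by positivity) (a2.trans hθ)).trans a1)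
  obtain ⟨u, v⟩ := h.fd_ratio t e hθ B
  refine ⟨u.mono c, _, v.mono c, fun s hs => ?_⟩
  have := h.fd_ne t e hθ (cut_mem (B := B) hs)
  field_simp

/-- the reference moments from any representation -/
theorem rd_fd {J' : ℕ} (t : G.Tz J' j z) (e : G.Fd j z univ r0 r θ Y f)
    (hθ : G.Q j ^ 100 * θ ≤ 1) (hN : ∀ i, (Y.Z i).card ≤ N) :
    Rdm (rmo f) r (exp (Fintype.card ι * N)) (ce Y.E) :=
  let ⟨q, q0, q1, q2⟩ := h.al_fd t e hθ hN
  ⟨if_pos rfl, q, (q2 univ).1.congr fun s _ => congrArg q (by ext; simp [cutS]), q0, q1⟩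

theorem rd_fg {w : ℝ} (e : G.Fg j univ f w N Y) (w0 : 0 < w) :
    Rdm (rmo f) (fun _ => w⁻¹) (exp (Fintype.card ι * N)) (ce Y.E) :=
  let ⟨_, _, _, _, _, t, e, _, _, _, _, a, a'⟩ := e.fog w0
  h.rd_fd t e a a'

/-- the moments on the whole torus -/
theorem fog_ex (b0 : 0 ≤ b) (D : G.Dnm b J j m f) (e : G.Fog j f r N Y) :
    ∃ q, SH r (exp (cJ / G.g j * G.N j ^ 4)) q ∧
      ∀ T, m T = jd T fun s => Complex.exp (ma univ (ce Y.E) s) * q s := by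
  obtain ⟨J', z, r0, θ, β, t, e, r1, r2, pu, hb, hθ, -⟩ := e
  obtain ⟨g1, -, g2⟩ := (h.f_facts J j).1 b b0
  rw [← D.z] at g1 g2
  obtain ⟨n0, a⟩ := int_ratio2.choose_spec.2 h t e g1 g2 r1 r2 pu hb hθ
  have c := e.eq.int PP
  simp only [integral_const_mul] at c
  exact ⟨_, a, Ob.mo_eqv D.mo c e.ma⟩

theorem slv_of (e : G.Fd l (G.zz b J l) univ r0 r θ Y f) (hθ : θ ≤ (G.Q l ^ 329)⁻¹)
    (e1 : Y.bs = (G.zz b J l).d) (ec : Y.Ec univ id) (p : ∀ q, 0 < r' q)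
    (sz : ∀ q, G.Q l ^ 50 * r' q ≤ r q ∧ Y.Z q ⊆ G.zs (W q) J l ∧ G.SzA A l (r q) (Y.jt {q})) :
    G.Slv b J l f r' W := by
  have q := h.Q0 l
  refine ⟨Y, r0, e.mono p (fun x => (le_mul_of_one_le_left (p x).le
    (one_le_pow₀ (h.Q1 l))).trans (sz x).1) hθ, e1, ec, fun x => ⟨(sz x).2.1,
      (sz x).2.2.imp fun N a => ⟨le_trans ?_ a.1, a.2⟩⟩⟩
  have := (h.sz_nn a.2).1
  have := p x
  calc _ = G.Q l ^ 223 * (G.Q l ^ 50 * r' x * N) := by ring
    _ ≤ _ := by gcongr; exacts [(pow_pos (h.QA0 A l) _).le, h.QA_ge A l, (sz x).1]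

variable (t : G.Tu b J) (hp : G.Pu)
include t hp

/-- the flow of the groups -/
theorem fog_slg {γ : Type} [DecidableEq γ] {cl : ι → γ} (hl : l ≤ J) (hj : j ≤ l)
    (hf : ∀ r : ι → ℝ, (∀ i, 0 < r i) → HD r f) (s : G.Slg b J l j c N cl f r) :
    ∃ Y, G.Fog j (fun s => G.tt (f (scl r s)) l j) (fun _ => 2 ^ (l - j)) N Y ∧ Y.Ec univ cl ∧
      ∀ T, 2 ≤ T.card → ‖jd T Y.E‖ ≤ 1 := by
  obtain ⟨W, ⟨Y, r0, e, e1, ec, sz⟩, g, hN⟩ := s
  have p := e.fi.pos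
  have e' := h.fd_sc e p
  simp only [fun i => div_self (p i).ne'] at e'
  let Y' : Fy ι := ⟨(Y.scv r).ψ, (Y.scv r).K, (Y.scv r).E, fun x => G.zs (W x) J l⟩
  have R : G.Ry univ b J l l 1 (fun k => (G.zz b J k).d) Y' fun s => f (scl r s) := by
    refine ⟨⟨_, e'.fi.mono (fun _ => one_pos) (fun _ => le_rfl) le_rfl fun q => (sz q).1, e'.ma,
      e'.eq⟩, by simpa only [fun i => div_self (p i).ne'] using hd_scl (hf r p) p,
      by simpa only [Y', Fy.bs, Fy.scv, scl_zero] using e1, fun T hT x hx y hy u => ?_,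
      fun k a => h.run_hs k (a.trans_le hl), fun k a => h.bz_run t (a.trans hl),
      fun k a a' x _ => ?_⟩
    · exact (jd_scl r Y.E T).trans (by rw [ec T hT x hx y hy u, mul_zero])
    · obtain rfl := a.antisymm a'
      obtain ⟨-, M, a1, a2⟩ := sz x
      have := Pos.sz_smul (h.ρ0 l) a2 (r x)
      rw [Complex.norm_real, Real.norm_of_nonneg (p x).le] at this
      refine ⟨r x * M, by rwa [one_mul], ?_⟩
      simpa only [tH_top, Y', Fy.jt, Fy.scv, jL_scl, jA_scl, prod_singleton, Gl.Sz] using this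
  obtain ⟨a1, a2, a3⟩ := h.ry_fg t hp hl le_rfl hj one_pos R (cl := cl) (c := c) (M := N)
    ⟨fun k a b => by simpa only [Y', zs_zs hl b] using g.one k a (b.trans hl),
      fun k a b => by simpa only [Y', zs_zs hl b] using g.grp k a b, g.card, g.big,
      by simpa only [Y', zs_top] using g.vol⟩ fun x => by simpa only [Y', zs_zs hl hj] using hN x
  exact ⟨_, by simpa only [mul_one, inv_inv] using a1.fog (by positivity), a2,
    fun T hT => by simpa using a3 T (subset_univ T) hT⟩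

/-- the reference moments of separated slots -/
theorem rd_slg {γ : Type} [DecidableEq γ] {cl : ι → γ} (hl : l ≤ J) (hj : j ≤ l)
    (hf : ∀ r : ι → ℝ, (∀ i, 0 < r i) → HD r f) (s : G.Slg b J l j c N cl f r) :
    ∃ e, Rdm (rmo fun s => G.tt (f s) l j) (fun q => 2 ^ (l - j) * r q)
      (exp (Fintype.card ι * N)) e ∧ ∀ T, 2 ≤ T.card → ‖e T‖ ≤ ∏ q ∈ T, (r q)⁻¹ := by
  have p : ∀ q, 0 < r q := s.choose_spec.1.choose_spec.choose_spec.1.fi.pos
  obtain ⟨Y, ⟨_, _, _, _, _, t', e, -, -, -, -, a1, a2⟩, -, a3⟩ := h.fog_slg t hp hl hj hf s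
  have a := (h.rd_fd t' e a1 a2).sc (r' := fun q => (r q)⁻¹) fun q => inv_pos.2 (p q)
  have u : ∀ T : Finset ι, ((∏ q ∈ T, (r q)⁻¹ : ℝ) : ℂ) * (∏ q ∈ T, r q : ℝ) = 1 := fun T => by
    rw [← Complex.ofReal_mul, prod_inv_distrib, inv_mul_cancel₀ (prod_pos fun q _ => p q).ne',
      Complex.ofReal_one]
  simp only [rmo_scl r fun s => G.tt (f s) l j, ← mul_assoc, u, one_mul, div_inv_eq_mul] at a
  refine ⟨_, a, fun T hT => ?_⟩
  have := prod_nonneg fun q (_ : q ∈ T) => (inv_pos.2 (p q)).le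
  rw [norm_mul, Complex.norm_real, Real.norm_of_nonneg this, ce,
    if_neg (card_pos.1 (by omega)).ne_empty]
  exact mul_le_of_le_one_right this (a3 T hT)

section src
variable (hq : G.HP Sd.StA) {ρ : ℕ → ℝ} {ν : ℕ → ℕ} {R : ℕ → ι → ℝ}
include hq

/-- any family of separated letters -/
theorem slv_flow (hi : i ≤ J) (hl : l ≤ i) (a : ∀ j ≥ l, G.Big A j)
    (e : G.Fd i (G.zz b J i) univ r0 (R i) θ Y f) (u : G.KA A i (R i) (G.tA A i) Y.K)
    (e1 : Y.bs = (G.zz b J i).d) (e3 : Y.Ec univ id) (hZ : ∀ q, Y.Z q ⊆ G.zs (W q) J i)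
    (rad : ∀ j, l ≤ j → j ≤ i → G.Gr A 1 j (ν j) (ρ j) ∧ ∀ q, 0 < R j q ∧
      (j < i → R j q ≤ ρ j * R (j + 1) q))
    (sz : ∀ j, l ≤ j → j ≤ i → ∀ q, G.SzA A j (R j q) (G.tn b J (Y.jt {q}) i j))
    (cel : ∀ j, l ≤ j → j ≤ i →
      Cls (G.N j) ((ν j + 2) * (G.p j).D) univ id fun q => G.zs (W q) J j) :
    G.Slv b J l (fun s => G.tt (f s) i l) (fun q => R l q / G.Q l ^ 50) W := by
  have w : ∀ j ≤ i, ∀ x, G.zs (Y.Z x) i j ⊆ G.zs (W x) J j := fun j b x =>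
    zs_zs hi b ▸ zs_mono (hZ x) j b
  obtain ⟨r1, u⟩ := h.flowA t hp hq hi hl a e u e1 e3 rad (fun j a b q _ => sz j a b q)
    fun j a b x hx y hy v => (cel j a b x hx y hy v).mono le_rfl (w j b x) (w j b y)
  obtain ⟨c1, -, c3, c4, c5, -⟩ := u l hl le_rfl
  have q := pow_pos (h.Q0 l) 50
  refine h.slv_of (A := A) c1 (h.QA_inv A l _) c3 c4
    (fun x => div_pos ((rad l le_rfl hl).2 x).1 q) fun x => ⟨(mul_div_cancel₀ _ q.ne').le, ?_,
      c5 x (mem_univ x) ▸ sz l le_rfl hl x⟩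
  rw [fw_Z l hl]
  exact w l hl x

/-- sources at the top -/
theorem slv_src {F : ι → Sx} (hl : l ≤ J) (a : ∀ j ≥ l, G.Big A j) (hd : d ≤ (G.p J).R)
    (rad : ∀ j, l ≤ j → j ≤ J → G.Gr A 1 j (ν j) (ρ j) ∧ ∀ q, 0 < R j q ∧
      (j < J → R j q ≤ ρ j * R (j + 1) q)) (hZ : ∀ q, (F q).In (G.N J) (W q))
    (sl : ∀ q, G.RxA A b J l d (R · q) (F q)) (cel : ∀ j, l ≤ j → j ≤ J →
      Cls (G.N j) ((ν j + 2) * (G.p j).D) univ id fun q => G.zs (W q) J j) :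
    G.Slv b J l (fun s => G.tt (pr b (G.N J) (fun q U => -xO (G.N J) (F q) U) s) J l)
      (fun q => R l q / G.Q l ^ 50) W := by
  obtain ⟨c1, -, c3, c4, c5, -⟩ := h.srcA t hp hq hl a hd rad hZ sl cel l hl le_rfl
  have q := pow_pos (h.Q0 l) 50
  exact h.slv_of (A := A) c1 (h.QA_inv A l _) c3 c4
    (fun x => div_pos ((rad l le_rfl hl).2 x).1 q) fun x => ⟨(mul_div_cancel₀ _ q.ne').le,
      by rw [xw_Z hl], (c5 x).1 ▸ (sl x).2 l le_rfl hl⟩

/-- sources at the top and insertions at level `k` -/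
theorem ins_src {F : ι → Sx} {H : ι → St → Conf → ℂ} {Ψ : ι → Lx} {δ : ℝ} (hk : k ≤ J)
    (a : ∀ j ≥ k, G.Big (A + 1) j) (hd : d ≤ (G.p J).R)
    (rad : ∀ j, k ≤ j → j ≤ J → G.Gr (A + 1) 1 j (ν j) (ρ j) ∧ ∀ q, 0 < R j q ∧
      (j < J → R j q ≤ ρ j * R (j + 1) q)) (hZ : ∀ q, (F q).In (G.N J) (W q))
    (sl : ∀ q, G.RxA (A + 1) b J k d (R · q) (F q)) (cel : ∀ j, k ≤ j → j ≤ J →
      Cls (G.N j) ((ν j + 2) * (G.p j).D) univ id fun q => G.zs (W q) J j)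
    (hc : Cls (G.N k) δ univ id fun q => G.zs (W q) J k) (hm : 7 * ((G.p k).D : ℝ) ≤ δ)
    (L : ∀ q, Lt (G.p k) (G.N k) (H q) (Ψ q)) (pu : ∀ q, ∃ x y u, PM (G.p k) x y u (Ψ q))
    (hH : ∀ q y, rc (G.N k) y ∉ G.zs (W q) J k → H q y = 0 ∧ Ψ q y = 0)
    (bd : ∀ q y U, R k q * ‖H q y U‖ ≤ (G.QA A k ^ 340)⁻¹) :
    ∃ Y : Fy ι, G.Fd k (G.zz b J k) univ (R k) (R k) (G.tA A k) Y
      (G.pq b J k (fun q U => -xO (G.N J) (F q) U) fun q U => ∑ y ∈ box (G.N k / 2), H q y U) ∧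
      G.KA A k (R k) (G.tA A k) Y.K ∧ Y.bs = (G.zz b J k).d ∧ Y.Ec univ id ∧
      ∀ q, Y.Z q = G.zs (W q) J k ∧ Y.jt {q} = G.tn b J (G.xv b J (F q)) J k +
        (Ψ q, Mg.i1 (G.p k) (G.N k) (G.zz b J k).K (H q)) := by
  obtain ⟨c1, c2, c3, c4, c5, -⟩ := h.srcA t hp hq hk a hd rad hZ sl cel k hk le_rfl
  have p := c1.fi.pos
  have gX : ∀ q, GI (G.N J) fun U => -xO (G.N J) (F q) U := fun q =>
    let ⟨_, _, a, _⟩ := (sl q).1; gi_neg (gi_xO a)
  have gC : ∀ q, GI (G.N k) fun U => ∑ y ∈ box (G.N k / 2), H q y U := fun q => GI.sum fun y _ =>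
    ⟨((L q).lf y).meas, ⟨_, fun U => (le_inv_mul_iff₀ (p q)).2 (bd q y U)⟩,
      fun u U a _ => ((L q).lf y).gi u U a⟩
  obtain ⟨d1, d2, d3, d4⟩ := h.insA (t.gd k hk).tz c1 (fun _ => le_rfl) c2 (by rwa [xw_Z hk]) hm
    (fun q _ => L q) (fun q _ => pu q) (fun q => by rw [xw_Z hk]; exact hH q) (fun q _ => bd q) (h.hd_pq (b := b) hk gX gC p)
    fun U _ T _ => by
      simp only [jd_pq, pa, jd_tt (pr_hd (b := b) gX p) hk, pr_eq, jd_ma _ (subset_univ _)]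
  refine ⟨_, d1, d2, d3.trans c3, c4, fun q => ⟨congrFun (xw_Z hk) q, ?_⟩⟩
  rw [d4 q (mem_univ q), (c5 q).1, show (G.xw b J k F W).K 0 = _ from congrArg Prod.snd c3]
  rfl

end src

/-! ### The reduction to the reference moments -/

variable [NeZero (G.N J)] {m u : ℕ} [NeZero m] {O : (Fin 4 → Bool) → κ → Cfg (G.N J) → ℝ}
  {μ : (Fin 4 → Bool) → Finset κ → ℝ} {r r' : κ → ℝ} (b0 : 0 ≤ b) (hl : l ≤ J) (hj : j ≤ l)
  (hn : G.N j = m * u) (N0 : 0 ≤ N) (H : G.Arf b J l j c m u N O μ r)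

omit t hp in
/-- arrays of translated letters and insertions; `O'` differs from the array by null observables -/
theorem arf_pa (hk : k ≤ J) (hl : l ≤ k) (hj : j ≤ l) {X0 C0 : (Fin 4 → Bool) → κ → Conf → ℂ}
    (gX : ∀ e a, GI (G.N J) (X0 e a) ∧ ∀ U, Per (G.N J) U → (X0 e a U).im = 0)
    (gC : ∀ e a, GI (G.N k) (C0 e a) ∧ ∀ U, Per (G.N k) U → (C0 e a U).im = 0) (b0 : 0 ≤ b)
    (H : ∀ e : Weak.Site 4 m → Fin 4 → Bool, ∃ X C V O', G.Xp J k X C V O' ∧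
      Ob.mo (YM7.ex (Fi.tr haar) b (G.N J)) (arr (G.rt J j * u) fun x => O (e x)) =
        Ob.mo (YM7.ex (Fi.tr haar) b (G.N J)) O' ∧
      G.Slg b J l j c N Prod.fst (fun s => G.tt (G.pq b J k X C s) k l) (fun q => r q.2) ∧
      (∀ x a U, Per (G.N J) U → X (x, a) U = X0 (e x) a (sh (czl (G.rt J j * u) x) U)) ∧
      ∀ x a U, Per (G.N k) U → C (x, a) U = C0 (e x) a (sh (czl (G.rt k j * u) x) U)) :
    G.Arf b J l j c m u N O (fun e T => (G.mpa b J k j (X0 e) (C0 e) T).re) r := by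
  intro e
  obtain ⟨X, C, V, O', a, mo, s, eX, eC⟩ := H e
  refine ⟨_, mo ▸ h.dn_tt (h.dn_pa a hk) hk hl, s, fun x T => ?_⟩
  have jk := hj.trans hl
  rw [h.mpa_real hk jk (fun q => (gX _ q).1) (fun q => (gC _ q).1) b0 (fun q => (gX _ q).2)
    fun q => (gC _ q).2, ← h.mpa_sh hk jk a.gY a.gC (Prod.mk_right_injective x)
    (fun q => (gX _ q).1) (fun q => (gC _ q).1) (czl u x) (by simpa only [czl_mul] using eX x)
    (by simpa only [czl_mul] using eC x)]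
  simp only [mpa, tt_tt hl j hj]

omit t hp in
/-- arrays of translated letters -/
theorem arf_pr (hl : l ≤ J) (hj : j ≤ l) {X0 : (Fin 4 → Bool) → κ → Conf → ℂ}
    (gX : ∀ e a, GI (G.N J) (X0 e a) ∧ ∀ U, Per (G.N J) U → (X0 e a U).im = 0) (b0 : 0 ≤ b)
    (H : ∀ e : Weak.Site 4 m → Fin 4 → Bool, ∃ X O', Xm (G.N J) X O' ∧
      Ob.mo (YM7.ex (Fi.tr haar) b (G.N J)) (arr (G.rt J j * u) fun x => O (e x)) =
        Ob.mo (YM7.ex (Fi.tr haar) b (G.N J)) O' ∧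
      G.Slg b J l j c N Prod.fst (fun s => G.tt (pr b (G.N J) X s) J l) (fun q => r q.2) ∧
      ∀ x a U, Per (G.N J) U → X (x, a) U = X0 (e x) a (sh (czl (G.rt J j * u) x) U)) :
    G.Arf b J l j c m u N O (fun e T => (G.mpa b J J j (X0 e) 0 T).re) r := by
  intro e
  obtain ⟨X, O', a, mo, s, eX⟩ := H e
  refine ⟨_, mo ▸ h.dn_pr a hl, s, fun x T => ?_⟩
  have jk := hj.trans hl
  have z : ∀ {ι : Type} (q : ι), GI (G.N J) ((0 : ι → Conf → ℂ) q) := fun _ => GI.const _ 0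
  rw [h.mpa_real le_rfl jk (fun q => (gX _ q).1) z b0 (fun q => (gX _ q).2) fun _ _ _ => rfl,
    ← h.mpa_sh le_rfl jk (fun q => (a q).1) z (Prod.mk_right_injective x) (fun q => (gX _ q).1) z
    (czl u x) (by simpa only [czl_mul] using eX x) fun _ _ _ => rfl,
    mpa_pr le_rfl jk fun q => (a q).1]
  simp only [tt_tt hl j hj]

omit t hp h in
theorem rmo_sc (f : (ι → ℂ) → Conf → ℂ) (r : ι → ℝ) (T : Finset ι) :
    rmo (fun s => f (scl r s)) T = (∏ i ∈ T, r i : ℝ) * rmo f T := by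
  rw [rmo, rmo, ← mul_div_assoc, Complex.ofReal_prod, ← jd_scale, scl, mul_zero]
  rfl

omit t hp h in
theorem mo_sc {n : ℕ} [NeZero n] (O : ι → Cfg n → ℝ) (r : ι → ℝ) (T : Finset ι) :
    Ob.mo (YM7.ex (Fi.tr haar) b n) (fun a U => r a * O a U) T =
      (∏ i ∈ T, r i : ℝ) * Ob.mo (YM7.ex (Fi.tr haar) b n) O T := by
  simp only [Ob.mo, YM7.ex, prod_mul_distrib, integral_const_mul, Complex.ofReal_mul]

omit t hp h in
theorem arf_pos (H : G.Arf b J l j c m u N O μ r) (a : κ) : 0 < r a :=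
  let ⟨_, _, ⟨_, ⟨_, _, e, _⟩, _⟩, _⟩ := H fun _ _ => true
  e.fi.pos (0, a)

include b0 hl hj hn N0 H

omit hn N0 in
theorem arf_both (e : Weak.Site 4 m → Fin 4 → Bool) : ∃ (a m' : Finset (Weak.Site 4 m × κ) → ℂ)
    (q z : (Weak.Site 4 m × κ → ℂ) → ℂ), a ∅ = 0 ∧ (∀ T, ∀ i ∈ T, ∀ j ∈ T, i.1 ≠ j.1 → a T = 0) ∧
    (∀ T, 2 ≤ T.card → ‖a T‖ ≤ 1) ∧ SH (fun _ => 2 ^ (l - j)) (exp (cJ / G.g j * G.N j ^ 4)) q ∧
    (∀ T, Ob.mo (YM7.ex (Fi.tr haar) b (G.N J)) (arr (G.rt J j * u) fun x a U => r a * O (e x) a U)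
      T = jd T fun s => Complex.exp (ma univ a s) * q s) ∧ z 0 = 1 ∧
    (∀ T, m' T = jd T fun s => Complex.exp (ma univ a s) * z s) ∧
    (∀ x T, m' (T.image (Prod.mk x)) = ((∏ a ∈ T, r a) * μ (e x) T : ℝ)) ∧
    Jet.Hb (fun _ => 2 ^ (l - j)) z ∧ ∀ x, SH (fun _ => 2 ^ (l - j)) (exp (Fintype.card κ * N))
      (fun s => z (YM7.ct x s)) ∧ ∃ y, SH (fun _ => 2 ^ (l - j)) (exp (Fintype.card κ * N)) y ∧
        ∀ s ∈ Pd fun _ => 2 ^ (l - j), y s * z (YM7.ct x s) = 1 := by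
  have p := arf_pos H
  obtain ⟨f, D, s, hμ⟩ := H e
  obtain ⟨Y, F, ec, hE⟩ := h.fog_slg t hp hl hj D.hd s
  obtain ⟨q, q1, q2⟩ := h.fog_ex b0 (h.dn_tt (D.sc fun q => p q.2) hl hj) F
  obtain ⟨J', z', r0, θ, β, tz, fd, -, -, -, -, hθ, hN⟩ := F
  obtain ⟨z, z0, z1, z2⟩ := h.al_fd tz fd hθ hN
  have cu : ∀ (c : Weak.Site 4 m) (s : _ × κ → ℂ), cutS ({c} ×ˢ univ) s = YM7.ct c s :=
    fun c s => funext fun p => by
      simp only [YM7.ct, cutS, mem_product, mem_singleton, mem_univ, and_true]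
  refine ⟨_, _, q, z, if_pos rfl, fun T i hi j hj k => ?_, fun T hT => ?_, q1, fun T => ?_, z0, z1,
    fun x T => ?_, ⟨_, (z2 univ).1.congr fun s _ => congrArg z (by ext; simp [cutS])⟩, fun x => by
      simpa only [card_product, card_singleton, one_mul, card_univ, cu] using z2 ({x} ×ˢ univ)⟩
  · rw [ce, if_neg (ne_empty_of_mem hi), ec T (subset_univ T) i hi j hj k]
  · rw [ce, if_neg (card_pos.1 (by omega)).ne_empty]
    exact hE T hT
  · rw [← q2, ← mo_sc]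
    rfl
  · rw [rmo_sc (fun s => G.tt (f s) l j), hμ, prod_image (Prod.mk_right_injective x).injOn,
      Complex.ofReal_mul]

omit hn N0 in
/-- the crude representation of the reference moments -/
theorem arf_rd (e : Fin 4 → Bool) : ∃ a, Rdm (fun T => (μ e T : ℂ)) (fun q => 2 ^ (l - j) * r q)
    (exp (Fintype.card κ * N)) a ∧ ∀ T, 2 ≤ T.card → ‖a T‖ ≤ ∏ q ∈ T, (r q)⁻¹ := by
  have p := arf_pos H
  obtain ⟨a, m', -, z, a0, -, a1, -, -, z0, z1, z2, ⟨_, z3⟩, z4⟩ :=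
    h.arf_both t hp b0 hl hj H fun _ => e
  have i := Prod.mk_right_injective (β := κ) (0 : Weak.Site 4 m)
  have R : Rdm (fun T => ((∏ a ∈ T, r a) * μ e T : ℝ)) (fun _ => 2 ^ (l - j))
      (exp (Fintype.card κ * N)) fun T => a (T.image (Prod.mk 0)) :=
    ⟨by simpa using a0, fun s => z (extend (Prod.mk 0) s 0), (Ob.sh_ext i (z4 0).1).congr
      fun s _ => congrArg z (funext fun p => by
        rw [YM7.ct]
        split_ifs with v
        · rfl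
        · exact extend_apply' _ _ _ fun ⟨_, y⟩ => v (congrArg Prod.fst y).symm),
      by simp only [Ob.ext_zero, z0],
      fun T => (z2 0 T).symm.trans ((z1 _).trans (Ob.red_ext i z3 T))⟩
  refine ⟨_, by
    convert R.sc fun i => inv_pos.2 (p i) using 2 with T q
    · rw [← Complex.ofReal_mul, prod_inv_distrib,
        inv_mul_cancel_left₀ (prod_pos fun i _ => p i).ne']
    · rw [div_inv_eq_mul], fun T hT => ?_⟩
  rw [norm_mul, Complex.norm_of_nonneg (prod_nonneg fun i _ => (inv_pos.2 (p i)).le)]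
  exact mul_le_of_le_one_right (prod_nonneg fun i _ => (inv_pos.2 (p i)).le)
    (a1 _ ((card_image_of_injective T i).symm ▸ hT))

theorem arf_gen : GenM (Fi.tr haar) b m (G.rt J j * u) (fun e a U => r a * O e a U)
    (fun e T => (∏ a ∈ T, r a) * μ e T) (2 ^ (l - j))⁻¹
    (exp ((cJ / G.g j * u ^ 4 + Fintype.card κ * N) * m ^ 4)) := fun e => by
  have _ := N0
  obtain ⟨a, m', q, z, a0, a1, -, q1, q2, -, z1, z2, z3, z4⟩ := h.arf_both t hp b0 hl hj H e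
  obtain ⟨g, g1, g2⟩ := Ob.gen_abs a0 a1 q2 z1 q1 z3 fun c => (z4 c).2
  refine ⟨g, by
    rw [inv_inv]
    refine g1.mono ?_
    rw [← exp_nat_mul, ← exp_add, exp_le_exp, hn]
    simp only [Fintype.card_pi, ZMod.card, prod_const, card_univ, Fintype.card_fin, Nat.cast_pow,
      Nat.cast_mul]
    linarith, by simpa only [z2] using g2⟩

section
variable {ρ : Fin 4 → Cfg (G.N J) → Cfg (G.N J)} {D : Weak.Link 4 (G.N J) → Prop}
  (g : Kz.Geo ρ D (G.rt J j * u)) (hO : Mr ρ D O) (e : Fin 4 → Bool)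
include g hO

theorem arf_redg : ∃ q, SH (fun a => 2 ^ (l - j) * r a) (G.kArf j u (Fintype.card κ) N) q ∧
    q 0 = 1 ∧ ∀ T, Ob.mo (YM7.ex (Fi.tr haar) b (G.N J)) (O e) T =
      jd T fun s => ma univ (fun T => (μ e T : ℂ)) s * q s := by
  have p := arf_pos H
  have p' : ∀ T : Finset κ, (∏ a ∈ T, (r a)⁻¹ : ℝ) * ((∏ a ∈ T, r a : ℝ) : ℂ) = 1 := fun T => by
    rw [← Complex.ofReal_mul, prod_inv_distrib, inv_mul_cancel₀ (prod_pos fun i _ => p i).ne',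
      Complex.ofReal_one]
  obtain ⟨q, q1, q0, q2⟩ := g.red b0 (Nat.Odd.of_mul_left (hn ▸ h.N_odd j))
    (by rw [← h.rt_N (hj.trans hl), hn, mul_left_comm]) (by positivity)
    (by have := cJ_nn; have := h.g0 j; positivity) (O := fun e a U => r a * O e a U)
    ⟨fun e a => (Weak.BM.const _).mul (hO.bm e a), fun e k a U => by rw [hO.rf],
      fun e a U V u => by rw [hO.dep e a U V u]⟩ (fun e => by
        obtain ⟨_, R, -⟩ := h.arf_rd t hp b0 hl hj H e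
        simpa using R.zero) (h.arf_gen t hp b0 hl hj hn N0 H) e
  refine ⟨_, by simpa only [inv_inv, div_inv_eq_mul, kArf] using sh_scl q1 fun i => inv_pos.2 (p i),
    by simp [q0], fun T => ?_⟩
  rw [← one_mul (Ob.mo _ _ T), ← p' T, mul_assoc, ← mo_sc, q2, Complex.ofReal_prod, ← jd_scale]
  refine congrArg _ (funext fun s => ?_)
  simp only [← ma_sc, Complex.ofReal_mul, ← mul_assoc, p', one_mul]

theorem arf_rdm {M : ℝ} {a : Finset κ → ℂ}
    (R : Rdm (fun T => (μ e T : ℂ)) (fun q => 2 ^ (l - j) * r q) M a) :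
    Rdm (Ob.mo (YM7.ex (Fi.tr haar) b (G.N J)) (O e)) (fun q => 2 ^ (l - j) * r q)
      (M * G.kArf j u (Fintype.card κ) N) a :=
  let ⟨_, q1, q0, q2⟩ := h.arf_redg t hp b0 hl hj hn N0 H g hO e
  R.mul q1 q0 q2

theorem arf_outg {M X : ℝ} {a : Finset κ → ℂ} (hjl : j < l)
    (R : Rdm (fun T => (μ e T : ℂ)) (fun q => 2 ^ (l - j) * r q) M a) (X0 : 0 ≤ X)
    (ha : ∀ T, 2 ≤ T.card → ‖a T‖ ≤ X * ∏ q ∈ T, (r q)⁻¹) :
    ‖cmo (Ob.mo (YM7.ex (Fi.tr haar) b (G.N J)) (O e)) - mtm a‖ ≤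
      cCe (Fintype.card κ) X (M * G.kArf j u (Fintype.card κ) N) * ((2 ^ (l - j))⁻¹ * ∏ q, (r q)⁻¹) :=
  Rdm.cen (by
    simpa only [div_inv_eq_mul, mul_comm (r _)] using h.arf_rdm t hp b0 hl hj hn N0 H g hO e R)
    (by positivity)
    (inv_lt_one_of_one_lt₀ (one_lt_pow₀ one_lt_two (by omega))) X0 ha

theorem out_cg {γ : Type} [DecidableEq γ] {cl : κ → γ} {c' : ℕ} {f : (κ → ℂ) → Conf → ℂ}
    (hjl : j < l) (hf : ∀ r : κ → ℝ, (∀ i, 0 < r i) → HD r f) (s : G.Slg b J l j c' N cl f r')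
    (hμ : ∀ T, rmo (fun s => G.tt (f s) l j) T = μ e T) (hr : ∀ q, r q ≤ r' q) :
    ‖cmo (Ob.mo (YM7.ex (Fi.tr haar) b (G.N J)) (O e))‖ ≤ exp (2 ^ Fintype.card κ) * ∏ q, (r' q)⁻¹ +
      cCe (Fintype.card κ) 1 (exp (Fintype.card κ * N) * G.kArf j u (Fintype.card κ) N) *
        ((2 ^ (l - j))⁻¹ * ∏ q, (r q)⁻¹) := by
  have p := arf_pos H
  obtain ⟨a, R, ha⟩ := h.rd_slg t hp hl hj hf s
  rw [funext hμ] at R
  have a1 := mtm_le (X := 1) (fun q => (p q).trans_le (hr q)) zero_le_one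
    fun T hT => (ha T hT).trans_eq (one_mul _).symm
  have a2 := h.arf_outg t hp b0 hl hj hn N0 H g hO e hjl (R.mono (fun q => by
    have := p q; positivity) (fun q => by gcongr; exact hr q) le_rfl) zero_le_one fun T hT =>
      (ha T hT).trans ((prod_le_prod (fun q _ => (inv_pos.2 ((p q).trans_le (hr q))).le)
        fun q _ => inv_anti₀ (p q) (hr q)).trans_eq (one_mul _).symm)
  rw [mul_one] at a1
  rw [← add_sub_cancel (mtm a) (cmo _)]
  exact norm_add_le_of_le a1 a2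

theorem arf_oneg {M : ℝ} {a : Finset κ → ℂ}
    (R : Rdm (fun T => (μ e T : ℂ)) (fun q => 2 ^ (l - j) * r q) M a) (q : κ) :
    ‖(YM7.ex (Fi.tr haar) b (G.N J) (O e q) : ℂ) - a {q}‖ ≤
      M * G.kArf j u (Fintype.card κ) N / (2 ^ (l - j) * r q) := by
  simpa only [Ob.mo, prod_singleton] using (h.arf_rdm t hp b0 hl hj hn N0 H g hO e R).one q

end

variable (hO : Mir (G.rt J j * u) O) (e : Fin 4 → Bool)
include hO

/-- the true moments are the reference moments up to a correction -/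
theorem arf_red : ∃ q, SH (fun a => 2 ^ (l - j) * r a) (G.kArf j u (Fintype.card κ) N) q ∧ q 0 = 1 ∧
    ∀ T, Ob.mo (YM7.ex (Fi.tr haar) b (G.N J)) (O e) T =
      jd T fun s => ma univ (fun T => (μ e T : ℂ)) s * q s :=
  h.arf_redg t hp b0 hl hj hn N0 H (.inl ⟨rfl, rfl⟩) hO e

/-- the centred moment is the main term of any representation of the reference moments -/
theorem arf_out {M X : ℝ} {a : Finset κ → ℂ} (hjl : j < l)
    (R : Rdm (fun T => (μ e T : ℂ)) (fun q => 2 ^ (l - j) * r q) M a) (X0 : 0 ≤ X)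
    (ha : ∀ T, 2 ≤ T.card → ‖a T‖ ≤ X * ∏ q ∈ T, (r q)⁻¹) :
    ‖cmo (Ob.mo (YM7.ex (Fi.tr haar) b (G.N J)) (O e)) - mtm a‖ ≤
      cCe (Fintype.card κ) X (M * G.kArf j u (Fintype.card κ) N) * ((2 ^ (l - j))⁻¹ * ∏ q, (r q)⁻¹) :=
  h.arf_outg t hp b0 hl hj hn N0 H (.inl ⟨rfl, rfl⟩) hO e hjl R X0 ha

/-- the crude bound: `r'` are the radii of the letters, `r` those of all the mirror images -/
theorem out_c {γ : Type} [DecidableEq γ] {cl : κ → γ} {c' : ℕ} {f : (κ → ℂ) → Conf → ℂ}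
    (hjl : j < l) (hf : ∀ r : κ → ℝ, (∀ i, 0 < r i) → HD r f) (s : G.Slg b J l j c' N cl f r')
    (hμ : ∀ T, rmo (fun s => G.tt (f s) l j) T = μ e T) (hr : ∀ q, r q ≤ r' q) :
    ‖cmo (Ob.mo (YM7.ex (Fi.tr haar) b (G.N J)) (O e))‖ ≤ exp (2 ^ Fintype.card κ) * ∏ q, (r' q)⁻¹ +
      cCe (Fintype.card κ) 1 (exp (Fintype.card κ * N) * G.kArf j u (Fintype.card κ) N) *
        ((2 ^ (l - j))⁻¹ * ∏ q, (r q)⁻¹) :=
  h.out_cg t hp b0 hl hj hn N0 H (.inl ⟨rfl, rfl⟩) hO e hjl hf s hμ hr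

/-- the true means -/
theorem arf_one {M : ℝ} {a : Finset κ → ℂ}
    (R : Rdm (fun T => (μ e T : ℂ)) (fun q => 2 ^ (l - j) * r q) M a) (q : κ) :
    ‖(YM7.ex (Fi.tr haar) b (G.N J) (O e q) : ℂ) - a {q}‖ ≤
      M * G.kArf j u (Fintype.card κ) N / (2 ^ (l - j) * r q) :=
  h.arf_oneg t hp b0 hl hj hn N0 H (.inl ⟨rfl, rfl⟩) hO e R q

end Ok

end Gl

end Pool.Agent.Lib.MP_7f377f_mp.RG.Q4.En
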