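import Pool.Agent.Lib.MP_7f377f_mp.G.KzG
import Pool.Agent.Lib.MP_7f377f_mp.G.JvG
import Pool.Agent.Lib.MP_7f377f_mp.G.KzP

/-! Arrays of points: the geometry; insertions into a given family. -/

noncomputable section

open Pool.Agent.Lib.MP_7f377f_mp.Jet

set_option linter.unusedSectionVars false
variable [Pool.Agent.Lib.MP_7f377f_mp.GD]

namespace Pool.Agent.Lib.MP_7f377f_mp.RG.Q4.En

open Finset Function Real Sg Br YM7 MeasureTheory Mx Kz
open scoped Classical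

attribute [local irreducible] box lbox tb tau rc

variable {ι κ : Type} [Fintype ι] [DecidableEq ι] [Fintype κ] [DecidableEq κ]
  {n m lam ρ Δ D R : ℕ} {z : St}

/-- points of different cells are far apart -/
theorem czl_far [NeZero m] (hn : n = m * lam) {x x' : Weak.Site 4 m} (ne : x ≠ x') {y y' : St}
    (hy : y - z ∈ box ρ) (hy' : y' - z ∈ box ρ)
    (e : nearT n D (czl lam x + y) (czl lam x' + y')) : lam ≤ D + 2 * ρ := by
  by_contra! c
  refine ne (funext fun i => ?_)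
  obtain ⟨v, hv⟩ := nearT_iff.1 e
  have a := hv i
  have o1 := Op.mem_box.1 hy i
  have o2 := Op.mem_box.1 hy' i
  simp only [Pi.add_apply, Pi.sub_apply, czl, hn] at a o1 o2
  have := Int.eq_zero_of_abs_lt_dvd (m := lam)
    (x := lam * (((x' i).val : ℤ) - (x i).val - m * v i)) ⟨_, rfl⟩ (by
      push_cast at a; rw [abs_lt]; constructor <;> nlinarith)
  rw [mul_eq_zero] at this
  rw [← ZMod.natCast_zmod_val (x i), ← ZMod.natCast_zmod_val (x' i), ← Int.cast_natCast,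
    ← Int.cast_natCast (x' i).val, ZMod.intCast_eq_intCast_iff_dvd_sub]
  exact ⟨v i, by linarith [this.resolve_left (by omega)]⟩

/-- the points `y e a` lie near `z`, at mutual distances at least `Δ` -/
structure Pta {γ : Type} (n ρ Δ : ℕ) (z : St) (y : γ → κ → St) : Prop where
  inn : ∀ e a, y e a - z ∈ box ρ
  far : ∀ e a a', a ≠ a' → ∀ D, nearT n D (y e a) (y e a') → Δ ≤ D

/-- the points of the array -/
def apos (lam : ℕ) (y : Weak.Site 4 m → κ → St) (q : Weak.Site 4 m × κ) : St :=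
  czl lam q.1 + y q.1 q.2

namespace Pta

variable [NeZero m] {y : Weak.Site 4 m → κ → St} (P : Pta n ρ Δ z y) (hn : n = m * lam)
  {W : Weak.Site 4 m × κ → Finset St}
include P hn

theorem grp {q q' : Weak.Site 4 m × κ} (ne : q.1 ≠ q'.1)
    (a : nearT n D (apos lam y q) (apos lam y q')) : lam ≤ D + 2 * ρ :=
  czl_far hn ne (P.inn _ _) (P.inn _ _) a

theorem one (hl : Δ + 2 * ρ ≤ lam) (q q' : Weak.Site 4 m × κ) (ne : q ≠ q') (D : ℕ)
    (a : nearT n D (apos lam y q) (apos lam y q')) : Δ ≤ D := by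
  by_cases u : q.1 = q'.1
  · rw [apos, apos, ← u, add_comm, add_comm _ (y _ q'.2), nearT_add_right] at a
    exact P.far _ _ _ (fun v => ne (Prod.ext u v)) D a
  · have := P.grp hn u a
    omega

variable (hW : ∀ q, W q ⊆ tb n R {apos lam y q})
include hW

theorem cls_one (hl : Δ + 2 * ρ ≤ lam) {E : ℕ} (hE : E + 2 * R ≤ Δ) : Cls n E univ id W :=
  fun q _ q' _ ne => sep_ball (fun D a => by have := P.one hn hl q q' ne D a; omega) (hW q) (hW q')

theorem cls_grp {E : ℕ} (hE : E + 2 * R + 2 * ρ ≤ lam) : Cls n E univ Prod.fst W :=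
  fun q _ q' _ ne => sep_ball (fun D a => by have := P.grp hn ne a; omega) (hW q) (hW q')

end Pta

theorem card_fst [NeZero m] (a : Weak.Site 4 m) :
    (univ.filter fun q : Weak.Site 4 m × κ => q.1 = a).card ≤ Fintype.card κ :=
  card_le_card_of_injOn Prod.snd (fun _ _ => mem_univ _) fun _ hq _ hq' v =>
    Prod.ext ((mem_filter.1 hq).2.trans (mem_filter.1 hq').2.symm) v

theorem rc_tb (n : ℕ) (x : St) : {rc n x} ⊆ tb n 0 {x} :=
  singleton_subset_iff.2 (mem_tb_single.2 ⟨rc_rc _ _, nearT_rc n x⟩)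

theorem cls_pts {x : ι → St} {W : ι → Finset St} (hW : ∀ q, W q ⊆ tb n R {x q})
    (far : ∀ q q', q ≠ q' → ∀ D, nearT n D (x q) (x q') → Δ ≤ D) {E : ℕ} (hE : E + 2 * R ≤ Δ) :
    Cls n E univ id W :=
  fun q _ q' _ ne => sep_ball (fun D a => by have := far q q' ne D a; omega) (hW q) (hW q')

namespace Gl

/-- the geometry of point insertions at the sites `x` which form the groups `cl` -/
structure Gpt (G : Gl) {γ : Type} [DecidableEq γ] (cl : ι → γ) (c J l j : ℕ) (x : ι → St) :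
    Prop where
  geo : G.Geo univ cl c (fun q => {rc (G.N J) (x q)}) J l j
  cls : ∀ i, l ≤ i → i ≤ J → Cls (G.N i) (G.dL i) univ id fun q => G.zs {rc (G.N J) (x q)} J i
  card : ∀ q, ((G.zs {rc (G.N J) (x q)} J j).card : ℝ) ≤ G.Q j
  dis : ∀ i, l ≤ i → i ≤ J → ∀ R ≤ G.L i * G.L i ^ G.K0, ∀ q q', q ≠ q' →
    Disjoint (tb (G.N i) 2 (tb (G.N i) R {G.tk (x q) J i}))
      (tb (G.N i) 2 (tb (G.N i) R {G.tk (x q') J i}))

variable {G : Gl} {b θ δ : ℝ} {A J i j k l c u : ℕ} {W : ι → Finset St} {X C : ι → Conf → ℂ}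
  {f : (ι → ℂ) → Conf → ℂ} {r r0 : ι → ℝ} {Y : Fy ι}

/-- insertions at the top are letters -/
theorem pq_top : G.pq b J J X C = pr b (G.N J) (C + X) := funext₂ fun s U => by
  rw [congrFun (pr_eq U) s, pq]
  refine congrFun (ma_congr fun T _ => ?_) s
  simp only [tt_top, Pi.add_apply, prod_add, sum_mul, mul_assoc]

namespace Ok

variable (h : G.Ok)
include h

/-- the geometry of groups of balls -/
theorem geo_pts {γ : Type} [DecidableEq γ] {cl : ι → γ} {x : ι → St} (hl : l ≤ J) (hj : j ≤ l)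
    (hW : ∀ q, W q ⊆ tb (G.N J) R {x q}) (hR : R ≤ 6 * G.sJ J l)
    (h1 : Cls (G.N J) (66 * G.sJ J l : ℕ) univ id W)
    (h2 : Cls (G.N J) ((40 * c + 46) * G.sJ J j : ℕ) univ cl W)
    (hc : ∀ a, (univ.filter (cl · = a)).card ≤ c) (big : 1000 * 3 ^ c ≤ G.L j) :
    G.Geo univ cl c W J l j ∧ ∀ q, ((G.zs (W q) J j).card : ℝ) ≤ G.Q j := by
  refine ⟨⟨fun k a b => h.cls_3 h1 le_rfl a b, fun k a b => by
    simpa using h.zs_cls (C := 2 * c + 2) h2 (by positivity) (by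
      simp only [sJ]; push_cast; exact le_of_eq (by ring)) a (b.trans hl), hc, big, fun a =>
    ⟨(univ.filter (cl · = a)).biUnion fun q => G.zs (W q) J l, ?_, fun q hq e =>
      subset_biUnion_of_mem (fun q => G.zs (W q) J l) (mem_filter.2 ⟨hq, e⟩)⟩⟩, fun q =>
    h.card_zs' (hW q) (hj.trans hl) (hR.trans (Nat.mul_le_mul_left _ (h.sJ_anti hj hl)))⟩
  have a1 : (c : ℝ) ≤ G.Q l := le_trans (Nat.cast_le.2 ((Nat.lt_pow_self (a := 3)
    (by norm_num)).le.trans ((by omega : 3 ^ c ≤ G.L j).trans (h.L_mono hj)))) (h.LQ l)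
  refine (Nat.cast_le.2 card_biUnion_le).trans ?_
  rw [Nat.cast_sum]
  refine (sum_le_card_nsmul _ _ _ fun q _ => h.card_zs' (hW q) hl hR).trans
    ((nsmul_eq_mul _ _).trans_le ((mul_le_mul_of_nonneg_right ((Nat.cast_le.2 (hc a)).trans a1)
      (h.Q0 l).le).trans ?_))
  rw [← sq]
  exact pow_le_pow_right₀ (h.Q1 l) (by norm_num)

/-- one group of points -/
theorem slg_one {x : ι → St} (hl : l ≤ J) (hj : j ≤ l) (s : G.Slv b J l f r W)
    (hW : ∀ q, W q ⊆ tb (G.N J) R {x q}) (hR : R ≤ 6 * G.sJ J l)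
    (far : ∀ q q', q ≠ q' → ∀ D, nearT (G.N J) D (x q) (x q') → 66 * G.sJ J l + 2 * R ≤ D)
    (hc : Fintype.card ι ≤ c) (big : 1000 * 3 ^ c ≤ G.L j) :
    G.Slg b J l j c (G.Q j) (fun _ => ()) f r :=
  ⟨W, s, h.geo_pts hl hj hW hR (cls_pts hW far le_rfl) (fun _ _ _ _ e => (e rfl).elim)
    (fun _ => (card_filter_le _ _).trans hc) big⟩

/-- arrays of groups of points -/
theorem slg_arr [NeZero m] {y : Weak.Site 4 m → κ → St} {W : Weak.Site 4 m × κ → Finset St}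
    {f : (Weak.Site 4 m × κ → ℂ) → Conf → ℂ} {r : Weak.Site 4 m × κ → ℝ} (hl : l ≤ J) (hj : j ≤ l)
    (hn : G.N j = m * u) (s : G.Slv b J l f r W) (P : Pta (G.N J) ρ Δ z y)
    (hW : ∀ q, W q ⊆ tb (G.N J) R {apos (G.rt J j * u) y q}) (hR : R ≤ 6 * G.sJ J l)
    (h1 : 66 * G.sJ J l + 2 * R ≤ Δ) (h2 : Δ + 2 * ρ ≤ G.rt J j * u)
    (h3 : (40 * c + 46) * G.sJ J j + 2 * R + 2 * ρ ≤ G.rt J j * u) (hc : Fintype.card κ ≤ c)
    (big : 1000 * 3 ^ c ≤ G.L j) : G.Slg b J l j c (G.Q j) Prod.fst f r := by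
  have e : G.N J = m * (G.rt J j * u) := by rw [← h.rt_N (hj.trans hl), hn, mul_left_comm]
  exact ⟨W, s, h.geo_pts hl hj hW hR (P.cls_one e hW h2 h1) (P.cls_grp e hW h3)
    (fun a => (card_fst a).trans hc) big⟩

/-- the tracks lie in the supports -/
theorem tk_zs {x : St} {X : Finset St} (e : rc (G.N J) x ∈ X) :
    ∀ k ≤ J, rc (G.N k) (G.tk x J k) ∈ G.zs X J k :=
  dw_ind (by rwa [zs_top, tk_top]) fun k hk ih => by
    rw [zs_step hk (G.top0 0 0), tk_step hk]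
    refine mem_nxt.2 ⟨rc_rc _ _, _, ih, nearT_rc_right.2 ?_⟩
    have : nearT (LL (G.l k) * G.N k) 0 (rc (G.N (k + 1)) (G.tk x J (k + 1))) (G.tk x J (k + 1)) := by
      rw [← h.N_succ]; exact nearT_rc_left.2 (nearT.refl _ _ _)
    exact this.yo.mono (by
      rw [Nat.zero_div]; exact Nat.one_le_pow G.K0 _ (by linarith [h.L_big k] : 0 < G.L k))

theorem R3_le (i : ℕ) : (G.p i).R + 3 ≤ G.L i * G.L i ^ G.K0 := by
  have a := (h.LK0 i).1
  have b := Nat.mul_le_mul_right (G.L i ^ G.K0) (h.L_big i)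
  change 4 * G.L i ^ G.K0 + 3 ≤ _
  omega

theorem gpt {γ : Type} [DecidableEq γ] {cl : ι → γ} {x : ι → St} (hl : l ≤ J) (hj : j ≤ l)
    (far : ∀ q q', q ≠ q' → ∀ D, nearT (G.N J) D (x q) (x q') → 21 * (G.L l * G.sJ J l) ≤ D)
    (grp : ∀ q q', cl q ≠ cl q' → ∀ D, nearT (G.N J) D (x q) (x q') → (40 * c + 46) * G.sJ J j ≤ D)
    (hc : ∀ a, (univ.filter (cl · = a)).card ≤ c) (big : 1000 * 3 ^ c ≤ G.L j) :
    G.Gpt cl c J l j x := by
  have w := fun q => rc_tb (G.N J) (x q)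
  have a := Nat.mul_le_mul_right (G.sJ J l) (h.L_big l)
  obtain ⟨g1, g2⟩ := h.geo_pts hl hj w (Nat.zero_le _) (cls_pts w far (by omega))
    (fun q _ q' _ ne => sep_ball (fun D e => grp q q' ne D e) (w q) (w q')) hc big
  refine ⟨g1, fun i => h.cls_L (cls_pts w far le_rfl) le_rfl, g2, fun i hi hJ R hR q q' ne => ?_⟩
  refine (((sep_ball (Δ := 5) (fun D e => ?_) Subset.rfl Subset.rfl).tb 2 2).disj (by norm_num))
  have e1 := (Nat.mul_le_mul_left 21 (h.LsJ_anti hi hJ)).trans (far q q' ne _ (h.tk_farT hJ e))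
  have e2 := Nat.mul_le_mul (h.L_big i) (h.LK0 i).1
  rw [sJ, ← mul_assoc (G.L i), ← mul_assoc, mul_comm] at e1
  have := Nat.le_of_mul_le_mul_left e1 (pow_pos three_pos _)
  omega

/-- one group -/
theorem gpt_one {x : ι → St} (hl : l ≤ J) (hj : j ≤ l)
    (far : ∀ q q', q ≠ q' → ∀ D, nearT (G.N J) D (x q) (x q') → 21 * (G.L l * G.sJ J l) ≤ D)
    (hc : Fintype.card ι ≤ c) (big : 1000 * 3 ^ c ≤ G.L j) : G.Gpt (fun _ => ()) c J l j x :=
  h.gpt hl hj far (fun _ _ e => (e rfl).elim) (fun _ => (card_filter_le _ _).trans hc) big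

/-- arrays of groups near the corners of the cells -/
theorem gpt_arr [NeZero m] {y : Weak.Site 4 m → κ → St} (hl : l ≤ J) (hj : j ≤ l)
    (hn : G.N j = m * u) (hu : 30 * G.L j ^ (G.K0 + 1) ≤ u)
    (P : Pta (G.N J) ρ (21 * (G.L l * G.sJ J l)) z y)
    (hρ : ρ ≤ 4 * (G.L j * G.sJ J j)) (hc : Fintype.card κ ≤ c) (big : 1000 * 3 ^ c ≤ G.L j) :
    G.Gpt Prod.fst c J l j (apos (G.rt J j * u) y) := by
  have e : G.N J = m * (G.rt J j * u) := by rw [← h.rt_N (hj.trans hl), hn, mul_left_comm]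
  have a : 30 * (G.L j * G.sJ J j) ≤ G.rt J j * u :=
    le_trans (by rw [sJ]; exact le_of_eq (by ring)) (Nat.mul_le_mul_left _ hu)
  have a1 := h.LsJ_anti hj hl
  have a2 := Nat.mul_le_mul_right (G.sJ J j) (show 40 * c + 46 ≤ G.L j by
    have := Nat.lt_pow_self (n := c) (by norm_num : 1 < 3); omega)
  exact h.gpt hl hj (P.one e (by omega)) (fun q q' ne D d => by have := P.grp e ne d; omega)
    (fun a => (card_fst a).trans hc) big

theorem _root_.Pool.Agent.Lib.MP_7f377f_mp.RG.Q4.En.Gl.Gpt.slg {γ : Type} [DecidableEq γ]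
    {cl : ι → γ} {x : ι → St} (g : G.Gpt cl c J l j x)
    (s : G.Slv b J l f r fun q => {rc (G.N J) (x q)}) : G.Slg b J l j c (G.Q j) cl f r :=
  ⟨_, s, g.geo, g.card⟩

/-- insertions at level `k` into any family which represents the letters `X` -/
theorem ins_fd {H : ι → St → Conf → ℂ} {Ψ : ι → Lx} {J' : ℕ} {z : En.Z} (t : G.Tz J' k z)
    (hk : k ≤ J) (gX : ∀ q, GI (G.N J) (X q))
    (e : G.Fd k z univ r0 r θ Y fun s => G.tt (pr b (G.N J) X s) J k)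
    (u : G.KA (A + 1) k r (G.tA (A + 1) k) Y.K) (hc : Cls (G.N k) δ univ id Y.Z)
    (hm : 7 * ((G.p k).D : ℝ) ≤ δ) (L : ∀ q, Lt (G.p k) (G.N k) (H q) (Ψ q))
    (pu : ∀ q, ∃ x y u, PM (G.p k) x y u (Ψ q))
    (hH : ∀ q y, rc (G.N k) y ∉ Y.Z q → H q y = 0 ∧ Ψ q y = 0)
    (bd : ∀ q y U, r q * ‖H q y U‖ ≤ (G.QA A k ^ 340)⁻¹) :
    ∃ Y' : Fy ι, G.Fd k z univ r r (G.tA A k) Y'
      (G.pq b J k X fun q U => ∑ y ∈ box (G.N k / 2), H q y U) ∧
      G.KA A k r (G.tA A k) Y'.K ∧ Y'.bs = Y.bs ∧ Y'.E = Y.E ∧ Y'.Z = Y.Z ∧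
      ∀ q, Y'.jt {q} = Y.jt {q} + (Ψ q, Mg.i1 (G.p k) (G.N k) (Y.K 0) (H q)) := by
  have p := e.fi.pos
  have gC : ∀ q, GI (G.N k) fun U => ∑ y ∈ box (G.N k / 2), H q y U := fun q => GI.sum fun y _ =>
    ⟨((L q).lf y).meas, ⟨_, fun U => (le_inv_mul_iff₀ (p q)).2 (bd q y U)⟩,
      fun u U a _ => ((L q).lf y).gi u U a⟩
  obtain ⟨d1, d2, d3, d4⟩ := h.insA t (h.fd_up t e (tt_hd (pr_hd gX p) hk)) (fun _ => le_rfl) u hc
    hm (fun q _ => L q) (fun q _ => pu q) hH (fun q _ => bd q) (h.hd_pq (b := b) hk gX gC p)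
    fun U _ T _ => by
      simp only [jd_pq, pa, jd_tt (pr_hd (b := b) gX p) hk, pr_eq, jd_ma _ (subset_univ _)]
  exact ⟨_, d1, d2, d3, rfl, rfl, fun q => d4 q (mem_univ q)⟩

end Ok

end Gl

end Pool.Agent.Lib.MP_7f377f_mp.RG.Q4.En
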