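import Pool.Agent.Lib.MP_7f377f_mp.G.KzG2
import Pool.Agent.Lib.MP_7f377f_mp.G.KzF

/-! Comparison of the reference moments of matched letters of two runs. -/

noncomputable section

open Pool.Agent.Lib.MP_7f377f_mp.Jet

set_option linter.unusedSectionVars false
variable [Pool.Agent.Lib.MP_7f377f_mp.GD]

namespace Pool.Agent.Lib.MP_7f377f_mp.RG.Q4.En

open Finset Function Real Sg Pos Mg Kz
open scoped Classical

attribute [local irreducible] box lbox tb tau rc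

variable {ι : Type} [Fintype ι] [DecidableEq ι]

/-- the constant of the comparison -/
def kH (c : ℕ) (N : ℝ) : ℝ := 2 * cCe c 1 (exp (c * N)) + 2 * exp (2 ^ c * (2 ^ c + 1))

namespace Gl

variable (G : Gl)

/-- the radii of a letter which has the weight `x` at the level `k` -/
def rH (n k : ℕ) (x : ℝ) (m : ℕ) : ℝ := (x * (G.rt m k : ℝ) ^ n)⁻¹

/-- two runs, their hybrid and the level `k` of the comparison -/
structure Xh (A n : ℕ) (τ b b' : ℝ) (J J' i k : ℕ) : Prop where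
  ok : G.Ok
  hp : G.Pu
  hq : G.HP Sd.StA
  t : G.Tu b J
  t' : G.Tu b' J'
  le : J ≤ J'
  hi : i + 20 * (405 * G.K + 1) + 1 ≤ J
  lt : k < i
  big : ∀ m ≥ k, G.Big (A + 1) m
  nA : n + 1 ≤ A
  hb : G.Hb (A + 1) τ b J i k (G.hy b J b' J' i)
  sm : G.QA (A + 1) i ^ 300 * τ ≤ 1

/-- the sources `F` and `F'` of the two runs on the track of `z` have the weight `x` and agree at
the level `k` up to `y * x` -/
structure Yh (A n d : ℕ) (b b' : ℝ) (J J' i k : ℕ) (z : St) (x y : ℝ) (F F' : Sx) : Prop where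
  x0 : 0 < x
  inn : F.In (G.N J) {rc (G.N J) (G.tk z J' J)}
  inn' : F'.In (G.N J') {rc (G.N J') z}
  rx : G.RxA (A + 1) b J k d (G.rH n k x) F
  rx' : G.RxA (A + 1) b' J' i d (G.rH n k x) F'
  hy : ∀ m, k < m → m ≤ i → G.SzA (A + 1) m (G.rH n k x m)
    (G.tH b J (G.hy b J b' J' i) (G.tn b' J' (G.xv b' J' F') J' i) i m)
  e : G.S1 (fun _ => (G.Q k ^ 100)⁻¹) k (y * x * G.bb k)
    (G.tH b J (G.hy b J b' J' i) (G.tn b' J' (G.xv b' J' F') J' i) i k -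
      G.tn b J (G.xv b J F) J k)

/-- the insertion `H` at the site `s` of the level `k` has the weight `x` -/
structure Zh (A k : ℕ) (s : St) (x : ℝ) (H : St → Conf → ℂ) (Ψ : Lx) : Prop where
  lt : Lt (G.p k) (G.N k) H Ψ
  off : ∀ y, rc (G.N k) y ≠ rc (G.N k) s → H y = 0 ∧ Ψ y = 0
  bd : ∀ y U, G.QA A k ^ 340 * ‖H y U‖ ≤ x
  sz : G.SzA (A + 1) k x⁻¹ (Ψ, 0)

/-- base points for the tangent steps of the run `(b, J)` between the levels `i` and `k` -/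
def Rh (b : ℝ) (J i k : ℕ) (B : ℕ → Lx × Ac) : Prop := ∀ m, k ≤ m → m < i →
  St2 (G.sd m (G.zz b J (m + 1))) ∧
    Tg (G.sd m (G.zz b J (m + 1))) (G.Q (m + 1) ^ 100)⁻¹ (B (m + 1)).1 (B (m + 1)).2

variable {G} {A n d c J J' i j k m n0 : ℕ} {τ b b' η ε : ℝ}

section

variable {x y r N N' θ : ℝ} {B : ℕ → Lx × Ac} {u v : Lx × Ac} {s : St} {H : St → Conf → ℂ} {Ψ : Lx}
  {K : Ac} {κ : Mj}

theorem Ok.rh_of (h : G.Ok) (t : G.Tu1 b J) (hm : m < J) {ω : ℝ}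
    (a : G.Sz (m + 1) N N ω u.1 u.2) (e : ω ≤ (G.Q (m + 1) ^ 100)⁻¹) (e' : N ≤ 2 * G.u (m + 1)) :
    St2 (G.sd m (G.zz b J (m + 1))) ∧
      Tg (G.sd m (G.zz b J (m + 1))) (G.Q (m + 1) ^ 100)⁻¹ u.1 u.2 :=
  have f := h.st2 (t.gd (m + 1) hm).tz
  ⟨f, tg_of_sz (h.sd_all m _).nu f (h.sz_fine _ a) (h.sg_le _) (h.om_one (h.om_succ m 100)) e
    ((h.q115 (h.sz_nn a).1 (by linarith [h.u_one (m + 1)])).trans (h.om_mono _ (by norm_num)))⟩

theorem Ok.rh_run (h : G.Ok) (t : G.Tu1 b J) (k : ℕ) : G.Rh b J J k fun m => (G.zz b J m).d :=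
  fun m _ hm => h.rh_of t hm (u := (G.zz b J (m + 1)).d) (t.gd (m + 1) hm).dt.sz (h.sg_le _)
    (by linarith [h.u_one (m + 1)])

theorem Xh.rh (X : G.Xh A n τ b b' J J' i k) : G.Rh b J i k (G.hy b J b' J' i) := fun m h1 h2 => by
  have h := X.ok
  have hm : m < J := h2.trans_le X.hb.le
  have q := h.Q0 (m + 1)
  have q1 := h.Q1 (m + 1)
  have b0 := h.b0 (m + 1)
  have t0 := X.hb.t0
  have z1 := sz_add (h.rh0 _) (sz_gen (ω' := (G.Q (m + 1) ^ 100)⁻¹) (h.rh0 _) q.le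
    (X.t.gd (m + 1) hm).dt.sz le_rfl le_rfl (by rw [mul_one, mul_one]; exact h.sg_le _))
    (X.hb.df (m + 1) (by omega) h2)
  rw [add_sub_cancel, add_sub_cancel] at z1
  refine h.rh_of X.t.toTu1 hm z1 le_rfl ?_
  have a : G.Q (m + 1) ^ 200 * τ ≤ 1 := le_trans (by
    gcongr
    exact (pow_le_pow_right₀ q1 (by norm_num)).trans (pow_le_pow_left₀ q.le
      ((h.Q_mono h2).trans (h.QA_ge _ _)) _)) X.sm
  have : G.bb (m + 1) * τ ^ 2 ≤ G.u (m + 1) := by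
    rw [u, le_div_iff₀ (by positivity)]
    calc _ = G.bb (m + 1) * (G.Q (m + 1) ^ 200 * τ) ^ 2 := by ring
      _ ≤ G.bb (m + 1) * 1 := by gcongr; exact pow_le_one₀ (by positivity) a
      _ = _ := mul_one _
  linarith [h.u_one (m + 1)]

namespace Rh

variable (R : G.Rh b J i k B) (h : G.Ok)
include R h

theorem lin (h1 : k ≤ m) (h2 : m < i) (a : G.Sz (m + 1) N N (G.Q (m + 1) ^ 100)⁻¹ u.1 u.2)
    (a' : G.Sz (m + 1) N' N' (G.Q (m + 1) ^ 100)⁻¹ v.1 v.2) (t : ℂ) :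
    G.ts m (G.zz b J (m + 1)) (B (m + 1)) (u + t • v) =
      G.ts m (G.zz b J (m + 1)) (B (m + 1)) u + t • G.ts m (G.zz b J (m + 1)) (B (m + 1)) v := by
  obtain ⟨s, g⟩ := R m h1 h2
  have n := (h.sd_all m (G.zz b J (m + 1))).nu
  have d := g.dir n (h.sz_fine _ a)
  have d' := g.dir n (h.sz_fine _ a')
  refine Prod.ext ?_ ((dK_add n s g.rm d (d'.smul n t)).trans (congrArg _ (dK_smul ..)))
  obtain ⟨_, _, _, p1, p2, -⟩ := d
  obtain ⟨_, _, _, q1, q2, -⟩ := d'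
  exact s.lin _ _ _ _ _ _ _ _ t p1 q1 p2 q2

theorem sz (h1 : k ≤ m) (h2 : m < i) (a : G.Sz (m + 1) N N (G.Q (m + 1) ^ 100)⁻¹ u.1 u.2)
    (N0 : 0 < N) : G.Sz m (1.01 * N) (1.01 * N) (G.Q m ^ 100)⁻¹
      (G.ts m (G.zz b J (m + 1)) (B (m + 1)) u).1 (G.ts m (G.zz b J (m + 1)) (B (m + 1)) u).2 :=
  (R m h1 h2).2.step1 (h.sd_all m _).nu (R m h1 h2).1 (h.sz_fine _ a) N0 (h.om_succ m 100)

theorem szA (h1 : k ≤ m) (h2 : m < i) (a : G.SzA A (m + 1) r u) (r0 : 0 < r) :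
    G.SzA A m (r / 2) (G.ts m (G.zz b J (m + 1)) (B (m + 1)) u) := by
  obtain ⟨N, a1, a2⟩ := a
  have q := h.QA0 A (m + 1)
  have q' := h.QA0 A m
  have Q0 := h.Q0 (m + 1)
  have b0 := h.b0 (m + 1)
  have e : N ≤ G.bb (m + 1) / (G.QA A (m + 1) ^ 223 * r) := by
    rwa [le_div_iff₀' (by positivity), mul_assoc]
  refine ⟨_, ?_, R.sz h h1 h2 (h.sz_le a2 (by positivity) e e le_rfl) (by positivity)⟩
  have c : G.QA A m ≤ G.QA A (m + 1) :=
    pow_le_pow_left₀ (Nat.cast_nonneg _) (Nat.cast_le.2 (h.L_mono m.le_succ)) _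
  calc _ ≤ G.QA A (m + 1) ^ 223 * (r / 2 * (1.01 * (G.bb (m + 1) / (G.QA A (m + 1) ^ 223 * r)))) := by
        gcongr
    _ = 1.01 / 2 * G.bb (m + 1) := by field_simp
    _ ≤ _ := by linarith [h.b_succ m, h.b0 m]

/-- the tangent flow is linear -/
theorem tH_lin (a : G.Sz i N N (G.Q i ^ 100)⁻¹ u.1 u.2) (a' : G.Sz i N' N' (G.Q i ^ 100)⁻¹ v.1 v.2)
    (t : ℂ) : ∀ m, k ≤ m → m ≤ i →
      G.tH b J B (u + t • v) i m = G.tH b J B u i m + t • G.tH b J B v i m := by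
  have s : ∀ {N u}, G.Sz i N N (G.Q i ^ 100)⁻¹ u.1 u.2 → ∀ m ≤ i, k ≤ m → ∃ M, 0 < M ∧
      G.Sz m M M (G.Q m ^ 100)⁻¹ (G.tH b J B u i m).1 (G.tH b J B u i m).2 := fun {N u} a =>
    dw_ind (fun _ => ⟨N + 1, by linarith [(h.sz_nn a).1], by
      rw [tH_top]
      exact h.sz_le a (inv_pos.2 (pow_pos (h.Q0 i) _)).le (by linarith) (by linarith) le_rfl⟩)
      fun m hm ih e => let ⟨M, M0, c⟩ := ih (by omega)
        ⟨1.01 * M, by positivity, tH_step (G := G) hm ▸ R.sz h e hm c M0⟩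
  refine fun m e e' => dw_ind (P := fun m => k ≤ m → G.tH b J B (u + t • v) i m =
    G.tH b J B u i m + t • G.tH b J B v i m) (fun _ => by simp only [tH_top]) ?_ m e' e
  intro m hm ih e
  obtain ⟨_, -, c⟩ := s a (m + 1) hm (by omega)
  obtain ⟨_, -, c'⟩ := s a' (m + 1) hm (by omega)
  rw [tH_step hm, tH_step hm, tH_step hm, ih (by omega), R.lin h e hm c c']

end Rh

/-- the direction of an insertion -/
theorem Zh.dir (P : G.Zh A k s x H Ψ) (h : G.Ok) (x0 : 0 < x) (big : G.Big (A + 1) k)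
    (k1 : KM (G.p k) (G.N k) κ K) (k2 : kN (G.pA (A + 1) k).up (G.N k) κ θ) (θ0 : 0 < θ)
    (θ1 : G.QA (A + 1) k ^ 700 * θ ≤ 1) : G.SzA A k (2 * x)⁻¹ (Ψ, i1 (G.p k) (G.N k) K H) ∧
      ∃ m, KM (G.p k) (G.N k) m (i1 (G.p k) (G.N k) K H) ∧
        kN (G.pA (A + 1) k) (G.N k) m (G.QA (A + 1) k ^ 340 * θ * x) := by
  have q := h.QA0 A k
  have q' := h.QA0 (A + 1) k
  have q1 : 1 ≤ G.QA A k := by linarith [h.QA1 A k]
  have Q0 := h.Q0 k
  have b0 := h.b0 k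
  have c : G.QA A k ≤ G.QA (A + 1) k :=
    pow_le_pow_right₀ (by linarith [h.L1 k]) (by omega)
  have θ2 : θ ≤ (G.QA (A + 1) k ^ 700)⁻¹ := by rwa [← one_div, le_div_iff₀' (by positivity)]
  obtain ⟨m, m1, m2, -⟩ := h.i1_gen (s := rc (G.N k) s) big k1 k2 θ0 (θ2.trans (inv_anti₀
    (by positivity) (pow_le_pow_right₀ (q1.trans c) (by norm_num)))) P.lt x0
    (fun y U => (le_mul_of_one_le_left (norm_nonneg _) (one_le_pow₀ q1)).trans (P.bd y U))
    fun y e => (P.off y e).1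
  obtain ⟨N, a1, a2⟩ := P.sz
  have N0 := (h.sz_nn a2).1
  have e : N ≤ 2 * x * G.bb k / G.QA A k ^ 223 := by
    rw [le_div_iff₀' (by positivity)]
    calc _ ≤ G.QA (A + 1) k ^ 223 * N := by gcongr
      _ = x * (G.QA (A + 1) k ^ 223 * (x⁻¹ * N)) := by field_simp
      _ ≤ x * G.bb k := by gcongr
      _ ≤ _ := by gcongr; linarith
  refine ⟨⟨_, le_of_eq (by field_simp), (h.sz_le a2 (by positivity) e e le_rfl).1, m, m1,
    (kN_pA m2).mono ?_⟩, m, m1, m2⟩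
  calc _ ≤ G.QA (A + 1) k ^ 340 * (G.QA (A + 1) k ^ 700)⁻¹ * x := by gcongr
    _ = (G.QA (A + 1) k ^ 37)⁻¹ * ((G.QA (A + 1) k ^ 100)⁻¹ * x / G.QA (A + 1) k ^ 223) := by
        field_simp
    _ ≤ 2 * ((G.Q k ^ 100)⁻¹ * x / G.QA A k ^ 223) := by
        gcongr
        · exact (inv_le_one_of_one_le₀ (one_le_pow₀ (q1.trans c))).trans one_le_two
        · exact h.QA_ge _ _
    _ = (G.Q k ^ 100)⁻¹ * (2 * x / G.QA A k ^ 223) * (G.bb k * G.g k ^ 2) := by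
        rw [h.bg]; ring
    _ = _ := by ring

theorem Zh.run (P : G.Zh A k s x H Ψ) (h : G.Ok) (hq : G.HP Sd.StA) (t : G.Tu1 b J) (hk : k ≤ J)
    (x0 : 0 < x) (big : ∀ m ≥ k, G.Big (A + 1) m) :
    G.SzA A k (2 * x)⁻¹ (Ψ, i1 (G.p k) (G.N k) (G.zz b J k).K H) := by
  obtain ⟨m, m1, m2⟩ := h.baseK hq t k hk big
  have g0 := h.g0 k
  have b0 := h.b0 k
  refine (P.dir h x0 (big k le_rfl) m1 m2 (by positivity) ?_).1
  have a : G.QA (A + 1) k ^ 700 ≤ G.bb k := by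
    rw [QA, ← pow_mul]
    exact h.Lbk k (by have := (big k le_rfl).1; omega)
  calc _ ≤ G.bb k * (1 * G.g k ^ 2) := by
        gcongr
        exact (h.sg_le k).trans (inv_le_one_of_one_le₀ (one_le_pow₀ (h.Q1 k)))
    _ = 1 := by rw [one_mul, h.bg]

end

variable {z : ι → St} {x : ι → ℝ} {F F' : ι → Sx} {H : ι → St → Conf → ℂ} {Ψ : ι → Lx}

theorem Ok.rH_rad (h : G.Ok) (nA : n + 1 ≤ A) (big : ∀ m ≥ k, G.Big A m) (x0 : ∀ q, 0 < x q)
    (hm : k ≤ m) : G.Gr A 1 m (G.L m - 2) ((G.L m : ℝ) ^ n) ∧ ∀ q, 0 < G.rH n k (x q) m ∧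
      G.rH n k (x q) m = (G.L m : ℝ) ^ n * G.rH n k (x q) (m + 1) := by
  refine ⟨h.gr_big (big m hm) le_rfl (by omega), fun q => ?_⟩
  have := x0 q
  have := h.L1 m
  have : (0 : ℝ) < G.rt m k := Nat.cast_pos.2 (pow_pos three_pos _)
  rw [rH, rH, h.rt_rt hm m.le_succ, h.rt_one, Nat.cast_mul]
  exact ⟨by positivity, by field_simp; ring⟩

theorem SzA.bd {r : ℝ} {u : Lx × Ac} (a : G.SzA A k r⁻¹ u) (h : G.Ok) (r0 : 0 < r) :
    G.Sz k (r * G.bb k / G.QA A k ^ 223) (r * G.bb k / G.QA A k ^ 223) (G.Q k ^ 100)⁻¹ u.1 u.2 := by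
  obtain ⟨N, a1, a2⟩ := a
  have q := h.QA0 A k
  have Q0 := h.Q0 k
  have e : N ≤ r * G.bb k / G.QA A k ^ 223 := by
    rwa [mul_div_assoc, ← inv_mul_le_iff₀ r0, le_div_iff₀' (by positivity)]
  exact h.sz_le a2 (by positivity) e e le_rfl

/-- the rescaled family of the insertions -/
theorem Rh.ry {B : ℕ → Lx × Ac} (R : G.Rh b J i k B) (h : G.Ok) (hk : k < i) (nA : n + 1 ≤ A)
    (hs : ∀ m < k + 1, B m = G.hs m (G.zz b J (m + 1)) (B (m + 1))) (bz : ∀ m ≤ k + 1, G.Bz m (B m))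
    (x0 : ∀ q, 0 < x q) {Y : Fy ι} {f : (ι → ℂ) → Conf → ℂ} {u p : ι → Lx × Ac}
    (e : G.Fd (k + 1) (G.zz b J (k + 1)) univ (fun q => G.rH n k (x q) (k + 1))
      (fun q => G.rH n k (x q) (k + 1)) (G.tA A (k + 1)) Y f) (e1 : Y.bs = B (k + 1))
    (ec : Y.Ec univ id) (jt : ∀ q, Y.jt {q} = u q + p q)
    (su : ∀ q, G.SzA (A + 1) (k + 1) (G.rH n k (x q) (k + 1)) (u q))
    (sp : ∀ q, G.SzA A (k + 1) (2 * x q)⁻¹ (p q)) {r : ι → ℝ}
    (hr : ∀ q, r q = (G.QA (A + 1) (k + 1) ^ 52 * x q)⁻¹) :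
    G.Ry univ b J (k + 1) k 1 B (Y.scv r) (fun s => f (scl r s)) ∧
      ∀ q, G.tH b J B ((Y.scv r).jt {q}) (k + 1) k =
        (r q : ℂ) • (G.ts k (G.zz b J (k + 1)) (B (k + 1)) (u q) +
          G.ts k (G.zz b J (k + 1)) (B (k + 1)) (p q)) := by
  have q0 := h.QA0 (A + 1) (k + 1)
  have q1 := h.QA1 (A + 1) (k + 1)
  have q2 := h.QA0 A (k + 1)
  have Q0 := h.Q0 (k + 1)
  have b0 := h.b0 (k + 1)
  have L1 := h.L1 k
  have p0 : ∀ q, 0 < r q := fun q => by have := x0 q; rw [hr]; positivity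
  have Ln : (G.L k : ℝ) ^ n ≤ G.QA (A + 1) (k + 1) :=
    (pow_le_pow_left₀ (by linarith) (Nat.cast_le.2 (h.L_mono k.le_succ)) _).trans
      (pow_le_pow_right₀ (by linarith [h.L1 (k + 1)]) (by omega))
  have c : G.QA A (k + 1) ≤ G.QA (A + 1) (k + 1) :=
    pow_le_pow_right₀ (by linarith [h.L1 (k + 1)]) (by omega)
  have r1 : ∀ q, 1 ≤ G.rH n k (x q) (k + 1) / r q := fun q => by
    have := x0 q
    rw [rH, hr, h.rt_one, div_inv_eq_mul, le_inv_mul_iff₀ (by positivity), mul_one, mul_comm]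
    gcongr
    exact Ln.trans (le_self_pow₀ (by linarith) (by norm_num))
  have j1 : ∀ q, (Y.scv r).jt {q} = (r q : ℂ) • (u q + p q) := fun q => by
    rw [← jt]
    simp only [Fy.jt, Fy.scv, jL_scl, jA_scl, prod_singleton, Prod.smul_mk]
  have a1 := fun q => (su q).bd h (r := x q * (G.rt (k + 1) k : ℝ) ^ n) (by
    have := x0 q; rw [h.rt_one]; positivity)
  have a2 := fun q => (sp q).bd h (mul_pos two_pos (x0 q))
  have a3 := fun q => sz_add (h.rh0 _) (a1 q) (a2 q)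
  have a4 : ∀ q, G.SzA A (k + 1) (2 * G.Q (k + 1) ^ 50) ((r q : ℂ) • (u q + p q)) := fun q => by
    refine ⟨_, ?_, sz_smul (h.rh0 _) (a3 q) _⟩
    have := x0 q
    rw [Complex.norm_of_nonneg (p0 q).le, hr, h.rt_one]
    calc _ ≤ G.QA A (k + 1) ^ 223 * (2 * G.QA (A + 1) (k + 1) ^ 50 *
          ((G.QA (A + 1) (k + 1) ^ 52 * x q)⁻¹ * (x q * G.QA (A + 1) (k + 1) * G.bb (k + 1) /
            G.QA A (k + 1) ^ 223 + 2 * x q * G.bb (k + 1) / G.QA A (k + 1) ^ 223))) := by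
          gcongr
          exact h.QA_ge _ _
      _ = 2 * (G.QA (A + 1) (k + 1) + 2) / G.QA (A + 1) (k + 1) ^ 2 * G.bb (k + 1) := by field_simp
      _ ≤ 1 * G.bb (k + 1) := by
          gcongr
          rw [div_le_one (by positivity)]
          nlinarith
      _ = _ := one_mul _
  have e' := h.fd_sc e p0
  have mo : ∀ {m r r' u}, G.SzA A m r u → r' ≤ r → G.SzA A m r' u := fun a c =>
    a.imp fun _ e => ⟨le_trans (mul_le_mul_of_nonneg_left
      (mul_le_mul_of_nonneg_right c (h.sz_nn e.2).1) (pow_pos (h.QA0 A _) _).le) e.1, e.2⟩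
  refine ⟨h.ry_of (a := A) e' le_rfl one_pos r1 (hd_less e'.eq.fst (fun _ => one_pos) r1)
    (by simpa only [Fy.bs, Fy.scv, scl_zero] using e1) (fun T hT a ha a' ha' w =>
      (jd_scl r Y.E T).trans (by rw [ec T hT a ha a' ha' w, mul_zero])) hs bz
    fun m m1 m2 q _ => ?_, fun q => ?_⟩
  · rw [j1, mul_one]
    rcases m1.eq_or_lt with rfl | m1
    · rw [tH_step k.lt_succ_self, tH_top]
      refine mo (R.szA h le_rfl hk (a4 q) (by positivity)) ?_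
      rw [mul_div_cancel_left₀ _ two_ne_zero]
      exact pow_le_pow_left₀ (h.Q0 k).le (h.Q_mono k.le_succ) _
    · obtain rfl : m = k + 1 := by omega
      rw [tH_top]
      exact mo (a4 q) (by linarith [pow_pos Q0 50])
  · have l1 := R.lin h le_rfl hk (a1 q) (a2 q) 1
    have l2 := R.lin h le_rfl hk (u := u q + p q) (v := u q + p q) (a3 q) (a3 q) (r q - 1)
    rw [one_smul, one_smul] at l1
    rw [j1, tH_step k.lt_succ_self, tH_top, ← l1, ← sub_add_cancel (r q : ℂ) 1, add_smul, add_smul,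
      one_smul, one_smul, add_comm (_ • _), l2, add_comm (_ • _)]

/-- the tangent step of an insertion depends little on the base point -/
theorem Xh.pdf (X : G.Xh A n τ b b' J J' i k) {s : St} {x : ℝ} {H : St → Conf → ℂ} {Ψ : Lx}
    (P : G.Zh A (k + 1) s x H Ψ) (x0 : 0 < x) {p p' : Lx × Ac}
    (e : p = (Ψ, i1 (G.p (k + 1)) (G.N (k + 1)) (G.hy b J b' J' i (k + 1)).2 H))
    (e' : p' = (Ψ, i1 (G.p (k + 1)) (G.N (k + 1)) (G.zz b J (k + 1)).K H)) :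
    G.SzA A (k + 1) (2 * x)⁻¹ p ∧ G.S1 (fun _ => (G.Q k ^ 100)⁻¹) k (τ * x * G.bb k)
      (G.ts k (G.zz b J (k + 1)) (G.hy b J b' J' i (k + 1)) p -
        G.ts k (G.zz b J (k + 1)) (G.zz b J (k + 1)).d p') := by
  have h := X.ok
  have kJ : k < J := X.lt.trans_le X.hb.le
  have t0 := X.hb.t0
  have q0 := h.QA0 (A + 1) (k + 1)
  have q1 := h.QA1 (A + 1) (k + 1)
  have q2 := h.QA1 (A + 1) k
  have Q0 := h.Q0 (k + 1)
  have Q1 := h.Q0 k
  have b0 := h.b0 (k + 1)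
  have b1 := h.b0 k
  have g0 := h.g0 (k + 1)
  have bg := X.big (k + 1) k.le_succ
  obtain ⟨q, hq⟩ : ∃ q, q = G.QA (A + 1) (k + 1) := ⟨_, rfl⟩
  have sm : q ^ 300 * τ ≤ 1 := le_trans (by
    rw [hq]
    gcongr
    exact pow_le_pow_left₀ (Nat.cast_nonneg _) (Nat.cast_le.2 (h.L_mono X.lt)) _) X.sm
  have c0 : G.Q (k + 1) ≤ q := hq ▸ h.QA_ge _ _
  have c1 : G.Q k ≤ q := (h.Q_mono k.le_succ).trans c0
  rw [← hq] at q0 q1
  have s2 : (q ^ 300 * τ) ^ 2 ≤ 1 := pow_le_one₀ (by positivity) sm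
  have s3 : ∀ a ≤ 598, 1000 * (q ^ a * τ ^ 2) ≤ 1 := fun a ha => le_trans (by
    calc _ ≤ q * (q ^ 598 * τ ^ 2) := by gcongr; linarith
      _ ≤ q * (q * q ^ 598 * τ ^ 2) := by
          gcongr; exact le_mul_of_one_le_left (by positivity) (by linarith)
      _ = _ := by ring) s2
  have s4 : q ^ 700 * τ ^ 3 ≤ 1 := by
    calc _ ≤ q ^ 900 * τ ^ 3 := by gcongr; exacts [by linarith, by norm_num]
      _ = (q ^ 300 * τ) ^ 3 := by ring
      _ ≤ 1 := pow_le_one₀ (by positivity) sm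
  have t1 : τ ≤ 1 := (le_mul_of_one_le_left t0.le (one_le_pow₀ (by linarith))).trans sm
  have gt := (X.hb.nm (k + 1) k.le_succ X.lt).2.1
  have gs : √(G.g (k + 1)) ≤ τ := sqrt_le_iff.2 ⟨t0.le, gt⟩
  obtain ⟨m, m1, m2⟩ := X.hb.ka (k + 1) k.le_succ X.lt
  obtain ⟨m', m3, m4⟩ := h.baseK X.hq X.t.toTu1 (k + 1) kJ fun a ha => X.big a (by omega)
  obtain ⟨d1, μ, d2, d3⟩ := P.dir h x0 bg m1 m2 (by positivity) (hq ▸ s4)
  obtain ⟨d4, μ', d5, d6⟩ := P.dir h x0 bg m3 (m4.mono (θ' := τ ^ 3) (by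
    rw [pow_succ' τ 2]
    gcongr ?_ * ?_
    exact le_trans (by nlinarith [h.g1 (k + 1)]) gt)) (by positivity) (hq ▸ s4)
  rw [← hq] at d3 d6
  obtain ⟨y, y1, y2⟩ := h.sz_puA P.sz (by positivity)
  have y3 : PU (G.p (k + 1)) (x * (q ^ 211)⁻¹) Ψ :=
    pu_mono y2 (by rwa [← inv_mul_le_iff₀ x0, hq])
  obtain ⟨ν, n1, n2⟩ := (X.hb.tan h X.hq X.t.toTu1 le_rfl X.lt).2 _ _ μ
    (show 0 < x * (q ^ 211)⁻¹ by positivity) d3
  obtain ⟨ν', n3, n4⟩ := h.tanK X.hq X.t.toTu1 kJ X.big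
    (show 0 < x * (q ^ 211)⁻¹ by positivity) d6
  subst e e'
  refine ⟨d1, ?_⟩
  have R := h.rh_run X.t.toTu1 k
  have a1 := d1.bd h (mul_pos two_pos x0)
  have a2 := d4.bd h (mul_pos two_pos x0)
  have l := R.lin h le_rfl kJ a1 a2 (-1)
  have z : G.Sz (k + 1) (τ * x * G.bb k / 2) (τ * x * G.bb k / 2) (G.Q (k + 1) ^ 100)⁻¹ 0
      (i1 (G.p (k + 1)) (G.N (k + 1)) (G.hy b J b' J' i (k + 1)).2 H +
        (-1 : ℂ) • i1 (G.p (k + 1)) (G.N (k + 1)) (G.zz b J (k + 1)).K H) := by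
    refine ⟨PM.mono (h.rh0 _) (pm_zero (h.rh0 _)) (by positivity) (by positivity) (by positivity),
      _, d2.add (d5.smul _), (((kN_pA d3).add ((kN_pA d6).smul (norm_nonneg _)))).mono ?_⟩
    rw [norm_neg, norm_one, one_mul]
    calc _ = 2 * (q ^ 440 * τ ^ 2) * ((q ^ 100)⁻¹ * (τ * x * G.bb (k + 1)) * G.g (k + 1) ^ 2) := by
          have := h.bg (k + 1)
          field_simp
          linear_combination (-2) * this
      _ ≤ 2 * (1 / 1000) * ((G.Q (k + 1) ^ 100)⁻¹ * (τ * x * (2 * G.bb k)) * G.g (k + 1) ^ 2) := by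
          gcongr
          exacts [by linarith [s3 440 (by norm_num)], by linarith [h.b_succ k]]
      _ ≤ _ := by
          have : 0 < (G.Q (k + 1) ^ 100)⁻¹ * (τ * x * G.bb k) * G.g (k + 1) ^ 2 := by positivity
          linarith
  have le : 1.01 * (τ * x * G.bb k / 2) ≤ τ * x * G.bb k := by
    linarith [show 0 < τ * x * G.bb k by positivity]
  have z1 := (h.sz_le (R.sz h le_rfl kJ (u := (Ψ, _) + (-1 : ℂ) • (Ψ, _)) (by simpa using z)
    (by positivity)) (by positivity) le le le_rfl).1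
  rw [l] at z1
  have w : ∀ t ≤ τ, 6 * (t * (x * (q ^ 211)⁻¹) + q ^ 340 * τ ^ 3 * x) / G.QA (A + 1) k ≤
      (G.Q k ^ 100)⁻¹ * (τ * x * G.bb k) * G.g k ^ 2 / 2 := fun t ht => by
    have u1 : (q ^ 211)⁻¹ ≤ (G.Q k ^ 100)⁻¹ := inv_anti₀ (by positivity)
      ((pow_le_pow_left₀ Q1.le c1 _).trans (pow_le_pow_right₀ (by linarith) (by norm_num)))
    have u2 : q ^ 340 * τ ^ 2 ≤ (G.Q k ^ 100)⁻¹ := by
      rw [← one_div, le_div_iff₀ (by positivity)]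
      calc _ ≤ q ^ 340 * τ ^ 2 * q ^ 100 := by gcongr
        _ = q ^ 440 * τ ^ 2 := by ring
        _ ≤ 1 := by linarith [s3 440 (by norm_num), show 0 < q ^ 440 * τ ^ 2 by positivity]
    calc _ = 6 * (t * (x * (q ^ 211)⁻¹) + q ^ 340 * τ ^ 2 * (τ * x)) / G.QA (A + 1) k := by ring
      _ ≤ 6 * (τ * (x * (G.Q k ^ 100)⁻¹) + (G.Q k ^ 100)⁻¹ * (τ * x)) / 24 := by
          gcongr; linarith
      _ = (G.Q k ^ 100)⁻¹ * (τ * x) * (G.bb k * G.g k ^ 2) / 2 := by rw [h.bg]; ring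
      _ = _ := by ring
  exact ⟨by simpa [ts, sub_eq_add_neg] using z1, _,
    by simpa [sub_eq_add_neg] using (n2 _ y3 d2).add ((n4 _ y3 d5).smul (-1)),
    (((kN_pA n1).mono (w τ le_rfl)).add ((kN_pA (kN_up n3)).mono (w _ gs))).mono (by linarith)⟩

/-- the comparison -/
theorem Xh.cmp (X : G.Xh A n τ b b' J J' i k) (hd : d ≤ (G.p J).R) (hd' : d ≤ (G.p J').R)
    (M : ∀ q, G.Yh A n d b b' J J' i k (z q) (x q) η (F q) (F' q))
    (P : ∀ q, G.Zh A (k + 1) (G.tk (z q) J' (k + 1)) (x q) (H q) (Ψ q))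
    (far : ∀ q q', q ≠ q' → ∀ D, nearT (G.N J') D (z q) (z q') → 21 * (G.L k * G.sJ J' k) ≤ D)
    (hc : Fintype.card ι = c) (big : 1000 * 3 ^ c ≤ G.L j) (hj : j < k)
    (hn : j + n0 * (Nat.log 2 (G.L k) + 1) ≤ k) (hτ : τ ≤ η)
    (h1 : 2 ^ (c + 1) * G.Q k ^ 100 * exp (2 - G.L k) ≤ η)
    (h2 : 4 * (c + 1) * G.Q k ^ 62 * (G.L k : ℝ) ^ (3 * n0) * η + 2 / (G.L k : ℝ) ^ (6 * n0) ≤ ε)
    (h3 : ε < 1) :
    ‖cmo (G.mpa b' J' (k + 1) j (fun q U => -xO (G.N J') (F' q) U)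
        fun q U => ∑ y ∈ box (G.N (k + 1) / 2), H q y U) -
      cmo (G.mpa b J (k + 1) j (fun q U => -xO (G.N J) (F q) U)
        fun q U => ∑ y ∈ box (G.N (k + 1) / 2), H q y U)‖ ≤
      kH c (G.Q j) * (ε + (2 ^ (k - j))⁻¹) * ∏ q, G.QA (A + 1) (k + 1) ^ 52 * x q := by
  have h := X.ok
  have iJ := X.hb.le
  have JJ := X.le
  have ki := X.lt
  have nA := X.nA
  have t0 := X.hb.t0
  have x0 := fun q => (M q).x0
  have g := h.gpt_one (l := k) (j := j) (by omega) hj.le far hc.le big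
  have ra := fun m => h.rH_rad (n := n) (k := k) (m := m) (by omega) X.big x0
  have rad : ∀ {I} m, k ≤ m → G.Gr (A + 1) 1 m (G.L m - 2) ((G.L m : ℝ) ^ n) ∧ ∀ q,
      0 < G.rH n k (x q) m ∧ (m < I → G.rH n k (x q) m ≤ (G.L m : ℝ) ^ n * G.rH n k (x q) (m + 1)) :=
    fun m a => ⟨(ra m a).1, fun q => ⟨((ra m a).2 q).1, fun _ => ((ra m a).2 q).2.le⟩⟩
  have cel : ∀ m, k ≤ m → m ≤ J' → Cls (G.N m) (((G.L m - 2 : ℕ) + 2) * (G.p m).D) univ id
      fun q => G.zs {rc (G.N J') (z q)} J' m := fun m a a' => h.dL_eq m ▸ g.cls m a a'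
  have gX : ∀ q, GI (G.N J') fun U => -xO (G.N J') (F' q) U := fun q =>
    let ⟨_, _, a, _⟩ := (M q).rx'.1; gi_neg (gi_xO a)
  have hm : 7 * ((G.p (k + 1)).D : ℝ) ≤ G.dL (k + 1) :=
    mul_le_mul_of_nonneg_right (by linarith [h.L1 (k + 1)]) (h.D_pos _).le
  have pu : ∀ q, ∃ a y u, PM (G.p (k + 1)) a y u (Ψ q) := fun q =>
    ⟨_, _, _, (P q).sz.choose_spec.2.1⟩
  have hH : ∀ q y, rc (G.N (k + 1)) y ∉ G.zs {rc (G.N J') (z q)} J' (k + 1) →
      H q y = 0 ∧ Ψ q y = 0 := fun q y a => (P q).off y fun e =>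
    a (e ▸ h.tk_zs (mem_singleton_self _) _ (by omega))
  have bd : ∀ q y U, G.rH n k (x q) (k + 1) * ‖H q y U‖ ≤ (G.QA A (k + 1) ^ 340)⁻¹ := fun q y U => by
    have := x0 q
    have := h.QA0 A (k + 1)
    have : (1 : ℝ) ≤ (G.L k : ℝ) ^ n := one_le_pow₀ (by linarith [h.L1 k])
    rw [rH, h.rt_one, inv_mul_le_iff₀ (by positivity), le_mul_inv_iff₀ (by positivity), mul_comm]
    exact ((P q).bd y U).trans (le_mul_of_one_le_right (by positivity) this)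
  obtain ⟨c1, c2, c3, c4, c5, -⟩ := h.srcA X.t' X.hp X.hq (iJ.trans JJ)
    (fun m a => X.big m (by omega)) hd' (fun m a _ => rad m (by omega)) (fun q => (M q).inn')
    (fun q => (M q).rx') (fun m a => cel m (by omega)) i (iJ.trans JJ) le_rfl
  obtain ⟨Y, y1, y2, y3, y4, y5, y6⟩ := h.exch c1 c3 (h.hy_bz X.t X.t' JJ X.hi le_rfl)
  have yz : ∀ m ≤ i, (fun q => G.zs (Y.Z q) i m) = fun q => G.zs {rc (G.N J') (z q)} J' m :=
    fun m a => funext fun q => by rw [y6, xw_Z (iJ.trans JJ), zs_zs (iJ.trans JJ) a]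
  have yj : ∀ q, Y.jt {q} = G.tn b' J' (G.xv b' J' (F' q)) J' i := fun q => by
    rw [y3 q (mem_univ q), (c5 q).1]
  obtain ⟨d1, d2, d3, d4, d5, -⟩ := h.chainH (r := fun m q => G.rH n k (x q) m) X.t.toTu1 X.hp X.hq
    (X.hb.down h le_rfl k.le_succ) (fun m a a' => by
      have q1 := h.QA1 (A + 1) m
      have : G.QA (A + 1) m ^ 300 * τ ≤ 1 := le_trans (by
        gcongr
        exact pow_le_pow_left₀ (Nat.cast_nonneg _) (Nat.cast_le.2 (h.L_mono a')) _) X.sm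
      rw [← one_div, le_div_iff₀' (by positivity)]
      calc _ ≤ G.QA (A + 1) m ^ 600 * τ ^ 2 := by gcongr; exacts [by linarith, by norm_num]
        _ = (G.QA (A + 1) m ^ 300 * τ) ^ 2 := by ring
        _ ≤ 1 := pow_le_one₀ (by positivity) this)
    (fun m a a' q _ => yj q ▸ h.sz_puA ((M q).hy m a a') ((ra m (by omega)).2 q).1.le)
    (fun m a a' => yz m a' ▸ cel m (by omega) (by omega)) (fun m a a' =>
      let ⟨n1, n2, n3, n4, _⟩ := (ra m (by omega)).1.num le_rfl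
      ⟨n1, n2, n3, n4, fun q => ⟨by
        have := x0 q
        have : (0 : ℝ) < G.rt m k := Nat.cast_pos.2 (pow_pos three_pos _)
        unfold rH
        gcongr
        rw [h.rt_rt (show k ≤ m by omega) a']
        exact Nat.le_mul_of_pos_left _ (pow_pos three_pos _),
        ((rad m (by omega)).2 q).2⟩⟩) y1 (y4 ▸ c2) y2 (by rw [Fy.Ec, y5]; exact c4) (k + 1) ki le_rfl
  simp only [tt_tt (iJ.trans JJ) _ ki] at d1
  have fz : (G.fw univ b J Y i (k + 1)).Z = fun q => G.zs {rc (G.N J') (z q)} J' (k + 1) := by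
    rw [fw_Z _ ki, yz _ ki]
  obtain ⟨Y1, e1, -, e2, e3, e4, e5⟩ := h.ins_fd (X.t.gd (k + 1) (by omega)).tz (by omega) gX d1 d2
    (fz ▸ g.cls _ k.le_succ (by omega)) hm (fun q => (P q).lt) pu (fz ▸ hH) bd
  have zJ : ∀ m ≤ J, (fun q => G.zs (G.zs {rc (G.N J') (z q)} J' J) J m) =
      fun q => G.zs {rc (G.N J') (z q)} J' m := fun m a => funext fun q => zs_zs JJ a
  obtain ⟨Y2, f1, -, f2, f3, f4⟩ := h.ins_src X.t X.hp X.hq (k := k + 1) (F := F)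
    (W := fun q => G.zs {rc (G.N J') (z q)} J' J) (R := fun m q => G.rH n k (x q) m) (by omega)
    (fun m a => X.big m (by omega)) hd (fun m a _ => rad m (by omega))
    (fun q y a => (M q).inn y fun e => a (mem_singleton.1 e ▸ h.tk_zs (mem_singleton_self _) _ JJ))
    (fun q => ⟨(M q).rx.1, fun m a => (M q).rx.2 m (by omega)⟩)
    (fun m a a' => zJ m a' ▸ cel m (by omega) (by omega))
    (zJ (k + 1) (by omega) ▸ g.cls _ k.le_succ (by omega)) hm (fun q => (P q).lt) pu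
    (fun q y => by rw [zs_zs JJ (by omega)]; exact hH q y) bd
  have pd := fun q => X.pdf (P q) (x0 q) rfl rfl
  obtain ⟨r, hr⟩ : ∃ r : ι → ℝ, ∀ q, r q = (G.QA (A + 1) (k + 1) ^ 52 * x q)⁻¹ := ⟨_, fun _ => rfl⟩
  have q1 := h.QA1 (A + 1) (k + 1)
  have p0 : ∀ q, 0 < r q := fun q => by have := x0 q; rw [hr]; positivity
  obtain ⟨R1, s1⟩ := X.rh.ry h ki nA (fun m a => X.hb.hs m (by omega))
    (fun m a => h.hy_bz X.t X.t' JJ X.hi (by omega)) x0 e1 (e2.trans d3)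
    (by rw [Fy.Ec, e3]; exact d5) (fun q => by
      rw [e5, d4 q (mem_univ q), yj, show (G.fw univ b J Y i (k + 1)).K 0 = _ from
        congrArg Prod.snd d3]) (fun q => (M q).hy _ k.lt_succ_self ki) (fun q => (pd q).1) hr
  obtain ⟨R2, s2⟩ := (h.rh_run X.t.toTu1 k).ry h (by omega) nA (fun m a => h.run_hs m (by omega))
    (fun m a => h.bz_run X.t (by omega)) x0 f1 f2 f3 (fun q => (f4 q).2)
    (fun q => (M q).rx.2 _ k.le_succ (by omega))
    (fun q => (P q).run h X.hq X.t.toTu1 (by omega) (x0 q) fun m a => X.big m (by omega)) hr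
  have Z1 : (Y1.scv r).Z = fun q => G.zs {rc (G.N J') (z q)} J' (k + 1) := e4.trans fz
  have Z2 : (Y2.scv r).Z = (Y1.scv r).Z := Z1 ▸ funext fun q => (f4 q).1.trans (zs_zs JJ (by omega))
  have zk : ∀ m ≤ k + 1, ∀ q, G.zs ((Y1.scv r).Z q) (k + 1) m = G.zs {rc (G.N J') (z q)} J' m :=
    fun m a q => by rw [Z1, zs_zs (by omega) a]
  have ge : G.Geo univ (fun _ => ()) c (Y1.scv r).Z (k + 1) k j :=
    ⟨fun m a a' => by simpa only [zk m a'] using g.geo.one m a (by omega),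
      fun _ _ _ _ _ _ _ e => (e rfl).elim, g.geo.card, big,
      by simpa only [zk k k.le_succ] using g.geo.vol⟩
  have b0 := h.b0 k
  have Q1 := h.Q1 k
  have η0 := t0.trans_le hτ
  have L1 := h.L1 k
  have ε0 : 0 < ε := lt_of_lt_of_le (by positivity) h2
  have cm := fun T => h.cmp_ptN (x := η * G.bb k) (C := G.L k) (T := T) X.hp X.t hn le_rfl
    k.lt_succ_self (by omega) one_pos R1 R2 Z2 (card_univ.trans hc).le ge (by positivity)
    (X.hb.df k le_rfl ki.le) (fun q _ => by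
      have := x0 q
      have a := sz_smul (h.rh0 _) (sz_add (h.rh0 _) (M q).e (pd q).2) (r q)
      have le : ‖(r q : ℂ)‖ * (η * x q * G.bb k + τ * x q * G.bb k) ≤ η * G.bb k := by
        rw [Complex.norm_of_nonneg (p0 q).le, hr, inv_mul_le_iff₀ (by positivity)]
        calc _ ≤ η * x q * G.bb k + η * x q * G.bb k := by gcongr
          _ = 2 * x q * (η * G.bb k) := by ring
          _ ≤ _ := by
            gcongr
            exact le_trans (by linarith) (le_self_pow₀ (by linarith) (by norm_num))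
      rw [s1, s2, ← smul_sub, add_sub_add_comm, ← tH_step ki,
        ← show G.tn b J _ J k = G.ts k _ (G.zz b J (k + 1)).d _ from tn_step (by omega)]
      exact h.sz_le a (by positivity) le le le_rfl)
    (by simpa only [zk k k.le_succ, dL] using g.cls k le_rfl (by omega)) (fun m a q => by
      rw [zk m (by omega)]
      exact (h.card_zs' (rc_tb _ _) (by omega) (Nat.zero_le _)).trans
        ((h.Q_mono a).trans (le_self_pow₀ Q1 (by norm_num)))) (subset_univ T)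
  have cd : ∀ q, ((G.zs ((Y1.scv r).Z q) (k + 1) j).card : ℝ) ≤ G.Q j := fun q => by
    rw [zk j (by omega)]; exact g.card q
  obtain ⟨u1, -, u2⟩ := h.ry_fg X.t X.hp (by omega) k.le_succ hj.le one_pos R1 ge cd
  obtain ⟨v1, -, v2⟩ := h.ry_fg X.t X.hp (by omega) k.le_succ hj.le one_pos R2 (Z2 ▸ ge) (Z2 ▸ cd)
  have δ1 : ((2 : ℝ) ^ (k - j))⁻¹ < 1 := inv_lt_one_of_one_lt₀ (one_lt_pow₀ one_lt_two (by omega))
  have ce1 : ∀ {E : (ι → ℂ) → ℂ} {T : Finset ι}, 2 ≤ T.card → YM7.ce E T = jd T E := fun a =>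
    if_neg (card_pos.1 (by omega)).ne_empty
  have cn : ∀ {f} {Y : Fy ι}, G.Fg j univ f (2 ^ (k - j) * 1)⁻¹ (G.Q j) Y →
      (∀ T ⊆ univ, 2 ≤ T.card → ‖jd T Y.E‖ ≤ 1⁻¹ ^ T.card) →
      ‖cmo (rmo f) - mtm (YM7.ce Y.E)‖ ≤ cCe c 1 (exp (c * G.Q j)) * (2 ^ (k - j))⁻¹ :=
    fun {f Y} a a' => by
    simpa [hc] using Rdm.cen (m := rmo f) (e := YM7.ce Y.E) (M := exp (c * G.Q j)) (r := fun _ => 1) (ε := (2 ^ (k - j))⁻¹) (X := 1)
      (by simpa [hc] using h.rd_fg a (by positivity)) (by positivity) δ1 zero_le_one fun T hT => by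
        simpa [ce1 hT] using a' T (subset_univ T) hT
  have w1 := cn u1 u2
  have w2 := cn v1 v2
  have w3 := mtm_cmp (r := fun _ => 1) (fun _ => one_pos) ε0 h3
    (e := YM7.ce (G.fw univ b J (Y1.scv r) (k + 1) j).E)
    (e' := YM7.ce (G.fw univ b J (Y2.scv r) (k + 1) j).E)
    fun T hT => by
      rw [ce1 hT, ce1 hT]
      refine ⟨by simpa using v2 T (subset_univ T) hT, (cm T hT).trans ?_⟩
      have t1 : τ ≤ 1 := (le_mul_of_one_le_left t0.le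
        (one_le_pow₀ (by linarith [h.QA1 (A + 1) i]))).trans X.sm
      have e : (G.bb k * τ ^ 2 + c * (1 * (η * G.bb k))) * G.g k ^ 2 = τ ^ 2 + c * η := by
        linear_combination (τ ^ 2 + c * η) * h.bg k
      simp only [e, Nat.sub_self, pow_zero, mul_one, inv_one, one_pow, prod_const_one]
      refine le_trans (add_le_add_left ?_ _) h2
      calc _ ≤ 2 * G.Q k ^ 62 * (G.L k : ℝ) ^ (3 * n0) * (2 * (c + 1) * η) := by
            gcongr
            nlinarith [mul_nonneg (Nat.cast_nonneg (α := ℝ) c) η0.le]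
        _ = _ := by ring
  rw [rmo_scl r fun s => G.tt (G.pq _ _ _ _ _ s) (k + 1) j, cmo_sc] at w1 w2
  simp only [inv_one, prod_const_one, mul_one, hc] at w3
  rw [prod_congr rfl fun q _ => (inv_inv _).symm.trans (congrArg _ (hr q).symm), ← sc_le p0, mul_sub]
  refine le_trans (le_of_eq (congrArg _ ?_)) ((norm_sub_le_of_le (norm_add_le_of_le w1 w3) w2).trans ?_)
  · simp only [mpa]; ring
  have : 0 ≤ cCe c 1 (exp (c * G.Q j)) := by unfold cCe; positivity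
  rw [kH]
  nlinarith [mul_nonneg this ε0.le, show 0 < exp (2 ^ c * (2 ^ c + 1)) * (2 ^ (k - j))⁻¹ by positivity]

end Gl

end Pool.Agent.Lib.MP_7f377f_mp.RG.Q4.En
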