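import Pool.Agent.Lib.MP_7f377f_mp.G.KzX
import Pool.Agent.Lib.MP_7f377f_mp.G.KwN
import Pool.Agent.Lib.MP_7f377f_mp.G.KyH

/-! Short runs and their Wick ordered letters. -/

noncomputable section

set_option linter.unusedSectionVars false
variable [Pool.Agent.Lib.MP_7f377f_mp.GD]

namespace Pool.Agent.Lib.MP_7f377f_mp.RG.Tl

open Finset Wd Q4
open Kw (sc)
open Zg (V0 Og r0)

variable (𝒜 : Set CM) [Og 𝒜] [Adj 𝒜] (ε r : ℝ)

/-- the equivariant Wick ordered letter -/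
def Ze : V0 𝒜 →ₗ[ℝ] Pl := (Fintype.card B4 : ℝ)⁻¹ • ∑ g,
  ((act g).comp (sc (fun _ => 1) (r : ℂ))).toLinearMap.restrictScalars ℝ ∘ₗ ls 𝒜 ∘ₗ zV 𝒜 ε ∘ₗ
    r0 𝒜 (gI g⁻¹)

variable {𝒜}

theorem Ze_ap (c : V0 𝒜) : Ze 𝒜 ε r c = (Fintype.card B4 : ℝ)⁻¹ •
    ∑ g, act g (sc (fun _ => 1) (r : ℂ) (ls 𝒜 (zV 𝒜 ε (r0 𝒜 (gI g⁻¹) c)))) := by
  simp [Ze]

/-- exact equivariance -/
theorem act_Ze (g : B4) (c : V0 𝒜) : act g (Ze 𝒜 ε r c) = Ze 𝒜 ε r (r0 𝒜 (gI g) c) := by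
  rw [Ze_ap _ _ (r0 _ _ _), ← Equiv.sum_comp (Equiv.mulLeft g), Ze_ap, ← Complex.coe_smul,
    ← Complex.coe_smul, map_smul, map_sum]
  simp only [Equiv.coe_mulLeft, act_mul, ← r0_gI, _root_.mul_inv_rev, inv_mul_cancel_right]

theorem Ze_gl (c : V0 𝒜) : Iv (Ze 𝒜 ε r c) ∧ Rl (Ze 𝒜 ε r c) := by
  simp only [Ze_ap, ← Complex.coe_smul, ← zl_zV]
  refine ⟨.smul (.sum fun g _ => (iv_zl (iv_cx.2 (r0 𝒜 (gI g⁻¹) c).2.1)).act g) _, ?_⟩
  rw [Rl, cj_smul, Complex.conj_ofReal, map_sum, sum_congr rfl fun g _ => (rl_zl (rl_cx _)).act g]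

theorem Ze_u0 : Ze 𝒜 ε r (Zg.u0 𝒜) = 1 := by
  have e : ∀ R, (r0 𝒜 R (Zg.u0 𝒜)).1 = 1 := fun _ => map_one (Zf.rh _)
  simp [Ze_ap, ← zl_zV, e, zl_ap, wq, ← Nat.cast_smul_eq_nsmul ℝ, smul_smul]

theorem gct_one {ι : Type} {C L : ℕ} {ε b : ℝ} {x : ι → St} (h : Gwk C ε b L x) :
    Gct 1 ε b x fun _ => 1 := by
  have := h.pos
  have b0 : 0 < √b := Real.sqrt_pos.2 (lt_of_lt_of_le (by positivity) h.cpl)
  refine ⟨measurable_const, by simp, 0, (1 + ε⁻¹) / √b, by positivity, ?_, ?_, fun _ _ => rfl⟩ <;>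
    simp [div_mul_cancel₀ _ b0.ne', this.le]

end Pool.Agent.Lib.MP_7f377f_mp.RG.Tl

namespace Pool.Agent.Lib.MP_7f377f_mp.Kz

open MeasureTheory Filter Set YM7 L6 RG RG.Tl RG.Q4 RG.Q4.En Wy
open RG.Wd (B4 gv pb)
open Wu (Z4)
open Zg (V0 Og r0 fil u0)
open Finset (prod_le_prod sum_le_sum mul_prod_erase mem_univ card_univ sum_const prod_mul_distrib
  ne_of_mem_erase sum_mul sum_sub_distrib smul_sum)
open MvPolynomial (isWeightedHomogeneous_one constantCoeff C_eq_zero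
  weightedHomogeneousComponent_zero)

variable (𝒜 : Set CM) [Og 𝒜] [Adj 𝒜] {ι : Type} [Fintype ι]

/-- the real Wick ordered letter -/
def lZ (ε r : ℝ) : V0 𝒜 →ₗ[ℝ] Fz → ℝ where
  toFun c U := (pG (Ze 𝒜 ε r c) U).re
  map_add' _ _ := by ext; simp
  map_smul' t c := by
    ext U
    rw [map_smul, ← Complex.coe_smul, map_smul]
    simp

variable {𝒜}

theorem lZ_cont (ε r : ℝ) (c : V0 𝒜) : Continuous (lZ 𝒜 ε r c) :=
  Complex.continuous_re.comp (pG_cont _)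

theorem lZ_rB (ε r : ℝ) (g : B4) (c : V0 𝒜) (U : Fz) :
    lZ 𝒜 ε r (rB 𝒜 g c) U = lZ 𝒜 ε r c (pb Inv.inv g U) :=
  congrArg Complex.re ((congrArg (pG · U) (act_Ze ε r g c).symm).trans (pG_act g _ U))

theorem lZ_coe (ε r : ℝ) (c : V0 𝒜) (U : Fz) : (lZ 𝒜 ε r c U : ℂ) = pG (Ze 𝒜 ε r c) U :=
  Complex.ext rfl (pG_real (Ze_gl ε r c).2 U).symm

theorem lZ_u0 (ε r : ℝ) (U : Fz) : lZ 𝒜 ε r (u0 𝒜) U = 1 :=
  Complex.ofReal_injective (by rw [lZ_coe, Ze_u0, map_one]; rfl)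

theorem abs_K (A : ℝ) {κ : ℝ} (κ0 : 0 < κ) : ∃ C : ℕ, ∀ η : ℝ, 0 < η → C * η ≤ 1 →
    η ≤ 1 ∧ A * η ^ κ ≤ 1 := by
  obtain ⟨C, h⟩ := exists_nat_ge (|A| ^ κ⁻¹ + 1)
  have p0 := Real.rpow_nonneg (abs_nonneg A) κ⁻¹
  refine ⟨C, fun η η0 s => ⟨by nlinarith, (mul_le_mul_of_nonneg_right (le_abs_self A)
    (by positivity)).trans ?_⟩⟩
  rw [← Real.rpow_inv_rpow (abs_nonneg A) κ0.ne', ← Real.mul_rpow p0 η0.le]
  exact Real.rpow_le_one (by positivity) (by nlinarith) κ0.le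

theorem ml_lip {δ : ℝ} {V : Type} [NormedAddCommGroup V] [NormedSpace ℝ V] {W : Submodule ℝ V}
    (f : MultilinearMap ℝ (fun _ : ι => V) ℝ) {B : ℝ} (B0 : 0 ≤ B) (δ0 : 0 ≤ δ)
    (hB : ∀ c, (∀ i, c i ∈ W) → |f c| ≤ B * ∏ i, ‖c i‖) {c c' : ι → V} (h : ∀ i, c i ∈ W)
    (h' : ∀ i, c' i ∈ W) {n : ι → ℝ} (e : ∀ i, ‖c i - c' i‖ ≤ δ * n i)
    (e' : ∀ i, max ‖c i‖ ‖c' i‖ ≤ n i) : |f c - f c'| ≤ B * Fintype.card ι * δ * ∏ i, n i := by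
  classical
  refine (MultilinearMap.norm_image_sub_le_of_bound' (f.compLinearMap fun _ => W.subtype) B0
    (fun c => hB _ fun i => (c i).2) (fun i => ⟨_, h i⟩) fun i => ⟨_, h' i⟩).trans ?_
  rw [mul_assoc, mul_assoc, ← nsmul_eq_mul, ← card_univ, ← sum_const]
  refine mul_le_mul_of_nonneg_left (sum_le_sum fun i _ => ?_) B0
  rw [← mul_prod_erase _ _ (mem_univ i), ← mul_prod_erase _ n (mem_univ i), if_pos rfl, ← mul_assoc]
  refine mul_le_mul (e i) (prod_le_prod (fun _ _ => by positivity) fun j hj => ?_) (by positivity)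
    ((norm_nonneg _).trans (e i))
  rw [if_neg (ne_of_mem_erase hj)]
  exact e' j

variable [MeasurableSpace SU2] (h : Measure SU2) (b : ℝ) (n : ℕ) [NeZero n]

/-- centred moments of the observables `A` at the sites `x` -/
def cL (A : ι → Fz → ℝ) (x : ι → Z4) : ℝ := er h b n fun U => ∏ a, ct h b n (A a) (tz (x a) U)

omit [Adj 𝒜] in
theorem cm_cL (c : ι → V0 𝒜) (x : ι → Z4) : cm h b n c x = cL h b n (fun a => lt 𝒜 (c a)) x := rfl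

variable (𝒜) [BorelSpace SU2] [h.IsHaarMeasure] [IsProbabilityMeasure h] {δ : ℝ}

/-- the Gaussian limit -/
theorem gaussE (D : ℕ) (δ0 : 0 < δ) :
    ∃ (C : ℕ) (κ : ℝ), 0 < κ ∧ ∀ (ε η b : ℝ) (L : ℕ) [NeZero L] (x : ι → Z4) (y : ι → YZ.R4),
      Gwk C ε b L x → Gpt C δ ε η x y → ∀ e : ι → V0 𝒜, (∀ i, e i ∈ (fil 𝒜).F D) →
        |er h b L (fun U => ∏ i, lZ 𝒜 ε √(2 * b) (e i) (tz (x i) U)) - Zf.fp (fun i => (e i).1) y| ≤
          η ^ κ * ∏ i, ‖e i‖ := by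
  classical
  obtain ⟨C, κ, κ0, H⟩ := gaussG (ι := ι) 𝒜 h D 1 δ0
  refine ⟨C, κ, κ0, fun ε η b L _ x y h1 h2 e he => ?_⟩
  have k := fun g : ι → B4 => H ε η b L x y _ h1 h2 (gct_one h1) g
    (fun i => r0 𝒜 (gI (g i)⁻¹) (e i))
    fun i => Zf.Fd_up (n := 0) (L := (Zf.rh _).toLinearMap) (fun _ _ => Zf.hm_rh _) (he i)
  simp only [one_mul, Zg.norm_r0, ← r0_gI, mul_inv_cancel, gI_one, map_one] at k
  have s : ∑ _ : ι → B4, ∏ _ : ι, (Fintype.card B4 : ℝ)⁻¹ = 1 := by simp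
  have z : ∀ x (U : Fz), tz x U = RG.sh x U := fun x U => funext fun l => by
    simp [tz, RG.sh, add_comm]
  rw [← Real.norm_eq_abs, ← Complex.norm_real, Complex.ofReal_sub, ← er_ex, ← one_mul (Zf.fp _ _),
    ← one_mul (η ^ κ * _), ← s]
  simp only [Wy.ex, Complex.ofReal_prod, lZ_coe, Ze_ap, smul_sum, ← Complex.coe_smul, map_sum,
    map_smul, Finset.sum_apply, z, Pi.smul_apply, smul_eq_mul, Fintype.prod_sum, prod_mul_distrib,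
    sum_mul, Complex.ofReal_sum]
  rw [integral_finsetSum _ fun g _ => Integrable.const_mul
    (((gct_one h1).int h fun i => act (g i) (Kw.sc (fun _ => 1) ((√(2 * b) : ℝ) : ℂ)
      (ls 𝒜 (zV 𝒜 ε (r0 𝒜 (gI (g i)⁻¹) (e i)))))).congr
      (.of_forall fun _ => by exact one_mul _)) _, ← sum_sub_distrib]
  refine norm_sum_le_of_le _ fun g _ => ?_
  rw [integral_const_mul, Complex.ofReal_mul, Complex.ofReal_prod, ← mul_sub, norm_mul]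
  exact mul_le_mul (by simp) (k g) (norm_nonneg _) (by positivity)

/-- the Gaussian limit of the centred moments -/
theorem gaussC (D : ℕ) (δ0 : 0 < δ) :
    ∃ (C : ℕ) (κ : ℝ), 0 < κ ∧ ∀ (ε η b : ℝ) (L : ℕ) [NeZero L] (x : ι → Z4) (y : ι → YZ.R4),
      Gwk C ε b L x → Gpt C δ ε η x y → ∀ e : ι → V0 𝒜, (∀ i, e i ∈ Vp 𝒜 D) →
        |cL h b L (fun i => lZ 𝒜 ε √(2 * b) (e i)) x - Zf.fp (fun i => (e i).1) y| ≤
          η ^ κ * ∏ i, ‖e i‖ := by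
  classical
  obtain ⟨C, κ, κ0, H⟩ := gaussE (ι := ι) 𝒜 h D δ0
  obtain ⟨C', κ', κ0', H'⟩ := gaussE (ι := Unit) 𝒜 h D δ0
  obtain ⟨B, B0, hB⟩ := Zg.fp_ub (𝒜 := 𝒜) (ι := ι) D δ0
  obtain ⟨a, ha⟩ : ∃ a, a = 1 + ‖u0 𝒜‖ := ⟨_, rfl⟩
  obtain ⟨μ, hμ⟩ : ∃ μ, μ = min κ κ' / 2 := ⟨_, rfl⟩
  have μ0 : 0 < μ := by rw [hμ]; positivity
  obtain ⟨C₂, h₂⟩ := abs_K ((1 + B * Fintype.card ι) * ∏ _ : ι, a) μ0
  refine ⟨max (max C C') C₂, μ, μ0, fun ε η b L _ x y h1 h2 e he => ?_⟩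
  have η0 : 0 < η := h1.pos.trans_le h2.le
  obtain ⟨η1, s⟩ := h₂ η η0 (h2.anti η0.le (le_max_right _ _)).sm
  have p : ∀ κ₁, 2 * μ ≤ κ₁ → η ^ κ₁ ≤ η ^ μ * η ^ μ := fun κ₁ e => by
    rw [← Real.rpow_add η0]
    exact Real.rpow_le_rpow_of_exponent_ge η0 η1 (by linarith)
  have p1 : η ^ μ * η ^ μ ≤ 1 := by
    rw [← Real.rpow_add η0]
    exact Real.rpow_le_one η0.le η1 (by positivity)
  have u : u0 𝒜 ∈ (fil 𝒜).F D := (fil 𝒜).mono D.zero_le (Zf.Hm.mem (isWeightedHomogeneous_one ℝ _))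
  set m := fun i => er h b L (lZ 𝒜 ε √(2 * b) (e i))
  have m1 : ∀ i, ‖m i • u0 𝒜‖ ≤ η ^ μ * η ^ μ * (‖u0 𝒜‖ * ‖e i‖) := fun i => by
    have g1 := h1.anti ((le_max_right C C').trans (le_max_left _ C₂))
    have g2 := h2.anti η0.le ((le_max_right C C').trans (le_max_left _ C₂))
    have := H' ε η b L (fun _ => 0) (fun _ => 0) ⟨g1.pos, g1.sm, g1.cpl, g1.vol, by simp⟩
      ⟨g2.le, g2.sm, by simp, by simp [η0.le]⟩ (fun _ => e i) fun _ => (he i).1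
    rw [(Zf.s_alg Unit 0).2.2.2.2, show constantCoeff (e i).1 = 0 from C_eq_zero.1
      ((weightedHomogeneousComponent_zero _ (by simp [Zf.wt])).symm.trans
        (congrArg Subtype.val (he i).2))] at this
    simp only [Fintype.prod_unique, tz_zero, sub_zero] at this
    rw [norm_smul, mul_comm ‖u0 𝒜‖, ← mul_assoc]
    exact mul_le_mul_of_nonneg_right (this.trans (mul_le_mul_of_nonneg_right
      (p _ (by linarith [min_le_right κ κ'])) (norm_nonneg _))) (norm_nonneg _)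
  have m2 : ∀ i, max ‖e i - m i • u0 𝒜‖ ‖e i‖ ≤ a * ‖e i‖ := fun i => by
    have := mul_le_of_le_one_left (mul_nonneg (norm_nonneg (u0 𝒜)) (norm_nonneg (e i))) p1
    exact max_le ((norm_sub_le _ _).trans (by rw [ha]; linarith [m1 i]))
      (le_mul_of_one_le_left (norm_nonneg _) (by simp [ha]))
  have f := fun i => sub_mem (he i).1 (((fil 𝒜).F D).smul_mem (m i) u)
  have k1 := H ε η b L x y (h1.anti ((le_max_left C C').trans (le_max_left _ C₂)))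
    (h2.anti η0.le ((le_max_left C C').trans (le_max_left _ C₂))) _ f
  have P0 : 0 ≤ η ^ μ * η ^ μ := by positivity
  have k2 := ml_lip ((Zf.fm y).compLinearMap fun _ => (V0 𝒜).subtype) B0 P0 (fun c hc =>
    (congrArg abs (Zf.fm_apply y _)).trans_le (hB c y hc h2.far)) f (fun i => (he i).1)
    (fun i => (by simp : _ = ‖m i • u0 𝒜‖).trans_le ((m1 i).trans (by gcongr; simp [ha]))) m2
  simp only [map_sub, map_smul, Pi.sub_apply, Pi.smul_apply, lZ_u0, smul_eq_mul, mul_one] at k1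
  simp only [MultilinearMap.compLinearMap_apply, Zf.fm_apply] at k2
  calc _ ≤ η ^ μ * η ^ μ * (∏ i, a * ‖e i‖) + _ :=
        (abs_sub_le _ _ _).trans (add_le_add (k1.trans (mul_le_mul (p _ (by
          linarith [min_le_left κ κ'])) (prod_le_prod (fun _ _ => norm_nonneg _) fun i _ =>
            (le_max_left _ _).trans (m2 i)) (by positivity) P0)) k2)
    _ = η ^ μ * (∏ i, ‖e i‖) * (((1 + B * Fintype.card ι) * ∏ _ : ι, a) * η ^ μ) := by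
        rw [prod_mul_distrib]; ring
    _ ≤ _ := mul_le_of_le_one_right (by positivity) s

end Pool.Agent.Lib.MP_7f377f_mp.Kz

namespace Pool.Agent.Lib.MP_7f377f_mp.RG.Q4.En.Gl

open MeasureTheory Filter Topology YM7 L6 RG.Tl Wy Kz
open Wu (Z4)
open Zg (V0 Og)

variable (G : Gl)

/-- the letters of the run `(b, J)` which are normalised at the level `o` -/
def zL (𝒜 : Set CM) [Og 𝒜] [Adj 𝒜] (b : ℝ) (J o : ℕ) : V0 𝒜 →ₗ[ℝ] Fz → ℝ :=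
  lZ 𝒜 (G.rt J o : ℝ)⁻¹ √(2 * b)

variable {G} {C k J : ℕ} {β : ℕ × ℕ → ℝ}

/-- the hypotheses of the Gaussian limit -/
theorem Oks.gw (o : G.Oks) (t : G.Tus β) (C₀ : ℕ) {κ : ℝ} (κ0 : 0 < κ) :
    ∀ᶠ C in atTop, ∀ N W w : ℕ, ∀ᶠ k in atTop, ∀ J, G.Sh C k J → ∀ v J' l, J ≤ J' → l ≤ k + w →
      k ≤ l + w → ∀ (ι : Type) (x : ι → Z4),
      (∀ a a', a ≠ a' → Ds (G.rt J' l) (G.L k ^ W * G.rt J' l) (x a) (x a')) →
      Gwk C₀ (G.rt J l : ℝ)⁻¹ (β (v, J)) (G.nn (v, J)) (fun a => G.tk (x a) J' J) ∧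
      Gpt C₀ 1 (G.rt J l : ℝ)⁻¹ (G.rt J l : ℝ)⁻¹ (fun a => G.tk (x a) J' J)
        (fun a => pz (G.rt J' l : ℝ)⁻¹ (x a)) ∧ (G.rt J l : ℝ)⁻¹ ^ κ ≤ (G.L k ^ N : ℝ)⁻¹ := by
  have h := (o 0).1
  obtain ⟨M, hM⟩ := exists_nat_ge κ⁻¹
  filter_upwards [eventually_ge_atTop (2 * C₀ + 1)] with C hC N W w
  filter_upwards [h.sh_far C w, h.sh_L C (M * N + W + 1 + w), h.ev_L C₀] with k a1 a2 a3 J s v J' l
    hJ l1 l2 ι x hx
  have lJ := l1.trans (a1 J (s.wm 0))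
  have a : (G.L J : ℝ) ^ (M * N + W + 1 + w) ≤ G.rt J k := a2 J (s.wm 0)
  have L1 : (1000 : ℝ) ≤ G.L k := h.L1 k
  have a3 : (C₀ : ℝ) ≤ G.L k := a3
  have m : ∀ {i}, i ≤ J → (G.L i : ℝ) ≤ G.L J := fun e => Nat.cast_le.2 (h.L_mono e)
  have LJ := m s.lt.le
  have u : ∀ i j, j ≤ i → i ≤ J → i ≤ j + w →
      (G.rt J i : ℝ) ≤ G.rt J j ∧ (G.rt J j : ℝ) ≤ G.rt J i * G.L J ^ w := fun i j e e' e'' => by
    have : (G.rt J j : ℝ) = G.rt J i * G.rt i j := by exact_mod_cast h.rt_rt e e'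
    have p := one_rt (G := G) J i
    have q : (G.rt i j : ℝ) ≤ G.L i ^ (i - j) := by exact_mod_cast h.rt_le j e
    rw [this]
    exact ⟨le_mul_of_one_le_right (by linarith) (one_rt _ _), mul_le_mul_of_nonneg_left (q.trans
      ((pow_le_pow_left₀ (by positivity) (m e') _).trans (pow_le_pow_right₀ (by linarith)
        (by omega)))) (by linarith)⟩
  have p := one_rt (G := G) J k
  have w1 : (1 : ℝ) ≤ G.L J ^ w := one_le_pow₀ (by linarith)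
  have w2 : (G.L J : ℝ) ^ w ≤ G.rt J k := (pow_le_pow_right₀ (by linarith) (by omega)).trans a
  obtain ⟨r, hr⟩ : ∃ r : ℝ, r = G.rt J l := ⟨_, rfl⟩
  have ⟨r1, r2⟩ : G.rt J k ≤ r * G.L J ^ w ∧ r ≤ G.rt J k ^ 2 := by
    rcases le_total l k with e | e
    · have := u k l e s.lt.le l2
      exact ⟨by nlinarith, by nlinarith⟩
    · have := u l k e lJ l1
      exact ⟨hr ▸ this.2, by nlinarith⟩
  have r3 : (G.L k : ℝ) ^ (M * N + W + 1) ≤ r := (pow_le_pow_left₀ (by positivity) LJ _).trans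
    (le_of_mul_le_mul_right ((pow_add ..).symm.trans_le (a.trans r1)) (by positivity))
  have r4 : ∀ i ≤ M * N + W + 1, (G.L k : ℝ) ^ i ≤ r := fun i e =>
    (pow_le_pow_right₀ (by linarith) e).trans r3
  have r5 := r4 1 (by omega)
  have r0 : 0 < r := by linarith
  have R1 := one_rt (G := G) J' J
  have e : (G.rt J' l : ℝ) = G.rt J' J * r := by rw [hr]; exact_mod_cast h.rt_rt lJ hJ
  have sm : C₀ * r⁻¹ ≤ 1 := by rw [← div_eq_mul_inv, div_le_one r0]; linarith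
  have nr : ∀ i μ, |r⁻¹ * G.tk (x i) J' J μ - (G.rt J' l : ℝ)⁻¹ * x i μ| ≤ r⁻¹ := fun i μ => by
    have := Op.mem_box.1 (h.tk_sub (x i) J hJ) μ
    have b : |(x i μ - G.rt J' J * G.tk (x i) J' J μ : ℝ)| ≤ G.rt J' J := by
      exact_mod_cast (abs_le.2 this).trans (Nat.cast_le.2 (Nat.div_le_self _ _))
    rw [e, show r⁻¹ * _ - _ = -(r⁻¹ * (G.rt J' J : ℝ)⁻¹) * (x i μ - G.rt J' J * G.tk (x i) J' J μ)
      by field_simp; ring, abs_mul, abs_neg, abs_of_pos (by positivity), mul_assoc]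
    exact mul_le_of_le_one_right (by positivity) (inv_mul_le_one_of_le₀ b (by positivity))
  have R0 : (0 : ℝ) < G.rt J' l := by rw [e]; positivity
  rw [← hr]
  refine ⟨⟨by positivity, sm, ?_, ((o v).1.top_two (t (v, J))).2, fun i j μ => ?_⟩,
    ⟨le_rfl, sm, fun i j ij => ?_, nr⟩, ?_⟩
  · have b1 : G.bb J / 2 ≤ β (v, J) := (o v).1.top_half (t (v, J))
    have b2 : G.bb k ≤ G.bb J := h.b_mono s.lt.le
    have b3 : (G.rt J k : ℝ) ^ (2 * C₀ + 1) ≤ G.rt J k ^ C := pow_le_pow_right₀ p hC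
    have b4 := pow_le_pow_left₀ r0.le r2 C₀
    have b5 : (G.L k : ℝ) ≤ G.rt J k := (h.L_rt s.lt).2
    rw [pow_succ, pow_mul] at b3
    rw [inv_inv]
    nlinarith [s.lo, pow_pos (pow_pos (one_pos.trans_le p) 2) C₀]
  · have d : (G.rt J' l : ℝ)⁻¹ * |(x i μ - x j μ : ℝ)| ≤ G.L k ^ W := by
      rw [inv_mul_le_iff₀ R0, mul_comm]
      by_cases ij : i = j
      · simp [ij]; positivity
      · exact (hx i j ij).2 μ
    have d1 := abs_le.1 (nr i μ)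
    have d2 := abs_le.1 (nr j μ)
    have d3 := r4 (W + 1) (by omega)
    have d4 : (1 : ℝ) ≤ G.L k ^ W := one_le_pow₀ (by linarith)
    have d5 : r⁻¹ ≤ 1 := inv_le_one_of_one_le₀ (by linarith)
    rw [← abs_of_pos (inv_pos.2 R0), ← abs_mul, abs_le] at d
    rw [sq, mul_assoc, inv_mul_le_iff₀ r0, ← abs_of_pos (inv_pos.2 r0), ← abs_mul, abs_le]
    rw [pow_succ] at d3
    constructor <;> nlinarith
  · obtain ⟨μ, d⟩ := (hx i j ij).1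
    refine le_trans ?_ (PiLp.norm_apply_le _ μ)
    simp only [pz, PiLp.sub_apply, Real.norm_eq_abs, ← mul_sub, abs_mul, abs_of_pos (inv_pos.2 R0)]
    exact (one_le_inv_mul₀ R0).2 d
  · rw [Real.inv_rpow r0.le]
    refine inv_anti₀ (by positivity) (le_trans ?_ (Real.rpow_le_rpow (by positivity)
      (r4 (M * N) (by omega)) κ0.le))
    rw [← Real.rpow_natCast, ← Real.rpow_natCast, ← Real.rpow_mul (by positivity)]
    refine Real.rpow_le_rpow_of_exponent_le (by linarith) ?_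
    rw [inv_le_iff_one_le_mul₀ κ0] at hM
    push_cast
    nlinarith [N.cast_nonneg (α := ℝ)]

theorem Oks.gaussEv (o : G.Oks) (t : G.Tus β) (𝒜 : Set CM) [Og 𝒜] [Adj 𝒜] (D m : ℕ) :
    ∀ᶠ C in atTop, ∀ N W w : ℕ, ∀ᶠ k in atTop, ∀ J, G.Sh C k J → ∀ v J' l, J ≤ J' → l ≤ k + w →
      k ≤ l + w → ∀ i ≤ m, ∀ (x : Fin i → Z4) (e : Fin i → V0 𝒜), (∀ a, e a ∈ Vp 𝒜 D) →
      (∀ a a', a ≠ a' → Ds (G.rt J' l) (G.L k ^ W * G.rt J' l) (x a) (x a')) →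
      |cL (Fi.tr haar) (β (v, J)) (G.nn (v, J)) (fun a => G.zL 𝒜 (β (v, J)) J l (e a))
        (fun a => G.tk (x a) J' J) - Kz.fq (G.rt J' l) e x| ≤ (G.L k ^ N : ℝ)⁻¹ * ∏ a, ‖e a‖ := by
  choose C κ κ0 H using fun i => gaussC (ι := Fin i) 𝒜 (Fi.tr haar) D one_pos
  filter_upwards [(eventually_all_finite (Set.finite_le_nat m)).2 fun i _ => o.gw t (C i) (κ0 i)]
    with C' a N W w
  filter_upwards [(eventually_all_finite (Set.finite_le_nat m)).2 fun i hi => a i hi N W w]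
    with k a J s v J' l h1 h2 h3 i hi x e he hx
  obtain ⟨b1, b2, b3⟩ := a i hi J s v J' l h1 h2 h3 _ x hx
  exact (H i _ _ _ _ _ _ b1 b2 e he).trans (mul_le_mul_of_nonneg_right b3 (by positivity))

/-- the short run is Gaussian -/
theorem Oks.gauss (o : G.Oks) (t : G.Tus β) (𝒜 : Set CM) [Og 𝒜] [Adj 𝒜] (D m : ℕ) :
    ∃ C ≥ 3, ∀ N W w : ℕ, ∀ᶠ k in atTop, ∀ J, G.Sh C k J → ∀ v J' l, J ≤ J' → l ≤ k + w →
      k ≤ l + w → ∀ i ≤ m, ∀ (x : Fin i → Z4) (e : Fin i → V0 𝒜), (∀ a, e a ∈ Vp 𝒜 D) →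
      (∀ a a', a ≠ a' → Ds (G.rt J' l) (G.L k ^ W * G.rt J' l) (x a) (x a')) →
      |cL (Fi.tr haar) (β (v, J)) (G.nn (v, J)) (fun a => G.zL 𝒜 (β (v, J)) J l (e a))
        (fun a => G.tk (x a) J' J) - Kz.fq (G.rt J' l) e x| ≤ (G.L k ^ N : ℝ)⁻¹ * ∏ a, ‖e a‖ :=
  ((eventually_ge_atTop 3).and (o.gaussEv t 𝒜 D m)).exists

end Pool.Agent.Lib.MP_7f377f_mp.RG.Q4.En.Gl
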