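import Pool.Agent.Lib.MP_7f377f_mp.G.KzO1
import Pool.Agent.Lib.MP_7f377f_mp.G.KzF
import Pool.Agent.Lib.MP_7f377f_mp.G.KzH0
import Pool.Agent.Lib.MP_7f377f_mp.G.KzM2
import Pool.Agent.Lib.MP_7f377f_mp.G.CaKB1
import Pool.Agent.Lib.MP_7f377f_mp.G.JwA0
import Pool.Agent.Lib.MP_7f377f_mp.G.KyN

/-! Slots: a letter at the top and a cut off letter at a lower level; true and reference moments. -/

noncomputable section

open Pool.Agent.Lib.MP_7f377f_mp.Jet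

set_option linter.unusedSectionVars false
variable [Pool.Agent.Lib.MP_7f377f_mp.GD]

namespace Pool.Agent.Lib.MP_7f377f_mp.RG.Q4.En

open Finset Function Real Sg Br YM7 MeasureTheory Mx Kz Mg
open Ob (arr)
open Wd (B4 rE)
open L6 (Fz)
open scoped Classical

attribute [local irreducible] box lbox tb tau rc

variable {ι κ : Type} [Fintype ι] [DecidableEq ι] [Fintype κ] [DecidableEq κ]

/-- the letter `Y` at the site `x` of the top lattice and the letter `P` on the track of `x` -/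
structure Slq where
  x : St
  Y : Lq
  P : Lq

/-- the translated slot -/
def Slq.mv (S : Slq) (v : St) : Slq := ⟨v + S.x, S.Y, S.P⟩

/-- `d'` is the direction `d` seen from `v` -/
def Drv (n : ℕ) (v : St) (d d' : Lx × Ac) : Prop :=
  d'.1 = trL n v d.1 ∧ ∀ o ∈ lps (box (n / 2)), d'.2 o.1 o.2 = trA n v d.2 o.1 o.2

/-- null letters of radius `R` -/
def Nuq (b : ℝ) (n : ℕ) [NeZero n] (R : ℕ) (N : Fz → ℝ) : Prop :=
  Continuous N ∧ DependsOn N {l | ∀ i, |l.1 i| ≤ R} ∧ Wy.Nl (Fi.tr haar) b n R N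

section tr

variable {n : ℕ} {v : St} {d d' e e' : Lx × Ac}

theorem Drv.add (a : Drv n v d d') (c : Drv n v e e') : Drv n v (d + e) (d' + e') :=
  ⟨congrArg₂ (· + ·) a.1 c.1, fun o ho => congrArg₂ (· + ·) (a.2 o ho) (c.2 o ho)⟩

theorem Drv.sz {p : Pa} {Q g x y ω : ℝ} (a : Drv n v d d') (hn : Odd n)
    (s : En.Sz p n Q g x y ω d.1 d.2) (k : ∃ m, KM p n m d'.2 ∧ ∀ X c, 0 ≤ m X c) :
    En.Sz p n Q g x y ω d'.1 d'.2 :=
  let ⟨_, k1, k2⟩ := s.2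
  let ⟨_, k3, k4⟩ := k
  ⟨a.1 ▸ fun _ => s.1 _, Gl.km_tr hn k1 k3 k2 k4 a.2⟩

end tr

section loc

variable {n ν ν' : ℕ} [NeZero n] {b : ℝ} {x : St} {F F' : Cfg n → ℝ} {N : Fz → ℝ}

/-- bounded observables of the links near `x` -/
def Dnr (ν : ℕ) (x : St) (F : Cfg n → ℝ) : Prop := Weak.BM F ∧
  ∀ U V, (∀ y μ, nearT n ν x y → U (Fi.cst n y, μ) = V (Fi.cst n y, μ)) → F U = F V

theorem Dnr.mono (d : Dnr ν x F) (e : ν ≤ ν') : Dnr ν' x F :=
  ⟨d.1, fun U V a => d.2 U V fun y μ c => a y μ (c.mono e)⟩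

theorem Dnr.sub (d : Dnr ν x F) (d' : Dnr ν x F') : Dnr ν x fun U => F U - F' U :=
  ⟨Wy.bm_sub d.1 d'.1, fun U V a => congrArg₂ _ (d.2 U V a) (d'.2 U V a)⟩

theorem Nuq.dp (a : Nuq b n ν N) (x : St) : Dnr ν x fun U : Cfg n => N (Wy.tz x (L6.lf U)) :=
  ⟨.of_continuous (a.1.comp ((Wy.cont_tz _).comp Wy.cont_lf)), fun _ _ e => a.2.1 fun l hl =>
    e _ _ (nearT_add (mem_box.2 fun i => abs_le.1 (hl i)))⟩

theorem Nuq.far (a : Nuq b n ν N) (m : Weak.BM F)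
    (d : DependsOn F {e | ∃ i, ν < |(e.1 i - x i).valMinAbs|}) :
    ∫ U, N (Wy.tz x (L6.lf U)) * F U ∂wilson (Fi.tr haar) b n = 0 := by
  have : (Fi.tr haar).IsHaarMeasure := (inferInstance : haar.IsHaarMeasure)
  have g' := m.comp (Weak.continuous_shift fun i => -(x i : ZMod n)).measurable
  have := a.2.2.bm a.1 g' fun U V e => d fun l hl => e _ (by simpa [sub_eq_add_neg] using hl)
  rw [← ((Weak.BM.of_continuous (a.1.comp' Wy.cont_lf)).mul g').mp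
    (mp_shift' _ b fun i => (x i : ZMod n))] at this
  convert this using 4 with U
  · rw [Wy.lf_shift]
  · exact congrArg F (funext fun l => congrArg U (Prod.ext (funext fun i => by simp) rfl))

/-- null letters at separated points do not change the moments -/
theorem mo_nq {O O' : ι → Cfg n → ℝ} {N : ι → Fz → ℝ} {z : ι → St} (d : ∀ q, Dnr ν (z q) (O' q))
    (hN : ∀ q, Nuq b n ν (N q)) (e : ∀ q U, O q U = O' q U - N q (Wy.tz (z q) (L6.lf U)))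
    (far : ∀ q q', q ≠ q' → ¬nearT n (2 * ν) (z q) (z q')) :
    Ob.mo (YM7.ex (Fi.tr haar) b n) O = Ob.mo (YM7.ex (Fi.tr haar) b n) O' := by
  have d' : ∀ q, Dnr ν (z q) (O q) := fun q => funext (e q) ▸ (d q).sub ((hN q).dp _)
  refine mo_null (fun q => (d' q).1) (fun q => (d q).1) fun a S S' h1 h2 _ => ?_
  have k : ∀ {F : Cfg n → ℝ} q, a ≠ q → Dnr ν (z q) F →
      DependsOn F {e | ∃ i, ν < |(e.1 i - z a i).valMinAbs|} := fun q ne y U V u =>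
    y.2 U V fun w μ c => u _ (by
      by_contra! v
      exact far a q ne (two_mul ν ▸ (near_vma (x := w) (by simpa [Fi.cst] using v)).trans c.symm))
  have := (hN a).far ((Weak.BM.prod S fun q => (d' q).1).mul (Weak.BM.prod S' fun q => (d q).1))
    fun U V u => congrArg₂ _
      (prod_congr rfl fun q hq => k q (ne_of_mem_of_not_mem hq h1).symm (d' q) u)
      (prod_congr rfl fun q hq => k q (ne_of_mem_of_not_mem hq h2).symm (d q) u)
  simp only [e a, sub_sub_cancel_left, neg_mul, YM7.ex, integral_neg, this, neg_zero]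

/-- minus the images of the observables `T` at the sites `x` -/
def fO (n : ℕ) (T : κ → Fz → ℝ) (x : κ → St) (g : B4) (a : κ) (U : Cfg n) : ℝ :=
  -T a (Wy.tz (x a) (Wd.pb Inv.inv g (L6.lf U)))

omit [NeZero n] in
theorem tz_sh (x : St) (U : Fz) : Wy.tz x U = sh x U := funext fun e => by
  simp only [Wy.tz, sh, add_comm]

variable {T : κ → Fz → ℝ} {x : κ → St} (m : ∀ a, Weak.BM (fO n T x 1 a))
include m

theorem ex_fO (a : κ) :
    YM7.ex (Fi.tr haar) b n (fO n T x 1 a) = -Wy.er (Fi.tr haar) b n (T a) := by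
  have : (Fi.tr haar).IsHaarMeasure := (inferInstance : haar.IsHaarMeasure)
  rw [YM7.ex, ← (m a).mp (mp_shift' _ b fun i => ((-x a) i : ZMod n)), Wy.er, ← integral_neg]
  refine congrArg _ (funext fun U => ?_)
  rw [fO, Wy.lf_shift]
  rw [show ∀ V : Fz, Wd.pb Inv.inv 1 V = V from fun _ => rfl, Wy.tz_tz, neg_add_cancel, Wy.tz_zero]

theorem cmo_fO : cmo (Ob.mo (YM7.ex (Fi.tr haar) b n) (fO n T x 1)) =
    (-1) ^ Fintype.card κ * (cL (Fi.tr haar) b n T x : ℂ) := by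
  rw [cmo_ex m]
  simp only [ex_fO m]
  rw [cL, Wy.er, YM7.ex, ← Complex.ofReal_one, ← Complex.ofReal_neg, ← Complex.ofReal_pow,
    ← Complex.ofReal_mul, ← integral_const_mul]
  refine congrArg _ (congrArg _ (funext fun U => ?_))
  rw [← card_univ, ← prod_neg]
  exact prod_congr rfl fun a _ => (neg_sub' _ _).symm

end loc

namespace Gl

variable (G : Gl)

/-- the cut off letter `P` can be inserted at the level `i` and is bounded by `x` -/
def Qk (D R i : ℕ) (x : ℝ) (P : Lq) : Prop := ∀ s,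
  Lt (G.p i) (G.N i) (G.qh R i s P) (G.ql D i s P) ∧
    (∃ x y u, PM (G.p i) x y u (G.ql D i s P)) ∧ ∀ y U, ‖G.qh R i s P y U‖ ≤ x

/-- minus the letter at the top -/
def sqX (J : ℕ) (S : Slq) (U : Conf) : ℂ := -xO (G.N J) (G.jx J S.x S.Y) U

/-- minus the inserted letter -/
def sqC (R J i : ℕ) (S : Slq) (U : Conf) : ℂ :=
  ∑ y ∈ box (G.N i / 2), G.qh R i (G.tk S.x J i) S.P y U

/-- the direction of an inserted letter -/
def qd (D R : ℕ) (b : ℝ) (J i : ℕ) (s : St) (P : Lq) : Lx × Ac :=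
  (G.ql D i s P, i1 (G.p i) (G.N i) (G.zz b J i).K (G.qh R i s P))

/-- the direction of a slot at the level `i` -/
def sqD (D R : ℕ) (b : ℝ) (J i : ℕ) (S : Slq) : Lx × Ac :=
  G.jv b J S.x S.Y i + G.qd D R b J i (G.tk S.x J i) S.P

/-- the observable of a slot -/
def sqO (R J i : ℕ) (S : Slq) (U : Conf) : ℂ := S.Y.1 (sh S.x U) + G.ta (fun W =>
  cuf R (G.p i).ε (sh (G.tk S.x J i) W) * S.P.1 (sh (G.tk S.x J i) W)) J i U

/-- the reference moments of a family of slots -/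
def sqM (R : ℕ) (b : ℝ) (J i j : ℕ) (S : ι → Slq) : Finset ι → ℂ :=
  G.mpa b J i j (fun q => G.sqX J (S q)) fun q => G.sqC R J i (S q)

/-- the setting -/
structure Sru (A d : ℕ) (b : ℝ) (J i l : ℕ) : Prop where
  ok : G.Ok
  t : G.Tu b J
  hp : G.Pu
  hq : G.HP Sd.StA
  A1 : 1 ≤ A
  big : ∀ k ≥ l, G.Big (A + 1) k
  hd : d ≤ (G.p J).R
  li : l ≤ i
  iJ : i ≤ J

/-- the slot is admissible with the radii `r` -/
structure Sok (A d D R : ℕ) (b : ℝ) (J i l : ℕ) (r : ℕ → ℝ) (S : Slq) : Prop where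
  src : G.RxA (A + 1) b J i d r (G.jx J S.x S.Y)
  ins : ∃ x, G.Qk D R i x S.P ∧ r i * x ≤ (G.QA A i ^ 340)⁻¹
  sz : ∀ k, l ≤ k → k ≤ i → G.SzA A k (r k) (G.tn b J (G.sqD D R b J i S) i k)
  pos : ∀ k, l ≤ k → k ≤ J → 0 < r k
  gr : ∀ k, l ≤ k → k < J → r k ≤ (G.L k : ℝ) ^ (A - 1) * r (k + 1)
  re : ∀ U, (S.Y.1 U).im = 0 ∧ (S.P.1 U).im = 0

/-- the images of the observables `T` at the sites `x` are slots modulo null letters -/
structure Fms (A d D R : ℕ) (b : ℝ) (J i l j : ℕ) [NeZero (G.N J)] (r : ℕ → κ → ℝ)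
    (S : B4 → κ → Slq) (T : κ → Fz → ℝ) (x : κ → St) : Prop where
  run : G.Sru A d b J i l
  jl : j < l
  big : 1000 * 3 ^ Fintype.card κ ≤ G.L j
  ok : ∀ g a, G.Sok A d D R b J i l (r · a) (S g a)
  geo : Pta (G.N J) (4 * (G.L j * G.sJ J j)) (21 * (G.L l * G.sJ J l)) 0 fun g a => (S g a).x
  rep : ∀ g a, ∃ N, Nuq b (G.N J) (10 * (G.L l * G.sJ J l)) N ∧ ∀ U, Per (G.N J) U →
    (T a (Wy.tz (x a) (Wd.pb Inv.inv g U)) : ℂ) = G.sqO R J i (S g a) U + N (sh (S g a).x U)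

/-- the constant of the leak -/
def kSl (j k : ℕ) : ℝ := G.kArf j (3 ^ G.e j) k (G.Q j)

variable {G} {A A' d d' D R J i j k l c m : ℕ} {b x y δ K M X : ℝ} {P P' Y : Lq} {s s' : St} {S : Slq}
  {r : ℕ → ℝ} {σ : Fld → ℂ}

/-! ### Insertions -/

theorem Qk.mono (q : G.Qk D R i x P) (e : x ≤ y) : G.Qk D R i y P :=
  fun s => ⟨(q s).1, (q s).2.1, fun z U => ((q s).2.2 z U).trans e⟩

theorem ql_lin (P P' : Lq) (t : ℂ) :
    G.ql D i s (P + t • P') = G.ql D i s P + t • G.ql D i s P' := by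
  have e : ∀ R ρ h, opT R ρ h (P + t • P').2 = opT R ρ h P.2 + t • opT R ρ h P'.2 :=
    fun R ρ h => funext fun B => by
      simp only [opT, Pi.add_apply, Pi.smul_apply]
      split_ifs <;> simp
  funext z
  simp only [ql, ptL, e, ccn_lin, Pi.add_apply, Pi.smul_apply]
  split_ifs <;> simp

theorem ql_zero : G.ql D i s 0 = 0 := by simpa using ql_lin (G := G) (D := D) (i := i) (s := s) 0 0 1

theorem qd_zero : G.qd D R b J i s 0 = 0 := by simp only [qd, ql_zero, map_zero, Prod.mk_zero_zero]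

theorem Qk.lin (h : G.Ok) (q : G.Qk D R i x P) (q' : G.Qk D R i y P') (t : ℂ) :
    G.Qk D R i (x + ‖t‖ * y) (P + t • P') := fun s => by
  obtain ⟨a1, ⟨_, _, _, a2⟩, a3⟩ := q s
  obtain ⟨c1, ⟨_, _, _, c2⟩, c3⟩ := q' s
  have c4 := c1.smul fun _ => t
  rw [ql_lin, map_add, map_smul]
  exact ⟨⟨fun z => (a1.lf z).add (c4.lf z), fun z U e => (congrArg₂ (· + ·) (a1.ch z U e)
    (c4.ch z U e)).trans (neg_add _ _).symm⟩, ⟨_, _, _, (PM.add (h.ρ0 i) a2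
      (pm_smul (h.ρ0 i) c2 t)).1⟩, fun z U =>
        norm_add_le_of_le (a3 z U) (norm_mul_le_of_le le_rfl (c3 z U))⟩

theorem Qk.add (h : G.Ok) (q : G.Qk D R i x P) (q' : G.Qk D R i y P') :
    G.Qk D R i (x + y) (P + P') := by simpa using q.lin h q' 1

theorem Qk.zero (h : G.Ok) : G.Qk D R i 0 0 := fun s => by
  rw [ql_zero, map_zero]
  exact ⟨⟨fun _ => .const 0, fun _ _ _ => neg_zero.symm⟩, ⟨_, _, _, pm_zero (h.ρ0 i)⟩,
    fun _ _ => norm_zero.le⟩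

theorem Qk.smul (h : G.Ok) (q : G.Qk D R i x P) (t : ℂ) : G.Qk D R i (‖t‖ * x) (t • P) := by
  simpa using (Qk.zero h).lin h q t

theorem Qk.sum (h : G.Ok) {α : Type} (s : Finset α) {x : α → ℝ} {P : α → Lq}
    (q : ∀ a, G.Qk D R i (x a) (P a)) : G.Qk D R i (∑ a ∈ s, x a) (∑ a ∈ s, P a) := by
  induction s using Finset.cons_induction with
  | empty => exact .zero h
  | cons a s _ ih => rw [sum_cons, sum_cons]; exact (q a).add h ih

theorem SzA.sl {u : Lx × Ac} (e : G.SzA (A + 1) k x u) (h : G.Ok) (x0 : 0 ≤ x) : G.SzA A k x u :=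
  e.imp fun N e => ⟨le_trans (by
    have := (h.sz_nn e.2).1
    have := h.QA0 A k
    gcongr
    exact (le_mul_of_one_le_right (h.QA0 A k).le (by linarith [h.L1 k])).trans_eq
      (pow_succ _ _).symm) e.1, e.2⟩

theorem Ok.qk (h : G.Ok) (J1 : G.Tj D R δ i) (a : Tl.Top R m δ K P.1 P.2 σ) (m1 : 1 ≤ m) :
    G.Qk D R i (K * (G.p i).ρ ^ m) P :=
  fun _ => ⟨h.qh_lt J1 a m1, h.ql_pm J1 a, h.qh_bd J1 a⟩

theorem sq_re (a : G.Sok A d D R b J i l r S) (h : G.Ok) (hi : i ≤ J) (U : Conf) :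
    (G.sqO R J i S U).im = 0 := by
  rw [sqO, Complex.add_im, (a.re _).1, h.ta_real hi fun W => ?_, add_zero]
  rw [Complex.mul_im, (a.re _).2, cuf]
  split_ifs <;> simp

theorem Sok.reX (a : G.Sok A d D R b J i l r S) (h : G.Ok) {U : Conf} (hU : Per (G.N J) U) :
    (G.sqX J S U).im = 0 := by rw [sqX, h.xO_jx hU, Complex.neg_im, (a.re _).1, neg_zero]

theorem Sok.reC (a : G.Sok A d D R b J i l r S) (h : G.Ok) {U : Conf} (hU : Per (G.N i) U) :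
    (G.sqC R J i S U).im = 0 := by
  rw [sqC, h.qh_sum hU, Complex.neg_im, Complex.mul_im, (a.re _).2, cuf]
  split_ifs <;> simp

/-! ### Translations -/

namespace Ok

variable (h : G.Ok) {v z : St} {w w' : Lx × Ac}
include h

theorem drv_ts {z : En.Z} {ψ : Lx} {H : Ac} (t : TCov (G.N (k + 1)) ψ H)
    (a : Drv (G.N (k + 1)) (up (G.l k) v) w w') :
    Drv (G.N k) v (G.ts k z (ψ, H) w) (G.ts k z (ψ, H) w') := by
  have n := h.N_odd (k + 1)
  have nu := (h.sd_all k z).nu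
  rw [← h.sd_nf k z] at a n t
  refine ⟨funext fun y => Eq.trans (Sh.Pl_ag ⟨fun x _ => by rw [a.1]; rfl, fun X hX =>
    trA_ag (K' := trA _ _ w.2) n a.2 _ _ (Sh.X1_lps hX)⟩) (Sh.PL_tr _ _ _ v y),
    fun o ho => Eq.trans ?_ (dK_sh nu.ok v ho)⟩
  exact dK_loc nu ⟨fun x _ _ => congrFun (t _).1.symm x, fun q hq _ => ((t _).2 q hq).symm⟩
    ⟨fun x _ _ => congrFun a.1 x, fun q hq _ => a.2 q hq⟩ _

theorem drv_xv (e : s + z = s') :
    Drv (G.N J) z (G.xv b J (G.jx J s' Y)) (G.xv b J (G.jx J s Y)) :=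
  e ▸ ⟨by rw [← jx_sxT s z Y]; rfl, fun _ ho => h.xv_jx s z Y ho⟩

variable (t : G.Tu b J) (hi : i ≤ J)
include t hi

theorem drv_qd (e : s + z = s') : Drv (G.N i) z (G.qd D R b J i s' P) (G.qd D R b J i s P) :=
  ⟨ptL_tr e _, (h.qt_jr (D := D) (t.gd i hi).dt.re.2.2 e P).2.2.2⟩

theorem drv_tn (a : Drv (G.N i) ((G.rt i j : ℤ) • v) w w') : ∀ k ≤ i, j ≤ k →
    Drv (G.N k) ((G.rt k j : ℤ) • v) (G.tn b J w i k) (G.tn b J w' i k) :=
  dw_ind (fun _ => by rwa [Gl.tn_top, Gl.tn_top]) fun k hk ih hj => by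
    rw [Gl.tn_step hk, Gl.tn_step hk]
    refine h.drv_ts (t.gd (k + 1) (by omega)).dt.re.2.2 ?_
    rw [up, smul_smul, ← Nat.cast_mul, ← show G.rt (k + 1) j = LL (G.l k) * _ from h.rt_up hj]
    exact ih (by omega)

theorem km_tn (s : G.Sz i x x (G.Q i ^ 100)⁻¹ w.1 w.2) (hk : k ≤ i) :
    ∃ m, KM (G.p k) (G.N k) m (G.tn b J w i k).2 ∧ ∀ X c, 0 ≤ m X c := by
  have q := h.Q0 i
  have x0 := (h.sz_nn s).1
  have a : x ≤ G.Q i ^ 180 * x + 1 :=
    (le_mul_of_one_le_left x0 (one_le_pow₀ (h.Q1 i))).trans (lt_add_one _).le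
  have c : (G.Q i ^ 100)⁻¹ * x ≤ G.om i * (G.Q i ^ 180 * x + 1) :=
    le_of_eq_of_le (by field_simp) (mul_le_mul_of_nonneg_left (lt_add_one _).le (h.om0 i).le)
  obtain ⟨-, m, k1, k2⟩ := h.s1_grow t hi (N := G.Q i ^ 180 * x + 1) ⟨PM.mono (h.ρ0 i) s.1 a
    (by gcongr) (by simp only [mul_assoc (G.Q i ^ 50)]; gcongr), s.2.imp fun _ e =>
      ⟨e.1, e.2.mono (by gcongr)⟩⟩ (by positivity) k hk
  exact ⟨m, k1, k2.1⟩

theorem drv_szA (hj : j ≤ l) (hl : l ≤ i) (a : Drv (G.N i) ((G.rt i j : ℤ) • v) w w')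
    (e : ∃ m, KM (G.p i) (G.N i) m w'.2 ∧ ∀ X c, 0 ≤ m X c)
    (s : ∀ k, l ≤ k → k ≤ i → G.SzA A k (r k) (G.tn b J w i k)) (k : ℕ) (h1 : l ≤ k) (h2 : k ≤ i) :
    G.SzA A k (r k) (G.tn b J w' i k) := by
  obtain ⟨x, -, c⟩ := s i hl le_rfl
  rw [Gl.tn_top] at c
  exact (s k h1 h2).imp fun _ u => ⟨u.1, (h.drv_tn t hi a k h2 (hj.trans h1)).sz (h.N_odd k) u.2
    (h.km_tn t hi (a.sz (h.N_odd i) c e) h2)⟩

omit t in
theorem sqC_mv (hj : j ≤ i) {U : Conf} (hU : Per (G.N i) U) :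
    G.sqC R J i (S.mv ((G.rt J j : ℤ) • v)) U = G.sqC R J i S (sh ((G.rt i j : ℤ) • v) U) := by
  simp only [sqC, h.qh_sum hU, h.qh_sum (per_sh' hU _), Slq.mv, add_comm _ S.x,
    h.tk_add v i hi hj, sh_sh]

omit t hi in
theorem sqX_mv {U : Conf} (hU : Per (G.N J) U) : G.sqX J (S.mv v) U = G.sqX J S (sh v U) := by
  simp only [sqX, h.xO_jx hU, h.xO_jx (per_sh' hU _), Slq.mv, add_comm _ S.x, sh_sh]

omit t hi in
theorem e_big (j : ℕ) : 30 * G.L j ^ (G.K0 + 1) ≤ 3 ^ G.e j := by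
  obtain ⟨n, -, e, a⟩ := h.sch.vol j
  have c : G.L j ^ (G.K0 + 1) ≤ n := by
    exact_mod_cast (h.Lb j (i := G.K0 + 1) (by have := h.B1; omega)).trans a
  exact (Nat.mul_le_mul (le_trans (by norm_num) (h.L_big j)) c).trans e.le

end Ok

namespace Sru

variable (u : G.Sru A d b J i l)
include u

/-- a letter alone -/
theorem letter (a : G.RxA (A + 1) b J l d r (G.jx J s Y)) (p : ∀ k, l ≤ k → k ≤ J → 0 < r k)
    (g : ∀ k, l ≤ k → k < J → r k ≤ (G.L k : ℝ) ^ (A - 1) * r (k + 1))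
    (re : ∀ U, (Y.1 U).im = 0) : G.Sok A d D R b J i l r ⟨s, Y, 0⟩ :=
  ⟨⟨a.1, fun k h1 => a.2 k (u.li.trans h1)⟩, ⟨0, .zero u.ok, by
    have := u.ok.QA0 A i; rw [mul_zero]; positivity⟩, fun k h1 h2 => by
      rw [sqD, qd_zero, add_zero, jv, tn_tn h2 u.iJ]
      exact (a.2 k h1 (h2.trans u.iJ)).sl u.ok (p k h1 (h2.trans u.iJ)).le,
    p, g, fun U => ⟨re U, rfl⟩⟩

/-- an insertion alone -/
theorem probe (q : G.Qk D R i x P) (hx : r i * x ≤ (G.QA A i ^ 340)⁻¹)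
    (sz : ∀ k, l ≤ k → k ≤ i →
      G.SzA A k (r k) (G.tn b J (G.qd D R b J i (G.tk s J i) P) i k))
    (p : ∀ k, l ≤ k → k ≤ J → 0 < r k)
    (g : ∀ k, l ≤ k → k < J → r k ≤ (G.L k : ℝ) ^ (A - 1) * r (k + 1))
    (re : ∀ U, (P.1 U).im = 0) : G.Sok A d D R b J i l r ⟨s, 0, P⟩ := by
  have h := u.ok
  have z : G.jx J s 0 = 0 := by ext <;> simp [jx, lS]
  refine ⟨?_, ⟨x, q, hx⟩, fun k h1 h2 => ?_, p, g, fun U => ⟨rfl, re U⟩⟩
  · rw [z]
    exact ⟨⟨0, 0, .zero (h.ρ0 J), by have := h.b0 J; rw [mul_zero]; positivity, by simp⟩,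
      fun k _ _ => ⟨0, by simpa using (h.b0 k).le, by
        rw [xv_zero, h.tn_zero u.t le_rfl]; exact h.sz_zero _ _⟩⟩
  · rw [sqD, jv, z, xv_zero, h.tn_zero u.t le_rfl, zero_add]
    exact sz k h1 h2

/-- translation by blocks -/
theorem mv (a : G.Sok A d D R b J i l r S) (hj : j ≤ l) (v : St) :
    G.Sok A d D R b J i l r (S.mv ((G.rt J j : ℤ) • v)) := by
  have h := u.ok
  have ji := hj.trans u.li
  obtain ⟨s, hs⟩ : ∃ s, s = (G.rt J j : ℤ) • v + S.x := ⟨_, rfl⟩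
  have e : s + (G.rt J j : ℤ) • -v = S.x := by rw [hs, smul_neg]; abel
  obtain ⟨⟨α, M, o, o1⟩, sz⟩ := a.src
  have o' : (G.jx J s S.Y).Ok (G.p J) d α M := by
    rw [← jx_sxT s ((G.rt J j : ℤ) • -v), e]
    exact ⟨fun _ => o.pl _, fun _ => o.lt _, fun _ => o.bd _,
      o.pm.imp fun _ => .imp fun _ => .imp fun _ c _ => c _⟩
  have M0 := (norm_nonneg _).trans (o.bd 0 1)
  obtain ⟨m, k1, k2⟩ := h.topS (n := 0) (u.big J (u.li.trans u.iJ)) (Nat.zero_le _)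
    (by have := (u.t.gd J le_rfl).tz.v; rwa [zz_top] at this) u.hd (C := M + 1) (by positivity)
    (fun _ _ _ => norm_zero.trans_le (by have := h.b0 J; positivity)) o'.lt
    fun x U => (o'.bd x U).trans (lt_add_one M).le
  have c := h.drv_xv (b := b) (J := J) (Y := S.Y) e
  have sz' := h.drv_szA u.t le_rfl ji u.iJ c ⟨m, k1, k2.1⟩ sz
  obtain ⟨y, q, -⟩ := a.ins
  obtain ⟨m1, k3, k4, -⟩ := h.i1_km u.hq u.t u.iJ (fun k hk => u.big k (u.li.trans hk))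
    (q (G.tk s J i)).1 (x := |y| + 1) (by positivity)
    (fun z U => ((q _).2.2 z U).trans (by linarith [le_abs_self y])) fun z hz => (qh_off (D := D) hz).1
  obtain ⟨_, -, -, m2, k5, k6⟩ := sz' i le_rfl u.iJ
  rw [Slq.mv, ← hs]
  exact ⟨⟨⟨α, M, o', o1⟩, sz'⟩, a.ins, h.drv_szA u.t u.iJ hj u.li
    ((h.drv_tn u.t le_rfl c i u.iJ ji).add (h.drv_qd u.t u.iJ
      (by rw [← h.tk_add _ i u.iJ ji, e]))) ⟨_, k5.add k3, fun X c => add_nonneg (k6.1 X c)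
        (k4.1 X c)⟩ a.sz, a.pos, a.gr, a.re⟩

variable {S : ι → Slq} {r : ℕ → ι → ℝ} (a : ∀ q, G.Sok A d D R b J i l (r · q) (S q))
include a

omit u in
theorem _root_.Pool.Agent.Lib.MP_7f377f_mp.RG.Q4.En.Gl.gi_sqX (q : ι) :
    GI (G.N J) (G.sqX J (S q)) :=
  let ⟨_, _, o, _⟩ := (a q).src.1
  gi_neg (gi_xO o)

omit u in
theorem _root_.Pool.Agent.Lib.MP_7f377f_mp.RG.Q4.En.Gl.gi_sqC (q : ι) :
    GI (G.N i) (G.sqC R J i (S q)) :=
  let ⟨_, c, _⟩ := (a q).ins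
  GI.sum fun y _ => ⟨((c _).1.lf y).meas, ⟨_, (c _).2.2 y⟩, fun v U e _ => ((c _).1.lf y).gi v U e⟩

theorem gX (q : ι) : GI (G.N J) (G.sqX J (S q)) :=
  have _ := u
  gi_sqX a q

theorem gC (q : ι) : GI (G.N i) (G.sqC R J i (S q)) :=
  have _ := u
  gi_sqC a q

theorem rad (e : A ≤ A') (c : G.Big A' k) (h1 : l ≤ k) (h2 : k ≤ J) :
    G.Gr A' 1 k (G.L k - 2) ((G.L k : ℝ) ^ (A - 1)) ∧ ∀ q, 0 < r k q ∧
      (k < J → r k q ≤ (G.L k : ℝ) ^ (A - 1) * r (k + 1) q) :=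
  ⟨u.ok.gr_big c le_rfl (by have := u.A1; omega), fun q => ⟨(a q).pos k h1 h2, (a q).gr k h1⟩⟩

theorem sq_eq (q : ι) {U : Conf} (hU : Per (G.N J) U) :
    G.sqX J (S q) U + G.ta (G.sqC R J i (S q)) J i U = -G.sqO R J i (S q) U := by
  have c := gi_bc (gi_sqC a q)
  rw [sqO, u.ok.ta_congr u.iJ (P := fun W => cuf _ _ _ * _)
    (P' := fun W => G.sqC R J i (S q) W + -2 * G.sqC R J i (S q) W)
    fun W hW => by rw [sqC, u.ok.qh_sum hW]; ring, u.ok.ta_lin u.iJ c c, sqX, u.ok.xO_jx hU]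
  ring

theorem sqO_mv (hj : j ≤ l) (v : St) (q : ι) {U : Conf} (hU : Per (G.N J) U) :
    G.sqO R J i ((S q).mv ((G.rt J j : ℤ) • v)) U =
      G.sqO R J i (S q) (sh ((G.rt J j : ℤ) • v) U) := by
  have ji := hj.trans u.li
  rw [← neg_inj, ← u.sq_eq (fun q => u.mv (a q) hj v) q hU, ← u.sq_eq a q (per_sh' hU _),
    u.ok.sqX_mv hU, u.ok.ta_congr u.iJ fun W hW => u.ok.sqC_mv u.iJ ji hW,
    u.ok.ta_sh u.iJ (gi_bc (gi_sqC a q)) hU, smul_smul, ← Nat.cast_mul, ← u.ok.rt_rt ji u.iJ]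

theorem sqM_re (hj : j ≤ l) (B : Finset ι) :
    ((G.sqM R b J i j S B).re : ℂ) = G.sqM R b J i j S B :=
  u.ok.mpa_real u.iJ (hj.trans u.li) (gi_sqX a) (gi_sqC a) u.t.b0 (fun q _ => (a q).reX u.ok)
    (fun q _ => (a q).reC u.ok) B

theorem lf (q : ι) : Mg.LF (G.N i) (tb (G.N i) ((G.p i).R + 3) {G.tk (S q).x J i})
    fun U => G.sqC R J i (S q) (pc (G.N i) U) := by
  obtain ⟨_, c, -⟩ := (a q).ins
  convert (c (G.tk (S q).x J i)).1.lf (G.tk (S q).x J i) using 2 with U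
  rw [sqC, u.ok.qh_sum (per_pc _ _)]
  simp [qh, dt, nearT.refl]

theorem dp [NeZero (G.N J)] (q : ι) : Dnr (10 * (G.L l * G.sJ J l)) (S q).x
    fun U : Cfg (G.N J) => -(G.sqO R J i (S q) (L6.lf U)).re := by
  have h := u.ok
  have c := gi_bc (gi_sqC a q)
  have e : ∀ U : Cfg (G.N J), -(G.sqO R J i (S q) (L6.lf U)).re =
      (G.sqX J (S q) (Fi.lf U) + G.ta (G.sqC R J i (S q)) J i (Fi.lf U)).re := fun U => by
    rw [u.sq_eq a q (per_lf U)]; rfl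
  obtain ⟨g1, ⟨M, g2⟩, -⟩ := (gi_sqX a q).add (h.gi_ta u.iJ (gi_sqX a) (gi_sqC a) (u.lf a) q)
  have s1 := Nat.mul_le_mul_right (G.sJ J l) (h.L_big l)
  have s2 := h.sJ_anti u.li u.iJ
  have s3 := h.sJ_anti u.iJ le_rfl
  have s4 := Nat.mul_le_mul_right (G.rt J i) (h.LK0 i).1
  rw [funext e]
  refine ⟨⟨Complex.measurable_re.comp (g1.comp Fi.meas_lf), M,
    fun U => (Complex.abs_re_le_norm _).trans (g2 _)⟩, fun U V v => congrArg _ (congrArg₂ _ ?_ ?_)⟩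
  · obtain ⟨_, _, o, -⟩ := (a q).src.1
    have o := (o.lt (S q).x).loc
    simp only [jx, lS, dt, nearT.refl, if_true, one_smul] at o
    rw [sqX, sqX, h.xO_jx (per_lf U), h.xO_jx (per_lf V)]
    refine congrArg _ (o _ _ fun l hl => v _ _ ((add_comm _ l.1 ▸ nearT_add
      (Op.mem_lbox.1 hl)).mono (u.hd.trans ?_)))
    rw [h.sJ_top] at s3
    change 4 * G.L J ^ G.K0 ≤ _
    omega
  · have w := h.ta_lf u.iJ ⟨(u.lf a q).meas, c.2.imp fun _ a _ => a _⟩ (u.lf a q)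
    rw [h.ta_congr u.iJ fun U hU => congrArg (G.sqC R J i (S q)) (Sh.pc_per hU)] at w
    refine w.dep fun l hl => v _ _ ?_
    obtain ⟨-, _, hy, e1⟩ := mem_tb.1 hl.1
    obtain ⟨y, hz, rfl⟩ := mem_image.1 hy
    have e2 := near_mul (G.rt J i) (mem_tb_single.1 hz).2
    rw [h.rt_N u.iJ] at e2
    refine (((nearT_of_box (h.tk_sub (S q).x i u.iJ)).symm.trans e2).trans
      (nearT_rc_right.1 e1)).mono ?_
    change _ / 2 + _ * (4 * G.L i ^ G.K0 + 3) + _ ≤ _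
    rw [sJ] at s2
    nlinarith [Nat.div_le_self (G.rt J i) 2]

variable {γ : Type} [DecidableEq γ] {cl : ι → γ} (g : G.Gpt cl c J l j fun q => (S q).x)
include g

/-- the family at the level of the insertions -/
theorem fd : ∃ Y : Fy ι, G.Fd i (G.zz b J i) univ (r i) (r i) (G.tA A i) Y
      (G.pq b J i (fun q => G.sqX J (S q)) fun q => G.sqC R J i (S q)) ∧
      G.KA A i (r i) (G.tA A i) Y.K ∧ Y.bs = (G.zz b J i).d ∧ Y.Ec univ id ∧
      ∀ q, Y.Z q = G.zs {rc (G.N J) (S q).x} J i ∧ Y.jt {q} = G.sqD D R b J i (S q) := by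
  have h := u.ok
  choose x c e using fun q => (a q).ins
  exact h.ins_src u.t u.hp u.hq (ν := fun k => G.L k - 2) u.iJ (fun k hk => u.big k (u.li.trans hk))
    u.hd (fun k h1 => u.rad a A.le_succ (u.big k (u.li.trans h1)) (u.li.trans h1))
    (fun q => jx_in h _ _) (fun q => (a q).src)
    (fun k h1 h2 => (h.dL_eq k).symm ▸ g.cls k (u.li.trans h1) h2) (g.cls i u.li u.iJ)
    (mul_le_mul_of_nonneg_right (by linarith [h.L1 i]) (Nat.cast_nonneg _))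
    (fun q => (c q _).1) (fun q => (c q _).2.1)
    (fun q y hy => qh_off fun v => hy (v ▸ h.tk_zs (mem_singleton_self _) i u.iJ))
    fun q y U => (mul_le_mul_of_nonneg_left ((c q _).2.2 y U) ((a q).pos i u.li u.iJ).le).trans (e q)

theorem slg : G.Slg b J l j c (G.Q j) cl
    (fun s => G.tt (G.pq b J i (fun q => G.sqX J (S q)) (fun q => G.sqC R J i (S q)) s) i l)
    fun q => r l q / G.Q l ^ 50 := by
  have h := u.ok
  obtain ⟨Y, e, c1, c2, c3, c4⟩ := u.fd a g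
  have c := fun k hk => h.big_sl (u.big k hk)
  exact g.slg h (h.slv_flow u.t u.hp u.hq (ν := fun k => G.L k - 2) u.iJ u.li c e c1 c2 c3
    (fun q => (c4 q).1.subset) (fun k h1 h2 => (u.rad a le_rfl (c k h1) h1 (h2.trans u.iJ)).imp_right
      fun v q => ⟨(v q).1, fun w => (v q).2 (w.trans_le u.iJ)⟩)
    (fun k h1 h2 q => (c4 q).2 ▸ (a q).sz k h1 h2)
    fun k h1 h2 => (h.dL_eq k).symm ▸ g.cls k h1 (h2.trans u.iJ))

theorem xp [NeZero (G.N J)] : G.Xp J i (fun q => G.sqX J (S q)) (fun q => G.sqC R J i (S q))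
    (fun q => tb (G.N i) ((G.p i).R + 3) {G.tk (S q).x J i})
    fun q U => -(G.sqO R J i (S q) (L6.lf U)).re :=
  ⟨gi_sqX a, gi_sqC a, u.lf a, g.dis i u.li u.iJ _ (u.ok.R3_le i), fun q U hU => by
    rw [u.sq_eq a q hU, show L6.lf (Fi.rs _ U) = U from (Fi.lf_rs U).trans (Sh.pc_per hU),
      Complex.ofReal_neg, Complex.conj_eq_iff_re.1
        (Complex.conj_eq_iff_im.2 (sq_re (a q) u.ok u.iJ U))]⟩

end Sru

namespace Fms

variable [NeZero (G.N J)] {r r' : ℕ → κ → ℝ} {S : B4 → κ → Slq} {T : κ → Fz → ℝ} {x : κ → St}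
  {a : Finset κ → ℂ} (F : G.Fms A d D R b J i l j r S T x)
include F

theorem gpt (g : B4) : G.Gpt (fun _ => ()) (Fintype.card κ) J l j fun q => (S g q).x :=
  F.run.ok.gpt_one (F.run.li.trans F.run.iJ) F.jl.le (F.geo.far g) le_rfl F.big

theorem dec : ∃ N : B4 → κ → Fz → ℝ, ∀ g q, Nuq b (G.N J) (10 * (G.L l * G.sJ J l)) (N g q) ∧
    ∀ U, fO (G.N J) T x g q U = -(G.sqO R J i (S g q) (L6.lf U)).re -
      N g q (Wy.tz (S g q).x (L6.lf U)) := by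
  choose N c e using F.rep
  refine ⟨N, fun g q => ⟨c g q, fun U => ?_⟩⟩
  have := congrArg Complex.re (e g q (L6.lf U) (per_lf U))
  rw [Complex.ofReal_re, Complex.add_re, Complex.ofReal_re, ← tz_sh] at this
  exact (congrArg Neg.neg this).trans (neg_add' _ _)

theorem dp (g : B4) (q : κ) : Dnr (10 * (G.L l * G.sJ J l)) (S g q).x (fO (G.N J) T x g q) :=
  let ⟨_, c⟩ := F.dec
  funext (c g q).2 ▸ (F.run.dp (F.ok g) q).sub ((c g q).1.dp _)

theorem lam : 30 * (G.L j * G.sJ J j) ≤ G.rt J j * 3 ^ G.e j ∧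
    G.L l * G.sJ J l ≤ G.L j * G.sJ J j :=
  ⟨le_trans (by rw [sJ]; exact le_of_eq (by ring)) (Nat.mul_le_mul_left _ (F.run.ok.e_big j)),
    F.run.ok.LsJ_anti F.jl.le (F.run.li.trans F.run.iJ)⟩

theorem mic : Mic (14 * (G.L j * G.sJ J j)) fun e => fO (G.N J) T x (rE e) := by
  refine ⟨fun e q => (F.dp _ q).1, fun e k q U => by
    simp only [fO, Wd.rE_upd, Wd.pb_mul inv_inv, pb_rf, Wy.lf_refl], fun e q U V w =>
      (F.dp _ q).2 U V fun y μ c => w _ fun k => ?_⟩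
  obtain ⟨v, hv⟩ := nearT_iff.1 c
  have := hv k
  have := mem_box.1 (F.geo.inn (rE e) q) k
  have := F.lam.2
  refine ⟨y k - G.N J * v k, abs_le.2 ?_, by simp [Fi.cst]⟩
  simp only [sub_zero] at *
  omega

/-- the arrays of the mirror images -/
theorem arf [NeZero G.m] : G.Arf b J l j (Fintype.card κ) G.m (3 ^ G.e j) (G.Q j)
    (fun e => fO (G.N J) T x (rE e)) (fun e B => (G.sqM R b J i j (S (rE e)) B).re)
    fun q => r l q / G.Q l ^ 50 := by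
  have u := F.run
  have h := u.ok
  have hl := u.li.trans u.iJ
  have hj := F.jl.le
  obtain ⟨a1, a2⟩ := F.lam
  obtain ⟨N, c⟩ := F.dec
  refine h.arf_pa u.iJ u.li hj (fun e q => ⟨gi_sqX (F.ok _) q, fun _ => (F.ok _ q).reX h⟩)
    (fun e q => ⟨gi_sqC (F.ok _) q, fun _ => (F.ok _ q).reC h⟩) u.t.b0 fun e => ?_
  have P : Pta (G.N J) _ _ 0 fun z q => (S (rE (e z)) q).x :=
    ⟨fun _ _ => F.geo.inn _ _, fun _ => F.geo.far _⟩
  have o := fun q : Weak.Site 4 G.m × κ => u.mv (F.ok (rE (e q.1)) q.2) hj (czl (3 ^ G.e j) q.1)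
  have g : G.Gpt Prod.fst (Fintype.card κ) J l j fun q : Weak.Site 4 G.m × κ =>
      ((S (rE (e q.1)) q.2).mv ((G.rt J j : ℤ) • czl (3 ^ G.e j) q.1)).x := by
    simp only [← czl_mul]
    exact h.gpt_arr hl hj rfl (h.e_big j) P le_rfl le_rfl F.big
  refine ⟨_, _, _, _, u.xp o g, mo_nq (u.dp o) (fun q => (c (rE (e q.1)) q.2).1) (fun q U => ?_)
    fun q q' ne w => ?_, u.slg o g, fun z q U hU => by rw [h.sqX_mv hU, czl_mul],
    fun z q U hU => by rw [h.sqC_mv u.iJ (hj.trans u.li) hU, czl_mul]⟩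
  · have w : L6.lf (Weak.shift (Weak.corner (G.rt J j * 3 ^ G.e j) q.1) U) =
        sh ((G.rt J j : ℤ) • czl (3 ^ G.e j) q.1) (L6.lf U) := by
      rw [← tz_sh, ← Wy.lf_shift]
      congr 2
      funext k
      simp [czl, Weak.corner, mul_assoc]
    rw [arr, (c _ _).2, w, tz_sh, tz_sh, sh_sh, add_comm]
    exact congrArg (fun t : ℂ => -t.re - _) (u.sqO_mv (F.ok _) hj _ _ (per_lf U)).symm
  · simp only [← czl_mul] at w
    have := P.one (lam := G.rt J j * 3 ^ G.e j) (by rw [← h.rt_N (hj.trans hl), Gl.N, mul_left_comm])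
      (by omega) q q' ne _ w
    have : 0 < G.L l * G.sJ J l := have : 0 < G.L l := by linarith [h.L_big l]
      Nat.mul_pos this (Nat.mul_pos (pow_pos this _) (pow_pos three_pos _))
    omega

theorem mu (B : Finset κ) :
    ((G.sqM R b J i j (S (rE 0)) B).re : ℂ) = G.sqM R b J i j (S 1) B := by
  rw [Wd.rE_zero, F.run.sqM_re (F.ok 1) F.jl.le]

/-- the true moments in terms of any representation of the reference moments -/
theorem rdm (e : Rdm (G.sqM R b J i j (S 1)) (fun q => 2 ^ (l - j) * (r l q / G.Q l ^ 50)) M a) :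
    Rdm (Ob.mo (YM7.ex (Fi.tr haar) b (G.N J)) (fO (G.N J) T x 1))
      (fun q => 2 ^ (l - j) * (r l q / G.Q l ^ 50)) (M * G.kSl j (Fintype.card κ)) a := by
  have u := F.run
  have : NeZero G.m := ⟨u.ok.odd.pos.ne'⟩
  have := u.ok.arf_rdm u.t u.hp u.t.b0 (u.li.trans u.iJ) F.jl.le rfl (u.ok.Q0 j).le F.arf
    (.inr ⟨rfl, _, by have := F.lam.1; omega, rfl⟩) F.mic 0 (by simpa only [F.mu] using e)
  rwa [Wd.rE_zero] at this

/-- the centred moment is the main term -/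
theorem out (e : Rdm (G.sqM R b J i j (S 1)) (fun q => 2 ^ (l - j) * (r l q / G.Q l ^ 50)) M a)
    (X0 : 0 ≤ X) (ha : ∀ B, 2 ≤ B.card → ‖a B‖ ≤ X * ∏ q ∈ B, (r l q / G.Q l ^ 50)⁻¹) :
    ‖(-1) ^ Fintype.card κ * (cL (Fi.tr haar) b (G.N J) T x : ℂ) - mtm a‖ ≤
      cCe (Fintype.card κ) X (M * G.kSl j (Fintype.card κ)) *
        ((2 ^ (l - j))⁻¹ * ∏ q, (r l q / G.Q l ^ 50)⁻¹) := by
  have := F.jl
  rw [← cmo_fO fun q => (F.dp 1 q).1]
  exact Rdm.cen (by simpa only [div_inv_eq_mul, mul_comm (_ / _)] using F.rdm e) (by positivity)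
    (inv_lt_one_of_one_lt₀ (one_lt_pow₀ one_lt_two (by omega))) X0 ha

/-- the true means -/
theorem one (e : Rdm (G.sqM R b J i j (S 1)) (fun q => 2 ^ (l - j) * (r l q / G.Q l ^ 50)) M a)
    (q : κ) : ‖-(Wy.er (Fi.tr haar) b (G.N J) (T q) : ℂ) - a {q}‖ ≤
      M * G.kSl j (Fintype.card κ) / (2 ^ (l - j) * (r l q / G.Q l ^ 50)) := by
  rw [← Complex.ofReal_neg, ← ex_fO fun q => (F.dp 1 q).1]
  simpa only [Ob.mo, prod_singleton] using (F.rdm e).one q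

/-- the crude bound: `r'` are the radii of the slots, `r` those of all the images -/
theorem crude (u : G.Sru A' d' b J i l) (o : ∀ q, G.Sok A' d' D R b J i l (r' · q) (S 1 q))
    (hr : ∀ q, r l q ≤ r' l q) : |cL (Fi.tr haar) b (G.N J) T x| ≤
      exp (2 ^ Fintype.card κ) * ∏ q, (r' l q / G.Q l ^ 50)⁻¹ +
      cCe (Fintype.card κ) 1 (exp (Fintype.card κ * G.Q j) * G.kSl j (Fintype.card κ)) *
        ((2 ^ (l - j))⁻¹ * ∏ q, (r l q / G.Q l ^ 50)⁻¹) := by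
  have h := u.ok
  have : NeZero G.m := ⟨h.odd.pos.ne'⟩
  have q0 := h.Q0 l
  have := h.out_cg u.t u.hp u.t.b0 (u.li.trans u.iJ) F.jl.le rfl (h.Q0 j).le F.arf
    (.inr ⟨rfl, _, by have := F.lam.1; omega, rfl⟩) F.mic 0 F.jl
    (fun _ p => tt_hd (h.hd_pq u.iJ (gi_sqX o) (gi_sqC o) p) u.li) (u.slg o (F.gpt 1))
    (fun B => by simp only [F.mu, tt_tt u.li j F.jl.le]; rfl) fun q => by gcongr; exact hr q
  rwa [Wd.rE_zero, cmo_fO fun q => (F.dp 1 q).1, norm_mul, norm_pow, norm_neg, norm_one, one_pow,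
    one_mul, Complex.norm_real] at this

end Fms

end Gl

end Pool.Agent.Lib.MP_7f377f_mp.RG.Q4.En
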