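import Pool.Agent.Lib.MP_7f377f_mp.G.KzH
import Pool.Agent.Lib.MP_7f377f_mp.G.KzJ

/-! Matched sources form a linear space; probes. -/

noncomputable section

set_option linter.unusedSectionVars false
variable [Pool.Agent.Lib.MP_7f377f_mp.GD]

namespace Pool.Agent.Lib.MP_7f377f_mp.RG.Q4.En.Gl

open Finset Function Real Sg Pos Mg Kz
open scoped Classical

attribute [local irreducible] box lbox tb tau rc

variable {G : Gl} {A n d D R J J' i k m : ℕ} {τ b b' x x' y y' δ K : ℝ} {z s : St}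
  {F F' E E' : Sx} {H : St → Conf → ℂ} {Ψ : Lx} {Y P : Lq} {σ : Fld → ℂ} {α : Type} [Fintype α]

theorem jx_sum (t : α → ℂ) (Y : α → Lq) :
    G.jx J s (∑ a, t a • Y a) = ∑ a, t a • G.jx J s (Y a) := by
  refine Prod.ext ?_ (Prod.ext ?_ ?_) <;> ext <;>
    simp [jx, lS, Prod.fst_sum, Prod.snd_sum, Finset.sum_apply, mul_sum, mul_left_comm]

theorem jx_zero : G.jx J s 0 = 0 := by
  simpa using jx_sum (α := Empty) (fun _ => 0) fun _ => 0

theorem Zh.mono (a : G.Zh A k s x H Ψ) (h : G.Ok) (x0 : 0 < x) (e : x ≤ x') :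
    G.Zh A k s x' H Ψ := by
  exact ⟨a.lt, a.off, fun y U => (a.bd y U).trans e, a.sz.mono h (by gcongr)⟩

/-- no probe -/
theorem Ok.zh_zero (h : G.Ok) (x0 : 0 < x) : G.Zh A k s x (G.qh R k s 0) (G.ql D k s 0) := by
  have e : G.ql D k s 0 = 0 := by
    ext
    simp only [ql, ptL]
    split_ifs <;> simp [ccn, ctr, ctf, opT]
  rw [e, map_zero]
  exact ⟨⟨fun _ => .const 0, fun _ _ _ => by simp⟩, fun _ _ => ⟨rfl, rfl⟩,
    fun _ _ => by simpa using x0.le, 0, by simpa using (h.b0 k).le, h.sz_zero k _⟩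

/-- probes -/
theorem Ok.zh (h : G.Ok) (J1 : G.Tj D R δ k) (a : Tl.Top R m δ K P.1 P.2 σ) (m1 : 1 ≤ m)
    (x0 : 0 < x) (e : G.QA (A + 1) k ^ 340 * (K * (4 * G.lH D k) ^ m) ≤ x) :
    G.Zh A k s x (G.qh R k s P) (G.ql D k s P) := by
  have l0 := h.lH0 D k
  have r0 := h.ρ0 k
  have K0 := a.nonneg
  have q := h.QA1 (A + 1) k
  have L1 := h.L1 k
  obtain ⟨c1, c2, c3⟩ := (h.top_cut J1 a).cut l0.le (h1 := 2 * G.lH D k) (by linarith) (by linarith)
  have z := (c3 0 (inT_zero (h.ρ60 k).le l0.le)).trans (top_zero a (by linarith [J1.2.1]) m1)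
  have t := tf_pt (n := G.N k) (c := s) (c1.mono (h.lR_le k) le_rfl (h' := (G.p k).ρ)
    (by linarith [h.ρH D k]) le_rfl) c2 (by linarith) r0.le
  have z' : ∀ y, ptL (G.N k) s (opT (G.lR k) (60 * (G.p k).ρ) (2 * G.lH D k) P.2) y 0 = 0 :=
    fun y => by unfold ptL; split_ifs; exacts [z, rfl]
  obtain ⟨u1, u2⟩ := h.sz_of (fun y => ⟨(t y).1, z' y⟩) km_zero
    ⟨fun _ _ => le_rfl, fun _ => by simp; positivity⟩
  have e1 : G.ql D k s P = fun x => ccn (G.p k)
      (ptL (G.N k) s (opT (G.lR k) (60 * (G.p k).ρ) (2 * G.lH D k) P.2) x) := by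
    funext y B
    simp only [ql, ptL]
    split_ifs <;> simp [ccn, ctr, ctf]
  refine ⟨h.qh_lt J1 a m1, fun _ => qh_off, fun y U => le_trans ?_ e, h.szA_of (i := 100)
    ⟨fun y => ⟨((u1 y).1.congr r0 fun B r v => ?_).1, ?_⟩, u2⟩ (by positivity) ?_⟩
  · refine mul_le_mul (pow_le_pow_left₀ (h.QA0 A k).le
      (pow_le_pow_right₀ (by linarith) (by omega)) _) ((h.qh_bd J1 a y U).trans ?_) (norm_nonneg _)
      (by positivity)
    gcongr
    linarith [h.ρH D k]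
  · simp only [e1, ccn, ctr_of r v, ctr_zero r0.le, z', sub_zero]
  · exact ((h.ql_pm (s := s) J1 a).choose_spec.choose_spec.choose_spec y).2
  · rw [mul_left_comm, inv_mul_le_one₀ x0]
    refine le_trans ?_ e
    gcongr
    exacts [by linarith, by norm_num]

theorem xv_sum (c : α → ℂ) (F : α → Sx) :
    G.xv b J (∑ q, c q • F q) = ∑ q, c q • G.xv b J (F q) := by
  induction (univ : Finset α) using Finset.cons_induction with
  | empty => exact xv_zero
  | cons a s _ ih => rw [sum_cons, sum_cons, add_comm, xv_add, ih, add_comm]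

theorem Ok.sz_sum (h : G.Ok) {u : α → Lx × Ac} {N ω : ℝ} (c : α → ℂ)
    (a : ∀ q, G.Sz k N N ω (u q).1 (u q).2) (T : Finset α) :
    G.Sz k ((∑ q ∈ T, ‖c q‖) * N) ((∑ q ∈ T, ‖c q‖) * N) ω (∑ q ∈ T, c q • u q).1
      (∑ q ∈ T, c q • u q).2 := by
  induction T using Finset.cons_induction with
  | empty => simpa only [sum_empty, zero_mul] using h.sz_zero k ω
  | cons q s _ ih =>
    rw [sum_cons, sum_cons, add_mul]
    exact sz_add (h.ρ0 k) (sz_smul (h.ρ0 k) (a q) _) ih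

theorem SzA.sz {u : Lx × Ac} {r : ℝ} (a : G.SzA A k r u) (h : G.Ok) (r0 : 0 < r) :
    G.Sz k (G.bb k / (G.QA A k ^ 223 * r)) (G.bb k / (G.QA A k ^ 223 * r)) (G.Q k ^ 100)⁻¹
      u.1 u.2 := by
  obtain ⟨N, a1, a2⟩ := a
  have := h.QA0 A k
  have := h.Q0 k
  have e : N ≤ G.bb k / (G.QA A k ^ 223 * r) := by
    rwa [le_div_iff₀' (by positivity), mul_assoc]
  exact h.sz_up a2 (by positivity) e e

theorem rH_pos (h : G.Ok) (x0 : 0 < x) (m : ℕ) : 0 < G.rH n k x m := by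
  have := h.t0 m k
  unfold rH
  positivity

theorem rH_le (h : G.Ok) (x0 : 0 < x) (x1 : 0 < x') (e : y * x ≤ x') (m : ℕ) :
    G.rH n k x' m * y ≤ G.rH n k x m := by
  have := h.t0 m k
  rw [rH, rH, inv_mul_le_iff₀ (by positivity), le_mul_inv_iff₀ (by positivity), ← mul_assoc]
  gcongr

theorem Ok.szA_sum (h : G.Ok) {u : α → Lx × Ac} (c : α → ℂ) (x0 : 0 < x) (x1 : 0 < x')
    (a : ∀ q, G.SzA A m (G.rH n k x m) (u q)) (e : (∑ q, ‖c q‖) * x ≤ x') :
    G.SzA A m (G.rH n k x' m) (∑ q, c q • u q) := by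
  have := h.QA0 A m
  have := h.b0 m
  have r0 := rH_pos (n := n) (k := k) h x0 m
  refine ⟨_, ?_, h.sz_sum c (fun q => (a q).sz h r0) univ⟩
  rw [← mul_assoc (G.rH ..)]
  refine (mul_le_mul_of_nonneg_left (mul_le_mul_of_nonneg_right (rH_le h x0 x1 e m)
    (by positivity)) (by positivity)).trans_eq (by field_simp)

theorem Rh.tH_sum {B : ℕ → Lx × Ac} (R : G.Rh b J i k B) (h : G.Ok) {u : α → Lx × Ac} {r : ℝ}
    (c : α → ℂ) (a : ∀ q, G.SzA A i r (u q)) (r0 : 0 < r) (h1 : k ≤ m) (h2 : m ≤ i) :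
    G.tH b J B (∑ q, c q • u q) i m = ∑ q, c q • G.tH b J B (u q) i m := by
  induction (univ : Finset α) using Finset.cons_induction with
  | empty => simpa using R.tH_lin h (h.sz_zero i _) (h.sz_zero i _) (-1) m h1 h2
  | cons q s _ ih =>
    rw [sum_cons, sum_cons, add_comm, R.tH_lin h (h.sz_sum c (fun q => (a q).sz h r0) s)
      ((a q).sz h r0) _ m h1 h2, ih, add_comm]

theorem Ok.tx_sum (h : G.Ok) (t : G.Tu1 b J) (hi : i ≤ J) {F : α → Sx} (c : α → ℂ) (x0 : 0 < x)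
    (a : ∀ q, G.RxA A b J i d (G.rH n k x) (F q)) (h1 : i ≤ m) (h2 : m ≤ J) :
    G.tn b J (G.xv b J (∑ q, c q • F q)) J m = ∑ q, c q • G.tn b J (G.xv b J (F q)) J m := by
  rw [xv_sum]
  exact (h.rh_run t i).tH_sum h c (fun q => by simpa only [Gl.tn_top] using (a q).2 J hi le_rfl)
    (rH_pos h x0 J) h1 h2

/-- linear combinations of admissible sources -/
theorem Ok.rxA_sum (h : G.Ok) (t : G.Tu1 b J) (hi : i ≤ J) {F : α → Sx} (c : α → ℂ) (x0 : 0 < x)
    (x1 : 0 < x') (a : ∀ q, G.RxA A b J i d (G.rH n k x) (F q)) (e : (∑ q, ‖c q‖) * x ≤ x') :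
    G.RxA A b J i d (G.rH n k x') (∑ q, c q • F q) := by
  have r0 := rH_pos (n := n) (k := k) h x0 J
  have r1 := rH_le (n := n) (k := k) h x0 x1 e J
  have b0 := h.b0 J
  have o : ∀ T : Finset α, (∑ q ∈ T, c q • F q).Ok (G.p J) d
      ((∑ q ∈ T, ‖c q‖) * (G.bb J / 4 / G.rH n k x J)) ((∑ q ∈ T, ‖c q‖) * (1 / G.rH n k x J)) :=
    fun T => by
      induction T using Finset.cons_induction with
      | empty => simpa only [sum_empty, zero_mul] using Sx.Ok.zero (h.ρ0 J)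
      | cons q s _ ih =>
        obtain ⟨a, M, o, o1, o2⟩ := (a q).1
        rw [sum_cons, sum_cons, add_comm, add_comm (c q • _), add_mul, add_mul]
        exact ih.add (h.ρ0 J) ⟨fun x μ ν => (o.pl x μ ν).trans ((le_div_iff₀' r0).2 o1), o.lt,
          fun x U => (o.bd x U).trans ((le_div_iff₀' r0).2 o2), o.pm⟩ _
  refine ⟨⟨_, _, o univ, ?_, ?_⟩, fun m h1 h2 => ?_⟩
  iterate 2
    rw [← mul_assoc]
    exact (mul_le_mul_of_nonneg_right r1 (by positivity)).trans_eq (mul_div_cancel₀ _ r0.ne')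
  rw [h.tx_sum t hi c x0 a h1 h2]
  exact h.szA_sum c x0 x1 (fun q => (a q).2 m h1 h2) e

theorem Ok.rxA_mono (h : G.Ok) (t : G.Tu1 b J) (hi : i ≤ J) (x0 : 0 < x)
    (a : G.RxA A b J i d (G.rH n k x) F) (e : x ≤ x') : G.RxA A b J i d (G.rH n k x') F := by
  simpa using h.rxA_sum (α := Unit) t hi (fun _ => 1) x0 (x0.trans_le e) (fun _ => a) (by simpa)

theorem rH_gr (h : G.Ok) (hn : n + 1 ≤ A) (x0 : 0 < x) (hk : k ≤ m) :
    G.rH n k x m ≤ (G.L m : ℝ) ^ (A - 1) * G.rH n k x (m + 1) := by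
  have := h.t0 m k
  have L1 := h.L1 m
  rw [rH, rH, h.rt_succ hk, mul_pow, mul_left_comm x, mul_inv (_ ^ n), ← mul_assoc]
  refine le_mul_of_one_le_left (by positivity) ?_
  rw [le_mul_inv_iff₀ (by positivity), one_mul]
  exact pow_le_pow_right₀ (by linarith) (by omega)

/-- a letter is a slot -/
theorem Sru.sok_letter (u : G.Sru A d b J (k + 1) k) (hn : n + 1 ≤ A) (x0 : 0 < x)
    (a : G.RxA (A + 1) b J k d (G.rH n k x) (G.jx J s Y)) (re : ∀ U, (Y.1 U).im = 0)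
    (e : x ≤ x') : G.Sok A d D R b J (k + 1) k (G.rH n k x') ⟨s, Y, 0⟩ := by
  have x1 := x0.trans_le e
  exact u.letter (u.ok.rxA_mono u.t.toTu1 (u.li.trans u.iJ) x0 a e) (fun m _ _ => rH_pos u.ok x1 m)
    (fun m h1 _ => rH_gr u.ok hn x1 h1) re

/-- a probe is a slot -/
theorem Sru.sok_probe (u : G.Sru A d b J (k + 1) k) (hn : n + 1 ≤ A) (J1 : G.Tj D R δ (k + 1))
    (a : Tl.Top R m δ K P.1 P.2 σ) (m1 : 1 ≤ m) (x0 : 0 < x)
    (e : 4 * (G.QA (A + 1) (k + 1) ^ 340 * (K * (4 * G.lH D (k + 1)) ^ m)) ≤ x)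
    (re : ∀ U, (P.1 U).im = 0) : G.Sok A d D R b J (k + 1) k (G.rH n k x) ⟨s, 0, P⟩ := by
  have h := u.ok
  have r1 : G.rH n k x (k + 1) ≤ x⁻¹ := by
    have := one_le_pow₀ (n := n) (h.t0 (k + 1) k)
    exact inv_anti₀ x0 (le_mul_of_one_le_right x0.le this)
  have Z := h.zh (A := A) (s := G.tk s J (k + 1)) (x := x / 4) J1 a m1 (by positivity) (by linarith)
  have z := Z.run h u.hq u.t.toTu1 u.iJ (by positivity) fun m hm => u.big m (by omega)
  refine u.probe (h.qk J1 a m1) ?_ (fun l h1 h2 => ?_) (fun m _ _ => rH_pos h x0 m)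
    (fun m h1 _ => rH_gr h hn x0 h1) re
  · have q := h.QA0 A (k + 1)
    have L1 := h.L1 (k + 1)
    have r0 := h.ρ0 (k + 1)
    have K0 := a.nonneg
    refine (mul_le_mul_of_nonneg_right r1 (by positivity)).trans ?_
    rw [inv_mul_le_iff₀ x0, le_mul_inv_iff₀ (by positivity), mul_comm]
    refine le_trans ?_ ((le_mul_of_one_le_left (by
      have := h.QA0 (A + 1) (k + 1); have := h.lH0 D (k + 1); positivity) (by norm_num)).trans e)
    gcongr
    · exact pow_le_pow_right₀ (by linarith) (by omega)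
    · linarith [h.ρH D (k + 1)]
  · rcases h2.eq_or_lt with rfl | h3
    · rw [Gl.tn_top]
      exact z.mono h (r1.trans (inv_anti₀ (by positivity) (by linarith)))
    · obtain rfl : k = l := by omega
      rw [Gl.tn_step h3, Gl.tn_top]
      refine ((h.rh_run u.t.toTu1 k).szA h le_rfl u.iJ z (by positivity)).mono h (le_of_eq ?_)
      rw [rH, rt_top]
      field_simp
      norm_num

namespace Xh

variable (X : G.Xh A n τ b b' J J' i k)
include X

theorem yh_sum {F F' : α → Sx} (c : α → ℂ) (x0 : 0 < x) (x1 : 0 < x') (y0 : 0 ≤ y)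
    (a : ∀ q, G.Yh A n d b b' J J' i k z x y (F q) (F' q)) (e : (∑ q, ‖c q‖) * x ≤ x') :
    G.Yh A n d b b' J J' i k z x' y (∑ q, c q • F q) (∑ q, c q • F' q) := by
  have h := X.ok
  have := X.hi
  have := X.le
  have := X.lt
  have I : ∀ {n W} {F : α → Sx}, (∀ q, (F q).In n W) → (∑ q, c q • F q).In n W := fun f v hv => by
    simp [Prod.fst_sum, Prod.snd_sum, Finset.sum_apply, fun q => f q v hv]
  have e1 : ∀ m, k ≤ m → m ≤ i → G.tH b J (G.hy b J b' J' i)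
      (G.tn b' J' (G.xv b' J' (∑ q, c q • F' q)) J' i) i m = ∑ q, c q • G.tH b J (G.hy b J b' J' i)
        (G.tn b' J' (G.xv b' J' (F' q)) J' i) i m := fun m h1 h2 => by
    rw [h.tx_sum X.t'.toTu1 (by omega) c x0 (fun q => (a q).rx') le_rfl (by omega)]
    exact X.rh.tH_sum h c (fun q => (a q).rx'.2 i le_rfl (by omega)) (rH_pos h x0 i) h1 h2
  refine ⟨x1, I fun q => (a q).inn, I fun q => (a q).inn',
    h.rxA_sum X.t.toTu1 (by omega) c x0 x1 (fun q => (a q).rx) e,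
    h.rxA_sum X.t'.toTu1 (by omega) c x0 x1 (fun q => (a q).rx') e, fun m h1 h2 => ?_, ?_⟩
  · rw [e1 m h1.le h2]
    exact h.szA_sum c x0 x1 (fun q => (a q).hy m h1 h2) e
  · have b0 := h.b0 k
    have Q0 := h.Q0 k
    have e2 : (∑ q, ‖c q‖) * (y * x * G.bb k) ≤ y * x' * G.bb k := by
      rw [← mul_assoc, mul_left_comm]; gcongr
    rw [e1 k le_rfl X.lt.le, h.tx_sum X.t.toTu1 (by omega) c x0 (fun q => (a q).rx) le_rfl
      (by omega), ← sum_sub_distrib]
    simp only [← smul_sub]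
    exact h.sz_up (h.sz_sum c (fun q => (a q).e) univ) (by positivity) e2 e2

theorem yh_mono (a : G.Yh A n d b b' J J' i k z x y F F') (e : x ≤ x') (e' : y ≤ y') :
    G.Yh A n d b b' J J' i k z x' y' F F' := by
  have h := X.ok
  have b0 := h.b0 k
  have Q0 := h.Q0 k
  have x0 := a.x0
  have y0 : 0 ≤ y := by
    have := (h.sz_nn a.e).1
    rwa [mul_nonneg_iff_of_pos_right b0, mul_nonneg_iff_of_pos_right x0] at this
  have c := X.yh_sum (α := Unit) (fun _ => 1) x0 (x0.trans_le e) y0 (fun _ => a) (by simpa)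
  simp only [Fintype.sum_unique, one_smul] at c
  have e2 : y * x' * G.bb k ≤ y' * x' * G.bb k := by have := c.x0; gcongr
  exact { c with e := h.sz_up c.e (by positivity) e2 e2 }

theorem yh_zero (x0 : 0 < x) (y0 : 0 ≤ y) : G.Yh A n d b b' J J' i k z x y 0 0 := by
  simpa using X.yh_sum (α := Empty) (d := d) (z := z) (F := fun _ => 0) (F' := fun _ => 0)
    (fun _ => 0) x0 x0 y0 (·.elim) (by simpa using x0.le)

end Xh

end Pool.Agent.Lib.MP_7f377f_mp.RG.Q4.En.Gl
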