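import Pool.Agent.Lib.MP_7f377f_mp.G.KzK4
import Pool.Agent.Lib.MP_7f377f_mp.G.KsE
import Pool.Agent.Lib.MP_7f377f_mp.G.KsH
import Pool.Agent.Lib.MP_7f377f_mp.G.KyU

/-! The sign of the matched letters. -/

noncomputable section

set_option linter.unusedSectionVars false
variable [Pool.Agent.Lib.MP_7f377f_mp.GD]

namespace Pool.Agent.Lib.MP_7f377f_mp.RG.Q4.En.Gl

open Finset Real Filter Tl Kz
open Zg (V0 Og)

variable {G : Gl} {β : ℕ × ℕ → ℝ} {s : ℕ} (𝒜 : Set CM) [Og 𝒜] [Adj 𝒜]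

theorem Ok.po_num (h : G.Ok) (C w : ℕ) {C' : ℕ} (hC : 1 ≤ C') (c : ℝ) : ∀ᶠ k in atTop, ∀ J,
    G.Sh C' k J → ∀ o ≤ k + w, c * (G.Yr 4 C o ^ 3 * G.Pw 4 C k (k + w)) ≤ √(G.L k) := by
  filter_upwards [h.sh_pw C' 4 C 16 0 hC, h.sh_far C' w, h.L_top.eventually_ge_atTop (c ^ 4)]
    with k a1 a2 a3 J S o ho
  obtain ⟨b1, -, -, b2⟩ := a1 J S k le_rfl S.lt.le
  have j := a2 J S
  have p1 := h.Pw1 4 C
  have y1 := h.Yr1 4 C o
  have b3 : G.Pw 4 C k (k + w) ^ 16 ≤ G.L k := le_trans (pow_le_pow_left₀ (by linarith [p1 k (k + w)])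
    (Pw_mul (Nat.le_add_right k w) j ▸ le_mul_of_one_le_right (by linarith [p1 k (k + w)])
      (p1 ..)) _) b1
  have b4 : G.Yr 4 C o ^ 16 ≤ G.L k := le_trans (pow_le_pow_left₀ (zero_le_one.trans y1)
    (pow_le_pow_left₀ (by linarith [h.Xr1 C o]) (h.Xrm C (ho.trans j)) _) _) b2
  refine le_of_pow_le_pow_left₀ (n := 16) (by norm_num) (sqrt_nonneg _) ?_
  calc _ = (c ^ 4) ^ 4 * ((G.Yr 4 C o ^ 16) ^ 3 * G.Pw 4 C k (k + w) ^ 16) := by ring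
    _ ≤ (G.L k : ℝ) ^ 4 * ((G.L k : ℝ) ^ 3 * G.L k) := by
      have := p1 k (k + w)
      gcongr
    _ = (√(G.L k) ^ 2) ^ 8 := by rw [sq_sqrt (Nat.cast_nonneg _)]; ring
    _ = _ := by ring

theorem Oks.po_ev (o : G.Oks) (q : G.HP Sd.StA) (tu : G.Tus β) : ∀ᶠ C in atTop, 4 ≤ s →
    ∀ C' ≥ 1, ∀ (M : ℝ) (w : ℕ), ∀ᶠ k in atTop, ∀ A n R c N e δ K v J J', G.Sh C' k J → J ≤ J' →
      (G.kd β s C A n R c N w e M δ K v J J' k).Ok 𝒜 → ∀ u ∈ Vp 𝒜 4, ‖u - Zg.l0 𝒜‖ ≤ 2 / G.L k →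
        (G.wm v).Po 𝒜 s C (β (v, J')) J' (k + w) (√(G.L k))⁻¹
          ((G.kd β s C A n R c N w e M δ K v J J' k).N 𝒜 0 u) := by
  refine eventually_imp_distrib_left.2 fun hs => (o.pv_top (𝒜 := 𝒜) q tu (s := s) (by omega)).mono
    fun C ⟨κ, k0, pv⟩ C' hC M w => ?_
  have h := (o 0).1
  have k1 := lt_min k0 one_pos
  filter_upwards [pv, h.po_num C w hC ((16 * |M| + 48) / min κ 1)]
    with k a1 a2 A n R c N e δ K v J J' S hJ H u hu e1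
  have l1 : (1000 : ℝ) ≤ G.L k := h.L1 k
  have m := le_abs_self M
  have m0 := abs_nonneg M
  have p1 := h.Pw1 4 C k (k + w)
  have s1 : √(G.L k : ℝ) ≤ G.L k := sqrt_le_iff.2 ⟨by linarith, by nlinarith⟩
  have a (o) (ho : o ≤ k + w) {x y z : ℝ} (hx : x ≤ 16 * |M| + 48) (y0 : 0 ≤ y)
      (hy : y ≤ (G.wm 0).Yr 4 C o ^ 3) (hz : √(G.L k : ℝ) ≤ z) :
      x * y * (G.wm 0).Pw 4 C k (k + w) ≤ min κ 1 * z := by
    have := a2 J (S.wm 0) o ho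
    rw [div_mul_eq_mul_div, div_le_iff₀' k1] at this
    refine le_trans ?_ (this.trans (mul_le_mul_of_nonneg_left hz k1.le))
    rw [mul_assoc]
    gcongr
  have y1 := h.Yr1 4 C
  refine Pv.mono (H.po hs hu k1.le (min_le_right ..) ((a1 J J' v ((le_self_pow₀ (one_rt ..)
    (by omega)).trans S.lo) hJ k le_rfl S.lt u hu e1).mono (min_le_left ..))
    (fun o h1 h2 => a o h2.le (by dsimp only; linarith) (zero_le_one.trans (one_le_pow₀ (y1 o)))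
      le_rfl (s1.trans (Nat.cast_le.2 (h.L_mono h1))))
    (a _ le_rfl (by dsimp only; linarith) (zero_le_one.trans (one_le_pow₀ (h.Xr1 ..)))
      (le_trans (pow_le_pow_right₀ (h.Xr1 ..) (by norm_num)) (le_self_pow₀ (y1 _) three_ne_zero))
      (s1.trans (le_self_pow₀ (by linarith) two_ne_zero)))) ?_
  have := a k (Nat.le_add_right ..) (x := 4) (by linarith) zero_le_one (one_le_pow₀ (y1 k)) le_rfl
  have s0 : 0 < √(G.L k : ℝ) := sqrt_pos.2 (by linarith)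
  change _ ≤ _ / (G.wm 0).Pw 4 C k (k + w) / 4
  rw [div_div, le_div_iff₀ (by positivity), inv_mul_le_iff₀ s0]
  linarith

end Pool.Agent.Lib.MP_7f377f_mp.RG.Q4.En.Gl
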