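import Pool.Agent.Lib.MP_7f377f_mp.G.KyW

/-! Common shifts and letters at a lower level. -/

noncomputable section

set_option linter.unusedSectionVars false
variable [Pool.Agent.Lib.MP_7f377f_mp.GD]

namespace Pool.Agent.Lib.MP_7f377f_mp.RG.Q4.En.Gl

open MeasureTheory Filter Topology YM7 L6 RG.Tl Wy Kz
open Wu (Z4)
open Zg (V0 Og)

variable {G : Gl} {β : ℕ × ℕ → ℝ} {s : ℕ}

/-- a common shift by blocks which makes two tracks good down to the level `o` -/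
theorem Ok.ex_sh (h : G.Ok) {o k J : ℕ} (ho : o ≤ k) (hk : k ≤ J) {x : Z4} (hx : x ∈ G.Gs J k)
    (z : Z4) : ∃ v : Z4, x + (G.rt J k : ℤ) • v ∈ G.Gs J o ∧
      (G.rt J k : ℤ) • (z + v) ∈ G.Gs J o ∧ (G.rt J k : ℤ) • (z + v) ∈ box (G.rt J o) := by
  obtain ⟨w, hw⟩ := h.ex_shift (r := G.dm) (fun j => by
    have := (Nat.mul_le_mul_right (G.l j / G.rn j) (le_trans (by norm_num) (h.rn9 j) : 2 ≤ _)).trans
      (Nat.mul_div_le _ _)
    rw [dm, Nat.sub_sub_self (Nat.div_le_self _ _), Fintype.card_fin]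
    unfold L LL
    omega) ![G.tk x J k, z] o ho
  have key : ∀ y ∈ G.Gs J k, ∀ v, G.Dg G.dm (G.tk (G.tk y J k + v) k) o k →
      y + (G.rt J k : ℤ) • v ∈ G.Gs J o := fun y hy v e => (h.dg_add hy v).trans fun m a b => by
    have t := h.tk_add (x := y) (k := k) v k hk le_rfl
    rw [rt_top, Nat.cast_one, one_smul] at t
    rw [← tk_tk hk m b.le, ← tk_tk hk _ b, t]
    exact e m a b
  refine ⟨w + (G.rt k o : ℤ) • -G.tk (z + w) k o, key x hx _ (add_assoc _ w _ ▸ h.dg_add (hw 0) _),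
    ?_, Op.mem_box.2 fun μ => ?_⟩
  · have := key 0 gs_zero (z + (w + (G.rt k o : ℤ) • -G.tk (z + w) k o)) (by
      rw [tk_zero le_rfl tk_top k hk, zero_add, ← add_assoc]
      exact h.dg_add (hw 1) _)
    rwa [zero_add] at this
  · have a := Op.mem_box.1 (h.tk_sub (z + w) o ho) μ
    have b := rt_half (G := G) k o
    have p := Int.natCast_nonneg (G.rt J k)
    rw [← add_assoc, smul_neg, ← sub_eq_add_neg, h.rt_rt ho hk, Pi.smul_apply, smul_eq_mul,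
      Nat.cast_mul]
    constructor
    · rw [← mul_neg]
      exact mul_le_mul_of_nonneg_left (by omega) p
    · exact mul_le_mul_of_nonneg_left (by omega) p

theorem Oks.kv2 (o : G.Oks) (q : G.HP Sd.StA) (tu : G.Tus β) (𝒜 : Set CM) [Og 𝒜] [Adj 𝒜]
    (hs : 2 ≤ s) : ∃ R₀, ∃ δ₀ > (0 : ℝ), ∀ᶠ C in atTop, ∀ᶠ C' in atTop, ∃ c : ℕ, ∀ R ≥ R₀, ∀ w,
      ∀ᶠ k in atTop, ∀ J, G.Sh C' k J → ∀ v l M δ K n, l ≤ k → k ≤ l + w → δ ≤ δ₀ →
        (3 * C' + 2) * s + 1 ≤ n → (G.wm v).Fw 𝒜 s C M R δ K (β (v, J)) J l → ∀ x ∈ G.Gs J l,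
          ∀ e ∈ Vp 𝒜 s, ∃ Y,
            (G.wm v).Kv 𝒜 s C s R δ (β (v, J)) J l n x (G.L k ^ c * ‖e‖) e Y := by
  obtain ⟨R1, δ₀, d0, K', K1, top, lc⟩ := ex_topq 𝒜 s
  obtain ⟨R2, nul⟩ := ex_nul (𝒜 := 𝒜) s
  have h := (o 0).1
  refine ⟨max R1 R2, δ₀, d0, (o.k5 q tu 𝒜 hs).mono fun C a => a.mono fun C' ⟨c, H⟩ =>
    ⟨c, fun R hR w => ?_⟩⟩
  filter_upwards [H w, h.sh_ka (s + 1) C C', h.L_top.eventually_ge_atTop (2 * R + 2 : ℕ),
    h.L_top.eventually_ge_atTop (K' * Fintype.card (Bq 𝒜 s))]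
    with k a1 a2 a3 a4 J S v l M δ K n e3 e4 e1 e2 W x hx e he
  have g := (o v).1
  have r1 := one_rt (G := G) J l
  have l1 := (h.L_rt S.lt).2
  have l2 : (G.rt J k : ℝ) ≤ G.rt J l := by
    rw [show G.rt J l = _ from h.rt_rt e3 S.lt.le, Nat.cast_mul]
    exact le_mul_of_one_le_right (Nat.cast_nonneg _) (one_rt k l)
  obtain ⟨t, a⟩ := a1 J S v l (by omega) e4 x hx s (by omega) le_rfl e he
  refine ⟨_, a.kv he W hx (by omega) (Nat.le_add_right ..) (by linarith)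
    (fun p => ⟨(top p).1, (top p).2.mono (le_of_max_le_left hR) e1 le_rfl⟩) (fun m hm => ?_) ?_
    (by positivity) le_rfl⟩
  · have c := (lc ((G.wm v).ka (s + 1) C J) m).mono (le_of_max_le_left hR)
    have := le_of_max_le_right hR
    have : 2 * R + 2 ≤ (G.wm v).N J := (Nat.cast_le.1 (a3.trans l1)).trans
      (g.rt_N S.lt.le ▸ Nat.le_mul_of_pos_right _ (g.N_odd k).pos)
    exact ⟨c.1, c.2, (nl_of_nul (nul _ _ m hm) (g.N_odd J) (by omega) _).mono (by omega)⟩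
  · have k0 := h.ka0 (s + 1) C J
    rw [div_eq_mul_inv, ← inv_pow, mul_assoc, ← mul_pow]
    calc _ ≤ G.rt J l * (G.rt J l * (G.rt J l : ℝ) ^ (3 * C' + 1)) ^ s :=
          mul_le_mul ((a4.trans l1).trans l2) (pow_le_pow_left₀ (by positivity)
            (mul_le_mul_of_nonneg_left ((a2 J (S.wm 0)).trans
              (pow_le_pow_left₀ (Nat.cast_nonneg _) l2 _)) (by positivity)) _)
            (by positivity) (by positivity)
      _ = (G.rt J l : ℝ) ^ ((3 * C' + 2) * s + 1) := by ring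
      _ ≤ _ := pow_le_pow_right₀ r1 e2

end Pool.Agent.Lib.MP_7f377f_mp.RG.Q4.En.Gl
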