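import Pool.Agent.Lib.MP_7f377f_mp.G.KzS4
import Pool.Agent.Lib.MP_7f377f_mp.G.KzS5
import Pool.Agent.Lib.MP_7f377f_mp.G.KwS
import Pool.Agent.Lib.MP_7f377f_mp.G.KzK6

/-! The pairings with probes at the sites of a long lattice. -/

noncomputable section

set_option linter.unusedSectionVars false
variable [Pool.Agent.Lib.MP_7f377f_mp.GD]

namespace Pool.Agent.Lib.MP_7f377f_mp.RG.Q4.En.Gl

open Finset Real Filter Tl Kz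
open Zg (V0 Og)

attribute [local irreducible] box

variable {G : Gl} {𝒜 : Set CM} [Og 𝒜] [Adj 𝒜] {s C A n R R' C0 j o k J J' N : ℕ}
  {b M δ δ' K K' M0 Λ y T T' η B : ℝ} {ν : Fin N → ℕ} {P : Fin N → Pl} {x z : St} {e f : V0 𝒜}

theorem gs_tk (hx : x ∈ G.Gs J' o) (hJ : J ≤ J') : G.tk x J' J ∈ G.Gs J o :=
  dg_tk.2 fun m a b => by rw [tk_tk hJ _ b]; exact (hx m a (b.trans_le hJ)).2

theorem Ok.tk_rt (h : G.Ok) (hk : k ≤ J) (hJ : J ≤ J') (z : St) :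
    G.tk ((G.rt J' k : ℤ) • z) J' J = (G.rt J k : ℤ) • z := by
  simpa [tk_zero le_rfl tk_top _ hJ] using h.tk_add (x := 0) z J hJ hk

/-- the distances in units of the level `k - w` -/
theorem Ok.geo4 (h : G.Ok) (j w : ℕ) : ∀ᶠ k in atTop, j + w < k ∧
    (G.L k : ℝ) ^ w ≤ G.L k * G.rt k (k - w) ∧ (G.rt k (k - w) : ℝ) ≤ G.L k ^ w ∧ ∀ J' ≥ k,
      ((22 * (G.L (k - w) * G.sJ J' (k - w)) : ℕ) : ℝ) ≤ (G.L k : ℝ) ^ (w + G.K0 + 2) * G.rt J' k ∧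
      2 * (G.L k : ℝ) ^ (w + G.K0 + 2) * G.rt J' k + G.rt J' (k - w) ≤ G.rt J' j ∧
      (G.rt J' (k - w) : ℝ) ≤ (G.L k : ℝ) ^ (w + G.K0 + 2) * G.rt J' k ∧
      2 * (G.L k : ℝ) ^ (w + G.K0 + 2) * G.rt J' k ≤ G.L k ^ (G.K0 + 4) * G.rt J' (k - w) := by
  filter_upwards [h.two_ev (j + w) (w + G.K0 + 2) 3, h.ev_L ((3 ^ w) ^ w)] with k ⟨a1, a2⟩ a3
  have L := h.L1 k
  have w1 : k - (k - w) = w := by omega
  have b1 : (G.L (k - w) : ℝ) ≤ G.L k := Nat.cast_le.2 (h.L_mono (k.sub_le w))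
  have b2 : (G.rt k (k - w) : ℝ) ≤ G.L k ^ w := by exact_mod_cast w1 ▸ h.rt_le _ (k.sub_le w)
  have b3 : (G.L k : ℝ) ^ w ≤ G.L k * G.rt k (k - w) := by
    have c1 : (G.L k : ℝ) ≤ 3 ^ w * G.L (k - w) := by exact_mod_cast w1 ▸ h.L_le (k.sub_le w)
    have c2 : (G.L (k - w) : ℝ) ^ w ≤ G.rt k (k - w) := by
      exact_mod_cast w1 ▸ h.le_rt _ (k.sub_le w)
    exact (pow_le_pow_left₀ (by positivity) c1 w).trans (by rw [mul_pow]; gcongr)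
  refine ⟨a1, b3, b2, fun J' hJ => ?_⟩
  have r := one_rt (G := G) J' k
  have e : ∀ i ≤ k, (G.rt J' i : ℝ) = G.rt k i * G.rt J' k := fun i e => by
    rw [h.rt_rt e hJ, Nat.cast_mul, mul_comm]
  have p : (G.L k : ℝ) ^ w ≤ G.L k ^ (w + G.K0 + 2) := pow_le_pow_right₀ (by linarith) (by omega)
  have b4 := a2.trans ((pow_le_pow_right₀ one_le_two (by omega)).trans
    (h.two_rt (show j ≤ k by omega)))
  rw [sJ, Nat.cast_mul, Nat.cast_mul, Nat.cast_mul, Nat.cast_pow, e _ (k.sub_le w), e j (by omega),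
    ← add_mul, ← mul_assoc, ← mul_assoc, ← mul_assoc, ← mul_assoc]
  refine ⟨?_, by gcongr; linarith, by gcongr; linarith, ?_⟩ <;> gcongr ?_ * _
  · calc _ ≤ (G.L k : ℝ) * G.L k * G.L k ^ G.K0 * G.L k ^ w := by
          gcongr ?_ * ?_ * ?_ ^ _ * ?_
          exact le_trans (by norm_num) L
      _ = _ := by ring
  · calc _ = 2 * G.L k ^ (G.K0 + 2) * (G.L k : ℝ) ^ w := by ring
      _ ≤ G.L k * G.L k ^ (G.K0 + 2) * (G.L k * G.rt k (k - w)) := by gcongr; linarith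
      _ = _ := by ring

variable [NeZero (G.N J)] (Z : G.Pzs 𝒜 s C A n R R' C0 j o k J b M δ δ' K K' M0 Λ ν P) (hJ : J ≤ J')
  (hx : x ∈ G.Gs J' k) (ds : Ds T T' x ((G.rt J' k : ℤ) • z))
  (far : ((22 * (G.L o * G.sJ J' o) : ℕ) : ℝ) ≤ T) (near : T' + G.rt J' o ≤ G.rt J' j)
  (he : e ∈ Vp 𝒜 s)
include Z hJ hx ds far near he

theorem Pzs.long (hf : f ∈ Vp 𝒜 s)
    (hy : ∀ Q ∈ G.prS (s + 1) C (k + 1) ν P, |Kz.cL (Fi.tr haar) b (G.N J)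
      ![G.zL 𝒜 b J o e, G.pO R J (k + 1) Q] ![G.tk x J' J, (G.rt J k : ℤ) • z]| ≤ y) (y0 : 0 ≤ y) :
    |Kz.cL (Fi.tr haar) b (G.N J) ![G.zL 𝒜 b J o e, G.zL 𝒜 b J o f]
      ![G.tk x J' J, (G.rt J k : ℤ) • z]| ≤
      (Λ ^ 8 / G.rt (k + 1) o + G.kD j 2 * Λ ^ 12 * (G.rt (k + 1) o : ℝ) ^ s / 2 ^ (o - j)) *
        ‖e‖ * ‖f‖ + 3 * Λ ^ 3 * (G.rt (k + 1) o : ℝ) ^ s * ‖f‖ * y := by
  have h := Z.u.ok
  have kJ : k ≤ J := by have := Z.kJ; omega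
  obtain ⟨v, v1, v2, v3⟩ := h.ex_sh Z.ok (kJ.trans hJ) hx z
  have t : ∀ {F F' : L6.Fz → ℝ}, Weak.BM F → Weak.BM F' → Kz.cL (Fi.tr haar) b (G.N J) ![F, F']
      ![G.tk (x + (G.rt J' k : ℤ) • v) J' J, (G.rt J k : ℤ) • (z + v)] =
        Kz.cL (Fi.tr haar) b (G.N J) ![F, F'] ![G.tk x J' J, (G.rt J k : ℤ) • z] := fun a a' =>
    (congrArg _ (funext (Fin.forall_fin_two.2 ⟨h.tk_add v J hJ kJ, smul_add ..⟩))).trans
      (cL_tr b _ (Fin.forall_fin_two.2 ⟨a, a'⟩) _ ((G.rt J k : ℤ) • v))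
  have bm : ∀ e, Weak.BM (G.zL 𝒜 b J o e) := fun e => bm_co (lZ_cont _ _ e)
  have d : ∀ μ, (x + (G.rt J' k : ℤ) • v) μ - ((G.rt J' k : ℤ) • (z + v)) μ =
      x μ - ((G.rt J' k : ℤ) • z) μ := fun μ => by simp [mul_add]
  have r0 := (abs_nonneg _).trans (ds.2 0)
  have g := h.pta_short Z.jo.le (Z.ok.trans kJ) hJ (h.pta_long
    (z := ![x + (G.rt J' k : ℤ) • v, (G.rt J' k : ℤ) • (z + v)])
    (Z.jo.le.trans (Z.ok.trans (kJ.trans hJ))) (Fin.forall_fin_two.2 ⟨Op.mem_box.2 fun μ => by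
      have a := abs_le.2 (Op.mem_box.1 v3 μ)
      have c : |x μ - ((G.rt J' k : ℤ) • z) μ| + G.rt J' o ≤ G.rt J' j := by
        exact_mod_cast (add_le_add_left (ds.2 μ) _).trans near
      rw [← d] at c
      exact abs_le.1 (((congrArg _ (sub_add_cancel _ _).symm).trans_le (abs_add_le _ _)).trans
        ((add_le_add_right a _).trans c)), box_mono (Nat.cast_le.1 (by linarith : _ ≤ (_ : ℝ))) v3⟩)
    (by
      obtain ⟨μ, a⟩ := ds.1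
      have c : ((22 * (G.L o * G.sJ J' o) : ℕ) : ℤ) ≤ |x μ - ((G.rt J' k : ℤ) • z) μ| := by
        exact_mod_cast far.trans a
      rw [← d] at c
      simp only [Fin.forall_fin_two]
      exact ⟨⟨fun e => (e rfl).elim, fun _ => ⟨μ, c⟩⟩, fun _ => ⟨μ, c.trans_eq (abs_sub_comm ..)⟩,
        fun e => (e rfl).elim⟩))
  rw [← t (bm e) (bm f)]
  refine Z.main (gs_tk v1 hJ) (h.tk_rt kJ hJ _ ▸ gs_tk v2 hJ) ((congrArg _ (funext₂ fun g a => ?_)).mp g)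
    he hf (fun Q hQ => (congrArg _ (t (bm e) (h.po_bm Z.kJ.le))).trans_le (hy Q hQ)) y0
  rw [tk_gv g _ hJ]
  fin_cases a
  exacts [rfl, congrArg _ (h.tk_rt kJ hJ _)]

/-- the probes see all labels -/
theorem Pzs.fin {φ : V0 𝒜 →ₗ[ℝ] V0 𝒜 →ₗ[ℝ] ℝ} (B0 : 0 ≤ B) (η0 : 0 ≤ η)
    (h1 : ∀ e ∈ Vp 𝒜 s, ∀ f ∈ Vp 𝒜 s, |Kz.cL (Fi.tr haar) b (G.N J)
      ![G.zL 𝒜 b J o e, G.zL 𝒜 b J o f] ![G.tk x J' J, G.tk ((G.rt J' k : ℤ) • z) J' J] - φ e f| ≤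
        η * ‖e‖ * ‖f‖)
    (h2 : ∀ e ∈ Vp 𝒜 s, ∀ y, 0 ≤ y → (∀ f ∈ Vp 𝒜 s, |φ e f| ≤ y * ‖f‖) → ‖e‖ ≤ B * y)
    (sm : B * (η + (Λ ^ 8 / G.rt (k + 1) o +
      G.kD j 2 * Λ ^ 12 * (G.rt (k + 1) o : ℝ) ^ s / 2 ^ (o - j))) ≤ 1 / 2)
    (hy : ∀ Q ∈ G.prS (s + 1) C (k + 1) ν P, |Kz.cL (Fi.tr haar) b (G.N J)
      ![G.zL 𝒜 b J k e, G.pO R J (k + 1) Q] ![G.tk x J' J, (G.rt J k : ℤ) • z]| ≤ y) (y0 : 0 ≤ y) :
    ‖e‖ ≤ 6 * B * Λ ^ 3 * (G.rt (k + 1) o : ℝ) ^ s * (G.rt k o : ℝ) ^ s * y := by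
  have h := Z.u.ok
  have kJ : k ≤ J := by have := Z.kJ; omega
  have r1 := one_rt (G := G) k o
  have Λ1 := Z.Λ1
  have k0 : 0 ≤ G.kD j 2 := by have := kSl_nn (G := G) j 2; unfold kD cCe; positivity
  obtain ⟨e', h', rfl⟩ := (rs_Vp (𝒜 := 𝒜) (t := G.rt k o) (by positivity) s).2.2 he
  rw [← h.zL_rs b Z.ok kJ] at hy
  rw [h.tk_rt kJ hJ] at h1
  generalize he : Λ ^ 8 / G.rt (k + 1) o + _ = ε at sm
  have ε0 : 0 ≤ ε := he ▸ by positivity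
  have := h2 e' h' ((η + ε) * ‖e'‖ + 3 * Λ ^ 3 * (G.rt (k + 1) o : ℝ) ^ s * y) (by positivity)
    fun f hf => by
      have a := Z.long hJ hx ds far near h' hf hy y0
      have a' := h1 e' h' f hf
      rw [he] at a
      exact abs_le.2 ⟨by linarith [abs_le.1 a, abs_le.1 a'], by linarith [abs_le.1 a, abs_le.1 a']⟩
  refine (rs_le r1 h'.1).2.trans ?_
  rw [mul_right_comm, mul_comm]
  gcongr
  linarith [mul_le_mul_of_nonneg_right sm (norm_nonneg e')]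

end Pool.Agent.Lib.MP_7f377f_mp.RG.Q4.En.Gl
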