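import Pool.Agent.Lib.MP_7f377f_mp.G.KzS7
import Pool.Agent.Lib.MP_7f377f_mp.G.KzS8

/-! The probes see all labels. -/

noncomputable section

set_option linter.unusedSectionVars false
variable [Pool.Agent.Lib.MP_7f377f_mp.GD]

namespace Pool.Agent.Lib.MP_7f377f_mp.RG.Q4.En.Gl

open MeasureTheory Filter Topology YM7 L6 RG.Tl Wy Kz
open RG.Wd (B4)
open Wu (Z4)
open Zg (V0 Og)

variable {G : Gl} {β : ℕ × ℕ → ℝ} {s N R C0 : ℕ} {n : Fin N → ℕ} {P : Fin N → Pl} {δ K M0 : ℝ}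

/-- the probes see all labels -/
theorem Oks.p3 (o : G.Oks) (q : G.HP Sd.StA) (tu : G.Tus β) (𝒜 : Set CM) [Og 𝒜] [Adj 𝒜]
    (hs : 2 ≤ s) (pr : Prb s s n P R δ K M0 C0) : ∀ᶠ C in atTop, ∀ᶠ C' in atTop, ∀ᶠ c₂ in atTop,
      ∃ c : ℕ, ∀ᶠ k in atTop, ∀ J, G.Sh C' k J → ∀ p : ℕ × ℕ, J ≤ p.2 → ∀ x ∈ G.Gs p.2 k, ∀ z : Z4,
        Ds ((G.L k : ℝ) ^ c₂ * G.rt p.2 k) (2 * (G.L k : ℝ) ^ c₂ * G.rt p.2 k) x
          ((G.rt p.2 k : ℤ) • z) → ∀ e ∈ Vp 𝒜 s, ∀ y, 0 ≤ y →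
        (∀ Q ∈ G.prS (s + 1) C (k + 1) n P, |G.sgm 𝒜 β R p J k x Q z e| ≤ y) →
          ‖e‖ ≤ (G.L k : ℝ) ^ c * y := by
  have h := (o 0).1
  filter_upwards [o.pzs q tu 𝒜 hs pr] with C a
  filter_upwards [a, o.soft tu 𝒜 s] with C' ⟨a, j, Z⟩ sf
  obtain ⟨c, sf⟩ := sf (G.K0 + 4)
  filter_upwards [eventually_ge_atTop (8 * a + c + 1 + G.K0 + 2)] with c₂ hc
  obtain ⟨w, rfl⟩ : ∃ w, c₂ = w + G.K0 + 2 := ⟨c₂ - G.K0 - 2, by omega⟩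
  refine ⟨1 + c + a * 3 + (w + 1) * s + w * s, ?_⟩
  filter_upwards [Z w (by omega), sf (c + 1) w, h.geo4 j w,
    h.two_ev (j + w) (c + 1 + (a * 12 + (w + 1) * s)) |G.kD j 2|]
    with k Z sf ⟨g1, g2, g3, g4⟩ ⟨_, t⟩ J S p hJ x hx z ds e he y y0 hy
  obtain ⟨A, n', R', M, δ', K', Z⟩ := Z J S p.1
  obtain ⟨g4, g5, g6, g7⟩ := g4 p.2 (S.lt.le.trans hJ)
  obtain ⟨φ, f1, f2⟩ := sf J S p.1 p.2 (k - w) hJ (by omega) (by omega) _ _ (ds.mono g6 g7)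
  have L : (1000 : ℝ) ≤ G.L k := h.L1 k
  have r : (G.rt (k + 1) (k - w) : ℝ) = G.rt k (k - w) * G.L k := h.rt_upR (k.sub_le w)
  have r1 : (G.rt (k + 1) (k - w) : ℝ) ^ s ≤ G.L k ^ ((w + 1) * s) := by
    rw [r, pow_mul, pow_succ]
    gcongr
    exact g3
  refine (Z.fin hJ hx ds g4 g5 he (B := G.L k ^ c) (η := (G.L k ^ (c + 1) : ℝ)⁻¹) (by positivity)
    (by positivity) (fun e he f hf => (f1 e he f hf).1) (f2 s le_rfl) ?_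
    (fun Q hQ => o.sg_ap S.lt e ▸ hy Q hQ) y0).trans ?_
  · have a1 : ((G.L k : ℝ) ^ a) ^ 8 / G.rt (k + 1) (k - w) ≤ (G.L k ^ (c + 1) : ℝ)⁻¹ := by
      rw [div_le_iff₀ (by linarith [one_rt (G := G) (k + 1) (k - w)]), le_inv_mul_iff₀ (by positivity),
        ← pow_mul, ← pow_add, r]
      exact (pow_le_pow_right₀ (by linarith) (by omega)).trans (g2.trans_eq (mul_comm ..))
    have a2 : G.kD j 2 * ((G.L k : ℝ) ^ a) ^ 12 * (G.rt (k + 1) (k - w) : ℝ) ^ s / 2 ^ (k - w - j) ≤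
        (G.L k ^ (c + 1) : ℝ)⁻¹ := by
      rw [div_le_iff₀ (by positivity), le_inv_mul_iff₀ (by positivity), Nat.sub_sub, add_comm w]
      refine le_trans ?_ t
      change _ ≤ _ * (G.L k : ℝ) ^ _
      rw [pow_add _ (c + 1), pow_add _ (a * 12), ← pow_mul, mul_assoc, mul_left_comm]
      gcongr
      exact le_abs_self _
    refine (mul_le_mul_of_nonneg_left (add_le_add_right (add_le_add a1 a2) _) (by positivity)).trans ?_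
    rw [pow_succ]
    field_simp
    linarith
  · rw [pow_add, pow_add, pow_add, pow_add, pow_one, pow_mul _ w, pow_mul _ a]
    gcongr
    exacts [by linarith, r1, g3]

end Pool.Agent.Lib.MP_7f377f_mp.RG.Q4.En.Gl
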