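import Pool.Agent.Lib.MP_7f377f_mp.G.KzK8
import Pool.Agent.Lib.MP_7f377f_mp.G.KzK9
import Pool.Agent.Lib.MP_7f377f_mp.G.KzS3

/-! The charts exist. -/

noncomputable section

set_option linter.unusedSectionVars false
variable [Pool.Agent.Lib.MP_7f377f_mp.GD]

namespace Pool.Agent.Lib.MP_7f377f_mp.RG.Q4.En.Gl

open Finset Real Filter Tl Kz
open Zg (V0 Og)

variable {G : Gl} {β : ℕ × ℕ → ℝ} (𝒜 : Set CM) [Og 𝒜] [Adj 𝒜]

theorem Oks.chartsP (o : G.Oks) (q : G.HP Sd.StA) (tu : G.Tus β) : G.ChartsP 𝒜 β := by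
  intro s hs
  have h := (o 0).1
  obtain ⟨N0, nn, Pp, Rp, dp, Kp, M0, C0, pr⟩ := ex_prb hs (show s ≤ s + 2 by omega)
  filter_upwards [o.kd 𝒜 q tu hs 0, o.p3 q tu 𝒜 hs pr, o.po_ev 𝒜 (s := s) q tu]
    with C ⟨R, _, a1⟩ a2 a3 m hm
  obtain ⟨δ, -, K, a1⟩ := a1 1 one_pos
  obtain ⟨M, a1⟩ := a1.exists
  obtain ⟨C', ⟨c, a1⟩, a2, a4, C3⟩ := (a1.and (a2.and ((o.gaussEv tu 𝒜 s m).and
    (eventually_ge_atTop 3)))).exists
  obtain ⟨c2, ⟨c1, a2⟩, h2⟩ := (a2.and (eventually_ge_atTop (G.K0 + 2))).exists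
  refine ⟨C', C3, c1 + (G.K0 + 2), fun N W => ?_⟩
  obtain ⟨j, n0, X, ε', a5⟩ := o.ok2 (β := β) 𝒜 pr hm C (3 * (C' + 1) * s + 11)
    (3 * (C' + 1) * s + 10) R c M δ K (Nat.le_add_left _ c1) h2 N W
  obtain ⟨N1, a5⟩ := a5.exists
  obtain ⟨e, a1, he⟩ := ((a1 N1 _ _ (2 * N1 + 1) le_rfl (Nat.lt_succ_self _)
    (Nat.lt_succ_self _)).and (eventually_ge_atTop N1)).exists
  obtain ⟨X', a5⟩ := a5 (2 * N1 + 1) e he
  obtain ⟨c3, a6⟩ := h.ow_ev (β := β) 𝒜 s c (2 * N1 + 1)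
  refine ⟨c3, 2 * N1 + 1, ?_⟩
  filter_upwards [a1, a2, a4 (N + 1) W 0, a5, a6, (show ∀ᶠ k in atTop, 4 ≤ s → _ from
    eventually_imp_distrib_left.2 fun s4 => a3 s4 C' (by omega) M (2 * N1 + 1))]
    with k b1 b2 b4 b5 b6 b3 J' ⟨J, hJ, S⟩
  have L : (1000 : ℝ) ≤ G.L k := h.L1 k
  have r := one_rt (G := G) J' k
  refine .of_forall fun v => ?_
  have H := b1 J J' (3 ^ v / 2) S hJ
  have H2 := b5 J J' _ H (fun i hi x u hu d => (b4 J S _ J' k hJ le_rfl le_rfl i hi x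
    u hu fun a a' ne => ⟨(d a a' ne).1.imp fun _ => le_trans (le_mul_of_one_le_left (by positivity)
      (one_le_pow₀ (by linarith))), (d a a' ne).2⟩).trans (mul_le_mul_of_nonneg_right (by
        rw [pow_succ, mul_inv, div_eq_mul_inv]
        gcongr
        linarith) (prod_nonneg fun _ _ => norm_nonneg _)))
    fun x hx z d u hu y y0 a => (b2 J S (_, J') hJ x hx z d u hu y y0 a).trans (by
      gcongr
      exacts [by linarith, Nat.le_add_right _ _])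
  exact ⟨_, _, _, _, _, _, _, _, H2.cz, fun x hx d hd u hu => (H.own hx hd hu).mono
    (mul_le_mul_of_nonneg_right (b6 0 0 0 0 0 0 0 0 0 0 0 0) (norm_nonneg _)),
    fun s4 => b3 s4 _ _ _ _ _ _ _ _ _ J J' S hJ H⟩

end Pool.Agent.Lib.MP_7f377f_mp.RG.Q4.En.Gl
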