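import Pool.Agent.Lib.MP_7f377f_mp.G.KzH1

/-! True centred moments of matched observables of two runs. -/

noncomputable section

set_option linter.unusedSectionVars false
variable [Pool.Agent.Lib.MP_7f377f_mp.GD]

namespace Pool.Agent.Lib.MP_7f377f_mp.RG.Q4.En

open Finset Function Real Sg YM7 MeasureTheory Kz Mg
open Wd (B4)
open L6 (Fz)
open scoped Classical

attribute [local irreducible] box lbox tb tau rc

variable {ι : Type} [Fintype ι] [DecidableEq ι]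

theorem cL_const (b : ℝ) (n : ℕ) [NeZero n] {T : ι → Fz → ℝ} (m : ∀ q, Weak.BM (T q)) (a : ι → ℝ)
    (x : ι → St) : cL (Fi.tr haar) b n (fun q U => T q U - a q) x = cL (Fi.tr haar) b n T x := by
  have e : ∀ q, Wy.er (Fi.tr haar) b n (fun U => T q U - a q) = Wy.er (Fi.tr haar) b n (T q) - a q :=
    fun q => (Wy.er_sub (m q) (.const _)).trans (by simp [Wy.er])
  simp only [cL, Kz.ct, e, sub_sub_sub_cancel_right]

theorem bm_cL (b : ℝ) (n : ℕ) [NeZero n] {T : ι → Fz → ℝ} (m : ∀ q, Weak.BM (T q)) (x : ι → St) :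
    Weak.BM fun U => ∏ q, Kz.ct (Fi.tr haar) b n (T q) (Wy.tz (x q) U) :=
  .prod _ fun q => (Wy.bm_sub (m q) (.const _)).comp (Wy.meas_tz _)

theorem er_pbm (b : ℝ) (n : ℕ) [NeZero n] (g : B4) : ∀ {F : Fz → ℝ}, Weak.BM F →
    Wy.er (Fi.tr haar) b n (fun U => F (Wd.pb Inv.inv g U)) = Wy.er (Fi.tr haar) b n F := by
  refine Wd.B4_ind (P := fun g => ∀ {F : Fz → ℝ}, Weak.BM F →
    Wy.er (Fi.tr haar) b n (fun U => F (Wd.pb Inv.inv g U)) = Wy.er (Fi.tr haar) b n F)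
    (fun σ F e => (Wy.bm_lf e).mp (mp_prm _ b σ)) (fun μ F e => ?_) (fun g k a c F e => ?_) g
  · simp only [pb_rf]
    exact Wy.er_rz e μ
  · simp only [Wd.pb_mul inv_inv]
    exact (a (F := fun U => F (Wd.pb Inv.inv k U))
      (e.comp (Wd.cont_pb k).measurable)).trans (c e)

theorem cL_tr (b : ℝ) (n : ℕ) [NeZero n] {T : ι → Fz → ℝ} (m : ∀ q, Weak.BM (T q)) (x : ι → St)
    (v : St) : cL (Fi.tr haar) b n T (fun q => x q + v) = cL (Fi.tr haar) b n T x := by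
  simp only [cL, add_comm _ v, ← Wy.tz_tz]
  exact Wy.er_tz (bm_cL b n m x) v

theorem cL_cov (b : ℝ) (n : ℕ) [NeZero n] {T T' : ι → Fz → ℝ} (m : ∀ q, Weak.BM (T q)) (x : ι → St)
    (g : B4) (e : ∀ q U, Per n U → T' q U = T q (Wd.pb Inv.inv g U)) :
    cL (Fi.tr haar) b n T' (fun q => Wd.gv g (x q)) = cL (Fi.tr haar) b n T x := by
  have a : ∀ q, Wy.er (Fi.tr haar) b n (T' q) = Wy.er (Fi.tr haar) b n (T q) := fun q =>
    (congrArg _ (funext fun U => e q _ (per_lf U))).trans (er_pbm b n g (m q))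
  rw [cL, cL, ← er_pbm b n g (bm_cL b n m x)]
  refine congrArg (integral _) (funext fun U => prod_congr rfl fun q _ => ?_)
  rw [Kz.ct, Kz.ct, a, tz_pb, e q _ (tz_sh (Wd.gv g (x q)) (L6.lf U) ▸ per_sh' (per_lf U) _)]

section nul

variable {b : ℝ} {n R R' : ℕ} [NeZero n] {N : Fz → ℝ}

theorem Nuq.mono (a : Nuq b n R N) (e : R ≤ R') : Nuq b n R' N :=
  ⟨a.1, a.2.1.mono fun _ hl i => (hl i).trans (Nat.cast_le.2 e), a.2.2.mono e⟩

theorem Nuq.smul (a : Nuq b n R N) (c : ℝ) : Nuq b n R fun U => c * N U :=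
  ⟨continuous_const.mul a.1, fun _ _ e => congrArg _ (a.2.1 e), a.2.2.smul c⟩

theorem Nuq.sum {N : ι → Fz → ℝ} (a : ∀ q, Nuq b n R (N q)) (c : ι → ℝ) :
    Nuq b n R fun U => ∑ q, c q * N q U :=
  ⟨continuous_finsetSum _ fun q _ => ((a q).smul _).1,
    fun _ _ e => sum_congr rfl fun q _ => ((a q).smul _).2.1 e,
    .sum fun q _ => ⟨((a q).smul _).2.2, ((a q).smul _).1⟩⟩

end nul

namespace Gl

variable (G : Gl)

/-- up to a constant and a null letter the image under `g` of the observable `T` at the site `x` is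
the slot `S`, which has the weight `w` -/
def Rq (A n d D R : ℕ) (b : ℝ) (J k : ℕ) [NeZero (G.N J)] (w : ℝ) (T : Fz → ℝ) (x : St) (a : ℝ)
    (g : B4) (S : Slq) : Prop := G.Sok A d D R b J (k + 1) k (G.rH n k w) S ∧
  ∃ N, Nuq b (G.N J) (10 * (G.L k * G.sJ J k)) N ∧ ∀ U, Per (G.N J) U →
    ((T (Wy.tz x (Wd.pb Inv.inv g U)) - a : ℝ) : ℂ) = G.sqO R J (k + 1) S U + N (sh S.x U)

/-- the observables `T` and `T'` of the two runs are matched on the track of `z`; `x` is their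
weight and `w` the weight of all their images -/
def Dh (A n d D R : ℕ) (b b' : ℝ) (J J' i k : ℕ) [NeZero (G.N J)] [NeZero (G.N J')] (z : St)
    (x w η : ℝ) (T T' : Fz → ℝ) : Prop := Weak.BM T ∧ Weak.BM T' ∧
  ∃ (Y Y' P : B4 → Lq) (a a' : ℝ), (∀ g,
    G.Rq A n d D R b J k w T (G.tk z J' J) a g ⟨G.tk (Wd.gv g z) J' J, Y g, P g⟩ ∧
    G.Rq A n d D R b' J' k w T' z a' g ⟨Wd.gv g z, Y' g, P g⟩) ∧
    G.Yh A n d b b' J J' i k z x η (G.jx J (G.tk z J' J) (Y 1)) (G.jx J' z (Y' 1)) ∧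
    G.Zh A (k + 1) (G.tk z J' (k + 1)) x (G.qh R (k + 1) (G.tk z J' (k + 1)) (P 1))
      (G.ql D (k + 1) (G.tk z J' (k + 1)) (P 1))

/-- the constant of the leak -/
def kD (j c : ℕ) : ℝ := 2 * cCe c 1 (exp (c * G.Q j) * G.kSl j c) + 2 * cCe c 1 (exp (c * G.Q j))

variable {G} {A n d D R c J J' i j k l n0 W : ℕ} {τ b b' η ε : ℝ}

theorem tk_gv (g : B4) (x : St) (hk : k ≤ J) : G.tk (Wd.gv g x) J k = Wd.gv g (G.tk x J k) :=
  tk_map (fun l y => funext fun i => by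
    simp only [Wd.gv, Wd.cd, yo]
    split_ifs
    exacts [rfl, congrFun (yo_neg l y) _]) k hk

/-- letters -/
theorem Sru.rq [NeZero (G.N J)] (u : G.Sru A d b J (k + 1) k) (hn : n + 1 ≤ A) {x w a : ℝ}
    {z s : St} {Y : Lq} {T N : Fz → ℝ} {g : B4} (x0 : 0 < x) (e : x ≤ w)
    (o : G.RxA (A + 1) b J k d (G.rH n k x) (G.jx J s Y)) (re : ∀ U, (Y.1 U).im = 0)
    (hN : Nuq b (G.N J) W N) (hW : W ≤ G.rt J k) (hs : s = Wd.gv g z)
    (eq : ∀ U, T (Wd.pb Inv.inv g U) - a = (Y.1 U).re + N U) :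
    G.Rq A n d D R b J k w T z a g ⟨s, Y, 0⟩ := by
  refine ⟨u.sok_letter hn x0 o re e, N, hN.mono (hW.trans ?_), fun U _ => ?_⟩
  · have := Nat.mul_le_mul (u.ok.L_big k) (Nat.mul_le_mul_right (G.rt J k)
      (pow_pos (show 0 < G.L k by linarith [u.ok.L_big k]) G.K0))
    rw [sJ]
    omega
  · rw [tz_pb, eq, ← hs, tz_sh, Complex.ofReal_add,
      Complex.conj_eq_iff_re.1 (Complex.conj_eq_iff_im.2 (re _)), sqO]
    simp only [Prod.fst_zero, Pi.zero_apply, mul_zero, u.ok.ta_zero u.iJ, add_zero]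
    rfl

/-- true and reference moments -/
theorem Fms.red [NeZero (G.N J)] {r : ℕ → ι → ℝ} {S : B4 → ι → Slq} {T : ι → Fz → ℝ} {x : ι → St}
    (F : G.Fms A d D R b J i l j r S T x) :
    ‖(-1) ^ Fintype.card ι * (cL (Fi.tr haar) b (G.N J) T x : ℂ) - cmo (G.sqM R b J i j (S 1))‖ ≤
      (cCe (Fintype.card ι) 1 (exp (Fintype.card ι * G.Q j) * G.kSl j (Fintype.card ι)) +
        cCe (Fintype.card ι) 1 (exp (Fintype.card ι * G.Q j))) *
        ((2 ^ (l - j))⁻¹ * ∏ q, (r l q / G.Q l ^ 50)⁻¹) := by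
  have u := F.run
  have := F.jl
  obtain ⟨a, e, c⟩ := u.ok.rd_slg u.t u.hp (u.li.trans u.iJ) F.jl.le (fun _ p => tt_hd
    (u.ok.hd_pq u.iJ (gi_sqX (F.ok 1)) (gi_sqC (F.ok 1)) p) u.li) (u.slg (F.ok 1) (F.gpt 1))
  simp only [tt_tt u.li j F.jl.le] at e
  change Rdm (G.sqM R b J i j (S 1)) _ _ _ at e
  have c' := fun B hB => (c B hB).trans_eq (one_mul _).symm
  rw [add_mul, ← sub_sub_sub_cancel_right _ _ (mtm a)]
  exact norm_sub_le_of_le (F.out e zero_le_one c') (Rdm.cen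
    (by simpa only [div_inv_eq_mul, mul_comm (_ / _)] using e) (by positivity)
    (inv_lt_one_of_one_lt₀ (one_lt_pow₀ one_lt_two (by omega))) zero_le_one c')

theorem Ok.pta_long (h : G.Ok) (hj : j ≤ J') {z : ι → St} (near : ∀ q, z q ∈ box (G.rt J' j))
    (far : ∀ q q', q ≠ q' → ∃ μ, (W : ℤ) ≤ |z q μ - z q' μ|) :
    Pta (G.N J') (G.rt J' j) W 0 fun g q => Wd.gv g (z q) := by
  refine ⟨fun g q => by rw [sub_zero]; exact Wd.gv_box g (near q), fun g q q' ne D e => ?_⟩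
  have a := Wd.gv_box g⁻¹ (near_box (R := G.rt J' j + G.rt J' j)
    (sub_mem_box (Wd.gv_box g (near q')) (Wd.gv_box g (near q))) (by
      have a1 := h.e_big j
      have a2 : 0 < G.L j ^ (G.K0 + 1) := pow_pos (by linarith [h.L_big j]) _
      have a3 : 0 < G.rt J' j := pow_pos three_pos _
      have a4 := Nat.mul_le_mul h.odd.pos (show 5 ≤ 3 ^ G.e j by omega)
      rw [← h.rt_N hj, Gl.N]
      nlinarith) e)
  rw [← Wd.gv_sub, Wd.gv_inv] at a
  obtain ⟨μ, c⟩ := far q q' ne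
  have := mem_box.1 a μ
  rw [abs_sub_comm] at c
  exact_mod_cast c.trans (abs_le.2 this)

theorem Ok.pta_short (h : G.Ok) (hj : j ≤ k) (hk : k ≤ J) (hJ : J ≤ J') {y : B4 → ι → St}
    (P : Pta (G.N J') (G.rt J' j) (22 * (G.L k * G.sJ J' k)) 0 y) :
    Pta (G.N J) (4 * (G.L j * G.sJ J j)) (21 * (G.L k * G.sJ J k)) 0
      fun g q => G.tk (y g q) J' J := by
  have p : ∀ i j, 0 < G.rt i j := fun _ _ => pow_pos three_pos _
  have p' : ∀ j, 0 < G.L j ^ G.K0 := fun j => pow_pos (by linarith [h.L_big j]) _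
  refine ⟨fun g q => ?_, fun g q q' ne D e => ?_⟩
  · have := h.tk_near hJ (P.inn g q)
    rw [tk_zero le_rfl tk_top _ hJ, h.rt_rt (hj.trans hk) hJ, Nat.mul_div_cancel_left _ (p _ _)]
      at this
    refine box_mono ?_ this
    have := Nat.mul_le_mul (h.L_big j) (Nat.mul_le_mul_right (G.rt J j) (p' j))
    have := p J j
    rw [sJ]
    omega
  · have a := P.far g q q' ne _ (h.tk_farT hJ e)
    rw [sJ, h.rt_rt hk hJ, show 22 * (G.L k * (G.L k ^ G.K0 * (G.rt J' J * G.rt J k))) =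
      G.rt J' J * (22 * (G.L k * G.sJ J k)) by rw [sJ]; ring] at a
    have := Nat.le_of_mul_le_mul_left a (p _ _)
    have := Nat.mul_le_mul (h.L_big k) (Nat.mul_pos (p' k) (p J k))
    rw [sJ] at *
    omega

/-- matched observables have the same centred moments -/
theorem Xh.dh [NeZero (G.N J)] [NeZero (G.N J')] (X : G.Xh A n τ b b' J J' i k) {z : ι → St}
    {x w : ι → ℝ} {T T' : ι → Fz → ℝ} (hd : d ≤ (G.p J).R) (hd' : d ≤ (G.p J').R)
    (M : ∀ q, G.Dh A n d D R b b' J J' i k (z q) (x q) (w q) η (T q) (T' q))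
    (near : ∀ q, z q ∈ box (G.rt J' j)) (far : ∀ q q', q ≠ q' → ∃ μ,
      (22 * (G.L k * G.sJ J' k) : ℕ) ≤ |z q μ - z q' μ|)
    (hc : Fintype.card ι = c) (big : 1000 * 3 ^ c ≤ G.L j) (hj : j < k)
    (hn : j + n0 * (Nat.log 2 (G.L k) + 1) ≤ k) (hτ : τ ≤ η)
    (h1 : 2 ^ (c + 1) * G.Q k ^ 100 * exp (2 - G.L k) ≤ η)
    (h2 : 4 * (c + 1) * G.Q k ^ 62 * (G.L k : ℝ) ^ (3 * n0) * η + 2 / (G.L k : ℝ) ^ (6 * n0) ≤ ε)
    (h3 : ε < 1) :
    |cL (Fi.tr haar) b' (G.N J') T' z - cL (Fi.tr haar) b (G.N J) T fun q => G.tk (z q) J' J| ≤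
      kH c (G.Q j) * (ε + (2 ^ (k - j))⁻¹) * ∏ q, G.QA (A + 1) (k + 1) ^ 52 * x q +
        G.kD j c * (2 ^ (k - j))⁻¹ * ∏ q, G.Q k ^ 50 * w q := by
  subst hc
  have h := X.ok
  have kJ : k + 1 ≤ J := by have := X.lt; have := X.hi; omega
  have kJ' := kJ.trans X.le
  have A1 : 1 ≤ A := le_of_add_le_right X.nA
  choose m m' Y Y' P a a' c y p using M
  have g := h.pta_long (hj.le.trans (k.le_succ.trans kJ')) near far
  have g' : Pta (G.N J') (4 * (G.L j * G.sJ J' j)) (21 * (G.L k * G.sJ J' k)) 0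
      fun g q => Wd.gv g (z q) := by
    simpa only [tk_top] using h.pta_short hj.le (k.le_succ.trans kJ') le_rfl g
  have F := Fms.red (G := G) (r := fun m q => G.rH n k (w q) m) (T := fun q U => T q U - a q)
    (S := fun g q => ⟨G.tk (Wd.gv g (z q)) J' J, Y q g, P q g⟩)
    ⟨⟨h, X.t, X.hp, X.hq, A1, X.big, hd, k.le_succ, kJ⟩, hj, big, fun g q => (c q g).1.1,
      h.pta_short hj.le (k.le_succ.trans kJ) X.le g, fun g q => (c q g).1.2⟩
  have F' := Fms.red (G := G) (r := fun m q => G.rH n k (w q) m) (T := fun q U => T' q U - a' q)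
    (S := fun g q => ⟨Wd.gv g (z q), Y' q g, P q g⟩)
    ⟨⟨h, X.t', X.hp, X.hq, A1, X.big, hd', k.le_succ, kJ'⟩, hj, big, fun g q => (c q g).2.1, g',
      fun g q => (c q g).2.2⟩
  have C := X.cmp hd hd' y p (g'.far 1) rfl big hj hn hτ h1 h2 h3
  rw [show G.mpa b J (k + 1) j _ _ = G.sqM R b J (k + 1) j
    fun q => ⟨G.tk (z q) J' J, Y q 1, P q 1⟩ by unfold sqM sqC; simp only [tk_tk X.le _ kJ]; rfl] at C
  change ‖cmo (G.sqM R b' J' (k + 1) j fun q => ⟨z q, Y' q 1, P q 1⟩) - _‖ ≤ _ at C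
  simp only [cL_const _ _ m, cL_const _ _ m', Wd.gv_one, rH, rt_top, Nat.cast_one, one_pow, mul_one,
    inv_div, div_inv_eq_mul] at F F'
  have := norm_sub_le_of_le (norm_add_le_of_le F' C) F
  rw [sub_add_sub_cancel, sub_sub_sub_cancel_right, ← mul_sub, norm_mul, norm_pow, norm_neg,
    norm_one, one_pow, one_mul, ← Complex.ofReal_sub, Complex.norm_real] at this
  refine this.trans_eq ?_
  rw [kD]
  ring

end Gl

end Pool.Agent.Lib.MP_7f377f_mp.RG.Q4.En
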