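import Pool.Agent.Lib.MP_7f377f_mp.G.KzK0

/-! The lifts of a probe are matched observables. -/

noncomputable section

set_option linter.unusedSectionVars false
variable [Pool.Agent.Lib.MP_7f377f_mp.GD]

namespace Pool.Agent.Lib.MP_7f377f_mp.RG.Q4.En.Gl

open Finset Function Real Sg YM7 Mg
open Wd (B4)
open L6 (Fz)
open scoped Classical

attribute [local irreducible] box lbox tb tau rc

/-- the lift of a cut off letter of the level `i` -/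
def pO (G : Gl) (R J i : ℕ) (Q : Tl.Pl) (U : Fz) : ℝ :=
  (G.ta (fun W => cuf R (G.p i).ε W * Tl.pG Q W) J i U).re

variable {G : Gl} {A n d D R J J' i k m : ℕ} {τ b b' x w η δ K ε : ℝ} {Q : Tl.Pl} {s u : St}

theorem bc_cuf (R : ℕ) (ε : ℝ) (Q : Tl.Pl) : BC fun W => cuf R ε W * Tl.pG Q W :=
  let ⟨a, M, c⟩ := bc_cont (Tl.pG_cont Q)
  ⟨(cuf_meas _ _).mul a, M, fun U => by
    rcases cuf_cases R ε U with e | ⟨e, -⟩
    · simpa [e] using (norm_nonneg _).trans (c U)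
    · simpa [e] using c U⟩

theorem Ok.pO_bm (h : G.Ok) (hi : i ≤ J) : Weak.BM (G.pO R J i Q) :=
  let ⟨a, M, c⟩ := h.ta_bc hi (bc_cuf R (G.p i).ε Q)
  ⟨Complex.measurable_re.comp a, M, fun U => (Complex.abs_re_le_norm _).trans (c U)⟩

theorem Ok.pO_eq (h : G.Ok) (hi : k + 1 ≤ J) (r : Tl.Rl Q) (g : B4) {U : Conf}
    (hU : Per (G.N J) U) (e : s = Wd.gv g ((G.rt J k : ℤ) • u)) :
    (G.pO R J (k + 1) Q (Wy.tz ((G.rt J k : ℤ) • u) (Wd.pb Inv.inv g U)) : ℂ) =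
      G.sqO R J (k + 1) ⟨s, 0, Tl.lq (Tl.act g Q)⟩ U := by
  have c := bc_cuf R (G.p (k + 1)).ε
  have v : G.tk s J (k + 1) = (G.rt (k + 1) k : ℤ) • Wd.gv g u := by
    rw [e, Wd.gv_smul, ← zero_add (_ • _), h.tk_add _ _ hi k.le_succ,
      tk_zero le_rfl tk_top _ hi, zero_add]
  have y : G.ta (fun W => cuf R (G.p (k + 1)).ε W * Tl.pG Q W) J (k + 1)
      (Wy.tz ((G.rt J k : ℤ) • u) (Wd.pb Inv.inv g U)) =
        G.sqO R J (k + 1) ⟨s, 0, Tl.lq (Tl.act g Q)⟩ U := by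
    refine (congrArg _ ((Kz.tz_pb ..).trans (congrArg _ (tz_sh ..)))).trans
      ((Wd.ta_pb h hi (c Q) (per_sh' hU _) g).symm.trans ?_)
    simp only [cuf_pb, ← Tl.pG_act]
    rw [sqO, v, Wd.gv_smul, h.rt_rt k.le_succ hi, Nat.cast_mul, mul_smul, ← h.ta_sh hi (c _) hU]
    exact (zero_add _).symm
  refine (Complex.conj_eq_iff_re.1 (Complex.conj_eq_iff_im.2 (h.ta_real hi (fun W => ?_) _))).trans y
  rcases cuf_cases R (G.p (k + 1)).ε W with e | ⟨e, -⟩ <;> simp [e, Tl.pG_real r]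

/-- the lifts of a probe are matched -/
theorem Xh.dh_probe [NeZero (G.N J)] [NeZero (G.N J')] (X : G.Xh A n τ b b' J J' i k)
    (hd : d ≤ (G.p J).R) (hd' : d ≤ (G.p J').R) (η0 : 0 ≤ η) (J1 : G.Tj D R δ (k + 1))
    (r : Tl.Rl Q) (m1 : 1 ≤ m) (a : ∀ g, Tl.Top R m δ K (Tl.pG (Tl.act g Q)) (Tl.px (Tl.act g Q))
      (Tl.pa (Tl.act g Q))) (x0 : 0 < x)
    (hx : 4 * (G.QA (A + 1) (k + 1) ^ 340 * (K * (4 * G.lH D (k + 1)) ^ m)) ≤ x) (hw : x ≤ w)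
    (u : St) : G.Dh A n d D R b b' J J' i k ((G.rt J' k : ℤ) • u) x w η (G.pO R J (k + 1) Q)
      (G.pO R J' (k + 1) Q) := by
  have h := X.ok
  have j1 : k + 1 ≤ J := by have := X.hi; have := X.lt; omega
  have j2 := j1.trans X.le
  have v : ∀ u : St, G.tk ((G.rt J' k : ℤ) • u) J' J = (G.rt J k : ℤ) • u := fun u => by
    rw [← zero_add (_ • _), h.tk_add _ _ X.le (by omega), tk_zero le_rfl tk_top _ X.le, zero_add]
  have q : ∀ {b J} [NeZero (G.N J)] {s} (g : B4), G.Tu b J → k + 1 ≤ J → d ≤ (G.p J).R →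
      s = Wd.gv g ((G.rt J k : ℤ) • u) → G.Rq A n d D R b J k w (G.pO R J (k + 1) Q)
        ((G.rt J k : ℤ) • u) 0 g ⟨s, 0, Tl.lq (Tl.act g Q)⟩ := fun g t j hd e =>
    ⟨Sru.sok_probe ⟨h, t, X.hp, X.hq, by have := X.nA; omega, X.big, hd, k.le_succ, j⟩ X.nA J1 (a g)
      m1 (x0.trans_le hw) (hx.trans hw) (Tl.pG_real (r.act g)), fun _ => 0,
      ⟨continuous_const, dependsOn_const _ |>.mono (Set.empty_subset _), Wy.Nl.zero⟩,
      fun U hU => by simpa using h.pO_eq j r g hU e⟩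
  refine ⟨h.pO_bm j1, h.pO_bm j2, 0, 0, fun g => Tl.lq (Tl.act g Q), 0, 0, fun g =>
    ⟨v u ▸ q g X.t j1 hd (by rw [Wd.gv_smul, v, Wd.gv_smul]), q g X.t' j2 hd' rfl⟩, ?_,
    h.zh J1 (a 1) m1 x0 (le_trans ?_ hx)⟩
  · simpa only [Pi.zero_apply, jx_zero] using X.yh_zero x0 η0
  · have := (a 1).nonneg
    have := h.lH0 D (k + 1)
    have := h.QA0 (A + 1) (k + 1)
    exact le_mul_of_one_le_left (by positivity) (by norm_num)

end Pool.Agent.Lib.MP_7f377f_mp.RG.Q4.En.Gl
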