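import Pool.Agent.Lib.MP_7f377f_mp.G.KzS2
import Pool.Agent.Lib.MP_7f377f_mp.G.KyC

/-! The matched letters form a chart. -/

noncomputable section

set_option linter.unusedSectionVars false
variable [Pool.Agent.Lib.MP_7f377f_mp.GD]

namespace Pool.Agent.Lib.MP_7f377f_mp.RG.Q4.En

open Finset Function Real Sg YM7 Tl Mg Kz
open Wd (B4 gv)
open L6 (Fz)
open Zg (V0 Og fil)
open scoped Classical

attribute [local irreducible] box lbox tb tau rc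

namespace Kd

variable (𝒜 : Set CM) [Og 𝒜] [Adj 𝒜] (P : Kd) [∀ J, NeZero (P.G.N J)]

/-- the pairing with a probe in the long run -/
def cq (R : ℕ) (x : St) (Q : Pl) (z : St) : V0 𝒜 →ₗ[ℝ] ℝ :=
  cPa (Fi.tr haar) P.b' (P.G.N P.J') (Kz.lt 𝒜) (P.G.pO R P.J' (P.k + 1) Q) x
    ((P.G.rt P.J' P.k : ℤ) • z)

/-- the pairing with a probe in the short run -/
def sq (R : ℕ) (x : St) (Q : Pl) (z : St) : V0 𝒜 →ₗ[ℝ] ℝ :=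
  cPa (Fi.tr haar) P.b (P.G.N P.J) (P.G.zL 𝒜 P.b P.J P.k) (P.G.pO R P.J (P.k + 1) Q)
    (P.G.tk x P.J' P.J) ((P.G.rt P.J P.k : ℤ) • z)

/-- the hypotheses for a chart -/
structure Ok2 (m j n0 D R : ℕ) (δ M W T ε ε' X X' : ℝ) (S : Set Pl) : Prop extends P.Ok 𝒜 where
  m2 : 2 ≤ m
  b0 : 0 ≤ P.b'
  far : (22 * (P.G.L P.k * P.G.sJ P.J' P.k) : ℕ) ≤ M * P.G.rt P.J' P.k
  M1 : 1 ≤ M
  T1 : 1 ≤ T
  farT : (22 * (P.G.L P.k * P.G.sJ P.J' P.k) : ℕ) ≤ T * P.G.rt P.J' P.k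
  vol : 100 * W * P.G.rt P.J' P.k ≤ P.G.N P.J'
  near : (|W| + 2 * T + 1) * P.G.rt P.J' P.k ≤ P.G.rt P.J' j
  gs : ∀ x : Fin m → St, ∃ w, ∀ a, x a + w ∈ P.G.Gs P.J' P.k
  hd : P.R ≤ (P.G.p P.J).R
  hd' : P.R ≤ (P.G.p P.J').R
  big : 1000 * 3 ^ m ≤ P.G.L j
  hj : j < P.k
  hn0 : j + n0 * (Nat.log 2 (P.G.L P.k) + 1) ≤ P.k
  hτ : P.τ ≤ P.η
  h1 : 2 ^ (m + 1) * P.G.Q P.k ^ 100 * exp (2 - P.G.L P.k) ≤ P.η
  h2 : 4 * (m + 1) * P.G.Q P.k ^ 62 * (P.G.L P.k : ℝ) ^ (3 * n0) * P.η +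
    2 / (P.G.L P.k : ℝ) ^ (6 * n0) ≤ ε'
  h3 : ε' < 1
  X0 : 0 < X
  hX : P.G.QA (P.A + 1) P.k ^ 347 * (kV 𝒜 P.s * P.y) ≤ X
  hX' : P.G.QA (P.A + 1) P.k ^ 347 * P.Ow 𝒜 ≤ X'
  XX : X ≤ X'
  num : ∀ c ≤ m, kH c (P.G.Q j) * (ε' + (2 ^ (P.k - j))⁻¹) *
    (P.G.QA (P.A + 1) (P.k + 1) ^ 52 * X) ^ c +
      P.G.kD j c * (2 ^ (P.k - j))⁻¹ * (P.G.Q P.k ^ 50 * X') ^ c ≤ ε / 2
  gau : ∀ i ≤ m, ∀ (x : Fin i → St) (e : Fin i → V0 𝒜), (∀ a, e a ∈ Vp 𝒜 P.s) →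
    (∀ a a', a ≠ a' → Ds (M * P.G.rt P.J' P.k) (W * P.G.rt P.J' P.k) (x a) (x a')) →
    |cL (Fi.tr haar) P.b (P.G.N P.J) (fun a => P.G.zL 𝒜 P.b P.J P.k (e a))
      (fun a => P.G.tk (x a) P.J' P.J) - Kz.fq (P.G.rt P.J' P.k) e x| ≤ ε / 2 * ∏ a, ‖e a‖
  J1 : P.G.Tj D R δ (P.k + 1)
  ps : ∀ g, ∀ Q ∈ S, Tl.act g Q ∈ S
  pr : ∀ Q ∈ S, Rl Q ∧ ∃ n K, 1 ≤ n ∧
    4 * (P.G.QA (P.A + 1) (P.k + 1) ^ 340 * (K * (4 * P.G.lH D (P.k + 1)) ^ n)) ≤ X ∧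
    ∀ g, Top R n δ K (pG (Tl.act g Q)) (px (Tl.act g Q)) (Tl.pa (Tl.act g Q))
  p3 : ∀ x ∈ P.G.Gs P.J' P.k, ∀ z : St, Ds (T * P.G.rt P.J' P.k) (2 * T * P.G.rt P.J' P.k) x
    ((P.G.rt P.J' P.k : ℤ) • z) → ∀ e ∈ Vp 𝒜 P.s, ∀ y, 0 ≤ y →
      (∀ Q ∈ S, |P.sq 𝒜 R x Q z e| ≤ y) → ‖e‖ ≤ M * y

variable {𝒜 P} {m j n0 D R : ℕ} {δ M W T ε ε' X X' : ℝ} {S : Set Pl}

namespace Ok2

variable (H : P.Ok2 𝒜 m j n0 D R δ M W T ε ε' X X' S)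
include H

theorem kJ : P.k < P.J := H.xh.lt.trans_le (by linarith [H.xh.hi])

theorem cq_ap (x : St) (Q : Pl) (z : St) (c : V0 𝒜) : P.cq 𝒜 R x Q z c =
    cL (Fi.tr haar) P.b' (P.G.N P.J') ![Kz.lt 𝒜 c, P.G.pO R P.J' (P.k + 1) Q]
      ![x, (P.G.rt P.J' P.k : ℤ) • z] :=
  cPa_ap (fun c => bm_co (lt_cont 𝒜 c)) (H.xh.ok.po_bm (H.kJ.trans_le H.xh.le)) c

theorem sq_ap (x : St) (Q : Pl) (z : St) (c : V0 𝒜) : P.sq 𝒜 R x Q z c =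
    cL (Fi.tr haar) P.b (P.G.N P.J) ![P.G.zL 𝒜 P.b P.J P.k c, P.G.pO R P.J (P.k + 1) Q]
      ![P.G.tk x P.J' P.J, (P.G.rt P.J P.k : ℤ) • z] :=
  cPa_ap (fun c => bm_co (lZ_cont _ _ c)) (H.xh.ok.po_bm H.kJ) c

theorem cmp {c : ℕ} {z : Fin c → St} {u : Fin c → ℝ} {F F' : Fin c → Fz → ℝ} {V : ℝ} (hc : c ≤ m)
    (u0 : ∀ q, 0 ≤ u q) (a : ∀ (v : St) q, P.G.Dh P.A P.n P.R D R P.b P.b' P.J P.J' P.i P.k
      (z q + (P.G.rt P.J' P.k : ℤ) • v) (X * u q) (X' * u q) P.η (F q) (F' q)) (hV : V ≤ |W| + 2 * T)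
    (d : ∀ q q', q ≠ q' → Ds (22 * (P.G.L P.k * P.G.sJ P.J' P.k) : ℕ) (V * P.G.rt P.J' P.k) (z q)
      (z q')) :
    |cL (Fi.tr haar) P.b' (P.G.N P.J') F' z -
      cL (Fi.tr haar) P.b (P.G.N P.J) F fun q => P.G.tk (z q) P.J' P.J| ≤ ε / 2 * ∏ q, u q := by
  have h := H.xh.ok
  have q := h.Q0 P.k
  have η0 : 0 ≤ P.η := le_trans (by positivity) H.h1
  have n := H.near
  rw [h.rt_rt H.hj.le (H.kJ.le.trans H.xh.le), Nat.cast_mul, mul_comm] at n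
  refine (H.xh.dhT H.hd H.hd' a (fun q q' e => by exact_mod_cast d q q' e)
    (le_trans (by linarith) (le_of_mul_le_mul_left n (Gl.Ok.rt_pos _ _))) (Fintype.card_fin c)
    (le_trans (by gcongr; norm_num) H.big) H.hj H.hn0 H.hτ (le_trans (by gcongr; norm_num) H.h1)
    (le_trans (by gcongr) H.h2) H.h3).trans (le_trans (le_of_eq ?_)
      (mul_le_mul_of_nonneg_right (H.num c hc) (prod_nonneg fun q _ => u0 q)))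
  simp only [← mul_assoc, prod_mul_distrib (g := u), Fin.prod_const]
  ring

theorem lv {z : St} {e : V0 𝒜} {y : ℝ} (hz : z ∈ P.G.Gs P.J' P.k) (he : e ∈ Vp 𝒜 P.s) (y0 : 0 ≤ y)
    (p : 0 < ‖e‖ + y) (o : ∀ g, P.G.Os 𝒜 P.s P.C P.s P.b' P.J' P.k (gv g z) (rB 𝒜 g (P.N 𝒜 z e))
      (P.Ow 𝒜 * y)) (v : St) :
    P.G.Dh P.A P.n P.R D R P.b P.b' P.J P.J' P.i P.k (z + (P.G.rt P.J' P.k : ℤ) • v)
      (X * (‖e‖ + y)) (X' * (‖e‖ + y)) P.η (P.G.zL 𝒜 P.b P.J P.k e) (Kz.lt 𝒜 (P.N 𝒜 z e)) := by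
  have X0 := H.X0
  rw [← H.per z v]
  refine H.letter (H.xh.ok.dg_add hz v) he (by positivity) ((mul_assoc ..).symm.trans_le
    (mul_le_mul H.hX (by linarith) (norm_nonneg _) X0.le)) (fun g => ?_)
    (mul_pos (X0.trans_le H.XX) p) (le_trans (le_of_eq (by ring))
      (mul_le_mul_of_nonneg_right H.hX' p.le)) (v := P.Ow 𝒜 * y)
  rw [H.per, Wd.gv_add, Wd.gv_smul]
  exact H.os_tr (Gl.gs_gv hz g) (by linarith [H.s2]) le_rfl _ (o g)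

theorem e0 : 0 ≤ ε / 2 := by
  simpa using (abs_nonneg _).trans (H.gau 0 m.zero_le 0 0 nofun nofun)

theorem oa (k : ℕ) (hk : k ≤ m) (x : Fin k → St) (e : Fin k → V0 𝒜) (y : Fin k → ℝ)
    (h : ∀ a, x a ∈ P.G.Gs P.J' P.k ∧ e a ∈ Vp 𝒜 P.s ∧ 0 ≤ y a ∧ ∀ g, P.G.Os 𝒜 P.s P.C P.s P.b' P.J'
      P.k (gv g (x a)) (rB 𝒜 g (P.N 𝒜 (x a) (e a))) (P.Ow 𝒜 * y a))
    (d : ∀ a a', a ≠ a' → Ds (M * P.G.rt P.J' P.k) (W * P.G.rt P.J' P.k) (x a) (x a')) :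
    |cm (Fi.tr haar) P.b' (P.G.N P.J') (fun a => P.N 𝒜 (x a) (e a)) x - Kz.fq (P.G.rt P.J' P.k) e x| ≤
      ε * ∏ a, (‖e a‖ + y a) := by
  have u (q) : 0 ≤ ‖e q‖ + y q := add_nonneg (norm_nonneg _) (h q).2.2.1
  rw [← add_halves ε, add_mul]
  refine (abs_sub_le _ _ _).trans (add_le_add ?_ ((H.gau k hk x e (fun a => (h a).2.1) d).trans
    (mul_le_mul_of_nonneg_left (prod_le_prod (fun _ _ => norm_nonneg _) fun a _ =>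
      le_add_of_nonneg_right (h a).2.2.1) H.e0)))
  by_cases p : ∀ q, 0 < ‖e q‖ + y q
  · exact H.cmp hk u (fun v q => H.lv (h q).1 (h q).2.1 (h q).2.2.1 (p q) (h q).2.2.2 v)
      (by linarith [le_abs_self W, H.T1]) fun a a' v => (d a a' v).mono H.far le_rfl
  obtain ⟨q, p⟩ := not_forall.1 p
  have e0 : e q = 0 := norm_le_zero_iff.1 (by linarith [(h q).2.2.1])
  have z (b n) [NeZero n] (T : Fin k → Fz → ℝ) (x) (t : T q = 0) :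
      cL (Fi.tr haar) b n T x = 0 := by
    rw [cL, funext fun U => prod_eq_zero (mem_univ q) (by simp [t, Kz.ct, Wy.er])]
    simp [Wy.er]
  rw [cm_cL, z _ _ _ _ (by simp [e0]), z _ _ _ _ (by simp [e0]),
    prod_eq_zero (mem_univ q) ((not_lt.1 p).antisymm (u q))]
  simp

theorem p1 {x z : St} {Q : Pl} {e : V0 𝒜} {y : ℝ} (hx : x ∈ P.G.Gs P.J' P.k) (hQ : Q ∈ S)
    (d : Ds (T * P.G.rt P.J' P.k) (2 * T * P.G.rt P.J' P.k) x ((P.G.rt P.J' P.k : ℤ) • z))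
    (he : e ∈ Vp 𝒜 P.s) (y0 : 0 ≤ y) (o : ∀ g, P.G.Os 𝒜 P.s P.C P.s P.b' P.J' P.k (gv g x)
      (rB 𝒜 g (P.N 𝒜 x e)) (P.Ow 𝒜 * y)) :
    |P.cq 𝒜 R x Q z (P.N 𝒜 x e) - P.sq 𝒜 R x Q z e| ≤ ε * (‖e‖ + y) := by
  rcases (add_nonneg (norm_nonneg e) y0).eq_or_lt with p | p
  · obtain rfl : e = 0 := norm_le_zero_iff.1 (by linarith)
    simp only [← p, map_zero, sub_zero, abs_zero, mul_zero, le_refl]
  obtain ⟨r, n, K, n1, hK, a⟩ := H.pr Q hQ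
  replace d := d.mono H.farT le_rfl
  have := H.cmp (z := ![x, (P.G.rt P.J' P.k : ℤ) • z]) (u := ![‖e‖ + y, 1])
    (F := ![P.G.zL 𝒜 P.b P.J P.k e, P.G.pO R P.J (P.k + 1) Q])
    (F' := ![Kz.lt 𝒜 (P.N 𝒜 x e), P.G.pO R P.J' (P.k + 1) Q]) H.m2
    (Fin.forall_fin_two.2 ⟨p.le, zero_le_one⟩) (fun v => Fin.forall_fin_two.2
      ⟨H.lv hx he y0 p o v, by
        simpa only [← smul_add, Matrix.cons_val_one, Matrix.cons_val_zero, mul_one] using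
          H.probe H.J1 r n1 a H.X0 hK H.XX (z + v)⟩) (le_add_of_nonneg_left (abs_nonneg W))
    fun i i' v => by
      fin_cases i <;> fin_cases i'
      exacts [(v rfl).elim, d, d.symm, (v rfl).elim]
  have t : P.G.tk ((P.G.rt P.J' P.k : ℤ) • z) P.J' P.J = (P.G.rt P.J P.k : ℤ) • z := by
    rw [← zero_add (_ • _), H.xh.ok.tk_add _ _ H.xh.le H.kJ.le,
      Gl.tk_zero le_rfl Gl.tk_top _ H.xh.le, zero_add]
  rw [Fin.prod_univ_two, show (fun q => P.G.tk (![x, (P.G.rt P.J' P.k : ℤ) • z] q) P.J' P.J) =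
    ![P.G.tk x P.J' P.J, (P.G.rt P.J P.k : ℤ) • z] from funext (Fin.forall_fin_two.2 ⟨rfl, t⟩),
    ← H.cq_ap, ← H.sq_ap] at this
  exact this.trans (mul_le_mul (by linarith [H.e0]) (mul_one _).le (p.le.trans_eq (mul_one _).symm) (by linarith [H.e0]))

theorem pv (g : B4) (x : St) (Q : Pl) (z : St) (c : V0 𝒜) :
    P.cq 𝒜 R (gv g x) (Tl.act g Q) (gv g z) (rB 𝒜 g c) = P.cq 𝒜 R x Q z c := by
  have k := H.kJ.trans_le H.xh.le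
  rw [H.cq_ap, H.cq_ap]
  refine Eq.trans (congrArg _ (funext ?_)) (En.cL_cov _ _ ?_ _ g ?_)
  exacts [Fin.forall_fin_two.2 ⟨rfl, (Wd.gv_smul ..).symm⟩,
    Fin.forall_fin_two.2 ⟨bm_co (lt_cont 𝒜 c), H.xh.ok.po_bm k⟩,
    Fin.forall_fin_two.2 ⟨fun U _ => lt_rB g c U, fun U u => H.xh.ok.po_act k g u⟩]

theorem p2 (g : B4) (x : St) (Q : Pl) (z : St) (e : V0 𝒜) :
    P.sq 𝒜 R (gv g x) (Tl.act g Q) (gv g z) (rB 𝒜 g e) = P.sq 𝒜 R x Q z e := by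
  rw [H.sq_ap, H.sq_ap]
  refine Eq.trans (congrArg _ (funext ?_)) (En.cL_cov _ _ ?_ _ g ?_)
  exacts [Fin.forall_fin_two.2 ⟨Gl.tk_gv g x H.xh.le, (Wd.gv_smul ..).symm⟩,
    Fin.forall_fin_two.2 ⟨bm_co (lZ_cont _ _ e), H.xh.ok.po_bm H.kJ⟩,
    Fin.forall_fin_two.2 ⟨fun U _ => lZ_rB _ _ g e U, fun U u => H.xh.ok.po_act H.kJ g u⟩]

theorem cz : Cz (Fi.tr haar) P.b' (P.G.N P.J') P.s m (P.G.rt P.J' P.k) M W T ε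
    (P.G.Gs P.J' P.k) (P.N 𝒜) (fun x c y => P.G.Os 𝒜 P.s P.C P.s P.b' P.J' P.k x c (P.Ow 𝒜 * y))
    (fun g Q => Tl.act g Q) S (P.cq 𝒜 R) (P.sq 𝒜 R) := by
  have h := H.xh.ok
  have r0 : 0 < P.G.rt P.J' P.k := pow_pos three_pos _
  have k1 := (ex_kV 𝒜 P.s).choose_spec.1
  have y0 := H.y0
  have L := h.L1 P.k
  have i0 : (0 : ℝ) < P.G.rt P.i P.k := Nat.cast_pos.2 (pow_pos three_pos _)
  have O : 0 < P.Ow 𝒜 := mul_pos (mul_pos (mul_pos (one_pos.trans_le k1) (by linarith)) y0)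
    (by positivity)
  have e0 : 0 ≤ ε := by
    simpa using (abs_nonneg _).trans (H.oa 0 m.zero_le 0 0 0 nofun nofun)
  have M1 := H.M1
  refine ⟨H.b0, h.N_odd _, r0, H.m2, M1, H.T1, e0, H.vol, fun c hc U V e =>
    (H.fw'.lc c ((fil 𝒜).mono (Nat.le_add_right _ 2) hc.1)).2 fun l hl => e l fun i =>
      (hl i).trans (Nat.cast_le.2 H.fw'.rad), Gl.gs_zero, fun g x a => Gl.gs_gv a g,
    fun x a v => h.dg_add a v, H.gs, fun x _ d a e b => H.fil a b, H.per,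
    fun x a e b => (H.own a le_rfl b).mono (mul_le_mul_of_nonneg_left
      (le_mul_of_one_le_left (norm_nonneg _) M1) O.le), fun x _ c a => ?_,
    fun x c y y' a b => a.mono (mul_le_mul_of_nonneg_left b O.le), H.oa, H.ps,
    fun g x Q z c _ => H.pv g x Q z c, fun x a Q b z d e u y v w => H.p1 a b d u v w,
    fun g x _ Q _ z _ e _ => by rw [H.p2, sub_self, abs_zero]; positivity, H.p3⟩
  obtain ⟨y, a⟩ := H.os_ex a x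
  exact ⟨y / P.Ow 𝒜, by rwa [mul_div_cancel₀ _ O.ne']⟩

end Ok2

end Kd

end Pool.Agent.Lib.MP_7f377f_mp.RG.Q4.En
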