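import Pool.Agent.Lib.MP_7f377f_mp.G.KzH
import Pool.Agent.Lib.MP_7f377f_mp.G.KzW
import Pool.Agent.Lib.MP_7f377f_mp.G.KyB

/-! The hybrid of a short and of a long run. -/

noncomputable section

set_option linter.unusedSectionVars false
variable [Pool.Agent.Lib.MP_7f377f_mp.GD]

namespace Pool.Agent.Lib.MP_7f377f_mp.RG.Q4.En.Gl

open Finset Real Filter Sg Tl
open Zg (Og)

attribute [local irreducible] box lbox tb tau rc

variable (G : Gl)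

/-- the two runs and their symbols at the level `i` are close -/
def Xe (s C A n : ℕ) (M τ b b' : ℝ) (J J' i k : ℕ) : Prop := G.Xh A n τ b b' J J' i k ∧
  (∀ d ≤ s, ∃ ε, 0 ≤ ε ∧ 2 * ε * (M + 1) * G.Zu d C i ≤ 1 ∧ ε * (G.L k : ℝ) ^ 2 ≤ 1 ∧
    ∀ φ N, Tbw (G.lR i) (60 * (G.p i).ρ) (G.lH (s + 1) i) N φ →
      ‖sgS Jt.wt d (G.ka (s + 1) C i • G.sek s b J i) φ -
        sgS Jt.wt d (G.ka (s + 1) C i • G.sek s b' J' i) φ‖ ≤ ε * N) ∧
  τ * G.jW (s + 1) i * (G.L i : ℝ) ^ 2 * (G.rt i k : ℝ) ^ (s + 2) ≤ 1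

variable {G} {𝒜 : Set CM} [Og 𝒜] [Adj 𝒜] {s C A n w e J J' k R : ℕ} {M M₁ M₂ δ K b b' : ℝ}

theorem Ok.xe (h : G.Ok) (hp : G.Pu) (q : G.HP Sd.StA) (t : G.Tu b J) (t' : G.Tu b' J')
    (hs : 2 ≤ s) (W : G.Fw 𝒜 s C M₁ R δ K b J k) (W' : G.Fw 𝒜 s C M₂ R δ K b' J' k) (le : J ≤ J')
    (nA : n + 1 ≤ A) (hw : 0 < w) {a : ℕ} (ha : a = (s + 1 + 7) * (G.aA (s + 1) + G.aB + 3) * 2 + 4 +
      2 * (w * (s + 2))) (he : 600 * (G.K + (A + 1)) + a ≤ e)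
    (far : k + (w + 60 * (2 * e + 20 * G.K + 6) + 1 + 20 * (405 * G.K + 1) + 1) ≤ J)
    (hB : w + 200 * (2 * e + 20 * G.K + 6) ≤ G.Bk k) (big : ∀ m ≥ k, G.Big (A + 1) m)
    (ex : G.Ex s (k + w)) (x1 : G.Xr (12 * s + 17) (k + w) ^ 1 ≤ G.L (k + w))
    (x2 : G.Xr C (k + w) ^ (20 * s + 13) ≤ G.L (k + w)) (hM : 2 * (M + 1) ≤ G.L k) :
    G.Xe s C A n M ((G.L k : ℝ) ^ e)⁻¹ b b' J J' (k + w) k := by
  have l1 : (1 : ℝ) ≤ G.L k := by linarith [h.L1 k]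
  have l2 : (G.L (k + w) : ℝ) ≤ G.L k ^ 2 := by
    have := h.B_mono (k.le_add_right w)
    exact_mod_cast (h.win1 (k.le_add_right w) le_rfl (by omega)).1
  have u : ∀ {x : ℝ} (a : ℕ), x ≤ G.L k ^ a → a ≤ e → ((G.L k : ℝ) ^ e)⁻¹ * x ≤ 1 := fun a c d => by
    rw [inv_mul_le_iff₀ (by positivity), mul_one]
    exact c.trans (pow_le_pow_right₀ l1 d)
  obtain ⟨a1, a2, a3⟩ := h.hy_hb t t' (n := 2 * e + 20 * G.K + 6) (e := e) (i := k + w) q le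
    (k.le_add_right w) big (by linarith) (by linarith) le_rfl (by linarith) (by linarith)
  have T := (W.fr 0 gs_zero s (by omega) (by omega)).T
  have T' := (W'.fr 0 gs_zero s (by omega) (by omega)).T
  have X := h.Xr1 (12 * s + 17) (k + w)
  have v : ∀ {x : ℝ} (a : ℕ), 0 ≤ x → x ≤ G.L k ^ a → a + 2 ≤ e →
      G.Xr (12 * s + 17) (k + w) * ((G.L k : ℝ) ^ e)⁻¹ ^ 2 * x ≤ 1 := fun {x} a x0 c d =>
    calc _ ≤ (G.L k : ℝ) ^ 2 * ((G.L k : ℝ) ^ e)⁻¹ ^ 1 * G.L k ^ a := by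
          gcongr ?_ * ?_ * ?_
          exacts [((pow_one _).ge.trans x1).trans l2, pow_le_pow_of_le_one (by positivity)
            (inv_le_one_of_one_le₀ (one_le_pow₀ l1)) one_le_two]
      _ = ((G.L k : ℝ) ^ e)⁻¹ * G.L k ^ (a + 2) := by ring
      _ ≤ 1 := u _ le_rfl d
  refine ⟨⟨h, hp, q, t, t', le, by linarith, by linarith, big, nA, a1, mul_comm (_ : ℝ) _ ▸
    u (600 * (G.K + (A + 1))) ?_ (le_of_add_le_left he)⟩, fun d hd => ⟨G.Xr (12 * s + 17) (k + w) *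
      ((G.L k : ℝ) ^ e)⁻¹ ^ 2, by positivity, ?_, v 2 (by positivity) le_rfl (by omega),
        fun φ N H => ?_⟩, ?_⟩
  · calc _ ≤ (((G.L k : ℝ) ^ 2) ^ (G.K + (A + 1))) ^ 300 := by unfold QA; gcongr
      _ = _ := by ring
  · have z : G.Zu d C (k + w) ≤ G.L k ^ 2 :=
      ((pow_le_pow_right₀ (h.Xr1 C _) (by omega)).trans x2).trans l2
    have z0 : 0 ≤ G.Zu d C (k + w) := pow_nonneg (zero_le_one.trans (h.Xr1 C _)) _
    refine le_trans (b := _ * (G.L k * G.Zu d C (k + w))) ?_ (v 3 (by positivity) ?_ (by omega))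
    · rw [mul_comm 2, mul_assoc _ 2, mul_assoc]
      gcongr
    · rw [pow_succ' _ 2]
      gcongr
  · have c := (T.e (k + w) (k.le_add_right w)).2.1
    rw [norm_sub_rev]
    exact h.js_lip t.toTu1 t'.toTu1 (by omega) (by omega) hs ex ⟨c.1, le_trans (by gcongr; norm_num)
      c.2.1, c.2.2.1, (pow_le_pow_right₀ (h.Xr1 C _) (by omega)).trans c.2.2.2⟩ a2 a3
      (by simpa using v 0 zero_le_one (by simp) (by omega))
      (T.ld _ (k.le_add_right w) (by omega)).bp' (T'.ld _ (k.le_add_right w) (by omega)).bp' H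
  · have r : (G.rt (k + w) k : ℝ) ≤ G.L (k + w) ^ w := by
      simpa using Nat.cast_le (α := ℝ).2 (h.rt_le k (k.le_add_right w))
    rw [mul_assoc, mul_assoc]
    refine u a ?_ (by omega)
    calc _ ≤ ((G.L k : ℝ) ^ 2) ^ ((s + 1 + 7) * (G.aA (s + 1) + G.aB + 3)) *
          (((G.L k : ℝ) ^ 2) ^ 2 * (((G.L k : ℝ) ^ 2) ^ w) ^ (s + 2)) := by
          unfold jW
          gcongr
          exact r.trans (by gcongr)
      _ = _ := by rw [ha]; ring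

/-- the hybrids exist for short runs at deep levels -/
theorem Oks.xe {β : ℕ × ℕ → ℝ} (o : G.Oks) (q : G.HP Sd.StA) (tu : G.Tus β) (hs : 2 ≤ s)
    (C C' : ℕ) (M : ℝ) (nA : n + 1 ≤ A) (hw : 0 < w) : ∀ᶠ e in atTop, ∀ᶠ k in atTop,
    ∀ J J' v, G.Sh C' k J → J ≤ J' → ∀ {M₁ M₂ R δ K}, (G.wm v).Fw 𝒜 s C M₁ R δ K (β (v, J)) J k →
      (G.wm v).Fw 𝒜 s C M₂ R δ K (β (v, J')) J' k → (G.wm v).Xe s C A n M ((G.L k : ℝ) ^ e)⁻¹
        (β (v, J)) (β (v, J')) J J' (k + w) k := by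
  have h := (o 0).1
  obtain ⟨k0, big⟩ := h.big_ev (A + 1)
  filter_upwards [eventually_ge_atTop (600 * (G.K + (A + 1)) + ((s + 1 + 7) *
    (G.aA (s + 1) + G.aB + 3) * 2 + 4 + 2 * (w * (s + 2))))] with e he
  filter_upwards [eventually_ge_atTop k0, h.sh_far C'
    (w + 60 * (2 * e + 20 * G.K + 6) + 1 + 20 * (405 * G.K + 1) + 1), h.sch.Btop.eventually_ge_atTop
    (w + 200 * (2 * e + 20 * G.K + 6)),
    eventually_forall_ge_atTop.2 ((h.ex_ev s).and ((h.XrL (12 * s + 17) 1).and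
      (h.XrL C (20 * s + 13)))), h.L_top.eventually_ge_atTop (2 * (M + 1))]
    with k a1 a2 a3 a4 a5 J J' v S le _ _ _ _ _ W W'
  obtain ⟨c1, c2, c3⟩ := a4 (k + w) (k.le_add_right w)
  exact (o v).1.xe (o v).2 q (tu (v, J)) (tu (v, J')) hs W W' le nA hw rfl he (a2 J (S.wm 0)) a3
    (fun m hm => big m (a1.trans hm)) c1 c2 c3 a5

end Pool.Agent.Lib.MP_7f377f_mp.RG.Q4.En.Gl
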