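import Pool.Agent.Lib.MP_7f377f_mp.G.KyW
import Pool.Agent.Lib.MP_7f377f_mp.G.KzK5

/-! The hypotheses of the charts hold at all large levels. -/

noncomputable section

set_option linter.unusedSectionVars false
variable [Pool.Agent.Lib.MP_7f377f_mp.GD]

namespace Pool.Agent.Lib.MP_7f377f_mp.RG.Q4.En.Gl

open Finset Real Filter Tl Kz
open Zg (V0 Og)

variable (G : Gl) (β : ℕ × ℕ → ℝ)

/-- the parameters of the chart at the level `k` -/
abbrev kd (s C A n R c N w e : ℕ) (M δ K : ℝ) (v J J' k : ℕ) : En.Kd :=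
  ⟨G.wm v, s, C, A, n, R, J, J', k + w, k, (G.L k ^ e)⁻¹, M, δ, K, β (v, J), β (v, J'), G.L k ^ c,
    (G.L k ^ N)⁻¹⟩

instance (s C A n R c N w e : ℕ) (M δ K : ℝ) (v J J' k j : ℕ) :
    NeZero ((G.kd β s C A n R c N w e M δ K v J J' k).G.N j) :=
  inferInstanceAs (NeZero ((G.wm v).N j))

variable {G β} {s C' J J' k : ℕ}

namespace Ok

variable (h : G.Ok)
include h

theorem Sh_bb (S : G.Sh C' k J) (hJ : J ≤ J') : G.bb J' ≤ (G.rt J' k : ℝ) ^ (3 * C' + 2) := by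
  have a := h.bb_rt hJ
  have b := S.hi
  have e : (G.rt J' k : ℝ) = G.rt J' J * G.rt J k := by
    rw [← Nat.cast_mul, mul_comm, h.rt_mul S.lt.le hJ]
  have c := (h.L_rt S.lt).2.trans' (h.L1 k)
  have d := one_rt (G := G) J' J
  generalize (G.rt J' J : ℝ) = x at *
  generalize (G.rt J k : ℝ) = y at *
  have y1 : 1 ≤ y ^ (3 * C' + 1) := one_le_pow₀ (by linarith)
  have x1 : x ≤ x ^ (3 * C' + 2) := le_self_pow₀ d (by omega)
  rw [e, mul_pow, pow_succ y]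
  generalize y ^ (3 * C' + 1) = u at *
  generalize x ^ (3 * C' + 2) = t at *
  nlinarith [mul_nonneg (sub_nonneg.2 x1) (by nlinarith : 0 ≤ u * y),
    mul_nonneg (sub_nonneg.2 d) (by nlinarith : 0 ≤ u * y - 2)]

theorem ka_sh (D C C' : ℕ) (K : ℝ) : ∀ᶠ k in atTop, ∀ J J', G.Sh C' k J → J ≤ J' → ∀ d,
    K / G.ka D C J' ^ d ≤ (G.rt J' k : ℝ) ^ ((3 * C' + 2) * d + 1) := by
  filter_upwards [eventually_forall_ge_atTop.2 (h.ka_ev D C), h.L_top.eventually_ge_atTop K]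
    with k a e J J' S hJ d
  have lt := S.lt.trans_le hJ
  have b1 : 1 ≤ G.bb J' := by simpa using h.Lb J' (i := 0) (Nat.zero_le _)
  have k0 := (h.ka0 D C J').le
  rw [div_eq_mul_inv, ← inv_pow, pow_succ', pow_mul]
  exact mul_le_mul (e.trans (h.L_rt lt).2) (pow_le_pow_left₀ (by positivity) ((a J' lt.le).trans
    ((Real.sqrt_le_iff.2 ⟨by linarith, by nlinarith⟩).trans (h.Sh_bb S hJ))) d) (by positivity)
    (by positivity)

theorem L_pow (k w : ℕ) : (G.L k : ℝ) ^ w ≤ G.rt (k + w) k := by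
  induction w with
  | zero => simp [rt_top]
  | succ w ih =>
    rw [← add_assoc, h.rt_upR (Nat.le_add_right ..), pow_succ]
    exact mul_le_mul ih (Nat.cast_le.2 (h.L_mono (Nat.le_add_right ..))) (by positivity)
      (by positivity)

theorem pw_ev (s C N : ℕ) : C ≠ 0 → ∀ᶠ k in atTop, ∀ d ≤ s, ∀ i ≥ k + 2 * N,
    G.Pw d C k i ^ 2 ≤ ((G.L k : ℝ) ^ N)⁻¹ * G.rt i k := fun C0 => by
  refine (eventually_all_finset (range (s + 1)) |>.2 fun d _ => ?_).mono fun k a d hd =>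
    a d (mem_range.2 (Nat.lt_succ_of_le hd))
  obtain ⟨k0, e⟩ := h.Pw_ev d C 4 C0
  filter_upwards [eventually_ge_atTop k0] with k hk i hi
  have a := e k hk i (by omega)
  have b : ((G.L k : ℝ) ^ N) ^ 2 ≤ G.rt i k := by
    rw [← pow_mul', ← h.rt_mul (Nat.le_add_right k (2 * N)) hi, Nat.cast_mul]
    exact (h.L_pow ..).trans (le_mul_of_one_le_right (by positivity) (one_rt ..))
  have l : (0 : ℝ) < G.L k ^ N := pow_pos (by linarith [h.L1 k]) _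
  rw [le_inv_mul_iff₀ l]
  refine abs_le_of_sq_le_sq' ?_ (Nat.cast_nonneg _) |>.2
  rw [mul_pow, ← pow_mul _ 2 2, sq (G.rt i k : ℝ)]
  exact mul_le_mul b a (by have := h.Pw1 d C k i; positivity) (by positivity)

end Ok

variable (𝒜 : Set CM) [Og 𝒜] [Adj 𝒜]

theorem Oks.kd (o : G.Oks) (q : G.HP Sd.StA) (tu : G.Tus β) (hs : 2 ≤ s) (R₀ : ℕ) :
    ∀ᶠ C in atTop, ∃ R ≥ R₀, ∀ δ₀ > (0 : ℝ), ∃ δ ≤ δ₀, ∃ K, ∀ᶠ M in atTop, ∀ᶠ C' in atTop,
      ∃ c, ∀ N n A w, 3 * (C' + 1) * s + 10 ≤ n → n < A → 2 * N < w → ∀ᶠ e in atTop, ∀ᶠ k in atTop,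
        ∀ J J' v, G.Sh C' k J → J ≤ J' → (G.kd β s C A n R c N w e M δ K v J J' k).Ok 𝒜 := by
  have h := (o 0).1
  obtain ⟨R1, δ1, d1, kv⟩ := o.kv 𝒜 q tu hs
  filter_upwards [kv, o.fwU (𝒜 := 𝒜) q tu hs (max R₀ R1), eventually_ne_atTop 0]
    with C kv ⟨M₀, R, hR, fw⟩ C0
  refine ⟨R, le_of_max_le_left hR, fun δ₀ d0 => ?_⟩
  obtain ⟨δ, e1, K, fw⟩ := fw _ (lt_min d0 d1)
  refine ⟨δ, e1.trans (min_le_left ..), K, ?_⟩
  filter_upwards [eventually_ge_atTop M₀, eventually_ge_atTop 0] with M m1 m0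
  refine kv.mono fun C' ⟨c, kv⟩ => ⟨c, fun N n A w hn hA hw => ?_⟩
  refine (o.xe (𝒜 := 𝒜) q tu hs C C' M hA (show 0 < w by omega)).mono fun e xh => ?_
  filter_upwards [kv R (le_of_max_le_right hR), fw M m1, fw (2 * M + 6) (by linarith), xh,
    h.ka_sh (s + 1) C C' K, h.pw_ev s C N C0, h.sh_far C' w] with k a1 a2 a3 a4 a5 a6 a7 J J' v S hJ
  obtain ⟨x1, x2, x3⟩ := a4 J J' v S hJ (a3 J S.lt v) (a2 J' (S.lt.trans_le hJ) v)
  have n1 : (3 * C' + 2) * s + s + 10 ≤ n := by linarith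
  refine ⟨hs, x1, a3 J S.lt v, a2 J' (S.lt.trans_le hJ) v, by dsimp only; omega,
    by dsimp only; omega, x2, x3, pow_pos (lt_of_lt_of_le (by norm_num) (h.L1 k)) _,
    a1 J S v _ δ K (n - 5) (e1.trans (min_le_right ..)) (by omega) (a3 J S.lt v),
    fun d hd => (a5 J J' (S.wm 0) hJ d).trans (pow_le_pow_right₀ (one_rt ..) ?_),
    fun d hd => ⟨a6 d hd _ (by dsimp only; omega), le_trans (le_self_pow₀ (h.Pw1 ..) two_ne_zero)
      (a6 d hd J (by have := a7 J (S.wm 0); omega))⟩⟩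
  have := Nat.mul_le_mul_left (3 * C' + 2) hd
  dsimp only at *
  omega

end Pool.Agent.Lib.MP_7f377f_mp.RG.Q4.En.Gl
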