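import Pool.Agent.Lib.MP_7f377f_mp.G.KzK3
import Pool.Agent.Lib.MP_7f377f_mp.G.KzK4
import Pool.Agent.Lib.MP_7f377f_mp.G.KzK6
import Pool.Agent.Lib.MP_7f377f_mp.G.KzN5
import Pool.Agent.Lib.MP_7f377f_mp.G.KzF2

/-! The numbers of the charts. -/

noncomputable section

set_option linter.unusedSectionVars false
variable [Pool.Agent.Lib.MP_7f377f_mp.GD]

namespace Pool.Agent.Lib.MP_7f377f_mp.RG.Q4.En.Gl

open Finset Real Filter Tl Kz YM7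
open Zg (V0 Og)

variable {G : Gl} {β : ℕ × ℕ → ℝ} {f f' : ℕ → ℝ}

namespace Ok

variable (h : G.Ok)
include h

theorem pb_add (a : G.PbL f) (a' : G.PbL f') : G.PbL fun k => f k + f' k :=
  let ⟨i, e⟩ := a
  let ⟨i', e'⟩ := a'
  ⟨i + i' + 1, (e.and e').mono fun k c => by
    have l := h.L1 k
    have x : (G.L k : ℝ) ^ i ≤ G.L k ^ (i + i') := pow_le_pow_right₀ (by linarith) (by omega)
    have y : (G.L k : ℝ) ^ i' ≤ G.L k ^ (i + i') := pow_le_pow_right₀ (by linarith) (by omega)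
    have := abs_add_le (f k) (f' k)
    rw [pow_succ]
    nlinarith [c.1, c.2, abs_nonneg (f k)]⟩

theorem pb_sh (a : G.PbL f) : G.PbL fun k => f (k + 1) :=
  let ⟨i, e⟩ := a
  ⟨2 * i, ((tendsto_add_atTop_nat 1).eventually e).mono fun k c => c.trans <| by
    have : (G.L (k + 1) : ℝ) ≤ 3 * G.L k := by exact_mod_cast h.L_succ k
    rw [pow_mul]
    gcongr
    nlinarith [h.L1 k]⟩

theorem pb_Xr (C : ℕ) : G.PbL (G.Xr C) :=
  ⟨1, (h.XrL C 1).mono fun k a => by rwa [abs_of_nonneg (zero_le_one.trans (h.Xr1 C k)), pow_one,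
    ← pow_one (G.Xr C k)]⟩

theorem pb_rw (w : ℕ) : G.PbL fun k => G.rt (k + w) k := by
  induction w with
  | zero => simpa [rt_top] using h.pb_c 1
  | succ w ih =>
    have : (fun k => (G.rt (k + (w + 1)) k : ℝ)) = fun k => (G.L k : ℝ) ^ 1 * G.rt (k + 1 + w) (k + 1) :=
      funext fun k => by rw [h.rt_step (by omega), pow_one, add_right_comm, add_assoc, Nat.cast_mul]
    exact this ▸ (pb_L 1).mul (h.pb_sh ih)

theorem pb_two (a : G.PbL f) (j : ℕ) : ∀ᶠ k in atTop, f k ≤ 2 ^ (k - j) :=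
  let ⟨i, e⟩ := a
  (e.and (h.two_ev j i 1)).mono fun k c => (le_abs_self _).trans (c.1.trans (by simpa using c.2.2))

theorem far_le {c J k : ℕ} (e : G.K0 + 2 ≤ c) :
    ((22 * (G.L k * G.sJ J k) : ℕ) : ℝ) ≤ (G.L k : ℝ) ^ c * G.rt J k := by
  have l := h.L1 k
  refine le_trans ?_ (mul_le_mul_of_nonneg_right (pow_le_pow_right₀ (by linarith) e) (by positivity))
  rw [sJ]
  push_cast
  calc _ = G.L k ^ G.K0 * (22 * G.L k) * (G.rt J k : ℝ) := by ring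
    _ ≤ G.L k ^ G.K0 * G.L k ^ 2 * (G.rt J k : ℝ) := by gcongr; nlinarith
    _ = _ := by ring

theorem vol_ge {W J k : ℕ} (e : k ≤ J) (b : (G.L k : ℝ) ^ W ≤ G.bb k) :
    100 * (G.L k : ℝ) ^ W * G.rt J k ≤ G.N J := by
  obtain ⟨-, a, c⟩ := h.vol k
  rw [← h.rt_N e, ← a, mul_comm]
  push_cast
  gcongr
  exacts [by linarith [h.L1 k], b.trans c]

theorem pb_ow (𝒜 : Set CM) [Og 𝒜] [Adj 𝒜] (s c w : ℕ) :
    G.PbL fun k => kV 𝒜 s * G.L k * G.L k ^ c * (G.rt (k + w) k : ℝ) ^ (s + 2) := by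
  simpa only [pow_one] using (((h.pb_c _).mul (pb_L 1)).mul (pb_L c)).mul ((h.pb_rw w).pow _)

theorem ow_ev (𝒜 : Set CM) [Og 𝒜] [Adj 𝒜] (s c w : ℕ) : ∃ a : ℕ, ∀ᶠ k in atTop,
    ∀ C A n R N e M δ K v J J', (G.kd β s C A n R c N w e M δ K v J J' k).Ow 𝒜 ≤ (G.L k : ℝ) ^ a :=
  (h.pb_ow 𝒜 s c w).imp fun _ a => a.mono fun _ a _ _ _ _ _ _ _ _ _ _ _ _ => (le_abs_self _).trans a

end Ok

theorem Oks.ok2 (o : G.Oks) (𝒜 : Set CM) [Og 𝒜] [Adj 𝒜] {s d Np Rp C0 m c₁ c₂ : ℕ}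
    {np : Fin Np → ℕ} {Pp : Fin Np → Pl} {δp Kp M0 : ℝ} (pr : Prb s d np Pp Rp δp Kp M0 C0)
    (hm : 2 ≤ m) (C A n R c : ℕ) (M δ K : ℝ) (h₁ : G.K0 + 2 ≤ c₁) (h₂ : G.K0 + 2 ≤ c₂) (N W : ℕ) :
    ∃ (j n0 : ℕ) (X ε' : ℕ → ℝ), ∀ᶠ N₁ in atTop, ∀ w e, N₁ ≤ e → ∃ X' : ℕ → ℝ, ∀ᶠ k in atTop,
      ∀ J J' v, let P := G.kd β s C A n R c N₁ w e M δ K v J J' k
        P.Ok 𝒜 → (∀ i ≤ m, ∀ (x : Fin i → St) (e : Fin i → V0 𝒜), (∀ a, e a ∈ Vp 𝒜 P.s) →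
          (∀ a a', a ≠ a' → Ds ((G.L k : ℝ) ^ c₁ * P.G.rt P.J' P.k) ((G.L k : ℝ) ^ W * P.G.rt P.J' P.k)
            (x a) (x a')) →
          |Kz.cL (Fi.tr haar) P.b (P.G.N P.J) (fun a => P.G.zL 𝒜 P.b P.J P.k (e a))
            (fun a => P.G.tk (x a) P.J' P.J) - Kz.fq (P.G.rt P.J' P.k) e x| ≤
              ((G.L k : ℝ) ^ N)⁻¹ / 2 * ∏ a, ‖e a‖) →
        (∀ x ∈ P.G.Gs P.J' P.k, ∀ z : St, Ds ((G.L k : ℝ) ^ c₂ * P.G.rt P.J' P.k)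
          (2 * (G.L k : ℝ) ^ c₂ * P.G.rt P.J' P.k) x ((P.G.rt P.J' P.k : ℤ) • z) →
          ∀ e ∈ Vp 𝒜 P.s, ∀ y, 0 ≤ y →
            (∀ Q ∈ G.prS (s + 1) C (k + 1) np Pp, |P.sq 𝒜 Rp x Q z e| ≤ y) →
              ‖e‖ ≤ (G.L k : ℝ) ^ c₁ * y) →
        P.Ok2 𝒜 m j n0 (s + 1) Rp δp ((G.L k : ℝ) ^ c₁) ((G.L k : ℝ) ^ W) ((G.L k : ℝ) ^ c₂)
          ((G.L k : ℝ) ^ N)⁻¹ (ε' k) (X k) (X' k) (G.prS (s + 1) C (k + 1) np Pp) := by
  have h := (o 0).1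
  obtain ⟨j, hj⟩ := (h.c_ev (1000 * 3 ^ m : ℕ)).exists
  have q (i : ℕ) : G.PbL fun k => G.QA (A + 1) k ^ i := (pb_L _).pow i
  set X₁ := fun k => G.QA (A + 1) k ^ 347 * (kV 𝒜 s * (G.L k : ℝ) ^ c)
  set X₂ := fun k => 4 * (G.QA (A + 1) k ^ 340 * (Kp * (8 * GD.cG * G.Xr C k) ^ d))
  have pX : G.PbL fun k => X₁ k + X₂ (k + 1) := h.pb_add ((q _).mul ((h.pb_c _).mul (pb_L _)))
    (h.pb_sh ((h.pb_c _).mul ((q _).mul ((h.pb_c _).mul (((h.pb_c _).mul (h.pb_Xr C)).pow d)))))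
  have pY (i : ℕ) : G.PbL fun k => 18 * (G.L k : ℝ) ^ N * (kH i (G.Q j) *
      (G.QA (A + 1) (k + 1) ^ 52 * (X₁ k + X₂ (k + 1))) ^ i) :=
    ((h.pb_c _).mul (pb_L N)).mul ((h.pb_c _).mul (((h.pb_sh (q _)).mul pX).pow i))
  choose a ha using id pY
  refine ⟨j, (range (m + 1)).sup a + 1, fun k => X₁ k + X₂ (k + 1),
    fun k => 3 / (G.L k : ℝ) ^ (6 * ((range (m + 1)).sup a + 1)), ?_⟩
  generalize hn : (range (m + 1)).sup a + 1 = n0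
  filter_upwards [eventually_ge_atTop (G.K * 62 + 9 * n0 + 1)] with N₁ hN w e he
  set O := fun k => G.QA (A + 1) k ^ 347 *
    (kV 𝒜 s * G.L k * G.L k ^ c * (G.rt (k + w) k : ℝ) ^ (s + 2))
  have pZ (i : ℕ) : G.PbL fun k => 6 * (G.L k : ℝ) ^ N * (G.kD j i *
      (G.Q k ^ 50 * (X₁ k + X₂ (k + 1) + O k)) ^ i) := ((h.pb_c _).mul (pb_L N)).mul ((h.pb_c _).mul
    ((((pb_L _).pow _).mul (h.pb_add pX ((q _).mul (h.pb_ow 𝒜 s c w)))).pow i))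
  refine ⟨fun k => X₁ k + X₂ (k + 1) + O k, ?_⟩
  filter_upwards [h.bb_ev W, h.pb_two (h.pb_add (h.pb_add (pb_L W) ((h.pb_c 2).mul (pb_L c₂)))
    (h.pb_c 1)) j, h.gs_sh (Fin m), eventually_gt_atTop j, h.lg_ev j n0,
    h.exp_ev (G.K * 100 + N₁) (2 ^ (m + 1)), h.c_ev (4 * (m + 1)),
    (eventually_all_finset (range (m + 1))).2 fun i _ =>
      (ha i).and ((h.pb_two (pY i) j).and (h.pb_two (pZ i) j)),
    (tendsto_add_atTop_nat 1).eventually (h.tj_ev (s + 1) Rp pr.δ0)]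
    with k a1 a2 a3 a4 a5 a6 a7 a8 a9 J J' v P H gau p3
  have g := H.xh.ok
  have kJ : k ≤ J' := (H.xh.lt.le.trans (by linarith [H.xh.hi])).trans H.xh.le
  have l : (1000 : ℝ) ≤ G.L k := h.L1 k
  have l1 : (1 : ℝ) ≤ G.L k := by linarith
  have l0 : (0 : ℝ) < G.L k := by linarith
  have kv : 0 < kV 𝒜 s := one_pos.trans_le (ex_kV 𝒜 s).choose_spec.1
  have q0 (i : ℕ) : 0 < G.QA (A + 1) i := h.QA0 _ i
  have cG := GD.cG_pos
  have cG1 := GD.cG_ge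
  have K0 := pr.K0
  have r1 : 1 ≤ G.Xr C (k + 1) := h.Xr1 ..
  have x1 : 0 < X₁ k := by have := q0 k; positivity
  have x2 : 0 < X₂ (k + 1) := by have := q0 (k + 1); positivity
  have x3 : 0 ≤ O k := by have := q0 k; positivity
  have p0 : (0 : ℝ) < G.L k ^ (6 * n0) := by positivity
  refine ⟨H, hm, H.xh.t'.b0, g.far_le h₁, one_le_pow₀ l1, one_le_pow₀ l1, g.far_le h₂,
    g.vol_ge kJ a1, ?_, a3 J' kJ,
    (H.fw.fr 0 gs_zero 1 le_rfl (by omega)).J1.1.trans (g.lR_le _),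
    (H.fw'.fr 0 gs_zero 1 le_rfl (by omega)).J1.1.trans (g.lR_le _), Nat.cast_le.1 hj, a4, a5,
    inv_anti₀ (by positivity) (pow_le_pow_right₀ l1 he), ?_, ?_, ?_, add_pos x1 x2,
    le_add_of_nonneg_right x2.le, le_add_of_nonneg_left (add_pos x1 x2).le,
    le_add_of_nonneg_right x3, fun i hi => ?_, gau, a9, fun g _ => prS_act g, ?_, p3⟩
  · rw [g.rt_rt a4.le kJ, abs_of_pos (pow_pos l0 _), mul_comm, Nat.cast_mul]
    exact mul_le_mul_of_nonneg_left (a2.trans (h.two_rt a4.le)) (by positivity)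
  · refine (le_inv_mul_iff₀ (pow_pos l0 N₁)).2 ?_ |>.trans_eq (mul_one _)
    refine le_trans (le_of_eq ?_) a6
    change _ * (_ * ((G.L k : ℝ) ^ G.K) ^ 100 * exp (2 - G.L k)) =
      _ * (G.L k : ℝ) ^ (G.K * 100 + N₁) * exp (2 - G.L k)
    ring
  · change 4 * (m + 1) * ((G.L k : ℝ) ^ G.K) ^ 62 * (G.L k : ℝ) ^ (3 * n0) * ((G.L k : ℝ) ^ N₁)⁻¹ +
      2 / (G.L k : ℝ) ^ (6 * n0) ≤ 3 / (G.L k : ℝ) ^ (6 * n0)
    rw [← le_sub_iff_add_le, ← sub_div, ← div_eq_mul_inv, div_le_div_iff₀ (by positivity) p0]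
    calc _ ≤ G.L k * ((G.L k : ℝ) ^ G.K) ^ 62 * (G.L k : ℝ) ^ (3 * n0) * G.L k ^ (6 * n0) := by
          gcongr; exact a7
      _ = (G.L k : ℝ) ^ (G.K * 62 + 9 * n0 + 1) := by ring
      _ ≤ _ := by norm_num; exact pow_le_pow_right₀ l1 hN
  · rw [div_lt_one p0]
    exact lt_of_lt_of_le (by linarith) (le_self_pow₀ l1 (by omega))
  · obtain ⟨b1, b2, b3⟩ := a8 i (mem_range.2 (by omega))
    replace b1 := (le_abs_self _).trans (b1.trans (pow_le_pow_right₀ l1 (show _ ≤ 6 * n0 by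
      have : a i ≤ (range (m + 1)).sup a := le_sup (mem_range.2 (Nat.lt_succ_of_le hi)); omega)))
    change kH i (G.Q j) * (3 / (G.L k : ℝ) ^ (6 * n0) + (2 ^ (k - j))⁻¹) * (G.QA (A + 1) (k + 1) ^ 52 *
      (X₁ k + X₂ (k + 1))) ^ i + G.kD j i * (2 ^ (k - j))⁻¹ *
        (G.Q k ^ 50 * (X₁ k + X₂ (k + 1) + O k)) ^ i ≤ ((G.L k : ℝ) ^ N)⁻¹ / 2
    have t0 : (0 : ℝ) < 2 ^ (k - j) := by positivity
    have u0 : (0 : ℝ) < G.L k ^ N := by positivity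
    generalize (G.QA (A + 1) (k + 1) ^ 52 * (X₁ k + X₂ (k + 1))) ^ i = y at *
    generalize (G.Q k ^ 50 * (X₁ k + X₂ (k + 1) + O k)) ^ i = z at *
    generalize (G.L k : ℝ) ^ (6 * n0) = p at *
    generalize (2 : ℝ) ^ (k - j) = t at *
    generalize (G.L k : ℝ) ^ N = u at *
    rw [← div_le_one p0] at b1
    rw [← div_le_one t0] at b2 b3
    refine le_of_mul_le_mul_left (a := 18 * u) ?_ (by positivity)
    calc _ = 3 * (18 * u * (kH i (G.Q j) * y) / p) + 18 * u * (kH i (G.Q j) * y) / t +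
          3 * (6 * u * (G.kD j i * z) / t) := by ring
      _ ≤ 9 := by linarith
      _ = _ := by field_simp; norm_num
  · rintro _ ⟨g', b, rfl⟩
    obtain ⟨-, b1, b2, b3, -⟩ := pr.gl b
    have k0 := h.ka0 (s + 1) C (k + 1)
    refine ⟨by rw [Tl.Rl, cj_smul, b1.act g']; simp, np b, _, b2, ?_, fun g => by
      simpa only [map_smul, act_mul] using (pr.top b (g * g')).smul _⟩
    refine le_trans ?_ (le_add_of_nonneg_left x1.le)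
    change 4 * (G.QA (A + 1) (k + 1) ^ 340 * (_ * (4 * G.lH (s + 1) (k + 1)) ^ _)) ≤ 4 * _
    refine mul_le_mul_of_nonneg_left (mul_le_mul_of_nonneg_left ?_ (pow_pos (q0 _) _).le) four_pos.le
    rw [norm_inv, norm_pow, Complex.norm_real, norm_of_nonneg (r := G.ka _ _ _) k0.le, mul_right_comm,
      mul_comm, ← inv_pow, ← mul_pow]
    refine mul_le_mul_of_nonneg_left (le_trans (le_of_eq ?_) (pow_le_pow_right₀ (by nlinarith) b3)) K0.le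
    have : 0 < G.lH (s + 1) (k + 1) := h.lH0 ..
    rw [ka]
    congr 1
    field_simp
    norm_num

end Pool.Agent.Lib.MP_7f377f_mp.RG.Q4.En.Gl
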