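import Pool.Agent.Lib.MP_7f377f_mp.G.KzL
import Pool.Agent.Lib.MP_7f377f_mp.G.JuT6
import Pool.Agent.Lib.MP_7f377f_mp.G.JtZ
import Pool.Agent.Lib.MP_7f377f_mp.G.KwL

/-! The leading symbols of the letters. -/

noncomputable section

set_option linter.unusedSectionVars false
variable [Pool.Agent.Lib.MP_7f377f_mp.GD]

namespace Pool.Agent.Lib.MP_7f377f_mp.RG.Tl

open Finset MvPolynomial Wd Q4 Q4.En Ju Jt Submodule
open Zf (Jx)
open Zg (V0 Og r0)

attribute [local irreducible] box lbox sec eo Lo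

/-- restriction to the solutions -/
def rO (s : ℕ) : Cp (Ia s) →ₐ[ℂ] Cp Oi :=
  aeval fun q => q.1.elim (fun b => X (⟨b.1, b.2⟩, q.2)) fun _ => 0

/-- the leading symbol of `lf f` -/
def sl (s : ℕ) (f : Jx → Lp →₀ ℝ) : Cp Jx →ₐ[ℂ] Cp (Ia s) := aeval fun q =>
  ∑ a with dI a = q.1.1, (fl (f q.1) (s0 s (Pi.single a 1)) : ℂ) • X (a, q.2)

/-- the letter `L c` has the leading symbol `c` on shell -/
structure Rz {𝒜 : Set CM} [Og 𝒜] (L : V0 𝒜 →ₗ[ℝ] Pl) : Prop where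
  gm : Gm L
  low : ∀ s m c, 2 ≤ s → Zf.Hm c.1 m → sm (s0 s) (L c) ∈ Lo wt m
  lead : ∀ s m c, 2 ≤ s → m ≤ s + 2 → Zf.Hm c.1 m →
    rO s (cp (wC wt) m (sm (s0 s) (L c))) = tO (cx c.1)

variable {s m n : ℕ} {f : Jx → Lp →₀ ℝ} {r : Jx → Jx →₀ ℝ} {c : Cp Jx}

theorem zr_iff {P : Cp (Ia s)} : Zr (cA s) P ↔ rO s P = 0 := by
  have e : ∀ y, eval y (rO s P) =
      eval (fun q => q.1.elim (fun b => y (⟨b.1, b.2⟩, q.2)) fun _ => 0) P := fun y =>
    (ev_alg _ _ _).trans (congrArg (eval · P) (funext fun ⟨a, k⟩ => by cases a <;> simp [rO]))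
  refine ⟨fun h => MvPolynomial.funext fun y => (e y).trans (h _ ?_), fun h x hx => ?_⟩
  · rintro _ ⟨k, rfl⟩ _
    rfl
  · have := e fun q => if h : q.1.1 < s + 1 then x (.inl ⟨⟨_, h⟩, q.1.2⟩, q.2) else 0
    rw [h, map_zero] at this
    refine Eq.trans (congrArg (eval · P) (funext fun ⟨a, k⟩ => ?_)) this.symm
    rcases a with b | b
    exacts [by simp only [Sum.elim_inl, dif_pos b.1.2], hx _ ⟨b, rfl⟩ k]

section
variable {α : Type} [Fintype α] [DecidableEq α] {w : α → ℕ} {P Q : Cp α}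

theorem lo_iff : P ∈ Lo w m ↔ ∀ γ ∈ P.support, m ≤ Finsupp.weight (wC w) γ := by
  simp only [mem_Lo, MvPolynomial.ext_iff, coeff_weightedHomogeneousComponent, coeff_zero,
    mem_support_iff]
  exact ⟨fun h γ z => not_lt.1 fun k => z (by simpa using h _ k γ), fun h j hj γ =>
    ite_eq_right_iff.2 fun e => by_contra fun z => (h γ z).not_gt (e ▸ hj)⟩

theorem lo_mul (h : P ∈ Lo w m) (h' : Q ∈ Lo w n) : P * Q ∈ Lo w (m + n) := lo_iff.2 fun γ z => by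
  classical
  obtain ⟨a, ha, b, hb, rfl⟩ := mem_add.1 (support_mul P Q z)
  exact map_add (Finsupp.weight (wC w)) a b ▸ add_le_add (lo_iff.1 h a ha) (lo_iff.1 h' b hb)

theorem lo_mono (h : P ∈ Lo w m) (e : n ≤ m) : P ∈ Lo w n :=
  mem_Lo.2 fun j hj => mem_Lo.1 h j (hj.trans_le e)

theorem lo_hom (h : P.IsWeightedHomogeneous (wC w) m) : P ∈ Lo w m :=
  lo_iff.2 fun _ z => (h (mem_support_iff.1 z)).ge

theorem lo_alg {σ : Type} {v : σ → ℕ} {φ ψ : MvPolynomial σ ℂ →ₐ[ℂ] Cp α}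
    (h1 : ∀ p, (ψ (X p)).IsWeightedHomogeneous (wC w) (v p))
    (h2 : ∀ p, φ (X p) - ψ (X p) ∈ Lo w (v p + 1)) {c : MvPolynomial σ ℂ}
    (hc : c.IsWeightedHomogeneous v m) : φ c - ψ c ∈ Lo w (m + 1) := by
  classical
  rw [c.as_sum, map_sum, map_sum, ← sum_sub_distrib]
  refine sum_mem fun γ hγ => ?_
  obtain ⟨E, q1, q2⟩ : ∃ E, (monomial γ (coeff γ c)).IsWeightedHomogeneous v E ∧
      φ (monomial γ (coeff γ c)) - ψ (monomial γ (coeff γ c)) ∈ Lo w (E + 1) := by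
    refine induction_on_monomial (motive := fun p => ∃ E, p.IsWeightedHomogeneous v E ∧
      φ p - ψ p ∈ Lo w (E + 1)) (fun a => ⟨0, isWeightedHomogeneous_C _ _, by simp⟩)
      (fun p q ⟨E, q1, q2⟩ => ⟨_, q1.mul (isWeightedHomogeneous_X ℂ v q), ?_⟩) _ _
    rw [map_mul, map_mul, show ∀ a b c d : Cp α, a * b - c * d = (a - c) * (b - d + d) +
      c * (b - d) from fun _ _ _ _ => by ring]
    exact add_mem (lo_mono (lo_mul q2 (add_mem (lo_mono (h2 q) (Nat.le_succ _)) (lo_hom (h1 q))))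
      (by omega)) (lo_mono (lo_mul (lo_hom (hom_alg h1 q1)) (h2 q)) (by omega))
  exact lo_mono q2 (Nat.succ_le_succ ((hc (mem_support_iff.1 hγ)).symm.trans (q1 (d := γ) (by
    rw [coeff_monomial, if_pos rfl]; exact mem_support_iff.1 hγ))).le)

end

theorem sm_lw {α : Type} [Fintype α] [DecidableEq α] (p : (α → ℝ) →ₗ[ℝ] V) (g : Lp →₀ ℝ)
    (k : Fin GD.d) : sm p (lw g k) = ∑ a, (fl g (p (Pi.single a 1)) : ℂ) • X (a, k) := by
  simp only [lw, sm, Finsupp.sum, map_sum, map_smul, aeval_X, smul_sum, smul_smul, fl_ap,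
    Complex.ofReal_sum, Complex.ofReal_mul, sum_smul]
  exact sum_comm

theorem s0_Pd (hs : 2 ≤ s) (a : Ia s) : s0 s (Pi.single a 1) ∈ Pd (dI a + 2) :=
  let ⟨_, ht⟩ := sc_zero 1 s (K0_ge s)
  (lv0.sec_mem ht hs (dI_le hs a) (mem_Fk.1 (single_Fk a))).1

theorem sl_hom (p : Jx × Fin GD.d) :
    (sl s f (X p)).IsWeightedHomogeneous (wC wt) (Zf.wt p) := by
  rw [sl, aeval_X]
  refine .sum _ _ _ fun a ha => ?_
  rw [show Zf.wt p = wt a by rw [Zf.wt, Jt.wt, (mem_filter.1 ha).2, add_comm]]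
  exact smul_mem (weightedHomogeneousSubmodule ℂ _ _) _ (isWeightedHomogeneous_X ℂ _ (a, p.2))

theorem lf_sl (hs : 2 ≤ s) (h : ∀ I, Lj I.1 (f I) (r I)) (hc : Zf.Hm c m) :
    sm (s0 s) (lf f c) - sl s f c ∈ Lo wt (m + 1) := by
  refine lo_alg (φ := (sm (s0 s)).comp (lf f)) sl_hom (fun p => ?_) hc
  rw [AlgHom.comp_apply, lf, aeval_X, sm_lw, sl, aeval_X, sum_filter, ← sum_sub_distrib]
  refine sum_mem fun a _ => ?_
  rcases lt_trichotomy (dI a) p.1.1 with e | e | e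
  · simp [e.ne, (h p.1).low _ (Pd_mono (by omega) (s0_Pd hs a))]
  · simp [e]
  · rw [if_neg e.ne', sub_zero]
    exact smul_mem _ _ (lo_mono (lo_hom (isWeightedHomogeneous_X ℂ _ _)) (by
      simp only [wC, Jt.wt, Zf.wt]; omega))

theorem lf_low (hs : 2 ≤ s) (h : ∀ I, Lj I.1 (f I) (r I)) (hc : Zf.Hm c m) :
    sm (s0 s) (lf f c) ∈ Lo wt m := by
  simpa using add_mem (lo_mono (lf_sl hs h hc) m.le_succ) (lo_hom (hom_alg (sl_hom (f := f)) hc))

theorem fl_s0 (hs : 2 ≤ s) {g : Lp →₀ ℝ} {t : Jx →₀ ℝ} (b : On s) (h : Lj b.1 g t) :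
    fl g (s0 s (Pi.single (.inl b) 1)) = t.sum fun J u => u * jI J (eo b.1 b.2) := by
  obtain ⟨_, ht⟩ := sc_zero 1 s (K0_ge s)
  have e : ∀ a : V, Kw.mx a = Mo 1 m0 a := fun a => funext fun e => by
    rw [Mo_m0 le_rfl, Kw.mx_ap, cu_eq]
  rw [h.lead.eq _ (s0_Pd hs (.inl b)) ((e _).trans (lv0.sec_on ht hs fun k => by simp)),
    Finsupp.linearCombination_apply]
  refine Finsupp.sum_congr fun J hJ => ?_
  have := lv0.jx_sec (I := J) ht hs (.inl b) (h.lead.ord J hJ).ge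
  rw [mul_zero, mul_zero, abs_nonpos_iff, sub_eq_zero] at this
  rw [smul_eq_mul, fq_jx, jI, fq_jx, this]
  congr 1
  change jx J (p0 s (rl s _) + Gp s (pT (rr s _))) = _
  rw [show rr s (Pi.single (.inl b) 1) = 0 from funext fun i => by simp [rr, LinearMap.funLeft_apply],
    show rl s (Pi.single (.inl b) 1) = Pi.single b 1 from funext fun i => by
      simp [rl, LinearMap.funLeft_apply, Pi.single_apply]]
  simp [p0_ap, Pi.single_apply]

theorem lf_lead (hs : 2 ≤ s) (hm : m ≤ s + 2) (h : ∀ I, Lj I.1 (f I) (r I)) (hc : Zf.Hm c m) :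
    rO s (cp (wC wt) m (sm (s0 s) (lf f c))) = tO (sb r c) := by
  rw [← sub_add_cancel (sm _ _) (sl s f c), map_add, mem_Lo.1 (lf_sl hs h hc) m m.lt_succ_self,
    zero_add, weightedHomogeneousComponent_of_mem (hom_alg sl_hom hc), if_pos rfl]
  refine hom_congr_vars (f₁ := ((rO s).comp (sl s f)).toRingHom) (f₂ := (tO.comp (sb r)).toRingHom)
    (by ext; simp) (fun ⟨⟨n, I⟩, k⟩ hp _ => ?_) rfl
  obtain ⟨γ, a, b⟩ := (mem_vars _).1 hp
  have hn : n + 2 ≤ m := hc (mem_support_iff.1 a) ▸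
    Finsupp.le_weight_of_ne_zero' Zf.wt (Finsupp.mem_support_iff.1 b)
  obtain ⟨i, rfl⟩ : ∃ i : Fin (s + 1), i = n := ⟨⟨n, by omega⟩, rfl⟩
  change rO s (sl s f (X _)) = tO (sb r (X _))
  simp only [sl, sb, rO, aeval_X, map_sum, map_smul, Finsupp.sum, tO]
  rw [sum_filter, Fintype.sum_sum_type]
  simp only [Sum.elim_inl, Sum.elim_inr, smul_zero, ite_self, sum_const_zero, add_zero,
    Fintype.sum_sigma, dI, Fin.val_inj, sum_ite_irrel, sum_ite_eq', mem_univ, if_true]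
  simp only [fun k => fl_s0 hs ⟨i, k⟩ (h ⟨i, I⟩), Finsupp.sum, Complex.ofReal_sum, sum_smul]
  rw [sum_comm]
  refine sum_congr rfl fun ⟨j, J⟩ hJ => ?_
  obtain rfl : j = i := (h _).lead.ord _ hJ
  simp only [smul_sum, smul_smul, Complex.ofReal_mul]

theorem sb_one (c : Cp Jx) : sb (fun I => .single I 1) c = c :=
  AlgHom.congr_fun (φ₂ := AlgHom.id ℂ _) (algHom_ext fun p => by simp [sb]) c

theorem sb_rJ (M : Matrix (Fin 4) (Fin 4) ℝ) (c : Zf.Lb GD.d ℝ) :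
    sb (rJ M) (cx c) = cx (Zf.rh M c) := by
  induction c using MvPolynomial.induction_on with
  | C a => simp
  | add p q a b => simp only [map_add, a, b]
  | mul_X p q a =>
    rw [map_mul, map_mul, map_mul, map_mul, a, map_X, sb, aeval_X, rJ, Zf.rh_X,
      ← Finsupp.sum_finset_sum_index (by simp) (by simp [add_smul])]
    simp [smul_eq_C_mul]

theorem hm_cx {c : Zf.Lb GD.d ℝ} (h : Zf.Hm c m) : Zf.Hm (cx c) m :=
  fun γ hγ => h fun e => hγ (by rw [coeff_map, e, map_zero])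

variable {𝒜 : Set CM} [Og 𝒜] [Adj 𝒜]

theorem rz_ls : Rz (ls 𝒜) := ⟨gm_ls, fun _ _ _ hs h => lf_low hs lj_jo (hm_cx h),
  fun _ _ _ hs hm h => (lf_lead hs hm lj_jo (hm_cx h)).trans (by rw [sb_one])⟩

theorem rz_lg (g : B4) : Rz (lg 𝒜 g) := by
  refine ⟨gm_lg g, fun _ _ c hs h => ?_, fun _ _ c hs hm h => ?_⟩ <;> rw [lg_ap, ls_ap, act_lf]
  · exact lf_low hs (lj_ga g) (hm_cx (Zf.hm_rh _ h))
  · refine (lf_lead hs hm (lj_ga g) (hm_cx (Zf.hm_rh _ h))).trans ?_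
    rw [sb_rJ]
    change tO (cx (r0 𝒜 (gI g) (r0 𝒜 (gI g⁻¹) c)).1) = _
    rw [← Module.End.mul_apply, ← map_mul, ← gI_mul, mul_inv_cancel, gI_one, map_one]
    rfl

theorem rz_lE : Rz (lE 𝒜) := by
  refine ⟨gm_lE, fun _ _ c hs h => ?_, fun _ _ c hs hm h => ?_⟩ <;>
    rw [lE_ap, ← Complex.coe_smul, map_smul, map_sum]
  · exact smul_mem _ _ (sum_mem fun g _ => (rz_lg g).low _ _ c hs h)
  · simp only [map_smul, map_sum, fun g => (rz_lg (𝒜 := 𝒜) g).lead _ _ c hs hm h, sum_const,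
      card_univ, ← Nat.cast_smul_eq_nsmul ℂ, smul_smul]
    simp

end Pool.Agent.Lib.MP_7f377f_mp.RG.Tl
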