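import Pool.Agent.Lib.MP_7f377f_mp.G.KzL2
import Pool.Agent.Lib.MP_7f377f_mp.G.ZgH

/-! The adjoint group. -/

variable [Pool.Agent.Lib.MP_7f377f_mp.GD]

namespace Pool.Agent.Lib.MP_7f377f_mp.RG.Tl

instance : Adj Zg.AdG := ⟨rfl⟩

end Pool.Agent.Lib.MP_7f377f_mp.RG.Tl
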