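import Pool.Agent.Lib.MP_7f377f_mp.G.JsT
import Pool.Agent.Lib.MP_7f377f_mp.G.JvY
import Pool.Agent.Lib.MP_7f377f_mp.G.JvG

/-! The image of a merged word in a frame of letters. -/

noncomputable section

set_option linter.unusedSectionVars false
variable [Pool.Agent.Lib.MP_7f377f_mp.GD]

namespace Pool.Agent.Lib.MP_7f377f_mp.RG.Q4.En

open Finset Real Cok Filter Tl Ju Sg Pos Mg
open scoped Classical

attribute [local irreducible] box lbox tb tau rc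

variable {α β : Type} [Fintype α] [DecidableEq α] [Fintype β]

namespace Gl

variable (G : Gl)

/-- the letter with the coefficients `t` has at the lowest level the same symbol as the activity
`H` which enters at the level `k` -/
def Im (w : α → ℕ) (d D C : ℕ) (c : ℕ → St) (b : ℝ) (J j : ℕ) (p : ℕ → (α → ℝ) →ₗ[ℝ] V)
    (n : β → ℕ) (X : β → Lq) (H : Ac) (k : ℕ) (t : β → ℂ) : Prop :=
  G.ys w d D C c b J j p (G.fl D C J n X t) j =
    G.zq w d D C J j p j (G.jF D c b J (0, 0, 0, H) k j)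

/-- an activity of size `θ` near the site `s` -/
def Ka (D k : ℕ) (s : St) (θ : ℝ) (H : Ac) : Prop :=
  0 < θ ∧ (∃ κ, KM (G.p k) (G.N k) κ H ∧ kN (G.pA (D + 7) k) (G.N k) κ θ) ∧
    KS (G.N k) s (G.L k * G.D0 k) H

/-- the weight at the level `i` of the rest of an activity of size `θ` at the level `k` -/
def wR (d D C k i : ℕ) (θ : ℝ) : ℝ := G.Pw d C i k / (G.rt k i : ℝ) ^ (d + 1) * (G.jW D k * θ)

variable {G} {w : α → ℕ} {b M δ K r θ : ℝ} {d D C J j k i R A : ℕ} {c c' v : ℕ → St}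
  {ω : ℕ → ℝ} {p : ℕ → (α → ℝ) →ₗ[ℝ] V} {l : ℕ → V →ₗ[ℝ] α → ℝ}
  {U U' : ℕ → Module.End ℝ (α → ℝ)} {n : β → ℕ} {X : β → Lq} {H H' : Ac} {t t' : β → ℂ}

namespace Fk

variable (F : G.Fk w d D C M c b J j ω p l U U' R δ K n X)
include F

theorem im_uniq (e : G.Im w d D C c b J j p n X H k t) (e' : G.Im w d D C c b J j p n X H k t') :
    t = t' := (F.eqv le_rfl F.T.hj.le).injective (Subtype.ext (by
  rw [F.eqv_val, F.eqv_val, e, e']))

/-- translated activities have the same image -/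
theorem im_trl (e : G.Im w d D C c b J j p n X H k t) (r : G.Trl c c' v j J) (h1 : j ≤ k)
    (h2 : k ≤ J) (u : ∀ o ∈ lps (box (G.N k / 2)), H' o.1 o.2 = trA (G.N k) (v k) H o.1 o.2) :
    G.Im w d D C c' b J j p n X H' k t := by
  rw [Im, F.T.ys_trl r _ le_rfl F.T.hj.le, e, zq, zq, (F.T.pt.jr r h2 (u := (0, 0, 0, H))
    (u' := (0, 0, 0, H')) ⟨fun _ => rfl, fun _ => rfl, rfl, u⟩ j le_rfl h1).2.2.1]

variable (h1 : j ≤ k) (h2 : k < J) (a : G.Ka D k (c k) θ H)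
include h1 h2 a

theorem im_ex : ∃ t, G.Im w d D C c b J j p n X H k t :=
  let ⟨θ0, ⟨_, k1, k2⟩, k3⟩ := a
  (F.cmpK le_rfl h1 h2 θ0 k1 k2 k3).imp fun _ e => e.1

/-- the size of the image -/
theorem im_le (e : G.Im w d D C c b J j p n X H k t) :
    ‖G.ys w d D C c b J j p (G.fl D C J n X t) k‖ ≤ 3 * (G.jW D k * θ) := by
  obtain ⟨θ0, ⟨_, k1, k2⟩, k3⟩ := a
  obtain ⟨t', e1, e2, -⟩ := F.cmpK le_rfl h1 h2 θ0 k1 k2 k3
  rwa [F.im_uniq e e1]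

/-- the activity minus its image is small at all lower levels -/
theorem im_sz (e : G.Im w d D C c b J j p n X H k t) (h3 : j ≤ i) (h4 : i ≤ k) (r0 : 0 ≤ r)
    (hr : G.QA A i ^ 345 * (r * G.wR d D C k i θ) ≤ 1) : G.SzA A i r (G.tn b J
      (G.tn b J (G.xv b J (G.jx J (c J) (-G.fl D C J n X t))) J k + (0, H)) k i) := by
  obtain ⟨θ0, ⟨_, k1, k2⟩, k3⟩ := a
  obtain ⟨t', e1, -, e2⟩ := F.cmpK le_rfl h1 h2 θ0 k1 k2 k3
  rw [F.im_uniq e e1]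
  exact F.T.ok.szA_of (e2 i h3 h4 _ rfl) r0 hr

end Fk

variable {γ Ω κ ι : Type} [Fintype γ] [DecidableEq γ] [DecidableEq Ω] [Fintype κ] [DecidableEq κ]
  [Inhabited κ] [Fintype ι] {S : Wx γ Ω κ ι} {σ : ℕ → Ω → κ → ℝ} {ρ : ℕ → ℝ} {m : ℕ → ℕ}
  {r' : ℕ → γ → ℝ} {c₀ d₀ : ℕ} {C₀ : ℝ}

/-- a merged word is an activity near any point of its support -/
theorem MxA.ka (M : G.MxA A b J k S c₀ d₀ C₀ m ρ σ r') (h : G.Ok) (t : G.Tu b J) (hp : G.Pu)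
    (hq : G.HP Sd.StA) (hA : D + 7 ≤ A) {o : Ω} (ho : o ∈ S.Om) {s : St}
    (e : ∃ x ∈ S.X0 o, nearT (G.N k) (G.L k * G.D0 k) s x) :
    G.Ka D k s (4 * (G.cMA A k c₀ C₀ / ∏ l, σ (k + 1) o l)) (G.wX b J k S o) := by
  obtain ⟨⟨κ, a1, a2⟩, a3⟩ := M.km h t hp hq ho
  obtain ⟨x, e1, e2⟩ := e
  exact ⟨mul_pos four_pos (div_pos (mul_pos (exp_pos _) (pow_pos (h.QA0 A k) _))
    (prod_pos fun l _ => (M.rad _ k.lt_succ_self M.lt).2.1 o l)), ⟨κ, a1, kN_AA a2 hA⟩,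
    fun Z a u => a3 Z a fun v => u x (v e1) e2⟩

end Gl

end Pool.Agent.Lib.MP_7f377f_mp.RG.Q4.En
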