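import Pool.Agent.Lib.MP_7f377f_mp.G.WyS
import Pool.Agent.Lib.MP_7f377f_mp.G.WyH

/-! Inputs which hold along the ultrafilter only. -/

noncomputable section

namespace Pool.Agent.Lib.MP_7f377f_mp.Wy
variable [Pool.Agent.Lib.MP_7f377f_mp.GD]
set_option linter.unusedSectionVars false

open MeasureTheory Filter Topology Set Real YM7 Weak L6 MvPolynomial Wv Function
open Wu (Z4)

variable [MeasurableSpace SU2] [BorelSpace SU2] {h : Measure SU2} [h.IsHaarMeasure]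
  [IsProbabilityMeasure h] {β γ V J : Type} {n : ℕ × ℕ → ℕ} [∀ p, NeZero (n p)] {a b : ℕ × ℕ → ℝ}
  {U : Ultrafilter (ℕ × ℕ)} {Q : ℕ × ℕ → β → Fz → ℝ} {r : Fin 4 → β → β} {A : ℕ → Set β}
  {w : ℕ → β → ℝ} {ℓ C : ℝ}

/-- bounds along `U` are enough -/
theorem EF.ofU {l : Filter (ℕ × ℕ)} (C0 : 0 ≤ C) (K : ℕ → ℝ) (hJ : ∀ᶠ J in atTop,
      (∃ lam : ℕ, a (0, J) * lam = ℓ ∧ ∀ᶠ s in hyperfilter ℕ, lam ∣ n (3 ^ s / 2, J)) ∧
      (A J).Finite ∧ (∀ μ, ∀ c ∈ A J, r μ c ∈ A J ∧ r μ (r μ c) = c ∧ w J (r μ c) = w J c) ∧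
      ∀ c ∈ A J, 0 < w J c)
    (hG : ∀ᶠ p in l, ∀ lam : ℕ, a (0, p.2) * lam = ℓ → Lt (Q p) r (A p.2) (lam / 10) (K p.2) ∧
      E0 h (b p) (n p) lam (Q p) (A p.2) (w p.2) C) :
    ∃ Q', EF h n a b Q' r A w ℓ C ∧ ∀ᶠ p in l, Q' p = Q p := by
  classical
  obtain ⟨G, G1, G2⟩ := hG.exists_mem
  refine ⟨fun p => if p ∈ G then Q p else 0, hJ.mono fun J ⟨⟨lam, e, d⟩, h1, h2, h3⟩ =>
    ⟨lam, e, h1, h2, h3, ⟨|K J|, .of_forall fun s => ?_⟩, d.mono fun s ⟨m, hm⟩ => ?_⟩,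
      mem_of_superset G1 fun p hp => if_pos hp⟩ <;> beta_reduce <;> split_ifs with u
  · have := (G2 _ u lam e).1
    exact ⟨this.cont, this.dep, this.rf, fun c hc W => (this.bd c hc W).trans (le_abs_self _)⟩
  · exact ⟨fun _ _ => continuous_const, fun _ _ _ _ _ => rfl, fun _ _ _ _ => rfl,
      fun _ _ _ => by simp⟩
  · exact (G2 _ u lam e).2
  · refine ⟨m, hm.trans (mul_comm _ _), fun t σ hσ => ?_⟩
    rcases t.eq_empty_or_nonempty with rfl | ⟨x, hx⟩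
    · simpa using mul_nonneg C0 (by positivity)
    · simp only [Pi.zero_apply, Finset.prod_eq_zero (f := fun _ => (0 : ℝ)) hx rfl, integral_zero,
        abs_zero]
      exact mul_nonneg (exp_pos _).le (Finset.prod_nonneg fun x hx => (h3 _ (hσ x hx)).le)

/-- the letters `Y` and their mirror images -/
def Qf (Y : γ → Fz → ℝ) (q : γ × (Fin 4 → Bool)) (W : Fz) : ℝ :=
  Y q.1 (Wx.tw rz (fun μ => !q.2 μ) W)

/-- the reflections of the labels -/
def rq (μ : Fin 4) (q : γ × (Fin 4 → Bool)) : γ × (Fin 4 → Bool) := (q.1, update q.2 μ (!q.2 μ))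

theorem Qf_rq (Y : γ → Fz → ℝ) (μ q W) : Qf Y (rq μ q) W = Qf Y q (rz μ W) := by
  refine congrArg (Y q.1) ?_
  rw [tw_θ inv4_rz, Wx.θ_tw inv4_rz]
  exact congrArg (Wx.tw rz · W) (funext fun ν => by by_cases u : ν = μ <;> simp [rq, u])

/-- the alphabet generated by the letters `Y p c`, `c ∈ B p.2` -/
theorem EF.free {l : Filter (ℕ × ℕ)} {Y : ℕ × ℕ → γ → Fz → ℝ} {B : ℕ → Set γ} {w : ℕ → γ → ℝ}
    (C0 : 0 ≤ C) (K : ℕ → ℝ) (hJ : ∀ᶠ J in atTop,
      (∃ lam : ℕ, a (0, J) * lam = ℓ ∧ ∀ᶠ s in hyperfilter ℕ, lam ∣ n (3 ^ s / 2, J)) ∧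
      (B J).Finite ∧ ∀ c ∈ B J, 0 < w J c)
    (hG : ∀ᶠ p in l, ∀ lam : ℕ, a (0, p.2) * lam = ℓ → (∀ c ∈ B p.2, Continuous (Y p c) ∧
      (∃ R : ℕ, R + 4 ≤ lam / 10 ∧ DependsOn (Y p c) {l | ∀ i, |l.1 i| ≤ R}) ∧
        ∀ W, |Y p c W| ≤ K p.2) ∧
      E0 h (b p) (n p) lam (Qf (Y p)) (B p.2 ×ˢ univ) (fun q => w p.2 q.1) C) :
    ∃ Q, EF h n a b Q rq (fun J => B J ×ˢ univ) (fun J q => w J q.1) ℓ C ∧
      ∀ᶠ p in l, ∀ c, Q p (c, fun _ => false) = Y p c := by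
  obtain ⟨Q, h1, h2⟩ := EF.ofU (Q := fun p => Qf (Y p)) (r := rq) (A := fun J => B J ×ˢ univ)
    (w := fun J q => w J q.1) C0 K (hJ.mono fun J e => ⟨e.1, e.2.1.prod finite_univ,
      fun μ c hc => ⟨⟨hc.1, trivial⟩, by simp [rq], rfl⟩, fun c hc => e.2.2 _ hc.1⟩)
    (hG.mono fun p e lam u => by
      refine ⟨?_, (e lam u).2⟩
      have v : ∀ q ∈ B p.2 ×ˢ (univ : Set (Fin 4 → Bool)), Continuous (Qf (Y p) q) ∧
          DependsOn (Qf (Y p) q) {l | ∀ i, |l.1 i| ≤ (lam / 10 : ℕ)} := fun q hq => by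
        obtain ⟨c, ⟨R, R1, R2⟩, -⟩ := (e lam u).1 _ hq.1
        have := pw_loc 3 (!q.2 3) (pw_loc 2 (!q.2 2) (pw_loc 1 (!q.2 1) (pw_loc 0 (!q.2 0) ⟨c, R2⟩)))
        exact ⟨this.1, this.2.mono fun l hl i => (hl i).trans (by exact_mod_cast R1)⟩
      exact ⟨fun q hq => (v q hq).1, fun q hq => (v q hq).2, fun μ q _ => Qf_rq _ μ q,
        fun q hq W => ((e lam u).1 _ hq.1).2.2 _⟩)
  exact ⟨Q, h1, h2.mono fun p e c => e ▸ rfl⟩

theorem ex_co2 [Fintype J] {m k : ℕ} [NeZero m] {b : ℝ} {Y : Fin k → J → Fz → ℝ}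
    (hY : ∀ i e, Continuous (Y i e)) (t : Fin k → J → ℝ) :
    ex h b m (fun W => ∏ i, ((∑ j, t i j * Y i j W : ℝ) : ℂ)) =
      ∑ e : Fin k → J, (∏ i, t i (e i) : ℝ) * ex h b m fun W => ∏ i, (Y i (e i) W : ℂ) := by
  classical
  simp only [← ex_mul]
  rw [← ex_sum _ fun e _ => by fun_prop]
  refine congrArg _ (funext fun W => ?_)
  push_cast
  simp only [← Finset.prod_mul_distrib]
  rw [← Fintype.piFinset_univ, ← Finset.prod_univ_sum (fun _ => Finset.univ)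
    fun i e => (t i e : ℂ) * Y i e W]

/-- bounded changes of the letters -/
theorem PB.chg [Fintype J] (hQ : ∀ p d, Continuous (Q p d)) (hB : PB h n a b Q) (e : V → J → β)
    {u : ℕ × ℕ → V → J → ℝ} (hu : ∀ c j, ∃ B, ∀ᶠ p in fast, |u p c j| ≤ B) :
    PB h n a b fun p c W => ∑ j, u p c j * Q p (e c j) W := fun k c δ δ0 => by
  classical
  choose C hC using fun j : Fin k → J => hB k (fun i => e (c i) (j i)) δ δ0
  choose B hB using hu
  refine ⟨∑ j, (∏ i, B (c i) (j i)) * C j, fun R => ?_⟩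
  filter_upwards [eventually_all.2 fun j => hC j R,
    eventually_all.2 fun i => eventually_all.2 (hB (c i))] with p u v y h1 h2
  rw [ex_co2 (Y := fun i j W => Q p (e (c i) j) (tz (y i) W)) fun i j => (hQ _ _).comp (cont_tz _)]
  refine norm_sum_le_of_le _ fun j _ => (norm_mul _ _).trans_le (mul_le_mul ?_ (u j y h1 h2)
    (norm_nonneg _) (Finset.prod_nonneg fun i _ => (abs_nonneg _).trans (v i _)))
  rw [Complex.norm_real, norm_prod]
  exact Finset.prod_le_prod (fun _ _ => norm_nonneg _) fun i _ => v i _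

/-- convergent changes of the letters -/
theorem LimL.chg [Fintype J] {θ : Fin 4 → V → V} {h1 h2} {S : PolL V →ₗ[ℂ] ℂ} (hF : Fm n a b)
    (le : ↑U ≤ fast) (hQ : ∀ p d, Continuous (Q p d)) (e : V → J → β) {u : ℕ × ℕ → V → J → ℝ}
    {u₀ : V → J → ℝ} (hu : ∀ c j, Tendsto (u · c j) U (𝓝 (u₀ c j)))
    (hS : ∀ k (c : Fin k → V) f, Adm f → ∃ T : (Fin k → J) → ℂ,
      S (∏ i, xL (c i) (f i)) = ∑ j, (∏ i, u₀ (c i) (j i) : ℝ) * T j ∧ ∀ j, Tendsto (fun p =>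
        ex h (b p) (n p) fun W => ∏ i, (sm (a p) (Q p (e (c i) (j i))) (f i) W : ℂ)) U (𝓝 (T j))) :
    LimL h n a b (fun p c W => ∑ j, u p c j * Q p (e c j) W) (netL (θ := θ) h1 h2) U S := by
  have a0 : ∀ᶠ p in U, 0 < a p := ((hF.pos one_pos).mono fun _ e => e.1).filter_mono le
  refine ⟨le, fun Z hZ => (tend_ind (h := h) (n := n) (b := b) (G := fun _ _ => 1)
    (O := fun p c W => ∑ j, u p c j * Q p (e c j) W) a0 (fun p c => by fun_prop) (.of_forall fun _ => continuous_const) (fun k c f hf _ => ?_)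
      hZ).congr fun p => by simp only [one_mul]⟩
  obtain ⟨T, T1, T2⟩ := hS k c f hf
  refine T1 ▸ (tendsto_finsetSum _ fun j _ => ((Complex.continuous_ofReal.tendsto _).comp
    (tendsto_finsetProd _ fun i _ => hu (c i) (j i))).mul (T2 j)).congr' (a0.mono fun p a0 => ?_)
  simp only [one_mul, fun i => sm_sum (J := J) a0 (hf.1 i).1]
  exact (ex_co2 (fun i j => sm_cont a0 (hf.1 i).1 (hQ _ _)) _).symm

section

variable [NormedAddCommGroup V] [NormedSpace ℝ V] {O : ℕ × ℕ → V →ₗ[ℝ] Fz → ℝ}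
  {θ : Fin 4 → V → V} {hθ : Lm.Inv4 θ} {S : PolL V →ₗ[ℂ] ℂ} {E : Submodule ℝ V}
  [FiniteDimensional ℝ E] {φ : ℕ × ℕ → V} {φ₀ : V} {X : ℕ × ℕ → Fz → ℝ}

theorem coords (E : Submodule ℝ V) [FiniteDimensional ℝ E] : ∃ (d : ℕ) (v : Fin d → V)
    (u : V → Fin d → ℝ) (K : ℝ), 0 ≤ K ∧ ∀ c ∈ E, c = ∑ i, u c i • v i ∧ ∀ i, |u c i| ≤ K * ‖c‖ := by
  classical
  let B := Module.finBasis ℝ E
  refine ⟨_, fun i => B i, fun c => if e : c ∈ E then B.equivFun ⟨c, e⟩ else 0,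
    ‖B.equivFun.toLinearMap.toContinuousLinearMap‖, ContinuousLinearMap.opNorm_nonneg _, fun c e => ?_⟩
  simp only [dif_pos e]
  exact ⟨(congrArg Subtype.val (B.sum_equivFun ⟨c, e⟩).symm).trans (E.coe_sum _ _), fun i =>
    (norm_le_pi_norm _ i).trans (B.equivFun.toLinearMap.toContinuousLinearMap.le_opNorm ⟨c, e⟩)⟩

theorem mod_core (hP : Pl (fun p c => O p c) θ) (hφ : ∀ p, φ p ∈ E) (h0 : φ₀ ∈ E)
    (hX : ∃ R : ℕ, ∀ p, Continuous (X p) ∧ DependsOn (X p) {l | ∀ i, |l.1 i| ≤ R}) (t : V → ℝ) :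
    (∃ R : ℕ, ∀ p, Continuous (X p - O p (φ p)) ∧
      DependsOn (X p - O p (φ p)) {l | ∀ i, |l.1 i| ≤ R}) ∧
    ∃ (d : ℕ) (v : Fin d → V) (u : ℕ × ℕ → Fin d → ℝ) (K : ℝ), 0 ≤ K ∧
      (∀ p i, |u p i| ≤ K * ‖φ p - φ₀‖) ∧ (fun p c W => O p c W + t c * (X p W - O p φ₀ W)) =
        fun p c W => ∑ j : Option (Option (Fin d)), (j.elim 1 fun j => t c * j.elim 1 (u p)) *
          Oe (fun p c => O p c) (fun p => X p - O p (φ p)) p
            (j.elim (.inl c) fun j => j.elim (.inr fun _ => false) fun i => .inl (v i)) W := by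
  obtain ⟨d, v, u, K, K0, e⟩ := coords E
  obtain ⟨R, hR⟩ := hX
  choose R' hR' using fun i => hP.loc (v i)
  refine ⟨⟨R ⊔ Finset.univ.sup R', fun p => ?_⟩, d, v, fun p => u (φ p - φ₀), K, K0,
    fun p => (e _ (E.sub_mem (hφ p) h0)).2, funext₃ fun p c W => ?_⟩
  · rw [(e _ (hφ p)).1, map_sum]
    refine ⟨(hR p).1.sub ?_, fun W W' w => ?_⟩
    · simp only [map_smul, Finset.sum_fn]
      exact continuous_finsetSum _ fun i _ => (hR' i p).1.const_smul _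
    · simp only [map_smul, Pi.sub_apply, Finset.sum_apply, Pi.smul_apply]
      rw [(hR p).2 fun l hl => w l fun i => (hl i).trans (Nat.cast_le.2 le_sup_left)]
      refine congrArg _ (Finset.sum_congr rfl fun j _ => congrArg _ ((hR' j p).2 fun l hl => w l
        fun i => (hl i).trans (Nat.cast_le.2 (le_sup_of_le_right (Finset.le_sup (by simp))))))
  · have := congrArg (O p · W) (e _ (E.sub_mem (hφ p) h0)).1
    simp only [map_sub, map_sum, map_smul, Pi.sub_apply, Finset.sum_apply, Pi.smul_apply,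
      smul_eq_mul] at this
    simp only [Fintype.sum_option, Option.elim, Oe, Sum.elim_inl, Sum.elim_inr, Wx.tw, Wx.pw,
      Bool.not_false, cond_true, id, mul_assoc, ← Finset.mul_sum, ← this, Pi.sub_apply]
    ring

/-- the letter `X p` is `O p (φ p)` up to a negligible letter and `φ p` is bounded -/
theorem PB.mod2 (hF : Fm n a b) (hθ : Lm.Inv4 θ) (hP : Pl (fun p c => O p c) θ) (hφ : ∀ p, φ p ∈ E)
    (h0 : φ₀ ∈ E) (hb : ∃ B, ∀ᶠ p in fast, ‖φ p‖ ≤ B)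
    (hX : ∃ R : ℕ, ∀ p, Continuous (X p) ∧ DependsOn (X p) {l | ∀ i, |l.1 i| ≤ R})
    (hN : EL h n a b (Oe (fun p c => O p c) fun p => X p - O p (φ p)) (θe θ)) (t : V → ℝ) :
    PB h n a b fun p c W => O p c W + t c * (X p W - O p φ₀ W) := by
  obtain ⟨hΔ, d, v, u, K, K0, u1, e⟩ := mod_core hP hφ h0 hX t
  obtain ⟨B, hB⟩ := hb
  refine e ▸ (pb hF (inv4_e hθ) hN).chg (hP.ext hΔ).cont _ fun c j => ?_
  rcases j with _ | _ | i
  exacts [⟨|1|, .of_forall fun _ => le_rfl⟩, ⟨|t c * 1|, .of_forall fun _ => le_rfl⟩,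
    ⟨|t c| * (K * (B + ‖φ₀‖)), hB.mono fun p w => (abs_mul _ _).trans_le
      (mul_le_mul_of_nonneg_left ((u1 p i).trans (mul_le_mul_of_nonneg_left
        ((norm_sub_le _ _).trans (by linarith)) K0)) (abs_nonneg _))⟩]

/-- the same, and `φ p` tends to `φ₀` along `U` -/
theorem LimL.mod2 (L : LimL h n a b (fun p c => O p c) (netL hθ.1 hθ.2) U S) (hF : Fm n a b)
    (hP : Pl (fun p c => O p c) θ) (hφ : ∀ p, φ p ∈ E) (h0 : φ₀ ∈ E) (hl : Tendsto φ U (𝓝 φ₀))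
    (hX : ∃ R : ℕ, ∀ p, Continuous (X p) ∧ DependsOn (X p) {l | ∀ i, |l.1 i| ≤ R})
    (hN : EN h n a b (Oe (fun p c => O p c) fun p => X p - O p (φ p)) (θe θ) (range Sum.inr))
    (t : V → ℝ) :
    LimL h n a b (fun p c W => O p c W + t c * (X p W - O p φ₀ W)) (netL hθ.1 hθ.2) U S := by
  classical
  obtain ⟨hΔ, d, v, u, K, K0, u1, e⟩ := mod_core hP hφ h0 hX t
  refine e ▸ LimL.chg (u₀ := fun c j => j.elim 1 fun j => t c * j.elim 1 0) hF L.le
    (hP.ext hΔ).cont _ (fun c j => ?_) fun k c f hf => ?_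
  · rcases j with _ | _ | i
    exacts [tendsto_const_nhds, tendsto_const_nhds, .const_mul _ (squeeze_zero_norm (u1 · i) (by
      simpa using (tendsto_iff_norm_sub_tendsto_zero.1 hl).const_mul K))]
  refine ⟨fun j => if ∃ i, j i = some none then 0 else S (∏ i, xL ((j i).elim (c i) fun j =>
    j.elim 0 v) (f i)), ?_, fun j => ?_⟩
  · rw [Finset.sum_eq_single (fun _ => none) (fun j _ w => ?_) (by simp)]
    · simp
    · obtain ⟨i, w⟩ := ne_iff.1 w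
      rcases w' : j i with _ | _ | l
      exacts [(w w').elim, mul_eq_zero_of_right _ (if_pos ⟨i, w'⟩),
        by rw [Finset.prod_eq_zero (Finset.mem_univ i) (by simp [w']), Complex.ofReal_zero, zero_mul]]
  · beta_reduce
    split_ifs with w
    · exact (negl_word hF (inv4_e hθ) (hP.ext hΔ) hN _ (w.imp fun i w => by simp [w]) hf).mono_left
        L.le
    · refine (L.word _ hf).congr fun p => congrArg _ (funext fun W => Finset.prod_congr rfl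
        fun i _ => ?_)
      rcases w' : j i with _ | _ | l
      exacts [rfl, (w ⟨i, w'⟩).elim, rfl]

end

end Pool.Agent.Lib.MP_7f377f_mp.Wy
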