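import Pool.Agent.Lib.MP_7f377f_mp.G.KzN1
import Pool.Agent.Lib.MP_7f377f_mp.G.WyU

/-! Merged clusters of letters: the mirror images. -/

noncomputable section

namespace Pool.Agent.Lib.MP_7f377f_mp.Wx
variable [Pool.Agent.Lib.MP_7f377f_mp.GD]
set_option linter.unusedSectionVars false

open MeasureTheory Filter Topology Set Real YM7 Weak L6 Wy Sw Function
open Wu (Z4)

variable {V : Type} {k : ℕ} [NormedAddCommGroup V] [NormedSpace ℝ V] {Φ : Fil V}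
  [MeasurableSpace SU2] [BorelSpace SU2] {h : Measure SU2} [h.IsHaarMeasure]
  [IsProbabilityMeasure h] {n : ℕ × ℕ → ℕ} [∀ p, NeZero (n p)] {a b : ℕ × ℕ → ℝ}
  {U : Ultrafilter (ℕ × ℕ)} {O : ℕ × ℕ → V →ₗ[ℝ] Fz → ℝ} {θ : Fin 4 → V → V}
  {A : ℝ → V ≃ₗ[ℝ] V} {fp : ∀ k, (Fin k → V) → (Fin k → R4) → ℝ}
  {Bp : (Fin 2 → V) → ℕ → (Fin 2 → R4) → V} {c : ℝ → Fin k → V} {D e e' N : ℕ} {κ κ' C K K' : ℝ}
  {η : ℝ → ℝ} {A₀ : Set V} {m : (Fin 4 → Bool) → ℝ → ℕ × ℕ → (Fin k → Z4) → V} {bs : Fin N → V}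
  {T : Finset V}

theorem near {a l : ℝ} {lam : ℕ} {z : ℤ} (a0 : 0 < a) (e : a * lam = l) (u : |a * z| ≤ l / 50) :
    |z| ≤ (lam / 50 : ℕ) := by
  rw [abs_mul, abs_of_pos a0, ← Int.cast_abs] at u
  have : 50 * |z| ≤ lam := by
    exact_mod_cast le_of_mul_le_mul_left (show a * (50 * (|z| : ℤ)) ≤ a * lam by linarith) a0
  omega

theorem ev_small (κ : ℝ) {l : ℝ} (l0 : 0 < l) : ∀ᶠ s in 𝓝[>] (0 : ℝ), 0 < s ∧ κ * s ≤ l :=
  eventually_mem_nhdsWithin.and (((continuous_const_mul κ).tendsto' 0 0 (mul_zero _)).mono_left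
    nhdsWithin_le_nhds |>.eventually_le_const l0)

theorem co_ex {n lam : ℕ} [NeZero n] {b : ℝ} {O : V → Fz → ℝ} (c : Fin 2 → V) :
    ex h b n (fun W => cl O c ![Pi.single 0 lam, 0] W) = co h n lam b (O (c 0)) (O (c 1)) := by
  rw [ex_real]
  simp [cl, co]

namespace Sd

variable (S : Sd Φ h n a b U O θ A fp)
include S

theorem dv (e : ℕ) : ∀ᶠ J in atTop, ∃ lam : ℕ, a (0, J) * lam = 9 / 3 ^ e ∧
    ∀ᶠ s in hyperfilter ℕ, lam ∣ n (3 ^ s / 2, J) :=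
  let ⟨_, _, _, u⟩ := S.el ∅ finite_empty (by simp)
  (u e).mono fun _ ⟨lam, u, v⟩ => ⟨lam, u, v.e0.mono fun _ ⟨_, w, _⟩ => ⟨_, w.trans (mul_comm _ _)⟩⟩

theorem exF (e : ℕ) : ∀ᶠ p in fast, ∃ l : ℕ, a p * l = 9 / 3 ^ e ∧ l ∣ n p :=
  ev_fast.2 ((S.dv e).mono fun J ⟨lam, u, v⟩ => v.mono fun _ v => ⟨lam, S.fm.aJ (_, J) ▸ u, v⟩)

theorem ex' (e : ℕ) : ∀ᶠ p in U, ∃ l : ℕ, a p * l = 9 / 3 ^ e ∧ l ∣ n p := S.le (S.exF e)

theorem dvF (e e' R : ℕ) : ∀ᶠ p in fast, 0 < a p ∧ ∀ lam : ℕ, a p * lam = 9 / 3 ^ (e + e') →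
    a p * (3 ^ e' * lam : ℕ) = 9 / 3 ^ e ∧ 3 ^ e' * lam ∣ n p ∧ R ≤ lam := by
  filter_upwards [S.exF e,
    S.fm.pos (ε := 9 / 3 ^ (e + e') / (R + 1)) (by positivity)] with p ⟨l, u, v⟩ ⟨a0, a1⟩
  refine ⟨a0, fun lam w => ?_⟩
  have e1 : a p * (3 ^ e' * lam : ℕ) = 9 / 3 ^ e := by
    push_cast
    rw [mul_left_comm, w, pow_add]
    field_simp
  rw [le_div_iff₀ (by positivity), ← w] at a1
  exact ⟨e1, Nat.cast_injective (mul_left_cancel₀ a0.ne' (u.trans e1.symm)) ▸ v, by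
    exact_mod_cast (le_add_of_nonneg_right zero_le_one).trans (le_of_mul_le_mul_left a1 a0)⟩

theorem dv' (e e' R : ℕ) : ∀ᶠ p in U, 0 < a p ∧ ∀ lam : ℕ, a p * lam = 9 / 3 ^ (e + e') →
    a p * (3 ^ e' * lam : ℕ) = 9 / 3 ^ e ∧ 3 ^ e' * lam ∣ n p ∧ R ≤ lam := S.le (S.dvF e e' R)

theorem blF (hA : A₀.Finite) :
    ∃ K : ℕ → ℝ, ∀ᶠ p in fast, 0 ≤ K p.2 ∧ ∀ d ∈ A₀, ∀ W, |O p d W| ≤ K p.2 := by
  obtain ⟨_, _, -, u⟩ := S.el (⋃ g, tw θ g '' A₀) (finite_iUnion fun _ => hA.image _) (by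
    rintro μ _ ⟨_, ⟨g, rfl⟩, d, hd, rfl⟩
    exact mem_iUnion.2 ⟨_, d, hd, (θ_tw S.inv μ g d).symm⟩)
  obtain ⟨K, hK⟩ := ((u 0).mono fun _ ⟨lam, _, v⟩ => v.lt.imp fun K v => v.mono fun s v => v.bd).choice
  exact ⟨fun J => |K J|, ev_fast.2 (hK.mono fun J v => v.mono fun s v => ⟨abs_nonneg _,
    fun d hd W => (v d (mem_iUnion.2 ⟨fun _ => true, d, hd, rfl⟩) W).trans (le_abs_self _)⟩)⟩

theorem bl (hA : A₀.Finite) : ∃ K : ℕ → ℝ, ∀ᶠ p in U, 0 ≤ K p.2 ∧ ∀ d ∈ A₀, ∀ W, |O p d W| ≤ K p.2 :=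
  (S.blF hA).imp fun _ e => S.le e

theorem lc (hA : A₀.Finite) : ∃ R, ∀ p, ∀ d ∈ A₀, Lc R (O p d) := by
  choose R hR using S.pl.loc
  obtain ⟨r, hr⟩ := (hA.image R).bddAbove
  exact ⟨r, fun p d hd => Lc.mono (hR d p) (hr ⟨d, hd, rfl⟩)⟩

theorem co_lin (p lam d) : IsLinearMap ℝ fun c => co h (n p) lam (b p) (O p d) (O p c) := by
  have c := S.pl.cont p
  refine ⟨fun x y => ?_, fun t x => ?_⟩
  · simp only [co, map_add, Pi.add_apply, mul_add]
    exact integral_add (cint _ (by fun_prop)) (cint _ (by fun_prop))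
  · simp only [co, map_smul, Pi.smul_apply, smul_eq_mul, mul_left_comm _ t, integral_const_mul]

theorem dif {p lam} {X : Fz → ℝ} {x y : V} {M M' : ℝ} (K1 : 0 ≤ K')
    (nd : ∀ c ∈ Φ.F D, ‖c‖ ≤ K' * ∑ d ∈ T, |co h (n p) lam (b p) (O p d) (O p c)|) (hx : x ∈ Φ.F D)
    (hy : y ∈ Φ.F D) (hX : Continuous X)
    (h1 : ∑ d ∈ T, |co h (n p) lam (b p) (O p d) (X - O p x)| ≤ M)
    (h2 : ∑ d ∈ T, |co h (n p) lam (b p) (O p d) (X - O p y)| ≤ M') : ‖x - y‖ ≤ K' * (M' + M) := by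
  have c := S.pl.cont p
  refine (nd _ (sub_mem hx hy)).trans (mul_le_mul_of_nonneg_left ((Finset.sum_le_sum fun d _ =>
    ?_).trans (Finset.sum_add_distrib.trans_le (add_le_add h2 h1))) K1)
  rw [show O p (x - y) = (X - O p y) - (X - O p x) by simp, co_sub (c d) (hX.sub (c _)) (hX.sub (c _))]
  exact abs_sub _ _

/-- the two point function is not degenerate -/
theorem ndg (D : ℕ) : ∃ (e : ℕ) (T : Finset V) (K : ℝ), 0 ≤ K ∧ ∀ᶠ p in U, ∀ lam : ℕ,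
    a p * lam = 9 / 3 ^ (e + 1) →
      ∀ c ∈ Φ.F D, ‖c‖ ≤ K * ∑ d ∈ T, |co h (n p) lam (b p) (O p d) (O p c)| := by
  classical
  haveI := Φ.fin D
  obtain ⟨N, bs, κ, B⟩ := ex_bs (Φ.F D)
  obtain ⟨T, K, K0, hK⟩ := ex_test (F := Φ.F D) (fun d => S.lin d _) S.nd
  have κ0 := B.1
  have e0 : 0 < (2 * (K * T.card * κ + 1))⁻¹ := by positivity
  have tt : Tendsto (fun e : ℕ => (9 / 3 ^ (e + 1) : ℝ)) atTop (𝓝[>] 0) :=
    tendsto_nhdsWithin_iff.2 ⟨tendsto_const_nhds.div_atTop ((tendsto_pow_atTop_atTop_of_one_lt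
      (by norm_num)).comp (tendsto_add_atTop_nat 1)), .of_forall fun _ => by simp⟩
  obtain ⟨e, he⟩ := (tt.eventually ((eventually_all_finset T).2 fun d _ => eventually_all.2 fun i =>
    S.af 2 ![d, bs i] 1 le_rfl _ e0)).exists
  have t0 : (0 : ℝ) < 9 / 3 ^ (e + 1) := by positivity
  refine ⟨e, T.image (A (9 / 3 ^ (e + 1))), (∑ i, ‖A (9 / 3 ^ (e + 1)) (bs i)‖) * κ *
    (2 * K * (9 / 3 ^ (e + 1)) ^ 8), by positivity, ?_⟩
  generalize (9 / 3 ^ (e + 1) : ℝ) = t at *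
  filter_upwards [(eventually_all_finset T).2 fun d hd => eventually_all.2 (he d hd)] with p u lam
    v c hc
  have c1 : (A t).symm c ∈ Φ.F D := S.up t D c hc
  obtain ⟨c, rfl⟩ := (A t).surjective c
  rw [(A t).symm_apply_apply] at c1
  have w : ∀ d ∈ T, |fp 2 ![d, c] ![EuclideanSpace.single 0 1, 0]| ≤
      t ^ 8 * |co h (n p) lam (b p) (O p (A t d)) (O p (A t c))| +
        (2 * (K * T.card * κ + 1))⁻¹ * κ * ‖c‖ := fun d hd => by
    have l1 := S.co_lin p lam (A t d)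
    have l2 := S.lin d ![EuclideanSpace.single 0 1, 0]
    have := B.le (f := fun c => t ^ 8 * co h (n p) lam (b p) (O p (A t d)) (O p (A t c)) -
      fp 2 ![d, c] ![EuclideanSpace.single 0 1, 0]) ⟨fun x y => by
        simp only [map_add (A t), l1.1, l2.1]; ring, fun r x => by
        simp only [map_smul (A t), l1.2, l2.2, smul_eq_mul]; ring⟩ e0.le (fun i => by
      have := u d hd i ![Pi.single 0 lam, 0] ⟨by
        intro i l
        fin_cases i <;> by_cases u : l = 0 <;> simp [u, v, t0.le, abs_of_pos t0], by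
        intro i j u
        refine ⟨0, ?_⟩
        fin_cases i <;> fin_cases j <;> simp [v, abs_of_pos t0] at u ⊢⟩
      rw [co_ex, show (fun i => t⁻¹ • pz (a p) (![Pi.single 0 (lam : ℤ), 0] i)) =
        ![EuclideanSpace.single 0 1, 0] by
          funext i
          ext l
          fin_cases i <;> by_cases u : l = 0 <;> simp [pz, u, v, t0.ne']] at this
      exact_mod_cast this) c1
    rw [← abs_of_pos (pow_pos t0 8), ← abs_mul]
    exact sub_le_iff_le_add'.1 ((abs_sub_abs_le_abs_sub _ _).trans ((abs_sub_comm _ _).trans_le this))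
  have x := (hK c c1).trans (mul_le_mul_of_nonneg_left (Finset.sum_le_sum w) K0)
  rw [Finset.sum_add_distrib, ← Finset.mul_sum, Finset.sum_const, nsmul_eq_mul] at x
  have y : K * (T.card * ((2 * (K * T.card * κ + 1))⁻¹ * κ * ‖c‖)) ≤ ‖c‖ / 2 := by
    rw [show K * (T.card * ((2 * (K * T.card * κ + 1))⁻¹ * κ * ‖c‖)) =
      K * T.card * κ / (K * T.card * κ + 1) * (‖c‖ / 2) by field_simp]
    exact mul_le_of_le_one_left (by positivity) (div_le_one_of_le₀ (by linarith) (by positivity))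
  rw [Finset.sum_image (A t).injective.injOn, mul_assoc]
  refine (B.le (A t).toLinearMap.isLinear (by positivity) (fun i => Finset.single_le_sum
    (f := fun i => ‖A t (bs i)‖) (by simp) (Finset.mem_univ i)) c1).trans ?_
  gcongr
  linarith

/-- larger cells -/
theorem coarse (C0 : 0 ≤ C) (R : Ri h n a b U O c κ η A₀ (e + e') C K m) :
    Ri h n a b U O c κ η A₀ e (C * (3 ^ e' : ℕ) ^ 4) K m := R.mono fun s u => by
  filter_upwards [u, S.dv' e e' 0] with p ⟨lam, L, u1, u2, u3, u4⟩ ⟨_, v⟩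
  refine ⟨_, L, (v lam u1).1, Wx.coarse u2 (v lam u1).2.1 C0, u3, fun y hy => (u4 y hy).imp
    fun v u => ⟨fun l => (u.1 l).trans ?_, u.2⟩⟩
  gcongr
  exacts [by norm_num, Nat.le_add_right _ _]

theorem tau (B : Bs (Φ.F D) bs κ') (K1 : 0 ≤ K') (nd : ∀ᶠ p in U, ∀ lam : ℕ,
      a p * lam = 9 / 3 ^ (e + 1) →
      ∀ c ∈ Φ.F D, ‖c‖ ≤ K' * ∑ d ∈ T, |co h (n p) lam (b p) (O p d) (O p c)|) (C0 : 0 ≤ C)
    (K0 : 0 ≤ K) (η0 : ∀ s > 0, 0 < η s) (hm : ∀ g s p y, m g s p y ∈ Φ.F D)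
    (hA : range bs ∪ T ⊆ A₀) (le : e + 1 ≤ e') (R : Ri h n a b U O c κ η A₀ e' C K m) :
    ∃ M, 0 ≤ M ∧ ∀ᶠ s in 𝓝[>] 0, ∀ᶠ p in U, ∀ lam : ℕ, a p * lam = 9 / 3 ^ (e + 1) →
      ∀ y, Cf κ s (a p) y → ∀ g, ∑ d ∈ T,
        |co h (n p) lam (b p) (O p d) (cl (O p) (c s) y - O p (m g s p y))| ≤ M * η s := by
  obtain ⟨e', rfl⟩ := Nat.exists_eq_add_of_le le
  have κ0 := B.1
  refine ⟨(1 + (T.card * K) ^ 16 * exp (256 * (C * (3 ^ e' : ℕ) ^ 4 * 81)) *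
    (1 + K * κ' * (K' * 2)) ^ 15) * K, by positivity, ?_⟩
  filter_upwards [S.coarse C0 R, ev_small κ (l := 9 / 3 ^ (e + 1) / 50) (by positivity)]
    with s u ⟨s0, s1⟩
  obtain ⟨r, hr⟩ := S.lc (((finite_range bs).union T.finite_toSet).union (finite_range (c s)))
  filter_upwards [u, nd, S.dv' e 1 (2 * r + 10), S.le S.odd, S.le S.fm.b0]
    with p ⟨l, L, u1, u2, _, u4⟩ nd ⟨a0, v⟩ o b0 lam w y hy g
  obtain rfl : l = lam := Nat.cast_injective (mul_left_cancel₀ a0.ne' (u1.trans w.symm))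
  obtain ⟨z, z1, z2⟩ := u4 y hy
  have := (v l w).2.2
  rw [mul_assoc _ K]
  exact core B b0 (v l w).2.1 o (by positivity) u2 K0 K1 (mul_nonneg K0 (η0 s s0).le)
    (r := r + l / 50) (by omega) (fun i => near a0 w (z1 i)) (Lc.cl (fun i => hr p _ (by simp))
      fun i j => near a0 w ((hy.1 i j).trans s1)) (fun i => (hr p _ (by simp)).mono (by simp))
    (fun d hd => (hr p _ (by simp [hd])).mono (by simp)) (nd l w) (fun g => hm g s p y)
    (fun g => (z2 g).1) (fun g i => (z2 g).2 _ (hA (by simp)))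
    (fun g d hd => (z2 g).2 _ (hA (by simp [hd]))) g

end Sd

theorem Rm.em (S : Sd Φ h n a b U O θ A fp) {P} (κ1 : 1 ≤ κ) (η0 : ∀ s > 0, 0 < η s)
    (R : Rm Φ h n a b U O c D κ η P) : ∃ m, P m ∧ Em Φ h n a b U O c D κ η m := by
  classical
  haveI := Φ.fin D
  obtain ⟨N, bs, κ', B⟩ := ex_bs (Φ.F D)
  obtain ⟨e, T, K', K1, nd⟩ := S.ndg D
  have f0 := (finite_range bs).union T.finite_toSet
  obtain ⟨e₁, ⟨C₁, K₁, m, C1, K2, m1, m2, R1⟩, le⟩ :=
    ((R _ f0).and_eventually (eventually_ge_atTop (e + 1))).exists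
  obtain ⟨M, M0, hM⟩ := S.tau B K1 nd C1 K2 η0 m1 subset_rfl le R1
  have κ0 := B.1
  have bd : ∀ᶠ s in 𝓝[>] 0, ∃ B, 0 ≤ B ∧ ∀ᶠ p in U, ∀ y, Cf κ s (a p) y →
      ‖m (fun _ => true) s p y‖ ≤ B := by
    filter_upwards [hM, ev_small κ (l := 9 / 3 ^ (e + 1) / 2) (by positivity)] with s u ⟨s0, s1⟩
    choose Q hQ using fun d => pb S.fm S.inv S.el (k + 1) (Fin.cons d (c s)) (s / κ) (by positivity)
    have := η0 s s0
    refine ⟨K' * (∑ d ∈ T, |Q d| + M * η s), by positivity, ?_⟩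
    obtain ⟨r, hr⟩ := S.lc (finite_range (c s))
    filter_upwards [u, nd, S.ex' (e + 1), (eventually_all_finset T).2 fun d _ =>
      S.le (hQ d (9 / 3 ^ (e + 1)))] with p u nd ⟨lam, w, _⟩ q y hy
    refine (nd lam w _ (m1 ..)).trans (mul_le_mul_of_nonneg_left (le_trans ?_
      (add_le_add_right (u lam w y hy fun _ => true) _)) K1)
    rw [← Finset.sum_add_distrib]
    refine Finset.sum_le_sum fun d hd => ?_
    have s2 : s / κ ≤ κ * s := (div_le_self s0.le κ1).trans (le_mul_of_one_le_left s0.le κ1)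
    have l0 : (0 : ℝ) < 9 / 3 ^ (e + 1) := by positivity
    have z : ∀ i, s / κ ≤ |a p * lam - a p * y i 0| := fun i => by
      linarith [le_abs_self (a p * lam - a p * y i 0), le_abs_self (a p * y i 0), hy.1 i 0]
    have := q d hd (Fin.cons (Pi.single 0 lam) y) (Fin.forall_fin_succ.2 ⟨fun l => by
      by_cases u : l = 0 <;> simp [u, w, l0.le, abs_of_pos l0], fun i l => (hy.1 i l).trans
        (by linarith)⟩) (pairwise_fin_succ_iff.2 ⟨fun i => ⟨0, by rw [abs_sub_comm]; exact z i⟩,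
          fun i => ⟨0, z i⟩, fun i j u => (hy.2 i j u).imp fun l => (div_le_iff₀' (by positivity)).2⟩)
    simp only [← Complex.ofReal_prod, ex_real, Complex.norm_real, Fin.prod_univ_succ,
      Fin.cons_zero, Fin.cons_succ] at this
    rw [co_sub (S.pl.cont p d) (by unfold cl; have := S.pl.cont p; fun_prop) (S.pl.cont p _),
      ← sub_sub_cancel (co h (n p) lam (b p) (O p d) (cl (O p) (c s) y)) (co _ _ _ _ _ (O p _))]
    refine (abs_sub _ _).trans (add_le_add (this.trans (le_abs_self _)) (by simp))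
  refine ⟨_, m2, m1 _, bd.mono fun _ => .imp fun _ => And.right, fun A₀ hA e₀ => ?_⟩
  obtain ⟨e₂, ⟨C, K, m', C0, K0, m3, -, R2⟩, le⟩ := ((R _ (f0.union hA)).and_eventually
    (eventually_ge_atTop (max (e + 1) e₀))).exists
  obtain ⟨M', M1, hM'⟩ := S.tau B K1 nd C0 K0 η0 m3 subset_union_left (le_of_max_le_left le) R2
  obtain ⟨e₂, rfl⟩ := Nat.exists_eq_add_of_le (le_of_max_le_right le)
  refine ⟨C * (3 ^ e₂ : ℕ) ^ 4, K + K * κ' * (K' * (M + M')) + 1, by positivity, by positivity, ?_⟩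
  filter_upwards [bd, hM, hM', S.coarse C0 R2, ev_small κ (l := 9 / 3 ^ e₀ / 50) (by positivity)]
    with s ⟨Z, Z0, hZ⟩ u1 u2 u3 ⟨s0, s1⟩
  have f1 := (f0.union hA).union (finite_range (c s))
  obtain ⟨r, hr⟩ := S.lc f1
  obtain ⟨Y, hY⟩ := S.bl f1
  have η1 := η0 s s0
  obtain ⟨G, hv, u3⟩ := u3.exists_mem
  choose! l₀ L v1 v2 v3 v v4 v5 using u3
  obtain ⟨Q, q1, q2⟩ := EF.free (h := h) (n := n) (a := a) (b := b) (l := U) (ℓ := 9 / 3 ^ e₀)
    (Y := fun p => Sum.elim (fun y W => (cl (O p) (c s) y - O p (m (fun _ => true) s p y))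
      (tz (v p y) W)) fun d W => O p d (tz 0 W))
    (B := fun J => Sum.inl '' {y | Cf κ s (a (0, J)) y} ∪ Sum.inr '' A₀)
    (w := fun _ => Sum.elim (fun _ => (K + K * κ' * (K' * (M + M')) + 1) * η s)
      fun _ => K + K * κ' * (K' * (M + M')) + 1) (C := C * (3 ^ e₂ : ℕ) ^ 4) (by positivity)
    (fun J => Y J ^ k + Y J * κ' * Z + Y J) (by
      filter_upwards [S.dv e₀, ev_fast.1 (S.fm.pos one_pos)] with J u w
      obtain ⟨_, w, -⟩ := w.exists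
      refine ⟨u, (((Finite.pi' fun _ => fin_sites (S.fm.aJ (_, J) ▸ w) (κ * s)).subset
        fun y hy => hy.1).image _).union (hA.image _), ?_⟩
      rintro (_ | _) - <;> simp only [Sum.elim_inl, Sum.elim_inr] <;> positivity) (by
      filter_upwards [hv, u1, u2, nd, hZ, hY, S.ex' (e + 1), S.dv' e₀ 0 (20 * r + 100)]
        with p G u1 u2 nd hZ ⟨Y0, hY⟩ ⟨l', w', _⟩ ⟨a0, a1⟩ l w
      rw [← S.fm.aJ] at w ⊢
      replace v2 := Nat.cast_injective (mul_left_cancel₀ a0.ne' ((v1 p G).trans w.symm)) ▸ v2 p G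
      have := (a1 l w).2.2
      have b1 : ∀ i, Lc (r + l / 50) (O p (bs i)) := fun i => (hr p _ (by simp)).mono (by simp)
      have b2 : ∀ y, Cf κ s (a p) y → Lc (r + l / 50) (cl (O p) (c s) y) := fun y hy => Lc.cl
        (fun i => hr p _ (by simp)) fun i j => near a0 w ((hy.1 i j).trans s1)
      have b3 : ∀ d ∈ A₀, Lc r (O p d) := fun d hd => hr p _ (by simp [hd])
      refine ⟨?_, cmb v2 ?_⟩
      · rintro _ (⟨y, hy, rfl⟩ | ⟨d, hd, rfl⟩)
        · have := ((b2 y hy).sub (B.lc b1 (m1 (fun _ => true) s p y))).tz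
            fun i => near a0 w (v4 p G y hy i)
          refine ⟨this.1, ⟨_, by omega, this.2⟩, fun W => (abs_sub _ _).trans (le_add_of_le_of_nonneg
            (add_le_add ?_ ?_) Y0)⟩
          · rw [cl, Finset.abs_prod]
            exact (Finset.prod_le_prod (by simp) fun i _ => hY (c s i) (by simp) _).trans (by simp)
          · exact (B.le (f := fun c => O p c (tz (v p y) W)) ⟨by simp, by simp⟩ Y0
              (fun i => hY _ (by simp) _) (m1 ..)).trans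
                (mul_le_mul_of_nonneg_left (hZ y hy) (by positivity))
        · have := (b3 d hd).tz (v := 0) (r' := 0) (by simp)
          exact ⟨this.1, ⟨_, by omega, this.2⟩, fun W => (hY _ (by simp [hd]) _).trans
            (le_add_of_nonneg_left (by positivity))⟩
      rintro ⟨_, g⟩ ⟨⟨y, hy, rfl⟩ | ⟨d, hd, rfl⟩, -⟩
      · refine B.sp (b2 y hy) b1 (m3 ..) (m1 ..) (by positivity) K0 (v5 p G y hy _).1
          (fun i => (v5 p G y hy _).2 _ (by simp)) ?_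
        have := S.dif K1 (nd l' w') (m3 (fun μ => !g μ) s p y) (m1 (fun _ => true) s p y)
          (b2 y hy).1 (u2 l' w' y hy _) (u1 l' w' y hy _)
        simp only [Sum.elim_inl]
        nlinarith [mul_le_mul_of_nonneg_left this (mul_nonneg K0 κ0)]
      · exact .one (v3 p G _ d (by simp [hd])) ((b3 d hd).mr (r' := 0) (by simp) _).1 K0 (by
          simp only [Sum.elim_inr, add_assoc, le_add_iff_nonneg_right]
          positivity))
  refine ⟨_, Q, _, _, _, q1, ?_⟩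
  filter_upwards [q2, hv] with p q2 G
  refine ⟨fun d hd => ?_, fun y hy => ?_⟩
  · convert Cb.one (Q := Q p) (y := 0) (c := (Sum.inr d, fun _ => false)) ?_ ?_ using 3
    exacts [rfl, by simp [q2], ⟨.inr ⟨d, hd, rfl⟩, trivial⟩, by simp; positivity]
  · convert Cb.one (Q := Q p) (y := -v p y) (c := (Sum.inl y, fun _ => false)) ?_ ?_ using 3
    exacts [rfl, by simp [q2, tz_tz], ⟨.inl ⟨y, S.fm.aJ p ▸ hy, rfl⟩, trivial⟩,
      by simpa using v4 p G y hy]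

theorem Rn.ci (S : Sd Φ h n a b U O θ A fp) (R : Rn Φ h n a b U O A Bp) :
    Ci Φ h n a b U O A fp Bp := by
  refine ⟨fun d c hc κ κ1 => ?_, fun c' h1 d c hc κ κ1 => ⟨?_, ?_⟩, fun c D κ κ1 => ?_, S.af,
    fun k c κ κ1 => ?_⟩
  · exact ((R.m1 d c hc κ κ1).em S κ1 fun _ e => rpow_pos_of_pos e _).imp fun _ => And.right
  · exact ((R.m2 c' h1 d c hc κ κ1).1.em S κ1 fun _ e => rpow_pos_of_pos e _).imp fun _ => And.right
  · exact ((R.m2 c' h1 d c hc κ κ1).2.em S κ1 fun _ e => rpow_pos_of_pos e _).imp fun _ => And.right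
  · obtain ⟨P, r, e⟩ := R.op c D κ κ1
    exact (r.em S κ1 fun _ e => rpow_pos_of_pos e _).imp fun m x => ⟨x.2, e m x.1 x.2⟩
  obtain ⟨m, -, E⟩ := (R.ct k c κ κ1).em S κ1 fun _ e => rpow_pos_of_pos e _
  obtain ⟨u, hu⟩ := S.un
  obtain ⟨C, K, C0, K0, e⟩ := E.al {u} (finite_singleton u) 0
  refine ⟨0, C, C0, fun ε ε0 => ?_⟩
  have t0 : Tendsto (fun t : ℝ => K * (1 + exp (1 + 256 * C) * K) * t ^ (1 / 2 : ℝ)) (𝓝[>] 0) (𝓝 0) :=
    (Continuous.tendsto' (by fun_prop (disch := norm_num)) _ _ (by simp)).mono_left nhdsWithin_le_nhds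
  filter_upwards [e, t0.eventually_le_const ε0, eventually_mem_nhdsWithin]
    with t ⟨β, Q, r, L, w, e1, e2⟩ e3 (t1 : 0 < t)
  refine ⟨β, Q, r, L, w, e1, ?_⟩
  filter_upwards [e2, hu, S.le e1.cl, S.le (lb S.fm e1 C0 le_rfl (ρ := 9 / 3 ^ 0 / 50) (H := 100)
    (by norm_num) (by norm_num) (by norm_num) Unit 0 one_pos)] with p ⟨e4, e5⟩ ⟨u1, u2⟩ e6 e7 y hy
  obtain ⟨x, hx⟩ := u2 _ (E.mem t p y)
  have := e7 0 _ _ ⟨by simp, by simp⟩ (by simp) fun _ => e5 y hy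
  have c1 : Continuous fun W => (cl (O p) (fun i => A t (c i)) y W : ℂ) := by
    unfold cl
    have := S.pl.cont p
    fun_prop
  simp only [hx, Fintype.prod_unique, Complex.ofReal_sub, ex_sub c1 continuous_const, ex_const,
    Fintype.card_unique, Nat.cast_one, mul_one] at this
  convert (((e5 y hy).add (fun c hc => (e6.1 c hc).le) ((e4 u rfl).smul (x - ex h (b p) (n p) fun W =>
    cl (O p) (fun i => A t (c i)) y W))).smul (t ^ (4 * k))).mono (z' := 0)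
      (ρ' := 9 / 3 ^ 0 / 50) (by simp)
      (le_trans ?_ e3) using 3
  · simp [hx, u1]
  rw [norm_sub_rev] at this
  rw [norm_pow, Complex.norm_real, norm_of_nonneg t1.le, show t ^ (1 / 2 : ℝ) =
    t ^ (4 * k) * t ^ (1 / 2 - 4 * k : ℝ) by rw [← rpow_natCast, ← rpow_add t1]; simp]
  nlinarith [mul_le_mul_of_nonneg_left (mul_le_mul_of_nonneg_right this K0) (pow_pos t1 (4 * k)).le]

end Pool.Agent.Lib.MP_7f377f_mp.Wx
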