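import Pool.Agent.Lib.MP_7f377f_mp.G.WzD

/-! Merged clusters of letters: what the renormalisation group delivers. -/

noncomputable section

namespace Pool.Agent.Lib.MP_7f377f_mp.Wx
variable [Pool.Agent.Lib.MP_7f377f_mp.GD]
set_option linter.unusedSectionVars false

open MeasureTheory Filter Topology Set YM7 Weak L6 Wy Sw Function
open Wu (Z4)

variable {V : Type} {k : ℕ}

/-- the letter `X` shifted by `v`, seen in the mirror `g` -/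
def mr (g : Fin 4 → Bool) (v : Z4) (X : Fz → ℝ) (W : Fz) : ℝ := X (tz v (tw rz g W))

variable [NormedAddCommGroup V] [NormedSpace ℝ V] (Φ : Fil V)
  [MeasurableSpace SU2] (h : Measure SU2) (n : ℕ × ℕ → ℕ) [∀ p, NeZero (n p)]
  (a b : ℕ × ℕ → ℝ) (U : Ultrafilter (ℕ × ℕ)) (O : ℕ × ℕ → V →ₗ[ℝ] Fz → ℝ)

/-- the mixed bound for clusters minus letters; each mirror image has its own letter -/
def Ri (c : ℝ → Fin k → V) (κ : ℝ) (η : ℝ → ℝ) (A₀ : Set V) (e : ℕ) (C K : ℝ)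
    (m : (Fin 4 → Bool) → ℝ → ℕ × ℕ → (Fin k → Z4) → V) : Prop :=
  ∀ᶠ s in 𝓝[>] 0, ∀ᶠ p in U, ∃ (lam : ℕ) (L : Set ((Fz → ℝ) × ℝ)), a p * lam = 9 / 3 ^ e ∧
    E0 h (b p) (n p) lam Prod.fst L Prod.snd C ∧ (∀ g, ∀ d ∈ A₀, (mr g 0 (O p d), K) ∈ L) ∧
    ∀ y, Cf κ s (a p) y → ∃ v : Z4, (∀ l, |a p * v l| ≤ 9 / 3 ^ e / 50) ∧ ∀ g,
      (mr g v (cl (O p) (c s) y - O p (m g s p y)), K * η s) ∈ L ∧
        ∀ d ∈ A₀, (mr g v (O p d), K) ∈ L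

/-- the same at arbitrarily fine scales; the letters `m` may depend on the alphabet and on the
scale, those of the trivial mirror have the property `P` -/
def Rm (c : ℝ → Fin k → V) (D : ℕ) (κ : ℝ) (η : ℝ → ℝ)
    (P : (ℝ → ℕ × ℕ → (Fin k → Z4) → V) → Prop) : Prop :=
  ∀ A₀ : Set V, A₀.Finite → ∃ᶠ e in atTop, ∃ (C K : ℝ) (m : _), 0 ≤ C ∧ 0 ≤ K ∧
    (∀ g s p y, m g s p y ∈ Φ.F D) ∧ P (m fun _ => true) ∧ Ri h n a b U O c κ η A₀ e C K m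

variable (θ : Fin 4 → V → V) (A : ℝ → V ≃ₗ[ℝ] V) (fp : ∀ k, (Fin k → V) → (Fin k → R4) → ℝ)

/-- the soft input -/
structure Sd : Prop where
  le : U ≤ fast
  fm : Fm n a b
  odd : ∀ᶠ p in fast, Odd (n p)
  inv : Lm.Inv4 θ
  pl : Pl (fun p c => O p c) θ
  el : EL h n a b (fun p c => O p c) θ
  up : ∀ t, Φ.Up 0 (A t).symm
  un : ∃ u, ∀ᶠ p in U, O p u = 1 ∧ ∀ c ∈ Φ.F 0, ∃ r : ℝ, O p c = fun _ => r
  lin : ∀ d y, IsLinearMap ℝ fun c => fp 2 ![d, c] y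
  nd : ∀ c ≠ 0, ∃ d, fp 2 ![d, c] ![EuclideanSpace.single 0 1, 0] ≠ 0
  af : ∀ k (c : Fin k → V), ∀ κ ≥ 1, ∀ ε > 0, ∀ᶠ t : ℝ in 𝓝[>] 0, ∀ᶠ p in U, ∀ y, Cf κ t (a p) y →
    ‖t ^ (4 * k) * ex h (b p) (n p) (fun W => cl (O p) (fun i => A t (c i)) y W) -
      fp k c fun i => t⁻¹ • pz (a p) (y i)‖ ≤ ε

/-- the input from the renormalisation group -/
structure Rn (Bp : (Fin 2 → V) → ℕ → (Fin 2 → R4) → V) : Prop where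
  m1 : ∀ d, ∀ c ∈ Φ.F d, ∀ κ ≥ 1,
    Rm Φ h n a b U O (fun _ => ![c]) (d + 1) κ (· ^ (3 / 2 : ℝ)) fun _ => True
  m2 : ∀ c' ∈ Φ.F 4, ∀ d, ∀ c ∈ Φ.F d, ∀ κ ≥ 1,
    Rm Φ h n a b U O (fun _ => ![c', c]) (d + 1) κ (· ^ (-5 / 2 : ℝ)) (fun _ => True) ∧
      Rm Φ h n a b U O (fun _ => ![c', c]) d κ (· ^ (-7 / 2 : ℝ)) fun _ => True
  op : ∀ (c : Fin 2 → V) (D : ℕ), ∀ κ ≥ 1, ∃ P,
    Rm Φ h n a b U O (fun t i => A t (c i)) D κ (· ^ (D - 15 / 2 : ℝ)) P ∧ ∀ m, P m →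
      Em Φ h n a b U O (fun t i => A t (c i)) D κ (· ^ (D - 15 / 2 : ℝ)) m →
      ∀ ε > 0, ∀ᶠ t in 𝓝[>] 0, ∀ᶠ p in U, ∀ y, Cf κ t (a p) y →
        ‖(A t).symm (t ^ 4 • m t p y) - Bp c D fun i => t⁻¹ • pz (a p) (y i)‖ ≤ ε
  ct : ∀ k (c : Fin k → V), ∀ κ ≥ 1,
    Rm Φ h n a b U O (fun t i => A t (c i)) 0 κ (· ^ (1 / 2 - 4 * k : ℝ)) fun _ => True

end Pool.Agent.Lib.MP_7f377f_mp.Wx
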