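import Pool.Agent.Lib.MP_7f377f_mp.G.KzO
import Pool.Agent.Lib.MP_7f377f_mp.G.KyO

/-! The remainder of the expansion of two normalised letters. -/

noncomputable section

set_option linter.unusedSectionVars false
variable [Pool.Agent.Lib.MP_7f377f_mp.GD]

namespace Pool.Agent.Lib.MP_7f377f_mp.RG.Q4.En.Gl

open MeasureTheory Filter Topology Set YM7 L6 RG.Tl Wy Kz
open RG.Wd (B4 gv)
open Wu (Z4)
open Zg (V0 Og r0 fil)

variable {G : Gl} {𝒜 : Set CM} [Og 𝒜] [Adj 𝒜] {β : ℕ × ℕ → ℝ} {U : Ultrafilter (ℕ × ℕ)}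
  {N : ℕ × ℕ → V0 𝒜 →ₗ[ℝ] V0 𝒜} {A : ℝ → V0 𝒜 ≃ₗ[ℝ] V0 𝒜}

theorem Nz.avp (H : G.Nz 𝒜 β U N A) (t : ℝ) {d : ℕ} {c : V0 𝒜} (h : c ∈ Vp 𝒜 d) : A t c ∈ Vp 𝒜 d :=
  ⟨(H.up t).1 d c h.1, (H.c0 t c).symm.trans ((congrArg (A t) h.2).trans (map_zero _))⟩

theorem cc_vp2 {d : ℕ} {c : V0 𝒜} (h : c ∈ Vp 𝒜 d) : MvPolynomial.constantCoeff c.1 = 0 :=
  (smul_eq_zero.1 ((π0_eq c).symm.trans h.2)).resolve_right fun e =>
    one_ne_zero (congrArg Subtype.val e)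

theorem ev_vol (j u : ℕ) : ∀ᶠ p in fast, ∃ m, (G.wm p.1).N j = m * 3 ^ u :=
  ev_fast.2 (.of_forall fun _ => ((eventually_ge_atTop u).filter_mono hyp_le).mono fun s e =>
    ⟨3 ^ (s + G.e j - u), by
      change (2 * (3 ^ s / 2) + 1) * 3 ^ G.e j = _
      rw [Nat.two_mul_div_two_add_one_of_odd (odd3 s), ← pow_add, ← pow_add]
      congr 1
      omega⟩)

theorem pb_of (o : G.Oks) (tu : G.Tus β) (q : G.HP Sd.StA) (hU : U ≤ fast) (H : G.Nz 𝒜 β U N A)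
    (c : Fin 2 → V0 𝒜) {D D₁ s : ℕ} {κ : ℝ} {d : Fin 2 → ℕ} (_ : 1 ≤ κ) (hs : 2 ≤ s)
    (hd : ∀ l, 1 ≤ d l ∧ d l ≤ s) (h1 : 1 ≤ D₁) (h2 : D₁ ≤ s) (h3 : D ≤ D₁) :
    ∀ᶠ C in atTop, ∀ᶠ j in atTop, ∀ m, (∀ t p x, m t p x ∈ (fil 𝒜).F D) →
      G.Wf β U N s C D₁ j d (fun t i => A t (c i)) (fun t _ => (t ^ 4)⁻¹) κ m →
        G.Pb 𝒜 β U N A c D κ m := by
  have h := (o 0).1
  have ev : ∀ {P : ℕ → Prop}, (∀ᶠ J in atTop, P J) → ∀ᶠ p in (U : Filter (ℕ × ℕ)), P p.2 := fun e =>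
    (tendsto_snd.mono_left (hU.trans fast_le)).eventually e
  obtain ⟨C₀, C0, hC⟩ := Kz.ex_bd (W := (fil 𝒜).F D) (LinearMap.id - (fil 𝒜).π 0)
  filter_upwards [o.fw (𝒜 := 𝒜) q tu hs 0, H.owt s hs, eventually_ne_atTop 0] with C ⟨M, R, _, fw⟩ owt c0
  obtain ⟨δ, -, K, fw⟩ := fw 1 one_pos
  filter_upwards [fw, h.ev_L 9000] with j fw big m hm ⟨a, g, w, wf⟩
  obtain ⟨c₁, owt⟩ := owt w
  obtain ⟨j₀, aok⟩ := eventually_atTop.1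
    (o.aok (κ := Fin 2) q tu (2 * (g + 1) * 2 * (s + 11 + 1)) (s + 11) R)
  obtain ⟨E, hE⟩ := (h.pb_gW (2 * (g + 1) * 2 * (s + 11 + 1)) (s + 11) g s).mul
    (pb_L (2 * c₁ + 2 * a + D + 2 * (2 * G.K0 + 3) * D))
  obtain ⟨K', hK⟩ : ∃ x, x = cCe 2 1 (Real.exp (2 * G.Q j) * G.kArf j (3 ^ (G.dZ j + 1)) 2 (G.Q j)) :=
    ⟨_, rfl⟩
  have K0 : 0 ≤ K' := by
    have := (kq_le 2 (Real.exp_pos (256 * (cJ / G.g j * (3 ^ (G.dZ j + 1) : ℕ) ^ 4 +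
      (2 : ℕ) * G.Q j))).le 2).1
    rw [hK, cCe, kArf, kR]
    positivity
  obtain ⟨n, n0, lev⟩ := h.lev D₁ E (2 * D + 1) w j (20 * g + 21) c0 (Real.exp 4) (K' * (7 + C₀))
  refine ⟨2 * G.K0 + 3 + n, 1, fun η η0 => ?_⟩
  have ti : Tendsto (fun t => G.kt t - (1 + (2 * G.K0 + 3) + n)) (𝓝[>] 0) atTop :=
    (tendsto_sub_atTop_nat _).comp (kt_top o)
  filter_upwards [wf, owt n, kt_ev o, (kt_top o).eventually_ge_atTop (1 + (2 * G.K0 + 3) + n),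
    ti.eventually ((eventually_forall_ge_atTop.2 ((lev _ (half_pos η0)).and (hE.and (h.ev_L η⁻¹)))).and
      (eventually_ge_atTop (j + j₀)))] with t ⟨k, k1, k2, wf⟩ owt ⟨t0, t1, t2⟩ e0 ⟨st, ij⟩
  generalize hi : G.kt t - (1 + (2 * G.K0 + 3) + n) = i at st ij
  obtain ⟨l, hl⟩ : ∃ l, l = i + 1 + (2 * G.K0 + 3) := ⟨_, rfl⟩
  have hκ : G.kt t = l + n := by omega
  obtain ⟨τ, hτ⟩ : ∃ τ, τ = t / G.aa (0, i + 1) := ⟨_, rfl⟩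
  have a0 := G.aa_pos
  have τ0 : 0 < τ := hτ ▸ div_pos t0 (a0 _)
  have ar : ∀ {x y}, x ≤ y → G.aa (0, x) = G.aa (0, y) * G.rt y x := fun e => (aa_rt o e).symm
  have r1 := one_rt (G := G)
  have L1 : (1 : ℝ) ≤ G.L (G.kt t) := le_trans (by norm_num) (h.L1 _)
  have L2 : (G.L (G.kt t) : ℝ) ≤ G.L k := Nat.cast_le.2 (h.L_mono k1)
  have τ1 : 1 ≤ τ * G.rt (G.kt t) (i + 1) := by
    rwa [hτ, ar (show i + 1 ≤ G.kt t by omega), div_mul_eq_mul_div, mul_div_mul_right _ _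
      (by linarith [r1 (G.kt t) (i + 1)]), one_le_div (a0 _)]
  have τ2 : τ ≤ η := by
    have u := (kt_eq o t0).2 (i + 1 + 1) (by omega)
    have v : η⁻¹ ≤ G.rt (i + 1 + 1) (i + 1) := (h.rt_L (i + 1)).symm ▸ (st _ i.le_succ).2.2
    rw [hτ, ar (i + 1).le_succ, div_le_iff₀ (mul_pos (a0 _) (by linarith [r1 (i + 1 + 1) (i + 1)]))]
    rw [inv_le_iff_one_le_mul₀' η0] at v
    nlinarith [a0 (0, i + 1 + 1)]
  have τ3 : (G.rt (G.kt t) (i + 1) : ℝ) ≤ G.L (G.kt t) ^ (2 * G.K0 + 3 + n) := by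
    exact_mod_cast (h.rt_le _ (by omega)).trans_eq (congrArg _ (by omega))
  obtain ⟨p1, p2, p3⟩ := (st l (by omega)).1 k (by omega) (by omega)
  filter_upwards [wf, owt, ev fw, ev ((aok j₀ le_rfl).2 k (by omega)), ev (eventually_ge_atTop k),
    ev ((eventually_all_finite (finite_le_nat (s + 2))).2 fun d _ => h.ka_far (s + 1) C d k K),
    hU (H.bij D₁), hU (H.un o hU), hU (ev_vol (G := G) j (G.dZ j + 1))]
    with p ⟨c', r, hc, wf⟩ owt fw ak kJ ka bj un ⟨m', vol⟩ y hy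
  obtain ⟨v, v1, v2, wq⟩ := wf y hy
  choose P e he using wq
  have g0 := (he 1).2.2.2.1.gs
  simp only [(he 1).2.1, (he 1).2.2.1, Wd.gv_one] at g0
  obtain ⟨z, hz⟩ : ∃ z : Z4, z = (G.rt p.2 (G.kt t) : ℤ) • Pi.single 0 (G.rt (G.kt t) (i + 1) : ℤ) :=
    ⟨_, rfl⟩
  obtain ⟨g1, g2, g3, g4⟩ := h.geo2 (show j ≤ i by omega) hl hκ n0 k1 kJ v1 v2 g0.1 hz
  refine ⟨v, G.rt (G.kt t) (i + 1), τ, ?_, ?_, τ0, τ2, τ1.trans (mul_le_mul_of_nonneg_left τ3 τ0.le),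
    ?_, fun q hq => ?_⟩
  · rintro _ (rfl | rfl | rfl | rfl) <;> refine gs_mono ?_ (Nat.zero_le _)
    exacts [g0.1, add_comm v _ ▸ g0.2 0, add_comm v _ ▸ g0.2 1, hz ▸ g1]
  · rw [← mul_assoc (G.aa p), aa_rt o (i := p.1) (k1.trans kJ), ← ar (by omega), hτ,
      div_mul_cancel₀ _ (a0 _).ne']
  · rw [one_mul, hτ, le_div_iff₀ (a0 _)]
    exact mul_le_of_le_one_right t0.le (aa_le _)
  rw [← hz]
  have os : ∀ x k', G.kt t ≤ k' + n → k' ≤ G.kt t + w → x ∈ G.Gs p.2 0 → ∀ b ∈ Vp 𝒜 D, ∀ y',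
      ‖Kz.rs 𝒜 (t / G.aa (0, k')) b‖ ≤ y' → ∀ γ, (G.wm p.1).Os 𝒜 s C D₁ (β p) p.2 k' (gv γ x)
        (rB 𝒜 γ (N p (A t b))) (G.L (G.kt t) ^ c₁ / t ^ 4 * y') := fun x k' u1 u2 u3 b hb y' u γ => by
    have hb' := vp_mono h3 hb
    have := owt k' u1 u2 _ (gs_gv (gs_mono u3 k'.zero_le) γ) D₁ h2 _ (rB_vp γ D₁ hb')
    rw [rs_rB, rB_norm, H.cm, bj.2.2 γ _ (H.avp t hb').1] at this
    exact this.mono (mul_le_mul_of_nonneg_left u (by positivity))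
  rcases eq_or_ne q 0 with rfl | q0
  · simp [Wy.er]
  obtain ⟨x, hx⟩ : ∃ x, x = (A t).symm (t ^ 4 • m t p y) := ⟨_, rfl⟩
  have x1 : x ∈ (fil 𝒜).F D := hx ▸ (H.up t).2 D _ (Submodule.smul_mem _ _ (hm t p y))
  have x2 : x - (fil 𝒜).π 0 x ∈ Vp 𝒜 D := π0_eq x ▸ vp_sub x1
  have x3 := Submodule.smul_mem _ (t ^ 4)⁻¹ x2
  have x4 : ‖Kz.rs 𝒜 (t / G.aa (0, k)) ((t ^ 4)⁻¹ • (x - (fil 𝒜).π 0 x))‖ ≤
      (t ^ 4)⁻¹ * ((G.L k * G.rt k l) ^ D * (C₀ * ‖x‖)) := by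
    have u : G.aa (0, G.kt t) = _ := ar k1
    have u2 : (G.rt k (G.kt t) : ℝ) ≤ G.rt k l := by
      exact_mod_cast (Nat.le_mul_of_pos_right _ (pow_pos three_pos _)).trans_eq
        (h.rt_rt (show l ≤ G.kt t by omega) k1).symm
    rw [map_smul, norm_smul, Real.norm_of_nonneg (by positivity)]
    refine mul_le_mul_of_nonneg_left ((rs_le ((one_le_div (a0 _)).2 ?_) x2.1).2.trans ?_)
      (by positivity)
    · nlinarith [r1 k (G.kt t), a0 (0, k)]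
    · have := (div_pos t0 (a0 (0, k))).le
      gcongr
      · rw [div_le_iff₀ (a0 _), mul_assoc, mul_comm _ (G.aa _)]
        refine t2.trans (u ▸ ?_)
        have := (a0 (0, k)).le
        gcongr
      · exact hC x x1
  have x5 : ‖Kz.rs 𝒜 (t / G.aa (0, l)) q‖ ≤ G.rt l (i + 1) ^ D * ‖Kz.rs 𝒜 τ q‖ := by
    have : t / G.aa (0, l) = G.rt l (i + 1) * τ := by
      have := r1 l (i + 1)
      have := a0 (0, l)
      rw [hτ, ar (show i + 1 ≤ l by omega)]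
      field_simp
    rw [this, ← rs_mul]
    exact (rs_le (r1 _ _) ((rs_F τ0.ne' D).mapsTo hq.1)).2
  have x6 : 0 < ‖Kz.rs 𝒜 τ q‖ := norm_pos_iff.2 fun u => q0 (by
    rw [← (rs_inv τ0.ne').1 (mem_univ q), u, map_zero])
  obtain ⟨κ', x7⟩ : ∃ κ', ∀ W, G.Oz 𝒜 β N p (m t p y) W =
      Kz.lt 𝒜 (N p (A t ((t ^ 4)⁻¹ • (x - (fil 𝒜).π 0 x)))) W + κ' := by
    obtain ⟨r', u⟩ := un.2 _ ((H.up t).1 0 _ (Submodule.smul_mem _ (t ^ 4)⁻¹ ((fil 𝒜).π_mem 0 x)))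
    have : m t p y = A t ((t ^ 4)⁻¹ • (x - (fil 𝒜).π 0 x)) + A t ((t ^ 4)⁻¹ • (fil 𝒜).π 0 x) := by
      rw [← map_add, ← smul_add, sub_add_cancel, map_smul, hx, LinearEquiv.apply_symm_apply,
        inv_smul_smul₀ (pow_pos t0 4).ne']
    exact ⟨_, fun W => by
      rw [this, map_add, Pi.add_apply, u]
      exact (congrArg (· + r') (sub_add _ _ _)).trans ((sub_add _ _ _).trans (sub_eq_add_neg _ _))⟩
  have x8 : ∀ W, G.Oz 𝒜 β N p (A t q) W = Kz.ct (Fi.tr haar) (β p) (G.nn p) (Kz.lt 𝒜 (N p (A t q))) W :=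
    fun W => (congrArg (_ + ·) (cc_vp2 (bj.1.mapsTo (H.avp t (vp_mono h3 hq))))).trans (add_zero _)
  have y0 : (0 : ℝ) < G.L (G.kt t) ^ a * (t ^ 4)⁻¹ := by positivity
  have := r1 l (i + 1)
  have B := (fw p.1).pair (ak p.1 l g 1 (by omega) (by omega) (by simp) zero_le_one) (by omega) vol
    (Nat.lt_pow_self (by norm_num)) (Nat.cast_le (α := ℝ).1 big) g4
    (fun l => ⟨(hd l).1, (hd l).2.trans le_self_add, y0⟩) h1 (by omega) le_rfl (by nlinarith)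
    ((aok l (by omega)).1) ka (fun γ => ⟨(he γ).2.1, (he γ).2.2.1, (he γ).2.2.2.1⟩)
    (((he 1).2.2.2.2 rfl).elim fun u e' =>
      ⟨κ' - u + Wy.er (Fi.tr haar) (β p) (G.nn p) (Kz.lt 𝒜 (e 1)), fun W => by
        linarith [(e' W).symm.trans (x7 W), show Kz.ct (Fi.tr haar) (β p) (G.nn p) (Kz.lt 𝒜 (e 1)) W =
          Kz.lt 𝒜 (e 1) W - _ from rfl]⟩)
    (os v k (by omega) k2 g0.1 _ x3 _ x4) (by positivity)
    (fun γ => ⟨gs_gv (gs_mono g1 j.zero_le) γ, os _ l (by omega) (by omega) g1 q hq _ x5 γ⟩) g2 g3 κ'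
  rw [← hx, abs_mul, abs_of_pos (pow_pos t0 12)]
  simp only [MP_7f377f_mp.Wx.cl, (hc _).2, x7, x8, ← sub_sub]
  have g5 := (st k (by omega)).2.1
  refine (mul_le_mul_of_nonneg_left (B.trans ((o p.1).1.pair_le (by omega) (by positivity)
    (by positivity) (hK ▸ K0) fun _ => y0.le)) (by positivity)).trans (le_of_eq_of_le ?_
    (pb_num (pow_pos t0 4) L1 L2 (g := G.gW _ _ g s k) ?_ (r1 l (i + 1)) ?_ (r1 k l)
      (zero_le_one.trans (h.Pw1 D₁ C l k)) p1 τ0.le (τ1.trans ?_) ((le_abs_self _).trans g5)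
      (κ := K' / 2 ^ (l - j)) (by positivity) C0 x6.le (norm_nonneg x) h3 p2 (le_of_eq_of_le ?_ p3)))
  · rw [hK, ← pow_mul, sq]
    rfl
  · exact h.gW_nn
  · exact_mod_cast (h.rt_le _ (by omega)).trans ((Nat.pow_le_pow_left (h.L_mono (by omega)) _).trans_eq
      (congrArg _ (by omega)))
  · refine mul_le_mul_of_nonneg_left ?_ τ0.le
    exact_mod_cast (Nat.le_mul_of_pos_left _ (pow_pos three_pos _)).trans_eq
      ((h.rt_rt (by omega) k1).symm.trans ((h.rt_rt (by omega) (by omega)).trans (mul_comm _ _)))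
  · rw [div_mul_eq_mul_div]
    rfl

end Pool.Agent.Lib.MP_7f377f_mp.RG.Q4.En.Gl
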