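import Pool.Agent.Lib.MP_7f377f_mp.G.ZgB
import Pool.Agent.Lib.MP_7f377f_mp.G.BwA
import Pool.Agent.Lib.MP_7f377f_mp.G.SwG

/-! Labels of dimension three; covariance from the generators. -/

noncomputable section

namespace Pool.Agent.Lib.MP_7f377f_mp.Zg
variable [Pool.Agent.Lib.MP_7f377f_mp.GD]
set_option linter.unusedSectionVars false

open MvPolynomial Set YM7 Pur Wm Wv Matrix Sw Zf S3
open Ro (Iso rot)
open scoped Pointwise

variable {d : ℕ} {𝒜 : Set (Matrix (Fin d) (Fin d) ℝ)} [o : Og 𝒜]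

theorem og_sch : Sch 𝒜 := fun M h => o.schur M fun A a => by
  ext i j
  rw [← h A a i j, Finset.sum_comm]
  simp only [mul_apply, transpose_apply, Finset.sum_mul]
  exact Finset.sum_congr rfl fun _ _ => Finset.sum_congr rfl fun _ _ => by ring

theorem hm_qd (I J : Fin 2 → Fin 4) : Hm (qd I J : Lb d ℝ) 4 :=
  .sum _ _ _ fun _ _ => (isWeightedHomogeneous_X ℝ wt _).mul (isWeightedHomogeneous_X ℝ wt _)

theorem cl3 {c : V0 𝒜} (h : c ∈ (fil 𝒜).F 3) : ∃ a : ℝ, c = a • u0 𝒜 := by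
  obtain ⟨a, m, e⟩ := Zf.cl0 og_sch o.two c.2.1 ((mem_Fd.1 h).trans (by norm_num))
  have k : hc 4 c.1 = 0 := mem_Fd'.1 h 4 (by norm_num)
  have q : Hm (∑ I, ∑ J, m I J • qd I J : Lb d ℝ) 4 :=
    .sum _ _ _ fun _ _ => .sum _ _ _ fun _ _ => (hm_qd _ _).smul _
  have z : Hm (C a : Lb d ℝ) 0 := isWeightedHomogeneous_C _ _
  rw [e, map_add, q.hc_eq, z.hc_eq, if_pos rfl, if_neg (by norm_num), zero_add] at k
  refine ⟨a, Subtype.ext ?_⟩
  rw [e, k, add_zero]
  exact (mul_one _).symm.trans (smul_eq_C_mul _ _).symm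

theorem iso_ind {P : Iso → Prop} (h0 : P (rfL 0)) (h1 : ∀ l θ, P (rot l θ))
    (h2 : ∀ a b, P a → P b → P (a * b)) (g : Iso) : P g := by
  have on : ∀ n, ∀ g ∈ gens ^ n, P g := fun n => by
    induction n with
    | zero => rintro g rfl; exact Ro.rot_zero 0 ▸ h1 0 0
    | succ n ih =>
      rw [pow_succ]
      rintro _ ⟨g, hg, _, rfl | ⟨p, rfl⟩, rfl⟩
      exacts [h2 _ _ (ih g hg) h0, h2 _ _ (ih g hg) (h1 _ _)]
  exact on _ g (euler g)

theorem r0_norm (R : Iso) (c : V0 𝒜) : ‖r0 𝒜 R c‖ = ‖c‖ := by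
  change ‖rh (mat R) c.1‖ = ‖c.1‖
  rw [@norm_eq_sqrt_real_inner, @norm_eq_sqrt_real_inner (Lb d ℝ), Zf.inner_eq, Zf.inner_eq,
    fis_rh, ← rh_mul, mat_o, one_smul, rh_one]

theorem r0_der (hd : ∀ l c, HasDerivAt (fun θ => r0 𝒜 (rot l θ) c) (s0 𝒜 l c) 0) (l : Fin 3)
    (c : V0 𝒜) (θ : ℝ) :
    HasDerivAt (fun θ => r0 𝒜 (rot l θ) c) (r0 𝒜 (rot l θ) (s0 𝒜 l c)) θ := by
  let L := (r0 𝒜 (rot l θ)).mkContinuous 1 fun c => by rw [r0_norm, one_mul]
  have a : HasDerivAt (fun x => r0 𝒜 (rot l (x - θ)) c) (s0 𝒜 l c) θ :=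
    HasDerivAt.comp_sub_const θ θ (by rw [sub_self]; exact hd l c)
  refine (L.hasFDerivAt.comp_hasDerivAt θ a).congr_of_eventuallyEq (.of_forall fun x => ?_)
  change _ = (r0 𝒜 (rot l θ) * r0 𝒜 (rot l (x - θ))) c
  rw [← map_mul, Ro.rot_mul, add_sub_cancel]

/-- covariance under the group from covariance under the generators -/
theorem cov_scalar {c : V0 𝒜} (h1 : ∀ l, s0 𝒜 l c = 0) (h2 : ∀ l, r0 𝒜 (rfL l) c = c)
    (hd : ∀ l c, HasDerivAt (fun θ => r0 𝒜 (rot l θ) c) (s0 𝒜 l c) 0) (R : Iso) :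
    r0 𝒜 R c = c := by
  refine iso_ind (P := fun R => r0 𝒜 R c = c) (h2 0) (fun l θ => ?_) (fun a b x y => ?_) R
  · have k : ∀ θ, HasDerivAt (fun θ => r0 𝒜 (rot l θ) c) 0 θ := fun θ => by
      simpa only [h1, map_zero] using r0_der hd l c θ
    simpa using is_const_of_deriv_eq_zero (fun θ => (k θ).differentiableAt)
      (fun θ => (k θ).deriv) θ 0
  · rw [map_mul, Module.End.mul_apply, y, x]

theorem mat_der (l : Fin 3) (α μ : Fin 4) (θ : ℝ) : HasDerivAt (fun θ => mat (rot l θ) α μ)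
    (∑ γ, om l α γ * mat (rot l θ) γ μ) θ := by
  have s := Real.hasDerivAt_sin θ
  have c := Real.hasDerivAt_cos θ
  by_cases h : α = 0
  · subst h
    simp only [mat, of_apply, Ro.rot_zero']
    refine ((c.mul_const _).sub (s.mul_const _)).congr_deriv ?_
    rw [Finset.sum_eq_single l.succ (fun b _ e => by
      simp [om, e, (Fin.succ_ne_zero l).symm]) (by simp), Ro.rot_succ]
    simp only [om, true_and, and_true, if_true, if_false, Fin.succ_ne_zero, false_and]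
    ring
  by_cases h' : α = l.succ
  · subst h'
    simp only [mat, of_apply, Ro.rot_succ]
    refine ((s.mul_const _).add (c.mul_const _)).congr_deriv ?_
    rw [Finset.sum_eq_single 0 (fun b _ e => by simp [om, e]) (by simp), Ro.rot_zero']
    simp only [om, true_and, and_true, if_true, if_false, Fin.succ_ne_zero, false_and]
    ring
  · simp only [mat, of_apply, Ro.rot_ne h h', om, h, h', false_and, if_false, zero_mul,
      Finset.sum_const_zero]
    exact hasDerivAt_const _ _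

theorem mat_rfL (l α μ : Fin 4) : mat (rfL l) α μ = if α = μ then sr l μ else 0 := by
  simp only [mat, of_apply, rfL_eq, rf, sr]
  by_cases h : α = μ
  · subst h
    by_cases k : α = l <;> simp [k]
  · by_cases k : α = l
    · subst k
      simp [h]
    · simp [k, h]

theorem cov_tensor {τ : Fin 4 → Fin 4 → V0 𝒜}
    (h1 : ∀ l μ α, s0 𝒜 l (τ μ α) = ∑ β, (om l β μ • τ β α + om l β α • τ μ β))
    (h2 : ∀ l μ ν, r0 𝒜 (rfL l) (τ μ ν) = (sr l μ * sr l ν) • τ μ ν)
    (hd : ∀ l c, HasDerivAt (fun θ => r0 𝒜 (rot l θ) c) (s0 𝒜 l c) 0) (R : Iso) (μ ν : Fin 4) :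
    r0 𝒜 R (τ μ ν) = ∑ α, ∑ β, (mat R α μ * mat R β ν) • τ α β := by
  revert μ ν
  refine iso_ind (P := fun R => ∀ μ ν, r0 𝒜 R (τ μ ν) = ∑ α, ∑ β, (mat R α μ * mat R β ν) • τ α β)
    (fun μ ν => ?_) (fun l θ μ ν => ?_) (fun a b x y μ ν => ?_) R
  · simp [h2, mat_rfL, ite_smul]
  · have k : ∀ θ, HasDerivAt (fun θ => ∑ α, ∑ β, (mat (rot l θ) α μ * mat (rot l θ) β ν) •
        r0 𝒜 (rot l (-θ)) (τ α β)) 0 θ := fun θ => by
      refine (HasDerivAt.fun_sum fun α (_ : α ∈ Finset.univ) =>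
        HasDerivAt.fun_sum fun β (_ : β ∈ Finset.univ) =>
          ((mat_der l α μ θ).mul (mat_der l β ν θ)).smul
            ((r0_der hd l (τ α β) (-θ)).scomp θ (hasDerivAt_neg θ))).congr_deriv ?_
      simp only [h1, map_sum, map_add, map_smul, Function.comp, Pi.mul_apply]
      generalize mat (rot l θ) = M
      generalize r0 𝒜 (rot l (-θ)) = L
      generalize om l = w
      simp only [Fin.sum_univ_four]
      module
    have e := is_const_of_deriv_eq_zero (fun θ => (k θ).differentiableAt)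
      (fun θ => (k θ).deriv) θ 0
    have z : ∀ c, r0 𝒜 (rot l θ) (r0 𝒜 (rot l (-θ)) c) = c := fun c => by
      rw [← Module.End.mul_apply, ← map_mul, Ro.rot_mul, add_neg_cancel, Ro.rot_zero, map_one]
      rfl
    have := congrArg (r0 𝒜 (rot l θ)) e
    simp only [map_sum, map_smul, z, neg_zero, Ro.rot_zero, mat_one, map_one] at this
    rw [this]
    simp [one_apply, ite_smul]
  · rw [map_mul, Module.End.mul_apply, y]
    simp only [map_sum, map_smul, x, mat_mul, mul_apply]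
    simp only [Fin.sum_univ_four]
    module

end Pool.Agent.Lib.MP_7f377f_mp.Zg
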