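import Pool.Agent.Lib.MP_7f377f_mp.G.KzN5
import Pool.Agent.Lib.MP_7f377f_mp.G.KzO2
import Pool.Agent.Lib.MP_7f377f_mp.G.ZhK1

/-! Clusters of normalised letters merge. -/

noncomputable section

set_option linter.unusedSectionVars false
variable [Pool.Agent.Lib.MP_7f377f_mp.GD]

namespace Pool.Agent.Lib.MP_7f377f_mp.RG.Q4.En.Gl

open MeasureTheory Filter Topology Set YM7 L6 RG.Tl Wy Kz MvPolynomial
open RG.Wd (B4 gv)
open Wu (Z4)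
open Zg (V0 Og r0 fil u0)

attribute [local irreducible] box

variable (G : Gl) {𝒜 : Set CM} [Og 𝒜] [Adj 𝒜]

/-- the part of positive dimension -/
abbrev vq0 (c : V0 𝒜) : V0 𝒜 := c - constantCoeff c.1 • u0 𝒜

/-- the field of `N c` is a centred letter plus a constant, all of size `y` at the level `k` -/
def Dc (s C d : ℕ) (b : ℝ) (J k : ℕ) [NeZero (G.N J)] (N : V0 𝒜 →ₗ[ℝ] V0 𝒜) (c : V0 𝒜) (y : ℝ) :
    Prop :=
  (N (vq0 c) ∈ Vp 𝒜 d ∧ ∀ W, oc (Fi.tr haar) b (G.N J) (N c) W =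
    Kz.ct (Fi.tr haar) b (G.N J) (Kz.lt 𝒜 (N (vq0 c))) W + constantCoeff c.1) ∧
    |constantCoeff c.1| ≤ y ∧ ∀ γ, ∀ z ∈ G.Gs J 0, G.Os 𝒜 s C d b J k z (rB 𝒜 γ (N (vq0 c))) y

section
variable {G} {s C D g a J j k n d : ℕ} {Z b y y' : ℝ} [NeZero (G.N J)] {c : V0 𝒜}
  {v : Z4} {L : Set ((Fz → ℝ) × ℝ)} {N : V0 𝒜 →ₗ[ℝ] V0 𝒜}

theorem Dc.mono (h : G.Dc s C d b J k N c y) (e : y ≤ y') : G.Dc s C d b J k N c y' :=
  ⟨h.1, h.2.1.trans e, fun γ z u => (h.2.2 γ z u).mono e⟩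

theorem oc_vp {n : ℕ} [NeZero n] (h : c ∈ Vp 𝒜 d) (r : ℝ) (W : Fz) :
    oc (Fi.tr haar) b n (c + r • u0 𝒜) W = Kz.ct (Fi.tr haar) b n (Kz.lt 𝒜 c) W + r := by
  have : constantCoeff c.1 = 0 := by
    simpa [u0] using congrArg (fun c : V0 𝒜 => constantCoeff c.1) ((π0_eq c).symm.trans h.2)
  rw [map_add, map_smul, oc_u0]
  change _ + constantCoeff c.1 + r * 1 = _
  rw [this, add_zero, mul_one]

theorem vp_max (h : c ∈ Vp 𝒜 (max D 1)) : c ∈ Vp 𝒜 D := by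
  rcases D.eq_zero_or_pos with rfl | e
  · obtain ⟨a, rfl⟩ := Zg.cl3 ((fil 𝒜).mono (by norm_num) h.1)
    exact ⟨Submodule.smul_mem _ _ (u0_F 0), h.2⟩
  · rwa [max_eq_left e] at h

theorem ct_mir {n : ℕ} [NeZero n] (γ : B4) (v : Z4) (W : Fz) :
    Kz.ct (Fi.tr haar) b n (Kz.lt 𝒜 c) (tz v (Wd.pb Inv.inv γ W)) =
      Kz.ct (Fi.tr haar) b n (Kz.lt 𝒜 (rB 𝒜 γ c)) (tz (gv γ v) W) := by rw [tz_pb, ct_rB]

variable (Y : G.Ly 𝒜 (Fin (n + 1)) s C g a Z b J j k L) (hv : v ∈ G.Gs J 0 ∧ v ∈ box (G.rt J j))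
  (γ : B4)
include Y hv

theorem Ly.pm (h : G.Dc s C d b J j N c y) (d1 : 1 ≤ d) (ds : d ≤ s) (y0 : 0 < y) :
    (fun W => oc (Fi.tr haar) b (G.N J) (N c) (tz v (Wd.pb Inv.inv γ W)), (1 + Z) * y) ∈ L := by
  simp only [h.1.2, ct_mir]
  exact Y.up _ _ _ (Y.pt _ (gs_gv hv.1 γ) (Wd.gv_box γ hv.2) d d1 ds _ (rB_vp γ d h.1.1) y y0
    (fun γ' => by rw [rB_rB]; exact h.2.2 _ _ (gs_gv (gs_gv hv.1 γ) γ')) _) (by linarith [h.2.1])

theorem Ly.wm {d : Fin (n + 1) → ℕ} {c : Fin (n + 1) → V0 𝒜} {y : Fin (n + 1) → ℝ}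
    {x : Fin (n + 1) → Z4} (B : BijOn N (Vp 𝒜 D) (Vp 𝒜 D)) (u : N (u0 𝒜) = u0 𝒜) (hD : max D 1 ≤ s)
    (h : ∀ l, (1 ≤ d l ∧ d l ≤ s) ∧ (v + x l ∈ G.Gs J 0 ∧ v + x l ∈ box (G.rt J j)) ∧ 0 < y l ∧
      G.Dc s C (d l) b J k N (c l) (y l))
    (nf : (∀ l μ, |gv γ (v + x l) μ - gv γ v μ| ≤ (20 * g * G.sJ J k : ℕ)) ∧ ∀ l l', l ≠ l' →
      ∃ μ, (66 * G.sJ J (k + 1) : ℕ) ≤ |gv γ (v + x l) μ - gv γ (v + x l') μ|) :
    ∃ m : (fil 𝒜).F D, (fun W => (MP_7f377f_mp.Wx.cl (oc (Fi.tr haar) b (G.N J) ∘ₗ N) c x -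
        oc (Fi.tr haar) b (G.N J) (N m)) (tz v (Wd.pb Inv.inv γ W)),
        G.L k ^ a * G.Pw (max D 1) C j k * (∏ l, y l) / G.rt k j ^ (max D 1 + 1)) ∈ L ∧
      ∃ P, ∃ e ∈ Vp 𝒜 (max D 1), P.z = gv γ v ∧ (∀ l, P.x l = gv γ (v + x l)) ∧
        G.Wq s C (max D 1) b J j k g d (fun l => rB 𝒜 γ (N (vq0 (c l))))
          (fun l => constantCoeff (c l).1) (fun l => G.L k ^ a * y l) P e ∧
        (γ = 1 → ∃ u, ∀ W, oc (Fi.tr haar) b (G.N J) (N m) W =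
          Kz.ct (Fi.tr haar) b (G.N J) (Kz.lt 𝒜 e) W + u) := by
  obtain ⟨P, e, e1, e2, e3, q, w, hw⟩ := Y.wd _ (le_max_right D 1) hD d _ _ y _ _ (gs_gv hv.1 γ)
    (Wd.gv_box γ hv.2) (fun l =>
      have ⟨a1, a2, a3, a4, a5, a6⟩ := h l
      ⟨a1.1, a1.2, rB_vp γ _ a4.1, a3, a5, gs_gv a2.1 γ, Wd.gv_box γ a2.2, nf.1 l,
        fun γ' => by rw [rB_rB]; exact a6 _ _ (gs_gv (gs_gv a2.1 γ) γ')⟩) nf.2
  have e4 := rB_vp γ⁻¹ D (vp_max e1)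
  obtain ⟨e₀, e5, e6⟩ := B.surjOn e4
  have e7 : ∀ W, oc (Fi.tr haar) b (G.N J) (N (e₀ + w • u0 𝒜)) W = _ := fun W => by
    rw [map_add, map_smul, e6, u, oc_vp e4]
  refine ⟨⟨e₀ + w • u0 𝒜, add_mem e5.1 (Submodule.smul_mem _ _ (u0_F D))⟩, ?_, P, e, e1, e2,
    congrFun e3, q, fun z => ⟨w, by simpa [z] using e7⟩⟩
  convert hw using 3 with W
  simp only [Pi.sub_apply, MP_7f377f_mp.Wx.cl, LinearMap.comp_apply, e7, fun l => (h l).2.2.2.1.2, tz_tz, ct_mir,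
    rB_rB, mul_inv_cancel, map_one, Module.End.one_apply]

end

variable (β : ℕ × ℕ → ℝ) (U : Ultrafilter (ℕ × ℕ)) (N : ℕ × ℕ → V0 𝒜 →ₗ[ℝ] V0 𝒜)

/-- the letters `c t` have the size `y t` at the level `kk t`, up to a power of `L` -/
def Lu (s C d : ℕ) (kk : ℝ → ℕ) (c : ℝ → V0 𝒜) (y : ℝ → ℝ) : Prop :=
  ∃ a : ℕ, ∀ᶠ t in 𝓝[>] (0 : ℝ), 0 < y t ∧ ∀ᶠ p in (U : Filter (ℕ × ℕ)),
    (G.wm p.1).Dc s C d (β p) p.2 (kk t) (N p) (c t) (G.L (kk t) ^ a * y t)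

variable {G β U N} {A : ℝ → V0 𝒜 ≃ₗ[ℝ] V0 𝒜} {s n D : ℕ} {κ : ℝ} {kk : ℝ → ℕ}
  (H : G.Nz 𝒜 β U N A) (o : G.Oks) (tu : G.Tus β) (q : G.HP Sd.StA) (hU : U ≤ fast)
include H o tu q hU

namespace Nz

theorem dc (hs : 2 ≤ s) : ∀ᶠ C in atTop, ∀ᶠ j in atTop, ∀ d, max d 1 ≤ s → ∀ c ∈ (Zg.fil 𝒜).F d,
    ∃ K > 0, ∀ᶠ p in fast, ∀ k, j ≤ k → k ≤ p.2 → (G.wm p.1).Dc s C (max d 1) (β p) p.2 k (N p) c
      (K * (G.Pw (max d 1) C j k * G.rt k j ^ d)) := by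
  filter_upwards [H.own s hs, o.os_up 𝒜 tu q hs] with C a b
  filter_upwards [a, b] with j ⟨K, a⟩ b d hd c hc
  have e := vp_sub hc
  have e' := vp_mono (le_max_left d 1) e
  simp only [Dc, vq0]
  generalize hc' : c - constantCoeff c.1 • u0 𝒜 = c' at e e' ⊢
  refine ⟨|K| * ‖c'‖ + |constantCoeff c.1| + 1, by positivity, ?_⟩
  filter_upwards [a, fast_le (tendsto_snd.eventually b), H.bij (max d 1)] with p a b B k h1 h2
  have p1 : 1 ≤ G.Pw (max d 1) C j k := (o 0).1.Pw1 ..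
  have p2 := Ok.rt0 (G := G) k j d
  have p3 := one_le_mul_of_one_le_of_one_le p1 p2
  have p4 : 0 ≤ |K| * ‖c'‖ := by positivity
  refine ⟨⟨B.1.mapsTo e', fun W => ?_⟩,
    by nlinarith [abs_nonneg (constantCoeff c.1)], fun γ z hz => ?_⟩
  · rw [← oc_vp (B.1.mapsTo e'), ← B.2.1, ← map_smul, ← map_add, ← hc', sub_add_cancel]
  rw [← B.2.2 γ _ e'.1]
  refine (b p.1 z (gs_mono hz j.zero_le) _ (le_max_right ..) hd _ _ k h1 h2
    (a z (gs_mono hz j.zero_le) _ hd _ (rB_vp γ _ e'))).mono ?_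
  rw [rB_norm, mul_comm]
  rcases d.eq_zero_or_pos with rfl | d0
  · rw [show c' = 0 from hc' ▸ sub_eq_zero.2 (f0_eq hc), norm_zero, mul_zero, zero_mul]
    positivity
  · rw [max_eq_left d0] at *
    refine mul_le_mul_of_nonneg_right ?_ (zero_le_one.trans p3)
    linarith [mul_le_mul_of_nonneg_right (le_abs_self K) (norm_nonneg c'),
      abs_nonneg (constantCoeff c.1)]

theorem lu (hs : 2 ≤ s) (hk : Tendsto kk (𝓝[>] 0) atTop) : ∀ᶠ C in atTop, ∀ᶠ j in atTop, ∀ d,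
    max d 1 ≤ s → ∀ c ∈ (Zg.fil 𝒜).F d, G.Lu β U N s C (max d 1) kk (fun _ => c)
      fun t => G.Pw (max d 1) C j (kk t) * G.rt (kk t) j ^ d :=
  (H.dc o tu q hU hs).mono fun C a => a.mono fun j a d hd c hc => ⟨1, by
    obtain ⟨K, -, a⟩ := a d hd c hc
    filter_upwards [hk.eventually_ge_atTop j, hk.eventually ((o 0).1.L_top.eventually_ge_atTop K)]
      with t e1 e2
    have p := one_pos.trans_le (one_le_mul_of_one_le_of_one_le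
      ((o 0).1.Pw1 (max d 1) C j (kk t)) (Ok.rt0 (G := G) (kk t) j d))
    refine ⟨p, ?_⟩
    filter_upwards [hU a, hU (ev_lev o (kk t))] with p' a b
    exact (a _ e1 b).mono (mul_le_mul_of_nonneg_right (e2.trans_eq (pow_one _).symm) p.le)⟩

theorem lu' (hs : 2 ≤ s) (hk : G.Mk κ kk) : ∀ᶠ C in atTop, ∀ d ≤ s, ∀ c ∈ (Zg.fil 𝒜).F d,
    G.Lu β U N s C d kk (fun t => A t c) fun t => (t ^ 4)⁻¹ := by
  obtain ⟨hk, w, e⟩ := hk
  filter_upwards [H.owt s hs] with C a d hd c hc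
  obtain ⟨i, a⟩ := a w
  have f := vp_sub hc
  generalize hc' : c - constantCoeff c.1 • u0 𝒜 = c' at f
  have L := (o 0).1.L_top.comp hk
  refine ⟨i + (G.K0 + 1) * d + 1, ?_⟩
  filter_upwards [a 0, e, self_mem_nhdsWithin, L.eventually_ge_atTop (66 * κ),
    L.eventually_ge_atTop ‖c'‖, H.af o hU 1 ![(Zg.fil 𝒜).π 0 c] 1 le_rfl 1 one_pos,
    L.eventually_ge_atTop (|Zg.fp0 𝒜 1 ![(Zg.fil 𝒜).π 0 c] 0| + 1)]
    with t a ⟨e1, e2, _, e3, e4⟩ (t0 : 0 < t) (l1 : _ ≤ (G.L _ : ℝ)) (l2 : _ ≤ (G.L _ : ℝ)) b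
      (l3 : _ ≤ (G.L _ : ℝ))
  have t4 : 0 < t ^ 4 := by positivity
  have l4 : (1000 : ℝ) ≤ G.L (kk t) := (o 0).1.L1 _
  have g : A t c = A t c' + constantCoeff (A t c).1 • u0 𝒜 := by
    rw [← π0_eq, ← H.c0, ← map_add, π0_eq, ← hc', sub_add_cancel]
  have f' : ∀ c ∈ Vp 𝒜 d, A t c ∈ Vp 𝒜 d := fun c u =>
    ⟨(H.up t).1 d c u.1, (H.c0 t c).symm.trans ((congrArg _ u.2).trans (map_zero _))⟩
  refine ⟨inv_pos.2 t4, ?_⟩
  filter_upwards [a, b, hU (H.bij d)] with p a b B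
  rw [Dc, vq0, sub_eq_of_eq_add g]
  refine ⟨⟨B.1.mapsTo (f' _ f), fun W => ?_⟩, ?_, fun γ z hz => ?_⟩
  · rw [← oc_vp (B.1.mapsTo (f' _ f)), ← B.2.1, ← map_smul, ← map_add, ← g]
  · have := b 0 ⟨by simp [t0.le], fun i j u => (u (Subsingleton.elim ..)).elim⟩
    simp only [MP_7f377f_mp.Wx.cl, Fin.prod_univ_one, Matrix.cons_val_zero, H.c0, π0_eq (A t c), map_smul, Oz_ap,
      B.2.1, oc_u0, Pi.smul_apply, Pi.one_apply, smul_eq_mul, mul_one, ex_const] at this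
    rw [show (fun i : Fin 1 => t⁻¹ • pz (G.aa p) ((0 : Fin 1 → Z4) i)) = 0 from funext fun _ => by
      ext; simp [pz], ← Complex.ofReal_pow, ← Complex.ofReal_mul, ← Complex.ofReal_sub,
      Complex.norm_real, Real.norm_eq_abs] at this
    rw [← div_eq_mul_inv, le_div_iff₀' t4, ← abs_of_pos t4, ← abs_mul]
    linarith [abs_sub_abs_le_abs_sub (t ^ 4 * constantCoeff (A t c).1)
      (Zg.fp0 𝒜 1 ![(Zg.fil 𝒜).π 0 c] 0), le_self_pow₀ (show (1 : ℝ) ≤ G.L (kk t) by linarith)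
        (show i + (G.K0 + 1) * d + 1 ≠ 0 by omega)]
  rw [← B.2.2 γ _ (f' _ f).1, ← H.cm]
  refine (a _ e1 e2 z (gs_mono hz (Nat.zero_le _)) d hd _ (rB_vp γ _ f)).mono ?_
  have a0 := G.aa_pos (0, kk t)
  have u := (rs_le ((one_le_div a0).2 e3) (rB_vp γ _ f).1).2
  rw [rB_norm] at u
  calc _ ≤ (G.L (kk t) : ℝ) ^ i / t ^ 4 * ((G.L (kk t) * G.L (kk t) ^ G.K0) ^ d * G.L (kk t)) := by
        refine mul_le_mul (by gcongr; exact (o 0).1.L_mono e1) (u.trans ?_) (norm_nonneg _)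
          (by positivity)
        gcongr
        rw [div_le_iff₀ a0]
        exact e4.trans (by gcongr)
    _ = _ := by ring

theorem rm {d : Fin (n + 1) → ℕ} (d1 : ∀ l, 1 ≤ d l) {c : ℝ → Fin (n + 1) → V0 𝒜} (κ1 : 1 ≤ κ)
    {x : ℝ} (i : ℕ) (hx : x = D + 1 / 2 - i) {P : _ → Prop} (h : ∀ kk, G.Mk κ kk → ∀ᶠ s in atTop, ∀ᶠ C in atTop,
      ∀ᶠ j in atTop, ∃ (y : ℝ → Fin (n + 1) → ℝ) (f : ℕ → ℝ), G.Ng f ∧
        (∀ l, G.Lu β U N s C (d l) kk (c · l) (y · l)) ∧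
        (∀ᶠ t in 𝓝[>] (0 : ℝ), ∏ l, y t l ≤ f (kk t) * G.rt (kk t) j ^ i) ∧
        ∀ m, (∀ t p x, m t p x ∈ (Zg.fil 𝒜).F D) → G.Wf β U N s C (max D 1) j d c y κ m → P m) :
    MP_7f377f_mp.Wx.Rm (Zg.fil 𝒜) (Fi.tr haar) G.nn G.aa β U (G.Oz 𝒜 β N) c D κ (· ^ x) P := by
  intro A₀ fin
  have O := (o 0).1
  obtain ⟨kk, hk⟩ := ex_kk o κ1
  obtain ⟨g, hg⟩ := exists_nat_ge (66 * κ ^ 2 / 20)
  obtain ⟨s, hs, s2, sD, sd, sA⟩ := ((h kk hk).and ((eventually_ge_atTop 2).and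
    ((eventually_ge_atTop (max D 1)).and ((eventually_all.2 fun l => eventually_ge_atTop (d l)).and
      ((eventually_all_finite fin).2 fun a _ => ((Zg.fil 𝒜).ex a).elim fun i e =>
        (eventually_ge_atTop i).mono fun _ u => (Zg.fil 𝒜).mono u e))))).exists
  obtain ⟨C, hC, ⟨a, sl⟩, dc, C0⟩ := (hs.and ((o.slots 𝒜 (Fin (n + 1)) tu q s2 g).and
    ((H.dc o tu q hU s2).and (eventually_ne_atTop 0)))).exists
  obtain ⟨_, hE⟩ := O.ex_cel0 (hC.and (sl.and dc))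
  refine .of_forall fun e => ?_
  obtain ⟨j, ⟨⟨y, f, nf, lu, bu, hP⟩, sl, dc⟩, (hu : G.dZ j + 1 < G.uZ e j), -⟩ := hE e
  obtain ⟨Z, Z0, sl⟩ := sl (G.uZ e j) (odd3 _) hu
  have s1 : max s 1 ≤ s := by omega
  choose a₁ lu using lu
  choose! Kp K0 dc using fun a (u : a ∈ A₀) => dc s s1 a (sA a u)
  obtain ⟨K₁, hK⟩ := (fin.image fun a =>
    (1 + Z) * (Kp a * (G.Pw (max s 1) C j j * G.rt j j ^ s))).bddAbove
  obtain ⟨K₂, K2, b2⟩ := Ng.budget o (((((ng_L o).pow a).mul (ng_Pw o (max D 1) C0 j)).mul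
    (Ng.prod Finset.univ fun l => (ng_L o).pow (a₁ l))).mul nf)
    ((ng_const (66 * κ)).mul ((ng_L o).pow G.K0)) j i D hx
  obtain ⟨hk, w, ek⟩ := hk
  have u1 : 25 ≤ G.uZ e j := by
    have : 0 < G.L j ^ (G.K0 + 1) := pow_pos (by linarith [show 1000 ≤ G.L j from O.L_big j]) _
    unfold dZ at hu; omega
  have e1 : e ≤ G.e j + 2 := by
    by_contra a
    rw [uZ, Nat.sub_eq_zero_of_le (not_le.1 a).le] at u1
    omega
  have e2 : ∀ᶠ t in 𝓝[>] (0 : ℝ), ∀ᶠ p in (U : Filter (ℕ × ℕ)), ∃ L, Wy.E0 (Fi.tr haar) (β p) (G.nn p)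
      (G.rt p.2 j * G.uZ e j) Prod.fst L Prod.snd (G.vlZ (G.uZ e j) j) ∧
      (G.wm p.1).Ly 𝒜 (Fin (n + 1)) s C g a Z (β p) p.2 j (kk t) L :=
    (hk.eventually sl).mono fun t a => hU (ev_fast.2 (a.mono fun J a =>
      ((eventually_ge_atTop 2).filter_mono hyp_le).mono fun s s2 => a _ (3 ^ (s + e - 2)) (by
        change (2 * (3 ^ s / 2) + 1) * 3 ^ G.e j = _
        rw [Nat.two_mul_div_two_add_one_of_odd (odd3 s), uZ, ← pow_add, ← pow_add]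
        congr 1
        omega)))
  obtain ⟨L, e2⟩ := (e2.mono fun _ h => h.choice).choice
  obtain ⟨S, hS, hv⟩ := (ex_v o (Fin (n + 1)) κ).exists_mem
  choose! v hv using hv
  obtain ⟨γ, γ1, γ2⟩ := ex_B4
  choose! M hM using fun t (p : ℕ × ℕ) x γ Y hv => Ly.wm (G := G.wm p.1) (s := s) (C := C) (D := D)
    (g := g) (a := a) (Z := Z) (b := β p) (J := p.2) (j := j) (k := kk t) (L := L t p) (v := v t p x)
    (N := N p) (d := d) (c := c t) (y := fun l => G.L (kk t) ^ a₁ l * y t l) (x := x) Y hv γ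
  refine ⟨_, max K₂ K₁, fun g t p x => M t p x (γ g), vlZ_nn O (G.uZ e j) j, le_max_of_le_left K2,
    fun _ _ _ _ => (M ..).2, hP _ (fun _ _ _ => (M ..).2) ⟨2 * (a + ∑ l, a₁ l), g, w, ?_⟩, ?_⟩
  all_goals
    filter_upwards [e2, hS, ek, eventually_all.2 lu, (kt_top o).eventually_ge_atTop (j + 2), bu,
      hk.eventually b2, self_mem_nhdsWithin, (O.L_top.comp (kt_top o)).eventually_ge_atTop (3 ^ w)]
      with t e2 tS ⟨k0, k1, k2, k3, k4⟩ lu tj bu b2 (t0 : 0 < t) (l3 : _ ≤ (G.L _ : ℝ))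
    try refine ⟨kk t, k0, k1, ?_⟩
    filter_upwards [e2, eventually_all.2 fun l => (lu l).2, hU (ev_lev o (kk t + 1)), hU (H.bij D),
      hU ((eventually_all_finite fin).2 dc)] with p e2 lu' hp B dc
    have l1 k : (1 : ℝ) ≤ G.L k := by linarith [show (1000 : ℝ) ≤ G.L k from O.L1 _]
    have r : G.rt p.2 (G.kt t - 2) ≤ G.rt p.2 j := Nat.pow_le_pow_right three_pos
      (Nat.sub_le_sub_left (O.sch.mono.monotone (by omega)) _)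
    have hv := fun x (c : MP_7f377f_mp.Wx.Cf κ t (G.aa p) x) => hv t tS p (by omega) x c.1
    have v0 := fun x c => And.intro (hv x c).2.2.1
      (box_mono ((Nat.div_le_self ..).trans r) (hv x c).1)
    have hM := fun x c γ => hM t p x γ e2.2 (v0 x c) B.1 B.2.1 sD (fun l => ⟨⟨d1 l, sd l⟩,
      ⟨((hv x c).2.2.2 l).1, box_mono r ((hv x c).2.2.2 l).2⟩,
      mul_pos (pow_pos (one_pos.trans_le (l1 _)) _) (lu l).1, lu' l⟩)
      (cf_nf o c κ1 (by linarith) hp k2 k4 γ _)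
  · refine ⟨_, _, fun l => (lu' l).1, fun x c => ⟨_, (hv x c).1, (hv x c).2.1, fun γ' => ?_⟩⟩
    obtain ⟨-, P, e, e1, e2, e3, e4, e5⟩ := hM x c γ'
    refine ⟨P, e, e1, e2, e3, e4.mono fun l => ?_, fun z => (γ1.trans z.symm).symm ▸ e5 z⟩
    change (G.L (kk t) : ℝ) ^ a * _ ≤ _
    rw [← mul_assoc, ← pow_add, pow_mul]
    refine mul_le_mul_of_nonneg_right ((pow_le_pow_right₀ (l1 _) (Nat.add_le_add_left
      (Finset.single_le_sum (fun _ _ => Nat.zero_le _) (Finset.mem_univ l)) a)).trans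
        (pow_le_pow_left₀ (Nat.cast_nonneg _) ?_ _)) (lu l).1.le
    have : (G.L (kk t) : ℝ) ≤ 3 ^ w * G.L (G.kt t) := by
      exact_mod_cast (show G.L _ ≤ 3 ^ w * G.L _ from (O.L_mono k1).trans (O.L_add _ w))
    nlinarith [l1 (G.kt t)]
  have a0 := G.aa_pos p
  have ea : G.aa p * (G.rt p.2 j * G.uZ e j : ℕ) = 9 / 3 ^ e := by
    have : G.e j ≤ G.e p.2 := O.sch.mono.monotone (by omega)
    rw [aa, rt, uZ, ← pow_add, inv_mul_eq_div, div_eq_div_iff (by positivity) (by positivity)]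
    push_cast
    rw [← pow_add, show (9 : ℝ) = 3 ^ 2 by norm_num, ← pow_add]
    congr 1
    omega
  have pt := fun v hv g a u => e2.2.up _ _ _ (e2.2.pm (v := v) hv (γ g) (dc a u j le_rfl (by omega))
    (le_max_right ..) s1 (mul_pos (K0 a u) (one_pos.trans_le (one_le_mul_of_one_le_of_one_le
      (O.Pw1 ..) (Ok.rt0 ..))))) ((hK ⟨a, u, rfl⟩).trans (le_max_right K₂ _))
  simp only [show ∀ g v X, MP_7f377f_mp.Wx.mr g v X = fun W => X (tz v (Wd.pb Inv.inv (γ g) W)) from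
    fun g v X => funext fun W => γ2 g W ▸ rfl]
  refine ⟨_, L t p, ea, e2.1, pt 0 ⟨gs_zero, Op.mem_box.2 (by simp)⟩, fun x c =>
    ⟨v t p x, fun l => ?_, fun g => ⟨e2.2.up _ _ _ (hM x c _).1 ?_, pt _ (v0 x c) g⟩⟩⟩
  · have := abs_le.2 (Op.mem_box.1 (hv x c).1 l)
    have : 50 * |v t p x l| ≤ (G.rt p.2 j * G.uZ e j : ℕ) := by
      have := Nat.mul_le_mul_left (G.rt p.2 j) u1
      omega
    rw [← ea, abs_mul, abs_of_pos a0, mul_div_assoc, ← Int.cast_abs]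
    exact mul_le_mul_of_nonneg_left ((le_div_iff₀' (by norm_num)).2 (by exact_mod_cast this)) a0.le
  refine .trans ?_ ((b2 t k3 k4).trans (mul_le_mul_of_nonneg_right (le_max_left ..) (by positivity)))
  have p1 : 1 ≤ G.Pw (max D 1) C j (kk t) := O.Pw1 ..
  change G.L _ ^ a * G.Pw _ C j _ * _ / (G.rt _ j : ℝ) ^ _ ≤ _
  rw [Finset.prod_mul_distrib, ← mul_assoc, mul_assoc _ (f _)]
  have := Finset.prod_nonneg fun l (_ : l ∈ Finset.univ) => (lu l).1.le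
  have := (Ok.rt0 (G := G) (kk t) j 1).trans_eq (pow_one _)
  gcongr
  · exact mul_nonneg (by positivity) (by linarith)
  · exact le_max_left ..

theorem rmF {c : Fin (n + 1) → V0 𝒜} (d : Fin (n + 1) → ℕ) (hc : ∀ l, c l ∈ (Zg.fil 𝒜).F (d l))
    (κ1 : 1 ≤ κ) {x : ℝ} (hx : x = D + 1 / 2 - (∑ l, d l : ℕ)) : MP_7f377f_mp.Wx.Rm (Zg.fil 𝒜)
      (Fi.tr haar) G.nn G.aa β U (G.Oz 𝒜 β N) (fun _ => c) D κ (· ^ x) fun _ => True :=
  H.rm o tu q hU (d := fun l => max (d l) 1) (fun _ => le_max_right ..) κ1 _ hx fun kk hk => by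
    filter_upwards [eventually_ge_atTop 2, eventually_all.2 fun l =>
      eventually_ge_atTop (max (d l) 1)] with s s2 sd
    filter_upwards [H.lu o tu q hU s2 hk.1, eventually_ne_atTop 0] with C a C0
    exact a.mono fun j a => ⟨fun t l => G.Pw (max (d l) 1) C j (kk t) * G.rt (kk t) j ^ d l, _,
      .prod Finset.univ fun l => ng_Pw o (max (d l) 1) C0 j, fun l => a _ (sd l) _ (hc l),
      .of_forall fun t => by rw [Finset.prod_mul_distrib, Finset.prod_pow_eq_pow_sum],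
      fun _ _ _ => trivial⟩

theorem rmA (c : Fin (n + 1) → V0 𝒜) (κ1 : 1 ≤ κ) {x : ℝ} (hx : x = D + 1 / 2 - (4 * (n + 1) : ℕ))
    {P : _ → Prop} (h : ∀ (d : Fin (n + 1) → ℕ) (s : ℕ), 2 ≤ s → (∀ l, 1 ≤ d l ∧ d l ≤ s) →
      max D 1 ≤ s → ∀ᶠ C in atTop, ∀ᶠ j in atTop, ∀ m, (∀ t p x, m t p x ∈ (Zg.fil 𝒜).F D) →
        G.Wf β U N s C (max D 1) j d (fun t i => A t (c i)) (fun t _ => (t ^ 4)⁻¹) κ m → P m) :
    MP_7f377f_mp.Wx.Rm (Zg.fil 𝒜) (Fi.tr haar) G.nn G.aa β U (G.Oz 𝒜 β N) (fun t i => A t (c i)) D κ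
      (· ^ x) P := by
  choose d hd using fun l => (Zg.fil 𝒜).ex (c l)
  refine H.rm o tu q hU (d := fun l => d l + 1) (fun _ => Nat.le_add_left ..) κ1 _ hx fun kk hk => ?_
  filter_upwards [eventually_ge_atTop 2, eventually_all.2 fun l => eventually_ge_atTop (d l + 1),
    eventually_ge_atTop (max D 1)] with s s2 sd sD
  filter_upwards [H.lu' o tu q hU s2 hk, h _ s s2 (fun l => ⟨Nat.le_add_left .., sd l⟩) sD] with C a b
  refine b.mono fun j b => ⟨_, _, ng_const ((G.aa (0, j))⁻¹ ^ (4 * (n + 1))),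
    fun l => a _ (sd l) _ ((Zg.fil 𝒜).mono (d l).le_succ (hd l)), ?_, b⟩
  obtain ⟨hk, w, e⟩ := hk
  filter_upwards [e, hk.eventually_ge_atTop j] with t ⟨_, _, _, e, _⟩ hj
  have a0 := G.aa_pos (0, kk t)
  rw [Finset.prod_const, Finset.card_fin, ← inv_pow, ← pow_mul, ← mul_pow, ← aa_rt o (i := 0) hj,
    mul_inv, inv_mul_cancel_right₀ (Nat.cast_pos.2 (pow_pos three_pos _)).ne']
  exact pow_le_pow_left₀ (inv_pos.2 (a0.trans_le e)).le (inv_anti₀ a0 e) _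

theorem rn (hF : Wy.Fm G.nn G.aa β) :
    MP_7f377f_mp.Wx.Rn (Zg.fil 𝒜) (Fi.tr haar) G.nn G.aa β U (G.Oz 𝒜 β N) A Zg.Bp where
  m1 d c hc κ κ1 := H.rmF o tu q hU (fun _ => d) (by simpa) κ1 (by simp; ring)
  m2 c' hc' d c hc κ κ1 := by
    constructor <;> exact H.rmF o tu q hU ![4, d] (by simp [*]) κ1 (by simp; ring)
  op c D κ κ1 := ⟨_, H.rmA o tu q hU c κ1 (by simp; ring) fun d s s2 hd hD =>
    pb_of o tu q hU H c κ1 s2 hd (le_max_right ..) hD (le_max_left ..),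
    fun m P E => H.ope o hU κ1 P E hF⟩
  ct k c κ κ1 := by
    rcases k with _ | n
    swap
    · exact H.rmA o tu q hU c κ1 (by simp) fun _ _ _ _ _ =>
        .of_forall fun _ => .of_forall fun _ _ _ _ => trivial
    refine fun A₀ fin => (H.rmF o tu q hU (c := ![u0 𝒜]) (D := 0) (fun _ => 0) (by simpa using u0_F 0)
      κ1 (x := 1 / 2 - 4 * (0 : ℕ)) (by simp) A₀ fin).mono fun e ⟨C, K, m, a1, a2, a3, _, a⟩ =>
        ⟨C, K, fun g t p _ => m g t p 0, a1, a2, fun _ _ _ _ => a3 .., trivial, ?_⟩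
    filter_upwards [a, self_mem_nhdsWithin] with t a (t0 : 0 < t)
    filter_upwards [a, hU (H.un o hU)] with p ⟨l, L, b1, b2, b3, b⟩ u
    refine ⟨l, L, b1, b2, b3, fun y _ => ?_⟩
    convert b 0 ⟨by simp; positivity, fun i j u => by omega⟩ using 8
    ext W
    simp [MP_7f377f_mp.Wx.cl, u.1]

end Nz

end Pool.Agent.Lib.MP_7f377f_mp.RG.Q4.En.Gl
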