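import Pool.Agent.Lib.MP_7f377f_mp.G.KzW

/-! Arrays of letters and the centring of words by the true means. -/

noncomputable section

open Pool.Agent.Lib.MP_7f377f_mp.Jet

set_option linter.unusedSectionVars false
variable [Pool.Agent.Lib.MP_7f377f_mp.GD]

namespace Pool.Agent.Lib.MP_7f377f_mp.RG.Q4.En.Gl

open Finset Function Sg Real Pos Mg
open L6 (Fz)
open Wy (tz)
open scoped Classical

attribute [local irreducible] box lbox tb tau rc

variable {α β γ κ : Type} [Fintype α] [DecidableEq α] [Fintype β] [Fintype γ] [DecidableEq γ]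
  [Fintype κ] [DecidableEq κ] [Inhabited κ]
  {G : Gl} {w : α → ℕ} {b M δ K C₀ x : ℝ} {d D C J j k i l R A n g u m' r : ℕ}
  {ω : ℕ → ℝ} {p : ℕ → (α → ℝ) →ₗ[ℝ] V} {lm : ℕ → V →ₗ[ℝ] α → ℝ}
  {U U' : ℕ → Module.End ℝ (α → ℝ)} {m : β → ℕ} {X : β → Lq} {s : β → ℂ}
  {P : Ptw κ} {z : St} {Z : Lq}

/-- radii which double below the level `k + 1` -/
def rY (G : Gl) (n k : ℕ) (x : ℝ) (i : ℕ) : ℝ := 2 ^ (k + 1 - i) * G.rX n k x i

/-- the letter `Z` has the weight `x` at all the translates of `z` of level `j`, from the level `j`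
on -/
def Lwt (G : Gl) (A n : ℕ) (b : ℝ) (J k j R : ℕ) (z : St) (Z : Lq) (x : ℝ) : Prop :=
  0 < x ∧ ∀ y, G.RxA A b J j R (G.rY n k x) (G.jx J (z + (G.rt J j : ℤ) • y) Z)

theorem rY_pos (x0 : 0 < x) : 0 < G.rY n k x i := mul_pos (by positivity) (Ok.rX_pos x0)

theorem rY_hi (e : k < i) : G.rY n k x i = G.rX n k x i := by
  rw [rY, Nat.sub_eq_zero_of_le e, pow_zero, one_mul]

theorem rY_lo (e : i ≤ k + 1) :
    G.rY n k x i = (x * (G.rt (k + 3) k : ℝ) ^ n / 2 ^ (k + 1 - i))⁻¹ := by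
  rw [rY, rX, max_eq_right (by omega), inv_div, div_eq_mul_inv]

theorem rY_two (e : i ≤ k) : 2 * G.rY n k x (i + 1) = G.rY n k x i := by
  rw [rY, rY, rX, rX, max_eq_right (by omega), max_eq_right (by omega), ← mul_assoc, ← pow_succ',
    show k + 1 - (i + 1) + 1 = k + 1 - i by omega]

theorem RxA.hi {F : Sx} (e : G.RxA A b J j R (G.rY n k x) F) (h : j ≤ k) (h' : k < J) :
    G.RxA A b J (k + 1) R (G.rX n k x) F :=
  ⟨by rw [← rY_hi h']; exact e.1, fun i u u' => by rw [← rY_hi u]; exact e.2 i (by omega) u'⟩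

theorem Lwt.at (e : G.Lwt A n b J k j R z Z x) : G.RxA A b J j R (G.rY n k x) (G.jx J z Z) := by
  simpa using e.2 0

theorem Lwt.tr (e : G.Lwt A n b J k j R z Z x) (y : St) :
    G.Lwt A n b J k j R (z + (G.rt J j : ℤ) • y) Z x :=
  ⟨e.1, fun y' => by rw [add_assoc, ← smul_add]; exact e.2 _⟩

/-- letters of a frame -/
theorem Fk.lw (F : G.Fk w d D C M (G.tk z J) b J j ω p lm U U' R δ K m X) (hj : j ≤ k)
    (hk : k < J) (big : ∀ i ≥ k, G.Big A i) (hn : d + 9 ≤ n) (hJ : K / G.ka D C J ^ d ≤ G.rt J k)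
    (x0 : 0 < x) (hx : ∀ i, j ≤ i → i ≤ k → G.QA A k ^ 345 * (2 ^ (k - i) *
      ‖G.ys w d D C (G.tk z J) b J j p (G.fl D C J m X s) i‖) ≤ x) :
    G.Lwt A n b J k j R z (G.fl D C J m X s) x := ⟨x0, fun y => by
  have h := F.T.ok
  have r := h.trl_tk (J := J) (j := j) z y
  have F' := F.trl r
  have a := F'.rX (s := s) hj hk big hn hJ x0 (by
    have := hx k hj le_rfl
    rwa [Nat.sub_self, pow_zero, one_mul, ← F.T.ys_trl r _ hj hk.le] at this)
  rw [tk_top] at a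
  refine ⟨by rw [rY_hi hk]; exact a.1, fun i h1 h2 => (lt_or_ge k i).elim
    (fun u => by rw [rY_hi u]; exact a.2 i u h2) fun h3 => ?_⟩
  have r0 := rY_pos (G := G) (n := n) (k := k) (i := i) x0
  have M1 := F.T.M1
  have e := F'.szW (A := A) le_rfl h1 (F'.cone s h1 h2) le_rfl (inv_pos.2 r0) (norm_nonneg _)
    (by rw [← ys]; nlinarith [norm_nonneg (G.ys w d D C (G.tk (z + (G.rt J j : ℤ) • y) J) b J j p
      (G.fl D C J m X s) i)]) (by
      have a1 := hx i h1 h3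
      have a2 : (2 : ℝ) ≤ (G.rt (k + 3) k : ℝ) ^ n := le_trans (by
        have := h.rt_up2 (k := k) (show k + 1 ≤ k + 3 by omega)
        rw [h.rt_L] at this
        linarith [h.L1 k]) (le_self_pow₀ (by simpa using Ok.rt0 (G := G) (k + 3) k 1) (by omega))
      rw [rY_lo (by omega), inv_inv, F.T.ys_trl r _ h1 h2, le_div_iff₀ (by positivity),
        show k + 1 - i = k - i + 1 by omega, pow_succ 2, ← mul_assoc]
      refine mul_le_mul (le_trans ?_ a1) a2 two_pos.le x0.le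
      have := h.QA0 A i
      rw [mul_assoc, mul_comm ‖_‖]
      gcongr
      exact h.QA_mono h3)
  rwa [inv_inv, F'.lv s h1 (h3.trans_lt hk), tk_top] at e⟩

/-- words of letters with weights -/
theorem Aok.wok2 (a : G.Aok κ A n g C₀ b J k l R) (hj : j ≤ k)
    (near : ∀ l, nearT (G.N J) (20 * g * G.sJ J k) P.z (P.x l))
    (far : ∀ l l', l ≠ l' → ∀ D, nearT (G.N J) D (P.x l) (P.x l') → 66 * G.sJ J (k + 1) ≤ D)
    (lt : ∀ l, G.Lwt A n b J k j R (P.x l) (P.Y l) (P.u l))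
    (ce : ∀ l, ‖G.ex b J (k + 1) (G.jx J (P.x l) (P.Y l)) - P.a l‖ ≤
      C₀ * (P.u l * (G.rt (k + 3) k : ℝ) ^ n)) (y : St) :
    G.Wok A n g C₀ b J k R (P.tr ((G.rt J j : ℤ) • y)) := by
  have h := a.ok
  refine ⟨fun l => (nearT_add_right _).2 (near l), fun l l' u E v =>
    far l l' u E ((nearT_add_right _).1 v), fun l => ((lt l).2 y).hi hj a.lt, fun l => ?_⟩
  have := ce l
  rwa [← h.ex_jx a.lt _ ((G.rt (k + 1) j : ℤ) • y), ← mul_smul, ← Nat.cast_mul,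
    ← h.rt_rt (hj.trans k.le_succ) a.lt] at this

theorem er_mr {n : ℕ} [NeZero n] {T : Fz → ℝ} (c : Continuous T) (g : Fin 4 → Bool) (v : St) :
    Wy.er (Fi.tr haar) b n (MP_7f377f_mp.Wx.mr g v T) = Wy.er (Fi.tr haar) b n T := by
  have : (Fi.tr haar).IsHaarMeasure := (inferInstance : haar.IsHaarMeasure)
  have c' : ∀ μ t, Continuous (MP_7f377f_mp.Wx.pw (Wy.rz μ) t) := fun μ t => by
    cases t
    exacts [Wy.cont_rz μ, continuous_id]
  refine (Kz.flip_const (f := fun g => Wy.er (Fi.tr haar) b n (MP_7f377f_mp.Wx.mr g v T))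
    (fun e μ => ?_) (fun _ => true) g).trans (Wy.er_tz (.of_continuous c) v)
  rw [funext (MP_7f377f_mp.Wx.mr_rz e μ)]
  exact Wy.er_rz (.of_continuous (c.comp ((Wy.cont_tz v).comp
    ((c' 0 _).comp ((c' 1 _).comp ((c' 2 _).comp (c' 3 _))))))) μ

namespace Aok

variable (a : G.Aok κ A n g C₀ b J k j R) (n0 : n ≠ 0)
include a n0

/-- families of separated letters -/
theorem src {z : γ → St} {Z : γ → Lq} {x : γ → ℝ} (x0 : ∀ q, 0 < x q)
    (e : ∀ q, G.RxA A b J j R (G.rY n k (x q)) (G.jx J (z q) (Z q)))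
    (sep : ∀ q q', q ≠ q' → ∀ E, nearT (G.N J) E (z q) (z q') → 21 * (G.L j * G.sJ J j) ≤ E) :
    ∀ i ≤ J, j ≤ i → G.Fd i (G.zz b J i) univ (fun q => G.rY n k (x q) i) (fun q => G.rY n k (x q) i)
      (G.Q i ^ 329)⁻¹ (G.xw b J i (fun q => G.jx J (z q) (Z q)) fun q => {rc (G.N J) (z q)})
      (fun s => G.tt (pr b (G.N J) (fun q U => -xO (G.N J) (G.jx J (z q) (Z q)) U) s) J i) ∧
      (G.xw b J i (fun q => G.jx J (z q) (Z q)) fun q => {rc (G.N J) (z q)}).bs = (G.zz b J i).d ∧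
      (G.xw b J i (fun q => G.jx J (z q) (Z q)) fun q => {rc (G.N J) (z q)}).Ec univ id ∧
      (∀ q, jd {q} (G.xw b J i (fun q => G.jx J (z q) (Z q)) fun q => {rc (G.N J) (z q)}).E =
        G.ex b J i (G.jx J (z q) (Z q)) ∧ ((G.zs {rc (G.N J) (z q)} J i).card : ℝ) ≤ G.Q i) ∧
      ∀ s ∈ Pd fun q => G.rY n k (x q) i, PU (G.p i) (G.Q i ^ 210)⁻¹
        ((G.xw b J i (fun q => G.jx J (z q) (Z q)) fun q => {rc (G.N J) (z q)}).ψ s) := by
  have h := a.ok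
  have one : ∀ s, {rc (G.N J) s} ⊆ tb (G.N J) 0 {s} := fun s => singleton_subset_iff.2
    (mem_tb_single.2 ⟨rc_rc _ _, nearT_rc _ _⟩)
  have st : ∀ i q, G.rY n k (x q) i ≤ (G.L i : ℝ) ^ n * G.rY n k (x q) (i + 1) := fun i q => by
    have L := h.L1 i
    have r0 := (rY_pos (G := G) (n := n) (k := k) (i := i + 1) (x0 q)).le
    rcases lt_or_ge k i with v | v
    · rw [rY_hi v, h.rX_step v, ← rY_hi (v.trans i.lt_succ_self), rJ]
      split_ifs
      exacts [le_rfl, mul_le_mul_of_nonneg_right (one_le_pow₀ (by linarith)) r0]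
    · rw [← rY_two v]
      exact mul_le_mul_of_nonneg_right (le_trans (by linarith) (le_self_pow₀ (by linarith) n0)) r0
  intro i h1 h2
  obtain ⟨b1, -, b3, b4, b5, b6⟩ := h.srcA a.t a.hp a.hq (a.le.trans a.lt.le) a.big a.dR
    (m := fun i => G.L i - 2) (ρ := fun i => (G.L i : ℝ) ^ n) (r := fun i q => G.rY n k (x q) i)
    (fun i u _ => ⟨h.gr_big (a.big i u) le_rfl (by simpa using a.gA.2), fun q =>
      ⟨rY_pos (x0 q), fun _ => st i q⟩⟩) (fun q => jx_in h _ _) e (fun i u u' => h.dL_eq i ▸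
      h.cls_L (Δ := (21 * (G.L j * G.sJ J j) : ℕ)) (fun q _ q' _ v => sep_ball (sep q q' v) (one _)
        (one _)) le_rfl u u') i h1 h2
  exact ⟨b1.mono b1.fi.pos (fun _ => le_rfl) (h.QA_inv A i 329), b3, b4, fun q =>
    ⟨(b5 q).2, h.card_zs' (one _) h1 (Nat.zero_le _)⟩, b6⟩

variable [NeZero (G.N J)]

/-- the free energy of first order and the local mean -/
theorem ex_al {O : Fz → ℝ} (e : G.Lwt A n b J k j R z Z x) (c : Continuous O)
    (o : ∀ U, -Z.1 (sh z U) = O U) :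
    ‖G.ex b J (k + 1) (G.jx J z Z) - G.al b J j fun V => O (L6.lf V)‖ ≤
      (1 + exp (G.Q j) / 2 ^ (k + 1 - j)) * (x * (G.rt (k + 3) k : ℝ) ^ n) := by
  have h := a.ok
  have jk := a.le
  have kJ := a.lt
  have H := a.src n0 (γ := Unit) (fun _ => e.1) (fun _ => e.at) fun _ _ u => (u rfl).elim
  have x0 := mul_pos e.1 (one_pos.trans_le (Ok.rt0 (G := G) (k + 3) k n))
  obtain ⟨b1, -, -, b4, -⟩ := H j (by omega) le_rfl
  have a1 := h.e_al (O := fun _ V => O (L6.lf V)) a.t (by omega) (fun _ => ⟨Br.gi_comp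
    (gi_xO e.at.1.choose_spec.choose_spec.1) continuous_neg, c.comp Wy.cont_lf, fun U hU => by
      rw [h.xO_jx hU, o]
      exact congrArg (fun V => (O V : ℂ)) ((Fi.lf_rs U).trans (Sh.pc_per hU)).symm⟩) b1 ()
    (M := G.Q j) (by rw [xw_Z (by omega)]; exact (b4 ()).2)
  have a2 := h.e_sum (j := j) (k := k + 1) (q := ()) (S := univ) a.t.toTu1 a.hp (by omega) kJ le_rfl
    (fun l u u' => let t := H l (by omega) u.le; ⟨t.1, t.2.2.2.2⟩) (mem_univ _)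
    (fun l u u' => ((H l (by omega) u).2.2.2.1 ()).2.trans (le_self_pow₀ (h.Q1 l) (by norm_num)))
    (rY_pos e.1) fun l _ u => (rY_two (by omega)).le
  rw [rY_lo (by omega), inv_mul_le_iff₀ (by positivity)] at a1 a2
  rw [norm_sub_rev] at a2
  rw [← ((H _ kJ (by omega)).2.2.2.1 ()).1]
  refine (norm_sub_le_norm_sub_add_norm_sub _ _ _).trans ((add_le_add a2 a1).trans_eq ?_)
  rw [Nat.sub_self]
  ring

/-- arrays of letters -/
theorem ag1 {ι : Type} {z : ι → St} {Z : ι → Lq} {x : ι → ℝ} {O : ι → Fz → ℝ} {S : Set ι}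
    (e : ∀ c ∈ S, z c ∈ box (G.rt J j) ∧ G.Lwt A n b J k j R (z c) (Z c) (x c) ∧ Continuous (O c) ∧
      ∀ U, -(Z c).1 (sh (z c) U) = O c U) :
    G.Ag b J j O S fun c => x c * (G.rt (k + 3) k : ℝ) ^ n / 2 ^ (k + 1 - j) := by
  intro ι _ _ y σ hσ sep
  have h := a.ok
  have hj := a.le.trans a.lt.le
  have r0 : 0 < G.rt J j := pow_pos three_pos _
  have L := h.L_big j
  have s1 : G.rt J j ≤ G.sJ J j := Nat.le_mul_of_pos_left _ (pow_pos (by omega) _)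
  have s2 := Nat.mul_le_mul_right (G.sJ J j) L
  have o := fun q => (e _ (hσ q)).2.1
  obtain ⟨c1, c3, c4, c5, c7⟩ := a.src n0 (fun q => (o q).1) (fun q => (o q).2 (y q))
    (fun q q' ne E v => by
      by_contra c
      obtain ⟨v, hv⟩ := nearT_iff.1 v
      refine sep q q' ne (nearT_iff.2 ⟨v, fun i => ?_⟩)
      have a1 := hv i
      have a2 := mem_box.1 (e _ (hσ q)).1 i
      have a3 := mem_box.1 (e _ (hσ q')).1 i
      have a4 : (E : ℤ) + 2 * G.rt J j ≤ G.rt J j * G.dZ j := by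
        have : G.rt J j * G.dZ j = 30 * (G.L j * G.sJ J j) := by rw [dZ, sJ]; ring
        exact_mod_cast (show E + 2 * G.rt J j ≤ G.rt J j * G.dZ j by omega)
      have r1 : (0 : ℤ) < G.rt J j := by exact_mod_cast r0
      simp only [Pi.add_apply, Pi.smul_apply, smul_eq_mul, ← h.rt_N hj] at a1
      push_cast at a1
      exact ⟨le_of_mul_le_mul_left (by linarith) r1, le_of_mul_le_mul_left (by linarith) r1⟩)
    j hj le_rfl
  refine ⟨_, _, _, _, fun q => ⟨Br.gi_comp (gi_xO ((o q).2 (y q)).1.choose_spec.choose_spec.1)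
    continuous_neg, (e _ (hσ q)).2.2.1.comp ((Wy.cont_tz _).comp Wy.cont_lf), fun U hU => ?_⟩,
    c1, c3, c4, c7, fun q => ⟨by rw [xw_Z hj]; exact (c5 q).2, ?_⟩⟩
  · rw [h.xO_jx hU, ← (e _ (hσ q)).2.2.2, show tz ((G.rt J j : ℤ) • y q) (L6.lf (Fi.rs _ U)) =
      sh ((G.rt J j : ℤ) • y q) U from funext fun e => (congrFun ((Fi.lf_rs U).trans
        (Sh.pc_per hU)) _).trans (by simp only [sh, add_comm]), sh_sh, add_comm]
  · rw [rY_lo (by have := a.le; omega), inv_mul_cancel₀ (div_pos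
      (mul_pos (o q).1 (one_pos.trans_le (Ok.rt0 ..))) (by positivity)).ne']

/-- the free energy of first order and the true mean: the mirror images of `T` at `v` are letters
with weights, modulo null letters -/
theorem ce_mir (hn : G.N j = m' * u) (hu : G.dZ j + 1 < u) (uo : Odd u) {T : Fz → ℝ} {v : St}
    {z : (Fin 4 → Bool) → St} {Z : (Fin 4 → Bool) → Lq} {Y : (Fin 4 → Bool) → Fz → ℝ}
    (hT : MP_7f377f_mp.Wx.Lc r T) (hr : r + 4 ≤ G.rt J j) (hv : v ∈ box (G.rt J j))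
    (e : ∀ g, z g ∈ box (G.rt J j) ∧ G.Lwt A n b J k j R (z g) (Z g) x ∧
      MP_7f377f_mp.Wx.Lc r (Y g) ∧ (∀ U, -(Z g).1 U = Y g U) ∧
      Wy.Nl (Fi.tr haar) b (G.N J) (4 * G.rt J j) fun U => MP_7f377f_mp.Wx.mr g v T U - Y g (tz (z g) U)) (g : Fin 4 → Bool) :
    |G.al b J j (fun V => Y g (tz (z g) (L6.lf V))) - Wy.er (Fi.tr haar) b (G.N J) T| ≤
        G.wZ u j * (x * (G.rt (k + 3) k : ℝ) ^ n / 2 ^ (k + 1 - j)) ∧
      ‖G.ex b J (k + 1) (G.jx J (z g) (Z g)) - Wy.er (Fi.tr haar) b (G.N J) T‖ ≤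
        (1 + 2 * G.wZ u j / 2 ^ (k + 1 - j)) * (x * (G.rt (k + 3) k : ℝ) ^ n) := by
  have : (Fi.tr haar).IsHaarMeasure := (inferInstance : haar.IsHaarMeasure)
  have h := a.ok
  have bx : ∀ {y : St}, y ∈ box (G.rt J j) → ∀ i, |y i| ≤ (G.rt J j : ℕ) := fun u i =>
    abs_le.2 (mem_box.1 u i)
  have x0 := div_pos (mul_pos (e g).2.1.1 (one_pos.trans_le (Ok.rt0 (G := G) (k + 3) k n)))
    (show (0 : ℝ) < 2 ^ (k + 1 - j) by positivity)
  have c1 := fun g => ((e g).2.2.1.tz (bx (e g).1)).mono (show _ ≤ 4 * G.rt J j by omega)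
  have c2 := fun g => (hT.mr (bx hv) g).mono (show _ ≤ 4 * G.rt J j by omega)
  have o : ∀ g U, -(Z g).1 (sh (z g) U) = Y g (tz (z g) U) := fun g U => by
    rw [← (e g).2.2.2.1]
    exact congrArg (-(Z g).1 ·) (funext fun l => by simp [sh, tz, add_comm])
  obtain ⟨K, hK⟩ := (isCompact_univ.image (f := fun U g => MP_7f377f_mp.Wx.mr g v T U -
    Wy.er (Fi.tr haar) b (G.N J) T) (continuous_pi fun g => (c2 g).1.sub
      continuous_const)).isBounded.exists_norm_le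
  have H := (h.e1_fin a.t (a.le.trans a.lt.le) hn hu uo (A := Set.univ)
    (T := fun g U => MP_7f377f_mp.Wx.mr g v T U - Wy.er (Fi.tr haar) b (G.N J) T)
    (κ := fun g => G.al b J j (fun V => Y g (tz (z g) (L6.lf V))) - Wy.er (Fi.tr haar) b (G.N J) T)
    (r := fun μ g => update g μ (!g μ)) (K := K) ⟨_, inferInstance, fun g U => Y g (tz (z g) U),
      Set.univ, _, a.ag1 n0 fun g _ => ⟨(e g).1, (e g).2.1, (c1 g).1, o g⟩,
      fun g _ => ⟨(c1 g).1, (c1 g).2, x0.le⟩, fun g _ => ⟨{g}, 1, Set.subset_univ _,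
        by simp, by simpa using (e g).2.2.2.2⟩⟩
    ⟨fun g _ => (c2 g).1.sub continuous_const, fun g _ U V u => congrArg (· - _) ((c2 g).2 u),
      fun μ g _ U => by rw [MP_7f377f_mp.Wx.mr_rz], fun g _ U =>
        (norm_le_pi_norm _ g).trans (hK _ ⟨U, trivial, rfl⟩)⟩ Set.finite_univ
    (fun _ _ _ => ⟨trivial, rfl⟩) (fun _ _ => x0) fun g _ => by
      rw [MeasureTheory.integral_sub (Weak.cint _ ((c2 g).1.comp' Wy.cont_lf))
        (MeasureTheory.integrable_const _), ← Wy.er, er_mr hT.1]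
      simp).2 g trivial
  refine ⟨H, (norm_sub_le_norm_sub_add_norm_sub _ _ _).trans ((add_le_add
    (a.ex_al n0 (e g).2.1 (c1 g).1 (o g)) ((congrArg norm (Complex.ofReal_sub ..).symm).trans_le
      ((Complex.norm_real _).trans_le H))).trans ?_)⟩
  have : exp (G.Q j) ≤ G.wZ u j := by
    rw [wZ]
    nlinarith [Wy.kC_pos (G.vlZ u j), exp_pos (G.Q j)]
  have := mul_le_mul_of_nonneg_right this x0.le
  simp only [div_eq_mul_inv] at this ⊢
  linarith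

end Aok

section
variable {𝒜 : Set Tl.CM} [Zg.Og 𝒜] [Tl.Adj 𝒜] {s : ℕ} {y : ℝ} {c : Zg.V0 𝒜}

/-- the mirror `g` -/
def gB (g : Fin 4 → Bool) : RG.Wd.B4 := MP_7f377f_mp.Wx.tw (fun μ h => RG.Wd.rf μ * h) g 1

theorem pb_gB (g : Fin 4 → Bool) (U : Fz) :
    RG.Wd.pb Inv.inv (gB g) U = MP_7f377f_mp.Wx.tw Wy.rz g U := by
  have a : ∀ μ t h U, RG.Wd.pb Inv.inv (MP_7f377f_mp.Wx.pw (RG.Wd.rf μ * ·) t h) U =
      RG.Wd.pb Inv.inv h (MP_7f377f_mp.Wx.pw (Wy.rz μ) t U : Fz) := fun μ t h U => by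
    cases t
    exacts [(RG.Wd.pb_mul inv_inv ..).trans (congrArg _ (Kz.pb_rf μ U)), rfl]
  have c : ∀ μ ν t t' U, MP_7f377f_mp.Wx.pw (Wy.rz μ) t (MP_7f377f_mp.Wx.pw (Wy.rz ν) t' U) =
      MP_7f377f_mp.Wx.pw (Wy.rz ν) t' (MP_7f377f_mp.Wx.pw (Wy.rz μ) t U) := fun μ ν t t' U => by
    cases t <;> cases t' <;> first | rfl | exact Wy.rz_comm ..
  simp only [gB, MP_7f377f_mp.Wx.tw, a]
  rw [c 3 2, c 3 1, c 3 0, c 2 1, c 2 0, c 1 0]
  rfl

theorem mr_lt (g : Fin 4 → Bool) (v : St) (c : Zg.V0 𝒜) (U : Fz) :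
    MP_7f377f_mp.Wx.mr g v (Kz.lt 𝒜 c) U =
      Kz.lt 𝒜 (Kz.rB 𝒜 (gB g) c) (tz (RG.Wd.gv (gB g) v) U) := by
  rw [Kz.lt_rB, ← Kz.tz_pb, pb_gB]
  rfl

variable (W : G.Fw 𝒜 s C M R δ K b J j) (d1 : 1 ≤ d) (d2 : d ≤ s + 2)
  (hn : d + 9 ≤ n) (hJ : K / G.ka (s + 1) C J ^ d ≤ G.rt J k) (x0 : 0 < x)
  (a : G.Aok κ A n g C₀ b J k l R) (hj : j ≤ k)
include W d1 d2 hn hJ x0

include a hj in
/-- letters of labels -/
theorem Fw.lw (hz : z ∈ G.Gs J j) {t : Tl.Bd 𝒜 d → ℝ}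
    (hx : G.QA A k ^ 345 * G.sz s C d b J z (G.fz s C J t) k ≤ x) :
    G.Lwt A n b J k j R z (-G.fz s C J t) x := by
  have F := W.fr z hz d d1 d2
  rw [← map_neg]
  refine F.lw hj a.lt (fun i u => a.big i (a.le.trans u)) hn hJ x0 fun i h1 h2 => le_trans
    (mul_le_mul_of_nonneg_left ((F.dn2 _ h1 h2 a.lt.le).trans_eq ?_) (pow_pos (a.ok.QA0 A k) _).le) hx
  rw [sz, ← ys_bot hj, ← F.eqv_val hj a.lt.le, ← F.eqv_val hj a.lt.le, map_neg, Submodule.coe_neg,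
    norm_neg]

/-- the centring by the true mean -/
theorem Fw.ce_of [NeZero (G.N J)] (a : G.Aok κ A n g C₀ b J k j R) (hm : G.N j = m' * u)
    (hu : G.dZ j + 1 < u) (uo : Odd u) (hR : R + 4 ≤ G.rt J j)
    (hz : ∀ γ, RG.Wd.gv γ z ∈ G.Gs J j) (hz' : z ∈ box (G.rt J j))
    (hc : c ∈ (Zg.fil 𝒜).F (s + 2)) (hx : G.QA A k ^ 345 * y ≤ x)
    (o : ∀ γ, G.Os 𝒜 s C d b J k (RG.Wd.gv γ z) (Kz.rB 𝒜 γ c) y) {t : Tl.Bd 𝒜 d → ℝ}
    (e : G.lb s C J t = c) (e' : G.sz s C d b J z (G.fz s C J t) k ≤ y) :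
    |G.al b J j (fun V => (G.fz s C J t).re (tz z (L6.lf V))) -
        Wy.er (Fi.tr haar) b (G.N J) (Kz.lt 𝒜 c)| ≤
        G.wZ u j * (x * (G.rt (k + 3) k : ℝ) ^ n / 2 ^ (k + 1 - j)) ∧
      ‖G.ex b J (k + 1) (G.jx J z (-G.fz s C J t)) - Wy.er (Fi.tr haar) b (G.N J) (Kz.lt 𝒜 c)‖ ≤
        (1 + 2 * G.wZ u j / 2 ^ (k + 1 - j)) * (x * (G.rt (k + 3) k : ℝ) ^ n) := by
  have : (Fi.tr haar).IsHaarMeasure := (inferInstance : haar.IsHaarMeasure)
  have : ∀ g, ∃ t' : Tl.Bd 𝒜 d → ℝ, G.lb s C J t' = Kz.rB 𝒜 (gB g) c ∧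
      G.sz s C d b J (RG.Wd.gv (gB g) z) (G.fz s C J t') k ≤ y ∧ (g = (fun _ => true) → t' = t) :=
    fun g => by
      by_cases v : g = fun _ => true
      · subst v
        exact ⟨t, e.trans (by rw [show gB (fun _ => true) = 1 from rfl, map_one]; rfl), e',
          fun _ => rfl⟩
      · exact (o (gB g)).imp fun _ a => ⟨a.1, a.2, fun u => absurd u v⟩
  choose t' e1 e2 e3 using this
  have := a.ce_mir (by omega) hm hu uo (W.lc c hc) hR hz' (z := fun g => RG.Wd.gv (gB g) z)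
    (Z := fun g => -G.fz s C J (t' g)) (Y := fun g => (G.fz s C J (t' g)).re) (x := x) (fun g =>
      ⟨RG.Wd.gv_box _ hz', W.lw d1 d2 hn hJ x0 a a.le (hz _) (le_trans
        (mul_le_mul_of_nonneg_left (e2 g) (pow_pos (a.ok.QA0 A k) _).le) hx),
        (W.nl d d2 _).1, fun U => (neg_neg _).trans
          (Complex.ext rfl ((fz_real (t' g)).1 U)), by
        have := (((W.nl d d2 (t' g)).2.tz ((W.nl d d2 _).1.1.sub (Kz.lt_cont 𝒜 _))
          (y := RG.Wd.gv (gB g) z) (R' := 4 * G.rt J j) fun i => by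
            have := abs_le.2 (mem_box.1 (RG.Wd.gv_box (gB g) hz') i)
            omega).smul (-1))
        simpa only [mr_lt, ← e1, neg_mul, one_mul, neg_sub] using this⟩) fun _ => true
  rwa [e3 _ rfl] at this

end

end Pool.Agent.Lib.MP_7f377f_mp.RG.Q4.En.Gl
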