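import Pool.Agent.Lib.MP_7f377f_mp.G.KzB1
import Pool.Agent.Lib.MP_7f377f_mp.G.JvZ2

/-! Words of point letters and the labels to which they merge. -/

noncomputable section

set_option linter.unusedSectionVars false
variable [Pool.Agent.Lib.MP_7f377f_mp.GD]

namespace Pool.Agent.Lib.MP_7f377f_mp.RG.Q4.En.Gl

open MeasureTheory Filter Topology Set YM7 L6 RG.Tl Wy Kz
open RG.Wd (B4 gv)
open Wu (Z4)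
open Zg (V0 Og r0 fil)

variable (G : Gl) {𝒜 : Set CM} [Og 𝒜] {ι : Type} [Fintype ι] [DecidableEq ι] [Inhabited ι]

/-- the letter with the real coefficients `t` -/
abbrev fQ (s C J : ℕ) {d : ℕ} (t : Tl.Bd 𝒜 d → ℝ) : Lq :=
  G.fl (s + 1) C J Tl.Bd.dg (fun q : Tl.Bd 𝒜 d => Tl.lq (q.P (lE 𝒜))) fun q => t q

/-- its label -/
abbrev eQ (s C J : ℕ) {d : ℕ} (t : Tl.Bd 𝒜 d → ℝ) : V0 𝒜 :=
  ∑ q : Vd 𝒜 d, (t (.inl q) / G.ka (s + 1) C J ^ Tl.Bd.dg (.inl q : Tl.Bd 𝒜 d)) • q.1.c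

/-- the word of the centred letters `c l` plus `r l`, of size `y l` at the level `k`, merges to the
label `e` -/
structure Wq (s C D : ℕ) (b : ℝ) (J j k g : ℕ) [NeZero (G.N J)] (d : ι → ℕ) (c : ι → V0 𝒜)
    (r y : ι → ℝ) (P : Ptw ι) (e : V0 𝒜) : Prop where
  gs : P.z ∈ G.Gs J 0 ∧ ∀ l, P.x l ∈ G.Gs J 0
  near : ∀ l μ, |P.x l μ - P.z μ| ≤ (20 * g * G.sJ J k : ℕ)
  far : ∀ l l', l ≠ l' → ∃ μ, (66 * G.sJ J (k + 1) : ℕ) ≤ |P.x l μ - P.x l' μ|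
  lt : ∀ l, ∃ t : Tl.Bd 𝒜 (d l) → ℝ, G.eQ s C J t = c l ∧ P.Y l = -G.fQ s C J t ∧
    ‖G.ys Jt.wt (d l) (s + 1) C (G.tk (P.x l) J) b J 0 (G.sek s b J) (G.fQ s C J t) k‖ ≤ y l
  a : ∀ l, P.a l = (Wy.er (Fi.tr haar) b (G.N J) (Kz.lt 𝒜 (c l)) - r l : ℝ)
  ce : ∀ l, ‖G.ex b J (k + 1) (G.jx J (P.x l) (P.Y l)) - P.a l‖ ≤ y l
  im : ∃ t : Tl.Bd 𝒜 D → ℝ, G.eQ s C J t = -e ∧ G.Im Jt.wt D (s + 1) C (G.tk P.z J) b J j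
    (G.sek s b J) Tl.Bd.dg (fun q : Tl.Bd 𝒜 D => Tl.lq (q.P (lE 𝒜))) (G.wH b J k P) k fun q => t q

variable (β : ℕ × ℕ → ℝ) (U : Ultrafilter (ℕ × ℕ)) (N : ℕ × ℕ → V0 𝒜 →ₗ[ℝ] V0 𝒜) {n : ℕ}

/-- the words `c t` of sizes `y t`, up to powers of `L`, and all their mirror images merge; `m` is
the label of the word itself -/
def Wf (s C D j : ℕ) (d : Fin (n + 1) → ℕ) (c : ℝ → Fin (n + 1) → V0 𝒜) (y : ℝ → Fin (n + 1) → ℝ)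
    (κ : ℝ) (m : ℝ → ℕ × ℕ → (Fin (n + 1) → Z4) → V0 𝒜) : Prop :=
  ∃ a g w : ℕ, ∀ᶠ t in 𝓝[>] (0 : ℝ), ∃ k, G.kt t ≤ k ∧ k ≤ G.kt t + w ∧
    ∀ᶠ p in (U : Filter (ℕ × ℕ)), ∃ (c' : Fin (n + 1) → V0 𝒜) (r : Fin (n + 1) → ℝ),
      (∀ l, c' l ∈ Vp 𝒜 (d l) ∧ ∀ W, G.Oz 𝒜 β N p (c t l) W =
        ct (Fi.tr haar) (β p) (G.nn p) (Kz.lt 𝒜 (c' l)) W + r l) ∧
      ∀ x, MP_7f377f_mp.Wx.Cf κ t (G.aa p) x → ∃ v ∈ box (G.rt p.2 (G.kt t - 2) / 2),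
        (∀ l ≤ G.kt t - 3, G.tk v p.2 l = 0) ∧ ∀ γ : B4, ∃ P, ∃ e ∈ Vp 𝒜 D, P.z = gv γ v ∧
          (∀ l, P.x l = gv γ (v + x l)) ∧ (G.wm p.1).Wq s C D (β p) p.2 j k g d
            (fun l => rB 𝒜 γ (c' l)) r (fun l => G.L (G.kt t) ^ a * y t l) P e ∧
          (γ = 1 → ∃ u, ∀ W, G.Oz 𝒜 β N p (m t p x) W =
            ct (Fi.tr haar) (β p) (G.nn p) (Kz.lt 𝒜 e) W + u)

end Pool.Agent.Lib.MP_7f377f_mp.RG.Q4.En.Gl
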