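import Pool.Agent.Lib.MP_7f377f_mp.G.JvZ2
import Pool.Agent.Lib.MP_7f377f_mp.G.KzG2
import Pool.Agent.Lib.MP_7f377f_mp.G.KzV

/-! Centred moments of slots with words and letters. -/

noncomputable section

open Pool.Agent.Lib.MP_7f377f_mp.Jet

set_option linter.unusedSectionVars false
variable [Pool.Agent.Lib.MP_7f377f_mp.GD]

namespace Pool.Agent.Lib.MP_7f377f_mp.RG.Q4.En

open Finset Function Sg Real Pos Mg Filter MeasureTheory Kz
open L6 (Fz)
open Wy (tz rz)
open scoped Classical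

attribute [local irreducible] box lbox tb tau rc

variable {ι κ γ : Type} [Fintype ι] [DecidableEq ι] [Fintype κ] [DecidableEq κ] [Inhabited κ]
  [Fintype γ] [DecidableEq γ]

theorem near_vma {n R : ℕ} [NeZero n] {x y : St}
    (e : ∀ i, |((x i : ZMod n) - y i).valMinAbs| ≤ R) : nearT n R y x := by
  choose v hv using fun i => (ZMod.intCast_eq_intCast_iff_dvd_sub _ (x i - y i) n).1
    ((ZMod.coe_valMinAbs _).trans (Int.cast_sub _ _).symm)
  refine nearT_iff.2 ⟨v, fun i => abs_le.1 (le_of_eq_of_le (congrArg _ ?_) (e i))⟩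
  linarith [hv i]

/-- null letters at separated points do not change the moments -/
theorem mo_nl {n ν : ℕ} [NeZero n] {b : ℝ} {F F' : ι → Fz → ℝ} {z v : ι → St}
    (c : ∀ q, ∀ Y ∈ ({F q, F' q} : Set (Fz → ℝ)), Continuous Y ∧
      DependsOn Y {e | ∀ i, |e.1 i - z q i| ≤ ν})
    (e : ∀ q, Wy.Nl (Fi.tr haar) b n ν fun U => F q (tz (-z q) U) - F' q (tz (-z q) U))
    (far : ∀ q q', q ≠ q' → ¬nearT n (2 * ν) (v q + z q) (v q' + z q')) :
    Ob.mo (YM7.ex (Fi.tr haar) b n) (fun q U => F q (tz (v q) (L6.lf U))) =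
      Ob.mo (YM7.ex (Fi.tr haar) b n) fun q U => F' q (tz (v q) (L6.lf U)) := by
  have : (Fi.tr haar).IsHaarMeasure := (inferInstance : haar.IsHaarMeasure)
  have c1 := fun q => c q _ (.inl rfl)
  have c2 := fun q => c q _ (.inr rfl)
  have k : ∀ {Y : Fz → ℝ} q, Continuous Y → Continuous fun U : YM7.Cfg n =>
      Y (tz (v q) (L6.lf U)) := fun q a => a.comp ((Wy.cont_tz _).comp Wy.cont_lf)
  refine mo_null (fun q => .of_continuous (k q (c1 q).1)) (fun q => .of_continuous (k q (c2 q).1))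
    fun a S S' h1 h2 _ => ?_
  have d : ∀ {Y : Fz → ℝ} q, a ≠ q → DependsOn Y {e | ∀ i, |e.1 i - z q i| ≤ ν} →
      DependsOn (fun U : YM7.Cfg n => Y (tz (v q) (L6.lf U)))
        {e | ∃ i, ν < |(e.1 i - (v a + z a) i).valMinAbs|} := fun q ne y U V u =>
    y fun l hl => u _ (by
      by_contra! w
      refine far a q ne (two_mul ν ▸ (near_vma (x := v q + l.1) (by simpa using w)).trans
        (nearT_of_box (mem_box.2 fun i => abs_le.1 ?_)))
      simpa [abs_sub_comm] using hl i)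
  have := (e a).at (y := v a + z a) ((((c1 a).1.comp (Wy.cont_tz _)).sub
    ((c2 a).1.comp (Wy.cont_tz _)))) (G := fun U => (∏ q ∈ S, F q (tz (v q) (L6.lf U))) *
      ∏ q ∈ S', F' q (tz (v q) (L6.lf U))) ((continuous_finsetProd _ fun q _ => k q (c1 q).1).mul
        (continuous_finsetProd _ fun q _ => k q (c2 q).1)) fun U V u => congrArg₂ _
    (prod_congr rfl fun q hq => d q (ne_of_mem_of_not_mem hq h1).symm (c1 q).2 u)
    (prod_congr rfl fun q hq => d q (ne_of_mem_of_not_mem hq h2).symm (c2 q).2 u)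
  simpa only [Wy.tz_tz, add_neg_cancel_right, YM7.ex] using this

theorem tz_rs {n : ℕ} [NeZero n] {U : Conf} (hU : Per n U) (v : St) :
    tz v (L6.lf (Fi.rs n U)) = sh v U :=
  funext fun e => (congrFun ((Fi.lf_rs U).trans (Sh.pc_per hU)) _).trans
    (by simp only [sh, add_comm])

namespace Gl

/-- the slot is the observable `X` up to a null letter of radius `ν` around its base point -/
def Rep (G : Gl) (b : ℝ) (J ν : ℕ) [NeZero (G.N J)] (T : Tmz κ) (X : Fz → ℝ) : Prop :=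
  ∃ Y : Fz → ℝ, (∀ U, T.ob U = Y U) ∧
    (∀ F ∈ ({X, Y} : Set _), Continuous F ∧ DependsOn F {e | ∀ i, |e.1 i - T.P.z i| ≤ ν}) ∧
    Wy.Nl (Fi.tr haar) b (G.N J) ν fun U => X (tz (-T.P.z) U) - Y (tz (-T.P.z) U)

/-- the letters of the slots `T` which are translated to the sites `y` of level `j` -/
def tX (G : Gl) (g J k j : ℕ) (T : γ → Tmz κ) (y : γ → St) : γ → Conf → ℂ :=
  (G.ptW g J k (univ.filter fun q => (T q).om) (fun q => (T q).P.tr ((G.rt J j : ℤ) • y q))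
    fun q => (T q).Z).Y (G.N J) 1

variable {G : Gl} {b C₀ : ℝ} {A n g J j k l R m u ν : ℕ}

section
variable {T : γ → Tmz κ} {y : γ → St}

theorem gi_tX (o : ∀ q, G.Tok A n g C₀ b J k l j R (T q)) (q : γ) :
    GI (G.N J) (G.tX g J k j T y q) :=
  gi_Y (fun ω (hω : ω ∈ univ.filter fun q => (T q).om) l => gi_xO
    ((((o ω).wok (mem_filter.1 hω).2).2 (y ω)).rx l).1.choose_spec.choose_spec.1)
    (fun q => gi_xO ((o q).sl (y q)).up.1.choose_spec.choose_spec.1) 1 q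

theorem Ok.tX_eq (h : G.Ok) (q : γ) {U : Conf} (hU : Per (G.N J) U) :
    G.tX g J k j T y q U = (T q).ob (sh ((G.rt J j : ℤ) • y q) U) := by
  rw [tX, h.ptW_Y q hU]
  simp only [Tmz.ob, Ptw.ob_tr, mem_filter, mem_univ, true_and, sh_sh]
  simp only [Ptw.tr, add_comm]

/-- separated slots at the level `l` -/
theorem Aok.slv (a : G.Aok κ A n g C₀ b J k l R) (o : ∀ q, G.Tok A n g C₀ b J k l j R (T q))
    (sep : ∀ q q', q ≠ q' → ∀ E, nearT (G.N J) E ((G.rt J j : ℤ) • y q + (T q).P.z)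
      ((G.rt J j : ℤ) • y q' + (T q').P.z) → 22 * (G.L l * G.sJ J l) ≤ E) {w : γ → ℝ}
    (hw : ∀ q, (T q).W l ≤ w q) :
    G.Slv b J l (fun s => G.tt (pr b (G.N J) (G.tX g J k j T y) s) J l)
      (fun q => (G.Q l ^ 50 * (G.rt (k + 3) k : ℝ) ^ n * w q)⁻¹)
      fun q => G.cW g J k ((G.rt J j : ℤ) • y q + (T q).P.z) := by
  have h := a.ok
  have s2 := Nat.mul_le_mul_right (G.sJ J l) (h.L_big l)
  have wk : ∀ q ∈ univ.filter fun q => (T q).om, _ := fun q hq => (o q).wok (mem_filter.1 hq).2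
  simp only [add_comm (_ • _)] at sep ⊢
  obtain ⟨Y, r1, -, -, H⟩ := a.arr (Om := univ.filter fun q => (T q).om)
    (Q := fun q => (T q).P.tr ((G.rt J j : ℤ) • y q)) (Zs := fun q => (T q).Z)
    (Ws := fun q => (T q).W) (t := l) (fun q => (o q).u) (fun q hq => ⟨(wk q hq).2 _, (wk q hq).1⟩)
    (fun q => by simp only [mem_filter, mem_univ, true_and]; exact (o q).sl (y q)) sep a.le le_rfl
    (by have := h.LsJ_anti a.le a.lt.le; omega)
  obtain ⟨c1, -, c3, c4, c5, c6, -⟩ := H l a.le le_rfl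
  have p := fun q => ((o q).sl 0).pos l
  have q0 := h.Q0 l
  have r0 : (0 : ℝ) < (G.rt (k + 3) k : ℝ) ^ n := one_pos.trans_le (Ok.rt0 _ _ _)
  refine h.slv_of c1 (h.QA_inv A l 329) c3 c4 (fun q => by
    have := (p q).trans_le (hw q); positivity) fun q => ⟨?_, c5 ▸ Subset.rfl, (c6 q).2⟩
  rw [rZ, rt_top, Nat.cast_one, one_pow, mul_one, mul_assoc, mul_inv, mul_inv_cancel_left₀
    (by positivity), mul_comm]
  exact inv_anti₀ (mul_pos (p q) r0) (mul_le_mul_of_nonneg_right (hw q) r0.le)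

end

variable (a : G.Aok κ A n g C₀ b J k l R) [NeZero (G.N J)] (hjl : j ≤ l)
  (hn : G.N j = m * u) (hu : G.dZ j + 1 < u) (big : 1000 * 3 ^ Fintype.card ι ≤ G.L j)
  (hg : (20 * g + 21) * G.sJ J k ≤ 6 * G.sJ J l) (hν : ν ≤ G.sJ J l)
  {X : ι → Fz → ℝ} {T : (Fin 4 → Bool) → ι → Tmz κ} {W : ι → ℕ → ℝ} {w : ι → ℝ}
  (ok : ∀ e i, G.Tok A n g C₀ b J k l j R (T e i) ∧ (T e i).W l ≤ w i ∧
    G.Rep b J ν (T e i) (fun U => X i (MP_7f377f_mp.Wx.tw rz e U)) ∧
    (T e i).P.z ∈ box (G.sJ J j) ∧ ∀ i', i ≠ i' →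
      ∃ μ, (22 * (G.L l * G.sJ J l) : ℕ) ≤ |(T e i).P.z μ - (T e i').P.z μ|)
include a hjl hn hu

theorem Aok.lam : 30 * (G.L j * G.sJ J j) ≤ G.rt J j * u ∧ G.N J = m * (G.rt J j * u) :=
  ⟨le_trans (by rw [sJ]; exact le_of_eq (by ring)) (Nat.mul_le_mul_left _
    (show 30 * G.L j ^ (G.K0 + 1) ≤ u by unfold dZ at hu; omega)),
    by rw [← a.ok.rt_N (hjl.trans (a.le.trans a.lt.le)), hn, mul_left_comm]⟩

include ok

theorem Aok.pta {α : Type} (e : α → Fin 4 → Bool) :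
    Pta (G.N J) (G.sJ J j) (22 * (G.L l * G.sJ J l)) 0 fun x i => (T (e x) i).P.z := by
  refine ⟨fun x i => by simpa using (ok _ i).2.2.2.1, fun x i i' ne D d => ?_⟩
  obtain ⟨μ, hμ⟩ := (ok (e x) i).2.2.2.2 i' ne
  obtain ⟨v, hv⟩ := nearT_iff.1 d
  obtain ⟨a1, a2⟩ := a.lam hjl hn hu
  have a3 : G.rt J j * u ≤ G.N J := a2 ▸ Nat.le_mul_of_pos_left _
    (Nat.pos_of_mul_pos_right (a2 ▸ (a.ok.N_odd J).pos))
  have a4 := Nat.mul_le_mul_right (G.sJ J j) (a.ok.L_big j)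
  have a5 : 4 * (G.sJ J j : ℤ) ≤ G.N J := by exact_mod_cast (by omega : 4 * G.sJ J j ≤ G.N J)
  have o1 := mem_box.1 (ok (e x) i).2.2.2.1 μ
  have o2 := mem_box.1 (ok (e x) i').2.2.2.1 μ
  have := hv μ
  refine Nat.cast_le.1 (hμ.trans (abs_le.2 ?_))
  rcases lt_trichotomy (v μ) 0 with c | c | c
  · constructor <;> nlinarith
  · rw [c] at this; constructor <;> linarith
  · constructor <;> nlinarith

include hν in
theorem Aok.mic : Mic (2 * G.sJ J j)
    fun e i (U : YM7.Cfg (G.N J)) => X i (MP_7f377f_mp.Wx.tw rz e (L6.lf U)) := by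
  have c := fun e i => (ok e i).2.2.1.choose_spec.2.1 _ (.inl rfl)
  have s := a.ok.sJ_anti hjl (a.le.trans a.lt.le)
  refine ⟨fun e i => .of_continuous ((c e i).1.comp Wy.cont_lf), fun e k i U => by
    rw [Wy.lf_refl, Wy.tw_rz, MP_7f377f_mp.Wx.θ_tw Wy.inv4_rz], fun e i U V u =>
      (c e i).2 fun l hl => u _ fun k => ⟨_, ?_, rfl⟩⟩
  have := abs_le.1 (hl k)
  have := mem_box.1 (ok e i).2.2.2.1 k
  rw [abs_le]
  omega

include big hg hν

/-- the arrays of the mirror images -/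
theorem Aok.arf [NeZero m] : G.Arf b J l j (Fintype.card ι) m u (G.Q j)
    (fun e i U => X i (MP_7f377f_mp.Wx.tw rz e (L6.lf U)))
    (fun e S => (G.mpa b J J j (G.tX g J k j (T e) 0) 0 S).re)
    fun i => (G.Q l ^ 50 * (G.rt (k + 3) k : ℝ) ^ n * w i)⁻¹ := by
  have h := a.ok
  have hl := a.le.trans a.lt.le
  choose Y y1 y2 y3 using fun e i => (ok e i).2.2.1
  obtain ⟨a1, a2⟩ := a.lam hjl hn hu
  have s1 := Nat.mul_le_mul_right (G.sJ J j) (h.L_big j)
  have s2 := Nat.mul_le_mul_right (G.sJ J l) (h.L_big l)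
  have s3 := h.LsJ_anti hjl hl
  have s4 := h.sJ_anti hjl hl
  have s5 := Nat.mul_le_mul_right (G.sJ J j) (show 40 * Fintype.card ι + 46 ≤ G.L j by
    have := Nat.lt_pow_self (n := Fintype.card ι) (by norm_num : 1 < 3); omega)
  refine h.arf_pr hl hjl (fun e i => ⟨gi_tX (fun i => (ok e i).1) i, fun U hU => by
    rw [h.tX_eq i hU, y1, Complex.ofReal_im]⟩) a.t.b0 fun e => ?_
  have P := a.pta hjl hn hu ok e
  have sep := P.one a2 (by omega)
  have o := fun q : Weak.Site 4 m × ι => (ok (e q.1) q.2).1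
  refine ⟨G.tX g J k j (fun q => T (e q.1) q.2) fun q => czl u q.1, fun q U =>
    Y (e q.1) q.2 (tz (czl (G.rt J j * u) q.1) (L6.lf U)), fun q => ⟨gi_tX o q, fun U hU => by
      simp only [h.tX_eq q hU, y1, tz_rs hU, czl_mul]⟩, ?_, h.slg_arr hl hjl hn
    (a.slv o (by simpa only [apos, czl_mul] using sep) fun q => (ok _ q.2).2.1) P
    (fun q => by rw [apos, czl_mul]; exact Subset.rfl) hg (by omega) (by omega) (by omega) le_rfl
    big, fun x i U hU => by
      rw [h.tX_eq _ hU, h.tX_eq _ (per_sh' hU _), czl_mul, Pi.zero_apply, smul_zero, Op.sh_zero]⟩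
  refine Eq.trans (congrArg _ (funext₂ fun q U => ?_)) (mo_nl (fun q => y2 (e q.1) q.2)
    (fun q => y3 (e q.1) q.2) fun q q' ne d => ?_)
  · rw [← Wy.lf_shift, Ob.arr]
    congr 4
    funext i
    simp [czl, Weak.corner]
  · have : 22 * (G.L l * G.sJ J l) ≤ 2 * ν := sep q q' ne _ d
    have := Nat.mul_pos (pow_pos (by linarith [h.L_big l] : 0 < G.L l) G.K0)
      (pow_pos three_pos (G.e J - G.e l))
    change 0 < G.sJ J l at this
    omega

/-- the centred moment: `W` are the weights of the slots, `w` those of all the mirror images -/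
theorem Aok.cen (hjl' : j < l)
    (own : ∀ i, G.Tok A n g C₀ b J k l j R { T (fun _ => true) i with W := W i } ∧ W i l ≤ w i) :
    |Wy.er (Fi.tr haar) b (G.N J) fun U => ∏ i, (X i U - Wy.er (Fi.tr haar) b (G.N J) (X i))| ≤
      (G.Q l ^ 50 * (G.rt (k + 3) k : ℝ) ^ n) ^ Fintype.card ι *
        (exp (2 ^ Fintype.card ι) * ∏ i, W i l + cCe (Fintype.card ι) 1
          (exp (Fintype.card ι * G.Q j) * G.kArf j u (Fintype.card ι) (G.Q j)) *
            ((2 ^ (l - j))⁻¹ * ∏ i, w i)) := by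
  have h := a.ok
  have hl := a.le.trans a.lt.le
  have : NeZero m := ⟨by rintro rfl; exact (h.N_odd j).pos.ne' (by simpa using hn)⟩
  obtain ⟨a1, a2⟩ := a.lam hjl hn hu
  have s1 := Nat.mul_le_mul_right (G.sJ J j) (h.L_big j)
  have s2 := Nat.mul_le_mul_right (G.sJ J l) (h.L_big l)
  have M := a.mic hjl hn hu hν ok
  have P := (a.pta hjl hn hu ok fun _ : Unit => fun _ => true).far ()
  have gX := gi_tX (y := 0) fun i => (ok (fun _ => true) i).1
  have q0 := h.Q0 l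
  have r0 : (0 : ℝ) < (G.rt (k + 3) k : ℝ) ^ n := one_pos.trans_le (Ok.rt0 _ _ _)
  have := h.out_cg a.t a.hp a.t.b0 hl hjl hn (h.Q0 j).le (a.arf hjl hn hu big hg hν ok)
    (.inr ⟨rfl, _, by omega, rfl⟩) M (fun _ => true) hjl' (fun r p => tt_hd (pr_hd gX p) hl)
    (h.slg_one hl hjl (a.slv (y := 0) (fun i => (own i).1) (by simpa using P) fun _ => le_rfl)
      (fun _ => Subset.rfl) hg (fun q q' ne D d => by
        have := P q q' ne D (by simpa using d); omega) le_rfl big) (fun S => by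
      rw [h.mpa_real (C := 0) le_rfl (hjl.trans hl) gX (fun _ => GI.const _ 0) a.t.b0 (fun i U hU => by
        rw [h.tX_eq i hU, (ok _ i).2.2.1.choose_spec.1, Complex.ofReal_im]) fun _ _ _ => rfl,
        mpa_pr le_rfl (hjl.trans hl) gX]
      simp only [tt_tt hl j hjl]) fun i => inv_anti₀ (by
        have := ((own i).1.sl 0).pos l; positivity) (by gcongr; exact (own i).2)
  rw [cmo_ex (M.bm _), Complex.norm_real] at this
  refine this.trans_eq ?_
  simp only [inv_inv, prod_mul_distrib, prod_const, card_univ]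
  ring

end Gl

end Pool.Agent.Lib.MP_7f377f_mp.RG.Q4.En
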