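import Pool.Agent.Lib.MP_7f377f_mp.G.KzN4
import Pool.Agent.Lib.MP_7f377f_mp.G.KzW
import Pool.Agent.Lib.MP_7f377f_mp.G.KzO1

/-! Merged words as slots of arrays. -/

noncomputable section

open Pool.Agent.Lib.MP_7f377f_mp.Jet

set_option linter.unusedSectionVars false
variable [Pool.Agent.Lib.MP_7f377f_mp.GD]

namespace Pool.Agent.Lib.MP_7f377f_mp.RG.Q4.En

open Finset Function Sg Real Pos Mg Filter MeasureTheory Tl
open L6 (Fz fast)
open Wy (tz)
open Zg (V0 Og fil)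
open Kz (rB)
open MP_7f377f_mp.Wx (Lc)
open scoped Classical

attribute [local irreducible] box lbox tb tau rc

theorem far_box {n ρ Δ D : ℕ} {x y : St} (h1 : ∀ μ, |x μ - y μ| ≤ ρ)
    (h2 : ∃ μ, (Δ : ℤ) ≤ |x μ - y μ|) (hn : 2 * ρ ≤ n) (e : nearT n D x y) : Δ ≤ D := by
  obtain ⟨μ, hμ⟩ := h2
  obtain ⟨v, hv⟩ := nearT_iff.1 e
  have a := abs_le.1 (h1 μ)
  have a5 : 2 * (ρ : ℤ) ≤ n := by exact_mod_cast hn
  have := hv μ
  refine Nat.cast_le.1 (hμ.trans (abs_le.2 ?_))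
  rcases lt_trichotomy (v μ) 0 with c | c | c
  · constructor <;> nlinarith
  · rw [c] at this; constructor <;> linarith
  · constructor <;> nlinarith

namespace Gl

variable (G : Gl) {𝒜 : Set CM} [Og 𝒜] {ι : Type} [Fintype ι] [DecidableEq ι] [Inhabited ι]

/-- the word with the weights of letters of size `y` at the level `k` -/
def pwU (A k : ℕ) (y : ι → ℝ) (P : Ptw ι) : Ptw ι := { P with u := fun l => G.QA A k ^ 345 * y l }

/-- the size of the merged word -/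
def θW (A n g s k : ℕ) (y : ι → ℝ) : ℝ := G.jW (s + 1) k * (4 * (G.cMA A k
  (2 * (g + 1) * Fintype.card ι) 1 * ∏ l, G.QA A k ^ 345 * y l * (G.rt (k + 3) k : ℝ) ^ n))

/-- the slot of the word plus the letter `t` -/
def tmW (A s C J k : ℕ) (y : ι → ℝ) (P : Ptw ι) {D : ℕ} (t : Tl.Bd 𝒜 D → ℝ) (W : ℕ → ℝ) : Tmz ι :=
  ⟨G.pwU A k y P, True, -G.fz s C J t, W⟩

/-- the weights of a word minus its label -/
def oW (A n g s C D k : ℕ) (y : ι → ℝ) (i : ℕ) : ℝ :=
  3 * G.QA A k ^ 345 * (G.Pw D C i k / (G.rt k i : ℝ) ^ (D + 1) * G.θW A n g s k y)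

/-- the weight of a word plus a letter of size `x` -/
def cW' (A n g s C D k l : ℕ) (y : ι → ℝ) (x : ℝ) : ℝ :=
  3 * G.QA A k ^ 345 * ((G.Pw D C l k + 3) * G.θW A n g s k y + x)

variable {G} {b M δ K : ℝ} {s C D J j k l R A n g ν : ℕ} {d : ι → ℕ} {c : ι → V0 𝒜} {r y : ι → ℝ}
  {P : Ptw ι} {e : V0 𝒜}

section
variable (W : G.Fw 𝒜 s C M R δ K b J j) {z : St} (hz : z ∈ G.Gs J j) (d1 : 1 ≤ D) (d2 : D ≤ s + 2)
  (h1 : j ≤ k) (h2 : k ≤ J) (t t' : Tl.Bd 𝒜 D → ℝ)
include W hz d1 d2 h1 h2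

theorem Fw.sz_sub : G.sz s C D b J z (G.fz s C J (t - t')) k ≤
    G.sz s C D b J z (G.fz s C J t) k + G.sz s C D b J z (G.fz s C J t') k := by
  have F := W.fr z hz D d1 d2
  simp only [sz, ← ys_bot h1, ← F.eqv_val h1 h2]
  rw [show (fun q => ((t - t') q : ℂ)) = (fun q => (t q : ℂ)) - fun q => (t' q : ℂ) from
    funext fun q => by simp, map_sub]
  exact norm_sub_le _ _

theorem Fw.sz_neg : G.sz s C D b J z (G.fz s C J (-t)) k = G.sz s C D b J z (G.fz s C J t) k := by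
  have F := W.fr z hz D d1 d2
  simp only [sz, ← ys_bot h1, ← F.eqv_val h1 h2]
  rw [show (fun q => ((-t) q : ℂ)) = -fun q => (t q : ℂ) from funext fun q => by simp, map_neg]
  exact norm_neg _

end

variable (W : G.Fw 𝒜 s C M R δ K b J j) (a : G.Aok ι A n g 1 b J k l R) (hj : j ≤ l)
  (hd : ∀ l, 1 ≤ d l ∧ d l ≤ s + 2 ∧ 0 < y l) (hn : s + 11 ≤ n)
  (hJ : ∀ d ≤ s + 2, K / G.ka (s + 1) C J ^ d ≤ G.rt J k) (vol : 80 * g * G.sJ J k ≤ G.N J)
include W a hj hd hn hJ vol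

/-- words of letters of the standard frames, at all translates -/
theorem Fw.wok (gs : ∀ l, P.x l ∈ G.Gs J j)
    (near : ∀ l μ, |P.x l μ - P.z μ| ≤ (20 * g * G.sJ J k : ℕ))
    (far : ∀ l l', l ≠ l' → ∃ μ, (66 * G.sJ J (k + 1) : ℕ) ≤ |P.x l μ - P.x l' μ|)
    (lt : ∀ l, ∃ t : Tl.Bd 𝒜 (d l) → ℝ, P.Y l = -G.fz s C J t ∧
      G.sz s C (d l) b J (P.x l) (G.fz s C J t) k ≤ y l)
    (ce : ∀ l, ‖G.ex b J (k + 1) (G.jx J (P.x l) (P.Y l)) - P.a l‖ ≤ y l) (v : St) :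
    G.Wok A n g 1 b J k R ((G.pwU A k y P).tr ((G.rt J j : ℤ) • v)) := by
  have h := a.ok
  have jk := hj.trans a.le
  have q1 := h.QA1 A k
  refine ⟨fun l => (nearT_add_right _).2 (nearT_of_box (mem_box.2 fun μ => abs_le.1 (near l μ))),
    fun l l' u E v => far_box (ρ := 40 * g * G.sJ J k) (fun μ => ?_) (far l l' u) (by linarith)
      ((nearT_add_right _).1 v), fun l => ?_, fun l => ?_⟩
  · have := abs_le.1 (near l μ)
    have := abs_le.1 (near l' μ)
    rw [abs_le]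
    push_cast at *
    constructor <;> linarith
  · obtain ⟨t, e1, e2⟩ := lt l
    obtain ⟨d1, d2, y0⟩ := hd l
    have F := W.fr _ (gs l) _ d1 d2
    have r := h.trl_tk (J := J) (j := j) (P.x l) v
    have e3 : P.Y l = G.fz s C J (-t) := by
      rw [e1, ← neg_one_smul ℝ t, fz_smul, Complex.ofReal_neg, Complex.ofReal_one, neg_one_smul]
    have := (F.trl r).rX jk a.lt (fun i u => a.big i (a.le.trans u)) (by omega : d l + 9 ≤ n)
      (hJ _ d2) (by positivity : 0 < G.QA A k ^ 345 * y l) (s := fun q => ((-t) q : ℝ)) (by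
        rw [F.T.ys_trl r _ jk a.lt.le, ys_bot jk]
        exact mul_le_mul_of_nonneg_left ((W.sz_neg (gs l) d1 d2 jk a.lt.le t).trans_le e2)
          (by positivity))
    rw [tk_top] at this
    exact e3 ▸ this
  · have := ce l
    rw [← h.ex_jx a.lt _ ((G.rt (k + 1) j : ℤ) • v), ← mul_smul, ← Nat.cast_mul,
      ← h.rt_rt (jk.trans k.le_succ) a.lt] at this
    refine this.trans ?_
    rw [one_mul]
    exact (le_mul_of_one_le_left (hd l).2.2.le (one_le_pow₀ (by linarith))).trans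
      (le_mul_of_one_le_right (mul_pos (by positivity) (hd l).2.2).le
        (Ok.rt0 _ _ _))

variable [NeZero (G.N J)] (q : G.Wq s C D b J j k g d c r y P e)
include q

theorem Wq.wok (v : St) : G.Wok A n g 1 b J k R ((G.pwU A k y P).tr ((G.rt J j : ℤ) • v)) :=
  W.wok a hj hd hn hJ vol (fun l => gs_mono (q.gs.2 l) (Nat.zero_le _)) q.near q.far
    (fun l => (q.lt l).imp fun _ h => h.2) q.ce v

/-- the word minus its label, and the word plus any letter -/
theorem Wq.tok [Adj 𝒜] (D1 : 1 ≤ D) (D2 : D ≤ s + 2) (hA : s + 8 ≤ A) : ∃ t : Tl.Bd 𝒜 D → ℝ,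
    G.lb s C J t = -e ∧ G.sz s C D b J P.z (G.fz s C J t) k ≤ 3 * G.θW A n g s k y ∧
    G.Tok A n g 1 b J k l j R (G.tmW A s C J k y P t (G.oW A n g s C D k y)) ∧
    ∀ (t' : Tl.Bd 𝒜 D → ℝ) x, G.sz s C D b J P.z (G.fz s C J t') k ≤ x →
      G.Tok A n g 1 b J k l j R (G.tmW A s C J k y P t' fun _ => G.cW' A n g s C D k l y x) := by
  have h := a.ok
  have jk := hj.trans a.le
  have q0 := h.QA0 A k
  obtain ⟨t, e1, e2⟩ := q.im
  have gz := gs_mono q.gs.1 (Nat.zero_le j)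
  have F := W.fr _ gz _ D1 D2
  have o := q.wok W a hj hd hn hJ vol
  have u0 : ∀ l, 0 < (G.pwU A k y P).u l := fun l => mul_pos (pow_pos q0 _) (hd l).2.2
  have o0 : G.Wok A n g 1 b J k R (G.pwU A k y P) := by simpa [Ptw.tr] using o 0
  have ka := a.ka (D := s + 1) o0 u0 hA
  have θ0 : 0 < G.θW A n g s k y := mul_pos (pow_pos (by linarith [h.L1 k]) _) ka.1
  have s1 : G.sz s C D b J P.z (G.fz s C J t) k ≤ 3 * G.θW A n g s k y := by
    rw [sz, ← ys_bot jk]; exact F.im_le jk a.lt ka e2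
  have key : ∀ (t' : Tl.Bd 𝒜 D → ℝ) (w : ℕ → ℝ), (∀ i, 0 < w i) →
      (∀ i, l ≤ i → i < k → w (i + 1) ≤ (G.L i : ℝ) ^ n * w i) → (∀ i, l ≤ i → i ≤ k →
        G.oW A n g s C D k y i + 3 * G.QA A k ^ 345 *
          G.sz s C D b J P.z (G.fz s C J (t - t')) i ≤ w i) →
      G.Tok A n g 1 b J k l j R (G.tmW A s C J k y P t' w) := fun t' w w0 gr hw => by
    have := a.slw_im (P := G.pwU A k y P) hj (by omega : D + 9 ≤ n) (hJ _ D2) w0 gr F hA o u0 e2
      (s' := fun q => t' q) fun i u u' => by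
        rw [ys_bot (hj.trans u), show ((fun q => (t q : ℂ)) - fun q => (t' q : ℂ)) =
          fun q => ((t - t') q : ℂ) from funext fun q => by simp, mul_add]
        exact hw i u u'
    exact ⟨u0, fun _ => ⟨(this 0).2, o⟩, fun v => by simpa [tmW] using (this v).1⟩
  have r0 := fun i k n => one_pos.trans_le (Ok.rt0 (G := G) i k n)
  have p0 := fun i k => one_pos.trans_le (h.Pw1 D C i k)
  refine ⟨t, e1, s1, key t _ (fun i => by have := r0 k i (D + 1); have := p0 i k; unfold oW; positivity)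
    (fun i u u' => ?_) fun i u u' => ?_, fun t' x hx => key t' _ (fun i => ?_)
      (fun i _ _ => le_mul_of_one_le_left ?_ (one_le_pow₀ (by linarith [h.L1 i]))) fun i u u' => ?_⟩
  · have L1 : (1 : ℝ) ≤ G.L i := by linarith [h.L1 i]
    rw [oW, oW, mul_left_comm ((G.L i : ℝ) ^ n), ← mul_assoc ((G.L i : ℝ) ^ n), h.rt_step u',
      Nat.cast_mul, mul_pow, ← Ok.Pw_mul i.le_succ u', ← mul_div_assoc]
    refine mul_le_mul_of_nonneg_left (mul_le_mul_of_nonneg_right ?_ θ0.le) (by positivity)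
    rw [div_le_div_iff₀ (r0 ..) (mul_pos (by positivity) (r0 ..)), ← mul_assoc, mul_comm (G.Pw ..)]
    exact mul_le_mul_of_nonneg_right (mul_le_mul (pow_le_pow_right₀ L1 (by omega))
      (le_mul_of_one_le_left (p0 ..).le (h.Pw1 ..)) (p0 ..).le (by positivity)) (r0 ..).le
  · rw [sub_self, ← zero_smul ℝ t, fz_smul, sz, ← ys_bot (hj.trans u), Complex.ofReal_zero, zero_smul,
      ← map_zero (G.fl (s + 1) C J Tl.Bd.dg (lX 𝒜 D)), ← F.eqv_val (hj.trans u) (u'.trans a.lt.le)]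
    simp
  · have := (norm_nonneg _).trans hx; have := p0 l k; unfold cW'; positivity
  · have := (norm_nonneg _).trans hx; have := p0 l k; unfold cW'; positivity
  · rw [oW, cW', ← mul_add, add_mul, add_assoc]
    gcongr
    · exact (div_le_self (p0 ..).le (Ok.rt0 ..)).trans
        ((le_mul_of_one_le_left (p0 ..).le (h.Pw1 D C l i)).trans_eq (Ok.Pw_mul u u'))
    · exact ((le_mul_of_one_le_left (norm_nonneg _) (one_le_pow₀ one_le_two)).trans
        (W.dn gz D1 D2 (hj.trans u) u' a.lt.le _)).trans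
          ((W.sz_sub gz D1 D2 jk a.lt.le t t').trans (add_le_add s1 hx))

omit hj hn hJ vol in
/-- the slot is the true word plus the letter of the label, up to a null letter -/
theorem Wq.rep [Adj 𝒜] (D2 : D ≤ s + 2) (h1 : 20 * g * G.sJ J k + 8 * G.sJ J (k + 1) ≤ ν)
    (h2 : 2 * ν < G.N J) (t : Tl.Bd 𝒜 D → ℝ) (w : ℕ → ℝ) :
    G.Rep b J ν (G.tmW A s C J k y P t w) fun U =>
      ∏ l, (Kz.ct (Fi.tr haar) b (G.N J) (Kz.lt 𝒜 (c l)) (tz (P.x l) U) + r l) +
        Kz.lt 𝒜 (G.lb s C J t) (tz P.z U) := by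
  have : (Fi.tr haar).IsHaarMeasure := (inferInstance : haar.IsHaarMeasure)
  have h := a.ok
  choose τ e1 e2 e3 using q.lt
  have hR : R ≤ 4 * G.sJ J (k + 1) := a.dR.trans (Nat.mul_le_mul_left 4
    (le_of_eq_of_le (by rw [sJ, rt_top, mul_one]) (h.sJ_anti a.lt le_rfl)))
  have s0 : 0 < G.sJ J (k + 1) :=
    Nat.mul_pos (pow_pos (by linarith [h.L_big (k + 1)]) _) (pow_pos three_pos _)
  have ts : ∀ (x : St) (U : Fz), sh x U = tz x U := fun x U => funext fun e => by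
    simp only [sh, tz, add_comm]
  have re : ∀ {d : ℕ} (t : Tl.Bd 𝒜 d → ℝ) U, (G.fz s C J t).1 U = (G.fz s C J t).re U :=
    fun t U => Complex.ext rfl ((fz_real t).1 U)
  have lc : ∀ {d : ℕ}, d ≤ s + 2 → ∀ t : Tl.Bd 𝒜 d → ℝ, Lc R (Kz.lt 𝒜 (G.lb s C J t)) :=
    fun e t => W.lc _ (Kz.vp_mono e (lb_mem t)).1
  obtain ⟨F, hF⟩ : ∃ F : ι → Fz → ℝ, F = fun l U =>
    Kz.ct (Fi.tr haar) b (G.N J) (Kz.lt 𝒜 (c l)) U + r l := ⟨_, rfl⟩
  obtain ⟨F', hF'⟩ : ∃ F' : ι → Fz → ℝ, F' = fun l U => (G.fz s C J (τ l)).re U -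
    (Wy.er (Fi.tr haar) b (G.N J) (Kz.lt 𝒜 (c l)) - r l) := ⟨_, rfl⟩
  have c1 : ∀ l, Lc R (F l) := fun l => by
    have := lc (hd l).2.1 (τ l)
    rw [show G.lb s C J (τ l) = c l from e1 l] at this
    exact hF ▸ ⟨(this.1.sub continuous_const).add continuous_const, fun U V u => by
      simp only [Kz.ct, this.2 u]⟩
  have c2 : ∀ l, Lc R (F' l) := fun l =>
    have := (W.nl _ (hd l).2.1 (τ l)).1
    hF' ▸ ⟨this.1.sub continuous_const, fun U V u => by simp only [this.2 u]⟩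
  have dep : ∀ {F : ι → Fz → ℝ} {Y : Fz → ℝ}, (∀ l, Lc R (F l)) → Lc R Y →
      Continuous (fun U => ∏ l, F l (tz (P.x l) U) + Y (tz P.z U)) ∧
      DependsOn (fun U => ∏ l, F l (tz (P.x l) U) + Y (tz P.z U))
        {e | ∀ i, |e.1 i - P.z i| ≤ ν} := fun a1 a2 =>
    ⟨(continuous_finsetProd _ fun l _ => (a1 l).1.comp (Wy.cont_tz _)).add
      (a2.1.comp (Wy.cont_tz _)), fun U V u => congrArg₂ _ (prod_congr rfl fun l _ => (a1 l).2
        fun e he => u _ fun i => by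
          have := abs_le.1 (he i)
          have := abs_le.1 (q.near l i)
          simp only [Pi.add_apply, abs_le]
          omega) (a2.2 fun e he => u _ fun i => by
        have := abs_le.1 (he i)
        simp only [Pi.add_apply, abs_le]
        omega)⟩
  have n1 := Wy.Nl.word (h := Fi.tr haar) (b := b) (y := fun l => P.x l - P.z) (R := R) h2 c2 c1
    (fun l => by
      convert ((W.nl _ (hd l).2.1 (τ l)).2).smul (-1) using 2 with U
      simp only [hF, hF', show G.lb s C J (τ l) = c l from e1 l, Kz.ct]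
      ring) (fun l i => by have := q.near l i; simp only [Pi.sub_apply]; omega) fun l l' ne =>
    (q.far l l' ne).imp fun μ e => by
      simp only [Pi.sub_apply, sub_sub_sub_cancel_right]; omega
  have n2 := (((W.nl _ D2 t).2).smul (-1)).mono (show R ≤ ν by omega)
  have k1 : ∀ {F : ι → Fz → ℝ}, (∀ l, Lc R (F l)) →
      Continuous fun U => ∏ l, F l (tz (P.x l - P.z) U) := fun a1 =>
    continuous_finsetProd _ fun l _ => (a1 l).1.comp (Wy.cont_tz _)
  refine ⟨fun U => ∏ l, F' l (tz (P.x l) U) + (G.fz s C J t).re (tz P.z U), fun U => ?_, ?_, ?_⟩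
  · simp only [Tmz.ob, tmW, pwU, Ptw.ob, if_true, e2, q.a, hF', ← ts, Prod.fst_neg, Pi.neg_apply,
      neg_neg, re]
    push_cast
    exact add_comm _ _
  · rintro _ (rfl | rfl)
    · subst hF; exact dep c1 (lc D2 t)
    · exact dep c2 (W.nl _ D2 t).1
  · convert n1.add n2 ((k1 c1).sub (k1 c2)) (continuous_const.mul
      ((W.nl _ D2 t).1.1.sub (lc D2 t).1)) using 2 with U
    simp only [tmW, pwU, Wy.tz_tz, neg_add_cancel, Wy.tz_zero, neg_add_eq_sub, hF]
    ring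

end Gl

end Pool.Agent.Lib.MP_7f377f_mp.RG.Q4.En
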