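import Pool.Agent.Lib.MP_7f377f_mp.G.KzN3
import Pool.Agent.Lib.MP_7f377f_mp.G.KzN6
import Pool.Agent.Lib.MP_7f377f_mp.G.KyB

/-! Point letters and merged words at a fixed lattice. -/

noncomputable section

set_option linter.unusedSectionVars false
variable [Pool.Agent.Lib.MP_7f377f_mp.GD]

namespace Pool.Agent.Lib.MP_7f377f_mp.RG.Q4.En.Gl

open Finset Function Sg Real Tl
open L6 (Fz)
open Wy (tz)
open Zg (V0 Og fil)
open Kz (rB)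
open RG.Wd (gv)

attribute [local irreducible] box lbox tb tau rc

variable {G : Gl} {𝒜 : Set CM} [Og 𝒜] [Adj 𝒜] {ι : Type} [Fintype ι] [DecidableEq ι] [Inhabited ι]
  {b M δ K C₀ : ℝ} {s C D J j k R A n g m u : ℕ} {z : St} [NeZero (G.N J)]
  (W : G.Fw 𝒜 s C M R δ K b J j) (hm : G.N j = m * u) (hu : G.dZ j + 1 < u) (uo : Odd u)
  (hR : R + 4 ≤ G.rt J j) (hz : z ∈ box (G.rt J j))
include W hm hu uo hR hz

/-- point letters -/
theorem Fw.pt {d : ℕ} {c : V0 𝒜} {y : ℝ} (a : G.Aok ι A n g C₀ b J k j R)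
    (hg : (20 * g + 21) * G.sJ J k ≤ 6 * G.sJ J j) (gs : z ∈ G.Gs J j) (d1 : 1 ≤ d) (d2 : d ≤ s + 2)
    (hn : d + 9 ≤ n) (hL : 27 ^ n ≤ G.L j) (hJ : K / G.ka (s + 1) C J ^ d ≤ G.rt J j) (y0 : 0 < y)
    (hc : c ∈ (fil 𝒜).F (s + 2)) (o : ∀ γ, G.Os 𝒜 s C d b J j (gv γ z) (rB 𝒜 γ c) y) :
    ∃ v, |v| ≤ G.wZ u j * (G.cL A n j * y) ∧ G.Zn b J j (G.Lsl ι A n g C₀ b J k j R)
      (fun U => Kz.ct (Fi.tr haar) b (G.N J) (Kz.lt 𝒜 c) (tz z U)) (G.cL A n j * y) v := by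
  have : (Fi.tr haar).IsHaarMeasure := (inferInstance : haar.IsHaarMeasure)
  have h := a.ok
  have y1 := mul_pos (cL_pos h A n j) y0
  have hT := W.lc c hc
  have c2 := fun g => (hT.mr (fun i => abs_le.2 (mem_box.1 hz i)) g).mono
    (show _ ≤ 4 * G.rt J j by omega)
  choose v hv using fun g => a.zn_os W (gs_gv gs (gB g)) (RG.Wd.gv_box _ hz) d1 d2 hn hL hJ y0 (o _)
  have Z := fun g => (hv g).add lw_c (.const (-Wy.er (Fi.tr haar) b (G.N J) (Kz.lt 𝒜 c)))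
  simp only [add_zero, ← mr_lt, ← sub_eq_add_neg] at Z
  obtain ⟨K, hK⟩ := (isCompact_univ.image (f := fun U g => MP_7f377f_mp.Wx.mr g z (Kz.lt 𝒜 c) U -
    Wy.er (Fi.tr haar) b (G.N J) (Kz.lt 𝒜 c)) (continuous_pi fun g => (c2 g).1.sub
      continuous_const)).isBounded.exists_norm_le
  refine ⟨_, (h.e1_fin a.t (a.le.trans a.lt.le) hm hu uo (A := Set.univ)
    (r := fun μ g => update g μ (!g μ)) (K := K) (az_of a hg fun g _ => Z g)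
    ⟨fun g _ => (c2 g).1.sub continuous_const, fun g _ U V u => congrArg (· - _) ((c2 g).2 u),
      fun μ g _ U => by rw [MP_7f377f_mp.Wx.mr_rz], fun g _ U =>
        (norm_le_pi_norm _ g).trans (hK _ ⟨U, trivial, rfl⟩)⟩ Set.finite_univ
    (fun _ _ _ => ⟨trivial, rfl⟩) (fun _ _ => y1) fun g _ => ?_).2 (fun _ => true) trivial,
      Z fun _ => true⟩
  rw [MeasureTheory.integral_sub (Weak.cint _ ((c2 g).1.comp' Wy.cont_lf))
    (MeasureTheory.integrable_const _), ← Wy.er, er_mr hT.1]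
  simp

/-- words minus their labels -/
theorem Fw.wd {d : ι → ℕ} {c : ι → V0 𝒜} {r y y' : ι → ℝ} {x : ι → St}
    (a : G.Aok ι A n g 1 b J k j R) (hn : s + 11 ≤ n) (hA : s + 8 ≤ A)
    (hJ : ∀ d ≤ s + 2, K / G.ka (s + 1) C J ^ d ≤ G.rt J k) (hk : 2 * G.wZ u j ≤ 2 ^ (k + 1 - j))
    (hν : 20 * g * G.sJ J k + 8 * G.sJ J (k + 1) ≤ 3 * G.rt J j) (D1 : 1 ≤ D) (D2 : D ≤ s + 2)
    (gs : z ∈ G.Gs J 0) (e : ∀ l, 1 ≤ d l ∧ d l ≤ s + 2 ∧ c l ∈ Vp 𝒜 (d l) ∧ 0 < y l ∧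
      |r l| ≤ y l ∧ x l ∈ G.Gs J 0 ∧ x l ∈ box (G.rt J j) ∧
      (∀ μ, |x l μ - z μ| ≤ (20 * g * G.sJ J k : ℕ)) ∧
      ∀ γ, G.Os 𝒜 s C (d l) b J k (gv γ (x l)) (rB 𝒜 γ (c l)) (y l))
    (far : ∀ l l', l ≠ l' → ∃ μ, (66 * G.sJ J (k + 1) : ℕ) ≤ |x l μ - x l' μ|)
    (hy : ∀ l, 3 * (G.QA A k ^ 345 * (G.rt (k + 3) k : ℝ) ^ n) * y l ≤ y' l) :
    ∃ P, ∃ e ∈ Vp 𝒜 D, P.z = z ∧ P.x = x ∧ G.Wq s C D b J j k g d c r y' P e ∧ ∃ v : ℝ,
      G.Zn b J j (G.Lsl ι A n g 1 b J k j R) (fun U =>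
        ∏ l, (Kz.ct (Fi.tr haar) b (G.N J) (Kz.lt 𝒜 (c l)) (tz (x l) U) + r l) -
          (Kz.ct (Fi.tr haar) b (G.N J) (Kz.lt 𝒜 e) (tz z U) + v))
        (G.oW A n g s C D k y' j * (G.rt (k + 3) k : ℝ) ^ n) 0 := by
  have : (Fi.tr haar).IsHaarMeasure := (inferInstance : haar.IsHaarMeasure)
  have h := a.ok
  have hj := a.le.trans a.lt.le
  have q1 := one_le_pow₀ (n := 345) (show 1 ≤ G.QA A k by linarith [h.QA1 A k])
  have r1 := Ok.rt0 (G := G) (k + 3) k n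
  have r2 := one_le_mul_of_one_le_of_one_le q1 r1
  have y0 := fun l => (e l).2.2.2.1
  have y1 : ∀ l, y l ≤ y' l := fun l => by nlinarith [hy l, y0 l]
  have vol : 12 * G.rt J j < G.N J := by
    have : 0 < G.L j ^ (G.K0 + 1) := pow_pos (by linarith [h.L_big j]) _
    have m0 : 0 < m := Nat.pos_of_mul_pos_right (b := u) (hm ▸ (h.N_odd j).pos)
    rw [← h.rt_N hj, hm, mul_comm]
    refine Nat.mul_lt_mul_of_pos_left ?_ (pow_pos three_pos _)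
    unfold dZ at hu
    nlinarith
  have v2 : 80 * g * G.sJ J k ≤ G.N J := by nlinarith [Nat.zero_le (G.sJ J (k + 1))]
  have hd := fun l => And.intro (e l).1 (And.intro (e l).2.1 ((y0 l).trans_le (y1 l)))
  have g0 := fun l => gs_mono (e l).2.2.2.2.2.1 j.zero_le
  choose t t1 t2 using fun l => os_iff.1 ((e l).2.2.2.2.2.2.2.2 1)
  simp only [map_one, Module.End.one_apply, RG.Wd.gv_one] at t1 t2
  obtain ⟨P, hP⟩ : ∃ P : Ptw ι, P = ⟨x, fun l => -G.fz s C J (t l), fun l =>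
    (Wy.er (Fi.tr haar) b (G.N J) (Kz.lt 𝒜 (c l)) - r l : ℝ), 1, z⟩ := ⟨_, rfl⟩
  have ce : ∀ l, ‖G.ex b J (k + 1) (G.jx J (P.x l) (P.Y l)) - P.a l‖ ≤ y' l := fun l => by
    have c1 := (W.ce_of (e l).1 (e l).2.1 (by have := (e l).2.1; omega) (hJ _ (e l).2.1)
      (mul_pos (one_pos.trans_le q1) (y0 l)) a hm hu uo hR (gs_gv (g0 l)) (e l).2.2.2.2.2.2.1
      ((fil 𝒜).mono (e l).2.1 (e l).2.2.1.1) le_rfl (e l).2.2.2.2.2.2.2.2 (t1 l) (t2 l)).2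
    have c2 : 2 * G.wZ u j / 2 ^ (k + 1 - j) ≤ 1 := (div_le_one (by positivity)).2 hk
    have c3 := mul_le_mul_of_nonneg_right (add_le_add_right c2 1)
      (mul_nonneg (mul_pos (one_pos.trans_le q1) (y0 l)).le (zero_le_one.trans r1))
    simp only [hP, Complex.ofReal_sub, ← sub_add]
    refine (norm_add_le_of_le (c1.trans c3) ((Complex.norm_real _).trans_le
      (e l).2.2.2.2.1)).trans (le_trans ?_ (hy l))
    nlinarith [mul_le_mul_of_nonneg_right r2 (y0 l).le]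
  have lt : ∀ l, ∃ t : Tl.Bd 𝒜 (d l) → ℝ, G.lb s C J t = c l ∧ P.Y l = -G.fz s C J t ∧
      G.sz s C (d l) b J (P.x l) (G.fz s C J t) k ≤ y' l := fun l =>
    ⟨t l, t1 l, hP ▸ rfl, hP ▸ (t2 l).trans (y1 l)⟩
  have near : ∀ l μ, |P.x l μ - P.z μ| ≤ (20 * g * G.sJ J k : ℕ) := hP ▸ fun l =>
    (e l).2.2.2.2.2.2.2.1
  have o := W.wok a le_rfl hd hn hJ v2 (P := P) (hP ▸ g0) near (hP ▸ far)
    (fun l => (lt l).imp fun _ h => h.2) ce 0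
  rw [show (G.pwU A k y' P).tr ((G.rt J j : ℤ) • 0) = G.pwU A k y' P by simp [Ptw.tr]] at o
  have u0 : ∀ l, 0 < (G.pwU A k y' P).u l := fun l => mul_pos (one_pos.trans_le q1) (hd l).2.2
  have F := W.fr P.z (hP ▸ gs_mono gs j.zero_le) D D1 D2
  have ka := a.ka o u0 (D := s + 1) (by omega)
  obtain ⟨t₀, e0⟩ := F.im_ex a.le a.lt ka
  obtain ⟨-, ⟨_, k1, k2⟩, k3⟩ := ka
  obtain ⟨t', rfl⟩ : ∃ t' : _ → ℝ, t₀ = fun q => (t' q : ℂ) := ⟨fun q => (t₀ q).re, funext fun q =>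
    Complex.ext rfl (F.cmp_real lX_real le_rfl a.le a.lt.le (F.T.act k1 k2 k3).1
      (.act (a.real o u0 fun l => hP ▸ ⟨jx_real (fz_real _).neg _, Complex.ofReal_im _⟩)) e0 q)⟩
  have q : G.Wq s C D b J j k g d c r y' P (-G.lb s C J t') := ⟨hP ▸ ⟨gs, fun l => (e l).2.2.2.2.2.1⟩,
    near, hP ▸ far, lt, fun l => hP ▸ rfl, ce, t', (neg_neg _).symm, e0⟩
  obtain ⟨t₁, e1, -, tk, -⟩ := q.tok W a le_rfl hd hn hJ v2 D1 D2 hA
  obtain ⟨Y, p1, p2, p3⟩ := q.rep W a hd D2 hν (by omega) t₁ (G.oW A n g s C D k y')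
  have hz' := fun i => abs_le.2 (mem_box.1 hz i)
  have zz : (G.tmW A s C J k y' P t₁ (G.oW A n g s C D k y')).P.z = z := hP ▸ rfl
  rw [zz] at p2 p3
  have c1 := (p2 _ (.inl rfl)).1
  have c2 := p2 Y (.inr rfl)
  have Z := ((Zn.one (G := G) (b := b) (J := J) (j := j) (L := G.Lsl ι A n g 1 b J k j R)
    (d := (Y, G.oW A n g s C D k y' j * (G.rt (k + 3) k : ℝ) ^ n)) ⟨⟨c2.1, c2.2.mono fun l hl i => by
      have := hl i
      have := hz' i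
      have := abs_sub_abs_le_abs_sub (l.1 i) (z i)
      push_cast at *
      linarith⟩, mul_nonneg ((tk.sl 0).pos j).le (zero_le_one.trans r1), _, tk, zz ▸ hz, p1,
      le_rfl⟩ c2.1).null lw_c c1 (by
      simpa only [Wy.tz_tz, add_neg_cancel, Wy.tz_zero] using p3.tz ((c1.comp (Wy.cont_tz _)).sub
        (c2.1.comp (Wy.cont_tz _))) (y := z) (R' := 4 * G.rt J j) fun i => by
          have := hz' i
          omega)).add lw_c (.const (-G.al b J j fun V => Y (L6.lf V)))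
  refine ⟨P, _, neg_mem (lb_mem t'), hP ▸ rfl, hP ▸ rfl, q, Wy.er (Fi.tr haar) b (G.N J)
    (Kz.lt 𝒜 (-G.lb s C J t')) + G.al b J j fun V => Y (L6.lf V), ?_⟩
  rw [add_zero, add_neg_cancel, e1] at Z
  convert Z using 2 with U
  simp only [hP, Kz.ct, neg_neg, map_neg, Pi.neg_apply]
  ring

end Pool.Agent.Lib.MP_7f377f_mp.RG.Q4.En.Gl
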