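import Pool.Agent.Lib.MP_7f377f_mp.G.KzN5
import Pool.Agent.Lib.MP_7f377f_mp.G.KyB

/-! The sizes of the normalised letters. -/

noncomputable section

set_option linter.unusedSectionVars false
variable [Pool.Agent.Lib.MP_7f377f_mp.GD]

namespace Pool.Agent.Lib.MP_7f377f_mp.RG.Q4.En.Gl

open MeasureTheory Filter Topology Set YM7 L6 RG.Tl Wy Kz MvPolynomial
open RG.Wd (B4 gv)
open Wu (Z4)
open Zg (V0 Og r0 fil u0)

variable (G : Gl) (𝒜 : Set CM) [Og 𝒜] (β : ℕ × ℕ → ℝ) (U : Ultrafilter (ℕ × ℕ))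
  (N : ℕ × ℕ → V0 𝒜 →ₗ[ℝ] V0 𝒜) {ι : Type} [Fintype ι]

/-- the letters `c t` have the sizes `Y t` at the level `kk t` -/
def Sy (s C : ℕ) (d : ι → ℕ) (c : ℝ → ι → V0 𝒜) (kk : ℝ → ℕ) (Y : ℝ → ι → ℝ) : Prop :=
  ∀ᶠ t in 𝓝[>] (0 : ℝ), ∀ᶠ p in (U : Filter (ℕ × ℕ)), ∃ (c' : ι → V0 𝒜) (r : ι → ℝ), ∀ l,
    c' l ∈ Vp 𝒜 (d l) ∧ (∀ W, G.Oz 𝒜 β N p (c t l) W =
      Kz.ct (Fi.tr haar) (β p) (G.nn p) (Kz.lt 𝒜 (c' l)) W + r l) ∧ 0 < Y t l ∧ |r l| ≤ Y t l ∧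
      ∀ γ, ∀ x ∈ G.Gs p.2 0, (G.wm p.1).Os 𝒜 s C (d l) (β p) p.2 (kk t) x (rB 𝒜 γ (c' l)) (Y t l)

variable {G 𝒜 β U N} {A : ℝ → V0 𝒜 ≃ₗ[ℝ] V0 𝒜} {s D : ℕ} {d : ι → ℕ} {c : ι → V0 𝒜} {κ : ℝ}
  {kk : ℝ → ℕ}

theorem cc_vp {c : V0 𝒜} (e : c ∈ Vp 𝒜 D) : constantCoeff c.1 = 0 := by
  simpa [u0] using congrArg (fun c : V0 𝒜 => constantCoeff c.1) ((π0_eq c).symm.trans e.2)

namespace Nz

variable (H : G.Nz 𝒜 β U N A)
include H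

theorem oz (D : ℕ) : ∀ᶠ p in fast, ∀ c ∈ Vp 𝒜 D, N p c ∈ Vp 𝒜 D ∧
    (∀ γ, rB 𝒜 γ (N p c) = N p (rB 𝒜 γ c)) ∧ ∀ (r : ℝ) W, G.Oz 𝒜 β N p (c + r • u0 𝒜) W =
      Kz.ct (Fi.tr haar) (β p) (G.nn p) (Kz.lt 𝒜 (N p c)) W + r := (H.bij D).mono fun p k c e =>
  ⟨k.1.mapsTo e, fun γ => (k.2.2 γ c e.1).symm, fun r W => by
    rw [Oz_ap, map_add, map_smul, k.2.1, map_add, map_smul, oc_u0]
    change _ + _ + r * 1 = _
    rw [cc_vp (k.1.mapsTo e), add_zero, mul_one]⟩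

/-- every label is the label of a normalised field -/
theorem lab (D : ℕ) : ∀ᶠ p in fast, ∀ γ, ∀ e ∈ Vp 𝒜 D, ∀ u : ℝ, ∃ m ∈ (Zg.fil 𝒜).F D, ∀ v W,
    G.Oz 𝒜 β N p m (tz v (Wd.pb Inv.inv γ W)) =
      Kz.ct (Fi.tr haar) (β p) (G.nn p) (Kz.lt 𝒜 e) (tz (gv γ v) W) + u := by
  filter_upwards [H.bij D, H.oz D] with p k a γ e he u
  obtain ⟨m, m1, m2⟩ := k.1.surjOn (rB_vp γ⁻¹ D he)
  refine ⟨_, add_mem m1.1 (Submodule.smul_mem _ u (u0_F D)), fun v W => ?_⟩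
  rw [(a m m1).2.2, m2, tz_pb, ← ct_rB, rB_rB, mul_inv_cancel, map_one, Module.End.one_apply]

theorem vpA (t : ℝ) : MapsTo (A t) (Vp 𝒜 D) (Vp 𝒜 D) := fun c e =>
  ⟨(H.up t).1 D c e.1, (H.c0 t c).symm.trans ((congrArg (A t) e.2).trans (map_zero _))⟩

variable (o : G.Oks) (hU : U ≤ fast)
include o hU

/-- the normalisation of the unit -/
theorem unit : ∃ B, ∀ᶠ t in 𝓝[>] (0 : ℝ), ∃ r : ℝ, A t (u0 𝒜) = r • u0 𝒜 ∧ t ^ 4 * |r| ≤ B := by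
  refine ⟨‖Zg.fp0 𝒜 1 (fun _ => u0 𝒜) 0‖ + 1, ?_⟩
  filter_upwards [H.af o hU 1 (fun _ => u0 𝒜) 1 le_rfl 1 one_pos, self_mem_nhdsWithin]
    with t a (t0 : 0 < t)
  have e := f0_eq ((H.up t).1 0 _ (u0_F 0))
  obtain ⟨p, a, b⟩ := (a.and (hU (H.un o hU))).exists
  have := a 0 ⟨by simp [t0.le], fun i j u => (u (Subsingleton.elim _ _)).elim⟩
  refine ⟨_, e, ?_⟩
  generalize constantCoeff (A t (u0 𝒜)).1 = r at *
  rw [show (fun i : Fin 1 => t⁻¹ • pz (G.aa p) ((0 : Fin 1 → Z4) i)) = 0 from funext fun _ => by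
    ext; simp [pz]] at this
  simp only [MP_7f377f_mp.Wx.cl, e, map_smul, b.1, Fintype.prod_unique, Pi.smul_apply, Pi.one_apply,
    smul_eq_mul, mul_one, ex_const] at this
  have := (norm_le_norm_add_norm_sub' _ _).trans (add_le_add_right this _)
  simpa [abs_of_pos t0] using this

variable [Adj 𝒜] (tu : G.Tus β) (q : G.HP Sd.StA) (hs : 2 ≤ s)
include hs

omit hU o in
/-- the letters of a finite alphabet -/
theorem pt_own {A₀ : Set (V0 𝒜)} (f : A₀.Finite) :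
    ∀ᶠ C in atTop, ∀ᶠ j in atTop, ∃ K > 0, ∀ᶠ p in fast, ∀ c ∈ A₀, ∀ d ≤ s, c ∈ (Zg.fil 𝒜).F d →
      ∃ c' ∈ Vp 𝒜 d, ∃ r : ℝ, (∀ W, G.Oz 𝒜 β N p c W =
        Kz.ct (Fi.tr haar) (β p) (G.nn p) (Kz.lt 𝒜 c') W + r) ∧ |r| ≤ K ∧
        ∀ γ, ∀ x ∈ G.Gs p.2 j, (G.wm p.1).Os 𝒜 s C d (β p) p.2 j x (rB 𝒜 γ c') K := by
  obtain ⟨B, hB⟩ := (f.image fun c : V0 𝒜 =>
    max ‖c - constantCoeff c.1 • u0 𝒜‖ |constantCoeff c.1|).bddAbove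
  refine (H.own s hs).mono fun C a => a.mono fun j ⟨K, a⟩ =>
    ⟨(|K| + 1) * (|B| + 1), by positivity, ?_⟩
  filter_upwards [a, (eventually_all_finite (finite_le_nat s)).2 fun d _ => H.oz d] with p a b c hc
    d hd e
  obtain ⟨b1, b2, b3⟩ := b d hd _ (vp_sub e)
  obtain ⟨c1, c2⟩ := max_le_iff.1 ((hB ⟨c, hc, rfl⟩).trans (le_abs_self B))
  refine ⟨_, b1, _, fun W => by rw [← b3, sub_add_cancel], by nlinarith [abs_nonneg K, abs_nonneg B],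
    fun γ x hx => b2 γ ▸ (a x hx d hd _ (rB_vp γ d (vp_sub e))).mono ?_⟩
  rw [rB_norm]
  exact mul_le_mul (by linarith [le_abs_self K]) (by linarith) (norm_nonneg _) (by positivity)

variable (hd : ∀ l, 1 ≤ d l ∧ d l ≤ s ∧ c l ∈ (Zg.fil 𝒜).F (d l)) (M : G.Mk κ kk)
include hd M

include tu q in
theorem sy_own : ∀ᶠ C in atTop, ∀ᶠ j in atTop, ∃ K > 0, G.Sy 𝒜 β U N s C d (fun _ => c) kk
    fun t l => G.Pw (d l) C j (kk t) * G.rt (kk t) j ^ d l * K := by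
  filter_upwards [H.pt_own hs (finite_range c), o.os_up 𝒜 tu q hs] with C a b
  filter_upwards [a, b] with j ⟨K, K0, a⟩ b
  refine ⟨K, K0, (M.1.eventually_ge_atTop j).mono fun t jk => ?_⟩
  filter_upwards [hU a, hU (fast_le (tendsto_snd.eventually b)), hU (ev_lev o (kk t))] with p a b kJ
  choose c' c1 r c2 c3 c4 using fun l => a _ ⟨l, rfl⟩ _ (hd l).2.1 (hd l).2.2
  refine ⟨c', r, fun l => ?_⟩
  have : 1 ≤ G.Pw (d l) C j (kk t) * G.rt (kk t) j ^ d l :=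
    one_le_mul_of_one_le_of_one_le ((o 0).1.Pw1 ..) (Ok.rt0 ..)
  exact ⟨c1 l, c2 l, by positivity, (c3 l).trans (le_mul_of_one_le_left K0.le this), fun γ x hx =>
    b _ x (gs_mono hx j.zero_le) _ (hd l).1 (hd l).2.1 _ _ _ jk kJ
      (c4 l γ x (gs_mono hx j.zero_le))⟩

theorem sy_owt : ∀ᶠ C in atTop, ∃ a : ℕ, G.Sy 𝒜 β U N s C d (fun t l => A t (c l)) kk
    fun t _ => G.L (G.kt t) ^ a * (t ^ 4)⁻¹ := by
  have h := (o 0).1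
  obtain ⟨w, hw⟩ := M.2
  obtain ⟨B, hB⟩ := H.unit o hU
  obtain ⟨B', hB'⟩ := (finite_range fun l =>
    max ‖c l - constantCoeff (c l).1 • u0 𝒜‖ |constantCoeff (c l).1|).bddAbove
  refine (H.owt s hs).mono fun C a => ?_
  obtain ⟨a, ha⟩ := a w
  refine ⟨a + G.K0 * s + 1, ?_⟩
  filter_upwards [ha 0, hw, hB, self_mem_nhdsWithin, (h.L_top.comp (kt_top o)).eventually_ge_atTop
    (max ((66 * κ * (3 ^ w) ^ G.K0) ^ s * B') (B' * B))]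
    with t a1 ⟨a2, a3, _, a4, a5⟩ ⟨ρ, b1, b2⟩ (t0 : 0 < t) l1
  obtain ⟨l1, l2 : _ ≤ (G.L (G.kt t) : ℝ)⟩ := max_le_iff.1 l1
  have L1 : (1 : ℝ) ≤ G.L (G.kt t) := le_trans (by norm_num) (h.L1 (G.kt t))
  have k0 := G.aa_pos (0, kk t)
  have s1 := (one_le_div k0).2 a4
  have s2 : t / G.aa (0, kk t) ≤ 66 * κ * (3 ^ w) ^ G.K0 * (G.L (G.kt t) : ℝ) ^ G.K0 := by
    have : (G.L (kk t) : ℝ) ≤ 3 ^ w * G.L (G.kt t) := by
      exact_mod_cast (h.L_mono a3).trans (h.L_add _ w)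
    have s3 := (div_le_iff₀ k0).2 a5
    have κ0 : 0 ≤ 66 * κ := nonneg_of_mul_nonneg_left (zero_le_one.trans (s1.trans s3))
      (pow_pos (lt_of_lt_of_le (by norm_num) (h.L1 (kk t))) _)
    rw [mul_assoc, ← mul_pow]
    exact s3.trans (by gcongr)
  filter_upwards [a1, hU (eventually_all.2 fun l => H.oz (d l))] with p a1 b
  refine ⟨fun l => N p (A t (c l - constantCoeff (c l).1 • u0 𝒜)),
    fun l => constantCoeff (c l).1 * ρ, fun l => ?_⟩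
  have e := vp_sub (hd l).2.2
  obtain ⟨b3, b4, b5⟩ := b l _ (H.vpA t e)
  obtain ⟨c1, c2⟩ := max_le_iff.1 (hB' ⟨l, rfl⟩)
  refine ⟨b3, fun W => ?_, by positivity, ?_, fun γ x hx => ?_⟩
  · rw [← b5, mul_smul, ← b1, ← map_smul, ← map_add, sub_add_cancel]
  · rw [← div_eq_mul_inv, le_div_iff₀ (by positivity), abs_mul, mul_assoc, mul_comm |ρ|]
    exact ((mul_le_mul c2 b2 (by positivity) ((abs_nonneg _).trans c2)).trans l2).trans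
      (le_self_pow₀ L1 (by omega))
  · rw [b4, ← H.cm]
    refine (a1 _ a2 a3 x (gs_mono hx (Nat.zero_le _)) _ (hd l).2.1 _ (rB_vp γ _ e)).mono ?_
    rw [rs_rB, rB_norm, div_mul_eq_mul_div, div_eq_mul_inv, add_assoc, pow_add]
    gcongr
    calc _ ≤ (66 * κ * (3 ^ w) ^ G.K0 * (G.L (G.kt t) : ℝ) ^ G.K0) ^ s * B' :=
          (rs_le s1 ((Zg.fil 𝒜).mono (hd l).2.1 e.1)).2.trans (mul_le_mul
            (pow_le_pow_left₀ (by linarith) s2 _) c1 (norm_nonneg _) (pow_nonneg (by linarith) _))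
      _ = (G.L (G.kt t) : ℝ) ^ (G.K0 * s) * ((66 * κ * (3 ^ w) ^ G.K0) ^ s * B') := by ring
      _ ≤ _ := by rw [pow_succ]; gcongr; exact l1

end Nz

end Pool.Agent.Lib.MP_7f377f_mp.RG.Q4.En.Gl
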