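import Pool.Agent.Lib.MP_7f377f_mp.G.ZhP
import Pool.Agent.Lib.MP_7f377f_mp.G.ZhK1
import Pool.Agent.Lib.MP_7f377f_mp.G.KzS

/-! The coefficients of the free expansion are determined by far test fields. -/

noncomputable section

namespace Pool.Agent.Lib.MP_7f377f_mp.Ko
variable [Pool.Agent.Lib.MP_7f377f_mp.GD]
set_option linter.unusedSectionVars false

open MvPolynomial Filter Topology Set YM7 Sw Zf Zg Function Matrix Asymptotics RG.Tl Kz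

theorem lin_O {V V' Y : Type} [NormedAddCommGroup V] [NormedSpace ℝ V] [NormedAddCommGroup V']
    [NormedSpace ℝ V'] (W : Submodule ℝ V) [FiniteDimensional ℝ W] {l : Filter Y} {F : Y → V → V'}
    (hl : ∀ y, IsLinearMap ℝ (F y)) {w : Y → ℝ} (h : ∀ c, (F · c) =O[l] w) :
    (fun y : Y × W => F y.1 y.2) =O[l ×ˢ 𝓟 univ] fun y => w y.1 * ‖y.2‖ := by
  let b := Module.finBasis ℝ W
  have e : ∀ y : Y × W, F y.1 y.2 = ∑ j, b.coord j y.2 • F y.1 (b j) := fun y => by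
    have := congrArg ((hl y.1).mk' _ ∘ₗ W.subtype) (b.sum_repr y.2).symm
    rw [map_sum] at this
    simp only [map_smul] at this
    exact this
  simp only [e]
  refine IsBigO.fun_sum fun j _ => ?_
  exact (((b.coord j).toContinuousLinearMap.isBigO_comp (fun y : Y × W => y.2) _).norm_right.smul
    ((h (b j)).comp_tendsto tendsto_fst)).congr_right fun _ => mul_comm _ _

variable {𝒜 : Set CM} [o : Og 𝒜]

theorem f2_eq (q a : V0 𝒜) (y) :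
    fp0 𝒜 2 ![q, a] y = Ek y (rename (Prod.mk 0) q.1 * rename (Prod.mk 1) a.1) := by
  simp [fp0, fp_eq, Rn]

theorem f3_eq (q a b : V0 𝒜) (y) : fp0 𝒜 3 ![q, a, b] y =
    Ek y (rename (Prod.mk 0) q.1 * (rename (Prod.mk 1) a.1 * rename (Prod.mk 2) b.1)) := by
  simp [fp0, fp_eq, Rn, Fin.prod_univ_succ]

theorem fp0_rs {t : ℝ} (h : t ≠ 0) {k : ℕ} (c : Fin k → V0 𝒜) (y : Fin k → R4) :
    fp0 𝒜 k (fun i => rs 𝒜 t (c i)) (fun i => t • y i) = fp0 𝒜 k c y := by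
  refine Eq.trans ?_ ((s_cov _ (fun a => (c a).1) y).2.1 _ _ (mul_ne_zero h h) (smul_o t))
  unfold fp0
  congr 1
  funext a
  ext l
  simp [ac, Matrix.smul_mulVec]

/-- the coefficients are bilinear -/
def Bl (D : ℕ) (x : Fin 2 → R4) : V0 𝒜 →ₗ[ℝ] V0 𝒜 →ₗ[ℝ] V0 𝒜 :=
  LinearMap.mk₂ ℝ (fun a b => Bp ![a, b] D x)
    (fun _ _ _ => Subtype.ext (by simp [Bp_val, qx, Rn, add_mul]))
    (fun _ _ _ => Subtype.ext (by simp [Bp_val, qx, Rn]))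
    (fun _ _ _ => Subtype.ext (by simp [Bp_val, qx, Rn, mul_add]))
    fun _ _ _ => Subtype.ext (by simp [Bp_val, qx, Rn])

theorem Bl_eq (D x) (c : Fin 2 → V0 𝒜) : Bl D x (c 0) (c 1) = Bp c D x :=
  congrArg (Bp · D x) (funext fun i => by fin_cases i <;> rfl)

/-- the remainder of the free expansion -/
def rm (D : ℕ) (y : ℝ × (Fin 2 → R4)) (q a b : V0 𝒜) : ℝ :=
  fp0 𝒜 3 ![q, rs 𝒜 y.1 a, rs 𝒜 y.1 b] ![ee 0, y.1 • y.2 0, y.1 • y.2 1] -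
    fp0 𝒜 2 ![q, rs 𝒜 y.1 (Bl D y.2 a b)] ![ee 0, 0]

variable {K : Set (Fin 2 → R4)} (hK : IsCompact K) (hi : ∀ x ∈ K, Injective x) (D E : ℕ)

section
include hK hi

theorem rm_pt (q a b : V0 𝒜) : (rm D · q a b) =O[Fl K] fun y => y.1 ^ (D + 1) := by
  refine ((Bp_pt (D := D) (s := {![0, ee 0]} ×ˢ K) (isCompact_singleton.prod hK)
    (fun y e => ⟨?_, hi _ e.2⟩) ![a, b] ![q.1]).comp_tendsto
    (k := fun y : ℝ × (Fin 2 → R4) => (y.1, ![0, ee 0], y.2)) (tendsto_fst.prodMk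
      (tendsto_principal.2 (tendsto_snd.eventually (mem_principal_self K) |>.mono fun _ e =>
        ⟨rfl, e⟩)))).congr_left fun y => ?_
  · rw [e.1]
    intro i j
    fin_cases i <;> fin_cases j <;> simp [ee, eq_comm (a := (0 : R4))]
  · have e1 : yt y.1 ![0, ee 0] y.2 =
        ![ee 0, y.1 • y.2 0, y.1 • y.2 1] ∘ Sum.elim ![(1 : Fin 3), 2] ![0] := funext fun i => by
      rcases i with i | i <;> fin_cases i <;> simp [yt]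
    have e2 : ![0, ee 0] = ![ee 0, 0] ∘ ![(1 : Fin 2), 0] := funext fun i => by
      fin_cases i <;> rfl
    rw [Function.comp_apply, e1, fp_comp, rm, f3_eq, f2_eq]
    conv_lhs => rw [e2, fp_comp]
    simp only [Fintype.prod_sum_type, Fin.prod_univ_succ, Fin.prod_univ_zero, mul_one]
    rw [mul_comm, mul_comm (rename _ (vecCons _ _ 0))]
    rfl

theorem rm_bd : ∃ C ≥ (0 : ℝ), ∀ᶠ τ in 𝓝[>] (0 : ℝ), ∀ x ∈ K, ∀ q a b : (fil 𝒜).F E,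
    |rm D (τ, x) q.1 a.1 b.1| ≤ C * |τ ^ (D + 1) * ‖q‖ * ‖a‖ * ‖b‖| := by
  obtain ⟨C, C0, h⟩ := (lin_O ((fil 𝒜).F E)
    (F := fun (y : (_ × (fil 𝒜).F E) × (fil 𝒜).F E) b => rm D y.1.1 y.1.2.1 y.2.1 b)
    (fun _ => ⟨fun _ _ => by simp [rm, f2_eq, f3_eq, mul_add]; ring, fun _ _ => by
      simp [rm, f2_eq, f3_eq, mul_sub]⟩) fun b => lin_O ((fil 𝒜).F E)
    (F := fun (y : _ × (fil 𝒜).F E) a => rm D y.1 y.2.1 a b)
    (fun _ => ⟨fun _ _ => by simp [rm, f2_eq, f3_eq, mul_add, add_mul]; ring, fun _ _ => by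
      simp [rm, f2_eq, f3_eq, mul_sub]⟩) fun a => lin_O ((fil 𝒜).F E) (F := fun y q => rm D y q a b)
    (fun _ => ⟨fun _ _ => by simp [rm, f2_eq, f3_eq, add_mul]; ring, fun _ _ => by
      simp [rm, f2_eq, f3_eq, mul_sub]⟩) fun q => rm_pt hK hi D q a b).exists_nonneg
  have := h.bound
  simp only [eventually_prod_principal_iff, mem_univ, forall_const] at this
  exact ⟨C, C0, this⟩

theorem bl_bd : ∃ C ≥ (0 : ℝ), ∀ x ∈ K, ∀ a ∈ (fil 𝒜).F E, ∀ b ∈ (fil 𝒜).F E,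
    ‖Bl D x a b‖ ≤ C * (‖a‖ * ‖b‖) := by
  obtain ⟨C, C0, h⟩ := (lin_O ((fil 𝒜).F E) (F := fun (y : _ × (fil 𝒜).F E) b => Bl D y.1 y.2.1 b)
    (fun _ => LinearMap.isLinear _) fun b => lin_O ((fil 𝒜).F E) (l := 𝓟 K) (w := fun _ => 1)
    (F := fun x a => Bl D x a b) (fun x => ⟨by simp, by simp⟩) fun a =>
      let ⟨C, e⟩ := hK.exists_bound_of_continuousOn ((Bp_cont (D := D) ![a, b]).mono hi)
      .of_bound C fun x m => (e x m).trans_eq (by simp)).exists_nonneg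
  have := h.bound
  simp only [eventually_prod_principal_iff, mem_univ, forall_const, eventually_principal] at this
  exact ⟨C, C0, fun x m a ha b hb => by simpa using this x m ⟨a, ha⟩ ⟨b, hb⟩⟩

end

theorem test : ∃ C ≥ (0 : ℝ), ∀ G : V0 𝒜 → ℝ, IsLinearMap ℝ G → ∀ B ≥ (0 : ℝ),
    (∀ q, q ∈ Vp 𝒜 D ∨ q = u0 𝒜 → |G q| ≤ B * ‖q‖) → ∀ f ∈ (fil 𝒜).F D, |G f| ≤ C * B * ‖f‖ := by
  obtain ⟨L, L0, hL⟩ := ex_bd (W := (fil 𝒜).F D) ((fil 𝒜).π 0)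
  refine ⟨1 + 2 * L, by positivity, fun G l B B0 h f hf => ?_⟩
  have a := hL f hf
  obtain ⟨r, e⟩ := cl3 ((fil 𝒜).mono (Nat.zero_le 3) ((fil 𝒜).π_mem 0 f))
  have b := h (f - (fil 𝒜).π 0 f) (.inl ⟨sub_mem hf ((fil 𝒜).mono D.zero_le ((fil 𝒜).π_mem 0 f)), by
    rw [SetLike.mem_coe, LinearMap.mem_ker, map_sub, sub_eq_zero]
    exact Subtype.ext (((hc_hm 0 f.1).hc_eq 0).trans (if_pos rfl)).symm⟩)
  have c : |G ((fil 𝒜).π 0 f)| ≤ B * ‖(fil 𝒜).π 0 f‖ := by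
    rw [e, l.map_smul, norm_smul, smul_eq_mul, abs_mul, mul_left_comm]
    exact mul_le_mul_of_nonneg_left (h _ (.inr rfl)) (abs_nonneg _)
  rw [l.map_sub] at b
  have := abs_sub_abs_le_abs_sub (G f) (G ((fil 𝒜).π 0 f))
  nlinarith [norm_sub_le f ((fil 𝒜).π 0 f)]

theorem ev_mul (A : ℝ) {ε : ℝ} (ε0 : 0 < ε) : ∀ᶠ η in 𝓝[>] (0 : ℝ), A * η ≤ ε :=
  nhdsWithin_le_nhds (((continuous_const_mul A).tendsto' 0 0 (mul_zero A)).eventually_le_const ε0)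

theorem free (c : Fin 2 → V0 𝒜) (D E : ℕ) {K : Set (Fin 2 → R4)} (hK : IsCompact K)
    (hi : ∀ x ∈ K, Injective x) {ε : ℝ} (ε0 : 0 < ε) : ∃ η : ℝ, 0 < η ∧
    ∀ τ ∈ Ioc 0 η, ∀ x ∈ K, ∀ e ∈ (fil 𝒜).F D, ∀ c' : Fin 2 → V0 𝒜,
      (∀ i, c' i ∈ (fil 𝒜).F E ∧ ‖c' i - c i‖ ≤ η) →
      (∀ q, q ∈ Vp 𝒜 D ∨ q = u0 𝒜 → |fp0 𝒜 2 ![rs 𝒜 τ⁻¹ q, e] ![τ⁻¹ • ee 0, 0] -
        fp0 𝒜 3 ![rs 𝒜 τ⁻¹ q, c' 0, c' 1] ![τ⁻¹ • ee 0, x 0, x 1]| ≤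
          η * (1 + ‖e‖) * τ ^ D * ‖q‖) → ‖e - Bp c D x‖ ≤ ε := by
  obtain ⟨D₀, hc⟩ := Zo.exF (fil 𝒜) c
  obtain ⟨C, C0, hC⟩ := rm_bd (𝒜 := 𝒜) hK hi D (D₀ + E + D)
  obtain ⟨C₂, C2, hB⟩ := bl_bd (𝒜 := 𝒜) hK hi D (D₀ + E + D)
  obtain ⟨C₁, C1, hT⟩ := test (𝒜 := 𝒜) D
  obtain ⟨m, m0, hm⟩ := nd (𝒜 := 𝒜) D
  obtain ⟨τ₀, τ0, hτ⟩ := mem_nhdsGT_iff_exists_Ioc_subset.1 hC
  set M := ‖c‖ + 1 with hM
  obtain ⟨η, η0, η1, η2, η3⟩ := (Eventually.and (Ioc_mem_nhdsGT (lt_min (mem_Ioi.1 τ0) one_pos))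
    ((ev_mul C₁ (half_pos m0)).and ((ev_mul (2 * (C₁ * (1 + C₂ * M ^ 2) + C * M ^ 2))
      (mul_pos m0 (half_pos ε0))).and (ev_mul (2 * C₂ * M) (half_pos ε0))))).exists
  refine ⟨η, η0.1, fun τ ht x hx e he c' h' H => ?_⟩
  have t0 := ht.1
  have t1 : τ ≤ 1 := ht.2.trans (η0.2.trans (min_le_right _ _))
  have m1 : ∀ i, c i ∈ (fil 𝒜).F (D₀ + E + D) := fun i => (fil 𝒜).mono (by omega) (hc i)
  have m2 : ∀ i, c' i ∈ (fil 𝒜).F (D₀ + E + D) := fun i => (fil 𝒜).mono (by omega) (h' i).1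
  have n1 : ∀ i, ‖c i‖ ≤ M := fun i => (norm_le_pi_norm c i).trans (by linarith)
  have n2 : ∀ i, ‖c' i‖ ≤ M := fun i => by
    linarith [norm_le_pi_norm c i, norm_le_insert' (c' i) (c i), (h' i).2,
      η0.2.trans (min_le_right _ _)]
  have M0 : 0 ≤ M := by positivity
  have mm : ‖c' 0‖ * ‖c' 1‖ ≤ M ^ 2 := sq M ▸ mul_le_mul (n2 0) (n2 1) (norm_nonneg _) M0
  have b1 := (hB x hx _ (m2 0) _ (m2 1)).trans (mul_le_mul_of_nonneg_left mm C2)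
  have b2 : ‖Bl D x (c' 0) (c' 1) - Bp c D x‖ ≤ 2 * C₂ * M * η := by
    have := norm_add_le_of_le (hB x hx _ (sub_mem (m2 0) (m1 0)) _ (m2 1))
      (hB x hx _ (m1 0) _ (sub_mem (m2 1) (m1 1)))
    rw [LinearMap.map_sub₂, map_sub, sub_add_sub_cancel, Bl_eq D x c] at this
    nlinarith [mul_le_mul_of_nonneg_left (mul_le_mul (h' 0).2 (n2 1) (norm_nonneg _) η0.1.le) C2,
      mul_le_mul_of_nonneg_left (mul_le_mul (n1 0) (h' 1).2 (norm_nonneg _) M0) C2]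
  have mB : e - Bl D x (c' 0) (c' 1) ∈ (fil 𝒜).F D := sub_mem he (Bp_mem _ _)
  have mw := (rs_F t0.ne' D).mapsTo mB
  have a := hT (fun q => fp0 𝒜 2 ![q, rs 𝒜 τ e] ![ee 0, 0] -
      fp0 𝒜 3 ![q, rs 𝒜 τ (c' 0), rs 𝒜 τ (c' 1)] ![ee 0, τ • x 0, τ • x 1])
    ⟨fun _ _ => by simp [f2_eq, f3_eq, add_mul]; ring, fun _ _ => by simp [f2_eq, f3_eq, mul_sub]⟩
    (η * (1 + ‖e‖) * τ ^ D) (by have := η0.1; positivity) fun q hq => by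
      convert H q hq using 3 <;> refine .trans ?_ (fp0_rs t0.ne' _ _) <;> congr 1 <;> funext i <;>
        fin_cases i <;> simp [rs_mul, rs_one, t0.ne']
  have k := hm _ le_rfl (fun R c => Zo.up_of (r0_gr R) D c) (ee 0) 0 (by simp [ee]) _ mw
    (C₁ * (η * (1 + ‖e‖) * τ ^ D) + C * (τ ^ D * η * M ^ 2)) (by have := η0.1; positivity)
    fun f hf => by
      have r : |rm D (τ, x) f (c' 0) (c' 1)| ≤ C * |τ ^ (D + 1) * ‖f‖ * ‖c' 0‖ * ‖c' 1‖| :=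
        hτ ⟨t0, ht.2.trans (η0.2.trans (min_le_left _ _))⟩ x hx
          ⟨f, (fil 𝒜).mono (by omega) hf⟩ ⟨_, m2 0⟩ ⟨_, m2 1⟩
      rw [abs_of_nonneg (a := _ * _) (by positivity)] at r
      have u : τ ^ (D + 1) * ‖f‖ * ‖c' 0‖ * ‖c' 1‖ ≤ τ ^ D * η * M ^ 2 * ‖f‖ := by
        have := η0.1
        rw [pow_succ, mul_assoc, mul_right_comm]
        gcongr
        exact ht.2
      rw [map_sub, map_sub, b2_eq, b2_eq, ← fp0_two, ← fp0_two, add_mul, mul_assoc C]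
      exact (abs_sub_le _ _ _).trans (add_le_add (a f hf) (r.trans (mul_le_mul_of_nonneg_left u C0)))
  have s := (rs_le (one_le_inv₀ t0 |>.2 t1) mw).2
  rw [(rs_inv t0.ne').1 (mem_univ _), inv_pow, le_inv_mul_iff₀ (pow_pos t0 D)] at s
  simp only [ee, sub_zero, PiLp.norm_single, norm_one, one_pow, inv_one, min_self,
    mul_one] at k
  have k2 : m * ‖e - Bl D x (c' 0) (c' 1)‖ ≤ C₁ * η * (1 + ‖e‖) + C * M ^ 2 * η :=
    le_of_mul_le_mul_left (by nlinarith) (pow_pos t0 D)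
  have n3 := norm_le_insert' e (Bl D x (c' 0) (c' 1))
  have n4 := norm_sub_le_norm_sub_add_norm_sub e (Bl D x (c' 0) (c' 1)) (Bp c D x)
  have n5 := norm_nonneg (e - Bl D x (c' 0) (c' 1))
  generalize ‖e - Bl D x (c' 0) (c' 1)‖ = δ at *
  have : m * δ ≤ m * (ε / 2) := by
    nlinarith [mul_le_mul_of_nonneg_left (show 1 + ‖e‖ ≤ 1 + C₂ * M ^ 2 + δ by linarith)
      (mul_nonneg C1 η0.1.le), mul_le_mul_of_nonneg_right η1 n5]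
  linarith [le_of_mul_le_mul_left this m0]

end Pool.Agent.Lib.MP_7f377f_mp.Ko
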