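import Pool.Agent.Lib.MP_7f377f_mp.G.KzU
import Pool.Agent.Lib.MP_7f377f_mp.G.KzO0
import Pool.Agent.Lib.MP_7f377f_mp.G.WyB

/-! The coefficients of the lattice expansion tend to the free ones. -/

noncomputable section

set_option linter.unusedSectionVars false
variable [Pool.Agent.Lib.MP_7f377f_mp.GD]

namespace Pool.Agent.Lib.MP_7f377f_mp.Ko

open MeasureTheory Filter Topology Set YM7 L6 RG.Tl Wy Kz Wx Function
open Matrix (vecCons)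
open Wu (Z4)
open Zg (V0 Og fil Bp fp0 u0)
open Zf (ee)

variable {𝒜 : Set CM} [Og 𝒜] {κ t a δ Λ R : ℝ} {d D : ℕ} {y : Fin 2 → Z4}

/-- the configurations of two points -/
def Kc (κ : ℝ) : Set (Fin 2 → R4) := Metric.closedBall 0 (2 * κ) ∩ {x | κ⁻¹ ≤ ‖x 0 - x 1‖}

theorem kc_mem (κ0 : 0 < κ) (t0 : 0 < t) (h : Cf κ t a y) : (fun i => t⁻¹ • pz a (y i)) ∈ Kc κ := by
  refine ⟨mem_closedBall_zero_iff.2 ((pi_norm_le_iff_of_nonneg (by positivity)).2 fun i => ?_),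
    (h.2 0 1 zero_ne_one).elim fun l u => le_trans ?_ (PiLp.norm_apply_le _ l)⟩
  · rw [norm_smul, Real.norm_of_nonneg (inv_pos.2 t0).le, inv_mul_le_iff₀ t0, EuclideanSpace.norm_eq]
    refine Real.sqrt_le_iff.2 ⟨by positivity, (Finset.sum_le_card_nsmul _ _ ((κ * t) ^ 2) fun l _ =>
      pow_le_pow_left₀ (norm_nonneg _) (h.1 i l) 2).trans_eq (by simp; ring)⟩
  · simp only [← smul_sub, PiLp.smul_apply, PiLp.sub_apply, pz, smul_eq_mul, Real.norm_eq_abs,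
      abs_mul, abs_of_pos (inv_pos.2 t0)]
    rwa [le_inv_mul_iff₀ t0, mul_inv_le_iff₀' κ0]

theorem free' (c : Fin 2 → V0 𝒜) (D E : ℕ) (κ0 : 0 < κ) {ε : ℝ} (ε0 : 0 < ε) :
    ∃ η ∈ Ioc (0 : ℝ) 1, ∀ τ ∈ Ioc 0 η, ∀ x ∈ Kc κ, ∀ e, ∀ e' ∈ (fil 𝒜).F D, ‖e' - e‖ ≤ η * ‖e‖ →
      ∀ c' : Fin 2 → V0 𝒜, (∀ i, c' i ∈ (fil 𝒜).F E ∧ ‖c' i - c i‖ ≤ η) →
      (∀ q, q ∈ Vp 𝒜 D ∨ q = u0 𝒜 → |fp0 𝒜 2 ![rs 𝒜 τ⁻¹ q, e'] ![τ⁻¹ • ee 0, 0] -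
        fp0 𝒜 3 (vecCons (rs 𝒜 τ⁻¹ q) c') (vecCons (τ⁻¹ • ee 0) x)| ≤
          η * (1 + ‖e‖) * τ ^ D * ‖q‖) → ‖e - Bp c D x‖ ≤ ε := by
  have hK : IsCompact (Kc κ) := (isCompact_closedBall _ _).inter_right
    (isClosed_le continuous_const (by fun_prop))
  have hi : ∀ x ∈ Kc κ, Injective x := fun x h => by
    have : x 0 ≠ x 1 := fun e => by simpa [e, κ0.not_ge] using h.2
    exact fun i j e => by fin_cases i <;> fin_cases j <;> simp_all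
  obtain ⟨η, η0, h⟩ := free c D E hK hi (half_pos ε0)
  obtain ⟨B, hB⟩ := hK.exists_bound_of_continuousOn ((Zg.Bp_cont (D := D) c).mono hi)
  obtain ⟨θ, ⟨⟨h1, h2⟩, h3⟩, θ0 : 0 < θ⟩ := ((((ev_mul 2 η0).and (ev_mul 2 one_pos)).and
    (ev_mul (2 * (B + ε)) (half_pos ε0))).and self_mem_nhdsWithin).exists
  refine ⟨θ, ⟨θ0, by linarith⟩, fun τ ⟨τ0, τ1⟩ x hx e e' m u c' hc H => ?_⟩
  have n0 := norm_nonneg e
  have n1 : ‖e‖ ≤ 2 * ‖e'‖ := by nlinarith [norm_le_insert e' e]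
  have et {α : Type} (f : Fin 2 → α) : ![f 0, f 1] = f := funext (Fin.forall_fin_two.2 ⟨rfl, rfl⟩)
  have := h τ ⟨τ0, by linarith⟩ x hx e' m c' (fun i => ⟨(hc i).1, by linarith [(hc i).2]⟩)
    fun q hq => by
      rw [et c', et x]
      refine (H q hq).trans ?_
      gcongr ?_ * _ * _
      nlinarith [norm_nonneg e']
  have n2 := norm_le_insert' e' (Bp c D x)
  rw [norm_sub_rev] at u
  nlinarith [norm_sub_le_norm_sub_add_norm_sub e e' (Bp c D x), hB x hx]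

theorem pre {T : V0 𝒜 →ₗ[ℝ] V0 𝒜} (u : T (u0 𝒜) = u0 𝒜)
    (b : ∀ d ≤ D, BijOn T (Vp 𝒜 d) (Vp 𝒜 d)) (nr : Nr (Vp 𝒜 D) (T ∘ₗ rs 𝒜 1) (rs 𝒜 1) .id δ)
    (δ0 : 0 ≤ δ) (hR : ∀ c ∈ (fil 𝒜).F D, ‖(.id - (fil 𝒜).π 0 : _ →ₗ[ℝ] _) c‖ ≤ R * ‖c‖)
    (hd : d ≤ D) {c : V0 𝒜} (hc : c ∈ (fil 𝒜).F d) :
    ∃ e ∈ (fil 𝒜).F d, T e = c ∧ ‖e - c‖ ≤ R * δ * ‖c‖ := by
  obtain ⟨e, e1, e2⟩ := (b d hd).surjOn (vp_sub hc)
  refine ⟨e + MvPolynomial.constantCoeff c.1 • u0 𝒜, add_mem e1.1 (Submodule.smul_mem _ _ (u0_F _)),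
    by rw [map_add, map_smul, e2, u, sub_add_cancel], ?_⟩
  have := hR c ((fil 𝒜).mono hd hc)
  rw [LinearMap.sub_apply, π0_eq] at this
  rw [← sub_sub_eq_add_sub, mul_comm R, mul_assoc]
  exact (nr.le (fun x hx x' hx' k => (b D le_rfl).injOn hx hx' (by simpa [rs_one] using k))
    (vp_mono hd (vp_sub hc)) (vp_mono hd e1) (by
      simp only [LinearMap.comp_apply, rs_one]
      exact e2)).trans (mul_le_mul_of_nonneg_left this δ0)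

theorem ds_of (a0 : 0 < a) (κ1 : 1 ≤ κ) (t0 : 0 < t) {k} {x : Fin k → Z4} (hx : Cf κ t a x) {s : ℤ}
    (h1 : a * s = Λ * t) (h2 : κ + 1 ≤ Λ) (h : 2 * Λ ≤ R) (w : Z4) (i j) (v : i ≠ j) :
    Ds (t / κ / a) (R * t / a) (vecCons (Pi.single 0 s) x i + w)
      (vecCons (Pi.single 0 s) x j + w) := by
  have κ0 : 0 < κ := by linarith
  have z : 0 ≤ Λ * t := by nlinarith
  have b : ∀ i l, |a * vecCons (Pi.single 0 s : Z4) x i l| ≤ Λ * t := Fin.forall_fin_succ.2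
    ⟨fun l => by
      by_cases u : l = 0
      · simpa only [u, Matrix.cons_val_zero, Pi.single_eq_same, h1] using (abs_of_nonneg z).le
      · simpa [u] using z, fun i l => (hx.1 i l).trans (by nlinarith)⟩
  have e (i) : t ≤ κ * |a * s - a * x i 0| := le_trans (by
    nlinarith [le_abs_self (a * s - a * x i 0), le_abs_self (a * x i 0), hx.1 i 0])
      (le_mul_of_one_le_left (abs_nonneg _) κ1)
  have f : ∃ l, t ≤ κ * |a * vecCons (Pi.single 0 s : Z4) x i l -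
      a * vecCons (Pi.single 0 s : Z4) x j l| := by
    cases i using Fin.cases <;> cases j using Fin.cases
    · exact absurd rfl v
    · exact ⟨0, by simpa using e _⟩
    · exact ⟨0, by simpa [abs_sub_comm] using e _⟩
    · exact hx.2 _ _ fun u => v (congrArg _ u)
  simp only [Ds, Pi.add_apply, Int.cast_add, add_sub_add_right_eq_sub]
  refine ⟨f.imp fun m u => ?_, fun m => ?_⟩
  · rwa [← mul_sub, abs_mul, abs_of_pos a0, ← div_le_iff₀' κ0, ← div_le_iff₀' a0] at u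
  · have := (abs_sub _ _).trans (add_le_add (b i m) (b j m))
    rw [← mul_sub, abs_mul, abs_of_pos a0] at this
    rw [le_div_iff₀' a0]
    nlinarith

theorem num (n D : ℕ) (t0 : 0 < t) (R0 : 0 < R) (h : 1 ≤ t * R ^ n) :
    (R ^ (2 * n * D + 1))⁻¹ * t⁻¹ ^ D ≤ R⁻¹ * t ^ D :=
  (show _ = R⁻¹ * t ^ D * ((t * R ^ n) ^ (2 * D))⁻¹ by rw [inv_pow]; field_simp; ring).trans_le
    (mul_le_of_le_one_right (by positivity) (inv_le_one_of_one_le₀ (one_le_pow₀ h)))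

variable {V : Type} [NormedAddCommGroup V] [NormedSpace ℝ V] [MeasurableSpace SU2] [BorelSpace SU2]
  {h : Measure SU2} [h.IsHaarMeasure] [IsProbabilityMeasure h]

theorem er_cl {n k : ℕ} [NeZero n] {b : ℝ} {O : V → Fz → ℝ} (e : ∀ c, Continuous (O c))
    (c : Fin k → V) (y : Fin k → Z4) (w : Z4) :
    er h b n (cl O c fun i => y i + w) = er h b n (cl O c y) := by
  unfold cl
  simp only [add_comm _ w, ← tz_tz]
  exact Complex.ofReal_injective ((er_ex _).symm.trans ((ex_tz w (Complex.continuous_ofReal.comp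
    (continuous_finsetProd _ fun a _ => (e _).comp (cont_tz (y a))))).trans (er_ex _)))

theorem core {n k : ℕ} [NeZero n] {b θ : ℝ} {O : V0 𝒜 → Fz → ℝ} (e : ∀ c, Continuous (O c))
    {T : Z4 → V0 𝒜 → V0 𝒜} {S : Set Z4} (H : ∀ k ≤ 3, ∀ (x : Fin k → Z4) (c : Fin k → V0 𝒜),
      (∀ i, x i ∈ S ∧ c i ∈ (fil 𝒜).F D) → (∀ i j, i ≠ j → Ds (t / κ / a) (R * t / a) (x i) (x j)) →
      |t ^ (4 * k) * er h b n (cl O (fun i => T (x i) (c i)) x) - fq (t / a) c x| ≤ θ * ∏ i, ‖c i‖)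
    (a0 : 0 < a) (κ1 : 1 ≤ κ) (t0 : 0 < t) {s : ℤ} (h1 : a * s = Λ * t) (h2 : κ + 1 ≤ Λ)
    (h3 : 2 * Λ ≤ R) {v : Z4} (hv : Pi.single 0 s + v ∈ S) (hk : k ≤ 2) {x : Fin k → Z4}
    (hx : Cf κ t a x) {c : Fin k → V0 𝒜} (hc : ∀ i, x i + v ∈ S ∧ c i ∈ (fil 𝒜).F D) {q : V0 𝒜}
    (hq : q ∈ (fil 𝒜).F D) :
    |t ^ (4 * (k + 1)) * er h b n (fun W => cl O (fun i => T (x i + v) (c i)) x W *
      O (T (Pi.single 0 s + v) q) (tz (Pi.single 0 s) W)) - fp0 𝒜 (k + 1) (vecCons q c)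
        (vecCons (Λ • ee 0) fun i => t⁻¹ • pz a (x i))| ≤ θ * (‖q‖ * ∏ i, ‖c i‖) := by
  have := H (k + 1) (by omega) (fun i => vecCons (Pi.single 0 s) x i + v) (vecCons q c)
    (Fin.forall_fin_succ.2 ⟨⟨hv, hq⟩, hc⟩) (ds_of a0 κ1 t0 hx h1 h2 h3 v)
  rw [er_cl e, fq_tr, Fin.prod_univ_succ] at this
  refine (congrArg _ (congrArg₂ _ (congrArg _ (congrArg _ (funext fun W => ?_)))
    (congrArg (Zf.fp _) (funext (Fin.cases ?_ fun i => ?_))))).trans_le this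
  · simp [cl, Fin.prod_univ_succ, mul_comm]
  · ext l
    by_cases u : l = 0
    · simp [u, pz, ee, div_mul_eq_mul_div, h1, t0.ne']
    · simp [u, pz, ee]
  · ext l
    simp [pz, div_eq_inv_mul, mul_assoc]

theorem idn {n : ℕ} [NeZero n] {b x y θ θ' : ℝ} {F G Q : Fz → ℝ}
    (h1 : |t ^ 8 * er h b n (fun W => t ^ 4 * G W * Q W) - x| ≤ θ)
    (h2 : |t ^ 12 * er h b n (fun W => F W * Q W) - y| ≤ θ') (hF : Continuous F)
    (hG : Continuous G) (hQ : Continuous Q) :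
    |x - y| ≤ θ + θ' + |t ^ 12 * er h b n fun W => (F W - G W) * Q W| := by
  have i {F : Fz → ℝ} (e : Continuous F) : Integrable (fun U : Cfg n => F (lf U) * Q (lf U))
      (wilson h b n) :=
    ((e.mul hQ).comp cont_lf).integrable_of_hasCompactSupport (HasCompactSupport.of_compactSpace _)
  simp only [er, sub_mul, mul_assoc, integral_sub (i hF) (i hG), integral_const_mul] at *
  generalize ∫ U : Cfg n, F (lf U) * Q (lf U) ∂_ = u at *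
  generalize ∫ U : Cfg n, G (lf U) * Q (lf U) ∂_ = v at *
  rw [abs_le] at *
  constructor <;> linarith [neg_abs_le (t ^ 12 * (u - v)), le_abs_self (t ^ 12 * (u - v))]

theorem mean {Φ : Sw.Fil V} {n : ℕ × ℕ → ℕ} [∀ p, NeZero (n p)] {a b : ℕ × ℕ → ℝ}
    {U : Ultrafilter (ℕ × ℕ)} {O : ℕ × ℕ → V →ₗ[ℝ] Fz → ℝ} {k} {c : ℝ → Fin k → V} {η m}
    (E : Em Φ h n a b U O c D κ η m) (hU : U ≤ fast) (hF : Fm n a b) : ∃ K ≥ (0 : ℝ),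
    ∀ᶠ t in 𝓝[>] 0, ∀ᶠ p in U, ∀ y, Cf κ t (a p) y →
      |er h (b p) (n p) fun W => cl (O p) (c t) y W - O p (m t p y) W| ≤ K * η t := by
  obtain ⟨C, K, C0, K0, e⟩ := E.al ∅ finite_empty 0
  refine ⟨Real.exp (1 + 256 * C) * K, by positivity, e.mono fun t ⟨β, Q, r, L, w, e1, e2⟩ => ?_⟩
  filter_upwards [e2, hU (lb hF e1 C0 le_rfl (ρ := 9 / 3 ^ 0 / 50) (H := 100)
    (by norm_num) (by norm_num) (by norm_num) Unit 0 one_pos)] with p ⟨_, e5⟩ e7 y hy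
  simpa [er_ex, mul_assoc, -Complex.ofReal_sub] using
    e7 0 _ _ ⟨by simp, by simp⟩ (by simp) fun _ => e5 y hy

end Pool.Agent.Lib.MP_7f377f_mp.Ko

namespace Pool.Agent.Lib.MP_7f377f_mp.RG.Q4.En.Gl

open MeasureTheory Filter Topology Set YM7 L6 RG.Tl Wy Kz
open MP_7f377f_mp.Wx (Em)
open Wu (Z4)
open Zg (V0 Og r0 fil)

variable (G : Gl) (𝒜 : Set CM) [Og 𝒜] (β : ℕ × ℕ → ℝ) (U : Ultrafilter (ℕ × ℕ))
  (N : ℕ × ℕ → V0 𝒜 →ₗ[ℝ] V0 𝒜) (A : ℝ → V0 𝒜 ≃ₗ[ℝ] V0 𝒜) (c : Fin 2 → V0 𝒜) (D : ℕ) (κ : ℝ)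
  (m : ℝ → ℕ × ℕ → (Fin 2 → Z4) → V0 𝒜)

/-- the remainder of the expansion is small against the letters at the distance `t / τ` -/
def Pb : Prop := ∃ (n : ℕ) (B : ℝ), ∀ η > (0 : ℝ), ∀ᶠ t in 𝓝[>] (0 : ℝ),
  ∀ᶠ p in (U : Filter (ℕ × ℕ)), ∀ y, MP_7f377f_mp.Wx.Cf κ t (G.aa p) y → ∃ (v : Z4) (s : ℕ) (τ : ℝ),
    (∀ x ∈ ({v, y 0 + v, y 1 + v, v + (G.rt p.2 (G.kt t) : ℤ) • Pi.single 0 (s : ℤ)} : Set Z4),
      x ∈ G.Gs p.2 (G.kt t)) ∧ τ * (G.aa p * (G.rt p.2 (G.kt t) * s)) = t ∧ 0 < τ ∧ τ ≤ η ∧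
    1 ≤ τ * G.L (G.kt t) ^ n ∧ t ≤ B * τ ∧ ∀ q ∈ Vp 𝒜 D,
      |t ^ 12 * Wy.er (Fi.tr haar) (β p) (G.nn p) fun W =>
        (MP_7f377f_mp.Wx.cl (G.Oz 𝒜 β N p) (fun i => A t (c i)) y W - G.Oz 𝒜 β N p (m t p y) W) *
          G.Oz 𝒜 β N p (A t q) (tz ((G.rt p.2 (G.kt t) : ℤ) • Pi.single 0 (s : ℤ)) W)| ≤
        η * (1 + ‖(A t).symm (t ^ 4 • m t p y)‖) * τ ^ D * ‖Kz.rs 𝒜 τ q‖

variable {G 𝒜 β U N A c D κ m}

theorem Nz.u0r (o : G.Oks) (hU : U ≤ fast) (H : G.Nz 𝒜 β U N A) : ∀ᶠ t in 𝓝[>] (0 : ℝ),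
    ∀ᶠ p in (U : Filter (ℕ × ℕ)), ∃ r : ℝ,
      G.Oz 𝒜 β N p (A t (Zg.u0 𝒜)) = (fun _ => r) ∧ |t ^ 4 * r| ≤ 2 := by
  filter_upwards [H.af o hU 1 (fun _ => Zg.u0 𝒜) 1 le_rfl 1 one_pos, self_mem_nhdsWithin]
    with t a (t0 : 0 < t)
  filter_upwards [a, hU (H.un o hU)] with p a b
  refine (b.2 _ ((H.up t).1 0 _ (u0_F 0))).imp fun r e => ⟨e, ?_⟩
  have := a 0 ⟨by simp [t0.le], by simp⟩
  simp only [MP_7f377f_mp.Wx.cl, e, Fin.prod_const, pow_one, ex_const] at this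
  simp only [Zg.fp0, Zf.fp_one, Zg.u0, map_one, mul_one] at this
  norm_cast at this
  linarith [abs_sub_abs_le_abs_sub (t ^ 4 * r) 1, abs_one (α := ℝ), Real.norm_eq_abs (t ^ 4 * r - 1)]

theorem Nz.ope (o : G.Oks) (hU : U ≤ fast) (H : G.Nz 𝒜 β U N A) (κ1 : 1 ≤ κ)
    (P : G.Pb 𝒜 β U N A c D κ m) (E : Em (Zg.fil 𝒜) (Fi.tr haar) G.nn G.aa β U (G.Oz 𝒜 β N)
      (fun t i => A t (c i)) D κ (· ^ (D - 15 / 2 : ℝ)) m) (hF : Wy.Fm G.nn G.aa β) :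
    ∀ ε > 0, ∀ᶠ t in 𝓝[>] (0 : ℝ), ∀ᶠ p in (U : Filter (ℕ × ℕ)), ∀ y, MP_7f377f_mp.Wx.Cf κ t (G.aa p) y →
      ‖(A t).symm (t ^ 4 • m t p y) - Zg.Bp c D fun i => t⁻¹ • pz (G.aa p) (y i)‖ ≤ ε := by
  intro ε ε0
  have κ0 : 0 < κ := by linarith
  obtain ⟨D', hD, hc⟩ : ∃ D' ≥ D, ∀ i, c i ∈ (Zg.fil 𝒜).F D' := by
    choose d hd using fun i => (Zg.fil 𝒜).ex (c i)
    exact ⟨D + Finset.univ.sup d, D.le_add_right _, fun i => (Zg.fil 𝒜).mono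
      ((Finset.le_sup (Finset.mem_univ i)).trans (Nat.le_add_left _ _)) (hd i)⟩
  obtain ⟨η, ⟨η0, η1⟩, hη⟩ := Ko.free' c D D' κ0 ε0
  obtain ⟨n, B, P⟩ := P
  have := (Zg.fil 𝒜).fin D'
  obtain ⟨C, C0, hC⟩ := Kz.ex_bd (W := (Zg.fil 𝒜).F D') (.id - (Zg.fil 𝒜).π 0)
  obtain ⟨K, K0, hK⟩ := Ko.mean E hU hF
  obtain ⟨δ, ⟨δ1, δ2⟩, δ0 : 0 < δ⟩ := (((Ko.ev_mul 1 one_pos).and
    (Ko.ev_mul (C * (‖c‖ + 1)) η0)).and self_mem_nhdsWithin).exists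
  have L := (o 0).1.L_top.comp (kt_top o)
  have u1 : 0 < ‖Zg.u0 𝒜‖ := norm_pos_iff.2 fun e => one_ne_zero (congrArg Subtype.val e)
  have c0 := norm_nonneg c
  filter_upwards [H.ax D' 3 (n + 1) (2 * n * D + 1) κ κ1 δ δ0,
    P (min (η / 4) (κ + 1)⁻¹) (by positivity), hK, H.u0r o hU, self_mem_nhdsWithin,
    L.eventually_ge_atTop 2, (L.inv_tendsto_atTop.mul_const (2 + (‖c‖ + 1) ^ 2)).eventually_le_const
      (by rw [zero_mul]; exact half_pos η0), nhdsWithin_le_nhds (((Real.continuous_sqrt.const_mul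
        (2 * K * |B| ^ D)).tendsto' 0 0 (by simp)).eventually_le_const (mul_pos (half_pos η0) u1))]
    with t a1 a2 a3 a4 (t0 : 0 < t) (l1 : (2 : ℝ) ≤ G.L (G.kt t))
      (l2 : (G.L (G.kt t) : ℝ)⁻¹ * _ ≤ _) (l3 : _ * √t ≤ _)
  filter_upwards [a1, a2, a3, a4] with p ⟨T, T0, T1, T2⟩ b2 b3 ⟨r, r1, r2⟩ y hy
  obtain ⟨v, s, τ, g, τe, τ0, τ1, τ2, τ3, hq⟩ := b2 y hy
  simp only [mem_insert_iff, mem_singleton_iff, forall_eq_or_imp, forall_eq, ← Pi.single_smul',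
    smul_eq_mul] at g hq
  obtain ⟨g0, g1, g2, g3⟩ := g
  have gy : ∀ i, y i + v ∈ G.Gs p.2 (G.kt t) := Fin.forall_fin_two.2 ⟨g1, g2⟩
  have σ1 : κ + 1 ≤ τ⁻¹ := (le_inv_comm₀ (by positivity) τ0).2 (τ1.trans (min_le_right _ _))
  have σ3 : 2 * τ⁻¹ ≤ G.L (G.kt t) ^ (n + 1) := by
    rw [pow_succ']
    exact mul_le_mul l1 ((inv_le_iff_one_le_mul₀' τ0).2 τ2) (by positivity) (by positivity)
  have pr (x) (hx : x ∈ G.Gs p.2 (G.kt t)) {d c} := Ko.pre (d := d) (c := c) (T1 x hx).1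
    (T1 x hx).2.1 ((T1 x hx).2.2 1 ⟨le_rfl, by linarith⟩).1 δ0.le hC
  obtain ⟨e, e1, e2, e3⟩ := pr v g0 hD
    ((H.up t).2 D _ (Submodule.smul_mem _ (t ^ 4) (E.mem t p y)))
  choose c' c1 c2 c3 using fun i => pr _ (gy i) le_rfl (hc i)
  have c4 (i) : ‖c' i - c i‖ ≤ η := (c3 i).trans (by
    nlinarith [norm_le_pi_norm c i, mul_nonneg C0 δ0.le])
  have n0 := norm_nonneg ((A t).symm (t ^ 4 • m t p y))
  replace e3 := e3.trans (mul_le_mul_of_nonneg_right (show C * δ ≤ η by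
    nlinarith [mul_nonneg C0 δ0.le]) n0)
  have τ4 := τ1.trans (min_le_left _ _)
  refine hη τ ⟨τ0, by linarith⟩ _ (Ko.kc_mem κ0 t0 hy) _ e e1 e3 c' (fun i => ⟨c1 i, c4 i⟩)
    fun q hq' => ?_
  have Tz : T (Pi.single 0 ((G.rt p.2 (G.kt t) : ℤ) * s) + v) = T v := by
    rw [add_comm, ← smul_eq_mul, Pi.single_smul', T0]
  have qF : q ∈ (Zg.fil 𝒜).F D := hq'.elim (·.1) (· ▸ u0_F D)
  have τ5 := inv_ne_zero τ0.ne'
  have hO (c) : Continuous (G.Oz 𝒜 β N p c) := ((H.loc o hU c).choose_spec p).1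
  have co {k} (hk : k ≤ 2) {x} (hx) {c} (hc) := Ko.core (k := k) (x := x) (c := c)
    (T := fun x c => A t (T x c)) hO T2 (G.aa_pos p) κ1 t0
      (s := (G.rt p.2 (G.kt t) : ℤ) * s) ((eq_inv_mul_iff_mul_eq₀ τ0.ne').2 (mod_cast τe)) σ1 σ3
        (add_comm v _ ▸ g3) hk hx hc ((Zg.fil 𝒜).mono hD ((rs_F τ5 D).1 qF))
  have k2 := co one_le_two (x := 0) ⟨by simp; positivity, by simp⟩ (c := ![e])
    (by simpa using ⟨g0, (Zg.fil 𝒜).mono hD e1⟩)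
  have k3 := co le_rfl hy fun i => ⟨gy i, c1 i⟩
  simp only [Tz, c2, Fin.prod_univ_two] at k3
  simp only [Tz, MP_7f377f_mp.Wx.cl, Fin.prod_univ_one, Pi.zero_apply, zero_add, tz_zero,
    Matrix.cons_val_zero, e2, LinearEquiv.apply_symm_apply, map_smul, Pi.smul_apply,
    smul_eq_mul] at k2
  rw [show (fun _ : Fin 1 => t⁻¹ • pz (G.aa p) 0) = ![0] by ext; simp [pz]] at k2
  refine (Ko.idn k2 k3 (continuous_finsetProd _ fun a _ => (hO _).comp (cont_tz (y a)))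
    (hO _) ((hO _).comp (cont_tz _))).trans ?_
  have w1 := (mul_le_mul_of_nonneg_left (rs_le (t := τ⁻¹) (by linarith) qF).2 (by positivity)).trans
    ((mul_assoc _ _ _).ge.trans (mul_le_mul_of_nonneg_right (Ko.num n D τ0 (by linarith) τ2)
      (norm_nonneg _)))
  have c5 (i) : ‖c' i‖ ≤ ‖c‖ + 1 := by
    linarith [norm_le_insert' (c' i) (c i), c4 i, norm_le_pi_norm c i]
  have w2 : ‖e‖ + ‖c' 0‖ * ‖c' 1‖ ≤ (2 + (‖c‖ + 1) ^ 2) * (1 + ‖(A t).symm (t ^ 4 • m t p y)‖) := by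
    nlinarith [mul_le_mul (c5 0) (c5 1) (norm_nonneg _) (by positivity),
      norm_le_insert' e ((A t).symm (t ^ 4 • m t p y)), mul_nonneg (sq_nonneg (‖c‖ + 1)) n0]
  refine le_trans (add_le_add (b := η / 2 * ((1 + ‖(A t).symm (t ^ 4 • m t p y)‖) * τ ^ D * ‖q‖))
    ?_ (d := η / 2 * ((1 + ‖(A t).symm (t ^ 4 • m t p y)‖) * τ ^ D * ‖q‖)) ?_) (by ring_nf; rfl)
  · rw [← mul_add, ← mul_add, ← mul_assoc]
    exact (mul_le_mul w1 w2 (by positivity) (by positivity)).trans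
      (le_trans (by ring_nf; rfl) (mul_le_mul_of_nonneg_right l2 (by positivity)))
  rcases hq' with hq' | rfl
  · obtain ⟨e', -, f2, f3⟩ := ((T1 v g0).2.2 τ⁻¹ ⟨by linarith, by linarith⟩).2 q (vp_mono hD hq')
    refine (hq _ (((T1 v g0).2.1 D hD).1 ((rs_Vp τ5 D).1 hq'))).trans ?_
    rw [show T v (Kz.rs 𝒜 τ⁻¹ q) = _ from f2.symm, rs_mul, mul_inv_cancel₀ τ0.ne', rs_one]
    have : ‖e'‖ ≤ 2 * ‖q‖ := by
      nlinarith [norm_le_insert' e' q, norm_nonneg q, show ‖e' - q‖ ≤ _ from f3]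
    refine (mul_le_mul (mul_le_mul_of_nonneg_right (mul_le_mul_of_nonneg_right (min_le_left _ _)
      (by positivity)) (by positivity)) this (norm_nonneg _) (by positivity)).trans_eq (by ring)
  have : Kz.rs 𝒜 τ⁻¹ (Zg.u0 𝒜) = Zg.u0 𝒜 := by
    have := rs_π0 τ⁻¹ (Zg.u0 𝒜)
    rwa [π0_eq, show MvPolynomial.constantCoeff (Zg.u0 𝒜).1 = 1 from map_one _, one_smul] at this
  simp only [this, (T1 v g0).1, r1, Wy.er, integral_mul_const]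
  refine le_trans (le_of_eq ?_) ((mul_le_mul_of_nonneg_left (mul_le_mul r2 (b3 y hy) (abs_nonneg _)
    zero_le_two) (pow_pos t0 8).le).trans ?_)
  · rw [← abs_of_pos (pow_pos t0 8), ← abs_mul, ← abs_mul]
    congr 1
    unfold Wy.er
    ring
  calc _ = 2 * K * t ^ D * √t := by
        rw [Real.sqrt_eq_rpow, mul_assoc _ (t ^ D), ← Real.rpow_natCast t D, ← Real.rpow_add t0,
          show (D + 1 / 2 : ℝ) = (8 : ℕ) + (D - 15 / 2) by push_cast; ring, Real.rpow_add t0,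
          Real.rpow_natCast]
        ring
    _ ≤ 2 * K * (|B| * τ) ^ D * √t := by gcongr; exact τ3.trans (by gcongr; exact le_abs_self B)
    _ = 2 * K * |B| ^ D * √t * τ ^ D := by ring
    _ ≤ η / 2 * ‖Zg.u0 𝒜‖ * τ ^ D * (1 + _) :=
        (mul_le_mul_of_nonneg_right l3 (by positivity)).trans
          (le_mul_of_one_le_right (by positivity) (le_add_of_nonneg_right n0))
    _ = _ := by ring

end Pool.Agent.Lib.MP_7f377f_mp.RG.Q4.En.Gl
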