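import Pool.Agent.Lib.MP_7f377f_mp.G.KzN6
import Pool.Agent.Lib.MP_7f377f_mp.G.KzN3
import Pool.Agent.Lib.MP_7f377f_mp.G.KyB

/-! A merged word minus its label against a far letter. -/

noncomputable section

open Pool.Agent.Lib.MP_7f377f_mp.Jet

set_option linter.unusedSectionVars false
variable [Pool.Agent.Lib.MP_7f377f_mp.GD]

namespace Pool.Agent.Lib.MP_7f377f_mp.RG.Q4.En.Gl

open Finset Function Sg Real Pos Mg Filter MeasureTheory Tl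
open L6 (Fz fast)
open Wy (tz)
open Zg (V0 Og fil)
open Kz (rB cCe)
open Wd (B4 gv)
open scoped Classical

attribute [local irreducible] box lbox tb tau rc

variable {G : Gl} {𝒜 : Set CM} [Og 𝒜] [Adj 𝒜] {ι : Type} [Fintype ι] [DecidableEq ι] [Inhabited ι]
  {b M δ K y₀ y₁ : ℝ} {s C D J j k l R A n g m u : ℕ} {d : ι → ℕ} {c : ι → V0 𝒜} {r y : ι → ℝ}
  {P : B4 → Ptw ι} {e : B4 → V0 𝒜} {e₀ q : V0 𝒜} {v z : St} {x : ι → St}

omit [Adj 𝒜] in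
/-- letters vanish at the flat field -/
theorem lt_flat (hq : q ∈ Vp 𝒜 D) : Kz.lt 𝒜 q 1 = 0 := by
  have w : ∀ (w : List Wd.Dr) x, Wd.wh Inv.inv (1 : Conf) x w = 1 := fun w => by
    induction w with
    | nil => intro; rfl
    | cons d w ih => intro x; simp [Wd.wh, Wd.stp, ih]
  have h0 : hv (cC 1) = 0 := funext fun u => by rw [hv_cC, w, cS_one, co_one]; rfl
  have c0 : ∀ c ∈ Vp 𝒜 D, MvPolynomial.constantCoeff c.1 = 0 := fun c hc => by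
    have := Kz.π0_eq c
    rw [show (fil 𝒜).π 0 c = 0 from hc.2] at this
    simpa [Zg.u0] using congrArg (fun c : V0 𝒜 => MvPolynomial.constantCoeff c.1) this.symm
  have e : ∀ g : B4, pG (Tl.lg 𝒜 g q) 1 = 0 := fun g => by
    have c1 := c0 (Zg.r0 𝒜 (gI g⁻¹) q) (Kz.rB_vp g⁻¹ D hq)
    rw [lg_ap, pG_act, show Wd.pb Inv.inv g (1 : Conf) = 1 from funext fun e => by
      simp [Wd.pb, Wd.stp], pG_ap, h0, ls_ap, vl_lf']
    simpa [vl, cm, Finsupp.sum, Pi.zero_def.symm] using c1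
  change (pG (lE 𝒜 q) 1).re = 0
  rw [lE_ap, ← Complex.coe_smul, map_smul, map_sum]
  simp [e]

/-- the slot of a letter -/
theorem Fw.rep (W : G.Fw 𝒜 s C M R δ K b J j) [NeZero (G.N J)] {ν : ℕ} (D2 : D ≤ s + 2)
    (hR : R ≤ ν) (t : Tl.Bd 𝒜 D → ℝ) : G.Rep b J ν (G.tmL ι n k l z (G.fz s C J (-t)) y₁)
      fun U => Kz.lt 𝒜 (G.lb s C J t) (tz z U) := by
  have : (Fi.tr haar).IsHaarMeasure := (inferInstance : haar.IsHaarMeasure)
  have dep : ∀ {Y : Fz → ℝ}, MP_7f377f_mp.Wx.Lc R Y → Continuous (fun U => Y (tz z U)) ∧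
      DependsOn (fun U => Y (tz z U)) {e | ∀ i, |e.1 i - z i| ≤ ν} := fun a =>
    ⟨a.1.comp (Wy.cont_tz _), fun U V u => a.2 fun e he => u _ fun i => by
      have := abs_le.1 (he i)
      simp only [Pi.add_apply, abs_le]
      omega⟩
  refine ⟨fun U => (G.fz s C J t).re (tz z U), fun U => ?_, ?_, ?_⟩
  · rw [tmL_ob, ← neg_one_smul ℝ t, fz_smul, Complex.ofReal_neg, Complex.ofReal_one, neg_one_smul,
      ← show tz z U = sh z U from funext fun e => by simp only [sh, tz, add_comm]]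
    exact (neg_neg _).trans (Complex.ext rfl ((fz_real t).1 _))
  · rintro _ (rfl | rfl)
    exacts [dep (W.lc _ (Kz.vp_mono D2 (lb_mem t)).1), dep (W.nl _ D2 t).1]
  · simpa [tmL, Wy.tz_tz] using (((W.nl _ D2 t).2).smul (-1)).mono hR

/-- the word at `v + x` minus the letter `e₀` at `v` against the centred letter `q` at `v + z` -/
theorem Fw.pair (W : G.Fw 𝒜 s C M R δ K b J j) (a : G.Aok ι A n g 1 b J k l R) [NeZero (G.N J)]
    (hjl : j < l) (hm : G.N j = m * u) (hu : G.dZ j + 1 < u) (big : 9000 ≤ G.L j)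
    (hg : (20 * g + 21) * G.sJ J k ≤ G.sJ J l) (hd : ∀ l, 1 ≤ d l ∧ d l ≤ s + 2 ∧ 0 < y l)
    (D1 : 1 ≤ D) (D2 : D ≤ s + 2) (hn : s + 11 ≤ n) (hA : s + 8 ≤ A) (hL : 27 ^ n ≤ G.L l)
    (hJ : ∀ d ≤ s + 2, K / G.ka (s + 1) C J ^ d ≤ G.rt J k)
    (w : ∀ γ, (P γ).z = gv γ v ∧ (∀ l, (P γ).x l = gv γ (v + x l)) ∧
      G.Wq s C D b J j k g d (fun l => rB 𝒜 γ (c l)) r y (P γ) (e γ))
    (e1 : ∃ κ : ℝ, ∀ U, Kz.lt 𝒜 (e 1) U = Kz.lt 𝒜 e₀ U + κ)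
    (o0 : ∀ γ, G.Os 𝒜 s C D b J k (gv γ v) (rB 𝒜 γ e₀) y₀) (y1 : 0 < y₁)
    (o1 : ∀ γ, gv γ (v + z) ∈ G.Gs J j ∧ G.Os 𝒜 s C D b J l (gv γ (v + z)) (rB 𝒜 γ q) y₁)
    (hv : v ∈ box (G.sJ J j) ∧ v + z ∈ box (G.sJ J j))
    (hz : ∃ μ, (22 * (G.L l * G.sJ J l) : ℕ) ≤ |z μ|) (κ : ℝ) :
    |Wy.er (Fi.tr haar) b (G.N J) fun U =>
      (∏ l, (Kz.ct (Fi.tr haar) b (G.N J) (Kz.lt 𝒜 (c l)) (tz (x l) U) + r l) - Kz.lt 𝒜 e₀ U - κ) *
        Kz.ct (Fi.tr haar) b (G.N J) (Kz.lt 𝒜 q) (tz z U)| ≤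
      G.Q l ^ 100 * (G.rt (k + 3) k : ℝ) ^ n * (G.cL A n l * y₁) *
        (exp 4 * G.oW A n g s C D k y l + cCe 2 1 (exp (2 * G.Q j) * G.kArf j u 2 (G.Q j)) *
          ((2 ^ (l - j))⁻¹ * G.cW' A n g s C D k l y (3 * G.θW A n g s k y + y₀))) := by
  have : (Fi.tr haar).IsHaarMeasure := (inferInstance : haar.IsHaarMeasure)
  have h := a.ok
  have hl := a.le.trans a.lt.le
  have jk := hjl.le.trans a.le
  obtain ⟨a1, a2⟩ := a.lam hjl.le hm hu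
  have a3 : G.rt J j * u ≤ G.N J := a2 ▸ Nat.le_mul_of_pos_left _
    (Nat.pos_of_mul_pos_right (a2 ▸ (h.N_odd J).pos))
  have s1 := Nat.mul_le_mul_right (G.sJ J j) big
  have s2 := h.sJ_anti hjl.le hl
  have s3 := h.sJ_anti k.le_succ a.lt
  have s4 : 0 < G.sJ J l := Nat.mul_pos (pow_pos (by linarith [h.L_big l]) _) (pow_pos three_pos _)
  have hR : R ≤ 4 * G.sJ J (k + 1) := a.dR.trans (Nat.mul_le_mul_left 4
    (le_of_eq_of_le (by rw [sJ, rt_top, mul_one]) (h.sJ_anti a.lt le_rfl)))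
  rw [add_mul] at hg
  have hR' : R ≤ G.sJ J l := by linarith [Nat.zero_le (20 * g * G.sJ J k)]
  choose t t1 t2 t3 t4 using fun γ =>
    (w γ).2.2.tok W a hjl.le hd hn hJ (by linarith) D1 D2 hA
  have gz := fun γ => gs_mono (w γ).2.2.gs.1 (Nat.zero_le j)
  have y0 : 0 ≤ y₀ := (o0 1).elim fun _ e => (norm_nonneg _).trans e.2
  have θ0 := (norm_nonneg _).trans (t2 1)
  have e2 : Kz.lt 𝒜 (e 1) = Kz.lt 𝒜 e₀ := by
    obtain ⟨κ, hκ⟩ := e1
    obtain ⟨τ, hτ, -⟩ := os_iff.1 (o0 1)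
    have m := lb_mem (G := G) (s := s) (C := C) (J := J) τ
    rw [hτ, map_one, Module.End.one_apply] at m
    have := hκ 1
    rw [lt_flat (D := D) (neg_neg (e 1) ▸ neg_mem (t1 1 ▸ lb_mem _)),
      lt_flat (D := D) m, zero_add] at this
    exact funext fun U => by rw [hκ, ← this, add_zero]
  have : ∀ γ, ∃ t' : Tl.Bd 𝒜 D → ℝ, Kz.lt 𝒜 (G.lb s C J t') = -Kz.lt 𝒜 (rB 𝒜 γ e₀) ∧
      G.sz s C D b J (P γ).z (G.fz s C J t') k ≤ 3 * G.θW A n g s k y + y₀ ∧ (γ = 1 → t' = t 1) :=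
    fun γ => by
      by_cases u : γ = 1
      · subst u
        exact ⟨t 1, by simp [t1, e2], (t2 1).trans (le_add_of_nonneg_right y0), fun _ => rfl⟩
      · obtain ⟨τ, h1, h2⟩ := os_iff.1 (o0 γ)
        exact ⟨-τ, by rw [← neg_one_smul ℝ τ, lb_smul, h1, map_smul, neg_one_smul], by
          rw [W.sz_neg (gz γ) D1 D2 jk a.lt.le, (w γ).1]; linarith, fun v => absurd v u⟩
  choose t' u1 u2 u3 using this
  choose τ τ1 τ2 using fun γ => os_iff.1 (o1 γ).2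
  have c0 : 0 < G.cL A n l := by have := h.QA0 A l; have := h.L1 l; unfold cL; positivity
  have tl : ∀ γ, G.Tok A n g 1 b J k l j R (G.tmL ι n k l (gv γ (v + z)) (G.fz s C J (-τ γ))
      (G.cL A n l * y₁)) := fun γ => a.tok_fl (W.fr _ (o1 γ).1 _ D1 D2) hjl.le (by omega) hL
    ((hJ _ D2).trans (Nat.cast_le.2 (Nat.pow_le_pow_right three_pos
      (Nat.sub_le_sub_left (h.sch.mono.monotone a.le) _)))) (mul_pos c0 y1) (by
      rw [ys_bot hjl.le]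
      exact mul_le_mul_of_nonneg_left ((W.sz_neg (o1 γ).1 D1 D2 hjl.le hl _).trans_le (τ2 γ)) c0.le)
  have fz : ∀ γ, ∃ μ, ((22 * (G.L l * G.sJ J l) : ℕ) : ℤ) ≤ |gv γ v μ - gv γ (v + z) μ| :=
    fun γ => gv_far γ (by simpa using hz)
  have r0 : (0 : ℝ) < (G.rt (k + 3) k : ℝ) ^ n := one_pos.trans_le (Ok.rt0 _ _ _)
  obtain ⟨X0, hX⟩ : ∃ X0 : Fz → ℝ, X0 = fun U => ∏ l, (Kz.ct (Fi.tr haar) b (G.N J)
    (Kz.lt 𝒜 (c l)) (tz (x l) U) + r l) - Kz.lt 𝒜 e₀ U := ⟨_, rfl⟩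
  have cX : Continuous X0 := hX ▸ (continuous_finsetProd _ fun l _ => ((Kz.ct_cont _).comp
    (Wy.cont_tz _)).add continuous_const).sub (Kz.lt_cont _ _)
  have H := a.cen (X := ![fun U => X0 (tz v U), fun U => Kz.lt 𝒜 q (tz (v + z) U)])
    (T := fun e => ![G.tmW A s C J k y (P (gB e)) (t' (gB e)) fun _ =>
      G.cW' A n g s C D k l y (3 * G.θW A n g s k y + y₀),
      G.tmL ι n k l (gv (gB e) (v + z)) (G.fz s C J (-τ (gB e))) (G.cL A n l * y₁)])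
    (W := ![G.oW A n g s C D k y, (G.tmL ι n k l 0 0 (G.cL A n l * y₁)).W])
    (w := ![G.cW' A n g s C D k l y (3 * G.θW A n g s k y + y₀),
      (G.tmL ι n k l 0 0 (G.cL A n l * y₁)).W l]) hjl.le hm hu (by simpa using big) (by linarith)
    le_rfl (fun e => Fin.forall_fin_two.2 ⟨⟨t4 _ _ _ (u2 _), le_rfl, ?_,
      (w _).1 ▸ Wd.gv_box _ hv.1, Fin.forall_fin_two.2 ⟨fun u => (u rfl).elim, fun _ =>
        (w _).1 ▸ fz _⟩⟩, tl _, le_rfl, ?_, Wd.gv_box _ hv.2, Fin.forall_fin_two.2 ⟨fun _ =>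
          (w _).1 ▸ (fz _).imp fun _ a => a.trans_eq (abs_sub_comm _ _), fun u => (u rfl).elim⟩⟩) hjl
    (Fin.forall_fin_two.2 ⟨⟨u3 1 rfl ▸ t3 1, ?_⟩, tl 1, le_rfl⟩)
  · have b0 : Weak.BM X0 := .of_continuous cX
    have b1 : Weak.BM (Kz.lt 𝒜 q) := .of_continuous (Kz.lt_cont _ _)
    have b2 : Weak.BM fun U => Kz.ct (Fi.tr haar) b (G.N J) (Kz.lt 𝒜 q) (tz z U) :=
      .of_continuous ((Kz.ct_cont _).comp (Wy.cont_tz _))
    have m : Wy.er (Fi.tr haar) b (G.N J)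
        (fun U => Kz.ct (Fi.tr haar) b (G.N J) (Kz.lt 𝒜 q) (tz z U)) = 0 := by
      rw [Wy.er_tz (.of_continuous (Kz.ct_cont _))]
      refine (Wy.er_sub b1 (.const _)).trans (sub_eq_zero.2 ?_)
      simp [Wy.er]
    have k1 : ∀ κ : ℝ, Wy.er (Fi.tr haar) b (G.N J) (fun U => (X0 U - κ) *
        Kz.ct (Fi.tr haar) b (G.N J) (Kz.lt 𝒜 q) (tz z U)) = Wy.er (Fi.tr haar) b (G.N J)
          fun U => X0 U * Kz.ct (Fi.tr haar) b (G.N J) (Kz.lt 𝒜 q) (tz z U) := fun κ => by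
      simp only [sub_mul]
      rw [Wy.er_sub (b0.mul b2) ((Weak.BM.const κ).mul b2), Wy.er, Wy.er, integral_const_mul]
      exact sub_eq_self.2 (mul_eq_zero_of_right _ m)
    simp only [Fin.prod_univ_two, Matrix.cons_val_zero, Matrix.cons_val_one, Fintype.card_fin,
      Wy.er_tz b0, Wy.er_tz b1] at H
    have k2 := Wy.er_tz (h := Fi.tr haar) (b := b) (n := G.N J) ((Wy.bm_sub b0 (.const
      (Wy.er (Fi.tr haar) b (G.N J) X0))).mul b2) v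
    simp only [Wy.tz_tz, Kz.ct] at k2
    rw [k2] at H
    refine (congrArg _ (((congrArg _ (by rw [hX])).trans (k1 κ)).trans (k1 _).symm)).trans_le
      (H.trans_eq ?_)
    rw [← eq_div_iff r0.ne' |>.2 (tmL_W (G := G) (κ := ι) (n := n) (k := k) (l := l) (z := 0)
      (Y := 0) (y := G.cL A n l * y₁)) |>.symm]
    norm_num
    field_simp
  · convert (w (gB e)).2.2.rep W a hd D2 (ν := G.sJ J l) (by linarith) (by linarith) (t' (gB e))
      (fun _ => G.cW' A n g s C D k l y (3 * G.θW A n g s k y + y₀)) using 2 with U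
    · rfl
    rw [← pb_gB]
    simp only [Matrix.cons_val_zero, hX, Wy.tz_tz, Kz.tz_pb, (w _).1, (w _).2.1, u1,
      Kz.ct_rB, Kz.lt_rB, Pi.neg_apply, sub_eq_add_neg]
  · convert W.rep (ι := ι) (n := n) (k := k) (l := l) (z := gv (gB e) (v + z))
      (y₁ := G.cL A n l * y₁) D2 hR' (τ (gB e)) using 2 with U
    · rfl
    rw [← pb_gB]
    simp only [Matrix.cons_val_zero, Matrix.cons_val_one, Kz.tz_pb, τ1, Kz.lt_rB]
  · have := h.QA0 A k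
    have := h.Pw1 D C l k
    simp only [Matrix.cons_val_zero, oW, cW']
    gcongr
    nlinarith [div_le_self (zero_le_one.trans this) (Ok.rt0 (G := G) k l (D + 1))]

end Pool.Agent.Lib.MP_7f377f_mp.RG.Q4.En.Gl
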