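import Pool.Agent.Lib.MP_7f377f_mp.G.ZhK
import Pool.Agent.Lib.MP_7f377f_mp.G.ZhA0
import Pool.Agent.Lib.MP_7f377f_mp.G.ZgD
import Pool.Agent.Lib.MP_7f377f_mp.G.ScC

/-! The normalisation of the action density. -/

noncomputable section

namespace Pool.Agent.Lib.MP_7f377f_mp.Zf

open MvPolynomial Real
open YZ (R4 Var)

variable {d : ℕ} {v : R4}

theorem Dc_two (i j : Fin 4) (hv : v ≠ 0) : Dc v (X i * X j) = -(2 * π ^ 2)⁻¹ *
    ((if i = j then ((‖v‖ ^ 2) ^ 2)⁻¹ else 0) - 4 * (v i * v j) * ((‖v‖ ^ 2) ^ 3)⁻¹) := by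
  have e : Dc v (X i * X j) = Dl [i, j] v := by
    simpa [Dl_iter _ hv] using Dc_prod ![i, j] hv
  have h0 : ‖v‖ ^ 2 ≠ 0 := pow_ne_zero _ (norm_ne_zero_iff.2 hv)
  have h := (hasDerivAt_inv (x := (‖v‖ ^ 2) ^ 2) (by positivity)).comp_hasFDerivAt v
    ((hasStrictFDerivAt_norm_sq v).hasFDerivAt.pow 2)
  have h3 := ((((EuclideanSpace.proj j : R4 →L[ℝ] ℝ).hasFDerivAt (x := v)).mul h).const_mul
    (-(2 * π ^ 2)⁻¹)).fderiv
  simp only [Function.comp_def, Pi.mul_def, EuclideanSpace.coe_proj] at h3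
  rw [e]
  show fderiv ℝ (Dl [j]) v _ = _
  rw [Filter.EventuallyEq.fderiv_eq ((ev_ne hv).mono fun u hu => Dl_one j hu), h3]
  by_cases a : i = j <;> simp [ee, EuclideanSpace.inner_single_right, a, eq_comm] <;> field_simp <;> ring

theorem Ek_four (y : Fin 2 → R4) (p q : Var d) :
    Ek y (X (0, p) * X (0, p) * (X (1, q) * X (1, q))) = 2 * kr ℝ y (0, p) (1, q) ^ 2 := by
  have a : ∀ i (p q : Var d), kr ℝ y (i, p) (i, q) = (0 : ℝ) := fun _ _ _ => if_pos rfl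
  rw [mul_assoc, Ek_X_mul]
  simp only [Derivation.leibniz, D_X, a, smul_eq_mul, C_0, mul_zero, add_zero, mul_add, map_add,
    mul_comm _ (C _), mul_left_comm _ (C _), ← smul_eq_C_mul, mul_smul_comm, map_smul, Ek_X_X]
  ring

theorem fp_lg {y : Fin 2 → R4} (h : y 0 ≠ y 1) :
    fp (fun _ => (lg : Lb d ℝ)) y = 3 * d / ‖y 0 - y 1‖ ^ 8 / π ^ 4 := by
  have hv := sub_ne_zero.2 h
  have h0 := norm_ne_zero_iff.2 hv
  have hp := pi_ne_zero
  have k : ∀ μ l ν m (a b : Fin d), kr ℝ y (0, (⟨0, ![μ, l]⟩, a)) (1, (⟨0, ![ν, m]⟩, b)) ^ 2 =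
      if a = b then Dc (y 0 - y 1) (spr ⟨0, ![μ, l]⟩ ⟨0, ![ν, m]⟩) ^ 2 else 0 := by
    intro μ l ν m a b
    simp [kr, h, pr_eq _ _ hv]
  have s : ∀ μ l ν m, Dc (y 0 - y 1) (spr ⟨0, ![μ, l]⟩ ⟨0, ![ν, m]⟩) =
      ((if ν = μ then Dc (y 0 - y 1) (X l * X m) else 0) -
        if m = μ then Dc (y 0 - y 1) (X l * X ν) else 0) -
      ((if ν = l then Dc (y 0 - y 1) (X μ * X m) else 0) -
        if m = l then Dc (y 0 - y 1) (X μ * X ν) else 0) := fun μ l ν m => by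
    simp [sp_zero, syb, mul_sub, apply_ite (Dc _)]
  simp only [fp_eq, Rn, Fin.prod_univ_two, lg, ff, map_smul, map_sum, map_mul, rename_X,
    smul_mul_smul_comm, Finset.sum_mul, Finset.mul_sum, Ek_four, k, s, Dc_two _ _ hv, smul_eq_mul]
  have n := nsq (y 0 - y 1)
  rw [show ‖y 0 - y 1‖ ^ 8 = (‖y 0 - y 1‖ ^ 2) ^ 4 by ring]
  generalize y 0 - y 1 = v at *
  have h1 := pow_ne_zero 2 h0
  generalize ‖v‖ ^ 2 = r at *
  simp only [mul_ite, mul_zero, Finset.sum_ite_eq, Finset.sum_ite_eq', Finset.mem_univ, if_true,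
    Finset.sum_const, Finset.card_univ, Fintype.card_fin, nsmul_eq_mul]
  simp only [Fin.sum_univ_four] at n ⊢
  simp
  field_simp
  rw [n]
  ring

end Pool.Agent.Lib.MP_7f377f_mp.Zf

namespace Pool.Agent.Lib.MP_7f377f_mp.Zg
variable [Pool.Agent.Lib.MP_7f377f_mp.GD]
set_option linter.unusedSectionVars false

open MeasureTheory MvPolynomial Filter Topology Set YM7 Pur Wm Wv Matrix Sw Zf S3 Real
open Ro (Iso prm)

theorem two_lim {ι : Type} {l : Filter ι} {a b : ι → ℝ} {U L A M B : ι → ℂ} {u α m g : ℂ}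
    (u0 : u ≠ 0) (g0 : g ≠ 0) (hU : Tendsto U l (𝓝 u)) (hL : Tendsto L l (𝓝 0))
    (hA : Tendsto A l (𝓝 α)) (hM : Tendsto M l (𝓝 m)) (hB : Tendsto B l (𝓝 g))
    (h1 : Tendsto (fun t => a t * U t + b t * L t) l (𝓝 0))
    (h2 : Tendsto (fun t => a t ^ 2 * A t + a t * b t * M t + b t ^ 2 * B t) l (𝓝 g))
    (h0 : ∀ᶠ t in l, 0 ≤ b t) : Tendsto a l (𝓝 0) ∧ Tendsto b l (𝓝 1) := by
  have e1 := h1.div hU u0
  have e2 := hL.div hU u0
  have ea : ∀ᶠ t in l, ((fun t => a t * U t + b t * L t) / U) t - b t * (L / U) t = a t :=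
    (hU.eventually_ne u0).mono fun t e => by
      simp only [Pi.div_apply]
      field_simp
      ring
  generalize (fun t => a t * U t + b t * L t) / U = ε at e1 ea
  generalize L / U = r at e2 ea
  have hP := (hB.add ((e2.pow 2).mul hA)).sub (e2.mul hM)
  have hR := (e1.mul hM).sub (((e1.mul e2).mul hA).const_mul 2)
  simp only [zero_div, zero_mul, mul_zero, sub_zero, ne_eq, OfNat.ofNat_ne_zero, not_false_eq_true,
    zero_pow, add_zero] at hP hR e1 e2
  have hz := (hR.div hP g0).div_const 2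
  have hw := ((h2.sub ((e1.pow 2).mul hA)).div hP g0).add (hz.pow 2)
  simp only [zero_div, zero_mul, sub_zero, ne_eq, OfNat.ofNat_ne_zero, not_false_eq_true,
    zero_pow, add_zero, div_self g0] at hz hw
  set z := fun t => ((fun t => ε t * M t - 2 * (ε t * r t * A t)) /
    fun t => B t + r t ^ 2 * A t - r t * M t) t / 2
  have hn : Tendsto (fun t => ‖b t + z t‖) l (𝓝 1) := by
    have := (hw.congr' (f₂ := fun t => (b t + z t) ^ 2) ((ea.and (hP.eventually_ne g0)).mono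
      fun t e => by
        have := e.2
        simp only [z, Pi.div_apply, ← e.1]
        field_simp
        ring)).norm.sqrt
    simpa using this
  have hb : Tendsto b l (𝓝 1) := by
    have := hn.congr_dist (f₂ := b) (squeeze_zero' (.of_forall fun _ => dist_nonneg)
      (h0.mono fun t e => ?_) (by simpa using hz.norm))
    · exact this
    · simpa [Real.dist_eq, abs_of_nonneg e] using abs_norm_sub_norm_le (b t + z t) (b t)
  refine ⟨?_, hb⟩
  have := (Complex.continuous_re.tendsto _).comp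
    ((e1.sub (((Complex.continuous_ofReal.tendsto _).comp hb).mul e2)).congr' ea)
  simpa [Function.comp_def] using this

variable {d : ℕ} {𝒜 : Set (Matrix (Fin d) (Fin d) ℝ)} [o : Og 𝒜] {P : Type} [CommRing P]
  [Algebra ℂ P] {x : V0 𝒜 → (R4 → ℝ) → P} {S : P →ₗ[ℂ] ℂ} {A : ℝ → V0 𝒜 ≃ₗ[ℝ] V0 𝒜} {φ : V0 𝒜}

theorem S0_l0 (hd : d = GD.d) {f : Fin 2 → R4 → ℝ} (hf : Adm f) :
    S0 𝒜 2 (fun _ => l0 𝒜) f = ((11 * GD.b0 / (48 * π ^ 2)) ^ 2 * kap f : ℝ) := by
  have b := GD.b0_pos.ne'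
  rw [S0, fr, Pur.kap, ← mul_assoc, ← integral_const_mul]
  refine congrArg _ (congrArg _ (funext fun y => ?_))
  by_cases e : ∀ i, y i ∈ tsupport (f i)
  · have := ((Ad.of hf).inj e).ne (zero_ne_one (α := Fin 2))
    simp only [l0_val, fp_lg this, show free y = _ from YM5.free_two y this, hd,
      RCLike.ofReal_real_eq_id, id]
    field_simp
  · obtain ⟨i, e⟩ := not_forall.1 e
    simp [Finset.prod_eq_zero (f := fun i => f i (y i)) (Finset.mem_univ i)
      (image_eq_zero_of_notMem_tsupport e)]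

/-- the action density is the Lagrangian with a logarithmic normalisation -/
theorem sg_of (hd : d = GD.d) (hm : Ml (Zo.cor x S)) (mem : φ ∈ (fil 𝒜).F 4)
    (rf : ∀ μ, r0 𝒜 (rfL μ) φ = φ) (pm : ∀ σ, r0 𝒜 (prm σ) φ = φ)
    (up : ∀ t, (fil 𝒜).Up 0 (A t).symm)
    (c1 : ∀ t μ c, A t (r0 𝒜 (rfL μ) c) = r0 𝒜 (rfL μ) (A t c))
    (c2 : ∀ t σ c, A t (r0 𝒜 (prm σ) c) = r0 𝒜 (prm σ) (A t c))
    (af : ∀ k (c : Fin k → V0 𝒜) f, Adm f → Tendsto
      (fun t : ℝ => S (∏ i, x (A t (c i)) fun y => f i (t⁻¹ • y))) (𝓝[>] 0) (𝓝 (S0 𝒜 k c f)))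
    (old : ∀ k (f : Fin k → R4 → ℝ), Adm f → Tendsto
      (fun t : ℝ => (log t⁻¹ : ℂ) ^ k * S (∏ i, x φ fun y => f i (t⁻¹ • y))) (𝓝[>] 0) (𝓝 (kap f)))
    (pos : ∀ᶠ t in 𝓝[>] (0 : ℝ), ∀ a b : ℝ, (A t).symm φ = a • u0 𝒜 + b • l0 𝒜 → 0 ≤ b) :
    Tendsto (fun t => (A t).symm ((11 * GD.b0 / (48 * π ^ 2) * log t⁻¹) • φ)) (𝓝[>] 0)
      (𝓝 (l0 𝒜)) := by
  have b0 := GD.b0_pos
  have cl : ∀ t, ∃ a b : ℝ, (A t).symm φ = a • u0 𝒜 + b • l0 𝒜 := fun t =>
    cl_b4 (up t 4 φ mem) (fun μ => (A t).injective (by rw [c1]; simp [rf]))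
      fun σ => (A t).injective (by rw [c2]; simp [pm])
  choose a b hab using cl
  set q := 11 * GD.b0 / (48 * π ^ 2)
  have q0 : 0 < q := by positivity
  have e : ∀ t, (q * log t⁻¹) • φ = (q * log t⁻¹ * a t) • A t (u0 𝒜) +
      (q * log t⁻¹ * b t) • A t (l0 𝒜) := fun t => by
    rw [← (A t).apply_symm_apply φ, hab]
    simp only [map_add, map_smul, smul_add, smul_smul]
  obtain ⟨g, hg, g0⟩ := Ope.kap_ne
  have hf := Ope.adm_pd (Ope.src_adm hg) (hg 0).1 0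
  generalize (Fin.cons _ _ : Fin 2 → R4 → ℝ) = f at hf g0
  let ψ : ContDiffBump (0 : R4) := default
  have hψ : Adm fun _ : Fin 1 => (ψ : R4 → ℝ) :=
    ⟨fun _ => ⟨ψ.hasCompactSupport, ψ.contDiff⟩, Subsingleton.pairwise⟩
  have k := two_lim (a := fun t => q * log t⁻¹ * a t) (b := fun t => q * log t⁻¹ * b t) ?_ ?_
    (af 1 (fun _ => u0 𝒜) _ hψ) (L := fun t => S (∏ _i : Fin 1, x (A t (l0 𝒜)) fun y => ψ (t⁻¹ • y)))
    ?_ (af 2 (fun _ => u0 𝒜) f hf) ((af 2 ![u0 𝒜, l0 𝒜] f hf).add (af 2 ![l0 𝒜, u0 𝒜] f hf))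
    (af 2 (fun _ => l0 𝒜) f hf) ?_ ?_ ?_
  · have := (k.1.smul_const (u0 𝒜)).add (k.2.smul_const (l0 𝒜))
    simpa only [map_smul, hab, smul_add, smul_smul, zero_smul, one_smul, zero_add] using this
  · simp only [S0, fr, fp_one, u0, map_one, mul_one, RCLike.ofReal_real_eq_id, id,
      integral_fintype_prod_volume_eq_pow, Complex.ofReal_ne_zero]
    exact pow_ne_zero _ ψ.integral_pos.ne'
  · rw [S0_l0 hd hf]
    exact Complex.ofReal_ne_zero.2 (mul_ne_zero (pow_ne_zero _ q0.ne') g0)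
  · simpa [S0, fr, fp_one, l0_val, lg, ff] using af 1 (fun _ => l0 𝒜) _ hψ
  · have := (old 1 _ hψ).const_mul (q : ℂ)
    simp only [Pur.kap, show ∀ y : Fin 1 → R4, free y = 0 from fun _ =>
      Finset.sum_eq_zero fun _ _ => if_neg fun h => h 0 (Subsingleton.elim _ _),
      mul_zero, integral_zero, Complex.ofReal_zero] at this
    refine this.congr' (eventually_mem_nhdsWithin.mono fun t (t0 : 0 < t) => ?_)
    obtain ⟨m, hm⟩ := hm 1 _ (hψ.smul (inv_pos.2 t0).ne')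
    simp only [Zo.cor] at hm
    have v : ∀ c, S (∏ _i : Fin 1, x c fun y => ψ (t⁻¹ • y)) = m.curryRight ![] c := fun c =>
      (hm fun _ => c).trans (congrArg m (funext fun i => by fin_cases i; rfl))
    have := congrArg (m.curryRight ![]) (e t)
    simp only [map_add, map_smul, Complex.real_smul] at this
    simp only [v, ← this]
    push_cast
    ring
  · have := (old 2 _ hf).const_mul ((q : ℂ) ^ 2)
    rw [S0_l0 hd hf, Complex.ofReal_mul, Complex.ofReal_pow]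
    refine this.congr' (eventually_mem_nhdsWithin.mono fun t (t0 : 0 < t) => ?_)
    obtain ⟨m, hm⟩ := hm 2 _ (hf.smul (inv_pos.2 t0).ne')
    simp only [Zo.cor] at hm
    have v : ∀ c c', S (x c (fun y => f 0 (t⁻¹ • y)) * x c' fun y => f 1 (t⁻¹ • y)) =
        (m.curryLeft c).curryRight ![] c' := fun c c' => by simpa using hm ![c, c']
    have w : ∀ (r s : ℝ) c c' b, (m.curryLeft (r • c + s • c')).curryRight ![] b =
        r * (m.curryLeft c).curryRight ![] b + s * (m.curryLeft c').curryRight ![] b := by simp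
    have := congrArg (fun c => (m.curryLeft c).curryRight ![] c) (e t)
    simp only [w] at this
    simp only [map_add, map_smul, Complex.real_smul, MultilinearMap.curryRight_apply,
      MultilinearMap.smul_apply] at this
    simp only [Fin.prod_univ_two, cons_val_zero, cons_val_one, v, MultilinearMap.curryRight_apply]
    push_cast at this ⊢
    linear_combination this
  · filter_upwards [pos, Ioo_mem_nhdsGT one_pos] with t h h'
    exact mul_nonneg (mul_nonneg q0.le (log_nonneg ((one_le_inv₀ h'.1).2 h'.2.le))) (h _ _ (hab t))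

end Pool.Agent.Lib.MP_7f377f_mp.Zg
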