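import Pool.Agent.Lib.MP_7f377f_mp.G.KzK1
import Pool.Agent.Lib.MP_7f377f_mp.G.KyS0
import Pool.Agent.Lib.MP_7f377f_mp.G.KzF2

/-! Probes and their pairings with letters. -/

noncomputable section

set_option linter.unusedSectionVars false
variable [Pool.Agent.Lib.MP_7f377f_mp.GD]

namespace Pool.Agent.Lib.MP_7f377f_mp.Kz

open MeasureTheory Filter Set YM7 L6 RG RG.Tl RG.Q4 RG.Q4.En Wy
open Wu (Z4)

variable {V : Type} [AddCommGroup V] [Module ℝ V] [MeasurableSpace SU2]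
  (h : Measure SU2) (b : ℝ) (n : ℕ) [NeZero n]

open Classical in
/-- the centred pairing of the letters `A` at `x` with the observable `B` at `y` -/
def cPa (A : V →ₗ[ℝ] Fz → ℝ) (B : Fz → ℝ) (x y : Z4) : V →ₗ[ℝ] ℝ :=
  if e : IsLinearMap ℝ fun c => cL h b n ![A c, B] ![x, y] then e.mk' _ else 0

variable {h b n} [BorelSpace SU2] [h.IsHaarMeasure] [IsProbabilityMeasure h] {F F' B : Fz → ℝ}
  {x y : Z4}

theorem bm_co (c : Continuous F) : Weak.BM F :=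
  let ⟨M, e⟩ := isCompact_univ.exists_bound_of_continuousOn c.continuousOn
  ⟨c.measurable, M, fun U => e U trivial⟩

theorem cL_two (F B : Fz → ℝ) (x y : Z4) : cL h b n ![F, B] ![x, y] =
    er h b n fun U => ct h b n F (tz x U) * ct h b n B (tz y U) := by
  simp [cL]

theorem cL_swap (F B : Fz → ℝ) (x y : Z4) :
    cL h b n ![F, B] ![x, y] = cL h b n ![B, F] ![y, x] := by
  simp only [cL_two, mul_comm]

theorem cL_add (e : Weak.BM F) (e' : Weak.BM F') (eB : Weak.BM B) : cL h b n ![F + F', B] ![x, y] =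
    cL h b n ![F, B] ![x, y] + cL h b n ![F', B] ![x, y] := by
  simp only [cL_two]
  rw [← er_add ((bm_ct e x).mul (bm_ct eB y)) ((bm_ct e' x).mul (bm_ct eB y))]
  simp only [ct, Pi.add_def, er_add e e']
  exact congrArg _ (funext fun U => by ring)

theorem cL_smul (t : ℝ) : cL h b n ![t • F, B] ![x, y] = t * cL h b n ![F, B] ![x, y] := by
  simp only [cL_two, ct, er, Pi.smul_apply, smul_eq_mul, integral_const_mul, ← mul_sub, mul_assoc]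

theorem cPa_ap {A : V →ₗ[ℝ] Fz → ℝ} (e : ∀ c, Weak.BM (A c)) (eB : Weak.BM B) (c : V) :
    cPa h b n A B x y c = cL h b n ![A c, B] ![x, y] := by
  rw [cPa, dif_pos ⟨fun c c' => by rw [map_add, cL_add (e c) (e c') eB],
    fun t c => by rw [map_smul, cL_smul, smul_eq_mul]⟩]
  rfl

end Pool.Agent.Lib.MP_7f377f_mp.Kz

namespace Pool.Agent.Lib.MP_7f377f_mp.RG.Q4.En.Gl

open MeasureTheory Filter Topology YM7 L6 RG.Tl Wy Kz
open RG.Wd (B4)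
open Wu (Z4)
open Zg (V0 Og)

variable (G : Gl) (𝒜 : Set CM) [Og 𝒜] [Adj 𝒜] (β : ℕ × ℕ → ℝ)

/-- the probes of the level `i` -/
def prS (D C i : ℕ) {N : ℕ} (n : Fin N → ℕ) (P : Fin N → Pl) : Set Pl :=
  {q | ∃ g a, q = ((G.ka D C i : ℂ) ^ n a)⁻¹ • Tl.act g (P a)}

/-- the pairing of the letters of the run `p` with the probes of the level `k + 1` -/
def cpm (R : ℕ) (p : ℕ × ℕ) (k : ℕ) (x : Z4) (q : Pl) (z : Z4) : V0 𝒜 →ₗ[ℝ] ℝ :=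
  cPa (Fi.tr haar) (β p) (G.nn p) (Kz.lt 𝒜) ((G.wm p.1).pO R p.2 (k + 1) q) x
    ((G.rt p.2 k : ℤ) • z)

/-- its model on the short run `J` -/
def sgm (R : ℕ) (p : ℕ × ℕ) (J k : ℕ) (x : Z4) (q : Pl) (z : Z4) : V0 𝒜 →ₗ[ℝ] ℝ :=
  cPa (Fi.tr haar) (β (p.1, J)) (G.nn (p.1, J)) (G.zL 𝒜 (β (p.1, J)) J k)
    ((G.wm p.1).pO R J (k + 1) q) (G.tk x p.2 J) ((G.rt J k : ℤ) • z)

variable {G 𝒜 β} {R J i k D C N : ℕ} {Q q : Pl} {U : Fz} {n : Fin N → ℕ} {P : Fin N → Pl}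
  {p : ℕ × ℕ}

theorem bc_cq (R : ℕ) (ε : ℝ) (Q : Pl) : Sg.BC fun W => cuf R ε W * pG Q W :=
  bc_mul ⟨cuf_meas R ε, 1, fun U => by rcases cuf_cases R ε U with e | ⟨e, -⟩ <;> simp [e]⟩
    (bc_cont (pG_cont Q))

theorem prS_act (g : B4) (e : q ∈ G.prS D C i n P) : Tl.act g q ∈ G.prS D C i n P :=
  let ⟨g', a, e⟩ := e
  ⟨g * g', a, by rw [e, map_smul, act_mul]⟩

namespace Ok

variable (h : G.Ok) (hi : i ≤ J)
include h hi

theorem po_bm : Weak.BM (G.pO R J i Q) := by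
  obtain ⟨a, M, e⟩ := h.ta_bc hi (bc_cq R (G.p i).ε Q)
  exact ⟨Complex.measurable_re.comp a, M, fun U => (Complex.abs_re_le_norm _).trans (e U)⟩

theorem po_act (g : B4) (u : Per (G.N J) U) :
    G.pO R J i (Tl.act g Q) U = G.pO R J i Q (Wd.pb Inv.inv g U) := by
  refine congrArg Complex.re (Eq.trans ?_ (Wd.ta_pb h hi (bc_cq R (G.p i).ε Q) u g))
  simp only [pG_act, cuf_pb]

end Ok

namespace Oks

variable (o : G.Oks) {x z : Z4}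
include o

omit [Adj 𝒜] in
theorem cp_ap (hk : k < p.2) (c : V0 𝒜) : G.cpm 𝒜 β R p k x q z c =
    Kz.cL (Fi.tr haar) (β p) (G.nn p) ![Kz.lt 𝒜 c, (G.wm p.1).pO R p.2 (k + 1) q]
      ![x, (G.rt p.2 k : ℤ) • z] :=
  cPa_ap (fun c => bm_co (lt_cont 𝒜 c)) ((o p.1).1.po_bm hk) c

theorem sg_ap (hk : k < J) (c : V0 𝒜) : G.sgm 𝒜 β R p J k x q z c =
    Kz.cL (Fi.tr haar) (β (p.1, J)) (G.nn (p.1, J)) ![G.zL 𝒜 (β (p.1, J)) J k c,
      (G.wm p.1).pO R J (k + 1) q] ![G.tk x p.2 J, (G.rt J k : ℤ) • z] :=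
  cPa_ap (fun c => bm_co (lZ_cont _ _ c)) ((o p.1).1.po_bm hk) c

omit [Adj 𝒜] in
theorem cp_cov (hk : k < p.2) (g : B4) (c : V0 𝒜) :
    G.cpm 𝒜 β R p k (Wd.gv g x) (Tl.act g q) (Wd.gv g z) (rB 𝒜 g c) = G.cpm 𝒜 β R p k x q z c := by
  rw [o.cp_ap hk, o.cp_ap hk]
  refine Eq.trans (congrArg _ (funext ?_)) (En.cL_cov _ _ ?_ _ g ?_)
  exacts [Fin.forall_fin_two.2 ⟨rfl, (Wd.gv_smul ..).symm⟩,
    Fin.forall_fin_two.2 ⟨bm_co (lt_cont 𝒜 c), (o p.1).1.po_bm hk⟩,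
    Fin.forall_fin_two.2 ⟨fun U _ => lt_rB g c U, fun U u => (o p.1).1.po_act hk g u⟩]

theorem sg_cov (hk : k < J) (hJ : J ≤ p.2) (g : B4) (c : V0 𝒜) :
    G.sgm 𝒜 β R p J k (Wd.gv g x) (Tl.act g q) (Wd.gv g z) (rB 𝒜 g c) =
      G.sgm 𝒜 β R p J k x q z c := by
  rw [o.sg_ap hk, o.sg_ap hk]
  refine Eq.trans (congrArg _ (funext ?_)) (En.cL_cov _ _ ?_ _ g ?_)
  exacts [Fin.forall_fin_two.2 ⟨tk_gv g x hJ, (Wd.gv_smul ..).symm⟩,
    Fin.forall_fin_two.2 ⟨bm_co (lZ_cont _ _ c), (o p.1).1.po_bm hk⟩,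
    Fin.forall_fin_two.2 ⟨fun U _ => lZ_rB _ _ g c U, fun U u => (o p.1).1.po_act hk g u⟩]

end Oks

end Pool.Agent.Lib.MP_7f377f_mp.RG.Q4.En.Gl
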