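import Pool.Agent.Lib.MP_7f377f_mp.G.KzS6

/-! Letters are compensated by probes. -/

noncomputable section

set_option linter.unusedSectionVars false
variable [Pool.Agent.Lib.MP_7f377f_mp.GD]

namespace Pool.Agent.Lib.MP_7f377f_mp.RG.Q4.En.Gl

open Finset Real Cok Filter Tl Ju Kz
open Zg (V0 Og)
open Wd (B4)
open scoped Classical

attribute [local irreducible] box lbox tb tau rc

variable (G : Gl) (𝒜 : Set CM) [Og 𝒜] [Adj 𝒜]

/-- the setting: letters normalised at the level `o`, probes at the level `k + 1` -/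
structure Pzs (s C A n R R' C0 j o k J : ℕ) [NeZero (G.N J)] (b M δ δ' K K' M0 Λ : ℝ) {N : ℕ}
    (ν : Fin N → ℕ) (P : Fin N → Pl) : Prop where
  pr : Prb s s ν P R δ K M0 C0
  hC : C0 ≤ C
  hM : M0 ≤ M
  W : G.Fw 𝒜 s C M R' δ' K' b J o
  u : G.Sru A R' b J (k + 1) o
  s1 : 1 ≤ s
  jo : j < o
  ok : o ≤ k
  kJ : k + 1 < J
  big : 9000 ≤ G.L j
  hn : s + 12 ≤ n
  nA : n + 1 ≤ A
  ex : G.Ex s (k + 1)
  tj : G.Tj (s + 1) R (min δ 1) (k + 1)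
  k5 : ∀ x ∈ G.Gs J o, ∀ e ∈ Vp 𝒜 s, ∃ Y, G.Kv 𝒜 s C s R' δ' b J o (n - 6) x (Λ * ‖e‖) e Y
  Λ1 : 100 ≤ Λ
  MΛ : M ≤ Λ
  KΛ : K ≤ Λ
  pw : G.Pw s C o J ≤ Λ
  yr : G.Yr s C (k + 1) ≤ Λ
  qa : G.QA (A + 1) o ^ 346 * G.Q o ^ 50 ≤ Λ
  rt : Λ ≤ G.rt (k + 1) o

/-- minus a combination of probes -/
def pQ (D C i : ℕ) {N : ℕ} (ν : Fin N → ℕ) (P : Fin N → Pl) (t : Fin N → ℝ) : Pl :=
  ∑ a, (-t a : ℂ) • ((G.ka D C i : ℂ) ^ ν a)⁻¹ • P a

variable {G 𝒜} {s C A n R R' C0 j o k J N : ℕ} {b M δ δ' K K' M0 Λ y : ℝ} {ν : Fin N → ℕ}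
  {P : Fin N → Pl} {x z : St} {e f : V0 𝒜}

/-- compensation of a letter by probes -/
theorem Pzs.mix [NeZero (G.N J)] (Z : G.Pzs 𝒜 s C A n R R' C0 j o k J b M δ δ' K K' M0 Λ ν P)
    (hz : z ∈ G.Gs J o) (y0 : 0 < y) {Y : B4 → Lq} {f : B4 → V0 𝒜}
    (a : ∀ g, G.Kv 𝒜 s C s R' δ' b J o (n - 6) (Wd.gv g z) (Λ * y) (f g) (Y g)) :
    ∃ t : Fin N → ℝ, ∑ a, |t a| ≤ 3 * Λ ^ 3 * (G.rt (k + 1) o : ℝ) ^ s * y ∧
      G.Sok A R' (s + 1) R b J (k + 1) o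
        (G.rH n o (G.QA (A + 1) o ^ 346 * (10 * Λ ^ 3 * y / G.rt (k + 1) o)))
        ⟨Wd.gv 1 z, Y 1, Tl.lq (Tl.act 1 (G.pQ (s + 1) C (k + 1) ν P t))⟩ ∧
      ∀ g, G.Sok A R' (s + 1) R b J (k + 1) o
        (G.rH n o (G.QA (A + 1) o ^ 346 * (Λ ^ 9 * (G.rt (k + 1) o : ℝ) ^ s * y)))
        ⟨Wd.gv g z, Y g, Tl.lq (Tl.act g (G.pQ (s + 1) C (k + 1) ν P t))⟩ := by
  have h := Z.W.ok
  have F := fun g => Z.W.fr _ (gs_gv hz g) s Z.s1 (by omega)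
  have oi := Z.ok.trans k.le_succ
  have iJ := Z.kJ.le
  have L1 := Z.Λ1
  have n1 := Z.hn
  have tj := Z.tj.mono (min_le_left _ _)
  have r1 : ∀ i k, (1 : ℝ) ≤ G.rt i k := one_rt
  have r2 : ∀ {m m'}, o ≤ m → m ≤ m' → (G.rt m' o : ℝ) = G.rt m' m * G.rt m o := fun a c => by
    rw [h.rt_rt a c, Nat.cast_mul]
  have r3 : ∀ {m m'}, o ≤ m → m ≤ m' → (G.rt m o : ℝ) ≤ G.rt m' o := fun a c =>
    (le_mul_of_one_le_left (by positivity) (r1 ..)).trans_eq (r2 a c).symm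
  have pw : ∀ m, o ≤ m → m ≤ k + 1 → G.Pw s C m (k + 1) ≤ Λ := fun m a c => by
    have := h.Pw1 s C
    refine le_trans ?_ Z.pw
    rw [← Ok.Pw_mul a (c.trans iJ), ← Ok.Pw_mul c iJ]
    nlinarith [mul_nonneg (sub_nonneg.2 (this o m)) (mul_nonneg (zero_le_one.trans (this m (k + 1)))
      (zero_le_one.trans (this (k + 1) J))), mul_nonneg (zero_le_one.trans (this m (k + 1)))
        (sub_nonneg.2 (this (k + 1) J))]
  have ri := r1 (k + 1) o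
  obtain ⟨a1, a2⟩ := (a 1).gy (k + 1) oi iJ
  obtain ⟨t, t1, t2, t3⟩ := Z.pr.cmp G _ C M _ b J o _ _ _ _ (k + 1) _ _ Z.hC Z.hM (F 1).T iJ Z.ex tj
    ((F 1).T.kb oi iJ tj) ((F 1).T.cx iJ) o _ _ le_rfl oi (by positivity) a1 a2
  replace t2 := t2 ((F 1).T.kr iJ) (Z.u.t.gd _ iJ).dt.re.2.1
    ((F 1).T.ls_real (F 1).J1 Z.s1 (a 1).lt (a 1).re oi iJ)
  have e : ∀ a, ((t a).re : ℂ) = t a := fun a => Complex.ext rfl (t2 a).symm
  have t4 : ∑ a, ‖(-t) a‖ ≤ 3 * Λ ^ 3 * (G.rt (k + 1) o : ℝ) ^ s * y := by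
    have := h.Xr1 C (k + 1)
    have : G.Xr C (k + 1) ≤ Λ := (le_self_pow₀ this (by omega)).trans Z.yr
    simp only [Pi.neg_apply, norm_neg]
    calc _ ≤ 3 * Λ * Λ * (Λ * y * (G.rt (k + 1) o : ℝ) ^ s) := t1.trans (by gcongr; exact Z.MΛ)
      _ = _ := by ring
  have eq : ∀ g, Tl.lq (Tl.act g (G.pQ (s + 1) C (k + 1) ν P fun a => (t a).re)) =
      G.fl (s + 1) C (k + 1) ν (fun a => Tl.lq (Tl.act g (P a))) (-t) := fun g => by
    simp only [pQ, fl, Fintype.linearCombination_apply, map_sum, map_smul, e, Pi.neg_apply]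
  have qf := fun g => (F g).T.qt_fl oi iJ tj ((F g).T.kb oi iJ tj) Z.pr.K0 (fun a =>
    ⟨(Z.pr.gl a).2.2.1, (Z.pr.gl a).2.2.2.1, _, Z.pr.top a g⟩) (-t)
    (x := 3 * Λ ^ 5 * (G.rt (k + 1) o : ℝ) ^ s * y) (by
      have := Z.pr.K0
      calc _ ≤ 3 * Λ ^ 3 * (G.rt (k + 1) o : ℝ) ^ s * y * (Λ * Λ) := by
            have := h.Yr1 s C (k + 1)
            gcongr
            exacts [Z.yr, Z.KΛ]
        _ = _ := by ring) (eq g)
  have mx := fun g {y' : ℝ} (c : 10 * Λ ^ 3 * y / G.rt (k + 1) o ≤ y') =>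
    have v : ∀ m, k + 1 ≤ m → ∀ {x e}, x ≤ 10 * Λ ^ 3 * y → e ≤ n - 6 →
        x * (G.rt m o : ℝ) ^ e ≤ y' * (G.rt m o : ℝ) ^ (n - 5) := fun m hm x e c1 c2 =>
      have := r1 m o
      calc _ ≤ 10 * Λ ^ 3 * y * (G.rt m o : ℝ) ^ (n - 6) := by gcongr
        _ = 10 * Λ ^ 3 * y / G.rt (k + 1) o * ((G.rt m o : ℝ) ^ (n - 6) * G.rt (k + 1) o) := by
          field_simp
        _ ≤ _ := by
          have := le_trans (by positivity) c
          rw [show n - 5 = n - 6 + 1 by omega, pow_succ _ (n - 6)]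
          gcongr
          exact_mod_cast r3 oi hm
    have l3 : 2 * (Λ * y) ≤ 10 * Λ ^ 3 * y := by
      nlinarith [mul_le_mul_of_nonneg_right (le_self_pow₀ (by linarith : 1 ≤ Λ) three_ne_zero) y0.le,
        mul_pos (by linarith : 0 < Λ) y0]
    Z.u.mix (F g).T Z.kJ (F g).J1 Z.s1 (a g).lt (F g).δ1 Z.nA (by omega) (y := y')
      (lt_of_lt_of_le (by positivity) c)
      (v J iJ (by linarith [mul_pos (by linarith : 0 < Λ) y0]) (by omega))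
      (fun m h1 h2 => ⟨_, _, ((a g).gy m (oi.trans h1) h2.le).1, ((a g).gy m (oi.trans h1) h2.le).2,
        by rw [← two_mul, ← mul_assoc]; exact v m h1 l3 (by omega)⟩) (qf g).2.2.2
      (le_trans (by
        calc _ = 3 * Λ ^ 3 * y * (Λ ^ 2 * (G.rt (k + 1) o : ℝ) ^ s) := by ring
          _ ≤ 10 * Λ ^ 3 * y * ((G.rt (k + 1) o : ℝ) ^ 2 * (G.rt (k + 1) o : ℝ) ^ s) := by
            gcongr
            exacts [by norm_num, Z.rt]
          _ = _ := by rw [← pow_add]) (v _ le_rfl le_rfl (e := 2 + s) (by omega)))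
      (qf g).2.2.1 (qf g).1
  have re : ∀ g U, ((Y g).1 U).im = 0 ∧ ((Tl.lq (Tl.act g (G.pQ (s + 1) C (k + 1) ν P
      fun a => (t a).re))).1 U).im = 0 := fun g U => ⟨(a g).re.1 U, by
    rw [eq]
    exact (fl_real (fun a => .lq ((Z.pr.gl a).2.1.act g)) fun a => by simp [t2]).1 U⟩
  refine ⟨fun a => (t a).re, le_trans (sum_le_sum fun a _ => ?_) t4,
    mx 1 le_rfl (fun m h1 h2 => ?_) (re 1), fun g => mx g ?_ (fun m h1 h2 => ?_) (re g)⟩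
  · simpa using Complex.abs_re_le_norm _
  · have q := ((F 1).T.co.lin _ _ _ _ _ (-1) ((F 1).T.co.zero _) (qf 1).1).1
    obtain ⟨c1, c2⟩ := (t3 (0 + (-1 : ℂ) • G.qt (s + 1) R (k + 1) (G.tk (Wd.gv 1 z) J (k + 1))
      (G.zz b J (k + 1)).K (Tl.lq (Tl.act 1 (G.pQ (s + 1) C (k + 1) ν P fun a => (t a).re)))) (by
        rw [eq]; simp only [act_one, map_neg, neg_one_smul, neg_neg, zero_add])).2 m h1 h2
    have := (F 1).T.co.fw_lin iJ a1 q (-1) m h1 h2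
    rw [zero_add, neg_one_smul, neg_one_smul, neg_one_smul, neg_neg,
      ← sub_eq_add_neg (Cok.fw ..)] at this
    rw [zero_add, neg_one_smul, ← this] at c1 c2
    refine ⟨_, _, c1, c2, ?_⟩
    have := r1 (k + 1) m
    have := r1 m o
    have := (F 1).T.M1
    have := h.Pw1 s C m (k + 1)
    calc _ ≤ 10 * Λ * (Λ / (G.rt (k + 1) m : ℝ) ^ (s + 1) * (Λ * y * (G.rt (k + 1) o : ℝ) ^ s)) := by
          rw [← add_mul]
          gcongr
          exacts [by linarith [Z.MΛ], pw m h1 h2]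
      _ = 10 * Λ ^ 3 * y / G.rt (k + 1) o * (G.rt m o : ℝ) ^ (s + 1) := by
          rw [r2 h1 h2]
          field_simp
          ring
      _ ≤ _ := by gcongr; omega
  · calc _ ≤ 10 * Λ ^ 3 * y := div_le_self (by positivity) ri
      _ ≤ Λ ^ 6 * Λ ^ 3 * 1 * y := by
        rw [mul_one]
        gcongr
        exact le_trans (by linarith) (le_self_pow₀ (by linarith) (by norm_num))
      _ ≤ _ := by rw [← pow_add]; gcongr; exact one_le_pow₀ ri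
  · obtain ⟨c1, c2⟩ := (a g).gy (k + 1) oi iJ
    obtain ⟨c3, c4⟩ := (F g).T.co.lin _ _ _ _ _ 1 c1 (qf g).1
    simp only [one_smul, norm_one, one_mul] at c3 c4
    have c5 : Λ * y * (G.rt (k + 1) o : ℝ) ^ s + 3 * Λ ^ 5 * (G.rt (k + 1) o : ℝ) ^ s * y ≤
        4 * Λ ^ 5 * (G.rt (k + 1) o : ℝ) ^ s * y := by
      nlinarith [mul_le_mul_of_nonneg_right (le_self_pow₀ (by linarith : 1 ≤ Λ) (by norm_num : 5 ≠ 0))
        (by positivity : 0 ≤ (G.rt (k + 1) o : ℝ) ^ s * y)]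
    obtain ⟨c6, c7⟩ := (F g).any h1 h2 iJ (by positivity) ((F g).T.co.mono _ _ _ _ c3 c5)
      (c4 ▸ (norm_add_le_of_le c2 (qf g).2.1).trans c5)
    refine ⟨_, _, c6, c7, ?_⟩
    have := (F g).T.M1
    have := h.Pw1 s C m (k + 1)
    calc _ ≤ Λ ^ 2 * (Λ * (4 * Λ ^ 5 * (G.rt (k + 1) o : ℝ) ^ s * y)) := by
          rw [← add_mul]
          gcongr
          exacts [by nlinarith [Z.MΛ], pw m h1 h2]
      _ = 4 * Λ ^ 8 * (G.rt (k + 1) o : ℝ) ^ s * y * 1 := by ring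
      _ ≤ _ := by
          rw [pow_succ' Λ 8]
          gcongr
          exacts [by linarith, Ok.rt0 ..]

theorem kSl_nn (j c : ℕ) : 0 ≤ G.kSl j c :=
  mul_nonneg (by positivity) (zero_le_one.trans (kq_le _ (exp_pos _).le _).1)

/-- the crude bound for two slots in terms of the weights -/
theorem Fms.cr [NeZero (G.N J)] {d D i : ℕ} {w w' : Fin 2 → ℝ} {S : B4 → Fin 2 → Slq}
    {T : Fin 2 → L6.Fz → ℝ} {x : Fin 2 → St}
    (F : G.Fms A d D R b J i o j (fun m a => G.rH n o (w a) m) S T x)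
    (a : ∀ q, G.Sok A d D R b J i o (G.rH n o (w' q)) (S 1 q)) (e : ∀ q, 0 < w' q ∧ w' q ≤ w q) :
    |Kz.cL (Fi.tr haar) b (G.N J) T x| ≤ 81 * ∏ q, G.Q o ^ 50 * w' q +
      G.kD j 2 / 2 ^ (o - j) * ∏ q, G.Q o ^ 50 * w q := by
  have v : ∀ y, G.rH n o y o = y⁻¹ := fun y => by simp [rH, rt_top]
  have := F.crude (r' := fun m a => G.rH n o (w' a) m) F.run a fun q => by
    rw [v, v]; exact inv_anti₀ (e q).1 (e q).2
  simp only [v, inv_div, div_inv_eq_mul, Fintype.card_fin, Nat.cast_ofNat] at this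
  have q0 := F.run.ok.Q0 o
  have k0 := kSl_nn (G := G) j 2
  refine this.trans (add_le_add (mul_le_mul_of_nonneg_right ?_ (prod_nonneg fun q _ => by
    have := (e q).1; positivity)) ?_)
  · rw [show (2 : ℝ) ^ 2 = (4 : ℕ) * 1 by norm_num, exp_nat_mul]
    exact (pow_le_pow_left₀ (exp_pos 1).le (exp_one_lt_d9.le.trans (show _ ≤ 3 by norm_num))
      4).trans (by norm_num)
  · rw [← mul_assoc, ← div_eq_mul_inv, kD, Nat.cast_ofNat]
    have := fun q => (e q).1.trans_le (e q).2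
    have : 0 ≤ cCe 2 1 (exp (2 * G.Q j) * G.kSl j 2) := by unfold cCe; positivity
    have : 0 ≤ cCe 2 1 (exp (2 * G.Q j)) := by unfold cCe; positivity
    gcongr
    · exact prod_nonneg fun q _ => by have := (e q).1.trans_le (e q).2; positivity
    · linarith

/-- the lifted probes depend linearly on the letter -/
def Ok.pL (h : G.Ok) {i : ℕ} (hi : i ≤ J) (R : ℕ) : Pl →ₗ[ℝ] L6.Fz → ℝ :=
  have e : ∀ Q Q' (t : ℝ), G.pO R J i (Q + t • Q') = G.pO R J i Q + t • G.pO R J i Q' :=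
    fun Q Q' t => funext fun U => by
      have := congrFun (h.ta_lin hi (bc_cuf R (G.p i).ε Q) (bc_cuf R (G.p i).ε Q') t) U
      simp only [mul_left_comm (t : ℂ), ← mul_add] at this
      simp only [pO, ← Complex.coe_smul, map_add, map_smul, Pi.add_apply, Pi.smul_apply,
        smul_eq_mul, Complex.ofReal_re]
      exact (congrArg Complex.re this).trans (by simp)
  { toFun := G.pO R J i
    map_add' Q Q' := by simpa using e Q Q' 1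
    map_smul' t Q := by
      have := e 0 0 1
      simp only [smul_zero, add_zero, one_smul, left_eq_add] at this
      simpa [this] using e 0 Q t }

theorem Kv.rep [NeZero (G.N J)] {d : ℕ} {g : B4} {Y : Lq}
    (a : G.Kv 𝒜 s C d R δ b J o n (Wd.gv g x) y (rB 𝒜 g e) Y) (h : G.Ok) (r : R ≤ G.rt J o) :
    ∃ N, Nuq b (G.N J) (10 * (G.L o * G.sJ J o)) N ∧ ∀ U,
      ((G.zL 𝒜 b J o e (Wy.tz x (Wd.pb Inv.inv g U)) - G.zL 𝒜 b J o e 1 : ℝ) : ℂ) =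
        Y.1 (sh (Wd.gv g x) U) + N (sh (Wd.gv g x) U) := by
  obtain ⟨N, n1, n2⟩ := a.nl
  refine ⟨N, n1.mono (r.trans ?_), fun U => ?_⟩
  · have := Nat.mul_le_mul (h.L_big o) (Nat.mul_le_mul_right (G.rt J o)
      (pow_pos (show 0 < G.L o by linarith [h.L_big o]) G.K0))
    rw [sJ]
    omega
  · have := n2 (sh (Wd.gv g x) U)
    rw [zL, lZ_rB, lZ_rB, show Wd.pb Inv.inv g (1 : L6.Fz) = 1 from funext fun l => by
      simp [Wd.pb, Wd.stp]] at this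
    rw [tz_pb, tz_sh, zL, this, Complex.ofReal_add, Lq.re,
      Complex.conj_eq_iff_re.1 (Complex.conj_eq_iff_im.2 (a.re.1 _))]
    rfl

theorem Pzs.let [NeZero (G.N J)] (Z : G.Pzs 𝒜 s C A n R R' C0 j o k J b M δ δ' K K' M0 Λ ν P)
    (hx : x ∈ G.Gs J o) (y0 : 0 < y) {Y : Lq} (a : G.Kv 𝒜 s C s R' δ' b J o (n - 6) x y e Y) :
    G.Sok A R' (s + 1) R b J (k + 1) o (G.rH n o (G.QA (A + 1) o ^ 346 * y)) ⟨x, Y, 0⟩ := by
  have h := Z.u.ok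
  have := h.QA0 (A + 1) o
  have r := (Z.W.fr x hx s Z.s1 (by omega)).rH (n := n) Z.u.big a.lt a.gy y0 (by linarith [Z.hn])
    (mul_le_mul_of_nonneg_left (pow_le_pow_right₀ (one_rt J o) (by omega)) y0.le)
  rw [tk_top] at r
  exact Z.u.letter r (fun m _ _ => rH_pos h (by positivity) m)
    (fun m h1 _ => rH_gr h Z.nA (by positivity) h1) a.re.1

/-- the pairing of two letters is bounded by the pairings with the probes -/
theorem Pzs.main [NeZero (G.N J)] (Z : G.Pzs 𝒜 s C A n R R' C0 j o k J b M δ δ' K K' M0 Λ ν P)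
    (hx : x ∈ G.Gs J o) (hz : (G.rt J k : ℤ) • z ∈ G.Gs J o)
    (geo : Pta (G.N J) (4 * (G.L j * G.sJ J j)) (21 * (G.L o * G.sJ J o)) 0
      fun g a => Wd.gv g (![x, (G.rt J k : ℤ) • z] a)) (he : e ∈ Vp 𝒜 s) (hf : f ∈ Vp 𝒜 s)
    (hy : ∀ Q ∈ G.prS (s + 1) C (k + 1) ν P, |Kz.cL (Fi.tr haar) b (G.N J)
      ![G.zL 𝒜 b J o e, G.pO R J (k + 1) Q] ![x, (G.rt J k : ℤ) • z]| ≤ y) (y0 : 0 ≤ y) :
    |Kz.cL (Fi.tr haar) b (G.N J) ![G.zL 𝒜 b J o e, G.zL 𝒜 b J o f] ![x, (G.rt J k : ℤ) • z]| ≤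
      (Λ ^ 8 / G.rt (k + 1) o + G.kD j 2 * Λ ^ 12 * (G.rt (k + 1) o : ℝ) ^ s / 2 ^ (o - j)) *
        ‖e‖ * ‖f‖ + 3 * Λ ^ 3 * (G.rt (k + 1) o : ℝ) ^ s * ‖f‖ * y := by
  have h := Z.u.ok
  have iJ := Z.kJ.le
  have Λ1 := Z.Λ1
  have k0 : 0 ≤ G.kD j 2 := by have := kSl_nn (G := G) j 2; unfold kD cCe; positivity
  have r1 := one_rt (G := G) (k + 1) o
  have bm : ∀ e, Weak.BM (G.zL 𝒜 b J o e) := fun e => bm_co (lZ_cont _ _ e)
  rcases eq_or_ne e 0 with rfl | e0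
  · rw [← cPa_ap bm (bm f), map_zero, abs_zero]
    positivity
  rcases eq_or_ne f 0 with rfl | f0
  · rw [cL_swap, ← cPa_ap bm (bm e), map_zero, abs_zero]
    positivity
  have e1 := norm_pos_iff.2 e0
  have f1 := norm_pos_iff.2 f0
  choose X hX using fun g => Z.k5 _ (gs_gv hx g) _ (rB_vp g s he)
  choose Y hY using fun g => Z.k5 _ (gs_gv hz g) _ (rB_vp g s hf)
  simp only [rB_norm] at hX hY
  obtain ⟨t, t1, t2, t3⟩ := Z.mix hz f1 hY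
  obtain ⟨Q, hQ⟩ : ∃ Q, Q = G.pQ (s + 1) C (k + 1) ν P t := ⟨_, rfl⟩
  have rQ : Rl Q := by
    rw [hQ, pQ, Tl.Rl, map_sum]
    refine sum_congr rfl fun a _ => ?_
    rw [cj_smul, cj_smul, (Z.pr.gl a).2.1]
    simp
  rw [← hQ] at t2 t3
  have q0 := h.QA0 (A + 1) o
  have q1 := h.Q0 o
  have F : G.Fms A R' (s + 1) R b J (k + 1) o j (fun m a => G.rH n o
      (![G.QA (A + 1) o ^ 346 * (Λ * ‖e‖),
        G.QA (A + 1) o ^ 346 * (Λ ^ 9 * (G.rt (k + 1) o : ℝ) ^ s * ‖f‖)] a) m)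
      (fun g => ![⟨Wd.gv g x, X g, 0⟩, ⟨Wd.gv g ((G.rt J k : ℤ) • z), Y g, Tl.lq (Tl.act g Q)⟩])
      (fun a U => ![G.zL 𝒜 b J o e, G.pO R J (k + 1) Q + G.zL 𝒜 b J o f] a U -
        ![G.zL 𝒜 b J o e 1, G.zL 𝒜 b J o f 1] a) ![x, (G.rt J k : ℤ) • z] := by
    refine ⟨Z.u, Z.jo, by simpa using Z.big, fun g => Fin.forall_fin_two.2
      ⟨Z.let (gs_gv hx g) (by positivity) (hX g), t3 g⟩, ?_, fun g => Fin.forall_fin_two.2 ⟨?_, ?_⟩⟩
    · convert geo using 3 with g a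
      fin_cases a <;> rfl
    · obtain ⟨N, n1, n2⟩ := (hX g).rep h Z.W.rad
      refine ⟨N, n1, fun U _ => (n2 U).trans ?_⟩
      simp [sqO, h.ta_zero iJ]
    · obtain ⟨N, n1, n2⟩ := (hY g).rep h Z.W.rad
      refine ⟨N, n1, fun U u => ?_⟩
      have := h.pO_eq (R := R) iJ rQ g u rfl (u := z)
      simp only [sqO, Prod.fst_zero, Pi.zero_apply, zero_add] at this
      simp only [Matrix.cons_val_one, Matrix.cons_val_fin_one, Pi.add_apply, add_sub_assoc,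
        Complex.ofReal_add, n2, this, sqO]
      ring
  have c := F.cr (w' := ![G.QA (A + 1) o ^ 346 * (Λ * ‖e‖),
    G.QA (A + 1) o ^ 346 * (10 * Λ ^ 3 * ‖f‖ / G.rt (k + 1) o)])
    (Fin.forall_fin_two.2 ⟨Z.let (gs_gv hx 1) (by positivity) (hX 1), t2⟩)
    (Fin.forall_fin_two.2 ⟨⟨by simp only [Matrix.cons_val_zero]; positivity, le_rfl⟩, by
      simp only [Matrix.cons_val_one, Matrix.cons_val_fin_one]
      refine ⟨by positivity, mul_le_mul_of_nonneg_left ((div_le_self (by positivity) r1).trans ?_)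
        (by positivity)⟩
      have := one_le_pow₀ (n := s) r1
      have : 10 * Λ ^ 3 ≤ Λ ^ 9 := (mul_le_mul_of_nonneg_right (show 10 ≤ Λ by linarith)
        (by positivity)).trans (by rw [← pow_succ']; exact pow_le_pow_right₀ (by linarith) (by omega))
      exact mul_le_mul_of_nonneg_right (this.trans (le_mul_of_one_le_right (by positivity) ‹_›))
        f1.le⟩)
  have pb := fun Q => h.pO_bm (R := R) (Q := Q) iJ
  rw [cL_const _ _ (Fin.forall_fin_two.2 ⟨bm e, (pb Q).add (bm f)⟩), cL_swap,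
    cL_add (pb Q) (bm f) (bm e), cL_swap (G.zL 𝒜 b J o f)] at c
  have p : |Kz.cL (Fi.tr haar) b (G.N J) ![G.pO R J (k + 1) Q, G.zL 𝒜 b J o e]
      ![(G.rt J k : ℤ) • z, x]| ≤ (∑ a, |t a|) * y := by
    refine (congrArg _ (cPa_ap (A := h.pL iJ R) pb (bm e) Q)).ge.trans ?_
    rw [hQ, pQ, map_sum, sum_mul]
    refine (abs_sum_le_sum_abs _ _).trans (sum_le_sum fun a _ => ?_)
    rw [← Complex.ofReal_neg, Complex.coe_smul, map_smul, smul_eq_mul, abs_mul, abs_neg,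
      cPa_ap pb (bm e), cL_swap]
    exact mul_le_mul_of_nonneg_left (hy _ ⟨1, a, by rw [act_one]⟩) (abs_nonneg _)
  obtain ⟨q, hq⟩ : ∃ q, q = G.QA (A + 1) o ^ 346 * G.Q o ^ 50 := ⟨_, rfl⟩
  have q2 : q ^ 2 ≤ Λ ^ 2 := pow_le_pow_left₀ (by rw [hq]; positivity) (hq ▸ Z.qa) 2
  rw [Fin.prod_univ_two, Fin.prod_univ_two] at c
  have a1 : 81 * (q ^ 2 * (10 * Λ ^ 4 / G.rt (k + 1) o * ‖e‖ * ‖f‖)) ≤
      Λ ^ 8 / G.rt (k + 1) o * ‖e‖ * ‖f‖ := by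
    calc _ = 810 * q ^ 2 * Λ ^ 4 / G.rt (k + 1) o * ‖e‖ * ‖f‖ := by ring
      _ ≤ Λ ^ 2 * Λ ^ 2 * Λ ^ 4 / G.rt (k + 1) o * ‖e‖ * ‖f‖ := by gcongr; nlinarith
      _ = _ := by ring
  have a2 : G.kD j 2 / 2 ^ (o - j) * (q ^ 2 * (Λ ^ 10 * (G.rt (k + 1) o : ℝ) ^ s * ‖e‖ * ‖f‖)) ≤
      G.kD j 2 / 2 ^ (o - j) * (Λ ^ 2 * (Λ ^ 10 * (G.rt (k + 1) o : ℝ) ^ s * ‖e‖ * ‖f‖)) := by
    gcongr
  have c' := c.trans_eq (c := 81 * (q ^ 2 * (10 * Λ ^ 4 / G.rt (k + 1) o * ‖e‖ * ‖f‖)) +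
    G.kD j 2 / 2 ^ (o - j) * (q ^ 2 * (Λ ^ 10 * (G.rt (k + 1) o : ℝ) ^ s * ‖e‖ * ‖f‖))) (by
      simp only [hq, Matrix.cons_val_zero, Matrix.cons_val_one]
      ring)
  have := mul_le_mul_of_nonneg_right t1 y0
  refine ((congrArg _ (add_sub_cancel_left _ _)).ge.trans (abs_sub _ _)).trans
    (add_le_add (c'.trans ((add_le_add a1 a2).trans_eq (by ring))) (p.trans this))

end Pool.Agent.Lib.MP_7f377f_mp.RG.Q4.En.Gl
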