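import Pool.Agent.Lib.MP_7f377f_mp.G.KzS2
import Pool.Agent.Lib.MP_7f377f_mp.G.KyS

/-! Slots with a letter and a probe. -/

noncomputable section

set_option linter.unusedSectionVars false
variable [Pool.Agent.Lib.MP_7f377f_mp.GD]

namespace Pool.Agent.Lib.MP_7f377f_mp.RG.Q4.En.Gl

open Finset Real Cok Filter Tl Ju Mg
open scoped Classical

attribute [local irreducible] box lbox tb tau rc

variable {α β : Type} [Fintype α] [DecidableEq α] [Fintype β] {G : Gl} {w : α → ℕ}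
  {b M δ δ' K K' x x' y : ℝ} {A d D C J j k i o n R R' : ℕ} {c : ℕ → St} {ω : ℕ → ℝ}
  {p : ℕ → (α → ℝ) →ₗ[ℝ] V} {l : ℕ → V →ₗ[ℝ] α → ℝ} {U U' : ℕ → Module.End ℝ (α → ℝ)}
  {ν : β → ℕ} {X : β → Lq} {Y P : Lq} {u : Jv} {H : Ac} {z : St}

/-- the growth of any state -/
theorem Fk.any (F : G.Fk w d D C M c b J j ω p l U U' R δ K ν X) (h1 : j ≤ k) (h2 : k ≤ i)
    (h3 : i ≤ J) (x0 : 0 < x) (a : G.zP w d D C c J j p l U i u x)
    (hx : ‖G.zq w d D C J j p i u‖ ≤ x) :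
    G.zP w d D C c J j p l U k (G.jF D c b J u i k) (11 * M * (G.Pw d C k i * x)) ∧
      ‖G.zq w d D C J j p k (G.jF D c b J u i k)‖ ≤ 5 * (G.Pw d C k i * x) := by
  obtain ⟨t, -, a2, a3⟩ := F.cmp h1 h2 h3 x0 a hx
  obtain ⟨c1, c2⟩ := a3 k le_rfl h2
  have P1 := F.T.ok.Pw1 d C k i
  have M1 := F.T.M1
  have e : G.Pw d C k i / (G.rt i k : ℝ) ^ (d + 1) * x ≤ G.Pw d C k i * x := by
    gcongr
    exact div_le_self (by linarith) (Ok.rt0 ..)
  have f := (F.dn t h1 h2 h3).trans (mul_le_mul_of_nonneg_left a2 (by linarith))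
  obtain ⟨v1, v2⟩ := F.T.co.lin k _ _ _ _ 1 c1 (F.cone t h1 (h2.trans h3))
  rw [one_smul, sub_add_cancel] at v1 v2
  refine ⟨F.T.co.mono _ _ _ _ v1 ?_, v2 ▸ (norm_add_le_of_le c2
    ((congrArg _ (one_smul ..)).trans_le f)).trans (by linarith)⟩
  rw [norm_one, one_mul]
  nlinarith [mul_le_mul_of_nonneg_left e (by linarith : 0 ≤ M),
    mul_le_mul_of_nonneg_left f (by linarith : 0 ≤ M)]

variable (T : G.Tk w d D C M c b J j ω p l U U')
include T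

/-- combinations of probes -/
theorem Tk.qt_fl (h1 : j ≤ i) (h2 : i ≤ J) (J1 : G.Tj D R δ i) (B : G.Kb D i H) (K0 : 0 < K)
    (top : ∀ a, 1 ≤ ν a ∧ ν a ≤ d ∧ ∃ σ, Top R (ν a) δ K (X a).1 (X a).2 σ) (t : β → ℂ)
    (hx : (∑ a, ‖t a‖) * (G.Yr d C i * K) ≤ x) (e : P = G.fl D C i ν X t) :
    G.zP w d D C c J j p l U i (G.qt D R i (c i) H P) x ∧
      ‖G.zq w d D C J j p i (G.qt D R i (c i) H P)‖ ≤ x ∧ G.jp D c i (G.qt D R i (c i) H P) =
        (G.ql D i (c i) P, i1 (G.p i) (G.N i) H (G.qh R i (c i) P)) ∧ G.Qk D R i x P := by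
  have h := T.ok
  have k0 := h.ka0 D C i
  have y1 := h.Yr1 d C i
  have x1 := h.Xr1 C i
  have r0 := h.ρ0 i
  choose m1 m2 σ top using top
  have q := fun a => T.qt_K h1 h2 J1 B (top a) K0 (m1 a) (m2 a)
  have n : ∀ a (y : ℝ), ‖t a * ((G.ka D C i : ℂ) ^ ν a)⁻¹‖ * (y * G.ka D C i ^ ν a) = ‖t a‖ * y :=
    fun a y => by
      rw [norm_mul, norm_inv, norm_pow, Complex.norm_real, Real.norm_of_nonneg k0.le]
      field_simp
  obtain ⟨s1, s2⟩ := T.co.sum univ (fun a => t a * ((G.ka D C i : ℂ) ^ ν a)⁻¹) _ _ fun a => (q a).1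
  simp only [fl, Fintype.linearCombination_apply, smul_smul] at e
  simp only [← map_smul, ← map_sum, ← e, n, ← sum_mul] at s1
  simp only [← map_smul (G.qt D R i (c i) H), ← map_sum, ← e] at s2
  have t0 : 0 ≤ ∑ a, ‖t a‖ := by positivity
  refine ⟨T.co.mono _ _ _ _ s1 (le_trans ?_ hx), s2 ▸ le_trans (norm_sum_le_of_le _ fun a _ => ?_)
    ((sum_mul ..).symm.trans_le hx), ?_, e ▸ Qk.mono (Qk.sum h univ fun a =>
      (h.qk J1 (top a) (m1 a)).smul h _) (le_trans (sum_le_sum fun a _ => ?_)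
        ((sum_mul ..).symm.trans_le hx))⟩
  · gcongr
    exact le_mul_of_one_le_left K0.le y1
  · rw [norm_smul, ← n, mul_assoc (G.Yr d C i)]
    gcongr
    exact (q a).2
  · subst e
    have a1 := jp_lin (G := G) (D := D) (c := c) (k := i) 0 0 (-1)
    rw [neg_one_smul, neg_one_smul, add_neg_cancel, add_neg_cancel] at a1
    refine Finset.sum_induction _ (fun P => G.jp D c i (G.qt D R i (c i) H P) =
      (G.ql D i (c i) P, i1 (G.p i) (G.N i) H (G.qh R i (c i) P))) (fun P P' a a' => ?_) ?_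
      fun a _ => ?_
    · simpa only [map_add, jp_add, a, a', Prod.mk_add_mk, one_smul, Prod.mk.injEq, and_true] using
        (ql_lin P P' 1).symm
    · simpa only [map_zero, ql_zero, Prod.mk_zero_zero] using a1
    · rw [map_smul, ← zero_add (_ • G.qt _ _ _ _ _ _), jp_lin, a1,
        T.qt_jp h1 h2 J1 B (top a) K0 (m1 a) (m2 a), ← zero_add (_ • X a), ql_lin, ql_zero]
      simp
  · rw [← n, mul_comm (G.Yr d C i), mul_assoc K]
    gcongr
    have : (G.p i).ρ ≤ G.Xr C i ^ 2 * G.ka D C i := by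
      linarith [h.ρH D i, h.lH_ka (T.e i h1).2.1]
    refine (pow_le_pow_left₀ r0.le this _).trans ?_
    rw [mul_pow, ← pow_mul]
    gcongr
    exact pow_le_pow_right₀ x1 (by have := m2 a; omega)

omit T in
/-- a letter with a probe is a slot -/
theorem Sru.mix (T : G.Tk w d D C M (G.tk z J) b J o ω p l U U') (S : G.Sru A R' b J i o)
    (iJ : i < J) (J1 : G.Tj D R' δ' J) (d1 : 1 ≤ d) (a : Lt1 R' δ' K' Y) (δ1 : δ' ≤ 1)
    (nA : n + 1 ≤ A) (hn : 5 ≤ n) (y0 : 0 < y) (hK : K' ≤ y * (G.rt J o : ℝ) ^ (n - 5))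
    (hi : ∀ m, i ≤ m → m < J → ∃ x x', G.zP w d D C (G.tk z J) J o p l U m
      (G.ls D (G.tk z J) b J Y m) x' ∧ ‖G.ys w d D C (G.tk z J) b J o p Y m‖ ≤ x ∧
        x + x' ≤ y * (G.rt m o : ℝ) ^ (n - 5))
    (q : G.Qk D R i x P) (hx : x ≤ y * (G.rt i o : ℝ) ^ (n - 5))
    (e : G.jp D (G.tk z J) i u = G.qd D R b J i (G.tk z J i) P)
    (au : G.zP w d D C (G.tk z J) J o p l U i u x')
    (lo : ∀ m, o ≤ m → m ≤ i → ∃ x x', G.zP w d D C (G.tk z J) J o p l U m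
      (G.jF D (G.tk z J) b J (G.ls D (G.tk z J) b J Y i + u) i m) x' ∧
        ‖G.zq w d D C J o p m (G.jF D (G.tk z J) b J (G.ls D (G.tk z J) b J Y i + u) i m)‖ ≤ x ∧
          x + x' ≤ y * (G.rt m o : ℝ) ^ (n - 5))
    (re : ∀ U, (Y.1 U).im = 0 ∧ (P.1 U).im = 0) :
    G.Sok A R' D R b J i o (G.rH n o (G.QA (A + 1) o ^ 346 * y)) ⟨z, Y, P⟩ := by
  have h := T.ok
  have q1 := h.QA1 (A + 1)
  have w0 : 0 < G.QA (A + 1) o ^ 346 * y := by have := q1 o; positivity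
  have r0 := rH_pos (n := n) (k := o) h w0
  have f : ∀ {m x} (e : ℕ), o ≤ m → 0 ≤ x → x ≤ y * (G.rt m o : ℝ) ^ (n - 5) → e ≤ 345 →
      G.QA (A + 1) m ^ e * (G.rH n o (G.QA (A + 1) o ^ 346 * y) m * x) ≤ 1 :=
    fun {m x} e a1 a2 a3 a4 => le_trans (by
      have := r0 m
      gcongr
      linarith [q1 m]) (h.rH_le S.big a1 y0 hn a2 a3)
  refine ⟨?_, ⟨x, q, ?_⟩, fun m h1 h2 => ?_, fun m _ _ => r0 m, fun m h1 _ => rH_gr h nA w0 h1, re⟩
  · have := T.rxA J1 d1 a δ1 S.li (fun m => (r0 m).le) (f 323 T.hj.le a.nn hK (by norm_num))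
      fun m h1 h2 => let ⟨x, x', c1, c2, c3⟩ := hi m h1 h2
        ⟨x, x', c1, c2, f 344 (S.li.trans h1) (add_nonneg ((norm_nonneg _).trans c2) (T.zP0 c1)) c3
          (by norm_num)⟩
    rwa [tk_top] at this
  · have x0 := (norm_nonneg _).trans ((q 0).2.2 0 1)
    have := h.QA0 A i
    rw [← one_div, le_div_iff₀' (by positivity)]
    refine le_trans ?_ (f 340 S.li x0 hx (by norm_num))
    have := r0 i
    gcongr
    exact pow_le_pow_right₀ (by linarith [h.L1 i]) (by omega)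
  · obtain ⟨x, x', c1, c2, c3⟩ := lo m h1 h2
    obtain ⟨_, c4⟩ := T.ls_adm J1 d1 a S.li iJ.le
    have g := T.pt.flow iJ.le (T.co.lin i _ _ _ _ 1 c4 au).1 m h1 h2
    rw [one_smul, jp_add, T.lv1 J1 d1 a S.li iJ, e, tk_top] at g
    exact g ▸ (T.szA h1 c1 c2 (r0 m).le (f 344 h1 (add_nonneg ((norm_nonneg _).trans c2)
      (T.zP0 c1)) c3 (by norm_num))).sl h (r0 m).le

end Pool.Agent.Lib.MP_7f377f_mp.RG.Q4.En.Gl
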