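import Pool.Agent.Lib.MP_7f377f_mp.G.KzS4
import Pool.Agent.Lib.MP_7f377f_mp.G.KzS5

/-! The setting of the compensation exists on short runs. -/

noncomputable section

set_option linter.unusedSectionVars false
variable [Pool.Agent.Lib.MP_7f377f_mp.GD]

namespace Pool.Agent.Lib.MP_7f377f_mp.RG.Q4.En.Gl

open Filter Topology RG.Tl Kz
open Zg (V0 Og)

variable {G : Gl} {β : ℕ × ℕ → ℝ} {s N R C0 : ℕ} {ν : Fin N → ℕ} {P : Fin N → Pl} {δ K M0 : ℝ}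

theorem Oks.pzs (o : G.Oks) (q : G.HP Sd.StA) (tu : G.Tus β) (𝒜 : Set CM) [Og 𝒜] [Adj 𝒜]
    (hs : 2 ≤ s) (pr : Prb s s ν P R δ K M0 C0) : ∀ᶠ C in atTop, ∀ᶠ C' in atTop, ∃ a j : ℕ,
      ∀ w ≥ 2 * a, ∀ᶠ k in atTop, ∀ J, G.Sh C' k J → ∀ v, ∃ A n R' M δ' K',
        (G.wm v).Pzs 𝒜 s C A n R R' C0 j (k - w) k J (β (v, J)) M δ δ' K K' M0 (G.L k ^ a) ν P := by
  have h := (o 0).1
  obtain ⟨R₀, δ₀, d0, kv⟩ := o.kv2 q tu 𝒜 hs
  filter_upwards [Oks.fwU (𝒜 := 𝒜) o q tu hs R₀, kv, eventually_ge_atTop C0]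
    with C ⟨M, R', hR, fw⟩ kv hC
  obtain ⟨δ', hδ, K', fw⟩ := fw δ₀ d0
  filter_upwards [kv, eventually_ge_atTop 1] with C' ⟨c, kv⟩ hC'
  obtain ⟨n, hn⟩ : ∃ n, n = (3 * C' + 2) * s + s + 12 := ⟨_, rfl⟩
  obtain ⟨k0, big⟩ := h.big_ev (n + 2)
  obtain ⟨j, j1, j2, j3⟩ := ((eventually_forall_ge_atTop.2 (fw _ (le_max_left M M0))).and
    ((eventually_ge_atTop k0).and (h.L_nat.eventually_ge_atTop 9000))).exists
  obtain ⟨a, c1, c2⟩ : ∃ a, (G.K + (n + 2)) * 346 + G.K * 50 + 1 ≤ a ∧ c ≤ a :=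
    ⟨max _ _, le_max_left .., le_max_right ..⟩
  refine ⟨a, j, fun w hw => ?_⟩
  filter_upwards [kv R' hR w, h.sh_pw C' s C 1 w hC', h.sh_far C' 2, h.ev_L (max M M0), h.ev_L K,
    eventually_ge_atTop (j + w + 1), (tendsto_add_atTop_nat 1).eventually ((h.ex_ev s).and
      (h.tj_ev (s + 1) R (lt_min pr.δ0 one_pos)))] with k a1 a2 a3 a4 a5 a6 a7 J S v
  have g := (o v).1
  have kJ := a3 J (S.wm 0)
  obtain ⟨e1, -, e3, e2⟩ := a2 J (S.wm 0) (k - w) (by omega) (by omega)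
  rw [pow_one] at e1 e2
  have L : (1000 : ℝ) ≤ G.L k := h.L1 k
  have L' : (1000 : ℝ) ≤ G.L (k - w) := h.L1 _
  have p : ∀ {a a'}, a ≤ a' → (G.L k : ℝ) ^ a ≤ G.L k ^ a' := pow_le_pow_right₀ (by linarith)
  have p1 : (G.L k : ℝ) ≤ G.L k ^ a := (pow_one _).ge.trans (p (by omega))
  have W := j1 (k - w) (by omega) J (by omega) v
  refine ⟨n + 1, n, R', _, δ', K', pr, hC, le_max_right .., W, ⟨g, tu (v, J), (o v).2, q, by omega,
    fun i hi => big i (by omega), (W.fr 0 gs_zero 1 le_rfl (by omega)).J1.1.trans (g.lR_le J),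
    by omega, by omega⟩, by omega, by omega, by omega, by omega, j3, by omega, le_rfl, a7.1, a7.2,
    fun x hx e he => ?_, by linarith, a4.trans p1, a5.trans p1, e1.trans p1, le_trans
      (pow_le_pow_left₀ (by linarith [g.Xr1 C (k + 1)]) (g.Xrm C (by omega)) _) (e2.trans p1), ?_,
    ?_⟩
  · obtain ⟨Y, y⟩ := a1 J S v (k - w) _ δ' K' (n - 6) (by omega) (by omega) hδ (by omega) W x hx e he
    have := mul_le_mul_of_nonneg_right (p c2) (norm_nonneg e)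
    exact ⟨Y, { y with
      lt := y.lt.mono le_rfl le_rfl (mul_le_mul_of_nonneg_right this (by positivity))
      gy := (W.fr x hx s (by omega) (by omega)).T.gx_mono (m := s) y.gy this le_rfl }⟩
  · rw [QA, Q, ← pow_mul, ← pow_mul, ← pow_add]
    exact (pow_le_pow_left₀ (by positivity) (Nat.cast_le.2 (h.L_mono (Nat.sub_le k w))) _).trans
      (p (le_of_lt c1))
  · refine ((pow_le_pow_left₀ (by positivity) e3 a).trans ?_).trans
      (Nat.cast_le.2 (g.le_rt (k := k + 1) (k - w) (by omega)))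
    rw [← pow_mul, Nat.cast_pow]
    exact pow_le_pow_right₀ (le_trans (by norm_num) L') (by omega)

end Pool.Agent.Lib.MP_7f377f_mp.RG.Q4.En.Gl
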