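import Pool.Agent.Lib.MP_7f377f_mp.G.KzT0

/-! Charts are good. -/

noncomputable section

set_option linter.unusedSectionVars false
variable [Pool.Agent.Lib.MP_7f377f_mp.GD]

namespace Pool.Agent.Lib.MP_7f377f_mp.RG.Q4.En.Gl

open MeasureTheory Filter Topology Set YM7 L6 RG.Tl Wy Kz
open RG.Wd (B4 gv)
open Wu (Z4)
open Zg (V0 Og r0 fil)

variable {G : Gl} {𝒜 : Set CM} [Og 𝒜] {β : ℕ × ℕ → ℝ} {U : Ultrafilter (ℕ × ℕ)}
  {N : ℕ × ℕ → V0 𝒜 →ₗ[ℝ] V0 𝒜} {A : ℝ → V0 𝒜 ≃ₗ[ℝ] V0 𝒜}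

theorem sm_le {K L x : ℝ} {a n n' : ℕ} (k1 : 1 ≤ K) (k : K ≤ L) (e : x ≤ L ^ a) (u : a + n + 1 ≤ n') :
    K * x * (L ^ n')⁻¹ ≤ (L ^ n)⁻¹ := by
  have l : 1 ≤ L := k1.trans k
  rw [← div_eq_mul_inv, ← one_div, div_le_div_iff₀ (by positivity) (by positivity), one_mul]
  calc _ ≤ K * L ^ a * L ^ n := by gcongr
    _ ≤ L * L ^ a * L ^ n := by gcongr
    _ = L ^ (a + n + 1) := by ring
    _ ≤ _ := pow_le_pow_right₀ l u

theorem gcs_of (o : G.Oks) (H : G.Charts 𝒜 β) : G.Gcs 𝒜 β := fun s s2 m m2 => by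
  obtain ⟨C, H⟩ := (H s s2).exists
  obtain ⟨c, H⟩ := H m m2
  obtain ⟨K, k1, hK⟩ := Cz.eq 𝒜 (Fi.tr haar) s m
  obtain ⟨K', k1', hK'⟩ := Cz.off 𝒜 (Fi.tr haar) s m
  refine ⟨c, fun N W => ?_⟩
  obtain ⟨_, H⟩ := H (N + c * (m + 2) + W * (4 * s + 1) + 9 * c + 9) W
  filter_upwards [H, (o 0).1.L_top.eventually_ge_atTop K, (o 0).1.L_top.eventually_ge_atTop K']
    with k H (l : K ≤ G.L k) (l' : K' ≤ G.L k)
  refine H.mono fun p ⟨M, _, _, _, _, _, _, _, z, _, g⟩ => ?_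
  have l1 := k1.trans l
  obtain ⟨a, -, b, -, e⟩ := hK z ((sm_le (n := 0) k1 l (pow_mul _ c 2).ge (by nlinarith)).trans
    (by simp))
  have u := sm_le (n := N) (n' := N + c * (m + 2) + W * (4 * s + 1) + 9 * c + 9) k1 l
    (pow_mul _ c m).ge (by nlinarith)
  refine ⟨M, a, z.per, fun j hj x e h1 h2 => (b j hj x e h1 h2).trans (by gcongr),
    e.mono le_rfl le_rfl le_rfl u, fun ρ r1 r2 x hx => ?_, fun s4 => g s4 (by omega)⟩
  have r0 : 0 < ρ := lt_of_lt_of_le (by positivity) r1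
  refine (hK' z ρ (le_trans (by rw [pow_succ']; gcongr) r1) (le_trans (by gcongr) r2) ?_ x hx).mono
    (by gcongr)
  rw [mul_assoc K']
  refine (sm_le (n := 0) (a := c * (m + 2) + W * (4 * s + 1)) k1' l' ?_ (by omega)).trans (by simp)
  rw [pow_add _ (c * _), pow_mul, pow_mul]
  gcongr
  nlinarith

end Pool.Agent.Lib.MP_7f377f_mp.RG.Q4.En.Gl
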