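import Pool.Agent.Lib.MP_7f377f_mp.G.KzT0

/-! The sign of the normalisation. -/

noncomputable section

set_option linter.unusedSectionVars false
variable [Pool.Agent.Lib.MP_7f377f_mp.GD]

namespace Pool.Agent.Lib.MP_7f377f_mp.RG.Q4.En.Gl

open MeasureTheory Filter Topology Set YM7 L6 RG.Tl Wy Kz
open RG.Wd (B4 gv)
open Wu (Z4)
open Zg (V0 Og r0 fil)

variable {G : Gl} {𝒜 : Set CM} [Og 𝒜] {β : ℕ × ℕ → ℝ} {U : Ultrafilter (ℕ × ℕ)}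
  {N : ℕ × ℕ → V0 𝒜 →ₗ[ℝ] V0 𝒜} {A : ℝ → V0 𝒜 ≃ₗ[ℝ] V0 𝒜}

theorem Ny.pos (o : G.Oks) (Y : G.Ny 𝒜 β U N A) : ∀ᶠ t in 𝓝[>] (0 : ℝ), ∀ᶠ p in (U : Filter (ℕ × ℕ)), ∀ μ : ℝ,
    N p (A t (Zg.l0 𝒜)) = μ • Zg.l0 𝒜 → 0 < μ := by
  filter_upwards [Y.key 4, kt_ev o] with t ⟨_, D, D4, c, k, hk, _, H⟩ ⟨t0, t1, _⟩
  have h4 : Zf.Hm (Zg.l0 𝒜).1 4 := Zg.l0_val (𝒜 := 𝒜) ▸ Zf.hm_lg
  have l4 : Zg.l0 𝒜 ∈ Vp 𝒜 4 := ⟨h4.mem, Subtype.ext ((h4.hc_eq 0).trans (if_neg (by simp)))⟩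
  have a0 := G.aa_pos (0, k)
  have r1 : 1 ≤ t / G.aa (0, k) := (one_le_div a0).2 (le_trans (by
    rw [← aa_rt o (i := 0) (show G.kt t ≤ k by omega)]
    exact le_mul_of_one_le_right a0.le (by exact_mod_cast Nat.one_le_pow _ _ three_pos)) t1)
  have L0 : (0 : ℝ) < (G.L k : ℝ)⁻¹ := by simp [L, LL]; positivity
  have n0 := norm_nonneg (Zg.l0 𝒜)
  filter_upwards [H (_ / (‖Zg.l0 𝒜‖ + 1)) (div_pos L0 (by positivity))] with p ⟨M, g, u⟩ μ e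
  obtain ⟨e', h1, h2, h3⟩ := u 4 D4 _ l4
  generalize t / G.aa (0, k) = ρ at *
  have q : 0 < (ρ ^ 4)⁻¹ := by positivity
  refine (mul_pos_iff_of_pos_left (by positivity)).1 (g.sg D4 ((ρ ^ 4)⁻¹ • Kz.rs 𝒜 ρ e')
    (Submodule.smul_mem _ _ (rv_vp _ 4 h1)) ?_ ((ρ ^ 4)⁻¹ * t ^ 4 * μ) ?_)
  · have v : Kz.rs 𝒜 ρ (Zg.l0 𝒜) = ρ ^ 4 • Zg.l0 𝒜 := Subtype.ext (Zf.rh_smul h4 ρ)
    have w : (ρ ^ 4)⁻¹ • Kz.rs 𝒜 ρ e' - Zg.l0 𝒜 = (ρ ^ 4)⁻¹ • Kz.rs 𝒜 ρ (e' - Zg.l0 𝒜) := by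
      simp only [map_sub, smul_sub, v, inv_smul_smul₀ (inv_pos.1 q).ne']
    rw [w, norm_smul, Real.norm_of_nonneg q.le, inv_mul_le_iff₀ (by positivity)]
    refine (rs_le r1 (sub_mem h1 l4).1).2.trans (mul_le_mul_of_nonneg_left (h3.trans ?_) (by positivity))
    rw [div_mul_eq_mul_div, div_le_iff₀ (by positivity)]
    nlinarith
  · simp only [LinearMap.comp_apply, LinearMap.smul_apply, LinearEquiv.coe_coe, e] at h2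
    simp only [map_smul, h2, smul_smul, mul_assoc]

end Pool.Agent.Lib.MP_7f377f_mp.RG.Q4.En.Gl
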