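import Pool.Agent.Lib.MP_7f377f_mp.G.KzT0

/-! The normalisation from a family of charts. -/

noncomputable section

set_option linter.unusedSectionVars false
variable [Pool.Agent.Lib.MP_7f377f_mp.GD]

namespace Pool.Agent.Lib.MP_7f377f_mp.Kz

open MeasureTheory Filter Set YM7 L6 RG RG.Tl RG.Q4 RG.Q4.En Wy
open RG.Wd (B4 gv)
open Wu (Z4)
open Zg (V0 Og r0 fil)

variable {𝒜 : Set CM} [Og 𝒜] {ι : Type} {c : V0 𝒜} {D d : ℕ} {N N' T : V0 𝒜 →ₗ[ℝ] V0 𝒜}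
  {l : Filter ι} {M M' : ι → V0 𝒜 →ₗ[ℝ] V0 𝒜}

theorem π_π (d e : ℕ) (c : V0 𝒜) :
    (fil 𝒜).π d ((fil 𝒜).π e c) = if d = e then (fil 𝒜).π e c else 0 :=
  Subtype.ext (((Zf.hc_hm e c.1).hc_eq d).trans (by split_ifs <;> rfl))

theorem π0_π0 (c : V0 𝒜) : (fil 𝒜).π 0 ((fil 𝒜).π 0 c) = (fil 𝒜).π 0 c := (π_π 0 0 c).trans (if_pos rfl)

theorem π0_F (d : ℕ) (c : V0 𝒜) : (fil 𝒜).π 0 c ∈ (fil 𝒜).F d :=
  (fil 𝒜).mono d.zero_le ((fil 𝒜).π_mem 0 c)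

theorem sub_π0 (h : c ∈ (fil 𝒜).F d) : c - (fil 𝒜).π 0 c ∈ Vp 𝒜 d :=
  ⟨Submodule.sub_mem _ h (π0_F d c), by simp [π0_π0]⟩

theorem u0_F0 : Zg.u0 𝒜 ∈ (fil 𝒜).F 0 := Zf.Hm.mem (MvPolynomial.isWeightedHomogeneous_one ℝ _)

theorem π0_u0 : (fil 𝒜).π 0 (Zg.u0 𝒜) = Zg.u0 𝒜 := by simpa using (fil 𝒜).π_sum (u0_F0 (𝒜 := 𝒜))

/-- the extension by the identity on the unit -/
def xt (N : V0 𝒜 →ₗ[ℝ] V0 𝒜) : V0 𝒜 →ₗ[ℝ] V0 𝒜 := N ∘ₗ (.id - (fil 𝒜).π 0) + (fil 𝒜).π 0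

theorem xt_ap (c : V0 𝒜) : xt N c = N (c - (fil 𝒜).π 0 c) + (fil 𝒜).π 0 c := rfl

theorem xt_vp (h : c ∈ Vp 𝒜 d) : xt N c = N c := by simp [xt_ap, show (fil 𝒜).π 0 c = 0 from h.2]

theorem xt_π0 (c : V0 𝒜) : xt N ((fil 𝒜).π 0 c) = (fil 𝒜).π 0 c := by simp [xt_ap, π0_π0]

theorem π0_xt (m : MapsTo N (Vp 𝒜 d) (Vp 𝒜 d)) (h : c ∈ (fil 𝒜).F d) :
    (fil 𝒜).π 0 (xt N c) = (fil 𝒜).π 0 c := by
  rw [xt_ap, map_add, π0_π0, show (fil 𝒜).π 0 _ = 0 from (m (sub_π0 h)).2, zero_add]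

theorem xt_maps (m : MapsTo N (Vp 𝒜 d) (Vp 𝒜 d)) : MapsTo (xt N) ((fil 𝒜).F d) ((fil 𝒜).F d) :=
  fun c h => Submodule.add_mem _ (m (sub_π0 h)).1 (π0_F d c)

theorem xt_bij (b : BijOn N (Vp 𝒜 d) (Vp 𝒜 d)) : BijOn (xt N) ((fil 𝒜).F d) ((fil 𝒜).F d) :=
  have := (fil 𝒜).fin d
  bij_of_surj (xt_maps b.1) fun y hy => (b.2.2 (sub_π0 hy)).elim fun x u =>
    ⟨x + (fil 𝒜).π 0 y, Submodule.add_mem _ u.1.1 (π0_F d y), by
      rw [map_add, xt_vp u.1, xt_π0, u.2, sub_add_cancel]⟩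

theorem Bd.xt (h : Bd l (Vp 𝒜 d) M M') : Bd l ((fil 𝒜).F d) (fun j => xt (M j)) fun j => xt (M' j) :=
  have := (fil 𝒜).fin d
  .unit (fun c _ => π0_F d c) π0_π0 (h.imp fun _ u => ⟨u.1, u.2.mono fun _ v e he =>
    (v e he).imp fun _ w => ⟨w.1, by rw [xt_vp w.1, xt_vp he, w.2.1], w.2.2⟩⟩)
    (.of_forall fun _ _ _ => by rw [xt_π0, xt_π0])

theorem Nr.vp {δ : ℝ} (h : Nr ((fil 𝒜).F d) N N' T δ)
    (a : ∀ e ∈ (fil 𝒜).F d, (fil 𝒜).π 0 (N e) = 0 → (fil 𝒜).π 0 e = 0)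
    (b : MapsTo N' (Vp 𝒜 d) (Vp 𝒜 d)) : Nr (Vp 𝒜 d) N N' T δ := fun e he =>
  let ⟨z, z1, z2, z3⟩ := h e he.1
  ⟨z, ⟨z1, a z z1 (z2 ▸ (b he).2)⟩, z2, z3⟩

theorem sc_bij {s t : ℝ} (hs : s ≠ 0) (ht : t ≠ 0) :
    BijOn (s • rs 𝒜 t : V0 𝒜 →ₗ[ℝ] V0 𝒜) ((fil 𝒜).F d) ((fil 𝒜).F d) :=
  have := (fil 𝒜).fin d
  bij_of_inj (fun _ a => Submodule.smul_mem _ _ ((rs_F ht d).1 a)) fun _ a _ b e =>
    (rs_F ht d).2.1 a b (smul_right_injective _ hs e)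

variable (𝒜) in
/-- the symmetries and the projection to the unit -/
def ρ0 (g : Option B4) : V0 𝒜 →ₗ[ℝ] V0 𝒜 := g.elim ((fil 𝒜).π 0) (rB 𝒜 ·)

theorem ρ0_gr (g : Option B4) (d : ℕ) (c : V0 𝒜) :
    ρ0 𝒜 g ((fil 𝒜).π d c) = (fil 𝒜).π d (ρ0 𝒜 g c) := by
  cases g
  · simp only [ρ0, Option.elim, π_π]
    split_ifs with a b <;> simp_all
  · exact (Zg.r0_gr _ _ _).symm

theorem xt_eqv (m : MapsTo N (Vp 𝒜 d) (Vp 𝒜 d)) (e : ∀ g c, N (rB 𝒜 g c) = rB 𝒜 g (N c)) (g)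
    (h : c ∈ (fil 𝒜).F d) : xt N (ρ0 𝒜 g c) = ρ0 𝒜 g (xt N c) := by
  rcases g with _ | g
  · exact (xt_π0 c).trans (π0_xt m h).symm
  · have := ρ0_gr (some g) 0 c
    simp only [ρ0, Option.elim] at this ⊢
    rw [xt_ap, xt_ap, ← this, ← map_sub, e, map_add]

variable (𝒜) in
theorem bd_ce [MeasurableSpace SU2] [BorelSpace SU2] (h : Measure SU2) [h.IsHaarMeasure]
    [IsProbabilityMeasure h] (D D' : ℕ) : ∃ K : ℝ, ∀ {b : ι → ℝ} {n : ι → ℕ} [∀ j, NeZero (n j)]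
    {r r' : ι → ℕ} {a c c' W W' E E' i i' : ℕ} {M M' : ι → V0 𝒜 →ₗ[ℝ] V0 𝒜}, K ≤ a →
    (∀ᶠ j in l, Ce h (b j) (n j) D (r j) (a ^ c) (a ^ W) (a ^ E)⁻¹ (M j) ∧
      Ce h (b j) (n j) D' (r' j) (a ^ c') (a ^ W') (a ^ E')⁻¹ (M' j) ∧ a ^ i * r j = a ^ i' * r' j) →
    c ≤ i → i < W → 2 * D * i < E → c' ≤ i' → i' < W' → 2 * D' * i' < E' → ∀ d ≤ D, d ≤ D' →
      Bd l (Vp 𝒜 d) M M' := by
  obtain ⟨K, K1, H⟩ := Ce.tr 𝒜 h D D'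
  refine ⟨2 * K, fun {b n _ r r' a c c' W W' E E' i i' M M'} ha u c1 c2 c3 c4 c5 c6 d d1 d2 => ?_⟩
  have a2 : (2 : ℝ) ≤ a := by linarith
  have a1 : (1 : ℝ) ≤ a := by linarith
  have a0 : 0 < a := by exact_mod_cast one_pos.trans_le a1
  have w {c i W D E : ℕ} (c1 : c ≤ i) (c2 : i < W) (c3 : 2 * D * i < E) :
      (a : ℝ) ^ c ≤ 2 * (a ^ i : ℕ) ∧ 2 * (a ^ i : ℕ) ≤ (a : ℝ) ^ W ∧
        K * ((a ^ i : ℕ) : ℝ) ^ (2 * D) * (a ^ E : ℝ)⁻¹ ≤ 1 := by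
    have := pow_le_pow_right₀ a1 c1
    have := pow_le_pow_right₀ a1 c2
    have := pow_le_pow_right₀ a1 c3
    have := pow_pos (one_pos.trans_le a1) i
    have := pow_pos (one_pos.trans_le a1) (2 * D * i)
    simp only [Nat.succ_eq_add_one, pow_succ] at *
    rw [Nat.cast_pow, ← pow_mul, mul_comm i, mul_inv_le_iff₀ (by positivity)]
    exact ⟨by linarith, by nlinarith, by nlinarith⟩
  obtain ⟨w1, w2, w3⟩ := w c1 c2 c3
  obtain ⟨w4, w5, w6⟩ := w c4 c5 c6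
  have z (i : ℕ) := rs_Vp (𝒜 := 𝒜) (t := (a ^ i : ℕ)) (by positivity) d
  exact ((Bd.refl.comp le_rfl (z i).1).trans ⟨K, by linarith, u.mono fun j v =>
    H v.1 v.2.1 _ _ (by positivity) v.2.2 w1 w2 w4 w5 w3 w6 d d1 d2⟩).trans (Bd.refl.left (z i'))

end Pool.Agent.Lib.MP_7f377f_mp.Kz

namespace Pool.Agent.Lib.MP_7f377f_mp.RG.Q4.En.Gl

open MeasureTheory Filter Topology Set YM7 L6 RG.Tl Wy Kz
open RG.Wd (B4 gv)
open Wu (Z4)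
open Zg (V0 Og r0 fil)

variable {G : Gl} {𝒜 : Set CM} [Og 𝒜] {β : ℕ × ℕ → ℝ} {U : Ultrafilter (ℕ × ℕ)}
  {N : ℕ × ℕ → V0 𝒜 →ₗ[ℝ] V0 𝒜} {A : ℝ → V0 𝒜 ≃ₗ[ℝ] V0 𝒜}

theorem ch_of (o : G.Oks) (H : G.Gcs 𝒜 β) : ∃ (c k₀ : ℕ → ℕ) (M : ℕ → ℕ → ℕ × ℕ → Z4 → V0 𝒜 →ₗ[ℝ] V0 𝒜),
    (∀ D k p, MapsTo (Kz.av (rB 𝒜) (M D k p 0)) (Vp 𝒜 D) (Vp 𝒜 D)) ∧
    (∀ D ≥ 2, ∀ k ≥ k₀ D, ∀ᶠ p in fast,
      G.Gc 𝒜 β D D (c D) (10 * (c D + D)) ((10 * (c D + D)) ^ 3) k p (M D k p)) ∧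
    Kz.Ch (fil 𝒜) fast (ρ0 𝒜) (fun p D k => Kz.xt (Kz.av (rB 𝒜) (M D k p 0))) k₀ := by
  have o0 := (o 0).1
  choose c hc using fun D => H (max D 2) (le_max_right _ _) (max D 2) (le_max_right _ _)
  have : ∀ D E W k p, ∃ M, ((∃ M, G.Gc 𝒜 β (max D 2) (max D 2) (c D) W E k p M) →
      G.Gc 𝒜 β (max D 2) (max D 2) (c D) W E k p M) ∧
      ∀ d ≤ D, MapsTo (Kz.av (rB 𝒜) (M 0)) (Vp 𝒜 d) (Vp 𝒜 d) := fun D E W k p => by
    by_cases e : ∃ M, G.Gc 𝒜 β (max D 2) (max D 2) (c D) W E k p M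
    · exact e.imp fun M u => ⟨fun _ => u, fun d a => (u.ce.bij d (le_max_of_le_left a)).1⟩
    · exact ⟨0, fun u => absurd u e, fun d _ => av_maps (rB_vp · d) fun _ _ => zero_mem _⟩
  choose M h1 h2 using this
  replace h1 := fun D E W => (hc D E W).mono fun k u => u.mono (h1 D E W k)
  let Y := fun D E W k p => Kz.av (rB 𝒜) (M D E W k p 0)
  have sm : ∀ D D' E E' W W' i, c D ≤ i → i < W → 2 * max D 2 * i < E → c D' ≤ i → i < W' →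
      2 * max D' 2 * i < E' → ∀ᶠ k in atTop, ∀ d ≤ D, d ≤ D' →
        Kz.Bd fast (Vp 𝒜 d) (Y D E W k) (Y D' E' W' k) := fun D D' E E' W W' i a1 a2 a3 a4 a5 a6 => by
    obtain ⟨K, hK⟩ := bd_ce 𝒜 (l := fast) (Fi.tr haar) (max D 2) (max D' 2)
    filter_upwards [h1 D E W, h1 D' E' W', o0.ev_L K] with k u v a d d1 d2
    exact hK a ((u.and v).mono fun p e => ⟨e.1.ce, e.2.ce, rfl⟩) a1 a2 a3 a4 a5 a6 d
      (le_max_of_le_left d1) (le_max_of_le_left d2)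
  let w := fun D => 10 * (c D + max D 2)
  have w1 : ∀ D, 2 * c D + 1 < w D := fun D => by simp only [w]; omega
  have w2 : ∀ D, ∀ i ≤ 2 * c D + 1, 2 * max D 2 * i < w D ^ 3 := fun D i a =>
    ((Nat.mul_le_mul_left _ a).trans_lt (by have := le_max_right D 2; simp only [w]; nlinarith)).trans_le
      (Nat.pow_le_pow_right (by have := w1 D; omega) (show 2 ≤ 3 by norm_num))
  let X := fun D => Y D (w D ^ 3) (w D)
  have lv : ∀ D, ∀ᶠ k in atTop, (∀ᶠ p in fast, G.Gc 𝒜 β (max D 2) (max D 2) (c D) (w D) (w D ^ 3) k p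
      (M D (w D ^ 3) (w D) k p)) ∧ ∀ d ≤ D, Kz.Bd fast (Vp 𝒜 d) (X D k) (X D (k + 1)) ∧
        Kz.Bd fast (Vp 𝒜 d) (X D (k + 1)) (X D k) := fun D => by
    obtain ⟨K, hK⟩ := bd_ce 𝒜 (l := fast) (Fi.tr haar) (max D 2) (max D 2)
    filter_upwards [h1 D (w D ^ 3) (w D), (tendsto_add_atTop_nat 1).eventually (h1 D (w D ^ 3) (w D)), o0.ev_L K]
      with k u v a
    have b1 : (G.L k : ℝ) ≤ G.L (k + 1) := Nat.cast_le.2 (o0.L_mono k.le_succ)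
    have b2 : (G.L (k + 1) : ℝ) ≤ 3 * G.L k := by exact_mod_cast o0.L_succ k
    have b3 : (1000 : ℝ) ≤ G.L k := o0.L1 k
    have e := (u.and (v.and (ev_lev o (k + 1)))).mono fun p e => (⟨e.1.ce, e.2.1.ce.mono le_rfl
      ((pow_le_pow_left₀ (by positivity) (by nlinarith) _).trans_eq (pow_mul (G.L k : ℝ) 2 (c D)).symm)
      (pow_le_pow_left₀ (by positivity) b1 _) (inv_anti₀ (by positivity)
        (pow_le_pow_left₀ (by positivity) b1 _)), (congrArg (G.L k ^ (2 * c D) * ·)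
          (o0.rt_step e.2.2)).trans (by rw [pow_succ, mul_assoc]; rfl)⟩ : _ ∧ _ ∧
      G.L k ^ (2 * c D) * G.rt p.2 k = G.L k ^ (2 * c D + 1) * G.rt p.2 (k + 1))
    have := w1 D
    exact ⟨u, fun d d1 => ⟨hK a e (by omega) (by omega) (w2 D _ (by omega)) (by omega) this
      (w2 D _ le_rfl) d (le_max_of_le_left d1) (le_max_of_le_left d1),
      hK a (e.mono fun p e => ⟨e.2.1, e.1, e.2.2.symm⟩) (by omega) this (w2 D _ le_rfl) (by omega)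
        (by omega) (w2 D _ (by omega)) d (le_max_of_le_left d1) (le_max_of_le_left d1)⟩⟩
  choose k₀ hk using fun D => eventually_atTop.1 (lv D)
  refine ⟨c, k₀, fun D => M D (w D ^ 3) (w D), fun D k p => h2 _ _ _ _ _ D le_rfl, fun D a k b => by
    simpa only [w, max_eq_left a] using (hk D k b).1, ρ0_gr, fun D k a => (hk D k a).1.mono fun p u d e =>
    xt_bij (u.ce.bij d (le_max_of_le_left e)), fun D k a g => .of_forall fun p e =>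
    xt_eqv (h2 _ _ _ _ _ D le_rfl) av_comm g, fun D k a d e =>
    ⟨((hk D k a).2 d e).1.xt, ((hk D k a).2 d e).2.xt⟩, fun D D' d a a' => ?_⟩
  have := w1 D
  have := w1 D'
  have q : ∀ i ≤ c D + c D', ∀ s ≤ max D 2 + max D' 2,
      2 * s * i < 2 * (max D 2 + max D' 2) * (c D + c D') + 1 := fun i a s b =>
    Nat.lt_succ_of_le (by gcongr)
  exact (((eventually_ge_atTop _).and ((eventually_ge_atTop _).and ((sm D D _ _ _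
    (c D + c D' + 1) _ le_rfl (by omega) (w2 D _ (by omega)) le_rfl (by omega)
    (q _ (by omega) _ (by omega))).and ((sm D D' _ _ _ (c D + c D' + 1) (c D + c D') (by omega)
    (by omega) (q _ le_rfl _ (by omega)) (by omega) (by omega) (q _ le_rfl _ (by omega))).and
    (sm D' D' _ _ _ (w D') _ le_rfl (by omega) (q _ (by omega) _ (by omega)) le_rfl (by omega)
    (w2 D' _ (by omega))))))).mono fun k u => ⟨u.1, u.2.1,
      (((u.2.2.1 d a a).trans (u.2.2.2.1 d a a')).trans (u.2.2.2.2 d a' a')).xt⟩).exists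

theorem ny_of (o : G.Oks) (hU : U ≤ fast) (H : G.Gcs 𝒜 β) : ∃ N A, G.Ny 𝒜 β U N A := by
  have o0 := (o 0).1
  have := (fil 𝒜).fin
  obtain ⟨c, k₀, M, h1, h2, ch⟩ := ch_of o H
  obtain ⟨D, A, a1, a2, a3, a4⟩ := ch.lim hU (k := fun D t => G.kt t + (2 * c D + D + 4))
    (sc := fun D t => (t ^ 4)⁻¹ • Kz.rs 𝒜 (t / G.aa (0, G.kt t + (2 * c D + D + 4))))
    (fun D => eventually_mem_nhdsWithin.mono fun t (t0 : 0 < t) d =>
      sc_bij (by positivity) (div_pos t0 (G.aa_pos _)).ne')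
    (fun D t g e => by rcases g with _ | g <;> simp [ρ0, rs_π, rs_rB])
    (fun D => (tendsto_add_atTop_nat _).comp (kt_top o))
    (P := fun D t => 0 < t ∧ G.L (G.kt t + (2 * c D + D + 4)) ≤ G.L (G.kt t) ^ 2)
    fun D => eventually_mem_nhdsWithin.and (((o0.L_nat.comp (kt_top o)).eventually_ge_atTop
      (3 ^ (2 * c D + D + 4))).mono fun t a => (o0.L_le (Nat.le_add_right _ _)).trans (by
        rw [Nat.add_sub_cancel_left, sq]; exact Nat.mul_le_mul_right _ a))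
  have n1 := fun D => ch.nn_bij D
  have n2 := fun D => ch.nn_eqv D
  have n3 := fun D k d => ch.nn (D := D) (k := k) (d := d)
  have n4 : ∀ p, (fil 𝒜).Up 0 (Kz.NN (fil 𝒜) (fun p D k => Kz.xt (Kz.av (rB 𝒜) (M D k p 0))) k₀ p) :=
    fun p d => gl_up fun d _ => xt_maps (h1 _ _ _)
  have n0 : ∀ p, Kz.NN (fil 𝒜) (fun p D k => Kz.xt (Kz.av (rB 𝒜) (M D k p 0))) k₀ p (Zg.u0 𝒜) =
      Zg.u0 𝒜 := fun p => by rw [Kz.NN, gl_eq u0_F0, Finset.sum_range_one, xt_π0, π0_u0]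
  generalize Kz.NN (fil 𝒜) (fun p D k => Kz.xt (Kz.av (rB 𝒜) (M D k p 0))) k₀ = N at *
  have n5 : ∀ D, ∀ᶠ p in fast, ∀ d ≤ D, MapsTo (N p) (Vp 𝒜 d) (Vp 𝒜 d) := fun D =>
    (eventually_all_finite (finite_le_nat D)).2 fun d _ => (n2 d none).mono fun p u e a =>
      ⟨n4 p d e a.1, (u e a.1).symm.trans ((congrArg _ a.2).trans (map_zero _))⟩
  refine ⟨N, A, a1, fun t g => a2 t (some g), fun t => a2 t none, n4, fun D => ?_,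
    fun D₀ => ⟨max D₀ 2, le_max_left _ _, c (max D₀ 2), ?_⟩, fun D₀ => ?_⟩
  · filter_upwards [n5 D, n1 D, eventually_all.2 fun g => n2 D (some g)] with p u v e
    exact ⟨bij_of_inj (u D le_rfl) (v.2.1.mono fun _ a => a.1), n0 p, e⟩
  · filter_upwards [eventually_ge_atTop (k₀ (max D₀ 2))] with k a
    obtain ⟨K, K0, u⟩ := Bd.all fun d (e : d ≤ max D₀ 2) => (n3 _ k d a e).1
    refine ⟨K, K0, ?_⟩
    filter_upwards [u, h2 _ (le_max_right _ _) k a, n5 (max D₀ 2)] with p u v e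
    refine ⟨_, v, fun d b z hz => ?_⟩
    obtain ⟨y, y1, y2, y3⟩ := (u d b).vp (fun z a q => by rwa [π0_xt (v.ce.bij d b).1 a] at q) (e d b) z hz
    exact ⟨y, y1, (xt_vp y1).symm.trans y2, y3⟩
  · filter_upwards [a4, a3.eventually_ge_atTop (max D₀ 2)] with t ⟨b1, ⟨t0, b2⟩, b3⟩ b4
    have t4 : t ^ 4 ≠ 0 := by positivity
    have c0 : ∀ d ≤ D t, MapsTo (A t) (Vp 𝒜 d) (Vp 𝒜 d) := fun d _ e a =>
      ⟨(a1 t).1 d e a.1, (a2 t none e).symm.trans ((congrArg _ a.2).trans (map_zero _))⟩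
    refine ⟨(b3 0 (Nat.zero_le _) _ u0_F0).1.uniq ⟨fun _ => _, tendsto_const_nhds, .of_forall fun p =>
      ⟨Submodule.smul_mem _ _ u0_F0, ?_⟩⟩ (((n1 0).filter_mono hU).mono fun p u => u.2.1),
      D t, le_of_max_le_left b4, _, _, rfl, b2, fun η η0 => ?_⟩
    · rw [map_smul, n0, LinearMap.comp_apply, LinearMap.smul_apply, map_smul, ← π0_u0, rs_π0, xt_π0]
    filter_upwards [(eventually_all_finite (finite_le_nat (D t))).2 fun d e =>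
      Rl.nr (T := A t) (fun z a => (b3 d e z a).2) η0, hU (h2 _ (le_of_max_le_right b4) _ b1),
      hU (n5 (D t))] with p u v e
    refine ⟨_, v, fun d b z hz => ?_⟩
    have r := fun x => (rs_Vp (𝒜 := 𝒜) (div_pos t0 (G.aa_pos x)).ne' d).1
    obtain ⟨y, y1, y2, y3⟩ := (u d b).vp (fun z a q => by
      rw [LinearMap.comp_apply, π0_xt (v.ce.bij d b).1
        ((sc_bij (inv_ne_zero t4) (div_pos t0 (G.aa_pos _)).ne').1 a)] at q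
      simpa [← rs_π, rs_π0, t4] using q) ((e d b).comp (c0 d b)) z hz
    refine ⟨y, y1, ?_, y3⟩
    rw [LinearMap.comp_apply, LinearMap.smul_apply, map_smul, xt_vp (r _ y1),
      inv_smul_eq_iff₀ t4] at y2
    exact y2

end Pool.Agent.Lib.MP_7f377f_mp.RG.Q4.En.Gl
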