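import Pool.Agent.Lib.MP_7f377f_mp.G.KzT1
import Pool.Agent.Lib.MP_7f377f_mp.G.KzT2
import Pool.Agent.Lib.MP_7f377f_mp.G.KzT3
import Pool.Agent.Lib.MP_7f377f_mp.G.KzT4
import Pool.Agent.Lib.MP_7f377f_mp.G.KyA

/-! The normalisation of the lattice fields. -/

noncomputable section

set_option linter.unusedSectionVars false
variable [Pool.Agent.Lib.MP_7f377f_mp.GD]

namespace Pool.Agent.Lib.MP_7f377f_mp.RG.Q4.En.Gl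

open MeasureTheory Filter Topology Set YM7 L6 RG.Tl Wy Kz
open RG.Wd (B4 gv)
open Wu (Z4)
open Zg (V0 Og r0 fil)

variable {G : Gl} {𝒜 : Set CM} [Og 𝒜] {β : ℕ × ℕ → ℝ} {U : Ultrafilter (ℕ × ℕ)}
  {N : ℕ × ℕ → V0 𝒜 →ₗ[ℝ] V0 𝒜} {A : ℝ → V0 𝒜 ≃ₗ[ℝ] V0 𝒜}

theorem nz_of (o : G.Oks) (hU : U ≤ fast) (H : G.Charts 𝒜 β) : ∃ N A, G.Nz 𝒜 β U N A :=
  let ⟨N, A, Y⟩ := ny_of o hU (gcs_of o H)
  ⟨N, A, Y.up, Y.cm, Y.c0, Y.fil, Y.bij, Y.pos o, Y.own o H, Y.owt o H hU (Y.ax o hU), Y.ax o hU⟩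

end Pool.Agent.Lib.MP_7f377f_mp.RG.Q4.En.Gl
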