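import Pool.Agent.Lib.MP_7f377f_mp.G.KzC
import Pool.Agent.Lib.MP_7f377f_mp.G.KzE
import Pool.Agent.Lib.MP_7f377f_mp.G.KzB
import Pool.Agent.Lib.MP_7f377f_mp.G.ZhR

/-! Good charts and the family of charts which defines the normalisation. -/

noncomputable section

set_option linter.unusedSectionVars false
variable [Pool.Agent.Lib.MP_7f377f_mp.GD]

namespace Pool.Agent.Lib.MP_7f377f_mp.Kz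

open MeasureTheory Filter Set YM7 L6 RG RG.Tl RG.Q4 RG.Q4.En Wy
open RG.Wd (B4 gv)
open Wu (Z4)
open Zg (V0 Og r0 fil)

variable {𝒜 : Set CM} [Og 𝒜] {ι : Type} [Fintype ι] {s t : ℝ} {c : V0 𝒜} {D d : ℕ}

theorem rs_bij {W : Submodule ℝ (V0 𝒜)} (h : t ≠ 0) (m : ∀ t, MapsTo (rs 𝒜 t) W W) :
    BijOn (rs 𝒜 t) W W :=
  InvOn.bijOn (f' := rs 𝒜 t⁻¹) ⟨fun c _ => by rw [rs_mul, inv_mul_cancel₀ h, rs_one],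
    fun c _ => by rw [rs_mul, mul_inv_cancel₀ h, rs_one]⟩ (m _) (m _)

theorem Ce.mono [MeasurableSpace SU2] {h : Measure SU2} {b : ℝ} {n : ℕ} [NeZero n] {r : ℕ}
    {M R ε M' R' ε' : ℝ} {N : V0 𝒜 →ₗ[ℝ] V0 𝒜} (H : Ce h b n D r M R ε N) (e : d ≤ D) (u : M ≤ M')
    (v : R' ≤ R) (w : ε ≤ ε') : Ce h b n d r M' R' ε' N :=
  ⟨H.r0, H.e0.trans w, fun _ a => H.bij _ (a.trans e), H.eqv, fun z c a q =>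
    (H.o0 z c (fun i => inf_le_inf_right _ ((fil 𝒜).mono e) (a i)) (q.mono u v)).trans
      (mul_le_mul_of_nonneg_right w (by positivity))⟩

end Pool.Agent.Lib.MP_7f377f_mp.Kz

namespace Pool.Agent.Lib.MP_7f377f_mp.RG.Q4.En.Gl

open MeasureTheory Filter Topology Set YM7 L6 RG.Tl Wy Kz
open RG.Wd (B4 gv)
open Wu (Z4)
open Zg (V0 Og r0 fil)

variable (G : Gl) (𝒜 : Set CM) [Og 𝒜] (β : ℕ × ℕ → ℝ)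

/-- a good chart at the level `k` in the window from `L ^ c` to `L ^ W` with the error `L ^ -N` -/
structure Gc (D m c W N k : ℕ) (p : ℕ × ℕ) (M : Z4 → V0 𝒜 →ₗ[ℝ] V0 𝒜) : Prop where
  bij : ∀ x ∈ G.Gs p.2 k, ∀ d ≤ D, BijOn (M x) (Vp 𝒜 d) (Vp 𝒜 d)
  per : ∀ x v : Z4, M (x + (G.rt p.2 k : ℤ) • v) = M x
  oa : ∀ j ≤ m, ∀ (x : Fin j → Z4) (e : Fin j → V0 𝒜), (∀ a, x a ∈ G.Gs p.2 k ∧ e a ∈ Vp 𝒜 D) →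
    (∀ a a', a ≠ a' → Kz.Ds (G.L k ^ c * G.rt p.2 k) (G.L k ^ W * G.rt p.2 k) (x a) (x a')) →
    |Kz.cm (Fi.tr haar) (β p) (G.nn p) (fun a => M (x a) (e a)) x - Kz.fq (G.rt p.2 k) e x| ≤
      (G.L k ^ N : ℝ)⁻¹ * ∏ a, ‖e a‖
  ce : Kz.Ce (Fi.tr haar) (β p) (G.nn p) D (G.rt p.2 k) (G.L k ^ c) (G.L k ^ W) (G.L k ^ N)⁻¹
    (Kz.av (rB 𝒜) (M 0))
  off : ∀ ρ : ℝ, G.L k ^ (c + 1) ≤ ρ → G.L k * ρ ≤ G.L k ^ W → ∀ x ∈ G.Gs p.2 k,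
    Kz.Nr (Vp 𝒜 D) (M x ∘ₗ Kz.rs 𝒜 ρ) (Kz.av (rB 𝒜) (M 0) ∘ₗ Kz.rs 𝒜 ρ) .id (G.L k / ρ)
  sg : 4 ≤ D → Kz.Sg 𝒜 (G.L k)⁻¹ (Kz.av (rB 𝒜) (M 0))

/-- good charts exist -/
def Gcs : Prop := ∀ s ≥ (2 : ℕ), ∀ m ≥ 2, ∃ c : ℕ, ∀ N W : ℕ, ∀ᶠ k in atTop, ∀ᶠ p in fast,
  ∃ M, G.Gc 𝒜 β s m c W N k p M

/-- the relation of the normalised labels to a family of charts -/
structure Ny (U : Ultrafilter (ℕ × ℕ)) (N : ℕ × ℕ → V0 𝒜 →ₗ[ℝ] V0 𝒜) (A : ℝ → V0 𝒜 ≃ₗ[ℝ] V0 𝒜) :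
    Prop where
  up : ∀ t, (fil 𝒜).Up 0 (A t) ∧ (fil 𝒜).Up 0 (A t).symm
  cm : ∀ t g c, A t (rB 𝒜 g c) = rB 𝒜 g (A t c)
  c0 : ∀ t c, A t ((fil 𝒜).π 0 c) = (fil 𝒜).π 0 (A t c)
  fil : ∀ p, (fil 𝒜).Up 0 (N p)
  bij : ∀ D, ∀ᶠ p in fast, BijOn (N p) (Vp 𝒜 D) (Vp 𝒜 D) ∧ N p (Zg.u0 𝒜) = Zg.u0 𝒜 ∧
    ∀ g, ∀ c ∈ (Zg.fil 𝒜).F D, N p (rB 𝒜 g c) = rB 𝒜 g (N p c)
  lev : ∀ D₀, ∃ D ≥ D₀, ∃ c, ∀ᶠ k in atTop, ∃ K ≥ 0, ∀ᶠ p in fast, ∃ M,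
    G.Gc 𝒜 β D D c (10 * (c + D)) ((10 * (c + D)) ^ 3) k p M ∧
      ∀ d ≤ D, Kz.Nr (Vp 𝒜 d) (Kz.av (rB 𝒜) (M 0)) (N p) 0 K
  key : ∀ D₀, ∀ᶠ t in 𝓝[>] (0 : ℝ), A t (Zg.u0 𝒜) = (t ^ 4)⁻¹ • Zg.u0 𝒜 ∧ ∃ D ≥ D₀, ∃ c k,
    k = G.kt t + (2 * c + D + 4) ∧ G.L k ≤ G.L (G.kt t) ^ 2 ∧ ∀ η > 0, ∀ᶠ p in (U : Filter (ℕ × ℕ)),
      ∃ M, G.Gc 𝒜 β D D c (10 * (c + D)) ((10 * (c + D)) ^ 3) k p M ∧ ∀ d ≤ D,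
        Kz.Nr (Vp 𝒜 d) (Kz.av (rB 𝒜) (M 0) ∘ₗ Kz.rs 𝒜 (t / G.aa (0, k))) (t ^ 4 • N p ∘ₗ (A t : V0 𝒜 →ₗ[ℝ] V0 𝒜))
          .id η

variable {G 𝒜 β} (o : G.Oks)
include o

theorem aa_lim : Tendsto (fun k => G.aa (0, k)) atTop (𝓝[>] 0) :=
  tendsto_inv_atTop_nhdsGT_zero.comp ((tendsto_pow_atTop_atTop_of_one_lt (by norm_num)).comp
    (o 0).1.sch.mono.tendsto_atTop)

theorem kt_eq {t : ℝ} (t0 : 0 < t) : G.aa (0, G.kt t) ≤ t ∧ ∀ k < G.kt t, t < G.aa (0, k) := by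
  have e : ∃ k, G.aa (0, k) ≤ t :=
    (((aa_lim o).mono_right nhdsWithin_le_nhds).eventually_le_const t0).exists
  rw [kt, dif_pos e]
  exact ⟨Nat.find_spec e, fun k a => not_le.1 (Nat.find_min e a)⟩

theorem kt_top : Tendsto G.kt (𝓝[>] 0) atTop := tendsto_atTop.2 fun n => by
  filter_upwards [(eventually_all_finite (finite_lt_nat n)).2 fun k _ =>
    Ioo_mem_nhdsGT (G.aa_pos (0, k))] with t a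
  by_contra! e
  exact (kt_eq o (a _ e).1).1.not_gt (a _ e).2

theorem aa_rt {i J k : ℕ} (h : k ≤ J) : G.aa (i, J) * G.rt J k = G.aa (0, k) := by
  have : (G.rt J k : ℝ) * 3 ^ G.e k = 3 ^ G.e J := by
    exact_mod_cast pow_sub_mul_pow 3 ((o 0).1.sch.mono.monotone h)
  simp only [aa, ← this]
  have : (G.rt J k : ℝ) ≠ 0 := by simp [rt]
  field_simp

theorem kt_ev : ∀ᶠ t in 𝓝[>] (0 : ℝ), 0 < t ∧ G.aa (0, G.kt t) ≤ t ∧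
    t ≤ G.L (G.kt t) * G.aa (0, G.kt t) := by
  filter_upwards [self_mem_nhdsWithin, (kt_top o).eventually_ge_atTop 1] with t (t0 : 0 < t) a
  obtain ⟨k, e⟩ := Nat.exists_eq_add_of_le' a
  refine ⟨t0, (kt_eq o t0).1, ((kt_eq o t0).2 k (by omega)).le.trans ?_⟩
  rw [e, ← aa_rt o (i := 0) k.le_succ, mul_comm]
  exact mul_le_mul_of_nonneg_right (Nat.cast_le.2 (((o 0).1.rt_L k).trans_le
    ((o 0).1.L_mono k.le_succ))) (G.aa_pos _).le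

theorem ev_lev (k : ℕ) : ∀ᶠ p in fast, k ≤ p.2 :=
  fast_le (tendsto_snd.eventually_ge_atTop k)

end Pool.Agent.Lib.MP_7f377f_mp.RG.Q4.En.Gl
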