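import Pool.Agent.Lib.MP_7f377f_mp.G.KzT0

/-! The size of the symbols of the normalised letters. -/

noncomputable section

set_option linter.unusedSectionVars false
variable [Pool.Agent.Lib.MP_7f377f_mp.GD]

namespace Pool.Agent.Lib.MP_7f377f_mp.Kz

open MeasureTheory Filter Set YM7 L6 RG RG.Tl RG.Q4 RG.Q4.En Wy
open RG.Wd (B4 gv)
open Wu (Z4)
open Zg (V0 Og r0 fil)

variable {𝒜 : Set CM} [Og 𝒜] [MeasurableSpace SU2] [BorelSpace SU2]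
  (h : Measure SU2) [h.IsHaarMeasure] [IsProbabilityMeasure h] (b : ℝ) (n : ℕ) [NeZero n] {d : ℕ}

/-- the correlation of a letter with its mirror image at the distance `2 u` -/
def Gq (u : ℕ) (c : V0 𝒜) : ℝ := cm h b n ![rB 𝒜 (Wd.rf 0) c, c] ![Pi.single 0 (2 * u), 0]

theorem oc_cm {k : ℕ} {c : Fin k → V0 𝒜} (hc : ∀ a, c a ∈ Vp 𝒜 d) (x : Fin k → Z4) :
    er h b n (MP_7f377f_mp.Wx.cl (oc h b n) c x) = cm h b n c x := by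
  have e (a) : MvPolynomial.constantCoeff (c a).1 = 0 :=
    MvPolynomial.C_eq_zero.1 ((MvPolynomial.weightedHomogeneousComponent_zero _
      (by simp [Zf.wt])).symm.trans (congrArg Subtype.val (hc a).2))
  unfold MP_7f377f_mp.Wx.cl
  simp [cm, oc, e]

variable (𝒜) in
theorem b2_ub (D : ℕ) : ∃ C ≥ (0 : ℝ), ∀ c ∈ Vp 𝒜 D, ∀ e ∈ Vp 𝒜 D,
    Zg.b2 𝒜 ![(2 : ℝ) • Zf.ee 0, 0] c e ≤ C * (‖c‖ * ‖e‖) := by
  obtain ⟨C, C0, q⟩ := Zg.fp_ub (𝒜 := 𝒜) (ι := Fin 2) D one_pos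
  refine ⟨C, C0, fun c hc e he => ?_⟩
  have u := q ![c, e] ![(2 : ℝ) • Zf.ee 0, 0] (Fin.forall_fin_two.2 ⟨hc.1, he.1⟩)
    (by simp [Zg.Sep, norm_smul, Zf.ee])
  rw [← Zg.b2_fp, Fin.prod_univ_two] at u
  exact (abs_le.1 u).2

variable (𝒜) in
theorem Cz.os (D m : ℕ) : ∃ K ≥ (1 : ℝ), ∀ {b : ℝ} {n : ℕ} [NeZero n] {r M R P ε Γ N Hs Pr}
    {pa : B4 → Pr → Pr} {S cp sg},
    Cz (𝒜 := 𝒜) h b n D m r M R P ε Γ N Hs pa S cp sg → ∀ z : ℕ, K * M ≤ z → K * z ≤ R →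
    K * M ^ (m + 2) * z ^ (4 * D + 1) * ε ≤ 1 → ∀ x ∈ Γ, ∀ d ≤ D, ∀ c ∈ Vp 𝒜 d, ∀ y ≥ (0 : ℝ),
      Gq h b n (z * r) c ≤ y ^ 2 → ∃ e ∈ Vp 𝒜 d, N x e = c ∧ ‖e‖ ≤ K * z ^ D * y := by
  obtain ⟨μ, μ0, p⟩ := Zg.pd (𝒜 := 𝒜) D
  obtain ⟨K, k1, E⟩ := Cz.eq 𝒜 h D m
  obtain ⟨K', k2, O⟩ := Cz.off 𝒜 h D m
  have n2 : ‖(2 : ℝ) • Zf.ee 0‖ = 2 := by simp [norm_smul, Zf.ee]
  replace p := p _ _ (Zg.rf_rfL 0 two_ne_zero) (norm_ne_zero_iff.1 (by simp [n2]))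
  replace μ0 : 0 < μ * min 1 (‖(2 : ℝ) • Zf.ee 0‖ ^ 2)⁻¹ ^ D := by rw [n2]; positivity
  generalize μ * min 1 (‖(2 : ℝ) • Zf.ee 0‖ ^ 2)⁻¹ ^ D = μ at p μ0
  obtain ⟨ν, ν1, ν2⟩ : ∃ ν ≥ 1, 2 ≤ ν * μ :=
    ⟨1 + 2 / μ, le_add_of_nonneg_right (by positivity), by rw [add_mul, div_mul_cancel₀ _ μ0.ne']; linarith⟩
  have a1 : K ≤ K * ν := le_mul_of_one_le_right (by linarith) ν1
  have a2 : ν ≤ K * ν := le_mul_of_one_le_left (by linarith) k1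
  refine ⟨2 * (K * ν) + K', by linarith, fun {b n _ r M R P ε Γ N Hs Pr pa S cp sg} H z u v w x hx d hd
    c hc y y0 q => ?_⟩
  have M1 := H.M1
  have e0 := H.e0
  have z1 : K' + 2 ≤ z := by nlinarith
  have z2 : (1 : ℝ) ≤ z := by linarith
  rw [mul_assoc, mul_assoc] at w
  have x1 : M ^ 2 * ε ≤ M ^ (m + 2) * (z ^ (4 * D + 1) * ε) := mul_le_mul
    (pow_le_pow_right₀ M1 (by omega)) (le_mul_of_one_le_left e0 (one_le_pow₀ z2)) e0 (by positivity)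
  have x2 : M ^ m * (z ^ (2 * D) * ε) ≤ M ^ (m + 2) * (z ^ (4 * D + 1) * ε) := by gcongr <;> omega
  have x0 : 0 ≤ M ^ 2 * ε := by positivity
  obtain ⟨B, -, -, -, E⟩ := E H (by nlinarith)
  obtain ⟨e, he, rfl⟩ := ((E.bij d hd).comp (rs_Vp (t := z) (by linarith) d)).2.2 hc
  have he' := vp_mono hd he
  obtain ⟨e', h1, h2, h3⟩ := O H z (by nlinarith) (by nlinarith) (by nlinarith) x hx e he'
  obtain ⟨f, f1, f2⟩ := (B x hx d hd).2.2 hc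
  refine ⟨f, f1, f2, ?_⟩
  rw [(B x hx D le_rfl).2.1 (vp_mono hd f1) (rv_vp _ _ h1) (f2.trans h2.symm)]
  have c1 := mul_le_mul_of_nonneg_left ((abs_le.1 (E.pair (by exact_mod_cast z2) (by nlinarith)
    (by nlinarith) he')).1.trans (sub_le_sub q (p e he'.1))) (show 0 ≤ ν by linarith)
  have c2 : ‖e‖ ≤ ν * y := abs_le_of_sq_le_sq' (by
    nlinarith [mul_le_mul_of_nonneg_right ν2 (sq_nonneg ‖e‖), mul_le_mul_of_nonneg_right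
      (show K * ν * (M ^ m * (z ^ (2 * D) * ε)) ≤ 1 by nlinarith) (sq_nonneg ‖e‖),
      mul_le_mul_of_nonneg_right ν1 (show 0 ≤ ν * y ^ 2 by positivity)]) (by positivity) |>.2
  have c3 := (norm_sub_norm_le e' e).trans (h3.trans (mul_le_of_le_one_left (norm_nonneg _)
    (div_le_one_of_le₀ (by linarith) (by linarith))))
  refine (rs_le z2 h1.1).2.trans ?_
  rw [mul_comm _ (_ ^ D), mul_assoc]
  exact mul_le_mul_of_nonneg_left (by nlinarith) (by positivity)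

end Pool.Agent.Lib.MP_7f377f_mp.Kz

namespace Pool.Agent.Lib.MP_7f377f_mp.RG.Q4.En.Gl

open MeasureTheory Filter Topology Set YM7 L6 RG.Tl Wy Kz
open RG.Wd (B4 gv)
open Wu (Z4)
open Zg (V0 Og r0 fil)

variable {G : Gl} {𝒜 : Set CM} [Og 𝒜] {β : ℕ × ℕ → ℝ} {U : Ultrafilter (ℕ × ℕ)}
  {N : ℕ × ℕ → V0 𝒜 →ₗ[ℝ] V0 𝒜} {A : ℝ → V0 𝒜 ≃ₗ[ℝ] V0 𝒜} (o : G.Oks) (H : G.Charts 𝒜 β)
include o

theorem gs_0 (J k : ℕ) : 0 ∈ G.Gs J k := dg_tk.2 fun m _ e => by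
  rw [tk_zero le_rfl tk_top _ e, rc_eq (n := G.L m) ⟨G.l m, rfl⟩ (zero_mem_box _)]
  exact zero_mem_box _

theorem win_q {j k J n w W : ℕ} (a : j ≤ k + n) (a' : k ≤ j + w) (e : 3 ^ n ≤ G.L k)
    (e' : 3 ^ w ≤ G.L j) (hj : j ≤ J) (hk : k ≤ J) (hW : w + 2 ≤ W) : G.L k ≤ G.L j ^ 2 ∧
      ∃ q, G.L k ^ W * G.rt J k = G.rt J j * q ∧ G.L j ≤ q ∧ q ≤ G.L j ^ (2 * W + n) := by
  have h := (o 0).1
  have L (k) : 0 < G.L k := lt_of_lt_of_le (by norm_num) (h.L_big k)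
  have u {j k w} (a : k ≤ j + w) (e : 3 ^ w ≤ G.L j) (hk : k ≤ J) :
      G.L k ≤ G.L j ^ 2 ∧ G.rt J j ≤ G.rt J k * G.L k ^ w := by
    refine ⟨(h.L_mono a).trans ((h.L_le (j.le_add_right w)).trans ?_), (le_total j k).elim
      (fun v => (h.rt_rt v hk).trans_le (Nat.mul_le_mul_left _ ((h.rt_le _ v).trans
        (Nat.pow_le_pow_right (L k) (by omega))))) fun v => (Nat.pow_le_pow_right (by norm_num)
          (Nat.sub_le_sub_left (h.sch.mono.monotone v) _)).trans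
            (Nat.le_mul_of_pos_right _ (pow_pos (L k) _))⟩
    rw [Nat.add_sub_cancel_left, sq]
    exact Nat.mul_le_mul_right _ e
  obtain ⟨u1, u2⟩ := u a' e' hk
  obtain ⟨u3, u4⟩ := u a e hj
  have r : 0 < G.rt J j := pow_pos three_pos _
  have v : G.rt J j * G.L j ≤ G.L k ^ W * G.rt J k := (Nat.mul_le_mul u2 u3).trans (by
    rw [mul_assoc, ← pow_add, mul_comm]
    exact Nat.mul_le_mul_right _ (Nat.pow_le_pow_right (L k) hW))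
  obtain ⟨q, hq⟩ : G.rt J j ∣ G.L k ^ W * G.rt J k := by
    replace v := (Nat.le_mul_of_pos_right _ (L j)).trans v
    rw [L_eq, rt, rt, ← pow_mul, ← pow_add] at v ⊢
    exact pow_dvd_pow _ ((Nat.pow_le_pow_iff_right (by norm_num)).1 v)
  refine ⟨u1, q, hq, Nat.le_of_mul_le_mul_left (hq ▸ v) r, Nat.le_of_mul_le_mul_left
    (hq ▸ (Nat.mul_le_mul (Nat.pow_le_pow_left u1 W) u4).trans_eq ?_) r⟩
  ring

include H

theorem os_of : ∀ s ≥ 2, ∀ᶠ C in atTop, ∃ c₀ : ℕ, ∀ W : ℕ, ∃ c₁ : ℕ, ∀ᶠ k in atTop, ∀ᶠ p in fast,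
    ∀ z : ℕ, G.L k ^ c₀ ≤ z → z ≤ G.L k ^ W → ∀ x ∈ G.Gs p.2 k, ∀ d ≤ s, ∀ c ∈ Vp 𝒜 d, ∀ y ≥ (0 : ℝ),
      Gq (Fi.tr haar) (β p) (G.nn p) (z * G.rt p.2 k) c ≤ y ^ 2 →
        (G.wm p.1).Os 𝒜 s C d (β p) p.2 k x c (G.L k ^ c₁ * y) := fun s s2 => by
  obtain ⟨K, k1, E⟩ := Cz.os 𝒜 (Fi.tr haar) s 2
  filter_upwards [H s s2] with C a
  obtain ⟨c, a⟩ := a 2 le_rfl
  refine ⟨1 + c, fun W => ?_⟩
  obtain ⟨c₁, a⟩ := a (1 + c * (2 + 2) + W * (4 * s + 1)) (1 + W)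
  refine ⟨c₁ + (1 + W * s), ?_⟩
  filter_upwards [a, (o 0).1.ev_L K] with k a (L : K ≤ G.L k)
  filter_upwards [a] with p ⟨M, Hs, Pr, pa, S, cp, sg, P, Z, a, _⟩ z u v x hx d hd e he y y0 q
  replace u : (G.L k : ℝ) ^ (1 + c) ≤ z := by exact_mod_cast u
  replace v : (z : ℝ) ≤ G.L k ^ W := by exact_mod_cast v
  obtain ⟨f, hf, rfl, w⟩ := E Z z (le_trans (by rw [pow_add, pow_one]; gcongr) u)
    (by rw [pow_add, pow_one]; gcongr) (by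
      rw [← div_eq_mul_inv, div_le_one (pow_pos (by linarith) _), pow_add _ (1 + _), pow_add _ 1,
        pow_one, pow_mul, pow_mul]
      gcongr) x hx d hd e he y y0 q
  refine (a x hx d hd f hf).imp fun t i => ⟨i.1, i.2.trans ?_⟩
  rw [pow_add, mul_assoc, pow_add, pow_one, pow_mul]
  exact mul_le_mul_of_nonneg_left (w.trans (by gcongr)) (by positivity)

theorem Ny.own (Y : G.Ny 𝒜 β U N A) :
    ∀ s ≥ 2, ∀ᶠ C in atTop, ∀ᶠ k in atTop, ∃ K, ∀ᶠ p in fast, ∀ x ∈ G.Gs p.2 k, ∀ d ≤ s,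
    ∀ c ∈ Vp 𝒜 d, (G.wm p.1).Os 𝒜 s C d (β p) p.2 k x (N p c) (K * ‖c‖) := fun s s2 => by
  filter_upwards [os_of o H s s2] with C ⟨c₀, a⟩
  obtain ⟨D, hD, c, Y⟩ := Y.lev (s + c₀)
  obtain ⟨c₁, a⟩ := a (c + D)
  obtain ⟨B, B0, q⟩ := b2_ub 𝒜 s
  filter_upwards [a, Y] with k a ⟨K, K0, Y⟩
  refine ⟨G.L k ^ c₁ * (√(B + (G.L k ^ (c + D) : ℕ) ^ (2 * s)) * K), ?_⟩
  filter_upwards [a, Y] with p a ⟨M, Z, Y⟩ x hx d hd e he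
  have L : (1000 : ℝ) ≤ G.L k := (o 0).1.L1 k
  have L' : 1000 ≤ G.L k := (o 0).1.L_big k
  have z1 : (1 : ℝ) ≤ (G.L k ^ (c + D) : ℕ) := by exact_mod_cast one_le_pow₀ (by omega)
  obtain ⟨f, f1, f2, f3⟩ := Y d (by omega) e he
  obtain ⟨f, hf, rfl⟩ := (rs_Vp (t := (G.L k ^ (c + D) : ℕ)) (by linarith) d).2.2 f1
  have c1 := (abs_le.1 ((Z.ce.mono (d := s) (ε' := 1) (by omega) le_rfl le_rfl (inv_le_one_of_one_le₀
    (one_le_pow₀ (by linarith)))).pair (z := G.L k ^ (c + D)) (by positivity) (by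
      have := pow_le_pow_right₀ (show (1 : ℝ) ≤ G.L k by linarith) (c.le_add_right D)
      push_cast at z1 ⊢
      linarith) (by
      push_cast
      exact le_trans (by rw [pow_succ']; gcongr; linarith) (pow_le_pow_right₀
        (m := c + D + 1) (by linarith) (by omega))) (vp_mono hd hf))).2
  have c2 := q _ (r0_vp (Pur.rfL 0) _ (vp_mono hd hf)) _ (vp_mono hd hf)
  have c3 := pow_le_pow_left₀ (norm_nonneg _) (((rs_le z1 hf.1).1.trans_eq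
    (congrArg _ (sub_zero _).symm)).trans f3) 2
  rw [mul_assoc, ← f2]
  refine a _ (Nat.pow_le_pow_right (by omega) (by omega)) le_rfl x hx d hd _
    ((Z.ce.bij d (by omega)).1 f1) _ (by positivity) ?_
  rw [mul_assoc, mul_pow, Real.sq_sqrt (by positivity)]
  rw [Zg.norm_r0, ← sq] at c2
  exact le_trans (by unfold Gq; linarith) (mul_le_mul_of_nonneg_left c3 (by positivity))

theorem Ny.owt (hU : U ≤ fast) (Y : G.Ny 𝒜 β U N A)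
    (ax : ∀ (D m n M : ℕ), ∀ κ ≥ (1 : ℝ), ∀ δ > (0 : ℝ), ∀ᶠ t in 𝓝[>] (0 : ℝ),
    ∀ᶠ p in (U : Filter (ℕ × ℕ)), ∃ T : Z4 → V0 𝒜 →ₗ[ℝ] V0 𝒜, (∀ x v : Z4, T (x + (G.rt p.2 (G.kt t) : ℤ) • v) = T x) ∧
      (∀ x ∈ G.Gs p.2 (G.kt t), T x (Zg.u0 𝒜) = Zg.u0 𝒜 ∧
        (∀ d ≤ D, BijOn (T x) (Vp 𝒜 d) (Vp 𝒜 d)) ∧ ∀ σ ∈ Icc (1 : ℝ) (G.L (G.kt t) ^ n),
          Kz.Nr (Vp 𝒜 D) (T x ∘ₗ Kz.rs 𝒜 σ) (Kz.rs 𝒜 σ) .id δ ∧ Kz.Nr (Vp 𝒜 D) (Kz.rs 𝒜 σ) (T x ∘ₗ Kz.rs 𝒜 σ) .id δ) ∧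
      ∀ k ≤ m, ∀ (x : Fin k → Z4) (e : Fin k → V0 𝒜),
        (∀ a, x a ∈ G.Gs p.2 (G.kt t) ∧ e a ∈ (Zg.fil 𝒜).F D) →
        (∀ a a', a ≠ a' → Kz.Ds (t / κ / G.aa p) (G.L (G.kt t) ^ n * t / G.aa p) (x a) (x a')) →
        |t ^ (4 * k) * Wy.er (Fi.tr haar) (β p) (G.nn p)
          (MP_7f377f_mp.Wx.cl (G.Oz 𝒜 β N p) (fun a => A t (T (x a) (e a))) x) - Kz.fq (t / G.aa p) e x| ≤
            (G.L (G.kt t) ^ M : ℝ)⁻¹ * ∏ a, ‖e a‖) :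
    ∀ s ≥ 2, ∀ᶠ C in atTop, ∀ w, ∃ c₁ : ℕ, ∀ n, ∀ᶠ t in 𝓝[>] (0 : ℝ), ∀ᶠ p in (U : Filter (ℕ × ℕ)),
    ∀ k, G.kt t ≤ k + n → k ≤ G.kt t + w → ∀ x ∈ G.Gs p.2 k, ∀ d ≤ s, ∀ c ∈ Vp 𝒜 d,
      (G.wm p.1).Os 𝒜 s C d (β p) p.2 k x (N p (A t c))
        (G.L (G.kt t) ^ c₁ / t ^ 4 * ‖Kz.rs 𝒜 (t / G.aa (0, k)) c‖) := fun s s2 => by
  filter_upwards [os_of o H s s2] with C ⟨c₀, a⟩ w
  obtain ⟨W, W1, W2⟩ : ∃ W, c₀ ≤ W ∧ w + 2 ≤ W := ⟨c₀ + (w + 2), by omega, by omega⟩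
  obtain ⟨c₁, a⟩ := a W
  obtain ⟨B, B0, Q⟩ := b2_ub 𝒜 s
  refine ⟨2 * c₁ + 1, fun n => ?_⟩
  obtain ⟨k₀, a⟩ := eventually_atTop.1 (a.and (((o 0).1.L_nat.eventually_ge_atTop (3 ^ (n + w))).and
    ((o 0).1.ev_L (4 * B + 4))))
  filter_upwards [ax s 2 (2 * W + n + 1) ((2 * W + n + 1) * (2 * s)) 1 le_rfl 1 one_pos, kt_ev o,
    (kt_top o).eventually_ge_atTop (k₀ + n)] with t ax ⟨t0, t1, t2⟩ t3
  generalize G.kt t = j at ax t1 t2 t3 ⊢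
  filter_upwards [ax, hU ((eventually_all_finite (finite_Icc k₀ (j + w))).2 fun k hk =>
    (a k hk.1).1), hU (ev_lev o (j + w)), hU (Y.bij s)] with p ⟨T, T1, T2, T3⟩ a' (hp : _ ≤ p.2)
    ⟨b1, _, b2⟩ k k1 k2 x hx d hd c hc
  obtain ⟨l1, q, q1, q2, q3⟩ := win_q o k1 k2 ((Nat.pow_le_pow_right three_pos (n.le_add_right w)).trans
    (a k (by omega)).2.1) ((Nat.pow_le_pow_right three_pos (w.le_add_left n)).trans
      (a j (by omega)).2.1) (show j ≤ p.2 by omega) (by omega) W2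
  have L : 4 * B + 4 ≤ G.L j := (a j (by omega)).2.2
  have L' : 1000 ≤ G.L k := (o 0).1.L_big k
  have i1 : G.aa p * G.rt p.2 j = G.aa (0, j) := aa_rt o (by omega)
  have i2 : G.aa p * G.rt p.2 k = G.aa (0, k) := aa_rt o (by omega)
  have i3 := G.aa_pos p
  have i4 := G.aa_pos (0, j)
  have i5 := G.aa_pos (0, k)
  have q4 : (G.L k ^ W * G.rt p.2 k : ℝ) = G.rt p.2 j * q := by exact_mod_cast q1
  replace q2 : (G.L j : ℝ) ≤ q := by exact_mod_cast q2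
  replace q3 : 2 * (q : ℝ) ≤ G.L j ^ (2 * W + n + 1) := by
    rw [pow_succ']
    exact mul_le_mul (by linarith) (by exact_mod_cast q3) (by positivity) (by positivity)
  obtain ⟨σ, σ0⟩ : ∃ σ, σ * t = q * G.aa (0, j) := ⟨_, div_mul_cancel₀ _ t0.ne'⟩
  have σ1 : 1 ≤ σ := le_of_mul_le_mul_right (by rw [σ0, one_mul]; exact t2.trans (by gcongr)) t0
  have σ2 : 2 * σ ≤ G.L j ^ (2 * W + n + 1) :=
    le_trans (le_of_mul_le_mul_right (by rw [mul_assoc, σ0, mul_assoc]; gcongr) t0) q3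
  have σ3 : σ * (t / G.aa p) = G.rt p.2 j * q := by
    rw [← mul_div_assoc, σ0, ← i1]
    field_simp
  have m : ∀ i, ![rB 𝒜 (Wd.rf 0) c, c] i ∈ Vp 𝒜 s :=
    Fin.forall_fin_two.2 ⟨rB_vp _ _ (vp_mono hd hc), vp_mono hd hc⟩
  have mA {d c} (hc : c ∈ Vp 𝒜 d) : A t c ∈ Vp 𝒜 d :=
    ⟨(Y.up t).1 _ _ hc.1, (Y.c0 t c).symm.trans ((congrArg _ hc.2).trans (map_zero _))⟩
  generalize hν : ‖Kz.rs 𝒜 (t / G.aa (0, k)) c‖ = ν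
  have ν0 : 0 ≤ ν := hν ▸ norm_nonneg _
  have σ4 : σ⁻¹ ≠ 0 := by positivity
  choose e e1 e2 e3 using fun i => ((T2 0 (gs_0 o _ _)).2.2 σ ⟨σ1, by linarith⟩).1 _
    ((rs_Vp σ4 _).1 (m i))
  have u : ∀ i, ‖Kz.rs 𝒜 σ⁻¹ (![rB 𝒜 (Wd.rf 0) c, c] i)‖ = ‖Kz.rs 𝒜 σ⁻¹ c‖ :=
    Fin.forall_fin_two.2 ⟨(congrArg _ (rs_rB ..)).trans (rB_norm ..), rfl⟩
  replace e3 (i) : ‖e i‖ ≤ 2 * ν := by
    have := (rs_le (t := G.L k ^ W) (one_le_pow₀ (by exact_mod_cast le_trans (by norm_num) L'))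
      ((rs_Vp σ4 _).1 hc).1).1
    rw [rs_mul, show (G.L k : ℝ) ^ W * σ⁻¹ = t / G.aa (0, k) by
      field_simp
      rw [σ0, ← i1, ← i2]
      linear_combination G.aa p * q4, hν] at this
    have v := (norm_sub_norm_le _ _).trans (e3 i)
    rw [LinearMap.id_apply, u] at v
    linarith
  have xs : ∀ i, (![Pi.single 0 (2 * (G.L k ^ W * G.rt p.2 k : ℕ)), 0] : Fin 2 → Z4) i =
      0 + (G.rt p.2 j : ℤ) • (![Pi.single 0 (2 * q), 0] : Fin 2 → Z4) i := Fin.forall_fin_two.2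
    ⟨by simp [q1, ← Pi.single_smul, mul_left_comm], by simp⟩
  have q0 : (0 : ℝ) < q := by linarith
  have r0 : (0 : ℝ) < G.rt p.2 j := Nat.cast_pos.2 (pow_pos three_pos _)
  have ds : Kz.Ds (t / 1 / G.aa p) (G.L j ^ (2 * W + n + 1) * t / G.aa p)
      (Pi.single 0 (2 * (G.L k ^ W * G.rt p.2 k : ℕ))) 0 := by
    have v : 0 < t / G.aa p := by positivity
    have z : |(2 * (G.rt p.2 j * q) : ℝ)| = 2 * σ * (t / G.aa p) := by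
      rw [abs_of_nonneg (by positivity), mul_assoc, σ3]
    refine ⟨⟨0, ?_⟩, fun l => ?_⟩
    · simp [q4, z, show 1 ≤ 2 * σ by linarith, v]
    by_cases v' : l = 0
    · simp [v', q4, z, mul_div_assoc, v, σ2]
    · simp [v', mul_div_assoc, v.le, mul_nonneg]
  have := T3 2 le_rfl ![Pi.single 0 (2 * (G.L k ^ W * G.rt p.2 k : ℕ)), 0] (fun i => Kz.rs 𝒜 σ (e i))
    (fun i => ⟨xs i ▸ (o 0).1.dg_add (gs_0 o _ _) _, ((rs_Vp (by positivity) _).1 (e1 i)).1⟩)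
    fun i i' v => by
      fin_cases i <;> fin_cases i'
      exacts [(v rfl).elim, ds, ds.symm, (v rfl).elim]
  have e4 (i) : T ((![Pi.single 0 (2 * (G.L k ^ W * G.rt p.2 k : ℕ)), 0] : Fin 2 → Z4) i)
      (Kz.rs 𝒜 σ (e i)) = ![rB 𝒜 (Wd.rf 0) c, c] i := by
    rw [xs, T1]
    exact (e2 i).trans ((rs_inv (by positivity)).2 trivial)
  have e5 : (fun i => pz (G.rt p.2 j * q : ℝ)⁻¹ ((![Pi.single 0 (2 * (G.L k ^ W * G.rt p.2 k : ℕ)), 0] :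
      Fin 2 → Z4) i)) = ![(2 : ℝ) • Zf.ee 0, 0] := funext (Fin.forall_fin_two.2 ⟨by
    ext l
    by_cases e : l = 0 <;> simp [pz, Zf.ee, e, q4]
    field_simp, by ext; simp [pz]⟩)
  have e6 : (fun i => N p (A t (![rB 𝒜 (Wd.rf 0) c, c] i))) =
      ![rB 𝒜 (Wd.rf 0) (N p (A t c)), N p (A t c)] :=
    funext (Fin.forall_fin_two.2 ⟨(congrArg _ (Y.cm ..)).trans (b2 _ _ (mA (m 1)).1), rfl⟩)
  have e7 (i) : ‖Kz.rs 𝒜 σ (e i)‖ ≤ (G.L j ^ (2 * W + n + 1)) ^ s * (2 * ν) :=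
    (rs_le σ1 (e1 i).1).2.trans (by gcongr; exacts [by linarith, e3 i])
  simp only [e4] at this
  rw [fq_rs (by positivity), σ3, fq_two, e5, Fin.prod_univ_two, show Wy.er _ _ _
    (MP_7f377f_mp.Wx.cl (G.Oz 𝒜 β N p) (fun i => A t (![rB 𝒜 (Wd.rf 0) c, c] i)) _) = Gq _ _ _ _ _ from
      (oc_cm _ _ _ (fun i => b1.1 (mA (m i))) _).trans (congrArg (Kz.cm _ _ _ · _) e6)] at this
  refine (a' k ⟨by omega, k2⟩ _ (Nat.pow_le_pow_right (by omega) W1) le_rfl x hx d hd _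
    ⟨Y.fil p d _ (mA hc).1, (b1.1 (mA (m 1))).2⟩ (G.L j / t ^ 4 * ν) (by positivity) ?_).imp
      fun _ i => ⟨i.1, i.2.trans ?_⟩
  · rw [div_mul_eq_mul_div, div_pow, le_div_iff₀' (by positivity), ← pow_mul]
    have c1 := mul_le_mul_of_nonneg_left (mul_le_mul (e3 0) (e3 1) (norm_nonneg _) (by positivity)) B0
    have c2 := (inv_mul_le_iff₀ (show (0 : ℝ) < G.L j ^ ((2 * W + n + 1) * (2 * s)) from
      pow_pos (by linarith) _)).2 ((mul_le_mul (e7 0) (e7 1) (norm_nonneg _) (by positivity)).trans_eq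
        (show _ = _ * (4 * ν ^ 2) by ring))
    have c3 := mul_le_mul_of_nonneg_right (L.trans (le_self_pow₀ (by linarith) two_ne_zero))
      (sq_nonneg ν)
    linarith [(abs_le.1 (this.trans c2)).2, Q _ (e1 0) _ (e1 1)]
  · rw [← mul_assoc, ← mul_div_assoc, pow_succ _ (2 * c₁), pow_mul]
    gcongr
    exact_mod_cast l1

end Pool.Agent.Lib.MP_7f377f_mp.RG.Q4.En.Gl
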