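import Pool.Agent.Lib.MP_7f377f_mp.G.KzU

/-! Correlation functions of labels with a unit part. -/

noncomputable section

set_option linter.unusedSectionVars false
variable [Pool.Agent.Lib.MP_7f377f_mp.GD]

namespace Pool.Agent.Lib.MP_7f377f_mp.Kz

open MeasureTheory Filter Set YM7 L6 RG RG.Tl RG.Q4 RG.Q4.En Wy MvPolynomial
open Wu (Z4)
open Zg (V0 Og r0 fil u0)

variable {𝒜 : Set CM} [Og 𝒜] [MeasurableSpace SU2] [BorelSpace SU2]
  {h : Measure SU2} [h.IsHaarMeasure] [IsProbabilityMeasure h] {b : ℝ} {n k : ℕ} [NeZero n]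

theorem prod_emb {M : Type} [CommMonoid M] (s : Finset (Fin k)) (F : Fin k → M) :
    ∏ a ∈ s, F a = ∏ a, F (s.orderEmbOfFin rfl a) := by
  conv_lhs => rw [← s.map_orderEmbOfFin_univ rfl, Finset.prod_map]
  rfl

theorem unit_exp {u ε : ℝ} {x : Fin k → Z4} {c e : Fin k → V0 𝒜} {r y : Fin k → ℝ}
    (hc : ∀ a, constantCoeff (c a).1 = 0) (H : ∀ j (f : Fin j ↪o Fin k),
      |cm h b n (fun a => c (f a)) (fun a => x (f a)) - fq u (fun a => e (f a)) fun a => x (f a)| ≤
        ε * ∏ a, y (f a)) :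
    |er h b n (Wx.cl (oc h b n) (fun a => c a + r a • u0 𝒜) x) - fq u (fun a => e a + r a • u0 𝒜) x| ≤
      ε * ∏ a, (y a + |r a|) := by
  have e1 : er h b n (Wx.cl (oc h b n) (fun a => c a + r a • u0 𝒜) x) = ∑ s ∈ Finset.univ.powerset,
      cm h b n (fun a => c (s.orderEmbOfFin rfl a)) (fun a => x (s.orderEmbOfFin rfl a)) *
        ∏ a ∈ Finset.univ \ s, r a := by
    have : ∀ a U, oc h b n (c a + r a • u0 𝒜) U = ct h b n (lt 𝒜 (c a)) U + r a := fun a U => by
      rw [map_add, map_smul, oc_u0]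
      exact congrArg₂ (· + ·) ((congrArg (_ + ·) (hc a)).trans (add_zero _)) (mul_one _)
    simp only [er, Wx.cl, this, Finset.prod_add, cm, ← integral_mul_const]
    exact (integral_finsetSum _ fun s _ => (((continuous_finsetProd _ fun a _ => (ct_cont _).comp
      (cont_tz _)).comp cont_lf).integrable_of_hasCompactSupport (.of_compactSpace _)).mul_const _).trans
        (Finset.sum_congr rfl fun s _ => by simp only [prod_emb s]; rfl)
  have e2 : fq u (fun a => e a + r a • u0 𝒜) x = ∑ s ∈ Finset.univ.powerset,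
      fq u (fun a => e (s.orderEmbOfFin rfl a)) (fun a => x (s.orderEmbOfFin rfl a)) *
        ∏ a ∈ Finset.univ \ s, r a := by
    simp only [fq, Zf.fp_eq _ fun a => pz u⁻¹ (x a), Zf.Rn, Submodule.coe_add, Submodule.coe_smul, u0,
      map_add, map_smul, map_one, Finset.prod_add, map_sum, Finset.prod_smul, Finset.prod_const_one,
      mul_smul_comm, mul_one, smul_eq_mul]
    exact Finset.sum_congr rfl fun s _ => (mul_comm _ _).trans (congrArg (· * _)
      ((congrArg _ (prod_emb s _)).trans (Zf.fp_comp _ _ _).symm))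
  rw [e1, e2, ← Finset.sum_sub_distrib, Finset.prod_add, Finset.mul_sum]
  refine (Finset.abs_sum_le_sum_abs _ _).trans (Finset.sum_le_sum fun s _ => ?_)
  rw [← sub_mul, abs_mul, Finset.abs_prod, ← mul_assoc, prod_emb s y]
  exact mul_le_mul_of_nonneg_right (H _ _) (by positivity)

end Pool.Agent.Lib.MP_7f377f_mp.Kz
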