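import Pool.Agent.Lib.MP_7f377f_mp.G.KzN
import Pool.Agent.Lib.MP_7f377f_mp.G.KzV

/-! Letters which are labels up to a negligible letter. -/

noncomputable section

namespace Pool.Agent.Lib.MP_7f377f_mp.Wx
variable [Pool.Agent.Lib.MP_7f377f_mp.GD]
set_option linter.unusedSectionVars false

open MeasureTheory Filter Topology Set Real YM7 Weak L6 Wy Sw Function
open Wu (Z4)

variable {V : Type} [NormedAddCommGroup V] [NormedSpace ℝ V] (Φ : Fil V)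
  [MeasurableSpace SU2] [BorelSpace SU2] (h : Measure SU2) [h.IsHaarMeasure]
  [IsProbabilityMeasure h] (n : ℕ × ℕ → ℕ) [∀ p, NeZero (n p)] (a b : ℕ × ℕ → ℝ)
  (O : ℕ × ℕ → V →ₗ[ℝ] Fz → ℝ) (X : ℕ × ℕ → Fz → ℝ)

/-- the mixed bound for `X` minus a label; each mirror image has its own label -/
def Rj (ε : ℕ × ℕ → ℝ) (A₀ : Set V) (e : ℕ) (C K K' : ℝ) (m : (Fin 4 → Bool) → ℕ × ℕ → V) : Prop :=
  ∀ᶠ p in fast, ∃ (lam : ℕ) (L : Set ((Fz → ℝ) × ℝ)), a p * lam = 9 / 3 ^ e ∧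
    E0 h (b p) (n p) lam Prod.fst L Prod.snd C ∧ ∀ g,
      (mr g 0 (X p - O p (m g p)), K * ε p) ∈ L ∧ ∀ d ∈ A₀, (mr g 0 (O p d), K') ∈ L

/-- the same at all scales -/
def Rt (D : ℕ) (ε : ℕ × ℕ → ℝ) (P : (ℕ × ℕ → V) → Prop) : Prop :=
  ∀ A₀ : Set V, A₀.Finite → ∃ (C : ℝ) (s : ℕ), 0 ≤ C ∧ ∀ e : ℕ, ∃ (K : ℝ) (m : _), 0 ≤ K ∧
    (∀ g p, m g p ∈ Φ.F D) ∧ P (m fun _ => true) ∧
      Rj h n a b O X ε A₀ e (C * (e + 1)) K (3 ^ (s * (e + 1))) m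

variable {Φ h n a b O X} {U : Ultrafilter (ℕ × ℕ)} {θ : Fin 4 → V → V} {A : ℝ → V ≃ₗ[ℝ] V}
  {fp : ∀ k, (Fin k → V) → (Fin k → R4) → ℝ} {D : ℕ} {ε : ℕ × ℕ → ℝ} {P : (ℕ × ℕ → V) → Prop}

theorem ej_smul {ι β : Type} {Ψ : Filter ι} {n : ι → ℕ} [∀ i, NeZero (n i)] {b : ι → ℝ}
    {O O' : ι → β → Fz → ℝ} {r A w lam C} (E : EJ h Ψ n b O r A w lam C) {τ : ι → β → ℝ}
    (h1 : ∀ i c, |τ i c| ≤ 1) (h2 : ∀ i μ c, τ i (r μ c) = τ i c)
    (h3 : ∀ i c W, O' i c W = τ i c * O i c W) : EJ h Ψ n b O' r A w lam C := by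
  obtain rfl : O' = fun i c W => τ i c * O i c W := funext₃ h3
  refine ⟨E.fin, E.cl, E.pos, E.lt.imp fun K u => u.mono fun i u => ⟨fun c hc =>
    (u.cont c hc).const_mul _, fun c hc _ _ e => congrArg _ (u.dep c hc e), fun μ c hc W => by
      rw [h2, u.rf μ c hc], fun c hc W => (abs_mul _ _).trans_le
        ((mul_le_of_le_one_left (abs_nonneg _) (h1 i c)).trans (u.bd c hc W))⟩,
    E.e0.mono fun i => .imp fun m u => ⟨u.1, fun s σ hσ => le_trans ?_ (u.2 s σ hσ)⟩⟩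
  simp only [Finset.prod_mul_distrib, integral_const_mul, abs_mul, Finset.abs_prod]
  exact mul_le_of_le_one_left (abs_nonneg _) (Finset.prod_le_one (by simp) fun x _ => h1 _ _)

/-- multiples of negligible letters -/
theorem en_smul {O : ℕ × ℕ → V → Fz → ℝ} (E : EN h n a b (Oe O X) (θe θ) (range Sum.inr))
    {t : ℕ × ℕ → ℝ} (ht : ∀ p, |t p| ≤ 1) :
    EN h n a b (Oe O fun p => t p • X p) (θe θ) (range Sum.inr) := fun A h1 h2 =>
  (E A h1 h2).imp fun _ => .imp fun _ u => ⟨u.1, fun e η η0 => (u.2 e η η0).mono fun J =>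
    .imp fun _ v => ⟨v.1, ej_smul v.2 (τ := fun s c => c.elim 1 fun _ => t (3 ^ s / 2, J))
      (by rintro s (c | c) <;> simp [ht]) (by rintro s μ (c | c) <;> rfl)
      (by rintro s (c | c) W <;> simp [Oe])⟩⟩

theorem co_le {n lam : ℕ} [NeZero n] {b u v : ℝ} {X Y : Fz → ℝ} (h1 : ∀ W, |X W| ≤ u)
    (h2 : ∀ W, |Y W| ≤ v) : |co h n lam b X Y| ≤ u * v := by
  rw [co, ← Real.norm_eq_abs, ← mul_one (u * v), ← probReal_univ (μ := wilson h b n)]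
  exact norm_integral_le_of_norm_le_const (.of_forall fun _ => (abs_mul _ _).trans_le
    (mul_le_mul (h1 _) (h2 _) (abs_nonneg _) ((abs_nonneg _).trans (h1 1))))

variable (S : Sd Φ h n a b U O θ A fp) {A₀ : Set V} {e e' N : ℕ} {C K K' K₁ κ : ℝ}
  {m : (Fin 4 → Bool) → ℕ × ℕ → V} {bs : Fin N → V} {T : Finset V}
include S

theorem Sd.ef {β : Type} {Q : ℕ × ℕ → β → Fz → ℝ} {r : Fin 4 → β → β} (P : Pl Q r) {B : Set β}
    (hB : B.Finite) {w : β → ℝ} (cl : ∀ μ, ∀ c ∈ B, r μ c ∈ B ∧ r μ (r μ c) = c ∧ w (r μ c) = w c)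
    (pos : ∀ c ∈ B, 0 < w c) (K : ℕ → ℝ) (hG : ∀ᶠ p in fast, (∀ c ∈ B, ∀ W, |Q p c W| ≤ K p.2) ∧
      ∀ lam : ℕ, a p * lam = 9 / 3 ^ e → E0 h (b p) (n p) lam (Q p) B w C) :
    EF h n a b Q r (fun _ => B) (fun _ => w) (9 / 3 ^ e) C := by
  choose R hR using P.loc
  obtain ⟨ρ, hρ⟩ := (hB.image R).bddAbove
  filter_upwards [S.dv e, ev_fast.1 (hG.and ((S.dvF e 0 (10 * ρ)).and (eventually_all.2 fun μ =>
    (eventually_all_finite hB).2 fun c _ => P.rf μ c)))] with J ⟨lam, u, _⟩ v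
  refine ⟨lam, u, hB, cl, pos, ⟨K J, v.mono fun s v => ⟨fun c _ => (hR c _).1, fun c hc =>
    (Lc.mono (hR c _) ((hρ ⟨c, hc, rfl⟩).trans ?_)).2, v.2.2, v.1.1⟩⟩,
      v.mono fun s v => v.1.2 _ (S.fm.aJ _ ▸ u)⟩
  have := (v.2.1.2 lam (S.fm.aJ _ ▸ u)).2.2
  omega

theorem Rj.coarse (C0 : 0 ≤ C) (R : Rj h n a b O X ε A₀ (e + e') C K K' m) :
    Rj h n a b O X ε A₀ e (C * (3 ^ e' : ℕ) ^ 4) K K' m := by
  filter_upwards [R, S.dvF e e' 0] with p ⟨lam, L, u1, u2, u3⟩ ⟨_, v⟩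
  exact ⟨_, L, (v lam u1).1, Wx.coarse u2 (v lam u1).2.1 C0, u3⟩

theorem Rj.tau (B : Bs (Φ.F D) bs κ) (K1 : 0 ≤ K₁) (C0 : 0 ≤ C) (K0 : 0 ≤ K) (K2 : 0 ≤ K')
    (e0 : ∀ p, 0 ≤ ε p) (hm : ∀ g p, m g p ∈ Φ.F D) (hA : range bs ∪ T ⊆ A₀)
    (hX : ∃ r, ∀ p, Lc r (X p)) (R : Rj h n a b O X ε A₀ (e + 1) C K K' m) :
    ∃ M, 0 ≤ M ∧ ∀ᶠ p in fast, ∀ lam : ℕ, a p * lam = 9 / 3 ^ (e + 1) →
      (∀ c ∈ Φ.F D, ‖c‖ ≤ K₁ * ∑ d ∈ T, |co h (n p) lam (b p) (O p d) (O p c)|) → ∀ g,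
        ∑ d ∈ T, |co h (n p) lam (b p) (O p d) (X p - O p (m g p))| ≤ M * ε p := by
  have κ0 := B.1
  obtain ⟨r', hX⟩ := hX
  obtain ⟨r, hr⟩ := S.lc ((finite_range bs).union T.finite_toSet)
  refine ⟨(1 + (T.card * K') ^ 16 * exp (256 * (C * 81)) * (1 + K' * κ * (K₁ * 2)) ^ 15) * K,
    by positivity, ?_⟩
  filter_upwards [R, S.dvF e 1 (r + r' + 5), S.odd, S.fm.b0]
    with p ⟨l, L, u1, u2, u3⟩ ⟨a0, v⟩ o b0 lam w nd g
  obtain rfl : l = lam := Nat.cast_injective (mul_left_cancel₀ a0.ne' (u1.trans w.symm))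
  rw [mul_assoc _ K]
  exact core B b0 (v l w).2.1 o C0 u2 K2 K1 (mul_nonneg K0 (e0 p)) (r := r + r') (r' := 0)
    (v l w).2.2 (by simp) ((hX p).mono (by simp)) (fun i => (hr p _ (by simp)).mono (by simp))
    (fun d hd => (hr p _ (by simp [hd])).mono (by simp)) nd (fun g => hm g p) (fun g => (u3 g).1)
    (fun g i => (u3 g).2 _ (hA (by simp))) (fun g d hd => (u3 g).2 _ (hA (by simp [hd]))) g

/-- one label for all the mirror images -/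
theorem Rt.en (R : Rt Φ h n a b O X D ε P) (e0 : ∀ p, 0 ≤ ε p)
    (e1 : Tendsto ε fast (𝓝 0)) (hX : ∃ r, ∀ p, Lc r (X p))
    (hB : ∃ K : ℕ → ℝ, ∀ᶠ p in fast, ∀ W, |X p W| ≤ K p.2) :
    ∃ (ψ : ℕ × ℕ → V) (t : ℕ × ℕ → ℝ), P ψ ∧ (∀ p, ψ p ∈ Φ.F D) ∧ (∀ᶠ p in U, t p = 1) ∧
      EN h n a b (Oe (fun p c => O p c) fun p => t p • (X p - O p (ψ p))) (θe θ)
        (range Sum.inr) := by
  classical
  haveI := Φ.fin D
  obtain ⟨N, bs, κ, B⟩ := ex_bs (Φ.F D)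
  obtain ⟨e₀, T, K₁, K1, nd⟩ := S.ndg D
  obtain ⟨G, hG, nd⟩ := nd.exists_mem
  have f0 := (finite_range bs).union T.finite_toSet
  obtain ⟨C₁, s₁, C1, R1⟩ := R _ f0
  obtain ⟨K₂, m₁, K2, m1, m2, R1⟩ := R1 (e₀ + 1)
  obtain ⟨M₁, M1, hM₁⟩ := R1.tau S B K1 (by positivity) K2 (by positivity) e0 m1 subset_rfl hX
  have κ0 := B.1
  obtain ⟨ρ, hρ⟩ := S.lc f0
  obtain ⟨KX, hB⟩ := hB
  obtain ⟨r, hr⟩ := id hX
  have b1 : ∀ p i, Lc (r + ρ) (O p (bs i)) := fun p i => (hρ p _ (by simp)).mono (by simp)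
  have b2 : ∀ p, Lc (r + ρ) (X p) := fun p => (hr p).mono (by simp)
  refine ⟨_, fun p => if p ∈ G then 1 else 0, m2, m1 _, mem_of_superset hG fun p hp => if_pos hp,
    fun A h1 h2 => ?_⟩
  have f1 := f0.union (h1.preimage Sum.inl_injective.injOn)
  obtain ⟨C, s, C0, R⟩ := R _ f1
  obtain ⟨Y, hY⟩ := S.blF f1
  refine ⟨C * (e₀ + 2) * (3 ^ (e₀ + 1) : ℕ) ^ 4, s * (e₀ + 2), by positivity, fun e η η0 => ?_⟩
  obtain ⟨K, m, K0, m3, -, R⟩ := R (e + (e₀ + 1))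
  obtain ⟨M, M0, hM⟩ := (Rj.coarse S (e' := e) (by positivity) (add_comm e _ ▸ R)).tau S B K1
    (by positivity) K0 (by positivity) e0 m3 subset_union_left hX
  refine S.ef (S.pl.ext ⟨r + ρ, fun p => ?_⟩) h1 (fun μ c hc => ⟨h2 μ c hc, (inv4_e S.inv).1 _ _, by
    cases c <;> simp [θe]⟩) (fun c _ => by positivity) (fun J => Y J + (|KX J| + Y J * κ *
      (K₁ * (T.card * (Y J * |KX J|) + M₁)))) ?_
  · have := (b2 p).sub (B.lc (b1 p) (m1 (fun _ => true) p))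
    exact ⟨this.1.const_smul _, fun _ _ u => congrArg (_ * ·) (this.2 u)⟩
  filter_upwards [R.coarse S (by positivity), hM₁, hM, hY, hB, S.exF (e₀ + 1), S.fm.pos one_pos,
    e1.eventually_le_const one_pos, (by simpa using e1.const_mul _ : Tendsto (fun p =>
      (K + 3 ^ (s * (e + (e₀ + 1) + 1)) * κ * (K₁ * (M₁ + M))) * ε p) fast (𝓝 0)).eventually_le_const η0]
    with p ⟨l, L, u1, u2, u3⟩ v1 v2 ⟨Y0, hY⟩ hB ⟨l', w', _⟩ ⟨a0, _⟩ v3 v4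
  refine ⟨?_, fun lam w => ?_⟩
  · rintro (c | g) hc W
    · exact (hY c (.inr hc) W).trans (le_add_of_nonneg_right (by positivity))
    refine le_add_of_nonneg_of_le Y0 ?_
    by_cases u : p ∈ G <;> simp only [Oe, u, Sum.elim_inr, if_true, if_false, one_smul, zero_smul]
    · refine (abs_sub _ _).trans (add_le_add ((hB _).trans (le_abs_self _)) ((B.le (f := fun c =>
        O p c _) ⟨by simp, by simp⟩ Y0 (fun i => hY _ (by simp) _) (m1 ..)).trans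
          (mul_le_mul_of_nonneg_left ?_ (by positivity))))
      simpa using S.dif K1 (nd p u l' w') (m1 (fun _ => true) p) (zero_mem _) (hr p).1
        ((v1 l' w' (nd p u l' w') _).trans (mul_le_of_le_one_right M1 v3))
        ((T.sum_le_card_nsmul _ (Y p.2 * |KX p.2|) fun d hd => co_le (hY d (by simp [hd]))
          fun W => by simpa using (hB W).trans (le_abs_self _)).trans_eq (nsmul_eq_mul _ _))
    · simp only [Pi.zero_apply, abs_zero]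
      positivity
  obtain rfl : l = lam := Nat.cast_injective (mul_left_cancel₀ a0.ne' (u1.trans w.symm))
  refine (cmb u2 ?_).mono subset_rfl (fun c _ => ⟨by positivity, le_rfl⟩) ?_
  · rintro (c | g) hc
    · refine Sn.one (u := 3 ^ (s * (e + (e₀ + 1) + 1))) ?_ (S.pl.cont p c) (by positivity) ?_
      · convert (u3 fun _ => true).2 c (.inr hc) using 2
        exact funext fun W => by simp [Oe, mr, tw, pw]
      · rw [if_neg (by simp)]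
        exact pow_le_pow_right₀ (by norm_num) (by rw [mul_assoc]; gcongr; nlinarith)
    rw [if_pos ⟨g, rfl⟩]
    by_cases u : p ∈ G
    · convert B.sp (b2 p) (b1 p) (m3 _ p) (m1 (fun _ => true) p) (mul_nonneg K0 (e0 p))
        (by positivity) (u3 fun μ => !g μ).1 (fun i => (u3 _).2 _ (by simp)) (le_trans ?_ v4)
      · exact funext fun W => by simp [Oe, mr, u]
      · have := S.dif K1 (nd p u l' w') (m3 (fun μ => !g μ) p) (m1 (fun _ => true) p) (hr p).1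
          (v2 l' w' (nd p u l' w') _) (v1 l' w' (nd p u l' w') _)
        nlinarith [mul_le_mul_of_nonneg_left this
          (show 0 ≤ 3 ^ (s * (e + (e₀ + 1) + 1)) * κ by positivity)]
    · exact ⟨Unit, ∅, fun _ => 0, 0, by simp, by simpa using η0.le, by simp [Oe, u]⟩
  · rw [mul_right_comm _ _ (e + 1 : ℝ), mul_assoc C (e₀ + 2 : ℝ)]
    push_cast
    gcongr
    nlinarith [e.cast_nonneg (α := ℝ), e₀.cast_nonneg (α := ℝ),
      mul_nonneg (e.cast_nonneg (α := ℝ)) (e₀.cast_nonneg (α := ℝ))]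

end Pool.Agent.Lib.MP_7f377f_mp.Wx
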