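import Pool.Agent.Lib.MP_7f377f_mp.G.WxM1

/-! Short distance expansions in all dominated states. -/

noncomputable section

namespace Pool.Agent.Lib.MP_7f377f_mp.Wx
variable [Pool.Agent.Lib.MP_7f377f_mp.GD]
set_option linter.unusedSectionVars false

open MeasureTheory Filter Topology Set YM7 Pur Lg Wm Lm Wv Asymptotics Metric

variable {V P : Type} [CommRing P] [Algebra ℂ P] {N : Net P} {x : V → (R4 → ℝ) → P}
  {S W : P →ₗ[ℂ] ℂ} {θ : Fin 4 → V → V} {k : ℕ} {X : ℝ → P} {m : ℝ → V} {η : ℝ → ℝ}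
  {f : R4 → ℝ} {Z : P} {K O O' : Set R4} {Y : (R4 → ℝ) → P}

theorem ev_thick {A B : Set R4} (hA : IsCompact A) (hB : IsClosed B) (h : Disjoint A B) :
    ∀ᶠ ρ in 𝓝[>] (0 : ℝ), Disjoint (thickening ρ A) (thickening ρ B) := by
  obtain ⟨δ, δ0, e⟩ := h.exists_thickenings hA hB
  filter_upwards [Ioo_mem_nhdsGT δ0] with ρ hρ
  exact e.mono (thickening_mono hρ.2.le _) (thickening_mono hρ.2.le _)

theorem ev_bx {A : Set R4} (hA : Bornology.IsBounded A) : ∀ᶠ R in atTop, A ⊆ Bx R := by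
  obtain ⟨r, hr⟩ := hA.exists_norm_le
  filter_upwards [eventually_gt_atTop r] with R hR y hy l
  exact ((PiLp.norm_apply_le y l).trans (hr y hy)).trans_lt hR

theorem Fl.mono (h : Fl N S K O Y) (e : O ⊆ O') : Fl N S K O' Y :=
  ⟨fun g hg => N.mono (h.mem g hg) e, fun g g' t a b Z hZ =>
    h.lin g g' t a b Z (N.mono hZ (compl_subset_compl.2 e))⟩

theorem fl_x (hG : Gen N x θ) (hL : LinF N x S) (K : Set R4) (c : V) : Fl N S K K (x c) :=
  ⟨fun _ hg => c1_mem hG hg c, fun _ _ t a b Z hZ => hL _ _ _ t ⟨a.1, a.2.1, subset_univ _⟩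
    ⟨b.1, b.2.1, subset_univ _⟩ Z (N.mono hZ (compl_subset_compl.2 (union_subset a.2.2 b.2.2)))⟩

theorem pw_append {l : ℕ} {A : Fin k → Set R4} {B : Fin l → Set R4}
    (a : Pairwise fun i j => Disjoint (A i) (A j)) (b : Pairwise fun i j => Disjoint (B i) (B j))
    (c : ∀ i j, Disjoint (A i) (B j)) :
    Pairwise fun i j => Disjoint (Fin.append A B i) (Fin.append A B j) :=
  YM5.pairwise_append (R := fun u v : Set R4 => Disjoint u v) (fun _ _ h => h.symm) a b c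

/-- words of good fields with a spectator -/
theorem qb_spec (hG : Gen N x θ) (hS : N.St S) (hL : LinF N x S) (K : Fin k → Set R4)
    (hK : ∀ i, IsCompact (K i)) (hd : Pairwise fun i j => Disjoint (K i) (K j))
    (hZ : Z ∈ N.loc (⋃ i, K i)ᶜ) : ∃ H : Finset ℝ, (∀ h ∈ H, h ∈ Ioc (0 : ℝ) 1) ∧ ∃ A : Set V,
      A.Finite ∧ ∀ᶠ ρ in 𝓝[>] (0 : ℝ), ∀ᶠ R in atTop, ∀ w ≥ (0 : ℝ), ∃ M ≥ (0 : ℝ),
        ∀ G : ℝ → R4 → ℝ → P → Prop,
        (∀ h ∈ H, Gd N S h (G h) ∧ ∀ c ∈ A, ∀ K, Gf (G h) h K w (x c)) →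
        ∀ (Y : Fin k → (R4 → ℝ) → P) (B : Fin k → ℝ), (∀ i, 0 ≤ B i) →
        (∀ i, Fl N S (K i) (Metric.thickening ρ (K i)) (Y i)) →
        (∀ h ∈ H, ∀ i, Gf (G h) h (K i) (B i) (Y i)) →
        ∀ (g : Fin k → R4 → ℝ) (b : Fin k → ℝ), (∀ i, C1 (K i) (g i) ∧ ∀ y, |g i y| ≤ b i) →
          N.QB S ((∏ i, Y i (g i)) * Z) R (M * ∏ i, B i * b i) := by
  classical
  obtain ⟨n, c, l, a, f, f1, f2, rfl⟩ := exists_sum hG hZ
  have f3 : ∀ j i i', Disjoint (K i) (tsupport (f j i')) := fun j i i' =>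
    (disjoint_compl_right.mono (subset_iUnion K i) (f2 j i'))
  choose H hH M M0 hM using fun j => qb_good hS (Fin.append K fun i => tsupport (f j i))
    (fun i => by induction i using Fin.addCases <;> simp [hK, show IsCompact _ from ((f1 j).1 _).1])
    (pw_append hd (f1 j).2 (f3 j))
  choose D q _ d2 _ using fun j => (f1 j).data
  refine ⟨Finset.univ.biUnion H, fun h hh => ?_, range fun p : Σ j, Fin (l j) => a p.1 p.2,
    finite_range _, ?_⟩
  · obtain ⟨j, -, e⟩ := Finset.mem_biUnion.1 hh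
    exact hH j h e
  filter_upwards [eventually_all.2 fun i => eventually_all.2 fun i' => eventually_all.2
    fun e : i ≠ i' => ev_thick (hK i) (hK i').isClosed (hd e), eventually_all.2 fun j =>
    eventually_all.2 fun i => eventually_all.2 fun i' =>
      ev_thick (hK i) (isClosed_tsupport _) (f3 j i i'), self_mem_nhdsWithin] with ρ r1 r2 r3
  filter_upwards [eventually_all.2 hM, eventually_ge_atTop 0, eventually_all.2 fun i =>
    ev_bx ((hK i).isBounded.thickening (δ := ρ)), eventually_all.2 fun j => eventually_all.2 fun i =>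
      ev_bx (IsCompact.isBounded ((f1 j).1 i).1)] with R R1 R0 R2 R3 w w0
  refine ⟨∑ j, ‖c j‖ * (M j * ∏ _i : Fin (l j), w * D j), Finset.sum_nonneg fun j _ => by
    have := M0 j
    positivity, fun G hG' Y B B0 hY hP g b hg => ?_⟩
  have hj : ∀ j, ∀ h ∈ H j, h ∈ Finset.univ.biUnion H := fun j h e =>
    Finset.mem_biUnion.2 ⟨j, Finset.mem_univ _, e⟩
  rw [Finset.mul_sum, Finset.sum_mul]
  refine Net.QB.sum hS _ R0 fun j _ => ?_
  have := (R1 j G (fun h e => (hG' h (hj j h e)).1)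
    (Fin.append (fun i => thickening ρ (K i)) fun i => tsupport (f j i))
    (pw_append r1 (f1 j).2 fun i i' => (r2 j i i').mono_right (self_subset_thickening r3 _))
    (fun i => by induction i using Fin.addCases <;> simp [R2, R3])
    (Fin.append Y fun i => x (a j i)) (Fin.append B fun _ => w)
    (fun i => by induction i using Fin.addCases <;> simp [B0, w0.le])
    (fun i => by induction i using Fin.addCases <;> simp [hY, fl_x hG hL])
    (fun h e i => by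
      induction i using Fin.addCases with
      | left i => simpa using hP h (hj j h e) i
      | right i => simpa using (hG' h (hj j h e)).2 _ ⟨⟨j, i⟩, rfl⟩ _)
    (Fin.append g (f j)) (Fin.append b fun _ => D j) fun i => by
      induction i using Fin.addCases with
      | left i => simpa using hg i
      | right i => simpa using ⟨c1_of (f1 j) i, (d2 j i).2⟩).smul (c j)
  simp only [Fin.prod_univ_add, Fin.append_left, Fin.append_right] at this
  convert this using 1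
  · rw [mul_smul_comm]
  · ring

theorem c1_rf (μ) {g : R4 → ℝ} (h : C1 {y | rf μ y ∈ K} g) : C1 K fun y => g (rf μ y) :=
  have := (adm_rf (f := fun _ : Fin 1 => g) ⟨fun _ => ⟨h.1, h.2.1⟩, Subsingleton.pairwise⟩ μ).1 0
  ⟨this.1, this.2, fun y hy => by
    simpa using h.2.2 (tsupport_comp (rfL_eq μ ▸ (rfL μ).continuous) hy)⟩

theorem Fl.refl (h : Fl N S K O Y) (hS : N.St S) (μ) :
    Fl N S {y | rf μ y ∈ K} {y | rf μ y ∈ O} fun g => N.Θ μ (Y fun y => g (rf μ y)) := by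
  refine ⟨fun g hg => N.Θ_mem μ (h.mem _ (c1_rf μ hg)), fun g g' t a b Z hZ => ?_⟩
  have z : N.Θ μ Z ∈ N.loc Oᶜ := N.mono (N.Θ_mem μ hZ) fun y hy => by simpa using hy
  have e : ∀ {g}, C1 {y | rf μ y ∈ K} g → S (N.Θ μ (Y fun y => g (rf μ y)) * Z) =
      starRingEnd ℂ (S (Y (fun y => g (rf μ y)) * N.Θ μ Z)) := fun a => by
    rw [← hS.herm μ (Net.adm (N.mul (h.mem _ (c1_rf μ a)) z disjoint_compl_right)),
      map_mul (N.Θ μ), N.Θ_Θ]
  rw [e a, e b, e (PN.Gd.comb a b t)]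
  exact (congrArg _ (h.lin _ _ t (c1_rf μ a) (c1_rf μ b) _ z)).trans (by simp)

theorem Gf.refl {G : R4 → ℝ → P → Prop} {h B : ℝ} (a : Gf G h K B Y) (hG : Gd N S h G) (μ) :
    Gf G h {y | rf μ y ∈ K} B fun g => N.Θ μ (Y fun y => g (rf μ y)) := fun z g g1 g2 g3 => by
  simpa using hG.refl μ (a (rf μ z) _ (c1_rf μ g1) (fun e => g2 (funext fun y => by
    simpa using congrFun e (rf μ y))) fun y => ⟨(g3 _).1, fun hy l => by
      have := (g3 _).2 hy l
      by_cases e : l = μ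
      · subst e
        rwa [rf_self, ← abs_neg, neg_sub', neg_neg, ← rf_self] at this
      · rwa [rf_ne e, ← rf_ne e z] at this⟩)

theorem c1_bd (hf : C1 K f) : ∃ b, ∀ y, |f y| ≤ b := hf.2.1.continuous.bounded_above_of_compact_support hf.1

namespace MG

variable (h : MG N x S X m η) (hG : Gen N x θ) (hS : N.St S) (hL : LinF N x S)
  (hX : ∀ ρ > 0, ∀ᶠ s in 𝓝[>] 0, X s ∈ N.loc (Metric.ball 0 ρ)) (η0 : ∀ᶠ s in 𝓝[>] 0, 0 ≤ η s)
  (hD : N.Dom S W) (w1 : W 1 = 1)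
include h hG hS hL hX η0 hD w1

theorem int (hf : C1 univ f) (hZ : Z ∈ N.loc (tsupport f)ᶜ)
    (hc : ∀ᶠ s in 𝓝[>] 0, ContinuousOn (fun z => W (N.τ z (X s) * Z)) (tsupport f)) :
    (fun s => (∫ z, f z * W (N.τ z (X s) * Z)) - W (x (m s) f * Z)) =O[𝓝[>] 0] η := by
  have f1 : C1 (tsupport f) f := ⟨hf.1, hf.2.1, subset_rfl⟩
  obtain ⟨b, hb⟩ := c1_bd hf
  obtain ⟨H, hH, A, hA, e⟩ := qb_spec hG hS hL (fun _ : Fin 1 => tsupport f) (fun _ => hf.1)
    Subsingleton.pairwise (Z := Z) (by simpa only [iUnion_const] using hZ)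
  obtain ⟨ρ, e, ρ0⟩ := (e.and self_mem_nhdsWithin).exists
  obtain ⟨R, e⟩ := e.exists
  obtain ⟨w, w0, h⟩ := h H hH A hA
  obtain ⟨M, M0, e⟩ := e w w0
  refine IsBigO.of_bound (M * (w * b)) ?_
  filter_upwards [h, hX ρ ρ0, η0, hc] with s ⟨G, g1, g2⟩ s1 s2 s3
  have := pf_ne (K := tsupport f) hf.1
  refine ge_of_tendsto (x := 𝓝[>] 0) (f := fun ε : ℝ => M * ((w * η s + ε) * b))
    (tendsto_nhdsWithin_of_tendsto_nhds (Continuous.tendsto' (by fun_prop) _ _ (by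
      rw [Real.norm_of_nonneg s2]
      ring))) (eventually_mem_nhdsWithin.mono fun ε (ε0 : 0 < ε) => ?_)
  refine le_of_tendsto ((pf_riem hf.1 f1 s3).sub_const _).norm ?_
  filter_upwards [g2 _ hf.1 ε ε0, pf_ev (K := tsupport f) (p := fun _ => True) (by simp)] with d d1 d2
  simpa [fe, sub_mul, Finset.sum_mul] using (hD.st hS w1).bound (hD.qb (e G g1
    (fun _ => fe N x d (X s) (m s)) (fun _ => w * η s + ε) (fun _ => by positivity)
    (fun _ => fl_fe hG hL d2.2 ρ0 s1 _) (fun h a _ => d1 h a) (fun _ => f) (fun _ => b)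
    fun _ => ⟨f1, hb⟩))

theorem rp (hf : C1 (Hs 0 0) f) (hZ : Z ∈ N.loc (Hs 0 0 \ tsupport f)) :
    ∃ C, ∀ᶠ s in 𝓝[>] 0, ∀ ε > 0, ∃ Y ∈ Submodule.span ℂ ((fun z => N.τ z (X s)) '' tsupport f),
      N.nq W 0 ((x (m s) f - Y) * Z) ≤ C * (η s + ε) ^ 2 := by
  have f1 : C1 (tsupport f) f := ⟨hf.1, hf.2.1, subset_rfl⟩
  obtain ⟨b, hb⟩ := c1_bd hf
  have p : ∀ y ∈ tsupport f, 0 < y 0 := fun y hy => hf.2.2 hy
  have p' : ∀ y, rf 0 y ∈ tsupport f → y 0 < 0 := fun y hy => by simpa using p _ hy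
  have d : Disjoint (tsupport f) {y | rf 0 y ∈ tsupport f} :=
    disjoint_left.2 fun y a a' => (p y a).not_gt (p' y a')
  obtain ⟨H, hH, A, hA, e⟩ := qb_spec hG hS hL ![tsupport f, {y | rf 0 y ∈ tsupport f}]
    (Fin.forall_fin_two.2 ⟨hf.1, rfL_eq 0 ▸ (rfL 0).toHomeomorph.isCompact_preimage.2 hf.1⟩)
    (pairwise_fin_succ_iff.2 ⟨Fin.forall_fin_one.2 d.symm, Fin.forall_fin_one.2 d,
      Subsingleton.pairwise⟩) (Z := N.Θ 0 Z * Z) (N.mono (N.mul (N.Θ_mem 0 hZ) hZ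
      (disjoint_left.2 fun y a a' => by
        simp only [Hs, mem_diff, mem_ofPred_eq, rf_self] at a a'
        linarith [a.1, a'.1])) fun y hy => by
      simp only [Hs, mem_diff, mem_ofPred_eq, rf_self, mem_union, mem_compl_iff, mem_iUnion,
        Fin.exists_fin_two, Matrix.cons_val_zero, Matrix.cons_val_one, not_or] at hy ⊢
      rcases hy with a | a
      · exact ⟨fun e => by linarith [p y e, a.1], a.2⟩
      · exact ⟨a.2, fun e => by linarith [p' y e, a.1]⟩)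
  obtain ⟨ρ, e, ρ0⟩ := (e.and self_mem_nhdsWithin).exists
  obtain ⟨R, e⟩ := e.exists
  obtain ⟨w, w0, h⟩ := h H hH A hA
  obtain ⟨M, M0, e⟩ := e w w0
  refine ⟨M * ((w + 1) * b) ^ 2, ?_⟩
  filter_upwards [h, hX ρ ρ0, η0] with s ⟨G, g1, g2⟩ s1 s2 ε ε0
  have := pf_ne (K := tsupport f) hf.1
  obtain ⟨d, d1, -, d2⟩ := ((g2 _ hf.1 ε ε0).and
    (pf_ev (K := tsupport f) (p := fun _ => True) (by simp))).exists
  have l := fl_fe hG hL d2 ρ0 s1 (m s)
  have := (hD.st hS w1).bound (hD.qb (e G g1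
    ![fe N x d (X s) (m s), fun g => N.Θ 0 (fe N x d (X s) (m s) fun y => g (rf 0 y))]
    (fun _ => w * η s + ε) (fun _ => by positivity)
    (Fin.forall_fin_two.2 ⟨l, (l.refl hS 0).mono fun y hy => ?_⟩)
    (fun h a => Fin.forall_fin_two.2 ⟨d1 h a, (d1 h a).refl (g1 h a).1 0⟩)
    ![f, fun y => f (rf 0 y)] (fun _ => b)
    (Fin.forall_fin_two.2 ⟨⟨f1, hb⟩, c1_rf 0 (by simpa using f1), fun _ => hb _⟩)))
  · refine ⟨∑ i, ((∫ y, f y * d.χ i y : ℝ) : ℂ) • N.τ (d.q i) (X s), Submodule.sum_mem _ fun i _ =>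
      Submodule.smul_mem _ _ (Submodule.subset_span ⟨_, d2.mem i, rfl⟩), ?_⟩
    simp only [Fin.prod_univ_two, Matrix.cons_val_zero, Matrix.cons_val_one, rf_rf] at this
    rw [← neg_sub, ← fe, Net.nq, neg_mul, map_neg, neg_mul_neg, map_mul (N.Θ 0), mul_mul_mul_comm,
      mul_comm (N.Θ 0 _)]
    refine ((Complex.re_le_norm _).trans this).trans ?_
    have b0 := (abs_nonneg _).trans (hb 0)
    rw [← sq, mul_assoc, ← mul_pow]
    exact mul_le_mul_of_nonneg_left (pow_le_pow_left₀ (by positivity)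
      (by linarith [mul_nonneg (mul_nonneg w0 ε0.le) b0, mul_nonneg s2 b0]) 2) M0
  · obtain ⟨z, hz, e⟩ := mem_thickening_iff.1 (show rf 0 y ∈ thickening ρ (tsupport f) from hy)
    refine mem_thickening_iff.2 ⟨rf 0 z, show rf 0 (rf 0 z) ∈ _ from (rf_rf 0 z).symm ▸ hz, ?_⟩
    rwa [← (rfL 0).dist_map, rfL_eq, rf_rf]

end MG

end Pool.Agent.Lib.MP_7f377f_mp.Wx
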