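import Pool.Agent.Lib.MP_7f377f_mp.G.WyQ0

/-! Operator bounds for the continuum limit. -/

noncomputable section

namespace Pool.Agent.Lib.MP_7f377f_mp.Wy
variable [Pool.Agent.Lib.MP_7f377f_mp.GD]
set_option linter.unusedSectionVars false

open MeasureTheory Filter Topology Set Real YM7 Weak L6 MvPolynomial Wv ComplexConjugate Function
open Wu (Z4)

open scoped Pointwise

variable [MeasurableSpace SU2] [BorelSpace SU2] {h : Measure SU2} [h.IsHaarMeasure]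
  [IsProbabilityMeasure h] {β V : Type} {n : ℕ × ℕ → ℕ} [∀ p, NeZero (n p)] {a b : ℕ × ℕ → ℝ}
  {O : ℕ × ℕ → V → Fz → ℝ} {θ : Fin 4 → V → V} {i1 i2} {U : Ultrafilter (ℕ × ℕ)}
  {S : PolL V →ₗ[ℂ] ℂ} {Q : ℕ × ℕ → β → Fz → ℝ} {r : Fin 4 → β → β} {A : ℕ → Set β}
  {w : ℕ → β → ℝ} {ℓ C : ℝ}

namespace LimL

variable (L : LimL h n a b O (netL (θ := θ) i1 i2) U S) (hF : Fm n a b)
include L hF

theorem pbt (hP : Pl O θ) {A : ℕ → Set V} {w : ℕ → V → ℝ} (hE : EF h n a b O θ A w ℓ C)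
    (C0 : 0 ≤ C) {g η : ℝ} (g0 : 0 < g) (g1 : 9 * g ≤ 2 * ℓ) (g2 : 2 * ℓ ≤ 27 * g) {A₀ : Set V}
    (hA : ∀ᶠ J in atTop, ∀ c ∈ A₀, c ∈ A J ∧ w J c ≤ η) (η0 : 0 ≤ η) :
    Wx.PBT xL S A₀ g ((3 * g) ^ 4 * η * exp (256 * C)) := fun k c z f hf hc h1 h2 h3 => by
  refine (L.prod hF hE C0 (ρ := g) (η := fun _ => (3 * g) ^ 4 * η) g0.le g0.le (by linarith)
    (by linarith) ⟨h2, h3⟩ (gen_mem (gen_L i1 i2) c hf fun _ => subset_univ _) fun i => L.le ?_).trans_eq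
    (by simp [mul_pow, mul_comm])
  filter_upwards [hE.ev hF, hF.a0 (Ioc_mem_nhdsGT g0), fast_le (tendsto_snd.eventually hA)]
    with p q1 (q2 : a p ∈ Ioc 0 g) q3
  obtain ⟨s, s1, s2⟩ := exists_box q2.1 (z i) g0.le
  have a0 := q2.1
  refine .of s id (fun _ => c i) (fun y => (a p ^ 4 * f i (pz (a p) y) : ℝ)) q1.2.1
    (fun y hy => ⟨(q3 _ (hc i)).1, (s1 y).1 hy⟩) ((Finset.sum_le_card_nsmul s _ (a p ^ 4 * η)
      fun y _ => mul_le_mul ?_ (q3 _ (hc i)).2 (q1.2.1 _ (q3 _ (hc i)).1) (by positivity)).trans ?_)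
    fun W => ?_
  · rw [Complex.norm_real, norm_mul, norm_of_nonneg (by positivity)]
    exact mul_le_of_le_one_right (by positivity) (h1 i _).1
  · rw [nsmul_eq_mul, ← mul_assoc, mul_comm _ (a p ^ 4)]
    exact mul_le_mul_of_nonneg_right (s2.trans (pow_le_pow_left₀ (by positivity)
      (by linarith [q2.2]) 4)) η0
  · rw [ev_x, sm_eq fun y hy => (s1 y).2 ((h1 i _).2 hy)]
    simp

theorem prodL (hP : Pl O θ) (hL : EL h n a b O θ) : Wx.ProdL xL S := fun A hA => by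
  obtain ⟨k, c, -, rfl⟩ := hA.fin_param
  obtain ⟨A, h1, h2, h3⟩ := Wx.fin_cl ⟨i1, i2⟩ c
  obtain ⟨C, s, C0, hE⟩ := hL A h1 h2
  obtain ⟨m, hm⟩ := exists_nat_ge (256 * C)
  refine ⟨81 * 6 ^ (s + m), s + m, by positivity, fun g hg k c' z f hf hc e1 e2 e3 => ?_⟩
  obtain ⟨e, g1, g2⟩ := exists_scale hg.1 hg.2
  have g0 := hg.1
  refine (L.pbt hF hP (hE e) (by positivity) g0 g1 g2 (η := 3 ^ (s * (e + 1)))
    (.of_forall fun _ _ hc => ⟨range_subset_iff.2 h3 hc, le_rfl⟩) (by positivity)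
    k c' z f hf hc e1 e2 e3).trans (pow_le_pow_left₀ (by positivity) ?_ k)
  have e4 : (3 : ℝ) ^ (e + 1) ≤ 6 / g := by
    rw [← mul_div_assoc, le_div_iff₀ (by positivity)] at g1
    rw [le_div_iff₀ g0, pow_succ]
    linarith
  rw [mul_div_assoc, ← div_pow, pow_add, mul_assoc, pow_mul']
  refine mul_le_mul ((pow_le_pow_left₀ (b := 3) (by positivity) (by linarith [hg.2]) 4).trans_eq
    (by norm_num)) (mul_le_mul (pow_le_pow_left₀ (by positivity) e4 s) (le_trans ?_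
      (pow_le_pow_left₀ (by positivity) ((pow_le_pow_left₀ (exp_pos 1).le exp_one_lt_three.le _).trans
        e4) m)) (by positivity) (by positivity)) (by positivity) (by positivity)
  rw [← exp_nat_mul, ← exp_nat_mul, exp_le_exp]
  push_cast
  nlinarith [(e.cast_nonneg : (0 : ℝ) ≤ e)]

/-- products of local elements at tame positions -/
theorem qbl (hP : Pl O θ) (hS : (netL (θ := θ) i1 i2).St S) (hE : EF h n a b Q r A w ℓ C) (C0 : 0 ≤ C)
    {g H ρ R : ℝ} (g0 : 0 ≤ g) (ρ0 : 0 ≤ ρ) (h1 : 10 * (g + 2 * ρ) < 9 * ℓ) (h2 : 7 * ℓ + 2 * ρ < H)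
    (R0 : 0 ≤ R) {I : Type} [Fintype I] (E : I → PolL V) (z : I → R4) (η : I → ℝ) (hz : Tm z g H)
    (hR : ∀ i l, |z i l| ≤ R)
    (e1 : ∀ i, E i ∈ (netL (θ := θ) i1 i2).loc {y | ∀ l, |y l - z i l| ≤ ρ})
    (e2 : ∀ i, ∀ᶠ p in U,
      Cb (Q p) (A p.2) (w p.2) (a p) (z i) ρ (η i) fun W => ev (a p) (O p) W (E i)) :
    (netL (θ := θ) i1 i2).QB S (∏ i, E i) (6 * (R + H + ℓ))
      (exp (256 * C * Fintype.card I) * ∏ i, η i) := by
  have l0 : 0 < ℓ := by linarith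
  obtain ⟨M, M1, M2⟩ : ∃ M : ℕ, R + H ≤ ℓ * M ∧ ℓ * M ≤ R + H + ℓ := ⟨⌈(R + H) / ℓ⌉₊,
    (div_le_iff₀' l0).1 (Nat.le_ceil _), by
      have := (Nat.ceil_lt_add_one (a := (R + H) / ℓ) (div_nonneg (by linarith) l0.le)).le
      rwa [div_add_one l0.ne', le_div_iff₀' l0] at this⟩
  let G : R4 → ℝ → PolL V → Prop := fun z η X =>
    X ∈ (netL (θ := θ) i1 i2).loc {y | ∀ l, |y l - z l| ≤ ρ} ∧ ∀ᶠ p in U,
      Cb (Q p) (A p.2) (w p.2) (a p) z ρ η fun W => ev (a p) (O p) W X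
  have tau : ∀ {z B X} v, G z B X → G (z + pz ℓ v) B ((netL (θ := θ) i1 i2).τ (pz ℓ v) X) :=
    fun v e => ⟨(netL (θ := θ) i1 i2).mono ((netL (θ := θ) i1 i2).τ_mem _ e.1) fun y hy l => by
      simpa [sub_sub, add_comm] using hy l, (e.2.and (L.le (hE.ev hF))).mono
        fun p ⟨q, ⟨lam, q1⟩, q2, _⟩ => by
          have : pz ℓ v = pz (a p) (lam • v) := by
            ext l
            simp [pz, ← q1, mul_assoc]
          simpa only [this, ev_τ] using q.tz q2 (lam • v)⟩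
  have := (cell hS (G := G) (g := g) (w := 2 * (ℓ * M)) (by linarith) (exp_pos _).le ρ0
    (show 2 * ρ < H by linarith)
    (fun e => let ⟨_, q⟩ := (e.2.and (L.le (hE.ev hF))).exists; q.1.pos q.2.2.1) And.left
    (fun {z B X} μ e => ⟨(netL (θ := θ) i1 i2).mono ((netL (θ := θ) i1 i2).Θ_mem μ e.1) fun y hy l => by
      have := hy l
      by_cases u : l = μ
      · subst u
        rw [Pur.rf_self, ← abs_neg] at this
        rw [Pur.rf_self]
        convert this using 2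
        ring
      · simpa [Pur.rf_ne u] using this, by
      filter_upwards [e.2, L.le (hE.ev hF), L.le (ev_Θ i1 i2 μ (hP.rf μ) X)] with p q q1 q2
      exact funext q2 ▸ q.rz q1.2.1 (q1.2.2 μ)⟩)
    (fun v e => by
      have : pz (2 * (ℓ * M)) v = pz ℓ ((2 * M) • v) := by
        ext l
        simp [pz]
        ring
      exact this ▸ tau _ e)
    (fun I _ z B X e hz => L.prod hF hE C0 g0 ρ0 h1 h2 hz
      (tm_mem hz (by linarith) (fun i => (e i).1) fun _ _ _ => trivial) fun i => (e i).2)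
    (fun i => tau (fun _ => M) ⟨e1 i, e2 i⟩) (by simpa [Tm] using hz) fun i l => by
      have := abs_le.1 (hR i l)
      simp only [PiLp.add_apply, pz, Int.cast_natCast]
      constructor <;> linarith [this.1, this.2]).tau hS (-pz ℓ fun _ => M)
  simp only [← map_prod, Pur.Net.τ_τ, neg_add_cancel, Pur.Net.τ_zero, norm_neg] at this
  refine this.mono hS ?_ (by rw [mul_comm _ (Fintype.card I : ℝ), exp_nat_mul])
  have : ‖pz ℓ fun _ => M‖ ≤ 2 * (ℓ * M) := by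
    rw [EuclideanSpace.norm_eq, sqrt_le_left (by positivity)]
    simp only [pz, norm_eq_abs, sq_abs, Fin.sum_univ_four, Int.cast_natCast]
    linarith
  linarith

end LimL

end Pool.Agent.Lib.MP_7f377f_mp.Wy
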