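import Pool.Agent.Lib.MP_7f377f_mp.G.WmA1
import Pool.Agent.Lib.MP_7f377f_mp.G.WmA2
import Pool.Agent.Lib.MP_7f377f_mp.G.WmA3
import Pool.Agent.Lib.MP_7f377f_mp.G.WmA4

/-! Spectral projections of the translations. -/

noncomputable section

namespace Pool.Agent.Lib.MP_7f377f_mp.S3
variable [Pool.Agent.Lib.MP_7f377f_mp.GD]
set_option linter.unusedSectionVars false

open MeasureTheory Filter Topology Set Complex YM7 Pur Wm Wm.A4 ComplexConjugate

theorem wd {X Y : Type} [MeasurableSpace X] [MeasurableSpace Y] {μ : Measure X} {π : X → Y}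
    (hπ : Measurable π) {u : X → ℝ} (i : Integrable u μ) : ∃ A B : Measure Y, IsFiniteMeasure A ∧
      IsFiniteMeasure B ∧ ∀ φ : Y → ℂ, Measurable φ → (∀ y, ‖φ y‖ ≤ 1) →
        ∫ y, φ y ∂A - ∫ y, φ y ∂B = ∫ x, u x * φ (π x) ∂μ := by
  have b : ∀ {u : X → ℝ}, Integrable u μ → ∃ A : Measure Y, IsFiniteMeasure A ∧ ∀ φ : Y → ℂ,
      Measurable φ → ∫ y, φ y ∂A = ∫ x, max (u x) 0 • φ (π x) ∂μ := fun {u} i => by
    have := isFiniteMeasure_withDensity_ofReal i.2
    refine ⟨(μ.withDensity fun x => .ofReal (u x)).map π, inferInstance, fun φ hφ => ?_⟩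
    simp only [integral_map hπ.aemeasurable hφ.aestronglyMeasurable,
      integral_withDensity_eq_integral_toReal_smul₀ i.1.aemeasurable.ennreal_ofReal
        (.of_forall fun _ => ENNReal.ofReal_lt_top), ENNReal.toReal_ofReal']
  obtain ⟨A, a1, a2⟩ := b i
  obtain ⟨B, b1, b2⟩ := b i.neg
  refine ⟨A, B, a1, b1, fun φ hφ h1 => ?_⟩
  have q : ∀ {u : X → ℝ}, Integrable u μ → Integrable (fun x => max (u x) 0 • φ (π x)) μ :=
    fun i => i.pos_part.smul_bdd 1 (hφ.comp hπ).aestronglyMeasurable (.of_forall fun _ => h1 _)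
  rw [a2 φ hφ, b2 φ hφ, ← integral_sub (q i) (q i.neg)]
  simp only [← sub_smul, Pi.neg_apply, max_zero_sub_max_neg_zero_eq_self]
  rfl

theorem sy_one (a p : R4) : ‖sy (rl a) p‖ ≤ 1 := by
  rw [sy_rl, mul_comm, norm_exp_ofReal_mul_I]

theorem sy_add (z w : C4) (p : R4) : sy (z + w) p = sy z p * sy w p := by
  rw [sy, sy, sy, ← exp_add]
  simp only [Pi.add_apply]
  ring_nf

/-- `f` is the Fourier transform of a complex measure, `L` the integral of `g` -/
def Rz (g f : R4 → ℂ) (L : ℂ) : Prop := ∃ (X : Type) (_ : MeasurableSpace X) (μ : Measure X)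
  (π : X → R4) (w : X → ℂ), Measurable π ∧ Integrable w μ ∧
    (∀ a, f a = ∫ x, w x * sy (rl a) (π x) ∂μ) ∧ L = ∫ x, w x * g (π x) ∂μ

variable {g f f' : R4 → ℂ} {L L' : ℂ}

theorem Rz.mul (h : Rz g f L) (c : ℂ) : Rz g (fun a => c * f a) (c * L) :=
  let ⟨X, _, μ, π, w, a, b, d, e⟩ := h
  ⟨X, _, μ, π, fun x => c * w x, a, b.const_mul c, fun _ => by
    simp only [d, mul_assoc, integral_const_mul], by simp only [e, mul_assoc, integral_const_mul]⟩

variable (hg : Measurable g) (g1 : ∀ p, ‖g p‖ ≤ 1)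
include hg g1

theorem Rz.add (h : Rz g f L) (h' : Rz g f' L') : Rz g (fun a => f a + f' a) (L + L') := by
  obtain ⟨X, _, μ, π, w, a, b, d, e⟩ := h
  obtain ⟨Y, _, ν, π', w', a', b', d', e'⟩ := h'
  have l : MeasurableEmbedding (Sum.inl : X → X ⊕ Y) :=
    ⟨Sum.inl_injective, measurable_inl, fun _ => .inl_image⟩
  have r : MeasurableEmbedding (Sum.inr : Y → X ⊕ Y) :=
    ⟨Sum.inr_injective, measurable_inr, fun _ => .inr_image⟩
  have i : Integrable (Sum.elim w w') (μ.map .inl) := l.integrable_map_iff.2 b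
  have i' : Integrable (Sum.elim w w') (ν.map .inr) := r.integrable_map_iff.2 b'
  have s : ∀ φ : R4 → ℂ, Measurable φ → (∀ y, ‖φ y‖ ≤ 1) →
      ∫ x, w x * φ (π x) ∂μ + ∫ x, w' x * φ (π' x) ∂ν =
      ∫ z, Sum.elim w w' z * φ (Sum.elim π π' z) ∂(μ.map .inl + ν.map .inr) := fun φ h1 h2 => by
    have m := h1.fun_comp (a.sumElim a')
    rw [integral_add_measure (i.mul_bdd m.aestronglyMeasurable (.of_forall fun _ => h2 _))
      (i'.mul_bdd m.aestronglyMeasurable (.of_forall fun _ => h2 _)), l.integral_map, r.integral_map]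
    rfl
  exact ⟨X ⊕ Y, _, μ.map .inl + ν.map .inr, Sum.elim π π', Sum.elim w w', a.sumElim a',
    i.add_measure i', fun c => by
      simp only [d, d', s _ (sy_cont _).measurable (sy_one c)], by rw [e, e', s g hg g1]⟩

theorem Rz.zero (h : Rz g 0 L) : L = 0 := by
  obtain ⟨X, _, μ, π, w, a, b, d, rfl⟩ := h
  have i : ∀ {w : X → ℂ} {φ : R4 → ℂ}, Integrable w μ → Measurable φ → (∀ y, ‖φ y‖ ≤ 1) →
      Integrable (fun x => w x * φ (π x)) μ := fun b h1 h2 =>
    b.mul_bdd (h1.comp a).aestronglyMeasurable (.of_forall fun _ => h2 _)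
  have k : ∀ {w : X → ℂ}, Integrable w μ → (∀ a, 0 = ∫ x, w x * sy (rl a) (π x) ∂μ) →
      ∫ x, (w x).re * g (π x) ∂μ = 0 := fun {w} b d => by
    obtain ⟨A, B, _, _, e⟩ := wd a b.re
    refine (e g hg g1).symm.trans (sub_eq_zero.2 ?_)
    rw [Measure.ext_of_charFun (μ := A) (ν := B) (funext fun t => ?_)]
    have u : ∀ p : R4, cexp (inner ℝ p t * I) = sy (rl (-rf 0 t)) p := fun p => by
      rw [sy_rl, mul_comm]
      simp [mink, rf, PiLp.inner_apply, Fin.sum_univ_four, sub_eq_add_neg]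
    have v := congrArg conj (d (rf 0 t))
    have c : ∀ p, conj (sy (rl (rf 0 t)) p) = sy (rl (-rf 0 t)) p := fun p => by
      simpa [sy_rl, show sy 0 p = 1 by simp [sy]] using sy_mul (rf 0 t) 0 p
    simp only [map_zero, ← integral_conj, map_mul, c] at v
    have m := (sy_cont (rl (-rf 0 t))).measurable
    have v' := integral_add (i b m (sy_one _))
      (i (conjCLE.toContinuousLinearMap.integrable_comp b) m (sy_one _))
    simp only [← d, ContinuousLinearEquiv.coe_coe, conjCLE_apply, ← v, ← add_mul, add_conj, add_zero,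
      ofReal_mul, mul_assoc, integral_const_mul] at v'
    simp only [charFun_apply, u, ← sub_eq_zero (a := ∫ _, _ ∂A), e _ m (sy_one _)]
    simpa using v'
  have := integral_add (i b.re.ofReal hg g1) ((i (b.const_mul (-I)).re.ofReal hg g1).const_mul I)
  rw [integral_const_mul] at this
  refine Eq.trans ?_ (this.trans (by
    simpa using congrArg₂ (· + I * ·) (k b d) (k (b.const_mul (-I)) fun a => by
      simp only [mul_assoc, integral_const_mul, ← d a, Pi.zero_apply, mul_zero])))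
  refine integral_congr_ae (.of_forall fun x => ?_)
  simp only [← mul_assoc, ← add_mul]
  congr 1
  apply Complex.ext <;> simp

theorem Rz.uniq (h : Rz g f L) (h' : Rz g f L') : L = L' := by
  have := h.add hg g1 (h'.mul (-1))
  simp only [neg_one_mul, ← sub_eq_add_neg, sub_self] at this
  exact sub_eq_zero.1 (this.zero hg g1)

omit hg g1

theorem bh_int {μ : Measure R4} (hμ : ∀ᵐ p ∂μ, 0 ≤ mg p) {w : R4 → ℂ} (i : Integrable w μ) :
    BH fun z => ∫ p, w p * sy z p ∂μ := by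
  have m := fun z => i.1.mul (sy_cont z).aestronglyMeasurable
  have b : ∀ {p}, 0 ≤ mg p → ∀ z ∈ TV 0, ‖w p * sy z p‖ ≤ ‖w p‖ := fun hp z hz =>
    (norm_mul_le_of_le le_rfl (sy_le hz hp)).trans_eq (mul_one _)
  exact ⟨hol_int isOpen_TO i.norm (fun z _ => m z) (hμ.mono fun p hp =>
    ⟨((sy_diff p).const_mul _).differentiableOn, fun z hz => b hp z (TO.tv hz)⟩),
    continuousOn_of_dominated (fun z _ => m z) (fun z hz => hμ.mono fun p hp => b hp z hz) i.norm
      (.of_forall fun p => ((sy_diff p).const_mul _).continuous.continuousOn), _,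
    fun z hz => norm_integral_le_of_norm_le i.norm (hμ.mono fun p hp => b hp z hz)⟩

variable {K : Type} [NormedAddCommGroup K] [InnerProductSpace ℂ K] [CompleteSpace K]

/-- spectral projections -/
theorem exE {E : C4 → K →L[ℂ] K} (e : Tub E) (s : Spec fun a => E (rl a)) {Z : Set R4}
    (hZ : MeasurableSet Z) : ∃ P : K →L[ℂ] K, (∀ x, inner ℂ x (P x) = 0 → P x = 0) ∧
      (∀ z ∈ TV 0, ∀ x, P (E z x) = E z (P x)) ∧ ∀ x y, ∃ (μ : Measure R4) (w : R4 → ℂ),
        IsFiniteMeasure μ ∧ Integrable w μ ∧ (∀ᵐ p ∂μ, 0 ≤ mg p) ∧ ∀ z ∈ TV 0,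
          inner ℂ y (E z x) = ∫ p, w p * sy z p ∂μ ∧
          inner ℂ y (P (E z x)) = ∫ p in Z, w p * sy z p ∂μ := by
  choose μ h1 h2 using s
  have hg : Measurable (Z.indicator (1 : R4 → ℂ)) := measurable_one.indicator hZ
  have g1 : ∀ p, ‖Z.indicator (1 : R4 → ℂ) p‖ ≤ 1 := fun p =>
    (norm_indicator_le_norm_self _ _).trans_eq norm_one
  have a : ∀ x, ∃ q : K, ‖q‖ ≤ ‖x‖ ∧ (μ x Z = 0 → q = 0) ∧ ∀ y, ∃ w, Integrable w (μ x) ∧
      (∀ a, inner ℂ y (E (rl a) x) = ∫ p, w p * sy (rl a) p ∂μ x) ∧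
      inner ℂ y q = ∫ p, w p * Z.indicator 1 p ∂μ x := fun x => by
    have := (h1 x).1
    have m : ∀ {φ : R4 → ℂ}, Measurable φ → (∀ p, ‖φ p‖ ≤ 1) → MemLp φ 2 (μ x) := fun a b =>
      .of_bound a.aestronglyMeasurable 1 (.of_forall b)
    have i : ∀ (h : Lp ℂ 2 (μ x)) {φ : R4 → ℂ} (m : MemLp φ 2 (μ x)),
        inner ℂ h m.toLp = ∫ p, conj (h p) * φ p ∂μ x := fun h φ m => by
      rw [L2.inner_def]
      exact integral_congr_ae (m.coeFn_toLp.mono fun p hp => by simp [hp, mul_comm])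
    have v := fun a => m (sy_cont (rl a)).measurable (sy_one a)
    have k : ∀ a b, inner ℂ (v a).toLp (v b).toLp = inner ℂ (E (rl a) x) (E (rl b) x) :=
      fun a b => by
      rw [i, e.adj _ (rl_mem a), star_rl, ← rl_neg, ← mul_apply_eq_comp,
        ← e.mul _ (rl_mem _) _ (rl_mem _), ← rl_add, (h1 x).2, neg_add_eq_sub]
      exact integral_congr_ae ((v a).coeFn_toLp.mono fun p hp => by simp only [hp, sy_mul])
    obtain ⟨V, v1, v2⟩ := exists_V k
    refine ⟨V (m hg g1).toLp, (v1 _).trans ((Lp.norm_le_norm_of_ae_le (g := (v 0).toLp) ?_).trans_eq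
      ?_), fun z => ?_, fun y => ⟨fun p => conj (V.adjoint y p), conjCLE.toContinuousLinearMap.integrable_comp
        ((Lp.memLp _).integrable one_le_two), fun a => ?_, ?_⟩⟩
    · filter_upwards [(m hg g1).coeFn_toLp, (v 0).coeFn_toLp] with p a b
      rw [a, b, rl_zero]
      simpa [sy] using g1 p
    · have := k 0 0
      rw [← sq_eq_sq₀ (norm_nonneg _) (norm_nonneg _), ← inner_self_eq_norm_sq (𝕜 := ℂ), this,
        inner_self_eq_norm_sq, rl_zero, e.zero, ContinuousLinearMap.one_apply]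
    · rw [show (m hg g1).toLp = 0 from Lp.eq_zero_iff_ae_eq_zero.2 ((m hg g1).coeFn_toLp.trans
        ((measure_eq_zero_iff_ae_notMem.1 z).mono fun p hp => indicator_of_notMem hp _)), map_zero]
    · rw [← v2, ← V.adjoint_inner_left, i]
    · rw [← V.adjoint_inner_left, i]
  choose q q1 q2 w w1 w2 w3 using a
  have R : ∀ x y, Rz (Z.indicator 1) (fun a => inner ℂ y (E (rl a) x)) (inner ℂ y (q x)) :=
    fun x y => ⟨_, _, μ x, id, w x y, measurable_id, w1 x y, w2 x y, w3 x y⟩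
  have c : ∀ x y, ∀ z ∈ TV 0, inner ℂ y (E z x) = ∫ p, w x y p * sy z p ∂μ x := fun x y =>
    (BH.clm ⟨e.hol.clm_apply (differentiableOn_const x), e.cont x, ‖x‖, fun z hz =>
      ((E z).le_of_opNorm_le (e.nrm z hz) x).trans_eq (one_mul _)⟩ (innerSL ℂ y)).eq
        (bh_int (h2 x) (w1 x y)) (w2 x y)
  have u : ∀ a, ∀ z ∈ TV 0, ∀ x, E (rl a) (E z x) = E (z + rl a) x ∧
      E z (E (rl a) x) = E (z + rl a) x := fun a z hz x => by
    rw [← mul_apply_eq_comp, ← e.mul _ (rl_mem a) _ hz, e.mul _ hz _ (rl_mem a), add_comm,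
      e.mul _ hz _ (rl_mem a)]
    exact ⟨rfl, rfl⟩
  refine ⟨LinearMap.mkContinuous ⟨⟨q, fun x x' => ext_inner_left ℂ fun y => ?_⟩,
    fun t x => ext_inner_left ℂ fun y => ?_⟩ 1 fun x => (q1 x).trans_eq (one_mul _).symm,
    fun x z => q2 x ?_, fun z hz x => ext_inner_left ℂ fun y => ?_,
    fun x y => ⟨μ x, w x y, (h1 x).1, w1 x y, h2 x, fun z hz => ⟨c x y z hz, ?_⟩⟩⟩
  · exact (R _ y).uniq hg g1 (by
      simpa only [map_add, inner_add_right] using (R x y).add hg g1 (R x' y))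
  · exact (R _ y).uniq hg g1 (by
      simpa only [map_smul, inner_smul_right, RingHom.id_apply] using (R x y).mul t)
  · have := (h1 x).1
    have := (R x x).uniq hg g1 ⟨_, _, μ x, id, 1, measurable_id, integrable_const _, fun a => by
      simpa only [sy_rl, Pi.one_apply, one_mul, id] using (h1 x).2 a, rfl⟩
    simp only [Pi.one_apply, one_mul, id, integral_indicator hZ, setIntegral_const] at this
    simpa [measureReal_def, ENNReal.toReal_eq_zero_iff] using this.symm.trans z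
  · have a : ∀ x, inner ℂ (E (-star z) y) x = inner ℂ y (E z x) := fun x => by
      simpa using e.adj _ (neg_star_mem hz) y x
    exact ((R (E z x) y).uniq hg g1 (by simpa only [a, u _ z hz] using R x (E (-star z) y)) :
      _ = inner ℂ y (E z (q x)))
  · refine ((R _ y).uniq hg g1 ⟨_, _, μ x, id, fun p => w x y p * sy z p, measurable_id,
      (w1 x y).mul_bdd (sy_cont z).aestronglyMeasurable ((h2 x).mono fun p => sy_le hz),
      fun a => ?_, rfl⟩).trans ?_
    · simp only [u a z hz, c x y _ (by simpa using TV.add hz (rl_mem a)), sy_add, mul_assoc, id]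
    · rw [← integral_indicator hZ]
      exact integral_congr_ae (.of_forall fun p => by by_cases h : p ∈ Z <;> simp [h])

/-- the projection on the massless states -/
theorem exP {T : R4 → K →L[ℂ] K} (hT : Sg T) (hC : ConeH T) : ∃ P : K →L[ℂ] K,
    (∀ x, inner ℂ x (P x) = 0 → P x = 0) ∧ (∀ u : R4, 0 ≤ u 0 → ∀ x, P (T u x) = T u (P x)) ∧
    ∀ x y, ∃ (μ : Measure R4) (w : R4 → ℂ), IsFiniteMeasure μ ∧ Integrable w μ ∧
      (∀ᵐ p ∂μ, 0 ≤ p 0 ∧ 0 ≤ mink p p) ∧ ∀ u : R4, 0 ≤ u 0 →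
        inner ℂ y (T u x) = ∫ p, w p * sy (euc u) p ∂μ ∧
        inner ℂ y (P (T u x)) = ∫ p in {p | mink p p = 0}, w p * sy (euc u) p ∂μ := by
  obtain ⟨E, e1, e2, e3, -⟩ := sA_of sA1_of sA2_of sA3_of sA4_of K T hT hC
  obtain ⟨P, a, b, c⟩ := exE e1 e3 (Z := {p | mink p p = 0})
    (measurableSet_eq_fun (by unfold mink; fun_prop) measurable_const)
  refine ⟨P, a, fun u hu => e2 u hu ▸ b _ (TV.mono hu (euc_mem u)), fun x y => ?_⟩
  obtain ⟨μ, w, c1, c2, c3, c4⟩ := c x y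
  exact ⟨μ, w, c1, c2, c3.mono fun _ => mg_nonneg_iff.1, fun u hu =>
    e2 u hu ▸ c4 _ (TV.mono hu (euc_mem u))⟩

end Pool.Agent.Lib.MP_7f377f_mp.S3
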