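import Pool.Agent.Lib.MP_7f377f_mp.G.S3F
import Pool.Agent.Lib.MP_7f377f_mp.G.S3P
import Pool.Agent.Lib.MP_7f377f_mp.G.WmMat

/-! No spontaneous breaking of the Euclidean group: definitions. -/

noncomputable section

namespace Pool.Agent.Lib.MP_7f377f_mp.S3
variable [Pool.Agent.Lib.MP_7f377f_mp.GD]
set_option linter.unusedSectionVars false

open Filter Topology Set YM7 Pur Wm Matrix
open scoped ContDiff

/-- smooth test functions supported in `O` -/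
def Ds (O : Set R4) (f : R4 → ℝ) : Prop :=
  ContDiff ℝ ∞ f ∧ HasCompactSupport f ∧ tsupport f ⊆ O

/-- derivative along an axis -/
def pd (μ : Fin 4) (f : R4 → ℝ) (y : R4) : ℝ := lineDeriv ℝ f y (EuclideanSpace.single μ 1)

/-- the signs of the reflection of the axis `l` -/
def sr (l μ : Fin 4) : ℝ := if μ = l then -1 else 1

variable {P : Type} [CommRing P] [Algebra ℂ P] {K : Type} [NormedAddCommGroup K]
  [InnerProductSpace ℂ K]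

/-- truncated correlation -/
def cv (W : P →ₗ[ℂ] ℂ) (Y Z : P) : ℂ := W (Y * Z) - W Y * W Z

/-- a conserved symmetric tensor field with a covariant two point function -/
structure Cur (N : Net P) (W : P →ₗ[ℂ] ℂ) (T : Fin 4 → Fin 4 → (R4 → ℝ) → P) : Prop where
  st : N.St W
  mem : ∀ μ ν {O f}, Ds O f → T μ ν f ∈ N.loc O
  tau : ∀ μ ν v f, N.τ v (T μ ν f) = T μ ν fun y => f (y - v)
  refl : ∀ l μ ν f, Ds univ f → ∀ Z ∈ N.loc (tsupport fun y => f (rf l y))ᶜ,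
    W (N.Θ l (T μ ν f) * Z) = (sr l μ * sr l ν : ℝ) * W (T μ ν (fun y => f (rf l y)) * Z)
  lin : ∀ μ ν f g (t : ℝ), Ds univ f → Ds univ g → ∀ Z ∈ N.loc (tsupport f ∪ tsupport g)ᶜ,
    W (T μ ν (f + t • g) * Z) = W (T μ ν f * Z) + t * W (T μ ν g * Z)
  sym : ∀ μ ν f, Ds univ f → ∀ Z ∈ N.loc (tsupport f)ᶜ, W (T μ ν f * Z) = W (T ν μ f * Z)
  con : ∀ ν f, Ds univ f → ∀ Z ∈ N.loc (tsupport f)ᶜ, ∑ μ, W (T μ ν (pd μ f) * Z) = 0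
  bd : ∀ μ ν ρ σ (A B : Set R4), IsCompact A → IsCompact B → Disjoint A B → ∃ C : ℝ,
    ∀ f g (a b : ℝ), Ds A f → Ds B g → (∀ y, |f y| ≤ a) → (∀ y, |g y| ≤ b) →
      ‖cv W (T μ ν f) (T ρ σ g)‖ ≤ C * a * b
  rot : ∀ R, SO R → ∀ α β γ δ f g, Ds univ f → Ds univ g → Disjoint (tsupport f) (tsupport g) →
    cv W (T α β f) (T γ δ g) = ∑ μ, ∑ ν, ∑ ρ, ∑ σ, (R μ α * R ν β * (R ρ γ * R σ δ) : ℝ) *
      cv W (T μ ν fun y => f (act Rᵀ y)) (T ρ σ fun y => g (act Rᵀ y))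
  clu : ∀ μ ν f, Ds (Hs 0 0) f →
    Tendsto (fun t => cv W (N.Θ 0 (T μ ν f)) (N.τ (ax 0 t) (T μ ν f))) atTop (𝓝 0)

/-- the vectors `T μ ν f Ω` -/
structure Vc (U : R4 → K →L[ℂ] K) (V : Fin 4 → Fin 4 → (R4 → ℝ) → K) : Prop where
  sg : Sg U
  cone : ConeH U
  tr : ∀ μ ν f (u : R4), Ds (Hs 0 0) f → 0 ≤ u 0 → U u (V μ ν f) = V μ ν fun y => f (y - u)
  lin : ∀ μ ν f g (t : ℝ), Ds (Hs 0 0) f → Ds (Hs 0 0) g → V μ ν (f + t • g) = V μ ν f + t • V μ ν g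
  sym : ∀ μ ν f, Ds (Hs 0 0) f → V μ ν f = V ν μ f
  con : ∀ ν f, Ds (Hs 0 0) f → ∑ μ, V μ ν (pd μ f) = 0
  bd : ∀ μ ν (A : Set R4), IsCompact A → A ⊆ Hs 0 0 → ∃ C : ℝ,
    ∀ f (a : ℝ), Ds A f → (∀ y, |f y| ≤ a) → ‖V μ ν f‖ ≤ C * a
  rot : ∀ R R', SO R → (∀ i j, R' i j = sr 0 i * sr 0 j * R i j) → ∀ α β γ δ f g, Ds (Hs 0 0) f →
    Ds (Hs 0 0) g → Ds (Hs 0 0) (fun y => f (act R'ᵀ y)) → Ds (Hs 0 0) (fun y => g (act Rᵀ y)) →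
    inner ℂ (V α β f) (V γ δ g) = ∑ μ, ∑ ν, ∑ ρ, ∑ σ, (R' μ α * R' ν β * (R ρ γ * R σ δ) : ℝ) *
      inner ℂ (V μ ν fun y => f (act R'ᵀ y)) (V ρ σ fun y => g (act Rᵀ y))
  clu : ∀ μ ν f, Ds (Hs 0 0) f → Tendsto (fun t => U (ax 0 t) (V μ ν f)) atTop (𝓝 0)

/-- the chart which maps the half space `0 < y 0` to `r < ε 0 * y (σ 0)` -/
def chart (σ : Equiv.Perm (Fin 4)) (ε : Fin 4 → ℝ) (r : ℝ) (y : R4) : R4 :=
  WithLp.toLp 2 fun j => ε (σ.symm j) * (y + ax 0 r) (σ.symm j)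

end Pool.Agent.Lib.MP_7f377f_mp.S3
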