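import Pool.Agent.Lib.MP_7f377f_mp.G.WvNet
import Pool.Agent.Lib.MP_7f377f_mp.G.S3D

/-! Rotation covariance from the stress tensor: definitions. -/

noncomputable section

namespace Pool.Agent.Lib.MP_7f377f_mp.Sw
variable [Pool.Agent.Lib.MP_7f377f_mp.GD]
set_option linter.unusedSectionVars false

open Filter Topology Set YM7 Pur Wm Lm Wv S3 Matrix
open Ro (Iso rot)

/-- a graded space of labels; `F D` is the space of the labels of dimension at most `D` -/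
structure Fil (V : Type) [AddCommGroup V] [Module ℝ V] where
  F : ℕ → Submodule ℝ V
  π : ℕ → V →ₗ[ℝ] V
  mono : Monotone F
  fin : ∀ D, FiniteDimensional ℝ (F D)
  ex : ∀ c, ∃ D, c ∈ F D
  π_mem : ∀ d c, π d c ∈ F d
  π_zero : ∀ {D d c}, c ∈ F D → D < d → π d c = 0
  π_sum : ∀ {D c}, c ∈ F D → ∑ d ∈ Finset.range (D + 1), π d c = c

variable {V P : Type} [NormedAddCommGroup V] [NormedSpace ℝ V] [CommRing P] [Algebra ℂ P]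

/-- `M` raises the dimension by at most `n` -/
def Fil.Up (Φ : Fil V) (n : ℕ) (M : V → V) : Prop := ∀ D, ∀ c ∈ Φ.F D, M c ∈ Φ.F (D + n)

/-- the component `ν` of the Killing field `Λ y + e` times `g` -/
def km (Λ : Mat) (e : R4) (ν : Fin 4) (g : R4 → ℝ) (y : R4) : ℝ := (act Λ y + e) ν * g y

/-- the generator of `rot l` -/
def om (l : Fin 3) : Mat := fun ν α =>
  if ν = 0 ∧ α = l.succ then -1 else if ν = l.succ ∧ α = 0 then 1 else 0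

/-- `ξ = 1` near the support of `f` -/
def One (ξ f : R4 → ℝ) : Prop := Ds univ ξ ∧ ∀ᶠ y in 𝓝ˢ (tsupport f), ξ y = 1

/-- families of correlation functions -/
abbrev Cor (V : Type) : Type := ∀ k, (Fin k → V) → (Fin k → R4 → ℝ) → ℂ

variable (Φ : Fil V) (N : Net P) (x : V → (R4 → ℝ) → P) (W : P →ₗ[ℂ] ℂ)
  (ρ : Iso →* V →ₗ[ℝ] V) (T : Fin 4 → Fin 4 → V) (A : ℝ → V ≃ₗ[ℝ] V) (S : Cor V)

/-- the flux of the stress tensor -/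
def fl (Λ : Mat) (e : R4) (ξ : R4 → ℝ) : P := ∑ μ, ∑ ν, x (T μ ν) (km Λ e ν (pd μ ξ))

/-- the operator product expansion with a remainder `o (s ^ p)` -/
def Merge (k : ℕ) (c : Fin k → V) (p D : ℕ) : Prop :=
  ∀ u : Fin k → R4 → ℝ, Adm u → (∀ i, Ds univ (u i)) → ∃ m : ℝ → V, (∀ s, m s ∈ Φ.F D) ∧
    ∀ f, Ds univ f → ∀ Z ∈ N.loc (tsupport f)ᶜ, Tendsto (fun s : ℝ =>
      (∫ z, f z * W ((∏ i, x (c i) fun y => u i (s⁻¹ • (y - z))) * Z)) / s ^ p - W (x (m s) f * Z))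
      (𝓝[>] 0) (𝓝 0)

/-- the input from the renormalisation group -/
structure Rg : Prop where
  gen : Gen N x fun μ => ρ (rfL μ)
  st : N.St W
  lin : LinF N x W
  linc : ∀ (t : ℝ) a b g, C1 univ g → ∀ Z ∈ N.loc (tsupport g)ᶜ,
    W (x (t • a + b) g * Z) = t * W (x a g * Z) + W (x b g * Z)
  bd : ∀ k (c : Fin k → V) (K : Fin k → Set R4), (∀ i, IsCompact (K i)) →
    (Pairwise fun i j => Disjoint (K i) (K j)) → ∃ C : ℝ, ∀ (g : Fin k → R4 → ℝ) (b : Fin k → ℝ),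
      (∀ i, C1 (K i) (g i) ∧ ∀ y, |g i y| ≤ b i) → ‖W (∏ i, x (c i) (g i))‖ ≤ C * ∏ i, b i
  mg1 : ∀ d, ∀ c ∈ Φ.F d, Merge Φ N x W 1 ![c] 5 (d + 1)
  mg2 : ∀ a ∈ Φ.F 4, ∀ d, ∀ c ∈ Φ.F d,
    Merge Φ N x W 2 ![a, c] 5 (d + 1) ∧ Merge Φ N x W 2 ![a, c] 4 d
  up : ∀ t, Φ.Up 0 (A t) ∧ Φ.Up 0 (A t).symm
  comm : ∀ t μ c, A t (ρ (rfL μ) c) = ρ (rfL μ) (A t c)
  af : ∀ k (c : Fin k → V) f, Adm f →
    Tendsto (fun t : ℝ => W (∏ i, x (A t (c i)) fun y => f i (t⁻¹ • y))) (𝓝[>] 0) (𝓝 (S k c f))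
  low : ∀ c ≠ 0, ∃ f, Ds (Hs 0 0) f ∧ S 2 ![c, ρ (rfL 0) c] ![f, fun y => f (rf 0 y)] ≠ 0

/-- a conserved symmetric tensor of dimension four -/
structure Cu : Prop where
  mem : ∀ μ ν, T μ ν ∈ Φ.F 4
  sym : ∀ μ ν, T μ ν = T ν μ
  refl : ∀ l μ ν, ρ (rfL l) (T μ ν) = (sr l μ * sr l ν) • T μ ν
  con : ∀ ν f, Ds univ f → ∀ Z ∈ N.loc (tsupport f)ᶜ, ∑ μ, W (x (T μ ν) (pd μ f) * Z) = 0

/-- the free theory -/
structure Fr (T₀ : Fin 4 → Fin 4 → V) (δ₀ : Fin 4 → V → V) (σ₀ : Fin 3 → V →ₗ[ℝ] V) : Prop where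
  up : ∀ R, Φ.Up 0 (ρ R)
  gr : ∀ R d c, Φ.π d (ρ R c) = ρ R (Φ.π d c)
  der : ∀ l c, HasDerivAt (fun θ => ρ (rot l θ) c) (σ₀ l c) 0
  upδ : ∀ ν, Φ.Up 1 (δ₀ ν)
  tr : ∀ ν c c' f f' ξ, Ds univ f → Ds (tsupport ξ)ᶜ f' → One ξ f →
    ∑ μ, S 3 ![T₀ μ ν, c, c'] ![pd μ ξ, f, f'] = S 2 ![δ₀ ν c, c'] ![f, f']
  ro : ∀ l c c' f f' ξ, Ds univ f → Ds (tsupport ξ)ᶜ f' → One ξ f →
    ∑ μ, ∑ ν, S 3 ![T₀ μ ν, c, c'] ![km (om l) 0 ν (pd μ ξ), f, f'] =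
      ∑ ν, S 2 ![δ₀ ν c, c'] ![km (om l) 0 ν f, f'] - S 2 ![σ₀ l c, c'] ![f, f']

/-- no null fields -/
def Nd : Prop := ∀ c,
  (∀ c' f, Ds (Hs 0 0) f → W (x c f * x c' fun y => f (rf 0 y)) = 0) → c = 0

/-- derivatives -/
structure Der (D : Fin 4 → V →ₗ[ℝ] V) : Prop where
  upD : ∀ ν, Φ.Up 1 (D ν)
  der : ∀ ν c f, Ds univ f → ∀ Z ∈ N.loc (tsupport f)ᶜ,
    W (x (D ν c) f * Z) = W (x c (pd ν f) * Z)

/-- derivatives and contour maps -/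
structure Ops (D δ : Fin 4 → V →ₗ[ℝ] V) (σ : Mat → V →ₗ[ℝ] V) : Prop extends Der Φ N x W D where
  upδ : ∀ ν, Φ.Up 1 (δ ν)
  upσ : ∀ Λ, Φ.Up 0 (σ Λ)
  σ0 : σ 0 = 0
  q : ∀ Λ e c f ξ, Λᵀ = -Λ → Ds univ f → One ξ f → ∀ Z ∈ N.loc (tsupport ξ)ᶜ,
    W (fl x T Λ e ξ * x c f * Z) = ∑ ν, W (x (δ ν c) (km Λ e ν f) * Z) - W (x (σ Λ c) f * Z)

/-- the Ward identity for the stress tensor itself and its short distance limit -/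
structure Wt (D δ : Fin 4 → V →ₗ[ℝ] V) (σ : Mat → V →ₗ[ℝ] V) (T₀ : Fin 4 → Fin 4 → V) : Prop where
  tr : ∀ ν μ α, δ ν (T μ α) = D ν (T μ α)
  ro : ∀ l μ α, σ (om l) (T μ α) = ∑ β, (om l β μ • T β α + om l β α • T μ β)
  af : ∀ μ ν, Tendsto (fun t => (A t).symm (T μ ν)) (𝓝[>] 0) (𝓝 (T₀ μ ν))

/-- no spontaneous breaking of the rotations -/
def Nsb : Prop := ∀ l r, ∀ Z ∈ N.loc (Bx r), ∀ ξ, Ds univ ξ →
  (∀ μ, Ds {y | ∃ l, r < |y l|} (pd μ ξ)) →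
    ∑ μ, ∑ ν, cv W (x (T μ ν) (km (om l) 0 ν (pd μ ξ))) Z = 0

/-- the fields `x (J c)` are covariant, the renormalisation `J⁻¹ (A t) (X t)` is covariant -/
structure Out (D δ : Fin 4 → V →ₗ[ℝ] V) (σ : Mat → V →ₗ[ℝ] V) (σ₀ : Fin 3 → V →ₗ[ℝ] V)
    (J : V ≃ₗ[ℝ] V) (X : ℝ → V →ₗ[ℝ] V) : Prop where
  eq : δ = D
  upJ : Φ.Up 0 J ∧ Φ.Up 0 J.symm
  upX : ∀ t, Φ.Up 0 (X t)
  lim : ∀ c, Tendsto (fun t => X t c) (𝓝[>] 0) (𝓝 c)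
  cov : RotL (fun c => x (J c)) W fun R => ρ R
  refl : ∀ μ c, J (ρ (rfL μ) c) = ρ (rfL μ) (J c)
  gen : ∀ l c, σ (om l) (J c) = J (σ₀ l c)
  comm : ∀ t R c, J.symm (A t (X t (ρ R c))) = ρ R (J.symm (A t (X t c)))
  af : ∀ k (c : Fin k → V) f, Adm f → Tendsto
    (fun t : ℝ => W (∏ i, x (A t (X t (c i))) fun y => f i (t⁻¹ • y))) (𝓝[>] 0) (𝓝 (S k c f))

end Pool.Agent.Lib.MP_7f377f_mp.Sw
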