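import Pool.Agent.Lib.MP_7f377f_mp.G.SwA
import Pool.Agent.Lib.MP_7f377f_mp.G.SwD

/-! Rotation covariance from the stress tensor: maps which preserve the filtration. -/

noncomputable section

namespace Pool.Agent.Lib.MP_7f377f_mp.Sw.Fil
set_option linter.unusedSectionVars false

open Filter Topology Set NormedSpace Function

variable {V ι : Type} [NormedAddCommGroup V] [NormedSpace ℝ V] (Φ : Fil V) {l : Filter ι} {D : ℕ}
  {c : V}

instance (D : ℕ) : FiniteDimensional ℝ (Φ.F D) := Φ.fin D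

/-- operators on the labels of dimension at most `D` -/
def L (D : ℕ) : Type := Φ.F D →L[ℝ] Φ.F D

instance (D : ℕ) : NormedRing (Φ.L D) := ContinuousLinearMap.toNormedRing (𝕜 := ℝ) (E := Φ.F D)

instance (D : ℕ) : NormedAlgebra ℝ (Φ.L D) :=
  ContinuousLinearMap.toNormedAlgebra (𝕜 := ℝ) (E := Φ.F D)

instance (D : ℕ) : FiniteDimensional ℝ (Φ.L D) :=
  inferInstanceAs (FiniteDimensional ℝ (Φ.F D →L[ℝ] Φ.F D))

instance (D : ℕ) : CompleteSpace (Φ.L D) := FiniteDimensional.complete ℝ _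

/-- the operator -/
def L.op {Φ : Fil V} (Y : Φ.L D) : Φ.F D →L[ℝ] Φ.F D := Y

/-- evaluation -/
def ap {Φ : Fil V} (c : Φ.F D) : Φ.L D →L[ℝ] V :=
  (Φ.F D).subtypeL ∘L ContinuousLinearMap.apply ℝ _ c

/-- the trace -/
def tr (D : ℕ) : Φ.L D →ₗ[ℝ] ℝ := LinearMap.trace ℝ (Φ.F D) ∘ₗ ContinuousLinearMap.coeLM ℝ

theorem tr_comm (a b : Φ.L D) : Φ.tr D (a * b) = Φ.tr D (b * a) :=
  LinearMap.trace_mul_comm ℝ a.op.toLinearMap b.op.toLinearMap

/-- maps which preserve the filtration -/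
def alg : Subalgebra ℝ (Module.End ℝ V) where
  carrier := {M | Φ.Up 0 M}
  mul_mem' h h' D c hc := h D _ (h' D c hc)
  add_mem' h h' D c hc := add_mem (h D c hc) (h' D c hc)
  algebraMap_mem' t D _ hc := (Φ.F D).smul_mem t hc

/-- restriction -/
def res (D : ℕ) : Φ.alg →ₐ[ℝ] Φ.L D where
  toFun M := LinearMap.toContinuousLinearMap (M.1.restrict (M.2 D))
  map_one' := rfl
  map_mul' _ _ := rfl
  map_zero' := rfl
  map_add' _ _ := rfl
  commutes' _ := rfl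

/-- convergence -/
def Cv (l : Filter ι) (M : ι → Φ.alg) (M₀ : Φ.alg) : Prop :=
  ∀ D, Tendsto (fun t => Φ.res D (M t)) l (𝓝 (Φ.res D M₀))

/-- the invertible element given by an equivalence -/
def un (A : V ≃ₗ[ℝ] V) (h : Φ.Up 0 A ∧ Φ.Up 0 A.symm) : Φ.algˣ :=
  ⟨⟨A, h.1⟩, ⟨A.symm, h.2⟩, Subtype.ext (LinearMap.ext A.apply_symm_apply),
    Subtype.ext (LinearMap.ext A.symm_apply_apply)⟩

theorem sum_eq (Y : ∀ d, Φ.F d →ₗ[ℝ] V) (h : c ∈ Φ.F D) :
    ∑ᶠ d, Y d ⟨Φ.π d c, Φ.π_mem d c⟩ = ∑ d ∈ Finset.range (D + 1), Y d ⟨Φ.π d c, Φ.π_mem d c⟩ :=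
  finsum_eq_sum_of_support_subset _ fun d hd => by
    by_contra e
    exact hd ((congrArg (Y d) (Subtype.ext (Φ.π_zero h (by simpa using e)))).trans (map_zero _))

theorem ex₂ (c c' : V) : ∃ D, c ∈ Φ.F D ∧ c' ∈ Φ.F D :=
  let ⟨D, h⟩ := Φ.ex c
  let ⟨D', h'⟩ := Φ.ex c'
  ⟨max D D', Φ.mono (le_max_left _ _) h, Φ.mono (le_max_right _ _) h'⟩

/-- the map which is `Y d` in the degree `d` -/
def glue (Y : ∀ d, Φ.L d) : Φ.alg :=
  ⟨{ toFun c := ∑ᶠ d, ((Φ.F d).subtype ∘ₗ (Y d).op.toLinearMap) ⟨Φ.π d c, Φ.π_mem d c⟩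
     map_add' c c' := by
       obtain ⟨D, h, h'⟩ := Φ.ex₂ c c'
       simp only [Φ.sum_eq _ h, Φ.sum_eq _ h', Φ.sum_eq _ (add_mem h h'), ← Finset.sum_add_distrib,
         ← map_add]
       simp only [map_add (Φ.π _)]
       rfl
     map_smul' t c := by
       obtain ⟨D, h⟩ := Φ.ex c
       simp only [Φ.sum_eq _ h, Φ.sum_eq _ ((Φ.F D).smul_mem t h), Finset.smul_sum, ← map_smul,
         RingHom.id_apply]
       simp only [map_smul (Φ.π _)]
       rfl },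
    fun D c h => by
      refine mem_of_eq_of_mem (Φ.sum_eq _ h) (Submodule.sum_mem _ fun d hd => ?_)
      exact Φ.mono (Nat.lt_succ_iff.1 (Finset.mem_range.1 hd)) ((Y d).op _).2⟩

variable {Φ} {M M' : Φ.alg}

theorem glue_apply (Y : ∀ d, Φ.L d) (h : c ∈ Φ.F D) : (Φ.glue Y).1 c =
    ∑ d ∈ Finset.range (D + 1), ap ⟨Φ.π d c, Φ.π_mem d c⟩ (Y d) := Φ.sum_eq _ h

theorem res_apply (M : Φ.alg) (c : Φ.F D) : ap c (Φ.res D M) = M.1 c := rfl

theorem ext (h : ∀ D, Φ.res D M = Φ.res D M') : M = M' := Subtype.ext (LinearMap.ext fun c =>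
  let ⟨D, hc⟩ := Φ.ex c
  congrArg (ap ⟨c, hc⟩) (h D))

theorem cv_iff {M : ι → Φ.alg} : Φ.Cv l M M' ↔ ∀ c, Tendsto (fun t => (M t).1 c) l (𝓝 (M'.1 c)) :=
  ⟨fun h c => let ⟨D, hc⟩ := Φ.ex c
    ((ap ⟨c, hc⟩).continuous.tendsto _).comp (h D),
  fun h D => ptw (E := Φ.F D) (F := Φ.F D) fun c => tendsto_subtype_rng.2 (h c)⟩

theorem Cv.mul {M N : ι → Φ.alg} {N' : Φ.alg} (h : Φ.Cv l M M') (h' : Φ.Cv l N N') :
    Φ.Cv l (fun t => M t * N t) (M' * N') := fun D => by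
  simpa only [map_mul] using (h D).mul (h' D)

theorem Cv.const : Φ.Cv l (fun _ => M) M := fun _ => tendsto_const_nhds

/-- the exponential -/
def exp (M : Φ.alg) : Φ.alg := Φ.glue fun d => NormedSpace.exp (Φ.res d M)

theorem res_exp (M : Φ.alg) (D : ℕ) : Φ.res D (exp M) = NormedSpace.exp (Φ.res D M) := by
  refine ContinuousLinearMap.ext fun ⟨c, h⟩ => Subtype.ext ?_
  have e : (⟨c, h⟩ : Φ.F D) = ∑ d ∈ (Finset.range (D + 1)).attach, Submodule.inclusion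
      (Φ.mono (Nat.lt_succ_iff.1 (Finset.mem_range.1 d.2))) ⟨Φ.π d c, Φ.π_mem d c⟩ :=
    Subtype.ext (by simpa [Finset.sum_attach _ fun d => Φ.π d c] using (Φ.π_sum h).symm)
  refine (glue_apply _ h).trans ?_
  rw [e, map_sum, Submodule.coe_sum, ← Finset.sum_attach]
  exact Finset.sum_congr rfl fun d _ => congrArg Subtype.val (exp_semi (b := (Φ.res D M).op)
    (a := (Φ.res d M).op) (i := Submodule.inclusion _) (fun _ => rfl) _)

theorem exp_semi {e : V →ₗ[ℝ] V} {n : ℕ} (he : Φ.Up n e) (h : ∀ c, e (M.1 c) = M'.1 (e c)) (c : V) :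
    e ((exp M).1 c) = (exp M').1 (e c) := by
  obtain ⟨D, hc⟩ := Φ.ex c
  rw [← res_apply _ ⟨c, hc⟩, ← res_apply _ ⟨e c, he D c hc⟩, res_exp, res_exp]
  exact congrArg Subtype.val (Sw.exp_semi (i := e.restrict (he D)) (a := (Φ.res D M).op)
    (b := (Φ.res _ M').op) (fun c => Subtype.ext (h c)) ⟨c, hc⟩)

theorem exp_add (M : Φ.alg) (s t : ℝ) : exp ((s + t) • M) = exp (s • M) * exp (t • M) :=
  ext fun D => by simp only [res_exp, map_mul, map_smul, exp_ad]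

theorem exp_zero (M : Φ.alg) : exp ((0 : ℝ) • M) = 1 := ext fun D => by simp [res_exp]

theorem exp_der (M : Φ.alg) (c : V) : HasDerivAt (fun s : ℝ => (exp (s • M)).1 c) (M.1 c) 0 := by
  obtain ⟨D, hc⟩ := Φ.ex c
  have := (ap ⟨c, hc⟩).hasFDerivAt.comp_hasDerivAt (0 : ℝ)
    (hasDerivAt_exp_smul_const (Φ.res D M) (0 : ℝ))
  simp only [comp_def, ← map_smul, ← res_exp, exp_zero, map_one, one_mul] at this
  exact this

theorem eq_exp {U : ℝ → Φ.alg} (h0 : U 0 = 1) (h1 : ∀ s t, U (s + t) = U s * U t)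
    (h : ∀ c, HasDerivAt (fun s => (U s).1 c) (M.1 c) 0) (t : ℝ) : U t = exp (t • M) :=
  ext fun D => by
    rw [res_exp, map_smul]
    refine Sw.eq_exp (U := fun s => Φ.res D (U s)) (by simp [h0]) (by simp [h1])
      (hasDerivAt_iff_tendsto_slope.2 (ptw (E := Φ.F D) (F := Φ.F D) fun c =>
        tendsto_subtype_rng.2 ?_)) t
    exact hasDerivAt_iff_tendsto_slope.1 (h c)

theorem exp_cj (A : Φ.algˣ) (M : Φ.alg) : A⁻¹.1 * exp M * A.1 = exp (A⁻¹.1 * M * A.1) := by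
  rw [mul_assoc, Units.inv_mul_eq_iff_eq_mul]
  exact Subtype.ext (LinearMap.ext fun c => (exp_semi (n := 0) A.1.2 (fun c =>
    congrArg (fun L : Φ.alg => L.1 c) (show A.1 * (A⁻¹.1 * M * A.1) = M * A.1 by simp [mul_assoc])) c).symm)

theorem Cv.exp {M : ι → Φ.alg} (h : Φ.Cv l M M') : Φ.Cv l (fun t => exp (M t)) (exp M') :=
  fun D => by simpa only [res_exp] using! (exp_cont.tendsto _).comp (h D)

theorem isUnit (h : Injective M.1) : IsUnit M := by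
  have s : ∀ D, ∀ c ∈ Φ.F D, ∃ c' ∈ Φ.F D, M.1 c' = c := fun D c hc => by
    obtain ⟨c', e⟩ := LinearMap.injective_iff_surjective.1 (show Injective (M.1.restrict (M.2 D)) from
      fun a b e => Subtype.ext (h (congrArg Subtype.val e))) ⟨c, hc⟩
    exact ⟨c', c'.2, congrArg Subtype.val e⟩
  let A := LinearEquiv.ofBijective M.1 ⟨h, fun c => let ⟨D, hc⟩ := Φ.ex c; (s D c hc).imp fun _ e => e.2⟩
  exact ⟨Φ.un A ⟨M.2, fun D c hc => by
    obtain ⟨c', h', rfl⟩ := s D c hc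
    exact (A.symm_apply_apply c').symm ▸ h'⟩, rfl⟩

theorem glue_unit {Y : ∀ d, Φ.L d} (h : ∀ d, Injective (Y d).op)
    (h' : ∀ d, ∀ c : Φ.F (d + 1), c.1 ∈ Φ.F d → ap c (Y _) ∈ Φ.F d) : IsUnit (Φ.glue Y) := by
  refine isUnit ((injective_iff_map_eq_zero _).2 fun c => ?_)
  obtain ⟨D, hc⟩ := Φ.ex c
  induction D with
  | zero =>
    have := Φ.π_sum hc
    rw [glue_apply _ hc]
    simp only [zero_add, Finset.range_one, Finset.sum_singleton, this] at this ⊢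
    exact fun e => this ▸ congrArg Subtype.val ((map_eq_zero_iff _ (h 0)).1 (Subtype.ext e))
  | succ D ih =>
    refine fun e => ih ?_ e
    have m : ∀ d ∈ Finset.range (D + 1), Φ.F d ≤ Φ.F D := fun d hd =>
      Φ.mono (Nat.lt_succ_iff.1 (Finset.mem_range.1 hd))
    have h1 := Φ.π_sum hc
    rw [glue_apply _ hc, Finset.sum_range_succ, add_eq_zero_iff_neg_eq] at e
    rw [Finset.sum_range_succ] at h1
    refine h1 ▸ add_mem (Submodule.sum_mem _ fun d hd => m d hd (Φ.π_mem d c)) ?_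
    let i := Submodule.inclusion (Φ.mono D.le_succ)
    obtain ⟨c', e'⟩ := LinearMap.injective_iff_surjective.1 (show Injective (LinearMap.codRestrict
      (Φ.F D) ((Φ.F _).subtype ∘ₗ (Y _).op.toLinearMap ∘ₗ i) fun c => h' D _ c.2) from fun a b e =>
        Submodule.inclusion_injective _ (h _ (a₁ := i a) (a₂ := i b)
          (Subtype.ext (Subtype.ext_iff.1 e :))))
      ⟨_, e ▸ neg_mem (Submodule.sum_mem _ fun d hd => m d hd ((Y d).op _).2)⟩
    exact mem_of_eq_of_mem (congrArg Subtype.val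
      (h _ (a₁ := i c') (Subtype.ext (Subtype.ext_iff.1 e' :)))).symm c'.2

theorem equi {Γ : Type} [Group Γ] [l.NeBot] (ρ ρ' : Γ →* Φ.alg) (A : ι → Φ.algˣ)
    (gr : ∀ g d c, Φ.π d ((ρ g).1 c) = (ρ g).1 (Φ.π d c))
    (bd : ∀ D, ∃ C, ∀ g, ‖Φ.res D (ρ g)‖ ≤ C) (un : ∀ D, ∀ ε > 0, ∀ᶠ t in l, ∀ g,
      ‖Φ.res D ((A t)⁻¹.1 * ρ' g * A t) - Φ.res D (ρ g)‖ ≤ ε) :
    ∃ (J : Φ.algˣ) (X : ι → Φ.alg), Φ.Cv l X 1 ∧ (∀ g, J * ρ g = ρ' g * J) ∧
      ∀ t g, A t * X t * ρ g = ρ' g * (A t * X t) := by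
  choose C hC using bd
  choose Y h1 h2 h3 using fun d => avg ((Φ.res d).toMonoidHom.comp ρ) ((Φ.res d).toMonoidHom.comp ρ')
    (fun t => Units.map (Φ.res d).toMonoidHom (A t)) (hC d) (un d)
  have eqv : ∀ (s : ℕ → ι) g, Φ.glue (fun d => Y d (s d)) * ρ g = ρ' g * Φ.glue fun d => Y d (s d) :=
    fun s g => Subtype.ext (LinearMap.ext fun c => by
      obtain ⟨D, hc⟩ := Φ.ex c
      change (Φ.glue _).1 ((ρ g).1 c) = (ρ' g).1 ((Φ.glue _).1 c)
      rw [glue_apply _ hc, glue_apply (D := D) _ ((ρ g).2 D c hc), map_sum]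
      simp only [gr]
      exact Finset.sum_congr rfl fun d _ => congrArg (ap ⟨_, Φ.π_mem d c⟩) (h1 d (s d) g))
  choose s hs using fun d => (Metric.tendsto_nhds.1 (h2 d) _ one_pos).exists
  obtain ⟨J, hJ⟩ := glue_unit (Y := fun d => Y d (s d)) (fun d => by
    have := (Units.oneSub _ ((dist_eq_norm' _ _).symm.trans_lt (hs d))).isUnit
    rw [Units.val_oneSub, sub_sub_cancel] at this
    exact Injective.of_comp (f := (Φ.res d (A (s d))⁻¹.1).op)
      (ContinuousLinearMap.isUnit_iff_bijective.1 this).1) fun d c hc =>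
    h3 _ _ (ap c ⁻¹' Φ.F d) ((Φ.F d).closed_of_finiteDimensional.preimage (ap c).continuous)
      ((Φ.F d).convex.linear_preimage (ap c).toLinearMap) fun g => (ρ' g * A _ * ρ g⁻¹).2 d c hc
  refine ⟨J, fun t => (A t)⁻¹.1 * Φ.glue fun d => Y d t, cv_iff.2 fun c => ?_,
    fun g => hJ ▸ eqv s g, fun t g => by simpa using eqv (fun _ => t) g⟩
  obtain ⟨D, hc⟩ := Φ.ex c
  have := tendsto_finsetSum (Finset.range (D + 1)) fun d _ =>
    ((ap ⟨_, Φ.π_mem d c⟩).continuous.tendsto _).comp (h2 d)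
  refine (Φ.π_sum hc ▸ this : Tendsto _ l (𝓝 c)).congr fun t => ?_
  change _ = (A t)⁻¹.1.1 ((Φ.glue _).1 c)
  rw [glue_apply _ hc, map_sum]
  rfl

end Pool.Agent.Lib.MP_7f377f_mp.Sw.Fil
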