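import Mathlib

/-! Slow renormalisation: elementary analysis. -/

noncomputable section

namespace Pool.Agent.Lib.MP_7f377f_mp.Zo
set_option linter.unusedSectionVars false

open Filter Topology Set Metric Module Function

theorem mapp {ι κ E : Type} [Fintype κ] [NormedAddCommGroup E] [NormedSpace ℝ E]
    [FiniteDimensional ℝ E] {l : Filter ι} {L : ι → MultilinearMap ℝ (fun _ : κ => E) ℂ}
    {L₀ : (κ → E) → ℂ} (h : ∀ c, Tendsto (fun t => L t c) l (𝓝 (L₀ c))) {v : ι → κ → E} {v₀ : κ → E}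
    (hv : ∀ i, Tendsto (fun t => v t i) l (𝓝 (v₀ i))) :
    Tendsto (fun t => L t (v t)) l (𝓝 (L₀ v₀)) := by
  classical
  let b := finBasis ℝ E
  have e : ∀ t (w : κ → E), L t w =
      ∑ I : κ → Fin (finrank ℝ E), (∏ i, b.coord (I i) (w i)) • L t fun i => b (I i) := fun t w => by
    conv_lhs => rw [show w = fun i => ∑ j, b.coord j (w i) • b j from
      funext fun i => (b.sum_repr (w i)).symm]
    simp only [MultilinearMap.map_sum, MultilinearMap.map_smul_univ]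
  have := (h v₀).add (tendsto_finsetSum Finset.univ fun (I : κ → Fin (finrank ℝ E)) _ =>
    ((tendsto_finsetProd Finset.univ fun i _ =>
      ((b.coord (I i)).continuous_of_finiteDimensional.tendsto _).comp (hv i)).sub_const
      (∏ i, b.coord (I i) (v₀ i))).smul (h fun i => b (I i)))
  simp only [sub_self, zero_smul, Finset.sum_const_zero, add_zero] at this
  refine this.congr fun t => ?_
  simp only [sub_smul, Finset.sum_sub_distrib, comp_apply, ← e, add_sub_cancel]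

theorem tel {X : Type} {k : ℕ} {Λ : (Fin k → X → ℝ) → ℂ} {p : Fin k → (X → ℝ) → Prop} {C B ε : ℝ}
    (h1 : ∀ i a a', p i a → p i a' → p i (a - a'))
    (h2 : ∀ g i a a', (∀ j, p j (g j)) → p i a → p i a' →
      Λ (update g i a) - Λ (update g i a') = Λ (update g i (a - a')))
    (h3 : ∀ (g : Fin k → X → ℝ) (b : Fin k → ℝ), (∀ i, p i (g i) ∧ ∀ y, |g i y| ≤ b i) →
      ‖Λ g‖ ≤ C * ∏ i, b i) (B1 : 1 ≤ B) (ε0 : 0 ≤ ε) {g g' : Fin k → X → ℝ}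
    (hg : ∀ i, p i (g i) ∧ ∀ y, |g i y| ≤ B) (hg' : ∀ i, p i (g' i) ∧ ∀ y, |g' i y| ≤ B)
    (he : ∀ i y, |g i y - g' i y| ≤ ε) : ‖Λ g - Λ g'‖ ≤ k * (|C| * B ^ k * ε) := by
  have : ∀ T : Finset (Fin k), ‖Λ (T.piecewise g g') - Λ g'‖ ≤ T.card * (|C| * B ^ k * ε) := by
    intro T
    induction T using Finset.induction_on with
    | empty => simp
    | insert i T hi ih =>
      have q : ∀ j, p j (T.piecewise g g' j) ∧ ∀ y, |T.piecewise g g' j y| ≤ B := fun j => by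
        by_cases c : j ∈ T <;> simp [c, hg, hg']
      have e := h2 _ i _ _ (fun j => (q j).1) (hg i).1 (hg' i).1
      have b := h3 (update (T.piecewise g g') i (g i - g' i)) (update (fun _ => B) i ε) fun j => by
        by_cases c : j = i
        · subst c
          simpa using ⟨h1 _ _ _ (hg j).1 (hg' j).1, he j⟩
        · simpa [c] using q j
      rw [← e, ← Finset.piecewise_insert, update_eq_self_iff.2 (by simp [hi]),
        Finset.prod_update_of_mem (Finset.mem_univ i), Finset.prod_const] at b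
      have : B ^ (Finset.univ \ {i}).card ≤ B ^ k :=
        pow_le_pow_right₀ B1 ((Finset.card_le_univ _).trans_eq (Fintype.card_fin k))
      have : C * (ε * B ^ (Finset.univ \ {i}).card) ≤ |C| * B ^ k * ε := by
        rw [mul_assoc, mul_comm _ ε]
        exact mul_le_mul (le_abs_self C) (by gcongr) (by positivity) (abs_nonneg C)
      rw [Finset.card_insert_of_notMem hi, Nat.cast_succ]
      linarith [norm_sub_le_norm_sub_add_norm_sub (Λ ((insert i T).piecewise g g'))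
        (Λ (T.piecewise g g')) (Λ g')]
  simpa using this Finset.univ

theorem recu {e : ℝ → ℝ} (e0 : ∀ t > 0, 0 ≤ e t) (h : ∀ η > 0, ∃ r ∈ Ioo (0 : ℝ) 1, ∃ δ > 0, ∃ B,
    (∀ s ∈ Ioc 0 δ, e (r * s) ≤ e s / 2 + η) ∧ ∀ s ∈ Icc (r * δ) δ, e s ≤ B) :
    Tendsto e (𝓝[>] 0) (𝓝 0) := by
  refine Metric.tendsto_nhds.2 fun η η0 => ?_
  obtain ⟨r, ⟨r0, r1⟩, δ, δ0, B, h1, h2⟩ := h (η / 4) (by positivity)
  have k : ∀ n : ℕ, ∀ s ∈ Icc (r * δ) δ, e (r ^ n * s) ≤ B / 2 ^ n + η / 2 := fun n s hs => by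
    have s0 : 0 < s := (mul_pos r0 δ0).trans_le hs.1
    induction n with
    | zero => simpa using (h2 s hs).trans (by linarith)
    | succ n ih =>
      have := h1 (r ^ n * s) ⟨by positivity,
        (mul_le_of_le_one_left s0.le (pow_le_one₀ r0.le r1.le)).trans hs.2⟩
      rw [pow_succ', mul_assoc, pow_succ, ← div_div]
      linarith
  obtain ⟨m, hm⟩ := eventually_atTop.1 (((tendsto_pow_atTop_atTop_of_one_lt one_lt_two).const_div_atTop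
    B).eventually_lt_const (half_pos η0))
  filter_upwards [Ioo_mem_nhdsGT (show 0 < r ^ m * δ by positivity)] with t ht
  obtain ⟨n, n1, n2⟩ := exists_nat_pow_near_of_lt_one (x := t / δ) (div_pos ht.1 δ0)
    ((div_le_one δ0).2 (ht.2.le.trans (mul_le_of_le_one_left δ0.le (pow_le_one₀ r0.le r1.le)))) r0 r1
  have rn : 0 < r ^ n := by positivity
  rw [lt_div_iff₀ δ0, pow_succ, mul_assoc] at n1
  have := k n (t / r ^ n) ⟨(le_div_iff₀' rn).2 n1.le, (div_le_iff₀' rn).2 ((div_le_iff₀ δ0).1 n2)⟩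
  have mn : m ≤ n := Nat.lt_succ_iff.1 ((pow_lt_pow_iff_right_of_lt_one₀ r0 r1).1
    (lt_of_mul_lt_mul_right (by rw [pow_succ, mul_assoc]; exact n1.trans ht.2) δ0.le))
  rw [mul_div_cancel₀ _ rn.ne'] at this
  rw [Real.dist_eq, sub_zero, abs_of_nonneg (e0 t ht.1)]
  linarith [hm n mn]

theorem poly0 (n : ℕ) (a : ℕ → ℂ) (h : Tendsto (fun r : ℝ =>
    (∑ d ∈ Finset.range (n + 1), (r : ℂ) ^ d * a d) / r ^ n) (𝓝[>] 0) (𝓝 0)) :
    ∀ d ≤ n, a d = 0 := by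
  have c : ∀ n (a : ℕ → ℂ), Tendsto (fun r : ℝ => ∑ d ∈ Finset.range (n + 1), (r : ℂ) ^ d * a d)
      (𝓝[>] 0) (𝓝 (a 0)) := fun n a => by
    refine tendsto_nhdsWithin_of_tendsto_nhds (Continuous.tendsto' (by fun_prop) _ _ ?_)
    simp [Finset.sum_range_succ']
  induction n generalizing a with
  | zero => exact fun d hd => Nat.le_zero.1 hd ▸ tendsto_nhds_unique (c 0 a) (by simpa using h)
  | succ n ih =>
    have a0 : a 0 = 0 := tendsto_nhds_unique (c _ a) <| by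
      have := h.mul (tendsto_nhdsWithin_of_tendsto_nhds
        ((Complex.continuous_ofReal.pow (n + 1)).tendsto 0))
      rw [zero_mul] at this
      refine this.congr' (eventually_mem_nhdsWithin.mono fun r (hr : 0 < r) => ?_)
      exact div_mul_cancel₀ _ (pow_ne_zero _ (by exact_mod_cast hr.ne'))
    rintro (_ | d) hd
    · exact a0
    refine ih (fun d => a (d + 1)) (h.congr' (eventually_mem_nhdsWithin.mono
      fun r (hr : 0 < r) => ?_)) d (by omega)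
    have : (r : ℂ) ≠ 0 := by exact_mod_cast hr.ne'
    simp only [Finset.sum_range_succ' _ (n + 1), a0, mul_zero, add_zero, pow_succ', mul_assoc,
      ← Finset.mul_sum, mul_div_mul_left _ _ this]

section
variable {ι X : Type} [NormedAddCommGroup X] [NormedSpace ℝ X] [ProperSpace X] {l : Filter ι}
  {g : ι → X → ℝ} {g₀ : X → ℝ}

/-- convergence of test functions -/
structure Cv1 (l : Filter ι) (g : ι → X → ℝ) (g₀ : X → ℝ) : Prop where
  dif : ∀ᶠ t in l, ContDiff ℝ 1 (g t)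
  uni : TendstoUniformly g g₀ l
  sup : ∀ U ∈ 𝓝ˢ (tsupport g₀), ∀ᶠ t in l, tsupport (g t) ⊆ U

theorem Cv1.comp {κ : Type} {l' : Filter κ} {p : κ → ι} (h : Cv1 l g g₀) (hp : Tendsto p l' l) :
    Cv1 l' (fun t => g (p t)) g₀ :=
  ⟨hp.eventually h.dif, fun u hu => hp.eventually (h.uni u hu), fun U hU => hp.eventually (h.sup U hU)⟩

theorem cv1_const (h : ContDiff ℝ 1 g₀) : Cv1 l (fun _ => g₀) g₀ :=
  ⟨.of_forall fun _ => h, fun _ hu => .of_forall fun _ _ => refl_mem_uniformity hu,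
    fun _ hU => .of_forall fun _ => subset_of_mem_nhdsSet hU⟩

theorem ts_aff {a : ℝ} (ha : a ≠ 0) (b : X) (g : X → ℝ) :
    tsupport (fun y => g (a⁻¹ • (y - b))) = (fun w => a • w + b) '' tsupport g := by
  let θ := (Homeomorph.smulOfNeZero a ha).trans (Homeomorph.addRight b)
  refine .trans ?_ (θ.image_closure _).symm
  refine congrArg closure (Set.ext fun y => ⟨fun h => ⟨_, h, by simp [θ, ha]⟩, ?_⟩)
  rintro ⟨w, h, rfl⟩
  simpa [θ, ha] using h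

theorem Cv1.aff (h : Cv1 l g g₀) (h0 : HasCompactSupport g₀) (hc : Continuous g₀) {a : ι → ℝ}
    {a₀ : ℝ} {b : ι → X} {b₀ : X} (ha : Tendsto a l (𝓝 a₀)) (a0 : a₀ ≠ 0) (hb : Tendsto b l (𝓝 b₀)) :
    Cv1 l (fun t y => g t ((a t)⁻¹ • (y - b t))) fun y => g₀ (a₀⁻¹ • (y - b₀)) := by
  have s : ∀ {g : ι → X → ℝ}, (∀ U ∈ 𝓝ˢ (tsupport g₀), ∀ᶠ t in l, tsupport (g t) ⊆ U) →
      ∀ U ∈ 𝓝ˢ (tsupport fun y => g₀ (a₀⁻¹ • (y - b₀))),
      ∀ᶠ t in l, tsupport (fun y => g t ((a t)⁻¹ • (y - b t))) ⊆ U := fun h U hU => by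
    rw [ts_aff a0] at hU
    have := (show Continuous fun p : (ℝ × X) × X => p.1.1 • p.2 + p.1.2 by fun_prop).tendsto_nhdsSet
      (s := {(a₀, b₀)} ×ˢ tsupport g₀) (by rintro ⟨_, w⟩ ⟨rfl, hw⟩; exact ⟨w, hw, rfl⟩) hU
    rw [isCompact_singleton.nhdsSet_prod_eq h0, nhdsSet_singleton, mem_map, mem_prod_iff] at this
    obtain ⟨O, hO, O', hO', e⟩ := this
    filter_upwards [(ha.prodMk_nhds hb).eventually hO, h O' hO', ha.eventually_ne a0] with t t1 t2 t3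
    rw [ts_aff t3]
    rintro _ ⟨w, hw, rfl⟩
    exact e (mk_mem_prod t1 (t2 hw))
  refine ⟨h.dif.mono fun t e => e.comp (by fun_prop), Metric.tendstoUniformly_iff.2 fun ε ε0 => ?_,
    s h.sup⟩
  obtain ⟨K, k1, k2, -⟩ := exists_compact_between (K := tsupport fun y => g₀ (a₀⁻¹ • (y - b₀)))
    (ts_aff a0 b₀ g₀ ▸ h0.isCompact.image (by fun_prop)) isOpen_univ (subset_univ _)
  have u := k1.eventually_forall_of_forall_eventually (x₀ := (a₀, b₀)) (P := fun p y =>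
    dist (g₀ (a₀⁻¹ • (y - b₀))) (g₀ (p.1⁻¹ • (y - p.2))) < ε / 2) fun y _ =>
      (ContinuousAt.tendsto (f := fun p : (ℝ × X) × X => dist (g₀ (a₀⁻¹ • (p.2 - b₀)))
        (g₀ (p.1.1⁻¹ • (p.2 - p.1.2)))) (by fun_prop (disch := exact a0))).eventually_lt_const
        (by simpa using ε0)
  filter_upwards [(ha.prodMk_nhds hb).eventually u, Metric.tendstoUniformly_iff.1 h.uni _ (half_pos ε0),
    s (g := fun _ => g₀) (fun _ hU => .of_forall fun _ => subset_of_mem_nhdsSet hU) _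
      (subset_interior_iff_mem_nhdsSet.1 k2)] with t t1 t2 t3 y
  have := dist_triangle (g₀ (a₀⁻¹ • (y - b₀))) (g₀ ((a t)⁻¹ • (y - b t))) (g t ((a t)⁻¹ • (y - b t)))
  by_cases c : y ∈ K
  · linarith [t1 y c, t2 ((a t)⁻¹ • (y - b t))]
  · have e1 : g₀ (a₀⁻¹ • (y - b₀)) = 0 := image_eq_zero_of_notMem_tsupport
      (f := fun y => g₀ (a₀⁻¹ • (y - b₀))) fun e => c (interior_subset (k2 e))
    have e2 : g₀ ((a t)⁻¹ • (y - b t)) = 0 := image_eq_zero_of_notMem_tsupport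
      (f := fun y => g₀ ((a t)⁻¹ • (y - b t))) fun e => c (t3 e)
    have := t2 ((a t)⁻¹ • (y - b t))
    rw [e2] at this
    rw [e1]
    linarith

end

section
variable {R 𝔸 : Type} [Ring R] [NormedRing 𝔸] {φ : R →+* 𝔸} {γ : R →+* R} {σ : ℝ → R} {K C : ℝ}
  {u : ℝ → Rˣ}

/-- a grading `γ` with the dilations `σ` -/
structure Gr (φ : R →+* 𝔸) (γ : R →+* R) (σ : ℝ → R) (K : ℝ) : Prop where
  idem : ∀ a, γ (γ a) = γ a
  fix : ∀ r, γ (σ r) = σ r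
  comm : ∀ r a, σ r * γ a = γ a * σ r
  mul : ∀ r > 0, ∀ s > 0, σ r * σ s = σ (r * s)
  one : σ 1 = 1
  bd : ∀ a, ‖φ (γ a)‖ ≤ K * ‖φ a‖
  ctr : ∀ a, γ a = 0 → ∀ r ∈ Ioc (0 : ℝ) 1, ‖φ (σ r⁻¹ * a * σ r)‖ ≤ K * r * ‖φ a‖

/-- the family `u` scales like `σ` up to bounded factors -/
def Bs (φ : R →+* 𝔸) (σ : ℝ → R) (u : ℝ → Rˣ) (C : ℝ) : Prop := ∀ κ > (0 : ℝ), ∃ δ > 0,
  ∀ s ∈ Ioc 0 δ, ∀ s' ∈ Ioc 0 δ, ∀ a ∈ Icc κ κ⁻¹, ∀ a' ∈ Icc κ κ⁻¹, a * s = a' * s' →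
    ‖φ (σ a'⁻¹ * (u s')⁻¹.1 * u s * σ a)‖ ≤ C

theorem Gr.inv (h : Gr φ γ σ K) {r : ℝ} (r0 : 0 < r) : σ r * σ r⁻¹ = 1 ∧ σ r⁻¹ * σ r = 1 := by
  rw [h.mul _ r0 _ (inv_pos.2 r0), h.mul _ (inv_pos.2 r0) _ r0, mul_inv_cancel₀ r0.ne',
    inv_mul_cancel₀ r0.ne', h.one, and_self]

theorem Bs.two (h : Gr φ γ σ K) (hb : Bs φ σ u C) {r : ℝ} (hr : r ∈ Ioo (0 : ℝ) 1) : ∃ δ > 0,
    ∀ s ∈ Ioc 0 δ, ∀ q ∈ Icc r 1, ∃ U U' : R, U' * U = 1 ∧ ‖φ U‖ ≤ C ∧ ‖φ U'‖ ≤ C ∧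
      (u (q * s)).1 = u s * σ q * U ∧ (u (q * s))⁻¹.1 = U' * σ q⁻¹ * (u s)⁻¹.1 ∧
      ‖φ (σ r * U * σ r⁻¹)‖ ≤ C := by
  obtain ⟨r0, r1⟩ := hr
  obtain ⟨δ, δ0, H⟩ := hb r r0
  have r2 : 1 ≤ r⁻¹ := (one_le_inv₀ r0).2 r1.le
  refine ⟨δ, δ0, fun s hs q hq => ?_⟩
  have q0 := r0.trans_le hq.1
  have m : q * s ∈ Ioc 0 δ := ⟨mul_pos q0 hs.1, (mul_le_of_le_one_left hs.1.le hq.2).trans hs.2⟩
  refine ⟨σ q⁻¹ * (u s)⁻¹.1 * u (q * s), (u (q * s))⁻¹.1 * u s * σ q, ?_, ?_, ?_, ?_, ?_, ?_⟩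
  · simp only [mul_assoc]
    rw [← mul_assoc (σ q), (h.inv q0).1]
    simp
  · simpa [h.one] using H _ m s hs 1 ⟨r1.le, r2⟩ q ⟨hq.1, hq.2.trans r2⟩ (one_mul _)
  · simpa [h.one] using H s hs _ m q ⟨hq.1, hq.2.trans r2⟩ 1 ⟨r1.le, r2⟩ (one_mul _).symm
  · simp only [mul_assoc]
    rw [← mul_assoc (σ q), (h.inv q0).1]
    simp
  · simp only [mul_assoc]
    rw [← mul_assoc (σ q), (h.inv q0).1]
    simp
  · have := H _ m s hs r⁻¹ ⟨r1.le.trans r2, le_rfl⟩ (r⁻¹ * q)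
      ⟨r1.le.trans (by rw [← div_eq_inv_mul, one_le_div r0]; exact hq.1),
        mul_le_of_le_one_right (by positivity) hq.2⟩ (mul_assoc ..).symm
    rwa [mul_inv, inv_inv, ← h.mul _ r0 _ (inv_pos.2 q0), mul_assoc (σ r), mul_assoc (σ r)] at this

theorem Gr.lim (h : Gr φ γ σ K) (hb : Bs φ σ u C) (K0 : 0 ≤ K) (C0 : 0 ≤ C) :
    Tendsto (fun t => ‖φ ((u t)⁻¹.1 * γ (u t) - 1)‖) (𝓝[>] 0) (𝓝 0) := by
  refine recu (fun _ _ => norm_nonneg _) fun η η0 => ?_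
  let M := C * K * (K * C) + C * K * ((1 + K) * C) + 1
  have M0 : 0 < M := by positivity
  let r := min (η / M) (1 / (2 * M))
  have r0 : 0 < r := by positivity
  have r2 : M * r ≤ 1 / 2 := by
    rw [← le_div_iff₀' M0, div_div]; exact min_le_right _ _
  have r3 : M * r ≤ η := (le_div_iff₀' M0).1 (min_le_left _ _)
  have r1 : r < 1 := by
    have : 1 ≤ M := le_add_of_nonneg_left (by positivity)
    nlinarith
  obtain ⟨δ, δ0, H⟩ := hb.two h ⟨r0, r1⟩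
  have k : ∀ s ∈ Ioc 0 δ, ∀ q ∈ Icc r 1, ‖φ ((u (q * s))⁻¹.1 * γ (u (q * s)) - 1)‖ ≤
      M * q * ‖φ ((u s)⁻¹.1 * γ (u s) - 1)‖ + M * r := fun s hs q hq => by
    obtain ⟨U, U', e0, b1, b2, e1, e2, b3⟩ := H s hs q hq
    have q0 := r0.trans_le hq.1
    have c1 := h.ctr ((u s)⁻¹.1 * γ (u s) - 1) (by
      rw [map_sub, map_mul, h.idem, ← map_mul]; simp) q ⟨q0, hq.2⟩
    have c2 := h.ctr (σ r * U * σ r⁻¹ - γ (σ r * U * σ r⁻¹)) (by rw [map_sub, h.idem, sub_self])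
      r ⟨r0, r1.le⟩
    have c3 : ‖φ (σ r * U * σ r⁻¹ - γ (σ r * U * σ r⁻¹))‖ ≤ (1 + K) * C := by
      rw [map_sub]
      refine (norm_sub_le _ _).trans ?_
      nlinarith [h.bd (σ r * U * σ r⁻¹)]
    have e3 : σ r⁻¹ * (σ r * U * σ r⁻¹ - γ (σ r * U * σ r⁻¹)) * σ r = U - γ U := by
      simp only [map_mul, h.fix, mul_sub, sub_mul, ← mul_assoc, (h.inv r0).2, one_mul]
      simp only [mul_assoc, (h.inv r0).2, mul_one]
    have e4 : (u (q * s))⁻¹.1 * γ (u (q * s)) - 1 =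
        U' * (σ q⁻¹ * ((u s)⁻¹.1 * γ (u s) - 1) * σ q) * γ U - U' * (U - γ U) := by
      rw [e2, e1]
      simp only [map_mul, h.fix, mul_sub, sub_mul, mul_one, (h.inv q0).2, e0, mul_assoc]
      abel
    rw [e3] at c2
    rw [e4, map_sub, map_mul, map_mul, map_mul φ U']
    refine (norm_sub_le _ _).trans (add_le_add ((norm_mul_le_of_le (norm_mul_le_of_le b2 c1)
      ((h.bd U).trans (mul_le_mul_of_nonneg_left b1 K0))).trans ?_) ((norm_mul_le_of_le b2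
        (c2.trans (mul_le_mul_of_nonneg_left c3 (by positivity)))).trans ?_))
    · have : 0 ≤ (C * K * ((1 + K) * C) + 1) * (q * ‖φ ((u s)⁻¹.1 * γ (u s) - 1)‖) := by positivity
      simp only [M]
      nlinarith
    · have : 0 ≤ (C * K * (K * C) + 1) * r := by positivity
      simp only [M]
      nlinarith
  refine ⟨r, ⟨r0, r1⟩, δ, δ0, M * ‖φ ((u δ)⁻¹.1 * γ (u δ) - 1)‖ + M * r, fun s hs => ?_, fun s hs => ?_⟩
  · nlinarith [k s hs r ⟨le_rfl, r1.le⟩, norm_nonneg (φ ((u s)⁻¹.1 * γ (u s) - 1))]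
  · have := k δ ⟨δ0, le_rfl⟩ (s / δ) ⟨(le_div_iff₀ δ0).2 hs.1, (div_le_one δ0).2 hs.2⟩
    rw [div_mul_cancel₀ _ δ0.ne'] at this
    refine this.trans (by gcongr; exact mul_le_of_le_one_right M0.le ((div_le_one δ0).2 hs.2))

theorem slow_of {n : ℝ → ℝ} (n0 : ∀ t, 0 ≤ n t) {M : ℝ} (M0 : 0 ≤ M)
    (h : ∀ r ∈ Ioo (0 : ℝ) 1, ∃ δ > 0, ∀ s ∈ Ioc 0 δ, ∀ q ∈ Icc r 1, n (q * s) ≤ M * n s)
    {ε : ℝ} (ε0 : 0 < ε) : Tendsto (fun t : ℝ => t ^ ε * n t) (𝓝[>] 0) (𝓝 0) := by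
  refine recu (fun t ht => mul_nonneg (by positivity) (n0 t)) fun η η0 => ?_
  have : Tendsto (fun r : ℝ => r ^ ε * M) (𝓝[>] 0) (𝓝 0) := tendsto_nhdsWithin_of_tendsto_nhds
    (((Real.continuous_rpow_const ε0.le).mul continuous_const).tendsto' _ _ (by simp [ε0.ne']))
  obtain ⟨r, r1, r2⟩ := ((this.eventually_lt_const one_half_pos).and (Ioo_mem_nhdsGT one_pos)).exists
  obtain ⟨δ, δ0, H⟩ := h r r2
  refine ⟨r, r2, δ, δ0, δ ^ ε * (M * n δ), fun s hs => ?_, fun s hs => ?_⟩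
  · rw [Real.mul_rpow r2.1.le hs.1.le]
    have := mul_le_mul_of_nonneg_left (H s hs r ⟨le_rfl, r2.2.le⟩)
      (mul_pos (Real.rpow_pos_of_pos r2.1 ε) (Real.rpow_pos_of_pos hs.1 ε)).le
    nlinarith [mul_nonneg (Real.rpow_pos_of_pos hs.1 ε).le (n0 s)]
  · have := H δ ⟨δ0, le_rfl⟩ (s / δ) ⟨(le_div_iff₀ δ0).2 hs.1, (div_le_one δ0).2 hs.2⟩
    rw [div_mul_cancel₀ _ δ0.ne'] at this
    exact mul_le_mul (Real.rpow_le_rpow ((mul_pos r2.1 δ0).le.trans hs.1) hs.2 ε0.le) this (n0 s)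
      (by positivity)

theorem Gr.slow (h : Gr φ γ σ K) (hb : Bs φ σ u C) (K0 : 0 ≤ K) (C0 : 0 ≤ C) {ε : ℝ} (ε0 : 0 < ε) :
    Tendsto (fun t : ℝ => t ^ ε * ‖φ (σ t⁻¹ * γ (u t))‖) (𝓝[>] 0) (𝓝 0) ∧
    Tendsto (fun t : ℝ => t ^ ε * ‖φ (γ (u t)⁻¹.1 * σ t)‖) (𝓝[>] 0) (𝓝 0) := by
  constructor <;> refine slow_of (fun _ => norm_nonneg _) (mul_nonneg K0 C0) (fun r hr =>
    (hb.two h hr).imp fun δ H => ⟨H.1, fun s hs q hq => ?_⟩) ε0 <;>
    obtain ⟨U, U', e0, b1, b2, e1, e2, -⟩ := H.2 s hs q hq <;> have q0 := hr.1.trans_le hq.1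
  · have : σ (q * s)⁻¹ * γ (u (q * s)) = σ s⁻¹ * γ (u s) * γ U := by
      rw [e1, mul_inv_rev, ← h.mul _ (inv_pos.2 hs.1) _ (inv_pos.2 q0), map_mul, map_mul, h.fix,
        ← h.comm, mul_assoc, ← mul_assoc (σ q⁻¹), ← mul_assoc (σ q⁻¹), (h.inv q0).2, one_mul, mul_assoc]
    rw [this, map_mul, mul_comm (K * C)]
    exact norm_mul_le_of_le le_rfl ((h.bd U).trans (mul_le_mul_of_nonneg_left b1 K0))
  · have : γ (u (q * s))⁻¹.1 * σ (q * s) = γ U' * (γ (u s)⁻¹.1 * σ s) := by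
      rw [e2, ← h.mul _ q0 _ hs.1, map_mul, map_mul, h.fix, mul_assoc (γ U'), h.comm, mul_assoc,
        mul_assoc, ← mul_assoc (σ q⁻¹), (h.inv q0).2, one_mul]
    rw [this, map_mul]
    exact norm_mul_le_of_le ((h.bd U').trans (mul_le_mul_of_nonneg_left b2 K0)) le_rfl

end

end Pool.Agent.Lib.MP_7f377f_mp.Zo
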