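import Pool.Agent.Lib.MP_7f377f_mp.G.ZoD
import Pool.Agent.Lib.MP_7f377f_mp.G.ZoA
import Pool.Agent.Lib.MP_7f377f_mp.G.SwB

/-! Slow renormalisation: multilinearity, locally uniform convergence and the uniform bound. -/

noncomputable section

namespace Pool.Agent.Lib.MP_7f377f_mp.Zo
variable [Pool.Agent.Lib.MP_7f377f_mp.GD]
set_option linter.unusedSectionVars false

open MeasureTheory Filter Topology Set YM7 Pur Wm Lm Wv S3 Matrix Sw Function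
open Ro (Iso)

variable {V P ι : Type} [NormedAddCommGroup V] [NormedSpace ℝ V] [CommRing P] [Algebra ℂ P]
  {Φ : Fil V} {N : Net P} {x : V → (R4 → ℝ) → P} {W : P →ₗ[ℂ] ℂ} {ρ : Iso →* V →ₗ[ℝ] V}
  {A A' : ℝ → V ≃ₗ[ℝ] V} {S : Cor V} {sc : ℝ → V →ₗ[ℝ] V} {k D : ℕ} {l : Filter ι}
  {K : Fin k → Set R4} {f g₀ : Fin k → R4 → ℝ} {g : ι → Fin k → R4 → ℝ} {v : ι → Fin k → V}
  {v₀ : Fin k → V}

/-- multilinear functions -/
def Ml (F : (Fin k → V) → ℂ) : Prop := ∃ L : MultilinearMap ℝ (fun _ : Fin k => V) ℂ, ⇑L = F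

theorem ml_of {F : (Fin k → V) → ℂ} (h : ∀ m i (t : ℝ) a b,
    F (update m i (t • a + b)) = t * F (update m i a) + F (update m i b)) : Ml F :=
  ⟨.mk' F (fun m i a b => by simpa using h m i 1 a b) fun m i t a => by
    have := h m i 1 0 0
    have e := h m i t a 0
    simp only [smul_zero, add_zero, Complex.ofReal_one, one_mul, left_eq_add] at this e
    rw [e, this, add_zero, Complex.real_smul], rfl⟩

theorem Ml.eq {F : (Fin k → V) → ℂ} (h : Ml F) (m i) (t : ℝ) (a b : V) :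
    F (update m i (t • a + b)) = t * F (update m i a) + F (update m i b) := by
  obtain ⟨L, rfl⟩ := h
  rw [L.map_update_add, L.map_update_smul, Complex.real_smul]

theorem Ml.comp {F : (Fin k → V) → ℂ} (h : Ml F) (M : V →ₗ[ℝ] V) : Ml fun c => F fun i => M (c i) :=
  let ⟨L, e⟩ := h
  ⟨L.compLinearMap fun _ => M, e ▸ rfl⟩

theorem exF {κ : Type} [Finite κ] (Φ : Fil V) (c : κ → V) : ∃ D, ∀ i, c i ∈ Φ.F D := by
  choose d hd using fun i => Φ.ex (c i)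
  exact (Finite.exists_le d).imp fun D h i => Φ.mono (h i) (hd i)

theorem lin_tend {V' : Type} [NormedAddCommGroup V'] [NormedSpace ℝ V'] (L : V →ₗ[ℝ] V') {v : ι → V}
    {v₀ : V} (h : ∀ t, v t ∈ Φ.F D) (h0 : v₀ ∈ Φ.F D) (hv : Tendsto v l (𝓝 v₀)) :
    Tendsto (fun t => L (v t)) l (𝓝 (L v₀)) :=
  ((L ∘ₗ (Φ.F D).subtype).continuous_of_finiteDimensional.tendsto ⟨v₀, h0⟩).comp
    (tendsto_subtype_rng.2 hv : Tendsto (fun t => (⟨v t, h t⟩ : Φ.F D)) l _)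

theorem exists_lim (U : Ultrafilter ι) {v : ι → V} {R : ℝ} (h : ∀ t, v t ∈ Φ.F D)
    (hR : ∀ᶠ t in U, ‖v t‖ ≤ R) : ∃ v₀ ∈ Φ.F D, Tendsto v U (𝓝 v₀) :=
  let ⟨w, _, e⟩ := (isCompact_closedBall (0 : Φ.F D) R).ultrafilter_le_nhds'
    (U.map fun t => ⟨v t, h t⟩) (hR.mono fun _ e => mem_closedBall_zero_iff.2 e)
  ⟨w, w.2, tendsto_subtype_rng.1 e⟩

theorem mapp' {F : ι → (Fin k → V) → ℂ} {F₀ : (Fin k → V) → ℂ} (hF : ∀ᶠ t in l, Ml (F t))
    (h : ∀ c, Tendsto (fun t => F t c) l (𝓝 (F₀ c))) (h1 : ∀ t i, v t i ∈ Φ.F D)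
    (h0 : ∀ i, v₀ i ∈ Φ.F D) (hv : ∀ i, Tendsto (fun t => v t i) l (𝓝 (v₀ i))) :
    Tendsto (fun t => F t (v t)) l (𝓝 (F₀ v₀)) := by
  have : ∀ t, ∃ L : MultilinearMap ℝ (fun _ : Fin k => V) ℂ, Ml (F t) → ⇑L = F t := fun t => by
    by_cases c : Ml (F t)
    · exact c.imp fun _ e _ => e
    · exact ⟨0, fun e => (c e).elim⟩
  choose L hL using this
  exact (mapp (L := fun t => (L t).compLinearMap fun _ => (Φ.F D).subtype)
    (L₀ := fun c => F₀ fun i => c i) (fun c => (h _).congr' (hF.mono fun t e =>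
      (congrFun (hL t e) _).symm)) (v := fun t i => ⟨v t i, h1 t i⟩) (v₀ := fun i => ⟨v₀ i, h0 i⟩)
    fun i => tendsto_subtype_rng.2 (hv i)).congr' (hF.mono fun t e => congrFun (hL t e) _)

theorem rest {θ} (h : Gen N x θ) (c : Fin k → V) (hg : ∀ j, C1 (K j) (f j))
    (hK : Pairwise fun i j => Disjoint (K i) (K j)) (i : Fin k) : ∃ Z ∈ N.loc (K i)ᶜ,
      ∀ a b, cor x W k (update c i a) (update f i b) = W (x a b * Z) := by
  obtain ⟨n, rfl⟩ : ∃ n, k = n + 1 := ⟨k - 1, by have := i.2; omega⟩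
  refine ⟨∏ j : Fin n, x (c (i.succAbove j)) (f (i.succAbove j)), gen_mem h _
    ⟨fun j => ⟨(hg _).1, (hg _).2.1⟩, fun _ _ e => (hK (Fin.succAbove_right_injective.ne e)).mono
      (hg _).2.2 (hg _).2.2⟩ fun j => (hg _).2.2.trans
        (hK (Fin.succAbove_ne i j)).subset_compl_right, fun a b => ?_⟩
  simp only [cor, Fin.prod_univ_succAbove _ i, update_self, update_of_ne (Fin.succAbove_ne i _)]

theorem ml_cor (h : Rg Φ N x W ρ A S) (hf : Adm f) : Ml fun c => cor x W k c f :=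
  ml_of fun m i t a b => by
    obtain ⟨Z, hZ, e⟩ := rest (W := W) h.gen m (fun j => ⟨(hf.1 j).1, (hf.1 j).2, le_rfl⟩) hf.2 i
    simpa only [← e, update_eq_self] using h.linc t a b (f i) ⟨(hf.1 i).1, (hf.1 i).2, le_top⟩ Z hZ

theorem ml_A (h : Rg Φ N x W ρ A S) (hf : Adm f) {t : ℝ} (ht : 0 < t) :
    Ml fun c => cor x W k (fun i => A t (c i)) fun i y => f i (t⁻¹ • y) :=
  (ml_cor h (hf.smul (inv_pos.2 ht).ne')).comp (A t).toLinearMap

theorem ml_S (h : Rg Φ N x W ρ A S) (hf : Adm f) : Ml fun c => S k c f :=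
  ml_of fun m i t a b => tendsto_nhds_unique (h.af k _ f hf)
    ((((h.af k _ f hf).const_mul _).add (h.af k _ f hf)).congr'
      (eventually_mem_nhdsWithin.mono fun _ hs => ((ml_A h hf hs).eq m i t a b).symm))

theorem c1_sub {O : Set R4} {a a' : R4 → ℝ} (h : C1 O a) (h' : C1 O a') : C1 O (a - a') :=
  ⟨h.1.sub h'.1, h.2.1.sub h'.2.1, (tsupport_sub a a').trans (union_subset h.2.2 h'.2.2)⟩

theorem cor_sub (h : Rg Φ N x W ρ A S) (c : Fin k → V) {s : ℝ} (hs : s ≠ 0)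
    (hK : Pairwise fun i j => Disjoint (K i) (K j)) (g : Fin k → R4 → ℝ) (i : Fin k) (a a' : R4 → ℝ)
    (hg : ∀ j, C1 (K j) (g j)) (ha : C1 (K i) a) (ha' : C1 (K i) a') :
    cor x W k c (fun j y => update g i a j (s • y)) - cor x W k c (fun j y => update g i a' j (s • y)) =
      cor x W k c fun j y => update g i (a - a') j (s • y) := by
  have q : ∀ {O a}, C1 O a → C1 ((s • ·) ⁻¹' O) fun y => a (s • y) := fun e =>
    ⟨e.1.comp_homeomorph (.smulOfNeZero s hs), e.2.1.comp (contDiff_id.const_smul s),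
      fun y hy => e.2.2 (tsupport_comp (continuous_const_smul s) hy)⟩
  obtain ⟨Z, hZ, e⟩ := rest (W := W) h.gen c (fun j => q (hg j)) (fun _ _ e => (hK e).preimage _) i
  have e' : ∀ a, cor x W k c (fun j y => update g i a j (s • y)) = W (x (c i) (fun y => a (s • y)) * Z) :=
    fun a => by
      rw [← e, update_eq_self]
      exact congrArg _ (funext fun j => apply_update (fun _ (u : R4 → ℝ) y => u (s • y)) g i a j)
  have := h.lin (c i) _ _ (-1) ⟨(q ha).1, (q ha).2.1, le_top⟩ ⟨(q ha').1, (q ha').2.1, le_top⟩ Z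
    (N.mono hZ (compl_subset_compl.2 (union_subset (q ha).2.2 (q ha').2.2)))
  rw [e', e', e', show (fun y => (a - a') (s • y)) = (fun y => a (s • y)) + (-1 : ℝ) • fun y => a' (s • y)
    by funext y; simp [sub_eq_add_neg], this]
  simp [sub_eq_add_neg]

theorem exK (h0 : Adm g₀) (hg : ∀ i, Cv1 l (fun t => g t i) (g₀ i)) :
    ∃ K : Fin k → Set R4, (∀ i, IsCompact (K i)) ∧ (Pairwise fun i j => Disjoint (K i) (K j)) ∧
      (∀ i, C1 (K i) (g₀ i)) ∧ ∀ᶠ t in l, ∀ i, C1 (K i) (g t i) := by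
  obtain ⟨O, o1, o2⟩ := Pairwise.exists_mem_filter_of_disjoint (l := fun i => 𝓝ˢ (tsupport (g₀ i)))
    fun i j e => disjoint_nhdsSet_nhdsSet (isClosed_tsupport _) (isClosed_tsupport _) (h0.2 e)
  choose K k1 k2 k3 using fun i => exists_compact_between (h0.1 i).1.isCompact isOpen_interior
    (subset_interior_iff_mem_nhdsSet.2 (o1 i))
  exact ⟨K, k1, fun i j e => (o2 e).mono ((k3 i).trans interior_subset) ((k3 j).trans interior_subset),
    fun i => ⟨(h0.1 i).1, (h0.1 i).2, (k2 i).trans interior_subset⟩, eventually_all.2 fun i =>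
      ((hg i).dif.and ((hg i).sup _ (subset_interior_iff_mem_nhdsSet.1 (k2 i)))).mono fun t e =>
        ⟨(k1 i).of_isClosed_subset (isClosed_tsupport _) e.2, e⟩⟩

theorem adm_cv (h0 : Adm g₀) (hg : ∀ i, Cv1 l (fun t => g t i) (g₀ i)) : ∀ᶠ t in l, Adm (g t) :=
  let ⟨_, _, k2, _, k4⟩ := exK h0 hg
  k4.mono fun _ e => ⟨fun i => ⟨(e i).1, (e i).2.1⟩, fun i j c => (k2 c).mono (e i).2.2 (e j).2.2⟩

theorem ct (h : Rg Φ N x W ρ A S) {s : ι → ℝ} (hs : ∀ᶠ t in l, s t ≠ 0)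
    (hb : ∀ K : Fin k → Set R4, (∀ i, IsCompact (K i)) → (Pairwise fun i j => Disjoint (K i) (K j)) →
      ∃ C : ℝ, ∀ᶠ t in l, ∀ (g : Fin k → R4 → ℝ) (b : Fin k → ℝ),
        (∀ i, C1 (K i) (g i) ∧ ∀ y, |g i y| ≤ b i) →
        ‖cor x W k (v t) fun i y => g i (s t • y)‖ ≤ C * ∏ i, b i)
    (h0 : Adm g₀) (hg : ∀ i, Cv1 l (fun t => g t i) (g₀ i)) :
    Tendsto (fun t => cor x W k (v t) (fun i y => g t i (s t • y)) -
      cor x W k (v t) fun i y => g₀ i (s t • y)) l (𝓝 0) := by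
  obtain ⟨K, k1, k2, k3, k4⟩ := exK h0 hg
  obtain ⟨C, hC⟩ := hb K k1 k2
  obtain ⟨B, -, -, hB, -⟩ := h0.data
  refine tendsto_zero_iff_norm_tendsto_zero.2 (tendsto_order.2
    ⟨fun _ e => .of_forall fun _ => e.trans_le (norm_nonneg _), fun ε ε0 => ?_⟩)
  obtain ⟨η, ⟨η0, η1⟩, hη⟩ := (Eventually.and (Ioo_mem_nhdsGT one_pos)
    ((tendsto_nhdsWithin_of_tendsto_nhds ((show Continuous fun η : ℝ =>
      k * (|C| * (B + 1 : ℝ) ^ k * η) by fun_prop).tendsto' 0 0 (by simp))).eventually_lt_const ε0)).exists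
  filter_upwards [hs, hC, k4, eventually_all.2 fun i =>
    Metric.tendstoUniformly_iff.1 (hg i).uni η η0] with t t1 t2 t3 t4
  have e : ∀ i y, |g t i y - g₀ i y| ≤ η := fun i y => (abs_sub_comm _ _).trans_le (t4 i y).le
  exact (tel (Λ := fun g => cor x W k (v t) fun i y => g i (s t • y)) (fun _ _ _ => c1_sub)
    (cor_sub h _ t1 k2) t2 (le_add_of_nonneg_left B.cast_nonneg) η0.le (fun i => ⟨t3 i, fun y => by
      linarith [abs_sub_abs_le_abs_sub (g t i y) (g₀ i y), e i y, (hB i).2 y]⟩)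
    (fun i => ⟨k3 i, fun y => ((hB i).2 y).trans (by linarith)⟩) e).trans_lt hη

theorem cor_cont (h : Rg Φ N x W ρ A S) (c : Fin k → V) (h0 : Adm g₀)
    (hg : ∀ i, Cv1 l (fun t => g t i) (g₀ i)) :
    Tendsto (fun t => cor x W k c (g t)) l (𝓝 (cor x W k c g₀)) := by
  simpa only [one_smul, tendsto_sub_nhds_zero_iff] using ct (v := fun _ => c) (s := fun _ => 1) h
    (.of_forall fun _ => one_ne_zero) (fun K k1 k2 => (h.bd k c K k1 k2).imp fun C e =>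
      .of_forall fun _ => by simpa only [one_smul, cor] using e) h0 hg

theorem afu (h : Rg Φ N x W ρ A S) (hb : Bdu x W A) {σ : ι → ℝ} (hσ : Tendsto σ l (𝓝[>] 0))
    (h1 : ∀ t i, v t i ∈ Φ.F D) (h2 : ∀ i, v₀ i ∈ Φ.F D)
    (hv : ∀ i, Tendsto (fun t => v t i) l (𝓝 (v₀ i))) (h0 : Adm g₀)
    (hg : ∀ i, Cv1 l (fun t => g t i) (g₀ i)) :
    Tendsto (fun t => cor x W k (fun i => A (σ t) (v t i)) fun i y => g t i ((σ t)⁻¹ • y)) l
      (𝓝 (S k v₀ g₀)) := by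
  have p : ∀ᶠ t in l, 0 < σ t := hσ.eventually eventually_mem_nhdsWithin
  refine mapp' (F := fun t c => cor x W k (fun i => A (σ t) (c i)) fun i y => g t i ((σ t)⁻¹ • y))
    (F₀ := fun c => S k c g₀) ((p.and (adm_cv h0 hg)).mono fun t e => ml_A h e.2 e.1) (fun c => ?_)
    h1 h2 hv
  simpa only [Function.comp_apply, zero_add, cor, sub_add_cancel] using (ct (v := fun t i => A (σ t) (c i)) h
    (p.mono fun t e => (inv_pos.2 e).ne') (fun K k1 k2 => (hb k c K k1 k2).imp fun C e =>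
      hσ.eventually e) h0 hg).add ((h.af k c g₀ h0).comp hσ)

/-- the dilations are trivial for parameters which are not positive -/
structure Sc1 (Φ : Fil V) (S : Cor V) (sc : ℝ → V →ₗ[ℝ] V) : Prop extends Sc Φ S sc where
  neg : ∀ s ≤ (0 : ℝ), sc s = .id

theorem Sc.to1 (hs : Sc Φ S sc) : ∃ sc', Sc1 Φ S sc' ∧ ∀ s > (0 : ℝ), sc' s = sc s :=
  ⟨fun s => if 0 < s then sc s else .id, ⟨⟨hs.pi, fun s e => by simpa only [if_pos e] using hs.eq s e,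
    fun s e => by simpa only [if_pos e] using hs.inv s e⟩, fun s e => if_neg e.not_gt⟩,
    fun s e => if_pos e⟩

theorem Sc1.apply (hs : Sc1 Φ S sc) {c : V} (hc : c ∈ Φ.F D) {s : ℝ} (s0 : 0 < s) :
    sc s c = ∑ d ∈ Finset.range (D + 1), s ^ ((d : ℤ) - 4) • Φ.π d c := by
  conv_lhs => rw [← Φ.π_sum hc]
  simp only [map_sum, hs.eq s s0]

theorem Sc1.up (hs : Sc1 Φ S sc) (s : ℝ) : Φ.Up 0 (sc s) := fun D c hc => by
  rcases lt_or_ge 0 s with e | e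
  · exact hs.apply hc e ▸ Submodule.sum_mem _ fun d hd => Submodule.smul_mem _ _
      (Φ.mono (Nat.lt_succ_iff.1 (Finset.mem_range.1 hd)) (Φ.π_mem d c))
  · rwa [hs.neg s e]

theorem Sc.ind {V' : Type} [AddCommGroup V'] [Module ℝ V'] (Φ : Fil V) {L L' : V →ₗ[ℝ] V'}
    (h : ∀ d c, L (Φ.π d c) = L' (Φ.π d c)) (c : V) : L c = L' c := by
  obtain ⟨D, hc⟩ := Φ.ex c
  rw [← Φ.π_sum hc]
  simp only [map_sum, h]

theorem Sc1.mul (hs : Sc1 Φ S sc) {r s : ℝ} (hr : 0 < r) (s0 : 0 < s) (c : V) :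
    sc r (sc s c) = sc (r * s) c :=
  Sc.ind Φ (L := sc r ∘ₗ sc s) (fun d c => by
    simp only [LinearMap.comp_apply, hs.eq _ hr, hs.eq _ s0, hs.eq _ (mul_pos hr s0), mul_zpow,
      map_smul, smul_smul, mul_comm]) c

theorem Sc1.one (hs : Sc1 Φ S sc) (c : V) : sc 1 c = c :=
  Sc.ind Φ (L' := .id) (fun d c => by simp [hs.eq]) c

theorem Sc1.can (hs : Sc1 Φ S sc) {r : ℝ} (hr : 0 < r) (c : V) : sc r (sc r⁻¹ c) = c := by
  rw [hs.mul hr (inv_pos.2 hr), mul_inv_cancel₀ hr.ne', hs.one]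

theorem Sc1.comm (hs : Sc1 Φ S sc) {M : V →ₗ[ℝ] V} (gr : ∀ d c, Φ.π d (M c) = M (Φ.π d c)) (s : ℝ)
    (c : V) : sc s (M c) = M (sc s c) := by
  rcases lt_or_ge 0 s with e | e
  · exact Sc.ind Φ (L := sc s ∘ₗ M) (L' := M ∘ₗ sc s) (fun d c => by simp [hs.eq _ e, ← gr]) c
  · simp [hs.neg s e]

theorem up_of {M : V →ₗ[ℝ] V} (gr : ∀ d c, Φ.π d (M c) = M (Φ.π d c)) : Φ.Up 0 M := fun D c hc => by
  rw [← Φ.π_sum hc, map_sum]
  exact Submodule.sum_mem _ fun d hd => gr d c ▸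
    Φ.mono (Nat.lt_succ_iff.1 (Finset.mem_range.1 hd)) (Φ.π_mem d _)

theorem afu' (h : Rg Φ N x W ρ A S) (hs : Sc1 Φ S sc) (hb : Bdu x W A) {σ a : ι → ℝ} {κ : ℝ}
    (hσ : Tendsto σ l (𝓝[>] 0)) (κ0 : 0 < κ) (ha : ∀ᶠ t in l, a t ∈ Icc κ κ⁻¹)
    (h1 : ∀ t i, v t i ∈ Φ.F D) (h2 : ∀ i, v₀ i ∈ Φ.F D)
    (hv : ∀ i, Tendsto (fun t => v t i) l (𝓝 (v₀ i))) (h0 : Adm g₀)
    (hg : ∀ i, Cv1 l (fun t => g t i) (g₀ i)) :
    Tendsto (fun t => cor x W k (fun i => A (σ t) (sc (a t) (v t i)))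
      fun i y => g t i ((a t * σ t)⁻¹ • y)) l (𝓝 (S k v₀ g₀)) := by
  refine (tendsto_iff_ultrafilter _ _ _).2 fun U hU => ?_
  obtain ⟨a₀, m, e⟩ := isCompact_Icc.ultrafilter_le_nhds' (U.map a) (hU ha)
  have a0 := κ0.trans_le m.1
  have := afu (g := fun t i y => g t i ((a t)⁻¹ • (y - 0))) h hb (hσ.mono_left hU)
    (fun t i => hs.up (a t) D _ (h1 t i)) (fun i => hs.up a₀ D _ (h2 i)) (fun i => by
      rw [hs.apply (h2 i) a0]
      exact (tendsto_finsetSum _ fun d _ => (Tendsto.zpow₀ e _ (.inl a0.ne')).smul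
        (lin_tend _ (h1 · i) (h2 i) ((hv i).mono_left hU))).congr' (mem_of_superset (hU ha)
          fun t m => (hs.apply (h1 t i) (κ0.trans_le m.1)).symm))
    (by simpa only [sub_zero] using h0.smul (inv_pos.2 a0).ne') fun i =>
      ((hg i).comp (tendsto_id'.2 hU)).aff (h0.1 i).1 (h0.1 i).2.continuous e a0.ne' tendsto_const_nhds
  simpa only [sub_zero, hs.inv a₀ a0 k v₀ g₀ h0, smul_smul, mul_inv] using this

theorem adm_rf {f : R4 → ℝ} (hf : Ds (Hs 0 0) f) : Adm ![f, fun y => f (rf 0 y)] := by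
  have d : Disjoint (tsupport f) (tsupport fun y => f (rf 0 y)) := disjoint_left.2 fun y h h' => by
    have h1 := hf.2.2 (tsupport_comp (rfL_eq 0 ▸ (rfL 0).continuous) h')
    have h2 := hf.2.2 h
    simp [Hs, rf] at h1 h2
    linarith
  have c : ContDiff ℝ 1 f := hf.1.of_le (by exact_mod_cast le_top)
  exact ⟨Fin.forall_fin_two.2 ⟨⟨hf.2.1, c⟩, rfL_eq 0 ▸ ⟨hf.2.1.comp_homeomorph (rfL 0).toHomeomorph,
    c.comp (rfL 0).contDiff⟩⟩, pairwise_fin_succ_iff.2 ⟨Fin.forall_fin_one.2 d.symm,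
      Fin.forall_fin_one.2 d, Subsingleton.pairwise⟩⟩

theorem two_tend {v : ι → V} {v₀ : V} (L : V →ₗ[ℝ] V) (h : ∀ t, v t ∈ Φ.F D) (h0 : v₀ ∈ Φ.F D)
    (hv : Tendsto v l (𝓝 v₀)) : ∀ i, Tendsto (fun t => ![v t, L (v t)] i) l (𝓝 (![v₀, L v₀] i)) :=
  Fin.forall_fin_two.2 ⟨hv, lin_tend L h h0 hv⟩

theorem two_mem {L : V →ₗ[ℝ] V} (hL : Φ.Up 0 L) {c : V} (h : c ∈ Φ.F D) : ∀ i, ![c, L c] i ∈ Φ.F D :=
  Fin.forall_fin_two.2 ⟨h, hL D c h⟩

theorem iso_bd (h : Rg Φ N x W ρ A S) (up : Φ.Up 0 (ρ (rfL 0))) (D : ℕ) :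
    ∃ C ≥ (0 : ℝ), ∀ w ∈ Φ.F D, ∀ c ∈ Φ.F D, (∀ f, Ds (Hs 0 0) f →
      S 2 ![w, ρ (rfL 0) w] ![f, fun y => f (rf 0 y)] =
        S 2 ![c, ρ (rfL 0) c] ![f, fun y => f (rf 0 y)]) → ‖w‖ ≤ C * ‖c‖ := by
  by_contra! H
  choose w hw c hc e b using fun n : ℕ => H n n.cast_nonneg
  have p : ∀ n, 0 < ‖w n‖ := fun n => lt_of_le_of_lt (by positivity) (b n)
  obtain ⟨U, hU⟩ := (atTop : Filter ℕ).exists_ultrafilter_le
  have m := fun n => (Φ.F D).smul_mem ‖w n‖⁻¹ (hw n)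
  have m' := fun n => (Φ.F D).smul_mem ‖w n‖⁻¹ (hc n)
  have n1 : ∀ n, ‖‖w n‖⁻¹ • w n‖ = 1 := fun n => by simp [norm_smul, (p n).ne']
  obtain ⟨w₀, h0, t0⟩ := exists_lim U m (.of_forall fun n => (n1 n).le)
  have t1 : Tendsto (fun n => ‖w n‖⁻¹ • c n) U (𝓝 0) := squeeze_zero_norm'
    (((eventually_gt_atTop 0).filter_mono hU).mono fun n hn => by
      rw [norm_smul, norm_inv, norm_norm, ← div_eq_inv_mul, div_le_iff₀ (p n),
        le_inv_mul_iff₀ (Nat.cast_pos.2 hn)]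
      exact (b n).le) (tendsto_inv_atTop_nhds_zero_nat.mono_left hU)
  obtain ⟨f, hf, ne⟩ := h.low w₀ (by
    rintro rfl
    simpa [n1] using t0.norm)
  obtain ⟨L, hL⟩ := ml_S h (adm_rf hf)
  have k := fun {v : ℕ → V} {v₀} (m : ∀ n, v n ∈ Φ.F D) h0 (t : Tendsto v U (𝓝 v₀)) =>
    mapp' (F := fun _ => L) (.of_forall fun _ => ⟨L, rfl⟩) (fun _ => tendsto_const_nhds)
      (fun n => two_mem up (m n)) (two_mem up h0) (two_tend _ m h0 t)
  have s : ∀ (a : ℝ) w, L ![a • w, ρ (rfL 0) (a • w)] = (a * a) • L ![w, ρ (rfL 0) w] := fun a w => by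
    rw [← Fin.prod_univ_two fun _ => a, ← L.map_smul_univ, map_smul]
    exact congrArg L (funext (Fin.forall_fin_two.2 ⟨rfl, rfl⟩))
  refine ne ((congrFun hL _).symm.trans ((tendsto_nhds_unique (k m h0 t0) ((k m' (zero_mem _) t1).congr
    fun n => ?_)).trans (L.map_coord_zero 0 rfl)))
  rw [s, s, hL]
  exact congrArg _ (e n f hf).symm

theorem bd (h : Rg Φ N x W ρ A S) (hs : Sc1 Φ S sc) (hb : Bdu x W A)
    (gr : ∀ R d c, Φ.π d (ρ R c) = ρ R (Φ.π d c)) (D : ℕ) : ∃ C ≥ (0 : ℝ),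
    ∀ (ι : Type) (l : Filter ι) (s s' a a' : ι → ℝ) (κ : ℝ), 0 < κ → Tendsto s l (𝓝[>] 0) →
      Tendsto s' l (𝓝[>] 0) → (∀ᶠ t in l, a t ∈ Icc κ κ⁻¹ ∧ a' t ∈ Icc κ κ⁻¹ ∧ a t * s t = a' t * s' t) →
      ∀ᶠ t in l, ∀ c ∈ Φ.F D, ‖sc (a' t)⁻¹ ((A (s' t)).symm (A (s t) (sc (a t) c)))‖ ≤ C * ‖c‖ := by
  have up := up_of (gr (rfL 0))
  obtain ⟨C, C0, hC⟩ := iso_bd h up D
  refine ⟨C + 1, by positivity, fun ι l s s' a a' κ κ0 h1 h2 h3 =>
    mem_iff_ultrafilter.2 fun U hU => by_contra fun bad => ?_⟩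
  let Q : ι → V →ₗ[ℝ] V := fun t =>
    sc (a' t)⁻¹ ∘ₗ (A (s' t)).symm.toLinearMap ∘ₗ (A (s t)).toLinearMap ∘ₗ sc (a t)
  have : ∀ t, ∃ c ∈ Φ.F D, (¬∀ c ∈ Φ.F D, ‖Q t c‖ ≤ (C + 1) * ‖c‖) →
      ‖Q t c‖ = 1 ∧ (C + 1) * ‖c‖ ≤ 1 := fun t => by
    by_cases e : ∀ c ∈ Φ.F D, ‖Q t c‖ ≤ (C + 1) * ‖c‖
    · exact ⟨0, zero_mem _, fun c => (c e).elim⟩
    push Not at e
    obtain ⟨c, hc, e⟩ := e
    have p : 0 < ‖Q t c‖ := lt_of_le_of_lt (by positivity) e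
    refine ⟨‖Q t c‖⁻¹ • c, Submodule.smul_mem _ _ hc, fun _ => ⟨by simp [norm_smul, p.ne'], ?_⟩⟩
    rw [norm_smul, norm_inv, norm_norm, mul_left_comm, inv_mul_le_iff₀ p, mul_one]
    exact e.le
  choose c hc e using this
  have e1 : ∀ᶠ t in (U : Filter ι), ‖Q t (c t)‖ = 1 ∧ (C + 1) * ‖c t‖ ≤ 1 :=
    mem_of_superset (U.compl_mem_iff_notMem.2 bad) e
  have m : ∀ t, Q t (c t) ∈ Φ.F D := fun t =>
    hs.up _ D _ ((h.up _).2 D _ ((h.up _).1 D _ (hs.up _ D _ (hc t))))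
  obtain ⟨w, hw, t1⟩ := exists_lim U m (e1.mono fun _ e => e.1.le)
  obtain ⟨c₀, h0, t2⟩ := exists_lim U hc (R := 1) (e1.mono fun t e => by nlinarith [norm_nonneg (c t)])
  have := hC w hw c₀ h0 fun f hf => tendsto_nhds_unique
    (afu' (g := fun _ => _) h hs hb (h2.mono_left hU) κ0 ((h3.filter_mono hU).mono fun _ e => e.2.1)
      (fun t => two_mem up (m t)) (two_mem up hw) (two_tend _ m hw t1) (adm_rf hf)
      fun i => cv1_const ((adm_rf hf).1 i).2)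
    ((afu' (g := fun _ => _) h hs hb (h1.mono_left hU) κ0 ((h3.filter_mono hU).mono fun _ e => e.1)
      (fun t => two_mem up (hc t)) (two_mem up h0) (two_tend _ hc h0 t2) (adm_rf hf)
      fun i => cv1_const ((adm_rf hf).1 i).2).congr' ((h3.filter_mono hU).mono fun t e => by
        have q : A (s t) (sc (a t) (c t)) = A (s' t) (sc (a' t) (Q t (c t))) := by
          simp [Q, hs.can (κ0.trans_le e.2.1.1)]
        rw [e.2.2]
        refine congrArg (cor x W 2 · _) (funext (Fin.forall_fin_two.2 ⟨q, ?_⟩))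
        change A _ (sc _ (ρ _ _)) = A _ (sc _ (ρ _ _))
        rw [hs.comm (gr _), hs.comm (gr _), h.comm, h.comm, q]))
  have n1 : ‖w‖ = 1 := tendsto_nhds_unique t1.norm (tendsto_const_nhds.congr' (e1.mono fun _ e => e.1.symm))
  have n2 := le_of_tendsto (t2.norm.const_mul (C + 1)) (e1.mono fun _ e => e.2)
  rcases (norm_nonneg c₀).eq_or_lt with z | z
  · rw [← z] at this
    linarith
  · linarith

end Pool.Agent.Lib.MP_7f377f_mp.Zo
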