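import Pool.Agent.Lib.MP_7f377f_mp.G.WzE
import Pool.Agent.Lib.MP_7f377f_mp.G.WyQ
import Pool.Agent.Lib.MP_7f377f_mp.G.ZoB

/-! Asymptotic freedom in all dominated states. -/

noncomputable section

namespace Pool.Agent.Lib.MP_7f377f_mp.Wx
variable [Pool.Agent.Lib.MP_7f377f_mp.GD]
set_option linter.unusedSectionVars false

open MeasureTheory Filter Topology Set YM7 Weak L6 Wy Sw Function Wv Wm
open Wu (Z4)

variable {V : Type} {k : ℕ} [NormedAddCommGroup V] [NormedSpace ℝ V] {Φ : Fil V}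

variable [MeasurableSpace SU2] [BorelSpace SU2] {h : Measure SU2} [h.IsHaarMeasure]
  [IsProbabilityMeasure h] {n : ℕ × ℕ → ℕ} [∀ p, NeZero (n p)] {a b : ℕ × ℕ → ℝ}
  {U : Ultrafilter (ℕ × ℕ)} {O : ℕ × ℕ → V →ₗ[ℝ] Fz → ℝ} {θ : Fin 4 → V → V} {i1 i2}
  {S W : PolL V →ₗ[ℂ] ℂ} {A : ℝ → V ≃ₗ[ℝ] V} {S₀ : Cor V}
  {fp : ∀ k, (Fin k → V) → (Fin k → R4) → ℝ} {Bp : (Fin 2 → V) → ℕ → (Fin 2 → R4) → V}

theorem Ci.near (ci : Ci Φ h n a b U O A fp Bp) (fr : Fp Φ S₀ fp Bp)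
    (L : LimL h n a b (fun p c => O p c) (netL (θ := θ) i1 i2) U S) (hF : Fm n a b)
    (hP : Pl (fun p c => O p c) θ) (hS : (netL i1 i2).St S) (c : Fin k → V) {K : Fin k → Set R4}
    (hK : ∀ i, IsCompact (K i)) (hd : Pairwise fun i j => Disjoint (K i) (K j)) :
    ∃ M : ℝ, ∀ ε > 0, ∀ᶠ t : ℝ in 𝓝[>] 0, ∀ W : PolL V →ₗ[ℂ] ℂ, W 1 = 1 → (netL i1 i2).Dom S W →
      ∀ (g : Fin k → R4 → ℝ) (s : Fin k → ℝ), (∀ i, C1 (K i) (g i) ∧ ∀ y, |g i y| ≤ s i) →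
        ‖W (∏ i, xL (A t (c i)) fun y => g i (t⁻¹ • y)) - S₀ k c g‖ ≤ ε * (M * ∏ i, s i) := by
  obtain ⟨κ, κ1, k2⟩ := exists_cf hK hd
  obtain ⟨R, R0, k1⟩ := (isCompact_iUnion hK).isBounded.exists_pos_norm_le
  obtain ⟨e, C, C0, ct⟩ := ci.ct k c κ κ1
  refine ⟨(Real.exp (256 * C) + 1) * (2 * κ + 1) ^ (4 * k), fun ε ε0 => ?_⟩
  filter_upwards [ct ε ε0, ci.af k c κ κ1 ε ε0, Ioc_mem_nhdsGT
    (show 0 < 9 / 3 ^ e / 50 / R by positivity)] with t ⟨β, Q, r, B, w, hE, q1⟩ q2 ⟨t0, t1⟩ W w1 hD g s hg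
  have ad : Adm g := ⟨fun i => ⟨(hg i).1.1, (hg i).1.2.1⟩, fun i j u => (hd u).mono (hg i).1.2.2 (hg j).1.2.2⟩
  have g1 : ∀ i y, g i y ≠ 0 → y ∈ K i := fun i y e => (hg i).1.2.2 (subset_tsupport _ e)
  have s0 : 0 ≤ ∏ i, s i := Finset.prod_nonneg fun i _ => (abs_nonneg _).trans ((hg i).2 0)
  have m : ∏ i, xL (A t (c i)) (fun y => g i (t⁻¹ • y)) ∈
      (netL (θ := θ) i1 i2).loc {y | ∀ l, |y l - (0 : R4) l| ≤ 9 / 3 ^ e / 50} :=
    gen_mem (gen_L i1 i2) _ (ad.smul (inv_pos.2 t0).ne') fun i y hy l => by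
      have := k1 _ (mem_iUnion.2 ⟨i, (hg i).1.2.2 (tsupport_comp (continuous_const_smul _) hy)⟩)
      rw [norm_smul, norm_inv, Real.norm_of_nonneg t0.le, inv_mul_le_iff₀ t0] at this
      simpa using (PiLp.norm_apply_le y l).trans (this.trans ((le_div_iff₀ R0).1 t1))
  have cv := L.cv _ ((netL i1 i2).mono m (subset_univ _))
  have a0 := (hF.pos t0).filter_mono L.le
  choose! T hT using fun p (e : 0 < a p) => ex_T (k := k) (κ := κ) (s := t) e (by positivity)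
  have T3 := fun p (e : 0 < a p) y (hy : ∀ i, g i (t⁻¹ • pz (a p) (y i)) ≠ 0) => ((hT p e).1 y).2
    (k2 t t0 _ y 0 (by simpa using t0.le) fun i => by simpa using g1 i _ (hy i))
  generalize hX : ∏ i, xL (A t (c i)) (fun y => g i (t⁻¹ • y)) = X at *
  let u := fun p (y : Fin k → Z4) => (a p / t) ^ (4 * k) * ∏ i, g i (t⁻¹ • pz (a p) (y i))
  have t2 : (t : ℂ) ≠ 0 := by exact_mod_cast t0.ne'
  have ev1 : ∀ᶠ p in U, (∀ y ∈ T p, Cf κ t (a p) y) ∧
      ∑ y ∈ T p, ‖(u p y : ℂ)‖ * ε ≤ ε * ((2 * κ + 1) ^ (4 * k) * ∏ i, s i) ∧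
      (∀ W, ev (a p) (fun c => O p c) W X =
        ∑ y ∈ T p, (u p y : ℂ) * ((t : ℂ) ^ (4 * k) * cl (O p) (fun i => A t (c i)) y W)) ∧
      ex h (b p) (n p) (fun W => ev (a p) (fun c => O p c) W X) = ∑ y ∈ T p, u p y *
        (t ^ (4 * k) * ex h (b p) (n p) fun W => cl (O p) (fun i => A t (c i)) y W) := by
    filter_upwards [a0] with p ⟨a0, a1⟩
    have e : ∀ W, ev (a p) (fun c => O p c) W X =
        ∑ y ∈ T p, (u p y : ℂ) * ((t : ℂ) ^ (4 * k) * cl (O p) (fun i => A t (c i)) y W) := fun W => by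
      rw [← hX, ev_word a0 (fun i => ((ad.smul (inv_pos.2 t0).ne').1 i).1) (T3 p a0)]
      refine Finset.sum_congr rfl fun y _ => ?_
      simp only [u, div_pow]
      push_cast
      field_simp
    refine ⟨fun y => ((hT p a0).1 y).1, ?_, e, ?_⟩
    · simp only [← Finset.sum_mul, mul_comm ε, Complex.norm_real]
      exact mul_le_mul_of_nonneg_right (wt_le a0 a1 (by positivity) (hT p a0).2
        (fun i => (abs_nonneg _).trans ((hg i).2 0)) fun y _ i => (hg i).2 _) ε0.le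
    · have := hP.cont p
      simp only [e, cl]
      rw [ex_sum _ fun y _ => by fun_prop]
      simp only [ex_mul]
  have h1 : ‖S X - S₀ k c g‖ ≤ ε * ((2 * κ + 1) ^ (4 * k) * ∏ i, s i) := by
    refine le_of_tendsto (cv.sub (fr.eq k c g ad ▸ (riem_cf (hF.a0.mono_left L.le) ad (fr.cont k c) t0
      (T := T) (a0.mono fun p e => T3 p e.1)).ofReal)).norm ?_
    filter_upwards [ev1, q2] with p ⟨e1, e2, _, e4⟩ q
    rw [e4, Complex.ofReal_sum, ← Finset.sum_sub_distrib]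
    refine (norm_sum_le_of_le _ fun y hy => ?_).trans e2
    rw [Complex.ofReal_mul (_ * _), ← mul_sub, norm_mul]
    exact mul_le_mul_of_nonneg_left (q y (e1 y hy)) (norm_nonneg _)
  have h2 : ∀ η > 0, ‖W X - S X‖ ≤
      Real.exp (256 * C) * (ε * ((2 * κ + 1) ^ (4 * k) * ∏ i, s i) + η) := fun η η0 => by
    have l0 : (0 : ℝ) < 9 / 3 ^ e := by positivity
    have := (hD.st hS w1).bound (hD.qb (L.qbl hF hP hS (hE.unit C0) C0 (g := 0) (H := 8 * (9 / 3 ^ e))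
      (ρ := 9 / 3 ^ e / 50) (R := 0) le_rfl (by positivity) (by linarith) (by linarith) le_rfl
      (fun _ : Unit => X - S X • 1) 0 (fun _ => ε * ((2 * κ + 1) ^ (4 * k) * ∏ i, s i) + η)
      ⟨by simp, by simp⟩ (by simp)
      (fun _ => sub_mem m (Submodule.smul_mem _ _ ((netL i1 i2).one _))) fun _ => ?_))
    · simpa [w1] using this
    filter_upwards [ev1, q1, L.le (hE.ev hF), (tendsto_iff_norm_sub_tendsto_zero.1 cv).eventually_le_const η0]
      with p ⟨e1, e2, e3, e4⟩ q ⟨_, w0, _⟩ e5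
    convert ((Cb.sum w0 (T p) fun y hy => (q y (e1 y hy)).smul (u p y)).unit w0 (by positivity) _).mono
      (fun _ => by rw [sub_self, abs_zero, zero_add]) (add_le_add e2 e5) using 1
    · rfl
    funext W
    rw [e4]
    simp only [map_sub, map_smul, map_one, smul_eq_mul, mul_one, e3, mul_sub, Finset.sum_sub_distrib]
    ring
  refine (norm_sub_le_norm_sub_add_norm_sub _ (S X) _).trans ((add_le_add (ge_of_tendsto (x := 𝓝[>] 0)
    (tendsto_nhdsWithin_of_tendsto_nhds (Continuous.tendsto' (by fun_prop) _ _ rfl))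
    (eventually_mem_nhdsWithin.mono h2)) h1).trans_eq (by ring))

theorem Ci.dom (ci : Ci Φ h n a b U O A fp Bp) (fr : Fp Φ S₀ fp Bp)
    (L : LimL h n a b (fun p c => O p c) (netL (θ := θ) i1 i2) U S) (hF : Fm n a b)
    (hP : Pl (fun p c => O p c) θ) (hS : (netL (θ := θ) i1 i2).St S)
    (hD : (netL (θ := θ) i1 i2).Dom S W) (w1 : W 1 = 1) :
    (∀ k (c : Fin k → V) f, Adm f → Tendsto
      (fun t : ℝ => W (∏ i, xL (A t (c i)) fun y => f i (t⁻¹ • y))) (𝓝[>] 0) (𝓝 (S₀ k c f))) ∧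
    Zo.Bdu xL W A := by
  refine ⟨fun k c f hf => ?_, fun k c K hK hd => ?_⟩
  · obtain ⟨M, hM⟩ := ci.near fr L hF hP hS c (fun i => (hf.1 i).1) hf.2
    obtain ⟨D, -, -, hD', -⟩ := hf.data
    exact tendsto_sub_nhds_zero_iff.1 (((Asymptotics.isLittleO_iff.2 fun ε ε0 =>
      (hM ε ε0).mono fun t e => (e W w1 hD f (fun _ => D) fun i =>
        ⟨⟨(hf.1 i).1, (hf.1 i).2, le_rfl⟩, (hD' i).2⟩).trans
          (mul_le_mul_of_nonneg_left (le_abs_self _) ε0.le)).trans_isBigO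
            (Asymptotics.isBigO_const_one ℝ (M * ∏ _ : Fin k, (D : ℝ)) _)).tendsto_zero_of_tendsto tendsto_const_nhds)
  · obtain ⟨M, hM⟩ := ci.near fr L hF hP hS c hK hd
    have k := isCompact_univ_pi hK
    obtain ⟨F, hF⟩ := k.exists_bound_of_continuousOn ((fr.cont _ c).mono fun y e i j u =>
      by_contra fun v => disjoint_left.1 (hd v) (e i trivial) (u ▸ e j trivial))
    refine ⟨M + F * volume.real (univ.pi K), (hM 1 one_pos).mono fun t e g s hg => ?_⟩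
    refine (norm_le_norm_sub_add _ _).trans ((add_le_add (e W w1 hD g s hg) ?_).trans_eq
      (show _ + (∏ i, s i) * F * volume.real (univ.pi K) = _ by ring))
    rw [fr.eq _ c g ⟨fun i => ⟨(hg i).1.1, (hg i).1.2.1⟩, fun i j u =>
      (hd u).mono (hg i).1.2.2 (hg j).1.2.2⟩, Complex.norm_real,
      ← setIntegral_eq_integral_of_forall_compl_eq_zero (s := univ.pi K) fun y hy => ?_]
    swap
    · exact by_contra fun e => hy fun i _ => (hg i).1.2.2 (subset_tsupport _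
        (Finset.prod_ne_zero_iff.1 (left_ne_zero_of_mul e) i (Finset.mem_univ i) :))
    refine norm_setIntegral_le_of_norm_le_const k.measure_lt_top fun y hy => ?_
    rw [norm_mul, norm_prod]
    exact mul_le_mul (Finset.prod_le_prod (fun _ _ => norm_nonneg _) fun i _ => (hg i).2 _) (hF y hy)
      (norm_nonneg _) (Finset.prod_nonneg fun i _ => (abs_nonneg _).trans ((hg i).2 0))

theorem weak_tend {ι : Type} {l : Filter ι} {v : ι → V} {B : V} {D : ℕ} (h : ∀ p, v p ∈ Φ.F D)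
    (hB : B ∈ Φ.F D) (e : ∀ L : V →ₗ[ℝ] ℝ, Tendsto (fun p => L (v p)) l (𝓝 (L B))) :
    Tendsto v l (𝓝 B) := by
  have := Φ.fin D
  let b := Module.finBasis ℝ (Φ.F D)
  choose L hL using fun j => LinearMap.exists_extend (b.coord j)
  have s : ∀ w ∈ Φ.F D, ∑ j, L j w • (b j : V) = w := fun w hw => by
    simpa only [Submodule.coe_sum, Submodule.coe_smul, ← b.coord_apply, ← hL, LinearMap.comp_apply,
      Submodule.subtype_apply] using congrArg Subtype.val (b.sum_repr ⟨w, hw⟩)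
  simpa only [s _ (h _), s _ hB] using tendsto_finsetSum .univ fun j _ => (e (L j)).smul_const (b j : V)

/-- the limit of the coefficients -/
theorem coef (fr : Fp Φ S₀ fp Bp) (hU : U ≤ fast) (hF : Fm n a b)
    (up : ∀ t, Φ.Up 0 (A t).symm) {c : Fin 2 → V} {D : ℕ} {u : Fin 2 → R4 → ℝ} (hu : Adm u) {κ : ℝ}
    (κ0 : 0 ≤ κ) (hκ : ∀ s > (0 : ℝ), ∀ (a : ℝ) (y : Fin 2 → Z4), (∀ i, s⁻¹ • pz a (y i) ∈ tsupport (u i)) →
      Cf κ s a y) {m : ℝ → ℕ × ℕ → (Fin 2 → Z4) → V} (m1 : ∀ s p y, m s p y ∈ Φ.F D)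
    (m2 : ∀ ε > 0, ∀ᶠ t in 𝓝[>] 0, ∀ᶠ p in U, ∀ y, Cf κ t (a p) y →
      ‖(A t).symm (t ^ 4 • m t p y) - Bp c D fun i => t⁻¹ • pz (a p) (y i)‖ ≤ ε)
    {m' : ℝ → V} (m3 : ∀ s, m' s ∈ Φ.F D)
    (m4 : ∀ᶠ s in 𝓝[>] 0, Tendsto (fun p => av (a p) s u (m s p)) U (𝓝 (m' s))) {B : V}
    (hB : B ∈ Φ.F D)
    (e : ∀ l : V →ₗ[ℝ] ℝ, l B = ∫ y : Fin 2 → R4, (∏ i, u i (y i)) * l (Bp c D y)) :
    Tendsto (fun t => (A t).symm ((t ^ 4)⁻¹ • m' t)) (𝓝[>] 0) (𝓝 B) := by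
  obtain ⟨R, -, -, hR, -⟩ := hu.data
  refine tendsto_sub_nhds_zero_iff.1 (((Asymptotics.isLittleO_iff.2 fun ε ε0 => ?_).trans_isBigO
    (Asymptotics.isBigO_const_one ℝ ((2 * κ + 1) ^ (4 * 2) * ∏ _ : Fin 2, (R : ℝ)) _)).tendsto_zero_of_tendsto
      tendsto_const_nhds)
  filter_upwards [m2 ε ε0, m4, self_mem_nhdsWithin] with t q1 q2 (t0 : 0 < t)
  choose! T hT using fun p (e : 0 < a p) => ex_T (k := 2) (κ := κ) (s := t) e (by positivity)
  have a0 := (hF.pos t0).filter_mono hU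
  have T3 := a0.mono fun p e (y : Fin 2 → Z4) (hy : ∀ i, u i (t⁻¹ • pz (a p) (y i)) ≠ 0) => ((hT p e.1).1 y).2
    (hκ t t0 _ y fun i => subset_tsupport _ (hy i))
  refine (le_of_tendsto ((Zo.lin_tend ((A t).symm.toLinearMap ∘ₗ LinearMap.lsmul ℝ V (t ^ 4)⁻¹)
    (v := fun p => av (a p) t u (m t p)) (fun p => finsum_induction (· ∈ Φ.F D) (zero_mem _) (fun _ _ => add_mem)
      fun y => (Φ.F D).smul_mem _ (m1 t p y)) (m3 t) q2).sub (weak_tend (v := fun p =>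
      ∑ y ∈ T p, ((a p / t) ^ (4 * 2) * ∏ i, u i (t⁻¹ • pz (a p) (y i))) •
        Bp c D fun i => t⁻¹ • pz (a p) (y i))
      (fun p => sum_mem fun y _ => (Φ.F D).smul_mem _ (fr.mem _ _ _)) hB fun l => by
        simpa only [map_sum, map_smul, smul_eq_mul, e] using
          riem_cf (hF.a0.mono_left hU) hu (fr.cb c D l) t0 T3)).norm ?_).trans
    (mul_le_mul_of_nonneg_left (le_abs_self _) ε0.le)
  filter_upwards [a0, T3, q1] with p ⟨a0, a1⟩ e1 e2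
  rw [av_eq e1, map_sum, ← Finset.sum_sub_distrib, mul_comm ε]
  refine (norm_sum_le_of_le _ fun y hy => ?_).trans ((Finset.sum_mul ..).ge.trans
    (mul_le_mul_of_nonneg_right (wt_le a0 a1 κ0 (hT p a0).2 (fun _ => R.cast_nonneg)
      fun y _ i => (hR i).2 (t⁻¹ • pz (a p) (y i))) ε0.le))
  refine le_of_eq_of_le (congrArg _ ?_) ((norm_smul_le _ _).trans
    (mul_le_mul_of_nonneg_left (e2 y (((hT p a0).1 y).1 hy)) (norm_nonneg (_ : ℝ))))
  simp only [smul_sub, LinearMap.comp_apply, LinearMap.lsmul_apply, map_smul, smul_smul,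
    LinearEquiv.coe_coe]
  congr 2
  rw [div_pow]
  field_simp
  ring

end Pool.Agent.Lib.MP_7f377f_mp.Wx
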