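import Pool.Agent.Lib.MP_7f377f_mp.G.WzA
import Pool.Agent.Lib.MP_7f377f_mp.G.WzB
import Pool.Agent.Lib.MP_7f377f_mp.G.WxM
import Pool.Agent.Lib.MP_7f377f_mp.G.WxC

/-! The short distance expansions in all states below the limit state. -/

noncomputable section

namespace Pool.Agent.Lib.MP_7f377f_mp.Wx
variable [Pool.Agent.Lib.MP_7f377f_mp.GD]
set_option linter.unusedSectionVars false

open MeasureTheory Filter Topology Set YM7 Weak L6 Wy Sw Function Wv Wm Real Pur Asymptotics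
open Wu (Z4)

variable {V : Type} {k D : ℕ} [NormedAddCommGroup V] [NormedSpace ℝ V] {Φ : Fil V}
  {u : Fin k → R4 → ℝ} [MeasurableSpace SU2] [BorelSpace SU2] {h : Measure SU2} [h.IsHaarMeasure]
  [IsProbabilityMeasure h] {n : ℕ × ℕ → ℕ} [∀ p, NeZero (n p)] {a b : ℕ × ℕ → ℝ}
  {U : Ultrafilter (ℕ × ℕ)} {O : ℕ × ℕ → V →ₗ[ℝ] Fz → ℝ} {θ : Fin 4 → V → V} {i1 i2}
  {S W : PolL V →ₗ[ℂ] ℂ} {A : ℝ → V ≃ₗ[ℝ] V} {S₀ : Cor V} {fp Bp}
  (L : LimL h n a b (fun p c => O p c) (netL (θ := θ) i1 i2) U S) (hF : Fm n a b)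
  (hP : Pl (fun p c => O p c) θ) (hS : (netL i1 i2).St S) (hL : LinF (netL i1 i2) xL S)
  (hQ : ProdL xL S)
include L hF hP hS hL hQ

theorem em_all (hu : Adm u) : ∃ κ ≥ (1 : ℝ), (∀ s > (0 : ℝ), ∀ (a : ℝ) (y : Fin k → Z4),
    (∀ i, s⁻¹ • pz a (y i) ∈ tsupport (u i)) → Cf κ s a y) ∧ ∀ {c D r m},
    Em Φ h n a b U O c D κ (· ^ (r : ℝ)) m → ∃ m' : ℝ → V, (∀ s, m' s ∈ Φ.F D) ∧
      (∀ᶠ s in 𝓝[>] 0, Tendsto (fun p => av (a p) s u (m s p)) U (𝓝 (m' s))) ∧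
      ∀ (p : ℕ) (q : ℝ), 4 * k + r - p = q → ∀ W : PolL V →ₗ[ℂ] ℂ, W 1 = 1 → (netL i1 i2).Dom S W →
        (∀ f, C1 univ f → ∀ Z ∈ (netL i1 i2).loc (tsupport f)ᶜ, (fun s : ℝ =>
          (∫ z, f z * W ((∏ i, xL (c s i) fun y => u i (s⁻¹ • (y - z))) * Z)) / s ^ p -
            W (xL ((s ^ p)⁻¹ • m' s) f * Z)) =O[𝓝[>] 0] (· ^ q)) ∧
        ∀ f, C1 (Hs 0 0) f → ∀ Z ∈ (netL i1 i2).loc (Hs 0 0 \ tsupport f), ∃ C,
          ∀ᶠ s : ℝ in 𝓝[>] 0, ∀ ε > 0, ∃ Y ∈ Submodule.span ℂ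
            ((fun z => ∏ i, xL (c s i) fun y => u i (s⁻¹ • (y - z))) '' tsupport f),
            (netL i1 i2).nq W 0 ((xL ((s ^ p)⁻¹ • m' s) f - Y) * Z) ≤ C * (s ^ q + ε) ^ 2 := by
  obtain ⟨κ, κ1, hκ⟩ := exists_cf (fun i => (hu.1 i).1) hu.2
  refine ⟨κ, κ1, fun s s0 a y e => hκ s s0 a y 0 (by simpa using s0.le) (by simpa using e),
    fun {c D r m} E => ?_⟩
  have p0 : ∀ᶠ s : ℝ in 𝓝[>] 0, 0 < s := self_mem_nhdsWithin
  obtain ⟨m', m1, m2, m3⟩ := E.mg L hF hP hu κ1 hκ (p0.mono fun s e => by positivity)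
  refine ⟨m', m1, m2, fun p q e W w1 hD => ?_⟩
  have G := gen_L (θ := θ) i1 i2
  have e1 : ∀ᶠ s : ℝ in 𝓝[>] 0, |(s ^ p)⁻¹| * s ^ (4 * k) * s ^ r = s ^ q := p0.mono fun s s0 => by
    rw [← e, rpow_sub_natCast s0.ne', rpow_add s0, ← rpow_natCast s (4 * k),
      abs_of_pos (by positivity)]
    push_cast
    ring
  have hX : ∀ ρ > 0, ∀ᶠ s : ℝ in 𝓝[>] 0, (((s ^ p)⁻¹ : ℝ) : ℂ) • (∏ i, xL (c s i) fun y =>
      u i (s⁻¹ • y)) ∈ (netL i1 i2).loc (Metric.ball 0 ρ) := fun ρ ρ0 =>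
    (loc_cl G hu ρ0).mono fun s e => Submodule.smul_mem _ _ (e _)
  have η0 : ∀ᶠ s : ℝ in 𝓝[>] 0, 0 ≤ |(s ^ p)⁻¹| * s ^ (4 * k) * s ^ r :=
    p0.mono fun s e => by positivity
  refine ⟨fun f hf Z hZ => (((m3 _).int G hS hL hX η0 hD w1 hf hZ ((cont_cl G (linF_dom G hL hD)
    (((qbd_of G ⟨i1, i2⟩ hS hL hQ).dom hD).bd (hD.st hS w1)) hu hf.1 hZ).mono fun s e => ?_)).congr'
      (.of_forall fun s => ?_) e1), fun f hf Z hZ => ?_⟩
  · simpa only [map_smul, τ_word G, smul_mul_assoc] using (e (c s)).fun_const_smul (((s ^ p)⁻¹ : ℝ) : ℂ)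
  · simp only [map_smul, τ_word G, smul_mul_assoc, smul_eq_mul, mul_left_comm (f _ : ℂ),
      integral_const_mul, div_eq_inv_mul, Complex.ofReal_inv, Complex.ofReal_pow]
  · obtain ⟨C, hC⟩ := (m3 _).rp G hS hL hX η0 hD w1 hf hZ
    refine ⟨C, (hC.and e1).mono fun s e ε ε0 => (e.1 ε ε0).imp fun Y y => ⟨?_, e.2 ▸ y.2⟩⟩
    refine Submodule.span_le.2 ?_ y.1
    rintro _ ⟨z, hz, rfl⟩
    simp only [map_smul, τ_word G]
    exact Submodule.smul_mem _ _ (Submodule.subset_span ⟨z, hz, rfl⟩)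

theorem merge {c : Fin k → V} {r : ℝ} {p : ℕ}
    (E : ∀ κ ≥ 1, ∃ m, Em Φ h n a b U O (fun _ => c) D κ (· ^ r) m) (e : 4 * k + r - p = 1 / 2)
    (hD : (netL i1 i2).Dom S W) (w1 : W 1 = 1) : Merge Φ (netL i1 i2) xL W k c p D := fun u hu _ => by
  obtain ⟨κ, κ1, -, H⟩ := em_all (Φ := Φ) L hF hP hS hL hQ hu
  obtain ⟨m', m1, -, m3⟩ := H (E κ κ1).choose_spec
  exact ⟨_, fun s => (Φ.F D).smul_mem _ (m1 s), fun f hf Z hZ =>
    ((m3 p _ e W w1 hD).1 f hf.c1 Z hZ).trans_tendsto (tendsto_nhdsWithin_of_tendsto_nhds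
      ((continuous_rpow_const (by norm_num)).tendsto' 0 0 (zero_rpow (by norm_num))))⟩

/-- the expansions hold in all states below the limit state -/
theorem Ci.bs (ci : Ci Φ h n a b U O A fp Bp) (fr : Fp Φ S₀ fp Bp)
    (up : ∀ t, Φ.Up 0 (A t).symm) {φ : V} (hφ : φ ∈ Φ.F 4) : Zg.Bs Φ (netL i1 i2) xL S A S₀ φ := by
  refine ⟨fun W w1 hD => ⟨fun d c hc => merge L hF hP hS hL hQ (ci.m1 d c hc) (by norm_num) hD w1,
    fun c' hc' d c hc => ⟨merge L hF hP hS hL hQ (fun κ e => (ci.m2 c' hc' d c hc κ e).1)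
      (by norm_num) hD w1, merge L hF hP hS hL hQ (fun κ e => (ci.m2 c' hc' d c hc κ e).2)
      (by norm_num) hD w1⟩, (ci.dom fr L hF hP hS hD w1).1, (ci.dom fr L hF hP hS hD w1).2,
    fun c u D hu => ?_⟩, fun g v g1 _ v1 => ?_⟩
  · obtain ⟨κ, κ1, hκ, H⟩ := em_all (Φ := Φ) L hF hP hS hL hQ hu
    obtain ⟨m, E, m2⟩ := ci.op c D κ κ1
    obtain ⟨m', m1, m4, m3⟩ := H E
    obtain ⟨B, b1, b2⟩ := fr.fo c u D hu
    refine ⟨1 / 2, by norm_num, _, B, fun t => up t D _ ((Φ.F D).smul_mem _ (m1 t)),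
      coef fr L.le hF up hu (zero_le_one.trans κ1) hκ E.mem m2 m1 m4
        ((Subspace.forall_mem_dualAnnihilator_apply_eq_zero_iff _ B).1 fun l hl => by
          simp [b1, (Submodule.mem_dualAnnihilator _).1 hl _ (fr.mem _ _ _)]) b1, b2,
      fun k d f g hg => ?_⟩
    refine ((Complex.isBigO_ofReal_left.2 (isBigO_refl (fun t : ℝ => t ^ 4) _)).mul
      ((m3 4 (D - 7 / 2) (by push_cast; ring) W w1 hD).1 f ⟨(hg.1 0).1, (hg.1 0).2, subset_univ _⟩ _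
        (gen_mem (gen_L i1 i2) d (f := g) ⟨fun i => hg.1 i.succ, fun i j e =>
          hg.2 ((Fin.succ_injective _).ne e)⟩ fun i =>
            (hg.2 (Fin.succ_ne_zero i)).subset_compl_right))).congr' ?_ ?_ <;>
      filter_upwards [self_mem_nhdsWithin] with t (t0 : 0 < t)
    · have : (t : ℂ) ≠ 0 := by exact_mod_cast t0.ne'
      simp only [Zo.rm, Zo.pp, Zo.cor, ← Wx.D.app, Fin.prod_univ_succ (n := k), Matrix.cons_val_zero,
        Matrix.cons_val_succ, LinearEquiv.apply_symm_apply, Complex.ofReal_pow]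
      field_simp
    · rw [← rpow_natCast, ← rpow_add t0]
      congr 1
      push_cast
      ring
  obtain ⟨κ, κ1, -, H⟩ := em_all (Φ := Φ) L hF hP hS hL hQ (g1.pb v1).1
  obtain ⟨m', m1, -, m3⟩ := H (ci.m2 φ hφ 4 φ hφ κ κ1).2.choose_spec
  replace m3 := m3 4 (1 / 2) (by norm_num)
  have e : ∀ s z, ∏ i, xL (![φ, φ] i) (fun y => ![Ope.hn g v, fun y => Ope.hn g v (-y)] i
      (s⁻¹ • (y - z))) = MvPolynomial.aeval (xL φ) (Ope.pr (Ope.hn g v) s z) := fun s z => by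
    simp [Ope.pr, ← smul_neg]
  simp only [e] at m3
  have l : Tendsto (fun s : ℝ => log s ^ 2 * s ^ (1 / 2 : ℝ)) (𝓝[>] 0) (𝓝 (0 ^ 2)) :=
    ((tendsto_log_mul_rpow_nhdsGT_zero (r := 1 / 4) (by norm_num)).pow 2).congr'
      (eventually_mem_nhdsWithin.mono fun s e => by
        rw [mul_pow, ← rpow_mul_natCast (le_of_lt e)]
        norm_num)
  rw [zero_pow two_ne_zero] at l
  have mp := fun W w1 hD f (hf : S3.Ds univ f) Z hZ => ((Complex.isBigO_ofReal_left.2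
    (isBigO_refl (fun s : ℝ => log s ^ 2) _)).mul ((m3 W w1 hD).1 f hf.c1 Z hZ)).trans_tendsto l
  refine ⟨_, fun W w1 hD => ⟨fun s => (Φ.F 4).smul_mem _ (m1 s), mp S hS.one Net.Dom.refl,
    mp W w1 hD, fun f hf Z hZ ε ε0 => ?_⟩⟩
  obtain ⟨C, hC⟩ := (m3 W w1 hD).2 f hf.c1 Z hZ
  filter_upwards [hC, ((l.pow 2).const_mul (4 * C)).eventually_le_const (by simpa using ε0),
    self_mem_nhdsWithin] with s e1 e2 (s0 : 0 < s)
  obtain ⟨Y, y1, y2⟩ := e1 _ (rpow_pos_of_pos s0 (1 / 2))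
  obtain ⟨Y, y0, rfl⟩ := (Submodule.span_image (MvPolynomial.aeval (xL φ)).toLinearMap).le
    (image_image .. ▸ y1)
  exact ⟨Y, y0, (mul_le_mul_of_nonneg_left y2 (by positivity)).trans (le_of_eq_of_le (by ring) e2)⟩

end Pool.Agent.Lib.MP_7f377f_mp.Wx
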