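import Pool.Agent.Lib.MP_7f377f_mp.G.ZhP

/-! The input from the renormalisation group. -/

noncomputable section

namespace Pool.Agent.Lib.MP_7f377f_mp.Zg
variable [Pool.Agent.Lib.MP_7f377f_mp.GD]

open MeasureTheory Filter Topology Set YM7 L6 Wy Pur Wm Lm Wv
open Ro (prm)

variable {d : ℕ} (𝒜 : Set (Matrix (Fin d) (Fin d) ℝ)) [Og 𝒜] [MeasurableSpace SU2] (h : Measure SU2)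
  (n : ℕ × ℕ → ℕ) [∀ p, NeZero (n p)] (a b : ℕ × ℕ → ℝ) (U : Ultrafilter (ℕ × ℕ))
  (O : ℕ × ℕ → V0 𝒜 →ₗ[ℝ] Fz → ℝ) (A : ℝ → V0 𝒜 ≃ₗ[ℝ] V0 𝒜) (φ : V0 𝒜)

/-- the centred action density -/
def dl (p : ℕ × ℕ) (W : Fz) : ℝ := (dz W - ∫ W', dens W' 0 ∂wilson h (b p) (n p)) / a p ^ 4

open Classical in
/-- lattice observables for all labels -/
structure Ri : Prop where
  obs : ∀ c, ∃ R, ∀ p, YZ.Obs R fun W => (O p c W : ℂ)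
  rf : ∀ μ c, ∀ᶠ p in fast, ∀ W, O p (r0 𝒜 (rfL μ) c) W = O p c (rz μ W)
  pm : ∀ σ c, ∀ᶠ p in U, ∀ W, O p (r0 𝒜 (prm σ) c) W = O p c (qz σ W)
  one : ∀ᶠ p in U, ∀ W, O p (u0 𝒜) W = 1
  en : ∃ (ψ : ℕ × ℕ → V0 𝒜) (G : Set (ℕ × ℕ)), G ∈ U ∧ (∀ p, ψ p ∈ (fil 𝒜).F 4) ∧
    Tendsto ψ U (𝓝 φ) ∧ (∃ B, ∀ᶠ p in fast, ‖ψ p‖ ≤ B) ∧ EN h n a b (Oe (fun p c => O p c)
      fun p => (if p ∈ G then dl h n a b p else O p φ) - O p (ψ p)) (θe fun μ => r0 𝒜 (rfL μ))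
        (range Sum.inr)
  p1 : ∀ μ, r0 𝒜 (rfL μ) φ = φ
  p2 : ∀ σ, r0 𝒜 (prm σ) φ = φ
  up : ∀ t, (fil 𝒜).Up 0 (A t) ∧ (fil 𝒜).Up 0 (A t).symm
  c1 : ∀ t μ c, A t (r0 𝒜 (rfL μ) c) = r0 𝒜 (rfL μ) (A t c)
  c2 : ∀ t σ c, A t (r0 𝒜 (prm σ) c) = r0 𝒜 (prm σ) (A t c)
  pos : ∀ᶠ t in 𝓝[>] (0 : ℝ), ∀ x y : ℝ, (A t).symm φ = x • u0 𝒜 + y • l0 𝒜 → 0 ≤ y
  ci : Wx.Ci (fil 𝒜) h n a b U O A (fp0 𝒜) Bp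

end Pool.Agent.Lib.MP_7f377f_mp.Zg
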