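import Pool.Agent.Lib.MP_7f377f_mp.G.ZgN
import Pool.Agent.Lib.MP_7f377f_mp.G.ZgJ
import Pool.Agent.Lib.MP_7f377f_mp.G.WyU
import Pool.Agent.Lib.MP_7f377f_mp.G.Wz
import Pool.Agent.Lib.MP_7f377f_mp.G.KzQ

/-! From the lattice to the statement. -/

noncomputable section

namespace Pool.Agent.Lib.MP_7f377f_mp.Zg
variable [Pool.Agent.Lib.MP_7f377f_mp.GD]
set_option linter.unusedSectionVars false

open MeasureTheory Filter Topology Set YM7 L6 Wy Pur Wm Lm Wv Matrix Sw MvPolynomial RG RG.Q4 RG.Q4.En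
open Ro (Iso)

section
variable [MeasurableSpace SU2] [BorelSpace SU2] {h : Measure SU2} [h.IsHaarMeasure]
  [IsProbabilityMeasure h] {n : ℕ × ℕ → ℕ} [∀ p, NeZero (n p)] {a b : ℕ × ℕ → ℝ}

theorem el_inl {V : Type} {O : ℕ × ℕ → V → Fz → ℝ} {θ Δ} (H : EL h n a b (Oe O Δ) (θe θ)) :
    EL h n a b O θ := fun A h1 h2 => by
  refine (H _ (h1.image .inl) fun μ => forall_mem_image.2 fun c e => ⟨_, h2 μ c e, rfl⟩).imp
    fun C => .imp fun s => .imp_right fun H e => (H e).mono fun J => .imp fun l => .imp_right fun E =>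
      ⟨h1, fun μ c e => ⟨h2 μ c e, Sum.inl.inj (E.cl μ _ ⟨c, e, rfl⟩).2.1, rfl⟩,
        fun _ _ => by positivity, E.lt.imp fun K k => k.mono fun _ k => ?_,
        E.e0.mono fun _ => Exists.imp fun _ => .imp_right fun E s σ e =>
          E s (fun x => .inl (σ x)) fun x y => ⟨_, e x y, rfl⟩⟩
  exact ⟨fun c e => k.cont _ ⟨c, e, rfl⟩, fun c e => k.dep _ ⟨c, e, rfl⟩,
    fun μ c e => k.rf μ _ ⟨c, e, rfl⟩, fun c e => k.bd _ ⟨c, e, rfl⟩⟩

end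

theorem obs_dz (m a : ℝ) : YZ.Obs 1 fun W => (((dz W - m) / a : ℝ) : ℂ) := by
  have e : dz = L6.dz 0 := funext fun W => by simp [dz, L6.dz]
  rw [e]
  refine ⟨by fun_prop, fun U V e => congrArg (fun x => (((x - m) / a : ℝ) : ℂ))
    (dz_dep 0 fun l hl => e l fun i => ?_),
    fun U g => congrArg (fun x => (((x - m) / a : ℝ) : ℂ)) (dz_gz g U 0)⟩
  rcases Finset.mem_union.1 hl with hl | hl <;> obtain ⟨q, -, rfl⟩ := Finset.mem_image.1 hl <;>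
    simp [Pi.single_apply, abs_le]
  split_ifs <;> simp

theorem obs_re {R : ℕ} {F : Fz → ℝ} (h : YZ.Obs R fun W => (F W : ℂ)) :
    Continuous F ∧ DependsOn F {l | ∀ i, |l.1 i| ≤ R} :=
  ⟨Complex.continuous_re.comp h.1, fun _ _ u => Complex.ofReal_injective (h.2.1 u)⟩

variable {G : Gl} {β : ℕ × ℕ → ℝ} {U : Ultrafilter (ℕ × ℕ)}
  {S₀ : ∀ {k : ℕ}, (Fin k → R4 → ℝ) → ℝ} {S : Pol →ₗ[ℂ] ℂ} {m : ℕ}
  {𝒜 : Set (Matrix (Fin GD.d) (Fin GD.d) ℝ)} [o : Og 𝒜] {O : ℕ × ℕ → V0 𝒜 →ₗ[ℝ] Fz → ℝ}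
  {A : ℝ → V0 𝒜 ≃ₗ[ℝ] V0 𝒜} {φ : V0 𝒜}

theorem fm_of (R : Rn G β U S₀ S) : Fm G.nn G.aa β := by
  have f := R.ok.fam R.tu
  have := GD.b0_pos
  refine ⟨f.a0.mono_left fast_le, fun _ => rfl, fun J => tendsto_atTop_mono (fun s => ?_)
    ((Nat.tendsto_div_const_atTop two_ne_zero).comp
      (tendsto_pow_atTop_atTop_of_one_lt (show 1 < 3 by norm_num))), fast_le ?_⟩
  · exact (show 3 ^ s / 2 ≤ 2 * (3 ^ s / 2) + 1 by omega).trans (Nat.le_mul_of_pos_right _ (by simp))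
  · filter_upwards [f.cpl.eventually_const_lt (u := 0) (by positivity),
      f.a0.eventually (Ioo_mem_nhdsGT one_pos)] with p e e'
    exact ((div_pos_iff_of_pos_right (Real.log_pos (one_lt_inv₀ e'.1 |>.2 e'.2))).1 e).le

theorem run {r : GD.G →* unitaryGroup (Fin m) ℂ} (hn : GD.n = m + m)
    (ht : ∀ a, (GD.rho a).trace = 2 * (r a).1.trace.re) {B} (hB : B * Bᵀ = 1) (R : Rn G β U S₀ S)
    (H : Ri 𝒜 (Fi.tr haar) G.nn G.aa β U O A φ) :
    Out (Fi.tr haar) r ((Zf.Iv ℂ 𝒜).comap (Zf.ad B))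
      (4 * GD.t ^ 2 * (11 * GD.b0 / (48 * Real.pi ^ 2))) := by
  classical
  have : (Fi.tr haar).IsHaarMeasure := (inferInstance : haar.IsHaarMeasure)
  have := (fil 𝒜).fin 4
  have F := fm_of R
  have i := inv4 (r0 𝒜)
  have P : Pl (fun p c => O p c) fun μ => r0 𝒜 (rfL μ) :=
    ⟨fun c => (H.obs c).imp fun _ e p => obs_re (e p), H.rf⟩
  obtain ⟨ψ, Γ, g, a1, a2, a3, a4⟩ := H.en
  have a0 := ((fil 𝒜).F 4).closed_of_finiteDimensional.mem_of_tendsto a2 (.of_forall a1)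
  have E := el_inl a4.el
  obtain ⟨y, e'⟩ := H.obs φ
  obtain ⟨X, x⟩ : ∃ X : _ → _, ∀ p,
      (if p ∈ Γ then dl (Fi.tr haar) G.nn G.aa β p else O p φ) = X p := ⟨_, fun _ => rfl⟩
  have g' : ∀ᶠ p in U, X p = dl (Fi.tr haar) G.nn G.aa β p :=
    mem_of_superset g fun p e => (x p).symm.trans (if_pos e)
  have D : ∀ p, YZ.Obs (1 + y) fun W => (X p W : ℂ) := fun p => by
    rw [← x]
    split_ifs
    · simpa using obs_add (F := fun W => dl (Fi.tr haar) G.nn G.aa β p W) (obs_dz _ _) (e' p) 0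
    · simpa [add_comm] using obs_add (e' p) (obs_dz 0 1) 0
  simp only [x] at a4
  obtain ⟨T', L'⟩ := Wy.exists_lim (h1 := i.1) (h2 := i.2) F P (pb F i E) R.lim.le
  obtain ⟨T, e1, rfl⟩ := (L'.mod2 (hθ := i) F P a1 a0 a2 ⟨_, fun p => obs_re (D p)⟩ a4
    fun c => if c = φ then 1 else 0).old F
    (φ := φ) (g'.mono fun p e W => by simp [e, dl]) R.lim
  have L := L'.congr e1
  have sl : Sl (netL i.1 i.2) xL T (r0 𝒜) (u0 𝒜) := ⟨gen_L _ _, L.st F P (pb F i E), L.linF F P,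
    fun t a b => L.lab F P (.of_forall fun p W => by simp), L.prodL F P E,
    fun k c f => L.real c, fun σ k c f => L.perm F P σ (H.pm σ) c, L.unit F H.one⟩
  have la : La (fil 𝒜) (r0 𝒜) A φ (l0 𝒜) := ⟨a0, H.p1, H.p2, H.up, H.c1, H.c2,
    sg_of rfl (Lc.ml sl.linc sl.gen) a0 H.p1 H.p2 (fun t => (H.up t).2) H.c1 H.c2
      (H.ci.dom (fp_fp0 𝒜) L F P sl.st Net.Dom.refl sl.st.one).1
      (fun k f hf => by simpa [mon, Pur.kap] using R.inp.af k f hf) H.pos⟩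
  obtain ⟨t, t1⟩ : ∃ t : V0 𝒜 →ₗ[ℝ] ℝ, t φ = 1 := Module.Projective.exists_dual_eq_one ℝ fun e =>
    l0_ne (tendsto_nhds_unique la.sg (by simp [e]))
  obtain ⟨B', b1, b2⟩ := fil_count (fil 𝒜)
  obtain ⟨n, a, b, O', lat⟩ := LimL.lat
    (O := fun p => O p + t.smulRight (X p - O p φ))
    (L.mod2 (hθ := i) F P a1 a0 a2 ⟨_, fun p => obs_re (D p)⟩ a4 t) F
    (PB.mod2 F i P a1 a0 a3 ⟨_, fun p => obs_re (D p)⟩ a4.el t) b1 b2
    ((R.ok.fam R.tu).cpl.mono_left fast_le) (fun c => (H.obs c).elim fun x e =>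
      ⟨x + (1 + y + y), fun p => by
        convert obs_add (e p) (obs_add (D p) (e' p) (-1)) (t c) using 2
        simp [sub_eq_add_neg, mul_add]⟩) (φ := φ)
    (g'.mono fun p e => ⟨_, by
      simp only [LinearMap.add_apply, LinearMap.smulRight_apply, t1, one_smul, add_sub_cancel, e]
      rfl⟩)
  exact top hn ht hB R lat sl la (H.ci.bs L F P sl.st sl.lin sl.prod (fp_fp0 𝒜)
    (fun t => (H.up t).2) a0)

end Pool.Agent.Lib.MP_7f377f_mp.Zg
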