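import Pool.Agent.Lib.MP_7f377f_mp.G.KyI
import Pool.Agent.Lib.MP_7f377f_mp.G.ZgR
import Pool.Agent.Lib.MP_7f377f_mp.G.ZhR

/-! The label of the action density. -/

noncomputable section

namespace Pool.Agent.Lib.MP_7f377f_mp.Zg
variable [Pool.Agent.Lib.MP_7f377f_mp.GD]
set_option linter.unusedSectionVars false

open MeasureTheory Filter Topology Set YM7 L6 Wy Pur Wm Lm Wv Matrix Sw
open Ro (prm)

/-- the plaquettes which contain the direction `0` -/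
def dB (U : Fz) : ℝ := ∑ j : Fin 3, (2 - 2 * GD.re1 (U (0, 0) * U (Pi.single 0 1, j.succ) *
  (U (Pi.single j.succ 1, 0))⁻¹ * (U (0, j.succ))⁻¹))

theorem dz_dens (W : Fz) : dz W = dens (n := 0) W 0 := by
  simp only [dz, dens, zero_add]
  rfl

theorem dz_cont : Continuous dz :=
  (funext fun W => by simp [dz, L6.dz] : dz = L6.dz 0) ▸ (L6.dz 0).continuous

theorem dz_qz (σ) (W : Fz) : dz (qz σ W) = dz W :=
  (dz_dens _).trans ((dens_prm (n := 0) σ W 0).trans (dz_dens _).symm)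

theorem dz_rz (W : Fz) : dz (rz 0 W) - dz W = dB (tz (Pi.single 0 (-1)) W) - dB W := by
  have e (x y z w : SU2) : GD.re1 (x⁻¹ * y * z⁻¹⁻¹ * w⁻¹) = GD.re1 (x * w * z⁻¹ * y⁻¹) := by
    rw [GD.re1, GD.re1, ← trace_transpose, ← GD.rho_inv, show (x⁻¹ * y * z⁻¹⁻¹ * w⁻¹)⁻¹ =
      w * z⁻¹ * y⁻¹ * x by group, map_mul _ _ x, trace_mul_comm, ← map_mul]
    simp only [mul_assoc]
  have u (j : Fin 3) : (Function.update (Pi.single j.succ 1) 0 (-1) : Wu.Z4) =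
      Pi.single 0 (-1) + Pi.single j.succ 1 := funext fun l => by
    by_cases k : l = 0 <;> simp [k]
  have v (j : Fin 3) : (Function.update (Pi.single j.succ 1) 0 0 : Wu.Z4) = Pi.single j.succ 1 :=
    Function.update_eq_self_iff.2 (by simp)
  have w : (Function.update 0 0 (-1) : Wu.Z4) = Pi.single 0 (-1) := rfl
  have w' : (Function.update (Pi.single 0 1) 0 (-1) : Wu.Z4) = Pi.single 0 (-1) :=
    Function.update_idem _ _ _
  have z : (Function.update 0 0 0 : Wu.Z4) = 0 := Function.update_eq_self _ _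
  simp only [dz, dB, Fin.sum_univ_succ (n := 3), Fin.succ_pos, Fin.not_lt_zero, rz, tz, if_true,
    if_false, Fin.succ_ne_zero, Pi.zero_apply, neg_zero, zero_sub, zero_add, Pi.single_eq_same,
    Pi.single_eq_of_ne' (Fin.succ_ne_zero _), u, v, w, w', z, e, add_zero, ← Pi.single_add,
    neg_add_cancel, Pi.single_zero, add_sub_add_right_eq_sub]

theorem dB_lc : Wx.Lc 1 dB := by
  refine ⟨continuous_finsetSum _ fun j _ => ?_, fun U V e => Finset.sum_congr rfl fun j _ => ?_⟩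
  · have := continuous_pe (n := 0) 0 0 j.succ
    simp only [pe, zero_add] at this
    exact this
  have u (i j : Fin 4) : U (Pi.single i 1, j) = V (Pi.single i 1, j) ∧ U (0, j) = V (0, j) :=
    ⟨e _ fun l => by by_cases k : l = i <;> simp [k], e _ (by simp)⟩
  simp only [(u _ _).1, (u 0 _).2]

open Zf in
theorem nul_of {d : ℕ} {𝒜 : Set (Matrix (Fin d) (Fin d) ℝ)} [Og 𝒜] {P : Type} [CommRing P]
    [Algebra ℂ P] {x : V0 𝒜 → (R4 → ℝ) → P} {S : P →ₗ[ℂ] ℂ} {A : ℝ → V0 𝒜 ≃ₗ[ℝ] V0 𝒜} {φ : V0 𝒜}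
    (hd : d = GD.d) (hm : Ml (Zo.cor x S)) (cl : ∀ t, ∃ a b : ℝ, φ = A t (a • u0 𝒜 + b • l0 𝒜))
    (af : ∀ k (c : Fin k → V0 𝒜) f, Adm f → Tendsto
      (fun t : ℝ => S (∏ i, x (A t (c i)) fun y => f i (t⁻¹ • y))) (𝓝[>] 0) (𝓝 (S0 𝒜 k c f)))
    (z : ∀ k (f : Fin (k + 1) → R4 → ℝ), Adm f → S (∏ i, x φ (f i)) = 0) : φ = 0 := by
  have b0 := GD.b0_pos
  have p0 := Real.pi_pos
  choose a b e using cl
  obtain ⟨g, hg, g0⟩ := Ope.kap_ne
  have hf := Ope.adm_pd (Ope.src_adm hg) (hg 0).1 0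
  generalize (Fin.cons _ _ : Fin 2 → R4 → ℝ) = f at hf g0
  let ψ : ContDiffBump (0 : R4) := default
  have hψ : Adm fun _ : Fin 1 => (ψ : R4 → ℝ) :=
    ⟨fun _ => ⟨ψ.hasCompactSupport, ψ.contDiff⟩, Subsingleton.pairwise⟩
  have hU := af 1 (fun _ => u0 𝒜) _ hψ
  have hL := af 1 (fun _ => l0 𝒜) _ hψ
  have u1 : S0 𝒜 1 (fun _ => u0 𝒜) (fun _ => ψ) ≠ 0 := by
    simp only [S0, fr, fp_one, u0, map_one, mul_one, RCLike.ofReal_real_eq_id, id,
      integral_fintype_prod_volume_eq_pow, Complex.ofReal_ne_zero]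
    exact pow_ne_zero _ ψ.integral_pos.ne'
  rw [show S0 𝒜 1 (fun _ => l0 𝒜) (fun _ => ψ) = 0 by simp [S0, fr, fp_one, l0_val, lg, ff]] at hL
  obtain ⟨t, ⟨t0, t1⟩, t2⟩ := ((eventually_mem_nhdsWithin.and (hU.eventually_ne u1)).and
    (((((af 2 (fun _ => l0 𝒜) f hf).mul (hU.pow 2)).add ((hL.pow 2).mul
      (af 2 (fun _ => u0 𝒜) f hf))).sub ((hL.mul hU).mul ((af 2 ![u0 𝒜, l0 𝒜] f hf).add
        (af 2 ![l0 𝒜, u0 𝒜] f hf)))).eventually_ne (b₂ := 0) (by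
          simp [S0_l0 hd hf, u1, g0, b0.ne', p0.ne']))).exists
  have t0 : t⁻¹ ≠ 0 := inv_ne_zero (ne_of_gt t0)
  obtain ⟨m, h1⟩ := hm 1 _ (hψ.smul t0)
  obtain ⟨m', h2⟩ := hm 2 _ (hf.smul t0)
  simp only [Zo.cor] at h1 h2
  have v : ∀ c, S (∏ _i : Fin 1, x c fun y => ψ (t⁻¹ • y)) = m.curryRight ![] c := fun c =>
    (h1 fun _ => c).trans (congrArg m (funext fun i => by fin_cases i; rfl))
  have v' : ∀ c c', S (x c (fun y => f 0 (t⁻¹ • y)) * x c' fun y => f 1 (t⁻¹ • y)) =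
      (m'.curryLeft c).curryRight ![] c' := fun c c' => by simpa using h2 ![c, c']
  have w : ∀ (r s : ℝ) c c' b, (m'.curryLeft (r • c + s • c')).curryRight ![] b =
      r * (m'.curryLeft c).curryRight ![] b + s * (m'.curryLeft c').curryRight ![] b := by simp
  have z1 := (v φ).symm.trans (z 0 _ (hψ.smul t0))
  have z2 := (v' φ φ).symm.trans ((congrArg S (Fin.prod_univ_two _).symm).trans (z 1 _ (hf.smul t0)))
  simp only [Fin.prod_univ_two, cons_val_zero, cons_val_one, v, v'] at t1 t2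
  rw [e t, map_add, map_smul, map_smul] at z1 z2
  simp only [w] at z2
  simp only [map_add, map_smul, Complex.real_smul] at z1 z2
  have k : b t = 0 := Complex.ofReal_eq_zero.1 (by grind)
  have k' : a t = 0 := Complex.ofReal_eq_zero.1 (by grind)
  simp [e t, k, k']

variable {𝒜 : Set (Matrix (Fin GD.d) (Fin GD.d) ℝ)} [Og 𝒜] [MeasurableSpace SU2] [BorelSpace SU2]
  {h : Measure SU2} [h.IsHaarMeasure] [IsProbabilityMeasure h] {n : ℕ × ℕ → ℕ}
  [∀ p, NeZero (n p)] {a b t : ℕ × ℕ → ℝ} {U : Ultrafilter (ℕ × ℕ)}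
  {O : ℕ × ℕ → V0 𝒜 →ₗ[ℝ] Fz → ℝ} {A : ℝ → V0 𝒜 ≃ₗ[ℝ] V0 𝒜} {ψ : ℕ × ℕ → V0 𝒜}
  (S : Wx.Sd (fil 𝒜) h n a b U O (fun μ => r0 𝒜 (rfL μ)) A (fp0 𝒜))
  (pm : ∀ σ c, ∀ᶠ p in U, ∀ W, O p (r0 𝒜 (prm σ) c) W = O p c (qz σ W))

section
variable (m : ∀ p, ψ p ∈ (fil 𝒜).F 4) (t1 : ∀ᶠ p in U, t p = 1)
  (E : EN h n a b (Oe (fun p c => O p c) fun p => t p • (dl h n a b p - O p (ψ p)))
    (θe fun μ => r0 𝒜 (rfL μ)) (range Sum.inr))
include S m t1 E

include pm in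
theorem inv_pm (σ) : Tendsto (fun p => r0 𝒜 (prm σ) (ψ p) - ψ p) U (𝓝 0) := by
  refine S.small (D := 4) (fun p => sub_mem (r0_up _ 4 _ (m p)) (m p)) fun e d ε e0 => ?_
  have k := fun x => S.le (Wx.en_two S.fm S.inv E (.inl x) (fun _ => false)
    (ℓ := 9 / 3 ^ (e + 1)) (by positivity) (half_pos e0))
  filter_upwards [t1, k d, k (r0 𝒜 (prm σ.symm) d), Wx.ev_lin (fil 𝒜) 4 (pm σ), pm σ.symm d]
    with p t1 k1 k2 u v lam w
  have c := S.pl.cont p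
  have c1 : Continuous (dl h n a b p - O p (ψ p)) :=
    ((dz_cont.sub continuous_const).div_const _).sub (c _)
  have e1 : O p (r0 𝒜 (prm σ) (ψ p) - ψ p) = (dl h n a b p - O p (ψ p)) -
      (dl h n a b p - O p (ψ p)) ∘ qz σ := funext fun W => by
    simp [u _ (m p), dl, dz_qz]
  have e2 (W) : qz σ (qz σ.symm W) = W := funext fun l => by simp [qz, Function.comp_def]
  have e3 (W) : tz (Pi.single 0 lam) (qz σ.symm W) =
      qz σ.symm (tz (Pi.single (σ.symm 0) lam) W) := funext fun l => by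
    simp only [tz, qz]
    congr 2
    funext i
    simp [Pi.single_apply, Equiv.eq_symm_apply]
  simp only [(Wx.oe_rz _ _).1, t1, one_smul] at k1 k2
  rw [e1, Wx.co_sub (c d) c1 (c1.comp (cont_qz σ))]
  refine (abs_sub _ _).trans ((add_le_add (k1 0 lam w) ((k2 (σ.symm 0) lam w).trans_eq' ?_)).trans_eq
    (add_halves ε))
  rw [Wx.co, ← Weak.int_mp (mp_prm h (b p) σ.symm) (by fun_prop)]
  simp only [lf_prm, e2, e3, ← v, Function.comp]
  rfl

theorem inv_rf (R : Wx.Rt (fil 𝒜) h n a b O (fun p W => √(a p) * (dB W / a p ^ 4)) 3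
    (fun p => √√(a p)) fun _ => True) :
    Tendsto (fun p => r0 𝒜 (rfL 0) (ψ p) - ψ p) U (𝓝 0) := by
  have a0 := (Real.continuous_sqrt.tendsto' 0 0 (by simp)).comp
    (S.fm.a0.mono_right nhdsWithin_le_nhds)
  have lc (p) : Wx.Lc 1 fun W => √(a p) * (dB W / a p ^ 4) :=
    ⟨(dB_lc.1.div_const _).const_mul _, fun _ _ e => by simp only [dB_lc.2 e]⟩
  obtain ⟨B, hB⟩ := (Weak.BM.of_continuous dB_lc.1).2
  obtain ⟨ψ', t', -, m', t2, E'⟩ := R.en S (fun _ => Real.sqrt_nonneg _)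
    ((Real.continuous_sqrt.tendsto' 0 0 (by simp)).comp a0) ⟨1, lc⟩
    ⟨fun J => |√(a (0, J))| * (B / |a (0, J) ^ 4|), .of_forall fun p W => by
      simp only [abs_mul, abs_div, ← S.fm.aJ]
      gcongr
      exact hB W⟩
  obtain ⟨u, hu⟩ := S.un
  obtain ⟨r, hr⟩ := S.pl.loc (u0 𝒜)
  choose x hx using fun p => cl3 (m' p)
  refine S.small (D := 4) (fun p => sub_mem (r0_up _ 4 _ (m p)) (m p)) fun e d ε e0 => ?_
  obtain ⟨C, hC⟩ := S.shift E' ⟨max 1 r, fun p => by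
    have := ((lc p).mono (le_max_left 1 r)).sub (Wx.Lc.mono (r' := max 1 r)
      (X := x p • O p (u0 𝒜)) ⟨(hr p).1.const_smul _, fun _ _ e => by simp [(hr p).2 e]⟩
      (le_max_right _ _))
    rw [hx, map_smul]
    exact ⟨this.1.const_smul _, fun _ _ e => congrArg (t' p * ·) (this.2 e)⟩⟩ e d
  have k := fun g => S.le (Wx.en_two S.fm S.inv E (.inl d) g
    (ℓ := 9 / 3 ^ (e + 1)) (by positivity) (show 0 < ε / 3 by positivity))
  filter_upwards [t1, t2, hu, hC, k fun _ => false, k fun μ => μ = 0,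
    Wx.ev_lin (fil 𝒜) 4 fun c => S.le (S.pl.rf 0 c), S.le (S.fm.pos one_pos),
    ((a0.mono_left S.le).const_mul C).eventually_le_const (show C * 0 < ε / 3 by simpa)]
    with p t1 t2 ⟨_, u1⟩ hC k1 k2 u ⟨a1, _⟩ a2 lam w
  obtain ⟨y, hy⟩ := u1 (ψ' p) (hx p ▸ Submodule.smul_mem _ _ (u0_mem 0))
  have c := S.pl.cont p
  have c0 : Continuous (dl h n a b p) := (dz_cont.sub continuous_const).div_const _
  have c1 := c0.sub (c (ψ p))
  have e1 : O p (r0 𝒜 (rfL 0) (ψ p) - ψ p) = (dl h n a b p - O p (ψ p)) -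
      (dl h n a b p - O p (ψ p)) ∘ rz 0 - (dl h n a b p - dl h n a b p ∘ rz 0) := funext fun W => by
    simp [u _ (m p)]
    ring
  simp only [(Wx.oe_rz _ _).1, (Wx.oe_rz _ _).2, t1, one_smul] at k1 k2
  rw [e1, Wx.co_sub (c d) (c1.sub (c1.comp (cont_rz 0))) (c0.sub (c0.comp (cont_rz 0))),
    Wx.co_sub (c d) c1 (c1.comp (cont_rz 0))]
  refine (abs_sub _ _).trans ((add_le_add ((abs_sub _ _).trans (add_le_add (k1 0 lam w)
    (k2 0 lam w))) (le_trans ?_ a2)).trans_eq (add_thirds ε))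
  have s0 := Real.sqrt_pos.2 a1
  refine le_of_mul_le_mul_left (((hC lam w).trans_eq' ?_).trans_eq ?_) s0
  · conv_rhs => rw [← abs_of_pos s0]
    rw [Wx.co, ← Weak.int_mp (mp_refl' h (b p) 0) (by fun_prop), ← abs_mul, ← integral_const_mul, er]
    congr 2
    funext W
    simp only [lf_refl, ← rz_tz, th_one, t2, hy, dl, Function.comp, rz_rz, Pi.sub_apply, one_smul,
      ← sub_div, dz_rz, sub_sub_sub_cancel_right]
    ring
  · rw [Function.comp, mul_left_comm, Real.mul_self_sqrt a1.le]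

theorem ph_bd (ci : Wx.Ci (fil 𝒜) h n a b U O A (fp0 𝒜) Bp)
    (c1 : ∀ t μ c, A t (r0 𝒜 (rfL μ) c) = r0 𝒜 (rfL μ) (A t c))
    (c2 : ∀ t σ c, A t (r0 𝒜 (prm σ) c) = r0 𝒜 (prm σ) (A t c))
    {S₀ : ∀ {k : ℕ}, (Fin k → R4 → ℝ) → ℝ} {S' : Pol →ₗ[ℂ] ℂ} (old : Lim h fast n a b U S₀ S')
    (i1 : ∀ μ, Tendsto (fun p => r0 𝒜 (rfL μ) (ψ p) - ψ p) U (𝓝 0))
    (i2 : ∀ σ, Tendsto (fun p => r0 𝒜 (prm σ) (ψ p) - ψ p) U (𝓝 0)) :
    ∃ B, ∀ᶠ p in U, ‖ψ p‖ ≤ B := by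
  classical
  have := (fil 𝒜).fin 4
  by_contra H
  have hi : Tendsto (fun p => ‖ψ p‖) U atTop := tendsto_atTop.2 fun B =>
    (Ultrafilter.eventually_not.2 fun e => H ⟨B, e⟩).mono fun _ e => (not_le.1 e).le
  obtain ⟨s, s2, s1, s0⟩ : ∃ s : ℕ × ℕ → ℝ, (∀ᶠ p in U, ‖s p • ψ p‖ = 1) ∧ (∀ p, |s p| ≤ 1) ∧
      Tendsto s U (𝓝 0) := ⟨fun p => (max ‖ψ p‖ 1)⁻¹, (hi.eventually_ge_atTop 1).mono fun p e => by
        simp only [norm_smul, max_eq_left e, norm_inv, norm_norm]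
        exact inv_mul_cancel₀ (one_pos.trans_le e).ne',
      fun p => (abs_of_nonneg (by positivity)).trans_le (inv_le_one_of_one_le₀ (le_max_right _ _)),
      (tendsto_atTop_mono (fun _ => le_max_left _ _) hi).inv_tendsto_atTop⟩
  have m1 := fun p => Submodule.smul_mem _ (s p) (m p)
  obtain ⟨φ, m0, hl⟩ := Zo.exists_lim U m1 (s2.mono fun _ => Eq.le)
  have iv (g) (e : Tendsto (fun p => r0 𝒜 g (ψ p) - ψ p) U (𝓝 0)) : r0 𝒜 g φ = φ :=
    sub_eq_zero.1 (tendsto_nhds_unique ((Zo.lin_tend _ m1 m0 hl).sub hl)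
      (by simpa [smul_sub] using s0.smul e))
  have P := pb S.fm S.inv S.el
  obtain ⟨T, L⟩ := Wy.exists_lim (h1 := S.inv.1) (h2 := S.inv.2) S.fm S.pl P S.le
  have st := L.st S.fm S.pl P
  have M := L.mod2 (hθ := S.inv) S.fm S.pl m1 m0 hl (mod_core (X := fun p => (s p * t p) • dl h n a b p)
    S.pl (fun p => Submodule.smul_mem _ (s p * t p - s p) (m p)) m0 ⟨1, fun p =>
      have e := obs_re (obs_dz (∫ W', dens W' 0 ∂wilson h (b p) (n p)) (a p ^ 4))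
      ⟨e.1.const_smul _, fun _ _ u => congrArg (s p * t p * ·) (e.2 u)⟩⟩ 0).1
    (by
      convert Wx.en_smul E s1 using 3
      simp only [map_smul]
      module) fun c => if c = φ then 1 else 0
  obtain rfl := nul_of (φ := φ) rfl
    (Lc.ml (fun t a b => L.lab S.fm S.pl (.of_forall fun p W => by simp)) (gen_L _ _))
    (fun t => (cl_b4 (S.up t 4 φ m0) (fun μ => (A t).injective (by rw [c1]; simp [iv _ (i1 _)]))
      fun σ => (A t).injective (by rw [c2]; simp [iv _ (i2 _)])).imp fun _ => .imp fun _ =>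
        (A t).symm_apply_eq.1)
    (ci.dom (fp_fp0 𝒜) L S.fm S.pl st Net.Dom.refl st.one).1 fun k f hf => by
      obtain ⟨D, -, h1, -⟩ := hf.data
      refine tendsto_nhds_unique (M.word (fun _ => φ) hf) (.congr' ?_ (by
        simpa using (Complex.continuous_ofReal.tendsto _).comp ((s0.pow (k + 1)).mul (old.cv hf))))
      filter_upwards [t1, L.le S.fm.a01, L.le (S.fm.avol.eventually_gt_atTop (2 * D))]
        with p e1 e2 e3
      have (g) (W : Cfg (n p)) : fld (a p) (fun W => s p * dl h n a b p W) g W = s p * _ :=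
        Eq.trans (by simp only [fld, Finset.mul_sum, mul_left_comm, dl, dz, Zg.dz])
          (congrArg _ (fld_dz (h := h) (b := b p) e2.1.ne' g W))
      simp only [e1, mul_one, sub_self, zero_smul, map_zero, sub_zero, if_true, one_mul,
        add_sub_cancel, Pi.smul_apply, smul_eq_mul, Function.comp, corr, ← Complex.ofReal_prod,
        ex_real, ← sm_fld e2.1 e3 _ (cube_of (h1 _)), this, Finset.prod_mul_distrib, Fin.prod_const,
        integral_const_mul]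
  simpa using tendsto_nhds_unique hl.norm (tendsto_const_nhds.congr' (s2.mono fun _ => Eq.symm))

end

open Classical in
include S pm in
theorem ph_of (ci : Wx.Ci (fil 𝒜) h n a b U O A (fp0 𝒜) Bp)
    (c1 : ∀ t μ c, A t (r0 𝒜 (rfL μ) c) = r0 𝒜 (rfL μ) (A t c))
    (c2 : ∀ t σ c, A t (r0 𝒜 (prm σ) c) = r0 𝒜 (prm σ) (A t c))
    {S₀ : ∀ {k : ℕ}, (Fin k → R4 → ℝ) → ℝ} {S' : Pol →ₗ[ℂ] ℂ} (old : Lim h fast n a b U S₀ S')
    {P} (R4 : Wx.Rt (fil 𝒜) h n a b O (dl h n a b) 4 (fun p => √(a p)) P)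
    (R3 : Wx.Rt (fil 𝒜) h n a b O (fun p W => √(a p) * (dB W / a p ^ 4)) 3
      (fun p => √√(a p)) fun _ => True) :
    ∃ φ : V0 𝒜, (∃ ψ, P ψ ∧ Tendsto ψ U (𝓝 φ)) ∧ (∃ (ψ : ℕ × ℕ → V0 𝒜) (G : Set (ℕ × ℕ)), G ∈ U ∧
      (∀ p, ψ p ∈ (fil 𝒜).F 4) ∧ Tendsto ψ U (𝓝 φ) ∧ (∃ B, ∀ᶠ p in fast, ‖ψ p‖ ≤ B) ∧
      EN h n a b (Oe (fun p c => O p c) fun p => (if p ∈ G then dl h n a b p else O p φ) - O p (ψ p))
        (θe fun μ => r0 𝒜 (rfL μ)) (range Sum.inr)) ∧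
      (∀ μ, r0 𝒜 (rfL μ) φ = φ) ∧ ∀ σ, r0 𝒜 (prm σ) φ = φ := by
  obtain ⟨B, hB⟩ := (Weak.BM.of_continuous dz_cont).2
  obtain ⟨ψ, t, p1, m, t1, E⟩ := R4.en S (fun _ => Real.sqrt_nonneg _)
    ((Real.continuous_sqrt.tendsto' 0 0 (by simp)).comp (S.fm.a0.mono_right nhdsWithin_le_nhds))
    ⟨1, fun p => obs_re (obs_dz _ _)⟩ ⟨fun J => (B + B) / |a (0, J) ^ 4|, .of_forall fun p W => by
      simp only [dl, abs_div, ← S.fm.aJ]
      gcongr
      refine (abs_sub _ _).trans (add_le_add (hB W) ?_)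
      rw [← Real.norm_eq_abs, ← mul_one B, ← probReal_univ (μ := wilson h (b p) (n p))]
      exact norm_integral_le_of_norm_le_const (.of_forall fun W => by
        refine (hB (lf W)).trans_eq' (congrArg _ ?_)
        exact .trans (by simp [dz, L6.dz]) ((L6.dz_lf W 0).trans (congrArg _ (by simp [funext_iff]))))⟩
  have i2 := inv_pm S pm m t1 E
  have k g g' (e : Tendsto (fun p => r0 𝒜 g (ψ p) - ψ p) U (𝓝 0))
      (e' : Tendsto (fun p => r0 𝒜 g' (ψ p) - ψ p) U (𝓝 0)) :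
      Tendsto (fun p => r0 𝒜 (g * g') (ψ p) - ψ p) U (𝓝 0) :=
    squeeze_zero_norm (fun p => by
      rw [← norm_r0 g (r0 𝒜 g' _ - _)]
      exact (norm_add_le _ _).trans_eq' (by simp)) (add_zero (0 : ℝ) ▸ norm_zero (E := V0 𝒜) ▸
        e'.norm.add e.norm)
  have i1 μ : Tendsto (fun p => r0 𝒜 (rfL μ) (ψ p) - ψ p) U (𝓝 0) := by
    convert k _ _ (k _ _ (i2 (.swap 0 μ)) (inv_rf S m t1 E R3)) (i2 (.swap 0 μ))
    ext y i
    by_cases u : i = μ <;> simp [rfL_eq, rf, Ro.prm_apply, u, Equiv.swap_apply_eq_iff]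
  obtain ⟨K, hK⟩ := ph_bd S m t1 E ci c1 c2 old i1 i2
  have := (fil 𝒜).fin 4
  obtain ⟨φ, m0, l⟩ : ∃ φ ∈ (fil 𝒜).F 4, Tendsto ψ U (𝓝 φ) := by
    obtain ⟨φ, -, l⟩ := (isCompact_closedBall (0 : (fil 𝒜).F 4) K).ultrafilter_le_nhds
      (U.map fun p => ⟨ψ p, m p⟩) (le_principal_iff.2 (mem_map.2 (hK.mono fun p e => mem_closedBall_zero_iff.2 e)))
    exact ⟨φ, φ.2, (continuous_subtype_val.tendsto _).comp l⟩
  have i g (e : Tendsto (fun p => r0 𝒜 g (ψ p) - ψ p) U (𝓝 0)) : r0 𝒜 g φ = φ :=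
    sub_eq_zero.1 (tendsto_nhds_unique ((tendsto_iff_norm_sub_tendsto_zero.2 (by
      simpa only [← map_sub, norm_r0] using tendsto_iff_norm_sub_tendsto_zero.1 l)).sub l) e)
  obtain ⟨G, g, e⟩ := (t1.and hK).exists_mem
  refine ⟨φ, ⟨ψ, p1, l⟩, ⟨fun p => if p ∈ G then ψ p else φ, G, g, fun p => ?_,
    l.congr' (mem_of_superset g fun p e => (if_pos e).symm), ⟨max K ‖φ‖, .of_forall fun p => ?_⟩,
    ?_⟩, fun μ => i _ (i1 μ), fun σ => i _ (i2 σ)⟩ <;> beta_reduce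
  · split_ifs
    exacts [m p, m0]
  · split_ifs with u
    exacts [(e p u).2.trans (le_max_left _ _), le_max_right _ _]
  · convert Wx.en_smul E (t := fun p => if p ∈ G then 1 else 0)
      (fun p => by split_ifs <;> simp) using 3 with p
    split_ifs with u <;> simp [u, e p]

end Pool.Agent.Lib.MP_7f377f_mp.Zg
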