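import Pool.Agent.Lib.MP_7f377f_mp.G.JvZ2
import Pool.Agent.Lib.MP_7f377f_mp.G.JuR

/-! Slots with a lattice letter minus the matching letter of a frame. -/

noncomputable section

set_option linter.unusedSectionVars false
variable [Pool.Agent.Lib.MP_7f377f_mp.GD]

namespace Pool.Agent.Lib.MP_7f377f_mp.RG.Q4.En.Gl

open Finset Real Cok Filter Tl Ju Sg Pos Mg
open scoped Classical

attribute [local irreducible] box lbox tb tau rc

variable {α β κ : Type} [Fintype α] [DecidableEq α] [Fintype β] [Fintype κ] {G : Gl} {w : α → ℕ}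
  {b M δ K K' C₀ v : ℝ} {d D C J j k l R A n g : ℕ} {c : ℕ → St} {ω : ℕ → ℝ}
  {p : ℕ → (α → ℝ) →ₗ[ℝ] V} {lm : ℕ → V →ₗ[ℝ] α → ℝ} {U U' : ℕ → Module.End ℝ (α → ℝ)}
  {m : β → ℕ} {X : β → Lq} {z : St} {Y : Lq}

variable (hj : j ≤ l) (hn : d + 9 ≤ n) (hJ : K / G.ka D C J ^ d ≤ G.rt J k) (a : Lt1 R δ K' Y)
  (K0 : 0 < K')
  (hv : G.QA A k ^ 346 * (G.Pw d C l J / (G.rt J k : ℝ) ^ (d + 1) * (G.Yr d C J * K')) ≤ v)
include hj hn hJ a K0 hv

theorem Fk.slwT (F : G.Fk w d D C M c b J j ω p lm U U' R δ K m X) (hl : l ≤ k) (hk : k < J)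
    (big : ∀ i ≥ k, G.Big A i) : ∃ t,
    G.ys w d D C c b J j p (G.fl D C J m X t) l = G.ys w d D C c b J j p Y l ∧
      G.SlW A n b J k l R (c J) (Y - G.fl D C J m X t) 0 fun _ => v := by
  have T := F.T
  have h := T.ok
  have y1 := h.Yr1 d C J
  have k0 := h.ka0 D C J
  have k1 := T.ka1 F.J1 F.δ1
  have M1 := T.M1
  have FK := F.K0
  obtain ⟨x, hx⟩ : ∃ x, x = G.Yr d C J * K' := ⟨_, rfl⟩
  rw [← hx] at hv
  have xK : K' ≤ x := hx ▸ le_mul_of_one_le_left K0.le y1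
  have x0 := K0.trans_le xK
  have kK : K' * G.ka D C J ^ 1 ≤ K' := by rw [pow_one]; exact mul_le_of_le_one_right K0.le k1
  obtain ⟨t, b1, b2, b3⟩ := a.elim fun σ H => F.cmpT hj (hl.trans hk.le) x0 a
    (T.co.mono _ _ _ _ (T.tp_P F.J1 H K0 le_rfl F.d1) (kK.trans xK))
    ((T.tp_q F.J1 H le_rfl F.d1).trans (hx ▸ mul_le_mul_of_nonneg_left kK (by linarith)))
  have r0 : ∀ i k, (1 : ℝ) ≤ G.rt i k := fun i k => by simpa using Ok.rt0 (G := G) i k 1
  have rp : ∀ i k, (0 : ℝ) < G.rt i k := fun i k => one_pos.trans_le (r0 i k)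
  have P1 := h.Pw1 d C l J
  have PP : ∀ i, l ≤ i → i ≤ J → G.Pw d C i J ≤ G.Pw d C l J := fun i e e' =>
    Ok.Pw_mul (G := G) e e' ▸ le_mul_of_one_le_left (zero_le_one.trans (h.Pw1 ..)) (h.Pw1 ..)
  obtain ⟨u, hu⟩ : ∃ u, u = G.Pw d C l J / (G.rt J k : ℝ) ^ (d + 1) * x := ⟨_, rfl⟩
  rw [← hu] at hv
  have u0 : 0 < u := by have := rp J k; rw [hu]; positivity
  have q1 := h.QA1 A k
  have v0 : 0 < v := lt_of_lt_of_le (by have := h.QA0 A k; positivity) hv
  have MQ := F.MQ (A := A) (hj.trans hl)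
  have e : ∀ i y, k ≤ i → 0 ≤ y → y ≤ 10 * M * (u * (G.rt i k : ℝ) ^ (d + 2)) → ∀ s ≤ 345,
      G.QA A i ^ s * (G.rX n k v i * y) ≤ 1 := fun i y h1 y0 e s hs => by
    have := rp i k
    have q := h.QA1 A i
    rw [mul_left_comm, Gl.rX, inv_mul_le_iff₀ (mul_pos v0 (one_pos.trans_le (Ok.rt0 ..))), mul_one]
    calc _ ≤ G.QA A k ^ 345 * (G.rt i k : ℝ) ^ 5 * (G.QA A k * (u * (G.rt i k : ℝ) ^ (d + 2))) :=
          mul_le_mul ((pow_le_pow_right₀ (by linarith) hs).trans (h.QA_rt big h1))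
            (e.trans (mul_le_mul_of_nonneg_right (by linarith) (by positivity))) y0 (by positivity)
      _ = G.QA A k ^ 346 * u * (G.rt i k : ℝ) ^ (d + 7) := by ring
      _ ≤ _ := mul_le_mul hv ((pow_le_pow_right₀ (r0 i k) (by omega)).trans
          (pow_le_pow_left₀ (Nat.cast_nonneg _) (h.rt_up2 (le_max_left ..)) n)) (by positivity) v0.le
  have a' := a.sub (F.lt1 t)
  have z0 : ∀ i, 0 ≤ G.Pw d C i J / (G.rt J i : ℝ) ^ (d + 1) * x := fun i => by
    have := h.Pw1 d C i J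
    positivity
  refine ⟨t, b1, fun _ => v0, fun i _ _ => le_mul_of_one_le_left v0.le
    (one_le_pow₀ (by linarith [h.L1 i])), T.rxA F.J1 F.d1 a' F.δ1 (by omega)
      (fun i => (Ok.rX_pos v0).le) (e J _ hk.le a'.nn ?_ _ (by norm_num)) fun i h1 h2 =>
        ⟨_, _, (b3 i (by omega) h2.le).1, (b3 i (by omega) h2.le).2,
          e i _ (by omega) (by have := z0 i; positivity) ?_ _ (by norm_num)⟩, fun i h1 h2 => ?_⟩
  · have r := r0 J k
    have e1 : x * G.rt J k ≤ u * (G.rt J k : ℝ) ^ (d + 2) := by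
      rw [hu, show G.Pw d C l J / (G.rt J k : ℝ) ^ (d + 1) * x * (G.rt J k : ℝ) ^ (d + 2) =
        G.Pw d C l J * (x * G.rt J k) by field_simp; ring]
      exact le_mul_of_one_le_left (by positivity) P1
    have e2 := mul_le_mul hJ b2 (norm_nonneg _) (rp J k).le
    rw [mul_div_assoc, mul_assoc]
    nlinarith [mul_le_mul_of_nonneg_left e2 (zero_le_one.trans M1), le_mul_of_one_le_right x0.le r,
      mul_le_mul_of_nonneg_left e1 (zero_le_one.trans M1), le_mul_of_one_le_left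
        (mul_pos x0 (rp J k)).le M1]
  · have e1 : G.Pw d C i J / (G.rt J i : ℝ) ^ (d + 1) * x ≤ u * (G.rt i k : ℝ) ^ (d + 2) := by
      have := rp J i
      have := rp i k
      rw [hu, h.rt_rt (show k ≤ i by omega) h2.le]
      push_cast
      rw [show G.Pw d C l J / (G.rt J i * G.rt i k : ℝ) ^ (d + 1) * x * (G.rt i k : ℝ) ^ (d + 2) =
        G.Pw d C l J / (G.rt J i : ℝ) ^ (d + 1) * x * G.rt i k by field_simp; ring]
      refine le_trans ?_ (le_mul_of_one_le_right (by positivity) (r0 i k))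
      gcongr
      exact PP i (by omega) h2.le
    nlinarith [z0 i, mul_le_mul_of_nonneg_left e1 (zero_le_one.trans M1)]
  · have hi := h2.trans hk.le
    rw [show ((0, 0) : Lx × Ac) = 0 from rfl, add_zero,
      show G.tn b J (G.tn ..) k i = G.jv b J (c J) _ i from dw_dw _ _ hk.le i h2,
      ← T.lv1 F.J1 F.d1 a' (hj.trans h1) (h2.trans_lt hk)]
    refine F.szW hj h1 (b3 i h1 hi).1 (b3 i h1 hi).2 (mul_pos v0 (one_pos.trans_le (Ok.rt0 ..)))
      (z0 i) (by nlinarith [z0 i]) (le_trans ?_ (hv.trans (le_mul_of_one_le_right v0.le (Ok.rt0 ..))))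
    refine mul_le_mul ((pow_le_pow_left₀ (h.QA0 A i).le (h.QA_mono h2) _).trans
      (pow_le_pow_right₀ (by linarith) (by norm_num))) ?_ (z0 i) (by positivity)
    have := rp J k
    rw [hu]
    gcongr
    · exact PP i h1 hi
    · rw [h.rt_rt h2 hk.le]
      exact Nat.le_mul_of_pos_right _ (pow_pos three_pos _)

/-- the same letter of the frame matches at all translates, and it is real -/
theorem Aok.slwT (o : G.Aok κ A n g C₀ b J k l R)
    (F : G.Fk w d D C M (G.tk z J) b J j ω p lm U U' R δ K m X) (r : ∀ a, LqR (X a)) (rY : LqR Y) :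
    ∃ t : β → ℝ, G.ys w d D C (G.tk z J) b J j p (G.fl D C J m X fun a => t a) l =
      G.ys w d D C (G.tk z J) b J j p Y l ∧ ∀ y, G.SlW A n b J k l R (z + (G.rt J j : ℤ) • y)
        (Y - G.fl D C J m X fun a => t a) 0 fun _ => v := by
  have hl := o.le.trans o.lt.le
  have big := fun i u => o.big i (o.le.trans u)
  obtain ⟨t, e, -⟩ := F.slwT hj hn hJ a K0 hv o.le o.lt big
  have e' : (fun a => ((t a).re : ℂ)) = t := funext fun q =>
    Complex.ext rfl (F.cmpT_real r hj hl a rY e q).symm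
  refine ⟨fun a => (t a).re, by rwa [e'], fun y => ?_⟩
  have s := o.ok.trl_tk (J := J) (j := j) z y
  obtain ⟨t', e1, e2⟩ := (F.trl s).slwT hj hn hJ a K0 hv o.le o.lt big
  rw [F.T.ys_trl s _ hj hl, F.T.ys_trl s _ hj hl, ← e, ← F.eqv_val hj hl, ← F.eqv_val hj hl] at e1
  rwa [(F.eqv hj hl).injective (Subtype.ext e1), tk_top, ← e'] at e2

end Pool.Agent.Lib.MP_7f377f_mp.RG.Q4.En.Gl
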