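import Pool.Agent.Lib.MP_7f377f_mp.G.KzY0
import Pool.Agent.Lib.MP_7f377f_mp.G.KsD
import Pool.Agent.Lib.MP_7f377f_mp.G.CaT

/-! Lattice letters are labels up to a small letter. -/

noncomputable section

set_option linter.unusedSectionVars false
variable [Pool.Agent.Lib.MP_7f377f_mp.GD]

namespace Pool.Agent.Lib.MP_7f377f_mp.RG.Q4.En

open Finset Function Real Filter MeasureTheory Tl MvPolynomial
open L6 (Fz fast)
open Wy (tz rz)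
open Wd (B4)
open Zg (V0 Og fil u0)
open Kz (rB oc)
open MP_7f377f_mp.Wx (tw pw)
open scoped Classical

attribute [local irreducible] box lbox tb tau rc

theorem ex_tw (g : Fin 4 → Bool) :
    ∃ γ : B4, (∀ W, tw rz g W = Wd.pb Inv.inv γ W) ∧ ((g = fun _ => true) → γ = 1) := by
  have o : ∀ W : Fz, Wd.pb Inv.inv 1 W = W := fun W => funext fun e => by
    simp [Wd.pb, Wd.gv_one, Wd.stp]
  have a : ∀ μ b W, pw (rz μ) b W = Wd.pb Inv.inv (bif b then 1 else Wd.rf μ) W := fun μ b W => by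
    cases b <;> simp [pw, o, Kz.pb_rf]
  refine ⟨_, fun W => by simp only [tw, a, ← Wd.pb_mul inv_inv]; rfl, ?_⟩
  rintro rfl
  simp

omit [GD] in
theorem ev_choice {ι α : Type} {F : Filter ι} {Q Φ : ι → α → Prop} (h0 : ∀ p, ∃ m, Q p m)
    (h : ∀ᶠ p in F, ∃ m, Q p m ∧ Φ p m) : ∃ f : ι → α, (∀ p, Q p (f p)) ∧ ∀ᶠ p in F, Φ p (f p) := by
  have : ∀ p, ∃ m, Q p m ∧ ((∃ m, Q p m ∧ Φ p m) → Φ p m) := fun p => by
    by_cases e : ∃ m, Q p m ∧ Φ p m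
    exacts [e.imp fun m a => ⟨a.1, fun _ => a.2⟩, (h0 p).imp fun m a => ⟨a, fun b => (e b).elim⟩]
  choose f h1 h2 using this
  exact ⟨f, h1, h.mono h2⟩

omit [GD] in
theorem num_rt {P Y r a a0 l ε w K : ℝ} {n : ℕ} (P0 : 0 ≤ P) (Y0 : 0 ≤ Y) (hP : P ^ 8 ≤ r)
    (hY : Y ^ 8 ≤ r) (e : a * r = a0) (a1 : a0 ≤ 1) (p : 0 < a) (p0 : 0 < a0) (w0 : 0 ≤ w)
    (K0 : 0 ≤ K) (h : |l| * a ^ n ≤ ε * √√a) :
    |l| * (w * (P * Y / r ^ n * K)) ≤ w * K / a0 ^ n * ε := by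
  have q : 0 < √√a := by positivity
  have ε0 : 0 ≤ ε := nonneg_of_mul_nonneg_left ((by positivity : 0 ≤ |l| * a ^ n).trans h) q
  have r0 : 0 < r := pos_of_mul_pos_right (e ▸ p0) p.le
  have b : P * Y * √√a ≤ 1 := by
    refine (pow_le_one_iff_of_nonneg (by positivity) (show 8 ≠ 0 by norm_num)).1 ?_
    have : √√a ^ 8 = a ^ 2 := by
      rw [show 8 = 2 * (2 * 2) from rfl, pow_mul, sq_sqrt (sqrt_nonneg _), pow_mul, sq_sqrt p.le]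
    rw [mul_pow, mul_pow, this]
    calc _ ≤ r * r * a ^ 2 := by gcongr
      _ = a0 ^ 2 := by rw [← e]; ring
      _ ≤ 1 := pow_le_one₀ p0.le a1
  calc _ = w * K / a0 ^ n * (P * Y * (|l| * a ^ n)) := by rw [← e, mul_pow]; field_simp
    _ ≤ w * K / a0 ^ n * (P * Y * (ε * √√a)) := by gcongr
    _ ≤ _ := mul_le_mul_of_nonneg_left (by nlinarith) (by positivity)

variable {𝒜 : Set CM} [Og 𝒜]

theorem oc_vp {d n : ℕ} [NeZero n] {b : ℝ} {c : V0 𝒜} (h : c ∈ Vp 𝒜 d) (a : ℝ) (W : Fz) :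
    oc (Fi.tr haar) b n (c + a • u0 𝒜) W = Kz.ct (Fi.tr haar) b n (Kz.lt 𝒜 c) W + a := by
  have e : constantCoeff c.1 = 0 := C_eq_zero.1 ((weightedHomogeneousComponent_zero _
    (by simp [Zf.wt])).symm.trans (congrArg Subtype.val h.2))
  rw [map_add, map_smul, Kz.oc_u0]
  simp [oc, e]

namespace Gl

variable (G : Gl) (β : ℕ × ℕ → ℝ) (N : ℕ × ℕ → V0 𝒜 →ₗ[ℝ] V0 𝒜)

/-- up to a constant, the letter of the label `ψ p` is `l p` times the letter of the standard frame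
which has the symbol of `Y` at the level `j` -/
def Mt (s C D j R : ℕ) (M K : ℝ) (Y : Lq) (l : ℕ × ℕ → ℝ) (ψ : ℕ × ℕ → V0 𝒜) : Prop :=
  ∀ᶠ p in fast, ψ p ∈ (fil 𝒜).F D ∧ j < p.2 ∧ ∃ (t : Tl.Bd 𝒜 D → ℝ) (a δ : ℝ),
    N p (ψ p) = l p • (G.wm p.1).lb s C p.2 t + a • u0 𝒜 ∧
    (G.wm p.1).Sf 𝒜 s C D M R δ K (β p) p.2 j 0 ∧
    (G.wm p.1).ys Jt.wt D (s + 1) C ((G.wm p.1).tk 0 p.2) (β p) p.2 j ((G.wm p.1).sek s (β p) p.2)
      ((G.wm p.1).fz s C p.2 t) j = (G.wm p.1).ys Jt.wt D (s + 1) C ((G.wm p.1).tk 0 p.2) (β p) p.2 j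
        ((G.wm p.1).sek s (β p) p.2) Y j

variable {G β N} {b M δ K K' y : ℝ} {s C D J j A n R m u : ℕ} {Y : B4 → Lq} {S : Set (V0 𝒜)}

theorem Ok.gs0 (h : G.Ok) (J j : ℕ) : 0 ∈ G.Gs J j := dg_tk.2 fun k _ e => by
  rw [tk_zero le_rfl tk_top _ e]
  exact (Mx.rc_id (show Odd (G.L k) from ⟨_, rfl⟩) (zero_mem_box _)).symm ▸ zero_mem_box _

variable [Adj 𝒜]

/-- the mixed bound on one lattice -/
theorem Aok.e0_top [NeZero (G.N J)] (a : G.Aok Unit A n 0 0 b J (j + 1) j R)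
    (W : G.Fw 𝒜 s C M R δ K b J j) (s1 : 1 ≤ s) (d1 : 1 ≤ D) (d2 : D ≤ s) (hn : s + 9 ≤ n)
    (hL : 27 ^ n ≤ G.L j) (hJ : ∀ d ≤ s, K / G.ka (s + 1) C J ^ d ≤ G.rt J j)
    (hK : (G.ka (s + 1) C J ^ D)⁻¹ ≤ G.rt J j) (hm : G.N j = m * u) (hu : G.dZ j + 1 < u)
    (uo : Odd u) (hY : ∀ γ, Lt1 R δ K' (Y γ) ∧ LqR (Y γ)) (K0 : 0 < K') (fin : S.Finite)
    (cl : ∀ μ, ∀ e ∈ S, rB 𝒜 (Wd.rf μ) e ∈ S) (y0 : 0 < y)
    (os : ∀ e ∈ S, e ∈ Vp 𝒜 s ∧ G.Os 𝒜 s C s b J j 0 e y) :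
    ∃ (t : B4 → Tl.Bd 𝒜 D → ℝ) (c : B4 → ℝ),
      (∀ γ, G.ys Jt.wt D (s + 1) C (G.tk 0 J) b J j (G.sek s b J) (G.fz s C J (t γ)) j =
        G.ys Jt.wt D (s + 1) C (G.tk 0 J) b J j (G.sek s b J) (Y γ) j) ∧
      Wy.E0 (Fi.tr haar) b (G.N J) (G.rt J j * u) Prod.fst
        {d | (∃ γ r, (∀ U, d.1 U = r * ((Y γ).re U - Kz.lt 𝒜 (G.lb s C J (t γ)) U - c γ)) ∧
          |r| * (G.wZ u j * G.cL A n j * 3 * (G.Pw D C j J * G.Yr D C J /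
            (G.rt J j : ℝ) ^ (D + 1) * K')) ≤ d.2) ∨ ∃ e ∈ S, ∃ r,
          (∀ U, d.1 U = Kz.ct (Fi.tr haar) b (G.N J) (Kz.lt 𝒜 e) U + r) ∧
            |r| + 2 * (G.wZ u j * (G.cL A n j * y)) ≤ d.2} Prod.snd (G.vlZ u j) := by
  have h := a.ok
  have hj : j ≤ J := a.le.trans a.lt.le
  have z := h.gs0 J j
  have F := W.fr 0 z D d1 (by omega)
  have T := F.T
  have y1 := h.Yr1 D C J
  have P1 := h.Pw1 D C j J
  have k0 := h.ka0 (s + 1) C J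
  have k1 := T.ka1 F.J1 F.δ1
  have hg : (20 * 0 + 21) * G.sJ J (j + 1) ≤ 6 * G.sJ J j := by
    have := h.sJ_step (show j < J by have := a.lt; omega)
    omega
  have kK : K' * G.ka (s + 1) C J ^ 1 ≤ K' := by
    rw [pow_one]; exact mul_le_of_le_one_right K0.le k1
  have r0 : (0 : ℝ) < G.rt J j := Nat.cast_pos.2 (pow_pos three_pos _)
  have c0 : 0 < G.cL A n j := by have := h.QA0 A j; have := h.L1 j; unfold cL; positivity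
  obtain ⟨x, hx⟩ : ∃ x, x = G.Pw D C j J / (G.rt J j : ℝ) ^ (D + 1) * (G.Yr D C J * K') := ⟨_, rfl⟩
  have x0 : 0 < x := by rw [hx]; positivity
  have top : ∀ γ, ∃ (t : Tl.Bd 𝒜 D → ℝ) (c : ℝ),
      G.ys Jt.wt D (s + 1) C (G.tk 0 J) b J j (G.sek s b J) (G.fz s C J t) j =
        G.ys Jt.wt D (s + 1) C (G.tk 0 J) b J j (G.sek s b J) (Y γ) j ∧
      G.Zn b J j (G.Lsl Unit A n 0 0 b J (j + 1) j R)
        (fun U => (Y γ).re U - Kz.lt 𝒜 (G.lb s C J t) U) (G.cL A n j * (3 * x)) c := fun γ => by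
    obtain ⟨σ, H⟩ := (hY γ).1
    obtain ⟨t, e, -, e'⟩ := F.cmpT le_rfl hj (mul_pos (one_pos.trans_le y1) K0) (hY γ).1
      (T.co.mono _ _ _ _ (T.tp_P F.J1 H K0 le_rfl d1) (kK.trans (le_mul_of_one_le_left K0.le y1)))
      ((T.tp_q F.J1 H le_rfl d1).trans (mul_le_mul_of_nonneg_left kK (by linarith)))
    have r : t = fun q => ((t q).re : ℂ) := funext fun q =>
      Complex.ext rfl (F.cmpT_real lX_real le_rfl hj (hY γ).1 (hY γ).2 e q)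
    have e1 := (e' j le_rfl hj).2
    rw [r, ys_bot le_rfl, ← hx] at e1
    rw [r] at e
    obtain ⟨c, hc⟩ := a.zn_top W z (zero_mem_box _) d1 (by omega) (by omega) hL (hJ D d2)
      (mul_pos two_pos x0) H (hY γ).2 K0 le_rfl d1 hK _ e1
    simp only [Wy.tz_zero] at hc
    refine ⟨_, c, e, hc.mono (mul_le_mul_of_nonneg_left ?_ c0.le)⟩
    have : G.Pw D C j J / (G.rt J j : ℝ) ^ (D + 1) *
      (G.Yr D C J * (K' * G.ka (s + 1) C J ^ 1)) ≤ x := by rw [hx]; gcongr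
    linarith
  choose t c e1 e2 using top
  have lab : ∀ e ∈ S, ∃ v, G.Zn b J j (G.Lsl Unit A n 0 0 b J (j + 1) j R)
      (Kz.ct (Fi.tr haar) b (G.N J) (Kz.lt 𝒜 e)) (G.cL A n j * y) v := fun e he => by
    obtain ⟨v, hv⟩ := a.zn_os W z (zero_mem_box _) s1 (by omega) hn hL (hJ s le_rfl) y0 (os e he).2
    have := hv.add lw_c (Zn.const (-Wy.er (Fi.tr haar) b (G.N J) (Kz.lt 𝒜 e)))
    simp only [Wy.tz_zero, add_zero, ← sub_eq_add_neg] at this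
    exact ⟨_, this⟩
  choose! v hv using lab
  have R4 : R ≤ 4 * G.rt J j := by have := W.rad; omega
  have lc : ∀ d ≤ s, ∀ e ∈ Vp 𝒜 d, MP_7f377f_mp.Wx.Lc (4 * G.rt J j) (Kz.lt 𝒜 e) := fun d hd e he =>
    (W.lc e ((fil 𝒜).mono (by omega) he.1)).mono R4
  have lc' : ∀ e ∈ S, MP_7f377f_mp.Wx.Lc (4 * G.rt J j) (Kz.ct (Fi.tr haar) b (G.N J) (Kz.lt 𝒜 e)) := fun e he =>
    ⟨Kz.ct_cont e, fun U V k => congrArg (· - _) ((lc s le_rfl e (os e he).1).2 k)⟩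
  obtain ⟨B, hB⟩ : ∃ B, ∀ e ∈ S, ∀ U, |Kz.ct (Fi.tr haar) b (G.N J) (Kz.lt 𝒜 e) U| ≤ B := by
    choose B hB using fun e : V0 𝒜 => isCompact_univ.exists_bound_of_continuousOn
      (Kz.ct_cont (h := Fi.tr haar) (b := b) (n := G.N J) e).continuousOn
    obtain ⟨B', h'⟩ := (fin.image B).bddAbove
    exact ⟨B', fun e he U => (hB e U trivial).trans (h' ⟨e, he, rfl⟩)⟩
  have hv' := (h.e1_fin a.t hj hm hu uo (az_of (v := fun _ => G.cL A n j * y) a hg hv)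
    (r := fun μ => rB 𝒜 (Wd.rf μ)) ⟨fun e he => (lc' e he).1, fun e he => (lc' e he).2,
      fun μ e _ U => by rw [Kz.ct_rB, Kz.pb_rf], hB⟩ fin (fun μ e he => ⟨cl μ e he, rfl⟩)
    (fun _ _ => mul_pos c0 y0) fun e _ => by
      simp only [Kz.ct]
      exact (integral_sub (Weak.cint _ ((Kz.lt_cont 𝒜 e).comp Wy.cont_lf))
        (integrable_const _)).trans (by simp [Wy.er])).2
  have q : 1 + exp (G.Q j) ≤ G.wZ u j := le_mul_of_one_le_left (by positivity)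
    (le_add_of_nonneg_right (Wy.kC_pos _).le)
  have lc'' : ∀ d : B4 ⊕ V0 𝒜, d ∈ {d | ∀ e, d = .inr e → e ∈ S} → MP_7f377f_mp.Wx.Lc (4 * G.rt J j) (Sum.elim
      (fun γ U => (Y γ).re U - Kz.lt 𝒜 (G.lb s C J (t γ)) U)
      (fun e => Kz.ct (Fi.tr haar) b (G.N J) (Kz.lt 𝒜 e)) d) := by
    rintro (γ | e) hd
    · obtain ⟨σ, H⟩ := (hY γ).1
      exact ⟨(e2 γ).1, fun U V k => congrArg₂ (· - ·) (congrArg Complex.re (H.lt.loc U V fun l hl =>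
        k l fun i => (abs_le.2 (Op.mem_box.1 (Op.mem_lbox.1 hl) i)).trans (Int.ofNat_le.2 R4)))
          ((lc D d2 _ (lb_mem _)).2 k)⟩
    · exact lc' e (hd e rfl)
  refine ⟨t, c, e1, (h.e0_az a.t hj hm hu (az_of (κ' := Sum.elim c v)
    (v := Sum.elim (fun _ => G.cL A n j * (3 * x)) fun _ => G.cL A n j * y) a hg ?_) lc'').comb
      (fun d hd => (lc'' d hd).1.sub continuous_const) ?_ ?_⟩
  · rintro (γ | e) hd
    exacts [e2 γ, hv e (hd e rfl)]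
  · rintro (γ | e) - <;> simp only [Sum.elim_inl, Sum.elim_inr] <;> positivity
  · rintro d (⟨γ, r, a1, a2⟩ | ⟨e, he, r, a1, a2⟩)
    · refine ⟨{.inl γ}, fun _ => r, 0, by simp, le_trans ?_ a2, by simpa using a1⟩
      simp only [abs_zero, zero_add, sum_singleton, Sum.elim_inl]
      refine mul_le_mul_of_nonneg_left ((mul_le_mul_of_nonneg_right q (by positivity)).trans_eq ?_)
        (abs_nonneg r)
      rw [hx]
      ring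
    · refine ⟨{.inr e}, 1, r + v e, fun _ k _ k' =>
        Sum.inr.inj ((mem_singleton.1 k).symm.trans k') ▸ he, le_trans ?_ a2, fun U => by
        simp [a1, add_comm]⟩
      simp only [sum_singleton, Sum.elim_inr, Pi.one_apply, abs_one, one_mul]
      linarith [abs_add_le r (v e), hv' e he, mul_le_mul_of_nonneg_right q (mul_pos c0 y0).le]

namespace Nz

variable {U : Ultrafilter (ℕ × ℕ)} {A : ℝ → V0 𝒜 ≃ₗ[ℝ] V0 𝒜} (o : G.Oks) (q : G.HP Sd.StA)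
  (tu : G.Tus β) (H : G.Nz 𝒜 β U N A) (d1 : 1 ≤ D) {x : ℕ × ℕ → Fz → ℝ} {l κ ε : ℕ × ℕ → ℝ}
  {P : (ℕ × ℕ → V0 𝒜) → Prop} (he : ∀ p, |l p| * G.aa p ^ (D + 1) ≤ ε p * √√(G.aa p))
include o q tu H d1 he

theorem rtY (δ0 : 0 < δ) (K0 : 0 < K') (hY : ∀ γ, Lt1 R δ K' (Y γ) ∧ LqR (Y γ) ∧
      ∀ W, (Y γ).re W = (Y 1).re (Wd.pb Inv.inv γ W)) (hx : ∀ p W, x p W = l p * (Y 1).re W - κ p)
    (hP : ∀ s ≥ 2, ∀ C j R M K ψ, G.Mt β N s C D j R M K (Y 1) l ψ → P ψ) :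
    MP_7f377f_mp.Wx.Rt (Zg.fil 𝒜) (Fi.tr haar) G.nn G.aa β (G.Oz 𝒜 β N) x D ε P := by
  intro A₀ fin
  have h := (o 0).1
  obtain ⟨s, s2, sD, sA⟩ : ∃ s, 2 ≤ s ∧ D ≤ s ∧ ∀ d ∈ A₀, d ∈ (Zg.fil 𝒜).F s := by
    choose f hf using (Zg.fil 𝒜).ex
    obtain ⟨B, hB⟩ := (fin.image f).bddAbove
    exact ⟨B + 2 + D, by omega, by omega, fun d hd =>
      (Zg.fil 𝒜).mono ((hB ⟨d, hd, rfl⟩).trans (by omega)) (hf d)⟩
  obtain ⟨C, ⟨⟨M, R', hR, fw⟩, own⟩, C0⟩ :=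
    (((o.fw (𝒜 := 𝒜) q tu s2 R).and (H.own s s2)).and (eventually_ne_atTop 0)).exists
  obtain ⟨δ', hδ, K, fw⟩ := fw δ δ0
  obtain ⟨k1, p1⟩ := h.Pw_ev D C 8 C0
  obtain ⟨k2, p2⟩ := h.Pw_ev s C 1 C0
  obtain ⟨k, ⟨fk, K₀, ow⟩, hk⟩ := ((fw.and own).and (eventually_ge_atTop k2)).exists
  obtain ⟨S, hS⟩ : ∃ S, S = (fun z : B4 × V0 𝒜 => rB 𝒜 z.1 (z.2 - constantCoeff z.2.1 • u0 𝒜)) ''
    Set.univ ×ˢ A₀ := ⟨_, rfl⟩
  have Sf : S.Finite := hS ▸ (Set.finite_univ.prod fin).image _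
  have Sv : ∀ c ∈ S, c ∈ Vp 𝒜 s := by
    rw [hS]
    rintro _ ⟨z, hz, rfl⟩
    exact Kz.rB_vp _ _ (Kz.vp_sub (sA _ hz.2))
  have Sc : ∀ γ, ∀ c ∈ S, rB 𝒜 γ c ∈ S := by
    rw [hS]
    rintro γ _ ⟨z, hz, rfl⟩
    exact ⟨(γ * z.1, z.2), ⟨trivial, hz.2⟩, (Kz.rB_rB ..).symm⟩
  obtain ⟨B, B1, hB, hB'⟩ : ∃ B : ℝ, 1 ≤ B ∧ (∀ c ∈ S, K₀ * ‖c‖ ≤ B) ∧
      ∀ d ∈ A₀, |constantCoeff d.1| ≤ B := by
    obtain ⟨B, hB⟩ := (Sf.image fun c => K₀ * ‖c‖).bddAbove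
    obtain ⟨B', hB'⟩ := (fin.image fun d => |constantCoeff d.1|).bddAbove
    exact ⟨max 1 (max B B'), le_max_left .., fun c hc => (hB ⟨c, hc, rfl⟩).trans (by simp),
      fun c hc => (hB' ⟨c, hc, rfl⟩).trans (by simp)⟩
  obtain ⟨a, ha⟩ := pow_unbounded_of_one_lt (3 * B) (show (1 : ℝ) < 3 by norm_num)
  obtain ⟨E, hE⟩ := h.ex_cel (((fw.and (o.aok (κ := Unit) q tu (2 * (s + 10)) (s + 9) R')).and
    (eventually_ge_atTop k)).and (eventually_ge_atTop k1))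
  obtain ⟨z, hz⟩ : ∃ z, z = (G.K + 2 * (s + 10)) * 345 + (3 * (s + 9) + 2) := ⟨_, rfl⟩
  refine ⟨E, (E + 2) * (z + s + 2) + a, E.cast_nonneg, fun e => ?_⟩
  obtain ⟨j, ⟨⟨⟨fj, hL, ak⟩, kj⟩, j1⟩, hu, e1, e2, e3⟩ := hE e
  choose γ g1 g2 using ex_tw
  have L1 : (1 : ℝ) ≤ G.L j := le_trans (by norm_num) (h.L1 j)
  replace hu : G.dZ j + 1 < G.uZ e j := hu
  replace e1 : G.e j ≤ E * (e + 1) := e1
  have d4 : G.L j ≤ G.dZ j := (Nat.le_self_pow (G.K0).succ_ne_zero _).trans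
    (Nat.le_mul_of_pos_left _ (by norm_num))
  have e4 : e ≤ G.e j + 2 := by
    by_contra a
    have : 1000 ≤ G.L j := h.L_big j
    rw [uZ, Nat.sub_eq_zero_of_le (not_le.1 a).le] at hu
    omega
  obtain ⟨y, hy⟩ : ∃ y, y = G.Pw s C k j * (G.rt j k : ℝ) ^ s * B := ⟨_, rfl⟩
  have r1 : ∀ i i', (0 : ℝ) < G.rt i i' := fun _ _ => Nat.cast_pos.2 (pow_pos three_pos _)
  have P1 := fun d i i' => one_pos.trans_le (h.Pw1 d C i i' : 1 ≤ G.Pw d C i i')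
  have y0 : 0 < y := by rw [hy]; exact mul_pos (mul_pos (P1 ..) (pow_pos (r1 ..) _)) (by linarith)
  have w0 : 0 < G.wZ (G.uZ e j) j := wZ_pos _ _
  have c0 : G.cL (2 * (s + 10)) (s + 9) j = G.L j ^ z := by rw [cL, QA, ← pow_mul, ← pow_add, hz]
  have num : B + 2 * (G.wZ (G.uZ e j) j * (G.cL (2 * (s + 10)) (s + 9) j * y)) ≤
      3 ^ (((E + 2) * (z + s + 2) + a) * (e + 1)) := by
    obtain ⟨T, hT⟩ : ∃ T : ℝ, T = 3 ^ ((E + 2) * (e + 1)) := ⟨_, rfl⟩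
    have t : ∀ i ≤ E * (e + 1) + 2, (3 : ℝ) ^ i ≤ T := fun i hi =>
      hT ▸ pow_le_pow_right₀ (by norm_num) (by nlinarith)
    have T1 : 1 ≤ T := by simpa using t 0 (by omega)
    have t1 : G.wZ (G.uZ e j) j ≤ T := le_trans e3 (t _ (by omega))
    have t2 : (G.L j : ℝ) ≤ T := le_trans (by
      exact_mod_cast d4.trans (Nat.le_of_succ_le hu.le)) (t (G.e j + 2 - e) (by omega))
    have t3 : (G.rt j k : ℝ) ≤ T := le_trans (by rw [Gl.rt]; push_cast; rfl) (t (G.e j - G.e k) (by omega))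
    have t4 : G.Pw s C k j ≤ T := ((pow_one _).ge.trans (p2 k hk j kj)).trans t3
    have t5 : 3 * B ≤ 3 ^ (a * (e + 1)) := ha.le.trans (pow_le_pow_right₀ (by norm_num) (by nlinarith))
    have t6 : G.wZ (G.uZ e j) j * (G.cL (2 * (s + 10)) (s + 9) j * y) ≤ T ^ (z + s + 2) * B :=
      calc _ ≤ T * (T ^ z * (T * T ^ s * B)) := by
            have := (r1 j k).le
            have := (P1 s k j).le
            rw [c0, hy]; gcongr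
        _ = _ := by ring
    have t7 : 1 ≤ T ^ (z + s + 2) := one_le_pow₀ T1
    rw [add_mul, pow_add, mul_right_comm, pow_mul, ← hT]
    nlinarith
  refine (ev_choice (F := fast) (Q := fun _ (m : (Fin 4 → Bool) → V0 𝒜) =>
    ∀ g, m g ∈ (Zg.fil 𝒜).F D) (Φ := fun p m => ((m fun _ => true) ∈ (Zg.fil 𝒜).F D ∧ j < p.2 ∧
    ∃ (t : Tl.Bd 𝒜 D → ℝ) (a δ : ℝ),
    N p (m fun _ => true) = l p • (G.wm p.1).lb s C p.2 t + a • u0 𝒜 ∧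
    (G.wm p.1).Sf 𝒜 s C D M R' δ K (β p) p.2 j 0 ∧
    (G.wm p.1).ys Jt.wt D (s + 1) C ((G.wm p.1).tk 0 p.2) (β p) p.2 j ((G.wm p.1).sek s (β p) p.2)
      ((G.wm p.1).fz s C p.2 t) j = (G.wm p.1).ys Jt.wt D (s + 1) C ((G.wm p.1).tk 0 p.2) (β p) p.2 j
        ((G.wm p.1).sek s (β p) p.2) (Y 1) j) ∧ ∃ (lam : ℕ) (L : Set ((Fz → ℝ) × ℝ)),
      G.aa p * lam = 9 / 3 ^ e ∧
      Wy.E0 (Fi.tr haar) (β p) (G.nn p) lam Prod.fst L Prod.snd (E * (e + 1)) ∧ ∀ g,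
      (MP_7f377f_mp.Wx.mr g 0 (x p - G.Oz 𝒜 β N p (m g)), G.wZ (G.uZ e j) j * G.cL (2 * (s + 10)) (s + 9) j * 3 * K' /
        G.aa (0, j) ^ (D + 1) * ε p) ∈ L ∧ ∀ d ∈ A₀,
          (MP_7f377f_mp.Wx.mr g 0 (G.Oz 𝒜 β N p d), 3 ^ (((E + 2) * (z + s + 2) + a) * (e + 1))) ∈ L)
    (fun _ => ⟨0, fun _ => zero_mem _⟩) ?_).elim fun m ⟨m1, m2⟩ =>
    ⟨_, fun g p => m p g, by have := G.aa_pos (0, j); rw [c0]; positivity, fun g p => m1 p g,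
      hP s s2 C j R' M K _ (m2.mono fun _ a => a.1), m2.mono fun _ a => a.2⟩
  have ev : ∀ {P : ℕ → Prop}, (∀ᶠ J in atTop, P J) → ∀ᶠ p in fast, P p.2 := fun a =>
    L6.ev_fast.2 (a.mono fun _ b => .of_forall fun _ => b)
  have nn : ∀ᶠ p in fast, (G.wm p.1).N j = (2 * p.1 + 1) / 3 ^ 2 * 3 ^ e * G.uZ e j :=
    L6.ev_fast.2 (.of_forall fun J => ((eventually_ge_atTop 2).filter_mono L6.hyp_le).mono
      fun s s2 => by
        change (2 * (3 ^ s / 2) + 1) * 3 ^ G.e j = _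
        rw [Nat.two_mul_div_two_add_one_of_odd (odd3 s), Nat.pow_div s2 three_pos, uZ, ← pow_add,
          ← pow_add, ← pow_add]
        congr 1
        omega)
  filter_upwards [ev fj, ev fk, ev (ak (j + 1) j.le_succ), ow, H.bij D, H.bij s, nn,
    ev ((eventually_all_finset (range (s + 1))).2 fun d _ => h.ka_far (s + 1) C d j K),
    ev (h.ka_far (s + 1) C D j 1), ev (h.yr_ev D C 8 1 C0), ev (h.ev_rt j 1 1)]
    with ⟨i, J⟩ fj fk ak ow bD bs nn k1 k2 k3 k4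
  dsimp only at *
  have A := ak i j 0 0 le_rfl j.le_succ (by simp) le_rfl
  have jJ : j < J := j.lt_succ_self.trans A.lt
  have z0 := A.ok.gs0 J
  obtain ⟨t, c, a1, a2⟩ := A.e0_top (Y := Y) (K' := K') (S := N (i, J) '' S) (y := y) (fj i) (by omega) d1 sD
    le_rfl hL (fun d hd => k1 d (mem_range.2 (by omega))) ((one_div _).ge.trans k2) nn hu (odd3 _)
    (fun γ => ⟨(hY γ).1.mono hR hδ le_rfl, (hY γ).2.1⟩) K0 (Sf.image _) (by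
      rintro μ _ ⟨c, hc, rfl⟩
      exact ⟨_, Sc _ c hc, bs.2.2 _ c (Sv c hc).1⟩) y0 (by
      rintro _ ⟨c, hc, rfl⟩
      exact ⟨bs.1.mapsTo (Sv c hc), hy ▸ (fk i).os_up (z0 k) (by omega) (by omega) le_rfl kj jJ.le
        ((ow 0 (z0 k) s le_rfl c (Sv c hc)).mono (hB c hc))⟩)
  have ex : ∀ g, ∃ m ∈ (Zg.fil 𝒜).F D, N (i, J) m = rB 𝒜 (γ g)⁻¹
      (l (i, J) • (G.wm i).lb s C J (t (γ g))) + (Wy.er (Fi.tr haar) (β (i, J)) (G.nn (i, J))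
        (Kz.lt 𝒜 (l (i, J) • (G.wm i).lb s C J (t (γ g)))) + l (i, J) * c (γ g) - κ (i, J)) • u0 𝒜 :=
    fun g => by
      obtain ⟨m, h1, h2⟩ := bD.1.surjOn (Kz.rB_vp (γ g)⁻¹ D
        ((Vp 𝒜 D).smul_mem (l (i, J)) (lb_mem (G := G.wm i) (s := s) (C := C) (J := J) (t (γ g)))))
      exact ⟨m + _ • u0 𝒜, add_mem h1.1 (Submodule.smul_mem _ _ (Kz.u0_F D)), by
        rw [map_add, map_smul, h2, bD.2.1]⟩
  choose m m1 m2 using ex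
  have c1 : 0 ≤ G.wZ (G.uZ e j) j * G.cL (2 * (s + 10)) (s + 9) j * 3 := by rw [c0]; positivity
  have y1 := zero_le_one.trans (h.Yr1 D C J)
  refine ⟨m, m1, ⟨m1 _, jJ, t 1, _, δ', by rw [m2, g2 _ rfl, inv_one, map_one]; rfl,
    (fj i).fr 0 (z0 j) D d1 (by omega), a1 1⟩, G.rt J j * G.uZ e j, _, ?_,
      a2.mono subset_rfl ?_ e2, fun g => ⟨.inl ⟨γ g, l (i, J), fun W => ?_, ?_⟩, fun d hd => .inr
        ⟨_, ⟨rB 𝒜 (γ g) (d - constantCoeff d.1 • u0 𝒜), hS ▸ ⟨(γ g, d), ⟨trivial, hd⟩, rfl⟩, rfl⟩,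
          constantCoeff d.1, fun W => ?_, (add_le_add_left (hB' d hd) _).trans num⟩⟩⟩
  · have e2 : G.e j ≤ G.e J := h.sch.mono.monotone jJ.le
    change ((3 : ℝ) ^ G.e J)⁻¹ * _ = _
    rw [Gl.rt, uZ, ← pow_add, inv_mul_eq_div, div_eq_div_iff (by positivity) (by positivity)]
    push_cast
    rw [← pow_add, show (9 : ℝ) = 3 ^ 2 by norm_num, ← pow_add]
    congr 1
    omega
  · rintro d (⟨γ, r, -, b⟩ | ⟨e, -, r, -, b⟩) <;> refine ⟨le_trans ?_ b, le_rfl⟩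
    · exact mul_nonneg (abs_nonneg _) (mul_nonneg c1 (mul_nonneg (div_nonneg (mul_nonneg
        (P1 D j J).le y1) (pow_nonneg (r1 J j).le _)) K0.le))
    · exact add_nonneg (abs_nonneg _) (mul_nonneg two_pos.le (mul_nonneg w0.le
        (mul_nonneg (c0.ge.trans' (by positivity)) y0.le)))
  · simp only [MP_7f377f_mp.Wx.mr, Wy.tz_zero, g1, Pi.sub_apply, hx, Oz_ap, ← (hY _).2.2]
    rw [← Kz.oc_rB, m2, map_add, Kz.rB_rB, mul_inv_cancel, map_one, map_smul (rB 𝒜 _), Kz.rB_u0,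
      Module.End.one_apply, oc_vp ((Vp 𝒜 D).smul_mem _ (lb_mem _)), Kz.ct, map_smul]
    simp only [Pi.smul_apply, smul_eq_mul]
    ring
  · exact num_rt (P1 ..).le y1 (p1 j j1 J jJ.le) ((one_mul _).ge.trans (k3.trans (le_trans
      ((h.LQ J).trans ((le_self_pow₀ (h.Q1 J) (by norm_num)).trans (h.Qb J)))
        (((one_mul _).trans (pow_one _)).ge.trans k4)))) (aa_rt o jJ.le) (inv_le_one_of_one_le₀
          (one_le_pow₀ (by norm_num))) (G.aa_pos _) (G.aa_pos _) c1 K0.le (he _)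
  · simp only [MP_7f377f_mp.Wx.mr, Wy.tz_zero, g1, Oz_ap]
    have v := Kz.vp_sub (sA d hd)
    rw [← Kz.oc_rB, ← oc_vp (bs.1.mapsTo (Kz.rB_vp _ _ v)), bs.2.2 _ _ v.1, map_sub, map_smul,
      bs.2.1, map_sub, map_smul, Kz.rB_u0, sub_add_cancel]
    rfl

/-- bilinear letters are labels up to a small letter -/
theorem rt {X : Wd.Let} (hX : Wd.Re X) (hx : ∀ p W, x p W = l p * (Wd.evG X W).re - κ p) :
    MP_7f377f_mp.Wx.Rt (Zg.fil 𝒜) (Fi.tr haar) G.nn G.aa β (G.Oz 𝒜 β N) x D ε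
      fun ψ => Dp X → (∀ p, 0 ≤ l p) → D = 4 → Pq N ψ := by
  obtain ⟨R, hR⟩ := Wd.exists_rad X
  choose δ δ0 K T using fun γ => top_let (hR.act γ)
  obtain ⟨δ', d0, d2, d3⟩ : ∃ δ' > (0 : ℝ), δ' ≤ 1 ∧ ∀ γ, δ' ≤ δ γ :=
    ⟨min 1 (univ.inf' univ_nonempty δ), lt_min one_pos ((lt_inf'_iff _).2 fun γ _ => δ0 γ),
      min_le_left .., fun γ => (min_le_right ..).trans (inf'_le _ (mem_univ γ))⟩
  obtain ⟨K', hK⟩ := (Set.finite_range K).bddAbove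
  have a1 := Wd.act_one X
  refine rtY o q tu H d1 he (Y := fun γ => (Wd.evG (Wd.act γ X), Wd.lx (Wd.act γ X))) (R := R) d0
    (lt_max_iff.2 (.inl one_pos) : 0 < max 1 K') (fun γ => ?_) (fun p W => by rw [a1]; exact hx p W) ?_
  · have r : Wd.Re (Wd.act γ X) := fun b => by
      simp only [Wd.act, Finsupp.lmapDomain_apply, Finsupp.mapDomain, Finsupp.sum,
        Finsupp.finset_sum_apply, Complex.im_sum, Finsupp.single_apply]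
      exact sum_eq_zero fun c _ => by split_ifs; exacts [hX c, rfl]
    exact ⟨lt1_of (((T γ).mono le_rfl (d3 γ) ((hK ⟨γ, rfl⟩).trans (le_max_right ..)))) one_le_two d2,
      ⟨Wd.evG_real r, fun B => Wd.lx_real r⟩, fun W => by
        rw [a1]; exact congrArg Complex.re (Wd.evG_act γ X W)⟩
  rintro s s2 C j R M K ψ a hX l0 rfl
  refine L6.ev_fast.2 (((o.pn (𝒜 := 𝒜) s2 hX C R M K).and (L6.ev_fast.1 a)).mono fun J ⟨b, a⟩ =>
    a.mono fun i ⟨a0, a2, t, a, δ, a3, a4, a5⟩ => ⟨a0, a3 ▸ ?_⟩)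
  rw [a1] at a5
  exact (b _ _ δ j 0 j t a4 le_rfl a2 a5).lin (l0 _) a

end Nz

end Gl

end Pool.Agent.Lib.MP_7f377f_mp.RG.Q4.En
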