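import Pool.Agent.Lib.MP_7f377f_mp.G.KzY1
import Pool.Agent.Lib.MP_7f377f_mp.G.StM
import Pool.Agent.Lib.MP_7f377f_mp.G.KsB

/-! The action density as a letter. -/

noncomputable section

namespace Pool.Agent.Lib.MP_7f377f_mp.RG.Wd
variable [Pool.Agent.Lib.MP_7f377f_mp.GD]

/-- the action density -/
def xz : Let := ∑ i : Fin 4, ∑ j : Fin 4, if i < j then pl (i, true) (j, true) else 0

/-- its part with the direction `0` -/
def xB : Let := ∑ j : Fin 3, pl (0, true) (j.succ, true)

theorem re_xz : Re xz := Rl.sum_mem fun _ _ => Rl.sum_mem fun _ _ => by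
  split_ifs
  exacts [rl_lt _ _ _ _, Rl.zero_mem]

theorem re_xB : Re xB := Rl.sum_mem fun _ _ => rl_lt _ _ _ _

theorem pl_re (i j : Fin 4) (U : Conf) : (evG (pl (i, true) (j, true)) U).re = 2 - 2 * GD.re1
    (U (0, i) * U (Pi.single i 1, j) * (U (Pi.single j 1, i))⁻¹ * (U (0, j))⁻¹) := by
  rw [evG_pl, Complex.ofReal_re, Q4.fq, S3.norm_sub_one_sq]
  simp only [cn, hol, un, if_true, add_zero, neg_zero, zero_add]
  rfl

theorem xz_re (U : Conf) : (evG xz U).re = Zg.dz U := by
  simp only [xz, evG_sum, Complex.re_sum, Zg.dz]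
  refine Finset.sum_congr rfl fun i _ => Finset.sum_congr rfl fun j _ => ?_
  split_ifs
  exacts [pl_re i j U, by simp [evG]]

theorem xB_re (U : Conf) : (evG xB U).re = Zg.dB U := by
  simp only [xB, evG_sum, Complex.re_sum, pl_re]
  rfl

theorem dp_xz : Q4.En.Dp xz := ⟨1, one_pos, fun a μ ν => by
  have e : (sig xz a a).re = ∑ i : Fin 4, ∑ j : Fin 4, if i < j then dd a 0 i j ^ 2 else 0 := by
    simp only [xz, map_sum, LinearMap.sum_apply, Complex.re_sum]
    refine Finset.sum_congr rfl fun i _ => Finset.sum_congr rfl fun j _ => ?_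
    split_ifs
    · rw [pl, sig_lt, fx_pq, Complex.ofReal_re]
      ring
    · simp
  have u i j (h : i < j) : dd a 0 i j ^ 2 ≤ (sig xz a a).re := e ▸ le_trans
    ((if_pos h).ge.trans (Finset.single_le_sum (f := fun j => if i < j then dd a 0 i j ^ 2 else 0)
      (fun _ _ => by positivity) (Finset.mem_univ j))) (Finset.single_le_sum
        (f := fun i => ∑ j, if i < j then dd a 0 i j ^ 2 else 0) (fun _ _ => by positivity)
          (Finset.mem_univ i))
  rw [one_mul]
  rcases lt_trichotomy μ ν with h | rfl | h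
  · exact u _ _ h
  · exact le_trans (by simp [dd]) ((sq_nonneg _).trans (u 0 1 (by simp)))
  · rw [dd_anti, neg_sq]
    exact u _ _ h⟩

end Pool.Agent.Lib.MP_7f377f_mp.RG.Wd
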