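import Pool.Agent.Lib.MP_7f377f_mp.G.KzT
import Pool.Agent.Lib.MP_7f377f_mp.G.KzU
import Pool.Agent.Lib.MP_7f377f_mp.G.KyE
import Pool.Agent.Lib.MP_7f377f_mp.G.KzN
import Pool.Agent.Lib.MP_7f377f_mp.G.KzL3
import Pool.Agent.Lib.MP_7f377f_mp.G.ZgR
import Pool.Agent.Lib.MP_7f377f_mp.G.JuK2
import Pool.Agent.Lib.MP_7f377f_mp.G.KzY4
import Pool.Agent.Lib.MP_7f377f_mp.G.KzY3
import Pool.Agent.Lib.MP_7f377f_mp.G.KzK
import Pool.Agent.Lib.MP_7f377f_mp.G.KsJ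
import Pool.Agent.Lib.MP_7f377f_mp.G.KzN2

/-! The lattice fields of all labels. -/

noncomputable section

set_option linter.unusedSectionVars false
variable [Pool.Agent.Lib.MP_7f377f_mp.GD]

namespace Pool.Agent.Lib.MP_7f377f_mp.RG.Q4.En

open MeasureTheory Filter Topology Set YM7 L6 Wy Pur
open Zg (V0 AdG r0 fil u0 l0 dl)

variable {G : Gl} {β : ℕ × ℕ → ℝ} {U : Ultrafilter (ℕ × ℕ)}
  {S₀ : ∀ {k : ℕ}, (Fin k → R4 → ℝ) → ℝ} {S : Pol →ₗ[ℂ] ℂ}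
  {N : ℕ × ℕ → V0 AdG →ₗ[ℝ] V0 AdG} {A : ℝ → V0 AdG ≃ₗ[ℝ] V0 AdG}

namespace Rn

variable (R : Rn G β U S₀ S) (q : G.HP Sd.StA)
include R q

theorem charts : G.Charts AdG β := (R.ok.chartsP AdG q R.tu).charts2 R q

variable (H : G.Nz AdG β U N A)
include H

theorem el : EL (Fi.tr haar) G.nn G.aa β (fun p c => G.Oz AdG β N p c) fun μ => r0 AdG (rfL μ) :=
  H.el R.ok q R.tu R.lim.le

theorem sd : MP_7f377f_mp.Wx.Sd (fil AdG) (Fi.tr haar) G.nn G.aa β U (G.Oz AdG β N)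
    (fun μ => r0 AdG (rfL μ)) A (Zg.fp0 AdG) :=
  have o := R.ok
  have u := R.lim.le
  ⟨u, Zg.fm_of R, .of_forall fun p => (o p.1).1.N_odd _, Zg.inv4 _, H.pl o u, R.el q H,
    fun t => (H.up t).2, ⟨_, u (H.un o u)⟩, Zg.fp0_lin _, Zg.fp0_nd _ (by simp), H.af o u⟩

theorem rn : MP_7f377f_mp.Wx.Rn (fil AdG) (Fi.tr haar) G.nn G.aa β U (G.Oz AdG β N) A Zg.Bp :=
  H.rn R.ok R.tu q R.lim.le (Zg.fm_of R)

open Classical in
theorem ph : ∃ φ : V0 AdG, (∃ (ψ : ℕ × ℕ → V0 AdG) (Γ : Set (ℕ × ℕ)), Γ ∈ U ∧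
    (∀ p, ψ p ∈ (fil AdG).F 4) ∧ Tendsto ψ U (𝓝 φ) ∧ (∃ B, ∀ᶠ p in fast, ‖ψ p‖ ≤ B) ∧
    EN (Fi.tr haar) G.nn G.aa β (Oe (fun p c => G.Oz AdG β N p c) fun p =>
      (if p ∈ Γ then dl (Fi.tr haar) G.nn G.aa β p else G.Oz AdG β N p φ) - G.Oz AdG β N p (ψ p))
      (θe fun μ => r0 AdG (rfL μ)) (range Sum.inr)) ∧
    (∀ μ, r0 AdG (rfL μ) φ = φ) ∧ (∀ σ, r0 AdG (Ro.prm σ) φ = φ) ∧
    ∀ᶠ t in 𝓝[>] (0 : ℝ), ∀ x y : ℝ, (A t).symm φ = x • u0 AdG + y • l0 AdG → 0 ≤ y := by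
  have : (Fi.tr haar).IsHaarMeasure := (inferInstance : haar.IsHaarMeasure)
  have o := R.ok
  have u := R.lim.le
  have a0 p : 0 < G.aa p := by unfold Gl.aa; positivity
  obtain ⟨φ, ⟨ψ, p1, p2⟩, a, b, c⟩ := Zg.ph_of (R.sd q H) (fun σ c => u (H.pm o u σ c))
    ((R.rn q H).ci (R.sd q H)) (H.c1 o u) (H.c2 o u) R.lim (H.rt o q R.tu (D := 4) (by simp)
      (l := fun p => (G.aa p ^ 4)⁻¹) (fun p => by
        have := a0 p
        rw [abs_of_pos (by positivity), pow_succ _ 4, inv_mul_cancel_left₀ (by positivity)]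
        exact (Real.mul_self_sqrt this.le).ge.trans (mul_le_mul_of_nonneg_left
          (Real.le_sqrt_of_sq_le (pow_le_of_le_one (Real.sqrt_nonneg _) (Real.sqrt_le_one.2
            (inv_le_one_of_one_le₀ (one_le_pow₀ (by norm_num)))) two_ne_zero)) (Real.sqrt_nonneg _)))
      Wd.re_xz fun p W => by rw [dl, Wd.xz_re, sub_div, div_eq_inv_mul])
    fun A h => (H.rt o q R.tu (D := 3) (by simp) (l := fun p => √(G.aa p) / G.aa p ^ 4) (fun p => by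
      have := a0 p
      rw [abs_of_pos (by positivity), div_mul_cancel₀ _ (by positivity),
        Real.mul_self_sqrt (Real.sqrt_nonneg _)]) Wd.re_xB (κ := 0)
          (fun p W => by simp [Wd.xB_re]; ring) A h).imp fun _ => .imp fun _ =>
            .imp_right fun e k => (e k).imp fun _ => .imp fun _ e => ⟨e.1, e.2.1, trivial, e.2.2.2⟩
  exact ⟨φ, a, b, c, H.sgn u (p1 Wd.dp_xz (fun p => by have := a0 p; positivity) rfl) p2⟩

end Rn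

theorem rg_of (R : Rn G β U S₀ S) (q : G.HP Sd.StA) :
    ∃ O A φ, Zg.Ri AdG (Fi.tr haar) G.nn G.aa β U O A φ := by
  have o := R.ok
  have u := R.lim.le
  obtain ⟨N, A, H⟩ := Gl.nz_of o u (R.charts q)
  obtain ⟨φ, a, b, c, d⟩ := R.ph q H
  exact ⟨_, A, φ, H.obs o u, (H.pl o u).2, fun σ c => u (H.pm o u σ c),
    u ((H.un o u).mono fun _ e W => congrFun e.1 W), a, b, c, H.up, H.c1 o u, H.c2 o u, d,
    (R.rn q H).ci (R.sd q H)⟩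

end Pool.Agent.Lib.MP_7f377f_mp.RG.Q4.En
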