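import Pool.Agent.Lib.MP_7f377f_mp.Lb3
import Pool.Agent.Lib.MP_7f377f_mp.G.TyA

/-! The types of the labels under the hypercubic group. -/

noncomputable section

namespace Pool.Agent.Lib.MP_7f377f_mp.Lb

set_option linter.unusedSectionVars false

open Finset Matrix YG
open RG.Q4.En.Ty (Gn Ty sb mv sn nm os mvs gd Det T1 T1' T3 T6 T2 T6' T2')
open scoped Kronecker

/-- the types -/
inductive Tp
  | s | q | t3 | t6 | w2 | w6 | w2p
  deriving DecidableEq, Fintype

/-- the class of a type -/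
def Tp.cl : Tp → Cl
  | .s => .s | .q => .q | .t3 => .t | .t6 => .t | .w2 => .w | .w6 => .w | .w2p => .w

/-- the number of common indices -/
def Tp.k : Tp → ℕ
  | .s => 2 | .q => 0 | .t3 => 2 | .t6 => 1 | .w2 => 2 | .w6 => 1 | .w2p => 0

/-- the signed symmetries of the reference label -/
def Tp.T : Tp → Ty
  | .s => T1 | .q => T1' | .t3 => T3 | .t6 => T6 | .w2 => T2 | .w6 => T6' | .w2p => T2'

/-- the determining entry -/
def Tp.e : Tp → Pl × Pl
  | .s => ((0, 1), (0, 1)) | .q => ((0, 1), (2, 3)) | .t3 => ((0, 2), (0, 2))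
  | .t6 => ((0, 2), (1, 2)) | .w2 => ((0, 2), (0, 2)) | .w6 => ((0, 2), (1, 2))
  | .w2p => ((0, 2), (1, 3))

theorem Tp.det (τ : Tp) : Det τ.T [τ.e] := by
  revert τ
  decide +kernel

/-- the number of common indices of two planes -/
def cn (x y : Pl) : ℕ :=
  (if x.1 = y.1 ∨ x.1 = y.2 then 1 else 0) + if x.2 = y.1 ∨ x.2 = y.2 then 1 else 0

/-- the dual plane -/
def du (x : Pl) : Pl :=
  !![(0, 0), (2, 3), (3, 1), (1, 2); (3, 2), (1, 1), (0, 3), (2, 0);
    (1, 3), (3, 0), (2, 2), (0, 1); (2, 1), (0, 2), (1, 0), (3, 3)] x.1 x.2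

section ring

variable {K : Type} [CommRing K] {c : Lab K}

/-- the matrices of the generators -/
def gm : Gn → M4 K
  | .inl σ => of fun i j => if σ.symm i = j then 1 else 0
  | .inr j => diagonal fun i => if i = j then -1 else 1

theorem rho_gm (g : Gn) (c : Lab K) (x y : Pl) :
    rho (gm g) c x y = sn g x * sn g y * c (mv g x) (mv g y) := by
  cases g <;> simp [rho_apply, gm, sn, mv, Fintype.sum_prod_type, diagonal_apply, ite_and]

theorem gm_orth (g : Gn) : (gm g : M4 K)ᵀ * gm g = 1 := by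
  cases g with
  | inl σ => ext i j; simp [gm, mul_apply, one_apply, Equiv.symm_apply_eq, eq_comm (a := j)]
  | inr j =>
    rw [gm, diagonal_transpose, diagonal_mul_diagonal, ← diagonal_one]
    exact congrArg _ (funext fun i => by split_ifs <;> simp)

theorem gm_mul (σ σ' : Equiv.Perm (Fin 4)) :
    (gm (.inl (σ * σ')) : M4 K) = gm (.inl σ) * gm (.inl σ') := by
  ext i j
  simp only [gm, mul_apply, of_apply, ite_mul, one_mul, zero_mul, sum_ite_eq, mem_univ, if_true]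
  rfl

theorem gm_one : (gm (.inl 1) : M4 K) = 1 := by
  ext i j
  simp [gm, one_apply, ← Equiv.Perm.inv_def]

/-- the two form of a plane -/
def wv (x a : Pl) : K := (if a = x then 1 else 0) - if a = x.swap then 1 else 0

/-- symmetric products -/
def ou (u v : Pl → K) : Lab K := of fun a b => u a * v b + v a * u b

/-- the product of the components in two planes -/
def el (x y : Pl) : Lab K := ou (wv x) (wv y)

/-- the reference labels -/
def ref : Tp → Lab K
  | .s => el (0, 1) (0, 1) + el (0, 2) (0, 2) + el (0, 3) (0, 3) + el (1, 2) (1, 2) +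
      el (1, 3) (1, 3) + el (2, 3) (2, 3)
  | .q => el (0, 1) (2, 3) - el (0, 2) (1, 3) + el (0, 3) (1, 2)
  | .t3 => el (0, 2) (0, 2) + el (0, 3) (0, 3) - el (1, 2) (1, 2) - el (1, 3) (1, 3)
  | .t6 => el (0, 2) (1, 2) + el (0, 3) (1, 3)
  | .w2 => el (0, 2) (0, 2) + el (1, 3) (1, 3) - el (0, 3) (0, 3) - el (1, 2) (1, 2)
  | .w6 => el (0, 2) (1, 2) - el (0, 3) (1, 3)
  | .w2p => el (0, 2) (1, 3) + el (0, 3) (1, 2)

theorem el_cast (a b x y : Pl) : (el a b : Lab K) x y = ((el a b : Lab ℤ) x y : K) := by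
  simp [el, ou, wv]

theorem ref_cast (τ : Tp) (x y : Pl) : (ref τ : Lab K) x y = ((ref τ : Lab ℤ) x y : K) := by
  cases τ <;> simp only [ref, Matrix.add_apply, Matrix.sub_apply, el_cast (K := K), Int.cast_add, Int.cast_sub]

theorem ref_map {K' : Type} [CommRing K'] (φ : K →+* K') (τ : Tp) :
    (ref τ : Lab K).map φ = ref τ := by
  ext x y
  rw [map_apply, ref_cast, map_intCast, ← ref_cast]

/-- the signed symmetries -/
theorem ref_sym (τ : Tp) : ∀ g ∈ τ.T, rho (gm g.1) (ref τ : Lab K) = (sb g.2 : K) • ref τ := by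
  have : ∀ τ : Tp, ∀ g ∈ τ.T, ∀ x y, sn g.1 x * sn g.1 y * (ref τ : Lab ℤ) (mv g.1 x) (mv g.1 y) =
      sb g.2 * (ref τ : Lab ℤ) x y := by decide +kernel
  intro g hg
  ext x y
  rw [rho_gm, Matrix.smul_apply, ref_cast (K := K), ref_cast (K := K) τ x, smul_eq_mul]
  exact_mod_cast congrArg (Int.cast (R := K)) (this τ g hg x y)

theorem el_mv (σ) (a b : Pl) :
    rho (gm (.inl σ)) (el (mv (.inl σ) a) (mv (.inl σ) b) : Lab K) = el a b := by
  ext x y
  simp [rho_gm, el, ou, wv, sn, mv, Prod.ext_iff]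

theorem wv_swap (x : Pl) : (wv x.swap : Pl → K) = -wv x := by
  funext a
  simp [wv]

theorem el_swap (x y : Pl) : (el x.swap y : Lab K) = -el x y := by
  ext a b
  simp only [el, ou, wv_swap, of_apply, Pi.neg_apply, Matrix.neg_apply]
  ring

theorem el_swap' (x y : Pl) : (el x y.swap : Lab K) = -el x y := by
  ext a b
  simp only [el, ou, wv_swap, of_apply, Pi.neg_apply, Matrix.neg_apply]
  ring

theorem rho_ou (g : M4 K) (u v : Pl → K) :
    rho g (ou u v) = ou (g ⊗ₖ g *ᵥ u) (g ⊗ₖ g *ᵥ v) := by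
  ext x y
  simp only [rho_apply, ou, of_apply, mulVec, dotProduct, kroneckerMap_apply, sum_mul_sum,
    ← sum_add_distrib]
  exact sum_congr rfl fun _ _ => sum_congr rfl fun _ _ => by ring

theorem kk_wv (g : M4 K) (x a : Pl) :
    (g ⊗ₖ g *ᵥ wv x) a = g a.1 x.1 * g a.2 x.2 - g a.1 x.2 * g a.2 x.1 := by
  simp [mulVec, dotProduct, wv, mul_sub]

/-- the part with `k` common indices -/
def mk (k : ℕ) : Lab K →ₗ[K] Lab K where
  toFun c := of fun x y => if cn x y = k then c x y else 0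
  map_add' a b := by ext x y; simp [ite_add_ite]
  map_smul' t a := by ext x y; simp

theorem mk_rho (k : ℕ) (g : Gn) : mk k (rho (gm g) c) = rho (gm g) (mk k c) := by
  have : ∀ x y, cn (mv g x) (mv g y) = cn x y := fun x y => by cases g; exacts [by simp [cn, mv], rfl]
  ext x y
  simp [mk, rho_gm, this]

theorem mk_ref (k : ℕ) (τ : Tp) : mk k (ref τ : Lab K) = if τ.k = k then ref τ else 0 := by
  have : ∀ (τ : Tp) x y, cn x y = τ.k ∨ (ref τ : Lab ℤ) x y = 0 := by decide +kernel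
  ext x y
  rcases this τ x y with h | h
  · simp [mk, h, apply_ite (fun m : Lab K => m x y)]
  · simp [mk, ref_cast (K := K), h, apply_ite (fun m : Lab K => m x y)]

/-- rotations in the plane `(0, 1)` -/
def r01 (a b : K) : M4 K := !![a, -b, 0, 0; b, a, 0, 0; 0, 0, 1, 0; 0, 0, 0, 1]

/-- rotations in the plane `(2, 3)` -/
def r23 (a b : K) : M4 K := !![1, 0, 0, 0; 0, 1, 0, 0; 0, 0, a, -b; 0, 0, b, a]

theorem r01_so {a b : K} (h : a ^ 2 + b ^ 2 = 1) : (r01 a b)ᵀ * r01 a b = 1 ∧ (r01 a b).det = 1 := by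
  refine ⟨?_, by simp [r01, det_succ_row_zero, Fin.sum_univ_succ, Fin.succAbove]; linear_combination h⟩
  ext i j
  fin_cases i <;> fin_cases j <;> simp [r01, mul_apply, Fin.sum_univ_four] <;>
    first | linear_combination h | ring1

theorem r23_so {a b : K} (h : a ^ 2 + b ^ 2 = 1) : (r23 a b)ᵀ * r23 a b = 1 ∧ (r23 a b).det = 1 := by
  refine ⟨?_, by simp [r23, det_succ_row_zero, Fin.sum_univ_succ]; linear_combination h⟩
  ext i j
  fin_cases i <;> fin_cases j <;> simp [r23, mul_apply, Fin.sum_univ_four] <;>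
    first | linear_combination h | ring1

theorem ou_lin (a b a' b' : K) (u v u' v' : Pl → K) : ou (a • u + b • v) (a' • u' + b' • v') =
    (a * a') • ou u u' + (a * b') • ou u v' + (b * a') • ou v u' + (b * b') • ou v v' := by
  ext x y
  simp only [ou, of_apply, Matrix.add_apply, Matrix.smul_apply, Pi.add_apply, Pi.smul_apply, smul_eq_mul]
  ring

theorem ou_comm (u v : Pl → K) : ou u v = ou v u := by
  ext x y
  simp only [ou, of_apply, add_comm]

theorem rot01 (a b : K) :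
    rho (r01 a b) (ref .t3) = (a ^ 2 - b ^ 2) • ref .t3 + (4 * a * b) • ref .t6 ∧
    rho (r01 a b) (ref .t6) = (a ^ 2 - b ^ 2) • ref .t6 + (-(a * b)) • ref .t3 ∧
    rho (r01 a b) (ref .w2) = (a ^ 2 - b ^ 2) • ref .w2 + (4 * a * b) • ref .w6 ∧
    rho (r01 a b) (ref .w6) = (a ^ 2 - b ^ 2) • ref .w6 + (-(a * b)) • ref .w2 := by
  have h : r01 a b ⊗ₖ r01 a b *ᵥ wv (0, 2) = a • wv (0, 2) + b • wv (1, 2) ∧
      r01 a b ⊗ₖ r01 a b *ᵥ wv (0, 3) = a • wv (0, 3) + b • wv (1, 3) ∧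
      r01 a b ⊗ₖ r01 a b *ᵥ wv (1, 2) = a • wv (1, 2) + (-b) • wv (0, 2) ∧
      r01 a b ⊗ₖ r01 a b *ᵥ wv (1, 3) = a • wv (1, 3) + (-b) • wv (0, 3) := by
    refine ⟨?_, ?_, ?_, ?_⟩ <;> ext ⟨i, j⟩ <;> rw [kk_wv] <;> fin_cases i <;> fin_cases j <;>
      simp [r01, wv]
  simp only [ref, el, rho_add, rho_sub, rho_ou, h, ou_lin, ou_comm (wv (1, 2)) (wv (0, 2)),
    ou_comm (wv (1, 3)) (wv (0, 3))]
  refine ⟨?_, ?_, ?_, ?_⟩ <;> module

theorem rot23 (a b : K) :
    rho (r23 a b) (ref .w6) = (a ^ 2 - b ^ 2) • ref .w6 + (2 * a * b) • ref .w2p ∧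
    rho (r23 a b) (ref .w2p) = (a ^ 2 - b ^ 2) • ref .w2p + (-(2 * a * b)) • ref .w6 := by
  have h : r23 a b ⊗ₖ r23 a b *ᵥ wv (0, 2) = a • wv (0, 2) + b • wv (0, 3) ∧
      r23 a b ⊗ₖ r23 a b *ᵥ wv (0, 3) = a • wv (0, 3) + (-b) • wv (0, 2) ∧
      r23 a b ⊗ₖ r23 a b *ᵥ wv (1, 2) = a • wv (1, 2) + b • wv (1, 3) ∧
      r23 a b ⊗ₖ r23 a b *ᵥ wv (1, 3) = a • wv (1, 3) + (-b) • wv (1, 2) := by
    refine ⟨?_, ?_, ?_, ?_⟩ <;> ext ⟨i, j⟩ <;> rw [kk_wv] <;> fin_cases i <;> fin_cases j <;>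
      simp [r23, wv]
  simp only [ref, el, rho_add, rho_sub, rho_ou, h, ou_lin]
  refine ⟨?_, ?_⟩ <;> module

theorem el_tr (a b : Pl) : (el a b : Lab K)ᵀ = el a b := by
  ext x y
  simp only [el, ou, transpose_apply, of_apply]
  ring

theorem el_sw (a b x y : Pl) : (el a b : Lab K) x.swap y = -el a b x y := by
  simp only [el, ou, wv, of_apply, Prod.swap_eq_iff_eq_swap, Prod.swap_swap]
  ring

theorem ref_tr (τ : Tp) : (ref τ : Lab K)ᵀ = ref τ := by
  cases τ <;> simp only [ref, transpose_add, transpose_sub, el_tr]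

theorem ref_sw (τ : Tp) (x y : Pl) : (ref τ : Lab K) x.swap y = -ref τ x y := by
  cases τ <;> simp only [ref, Matrix.add_apply, Matrix.sub_apply, el_sw] <;> ring

theorem ref_sw' (τ : Tp) (x y : Pl) : (ref τ : Lab K) x y.swap = -ref τ x y := by
  rw [← ref_tr]
  exact ref_sw ..

/-- the orbit of the reference label -/
def orb (τ : Tp) (σ : Equiv.Perm (Fin 4)) : Lab K := rho (gm (.inl σ)) (ref τ)

theorem orb_apply (τ : Tp) (σ : Equiv.Perm (Fin 4)) (x y : Pl) :
    (orb τ σ : Lab K) x y = ref τ (mv (.inl σ) x) (mv (.inl σ) y) := by simp [orb, rho_gm, sn]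

end ring

end Pool.Agent.Lib.MP_7f377f_mp.Lb
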