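import Pool.Agent.Lib.MP_7f377f_mp.G.PurA
import Pool.Agent.Lib.MP_7f377f_mp.G.OSC

/-! The polynomial algebra of the smeared fields and the array bounds. -/

noncomputable section

namespace Pool.Agent.Lib.MP_7f377f_mp.Pur
variable [GD]

open MeasureTheory Filter Topology Set Real YM7 MvPolynomial

/-- polynomials in the smeared fields -/
abbrev Pol : Type := MvPolynomial (R4 → ℝ) ℂ

variable {k l : ℕ}

/-- the monomial of a family -/
def mon (f : Fin k → R4 → ℝ) : Pol := ∏ i, X (f i)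

theorem mon_append (f : Fin k → R4 → ℝ) (g : Fin l → R4 → ℝ) :
    mon (Fin.append f g) = mon f * mon g := by
  simp only [mon, Fin.prod_univ_add, Fin.append_left, Fin.append_right]

theorem rename_mon (φ : (R4 → ℝ) → R4 → ℝ) (f : Fin k → R4 → ℝ) :
    rename φ (mon f) = mon fun i => φ (f i) := by
  simp only [mon, map_prod, rename_X]

/-- the reflection as a linear isometry -/
def rfL (μ : Fin 4) : R4 ≃ₗᵢ[ℝ] R4 := LinearIsometryEquiv.piLpCongrRight 2 fun l =>
  if l = μ then LinearIsometryEquiv.neg ℝ else LinearIsometryEquiv.refl ℝ ℝ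

theorem rfL_eq (μ : Fin 4) : ⇑(rfL μ) = rf μ := by
  funext y
  ext l
  by_cases h : l = μ <;> simp [rf, rfL, h]

theorem adm_rf {f : Fin k → R4 → ℝ} (hf : Adm f) (μ : Fin 4) : Adm fun i y => f i (rf μ y) := by
  have := hf.comp (rfL μ).toHomeomorph (rfL μ).contDiff
  rwa [LinearIsometryEquiv.coe_toHomeomorph, rfL_eq] at this

theorem adm_sub {f : Fin k → R4 → ℝ} (hf : Adm f) (v : R4) : Adm fun i y => f i (y - v) := by
  simpa only [sub_eq_add_neg] using hf.add (-v)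

/-- admissible monomials localised in a set -/
def Mon (O : Set R4) : Set Pol :=
  {Z | ∃ (k : ℕ) (f : Fin k → R4 → ℝ), Adm f ∧ (∀ i, tsupport (f i) ⊆ O) ∧ mon f = Z}

/-- the antilinear reflection -/
def thP (μ : Fin 4) : Pol →+* Pol :=
  (rename fun (f : R4 → ℝ) y => f (rf μ y)).toRingHom.comp (map (starRingEnd ℂ))

theorem thP_mon (μ : Fin 4) (f : Fin k → R4 → ℝ) :
    thP μ (mon f) = mon fun i y => f i (rf μ y) := by
  simp [thP, mon]

theorem thP_smul (μ : Fin 4) (c : ℂ) (Z : Pol) : thP μ (c • Z) = starRingEnd ℂ c • thP μ Z := by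
  simp [thP, smul_eq_C_mul]

theorem span_map {O O' : Set R4} {g : Pol → Pol} (h0 : ∀ X Y, g (X + Y) = g X + g Y)
    (h1 : ∀ (c : ℂ) X, ∃ c' : ℂ, g (c • X) = c' • g X) (h2 : ∀ Z ∈ Mon O, g Z ∈ Mon O') {Z : Pol}
    (h : Z ∈ Submodule.span ℂ (Mon O)) : g Z ∈ Submodule.span ℂ (Mon O') := by
  induction h using Submodule.span_induction with
  | mem Z hZ => exact Submodule.subset_span (h2 Z hZ)
  | zero => rw [show g 0 = 0 by simpa using h0 0 0]; exact Submodule.zero_mem _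
  | add X Y _ _ h h' => rw [h0]; exact Submodule.add_mem _ h h'
  | smul c X _ h => obtain ⟨c', e⟩ := h1 c X; rw [e]; exact Submodule.smul_mem _ _ h

/-- the net of local polynomials -/
def net : Net Pol where
  τ v := rename fun f y => f (y - v)
  Θ := thP
  loc O := Submodule.span ℂ (Mon O)
  τ_zero Z := by simp only [sub_zero]; exact rename_id_apply Z
  τ_τ u v Z := by simp only [rename_rename, Function.comp_def, sub_sub]
  Θ_smul := thP_smul
  Θ_Θ μ Z := RingHom.congr_fun (f := (thP μ).comp (thP μ)) (g := RingHom.id _)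
    (ringHom_ext (by simp [thP]) (by simp [thP])) Z
  Θ_comm μ ν Z := RingHom.congr_fun (f := (thP μ).comp (thP ν)) (g := (thP ν).comp (thP μ))
    (ringHom_ext (by simp [thP]) fun f => by
      simp only [thP, RingHom.comp_apply, map_X, AlgHom.toRingHom_eq_coe, RingHom.coe_coe, rename_X]
      congr 1
      funext y
      congr 1
      ext l
      by_cases h : l = μ <;> by_cases h' : l = ν <;> simp_all [rf, Function.update_apply]) Z
  Θ_τ μ v Z := by
    have e : ∀ y, rf μ (y - rf μ v) = rf μ y - v := fun y => by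
      rw [← rfL_eq, map_sub, rfL_eq, rf_rf]
    simp only [thP, RingHom.comp_apply, map_rename, AlgHom.toRingHom_eq_coe, RingHom.coe_coe,
      rename_rename, Function.comp_def, e]
  mono {O O' _} h hO := Submodule.span_mono (s := Mon O) (t := Mon O')
    (fun _ ⟨k, f, h1, h2, h3⟩ => ⟨k, f, h1, fun i => (h2 i).trans hO, h3⟩) h
  one O := Submodule.subset_span ⟨0, ![], ⟨fun i => i.elim0, fun i => i.elim0⟩, fun i => i.elim0,
    Fin.prod_univ_zero _⟩
  mul {O O' X Y} hX hY h := by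
    refine Submodule.span_mono ?_ (Submodule.span_mul_span ℂ (Mon O) (Mon O') ▸
      Submodule.mul_mem_mul hX hY)
    rintro _ ⟨_, ⟨k, f, f1, f2, rfl⟩, _, ⟨l, g, g1, g2, rfl⟩, rfl⟩
    exact ⟨_, _, f1.append g1 fun i j => h.mono (f2 i) (g2 j),
      YM5.forall_append (P := fun u => tsupport u ⊆ O ∪ O') (fun i => (f2 i).trans subset_union_left)
        fun i => (g2 i).trans subset_union_right, mon_append f g⟩
  τ_mem v := span_map (map_add _) (fun c X => ⟨c, map_smul _ c X⟩) fun _ ⟨k, f, h1, h2, h3⟩ =>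
    ⟨k, _, adm_sub h1 v, fun i _ hy => h2 i (tsupport_comp (θ := fun y => y - v) (by fun_prop) hy),
      by rw [← h3, rename_mon]⟩
  Θ_mem μ := span_map (map_add _) (fun c X => ⟨_, thP_smul μ c X⟩) fun _ ⟨k, f, h1, h2, h3⟩ =>
    ⟨k, _, adm_rf h1 μ, fun i _ hy => h2 i (tsupport_comp (rfL_eq μ ▸ (rfL μ).continuous) hy),
      by rw [← h3, thP_mon]⟩
  bdd {O Z} h := by
    have m : ∀ {R R' : ℝ}, R ≤ R' → Submodule.span ℂ (Mon (O ∩ Bx R)) ≤
        Submodule.span ℂ (Mon (O ∩ Bx R')) := fun e => Submodule.span_mono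
      fun _ ⟨k, f, h1, h2, h3⟩ => ⟨k, f, h1, fun i => (h2 i).trans
        (inter_subset_inter_right _ (Bx.mono e)), h3⟩
    induction h using Submodule.span_induction with
    | mem Z hZ =>
      obtain ⟨k, f, h1, h2, h3⟩ := hZ
      obtain ⟨D, -, h4, -⟩ := h1.data
      exact ⟨D + 1, Submodule.subset_span ⟨k, f, h1, fun i y hy => ⟨h2 i hy, fun l =>
        ((PiLp.norm_apply_le y l).trans (h4 i y hy)).trans_lt (lt_add_one _)⟩, h3⟩⟩
    | zero => exact ⟨0, Submodule.zero_mem _⟩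
    | add X Y _ _ h h' =>
      obtain ⟨R, h⟩ := h
      obtain ⟨R', h'⟩ := h'
      exact ⟨max R R', Submodule.add_mem _ (m (le_max_left _ _) h) (m (le_max_right _ _) h')⟩
    | smul c X _ h => exact h.imp fun _ => Submodule.smul_mem _ _

theorem τ_mon (v : R4) (f : Fin k → R4 → ℝ) : net.τ v (mon f) = mon fun i y => f i (y - v) :=
  rename_mon _ f

theorem Θ_mon (μ : Fin 4) (f : Fin k → R4 → ℝ) :
    net.Θ μ (mon f) = mon fun i y => f i (rf μ y) := thP_mon μ f

theorem mon_mem {f : Fin k → R4 → ℝ} {O : Set R4} (hf : Adm f) (h : ∀ i, tsupport (f i) ⊆ O) :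
    mon f ∈ net.loc O := Submodule.subset_span ⟨k, f, hf, h, rfl⟩

/-- coordinates in the cell `c` of the grid of mesh `w`, compatible with the reflections -/
def fold (w : ℝ) (c : Fin 4 → ℤ) (y : R4) : R4 :=
  WithLp.toLp 2 fun l => (-1) ^ c l * (y l - (c l + 1 / 2) * w)

/-- the free correlation function -/
def kap (f : Fin k → R4 → ℝ) : ℝ := (48 / (11 * GD.b0)) ^ k * ∫ y : Fin k → R4, (∏ i, f i (y i)) * free y

/-- array bound for the Schwinger functions -/
def ArrS (S : ∀ {k : ℕ}, (Fin k → R4 → ℝ) → ℝ) : Prop :=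
  ∀ (e : ℕ) (δ : ℝ), 0 < δ → ∃ C : ℝ, ∀ (lo hi : Fin 4 → ℤ) (k : ℕ) (c : Fin k → Fin 4 → ℤ)
    (f : Fin k → R4 → ℝ), Adm f → Function.Injective c → (∀ i, c i ∈ cells lo hi) →
    (∀ i, LipschitzWith 1 (f i) ∧ ∀ y, |f i y| ≤ 1 ∧ (f i y ≠ 0 → ∀ l,
      c i l * (3 ^ e)⁻¹ + δ ≤ y l ∧ y l ≤ (c i l + 1) * (3 ^ e)⁻¹ - δ)) →
    |S f| ≤ exp (C * (cells lo hi).card)

variable [MeasurableSpace SU2] [BorelSpace SU2] (h : Measure SU2) [h.IsHaarMeasure]
  [IsProbabilityMeasure h] {ι : Type} (Φ : Filter ι) (n : ι → ℕ) [∀ p, NeZero (n p)]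
  (a b τ : ι → ℝ)

/-- bound for sources in different cells, exponential in the volume of the box -/
def CellA : Prop :=
  ∀ (e : ℕ) (δ : ℝ), 0 < δ → ∃ C : ℝ, ∀ lo hi : Fin 4 → ℤ, ∀ᶠ p in Φ, ∀ (k : ℕ)
    (c : Fin k → Fin 4 → ℤ) (F : Fin k → Src (n p)), Function.Injective c →
    (∀ i, c i ∈ cells lo hi) → (∀ i, Nrm (a p) (τ p) (F i)) →
    (∀ i, InCell (a p) (3 ^ e)⁻¹ δ (c i) (F i)) →
    |gcorr h (b p) (n p) F| ≤ exp (C * (cells lo hi).card)

/-- the short distance law for arrays of reflected clusters -/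
def ShortA (K : ℕ) : Prop :=
  ∀ k ≤ K, ∀ f : Fin k → R4 → ℝ, Adm f → ∀ η > 0, ∀ᶠ d in 𝓝[>] (0 : ℝ), ∃ w > 0,
    (∀ i, ∀ y ∈ tsupport (f i), d * ‖y‖ < w / 2) ∧ ∀ lo hi : Fin 4 → ℤ, ∀ᶠ p in Φ,
    ∃ F : (Fin 4 → ℤ) → Fin k → Src (n p),
      (∀ c ∈ cells lo hi, ∀ i, Near (a p) (F c i) fun y => f i (d⁻¹ • fold w c y)) ∧
      |∫ U, ∏ c ∈ cells lo hi, (log d⁻¹ ^ k * ∏ i, cen h (b p) (F c i) U - kap f)
        ∂wilson h (b p) (n p)| ≤ η ^ (cells lo hi).card

end Pool.Agent.Lib.MP_7f377f_mp.Pur
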