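import Pool.Agent.Lib.MP_7f377f_mp.G.LgDefs
import Pool.Agent.Lib.MP_7f377f_mp.G.PurF

/-! The abstract input of purification and of the extension to distributions. -/

noncomputable section

namespace Pool.Agent.Lib.MP_7f377f_mp.Lg
variable [Pool.Agent.Lib.MP_7f377f_mp.GD]
set_option linter.unusedSectionVars false

open Filter Topology Set YM7 Pur Real
open scoped NNReal

/-- operator bound with some radius -/
def QE (S : Pol →ₗ[ℂ] ℂ) (Z : Pol) (c : ℝ) : Prop := ∃ R, net.QB S Z R c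

/-- the explicit operator bound -/
def QG (S : Pol →ₗ[ℂ] ℂ) : Prop := ∃ (C : ℝ) (s : ℕ), 0 ≤ C ∧ ∀ (k : ℕ) (d : ℝ), 0 < d → d ≤ 1 →
  ∀ (f : Fin k → R4 → ℝ) (L : Fin k → ℝ≥0), Far d f L →
    QE S (mon f) ((C * ((k + 1) / d) ^ s) ^ k * ∏ i, L i)

/-- the short distance law as an operator bound -/
def QS (S : Pol →ₗ[ℂ] ℂ) : Prop := ∀ (k : ℕ) (f : Fin k → R4 → ℝ), Adm f → ∀ η > 0,
  ∀ᶠ d in 𝓝[>] (0 : ℝ), QE S
    (((log d⁻¹ ^ k : ℝ) : ℂ) • mon (fun i y => f i (d⁻¹ • y)) - (kap f : ℂ) • 1) η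

/-- the short distance law for arrays of reflected clusters -/
def ShortS (S : Pol →ₗ[ℂ] ℂ) : Prop := ∀ (k : ℕ) (f : Fin k → R4 → ℝ), Adm f → ∀ η > 0,
  ∀ᶠ d in 𝓝[>] (0 : ℝ), ∃ w > 0, (∀ i, ∀ y ∈ tsupport (f i), d * ‖y‖ < w / 2) ∧ ∀ lo hi : Fin 4 → ℤ,
    ‖S (∏ c ∈ cells lo hi, (((log d⁻¹ ^ k : ℝ) : ℂ) • mon (fun i y => f i (d⁻¹ • fold w c y)) -
      (kap f : ℂ) • 1))‖ ≤ η ^ (cells lo hi).card

/-- the abstract input -/
structure Inp (S : Pol →ₗ[ℂ] ℂ) : Prop where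
  st : net.St S
  lin : LinP S
  grow : QG S
  short : QS S

/-- invariance under proper rotations -/
def Rot (S : Pol →ₗ[ℂ] ℂ) : Prop := ∀ R : R4 ≃ₗᵢ[ℝ] R4,
  LinearMap.det (R.toLinearEquiv : R4 →ₗ[ℝ] R4) = 1 →
    ∀ (k : ℕ) (f : Fin k → R4 → ℝ), Adm f → S (mon fun i y => f i (R y)) = S (mon f)

/-- uniqueness of the vacuum -/
def Vac (W : Pol →ₗ[ℂ] ℂ) : Prop := ∀ (H : Fin 4 → Type) [∀ ν, NormedAddCommGroup (H ν)]
  [∀ ν, InnerProductSpace ℂ (H ν)] [∀ ν, CompleteSpace (H ν)] (r : ∀ ν, net.Rep W ν (H ν)) (x : H 0),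
    (∀ v : R4, 0 ≤ v 0 → (r 0).T v x = x) → x = inner ℂ ((r 0).Ψ 1) x • (r 0).Ψ 1

variable {S W : Pol →ₗ[ℂ] ℂ}

theorem QE.dom {Z : Pol} {c : ℝ} (h : QE S Z c) (hD : net.Dom S W) : QE W Z c :=
  h.imp fun _ => hD.qb

theorem QE.bound {Z : Pol} {c : ℝ} (h : QE S Z c) (hS : net.St S) : ‖S Z‖ ≤ c :=
  h.elim fun _ => hS.bound

theorem ShortS.qs (h : ShortS S) (hS : net.St S) : QS S := by
  intro k f hf η η0
  filter_upwards [h k f hf η η0, self_mem_nhdsWithin] with d ⟨w, w0, h1, h2⟩ (d0 : 0 < d)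
  have h4 := (Net.qb_of_arr hS w0 η0.le (fun c => ((log d⁻¹ ^ k : ℝ) : ℂ) •
    mon (fun i y => f i (d⁻¹ • fold w c y)) - (kap f : ℂ) • 1)
    (fun c => Submodule.sub_mem _ (Submodule.smul_mem _ _ (mon_mem (adm_fold hf d0 w c)
      fun i => fold_cell d0 (h1 i) c)) (Submodule.smul_mem _ _ (net.one _)))
    (fun μ c => by simp only [map_sub, net.Θ_smul, Complex.conj_ofReal, map_one, Θ_mon, fold_rf])
    (fun μ c => by simp only [map_sub, map_smul, map_one, τ_mon, fold_ax]) h2).tau hS (-dg (w / 2))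
  simp only [map_sub, map_smul, map_one, τ_mon, sub_neg_eq_add, fold_zero] at h4
  exact ⟨_, h4⟩

theorem Inp.dom (h : Inp S) (hD : net.Dom S W) (w1 : W 1 = 1) : Inp W :=
  ⟨hD.st h.st w1, h.lin.dom hD, h.grow.imp fun _ => .imp fun _ => .imp_right
    fun e k d d0 d1 f L hf => (e k d d0 d1 f L hf).dom hD,
    fun k f hf η η0 => (h.short k f hf η η0).mono fun _ e => e.dom hD⟩

theorem Inp.le (h : Inp S) : Grow S := h.grow.imp fun _ => .imp fun _ => .imp_right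
    fun e k d d0 d1 f L hf => (e k d d0 d1 f L hf).bound h.st

end Pool.Agent.Lib.MP_7f377f_mp.Lg
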