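import Pool.Agent.Lib.MP_7f377f_mp.G.LgEX2
import Pool.Agent.Lib.MP_7f377f_mp.G.PurK

/-! Extension of abstract multilinear functionals to tempered distributions. -/

noncomputable section

namespace Pool.Agent.Lib.MP_7f377f_mp.Lg
variable [Pool.Agent.Lib.MP_7f377f_mp.GD]
set_option linter.unusedSectionVars false

open MeasureTheory Filter Topology Set Real YM7 Pur Pur.PN Function
open scoped NNReal ContDiff Nat

variable {n : ℕ} {w : (Fin n → R4 → ℝ) → ℂ}

/-- separately linear on admissible families -/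
def Lin (w : (Fin n → R4 → ℝ) → ℂ) : Prop := ∀ f i u u' (c : ℝ), Adm (update f i u) →
  Adm (update f i u') → w (update f i (u + c • u')) = w (update f i u) + c * w (update f i u')

/-- the explicit bound for one functional -/
def Gro (C : ℝ) (s : ℕ) (B : ℝ) (w : (Fin n → R4 → ℝ) → ℂ) : Prop := ∀ d : ℝ, 0 < d → d ≤ 1 →
  ∀ (f : Fin n → R4 → ℝ) (L : Fin n → ℝ≥0), Far d f L →
    ‖w f‖ ≤ B * (C * ((n + 1) / d) ^ s) ^ n * ∏ i, L i

namespace LA

open FR EX2

theorem adm_of {O : Fin n → Set R4} (hO : Pairwise fun i j => Disjoint (O i) (O j))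
    {f : Fin n → R4 → ℝ} (h : ∀ i, Gd (O i) (f i)) : Adm f :=
  ⟨fun i => ⟨(h i).1, (h i).2.1⟩, fun i j e => (hO e).mono (h i).2.2 (h j).2.2⟩

theorem gd_upd {O : Fin n → Set R4} {f : Fin n → R4 → ℝ} (h : ∀ i, Gd (O i) (f i)) {i : Fin n}
    {u : R4 → ℝ} (hu : Gd (O i) u) (j : Fin n) : Gd (O j) (update f i u j) := by
  by_cases e : j = i
  · subst e
    rwa [update_self]
  · rw [update_of_ne e]
    exact h j

/-- test functions supported in a set -/
def GV (O : Set R4) : Submodule ℝ (R4 → ℝ) where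
  carrier := {u | Gd O u}
  add_mem' a b := by simpa using a.comb b 1
  zero_mem' := Gd.zero O
  smul_mem' c _ a := by simpa using (Gd.zero O).comb a c

theorem upd_val {O : Fin n → Set R4} [DecidableEq (Fin n)] (g : ∀ i, GV (O i)) (i : Fin n)
    (u : GV (O i)) : (fun j => (update g i u j).1) = update (fun j => (g j).1) i u.1 :=
  funext fun j => apply_update (fun _ v => v.1) g i u j

theorem ex_ml (h : Lin w) {O : Fin n → Set R4} (hO : Pairwise fun i j => Disjoint (O i) (O j)) :
    ∃ M : MultilinearMap ℝ (fun i => GV (O i)) ℂ, ∀ g, M g = w fun i => (g i).1 := by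
  have key : ∀ (g : ∀ i, GV (O i)) i (u u' : GV (O i)) (c : ℝ),
      w (update (fun j => (g j).1) i (u.1 + c • u'.1)) =
        w (update (fun j => (g j).1) i u.1) + c * w (update (fun j => (g j).1) i u'.1) :=
    fun g i u u' c => h _ i _ _ c (adm_of hO (gd_upd (fun j => (g j).2) u.2))
      (adm_of hO (gd_upd (fun j => (g j).2) u'.2))
  refine ⟨MultilinearMap.mk' (fun g => w fun i => (g i).1) (fun g i u u' => ?_) fun g i c u => ?_,
    fun _ => rfl⟩
  · simpa [upd_val] using key g i u u' 1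
  · have a := key g i 0 0 1
    have b := key g i 0 u c
    simp only [ZeroMemClass.coe_zero, smul_zero, add_zero, Complex.ofReal_one, one_mul,
      left_eq_add, zero_add] at a b
    simpa [upd_val, a] using b

end LA

open LA FR EX2

theorem Lin.zero (h : Lin w) {f : Fin n → R4 → ℝ} (hf : Adm f) {i : Fin n} (hi : f i = 0) :
    w f = 0 := by
  have := h f i 0 0 1 (by rwa [← hi, update_eq_self]) (by rwa [← hi, update_eq_self])
  rwa [smul_zero, add_zero, left_eq_add, Complex.ofReal_one, one_mul, ← hi, update_eq_self] at this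

theorem Lin.sum (h : Lin w) {I : Type} [Fintype I] {g : Fin n → I → R4 → ℝ} {O : Fin n → Set R4}
    (hO : Pairwise fun i j => Disjoint (O i) (O j)) (hg : ∀ i z, Gd (O i) (g i z))
    (c : Fin n → I → ℝ) : w (fun i => ∑ z, c i z • g i z) =
      ∑ z : Fin n → I, (∏ i, c i (z i) : ℝ) * w fun i => g i (z i) := by
  classical
  obtain ⟨M, hM⟩ := ex_ml h hO
  have := M.map_sum fun i z => c i z • (⟨g i z, hg i z⟩ : GV (O i))
  simpa only [M.map_smul_univ, hM, Submodule.coe_sum, Submodule.coe_smul, Complex.real_smul]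
    using this

theorem frameA : ∃ C : ℝ, 0 ≤ C ∧ ∀ (n : ℕ) (w : (Fin n → R4 → ℝ) → ℂ) (om : Fin n → R4 → ℝ)
    (A Λ : ℝ), Lin w → Adm om → (∀ i, Cl 1 Λ (om i)) → 0 ≤ A → 0 ≤ Λ →
    (∀ f (L : Fin n → ℝ≥0), Adm f →
      (∀ i, LipschitzWith (L i) (f i) ∧ ∀ y, f i y ≠ 0 → om i y ≠ 0) → ‖w f‖ ≤ A * ∏ i, L i) →
    ∃ T : Sw n →L[ℂ] ℂ, (∀ F, ‖T F‖ ≤ A * (C * (1 + Λ)) ^ n * dI (6 * n) F) ∧
      ∀ f F, Ten f F → T F = w fun i y => om i y * f i y := by
  obtain ⟨C, C0, hC⟩ := kernel
  refine ⟨2 * C, by positivity, fun n w om A Λ hL ha hc A0 Λ0 hb => ?_⟩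
  have g : ∀ i {h : R4 → ℂ}, ContDiff ℝ ∞ h → Gc (tsupport (om i)) fun y => om i y * h y :=
    fun i _ => gc_mul (ha.1 i).1 (ha.1 i).2
  refine (hC n (⋃ i, tsupport (om i)) (A * (2 * (1 + Λ)) ^ n)
    (fun h => ∑ s : Fin n → Bool, (∏ i, if s i then Complex.I else 1) *
      w fun i => pt (s i) fun y => om i y * h i y) (isCompact_iUnion fun i => (ha.1 i).1)
    (by positivity) (fun h i u u' c h1 h2 h3 => ?_) fun h M hM => ?_).imp
      fun T ⟨t1, t2⟩ => ?_
  rotate_right
  · refine ⟨fun F => (t1 F).trans_eq ?_, fun f F hF => ?_⟩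
    · rw [mul_assoc A, ← mul_pow, mul_right_comm 2]
    · rw [t2 f F hF, Finset.sum_eq_single (fun _ => false) ?_ (by simp)]
      · simp only [Bool.false_eq_true, if_false, Finset.prod_const_one, one_mul]
        congr 1
        funext i y
        simp [pt]
      intro s _ hs
      obtain ⟨i, hi⟩ := ne_iff.1 hs
      exact mul_eq_zero_of_right _ (hL.zero (adm_pt ha.2 (fun j => g j
        (Complex.ofRealCLM.contDiff.comp (hF.1 j).2)) s) (i := i) (funext fun y => by simp [pt, hi]))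
  · obtain ⟨t, ht⟩ : ∃ t : (Fin n → Bool) → (R4 → ℝ) → ℂ, ∀ s v, t s v =
      w (update (fun j => pt (s j) fun y => om j y * h j y) i v) := ⟨_, fun _ _ => rfl⟩
    have e : ∀ (s : Fin n → Bool) (v : R4 → ℂ),
        (w fun j => pt (s j) fun y => om j y * update h i v j y) =
          t s (pt (s i) fun y => om i y * v y) := fun s v => by
      rw [ht]
      congr 1
      funext j
      by_cases e : j = i
      · subst e
        simp only [update_self]
      · simp only [update_of_ne e]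
    have l : ∀ s a a' (c : ℝ), Gd (tsupport (om i)) a → Gd (tsupport (om i)) a' →
        t s (a + c • a') = t s a + c * t s a' := fun s a a' c b b' => by
      simp only [ht]
      exact hL _ i _ _ c (adm_of ha.2 (gd_upd (fun j => g j (h1 j) _) b))
        (adm_of ha.2 (gd_upd (fun j => g j (h1 j) _) b'))
    have fl : ∀ s b v, t (update s i b) v = t s v := fun s b v => by
      rw [ht, ht]
      congr 1
      funext j
      by_cases e : j = i
      · subst e
        simp only [update_self]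
      · simp only [update_of_ne e]
    have e1 : ∀ s : Fin n → Bool, t s (pt (s i) fun y => om i y * (u + c • u') y) =
        t s (pt (s i) fun y => om i y * u y) + c.re * t s (pt (s i) fun y => om i y * u' y) +
          ((if s i then c.im else -c.im : ℝ) : ℂ) * t s (pt (!s i) fun y => om i y * u' y) := by
      intro s
      rw [← l _ _ _ _ (g i h2 _) (g i h3 _), ← l _ _ _ _ ((g i h2 _).comb (g i h3 _) _) (g i h3 _)]
      congr 1
      funext y
      cases s i <;> simp [pt] <;> ring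
    have e2 : ∑ s : Fin n → Bool, (∏ j, if s j then Complex.I else 1) *
        (((if s i then c.im else -c.im : ℝ) : ℂ) * t s (pt (!s i) fun y => om i y * u' y)) =
        ∑ s : Fin n → Bool, c.im * Complex.I * ((∏ j, if s j then Complex.I else 1) *
          t s (pt (s i) fun y => om i y * u' y)) := by
      refine Fintype.sum_bijective (fun s => update s i (!s i))
        (Involutive.bijective fun s => by simp) _ _ fun s => ?_
      simp only [fl, update_self, ← Finset.mul_prod_erase _ _ (Finset.mem_univ i)]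
      rw [Finset.prod_congr rfl fun j hj => show (if update s i (!s i) j then Complex.I else 1) =
        if s j then Complex.I else 1 by rw [update_of_ne (Finset.ne_of_mem_erase hj)]]
      cases s i
      · simp only [Bool.false_eq_true, if_false, Bool.not_false, if_true, Complex.ofReal_neg]
        linear_combination (-(c.im : ℂ) * (∏ j ∈ Finset.univ.erase i, if s j then Complex.I else 1) *
          t s (pt true fun y => om i y * u' y)) * Complex.I_mul_I
      · simp only [Bool.false_eq_true, if_false, Bool.not_true, if_true]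
        ring
    simp only [e, e1, mul_add, Finset.sum_add_distrib, e2, mul_left_comm _ (c.re : ℂ),
      ← Finset.mul_sum, add_assoc, ← add_mul, Complex.re_add_im]
  · refine (norm_sum_le_of_le _ (n := fun _ => A * ∏ j, (1 + Λ) * M j) fun s _ => ?_).trans_eq ?_
    · have b := hb _ (fun j => ((1 + Λ) * M j).toNNReal) (adm_pt ha.2 (fun j => g j (hM j).1) s)
        fun j => ⟨lip_mul (hc j) (hM j).1 Λ0 (hM j).2.1 (fun l hl x hx => (hM j).2.2 l hl x
          (mem_iUnion.2 ⟨j, hx⟩)) _, fun y => pt_zero⟩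
      have e : ‖∏ i, if s i then Complex.I else 1‖ = 1 := by
        rw [norm_prod]
        exact Finset.prod_eq_one fun i _ => by split_ifs <;> simp
      rw [norm_mul, e, one_mul]
      refine b.trans_eq (congrArg _ ?_)
      rw [NNReal.coe_prod]
      exact Finset.prod_congr rfl fun j _ =>
        Real.coe_toNNReal _ (mul_nonneg (by positivity) (hM j).2.1)
    · simp only [Finset.sum_const, Finset.card_univ, Fintype.card_pi, Fintype.card_bool,
        Finset.prod_const, Fintype.card_fin, Finset.prod_mul_distrib, nsmul_eq_mul]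
      rw [mul_pow]
      push_cast
      ring

theorem Gro.qual {C B : ℝ} {s : ℕ} (hG : Gro C s B w) (hL : Lin w) (R : ℝ) {δ : ℝ} (δ0 : 0 < δ) :
    ∃ A : ℝ, ∀ (f : Fin n → R4 → ℝ) (L : Fin n → ℝ≥0), Adm f →
      (∀ i, LipschitzWith (L i) (f i) ∧ ∀ y, f i y ≠ 0 → ‖y‖ ≤ R) →
      (∀ i j, i ≠ j → ∀ x y, f i x ≠ 0 → f j y ≠ 0 → δ ≤ dist x y) → ‖w f‖ ≤ A * ∏ i, L i := by
  wlog R0 : 0 ≤ R generalizing R
  · exact (this 0 le_rfl).imp fun _ e f L f1 f2 => e f L f1 fun i =>
      ⟨(f2 i).1, fun y hy => ((f2 i).2 y hy).trans (not_le.1 R0).le⟩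
  have H := hG (min δ 1) (by positivity) (min_le_right _ _)
  generalize B * (C * ((n + 1) / min δ 1) ^ s) ^ n = C at H
  obtain ⟨η, hη⟩ : ∃ η : ℝ, η = min δ 1 / 4 := ⟨_, rfl⟩
  have η0 : 0 < η := by rw [hη]; positivity
  obtain ⟨D, hD⟩ := exists_nat_ge (R / η)
  rw [div_le_iff₀' η0] at hD
  choose K hK using fun z : Fin 4 → Fin (2 * D + 1) =>
    (bumpS_smooth η fun l => z l - D).lipschitzWith_of_hasCompactSupport
      (cpt_box (lo := fun l => η * (z l - D : ℤ) - η) (hi := fun l => η * (z l - D : ℤ) + η)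
        fun y hy l => abs_sub_le_iff.1 (bumpS_supp η0 hy l) |>.symm.imp
          (by intro; linarith) (by intro; linarith)) one_ne_zero
  obtain ⟨Λ, hΛ⟩ : ∃ Λ : (Fin 4 → Fin (2 * D + 1)) → ℝ,
    ∀ z, Λ z = 1 + (2 * R + 1) + (2 * R + 1) * K z := ⟨_, fun _ => rfl⟩
  have Λ0 : ∀ z, 0 < Λ z := fun z => by rw [hΛ]; positivity
  refine ⟨∑ z : Fin n → Fin 4 → Fin (2 * D + 1), (∏ i, Λ (z i)) * C, fun f L f1 f2 f3 => ?_⟩
  have s1 := fun i => sup_le (f2 i).1 R0 (f2 i).2
  obtain ⟨g, hg⟩ : ∃ g : Fin n → (Fin 4 → Fin (2 * D + 1)) → R4 → ℝ, ∀ i z, g i z =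
    fun y => (Λ z * L i)⁻¹ * (bumpS η (fun l => z l - D) y * f i y) := ⟨_, fun _ _ => rfl⟩
  have g0 : ∀ i z y, g i z y ≠ 0 → bumpS η (fun l => z l - D) y ≠ 0 ∧ f i y ≠ 0 :=
    fun i z y hy => mul_ne_zero_iff.1 (right_ne_zero_of_mul (hg i z ▸ hy :))
  have g2 : ∀ i z, Gd (tsupport (f i)) (g i z) := fun i z =>
    ⟨(f1.1 i).1.mono fun y hy => (g0 i z y hy).2,
      hg i z ▸ contDiff_const.mul ((bumpS_smooth _ _).mul (f1.1 i).2),
      closure_mono fun y hy => (g0 i z y hy).2⟩
  have g3 : f = fun i => ∑ z, (Λ z * L i) • g i z := by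
    funext i y
    by_cases e1 : f i y = 0
    · simp [hg, e1]
    · have e2 : (L i : ℝ) ≠ 0 := fun u => e1 (by simpa [u] using s1 i y)
      simp only [Finset.sum_apply, Pi.smul_apply, hg, smul_eq_mul,
        mul_inv_cancel_left₀ (mul_ne_zero (Λ0 _).ne' e2), ← Finset.sum_mul]
      rw [sum_bumpS η0 fun l => ((PiLp.norm_apply_le y l).trans ((f2 i).2 y e1)).trans hD, one_mul]
  have := hL.sum f1.2 g2 fun i z => Λ z * L i
  rw [← g3] at this
  rw [this, Finset.sum_mul]
  refine norm_sum_le_of_le _ fun z _ => ?_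
  have q := H (fun i => g i (z i)) (fun _ => 1) ⟨adm_of f1.2 fun i => g2 i _, fun i => ⟨by
        have := norm_piece (by positivity) (hK (z i)) (abs_bumpS _ _) (f2 i).1 (s1 i)
        rw [← hΛ, ← hg] at this
        exact this.1, fun x y hx hy => (dist_le_two (w := 2 * η) fun l => by
          have u1 := abs_le.1 (bumpS_supp η0 (g0 _ _ x hx).1 l)
          have u2 := abs_le.1 (bumpS_supp η0 (g0 _ _ y hy).1 l)
          rw [abs_le]
          constructor <;> linarith [u1.1, u1.2, u2.1, u2.2]).trans (by linarith)⟩,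
      fun i j hij x y hx hy => (min_le_left _ _).trans
        (f3 i j hij x y (g0 _ _ x hx).2 (g0 _ _ y hy).2)⟩
  have p := Finset.prod_nonneg (s := Finset.univ) fun i _ =>
    mul_nonneg (Λ0 (z i)).le (L i).coe_nonneg
  rw [norm_mul, Complex.norm_real, norm_of_nonneg p]
  refine (mul_le_mul_of_nonneg_left q p).trans_eq ?_
  rw [Finset.prod_mul_distrib, Finset.prod_const_one, NNReal.coe_one, NNReal.coe_prod]
  ring

theorem wsum_eqA (hL : Lin w) {C B : ℝ} {s : ℕ} (hG : Gro C s B w) {T : ℕ → (Fin n → Fin 4 → ℤ) → Sw n →L[ℂ] ℂ}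
    (hT : ∀ e z, Good z → ∀ f F, Ten f F → T e z F = w fun i y => frm e (z i) y * f i y)
    {f : Fin n → R4 → ℝ} {F : Sw n} (h : Ten f F) (hf : Adm f) :
    ∀ᶠ E in atTop, ∀ᶠ D in atTop, wsum T E D F = w f := by
  obtain ⟨om, o1, o2⟩ := exists_om hf
  obtain ⟨δ, d0, hd⟩ := dist_of o1
  obtain ⟨R, hR⟩ := norm_of o1
  obtain ⟨A, hA⟩ := hG.qual hL R d0
  obtain ⟨C, -, hC⟩ := frameA
  choose r r0 hr using fun i => cl_of (o2 i).1 (o1.1 i).1 (o2 i).2.1 1
  have hc : ∀ m, ∃ r, Cl m r fun x : Fin n → R4 => ∏ i, om i (x i) := fun m => by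
    refine (cl_of (contDiff_prod fun i _ => (o2 i).1.comp (contDiff_apply ℝ R4 i))
      (.intro (isCompact_univ_pi fun i => (o1.1 i).1) fun x hx => ?_) (fun x =>
        ⟨Finset.prod_nonneg fun i _ => ((o2 i).2.1 _).1, Finset.prod_le_one
          (fun i _ => ((o2 i).2.1 _).1) fun i _ => ((o2 i).2.1 _).2⟩) m).imp fun _ => And.right
    obtain ⟨i, hi⟩ := not_forall.1 fun c => hx (mem_univ_pi.2 c)
    exact Finset.prod_eq_zero (Finset.mem_univ i) (image_eq_zero_of_notMem_tsupport (f := om i) hi)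
  obtain ⟨T0, -, t0⟩ := hC n w om |A| (∑ i, r i) hL o1 (fun i => (hr i).mono (r0 i)
    (Finset.single_le_sum (fun i _ => r0 i) (Finset.mem_univ i))) (abs_nonneg _)
    (Finset.sum_nonneg fun i _ => r0 i) fun g L g1 g2 => (hA g L g1
      (fun i => ⟨(g2 i).1, fun y hy => hR i y ((g2 i).2 y hy)⟩) fun i j hij x y hx hy =>
        hd i j hij x y ((g2 i).2 x hx) ((g2 j).2 y hy)).trans (by gcongr; exact le_abs_self A)
  have supp : ∀ x, F x ≠ 0 → ∀ i, om i (x i) = 1 := fun x hx i => (o2 i).2.2 _ fun c => hx (by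
    rw [h.2]
    exact Finset.prod_eq_zero (Finset.mem_univ i) (by simpa using c))
  have key : ∀ e z, T e z (mul (chn e z) (mul (shel e) F)) =
      T0 (mul (chn e z) (mul (shel e) F)) := fun e z => by
    by_cases hz : Good z
    · have : T e z ∘L mul (chn e z) ∘L mul (fun x => ∏ i, om i (x i)) = T0 ∘L mul (chn e z) := by
        refine ContinuousLinearMap.ext_on (dense_ten n) fun G ⟨g, hg⟩ => ?_
        have a1 := Ten.mul (Ten.mul hg (fun i => (o2 i).1) hc) (fun i => smooth_chi e (z i))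
          (cl_chn e z)
        have a2 := Ten.mul hg (fun i => smooth_chi e (z i)) (cl_chn e z)
        refine (hT e z hz _ _ a1).trans (Eq.trans ?_ (t0 _ _ a2).symm)
        congr 1
        funext i y
        rw [← mul_assoc, frm_chi, mul_left_comm]
      have b := congrArg (fun U : Sw n →L[ℂ] ℂ => U (mul (shel e) F)) this
      have c : mul (fun x => ∏ i, om i (x i)) (mul (shel e) F) = mul (shel e) F := by
        ext x
        rw [mul_apply hc, mul_apply (cl_shel e)]
        by_cases hx : F x = 0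
        · simp [hx]
        · simp [supp x hx]
      simpa only [ContinuousLinearMap.comp_apply, c] using b
    · have : mul (chn e z) (mul (shel e) F) = 0 := by
        ext x
        rw [mul_apply (cl_chn e z), mul_apply (cl_shel e)]
        by_cases h1 : chn e z x = 0
        · simp [h1]
        by_cases h2 : shel e x = 0
        · simp [h2]
        exact (hz (good_of (shel_sepr h2) h1)).elim
      rw [this, map_zero, map_zero]
  have t1 : Tendsto (fun E : ℕ => (16 : ℝ) / 2 ^ E) atTop (𝓝 0) :=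
    tendsto_const_nhds.div_atTop (tendsto_pow_atTop_atTop_of_one_lt one_lt_two)
  filter_upwards [t1.eventually (gt_mem_nhds d0)] with E hE
  filter_upwards [tendsto_natCast_atTop_atTop.eventually_ge_atTop (8 * 2 ^ E * |R|)] with D hD
  have e1 : ∑ e ∈ Finset.range (E + 1), ∑ z ∈ lab n D, mul (chn e z) (mul (shel e) F) = F := by
    ext x
    simp only [sum_apply, mul_apply (cl_chn _ _), mul_apply (cl_shel _)]
    by_cases hx : F x = 0
    · simp [hx]
    have s1 : sepr E x = 1 := by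
      by_contra c
      obtain ⟨y, y1, y2⟩ := sepr_near c
      obtain ⟨i, j, e, hij⟩ := Function.not_injective_iff.1 y1
      have a1 := hd i j hij _ _ ((supp x hx i).trans_ne one_ne_zero)
        ((supp x hx j).trans_ne one_ne_zero)
      have a2 : ∀ i, dist (x i) (y i) ≤ 8 / 2 ^ E := fun i =>
        (dist_le_pi_dist x y i).trans ((dist_eq_norm x y).trans_le y2)
      have a3 := dist_triangle_right (x i) (x j) (y i)
      have a4 : (16 : ℝ) / 2 ^ E = 8 / 2 ^ E + 8 / 2 ^ E := by ring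
      have a5 := a2 j
      rw [← e] at a5
      linarith [a2 i]
    have s2 : ∀ e ∈ Finset.range (E + 1), ∑ z ∈ lab n D, (chn e z x : ℂ) * (shel e x * F x) =
        shel e x * F x := fun e he => by
      rw [← Finset.sum_mul, ← Complex.ofReal_sum, sum_chn, Complex.ofReal_one, one_mul]
      intro i μ
      refine le_trans ?_ hD
      have a1 : |x i μ| ≤ |R| := ((PiLp.norm_apply_le (x i) μ).trans
        (hR i _ ((supp x hx i).trans_ne one_ne_zero))).trans (le_abs_self R)
      have a2 : e ≤ E := Nat.le_of_lt_succ (Finset.mem_range.1 he)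
      rw [abs_mul, abs_of_nonneg (by positivity)]
      gcongr
      norm_num
    rw [Finset.sum_congr rfl s2, ← Finset.sum_mul, ← Complex.ofReal_sum, sum_shel, s1,
      Complex.ofReal_one, one_mul]
  simp only [wsum, sum_apply, ContinuousLinearMap.comp_apply, key, ← map_sum, e1]
  rw [t0 f F h]
  congr 1
  funext i y
  by_cases c : f i y = 0
  · simp [c]
  · simp [(o2 i).2.2 y c]

theorem exists_TA {C1 : ℝ} (c1 : 0 ≤ C1) (s1 : ℕ) : ∃ (C : ℝ) (s : ℕ), 0 ≤ C ∧ ∀ n
    (w : (Fin n → R4 → ℝ) → ℂ) (B : ℝ), 0 ≤ B → Lin w → Gro C1 s1 B w → ∃ T : ℕ → (Fin n → Fin 4 → ℤ) → Sw n →L[ℂ] ℂ,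
      (∀ e z, Good z → ∀ f F, Ten f F → T e z F = w fun i y => frm e (z i) y * f i y) ∧
      ∀ E D F, Off F → ‖wsum T E D F‖ ≤ B * (2 * (C * (n + 1) ^ s) ^ n * nrm (n * s) F) := by
  obtain ⟨C2, c2, h2⟩ := frameA
  obtain ⟨c, c0, hc⟩ := cl_cut
  obtain ⟨C3, s3, c3, h3⟩ := shell_le (s1 + 1)
  refine ⟨C1 * (C2 * (1 + c * 8)) * C3, s1 + s3, by positivity, fun n w B B0 hL h1 => ?_⟩
  have : ∀ (e : ℕ) (z : Fin n → Fin 4 → ℤ), ∃ T : Sw n →L[ℂ] ℂ,
      (Good z → ∀ f F, Ten f F → T F = w fun i y => frm e (z i) y * f i y) ∧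
      ∀ F, ‖T F‖ ≤ B * ((C1 * (n + 1) ^ s1 * (C2 * (1 + c * 8))) ^ n * 2 ^ (e * ((s1 + 1) * n)) *
        dI (6 * n) F) := fun e z => by
    by_cases hz : Good z
    · obtain ⟨T, t1, t2⟩ := h2 n w (fun i => frm e (z i)) (B * (C1 * ((n + 1) / (2 ^ e)⁻¹) ^ s1) ^ n)
        _ hL hz.adm.1 (fun i => ((hc 1 e).1 (z i)).2) (by positivity) (by positivity)
        fun f L f1 f2 => h1 _ (by positivity) (inv_le_one_of_one_le₀ (one_le_pow₀ one_le_two))
          f L ⟨f1, fun i => ⟨(f2 i).1, fun x y hx hy => frm_diam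
            (subset_tsupport _ ((f2 i).2 x hx)) (subset_tsupport _ ((f2 i).2 y hy))⟩,
            fun i j hij x y hx hy => hz.far hij (subset_tsupport _ ((f2 i).2 x hx))
              (subset_tsupport _ ((f2 j).2 y hy))⟩
      refine ⟨T, fun _ => t2, fun F => (t1 F).trans ?_⟩
      rw [mul_assoc B, mul_assoc B]
      refine mul_le_mul_of_nonneg_left (mul_le_mul_of_nonneg_right ?_ (dI_nonneg _ _)) B0
      rw [← mul_assoc e, pow_mul (2 : ℝ), ← mul_pow, ← mul_pow]
      refine pow_le_pow_left₀ (by positivity) ?_ n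
      have a1 : (1 : ℝ) ≤ 2 ^ e := one_le_pow₀ one_le_two
      calc _ = C1 * (n + 1) ^ s1 * (C2 * (1 + c * 8 * 2 ^ e)) * (2 ^ e) ^ s1 := by
            rw [div_inv_eq_mul, mul_pow]
            norm_num
            ring
        _ ≤ C1 * (n + 1) ^ s1 * (C2 * (2 ^ e + c * 8 * 2 ^ e)) * (2 ^ e) ^ s1 := by gcongr
        _ = _ := by rw [pow_mul]; ring
    · exact ⟨0, fun h => (hz h).elim, fun F => by
        have := dI_nonneg (6 * n) F
        rw [zero_apply, norm_zero]
        positivity⟩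
  choose T t1 t2 using this
  refine ⟨T, t1, fun E D F hF => ?_⟩
  have n0 := nrm_nonneg (n * s3) F
  have n1 : nrm (n * s3) F ≤ nrm (n * (s1 + s3)) F := by
    have : n * s3 ≤ n * (s1 + s3) := Nat.mul_le_mul_left _ (Nat.le_add_left _ _)
    exact Seminorm.le_def.1 (Finset.sup_mono (Finset.Iic_subset_Iic.2 (Prod.mk_le_mk.2 ⟨this, this⟩))) F
  simp only [wsum, sum_apply, ContinuousLinearMap.comp_apply]
  calc _ ≤ ∑ e ∈ Finset.range (E + 1), B * ((1 / 2) ^ e *
        ((C1 * (C2 * (1 + c * 8)) * C3 * (n + 1) ^ (s1 + s3)) ^ n * nrm (n * s3) F)) := by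
        refine norm_sum_le_of_le _ fun e _ => (norm_sum_le_of_le _ fun z _ => t2 e z _).trans ?_
        rw [← Finset.mul_sum, ← Finset.mul_sum]
        refine mul_le_mul_of_nonneg_left
          ((mul_le_mul_of_nonneg_left (h3 n e D F hF) (by positivity)).trans_eq ?_) B0
        rw [mul_add e, pow_add (2 : ℝ), mul_one, show C1 * (C2 * (1 + c * 8)) * C3 *
          ((n : ℝ) + 1) ^ (s1 + s3) = C1 * (n + 1) ^ s1 * (C2 * (1 + c * 8)) *
            (C3 * (n + 1) ^ s3) by ring, mul_pow _ (C3 * _), one_div, inv_pow]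
        field_simp
    _ ≤ _ := by
        rw [← Finset.mul_sum, ← Finset.sum_mul, mul_assoc 2]
        gcongr
        exact sum_geometric_two_le _

theorem exists_SA {C1 : ℝ} (c1 : 0 ≤ C1) (s1 : ℕ) : ∃ (α : ℝ) (β s : ℕ), 0 ≤ α ∧ ∀ n
    (w : (Fin n → R4 → ℝ) → ℂ) (B : ℝ), 0 ≤ B → Lin w → Gro C1 s1 B w → ∃ S : Sw n →L[ℂ] ℂ,
      (∀ F, ‖S F‖ ≤ α * n ! ^ β * B * nrm (n * s) F) ∧ ∀ f F, Ten f F → Adm f → S F = w f := by
  obtain ⟨C, s, c0, h⟩ := exists_TA c1 s1
  obtain ⟨α, β, hα⟩ := fac_le C s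
  refine ⟨2 * |α|, β, s, by positivity, fun n w B B0 hL hG => ?_⟩
  · obtain ⟨T, t1, t2⟩ := h n w B B0 hL hG
    let Γ : Submodule ℂ (Sw n × ℂ) := .span ℂ {q | ∃ f, Ten f q.1 ∧ Adm f ∧ q.2 = w f}
    have g1 : ∀ q ∈ Γ, Off q.1 ∧ ∀ᶠ E in atTop, ∀ᶠ D in atTop, wsum T E D q.1 = q.2 := by
      intro q hq
      induction hq using Submodule.span_induction with
      | mem q hq =>
        obtain ⟨f, f1, f2, f3⟩ := hq
        exact ⟨off_of f1 f2, f3 ▸ wsum_eqA hL hG t1 f1 f2⟩
      | zero =>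
        refine ⟨fun x _ l => ?_, .of_forall fun _ => .of_forall fun _ => map_zero _⟩
        exact congrFun iteratedFDeriv_fun_zero x
      | add p q _ _ hp hq =>
        refine ⟨fun x hx l => ?_, ?_⟩
        · have := iteratedFDeriv_add_apply (i := l) (x := x) (p.1.smooth l).contDiffAt
            (q.1.smooth l).contDiffAt
          rw [hp.1 x hx l, hq.1 x hx l, add_zero] at this
          exact this
        · filter_upwards [hp.2, hq.2] with E a b
          filter_upwards [a, b] with D a b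
          rw [Prod.fst_add, Prod.snd_add, map_add, a, b]
      | smul c p _ hp =>
        refine ⟨fun x hx l => ?_, ?_⟩
        · have := iteratedFDeriv_const_smul_apply (i := l) (x := x) (a := c)
            (p.1.smooth l).contDiffAt
          rw [hp.1 x hx l, smul_zero] at this
          exact this
        · filter_upwards [hp.2] with E a
          filter_upwards [a] with D a
          rw [Prod.smul_fst, Prod.smul_snd, map_smul, a]
    have k0 : 0 ≤ B * (2 * (C * (n + 1) ^ s) ^ n) := by positivity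
    obtain ⟨g, g2, g3⟩ := Module.Dual.exists_extension_of_le_seminorm Γ
      ((LinearMap.snd ℂ _ _).domRestrict Γ) (p := (NNReal.mk _ k0 • (Finset.Iic (n * s, n * s)).sup
        (schwartzSeminormFamily ℂ _ _)).comp (LinearMap.fst ℂ (Sw n) ℂ)) fun q => by
      obtain ⟨E, a⟩ := (g1 q q.2).2.exists
      obtain ⟨D, a⟩ := a.exists
      exact (congrArg _ a).symm.trans_le ((t2 E D _ (g1 q q.2).1).trans_eq (mul_assoc _ _ _).symm)
    have g4 : ∀ F, ‖g (F, 0)‖ ≤ B * (2 * (C * (n + 1) ^ s) ^ n) * nrm (n * s) F := fun F => g3 _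
    refine ⟨SchwartzMap.mkCLMtoNormedSpace (σ := RingHom.id ℂ) (fun F => g (F, 0))
      (fun F G => by rw [← map_add, Prod.mk_add_mk, add_zero])
      (fun c F => by rw [RingHom.id_apply, ← map_smul, Prod.smul_mk, smul_zero])
      ⟨_, _, k0, g4⟩, fun F => (g4 F).trans ?_, fun f F f1 f2 => ?_⟩
    · have := nrm_nonneg (n * s) F
      rw [mul_assoc 2, mul_comm B]
      gcongr
      exact (hα n).trans (by gcongr; exact le_abs_self α)
    · have a1 : g (0, w f) = 0 := norm_le_zero_iff.1 ((g3 _).trans_eq (by simp))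
      have a2 := g2 ⟨(F, w f), Submodule.subset_span ⟨f, f1, f2, rfl⟩⟩
      have a3 := map_add g (F, 0) (0, w f)
      rw [Prod.mk_add_mk, add_zero, zero_add, a1, add_zero] at a3
      exact a3.symm.trans a2

end Pool.Agent.Lib.MP_7f377f_mp.Lg
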