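import Pool.Agent.Lib.MP_7f377f_mp.G.LgX

/-! The kernel theorem with explicit constants. -/

noncomputable section

namespace Pool.Agent.Lib.MP_7f377f_mp.Lg
variable [Pool.Agent.Lib.MP_7f377f_mp.GD]
set_option linter.unusedSectionVars false

open MeasureTheory Filter Topology Set Real YM7 Pur MvPolynomial
open scoped NNReal ContDiff Nat FourierTransform

namespace LgML

variable {n : ℕ} {K : Set R4} {A : ℝ}

/-- smooth functions with first derivatives bounded on `K` -/
def Bd (K : Set R4) (g : R4 → ℂ) (M : ℝ) : Prop :=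
  ContDiff ℝ ∞ g ∧ 0 ≤ M ∧ ∀ l ≤ 1, ∀ x ∈ K, ‖iteratedFDeriv ℝ l g x‖ ≤ M

/-- bounded multilinear forms -/
def ML (K : Set R4) (A : ℝ) (B : (Fin n → R4 → ℂ) → ℂ) : Prop :=
  (∀ h i g g' (c : ℂ), (∀ j, ContDiff ℝ ∞ (h j)) → ContDiff ℝ ∞ g →
      ContDiff ℝ ∞ g' → B (Function.update h i (g + c • g')) =
        B (Function.update h i g) + c * B (Function.update h i g')) ∧
  ∀ h (M : Fin n → ℝ), (∀ j, Bd K (h j) (M j)) → ‖B h‖ ≤ A * ∏ j, M j

theorem bd_wave (K : Set R4) (p : R4) {r : ℝ} (h : ‖p‖ ≤ r) : Bd K (wave p) (7 * (1 + r)) := by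
  have a := norm_nonneg p
  refine ⟨wave_smooth p, by linarith, fun l hl x _ => (wave_le p x l).trans ?_⟩
  have b := pi_le_four
  have c := pi_lt_d2
  interval_cases l
  · rw [pow_zero]; linarith
  · rw [pow_one]; nlinarith

theorem bd_sw (K : Set R4) (F : SchwartzMap R4 ℂ) : ∃ M, Bd K F M := by
  refine ⟨SchwartzMap.seminorm ℝ 0 0 F + SchwartzMap.seminorm ℝ 0 1 F, F.smooth _, by positivity,
    fun l hl x _ => (F.norm_iteratedFDeriv_le_seminorm ℝ l x).trans ?_⟩
  interval_cases l
  · exact le_add_of_nonneg_right (apply_nonneg _ _)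
  · exact le_add_of_nonneg_left (apply_nonneg _ _)

theorem ML.cont {B : (Fin n → R4 → ℂ) → ℂ} (h : ML K A B) (hK : IsCompact K) (A0 : 0 ≤ A) :
    Continuous fun p : Fin n → R4 => B fun i => wave (p i) := by
  refine continuous_iff_continuousAt.2 fun q => ?_
  have key : ∀ s : Finset (Fin n), Tendsto (fun p : Fin n → R4 =>
      B fun j => wave (if j ∈ s then p j else q j)) (𝓝 q) (𝓝 (B fun j => wave (q j))) := by
    intro s
    induction s using Finset.induction_on with
    | empty => simp
    | insert i s hi ih =>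
      have e : ∀ p : Fin n → R4, (B fun j => wave (if j ∈ insert i s then p j else q j)) =
          (B fun j => wave (if j ∈ s then p j else q j)) + B (Function.update
            (fun j => wave (if j ∈ s then p j else q j)) i (wave (p i) - wave (q i))) := by
        intro p
        have a := h.1 (fun j => wave (if j ∈ s then p j else q j)) i (wave (q i))
          (wave (p i) - wave (q i)) 1 (fun j => wave_smooth _) (wave_smooth _)
          ((wave_smooth _).sub (wave_smooth _))
        rw [one_smul, one_mul, add_sub_cancel] at a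
        refine Eq.trans (congrArg B ?_) (a.trans (congrArg (· + _) (congrArg B ?_)))
        · funext j
          by_cases c : j = i
          · subst c; simp
          · simp [c]
        · funext j
          by_cases c : j = i
          · subst c; simp [hi]
          · simp [c]
      simp only [e]
      rw [← add_zero (B fun j => wave (q j))]
      refine ih.add (NormedAddGroup.tendsto_nhds_zero.2 fun δ d0 => ?_)
      obtain ⟨D, hD⟩ : ∃ D, D = A * ∏ _j ∈ Finset.univ \ {i}, 7 * (1 + (‖q‖ + 1)) := ⟨_, rfl⟩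
      have D0 : 0 ≤ D := by rw [hD]; positivity
      have e0 : 0 < δ / (D + 1) := by positivity
      have t : Tendsto (fun p : Fin n → R4 => p i) (𝓝 q) (𝓝 (q i)) := (continuous_apply i).tendsto q
      filter_upwards [t.eventually (wave_near hK 0 (q i) e0), t.eventually (wave_near hK 1 (q i) e0),
        Metric.closedBall_mem_nhds q one_pos] with p p0 p1 p2
      have p3 : ‖p‖ ≤ ‖q‖ + 1 := norm_le_of_mem_closedBall p2
      refine (h.2 _ (Function.update (fun _ => 7 * (1 + (‖q‖ + 1))) i (δ / (D + 1)))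
        fun j => ?_).trans_lt ?_
      · by_cases c : j = i
        · subst c
          rw [Function.update_self, Function.update_self]
          refine ⟨(wave_smooth _).sub (wave_smooth _), e0.le, fun l hl => ?_⟩
          interval_cases l
          exacts [p0, p1]
        · rw [Function.update_of_ne c, Function.update_of_ne c]
          refine bd_wave K _ ?_
          split_ifs
          · exact (norm_le_pi_norm p j).trans p3
          · exact (norm_le_pi_norm q j).trans (by linarith)
      · rw [Finset.prod_update_of_mem (Finset.mem_univ i), mul_left_comm, ← hD, div_mul_eq_mul_div,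
          div_lt_iff₀ (by positivity)]
        nlinarith
  simpa [ContinuousAt] using key Finset.univ

theorem ML.le {B : (Fin n → R4 → ℂ) → ℂ} (h : ML K A B) (p : Fin n → R4) :
    ‖B fun i => wave (p i)‖ ≤ A * ∏ i, 7 * (1 + ‖p i‖) :=
  h.2 _ _ fun _ => bd_wave K _ le_rfl

theorem ML.cons {B : (Fin (n + 1) → R4 → ℂ) → ℂ} (h : ML K A B) {g : R4 → ℂ} {M : ℝ}
    (hg : Bd K g M) : ML K (A * M) fun f : Fin n → R4 → ℂ => B (Fin.cons g f) := by
  refine ⟨fun f i u u' c a b b' => ?_, fun f M' a => ?_⟩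
  · simp only [Fin.cons_update]
    exact h.1 _ _ _ _ _ (Fin.cases hg.1 a) b b'
  · have := h.2 (Fin.cons g f) (Fin.cons M M') (Fin.cases hg a)
    rwa [Fin.prod_cons, ← mul_assoc] at this

theorem ML.int {B : (Fin n → R4 → ℂ) → ℂ} (h : ML K A B) (hK : IsCompact K) (A0 : 0 ≤ A)
    (u : Fin n → SchwartzMap R4 ℂ) :
    Integrable fun p : Fin n → R4 => (∏ i, u i (p i)) * B fun i => wave (p i) := by
  have a : ∀ i, Integrable fun y : R4 => ‖u i y‖ * (7 * (1 + ‖y‖)) := fun i => by
    have := (((u i).integrable_pow_mul volume 0).add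
      ((u i).integrable_pow_mul volume 1)).const_mul 7
    refine this.congr (Eventually.of_forall fun y => ?_)
    simp only [Pi.add_apply]
    ring
  refine ((Integrable.fintype_prod a).const_mul A).mono'
    (Continuous.aestronglyMeasurable (.mul (by fun_prop) (h.cont hK A0)))
    (Eventually.of_forall fun p => ?_)
  rw [norm_mul, norm_prod, Finset.prod_mul_distrib, mul_left_comm]
  exact mul_le_mul_of_nonneg_left (h.le p) (by positivity)

theorem ML.rep (hK : IsCompact K) : ∀ {n : ℕ} {A : ℝ} {B : (Fin n → R4 → ℂ) → ℂ}, ML K A B →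
    0 ≤ A → ∀ u : Fin n → SchwartzMap R4 ℂ, (B fun i => u i) =
      ∫ p : Fin n → R4, (∏ i, 𝓕 (u i) (p i)) * B fun i => wave (p i) := by
  intro n
  induction n with
  | zero =>
    intro A B h A0 u
    have : ∀ p : Fin 0 → R4, (fun i => wave (p i)) = fun i => ⇑(u i) := fun _ =>
      Subsingleton.elim _ _
    simp [volume_pi, this, measureReal_def]
  | succ n ih =>
    intro A B h A0 u
    choose M hM using fun i => bd_sw K (u i)
    have a := exch (m := 1) hK (A := A * ∏ i : Fin n, M i.succ)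
      (fun g => B (Fin.cons g fun i : Fin n => u i.succ)) (fun g g' c b b' => by
        have := h.1 (Fin.cons g fun i : Fin n => u i.succ) 0 g g' c
          (Fin.cases b fun i => (u _).smooth _) b b'
        simpa only [Fin.update_cons_zero] using this)
      (fun g M' b b' c => by
        have := h.2 (Fin.cons g fun i : Fin n => u i.succ) (Fin.cons M' fun i : Fin n => M i.succ)
          (Fin.cases ⟨b, b', c⟩ fun i => hM _)
        rwa [Fin.prod_cons, mul_comm M', ← mul_assoc] at this) (u 0)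
    have b := h.int hK A0 fun i => 𝓕 (u i)
    have mp := (measurePreserving_piFinSuccAbove (fun _ : Fin (n + 1) => (volume : Measure R4)) 0).symm
    rw [volume_pi] at b ⊢
    rw [← mp.integrable_comp_emb (MeasurableEquiv.measurableEmbedding _)] at b
    rw [← mp.integral_comp']
    refine Eq.trans ?_ (integral_prod _ b).symm
    refine Eq.trans (congrArg B ?_) (a.trans (integral_congr_ae (Eventually.of_forall fun y => ?_)))
    · funext i
      refine Fin.cases rfl (fun _ => rfl) i
    · have c := ih (h.cons (bd_wave K y le_rfl)) (by positivity) fun i => u i.succ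
      simp only at c ⊢
      rw [c, ← integral_const_mul, volume_pi]
      refine integral_congr_ae (Eventually.of_forall fun p => ?_)
      simp only [Function.comp, MeasurableEquiv.piFinSuccAbove_symm_apply, Fin.insertNthEquiv,
        Fin.prod_univ_succ, Fin.insertNth_zero, Equiv.coe_fn_mk, Fin.cons_succ,
        Fin.zero_succAbove, cast_eq, Fin.cons_zero, mul_assoc]
      congr 3
      funext i
      refine Fin.cases rfl (fun _ => rfl) i

instance temp : (volume : Measure (Fin n → R4)).HasTemperateGrowth :=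
  Measure.IsAddHaarMeasure.instHasTemperateGrowth

/-- the scalar product of configurations -/
def sc (n : ℕ) : (Fin n → R4) →L[ℝ] (Fin n → R4) →L[ℝ] ℝ :=
  ∑ i, (innerSL ℝ).bilinearComp (.proj i) (.proj i)

theorem sc_apply (x p : Fin n → R4) : sc n x p = ∑ i, inner ℝ (x i) (p i) := by
  simp [sc]

/-- the Fourier transform on configurations -/
def ft (F : (Fin n → R4) → ℂ) : (Fin n → R4) → ℂ :=
  VectorFourier.fourierIntegral 𝐞 volume (sc n).toLinearMap₁₂ F

theorem sc_cont : Continuous fun p : (Fin n → R4) × (Fin n → R4) =>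
    (sc n).toLinearMap₁₂ p.1 p.2 := (sc n).continuous₂

theorem ft_cont (F : Sw n) : Continuous (ft F) :=
  VectorFourier.fourierIntegral_continuous continuous_fourierChar sc_cont F.integrable

theorem ft_prod (u : Fin n → R4 → ℂ) (p : Fin n → R4) :
    ft (fun x => ∏ i, u i (x i)) p = ∏ i, 𝓕 (u i) (p i) := by
  simp only [fourier_eq, ← integral_fintype_prod_volume_eq_prod]
  refine integral_congr_ae (Eventually.of_forall fun x => ?_)
  simp only [Circle.smul_def, smul_eq_mul, Finset.prod_mul_distrib, fourierChar_apply]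
  rw [← Complex.exp_sum]
  simp [sc_apply, Finset.mul_sum, Finset.sum_mul]

theorem dI_nonneg (m : ℕ) (F : Sw n) : 0 ≤ dI m F :=
  Finset.sum_nonneg fun _ _ => integral_nonneg fun _ => norm_nonneg _

theorem ft_pow (F : Sw n) (m : ℕ) (p : Fin n → R4) :
    ‖p‖ ^ m * (‖p‖ ^ m * ‖ft F p‖) ≤ ‖p‖ ^ m * (2 ^ m * dI m F) := by
  have a := VectorFourier.pow_mul_norm_iteratedFDeriv_fourierIntegral_le (sc n) (μ := volume)
    (K := ⊤) (N := ⊤) (F.smooth ⊤) (fun k l _ _ => F.integrable_pow_mul_iteratedFDeriv _ k l)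
    (k := 0) (n := m) le_top le_top p p
  have b : ‖p‖ * ‖p‖ ≤ |sc n p p| := by
    refine le_trans ?_ (le_abs_self _)
    rw [sc_apply, ← sq, ← Real.le_sqrt (norm_nonneg _)
      (Finset.sum_nonneg fun _ _ => real_inner_self_nonneg)]
    refine (pi_norm_le_iff_of_nonneg (sqrt_nonneg _)).2 fun i => Real.le_sqrt_of_sq_le ?_
    rw [← real_inner_self_eq_norm_sq]
    exact Finset.single_le_sum (f := fun i => inner ℝ (p i) (p i))
      (fun _ _ => real_inner_self_nonneg) (Finset.mem_univ i)
  rw [← mul_assoc, ← mul_pow]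
  refine le_trans ?_ (a.trans_eq ?_)
  · rw [norm_iteratedFDeriv_zero]
    exact mul_le_mul_of_nonneg_right (by gcongr) (norm_nonneg _)
  · simp [dI, mul_assoc]

theorem ft_le (F : Sw n) (m : ℕ) (p : Fin n → R4) :
    (1 + ‖p‖) ^ m * ‖ft F p‖ ≤ 4 ^ m * dI m F := by
  have d := dI_nonneg m F
  rw [show (4 : ℝ) = 2 * 2 by norm_num, mul_pow, mul_assoc]
  rcases le_total ‖p‖ 1 with c | c
  · have a : ‖ft F p‖ ≤ dI m F := by
      refine (VectorFourier.norm_fourierIntegral_le_integral_norm _ _ _ _ _).trans ?_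
      have := Finset.single_le_sum (f := fun l => ∫ x, ‖iteratedFDeriv ℝ l F x‖)
        (fun _ _ => integral_nonneg fun _ => norm_nonneg _) (Finset.mem_range.2 m.succ_pos)
      simpa [dI] using this
    refine mul_le_mul (by gcongr; linarith) (a.trans ?_) (norm_nonneg _) (by positivity)
    exact le_mul_of_one_le_left d (one_le_pow₀ one_le_two)
  · have a := le_of_mul_le_mul_left (ft_pow F m p) (by positivity)
    calc _ ≤ (2 * ‖p‖) ^ m * ‖ft F p‖ := by gcongr; linarith
      _ ≤ _ := by rw [mul_pow, mul_assoc]; gcongr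

/-- the decaying weight -/
def wt (y : R4) : ℝ := 7 * 4 ^ 6 * (1 + ‖y‖) ^ (-5 : ℝ)

theorem wt_int : Integrable wt :=
  (integrable_one_add_norm (r := 5) (by simp; norm_num)).const_mul _

theorem ML.ft_le {B : (Fin n → R4 → ℂ) → ℂ} (h : ML K A B) (A0 : 0 ≤ A) (F : Sw n)
    (p : Fin n → R4) :
    ‖ft F p * B fun i => wave (p i)‖ ≤ A * dI (6 * n) F * ∏ i, wt (p i) := by
  have a : ∏ i, 7 * (1 + ‖p i‖) ≤ (∏ i, wt (p i)) * ((1 + ‖p‖) ^ (6 * n) / 4 ^ (6 * n)) := by
    rw [← div_pow, pow_mul, ← Fin.prod_const, ← Finset.prod_mul_distrib]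
    refine Finset.prod_le_prod (fun _ _ => by positivity) fun i _ => ?_
    have b : ‖p i‖ ≤ ‖p‖ := norm_le_pi_norm p i
    calc _ = wt (p i) * ((1 + ‖p i‖) / 4) ^ 6 := by
          rw [wt, rpow_neg (by positivity), show (5 : ℝ) = (5 : ℕ) by norm_num, rpow_natCast]
          field_simp
      _ ≤ _ := by
          have : 0 ≤ wt (p i) := by unfold wt; positivity
          gcongr
  have w : 0 ≤ ∏ i, wt (p i) := Finset.prod_nonneg fun i _ => by unfold wt; positivity
  rw [norm_mul]
  calc _ ≤ ‖ft F p‖ * (A * ((∏ i, wt (p i)) * ((1 + ‖p‖) ^ (6 * n) / 4 ^ (6 * n)))) := by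
        gcongr
        exact (h.le p).trans (by gcongr)
    _ = A * ((1 + ‖p‖) ^ (6 * n) * ‖ft F p‖ / 4 ^ (6 * n)) * ∏ i, wt (p i) := by ring
    _ ≤ _ := by
        gcongr
        rw [div_le_iff₀' (by positivity)]
        exact LgML.ft_le F _ p

theorem dI_le (n m : ℕ) : ∃ (s : ℕ) (C : ℝ), 0 ≤ C ∧ ∀ F : Sw n, dI m F ≤ C * nrm s F := by
  obtain ⟨k, hk⟩ : ∃ k, k = (volume : Measure (Fin n → R4)).integrablePower := ⟨_, rfl⟩
  obtain ⟨c, hc⟩ : ∃ c : ℝ, c = 2 ^ k * ∫ x : Fin n → R4, (1 + ‖x‖) ^ (-(k : ℝ)) := ⟨_, rfl⟩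
  have c0 : 0 ≤ c := by rw [hc]; positivity
  refine ⟨k + m, (m + 1 : ℕ) * (c * 2), by positivity, fun F => ?_⟩
  rw [mul_assoc, ← nsmul_eq_mul, ← Finset.card_range (m + 1), dI]
  refine Finset.sum_le_card_nsmul _ _ _ fun l hl => ?_
  have a := F.integral_pow_mul_iteratedFDeriv_le ℂ (volume : Measure (Fin n → R4)) 0 l
  have b : ∀ j ≤ k, SchwartzMap.seminorm ℂ j l F ≤ nrm (k + m) F := fun j hj =>
    Seminorm.le_finset_sup_apply (p := schwartzSeminormFamily ℂ _ _) (i := (j, l))
      (Finset.mem_Iic.2 ⟨by simp only; omega, by have := Finset.mem_range.1 hl; simp only; omega⟩)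
  rw [← hk, ← hc] at a
  simp only [pow_zero, one_mul, zero_add] at a
  refine a.trans ?_
  rw [mul_assoc, two_mul]
  gcongr
  exacts [b 0 k.zero_le, b k le_rfl]

end LgML

open LgML in
theorem kernel : ∃ C : ℝ, 0 ≤ C ∧ ∀ (n : ℕ) (K : Set R4) (A : ℝ) (B : (Fin n → R4 → ℂ) → ℂ),
    IsCompact K → 0 ≤ A → (∀ h i g g' (c : ℂ), (∀ j, ContDiff ℝ ∞ (h j)) → ContDiff ℝ ∞ g →
      ContDiff ℝ ∞ g' → B (Function.update h i (g + c • g')) =
        B (Function.update h i g) + c * B (Function.update h i g')) →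
    (∀ h (M : Fin n → ℝ), (∀ j, ContDiff ℝ ∞ (h j) ∧ 0 ≤ M j ∧
      ∀ l ≤ 1, ∀ x ∈ K, ‖iteratedFDeriv ℝ l (h j) x‖ ≤ M j) → ‖B h‖ ≤ A * ∏ j, M j) →
    ∃ T : Sw n →L[ℂ] ℂ, (∀ F, ‖T F‖ ≤ A * C ^ n * dI (6 * n) F) ∧
      ∀ f F, Ten f F → T F = B fun i y => f i y := by
  have w0 : 0 ≤ ∫ y, wt y := integral_nonneg fun y => by unfold wt; positivity
  refine ⟨∫ y, wt y, w0, fun n K A B hK A0 h1 h2 => ?_⟩
  have h : ML K A B := ⟨h1, h2⟩
  have w : ∀ F : Sw n, Integrable fun p : Fin n → R4 => A * dI (6 * n) F * ∏ i, wt (p i) :=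
    fun F => (Integrable.fintype_prod fun _ => wt_int).const_mul _
  have a : ∀ F : Sw n, Integrable fun p : Fin n → R4 => ft F p * B fun i => wave (p i) := fun F =>
    (w F).mono' ((ft_cont F).mul (h.cont hK A0)).aestronglyMeasurable
      (Eventually.of_forall (h.ft_le A0 F))
  have b : ∀ F : Sw n, ‖∫ p : Fin n → R4, ft F p * B fun i => wave (p i)‖ ≤
      A * (∫ y, wt y) ^ n * dI (6 * n) F := fun F => by
    refine (norm_integral_le_of_norm_le (w F) (Eventually.of_forall (h.ft_le A0 F))).trans_eq ?_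
    rw [integral_const_mul, integral_fintype_prod_volume_eq_pow, Fintype.card_fin]
    ring
  refine ⟨SchwartzMap.mkCLMtoNormedSpace (σ := RingHom.id ℂ)
    (fun F => ∫ p : Fin n → R4, ft F p * B fun i => wave (p i)) (fun F G => ?_) (fun c F => ?_) ?_,
    b, fun f F hF => ?_⟩
  · rw [← integral_add (a F) (a G)]
    have : ft ⇑(F + G) = ft F + ft G := VectorFourier.fourierIntegral_add continuous_fourierChar
      sc_cont F.integrable G.integrable
    simp only [this, Pi.add_apply, add_mul]
  · have : ft ⇑(c • F) = c • ft F := VectorFourier.fourierIntegral_const_smul _ _ _ _ _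
    simp only [this, Pi.smul_apply, smul_eq_mul, mul_assoc, integral_const_mul, RingHom.id_apply]
  · obtain ⟨s, C, C0, hC⟩ := dI_le n (6 * n)
    refine ⟨Finset.Iic (s, s), A * (∫ y, wt y) ^ n * C, by positivity, fun F => (b F).trans ?_⟩
    rw [mul_assoc _ C]
    exact mul_le_mul_of_nonneg_left (hC F) (by positivity)
  · let u : Fin n → SchwartzMap R4 ℂ := fun i =>
      ((hF.1 i).1.comp_left (g := Complex.ofReal) rfl).toSchwartzMap
        (Complex.ofRealCLM.contDiff.comp (hF.1 i).2)
    have e : ⇑F = fun x => ∏ i, u i (x i) := funext hF.2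
    refine Eq.trans ?_ (h.rep hK A0 u).symm
    show ∫ p : Fin n → R4, (ft F p * B fun i => wave (p i)) = _
    simp only [e, ft_prod fun i => u i, SchwartzMap.fourier_coe]

end Pool.Agent.Lib.MP_7f377f_mp.Lg
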