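import Pool.Agent.Lib.MP_7f377f_mp.G.WmB1
import Pool.Agent.Lib.MP_7f377f_mp.G.WmB2
import Pool.Agent.Lib.MP_7f377f_mp.G.LgPI

/-! Limits of local composite fields: products at separated points. -/

noncomputable section

namespace Pool.Agent.Lib.MP_7f377f_mp.Lm
variable [Pool.Agent.Lib.MP_7f377f_mp.GD]
set_option linter.unusedSectionVars false

open Filter Topology Set Metric Function YM7 Pur Lg Wm Lg.PI
open Ro (Iso act act_act act_one act_mem act_adm act_τ)

variable {k : ℕ}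

/-- partitions in all slots -/
theorem pun {P : (Fin k → R4 → ℝ) → Prop} {O : Fin k → Set R4} (hO : ∀ i, IsCompact (O i))
    (h0 : ∀ g i, (∀ m, C1 (O m) (g m)) → P (update g i 0))
    (h1 : ∀ g i u u', (∀ m, C1 (O m) (g m)) → C1 (O i) u → C1 (O i) u' → P (update g i u) →
      P (update g i u') → P (update g i (u + u')))
    (h2 : ∀ y ∈ univ.pi O, ∃ ε > 0, ∀ g, (∀ i, C1 (ball (y i) ε) (g i)) → P g)
    {g : Fin k → R4 → ℝ} (hg : ∀ i, C1 (O i) (g i)) : P g := by
  choose! ε ε0 hε using h2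
  obtain ⟨δ, δ0, hδ⟩ := lebesgue_number_lemma_of_metric (ι := univ.pi O)
    (c := fun y => ball y.1 (ε y)) (isCompact_univ_pi hO) (fun _ => isOpen_ball)
    fun y hy => mem_iUnion.2 ⟨⟨y, hy⟩, mem_ball_self (ε0 y hy)⟩
  have key : ∀ (s : Finset (Fin k)) (x : Fin k → R4) (g : Fin k → R4 → ℝ), (∀ i, C1 (O i) (g i)) →
      (∀ i ∉ s, x i ∈ O i ∧ tsupport (g i) ⊆ ball (x i) δ) → P g := fun s => by
    induction s using Finset.induction_on with
    | empty =>
      intro x g hg h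
      obtain ⟨y, hy⟩ := hδ x fun i _ => (h i (Finset.notMem_empty i)).1
      refine hε y y.2 g fun i => ⟨(hg i).1, (hg i).2.1, fun u hu => ?_⟩
      have := (dist_le_pi_dist _ _ i).trans_lt (hy (a := update x i u)
        ((dist_pi_lt_iff δ0).2 fun j => by
          by_cases e : j = i
          · simpa [e] using (h i (Finset.notMem_empty i)).2 hu
          · simpa [e] using δ0))
      simpa using this
    | insert m s hm ih =>
      intro x g hg h
      rw [← update_eq_self m g]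
      refine B2.pu (P := fun u => P (update g m u)) (h0 g m hg) (fun u u' a b => h1 g m u u' hg a b)
        (fun z hz => ⟨δ, δ0,
          fun u hu => ih (update x m z) _ (fun i => ?_) fun i hi => ?_⟩) (hg m)
      · by_cases e : i = m
        · subst e
          rw [update_self]
          exact ⟨hu.1, hu.2.1, hu.2.2.trans inter_subset_left⟩
        · rw [update_of_ne e]
          exact hg i
      · by_cases e : i = m
        · subst e
          rw [update_self, update_self]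
          exact ⟨hz, hu.2.2.trans inter_subset_right⟩
        · rw [update_of_ne e, update_of_ne e]
          exact h i (by simp [e, hi])
  exact key Finset.univ 0 g hg fun i hi => absurd (Finset.mem_univ i) hi

/-- a frame in which distinct points have distinct times -/
theorem exists_sep {y : Fin k → R4} (hy : Injective y) :
    ∃ R : Iso, dt R = 1 ∧ Injective fun i => R (y i) 0 := by
  classical
  obtain ⟨n, hn⟩ : ∃ n : R4, ∀ i j, i ≠ j → inner ℝ (y i - y j) n ≠ 0 := by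
    have := Subspace.biUnion_ne_univ_of_top_notMem (k := ℝ) (E := R4)
      (s := (Finset.univ.filter fun p : Fin k × Fin k => p.1 ≠ p.2).image
        fun p => (ℝ ∙ (y p.1 - y p.2))ᗮ) (by
      simp only [Finset.mem_image, Finset.mem_filter, Finset.mem_univ, true_and, not_exists, not_and]
      intro p hp e
      rw [Submodule.orthogonal_eq_top_iff, Submodule.span_singleton_eq_bot, sub_eq_zero] at e
      exact hp (hy e))
    obtain ⟨n, hn⟩ := (ne_univ_iff_exists_notMem _).1 this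
    refine ⟨n, fun i j e h => hn (mem_iUnion₂.2 ⟨_, Finset.mem_image.2 ⟨(i, j), by simpa, rfl⟩, ?_⟩)⟩
    exact Submodule.mem_orthogonal_singleton_iff_inner_right.2 h
  have key : ∀ R : Iso, R n = ax 0 ‖n‖ → Injective fun i => R (y i) 0 := fun R e i j h => by
    by_contra c
    refine hn i j c ?_
    rw [← R.inner_map_map, e, map_sub, EuclideanSpace.inner_single_right]
    simp [sub_eq_zero.2 h]
  by_cases e : n - ax 0 ‖n‖ = 0
  · exact ⟨1, dt_one, key 1 (sub_eq_zero.1 e)⟩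
  refine ⟨rfL 1 * rn (n - ax 0 ‖n‖), ?_, key _ ?_⟩
  · rw [dt_mul, dt_rn e, ← rn_ax 1 one_ne_zero, dt_rn (by simp)]
    norm_num
  · rw [LinearIsometryEquiv.coe_mul, comp_apply, show rn (n - ax 0 ‖n‖) n = ax 0 ‖n‖ from
      Submodule.reflection_sub (by simp), rf_fix (by simp)]

section
variable {P : Type} [CommRing P] [Algebra ℂ P] {N : Net P} {S : P →ₗ[ℂ] ℂ} {H : Type}
  [NormedAddCommGroup H] [InnerProductSpace ℂ H] (r : N.Rep S 0 H) {R : ℝ} {X Y : P}
  {A B : H →L[ℂ] H}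

/-- the operator `A` represents `X` -/
def OB (R : ℝ) (X : P) (A : H →L[ℂ] H) : Prop := X ∈ N.loc (Bx R) ∧ ∀ Z ∈ N.loc (Hs 0 0),
  A (r.Ψ Z) = r.Ψ (N.τ (R • e0) X * N.τ ((2 * R) • e0) Z)

variable {r}

theorem OB.sub (h : OB r R X A) (h' : OB r R Y B) : OB r R (X - Y) (A - B) :=
  ⟨Submodule.sub_mem _ h.1 h'.1, fun Z hZ => by
    rw [sub_apply, h.2 Z hZ, h'.2 Z hZ, map_sub, sub_mul, map_sub]⟩

theorem OB.eq [CompleteSpace H] (h : OB r R X A) (h' : OB r R X B) : A = B :=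
  B1.ext r fun Z => (h.2 _ Z.2).trans (h'.2 _ Z.2).symm

theorem chain (R0 : 0 ≤ R) : ∀ (n : ℕ) (v : Fin n → R4), (∀ i, R ≤ v i 0) →
    (∀ i j, i < j → v i 0 + 2 * R ≤ v j 0) → ∃ G : (Fin n → H →L[ℂ] H) → H, Continuous G ∧
      ∀ (X : Fin n → P) A, (∀ i, OB r R (X i) (A i)) → ∏ i, N.τ (v i) (X i) ∈ N.loc (Hs 0 0) ∧
        r.Ψ (∏ i, N.τ (v i) (X i)) = G A := fun n => by
  induction n with
  | zero => exact fun v _ _ => ⟨fun _ => r.Ψ 1, continuous_const, fun X A _ => by simp [N.one]⟩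
  | succ n ih =>
    intro v h1 h2
    obtain ⟨G, c, hG⟩ := ih (fun i => v i.succ - v 0 - R • e0) (fun i => by
      have := h2 0 i.succ i.succ_pos
      simp
      linarith) fun i j e => by
      have := h2 _ _ (Fin.succ_lt_succ_iff.2 e)
      simp
      linarith
    have p : 0 ≤ (v 0 - R • e0) 0 := by simpa using h1 0
    refine ⟨fun A => r.T (v 0 - R • e0) (A 0 (G fun i => A i.succ)), by fun_prop, fun X A h => ?_⟩
    obtain ⟨g1, g2⟩ := hG (fun i => X i.succ) (fun i => A i.succ) fun i => h _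
    have m := B1.mem R0 (h 0).1 g1
    have e : ∏ i, N.τ (v i) (X i) = N.τ (v 0 - R • e0) (N.τ (R • e0) (X 0) * N.τ ((2 * R) • e0)
        (∏ i : Fin n, N.τ (v i.succ - v 0 - R • e0) (X i.succ))) := by
      simp only [Fin.prod_univ_succ, map_mul, map_prod, N.τ_τ, sub_add_cancel]
      congr 2
      funext i
      congr 2
      module
    beta_reduce
    rw [e, ← g2, (h 0).2 _ g1, r.act p m]
    exact ⟨Net.τ_hs m (by linarith), rfl⟩

theorem chain' (hS : N.St S) (R0 : 0 < R) (v : Fin k → R4)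
    (hv : ∀ i j, i ≠ j → 2 * R ≤ |v i 0 - v j 0|) : ∃ G : (Fin k → H →L[ℂ] H) → ℂ, Continuous G ∧
      ∀ (X : Fin k → P) A, (∀ i, OB r R (X i) (A i)) → ∏ i, N.τ (v i) (X i) ∈ N.loc univ ∧
        S (∏ i, N.τ (v i) (X i)) = G A := by
  obtain ⟨b, hb⟩ := (finite_range fun i => v i 0).bddBelow
  let σ := Tuple.sort fun i => v i 0
  obtain ⟨G, c, hG⟩ := chain (r := r) R0.le k (fun i => (R - b) • e0 + v (σ i)) (fun i => by
    have := hb (mem_range_self (σ i))
    simp
    linarith) fun i j e => by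
    have h1 : v (σ i) 0 ≤ v (σ j) 0 := Tuple.monotone_sort (fun i => v i 0) e.le
    have h2 := hv _ _ (σ.injective.ne e.ne)
    rw [abs_of_nonpos (by linarith)] at h2
    simp
    linarith
  refine ⟨fun A => inner ℂ (r.Ψ 1) (G fun i => A (σ i)), by fun_prop, fun X A h => ?_⟩
  obtain ⟨g1, g2⟩ := hG (fun i => X (σ i)) (fun i => A (σ i)) fun i => h _
  have e : ∏ i, N.τ ((R - b) • e0 + v (σ i)) (X (σ i)) =
      N.τ ((R - b) • e0) (∏ i, N.τ (v i) (X i)) := by
    simp only [map_prod, N.τ_τ]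
    exact Equiv.prod_comp σ fun i => N.τ ((R - b) • e0 + v i) (X i)
  have m := Net.τ_adm (-((R - b) • e0)) g1
  rw [e, N.τ_τ, neg_add_cancel, N.τ_zero] at m
  exact ⟨m, by beta_reduce; rw [← g2, r.vac g1, e, hS.ti _ m]⟩

end

variable {H : Type} [NormedAddCommGroup H] [InnerProductSpace ℂ H] {W : Pol →ₗ[ℂ] ℂ}
  (r : net.Rep W 0 H) {ι : Type} {l : Filter ι} {K : ℝ}
  {M : Iso → ℝ → (R4 → ℝ) → H →L[ℂ] H} {Φ : ι → (R4 → ℝ) → Pol}

/-- approximants of the field whose operators in the frame `R` are `M R` -/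
structure App (K : ℝ) (M : Iso → ℝ → (R4 → ℝ) → H →L[ℂ] H) (l : Filter ι)
    (Φ : ι → (R4 → ℝ) → Pol) : Prop where
  add : ∀ j g g', C1 univ g → C1 univ g' → Φ j (g + g') = Φ j g + Φ j g'
  lim : ∀ R v, dt R = 1 → ∀ d ∈ Ioc (0 : ℝ) 1, ∀ g, C1 (Bx d) g → ∃ A : ι → H →L[ℂ] H,
    (∀ᶠ j in l, OB r (K * d) (net.τ v (act R (Φ j fun y => g (R y + v)))) (A j)) ∧
      Tendsto A l (𝓝 (M R d g))

variable {r}

theorem c1_add {g : R4 → ℝ} (h : C1 univ g) (u : R4) : C1 univ fun y => g (y + u) :=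
  ⟨h.1.comp_homeomorph (Homeomorph.addRight u), h.2.1.comp (by fun_prop), subset_univ _⟩

theorem c1_iso {g : R4 → ℝ} (h : C1 univ g) (R : Iso) : C1 univ fun y => g (R y) :=
  ⟨h.1.comp_homeomorph R.toHomeomorph, h.2.1.comp R.contDiff, subset_univ _⟩

theorem App.tau (h : App r K M l Φ) (u : R4) :
    App r K M l fun j g => net.τ u (Φ j fun y => g (y + u)) where
  add j g g' a b := by rw [← map_add, ← h.add j _ _ (c1_add a u) (c1_add b u)]; rfl
  lim R v hR d hd g hg := by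
    simpa only [act_τ, net.τ_τ, map_add, add_assoc, add_comm (R u)] using
      h.lim R (v + R u) hR d hd g hg

theorem App.rot (h : App r K M l Φ) {Q : Iso} (hQ : dt Q = 1) :
    App r K (fun R => M (R * Q)) l fun j g => act Q (Φ j fun y => g (Q y)) where
  add j g g' a b := by rw [← map_add, ← h.add j _ _ (c1_iso a Q) (c1_iso b Q)]; rfl
  lim R v hR d hd g hg := by
    simpa only [act_act] using! h.lim (R * Q) v (by rw [dt_mul, hR, hQ, one_mul]) d hd g hg

theorem App.comp (h : App r K M l Φ) {ι' : Type} {l' : Filter ι'} {s : ι' → ι}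
    (hs : Tendsto s l' l) : App r K M l' fun j => Φ (s j) where
  add _ := h.add _
  lim R v hR d hd g hg :=
    let ⟨A, h1, h2⟩ := h.lim R v hR d hd g hg
    ⟨fun j => A (s j), hs.eventually h1, h2.comp hs⟩

/-- the operators of the approximants converge -/
def Cvg (r : net.Rep W 0 H) (K : ℝ) (M : Iso → ℝ → (R4 → ℝ) → H →L[ℂ] H) (l : Filter ι)
    (Φ : ι → (R4 → ℝ) → Pol) : Prop :=
  ∀ R v, dt R = 1 → ∀ d ∈ Ioc (0 : ℝ) 1, ∀ g, C1 (Bx d) g → ∃ A : ι → H →L[ℂ] H,
    (∀ᶠ j in l, OB r (K * d) (net.τ v (act R (Φ j fun y => g (R y + v)))) (A j)) ∧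
      Tendsto A l (𝓝 (M R d g))

theorem conv_loc (hS : net.St W) (hR : Rot W) (K1 : 1 ≤ K)
    (M : Fin k → Iso → ℝ → (R4 → ℝ) → H →L[ℂ] H) {y : Fin k → R4} (hy : Injective y) :
    ∃ ε > 0, ∀ g : Fin k → R4 → ℝ, (∀ i, C1 (ball (y i) ε) (g i)) → ∃ w : ℂ, ∀ (ι : Type)
      (l : Filter ι) (Φ : Fin k → ι → (R4 → ℝ) → Pol), (∀ i, Cvg r K (M i) l (Φ i)) →
        Tendsto (fun j => W (∏ i, Φ i j (g i))) l (𝓝 w) := by
  obtain ⟨R, r1, r2⟩ := exists_sep hy
  obtain ⟨d, hd, d0⟩ := (Eventually.and (f := 𝓝[>] (0 : ℝ)) (eventually_all.2 fun i =>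
    eventually_all.2 fun j => eventually_imp_distrib_left.2 fun e : i ≠ j =>
      (show Tendsto (fun d => 2 * (K * d)) _ (𝓝 0) from tendsto_nhdsWithin_of_tendsto_nhds
        (Continuous.tendsto' (by fun_prop) _ _ (by simp))).eventually_le_const
        (abs_pos.2 (sub_ne_zero.2 (r2.ne e)))) (Ioc_mem_nhdsGT one_pos)).exists
  obtain ⟨G, c, hG⟩ := chain' (r := r) hS (mul_pos (one_pos.trans_le K1) d0.1) (fun i => R (y i)) hd
  refine ⟨d, d0.1, fun g hg => ⟨G fun i => M i R d fun u => g i (R.symm (u + R (y i))),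
    fun ι l Φ h => ?_⟩⟩
  choose A a1 a2 using fun i => h i R (-R (y i)) r1 d d0
    (fun u => g i (R.symm (u + R (y i)))) ⟨(c1_add (c1_iso ⟨(hg i).1, (hg i).2.1, subset_univ _⟩
      R.symm) _).1, (hg i).2.1.comp (by fun_prop), fun u hu l => (PiLp.norm_apply_le u l).trans_lt (by
        have := (hg i).2.2 (tsupport_comp (θ := fun u => R.symm (u + R (y i))) (by fun_prop) hu)
        simpa [dist_eq_norm] using this)⟩
  refine ((c.tendsto _).comp (tendsto_pi_nhds.2 a2)).congr' ?_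
  filter_upwards [eventually_all.2 a1] with j hj
  obtain ⟨g1, g2⟩ := hG _ _ hj
  simp only [net.τ_τ, add_neg_cancel, net.τ_zero, neg_add_cancel_right,
    LinearIsometryEquiv.symm_apply_apply, ← map_prod] at g1 g2
  have m := act_adm R⁻¹ g1
  rw [act_act, inv_mul_cancel, act_one] at m
  exact g2.symm.trans (rot_iff.1 hR R r1 _ m)

/-- the correlation functions converge, the limit does not depend on the approximants -/
theorem conv (hS : net.St W) (hR : Rot W) (K1 : 1 ≤ K)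
    (M : Fin k → Iso → ℝ → (R4 → ℝ) → H →L[ℂ] H) {f : Fin k → R4 → ℝ} (hf : Adm f) :
    ∃ w : ℂ, ∀ (ι : Type) (l : Filter ι) (Φ : Fin k → ι → (R4 → ℝ) → Pol),
      (∀ i, App r K (M i) l (Φ i)) → Tendsto (fun j => W (∏ i, Φ i j (f i))) l (𝓝 w) := by
  have up : ∀ {ι : Type} (Φ : Fin k → ι → (R4 → ℝ) → Pol) (g : Fin k → R4 → ℝ) i u j,
      ∏ m, Φ m j (update g i u m) = Φ i j u * ∏ m ∈ Finset.univ.erase i, Φ m j (g m) :=
    fun Φ g i u j => by
      rw [← Finset.mul_prod_erase _ _ (Finset.mem_univ i), update_self]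
      exact congrArg _ (Finset.prod_congr rfl fun m hm => by
        rw [update_of_ne (Finset.ne_of_mem_erase hm)])
  refine pun (P := fun f => ∃ w : ℂ, ∀ (ι : Type) (l : Filter ι)
    (Φ : Fin k → ι → (R4 → ℝ) → Pol), (∀ i, App r K (M i) l (Φ i)) →
      Tendsto (fun j => W (∏ i, Φ i j (f i))) l (𝓝 w)) (O := fun i => tsupport (f i))
    (fun i => (hf.1 i).1) (fun g i _ => ⟨0, fun ι l Φ h => ?_⟩) ?_ (fun y hy => ?_)
    fun i => ⟨(hf.1 i).1, (hf.1 i).2, le_rfl⟩
  · have : ∀ j, Φ i j 0 = 0 := fun j => by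
      simpa using (h i).add j 0 0 (PN.Gd.zero _) (PN.Gd.zero _)
    simpa [up, this] using tendsto_const_nhds
  · rintro g i u u' - a b ⟨w, hw⟩ ⟨w', hw'⟩
    refine ⟨w + w', fun ι l Φ h => ((hw ι l Φ h).add (hw' ι l Φ h)).congr fun j => ?_⟩
    rw [up, up, up, (h i).add j _ _ ⟨a.1, a.2.1, subset_univ _⟩ ⟨b.1, b.2.1, subset_univ _⟩, add_mul, map_add]
  obtain ⟨ε, ε0, e⟩ := conv_loc (r := r) hS hR K1 M (y := y) fun i j e => by_contra fun c =>
    Set.disjoint_left.1 (hf.2 c) (hy i trivial) (e ▸ hy j trivial)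
  exact ⟨ε, ε0, fun g hg => (e g hg).imp fun w e ι l Φ h => e ι l Φ fun i => (h i).lim⟩

end Pool.Agent.Lib.MP_7f377f_mp.Lm
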