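import Pool.Agent.Lib.MP_7f377f_mp.G.LmB

/-! Limits of local composite fields: the net of approximants. -/

noncomputable section

namespace Pool.Agent.Lib.MP_7f377f_mp.Lm
variable [Pool.Agent.Lib.MP_7f377f_mp.GD]
set_option linter.unusedSectionVars false

open Filter Topology Set Metric Function YM7 Pur Lg Wm Lg.PI ComplexConjugate

variable {V ι J P : Type} [CommRing P] [Algebra ℂ P] {k : ℕ}

/-- admissible products of letters -/
def Wd (L : (R4 → ℝ) → P → Prop) (U : Set R4) : Set P :=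
  {Z | ∃ (k : ℕ) (f : Fin k → R4 → ℝ) (q : Fin k → P), Adm f ∧
    (∀ i, tsupport (f i) ⊆ U ∧ L (f i) (q i)) ∧ ∏ i, q i = Z}

theorem Wd.mono {L : (R4 → ℝ) → P → Prop} {U U' : Set R4} (h : U ⊆ U') : Wd L U ⊆ Wd L U' :=
  fun _ ⟨k, f, q, h1, h2, h3⟩ => ⟨k, f, q, h1, fun i => ⟨(h2 i).1.trans h, (h2 i).2⟩, h3⟩

theorem span_map' {Q : Type} [AddCommGroup Q] [Module ℂ Q] {A : Set P} {B : Submodule ℂ Q}
    {g : P → Q} (h0 : ∀ X Y, g (X + Y) = g X + g Y)
    (h1 : ∀ (c : ℂ) X, ∃ c' : ℂ, g (c • X) = c' • g X) (h2 : ∀ Z ∈ A, g Z ∈ B) {Z : P}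
    (h : Z ∈ Submodule.span ℂ A) : g Z ∈ B := by
  induction h using Submodule.span_induction with
  | mem Z hZ => exact h2 Z hZ
  | zero => rw [show g 0 = 0 by simpa using h0 0 0]; exact B.zero_mem
  | add X Y _ _ h h' => rw [h0]; exact B.add_mem h h'
  | smul c X _ h => obtain ⟨c', e⟩ := h1 c X; rw [e]; exact B.smul_mem _ h

/-- the net generated by letters -/
def gen (τ : R4 → P →ₐ[ℂ] P) (Θ : Fin 4 → P →+* P) (L : (R4 → ℝ) → P → Prop)
    (h1 : ∀ X, τ 0 X = X) (h2 : ∀ u v X, τ u (τ v X) = τ (u + v) X)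
    (h3 : ∀ μ (c : ℂ) X, Θ μ (c • X) = conj c • Θ μ X) (h4 : ∀ μ X, Θ μ (Θ μ X) = X)
    (h5 : ∀ μ ν X, Θ μ (Θ ν X) = Θ ν (Θ μ X)) (h6 : ∀ μ v X, Θ μ (τ v X) = τ (rf μ v) (Θ μ X))
    (h7 : ∀ v f q, C1 univ f → L f q → L (fun y => f (y - v)) (τ v q))
    (h8 : ∀ μ f q, C1 univ f → L f q → L (fun y => f (rf μ y)) (Θ μ q)) : Net P where
  τ := τ
  Θ := Θ
  loc U := Submodule.span ℂ (Wd L U)
  τ_zero := h1
  τ_τ := h2
  Θ_smul := h3
  Θ_Θ := h4
  Θ_comm := h5
  Θ_τ := h6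
  mono h hO := Submodule.span_mono (Wd.mono hO) h
  one O := Submodule.subset_span ⟨0, ![], ![], ⟨fun i => i.elim0, fun i => i.elim0⟩,
    fun i => i.elim0, Fin.prod_univ_zero _⟩
  mul {O O' X Y} hX hY h := by
    refine Submodule.span_mono ?_ (Submodule.span_mul_span ℂ (Wd L O) (Wd L O') ▸
      Submodule.mul_mem_mul hX hY)
    rintro _ ⟨_, ⟨k, f, q, f1, f2, rfl⟩, _, ⟨l, g, p, g1, g2, rfl⟩, rfl⟩
    exact ⟨_, _, Fin.append q p, f1.append g1 fun i j => h.mono (f2 i).1 (g2 j).1,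
      YM5.forall_append₂ (P := fun u a => tsupport u ⊆ O ∪ O' ∧ L u a)
        (fun i => ⟨(f2 i).1.trans subset_union_left, (f2 i).2⟩)
        fun i => ⟨(g2 i).1.trans subset_union_right, (g2 i).2⟩,
      by simp only [Fin.prod_univ_add, Fin.append_left, Fin.append_right]⟩
  τ_mem v := span_map' (A := Wd L _) (map_add _) (fun c X => ⟨c, map_smul _ c X⟩)
    fun _ ⟨k, f, q, a, b, e⟩ => Submodule.subset_span ⟨k, _, fun i => τ v (q i), adm_sub a v,
      fun i => ⟨fun _ hy => (b i).1 (tsupport_comp (θ := fun y => y - v) (by fun_prop) hy),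
        h7 v _ _ ⟨(a.1 i).1, (a.1 i).2, subset_univ _⟩ (b i).2⟩, by rw [← e, map_prod]⟩
  Θ_mem μ := span_map' (A := Wd L _) (map_add _) (fun c X => ⟨_, h3 μ c X⟩)
    fun _ ⟨k, f, q, a, b, e⟩ => Submodule.subset_span ⟨k, _, fun i => Θ μ (q i), adm_rf a μ,
      fun i => ⟨fun _ hy => (b i).1 (tsupport_comp (rfL_eq μ ▸ (rfL μ).continuous) hy),
        h8 μ _ _ ⟨(a.1 i).1, (a.1 i).2, subset_univ _⟩ (b i).2⟩, by rw [← e, map_prod]⟩
  bdd {O Z} h := by
    have m : ∀ {R R' : ℝ}, R ≤ R' → Submodule.span ℂ (Wd L (O ∩ Bx R)) ≤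
        Submodule.span ℂ (Wd L (O ∩ Bx R')) := fun e => Submodule.span_mono
      (Wd.mono (inter_subset_inter_right _ (Bx.mono e)))
    induction h using Submodule.span_induction with
    | mem Z hZ =>
      obtain ⟨k, f, q, h1, h2, h3⟩ := hZ
      obtain ⟨D, -, h4, -⟩ := h1.data
      exact ⟨D + 1, Submodule.subset_span ⟨k, f, q, h1, fun i => ⟨fun y hy => ⟨(h2 i).1 hy, fun l =>
        ((PiLp.norm_apply_le y l).trans (h4 i y hy)).trans_lt (lt_add_one _)⟩, (h2 i).2⟩, h3⟩⟩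
    | zero => exact ⟨0, Submodule.zero_mem _⟩
    | add X Y _ _ h h' =>
      obtain ⟨R, h⟩ := h
      obtain ⟨R', h'⟩ := h'
      exact ⟨max R R', Submodule.add_mem _ (m (le_max_left _ _) h) (m (le_max_right _ _) h')⟩
    | smul c X _ h => exact h.imp fun _ => Submodule.smul_mem _ _

theorem prod_mem {N : Net P} {U : Fin k → Set R4} {X : Fin k → P} {O : Set R4}
    (h : ∀ i, X i ∈ N.loc (U i)) (hU : Pairwise fun i j => Disjoint (U i) (U j))
    (hO : ∀ i, U i ⊆ O) : ∏ i, X i ∈ N.loc O := by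
  have : ∀ s : Finset (Fin k), ∏ i ∈ s, X i ∈ N.loc (⋃ i ∈ s, U i) := fun s => by
    induction s using Finset.induction_on with
    | empty => simpa using N.one _
    | insert i s hi ih =>
      rw [Finset.prod_insert hi, Finset.set_biUnion_insert]
      exact N.mul (h i) ih (disjoint_iUnion₂_right.2 fun j hj => hU fun e => hi (e ▸ hj))
  exact N.mono (this _) (iUnion₂_subset fun i _ => hO i)

/-- a net generated by the smeared fields `x c f` -/
structure Gen (N : Net P) (x : V → (R4 → ℝ) → P) (θ : Fin 4 → V → V) : Prop where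
  loc : ∀ U, N.loc U = Submodule.span ℂ (Wd (fun f q => ∃ c, x c f = q) U)
  tau : ∀ v c f, N.τ v (x c f) = x c fun y => f (y - v)
  refl : ∀ μ c f, N.Θ μ (x c f) = x (θ μ c) fun y => f (rf μ y)

variable [AddCommGroup V] [Module ℂ V] {W : Pol →ₗ[ℂ] ℂ} {K : ℝ} {θ : Fin 4 → V → V}
  {ρ : Ro.Iso → V → V} {l : Filter ι} {O : ι → V → (R4 → ℝ) → Pol} {N : Net P}
  {x : V → (R4 → ℝ) → P}

/-- pairs of a local polynomial and its approximants -/
def NP (h : Inl W K θ ρ l O) (hN : Gen N x θ) (m : Filter J) : Net (P × (J → Pol)) :=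
  gen (fun v => (N.τ v).prodMap ((net.τ v).compLeft J))
    (fun μ => (N.Θ μ).prodMap ((net.Θ μ).compLeft J))
    (fun f q => ∃ (c : V) (u : R4) (s : J → ι), Tendsto s m l ∧
      (x c f, fun j => net.τ u (O (s j) c fun y => f (y + u))) = q)
    (fun X => Prod.ext (N.τ_zero _) (funext fun _ => net.τ_zero _))
    (fun u v X => Prod.ext (N.τ_τ _ _ _) (funext fun _ => net.τ_τ _ _ _))
    (fun μ c X => Prod.ext (N.Θ_smul _ _ _) (funext fun _ => net.Θ_smul _ _ _))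
    (fun μ X => Prod.ext (N.Θ_Θ _ _) (funext fun _ => net.Θ_Θ _ _))
    (fun μ ν X => Prod.ext (N.Θ_comm _ _ _) (funext fun _ => net.Θ_comm _ _ _))
    (fun μ v X => Prod.ext (N.Θ_τ _ _ _) (funext fun _ => net.Θ_τ _ _ _))
    (by
      rintro v f _ - ⟨c, u, s, hs, rfl⟩
      refine ⟨c, v + u, s, hs, Prod.ext (hN.tau _ _ _).symm (funext fun j => ?_)⟩
      simp only [add_comm v, ← add_assoc, add_sub_cancel_right]
      exact (add_comm v u ▸ net.τ_τ _ _ _).symm)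
    (by
      rintro μ f _ hf ⟨c, u, s, hs, rfl⟩
      refine ⟨θ μ c, rf μ u, s, hs, Prod.ext (hN.refl _ _ _).symm (funext fun j => ?_)⟩
      simp only [rf_add, rf_rf]
      exact ((net.Θ_τ _ _ _).trans (congrArg _ (h.refl _ _ _ _ (c1_add hf u)))).symm)

variable {h : Inl W K θ ρ l O} {hN : Gen N x θ} {m : Filter J} {U : Set R4} {p : P × (J → Pol)}

theorem NP.fst (hp : p ∈ (NP h hN m).loc U) : p.1 ∈ N.loc U := by
  rw [hN.loc]
  refine span_map' (g := Prod.fst) (fun _ _ => rfl) (fun c _ => ⟨c, rfl⟩) ?_ hp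
  rintro _ ⟨k, f, q, a, b, rfl⟩
  refine Submodule.subset_span ⟨k, f, fun i => (q i).1, a, fun i => ⟨(b i).1, ?_⟩, Prod.fst_prod.symm⟩
  obtain ⟨c, u, s, -, e⟩ := (b i).2
  exact ⟨c, congrArg Prod.fst e⟩

theorem NP.snd (hU : IsOpen U) (hp : p ∈ (NP h hN m).loc U) : ∀ᶠ j in m, p.2 j ∈ net.loc U := by
  induction hp using Submodule.span_induction with
  | mem Z hZ =>
    obtain ⟨k, f, q, a, b, rfl⟩ := hZ
    obtain ⟨G, g1, g2⟩ := Pairwise.exists_mem_filter_basis_of_disjoint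
      (l := fun i => 𝓝ˢ (tsupport (f i))) (fun i j e => disjoint_nhdsSet_nhdsSet
        (isClosed_tsupport _) (isClosed_tsupport _) (a.2 e)) fun i => hasBasis_nhdsSet _
    have : ∀ i, ∀ᶠ j in m, (q i).2 j ∈ net.loc (G i ∩ U) := fun i => by
      obtain ⟨c, u, s, hs, e⟩ := (b i).2
      have a1 := c1_add ⟨(a.1 i).1, (a.1 i).2, subset_univ _⟩ u
      filter_upwards [hs.eventually (h.loc c {y | y + u ∈ G i ∩ U} _
        (((g1 i).1.inter hU).preimage (by fun_prop)) ⟨a1.1, a1.2.1, fun y hy =>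
          subset_inter (g1 i).2 (b i).1 (tsupport_comp (θ := fun y => y + u) (by fun_prop) hy)⟩)]
        with j hj
      simpa [← e] using net.τ_mem u hj
    filter_upwards [eventually_all.2 this] with j hj
    rw [Prod.snd_prod, Finset.prod_apply]
    exact prod_mem hj (fun i j e => (g2 e).mono inter_subset_left inter_subset_left)
      fun _ => inter_subset_right
  | zero => exact .of_forall fun _ => Submodule.zero_mem _
  | add X Y _ _ a b => exact (a.and b).mono fun _ e => Submodule.add_mem _ e.1 e.2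
  | smul c X _ a => exact a.mono fun _ => Submodule.smul_mem _ c

theorem NP.lift {κ : ι → P →ₐ[ℂ] Pol} (hκ : ∀ j c f, κ j (x c f) = O j c f) {s : J → ι}
    (hs : Tendsto s m l) {Z : P} (hZ : Z ∈ N.loc U) :
    (Z, fun j => κ (s j) Z) ∈ (NP h hN m).loc U := by
  rw [hN.loc] at hZ
  refine span_map' (g := fun Z => (Z, fun j => κ (s j) Z))
    (fun _ _ => Prod.ext rfl (funext fun _ => map_add _ _ _))
    (fun c _ => ⟨c, Prod.ext rfl (funext fun _ => map_smul _ _ _)⟩) ?_ hZ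
  rintro _ ⟨k, f, q, a, b, rfl⟩
  refine Submodule.subset_span ⟨k, f, fun i => (q i, fun j => κ (s j) (q i)), a,
    fun i => ⟨(b i).1, ?_⟩, Prod.ext Prod.fst_prod (funext fun j => ?_)⟩
  · obtain ⟨c, e⟩ := (b i).2
    exact ⟨c, 0, s, hs, by simp [← e, hκ, net.τ_zero]⟩
  · simp [Prod.snd_prod, Finset.prod_apply]

end Pool.Agent.Lib.MP_7f377f_mp.Lm
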