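import Pool.Agent.Lib.MP_7f377f_mp.G.LmC

/-! Limits of local composite fields: the extended functional. -/

noncomputable section

namespace Pool.Agent.Lib.MP_7f377f_mp.Lm
variable [Pool.Agent.Lib.MP_7f377f_mp.GD]
set_option linter.unusedSectionVars false

open Filter Topology Set Metric Function YM7 Pur Lg Wm Lg.PI ComplexConjugate
open Ro (Iso act act_act act_one act_mem act_adm act_τ)
open scoped NNReal

variable {V ι P : Type} [CommRing P] [Algebra ℂ P] {l : Filter ι}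

theorem exists_lim {Y : Type} [NormedAddCommGroup Y] [NormedSpace ℂ Y] [l.NeBot]
    (F : ι → P →ₗ[ℂ] Y) : ∃ G : P →ₗ[ℂ] Y, ∀ Z y, Tendsto (fun j => F j Z) l (𝓝 y) → G Z = y := by
  let D : Submodule ℂ P :=
    { carrier := {Z | ∃ y, Tendsto (fun j => F j Z) l (𝓝 y)}
      add_mem' := fun ⟨_, a⟩ ⟨_, b⟩ => ⟨_, by simpa only [map_add] using a.add b⟩
      zero_mem' := ⟨0, by simpa only [map_zero] using tendsto_const_nhds⟩
      smul_mem' := fun c _ ⟨_, a⟩ => ⟨_, by simpa only [map_smul] using a.const_smul c⟩ }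
  choose g hg using fun Z : D => Z.2
  obtain ⟨G, hG⟩ := (IsLinearMap.mk' g ⟨fun X Y => tendsto_nhds_unique (hg _) (by
    simpa only [Submodule.coe_add, map_add] using (hg X).add (hg Y)), fun c X =>
      tendsto_nhds_unique (hg _) (by
        simpa only [Submodule.coe_smul, map_smul] using (hg X).const_smul c)⟩).exists_extend
  exact ⟨G, fun Z y h => (LinearMap.congr_fun hG ⟨Z, y, h⟩).trans (tendsto_nhds_unique (hg _) h)⟩

variable [AddCommGroup V] [Module ℂ V] {W : Pol →ₗ[ℂ] ℂ} {K : ℝ} {θ : Fin 4 → V → V}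
  {ρ : Iso → V → V} {O : ι → V → (R4 → ℝ) → Pol} {N : Net P} {x : V → (R4 → ℝ) → P}
  {H : Type} [NormedAddCommGroup H] [InnerProductSpace ℂ H] [CompleteSpace H]

/-- the properties of the extended functional -/
structure Outl (W : Pol →ₗ[ℂ] ℂ) (r : net.Rep W 0 H) (K : ℝ) (ρ : Iso → V → V) (l : Filter ι)
    (N : Net P) (x : V → (R4 → ℝ) → P) (κ : ι → P →ₐ[ℂ] Pol) (W' : P →ₗ[ℂ] ℂ)
    (r' : N.Rep W' 0 H) : Prop where
  st : N.St W'
  lin : ∀ c g g' (t : ℝ), C1 univ g → C1 univ g' → ∀ Z ∈ N.loc (tsupport g ∪ tsupport g')ᶜ,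
    W' (x c (g + t • g') * Z) = W' (x c g * Z) + t * W' (x c g' * Z)
  linc : ∀ (t : ℂ) a b g, C1 univ g → ∀ Z ∈ N.loc (tsupport g)ᶜ,
    W' (x (t • a + b) g * Z) = t * W' (x a g * Z) + W' (x b g * Z)
  bd : ∀ c, ∃ (C : ℝ) (s : ℕ), 0 ≤ C ∧ ∀ d ∈ Ioc (0 : ℝ) 1, ∀ g (L : ℝ≥0), C1 (Bx d) g →
    LipschitzWith L g → N.QB W' (x c g) (K * d) (C / d ^ s * L)
  rot : ∀ R, dt R = 1 → ∀ (k : ℕ) (c : Fin k → V) (f : Fin k → R4 → ℝ), Adm f →
    W' (∏ i, x (ρ R (c i)) fun y => f i (R.symm y)) = W' (∏ i, x (c i) (f i))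
  tr : r'.T = r.T
  lim : ∀ Z ∈ N.loc univ, Tendsto (fun j => W (κ j Z)) l (𝓝 (W' Z))
  vec : ∀ Z ∈ N.loc (Hs 0 0), Tendsto (fun j => r.Ψ (κ j Z)) l (𝓝 (r'.Ψ Z))

theorem isOpen_Hs (μ : Fin 4) (t : ℝ) : IsOpen (Hs μ t) := isOpen_lt continuous_const (by fun_prop)

theorem isOpen_Ot (t : ℝ) : IsOpen (Ot t) := by
  have : Ot t = ⋂ l, Hs l t := by ext; simp [Ot, Hs]
  exact this ▸ isOpen_iInter_of_finite fun l => isOpen_Hs l t

theorem Gen.mem (hN : Gen N x θ) {U : Set R4} {g : R4 → ℝ} (hg : C1 U g) (c : V) :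
    x c g ∈ N.loc U := by
  rw [hN.loc]
  exact Submodule.subset_span ⟨1, fun _ => g, fun _ => x c g, ⟨fun _ => ⟨hg.1, hg.2.1⟩,
    fun i j e => absurd (Subsingleton.elim i j) e⟩, fun _ => ⟨hg.2.2, c, rfl⟩, by simp⟩

theorem exists_out [l.NeBot] (h : Inl W K θ ρ l O) (hN : Gen N x θ) (hS : net.St W) (hR : Rot W)
    (ρ1 : ∀ c, ρ 1 c = c) (ρ2 : ∀ R Q c, dt R = 1 → dt Q = 1 → ρ (R * Q) c = ρ R (ρ Q c))
    (r : net.Rep W 0 H)
    (hD : ∀ R : ℝ, Dense {y | ∃ b ∈ net.loc (Ot 0), r.Ψ (net.τ (R • B1.nn) b) = y})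
    {κ : ι → P →ₐ[ℂ] Pol} (hκ : ∀ j c f, κ j (x c f) = O j c f)
    (he : ∀ Z ∈ net.loc (Hs 0 0), ∃ Z' ∈ N.loc (Hs 0 0),
      Tendsto (fun j => r.Ψ (κ j Z')) l (𝓝 (r.Ψ Z))) :
    ∃ W' r', Outl W r K ρ l N x κ W' r' := by
  obtain ⟨M, hM⟩ := h.app (r := r) hS ρ1 hD
  obtain ⟨W', hW⟩ := exists_lim (l := l) fun j => W ∘ₗ (κ j).toLinearMap
  obtain ⟨Ψ', hΨ⟩ := exists_lim (l := l) fun j => r.Ψ ∘ₗ (κ j).toLinearMap
  have m1 : ∀ {k} (c : Fin k → V) {f : Fin k → R4 → ℝ}, Adm f → ∀ {J : Type} {m : Filter J}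
      (Φ : Fin k → J → (R4 → ℝ) → Pol), (∀ i, App r K (fun R => M (ρ R (c i))) m (Φ i)) →
      Tendsto (fun j => W (∏ i, Φ i j (f i))) m (𝓝 (W' (∏ i, x (c i) (f i)))) :=
    fun c f hf J m Φ hΦ => by
      obtain ⟨w, hw⟩ := conv (r := r) hS hR h.one (fun i R => M (ρ R (c i))) hf
      rw [hW _ w (by simpa [hκ] using hw ι l _ fun i => hM (c i))]
      exact hw J m Φ hΦ
  have lim : ∀ {J : Type} {m : Filter J} {p}, p ∈ (NP h hN m).loc univ →
      Tendsto (fun j => W (p.2 j)) m (𝓝 (W' p.1)) := fun {J m p} hp => by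
    induction hp using Submodule.span_induction with
    | mem Z hZ =>
      obtain ⟨k, f, q, a, b, rfl⟩ := hZ
      choose c u s hs e using fun i => (b i).2
      simpa only [← e, Prod.fst_prod, Prod.snd_prod, Finset.prod_apply] using
        m1 c a _ fun i => ((hM (c i)).comp (hs i)).tau (u i)
    | zero => simpa using tendsto_const_nhds
    | add X Y _ _ a b => simpa using a.add b
    | smul c X _ a => simpa using a.const_smul c
  have nq : ∀ {J : Type} {m : Filter J} {p} μ, p ∈ (NP h hN m).loc (Hs μ 0) →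
      Tendsto (fun j => net.nq W μ (p.2 j)) m (𝓝 (N.nq W' μ p.1)) := fun μ hp =>
    (Complex.continuous_re.tendsto _).comp (lim (Net.rp_adm hp hp))
  have up : ∀ {U Z}, Z ∈ N.loc U → (Z, fun j => κ j Z) ∈ (NP h hN l).loc U := fun hZ =>
    NP.lift hκ tendsto_id hZ
  have lim' : ∀ Z ∈ N.loc univ, Tendsto (fun j => W (κ j Z)) l (𝓝 (W' Z)) := fun Z hZ =>
    lim (up hZ)
  have nul : ∀ {J : Type} {m : Filter J} {p q}, p ∈ (NP h hN m).loc (Hs 0 0) →
      q ∈ (NP h hN m).loc (Hs 0 0) → p.1 = q.1 →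
      Tendsto (fun j => r.Ψ (p.2 j) - r.Ψ (q.2 j)) m (𝓝 0) := fun {J m p q} hp hq e => by
    have s := Submodule.sub_mem _ hp hq
    have := ((nq 0 s).congr' ((NP.snd (isOpen_Hs _ _) s).mono fun j => r.nq)).sqrt
    rw [tendsto_zero_iff_norm_tendsto_zero]
    simpa [e, Net.nq] using this
  have vec : ∀ Z ∈ N.loc (Hs 0 0), Tendsto (fun j => r.Ψ (κ j Z)) l (𝓝 (Ψ' Z)) := fun Z hZ => by
    obtain ⟨y, hy⟩ := cau_of (l := l) (A := fun j => r.Ψ (κ j Z)) fun η η0 =>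
      Eventually.curry (p := fun p : ι × ι => ‖r.Ψ (κ p.1 Z) - r.Ψ (κ p.2 Z)‖ ≤ η)
        ((tendsto_zero_iff_norm_tendsto_zero.1 (nul (NP.lift hκ tendsto_fst hZ)
          (NP.lift hκ tendsto_snd hZ) rfl)).eventually_le_const η0)
    rwa [hΨ Z y hy]
  have st : N.St W' :=
    { one := hW 1 1 (by simp [hS.one])
      ti := fun v hX => tendsto_nhds_unique (lim (Net.τ_adm v (up hX))) ((lim' _ hX).congr'
        ((NP.snd isOpen_univ (up hX)).mono fun _ e => (hS.ti v e).symm))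
      herm := fun μ hX => tendsto_nhds_unique (lim (Net.Θ_adm μ (up hX)))
        (((Complex.continuous_conj.tendsto _).comp (lim' _ hX)).congr'
          ((NP.snd isOpen_univ (up hX)).mono fun _ e => (hS.herm μ e).symm))
      pos := fun μ hX => ge_of_tendsto (nq μ (up hX))
        ((NP.snd (isOpen_Hs _ _) (up hX)).mono fun _ => hS.pos μ)
      con := fun {X v} μ hX hv => le_of_tendsto_of_tendsto
        (nq μ (Net.τ_hs (v := v) (up hX) (by linarith))) (nq μ (up hX))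
        ((NP.snd (isOpen_Hs _ _) (up hX)).mono fun _ e => hS.con μ e hv) }
  have mx : ∀ {U g Z} c, C1 U g → Z ∈ N.loc Uᶜ → Tendsto (fun j => W (O j c g * κ j Z)) l
      (𝓝 (W' (x c g * Z))) := fun c hg hZ => by
    simpa only [map_mul, hκ] using lim' _ (Net.adm (N.mul (hN.mem hg c) hZ disjoint_compl_right))
  refine ⟨W', ⟨Ψ', r.T, fun hX hY => ?_, r.dense.mono ?_, r.nrm, fun {v X} hv hX => ?_⟩, st,
    fun c g g' t a b Z hZ => ?_, fun t a b g hg Z hZ => ?_, fun c => ?_, fun R r1 k c f hf => ?_,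
    rfl, lim', vec⟩
  · exact tendsto_nhds_unique ((vec _ hX).inner (vec _ hY)) ((lim (Net.rp_adm (up hX)
      (up hY))).congr' (((NP.snd (isOpen_Hs _ _) (up hX)).and
        (NP.snd (isOpen_Hs _ _) (up hY))).mono fun _ e => (r.inn e.1 e.2).symm))
  · rintro _ ⟨Z, rfl⟩
    obtain ⟨Z', h1, h2⟩ := he _ Z.2
    exact ⟨⟨Z', h1⟩, hΨ _ _ h2⟩
  · have t := Net.τ_hs (v := v) (t' := 0) (up hX) (by linarith)
    have := (nul t (up (NP.fst t)) rfl).add (vec _ (NP.fst t))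
    simp only [sub_add_cancel, zero_add] at this
    exact tendsto_nhds_unique (((r.T v).continuous.tendsto _).comp (vec _ hX)) (this.congr'
      ((NP.snd (isOpen_Hs _ _) (up hX)).mono fun _ e => (r.act hv e).symm))
  · have a' : C1 (tsupport g ∪ tsupport g') g := ⟨a.1, a.2.1, subset_union_left⟩
    have b' : C1 (tsupport g ∪ tsupport g') g' := ⟨b.1, b.2.1, subset_union_right⟩
    refine tendsto_nhds_unique (mx c (PN.Gd.comb a' b' t) hZ)
      (((mx c a' hZ).add ((mx c b' hZ).const_mul _)).congr fun j => ?_)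
    rw [h.lin j c g g' t a b, add_mul, smul_mul_assoc, map_add, map_smul, smul_eq_mul]
  · have a' : C1 (tsupport g) g := ⟨hg.1, hg.2.1, le_rfl⟩
    refine tendsto_nhds_unique (mx _ a' hZ)
      ((((mx a a' hZ).const_mul _).add (mx b a' hZ)).congr fun j => ?_)
    rw [h.linc j t a b g hg, add_mul, smul_mul_assoc, map_add, map_smul, smul_eq_mul]
  · obtain ⟨C, s, C0, e⟩ := h.bd c
    refine ⟨C, s, C0, fun d hd g L g1 g2 => ?_⟩
    have d0 := hd.1
    have kd : d ≤ K * d := le_mul_of_one_le_left d0.le h.one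
    have x1 := N.mono (hN.mem g1 c) (Bx.mono kd)
    refine ⟨x1, d0.le.trans kd, by positivity, fun μ b hb => le_of_tendsto_of_tendsto
      (nq μ (Net.qb_hs (v := ax μ (K * d)) (up x1) (Net.dg_ot (up hb)) (d0.le.trans kd) (by simp)))
      ((nq μ (up (N.mono hb (Ot.hs μ le_rfl)))).const_mul _) ?_⟩
    filter_upwards [e d hd g L g1 g2, NP.snd (isOpen_Ot 0) (up hb)] with j e1 e2
    rw [← hκ] at e1
    exact e1.2.2.2 μ _ e2
  · have a := Ro.adm_act hf R
    refine tendsto_nhds_unique (l := l) (m1 (fun i => ρ R (c i)) a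
      (fun i j g => act R (O j (c i) fun y => g (R y))) fun i =>
        ⟨((hM (c i)).rot r1).add, fun Q v hQ => ?_⟩) ?_
    · rw [← ρ2 Q R _ hQ r1]
      exact ((hM (c i)).rot r1).lim Q v hQ
    have x1 : ∏ i, x (c i) (f i) ∈ N.loc univ := prod_mem
      (fun i => hN.mem ⟨(hf.1 i).1, (hf.1 i).2, le_rfl⟩ _) hf.2 fun _ => subset_univ _
    refine (lim' _ x1).congr' ((NP.snd isOpen_univ (up x1)).mono fun j e => ?_)
    simp only [LinearIsometryEquiv.symm_apply_apply, ← map_prod, ← hκ]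
    exact (rot_iff.1 hR R r1 _ e).symm

end Pool.Agent.Lib.MP_7f377f_mp.Lm
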