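import Pool.Agent.Lib.MP_7f377f_mp.G.LmE

/-! Limits of local composite fields: the basic field as a limit of approximants. -/

noncomputable section

namespace Pool.Agent.Lib.MP_7f377f_mp.Lm
variable [Pool.Agent.Lib.MP_7f377f_mp.GD]
set_option linter.unusedSectionVars false

open Filter Topology Set Metric Function YM7 Pur Lg Wm Lg.PI MvPolynomial
open Ro (Iso act act_act act_one act_mem act_adm act_τ)

variable {k : ℕ}

/-- partitions in all slots, with control of the supports -/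
theorem pun2 {P : (Fin k → R4 → ℝ) → Prop} {O : Fin k → Set R4} (hO : ∀ i, IsCompact (O i))
    (h0 : ∀ g i, (∀ m, C1 (O m) (g m)) → P (update g i 0))
    (h1 : ∀ g i u u', (∀ m, C1 (O m) (g m)) → C1 (O i) u → C1 (O i) u' → P (update g i u) →
      P (update g i u') → P (update g i (u + u')))
    (h2 : ∀ y ∈ univ.pi O, ∃ ε > 0, ∀ g, (∀ i, C1 (ball (y i) ε) (g i)) → P g)
    {g : Fin k → R4 → ℝ} (hg : ∀ i, C1 (O i) (g i)) : P g := by
  choose! ε ε0 hε using h2
  obtain ⟨δ, δ0, hδ⟩ := lebesgue_number_lemma_of_metric (ι := univ.pi O)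
    (c := fun y => ball y.1 (ε y)) (isCompact_univ_pi hO) (fun _ => isOpen_ball)
    fun y hy => mem_iUnion.2 ⟨⟨y, hy⟩, mem_ball_self (ε0 y hy)⟩
  have key : ∀ (s : Finset (Fin k)) (x : Fin k → R4) (g : Fin k → R4 → ℝ), (∀ i, C1 (O i) (g i)) →
      (∀ i ∉ s, x i ∈ O i ∧ tsupport (g i) ⊆ ball (x i) δ) → P g := fun s => by
    induction s using Finset.induction_on with
    | empty =>
      intro x g hg h
      obtain ⟨y, hy⟩ := hδ x fun i _ => (h i (Finset.notMem_empty i)).1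
      refine hε y y.2 g fun i => ⟨(hg i).1, (hg i).2.1, fun u hu => ?_⟩
      have := (dist_le_pi_dist _ _ i).trans_lt (hy (a := update x i u)
        ((dist_pi_lt_iff δ0).2 fun j => by
          by_cases e : j = i
          · simpa [e] using (h i (Finset.notMem_empty i)).2 hu
          · simpa [e] using δ0))
      simpa using this
    | insert m s hm ih =>
      intro x g hg h
      rw [← update_eq_self m g]
      refine B2.pu (P := fun u => P (update g m u)) (h0 g m hg) (fun u u' => h1 g m u u' hg)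
        (fun z hz => ⟨δ, δ0, fun u hu => ih (update x m z) _ (fun i => ?_) fun i hi => ?_⟩) (hg m)
      · by_cases e : i = m
        · subst e
          rw [update_self]
          exact ⟨hu.1, hu.2.1, hu.2.2.trans inter_subset_left⟩
        · rw [update_of_ne e]
          exact hg i
      · by_cases e : i = m
        · subst e
          rw [update_self, update_self]
          exact ⟨hz, hu.2.2.trans inter_subset_right⟩
        · rw [update_of_ne e, update_of_ne e]
          exact h i (by simp [e, hi])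
  exact key Finset.univ 0 g hg fun i hi => absurd (Finset.mem_univ i) hi

variable {H : Type} [NormedAddCommGroup H] [InnerProductSpace ℂ H] {W : Pol →ₗ[ℂ] ℂ}
  (r : net.Rep W 0 H) {ι : Type} {l : Filter ι} {K : ℝ}

/-- approximants which are additive in correlation functions -/
structure App2 (K : ℝ) (M : Iso → ℝ → (R4 → ℝ) → H →L[ℂ] H) (l : Filter ι)
    (Φ : ι → (R4 → ℝ) → Pol) : Prop where
  add : ∀ j g g', C1 univ g → C1 univ g' → ∀ Z ∈ net.loc (tsupport g ∪ tsupport g')ᶜ,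
    W (Φ j (g + g') * Z) = W (Φ j g * Z) + W (Φ j g' * Z)
  loc : ∀ U g, IsOpen U → C1 U g → ∀ᶠ j in l, Φ j g ∈ net.loc U
  lim : ∀ R v, dt R = 1 → ∀ d ∈ Ioc (0 : ℝ) 1, ∀ g, C1 (Bx d) g → ∃ A : ι → H →L[ℂ] H,
    (∀ᶠ j in l, OB r (K * d) (net.τ v (act R (Φ j fun y => g (R y + v)))) (A j)) ∧
      Tendsto A l (𝓝 (M R d g))

variable {r}

theorem conv2 (hS : net.St W) (hR : Rot W) (K1 : 1 ≤ K)
    (M : Fin k → Iso → ℝ → (R4 → ℝ) → H →L[ℂ] H) {f : Fin k → R4 → ℝ} (hf : Adm f) :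
    ∃ w : ℂ, ∀ Φ : Fin k → ι → (R4 → ℝ) → Pol,
      (∀ i, App2 r K (M i) l (Φ i)) → Tendsto (fun j => W (∏ i, Φ i j (f i))) l (𝓝 w) := by
  have up : ∀ (Φ : Fin k → ι → (R4 → ℝ) → Pol) (g : Fin k → R4 → ℝ) i u j,
      ∏ m, Φ m j (update g i u m) = Φ i j u * ∏ m ∈ Finset.univ.erase i, Φ m j (g m) :=
    fun Φ g i u j => by
      rw [← Finset.mul_prod_erase _ _ (Finset.mem_univ i), update_self]
      exact congrArg _ (Finset.prod_congr rfl fun m hm => by
        rw [update_of_ne (Finset.ne_of_mem_erase hm)])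
  obtain ⟨U, u1, u2⟩ := Pairwise.exists_mem_filter_basis_of_disjoint
    (l := fun i => 𝓝ˢ (tsupport (f i))) (fun i j e => disjoint_nhdsSet_nhdsSet
      (isClosed_tsupport _) (isClosed_tsupport _) (hf.2 e)) fun i => hasBasis_nhdsSet _
  have lo : ∀ (Φ : Fin k → ι → (R4 → ℝ) → Pol) (g : Fin k → R4 → ℝ) i,
      (∀ i, App2 r K (M i) l (Φ i)) → (∀ m, C1 (tsupport (f m)) (g m)) → ∀ᶠ j in l,
      ∏ m ∈ Finset.univ.erase i, Φ m j (g m) ∈ net.loc (tsupport (f i))ᶜ := fun Φ g i h hg => by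
    filter_upwards [eventually_all.2 fun m => (h m).loc (U m) (g m) (u1 m).1
      ⟨(hg m).1, (hg m).2.1, (hg m).2.2.trans (u1 m).2⟩] with j hj
    have := prod_mem (N := net) (U := update U i ∅) (X := update (fun m => Φ m j (g m)) i 1)
      (O := (tsupport (f i))ᶜ) (fun m => by
        by_cases e : m = i
        · simpa [e] using net.one _
        · simpa [e] using hj m) (fun m n e => by
        by_cases e1 : m = i <;> by_cases e2 : n = i <;> simp [e1, e2]
        exact u2 e) fun m => by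
        by_cases e : m = i
        · simp [e]
        · simpa [e] using ((u2 e).mono_right (u1 i).2).subset_compl_right
    rwa [Finset.prod_update_of_mem (Finset.mem_univ i), one_mul,
      Finset.sdiff_singleton_eq_erase] at this
  have un : ∀ {i u}, C1 (tsupport (f i)) u → C1 univ u := fun a => ⟨a.1, a.2.1, subset_univ _⟩
  refine pun2 (P := fun f => ∃ w : ℂ, ∀ Φ : Fin k → ι → (R4 → ℝ) → Pol,
    (∀ i, App2 r K (M i) l (Φ i)) → Tendsto (fun j => W (∏ i, Φ i j (f i))) l (𝓝 w))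
    (O := fun i => tsupport (f i)) (fun i => (hf.1 i).1) (fun g i hg => ⟨0, fun Φ h => ?_⟩) ?_
    (fun y hy => ?_) fun i => ⟨(hf.1 i).1, (hf.1 i).2, le_rfl⟩
  · refine tendsto_const_nhds.congr' ((lo Φ g i h hg).mono fun j e => ?_)
    have := (h i).add j 0 0 (PN.Gd.zero _) (PN.Gd.zero _) _ (net.mono e (by simp))
    rw [add_zero, left_eq_add] at this
    beta_reduce
    rw [up, this]
  · rintro g i u u' hg a b ⟨w, hw⟩ ⟨w', hw'⟩
    refine ⟨w + w', fun Φ h => ((hw Φ h).add (hw' Φ h)).congr' ((lo Φ g i h hg).mono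
      fun j e => ?_)⟩
    beta_reduce
    rw [up, up, up, (h i).add j _ _ (un a) (un b) _
      (net.mono e (compl_subset_compl.2 (union_subset a.2.2 b.2.2)))]
  obtain ⟨R, r1, r2⟩ := exists_sep (y := y) fun i j e => by_contra fun c =>
    Set.disjoint_left.1 (hf.2 c) (hy i trivial) (e ▸ hy j trivial)
  obtain ⟨d, hd, d0⟩ := (Eventually.and (f := 𝓝[>] (0 : ℝ)) (eventually_all.2 fun i =>
    eventually_all.2 fun j => eventually_imp_distrib_left.2 fun e : i ≠ j =>
      (show Tendsto (fun d => 2 * (K * d)) _ (𝓝 0) from tendsto_nhdsWithin_of_tendsto_nhds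
        (Continuous.tendsto' (by fun_prop) _ _ (by simp))).eventually_le_const
        (abs_pos.2 (sub_ne_zero.2 (r2.ne e)))) (Ioc_mem_nhdsGT one_pos)).exists
  obtain ⟨G, c, hG⟩ := chain' (r := r) hS (mul_pos (one_pos.trans_le K1) d0.1) (fun i => R (y i)) hd
  refine ⟨d, d0.1, fun g hg => ⟨G fun i => M i R d fun u => g i (R.symm (u + R (y i))),
    fun Φ h => ?_⟩⟩
  choose A a1 a2 using fun i => (h i).lim R (-R (y i)) r1 d d0
    (fun u => g i (R.symm (u + R (y i)))) ⟨(c1_add (c1_iso ⟨(hg i).1, (hg i).2.1, subset_univ _⟩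
      R.symm) _).1, (hg i).2.1.comp (by fun_prop), fun u hu l => (PiLp.norm_apply_le u l).trans_lt (by
        have := (hg i).2.2 (tsupport_comp (θ := fun u => R.symm (u + R (y i))) (by fun_prop) hu)
        simpa [dist_eq_norm] using this)⟩
  refine ((c.tendsto _).comp (tendsto_pi_nhds.2 a2)).congr' ?_
  filter_upwards [eventually_all.2 a1] with j hj
  obtain ⟨g1, g2⟩ := hG _ _ hj
  simp only [net.τ_τ, add_neg_cancel, net.τ_zero, neg_add_cancel_right,
    LinearIsometryEquiv.symm_apply_apply, ← map_prod] at g1 g2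
  have m := act_adm R⁻¹ g1
  rw [act_act, inv_mul_cancel, act_one] at m
  exact g2.symm.trans (rot_iff.1 hR R r1 _ m)

variable {V : Type} [AddCommGroup V] [Module ℂ V] {θ : Fin 4 → V → V} {ρ : Iso → V → V}
  {O : ι → V → (R4 → ℝ) → Pol} [CompleteSpace H] {c₀ : V}

/-- the approximants with the label `c₀` converge to the basic field -/
def Bas (W : Pol →ₗ[ℂ] ℂ) (K : ℝ) (l : Filter ι) (Φ : ι → (R4 → ℝ) → Pol) : Prop :=
  ∀ d ∈ Ioc (0 : ℝ) 1, ∀ g, C1 (Bx d) g → ∀ η > 0, ∀ᶠ j in l, net.QB W (Φ j g - X g) (K * d) η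

theorem Bas.dom {S : Pol →ₗ[ℂ] ℂ} {Φ : ι → (R4 → ℝ) → Pol} (h : Bas S K l Φ) (hD : net.Dom S W) :
    Bas W K l Φ := fun d hd g hg η η0 => (h d hd g hg η η0).mono fun _ => hD.qb

theorem mix0 [l.NeBot] (h : Inl W K θ ρ l O) (hθ : Inv4 θ) (hS : net.St W) (hR : Rot W)
    (hL : LinP W) (ρ1 : ∀ c, ρ 1 c = c) (ρ0 : ∀ R, dt R = 1 → ρ R c₀ = c₀)
    (h0 : Bas W K l fun j => O j c₀) (r : net.Rep W 0 H)
    (hD : ∀ R : ℝ, Dense {y | ∃ b ∈ net.loc (Ot 0), r.Ψ (net.τ (R • B1.nn) b) = y})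
    {U U' : Set R4} (hU : Disjoint U U') {Y : PolL V} (hY : Y ∈ (netL hθ).loc U) {Z : Pol}
    (hZ : Z ∈ net.loc U') :
    Tendsto (fun j => W (sub (O j) (Y * emb c₀ Z)) - W (sub (O j) Y * Z)) l (𝓝 0) := by
  obtain ⟨M, hM⟩ := h.app (r := r) hS ρ1 hD
  have ob : ∀ {X R c}, net.QB W X R c → OB r R X (B1.Op r R X) := fun e =>
    ⟨e.1, fun Z hZ => B1.Op_eq r hS (hD _) e ⟨Z, hZ⟩⟩
  have a1 : ∀ c, App2 r K (fun R => M (ρ R c)) l fun j => O j c := fun c =>
    ⟨fun j g g' a b Z _ => by rw [(hM c).add j g g' a b, add_mul, map_add], h.loc c, (hM c).lim⟩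
  have a2 : App2 r K (fun R => M (ρ R c₀)) l fun _ g => X g := by
    refine ⟨fun j g g' a b Z hZ => by simpa using hL g g' 1 a.1 a.2.1 b.1 b.2.1 Z hZ,
      fun U g _ hg => .of_forall fun _ => ?_, fun R v r1 d hd g hg => ?_⟩
    · simpa [mon] using mon_mem (f := fun _ : Fin 1 => g) ⟨fun _ => ⟨hg.1, hg.2.1⟩,
        fun i j e => absurd (Subsingleton.elim i j) e⟩ fun _ => hg.2.2
    obtain ⟨A, b1, b2⟩ := (hM c₀).lim 1 0 dt_one d hd g hg
    simp only [LinearIsometryEquiv.coe_one, id, add_zero, act_one, net.τ_zero, ρ1] at b1 b2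
    obtain ⟨m, m1, m2⟩ := (b1.and (h0 d hd g hg 1 one_pos)).exists
    have o := m1.sub (ob m2)
    rw [sub_sub_cancel] at o
    refine ⟨fun _ => _, .of_forall fun _ => by simpa [Ro.act_X, B2.τ_X] using o, ?_⟩
    rw [ρ0 R r1]
    refine lim_of (fun η η0 => .of_forall fun _ => ?_) b2
    filter_upwards [b1, h0 d hd g hg η η0] with j e1 e2
    rw [norm_sub_rev, (e1.sub o).eq (ob e2)]
    exact B1.Op_le r hS (hD _) e2
  induction hY using Submodule.span_induction with
  | mem Y hY =>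
    obtain ⟨k, f, q, f1, f2, rfl⟩ := hY
    choose c e using fun i => (f2 i).2
    obtain rfl : (fun i => X (c i, f i)) = q := funext e
    induction hZ using Submodule.span_induction with
    | mem Z hZ =>
      obtain ⟨n, g, g1, g2, rfl⟩ := hZ
      obtain ⟨w, hw⟩ := conv2 (r := r) (l := l) hS hR h.one
        (Fin.append (fun i R => M (ρ R (c i))) fun _ R => M (ρ R c₀))
        (f1.append g1 fun i j => hU.mono (f2 i).1 (g2 j))
      have := (hw (Fin.append (fun i j => O j (c i)) fun _ j => O j c₀)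
        (YM5.forall_append₂ (P := fun M Φ => App2 r K M l Φ) (fun i => a1 _) fun _ => a1 _)).sub
        (hw (Fin.append (fun i j => O j (c i)) fun _ _ g => X g)
        (YM5.forall_append₂ (P := fun M Φ => App2 r K M l Φ) (fun i => a1 _) fun _ => a2))
      simpa [Fin.prod_univ_add, sub, emb, mon] using this
    | zero => simp
    | add X Y _ _ a b => simpa only [mul_add, map_add, add_zero, add_sub_add_comm] using a.add b
    | smul c X _ a =>
      simpa only [map_smul, mul_smul_comm, smul_zero, smul_sub] using a.const_smul c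
  | zero => simp
  | add X Y _ _ a b => simpa only [add_mul, map_add, add_zero, add_sub_add_comm] using a.add b
  | smul c X _ a =>
    simpa only [map_smul, smul_mul_assoc, smul_zero, smul_sub] using a.const_smul c

theorem sub_theta (h : Inl W K θ ρ l O) (hθ : Inv4 θ) (j : ι) (μ : Fin 4) {U : Set R4} {Y : PolL V}
    (hY : Y ∈ (netL hθ).loc U) : net.Θ μ (sub (O j) Y) = sub (O j) ((netL hθ).Θ μ Y) := by
  induction hY using Submodule.span_induction with
  | mem Y hY =>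
    obtain ⟨k, f, q, f1, f2, rfl⟩ := hY
    simp only [map_prod]
    refine Finset.prod_congr rfl fun i _ => ?_
    obtain ⟨c, e⟩ := (f2 i).2
    rw [← e, (gen_netL hθ).refl, sub, aeval_X, aeval_X]
    exact h.refl _ _ _ _ ⟨(f1.1 i).1, (f1.1 i).2, subset_univ _⟩
  | zero => simp
  | add X Y _ _ a b => simp only [map_add, a, b]
  | smul c X _ a => simp only [map_smul, Net.Θ_smul, a]

theorem emb_theta (hθ : Inv4 θ) {μ : Fin 4} (θ0 : θ μ c₀ = c₀) (Z : Pol) :
    (netL hθ).Θ μ (emb c₀ Z) = emb c₀ (net.Θ μ Z) := by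
  change thL θ μ _ = emb c₀ (thP μ Z)
  simp only [thL, thP, emb, RingHom.comp_apply, map_rename, AlgHom.toRingHom_eq_coe,
    RingHom.coe_coe, rename_rename, Function.comp_def, θ0]

/-- the extension of the functional and of its representation to the fields with labels -/
theorem exists_lab2 [l.NeBot] (h : Inl W K θ ρ l O) (hθ : Inv4 θ) (hS : net.St W) (hR : Rot W)
    (hL : LinP W) (ρ1 : ∀ c, ρ 1 c = c)
    (ρ2 : ∀ R Q c, dt R = 1 → dt Q = 1 → ρ (R * Q) c = ρ R (ρ Q c))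
    (ρ0 : ∀ R, dt R = 1 → ρ R c₀ = c₀) (θ0 : θ 0 c₀ = c₀) (h0 : Bas W K l fun j => O j c₀)
    (r : net.Rep W 0 H) {E : C4 → H →L[ℂ] H} (hE : Tub E)
    (hT : ∀ v : R4, 0 ≤ v 0 → E (euc v) = r.T v) :
    ∃ W' r', Outl W r K ρ l (netL hθ) (fun c f => X (c, f)) (fun j => sub (O j)) W' r' ∧
      (∀ Z ∈ net.loc univ, W' (emb c₀ Z) = W Z) ∧
      (∀ Z ∈ net.loc (Hs 0 0), r'.Ψ (emb c₀ Z) = r.Ψ Z) ∧
      ∀ U U', Disjoint U U' → ∀ Y ∈ (netL hθ).loc U, ∀ Z ∈ net.loc U',
        Tendsto (fun j => W (sub (O j) Y * Z)) l (𝓝 (W' (Y * emb c₀ Z))) := by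
  have m0 := fun {U U'} d {Y} y {Z} z => mix0 (U := U) (U' := U') (Y := Y) (Z := Z) h hθ hS hR hL
    ρ1 ρ0 h0 r (B1.rs r hE hT) d y z
  have m1 : ∀ Z ∈ net.loc univ, Tendsto (fun j => W (sub (O j) (emb c₀ Z))) l (𝓝 (W Z)) :=
    fun Z hZ => by
      simpa using (m0 (empty_disjoint _) ((netL hθ).one _) hZ).add_const (W Z)
  have m2 : ∀ Z ∈ net.loc (Hs 0 0),
      Tendsto (fun j => r.Ψ (sub (O j) (emb c₀ Z))) l (𝓝 (r.Ψ Z)) := fun Z hZ => by
    have d : Disjoint {y | rf 0 y ∈ Hs 0 0} (Hs 0 0) := disjoint_left.2 fun y e e' => by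
      simp only [Hs, mem_ofPred_eq, rf_self] at e e'
      linarith
    have t := net.Θ_mem 0 hZ
    have e1 := m0 d (emb_mem hθ c₀ t) hZ
    have e2 := m0 d.symm (emb_mem hθ c₀ hZ) t
    have e3 := m1 _ (Net.rp_adm hZ hZ)
    have e4 := ((Complex.continuous_re.tendsto _).comp
      ((e1.add e2).sub (e3.sub_const (W (net.Θ 0 Z * Z))))).congr'
      (f₂ := fun j => ‖r.Ψ (sub (O j) (emb c₀ Z)) - r.Ψ Z‖ ^ 2) (by
        filter_upwards [NP.snd (isOpen_Hs 0 0) (NP.lift (h := h) (hN := gen_netL hθ)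
          (κ := fun j => sub (O j)) (fun j c f => aeval_X _ _) tendsto_id (emb_mem hθ c₀ hZ))]
          with j e
        rw [id] at e
        rw [← map_sub, ← r.nq (Submodule.sub_mem _ e hZ), Net.nq, map_sub,
          sub_theta h hθ j 0 (emb_mem hθ c₀ hZ), emb_theta hθ θ0]
        simp only [comp_apply, map_mul, sub_mul, mul_sub, map_sub]
        congr 1
        rw [mul_comm (sub (O j) (emb c₀ Z)) (sub (O j) _), mul_comm (sub (O j) (emb c₀ Z))]
        ring)
    rw [tendsto_iff_norm_sub_tendsto_zero]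
    simpa using e4.sqrt
  obtain ⟨W', r', o⟩ := exists_out h (gen_netL hθ) hS hR ρ1 ρ2 r (B1.rs r hE hT)
    (κ := fun j => sub (O j)) (fun j c f => aeval_X _ _)
    fun Z hZ => ⟨_, emb_mem hθ c₀ hZ, m2 Z hZ⟩
  refine ⟨W', r', o, fun Z hZ => tendsto_nhds_unique (o.lim _ (emb_mem hθ c₀ hZ)) (m1 Z hZ),
    fun Z hZ => tendsto_nhds_unique (o.vec _ (emb_mem hθ c₀ hZ)) (m2 Z hZ),
    fun U U' d Y hY Z hZ => ?_⟩
  simpa using (o.lim _ (Net.adm ((netL hθ).mul hY (emb_mem hθ c₀ hZ) d))).sub (m0 d hY hZ)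

end Pool.Agent.Lib.MP_7f377f_mp.Lm
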