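import Pool.Agent.Lib.MP_7f377f_mp.G.Q4Num
import Pool.Agent.Lib.MP_7f377f_mp.G.Q4MeasTT
import Pool.Agent.Lib.MP_7f377f_mp.G.Q4BudC
import Pool.Agent.Lib.MP_7f377f_mp.G.Q4BudG

/-! The expansion of the integrand of one step. -/

noncomputable section

set_option linter.unusedSectionVars false
variable [Pool.Agent.Lib.MP_7f377f_mp.GD]

namespace Pool.Agent.Lib.MP_7f377f_mp.RG.Q4

open Finset MeasureTheory
open scoped Classical

attribute [local irreducible] box lbox tb tau rc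

namespace Xp

theorem sum_pow {α β M : Type} [AddCommMonoid M] (s : Finset α) (t : Finset β)
    (F : Finset (α ⊕ β) → M) :
    ∑ O ∈ (s.disjSum t).powerset, F O = ∑ a ∈ s.powerset, ∑ b ∈ t.powerset, F (a.disjSum b) := by
  rw [← sum_product']
  refine sum_bij' (fun O _ => (O.toLeft, O.toRight)) (fun q _ => q.1.disjSum q.2) (fun O hO => ?_)
    (fun q hq => ?_) (fun O _ => toLeft_disjSum_toRight) (fun q _ => by simp) fun O _ => by
      rw [toLeft_disjSum_toRight]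
  · simpa only [mem_product, mem_powerset, subset_disjSum] using hO
  · simp only [mem_product, mem_powerset] at hq ⊢
    exact disjSum_mono hq.1 hq.2

theorem ne_filter {α : Type} {s t : Finset α} {P : α → Prop} [DecidablePred P] (h : t ⊆ s)
    (h' : t ≠ s.filter P) : ∃ y ∈ s, ¬ (y ∈ t ↔ P y) := by
  by_contra! h1
  exact h' (Finset.ext fun y => by rw [mem_filter]; exact ⟨fun h2 => ⟨h h2, (h1 y (h h2)).1 h2⟩,
    fun h2 => (h1 y h2.1).2 h2.2⟩)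

theorem chi_cases (p : Pa) (U : Conf) (x : St) : chi p U x = 0 ∨ chi p U x = 1 := by
  unfold chi
  split_ifs <;> simp

theorem chi_ne {p : Pa} {U : Conf} {x : St} : chi p U x ≠ 0 ↔ Fq (p.R + 1) p.ε (sh x U) := by
  unfold chi
  split_ifs with h <;> simp [h]

variable {S : Sd} {ψ : Lx} {K : Ac} {W : Conf} {v : VB} {O : Finset Ob} {y : St}

/-- the representation as a sum over families of old polymers -/
theorem Rep_eq (hn : Odd S.n) {U : Conf} (hU : pc S.nf U = U) : Rep S.p S.nf (S.Φ ψ) K U =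
    ∑ O ∈ (lps (box (S.nf / 2))).powerset,
      (if (O : Set (LP St)).PairwiseDisjoint (fun o => o.1) then ∏ o ∈ O, K o.1 o.2 U else 0) *
        ∏ y ∈ S.Λ', S.Ib ψ ((O.biUnion fun o => o.2).biUnion id) U y := by
  rw [Rep, ZL, hU, Zp_labels _ fams (fun c => c.biUnion id) fun _ _ => fams_sub]
  refine sum_congr rfl fun O _ => ?_
  split_ifs
  · rw [sdiff_eq_filter, prod_filter, Sd.nf, Mx.prod_sites hn, biUnion_biUnion]
    simp only [Sd.Ib, prod_filter, Sd.Λ']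
  · rw [zero_mul]

theorem sp_sub (hn : Odd S.n) : us S.sp O ⊆ S.Λ' := us_sub.2 fun _ _ => tb_dom hn

theorem lab_sub : (S.lab W O).biUnion id ⊆ S.Oh O :=
  ncs_sub.trans (tb_mono subset_union_left (by omega))

theorem Oh_sub (hn : Odd S.n) : S.Oh O ⊆ S.Λ' := tb_dom hn

theorem rc_dom (hn : Odd S.n) (hy : y ∈ S.Λ') : rc S.n y = y := rc_eq hn hy

theorem mem_sp (hn : Odd S.n) {o : Ob} (ho : o ∈ O) (hy : y ∈ S.Λ') (h : y ∈ S.bs o) :
    y ∈ us S.sp O := mem_us.2 ⟨o, ho, mem_tb.2 ⟨rc_dom hn hy, y, h, nearT.refl _ _ _⟩⟩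

/-- the marks -/
theorem sum_marks (Ω : Finset St) : ∑ M ∈ S.mks.powerset, ∏ m ∈ M, S.jm ψ K W v Ω m =
    (∏ y ∈ S.Λ', (if y ∈ Ω then 1 else
      (1 + S.fm (S.ψy ψ y) (sh y (cC W)) (sh (up S.l y) (vz S.l v))) *
        Complex.exp (-∑ X ∈ S.X1s, S.Fs (S.Ky K y) X (Bx y (cC W)))) *
      Complex.exp (∑ u ∈ S.prs, S.c2 u / 2)) * ∏ Z ∈ S.Λ'.powerset.erase ∅, (1 + S.dZ W Z) := by
  rw [← prod_one_add, Sd.mks, prod_disjSum, prod_disjSum, prod_disjSum, prod_product, prod_product,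
    ← mul_assoc, ← mul_assoc, ← prod_mul_distrib, ← prod_mul_distrib]
  refine congrArg₂ _ (prod_congr rfl fun y _ => ?_) rfl
  simp only [Sd.jm, add_sub_cancel, ← sum_neg_distrib, Complex.exp_sum]
  split_ifs
  · simp
  · simp only [add_sub_cancel]
    ring

theorem sh_rc (hW : Per S.n W) (x : St) : sh (rc S.n x) W = sh x W := by
  obtain ⟨w, hw⟩ := rc_exists S.n x
  rw [hw, ← sh_sh, hW.sh_smul]

/-- large block fields lie in the new cores -/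
theorem wk_sub (h0 : S.Ok) (hW : Per S.n W) (h : ∀ y, y ∈ Wk O ↔ y ∈ S.Λ' ∧ chi S.p' W y = 0) :
    Wk O ⊆ (S.lab W O).biUnion id := by
  intro y hy
  by_contra h1
  have k : ∀ y ∈ Wk O, y ∈ zsp S.l S.n (3 * S.D0) (.inr y) := fun y hy =>
    sub_tb (by simpa [pb] using rc_dom h0.odd ((h y).1 hy).1) (mem_singleton_self y)
  obtain ⟨hh, h1, h2, h3⟩ := healed_of (o := .inr y) (by simpa using hy) (k y hy) h1
  have h4 := chi_ne.not.1 (not_not.2 ((h y).1 hy).2)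
  simp only [Fq, not_forall, not_le] at h4
  obtain ⟨x, hx, μ, ν, h4⟩ := h4
  have h5 : S.p'.ε < fq (sh (rc S.n (x + y)) W) 0 μ ν := by
    rw [sh_rc hW, ← sh_sh, Mx.fq_sh, zero_add]
    exact h4
  have h6 : rc S.n (x + y) ∈ Wk O := (h _).2 ⟨rc_mem h0.odd _, not_not.1 fun h7 =>
    h5.not_ge (chi_ne.1 h7 0 (zero_mem_box _) μ ν)⟩
  have h7 := h3 _ (comp_closed h1 h2 (o' := .inr (rc S.n (x + y))) (by simpa using h6) (zsp_meet
    (mem_singleton_self y) (mem_singleton_self _) ((nearT_rc_right.2 (add_comm y x ▸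
      nearT_add hx)).mono (show 4 * S.D0 + 1 ≤ _ by have := Sd.D1 S.toTd; omega)))) _ (k _ h6)
  rw [Mx.fq_sh, zero_add, Sd.p'_ε] at h5
  have := mul_le_mul_of_nonneg_right (S.Qw one_le_two) h0.g'0.le
  rw [pow_one, ← Sd.ε2_eq] at this
  linarith [fq_le_fs W (rc S.n (x + y)) μ ν]

theorem calm_of (hn : Odd S.n) (hW : Per S.n W) (hv : PS S.n v)
    (h1 : ∀ y ∈ S.Λ', y ∉ Wk O → chi S.p' W y ≠ 0)
    (h2 : ∀ y ∈ S.Λ', y ∉ Dbl O → gd S.l S.ζ (v y) ≠ 0) (hy : y ∈ S.Λ') (h : y ∉ S.Oh O) :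
    S.Calm W v y := fun u hu => by
  have h3 : rc S.n (u + y) ∉ Hh S.l S.n (CC O) (Wk O) ∪ Dbl O := fun h3 =>
    h (mem_tb.2 ⟨rc_dom hn hy, _, h3, (nearT_rc_right.2 (add_comm y u ▸ nearT_add hu)).symm.mono
      (by omega)⟩)
  simp only [Hh, mem_union, not_or] at h3
  refine ⟨sh_rc hW _ ▸ chi_ne.1 (h1 _ (rc_mem hn _) h3.1.2), ?_⟩
  obtain ⟨w, hw⟩ := rc_exists S.n (u + y)
  rw [← hv _ w, ← hw]
  exact (Cov.gd_cases _ _ _).resolve_left (h2 _ (rc_mem hn _) h3.2)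

theorem Ib_free (hn : Odd S.n) (hy : y ∈ S.Λ') (h : y ∉ S.Oh O) (U : Conf) :
    S.Ib ψ ((CC O).biUnion id) U y = S.Ib ψ ∅ U y := by
  refine prod_congr (filter_congr fun x hx => iff_of_true (fun h1 => ?_) (notMem_empty _))
    fun _ _ => rfl
  obtain ⟨C, hC, h1⟩ := mem_biUnion.1 h1
  refine h (mem_tb.2 ⟨rc_dom hn hy, y, mem_union_left _ (mem_union_left _ (mem_biUnion.2
    ⟨C, hC, mem_image.2 ⟨_, h1, ?_⟩⟩)), nearT.refl _ _ _⟩)
  rw [Mx.yo_blk hx, rc_dom hn hy]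

theorem p0_pos (h : S.Ok) : 0 < S.p0 := Cov.cgd_pos _ S.Q0 (zn_pos (S.Q0.trans_le h.ζ_zm))

theorem C0_pos (h : S.Ok) : 0 < S.C0 :=
  pow_pos (mul_pos (mul_pos cHa_pos (pow_pos h.gt0 _)) (zn_pos S.Q0)) _

/-- the identity in the calm region -/
def CalmId (S : Sd) (ψ : Lx) (K : Ac) (W : Conf) (v : VB) (y : St) : Prop :=
  S.Gn (sh y W) (shv y v) * S.Ib ψ ∅ (S.Uv W v) y =
    Complex.exp (S.cX (S.ψy ψ y) (S.Ky K y) - S.Φ' ψ K y (Bx y (cC W))) *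
      ((1 + S.fm (S.ψy ψ y) (sh y (cC W)) (sh (up S.l y) (vz S.l v))) *
        Complex.exp (-∑ X ∈ S.X1s, S.Fs (S.Ky K y) X (Bx y (cC W))))

/-- the full integrand of a family of objects -/
def TO (S : Sd) (ψ : Lx) (K : Ac) (W : Conf) (v : VB) (O : Finset Ob) : ℂ :=
  S.wf W O * (S.FO ψ K W O v * ∏ y ∈ S.Λ' \ us S.sp O, ((gd S.l S.ζ (v y) / S.p0 : ℝ) : ℂ)) *
    ∏ y ∈ S.Λ' \ (S.lab W O).biUnion id, Ix S.p' (S.Φ' ψ K) W y

theorem mem_Dbl : y ∈ Dbl O ↔ .inl (.inr (.inl y)) ∈ O := by simp [Dbl]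

/-- the factors which do not depend on the marks -/
def TN (S : Sd) (ψ : Lx) (K : Ac) (W : Conf) (v : VB) (O : Finset Ob) : ℂ :=
  (if (olds O : Set (LP St)).PairwiseDisjoint (fun o => o.1) then
    ∏ o ∈ olds O, K o.1 o.2 (S.Uv W v) else 0) * (S.wf W O * (∏ y ∈ S.Λ', S.df v O y) *
      ((∏ y ∈ S.Oh O, S.hf ψ K W v O y) *
        ∏ y ∈ S.Λ' \ (S.lab W O).biUnion id, Ix S.p' (S.Φ' ψ K) W y))

theorem TO_eq (hn : Odd S.n) (hD : Dbl O ⊆ S.Λ') : TO S ψ K W v O =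
    (∏ m ∈ O.toRight, S.jm ψ K W v (S.Oh O) m) * TN S ψ K W v O := by
  rw [TO, TN, Sd.FO, ← prod_sdiff (sp_sub (O := O) hn) (f := S.df v O),
    prod_congr (s₂ := S.Λ' \ us S.sp O) rfl (g := S.df v O) fun y hy => by
      rw [Sd.df, if_neg fun h => (mem_sdiff.1 hy).2
        (mem_sp hn (mem_Dbl.1 h) (hD h) (mem_singleton_self y))]]
  ring

theorem ind_zero (h : (∃ y ∈ S.Λ', ¬ (y ∈ Dbl O ↔ gd S.l S.ζ (v y) = 0)) ∨
    ∃ y ∈ S.Λ', ¬ (y ∈ Wk O ↔ chi S.p' W y = 0)) (x : ℂ) :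
    S.wf W O * (∏ y ∈ S.Λ', S.df v O y) *
      (x * ∏ y ∈ S.Λ' \ (S.lab W O).biUnion id, Ix S.p' (S.Φ' ψ K) W y) = 0 := by
  rcases h with ⟨y, hy, h⟩ | ⟨y, hy, h⟩
  · rw [prod_eq_zero hy, mul_zero, zero_mul]
    rcases Cov.gd_cases S.l S.ζ (v y) with e | e <;> simp_all [Sd.df]
  · by_cases h1 : y ∈ Wk O
    · rw [Sd.wf, prod_eq_zero h1, zero_mul, zero_mul, zero_mul]
      rcases chi_cases S.p' W y with e | e <;> simp_all
    · have e : chi S.p' W y = 0 := by tauto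
      by_cases h2 : y ∈ (S.lab W O).biUnion id
      · rw [Sd.wf, prod_eq_zero (mem_sdiff.2 ⟨h2, h1⟩) e, mul_zero, zero_mul, zero_mul]
      · rw [prod_eq_zero (mem_sdiff.2 ⟨hy, h2⟩), mul_zero, mul_zero]
        rw [Ix, e, zero_mul]

/-- the blocks -/
theorem main_term (h0 : S.Ok) (hW : Per S.n W) (hv : PS S.n v)
    (hc : ∀ y ∈ S.Λ', S.Calm W v y → CalmId S ψ K W v y)
    (h1 : ∀ y, y ∈ Wk O ↔ y ∈ S.Λ' ∧ chi S.p' W y = 0)
    (h2 : ∀ y, y ∈ Dbl O ↔ y ∈ S.Λ' ∧ gd S.l S.ζ (v y) = 0) :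
    Complex.exp (∑ y ∈ S.Λ', S.Ey ψ K y) * ((∏ y ∈ S.Λ', (if y ∈ S.Oh O then 1 else
      (1 + S.fm (S.ψy ψ y) (sh y (cC W)) (sh (up S.l y) (vz S.l v))) *
        Complex.exp (-∑ X ∈ S.X1s, S.Fs (S.Ky K y) X (Bx y (cC W)))) *
      Complex.exp (∑ u ∈ S.prs, S.c2 u / 2)) * (S.wf W O * (∏ y ∈ S.Λ', S.df v O y) *
      ((∏ y ∈ S.Oh O, S.hf ψ K W v O y) *
        ∏ y ∈ S.Λ' \ (S.lab W O).biUnion id, Ix S.p' (S.Φ' ψ K) W y))) =
    (∏ y ∈ S.Λ', S.Ib ψ ((CC O).biUnion id) (S.Uv W v) y) *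
      ∏ y ∈ S.Λ', ((S.C0 / (S.p0 * (∫ g, hk0 (S.β * S.L ^ 2) g ∂haar) ^ 4) : ℝ) : ℂ) *
        S.Gn (sh y W) (shv y v) := by
  have hn := h0.odd
  have c1 : ∀ y ∈ S.Λ', y ∉ Wk O → chi S.p' W y = 1 := fun y hy h =>
    (chi_cases _ _ _).resolve_left fun e => h ((h1 y).2 ⟨hy, e⟩)
  have e1 : S.wf W O = 1 := by
    rw [Sd.wf, prod_eq_one fun y hy => by rw [((h1 y).1 hy).2, sub_zero], prod_eq_one fun y hy =>
      c1 y (Oh_sub hn (lab_sub (mem_sdiff.1 hy).1)) (mem_sdiff.1 hy).2, one_mul]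
  rw [e1, one_mul, Complex.exp_sum, ← inter_eq_right.2 (Oh_sub (O := O) hn), ← prod_ite_mem,
    inter_eq_right.2 (Oh_sub hn), sdiff_eq_filter, prod_filter]
  simp only [← prod_mul_distrib]
  refine prod_congr rfl fun y hy => ?_
  have e2 : S.df v O y = (S.p0 : ℂ)⁻¹ := by
    rcases Cov.gd_cases S.l S.ζ (v y) with e | e <;> simp [Sd.df, h2, hy, e]
  have e3 : (if y ∉ (S.lab W O).biUnion id then Ix S.p' (S.Φ' ψ K) W y else 1) = Complex.exp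
      (-if y ∈ (S.lab W O).biUnion id then 0 else S.Φ' ψ K y (Bx y (cC W))) := by
    by_cases h : y ∈ (S.lab W O).biUnion id
    · rw [if_neg (not_not.2 h), if_pos h, neg_zero, Complex.exp_zero]
    · rw [if_pos h, if_neg h, Ix, c1 y hy fun h' => h (wk_sub h0 hW h1 h'), one_mul]
  have e4 : Complex.exp (S.Ey ψ K y) * Complex.exp (∑ u ∈ S.prs, S.c2 u / 2) * (S.p0 : ℂ)⁻¹ =
      ((S.C0 / (S.p0 * (∫ g, hk0 (S.β * S.L ^ 2) g ∂haar) ^ 4) : ℝ) : ℂ) *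
        Complex.exp (S.cX (S.ψy ψ y) (S.Ky K y)) := by
    rw [← Complex.exp_add, Sd.Ey, sub_add_cancel, Complex.exp_add, ← Complex.ofReal_exp,
      Real.exp_log (div_pos (C0_pos h0) (pow_pos (Mx.Z_pos _) _))]
    push_cast
    ring
  rw [e2, e3]
  generalize ((S.C0 / (S.p0 * (∫ g, hk0 (S.β * S.L ^ 2) g ∂haar) ^ 4) : ℝ) : ℂ) = c at e4 ⊢
  by_cases h : y ∈ S.Oh O
  · rw [if_pos h, if_pos h, Sd.hf]
    generalize (if y ∈ (S.lab W O).biUnion id then 0 else S.Φ' ψ K y (Bx y (cC W))) = b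
    generalize S.cX (S.ψy ψ y) (S.Ky K y) = a at e4 ⊢
    have e5 : Complex.exp a * (Complex.exp (-a + b) * Complex.exp (-b)) = 1 := by
      rw [← Complex.exp_add, ← Complex.exp_add, ← Complex.exp_zero]
      congr 1
      ring
    linear_combination (S.Gn (sh y W) (shv y v) * S.Ib ψ ((CC O).biUnion id) (S.Uv W v) y) *
      ((Complex.exp (-a + b) * Complex.exp (-b)) * e4 + c * e5)
  · have e5 := hc y hy (calm_of hn hW hv (fun y hy h => by rw [c1 y hy h]; exact one_ne_zero)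
      (fun y hy h e => h ((h2 y).2 ⟨hy, e⟩)) hy h)
    rw [CalmId, sub_eq_add_neg, Complex.exp_add] at e5
    rw [if_neg h, if_neg h, if_neg fun h' => h (lab_sub h'), Ib_free hn hy h]
    generalize (1 + S.fm (S.ψy ψ y) (sh y (cC W)) (sh (up S.l y) (vz S.l v))) *
      Complex.exp (-∑ X ∈ S.X1s, S.Fs (S.Ky K y) X (Bx y (cC W))) = b at e5 ⊢
    linear_combination (b * Complex.exp (-S.Φ' ψ K y (Bx y (cC W)))) * e4 - c * e5

/-- the expansion, given the identity in the calm region -/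
theorem expand_of (h0 : S.Ok) (hW : Per S.n W) (hv : PS S.n v)
    (hU : pc S.nf (S.Uv W v) = S.Uv W v) (hc : ∀ y ∈ S.Λ', S.Calm W v y → CalmId S ψ K W v y) :
    S.IT (Rep S.p S.nf (S.Φ ψ) K) W v =
      Complex.exp (∑ y ∈ S.Λ', S.Ey ψ K y) * ∑ O ∈ S.obs.powerset, TO S ψ K W v O := by
  have hn := h0.odd
  rw [Sd.IT, Rep_eq hn hU, Sd.obs, sum_pow, sum_pow, sum_mul, sum_mul, mul_sum]
  refine sum_congr rfl fun O1 _ => ?_
  have e : ∀ D ∈ S.Λ'.powerset, ∀ Wm, ∑ M ∈ S.mks.powerset,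
      TO S ψ K W v ((O1.disjSum (D.disjSum Wm)).disjSum M) =
      (∑ M ∈ S.mks.powerset, ∏ m ∈ M, S.jm ψ K W v (S.Oh ((O1.disjSum (D.disjSum Wm)).disjSum ∅)) m) *
        TN S ψ K W v ((O1.disjSum (D.disjSum Wm)).disjSum ∅) := fun D hD Wm => by
    rw [sum_mul]
    refine sum_congr rfl fun M _ => ?_
    rw [TO_eq hn (by simpa [Dbl] using hD)]
    simp only [TN, Sd.wf, Sd.df, Sd.hf, Sd.Oh, Sd.lab, CC, olds, Wk, Dbl, toRight_disjSum,
      toLeft_disjSum]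
  rw [sum_pow, sum_congr rfl fun D hD => sum_congr rfl fun Wm _ => e D hD Wm,
    sum_eq_single_of_mem (S.Λ'.filter fun y => gd S.l S.ζ (v y) = 0)
      (mem_powerset.2 (filter_subset _ _)) fun D hD h => sum_eq_zero fun Wm _ => ?_,
    sum_eq_single_of_mem (S.Λ'.filter fun y => chi S.p' W y = 0)
      (mem_powerset.2 (filter_subset _ _)) fun Wm hm h => ?_]
  · have := main_term (O := (O1.disjSum ((S.Λ'.filter fun y => gd S.l S.ζ (v y) = 0).disjSum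
      (S.Λ'.filter fun y => chi S.p' W y = 0))).disjSum ∅) h0 hW hv hc (by simp [Wk]) (by simp [Dbl])
    rw [sum_marks, TN]
    simp only [CC, olds, toLeft_disjSum] at this ⊢
    linear_combination (-(if (O1 : Set (LP St)).PairwiseDisjoint (fun o => o.1) then
      ∏ o ∈ O1, K o.1 o.2 (S.Uv W v) else 0) * ∏ Z ∈ S.Λ'.powerset.erase ∅, (1 + S.dZ W Z)) * this
  · rw [TN, ind_zero (.inr ?_), mul_zero, mul_zero]
    simpa [Wk] using ne_filter (mem_powerset.1 hm) h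
  · rw [TN, ind_zero (.inl ?_), mul_zero, mul_zero]
    simpa [Dbl] using ne_filter (mem_powerset.1 hD) h

end Xp

end Pool.Agent.Lib.MP_7f377f_mp.RG.Q4
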