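import Pool.Agent.Lib.MP_7f377f_mp.G.Q4FlatC
import Pool.Agent.Lib.MP_7f377f_mp.G.Q4Exp

/-! Merging of sources: jets and the cluster identity. -/

noncomputable section

open Pool.Agent.Lib.MP_7f377f_mp.Jet

set_option linter.unusedSectionVars false
variable [Pool.Agent.Lib.MP_7f377f_mp.GD]

namespace Pool.Agent.Lib.MP_7f377f_mp.RG.Q4.En.Mg

open Finset Function Sg
open scoped Classical

section jets

variable {ι α : Type} [DecidableEq ι] {r : ι → ℝ} {M M' : ℝ} {g g' : (ι → ℂ) → ℂ}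
  {S S' T B A : Finset ι} {s : ι → ℂ} {i : ι}

/-- the jet in the variables `S` -/
def pS (S : Finset ι) (g : (ι → ℂ) → ℂ) : (ι → ℂ) → ℂ := S.toList.foldr Jet.pd g

@[simp] theorem pS_empty : pS ∅ g = g := by simp [pS]

theorem sh_pS (h : SH r M g) (S : Finset ι) : SH r (M / ∏ i ∈ S, r i) (pS S g) := by
  rw [← prod_map_toList]; exact h.fold S.toList

theorem hb_pS (h : Hb r g) (S : Finset ι) : Hb r (pS S g) := ⟨_, sh_pS h.choose_spec S⟩

theorem pS_union (h : Hb r g) (d : Disjoint S S') :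
    Set.EqOn (pS (S ∪ S') g) (pS S (pS S' g)) (Pd r) := by
  rw [pS, pS, pS, ← List.foldr_append]
  refine h.choose_spec.fold_perm ?_
  rw [← Multiset.coe_eq_coe, ← Multiset.coe_add, coe_toList, coe_toList, coe_toList,
    ← disjUnion_eq_union _ _ d]
  rfl

theorem jd_pS (h : Hb r g) (d : Disjoint T S) : jd T (pS S g) = jd (T ∪ S) g :=
  (pS_union h d h.choose_spec.zero).symm

theorem fold_mul (l : List ι) (e : ∀ i ∈ l, Ind i g') :
    l.foldr Jet.pd (fun s => g s * g' s) = fun s => l.foldr Jet.pd g s * g' s := by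
  induction l with
  | nil => rfl
  | cons i l ih =>
    funext s
    simp only [List.foldr_cons, ih fun j hj => e j (List.mem_cons_of_mem _ hj), Jet.pd,
      e i List.mem_cons_self s, deriv_mul_const_field]

theorem pS_mul (e : ∀ i ∈ S, Ind i g') :
    pS S (fun s => g s * g' s) = fun s => pS S g s * g' s :=
  fold_mul _ fun i hi => e i (mem_toList.1 hi)

theorem ind_pS (h : Ind i g) (S : Finset ι) : Ind i (pS S g) := by
  unfold pS
  induction S.toList with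
  | nil => exact h
  | cons j l ih => exact ih.pd j

theorem pS_congr (hr : ∀ i, 0 < r i) (e : Set.EqOn g g' (Pd r)) (S : Finset ι) :
    Set.EqOn (pS S g) (pS S g') (Pd r) := by
  unfold pS
  induction S.toList with
  | nil => exact e
  | cons j l ih => exact pd_congr hr ih

theorem pS_zero (S : Finset ι) : pS S (fun _ => 0) = fun _ => 0 := by
  simpa using pS_mul (S := S) (g := fun _ => 0) (g' := fun _ => 0) fun i _ => Ind.const i 0

theorem hb_sum (hr : ∀ i, 0 < r i) {X : Finset α} {f : α → (ι → ℂ) → ℂ} (h : ∀ x ∈ X, Hb r (f x)) :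
    Hb r fun s => ∑ x ∈ X, f x s := (Eqv.sum (A := ∅) hr fun x hx => (h x hx).refl).fst

theorem hb_prod (hr : ∀ i, 0 < r i) {X : Finset α} {f : α → (ι → ℂ) → ℂ} (h : ∀ x ∈ X, Hb r (f x)) :
    Hb r fun s => ∏ x ∈ X, f x s := (Eqv.prod (A := ∅) hr fun x hx => (h x hx).refl).fst

theorem hb_mul (h : Hb r g) (h' : Hb r g') : Hb r fun s => g s * g' s :=
  ⟨_, h.choose_spec.mul h'.choose_spec⟩

theorem hb_const (hr : ∀ i, 0 < r i) (c : ℂ) : Hb r fun _ => c := ⟨_, sh_const hr c⟩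

theorem hb_cut (h : Hb r g) (B : Finset ι) : Hb r fun s => g (cutS B s) :=
  ⟨_, sh_cut h.choose_spec B⟩

theorem hb_var (hr : ∀ i, 0 < r i) (i : ι) : Hb r fun s => s i :=
  ⟨_, by simpa using sh_lin hr {i} fun _ => 1⟩

theorem pS_sum (hr : ∀ i, 0 < r i) {X : Finset α} {f : α → (ι → ℂ) → ℂ} (h : ∀ x ∈ X, Hb r (f x))
    (S : Finset ι) :
    Set.EqOn (pS S fun s => ∑ x ∈ X, f x s) (fun s => ∑ x ∈ X, pS S (f x) s) (Pd r) := by
  unfold pS
  induction S.toList with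
  | nil => exact fun _ _ => rfl
  | cons j l ih => exact (pd_congr hr ih).trans fun s hs =>
      deriv_fun_sum fun x hx => ((h x hx).choose_spec.fold l).dAt hs j

theorem jd_hsum (hr : ∀ i, 0 < r i) {X : Finset α} {f : α → (ι → ℂ) → ℂ} (h : ∀ x ∈ X, Hb r (f x))
    (S : Finset ι) : jd S (fun s => ∑ x ∈ X, f x s) = ∑ x ∈ X, jd S (f x) :=
  pS_sum hr h S (zero_mem hr)

theorem pS_cut (e : S ⊆ B) : pS S (fun s => g (cutS B s)) = fun s => pS S g (cutS B s) := by
  have : ∀ l : List ι, (∀ i ∈ l, i ∈ B) →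
      l.foldr Jet.pd (fun s => g (cutS B s)) = fun s => l.foldr Jet.pd g (cutS B s) := fun l hl => by
    induction l with
    | nil => rfl
    | cons i l ih =>
      funext s
      simp only [List.foldr_cons, ih fun j hj => hl j (List.mem_cons_of_mem _ hj), Jet.pd,
        cut_in (hl i List.mem_cons_self)]
  exact this _ fun i hi => e (mem_toList.1 hi)

theorem jd_cut (e : T ⊆ B) : jd T (fun s => g (cutS B s)) = jd T g := by
  have := congrFun (pS_cut (g := g) e) 0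
  rwa [cut_zero] at this

theorem ind_cut {β : Type} (hi : i ∉ B) (g : (ι → ℂ) → β) : Ind i fun s => g (cutS B s) :=
  fun s t => by simp only [cut_out hi]

theorem ind_cut' {β : Type} {g : (ι → ℂ) → β} (h : Ind i g) : Ind i fun s => g (cutS B s) :=
  fun s t => by
    by_cases e : i ∈ B
    · simp only [cut_in e, h _ t]
    · simp only [cut_out e]

theorem cut_cut (e : A ⊆ B) : cutS A (cutS B s) = cutS A s := funext fun i => by
  by_cases h : i ∈ A <;> simp [cutS, h, @e i]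

theorem ma_cut {V : Type} [AddCommMonoid V] [Module ℂ V] (a : Finset ι → V) (e : B ⊆ A) :
    ma A a (cutS B s) = ma B a s := by
  rw [ma, ma, ← sum_subset (powerset_mono.2 e) fun T _ h => ?_]
  · exact sum_congr rfl fun T hT => congrArg (· • _) (prod_congr rfl fun i hi =>
      if_pos (mem_powerset.1 hT hi))
  · obtain ⟨i, h1, h2⟩ := not_subset.1 fun a => h (mem_powerset.2 a)
    rw [mon, prod_eq_zero h1 (if_neg h2), zero_smul]

theorem jd_var (h : Hb r g) (c : ι) (T : Finset ι) :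
    jd T (fun s => s c * g s) = if c ∈ T then jd (T.erase c) g else 0 := by
  obtain ⟨M, h⟩ := h
  obtain ⟨_, k⟩ := hb_mul (hb_var h.pos c) ⟨_, h⟩
  split_ifs with e
  · rw [← insert_erase e, k.jd_insert (notMem_erase _ _), erase_insert (notMem_erase _ _),
      ← jd_rs h (notMem_erase c T)]
    refine jd_congr h.pos (fun s hs => ?_) _
    simp only [Jet.pd, update_self, Jet.rs]
    rw [deriv_fun_mul differentiableAt_fun_id (h.dAt hs c)]
    simp
  · rw [← jd_rs k e, ← jd_zero T]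
    exact congrArg _ (funext fun s => by simp [Jet.rs])

variable {Ω : Type} [DecidableEq Ω]

/-- at most one word in each of the cells `T` -/
def Tv (cl : Ω → ι) (N : Finset Ω) (T : Finset ι) : Prop := Set.InjOn cl N ∧ N.image cl ⊆ T

variable {cl : Ω → ι} {N : Finset Ω} {ω : Ω}

theorem tv_insert (h : ω ∉ N) : Tv cl (insert ω N) T ↔ cl ω ∈ T ∧ Tv cl N (T.erase (cl ω)) := by
  simp only [Tv, coe_insert, Set.injOn_insert (show ω ∉ (N : Set Ω) from h), image_insert,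
    insert_subset_iff, subset_erase, ← coe_image, mem_coe]
  tauto

theorem tv_empty : Tv cl ∅ T := by simp [Tv]

theorem Tv.mono (h : Tv cl N T) {N' : Finset Ω} (e : N' ⊆ N) (e' : T ⊆ S) : Tv cl N' S :=
  ⟨h.1.mono e, ((image_subset_image e).trans h.2).trans e'⟩

/-- the weight of a set of words -/
def mw (cl : Ω → ι) (w : Ω → ℂ) (N : Finset Ω) (s : ι → ℂ) : ℂ := ∏ ω ∈ N, w ω * s (cl ω)

theorem hb_mw (hr : ∀ i, 0 < r i) (w : Ω → ℂ) : Hb r (mw cl w N) :=
  hb_prod hr fun _ _ => hb_mul (hb_const hr _) (hb_var hr _)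

theorem jd_mw (h : Hb r g) (w : Ω → ℂ) (N : Finset Ω) (T : Finset ι) :
    jd T (fun s => mw cl w N s * g s) =
      if Tv cl N T then (∏ ω ∈ N, w ω) * jd (T \ N.image cl) g else 0 := by
  have hr := h.choose_spec.pos
  induction N using Finset.induction_on generalizing T with
  | empty => simp [mw, tv_empty]
  | insert ω N hω ih =>
    have : (fun s => mw cl w (insert ω N) s * g s) =
        w ω • fun s => s (cl ω) * (mw cl w N s * g s) := funext fun s => by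
      simp only [mw, prod_insert hω, Pi.smul_apply, smul_eq_mul]; ring
    rw [this, jd_smul, jd_var (hb_mul (hb_mw hr w) h), ih, prod_insert hω, image_insert,
      erase_sdiff_comm, sdiff_insert]
    simp only [tv_insert hω]
    by_cases a : cl ω ∈ T <;> by_cases b : Tv cl N (T.erase (cl ω)) <;> simp [a, b, mul_assoc]

/-- products of sums over the words of the cells -/
theorem prod_cells (Ωs : Finset Ω) (y : ι → ℂ) (q : Ω → ℂ) (T : Finset ι) :
    ∏ c ∈ T, (y c + ∑ ω ∈ Ωs.filter (cl · = c), q ω) = ∑ N ∈ Ωs.powerset,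
      if Tv cl N T then (∏ ω ∈ N, q ω) * ∏ c ∈ T \ N.image cl, y c else 0 := by
  induction Ωs using Finset.induction_on generalizing T with
  | empty => simp [tv_empty]
  | insert ω Ωs hω ih =>
    rw [sum_powerset_insert hω, ← ih]
    have e : ∑ N ∈ Ωs.powerset, (if Tv cl (insert ω N) T then (∏ ω ∈ insert ω N, q ω) *
        ∏ c ∈ T \ (insert ω N).image cl, y c else 0) = if cl ω ∈ T then q ω *
        ∏ c ∈ T.erase (cl ω), (y c + ∑ ω ∈ Ωs.filter (cl · = c), q ω) else 0 := by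
      rw [ih, mul_sum]
      split_ifs with a
      · refine sum_congr rfl fun N hN => ?_
        have k : ω ∉ N := fun e => hω (mem_powerset.1 hN e)
        simp only [tv_insert k, a, true_and, prod_insert k, image_insert, erase_sdiff_comm,
          sdiff_insert, mul_ite, mul_zero, mul_assoc]
      · exact sum_eq_zero fun N hN => if_neg fun e =>
          a ((tv_insert fun e => hω (mem_powerset.1 hN e)).1 e).1
    have e' : ∀ c, c ≠ cl ω → (insert ω Ωs).filter (cl · = c) = Ωs.filter (cl · = c) :=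
      fun c h => by rw [filter_insert, if_neg h.symm]
    rw [e]
    split_ifs with a
    · rw [← mul_prod_erase _ _ a, ← mul_prod_erase T _ a, filter_insert, if_pos rfl,
        sum_insert fun e => hω (mem_filter.1 e).1,
        prod_congr rfl fun c hc => by rw [e' c (ne_of_mem_erase hc)]]
      ring
    · rw [add_zero]
      exact prod_congr rfl fun c hc => by rw [e' c fun e => a (e ▸ hc)]

end jets

section clus

variable {σ ι Ω : Type} [DecidableEq σ] [DecidableEq ι] [DecidableEq Ω]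

/-- the words: letters, cells, weights and supports -/
structure Wd (σ ι Ω : Type) where
  B : Finset ι
  Om : Finset Ω
  A : Ω → Finset ι
  cl : Ω → ι
  Z0 : Ω → Finset σ
  X0 : Ω → Finset σ

namespace Wd

variable (D : Wd σ ι Ω)

/-- supports of polymers and words -/
def sp : LP σ ⊕ Ω → Finset σ := Sum.elim (·.1) D.X0

/-- polymers and words -/
def obs (Λ : Finset σ) : Finset (LP σ ⊕ Ω) := (lps Λ).disjSum D.Om

/-- the letters which are present together with the words `N` -/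
def ad (N : Finset Ω) : Finset ι := N.biUnion D.A ∪ (D.B \ N.image D.cl)

/-- the geometry of the words -/
structure Ok (Λ : Finset σ) : Prop where
  sub : ∀ ω ∈ D.Om, D.Z0 ω ⊆ D.X0 ω ∧ (D.X0 ω).Nonempty ∧ D.X0 ω ⊆ Λ
  out : ∀ ω ∈ D.Om, Disjoint (D.A ω) D.B
  dis : ∀ ω ∈ D.Om, ∀ ω' ∈ D.Om, ω ≠ ω' → Disjoint (D.A ω) (D.A ω')
  cl : ∀ ω ∈ D.Om, D.cl ω ∈ D.B

end Wd

/-- the cores of a family -/
def lb (O : Finset (LP σ ⊕ Ω)) : Finset (Finset σ) := O.toLeft.biUnion (·.2)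

/-- the polymers are disjoint -/
def PD (O : Finset (LP σ ⊕ Ω)) : Prop := (O.toLeft : Set (LP σ)).PairwiseDisjoint (·.1)

variable (D : Wd σ ι Ω) (κ : (ι → ℂ) → Finset σ → Finset (Finset σ) → ℂ) (e : (ι → ℂ) → σ → ℂ)
  (η : Ω → (ι → ℂ) → ℂ) (w : Ω → ℂ)

/-- the factor of a family of polymers and words -/
def gam (O : Finset (LP σ ⊕ Ω)) (s : ι → ℂ) : ℂ :=
  (if PD O then ∏ o ∈ O.toLeft, κ s o.1 o.2 else 0) * (∏ ω ∈ O.toRight, η ω s) *
    ∏ x ∈ O.toRight.biUnion D.Z0 \ (lb O).biUnion id, e s x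

/-- its weight -/
def wO (s : ι → ℂ) (O : Finset (LP σ ⊕ Ω)) : ℂ :=
  mw D.cl w O.toRight s * pS (O.toRight.biUnion D.A) (gam D κ e η O) s

/-- the clusters with support `X` and cores `c` -/
def cs (Λ X : Finset σ) (c : Finset (Finset σ)) : Finset (Finset (LP σ ⊕ Ω)) :=
  (clus D.sp (D.obs Λ) X).filter (lb · = c)

/-- the data at a fixed field -/
structure Dat (Λ : Finset σ) (r : ι → ℝ) (I : (ι → ℂ) → σ → ℂ) : Prop where
  pos : ∀ i, 0 < r i
  hκ : ∀ X c, Hb r (κ · X c)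
  hI : ∀ x, Hb r (I · x)
  he : ∀ x, Hb r (e · x)
  hη : ∀ ω, Hb r (η ω)
  fac : ∀ s x, I s x = e s x * I (cutS D.B s) x
  lκ : ∀ ω ∈ D.Om, ∀ i ∈ D.A ω, ∀ X c, Disjoint (D.X0 ω) X → Ind i (κ · X c)
  lI : ∀ ω ∈ D.Om, ∀ i ∈ D.A ω, ∀ x ∈ Λ, x ∉ D.Z0 ω → Ind i (I · x) ∧ Ind i (e · x)
  lη : ∀ ω ∈ D.Om, ∀ i ∈ D.A ω, ∀ ω' ∈ D.Om, ω' ≠ ω → Ind i (η ω')

variable {D κ e η w} {r : ι → ℝ} {I : (ι → ℂ) → σ → ℂ} {Λ X : Finset σ} {s : ι → ℂ}
  {O O' : Finset (LP σ ⊕ Ω)} {T : Finset ι} {c : Finset (Finset σ)}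

theorem left_mem (h : O ⊆ D.obs Λ) {o : LP σ} (ho : o ∈ O.toLeft) : o ∈ lps Λ :=
  inl_mem_disjSum.1 (h (mem_toLeft.1 ho))

theorem right_mem (h : O ⊆ D.obs Λ) {ω : Ω} (ho : ω ∈ O.toRight) : ω ∈ D.Om :=
  inr_mem_disjSum.1 (h (mem_toRight.1 ho))

theorem left_sub {o : LP σ} (ho : o ∈ O.toLeft) : o.1 ⊆ us D.sp O :=
  sp_sub_us D.sp (mem_toLeft.1 ho)

theorem right_sub {ω : Ω} (ho : ω ∈ O.toRight) : D.X0 ω ⊆ us D.sp O :=
  sp_sub_us D.sp (mem_toRight.1 ho)

theorem lb_sub (h : O ⊆ D.obs Λ) : (lb O).biUnion id ⊆ us D.sp O :=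
  biUnion_subset.2 fun C hC => by
    obtain ⟨o, ho, a⟩ := mem_biUnion.1 hC
    exact ((mem_fams.1 (mem_lps.1 (left_mem h ho)).2.2).1 C a).trans (left_sub ho)

theorem lb_fams (h : O ⊆ D.obs Λ) (hp : PD O) : lb O ∈ fams (us D.sp O) := by
  have m := fun o ho => mem_fams.1 (mem_lps.1 (left_mem h (o := o) ho)).2.2
  refine mem_fams.2 ⟨fun C hC => (subset_biUnion_of_mem id hC).trans (lb_sub h), fun hC => ?_,
    fun C hC C' hC' ne => ?_⟩
  · obtain ⟨o, ho, a⟩ := mem_biUnion.1 hC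
    exact (m o ho).2.1 a
  · obtain ⟨o, ho, a⟩ := mem_biUnion.1 (mem_coe.1 hC)
    obtain ⟨o', ho', a'⟩ := mem_biUnion.1 (mem_coe.1 hC')
    by_cases k : o = o'
    · exact (m o ho).2.2 a (k ▸ a') ne
    · exact (hp ho ho' k).mono ((m o ho).1 C a) ((m o' ho').1 C' a')

theorem z0_sub (g : D.Ok Λ) (h : O ⊆ D.obs Λ) : O.toRight.biUnion D.Z0 ⊆ us D.sp O :=
  biUnion_subset.2 fun ω ho => (g.sub ω (right_mem h ho)).1.trans (right_sub ho)

theorem sp_ok (g : D.Ok Λ) : ∀ o ∈ D.obs Λ, (D.sp o).Nonempty ∧ D.sp o ⊆ Λ := by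
  rintro (o | ω) h
  · exact ⟨(mem_lps.1 (inl_mem_disjSum.1 h)).2.1, (mem_lps.1 (inl_mem_disjSum.1 h)).1⟩
  · exact (g.sub ω (inr_mem_disjSum.1 h)).2

theorem obj_disj (g : D.Ok Λ) (h : O ⊆ D.obs Λ) (d : Disjoint (us D.sp O) (us D.sp O')) :
    Disjoint O O' := disjoint_left.2 fun o a b =>
  let ⟨_, k⟩ := (sp_ok g o (h a)).1
  disjoint_left.1 d (sp_sub_us _ a k) (sp_sub_us _ b k)

theorem lb_union : lb (O ∪ O') = lb O ∪ lb O' := by rw [lb, toLeft_union, union_biUnion]; rfl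

theorem gam_union (g : D.Ok Λ) (h : O ⊆ D.obs Λ) (h' : O' ⊆ D.obs Λ)
    (d : Disjoint (us D.sp O) (us D.sp O')) :
    gam D κ e η (O ∪ O') = fun s => gam D κ e η O s * gam D κ e η O' s := funext fun s => by
  have d0 := obj_disj g h d
  have d1 : Disjoint O.toLeft O'.toLeft :=
    disjoint_left.2 fun o a b => disjoint_left.1 d0 (mem_toLeft.1 a) (mem_toLeft.1 b)
  have d2 : Disjoint O.toRight O'.toRight :=
    disjoint_left.2 fun o a b => disjoint_left.1 d0 (mem_toRight.1 a) (mem_toRight.1 b)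
  have p : PD (O ∪ O') ↔ PD O ∧ PD O' := by
    rw [PD, toLeft_union, coe_union, Set.pairwiseDisjoint_union]
    exact ⟨fun a => ⟨a.1, a.2.1⟩, fun a => ⟨a.1, a.2, fun o ho o' ho' _ =>
      d.mono (left_sub ho) (left_sub ho')⟩⟩
  have z : (O ∪ O').toRight.biUnion D.Z0 \ (lb (O ∪ O')).biUnion id =
      O.toRight.biUnion D.Z0 \ (lb O).biUnion id ∪ O'.toRight.biUnion D.Z0 \ (lb O').biUnion id := by
    rw [lb_union, toRight_union, union_biUnion, union_biUnion]
    ext y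
    have a1 := @lb_sub _ _ _ _ _ _ _ D Λ O h y
    have a2 := @lb_sub _ _ _ _ _ _ _ D Λ O' h' y
    have a3 := @z0_sub _ _ _ _ _ _ _ D Λ O g h y
    have a4 := @z0_sub _ _ _ _ _ _ _ D Λ O' g h' y
    have a5 := @disjoint_left.1 d y
    simp only [mem_sdiff, mem_union, not_or]
    exact ⟨fun a => a.1.imp (⟨·, a.2.1⟩) (⟨·, a.2.2⟩), fun a => a.elim
      (fun a => ⟨.inl a.1, a.2, fun b => a5 (a3 a.1) (a2 b)⟩)
      fun a => ⟨.inr a.1, fun b => a5 (a1 b) (a4 a.1), a.2⟩⟩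
  rw [gam, gam, gam, z, prod_union (d.mono (sdiff_subset.trans (z0_sub g h))
    (sdiff_subset.trans (z0_sub g h'))), toLeft_union, toRight_union, prod_union d1, prod_union d2]
  simp only [p]
  by_cases a : PD O <;> by_cases b : PD O' <;> simp only [a, b, and_self, and_true, and_false,
    if_true, if_false] <;> ring

theorem wO_empty : wO D κ e η w s ∅ = 1 := by
  have a : (∅ : Finset (LP σ ⊕ Ω)).toRight = ∅ := rfl
  have b : (∅ : Finset (LP σ ⊕ Ω)).toLeft = ∅ := rfl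
  simp [wO, mw, gam, PD, a, b]

/-- the letters of the jet `T` when the words `N` are present -/
def Wd.lt (D : Wd σ ι Ω) (N : Finset Ω) (T : Finset ι) : Finset ι :=
  T \ N.image D.cl ∪ N.biUnion D.A

theorem lt_sub {N : Finset Ω} (hT : T ⊆ D.B) : D.lt N T ⊆ D.ad N := by
  rw [Wd.lt, Wd.ad, union_comm]
  exact union_subset_union Subset.rfl (sdiff_subset_sdiff hT Subset.rfl)

theorem a_out (g : D.Ok Λ) {N : Finset Ω} (hN : N ⊆ D.Om) : Disjoint (N.biUnion D.A) D.B :=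
  (disjoint_biUnion_left _ _ _).2 fun ω a => g.out ω (hN a)

theorem jd_wd (g : D.Ok Λ) {f : (ι → ℂ) → ℂ} (h : Hb r f) {N : Finset Ω} (hN : N ⊆ D.Om)
    (hT : T ⊆ D.B) : jd T (fun s => mw D.cl w N (cutS D.B s) * pS (N.biUnion D.A) f (cutS D.B s)) =
      if Tv D.cl N T then (∏ ω ∈ N, w ω) * jd (D.lt N T) f else 0 := by
  rw [jd_cut (g := fun s => mw D.cl w N s * pS (N.biUnion D.A) f s) hT, jd_mw (hb_pS h _),
    jd_pS h ((a_out g hN).symm.mono_left (sdiff_subset.trans hT)), Wd.lt]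

theorem hb_zl (hr : ∀ i, 0 < r i) (h : ∀ X c, Hb r (κ · X c)) (h' : ∀ x, Hb r (I · x)) :
    Hb r fun s => ZL Λ (κ s) (I s) :=
  hb_sum hr fun _ _ => hb_mul (hb_prod hr fun X _ => hb_sum hr fun c _ => hb_mul (h X c)
    (hb_prod hr fun x _ => h' x)) (hb_prod hr fun x _ => h' x)

theorem eqv_zl {κ' : (ι → ℂ) → Finset σ → Finset (Finset σ) → ℂ} {A : Finset ι}
    (hr : ∀ i, 0 < r i) (h : ∀ o ∈ lps Λ, Eqv r A (κ · o.1 o.2) (κ' · o.1 o.2))
    (h' : ∀ x, Hb r (I · x)) :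
    Eqv r A (fun s => ZL Λ (κ s) (I s)) fun s => ZL Λ (κ' s) (I s) :=
  Eqv.sum hr fun _ a => .mul (.prod hr fun X b => .sum hr fun c d => .mul
    (h ⟨X, c⟩ (mem_lps.2 ⟨(mem_fams.1 a).1 X b, nonempty_iff_ne_empty.2 fun k =>
      (mem_fams.1 a).2.1 (by rwa [← show X = ∅ from k]), d⟩))
    (.prod hr fun x _ => (h' x).refl)) (.prod hr fun x _ => (h' x).refl)

namespace Dat

variable (H : Dat D κ e η Λ r I)
include H

theorem hb_gam (O : Finset (LP σ ⊕ Ω)) : Hb r (gam D κ e η O) := by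
  refine hb_mul (hb_mul ?_ (hb_prod H.pos fun ω _ => H.hη ω)) (hb_prod H.pos fun x _ => H.he x)
  split_ifs
  exacts [hb_prod H.pos fun o _ => H.hκ _ _, hb_const H.pos 0]

theorem ind_gam (g : D.Ok Λ) (h' : O' ⊆ D.obs Λ) {ω : Ω} (hω : ω ∈ D.Om) {i : ι} (hi : i ∈ D.A ω)
    (d : Disjoint (D.X0 ω) (us D.sp O')) : Ind i (gam D κ e η O') := fun s t => by
  rw [gam, gam, prod_congr rfl fun o ho => H.lκ ω hω i hi _ _ (d.mono_right (left_sub ho)) s t,
    prod_congr rfl fun ω' ho => H.lη ω hω i hi ω' (right_mem h' ho) (fun k => ?_) s t,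
    prod_congr rfl fun x hx => (H.lI ω hω i hi x (us_sub.2 (fun o a => (sp_ok g o (h' a)).2)
      (z0_sub g h' (mem_sdiff.1 hx).1)) fun k => disjoint_left.1 d ((g.sub ω hω).1 k)
      (z0_sub g h' (mem_sdiff.1 hx).1)).2 s t]
  obtain ⟨x, hx⟩ := (g.sub ω hω).2.1
  exact disjoint_left.1 d hx (right_sub ho (k ▸ hx))

theorem wO_union (g : D.Ok Λ) (hs : s ∈ Pd r) (h : O ⊆ D.obs Λ) (h' : O' ⊆ D.obs Λ)
    (d : Disjoint (us D.sp O) (us D.sp O')) :
    wO D κ e η w s (O ∪ O') = wO D κ e η w s O * wO D κ e η w s O' := by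
  have d0 := obj_disj g h d
  have d2 : Disjoint O.toRight O'.toRight :=
    disjoint_left.2 fun o a b => disjoint_left.1 d0 (mem_toRight.1 a) (mem_toRight.1 b)
  have k : ∀ {O O'}, O ⊆ D.obs Λ → O' ⊆ D.obs Λ → Disjoint (us D.sp O) (us D.sp O') →
      ∀ i ∈ O.toRight.biUnion D.A, Ind i (gam D κ e η O') := fun h h' d i hi =>
    let ⟨_, a, b⟩ := mem_biUnion.1 hi
    H.ind_gam g h' (right_mem h a) b (d.mono_left (right_sub a))
  rw [wO, wO, wO, gam_union g h h' d, toRight_union, union_biUnion, mw, prod_union d2,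
    pS_union (hb_mul (H.hb_gam O) (H.hb_gam O')) ((disjoint_biUnion_left _ _ _).2 fun ω a =>
      (disjoint_biUnion_right _ _ _).2 fun ω' b => g.dis ω (right_mem h a) ω' (right_mem h' b)
        fun k => disjoint_left.1 d2 a (k ▸ b)) hs]
  simp only [mul_comm (gam D κ e η O _)]
  rw [pS_mul (k h' h d.symm)]
  simp only [mul_comm _ (gam D κ e η O _)]
  rw [pS_mul fun i hi => ind_pS (k h h' d i hi) _]
  simp only [mw]
  ring

/-- the cluster identity -/
theorem exact (g : D.Ok Λ) (hs : s ∈ Pd r) (hc : cutS D.B s = s) :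
    ∑ N ∈ D.Om.powerset, mw D.cl w N s * pS (N.biUnion D.A)
      (fun s => (∏ ω ∈ N, η ω s) * ZL Λ (κ s) (I s)) s =
      ZL Λ (fun X c => ∑ O ∈ cs D Λ X c, wO D κ e η w s O) (I s) := by
  simp only [cs]
  rw [← factorL D.sp (D.obs Λ) Λ (sp_ok g) (wO D κ e η w s) wO_empty
    (fun O h O' h' d => H.wO_union g hs h h' d) lb (fun O _ O' _ _ => by rw [lb_union, union_biUnion])
    (fun O h => lb_sub h) (fun O h _ k => lb_fams h (by_contra fun a => k (by
      rw [wO, show gam D κ e η O = fun _ => 0 from funext fun s => by simp [gam, a], pS_zero,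
        mul_zero]))), Wd.obs, Xp.sum_pow, sum_comm]
  refine sum_congr rfl fun N hN => ?_
  have hN := mem_powerset.1 hN
  set R : Finset (LP σ) → (ι → ℂ) → ℂ := fun a s =>
    (∏ y ∈ N.biUnion D.Z0 \ (lb (a.disjSum N)).biUnion id, I (cutS D.B s) y) *
      ∏ y ∈ (Λ \ (lb (a.disjSum N)).biUnion id) \ N.biUnion D.Z0, I s y with hR
  have z : N.biUnion D.Z0 ⊆ Λ := biUnion_subset.2 fun ω h =>
    (g.sub ω (hN h)).1.trans (g.sub ω (hN h)).2.2
  have sp : ∀ (C : Finset σ) (f : σ → ℂ), ∏ y ∈ Λ \ C, f y =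
      (∏ y ∈ N.biUnion D.Z0 \ C, f y) * ∏ y ∈ (Λ \ C) \ N.biUnion D.Z0, f y := fun C f => by
    rw [← prod_union (disjoint_sdiff.mono_left sdiff_subset)]
    congr 1
    ext y
    have := @z y
    simp only [mem_sdiff, mem_union]
    tauto
  have e1 : (fun s => (∏ ω ∈ N, η ω s) * ZL Λ (κ s) (I s)) = fun s =>
      ∑ a ∈ (lps Λ).powerset, gam D κ e η (a.disjSum N) s * R a s := funext fun s => by
    rw [ZL, Zp_labels _ fams (fun c => c.biUnion id) fun _ _ => fams_sub, mul_sum]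
    refine sum_congr rfl fun a _ => ?_
    simp only [gam, PD, hR, lb, toLeft_disjSum, toRight_disjSum, biUnion_biUnion]
    split_ifs
    · rw [sp, prod_congr rfl fun y _ => H.fac s y, prod_mul_distrib]; ring
    · simp
  have hb : ∀ a, Hb r (R a) := fun a => hb_mul (hb_prod H.pos fun y _ => hb_cut (H.hI y) _)
    (hb_prod H.pos fun y _ => H.hI y)
  rw [e1, pS_sum H.pos (fun a _ => hb_mul (H.hb_gam _) (hb a)) _ hs, mul_sum]
  refine sum_congr rfl fun a _ => ?_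
  rw [pS_mul fun i hi s t => ?_, wO, toRight_disjSum, sp, mul_assoc]
  · simp only [hR, hc]
  · obtain ⟨ω, a1, a2⟩ := mem_biUnion.1 hi
    simp only [hR, cut_out fun k => disjoint_left.1 (g.out ω (hN a1)) a2 k]
    exact congrArg _ (prod_congr rfl fun y hy => (H.lI ω (hN a1) i a2 y
      (mem_sdiff.1 (mem_sdiff.1 hy).1).1 fun k =>
      (mem_sdiff.1 hy).2 (mem_biUnion.2 ⟨ω, a1, k⟩)).1 s t)

/-- the jets of the new activities -/
theorem jets (g : D.Ok Λ) {κ' : (ι → ℂ) → Finset σ → Finset (Finset σ) → ℂ} {ξ : (ι → ℂ) → ℂ}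
    (h1 : ∀ X c, Hb r (κ' · X c)) (h2 : ∀ o ∈ lps Λ, ∀ T ⊆ D.B, jd T (κ' · o.1 o.2) =
      ∑ O ∈ cs D Λ o.1 o.2, if Tv D.cl O.toRight T then
        (∏ ω ∈ O.toRight, w ω) * jd (D.lt O.toRight T) (gam D κ e η O) else 0)
    (h3 : Hb r ξ) (h4 : ∀ s, ξ (cutS D.B s) = ξ s) (hT : T ⊆ D.B) :
    jd T (fun s => ξ s * ZL Λ (κ' s) (I (cutS D.B s))) = ∑ N ∈ D.Om.powerset,
      if Tv D.cl N T then (∏ ω ∈ N, w ω) * jd (D.lt N T)
        (fun s => (∏ ω ∈ N, η ω s) * ZL Λ (κ s) (I s) * ξ s) else 0 := by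
  have r0 := H.pos
  have b : ∀ O, Hb r fun s => wO D κ e η w (cutS D.B s) O := fun O =>
    hb_cut (hb_mul (hb_mw r0 w) (hb_pS (H.hb_gam O) _)) _
  have b' : ∀ N : Finset Ω, Hb r fun s => (∏ ω ∈ N, η ω s) * ZL Λ (κ s) (I s) * ξ s := fun N =>
    hb_mul (hb_mul (hb_prod r0 fun ω _ => H.hη ω) (hb_zl r0 H.hκ H.hI)) h3
  rw [(h3.refl.mul (eqv_zl (κ' := fun s X c => ∑ O ∈ cs D Λ X c, wO D κ e η w (cutS D.B s) O)
    (I := fun s => I (cutS D.B s)) r0 (fun o ho => ⟨h1 _ _, hb_sum r0 fun O _ => b O, fun T hT => by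
      rw [h2 o ho T hT, jd_hsum r0 fun O _ => b O]
      exact sum_congr rfl fun O hO => (jd_wd g (H.hb_gam O) (fun ω a => right_mem
        (mem_clus.1 (mem_filter.1 hO).1).1 a) hT).symm⟩) fun x => hb_cut (H.hI x) _)).eq T hT,
    ← sum_congr rfl fun N hN => jd_wd g (b' N) (mem_powerset.1 hN) hT,
    ← jd_hsum r0 fun N _ => hb_cut (hb_mul (hb_mw r0 w) (hb_pS (b' N) _)) _]
  refine jd_congr r0 (fun s hs => ?_) T
  rw [← H.exact g (cut_mem hs) (cut_cut Subset.rfl), mul_sum]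
  refine sum_congr rfl fun N hN => ?_
  rw [pS_mul (g' := ξ) fun i hi s t => by
    rw [← h4, cut_out (disjoint_left.1 (a_out g (mem_powerset.1 hN)) hi), h4]]
  simp only [h4]
  ring

end Dat

end clus

end Pool.Agent.Lib.MP_7f377f_mp.RG.Q4.En.Mg
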