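import Pool.Agent.Lib.MP_7f377f_mp.G.MgA

/-! Merging of sources: norms of clusters of polymers and words. -/

noncomputable section

open Pool.Agent.Lib.MP_7f377f_mp.Jet

set_option linter.unusedSectionVars false
variable [Pool.Agent.Lib.MP_7f377f_mp.GD]

namespace Pool.Agent.Lib.MP_7f377f_mp.RG.Q4

/-- the parameters with a larger weight of the size -/
def Pa.ad (p : Pa) (δ : ℝ) : Pa := { p with a := p.a + δ }

namespace En.Mg

open Finset Function Sg Real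
open scoped Classical

attribute [local irreducible] box lbox tb tau rc

variable {ι Ω κ : Type} [DecidableEq ι] [DecidableEq Ω] [DecidableEq κ] {p : Pa} {n m q : ℕ}
  {δ δ' θ θ' ρ C d : ℝ} {k : Mj} {X Y : Finset St} {c : Finset (Finset St)} {D : Wd St ι Ω}

theorem ad_one (p : Pa) : p.ad 1 = p.up := rfl

theorem ad_zero (p : Pa) : p.ad 0 = p := by simp [Pa.ad]

theorem ad_ad (p : Pa) (δ δ' : ℝ) : (p.ad δ).ad δ' = p.ad (δ + δ') := by simp [Pa.ad, add_assoc]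

theorem wgt_ad (p : Pa) (δ : ℝ) (n : ℕ) (X : Finset St) (c : Finset (Finset St)) :
    wgt (p.ad δ) n X c = exp (δ * tau n p.D X) * wgt p n X c := by
  simp only [wgt, Pa.ad, ← exp_add]; congr 1; ring

theorem wgt_pos : 0 < wgt p n X c := exp_pos _

/-- the slack in the weight absorbs a factor -/
theorem kN_ad (h : kN (p.ad δ) n k θ) {w : Mj} (w0 : ∀ X c, 0 ≤ w X c)
    (hw : ∀ o ∈ lps (box (n / 2)), w o.1 o.2 ≤ C * exp (δ * tau n p.D o.1)) (C0 : 0 ≤ C) :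
    kN p n (fun X c => w X c * k X c) (C * θ) := by
  refine ⟨fun X c => mul_nonneg (w0 X c) (h.1 X c), fun x => le_trans ?_
    (mul_le_mul_of_nonneg_left (h.2 x) C0)⟩
  rw [mul_sum]
  refine sum_le_sum fun o ho => ?_
  have := mul_le_mul_of_nonneg_right (hw o (mem_filter.1 ho).1)
    (mul_nonneg (h.1 o.1 o.2) wgt_pos.le : 0 ≤ k o.1 o.2 * wgt p n o.1 o.2)
  rw [wgt_ad]
  linarith

theorem kN_le {k' : Mj} (h : kN p n k θ) (h0 : ∀ X c, 0 ≤ k' X c) (e : ∀ X c, k' X c ≤ k X c) :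
    kN p n k' θ :=
  ⟨h0, fun x => (sum_le_sum fun _ _ => mul_le_mul_of_nonneg_right (e _ _) wgt_pos.le).trans (h.2 x)⟩

theorem kN_drop (h : kN (p.ad δ) n k θ) (e : δ' ≤ δ) : kN (p.ad δ') n k θ := by
  rw [show δ = δ' + (δ - δ') by ring, ← ad_ad] at h
  simpa using kN_ad h (w := fun _ _ => 1) (C := 1) (fun _ _ => zero_le_one) (fun _ _ => by
    rw [one_mul]; exact one_le_exp (mul_nonneg (sub_nonneg.2 e) (Nat.cast_nonneg _))) zero_le_one

theorem tch_pow' {A : Finset ι} {Z : ι → Finset St} {cl : ι → κ} {D : ℕ} (hD : 1 ≤ D)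
    (h : Cls n d A cl Z) (hm : (m + 2 : ℝ) * D ≤ d) (hk : ∀ c, (A.filter (cl · = c)).card ≤ q)
    (ρ1 : 1 ≤ ρ) (hρ : q * log ρ ≤ δ * m) (δ0 : 0 ≤ δ) (X : Finset St) :
    ρ ^ (tch A Z X).card ≤ ρ ^ q * exp (δ * tau n D X) := by
  have h1 := tch_card hD h hm X
  refine (pow_le_pow_right₀ ρ1 (tch_le hk X)).trans ?_
  generalize ((tch A Z X).image cl).card = c at *
  rcases c with _ | c
  · simpa using one_le_mul_of_one_le_of_one_le (one_le_pow₀ ρ1) (one_le_exp (by positivity))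
  rw [mul_add, mul_one, pow_add, mul_comm]
  refine mul_le_mul_of_nonneg_left ?_ (by positivity)
  rw [← exp_log (show 0 < ρ by linarith), ← exp_nat_mul, exp_le_exp]
  have h2 : (c : ℝ) * m ≤ tau n D X := by exact_mod_cast (by nlinarith : c * m ≤ tau n D X)
  push_cast
  nlinarith [mul_le_mul_of_nonneg_left hρ (c.cast_nonneg : (0 : ℝ) ≤ c)]

theorem kN_tch' {A : Finset ι} {Z : ι → Finset St} {cl : ι → κ} (hD : 1 ≤ p.D)
    (h : Cls n d A cl Z) (hm : (m + 2 : ℝ) * p.D ≤ d) (hk : ∀ c, (A.filter (cl · = c)).card ≤ q)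
    (ρ1 : 1 ≤ ρ) (hρ : q * log ρ ≤ δ * m) (δ0 : 0 ≤ δ) (hw : kN (p.ad δ) n k θ) :
    kN p n (fun X c => ρ ^ (tch A Z X).card * k X c) (ρ ^ q * θ) :=
  kN_ad hw (fun _ _ => by positivity) (fun o _ => tch_pow' hD h hm hk ρ1 hρ δ0 o.1) (by positivity)

theorem sum_bi {α β : Type} [DecidableEq β] (s : Finset α) (t : α → Finset β) {f : β → ℝ}
    (h : ∀ x, 0 ≤ f x) : ∑ x ∈ s.biUnion t, f x ≤ ∑ a ∈ s, ∑ x ∈ t a, f x := by
  induction s using Finset.induction_on with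
  | empty => simp
  | insert a s ha ih =>
    rw [biUnion_insert, sum_insert ha]
    linarith [sum_union_inter (s₁ := t a) (s₂ := s.biUnion t) (f := f),
      sum_nonneg (s := t a ∩ s.biUnion t) fun x _ => h x]

/-- the product of the majorants of a family -/
def pw (k : Mj) (v : Ω → ℝ) (O : Finset (LP St ⊕ Ω)) : ℝ :=
  (∏ o ∈ O.toLeft, k o.1 o.2) * ∏ ω ∈ O.toRight, v ω

theorem pw_nn {v : Ω → ℝ} (k0 : ∀ X c, 0 ≤ k X c) (v0 : ∀ ω, 0 ≤ v ω) (O : Finset (LP St ⊕ Ω)) :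
    0 ≤ pw k v O := mul_nonneg (prod_nonneg fun _ _ => k0 _ _) (prod_nonneg fun _ _ => v0 _)

/-- the signs of the parameters -/
structure Ps0 (p : Pa) : Prop where
  D : 1 ≤ p.D
  a : 0 ≤ p.a
  G0 : 0 ≤ p.G0
  G2 : 0 ≤ p.G2
  lam : 0 ≤ p.lam

theorem Ps0.ad (h : Ps0 p) (δ0 : 0 ≤ δ) : Ps0 (p.ad δ) :=
  ⟨h.D, add_nonneg h.a δ0, h.G0, h.G2, h.lam⟩

/-- the norm of the clusters -/
theorem kN_clus (hp : Ps0 p) (hn : Odd n) (g : D.Ok (box (n / 2))) (δ0 : 0 < δ)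
    (h : kN (p.ad δ) n k θ) {v : Ω → ℝ} (v0 : ∀ ω, 0 ≤ v ω)
    (hv : ∀ x, ∑ ω ∈ D.Om.filter (x ∈ D.X0 ·), v ω * exp ((p.a + δ) * tau n p.D (D.X0 ω)) ≤ θ')
    (sm : 4 * (exp (4 * p.a) * (θ + θ')) * (2 * p.D + 1) ^ 4 ≤ δ) :
    kN p n (fun X c => ∑ O ∈ cs D (box (n / 2)) X c, pw k v O) (2 * (θ + θ')) := by
  refine ⟨fun X c => sum_nonneg fun O _ => pw_nn h.1 v0 O, fun x => ?_⟩
  set W : LP St ⊕ Ω → ℝ := Sum.elim (fun o => k o.1 o.2 * wgt p n o.1 o.2 * exp (4 * p.a))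
    fun ω => v ω * exp (p.a * (tau n p.D (D.X0 ω) + 4)) with hW
  have W0 : ∀ o, 0 ≤ W o := by
    rintro (o | ω)
    · exact mul_nonneg (mul_nonneg (h.1 _ _) wgt_pos.le) (exp_pos _).le
    · exact mul_nonneg (v0 _) (exp_pos _).le
  have d0 : (0 : ℝ) < (2 * p.D + 1) ^ 4 := by positivity
  have cd : ∀ X ⊆ box (n / 2), exp (δ / (2 * p.D + 1) ^ 4 * X.card) ≤ exp (δ * tau n p.D X) :=
    fun X hX => by
      have : (X.card : ℝ) ≤ tau n p.D X * (2 * p.D + 1) ^ 4 := by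
        exact_mod_cast card_le_tau hp.D fun x hx => rc_eq hn (hX hx)
      rw [exp_le_exp, div_mul_eq_mul_div, div_le_iff₀ d0, mul_assoc]
      exact mul_le_mul_of_nonneg_left this δ0.le
  have a := conn_sum D.sp (D.obs (box (n / 2))) (fun o ho => (sp_ok g o ho).1) W W0
    (θ := exp (4 * p.a) * (θ + θ')) (div_pos δ0 d0) ((le_div_iff₀ d0).2 sm) (fun y => by
      rw [sum_filter, Wd.obs, sum_disjSum, mul_add]
      refine add_le_add (le_trans ?_ (mul_le_mul_of_nonneg_left (h.2 y) (exp_pos _).le))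
        (le_trans ?_ (mul_le_mul_of_nonneg_left (hv y) (exp_pos _).le)) <;>
        rw [sum_filter, mul_sum] <;> refine sum_le_sum fun o ho => ?_
      · simp only [Wd.sp, Sum.elim_inl, hW, wgt_ad]
        split_ifs
        · exact (mul_le_mul_of_nonneg_left (cd _ (mem_lps.1 ho).1) (W0 (.inl o))).trans_eq (by
            simp only [hW, Sum.elim_inl]; ring)
        · simp
      · simp only [Wd.sp, Sum.elim_inr, hW]
        split_ifs
        · refine (mul_le_mul_of_nonneg_left (cd _ (g.sub o ho).2.2) (W0 (.inr o))).trans_eq ?_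
          simp only [hW, Sum.elim_inr, mul_add, add_mul, exp_add, mul_comm p.a 4]
          ring
        · simp) 1 le_rfl x
  rw [Nat.sub_self, pow_zero, mul_one] at a
  refine le_of_mul_le_mul_left (le_trans ?_ (((sum_fiberwise_le_sum_of_sum_fiber_nonneg
    (t := (lps (box (n / 2))).filter fun o => x ∈ o.1) (g := fun O => (⟨us D.sp O, lb O⟩ : LP St))
    fun _ _ => sum_nonneg fun O _ => prod_nonneg fun o _ => W0 o).trans a).trans_eq
      (mul_left_comm _ _ _))) (exp_pos (4 * p.a))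
  rw [mul_sum]
  refine sum_le_sum fun o ho => ?_
  rw [sum_mul, mul_sum]
  refine (sum_le_sum fun O hO => ?_).trans (sum_le_sum_of_subset_of_nonneg (fun O hO => ?_)
    fun O _ _ => prod_nonneg fun o _ => W0 o)
  · obtain ⟨⟨-, b2, b3⟩, b4⟩ := (mem_filter.1 hO).imp_left mem_clus.1
    have t : (tau n p.D o.1 + 4 : ℝ) ≤ ∑ o ∈ O.toLeft, (tau n p.D o.1 + 4 : ℝ) +
        ∑ ω ∈ O.toRight, (tau n p.D (D.X0 ω) + 4 : ℝ) := by
      have := tau_conn (n := n) hp.D D.sp b2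
      rw [b3, sum_sum_eq_sum_toLeft_add_sum_toRight] at this
      exact_mod_cast this
    have u := sum_bi O.toLeft (·.2) (f := fun C => p.G0 + p.G2 * tau n p.D C) fun C =>
      add_nonneg hp.G0 (mul_nonneg hp.G2 (Nat.cast_nonneg _))
    rw [prod_sum_eq_prod_toLeft_mul_prod_toRight]
    simp only [hW, Sum.elim_inl, Sum.elim_inr, wgt, mul_assoc, ← exp_add, prod_mul_distrib,
      ← exp_sum]
    rw [mul_left_comm, ← exp_add, mul_left_comm (exp _), ← exp_add, ← mul_assoc]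
    refine mul_le_mul_of_nonneg_left (exp_le_exp.2 ?_) (pw_nn h.1 v0 O)
    have := mul_le_mul_of_nonneg_left t hp.a
    rw [← b4, ← mul_sum]
    simp only [sum_add_distrib, ← mul_sum, sum_const, nsmul_eq_mul, lb] at this u ⊢
    linarith
  · obtain ⟨⟨b1, b2, b3⟩, b4⟩ := (mem_filter.1 hO).imp_left mem_clus.1
    refine mem_filter.2 ⟨mem_filter.2 ⟨mem_powerset.2 b1, b2, b3 ▸ (mem_filter.1 ho).2,
      b2.1.card_pos⟩, ?_⟩
    rw [b3, b4]

end En.Mg

end Pool.Agent.Lib.MP_7f377f_mp.RG.Q4
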