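import Pool.Agent.Lib.MP_7f377f_mp.G.MgB

/-! Merging of sources: the new activities. -/

noncomputable section

open Pool.Agent.Lib.MP_7f377f_mp.Jet

set_option linter.unusedSectionVars false
variable [Pool.Agent.Lib.MP_7f377f_mp.GD]

namespace Pool.Agent.Lib.MP_7f377f_mp.RG.Q4.En.Mg

open Finset Function Sg Real
open scoped Classical

attribute [local irreducible] box lbox tb tau rc

variable {ι Ω α : Type} [DecidableEq ι] [DecidableEq Ω] {p : Pa} {n : ℕ} {b θ Λ : ℝ} {k k' : Mj}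
  {X Y : Finset St} {c : Finset (Finset St)} {D : Wd St ι Ω} {f g : Conf → ℂ} {r r' : ι → ℝ}
  {ψ : (ι → ℂ) → Lx} {K K' : (ι → ℂ) → Ac} {s : ι → ℂ} {S T B : Finset ι} {N : Finset Ω}

/-- invariant functions of the links in `Y` -/
structure LF (n : ℕ) (Y : Finset St) (f : Conf → ℂ) : Prop where
  meas : Measurable f
  per : ∀ U, f (pc n U) = f U
  dep : DependsOn f {b | rc n b.1 ∈ Y ∧ rc n (b.1 + un b.2) ∈ Y}
  gi : ∀ u U, PS n u → f (gauge Inv.inv u U) = f U

theorem LF.const (a : ℂ) : LF n Y fun _ => a :=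
  ⟨measurable_const, fun _ => rfl, fun _ _ _ => rfl, fun _ _ _ => rfl⟩

theorem LF.mono (h : LF n X f) (e : X ⊆ Y) : LF n Y f :=
  ⟨h.meas, h.per, h.dep.mono fun _ a => ⟨e a.1, e a.2⟩, h.gi⟩

theorem LF.mul (h : LF n Y f) (h' : LF n Y g) : LF n Y fun U => f U * g U :=
  ⟨h.meas.mul h'.meas, fun U => by rw [h.per, h'.per], fun _ _ e => by
    simp only [h.dep e, h'.dep e], fun u U a => by rw [h.gi u U a, h'.gi u U a]⟩

theorem LF.add (h : LF n Y f) (h' : LF n Y g) : LF n Y fun U => f U + g U :=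
  ⟨h.meas.add h'.meas, fun U => by rw [h.per, h'.per], fun _ _ e => by
    simp only [h.dep e, h'.dep e], fun u U a => by rw [h.gi u U a, h'.gi u U a]⟩

theorem LF.prod {t : Finset α} {f : α → Conf → ℂ} (h : ∀ a ∈ t, LF n Y (f a)) :
    LF n Y fun U => ∏ a ∈ t, f a U := by
  induction t using Finset.cons_induction with
  | empty => exact .const 1
  | cons a t _ ih =>
    simp only [prod_cons]
    exact (h a (mem_cons_self ..)).mul (ih fun i hi => h i (mem_cons_of_mem hi))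

theorem LF.sum {t : Finset α} {f : α → Conf → ℂ} (h : ∀ a ∈ t, LF n Y (f a)) :
    LF n Y fun U => ∑ a ∈ t, f a U := by
  induction t using Finset.cons_induction with
  | empty => exact .const 0
  | cons a t _ ih =>
    simp only [sum_cons]
    exact (h a (mem_cons_self ..)).add (ih fun i hi => h i (mem_cons_of_mem hi))

theorem lf_km {K : Ac} (h : KM p n k K) (X : Finset St) (c : Finset (Finset St)) : LF n X (K X c) :=
  ⟨h.meas X c, h.per X c, h.dep X c, h.gi X c⟩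

theorem lf_ix (hp : p.Ok) {Φ : Lx} (h : LO p Φ) {x : St} (e : tb n (p.R + 3) {x} ⊆ Y) :
    LF n Y fun U => Ix p Φ (pc n U) x := by
  refine ⟨(Ix_meas h).comp (Cov.meas_pc n), fun U => by rw [pc_eq (Mx.per_pc n U)],
    fun U U' a => Ix_agr hp h fun l hl => ?_, fun u U hu => by
      rw [Mx.pc_gauge (Mx.PS_iff.1 hu), Ix_gauge hp h]⟩
  have m : ∀ y ∈ box (p.R + 3), rc n (y + x) ∈ Y := fun y hy =>
    e (mem_tb_single.2 ⟨rc_rc _ _, nearT_rc_right.2 (add_comm x y ▸ nearT_add hy)⟩)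
  have := mem_lbox.1 hl
  refine a (rc n (l.1 + x), l.2) ⟨?_, ?_⟩
  · rw [rc_rc]; exact m _ (box_mono (by omega) this)
  · rw [rc_add_rc, add_right_comm]; exact m _ (add_un_mem_box this _)

theorem km_lf {K : Ac} (h : ∀ X c, LF n X (K X c))
    (b : ∀ X c U, Per n U → ‖K X c U‖ ≤ k X c * exp (-(p.lam * Rg c U))) : KM p n k K :=
  ⟨fun X c => (h X c).meas, fun X c => (h X c).per, fun X c => (h X c).dep,
    fun X c => (h X c).gi, b⟩

theorem km_sum {t : Finset α} {k : α → Mj} {K : α → Ac} (h : ∀ a ∈ t, KM p n (k a) (K a)) :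
    KM p n (fun X c => ∑ a ∈ t, k a X c) (∑ a ∈ t, K a) :=
  km_lf (fun X c => by
    have : (∑ a ∈ t, K a) X c = fun U => ∑ a ∈ t, K a X c U := by ext; simp
    exact this ▸ LF.sum fun a ha => lf_km (h a ha) X c) fun X c U hU => by
    simp only [Finset.sum_apply, sum_mul]
    exact norm_sum_le_of_le _ fun a ha => (h a ha).bd X c U hU

theorem cut_comm (A B : Finset ι) : cutS A (cutS B s) = cutS B (cutS A s) := funext fun i => by
  by_cases a : i ∈ A <;> by_cases b : i ∈ B <;> simp [cutS, a, b]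

theorem sl_cut (h : SL r ψ) (hr : ∀ i, 0 < r i) (B : Finset ι) : SL r fun s => ψ (cutS B s) :=
  fun s hs i x A => by
    have _ := hr
    by_cases e : i ∈ B
    · simpa only [cut_in e] using h _ (cut_mem hs) i x A
    · simpa only [cut_out e] using differentiableOn_const _

/-- jets of activities in some of the variables -/
def pA (S : Finset ι) (K : (ι → ℂ) → Ac) (s : ι → ℂ) : Ac := fun X c U => pS S (K · X c U) s

theorem pS_meas {Z : Type} [MeasurableSpace Z] {f : Z → (ι → ℂ) → ℂ} {m : Z → ℝ}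
    (hr : ∀ i, 0 < r i) (h : ∀ ω, SH r (m ω) (f ω)) (hm : ∀ s ∈ Pd r, Measurable (f · s))
    (S : Finset ι) : ∀ s ∈ Pd r, Measurable fun ω => pS S (f ω) s := by
  unfold pS
  induction S.toList with
  | nil => exact hm
  | cons j l ih => exact pd_meas hr (fun ω => (h ω).fold l) ih j

theorem fa_pA (h : FA r p n k K) (S : Finset ι) :
    FA r p n (fun X c => k X c / ∏ i ∈ S, r i) (pA S K) :=
  ⟨h.pos, fun s hs i X c U => (sh_pS (h.sh X c U) S).hol s hs i, fun s hs =>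
    h.km_of (F := fun g => pS S g s) (fun _ _ e => pS_congr h.pos e S hs)
      (fun X c => pS_meas h.pos (h.sh X c) (fun s hs => (h.km s hs).meas X c) S s hs)
      fun _ _ _ _ a => ((sh_pS a S).bd s hs).trans_eq (mul_div_right_comm _ _ _)⟩

theorem fa_shrink (h : FA r p n k K) (hr : ∀ i, 0 < r' i) (e : ∀ i, r' i ≤ r i) : FA r' p n k K :=
  ⟨hr, fun s hs i X c U => ((h.sh X c U).shrink hr e).hol s hs i,
    fun s hs => h.km s fun i => (hs i).trans_le (e i)⟩

/-- local observables which are small when the field is small on `Z` -/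
structure Ob (p : Pa) (n : ℕ) (r : ι → ℝ) (Z X : Finset St) (M Λ : ℝ) (η : (ι → ℂ) → Conf → ℂ) :
    Prop where
  lf : ∀ s ∈ Pd r, LF n X (η s)
  hol : ∀ s ∈ Pd r, ∀ i U, DifferentiableOn ℂ (fun t => η (update s i t) U) (Metric.ball 0 (r i))
  bd : ∀ s ∈ Pd r, ∀ U, Per n U → ‖η s U‖ ≤ Λ * M ∧
    ((∀ x ∈ Z, Fq (p.R + 1) p.ε (sh x U)) → ‖η s U‖ ≤ M)

variable (p n D ψ K) (η : Ω → (ι → ℂ) → Conf → ℂ) (w : Ω → ℂ)

/-- the factor of a family of polymers and words -/
def gA (O : Finset (LP St ⊕ Ω)) (U : Conf) : (ι → ℂ) → ℂ :=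
  gam D (fun s X c => K s X c U) (fun s => Ix p (ψ s - ψ (cutS D.B s)) (pc n U)) (η · · U) O

/-- the clusters which contain exactly the words `N` -/
def KN (N : Finset Ω) (s : ι → ℂ) : Ac := fun X c U =>
  ∑ O ∈ (cs D (box (n / 2)) X c).filter (·.toRight = N), gA p n D ψ K η O U (cutS (D.ad N) s)

/-- the admissible sets of words -/
def Wd.tv (D : Wd St ι Ω) : Finset (Finset Ω) :=
  D.Om.powerset.filter fun N => N.Nonempty ∧ Set.InjOn D.cl N

/-- the new activities before the truncation -/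
def K2 (s : ι → ℂ) : Ac := K (cutS D.B s) +
  ∑ N ∈ D.tv, mw D.cl w N s • pA (N.biUnion D.A) (KN p n D ψ K η N) s

/-- the insertion of one word -/
def Ins (ω : Ω) : Ac := jA (D.A ω) (KN p n D ψ K η {ω})

/-- the majorant of the clusters with the words `N` -/
def kc (k : Mj) (v : Ω → ℝ) (N : Finset Ω) : Mj := fun X c =>
  ∑ O ∈ (cs D (box (n / 2)) X c).filter (·.toRight = N), pw k v O

/-- the hypotheses on the data; `Zc` are the regions of the cells -/
structure Hyp (r : ι → ℝ) (k : Mj) (b Λ : ℝ) (M : Ω → ℝ) (Zc : ι → Finset St) : Prop where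
  ok : p.Ok
  lam : 0 ≤ p.lam
  geo : D.Ok (box (n / 2))
  col : ∀ ω ∈ D.Om, tb n (p.R + 3) (D.Z0 ω) ⊆ D.X0 ω ∧ D.X0 ω ⊆ Zc (D.cl ω)
  k0 : ∀ X c, 0 ≤ k X c
  b0 : 0 ≤ b
  one : 1 ≤ Λ
  M0 : ∀ ω, 0 ≤ M ω
  fa : ∀ N ⊆ D.Om, Set.InjOn D.cl N → FA r p n k fun s => K (cutS (D.ad N) s)
  sl : ∀ N ⊆ D.Om, Set.InjOn D.cl N → SL r fun s => ψ (cutS (D.ad N) s)
  pu : ∀ N ⊆ D.Om, Set.InjOn D.cl N → ∀ s ∈ Pd r, PU p b (ψ (cutS (D.ad N) s))
  ob : ∀ ω ∈ D.Om, Ob p n r (D.Z0 ω) (D.X0 ω) (M ω) Λ (η ω)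

variable {p n D ψ K η w} {M : Ω → ℝ} {Zc : ι → Finset St} {O : Finset (LP St ⊕ Ω)}

theorem lo_sub {Φ Ψ : Lx} (h : LO p Φ) (h' : LO p Ψ) : LO p (Φ - Ψ) := by
  have := h.add (h'.smul (-1))
  simp only [neg_one_mul, ← sub_eq_add_neg] at this
  exact this

theorem ad_empty : D.ad ∅ = D.B := by simp [Wd.ad]

namespace Hyp

variable (H : Hyp p n D ψ K η r k b Λ M Zc)
include H

theorem pos (i : ι) : 0 < r i := (H.fa ∅ (empty_subset _) (by simp)).pos i

theorem gA_le (hO : O ⊆ D.obs (box (n / 2))) (hi : Set.InjOn D.cl O.toRight) (hs : s ∈ Pd r)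
    {U : Conf} (hU : Per n U) : ‖gA p n D ψ K η O U (cutS (D.ad O.toRight) s)‖ ≤
      pw (fun X c => Λ ^ (tch D.B Zc X).card * k X c)
        (fun ω => M ω * exp (2 * b * (D.Z0 ω).card)) O * exp (-(p.lam * Rg (lb O) U)) := by
  have hN : O.toRight ⊆ D.Om := fun ω a => right_mem hO a
  have L0 : 0 ≤ Λ := zero_le_one.trans H.one
  have p0 := mul_nonneg (pw_nn (k := fun X c => Λ ^ (tch D.B Zc X).card * k X c)
    (fun X c => mul_nonneg (pow_nonneg L0 _) (H.k0 X c))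
    (v := fun ω => M ω * exp (2 * b * (D.Z0 ω).card)) (fun ω => mul_nonneg (H.M0 ω) (exp_pos _).le) O)
    (exp_pos (-(p.lam * Rg (lb O) U))).le
  rw [gA, gam, pc_eq hU]
  split_ifs with hp
  swap
  · simpa using p0
  by_cases hx : ∀ x ∈ O.toRight.biUnion D.Z0 \ (lb O).biUnion id, Fq (p.R + 1) p.ε (sh x U)
  swap
  · push Not at hx
    obtain ⟨x, a1, a2⟩ := hx
    rw [prod_eq_zero a1 (Ix_neg a2)]
    simpa using p0
  have a1 : ‖∏ o ∈ O.toLeft, K (cutS (D.ad O.toRight) s) o.1 o.2 U‖ ≤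
      (∏ o ∈ O.toLeft, k o.1 o.2) * exp (-(p.lam * Rg (lb O) U)) := by
    rw [norm_prod]
    refine (prod_le_prod (fun _ _ => norm_nonneg _) fun o _ =>
      ((H.fa _ hN hi).km s hs).bd o.1 o.2 U hU).trans ?_
    rw [prod_mul_distrib, ← exp_sum, sum_neg_distrib, ← mul_sum]
    exact mul_le_mul_of_nonneg_left (exp_le_exp.2 (neg_le_neg (mul_le_mul_of_nonneg_left
      (sum_bi _ _ fun _ => sum_nonneg fun _ _ => fs_nonneg _ _) H.lam)))
      (prod_nonneg fun _ _ => H.k0 _ _)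
  have a2 : ‖∏ x ∈ O.toRight.biUnion D.Z0 \ (lb O).biUnion id, Ix p (ψ (cutS (D.ad O.toRight) s) -
      ψ (cutS D.B (cutS (D.ad O.toRight) s))) U x‖ ≤ ∏ ω ∈ O.toRight, exp (2 * b * (D.Z0 ω).card) := by
    rw [norm_prod]
    refine (prod_le_prod (g := fun _ => exp (2 * b)) (fun _ _ => norm_nonneg _) fun x h => ?_).trans ?_
    · rw [Ix_pos (hx x h), cut_comm]
      refine (Complex.norm_exp_le_exp_norm _).trans (exp_le_exp.2 ((norm_neg _).trans_le ?_))
      have u := fun s hs => (H.pu _ hN hi s hs).2 x _ (Bx_real x U) ((hx x h).cv' H.ok)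
      exact (norm_sub_le_of_le (u s hs) (u _ (cut_mem hs))).trans_eq (two_mul _).symm
    · rw [prod_const, ← exp_nat_mul, ← exp_sum, ← mul_sum, exp_le_exp, mul_comm]
      refine mul_le_mul_of_nonneg_left ?_ (by linarith [H.b0])
      exact_mod_cast (card_le_card sdiff_subset).trans card_biUnion_le
  have a3 : ‖∏ ω ∈ O.toRight, η ω (cutS (D.ad O.toRight) s) U‖ ≤
      (∏ o ∈ O.toLeft, Λ ^ (tch D.B Zc o.1).card) * ∏ ω ∈ O.toRight, M ω := by
    rw [norm_prod]
    refine (prod_le_prod (g := fun ω => (if Disjoint (D.Z0 ω) ((lb O).biUnion id) then 1 else Λ) *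
      M ω) (fun _ _ => norm_nonneg _) fun ω h => ?_).trans ?_
    · have u := (H.ob ω (hN h)).bd _ (cut_mem (B := D.ad O.toRight) hs) U hU
      split_ifs with e
      · rw [one_mul]
        exact u.2 fun x a => hx x (mem_sdiff.2 ⟨mem_biUnion.2 ⟨ω, h, a⟩, disjoint_left.1 e a⟩)
      · exact u.1
    · rw [prod_mul_distrib, prod_ite, prod_const_one, one_mul, prod_const, prod_pow_eq_pow_sum]
      refine mul_le_mul_of_nonneg_right (pow_le_pow_right₀ H.one (le_trans ?_ card_biUnion_le))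
        (prod_nonneg fun _ _ => H.M0 _)
      refine card_le_card_of_injOn D.cl (fun ω h => ?_) (hi.mono (by simp [Set.subset_def]; tauto))
      obtain ⟨e1, e2⟩ := mem_filter.1 (mem_coe.1 h)
      obtain ⟨x, x1, x2⟩ := not_disjoint_iff.1 e2
      obtain ⟨C, x3, x4⟩ := mem_biUnion.1 x2
      obtain ⟨o, x5, x6⟩ := mem_biUnion.1 x3
      exact mem_coe.2 (mem_biUnion.2 ⟨o, x5, mem_tch.2 ⟨H.geo.cl ω (hN e1), not_disjoint_iff.2
        ⟨x, (H.col ω (hN e1)).2 ((H.geo.sub ω (hN e1)).1 x1),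
          (mem_fams.1 (mem_lps.1 (left_mem hO x5)).2.2).1 C x6 x4⟩⟩⟩)
  refine (norm_mul_le_of_le (norm_mul_le_of_le a1 a3) a2).trans_eq ?_
  simp only [pw, prod_mul_distrib]
  ring

/-- the clusters with given words -/
theorem fa_KN (hN : N ⊆ D.Om) (hi : Set.InjOn D.cl N) :
    FA r p n (kc n D (fun X c => Λ ^ (tch D.B Zc X).card * k X c)
      (fun ω => M ω * exp (2 * b * (D.Z0 ω).card)) N) (KN p n D ψ K η N) := by
  have m : ∀ {X c O}, O ∈ (cs D (box (n / 2)) X c).filter (·.toRight = N) →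
      O ⊆ D.obs (box (n / 2)) ∧ us D.sp O = X ∧ lb O = c ∧ O.toRight = N := fun h =>
    have a := mem_filter.1 (mem_filter.1 h).1
    ⟨(mem_clus.1 a.1).1, (mem_clus.1 a.1).2.2, a.2, (mem_filter.1 h).2⟩
  refine ⟨H.pos, fun s hs i X c U => .fun_sum fun O hO => ?_, fun s hs => km_lf
    (fun X c => .sum fun O hO => ?_) fun X c U hU => ?_⟩
  · obtain ⟨a1, -, -, a4⟩ := m hO
    simp only [gA, gam, Ix, Pi.sub_apply, cut_comm D.B]
    refine .mul (.mul ?_ (.fun_finsetProd fun ω h => ?_)) (.fun_finsetProd fun x _ =>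
      ((H.sl N hN hi s hs i x _).sub (sl_cut (H.sl N hN hi) H.pos D.B s hs i x _)).neg.cexp.const_mul _)
    · split_ifs
      exacts [.fun_finsetProd fun o _ => (H.fa N hN hi).hol s hs i _ _ U, differentiableOn_const _]
    · by_cases e : i ∈ D.ad N
      · simpa only [cut_in e] using (H.ob ω (right_mem a1 h)).hol _ (cut_mem hs) i U
      · simpa only [cut_out e] using differentiableOn_const _
  · obtain ⟨a1, rfl, -, a4⟩ := m hO
    simp only [gA, gam]
    refine .mul (.mul ?_ (.prod fun ω h => ((H.ob ω (right_mem a1 h)).lf _ (cut_mem hs)).mono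
      (right_sub h))) (.prod fun x h => lf_ix H.ok (lo_sub (H.pu N hN hi s hs).lo (by
        rw [cut_comm]; exact (H.pu N hN hi _ (cut_mem hs)).lo)) ?_)
    · split_ifs
      exacts [.prod fun o h => (lf_km ((H.fa N hN hi).km s hs) _ _).mono (left_sub h), .const 0]
    · obtain ⟨ω, x1, x2⟩ := mem_biUnion.1 (mem_sdiff.1 h).1
      exact ((tb_mono (singleton_subset_iff.2 x2) le_rfl).trans
        (H.col ω (right_mem a1 x1)).1).trans (right_sub x1)
  · rw [kc, sum_mul]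
    refine norm_sum_le_of_le _ fun O hO => ?_
    obtain ⟨a1, -, rfl, rfl⟩ := m hO
    exact H.gA_le a1 hi hs hU

end Hyp

end Pool.Agent.Lib.MP_7f377f_mp.RG.Q4.En.Mg
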