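import Pool.Agent.Lib.MP_7f377f_mp.G.MgC
import Pool.Agent.Lib.MP_7f377f_mp.G.Q5Ball

/-! Merging of sources: the new family at a fixed level. -/

noncomputable section

open Pool.Agent.Lib.MP_7f377f_mp.Jet

set_option linter.unusedSectionVars false
variable [Pool.Agent.Lib.MP_7f377f_mp.GD]

namespace Pool.Agent.Lib.MP_7f377f_mp.RG.Q4.En.Mg

open Finset Function Sg Real
open scoped Classical

attribute [local irreducible] box lbox tb tau rc

variable {ι Ω : Type} [DecidableEq ι] [DecidableEq Ω] {p : Pa} {n m : ℕ} {b θ θ' Λ δ d : ℝ}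
  {k : Mj} {X : Finset St} {c : Finset (Finset St)} {D : Wd St ι Ω} {r r2 : ι → ℝ}
  {ψ : (ι → ℂ) → Lx} {K : (ι → ℂ) → Ac} {s : ι → ℂ} {S T : Finset ι} {N : Finset Ω}
  {η : Ω → (ι → ℂ) → Conf → ℂ} {w : Ω → ℂ} {M v : Ω → ℝ} {Z Zc : ι → Finset St} {U : Conf}
  {O : Finset (LP St ⊕ Ω)} {i : ι} {ω : Ω}

/-- the family of all the letters is entire and local -/
structure Lc (n : ℕ) (D : Wd St ι Ω) (ψ : (ι → ℂ) → Lx) (K : (ι → ℂ) → Ac)
    (η : Ω → (ι → ℂ) → Conf → ℂ) (r : ι → ℝ) (Z Zc : ι → Finset St) : Prop where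
  odd : Odd n
  eK : ∀ X c U, Hb r (K · X c U)
  eψ : ∀ x B, Hb r (ψ · x B)
  eη : ∀ ω U, Hb r (η ω · U)
  loc : Loc n Z ψ K
  zA : ∀ ω ∈ D.Om, ∀ i ∈ D.A ω, Z i ⊆ D.Z0 ω
  zB : ∀ c ∈ D.B, Z c ⊆ Zc c
  lη : ∀ ω ∈ D.Om, ∀ i ∉ D.A ω, Ind i (η ω)

/-- the weight of a word in the norm -/
def vw (D : Wd St ι Ω) (r : ι → ℝ) (b : ℝ) (M : Ω → ℝ) (ω : Ω) : ℝ :=
  M ω * exp (2 * b * (D.Z0 ω).card) / ∏ i ∈ D.A ω, r i

theorem mem_cs : O ∈ (cs D (box (n / 2)) X c).filter (·.toRight = N) ↔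
    O ⊆ D.obs (box (n / 2)) ∧ Conn D.sp O ∧ us D.sp O = X ∧ lb O = c ∧ O.toRight = N := by
  simp only [cs, mem_filter, mem_clus, and_assoc]

theorem kc_mul (u : Ω → ℝ) :
    (∏ ω ∈ N, u ω) * kc n D k v N X c = kc n D k (fun ω => u ω * v ω) N X c := by
  rw [kc, kc, mul_sum]
  exact sum_congr rfl fun O hO => by
    simp only [pw, (mem_filter.1 hO).2, prod_mul_distrib]; ring

theorem kc_nn (k0 : ∀ X c, 0 ≤ k X c) (v0 : ∀ ω, 0 ≤ v ω) : 0 ≤ kc n D k v N X c :=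
  sum_nonneg fun O _ => pw_nn k0 v0 O

theorem kc_sum (k0 : ∀ X c, 0 ≤ k X c) (v0 : ∀ ω, 0 ≤ v ω) (t : Finset (Finset Ω)) :
    ∑ N ∈ t, kc n D k v N X c ≤ ∑ O ∈ cs D (box (n / 2)) X c, pw k v O :=
  sum_fiberwise_le_sum_of_sum_fiber_nonneg fun _ _ => kc_nn k0 v0

theorem kc_sup (h : kc n D k v N X c ≠ 0) (hω : ω ∈ N) : D.X0 ω ⊆ X := by
  obtain ⟨O, hO, -⟩ := exists_ne_zero_of_sum_ne_zero h
  obtain ⟨-, -, rfl, -, rfl⟩ := mem_cs.1 hO
  exact right_sub hω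

/-- the norm of a family of insertions -/
theorem kN_ins (hp : Ps0 p) (hn : Odd n) (g : D.Ok (box (n / 2))) (δ0 : 0 < δ) {θ1 : ℝ}
    (h : kN (p.ad δ) n k θ) (h1 : θ ≤ θ1) (h0 : 0 < θ1) (θ0 : 0 < θ') (v0 : ∀ ω, 0 ≤ v ω)
    (hv : ∀ x, ∑ ω ∈ D.Om.filter (x ∈ D.X0 ·), v ω * exp ((p.a + δ) * tau n p.D (D.X0 ω)) ≤ θ')
    (sm : 8 * (exp (4 * p.a) * θ1) * (2 * p.D + 1) ^ 4 ≤ δ) :
    kN p n (fun X c => ∑ ω ∈ D.Om, kc n D k v {ω} X c) (4 * θ') := by
  have e0 := div_pos h0 θ0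
  have a := (kN_clus hp hn g δ0 (h.mono h1) (v := fun ω => θ1 / θ' * v ω) (θ' := θ1)
    (fun ω => mul_nonneg e0.le (v0 ω)) (fun x => by
      simp only [mul_assoc, ← mul_sum]
      exact (mul_le_mul_of_nonneg_left (hv x) e0.le).trans_eq (div_mul_cancel₀ _ θ0.ne'))
    (by linarith)).smul (inv_pos.2 e0).le
  refine (kN_le a (fun X c => sum_nonneg fun _ _ => kc_nn h.1 v0) fun X c => ?_).mono
    (le_of_eq (by field_simp; ring))
  rw [Pi.smul_apply, Pi.smul_apply, smul_eq_mul, le_inv_mul_iff₀ e0, mul_sum]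
  refine le_trans (le_of_eq ?_) (kc_sum h.1 (fun ω => mul_nonneg e0.le (v0 ω)) (D.Om.image singleton))
  rw [sum_image fun _ _ _ _ e => singleton_injective e]
  exact sum_congr rfl fun ω _ => by rw [← kc_mul, prod_singleton]

theorem KN_empty {o : LP St} (ho : o ∈ lps (box (n / 2))) :
    KN p n D ψ K η ∅ s o.1 o.2 U = K (cutS D.B s) o.1 o.2 U := by
  have a : ({.inl o} : Finset (LP St ⊕ Ω)).toLeft = {o} := by ext; simp
  have a' : ({.inl o} : Finset (LP St ⊕ Ω)).toRight = ∅ := by ext; simp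
  rw [KN, sum_eq_single_of_mem {.inl o} ((mem_cs (D := D) (X := o.1)).2 ⟨singleton_subset_iff.2
    (inl_mem_disjSum.2 ho), conn_single _ _, by simp [us, Wd.sp], by rw [lb, a, singleton_biUnion],
    a'⟩) fun O hO ne => ?_]
  · simp [gA, gam, PD, a, a', ad_empty]
  obtain ⟨-, a2, a3, a4, a5⟩ := mem_cs.1 hO
  rw [gA, gam, if_neg fun hp => ne ?_, zero_mul, zero_mul]
  have l : ∀ x ∈ O, ∃ y ∈ O.toLeft, x = .inl y := by
    rintro (y | y) h
    exacts [⟨y, mem_toLeft.2 h, rfl⟩, (notMem_empty y (a5 ▸ mem_toRight.2 h)).elim]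
  obtain ⟨x, rfl⟩ := a2.single fun x hx y hy e => by
    obtain ⟨x, h1, rfl⟩ := l x hx
    obtain ⟨y, h2, rfl⟩ := l y hy
    exact hp h1 h2 fun a => e (a ▸ rfl)
  obtain ⟨y, -, rfl⟩ := l x (mem_singleton_self x)
  have e : ({.inl y} : Finset (LP St ⊕ Ω)).toLeft = {y} := by ext; simp
  rw [us, singleton_biUnion] at a3
  rw [lb, e, singleton_biUnion] at a4
  obtain rfl : y = o := Sigma.ext a3 (heq_of_eq a4)
  rfl

theorem K2_zero : trK D.B (K2 p n D ψ K η w) 0 = K 0 := by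
  rw [trK_zero, K2, cut_zero, sum_eq_zero fun N hN => ?_, add_zero]
  obtain ⟨ω, h⟩ := (mem_filter.1 hN).2.1
  rw [mw, prod_eq_zero h (by simp), zero_smul]

namespace Lc

variable (L : Lc n D ψ K η r Z Zc) (g : D.Ok (box (n / 2)))
include L

theorem pos (i : ι) : 0 < r i := (L.eK ∅ ∅ 1).choose_spec.pos i

include g

theorem dat (p : Pa) (Φ : Lx) (U : Conf) : Dat D (fun s X c => K s X c U)
    (fun s => Ix p (ψ s - ψ (cutS D.B s)) (pc n U)) (η · · U) (box (n / 2)) r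
    fun s => Ix p (fun x B => Φ x B + ψ s x B) (pc n U) := by
  refine ⟨L.pos, fun X c => L.eK X c U, fun x => hb_mul (hb_const L.pos _)
    ((eqv_const (A := ∅) L.pos _).add (L.eψ x _).refl).neg.exp.fst, fun x => hb_mul (hb_const L.pos _)
    ((L.eψ x _).refl.sub (hb_cut (L.eψ x _) _).refl (A := ∅)).neg.exp.fst, fun ω => L.eη ω U,
    fun s x => ?_, fun ω h i hi X c d => ind_pi.1 (L.loc.act i X c
      (d.mono_left ((L.zA ω h i hi).trans (g.sub ω h).1))) U, fun ω h i hi x hx a => ?_,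
    fun ω h i hi ω' h' ne => ind_pi.1 (L.lη ω' h' i (disjoint_left.1 (g.dis ω h ω' h' ne.symm) hi)) U⟩
  · rcases Xp.chi_cases p (pc n U) x with h | h <;>
      simp only [Ix, h, zero_mul, one_mul, mul_zero, ← Complex.exp_add, Pi.sub_apply]
    congr 1
    ring
  · have := L.loc.psi i x fun e => a (L.zA ω h i hi (rc_eq L.odd hx ▸ e))
    exact ⟨this.comp fun φ => chi p (pc n U) x * Complex.exp (-(Φ x _ + φ _)),
      this.comp₂ (ind_cut' this) fun φ φ' => chi p (pc n U) x * Complex.exp (-(φ _ - φ' _))⟩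

theorem hb_KN : Hb r (KN p n D ψ K η N · X c U) :=
  hb_sum L.pos fun O _ => hb_cut ((L.dat g p 0 U).hb_gam O) _

theorem jd_KN (hS : S ⊆ D.ad N) : jd S (KN p n D ψ K η N · X c U) =
    ∑ O ∈ (cs D (box (n / 2)) X c).filter (·.toRight = N), jd S (gA p n D ψ K η O U) :=
  (jd_hsum L.pos (fun O _ => hb_cut ((L.dat g p 0 U).hb_gam O) _) S).trans
    (sum_congr rfl fun _ _ => jd_cut hS)

theorem jA_K2 (hT : T ⊆ D.B) : jA T (trK D.B (K2 p n D ψ K η w)) X c U = jA T K X c U +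
    ∑ N ∈ D.tv, if Tv D.cl N T then (∏ ω ∈ N, w ω) * jA (D.lt N T) (KN p n D ψ K η N) X c U
      else 0 := by
  have h := fun N => hb_cut (hb_mul (hb_mw (cl := D.cl) (N := N) L.pos w)
    (hb_pS (L.hb_KN g (p := p) (N := N) (X := X) (c := c) (U := U)) (N.biUnion D.A))) D.B
  simp only [jA_trK hT]
  simp only [jA]
  rw [← jd_cut hT, ← jd_cut (g := (K · X c U)) hT, ← sum_congr (s₁ := D.tv) rfl fun N hN =>
    jd_wd g (L.hb_KN g (N := N)) (mem_powerset.1 (mem_filter.1 hN).1) hT,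
    ← jd_hsum L.pos fun N _ => h N, ← jd_add (hb_cut (L.eK X c U) _).choose_spec
      (hb_sum L.pos fun N _ => h N).choose_spec]
  refine congrArg _ (funext fun s => ?_)
  simp only [K2, cut_cut Subset.rfl, Pi.add_apply, Finset.sum_apply, Pi.smul_apply, smul_eq_mul, pA]

/-- the tangent vectors of the new family -/
theorem jA_one (hi : i ∈ D.B) : jA {i} (trK D.B (K2 p n D ψ K η w)) =
    jA {i} K + ∑ ω ∈ D.Om.filter (D.cl · = i), w ω • Ins p n D ψ K η ω := by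
  ext X c U
  rw [L.jA_K2 g (singleton_subset_iff.2 hi), ← sum_subset (s₁ := (D.Om.filter (D.cl · = i)).image
    singleton) (s₂ := D.tv) (image_subset_iff.2 fun ω h => mem_filter.2
      ⟨by simpa using (mem_filter.1 h).1, by simp⟩) fun N h1 h2 => if_neg fun a => h2 ?_,
    sum_image fun _ _ _ _ e => singleton_injective e]
  · simp only [Pi.add_apply, Finset.sum_apply, Pi.smul_apply, smul_eq_mul, add_right_inj]
    refine sum_congr rfl fun ω h => ?_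
    have e := (mem_filter.1 h).2
    rw [if_pos (by simp [Tv, e]), prod_singleton, Ins]
    simp [Wd.lt, e]
  · obtain ⟨h3, ⟨ω, h4⟩, -⟩ := mem_filter.1 h1
    have e : ∀ ω ∈ N, D.cl ω = i := fun ω h => mem_singleton.1 (a.2 (mem_image_of_mem _ h))
    exact mem_image.2 ⟨ω, mem_filter.2 ⟨mem_powerset.1 h3 h4, e ω h4⟩, (eq_singleton_iff_unique_mem.2
      ⟨h4, fun x h => a.1 h h4 ((e x h).trans (e ω h4).symm)⟩).symm⟩

/-- the jets of the new representation -/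
theorem rep (Φ : Lx) {ξ : (ι → ℂ) → ℂ} (h3 : Hb r ξ) (h4 : ∀ s, ξ (cutS D.B s) = ξ s)
    (hT : T ⊆ D.B) : jd T (fun s => ξ s * Rep p n (fun x B => Φ x B + ψ (cutS D.B s) x B)
      (trK D.B (K2 p n D ψ K η w) s) U) = ∑ N ∈ D.Om.powerset, if Tv D.cl N T then
        (∏ ω ∈ N, w ω) * jd (D.lt N T) (fun s => (∏ ω ∈ N, η ω s U) *
          Rep p n (fun x B => Φ x B + ψ s x B) (K s) U * ξ s) else 0 := by
  refine (L.dat g p Φ U).jets g (κ' := fun s X c => trK D.B (K2 p n D ψ K η w) s X c U)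
    (fun X c => by rw [trK_eq]; exact ⟨_, sh_ma L.pos _ _⟩) (fun o ho T hT => ?_) h3 h4 hT
  refine (L.jA_K2 g hT).trans ?_
  rw [← sum_fiberwise_of_maps_to (s := cs D _ _ _) (t := D.Om.powerset) (g := toRight)
    fun O hO => mem_powerset.2
    fun ω a => right_mem (mem_clus.1 (mem_filter.1 hO).1).1 a,
    ← add_sum_erase _ _ (empty_mem_powerset _), ← sum_subset (s₁ := D.tv) (fun N h => mem_erase.2
      ⟨(mem_filter.1 h).2.1.ne_empty, (mem_filter.1 h).1⟩) fun N h1 h2 => ?_]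
  swap
  · exact sum_eq_zero fun O hO => if_neg fun a => h2 (mem_filter.2 ⟨(mem_erase.1 h1).2,
      nonempty_iff_ne_empty.2 (mem_erase.1 h1).1, (mem_filter.1 hO).2 ▸ a.1⟩)
  congr 1
  · rw [jA, ← jd_cut hT, ← funext fun s => KN_empty (p := p) (ψ := ψ) (η := η) (s := s) ho,
      L.jd_KN g (ad_empty (D := D) ▸ hT)]
    exact sum_congr rfl fun O hO => by simp [(mem_filter.1 hO).2, tv_empty, Wd.lt, gA]
  · refine sum_congr rfl fun N _ => ?_
    rw [jA, L.jd_KN g (lt_sub hT), mul_sum]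
    split_ifs with a
    · exact sum_congr rfl fun O hO => by rw [(mem_filter.1 hO).2, if_pos a]; rfl
    · exact (sum_eq_zero fun O hO => by rw [(mem_filter.1 hO).2, if_neg a]).symm

omit L g in
theorem ind_B {V : Type} [AddCommMonoid V] [Module ℂ V] {a : Finset ι → V} (h : i ∉ T) :
    Ind i (ma T a) := fun _ _ => ma_upd h

/-- the new family is local -/
theorem loc2 (hc : ∀ ω ∈ D.Om, D.X0 ω ⊆ Zc (D.cl ω)) :
    Loc n Zc (fun s => ψ (cutS D.B s)) (trK D.B (K2 p n D ψ K η w)) := by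
  refine ⟨fun i x hx => ?_, fun i X c hX => ?_⟩ <;> by_cases e : i ∈ D.B
  · exact ind_cut' (g := (ψ · x)) (L.loc.psi i x fun a => hx (L.zB i e a))
  · exact ind_cut e (ψ · x)
  swap
  · exact (ind_B e).comp fun K : Ac => K X c
  have d := hX.mono_left (L.zB i e)
  refine ind_pi.2 fun U => ?_
  rw [trK_eq]
  refine Ind.tr (fun s t => ?_) _
  simp only [K2, Pi.add_apply, Finset.sum_apply, Pi.smul_apply, smul_eq_mul, pA]
  refine congrArg₂ _ (congrFun (ind_cut' (L.loc.act i X c d) s t) U) (sum_congr rfl fun N hN => ?_)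
  have hN := mem_powerset.1 (mem_filter.1 hN).1
  by_cases a : ∃ ω ∈ N, D.cl ω = i
  · obtain ⟨ω, a, rfl⟩ := a
    rw [show (KN p n D ψ K η N · X c U) = fun _ => 0 from funext fun s => sum_eq_zero fun O hO => ?_,
      pS_zero, mul_zero, mul_zero]
    obtain ⟨-, -, rfl, -, rfl⟩ := mem_cs.1 hO
    obtain ⟨x, hx⟩ := (g.sub ω (hN a)).2.1
    exact (disjoint_left.1 hX (hc ω (hN a) hx) (right_sub a hx)).elim
  · rw [ind_pS (g := (KN p n D ψ K η N · X c U)) (fun s t => sum_congr rfl fun O hO =>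
      ind_cut' (fun s t => ?_) s t) _ s t, mw, mw,
      prod_congr rfl fun ω h => by rw [update_of_ne fun e => a ⟨ω, h, e⟩]]
    obtain ⟨a1, -, rfl, -, rfl⟩ := mem_cs.1 hO
    rw [gA, gam, gam, prod_congr rfl fun o ho =>
      congrFun (L.loc.act i _ _ (d.mono_right (left_sub ho)) s t) U, prod_congr rfl fun ω h =>
      congrFun (L.lη ω (hN h) i (disjoint_right.1 (g.out ω (hN h)) e) s t) U]
    refine congrArg _ (prod_congr rfl fun x hx => ?_)
    have x1 := z0_sub g a1 (mem_sdiff.1 hx).1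
    have := L.loc.psi i x fun a => disjoint_left.1 d (rc_eq L.odd (us_sub.2
      (fun o a => (sp_ok g o (a1 a)).2) x1) ▸ a) x1
    exact this.comp₂ (ind_cut' this) (fun φ φ' => chi p (pc n U) x * Complex.exp (-(φ _ - φ' _))) s t

end Lc

namespace Hyp

variable (H : Hyp p n D ψ K η r k b Λ M Zc)
include H

theorem vw_nn (ω : Ω) : 0 ≤ vw D r b M ω :=
  div_nonneg (mul_nonneg (H.M0 ω) (exp_pos _).le) (prod_nonneg fun i _ => (H.pos i).le)

theorem kt_nn (X : Finset St) (c : Finset (Finset St)) : 0 ≤ Λ ^ (tch D.B Zc X).card * k X c :=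
  mul_nonneg (pow_nonneg (zero_le_one.trans H.one) _) (H.k0 X c)

theorem fa_pKN (hN : N ⊆ D.Om) (hi : Set.InjOn D.cl N) :
    FA r p n (kc n D (fun X c => Λ ^ (tch D.B Zc X).card * k X c) (vw D r b M) N)
      (pA (N.biUnion D.A) (KN p n D ψ K η N)) := by
  convert fa_pA (H.fa_KN hN hi) (N.biUnion D.A) using 3 with X c
  rw [prod_biUnion fun ω a ω' a' e => H.geo.dis ω (hN a) ω' (hN a') e, div_eq_inv_mul,
    ← prod_inv_distrib, kc_mul]
  simp only [← div_eq_inv_mul]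
  rfl

/-- the majorant of an insertion -/
theorem km_ins (hω : ω ∈ D.Om) :
    KM p n (kc n D (fun X c => Λ ^ (tch D.B Zc X).card * k X c) (vw D r b M) {ω})
      (Ins p n D ψ K η ω) := by
  have := (H.fa_pKN (singleton_subset_iff.2 hω) (by simp)).km 0 (zero_mem H.pos)
  rwa [singleton_biUnion] at this

theorem fa_K2 (hr : ∀ i, 0 < r2 i) (e : ∀ i, r2 i ≤ r i) :
    FA r2 p n (k + fun X c => ∑ O ∈ cs D (box (n / 2)) X c, pw
      (fun X c => Λ ^ (tch D.B Zc X).card * k X c) (fun ω => ‖w ω‖ * r2 (D.cl ω) * vw D r b M ω) O)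
      (K2 p n D ψ K η w) := by
  have a := fun N (h : N ∈ D.tv) => fa_shrink (H.fa_pKN (mem_powerset.1 (mem_filter.1 h).1)
    (mem_filter.1 h).2.2) hr e
  have a0 := fa_shrink (H.fa ∅ (empty_subset _) (by simp)) hr e
  rw [ad_empty] at a0
  refine ⟨hr, fun s hs i X c U => ?_, fun s hs => ((a0.km s hs).add (km_sum fun N h =>
    ((a N h).km s hs).smul _)).mono fun X c => add_le_add le_rfl (le_trans (sum_le_sum fun N _ => ?_)
      (kc_sum H.kt_nn (fun ω => mul_nonneg (mul_nonneg (norm_nonneg _) (hr _).le) (H.vw_nn ω)) D.tv))⟩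
  · simp only [K2, Pi.add_apply, Finset.sum_apply, Pi.smul_apply, smul_eq_mul]
    exact (a0.hol s hs i X c U).add (.fun_sum fun N h =>
      ((hb_mw hr w).choose_spec.hol s hs i).mul ((a N h).hol s hs i X c U))
  · rw [← kc_mul, Pi.smul_apply, Pi.smul_apply, smul_eq_mul, mw, norm_prod]
    exact mul_le_mul_of_nonneg_right (prod_le_prod (fun _ _ => norm_nonneg _) fun ω _ =>
      norm_mul_le_of_le le_rfl (hs _).le) (kc_nn H.kt_nn H.vw_nn)

/-- the new family -/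
theorem fi (L : Lc n D ψ K η r Z Zc) (hp : Ps0 p) (hr : ∀ i, 0 < r2 i) (e : ∀ i, r2 i ≤ r i)
    {θ0 : ℝ} {K0 : (ι → ℂ) → Ac} (F : Fi p n D.B Z r θ0 (fun s => ψ (cutS D.B s)) K0) (δ0 : 0 < δ)
    (hk : kN (p.ad (3 * δ)) n k θ) (hc : Cls n d D.B id Zc) (hm : (m + 2 : ℝ) * p.D ≤ d)
    (hΛ : log (2 * Λ) ≤ δ * m) (hv : ∀ x, ∑ ω ∈ D.Om.filter (x ∈ D.X0 ·),
      ‖w ω‖ * r2 (D.cl ω) * vw D r b M ω * exp ((p.a + 2 * δ) * tau n p.D (D.X0 ω)) ≤ θ')
    (sm : 4 * (exp (4 * (p.a + δ)) * (Λ * θ + θ')) * (2 * p.D + 1) ^ 4 ≤ δ) :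
    Fi p n D.B Zc r2 (2 * (θ + 2 * (Λ * θ + θ'))) (fun s => ψ (cutS D.B s))
      (trK D.B (K2 p n D ψ K η w)) := by
  have c1 : ∀ a, (D.B.filter (id · = a)).card ≤ 1 := fun a => card_le_one.2
    fun a ha b hb => (mem_filter.1 ha).2.trans (mem_filter.1 hb).2.symm
  have Λ1 := H.one
  have l := L.loc2 (p := p) (w := w) H.geo fun ω h => (H.col ω h).2
  have k1 := kN_tch' (p := (p.ad δ).ad δ) hp.D hc hm c1 Λ1 (δ := δ) (by
    simpa using (log_le_log (by linarith) (by linarith)).trans hΛ) δ0.le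
    (by rwa [ad_ad, ad_ad, show δ + (δ + δ) = 3 * δ by ring])
  rw [pow_one] at k1
  have k2 := kN_clus (hp.ad δ0.le) L.odd H.geo δ0 k1 (fun ω => mul_nonneg (mul_nonneg (norm_nonneg _)
    (hr _).le) (H.vw_nn ω)) (fun x => by
      simpa only [Pa.ad, add_assoc, ← two_mul] using hv x) sm
  have k3 := kN_tch' hp.D hc hm c1 one_le_two (δ := δ) (by
    simpa using (log_le_log two_pos (by linarith)).trans hΛ) δ0.le
    ((kN_drop hk (by linarith)).add k2)
  rw [pow_one] at k3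
  refine ⟨hr, F.psi, ma_congr fun T hT => (jA_trK hT).symm, F.pu, l, _, k3, ?_⟩
  rw [← one_add_one_eq_two]
  refine ((H.fa_K2 hr e).trK (D := fun X _ => tch D.B Zc X) (fun X a T hT e => ?_) hr
    fun _ => (one_mul _).ge).km
  obtain ⟨i, h1, h2⟩ := not_subset.1 e
  rw [← jA_trK hT]
  exact funext fun U => l.jdA h1 (by_contra fun a => h2 (mem_tch.2 ⟨hT h1, a⟩)) a U

end Hyp

end Pool.Agent.Lib.MP_7f377f_mp.RG.Q4.En.Mg
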