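import Pool.Agent.Lib.MP_7f377f_mp.G.MgD
import Pool.Agent.Lib.MP_7f377f_mp.G.Q5CmA

/-! Merging of sources: subfamilies, growing radii and uniform majorants. -/

noncomputable section

open Pool.Agent.Lib.MP_7f377f_mp.Jet

set_option linter.unusedSectionVars false
variable [Pool.Agent.Lib.MP_7f377f_mp.GD]

namespace Pool.Agent.Lib.MP_7f377f_mp.RG.Q4.En

open Finset Function Sg Real Pos Mg
open scoped Classical

attribute [local irreducible] box lbox tb tau rc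

variable {ι Ω α : Type} [DecidableEq ι] [DecidableEq Ω] {A A' T : Finset ι} {s : ι → ℂ}
  {ψ : (ι → ℂ) → Lx} {K : (ι → ℂ) → Ac} {p : Pa} {n c m : ℕ} {Z W : ι → Finset St}
  {x y z d u b θ θ0 ρ : ℝ} {r r' r0 : ι → ℝ} {Y : Fy ι} {D : Wd St ι Ω} {N : Finset Ω}
  {Λ X : Finset St} {ω : Ω} {i : ι} {S : Sd}

/-- the subfamily of the letters in `A` -/
def Fy.cut (Y : Fy ι) (A : Finset ι) : Fy ι :=
  ⟨fun s => Y.ψ (cutS A s), fun s => Y.K (cutS A s), fun s => Y.E (cutS A s), Y.Z⟩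

theorem jL_cut (e : T ⊆ A) : jL T (fun s => ψ (cutS A s)) = jL T ψ := by
  ext x B; exact jd_cut (g := (ψ · x B)) e

theorem jA_cut (e : T ⊆ A) : jA T (fun s => K (cutS A s)) = jA T K := by
  ext X c U; exact jd_cut (g := (K · X c U)) e

theorem trK_cut (e : A ⊆ A') : trK A (fun s => K (cutS A s)) = fun s => trK A' K (cutS A s) :=
  (ma_congr fun _ => jA_cut).trans (funext fun _ => (ma_cut _ e).symm)

theorem cut_jt (e : T ⊆ A) : (Y.cut A).jt T = Y.jt T := Prod.ext (jL_cut e) (jA_cut e)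

theorem cut_bs : (Y.cut A).bs = Y.bs := by simp only [Fy.bs, Fy.cut, cut_zero]

theorem sF_cut {F : ι → Sr} (e : A ⊆ A') : sF A' F (cutS A s) = sF A F s := by
  rw [sF, sF, ← sum_subset e fun i _ h => by rw [cutS, if_neg h, zero_smul]]
  exact sum_congr rfl fun i h => by rw [cutS, if_pos h]

theorem ind_zero {g : (ι → ℂ) → α} (h : ∀ i ∈ A, Ind i g) : g (cutS A s) = g 0 := by
  induction A using Finset.induction_on with
  | empty => exact congrArg g (funext fun i => if_neg (notMem_empty i))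
  | insert i A hi ih =>
    rw [← ih fun j hj => h j (mem_insert_of_mem hj), ← h i (mem_insert_self _ _) (cutS A s) (s i)]
    exact congrArg g (funext fun j => by by_cases e : j = i <;> simp [cutS, e])

theorem ma_union {e : Finset ι → ℂ} (d : Disjoint A A')
    (h : ∀ T ⊆ A ∪ A', ∀ i ∈ T, ∀ j ∈ T, i ∈ A → j ∈ A' → e T = 0) :
    ma (A ∪ A') e s = ma A e s + (ma A' e s - e ∅) := by
  have := sum_union_inter (s₁ := A.powerset) (s₂ := A'.powerset) (f := fun T => mon T s • e T)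
  rw [show A.powerset ∩ A'.powerset = {∅} from eq_singleton_iff_unique_mem.2 ⟨by simp, fun T h =>
    subset_empty.1 (disjoint_iff_inter_eq_empty.1 d ▸ subset_inter (mem_powerset.1 (mem_inter.1 h).1)
      (mem_powerset.1 (mem_inter.1 h).2))⟩, sum_subset (union_subset (powerset_mono.2
    subset_union_left) (powerset_mono.2 subset_union_right)) fun T h1 h2 => ?_] at this
  · rw [← add_sub_assoc, ma, ma, ma, ← this]
    simp [mon]
  · simp only [mem_union, mem_powerset, not_or, not_subset] at h1 h2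
    obtain ⟨⟨j, a1, a2⟩, i, a3, a4⟩ := h2
    rw [h T h1 i a3 j a1 ((mem_union.1 (h1 a3)).resolve_right a4)
      ((mem_union.1 (h1 a1)).resolve_left a2), smul_zero]

theorem ma_bi [DecidableEq α] {e : Finset ι → ℂ} {t : Finset α} {S : α → Finset ι}
    (d : ∀ a ∈ t, ∀ a' ∈ t, a ≠ a' → Disjoint (S a) (S a')) (h : ∀ T ⊆ t.biUnion S, ∀ i ∈ T, ∀ j ∈ T,
      ∀ a ∈ t, ∀ a' ∈ t, a ≠ a' → i ∈ S a → j ∈ S a' → e T = 0) :
    ma (t.biUnion S) e s = e ∅ + ∑ a ∈ t, (ma (S a) e s - e ∅) := by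
  induction t using Finset.induction_on with
  | empty => simp [ma, mon]
  | insert a t ha ih =>
    have m := @mem_insert_of_mem _ _ t
    rw [biUnion_insert] at *
    rw [ma_union ((disjoint_biUnion_right _ _ _).2 fun a' h' => d a (mem_insert_self _ _) a' (m h')
      fun k => ha (k ▸ h')) fun T hT i hi j hj a1 a2 => ?_, ih (fun _ h1 _ h2 => d _ (m h1) _ (m h2))
      fun T hT i hi j hj _ h1 _ h2 => h T (hT.trans subset_union_right) i hi j hj _ (m h1) _ (m h2),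
      sum_insert ha]
    · ring
    · obtain ⟨a', h', a2⟩ := mem_biUnion.1 a2
      exact h T hT i hi j hj a (mem_insert_self _ _) a' (m h') (fun k => ha (k ▸ h')) a1 a2

theorem ma_lin {e : Finset ι → ℂ} (h : ∀ T ⊆ A, ∀ i ∈ T, ∀ j ∈ T, i ≠ j → e T = 0) :
    ma A e s = e ∅ + ∑ i ∈ A, s i * e {i} := by
  have := ma_bi (s := s) (e := e) (t := A) (S := singleton) (by simp) fun T hT i hi j hj _ _ _ _ ne
    a b => h T (hT.trans biUnion_singleton_eq_self.le) i hi j hj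
      (mem_singleton.1 a ▸ mem_singleton.1 b ▸ ne)
  rw [biUnion_singleton_eq_self] at this
  refine this.trans (congrArg _ (sum_congr rfl fun i _ => ?_))
  rw [show ({i} : Finset ι) = insert i ∅ from rfl, ma_insert (notMem_empty i)]
  simp [ma, mon]

theorem ML.pm_one' (h : ML n A Z ψ) (h0 : 0 < p.ρ) (hc : Cls n d A id Z) (hd : 0 < d)
    (a : PM p x y z (ψ 0)) {β γ : ℝ} (β0 : 0 ≤ β) (γ0 : 0 ≤ γ) (u0 : 0 ≤ u)
    (a' : ∀ i ∈ A, ∃ N, ‖s i‖ * N ≤ u ∧ PM p N (β * N) (γ * N) (jL {i} ψ)) :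
    PM p (x + u) (y + β * u) (z + γ * u) (ψ s) := fun v => by
  rcases h.one hc hd v with e | ⟨i, hi, -, e⟩ <;> rw [e]
  · exact ⟨(a v).1.mono' h0 (by linarith) (by nlinarith) (by nlinarith), (a v).2⟩
  · obtain ⟨N, h1, h2⟩ := a' i hi
    exact ⟨((a v).1.add ((h2 v).1.smul h0 (s i)).1 h0).1.mono' h0 (by linarith)
      (by nlinarith) (by nlinarith), (a v).2.add ((h2 v).2.const_mul _)⟩

namespace Mg

/-- at most one word in each cell -/
def Wd.Tr (D : Wd St ι Ω) (N : Finset Ω) : Prop := N ⊆ D.Om ∧ Set.InjOn D.cl N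

/-- all the letters -/
def Wd.al (D : Wd St ι Ω) : Finset ι := D.Om.biUnion D.A ∪ D.B

/-- the cell of a letter -/
def Wd.ce (D : Wd St ι Ω) (x : ι) : ι := if h : ∃ ω ∈ D.Om, x ∈ D.A ω then D.cl h.choose else x

theorem tr_empty : D.Tr ∅ := ⟨empty_subset _, by simp⟩

theorem tr_one (h : ω ∈ D.Om) : D.Tr {ω} := ⟨singleton_subset_iff.2 h, by simp⟩

theorem ad_sub (h : N ⊆ D.Om) : D.ad N ⊆ D.al :=
  union_subset_union (biUnion_subset_biUnion_of_subset_left _ h) sdiff_subset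

theorem a_sub (h : ω ∈ N) : D.A ω ⊆ D.ad N := (subset_biUnion_of_mem _ h).trans subset_union_left

section

variable (g : D.Ok Λ)
include g

theorem ce_A (h : ω ∈ D.Om) (hi : i ∈ D.A ω) : D.ce i = D.cl ω := by
  have e : ∃ ω ∈ D.Om, i ∈ D.A ω := ⟨ω, h, hi⟩
  rw [Wd.ce, dif_pos e]
  exact congrArg _ (by_contra fun a =>
    disjoint_left.1 (g.dis _ e.choose_spec.1 ω h a) e.choose_spec.2 hi)

theorem ce_B (hi : i ∈ D.B) : D.ce i = i :=
  dif_neg fun ⟨ω, h, a⟩ => disjoint_left.1 (g.out ω h) a hi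

theorem ce_mem (hi : i ∈ D.al) : D.ce i ∈ D.B := by
  rcases mem_union.1 hi with h | h
  · obtain ⟨ω, h, a⟩ := mem_biUnion.1 h
    exact ce_A g h a ▸ g.cl ω h
  · rwa [ce_B g h]

theorem ce_card (hN : D.Tr N) (hc : ∀ ω ∈ D.Om, (D.A ω).card ≤ c) (c1 : 1 ≤ c) (a : ι) :
    ((D.ad N).filter (D.ce · = a)).card ≤ c := by
  have k : ∀ x ∈ (D.ad N).filter (D.ce · = a),
      (∃ ω ∈ N, x ∈ D.A ω ∧ D.cl ω = a) ∨ x = a ∧ a ∉ N.image D.cl := fun x hx => by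
    obtain ⟨h, rfl⟩ := mem_filter.1 hx
    refine (mem_union.1 h).imp (fun h => ?_) fun h => ?_
    · obtain ⟨ω, h, e⟩ := mem_biUnion.1 h
      exact ⟨ω, h, e, (ce_A g (hN.1 h) e).symm⟩
    · rw [ce_B g (mem_sdiff.1 h).1]
      exact ⟨rfl, (mem_sdiff.1 h).2⟩
  by_cases e : a ∈ N.image D.cl
  · obtain ⟨ω, h, rfl⟩ := mem_image.1 e
    refine (card_le_card fun x hx => ?_).trans (hc ω (hN.1 h))
    obtain ⟨ω', h', a1, a2⟩ := (k x hx).resolve_right fun a => a.2 e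
    exact hN.2 h' h a2 ▸ a1
  · exact (card_le_card (t := {a}) fun x hx => mem_singleton.2 ((k x hx).resolve_left
      fun ⟨ω, h, _, a⟩ => e (mem_image.2 ⟨ω, h, a⟩)).1).trans c1

variable (hZ : ∀ x ∈ D.al, Z x ⊆ W (D.ce x))
include hZ

theorem tch_ce (hN : D.Tr N) (hc : ∀ ω ∈ D.Om, (D.A ω).card ≤ c) (c1 : 1 ≤ c) :
    (tch (D.ad N) Z X).card ≤ c * (tch D.B W X).card :=
  (tch_le (ce_card g hN hc c1) X).trans (Nat.mul_le_mul_left _ (card_le_card (image_subset_iff.2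
    fun x h => have a := ad_sub hN.1 (mem_tch.1 h).1
      mem_tch.2 ⟨ce_mem g a, fun e => (mem_tch.1 h).2 (e.mono_left (hZ x a))⟩)))

theorem cls_ce (hN : N ⊆ D.Om) (h : Cls n d D.B id W) : Cls n d (D.ad N) D.ce Z :=
  fun x hx y hy e => (h _ (ce_mem g (ad_sub hN hx)) _ (ce_mem g (ad_sub hN hy)) e).mono le_rfl
    (hZ x (ad_sub hN hx)) (hZ y (ad_sub hN hy))

end

/-- one majorant for all admissible subfamilies -/
def Um (D : Wd St ι Ω) (p : Pa) (δ : ℝ) (n : ℕ) (r : ι → ℝ) (θ : ℝ) (K : (ι → ℂ) → Ac) : Prop :=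
  ∃ k, kN (p.ad δ) n k θ ∧ ∀ N, D.Tr N → ∀ s ∈ Pd r, KM p n k (K (cutS (D.ad N) s))

theorem Um.mono {δ δ' θ' : ℝ} (h : Um D p δ n r θ K) (e : δ' ≤ δ) (e' : θ ≤ θ') :
    Um D p δ' n r θ' K := h.imp fun _ a => ⟨(kN_drop a.1 e).mono e', a.2⟩

/-- truncation keeps the uniform majorant -/
theorem um_trK {k : Mj} (g : D.Ok Λ) (hZ : ∀ x ∈ D.al, Z x ⊆ W (D.ce x))
    (hc : ∀ ω ∈ D.Om, (D.A ω).card ≤ c) (c1 : 1 ≤ c) (hD : 1 ≤ p.D) (k1 : kN p.up n k θ)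
    (h : ∀ N, D.Tr N → FA r p n k fun s => K (cutS (D.ad N) s)) (l : Loc n Z ψ K)
    (cl : Cls n d D.B id W) (hm : (m + 2 : ℝ) * p.D ≤ d) (ρ0 : 0 ≤ ρ) (hρ : 2 * c * ρ ≤ m)
    (hr : ∀ i, 0 < r' i) (e : ∀ i, r' i ≤ ρ * r i) :
    Um D p (1 / 2) n r' ((1 + ρ) ^ c * θ) (trK D.al K) := by
  have ρ1 : 1 ≤ 1 + ρ := by linarith
  have := kN_tch' (p := p.ad (1 / 2)) (q := 1) (δ := 1 / 2) hD cl hm (fun a => card_le_one.2
    fun a ha b hb => (mem_filter.1 ha).2.trans (mem_filter.1 hb).2.symm) (one_le_pow₀ (n := c) ρ1)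
    (by
      have := mul_le_mul_of_nonneg_left (log_le_sub_one_of_pos (one_pos.trans_le ρ1)) c.cast_nonneg
      rw [log_pow]; push_cast; linarith) (by norm_num) (by rwa [ad_ad, add_halves])
  rw [pow_one] at this
  refine ⟨_, this, fun N hN s hs => ?_⟩
  rw [← congrFun (trK_cut (ad_sub hN.1)) s]
  refine (((h N hN).trK (D := fun X _ => tch (D.ad N) Z X) (fun X a T hT e => ?_) hr e).km s
    hs).mono fun X a => mul_le_mul_of_nonneg_right ?_ (k1.1 X a)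
  · obtain ⟨i, h1, h2⟩ := not_subset.1 e
    rw [jA_cut hT]
    exact funext fun U => l.jdA h1 (by_contra fun a => h2 (mem_tch.2 ⟨hT h1, a⟩)) a U
  · rw [← pow_mul]
    exact pow_le_pow_right₀ ρ1 (tch_ce g hZ hN hc c1)

end Mg

namespace Gl

variable (G : Gl)

/-- separated letters with the radii `r k` between the levels `i` and `l` of a run -/
structure Fw3 (A : Finset ι) (b : ℝ) (J i l : ℕ) (r0 : ι → ℝ) (r : ℕ → ι → ℝ) (m : ℕ → ℕ)
    (Y : Fy ι) : Prop where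
  sz : ∀ k, l ≤ k → k ≤ i → ∀ x ∈ A, ∃ N, G.Q k ^ 223 * (r k x * N) ≤ G.bb k ∧
    G.Sz k N N (G.Q k ^ 100)⁻¹ (G.tn b J (Y.jt {x}) i k).1 (G.tn b J (Y.jt {x}) i k).2
  sep : ∀ k, l ≤ k → k ≤ i → Cls (G.N k) ((m k + 2) * (G.p k).D) A id fun a => G.zs (Y.Z a) i k
  rad : ∀ k, l ≤ k → k ≤ i → 1 ≤ m k ∧ 40 * (m k : ℝ) ≤ G.Q k ∧
    ∀ x, r0 x ≤ r k x ∧ (k < i → r k x ≤ m k * r (k + 1) x)

variable {G} {J i k l : ℕ} {z : En.Z} {F : ι → Sr} {f : (ι → ℂ) → Conf → ℂ}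

theorem fs_cut (e : A ⊆ A') : G.fs A k z (Y.cut A) = (G.fs A' k z Y).cut A := by
  rw [fs, Fy.cut, Fy.cut, fs, ← trK_cut e]

theorem fw_cut (e : A ⊆ A') : ∀ k ≤ i, G.fw A b J (Y.cut A) i k = (G.fw A' b J Y i k).cut A :=
  dw_ind (by rw [fw_top, fw_top]) fun k hk ih => by rw [fw_step hk, fw_step hk, ih, fs_cut e]

theorem ft_cut (e : A ⊆ A') : (G.ft A' F W b J).cut A = G.ft A F W b J := by
  simp only [ft, Fy.cut, ← trK_cut e, sF_cut e]
  rfl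

theorem fw_loc (h : G.Ok) (l : Loc (G.N i) Y.Z Y.ψ Y.K) :
    ∀ k ≤ i, Loc (G.N k) (G.fw A b J Y i k).Z (G.fw A b J Y i k).ψ (G.fw A b J Y i k).K :=
  dw_ind (by rwa [fw_top]) fun k hk ih => by
    rw [← h.sd_nf k (G.zz b J (k + 1))] at ih
    have := ((ih.step (h.sd_all k _).nu).add fun _ => src (G.sd k (G.zz b J (k + 1)))
      (G.kp k (G.zz b J (k + 1)))).trunc A
    rw [← show trK A _ = _ from funext fun s => funext fun X => funext fun c => funext fun U =>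
      congrFun (trK_eq X c U) s] at this
    rwa [fw_step hk]

namespace Ok

variable (h : G.Ok)
include h

theorem DQ (k : ℕ) : (2 * (G.p k).D + 1 : ℝ) ^ 4 ≤ G.Q k := by
  have L := h.L1 k
  have a : 120 * (G.K0 + 1) ≤ G.K := (h.sl_all 0 (G.top0 0 0)).nu.K_ge
  have e : (2 * (G.p k).D + 1 : ℝ) ≤ G.L k ^ (G.K0 + 1) := by
    rw [show (G.p k).D = 20 * G.L k ^ G.K0 from rfl, pow_succ]
    push_cast
    nlinarith [one_le_pow₀ (n := G.K0) (show (1 : ℝ) ≤ G.L k by linarith)]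
  refine (pow_le_pow_left₀ (by positivity) e 4).trans ?_
  rw [← pow_mul]
  exact pow_le_pow_right₀ (by linarith) (by omega)

theorem ps0 (k : ℕ) : Ps0 (G.p k) :=
  ⟨Nat.cast_pos.1 (h.D_pos k), mul_nonneg zero_le_two (log_nonneg (h.Q1 k)),
    (pow_pos (h.Q0 k) 3).le, (mul_pos two_pos (h.Q0 k)).le, sqrt_nonneg _⟩

theorem pu_fam {φ : Lx} {L : Ac}
    (e : G.Sz k (G.bb k / G.Q k ^ 222) (G.bb k / G.Q k ^ 222) (G.Q k ^ 100)⁻¹ φ L) :
    PU (G.p k) (G.Q k ^ 211)⁻¹ φ := by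
  have q := h.Q0 k
  refine pu_mono (h.sz_pu e (mul_inv_cancel₀ (pow_pos q _).ne').le) ?_
  calc _ = 2 * (G.Q k ^ 212)⁻¹ * (G.bb k * G.g k ^ 2) := by field_simp; ring
    _ ≤ _ := by
      rw [h.bg]
      linarith [h.inv_le k (show 211 < 212 by norm_num), inv_pos.2 (pow_pos q 212)]

variable (t : G.Tu b J)
include t

/-- the family stays in the ball -/
theorem sz_fam (hk : k ≤ J) (e : Fi (G.p k) (G.N k) A Z r (G.Q k ^ 329)⁻¹ ψ K)
    (hc : Cls (G.N k) d A id Z) (hd : 0 < d) (e1 : ψ 0 = (G.zz b J k).ψ)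
    (sz : ∀ x ∈ A, ∃ N L, G.Q k ^ 223 * (r x * N) ≤ G.bb k ∧
      G.Sz k N N (G.Q k ^ 100)⁻¹ (jL {x} ψ) L) (hs : s ∈ Pd r) :
    G.Sz k (G.bb k / G.Q k ^ 222) (G.bb k / G.Q k ^ 222) (G.Q k ^ 100)⁻¹ (ψ s) (K s) := by
  have q := h.Q0 k
  have b0 := h.b0 k
  obtain ⟨u, hu⟩ : ∃ u, u = G.bb k / G.Q k ^ 223 := ⟨_, rfl⟩
  have u1 : 1 ≤ u := hu ▸ (one_le_div (pow_pos q _)).2 (by
    linarith [h.Qbb k (show 223 < 4000 by norm_num), pow_pos q 223])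
  have u2 : 1 + u ≤ G.bb k / G.Q k ^ 222 := by
    rw [show G.bb k / G.Q k ^ 222 = G.Q k * u by rw [hu]; field_simp]
    nlinarith [h.cQ k (C := 2) (by norm_num)]
  have a := e.ml.pm_one' (s := s) (h.ρ0 k) hc hd (e1 ▸ (t.gd k hk).dt.sz.1) (sq_nonneg (G.Q k))
    (γ := G.Q k ^ 50 * (G.Q k ^ 100)⁻¹ * G.g k ^ 2) (by positivity) (zero_le_one.trans u1)
    fun x hx => by
      obtain ⟨N, L, a1, a2⟩ := sz x hx
      refine ⟨N, (mul_le_mul_of_nonneg_right (hs x).le (h.sz_nn a2).1).trans ?_,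
        by rw [mul_right_comm _ _ N]; exact a2.1⟩
      rwa [hu, le_div_iff₀' (pow_pos q _)]
  obtain ⟨k0, k1, k2⟩ := e.km
  refine ⟨PM.mono (h.ρ0 k) a u2 (by nlinarith [sq_nonneg (G.Q k)]) ?_, k0, k2 s hs, k1.mono ?_⟩
  · calc _ ≤ G.Q k ^ 50 * (G.Q k ^ 100)⁻¹ * 1 * G.g k ^ 2 +
          G.Q k ^ 50 * (G.Q k ^ 100)⁻¹ * G.g k ^ 2 * u := by gcongr; exact h.sg_le k
      _ = G.Q k ^ 50 * (G.Q k ^ 100)⁻¹ * (1 + u) * G.g k ^ 2 := by ring
      _ ≤ _ := by gcongr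
  · calc _ ≤ (G.Q k ^ 322)⁻¹ := inv_anti₀ (pow_pos q _) (pow_le_pow_right₀ (h.Q1 k) (by norm_num))
      _ = (G.Q k ^ 322)⁻¹ * (G.bb k * G.g k ^ 2) := by rw [h.bg, mul_one]
      _ = _ := by field_simp

omit t in
theorem pu_big {φ : Lx} (e : PU (G.p (k + 1)) (G.Q (k + 1) ^ 211)⁻¹ φ) :
    PU (G.p (k + 1)) (2 * (G.Q k ^ 210)⁻¹) φ := pu_mono e ((h.inv_up k.le_succ _).trans (by
  linarith [h.inv_le k (show 210 < 211 by norm_num), inv_pos.2 (pow_pos (h.Q0 k) 211)]))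

omit t in
theorem th_big (k : ℕ) (z : En.Z) : (G.Q (k + 1) ^ 329)⁻¹ ≤ 2 * (5 * (G.Q k ^ 329)⁻¹) ∧
    ∀ C, 0 ≤ C → C * (G.sd k z).θ' (2 * (G.Q k ^ 210)⁻¹) (2 * (5 * (G.Q k ^ 329)⁻¹)) ≤
      20 * C / G.Q k * (G.Q k ^ 329)⁻¹ :=
  ⟨by linarith [h.inv_up k.le_succ 329, inv_pos.2 (pow_pos (h.Q0 k) 329)], fun C C0 =>
    (mul_le_mul_of_nonneg_left ((h.bl_big k z).th (h.sd_all k z).nu) C0).trans_eq (by
      change C * (_ / G.Q k) = _
      ring)⟩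

/-- separated letters with growing radii -/
theorem chainG {r : ℕ → ι → ℝ} {m : ℕ → ℕ} (hp : G.Pu) (hi : i ≤ J) (w : G.Fw3 A b J i l r0 r m Y)
    (e : G.Fd i (G.zz b J i) A r0 (r i) (G.Q i ^ 329)⁻¹ Y f) (e1 : Y.bs = (G.zz b J i).d)
    (e3 : Y.Ec A id) : ∀ k ≤ i, l ≤ k →
      G.Fd k (G.zz b J k) A r0 (r k) (G.Q k ^ 329)⁻¹ (G.fw A b J Y i k) (fun s => G.tt (f s) i k) ∧
      (G.fw A b J Y i k).bs = (G.zz b J k).d ∧
      (∀ x ∈ A, (G.fw A b J Y i k).jt {x} = G.tn b J (Y.jt {x}) i k) ∧ (G.fw A b J Y i k).Ec A id ∧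
      ∀ s ∈ Pd (r k), G.Sz k (G.bb k / G.Q k ^ 222) (G.bb k / G.Q k ^ 222) (G.Q k ^ 100)⁻¹
        ((G.fw A b J Y i k).ψ s) ((G.fw A b J Y i k).K s) := by
  have D : ∀ k, (0 : ℝ) < (m k + 2) * (G.p k).D := fun k => by have := h.D_pos k; positivity
  have c : ∀ k, l ≤ k → k ≤ i → Cls (G.N k) ((m k + 2) * (G.p k).D) A id (G.fw A b J Y i k).Z :=
    fun k a b => by rw [fw_Z k b]; exact w.sep k a b
  have S : ∀ k ≤ i, l ≤ k → ∀ {f}, G.Fd k (G.zz b J k) A r0 (r k) (G.Q k ^ 329)⁻¹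
      (G.fw A b J Y i k) f → (G.fw A b J Y i k).bs = (G.zz b J k).d →
      (∀ x ∈ A, (G.fw A b J Y i k).jt {x} = G.tn b J (Y.jt {x}) i k) → ∀ s ∈ Pd (r k), _ :=
    fun k a1 a2 _ a3 a4 a5 s => h.sz_fam t (a1.trans hi) a3.fi (c k a2 a1) (D k)
      (congrArg Prod.fst a4) fun x hx => (w.sz k a2 a1 x hx).imp fun _ a => ⟨_, a5 x hx ▸ a⟩
  refine dw_ind (fun a => ?_) fun k hk ih a => ?_
  · have e' : G.Fd i (G.zz b J i) A r0 (r i) (G.Q i ^ 329)⁻¹ (G.fw A b J Y i i)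
        fun s => G.tt (f s) i i := by simpa only [fw_top, tt_top] using e
    have e2 : ∀ x ∈ A, (G.fw A b J Y i i).jt {x} = G.tn b J (Y.jt {x}) i i := by
      simp only [fw_top, tn_top, implies_true]
    exact ⟨e', by rwa [fw_top], e2, by rwa [fw_top], S i le_rfl a e' (by rwa [fw_top]) e2⟩
  obtain ⟨c1, c2, c3, c4, c5⟩ := ih (by omega)
  obtain ⟨m1, m2, m3⟩ := w.rad k a hk.le
  have kJ := hk.trans_le hi
  have u := h.pu_all t hp k kJ
  have ad := h.ad t kJ u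
  have B := h.bl_big k (G.zz b J (k + 1))
  have T := h.th_big k (G.zz b J (k + 1))
  have cl := c k a hk.le
  have p : ∀ x, 0 < r k x := fun x => (e.eq.fst.pos x).trans_le (m3 x).1
  rw [fw_step hk] at cl
  have a1 := (h.fam1 (c := 1) ad (c1.mono c1.fi.pos (fun _ => le_rfl) T.1)
    (fun x => ((w.rad _ (by omega) hk).2.2 x).1) (fun s hs => h.pu_big (h.pu_fam (c5 s hs)))
    B.b_le B.θ_le cl le_rfl (fun c => card_le_one.2 fun a ha b hb => (mem_filter.1 ha).2.trans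
      (mem_filter.1 hb).2.symm) (m k).cast_nonneg (by simp) p fun x => (m3 x).2 hk).mono p
    (fun _ => le_rfl) ((T.2 _ (by positivity)).trans (mul_le_of_le_one_left
      (inv_pos.2 (pow_pos (h.Q0 k) _)).le ((div_le_one (h.Q0 k)).2 (by
        linarith [show (1 : ℝ) ≤ m k by exact_mod_cast m1]))))
  have a2 : (G.fw A b J Y i k).bs = (G.zz b J k).d := by
    rw [fw_step hk, fs_bs, c2, zz_step b kJ]; rfl
  have a3 : ∀ x ∈ A, (G.fw A b J Y i k).jt {x} = G.tn b J (Y.jt {x}) i k := fun x hx => by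
    rw [fw_step hk, h.fs_jt ad.tz c1.fi hx, c2, c3 x hx, tn_step hk]; rfl
  have a4 := h.fs_ec u c1 c4 cl (D k)
  simp only [← tt_step _ hk, ← zz_step b kJ, ← fw_step hk] at a1 a4
  exact ⟨a1, a2, a3, a4, S k hk.le a a1 a2 a3⟩

end Ok

end Gl

end Pool.Agent.Lib.MP_7f377f_mp.RG.Q4.En
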