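import Pool.Agent.Lib.MP_7f377f_mp.G.MgF
import Pool.Agent.Lib.MP_7f377f_mp.G.Q5TanR

/-! Merging of sources: canonical insertions, relabelling, translations and reality. -/

noncomputable section

open Pool.Agent.Lib.MP_7f377f_mp.Jet

set_option linter.unusedSectionVars false
variable [Pool.Agent.Lib.MP_7f377f_mp.GD]

namespace Pool.Agent.Lib.MP_7f377f_mp.RG.Q4.En

open Finset Function Sg Real Pos Mg
open scoped Classical

attribute [local irreducible] box lbox tb tau rc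

variable {ι κ Ω α : Type} [DecidableEq ι] [DecidableEq κ] [DecidableEq Ω]

/-- extension of the variables by zero -/
def exz (e : κ → ι) (s : κ → ℂ) : ι → ℂ := extend e s 0

/-- restriction of a family to some letters -/
def Fy.pull (Y : Fy ι) (e : κ → ι) : Fy κ :=
  ⟨fun s => Y.ψ (exz e s), fun s => Y.K (exz e s), fun s => Y.E (exz e s), fun x => Y.Z (e x)⟩

/-- `Y'` is the family `Y` seen from `v` -/
def Fy.Tq (n : ℕ) (v : St) (Y Y' : Fy ι) : Prop := ∀ s, trL n v (Y.ψ s) = Y'.ψ s ∧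
  (∀ o ∈ lps (box (n / 2)), trA n v (Y.K s) o.1 o.2 = Y'.K s o.1 o.2) ∧ Y.E s = Y'.E s

/-- the family is real -/
def Fy.Rl (p : Pa) (r : ι → ℝ) (Y : Fy ι) : Prop := ∀ s ∈ Pd r, (∀ x, (s x).im = 0) →
  RealP p (Y.ψ s) ∧ RealA (Y.K s) ∧ (Y.E s).im = 0

/-- the same data, up to the supports -/
def Fy.Se (Y Y' : Fy ι) : Prop := Y.ψ = Y'.ψ ∧ Y.K = Y'.K ∧ Y.E = Y'.E

/-- a single word -/
def Mg.wd1 (κ : Type) [Fintype κ] [Inhabited κ] (Z0 X0 : Finset St) : Wd St κ Unit :=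
  ⟨∅, univ, fun _ => univ, fun _ => default, fun _ => Z0, fun _ => X0⟩

/-- the insertion of the product of all the letters of `Y` -/
def Gl.cIn [Fintype κ] [Inhabited κ] (G : Gl) (b : ℝ) (J : ℕ) (Y : Fy κ) (i k : ℕ) (a : κ → ℂ)
    (Z0 X0 : Finset St) : Ac := G.ins (wd1 κ Z0 X0) b J Y i k a ()

section relabel

variable {e : κ → ι} {s : κ → ℂ} {g : (ι → ℂ) → ℂ} {r r0 : ι → ℝ} {M : ℝ} {A : Finset ι}
  {T : Finset κ} {x : κ} {Y : Fy ι}

theorem exz_zero : exz e 0 = 0 := funext fun y => by rw [exz, extend_def]; exact dite_eq_iff.2 (by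
  by_cases a : ∃ x, e x = y <;> simp [a])

theorem exz_cut (h : ∀ x, e x ∈ A) : cutS A (exz e s) = exz e s := funext fun y => by
  rw [cutS]
  split_ifs with a
  exacts [rfl, (extend_apply' (f := e) s 0 y fun ⟨x, u⟩ => a (u ▸ h x)).symm]

theorem exz_out (h : ∀ x, e x ∉ A) : cutS A (exz e s) = 0 := funext fun y => by
  rw [cutS]
  split_ifs with a
  exacts [extend_apply' _ _ _ fun ⟨x, u⟩ => h x (by rwa [u]), rfl]

variable (he : Injective e)
include he

theorem exz_apply (x : κ) : exz e s (e x) = s x := he.extend_apply _ _ _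

theorem exz_upd (t : ℂ) : exz e (update s x t) = update (exz e s) (e x) t := funext fun y => by
  by_cases a : ∃ z, e z = y
  · obtain ⟨z, rfl⟩ := a
    simp only [exz_apply he, update_apply, he.eq_iff]
  · rw [update_of_ne fun u => a ⟨x, u.symm⟩, exz, exz, extend_apply' _ _ _ a, extend_apply' _ _ _ a]

theorem exz_mem (hr : ∀ i, 0 < r i) (hs : s ∈ Pd (r ∘ e)) : exz e s ∈ Pd r := fun y => by
  by_cases a : ∃ z, e z = y
  · obtain ⟨z, rfl⟩ := a
    exact exz_apply he z ▸ hs z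
  · rw [exz, extend_apply' _ _ _ a]
    simpa using hr y

theorem sh_exz (h : SH r M g) : SH (r ∘ e) M fun s => g (exz e s) :=
  ⟨fun _ => h.pos _, fun s hs i => by
    simpa only [exz_upd he, comp] using h.hol _ (exz_mem he h.pos hs) (e i),
    fun _ hs => h.bd _ (exz_mem he h.pos hs)⟩

theorem jd_exz (h : Hb r g) (T : Finset κ) : jd T (fun s => g (exz e s)) = jd (T.image e) g := by
  obtain ⟨M, h⟩ := h
  induction T using Finset.induction_on generalizing g M with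
  | empty => simp [exz_zero]
  | insert i S hi ih =>
    rw [image_insert, (sh_exz he h).jd_insert hi, h.jd_insert (by simpa [he.eq_iff] using hi),
      ← ih _ (h.pd (e i))]
    exact congrArg _ (funext fun s => by simp only [Jet.pd, exz_upd he])

theorem jd_exz1 : jd {x} (fun s => g (exz e s)) = jd {e x} g := by
  simp only [jd_single, Pi.single, exz_upd he, exz_zero]

theorem ma_exz [Fintype κ] {V : Type} [AddCommMonoid V] [Module ℂ V] (a : Finset ι → V)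
    (h : ∀ x, e x ∈ A) : ma A a (exz e s) = ma univ (fun T => a (T.image e)) s := by
  have : ∀ (B : Finset κ) (a : Finset ι → V),
      ma (B.image e) a (exz e s) = ma B (fun T => a (T.image e)) s := fun B => by
    induction B using Finset.induction_on with
    | empty => simp [ma, mon]
    | insert i B hi ih =>
      intro a
      rw [image_insert, ma_insert (by simpa [he.eq_iff] using hi), ma_insert hi, ih, ih,
        exz_apply he]
      simp only [image_insert]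
  rw [← this, ← ma_cut a (image_subset_iff.2 fun x _ => h x),
    exz_cut fun x => mem_image_of_mem _ (mem_univ x)]

theorem pull_jt : (Y.pull e).jt {x} = Y.jt {e x} :=
  Prod.ext (funext₂ fun y B => jd_exz1 (g := (Y.ψ · y B)) he)
    (funext₃ fun X c U => jd_exz1 (g := (Y.K · X c U)) he)

theorem hd_exz {f : (ι → ℂ) → Conf → ℂ} (h : HD r f) : HD (r ∘ e) fun s => f (exz e s) :=
  ⟨h.1.imp fun _ a U => sh_exz he (a U), fun _ hs => h.2 _ (exz_mem he h.pos hs)⟩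

theorem fi_pull [Fintype κ] {p : Pa} {n : ℕ} {θ : ℝ} (F : Fi p n A Y.Z r θ Y.ψ Y.K)
    (h : ∀ x, e x ∈ A) : Fi p n univ (Y.pull e).Z (r ∘ e) θ (Y.pull e).ψ (Y.pull e).K := by
  have a : (Y.pull e).ψ = _ := funext fun s => (congrFun F.psi _).trans (ma_exz he _ h)
  have a' : (Y.pull e).K = _ := funext fun s => (congrFun F.act _).trans (ma_exz he _ h)
  refine ⟨fun _ => F.pos _, a.trans (ma_congr fun T hT => by rw [a, jL_ma _ hT]),
    a'.trans (ma_congr fun T hT => by rw [a', jA_ma _ hT]), fun T hT => by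
      rw [a, jL_ma _ hT]; exact F.pu _ (image_subset_iff.2 fun x _ => h x),
    ⟨fun i x hx s t => ?_, fun i X c hX s t => ?_⟩,
    F.km.imp fun _ b => ⟨b.1, fun _ hs => b.2 _ (exz_mem he F.pos hs)⟩⟩
  · simpa only [Fy.pull, exz_upd he] using F.loc.psi (e i) x hx (exz e s) t
  · simpa only [Fy.pull, exz_upd he] using F.loc.act (e i) X c hX (exz e s) t

theorem Gl.Fd.pull [Fintype κ] {G : Gl} {k : ℕ} {z : En.Z} {θ : ℝ} {f : (ι → ℂ) → Conf → ℂ}
    (F : G.Fd k z A r0 r θ Y f) (h : ∀ x, e x ∈ A) :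
    G.Fd k z univ (r0 ∘ e) (r ∘ e) θ (Y.pull e) (fun s => f (exz e s)) ∧
      (Y.Ec A id → (Y.pull e).Ec univ id) := by
  have a'' : (Y.pull e).E = _ := funext fun s => (congrFun F.ma _).trans (ma_exz he _ h)
  have u := fun T : Finset κ => image_subset_iff.2 fun x (_ : x ∈ T) => h x
  refine ⟨⟨fi_pull he F.fi h, a''.trans (ma_congr fun T hT => by rw [a'', jd_ma _ hT]),
    hd_exz he F.eq.fst, hd_exz he F.eq.snd, fun U hU T _ => (jd_exz he (F.eq.fst.hb U) T).trans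
      ((F.eq.eq U hU _ (u T)).trans (jd_exz he (F.eq.snd.hb U) T).symm)⟩,
    fun c T hT x hx y hy ne => ?_⟩
  rw [a'', jd_ma _ hT]
  exact c _ (u T) _ (mem_image_of_mem _ hx) _ (mem_image_of_mem _ hy) (he.ne ne)

theorem Gl.fw_pull [Fintype κ] {G : Gl} {b : ℝ} {J i k : ℕ} {Y' : Fy κ} (h : ∀ x, e x ∈ A)
    (u : Y'.Se (Y.pull e)) (H : ∀ j, k ≤ j → j < i → ∀ T X c U, ∀ g, (g = fun s => (G.sd j
      (G.zz b J (j + 1))).KK ((G.fw A b J Y i (j + 1)).ψ s) ((G.fw A b J Y i (j + 1)).K s) X c U) →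
      jd T (fun s => g (exz e s)) = jd (T.image e) g) :
    ∀ j ≤ i, k ≤ j → (G.fw univ b J Y' i j).Se ((G.fw A b J Y i j).pull e) :=
  dw_ind (fun _ => by rwa [Gl.fw_top, Gl.fw_top]) fun j hj ih hk => by
    obtain ⟨a1, a2, a3⟩ := ih (by omega)
    simp only [Gl.fw_step hj, Fy.Se, Gl.fs, a1, a2, a3, Fy.pull, true_and, and_true, trK,
      ma_exz he _ h]
    exact ma_congr fun T _ => funext₃ fun X c U => H j hk hj T X c U _ rfl

end relabel

namespace Mg

variable {σ ι' Ω' : Type} [DecidableEq σ] [DecidableEq ι'] [DecidableEq Ω'] {D : Wd σ ι Ω}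
  {D' : Wd σ ι' Ω'} {ω : Ω} {ω' : Ω'} {Λ Λ1 X : Finset σ} {c : Finset (Finset σ)} {φ : σ → σ}

theorem sum_one (h : ω ∈ D.Om) (F : Finset (LP σ ⊕ Ω) → ℂ) :
    ∑ O ∈ (cs D Λ X c).filter (·.toRight = {ω}), F O = ∑ O ∈ clus D.sp ((lps Λ).disjSum {ω}) X,
      if lb O = c ∧ O.toRight = {ω} then F O else 0 := by
  rw [← sum_filter]
  refine sum_congr (Finset.ext fun O => ?_) fun _ _ => rfl
  simp only [cs, mem_filter, mem_clus, Wd.obs, subset_disjSum, and_assoc]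
  exact and_congr_right' ⟨fun a => ⟨a.2.2.2.2.le, a.2⟩,
    fun a => ⟨a.1.trans (singleton_subset_iff.2 h), a.2⟩⟩

/-- the clusters with one word under a relabelling of the sites -/
theorem gam_map {κ : (ι → ℂ) → Finset σ → Finset (Finset σ) → ℂ} {e : (ι → ℂ) → σ → ℂ}
    {η : Ω → (ι → ℂ) → ℂ} {κ' : (ι' → ℂ) → Finset σ → Finset (Finset σ) → ℂ}
    {e' : (ι' → ℂ) → σ → ℂ} {η' : Ω' → (ι' → ℂ) → ℂ} {s : ι → ℂ} {s' : ι' → ℂ} (hω : ω ∈ D.Om)
    (hω' : ω' ∈ D'.Om) (i : Set.InjOn φ Λ1) (hΛ : Λ ⊆ Λ1) (hX : X ⊆ Λ1) (hc : ∀ C ∈ c, C ⊆ Λ1)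
    (hl : (lps Λ).image (fun o => (⟨o.1.image φ, o.2.image (image φ)⟩ : LP σ)) = lps Λ)
    (hZ : D'.Z0 ω' ⊆ D'.X0 ω') (h0 : D'.X0 ω' ⊆ Λ) (eZ : D.Z0 ω = (D'.Z0 ω').image φ)
    (eX : D.X0 ω = (D'.X0 ω').image φ)
    (h1 : ∀ o ∈ lps Λ, κ s (o.1.image φ) (o.2.image (image φ)) = κ' s' o.1 o.2)
    (h2 : ∀ x ∈ Λ, e s (φ x) = e' s' x) (h3 : η ω s = η' ω' s') :
    ∑ O ∈ (cs D Λ (X.image φ) (c.image (image φ))).filter (·.toRight = {ω}), gam D κ e η O s =
      ∑ O ∈ (cs D' Λ X c).filter (·.toRight = {ω'}), gam D' κ' e' η' O s' := by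
  have j := card_image_iff.1 (congrArg card hl)
  have j2 : Set.InjOn (image φ) {C | C ⊆ Λ1} := fun _ a _ b e =>
    (image_eq_image_iff_of_injOn i a b).1 e
  rw [sum_one hω, sum_one hω']
  conv_lhs => rw [← hl, ← image_singleton (fun _ => ω) ω', Sh.sum_image']
  refine (sum_clus_image (sp := D'.sp) ?_ i ?_ hX ?_ _).trans (sum_congr rfl fun O hO => ?_)
  · rintro (a | a) ha (b | b) hb e
    · exact congrArg _ (j (inl_mem_disjSum.1 ha) (inl_mem_disjSum.1 hb) (Sum.inl.inj e))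
    · cases e
    · cases e
    · exact congrArg _ ((mem_singleton.1 (inr_mem_disjSum.1 ha)).trans
        (mem_singleton.1 (inr_mem_disjSum.1 hb)).symm)
  · rintro (a | a) ha
    · exact (mem_lps.1 (inl_mem_disjSum.1 ha)).1.trans hΛ
    · exact mem_singleton.1 (inr_mem_disjSum.1 ha) ▸ h0.trans hΛ
  · rintro (a | a) ha
    exacts [rfl, mem_singleton.1 (inr_mem_disjSum.1 ha) ▸ eX]
  obtain ⟨a1, a2⟩ := subset_disjSum.1 (mem_clus.1 hO).1
  have a3 : ∀ C ∈ lb O, C ⊆ Λ := fun C hC => by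
    obtain ⟨o, ho, hC⟩ := mem_biUnion.1 hC
    obtain ⟨h1, -, h2⟩ := mem_lps.1 (a1 ho)
    exact ((mem_fams.1 h2).1 C hC).trans h1
  have a4 : lb (O.image (Sum.map (fun o : LP σ => (⟨o.1.image φ, o.2.image (image φ)⟩ : LP σ))
      fun _ => ω)) = (lb O).image (image φ) := by
    rw [lb, lb, Sh.left_image, image_biUnion, biUnion_image]
  rw [a4, Sh.right_image]
  rcases subset_singleton_iff.1 a2 with a | a
  · simp [a, (singleton_ne_empty _).symm]
  simp only [a, image_singleton, and_true]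
  refine if_congr ⟨fun e => (image_eq_image_iff_of_injOn (s := Λ1.powerset) (fun _ a _ b => j2
    (mem_powerset.1 a) (mem_powerset.1 b)) (fun C h => mem_powerset.2 ((a3 C h).trans hΛ))
      fun C h => mem_powerset.2 (hc C h)).1 e, congrArg _⟩ ?_ rfl
  have a5 : (lb O).biUnion id ⊆ Λ := biUnion_subset.2 a3
  rw [gam, gam, a4, Sh.right_image, Sh.left_image, a, image_singleton, prod_singleton,
    prod_singleton, h3, prod_image (j.mono a1), prod_congr rfl fun o ho => h1 o (a1 ho),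
    singleton_biUnion, singleton_biUnion, eZ, image_biUnion, show (lb O).biUnion (fun C => id
      (C.image φ)) = ((lb O).biUnion id).image φ from biUnion_image.symm,
    ← Sh.image_sdiff_of_inj i ((hZ.trans h0).trans hΛ) (a5.trans hΛ), prod_image (i.mono
      (sdiff_subset.trans ((hZ.trans h0).trans hΛ))),
    prod_congr rfl fun x hx => h2 x (h0 (hZ (mem_sdiff.1 hx).1))]
  congr 2
  refine if_congr ?_ rfl rfl
  rw [PD, PD, Sh.left_image, coe_image, (j.mono a1).pairwiseDisjoint_image]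
  exact forall₄_congr fun o ho o' ho' => imp_congr_right fun _ => Sh.disj_image i
    ((mem_lps.1 (a1 ho)).1.trans hΛ) ((mem_lps.1 (a1 ho')).1.trans hΛ)

theorem gam_id {κ : (ι → ℂ) → Finset σ → Finset (Finset σ) → ℂ} {e : (ι → ℂ) → σ → ℂ}
    {η : Ω → (ι → ℂ) → ℂ} {κ' : (ι' → ℂ) → Finset σ → Finset (Finset σ) → ℂ}
    {e' : (ι' → ℂ) → σ → ℂ} {η' : Ω' → (ι' → ℂ) → ℂ} {s : ι → ℂ} {s' : ι' → ℂ} (hω : ω ∈ D.Om)
    (hω' : ω' ∈ D'.Om) (hZ : D'.Z0 ω' ⊆ D'.X0 ω') (h0 : D'.X0 ω' ⊆ Λ) (eZ : D.Z0 ω = D'.Z0 ω')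
    (eX : D.X0 ω = D'.X0 ω') (h1 : ∀ o ∈ lps Λ, κ s o.1 o.2 = κ' s' o.1 o.2)
    (h2 : ∀ x ∈ Λ, e s x = e' s' x) (h3 : η ω s = η' ω' s') :
    ∑ O ∈ (cs D Λ X c).filter (·.toRight = {ω}), gam D κ e η O s =
      ∑ O ∈ (cs D' Λ X c).filter (·.toRight = {ω'}), gam D' κ' e' η' O s' := by
  have i0 : image (id : σ → σ) = id := funext fun _ => image_id
  simpa only [i0, image_id, id] using gam_map (φ := id) (X := X) (c := c)
    (Λ1 := Λ ∪ X ∪ c.biUnion id) hω hω' (Set.injOn_id _)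
    (subset_union_left.trans subset_union_left) (subset_union_right.trans subset_union_left)
    (fun C hC => (subset_biUnion_of_mem id hC).trans subset_union_right) (by simp [i0]) hZ h0
    (eZ.trans image_id.symm) (eX.trans image_id.symm) (by simpa only [i0, image_id, id] using h1)
    h2 h3

end Mg

theorem trA_ag {n : ℕ} (hn : Odd n) {K K' : Ac} (h : ∀ o ∈ lps (box (n / 2)), K o.1 o.2 = K' o.1 o.2)
    (v : St) : ∀ o ∈ lps (box (n / 2)), trA n v K o.1 o.2 = trA n v K' o.1 o.2 :=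
  fun _ ho => funext fun _ => congrFun (h _ (Sh.trP_mem hn ho v)) _

theorem img_eq {β : Type} [DecidableEq β] {t : Finset β} {f : β → β} (h : ∀ x ∈ t, f x ∈ t)
    (i : Set.InjOn f t) : t.image f = t :=
  eq_of_subset_of_card_le (image_subset_iff.2 h) (card_image_of_injOn i).ge

namespace Gl

variable {G : Gl} {A : Finset ι} {Y Y' : Fy ι} {b θ : ℝ} {J i j k c : ℕ} {z : En.Z} {v : St}
  {r0 r : ι → ℝ} {f : (ι → ℂ) → Conf → ℂ} {x : ι}

theorem Ok.fs_tr (h : G.Ok) (e : Y.Tq (G.N (k + 1)) (up (G.l k) v) Y') :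
    (G.fs A k z Y).Tq (G.N k) v (G.fs A k z Y') := by
  have n := h.N_odd (k + 1)
  rw [← h.sd_nf k z] at e n
  have a := fun s y => show Sh.Ag0 (G.sd k z) ((G.sd k z).ψy ((G.sd k z).ψy (Y.ψ s) v) y)
      ((G.sd k z).ψy (Y'.ψ s) y) ((G.sd k z).Ky ((G.sd k z).Ky (Y.K s) v) y) ((G.sd k z).Ky (Y'.K s) y)
    from ⟨fun x _ => by rw [← (e s).1]; rfl, fun X hX => trA_ag n (e s).2.1 _ _ (Sh.X1_lps hX)⟩
  refine fun s => ⟨funext fun y => congrArg (· + _) ((Sh.PL_tr _ _ _ v y).symm.trans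
    (Sh.Pl_ag (a s y))), fun o ho => funext fun U => ?_, congrArg₂ (· + ·) (e s).2.2 ?_⟩
  · refine (congrFun (trK_eq _ _ _) s).trans (.trans ?_ (congrFun (trK_eq _ _ _) s).symm)
    refine congrArg (tr A · s) (funext fun s => congrFun ((Sh.KK_tr (S := G.sd k z) (h.N_odd k)
      ho).symm.trans (Sh.KK_ag ⟨fun x _ _ => congrFun (e s).1 x, fun o ho _ => (e s).2.1 o ho⟩
        ((h.sd_all k z).nu.mono (Nat.zero_le _)))) U)
  · have i := In.sh_inj (h.N_odd k) v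
    refine (sum_congr (img_eq (fun _ _ => rc_mem (h.N_odd k) _) i).symm fun _ _ => rfl).trans
      ((sum_image i).trans (sum_congr rfl fun y _ => ?_))
    rw [Sd.Ey, Sd.Ey, ← Sh.cX_ag (a s y), Sh.ψy_ψy, Sh.Ky_Ky]
    rfl

theorem Ok.fw_tr (h : G.Ok) (hk : k ≤ i) (e : Y.Tq (G.N i) ((G.rt i k : ℤ) • v) Y') :
    (G.fw A b J Y i k).Tq (G.N k) v (G.fw A b J Y' i k) := by
  have := dw_ind (P := fun j => k ≤ j → (G.fw A b J Y i j).Tq (G.N j) ((G.rt j k : ℤ) • v)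
    (G.fw A b J Y' i j)) (fun _ => by rwa [fw_top, fw_top]) (fun j hj ih a => by
      rw [fw_step hj, fw_step hj]
      refine h.fs_tr ?_
      rw [up, smul_smul, ← Nat.cast_mul, ← show G.rt (j + 1) k = LL (G.l j) * G.rt j k from
        Nat.eq_of_mul_eq_mul_right (h.N_odd k).pos (by
          rw [h.rt_N (by omega), mul_assoc, h.rt_N a, ← h.N_succ]; rfl)]
      exact ih (by omega)) k hk le_rfl
  rwa [rt_top, Nat.cast_one, one_smul] at this

/-- translation covariance of the insertions -/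
theorem Ok.cIn_tr [Fintype κ] [Inhabited κ] {Y Y' : Fy κ} (h : G.Ok) (hk : k ≤ i)
    (e : Y.Tq (G.N i) ((G.rt i k : ℤ) • v) Y') (a : κ → ℂ) {Z0 X0 : Finset St} (hZ : Z0 ⊆ X0)
    (hX : X0 ⊆ box (G.N k / 2)) {o : LP St} (ho : o ∈ lps (box (G.N k / 2))) :
    trA (G.N k) v (G.cIn b J Y i k a (trS (G.N k) v Z0) (trS (G.N k) v X0)) o.1 o.2 =
      G.cIn b J Y' i k a Z0 X0 o.1 o.2 := by
  have n := h.N_odd k
  have t := h.fw_tr (A := (wd1 κ Z0 X0).al) (b := b) (J := J) hk e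
  obtain ⟨h1, -, h2⟩ := mem_lps.1 ho
  refine funext fun U => congrArg (jd univ) (funext fun s => gam_map (mem_univ _) (mem_univ _)
    (In.sh_inj n v) Subset.rfl h1 (fun C hC => ((mem_fams.1 h2).1 C hC).trans h1)
    (img_eq (fun _ a => Sh.trP_mem n a v) (Sh.trP_inj n v)) hZ hX rfl rfl
    (fun o ho => congrFun ((t _).2.1 o ho) U) (fun x _ => ?_) ?_)
  · have p := (Mx.per_pc (G.N k) U).sh (-v)
    rw [pc_eq p, Sh.Ix_tp _ _ p, sh_sh, add_neg_cancel, sh_zero]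
    simp only [ent, ← funext fun s => (t s).1]
    congr 1
    ext y B
    simp only [trL, Pi.sub_apply, ma_apply]
    rfl
  · simp only [eta, ← funext fun s => (t s).2.2]
    rfl

/-- the jets of first order represent the derivative of the density -/
theorem Ok.rt_fd (h : G.Ok) (F : G.Fd k z A r0 r θ Y f) (hx : x ∈ A) :
    Rt (G.sl k z) Y.bs (Y.jt {x}) (f 0) fun U => jd {x} (f · U) := by
  refine ⟨Complex.exp (Y.E 0), jd {x} Y.E, fun U hU => ?_⟩
  rw [h.sl_nf] at hU ⊢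
  have a := F.eq.eq U hU ∅ (empty_subset _)
  rw [jd_empty, jd_empty] at a
  refine ⟨a, (F.eq.eq U hU _ (singleton_subset_iff.2 hx)).trans ?_⟩
  obtain ⟨L, e1, e2⟩ := dR_lin (G.sl k z) Y.bs U
  have d := e2 (fun t => Y.bs + t • Y.jt {x}) _ (by simp)
    ⟨fun _ _ => der_line _ _, fun _ _ _ => der_line _ _⟩
  have e3 : ∀ t, Y.E (Pi.single x t) = Y.E 0 + t * jd {x} Y.E := fun t => by
    rw [← jd_empty Y.E]; exact (congrFun F.ma _).trans (ma_single hx)
  rw [h.sl_nf] at d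
  rw [jd_single, a, e1]
  simp only [F.fi.single hx, F.fi.ml.single hx, e3]
  refine ((der_line _ _).cexp.mul d).deriv.trans ?_
  simp only [zero_mul, add_zero, zero_smul]
  exact (add_comm _ _).trans (congrArg _ (by rw [mul_comm (Complex.exp _), mul_assoc]; rfl))

theorem Fd.rl {p : Pa} {r' : ι → ℝ} (F : G.Fd k z A r0 r θ Y f) (hr : ∀ x, 0 < r' x)
    (e : Y.Rl p r') (r'' : ι → ℝ) : Y.Rl p r'' := fun s _ hs => by
  have u : ∀ {g : (ι → ℂ) → ℂ} {a}, g = Jet.ma A a →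
      (∀ s ∈ Pd r', (∀ x, (s x).im = 0) → (g s).im = 0) → (g s).im = 0 := fun {g a} h e => by
    subst h
    exact tr_ma (A := A) a ▸ tr_real (sh_ma hr A a) e hs
  exact ⟨fun x B h1 h2 => u ((congrArg (fun ψ s => ψ s x B) F.fi.psi).trans (ma_L _ x B))
    fun s a b => (e s a b).1 x B h1 h2, fun X c U => u ((congrArg (fun K s => K s X c U)
      F.fi.act).trans (ma_A _ X c U)) fun s a b => (e s a b).2.1 X c U,
    u F.ma fun s a b => (e s a b).2.2⟩

namespace Mh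

variable {D : Wd St ι Ω} {a : ι → ℂ} {C : ℝ} {r : ℕ → ι → ℝ} {m : ℕ → ℕ} {W Zc : ι → Finset St}
  {N : Finset Ω} {ω : Ω} (M : G.Mh D b J Y i k a c C r0 r m f W Zc) (h : G.Ok) (t : G.Tu b J)
  (hp : G.Pu)
include M h t hp

theorem sml (hN : D.Tr N) (hj : j < i) (hk : k ≤ j) : ∃ β θ k0 k', (∀ s ∈ Pd (r (j + 1)),
    (G.sd j (G.zz b J (j + 1))).Sml β θ k0 ((G.fw D.al b J Y i (j + 1)).ψ (cutS (D.ad N) s))
      ((G.fw D.al b J Y i (j + 1)).K (cutS (D.ad N) s))) ∧ FA (r (j + 1)) (G.p j) (G.N j) k' fun s =>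
      (G.sd j (G.zz b J (j + 1))).KK ((G.fw D.al b J Y i (j + 1)).ψ (cutS (D.ad N) s))
        ((G.fw D.al b J Y i (j + 1)).K (cutS (D.ad N) s)) := by
  obtain ⟨F, -, -, -, S⟩ := M.up h t hp hN hj (Nat.lt_succ_of_le hk)
  have B := h.bl_big j (G.zz b J (j + 1))
  have st := h.st2 (M.ad h t hp hj).tz
  have q := h.Q0 j
  obtain ⟨k0, k1, k2⟩ := (h.fi_sd F.fi (G.zz b J (j + 1))).km
  have k3 := k1.mono (h.th_big j (G.zz b J (j + 1))).1
  obtain ⟨k', -, a2⟩ := st.K _ _ k0 B.b_le B.θ_le (by positivity) k3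
  have u := fun s hs => show (G.sd j (G.zz b J (j + 1))).Sml _ _ k0 _ _ from
    ⟨B.b_le, B.θ_le, h.pu_big (h.pu_fam (S s hs)), k2 s hs, k3⟩
  exact ⟨_, _, k0, k', u, fa_KK st F.fi.pos (F.fi.sl _) (F.fi.sa _) u a2⟩

/-- the insertion of a word depends only on its letters -/
theorem ins_can [Fintype κ] [Inhabited κ] {e : κ → ι} (he : Injective e) (hω : ω ∈ D.Om)
    (hA : D.A ω = univ.image e) {Y' : Fy κ} (u : Y'.Se (Y.pull e)) :
    G.ins D b J Y i k a ω = G.cIn b J Y' i k (a ∘ e) (D.Z0 ω) (D.X0 ω) := by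
  have hN := tr_one hω
  have e0 : ∀ x, e x ∈ D.A ω := fun x => hA ▸ mem_image_of_mem _ (mem_univ x)
  have e1 : ∀ x, e x ∈ D.ad {ω} := fun x => a_sub (mem_singleton_self ω) (e0 x)
  have e2 : ∀ {s}, cutS (D.ad {ω}) (exz e s) = exz e s := exz_cut e1
  obtain ⟨a1, a2, a3⟩ := fw_pull (G := G) (b := b) (J := J) he (fun x => ad_sub hN.1 (e1 x)) u
    (fun j hk hj T X c U g hg => by
      obtain ⟨_, _, _, _, -, F⟩ := M.sml h t hp hN hj hk
      rw [← jd_cut (g := g) (image_subset_iff.2 fun x _ => e1 x), hg,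
        ← jd_exz he ⟨_, F.sh X c U⟩]
      simp only [e2]) k M.lt.le le_rfl
  obtain ⟨F, -⟩ := (M.low h t hp hN).1.pull he e1
  have g := M.geo.sub ω hω
  have al : (wd1 κ (D.Z0 ω) (D.X0 ω)).al = univ := by simp [Wd.al, wd1]
  have ad : ∀ s : κ → ℂ, cutS ((wd1 κ (D.Z0 ω) (D.X0 ω)).ad {()}) s = s := fun s =>
    funext fun x => if_pos (by simp [Wd.ad, wd1])
  funext X c U
  rw [cIn, ins, ins, al, a1, a2, a3, Ins, Ins, jA, jA, hA,
    ← jd_exz he ((M.lc h t hp).hb_KN M.geo)]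
  refine congrArg (jd univ) (funext fun s => ?_)
  simp only [KN, gA, e2, ad]
  refine gam_id hω (mem_univ ()) g.1 g.2.2 rfl rfl (fun _ _ => rfl) (fun x _ => ?_) ?_
  · have b1 := M.ent_cut h t hp hN (exz e s)
    have b2 := congrFun F.fi.psi s
    rw [e2] at b1
    simp only [Fy.pull, Fy.cut, e2] at b2
    rw [b1, exz_out fun x => disjoint_left.1 (M.geo.out ω hω) (e0 x), show cutS (wd1 κ (D.Z0 ω)
      (D.X0 ω)).B s = 0 from funext fun x => if_neg (notMem_empty x)]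
    simp only [ent, ma_zero, jL_empty, Fy.pull, exz_zero, ← b2]
  · have b2 := congrFun F.ma s
    simp only [Fy.pull, Fy.cut, e2] at b2
    rw [eta, eta, tr_E (M.low h t hp hN).1 (a_sub (mem_singleton_self ω)), exz_cut e0, hA,
      sum_image he.injOn]
    simp only [Jet.tr, wd1, Fy.pull, exz_zero, ← b2, exz_apply he, comp]

theorem rl (hN : D.Tr N) (e : (Y.cut (D.ad N)).Rl (G.p i) (r i)) : ∀ j ≤ i, k ≤ j →
    ∀ r', ((G.fw D.al b J Y i j).cut (D.ad N)).Rl (G.p j) r' :=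
  dw_ind (fun _ => by rw [fw_top]; exact (M.fd N hN).1.rl (M.fd N hN).1.fi.pos e)
    fun j hj ih hk => by
    obtain ⟨_, _, _, _, S, F⟩ := M.sml h t hp hN hj hk
    have ad := M.ad h t hp hj
    have u := fun s hs a => (h.st2 ad.tz).real _ _ _ _ _ (S s hs) (ih (by omega) _ s hs a).1
      (ih (by omega) _ s hs a).2.1
    have : ((G.fw D.al b J Y i j).cut (D.ad N)).Rl (G.p j) (r (j + 1)) := fun s hs a => by
      rw [fw_step hj]
      refine ⟨fun x B h1 h2 => Im.add ((u s hs a).1 x B h1 h2)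
        ((h.src_ps ad.tz ad.lt ad.v ad.kp).2.1 x B h1 h2), fun X c U => ?_,
        Im.add (ih (by omega) _ s hs a).2.2 (Im.sum fun y _ => (u s hs a).2.2 y)⟩
      simp only [Fy.cut, fs]
      rw [← congrFun (trK_cut (ad_sub hN.1)) s, congrFun (trK_eq X c U) s]
      exact tr_real (F.sh X c U) (fun s hs a => (u s hs a).2.1 X c U) a
    rcases hk.eq_or_lt with rfl | hk
    exacts [(M.low h t hp hN).1.rl F.pos this, (M.up h t hp hN hj.le hk).1.rl F.pos this]

/-- reality of the insertions -/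
theorem real (e : (Y.cut (D.ad {ω})).Rl (G.p i) (r i)) (hω : ω ∈ D.Om)
    (ha : ∀ x ∈ D.A ω, (a x).im = 0) : RealA (G.ins D b J Y i k a ω) := fun X c U => by
  have hN := tr_one hω
  have R := M.rl h t hp hN e k M.lt.le le_rfl (r (k + 1))
  refine jd_real ((M.lc h t hp).hb_KN M.geo).choose_spec (fun s hs b => Im.sum fun O hO => ?_) _
  have c : ∀ B x, (cutS B s x).im = 0 := fun B x => by
    unfold cutS; split_ifs; exacts [b x, rfl]
  rw [gA, gam, (mem_filter.1 hO).2, prod_singleton]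
  refine Im.mul (Im.mul ?_ (Im.exp (Im.sub (Im.sub ?_ ?_)
    (Im.sum fun x hx => Im.mul (c _ x) (ha x hx))))) (Im.prod fun x _ => ?_)
  · split_ifs
    exacts [Im.prod fun o _ => (R s hs b).2.1 _ _ _, rfl]
  · rw [tr_E (M.low h t hp hN).1 (a_sub (mem_singleton_self ω)), cut_comm]
    exact (R _ (cut_mem hs) (c _)).2.2
  · simpa only [Fy.cut, cut_zero] using (R 0 (zero_mem (M.pos h t hp)) fun _ => rfl).2.2
  · rw [cut_comm D.B, M.ent_cut h t hp hN, M.ent_cut h t hp hN]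
    by_cases h1 : Fq ((G.p k).R + 1) (G.p k).ε (sh x (pc (G.N k) U))
    · have v := h1.cv' (h.sl_all k (G.top0 0 0)).nu.p_ok.1
      rw [Ix_pos h1]
      exact Im.exp (Im.neg (Im.sub ((R s hs b).1 x _ (Bx_real x _) v)
        ((R _ (cut_mem hs) (c _)).1 x _ (Bx_real x _) v)))
    · rw [Ix_neg h1]; rfl

end Mh

end Gl

end Pool.Agent.Lib.MP_7f377f_mp.RG.Q4.En
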