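import Pool.Agent.Lib.MP_7f377f_mp.G.MgX3

/-! Merging of sources: words of smeared action densities. -/

noncomputable section

open Pool.Agent.Lib.MP_7f377f_mp.Jet

set_option linter.unusedSectionVars false
variable [Pool.Agent.Lib.MP_7f377f_mp.GD]

namespace Pool.Agent.Lib.MP_7f377f_mp.RG.Q4.En

open Finset Function Sg Real Pos Mg
open scoped Classical

attribute [local irreducible] box lbox tb tau rc

/-- cells `γ` with sources `P` and regions `W`; words `Ω` with letters `κ`, sources `F`, supports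
`V`, centrings `a`, and regions `Z0`, `X0` at the level of the merging -/
structure Ws (γ Ω κ : Type) where
  Om : Finset Ω
  cl : Ω → γ
  F : Ω → κ → Sr
  a : Ω → κ → ℂ
  P : γ → Sr
  V : Ω → κ → Finset St
  W : γ → Finset St
  Z0 : Ω → Finset St
  X0 : Ω → Finset St

variable {γ Ω κ ι : Type} [Fintype γ] [DecidableEq γ] [DecidableEq Ω] [Fintype κ] [DecidableEq κ]
  [Inhabited κ] [DecidableEq ι]

/-- the observable of a word -/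
def Ws.wo (S : Ws γ Ω κ) (n : ℕ) (ω : Ω) (U : Conf) : ℂ := ∏ l, (-sO n (S.F ω l) U - S.a ω l)

/-- the observable of a cell -/
def Ws.X (S : Ws γ Ω κ) (n : ℕ) (w : Ω → ℂ) (q : γ) (U : Conf) : ℂ :=
  -sO n (S.P q) U + ∑ ω ∈ S.Om.filter (S.cl · = q), w ω * S.wo n ω U

/-- the same data as general sources -/
def Ws.x (S : Ws γ Ω κ) : Wx γ Ω κ Empty :=
  ⟨S.Om, S.cl, fun ω l => (S.F ω l, 0, 0), S.a, fun q => (S.P q, 0, 0), S.V, S.W, S.Z0, S.X0,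
    Empty.elim, fun _ => Empty.elim⟩

theorem xO_pl (n : ℕ) (F : Sr) : xO n (F, 0, 0) = sO n F := funext fun U => by simp [xO]

theorem Ws.x_wo (S : Ws γ Ω κ) (n : ℕ) : S.x.wo n = S.wo n := funext₂ fun ω U => by
  simp only [Wx.wo, Ws.wo, Ws.x, xO_pl]

theorem Ws.x_Y (S : Ws γ Ω κ) (n : ℕ) (w : Ω → ℂ) : S.x.Y n w = S.X n w := funext₂ fun q U => by
  rw [Wx.Y, Ws.X, S.x_wo]
  simp only [Ws.x, xO_pl]

namespace Gl

variable (G : Gl) (b : ℝ) (J k : ℕ)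

/-- the free energy of first order of a source -/
def ej (F : Sr) : ℂ := jd {()} (G.fm univ (fun _ : Unit => F) (fun _ => ∅) b J k).E

/-- the insertion of the product of the sources `F` -/
def cSr (F : κ → Sr) (a : κ → ℂ) (Z0 X0 : Finset St) : Ac :=
  G.cIn b J (G.ft univ F (fun _ => ∅) b J) J k a Z0 X0

/-- the insertion of a word -/
def wI (S : Ws γ Ω κ) (ω : Ω) : Ac := G.cSr b J k (S.F ω) (S.a ω) (S.Z0 ω) (S.X0 ω)

/-- the source `F` is admissible with the radius `σ` above the level `k` -/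
def Ra (σ : ℝ) (F : Sr) : Prop := (∀ x μ ν, σ * ‖F x μ ν‖ ≤ G.bb J / 4) ∧ ∀ j, k < j → j ≤ J →
  ∃ N, G.Q j ^ 223 * (σ * N) ≤ G.bb j ∧
    G.Sz j N N (G.Q j ^ 100)⁻¹ (G.tv F b J j).1 (G.tv F b J j).2

/-- the hypotheses of the merging at level `k`; `σ` is the radius of the letters, `ρ` are the radii
of the cells -/
structure Mw (S : Ws γ Ω κ) (c : ℕ) (C σ : ℝ) (ρ : γ → ℝ) : Prop where
  lt : k < J
  card : Fintype.card κ ≤ c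
  C0 : 0 ≤ C
  big : 400 * 2 ^ c ≤ G.Q k
  pos : 0 < σ ∧ ∀ q, 0 < ρ q
  wd : ∀ ω ∈ S.Om, (S.X0 ω).Nonempty ∧ S.Z0 ω ⊆ S.X0 ω ∧
    tb (G.N k) ((G.p k).R + 3) (S.Z0 ω) ⊆ S.X0 ω ∧ S.X0 ω ⊆ G.zs (S.W (S.cl ω)) J k ∧
    tau (G.N k) (G.p k).D (S.X0 ω) ≤ c
  lF : ∀ ω l x, rc (G.N J) x ∉ S.V ω l → S.F ω l x = 0
  lP : ∀ q x, rc (G.N J) x ∉ S.W q → S.P q x = 0
  lt' : ∀ ω ∈ S.Om, ∀ l, S.V ω l ⊆ S.W (S.cl ω) ∧ G.zs (S.V ω l) J k ⊆ S.Z0 ω ∧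
    G.Ra b J k σ (S.F ω l) ∧ σ * ‖G.ej b J (k + 1) (S.F ω l) - S.a ω l‖ ≤ C
  sl : ∀ q, G.Ra b J k (ρ q) (S.P q)
  sep : ∀ j, k < j → j ≤ J → ∀ ω ∈ S.Om,
    Cls (G.N j) (3 * (G.p j).D) univ id fun l => G.zs (S.V ω l) J j
  cel : ∀ j, k ≤ j → j ≤ J →
    Cls (G.N j) ((2 * c + 5) * (G.p j).D) univ id fun q => G.zs (S.W q) J j

variable {G b J k} {S : Ws γ Ω κ} {c l : ℕ} {C σ Wt x y E α τ : ℝ} {ρ : γ → ℝ} {w : Ω → ℂ}

theorem cSx_pl (F : κ → Sr) (a : κ → ℂ) (Z0 X0 : Finset St) :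
    G.cSx b J k (fun l => (F l, 0, 0)) a Z0 X0 = G.cSr b J k F a Z0 X0 := by
  rw [cSx, xt_pl, cSr]

theorem ex_pl (F : Sr) : G.ex b J k (F, 0, 0) = G.ej b J k F := by
  rw [ex, xt_pl (fun _ : Unit => F), ej, fm]

theorem ej_eq {A : Finset ι} {F : ι → Sr} {W : ι → Finset St} {i : ι} (hi : i ∈ A) (hk : k ≤ J) :
    jd {i} (G.fm A F W b J k).E = G.ej b J k (F i) := by
  rw [fm, ← xt_pl, ex_eq hi hk, ex_pl]

theorem Ok.ej_tr (h : G.Ok) (hk : k ≤ J) (F : Sr) (v : St) :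
    G.ej b J k (srT (G.N J) ((G.rt J k : ℤ) • v) F) = G.ej b J k F := by
  rw [← ex_pl, ← ex_pl, ← h.ex_tr hk (F, 0, 0) v]
  rfl

theorem Ok.cSr_tr (h : G.Ok) (hk : k ≤ J) (F : κ → Sr) (a : κ → ℂ) (v : St) {Z0 X0 : Finset St}
    (hZ : Z0 ⊆ X0) (hX : X0 ⊆ box (G.N k / 2)) {o : LP St} (ho : o ∈ lps (box (G.N k / 2))) :
    trA (G.N k) v (G.cSr b J k F a (trS (G.N k) v Z0) (trS (G.N k) v X0)) o.1 o.2 =
      G.cSr b J k (fun l => srT (G.N J) ((G.rt J k : ℤ) • v) (F l)) a Z0 X0 o.1 o.2 := by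
  rw [← cSx_pl, ← cSx_pl, h.cSx_tr hk _ a v hZ hX ho]
  rfl

theorem tau_big {n D : ℕ} (hD : 1 ≤ D) (j : ℕ) (y : St) :
    tau n D (tb n (j * D) {y}) ≤ 2 * (j + 1) * (2 * j + 1) ^ 4 := by
  have D0 : (0 : ℤ) < D := by exact_mod_cast hD
  have a : ∀ B ⊆ box j, Ta.Wk n D y y (2 * (j + 1) * B.card)
      {x | ∃ v ∈ B, nearT n D (y + (D : ℤ) • v) x} := fun B => by
    induction B using Finset.cons_induction with
    | empty => exact fun _ => ⟨fun _ => y, rfl, rfl, fun _ _ => nearT.refl _ _ _, by simp⟩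
    | cons v B hv ih =>
      intro e
      have u : nearT n ((j + 1) * D) y (y + (D : ℤ) • v) := nearT_add (mem_box.2 fun i => by
        have := mem_box.1 (e (mem_cons_self ..)) i
        simp only [Pi.smul_apply, smul_eq_mul]
        push_cast
        constructor <;> nlinarith [this.1, this.2])
      obtain ⟨p, p0, p1, p2, -⟩ := Ta.wk_line j _ u.symm
      have w : Ta.Wk n D (y + (D : ℤ) • v) y (j + 1) {x | nearT n D (y + (D : ℤ) • v) x} :=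
        ⟨p, p0, p1, p2, fun x hx => ⟨0, Nat.zero_le _, p0 ▸ hx⟩⟩
      rw [card_cons, show 2 * (j + 1) * (B.card + 1) = j + 1 + (j + 1) + 2 * (j + 1) * B.card by ring]
      refine (((Ta.wk_line j _ u).append w).append (ih ((subset_cons _).trans e))).mono ?_
      rintro x ⟨z, hz, hx⟩
      rcases mem_cons.1 hz with rfl | hz
      exacts [.inl (.inr hx), .inr ⟨z, hz, hx⟩]
  have a := a _ Subset.rfl
  rw [card_box] at a
  refine tau_le (Ta.tour_iff.2 ⟨by positivity, y, a.mono fun x hx => ?_⟩)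
  obtain ⟨v, hv⟩ := nearT_iff.1 (mem_tb_single.1 hx).2
  refine ⟨fun i => (x i - y i - n * v i) / D, mem_box.2 fun i => ⟨Int.le_ediv_of_mul_le D0 ?_,
    Int.ediv_le_of_le_mul D0 ?_⟩, nearT_iff.2 ⟨v, fun i => ?_⟩⟩
  · simpa using (hv i).1
  · simpa using (hv i).2
  · have a1 := Int.mul_ediv_add_emod (x i - y i - n * v i) D
    have a2 := Int.emod_nonneg (x i - y i - n * v i) D0.ne'
    have a3 := Int.emod_lt_of_pos (x i - y i - n * v i) D0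
    simp only [Pi.add_apply, Pi.smul_apply, smul_eq_mul]
    constructor <;> linarith

theorem x_wX : G.wX b J k S.x = G.wI b J k S := funext fun _ => cSx_pl _ _ _ _

theorem tv_pl (F : Sr) : G.tn b J (G.xv b J (F, 0, 0)) J k = G.tv F b J k := by rw [xv_pl, tv]

theorem Ra.rx {F : Sr} (e : G.Ra b J k σ F) (h : G.Ok) (σ0 : 0 < σ) :
    G.Rx b J k 0 (fun _ => σ) (F, 0, 0) :=
  ⟨⟨G.bb J / 4 / σ, 0, ⟨fun x μ ν => (le_div_iff₀' σ0).2 (e.1 x μ ν), fun _ => .zero,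
    fun _ _ => norm_zero.le, _, _, _, pm_zero (h.ρ0 J)⟩, (mul_div_cancel₀ _ σ0.ne').le, by simp⟩,
    by simpa only [tv_pl] using e.2⟩

theorem Mw.mx (M : G.Mw b J k S c C σ ρ) (h : G.Ok) :
    G.Mx b J k S.x c 0 C 0 (fun _ => 1) (fun _ => σ) fun _ => ρ :=
  ⟨M.lt, M.card, M.C0, Nat.zero_le _, M.big, fun j a _ => ⟨le_rfl, by
      simpa only [Nat.cast_one, one_add_one_eq_two] using M.big.trans (h.Q_mono a.le),
      M.pos.1, M.pos.2, fun _ => by simp⟩, M.wd, fun ω l x e => ⟨M.lF ω l x e, rfl, rfl⟩,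
    fun q x e => ⟨M.lP q x e, rfl, rfl⟩, fun ω hω l => let ⟨a1, a2, a3, a4⟩ := M.lt' ω hω l
      ⟨a1, a2, a3.rx h M.pos.1, ex_pl (G := G) _ ▸ a4⟩, fun q => (M.sl q).rx h (M.pos.2 q),
    fun j a a' ω hω => by
      rw [Nat.cast_one, show (1 + 2 : ℝ) = 3 by norm_num]
      exact M.sep j a a' ω hω,
    ⟨M.cel k le_rfl M.lt.le, fun j a a' => by
      rw [Nat.cast_one, mul_one]
      exact M.cel j a.le a'⟩, ⟨(h.Q0 k).le, (·.elim)⟩, fun _ => (·.elim)⟩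

namespace Mw

variable (M : G.Mw b J k S c C σ ρ) (h : G.Ok) (t : G.Tu b J) (hp : G.Pu)
include M h t hp

/-- the merging -/
theorem merge (hw : ∀ y, ∑ ω ∈ S.Om.filter (y ∈ S.X0 ·), ‖w ω‖ * ρ (S.cl ω) ≤ Wt)
    (sm : G.Q k ^ 330 * (G.cM k c C * Wt) ≤ σ ^ Fintype.card κ) : ∃ Y : Fy γ,
    G.Fd k (G.zz b J k) univ ρ ρ (G.Q k ^ 329)⁻¹ Y
      (fun s => G.tt (pr b (G.N J) (S.X (G.N J) w) s) J k) ∧ Y.bs = (G.zz b J k).d ∧
      Y.Ec univ id ∧ (Y.Z = fun q => G.zs (S.W q) J k) ∧ ∀ q, Y.jt {q} =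
        G.tv (S.P q) b J k + (0, ∑ ω ∈ S.Om.filter (S.cl · = q), w ω • G.wI b J k S ω) := by
  obtain ⟨Y, a1, a2, a3, a4, a5, -⟩ :=
    (M.mx h).merge0 h t hp (fun q => ⟨M.pos.2 q, le_rfl⟩) hw sm
  rw [S.x_Y] at a1
  exact ⟨Y, a1, a2, a3, a4, fun q => by rw [a5, x_wX, ← tv_pl]; rfl⟩

/-- the merging followed by the flow with growing radii -/
theorem slot {r : ℕ → γ → ℝ} {m : ℕ → ℕ} {N : ℝ}
    (hw : ∀ y, ∑ ω ∈ S.Om.filter (y ∈ S.X0 ·), ‖w ω‖ * ρ (S.cl ω) ≤ Wt)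
    (sm : G.Q k ^ 330 * (G.cM k c C * Wt) ≤ σ ^ Fintype.card κ) (hl : l ≤ k) {u : γ → Lx × Ac}
    (hu : ∀ q, u q = G.tv (S.P q) b J k +
      (0, ∑ ω ∈ S.Om.filter (S.cl · = q), w ω • G.wI b J k S ω))
    (sz : ∀ j, l ≤ j → j ≤ k → ∀ q, ∃ N, G.Q j ^ 223 * (r j q * N) ≤ G.bb j ∧
      G.Sz j N N (G.Q j ^ 100)⁻¹ (G.tn b J (u q) k j).1 (G.tn b J (u q) k j).2)
    (rad : ∀ j, l ≤ j → j ≤ k → 1 ≤ m j ∧ 40 * (m j : ℝ) ≤ G.Q j ∧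
      Cls (G.N j) ((m j + 2) * (G.p j).D) univ id (fun q => G.zs (S.W q) J j) ∧
      ∀ q, 0 < r j q ∧ (j < k → r j q ≤ m j * r (j + 1) q)) (top : ∀ q, r k q ≤ ρ q)
    (bot : ∀ q, τ ≤ r l q ∧
      G.Sz l N N (G.Q l ^ 100)⁻¹ (G.tn b J (u q) k l).1 (G.tn b J (u q) k l).2) (τ0 : 0 < τ)
    (N0 : 0 ≤ N) (hN : G.Q l ^ 273 * (τ * N) ≤ G.bb l) :
    G.Sl b J l (S.X (G.N J) w) τ S.W := by
  obtain ⟨Y, a1, a2, a3, a4, a5⟩ := M.merge h t hp hw sm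
  have kJ := M.lt.le
  have ne := nonempty_Icc.2 hl
  have e : ∀ j, l ≤ j → j ≤ k → ∀ q, (Icc l k).inf' ne (r · q) ≤ r j q :=
    fun j a a' q => inf'_le _ (mem_Icc.2 ⟨a, a'⟩)
  have p : ∀ q, 0 < (Icc l k).inf' ne (r · q) := fun q => (lt_inf'_iff _).2 fun j hj =>
    ((rad j (mem_Icc.1 hj).1 (mem_Icc.1 hj).2).2.2.2 q).1
  have s : ∀ {f}, HD ρ f → HD (fun q => (Icc l k).inf' ne (r · q)) f := fun a =>
    have e := fun q => (e k hl le_rfl q).trans (top q)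
    ⟨a.1.imp fun _ a U => (a U).shrink p e, fun s hs => a.2 s fun q => (hs q).trans_le (e q)⟩
  have ju : ∀ q, Y.jt {q} = u q := fun q => (a5 q).trans (hu q).symm
  obtain ⟨c1, c2, c3, c4, -⟩ := h.chainG t hp kJ (l := l) (r := r) (m := m) (Y := Y)
    ⟨fun j a a' q _ => ju q ▸ sz j a a' q, fun j a a' => by
      simpa only [a4, zs_zs kJ a'] using (rad j a a').2.2.1, fun j a a' => ⟨(rad j a a').1,
      (rad j a a').2.1, fun q => ⟨e j a a' q, ((rad j a a').2.2.2 q).2⟩⟩⟩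
    ⟨(a1.mono (fun q => (p q).trans_le (e k hl le_rfl q)) top le_rfl).fi, a1.ma, s a1.eq.fst,
      s a1.eq.snd, a1.eq.eq⟩ a2 a3 l hl le_rfl
  simp only [show ∀ f, G.tt (G.tt f J k) k l = G.tt f J l from fun f => dw_dw _ _ kJ l hl] at c1
  refine ⟨_, _, N, c1.mono (fun _ => τ0) (fun q => (bot q).1) le_rfl, c2, c4, N0, hN, fun q => ?_⟩
  rw [c3 q (mem_univ q), ju, fw_Z l hl, a4]
  exact ⟨(bot q).2, (zs_zs kJ hl).le⟩

/-- the majorants of the insertions -/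
theorem km : ∃ kI : Ω → Mj, (∀ ω ∈ S.Om, KM (G.p k) (G.N k) (kI ω) (G.wI b J k S ω)) ∧
    (∀ ω X c, 0 ≤ kI ω X c ∧ (kI ω X c ≠ 0 → S.X0 ω ⊆ X)) ∧ ∀ (v : Ω → ℝ) Wt, (∀ ω, 0 ≤ v ω) →
      0 < Wt → (∀ y, ∑ ω ∈ S.Om.filter (y ∈ S.X0 ·), v ω ≤ Wt) →
      kN ((G.p k).ad (1 / 3)) (G.N k) (fun X c => ∑ ω ∈ S.Om, v ω * kI ω X c)
        (4 * (G.cM k c C * (Wt / σ ^ Fintype.card κ))) :=
  x_wX (G := G) (S := S) ▸ (M.mx h).km h t hp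

/-- the size of a sum of insertions -/
theorem sz (hw : ∀ y, ∑ ω ∈ S.Om.filter (y ∈ S.X0 ·), ‖w ω‖ ≤ Wt) (W0 : 0 < Wt) (x0 : 0 ≤ x)
    (hy : 4 * G.cM k c C * Wt * G.Q k ^ 280 * G.bb k ≤ y * σ ^ Fintype.card κ) :
    G.Sz k x y (G.Q k ^ 280)⁻¹ 0 (∑ ω ∈ S.Om, w ω • G.wI b J k S ω) :=
  x_wX (G := G) (S := S) ▸ (M.mx h).sz h t hp hw W0 x0 hy

/-- slowly varying weights -/
theorem slow {φ : Ω → ℂ} {f : St → ℂ} (hw : ∀ y, ∑ ω ∈ S.Om.filter (y ∈ S.X0 ·), ‖w ω‖ ≤ Wt)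
    (W0 : 0 < Wt) (x0 : 0 ≤ x) (α0 : 0 < α) (hL : LipT (G.N k) α f)
    (hφ : ∀ ω ∈ S.Om, ∃ z ∈ S.X0 ω, ‖φ ω - f z‖ ≤ α * G.Q k)
    (hy : 4 * G.cM k c C * Wt * α * G.Q k ^ 282 * G.bb k ≤ E * σ ^ Fintype.card κ) :
    G.Sz k x E (G.Q k ^ 280)⁻¹ 0 (∑ ω ∈ S.Om, (φ ω * w ω) • G.wI b J k S ω -
      mA f (∑ ω ∈ S.Om, w ω • G.wI b J k S ω)) :=
  x_wX (G := G) (S := S) ▸ (M.mx h).slow h t hp hw W0 x0 α0 hL hφ hy

/-- reality -/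
theorem real {ω : Ω} (hω : ω ∈ S.Om) (hF : ∀ ω l x μ ν, (S.F ω l x μ ν).im = 0)
    (hP : ∀ q x μ ν, (S.P q x μ ν).im = 0) (ha : ∀ l, (S.a ω l).im = 0) :
    RealA (G.wI b J k S ω) :=
  have _ := hP
  x_wX (G := G) (S := S) ▸ (M.mx h).real h t hp hω
    (fun l => ⟨hF ω l, fun _ _ => rfl, fun _ _ _ _ => rfl⟩) ha

/-- the direction of a cell represents its observable -/
theorem rt (w : Ω → ℂ) (q : γ) : Rt (G.sl k (G.zz b J k)) (G.zz b J k).d (G.tv (S.P q) b J k +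
      (0, ∑ ω ∈ S.Om.filter (S.cl · = q), w ω • G.wI b J k S ω)) (G.f b J k)
    (G.tt (fun U => wil b (G.N J) U * S.X (G.N J) w q U) J k) := by
  rw [← x_wX, ← tv_pl, ← S.x_Y]
  exact (M.mx h).rt h t hp w q

/-- translation invariant families of words -/
theorem tw [Unique γ] {w : Ω → ℝ} (hP : ∀ q, S.P q = 0)
    (hF : ∀ ω l x μ ν, (S.F ω l x μ ν).im = 0) (ha : ∀ ω l, (S.a ω l).im = 0)
    (inv : ∀ v, ∃ u : Ω → Ω, Set.BijOn u S.Om S.Om ∧ ∀ ω ∈ S.Om, w (u ω) = w ω ∧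
      S.a (u ω) = S.a ω ∧ (S.F (u ω) = fun l => srT (G.N J) ((G.rt J k : ℤ) • v) (S.F ω l)) ∧
      S.Z0 ω = trS (G.N k) v (S.Z0 (u ω)) ∧ S.X0 ω = trS (G.N k) v (S.X0 (u ω)))
    (hw : ∀ y, ∑ ω ∈ S.Om.filter (y ∈ S.X0 ·), |w ω| ≤ Wt) (W0 : 0 < Wt) (x0 : 0 ≤ x)
    (hy : 4 * G.cM k c C * Wt * G.Q k ^ 280 * G.bb k ≤ y * σ ^ Fintype.card κ) :
    G.Tn k (G.zz b J k) (G.zz b J k).d (G.f b J k) x y (G.Q k ^ 280)⁻¹
      (0, ∑ ω ∈ S.Om, (w ω : ℂ) • G.wI b J k S ω)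
      (G.tt (fun U => wil b (G.N J) U * ∑ ω ∈ S.Om, w ω * S.wo (G.N J) ω U) J k) := by
  refine ⟨M.sz h t hp (by simpa using hw) W0 x0 hy, ⟨fun _ _ _ _ => rfl, fun X c U => ?_,
    fun v => ⟨rfl, fun o ho => ?_⟩⟩, ?_⟩
  · simp only [Finset.sum_apply, Complex.im_sum]
    refine sum_eq_zero fun ω hω => ?_
    simp [M.real h t hp hω hF (by simp [hP]) (ha ω) X c U]
  · obtain ⟨u, u1, u2⟩ := inv v
    funext U
    simp only [trA, Finset.sum_apply, Pi.smul_apply]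
    refine sum_nbij u u1.mapsTo u1.injOn u1.surjOn fun ω hω => ?_
    obtain ⟨e1, e2, e3, e4, e5⟩ := u2 ω hω
    rw [e1, wI, wI, e2, e3, e4, e5, ← h.cSr_tr M.lt.le _ _ v
      (M.wd _ (u1.mapsTo hω)).2.1 ((M.mx h).x0_box h (u1.mapsTo hω)) ho]
    rfl
  · rw [← x_wX, ← S.x_wo]
    exact (M.mx h).rt0 h t hp fun ω => w ω

end Mw

theorem Ok.ra_zero (h : G.Ok) (t : G.Tu b J) (σ : ℝ) : G.tv 0 b J k = 0 ∧ G.Ra b J k σ 0 := by
  have z : (sL 0, Pos.dS (G.p J) (G.N J) b 0) = (0 : Lx × Ac) :=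
    Prod.ext sL_zero (funext₃ fun X c U => by simp [Pos.dS, dA])
  have a : ∀ j ≤ J, G.tv 0 b J j = 0 := dw_ind (Gl.tn_top.trans z) fun j hj ih => by
    have u : PU (G.sd j (G.zz b J (j + 1))).p 0 0 :=
      ⟨⟨_, _, _, pm_zero (h.ρ0 (j + 1))⟩, fun _ _ _ _ => norm_zero.le⟩
    have := (h.st2 (t.gd _ hj).tz).lin _ _ _ _ _ _ _ _ 1 u u km_zero km_zero
    rw [tv, Gl.tn_step hj, ← tv, ih]
    exact Prod.ext (by simpa [ts] using this) (funext₃ fun X c U => by simp [ts, dK, dA])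
  refine ⟨(le_total k J).elim (a k) fun e => ?_, fun _ _ _ => by simpa using (by
    linarith [h.b0 J] : 0 ≤ G.bb J / 4), fun j _ hj => ⟨0, by simpa using (h.b0 j).le, ?_⟩⟩
  · rw [tv, tn, dw, Nat.sub_eq_zero_of_le e]
    exact z
  · rw [a j hj]
    exact ⟨by simpa using pm_zero (h.ρ0 j), 0, km_zero, fun _ _ => le_rfl, fun _ => by simp⟩

end Gl

end Pool.Agent.Lib.MP_7f377f_mp.RG.Q4.En
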