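import Pool.Agent.Lib.MP_7f377f_mp.G.MgG
import Pool.Agent.Lib.MP_7f377f_mp.G.ObA
import Pool.Agent.Lib.MP_7f377f_mp.G.StV6

/-! Merging of general sources: definitions. -/

noncomputable section

open Pool.Agent.Lib.MP_7f377f_mp.Jet

set_option linter.unusedSectionVars false
variable [Pool.Agent.Lib.MP_7f377f_mp.GD]

namespace Pool.Agent.Lib.MP_7f377f_mp.RG.Q4.En

open Finset Function Sg Real Pos Mg
open scoped Classical

attribute [local irreducible] box lbox tb tau rc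

/-- cells `γ` with sources `P`, regions `W` and coefficients `φ` of the letters `X` of the block
field; words `Ω` with letters `κ` as in `Ws` -/
structure Wx (γ Ω κ α : Type) where
  Om : Finset Ω
  cl : Ω → γ
  F : Ω → κ → Sx
  a : Ω → κ → ℂ
  P : γ → Sx
  V : Ω → κ → Finset St
  W : γ → Finset St
  Z0 : Ω → Finset St
  X0 : Ω → Finset St
  X : α → Wd.Let
  φ : γ → α → St → ℂ

variable {γ Ω κ α ι : Type} [Fintype γ] [DecidableEq γ] [DecidableEq Ω] [Fintype κ] [DecidableEq κ]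
  [Inhabited κ] [Fintype α] [DecidableEq ι]

/-- the observable of a word -/
def Wx.wo (S : Wx γ Ω κ α) (n : ℕ) (ω : Ω) (U : Conf) : ℂ := ∏ l, (-xO n (S.F ω l) U - S.a ω l)

/-- the part of the observable of a cell on the fine lattice -/
def Wx.Y (S : Wx γ Ω κ α) (n : ℕ) (w : Ω → ℂ) (q : γ) (U : Conf) : ℂ :=
  -xO n (S.P q) U + ∑ ω ∈ S.Om.filter (S.cl · = q), w ω * S.wo n ω U

/-- the part on the block lattice -/
def Wx.C (S : Wx γ Ω κ α) (n : ℕ) (q : γ) (U : Conf) : ℂ := -∑ x, Wd.sm n (S.X x) (S.φ q x) U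

/-- the letters, the words and the cells -/
def Wx.wd (S : Wx γ Ω κ α) : Wd St (Ω × κ ⊕ γ) Ω :=
  ⟨univ.image .inr, S.Om, fun ω => univ.image fun l => .inl (ω, l), fun ω => .inr (S.cl ω), S.Z0,
    S.X0⟩

/-- the sources of the letters -/
def Wx.src (S : Wx γ Ω κ α) : Ω × κ ⊕ γ → Sx := Sum.elim (fun x => S.F x.1 x.2) S.P

/-- the supports of the letters -/
def Wx.sup (S : Wx γ Ω κ α) : Ω × κ ⊕ γ → Finset St := Sum.elim (fun x => S.V x.1 x.2) S.W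

/-- the centrings of the letters -/
def Wx.cen (S : Wx γ Ω κ α) : Ω × κ ⊕ γ → ℂ := Sum.elim (fun x => S.a x.1 x.2) 0

/-- a source seen from `v` -/
def srT (n : ℕ) (v : St) (F : Sr) : Sr := fun x => F (rc n (x + v))

/-- a source seen from `v` -/
def sxT (n : ℕ) (v : St) (F : Sx) : Sx :=
  (srT n v F.1, fun x => F.2.1 (rc n (x + v)), fun x => F.2.2 (rc n (x + v)))

/-- real sources -/
def Sx.Re (p : Pa) (F : Sx) : Prop :=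
  (∀ x μ ν, (F.1 x μ ν).im = 0) ∧ (∀ x U, (F.2.1 x U).im = 0) ∧ RealP p F.2.2

/-- the source vanishes outside `W` -/
def Sx.In (n : ℕ) (W : Finset St) (F : Sx) : Prop :=
  ∀ x, rc n x ∉ W → F.1 x = 0 ∧ F.2.1 x = 0 ∧ F.2.2 x = 0

namespace Gl

variable (G : Gl) (b : ℝ) (J k : ℕ)

/-- the free energy of first order of a source -/
def ex (F : Sx) : ℂ := jd {()} (G.fw univ b J (G.xt univ (fun _ : Unit => F) (fun _ => ∅) b J) J k).E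

/-- the insertion of the product of the sources `F` -/
def cSx (F : κ → Sx) (a : κ → ℂ) (Z0 X0 : Finset St) : Ac :=
  G.cIn b J (G.xt univ F (fun _ => ∅) b J) J k a Z0 X0

/-- the insertion of a word -/
def wX (S : Wx γ Ω κ α) (ω : Ω) : Ac := G.cSx b J k (S.F ω) (S.a ω) (S.Z0 ω) (S.X0 ω)

/-- letters of size `A` -/
def Lg (d : ℕ) (A : ℝ) (X : Wd.Let) : Prop := Wd.Rad d X ∧ (∀ U, ‖Wd.evG X U‖ ≤ A) ∧
  PM (G.p k) A A (A * (G.p k).ρ ^ 3) fun _ => Wd.lx X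

/-- the source `F` is admissible with the radii `σ` above the level `k` -/
def Rx (d : ℕ) (σ : ℕ → ℝ) (F : Sx) : Prop :=
  (∃ a M, F.Ok (G.p J) d a M ∧ σ J * a ≤ G.bb J / 4 ∧ σ J * M ≤ 1) ∧ ∀ j, k < j → j ≤ J →
    ∃ N, G.Q j ^ 223 * (σ j * N) ≤ G.bb j ∧ G.Sz j N N (G.Q j ^ 100)⁻¹
      (G.tn b J (G.xv b J F) J j).1 (G.tn b J (G.xv b J F) J j).2

/-- the hypotheses of the merging at level `k` -/
structure Mx (S : Wx γ Ω κ α) (c d : ℕ) (C A : ℝ) (m : ℕ → ℕ) (σ : ℕ → ℝ) (ρ : ℕ → γ → ℝ) :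
    Prop where
  lt : k < J
  card : Fintype.card κ ≤ c
  C0 : 0 ≤ C
  dR : d ≤ (G.p k).R
  big : 400 * 2 ^ c ≤ G.Q k
  rad : ∀ j, k < j → j ≤ J → 1 ≤ m j ∧ 400 * (1 + m j : ℝ) ^ c ≤ G.Q j ∧ 0 < σ j ∧ (∀ q, 0 < ρ j q) ∧
    (j < J → σ j ≤ m j * σ (j + 1) ∧ ∀ q, ρ j q ≤ m j * ρ (j + 1) q)
  wd : ∀ ω ∈ S.Om, (S.X0 ω).Nonempty ∧ S.Z0 ω ⊆ S.X0 ω ∧
    tb (G.N k) ((G.p k).R + 3) (S.Z0 ω) ⊆ S.X0 ω ∧ S.X0 ω ⊆ G.zs (S.W (S.cl ω)) J k ∧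
    tau (G.N k) (G.p k).D (S.X0 ω) ≤ c
  lF : ∀ ω l, (S.F ω l).In (G.N J) (S.V ω l)
  lP : ∀ q, (S.P q).In (G.N J) (S.W q)
  lt' : ∀ ω ∈ S.Om, ∀ l, S.V ω l ⊆ S.W (S.cl ω) ∧ G.zs (S.V ω l) J k ⊆ S.Z0 ω ∧
    G.Rx b J k d σ (S.F ω l) ∧ σ (k + 1) * ‖G.ex b J (k + 1) (S.F ω l) - S.a ω l‖ ≤ C
  sl : ∀ q, G.Rx b J k d (ρ · q) (S.P q)
  sep : ∀ j, k < j → j ≤ J → ∀ ω ∈ S.Om,
    Cls (G.N j) ((m j + 2) * (G.p j).D) univ id fun l => G.zs (S.V ω l) J j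
  cel : Cls (G.N k) ((2 * c + 5) * (G.p k).D) univ id (fun q => G.zs (S.W q) J k) ∧
    ∀ j, k < j → j ≤ J →
      Cls (G.N j) ((2 * c * m j + 5) * (G.p j).D) univ id fun q => G.zs (S.W q) J j
  lg : A ≤ G.Q k ∧ ∀ x, G.Lg k d A (S.X x)
  lφ : ∀ q x y, S.φ q x y ≠ 0 → tb (G.N k) (G.p k).D {y} ⊆ G.zs (S.W q) J k

/-- families of words which are invariant under the translations of the block lattice; the word
`ω` sits at the point `z ω` of the fine lattice -/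
structure Mx.Iv (G : Gl) (J k : ℕ) (S : Wx γ Ω κ α) (w : Ω → ℝ) (z : Ω → St) : Prop where
  re : ∀ ω l, (S.F ω l).Re (G.p J) ∧ (S.a ω l).im = 0
  inv : ∀ v, ∃ u : Ω → Ω, Set.BijOn u S.Om S.Om ∧ ∀ ω ∈ S.Om, w (u ω) = w ω ∧
    S.a (u ω) = S.a ω ∧ (S.F (u ω) = fun l => sxT (G.N J) ((G.rt J k : ℤ) • v) (S.F ω l)) ∧
    S.Z0 ω = trS (G.N k) v (S.Z0 (u ω)) ∧ S.X0 ω = trS (G.N k) v (S.X0 (u ω)) ∧
    rc (G.N J) (z ω) = rc (G.N J) (z (u ω) + (G.rt J k : ℤ) • v)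
  near : ∀ ω ∈ S.Om, ∃ y ∈ S.X0 ω, nearT (G.N J) (G.rt J k) ((G.rt J k : ℤ) • y) (z ω)

end Gl

end Pool.Agent.Lib.MP_7f377f_mp.RG.Q4.En
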