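import Pool.Agent.Lib.MP_7f377f_mp.G.MgX2

/-! Merging of general sources: sizes of the insertions. -/

noncomputable section

open Pool.Agent.Lib.MP_7f377f_mp.Jet

set_option linter.unusedSectionVars false
variable [Pool.Agent.Lib.MP_7f377f_mp.GD]

namespace Pool.Agent.Lib.MP_7f377f_mp.RG.Q4.En

open Finset Function Sg Real Pos Mg
open scoped Classical

attribute [local irreducible] box lbox tb tau rc

variable {γ Ω κ α ι : Type} [Fintype γ] [DecidableEq γ] [DecidableEq Ω] [Fintype κ] [DecidableEq κ]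
  [Inhabited κ] [Fintype α] [DecidableEq ι]

namespace Gl

variable {G : Gl} {b : ℝ} {J k : ℕ} {S : Wx γ Ω κ α} {c d l : ℕ} {C A Wt x y E : ℝ} {m : ℕ → ℕ}
  {σ : ℕ → ℝ} {ρ : ℕ → γ → ℝ} {w : Ω → ℂ}

namespace Mx

variable (M : G.Mx b J k S c d C A m σ ρ) (h : G.Ok) (t : G.Tu b J) (hp : G.Pu)
include M h t hp

/-- an insertion vanishes on the polymers which do not contain its support -/
theorem wX_out {ω : Ω} (hω : ω ∈ S.Om) {X : Finset St} (e : ¬ S.X0 ω ⊆ X) :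
    G.wX b J k S ω X = 0 := by
  obtain ⟨kI, k1, k2, -⟩ := M.km h t hp
  refine funext fun c => funext fun U => norm_le_zero_iff.1 (((k1 ω hω).le (h.ps0 k).lam X c U).trans ?_)
  rw [of_not_not fun a => e ((k2 ω X c).2 a), abs_zero]

/-- one majorant for all the coefficients with a given bound -/
theorem core {v : Ω → ℝ} (v0 : ∀ ω, 0 ≤ v ω) (hw : ∀ y, ∑ ω ∈ S.Om.filter (y ∈ S.X0 ·), v ω ≤ Wt)
    (W0 : 0 < Wt)
    (hy : 4 * G.cM k c C * Wt * G.Q k ^ 280 * G.bb k ≤ y * σ (k + 1) ^ Fintype.card κ) :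
    ∃ k', kN ((G.p k).ad (1 / 3)) (G.N k) k' ((G.Q k ^ 280)⁻¹ * y * G.g k ^ 2) ∧
      ∀ (u : Ω → Finset St → ℂ) (B : Finset St → ℝ),
        (∀ ω ∈ S.Om, ∀ X, S.X0 ω ⊆ X → ‖u ω X‖ ≤ B X * v ω) → KM (G.p k) (G.N k)
          (fun X c => B X * k' X c) fun X => (∑ ω ∈ S.Om, u ω X • G.wX b J k S ω) X := by
  obtain ⟨kI, k1, k2, k3⟩ := M.km h t hp
  have s0 := pow_pos (M.rad (k + 1) k.lt_succ_self M.lt).2.2.1 (Fintype.card κ)
  have q := pow_pos (h.Q0 k) 280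
  refine ⟨_, (k3 v Wt v0 W0 hw).mono ?_, fun u B e => ?_⟩
  · rw [← mul_div_assoc, ← mul_div_assoc, div_le_iff₀ s0, mul_assoc, mul_assoc, le_inv_mul_iff₀ q]
    linear_combination G.g k ^ 2 * hy - 4 * G.cM k c C * Wt * G.Q k ^ 280 * h.bg k
  · have a := fun X => km_sum fun ω hω => (k1 ω hω).smul (u ω X)
    refine ⟨fun X => (a X).meas X, fun X => (a X).per X, fun X => (a X).dep X,
      fun X => (a X).gi X, fun X c U hU => ((a X).bd X c U hU).trans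
        (mul_le_mul_of_nonneg_right ?_ (exp_pos _).le)⟩
    rw [mul_sum]
    refine sum_le_sum fun ω hω => ?_
    by_cases e0 : kI ω X c = 0
    · simp [e0]
    · rw [← mul_assoc]
      exact mul_le_mul_of_nonneg_right (e ω hω X ((k2 ω X c).2 e0)) (k2 ω X c).1

omit M t hp in
theorem pm0 {p : Pa} {k' : Mj}
    (e : kN p (G.N k) k' ((G.Q k ^ 280)⁻¹ * y * G.g k ^ 2)) : 0 ≤ y ∧ (0 ≤ x →
    PM (G.p k) x (G.Q k ^ 2 * y) (G.Q k ^ 50 * (G.Q k ^ 280)⁻¹ * y * G.g k ^ 2) 0) := by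
  have q := h.Q0 k
  have g : G.g k ^ 2 ≠ 0 := right_ne_zero_of_mul_eq_one (h.bg k)
  have y0 : 0 ≤ y := nonneg_of_mul_nonneg_right (nonneg_of_mul_nonneg_left e.nonneg
    ((sq_nonneg _).lt_of_ne' g)) (by positivity)
  exact ⟨y0, fun x0 => PM.mono (h.ρ0 k) (pm_zero (h.ρ0 k)) x0 (by positivity) (by positivity)⟩

/-- the size of a sum of insertions -/
theorem sz (hw : ∀ y, ∑ ω ∈ S.Om.filter (y ∈ S.X0 ·), ‖w ω‖ ≤ Wt) (W0 : 0 < Wt) (x0 : 0 ≤ x)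
    (hy : 4 * G.cM k c C * Wt * G.Q k ^ 280 * G.bb k ≤ y * σ (k + 1) ^ Fintype.card κ) :
    G.Sz k x y (G.Q k ^ 280)⁻¹ 0 (∑ ω ∈ S.Om, w ω • G.wX b J k S ω) := by
  obtain ⟨k', a1, a2⟩ := M.core h t hp (fun _ => norm_nonneg _) hw W0 hy
  exact ⟨(pm0 h a1).2 x0, k',
    (a2 (fun ω _ => w ω) 1 fun _ _ _ _ => (one_mul _).ge).mono fun _ _ => (one_mul _).le,
    ad_zero (G.p k) ▸ kN_drop a1 (by norm_num)⟩

/-- slowly varying weights -/
theorem slow {φ : Ω → ℂ} {f : St → ℂ} {a : ℝ}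
    (hw : ∀ y, ∑ ω ∈ S.Om.filter (y ∈ S.X0 ·), ‖w ω‖ ≤ Wt)
    (W0 : 0 < Wt) (x0 : 0 ≤ x) (α0 : 0 < a) (hL : LipT (G.N k) a f)
    (hφ : ∀ ω ∈ S.Om, ∃ z ∈ S.X0 ω, ‖φ ω - f z‖ ≤ a * G.Q k)
    (hy : 4 * G.cM k c C * Wt * a * G.Q k ^ 282 * G.bb k ≤ E * σ (k + 1) ^ Fintype.card κ) :
    G.Sz k x E (G.Q k ^ 280)⁻¹ 0 (∑ ω ∈ S.Om, (φ ω * w ω) • G.wX b J k S ω -
      mA f (∑ ω ∈ S.Om, w ω • G.wX b J k S ω)) := by
  have q := h.Q0 k
  have D := (h.ps0 k).D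
  obtain ⟨k', a1, a2⟩ := M.core h t hp (y := E / (a * G.Q k ^ 2)) (fun _ => norm_nonneg _) hw W0 (by
    rw [div_mul_eq_mul_div, le_div_iff₀ (by positivity)]
    linear_combination hy)
  have a3 := (kN_ad a1 (w := fun X _ => a * G.Q k + a * ((tau (G.N k) (G.p k).D X + 2) * (G.p k).D))
    (C := a * G.Q k ^ 2) (fun _ _ => by positivity) (fun o _ => ?_) (by positivity)).mono
    (le_of_eq (b := (G.Q k ^ 280)⁻¹ * E * G.g k ^ 2) (by field_simp))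
  · refine ⟨(pm0 h a3).2 x0, _, ?_, a3⟩
    convert a2 (fun ω X => (φ ω - f (px X)) * w ω) _ fun ω hω X e => ?_ using 2 with X
    · simp only [mA, Pi.sub_apply, Finset.sum_apply, smul_sum, ← sum_sub_distrib, Pi.smul_apply,
        smul_smul, sub_mul, sub_smul]
    · obtain ⟨z, z1, z2⟩ := hφ ω hω
      rw [norm_mul]
      refine mul_le_mul_of_nonneg_right ((norm_sub_le_norm_sub_add_norm_sub _ _ _).trans
        (add_le_add z2 ?_)) (norm_nonneg _)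
      exact_mod_cast hL _ _ _ (tau_diam D (e z1) (px_mem ⟨z, e z1⟩))
  · have D1 : (1 : ℝ) ≤ (G.p k).D := by exact_mod_cast D
    have e1 := add_one_le_exp (1 / 3 * (tau (G.N k) (G.p k).D o.1 : ℝ))
    have e2 := (pow_le_pow_right₀ (by linarith) (show 2 ≤ 4 by norm_num)).trans (h.DQ k)
    have e3 : (0 : ℝ) ≤ tau (G.N k) (G.p k).D o.1 := Nat.cast_nonneg _
    rw [← mul_add, mul_assoc]
    refine mul_le_mul_of_nonneg_left (le_trans ?_ (mul_le_mul_of_nonneg_left e1 (sq_nonneg _))) α0.le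
    have e4 : 3 * ((G.p k).D : ℝ) ≤ G.Q k := by nlinarith
    have e5 : G.Q k + 3 * ((G.p k).D : ℝ) ≤ G.Q k ^ 2 := by nlinarith
    nlinarith [mul_le_mul_of_nonneg_right e5 e3, mul_nonneg q.le e3]

variable {w : Ω → ℝ} {z : Ω → St} (I : Iv G J k S w z)
  (hw : ∀ y, ∑ ω ∈ S.Om.filter (y ∈ S.X0 ·), |w ω| ≤ Wt) (W0 : 0 < Wt)
  (hy : 4 * G.cM k c C * Wt * G.Q k ^ 280 * G.bb k ≤ y * σ (k + 1) ^ Fintype.card κ)
include I

omit t hp in
/-- translation covariance -/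
theorem cov {F : St → ℂ} (hF : PS (G.N J) F) (v : St) {o : LP St} (ho : o ∈ lps (box (G.N k / 2))) :
    trA (G.N k) v (∑ ω ∈ S.Om, (F (z ω) * w ω) • G.wX b J k S ω) o.1 o.2 =
      (∑ ω ∈ S.Om, (F (z ω + (G.rt J k : ℤ) • v) * w ω) • G.wX b J k S ω) o.1 o.2 := by
  obtain ⟨u, u1, u2⟩ := I.inv v
  funext U
  simp only [trA, Finset.sum_apply, Pi.smul_apply]
  refine sum_nbij u u1.mapsTo u1.injOn u1.surjOn fun ω hω => ?_
  obtain ⟨e1, e2, e3, e4, e5, e6⟩ := u2 ω hω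
  rw [← Fx.PS.rc hF, e6, Fx.PS.rc hF, e1, wX, wX, e2, e3, e4, e5, ← h.cSx_tr M.lt.le _ _ v
    (M.wd _ (u1.mapsTo hω)).2.1 (M.x0_box h (u1.mapsTo hω)) ho]
  rfl

include hw W0 hy

theorem tw (x0 : 0 ≤ x) : G.Tn k (G.zz b J k) (G.zz b J k).d (G.f b J k) x y (G.Q k ^ 280)⁻¹
    (0, ∑ ω ∈ S.Om, (w ω : ℂ) • G.wX b J k S ω)
    (G.tt (fun U => wil b (G.N J) U * ∑ ω ∈ S.Om, w ω * S.wo (G.N J) ω U) J k) := by
  refine ⟨M.sz h t hp (by simpa using hw) W0 x0 hy, ⟨fun _ _ _ _ => rfl, fun X c U => ?_,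
    fun v => ⟨rfl, fun o ho => ?_⟩⟩, M.rt0 h t hp _⟩
  · simp only [Finset.sum_apply, Complex.im_sum]
    refine sum_eq_zero fun ω hω => ?_
    simp [M.real h t hp hω (fun l => (I.re ω l).1) (fun l => (I.re ω l).2) X c U]
  · simpa using M.cov h I (F := 1) (fun _ _ => rfl) v ho

theorem lop : G.Lop J k 1 (G.Q k ^ 280)⁻¹ y
    fun F => (0, ∑ ω ∈ S.Om, (F (z ω) * w ω) • G.wX b J k S ω) := by
  obtain ⟨k', a1, a2⟩ := M.core h t hp (fun _ => abs_nonneg _) hw W0 hy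
  have n := h.rt_N M.lt.le
  have p := pm0 h (x := y) a1
  refine ⟨fun F F' s _ _ => ?_, fun _ _ _ _ _ _ => rfl, fun F F' Y _ _ e => ?_,
    ⟨k', kN_drop a1 (δ' := 1 / 4) (by norm_num), fun F _ e => ⟨p.2 p.1, ?_⟩⟩,
    fun F v e => ⟨rfl, fun o => M.cov h I (n ▸ e) v⟩⟩
  · simp [add_mul, add_smul, sum_add_distrib, smul_sum, smul_smul, mul_assoc]
  · simp only [Finset.sum_apply, Pi.smul_apply]
    refine sum_congr rfl fun ω hω => ?_
    by_cases a : S.X0 ω ⊆ Y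
    · obtain ⟨y, y1, y2⟩ := I.near ω hω
      rw [e y (a y1) _ (by rwa [n, mul_one])]
    · rw [M.wX_out h t hp hω a, smul_zero, smul_zero]
  · refine (a2 (fun ω _ => F (z ω) * w ω) 1 fun ω _ _ _ => ?_).mono fun _ _ => (one_mul _).le
    rw [norm_mul, Complex.norm_real]
    exact mul_le_mul_of_nonneg_right (e _) (norm_nonneg _)

end Mx

end Gl

end Pool.Agent.Lib.MP_7f377f_mp.RG.Q4.En
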