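import Pool.Agent.Lib.MP_7f377f_mp.G.MgS

/-! Nested merging: definitions. -/

noncomputable section

open Pool.Agent.Lib.MP_7f377f_mp.Jet

set_option linter.unusedSectionVars false
variable [Pool.Agent.Lib.MP_7f377f_mp.GD]

namespace Pool.Agent.Lib.MP_7f377f_mp.RG.Q4.En

open Finset Function Sg Real Pos Mg
open scoped Classical

attribute [local irreducible] box lbox tb tau rc

variable {γ ι ι' Ω Ω' Ω₂ κ κ₂ β : Type} [Fintype γ] [DecidableEq γ] [DecidableEq ι] [DecidableEq ι']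
  [DecidableEq Ω] [DecidableEq Ω'] [Fintype Ω₂] [DecidableEq Ω₂] [Fintype κ] [DecidableEq κ]
  [Inhabited κ] [Fintype κ₂] [DecidableEq κ₂] [Inhabited κ₂] [Fintype β] [DecidableEq β]

/-- on the letters `L` the family `Y'` is the family `Y` seen through `e` -/
def Fy.Em (L : Finset ι') (e : ι' → ι) (Y' : Fy ι') (Y : Fy ι) : Prop :=
  (Y'.cut L).Se ((Y.pull e).cut L)

/-- the words `D'` in the cells `C` are the words `D` in the cells `e C` -/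
structure Mg.Wd.Em (D' : Wd St ι' Ω') (D : Wd St ι Ω) (e : ι' → ι) (u : Ω' → Ω) (C : Finset ι') :
    Prop where
  he : Injective e
  hu : Injective u
  sub : C ⊆ D'.B
  cB : ∀ x ∈ C, e x ∈ D.B
  om : ∀ ω ∈ D'.Om, D'.cl ω ∈ C → u ω ∈ D.Om ∧ D.cl (u ω) = e (D'.cl ω) ∧
    D.A (u ω) = (D'.A ω).image e ∧ D.Z0 (u ω) = D'.Z0 ω ∧ D.X0 (u ω) = D'.X0 ω
  sj : ∀ ω ∈ D.Om, ∀ x ∈ C, D.cl ω = e x → ∃ ω' ∈ D'.Om, u ω' = ω ∧ D'.cl ω' = x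

/-- the cells in `A` only -/
def Ws.res (S : Ws ι Ω κ) (A : Finset ι) : Ws ι Ω κ :=
  { S with
    Om := S.Om.filter (S.cl · ∈ A)
    P := fun q => if q ∈ A then S.P q else 0
    W := fun q => if q ∈ A then S.W q else ∅ }

/-- the cells `C` of `S'` are the cells `e C` of `S` -/
structure Ws.Em (S' : Ws ι' Ω' κ) (S : Ws ι Ω κ) (w' : Ω' → ℂ) (w : Ω → ℂ) (e : ι' → ι)
    (u : Ω' → Ω) (C : Finset ι') : Prop where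
  he : Injective e
  hu : Injective u
  P : ∀ q ∈ C, S.P (e q) = S'.P q
  om : ∀ ω ∈ S'.Om, S'.cl ω ∈ C → u ω ∈ S.Om ∧ S.cl (u ω) = e (S'.cl ω) ∧ S.F (u ω) = S'.F ω ∧
    S.a (u ω) = S'.a ω ∧ S.Z0 (u ω) = S'.Z0 ω ∧ S.X0 (u ω) = S'.X0 ω ∧ w (u ω) = w' ω
  sj : ∀ ω ∈ S.Om, ∀ q ∈ C, S.cl ω = e q → ∃ ω' ∈ S'.Om, u ω' = ω ∧ S'.cl ω' = q

/-- the words of the second level: cells `γ` with regions `W`, words `Ω₂` with letters `κ₂` -/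
structure Wn (γ Ω₂ κ₂ : Type) where
  Om : Finset Ω₂
  cl : Ω₂ → γ
  a : Ω₂ → κ₂ → ℂ
  W : γ → Finset St
  Z0 : Ω₂ → Finset St
  X0 : Ω₂ → Finset St

/-- the same data without sources -/
def Wn.x (T : Wn γ Ω₂ κ₂) : Wx γ Ω₂ κ₂ Empty :=
  ⟨T.Om, T.cl, 0, T.a, 0, fun _ _ => ∅, T.W, T.Z0, T.X0, Empty.elim, fun _ => Empty.elim⟩

/-- the observable of a cell when the letters are the observables `X` -/
def Wn.X (T : Wn γ Ω₂ κ₂) (X : Ω₂ × κ₂ ⊕ γ → Conf → ℂ) (w : Ω₂ → ℂ) (q : γ) (U : Conf) : ℂ :=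
  X (.inr q) U + ∑ ω ∈ T.Om.filter (T.cl · = q), w ω * ∏ l, (X (.inl (ω, l)) U - T.a ω l)

namespace Gl

variable (G : Gl) (b : ℝ) (J k₁ k l : ℕ) [Fintype ι] [Fintype ι']

/-- the family of the cells at the level of the merging -/
def fam (S : Ws ι Ω κ) (w : Ω → ℂ) : Fy ι :=
  (G.mg S.x.wd b J (G.xt S.x.wd.al S.x.src S.x.sup b J) J k₁ S.x.cen w
    fun x => G.zs (S.x.sup x) J k₁).pull .inr

/-- the family of the cells at the level `l` -/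
def fu (S : Ws ι Ω κ) (w : Ω → ℂ) : Fy ι := G.fw univ b J (G.fam b J k₁ S w) k₁ l

/-- the direction of a cell at the level of the merging -/
def u1 (S : Ws ι Ω κ) (w : Ω → ℂ) (q : ι) : Lx × Ac :=
  G.tv (S.P q) b J k₁ + (0, ∑ ω ∈ S.Om.filter (S.cl · = q), w ω • G.wI b J k₁ S ω)

/-- the insertion of the product of the cells of `S` -/
def cN (S : Ws κ₂ Ω κ) (w : Ω → ℂ) (a : κ₂ → ℂ) (Z0 X0 : Finset St) : Ac :=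
  G.cIn b J (G.fu b J k₁ (k + 1) S w) (k + 1) k a Z0 X0

/-- the supports of the sources and of the words; the cells may overlap -/
structure Un (S : Ws ι Ω κ) : Prop where
  lt : k₁ < J
  wd : ∀ ω ∈ S.Om, (S.X0 ω).Nonempty ∧ S.Z0 ω ⊆ S.X0 ω ∧ S.X0 ω ⊆ G.zs (S.W (S.cl ω)) J k₁ ∧
    ∀ i, G.zs (S.V ω i) J k₁ ⊆ S.Z0 ω
  lF : ∀ ω i x, rc (G.N J) x ∉ S.V ω i → S.F ω i x = 0
  lP : ∀ q x, rc (G.N J) x ∉ S.W q → S.P q x = 0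

/-- the positions `β` of the words with regions `X` and weights `v` -/
structure Gp (κ : Type) [Fintype κ] (c : ℕ) (C σ Wt : ℝ) (m : ℕ → ℕ) (X : β → Finset St)
    (v : β → ℝ) : Prop where
  lt : l < k₁
  geo : ∀ x, (X x).Nonempty ∧ X x ⊆ box (G.N k₁ / 2) ∧ tau (G.N k₁) (G.p k₁).D (X x) ≤ c
  hW : ∀ y, ∑ x ∈ univ.filter (y ∈ X ·), v x ≤ Wt
  sm : G.Q k₁ ^ 330 * (G.cM k₁ c C * Wt) ≤ σ ^ Fintype.card κ
  mm : ∀ j, l ≤ j → j ≤ k₁ → 1 ≤ m j ∧ 40 * (m j : ℝ) ≤ G.Q j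

/-- separated cells which merge at the level `k₁` and flow with the radii `r` to the level `l` -/
structure M1 (S : Ws ι Ω κ) (w : Ω → ℂ) (c : ℕ) (C σ : ℝ) (m : ℕ → ℕ) (X : β → Finset St)
    (v : β → ℝ) (ps : Ω → β) (r : ℕ → ι → ℝ) : Prop where
  mw : G.Mw b J k₁ S c C σ (r k₁)
  x0 : ∀ ω ∈ S.Om, S.X0 ω = X (ps ω)
  hv : ∀ x, ∑ ω ∈ S.Om.filter (ps · = x), ‖w ω‖ * r k₁ (S.cl ω) ≤ v x
  sz : ∀ j, l ≤ j → j ≤ k₁ → ∀ q, ∃ N, G.Q j ^ 223 * (r j q * N) ≤ G.bb j ∧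
    G.Sz j N N (G.Q j ^ 100)⁻¹ (G.tn b J (G.u1 b J k₁ S w q) k₁ j).1
      (G.tn b J (G.u1 b J k₁ S w q) k₁ j).2
  rad : ∀ j, l ≤ j → j ≤ k₁ →
    Cls (G.N j) ((m j + 2) * (G.p j).D) univ id (fun q => G.zs (S.W q) J j) ∧
      ∀ q, 0 < r j q ∧ (j < k₁ → r j q ≤ m j * r (j + 1) q)

/-- the number `a` is close to the free energy of the observable `X` -/
def Cen (X : Conf → ℂ) (W : Finset St) (σ C : ℝ) (a : ℂ) : Prop :=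
  ∀ (Y : Fy Unit) (r0 : Unit → ℝ) (N : ℝ), G.Fd l (G.zz b J l) univ r0 (fun _ => σ) (G.Q l ^ 329)⁻¹ Y
    (fun s => G.tt (pr b (G.N J) (fun _ => X) s) J l) → Y.bs = (G.zz b J l).d → 0 ≤ N →
    G.Q l ^ 273 * (σ * N) ≤ G.bb l → G.Sz l N N (G.Q l ^ 100)⁻¹ (Y.jt {()}).1 (Y.jt {()}).2 →
    Y.Z () ⊆ G.zs W J l → σ * ‖jd {()} Y.E - a‖ ≤ C

variable (S : Ws (Ω₂ × κ₂ ⊕ γ) Ω κ) (w : Ω → ℂ) (T : Wn γ Ω₂ κ₂)

/-- the family of the letters of the second level -/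
def y2 : Fy (Ω₂ × κ₂ ⊕ γ) := G.fu b J k₁ (k + 1) (S.res T.x.wd.al) w

/-- the insertion of a word of the second level -/
def nI (ω : Ω₂) : Ac := G.ins T.x.wd b J (G.y2 b J k₁ k S w T) (k + 1) k T.x.cen ω

/-- the cells of `S` are the letters and the cells of `T`; the words of `T` merge at the level `k` -/
structure Mn (c₁ : ℕ) (C₁ σ₁ Wt₁ : ℝ) (m : ℕ → ℕ) (X : β → Finset St) (v : β → ℝ) (ps : Ω → β)
    (c : ℕ) (C σ : ℝ) (ρ : γ → ℝ) : Prop where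
  gp : G.Gp k₁ (k + 1) κ c₁ C₁ σ₁ Wt₁ m X v
  one : ∀ N, T.x.wd.Tr N → ∃ r, r (k + 1) = Sum.elim (fun _ => σ) ρ ∧
    G.M1 b J k₁ (k + 1) (S.res (T.x.wd.ad N)) w c₁ C₁ σ₁ m X v ps r
  card : Fintype.card κ₂ ≤ c
  C0 : 0 ≤ C
  big : 400 * 2 ^ c ≤ G.Q k
  pos : 0 < σ
  wd : ∀ ω ∈ T.Om, (T.X0 ω).Nonempty ∧ T.Z0 ω ⊆ T.X0 ω ∧
    tb (G.N k) ((G.p k).R + 3) (T.Z0 ω) ⊆ T.X0 ω ∧ T.X0 ω ⊆ G.zs (T.W (T.cl ω)) J k ∧
    tau (G.N k) (G.p k).D (T.X0 ω) ≤ c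
  lt' : ∀ ω ∈ T.Om, ∀ i, S.W (.inl (ω, i)) ⊆ T.W (T.cl ω) ∧ G.zs (S.W (.inl (ω, i))) J k ⊆ T.Z0 ω ∧
    G.Cen b J (k + 1) (S.X (G.N J) w (.inl (ω, i))) (S.W (.inl (ω, i))) σ C (T.a ω i) ∧
    ∃ N, 0 ≤ N ∧ G.Q (k + 1) ^ 273 * (σ * N) ≤ G.bb (k + 1) ∧ G.Sz (k + 1) N N (G.Q (k + 1) ^ 100)⁻¹
      (G.tn b J (G.u1 b J k₁ S w (.inl (ω, i))) k₁ (k + 1)).1
      (G.tn b J (G.u1 b J k₁ S w (.inl (ω, i))) k₁ (k + 1)).2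
  sub : ∀ q, S.W (.inr q) ⊆ T.W q
  cel : Cls (G.N k) ((2 * c + 5) * (G.p k).D) univ id fun q => G.zs (T.W q) J k

end Gl

end Pool.Agent.Lib.MP_7f377f_mp.RG.Q4.En
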