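import Pool.Agent.Lib.MP_7f377f_mp.G.NsA0

/-! Nested merging: relabelling and translation of merged families. -/

noncomputable section

open Pool.Agent.Lib.MP_7f377f_mp.Jet

set_option linter.unusedSectionVars false
variable [Pool.Agent.Lib.MP_7f377f_mp.GD]

namespace Pool.Agent.Lib.MP_7f377f_mp.RG.Q4.En

open Finset Function Sg Real Pos Mg
open scoped Classical

attribute [local irreducible] box lbox tb tau rc

variable {ι ι' Ω Ω' : Type} [DecidableEq ι] [DecidableEq ι'] [DecidableEq Ω] [DecidableEq Ω']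
  {e : ι' → ι} {u : Ω' → Ω} {A : Finset ι} {A' L T C₀ : Finset ι'} {Y : Fy ι} {Y' : Fy ι'}
  {s : ι' → ℂ}

theorem exz_ext {f g : ι → ℂ} (h : ∀ x, f (e x) = g (e x))
    (h' : ∀ y, (¬ ∃ x, e x = y) → f y = g y) : f = g := funext fun y => by
  by_cases a : ∃ x, e x = y
  exacts [a.choose_spec ▸ h _, h' y a]

theorem exz_no {y : ι} (h : ¬ ∃ x, e x = y) : exz e s y = 0 := extend_apply' _ _ _ h

theorem exz_cutS (he : Injective e) : exz e (cutS L s) = cutS (L.image e) (exz e s) :=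
  exz_ext (e := e) (fun x => by simp [exz_apply he, cutS, he.eq_iff])
    fun y h => by simp [exz_no h, cutS]

theorem jd_exz' (he : Injective e) {r : ι' → ℝ} {g : (ι → ℂ) → ℂ}
    (h : Hb r fun s => g (exz e (cutS L s))) (hT : T ⊆ L) :
    jd T (fun s => g (exz e s)) = jd (T.image e) g := by
  obtain ⟨M, h⟩ := h
  have m : ∀ {s : ι → ℂ}, s ∈ Pd (extend e r 1) → s ∘ e ∈ Pd r := fun hs x => by
    simpa only [he.extend_apply, comp] using hs (e x)
  have k : SH (extend e r 1) M fun s => g (exz e (cutS L (s ∘ e))) := by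
    refine ⟨fun y => ?_, fun s hs y => ?_, fun s hs => h.bd _ (m hs)⟩ <;> by_cases a : ∃ x, e x = y
    · obtain ⟨x, rfl⟩ := a
      exact he.extend_apply r 1 x ▸ h.pos x
    · rw [extend_apply' _ _ _ a]; exact one_pos
    · obtain ⟨x, rfl⟩ := a
      simpa only [update_comp_eq_of_injective _ he, he.extend_apply] using h.hol _ (m hs) x
    · simpa only [update_comp_eq_of_forall_ne _ _ fun x u => a ⟨x, u⟩] using
        differentiableOn_const _
  rw [← jd_cut (g := fun s => g (exz e s)) hT, ← jd_cut (g := g) Subset.rfl]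
  refine .trans ?_ ((jd_exz he ⟨_, k⟩ T).trans ((jd_cut Subset.rfl).symm.trans ?_)) <;>
    refine congrArg _ (funext fun s => congrArg g ?_)
  · exact congrArg (fun s => exz e (cutS L s)) (funext fun x => (exz_apply he x).symm)
  · refine exz_ext (e := e) (fun x => ?_) fun y a => by
      rw [exz_no a, cutS, if_neg fun u => a ((mem_image.1 u).imp fun _ => And.right)]
    by_cases a : x ∈ T <;> simp [exz_apply he, cutS, he.eq_iff, a, @hT x]

theorem jd_em (he : Injective e) {r : ι' → ℝ} {g : (ι → ℂ) → ℂ} {g' : (ι' → ℂ) → ℂ}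
    (h : Hb r fun s => g' (cutS L s)) (u : ∀ s, g' (cutS L s) = g (exz e (cutS L s))) (hT : T ⊆ L) :
    jd T g' = jd (T.image e) g := by
  rw [← jd_exz' he (funext u ▸ h) hT, ← jd_cut hT, funext u, jd_cut (g := fun s => g (exz e s)) hT]

theorem ma_img {V : Type} [AddCommMonoid V] [Module ℂ V] (he : Injective e) (a : Finset ι → V) :
    ma (L.image e) a (exz e s) = ma L (fun T => a (T.image e)) s := by
  induction L using Finset.induction_on generalizing a with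
  | empty => simp [ma, mon]
  | insert i B hi ih =>
    rw [image_insert, ma_insert (by simpa [he.eq_iff] using hi), ma_insert hi, ih, ih, exz_apply he]
    simp only [image_insert]

theorem ma_em {V : Type} [AddCommMonoid V] [Module ℂ V] (he : Injective e) {a : Finset ι → V}
    {a' : Finset ι' → V} (hL : L ⊆ A') (hA : ∀ x ∈ L, e x ∈ A) (h : ∀ T ⊆ L, a' T = a (T.image e)) :
    ma A' a' (cutS L s) = ma A a (exz e (cutS L s)) := by
  rw [exz_cutS he, ma_cut _ hL, ma_cut _ (image_subset_iff.2 hA), ma_img he, ma_congr h]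

namespace Mg

variable {σ : Type} [DecidableEq σ] {D : Wd σ ι Ω} {D' : Wd σ ι' Ω'} {N : Finset Ω} {N' : Finset Ω'}
  {Λ Λ1 X : Finset σ} {c : Finset (Finset σ)} {φ : σ → σ}
  {κ : (ι → ℂ) → Finset σ → Finset (Finset σ) → ℂ} {ε : (ι → ℂ) → σ → ℂ} {η : Ω → (ι → ℂ) → ℂ}
  {κ' : (ι' → ℂ) → Finset σ → Finset (Finset σ) → ℂ} {ε' : (ι' → ℂ) → σ → ℂ}
  {η' : Ω' → (ι' → ℂ) → ℂ} {s : ι → ℂ} {s' : ι' → ℂ}

theorem sum_set (h : N ⊆ D.Om) (F : Finset (LP σ ⊕ Ω) → ℂ) :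
    ∑ O ∈ (cs D Λ X c).filter (·.toRight = N), F O = ∑ O ∈ clus D.sp ((lps Λ).disjSum N) X,
      if lb O = c ∧ O.toRight = N then F O else 0 := by
  rw [← sum_filter]
  refine sum_congr (Finset.ext fun O => ?_) fun _ _ => rfl
  simp only [cs, mem_filter, mem_clus, Wd.obs, subset_disjSum, and_assoc]
  exact and_congr_right' ⟨fun a => ⟨a.2.2.2.2.le, a.2⟩, fun a => ⟨a.1.trans h, a.2⟩⟩

/-- the clusters with given words under a relabelling of the sites and of the words -/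
theorem gam_set (hu : Injective u) (hN : N = N'.image u) (hω : N ⊆ D.Om) (hω' : N' ⊆ D'.Om)
    (i : Set.InjOn φ Λ1) (hΛ : Λ ⊆ Λ1) (hX : X ⊆ Λ1) (hc : ∀ C ∈ c, C ⊆ Λ1)
    (hl : (lps Λ).image (fun o => (⟨o.1.image φ, o.2.image (image φ)⟩ : LP σ)) = lps Λ)
    (hZ : ∀ ω ∈ N', D'.Z0 ω ⊆ D'.X0 ω ∧ D'.X0 ω ⊆ Λ ∧ D.Z0 (u ω) = (D'.Z0 ω).image φ ∧
      D.X0 (u ω) = (D'.X0 ω).image φ ∧ η (u ω) s = η' ω s')
    (h1 : ∀ o ∈ lps Λ, κ s (o.1.image φ) (o.2.image (image φ)) = κ' s' o.1 o.2)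
    (h2 : ∀ x ∈ Λ, ε s (φ x) = ε' s' x) :
    ∑ O ∈ (cs D Λ (X.image φ) (c.image (image φ))).filter (·.toRight = N), gam D κ ε η O s =
      ∑ O ∈ (cs D' Λ X c).filter (·.toRight = N'), gam D' κ' ε' η' O s' := by
  have j := card_image_iff.1 (congrArg card hl)
  have j2 : Set.InjOn (image φ) {C | C ⊆ Λ1} := fun _ a _ b e =>
    (image_eq_image_iff_of_injOn i a b).1 e
  rw [sum_set hω, sum_set hω', hN]
  conv_lhs => rw [← hl, Sh.sum_image']
  refine (sum_clus_image (sp := D'.sp) ?_ i ?_ hX ?_ _).trans (sum_congr rfl fun O hO => ?_)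
  · rintro (a | a) ha (b | b) hb e
    · exact congrArg _ (j (inl_mem_disjSum.1 ha) (inl_mem_disjSum.1 hb) (Sum.inl.inj e))
    · cases e
    · cases e
    · exact congrArg _ (hu (Sum.inr.inj e))
  · rintro (a | a) ha
    · exact (mem_lps.1 (inl_mem_disjSum.1 ha)).1.trans hΛ
    · exact (hZ a (inr_mem_disjSum.1 ha)).2.1.trans hΛ
  · rintro (a | a) ha
    exacts [rfl, (hZ a (inr_mem_disjSum.1 ha)).2.2.2.1]
  obtain ⟨a1, a2⟩ := subset_disjSum.1 (mem_clus.1 hO).1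
  have a3 : ∀ C ∈ lb O, C ⊆ Λ := fun C hC => by
    obtain ⟨o, ho, hC⟩ := mem_biUnion.1 hC
    obtain ⟨h1, -, h2⟩ := mem_lps.1 (a1 ho)
    exact ((mem_fams.1 h2).1 C hC).trans h1
  have a4 : lb (O.image (Sum.map (fun o : LP σ => (⟨o.1.image φ, o.2.image (image φ)⟩ : LP σ))
      u)) = (lb O).image (image φ) := by
    rw [lb, lb, Sh.left_image, image_biUnion, biUnion_image]
  rw [a4, Sh.right_image]
  refine if_congr (and_congr ⟨fun e => (image_eq_image_iff_of_injOn (s := Λ1.powerset)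
    (fun _ a _ b => j2 (mem_powerset.1 a) (mem_powerset.1 b)) (fun C h => mem_powerset.2
      ((a3 C h).trans hΛ)) fun C h => mem_powerset.2 (hc C h)).1 e, congrArg _⟩
    (image_injective hu).eq_iff) ?_ rfl
  have a5 : (lb O).biUnion id ⊆ Λ := biUnion_subset.2 a3
  have a6 : O.toRight.biUnion D'.Z0 ⊆ Λ :=
    biUnion_subset.2 fun ω h => (hZ ω (a2 h)).1.trans (hZ ω (a2 h)).2.1
  rw [gam, gam, a4, Sh.right_image, Sh.left_image, prod_image hu.injOn,
    prod_congr rfl fun ω h => (hZ ω (a2 h)).2.2.2.2, prod_image (j.mono a1),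
    prod_congr rfl fun o ho => h1 o (a1 ho), image_biUnion,
    biUnion_congr rfl fun ω h => (hZ ω (a2 h)).2.2.1, ← biUnion_image, image_biUnion,
    show (lb O).biUnion (fun C => id (C.image φ)) = ((lb O).biUnion id).image φ from
      biUnion_image.symm, ← Sh.image_sdiff_of_inj i (a6.trans hΛ) (a5.trans hΛ), prod_image (i.mono
      (sdiff_subset.trans (a6.trans hΛ))), prod_congr rfl fun x hx => h2 x (a6 (mem_sdiff.1 hx).1)]
  congr 2
  refine if_congr ?_ rfl rfl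
  rw [PD, PD, Sh.left_image, coe_image, (j.mono a1).pairwiseDisjoint_image]
  exact forall₄_congr fun o ho o' ho' => imp_congr_right fun _ => Sh.disj_image i
    ((mem_lps.1 (a1 ho)).1.trans hΛ) ((mem_lps.1 (a1 ho')).1.trans hΛ)

theorem gam_set' (hu : Injective u) (hN : N = N'.image u) (hω : N ⊆ D.Om) (hω' : N' ⊆ D'.Om)
    (hZ : ∀ ω ∈ N', D'.Z0 ω ⊆ D'.X0 ω ∧ D'.X0 ω ⊆ Λ ∧ D.Z0 (u ω) = D'.Z0 ω ∧
      D.X0 (u ω) = D'.X0 ω ∧ η (u ω) s = η' ω s')
    (h1 : ∀ o ∈ lps Λ, κ s o.1 o.2 = κ' s' o.1 o.2) (h2 : ∀ x ∈ Λ, ε s x = ε' s' x) :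
    ∑ O ∈ (cs D Λ X c).filter (·.toRight = N), gam D κ ε η O s =
      ∑ O ∈ (cs D' Λ X c).filter (·.toRight = N'), gam D' κ' ε' η' O s' := by
  have i0 : image (id : σ → σ) = id := funext fun _ => image_id
  simpa only [i0, image_id, id] using gam_set (φ := id) (X := X) (c := c)
    (Λ1 := Λ ∪ X ∪ c.biUnion id) hu hN hω hω' (Set.injOn_id _)
    (subset_union_left.trans subset_union_left) (subset_union_right.trans subset_union_left)
    (fun C hC => (subset_biUnion_of_mem id hC).trans subset_union_right) (by simp [i0])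
    (by simpa only [image_id] using hZ) (by simpa only [i0, image_id, id] using h1) h2

end Mg

theorem Fy.em_iff : Y'.Em L e Y ↔ ∀ s, Y'.ψ (cutS L s) = Y.ψ (exz e (cutS L s)) ∧
    Y'.K (cutS L s) = Y.K (exz e (cutS L s)) ∧ Y'.E (cutS L s) = Y.E (exz e (cutS L s)) :=
  ⟨fun h s => ⟨congrFun h.1 s, congrFun h.2.1 s, congrFun h.2.2 s⟩, fun h =>
    ⟨funext fun s => (h s).1, funext fun s => (h s).2.1, funext fun s => (h s).2.2⟩⟩

namespace Gl

variable {G : Gl} {b C : ℝ} {J i k c : ℕ} {D : Wd St ι Ω} {D' : Wd St ι' Ω'} {a : ι → ℂ}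
  {a' : ι' → ℂ} {w : Ω → ℂ} {w' : Ω' → ℂ} {Zc : ι → Finset St} {W' Zc' : ι' → Finset St}
  {r0 : ι' → ℝ} {r : ℕ → ι' → ℝ} {m : ℕ → ℕ} {f : (ι' → ℂ) → Conf → ℂ} {v : St}

theorem fw_emb (he : Injective e) (hL : L ⊆ A') (hA : ∀ x ∈ L, e x ∈ A) (u : Y'.Em L e Y)
    (H : ∀ j, k ≤ j → j < i → ∀ X c U, ∃ r, Hb r fun s => (G.sd j (G.zz b J (j + 1))).KK
      ((G.fw A' b J Y' i (j + 1)).ψ (cutS L s)) ((G.fw A' b J Y' i (j + 1)).K (cutS L s)) X c U) :
    ∀ j ≤ i, k ≤ j → (G.fw A' b J Y' i j).Em L e (G.fw A b J Y i j) :=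
  dw_ind (fun _ => by rwa [fw_top, fw_top]) fun j hj ih hk => by
    have a := Fy.em_iff.1 (ih (by omega))
    rw [fw_step hj, fw_step hj]
    refine Fy.em_iff.2 fun s => ⟨by simp only [fs, a], ma_em he hL hA fun T hT =>
      funext₃ fun X c U => ?_, by simp only [fs, a]⟩
    obtain ⟨_, H⟩ := H j hk hj X c U
    exact jd_em he H (fun s => by simp only [a]) hT

/-- the family of all the letters is entire and local, without any smallness -/
theorem Ok.lc_of (h : G.Ok) (lt : k < i) (loc : Loc (G.N i) Y.Z Y.ψ Y.K)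
    (zA : ∀ ω ∈ D.Om, ∀ x ∈ D.A ω, G.zs (Y.Z x) i k ⊆ D.Z0 ω)
    (zB : ∀ x ∈ D.B, G.zs (Y.Z x) i k ⊆ Zc x) :
    Lc (G.N k) D (ent D.al (G.fw D.al b J Y i k).ψ) (G.fw D.al b J Y i k).K
      (eta D (G.fw D.al b J Y i k).E a) (fun _ => 1) (G.fw D.al b J Y i k).Z Zc := by
  have p : ∀ _ : ι, (0 : ℝ) < 1 := fun _ => one_pos
  have l := fw_loc (A := D.al) (b := b) (J := J) h loc k lt.le
  refine ⟨h.N_odd k, fun X c U => ?_, fun x B => ?_, fun ω U => ((((hb_ma p _).refl (A := ∅)).sub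
    (eqv_const p _)).sub (Hb.refl ⟨_, sh_lin p _ a⟩)).exp.fst, ⟨fun x y hy => ?_, l.act⟩,
    fun ω h1 x h2 => ?_, fun x hx => ?_, fun ω _ x hx s t => funext fun U => ?_⟩
  · simp only [fw_step lt, fs, trK_eq]
    exact hb_ma p _
  · simp only [ent, ma_apply]
    exact hb_ma p _
  · refine ind_pi.2 fun B => ?_
    simp only [ent, ma_apply]
    exact (ind_pi.1 (l.psi x y hy) B).tr _
  · rw [fw_Z _ lt.le]
    exact zA ω h1 x h2
  · rw [fw_Z _ lt.le]
    exact zB x hx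
  · rw [eta, eta, Jet.tr, ma_upd hx, sum_congr rfl fun y hy => by
      rw [update_of_ne (ne_of_mem_of_not_mem hy hx)]]

theorem em_lt (E : D'.Em D e u C₀) {N : Finset Ω'} (hN : ∀ ω ∈ N, ω ∈ D'.Om ∧ D'.cl ω ∈ C₀) :
    D.lt (N.image u) (T.image e) = (D'.lt N T).image e := by
  rw [Mg.Wd.lt, Mg.Wd.lt, image_union, image_sdiff _ _ E.he, image_image, image_image, image_biUnion,
    biUnion_image, biUnion_congr rfl fun ω a => (E.om ω (hN ω a).1 (hN ω a).2).2.2.1,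
    image_congr (f := D.cl ∘ u) (g := e ∘ D'.cl) fun ω a => (E.om ω (hN ω a).1 (hN ω a).2).2.1]

/-- the merged family on the cells `C₀` depends only on the words in these cells -/
theorem Mh.mg_emb (M : G.Mh D' b J Y' i k a' c C r0 r m f W' Zc') (h : G.Ok) (t : G.Tu b J)
    (hp : G.Pu) (E : D'.Em D e u C₀) (g : D.Ok (box (G.N k / 2)))
    (lc : Lc (G.N k) D (ent D.al (G.fw D.al b J Y i k).ψ) (G.fw D.al b J Y i k).K
      (eta D (G.fw D.al b J Y i k).E a) (fun _ => 1) (G.fw D.al b J Y i k).Z Zc)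
    (hY : ∀ N, D'.Tr N → (∀ ω ∈ N, D'.cl ω ∈ C₀) → Y'.Em (D'.lt N C₀) e Y)
    (hw : ∀ ω ∈ D'.Om, D'.cl ω ∈ C₀ → w (u ω) = w' ω ∧ ∀ x ∈ D'.A ω, a (e x) = a' x) :
    (G.mg D' b J Y' i k a' w' Zc').Em C₀ e (G.mg D b J Y i k a w Zc) := by
  have he := E.he
  have lc' := M.lc h t hp
  have cB := image_subset_iff.2 E.cB
  have sA : ∀ {N}, D'.Tr N → (∀ ω ∈ N, D'.cl ω ∈ C₀) → N.image u ⊆ D.Om ∧
      (D'.lt N C₀).image e ⊆ D.ad (N.image u) := fun a a' =>
    ⟨image_subset_iff.2 fun ω x => (E.om ω (a.1 x) (a' ω x)).1,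
      em_lt E (fun ω x => ⟨a.1 x, a' ω x⟩) ▸ lt_sub cB⟩
  have cc : ∀ N s, cutS (D'.ad N) (cutS (D'.lt N C₀) s) = cutS (D'.lt N C₀) s := fun N s => by
    rw [cut_comm, cut_cut (lt_sub E.sub)]
  have fl := fun N a a' => Fy.em_iff.1 (fw_emb (G := G) (b := b) (J := J) (i := i) (k := k) he
    ((lt_sub E.sub).trans (ad_sub a.1)) (image_subset_iff.1 ((sA a a').2.trans (ad_sub (sA a a').1)))
    (hY N a a') (fun j hk hj X c U => by
      obtain ⟨_, _, _, _, -, F⟩ := M.sml h t hp a hj hk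
      exact ⟨_, by simpa only [cc] using hb_cut ⟨_, F.sh X c U⟩ (D'.lt N C₀)⟩) k M.lt.le le_rfl)
  have f0 := fl ∅ tr_empty (by simp)
  rw [show D'.lt ∅ C₀ = C₀ by simp [Mg.Wd.lt]] at f0
  have c1 : ∀ s, cutS D'.B (cutS C₀ s) = cutS C₀ s := fun s => by rw [cut_comm, cut_cut E.sub]
  have c2 : ∀ s, cutS D.B (exz e (cutS C₀ s)) = exz e (cutS C₀ s) := fun s => by
    rw [exz_cutS he, cut_comm, cut_cut cB]
  refine Fy.em_iff.2 fun s => ⟨by simp only [mg, c1, c2, f0], ma_em he E.sub E.cB fun T hT =>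
    funext₃ fun X c U => ?_, by simp only [mg, c1, c2, f0]⟩
  have hT' := (image_subset_image (f := e) hT).trans cB
  rw [← jA_trK (hT.trans E.sub), ← jA_trK hT', lc'.jA_K2 M.geo (hT.trans E.sub), lc.jA_K2 g hT',
    ← sum_filter, ← sum_filter]
  have tr : ∀ N ∈ D'.tv.filter (Mg.Tv D'.cl · T), D'.Tr N ∧ ∀ ω ∈ N, D'.cl ω ∈ C₀ := fun N a =>
    ⟨⟨mem_powerset.1 (mem_filter.1 (mem_filter.1 a).1).1, (mem_filter.1 a).2.1⟩,
      fun ω x => hT ((mem_filter.1 a).2.2 (mem_image_of_mem _ x))⟩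
  refine congrArg₂ _ (jd_em he (hb_cut (lc'.eK X c U) _) (fun s => by rw [(f0 s).2.1]) hT)
    (sum_nbij (image u) (fun N a => ?_) (image_injective E.hu).injOn (fun N a => ?_) fun N a => ?_)
  · obtain ⟨a1, a2⟩ := tr N a
    have o := fun ω x => (E.om ω (a1.1 x) (a2 ω x)).2.1
    have j : Set.InjOn D.cl (N.image u : Finset Ω) := by
      rw [coe_image]
      rintro _ ⟨ω, x, rfl⟩ _ ⟨ω', x', rfl⟩ y
      rw [a1.2 x x' (he (by rwa [o ω x, o ω' x'] at y))]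
    refine mem_filter.2 ⟨mem_filter.2 ⟨mem_powerset.2 (sA a1 a2).1,
      (mem_filter.1 (mem_filter.1 a).1).2.1.image _, j⟩, j, ?_⟩
    rw [image_image, image_congr (f := D.cl ∘ u) (g := e ∘ D'.cl) o, ← image_image]
    exact image_subset_image (mem_filter.1 a).2.2
  · obtain ⟨a1, a2⟩ := mem_filter.1 (mem_coe.1 a)
    obtain ⟨a3, ⟨ω0, a4⟩, -⟩ := mem_filter.1 a1
    have o : ∀ ω ∈ N, ∃ ω' ∈ D'.Om, u ω' = ω ∧ D'.cl ω' ∈ T ∧ e (D'.cl ω') = D.cl ω := fun ω x => by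
      obtain ⟨y, y1, y2⟩ := mem_image.1 (a2.2 (mem_image_of_mem _ x))
      obtain ⟨ω', b1, b2, rfl⟩ := E.sj ω (mem_powerset.1 a3 x) y (hT y1) y2.symm
      exact ⟨ω', b1, b2, y1, y2⟩
    have o' : ∀ ω ∈ D'.Om.filter (u · ∈ N), D'.cl ω ∈ T ∧ e (D'.cl ω) = D.cl (u ω) := fun ω x => by
      obtain ⟨ω', -, b2, b3⟩ := o _ (mem_filter.1 x).2
      exact E.hu b2 ▸ b2 ▸ b3
    have j : Set.InjOn D'.cl (D'.Om.filter (u · ∈ N) : Finset Ω') := fun ω x ω' x' y =>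
      E.hu (a2.1 (mem_filter.1 x).2 (mem_filter.1 x').2 (by rw [← (o' ω x).2, y, (o' ω' x').2]))
    refine ⟨D'.Om.filter (u · ∈ N), mem_coe.2 (mem_filter.2 ⟨mem_filter.2 ⟨mem_powerset.2
      (filter_subset _ _), ?_, j⟩, j, image_subset_iff.2 fun ω x => (o' ω x).1⟩),
      Subset.antisymm (image_subset_iff.2 fun ω x => (mem_filter.1 x).2) fun ω x => ?_⟩
    · obtain ⟨ω', b1, b2, -⟩ := o ω0 a4
      exact ⟨ω', mem_filter.2 ⟨b1, b2 ▸ a4⟩⟩
    · obtain ⟨ω', b1, b2, -⟩ := o ω x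
      exact mem_image.2 ⟨ω', mem_filter.2 ⟨b1, b2 ▸ x⟩, b2⟩
  obtain ⟨a1, a2⟩ := tr N a
  obtain ⟨a3, a4⟩ := sA a1 a2
  have fN := fl N a1 a2
  have o := fun ω x => E.om ω (a1.1 x) (a2 ω x)
  have lA : ∀ ω ∈ N, D'.A ω ⊆ D'.lt N C₀ := fun ω x =>
    (subset_biUnion_of_mem _ x).trans subset_union_right
  have en : ∀ s, ent D'.al (G.fw D'.al b J Y' i k).ψ (cutS (D'.lt N C₀) s) =
      ent D.al (G.fw D.al b J Y i k).ψ (exz e (cutS (D'.lt N C₀) s)) := fun s =>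
    ma_em he ((lt_sub E.sub).trans (ad_sub a1.1)) (image_subset_iff.1 (a4.trans (ad_sub a3)))
      fun T hT => funext₂ fun x B => jd_em he (by
        have := hb_cut (hb_cut (lc'.eψ x B) (D'.ad N)) (D'.lt N C₀)
        simp only [M.ent_cut h t hp a1] at this
        simpa only [cc] using this) (fun s => by rw [(fN s).1]) hT
  have hE : Hb (r (k + 1)) fun s => (G.fw D'.al b J Y' i k).E (cutS (D'.lt N C₀) s) := by
    have := hb_cut (show Hb _ ((G.fw D'.al b J Y' i k).cut (D'.ad N)).E from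
      (M.low h t hp a1).1.ma ▸ hb_ma lc'.pos _) (D'.lt N C₀)
    simpa only [Fy.cut, cc] using this
  rw [prod_image E.hu.injOn, prod_congr rfl fun ω x => (hw ω (a1.1 x) (a2 ω x)).1,
    em_lt E fun ω x => ⟨a1.1 x, a2 ω x⟩]
  refine congrArg _ (jd_em (L := D'.lt N C₀) he (hb_cut (lc'.hb_KN M.geo) _) (fun s => ?_)
    (union_subset_union (sdiff_subset_sdiff hT Subset.rfl) Subset.rfl))
  have c3 : cutS (D.ad (N.image u)) (exz e (cutS (D'.lt N C₀) s)) = exz e (cutS (D'.lt N C₀) s) := by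
    rw [exz_cutS he, cut_comm, cut_cut a4]
  have c4 : cutS D.B (exz e (cutS (D'.lt N C₀) s)) = exz e (cutS (D'.lt N C₀) (cutS D'.B s)) := by
    refine exz_ext (e := e) (fun x => ?_) fun y a => by simp [cutS, exz_no a]
    by_cases y : x ∈ D'.lt N C₀
    · rcases mem_union.1 y with z | z
      · have := (mem_sdiff.1 z).1
        simp [cutS, exz_apply he, y, E.sub this, E.cB x this]
      · obtain ⟨ω, z1, z2⟩ := mem_biUnion.1 z
        simp [cutS, exz_apply he, disjoint_left.1 (M.geo.out ω (a1.1 z1)) z2, disjoint_left.1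
          (g.out _ (o ω z1).1) ((o ω z1).2.2.1 ▸ mem_image_of_mem e z2)]
    · simp [cutS, exz_apply he, y]
  simp only [KN, gA, cc, c3]
  refine (gam_set' E.hu rfl a3 a1.1 (fun ω x => ⟨(M.geo.sub ω (a1.1 x)).1, (M.geo.sub ω (a1.1 x)).2.2,
    (o ω x).2.2.2.1, (o ω x).2.2.2.2, ?_⟩) (fun _ _ => by rw [(fN s).2.1]) fun x _ => ?_).symm
  · have z := (fN 0).2.2
    rw [cut_zero, exz_zero] at z
    rw [eta, eta, (o ω x).2.2.1, Jet.tr, Jet.tr, ma_img he, sum_image he.injOn, z,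
      ma_congr fun T hT => jd_em he hE (fun s => (fN s).2.2) (hT.trans (lA ω x)),
      sum_congr rfl fun y z => by rw [exz_apply he, (hw ω (a1.1 x) (a2 ω x)).2 y z]]
  · rw [c4, ← en, ← en, cut_comm D'.B]

/-- translation covariance of the merged family -/
theorem Ok.mg_tr {D₁ : Wd St ι Ω} {Y₁ : Fy ι} {Zc₁ : ι → Finset St} (h : G.Ok) (hk : k ≤ i)
    (e : Y.Tq (G.N i) ((G.rt i k : ℤ) • v) Y₁) (hB : D.B = D₁.B) (hO : D.Om = D₁.Om)
    (hA : D.A = D₁.A) (hc : D.cl = D₁.cl) (hZ : ∀ ω ∈ D₁.Om, D.Z0 ω = trS (G.N k) v (D₁.Z0 ω) ∧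
      D.X0 ω = trS (G.N k) v (D₁.X0 ω) ∧ D₁.Z0 ω ⊆ D₁.X0 ω ∧ D₁.X0 ω ⊆ box (G.N k / 2)) :
    (G.mg D b J Y i k a w Zc).Tq (G.N k) v (G.mg D₁ b J Y₁ i k a w Zc₁) := by
  obtain ⟨B, Om, A, cl, Z0, X0⟩ := D
  obtain ⟨B₁, Om₁, A₁, cl₁, Z1, X1⟩ := D₁
  cases hB
  cases hO
  cases hA
  cases hc
  have n := h.N_odd k
  have t := h.fw_tr (A := Wd.al ⟨B, Om, A, cl, Z1, X1⟩) (b := b) (J := J) hk e
  refine fun s => ⟨(t _).1, fun o ho => funext fun U => ?_, (t _).2.2⟩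
  obtain ⟨h1, -, h2⟩ := mem_lps.1 ho
  refine (congrFun (trK_eq _ _ _) s).trans (.trans ?_ (congrFun (trK_eq _ _ _) s).symm)
  refine congrArg (tr B · s) (funext fun s => ?_)
  simp only [K2, Pi.add_apply, Finset.sum_apply, Pi.smul_apply, pA]
  refine congrArg₂ _ (congrFun ((t _).2.1 o ho) U) (sum_congr rfl fun N hN => congrArg _
    (congrArg (Mg.pS _ · s) (funext fun s => ?_)))
  have hN := mem_powerset.1 (mem_filter.1 hN).1
  refine gam_set injective_id image_id.symm hN hN (In.sh_inj n v) Subset.rfl h1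
    (fun C hC => ((mem_fams.1 h2).1 C hC).trans h1)
    (img_eq (fun _ a => Sh.trP_mem n a v) (Sh.trP_inj n v)) (fun ω x => ⟨(hZ ω (hN x)).2.2.1,
      (hZ ω (hN x)).2.2.2, (hZ ω (hN x)).1, (hZ ω (hN x)).2.1, ?_⟩)
    (fun o ho => congrFun ((t _).2.1 o ho) U) fun x _ => ?_
  · simp only [eta, ← funext fun s => (t s).2.2]
    rfl
  · have p := (Mx.per_pc (G.N k) U).sh (-v)
    rw [pc_eq p, Sh.Ix_tp _ _ p, sh_sh, add_neg_cancel, sh_zero]
    simp only [ent, ← funext fun s => (t s).1]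
    congr 1
    ext y B
    simp only [trL, Pi.sub_apply, ma_apply]
    rfl

end Gl

end Pool.Agent.Lib.MP_7f377f_mp.RG.Q4.En
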