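import Pool.Agent.Lib.MP_7f377f_mp.G.NsA1

/-! Nested merging: the flow of the cells of the first level. -/

noncomputable section

open Pool.Agent.Lib.MP_7f377f_mp.Jet

set_option linter.unusedSectionVars false
variable [Pool.Agent.Lib.MP_7f377f_mp.GD]

namespace Pool.Agent.Lib.MP_7f377f_mp.RG.Q4.En

open Finset Function Sg Real Pos Mg
open scoped Classical

attribute [local irreducible] box lbox tb tau rc Gl.zs Gl.fw Gl.tn Gl.tt Gl.zz Gl.xf Gl.cIn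
  Gl.ins

variable {ι Ω κ β : Type} [DecidableEq ι] [DecidableEq Ω] [Fintype κ] [DecidableEq κ]
  [Inhabited κ] [Fintype β] [DecidableEq β]

namespace Gl

variable {G : Gl} {b C σ Wt θ : ℝ} {J i k₁ k l j c : ℕ} {m : ℕ → ℕ} {r : ℕ → ι → ℝ}

theorem Fd.cut {A A' : Finset ι} {z : En.Z} {r0 r : ι → ℝ} {Y : Fy ι} {f : (ι → ℂ) → Conf → ℂ}
    (F : G.Fd k z A' r0 r θ Y f) (e : A ⊆ A') :
    G.Fd k z A r0 r θ (Y.cut A) fun s => f (cutS A s) := by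
  have u : ∀ {g : (ι → ℂ) → Conf → ℂ}, HD r0 g → HD r0 fun s => g (cutS A s) := fun a =>
    ⟨a.1.imp fun _ a U => sh_cut (a U) A, fun s hs => a.2 _ (cut_mem hs)⟩
  refine ⟨⟨F.fi.pos, funext fun s => (congrFun F.fi.psi _).trans ((ma_cut _ e).trans
    (congrFun (ma_congr fun _ hT => (jL_cut hT).symm) s)), funext fun s =>
    (congrFun F.fi.act _).trans ((ma_cut _ e).trans
      (congrFun (ma_congr fun _ hT => (jA_cut hT).symm) s)),
    fun T hT => (jL_cut hT).symm ▸ F.fi.pu T (hT.trans e),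
    ⟨fun i x hx => ind_cut' (g := (Y.ψ · x)) (F.fi.loc.psi i x hx),
      fun i X c hX => ind_cut' (g := (Y.K · X c)) (F.fi.loc.act i X c hX)⟩,
    F.fi.km.imp fun _ a => ⟨a.1, fun s hs => a.2 _ (cut_mem hs)⟩⟩, funext fun s =>
    (congrFun F.ma _).trans ((ma_cut _ e).trans
      (congrFun (ma_congr fun _ hT => (jd_cut hT).symm) s)), u F.eq.fst, u F.eq.snd,
    fun U hU T hT => (jd_cut (g := (f · U)) hT).trans ((F.eq.eq U hU T (hT.trans e)).trans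
      (jd_cut hT).symm)⟩

/-- reality of the merged family -/
theorem Mh.mg_rl {D : Wd St ι Ω} {Y : Fy ι} {a : ι → ℂ} {w : Ω → ℂ} {r0 : ι → ℝ}
    {f : (ι → ℂ) → Conf → ℂ} {W Zc : ι → Finset St} (M : G.Mh D b J Y i k a c C r0 r m f W Zc)
    (h : G.Ok) (t : G.Tu b J) (hp : G.Pu) (e : ∀ N, D.Tr N → (Y.cut (D.ad N)).Rl (G.p i) (r i))
    (hw : ∀ ω ∈ D.Om, (w ω).im = 0 ∧ ∀ x ∈ D.A ω, (a x).im = 0) (r' : ι → ℝ) :
    (G.mg D b J Y i k a w Zc).Rl (G.p k) r' := fun s _ hs => by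
  have L := M.lc h t hp
  have R := fun N hN => M.rl h t hp (N := N) hN (e N hN) k M.lt.le le_rfl
  have R0 := R ∅ tr_empty
  rw [ad_empty] at R0
  have R1 := R0 (fun x => ‖s x‖ + 1) s (fun x => lt_add_one _) hs
  refine ⟨R1.1, fun X c U => ?_, R1.2.2⟩
  simp only [mg, trK, ma, Finset.sum_apply, Pi.smul_apply, smul_eq_mul]
  refine Im.sum fun T hT => Im.mul (Im.prod fun x _ => hs x) ?_
  have hT := mem_powerset.1 hT
  rw [← jA_trK hT, L.jA_K2 M.geo hT, ← jA_cut hT]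
  refine Im.add (jd_real (hb_cut (L.eK X c U) _).choose_spec (fun s a b => (R0 _ s a b).2.1 X c U) _)
    (Im.sum fun N hN => ?_)
  have hN : D.Tr N := ⟨mem_powerset.1 (mem_filter.1 hN).1, (mem_filter.1 hN).2.2⟩
  have R := R N hN (r (k + 1))
  split_ifs
  swap
  · rfl
  refine Im.mul (Im.prod fun ω a => (hw ω (hN.1 a)).1)
    (jd_real (L.hb_KN M.geo).choose_spec (fun s hs b => Im.sum fun O hO => ?_) _)
  have c : ∀ B x, (cutS B s x).im = 0 := fun B x => by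
    unfold cutS; split_ifs; exacts [b x, rfl]
  rw [gA, gam, (mem_filter.1 hO).2]
  refine Im.mul (Im.mul ?_ (Im.prod fun ω hω => Im.exp (Im.sub (Im.sub ?_ ?_)
    (Im.sum fun x hx => Im.mul (c _ x) ((hw ω (hN.1 hω)).2 x hx))))) (Im.prod fun x _ => ?_)
  · split_ifs
    exacts [Im.prod fun o _ => (R s hs b).2.1 _ _ _, rfl]
  · rw [Mh.tr_E (M.low h t hp hN).1 (a_sub hω), cut_comm]
    exact (R _ (cut_mem hs) (c _)).2.2
  · simpa only [Fy.cut, cut_zero] using (R 0 (zero_mem (M.pos h t hp)) fun _ => rfl).2.2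
  · rw [cut_comm D.B, M.ent_cut h t hp hN, M.ent_cut h t hp hN]
    by_cases h1 : Fq ((G.p k).R + 1) (G.p k).ε (sh x (pc (G.N k) U))
    · have v := h1.cv' (h.sl_all k (G.top0 0 0)).nu.p_ok.1
      rw [Ix_pos h1]
      exact Im.exp (Im.neg (Im.sub ((R s hs b).1 x _ (Bx_real x _) v)
        ((R _ (cut_mem hs) (c _)).1 x _ (Bx_real x _) v)))
    · rw [Ix_neg h1]; rfl

variable [Fintype ι] {S : Ws ι Ω κ} {w : Ω → ℂ} {X : β → Finset St} {v : β → ℝ} {ps : Ω → β}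
  {A A' : Finset ι} {q : ι}

theorem res_res (e : A ⊆ A') : (S.res A').res A = S.res A := by
  simp only [Ws.res, filter_filter]
  congr 1
  · exact filter_congr fun _ _ => and_iff_right_of_imp fun a => e a
  · exact funext fun q => ite_congr rfl (fun a => if_pos (e a)) fun _ => rfl
  · exact funext fun q => ite_congr rfl (fun a => if_pos (e a)) fun _ => rfl

theorem u1_res (hq : q ∈ A) : G.u1 b J k₁ (S.res A) w q = G.u1 b J k₁ S w q := by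
  simp only [u1, Ws.res, if_pos hq, filter_filter]
  rw [filter_congr fun _ _ => and_iff_right_of_imp fun a => by rwa [a]]
  rfl

theorem X_res (n : ℕ) : (S.res A).X n w q = if q ∈ A then S.X n w q else 0 := by
  funext U
  split_ifs with hq
  · simp only [Ws.X, Ws.res, if_pos hq, filter_filter]
    rw [filter_congr fun _ _ => and_iff_right_of_imp fun a => by rwa [a]]
    rfl
  · simp only [Ws.X, Ws.res, if_neg hq, filter_filter]
    rw [filter_false_of_mem fun ω _ (a : S.cl ω ∈ A ∧ S.cl ω = q) => hq (a.2 ▸ a.1)]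
    simp [sO]

theorem gi_pl (n : ℕ) (F : Sr) : GI n (xO n (F, 0, 0)) :=
  xO_pl n F ▸ Br.gi_cont (Br.cont_sO F) (Br.sO_gauge F)

theorem gi_X (n : ℕ) (q : ι) : GI n (S.X n w q) :=
  S.x_Y n w ▸ gi_Y (S := S.x) (fun ω _ l => gi_pl n (S.F ω l)) (fun q => gi_pl n (S.P q)) w q

theorem fu_Z (hj : j ≤ k₁) (hJ : k₁ ≤ J) : (G.fu b J k₁ j S w).Z = fun q => G.zs (S.W q) J j :=
  (fw_Z j hj).trans (funext fun _ => zs_zs hJ hj)

theorem Mw.un {ρ : ι → ℝ} (M : G.Mw b J k₁ S c C σ ρ) : G.Un J k₁ S :=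
  ⟨M.lt, fun ω a => ⟨(M.wd ω a).1, (M.wd ω a).2.1, (M.wd ω a).2.2.2.1, fun i => (M.lt' ω a i).2.1⟩,
    M.lF, M.lP⟩

theorem Un.geo (M : G.Un J k₁ S) (h : G.Ok) : S.x.wd.Ok (box (G.N k₁ / 2)) :=
  ⟨fun ω a => ⟨(M.wd ω a).2.1, (M.wd ω a).1, (M.wd ω a).2.2.1.trans (by
      rw [zs_step M.lt (G.top0 0 0)]
      exact tb_dom (h.N_odd k₁))⟩, fun _ _ => by simp [Wx.wd, disjoint_left],
    fun _ _ _ _ e => by simp [Wx.wd, disjoint_left, e.symm], fun _ _ => Wx.mem_B.2 ⟨_, rfl⟩⟩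

theorem Un.xl (M : G.Un J k₁ S) (h : G.Ok) : Loc (G.N J) (G.xt S.x.wd.al S.x.src S.x.sup b J).Z
    (G.xt S.x.wd.al S.x.src S.x.sup b J).ψ (G.xt S.x.wd.al S.x.src S.x.sup b J).K :=
  xt_loc h (Sum.rec (fun x y e => ⟨M.lF x.1 x.2 y e, rfl, rfl⟩) fun q y e => ⟨M.lP q y e, rfl, rfl⟩)

theorem Un.lc (M : G.Un J k₁ S) (h : G.Ok) : Lc (G.N k₁) S.x.wd
    (ent S.x.wd.al (G.fw S.x.wd.al b J (G.xt S.x.wd.al S.x.src S.x.sup b J) J k₁).ψ)
    (G.fw S.x.wd.al b J (G.xt S.x.wd.al S.x.src S.x.sup b J) J k₁).K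
    (eta S.x.wd (G.fw S.x.wd.al b J (G.xt S.x.wd.al S.x.src S.x.sup b J) J k₁).E S.x.cen)
    (fun _ => 1) (G.fw S.x.wd.al b J (G.xt S.x.wd.al S.x.src S.x.sup b J) J k₁).Z
    fun x => G.zs (S.x.sup x) J k₁ :=
  h.lc_of M.lt (M.xl h) (fun ω a x hx => by
    obtain ⟨l, rfl⟩ := Wx.mem_A.1 hx
    exact (M.wd ω a).2.2.2 l) fun _ _ => Subset.rfl

theorem Un.loc (M : G.Un J k₁ S) (h : G.Ok) (hj : j ≤ k₁) :
    Loc (G.N j) (G.fu b J k₁ j S w).Z (G.fu b J k₁ j S w).ψ (G.fu b J k₁ j S w).K := by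
  have a := fw_loc (A := S.x.wd.al) (b := b) (J := J) h (M.xl (b := b) h) k₁ M.lt.le
  have a' := (M.lc (b := b) h).loc2 (M.geo h) (p := G.p k₁) (w := w) fun ω a => (M.wd ω a).2.2.1
  rw [fw_Z _ M.lt.le] at a
  refine fw_loc h ⟨fun q x hx s t => ?_, fun q X c hX s t => ?_⟩ j hj
  · simpa only [fam, Fy.pull, mg, exz_upd Sum.inr_injective] using
      ind_cut' (B := S.x.wd.B) (a.psi (.inr q) x hx) (exz .inr s) t
  · simpa only [fam, Fy.pull, mg, exz_upd Sum.inr_injective] using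
      a'.act (.inr q) X c hX (exz .inr s) t

namespace M1

variable (M : G.M1 b J k₁ l S w c C σ m X v ps r) (g : G.Gp k₁ l κ c C σ Wt m X v) (h : G.Ok)
  (t : G.Tu b J) (hp : G.Pu)
include M g

theorem hw (y : St) : ∑ ω ∈ S.Om.filter (y ∈ S.X0 ·), ‖w ω‖ * r k₁ (S.cl ω) ≤ Wt := by
  rw [← sum_fiberwise_of_maps_to (s := S.Om.filter (y ∈ S.X0 ·)) (t := univ.filter (y ∈ X ·))
    (g := ps) fun ω a => mem_filter.2 ⟨mem_univ _, M.x0 ω (mem_filter.1 a).1 ▸ (mem_filter.1 a).2⟩]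
  exact (sum_le_sum fun x _ => (sum_le_sum_of_subset_of_nonneg (filter_subset_filter _
    (filter_subset _ _)) fun ω _ _ => mul_nonneg (norm_nonneg _) (M.mw.pos.2 _).le).trans
      (M.hv x)).trans (g.hW y)

include h t hp

/-- the family at the level of the merging -/
theorem top : G.Fd k₁ (G.zz b J k₁) univ (r k₁) (r k₁) (G.Q k₁ ^ 329)⁻¹ (G.fam b J k₁ S w)
      (fun s => G.tt (pr b (G.N J) (S.X (G.N J) w) s) J k₁) ∧
      (G.fam b J k₁ S w).bs = (G.zz b J k₁).d ∧ (G.fam b J k₁ S w).Ec univ id ∧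
      ∀ q, (G.fam b J k₁ S w).jt {q} = G.u1 b J k₁ S w q := by
  have M' := M.mw.mx h
  obtain ⟨_, H⟩ := M'.mh h t
  have σ0 := pow_pos M.mw.pos.1 (Fintype.card κ)
  have md := md_x (G := G) (b := b) (J := J) (S := S.x) (fun ω _ l => gi_pl _ (S.F ω l))
    (fun q => gi_pl _ (S.P q)) w (M'.pos k₁.lt_succ_self M'.lt)
  obtain ⟨F, a1, a2, a3⟩ := H.merge h t hp (fun _ => le_rfl) md (Wt := Wt / σ ^ Fintype.card κ)
    (fun y => by
      simp only [Mx.prod_A, ← sum_div]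
      exact div_le_div_of_nonneg_right (M.hw g y) σ0.le) (by
      rw [← mul_div_assoc, ← mul_div_assoc, div_le_one σ0]
      exact g.sm)
  have e := fun q : ι => (Wx.mem_B (S := S.x)).2 ⟨q, rfl⟩
  obtain ⟨F', a4⟩ := F.pull Sum.inr_injective e
  refine ⟨by simpa only [comp_def, exz_apply Sum.inr_injective, Sum.elim_inr, S.x_Y, fam] using F', ?_,
    a4 a2, fun q => ?_⟩
  · simpa only [fam, Fy.bs, Fy.pull, exz_zero] using a1
  · rw [fam, pull_jt Sum.inr_injective, a3 _ (e q), xt_jt (B := S.x.wd.al) (mem_union_right _ (e q)), u1,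
      ← tv_pl, ← x_wX]
    refine congrArg₂ (· + ·) rfl (Prod.ext rfl (sum_congr
      (filter_congr fun _ _ => Sum.inr_injective.eq_iff) fun ω a => ?_))
    rw [M'.ins_eq h t hp H (mem_filter.1 a).1]

/-- the flow -/
theorem flow : ∃ r0, ∀ j ≤ k₁, l ≤ j → G.Fd j (G.zz b J j) univ r0 (r j) (G.Q j ^ 329)⁻¹
      (G.fu b J k₁ j S w) (fun s => G.tt (pr b (G.N J) (S.X (G.N J) w) s) J j) ∧
      (G.fu b J k₁ j S w).bs = (G.zz b J j).d ∧
      (∀ q, (G.fu b J k₁ j S w).jt {q} = G.tn b J (G.u1 b J k₁ S w q) k₁ j) ∧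
      (G.fu b J k₁ j S w).Ec univ id ∧ ∀ s ∈ Pd (r j), G.Sz j (G.bb j / G.Q j ^ 222)
        (G.bb j / G.Q j ^ 222) (G.Q j ^ 100)⁻¹ ((G.fu b J k₁ j S w).ψ s) ((G.fu b J k₁ j S w).K s) := by
  obtain ⟨a1, a2, a3, a5⟩ := M.top g h t hp
  have kJ := M.mw.lt.le
  have ne := nonempty_Icc.2 g.lt.le
  have e : ∀ j, l ≤ j → j ≤ k₁ → ∀ q, (Icc l k₁).inf' ne (r · q) ≤ r j q :=
    fun j a a' q => inf'_le _ (mem_Icc.2 ⟨a, a'⟩)
  have p : ∀ q, 0 < (Icc l k₁).inf' ne (r · q) := fun q => (lt_inf'_iff _).2 fun j hj =>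
    ((M.rad j (mem_Icc.1 hj).1 (mem_Icc.1 hj).2).2 q).1
  have e' := e k₁ g.lt.le le_rfl
  refine ⟨fun q => (Icc l k₁).inf' ne (r · q), fun j hj hl => ?_⟩
  obtain ⟨c1, c2, c3, c4⟩ := h.chainG t hp kJ (l := l) (r := r) (m := m)
    ⟨fun j a a' q _ => a5 q ▸ M.sz j a a' q, fun j a a' => by
      have := (M.rad j a a').1
      simp only [← zs_zs kJ a'] at this
      exact this, fun j a a' => ⟨(g.mm j a a').1,
      (g.mm j a a').2, fun q => ⟨e j a a' q, ((M.rad j a a').2 q).2⟩⟩⟩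
    ⟨a1.fi, a1.ma, hd_less a1.eq.fst p e', hd_less a1.eq.snd p e', a1.eq.eq⟩ a2 a3 j hj hl
  simp only [show ∀ f, G.tt (G.tt f J k₁) k₁ j = G.tt f J j from fun f => by
    unfold tt; exact dw_dw _ _ kJ j hj] at c1
  exact ⟨c1, c2, fun q => a5 q ▸ c3 q (mem_univ q), c4⟩

theorem sml (hj : j < k₁) (hl : l ≤ j + 1) : ∃ β' θ k0 k', (∀ s ∈ Pd (r (j + 1)),
    (G.sd j (G.zz b J (j + 1))).Sml β' θ k0 ((G.fu b J k₁ (j + 1) S w).ψ s)
      ((G.fu b J k₁ (j + 1) S w).K s)) ∧ FA (r (j + 1)) (G.p j) (G.N j) k' fun s =>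
      (G.sd j (G.zz b J (j + 1))).KK ((G.fu b J k₁ (j + 1) S w).ψ s)
        ((G.fu b J k₁ (j + 1) S w).K s) := by
  obtain ⟨_, e⟩ := M.flow g h t hp
  obtain ⟨F, -, -, -, S⟩ := e (j + 1) hj hl
  have B := h.bl_big j (G.zz b J (j + 1))
  have st := h.st2 (t.gd _ (hj.trans M.mw.lt)).tz
  have q := h.Q0 j
  obtain ⟨k0, k1, k2⟩ := (h.fi_sd F.fi (G.zz b J (j + 1))).km
  have k3 := k1.mono (h.th_big j (G.zz b J (j + 1))).1
  obtain ⟨k', -, a2⟩ := st.K _ _ k0 B.b_le B.θ_le (by positivity) k3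
  have u := fun s hs => show (G.sd j (G.zz b J (j + 1))).Sml _ _ k0 _ _ from
    ⟨B.b_le, B.θ_le, h.pu_big (h.pu_fam (S s hs)), k2 s hs, k3⟩
  exact ⟨_, _, k0, k', u, fa_KK st F.fi.pos (F.fi.sl _) (F.fi.sa _) u a2⟩

/-- reality -/
theorem rl (hF : ∀ ω ∈ S.Om, (w ω).im = 0 ∧ ∀ i, (S.a ω i).im = 0 ∧ ∀ x μ ν, (S.F ω i x μ ν).im = 0)
    (hP : ∀ q x μ ν, (S.P q x μ ν).im = 0) :
    ∀ j ≤ k₁, l ≤ j → ∀ r', (G.fu b J k₁ j S w).Rl (G.p j) r' := by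
  obtain ⟨_, e⟩ := M.flow g h t hp
  refine dw_ind (fun _ r' s _ hs => ?_) fun j hj ih hk => ?_
  · obtain ⟨_, H⟩ := (M.mw.mx h).mh h t
    rw [fu, fw_top]
    refine H.mg_rl h t hp (fun N hN => ?_) (fun ω a => ⟨(hF ω a).1, fun x hx => ?_⟩)
      (fun x => ‖exz Sum.inr s x‖ + 1) _ (fun x => lt_add_one _) fun x => ?_
    · rw [xt_cut (ad_sub hN.1)]
      refine xt_rl (fun i hi => ?_) _
      rcases Wx.mem_ad.1 hi with ⟨ω, a, l, rfl⟩ | ⟨q, -, rfl⟩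
      exacts [⟨((hF ω (hN.1 a)).2 l).2, fun _ _ => rfl, fun _ _ _ _ => rfl⟩,
        ⟨hP q, fun _ _ => rfl, fun _ _ _ _ => rfl⟩]
    · obtain ⟨l, rfl⟩ := Wx.mem_A.1 hx
      exact ((hF ω a).2 l).1
    · rcases x with x | x
      exacts [by simp [exz], by rw [exz_apply Sum.inr_injective, hs x]]
  obtain ⟨_, _, _, _, S, F⟩ := M.sml g h t hp hj (by omega)
  have kJ := hj.trans M.mw.lt
  have ad := h.ad t kJ (h.pu_all t hp j kJ)
  have u := fun s hs a => (h.st2 ad.tz).real _ _ _ _ _ (S s hs) (ih (by omega) _ s hs a).1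
    (ih (by omega) _ s hs a).2.1
  refine (e j hj.le hk).1.rl F.pos fun s hs a => ?_
  rw [fu, fw_step hj]
  exact ⟨fun x B h1 h2 => Im.add ((u s hs a).1 x B h1 h2)
    ((h.src_ps ad.tz ad.lt ad.v ad.kp).2.1 x B h1 h2), fun X c U =>
    (congrArg _ (congrFun (trK_eq X c U) s)).trans
      (tr_real (F.sh X c U) (fun s hs a => (u s hs a).2.1 X c U) a),
    Im.add (ih (by omega) _ s hs a).2.2 (Im.sum fun y _ => (u s hs a).2.2 y)⟩

end M1

end Gl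

end Pool.Agent.Lib.MP_7f377f_mp.RG.Q4.En
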