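import Pool.Agent.Lib.MP_7f377f_mp.G.NsA2

/-! Nested merging: one majorant for all the systems of the first level. -/

noncomputable section

open Pool.Agent.Lib.MP_7f377f_mp.Jet

set_option linter.unusedSectionVars false
variable [Pool.Agent.Lib.MP_7f377f_mp.GD]

namespace Pool.Agent.Lib.MP_7f377f_mp.RG.Q4.En

open Finset Function Sg Real Pos Mg
open scoped Classical

attribute [local irreducible] box lbox tb tau rc

namespace Mg

variable {ι Ω β α : Type} [DecidableEq ι] [DecidableEq Ω] [DecidableEq α] [Fintype β] [DecidableEq β]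
  {p : Pa} {n m q : ℕ} {δ δ' θ C ρ d : ℝ} {k : Mj} {r r' : ι → ℝ} {ψ : (ι → ℂ) → Lx}
  {K K' : (ι → ℂ) → Ac} {A : Finset ι} {Z : ι → Finset St} {cl : ι → α} {D : Wd St ι Ω}

/-- a majorant which pays for the truncation -/
def bm (p : Pa) (n : ℕ) (δ C : ℝ) (k : Mj) : Mj := fun X c => C * exp (δ * tau n p.D X) * k X c

theorem kN_bm (h : kN (p.ad (δ' + δ)) n k θ) (C0 : 0 ≤ C) : kN (p.ad δ') n (bm p n δ C k) (C * θ) :=
  kN_ad (p := p.ad δ') (by rwa [ad_ad]) (fun _ _ => by positivity) (fun _ _ => le_rfl) C0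

theorem km_bm (fa : FA r p n k K') (l : Loc n Z ψ K) (e : ∀ T ⊆ A, jA T K' = jA T K)
    (k0 : ∀ X c, 0 ≤ k X c) (hD : 1 ≤ p.D) (h : Cls n d A cl Z) (hm : (m + 2 : ℝ) * p.D ≤ d)
    (hk : ∀ c, (A.filter (cl · = c)).card ≤ q) (ρ0 : 0 ≤ ρ) (hρ : q * log (1 + ρ) ≤ δ * m)
    (δ0 : 0 ≤ δ) (hr : ∀ i, 0 < r' i) (e' : ∀ i, r' i ≤ ρ * r i) :
    ∀ s ∈ Pd r', KM p n (bm p n δ ((1 + ρ) ^ q) k) (trK A K' s) := fun s hs => by
  refine ((fa.trK (D := fun X _ => tch A Z X) (fun X a T hT u => ?_) hr e').km s hs).mono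
    fun X a => mul_le_mul_of_nonneg_right (tch_pow' hD h hm hk (by linarith) hρ δ0 X) (k0 X a)
  obtain ⟨i, h1, h2⟩ := not_subset.1 u
  rw [e T hT]
  exact funext fun U => l.jdA h1 (by_contra fun a => h2 (mem_tch.2 ⟨hT h1, a⟩)) a U

theorem one_card (a : ι) : (A.filter (id · = a)).card ≤ 1 :=
  card_le_one.2 fun _ ha _ hb => (mem_filter.1 ha).2.trans (mem_filter.1 hb).2.symm

/-- one word at each position -/
def wdP (X : β → Finset St) : Wd St β β := ⟨univ, univ, fun _ => ∅, id, X, X⟩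

theorem kc_eq {N : Finset Ω} (h : N ⊆ D.Om) (v : Ω → ℝ) (X : Finset St) (c : Finset (Finset St)) :
    kc n D k v N X c = ∑ O ∈ clus D.sp ((lps (box (n / 2))).disjSum N) X,
      if lb O = c ∧ O.toRight = N then pw k v O else 0 := by
  rw [← sum_filter]
  refine sum_congr (Finset.ext fun O => ?_) fun _ _ => rfl
  simp only [cs, mem_filter, mem_clus, Wd.obs, subset_disjSum, and_assoc]
  exact and_congr_right' ⟨fun a => ⟨a.2.2.2.2.le, a.2⟩, fun a => ⟨a.1.trans h, a.2⟩⟩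

theorem kc_pos {ps : Ω → β} {Xp : β → Finset St} {N : Finset Ω} (h : N ⊆ D.Om)
    (i : Set.InjOn ps N) (e : ∀ ω ∈ D.Om, D.X0 ω = Xp (ps ω)) (X : Finset St)
    (c : Finset (Finset St)) : kc n D k 1 N X c = kc n (wdP Xp) k 1 (N.image ps) X c := by
  rw [kc_eq h, kc_eq (subset_univ _)]
  conv_rhs => rw [← image_id (s := lps _), Sh.sum_image', ← image_id (s := X)]
  refine ((sum_clus_image (sp := D.sp) (Λ := X ∪ ((lps (box (n / 2))).disjSum N).biUnion D.sp) ?_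
    (Set.injOn_id _) (fun o a => (subset_biUnion_of_mem _ a).trans subset_union_right)
    subset_union_left ?_ _).trans (sum_congr rfl fun O hO => ?_)).symm
  · rintro (a | a) ha (b | b) hb e
    · exact congrArg _ (Sum.inl.inj e)
    · cases e
    · cases e
    · exact congrArg _ (i (inr_mem_disjSum.1 ha) (inr_mem_disjSum.1 hb) (Sum.inr.inj e))
  · rintro (a | a) ha
    exacts [image_id.symm, (e a (h (inr_mem_disjSum.1 ha))).symm.trans image_id.symm]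
  simp only [lb, pw, Sh.left_image, Sh.right_image, image_id, Pi.one_apply, prod_const_one,
    image_eq_image_iff_of_injOn i (subset_disjSum.1 (mem_clus.1 hO).1).2 Subset.rfl]

/-- the clusters are dominated by the clusters of the positions -/
theorem kc_dom {ps : Ω → β} {Xp : β → Finset St} {v : Ω → ℝ} {v' : β → ℝ} (k0 : ∀ X c, 0 ≤ k X c)
    (v0 : ∀ ω, 0 ≤ v ω) (i : ∀ N ∈ D.tv, Set.InjOn ps N) (e : ∀ ω ∈ D.Om, D.X0 ω = Xp (ps ω))
    (hv : ∀ x, ∑ ω ∈ D.Om.filter (ps · = x), v ω ≤ v' x) (X : Finset St) (c : Finset (Finset St)) :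
    ∑ N ∈ D.tv, kc n D k v N X c ≤ ∑ O ∈ cs (wdP Xp) (box (n / 2)) X c, pw k v' O := by
  have s0 := fun x => sum_nonneg (s := D.Om.filter (ps · = x)) fun ω _ => v0 ω
  have u : ∀ {ι Ω : Type} [DecidableEq ι] [DecidableEq Ω] {D : Wd St ι Ω} (v : Ω → ℝ) N,
      kc n D k v N X c = (∏ ω ∈ N, v ω) * kc n D k 1 N X c := fun v N => by simp [kc_mul]
  refine le_trans ?_ (kc_sum k0 (fun x => (s0 x).trans (hv x)) univ)
  rw [← sum_fiberwise_of_maps_to (g := image ps) fun _ _ => mem_univ _]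
  refine sum_le_sum fun B _ => ?_
  rw [u v', sum_congr rfl fun N a => by rw [u, kc_pos (mem_powerset.1 (mem_filter.1
    (mem_filter.1 a).1).1) (i N (mem_filter.1 a).1) e, (mem_filter.1 a).2], ← sum_mul]
  refine mul_le_mul_of_nonneg_right (le_trans ?_ (prod_le_prod (fun x _ => s0 x) fun x _ => hv x))
    (kc_nn k0 fun _ => zero_le_one)
  have a : ∏ x ∈ B, ∑ ω ∈ D.Om.filter (ps · = x), v ω = ∑ N ∈ D.Om.powerset,
      if Tv ps N B then (∏ ω ∈ N, v ω) * ∏ _ ∈ B \ N.image ps, 0 else 0 :=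
    Complex.ofReal_injective (by
      simpa [apply_ite ((↑) : ℝ → ℂ)] using prod_cells (cl := ps) D.Om 0 (fun ω => v ω) B)
  rw [a]
  refine le_trans (le_of_eq (sum_congr rfl fun N a => ?_)) (sum_le_sum_of_subset_of_nonneg
    ((filter_subset _ _).trans (filter_subset _ _)) fun N _ _ => ?_)
  · rw [if_pos ⟨i N (mem_filter.1 a).1, (mem_filter.1 a).2.le⟩, (mem_filter.1 a).2, sdiff_self]
    simp
  · split_ifs
    exacts [mul_nonneg (prod_nonneg fun _ _ => v0 _) (prod_nonneg fun _ _ => le_rfl), le_rfl]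

variable {η : Ω → (ι → ℂ) → Conf → ℂ} {w : Ω → ℂ} {b : ℝ} {M : Ω → ℝ}

theorem Hyp.ma (H : Hyp p n D ψ K η r k b 1 M Z) {k' : Mj} (k0 : ∀ X c, 0 ≤ k' X c)
    (e : ∀ N ⊆ D.Om, Set.InjOn D.cl N → ∀ s ∈ Pd r, KM p n k' (K (cutS (D.ad N) s))) :
    Hyp p n D ψ K η r k' b 1 M Z := ⟨H.ok, H.lam, H.geo, H.col, k0, H.b0, H.one, H.M0,
  fun N a a' => ⟨H.pos, (H.fa N a a').hol, e N a a'⟩, H.sl, H.pu, H.ob⟩

theorem Hyp.fa_K2'
    (H : Hyp p n D ψ K η r k b 1 M Z) (hr : ∀ i, 0 < r' i) (e : ∀ i, r' i ≤ r i) :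
    FA r' p n (k + fun X c => ∑ N ∈ D.tv, kc n D k (fun ω => ‖w ω‖ * r' (D.cl ω) * vw D r b M ω) N X c)
      (K2 p n D ψ K η w) := by
  have a := fun N (h : N ∈ D.tv) => fa_shrink (H.fa_pKN (mem_powerset.1 (mem_filter.1 h).1)
    (mem_filter.1 h).2.2) hr e
  have a0 := fa_shrink (H.fa ∅ (empty_subset _) (by simp)) hr e
  rw [ad_empty] at a0
  simp only [one_pow, one_mul] at a
  refine ⟨hr, (H.fa_K2 hr e).hol, fun s hs => ((a0.km s hs).add (km_sum fun N h =>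
    ((a N h).km s hs).smul _)).mono fun X c => add_le_add le_rfl (sum_le_sum fun N _ => ?_)⟩
  rw [← kc_mul, Pi.smul_apply, Pi.smul_apply, smul_eq_mul, mw, norm_prod]
  exact mul_le_mul_of_nonneg_right (prod_le_prod (fun _ _ => norm_nonneg _) fun ω _ =>
    norm_mul_le_of_le le_rfl (hs _).le) (kc_nn H.k0 H.vw_nn)

end Mg

variable {ι Ω κ β : Type} [Fintype ι] [DecidableEq ι] [DecidableEq Ω] [Fintype κ] [DecidableEq κ]
  [Inhabited κ] [Fintype β] [DecidableEq β]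

namespace Gl

variable {G : Gl} {b C σ Wt : ℝ} {J k₁ l c j : ℕ} {m : ℕ → ℕ} {X : β → Finset St} {v : β → ℝ}
  {k0 : Mj}

theorem Ok.stepU (h : G.Ok) (t : G.Tu b J) (hj : j < J)
    (k1 : kN (G.p (j + 1)) (G.N (j + 1)) k0 (G.Q (j + 1) ^ 329)⁻¹) :
    ∃ k' θ, kN ((G.p j).ad 1) (G.N j) k' θ ∧
      (∀ C, 0 ≤ C → C * θ ≤ 20 * C / G.Q j * (G.Q j ^ 329)⁻¹) ∧ ∀ {ι : Type} [DecidableEq ι]
        {r : ι → ℝ} {ψ : (ι → ℂ) → Lx} {K K' : (ι → ℂ) → Ac}, (∀ i, 0 < r i) → SL r ψ → SA r K →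
        (∀ s ∈ Pd r, G.Sz (j + 1) (G.bb (j + 1) / G.Q (j + 1) ^ 222) (G.bb (j + 1) / G.Q (j + 1) ^ 222)
          (G.Q (j + 1) ^ 100)⁻¹ (ψ s) (K' s)) →
        (∀ s ∈ Pd r, KM (G.p (j + 1)) (G.N (j + 1)) k0 (K s)) →
        FA r (G.p j) (G.N j) k' fun s => (G.sd j (G.zz b J (j + 1))).KK (ψ s) (K s) := by
  have B := h.bl_big j (G.zz b J (j + 1))
  have T := h.th_big j (G.zz b J (j + 1))
  have st := h.st2 (t.gd _ hj).tz
  have q := h.Q0 j
  rw [← h.sd_nf j (G.zz b J (j + 1))] at k1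
  obtain ⟨k', a1, a2⟩ := st.K _ _ k0 B.b_le B.θ_le (by positivity) (k1.mono T.1)
  exact ⟨k', _, a1, T.2, fun p h1 h2 S k2 => fa_KK st p h1 h2 (fun s hs => ⟨B.b_le, B.θ_le,
    h.pu_big (h.pu_fam (S s hs)), by rw [h.sd_nf]; exact k2 s hs, k1.mono T.1⟩) a2⟩

variable (G b J k₁ c C σ ι Ω κ) in
/-- a majorant at the level `j` for the letters of all the systems -/
def Uw (j : ℕ) (kk : Mj) : Prop := ∀ (S : Ws ι Ω κ) ρ, G.Mw b J k₁ S c C σ ρ → ∀ N, S.x.wd.Tr N →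
  ∀ s ∈ Pd (Sum.elim (fun _ => σ) ρ), KM (G.p j) (G.N j) kk
    ((G.fw S.x.wd.al b J (G.xt S.x.wd.al S.x.src S.x.sup b J) J j).K (cutS (S.x.wd.ad N) s))

theorem log2 (c : ℕ) : c * log (1 + 1) ≤ 1 / 2 * ((2 * c : ℕ) : ℝ) := by
  have := mul_le_mul_of_nonneg_left (log_le_sub_one_of_pos (show (0 : ℝ) < 1 + 1 by norm_num))
    c.cast_nonneg
  push_cast
  norm_num at this ⊢
  linarith

namespace Ok

variable (h : G.Ok) (t : G.Tu b J) (hp : G.Pu) (hJ : k₁ < J) (big : 400 * 2 ^ c ≤ G.Q k₁)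
include h t hJ big

theorem uw_top : ∃ kk, kN (G.p J) (G.N J) kk (G.Q J ^ 329)⁻¹ ∧ G.Uw ι Ω κ b C σ J k₁ c J kk := by
  have nu := (h.sl_all J (G.top b J)).nu
  have n := h.sl_nf J (G.top b J)
  have g0 := h.g0 J
  have k1 : kN ((G.p J).ad (0 + 1 / 2)) (G.N J) _ _ := kN_drop (δ := 1) (n ▸ kI_up nu) (by norm_num)
  have k2 := kN_bm k1 (C := (1 + 1) ^ c) (by positivity)
  rw [ad_zero] at k2
  refine ⟨_, k2.mono (le_trans ?_
    (h.top_le (c := c) (by linarith [h.Q_mono hJ.le, pow_pos (two_pos (α := ℝ)) c]))),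
    fun S ρ M N hN s hs => ?_⟩
  · rw [one_add_one_eq_two]
    exact mul_le_mul_of_nonneg_left (pow_le_pow_of_le_one g0.le (h.g1 J) (by norm_num))
      (by positivity)
  replace M := M.mx h
  obtain ⟨_, H⟩ := M.mh h t
  have hr := M.pos M.lt le_rfl
  have D0 := h.D_pos J
  have cB := M.clB (M.cel.2 J M.lt le_rfl)
  have cl := M.cls h hN M.lt le_rfl
  simp only [zs_top] at cB cl
  have u := fun s => ok_sum (s := s) (h.ρ0 J) cl (by positivity) (fun i _ => M.ins i)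
    (by linarith [h.b0 J]) zero_le_one fun i hi => (M.rx (ad_sub hN.1 hi)).1
  simp only [fw_top, xt]
  rw [← congrFun (trK_cut (ad_sub hN.1)) s]
  refine km_bm (m := 2 * c) (ρ := 1) (r := Sum.elim (fun _ => σ) ρ) ?_ (xK_lc (h.N_odd J) M.ins)
    (fun _ => jA_cut) k1.1 (h.ps0 J).D (cls_ce H.geo H.zW hN.1 cB) (by push_cast; nlinarith)
    (ce_card H.geo hN H.card H.c1) zero_le_one (log2 c) (by norm_num) hr
    (fun _ => (one_mul _).ge) s hs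
  simp only [sum_cut (ad_sub hN.1)]
  exact ⟨hr, fun s hs i X c U => (hb_xK hr X c U).choose_spec.hol s hs i, fun s hs =>
    n ▸ xK_km nu (M.dJ h) (h.b34 t.hb) (u s hs).pl (u s hs).lt (u s hs).bd⟩

include hp

omit hJ in
theorem uw_step (hk : k₁ ≤ j) (hj : j < J)
    (k1 : kN (G.p (j + 1)) (G.N (j + 1)) k0 (G.Q (j + 1) ^ 329)⁻¹)
    (k2 : G.Uw ι Ω κ b C σ J k₁ c (j + 1) k0) : ∃ kk,
    kN ((G.p j).ad (1 / 2)) (G.N j) kk ((G.Q j ^ 329)⁻¹ / 20) ∧ G.Uw ι Ω κ b C σ J k₁ c j kk := by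
  obtain ⟨k', θ, a1, a2, a3⟩ := h.stepU t hj k1
  have q := h.Q0 j
  refine ⟨_, (kN_bm (δ := 1 / 2) (C := (1 + 1) ^ c) (by rwa [add_halves]) (by positivity)).mono
    ((a2 _ (by positivity)).trans ?_), fun S ρ M N hN s hs => ?_⟩
  · rw [div_eq_inv_mul _ 20, one_add_one_eq_two]
    exact mul_le_mul_of_nonneg_right ((div_le_iff₀ q).2 (by linarith [h.Q_mono hk])) (by positivity)
  have M' := M.mx h
  obtain ⟨_, H⟩ := M'.mh h t
  have D0 := h.D_pos j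
  obtain ⟨F, -, -, -, Z⟩ := H.up h t hp hN hj (Nat.lt_succ_of_le hk)
  have l := fw_loc (A := S.x.wd.al) (b := b) (J := J) h H.loc (j + 1) hj
  rw [← h.sd_nf j (G.zz b J (j + 1))] at l
  simp only [fw_step hj, fs]
  rw [← congrFun (trK_cut (ad_sub hN.1)) s]
  exact km_bm (m := 2 * c) (ρ := 1) (a3 F.fi.pos (F.fi.sl _) (F.fi.sa _) Z (k2 S ρ M N hN))
    (l.step (h.sd_all j _).nu) (fun _ a => jA_cut (K := fun s => Sd.KK _ _ _) a) a1.1 (h.ps0 j).D (cls_ce H.geo (fun x hx => by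
      rw [fw_Z _ hj, ← zs_step hj]
      exact zs_mono (H.zW x hx) j hj.le) hN.1 (M'.clB (M.cel j hk hj.le))) (by push_cast; nlinarith)
    (ce_card H.geo hN H.card H.c1) zero_le_one (log2 c) (by norm_num) F.fi.pos
    (fun _ => (one_mul _).ge) s hs

theorem uw_all : ∃ kk, kN ((G.p k₁).ad (1 / 2)) (G.N k₁) kk ((G.Q k₁ ^ 329)⁻¹ / 20) ∧
    G.Uw ι Ω κ b C σ J k₁ c k₁ kk := by
  obtain ⟨k0, k1, k2⟩ := dw_ind (P := fun j => k₁ ≤ j → ∃ kk, kN (G.p j) (G.N j) kk (G.Q j ^ 329)⁻¹ ∧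
    G.Uw ι Ω κ b C σ J k₁ c j kk) (fun _ => h.uw_top t hJ big) (fun j hj ih hk =>
      let ⟨_, k1, k2⟩ := ih (by omega)
      (h.uw_step t hp big hk hj k1 k2).imp fun _ a => ⟨ad_zero (G.p j) ▸ (kN_drop a.1
        (by norm_num)).mono (div_le_self (inv_pos.2 (pow_pos (h.Q0 j) _)).le (by norm_num)), a.2⟩)
    (k₁ + 1) hJ k₁.le_succ
  exact h.uw_step t hp big le_rfl hJ k1 k2

end Ok

/-- the level of the merging -/
theorem Gp.um_top (g : G.Gp k₁ l κ c C σ Wt m X v) (h : G.Ok) (t : G.Tu b J) (hp : G.Pu)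
    (hJ : k₁ < J) (v0 : ∀ x, 0 ≤ v x) (big : 400 * 2 ^ c ≤ G.Q k₁) (σ0 : 0 < σ) :
    ∃ kk, kN (G.p k₁) (G.N k₁) kk (G.Q k₁ ^ 329)⁻¹ ∧
      ∀ (S : Ws ι Ω κ) w ps r, G.M1 b J k₁ l S w c C σ m X v ps r →
        ∀ s ∈ Pd (r k₁), KM (G.p k₁) (G.N k₁) kk ((G.fam b J k₁ S w).K s) := by
  obtain ⟨kk, k1, k2⟩ := h.uw_all (ι := ι) (Ω := Ω) (κ := κ) (C := C) (σ := σ) t hp hJ big
  have q := h.Q0 k₁
  have q0 := inv_pos.2 (pow_pos q 330)
  have q1 := h.inv_le k₁ (show 329 < 330 by norm_num)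
  have s0 := pow_pos σ0 (Fintype.card κ)
  obtain ⟨V, hV⟩ : ∃ V, V = exp (c * C + 1) * exp (2 * (G.Q k₁ ^ 210)⁻¹ * G.Q k₁ ^ 2) /
    σ ^ Fintype.card κ := ⟨_, rfl⟩
  have V0 : 0 ≤ V := by rw [hV]; positivity
  have k3 := kN_clus (D := wdP X) ((h.ps0 k₁).ad (show (0 : ℝ) ≤ 1 / 3 by norm_num)) (h.N_odd k₁)
    ⟨fun x _ => ⟨Subset.rfl, (g.geo x).1, (g.geo x).2.1⟩, fun _ _ => disjoint_empty_left _,
      fun _ _ _ _ _ => disjoint_empty_left _, fun _ _ => mem_univ _⟩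
    (δ := 1 / 6) (θ' := (G.Q k₁ ^ 330)⁻¹) (v := fun x => v x * V) (by norm_num)
    (by rw [ad_ad]; norm_num; simpa using k1) (fun x => mul_nonneg (v0 x) V0) (fun y => by
      refine (sum_le_sum (g := fun x => v x * (G.cM k₁ c C / σ ^ Fintype.card κ)) fun x _ => ?_).trans ?_
      · rw [mul_assoc, hV, div_mul_eq_mul_div]
        refine mul_le_mul_of_nonneg_left (div_le_div_of_nonneg_right ?_ s0.le) (v0 x)
        have a2 := h.inv_le k₁ (i := 0) (j := 208) (by norm_num)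
        have a3 : (tau (G.N k₁) (G.p k₁).D (X x) : ℝ) ≤ c := Nat.cast_le.2 (g.geo x).2.2
        have a4 := mul_le_mul (show (G.p k₁).a + 1 / 3 + 1 / 6 ≤ (G.p k₁).a + 1 by linarith) a3
          (Nat.cast_nonneg _) (add_nonneg (h.ps0 k₁).a zero_le_one)
        rw [show (G.Q k₁ ^ 0)⁻¹ = 1 by simp] at a2
        rw [mul_assoc 2, mul_comm _ (_ ^ 2), h.pw_inv k₁ (j := 208) rfl, cM,
          ← exp_log (pow_pos q (2 * c)), log_pow, ← exp_add, ← exp_add, ← exp_add, exp_le_exp]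
        change _ ≤ (2 * log (G.Q k₁) + 1) * c at a4
        change _ + ((G.p k₁).a + 1 / 3 + 1 / 6) * tau (G.N k₁) (G.p k₁).D (X x) ≤ _
        push_cast
        nlinarith [inv_pos.2 (pow_pos q 208)]
      · rw [← sum_mul, ← mul_one (_⁻¹), le_inv_mul_iff₀ (pow_pos q _), ← mul_div_assoc,
          ← mul_div_assoc, div_le_one s0, mul_comm _ (G.cM _ _ _)]
        exact le_trans (mul_le_mul_of_nonneg_left (mul_le_mul_of_nonneg_left (g.hW y)
          (mul_pos (exp_pos _) (pow_pos q _)).le) (pow_pos q _).le) g.sm)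
    (by
      have := Mh.sm_le h (k := k₁) (δ := 1 / 3) (by norm_num)
        (show (G.Q k₁ ^ 329)⁻¹ / 20 + (G.Q k₁ ^ 330)⁻¹ ≤ _ by linarith)
      have := exp_pos (4 * ((G.p k₁).a + 1 / 3))
      have : (0 : ℝ) ≤ exp (4 * ((G.p k₁).a + 1 / 3)) * ((G.Q k₁ ^ 329)⁻¹ / 20 + (G.Q k₁ ^ 330)⁻¹) *
        (2 * (G.p k₁).D + 1) ^ 4 := by positivity
      change 4 * (exp (4 * ((G.p k₁).a + 1 / 3)) * _) * (2 * (G.p k₁).D + 1) ^ 4 ≤ _
      linarith)
  have k4 := (kN_drop k1 (δ' := 1 / 3) (by norm_num)).add k3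
  refine ⟨_, ad_zero (G.p k₁) ▸ (kN_bm (δ := 1 / 3) (C := (1 + 1) ^ 1) (by rwa [zero_add])
    (by positivity)).mono (by linarith), fun S w ps r M s hs => ?_⟩
  have M' := M.mw.mx h
  obtain ⟨_, H⟩ := M'.mh h t
  obtain ⟨_, -, Y⟩ := H.hyp h t hp
  have p := H.pos h t hp
  have D0 := h.D_pos k₁
  have Y' := Y.ma k1.1 fun N a a' => k2 S _ M.mw N ⟨a, a'⟩
  have fa := Y'.fa_K2' (w := w) p fun _ => le_rfl
  refine km_bm (m := 3) (ρ := 1) (k := kk + _) ⟨p, fa.hol, fun s hs => (fa.km s hs).mono fun Z c' =>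
    add_le_add le_rfl (kc_dom (ps := ps) k1.1 (fun ω => mul_nonneg (mul_nonneg (norm_nonneg _)
      (p _).le) (Y'.vw_nn ω)) (fun N a ω x ω' x' e => ?_) M.x0 (fun x => ?_) Z c')⟩
    ((H.lc h t hp).loc2 H.geo fun ω e => (Y.col ω e).2) (fun _ a => (jA_trK a).symm) k4.1
    (h.ps0 k₁).D H.las.2 (by push_cast; nlinarith [c.cast_nonneg (α := ℝ)]) one_card zero_le_one
    (by linarith [log2 1]) (by norm_num) p (fun _ => (one_mul _).ge) _
    (exz_mem Sum.inr_injective p hs)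
  · have o := mem_powerset.1 (mem_filter.1 a).1
    obtain ⟨y, hy⟩ := (H.geo.sub ω (o x)).2.1
    refine (mem_filter.1 a).2.2 x x' (one_cluster H.las.2 (by positivity) (H.geo.cl ω (o x))
      (H.geo.cl ω' (o x')) ((Y.col ω (o x)).2 hy) ((Y.col ω' (o x')).2 ?_))
    exact (show S.X0 ω = S.X0 ω' by rw [M.x0 ω (o x), e, M.x0 ω' (o x')]).le hy
  · refine (sum_le_sum fun ω a => mul_le_mul_of_nonneg_left (show _ ≤ V from ?_)
      (mul_nonneg (norm_nonneg _) (p _).le)).trans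
      ((sum_mul _ _ _).ge.trans (mul_le_mul_of_nonneg_right (M.hv x) V0))
    rw [vw, Mx.prod_A, hV]
    have := H.z0_le h (mem_filter.1 a).1
    gcongr

theorem Gp.um (g : G.Gp k₁ l κ c C σ Wt m X v) (h : G.Ok) (t : G.Tu b J) (hp : G.Pu) (hJ : k₁ < J)
    (v0 : ∀ x, 0 ≤ v x) : ∃ kk, kN (G.p l) (G.N l) kk (G.Q l ^ 329)⁻¹ ∧
      ∀ (S : Ws ι Ω κ) w ps r, G.M1 b J k₁ l S w c C σ m X v ps r →
        ∀ s ∈ Pd (r l), KM (G.p l) (G.N l) kk ((G.fu b J k₁ l S w).K s) := by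
  by_cases ex : ∃ (S : Ws ι Ω κ), ∃ w ps r, G.M1 b J k₁ l S w c C σ m X v ps r
  swap
  · exact ⟨0, ⟨fun _ _ => le_rfl, fun _ => by simpa using (pow_pos (h.Q0 l) _).le⟩,
      fun S w ps r M => (ex ⟨S, w, ps, r, M⟩).elim⟩
  obtain ⟨_, _, _, _, M0⟩ := ex
  refine dw_ind (P := fun j => l ≤ j → ∃ kk, kN (G.p j) (G.N j) kk (G.Q j ^ 329)⁻¹ ∧
    ∀ (S : Ws ι Ω κ) w ps r, G.M1 b J k₁ l S w c C σ m X v ps r →
      ∀ s ∈ Pd (r j), KM (G.p j) (G.N j) kk ((G.fu b J k₁ j S w).K s)) (fun _ => by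
    simpa only [fu, fw_top] using g.um_top h t hp hJ v0 M0.mw.big M0.mw.pos.1)
    (fun j hj ih hl => ?_) l g.lt.le le_rfl
  obtain ⟨k0, k1, k2⟩ := ih (by omega)
  obtain ⟨k', θ, a1, a2, a3⟩ := h.stepU t (hj.trans hJ) k1
  obtain ⟨m1, m2⟩ := g.mm j hl hj.le
  have q := h.Q0 j
  refine ⟨_, ad_zero (G.p j) ▸ (kN_bm (δ := 1) (C := (1 + m j) ^ 1) (by rwa [zero_add])
    (by positivity)).mono ((a2 _ (by positivity)).trans (mul_le_of_le_one_left (by positivity)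
      ((div_le_one q).2 (by linarith [show (1 : ℝ) ≤ m j by exact_mod_cast m1])))),
    fun S w ps r M s hs => ?_⟩
  obtain ⟨_, F⟩ := M.flow g h t hp
  obtain ⟨F, -, -, -, Z⟩ := F (j + 1) hj (by omega)
  obtain ⟨cl, R⟩ := M.rad j hl hj.le
  have lc := F.fi.loc
  rw [← h.sd_nf j (G.zz b J (j + 1)), fu_Z hj hJ.le] at lc
  simp only [zs_step (hj.trans hJ) (G.zz b J (j + 1))] at cl
  rw [fu, fw_step hj]
  exact km_bm (a3 F.fi.pos (F.fi.sl _) (F.fi.sa _) Z (k2 S w ps r M)) (lc.step (h.sd_all j _).nu)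
    (fun _ _ => rfl) a1.1 (h.ps0 j).D cl le_rfl one_card (m j).cast_nonneg (by
      simpa using log_le_sub_one_of_pos (show (0 : ℝ) < 1 + m j by positivity)) zero_le_one
    (fun q => (R q).1) (fun q => (R q).2 hj) s hs

end Gl

end Pool.Agent.Lib.MP_7f377f_mp.RG.Q4.En
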