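import Pool.Agent.Lib.MP_7f377f_mp.G.NsA2

/-! Nested merging: relabelling and translation of the cells of the first level. -/

noncomputable section

open Pool.Agent.Lib.MP_7f377f_mp.Jet

set_option linter.unusedSectionVars false
variable [Pool.Agent.Lib.MP_7f377f_mp.GD]

namespace Pool.Agent.Lib.MP_7f377f_mp.RG.Q4.En

open Finset Function Sg Real Pos Mg
open scoped Classical

attribute [local irreducible] box lbox tb tau rc

variable {ι ι' Ω Ω' κ κ₂ β : Type} [Fintype ι] [DecidableEq ι] [Fintype ι'] [DecidableEq ι']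
  [DecidableEq Ω] [DecidableEq Ω'] [Fintype κ] [DecidableEq κ] [Inhabited κ] [Fintype κ₂]
  [DecidableEq κ₂] [Inhabited κ₂] [Fintype β] [DecidableEq β]

section

variable {ι ι' γ γ' : Type} [DecidableEq ι] [DecidableEq ι'] [DecidableEq γ] [DecidableEq γ']
  {e : ι' → ι} {L A' : Finset ι'} {A : Finset ι} {Y : Fy ι} {Y' : Fy ι'}

theorem exz_exz {i : γ' → ι'} (hi : Injective i) (he : Injective e) (s : γ' → ℂ) :
    exz e (exz i s) = exz (e ∘ i) s := (hi.extend_comp he s 0).symm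

theorem exz_val (s : ι' → ℂ) : exz ((↑) : L → ι') (s ∘ (↑)) = cutS L s := funext fun y => by
  rw [cutS]
  split_ifs with a
  exacts [exz_apply Subtype.val_injective (⟨y, a⟩ : L), extend_apply' _ _ _ fun ⟨x, u⟩ => a (u ▸ x.2)]

theorem Fy.Em.pull (h : Y'.Em L e Y) (he : Injective e) {i : γ → ι} {i' : γ' → ι'} {e₀ : γ' → γ}
    (hi : Injective i) (hi' : Injective i') (h₀ : Injective e₀) (c : e ∘ i' = i ∘ e₀)
    {C : Finset γ'} (hC : ∀ x ∈ C, i' x ∈ L) : (Y'.pull i').Em C e₀ (Y.pull i) := Fy.em_iff.2 fun s => by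
  have a : cutS L (exz i' (cutS C s)) = exz i' (cutS C s) := funext fun y => by
    rw [cutS]
    split_ifs with a
    · rfl
    by_cases u : ∃ x, i' x = y
    · obtain ⟨x, rfl⟩ := u
      rw [exz_apply hi', cutS, if_neg fun k => a (hC x k)]
    · exact (exz_no u).symm
  have := Fy.em_iff.1 h (exz i' (cutS C s))
  rwa [a, exz_exz hi' he, c, ← exz_exz h₀ hi] at this

theorem Gl.xt_em {G : Gl} {b : ℝ} {J : ℕ} {H : ι → Sx} {H' : ι' → Sx} {W : ι → Finset St}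
    {W' : ι' → Finset St} (he : Injective e) (hL : L ⊆ A') (hA : ∀ x ∈ L, e x ∈ A ∧ H (e x) = H' x) :
    (G.xt A' H' W' b J).Em L e (G.xt A H W b J) := Fy.em_iff.2 fun s => by
  rcases L.eq_empty_or_nonempty with rfl | ⟨x, hx⟩
  · rw [show cutS ∅ s = 0 from funext fun x => if_neg (notMem_empty x), exz_zero]
    simp [xt, trK, ma_zero, jA_empty]
  have : Inhabited L := ⟨⟨x, hx⟩⟩
  have v : Injective ((↑) : L → ι') := Subtype.val_injective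
  obtain ⟨a1, a2, a3⟩ := Gl.xt_se (G := G) (b := b) (J := J) (H := H) (W := W) (he.comp v)
    (fun x => (hA x x.2).1) fun _ => ∅
  obtain ⟨b1, b2, b3⟩ := Gl.xt_se (G := G) (b := b) (J := J) (H := H') (W := W') v
    (fun x => hL x.2) fun _ => ∅
  rw [show H ∘ e ∘ (↑) = H' ∘ ((↑) : L → ι') from funext fun x => (hA x x.2).2] at a1 a2 a3
  rw [← exz_val, exz_exz v he]
  exact ⟨congrFun (b1.symm.trans a1) _, congrFun (b2.symm.trans a2) _, congrFun (b3.symm.trans a3) _⟩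

theorem Gl.xt_congr {G : Gl} {b : ℝ} {J : ℕ} {H H' : ι → Sx} {W : ι → Finset St}
    (h : ∀ x ∈ A, H x = H' x) : G.xt A H W b J = G.xt A H' W b J := by
  simp only [xt, fun s : ι → ℂ => sum_congr rfl fun x hx => congrArg (s x • ·) (h x hx)]

theorem Fy.Em.tq [Fintype ι] {Y₁ Y₂ Y₃ : Fy ι} {n : ℕ} {v : St} (h : Y₁.Em univ id Y₂)
    (t : Y₂.Tq n v Y₃) : Y₁.Tq n v Y₃ := fun s => by
  have := Fy.em_iff.1 h s
  rw [show cutS univ s = s from funext fun x => if_pos (mem_univ x), exz, extend_id] at this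
  rw [this.1, this.2.1, this.2.2]
  exact t s

end

namespace Gl

variable {G : Gl} {b C σ Wt : ℝ} {J k₁ k l c : ℕ} {m : ℕ → ℕ} {X : β → Finset St} {v : β → ℝ}
  {w : Ω → ℂ} {w' : Ω' → ℂ}

/-- the family on the cells `C₀` depends only on the data of these cells -/
theorem M1.emb {S : Ws ι Ω κ} {S' : Ws ι' Ω' κ} {ps : Ω' → β} {r : ℕ → ι' → ℝ} {e : ι' → ι}
    {u : Ω' → Ω} {C₀ : Finset ι'} (M : G.M1 b J k₁ l S' w' c C σ m X v ps r)
    (g : G.Gp k₁ l κ c C σ Wt m X v) (h : G.Ok) (t : G.Tu b J) (hp : G.Pu) (U : G.Un J k₁ S)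
    (E : S'.Em S w' w e u C₀) :
    ∀ j ≤ k₁, l ≤ j → (G.fu b J k₁ j S' w').Em C₀ e (G.fu b J k₁ j S w) := by
  obtain ⟨r0, H⟩ := (M.mw.mx h).mh h t
  have he : Injective (Sum.map (Prod.map u id) e : Ω' × κ ⊕ ι' → Ω × κ ⊕ ι) :=
    Sum.map_injective.2 ⟨E.hu.prodMap injective_id, E.he⟩
  have c (q : ι') : (.inr q : Ω' × κ ⊕ ι') ∈ C₀.image .inr ↔ q ∈ C₀ :=
    Sum.inr_injective.mem_finset_image
  have sub : C₀.image .inr ⊆ S'.x.wd.B := image_subset_image (subset_univ _)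
  have e1 : S'.x.wd.Em S.x.wd (Sum.map (Prod.map u id) e) u (C₀.image .inr) := by
    refine ⟨he, E.hu, sub, fun x hx => ?_, fun ω hω hc => ?_, fun ω hω x hx a => ?_⟩
    · obtain ⟨q, -, rfl⟩ := mem_image.1 hx
      exact mem_image_of_mem _ (mem_univ _)
    · obtain ⟨a1, a2, -, -, a3, a4, -⟩ := E.om ω hω ((c _).1 hc)
      exact ⟨a1, congrArg Sum.inr a2, by simp only [Wx.wd, image_image]; rfl, a3, a4⟩
    · obtain ⟨q, hq, rfl⟩ := mem_image.1 hx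
      exact (E.sj ω hω q hq (Sum.inr_injective a)).imp fun _ a => ⟨a.1, a.2.1, congrArg Sum.inr a.2.2⟩
  have e2 := H.mg_emb (w := w) (w' := w') h t hp e1 (U.geo h) (U.lc h)
    (fun N hN hc => xt_em he ((lt_sub sub).trans (ad_sub hN.1)) fun x hx => ?_) fun ω hω hc => ?_
  · refine fw_emb E.he (subset_univ _) (fun _ _ => mem_univ _) (e2.pull he Sum.inr_injective
      Sum.inr_injective E.he rfl fun x => (c x).2) fun j hl hj X c U => ?_
    obtain ⟨_, _, _, _, -, F⟩ := M.sml g h t hp hj (Nat.le_succ_of_le hl)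
    exact ⟨_, hb_cut ⟨_, F.sh X c U⟩ C₀⟩
  · rcases mem_union.1 hx with a | a
    · obtain ⟨q, hq, rfl⟩ := mem_image.1 (mem_sdiff.1 a).1
      exact ⟨mem_union_right _ (mem_image_of_mem _ (mem_univ _)), congrArg (·, 0, 0) (E.P q hq)⟩
    · obtain ⟨ω, hω, a⟩ := mem_biUnion.1 a
      obtain ⟨i, -, rfl⟩ := mem_image.1 a
      obtain ⟨a1, -, a2, -⟩ := E.om ω (hN.1 hω) ((c _).1 (hc ω hω))
      exact ⟨mem_union_left _ (mem_biUnion.2 ⟨u ω, a1, mem_image_of_mem _ (mem_univ i)⟩),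
        congrArg (· i, 0, 0) a2⟩
  · obtain ⟨-, -, -, a1, -, -, a2⟩ := E.om ω hω ((c _).1 hc)
    refine ⟨a2, fun x hx => ?_⟩
    obtain ⟨i, -, rfl⟩ := mem_image.1 hx
    exact congrFun a1 i

/-- translation covariance of the insertions -/
theorem M1.cN_tr {S : Ws κ₂ Ω κ} {S' : Ws κ₂ Ω' κ} {ps : Ω → β} {r : ℕ → κ₂ → ℝ}
    (M : G.M1 b J k₁ (k + 1) S w c C σ m X v ps r) (g : G.Gp k₁ (k + 1) κ c C σ Wt m X v) (h : G.Ok)
    (t : G.Tu b J) (hp : G.Pu) (u : Ω' ≃ Ω) (y : St) (hO : ∀ ω, u ω ∈ S.Om ↔ ω ∈ S'.Om)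
    (hP : S'.P = fun q => srT (G.N J) ((G.rt J k : ℤ) • y) (S.P q))
    (hw : ∀ ω ∈ S'.Om, w (u ω) = w' ω ∧ S.cl (u ω) = S'.cl ω ∧ S.a (u ω) = S'.a ω ∧
      (S'.F ω = fun i => srT (G.N J) ((G.rt J k : ℤ) • y) (S.F (u ω) i)) ∧
      S.Z0 (u ω) = trS (G.N k₁) ((G.rt k₁ k : ℤ) • y) (S'.Z0 ω) ∧
      S.X0 (u ω) = trS (G.N k₁) ((G.rt k₁ k : ℤ) • y) (S'.X0 ω) ∧
      S'.Z0 ω ⊆ S'.X0 ω ∧ S'.X0 ω ⊆ box (G.N k₁ / 2)) (a : κ₂ → ℂ) {Z0 X0 : Finset St}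
    (hZ : Z0 ⊆ X0) (hX : X0 ⊆ box (G.N k / 2)) {o : LP St} (ho : o ∈ lps (box (G.N k / 2))) :
    trA (G.N k) y (G.cN b J k₁ k S w a (trS (G.N k) y Z0) (trS (G.N k) y X0)) o.1 o.2 =
      G.cN b J k₁ k S' w' a Z0 X0 o.1 o.2 := by
  have U := M.mw.un
  have kk : k + 1 ≤ k₁ := g.lt.le
  obtain ⟨S₂, hS⟩ : ∃ S₂ : Ws κ₂ Ω' κ,
    S₂ = ⟨S'.Om, S'.cl, S.F ∘ u, S'.a, S.P, S.V ∘ u, S.W, S.Z0 ∘ u, S.X0 ∘ u⟩ := ⟨_, rfl⟩
  have U₂ : G.Un J k₁ S₂ := hS ▸ ⟨U.lt, fun ω hω => by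
    simpa only [(hw ω hω).2.1, comp] using U.wd _ ((hO ω).2 hω), fun ω => U.lF _, U.lP⟩
  have E : S.Em S₂ w w' id u.symm univ := hS ▸ ⟨injective_id, u.symm.injective, fun _ _ => rfl,
    fun ω hω _ => by
      obtain ⟨ω, rfl⟩ := u.surjective ω
      obtain ⟨a1, a2, a3, -⟩ := hw ω ((hO ω).1 hω)
      rw [u.symm_apply_apply]
      exact ⟨(hO ω).1 hω, a2.symm, rfl, a3.symm, rfl, rfl, a1.symm⟩,
    fun ω hω q _ a => ⟨u ω, (hO ω).2 hω, u.symm_apply_apply ω, (hw ω hω).2.1.trans a⟩⟩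
  have e1 := M.emb g h t hp U₂ E (k + 1) kk le_rfl
  have e2 : (G.xt S₂.x.wd.al S₂.x.src S₂.x.sup b J).Tq (G.N J) ((G.rt J k : ℤ) • y)
      (G.xt S'.x.wd.al S'.x.src S'.x.sup b J) := by
    have a : S₂.x.wd.al = S'.x.wd.al := by rw [hS]; rfl
    have : ∀ x ∈ S'.x.wd.al, S'.x.src x = sxT (G.N J) ((G.rt J k : ℤ) • y) (S₂.x.src x) := by
      intro x hx
      rw [hS]
      rcases mem_union.1 hx with a | a
      · obtain ⟨ω, hω, a⟩ := mem_biUnion.1 a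
        obtain ⟨i, -, rfl⟩ := mem_image.1 a
        exact Prod.ext (congrFun (hw ω hω).2.2.2.1 i) rfl
      · obtain ⟨q, -, rfl⟩ := mem_image.1 a
        exact Prod.ext (congrFun hP q) rfl
    have e := h.xt_tq (b := b) (J := J) (A := S'.x.wd.al) (H := S₂.x.src) (W := S₂.x.sup)
      (W' := S'.x.sup) ((G.rt J k : ℤ) • y)
    rw [a, xt_congr this]
    exact e
  rw [← h.rt_mul (k.le_succ.trans kk) U.lt.le, mul_comm, Nat.cast_mul, mul_smul] at e2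
  have e3 : (G.fam b J k₁ S₂ w').Tq (G.N k₁) ((G.rt k₁ k : ℤ) • y) (G.fam b J k₁ S' w') := by
    have := h.mg_tr (b := b) (J := J) (D := S₂.x.wd) (D₁ := S'.x.wd) (a := S'.x.cen) (w := w')
      (Zc := fun x => G.zs (S₂.x.sup x) J k₁) (Zc₁ := fun x => G.zs (S'.x.sup x) J k₁) U.lt.le e2 rfl
      (by rw [hS]; rfl) rfl (by rw [hS]; rfl) fun ω hω => by rw [hS]; exact (hw ω hω).2.2.2.2
    rw [fam, fam, show S₂.x.cen = S'.x.cen by rw [hS]; rfl]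
    exact fun s => this (exz .inr s)
  rw [← h.rt_mul k.le_succ kk, mul_comm, Nat.cast_mul, mul_smul] at e3
  exact h.cIn_tr k.le_succ (e1.tq (h.fw_tr kk e3)) a hZ hX ho

end Gl

end Pool.Agent.Lib.MP_7f377f_mp.RG.Q4.En
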