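import Pool.Agent.Lib.MP_7f377f_mp.G.NsA3
import Pool.Agent.Lib.MP_7f377f_mp.G.NsA4

/-! Nested merging: the hypotheses of the second merging. -/

noncomputable section

open Pool.Agent.Lib.MP_7f377f_mp.Jet

set_option linter.unusedSectionVars false
variable [Pool.Agent.Lib.MP_7f377f_mp.GD]

namespace Pool.Agent.Lib.MP_7f377f_mp.RG.Q4.En

open Finset Function Sg Real Pos Mg
open scoped Classical

attribute [local irreducible] box lbox tb tau rc Gl.zs Gl.fw Gl.tn Gl.tt Gl.zz Gl.fu Gl.u1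

variable {γ Ω Ω₂ κ κ₂ β : Type} [Fintype γ] [DecidableEq γ] [DecidableEq Ω] [Fintype Ω₂]
  [DecidableEq Ω₂] [Fintype κ] [DecidableEq κ] [Inhabited κ] [Fintype κ₂] [DecidableEq κ₂]
  [Inhabited κ₂] [Fintype β] [DecidableEq β]

theorem ex_ad {ι : Type} [DecidableEq ι] {D : Wd St ι Ω} {x : ι} (hx : x ∈ D.al) :
    ∃ N, D.Tr N ∧ x ∈ D.ad N := by
  rcases mem_union.1 hx with e | e
  · obtain ⟨ω, e, e'⟩ := mem_biUnion.1 e
    exact ⟨_, tr_one e, a_sub (mem_singleton_self ω) e'⟩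
  · exact ⟨_, tr_empty, ad_empty (D := D) ▸ e⟩

theorem pr_one {ι : Type} [Fintype ι] [DecidableEq ι] (b : ℝ) (n : ℕ) (X : ι → Conf → ℂ) (x : ι)
    (s : Unit → ℂ) : pr b n X (exz (fun _ => x) s) = pr b n (fun _ => X x) s := funext fun U => by
  rw [pr, pr, prod_eq_single x (fun y _ e => by
    rw [exz, extend_apply' _ _ _ fun ⟨_, u⟩ => e u.symm]; simp) fun e => (e (mem_univ _)).elim,
    exz_apply (e := fun _ => x) (fun _ _ _ => rfl) (), Fintype.prod_unique]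

theorem Gl.Fd.se {ι : Type} [DecidableEq ι] {G : Gl} {k : ℕ} {z : Z} {A : Finset ι} {r0 r : ι → ℝ}
    {θ : ℝ} {Y Y' : Fy ι} {f : (ι → ℂ) → Conf → ℂ} (F : G.Fd k z A r0 r θ Y f) (u : Y.Se Y')
    (hZ : ∀ q, Y.Z q ⊆ Y'.Z q) : G.Fd k z A r0 r θ Y' f := by
  obtain ⟨_, _, _, _⟩ := Y
  obtain ⟨_, _, _, _⟩ := Y'
  obtain ⟨rfl, rfl, rfl⟩ := u
  exact ⟨F.fi.mono F.fi.pos (fun _ => le_rfl) le_rfl hZ, F.ma, F.eq⟩

namespace Gl.Mn

variable {G : Gl} {b C₁ σ₁ Wt₁ C σ : ℝ} {J k₁ k c₁ c : ℕ} {m : ℕ → ℕ} {X : β → Finset St}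
  {v : β → ℝ} {S : Ws (Ω₂ × κ₂ ⊕ γ) Ω κ} {w : Ω → ℂ} {T : Wn γ Ω₂ κ₂} {ps : Ω → β} {ρ : γ → ℝ}
  (M : G.Mn b J k₁ k S w T c₁ C₁ σ₁ Wt₁ m X v ps c C σ ρ) (h : G.Ok) (t : G.Tu b J) (hp : G.Pu)
include M

theorem lt : k₁ < J := (M.one ∅ tr_empty).choose_spec.2.mw.lt

theorem un : G.Un J k₁ (S.res T.x.wd.al) := by
  refine ⟨M.lt, fun ω hω => ?_, by
    simpa only [Ws.res] using (M.one ∅ tr_empty).choose_spec.2.mw.lF, fun q x hx => ?_⟩
  · obtain ⟨a, a'⟩ := mem_filter.1 hω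
    obtain ⟨N, hN, e⟩ := ex_ad a'
    simpa only [Ws.res, if_pos e, if_pos a'] using
      (M.one N hN).choose_spec.2.mw.un.wd ω (mem_filter.2 ⟨a, e⟩)
  · by_cases a : q ∈ T.x.wd.al
    · obtain ⟨N, hN, e⟩ := ex_ad a
      have := (M.one N hN).choose_spec.2.mw.lP q x
      simp only [Ws.res, if_pos e, if_pos a] at this hx ⊢
      exact this hx
    · simp only [Ws.res, if_neg a, Pi.zero_apply]

theorem y2_Z : (G.y2 b J k₁ k S w T).Z = fun q => G.zs ((S.res T.x.wd.al).W q) J (k + 1) :=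
  fu_Z M.gp.lt.le M.lt.le

include h t hp

/-- the subfamilies are the families of the subsystems -/
theorem se {N : Finset Ω₂} (hN : T.x.wd.Tr N) :
    ((G.fu b J k₁ (k + 1) (S.res (T.x.wd.ad N)) w).cut (T.x.wd.ad N)).Se
      ((G.y2 b J k₁ k S w T).cut (T.x.wd.ad N)) := by
  have s := ad_sub hN.1
  have := (M.one N hN).choose_spec.2.emb M.gp h t hp M.un (w := w) (e := id) (u := id)
    (C₀ := T.x.wd.ad N) ⟨injective_id, injective_id,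
      fun q hq => by simp only [Ws.res, id, if_pos hq, if_pos (s hq)],
      fun ω hω e => ⟨mem_filter.2 ⟨(mem_filter.1 hω).1, s e⟩, rfl, rfl, rfl, rfl, rfl, rfl⟩,
      fun ω hω q hq e => ⟨ω, mem_filter.2 ⟨(mem_filter.1 hω).1, (show S.cl ω = q from e) ▸ hq⟩,
        rfl, e⟩⟩ (k + 1) M.gp.lt.le le_rfl
  simp only [Fy.Em, Fy.pull, exz, extend_id, id] at this
  exact this

theorem fd {N : Finset Ω₂} (hN : T.x.wd.Tr N) :
    G.Fd (k + 1) (G.zz b J (k + 1)) (T.x.wd.ad N) (Sum.elim (fun _ => σ) ρ)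
      (Sum.elim (fun _ => σ) ρ) (G.Q (k + 1) ^ 329)⁻¹ ((G.y2 b J k₁ k S w T).cut (T.x.wd.ad N))
      (fun s => G.tt (pr b (G.N J) (S.X (G.N J) w) (cutS (T.x.wd.ad N) s)) J (k + 1)) ∧
      (G.y2 b J k₁ k S w T).bs = (G.zz b J (k + 1)).d ∧ (G.y2 b J k₁ k S w T).Ec (T.x.wd.ad N) id ∧
      ∀ x ∈ T.x.wd.ad N,
        (G.y2 b J k₁ k S w T).jt {x} = G.tn b J (G.u1 b J k₁ S w x) k₁ (k + 1) := by
  obtain ⟨r, e, M1⟩ := M.one N hN
  obtain ⟨r0, a⟩ := M1.flow M.gp h t hp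
  obtain ⟨a1, a2, a3, a4, -⟩ := a (k + 1) M.gp.lt.le le_rfl
  obtain ⟨s1, s2, s3⟩ := M.se h t hp hN
  have kJ := (M.gp.lt.trans M.lt).le
  have F := (h.fd_up (t.gd _ kJ).tz a1 (tt_hd (pr_hd (gi_X _) a1.fi.pos) kJ)).cut (subset_univ
    (T.x.wd.ad N))
  have e1 : ∀ s, pr b (G.N J) ((S.res (T.x.wd.ad N)).X (G.N J) w) (cutS (T.x.wd.ad N) s) =
      pr b (G.N J) (S.X (G.N J) w) (cutS (T.x.wd.ad N) s) := fun s => funext fun U => by
    rw [pr, pr, prod_congr rfl fun q _ => ?_]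
    rw [X_res, cutS]
    split_ifs <;> simp only [zero_mul]
  simp only [e, e1] at F
  refine ⟨F.se ⟨s1, s2, s3⟩ fun q => ?_, ?_, fun B hB x hx y hy ne => ?_, fun x hx => ?_⟩
  · simp only [Fy.cut]
    rw [M.y2_Z, fu_Z M.gp.lt.le M.lt.le]
    refine zs_mono ?_ (k + 1) kJ
    simp only [Ws.res]
    split_ifs with u u'
    exacts [Subset.rfl, (u' (ad_sub hN.1 u)).elim, empty_subset _, Subset.rfl]
  · rw [← cut_bs (A := T.x.wd.ad N), Fy.bs, ← s1, ← s2, ← Fy.bs, cut_bs, a2]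
  · exact (jd_cut hB).symm.trans ((congrArg (jd B) s3).symm.trans
      ((jd_cut hB).trans (a4 B (subset_univ B) x hx y hy ne)))
  · rw [← cut_jt (singleton_subset_iff.2 hx), Fy.jt, ← s1, ← s2, ← Fy.jt,
      cut_jt (singleton_subset_iff.2 hx), a3, u1_res hx]

theorem jt {x : Ω₂ × κ₂ ⊕ γ} (hx : x ∈ T.x.wd.al) :
    (G.y2 b J k₁ k S w T).jt {x} = G.tn b J (G.u1 b J k₁ S w x) k₁ (k + 1) :=
  let ⟨_, hN, e⟩ := ex_ad hx
  (M.fd h t hp hN).2.2.2 x e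

theorem mh : ∃ r0, G.Mh T.x.wd b J (G.y2 b J k₁ k S w T) (k + 1) k T.x.cen c C r0
    (fun _ => Sum.elim (fun _ => σ) ρ) m
    (fun s => G.tt (pr b (G.N J) (S.X (G.N J) w) s) J (k + 1))
    (fun x => G.zs (T.x.sup x) J (k + 1)) fun x => G.zs (T.x.sup x) J k := by
  have kJ : k + 1 ≤ J := (M.gp.lt.trans M.lt).le
  have Z : ∀ x ∈ T.x.wd.al, (G.y2 b J k₁ k S w T).Z x = G.zs (S.W x) J (k + 1) := fun x hx => by
    simp only [M.y2_Z, Ws.res, if_pos hx]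
  have zz := fun V => zs_zs (G := G) (X := V) kJ k.le_succ
  obtain ⟨r, -, M1⟩ := M.one ∅ tr_empty
  obtain ⟨kk, k1, k2⟩ := M.gp.um (ι := Ω₂ × κ₂ ⊕ γ) (Ω := Ω) h t hp M.lt fun x => (sum_nonneg
    fun ω _ => mul_nonneg (norm_nonneg _) (M1.mw.pos.2 _).le).trans (M1.hv x)
  refine ⟨Sum.elim (fun _ => σ) ρ, k.lt_succ_self, kJ, Fintype.card_pos.trans_le M.card, M.C0,
    ⟨fun ω a => ⟨(M.wd ω a).2.1, (M.wd ω a).1, (M.wd ω a).2.2.2.1.trans (by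
      rw [zs_step kJ (G.top0 0 0)]
      exact tb_dom (h.N_odd k))⟩, fun _ _ => by simp [Wx.wd, disjoint_left],
      fun _ _ _ _ e => by simp [Wx.wd, disjoint_left, e.symm], fun _ _ => Wx.mem_B.2 ⟨_, rfl⟩⟩,
    fun ω a => ⟨(M.wd ω a).2.2.1, (M.wd ω a).2.2.2.1, card_image_le.trans M.card,
      (M.wd ω a).2.2.2.2⟩, fun ω a x hx => ?_, fun x hx => ?_,
    fun j a b => (by omega : False).elim, ⟨M.big, fun x hx y hy ne => ?_⟩,
    fun N hN => ⟨fun j a b x hx => ?_, fun j a b => ?_, fun j a b => ?_⟩,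
    fun N hN => ⟨(M.fd h t hp hN).1, (M.fd h t hp hN).2.2.1⟩, (M.fd h t hp tr_empty).2.1,
    ⟨kk, by rwa [ad_zero], fun N hN s hs => ?_⟩, M.un.loc h M.gp.lt.le⟩
  · have hN := tr_one (D := T.x.wd) a
    have e := a_sub (mem_singleton_self ω) hx
    have e' := singleton_subset_iff.2 e
    obtain ⟨F, a1, -, a2⟩ := M.fd h t hp hN
    have he : Injective fun _ : Unit => x := fun _ _ _ => rfl
    have F' := (F.pull he fun _ => e).1
    simp only [exz_cut (e := fun _ : Unit => x) fun _ => e, pr_one] at F'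
    rw [Z x (ad_sub hN.1 e), zz, fw_top, ← jd_cut e', ← jd_exz1 (x := ()) he]
    have j1 := (pull_jt (x := ()) he).trans ((cut_jt e').trans (a2 x e))
    obtain ⟨i, rfl⟩ := Wx.mem_A.1 hx
    obtain ⟨b1, b2, b3, n, b4, b5, b6⟩ := M.lt' ω a i
    exact ⟨b2, zs_mono b1 _ kJ, b3 _ _ n F' (by
      rw [← a1]; simp only [Fy.bs, Fy.pull, Fy.cut, exz_zero, cut_zero]) b4 b5 (j1 ▸ b6)
      (Z _ (ad_sub hN.1 e)).subset⟩
  · rw [Z x (mem_union_right _ hx), zz]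
    obtain ⟨q, rfl⟩ := Wx.mem_B.1 hx
    exact ⟨zs_mono (M.sub q) _ kJ, Subset.rfl⟩
  · obtain ⟨q, rfl⟩ := Wx.mem_B.1 hx
    obtain ⟨q', rfl⟩ := Wx.mem_B.1 hy
    exact M.cel q (mem_univ _) q' (mem_univ _) fun a => ne (congrArg Sum.inr a)
  · obtain rfl := a.antisymm b
    obtain ⟨r, e, M1⟩ := M.one N hN
    rw [Gl.tn_top, M.jt h t hp (ad_sub hN.1 hx), ← u1_res hx, ← e]
    exact M1.sz _ le_rfl M.gp.lt.le x
  · obtain rfl := a.antisymm b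
    intro x hx y hy ne
    simpa only [zs_top, Z x (ad_sub hN.1 hx), Z y (ad_sub hN.1 hy), Ws.res, if_pos hx, if_pos hy]
      using ((M.one N hN).choose_spec.2.rad _ le_rfl M.gp.lt.le).1 x (mem_univ _) y (mem_univ _) ne
  · obtain rfl := a.antisymm b
    exact ⟨(M.gp.mm _ le_rfl M.gp.lt.le).1, (M.gp.mm _ le_rfl M.gp.lt.le).2,
      fun _ => ⟨le_rfl, fun e => (lt_irrefl _ e).elim⟩⟩
  · obtain ⟨r, e, M1⟩ := M.one N hN
    have := congrFun (M.se h t hp hN).2.1 s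
    simp only [Fy.cut] at this
    rw [← this]
    exact k2 _ w ps r M1 _ (cut_mem (by rwa [e]))

theorem rl (hF : ∀ ω, (w ω).im = 0 ∧ ∀ i, (S.a ω i).im = 0 ∧ ∀ x μ ν, (S.F ω i x μ ν).im = 0)
    (hP : ∀ q x μ ν, (S.P q x μ ν).im = 0) {N : Finset Ω₂} (hN : T.x.wd.Tr N) (r') :
    ((G.y2 b J k₁ k S w T).cut (T.x.wd.ad N)).Rl (G.p (k + 1)) r' := fun s hs a => by
  obtain ⟨s1, s2, s3⟩ := M.se h t hp hN
  rw [← s1, ← s2, ← s3]
  exact (M.one N hN).choose_spec.2.rl M.gp h t hp (fun ω _ => hF ω) (fun q x μ ν => by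
    simp only [Ws.res]
    split_ifs
    exacts [hP q x μ ν, rfl]) _ M.gp.lt.le le_rfl r' _ (cut_mem hs) fun x => by
      unfold cutS; split_ifs; exacts [a x, rfl]

end Gl.Mn

end Pool.Agent.Lib.MP_7f377f_mp.RG.Q4.En
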