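import Pool.Agent.Lib.MP_7f377f_mp.G.NsA5

/-! Nested merging: the main statements. -/

noncomputable section

open Pool.Agent.Lib.MP_7f377f_mp.Jet

set_option linter.unusedSectionVars false
variable [Pool.Agent.Lib.MP_7f377f_mp.GD]

namespace Pool.Agent.Lib.MP_7f377f_mp.RG.Q4.En

open Finset Function Sg Real Pos Mg
open scoped Classical

attribute [local irreducible] box lbox tb tau rc

variable {γ Ω Ω' Ω₂ κ κ₂ β : Type} [Fintype γ] [DecidableEq γ] [DecidableEq Ω] [DecidableEq Ω']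
  [Fintype Ω₂] [DecidableEq Ω₂] [Fintype κ] [DecidableEq κ] [Inhabited κ] [Fintype κ₂]
  [DecidableEq κ₂] [Inhabited κ₂] [Fintype β] [DecidableEq β]

theorem Wn.gi_X {T : Wn γ Ω₂ κ₂} {n : ℕ} {X : Ω₂ × κ₂ ⊕ γ → Conf → ℂ} (hX : ∀ x, GI n (X x))
    (w : Ω₂ → ℂ) (q : γ) : GI n (T.X X w q) :=
  (hX _).add (.sum fun _ _ => (GI.const _ _).mul (.prod fun _ _ =>
    Br.gi_comp (hX _) (continuous_id.sub continuous_const)))

/-- the words as jets of the product of the letters -/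
theorem Wn.md {T : Wn γ Ω₂ κ₂} {n : ℕ} {b : ℝ} {X : Ω₂ × κ₂ ⊕ γ → Conf → ℂ} (hX : ∀ x, GI n (X x))
    (w : Ω₂ → ℂ) {r : Ω₂ × κ₂ ⊕ γ → ℝ} (hr : ∀ x, 0 < r x) :
    Md T.x.wd T.x.cen w n r (pr b n X) fun s => pr b n (T.X X w) (s ∘ .inr) := by
  have e : (fun s : Ω₂ × κ₂ ⊕ γ → ℂ => pr b n (T.X X w) (s ∘ .inr)) =
      pr b n (Sum.elim (fun _ _ => 0) (T.X X w)) := funext₂ fun s U => by
    simp [pr, Fintype.prod_sum_type]
  have md := md_lin (D := T.x.wd) (A := univ) (a := T.x.cen) (w := w) (n := n) (r := r) (y := X)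
    (c := fun U => wil b n U) (f' := pr b n (Sum.elim (fun _ _ => 0) (T.X X w)))
    (by simp [Wx.wd, disjoint_left]) (by simp +contextual [Wx.wd, disjoint_left, eq_comm])
    (subset_univ _) (pr_hd (by rintro (x | q); exacts [.const _ 0, gi_X hX w q]) hr)
    fun U _ A hA => by
      rw [pr_eq, jd_ma _ (subset_univ _), mul_comm]
      refine congrArg _ (prod_congr rfl fun x hx => ?_)
      obtain ⟨q, -, rfl⟩ := mem_image.1 (hA hx)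
      simp only [Sum.elim_inr, Wn.X, Wx.wd, Sum.inr.injEq]
      refine congrArg _ (sum_congr rfl fun ω _ => ?_)
      rw [prod_image (Wx.inj_A ω).injOn]
      rfl
  rw [e]
  refine ⟨md.hd, fun U hU A hA => (md.eq U hU A hA).trans (sum_congr rfl fun N _ => if_congr Iff.rfl
    (congrArg _ (((Gl.hb_lin hr _ _).refl.mul (A := univ) ⟨⟨_, sh_src hr (fun _ _ => le_rfl) le_rfl⟩,
      pr_eq (b := b) (X := X) U ▸ hb_ma hr _, fun B hB => ?_⟩).eq _ (subset_univ _))) rfl)⟩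
  rw [pr_eq, jd_ma _ hB, ← jd_exp_lin _ hB, mul_comm, ← jd_smul]
  rfl

namespace Gl.Mn

variable {G : Gl} {b C₁ σ₁ Wt₁ C σ Wt x y E α : ℝ} {J k₁ k c₁ c : ℕ} {m : ℕ → ℕ}
  {X : β → Finset St} {v : β → ℝ} {S : Ws (Ω₂ × κ₂ ⊕ γ) Ω κ} {w : Ω → ℂ} {T : Wn γ Ω₂ κ₂}
  {ps : Ω → β} {ρ : γ → ℝ} {w₂ : Ω₂ → ℂ} {ω : Ω₂}
  (M : G.Mn b J k₁ k S w T c₁ C₁ σ₁ Wt₁ m X v ps c C σ ρ) (h : G.Ok) (t : G.Tu b J) (hp : G.Pu)
include M h t hp

/-- the insertion of a word depends only on its letters -/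
theorem nI_eq {S' : Ws κ₂ Ω' κ} {w' : Ω' → ℂ} {ps' : Ω' → β} {r : ℕ → κ₂ → ℝ} {u : Ω' → Ω}
    (hω : ω ∈ T.Om) (M' : G.M1 b J k₁ (k + 1) S' w' c₁ C₁ σ₁ m X v ps' r)
    (E : S'.Em S w' w (fun i => .inl (ω, i)) u univ) :
    G.nI b J k₁ k S w T ω = G.cN b J k₁ k S' w' (T.a ω) (T.Z0 ω) (T.X0 ω) := by
  obtain ⟨_, H⟩ := M.mh h t hp
  have a : ∀ i, (.inl (ω, i) : Ω₂ × κ₂ ⊕ γ) ∈ T.x.wd.al := fun i =>
    ad_sub (tr_one (D := T.x.wd) hω).1 (a_sub (mem_singleton_self ω) (Wx.mem_A.2 ⟨_, rfl⟩))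
  have e := M'.emb M.gp h t hp M.un (S := S.res T.x.wd.al) (w := w) ⟨E.he, E.hu,
    fun q hq => (if_pos (a q)).trans (E.P q hq), fun ω' a1 a2 => let ⟨b1, b2, b3⟩ := E.om ω' a1 a2
      ⟨mem_filter.2 ⟨b1, b2 ▸ a _⟩, b2, b3⟩, fun ω' a1 => E.sj ω' (mem_filter.1 a1).1⟩
    (k + 1) M.gp.lt.le le_rfl
  simp only [Fy.Em, Fy.cut, show ∀ s : κ₂ → ℂ, cutS univ s = s from
    fun s => funext fun _ => if_pos (mem_univ _)] at e
  exact H.ins_can h t hp (Wx.inj_A ω) hω rfl e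

/-- the merging -/
theorem merge {r : γ → ℝ} (r0 : ∀ q, 0 < r q ∧ r q ≤ ρ q)
    (hw : ∀ y, ∑ ω ∈ T.Om.filter (y ∈ T.X0 ·), ‖w₂ ω‖ * r (T.cl ω) ≤ Wt)
    (sm : G.Q k ^ 330 * (G.cM k c C * Wt) ≤ σ ^ Fintype.card κ₂) : ∃ Y : Fy γ,
    G.Fd k (G.zz b J k) univ r r (G.Q k ^ 329)⁻¹ Y
      (fun s => G.tt (pr b (G.N J) (T.X (S.X (G.N J) w) w₂) s) J k) ∧ Y.bs = (G.zz b J k).d ∧
      Y.Ec univ id ∧ (Y.Z = fun q => G.zs (T.W q) J k) ∧ ∀ q, Y.jt {q} =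
        G.tn b J (G.u1 b J k₁ S w (.inr q)) k₁ k +
          (0, ∑ ω ∈ T.Om.filter (T.cl · = q), w₂ ω • G.nI b J k₁ k S w T ω) := by
  obtain ⟨_, H⟩ := M.mh h t hp
  have σ0 := pow_pos M.pos (Fintype.card κ₂)
  have kJ : k + 1 ≤ J := (M.gp.lt.trans M.lt).le
  have p2 : ∀ x : Ω₂ × κ₂ ⊕ γ, 0 < x.elim (fun _ => σ) r := by
    rintro (x | x)
    exacts [M.pos, (r0 x).1]
  have le : ∀ x : Ω₂ × κ₂ ⊕ γ, x.elim (fun _ => σ) r ≤ x.elim (fun _ => σ) ρ := by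
    rintro (x | x)
    exacts [le_rfl, (r0 x).2]
  have hd := pr_hd (b := b) (gi_X (S := S) (w := w) (G.N J)) p2
  have md := h.md_tt (Wn.md (T := T) (b := b) (gi_X (S := S) (w := w) (G.N J)) w₂ p2) kJ fun N _ =>
    ⟨hd.1.imp fun _ a U => sh_cut (a U) _, fun _ hs => hd.2 _ (cut_mem hs)⟩
  obtain ⟨F, a1, a2, a3⟩ := H.merge h t hp le md (Wt := Wt / σ ^ Fintype.card κ₂) (fun y => by
    simp only [Mx.prod_A, ← sum_div]
    exact div_le_div_of_nonneg_right (hw y) σ0.le)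
    (by rwa [← mul_div_assoc, ← mul_div_assoc, div_le_one σ0])
  have e := fun q : γ => (Wx.mem_B (S := T.x)).2 ⟨q, rfl⟩
  obtain ⟨F', a4⟩ := F.pull Sum.inr_injective e
  simp only [comp_def, exz_apply Sum.inr_injective, Sum.elim_inr,
    show ∀ f, G.tt (G.tt f J (k + 1)) (k + 1) k = G.tt f J k from
      fun _ => dw_dw _ _ kJ k k.le_succ] at F'
  refine ⟨_, F', ?_, a4 a2, rfl, fun q => ?_⟩
  · simpa only [Fy.bs, Fy.pull, exz_zero] using a1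
  · rw [pull_jt Sum.inr_injective, a3 _ (e q), M.jt h t hp (mem_union_right _ (e q))]
    exact congrArg₂ (· + ·) (dw_dw _ _ M.gp.lt.le k k.le_succ) (Prod.ext rfl (sum_congr
      (filter_congr fun _ _ => Sum.inr_injective.eq_iff) fun _ _ => rfl))

/-- the majorants of the insertions -/
theorem km : ∃ kI : Ω₂ → Mj, (∀ ω ∈ T.Om, KM (G.p k) (G.N k) (kI ω) (G.nI b J k₁ k S w T ω)) ∧
    (∀ ω X c, 0 ≤ kI ω X c ∧ (kI ω X c ≠ 0 → T.X0 ω ⊆ X)) ∧ ∀ (v : Ω₂ → ℝ) Wt, (∀ ω, 0 ≤ v ω) →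
      0 < Wt → (∀ y, ∑ ω ∈ T.Om.filter (y ∈ T.X0 ·), v ω ≤ Wt) →
      kN ((G.p k).ad (1 / 3)) (G.N k) (fun X c => ∑ ω ∈ T.Om, v ω * kI ω X c)
        (4 * (G.cM k c C * (Wt / σ ^ Fintype.card κ₂))) := by
  obtain ⟨_, H⟩ := M.mh h t hp
  obtain ⟨kI, a1, a2, a3⟩ := H.ins_km h t hp
  have σ0 := pow_pos M.pos (Fintype.card κ₂)
  refine ⟨kI, a1, a2, fun v Wt v0 W0 hv => a3 v _ v0 (div_pos W0 σ0) fun y => ?_⟩
  simp only [Mx.prod_A, ← sum_div]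
  exact div_le_div_of_nonneg_right (hv y) σ0.le

/-- one majorant for all the coefficients with a given bound -/
theorem core {v : Ω₂ → ℝ} (v0 : ∀ ω, 0 ≤ v ω) (hw : ∀ y, ∑ ω ∈ T.Om.filter (y ∈ T.X0 ·), v ω ≤ Wt)
    (W0 : 0 < Wt) (hy : 4 * G.cM k c C * Wt * G.Q k ^ 280 * G.bb k ≤ y * σ ^ Fintype.card κ₂) :
    ∃ k', kN ((G.p k).ad (1 / 3)) (G.N k) k' ((G.Q k ^ 280)⁻¹ * y * G.g k ^ 2) ∧
      ∀ (u : Ω₂ → Finset St → ℂ) (B : Finset St → ℝ),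
        (∀ ω ∈ T.Om, ∀ X, T.X0 ω ⊆ X → ‖u ω X‖ ≤ B X * v ω) → KM (G.p k) (G.N k)
          (fun X c => B X * k' X c) fun X => (∑ ω ∈ T.Om, u ω X • G.nI b J k₁ k S w T ω) X := by
  obtain ⟨kI, k1, k2, k3⟩ := M.km h t hp
  have s0 := pow_pos M.pos (Fintype.card κ₂)
  have q := pow_pos (h.Q0 k) 280
  refine ⟨_, (k3 v Wt v0 W0 hw).mono ?_, fun u B e => ?_⟩
  · rw [← mul_div_assoc, ← mul_div_assoc, div_le_iff₀ s0, mul_assoc, mul_assoc, le_inv_mul_iff₀ q]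
    linear_combination G.g k ^ 2 * hy - 4 * G.cM k c C * Wt * G.Q k ^ 280 * h.bg k
  · have a := fun X => km_sum fun ω hω => (k1 ω hω).smul (u ω X)
    refine ⟨fun X => (a X).meas X, fun X => (a X).per X, fun X => (a X).dep X,
      fun X => (a X).gi X, fun X c U hU => ((a X).bd X c U hU).trans
        (mul_le_mul_of_nonneg_right ?_ (exp_pos _).le)⟩
    rw [mul_sum]
    refine sum_le_sum fun ω hω => ?_
    by_cases e0 : kI ω X c = 0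
    · simp [e0]
    · rw [← mul_assoc]
      exact mul_le_mul_of_nonneg_right (e ω hω X ((k2 ω X c).2 e0)) (k2 ω X c).1

/-- the size of a sum of insertions -/
theorem sz (hw : ∀ y, ∑ ω ∈ T.Om.filter (y ∈ T.X0 ·), ‖w₂ ω‖ ≤ Wt) (W0 : 0 < Wt) (x0 : 0 ≤ x)
    (hy : 4 * G.cM k c C * Wt * G.Q k ^ 280 * G.bb k ≤ y * σ ^ Fintype.card κ₂) :
    G.Sz k x y (G.Q k ^ 280)⁻¹ 0 (∑ ω ∈ T.Om, w₂ ω • G.nI b J k₁ k S w T ω) := by
  obtain ⟨k', a1, a2⟩ := M.core h t hp (fun _ => norm_nonneg _) hw W0 hy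
  exact ⟨(Mx.pm0 h a1).2 x0, k',
    (a2 (fun ω _ => w₂ ω) 1 fun _ _ _ _ => (one_mul _).ge).mono fun _ _ => (one_mul _).le,
    ad_zero (G.p k) ▸ kN_drop a1 (by norm_num)⟩

/-- slowly varying weights -/
theorem slow {φ : Ω₂ → ℂ} {f : St → ℂ} (hw : ∀ y, ∑ ω ∈ T.Om.filter (y ∈ T.X0 ·), ‖w₂ ω‖ ≤ Wt)
    (W0 : 0 < Wt) (x0 : 0 ≤ x) (α0 : 0 < α) (hL : LipT (G.N k) α f)
    (hφ : ∀ ω ∈ T.Om, ∃ z ∈ T.X0 ω, ‖φ ω - f z‖ ≤ α * G.Q k)
    (hy : 4 * G.cM k c C * Wt * α * G.Q k ^ 282 * G.bb k ≤ E * σ ^ Fintype.card κ₂) :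
    G.Sz k x E (G.Q k ^ 280)⁻¹ 0 (∑ ω ∈ T.Om, (φ ω * w₂ ω) • G.nI b J k₁ k S w T ω -
      mA f (∑ ω ∈ T.Om, w₂ ω • G.nI b J k₁ k S w T ω)) := by
  have q := h.Q0 k
  have D := (h.ps0 k).D
  obtain ⟨k', a1, a2⟩ := M.core h t hp (y := E / (α * G.Q k ^ 2)) (fun _ => norm_nonneg _) hw W0 (by
    rw [div_mul_eq_mul_div, le_div_iff₀ (by positivity)]
    linear_combination hy)
  have a3 := (kN_ad a1 (w := fun X _ => α * G.Q k + α * ((tau (G.N k) (G.p k).D X + 2) * (G.p k).D))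
    (C := α * G.Q k ^ 2) (fun _ _ => by positivity) (fun o _ => ?_) (by positivity)).mono
    (le_of_eq (b := (G.Q k ^ 280)⁻¹ * E * G.g k ^ 2) (by field_simp))
  · refine ⟨(Mx.pm0 h a3).2 x0, _, ?_, a3⟩
    convert a2 (fun ω X => (φ ω - f (px X)) * w₂ ω) _ fun ω hω X e => ?_ using 2 with X
    · simp only [mA, Pi.sub_apply, Finset.sum_apply, smul_sum, ← sum_sub_distrib, Pi.smul_apply,
        smul_smul, sub_mul, sub_smul]
    · obtain ⟨z, z1, z2⟩ := hφ ω hω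
      rw [norm_mul]
      refine mul_le_mul_of_nonneg_right ((norm_sub_le_norm_sub_add_norm_sub _ _ _).trans
        (add_le_add z2 ?_)) (norm_nonneg _)
      exact_mod_cast hL _ _ _ (tau_diam D (e z1) (px_mem ⟨z, e z1⟩))
  · have D1 : (1 : ℝ) ≤ (G.p k).D := by exact_mod_cast D
    have e1 := add_one_le_exp (1 / 3 * (tau (G.N k) (G.p k).D o.1 : ℝ))
    have e2 := (pow_le_pow_right₀ (by linarith) (show 2 ≤ 4 by norm_num)).trans (h.DQ k)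
    have e3 : (0 : ℝ) ≤ tau (G.N k) (G.p k).D o.1 := Nat.cast_nonneg _
    rw [← mul_add, mul_assoc]
    refine mul_le_mul_of_nonneg_left (le_trans ?_ (mul_le_mul_of_nonneg_left e1 (sq_nonneg _))) α0.le
    have e4 : 3 * ((G.p k).D : ℝ) ≤ G.Q k := by nlinarith
    have e5 : G.Q k + 3 * ((G.p k).D : ℝ) ≤ G.Q k ^ 2 := by nlinarith
    nlinarith [mul_le_mul_of_nonneg_right e5 e3, mul_nonneg q.le e3]

/-- reality -/
theorem real (hF : ∀ ω, (w ω).im = 0 ∧ ∀ i, (S.a ω i).im = 0 ∧ ∀ x μ ν, (S.F ω i x μ ν).im = 0)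
    (hP : ∀ q x μ ν, (S.P q x μ ν).im = 0) (hω : ω ∈ T.Om) (ha : ∀ i, (T.a ω i).im = 0) :
    RealA (G.nI b J k₁ k S w T ω) := by
  obtain ⟨_, H⟩ := M.mh h t hp
  refine H.real h t hp (M.rl h t hp hF hP (tr_one hω) _) hω fun x hx => ?_
  obtain ⟨l, rfl⟩ := Wx.mem_A.1 hx
  exact ha l

/-- the direction of a cell represents its observable -/
theorem rt (w₂ : Ω₂ → ℂ) (q : γ) : Rt (G.sl k (G.zz b J k)) (G.zz b J k).d
    (G.tn b J (G.u1 b J k₁ S w (.inr q)) k₁ k +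
      (0, ∑ ω ∈ T.Om.filter (T.cl · = q), w₂ ω • G.nI b J k₁ k S w T ω)) (G.f b J k)
    (G.tt (fun U => wil b (G.N J) U * T.X (S.X (G.N J) w) w₂ q U) J k) := by
  obtain ⟨Wt, W0, hw⟩ : ∃ Wt, 0 < Wt ∧ ∑ ω ∈ T.Om, ‖w₂ ω‖ ≤ Wt := ⟨_, by positivity, (lt_add_one _).le⟩
  have kJ : k ≤ J := (k.lt_succ_self.trans (M.gp.lt.trans M.lt)).le
  have σ0 := pow_pos M.pos (Fintype.card κ₂)
  have c0 : 0 < G.Q k ^ 330 * (G.cM k c C * Wt) :=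
    mul_pos (pow_pos (h.Q0 k) _) (mul_pos (mul_pos (exp_pos _) (pow_pos (h.Q0 k) _)) W0)
  obtain ⟨Y, F, a1, -, -, a2⟩ := M.merge h t hp (w₂ := w₂) (r := fun q => min (ρ q)
    (σ ^ Fintype.card κ₂ / (G.Q k ^ 330 * (G.cM k c C * Wt))))
    (fun q => ⟨lt_min ((M.mh h t hp).choose_spec.pos h t hp (.inr q)) (div_pos σ0 c0), min_le_left _ _⟩)
    (fun y => (sum_le_sum fun ω _ => mul_le_mul_of_nonneg_left (min_le_right _ _) (norm_nonneg _)).trans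
        ((sum_mul _ _ _).ge.trans (mul_le_mul_of_nonneg_right ((sum_le_sum_of_subset_of_nonneg
          (filter_subset _ _) fun _ _ _ => norm_nonneg _).trans hw) (div_pos σ0 c0).le)))
    (by rw [← mul_assoc, ← mul_assoc, mul_assoc _ _ Wt, mul_div_cancel₀ _ c0.ne'])
  have u := h.rt_fd F (mem_univ q)
  have hd := pr_hd (b := b) (Wn.gi_X (T := T) (gi_X (S := S) (w := w) (G.N J)) w₂) (r := fun _ => 1)
    fun _ => one_pos
  simp only [a1, a2, jd_tt hd kJ, pr_eq, jd_ma _ (subset_univ _), prod_singleton, pr_zero,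
    mul_comm (T.X _ _ _ _)] at u
  have e := h.xf_zero (B := (∅ : Finset Unit)) (H := fun _ => 0) t.hb (Nat.zero_le _) k kJ
  simp only [xf, sum_empty, xO_zero, neg_zero, Complex.exp_zero, mul_one] at e
  rwa [e] at u

end Gl.Mn

end Pool.Agent.Lib.MP_7f377f_mp.RG.Q4.En
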