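import Pool.Agent.Lib.MP_7f377f_mp.G.TyL

/-! Smeared words: the images of slots without marginal part under the hypercubic group. -/

noncomputable section

set_option linter.unusedSectionVars false
variable [Pool.Agent.Lib.MP_7f377f_mp.GD]

namespace Pool.Agent.Lib.MP_7f377f_mp.RG.Q4.En

open Finset Filter Topology Real Sg Br YM7 Pur Ob Pos Ty

/-- small variation on flux fields -/
def Svo (n : ℕ) (x η : ℝ) (H : Conf → ℝ) : Prop :=
  ∀ ϑ, Fw n x ϑ → |H (ab ϑ) - H (ab 0)| ≤ η * (n ^ 4 * tq n x ^ 2)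

section

variable {n n' s : ℕ} {x η : ℝ} {H H' : Conf → ℝ}

theorem Svo.cf (h : Svo n x η H) (g : Gn) (e : ∀ U, Per n U → H' U = H (cf g U)) : Svo n x η H' :=
  fun ϑ a => by
    rw [e _ a.per, e _ (fx_zero (n := n)).per, ← ab_an, ← ab_an, an_zero]
    obtain ⟨F, a1, a2, a3⟩ := a
    exact h _ ⟨_, as_mt a1 g, (norm_mt g).trans a2, fx_an a3 g⟩

theorem Svo.rsp (h : Svo n x η H) (hn : n ≠ 0) (t0 : 0 < tq n x) (η0 : 0 ≤ η) (e : Pl × Pl) :
    |rsp n x e H| ≤ 2 * η := by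
  have f := fx_fp hn x
  have m : ∀ p, ‖EE p‖ ≤ 2 := fun p => (norm_EE p).trans one_le_two
  have a1 := abs_le.1 (h _ (fw_of t0 (as_EE _) (m _) (f e.1)))
  have a2 := abs_le.1 (h _ (fw_of t0 (as_EE _) (m _) (f e.2)))
  have a3 := abs_le.1 (h _ (fw_of t0 ((as_EE _).add (as_EE _)) ((norm_add_le_of_le (norm_EE _)
    (norm_EE _)).trans_eq (by norm_num)) (smul_add (tq n x) (EE e.1) _ ▸ (f e.1).add (f e.2))))
  have p : (0 : ℝ) < n ^ 4 * tq n x ^ 2 := by positivity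
  rw [En.rsp, abs_div, abs_of_pos (mul_pos two_pos p), div_le_iff₀ (mul_pos two_pos p), abs_le]
  constructor <;> linarith [mul_nonneg η0 p.le]

variable [NeZero n] [NeZero n']

theorem cont_cg (g : Gn) : Continuous (Ob.cg (n := n) g) := by
  cases g
  exacts [continuous_pi fun _ => continuous_apply _, Weak.continuous_refl _]

theorem smr_orb (hn : n = n' * s) (g : Gn) (B : Cfg n → ℝ) (U : Cfg n) :
    smr n' s (fun V => B (Ob.cg g V)) 1 U = smr n' s B 1 (Ob.cg g U) := by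
  simp only [smr, Pi.one_apply, one_mul]
  cases g with
  | inl σ =>
    rw [← (Equiv.arrowCongr σ (Equiv.refl (ZMod n'))).sum_comp
      fun x => B (Ob.cg (.inl σ) (Weak.shift (Weak.corner s x) U))]
    rfl
  | inr k =>
    rw [← Equiv.sum_comp (Function.Involutive.toPerm _ (Weak.rf_rf k))
      fun x : Weak.Site 4 n' => B (Ob.cg (.inr k) (Weak.shift (Weak.corner s x) U))]
    simp only [Ob.cg, Weak.shift_refl, Function.Involutive.coe_toPerm, Lg.LgST.corner_rf hn]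

end

namespace Gl

/-- the action of a product of generators -/
def acL (L : List Gn) (A : Pol) : Pol := L.foldr (fun g A => Ro.act (Cm.gi g) A) A

section

variable {G : Gl} {b a C N μ x y : ℝ} {J k l n' s c : ℕ} [NeZero (G.N J)] [NeZero n'] {P : Grd}
  {κ : Type} [Fintype κ] [DecidableEq κ] [Inhabited κ] {B B₀ : Cfg (G.N J) → ℝ} {T : Ty}
  {E : List (Pl × Pl)}

/-- the sum over the grid has a small marginal part -/
def Sbo (G : Gl) (b : ℝ) (J : ℕ) [NeZero (G.N J)] (n' s : ℕ) [NeZero n'] (x : ℝ)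
    (B : Cfg (G.N J) → ℝ) : Prop := Continuous B ∧ Svo (G.N 0) (G.g 0 / G.Q 0 ^ 14) x (lg (G.f b J 0)
      (G.tt (fun U => wil b (G.N J) U * smr n' s B 1 (Fi.rs (G.N J) U)) J 0))

variable (h : G.Ok) (t : G.Tu b J)
include h t

theorem Ok.tw_sv {d : Lx × Ac} {f' : Conf → ℂ} (hk : k ≤ J) (a : G.Tx b J k x y d f') :
    0 < tq (G.N k) (G.g k / G.Q k ^ 14) ∧
      Svo (G.N k) (G.g k / G.Q k ^ 14) (5 * (x + y)) (lg (G.f b J k) f') := by
  have g := t.gd k hk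
  have Q0 := h.Q0 k
  obtain ⟨x0, y0⟩ := h.tn_nn a
  have P2 : (G.Q k ^ 14) ^ 2 ≤ (G.sl k (G.zz b J k)).β :=
    (pow_mul _ _ _).ge.trans ((pow_le_pow_right₀ (h.Q1 k) (by norm_num)).trans (h.Qb k))
  have t0 := ((h.lf g.tz).tq_bd (P := G.Q k ^ 14) (le_self_pow₀ (h.Q1 k) (by norm_num)) P2).1
  obtain ⟨q, c, -, a2, a3⟩ := (h.lf g.tz).fd0 (b := (G.zz b J k).d) (P := G.Q k ^ 14)
    (h.sz_sl g.dt.sz _) (h.sz_sl a.sz _) (h.re_sl a.re _) a.rt (h.f_ne t k _)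
    (h.u_g k (by linarith [h.u_one k])) (h.hy_sg k) (h.hy_sg k)
    (h.om_one (h.om_mono k (by norm_num))) le_rfl P2
  rw [h.sl_nf] at t0 a3
  refine ⟨t0, fun ϑ ⟨F, c1, c2, c3⟩ => ?_⟩
  have e : 10 * (G.Q k ^ 14) ^ 2 * (G.Q k ^ 280)⁻¹ ≤ 1 := by
    rw [show 10 * (G.Q k ^ 14) ^ 2 * (G.Q k ^ 280)⁻¹ = 10 * (G.Q k ^ 252)⁻¹ by field_simp]
    linarith [h.inv_c k (j := 252) (by norm_num), inv_pos.2 (pow_pos Q0 252)]
  have b0 := a3 0 0 (fun _ _ => by simp) (by rw [norm_zero]; positivity) fx_zero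
  have b1 := a3 F ϑ c1 c2 c3
  have b2 := (a.sz.1 0).1.cb _ _ _ _ ((cv_pt c1 0).mono le_rfl c2) ((cv_pt c1 0).mono le_rfl c2)
  rw [a2 _ _ c1 c1, Complex.norm_real, norm_eq_abs] at b2
  simp only [map_zero, mul_zero, add_zero] at b0
  change 0 < tq _ (G.g k / _) at t0
  change _ ≤ _ * tq _ (G.g k / _) ^ 2 * _ at b0 b1
  generalize tq (G.N k) (G.g k / G.Q k ^ 14) = τ at *
  have n0 : (0 : ℝ) ≤ G.N k ^ 4 := by positivity
  have b3 := mul_le_mul_of_nonneg_left b2 n0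
  rw [← abs_of_nonneg n0, ← abs_mul, abs_of_nonneg n0] at b3
  have b4 := mul_le_mul_of_nonneg_right e (show 0 ≤ (x + y) * τ ^ 2 * G.N k ^ 4 by positivity)
  have b5 : 0 ≤ y * τ ^ 2 * G.N k ^ 4 := by positivity
  rw [abs_le] at *
  constructor <;> linarith [b0.1, b0.2, b1.1, b1.2, b3.1, b3.2]

theorem Ok.sb_cg (hn : G.N J = n' * s) (S : G.Sbo b J n' s x B) (g : Gn) :
    G.Sbo b J n' s x fun U => B (Ob.cg g U) := by
  refine ⟨S.1.comp (cont_cg g), S.2.cf g fun W hW => ?_⟩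
  have m := (bc_ob (b := b) (O := smr n' s B 1) (continuous_finsetSum _ fun _ _ =>
    (S.1.comp (Weak.continuous_shift _)).const_mul _)).1
  have e : ∀ {f'}, Measurable f' → G.tt f' J 0 (cf g W) = G.tt (fun U => f' (cf g U)) J 0 W :=
    fun hf => by
      rcases g with g | g
      exacts [h.tt_pm hf J.zero_le hW g, h.tt_rfl hf J.zero_le hW g]
  rw [lg, lg, sym_cf ((h.f_facts J 0).1 b t.b0).2.1 g hW, e m, h.tt_congr (fun U hU => ?_)
    J.zero_le W hW]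
  rw [wil_cg (h.N_odd J) hU, rs_cf hU, smr_orb hn]

omit t in
theorem Ok.cP_grow (hl : l ≤ k) : 1.01 ^ l * G.cP 0 k ≤ G.cP l k := by
  rw [cP, ← prod_Ico_consecutive _ l.zero_le hl, ← mul_assoc]
  refine mul_le_of_le_one_left (h.cP0 l k).le ?_
  have : (1.01 : ℝ) ^ l = ∏ _ ∈ Ico 0 l, 1.01 := by simp
  rw [this, ← prod_mul_distrib]
  exact prod_le_one (fun n _ => by linarith [h.cr0 n]) fun n _ => by linarith [h.cr1 n]

theorem Ok.ds_orb (hp : G.Pu) (K : G.Gk J k n' P κ a c C)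
    (H : G.Rw b J k P κ a c C B₀ N) (hD : Det T E)
    (s : ∀ g ∈ T, ∀ U, B₀ (Ob.cg g.1 U) = sb g.2 * B₀ U)
    (z : ∀ e ∈ E, G.ms b J e (smr n' P.s B₀ 1) = 0) (L : List Gn)
    (e : ∀ U, B U = B₀ (L.foldl (fun V g => Ob.cg g V) U))
    (HB : ∀ L : List (Fin 4), G.Rw b J k P κ a c C (fun U => B (L.foldr Weak.refl U)) N)
    (hμ : |μ| * G.cP (l + 1) k * N * G.Q k ^ 8 ≤ 1) :
    G.Ds b J k l n' P κ a c C (fun U => μ * B U) 0 := fun L' => by
  have : (Fi.tr haar).IsHaarMeasure := (inferInstance : haar.IsHaarMeasure)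
  obtain ⟨α₀, _, Λ₀, W₀, hN₀, e₀⟩ := H
  obtain rfl : Λ₀.ob (Fi.tr haar) b = B₀ := funext e₀
  obtain ⟨m1, m2⟩ := h.sgn_smr (b := b) K (cont_wob Λ₀) s
  have N0 := hN₀.1
  have p0 := mul_pos (h.cP0 0 k) N0
  obtain ⟨t0, s0⟩ := h.tw_sv t J.zero_le (h.tn_mono (x' := G.cP 0 k * N) (y' := G.cP 0 k * N)
    (h.kill t hp hD K.lt.le k.zero_le (h.tx_g t hp K W₀ hN₀) N0 m1.1 m2 le_rfl (fun e he => by
      rw [tt_tt K.lt.le _ k.zero_le]
      exact (congrArg abs (z e he)).trans_le abs_zero.le) le_rfl k.zero_le) (h.om0 _).le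
    (by linarith) (by simp))
  rw [tt_tt K.lt.le _ k.zero_le] at s0
  generalize hx : 5 * (G.cP 0 k * N + G.cP 0 k * N) = x at s0
  have s1 : G.Sbo b J n' P.s x B := by
    obtain rfl := funext e
    clear e HB
    induction L with
    | nil => exact ⟨cont_wob Λ₀, s0⟩
    | cons g L ih => exact h.sb_cg t K.hn ih g
  have s2 : G.Sbo b J n' P.s x fun U => B (L'.foldr Weak.refl U) := by
    clear e HB
    induction L' generalizing B with
    | nil => exact s1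
    | cons g L ih => exact ih (h.sb_cg t K.hn s1 (.inr g))
  obtain ⟨α, i, Λ, W, hN, e⟩ := HB L'
  rw [← funext e] at s2
  have Q1 := h.Q1 k
  have x0 : 0 ≤ x := by linarith
  refine ⟨α, i, Λ, μ, W, .inl ⟨G.Q k * N, 0, ⟨by positivity, hN.2.trans (mul_le_mul_of_nonneg_right
    (le_mul_of_one_le_left N0.le Q1) (pow_pos (h.sg0 _) _).le)⟩, by rw [abs_zero]; positivity,
    (mul_zero _).symm, hμ.trans_eq' (by ring), fun m hm => ?_⟩, fun U => congrArg _ (e U).symm⟩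
  rw [Complex.ofReal_zero, zero_smul, sub_zero]
  have c1 := mul_le_mul_of_nonneg_right (h.cP_grow hm) N0.le
  have p := mul_pos (h.cP0 m k) N0
  have c2 := mul_le_mul_of_nonneg_right (h.cQ k (C := 10 ^ 5) (by norm_num)) p.le
  refine (h.tn_mono (h.kill t hp det21 K.lt.le k.zero_le (h.tx_g t hp K W hN) N0
    (h.sgn_smr (b := b) (T := []) K s2.1 (by simp)).1.1 (fun _ e => by simp at e) (c := 2 * x)
    (by positivity) (fun e _ => ?_) m.zero_le hm) (h.om0 _).le ?_ ?_).sz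
  · rw [tt_tt K.lt.le _ k.zero_le]
    exact s2.2.rsp (h.N_odd 0).pos.ne' t0 x0 e
  all_goals
    rw [← hx, Nat.sub_zero]
    linarith

end

theorem evr_acL {n : ℕ} [NeZero n] (hn : Odd n) (b a : ℝ) (A : Pol) (L : List Gn) : ∀ U,
    evr (Fi.tr haar) b n a (acL L A) U =
      evr (Fi.tr haar) b n a A (L.foldl (fun V g => Ob.cg g V) U) := by
  have : (Fi.tr haar).IsHaarMeasure := (inferInstance : haar.IsHaarMeasure)
  induction L with
  | nil => exact fun _ => rfl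
  | cons g L ih => exact fun U => (evr_cg hn g U).symm.trans (ih _)

theorem wb_acL {m : ℕ} {Λ δ d W : ℝ} {A : Pol} (H : Wb m Λ δ d W A) (L : List Gn) :
    Wb m Λ δ d W (acL L A) := by
  induction L with
  | nil => exact H
  | cons g L ih => exact ih.act g

theorem Lm.slt_orb {G : Gl} {β : ℕ × ℕ → ℝ} {U : Ultrafilter (ℕ × ℕ)} {S : Pol →ₗ[ℂ] ℂ}
    {k l e m : ℕ} {w : Wp} {d η W c c' : ℝ} {A A' : Pol} {T : Ty} {E : List (Pl × Pl)}
    (o : G.Lm β U S) (M : G.Mrg k w d) (he : G.e k ≤ e) (m1 : 1 ≤ m) (m2 : m ≤ w.M + 1) (W0 : 0 < W)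
    (H : Wb m w.Λ w.δ d (W * ((3 ^ e)⁻¹ / d) ^ 4) A)
    (H' : Wb m w.Λ w.δ d (W * ((3 ^ e)⁻¹ / d) ^ 4) A') (hD : Det T E) (s : Cm.Typ T A)
    (s' : Cm.Typ T A') (z : G.Kp e β U E A A' c c') (L : List Gn)
    (hη : G.cP (l + 1) k * (W * G.nw k w m) * G.Q k ^ 8 ≤ η) :
    G.Slt k l w d e β U ((c : ℂ) • acL L A + (c' : ℂ) • acL L A') 0 η := by
  have _ := he
  have : (Fi.tr haar).IsHaarMeasure := (inferInstance : haar.IsHaarMeasure)
  have η0 : 0 < η := (mul_pos (mul_pos ((o.ok 0).1.cP0 _ _) (mul_pos W0 (o.nw0 m)))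
    (pow_pos ((o.ok 0).1.Q0 k) _)).trans_le hη
  obtain ⟨γ, γ', t, t', z⟩ := z
  have d0 := M.1
  have u := (wb_acL H L).mem d0
  have u' := (wb_acL H' L).mem d0
  refine ⟨η0, fun p => (γ p : ℂ) • acL L A + (γ' p : ℂ) • acL L A', fun _ => 0,
    .add (.smul ((Complex.continuous_ofReal.tendsto _).comp t) (.base u.1))
      (.smul ((Complex.continuous_ofReal.tendsto _).comp t') (.base u'.1)),
    fun _ => (u.2.smul _).add (u'.2.smul _), tendsto_const_nhds, .of_forall fun p P hP => ?_⟩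
  rw [mul_zero]
  have n := (o.ok p.1).1.N_odd p.2
  have v : ∀ {A A'}, Wb m w.Λ w.δ d (W * ((3 ^ e)⁻¹ / d) ^ 4) A →
      Wb m w.Λ w.δ d (W * ((3 ^ e)⁻¹ / d) ^ 4) A' →
      Wb m w.Λ w.δ d (W * ((3 ^ e)⁻¹ / d) ^ 4) ((γ p : ℂ) • A + (γ' p : ℂ) • A') := fun H H' =>
    ((H.smul _).add (H'.smul _)).le (by
      rw [← add_mul]
      exact mul_le_of_le_one_left (by positivity) (z p).1)
  refine (o.ok p.1).1.ds_orb (o.tu p) (o.ok p.1).2 hP.gk (hP.rep m _ W m1 m2 W0 (v H H')) hD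
    (evr_typ n (typ_lin s s' _ _)) (fun x hx => ?_) L (fun V => ?_) (fun L' => ?_) (inv_le η0 hη)
  · rw [hP.hs]
    exact (z p).2 x hx
  · rw [evr_lin, evr_lin, evr_acL n, evr_acL n]
  · obtain ⟨A', H', u⟩ := (v (wb_acL H L) (wb_acL H' L)).fold (h := Fi.tr haar) (b := β p)
      (a := G.aa p) n L'
    exact u ▸ hP.rep m A' W m1 m2 W0 H'

end Gl

end Pool.Agent.Lib.MP_7f377f_mp.RG.Q4.En
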