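import Pool.Agent.Lib.MP_7f377f_mp.G.NsR
import Pool.Agent.Lib.MP_7f377f_mp.G.TyO

/-! Abstract classes of words: the flow of separated slots. -/

noncomputable section

set_option linter.unusedSectionVars false
variable [Pool.Agent.Lib.MP_7f377f_mp.GD]

namespace Pool.Agent.Lib.MP_7f377f_mp.RG.Q4.En.Gl

open Finset Real Sg Br YM7 Ob Pos Ty Mg
open Weak (Site corner)
open scoped Classical

/-- observables with their insertions and sizes -/
abbrev Wc (n : ℕ) : Type := (Cfg n → ℝ) → ((Site 4 n → ℝ) → Ac) → ℝ → Prop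

variable (G : Gl) (b : ℝ) (J k l : ℕ) [NeZero (G.N J)] (n' s : ℕ) [NeZero n']

/-- the direction of a slot at the level of the merging -/
def uk (I : (Site 4 (G.N J) → ℝ) → Ac) (μ ν : ℝ) (φ : Site 4 (G.N J) → ℝ) : Lx × Ac :=
  G.tv (symF (sy fun x => -(ν * φ x))) b J k + (0, I fun x => μ * φ x)

/-- classes of words merged at the level `k` -/
structure Am (ρ : ℕ) (a : ℝ) (R : Wc (G.N J)) : Prop where
  lt : k < J
  hn : G.N J = n' * s
  ex : ∃ B I N, R B I N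
  pos : ∀ {B I N}, R B I N → 0 < N ∧ I 0 = 0 ∧ Continuous B ∧ Dl ρ B
  tx : ∀ {B I N}, R B I N → G.Tx b J k N N (0, I 1)
    (G.tt (fun U => wil b (G.N J) U * smr n' s B 1 (Fi.rs (G.N J) U)) J k)
  slow : ∀ {B I N}, R B I N → ∀ (φ : Site 4 (G.N J) → ℝ) (α : ℝ), 0 < α →
    LipT (G.N J) α (fun y => (φ (Fi.cst _ y) : ℂ)) →
    G.Sz k 0 (G.Q k ^ 2 * (G.rt J k * α) * N) (G.Q k ^ 280)⁻¹ 0
      (I φ - mA (G.fd J k fun y => (φ (Fi.cst _ y) : ℂ)) (I 1))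
  arr : ∀ (γ : Type) [Fintype γ] [DecidableEq γ] (B : γ → Cfg (G.N J) → ℝ)
    (I : γ → (Site 4 (G.N J) → ℝ) → Ac) (N μ ν r : γ → ℝ) (φ : γ → Site 4 (G.N J) → ℝ) (l : ℕ),
    l < k → (∀ q, R (B q) (I q) (N q) ∧ Lqq a (φ q) ∧ 0 < r q ∧ r q * |ν q| ≤ G.sg l ∧
      |μ q| * r q * N q * G.Q k ^ 7 ≤ G.sg l) →
    Cls (G.N J) (G.dl J l) univ id (fun q => sup (fat ρ (φ q))) → ∃ (X : γ → Conf → ℂ) (Y : Fy γ),
      Xo (G.N J) X (fun q => ltr n' s (B q) (μ q) (ν q) (φ q)) ∧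
      G.Fd k (G.zz b J k) univ r r (G.Q k ^ 329)⁻¹ Y (fun s => G.tt (pr b (G.N J) X s) J k) ∧
      Y.bs = (G.zz b J k).d ∧ Y.Ec univ id ∧ (Y.Z = fun q => G.zs (sup (fat ρ (φ q))) J k) ∧
      ∀ q, Y.jt {q} = G.uk b J k (I q) (μ q) (ν q) (φ q)

/-- the three kinds of slots: without marginal part, arbitrary words, fields -/
def Dw (K : Ac) (N μ ν : ℝ) : Prop :=
  (∃ N', N ≤ N' ∧ ν = 0 ∧ |μ| * G.cP (l + 1) k * N' * G.Q k ^ 7 ≤ 1 ∧
    ∀ m ≤ k, G.Sz m (G.cP m k * N') (G.cP m k * N') (G.Q m ^ 280)⁻¹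
      (G.tc b J k (0, K) m).1 (G.tc b J k (0, K) m).2) ∨
  (ν = 0 ∧ |μ| * 1.01 ^ (k - l) * N * G.Q k ^ 7 ≤ 1) ∨ (μ = 0 ∧ |ν| ≤ 1)

/-- admissible slots, together with their mirror images -/
def Dk (R : Wc (G.N J)) (B : Cfg (G.N J) → ℝ) (ν : ℝ) : Prop := ∀ L : List (Fin 4),
  ∃ B₀ I N μ, R B₀ I N ∧ G.Dw b J k l (I 1) N μ ν ∧ ∀ U, B (L.foldr Weak.refl U) = μ * B₀ U

variable {G b J k l n' s} {a a' N A μ ν τ : ℝ} {ρ : ℕ} {R : Wc (G.N J)} {B B₀ : Cfg (G.N J) → ℝ}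
  {I : (Site 4 (G.N J) → ℝ) → Ac} {φ : Site 4 (G.N J) → ℝ} {T : Ty} {E : List (Pl × Pl)}

/-- the flow with growing radii -/
theorem Ok.sl_of9 {γ : Type} [Fintype γ] [DecidableEq γ] (h : G.Ok) (t : G.Tu b J) (hp : G.Pu)
    (kJ : k ≤ J) {X : γ → Conf → ℂ} {Y : Fy γ} {W : γ → Finset St} {r : ℕ → γ → ℝ} {m : ℕ → ℕ}
    (a1 : G.Fd k (G.zz b J k) univ (r k) (r k) (G.Q k ^ 329)⁻¹ Y
      fun s => G.tt (pr b (G.N J) X s) J k) (a2 : Y.bs = (G.zz b J k).d) (a3 : Y.Ec univ id)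
    (a4 : Y.Z = fun q => G.zs (W q) J k) (hl : l ≤ k)
    (sz : ∀ j, l ≤ j → j ≤ k → ∀ q, ∃ N, G.Q j ^ 223 * (r j q * N) ≤ G.bb j ∧
      G.Sz j N N (G.Q j ^ 100)⁻¹ (G.tn b J (Y.jt {q}) k j).1 (G.tn b J (Y.jt {q}) k j).2)
    (rad : ∀ j, l ≤ j → j ≤ k → 1 ≤ m j ∧ 40 * (m j : ℝ) ≤ G.Q j ∧
      Cls (G.N j) ((m j + 2) * (G.p j).D) univ id (fun q => G.zs (W q) J j) ∧
      ∀ q, 0 < r j q ∧ (j < k → r j q ≤ m j * r (j + 1) q))
    (bot : ∀ q, τ ≤ r l q ∧ G.Sz l N N (G.Q l ^ 100)⁻¹ (G.tn b J (Y.jt {q}) k l).1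
      (G.tn b J (Y.jt {q}) k l).2) (τ0 : 0 < τ) (N0 : 0 ≤ N)
    (hN : G.Q l ^ 273 * (τ * N) ≤ G.bb l) : G.Sl b J l X τ W := by
  have ne := nonempty_Icc.2 hl
  have e : ∀ j, l ≤ j → j ≤ k → ∀ q, (Icc l k).inf' ne (r · q) ≤ r j q :=
    fun j a a' q => inf'_le _ (mem_Icc.2 ⟨a, a'⟩)
  have p : ∀ q, 0 < (Icc l k).inf' ne (r · q) := fun q => (lt_inf'_iff _).2 fun j hj =>
    ((rad j (mem_Icc.1 hj).1 (mem_Icc.1 hj).2).2.2.2 q).1
  have s : ∀ {f}, HD (r k) f → HD (fun q => (Icc l k).inf' ne (r · q)) f := fun a =>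
    have e := e k hl le_rfl
    ⟨a.1.imp fun _ a U => (a U).shrink p e, fun s hs => a.2 s fun q => (hs q).trans_le (e q)⟩
  obtain ⟨c1, c2, c3, c4, -⟩ := h.chainG t hp kJ (l := l) (r := r) (m := m) (Y := Y)
    ⟨fun j a a' q _ => sz j a a' q, fun j a a' => by
      simpa only [a4, zs_zs kJ a'] using (rad j a a').2.2.1, fun j a a' => ⟨(rad j a a').1,
      (rad j a a').2.1, fun q => ⟨e j a a' q, ((rad j a a').2.2.2 q).2⟩⟩⟩
    ⟨a1.fi, a1.ma, s a1.eq.fst,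
      s a1.eq.snd, a1.eq.eq⟩ a2 a3 l hl le_rfl
  simp only [show ∀ f, G.tt (G.tt f J k) k l = G.tt f J l from fun f => dw_dw _ _ kJ l hl] at c1
  refine ⟨_, _, N, c1.mono (fun _ => τ0) (fun q => (bot q).1) le_rfl, c2, c4, N0, hN, fun q => ?_⟩
  rw [c3 q (mem_univ q), fw_Z l hl, a4]
  exact ⟨(bot q).2, (zs_zs kJ hl).le⟩

namespace Am

variable (M : G.Am b J k n' s ρ a R) (h : G.Ok) (t : G.Tu b J) (hp : G.Pu)
include M h t hp

omit hp in
theorem entry (H : R B I N) (hφ : Lqq a' φ) (a0 : 0 < a') (A0 : 0 < A) (hμ : |μ| ≤ A) {N' : ℝ}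
    (hN : N ≤ N') : G.Sz k (2 * G.Q k ^ 2 * (G.rt J k * (A * a' * 4)) * N')
      (2 * G.Q k ^ 2 * (G.rt J k * (A * a' * 4)) * N') (G.Q k ^ 280)⁻¹
      ((G.uk b J k I μ 0 φ).1 - mL (G.fd J k fun y => ((μ * φ (Fi.cst _ y) : ℝ) : ℂ))
        ((0, I 1) : Lx × Ac).1)
      ((G.uk b J k I μ 0 φ).2 - mA (G.fd J k fun y => ((μ * φ (Fi.cst _ y) : ℝ) : ℂ))
        ((0, I 1) : Lx × Ac).2) := by
  have N0 := (M.pos H).1
  have r0 := Ok.rt_pos (G := G) J k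
  have e : symF (sy fun x => -(0 * φ x)) = 0 := by
    funext x μ ν
    simp [symF, sy]
  have p : 0 ≤ G.Q k ^ 2 * (G.rt J k * (A * a' * 4)) := by positivity
  have := mul_le_mul_of_nonneg_left hN p
  rw [uk, e, (h.ra_zero t 1).1, zero_add]
  convert h.sz_up (M.slow H (fun x => μ * φ x) _ (by positivity)
    (Ok.lip_sy (G := G) (J := J) hφ a0 hμ).1) (h.om0 k).le (x' := 2 * G.Q k ^ 2 *
      (G.rt J k * (A * a' * 4)) * N') (y' := 2 * G.Q k ^ 2 * (G.rt J k * (A * a' * 4)) * N')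
    (by nlinarith [mul_nonneg p N0.le]) (by nlinarith [mul_nonneg p N0.le]) using 1
  funext y
  simp [mL]

/-- the size of a slot -/
theorem dv_sz (lk : l < k) (l0 : 0 < l) (a0 : 0 < a') (a1 : G.rt J l * a' ≤ 1) (H : R B I N)
    (hφ : Lqq a' φ) (hD : G.Dw b J k l (I 1) N μ ν) : ∃ z : ℕ → ℝ, (∀ m, 0 < z m) ∧ z l = 1 ∧
      z (l + 1) = 1 ∧ (∀ m, l < m → z m ≤ G.L m * z (m + 1)) ∧ z k * |ν| ≤ 1 ∧
      |μ| * z k * N * G.Q k ^ 7 ≤ 1 ∧ ∀ m, l ≤ m → m ≤ k →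
      G.Sz m (G.Q m ^ 3 / z m) (G.Q m ^ 3 / z m) (G.Q m ^ 100)⁻¹
        (G.tn b J (G.uk b J k I μ ν φ) k m).1 (G.tn b J (G.uk b J k I μ ν φ) k m).2 := by
  have kJ := M.lt.le
  have N0 := (M.pos H).1
  have q0 := h.Q0 k
  have qk := h.cQ k (C := 10 ^ 20) le_rfl
  have q7 : 13 * G.Q k ^ 2 ≤ G.Q k ^ 7 := by
    rw [show 7 = 5 + 2 from rfl, pow_add]
    exact mul_le_mul_of_nonneg_right (le_trans (by linarith) (le_self_pow₀ (h.Q1 k) (by norm_num)))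
      (by positivity)
  have r0 := Ok.rt_pos (G := G) J k
  have ra : ∀ m, l ≤ m → m ≤ k → G.rt k m * (G.rt J k * a') ≤ 1 := fun m h1 h2 => by
    rw [← mul_assoc, ← Nat.cast_mul, h.rt_mul h2 kJ]
    exact (mul_le_mul_of_nonneg_right (h.rt_anti h1 (h2.trans kJ)) a0.le).trans a1
  have L1 : ∀ m, (1 : ℝ) ≤ G.L m * 1 := fun m => by linarith [h.L1 m]
  have Q3 : ∀ m, 1 ≤ G.Q m ^ 3 := fun m => one_le_pow₀ (h.Q1 m)
  rcases hD with ⟨N', hN, rfl, hμ, hs⟩ | ⟨rfl, hμ⟩ | ⟨rfl, hν⟩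
  · have N1 := N0.trans_le hN
    have c0 := h.cP0 (l + 1) k
    obtain ⟨A, A0, A1⟩ : ∃ A, 0 < A ∧ A * (G.cP (l + 1) k * N' * G.Q k ^ 7) = 1 :=
      ⟨_, by positivity, inv_mul_cancel₀ (by positivity)⟩
    have A2 : |μ| ≤ A := le_of_mul_le_mul_right (a := G.cP (l + 1) k * N' * G.Q k ^ 7)
      (by linarith) (by positivity)
    obtain ⟨q1, q2, -⟩ := Ok.lip_sy (G := G) (J := J) hφ a0 A2
    refine ⟨G.cP (l + 1), h.cP0 _, by simp [cP], cP_top, fun m hm => ?_, by simp,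
      le_trans (by gcongr) hμ, fun m h1 h2 => ?_⟩
    · have := h.pw_cP (i := m + 1) m m.le_succ
      rw [h.rt_step m.lt_succ_self, rt_top, cP_step m.lt_succ_self, cP_top] at this
      rw [cP, cP, prod_Ico_succ_top hm]
      push_cast at this
      simp only [Nat.add_sub_cancel_left, pow_one, mul_one] at this
      nlinarith only [this, h.cP0 (l + 1) m, show ∏ n ∈ Ico (l + 1) m, 2 * G.cr n = G.cP (l + 1) m from rfl]
    · have s := h.slot t kJ N1 (j := 0) (fun m _ hm => hs m hm) (fun _ => q2 _)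
        (h.fd_lip q1 k kJ) (by positivity) (by positivity) (M.entry h t H hφ a0 A0 A2 hN) h2
        (l0.trans_le h1)
      have e : G.cP m k * (G.rt k m * (2 * G.Q k ^ 2 * (G.rt J k * (A * a' * 4)) * N' + G.Q m ^ 2 *
          (G.rt J k * (A * a' * 4)) * N') + A * N') ≤ G.Q m ^ 3 / G.cP (l + 1) m := by
        have b1 : G.cP (l + 1) m * G.cP m k ≤ G.cP (l + 1) k := by
          rcases h1.eq_or_lt with rfl | h1
          · rw [cP_step lk, show G.cP (l + 1) l = 1 by simp [cP], one_mul]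
            exact mul_le_of_le_one_left c0.le (by linarith [h.cr1 l, h.cr0 l])
          · exact (prod_Ico_consecutive _ h1 h2).le
        have b2 : G.Q m ^ 2 ≤ G.Q k ^ 2 := pow_le_pow_left₀ (h.Q0 m).le (h.Q_mono h2) _
        have b3 := ra m h1 h2
        have p : 0 ≤ G.rt k m * (G.rt J k * a') := by positivity
        have b4 : G.rt k m * (2 * G.Q k ^ 2 * (G.rt J k * (A * a' * 4)) * N' + G.Q m ^ 2 *
            (G.rt J k * (A * a' * 4)) * N') + A * N' ≤ A * N' * G.Q k ^ 7 := by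
          have : G.rt k m * (G.rt J k * a') * (8 * G.Q k ^ 2 + 4 * G.Q m ^ 2) + 1 ≤ G.Q k ^ 7 := by
            nlinarith only [mul_le_mul_of_nonneg_right b3 (show 0 ≤ 8 * G.Q k ^ 2 + 4 * G.Q m ^ 2 by
              positivity), b2, q7, one_le_pow₀ (h.Q1 k) (n := 2)]
          nlinarith only [mul_le_mul_of_nonneg_left this (show 0 ≤ A * N' by positivity)]
        rw [le_div_iff₀' (h.cP0 _ _), ← mul_assoc]
        refine le_trans (mul_le_mul b1 b4 (by positivity) c0.le) ?_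
        linarith [Q3 m]
      exact h.sz_le s (h.om0 m).le e e (h.om_100 m)
  · obtain ⟨A, A0, A1⟩ : ∃ A, 0 < A ∧ A * (1.01 ^ (k - l) * N * G.Q k ^ 7) = 1 :=
      ⟨_, by positivity, inv_mul_cancel₀ (by positivity)⟩
    have A2 : |μ| ≤ A := le_of_mul_le_mul_right (a := 1.01 ^ (k - l) * N * G.Q k ^ 7)
      (by linarith) (by positivity)
    have w1 : (1 : ℝ) ≤ 1.01 ^ (k - l) := one_le_pow₀ (by norm_num)
    obtain ⟨q1, q2, -⟩ := Ok.lip_sy (G := G) (J := J) hφ a0 A2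
    refine ⟨fun _ => 1, fun _ => one_pos, rfl, rfl, fun m _ => L1 m, by simp,
      le_trans (by gcongr) hμ, fun m h1 h2 => ?_⟩
    have g : ∀ i, l ≤ i → i ≤ k → G.Sz i (1.01 ^ (k - l) * N) (1.01 ^ (k - l) * N) (G.Q i ^ 280)⁻¹
        (G.tc b J k (0, I 1) i).1 (G.tc b J k (0, I 1) i).2 :=
      fun i i1 i2 =>
        have : 1.01 ^ (k - i) * N ≤ 1.01 ^ (k - l) * N := by gcongr; norm_num
        h.sz_up (h.tw_grow t hp kJ (M.tx H) N0 i i2).sz (h.om0 i).le this this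
    have en := M.entry h t H hφ a0 A0 A2 le_rfl
    have p : 0 ≤ 2 * G.Q k * (G.rt J k * (A * a' * 4)) * (1.01 ^ (k - l) * N) := by positivity
    have s := h.pos_sz (f := G.fd k m _) (fun _ => q2 _) (h.pos_chain (j := l) (z := G.zz b J)
      (b := fun i => (G.zz b J i).d) (ω := fun i => (G.Q i ^ 280)⁻¹)
      (E := 2 * G.Q k ^ 2 * (G.rt J k * (A * a' * 4)) * N)
      (u := G.tc b J k (0, I 1)) (v := G.tc b J k (G.uk b J k I μ 0 φ))
      (fun i _ hi => h.tw_tg t (hi.trans_le kJ)) (fun i _ hi => tc_step _ hi)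
      (fun i _ hi => tc_step _ hi) (fun i i1 i2 => g i i1.le i2) (by positivity) (fun _ => q2 _)
      (h.fd_lip q1 k kJ) (by positivity) (by positivity) (by
        rw [tc_top, tc_top]
        exact h.sz_up en (h.om0 k).le (le_add_of_nonneg_right p) (le_add_of_nonneg_right p)) m h2 h1)
      (g m h1 h2)
    have e : 1.01 ^ (k - m) * (2 * G.Q k ^ 2 * (G.rt J k * (A * a' * 4)) * N) + 2 * G.Q m *
        (G.rt k m * (G.rt J k * (A * a' * 4))) * (1.01 ^ (k - l) * N) + A * (1.01 ^ (k - l) * N) ≤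
          G.Q m ^ 3 / 1 := by
      have b3 := ra m h1 h2
      have b1 : 1.01 ^ (k - m) * (G.rt J k * a') ≤ 1 :=
        (mul_le_mul_of_nonneg_right (h.pw_rt m h2) (by positivity)).trans b3
      have b2 := h.Q_mono h2
      have b4 := h.Q0 m
      have b5 := mul_le_mul_of_nonneg_right b1 (show 0 ≤ 8 * G.Q k ^ 2 * (A * N) by positivity)
      have b6 := mul_le_mul_of_nonneg_right b3
        (show 0 ≤ 8 * G.Q m * (A * (1.01 ^ (k - l) * N)) by positivity)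
      have b7 := mul_le_mul_of_nonneg_left w1 (show 0 ≤ 8 * G.Q k ^ 2 * (A * N) by positivity)
      have b8 := mul_le_mul_of_nonneg_right (show 8 * G.Q k ^ 2 + 8 * G.Q m + 1 ≤ G.Q k ^ 7 by
        nlinarith only [q7, b2, qk]) (show 0 ≤ A * (1.01 ^ (k - l) * N) by positivity)
      linarith only [b5, b6, b7, b8, A1, Q3 m]
    exact h.sz_le s (h.om0 m).le e e (h.om_100 m)
  · obtain ⟨p1, p2, p3⟩ := Ok.lip_sy (G := G) (J := J) (ν := -ν) (x := 1) hφ a0 (by rwa [abs_neg])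
    refine ⟨fun _ => 1, fun _ => one_pos, rfl, rfl, fun m _ => L1 m, by simpa using hν,
      by simp, fun m h1 h2 => ?_⟩
    have e : G.tn b J (G.uk b J k I 0 ν φ) k m = G.tv (symF (sy fun y => -ν * φ y)) b J m := by
      simp only [uk, zero_mul, neg_mul]
      rw [show (I fun _ => 0) = 0 from (M.pos H).2.1, show ((0, 0) : Lx × Ac) = 0 from rfl, add_zero]
      exact dw_dw _ _ kJ m h2
    have q := h.cQ m (C := 10 ^ 20) le_rfl
    have b1 := h.pe_two (h2.trans kJ) (y := 1 * a') (by positivity)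
    have b2 := mul_le_mul_of_nonneg_left ((mul_le_mul_of_nonneg_right (h.rt_anti h1 (h2.trans kJ))
      a0.le).trans a1) (sq_nonneg (G.Q m))
    have b3 : G.Q m ^ 2 + 1000 ≤ G.Q m ^ 3 := by nlinarith only [q, mul_le_mul_of_nonneg_right q (sq_nonneg (G.Q m))]
    rw [e]
    exact h.sz_le (h.tv_sz' t (fun _ hk => (h.tan_main hp t hk).1.sz) p1 (by positivity) p2 p3
      (h2.trans kJ)) (sqrt_nonneg _) (by linarith) (by linarith) (h.sg_le m)

/-- the slots of a class of words -/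
theorem ks (lk : l < k) : G.Ks b J l n' s ρ a (G.Dk b J k l R) := by
  refine ⟨fun y e L => e (y :: L), fun {B ν} e => ?_, fun {B ν} e lam c a1 a2 U V a3 => ?_,
    fun γ _ _ B ν φ a' l0 a0 a1 a2 hB hφ hs => ?_⟩
  · obtain ⟨B₀, I, N, μ, H, -, z⟩ := e []
    exact (funext z : B = _) ▸ (M.pos H).2.2.1.const_mul μ
  · obtain ⟨B₀, I, N, μ, H, -, z⟩ := e []
    exact (z _).trans ((congrArg _ ((M.pos H).2.2.2 lam c a1 a2 U V a3)).trans (z _).symm)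
  choose B₀ I N μ H hD e using fun q => hB q []
  choose z z0 z1 z2 z3 z4 z5 z6 using fun q => M.dv_sz h t hp lk l0 a0 a2 (H q) (hφ q) (hD q)
  have s0 := h.sg0 l
  have kJ := M.lt.le
  have D0 : ∀ j, 0 < (G.L j : ℝ) ^ G.K0 * G.rt J j := fun j =>
    mul_pos (pow_pos (by linarith [h.L1 j]) _) (Ok.rt_pos J j)
  have d1 : 66 * ((G.L l : ℝ) ^ G.K0 * G.rt J l) ≤ G.dl J l := by exact_mod_cast Ok.dl_ge
  obtain ⟨X, Y, o, y1, y2, y3, y4, y5⟩ := M.arr γ B₀ I N μ ν (fun q => G.sg l * z q k) φ l lk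
    (fun q => ⟨H q, TG.lqq_mono (hφ q) a1, mul_pos s0 (z0 q k), by
      rw [mul_assoc]; exact mul_le_of_le_one_right s0.le (z4 q), by
      nlinarith only [mul_le_mul_of_nonneg_left (z5 q) s0.le]⟩) hs
  refine ⟨X, (congrArg (Xo _ X) (funext fun q => ltr_mul (B := B q) (e q))).mpr o, h.sl_of9 t hp kJ
    (r := fun m q => G.sg l * z q m) (m := fun j => if j = l then 1 else G.L j) (N := G.Q l ^ 3)
    y1 y2 y3 y4 lk.le (fun j j1 j2 q => ⟨_, ?_, y5 q ▸ z6 q j j1 j2⟩) (fun j j1 j2 => ?_)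
    (fun q => ⟨by rw [z1, mul_one], by simpa [z1, y5] using z6 q l le_rfl lk.le⟩)
    s0 (pow_pos (h.Q0 l) _).le ?_⟩
  · rw [mul_assoc, mul_div_cancel₀ _ (z0 q j).ne']
    exact (le_of_eq (by ring)).trans (h.sg_bb j1 (i := 226) (by norm_num))
  · split_ifs with e
    · subst e
      refine ⟨le_rfl, by simpa using h.cQ j (by norm_num), ?_, fun q => ⟨mul_pos s0 (z0 q j),
        fun _ => by simp [z1, z2]⟩⟩
      exact h.zs_cls hs (by positivity) (by norm_num; linarith) le_rfl (j2.trans kJ)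
    · have e' := lt_of_le_of_ne j1 (Ne.symm e)
      have L := h.L1 j
      refine ⟨le_trans (by norm_num) (h.L_big j), le_trans (by nlinarith) (h.LQ' j (i := 2)
        (by norm_num)), h.zs_cls hs (by positivity) (le_trans (mul_le_mul_of_nonneg_right
          (by linarith) (D0 j).le) (h.dl_le e' (j2.trans kJ))) le_rfl (j2.trans kJ),
        fun q => ⟨mul_pos s0 (z0 q j), fun _ => ?_⟩⟩
      rw [mul_left_comm]
      exact mul_le_mul_of_nonneg_left (z3 q j e') s0.le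
  · rw [sg, mul_comm (_ / _), ← mul_assoc, ← pow_add, mul_div_left_comm]
    exact mul_le_of_le_one_right (h.b0 l).le ((div_le_one (pow_pos (h.Q0 l) _)).2
      (pow_le_pow_right₀ (h.Q1 l) (by norm_num)))

omit t hp in
theorem sgn (hB : Continuous B) (e : ∀ g ∈ T, ∀ U, B (Ob.cg g.1 U) = sb g.2 * B U) :
    BC (G.tt (fun U => wil b (G.N J) U * smr n' s B 1 (Fi.rs (G.N J) U)) J k) ∧
      Sgn (G.N k) T (G.tt (fun U => wil b (G.N J) U * smr n' s B 1 (Fi.rs (G.N J) U)) J k) :=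
  have c : Continuous (smr n' s B 1) :=
    continuous_finsetSum _ fun _ _ => (hB.comp (Weak.continuous_shift _)).const_mul _
  ⟨tt_bc (bc_ob c) M.lt.le, h.sgn_tt (bc_ob c).1
    (sgn_ob (h.N_odd J) fun g hg => smr_cg M.hn g.1 (e g hg)) M.lt.le⟩

omit h t hp in
theorem dk_fld (hν : |ν| ≤ 1) : G.Dk b J k l R (fun _ => 0) ν := fun _ =>
  let ⟨B, I, N, H⟩ := M.ex
  ⟨B, I, N, 0, H, .inr (.inr ⟨rfl, hν⟩), fun _ => (zero_mul _).symm⟩

omit M h t hp in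
theorem dk_gen (H : ∀ L : List (Fin 4), ∃ I N', N' ≤ N ∧ R (fun U => B (L.foldr Weak.refl U)) I N')
    (hμ : |μ| * 1.01 ^ (k - l) * N * G.Q k ^ 7 ≤ 1) (Q0 : 0 ≤ G.Q k) :
    G.Dk b J k l R (fun U => μ * B U) 0 := fun L =>
  let ⟨I, N', e, H⟩ := H L
  ⟨_, I, N', μ, H, .inr (.inl ⟨rfl, le_trans (by gcongr) hμ⟩), fun _ => rfl⟩

/-- the images of typed words without marginal part -/
theorem dk_orb (H : ∃ I N', N' ≤ N ∧ R B₀ I N') (hD : Det T E)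
    (sg : ∀ g ∈ T, ∀ U, B₀ (Ob.cg g.1 U) = sb g.2 * B₀ U)
    (z : ∀ e ∈ E, G.ms b J e (smr n' s B₀ 1) = 0) (L : List Gn)
    (e : ∀ U, B U = B₀ (L.foldl (fun V g => Ob.cg g V) U))
    (HB : ∀ L : List (Fin 4), ∃ I N', N' ≤ N ∧ R (fun U => B (L.foldr Weak.refl U)) I N')
    (hμ : |μ| * G.cP (l + 1) k * N * G.Q k ^ 8 ≤ 1) :
    G.Dk b J k l R (fun U => μ * B U) 0 := fun L' => by
  obtain ⟨I₀, N₀, n₀, H⟩ := H
  have tx : ∀ {B I N'}, N' ≤ N → R B I N' → G.Tx b J k N N (0, I 1) _ := fun n H =>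
    h.tn_mono (M.tx H) (h.om0 _).le n n
  obtain ⟨m1, m2⟩ := M.sgn h (M.pos H).2.2.1 sg
  have N0 := (M.pos H).1.trans_le n₀
  have p0 := mul_pos (h.cP0 0 k) N0
  obtain ⟨t0, s0⟩ := h.tw_sv t J.zero_le (h.tn_mono (x' := G.cP 0 k * N) (y' := G.cP 0 k * N)
    (h.kill t hp hD M.lt.le k.zero_le (tx n₀ H) N0 m1.1 m2 le_rfl (fun e he => by
      rw [tt_tt M.lt.le _ k.zero_le]
      exact (congrArg abs (z e he)).trans_le abs_zero.le) le_rfl k.zero_le) (h.om0 _).le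
    (by linarith) (by simp))
  rw [tt_tt M.lt.le _ k.zero_le] at s0
  generalize hx : 5 * (G.cP 0 k * N + G.cP 0 k * N) = x at s0
  have s1 : G.Sbo b J n' s x B := by
    obtain rfl := funext e
    clear e HB
    induction L with
    | nil => exact ⟨(M.pos H).2.2.1, s0⟩
    | cons g L ih => exact h.sb_cg t M.hn ih g
  have s2 : G.Sbo b J n' s x fun U => B (L'.foldr Weak.refl U) := by
    clear e HB
    induction L' generalizing B with
    | nil => exact s1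
    | cons g L ih => exact ih (h.sb_cg t M.hn s1 (.inr g))
  obtain ⟨I, N', n, W⟩ := HB L'
  have Q1 := h.Q1 k
  have x0 : 0 ≤ x := by linarith
  refine ⟨_, I, N', μ, W, .inl ⟨G.Q k * N, n.trans (le_mul_of_one_le_left N0.le Q1), rfl,
    hμ.trans_eq' (by ring), fun m hm => ?_⟩, fun U => rfl⟩
  have c1 := mul_le_mul_of_nonneg_right (h.cP_grow hm) N0.le
  have p := mul_pos (h.cP0 m k) N0
  have c2 := mul_le_mul_of_nonneg_right (h.cQ k (C := 10 ^ 5) (by norm_num)) p.le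
  refine (h.tn_mono (h.kill t hp det21 M.lt.le k.zero_le (tx n W) N0
    (M.sgn h (T := []) s2.1 (by simp)).1.1 (fun _ e => by simp at e) (c := 2 * x)
    (by positivity) (fun e _ => ?_) m.zero_le hm) (h.om0 _).le ?_ ?_).sz
  · rw [tt_tt M.lt.le _ k.zero_le]
    exact s2.2.rsp (h.N_odd 0).pos.ne' t0 x0 e
  all_goals
    rw [← hx, Nat.sub_zero]
    linarith

end Am

end Pool.Agent.Lib.MP_7f377f_mp.RG.Q4.En.Gl
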