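import Pool.Agent.Lib.MP_7f377f_mp.G.NsZ
import Pool.Agent.Lib.MP_7f377f_mp.G.NsC

/-! Words of smeared slots: definitions and geometry. -/

noncomputable section

set_option linter.unusedSectionVars false
variable [Pool.Agent.Lib.MP_7f377f_mp.GD]

namespace Pool.Agent.Lib.MP_7f377f_mp.Ob

open MeasureTheory Weak Finset YM7

/-- smeared slots -/
structure Ltx (n : ℕ) (κ : Type) : Type 1 where
  α : Type
  fin : Fintype α
  Λ : Lwd n α κ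
  μ : ℝ
  ν : ℝ
  φ : Site 4 n → ℝ

attribute [instance] Ltx.fin

/-- weighted words of smeared slots -/
structure Nwd (n : ℕ) (α κ κ' : Type) : Type 1 where
  x : α → κ → Ltx n κ'
  τ : α → κ → ℝ
  w : α → ℝ

variable {n n' s lam R ρ ρ' : ℕ} [NeZero n] [NeZero n'] {α κ κ' : Type} [Fintype α] [Fintype κ]
  [Fintype κ'] {μ ν : ℝ} {φ : Site 4 n → ℝ} {B : Cfg n → ℝ}

/-- the slot with another profile -/
abbrev Ltx.wi (x : Ltx n κ) (φ : Site 4 n → ℝ) : Ltx n κ := ⟨x.α, x.fin, x.Λ, x.μ, x.ν, φ⟩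

/-- the slot at the point `v` -/
abbrev Ltx.at (x : Ltx n κ) (v : Site 4 n) : Ltx n κ := x.wi fun y => x.φ (y - v)

/-- the smeared field -/
abbrev Ltx.fld (κ : Type) (ν : ℝ) (φ : Site 4 n → ℝ) : Ltx n κ :=
  ⟨Empty, inferInstance, ⟨Empty.elim, Empty.elim, Empty.elim⟩, 0, ν, φ⟩

/-- the profiles, constants and weights -/
def Nwd.lw (V : Nwd n α κ κ') : Lwd n α κ := ⟨fun a l => (V.x a l).φ, V.τ, V.w⟩

theorem val_near {c w : Site 4 n} (hl : lam < n) {l : Fin 4} (h1 : ρ ≤ (c l).val ∧ (c l).val + ρ ≤ lam)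
    (h2 : ((w - c) l).valMinAbs.natAbs ≤ R) (e : R + ρ' ≤ ρ) :
    ρ' ≤ (w l).val ∧ (w l).val + ρ' ≤ lam := by
  have h3 : w l = ((((c l).val : ℤ) + ((w - c) l).valMinAbs).toNat : ℕ) := by
    rw [← Int.cast_natCast, Int.toNat_of_nonneg (by omega)]
    simp
  rw [h3, ZMod.val_cast_of_lt (by omega)]
  omega

theorem Dl.mono (h : Dl ρ B) (e : ρ ≤ ρ') : Dl ρ' B :=
  fun lam c a b => h lam c a fun l => by have := b l; omega

theorem dl_ltr (hB : Dl ρ' B) (hφ : Bal R 0 φ) (e : R + ρ' < ρ) : Dl ρ (ltr n' s B μ ν φ) :=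
  fun lam c hl hc U V hU => by
    rw [ltr, ltr, gfield_sy_shift, gfield_sy_shift, gfield_sy_dep hl (fun w u l => by
      have := val_near (ρ' := 1) hl (hc l) (by simpa using hφ _ u l) (by omega)
      omega) hU, smr, smr]
    refine congrArg (μ * · + _) (sum_congr rfl fun x _ => ?_)
    by_cases z : φ (corner s x) = 0
    · simp only [z, zero_mul]
    rw [shift_shift, shift_shift, hB lam _ hl (fun l => val_near hl (hc l)
      (by simpa using hφ _ z l) e.le) U V hU]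

variable [MeasurableSpace SU2] (h : Measure SU2) (b : ℝ)

theorem dl_ob [BorelSpace SU2] [h.IsHaarMeasure] [IsProbabilityMeasure h] {Λ : Lwd n α κ} (hΛ : ∀ x i y, Λ.g x i y ≠ 0 → ∀ l, (y l).valMinAbs.natAbs ≤ R)
    (e : R < ρ) : Dl ρ (Λ.ob h b) := fun lam c hl hc U V hU => by
  refine sum_congr rfl fun y _ => congrArg _ (prod_congr rfl fun i _ => ?_)
  rw [cen, cen, gfield_sy_shift, gfield_sy_shift, gfield_sy_dep hl (fun w u l => by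
    have := val_near (ρ' := 1) hl (hc l) (hΛ y i _ u l) e
    omega) hU]

variable (n' s)

/-- the observable of a slot -/
def Ltx.ob (x : Ltx n κ) : Cfg n → ℝ := ltr n' s (x.Λ.ob h b) x.μ x.ν x.φ

/-- the centring of a letter -/
def Nwd.ce (V : Nwd n α κ κ') (a : α) (l : κ) : ℝ :=
  YM7.ex h b n ((V.x a l).ob n' s h b) - V.τ a l

/-- the observable of the words -/
def Nwd.ob (V : Nwd n α κ κ') (U : Cfg n) : ℝ :=
  ∑ a, V.w a * ∏ l, ((V.x a l).ob n' s h b U - V.ce n' s h b a l)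

variable {n' s h b} [BorelSpace SU2] [h.IsHaarMeasure] [IsProbabilityMeasure h]

theorem Ltx.cont (x : Ltx n κ) : Continuous (x.ob n' s h b) := cont_ltr (cont_wob _)

theorem Nwd.cont (V : Nwd n α κ κ') : Continuous (V.ob n' s h b) :=
  continuous_finsetSum _ fun _ _ => (continuous_finsetProd _ fun _ _ =>
    (Ltx.cont _).sub continuous_const).const_mul _

theorem Ltx.ob_at (hn : n = n' * s) (x : Ltx n κ) (c : Site 4 n') (U : Cfg n) :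
    (x.at (corner s c)).ob n' s h b U = x.ob n' s h b (shift (corner s c) U) :=
  (ltr_shift hn dvd_rfl c U).symm

theorem Ltx.ob_fld (U : Cfg n) : (Ltx.fld κ ν φ).ob n' s h b U = ν * gfield (sy φ) U := by
  simp [Ltx.ob, ltr]

end Pool.Agent.Lib.MP_7f377f_mp.Ob

namespace Pool.Agent.Lib.MP_7f377f_mp.RG.Q4.En

open Finset Real Sg Br YM7 Ob Pos
open Weak (Site corner)
open scoped Classical

/-- the parameters of the two mergings -/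
structure Npx where
  k₀ : ℕ
  P₀ : Grd
  a₀ : ℝ
  c₀ : ℕ
  C₀ : ℝ
  ρ₀ : ℕ
  t : ℕ
  R' : ℕ
  j : ℕ
  a : ℝ
  c : ℕ
  C : ℝ
  R : ℕ

/-- the grid of the second merging -/
abbrev Npx.P (Θ : Npx) : Grd := ⟨Θ.P₀.s, Θ.t, Θ.R', Θ.j⟩

attribute [local irreducible] box tb tau rc

namespace Gl

variable (G : Gl) (b : ℝ) (J k : ℕ) [NeZero (G.N J)] (n' : ℕ) [NeZero n'] (Θ : Npx)
  {α κ κ' γ ι : Type} [Fintype α] [Fintype κ] [DecidableEq κ] [Inhabited κ] [Fintype κ']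
  [DecidableEq κ'] [Inhabited κ'] [Fintype ι] [DecidableEq ι] [Fintype γ] [DecidableEq γ]

/-- the words of a family of slots -/
def aux (x : ι → Ltx (G.N J) κ') : Ws ι (Σ c, Site 4 n' × (x c).α) κ' :=
  G.aw b J Θ.k₀ n' Θ.P₀ (fun c => (x c).Λ) (fun c => (x c).ν) (fun c => (x c).φ) Θ.ρ₀

/-- their weights -/
def wux (x : ι → Ltx (G.N J) κ') (ω : Σ c, Site 4 n' × (x c).α) : ℂ :=
  ((x ω.1).μ * (x ω.1).φ (corner Θ.P₀.s ω.2.1) * (x ω.1).Λ.w ω.2.2 : ℝ)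

/-- the geometry of the two mergings -/
structure Nkx (κ κ' : Type) [Fintype κ] [Fintype κ'] : Prop where
  K₀ : G.Gk J Θ.k₀ n' Θ.P₀ κ' Θ.a₀ Θ.c₀ Θ.C₀
  B₀ : G.Gb J Θ.k₀ (k + 1) Θ.P₀ Θ.a₀ Θ.c₀ Θ.a Θ.ρ₀
  K : G.Gk J k n' Θ.P κ Θ.a Θ.c Θ.C
  rad : Θ.R + Θ.ρ₀ < Θ.P.R
  big : 2 * Θ.c + 3 ≤ G.L k
  few : Fintype.card κ ≤ 7
  cen : ∃ j u m, j ≤ k + 1 ∧ G.N j = m * u ∧ 4 < m ∧ 3000 ≤ G.L j ∧
    G.dl J (k + 1) + 2 * (Θ.R + Θ.ρ₀) + 100 * (G.L j ^ G.K0 * G.rt J j) ≤ G.rt J j * u ∧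
    ((Θ.R + Θ.ρ₀ : ℕ) : ℝ) ≤ G.rt J (k + 1) * G.Q (k + 1) ^ 10 ∧ G.cZ9 j u + 1 ≤ Θ.C

/-- admissible slots -/
structure Lox (x : Ltx (G.N J) κ') : Prop where
  wk : G.Wk b J Θ.k₀ Θ.P₀ Θ.a₀ Θ.C₀ x.Λ
  dq : G.Dq b J Θ.k₀ (k + 1) n' Θ.P₀ Θ.c₀ Θ.C₀ x.Λ x.μ x.ν
  ds : G.Ds b J Θ.k₀ (k + 1) n' Θ.P₀ κ' Θ.a₀ Θ.c₀ Θ.C₀
    (fun U => x.μ * x.Λ.ob (Fi.tr haar) b U) x.ν
  lp : Lqq Θ.a x.φ

/-- admissible words of slots -/
structure Wnx (V : Nwd (G.N J) α κ κ') : Prop where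
  lo : ∀ a l, G.Lox b J k n' Θ (V.x a l)
  bal : ∀ a l, Bal Θ.R 0 (V.x a l).φ
  sep : ∀ a, Cls (G.N J) (G.dl J (k + 1)) univ id fun l => sup (fat Θ.ρ₀ (V.x a l).φ)
  tau : ∀ a l, G.sg (k + 1) * |V.τ a l| ≤ 1

variable {G b J k n' Θ} {x : Ltx (G.N J) κ'} {V : Nwd (G.N J) α κ κ'} {a a' C ν : ℝ} {l c ρ : ℕ}
  {P : Grd} {φ : Site 4 (G.N J) → ℝ}

theorem Lox.wi (H : G.Lox b J k n' Θ x) (hφ : Lqq Θ.a φ) : G.Lox b J k n' Θ (x.wi φ) :=
  ⟨H.wk, H.dq, H.ds, hφ⟩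

theorem Lox.at (H : G.Lox b J k n' Θ x) (v : Site 4 (G.N J)) : G.Lox b J k n' Θ (x.at v) :=
  H.wi (TG.lqq_sub H.lp v)

theorem wk_fld : G.Wk b J k P a C (Ltx.fld κ' ν φ).Λ :=
  ⟨fun x => x.elim, fun x => x.elim, fun x => x.elim, fun x => x.elim⟩

theorem lo_fld (hν : |ν| ≤ 1) (hφ : Lqq Θ.a φ) : G.Lox b J k n' Θ (Ltx.fld κ' ν φ) :=
  ⟨wk_fld, .inr (.inr ⟨rfl, hν⟩), by simpa using Ok.ds_fld hν, hφ⟩

/-- the slots of the first merging are a class -/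
theorem Ok.ks_ds (h : G.Ok) (t : G.Tu b J) (hp : G.Pu) (K : G.Gk J k n' P κ a c C)
    (B : G.Gb J k l P a c a' ρ) : G.Ks b J l n' P.s ρ a (G.Ds b J k l n' P κ a c C) := by
  have : (Fi.tr haar).IsHaarMeasure := (inferInstance : haar.IsHaarMeasure)
  refine ⟨fun y e L => e (y :: L), fun {B ν} e => ?_, fun {A ν} e lam c a1 a2 U V a3 => ?_,
    fun γ _ _ A ν φ a' l0 a0 a1 a2 hA hφ hs => ?_⟩
  · obtain ⟨α, _, Λ, r, -, -, z⟩ := e []
    exact (funext z : B = _) ▸ (cont_wob Λ).const_mul r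
  · obtain ⟨α, _, Λ, r, W, -, z⟩ := e []
    have := B.rad
    exact (z _).trans ((congrArg _ (dl_ob _ b W.sup (by omega) lam c a1 a2 U V a3)).trans (z _).symm)
  choose α _ Λ r W d z using fun q => hA q []
  obtain ⟨X, o, S⟩ := h.core t hp K ⟨B.lt, l0, a0, a1, a2, B.big, B.rad⟩ W hφ d hs
  exact ⟨X, (congrArg (Xo _ X) (funext fun q => ltr_mul (B := A q) (z q))).mpr o, S⟩

theorem Wnx.dl (K : G.Nkx J k n' Θ κ κ') (W : G.Wnx b J k n' Θ V) (e : Θ.P.R ≤ ρ) :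
    Dl ρ (V.ob n' Θ.P₀.s (Fi.tr haar) b) := fun lam c a1 a2 U U' a3 => by
  refine sum_congr rfl fun a _ => congrArg _ (prod_congr rfl fun l _ => congrArg (· - _) ?_)
  have : (Fi.tr haar).IsHaarMeasure := (inferInstance : haar.IsHaarMeasure)
  have := K.B₀.rad
  exact dl_ltr (dl_ob (ρ := Θ.ρ₀) (R := Θ.P₀.R) _ b (W.lo a l).wk.sup (by omega)) (W.bal a l) (K.rad.trans_le e)
    lam c a1 a2 U U' a3

namespace Ok

variable (h : G.Ok)
include h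

theorem fat_sub {w : Site 4 (G.N J)} {y : St} (e : y ∈ sup (fat ρ fun x => φ (x - w))) :
    rc (G.N J) (y - Fi.vl w) ∈ sup (fat ρ φ) := by
  obtain ⟨_, _, e⟩ := mem_sup e
  obtain ⟨v, h1, h2⟩ := fat_ne e
  refine h.mem_fat (z := Fi.vl (v - w)) (by rwa [Fi.cst_vl]) (TG.near_iff.2 fun i => ?_)
  simpa only [Fi.cst_sub, Fi.cst_vl, sub_sub_sub_cancel_right] using h2 i

theorem cls_at (W : G.Wnx b J k n' Θ V) (a : α) (w : Site 4 (G.N J)) :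
    Cls (G.N J) (G.dl J (k + 1)) univ id fun l => sup (fat Θ.ρ₀ ((V.x a l).at w).φ) :=
  fun i hi j hj e x hx y hy D u => W.sep a i hi j hj e _ (h.fat_sub hx) _ (h.fat_sub hy) D
    (nearT_rc_left.2 (nearT_rc_right.2 ((nearT_add_right (Fi.vl w)).1 (by simpa using u))))

theorem sup_at (W : G.Wnx b J k n' Θ V) (a : α) (l : κ) (w : Site 4 (G.N J)) :
    sup (fat Θ.ρ₀ ((V.x a l).at w).φ) ⊆ tb (G.N J) (Θ.R + Θ.ρ₀) {Fi.vl w} := by
  simpa only [zero_add] using sup_bl (ρ := Θ.ρ₀) (h.N_odd J) ((W.bal a l).sub w)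

/-- a ball around a grid point stays in the core of the words -/
theorem zs_ball (K : G.Gk J k n' P κ a c C) (Λ : Lwd (G.N J) α κ) (ω : Site 4 n' × α) {X : Finset St}
    (e : X ⊆ tb (G.N J) (P.R + 2) {Fi.vl (corner P.s ω.1 : Site 4 (G.N J))}) :
    G.zs X J k ⊆ (G.gwT b J k n' P Λ).Z0 ω := by
  have r : 0 < G.rt J k := pow_pos three_pos _
  have a1 : X ⊆ tb (G.N J) (P.R + 1 + G.rt J k) {(G.rt J k : ℤ) • bkp P.t ω.1} := fun y hy =>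
    have e := mem_tb_single.1 (e hy)
    mem_tb_single.2 ⟨e.1, ((h.near_cor K ω.1).trans e.2).mono (by omega)⟩
  obtain ⟨y, a2⟩ := h.zs_rad (i := J) (X := tb (G.N J) (P.R + 1 + G.rt J k)
    {(G.rt J k : ℤ) • bkp P.t ω.1}) Subset.rfl k K.lt.le
  have a3 := nearT_rc_right.1 (mem_tb_single.1 (a2 (h.mem_zs k K.lt.le (bkp P.t ω.1)
    (mem_tb_single.2 ⟨rc_rc _ _, nearT_rc_right.2 (nearT.refl _ _ _)⟩)))).2
  intro z hz
  have a4 := mem_tb_single.1 (a2 (zs_mono a1 k K.lt.le hz))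
  refine mem_tb_single.2 ⟨a4.1, (a3.symm.trans a4.2).mono ?_⟩
  have := K.rad
  rw [Nat.add_div_right _ r, show (G.p k).R = 4 * G.L k ^ G.K0 from rfl]
  omega

theorem ball_fat {v : Site 4 (G.N J)} {R : ℕ} (e : φ v ≠ 0) (hR : R ≤ ρ) :
    tb (G.N J) R {Fi.vl v} ⊆ sup (fat ρ φ) := fun y hy => by
  obtain ⟨y1, y2⟩ := mem_tb_single.1 hy
  rw [← y1]
  exact h.mem_fat (by rwa [Fi.cst_vl]) (y2.mono hR)

theorem x0_fat (K : G.Gk J k n' P κ a c C) (Λ : Lwd (G.N J) α κ) (ω : Site 4 n' × α)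
    (e : φ (corner P.s ω.1) ≠ 0) (hρ : G.rt J k * (P.j * (G.p k).D + 1) + P.R + 1 ≤ ρ) :
    (G.gwT b J k n' P Λ).X0 ω ⊆ G.zs (sup (fat ρ φ)) J k := fun y hy => by
  have r1 : 0 < G.rt J k := pow_pos three_pos _
  obtain ⟨y1, y2⟩ := mem_tb_single.1 hy
  have := TG.near_smul (G.rt J k) y2
  rw [h.rt_N K.lt.le] at this
  rw [mul_add_one] at hρ
  rw [← y1]
  exact h.mem_zs k K.lt.le y (h.mem_fat (z := Fi.vl (corner P.s ω.1 : Site 4 (G.N J)))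
    (by rwa [Fi.cst_vl]) (((h.near_cor K _).symm.trans this).mono (by omega)))

/-- two levels below the large scale there is room -/
theorem dl_big {j : ℕ} (hl : l + 1 < j) (hj : j ≤ J) :
    22000 * G.L j * ((G.L j : ℝ) ^ G.K0 * G.rt J j) ≤ G.dl J l := by
  obtain ⟨i, rfl⟩ : ∃ i, j = i + 1 := ⟨j - 1, by omega⟩
  refine le_trans ?_ (h.dl_le (j := i) (by omega) (by omega))
  have a := h.L_succ i
  have b := h.D_step i
  rw [h.rt_step (show i < J from hj)]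
  have : 22000 * G.L (i + 1) * (G.L (i + 1) ^ G.K0 * G.rt J (i + 1)) ≤
      66 * G.L i * (G.L i ^ G.K0 * (G.L i * G.rt J (i + 1))) :=
    calc _ = 22 * G.L (i + 1) * (1000 * G.L (i + 1) ^ G.K0) * G.rt J (i + 1) := by ring
      _ ≤ 22 * (3 * G.L i) * (G.L i * G.L i ^ G.K0) * G.rt J (i + 1) := by gcongr
      _ = _ := by ring
  exact_mod_cast this

theorem dl_anti {j : ℕ} (hl : l ≤ j) (hj : j ≤ J) : G.dl J j ≤ G.dl J l :=
  Nat.mul_le_mul_left _ (h.D_rt hl hj)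

end Ok

end Gl

end Pool.Agent.Lib.MP_7f377f_mp.RG.Q4.En
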