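import Pool.Agent.Lib.MP_7f377f_mp.G.TyW1

/-! Smeared words: the numbers at the level of the merging. -/

noncomputable section

set_option linter.unusedSectionVars false
variable [Pool.Agent.Lib.MP_7f377f_mp.GD]

namespace Pool.Agent.Lib.MP_7f377f_mp.RG.Q4.En.Gl.Ok

open Finset Real Sg Br YM7 Filter Topology Ob Pos Pur
open Weak (Site)

variable {G : Gl} (h : G.Ok) {c j l J k m r e i s : ℕ} {Λ Λ' δ d a b A C W : ℝ}
include h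

theorem ev_lv' (Λ1 : 1 ≤ Λ) (δ0 : 0 < δ) (hj : 1000 * 3 ^ c ≤ G.L j) {P : ℕ → Prop}
    (e : ∀ᶠ l in atTop, P l) : ∀ᶠ d in 𝓝[>] (0 : ℝ), ∃ l, P l ∧ G.Lv c j l Λ δ d ∧
      d * 3 ^ G.e l ≤ (68 / δ + 1) * G.L l ^ (G.K0 + 1) := by
  have A0 : 0 < 68 / δ + 1 := by positivity
  have p : 0 < (Λ + δ + 3) * 3 ^ G.e j := by positivity
  filter_upwards [h.ex_jm A0 (e.and ((eventually_ge_atTop j).and ((h.ev_L (68 / δ + 1)).and
    (h.ev_L (Λ + 3))))), Ioo_mem_nhdsGT (show 0 < 100⁻¹ / _ from div_pos (by norm_num) p)]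
    with d ⟨d0, l, ⟨a1, a2, a3, a4⟩, a5, a6⟩ ⟨_, d1⟩
  have L := h.L1 l
  have K : (1 : ℝ) ≤ G.L l ^ G.K0 := one_le_pow₀ (by linarith)
  have u : d * 3 ^ G.e l ≤ (G.L l : ℝ) ^ (G.K0 + 2) := a6.trans (by
    rw [pow_succ' _ (G.K0 + 1)]; gcongr)
  refine ⟨l, a1, ⟨a2, d0, by rw [mul_assoc]; exact ((lt_div_iff₀ p).1 d1).le, ?_, ?_, ?_, u, hj⟩, a6⟩
  · refine le_trans ?_ (mul_le_mul_of_nonneg_left a5 δ0.le)
    rw [← mul_assoc, mul_add, mul_div_cancel₀ _ δ0.ne']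
    gcongr
    linarith
  · nlinarith [div_pos (show (0 : ℝ) < 68 by norm_num) δ0]
  · have b1 : (Λ + 3) * (d * 3 ^ G.e l) ≤ G.L l ^ (G.K0 + 3) := by
      rw [pow_succ' _ (G.K0 + 2)]; gcongr
    have b2 : (G.L l : ℝ) ^ G.K0 ≤ G.L l ^ (G.K0 + 3) := pow_le_pow_right₀ (by linarith) (by omega)
    have b3 : (G.L l : ℝ) ^ (G.K0 + 3) ≤ G.Q l :=
      pow_le_pow_right₀ (by linarith) (by have := h.K0_le; omega)
    have := h.qpw l (i := 1) (j := 12) (by norm_num)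
    linarith [h.Q1 l]

theorem dk_le (A0 : 0 ≤ A) (up : d * 3 ^ G.e (k + 1) ≤ A * G.L (k + 1) ^ (G.K0 + 1)) :
    d * 3 ^ G.e k ≤ A * 3 ^ (G.K0 + 1) * G.L k ^ G.K0 := by
  have L := h.L1 k
  have a : (G.L (k + 1) : ℝ) ≤ 3 * G.L k := by exact_mod_cast h.L_succ k
  refine le_of_mul_le_mul_left ?_ (show (0 : ℝ) < G.L k by linarith)
  rw [mul_left_comm, ← h.e_succ]
  calc _ ≤ A * (3 * G.L k) ^ (G.K0 + 1) := up.trans (by gcongr)
    _ = _ := by ring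

theorem LK (hA : A ≤ G.L k) : A * G.L k ^ (G.K0 + 1) ≤ G.Q k := by
  have L := h.L1 k
  calc _ ≤ (G.L k : ℝ) ^ (G.K0 + 2) := by rw [pow_succ' _ (G.K0 + 1)]; gcongr
    _ ≤ _ := pow_le_pow_right₀ (by linarith) (by have := h.K0_le; omega)

theorem sg_ge (k : ℕ) : G.bb k ≤ G.Q k ^ 2400 * G.sg (k + 1) := by
  have a := (h.win1 (j := k + 1) k.le_succ le_rfl (by omega)).2.1
  have b := h.Q0 (k + 1)
  have := h.b0 (k + 1)
  rw [sg, ← mul_div_assoc, le_div_iff₀ (by positivity), mul_comm (_ ^ _),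
    show 2400 = 2 * 1200 by norm_num, pow_mul]
  exact mul_le_mul (h.b_mono k.le_succ) (by gcongr) (by positivity) this.le

variable (V : G.Lv 1 j (k + 1) Λ' δ d) (hl : k + 1 < J) (ha : a * 3 ^ G.e J = 1)
include V hl ha

omit hl ha in
theorem dinv_le : (d * 3 ^ G.e k)⁻¹ ≤ G.L k := by
  have := V.one
  have := V.d0
  rw [inv_le_iff_one_le_mul₀ (by positivity)]
  rwa [mul_left_comm, ← h.e_succ]

theorem gk_of [NeZero (G.N J)] {n' : ℕ} [NeZero n'] {κ : Type} [Fintype κ] (he : G.e k ≤ e)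
    (he' : e ≤ G.e J) (hn : n' = G.m * 3 ^ e) (Λ0 : 0 ≤ Λ)
    (up : d * 3 ^ G.e k ≤ A * G.L k ^ G.K0) (hi : Λ * A + 1 ≤ i) (c1 : Fintype.card κ ≤ c)
    (c2 : 2 * (i + 1) * (2 * i + 1) ^ 4 ≤ c) (c3 : 400 * 2 ^ c ≤ G.Q k) (C0 : 0 ≤ C) :
    G.Gk J k n' ⟨3 ^ (G.e J - e), 3 ^ (e - G.e k), ⌊Λ / (a / d)⌋₊, i⟩ κ (a / (2 * d)) c C := by
  have a0 := a_pos ha
  have d0 := V.d0
  have s0 := div_pos a0 d0
  have a6 : a / (2 * d) = a / d / 2 := by rw [mul_comm, div_div]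
  have a4 := h.s_rt V hl ha
  have a5 := (h.s_le V hl ha).2
  refine ⟨by omega, ?_, ?_, by positivity, ?_, ?_, ?_, c1, c2, c3, C0⟩
  · rw [hn, mul_assoc, ← pow_add, Nat.add_sub_cancel' he', N]
  · rw [← pow_add, rt]
    congr 1
    omega
  · rw [a6, ← mul_div_assoc]
    linarith [mul_nonneg (Nat.cast_nonneg (G.rt J (k + 1))) s0.le]
  · rw [a6]
    have : 2 * (a / d / 2) ≤ 4 * (a / d) := by linarith
    exact le_trans (by gcongr) a5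
  · change 2 * ((⌊Λ / (a / d)⌋₊ + 1) / G.rt J k) + 12 * G.L k ^ G.K0 + 5 ≤ i * (20 * G.L k ^ G.K0)
    have r1 : (1 : ℝ) ≤ G.rt J k := Nat.one_le_cast.2 (Nat.one_le_pow _ _ three_pos)
    have b : (((⌊Λ / (a / d)⌋₊ + 1) / G.rt J k : ℕ) : ℝ) ≤ Λ * (d * 3 ^ G.e k) + 1 := by
      refine Nat.cast_div_le.trans ?_
      push_cast
      refine (div_le_div_of_nonneg_right (add_le_add_left (Nat.floor_le (by positivity)) 1)
        (by linarith)).trans ?_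
      rw [add_div, div_div, mul_comm (a / d), h.a_rt ha (by omega), div_inv_eq_mul]
      linarith [(div_le_one (by linarith)).2 r1]
    generalize (⌊Λ / (a / d)⌋₊ + 1) / G.rt J k = t at b
    have K : (1 : ℝ) ≤ G.L k ^ G.K0 := one_le_pow₀ (by linarith [h.L1 k])
    have u := mul_le_mul_of_nonneg_left up Λ0
    have u0 : 0 ≤ Λ * (d * 3 ^ G.e k) := by positivity
    have : (2 * t + 12 * G.L k ^ G.K0 + 5 : ℝ) ≤ i * (20 * G.L k ^ G.K0) := by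
      nlinarith [mul_le_mul_of_nonneg_right hi (zero_le_one.trans K)]
    exact_mod_cast this

theorem rad_of (Λ0 : 0 ≤ Λ) (hi : 20 * i + Λ + 3 ≤ G.L k) :
    a * (G.rt J k * (i * (G.p k).D + 1) + ⌊Λ / (a / d)⌋₊ + 1 : ℕ) ≤ G.Q k * d := by
  change a * (G.rt J k * (i * (20 * G.L k ^ G.K0) + 1) + ⌊Λ / (a / d)⌋₊ + 1 : ℕ) ≤ _
  have a0 := a_pos ha
  have d0 := V.d0
  have L := h.L1 k
  have a1 := (h.a_rt (d := d) ha (show k ≤ J by omega)).trans_le (h.dinv_le V)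
  have a2 := (h.s_le V hl ha).1
  have a3 : (⌊Λ / (a / d)⌋₊ : ℝ) * (a / d) ≤ Λ :=
    (le_div_iff₀ (div_pos a0 d0)).1 (Nat.floor_le (by positivity))
  have K : (1 : ℝ) ≤ G.L k ^ G.K0 := one_le_pow₀ (by linarith)
  have a4 := h.LK hi
  rw [← div_le_iff₀ d0, mul_div_right_comm]
  generalize ⌊Λ / (a / d)⌋₊ = R at *
  generalize a / d = s at *
  push_cast
  rw [pow_succ'] at a4
  have i0 : (0 : ℝ) ≤ i := Nat.cast_nonneg _
  have K1 : (G.L k : ℝ) ≤ G.L k * G.L k ^ G.K0 := le_mul_of_one_le_right (by linarith) K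
  nlinarith [mul_le_mul_of_nonneg_right a1 (show (0 : ℝ) ≤ i * (20 * G.L k ^ G.K0) + 1 by positivity),
    mul_le_mul_of_nonneg_left (show 1 ≤ (G.L k : ℝ) * G.L k ^ G.K0 by linarith) Λ0]

omit hl ha in
theorem nw_of [NeZero (G.N J)] {α κ : Type} [Fintype α] [Fintype κ] {Y : Lwd (G.N J) α κ} {R M : ℕ}
    (he : G.e k ≤ e) (hκ : Fintype.card κ = m + r) (hm : m ≤ M) (W0 : 0 < W) (Λ0 : 0 ≤ Λ)
    (hΛ : 2 * Λ ≤ G.Q k) (hi : (40 * i + 1 : ℝ) ≤ G.L k) (hC : 4 * exp (c * C + c + 2) ≤ G.Q k)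
    (hY : ∑ x, |Y.w x| ≤ W * ((3 ^ e)⁻¹ / d) ^ 4 * ((2 * Λ) ^ m * G.sg (k + 1) ^ r)) :
    G.Nw J k ⟨s, 3 ^ (e - G.e k), R, i⟩ c C Y
      (W * (G.Q k ^ (2 * c + 289 + 2401 * M) * G.bb k / G.bb k ^ m)) := by
  have Q1 := h.Q1 k
  have b0 := h.b0 k
  have d0 := V.d0
  have L := h.L1 k
  have σ0 : 0 < G.sg (k + 1) := div_pos (h.b0 _) (pow_pos (h.Q0 _) _)
  refine ⟨by positivity, ?_⟩
  change 4 * G.cM k c C * (_ * ((2 * (i * (20 * G.L k ^ G.K0)) + 1) * 3 ^ (e - G.e k) : ℕ) ^ 4) * _ *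
    _ ≤ _
  have K : (1 : ℝ) ≤ G.L k ^ G.K0 := one_le_pow₀ (by linarith)
  have a1 : (3 ^ e)⁻¹ / d * ((2 * (i * (20 * G.L k ^ G.K0)) + 1) * 3 ^ (e - G.e k) : ℕ) ≤
      G.Q k := by
    have e1 : ((3 : ℝ) ^ e)⁻¹ / d * 3 ^ (e - G.e k) = (d * 3 ^ G.e k)⁻¹ := by
      rw [pow_sub₀ _ three_ne_zero he]
      field_simp
    have e2 := h.LK hi
    push_cast
    rw [mul_left_comm, e1]
    refine (mul_le_mul_of_nonneg_left (h.dinv_le V) (by positivity)).trans (le_trans ?_ e2)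
    have e3 : (2 * (i * (20 * G.L k ^ G.K0)) + 1 : ℝ) ≤ (40 * i + 1) * G.L k ^ G.K0 := by linarith
    exact (mul_le_mul_of_nonneg_right e3 (by linarith)).trans_eq (by ring)
  generalize ((2 * (i * (20 * G.L k ^ G.K0)) + 1) * 3 ^ (e - G.e k) : ℕ) = t at a1
  have a2 : G.bb k ^ m ≤ G.Q k ^ (2400 * m) * G.sg (k + 1) ^ m := by
    rw [pow_mul, ← mul_pow]
    gcongr
    exact h.sg_ge k
  rw [hκ, cM, mul_assoc W, div_mul_eq_mul_div, ← mul_div_assoc, le_div_iff₀ (by positivity)]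
  calc _ ≤ 4 * (exp (c * C + c + 2) * G.Q k ^ (2 * c)) * (W * ((3 ^ e)⁻¹ / d) ^ 4 *
        ((2 * Λ) ^ m * G.sg (k + 1) ^ r) * t ^ 4) * G.Q k ^ 280 * G.bb k *
        (G.Q k ^ (2400 * m) * G.sg (k + 1) ^ m) := by gcongr
    _ = W * (4 * exp (c * C + c + 2) * ((3 ^ e)⁻¹ / d * t) ^ 4 * (2 * Λ) ^ m *
        G.Q k ^ (2 * c + 280 + 2400 * m) * G.bb k * G.sg (k + 1) ^ (m + r)) := by ring
    _ ≤ W * (G.Q k * G.Q k ^ 4 * G.Q k ^ m *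
        G.Q k ^ (2 * c + 280 + 2400 * m) * G.bb k * G.sg (k + 1) ^ (m + r)) := by gcongr
    _ ≤ _ := by
      rw [← pow_succ', ← pow_add, ← pow_add]
      have : 4 + 1 + m + (2 * c + 280 + 2400 * m) ≤ 2 * c + 289 + 2401 * M := by omega
      gcongr

end Pool.Agent.Lib.MP_7f377f_mp.RG.Q4.En.Gl.Ok
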