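import Pool.Agent.Lib.MP_7f377f_mp.G.NsB0
import Pool.Agent.Lib.MP_7f377f_mp.G.TyW2

/-! Words of smeared slots: the numbers. -/

noncomputable section

set_option linter.unusedSectionVars false
variable [Pool.Agent.Lib.MP_7f377f_mp.GD]

namespace Pool.Agent.Lib.MP_7f377f_mp.RG.Q4.En.Gl

open Finset Real Sg Br YM7 Ob Pos Filter

variable {G : Gl} {J k k' n' ρ R t i j u c c' : ℕ} [NeZero (G.N J)] [NeZero n'] {P : Grd}
  {κ κ' : Type} [Fintype κ] [Fintype κ'] {a a' C X : ℝ}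

theorem Ok.nkx (h : G.Ok) (hκ : Fintype.card κ ≤ 7) (K : G.Gk J k' n' P κ' a c C)
    (B : G.Gb J k' (k + 1) P a c a' ρ) (ht : G.rt J k = t * P.s)
    (hR : R + ρ ≤ i * (G.L k ^ G.K0 * G.rt J k)) (hj : j ≤ k) (hu : 3 ^ G.e j = 9 * u)
    (hA : 9 * (66 * 3 ^ (G.K0 + 1) + 2 * i + 400) ≤ G.L j)
    (hc : c' = 7 + 2 * (i + 2 + 1) * (2 * (i + 2) + 1) ^ 4) (b1 : 400 * 2 ^ c' ≤ G.L k)
    (b2 : (3 * 10 ^ 37 : ℝ) ≤ G.L k) (b3 : 40 * i + 100 ≤ G.L k)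
    (b4 : 4 * exp (c' * (G.cZ9 j u + 1) + c' + 2) ≤ G.L k) :
    G.Nkx J k n' ⟨k', P, a, c, C, ρ, t, R + ρ + 1, i + 2, a', c', G.cZ9 j u + 1, R⟩ κ κ' ∧
      ((G.rt J k * ((i + 2) * (G.p k).D + 1) + (R + ρ + 1) + 1 : ℕ) : ℝ) ≤
        G.Q k * G.rt J (k + 1) ∧ 4 * G.cM k c' (G.cZ9 j u + 1) *
          ((2 * ((i + 2) * (G.p k).D) + 1 : ℕ) : ℝ) ^ 4 * G.Q k ^ 280 ≤ G.Q k ^ (2 * c' + 285) := by
  have l1 := B.lt
  have l2 := K.lt
  have D : (G.p k).D = 20 * G.L k ^ G.K0 := rfl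
  have r0 : ∀ m, 0 < G.rt J m := fun m => pow_pos three_pos _
  have L0 : ∀ m, 0 < G.L m ^ G.K0 := fun m => pow_pos (by have := h.L_big m; omega) _
  have rs := h.rt_step (show k < J by omega)
  have LK : ∀ A : ℕ, A ≤ G.L k → ((A * G.L k ^ G.K0 * G.L k : ℕ) : ℝ) ≤ G.Q k := fun A e => by
    have := h.LK (k := k) (A := A) (by exact_mod_cast e)
    push_cast
    rwa [mul_assoc, ← pow_succ]
  have LR : ∀ A : ℕ, A ≤ G.L k →
      ((A * (G.L k ^ G.K0 * G.rt J k) : ℕ) : ℝ) ≤ G.Q k * G.rt J (k + 1) := fun A e => by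
    rw [rs, ← mul_assoc, ← mul_assoc, Nat.cast_mul]
    exact mul_le_mul_of_nonneg_right (LK A e) (Nat.cast_nonneg _)
  have r1 := Nat.le_mul_of_pos_left (G.rt J k) (L0 k)
  have Q1 := h.Q1 k
  refine ⟨⟨K, B, ⟨by omega, K.hn, ht, B.a0, B.a1, ?_, ?_, by simp only; omega, by simp only; omega, ?_,
    by unfold cZ9; positivity⟩, Nat.lt_succ_self _, ?_, hκ, j, u, G.m * 9, by omega, ?_, ?_,
    le_trans (by norm_num) ((Nat.mul_le_mul_left 9 (Nat.le_add_left 400 _)).trans hA), ?_, ?_,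
    le_rfl⟩, ?_, ?_⟩
  · have a1 := B.a1
    have a0 := B.a0
    have a2 := h.pw_rt (J := J) (k + 2) (by omega)
    have a3 : (3 * 10 ^ 37 : ℝ) ≤ G.L (k + 1) := b2.trans (Nat.cast_le.2 (h.L_mono k.le_succ))
    rw [h.rt_step (show k + 1 < J by omega), Nat.cast_mul] at a1
    rw [show J - (k + 1) = J - (k + 2) + 1 by omega, pow_succ]
    have a4 := mul_le_mul a3 a2 (by positivity) (Nat.cast_nonneg _)
    have a5 : (0 : ℝ) < 1.01 ^ (J - (k + 2)) * a' := by positivity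
    nlinarith only [mul_le_mul_of_nonneg_right a4 a0.le, a1, a5]
  · have : (R + ρ + 1 + 1) / G.rt J k ≤ i * G.L k ^ G.K0 + 2 :=
      Nat.div_le_of_le_mul (by nlinarith only [r0 k, hR])
    simp only [D]
    nlinarith only [this, L0 k, Nat.zero_le (i * G.L k ^ G.K0)]
  · exact le_trans (by exact_mod_cast b1) (h.LQ k)
  · have := c'.lt_two_pow_self
    simp only
    omega
  · rw [mul_assoc, ← hu, N]
  · have := h.odd.pos
    omega
  · have a1 := h.D_rt (i := J) (j := j) (k := k + 1) (by omega) (by omega)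
    have a2 := h.D_rt (i := J) (j := j) (k := k) hj (by omega)
    have a3 : G.L j * G.L j ^ G.K0 ≤ 9 * u := by
      have := (h.Lb j (i := G.K0 + 1) (by have := h.B1; have := h.K0_le; omega)).trans (h.b_e j)
      rw [← hu, ← pow_succ']
      exact_mod_cast this
    have a4 := Nat.mul_le_mul_right (G.rt J j) ((Nat.mul_le_mul_right _ hA).trans a3)
    have a5 := Nat.mul_le_mul_left (66 * 3 ^ (G.K0 + 1)) a1
    have a6 := Nat.mul_le_mul_left i a2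
    simp only [dl]
    nlinarith only [a4, a5, a6, hR, Nat.zero_le (G.L j ^ G.K0 * G.rt J j)]
  · refine ((Nat.cast_le.2 hR).trans (LR i (by omega))).trans ?_
    rw [mul_comm]
    exact mul_le_mul_of_nonneg_left ((h.Q_mono k.le_succ).trans
      (le_self_pow₀ (h.Q1 _) (by norm_num))) (Nat.cast_nonneg _)
  · refine le_trans (Nat.cast_le.2 ?_) (LR _ b3)
    rw [D]
    nlinarith only [r0 k, r1, hR, Nat.zero_le (i * (G.L k ^ G.K0 * G.rt J k))]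
  · have a1 : ((2 * ((i + 2) * (G.p k).D) + 1 : ℕ) : ℝ) ≤ G.Q k := by
      refine le_trans (Nat.cast_le.2 ?_) (LK _ b3)
      have := Nat.le_mul_of_pos_right ((40 * i + 100) * G.L k ^ G.K0)
        (show 0 < G.L k by omega)
      rw [D]
      nlinarith only [this, L0 k]
    rw [cM, ← mul_assoc, show 2 * c' + 285 = 1 + 2 * c' + 4 + 280 by ring, pow_add, pow_add,
      pow_add, pow_one]
    gcongr
    exact b4.trans (h.LQ k)

theorem Oks.nkx (o : G.Oks) (X : ℝ) : ∃ (i c' : ℕ) (C' : ℝ), ∀ᶠ k in atTop, ∀ v,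
    ∀ (J k' n' ρ R t c : ℕ) [NeZero ((G.wm v).N J)] [NeZero n'] (P : Grd) (κ κ' : Type) [Fintype κ]
      [Fintype κ'] (a C a' : ℝ), Fintype.card κ ≤ 7 → (G.wm v).Gk J k' n' P κ' a c C →
      (G.wm v).Gb J k' (k + 1) P a c a' ρ → G.rt J k = t * P.s →
      (R + ρ : ℝ) ≤ X * G.L k ^ G.K0 * G.rt J k →
      (G.wm v).Nkx J k n' ⟨k', P, a, c, C, ρ, t, R + ρ + 1, i, a', c', C', R⟩ κ κ' ∧
      ((G.rt J k * (i * (G.p k).D + 1) + (R + ρ + 1) + 1 : ℕ) : ℝ) ≤ G.Q k * G.rt J (k + 1) ∧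
      4 * G.cM k c' C' * ((2 * (i * (G.p k).D) + 1 : ℕ) : ℝ) ^ 4 * G.Q k ^ 280 ≤
        G.Q k ^ (2 * c' + 285) := by
  have h := (o 0).1
  obtain ⟨i, hi⟩ := exists_nat_ge X
  obtain ⟨j, j1, j2⟩ := ((eventually_ge_atTop 2).and
    (h.L_nat.eventually_ge_atTop (9 * (66 * 3 ^ (G.K0 + 1) + 2 * i + 400)))).exists
  obtain ⟨u, hu⟩ : 3 ^ 2 ∣ 3 ^ G.e j := pow_dvd_pow 3 (j1.trans h.sch.mono.le_apply)
  obtain ⟨c', hc⟩ : ∃ c', c' = 7 + 2 * (i + 2 + 1) * (2 * (i + 2) + 1) ^ 4 := ⟨_, rfl⟩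
  refine ⟨i + 2, c', G.cZ9 j u + 1, ?_⟩
  filter_upwards [eventually_ge_atTop j, h.L_nat.eventually_ge_atTop (400 * 2 ^ c'),
    h.ev_L (3 * 10 ^ 37), h.L_nat.eventually_ge_atTop (40 * i + 100),
    h.ev_L (4 * exp (c' * (G.cZ9 j u + 1) + c' + 2))] with k a0 a1 a2 a3 a4 v J k' n' ρ R t c _ _ P
    κ κ' _ _ a C a' hκ K B ht hR
  refine (o v).1.nkx hκ K B ht ?_ a0 hu j2 hc a1 a2 a3 a4
  have := mul_le_mul_of_nonneg_right hi (show (0 : ℝ) ≤ G.L k ^ G.K0 * G.rt J k by positivity)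
  rw [← mul_assoc] at this
  exact_mod_cast hR.trans this

end Pool.Agent.Lib.MP_7f377f_mp.RG.Q4.En.Gl
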