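import Pool.Agent.Lib.MP_7f377f_mp.G.NsB0
import Pool.Agent.Lib.MP_7f377f_mp.G.NsA2

/-! Words of smeared slots: the first merging. -/

noncomputable section

set_option linter.unusedSectionVars false
variable [Pool.Agent.Lib.MP_7f377f_mp.GD]

namespace Pool.Agent.Lib.MP_7f377f_mp.RG.Q4.En.Gl

open Finset Real Sg Br YM7 Ob Pos
open Weak (Site corner)
open scoped Classical

attribute [local irreducible] box tb tau rc

variable (G : Gl) (b : ℝ) (J k : ℕ) [NeZero (G.N J)] (n' : ℕ) [NeZero n'] (Θ : Npx)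
  {κ κ' ι ι' : Type} [Fintype κ] [DecidableEq κ] [Inhabited κ] [Fintype κ'] [DecidableEq κ'] [Inhabited κ'] [Fintype ι]
  [DecidableEq ι] [Fintype ι'] [DecidableEq ι']

/-- the growth of the radii -/
def mxx (j : ℕ) : ℕ := if j = k + 1 then 1 else G.L j

/-- the regions of the grid points -/
def xgx (x : Site 4 n') : Finset St := tb (G.N Θ.k₀) (Θ.P₀.j * (G.p Θ.k₀).D) {bkp Θ.P₀.t x}

/-- the number of grid points in a region -/
def cnx : ℝ := ((2 * (Θ.P₀.j * (G.p Θ.k₀).D) + 1) * Θ.P₀.t : ℕ) ^ 4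

/-- the weight of a grid point -/
def vxx (m : ℕ) : ℝ := G.sg (k + 1) * G.sg (Θ.k₀ + 1) ^ m /
  (4 * G.cM Θ.k₀ Θ.c₀ Θ.C₀ * G.cnx Θ * G.Q Θ.k₀ ^ 287 * G.bb Θ.k₀)

/-- the direction of a slot -/
abbrev uqx (x : Ltx (G.N J) κ') : Lx × Ac := G.uq b J Θ.k₀ n' Θ.P₀ x.Λ x.μ x.ν x.φ

/-- slots with the radii `r` -/
structure Lrx (x : Ltx (G.N J) κ') (r : ℕ → ℝ) : Prop where
  wk : G.Wk b J Θ.k₀ Θ.P₀ Θ.a₀ Θ.C₀ x.Λ
  lp : Lqq Θ.a x.φ
  pos : ∀ j, 0 < r j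
  step : ∀ j, k + 1 ≤ j → r j ≤ G.mxx k j * r (j + 1)
  ra : G.Ra b J Θ.k₀ (r Θ.k₀) (symF (sy fun y => -(x.ν * x.φ y)))
  wt : |x.μ| * r Θ.k₀ * ∑ a, |x.Λ.w a| ≤ G.vxx k Θ (Fintype.card κ')
  sz : ∀ j, k + 1 ≤ j → j ≤ Θ.k₀ → ∃ N, G.Q j ^ 223 * (r j * N) ≤ G.bb j ∧
    G.Sz j N N (G.Q j ^ 100)⁻¹ (G.tn b J (G.uqx b J n' Θ x) Θ.k₀ j).1
      (G.tn b J (G.uqx b J n' Θ x) Θ.k₀ j).2

variable {G b J k n' Θ} {x : ι → Ltx (G.N J) κ'} {y : Ltx (G.N J) κ'} {A : Finset ι} {ν r : ℝ}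
  {φ : Site 4 (G.N J) → ℝ} {j l : ℕ}

theorem symF_zero {n : ℕ} (ν : ℝ) : symF (sy fun x : Site 4 n => -(ν * (0 : Site 4 n → ℝ) x)) = 0 := by
  funext x μ ν
  simp [symF, sy]

theorem fat_zero {n : ℕ} [NeZero n] (ρ : ℕ) : sup (fat ρ (0 : Site 4 n → ℝ)) = ∅ :=
  eq_empty_of_forall_notMem fun _ e =>
    let ⟨_, _, e⟩ := mem_sup e
    let ⟨_, e, _⟩ := fat_ne e
    e rfl

theorem res_aux : (G.aux b J n' Θ x).res A =
    G.aux b J n' Θ fun c => (x c).wi (if c ∈ A then (x c).φ else 0) := by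
  simp only [Ws.res, aux, aw]
  congr 1
  · ext ω
    by_cases e : ω.1 ∈ A <;> simp [e]
  · funext q
    split_ifs
    exacts [rfl, (symF_zero _).symm]
  · funext q
    split_ifs
    exacts [rfl, (fat_zero _).symm]

theorem res_univ {Ω : Type} (S : Ws ι Ω κ') : S.res univ = S := by simp [Ws.res]

theorem u1_aux (c : ι) :
    G.u1 b J Θ.k₀ (G.aux b J n' Θ x) (G.wux J n' Θ x) c = G.uqx b J n' Θ (x c) :=
  (Ok.uq_aw (fun c => (x c).Λ) (fun c => (x c).μ) (fun c => (x c).ν) (fun c => (x c).φ) c).symm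

theorem em_aux {e : ι' → ι} (he : Function.Injective e) :
    (G.aux b J n' Θ fun c => x (e c)).Em (G.aux b J n' Θ x) (G.wux J n' Θ fun c => x (e c))
      (G.wux J n' Θ x) e (fun ω => ⟨e ω.1, ω.2⟩) univ :=
  ⟨he, he.sigma_map (β₂ := fun c => Site 4 n' × (x c).α) (f₂ := fun _ => id)
      fun _ => Function.injective_id, fun _ _ => rfl,
    fun _ a _ => ⟨mem_filter.2 ⟨mem_univ _, (mem_filter.1 a).2⟩, rfl, rfl, rfl, rfl, rfl, rfl⟩,
    fun ⟨_, ω⟩ a q _ (u : _ = e q) => by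
      subst u
      exact ⟨⟨q, ω⟩, mem_filter.2 ⟨mem_univ _, (mem_filter.1 a).2⟩, rfl, rfl⟩⟩

theorem tn_fld (hj : j ≤ Θ.k₀) (hJ : Θ.k₀ ≤ J) : G.tn b J (G.uqx b J n' Θ (Ltx.fld κ' ν φ)) Θ.k₀ j =
    G.tv (symF (sy fun y => -(ν * φ y))) b J j := by
  simp only [uqx, uq, Kw, zero_mul, Complex.ofReal_zero, zero_smul, sum_const_zero]
  rw [show ((0, 0) : Lx × Ac) = 0 from rfl, add_zero]
  exact dw_dw _ _ hJ j hj

namespace Ok

variable (h : G.Ok)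
include h

theorem xo_aux : Xo (G.N J) ((G.aux b J n' Θ x).X (G.N J) (G.wux J n' Θ x))
    fun c => (x c).ob n' Θ.P₀.s (Fi.tr haar) b :=
  h.xo_aw (fun c => (x c).Λ) (fun c => (x c).μ) (fun c => (x c).ν) fun c => (x c).φ

variable (K : G.Nkx J k n' Θ κ κ')
include K

theorem cnx0 : 0 < G.cnx Θ := by
  have := (h.gk_n K.K₀).2.2
  unfold cnx
  positivity

theorem vxx0 (m : ℕ) : 0 < G.vxx k Θ m := by
  have := h.cnx0 K
  have := h.sg0 (k + 1)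
  have := h.sg0 (Θ.k₀ + 1)
  have := h.cM0 Θ.k₀ Θ.c₀ Θ.C₀
  have := h.Q0 Θ.k₀
  have := h.b0 Θ.k₀
  unfold vxx
  positivity

theorem gp_x : G.Gp Θ.k₀ (k + 1) κ' Θ.c₀ Θ.C₀ (G.sg (Θ.k₀ + 1))
    (G.vxx k Θ (Fintype.card κ') * G.cnx Θ) (G.mxx k) (G.xgx n' Θ)
    fun _ => G.vxx k Θ (Fintype.card κ') := by
  refine ⟨K.B₀.lt, fun x => ⟨⟨_, mem_tb_single.2 ⟨rc_rc _ _, nearT_rc_right.2 (nearT.refl _ _ _)⟩⟩,
    tb_dom (h.N_odd _), (tau_big (h.D_one _) _ _).trans K.K₀.tau⟩, fun y => ?_, ?_, fun j _ _ => ?_⟩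
  · rw [sum_const, nsmul_eq_mul, mul_comm]
    refine mul_le_mul_of_nonneg_left ?_ (h.vxx0 K _).le
    unfold cnx
    exact_mod_cast h.cnt K.K₀ _ y
  · have c0 := h.cnx0 K
    have c1 := h.cM0 Θ.k₀ Θ.c₀ Θ.C₀
    have q0 := h.Q0 Θ.k₀
    have b0 := h.b0 Θ.k₀
    have σ0 := pow_pos (h.sg0 (Θ.k₀ + 1)) (Fintype.card κ')
    have := mul_le_mul_of_nonneg_right (h.sg_bb K.B₀.lt.le (i := 43) (by norm_num)) σ0.le
    refine le_trans (b := G.Q Θ.k₀ ^ 43 * G.sg (k + 1) * G.sg (Θ.k₀ + 1) ^ Fintype.card κ' /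
      (4 * G.bb Θ.k₀)) (le_of_eq (by unfold vxx; field_simp)) ?_
    rw [div_le_iff₀ (by positivity)]
    nlinarith only [this, mul_pos b0 σ0]
  · have L := h.L1 j
    unfold mxx
    split_ifs
    · exact ⟨le_rfl, by simpa using h.cQ j (by norm_num)⟩
    · exact ⟨le_trans (by norm_num) (h.L_big j), le_trans (by nlinarith) (h.LQ' j (i := 2)
        (by norm_num))⟩

variable (t : G.Tu b J) (hp : G.Pu)
include t hp

theorem lr_lo (H : G.Lox b J k n' Θ y) : ∃ r, r (k + 1) = G.sg (k + 1) ∧ G.Lrx b J k n' Θ y r ∧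
    G.Sz (k + 1) (G.Q (k + 1) ^ 3) (G.Q (k + 1) ^ 3) (G.Q (k + 1) ^ 100)⁻¹
      (G.tn b J (G.uqx b J n' Θ y) Θ.k₀ (k + 1)).1 (G.tn b J (G.uqx b J n' Θ y) Θ.k₀ (k + 1)).2 := by
  obtain ⟨z, z0, z1, z2, z3, z4, z5, z6⟩ := h.dq_sz t hp K.K₀ K.B₀ H.wk H.lp H.dq
  have s0 := h.sg0 (k + 1)
  refine ⟨fun j => G.sg (k + 1) * z j, by simp only [z1, mul_one], ⟨H.wk, H.lp, fun j => mul_pos s0 (z0 j),
    fun j hj => ?_, ?_, ?_, fun j h1 h2 => ⟨_, ?_, z6 j h1 h2⟩⟩,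
    by simpa [z1] using z6 _ le_rfl K.B₀.lt.le⟩
  · unfold mxx
    split_ifs with e
    · simp [e, z1, z2]
    · rw [mul_left_comm]
      exact mul_le_mul_of_nonneg_left (z3 j (lt_of_le_of_ne hj (Ne.symm e))) s0.le
  · simpa only [neg_mul] using h.ra_sy K.K₀ t hp (TG.lqq_mono H.lp K.B₀.le) (ν := -y.ν)
      (mul_pos s0 (z0 _)) (l := k + 1) (by
        rw [abs_neg, mul_assoc]; exact mul_le_of_le_one_right s0.le z4) (by linarith [K.B₀.lt])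
  · have c0 := h.cnx0 K
    have c1 := h.cM0 Θ.k₀ Θ.c₀ Θ.C₀
    have q0 := h.Q0 Θ.k₀
    have b0 := h.b0 Θ.k₀
    rw [vxx, le_div_iff₀ (by positivity), cnx]
    nlinarith only [mul_le_mul_of_nonneg_left z5 s0.le]
  · rw [mul_assoc, mul_div_cancel₀ _ (z0 j).ne']
    exact (le_of_eq (by ring)).trans (h.sg_bb h1 (i := 226) (by norm_num))

theorem lr_fld (hφ : Lqq Θ.a φ) (r0 : 0 < r) (hr : r * |ν| ≤ G.sg l) (hl : l ≤ k + 1) :
    G.Lrx b J k n' Θ (Ltx.fld κ' ν φ) fun _ => r := by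
  have R := h.ra_sy K.K t hp hφ (ν := -ν) r0 (by rwa [abs_neg]) hl
  simp only [neg_mul] at R
  have l1 := K.B₀.lt
  have l2 := K.K₀.lt
  refine ⟨wk_fld, hφ, fun _ => r0, fun j _ => le_mul_of_one_le_left r0.le ?_,
    ⟨R.1, fun j a => R.2 j (by omega)⟩, by simpa using (h.vxx0 K _).le, fun j h1 h2 => ?_⟩
  · unfold mxx
    split_ifs
    exacts [Nat.cast_one.ge, by linarith [h.L1 j]]
  · rw [tn_fld h2 l2.le]
    exact R.2 j h1 (by omega)

/-- separated slots -/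
theorem m1_res {r : ℕ → ι → ℝ} (H : ∀ c, G.Lrx b J k n' Θ (x c) (r · c))
    (hs : Cls (G.N J) (G.dl J (k + 1)) A id fun c => sup (fat Θ.ρ₀ (x c).φ)) :
    G.M1 b J Θ.k₀ (k + 1) ((G.aux b J n' Θ x).res A) (G.wux J n' Θ x) Θ.c₀ Θ.C₀ (G.sg (Θ.k₀ + 1))
      (G.mxx k) (G.xgx n' Θ) (fun _ => G.vxx k Θ (Fintype.card κ')) (·.2.1) r := by
  have l1 := K.B₀.lt
  have l2 := K.K₀.lt
  have s0 := h.sg0 Θ.k₀
  have D0 : ∀ j, 0 < (G.L j : ℝ) ^ G.K0 * G.rt J j := fun j =>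
    mul_pos (pow_pos (by linarith [h.L1 j]) _) (rt_pos J j)
  have d1 : 66 * ((G.L (k + 1) : ℝ) ^ G.K0 * G.rt J (k + 1)) ≤ G.dl J (k + 1) := by
    exact_mod_cast dl_ge
  have hs' : Cls (G.N J) (G.dl J (k + 1)) univ id ((G.aux b J n' Θ x).res A).W :=
    fun c _ c' _ e => by
      simp only [Ws.res]
      split_ifs with u u'
      exacts [hs c u c' u' e, fun _ _ _ a => (notMem_empty _ a).elim,
        fun _ a => (notMem_empty _ a).elim, fun _ a => (notMem_empty _ a).elim]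
  have M : G.Mw b J Θ.k₀ ((G.aux b J n' Θ x).res A) Θ.c₀ Θ.C₀ (G.sg (Θ.k₀ + 1))
      fun c => G.sg Θ.k₀ / (|(x c).ν| + 1) := by
    rw [res_aux] at hs' ⊢
    refine h.mw_aw K.K₀ t hp (fun c => (H c).wk) (fun c => ?_) K.B₀.a0 K.B₀.le
      (fun c => by positivity) (fun c => ?_) le_rfl K.B₀.rad hs' (le_trans
        (mul_le_mul_of_nonneg_right ?_ (D0 _).le) (h.dl_le l1 l2.le))
    · simp only
      split_ifs
      exacts [(H c).lp, ⟨fun _ => by simp, fun _ _ => by simpa using K.B₀.a0.le⟩]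
    · rw [div_mul_eq_mul_div, div_le_iff₀ (by positivity)]
      exact mul_le_mul_of_nonneg_left (le_add_of_nonneg_right zero_le_one) s0.le
    · have : (2 * Θ.c₀ + 3 : ℝ) ≤ G.L Θ.k₀ := by exact_mod_cast K.B₀.big
      linarith [h.L1 Θ.k₀]
  refine ⟨{ M with pos := ⟨M.pos.1, fun c => (H c).pos _⟩, sl := fun c => ?_ }, fun _ _ => rfl,
    fun z => ?_, fun j h1 h2 c => ?_, fun j h1 h2 => ⟨?_, fun c => ⟨(H c).pos j,
      fun _ => (H c).step j h1⟩⟩⟩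
  · simp only [Ws.res]
    split_ifs
    exacts [(H c).ra, (h.ra_zero t _).2]
  · by_cases e : ∃ q ∈ A, (x q).φ (corner Θ.P₀.s z) ≠ 0
    · obtain ⟨q, hq, e⟩ := e
      have m : ∀ q, (x q).φ (corner Θ.P₀.s z) ≠ 0 → rc (G.N J) (Fi.vl (corner Θ.P₀.s z)) ∈
          sup (fat Θ.ρ₀ (x q).φ) := fun q e => h.mem_fat (by rwa [Fi.cst_vl]) (nearT.refl _ _ _)
      refine (sum_le_sum_of_subset_of_nonneg (t := univ.image fun a => ⟨q, z, a⟩)
        ?_ fun ω _ _ => mul_nonneg (norm_nonneg _) ((H _).pos _).le).trans ?_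
      · rintro ⟨q', z', a⟩ u
        simp only [Ws.res, aux, aw, mem_filter] at u
        obtain ⟨⟨⟨-, u1⟩, u2⟩, rfl⟩ := u
        obtain rfl : q' = q := one_cluster hs (by linarith [D0 (k + 1)]) u2 hq (m _ u1) (m _ e)
        exact mem_image_of_mem _ (mem_univ a)
      · rw [sum_image fun _ _ _ _ u => by simpa using u]
        refine le_trans ?_ (H q).wt
        rw [mul_sum]
        refine sum_le_sum fun a _ => ?_
        simp only [wux, Complex.norm_real, norm_eq_abs, abs_mul]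
        have := mul_le_mul_of_nonneg_left ((H q).lp.1 (corner Θ.P₀.s z)) (mul_nonneg (mul_nonneg
          (abs_nonneg (x q).μ) ((H q).pos Θ.k₀).le) (abs_nonneg ((x q).Λ.w a)))
        exact (le_of_eq (by simp only [Ws.res, aux, aw]; ring)).trans (this.trans_eq (mul_one _))
    · refine (sum_eq_zero ?_).trans_le (h.vxx0 K _).le
      rintro ⟨q', z', a⟩ u
      simp only [Ws.res, aux, aw, mem_filter] at u
      obtain ⟨⟨⟨-, u1⟩, u2⟩, rfl⟩ := u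
      exact (e ⟨_, u2, u1⟩).elim
  · by_cases e : c ∈ A
    · rw [u1_res e, u1_aux]
      exact (H c).sz j h1 h2
    · have : G.u1 b J Θ.k₀ ((G.aux b J n' Θ x).res A) (G.wux J n' Θ x) c = 0 := by
        rw [u1, sum_eq_zero fun ω u => by
          simp only [Ws.res, mem_filter] at u
          exact (e (u.2 ▸ u.1.2)).elim]
        simp only [Ws.res, if_neg e, (h.ra_zero t 1).1]
        exact zero_add _
      rw [this, h.tn_zero t l2.le]
      exact ⟨0, by simpa using (h.b0 j).le, by simpa using pm_zero (h.ρ0 j), 0, km_zero,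
        fun _ _ => le_rfl, fun _ => by simp⟩
  · unfold mxx
    split_ifs with e
    · subst e
      exact h.zs_cls hs' (by positivity) (by norm_num; linarith) le_rfl (h2.trans l2.le)
    · exact h.zs_cls hs' (by positivity) (le_trans (mul_le_mul_of_nonneg_right
        (by linarith [h.L1 j]) (D0 j).le) (h.dl_le (lt_of_le_of_ne h1 (Ne.symm e)) (h2.trans l2.le)))
        le_rfl (h2.trans l2.le)

end Ok

end Pool.Agent.Lib.MP_7f377f_mp.RG.Q4.En.Gl
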