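import Pool.Agent.Lib.MP_7f377f_mp.G.NsB2

/-! Words of smeared slots: the hypotheses of the second merging. -/

noncomputable section

set_option linter.unusedSectionVars false
variable [Pool.Agent.Lib.MP_7f377f_mp.GD]

namespace Pool.Agent.Lib.MP_7f377f_mp.RG.Q4.En.Gl

open Finset Real Sg Br YM7 Ob Pos
open Weak (Site corner)
open scoped Classical

attribute [local irreducible] box tb tau rc

variable (G : Gl) (b : ℝ) (J k : ℕ) [NeZero (G.N J)] (n' : ℕ) [NeZero n'] (Θ : Npx)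
  {κ κ' γ α₀ : Type} [Fintype κ] [DecidableEq κ] [Inhabited κ] [Fintype κ'] [DecidableEq κ']
  [Inhabited κ'] [Fintype γ] [DecidableEq γ] [Fintype α₀] {α : γ → Type} [∀ q, Fintype (α q)]

/-- the letters of a word at a grid point -/
abbrev wdx (V : Nwd (G.N J) α₀ κ κ') (ω : Site 4 n' × α₀) (l : κ) : Ltx (G.N J) κ' :=
  (V.x ω.2 l).at (corner Θ.P₀.s ω.1)

variable (V : ∀ q, Nwd (G.N J) (α q) κ κ') (ν : γ → ℝ) (φ : γ → Site 4 (G.N J) → ℝ) (ρ : ℕ)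

/-- the letters and the cells of an array -/
def xsx : (Σ q, Site 4 n' × α q) × κ ⊕ γ → Ltx (G.N J) κ' :=
  Sum.elim (fun p => G.wdx J n' Θ (V p.1.1) p.1.2 p.2) fun q => Ltx.fld κ' (ν q) (φ q)

/-- the words of an array -/
def tnx : Wn γ (Σ q, Site 4 n' × α q) κ where
  Om := univ.filter fun ω => φ ω.1 (corner Θ.P₀.s ω.2.1) ≠ 0
  cl ω := ω.1
  a ω l := ((V ω.1).ce n' Θ.P₀.s (Fi.tr haar) b ω.2.2 l : ℝ)
  W q := sup (fat ρ (φ q))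
  Z0 ω := (G.gwT b J k n' Θ.P (V ω.1).lw).Z0 ω.2
  X0 ω := (G.gwT b J k n' Θ.P (V ω.1).lw).X0 ω.2

variable {G b J k n' Θ V ν φ ρ} {r : γ → ℝ} {l : ℕ} {Δ : ℝ}

theorem fat_mono {n ρ ρ' : ℕ} [NeZero n] {φ : Site 4 n → ℝ} (e : ρ ≤ ρ') :
    sup (fat ρ φ) ⊆ sup (fat ρ' φ) := fun y hy => by
  obtain ⟨_, _, u⟩ := mem_sup hy
  obtain ⟨v, h1, h2⟩ := fat_ne u
  refine mem_filter.2 ⟨(mem_filter.1 hy).1, fun a => ?_⟩
  have := congrFun₂ a 0 0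
  rw [fat, if_pos ⟨v, h1, fun i => (h2 i).trans e⟩] at this
  exact one_ne_zero this

namespace Ok

variable (h : G.Ok) (K : G.Nkx J k n' Θ κ κ') (t : G.Tu b J) (hp : G.Pu)
include h K t hp

/-- the centring of a letter -/
theorem cen_x {V : Nwd (G.N J) α₀ κ κ'} (W : G.Wnx b J k n' Θ V) (ω : Site 4 n' × α₀) (i : κ)
    {X : Conf → ℂ} (o : Xo (G.N J) (fun _ : Unit => X)
      fun _ => (G.wdx J n' Θ V ω i).ob n' Θ.P₀.s (Fi.tr haar) b) :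
    G.Cen b J (k + 1) X (sup (fat Θ.ρ₀ (G.wdx J n' Θ V ω i).φ)) (G.sg (k + 1)) Θ.C
      (V.ce n' Θ.P₀.s (Fi.tr haar) b ω.2 i : ℝ) := fun Y r0 N e e1 N0 hN sz hZ => by
  have : (Fi.tr haar).IsHaarMeasure := (inferInstance : haar.IsHaarMeasure)
  obtain ⟨j, u, m, c1, c2, c3, c4, c5, c6, c7⟩ := K.cen
  have : NeZero m := ⟨by omega⟩
  have l1 := K.B₀.lt
  have l2 := K.K₀.lt
  have σ0 := h.sg0 (k + 1)
  have H := W.lo ω.2 i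
  have z : ltr n' Θ.P₀.s (fun U => (V.x ω.2 i).μ * (V.x ω.2 i).Λ.ob (Fi.tr haar) b U) 1
      (V.x ω.2 i).ν (G.wdx J n' Θ V ω i).φ = (G.wdx J n' Θ V ω i).ob n' Θ.P₀.s (Fi.tr haar) b :=
    ltr_mul fun _ => rfl
  have R := h.cen_ks t hp (h.ks_ds t hp K.K₀ K.B₀) (by omega) K.K₀.hn (by
      rw [← h.rt_mul l1.le l2.le, K.K₀.ht]
      exact (dvd_mul_left _ _).mul_left _) K.B₀.l0 K.B₀.a0 K.B₀.le K.B₀.a1 c1 c2 c3 c4 c5 c6 H.ds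
    (H.at _).lp ((W.bal ω.2 i).sub _) (z ▸ o) e e1 N0 hN sz hZ
  rw [z, funext (Ltx.ob_at K.K₀.hn _ _), YM7.ex,
    Weak.int_mp (mp_shift' (Fi.tr haar) b _) (Ltx.cont _)] at R
  rw [Nwd.ce, Complex.ofReal_sub, ← sub_add]
  refine (mul_le_mul_of_nonneg_left (norm_add_le _ _) σ0.le).trans ?_
  rw [Complex.norm_real, Real.norm_eq_abs, mul_add]
  exact (add_le_add R (W.tau _ _)).trans c7

/-- the hypotheses of the second merging -/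
theorem mn_arr (W : ∀ q, G.Wnx b J k n' Θ (V q)) (hφ : ∀ q, Lqq Θ.a (φ q)) (r0 : ∀ q, 0 < r q)
    (hr : ∀ q, r q * |ν q| ≤ G.sg l) (hl : l ≤ k + 1)
    (hρ : G.rt J k * (Θ.j * (G.p k).D + 1) + Θ.R' + 1 ≤ ρ)
    (hs : Cls (G.N J) Δ univ id fun q => sup (fat ρ (φ q))) (h1 : G.dl J (k + 1) ≤ Δ)
    (h2 : (40 * Θ.c + 106) * ((G.L k : ℝ) ^ G.K0 * G.rt J k) ≤ Δ) :
    G.Mn b J Θ.k₀ k (G.aux b J n' Θ (G.xsx J n' Θ V ν φ)) (G.wux J n' Θ (G.xsx J n' Θ V ν φ))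
      (G.tnx b J k n' Θ V φ ρ) Θ.c₀ Θ.C₀ (G.sg (Θ.k₀ + 1))
      (G.vxx k Θ (Fintype.card κ') * G.cnx Θ) (G.mxx k) (G.xgx n' Θ)
      (fun _ => G.vxx k Θ (Fintype.card κ')) (·.2.1) Θ.c Θ.C (G.sg (k + 1)) r := by
  choose z z1 z2 z3 using fun p : (Σ q, Site 4 n' × α q) × κ =>
    h.lr_lo K t hp (((W p.1.1).lo p.1.2.2 p.2).at (corner Θ.P₀.s p.1.2.1))
  have rd : Θ.R + Θ.ρ₀ < Θ.R' := K.rad
  have s1 : ∀ ω ∈ (G.tnx b J k n' Θ V φ ρ).Om, ∀ i,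
      sup (fat Θ.ρ₀ (G.wdx J n' Θ (V ω.1) ω.2 i).φ) ⊆ sup (fat ρ (φ ω.1)) := fun ω e i =>
    (h.sup_at (W _) _ _ _).trans (h.ball_fat (mem_filter.1 e).2 (by omega))
  have s2 : ∀ q, sup (fat Θ.ρ₀ (φ q)) ⊆ sup (fat ρ (φ q)) := fun q => fat_mono (by omega)
  refine ⟨h.gp_x K, fun N hN => ⟨fun j => Sum.elim (z · j) r, by simp only [z1],
    h.m1_res K t hp ?_ ?_⟩, K.K.card, K.K.C0, K.K.big, h.sg0 _, fun ω e => ?_,
    fun ω e i => ⟨s1 ω e i, h.zs_ball (b := b) K.K (V _).lw _ ((h.sup_at (W _) _ _ _).trans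
      (tb_mono Subset.rfl (by simp only; omega))), h.cen_x K t hp (W _) _ _ fun _ =>
        h.xo_aux (x := G.xsx J n' Θ V ν φ) (.inl (ω, i)), _, (pow_pos (h.Q0 _) 3).le, ?_,
      by rw [u1_aux]; exact z3 (ω, i)⟩, s2,
    h.zs_cls hs (by positivity) (by linarith) le_rfl K.K.lt.le⟩
  · rintro (p | q)
    exacts [z2 p, h.lr_fld K t hp (hφ q) (r0 q) (hr q) hl]
  · have u : ∀ {q q' X X'}, q ≠ q' → X ⊆ sup (fat ρ (φ q)) → X' ⊆ sup (fat ρ (φ q')) →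
        Sep (G.N J) (G.dl J (k + 1)) X X' := fun {q q' _ _} a =>
      (hs q (mem_univ _) q' (mem_univ _) a).mono h1
    intro x hx y hy ne
    rcases Wx.mem_ad.1 hx with ⟨ω, a, i, rfl⟩ | ⟨q, a, rfl⟩ <;>
      rcases Wx.mem_ad.1 hy with ⟨ω', a', i', rfl⟩ | ⟨q', a', rfl⟩
    · by_cases e : ω = ω'
      · subst e
        exact h.cls_at (W _) _ _ i (mem_univ _) i' (mem_univ _) fun e => ne (congrArg
          (fun l => Sum.inl (ω, l)) e)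
      · exact u (fun e' => e (hN.2 a a' (congrArg Sum.inr e'))) (s1 ω (hN.1 a) i)
          (s1 ω' (hN.1 a') i')
    · exact u (a' ω a) (s1 ω (hN.1 a) i) (s2 _)
    · exact u (a ω' a').symm (s2 _) (s1 ω' (hN.1 a') i')
    · exact u (fun e => ne (congrArg Sum.inr e)) (s2 _) (s2 _)
  · obtain ⟨a1, a2, a3, a4⟩ := h.wd_gw (b := b) (Λ := (V ω.1).lw) K.K ω.2
    exact ⟨a1, a2, a3, h.x0_fat (b := b) K.K (V _).lw _ (mem_filter.1 e).2 hρ, a4⟩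
  · rw [sg, mul_comm (_ / _), ← mul_assoc, ← pow_add, mul_div_left_comm]
    exact mul_le_of_le_one_right (h.b0 _).le ((div_le_one (pow_pos (h.Q0 _) _)).2
      (pow_le_pow_right₀ (h.Q1 _) (by norm_num)))

end Ok

end Pool.Agent.Lib.MP_7f377f_mp.RG.Q4.En.Gl
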