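import Pool.Agent.Lib.MP_7f377f_mp.G.NsB3
import Pool.Agent.Lib.MP_7f377f_mp.G.NsA6

/-! Words of smeared slots: the insertions. -/

noncomputable section

set_option linter.unusedSectionVars false
variable [Pool.Agent.Lib.MP_7f377f_mp.GD]

namespace Pool.Agent.Lib.MP_7f377f_mp.RG.Q4.En.Gl

open Finset Real Sg Br YM7 Ob Pos
open Weak (Site corner)
open scoped Classical

attribute [local irreducible] box tb tau rc

variable (G : Gl) (b : ℝ) (J k : ℕ) [NeZero (G.N J)] (n' : ℕ) [NeZero n'] (Θ : Npx)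
  {κ κ' γ α₀ : Type} [Fintype κ] [DecidableEq κ] [Inhabited κ] [Fintype κ'] [DecidableEq κ']
  [Inhabited κ'] [Fintype γ] [DecidableEq γ] [Fintype α₀] {α : γ → Type} [∀ q, Fintype (α q)]

/-- the insertion of a word at a grid point -/
def cNx (V : Nwd (G.N J) α₀ κ κ') (ω : Site 4 n' × α₀) : Ac :=
  G.cN b J Θ.k₀ k (G.aux b J n' Θ (G.wdx J n' Θ V ω)) (G.wux J n' Θ (G.wdx J n' Θ V ω))
    (fun l => (V.ce n' Θ.P₀.s (Fi.tr haar) b ω.2 l : ℝ)) ((G.gwT b J k n' Θ.P V.lw).Z0 ω)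
    ((G.gwT b J k n' Θ.P V.lw).X0 ω)

/-- the insertion of the words with the profile `φ` -/
def Knx (V : Nwd (G.N J) α₀ κ κ') (φ : Site 4 (G.N J) → ℝ) : Ac :=
  ∑ ω : Site 4 n' × α₀, ((φ (corner Θ.P₀.s ω.1) * V.w ω.2 : ℝ) : ℂ) • G.cNx b J k n' Θ V ω

/-- the weights of the words of an array -/
def wwx (V : ∀ q, Nwd (G.N J) (α q) κ κ') (ψ : γ → Site 4 (G.N J) → ℝ)
    (ω : Σ q, Site 4 n' × α q) : ℂ := (ψ ω.1 (corner Θ.P₀.s ω.2.1) * (V ω.1).w ω.2.2 : ℝ)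

variable {G b J k n' Θ} {V : ∀ q, Nwd (G.N J) (α q) κ κ'} {μ ν r N : γ → ℝ}
  {φ ψ : γ → Site 4 (G.N J) → ℝ} {ρ : ℕ} {V₀ : Nwd (G.N J) α₀ κ κ'} {A Δ : ℝ}

namespace Ok

variable (h : G.Ok)
include h

/-- translations of the grid -/
theorem grid_tr {P : Grd} {a C : ℝ} {c : ℕ} (K : G.Gk J k n' P κ a c C) (v : St) {w : Site 4 n'}
    (hw : w = fun i => ((P.t * v i : ℤ) : ZMod n')) (x : Site 4 n') :
    (corner P.s (x - w) : Site 4 (G.N J)) = corner P.s x - Fi.cst _ ((G.rt J k : ℤ) • v) ∧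
      ∀ R, tb (G.N k) R {bkp P.t x} = trS (G.N k) v (tb (G.N k) R {bkp P.t (x - w)}) := by
  obtain ⟨e, s0, t0⟩ := h.gk_n K
  refine ⟨funext fun i => ?_, fun R => ?_⟩
  · rw [corner, Weak.corner_int K.hn _ ((x i).val - P.t * v i) (by simp [hw])]
    simp only [Pi.sub_apply, corner, Fi.cst, Pi.smul_apply, smul_eq_mul, K.ht]
    push_cast
    ring
  have : ∀ i, ∃ m : ℤ, (((x - w) i).val : ℤ) - ((x i).val - P.t * v i) = n' * m := fun i =>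
    (ZMod.intCast_eq_intCast_iff_dvd_sub _ _ _).1 (by simp [hw])
  choose m hm using this
  rw [TG.trS_tb]
  refine TG.tb_congr (nearT_iff.2 ⟨m, fun i => ?_⟩)
  have a : (((x - w) i).val : ℤ) = (x i).val + P.t * (G.N k * m i - v i) := by
    have := hm i
    rw [show (n' : ℤ) = P.t * G.N k by exact_mod_cast e] at this
    linarith
  simp only [bkp, Pi.add_apply, Int.natCast_div]
  rw [a, Int.add_mul_ediv_left _ _ (by exact_mod_cast t0.ne')]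
  omega

variable (K : G.Nkx J k n' Θ κ κ')
include K

/-- the observables of the cells -/
theorem xo_arr (e : ∀ q x, φ q x = 0 → ψ q x = 0) : Xo (G.N J) ((G.tnx b J k n' Θ V φ ρ).X
    ((G.aux b J n' Θ (G.xsx J n' Θ V ν φ)).X (G.N J) (G.wux J n' Θ (G.xsx J n' Θ V ν φ)))
      (G.wwx J n' Θ V ψ)) fun q U => smr n' Θ.P₀.s ((V q).ob n' Θ.P₀.s (Fi.tr haar) b) (ψ q) U +
        ν q * gfield (sy (φ q)) U := fun q => by
  have : (Fi.tr haar).IsHaarMeasure := (inferInstance : haar.IsHaarMeasure)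
  have o := h.xo_aux (b := b) (n' := n') (Θ := Θ) (x := G.xsx J n' Θ V ν φ)
  refine ⟨(o _).1.add (.sum fun ω _ => (GI.const _ _).mul (.prod fun l _ => by
    simpa only [sub_eq_add_neg] using (o _).1.add (.const _ _))), (continuous_finsetSum _
      fun _ _ => ((V q).cont.comp (Weak.continuous_shift _)).const_mul _).add
        ((continuous_gfield _).const_mul _), fun U hU => ?_⟩
  simp only [Wn.X, fun c => (o c).2.2 U hU]
  refine (congrArg₂ _ rfl (TG.sum_sig _ _ (fun ω u => by simp [wwx, e _ _ (not_not.1 u)]) q)).trans ?_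
  simp only [xsx, Sum.elim_inl, Sum.elim_inr, Ltx.ob_fld, Ltx.ob_at K.K₀.hn, wwx, tnx, smr, Nwd.ob,
    Fintype.sum_prod_type, mul_sum]
  push_cast
  rw [add_comm]
  exact congrArg₂ _ (sum_congr rfl fun _ _ => sum_congr rfl fun _ _ => mul_assoc _ _ _) rfl

theorem wt_arr (hN : ∀ q, G.Nw J k Θ.P Θ.c Θ.C (V q).lw (N q)) (hφ : ∀ q x, |φ q x| ≤ 1)
    (r0 : ∀ q, 0 ≤ r q) (Δ0 : 0 < Δ) (hs : Cls (G.N J) Δ univ id fun q => sup (fat ρ (φ q)))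
    (A0 : 0 < A) (hA : ∀ q, |μ q| * r q * N q ≤ A) : ∃ W, 0 < W ∧
      4 * G.cM k Θ.c Θ.C * W * G.Q k ^ 280 * G.bb k = A * G.sg (k + 1) ^ Fintype.card κ ∧ ∀ y,
      ∑ ω ∈ (G.tnx b J k n' Θ V φ ρ).Om.filter (y ∈ (G.tnx b J k n' Θ V φ ρ).X0 ·),
        ‖G.wwx J n' Θ V (fun q x => μ q * φ q x) ω‖ * r ((G.tnx b J k n' Θ V φ ρ).cl ω) ≤ W := by
  have := h.cM0 k Θ.c Θ.C
  have := h.Q0 k
  have := h.b0 k
  have σ0 := pow_pos (h.sg0 (k + 1)) (Fintype.card κ)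
  have t0 : 0 < Θ.t := (h.gk_n K.K).2.2
  have w0 : (0 : ℝ) < ((2 * (Θ.j * (G.p k).D) + 1) * Θ.t : ℕ) ^ 4 := by positivity
  refine ⟨A * G.sg (k + 1) ^ Fintype.card κ / (4 * G.cM k Θ.c Θ.C * G.Q k ^ 280 * G.bb k),
    by positivity, by field_simp, fun y => (h.cnt_aw (b := b) (ν := μ) (Λ := fun q => (V q).lw)
      K.K hφ r0 Δ0 hs (M := _ / _) (by positivity) (fun q => ?_) y).trans_eq
        (div_mul_cancel₀ _ w0.ne')⟩
  rw [le_div_iff₀ w0, le_div_iff₀ (by positivity)]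
  have a := mul_le_mul_of_nonneg_left (hN q).2 (mul_nonneg (abs_nonneg (μ q)) (r0 q))
  exact le_trans (le_of_eq (by ring)) (a.trans ((mul_assoc _ _ _).ge.trans
    (mul_le_mul_of_nonneg_right (hA q) σ0.le)))

variable (t : G.Tu b J) (hp : G.Pu)
include t hp

theorem m1_wd (W : G.Wnx b J k n' Θ V₀) (ω : Site 4 n' × α₀) : ∃ r, G.M1 b J Θ.k₀ (k + 1)
    (G.aux b J n' Θ (G.wdx J n' Θ V₀ ω)) (G.wux J n' Θ (G.wdx J n' Θ V₀ ω)) Θ.c₀ Θ.C₀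
    (G.sg (Θ.k₀ + 1)) (G.mxx k) (G.xgx n' Θ) (fun _ => G.vxx k Θ (Fintype.card κ')) (·.2.1) r := by
  choose z _ z2 _ using fun l => h.lr_lo K t hp ((W.lo ω.2 l).at (corner Θ.P₀.s ω.1))
  exact ⟨_, res_univ (G.aux b J n' Θ (G.wdx J n' Θ V₀ ω)) ▸
    h.m1_res K t hp (r := fun j l => z l j) z2 (h.cls_at W _ _)⟩

/-- translation invariance -/
theorem knx_tr (W : G.Wnx b J k n' Θ V₀) (v : St) {o : LP St} (ho : o ∈ lps (box (G.N k / 2))) :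
    trA (G.N k) v (G.Knx b J k n' Θ V₀ 1) o.1 o.2 = G.Knx b J k n' Θ V₀ 1 o.1 o.2 := by
  have l1 := K.B₀.lt
  have l2 := K.K₀.lt
  have e := h.rt_mul (show k ≤ Θ.k₀ by omega) l2.le
  obtain ⟨w, hw⟩ : ∃ w : Site 4 n', w = fun i => ((Θ.t * v i : ℤ) : ZMod n') := ⟨_, rfl⟩
  have g := h.grid_tr K.K v hw
  have g' := h.grid_tr K.K₀ ((G.rt Θ.k₀ k : ℤ) • v) (w := w) (by
    rw [K.K₀.ht, K.K.ht, ← mul_assoc] at e
    simp only [hw, ← show _ = Θ.t from Nat.eq_of_mul_eq_mul_right (h.gk_n K.K).2.1 e,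
      Pi.smul_apply, smul_eq_mul, Nat.cast_mul, mul_assoc, mul_left_comm])
  have g4 : ∀ x R, tb (G.N Θ.k₀) R {bkp Θ.P₀.t (x + w)} =
      trS (G.N Θ.k₀) ((G.rt Θ.k₀ k : ℤ) • v) (tb (G.N Θ.k₀) R {bkp Θ.P₀.t x}) := fun x R => by
    simpa only [add_sub_cancel_right] using (g' (x + w)).2 R
  have g2 : ∀ x, (corner Θ.P₀.s x : Site 4 (G.N J)) =
      corner Θ.P₀.s (x + w) - Fi.cst _ ((G.rt J k : ℤ) • v) := fun x => by
    simpa only [add_sub_cancel_right] using (g (x + w)).1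
  have g3 : ∀ x z, (corner Θ.P₀.s (z + w) - corner Θ.P₀.s x : Site 4 (G.N J)) =
      corner Θ.P₀.s z - corner Θ.P₀.s (x - w) := fun x z => by
    rw [g2 z, (g x).1, sub_sub_sub_cancel_right]
  funext U
  simp only [Knx, trA, Finset.sum_apply, Pi.smul_apply]
  refine Fintype.sum_equiv ((Equiv.subRight w).prodCongr (Equiv.refl α₀)) _ _ fun ω => ?_
  obtain ⟨r, M⟩ := h.m1_wd K t hp W ω
  obtain ⟨-, a1, -⟩ := h.wd_gw (b := b) (Λ := V₀.lw) K.K (ω.1 - w, ω.2)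
  have := M.cN_tr (S' := G.aux b J n' Θ (G.wdx J n' Θ V₀ (ω.1 - w, ω.2)))
    (w' := G.wux J n' Θ (G.wdx J n' Θ V₀ (ω.1 - w, ω.2))) (h.gp_x K) h t hp
    (Equiv.sigmaCongrRight fun l => (Equiv.addRight w).prodCongr (Equiv.refl _)) v
    (fun ω' => by simp [aux, aw, g3]) (funext fun q => ((srT_ltv
      (fun y => (V₀.x ω.2 q).ν * (V₀.x ω.2 q).φ y) _ _).trans (by rw [← (g _).1]; rfl)).symm)
    (fun ω' _ => ⟨congrArg (fun c => (((V₀.x ω.2 ω'.1).μ * (V₀.x ω.2 ω'.1).φ c *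
      (V₀.x ω.2 ω'.1).Λ.w ω'.2.2 : ℝ) : ℂ)) (g3 _ _), rfl, rfl, funext fun i => ((srT_ltv _ _ _).trans
      (by rw [Equiv.sigmaCongrRight_apply]; exact congrArg (fun c => symF (ltv _ c)) (g2 _).symm)).symm,
      g4 _ _, g4 _ _, tb_mono Subset.rfl (Nat.sub_le _ _), tb_dom (h.N_odd _)⟩)
    (fun l => (V₀.ce n' Θ.P₀.s (Fi.tr haar) b ω.2 l : ℝ)) a1 (tb_dom (h.N_odd _)) ho
  simp only [gwT, ← (g ω.1).2] at this
  exact congrArg _ (congrFun this U)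

variable (W : ∀ q, G.Wnx b J k n' Θ (V q))
  (M : G.Mn b J Θ.k₀ k (G.aux b J n' Θ (G.xsx J n' Θ V ν φ)) (G.wux J n' Θ (G.xsx J n' Θ V ν φ))
    (G.tnx b J k n' Θ V φ ρ) Θ.c₀ Θ.C₀ (G.sg (Θ.k₀ + 1)) (G.vxx k Θ (Fintype.card κ') * G.cnx Θ)
    (G.mxx k) (G.xgx n' Θ) (fun _ => G.vxx k Θ (Fintype.card κ')) (·.2.1) Θ.c Θ.C (G.sg (k + 1)) r)
include W M

theorem sum_arr (e : ∀ q x, φ q x = 0 → ψ q x = 0) (q : γ) :
    ∑ ω ∈ (G.tnx b J k n' Θ V φ ρ).Om.filter ((G.tnx b J k n' Θ V φ ρ).cl · = q),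
      G.wwx J n' Θ V ψ ω • G.nI b J Θ.k₀ k (G.aux b J n' Θ (G.xsx J n' Θ V ν φ))
        (G.wux J n' Θ (G.xsx J n' Θ V ν φ)) (G.tnx b J k n' Θ V φ ρ) ω =
      G.Knx b J k n' Θ (V q) (ψ q) :=
  (sum_congr rfl fun ω u => congrArg _ (M.nI_eq h t hp (mem_filter.1 u).1
    (h.m1_wd K t hp (W ω.1) ω.2).choose_spec (em_aux (x := G.xsx J n' Θ V ν φ) (Wx.inj_A ω)))).trans
    (TG.sum_sig _ (fun ω => G.wwx J n' Θ V ψ ω • G.cNx b J k n' Θ (V ω.1) ω.2)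
      (fun ω u => by simp [wwx, e _ _ (not_not.1 u)]) q)

end Ok

end Pool.Agent.Lib.MP_7f377f_mp.RG.Q4.En.Gl
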