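import Pool.Agent.Lib.MP_7f377f_mp.G.NsR
import Pool.Agent.Lib.MP_7f377f_mp.G.TyE

/-! The free energy of first order of a slot is close to its expectation. -/

noncomputable section

open Pool.Agent.Lib.MP_7f377f_mp.Jet

set_option linter.unusedSectionVars false
variable [Pool.Agent.Lib.MP_7f377f_mp.GD]

namespace Pool.Agent.Lib.MP_7f377f_mp.Ob

open Weak Finset YM7

variable {n R ρ : ℕ} [NeZero n] {φ : Site 4 n → ℝ} {c : Site 4 n}

/-- the support is in a ball -/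
def Bal (R : ℕ) (c : Site 4 n) (φ : Site 4 n → ℝ) : Prop :=
  ∀ x, φ x ≠ 0 → ∀ i, ((x - c) i).valMinAbs.natAbs ≤ R

theorem Bal.sub (h : Bal R c φ) (v : Site 4 n) : Bal R (c + v) fun x => φ (x - v) := fun x e i => by
  simpa only [sub_sub, add_comm v] using h _ e i

theorem Bal.rf (h : Bal R c φ) (l : Fin 4) : Bal R (Weak.rf l c) fun x => φ (Weak.rf l x) :=
  fun x e i => by
    refine Eq.trans_le ?_ (h _ e i)
    by_cases z : i = l
    · rw [← ZMod.natAbs_valMinAbs_neg]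
      congr 2
      simp [Weak.rf, z, add_comm, sub_eq_add_neg]
    · simp [Weak.rf, z]

theorem red_one' {κ : Type} [Fintype κ] [DecidableEq κ] {Λ : (Cfg n → ℝ) → ℝ} {O : κ → Cfg n → ℝ}
    {w M : ℝ} {e : Finset κ → ℂ} (h : Red Λ O w M e) (i : κ) :
    ‖e {i} - (Λ (O i) : ℝ)‖ ≤ M * w := by
  obtain ⟨e0, q, hq, q0, hm⟩ := h
  have a : jd {i} (fun s => Complex.exp (Jet.ma univ e s)) = e {i} := by
    simp only [jd_single, ma_single (mem_univ i), e0, zero_add, smul_eq_mul]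
    simp
  have b := jd_mul_one (sh_ma hq.pos univ e).exp hq i
  rw [a, q0, ma_zero, e0, Complex.exp_zero, one_mul, mul_one] at b
  have c := (hm _).trans b
  simp only [mo, prod_singleton] at c
  rw [norm_sub_rev, c, add_sub_cancel_right]
  simpa using hq.jd_pow {i}

end Pool.Agent.Lib.MP_7f377f_mp.Ob

namespace Pool.Agent.Lib.MP_7f377f_mp.RG.Q4.En.Gl

open Finset Real Sg Br YM7 Ob
open Weak (Site corner)

theorem sup_bl {n R ρ : ℕ} [NeZero n] {φ : Site 4 n → ℝ} {c : Site 4 n} (hn : Odd n)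
    (h : Ob.Bal R c φ) : sup (fat ρ φ) ⊆ tb n (R + ρ) {Fi.vl c} := fun x hx => by
  obtain ⟨_, _, e⟩ := mem_sup hx
  obtain ⟨v, h1, h2⟩ := fat_ne e
  refine mem_tb_single.2 ⟨rc_eq hn (mem_filter.1 hx).1, TG.near_iff.2 fun i => ?_⟩
  have := ZMod.natAbs_valMinAbs_add_le ((Fi.cst n x - v) i) ((v - c) i)
  rw [← Pi.add_apply, sub_add_sub_cancel] at this
  have := h _ h1 i
  have := h2 i
  rw [Fi.cst_vl]
  omega

/-- the constant of the centring -/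
def cZ9 (G : Gl) (j u : ℕ) : ℝ :=
  1 + 2 * exp (256 * (cJ / G.g j * u ^ 4 + G.cz j u 1)) * exp (G.cz j u 1)

namespace Ok

variable {G : Gl} {J j l c m u : ℕ} {b w N M σ : ℝ} {ι κ : Type} [Fintype ι] [DecidableEq ι]
  [Fintype κ] [DecidableEq κ] {X : ι → Conf → ℂ} {Y : Fy ι} (h : G.Ok)
include h

/-- the flow of the clusters and the free energy of first order -/
theorem fo_one {γ : Type} [DecidableEq γ] {cl : ι → γ} {W : ι → Finset St} {r0 : ι → ℝ}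
    (t : G.Tu b J) (hp : G.Pu) (hl : l ≤ J) (hj : j ≤ l) (σ0 : 0 < σ) (hX : ∀ q, GI (G.N J) (X q))
    (e : G.Fd l (G.zz b J l) univ r0 (fun _ => σ) (G.Q l ^ 329)⁻¹ Y
      fun s => G.tt (pr b (G.N J) X s) J l) (e1 : Y.bs = (G.zz b J l).d) (e3 : Y.Ec univ id)
    (N0 : 0 ≤ N) (hN : G.Q l ^ 273 * (σ * N) ≤ G.bb l)
    (sz : ∀ q, G.Sz l N N (G.Q l ^ 100)⁻¹ (Y.jt {q}).1 (Y.jt {q}).2 ∧ Y.Z q ⊆ G.zs (W q) J l)
    (geo : G.Geo univ cl c W J l j) (hM : ∀ x, (G.zs (W x) J j).card ≤ M) :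
    ∃ Y', G.Fob b J j X (2 ^ (l - j) * σ)⁻¹ M Y' ∧ ∀ q, σ * ‖jd {q} Y'.E - jd {q} Y.E‖ ≤ 1 := by
  have p := e.fi.pos
  have e' := h.fd_up (t.gd l hl).tz e (tt_hd (pr_hd hX p) hl)
  let Y' : Fy ι := ⟨Y.ψ, Y.K, Y.E, fun x => G.zs (W x) J l⟩
  have f : G.Fd l (G.zz b J l) univ (fun _ => σ) (fun _ => σ) (G.Q l ^ 329)⁻¹ Y'
      fun s => G.tt (pr b (G.N J) X s) J l :=
    ⟨e'.fi.mono p (fun _ => le_rfl) le_rfl fun q => (sz q).2, e'.ma, e'.eq⟩
  have g : G.Geo univ cl c Y'.Z l l j :=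
    ⟨fun k a b => by simpa only [Y', zs_zs hl b] using geo.one k a (b.trans hl),
      fun k a b => by simpa only [Y', zs_zs hl b] using geo.grp k a b, geo.card, geo.big,
      by simpa only [Y', zs_top] using geo.vol⟩
  have w : G.Fw2 univ b J l l j σ (fun k => (G.zz b J k).d) (fun x _ => Y.jt {x}) (fun _ => N)
      fun k s => G.tt (pr b (G.N J) X s) J k :=
    ⟨fun k _ hk => by rw [zz_step b (hk.trans_le hl)]; rfl, fun _ _ hk => h.bz_run t (hk.trans hl),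
      fun _ _ hk => funext fun _ => tt_step _ (hk.trans_le hl), fun _ a b => (a.not_gt b).elim,
      fun k a b => by
        obtain rfl := a.antisymm b
        exact ⟨N0, (mul_le_mul_of_nonneg_right (pow_le_pow_right₀ (h.Q1 _) (by norm_num))
          (mul_nonneg σ0.le N0)).trans hN, fun x _ => (sz x).1⟩⟩
  have R := h.flow2 t hp hl le_rfl hj σ0 w g f e1 (fun _ _ => rfl) e3 hN
  obtain ⟨r1, r2, r3, r4, -⟩ := R j hj le_rfl
  have u := r2 ▸ w.bz j le_rfl hj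
  refine ⟨_, ⟨_, _, _, _, _, _, (t.gd j (hj.trans hl)).tz, r1, u.2.1, u.2.2, r4, (h.th_le j).1,
    (h.th_le j).2, fun x => ⟨(inv_inv _).le, ?_⟩⟩, fun q => ?_⟩
  · rw [fw_Z j hj]
    simpa only [Y', zs_zs hl hj] using hM x
  · rw [← le_div_iff₀' σ0]
    simpa [fw_top, Y'] using (R l le_rfl hj).2.2.2.2 {q} (subset_univ _) (singleton_nonempty _)

variable [NeZero (G.N J)] [NeZero m]

/-- the factorisation over the cells -/
theorem gen_fo (b0 : 0 ≤ b) (hj : j ≤ J) (w0 : 0 < w) (hn : G.N j = m * u)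
    {L : (κ → Cfg (G.N J) → ℝ) → Prop} (hL : Ob.Cl (G.rt J j * u) L)
    (H : ∀ O : Site 4 m → κ → _, (∀ c, L (O c)) → ∃ X Y,
      Xo (G.N J) X (arr (G.rt J j * u) O) ∧ G.Fob b J j X w N Y ∧ Y.Ec univ Prod.fst) :
    Ob.Gen (Fi.tr haar) b m (G.rt J j * u) (G.al b J j) L w
      (exp ((cJ / G.g j * u ^ 4 + Fintype.card κ * N) * m ^ 4)) := fun O hO => by
  have I : YM7.Inv (G.al b J j) (G.rt J j * u) :=
    h.al_inv b0 hj (by rw [h.N_div hj]; exact dvd_mul_right _ _)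
  have k : ∀ c T,
      Ob.mo (G.al b J j) (arr (G.rt J j * u) O) (image (Prod.mk c) T) = Ob.mo (G.al b J j) (O c) T :=
    fun c T => by
      simp only [Ob.mo, prod_image (Prod.mk_right_injective c).injOn, arr]
      rw [I.sh (fun U => ∏ i ∈ T, O c i U) (continuous_finsetProd _ fun i _ => hL.cont _ (hO c) i)
        (Weak.corner _ c) fun _ => ⟨_, rfl⟩]
  have cu : ∀ (c : Weak.Site 4 m) (s : _ × κ → ℂ), cutS ({c} ×ˢ univ) s = YM7.ct c s :=
    fun c s => funext fun p => by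
      simp only [YM7.ct, cutS, mem_product, mem_singleton, mem_univ, and_true]
  obtain ⟨X, Y, o, e, ec⟩ := H O hO
  obtain ⟨q, q1, q2⟩ := h.fo_ex b0 hj w0 o e
  obtain ⟨z, -, z1, z2⟩ := h.fo_al b0 hj w0 o e
  obtain ⟨g, g1, g2⟩ := Ob.gen_abs (M' := exp (Fintype.card κ * N)) (if_pos rfl)
    (fun T i hi j hj k => by
      rw [YM7.ce, if_neg (ne_empty_of_mem hi), ec T (subset_univ T) i hi j hj k]) q2 z1 q1
    ⟨_, (z2 univ).1.congr fun s _ => congrArg z (by ext; simp [cutS])⟩ fun c => by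
      simpa only [card_product, card_singleton, one_mul, card_univ, cu] using
        (z2 ({c} ×ˢ univ)).2
  refine ⟨g, g1.mono ?_, by simpa only [k] using g2⟩
  rw [← exp_nat_mul, ← exp_add, exp_le_exp, hn]
  simp only [Fintype.card_pi, ZMod.card, prod_const, card_univ, Fintype.card_fin, Nat.cast_pow,
    Nat.cast_mul]
  linarith

theorem geo_bl {W : ι → Finset St} {R : ℕ} {Δ : ℝ} (hl : l ≤ J) (hj : j ≤ l) (hL : 3000 ≤ G.L j)
    (hs : Cls (G.N J) Δ univ id W) (h1 : 66 * ((G.L l : ℝ) ^ G.K0 * G.rt J l) ≤ Δ)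
    (h2 : 86 * ((G.L j : ℝ) ^ G.K0 * G.rt J j) ≤ Δ) (hW : ∀ q, ∃ y, W q ⊆ tb (G.N J) R {y})
    (hR : (R : ℝ) ≤ G.rt J l * G.Q l ^ 10) : G.Geo univ id 1 W J l j := by
  refine h.geo_of (R := R) hl hs h1 hs (by norm_num; exact h2) (fun y => card_le_one.2
    fun x hx z hz => (mem_filter.1 hx).2.trans (mem_filter.1 hz).2.symm) hL
    (fun y => (hW y).imp fun _ a x _ e => (show x = y from e) ▸ a) ?_
  have r := rt_pos (G := G) J l
  have a : ((R / G.rt J l : ℕ) : ℝ) ≤ G.Q l ^ 10 := Nat.cast_div_le.trans ((div_le_iff₀' r).2 hR)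
  have L := h.L1 l
  have b : (G.L l : ℝ) ^ G.K0 ≤ G.Q l :=
    pow_le_pow_right₀ (by linarith) (by have := h.K0_le; omega)
  push_cast
  refine (pow_le_pow_left₀ (by positivity) (show _ ≤ G.Q l ^ 11 from ?_) _).trans ?_
  · linarith [h.qpw l (show 10 < 11 by norm_num), h.qpw l (show 1 < 10 by norm_num), h.Q1 l,
      pow_one (G.Q l)]
  · rw [← pow_mul]
    exact pow_le_pow_right₀ (h.Q1 l) (by norm_num)

/-- the free energy of first order of a slot is close to the expectation -/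
theorem cen_ks {n' s ρ R : ℕ} [NeZero n'] {a a' ν : ℝ} {D : (Cfg (G.N J) → ℝ) → ℝ → Prop}
    {B : Cfg (G.N J) → ℝ} {φ : Site 4 (G.N J) → ℝ} {v : Site 4 (G.N J)} {X : Unit → Conf → ℂ}
    {Y : Fy Unit} {r0 : Unit → ℝ} (tu : G.Tu b J) (hp : G.Pu) (K : G.Ks b J l n' s ρ a D)
    (hJ : l < J) (hN : G.N J = n' * s) (hs : s ∣ G.rt J l) (l0 : 0 < l) (a0 : 0 < a') (a1 : a' ≤ a)
    (a2 : G.rt J l * a' ≤ 1) (hj : j ≤ l) (hn : G.N j = m * u) (m4 : 4 < m) (hL : 3000 ≤ G.L j)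
    (hu : G.dl J l + 2 * (R + ρ) + 100 * (G.L j ^ G.K0 * G.rt J j) ≤ G.rt J j * u)
    (hR : ((R + ρ : ℕ) : ℝ) ≤ G.rt J l * G.Q l ^ 10) (hB : D B ν) (hφ : Lqq a' φ) (hv : Ob.Bal R v φ)
    (o : Xo (G.N J) X fun _ => ltr n' s B 1 ν φ)
    (e : G.Fd l (G.zz b J l) univ r0 (fun _ => G.sg l) (G.Q l ^ 329)⁻¹ Y
      fun s => G.tt (pr b (G.N J) X s) J l) (e1 : Y.bs = (G.zz b J l).d)
    (N0 : 0 ≤ N) (hN' : G.Q l ^ 273 * (G.sg l * N) ≤ G.bb l)
    (sz : G.Sz l N N (G.Q l ^ 100)⁻¹ (Y.jt {()}).1 (Y.jt {()}).2)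
    (hZ : Y.Z () ⊆ G.zs (sup (fat ρ φ)) J l) :
    G.sg l * ‖jd {()} Y.E - (YM7.ex (Fi.tr haar) b (G.N J) (ltr n' s B 1 ν φ) : ℝ)‖ ≤ G.cZ9 j u := by
  have : (Fi.tr haar).IsHaarMeasure := (inferInstance : haar.IsHaarMeasure)
  have jJ := hj.trans hJ.le
  have o' := h.N_odd J
  have σ0 := h.sg_pos l
  have w0 := inv_pos.2 (mul_pos (pow_pos (two_pos (α := ℝ)) (l - j)) σ0)
  have r0 : 0 < G.rt J j := pow_pos three_pos _
  have hN1 : G.N J = m * (G.rt J j * u) := by rw [← h.rt_N jJ, hn, mul_left_comm]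
  have hl : G.rt J j * u < G.N J := by
    have := o'.pos
    rw [hN1] at this ⊢
    exact lt_mul_of_one_lt_left (Nat.pos_of_mul_pos_left this) (by omega)
  have hs1 : s ∣ G.rt J j := by
    rw [← h.rt_mul hj hJ.le]
    exact hs.mul_left _
  have hs' := hs1.mul_right u
  have K1 : G.rt J j ≤ G.L j ^ G.K0 * G.rt J j :=
    Nat.le_mul_of_pos_left _ (pow_pos (by omega) _)
  have cd : ∀ {W y}, W ⊆ tb (G.N J) (R + ρ) {y} → ((G.zs W J j).card : ℝ) ≤
      ((2 * (u + 4 * G.L j ^ G.K0) + 1) ^ 4 : ℕ) := fun e => Nat.cast_le.2 ((h.zs_card e jJ).trans (by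
    have : (R + ρ) / G.rt J j ≤ u := Nat.div_le_of_le_mul (by omega)
    gcongr))
  have d1 : 66 * ((G.L l : ℝ) ^ G.K0 * G.rt J l) ≤ G.dl J l := by exact_mod_cast dl_ge
  generalize hlam : G.rt J j * u = lam at hu hN1 hl hs'
  obtain ⟨μ, hμ⟩ : ∃ μ, μ = lam / 2 - G.rt J j - R := ⟨_, rfl⟩
  let L : (Unit → Cfg (G.N J) → ℝ) → Prop := fun O => ∃ B ν φ c, Pc lam μ 0 a' (fun _ : Unit => φ) ∧
    Ob.Bal R c φ ∧ D B ν ∧ O = fun _ => ltr n' s B 1 ν φ
  have cL : Ob.Cl lam L := by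
    refine ⟨?_, ?_, ?_⟩
    · rintro _ ⟨B, ν, φ, c, -, -, e, rfl⟩ i
      exact cont_ltr (K.cont e)
    · rintro _ ⟨B, ν, φ, c, p, q, e, rfl⟩ y
      exact ⟨fun V => B (Weak.refl y V), ν, _, _, p.rf hl y, (q.rf y).sub _, K.rf y e,
        funext₂ fun _ U => ltr_rcl hN hs' y U⟩
    · rintro _ ⟨B, ν, φ, c, p, -, e, rfl⟩ i U V hU
      exact ltr_dl (K.dep e) hl (by omega) (p.mar i) hU
  have g := h.gen_fo (N := ((2 * (u + 4 * G.L j ^ G.K0) + 1) ^ 4 : ℕ)) tu.b0 jJ w0 hn (hlam ▸ cL)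
    fun O hO => by
      choose A ν φ c p q e f using hO
      have hc : Cls (G.N J) (2 * (μ - ρ : ℝ) / 1) univ id fun q : Site 4 m × Unit =>
          sup (fat ρ fun x => φ q.1 (x - corner lam q.1)) := fun x _ y _ v =>
        have I := fun x => (p x).inT (ρ := ρ) (δ := μ - ρ) hl (by omega) zero_le_one
          (by linarith) x ()
        sep_cell hN1 one_pos (I x.1) (I y.1) fun w => v (Prod.ext w rfl)
      have m1 : (G.dl J l + 2 * ρ + 86 * (G.L j ^ G.K0 * G.rt J j) : ℝ) ≤ 2 * μ := by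
        exact_mod_cast (show G.dl J l + 2 * ρ + 86 * (G.L j ^ G.K0 * G.rt J j) ≤ 2 * μ by omega)
      have m2 : (0 : ℝ) ≤ G.L j ^ G.K0 * G.rt J j := by positivity
      have m3 : (0 : ℝ) ≤ G.dl J l := by positivity
      obtain ⟨X, o, S⟩ := K.core _ _ _ _ _ l0 a0 a1 a2 (fun q : Site 4 m × Unit => e q.1)
        (fun q => TG.lqq_sub ((p q.1).lp q.2) _) fun x a y a' v =>
          (hc x a y a' v).mono (by linarith) (by rfl) (by rfl)
      have bl := fun x : Site 4 m × Unit => sup_bl (ρ := ρ) o' ((q x.1).sub (corner lam x.1))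
      obtain ⟨Y, y1, y2, -⟩ := h.fo_sl tu hp hJ.le hj σ0 (fun q => (o q).1) S
        (h.geo_bl hJ.le hj hL hc (by linarith) (by linarith) (fun x => ⟨_, bl x⟩) hR)
        fun x => cd (bl x)
      refine ⟨X, Y, (congrArg (Xo _ X) (funext₂ fun q U => ?_)).mpr o, y1,
        fun T hT x hx y hy ne => y2 T hT x hx y hy fun a => ne (congrArg _ a)⟩
      rw [arr, f q.1, hlam]
      exact ltr_shift hN hs' _ U
  obtain ⟨Y', y1, y2⟩ := h.fo_one (cl := id) (W := fun _ => sup (fat ρ φ)) tu hp hJ.le hj σ0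
    (fun q => (o q).1) e e1 (fun _ _ _ _ _ _ e => (e rfl).elim) N0 hN' (fun _ => ⟨sz, hZ⟩)
    (h.geo_bl (Δ := G.dl J l + 86 * (G.L j ^ G.K0 * G.rt J j)) hJ.le hj hL
      (fun _ _ _ _ e => (e rfl).elim) (d1.trans (le_add_of_nonneg_right (by positivity)))
      (le_add_of_nonneg_left (by positivity)) (fun _ => ⟨_, sup_bl o' hv⟩) hR)
    fun _ => cd (sup_bl o' hv)
  obtain ⟨z, z0, z1, z2⟩ := h.fo_al tu.b0 jJ w0 o y1
  have : NeZero (G.N j) := ⟨(h.N_odd j).pos.ne'⟩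
  obtain ⟨c, hc⟩ : ∃ c : Site 4 (G.N j), ∀ i, ∃ z : ℕ, (v + corner (G.rt J j) c : Site 4 _) i = z ∧
      z ≤ lam / 2 ∧ lam / 2 ≤ z + G.rt J j := by
    refine ⟨fun i => ((((lam / 2 : ℕ) - (v i).val) / G.rt J j : ℤ) : ZMod _), fun i => ?_⟩
    have r1 : (0 : ℤ) < G.rt J j := by exact_mod_cast r0
    have b1 := Int.emod_nonneg (((lam / 2 : ℕ) : ℤ) - (v i).val) r1.ne'
    have b2 := Int.emod_lt_of_pos (((lam / 2 : ℕ) : ℤ) - (v i).val) r1
    have b3 := Int.mul_ediv_add_emod (((lam / 2 : ℕ) : ℤ) - (v i).val) (G.rt J j)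
    refine ⟨(((lam / 2 : ℕ) : ℤ) - (((lam / 2 : ℕ) : ℤ) - (v i).val) % G.rt J j).toNat, ?_,
      by omega, by omega⟩
    rw [Pi.add_apply, corner, Weak.corner_int ((h.rt_N jJ).symm.trans (mul_comm _ _)) _ _ rfl,
      ← Int.cast_natCast (Int.toNat _), Int.toNat_of_nonneg (by omega), eq_sub_of_add_eq b3]
    simp only [Int.cast_sub, Int.cast_natCast, ZMod.natCast_zmod_val]
    ring
  have cO := cont_ltr (n' := n') (s := s) (μ := 1) (ν := ν) (φ := φ) (K.cont hB)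
  have hO : L fun _ U => ltr n' s B 1 ν φ (Weak.shift (corner (G.rt J j) c) U) := by
    refine ⟨B, ν, _, _, ⟨fun _ => TG.lqq_sub hφ _, fun _ x e i => ?_, fun _ _ e => (e rfl).elim⟩,
      hv.sub _, hB, funext₂ fun _ U => ltr_shift hN hs1 c U⟩
    obtain ⟨z, z1, z2, z3⟩ := hc i
    have a := hv.sub _ x e i
    have a' : x i = (((z : ℤ) + ((x - (v + corner (G.rt J j) c) : Site 4 _) i).valMinAbs).toNat : ℕ) := by
      rw [← Int.cast_natCast, Int.toNat_of_nonneg (by omega)]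
      simp [← z1]
    rw [a', ZMod.val_cast_of_lt (by omega)]
    omega
  have I := h.al_inv (lam := G.rt J j) tu.b0 jJ (h.N_div jJ ▸ dvd_rfl)
  have R1 := red_one' (Ob.red_of_gen (hlam ▸ h.al_inv tu.b0 jJ (by
    rw [h.N_div jJ]; exact dvd_mul_right _ _)) tu.b0 (Nat.Odd.of_mul_left (hn ▸ h.N_odd j)) hN1 w0
    (by have := cJ_nn; have := h.g0 j; positivity) cL (hlam ▸ g) hO m4 (e := YM7.ce Y'.E)
    ⟨if_pos rfl, z, (z2 univ).1.congr fun s _ => congrArg z (by ext; simp [cutS]), z0, fun T => by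
      rw [← z1, Ob.mo, Ob.mo, I.sh (fun U => ∏ _i ∈ T, ltr n' s B 1 ν φ U)
        (continuous_finsetProd _ fun _ _ => cO) (corner _ c) fun _ => ⟨_, rfl⟩]⟩) ()
  rw [YM7.ce, if_neg (singleton_ne_empty _), YM7.ex,
    Weak.int_mp (mp_shift' (Fi.tr haar) b _) cO] at R1
  simp only [card_univ, Fintype.card_unit, pow_one] at R1
  have R2 := norm_sub_le_norm_sub_add_norm_sub (jd {()} Y.E) (jd {()} Y'.E)
    (YM7.ex (Fi.tr haar) b (G.N J) (ltr n' s B 1 ν φ) : ℝ)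
  have R3 := mul_le_mul_of_nonneg_left R1 σ0.le
  rw [mul_inv, mul_left_comm, mul_left_comm (G.sg l), mul_inv_cancel₀ σ0.ne', mul_one] at R3
  have R4 := R3.trans (mul_le_of_le_one_right (by positivity)
    (inv_le_one_of_one_le₀ (one_le_pow₀ one_le_two)))
  rw [norm_sub_rev (jd {()} Y.E) (jd _ _)] at R2
  refine (mul_le_mul_of_nonneg_left R2 σ0.le).trans ?_
  rw [mul_add]
  exact add_le_add (y2 ()) R4

end Ok

end Pool.Agent.Lib.MP_7f377f_mp.RG.Q4.En.Gl
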