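import Pool.Agent.Lib.MP_7f377f_mp.G.NsC
import Pool.Agent.Lib.MP_7f377f_mp.G.NsZ

/-! Products of slots merged at a larger scale: the statement on the lattice. -/

noncomputable section

set_option linter.unusedSectionVars false
variable [Pool.Agent.Lib.MP_7f377f_mp.GD]

namespace Pool.Agent.Lib.MP_7f377f_mp.RG.Q4.En.Gl

open Finset Real Sg Br YM7 Ob

/-- the class is closed under sums -/
def Wsum {n : ℕ} (R : Wc n) : Prop := ∀ (ι : Type) [Fintype ι] (B : ι → Cfg n → ℝ)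
  (I : ι → (Weak.Site 4 n → ℝ) → Ac) (N c : ι → ℝ) (N' : ℝ), (∀ i, R (B i) (I i) (N i)) → 0 < N' →
    ∑ i, |c i| * N i ≤ N' → ∃ I', R (fun U => ∑ i, c i * B i U) I' N'

variable (G : Gl)

/-- the class contains the products of at most five centred slots of the level `l` -/
def Wpr (b : ℝ) (J l : ℕ) [NeZero (G.N J)] (n' s : ℕ) [NeZero n'] (ρ R₀ : ℕ) (a N : ℝ)
    (D : (Cfg (G.N J) → ℝ) → ℝ → Prop) (R : Wc (G.N J)) : Prop :=
  ∀ m, 1 ≤ m → m ≤ 5 → ∀ (B : Fin m → Cfg (G.N J) → ℝ) (ν : Fin m → ℝ)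
    (φ : Fin m → Weak.Site 4 (G.N J) → ℝ), (∀ i, D (B i) (ν i) ∧ Lqq a (φ i) ∧ Bal R₀ 0 (φ i)) →
    Cls (G.N J) (G.dl J l) univ id (fun i => sup (fat ρ (φ i))) →
    ∃ I, R (fun U => ∏ i, (ltr n' s (B i) 1 (ν i) (φ i) U -
      YM7.ex (Fi.tr haar) b (G.N J) (ltr n' s (B i) 1 (ν i) (φ i)))) I (N / G.sg l ^ m)

/-- slots of words merged at a level `k' > k + 1` are letters of words merged at the level `k` -/
def Nl (X : ℝ) (M c : ℕ) (C : ℝ) (n k : ℕ) : Prop :=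
  ∀ (b : ℝ) (J k' n' ρ R₀ t : ℕ) [NeZero (G.N J)] [NeZero n'] (P : Grd) (a a' : ℝ), G.Tu b J →
    G.Gk J k' n' P (Fin (M + 1)) a c C → G.Gb J k' (k + 1) P a c a' ρ → G.rt J k = t * P.s →
    (R₀ + ρ : ℝ) ≤ X * G.L k ^ G.K0 * G.rt J k → ∃ (R : Wc (G.N J)) (ρ' : ℕ),
      (ρ' : ℝ) ≤ G.Q k * G.rt J (k + 1) ∧ G.Am b J k n' P.s ρ' a' R ∧ Wsum R ∧
      G.Wpr b J (k + 1) n' P.s ρ R₀ a' (G.Q k ^ n * G.bb k * t ^ 4)
        (G.Ds b J k' (k + 1) n' P (Fin (M + 1)) a c C) R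

end Pool.Agent.Lib.MP_7f377f_mp.RG.Q4.En.Gl
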