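import Pool.Agent.Lib.MP_7f377f_mp.G.NsB1
import Pool.Agent.Lib.MP_7f377f_mp.G.NsB4
import Pool.Agent.Lib.MP_7f377f_mp.G.NsE0

/-! Words of smeared slots: the class of the words. -/

noncomputable section

set_option linter.unusedSectionVars false
variable [Pool.Agent.Lib.MP_7f377f_mp.GD]

namespace Pool.Agent.Lib.MP_7f377f_mp.RG.Q4.En.Gl

open Finset Real Sg Br YM7 Ob Pos
open Weak (Site corner)
open scoped Classical

attribute [local irreducible] box tb tau rc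

variable (G : Gl) (b : ℝ) (J k : ℕ) [NeZero (G.N J)] (n' : ℕ) [NeZero n'] (Θ : Npx)
  (κ κ' : Type) [Fintype κ] [DecidableEq κ] [Inhabited κ] [Fintype κ'] [DecidableEq κ']
  [Inhabited κ'] {α₀ : Type} [Fintype α₀]

/-- sums of admissible words of slots -/
def Rnx : Wc (G.N J) := fun B I N => ∃ (α : Type) (_ : Fintype α) (V : Nwd (G.N J) α κ κ'),
  G.Wnx b J k n' Θ V ∧ G.Nw J k Θ.P Θ.c Θ.C V.lw N ∧ B = V.ob n' Θ.P₀.s (Fi.tr haar) b ∧
    I = G.Knx b J k n' Θ V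

variable {G b J k n' Θ κ κ'} {V : Nwd (G.N J) α₀ κ κ'} {N : ℝ} {ρ : ℕ}

namespace Ok

variable (h : G.Ok)
include h

theorem rn_sum : Wsum (G.Rnx b J k n' Θ κ κ') := fun ι _ B I N c N' H N0 hN => by
  choose α i V h1 h2 h3 _ using H
  refine ⟨_, Σ t, α t, inferInstance, ⟨fun x => (V x.1).x x.2, fun x => (V x.1).τ x.2,
    fun x => c x.1 * (V x.1).w x.2⟩, ⟨fun x => (h1 x.1).lo x.2, fun x => (h1 x.1).bal x.2,
      fun x => (h1 x.1).sep x.2, fun x => (h1 x.1).tau x.2⟩, ⟨N0, le_trans ?_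
        (mul_le_mul_of_nonneg_right hN (pow_pos (h.sg0 _) _).le)⟩, funext fun U => ?_, rfl⟩
  · simp only [Nwd.lw, Fintype.sum_sigma, abs_mul, ← mul_sum]
    rw [sum_mul, sum_mul, mul_sum, sum_mul, sum_mul]
    refine sum_le_sum fun t _ => ?_
    rw [mul_assoc |c t| (N t)]
    exact le_trans (le_of_eq (by simp only [Nwd.lw]; ring))
      (mul_le_mul_of_nonneg_left (h2 t).2 (abs_nonneg _))
  · simp only [h3, Nwd.ob, Nwd.ce, Fintype.sum_sigma, mul_sum, mul_assoc]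

variable (K : G.Nkx J k n' Θ κ κ') (t : G.Tu b J) (hp : G.Pu)
  (hρ : G.rt J k * (Θ.j * (G.p k).D + 1) + Θ.R' + 1 ≤ ρ)
include K t hp hρ

/-- all the words in one cell -/
theorem mn_one (W : G.Wnx b J k n' Θ V) (hN : G.Nw J k Θ.P Θ.c Θ.C V.lw N) :
    ∃ (Ω : Type) (_ : DecidableEq Ω) (S : Ws ((Σ _ : Unit, Site 4 n' × α₀) × κ ⊕ Unit) Ω κ')
      (w : Ω → ℂ) (ps : Ω → Site 4 n') (T : Wn Unit (Σ _ : Unit, Site 4 n' × α₀) κ) (Wt : ℝ),
      G.Mn b J Θ.k₀ k S w T Θ.c₀ Θ.C₀ (G.sg (Θ.k₀ + 1)) (G.vxx k Θ (Fintype.card κ') * G.cnx Θ)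
        (G.mxx k) (G.xgx n' Θ) (fun _ => G.vxx k Θ (Fintype.card κ')) ps Θ.c Θ.C (G.sg (k + 1)) 1 ∧
      0 < Wt ∧ 4 * G.cM k Θ.c Θ.C * Wt * G.Q k ^ 280 * G.bb k = N * G.sg (k + 1) ^ Fintype.card κ ∧
      (∀ y, ∑ ω ∈ T.Om.filter (y ∈ T.X0 ·), ‖(V.w ω.2.2 : ℂ)‖ ≤ Wt) ∧
      (∀ φ, G.Knx b J k n' Θ V φ = ∑ ω ∈ T.Om, ((φ (corner Θ.P₀.s ω.2.1) : ℂ) * V.w ω.2.2) •
        G.nI b J Θ.k₀ k S w T ω) ∧ (∀ ω ∈ T.Om, RealA (G.nI b J Θ.k₀ k S w T ω)) ∧
      (∀ ω, T.X0 ω = tb (G.N k) (Θ.j * (G.p k).D) {bkp Θ.t ω.2.1}) ∧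
      Rt (G.sl k (G.zz b J k)) (G.zz b J k).d (0, G.Knx b J k n' Θ V 1) (G.f b J k)
        (G.tt (fun U => wil b (G.N J) U * smr n' Θ.P₀.s (V.ob n' Θ.P₀.s (Fi.tr haar) b) 1
          (Fi.rs (G.N J) U)) J k) := by
  have v : ∀ {δ Z}, Cls (G.N J) δ (univ : Finset Unit) id Z := fun _ _ _ _ e => (e rfl).elim
  have M := h.mn_arr K t hp (V := fun _ : Unit => V) (ν := 0) (φ := 1) (r := 1) (l := 0)
    (fun _ => W) (fun _ => ⟨fun _ => by simp, fun _ _ => by simpa using K.K.a0.le⟩)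
    (fun _ => one_pos) (fun _ => by simpa using (h.sg0 0).le) (Nat.zero_le _) hρ v
    (le_max_left _ _) (le_max_right _ _)
  obtain ⟨w, w0, w1, w2⟩ := h.wt_arr (b := b) K (V := fun _ : Unit => V) (μ := 1) (φ := 1) (r := 1)
    (ρ := ρ) (fun _ => hN) (fun _ _ => by simp) (fun _ => zero_le_one) one_pos v hN.1 (by simp)
  have s := fun φ => h.sum_arr K t hp (fun _ => W) M (ψ := fun _ => φ) (by simp) ()
  have R := M.rt h t hp (G.wwx J n' Θ (fun _ => V) 1) ()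
  rw [show G.wwx J n' Θ (fun _ : Unit => V) 1 = G.wwx J n' Θ _ fun _ => 1 from rfl, s, u1_aux,
    h.tt_eq (fun U hU => by rw [(h.xo_arr K (by simp) ()).2.2 U hU]) K.K.lt] at R
  refine ⟨_, _, _, _, _, _, w, M, w0, w1, by simpa [wwx] using w2, fun φ => by
    simpa [wwx] using (s φ).symm, fun ω e => M.real h t hp (fun _ => ⟨Complex.ofReal_im _,
      fun _ => ⟨Complex.ofReal_im _, fun _ _ _ => Complex.ofReal_im _⟩⟩)
      (fun _ _ _ _ => Complex.ofReal_im _) e fun _ => Complex.ofReal_im _, fun _ => rfl, ?_⟩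
  simp only [xsx, Sum.elim_inr, tn_fld (K.B₀.lt.le.trans' k.le_succ) K.K₀.lt.le, Pi.zero_apply,
    zero_mul, add_zero, neg_zero] at R
  rwa [show symF (sy fun _ : Site 4 (G.N J) => 0) = 0 by simpa using symF_zero 0,
    (h.ra_zero t 1).1, zero_add] at R

/-- the words of slots are a class of words -/
theorem am_rn : G.Am b J k n' Θ.P₀.s ρ Θ.a (G.Rnx b J k n' Θ κ κ') := by
  have : (Fi.tr haar).IsHaarMeasure := (inferInstance : haar.IsHaarMeasure)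
  have q0 := h.Q0 k
  have kJ := K.K.lt
  refine ⟨kJ, K.K.hn, ?_, ?_, ?_, ?_, fun γ _ _ B I N μ ν r φ l hl H hs => ?_⟩
  · obtain ⟨I, e⟩ := h.rn_sum (b := b) (J := J) (k := k) (n' := n') (Θ := Θ) (κ := κ) (κ' := κ')
      Empty 0 0 0 0 1 (·.elim) one_pos (by simp)
    exact ⟨_, I, 1, e⟩
  · rintro _ _ N ⟨α, _, V, W, hN, rfl, rfl⟩
    exact ⟨hN.1, by simp [Knx], V.cont, W.dl K (by simp only; omega)⟩
  · rintro _ _ N ⟨α, _, V, W, hN, rfl, rfl⟩
    obtain ⟨_, _, S, w, ps, T, Wt, M, w0, w1, w2, e, re, -, R⟩ := h.mn_one K t hp hρ W hN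
    refine ⟨?_, ⟨fun _ _ _ _ => rfl, fun X c U => ?_, fun v => ⟨rfl, fun o =>
      h.knx_tr K t hp W v⟩⟩, R⟩
    · simpa [e] using M.sz h t hp w2 w0 hN.1.le w1.le
    · simp only [e, Finset.sum_apply, Complex.im_sum]
      exact sum_eq_zero fun ω hω => by simp [re ω hω X c U]
  · rintro _ _ N ⟨α, _, V, W, hN, rfl, rfl⟩ φ a a0 hL
    obtain ⟨_, _, S, w, ps, T, Wt, M, w0, w1, w2, e, -, x0, -⟩ := h.mn_one K t hp hρ W hN
    have r0 := rt_pos (G := G) J k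
    simpa [e] using M.slow h t hp (x := 0) (E := G.Q k ^ 2 * (G.rt J k * a) * N)
      (φ := fun ω => (φ (corner Θ.P₀.s ω.2.1) : ℝ)) w2 w0 le_rfl (by positivity)
      (h.fd_lip hL k kJ.le) (fun ω _ => by
        obtain ⟨z, z1, z2⟩ := h.near_bkp K.K ω.2.1
        refine ⟨z, x0 ω ▸ tb_mono (by rfl) (Nat.zero_le _) z1, ?_⟩
        have := hL _ _ _ z2.symm
        simp only [Fi.cst_vl] at this
        exact this.trans ((mul_comm _ _).le.trans (le_mul_of_one_le_right (by positivity) (h.Q1 k))))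
      (le_of_eq (by linear_combination (G.Q k ^ 2 * (G.rt J k * a)) * w1))
  choose α _ V W hN e1 e2 using fun q => (H q).1
  have D0 : ∀ j, 0 < (G.L j : ℝ) ^ G.K0 * G.rt J j := fun j =>
    mul_pos (pow_pos (by linarith [h.L1 j]) _) (rt_pos J j)
  have d1 : 66 * ((G.L l : ℝ) ^ G.K0 * G.rt J l) ≤ G.dl J l := by exact_mod_cast dl_ge
  have s0 := h.sg0 l
  have b0 := h.b0 k
  have σ0 := pow_pos (h.sg0 (k + 1)) (Fintype.card κ)
  have M := h.mn_arr K t hp W (fun q => (H q).2.1) (fun q => (H q).2.2.1) (fun q => (H q).2.2.2.1)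
    (by omega) hρ hs (Nat.cast_le.2 (h.dl_anti (by omega) kJ)) (le_trans
      (mul_le_mul_of_nonneg_right (by
        have : (2 * Θ.c + 3 : ℝ) ≤ G.L k := by exact_mod_cast K.big
        linarith [h.L1 k]) (D0 k).le) (h.dl_le hl kJ.le))
  obtain ⟨w, w0, w1, w2⟩ := h.wt_arr (b := b) K (μ := μ) hN (fun q => (H q).2.1.1)
    (fun q => (H q).2.2.1.le) (by linarith [D0 l]) hs (A := G.sg l / G.Q k ^ 7) (by positivity)
    fun q => (le_div_iff₀ (by positivity)).2 (H q).2.2.2.2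
  obtain ⟨Y, y1, y2, y3, y4, y5⟩ := M.merge h t hp (fun q => ⟨(H q).2.2.1, le_rfl⟩) w2 (by
    have := mul_le_mul_of_nonneg_right (h.sg_bb hl.le (i := 43) (by norm_num)) σ0.le
    rw [div_mul_eq_mul_div, eq_div_iff (by positivity)] at w1
    refine le_of_mul_le_mul_left ?_ (show 0 < 4 * G.bb k by positivity)
    nlinarith only [this, mul_pos b0 σ0, congrArg (G.Q k ^ 43 * ·) w1])
  refine ⟨_, Y, ?_, y1, y2, y3, y4, fun q => ?_⟩
  · convert h.xo_arr (b := b) (V := V) (ν := ν) (ρ := ρ) K (ψ := fun q x => μ q * φ q x)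
      (fun q x e => mul_eq_zero_of_right _ e) using 3 with q U
    simp only [ltr, smr, e1, mul_sum, mul_assoc]
  · rw [y5, h.sum_arr K t hp W M (ψ := fun q x => μ q * φ q x)
      fun q x e => mul_eq_zero_of_right _ e, u1_aux, uk, e2]
    exact congrArg (· + _) (tn_fld (K.B₀.lt.le.trans' k.le_succ) K.K₀.lt.le)

omit t hp hρ in
/-- products of slots -/
theorem rn_pr {n : ℕ} (hκ : Fintype.card κ = 5) (hn : 4 * G.cM k Θ.c Θ.C *
      ((2 * (Θ.j * (G.p k).D) + 1 : ℕ) : ℝ) ^ 4 * G.Q k ^ 280 ≤ G.Q k ^ n) :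
    G.Wpr b J (k + 1) n' Θ.P₀.s Θ.ρ₀ Θ.R Θ.a (G.Q k ^ n * G.bb k * Θ.t ^ 4)
      (G.Ds b J Θ.k₀ (k + 1) n' Θ.P₀ κ' Θ.a₀ Θ.c₀ Θ.C₀) (G.Rnx b J k n' Θ κ κ') := by
  intro m _ hm B ν φ H hs
  have : (Fi.tr haar).IsHaarMeasure := (inferInstance : haar.IsHaarMeasure)
  obtain ⟨r, hr⟩ := Nat.exists_eq_add_of_le hm
  obtain ⟨E⟩ : Nonempty (κ ≃ Fin m ⊕ Fin r) := Fintype.card_eq.1 (by simpa [hκ] using hr)
  choose α _ Λ μ W d z using fun i => (H i).1 []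
  have z' : ∀ i, B i = fun U => μ i * (Λ i).ob (Fi.tr haar) b U := fun i => funext (z i)
  have σ0 := h.sg0 (k + 1)
  have q0 := h.Q0 k
  have b0 := h.b0 k
  have t0 : 0 < Θ.t := (h.gk_n K.K).2.2
  refine ⟨_, Unit, inferInstance, ⟨fun _ l => (E l).elim
    (fun i => ⟨α i, inferInstance, Λ i, μ i, ν i, φ i⟩) fun _ => .fld κ' 0 0,
    fun _ l => (E l).elim 0 fun _ => (G.sg (k + 1))⁻¹, fun _ => G.sg (k + 1) ^ r⟩,
    ⟨fun _ l => ?_, fun _ l => ?_, fun _ l _ l' _ e => ?_, fun _ l => ?_⟩, ⟨by positivity, ?_⟩,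
    funext fun U => ?_, rfl⟩
  · simp only
    rcases E l with i | i
    exacts [⟨W i, d i, z' i ▸ (H i).1, (H i).2.1⟩,
      lo_fld (by simp) ⟨fun _ => by simp, fun _ _ => by simpa using K.K.a0.le⟩]
  · simp only
    rcases E l with i | i
    exacts [(H i).2.2, fun _ e => (e rfl).elim]
  · have e' : E l ≠ E l' := E.injective.ne e
    simp only
    generalize E l = i at e' ⊢
    generalize E l' = i' at e' ⊢
    rcases i with i | i <;> rcases i' with i' | i' <;> simp only [Sum.elim_inl, Sum.elim_inr, fat_zero]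
    exacts [hs i (mem_univ _) i' (mem_univ _) fun u => e' (congrArg _ u),
      fun _ _ _ a => (notMem_empty _ a).elim, fun _ a => (notMem_empty _ a).elim,
      fun _ a => (notMem_empty _ a).elim]
  · simp only
    rcases E l with i | i
    · simp
    · simp [abs_of_pos σ0, σ0.ne']
  · simp only [Nwd.lw, univ_unique, sum_singleton, abs_of_pos (pow_pos σ0 r), hκ, hr, pow_add,
      Nat.cast_mul, mul_pow]
    refine le_trans (le_of_eq (by ring)) ((mul_le_mul_of_nonneg_right hn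
      (show 0 ≤ G.bb k * Θ.t ^ 4 * G.sg (k + 1) ^ r by positivity)).trans_eq (by field_simp))
  · simp only [Nwd.ob, Nwd.ce, univ_unique, sum_singleton]
    rw [← E.symm.prod_comp, Fintype.prod_sum_type]
    simp only [Equiv.apply_symm_apply, Sum.elim_inl, Sum.elim_inr, Ltx.ob_fld,
      zero_mul, YM7.ex, MeasureTheory.integral_zero, Pi.zero_apply, sub_zero, zero_sub, neg_neg,
      prod_const, card_univ, Fintype.card_fin, inv_pow]
    simp only [Ltx.ob, ← fun i => ltr_mul (n' := n') (s := Θ.P₀.s) (ν := ν i) (ψ := φ i)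
      (B := B i) (z i)]
    field_simp

end Ok

/-- slots of words are letters of words at a larger scale -/
theorem Oks.nl {G : Gl} (o : G.Oks) (X : ℝ) (M c : ℕ) (C : ℝ) :
    ∃ n, ∀ᶠ k in Filter.atTop, ∀ v, (G.wm v).Nl X M c C n k := by
  obtain ⟨i, c', C', e⟩ := o.nkx X
  refine ⟨2 * c' + 285, e.mono fun k e v b J k' n' ρ R t _ _ P a a' T K B ht hR => ?_⟩
  obtain ⟨a1, a2, a3⟩ := e v J k' n' ρ R t c P (Fin 5) _ a C a' (by simp) K B ht hR
  exact ⟨_, _, a2, (o v).1.am_rn a1 T (o v).2 le_rfl, (o v).1.rn_sum,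
    (o v).1.rn_pr a1 (Fintype.card_fin 5) a3⟩

end Pool.Agent.Lib.MP_7f377f_mp.RG.Q4.En.Gl
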