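import Pool.Agent.Lib.MP_7f377f_mp.G.NsR

/-! Abstract classes of slots: the continuum limit. -/

noncomputable section

set_option linter.unusedSectionVars false
variable [Pool.Agent.Lib.MP_7f377f_mp.GD]

namespace Pool.Agent.Lib.MP_7f377f_mp.RG.Q4.En.Gl

open Filter Topology Real YM7 Pur Ob Finset
open Ope (sc gp)

/-- classes of slots on all the lattices -/
abbrev Ky (G : Gl) : Type := ∀ p : ℕ × ℕ, (Cfg (G.nn p) → ℝ) → ℝ → Prop

variable (G : Gl) (β : ℕ × ℕ → ℝ) (U : Filter (ℕ × ℕ))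

/-- admissible classes at the level `l` with the mesh `3 ^ -e` and the radius `r` -/
def Kc (l e : ℕ) (r : ℝ) (D : G.Ky) : Prop := ∀ᶠ p in U, ∃ ρ : ℕ, G.aa p * ρ ≤ r ∧
  (G.wm p.1).Ks (β p) p.2 l (nq p.1 e) (3 ^ (G.e p.2 - e)) ρ (G.aa p / r) (D p)

/-- the letter `yy e A ν` has the size `η` -/
def Sk (r : ℝ) (D : G.Ky) (A : Pol) (ν η : ℝ) : Prop := 0 < η ∧
  ∃ (A' : ℕ × ℕ → Pol) (ν' : ℕ × ℕ → ℝ), Ob.Cv U (Pur.Bx r) A' A ∧ (∀ p, Rc (A' p)) ∧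
    Tendsto ν' U (𝓝 ν) ∧ ∀ᶠ p in U,
      D p (fun V => η⁻¹ * evr (Fi.tr haar) (β p) _ (G.aa p) (A' p) V) (η⁻¹ * ν' p)

namespace Lm

variable {G β} {U : Ultrafilter (ℕ × ℕ)} {S : Pol →ₗ[ℂ] ℂ} (o : G.Lm β U S)
include o

theorem grid {l e : ℕ} (he : G.e l ≤ e) : ∀ᶠ p in U, l < p.2 ∧
    G.nn p = nq p.1 e * 3 ^ (G.e p.2 - e) ∧ 3 ^ (G.e p.2 - e) ∣ G.rt p.2 l ∧
      G.aa p * (3 ^ (G.e p.2 - e) : ℕ) = (3 ^ e)⁻¹ := by
  obtain ⟨Φ, τ, S₀, hΦ, -, hL⟩ := o.lim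
  filter_upwards [(hL.le.trans hΦ) (tendsto_snd.eventually (eventually_gt_atTop (l + e)))]
    with p (hp : _ < p.2)
  have he' : e ≤ G.e p.2 := le_trans (by omega) (o.ok 0).1.sch.mono.le_apply
  refine ⟨by omega, ?_, pow_dvd_pow _ (Nat.sub_le_sub_left he _), ?_⟩
  · rw [nq, mul_assoc, ← pow_add, Nat.add_sub_cancel' he']
    rfl
  · rw [aa, Nat.cast_pow, Nat.cast_ofNat, pow_sub₀ _ three_ne_zero he',
      inv_mul_cancel_left₀ (by positivity)]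

theorem cluK {j : ℕ} {f : Fin j → R4 → ℝ} (hf : Adm f) : ∃ K, 0 < K ∧ ∀ P : ℕ → Prop,
    (∀ᶠ l in atTop, P l) → ∀ᶠ D in 𝓝[>] (0 : ℝ), ∃ l, P l ∧ 1 ≤ D * 3 ^ G.e l ∧
      D * 3 ^ G.e l ≤ G.Q l ∧ ∀ r, 0 < r → G.L l * r ≤ D → ∀ᶠ e in atTop, ∀ Y, G.Kc β U l e r Y →
        ∀ (A : Fin j → Pol) (ν η : Fin j → ℝ), (∀ i, G.Sk β U r Y (A i) (ν i) (η i)) →
          net.QB S (∏ i, Ope.ctr S (yy e (A i) (ν i) (sc D (f i)))) 2 (K * ∏ i, η i / G.sg l) ∧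
          net.QB S (Ope.ctr S (∏ i, Ope.ctr S (yy e (A i) (ν i) (sc D (f i))))) 2
            (K * (2 ^ l)⁻¹ * ∏ i, η i / G.sg l) := by
  obtain ⟨Λ, δ, T⟩ := hf.tf
  obtain ⟨Φ, τ, S₀, hΦ, hF, hL⟩ := o.lim
  have h := (o.ok 0).1
  have : (Fi.tr haar).IsHaarMeasure := (inferInstance : haar.IsHaarMeasure)
  obtain ⟨j0, j1, j2⟩ : ∃ j0, 1 ≤ G.e j0 ∧ 1000 * 3 ^ Fintype.card (Fin j) ≤ G.L j0 :=
    ((h.sch.mono.tendsto_atTop.eventually_ge_atTop 1).and (h.L_nat.eventually_ge_atTop _)).exists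
  have L1 := T.one
  have δ0 := T.pos
  obtain ⟨X, hX⟩ : ∃ X, X = 132 * 3 ^ (G.K0 + 1) / δ + 1 := ⟨_, rfl⟩
  have X1 : 1 ≤ X := hX ▸ le_add_of_nonneg_left (by positivity)
  obtain ⟨u, hu⟩ : ∃ u, u = 3 ^ (G.e j0 - 1) := ⟨_, rfl⟩
  obtain ⟨c, hc⟩ : ∃ c, c = G.cz j0 u (Fintype.card (Fin j)) := ⟨_, rfl⟩
  have K0 : 0 < cB j (cJ / G.g j0 * u ^ 4 + c) (exp c) * Λ ^ j := by unfold cB; positivity
  refine ⟨_ * 2 ^ j0, mul_pos K0 (by positivity), fun P hP => ?_⟩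
  filter_upwards [h.ex_jm (A := X) (by linarith) (hP.and ((eventually_gt_atTop j0).and
    (h.ev_L ((Λ + 3) * X + 1 + 4 / δ)))), Ioc_mem_nhdsGT
    (show 0 < (12 * (Λ + 3) + 6 * δ)⁻¹ by positivity)] with D ⟨D0, l, ⟨l0, l1, l2⟩, e1, e2⟩ ⟨_, D1⟩
  rw [inv_eq_one_div, le_div_iff₀ (by positivity)] at D1
  change _ ≤ (G.L l : ℝ) at l2
  change X * G.L l ^ G.K0 ≤ D * 3 ^ G.e l at e1
  change D * 3 ^ G.e l ≤ X * G.L l ^ (G.K0 + 1) at e2
  have d1 := mul_pos δ0 D0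
  have d2 := le_mul_of_one_le_left D0.le L1
  have d3 : 0 < 4 / δ := by positivity
  have d4 := mul_le_mul_of_nonneg_right (show 1 ≤ Λ + 3 by linarith) (zero_le_one.trans X1)
  have a : (1 : ℝ) ≤ G.L l := by linarith
  have y := one_le_mul_of_one_le_of_one_le X1 (one_le_pow₀ (n := G.K0) a)
  refine ⟨l, l0, y.trans e1, e2.trans ((mul_le_mul_of_nonneg_right (show X ≤ G.L l by linarith)
    (by positivity)).trans ((pow_succ' _ _).ge.trans (pow_le_pow_right₀ a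
      (by have : 120 * (G.K0 + 1) ≤ G.K := h.K0_le; omega)))),
    fun r r0 hd => ?_⟩
  have k3 : 4 * r < δ * D := by
    have : 4 < δ * G.L l := (div_lt_iff₀' δ0).1 (by linarith)
    nlinarith [mul_lt_mul_of_pos_right this r0, mul_le_mul_of_nonneg_left hd δ0.le]
  have k4 : r ≤ D := (le_mul_of_one_le_left r0.le a).trans hd
  filter_upwards [eventually_ge_atTop (G.e l), (tendsto_inv_atTop_zero.comp
    (tendsto_pow_atTop_atTop_of_one_lt (show (1 : ℝ) < 3 by norm_num))).eventually_le_const D0]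
    with e ek eD Y hY A ν η hs
  choose η0 A' ν' hA hr hν hD using hs
  change (3 ^ e : ℝ)⁻¹ ≤ D at eD
  have hz : ∀ i, 6⁻¹ - D ≤ gp e (fun _ => ⌊(3 ^ e / 6 : ℝ)⌋) i ∧
      gp e (fun _ => ⌊(3 ^ e / 6 : ℝ)⌋) i ≤ 6⁻¹ := fun _ => by
    have p : (0 : ℝ) < (3 ^ e)⁻¹ := by positivity
    have h1 := mul_le_mul_of_nonneg_left (Int.floor_le (3 ^ e / 6 : ℝ)) p.le
    have h2 := mul_lt_mul_of_pos_left (Int.lt_floor_add_one (3 ^ e / 6 : ℝ)) p
    rw [div_eq_mul_inv, inv_mul_cancel_left₀ (by positivity)] at h1 h2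
    exact ⟨by change _ ≤ _ * _; rw [div_eq_mul_inv]; linarith, by rwa [← div_eq_mul_inv _ 6] at h1⟩
  have s0 : 0 < G.sg l := h.sg_pos l
  have H := qb_two hF hL o.st hf T D0 r0 (by linarith) (e := e)
    (fun i => ⟨by linarith [hz i], by linarith [hz i]⟩) hA hr hν η0 (ω := (2 ^ (l - j0) * G.sg l)⁻¹)
    (C := cJ / G.g j0 * u ^ 4 + c) (M := exp c) ?_ (inv_pos.2 s0) (mul_inv _ _).le
    (inv_le_one_of_one_le₀ (one_le_pow₀ one_le_two))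
  · refine ⟨H.1.mono o.st le_rfl (mul_le_mul_of_nonneg_right (le_mul_of_one_le_right K0.le
      (one_le_pow₀ one_le_two)) (prod_nonneg fun i _ => (div_pos (η0 i) s0).le)), ?_⟩
    rw [pow_sub₀ _ two_ne_zero l1.le, mul_inv_rev, inv_inv, ← mul_assoc] at H
    exact H.2
  filter_upwards [hY, eventually_all.2 hD, o.grid ek] with p ⟨ρ, x4, M⟩ p2 ⟨g1, g2, g3, a4⟩
  obtain ⟨o', pu⟩ := o.ok p.1
  have hl := g1.le
  have a0 := G.aa_pos p
  have a1 : G.aa p * 3 ^ (G.wm p.1).e p.2 = 1 := inv_mul_cancel₀ (by positivity)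
  have hn : (G.wm p.1).N j0 = (2 * p.1 + 1) * 3 * u := by
    rw [hu, mul_assoc, ← pow_succ', Nat.sub_add_cancel j1]; rfl
  have a2 : 1 ≤ G.aa p * G.nn p := by
    rw [aa_nn]
    exact le_add_of_nonneg_left (by positivity)
  have a3 : G.aa p * ((G.wm p.1).rt p.2 j0 * u : ℕ) = 3⁻¹ := by
    have := G.aa_nn p
    rw [nn, ← o'.rt_N (l1.le.trans hl), hn, mul_left_comm] at this
    push_cast at this ⊢
    exact eq_inv_of_mul_eq_one_left (mul_left_cancel₀ (by positivity : (2 * p.1 + 1 : ℝ) ≠ 0)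
      (by linear_combination this))
  have a5 : G.aa p ≤ D := (le_mul_of_one_le_right a0.le (by
    exact_mod_cast Nat.one_le_pow _ _ three_pos)).trans (a4.trans_le eD)
  have x1 : G.rt p.2 l * G.aa p * 3 ^ G.e l = 1 := o'.rt_a hl a1
  have x0 := (mul_pos (Ok.rt_pos (G := G) p.2 l) a0).le
  have x7 : D * 3 ^ G.e l * (G.rt p.2 l * G.aa p) = D := by linear_combination D * x1
  have x2 := (mul_le_mul_of_nonneg_right e1 x0).trans_eq x7
  have x3 := x7.ge.trans (mul_le_mul_of_nonneg_right e2 x0)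
  have x5 : G.aa p * (G.dl p.2 l + 2 * ρ : ℕ) ≤ δ * D := by
    have h1 := mul_le_mul_of_nonneg_left x2 δ0.le
    have h2 : 0 ≤ δ * (G.L l ^ G.K0 * (G.rt p.2 l * G.aa p)) := by positivity
    rw [hX, mul_assoc, ← mul_assoc δ, mul_add, mul_div_cancel₀ _ δ0.ne'] at h1
    rw [dl]
    push_cast
    linarith
  have x6 := mul_le_mul_of_nonneg_left x3 (show 0 ≤ Λ + 3 by linarith)
  rw [← mul_assoc, ← mul_assoc _ X] at x6
  obtain ⟨μ, hμ, R⟩ := o'.rg_kc (κ' := Fin j) (a' := D⁻¹ * G.aa p) (r := (Λ + 1) * D)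
    (X := (Λ + 3) * X) (o.tu p) pu M g1 g2 g3 (by omega) (by positivity)
    ((mul_le_mul_of_nonneg_right (inv_anti₀ r0 k4) a0.le).trans_eq (div_eq_inv_mul _ _).symm) (by
      rw [mul_left_comm, inv_mul_le_one₀ D0]
      exact (le_mul_of_one_le_left x0 y).trans x2) l1.le hn (by omega) a0 a1 a3 j2 a5
    (x4.trans k4) (by linarith) (x5.trans (by linarith)) (le_trans (by linarith) l2)
    (le_trans (by linarith) x6)
  exact ⟨_, _, _, a3, hc ▸ R, ⟨_, _, _, pc_xp T a0 D0 (z := gp e fun _ => ⌊(3 ^ e / 6 : ℝ)⌋)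
    (fun i => ⟨by linarith [hz i], by linarith [hz i]⟩) x5 (lt_of_lt_of_le (by linarith) a2),
    fun i => ⟨p2 i, rfl⟩⟩, fun i => ltr_slot (R := 6⁻¹ + Λ * D) (fun y hy i => abs_le.2
      ⟨by linarith [hz i, sc_cube T D0 hy i], by linarith [hz i, sc_cube T D0 hy i]⟩)
    ((hA i).mem.2 p) g2 a0 r0.le a4 (lt_of_lt_of_le (by linarith) a2)⟩

/-- letters in the cell at the origin -/
theorem rgK {s e₀ l e : ℕ} {r : ℝ} {Y : G.Ky} (v : G.Lfit s e₀ l) (M : G.Kc β U l e r Y) (r0 : 0 < r)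
    (hd : G.L l * r ≤ (3 ^ e₀)⁻¹) (he : G.e l ≤ e) {γ : Type} [Fintype γ] {A : γ → Pol}
    {ν η : γ → ℝ} {f : γ → R4 → ℝ} (H : ∀ i, G.Sk β U r Y (A i) (ν i) (η i))
    (hf : ∀ i, ContDiff ℝ 1 (f i) ∧ LipschitzWith 1 (f i) ∧ ∀ y, |f i y| ≤ 1 ∧ (f i y ≠ 0 → ∀ j,
      (3 ^ (e₀ + s))⁻¹ ≤ y j ∧ y j ≤ (3 ^ e₀)⁻¹ - (3 ^ (e₀ + s))⁻¹)) :
    ∃ Y : γ → ℕ × ℕ → Pol, (∀ i, Ob.Cv U (Ob.cel (3 ^ e₀)⁻¹) (Y i) (yy e (A i) (ν i) (f i))) ∧
      (∀ i p, Rc (Y i p)) ∧ RgM (Fi.tr haar) G.nn G.aa β U (3 ^ e₀)⁻¹ Y η (G.sg l)⁻¹ (G.sg l)⁻¹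
        (G.cC e₀ l) (exp (G.cz l (3 ^ (G.e l - e₀)) (Fintype.card Unit))) := by
  have : (Fi.tr haar).IsHaarMeasure := (inferInstance : haar.IsHaarMeasure)
  obtain ⟨Φ, τ, S₀, hΦ, hF, hL⟩ := o.lim
  choose η0 A' ν' c1 c2 c3 c4 using H
  have d1 : 2 * r ≤ (3 ^ (e₀ + s))⁻¹ := by
    rw [pow_add, mul_inv, ← div_eq_mul_inv, le_div_iff₀ (by positivity)]
    nlinarith [mul_le_mul_of_nonneg_right v.2.2.2.2.2.2.1 r0.le]
  have x1 : ((3 : ℝ) ^ e₀)⁻¹ ≤ 1 := inv_le_one_of_one_le₀ (one_le_pow₀ (by norm_num))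
  have y0 : (0 : ℝ) < (3 ^ (e₀ + s))⁻¹ := by positivity
  have y1 : ((3 : ℝ) ^ (e₀ + s))⁻¹ ≤ 1 := inv_le_one_of_one_le₀ (one_le_pow₀ (by norm_num))
  have f1 : ∀ i y, f i y ≠ 0 → ∀ j, |y j| ≤ 1 := fun i y hy j => by
    have := ((hf i).2.2 y).2 hy j
    rw [abs_le]
    constructor <;> linarith [this.1, this.2]
  refine ⟨fun i p => yy e (A' i p) (ν' i p) (f i), fun i => cv_yy (f1 i) (c1 i) (c3 i)
    ⟨cpt_box fun y => ((hf i).2.2 y).2, (hf i).1, fun y hy j => ?_⟩ fun y z hy hz j => ?_,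
    fun i p => rc_yy (f1 i) (c2 i p), ?_⟩
  · have := closure_minimal (fun y hy => ((hf i).2.2 y).2 hy j) (isClosed_Icc.preimage
      (by fun_prop : Continuous fun y : R4 => y j)) hy
    constructor <;> linarith [this.1, this.2]
  · have a1 := ((hf i).2.2 y).2 hy j
    have a2 := abs_le.1 (hz j)
    constructor <;> linarith [a1.1, a1.2, a2.1, a2.2]
  filter_upwards [M, eventually_all.2 c4, hL.le (hF.big 4), o.grid he]
    with p ⟨ρ, x4, m⟩ hD (hb : _ < _) ⟨g1, g2, g3, g4⟩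
  have h := (o.ok p.1).1
  have a0 := G.aa_pos p
  have a1 : G.aa p * 3 ^ G.e p.2 = 1 := inv_mul_cancel₀ (by positivity)
  have hl := g1.le
  obtain ⟨D, R⟩ := h.rg_k1 (o.tu p) (o.ok p.1).2 m g1 g2 g3 a0 ((le_div_iff₀ r0).2
    (mul_le_of_le_one_right a0.le (by linarith))) v a1 (by linarith)
  have m1 := h.a_rtq hl a1 v.2.2.1
  have m2 := h.a_rtq hl a1 (le_self_add.trans v.2.2.1)
  refine ⟨_, _, m2, R, fun i => ⟨_, _, ⟨_, _, fun _ x => f i (xp (G.aa p) x), ⟨fun _ => ?_,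
    fun _ x hx j => ?_, fun _ _ e => (e rfl).elim⟩, fun _ => ⟨hD i, rfl⟩⟩, fun V =>
      evr_yy (f1 i) ((c1 i).mem.2 p) g2 a0 r0.le g4 ?_ (η0 i).ne' V⟩⟩
  · have := lqq_xp (n := G.nn p) (fun y => ((hf i).2.2 y).1) (hf i).2.1.dist_le_mul (f1 i) a0
      (by linarith)
    rwa [NNReal.coe_one, one_mul] at this
  · have := ((hf i).2.2 _).2 hx j
    exact mar_xp a0 (Nat.mul_pos (pow_pos three_pos _) (by positivity))
      (m1.trans_le this.1) (this.2.trans_eq (congrArg₂ _ m2 m1).symm)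
  · exact (show _ < G.aa p * G.nn p by linarith)

theorem celK (s : ℕ) : ∃ N : ℕ, ∀ P : ℕ → Prop, (∀ᶠ l in atTop, P l) → ∀ᶠ e₀ : ℕ in atTop,
    ∃ l K, P l ∧ 1 ≤ (3 ^ e₀)⁻¹ * (3 : ℝ) ^ G.e l ∧ (3 ^ e₀)⁻¹ * 3 ^ G.e l ≤ G.Q l ∧
      ∀ r : ℝ, 0 < r → G.L l * r ≤ (3 ^ e₀)⁻¹ → ∀ᶠ e in atTop, ∀ Y, G.Kc β U l e r Y →
        G.Sk β U r Y 0 1 1 → ∀ A ν η, G.Sk β U r Y A ν η → Ope.Mx S (yy e A ν) e₀ (3 ^ (e₀ + s))⁻¹ K η ∧
          (1 ≤ s → ∀ f, Cm.Mid (3 ^ e₀)⁻¹ f →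
            net.QB S (Ope.ctr S (yy e A ν f)) (2 * (3 ^ e₀)⁻¹) (3 ^ (N * e₀) * η)) := by
  have : (Fi.tr haar).IsHaarMeasure := (inferInstance : haar.IsHaarMeasure)
  have h := (o.ok 0).1
  obtain ⟨Φ, τ, S₀, -, hF, hL⟩ := o.lim
  refine ⟨1025, fun P hP => (h.ex_lw s hP).mono fun e₀ ⟨l, p, (v : G.Lfit s e₀ l)⟩ => ?_⟩
  obtain ⟨C0, C1⟩ : 0 ≤ G.cC e₀ l ∧ G.cC e₀ l ≤ 2 * e₀ := h.cC_le v
  have ω0 : 0 < (G.sg l)⁻¹ := inv_pos.2 (h.sg_pos l)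
  have ω1 : (G.sg l)⁻¹ ≤ 1 := inv_le_one_of_one_le₀ ((one_le_div (pow_pos (h.Q0 l) _)).2
    ((pow_le_pow_right₀ (h.Q1 l) (by norm_num)).trans (h.Qb l)))
  have x0 : (0 : ℝ) < (3 ^ e₀)⁻¹ := by positivity
  obtain ⟨Γ, hΓ⟩ : ∃ Γ, Γ = (1 + exp (256 * G.cC e₀ l)) * (G.sg l)⁻¹ := ⟨_, rfl⟩
  have Γ0 : 0 ≤ Γ := by rw [hΓ]; positivity
  refine ⟨l, 256 * G.cC e₀ l + Γ, p, (h.lw_Q v).1, (h.lw_Q v).2, fun r r0 hd => ?_⟩
  filter_upwards [eventually_ge_atTop (G.e l), eventually_ge_atTop e₀] with e he he' Y M F A ν η H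
  refine ⟨fun lo hi j c f T f1 c1 c2 f2 => ?_, fun s1 f hf => ?_⟩
  · have z : ∀ i, -(WithLp.toLp 2 fun l => (3 ^ e₀)⁻¹ * c i l : R4) =
        Ope.gp e fun l => -(3 ^ (e - e₀) * c i l) := fun i => by
      obtain ⟨q, rfl⟩ := Nat.exists_eq_add_of_le he'
      ext l
      simp only [Ope.gp, PiLp.neg_apply, Nat.add_sub_cancel_left, pow_add]
      push_cast
      field_simp
    obtain ⟨Y, y1, y2, y3⟩ := o.rgK v M r0 hd he (A := fun i => if i ∈ T then A else 0)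
      (ν := fun i => if i ∈ T then ν else 1) (η := fun i => if i ∈ T then η else 1)
      (f := fun i y => f i (y - Ope.gp e fun l => -(3 ^ (e - e₀) * c i l)))
      (fun i => by split_ifs; exacts [H, F]) fun i => ⟨(f1.1 i).2.comp (by fun_prop),
        .of_dist_le_mul fun x y => ((f2 i).1.dist_le_mul _ _).trans_eq (by rw [dist_sub_right]),
        fun y => ⟨((f2 i).2 _).1, fun hy j => by
          have := ((f2 i).2 _).2 hy j
          simp only [← z, sub_neg_eq_add, PiLp.add_apply] at this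
          constructor <;> linarith [this.1, this.2]⟩⟩
    have := mix_cell hF hL o.st x0 (Z := fun i => yy e (if i ∈ T then A else 0)
      (if i ∈ T then ν else 1) (f i)) (fun i => by
        obtain ⟨R, hR⟩ := (f1.1 i).1.isCompact.isBounded.exists_norm_le
        rw [z, tau_yy fun y hy l => (PiLp.norm_apply_le y l).trans (hR y (subset_tsupport _ hy))]
        exact y1 i) y2 y3 c1 c2
    refine le_of_eq_of_le (congrArg (‖S ·‖) (Finset.prod_congr rfl fun i _ => ?_)) (this.trans ?_)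
    · split_ifs
      · rfl
      · rw [yy_zero, o.cen ⟨fun a => by fin_cases a; exact f1.1 i, Subsingleton.pairwise⟩, map_zero,
          sub_zero]
    · have a1 : j ≤ (cells lo hi).card := by
        simpa using Finset.card_le_card_of_injOn (s := Finset.univ) c (fun i _ => c2 i) c1.injOn
      have a2 : Γ ^ j ≤ exp (Γ * (cells lo hi).card) :=
        (pow_le_pow_left₀ Γ0 ((le_add_of_nonneg_right zero_le_one).trans (add_one_le_exp Γ)) j).trans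
          ((exp_nat_mul Γ j).ge.trans (exp_le_exp.2 ((mul_comm _ _).trans_le
            (mul_le_mul_of_nonneg_left (Nat.cast_le.2 a1) Γ0))))
      simp only [← hΓ, Finset.prod_mul_distrib, apply_ite abs, abs_of_pos H.1, abs_one,
        Finset.prod_ite_mem, Finset.univ_inter, Finset.prod_const, Finset.card_univ, Fintype.card_fin]
      rw [add_mul, exp_add, mul_assoc (exp _), mul_comm _ (Γ ^ j)]
      exact mul_le_mul_of_nonneg_left (mul_le_mul_of_nonneg_right a2 (pow_pos H.1 _).le)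
        (exp_pos _).le
  · have y : ((3 : ℝ) ^ (e₀ + s))⁻¹ ≤ (3 ^ e₀)⁻¹ / 3 := by
      rw [div_eq_mul_inv, ← mul_inv, ← pow_succ]
      exact inv_anti₀ (by positivity) (pow_le_pow_right₀ (by norm_num) (by omega))
    obtain ⟨Y, y1, y2, y3⟩ := o.rgK v M r0 hd he (γ := Unit) (f := fun _ => f) (fun _ => H)
      fun _ => ⟨hf.1, hf.2.1, fun x => ⟨(hf.2.2 x).1, fun hx j => by
        have := (hf.2.2 x).2 hx j
        constructor <;> linarith [this.1, this.2]⟩⟩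
    have η0 := H.1
    have q := (qb_one hF hL o.st x0 (.smul (c := fun _ => ((η⁻¹ : ℝ) : ℂ)) tendsto_const_nhds (y1 ()))
      (fun p => (y2 () p).smul _) (y3.mono fun p ⟨lam, L, a1, a2, a3⟩ => by
        obtain ⟨O, t, a3, a4⟩ := a3 ()
        refine ⟨lam, L, O, a1, a2, a3, fun _ => ⟨-(η⁻¹ * t), fun V => ?_⟩⟩
        rw [evr, map_smul, Pi.smul_apply, smul_eq_mul, Complex.re_ofReal_mul, ← evr, a4, mul_add,
          inv_mul_cancel_left₀ η0.ne', add_neg_cancel_right])).smul (η : ℂ)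
    rw [map_smul, smul_assoc, ← smul_sub, smul_smul, ← Complex.ofReal_mul, mul_inv_cancel₀ η0.ne',
      Complex.ofReal_one, one_smul, MvPolynomial.smul_eq_C_mul, mul_one, Complex.norm_real,
      norm_of_nonneg η0.le, mul_comm η] at q
    refine q.mono o.st le_rfl (mul_le_mul_of_nonneg_right ?_ η0.le)
    have a1 : exp (256 * G.cC e₀ l) ≤ 3 ^ (512 * e₀) := by
      refine (exp_le_exp.2 (show _ ≤ ((512 * e₀ : ℕ) : ℝ) by push_cast; linarith)).trans ?_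
      rw [← exp_one_pow]
      exact pow_le_pow_left₀ (exp_pos _).le exp_one_lt_three.le _
    have a2 : (1 : ℝ) ≤ 3 ^ (512 * e₀) := one_le_pow₀ (by norm_num)
    have a3 : (3 : ℝ) ≤ 3 ^ e₀ := le_self_pow₀ (by norm_num) v.2.1.ne'
    rw [show 1025 * e₀ = 512 * e₀ + (512 * e₀ + e₀) by ring, pow_add, pow_add]
    refine (mul_le_of_le_one_right (by positivity) ω1).trans
      (mul_le_mul a1 (by nlinarith) (by positivity) (by positivity))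

end Lm

end Pool.Agent.Lib.MP_7f377f_mp.RG.Q4.En.Gl
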