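import Pool.Agent.Lib.MP_7f377f_mp.G.TyO

/-! The average over the group generated by a symmetry type. -/

noncomputable section

set_option linter.unusedSectionVars false
variable [Pool.Agent.Lib.MP_7f377f_mp.GD]

namespace Pool.Agent.Lib.MP_7f377f_mp.RG.Q4.En.Gl

open Finset Pur Ty YM7
open Ro (Iso)

/-- the isometry and the sign of a product of generators -/
def pT (M : Ty) : Iso × ℤ := (M.map fun g => (Cm.gi g.1, sb g.2)).prod

theorem pT_cons (g : Gn × Bool) (M : Ty) : pT (g :: M) = (Cm.gi g.1, sb g.2) * pT M := by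
  simp [pT]

theorem acL_pT (M : Ty) (A : Pol) : acL (M.map (·.1)) A = Ro.act (pT M).1 A := by
  induction M with
  | nil => exact (Ro.act_one A).symm
  | cons g M ih => rw [pT_cons, Prod.fst_mul, ← Ro.act_act, ← ih]; rfl

theorem pT_sq (M : Ty) : (pT M).2 = 1 ∨ (pT M).2 = -1 := by
  induction M with
  | nil => exact .inl rfl
  | cons g M ih => rcases g with ⟨g, _ | _⟩ <;> rcases ih with e | e <;> simp [pT_cons, sb, e]

theorem pT_typ {T M : Ty} {A : Pol} (h : Cm.Typ T A) (hM : M ⊆ T) :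
    Ro.act (pT M).1 A = ((pT M).2 : ℂ) • A := by
  induction M with
  | nil => simp [pT]
  | cons g M ih =>
    rw [pT_cons, Prod.fst_mul, ← Ro.act_act, ih (List.subset_of_cons_subset hM), map_smul,
      h g (hM List.mem_cons_self), smul_smul, Prod.snd_mul, Int.cast_mul, mul_comm]

theorem pT_fin : (Set.range pT).Finite := by
  let E : Set R4 := Set.range fun x : Fin 4 × Bool => ax x.1 (sb x.2)
  have a : ∀ g, ∀ v ∈ E, Cm.gi g v ∈ E := by
    rintro (σ | μ) _ ⟨⟨j, s⟩, rfl⟩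
    · refine ⟨(σ j, s), ?_⟩
      ext i
      simp [Cm.gi, Ro.prm_apply, Pi.single_apply, Equiv.symm_apply_eq]
    · refine ⟨(j, if j = μ then !s else s), ?_⟩
      ext i
      by_cases e : i = μ <;> by_cases e' : i = j <;> cases s <;>
        simp_all [Cm.gi, rfL_eq, Pur.rf, sb]
  have b : ∀ M i, (pT M).1 (ax i 1) ∈ E := fun M i => by
    induction M with
    | nil => exact ⟨(i, false), by simp [pT, sb]⟩
    | cons g M ih => rw [pT_cons]; exact a _ _ ih
  refine .of_finite_image (f := fun x => (fun i => x.1 (ax i 1), x.2))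
    (((Set.Finite.pi' fun _ => show E.Finite from Set.finite_range _).prod (Set.toFinite {1, -1})).subset ?_) ?_
  · rintro _ ⟨_, ⟨M, rfl⟩, rfl⟩
    exact ⟨b M, pT_sq M⟩
  · refine fun x _ y _ e => Prod.ext (LinearIsometryEquiv.toLinearEquiv_injective
      ((EuclideanSpace.basisFun (Fin 4) ℝ).toBasis.ext' fun i => ?_)) (congrArg (·.2) e)
    simpa using congrFun (congrArg (·.1) e) i

theorem exists_av : ∃ N : ℕ, ∀ T : Ty, ∃ (ι : Type) (_ : Fintype ι) (L : ι → List Gn) (c : ι → ℝ),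
    Fintype.card ι ≤ N ∧ ∑ i, |c i| = 1 ∧ (∀ A, Cm.Typ T (∑ i, (c i : ℂ) • acL (L i) A)) ∧
      ∀ A, Cm.Typ T A → ∑ i, (c i : ℂ) • acL (L i) A = A := by
  classical
  refine ⟨pT_fin.toFinset.card, fun T => ?_⟩
  let H := pT_fin.toFinset.filter fun x => ∃ M ⊆ T, pT M = x
  have m : ∀ {x}, x ∈ H ↔ ∃ M ⊆ T, pT M = x := by
    simp only [H, mem_filter, Set.Finite.mem_toFinset, and_iff_right_iff_imp]
    exact fun ⟨M, _, e⟩ => ⟨M, e⟩
  choose M h1 h2 using fun x : H => m.1 x.2
  have n0 : (H.card : ℝ) ≠ 0 := Nat.cast_ne_zero.2 (card_ne_zero.2 ⟨_, m.2 ⟨[], by simp, rfl⟩⟩)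
  have s : ∀ x : H, x.1.2 = 1 ∨ x.1.2 = -1 := fun x => h2 x ▸ pT_sq _
  refine ⟨H, inferInstance, fun x => (M x).map (·.1), fun x => x.1.2 / H.card, ?_, ?_,
    fun A g hg => ?_, fun A hA => ?_⟩
  · exact (Fintype.card_coe _).trans_le (card_filter_le _ _)
  · rw [sum_congr rfl fun x _ => show _ = (H.card : ℝ)⁻¹ by rcases s x with e | e <;>
      simp [e, abs_div]]
    simp [n0]
  · let φ : H → H := fun x => ⟨(Cm.gi g.1, sb g.2) * x.1, m.2 ⟨g :: M x,
      List.cons_subset.2 ⟨hg, h1 x⟩, by rw [pT_cons, h2]⟩⟩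
    have i : Function.Injective φ := fun x y e => by
      have := congrArg (·.1) e
      refine Subtype.ext (Prod.ext (mul_left_cancel (congrArg (·.1) this))
        (mul_left_cancel₀ (a := sb g.2) ?_ (congrArg (·.2) this)))
      cases g.2 <;> simp [sb]
    rw [smul_sum, map_sum]
    refine Fintype.sum_bijective φ (Finite.injective_iff_bijective.1 i) _ _ fun x => ?_
    simp only [acL_pT, h2, map_smul, Ro.act_act, smul_smul, φ, Prod.fst_mul, Prod.snd_mul]
    congr 1
    cases g.2 <;> simp [sb, neg_div]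
  · rw [sum_congr rfl fun x _ => show _ = ((H.card : ℝ)⁻¹ : ℂ) • A by
      rw [acL_pT, pT_typ hA (h1 x), h2, smul_smul]
      rcases s x with e | e <;> simp [e, neg_div]]
    rw [← sum_smul]
    simp [show (H.card : ℂ) ≠ 0 by exact_mod_cast n0]

end Pool.Agent.Lib.MP_7f377f_mp.RG.Q4.En.Gl
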