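import Pool.Agent.Lib.MP_7f377f_mp.G.TyO

/-! Smeared words: slots with many words. -/

noncomputable section

set_option linter.unusedSectionVars false
variable [Pool.Agent.Lib.MP_7f377f_mp.GD]

namespace Pool.Agent.Lib.MP_7f377f_mp.RG.Q4.En.Gl

open Finset Filter Topology Real Sg Br YM7 Pur Ob Pos Ty

variable {ι : Type} [Fintype ι]

theorem Ok.rw_sum {G : Gl} {b a C N : ℝ} {J k c : ℕ} [NeZero (G.N J)] {P : Grd} {κ : Type}
    [Fintype κ] [DecidableEq κ] [Inhabited κ] {B : ι → Cfg (G.N J) → ℝ} {γ N' : ι → ℝ} (h : G.Ok)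
    (H : ∀ t, G.Rw b J k P κ a c C (B t) (N' t)) (N0 : 0 < N) (hN : ∑ t, |γ t| * N' t ≤ N) :
    G.Rw b J k P κ a c C (fun U => ∑ t, γ t * B t U) N := by
  choose α i Λ h1 h2 h3 using H
  refine ⟨Σ t, α t, inferInstance, ⟨fun x => (Λ x.1).g x.2, fun x => (Λ x.1).τ x.2,
    fun x => γ x.1 * (Λ x.1).w x.2⟩, ⟨fun x => (h1 x.1).lp x.2, fun x => (h1 x.1).sup x.2,
      fun x => (h1 x.1).sep x.2, fun x => (h1 x.1).cen x.2⟩, ⟨N0, le_trans ?_
        (mul_le_mul_of_nonneg_right hN (pow_pos (h.sg0 _) _).le)⟩, fun U => ?_⟩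
  · simp only [Fintype.sum_sigma, abs_mul, ← mul_sum]
    rw [sum_mul, sum_mul, mul_sum, sum_mul, sum_mul]
    refine sum_le_sum fun t _ => ?_
    rw [mul_assoc |γ t| (N' t)]
    exact le_trans (le_of_eq (by ring)) (mul_le_mul_of_nonneg_left (h2 t).2 (abs_nonneg _))
  · simp only [← h3, Lwd.ob, Fintype.sum_sigma, mul_sum, mul_assoc]

theorem evr_sum {n : ℕ} [NeZero n] (b a : ℝ) (γ : ι → ℝ) (A : ι → Pol) (U : Cfg n) :
    evr (Fi.tr haar) b n a (∑ t, (γ t : ℂ) • A t) U = ∑ t, γ t * evr (Fi.tr haar) b n a (A t) U := by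
  simp only [evr, map_sum, map_smul]
  simp

variable (G : Gl) (e : ℕ) (β : ℕ × ℕ → ℝ) (U : Filter (ℕ × ℕ))

/-- the combination `∑ c t • A t` has no marginal part -/
def Kn (E : List (Pl × Pl)) (A : ι → Pol) (c : ι → ℝ) : Prop := ∃ γ : ℕ × ℕ → ι → ℝ,
  (∀ t, Tendsto (γ · t) U (𝓝 (c t))) ∧ ∀ p, ∑ t, |γ p t| ≤ 1 ∧
    ∀ x ∈ E, G.mp e β p x (∑ t, (γ p t : ℂ) • A t) = 0

variable {G e β} {U : Ultrafilter (ℕ × ℕ)} {S : Pol →ₗ[ℂ] ℂ} {k l : ℕ} {w : Wp} {d η N : ℝ}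
  {T : Ty} {E : List (Pl × Pl)} (o : G.Lm β U S)
include o

theorem Lm.mp_sum (p : ℕ × ℕ) (x : Pl × Pl) (γ : ι → ℝ) (A : ι → Pol) (s : Finset ι) :
    G.mp e β p x (∑ t ∈ s, (γ t : ℂ) • A t) = ∑ t ∈ s, γ t * G.mp e β p x (A t) := by
  classical
  induction s using Finset.induction_on with
  | empty => simpa using o.mp_lin (e := e) (A := 0) (A' := 0) p x 0 0
  | insert t s ht ih =>
    rw [sum_insert ht, sum_insert ht, ← ih, ← one_mul (G.mp e β p x (∑ t ∈ s, _)), ← o.mp_lin]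
    simp

theorem Lm.ex_kn {n : ℕ} (hE : E.length ≤ n) (A : Fin (n + 1) → Pol) :
    ∃ c, ∑ t, |c t| = 1 ∧ G.Kn e β U E A c := by
  choose γ h1 h2 using fun p => exists_ker E hE fun x t => G.mp e β p x (A t)
  choose c hc using fun t => ex_lim U (f := (γ · t)) (C := 1) (.of_forall fun p =>
    (single_le_sum (fun t _ => abs_nonneg (γ p t)) (mem_univ t)).trans_eq (h1 p))
  exact ⟨c, tendsto_nhds_unique (tendsto_finsetSum _ fun t _ => (hc t).abs)
    (tendsto_const_nhds.congr fun p => (h1 p).symm), γ, hc, fun p => ⟨(h1 p).le, fun x hx =>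
      (o.mp_sum p x _ _ _).trans (h2 p x hx)⟩⟩

/-- combinations without marginal part of words with different numbers of letters -/
theorem Lm.slt_kn {A : ι → Pol} {m : ι → ℕ} {W c : ι → ℝ} (M : G.Mrg k w d)
    (H : ∀ t, 1 ≤ m t ∧ m t ≤ w.M + 1 ∧ 0 < W t ∧ W t * G.nw k w (m t) ≤ N ∧
      Wb (m t) w.Λ w.δ d (W t * ((3 ^ e)⁻¹ / d) ^ 4) (A t) ∧ Cm.Typ T (A t)) (N0 : 0 < N)
    (hD : Det T E) (z : G.Kn e β U E A c) (L : List Gn)
    (hη : G.cP (l + 1) k * N * G.Q k ^ 8 ≤ η) :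
    G.Slt k l w d e β U (∑ t, (c t : ℂ) • acL L (A t)) 0 η := by
  have : (Fi.tr haar).IsHaarMeasure := (inferInstance : haar.IsHaarMeasure)
  have η0 : 0 < η := (mul_pos (mul_pos ((o.ok 0).1.cP0 _ _) N0)
    (pow_pos ((o.ok 0).1.Q0 k) _)).trans_le hη
  obtain ⟨γ, t, z⟩ := z
  have u := fun i => (wb_acL (H i).2.2.2.2.1 L).mem M.1
  refine ⟨η0, fun p => ∑ i, (γ p i : ℂ) • acL L (A i), fun _ => 0, .sum fun i _ =>
    .smul ((Complex.continuous_ofReal.tendsto _).comp (t i)) (.base (u i).1),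
    fun _ => .sum fun i _ => (u i).2.smul _, tendsto_const_nhds, .of_forall fun p P hP => ?_⟩
  rw [mul_zero]
  have h := (o.ok p.1).1
  have n := h.N_odd p.2
  have v : ∑ i, |γ p i| * (W i * G.nw k w (m i)) ≤ N := (sum_le_sum fun i _ =>
    mul_le_mul_of_nonneg_left (H i).2.2.2.1 (abs_nonneg _)).trans (by
      rw [← sum_mul]; exact mul_le_of_le_one_left N0.le (z p).1)
  have r := fun i A => hP.rep (m i) A (W i) (H i).1 (H i).2.1 (H i).2.2.1
  refine h.ds_orb (o.tu p) (o.ok p.1).2 hP.gk (B₀ := evr _ _ _ _ (∑ i, (γ p i : ℂ) • A i))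
    (by simpa only [← evr_sum] using h.rw_sum (fun i => r i _ (H i).2.2.2.2.1) N0 v) hD
    (fun g hg V => ?_) (fun x hx => ?_) L (fun V => ?_) (fun L' => ?_) (Lm.inv_le η0 hη)
  · simp only [evr_sum, fun i => evr_typ (h := Fi.tr haar) (b := β p) (a := G.aa p) n
      (H i).2.2.2.2.2 g hg V, mul_sum, mul_left_comm]
  · rw [hP.hs]
    exact (z p).2 x hx
  · simp only [evr_sum, evr_acL n]
  · choose A' H' u using fun i => (wb_acL (H i).2.2.2.2.1 L).fold (h := Fi.tr haar) (b := β p)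
      (a := G.aa p) n L'
    simpa only [evr_sum, ← u] using h.rw_sum (fun i => r i _ (H' i)) N0 v

end Pool.Agent.Lib.MP_7f377f_mp.RG.Q4.En.Gl
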