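import Pool.Agent.Lib.MP_7f377f_mp.G.NsE0
import Pool.Agent.Lib.MP_7f377f_mp.G.NsU
import Pool.Agent.Lib.MP_7f377f_mp.G.OpK2
import Pool.Agent.Lib.MP_7f377f_mp.G.TyM
import Pool.Agent.Lib.MP_7f377f_mp.G.CmY

/-! Abstract classes of words in the continuum limit. -/

noncomputable section

set_option linter.unusedSectionVars false
variable [Pool.Agent.Lib.MP_7f377f_mp.GD]

namespace Pool.Agent.Lib.MP_7f377f_mp.RG.Q4.En.Gl

open Finset Filter Topology Real YM7 Pur Ob Ty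

theorem acL_eq (L : List Gn) : ∃ g, ∀ A, acL L A = Ro.act g A := by
  induction L with
  | nil => exact ⟨1, fun A => (Ro.act_one A).symm⟩
  | cons g L ih => exact ih.elim fun g' e => ⟨_, fun A => (congrArg _ (e A)).trans (Ro.act_act _ _ _)⟩

theorem acL_acL (L L' : List Gn) (A : Pol) : acL L (acL L' A) = acL (L ++ L') A :=
  (List.foldr_append ..).symm

theorem bx_act {A : Pol} {r : ℝ} (g : Gn) (h : A ∈ net.loc (Pur.Bx r)) :
    Ro.act (Cm.gi g) A ∈ net.loc (Pur.Bx r) :=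
  let ⟨_, e⟩ := Cm.abs_gi g
  net.mono (Ro.act_mem _ h) fun y hy l => e y l ▸ hy _

theorem cv_acL {ι : Type} {Φ : Filter ι} {X : ι → Pol} {Z : Pol} {r : ℝ} (e : Ob.Cv Φ (Pur.Bx r) X Z)
    (L : List Gn) : Ob.Cv Φ (Pur.Bx r) (fun p => acL L (X p)) (acL L Z) := by
  induction L with
  | nil => exact e
  | cons g L ih => exact ih.map continuous_id (map_add _) (map_smul _) fun _ => bx_act g

theorem rc_acL {A : Pol} (e : Rc A) (L : List Gn) : Rc (acL L A) :=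
  (acL_eq L).elim fun _ u => u A ▸ e.ren _

theorem evr_rf {n : ℕ} [NeZero n] (hn : Odd n) (b a : ℝ) (A : Pol) (L : List (Fin 4)) :
    (fun U => evr (Fi.tr haar) b n a A (L.foldr Weak.refl U)) =
      evr (Fi.tr haar) b n a (acL (L.map .inr).reverse A) := funext fun U => by
  rw [evr_acL hn, List.foldl_reverse, List.foldr_map]
  rfl

theorem Am.anti {G : Gl} {b a a' : ℝ} {J k n' s ρ : ℕ} [NeZero (G.N J)] [NeZero n']
    {R : Wc (G.N J)} (M : G.Am b J k n' s ρ a R) (e : a' ≤ a) : G.Am b J k n' s ρ a' R :=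
  ⟨M.lt, M.hn, M.ex, M.pos, M.tx, M.slow, fun γ _ _ B I N μ ν r φ l lk H =>
    M.arr γ B I N μ ν r φ l lk fun q => ⟨(H q).1, TG.lqq_mono (H q).2.1 e, (H q).2.2⟩⟩

/-- classes of words on all the lattices -/
abbrev Wy (G : Gl) : Type := ∀ p : ℕ × ℕ, Wc (G.nn p)

variable (G : Gl) (β : ℕ × ℕ → ℝ) (U : Filter (ℕ × ℕ))

/-- admissible classes at the level `k` with the mesh `3 ^ -e` and the radius `r` -/
def Ay (k e : ℕ) (r : ℝ) (R : G.Wy) : Prop := ∀ᶠ p in U, Wsum (R p) ∧ ∃ ρ : ℕ, G.aa p * ρ ≤ r ∧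
  (G.wm p.1).Am (β p) p.2 k (nq p.1 e) (3 ^ (G.e p.2 - e)) ρ (G.aa p / r) (R p)

/-- all the images of the polynomials have the size `N` -/
def Zq (R : G.Wy) (B : ℕ × ℕ → Pol) (N : ℝ) : Prop := (∀ p, Rc (B p)) ∧ ∀ᶠ p in U,
  ∀ L : List Gn, ∃ I, R p (evr (Fi.tr haar) (β p) _ (G.aa p) (acL L (B p))) I N

/-- limits of polynomials of the size `N` -/
def Zy (r : ℝ) (R : G.Wy) (B : Pol) (N : ℝ) : Prop :=
  ∃ B', Ob.Cv U (Pur.Bx r) B' B ∧ G.Zq β U R B' N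

/-- images of typed polynomials without marginal part -/
def Kq9 (e : ℕ) (r : ℝ) (R : G.Wy) (B : Pol) (N : ℝ) : Prop := ∃ L T E C C', Det T E ∧ B = acL L C ∧
  Ob.Cv U (Pur.Bx r) C' C ∧ G.Zq β U R C' N ∧ ∀ p, Cm.Typ T (C' p) ∧ ∀ x ∈ E, G.mp e β p x (C' p) = 0

/-- the slots of a class of words -/
def Yk (k l : ℕ) (R : G.Wy) : G.Ky := fun p => (G.wm p.1).Dk (β p) p.2 k l (R p)

variable {G β} {U : Ultrafilter (ℕ × ℕ)} {S : Pol →ₗ[ℂ] ℂ} {k l e : ℕ} {r r' N N' η : ℝ} {R : G.Wy}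
  {A A' : Pol} {T : Ty} {E : List (Pl × Pl)} {ι : Type} [Fintype ι] (M : G.Ay β U k e r R)
include M

theorem Ay.zq {B : ι → ℕ × ℕ → Pol} {N : ι → ℝ} {c : ℕ × ℕ → ι → ℝ} (L : ι → List Gn)
    (H : ∀ i, G.Zq β U R (B i) (N i)) (N0 : 0 < N') (hN : ∀ p, ∑ i, |c p i| * N i ≤ N') :
    G.Zq β U R (fun p => ∑ i, (c p i : ℂ) • acL (L i) (B i p)) N' := by
  refine ⟨fun p => .sum fun i _ => (rc_acL ((H i).1 p) _).smul _, ?_⟩
  filter_upwards [M, eventually_all.2 fun i => (H i).2] with p m a L'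
  choose I hI using fun i => a i (L' ++ L i)
  obtain ⟨g, e⟩ := acL_eq L'
  simpa only [← acL_acL, e, map_sum, map_smul, ← evr_sum] using m.1 _ _ I N (c p) _ hI N0 (hN p)

theorem Ay.zy {B : ι → Pol} {N c : ι → ℝ} (L : ι → List Gn) (H : ∀ i, G.Zy β U r' R (B i) (N i))
    (N0 : 0 < N') (hN : ∑ i, |c i| * N i ≤ N') :
    G.Zy β U r' R (∑ i, (c i : ℂ) • acL (L i) (B i)) N' := by
  choose B' h1 h2 using H
  exact ⟨_, .sum fun i _ => .smul tendsto_const_nhds (cv_acL (h1 i) _),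
    M.zq (c := fun _ => c) L h2 N0 fun _ => hN⟩

theorem Ay.pos (H : G.Zy β U r' R A N) : 0 < N := by
  obtain ⟨_, -, -, H⟩ := H
  obtain ⟨p, ⟨-, _, -, m⟩, a⟩ := (M.and H).exists
  exact (a []).elim fun _ a => (m.pos a).1

/-- typed approximations -/
theorem Ay.typ (H : G.Zy β U r' R A N) (t : Cm.Typ T A) : ∃ B, Ob.Cv U (Pur.Bx r') B A ∧
    G.Zq β U R B N ∧ ∀ p, Cm.Typ T (B p) := by
  obtain ⟨_, a⟩ := exists_av
  obtain ⟨ι, _, L, c, -, a1, a2, a3⟩ := a T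
  have N0 := M.pos H
  obtain ⟨B, h1, h2⟩ := H
  exact ⟨_, a3 A t ▸ .sum fun i _ => .smul tendsto_const_nhds (cv_acL h1 _),
    M.zq (c := fun _ => c) L (fun _ => h2) N0 fun _ => by rw [← sum_mul, a1, one_mul], fun _ => a2 _⟩

theorem Ay.kq0 (hD : Det T []) (H : G.Zy β U r' R A N) (t : Cm.Typ T A) : G.Kq9 β U e r' R A N :=
  let ⟨B, a1, a2, a3⟩ := M.typ H t
  ⟨[], T, [], A, B, hD, rfl, a1, a2, fun p => ⟨a3 p, fun _ e => by simp at e⟩⟩

variable (o : G.Lm β U S)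
include o

theorem Ay.kq (hD : Det T E) (hE : E.length ≤ 1) (H : G.Zy β U r' R A N) (H' : G.Zy β U r' R A' N)
    (t : Cm.Typ T A) (t' : Cm.Typ T A') : ∃ c c' : ℝ, |c| + |c'| = 1 ∧
      G.Kq9 β U e r' R ((c : ℂ) • A + (c' : ℂ) • A') N := by
  obtain ⟨B, a1, a2, a3⟩ := M.typ H t
  obtain ⟨B', b1, b2, b3⟩ := M.typ H' t'
  choose γ h1 h2 using fun p => exists_ker (n := 1) E hE
    fun x => ![G.mp e β p x (B p), G.mp e β p x (B' p)]
  choose c hc using fun t => ex_lim U (f := (γ · t)) (C := 1) (.of_forall fun p =>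
    (single_le_sum (fun t _ => abs_nonneg (γ p t)) (mem_univ t)).trans_eq (h1 p))
  have z := M.zq (c := γ) (B := ![B, B']) (N := fun _ => N) (fun _ => [])
    (Fin.forall_fin_two.2 ⟨a2, b2⟩) (M.pos H) fun p => by rw [← sum_mul, h1, one_mul]
  simp only [Nat.reduceAdd, Fin.sum_univ_two] at z h1 h2
  exact ⟨c 0, c 1, tendsto_nhds_unique ((hc 0).abs.add (hc 1).abs)
    (tendsto_const_nhds.congr fun p => (h1 p).symm), [], T, E, _, _, hD, rfl,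
    .add (.smul ((Complex.continuous_ofReal.tendsto _).comp (hc 0)) a1)
      (.smul ((Complex.continuous_ofReal.tendsto _).comp (hc 1)) b1), z,
    fun p => ⟨typ_lin (a3 p) (b3 p) _ _, fun x hx => (o.mp_lin p x _ _).trans (h2 p x hx)⟩⟩

theorem Ay.kc (lk : l < k) : G.Kc β U l e r (G.Yk β k l R) := M.mono fun p ⟨_, ρ, a, m⟩ =>
  ⟨ρ, a, m.ks (o.ok p.1).1 (o.tu p) (o.ok p.1).2 lk⟩

omit o in
theorem Ay.fld : G.Sk β U r (G.Yk β k l R) 0 1 1 :=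
  ⟨one_pos, fun _ => 0, fun _ => 1, .base (zero_mem _), fun _ => map_zero _, tendsto_const_nhds,
    M.mono fun p ⟨_, _, _, m⟩ => by
      simp only [evr, map_zero, Pi.zero_apply, Complex.zero_re, mul_zero, inv_one, mul_one]
      exact m.dk_fld abs_one.le⟩

theorem Ay.gen (H : G.Zy β U r' R A N) (hr : r' ≤ r) (hη : 1.01 ^ (k - l) * N * G.Q k ^ 7 ≤ η) :
    G.Sk β U r (G.Yk β k l R) A 0 η := by
  have q := (o.ok 0).1.Q0 k
  have η0 : 0 < η := (mul_pos (mul_pos (by positivity) (M.pos H)) (pow_pos q _)).trans_le hη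
  obtain ⟨B, h1, h2, h3⟩ := H
  refine ⟨η0, B, fun _ => 0, h1.mono fun _ a i => (a i).trans_le hr, h2, tendsto_const_nhds,
    h3.mono fun p a => ?_⟩
  rw [mul_zero]
  exact Am.dk_gen (fun L => (a _).imp fun I a => ⟨N, le_rfl,
    (evr_rf ((o.ok p.1).1.N_odd p.2) ..).symm ▸ a⟩) (Lm.inv_le η0 hη) q.le

theorem Ay.orb (H : G.Kq9 β U e r' R A N) (hr : r' ≤ r)
    (hη : G.cP (l + 1) k * N * G.Q k ^ 8 ≤ η) : G.Sk β U r (G.Yk β k l R) A 0 η := by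
  have : (Fi.tr haar).IsHaarMeasure := (inferInstance : haar.IsHaarMeasure)
  obtain ⟨L, T, E, C, B, hD, rfl, h1, h2, h3⟩ := H
  have η0 : 0 < η := (mul_pos (mul_pos ((o.ok 0).1.cP0 _ _) (M.pos ⟨B, h1, h2⟩))
    (pow_pos ((o.ok 0).1.Q0 k) _)).trans_le hη
  refine ⟨η0, _, fun _ => 0, (cv_acL h1 L).mono fun _ a i => (a i).trans_le hr,
    fun p => rc_acL (h2.1 p) L, tendsto_const_nhds, ?_⟩
  filter_upwards [M, h2.2] with p ⟨_, ρ, _, m⟩ a
  have n := (o.ok p.1).1.N_odd p.2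
  rw [mul_zero]
  exact m.dk_orb (o.ok p.1).1 (o.tu p) (o.ok p.1).2 ((a []).imp fun I a => ⟨N, le_rfl, a⟩) hD
    (evr_typ n (h3 p).1) (h3 p).2 L (evr_acL n _ _ _ L) (fun L' => (a _).imp fun I a => ⟨N, le_rfl,
      (evr_rf n ..).symm ▸ (acL_acL ..).symm ▸ a⟩) (Lm.inv_le η0 hη)

end Pool.Agent.Lib.MP_7f377f_mp.RG.Q4.En.Gl
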