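import Pool.Agent.Lib.MP_7f377f_mp.G.TsC
import Pool.Agent.Lib.MP_7f377f_mp.G.CmD

/-! Windows for the ratio of two scales. -/

noncomputable section

set_option linter.unusedSectionVars false
variable [Pool.Agent.Lib.MP_7f377f_mp.GD]

namespace Pool.Agent.Lib.MP_7f377f_mp.RG.Q4.En.Gl

open Filter Topology Real Set

/-- windows with a distinguished ratio -/
structure Wq9 (G : Gl) (X : ℝ → ℝ) (q : ℕ) (W : ℝ → ℝ → Prop) (ρ : ℝ → ℝ) : Prop where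
  wnd : Cm.Wnd W
  sq : ∀ D r, W D r → ∀ d ∈ Icc (D / (4 * r)) (D / r), (D / d) ^ 2 ≤ X d
  big : ∀ D r, W D r → ∀ l, 1 ≤ D * 3 ^ G.e l → D * 3 ^ G.e l ≤ G.Q l → G.Q l ^ q ≤ r
  lg : ∀ᶠ D in 𝓝[>] (0 : ℝ), ∀ r, W D r → 4 * r ≤ log D⁻¹
  lim : Tendsto (fun t => ρ t * t) (𝓝[>] 0) (𝓝[>] 0)
  mem : ∀ᶠ t in 𝓝[>] (0 : ℝ), 1 ≤ ρ t ∧ W t (ρ t) ∧ W (ρ t * t) (ρ t) ∧ W (ρ t * t) (ρ t * ρ t)

theorem Ok.wnd {G : Gl} (h : G.Ok) {X : ℝ → ℝ} (hX : ∀ᶠ d in 𝓝[>] (0 : ℝ), X d ≤ log d⁻¹)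
    (hq : ∀ q, ∀ᶠ d in 𝓝[>] (0 : ℝ), ∀ l, d * 3 ^ G.e l ≤ G.Q l ^ q → G.Q l ^ q ≤ X d) (q : ℕ) :
    ∃ W ρ, G.Wq9 X q W ρ := by
  obtain ⟨ε, ε0, hε⟩ := mem_nhdsGT_iff_exists_Ioc_subset.1 (hX.and (hq (8 * (q + 1) + 1)))
  have lv : ∀ {P : ℕ → Prop}, (∀ᶠ l in atTop, P l) → ∀ᶠ d in 𝓝[>] (0 : ℝ), d ∈ Ioc 0 ε ∧
      ∃ l, P l ∧ 2 * (G.K * 1) ≤ G.Bk l ∧ 1 ≤ d * 3 ^ G.e l ∧ d * 3 ^ G.e l ≤ G.Q l := fun e => by
    filter_upwards [h.ex_jm one_pos (e.and (h.sch.Btop.eventually_ge_atTop (2 * (G.K * 1)))),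
      Ioc_mem_nhdsGT ε0] with d ⟨_, l, a, b, c⟩ m
    have L : (1 : ℝ) ≤ G.L l := by linarith [h.L1 l]
    rw [one_mul] at b c
    exact ⟨m, l, a.1, a.2, (one_le_pow₀ L).trans b, c.trans (pow_le_pow_right₀ L (by have := h.K0_le; omega))⟩
  let W : ℝ → ℝ → Prop := fun D r => 1 ≤ r ∧
    (∀ d ∈ Icc (D / (4 * r)) (D / r), (D / d) ^ 2 ≤ X d) ∧
    ∀ l, 1 ≤ D * 3 ^ G.e l → D * 3 ^ G.e l ≤ G.Q l → G.Q l ^ (q + 1) ≤ r
  have key : ∀ x ∈ Ioc 0 ε, ∀ l, 2 * (G.K * 1) ≤ G.Bk l → 1 ≤ x * 3 ^ G.e l →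
      x * 3 ^ G.e l ≤ G.Q l → ∀ n, 2 * (q + 1) ≤ n → n ≤ 4 * (q + 1) → ∀ D, x ≤ D →
        D ≤ G.Q l ^ n * x → W D (G.Q l ^ n) := fun x hx l a b c n n1 n2 D d1 d2 => by
    have Q := h.Q1 l
    have r1 : 1 ≤ G.Q l ^ n := one_le_pow₀ Q
    have D0 := hx.1.trans_le d1
    refine ⟨r1, fun d hd => ?_, fun i _ e => ?_⟩
    · have d0 : 0 < d := lt_of_lt_of_le (by positivity) hd.1
      have dx : d ≤ x := hd.2.trans ((div_le_iff₀' (by positivity)).2 d2)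
      refine le_trans ?_ ((hε ⟨d0, dx.trans hx.2⟩).2 l (((mul_le_mul_of_nonneg_right dx
        (by positivity)).trans c).trans (le_self_pow₀ Q (by omega))))
      have u : D / d ≤ 4 * G.Q l ^ n :=
        (div_le_iff₀ d0).2 ((div_le_iff₀' (by positivity)).1 hd.1)
      refine (pow_le_pow_left₀ (by positivity) u 2).trans ?_
      rw [mul_pow, ← pow_mul, pow_succ' _ (8 * (q + 1))]
      exact mul_le_mul (h.cQ l (by norm_num)) (pow_le_pow_right₀ Q (by omega)) (by positivity)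
        (by positivity)
    · refine le_trans ?_ (pow_le_pow_right₀ Q n1)
      rw [pow_mul]
      refine pow_le_pow_left₀ (h.Q0 i).le (h.Q_near b a ?_) _
      rw [pow_one]
      exact (mul_le_mul_of_nonneg_right d1 (by positivity)).trans e
  have fin : ∀ᶠ D in 𝓝[>] (0 : ℝ), ∀ r, W D r → 4 * r ≤ log D⁻¹ := by
    filter_upwards [Ioc_mem_nhdsGT ε0] with D m r ⟨r1, w, _⟩
    have D0 := m.1
    have a := (w _ ⟨le_rfl, by gcongr; linarith⟩).trans (hε ⟨by positivity,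
      (div_le_self D0.le (by linarith)).trans m.2⟩).1
    rw [div_div_cancel₀ D0.ne', inv_div, div_eq_mul_inv, log_mul (by positivity) (by positivity)] at a
    nlinarith [log_le_self (show 0 ≤ 4 * r by positivity)]
  have ex : ∀ᶠ t in 𝓝[>] (0 : ℝ), ∃ r, W t r ∧ W (r * t) r ∧ W (r * t) (r * r) := by
    filter_upwards [lv (Eventually.of_forall fun _ => trivial)] with t ⟨m, l, _, a, b, c⟩
    have u := le_mul_of_one_le_left m.1.le (one_le_pow₀ (h.Q1 l) (n := 2 * (q + 1)))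
    refine ⟨_, key t m l a b c _ le_rfl (by omega) t le_rfl u,
      key t m l a b c _ le_rfl (by omega) _ u le_rfl, ?_⟩
    rw [← pow_add]
    exact key t m l a b c _ (by omega) (by omega) _ u
      (mul_le_mul_of_nonneg_right (pow_le_pow_right₀ (h.Q1 l) (by omega)) m.1.le)
  obtain ⟨ρ, hρ⟩ := ex.choice
  have p : ∀ᶠ t in 𝓝[>] (0 : ℝ), 0 < ρ t * t := by
    filter_upwards [hρ, self_mem_nhdsWithin] with t a (b : 0 < t)
    exact mul_pos (one_pos.trans_le a.1.1) b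
  have lim : Tendsto (fun t => ρ t * t) (𝓝[>] 0) (𝓝 0) := by
    refine squeeze_zero' (p.mono fun _ => le_of_lt) ?_ (g := fun t => -(log t * t ^ (1 : ℝ)))
      (by simpa using (tendsto_log_mul_rpow_nhdsGT_zero one_pos).neg)
    filter_upwards [hρ, fin, self_mem_nhdsWithin] with t a c (b : 0 < t)
    rw [rpow_one, ← neg_mul, ← log_inv]
    exact mul_le_mul_of_nonneg_right (by linarith [c _ a.1, a.1.1]) b.le
  refine ⟨W, ρ, ⟨fun M => ?_, ?_, hρ.mono fun _ a => ⟨_, a.1⟩, fun η η0 =>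
    (hρ.and (lim.eventually_lt_const η0)).mono fun _ a => ⟨_, one_pos.trans_le a.1.1.1, a.2, a.1.2.1⟩⟩,
    fun _ _ w => w.2.1, fun _ _ w l a b => (pow_le_pow_right₀ (h.Q1 l) q.le_succ).trans (w.2.2 l a b),
    fin, tendsto_nhdsWithin_iff.2 ⟨lim, p⟩, hρ.mono fun _ a => ⟨a.1.1, a⟩⟩
  · filter_upwards [lv (h.Q_top.eventually_ge_atTop M)] with D ⟨_, l, a, _, b, c⟩ r w
    exact (a.trans (le_self_pow₀ (h.Q1 l) q.succ_ne_zero)).trans (w.2.2 l b c)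
  · filter_upwards [fin, Ioc_mem_nhdsGT ε0] with D a m r w
    linarith [a r w, log_le_self (inv_pos.2 m.1).le, w.1]

theorem Wq9.mono {G : Gl} {X ρ : ℝ → ℝ} {q q' : ℕ} {W : ℝ → ℝ → Prop} (w : G.Wq9 X q W ρ) (h : G.Ok)
    (e : q' ≤ q) : G.Wq9 X q' W ρ :=
  ⟨w.wnd, w.sq, fun D r a l b c => (pow_le_pow_right₀ (h.Q1 l) e).trans (w.big D r a l b c), w.lg,
    w.lim, w.mem⟩

end Pool.Agent.Lib.MP_7f377f_mp.RG.Q4.En.Gl
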