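import Pool.Agent.Lib.MP_7f377f_mp.G.TyK
import Pool.Agent.Lib.MP_7f377f_mp.G.Q5Lev

/-! Two scales: the contraction beats all losses. -/

noncomputable section

set_option linter.unusedSectionVars false
variable [Pool.Agent.Lib.MP_7f377f_mp.GD]

namespace Pool.Agent.Lib.MP_7f377f_mp.RG.Q4.En.Gl.Ok

open Filter Topology Real

variable {G : Gl} (h : G.Ok)
include h

/-- the ratio of the scales beats the growth of the constants -/
theorem num_key (M : ℕ) : ∀ᶠ l in atTop, ∀ k, l ≤ k →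
    (1.01 ^ (k - l) * G.Q k) ^ M ≤ G.Q l ^ M * G.rt k l := by
  filter_upwards [h.ev_L ((1.01 * 3 ^ G.K) ^ M)] with l a k e
  induction k, e using Nat.le_induction with
  | base => simp [rt_top]
  | succ k e ih =>
    have b : G.Q (k + 1) ≤ 3 ^ G.K * G.Q k := by
      rw [Q, Q, ← mul_pow]
      exact pow_le_pow_left₀ (Nat.cast_nonneg _) (by exact_mod_cast h.L_succ k) _
    have c : (G.rt (k + 1) l : ℝ) = G.rt k l * G.L k := by
      rw [← h.rt_mul e k.le_succ, h.rt_step k.lt_succ_self, rt_top, mul_one, Nat.cast_mul]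
    have q := h.Q0 k
    have q' := h.Q0 (k + 1)
    calc _ ≤ (1.01 ^ (k - l) * G.Q k * (1.01 * 3 ^ G.K)) ^ M := by
          refine pow_le_pow_left₀ (by positivity) ?_ _
          rw [Nat.succ_sub e, pow_succ]
          calc _ ≤ 1.01 ^ (k - l) * 1.01 * (3 ^ G.K * G.Q k) := by gcongr
            _ = _ := by ring
      _ ≤ G.Q l ^ M * G.rt k l * G.L k := by
          rw [mul_pow]
          exact mul_le_mul ih (a.trans (Nat.cast_le.2 (h.L_mono e))) (by positivity)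
            (mul_nonneg (pow_pos (h.Q0 l) _).le (Nat.cast_nonneg _))
      _ = _ := by rw [c, mul_assoc]

theorem num (n : ℕ) : ∃ q : ℕ, ∀ᶠ l in atTop, ∀ (k : ℕ) (d D : ℝ), 0 < d →
    1 ≤ d * 3 ^ G.e (k + 1) → d * 3 ^ G.e k ≤ G.Q k → 1 ≤ D * 3 ^ G.e l → D * 3 ^ G.e l ≤ G.Q l →
      G.Q l ^ q * d ≤ D → l < k ∧ G.Q k ^ 2 * d ≤ D ∧ (1.01 ^ (k - l) * G.Q k) ^ n ≤ D / d ∧
        G.cP (l + 1) k * (1.01 ^ (k - l) * G.Q k) ^ n ≤ (d / D) ^ (50⁻¹ : ℝ) := by
  refine ⟨2 * (200 * n + 15) + 1, ?_⟩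
  filter_upwards [h.num_key (2 * (200 * n + 15) + 1)] with l key k d D d0 h1 h2 h3 h4 h5
  have ql := h.Q0 l
  have qk := h.Q0 k
  have e0 : (0 : ℝ) < 3 ^ G.e l := by positivity
  have D0 : 0 < D := (mul_pos (pow_pos ql _) d0).trans_le h5
  have lk : l < k := by
    by_contra a
    have b : 1 ≤ d * (G.L l * 3 ^ G.e l) := h1.trans (by
      rw [← h.e_succ]
      exact mul_le_mul_of_nonneg_left (pow_le_pow_right₀ (by norm_num)
        (h.sch.mono.monotone (by omega))) d0.le)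
    have c : G.Q l ^ (2 * (200 * n + 15) + 1) ≤ G.Q l ^ 2 :=
      calc _ ≤ G.Q l ^ (2 * (200 * n + 15) + 1) * (d * (G.L l * 3 ^ G.e l)) :=
            le_mul_of_one_le_right (by positivity) b
        _ = G.Q l ^ (2 * (200 * n + 15) + 1) * d * 3 ^ G.e l * G.L l := by ring
        _ ≤ G.Q l * G.Q l := mul_le_mul ((mul_le_mul_of_nonneg_right h5 e0.le).trans h4) (h.LQ l)
            (Nat.cast_nonneg _) ql.le
        _ = _ := (sq _).symm
    have := (pow_le_pow_iff_right₀ (show 1 < G.Q l by linarith [h.L1 l, h.LQ l])).1 c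
    omega
  have r := h.rt_e lk.le
  have p := h.cP_pow (show l + 1 ≤ k from lk)
  have p0 := h.cP0 (l + 1) k
  have s : (G.rt k l : ℝ) = G.L l * G.rt k (l + 1) := by rw [h.rt_step lk, Nat.cast_mul]
  have k1 := key k lk.le
  have y1 : G.Q k ≤ 1.01 ^ (k - l) * G.Q k :=
    le_mul_of_one_le_left qk.le (one_le_pow₀ (by norm_num))
  generalize (1.01 : ℝ) ^ (k - l) * G.Q k = Y at k1 y1 ⊢
  have Y1 : 1 ≤ Y := (h.Q1 k).trans y1
  have Y0 : 0 < Y := one_pos.trans_le Y1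
  have lY : G.Q l ≤ Y := (h.Q_mono lk.le).trans y1
  have x0 : 0 < D / d := div_pos D0 d0
  have a1 : G.Q l ^ (2 * (200 * n + 15) + 1) ≤ D / d := (le_div_iff₀ d0).2 h5
  have a2 : (G.rt k l : ℝ) ≤ Y * (D / d) := by
    rw [← mul_div_assoc, le_div_iff₀ d0]
    refine le_of_mul_le_mul_right ?_ e0
    calc _ = d * 3 ^ G.e k := by rw [← r]; ring
      _ ≤ Y * (D * 3 ^ G.e l) := (h2.trans y1).trans (le_mul_of_one_le_right Y0.le h3)
      _ = _ := by ring
  have a3 : Y ^ (200 * n + 15) ≤ D / d := by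
    refine le_of_sq_le_sq (le_of_mul_le_mul_right ?_ Y0) x0.le
    rw [← pow_mul, ← pow_succ, mul_comm _ 2]
    exact k1.trans ((mul_le_mul a1 a2 (Nat.cast_nonneg _) x0.le).trans_eq (by ring))
  have a4 : D / d ≤ Y ^ 3 * G.rt k (l + 1) := by
    rw [div_le_iff₀ d0]
    refine le_of_mul_le_mul_right (h4.trans ?_) e0
    have r0 : (0 : ℝ) ≤ G.rt k (l + 1) := Nat.cast_nonneg _
    calc _ ≤ G.Q l * (d * 3 ^ G.e (k + 1)) := le_mul_of_one_le_right ql.le h1
      _ = G.Q l * G.L k * G.L l * (G.rt k (l + 1) * d * 3 ^ G.e l) := by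
          rw [h.e_succ, ← r, s]; ring
      _ ≤ Y * Y * Y * (G.rt k (l + 1) * d * 3 ^ G.e l) := by
          gcongr
          exacts [(h.LQ k).trans y1, (h.LQ l).trans lY]
      _ = _ := by ring
  have a5 : G.cP (l + 1) k ^ 40 * (D / d) ≤ Y ^ 3 :=
    calc _ ≤ G.cP (l + 1) k ^ 40 * (Y ^ 3 * G.rt k (l + 1)) := by gcongr
      _ = Y ^ 3 * (G.cP (l + 1) k ^ 40 * G.rt k (l + 1)) := by ring
      _ ≤ _ := mul_le_of_le_one_right (by positivity) p
  refine ⟨lk, (le_div_iff₀ d0).1 (((pow_le_pow_left₀ qk.le y1 2).trans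
    (pow_le_pow_right₀ Y1 (by omega))).trans a3), (pow_le_pow_right₀ Y1 (by omega)).trans a3, ?_⟩
  rw [le_rpow_inv_iff_of_pos (by positivity) (by positivity) (by norm_num), rpow_ofNat, ← inv_div,
    ← one_div, le_div_iff₀ x0]
  refine (pow_le_one_iff_of_nonneg (by positivity) (n := 4) (by norm_num)).1
    (le_of_mul_le_mul_right ?_ x0)
  calc _ = (G.cP (l + 1) k ^ 40 * (D / d)) ^ 5 * Y ^ (200 * n) := by ring
    _ ≤ (Y ^ 3) ^ 5 * Y ^ (200 * n) := by gcongr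
    _ = Y ^ (200 * n + 15) := by ring
    _ ≤ _ := a3.trans_eq (one_mul _).symm

end Pool.Agent.Lib.MP_7f377f_mp.RG.Q4.En.Gl.Ok
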