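import Pool.Agent.Lib.MP_7f377f_mp.G.TyD

/-! Smeared words: classes of slots and the choice of the levels. -/

noncomputable section

set_option linter.unusedSectionVars false
variable [Pool.Agent.Lib.MP_7f377f_mp.GD]

namespace Pool.Agent.Lib.MP_7f377f_mp.Ob

open Weak YM7 Pur

/-- separated profiles in the cell at the origin -/
structure Pc {n : ℕ} {κ : Type} (lam μ D : ℕ) (a : ℝ) (φ : κ → Site 4 n → ℝ) : Prop where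
  lp : ∀ i, Lqq a (φ i)
  mar : ∀ i x, φ i x ≠ 0 → ∀ l, μ ≤ (x l).val ∧ (x l).val + μ ≤ lam
  sep : ∀ i j, i ≠ j → ∀ x y, φ i x ≠ 0 → φ j y ≠ 0 → ∃ l, D ≤ ((x - y) l).valMinAbs.natAbs

/-- the number of points of the grid of mesh `3 ^ -e` -/
def nq (s e : ℕ) : ℕ := (2 * s + 1) * 3 ^ e

instance (s e : ℕ) : NeZero (nq s e) := ⟨by unfold nq; positivity⟩

/-- a smeared polynomial and a field -/
def yy (e : ℕ) (A : Pol) (ν : ℝ) (f : R4 → ℝ) : Pol := smp e A f + (ν : ℂ) • MvPolynomial.X f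

/-- the parameters of the words -/
structure Wp where
  M : ℕ
  Λ : ℝ
  δ : ℝ
  c : ℕ
  n : ℕ
  C : ℝ

end Pool.Agent.Lib.MP_7f377f_mp.Ob

namespace Pool.Agent.Lib.MP_7f377f_mp.RG.Q4.En.Gl

open Finset Real Sg Br YM7 Filter Topology Ob Pos Pur
open Weak (Site corner)

variable (G : Gl) (b : ℝ) (J k l : ℕ) [NeZero (G.N J)] (n' : ℕ) [NeZero n'] (P : Grd)
  (κ : Type) [Fintype κ] [DecidableEq κ] [Inhabited κ] (a : ℝ) (c : ℕ) (C : ℝ)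

/-- admissible slots, together with their mirror images -/
def Ds (B : Cfg (G.N J) → ℝ) (ν : ℝ) : Prop := ∀ L : List (Fin 4),
  ∃ (α : Type) (_ : Fintype α) (Λ : Lwd (G.N J) α κ) (μ : ℝ), G.Wk b J k P a C Λ ∧
    G.Dq b J k l n' P c C Λ μ ν ∧ ∀ U, B (L.foldr Weak.refl U) = μ * Λ.ob (Fi.tr haar) b U

/-- families of slots in the cell at the origin -/
def Lcl {κ' : Type} (lam μ D : ℕ) (a' : ℝ) (O : κ' → Cfg (G.N J) → ℝ) : Prop :=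
  ∃ (B : κ' → Cfg (G.N J) → ℝ) (ν : κ' → ℝ) (φ : κ' → Site 4 (G.N J) → ℝ), Pc lam μ D a' φ ∧
    ∀ i, G.Ds b J k l n' P κ a c C (B i) (ν i) ∧ O i = ltr n' P.s (B i) 1 (ν i) (φ i)

/-- the separation of the slots -/
def dl : ℕ := 66 * 3 ^ (G.K0 + 1) * (G.L l ^ G.K0 * G.rt J l)

/-- the large scale -/
structure Gb (a' : ℝ) (ρ : ℕ) : Prop where
  lt : l < k
  l0 : 0 < l
  a0 : 0 < a'
  le : a' ≤ a
  a1 : G.rt J l * a' ≤ 1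
  big : 2 * c + 3 ≤ G.L k
  rad : G.rt J k * (P.j * (G.p k).D + 1) + P.R + 1 ≤ ρ

/-- the constants of the chessboard estimate -/
def cz (j u n : ℕ) : ℝ := n * ((2 * (u + 4 * G.L j ^ G.K0) + 1) ^ 4 : ℕ)

/-- the observable `B` is a sum of admissible words of size `N` -/
def Rw (B : Cfg (G.N J) → ℝ) (N : ℝ) : Prop :=
  ∃ (α : Type) (_ : Fintype α) (Λ : Lwd (G.N J) α κ), G.Wk b J k P a C Λ ∧ G.Nw J k P c C Λ N ∧
    ∀ U, Λ.ob (Fi.tr haar) b U = B U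

variable (w : Wp) (d : ℝ) (e : ℕ)

/-- the size of the words with `m` letters -/
def nw (m : ℕ) : ℝ := G.Q k ^ w.n * G.bb k / G.bb k ^ m

/-- the grid `P` of mesh `3 ^ -e` on the lattice `p` -/
structure Mp (p : ℕ × ℕ) (b : ℝ) (P : Grd) : Prop where
  hs : P.s = 3 ^ (G.e p.2 - e)
  he : e ≤ G.e p.2
  gk : (G.wm p.1).Gk p.2 k (nq p.1 e) P (Fin (w.M + 1)) (G.aa p / (2 * d)) w.c w.C
  rad : G.aa p * (G.rt p.2 k * (P.j * (G.p k).D + 1) + P.R + 1 : ℕ) ≤ G.Q k * d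
  rep : ∀ m B W, 1 ≤ m → m ≤ w.M + 1 → 0 < W → Wb m w.Λ w.δ d (W * ((3 ^ e)⁻¹ / d) ^ 4) B →
    (G.wm p.1).Rw b p.2 k P (Fin (w.M + 1)) (G.aa p / (2 * d)) w.c w.C
      (evr (Fi.tr haar) b _ (G.aa p) B) (W * G.nw k w m)

/-- words with at most `M + 1` letters at the scale `d` are merged at the level `k` -/
def Mrg : Prop := 0 < d ∧ 1 ≤ d * 3 ^ G.e (k + 1) ∧ d * 3 ^ G.e k ≤ G.Q k ∧ 2 * w.c + 3 ≤ G.L k ∧
  (1 ≤ w.Λ ∧ 2 * w.Λ ≤ G.Q k) ∧ ∀ e, G.e k ≤ e → ∀ᶠ p : ℕ × ℕ in atTop ×ˢ atTop, ∀ b, (G.wm p.1).Tu b p.2 →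
    ∃ P, G.Mp k w d e p b P

variable (β : ℕ × ℕ → ℝ) (U : Filter (ℕ × ℕ))

/-- the letter `yy e A ν` has the size `η` at the level `l` -/
def Slt (A : Pol) (ν η : ℝ) : Prop := 0 < η ∧ ∃ (A' : ℕ × ℕ → Pol) (ν' : ℕ × ℕ → ℝ),
  Ob.Cv U (Pur.Bx (2 * w.Λ * d)) A' A ∧ (∀ p, Rc (A' p)) ∧ Tendsto ν' U (𝓝 ν) ∧ ∀ᶠ p in U, ∀ P,
    G.Mp k w d e p (β p) P → (G.wm p.1).Ds (β p) p.2 k l (nq p.1 e) P (Fin (w.M + 1))
      (G.aa p / (2 * d)) w.c w.C (fun V => η⁻¹ * evr (Fi.tr haar) (β p) _ (G.aa p) (A' p) V)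
      (η⁻¹ * ν' p)

/-- the measured marginal part of a polynomial summed over the grid -/
def mp (p : ℕ × ℕ) (x : Ty.Pl × Ty.Pl) (A : Pol) : ℝ := (G.wm p.1).ms (β p) p.2 x
  (smr (nq p.1 e) (3 ^ (G.e p.2 - e)) (evr (Fi.tr haar) (β p) _ (G.aa p) A) 1)

/-- the combination `c A + c' A'` has no marginal part -/
def Kp (E : List (Ty.Pl × Ty.Pl)) (A A' : Pol) (c c' : ℝ) : Prop := ∃ γ γ' : ℕ × ℕ → ℝ,
  Tendsto γ U (𝓝 c) ∧ Tendsto γ' U (𝓝 c') ∧ ∀ p, |γ p| + |γ' p| ≤ 1 ∧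
    ∀ x ∈ E, G.mp e β p x ((γ p : ℂ) • A + (γ' p : ℂ) • A') = 0

/-- the marginal part of a scalar in units of the field -/
def cs (A : Pol) : ℝ := limUnder U fun p => -G.mp e β p ((0, 1), (0, 1)) A /
  (G.wm p.1).ms (β p) p.2 ((0, 1), (0, 1)) (gfield (sy 1))

/-- the setting of the continuum limit -/
structure Lm (U : Ultrafilter (ℕ × ℕ)) (S : Pol →ₗ[ℂ] ℂ) : Prop where
  ok : G.Oks
  tu : G.Tus β
  st : net.St S
  lim : ∃ (Φ : Filter (ℕ × ℕ)) (τ : ℕ × ℕ → ℝ) (S₀ : ∀ {k : ℕ}, (Fin k → R4 → ℝ) → ℝ),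
    Φ ≤ atTop ×ˢ atTop ∧ YM7.Fam Φ G.nn G.aa β τ ∧ L6.Lim (Fi.tr haar) Φ G.nn G.aa β U S₀ S

end Pool.Agent.Lib.MP_7f377f_mp.RG.Q4.En.Gl
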