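import Pool.Agent.Lib.MP_7f377f_mp.G.TyS
import Pool.Agent.Lib.MP_7f377f_mp.G.TyH

/-! Smeared words: the letters on the lattice. -/

noncomputable section

set_option linter.unusedSectionVars false
variable [Pool.Agent.Lib.MP_7f377f_mp.GD]

namespace Pool.Agent.Lib.MP_7f377f_mp.Ob

open MeasureTheory Weak Finset YM7 Pur MvPolynomial Filter Topology
open Ope (gp)

variable {n n' s lam e μ : ℕ} [NeZero n] [NeZero n'] [MeasurableSpace SU2] [BorelSpace SU2]
  {h : Measure SU2} [h.IsHaarMeasure] [IsProbabilityMeasure h] {a b ν η R R' : ℝ}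
  {A : Pol} {f : R4 → ℝ} {O : Set R4}

theorem yy_zero (e : ℕ) (f : R4 → ℝ) : yy e 0 1 f = X f := by simp [yy, smp]

/-- margins on the lattice -/
theorem mar_xp (ha : 0 < a) (μ0 : 0 < μ) {x : Site 4 n} {l : Fin 4}
    (h1 : a * μ ≤ xp a x l) (h2 : xp a x l ≤ a * lam - a * μ) :
    μ ≤ (x l).val ∧ (x l).val + μ ≤ lam := by
  have a1 : (μ : ℤ) ≤ (x l).valMinAbs := by exact_mod_cast le_of_mul_le_mul_left h1 ha
  have a2 : (x l).valMinAbs + μ ≤ lam := by
    rw [le_sub_iff_add_le] at h2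
    have : ((x l).valMinAbs : ℝ) + μ ≤ lam := le_of_mul_le_mul_left ((mul_add _ _ _).trans_le h2) ha
    exact_mod_cast this
  rw [ZMod.valMinAbs_def_pos] at a1 a2
  have := (x l).val_lt
  split_ifs at a1 a2 <;> omega

variable (hf : ∀ y, f y ≠ 0 → ∀ l, |y l| ≤ R)
include hf

theorem rc_yy (hA : Rc A) : Rc (yy e A ν f) := (smp_rc hf hA).add ((Rc.X f).smul ν)

theorem tau_yy (z : Fin 4 → ℤ) :
    net.τ (gp e z) (yy e A ν f) = yy e A ν fun y => f (y - gp e z) := by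
  rw [yy, map_add, map_smul, tau_smp hf]
  exact congrArg (_ + (ν : ℂ) • ·) (rename_X _ _)

theorem cv_yy {ι : Type} {U : Filter ι} {A' : ι → Pol} {ν' : ι → ℝ} (hA : Cv U (Bx R') A' A)
    (hν : Tendsto ν' U (𝓝 ν)) (g : PN.Gd O f)
    (hO : ∀ y z : R4, f y ≠ 0 → (∀ l, |z l - y l| ≤ R') → z ∈ O) :
    Cv U O (fun p => yy e (A' p) (ν' p) f) (yy e A ν f) :=
  (hA.map (g := fun A => smp e A f) continuous_id (fun _ _ => smp_add hf)
    (fun c _ => smp_smul c) fun _ u => smp_mem hf u hO).add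
      (.smul ((Complex.continuous_ofReal.tendsto _).comp hν) (.base g.mem))

/-- the lattice form of a letter -/
theorem evr_yy (hA : A ∈ net.loc (Bx R')) (hn : n = n' * s) (ha : 0 < a) (R0 : 0 ≤ R')
    (hs : a * s = (3 ^ e)⁻¹) (hR : 2 * (R + R' + 2 * a) < a * n) (η0 : η ≠ 0) (U : Cfg n) :
    evr h b n a (yy e A ν f) U = η * ltr n' s (fun V => η⁻¹ * evr h b n a A V) 1 (η⁻¹ * ν)
      (fun x => f (xp a x)) U + -(ν * ex h b n (gfield (sy fun x => f (xp a x)))) := by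
  have := evr_smp (h := h) (b := b) hf hA hn ha R0 hs hR U
  rw [evr] at this
  rw [evr, yy, map_add, map_smul, Pi.add_apply, Pi.smul_apply, evc_X, Complex.add_re, this,
    smul_eq_mul, ← Complex.ofReal_mul, Complex.ofReal_re, ltr, cen, ex, smr, smr, one_mul, mul_add,
    mul_sum, mul_assoc, mul_inv_cancel_left₀ η0, mul_sub, sub_eq_add_neg, add_assoc]
  refine congrArg (· + _) (sum_congr rfl fun x _ => ?_)
  rw [mul_left_comm, mul_inv_cancel_left₀ η0]

end Pool.Agent.Lib.MP_7f377f_mp.Ob
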