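import Pool.Agent.Lib.MP_7f377f_mp.G.TyR
import Pool.Agent.Lib.MP_7f377f_mp.G.TyU0

/-! Smeared words: clusters at a small scale. -/

noncomputable section

set_option linter.unusedSectionVars false
variable [Pool.Agent.Lib.MP_7f377f_mp.GD]

namespace Pool.Agent.Lib.MP_7f377f_mp.Ob

open MeasureTheory Weak Finset YM7 Pur MvPolynomial Filter Topology
open Ope (gp sc)

variable {n n' s lam μ E e k : ℕ} [NeZero n] [NeZero n'] {a b c η ν R R' Λ δ D : ℝ} {z : R4}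
  {A : Pol} {g : R4 → ℝ} {O : Set R4}

theorem sc_cube {f : Fin k → R4 → ℝ} (T : YM7.Tf f Λ δ) (D0 : 0 < D) {i : Fin k} {y : R4}
    (hy : f i (D⁻¹ • (y - z)) ≠ 0) (l : Fin 4) : z l - Λ * D ≤ y l ∧ y l ≤ z l + Λ * D := by
  have := T.cube i _ hy l
  rw [PiLp.smul_apply, smul_eq_mul, abs_mul, abs_of_pos (inv_pos.2 D0), inv_mul_le_iff₀' D0,
    PiLp.sub_apply, abs_le] at this
  constructor <;> linarith

theorem sc_sep {f : Fin k → R4 → ℝ} (T : YM7.Tf f Λ δ) (D0 : 0 < D) {i j : Fin k} {x y : R4}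
    (u : i ≠ j) (hx : f i (D⁻¹ • (x - z)) ≠ 0) (hy : f j (D⁻¹ • (y - z)) ≠ 0) :
    ∃ l, δ * D ≤ |x l - y l| := (T.sep i j u _ _ hx hy).imp fun l hl => by
  rwa [← PiLp.sub_apply, ← smul_sub, sub_sub_sub_cancel_right, PiLp.smul_apply, smul_eq_mul,
    abs_mul, abs_of_pos (inv_pos.2 D0), le_inv_mul_iff₀' D0] at hl

/-- the profiles of a small cluster -/
theorem pc_xp {f : Fin k → R4 → ℝ} (T : YM7.Tf f Λ δ) (a0 : 0 < a) (D0 : 0 < D)
    (hz : ∀ l, a * μ + Λ * D ≤ z l ∧ z l + Λ * D + a * μ ≤ a * lam) (hE : a * E ≤ δ * D)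
    (hn : 2 * (a * lam + a) < a * n) :
    Pc lam μ E (D⁻¹ * a) fun i (x : Site 4 n) => Λ⁻¹ * f i (D⁻¹ • (xp a x - z)) := by
  have L0 := one_pos.trans_le T.one
  have m0 : 0 ≤ a * μ := by positivity
  have q : ∀ i y, Λ⁻¹ * f i (D⁻¹ • (y - z)) ≠ 0 → ∀ l, a * μ ≤ y l ∧ y l + a * μ ≤ a * lam :=
    fun i y hy l => by constructor <;> linarith [hz l, sc_cube T D0 (right_ne_zero_of_mul hy) l]
  have v : ∀ i x, Λ⁻¹ * f i (D⁻¹ • (xp a x - z)) ≠ 0 → ∀ l, (μ : ℤ) ≤ (x l : ZMod n).valMinAbs ∧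
      (x l).valMinAbs + μ ≤ lam := fun i x hx l => by
    obtain ⟨h1, h2⟩ : a * μ ≤ a * (x l).valMinAbs ∧ a * (x l).valMinAbs + _ ≤ _ := q i _ hx l
    rw [← mul_add] at h2
    exact ⟨by exact_mod_cast le_of_mul_le_mul_left h1 a0,
      by exact_mod_cast le_of_mul_le_mul_left h2 a0⟩
  have n2 : 2 * lam < n := by
    have : (2 * lam : ℝ) < n := lt_of_mul_lt_mul_left (by linarith) a0.le
    exact_mod_cast this
  refine ⟨fun i => lqq_xp (f := fun y => Λ⁻¹ * f i (D⁻¹ • (y - z))) (R := a * lam) (fun y => ?_)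
    (fun y y' => ?_) (fun y hy l => abs_le.2 ⟨by linarith [q i y hy l], by linarith [q i y hy l]⟩)
    a0 hn, fun i x hx l => ?_, fun i j u x y hx hy => ?_⟩
  · rw [abs_mul, abs_of_pos (inv_pos.2 L0), inv_mul_le_one₀ L0]
    exact T.bd i _
  · rw [← mul_sub, abs_mul, abs_of_pos (inv_pos.2 L0), inv_mul_le_iff₀ L0]
    refine (T.lip i _ _).trans_eq ?_
    rw [dist_smul₀, dist_sub_right, Real.norm_eq_abs, abs_of_pos (inv_pos.2 D0)]
  · have := v i x hx l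
    have := ZMod.val_eq_ite_valMinAbs (x l)
    rw [if_pos ((ZMod.valMinAbs_nonneg_iff _).1 (by omega))] at this
    omega
  · refine (sc_sep T D0 u (right_ne_zero_of_mul hx) (right_ne_zero_of_mul hy)).imp fun l hl => ?_
    have h1 := v i x hx l
    have h2 := v j y hy l
    have e : (x - y) l = (((x l).valMinAbs - (y l).valMinAbs : ℤ) : ZMod n) := by simp
    rw [e, vma_cast (by omega) (by omega)]
    change _ ≤ |a * (x l).valMinAbs - a * (y l).valMinAbs| at hl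
    rw [← mul_sub, abs_mul, abs_of_pos a0] at hl
    have := le_of_mul_le_mul_left (hE.trans hl) a0
    rw [← Int.cast_sub, ← Int.cast_abs, Int.abs_eq_natAbs] at this
    exact_mod_cast this

variable {S : Pol →ₗ[ℂ] ℂ} {W : Pol} {K K' : ℝ}

theorem ctr_tau (hS : net.St S) {c : ℂ} (c0 : c ≠ 0) (hW : c • net.τ z W ∈ net.loc O) :
    c • net.τ z W - S (c • net.τ z W) • 1 = c • net.τ z (Ope.ctr S W) := by
  have := hS.ti (-z) (Net.adm ((Submodule.smul_mem_iff _ c0).1 hW))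
  rw [net.τ_τ, neg_add_cancel, net.τ_zero] at this
  rw [map_smul, ← this, Ope.ctr, map_sub, smul_sub, smul_eq_mul, mul_smul, ← algebraMap_eq,
    AlgHom.commutes, Algebra.algebraMap_eq_smul_one]

theorem qb_back (hS : net.St S) (c0 : 0 < c) (h : net.QB S ((c : ℂ) • net.τ z W) R K)
    (hR : R + ‖z‖ ≤ R') (hK : c⁻¹ * K ≤ K') : net.QB S W R' K' := by
  have := ((h.smul (c : ℂ)⁻¹).tau hS (-z)).mono hS (R' := R') (c' := K') (by rwa [norm_neg])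
    (by rwa [norm_inv, Complex.norm_real, Real.norm_of_nonneg c0.le])
  rwa [inv_smul_smul₀ (by exact_mod_cast c0.ne'), net.τ_τ, neg_add_cancel, net.τ_zero] at this

variable [MeasurableSpace SU2] [BorelSpace SU2] {h : Measure SU2} [h.IsHaarMeasure]
  [IsProbabilityMeasure h]

theorem ltr_slot (hg : ∀ y, g y ≠ 0 → ∀ l, |y l| ≤ R) (hA : A ∈ net.loc (Bx R')) (hn : n = n' * s)
    (ha : 0 < a) (R0 : 0 ≤ R') (hs : a * s = (3 ^ e)⁻¹) (hR : 2 * (R + R' + 2 * a) < a * n) :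
    ∃ t, ∀ V, ltr n' s (fun V => η * evr h b n a A V) 1 (η * ν) (fun x => c * g (xp a x)) V =
      evr h b n a (((c * η : ℝ) : ℂ) • yy e A ν g) V + t := by
  refine ⟨c * η * ν * ∫ V, gfield (sy fun x => g (xp a x)) V ∂wilson h b n, fun V => ?_⟩
  have e1 : gfield (sy fun x => c * g (xp a x)) V = c * gfield (sy fun x => g (xp a x)) V := by
    simp only [gfield, sy, mul_sum, mul_ite, mul_zero]
    refine sum_congr rfl fun _ _ => sum_congr rfl fun _ _ => sum_congr rfl fun _ _ => ?_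
    split_ifs <;> ring
  have e2 := evr_smp (h := h) (b := b) hg hA hn ha R0 hs hR V
  rw [evr] at e2
  simp only [ltr, e1, evr, yy, map_smul, map_add, Pi.smul_apply, Pi.add_apply, smul_eq_mul, evc_X,
    Complex.re_ofReal_mul, Complex.add_re, e2, Complex.ofReal_re, cen, smr, mul_add, mul_sum]
  rw [add_assoc]
  exact congrArg₂ _ (sum_congr rfl fun _ _ => by ring) (by ring)

theorem qb_two {ι : Type} {n : ι → ℕ} [∀ p, NeZero (n p)] {a b τ : ι → ℝ} {Φ : Filter ι}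
    {U : Ultrafilter ι} {S₀ : ∀ {k : ℕ}, (Fin k → R4 → ℝ) → ℝ} (hF : Fam Φ n a b τ)
    (hL : L6.Lim h Φ n a b U S₀ S) (hS : net.St S) {f : Fin k → R4 → ℝ} (hf : Adm f)
    (T : YM7.Tf f Λ δ) (D0 : 0 < D) (R0 : 0 < R') (hR : 2 * R' < δ * D) {ζ : Fin 4 → ℤ}
    (hz : ∀ l, Λ * D + R' < gp e ζ l ∧ gp e ζ l + Λ * D + R' < 3⁻¹) {A' : Fin k → ι → Pol}
    {ν' : Fin k → ι → ℝ} {A : Fin k → Pol} {ν η : Fin k → ℝ} {ω ρ ε C M : ℝ}
    (hA : ∀ i, Cv U (Bx R') (A' i) (A i)) (hc : ∀ i p, Rc (A' i p))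
    (hν : ∀ i, Tendsto (ν' i) U (𝓝 (ν i))) (η0 : ∀ i, 0 < η i)
    (H : RgY h n a b U 3⁻¹ (fun i p => ((Λ⁻¹ * (η i)⁻¹ : ℝ) : ℂ) • yy e (A' i p) (ν' i p)
      fun y => sc D (f i) (y - gp e ζ)) ω ρ C M) (ρ0 : 0 < ρ) (hw : ω ≤ ε * ρ) (ε1 : ε ≤ 1) :
    net.QB S (∏ i, Ope.ctr S (yy e (A i) (ν i) (sc D (f i)))) 2
      (cB k C M * Λ ^ k * ∏ i, η i * ρ) ∧
    net.QB S (Ope.ctr S (∏ i, Ope.ctr S (yy e (A i) (ν i) (sc D (f i))))) 2
      (cB k C M * Λ ^ k * ε * ∏ i, η i * ρ) := by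
  have L0 := one_pos.trans_le T.one
  have LD := mul_pos L0 D0
  have q : ∀ i y, sc D (f i) y ≠ 0 → ∀ l, |y l| ≤ Λ * D := fun i y hy l => by
    simpa [abs_le] using sc_cube T D0 (z := 0) (y := y) (by rwa [sub_zero]) l
  have q' : ∀ i y, sc D (f i) (y - gp e ζ) ≠ 0 → ∀ l, |y l| ≤ 1 := fun i y hy l =>
    abs_le.2 ⟨by linarith [hz l, sc_cube T D0 hy l], by linarith [hz l, sc_cube T D0 hy l]⟩
  let O : Fin k → Set R4 := fun i =>
    {x | ∃ y, sc D (f i) (y - gp e ζ) ≠ 0 ∧ ∀ l, |x l - y l| ≤ R'}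
  have c0 : ∀ i, 0 < Λ⁻¹ * (η i)⁻¹ := fun i => mul_pos (inv_pos.2 L0) (inv_pos.2 (η0 i))
  have cv := fun i => Cv.smul (tendsto_const_nhds (x := ((Λ⁻¹ * (η i)⁻¹ : ℝ) : ℂ)))
    (cv_yy (e := e) (O := O i) (q' i) (hA i) (hν i) ⟨((hf.1 i).1.comp_smul
      (inv_ne_zero D0.ne')).comp_homeomorph (.subRight _), (hf.1 i).2.comp (by fun_prop),
      fun y hy => (Metric.mem_closure_iff.1 hy _ R0).imp fun x u =>
        ⟨u.1, fun l => (PiLp.dist_apply_le y x l).trans u.2.le⟩⟩ fun y _ u v => ⟨y, u, v⟩)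
  have d : ∀ i j, i ≠ j → Disjoint (O i) (O j) := fun i j u => Set.disjoint_left.2 <| by
    rintro x ⟨y, h1, h2⟩ ⟨y', h3, h4⟩
    obtain ⟨l, hl⟩ := sc_sep T D0 u h1 h3
    linarith [abs_sub_le (y l) (x l) (y' l), abs_sub_comm (y l) (x l), h2 l, h4 l]
  have u : ∀ i, O i ⊆ cel 3⁻¹ := by
    rintro i x ⟨y, h1, h2⟩ l
    constructor <;> linarith [hz l, abs_le.1 (h2 l), sc_cube T D0 h1 l]
  have r := fun i p => (rc_yy (e := e) (ν := ν' i p) (q' i) (hc i p)).smul (Λ⁻¹ * (η i)⁻¹)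
  have a1 := qb_clu hF hL hS (by norm_num) cv d u r H (hw.trans (mul_le_of_le_one_left ρ0.le ε1))
  have a2 := qb_con hF hL hS (by norm_num) cv d u r H ρ0 hw ε1
  have m := fun i => (cv i).mem.1
  simp only [← tau_yy (q _)] at a1 a2 m
  simp only [fun i => ctr_tau hS (by exact_mod_cast (c0 i).ne') (m i), prod_smul, ← map_prod,
    ← Complex.ofReal_prod] at a1 a2
  have c1 := prod_pos fun i (_ : i ∈ univ) => c0 i
  rw [ctr_tau hS (by exact_mod_cast c1.ne') a1.1] at a2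
  have z : 2 * 3⁻¹ + ‖gp e ζ‖ ≤ 2 := by
    have := dist_le_two (y := gp e ζ) (z := 0) (w := 3⁻¹) fun l => by
      rw [PiLp.zero_apply, sub_zero, abs_le]
      constructor <;> linarith [hz l]
    rw [dist_zero_right] at this
    linarith
  refine ⟨qb_back hS c1 a1 z (le_of_eq ?_), qb_back hS c1 a2 z (le_of_eq ?_)⟩ <;>
    simp only [prod_mul_distrib, mul_inv, prod_inv_distrib, inv_inv, prod_const, card_univ,
      Fintype.card_fin, inv_pow] <;> ring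

end Pool.Agent.Lib.MP_7f377f_mp.Ob

namespace Pool.Agent.Lib.MP_7f377f_mp.RG.Q4.En.Gl

open Filter Topology Real YM7 Pur Ob Finset
open Ope (sc gp)

theorem Ok.rg_clu {G : Gl} {b a a' C s r t X : ℝ} {J j k l m u n' c ρ : ℕ} [NeZero (G.N J)]
    [NeZero n'] [NeZero m] {P : Grd} {κ κ' : Type} [Fintype κ] [DecidableEq κ] [Inhabited κ]
    [Fintype κ'] [DecidableEq κ'] (h : G.Ok) (tu : G.Tu b J) (hp : G.Pu)
    (K : G.Gk J k n' P κ a c C) (B : G.Gb J k l P a c a' ρ) (hj : j ≤ l) (hn : G.N j = m * u)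
    (m1 : 1 < m) (s0 : 0 < s) (s1 : s * 3 ^ G.e J = 1) (hw : s * (G.rt J j * u : ℕ) = 3⁻¹)
    (hL : 1000 * 3 ^ Fintype.card κ' ≤ G.L j) (ht : s ≤ t) (hρ : s * ρ ≤ t) (hr : r + 2 * t ≤ 12⁻¹)
    (hd : s * (G.dl J l + 2 * ρ : ℕ) ≤ 6⁻¹) (hX : X + 1 ≤ G.L l)
    (hR : r + 2 * t ≤ X * G.L l ^ (G.K0 + 1) * (G.rt J l * s)) : ∃ μ : ℕ, s * μ ≤ 6⁻¹ - r ∧
    Ob.Rg (Fi.tr haar) b (G.rt J j * u) (G.Lcl b J k l n' P κ a c C (κ' := κ') (G.rt J j * u) μ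
      (G.dl J l + 2 * ρ) a') (2 ^ (l - j) * G.sg l)⁻¹ (G.sg l)⁻¹
      (cJ / G.g j * u ^ 4 + G.cz j u (Fintype.card κ')) (exp (G.cz j u (Fintype.card κ'))) := by
  have hl := (B.lt.trans K.lt).le
  have m0 : 0 ≤ s * ρ := by positivity
  have h1 := (le_div_iff₀' s0).1 (Nat.floor_le (div_nonneg (a := 6⁻¹ - r) (by linarith) s0.le))
  have h2 := (div_lt_iff₀' s0).1 (Nat.lt_floor_add_one ((6⁻¹ - r) / s))
  refine ⟨_, h1, h.rg_cls tu hp K B hj hn m1 s0 le_rfl ?_ (δ := 6⁻¹ - r - 2 * t) (by linarith)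
    (by linarith) fun F hF hs => h.geo_arr (by rw [← h.rt_N (hj.trans hl), hn, mul_left_comm]) s0 hF
      hl hj s1 (by linarith) hL hX (by rw [hw]; linarith) hs fun y => ?_⟩
  · have : s * (G.dl J l + 2 * ρ : ℕ) ≤ s * (2 * ⌊(6⁻¹ - r) / s⌋₊ : ℕ) := by
      push_cast at hd ⊢
      linarith
    exact_mod_cast le_of_mul_le_mul_left this s0
  · exact (card_le_card_of_injOn (t := univ) Prod.snd (fun _ _ => mem_univ _) fun p a q b =>
      Prod.ext ((mem_filter.1 a).2.trans (mem_filter.1 b).2.symm)).trans_eq card_univ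

namespace Lm

variable {G : Gl} {β : ℕ × ℕ → ℝ} {U : Ultrafilter (ℕ × ℕ)} {S : Pol →ₗ[ℂ] ℂ} (o : G.Lm β U S)
include o

theorem clu {j : ℕ} {f : Fin j → R4 → ℝ} (hf : Adm f) : ∃ K, 0 < K ∧ ∀ P : ℕ → Prop,
    (∀ᶠ l in atTop, P l) → ∀ᶠ D in 𝓝[>] (0 : ℝ), ∃ l, P l ∧ 1 ≤ D * 3 ^ G.e l ∧
      D * 3 ^ G.e l ≤ G.Q l ∧ ∀ w d k, G.Mrg k w d → l < k → G.Q k ^ 2 * d ≤ D → ∀ᶠ e in atTop,
        ∀ (A : Fin j → Pol) (ν η : Fin j → ℝ), (∀ i, G.Slt k l w d e β U (A i) (ν i) (η i)) →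
          net.QB S (∏ i, Ope.ctr S (yy e (A i) (ν i) (sc D (f i)))) 2 (K * ∏ i, η i / G.sg l) ∧
          net.QB S (Ope.ctr S (∏ i, Ope.ctr S (yy e (A i) (ν i) (sc D (f i))))) 2
            (K * (2 ^ l)⁻¹ * ∏ i, η i / G.sg l) := by
  obtain ⟨Λ, δ, T⟩ := hf.tf
  obtain ⟨Φ, τ, S₀, hΦ, hF, hL⟩ := o.lim
  have h := (o.ok 0).1
  have : (Fi.tr haar).IsHaarMeasure := (inferInstance : haar.IsHaarMeasure)
  obtain ⟨j0, j1, j2⟩ : ∃ j0, 1 ≤ G.e j0 ∧ 1000 * 3 ^ Fintype.card (Fin j) ≤ G.L j0 :=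
    ((h.sch.mono.tendsto_atTop.eventually_ge_atTop 1).and (h.L_nat.eventually_ge_atTop _)).exists
  have L1 := T.one
  have δ0 := T.pos
  obtain ⟨X, hX⟩ : ∃ X, X = 132 * 3 ^ (G.K0 + 1) / δ + 1 := ⟨_, rfl⟩
  have X1 : 1 ≤ X := hX ▸ le_add_of_nonneg_left (by positivity)
  obtain ⟨u, hu⟩ : ∃ u, u = 3 ^ (G.e j0 - 1) := ⟨_, rfl⟩
  obtain ⟨c, hc⟩ : ∃ c, c = G.cz j0 u (Fintype.card (Fin j)) := ⟨_, rfl⟩
  have K0 : 0 < cB j (cJ / G.g j0 * u ^ 4 + c) (exp c) * Λ ^ j := by unfold cB; positivity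
  refine ⟨_ * 2 ^ j0, mul_pos K0 (by positivity), fun P hP => ?_⟩
  filter_upwards [h.ex_jm (A := X) (by linarith) (hP.and ((eventually_gt_atTop j0).and
    (h.ev_L ((Λ + 3) * X + 1 + 4 / δ)))), Ioc_mem_nhdsGT
    (show 0 < (12 * (Λ + 3) + 6 * δ)⁻¹ by positivity)] with D ⟨D0, l, ⟨l0, l1, l2⟩, e1, e2⟩ ⟨_, D1⟩
  rw [inv_eq_one_div, le_div_iff₀ (by positivity)] at D1
  change _ ≤ (G.L l : ℝ) at l2
  change X * G.L l ^ G.K0 ≤ D * 3 ^ G.e l at e1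
  change D * 3 ^ G.e l ≤ X * G.L l ^ (G.K0 + 1) at e2
  have d1 := mul_pos δ0 D0
  have d2 := le_mul_of_one_le_left D0.le L1
  have d3 : 0 < 4 / δ := by positivity
  have d4 := mul_le_mul_of_nonneg_right (show 1 ≤ Λ + 3 by linarith) (zero_le_one.trans X1)
  have a : (1 : ℝ) ≤ G.L l := by linarith
  have y := one_le_mul_of_one_le_of_one_le X1 (one_le_pow₀ (n := G.K0) a)
  refine ⟨l, l0, y.trans e1, e2.trans ((mul_le_mul_of_nonneg_right (show X ≤ G.L l by linarith)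
    (by positivity)).trans ((pow_succ' _ _).ge.trans (pow_le_pow_right₀ a
      (by have : 120 * (G.K0 + 1) ≤ G.K := h.K0_le; omega)))),
    fun w d k ⟨d0, _, _, m1, ⟨m2, m3⟩, m4⟩ lk hd => ?_⟩
  have k1 : (G.L l : ℝ) ≤ G.Q k := (Nat.cast_le.2 (h.L_mono lk.le)).trans (h.LQ k)
  have k2 : 0 < G.Q k * d := mul_pos (h.Q0 k) d0
  have k3 : 4 * (G.Q k * d) < δ * D := by
    have : 4 < δ * G.Q k := (div_lt_iff₀' δ0).1 (by linarith)
    nlinarith [mul_lt_mul_of_pos_right this k2, mul_le_mul_of_nonneg_left hd δ0.le]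
  have k4 : G.Q k * d ≤ D := by nlinarith [mul_le_mul_of_nonneg_right (a.trans k1) k2.le]
  have k5 := mul_le_mul_of_nonneg_right m3 d0.le
  have k6 := mul_le_mul_of_nonneg_right m2 d0.le
  filter_upwards [eventually_ge_atTop (G.e k), (tendsto_inv_atTop_zero.comp
    (tendsto_pow_atTop_atTop_of_one_lt (show (1 : ℝ) < 3 by norm_num))).eventually_le_const D0]
    with e ek eD A ν η hs
  choose η0 A' ν' hA hr hν hD using hs
  change (3 ^ e : ℝ)⁻¹ ≤ D at eD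
  have hz : ∀ i, 6⁻¹ - D ≤ gp e (fun _ => ⌊(3 ^ e / 6 : ℝ)⌋) i ∧
      gp e (fun _ => ⌊(3 ^ e / 6 : ℝ)⌋) i ≤ 6⁻¹ := fun _ => by
    have p : (0 : ℝ) < (3 ^ e)⁻¹ := by positivity
    have h1 := mul_le_mul_of_nonneg_left (Int.floor_le (3 ^ e / 6 : ℝ)) p.le
    have h2 := mul_lt_mul_of_pos_left (Int.lt_floor_add_one (3 ^ e / 6 : ℝ)) p
    rw [div_eq_mul_inv, inv_mul_cancel_left₀ (by positivity)] at h1 h2
    exact ⟨by change _ ≤ _ * _; rw [div_eq_mul_inv]; linarith, by rwa [← div_eq_mul_inv _ 6] at h1⟩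
  have s0 : 0 < G.sg l := h.sg_pos l
  have H := qb_two hF hL o.st hf T D0 (by linarith) (by linarith) (e := e)
    (fun i => ⟨by linarith [hz i], by linarith [hz i]⟩) hA hr hν η0 (ω := (2 ^ (l - j0) * G.sg l)⁻¹)
    (C := cJ / G.g j0 * u ^ 4 + c) (M := exp c) ?_ (inv_pos.2 s0) (mul_inv _ _).le
    (inv_le_one_of_one_le₀ (one_le_pow₀ one_le_two))
  · refine ⟨H.1.mono o.st le_rfl (mul_le_mul_of_nonneg_right (le_mul_of_one_le_right K0.le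
      (one_le_pow₀ one_le_two)) (prod_nonneg fun i _ => (div_pos (η0 i) s0).le)), ?_⟩
    rw [pow_sub₀ _ two_ne_zero l1.le, mul_inv_rev, inv_inv, ← mul_assoc] at H
    exact H.2
  filter_upwards [hL.le.trans hΦ (m4 e ek), eventually_all.2 hD] with p p1 p2
  obtain ⟨Pg, M⟩ := p1 _ (o.tu p)
  obtain ⟨o', pu⟩ := o.ok p.1
  have hl : l ≤ p.2 := (lk.trans M.gk.lt).le
  have a0 := G.aa_pos p
  have a1 : G.aa p * 3 ^ (G.wm p.1).e p.2 = 1 := inv_mul_cancel₀ (by positivity)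
  have hn : (G.wm p.1).N j0 = (2 * p.1 + 1) * 3 * u := by
    rw [hu, mul_assoc, ← pow_succ', Nat.sub_add_cancel j1]; rfl
  have a2 : 1 ≤ G.aa p * G.nn p := by
    rw [aa_nn]
    exact le_add_of_nonneg_left (by positivity)
  have a3 : G.aa p * ((G.wm p.1).rt p.2 j0 * u : ℕ) = 3⁻¹ := by
    have := G.aa_nn p
    rw [nn, ← o'.rt_N (l1.le.trans hl), hn, mul_left_comm] at this
    push_cast at this ⊢
    exact eq_inv_of_mul_eq_one_left (mul_left_cancel₀ (by positivity : (2 * p.1 + 1 : ℝ) ≠ 0)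
      (by linear_combination this))
  have a4 : G.aa p * Pg.s = (3 ^ e)⁻¹ := by
    rw [M.hs, aa, Nat.cast_pow, Nat.cast_ofNat, pow_sub₀ _ three_ne_zero M.he,
      inv_mul_cancel_left₀ (by positivity)]
  have a5 : G.aa p ≤ D := (le_mul_of_one_le_right a0.le (by
    rw [M.hs]; exact_mod_cast Nat.one_le_pow _ _ three_pos)).trans (a4.trans_le eD)
  have x1 : G.rt p.2 l * G.aa p * 3 ^ G.e l = 1 := o'.rt_a hl a1
  have x0 := (mul_pos (Ok.rt_pos (G := G) p.2 l) a0).le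
  have x7 : D * 3 ^ G.e l * (G.rt p.2 l * G.aa p) = D := by linear_combination D * x1
  have x2 := (mul_le_mul_of_nonneg_right e1 x0).trans_eq x7
  have x3 := x7.ge.trans (mul_le_mul_of_nonneg_right e2 x0)
  have x4 := M.rad
  obtain ⟨ρ, hρ⟩ : ∃ ρ, ρ = G.rt p.2 k * (Pg.j * (G.p k).D + 1) + Pg.R + 1 := ⟨_, rfl⟩
  rw [← hρ] at x4
  have x5 : G.aa p * (G.dl p.2 l + 2 * ρ : ℕ) ≤ δ * D := by
    have h1 := mul_le_mul_of_nonneg_left x2 δ0.le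
    have h2 : 0 ≤ δ * (G.L l ^ G.K0 * (G.rt p.2 l * G.aa p)) := by positivity
    rw [hX, mul_assoc, ← mul_assoc δ, mul_add, mul_div_cancel₀ _ δ0.ne'] at h1
    rw [dl]
    push_cast
    linarith
  have x6 := mul_le_mul_of_nonneg_left x3 (show 0 ≤ Λ + 3 by linarith)
  rw [← mul_assoc, ← mul_assoc _ X] at x6
  obtain ⟨μ, hμ, R⟩ := o'.rg_clu (κ' := Fin j) (a' := D⁻¹ * G.aa p) (ρ := ρ) (r := (Λ + 1) * D)
    (X := (Λ + 3) * X) (o.tu p) pu M.gk ⟨lk, by omega, by positivity,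
      (mul_le_mul_of_nonneg_right (inv_anti₀ (by positivity) (by linarith)) a0.le).trans_eq
        (div_eq_inv_mul _ _).symm, by
      rw [mul_left_comm, inv_mul_le_one₀ D0]
      exact (le_mul_of_one_le_left x0 y).trans x2, m1, hρ.ge⟩ l1.le hn (by omega) a0 a1 a3 j2 a5
    (x4.trans k4) (by linarith) (x5.trans (by linarith)) (le_trans (by linarith) l2)
    (le_trans (by linarith) x6)
  exact ⟨_, _, _, a3, hc ▸ R, ⟨_, _, _, pc_xp T a0 D0 (z := gp e fun _ => ⌊(3 ^ e / 6 : ℝ)⌋)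
    (fun i => ⟨by linarith [hz i], by linarith [hz i]⟩) x5 (lt_of_lt_of_le (by linarith) a2),
    fun i => ⟨p2 i Pg M, rfl⟩⟩, fun i => ltr_slot (R := 6⁻¹ + Λ * D) (fun y hy i => abs_le.2
      ⟨by linarith [hz i, sc_cube T D0 hy i], by linarith [hz i, sc_cube T D0 hy i]⟩)
    ((hA i).mem.2 p) M.gk.hn a0 (by linarith) a4 (lt_of_lt_of_le (by linarith) a2)⟩

end Lm

end Pool.Agent.Lib.MP_7f377f_mp.RG.Q4.En.Gl
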