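import Pool.Agent.Lib.MP_7f377f_mp.G.TyS1
import Pool.Agent.Lib.MP_7f377f_mp.G.TyS2

/-! Smeared words: symmetries and the passage from polynomials to the lattice. -/
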