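import Pool.Agent.Lib.MP_7f377f_mp.G.TyQ
import Pool.Agent.Lib.MP_7f377f_mp.G.TyS

/-! Smeared words: admissible slots in the continuum limit. -/

noncomputable section

set_option linter.unusedSectionVars false
variable [Pool.Agent.Lib.MP_7f377f_mp.GD]

namespace Pool.Agent.Lib.MP_7f377f_mp.Ob

open MeasureTheory Weak Filter Topology YM7 Pur
open RG.Q4.En.Ty (Gn sb Ty)

variable {n n' s m : ℕ} [NeZero n] [NeZero n'] [MeasurableSpace SU2] [BorelSpace SU2]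
  {h : Measure SU2} [h.IsHaarMeasure] [IsProbabilityMeasure h] {a b Λ δ d W W' : ℝ} {A A' : Pol}
  {T : Ty}

theorem evr_lin (x y : ℝ) (U : Cfg n) :
    evr h b n a ((x : ℂ) • A + (y : ℂ) • A') U = x * evr h b n a A U + y * evr h b n a A' U := by
  simp only [evr, map_add, map_smul, Pi.add_apply, Pi.smul_apply, smul_eq_mul, Complex.add_re,
    Complex.re_ofReal_mul]

theorem evr_cg (hn : Odd n) (g : Gn) (U : Cfg n) :
    evr h b n a A (cg g U) = evr h b n a (Ro.act (Cm.gi g) A) U := by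
  rw [evr, evr, evc_cg hn]

theorem evr_typ (hn : Odd n) (e : Cm.Typ T A) :
    ∀ g ∈ T, ∀ U, evr h b n a A (cg g.1 U) = sb g.2 * evr h b n a A U := fun g hg U => by
  rw [evr_cg hn, e g hg, evr, evr, map_smul, Pi.smul_apply, smul_eq_mul, ← Complex.ofReal_intCast,
    Complex.re_ofReal_mul]

theorem typ_lin (e : Cm.Typ T A) (e' : Cm.Typ T A') (x y : ℂ) : Cm.Typ T (x • A + y • A') :=
  fun g hg => by rw [map_add, map_smul, map_smul, e g hg, e' g hg, smul_add, smul_comm x, smul_comm y]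

theorem cont_sme : Continuous (smr n' s (evr h b n a A) 1) :=
  continuous_finsetSum _ fun _ _ => ((Complex.continuous_re.comp (cont_evc A)).comp
    (continuous_shift _)).const_mul _

theorem smr_lin (x y : ℝ) : smr n' s (evr h b n a ((x : ℂ) • A + (y : ℂ) • A')) 1 =
    fun U => x * smr n' s (evr h b n a A) 1 U + y * smr n' s (evr h b n a A') 1 U := by
  funext U
  simp only [smr, evr_lin, Pi.one_apply, one_mul, Finset.sum_add_distrib, Finset.mul_sum]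

theorem Wb.le (H : Wb m Λ δ d W A) (e : W ≤ W') : Wb m Λ δ d W' A :=
  let ⟨α, i, c, u, a1, a2, a3⟩ := H
  ⟨α, i, c, u, a1.trans e, a2, a3⟩

/-- mirror images of words are words -/
theorem Wb.fold (hn : Odd n) (L : List (Fin 4)) : ∀ {A}, Wb m Λ δ d W A → ∃ A', Wb m Λ δ d W A' ∧
    (fun U => evr h b n a A (L.foldr Weak.refl U)) = evr h b n a A' := by
  induction L with
  | nil => exact fun H => ⟨_, H, rfl⟩
  | cons l L ih =>
    intro A H
    obtain ⟨A', H', e⟩ := ih (H.act (.inr l))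
    exact ⟨A', H', e ▸ funext fun U => evr_cg hn (.inr l) _⟩

theorem ex_lim {ι : Type} (U : Ultrafilter ι) {f : ι → ℝ} {C : ℝ} (e : ∀ᶠ p in U, |f p| ≤ C) :
    ∃ c, Tendsto f U (𝓝 c) :=
  let ⟨c, _, hc⟩ := (isCompact_Icc (a := -C) (b := C)).ultrafilter_le_nhds (U.map f)
    (le_principal_iff.2 (e.mono fun _ => abs_le.1))
  ⟨c, hc⟩

end Pool.Agent.Lib.MP_7f377f_mp.Ob

namespace Pool.Agent.Lib.MP_7f377f_mp.RG.Q4.En.Gl.Lm

open Filter Topology Real YM7 Pur Ob Ty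

variable {G : Gl} {β : ℕ × ℕ → ℝ} {U : Ultrafilter (ℕ × ℕ)} {S : Pol →ₗ[ℂ] ℂ} {k l e m : ℕ} {w : Wp}
  {d η W c c' : ℝ} {A A' : Pol} {T : Ty} {E : List (Pl × Pl)} (o : G.Lm β U S)
include o

theorem mp_lin (p : ℕ × ℕ) (x : Pl × Pl) (y z : ℝ) :
    G.mp e β p x ((y : ℂ) • A + (z : ℂ) • A') = y * G.mp e β p x A + z * G.mp e β p x A' := by
  have : (Fi.tr haar).IsHaarMeasure := (inferInstance : haar.IsHaarMeasure)
  rw [mp, smr_lin]
  exact (o.ok p.1).1.ms_lin cont_sme cont_sme x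

theorem nw0 (m : ℕ) : 0 < G.nw k w m :=
  div_pos (mul_pos (pow_pos ((o.ok 0).1.Q0 k) _) ((o.ok 0).1.b0 k)) (pow_pos ((o.ok 0).1.b0 k) _)

theorem ex_kp (hE : E.length ≤ 1) (hA : Rc A) (hA' : Rc A') :
    ∃ c c', |c| + |c'| = 1 ∧ G.Kp e β U E A A' c c' := by
  choose γ h1 h2 using fun p => exists_ker (n := 1) E hE
    fun x => ![G.mp e β p x A, G.mp e β p x A']
  replace h1 : ∀ p, |γ p 0| + |γ p 1| = 1 := fun p => (Fin.sum_univ_two _).symm.trans (h1 p)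
  replace h2 : ∀ p, ∀ x ∈ E, γ p 0 * G.mp e β p x A + γ p 1 * G.mp e β p x A' = 0 :=
    fun p x hx => (Fin.sum_univ_two fun s => γ p s * ![G.mp e β p x A, G.mp e β p x A'] s).symm.trans
      (h2 p x hx)
  obtain ⟨c, hc⟩ := ex_lim U (f := fun p => γ p 0) (C := 1)
    (.of_forall fun p => by linarith [h1 p, abs_nonneg (γ p 1)])
  obtain ⟨c', hc'⟩ := ex_lim U (f := fun p => γ p 1) (C := 1)
    (.of_forall fun p => by linarith [h1 p, abs_nonneg (γ p 0)])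
  exact ⟨c, c', tendsto_nhds_unique (hc.abs.add hc'.abs) (tendsto_const_nhds.congr fun p => (h1 p).symm),
    _, _, hc, hc', fun p => ⟨(h1 p).le, fun x hx => (o.mp_lin p x _ _).trans (h2 p x hx)⟩⟩

theorem slt_fld : G.Slt k l w d e β U 0 1 1 :=
  ⟨one_pos, fun _ => 0, fun _ => 1, .base (zero_mem _), fun _ => map_zero _, tendsto_const_nhds,
    .of_forall fun p P _ => by
      simpa only [evr, map_zero, Pi.zero_apply, Complex.zero_re, mul_zero, inv_one, mul_one] using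
        Ok.ds_fld (ν := 1) (abs_one.le)⟩

omit o in
theorem inv_le {x y z η : ℝ} (η0 : 0 < η) (e : x * y * z ≤ η) : |η⁻¹| * x * y * z ≤ 1 := by
  rw [abs_of_pos (inv_pos.2 η0), mul_assoc, mul_assoc, ← mul_assoc x]
  exact inv_mul_le_one_of_le₀ e η0.le

variable (M : G.Mrg k w d) (he : G.e k ≤ e) (m1 : 1 ≤ m) (m2 : m ≤ w.M + 1) (W0 : 0 < W)
  (H : Wb m w.Λ w.δ d (W * ((3 ^ e)⁻¹ / d) ^ 4) A)
include M he m1 m2 W0 H

theorem slt_gen (hη : 1.01 ^ (k - l) * (W * G.nw k w m) * G.Q k ^ 7 ≤ η) :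
    G.Slt k l w d e β U A 0 η := by
  have : (Fi.tr haar).IsHaarMeasure := (inferInstance : haar.IsHaarMeasure)
  have η0 : 0 < η := (mul_pos (mul_pos (by positivity) (mul_pos W0 (o.nw0 m)))
    (pow_pos ((o.ok 0).1.Q0 k) _)).trans_le hη
  refine ⟨η0, fun _ => A, fun _ => 0, .base (H.mem M.1).1, fun _ => (H.mem M.1).2,
    tendsto_const_nhds, .of_forall fun p P hP => ?_⟩
  rw [mul_zero]
  refine Ok.ds_gen (fun L => ?_) (inv_le η0 hη)
  obtain ⟨A', H', u⟩ := H.fold (h := Fi.tr haar) (b := β p) (a := G.aa p)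
    ((o.ok p.1).1.N_odd p.2) L
  exact u ▸ hP.rep m A' W m1 m2 W0 H'

theorem slt_kill (H' : Wb m w.Λ w.δ d (W * ((3 ^ e)⁻¹ / d) ^ 4) A') (hD : Det T E)
    (hT : ∀ i, ∃ χ, (.inr i, χ) ∈ T) (s : Cm.Typ T A) (s' : Cm.Typ T A')
    (z : G.Kp e β U E A A' c c') (hη : G.cP (l + 1) k * (W * G.nw k w m) * G.Q k ^ 7 ≤ η) :
    G.Slt k l w d e β U ((c : ℂ) • A + (c' : ℂ) • A') 0 η := by
  have : (Fi.tr haar).IsHaarMeasure := (inferInstance : haar.IsHaarMeasure)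
  have η0 : 0 < η := (mul_pos (mul_pos ((o.ok 0).1.cP0 _ _) (mul_pos W0 (o.nw0 m)))
    (pow_pos ((o.ok 0).1.Q0 k) _)).trans_le hη
  obtain ⟨γ, γ', t, t', z⟩ := z
  have d0 := M.1
  refine ⟨η0, fun p => (γ p : ℂ) • A + (γ' p : ℂ) • A', fun _ => 0,
    .add (.smul ((Complex.continuous_ofReal.tendsto _).comp t) (.base (H.mem d0).1))
      (.smul ((Complex.continuous_ofReal.tendsto _).comp t') (.base (H'.mem d0).1)),
    fun _ => ((H.mem d0).2.smul _).add ((H'.mem d0).2.smul _), tendsto_const_nhds,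
    .of_forall fun p P hP => ?_⟩
  rw [mul_zero]
  refine (o.ok p.1).1.ds_kill (o.tu p) (o.ok p.1).2 hP.gk (hP.rep m _ W m1 m2 W0
    (((H.smul _).add (H'.smul _)).le ?_)) hD hT
    (evr_typ ((o.ok p.1).1.N_odd p.2) (typ_lin s s' _ _)) (fun x hx => ?_) (inv_le η0 hη)
  · rw [← add_mul]
    exact mul_le_of_le_one_left (by positivity) (z p).1
  · rw [hP.hs]
    exact (z p).2 x hx

theorem slt_sca (s : Cm.Typ T1 A) (hη : G.cP (l + 1) k * (31 * (W * G.nw k w m)) * G.Q k ^ 7 ≤ η) :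
    G.Slt k l w d e β U A (G.cs e β U A) η := by
  have : (Fi.tr haar).IsHaarMeasure := (inferInstance : haar.IsHaarMeasure)
  have η0 : 0 < η := (mul_pos (mul_pos ((o.ok 0).1.cP0 _ _) (mul_pos (by norm_num)
    (mul_pos W0 (o.nw0 m)))) (pow_pos ((o.ok 0).1.Q0 k) _)).trans_le hη
  have key := fun p P (hP : G.Mp k w d e p (β p) P) =>
    (o.ok p.1).1.ds_sca (l := l) (μ := η⁻¹) (ν := -G.mp e β p ((0, 1), (0, 1)) A /
      (G.wm p.1).ms (β p) p.2 ((0, 1), (0, 1)) (gfield (sy 1))) (o.tu p) (o.ok p.1).2 hP.gk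
      (hP.rep m A W m1 m2 W0 H) (evr_typ ((o.ok p.1).1.N_odd p.2) s) (by
        rw [div_mul_cancel₀ _ ((o.ok p.1).1.ms_ne (o.tu p) (o.ok p.1).2
          ((Nat.zero_le _).trans_lt hP.gk.lt)), hP.hs]
        exact add_neg_cancel _)
  obtain ⟨Φ, τ, S₀, h1, -, h2⟩ := o.lim
  refine ⟨η0, fun _ => A, _, .base (H.mem M.1).1, fun _ => (H.mem M.1).2,
    tendsto_nhds_limUnder (ex_lim U (C := 3 * (W * G.nw k w m)) ?_),
    .of_forall fun p P hP => (key p P hP).2 (inv_le η0 hη)⟩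
  filter_upwards [(h2.le.trans h1) (M.2.2.2.2.2 e he)] with p hp
  obtain ⟨P, hP⟩ := hp _ (o.tu p)
  exact (key p P hP).1

end Pool.Agent.Lib.MP_7f377f_mp.RG.Q4.En.Gl.Lm
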