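import Pool.Agent.Lib.MP_7f377f_mp.G.TyR
import Pool.Agent.Lib.MP_7f377f_mp.G.TyL
import Pool.Agent.Lib.MP_7f377f_mp.G.TyU0

/-! Smeared words: one slot in each cell. -/

noncomputable section

set_option linter.unusedSectionVars false
variable [Pool.Agent.Lib.MP_7f377f_mp.GD]

namespace Pool.Agent.Lib.MP_7f377f_mp.RG.Q4.En.Gl

open Filter Topology Real YM7 Pur Ob

/-- the level `l` fits to cells of side `3 ^ -e₀` with margin `3 ^ -(e₀ + s)` -/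
def Lfit (G : Gl) (s e₀ l : ℕ) : Prop := 0 < l ∧ 0 < e₀ ∧ e₀ + s ≤ G.e l ∧
  2 * (66 * 3 ^ (G.K0 + 1) * G.L l ^ G.K0) ≤ 3 ^ (G.e l - (e₀ + s)) ∧
  3 ^ (G.e l - e₀) ≤ G.L l ^ (G.K0 + 2) ∧ (3000 : ℝ) ≤ G.L l ∧ (2 * 3 ^ s : ℝ) ≤ G.L l ∧
  cJ + 1 ≤ G.L l

/-- the exponent in the chessboard estimate -/
def cC (G : Gl) (e₀ l : ℕ) : ℝ := cJ / G.g l * (3 ^ (G.e l - e₀) : ℕ) ^ 4 +
  G.cz l (3 ^ (G.e l - e₀)) (Fintype.card Unit)

namespace Ok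

variable {G : Gl} {a b C d : ℝ} {J k l s e₀ n' c q : ℕ} (h : G.Ok)
include h

theorem ex_lw (s : ℕ) {P : ℕ → Prop} (hP : ∀ᶠ l in atTop, P l) :
    ∀ᶠ e₀ : ℕ in atTop, ∃ l, P l ∧ G.Lfit s e₀ l := by
  have t : Tendsto (fun e : ℕ => ((3 : ℝ) ^ e)⁻¹) atTop (𝓝[>] 0) :=
    tendsto_inv_atTop_nhdsGT_zero.comp (tendsto_pow_atTop_atTop_of_one_lt (by norm_num))
  obtain ⟨A, hA⟩ : ∃ A : ℝ, A = 132 * 3 ^ (G.K0 + 1) := ⟨_, rfl⟩
  have A1 : 132 ≤ A := hA ▸ le_mul_of_one_le_right (by norm_num) (one_le_pow₀ (by norm_num))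
  have s0 : (0 : ℝ) < 3 ^ s := by positivity
  filter_upwards [t.eventually (h.ex_jm (A := A * 3 ^ s) (by positivity) (hP.and
    ((eventually_gt_atTop 0).and ((h.ev_L (A * 3 ^ s)).and ((h.ev_L 3000).and (h.ev_L (cJ + 1))))))),
    eventually_gt_atTop 0] with e ⟨_, l, ⟨p1, p2, p3, p4, p5⟩, e1, e2⟩ e0
  have y : 1 ≤ (G.L l : ℝ) ^ G.K0 := one_le_pow₀ (by linarith)
  have j1 : e + s ≤ G.e l := by
    have : (3 : ℝ) ^ s ≤ (3 ^ e)⁻¹ * 3 ^ G.e l := le_trans ((le_mul_of_one_le_left s0.le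
      (by linarith)).trans (le_mul_of_one_le_right (by positivity) y)) e1
    rw [le_inv_mul_iff₀ (by positivity), ← pow_add] at this
    exact (pow_le_pow_iff_right₀ (by norm_num)).1 this
  rw [inv_mul_eq_div, div_eq_mul_inv, ← pow_sub₀ _ three_ne_zero (le_self_add.trans j1)] at e1 e2
  refine ⟨l, p1, p2, e0, j1, ?_, ?_, p4, le_trans (by nlinarith) p3, p5⟩
  · rw [show G.e l - e = G.e l - (e + s) + s by omega, pow_add, mul_right_comm] at e1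
    have := le_of_mul_le_mul_right e1 s0
    have : (2 * (66 * 3 ^ (G.K0 + 1) * G.L l ^ G.K0) : ℝ) ≤ 3 ^ (G.e l - (e + s)) :=
      le_of_eq_of_le (by rw [hA]; ring) this
    exact_mod_cast this
  · have := e2.trans (mul_le_mul_of_nonneg_right p3 (by positivity))
    rw [← pow_succ'] at this
    exact_mod_cast this

theorem lw_Q (v : G.Lfit s e₀ l) :
    1 ≤ (3 ^ e₀)⁻¹ * (3 : ℝ) ^ G.e l ∧ (3 ^ e₀)⁻¹ * 3 ^ G.e l ≤ G.Q l := by
  rw [inv_mul_eq_div, div_eq_mul_inv, ← pow_sub₀ _ three_ne_zero (le_self_add.trans v.2.2.1)]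
  refine ⟨one_le_pow₀ (by norm_num), le_trans (by exact_mod_cast v.2.2.2.2.1)
    (pow_le_pow_right₀ (by linarith [h.L1 l]) (show G.K0 + 2 ≤ G.K by have := h.K0_le; omega))⟩

theorem lw_d (v : G.Lfit s e₀ l) (lk : l < k) (d0 : 0 < d) (hd : G.Q k ^ 2 * d ≤ (3 ^ e₀)⁻¹) :
    2 * (G.Q k * d) ≤ (3 ^ (e₀ + s))⁻¹ := by
  have a : (2 * 3 ^ s : ℝ) ≤ G.Q k :=
    v.2.2.2.2.2.2.1.trans ((Nat.cast_le.2 (h.L_mono lk.le)).trans (h.LQ k))
  rw [pow_add, mul_inv, ← div_eq_mul_inv, le_div_iff₀ (by positivity)]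
  nlinarith [mul_le_mul_of_nonneg_right a (mul_pos (h.Q0 k) d0).le]

theorem cC_le (v : G.Lfit s e₀ l) : 0 ≤ G.cC e₀ l ∧ G.cC e₀ l ≤ 2 * e₀ := by
  obtain ⟨-, -, v1, -, v2, v3, -, v4⟩ := v
  have c0 := cJ_nn
  have K := h.K0_le
  have Q1 := h.Q1 l
  have L1 : (1 : ℝ) ≤ G.L l := by linarith
  obtain ⟨u, hu⟩ : ∃ u, u = 3 ^ (G.e l - e₀) := ⟨_, rfl⟩
  rw [cC, cz, g, div_inv_eq_mul, ← hu]
  refine ⟨by positivity, ?_⟩
  have u1 : (u : ℝ) ≤ G.L l ^ (G.K0 + 2) := by exact_mod_cast hu ▸ v2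
  have y : 1 ≤ (G.L l : ℝ) ^ G.K0 := one_le_pow₀ L1
  have u2 : 2 * (u + 4 * (G.L l : ℝ) ^ G.K0) + 1 ≤ G.L l ^ (G.K0 + 3) := by
    have z : 2 * (G.L l : ℝ) ^ 2 + 9 ≤ G.L l ^ 3 := by nlinarith [sq_nonneg (G.L l : ℝ)]
    rw [pow_add] at u1 ⊢
    nlinarith [mul_le_mul_of_nonneg_left z (zero_le_one.trans y)]
  have u3 : (2 * (u + 4 * (G.L l : ℝ) ^ G.K0) + 1) ^ 4 ≤ G.Q l :=
    (pow_le_pow_left₀ (by positivity) u2 4).trans
      ((pow_mul _ _ _).ge.trans (pow_le_pow_right₀ L1 (by omega)))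
  have u4 : (u : ℝ) ^ 4 ≤ G.Q l := (pow_le_pow_left₀ u.cast_nonneg
    (by linarith [u.cast_nonneg (α := ℝ)]) 4).trans u3
  have b1 : G.Q l ^ 2 ≤ √(G.bb l) := le_sqrt_of_sq_le
    ((pow_mul _ _ _).ge.trans ((pow_le_pow_right₀ Q1 (by norm_num)).trans (h.Qb l)))
  have b2 := mul_self_sqrt (h.b0 l).le
  have b3 := (h.sch.cmp l).2
  have b4 : cJ + 1 ≤ G.Q l := v4.trans (h.LQ l)
  have b5 : (u : ℝ) ≤ G.e l := (le_self_pow₀ (by exact_mod_cast hu ▸ Nat.one_le_pow _ _ three_pos)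
    four_ne_zero).trans (u4.trans ((le_self_pow₀ Q1 (by norm_num)).trans ((h.Qb l).trans b3)))
  have b6 : (G.e l : ℝ) ≤ 2 * e₀ := by
    have := Nat.cast_le.1 b5
    have e : ∀ x : ℕ, 2 * x ≤ 3 ^ x := fun x => by
      induction x with
      | zero => simp
      | succ x ih => have := Nat.one_le_pow x 3 three_pos; rw [pow_succ]; omega
    have := e (G.e l - e₀)
    exact_mod_cast (by omega : G.e l ≤ 2 * e₀)
  push_cast [Fintype.card_unit]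
  generalize √(G.bb l) = r at *
  have r1 : 1 ≤ r := (one_le_pow₀ Q1).trans b1
  have a1 := mul_le_mul_of_nonneg_left u4 (mul_nonneg c0 (zero_le_one.trans r1))
  have a2 := mul_le_mul_of_nonneg_right b4 (mul_nonneg (zero_le_one.trans r1) (h.Q0 l).le)
  have a3 := mul_le_mul_of_nonneg_left b1 (zero_le_one.trans r1)
  have a4 := mul_le_mul_of_nonneg_right r1 (h.Q0 l).le
  nlinarith

theorem a_rtq (hl : l ≤ J) (a1 : a * 3 ^ G.e J = 1) (hq : q ≤ G.e l) :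
    a * (G.rt J l * 3 ^ (G.e l - q) : ℕ) = (3 ^ q)⁻¹ := by
  refine eq_inv_of_mul_eq_one_left ?_
  rw [← h.rt_a hl a1, ← Nat.sub_add_cancel hq, pow_add, Nat.add_sub_cancel]
  push_cast
  ring

/-- one slot in each cell on the lattice -/
theorem rg_one [NeZero (G.N J)] [NeZero n'] {P : Grd} {κ : Type} [Fintype κ] [DecidableEq κ]
    [Inhabited κ] (t : G.Tu b J) (hp : G.Pu) (K : G.Gk J k n' P κ (a / (2 * d)) c C)
    (v : G.Lfit s e₀ l) (lk : l < k) (a0 : 0 < a) (a1 : a * 3 ^ G.e J = 1) (d0 : 0 < d)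
    (hd : G.Q k ^ 2 * d ≤ (3 ^ e₀)⁻¹) (big : 2 * c + 3 ≤ G.L k)
    (rad : a * (G.rt J k * (P.j * (G.p k).D + 1) + P.R + 1 : ℕ) ≤ G.Q k * d) :
    ∃ D, Ob.Rg (Fi.tr haar) b (G.rt J l * 3 ^ (G.e l - e₀)) (G.Lcl b J k l n' P κ (a / (2 * d)) c C
      (κ' := Unit) (G.rt J l * 3 ^ (G.e l - e₀)) (G.rt J l * 3 ^ (G.e l - (e₀ + s))) D a)
      (G.sg l)⁻¹ (G.sg l)⁻¹ (G.cC e₀ l) (exp (G.cz l (3 ^ (G.e l - e₀)) (Fintype.card Unit))) := by
  have hl := (lk.trans K.lt).le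
  have d1 := h.lw_d v lk d0 hd
  have m1 := h.a_rtq hl a1 v.2.2.1
  obtain ⟨v0, v1, v2, v3, v4, v5, -⟩ := v
  have m0 := h.odd.pos
  have : NeZero (G.m * 3 ^ e₀) := ⟨by positivity⟩
  have hn : G.N l = G.m * 3 ^ e₀ * 3 ^ (G.e l - e₀) := by
    rw [N, mul_assoc, ← pow_add, Nat.add_sub_cancel' (le_self_add.trans v2)]
  have hJ : G.N J = G.m * 3 ^ e₀ * (G.rt J l * 3 ^ (G.e l - e₀)) := by
    rw [mul_left_comm, ← hn, N, N, rt, mul_left_comm, ← pow_add,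
      Nat.sub_add_cancel (h.sch.mono.monotone hl)]
  obtain ⟨ρ, hρ⟩ : ∃ ρ, ρ = G.rt J k * (P.j * (G.p k).D + 1) + P.R + 1 := ⟨_, rfl⟩
  obtain ⟨μ, hμ⟩ : ∃ μ, μ = G.rt J l * 3 ^ (G.e l - (e₀ + s)) := ⟨_, rfl⟩
  rw [← hρ] at rad
  rw [← hμ] at m1 ⊢
  have r1 : 2 * (ρ : ℝ) ≤ μ := le_of_mul_le_mul_left (by linarith) a0
  have r2 : 2 * G.dl J l ≤ μ := by
    rw [hμ, dl]
    exact le_of_eq_of_le (by ring) (Nat.mul_le_mul_left (G.rt J l) v3)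
  have r3 : 2 * ρ ≤ μ := by exact_mod_cast r1
  have y1 : ((3 : ℝ) ^ (e₀ + s))⁻¹ ≤ 1 := inv_le_one_of_one_le₀ (one_le_pow₀ (by norm_num))
  have := h.rg_cls (κ' := Unit) (c' := 1) (s := a) (δ := a * μ / 2) (D := G.dl J l + 2 * ρ) (μ := μ)
    t hp K ⟨lk, v0, a0, (le_div_iff₀ (by positivity)).2 (mul_le_of_le_one_right a0.le
      (by nlinarith [h.Q1 k])), (le_mul_of_one_le_right (mul_pos (rt_pos _ _) a0).le
        (one_le_pow₀ (by norm_num))).trans_eq (h.rt_a hl a1), big, hρ.ge⟩ le_rfl hn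
    (lt_of_lt_of_le (Nat.one_lt_pow v1.ne' (by norm_num)) (Nat.le_mul_of_pos_left _ m0)) a0 le_rfl
    (by omega) (by positivity) (by nlinarith) fun F i _ => h.geo_one hJ a0 i hl (by positivity) (by
      have r4 : (2 * (66 * 3 ^ (G.K0 + 1) * (G.L l ^ G.K0 * G.rt J l)) : ℝ) ≤ μ := by
        exact_mod_cast r2
      have r5 := mul_le_mul_of_nonneg_right (one_le_pow₀ (n := G.K0 + 1) (show (1 : ℝ) ≤ 3 by
        norm_num)) (show (0 : ℝ) ≤ G.L l ^ G.K0 * G.rt J l by positivity)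
      have r6 : (0 : ℝ) ≤ G.L l ^ G.K0 * G.rt J l := by positivity
      nlinarith [mul_le_mul_of_nonneg_left (show 86 * (G.L l ^ G.K0 * G.rt J l : ℝ) ≤ μ by linarith)
        a0.le]) v5 v4 fun x y e => Prod.ext e rfl
  rw [Nat.sub_self, pow_zero, one_mul] at this
  exact ⟨_, this⟩

end Ok

namespace Lm

variable {G : Gl} {β : ℕ × ℕ → ℝ} {U : Ultrafilter (ℕ × ℕ)} {S : Pol →ₗ[ℂ] ℂ} (o : G.Lm β U S)
include o

theorem cen {f : R4 → ℝ} (hf : Adm ![f]) : S (MvPolynomial.X f) = 0 := by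
  have : (Fi.tr haar).IsHaarMeasure := (inferInstance : haar.IsHaarMeasure)
  obtain ⟨Φ, τ, S₀, -, hF, hL⟩ := o.lim
  refine tendsto_nhds_unique (Ob.Cv.lim hF hL (.base (PN.Gd.mem (O := Set.univ)
    ⟨(hf.1 0).1, (hf.1 0).2, Set.subset_univ _⟩))) (tendsto_const_nhds.congr fun p => ?_)
  simp only [evc_X, integral_complex_ofReal, YM7.cen]
  rw [MeasureTheory.integral_sub ((continuous_gfield _).integrable_of_hasCompactSupport
    (HasCompactSupport.of_compactSpace _)) (MeasureTheory.integrable_const _)]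
  simp

/-- letters in the cell at the origin -/
theorem rgm {s e₀ l k e : ℕ} {w : Wp} {d : ℝ} (v : G.Lfit s e₀ l) (M : G.Mrg k w d) (lk : l < k)
    (hd : G.Q k ^ 2 * d ≤ (3 ^ e₀)⁻¹) (he : G.e k ≤ e) {γ : Type} [Fintype γ] {A : γ → Pol}
    {ν η : γ → ℝ} {f : γ → R4 → ℝ} (H : ∀ i, G.Slt k l w d e β U (A i) (ν i) (η i))
    (hf : ∀ i, ContDiff ℝ 1 (f i) ∧ LipschitzWith 1 (f i) ∧ ∀ y, |f i y| ≤ 1 ∧ (f i y ≠ 0 → ∀ j,
      (3 ^ (e₀ + s))⁻¹ ≤ y j ∧ y j ≤ (3 ^ e₀)⁻¹ - (3 ^ (e₀ + s))⁻¹)) :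
    ∃ Y : γ → ℕ × ℕ → Pol, (∀ i, Ob.Cv U (Ob.cel (3 ^ e₀)⁻¹) (Y i) (yy e (A i) (ν i) (f i))) ∧
      (∀ i p, Rc (Y i p)) ∧ RgM (Fi.tr haar) G.nn G.aa β U (3 ^ e₀)⁻¹ Y η (G.sg l)⁻¹ (G.sg l)⁻¹
        (G.cC e₀ l) (exp (G.cz l (3 ^ (G.e l - e₀)) (Fintype.card Unit))) := by
  have : (Fi.tr haar).IsHaarMeasure := (inferInstance : haar.IsHaarMeasure)
  obtain ⟨Φ, τ, S₀, hΦ, hF, hL⟩ := o.lim
  obtain ⟨d0, -, -, big, ⟨Λ1, Λ2⟩, M⟩ := M
  choose η0 A' ν' c1 c2 c3 c4 using H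
  have d1 : 2 * (G.Q k * d) ≤ (3 ^ (e₀ + s))⁻¹ := (o.ok 0).1.lw_d v lk d0 hd
  have x1 : ((3 : ℝ) ^ e₀)⁻¹ ≤ 1 := inv_le_one_of_one_le₀ (one_le_pow₀ (by norm_num))
  have y0 : (0 : ℝ) < (3 ^ (e₀ + s))⁻¹ := by positivity
  have y1 : ((3 : ℝ) ^ (e₀ + s))⁻¹ ≤ 1 := inv_le_one_of_one_le₀ (one_le_pow₀ (by norm_num))
  have r0 : 0 ≤ 2 * w.Λ * d := by positivity
  have r1 := mul_le_mul_of_nonneg_right Λ2 d0.le
  have f1 : ∀ i y, f i y ≠ 0 → ∀ j, |y j| ≤ 1 := fun i y hy j => by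
    have := ((hf i).2.2 y).2 hy j
    rw [abs_le]
    constructor <;> linarith [this.1, this.2]
  refine ⟨fun i p => yy e (A' i p) (ν' i p) (f i), fun i => cv_yy (f1 i) (c1 i) (c3 i)
    ⟨cpt_box fun y => ((hf i).2.2 y).2, (hf i).1, fun y hy j => ?_⟩ fun y z hy hz j => ?_,
    fun i p => rc_yy (f1 i) (c2 i p), ?_⟩
  · have := closure_minimal (fun y hy => ((hf i).2.2 y).2 hy j) (isClosed_Icc.preimage
      (by fun_prop : Continuous fun y : R4 => y j)) hy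
    constructor <;> linarith [this.1, this.2]
  · have a1 := ((hf i).2.2 y).2 hy j
    have a2 := abs_le.1 (hz j)
    constructor <;> linarith [a1.1, a1.2, a2.1, a2.2]
  filter_upwards [(hL.le.trans hΦ) (M e he), eventually_all.2 c4, hL.le (hF.big 4)]
    with p hM hD (hb : _ < _)
  obtain ⟨P, m⟩ := hM _ (o.tu p)
  have h := (o.ok p.1).1
  have a0 := G.aa_pos p
  have a1 : G.aa p * 3 ^ G.e p.2 = 1 := inv_mul_cancel₀ (by positivity)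
  have hl := (lk.trans m.gk.lt).le
  obtain ⟨D, R⟩ := h.rg_one (o.tu p) (o.ok p.1).2 m.gk v lk a0 a1 d0 hd big m.rad
  have m1 := h.a_rtq hl a1 v.2.2.1
  have m2 := h.a_rtq hl a1 (le_self_add.trans v.2.2.1)
  refine ⟨_, _, m2, R, fun i => ⟨_, _, ⟨_, _, fun _ x => f i (xp (G.aa p) x), ⟨fun _ => ?_,
    fun _ x hx j => ?_, fun _ _ e => (e rfl).elim⟩, fun _ => ⟨hD i P m, rfl⟩⟩, fun V =>
      evr_yy (f1 i) ((c1 i).mem.2 p) m.gk.hn a0 r0 ?_ ?_ (η0 i).ne' V⟩⟩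
  · have := lqq_xp (n := G.nn p) (fun y => ((hf i).2.2 y).1) (hf i).2.1.dist_le_mul (f1 i) a0
      (by linarith)
    rwa [NNReal.coe_one, one_mul] at this
  · have := ((hf i).2.2 _).2 hx j
    exact mar_xp a0 (Nat.mul_pos (pow_pos three_pos _) (by positivity))
      (m1.trans_le this.1) (this.2.trans_eq (congrArg₂ _ m2 m1).symm)
  · refine eq_inv_of_mul_eq_one_left ?_
    rw [m.hs, ← a1, mul_assoc, Nat.cast_pow, Nat.cast_ofNat, ← pow_add, Nat.sub_add_cancel m.he]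
  · exact (show _ < G.aa p * G.nn p by linarith)

theorem cel (s : ℕ) : ∃ N : ℕ, ∀ P : ℕ → Prop, (∀ᶠ l in atTop, P l) → ∀ᶠ e₀ : ℕ in atTop,
    ∃ l K, P l ∧ 1 ≤ (3 ^ e₀)⁻¹ * (3 : ℝ) ^ G.e l ∧ (3 ^ e₀)⁻¹ * 3 ^ G.e l ≤ G.Q l ∧
      ∀ w d k, G.Mrg k w d → l < k → G.Q k ^ 2 * d ≤ (3 ^ e₀)⁻¹ → ∀ᶠ e in atTop,
        ∀ A ν η, G.Slt k l w d e β U A ν η → Ope.Mx S (yy e A ν) e₀ (3 ^ (e₀ + s))⁻¹ K η ∧
          (1 ≤ s → ∀ f, Cm.Mid (3 ^ e₀)⁻¹ f →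
            net.QB S (Ope.ctr S (yy e A ν f)) (2 * (3 ^ e₀)⁻¹) (3 ^ (N * e₀) * η)) := by
  have : (Fi.tr haar).IsHaarMeasure := (inferInstance : haar.IsHaarMeasure)
  have h := (o.ok 0).1
  obtain ⟨Φ, τ, S₀, -, hF, hL⟩ := o.lim
  refine ⟨1025, fun P hP => (h.ex_lw s hP).mono fun e₀ ⟨l, p, (v : G.Lfit s e₀ l)⟩ => ?_⟩
  obtain ⟨C0, C1⟩ : 0 ≤ G.cC e₀ l ∧ G.cC e₀ l ≤ 2 * e₀ := h.cC_le v
  have ω0 : 0 < (G.sg l)⁻¹ := inv_pos.2 (h.sg_pos l)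
  have ω1 : (G.sg l)⁻¹ ≤ 1 := inv_le_one_of_one_le₀ ((one_le_div (pow_pos (h.Q0 l) _)).2
    ((pow_le_pow_right₀ (h.Q1 l) (by norm_num)).trans (h.Qb l)))
  have x0 : (0 : ℝ) < (3 ^ e₀)⁻¹ := by positivity
  obtain ⟨Γ, hΓ⟩ : ∃ Γ, Γ = (1 + exp (256 * G.cC e₀ l)) * (G.sg l)⁻¹ := ⟨_, rfl⟩
  have Γ0 : 0 ≤ Γ := by rw [hΓ]; positivity
  refine ⟨l, 256 * G.cC e₀ l + Γ, p, (h.lw_Q v).1, (h.lw_Q v).2, fun w d k M lk hd => ?_⟩
  filter_upwards [eventually_ge_atTop (G.e k), eventually_ge_atTop e₀] with e he he' A ν η H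
  refine ⟨fun lo hi j c f T f1 c1 c2 f2 => ?_, fun s1 f hf => ?_⟩
  · have z : ∀ i, -(WithLp.toLp 2 fun l => (3 ^ e₀)⁻¹ * c i l : R4) =
        Ope.gp e fun l => -(3 ^ (e - e₀) * c i l) := fun i => by
      obtain ⟨q, rfl⟩ := Nat.exists_eq_add_of_le he'
      ext l
      simp only [Ope.gp, PiLp.neg_apply, Nat.add_sub_cancel_left, pow_add]
      push_cast
      field_simp
    obtain ⟨Y, y1, y2, y3⟩ := o.rgm v M lk hd he (A := fun i => if i ∈ T then A else 0)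
      (ν := fun i => if i ∈ T then ν else 1) (η := fun i => if i ∈ T then η else 1)
      (f := fun i y => f i (y - Ope.gp e fun l => -(3 ^ (e - e₀) * c i l)))
      (fun i => by split_ifs; exacts [H, o.slt_fld]) fun i => ⟨(f1.1 i).2.comp (by fun_prop),
        .of_dist_le_mul fun x y => ((f2 i).1.dist_le_mul _ _).trans_eq (by rw [dist_sub_right]),
        fun y => ⟨((f2 i).2 _).1, fun hy j => by
          have := ((f2 i).2 _).2 hy j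
          simp only [← z, sub_neg_eq_add, PiLp.add_apply] at this
          constructor <;> linarith [this.1, this.2]⟩⟩
    have := mix_cell hF hL o.st x0 (Z := fun i => yy e (if i ∈ T then A else 0)
      (if i ∈ T then ν else 1) (f i)) (fun i => by
        obtain ⟨R, hR⟩ := (f1.1 i).1.isCompact.isBounded.exists_norm_le
        rw [z, tau_yy fun y hy l => (PiLp.norm_apply_le y l).trans (hR y (subset_tsupport _ hy))]
        exact y1 i) y2 y3 c1 c2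
    refine le_of_eq_of_le (congrArg (‖S ·‖) (Finset.prod_congr rfl fun i _ => ?_)) (this.trans ?_)
    · split_ifs
      · rfl
      · rw [yy_zero, o.cen ⟨fun a => by fin_cases a; exact f1.1 i, Subsingleton.pairwise⟩, map_zero,
          sub_zero]
    · have a1 : j ≤ (cells lo hi).card := by
        simpa using Finset.card_le_card_of_injOn (s := Finset.univ) c (fun i _ => c2 i) c1.injOn
      have a2 : Γ ^ j ≤ exp (Γ * (cells lo hi).card) :=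
        (pow_le_pow_left₀ Γ0 ((le_add_of_nonneg_right zero_le_one).trans (add_one_le_exp Γ)) j).trans
          ((exp_nat_mul Γ j).ge.trans (exp_le_exp.2 ((mul_comm _ _).trans_le
            (mul_le_mul_of_nonneg_left (Nat.cast_le.2 a1) Γ0))))
      simp only [← hΓ, Finset.prod_mul_distrib, apply_ite abs, abs_of_pos H.1, abs_one,
        Finset.prod_ite_mem, Finset.univ_inter, Finset.prod_const, Finset.card_univ, Fintype.card_fin]
      rw [add_mul, exp_add, mul_assoc (exp _), mul_comm _ (Γ ^ j)]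
      exact mul_le_mul_of_nonneg_left (mul_le_mul_of_nonneg_right a2 (pow_pos H.1 _).le)
        (exp_pos _).le
  · have y : ((3 : ℝ) ^ (e₀ + s))⁻¹ ≤ (3 ^ e₀)⁻¹ / 3 := by
      rw [div_eq_mul_inv, ← mul_inv, ← pow_succ]
      exact inv_anti₀ (by positivity) (pow_le_pow_right₀ (by norm_num) (by omega))
    obtain ⟨Y, y1, y2, y3⟩ := o.rgm v M lk hd he (γ := Unit) (f := fun _ => f) (fun _ => H)
      fun _ => ⟨hf.1, hf.2.1, fun x => ⟨(hf.2.2 x).1, fun hx j => by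
        have := (hf.2.2 x).2 hx j
        constructor <;> linarith [this.1, this.2]⟩⟩
    have η0 := H.1
    have q := (qb_one hF hL o.st x0 (.smul (c := fun _ => ((η⁻¹ : ℝ) : ℂ)) tendsto_const_nhds (y1 ()))
      (fun p => (y2 () p).smul _) (y3.mono fun p ⟨lam, L, a1, a2, a3⟩ => by
        obtain ⟨O, t, a3, a4⟩ := a3 ()
        refine ⟨lam, L, O, a1, a2, a3, fun _ => ⟨-(η⁻¹ * t), fun V => ?_⟩⟩
        rw [evr, map_smul, Pi.smul_apply, smul_eq_mul, Complex.re_ofReal_mul, ← evr, a4, mul_add,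
          inv_mul_cancel_left₀ η0.ne', add_neg_cancel_right])).smul (η : ℂ)
    rw [map_smul, smul_assoc, ← smul_sub, smul_smul, ← Complex.ofReal_mul, mul_inv_cancel₀ η0.ne',
      Complex.ofReal_one, one_smul, MvPolynomial.smul_eq_C_mul, mul_one, Complex.norm_real,
      norm_of_nonneg η0.le, mul_comm η] at q
    refine q.mono o.st le_rfl (mul_le_mul_of_nonneg_right ?_ η0.le)
    have a1 : exp (256 * G.cC e₀ l) ≤ 3 ^ (512 * e₀) := by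
      refine (exp_le_exp.2 (show _ ≤ ((512 * e₀ : ℕ) : ℝ) by push_cast; linarith)).trans ?_
      rw [← exp_one_pow]
      exact pow_le_pow_left₀ (exp_pos _).le exp_one_lt_three.le _
    have a2 : (1 : ℝ) ≤ 3 ^ (512 * e₀) := one_le_pow₀ (by norm_num)
    have a3 : (3 : ℝ) ≤ 3 ^ e₀ := le_self_pow₀ (by norm_num) v.2.1.ne'
    rw [show 1025 * e₀ = 512 * e₀ + (512 * e₀ + e₀) by ring, pow_add, pow_add]
    refine (mul_le_of_le_one_right (by positivity) ω1).trans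
      (mul_le_mul a1 (by nlinarith) (by positivity) (by positivity))

end Lm

end Pool.Agent.Lib.MP_7f377f_mp.RG.Q4.En.Gl
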