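import Pool.Agent.Lib.MP_7f377f_mp.G.TyW2

/-! Smeared words: the level of the merging. -/

noncomputable section

set_option linter.unusedSectionVars false
variable [Pool.Agent.Lib.MP_7f377f_mp.GD]

namespace Pool.Agent.Lib.MP_7f377f_mp.RG.Q4.En.Gl

open Filter Topology Finset Real YM7 Ob Pur

theorem Ok.rw_of {G : Gl} (h : G.Ok) {c j J k m e i s t q u M : ℕ} {Λ δ d a b W : ℝ} {B : Pol}
    [NeZero (G.N J)] [NeZero q] (V : G.Lv 1 j (k + 1) (Λ + 2) δ d) (hl : k + 1 < J)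
    (ha : a * 3 ^ G.e J = 1) (T : G.Tu b J) (hp : G.Pu) (Λ1 : 1 ≤ Λ) (δ0 : 0 < δ)
    (hn : G.N j = q * u) (hu : 3 ^ G.e j ≤ 3 * u) (q1 : 1 < q) (he : G.e k ≤ e) (hm : m ≤ M)
    (W0 : 0 < W) (hΛ : 2 * Λ ≤ G.Q k) (hi : (40 * i + 1 : ℝ) ≤ G.L k)
    (hC : 4 * exp (c * (2 + G.mr j u 1) + c + 2) ≤ G.Q k) (ht : t = 3 ^ (e - G.e k))
    (hB : Wb m Λ δ d (W * ((3 ^ e)⁻¹ / d) ^ 4) B) :
    G.Rw b J k ⟨s, t, ⌊Λ / (a / d)⌋₊, i⟩ (Fin M) (a / (2 * d)) c (2 + G.mr j u 1)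
      (evr (Fi.tr haar) b _ a B) (W * (G.Q k ^ (2 * c + 289 + 2401 * M) * G.bb k / G.bb k ^ m)) := by
  have : (Fi.tr haar).IsHaarMeasure := (inferInstance : haar.IsHaarMeasure)
  obtain ⟨α, _, γ, f, h1, h2, rfl⟩ := hB
  obtain ⟨r, hr⟩ := Nat.exists_eq_add_of_le hm
  have a0 := Ok.a_pos ha
  have d0 := V.d0
  have s0 := div_pos a0 d0
  have σ0 : 0 < G.sg (k + 1) := div_pos (h.b0 _) (pow_pos (h.Q0 _) _)
  have a6 : a / (2 * d) = a / d / 2 := by rw [mul_comm, div_div]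
  have a1 := Ok.d_le V (by linarith) δ0
  have a2 := (h.s_le V hl ha).1
  have a3 : 1 ≤ a * G.N J := by
    rw [← ha, N]
    push_cast
    gcongr
    exact le_mul_of_one_le_left (by positivity) (Nat.one_le_cast.2 h.odd.pos)
  have a4 : 4 * Λ + 2 < a / d * G.N J := by
    rw [div_mul_eq_mul_div, lt_div_iff₀ d0]
    nlinarith [mul_pos d0 δ0]
  have H := fun x => (h2 x).2
  have lp := fun x l => a6 ▸ pad_lp (n := G.N J) (E := (finCongr hr).trans finSumFinEquiv.symm)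
    (σ := G.sg (k + 1)) (c := γ) H s0 (by linarith) x l
  have sp := pad_sup (n := G.N J) (E := (finCongr hr).trans finSumFinEquiv.symm)
    (σ := G.sg (k + 1)) (c := γ) H s0
  refine ⟨α, inferInstance, pad _ ((finCongr hr).trans finSumFinEquiv.symm) Λ (a / d)
    (G.sg (k + 1)) γ f, ⟨lp, sp, pad_sep H s0 (by linarith) (h.ds_le V hl ha), fun x l v => ?_⟩,
    ht ▸ h.nw_of V he ((Fintype.card_fin _).trans hr) hm W0 (by linarith) hΛ hi hC ?_,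
    pad_ob _ b (by linarith) σ0.ne'⟩
  · have c1 := h.cen_ej T hp V hl ha Λ1 δ0 hn hu q1 (lp x l) (sp x l) (by
      have := (le_div_iff₀ s0).1 (Nat.floor_le (show 0 ≤ Λ / (a / d) by positivity))
      rw [← mul_div_assoc, div_le_iff₀ d0] at this
      linarith) v
    have c2 := pad_tau (n := G.N J) (E := (finCongr hr).trans finSumFinEquiv.symm) (Λ := Λ)
      (s := a / d) (c := γ) (u := f) σ0 x l
    rw [Complex.ofReal_sub, ← sub_add]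
    refine (mul_le_mul_of_nonneg_left (norm_add_le _ _) σ0.le).trans ?_
    rw [Complex.norm_real, Real.norm_eq_abs, mul_add]
    linarith
  · rw [pad_w (by linarith) σ0.le]
    gcongr

theorem Oks.mrg {G : Gl} (o : G.Oks) (M : ℕ) {Λ δ : ℝ} (Λ1 : 1 ≤ Λ) (δ0 : 0 < δ) :
    ∃ (c n : ℕ) (C : ℝ), ∀ P : ℕ → Prop, (∀ᶠ k in atTop, P k) →
      ∀ᶠ d in 𝓝[>] (0 : ℝ), ∃ k, P k ∧ G.Mrg k ⟨M, Λ, δ, c, n, C⟩ d := by
  have h := (o 0).1
  obtain ⟨j, j1, j2⟩ := ((eventually_ge_atTop 1).and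
    (h.L_nat.eventually_ge_atTop (1000 * 3 ^ 1))).exists
  obtain ⟨A, hA⟩ : ∃ A, A = (68 / δ + 1) * 3 ^ (G.K0 + 1) := ⟨_, rfl⟩
  obtain ⟨i, hi⟩ := exists_nat_ge (Λ * A + 1)
  obtain ⟨c, hc⟩ : ∃ c, c = M + 1 + 2 * (i + 1) * (2 * i + 1) ^ 4 := ⟨_, rfl⟩
  obtain ⟨u, hu⟩ : ∃ u, 3 ^ G.e j = 3 * u :=
    dvd_pow_self 3 (Nat.one_le_iff_ne_zero.1 (j1.trans h.sch.mono.le_apply))
  refine ⟨c, 2 * c + 289 + 2401 * (M + 1), 2 + G.mr j u 1, fun P hP => ?_⟩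
  have e := hP.and ((h.ev_L A).and ((h.L_nat.eventually_ge_atTop (2 * c + 3)).and
    ((h.ev_L (2 * Λ)).and ((h.ev_L (400 * 2 ^ c)).and ((h.ev_L (20 * i + Λ + 3)).and
    ((h.ev_L (40 * i + 1)).and (h.ev_L (4 * exp (c * (2 + G.mr j u 1) + c + 2)))))))))
  have e' := ((tendsto_sub_atTop_nat 1).eventually e).and (eventually_ge_atTop 1)
  filter_upwards [h.ev_lv' (Λ := Λ + 2) (by linarith) δ0 j2 e'] with d ⟨l, ⟨b, l1⟩, V, up⟩
  obtain ⟨k, rfl⟩ := Nat.exists_eq_add_of_le' l1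
  rw [Nat.add_sub_cancel] at b
  obtain ⟨b0, b1, b2, b3, b4, b5, b6, b7⟩ := b
  have up' : d * 3 ^ G.e k ≤ A * G.L k ^ G.K0 := hA ▸ h.dk_le (by positivity) up
  have L := h.L1 k
  have LQ := h.LQ k
  have A0 : 0 ≤ A := by rw [hA]; positivity
  refine ⟨k, b0, V.d0, V.one, up'.trans (le_trans ?_ (h.LK b1)), b2, ⟨Λ1, b3.trans LQ⟩,
    fun e he => ?_⟩
  · exact mul_le_mul_of_nonneg_left (pow_le_pow_right₀ (one_le_two.trans (le_trans (by norm_num) L))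
      (Nat.le_succ _)) A0
  filter_upwards [tendsto_snd.eventually (eventually_ge_atTop (k + 2 + e))] with p hp b T
  have h' := (o p.1).1
  have V' : (G.wm p.1).Lv 1 j (k + 1) (Λ + 2) δ d :=
    ⟨V.le, V.d0, V.sm, V.lo, V.one, V.hi, V.up, V.big⟩
  have ha : G.aa p * 3 ^ (G.wm p.1).e p.2 = 1 := inv_mul_cancel₀ (by positivity)
  have he' : e ≤ G.e p.2 := le_trans (by omega) h.sch.mono.le_apply
  have : NeZero ((2 * p.1 + 1) * 3) := ⟨by positivity⟩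
  refine ⟨⟨3 ^ (G.e p.2 - e), 3 ^ (e - G.e k), ⌊Λ / (G.aa p / d)⌋₊, i⟩, rfl, he',
    h'.gk_of V' (by omega) ha he he' rfl (by linarith) up' hi
      ((Fintype.card_fin _).trans_le (hc ▸ Nat.le_add_right _ _)) (hc ▸ Nat.le_add_left _ _)
      (b4.trans LQ) (by unfold mr; positivity),
    h'.rad_of V' (by omega) ha (by linarith) b5, fun m B W _ m1 W0 hB => ?_⟩
  exact h'.rw_of (q := (2 * p.1 + 1) * 3) V' (by omega) ha T (o p.1).2 Λ1 δ0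
    (by rw [mul_assoc, ← hu]; rfl) hu.le (by omega) he m1 W0 (b3.trans LQ) b6 (b7.trans LQ) rfl hB

end Pool.Agent.Lib.MP_7f377f_mp.RG.Q4.En.Gl
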