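import Pool.Agent.Lib.MP_7f377f_mp.G.TyO
import Pool.Agent.Lib.MP_7f377f_mp.G.TyJ
import Pool.Agent.Lib.MP_7f377f_mp.G.TyN
import Pool.Agent.Lib.MP_7f377f_mp.G.TyU
import Pool.Agent.Lib.MP_7f377f_mp.G.TyV
import Pool.Agent.Lib.MP_7f377f_mp.G.TyW
import Pool.Agent.Lib.MP_7f377f_mp.G.CmS
import Pool.Agent.Lib.MP_7f377f_mp.G.CmY

/-! The input for the composite fields. -/

noncomputable section

set_option linter.unusedSectionVars false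
variable [Pool.Agent.Lib.MP_7f377f_mp.GD]

namespace Pool.Agent.Lib.MP_7f377f_mp.RG.Q4.En.Gl

open Filter Topology Real YM7 Pur Ob Ty

variable (G : Gl) (β : ℕ × ℕ → ℝ) (U : Ultrafilter (ℕ × ℕ))

/-- the word at the scale `d` with the weight of the grid -/
def Aw (d : ℝ) (e : ℕ) (A : Pol) : Pol := (((((3 ^ e)⁻¹ / d) ^ 4 : ℝ)) : ℂ) • Cm.sh d 0 A

/-- slots without marginal part -/
def Kk (Λ δ d d' : ℝ) (e : ℕ) (s : Cm.Sl) : Prop := ∃ L T E A A', Det T E ∧ Cm.Typ T A ∧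
  Cm.Typ T A' ∧ Cm.Wo s.m Λ δ A ∧ Cm.Wo s.m Λ δ A' ∧ s.A = acL L A ∧ s.A' = acL L A' ∧
    G.Kp e β U E (Aw d e A) (Aw d' e A') s.c s.c'

variable {G β U} {S : Pol →ₗ[ℂ] ℂ} {X : ℝ → ℝ} {Λ δ d d' D C : ℝ} {M m e c n k l : ℕ} {A : Pol}
  {s : Cm.Sl}

theorem wo_wb (H : Cm.Wo m Λ δ A) : Wb m Λ δ 1 1 A := by
  obtain ⟨ι, t, c, u, a1, a2, rfl⟩ := H
  refine ⟨t, inferInstance, fun x => c x, fun x => u x, (Finset.sum_coe_sort t fun x => |c x|).trans_le a1,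
    fun x => ⟨(a2 x x.2).1, (a2 x x.2).2.1⟩, (Finset.sum_coe_sort t _).symm.trans ?_⟩
  simp only [funext fun f => funext fun y => show Ope.sc 1 f y = f y by rw [Ope.sc, inv_one, one_smul]]

theorem rc_aw (H : Cm.Wo m Λ δ A) : Rc (Aw d e A) := (((wo_wb H).mem one_pos).2.ren _).smul _

theorem wb_aw (H : Cm.Wo m Λ δ A) (d0 : 0 < d) (hd : d' ∈ Set.Icc (d / 2) d) :
    Wb m (2 * Λ) (δ / 2) d (16 * ((3 ^ e)⁻¹ / d) ^ 4) (Aw d' e A) := by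
  refine (((wo_wb H).sh d0 hd).smul _).le ?_
  have := div_le_div_of_nonneg_left (show (0 : ℝ) ≤ (3 ^ e)⁻¹ by positivity) (half_pos d0) hd.1
  have d1 := (half_pos d0).trans_le hd.1
  rw [mul_one, abs_of_nonneg (by positivity), show (16 : ℝ) = 2 ^ 4 by norm_num, ← mul_pow]
  exact pow_le_pow_left₀ (by positivity) (this.trans_eq (by field_simp)) _

theorem aw_acL (L : List Gn) : Aw d e (acL L A) = acL L (Aw d e A) := by
  induction L with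
  | nil => rfl
  | cons g L ih =>
    change Aw d e (Ro.act _ (acL L A)) = Ro.act _ (acL L _)
    rw [← ih, Aw, Aw, map_smul, Cm.act_sh, map_zero]

theorem typ_aw {T : Ty} (H : Cm.Typ T A) : Cm.Typ T (Aw d e A) := fun g hg => by
  rw [Aw, map_smul, typ_sh H d g hg, smul_comm]

/-- the polynomial of a slot -/
def Bs (d d' : ℝ) (e : ℕ) (s : Cm.Sl) : Pol := (s.c : ℂ) • Aw d e s.A + (s.c' : ℂ) • Aw d' e s.A'

theorem y_eq {f : R4 → ℝ} {R : ℝ} (hf : ∀ y, f y ≠ 0 → ∀ l, |y l| ≤ R) :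
    s.Y d d' e f = yy e (Bs d d' e s) 0 f := by
  rw [yy, Complex.ofReal_zero, zero_smul, add_zero, Bs, smp_add hf, smp_smul, smp_smul, Cm.Sl.Y,
    yl_smp, yl_smp]
  rfl

/-- the size of a slot -/
def zk (G : Gl) (n k l m : ℕ) : ℝ := 1.01 ^ (k - l) * (16 * (G.Q k ^ n * G.bb k / G.bb k ^ m)) * G.Q k ^ 8

open Classical in
theorem Lm.slt_s (o : G.Lm β U S) (h : G.Ok) (H : G.Mrg k ⟨M, 2 * Λ, δ / 2, c, n, C⟩ d) (he : G.e k ≤ e)
    (hd : d' ∈ Set.Icc (d / 2) d) (hs : s.Ok M Λ δ) : G.Slt k l ⟨M, 2 * Λ, δ / 2, c, n, C⟩ d e β U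
      (Bs d d' e s) 0 ((if G.Kk β U Λ δ d d' e s then G.cP (l + 1) k else 1) * G.zk n k l s.m) := by
  obtain ⟨m1, m2, a, a', cc⟩ := hs
  have d1 : d ∈ Set.Icc (d / 2) d := ⟨half_le_self H.1.le, le_rfl⟩
  have z : 0 < 16 * G.nw k ⟨M, 2 * Λ, δ / 2, c, n, C⟩ s.m := mul_pos (by norm_num) (o.nw0 _)
  have q : 1 ≤ G.Q k := h.Q1 k
  split_ifs with e
  · obtain ⟨L, T, E, B, B', hD, t, t', b, b', e1, e2, y⟩ := e
    rw [Bs, e1, e2, aw_acL, aw_acL]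
    refine o.slt_orb H he m1 (m2.trans M.le_succ) (by norm_num) (wb_aw b H.1 d1) (wb_aw b' H.1 hd) hD
      (typ_aw t) (typ_aw t') y L ?_
    rw [mul_assoc]
    exact mul_le_mul_of_nonneg_left (mul_le_mul_of_nonneg_right (le_mul_of_one_le_left z.le
      (one_le_pow₀ (by norm_num))) (by positivity)) (h.cP0 _ _).le
  · refine o.slt_gen H he m1 (m2.trans M.le_succ) (W := 16) (by norm_num)
      ((((wb_aw a H.1 d1).smul _).add ((wb_aw a' H.1 hd).smul _)).le ?_) ?_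
    · rw [← add_mul]
      exact mul_le_of_le_one_left (by have := H.1; positivity) cc
    · rw [one_mul]
      exact mul_le_mul_of_nonneg_left (pow_le_pow_right₀ q (by norm_num)) (by positivity)

theorem Ok.zk_le (h : G.Ok) (lk : l ≤ k) (m1 : 1 ≤ m) (m2 : m ≤ M) {x : ℝ} (x0 : 0 ≤ x)
    (hx : x ≤ G.Q l * G.bb l) : 0 < G.zk n k l m ∧ G.zk n k l m ≤ (1.01 ^ (k - l) * G.Q k) ^ (n + 9) ∧
      x ^ m * (G.zk n k l m / G.sg l) ≤ (1.01 ^ (k - l) * G.Q k) ^ (n + M + 1209) := by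
  obtain ⟨m, rfl⟩ := Nat.exists_eq_add_of_le' m1
  have q := h.Q1 k
  have q0 := h.Q0 l
  have q1 := h.Q_mono lk
  have b0 := h.b0 l
  have b1 := h.b_mono lk
  have b3 := h.b0 k
  have q2 := h.Q0 k
  have b2 : 1 ≤ G.bb k := (one_le_pow₀ q).trans (h.Qb k)
  have t : (1 : ℝ) ≤ 1.01 ^ (k - l) := one_le_pow₀ (by norm_num)
  have c := h.cQ k (C := 16) (by norm_num)
  have e : G.zk n k l (m + 1) = 1.01 ^ (k - l) * (16 * G.Q k ^ (n + 8)) / G.bb k ^ m := by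
    rw [zk]
    field_simp
    ring
  have u : ∀ i, 1.01 ^ (k - l) * G.Q k ^ (i + 1) ≤ (1.01 ^ (k - l) * G.Q k) ^ (i + 1) := fun i => by
    rw [mul_pow]
    exact mul_le_mul_of_nonneg_right (le_self_pow₀ t i.succ_ne_zero) (by positivity)
  rw [e]
  refine ⟨by positivity, (div_le_self (by positivity) (one_le_pow₀ b2)).trans (le_trans ?_ (u _)),
    le_trans ?_ (u _)⟩
  · rw [pow_succ' _ (n + 8)]
    gcongr
  · calc _ ≤ (G.Q l * G.bb l) ^ (m + 1) * (1.01 ^ (k - l) * (16 * G.Q k ^ (n + 8)) / G.bb l ^ m /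
          (G.bb l / G.Q l ^ 1200)) := by unfold sg; gcongr
      _ = 1.01 ^ (k - l) * (16 * G.Q k ^ (n + 8) * G.Q l ^ (m + 1) * G.Q l ^ 1200) := by
          field_simp
          ring
      _ ≤ 1.01 ^ (k - l) * (G.Q k * G.Q k ^ (n + 8) * G.Q k ^ M * G.Q k ^ 1200) := by
          have := pow_le_pow_right₀ q m2
          have := pow_le_pow_left₀ q0.le q1 (m + 1)
          gcongr
          linarith
      _ = _ := by ring

theorem Ok.ev_b2 (h : G.Ok) {ε : ℝ} (ε0 : 0 < ε) : ∀ᶠ l in atTop, G.Q l * G.bb l ≤ ε * 2 ^ l := by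
  filter_upwards [h.ev_jL, tendsto_natCast_atTop_atTop.eventually_ge_atTop (G.bb 0),
    (tendsto_pow_const_div_const_pow_of_one_lt (G.K + 2) one_lt_two).eventually_le_const
      (half_pos ε0)] with l a1 a2 a3
  have a : (G.L l : ℝ) ≤ l := Nat.cast_le.2 a1
  have b := h.b_le l.zero_le
  have L := h.L1 l
  rw [div_le_iff₀ (by positivity), pow_add] at a3
  rw [Nat.sub_zero] at b
  have := mul_le_mul (pow_le_pow_left₀ (by positivity) a G.K)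
    (show G.bb l ≤ 2 * l ^ 2 by nlinarith) (h.b0 l).le (by positivity)
  rw [Q]
  linarith

theorem Lm.clw (o : G.Lm β U S) (h : G.Ok) (hT : Ope.TsN S X) (hX : ∀ᶠ d in 𝓝[>] (0 : ℝ), X d ≤ log d⁻¹)
    (M k₀ : ℕ) (Λ1 : 1 ≤ Λ) (δ0 : 0 < δ) : ∃ q, ∀ W ρ, G.Wq9 X q W ρ → Cm.Tsc S W ∧ ∀ j ≤ k₀,
    ∀ f : Fin j → R4 → ℝ, Adm f → ∀ η > 0, ∃ R, ∀ᶠ D in 𝓝[>] (0 : ℝ), ∀ r, W D r →
      ∀ d ∈ Set.Ioc 0 (D / r), ∀ d' ∈ Set.Icc (d / 2) d, ∀ᶠ e in atTop, ∀ s : Fin j → Cm.Sl,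
        (∀ i, (s i).Ok M Λ δ) →
        ((∃ i, G.Kk β U Λ δ d d' e (s i)) → net.QB S (((log D⁻¹ ^ (∑ i, (s i).m) : ℝ) : ℂ) •
          Cm.Zp S s d d' e D f) R (η * (r * d / D) ^ (50⁻¹ : ℝ))) ∧
        (D / (4 * r) ≤ d → net.QB S (((log D⁻¹ ^ (∑ i, (s i).m) : ℝ) : ℂ) •
          Ope.ctr S (Cm.Zp S s d d' e D f)) R η) := by
  classical
  obtain ⟨c, n, C, H⟩ := o.ok.mrg M (Λ := 2 * Λ) (by linarith) (half_pos δ0)
  obtain ⟨d₀, (d1 : 0 < d₀), H⟩ := (mem_nhdsGT_iff_exists_Ioo_subset).1 (H _ (.of_forall fun _ => trivial))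
  obtain ⟨q, hn⟩ := h.num ((n + M + 1209) * k₀)
  refine ⟨q, fun W _ ⟨w1, w2, w3, w4, _, _⟩ => ⟨Cm.tsc_of hT hX w1.top (.of_forall w2),
    fun j hj f hf η η0 => ⟨2, ?_⟩⟩⟩
  obtain ⟨K, K0, hc⟩ := o.clu hf
  obtain ⟨R, hR⟩ := (isCompact_iUnion fun i => (hf.1 i).1.isCompact).isBounded.exists_norm_le
  filter_upwards [hc _ (hn.and (h.ev_log.and (h.ev_b2 (div_pos η0 K0)))), w4, w1.top 1,
    w1.top ((K / η) ^ 50), Ioo_mem_nhdsGT (lt_min d1 one_pos)]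
    with D ⟨l, ⟨p1, p2, p3⟩, l1, l2, hc⟩ w4 r1 r2 ⟨D0, D1⟩ r hr d ⟨d0, d2⟩ d' hd
  have r0 := r1 r hr
  rw [le_div_iff₀' (by linarith)] at d2
  obtain ⟨k, -, hk⟩ := H ⟨d0, ((le_mul_of_one_le_left d0.le r0).trans d2).trans_lt
    (D1.trans_le (min_le_left _ _))⟩
  obtain ⟨n1, n2, n3, n4⟩ := p1 k d D d0 hk.2.1 hk.2.2.1 l1 l2
    ((mul_le_mul_of_nonneg_right (w3 D r hr l l1 l2) d0.le).trans d2)
  filter_upwards [hc _ d k hk n1 n2, eventually_ge_atTop (G.e k)] with e a1 a2 s hs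
  have x0 : 0 ≤ log D⁻¹ := log_nonneg ((one_le_inv₀ D0).2 (D1.le.trans (min_le_right _ _)))
  have x1 : log D⁻¹ ≤ G.Q l * G.bb l :=
    (log_le_log (inv_pos.2 D0) ((inv_le_iff_one_le_mul₀' D0).2 l1)).trans p2
  have z := fun i => h.zk_le (n := n) n1.le (hs i).1 (hs i).2.1 x0 x1
  have t : 1 ≤ 1.01 ^ (k - l) * G.Q k := one_le_mul_of_one_le_of_one_le
    (one_le_pow₀ (by norm_num)) (h.Q1 k)
  obtain ⟨κ, hκ⟩ : ∃ κ : Fin j → ℝ, ∀ i, κ i =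
    if G.Kk β U Λ δ d d' e (s i) then G.cP (l + 1) k else 1 := ⟨_, fun _ => rfl⟩
  have κ0 : ∀ i, 0 ≤ κ i ∧ κ i ≤ 1 := fun i => by
    rw [hκ]
    split_ifs
    exacts [⟨(h.cP0 _ _).le, h.cP1 _ _⟩, ⟨zero_le_one, le_rfl⟩]
  have b : log D⁻¹ ^ (∑ i, (s i).m) * ∏ i, κ i * G.zk n k l (s i).m / G.sg l ≤
      (∏ i, κ i) * (1.01 ^ (k - l) * G.Q k) ^ ((n + M + 1209) * k₀) := by
    simp only [mul_div_assoc, ← Finset.prod_pow_eq_pow_sum, ← Finset.prod_mul_distrib,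
      mul_left_comm (log D⁻¹ ^ _)]
    rw [Finset.prod_mul_distrib]
    refine mul_le_mul_of_nonneg_left ((Finset.prod_le_prod (fun i _ => mul_nonneg (pow_nonneg x0 _)
      (div_pos (z i).1 (div_pos (h.b0 l) (pow_pos (h.Q0 l) _))).le) fun i _ => (z i).2.2).trans ?_)
      (Finset.prod_nonneg fun i _ => (κ0 i).1)
    rw [Finset.prod_const, Finset.card_fin, ← pow_mul]
    exact pow_le_pow_right₀ t (Nat.mul_le_mul_left _ hj)
  obtain ⟨b1, b2⟩ := a1 _ _ _ fun i => hκ i ▸ o.slt_s (l := l) h hk a2 hd (hs i)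
  have y : ∀ i, (s i).Y d d' e (Ope.sc D (f i)) = yy e (Bs d d' e (s i)) 0 (Ope.sc D (f i)) :=
    fun i => y_eq (R := D * R) fun y u x => (PiLp.norm_apply_le y x).trans (by
      have := hR _ (Set.mem_iUnion.2 ⟨i, subset_tsupport _ u⟩)
      rwa [norm_smul, norm_inv, norm_of_nonneg D0.le, inv_mul_le_iff₀ D0] at this)
  simp only [Cm.Zp, y]
  refine ⟨fun ⟨i, hi⟩ => (b1.smul _).mono o.st le_rfl ?_, fun d3 => (b2.smul _).mono o.st le_rfl ?_⟩ <;>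
    rw [Complex.norm_real, norm_of_nonneg (pow_nonneg x0 _), mul_left_comm]
  · have u : ∏ i, κ i ≤ G.cP (l + 1) k := by
      rw [← Finset.mul_prod_erase _ _ (Finset.mem_univ i), hκ i, if_pos hi]
      exact mul_le_of_le_one_right (h.cP0 _ _).le
        (Finset.prod_le_one (fun i _ => (κ0 i).1) fun i _ => (κ0 i).2)
    refine (mul_le_mul_of_nonneg_left (b.trans ((mul_le_mul_of_nonneg_right u (by positivity)).trans
      n4)) K0.le).trans ?_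
    rw [mul_div_assoc, mul_rpow (by linarith) (by positivity), ← mul_assoc]
    refine mul_le_mul_of_nonneg_right ((div_le_iff₀' η0).1 ?_) (by positivity)
    simpa using (le_rpow_inv_iff_of_pos (z := 50) (by positivity) (by linarith) (by norm_num)).2
      (by simpa using r2 r hr)
  · have u := b.trans ((mul_le_of_le_one_left (by positivity)
      (Finset.prod_le_one (fun i _ => (κ0 i).1) fun i _ => (κ0 i).2)).trans n3)
    rw [div_le_iff₀' (by linarith), ← div_le_iff₀ d0] at d3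
    refine (mul_le_mul_of_nonneg_left (u.trans (d3.trans ((w4 r hr).trans (x1.trans p3))))
      (by positivity)).trans_eq ?_
    field_simp

theorem Lm.kin0 (o : G.Lm β U S) (h : G.Ok) (hT : Ope.TsN S X) (hX : ∀ᶠ d in 𝓝[>] (0 : ℝ), X d ≤ log d⁻¹)
    (hq : ∀ q, ∀ᶠ d in 𝓝[>] (0 : ℝ), ∀ l, d * 3 ^ G.e l ≤ G.Q l ^ q → G.Q l ^ q ≤ X d)
    (M : ℕ) (Λ1 : 1 ≤ Λ) (δ0 : 0 < δ) : Cm.Kin S M Λ δ 50⁻¹ (G.Kk β U Λ δ) := by
  classical
  obtain ⟨c, n, C, H⟩ := o.ok.mrg M (Λ := 2 * Λ) (by linarith) (half_pos δ0)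
  obtain ⟨d₀, (d1 : 0 < d₀), H⟩ := (mem_nhdsGT_iff_exists_Ioo_subset).1 (H _ (.of_forall fun _ => trivial))
  refine ⟨by norm_num, fun T E hD hE _ m A A' _ _ a a' t t' d d' e => ?_, ?_, ?_,
    fun k₀ => (o.clw h hT hX M k₀ Λ1 δ0).elim fun q H => (h.wnd hX hq q).elim fun W w =>
      w.elim fun ρ w => ⟨W, w.wnd, H W ρ w⟩⟩
  · obtain ⟨c, c', u, z⟩ := o.ex_kp hE (rc_aw (d := d) (e := e) a) (rc_aw (d := d') (e := e) a')
    exact ⟨c, c', u, [], T, E, A, A', hD, t, t', a, a', rfl, rfl, z⟩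
  · rintro d d' e s σ - ⟨L, T, E, A, A', hD, t, t', a, a', e1, e2, z⟩
    exact ⟨.inl σ :: L, T, E, A, A', hD, t, t', a, a', congrArg (Ro.act _) e1, congrArg (Ro.act _) e2, z⟩
  · obtain ⟨N, hN⟩ := o.cel 1
    obtain ⟨q, hn⟩ := h.num (n + 9)
    refine ⟨N + 2, ?_⟩
    filter_upwards [hN _ (hn.and (h.ev_sm (q + 1) one_pos)), (tendsto_pow_atTop_atTop_of_one_lt
      (show (1 : ℝ) < 3 by norm_num)).eventually_gt_atTop d₀⁻¹]
      with e₀ ⟨l, K, ⟨p1, p2⟩, l1, l2, hc⟩ e0 d ⟨d0, d2⟩ d' hd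
    have t0 : (1 : ℝ) ≤ 3 ^ e₀ := one_le_pow₀ (by norm_num)
    have d3 : 3 ^ e₀ * d ≤ (3 ^ e₀)⁻¹ := by
      rw [← le_div_iff₀' (by positivity), div_eq_mul_inv, ← mul_inv, ← pow_add]
      exact d2.trans (inv_anti₀ (by positivity) (pow_le_pow_right₀ (by norm_num) (by nlinarith)))
    obtain ⟨k, -, hk⟩ := H ⟨d0, ((le_mul_of_one_le_left d0.le t0).trans d3).trans_lt
      (inv_lt_of_inv_lt₀ d1 e0)⟩
    rw [inv_mul_le_iff₀ (by positivity)] at l2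
    obtain ⟨n1, n2, -, n3⟩ := p1 k d _ d0 hk.2.1 hk.2.2.1 l1 ((inv_mul_le_iff₀ (by positivity)).2 l2)
      ((mul_le_mul_of_nonneg_right (le_of_mul_le_mul_right (by rw [← pow_succ]; linarith) (h.Q0 l))
        d0.le).trans d3)
    filter_upwards [hc _ d k hk n1 n2, eventually_ge_atTop (G.e k)] with e a1 a2 s hs hK f hf
    have z := h.zk_le (n := n) n1.le hs.1 hs.2.1 le_rfl (mul_pos (h.Q0 l) (h.b0 l)).le
    rw [y_eq (R := (3 ^ e₀)⁻¹) fun y u i => abs_le.2 ⟨by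
      linarith [((hf.2.2 y).2 u i).1, inv_pos.2 (one_pos.trans_le t0)], by
      linarith [((hf.2.2 y).2 u i).2, inv_pos.2 (one_pos.trans_le t0)]⟩]
    refine ((a1 _ _ _ (o.slt_s h hk a2 hd hs)).2 le_rfl f hf).mono o.st le_rfl ?_
    rw [if_pos hK]
    refine (mul_le_mul_of_nonneg_left ((mul_le_mul_of_nonneg_left z.2.1 (h.cP0 _ _).le).trans n3)
      (by positivity)).trans ?_
    rw [div_inv_eq_mul, mul_rpow d0.le (by positivity), mul_comm (d ^ _), ← mul_assoc, add_mul,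
      pow_add, mul_comm 2, pow_mul _ e₀ 2, ← rpow_two]
    gcongr
    norm_num

theorem Lm.kin (o : G.Lm β U S) (hT : Ope.TsN S X) (hX : ∀ᶠ d in 𝓝[>] (0 : ℝ), X d ≤ log d⁻¹)
    (hq : ∀ q, ∀ᶠ d in 𝓝[>] (0 : ℝ), ∀ l, d * 3 ^ G.e l ≤ G.Q l ^ q → G.Q l ^ q ≤ X d)
    (M : ℕ) (Λ1 : 1 ≤ Λ) (δ0 : 0 < δ) : Cm.Kin S M Λ δ 50⁻¹ (G.Kk β U Λ δ) :=
  Lm.kin0 (G := G.wm 0) ⟨o.ok, o.tu, o.st, o.lim⟩ (o.ok 0).1 hT hX hq M Λ1 δ0

end Pool.Agent.Lib.MP_7f377f_mp.RG.Q4.En.Gl
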