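import Pool.Agent.Lib.MP_7f377f_mp.G.TyN
import Pool.Agent.Lib.MP_7f377f_mp.G.TyU
import Pool.Agent.Lib.MP_7f377f_mp.G.TyV
import Pool.Agent.Lib.MP_7f377f_mp.G.TyW
import Pool.Agent.Lib.MP_7f377f_mp.G.TyY
import Pool.Agent.Lib.MP_7f377f_mp.G.TyU0

/-! The relations between the letters of the product expansion. -/

noncomputable section

set_option linter.unusedSectionVars false
variable [Pool.Agent.Lib.MP_7f377f_mp.GD]

namespace Pool.Agent.Lib.MP_7f377f_mp.RG.Q4.En.Gl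

open Filter Topology Real Set YM7 Pur Ob Ty
open Ope (Let Co sc cb Rel PIn Rd)

theorem ev_ioc {p : ℝ → Prop} (e : ∀ᶠ d in 𝓝[>] (0 : ℝ), p d) :
    ∀ᶠ d₀ in 𝓝[>] (0 : ℝ), ∀ d ∈ Ioc 0 d₀, p d := by
  obtain ⟨u, u0, hu⟩ := mem_nhdsGT_iff_exists_Ioo_subset.1 e
  filter_upwards [Ioo_mem_nhdsGT u0] with d₀ h d hd using hu ⟨hd.1, hd.2.trans_lt h.2⟩

/-- the word at the scale `d` with the weight of the grid -/
def wA (d : ℝ) (e : ℕ) (A : Pol) : Pol := (((3 ^ e)⁻¹ / d) ^ 4 : ℝ) • Cm.sh d 0 A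

theorem wb_wA {A : Pol} {m e : ℕ} {Λ Λ' δ δ' d d' : ℝ} (H : Wb m Λ δ 1 Λ A) (h1 : Λ ≤ Λ') (Λ0 : 0 ≤ Λ')
    (h2 : δ' ≤ δ) (h3 : 0 < δ') (d0 : 0 < d) (hd : d' ∈ Icc (d / 2) d) :
    Wb m (2 * Λ') (δ' / 2) d (16 * Λ' * ((3 ^ e)⁻¹ / d) ^ 4) (wA d' e A) := by
  have d1 : 0 < d' := (half_pos d0).trans_le hd.1
  rw [wA, ← Complex.coe_smul]
  refine (((H.mono h1 h2 h3 h1).sh d0 hd).smul _).le ?_
  have : (3 ^ e)⁻¹ / d' ≤ 2 * ((3 ^ e)⁻¹ / d) := by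
    rw [← mul_div_assoc, div_le_div_iff₀ d1 d0]
    nlinarith [hd.1, inv_pos.2 (pow_pos (three_pos (α := ℝ)) e)]
  rw [abs_of_nonneg (by positivity)]
  calc _ ≤ (2 * ((3 ^ e)⁻¹ / d)) ^ 4 * Λ' := by gcongr
    _ = _ := by ring

theorem typ_wA {T : Ty} {A : Pol} (H : Cm.Typ T A) (d : ℝ) (e : ℕ) : Cm.Typ T (wA d e A) :=
  fun g hg => by rw [wA, ← Complex.coe_smul, map_smul, typ_sh H d g hg, smul_comm]

theorem rc_wA {A : Pol} (H : Rc A) (d : ℝ) (e : ℕ) : Rc (wA d e A) := by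
  rw [wA, ← Complex.coe_smul]
  exact (H.ren _).smul _

variable {G : Gl} {β : ℕ × ℕ → ℝ} {U : Ultrafilter (ℕ × ℕ)} {S : Pol →ₗ[ℂ] ℂ} {D : ℝ → ℝ}

theorem Wl.lim (h : G.Ok) (w : G.Wl D) : (∀ᶠ d in 𝓝[>] (0 : ℝ), d ≤ D d) ∧
    Tendsto D (𝓝[>] 0) (𝓝[>] 0) := by
  have a : ∀ᶠ d in 𝓝[>] (0 : ℝ), d ≤ D d := by
    filter_upwards [w.2 0, Ioc_mem_nhdsGT (show (0 : ℝ) < (3 ^ G.e 0)⁻¹ by positivity)] with d a b
    simpa using a 0 (by rw [pow_zero, ← le_div_iff₀ (by positivity), one_div]; exact b.2)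
  refine ⟨a, tendsto_nhdsWithin_iff.2 ⟨?_, ?_⟩⟩
  · refine squeeze_zero_norm' (a := fun d => √d) (w.1.mono fun d e => abs_le_sqrt e) ?_
    simpa using (continuous_sqrt.tendsto 0).mono_left nhdsWithin_le_nhds
  · filter_upwards [a, self_mem_nhdsWithin] with d a b using lt_of_lt_of_le b a

namespace Lm

variable (o : G.Lm β U S) (hD : G.Wl D)
include o hD

theorem rel_of {w : Wp} {Y Y' : Let} {c c' ν : Co} {A : ℝ → ℝ → ℕ → Pol}
    (hw : ∀ᶠ d in 𝓝[>] (0 : ℝ), ∃ k, G.Mrg k w d)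
    (hY : ∀ d d' e f R, (∀ y, f y ≠ 0 → ∀ l, |y l| ≤ R) →
      cb Y Y' c c' d d' e f = yy e (A d d' e) (ν d d' e) f)
    (hS : ∀ k l d d' e η, G.Mrg k w d → d' ∈ Icc (d / 2) d → G.e k ≤ e →
      G.cP (l + 1) k * G.nw k w 2 * G.Q k ^ 9 ≤ η → G.Slt k l w d e β U (A d d' e) (ν d d' e) η) :
    Rel S D (1 / 100) Y Y' c c' := by
  have h := (o.ok 0).1
  have Q1 : ∀ k, 1 ≤ G.Q k := h.Q1
  have b1 : ∀ k, 1 ≤ G.bb k := fun k => (one_le_pow₀ (Q1 k)).trans (h.Qb k)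
  have c0 : ∀ l k, 0 < G.cP l k := h.cP0
  obtain ⟨q, hq⟩ := h.num (w.n + 3614)
  have key : ∀ k l x, l ≤ k → G.cP (l + 1) k * (1.01 ^ (k - l) * G.Q k) ^ (w.n + 3614) ≤ x →
      G.cP (l + 1) k * G.nw k w 2 * G.Q k ^ 9 ≤ x / (G.Q l ^ 3605 * G.bb l) := fun k l x e a => by
    have := Q1 k
    have := b1 k
    have := Q1 l
    have := b1 l
    have := c0 (l + 1) k
    have a1 : G.Q l ≤ G.Q k := h.Q_mono e
    have a2 : G.bb l ≤ G.bb k := h.b_mono e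
    have a3 : G.Q k ≤ 1.01 ^ (k - l) * G.Q k :=
      le_mul_of_one_le_left (by positivity) (one_le_pow₀ (by norm_num))
    rw [le_div_iff₀ (by positivity), nw]
    calc _ ≤ G.cP (l + 1) k * (G.Q k ^ w.n * G.bb k / G.bb k ^ 2) * G.Q k ^ 9 *
          (G.Q k ^ 3605 * G.bb k) := by gcongr
      _ = G.cP (l + 1) k * G.Q k ^ (w.n + 3614) := by rw [pow_add]; field_simp
      _ ≤ _ := le_trans (by gcongr) a
  refine ⟨fun s => ?_, fun j hj f g hf => ?_⟩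
  · obtain ⟨N, hc⟩ := o.cel s
    refine ((hc _ hq).mono fun e₀ ⟨l, K, l1, l2, l3, H⟩ => ⟨K, ?_⟩).frequently
    have q0 : 0 < G.Q l ^ q := by have := Q1 l; positivity
    obtain ⟨z, z0, hz⟩ : ∃ z : ℝ, 0 < z ∧ (3 ^ e₀)⁻¹ = z := ⟨_, by positivity, rfl⟩
    rw [hz] at l2 l3 H
    filter_upwards [hw, Ioc_mem_nhdsGT (div_pos z0 q0), Ioc_mem_nhdsGT (pow_pos z0 2)] with d
      ⟨k, M⟩ ⟨d0, d1⟩ ⟨_, d2⟩ d' hd
    obtain ⟨n1, n2, -, n3⟩ := l1 k d z d0 M.2.1 M.2.2.1 l2 l3 ((le_div_iff₀' q0).1 d1)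
    filter_upwards [H w d k M n1 n2, eventually_ge_atTop (G.e k)] with e H he lo hi m x f T hf a1 a2 a3
    obtain ⟨R, δ, t⟩ := hf.tf
    simp only [fun i => hY d d' e (f i) R (t.cube i)]
    refine (H _ _ _ (hS k l d d' e _ M hd he ((key k l _ n1.le n3).trans ((div_le_self
      (by positivity) (one_le_mul_of_one_le_of_one_le (one_le_pow₀ (Q1 l)) (b1 l))).trans ?_)))).1
        lo hi m x f T hf a1 a2 a3
    rw [show (50⁻¹ : ℝ) = 2 * (1 / 100) by norm_num, rpow_mul (by positivity)]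
    refine rpow_le_rpow (by positivity) ?_ (by norm_num)
    rw [rpow_two, div_pow, div_le_iff₀ (by positivity), sq]
    exact mul_le_mul_of_nonneg_left d2 d0.le
  · obtain ⟨K, K0, hc⟩ := o.clu hf
    obtain ⟨R, δ, t⟩ := hf.tf
    obtain ⟨D1, D2⟩ := hD.lim h
    refine ⟨K, ?_⟩
    filter_upwards [D2.eventually (hc _ (hq.and h.ev_log)), D1, hD.1, hD.2 (q + 1), ev_ioc hw,
      Ioc_mem_nhdsGT one_pos] with d₀ ⟨l, ⟨l0, l1⟩, l2, l3, H⟩ a1 a2 a3 a4 ⟨a5, a6⟩ d ⟨d0, d1⟩ d' hd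
    obtain ⟨k, M⟩ := a4 d ⟨d0, d1⟩
    have z0 := a5.trans_le a1
    have ql := Q1 l
    have bl := b1 l
    have a7 : G.Q l ^ q * d ≤ D d₀ := le_trans (by gcongr; omega) (a3 l (le_trans (by gcongr) (l3.trans
      (le_self_pow₀ ql q.succ_ne_zero))))
    obtain ⟨n1, n2, -, n3⟩ := l0 k d _ d0 M.2.1 M.2.2.1 l2 l3 a7
    filter_upwards [H w d k M n1 n2, eventually_ge_atTop (G.e k)] with e H he
    have x0 : 0 < d / D d₀ := div_pos d0 z0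
    have s := o.st.bound (H (Fin.cons (A d d' e) fun _ => 0) (Fin.cons (ν d d' e) fun _ => 1)
      (Fin.cons ((d / D d₀) ^ (1 / 100 : ℝ) / (G.Q l ^ 3605 * G.bb l)) fun _ => 1) (Fin.cases
        (hS k l d d' e _ M hd he (key k l _ n1.le (n3.trans (rpow_le_rpow_of_exponent_ge x0
          ((div_le_one z0).2 (d1.trans a1)) (by norm_num))))) fun _ => o.slt_fld)).1
    have ag : ∀ i, Adm ![sc (D d₀) (g i)] := fun i => ⟨fun x => by
      fin_cases x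
      exact (hf.smul (inv_pos.2 z0).ne').1 i.succ, Subsingleton.pairwise⟩
    simp only [Fin.prod_univ_succ, Fin.cons_zero, Fin.cons_succ, yy_zero] at s
    simp only [Ope.ctr, o.cen (ag _), map_zero, sub_zero] at s
    rw [hY d d' e _ (D d₀ * R) fun y hy i => by
      have := t.cube 0 _ hy i
      rwa [PiLp.smul_apply, smul_eq_mul, abs_mul, abs_of_pos (inv_pos.2 z0), inv_mul_le_iff₀ z0] at this]
    rw [sub_mul, map_sub, ← MvPolynomial.smul_eq_C_mul, map_smul, smul_eq_mul] at s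
    have lg : log d₀⁻¹ ≤ 2 * (G.Q l * G.bb l) := by
      have e1 : log (D d₀)⁻¹ ≤ log (3 ^ G.e l) := log_le_log (inv_pos.2 z0)
        ((inv_le_iff_one_le_mul₀' z0).2 l2)
      have e2 : log d₀⁻¹ ≤ log ((D d₀)⁻¹ ^ 2) := log_le_log (inv_pos.2 a5)
        (by rw [inv_pow]; exact inv_anti₀ (by positivity) a2)
      rw [log_pow] at e2
      exact e2.trans (mul_le_mul_of_nonneg_left (e1.trans l1) (Nat.cast_nonneg 2))
    have lg0 : 0 ≤ log d₀⁻¹ := log_nonneg ((one_le_inv₀ a5).2 a6)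
    refine (mul_le_mul (pow_le_pow_left₀ lg0 lg _) s (norm_nonneg _) (by positivity)).trans ?_
    have q16 : 16 ≤ G.Q l := h.cQ l (by norm_num)
    have e3 : 2 ^ (j + 2) * G.Q l ^ (j + 2 + 1200 * (j + 1)) ≤ G.Q l ^ 3605 :=
      calc _ ≤ 2 ^ 4 * G.Q l ^ 3604 := by gcongr <;> first | omega | norm_num
        _ ≤ G.Q l * G.Q l ^ 3604 := by gcongr; linarith
        _ = _ := by ring
    rw [Finset.prod_const, Finset.card_fin, sg]
    calc _ = K * (d / D d₀) ^ (1 / 100 : ℝ) * (2 ^ (j + 2) * G.Q l ^ (j + 2 + 1200 * (j + 1)) /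
          G.Q l ^ 3605) := by
          rw [pow_add (G.Q l) (j + 2), pow_mul]
          generalize G.Q l ^ 1200 = y, G.Q l ^ 3605 = y'
          simp only [mul_pow, div_pow, pow_succ, one_pow]
          field_simp
      _ ≤ _ := mul_le_of_le_one_right (by positivity) ((div_le_one (by positivity)).2 e3)

theorem rel_pair {T : Ty} {E : List (Pl × Pl)} {Y Y' : Let} (h1 : Det T E) (h2 : E.length ≤ 1)
    (h3 : ∀ i, ∃ χ, (.inr i, χ) ∈ T) (y : Yw T Y) (y' : Yw T Y') : ∃ c c' : Co,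
      (∀ d d' e, |c d d' e| + |c' d d' e| = 1) ∧ Rel S D (1 / 100) Y Y' c c' := by
  obtain ⟨A, Λ, δ, Λ1, δ0, W, t, y⟩ := y
  obtain ⟨A', Λ', δ', Λ1', δ0', W', t', y'⟩ := y'
  choose c c' c1 c2 using fun d d' e => o.ex_kp (e := e) h2 (rc_wA (W.mem one_pos).2 d e)
    (rc_wA (W'.mem one_pos).2 d' e)
  have m1 := le_max_of_le_left (c := Λ') Λ1
  have m0 := lt_min δ0 δ0'
  obtain ⟨n, n', C, hw⟩ := o.ok.mrg 1 (Λ := 2 * max Λ Λ') (δ := min δ δ' / 2) (by linarith)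
    (half_pos m0)
  refine ⟨c, c', c1, o.rel_of hD (ν := fun _ _ _ => 0) (A := fun d d' e => (c d d' e : ℂ) • wA d e A +
    (c' d d' e : ℂ) • wA d' e A') ((hw _ (.of_forall fun _ => trivial)).mono fun _ ⟨k, _, e⟩ => ⟨k, e⟩)
    (fun d d' e f R hf => ?_) fun k l d d' e η M hd he hη => o.slt_kill M he one_le_two le_rfl
      (W := 16 * max Λ Λ') (by positivity) (wb_wA W (le_max_left _ _) (by positivity) (min_le_left _ _)
        m0 M.1 ⟨half_le_self M.1.le, le_rfl⟩) (wb_wA W' (le_max_right _ _) (by positivity)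
          (min_le_right _ _) m0 M.1 hd) h1 h3 (typ_wA t _ _) (typ_wA t' _ _) (c2 d d' e)
            (le_trans ?_ hη)⟩
  · simp only [cb, yy, y d e f R hf, y' d' e f R hf, yl_smp, smp_add hf, smp_smul, wA,
      Complex.ofReal_zero, zero_smul, add_zero]
  · have q : 16 ≤ G.Q k := (o.ok 0).1.cQ k (by norm_num)
    have := mul_pos ((o.ok 0).1.cP0 (l + 1) k) (o.nw0 (k := k) (w := ⟨1, 2 * max Λ Λ', min δ δ' / 2,
      n, n', C⟩) 2)
    have e : 16 * max Λ Λ' ≤ G.Q k ^ 2 := by nlinarith [M.2.2.2.2.1.2]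
    calc _ = G.cP (l + 1) k * G.nw k _ 2 * (16 * max Λ Λ' * G.Q k ^ 7) := by ring
      _ ≤ G.cP (l + 1) k * G.nw k _ 2 * (G.Q k ^ 2 * G.Q k ^ 7) := by gcongr
      _ = _ := by ring

/-- the input of the product expansion -/
theorem pin {h₀ : R4 → ℝ} (r : Rd h₀) : PIn S h₀ D (1 / 100) := by
  refine ⟨by norm_num, fun h H => ?_, fun h H θ => o.rel_pair hD det3 (by simp) (fun i => ⟨false, by fin_cases i <;> simp [T3, Ty.rf]⟩) (yw3 H θ)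
    (yw3 r 0), fun θ => o.rel_pair hD det6 (by simp) (fun i => by fin_cases i <;> simp [T6, Ty.rf]) (yw6 r θ) (yw6 r _)⟩
  obtain ⟨A, Λ, δ, Λ1, δ0, W, t, y⟩ := yw1 H
  obtain ⟨n, n', C, hw⟩ := o.ok.mrg 1 (Λ := 2 * Λ) (δ := δ / 2) (by linarith) (half_pos δ0)
  refine ⟨fun d _ e => G.cs e β U (wA d e A), o.rel_of hD (A := fun d _ e => wA d e A)
    ((hw _ (.of_forall fun _ => trivial)).mono fun _ ⟨k, _, e⟩ => ⟨k, e⟩) (fun d d' e f R hf => ?_)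
    fun k l d d' e η M _ he hη => o.slt_sca M he one_le_two le_rfl (W := 16 * Λ) (by positivity)
      (wb_wA W le_rfl (by positivity) le_rfl δ0 M.1 ⟨half_le_self M.1.le, le_rfl⟩) (typ_wA t _ _)
        (le_trans ?_ hη)⟩
  · simp only [cb, yy, y d e f R hf, yl_smp, wA, Ope.Y0, Complex.ofReal_one, one_smul]
  · have q : 1000 ≤ G.Q k := (o.ok 0).1.cQ k (by norm_num)
    have := mul_pos ((o.ok 0).1.cP0 (l + 1) k) (o.nw0 (k := k) (w := ⟨1, 2 * Λ, δ / 2, n, n', C⟩) 2)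
    have e : 31 * (16 * Λ) ≤ G.Q k ^ 2 := by nlinarith [M.2.2.2.2.1.2]
    calc _ = G.cP (l + 1) k * G.nw k _ 2 * (31 * (16 * Λ) * G.Q k ^ 7) := by ring
      _ ≤ G.cP (l + 1) k * G.nw k _ 2 * (G.Q k ^ 2 * G.Q k ^ 7) := by gcongr
      _ = _ := by ring

end Lm

end Pool.Agent.Lib.MP_7f377f_mp.RG.Q4.En.Gl
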