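import Pool.Agent.Lib.MP_7f377f_mp.G.NsE1
import Pool.Agent.Lib.MP_7f377f_mp.G.NsB5
import Pool.Agent.Lib.MP_7f377f_mp.G.TyX
import Pool.Agent.Lib.MP_7f377f_mp.G.TyZ

/-! Words and products of two slots at the same scale. -/

noncomputable section

set_option linter.unusedSectionVars false
variable [Pool.Agent.Lib.MP_7f377f_mp.GD]

namespace Pool.Agent.Lib.MP_7f377f_mp.Ob

open MeasureTheory Weak Finset YM7 Pur
open RG.Q4.En.Ty (Gn)

variable {n e m : ℕ} [NeZero n] [MeasurableSpace SU2] [BorelSpace SU2] {h : Measure SU2}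
  [h.IsHaarMeasure] [IsProbabilityMeasure h] {a b ν R Λ δ : ℝ} {A : Pol}

theorem tf_act {f : Fin m → R4 → ℝ} (T : YM7.Tf f Λ δ) (g : Gn) :
    YM7.Tf (fun i y => f i ((Cm.gi g).symm y)) Λ δ := by
  obtain ⟨σ, hσ⟩ := Cm.abs_gi g
  obtain ⟨π, hπ⟩ := gi_perm g
  refine ⟨T.one, T.pos, fun i y hy l => hσ y l ▸ T.cube i _ hy _, fun i y => T.bd i _,
    fun i y z => (Cm.gi g).symm.dist_map y z ▸ T.lip i _ _, fun i j v y z hy hz => ?_⟩
  obtain ⟨l, hl⟩ := T.sep i j v _ _ hy hz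
  rw [← PiLp.sub_apply, ← map_sub, hπ] at hl
  exact ⟨_, hl⟩

theorem yy_act {f : R4 → ℝ} (hf : ∀ y, f y ≠ 0 → ∀ l, |y l| ≤ R) (g : Gn) :
    Ro.act (Cm.gi g) (yy e A ν f) = yy e (Ro.act (Cm.gi g) A) ν fun y => f ((Cm.gi g).symm y) := by
  obtain ⟨φ, hφ⟩ := Cm.gp_gi g
  obtain ⟨t, ht⟩ := smp_fin hf e
  rw [yy, yy, map_add, map_smul, Ro.act_X, smp, map_finsum _ (t.finite_toSet.subset fun x hx =>
    ht x fun u => hx (by simp [u])), smp, ← finsum_comp_equiv φ (f := fun x => (f _ : ℂ) • _)]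
  simp only [map_smul, Ro.act_τ, hφ, LinearIsometryEquiv.symm_apply_apply]

variable (h b n a) in
/-- centring on the lattice -/
def ctl (A : Pol) : Pol := A - ((ex h b n (evr h b n a A) : ℝ) : ℂ) • 1

theorem ctl_act (hn : Odd n) (g : Gn) :
    Ro.act (Cm.gi g) (ctl n h a b A) = ctl n h a b (Ro.act (Cm.gi g) A) := by
  rw [ctl, ctl, map_sub, map_smul, map_one, ex, ex, ← Weak.int_mp (mp_cg g) (F := evr h b n a A)
    (Complex.continuous_re.comp (cont_evc A))]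
  simp only [evr_cg hn]

theorem evr_ctl {O : Cfg n → ℝ} {κ τ : ℝ} (u : ∀ V, O V = evr h b n a ((κ : ℂ) • A) V + τ) (U : Cfg n) :
    O U - ex h b n O = κ * evr h b n a (ctl n h a b A) U := by
  have i : Integrable (evr h b n a A) (wilson h b n) :=
    (Complex.continuous_re.comp (cont_evc A)).integrable_of_hasCompactSupport
      (HasCompactSupport.of_compactSpace _)
  have e' : ∀ V, O V = κ * evr h b n a A V + τ := fun V => by
    rw [u, evr, map_smul, Pi.smul_apply, smul_eq_mul, Complex.re_ofReal_mul, evr]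
  simp only [ex, e', integral_add (i.const_mul κ) (integrable_const τ), integral_const_mul]
  rw [evr, evr, ctl, map_sub, map_smul, map_one]
  simp [ex, mul_sub]

end Pool.Agent.Lib.MP_7f377f_mp.Ob

namespace Pool.Agent.Lib.MP_7f377f_mp.RG.Q4.En.Gl

open Finset Filter Topology Real YM7 Pur Ob Ty
open Ope (sc)

/-- products of letters on the lattice -/
theorem Ok.wpr {G : Gl} (h : G.Ok) {b a t r N N' Λ δ c : ℝ} {J l n' s ρ e m : ℕ} [NeZero (G.N J)]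
    [NeZero n'] {D : (Cfg (G.N J) → ℝ) → ℝ → Prop} {R : Wc (G.N J)} {ν η : Fin m → ℝ}
    (W : G.Wpr b J l n' s ρ ⌊Λ / (a / t)⌋₊ (a / t) N D R) (w : Wsum R) (hn : G.N J = n' * s)
    (a0 : 0 < a) (t0 : 0 < t) (r0 : 0 ≤ r) (hs : a * s = (3 ^ e)⁻¹)
    (h1 : a * (G.dl J l + 2 * ρ : ℕ) ≤ δ * t) (h2 : 2 * (2 * (Λ * t) + r + 2 * a) < a * G.N J)
    (m1 : 1 ≤ m) (m2 : m ≤ 5) (η0 : ∀ i, 0 < η i) (N0 : 0 < N')
    (hN : |c * ∏ i, Λ * η i| * (N / G.sg l ^ m) ≤ N') (L : List Gn) :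
    ∀ (f : Fin m → R4 → ℝ) (A : Fin m → Pol), YM7.Tf f Λ δ → (∀ i, A i ∈ net.loc (Pur.Bx r) ∧
      Rc (A i) ∧ ∀ L, D (fun V => (η i)⁻¹ * evr (Fi.tr haar) b _ a (acL L (A i)) V) ((η i)⁻¹ * ν i)) →
      ∃ I, R (evr (Fi.tr haar) b _ a (acL L ((c : ℂ) •
        ∏ i, ctl (G.N J) (Fi.tr haar) a b (yy e (A i) (ν i) (sc t (f i)))))) I N' := by
  have : (Fi.tr haar).IsHaarMeasure := (inferInstance : haar.IsHaarMeasure)
  have q : ∀ {f : Fin m → R4 → ℝ}, YM7.Tf f Λ δ → ∀ i y, sc t (f i) y ≠ 0 → ∀ l, |y l| ≤ Λ * t :=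
    fun T i y hy l => by simpa [abs_le] using sc_cube T t0 (z := 0) (y := y) (by rwa [sub_zero]) l
  induction L using List.reverseRecOn with
  | append_singleton L g ih =>
    intro f A T H
    have u : ∀ L A, acL (L ++ [g]) A = acL L (Ro.act (Cm.gi g) A) := fun L A => (acL_acL L [g] A).symm
    have := ih _ (fun i => Ro.act (Cm.gi g) (A i)) (tf_act T g) fun i => ⟨bx_act g (H i).1,
      (H i).2.1.ren _, fun L => by simpa only [u] using (H i).2.2 (L ++ [g])⟩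
    have s : ∀ i, (sc t fun y => f i ((Cm.gi g).symm y)) = fun y => sc t (f i) ((Cm.gi g).symm y) :=
      fun i => funext fun y => by simp only [sc, map_smul]
    simpa only [u, map_smul, map_prod, ctl_act (h.N_odd J), yy_act (q T _), s] using this
  | nil =>
  intro f A T H
  have L0 := one_pos.trans_le T.one
  have s0 := div_pos a0 t0
  have y : ∀ x : Weak.Site 4 (G.N J), t⁻¹ • xp a x = xp (a / t) (x - 0) := fun x => by
    ext l
    simp only [xp, PiLp.smul_apply, smul_eq_mul, sub_zero]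
    ring
  have e1 : ∀ i (x : Weak.Site 4 (G.N J)), Λ⁻¹ * sc t (f i) (xp a x) = tsr Λ f (a / t) 0 i x 0 0 :=
    fun i x => by rw [sc, y, tsr]
  have v : 4 * Λ + 2 * (a / t) < a / t * G.N J := by
    rw [div_mul_eq_mul_div, lt_div_iff₀ t0, add_mul, mul_assoc 2, div_mul_cancel₀ _ t0.ne']
    linarith
  have P : Pc (G.N J) 0 (G.dl J l + 2 * ρ) (a / t)
      fun i (x : Weak.Site 4 (G.N J)) => Λ⁻¹ * sc t (f i) (xp a x) := by
    simp only [e1]
    exact ⟨fun i => ⟨fun x => T.le_one 0 0, fun x l => T.grad s0 (by linarith) 0 0 l⟩,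
      fun i x _ l => ⟨Nat.zero_le _, (x l).val_lt.le⟩, fun i j u x y => T.sp s0 (by linarith) (by
        rw [← mul_div_assoc, div_le_iff₀ t0]
        linarith) i j u x 0 0 y 0 0⟩
  obtain ⟨I, hI⟩ := W m m1 m2 _ _ _ (fun i => ⟨(H i).2.2 [], P.lp i, fun x hx j => by
      have := T.supp (e1 i x ▸ hx) j
      rw [abs_mul, abs_of_pos s0] at this
      refine Nat.le_floor ((le_div_iff₀' s0).2 ?_)
      rwa [Nat.cast_natAbs, Int.cast_abs]⟩)
    fun i _ j _ u => by simpa only [sub_zero, id] using Br.sep_sp (P.sp le_rfl 0) u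
  choose τ hτ using fun i => ltr_slot (h := Fi.tr haar) (b := b) (η := (η i)⁻¹) (ν := ν i) (c := Λ⁻¹)
    (q T i) (H i).1 hn a0 r0 hs (by linarith [mul_pos L0 t0])
  obtain ⟨I', e2⟩ := w Unit (fun _ => _) (fun _ => I) (fun _ => _) (fun _ => c * ∏ i, Λ * η i) N'
    (fun _ => hI) N0 (by simpa using hN)
  refine ⟨I', (congrArg (R · I' N') (funext fun U => ?_)).mp e2⟩
  have z := evr_prod (h := Fi.tr haar) (n := fun _ : Unit => G.N J) (a := fun _ => a) (b := fun _ => b)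
    (p := ()) (Y := fun i => ctl (G.N J) (Fi.tr haar) a b (yy e (A i) (ν i) (sc t (f i))))
    (fun i => (rc_yy (q T i) (H i).2.1).sub (Rc.one.smul _)) U
  simp only [acL, List.foldr, evr_ctl (hτ _), univ_unique, sum_singleton, mul_assoc,
    ← prod_mul_distrib]
  rw [evr, map_smul, Pi.smul_apply, smul_eq_mul, Complex.re_ofReal_mul, ← evr]
  refine congrArg _ (Eq.trans (prod_congr rfl fun i _ => ?_) z.symm)
  have := η0 i
  field_simp

variable (G : Gl) (β : ℕ × ℕ → ℝ) (U : Ultrafilter (ℕ × ℕ)) (S : Pol →ₗ[ℂ] ℂ) (Λ δ : ℝ)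

open Classical in
/-- the size of a slot at the level `l` -/
def zs' (n k l e : ℕ) (d d' : ℝ) (s : Cm.Sl) : ℝ :=
  (if G.Kk β U Λ δ d d' e s then G.cP (l + 1) k else 1) * G.zk n k l s.m

/-- the class `R` contains the words and the products of two slots -/
structure Np (u : Fin 2 → R4 → ℝ) (n : ℕ) (r₀ t d : ℝ) (k k' e : ℕ) (R : G.Wy) : Prop where
  ay : G.Ay β U k e (G.Q k * t) R
  wd : ∀ m A, 1 ≤ m → m ≤ 5 → Cm.Wo m Λ δ A → ∀ d' ∈ Set.Icc (t / 2) t,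
    G.Zy β U (r₀ * t) R (Aw d' e A) (G.Q k ^ n * G.bb k / G.bb k ^ m)
  pr : ∀ d' ∈ Set.Icc (d / 2) d, ∀ s s' : Cm.Sl, s.Ok 5 Λ δ → s'.Ok 5 Λ δ →
    G.Zy β U (r₀ * t) R (((((3 ^ e)⁻¹ / t) ^ 4 : ℝ) : ℂ) •
      (Ope.ctr S (s.Y d d' e (sc t (u 0))) * Ope.ctr S (s'.Y d d' e (sc t (u 1)))))
      (G.Q k ^ n * G.bb k * (G.zs' β U Λ δ n k' (k + 1) e d d' s / G.sg (k + 1)) *
        (G.zs' β U Λ δ n k' (k + 1) e d d' s' / G.sg (k + 1)))

/-- the letter `yy e A ν` and its images have the size `η` at the level `l` -/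
def Slo (k l : ℕ) (w : Wp) (d : ℝ) (e : ℕ) (A : Pol) (ν η : ℝ) : Prop := 0 < η ∧ ∃ A' : ℕ × ℕ → Pol,
  Ob.Cv U (Pur.Bx (2 * w.Λ * d)) A' A ∧ ∀ p, Rc (A' p) ∧ ∀ P, G.Mp k w d e p (β p) P → ∀ L,
    (G.wm p.1).Ds (β p) p.2 k l (nq p.1 e) P (Fin (w.M + 1)) (G.aa p / (2 * d)) w.c w.C
      (fun V => η⁻¹ * evr (Fi.tr haar) (β p) _ (G.aa p) (acL L (A' p)) V) (η⁻¹ * ν)

variable {G β U S Λ δ} {k l e M c n n₁ : ℕ} {w : Wp} {d d' C : ℝ} {s : Cm.Sl}

theorem slo_fld : G.Slo β U k l w d e 0 1 1 :=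
  ⟨one_pos, fun _ => 0, .base (zero_mem _), fun p => ⟨map_zero _, fun P _ L => by
    obtain ⟨g, e⟩ := acL_eq L
    simp only [e, evr, map_zero, Pi.zero_apply, Complex.zero_re, mul_zero, inv_one, mul_one]
    exact Ok.ds_fld abs_one.le⟩⟩

variable (o : G.Lm β U S) (h : G.Ok)
include o h

theorem Lm.slo (H : G.Mrg k ⟨M, 2 * Λ, δ / 2, c, n, C⟩ d) (hn : n ≤ n₁)
    (hd : d' ∈ Set.Icc (d / 2) d) (hs : s.Ok M Λ δ) : G.Slo β U k l ⟨M, 2 * Λ, δ / 2, c, n, C⟩ d e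
      (Bs d d' e s) 0 (G.zs' β U Λ δ n₁ k l e d d' s) := by
  have : (Fi.tr haar).IsHaarMeasure := (inferInstance : haar.IsHaarMeasure)
  obtain ⟨m1, m2, a, a', cc⟩ := hs
  have d0 := H.1
  have d1 : d ∈ Set.Icc (d / 2) d := ⟨half_le_self d0.le, le_rfl⟩
  have z : 0 < 16 * G.nw k ⟨M, 2 * Λ, δ / 2, c, n, C⟩ s.m := mul_pos (by norm_num) (o.nw0 _)
  have q : 1 ≤ G.Q k := h.Q1 k
  have b0 := h.b0 k
  have z1 : 1.01 ^ (k - l) * (16 * G.nw k ⟨M, 2 * Λ, δ / 2, c, n, C⟩ s.m) * G.Q k ^ 8 ≤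
      G.zk n₁ k l s.m := by unfold nw zk; gcongr
  have m3 := m2.trans M.le_succ
  have N := fun p : ℕ × ℕ => (o.ok p.1).1.N_odd p.2
  unfold zs'
  split_ifs with u
  · obtain ⟨L, T, E, B, B', hD, t, t', b, b', e1, e2, γ, γ', y, y', x⟩ := u
    have hη : G.cP (l + 1) k * (16 * G.nw k ⟨M, 2 * Λ, δ / 2, c, n, C⟩ s.m) * G.Q k ^ 8 ≤
        G.cP (l + 1) k * G.zk n₁ k l s.m := by
      rw [mul_assoc]
      exact mul_le_mul_of_nonneg_left ((mul_le_mul_of_nonneg_right (le_mul_of_one_le_left z.le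
        (one_le_pow₀ (by norm_num))) (by positivity)).trans z1) (h.cP0 _ _).le
    have η0 := (mul_pos (mul_pos (h.cP0 _ _) z) (by positivity)).trans_le hη
    have W := wb_aw (e := e) b d0 d1
    have W' := wb_aw (e := e) b' d0 hd
    have u := (wb_acL W L).mem d0
    have u' := (wb_acL W' L).mem d0
    rw [Bs, e1, e2, aw_acL, aw_acL]
    refine ⟨η0, fun p => (γ p : ℂ) • acL L (Aw d e B) + (γ' p : ℂ) • acL L (Aw d' e B'),
      .add (.smul ((Complex.continuous_ofReal.tendsto _).comp y) (.base u.1))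
        (.smul ((Complex.continuous_ofReal.tendsto _).comp y') (.base u'.1)),
      fun p => ⟨(u.2.smul _).add (u'.2.smul _), fun P hP L' => ?_⟩⟩
    have v : Wb s.m (2 * Λ) (δ / 2) d (16 * ((3 ^ e)⁻¹ / d) ^ 4)
        ((γ p : ℂ) • Aw d e B + (γ' p : ℂ) • Aw d' e B') := ((W.smul _).add (W'.smul _)).le (by
      rw [← add_mul]
      exact mul_le_of_le_one_left (by positivity) (x p).1)
    obtain ⟨g, e3⟩ := acL_eq L
    beta_reduce
    rw [mul_zero, e3, e3, ← map_smul, ← map_smul, ← map_add, ← e3, acL_acL]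
    refine (o.ok p.1).1.ds_orb (o.tu p) (o.ok p.1).2 hP.gk (hP.rep _ _ 16 m1 m3 (by norm_num) v) hD
      (evr_typ (N p) (typ_lin (typ_aw t) (typ_aw t') _ _)) (fun i hi => hP.hs ▸ (x p).2 i hi) _
      (evr_acL (N p) _ _ _ _) (fun L'' => ?_) (Lm.inv_le η0 hη)
    rw [evr_rf (N p)]
    exact hP.rep _ _ 16 m1 m3 (by norm_num) (wb_acL (wb_acL v _) _)
  · have v : Wb s.m (2 * Λ) (δ / 2) d (16 * ((3 ^ e)⁻¹ / d) ^ 4) (Bs d d' e s) :=
      (((wb_aw a d0 d1).smul _).add ((wb_aw a' d0 hd).smul _)).le (by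
        rw [← add_mul]
        exact mul_le_of_le_one_left (by positivity) cc)
    have hη := (mul_le_mul_of_nonneg_left (pow_le_pow_right₀ q (show 7 ≤ 8 by norm_num))
      (by positivity)).trans (z1.trans_eq (one_mul _).symm)
    have η0 := lt_of_lt_of_le (by positivity) hη
    refine ⟨η0, fun _ => _, .base (v.mem d0).1, fun p => ⟨(v.mem d0).2, fun P hP L => ?_⟩⟩
    rw [mul_zero]
    refine Ok.ds_gen (fun L' => ?_) (Lm.inv_le η0 hη)
    rw [evr_rf (N p)]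
    exact hP.rep _ _ 16 m1 m3 (by norm_num) (wb_acL (wb_acL v _) _)

theorem Lm.wrd (w : Wp) (Λ1 : 1 ≤ Λ) (δ0 : 0 < δ) : ∃ n : ℕ, ∀ P : ℕ → Prop, (∀ᶠ k in atTop, P k) →
    ∀ᶠ t in 𝓝[>] (0 : ℝ), ∃ k, P k ∧ 1 ≤ t * 3 ^ G.e (k + 1) ∧ t * 3 ^ G.e (k + 1) ≤ G.Q k ∧
      ∀ d k', G.Mrg k' w d → k + 1 < k' → G.Q k' ^ 2 * d ≤ t → ∀ᶠ e in atTop, ∃ R,
        G.Ay β U k e (G.Q k * t) R ∧ ∀ m, 1 ≤ m → m ≤ 5 → ∀ (f : Fin m → R4 → ℝ) (A : Fin m → Pol)
          (ν η : Fin m → ℝ), Adm f → YM7.Tf f Λ δ →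
          (∀ i, G.Slo β U k' (k + 1) w d e (A i) (ν i) (η i)) → G.Zy β U ((Λ + 2) * t) R
            (((((3 ^ e)⁻¹ / t) ^ 4 : ℝ) : ℂ) • ∏ i, Ope.ctr S (yy e (A i) (ν i) (sc t (f i))))
            (G.Q k ^ n * G.bb k * ∏ i, η i / G.sg (k + 1)) := by
  obtain ⟨Φ, τ, S₀, hΦ, hF, hL⟩ := o.lim
  have : (Fi.tr haar).IsHaarMeasure := (inferInstance : haar.IsHaarMeasure)
  obtain ⟨X, hX⟩ : ∃ X, X = 132 * 3 ^ (G.K0 + 1) / δ + 1 := ⟨_, rfl⟩
  have X1 : 1 ≤ X := hX ▸ le_add_of_nonneg_left (by positivity)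
  obtain ⟨n, hn⟩ := o.ok.nl ((Λ + 1) * (X * 3 ^ (G.K0 + 1))) w.M w.c w.C
  refine ⟨n + 2, fun P hP => ?_⟩
  filter_upwards [h.ex_jm (A := X) (by linarith) (((tendsto_sub_atTop_nat 1).eventually (hP.and
    (hn.and (h.ev_L (X * 3 ^ (G.K0 + 1) + Λ ^ 5 + 4 / δ))))).and (eventually_ge_atTop 1)),
    Ioc_mem_nhdsGT (show 0 < (8 * (Λ + 2))⁻¹ by positivity)]
    with t ⟨t0, l, ⟨⟨p0, p1, p2⟩, l1⟩, e1, e2⟩ ⟨_, t1⟩
  obtain ⟨k, rfl⟩ := Nat.exists_eq_add_of_le' l1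
  rw [Nat.add_sub_cancel] at p0 p1 p2
  rw [inv_eq_one_div, le_div_iff₀ (by positivity)] at t1
  have e3 := h.dk_le (by linarith) e2
  have d3 : 0 < 4 / δ := by positivity
  have d4 : 0 < X * 3 ^ (G.K0 + 1) := by positivity
  have d5 : 0 < Λ ^ 5 := by positivity
  have L := h.L1 k
  have y := (one_le_mul_of_one_le_of_one_le X1 (one_le_pow₀ (n := G.K0)
    (show (1 : ℝ) ≤ G.L (k + 1) by linarith [h.L1 (k + 1)]))).trans e1
  refine ⟨k, p0, y, ?_, fun d k' ⟨d0, _, _, m1, ⟨m2, m3⟩, m4⟩ lk hd => ?_⟩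
  · rw [h.e_succ, mul_left_comm]
    exact (mul_le_mul_of_nonneg_left e3 (by linarith)).trans
      ((le_of_eq (by ring)).trans (h.LK (A := X * 3 ^ (G.K0 + 1)) (by linarith)))
  have k1 : (G.L k : ℝ) ≤ G.Q k' := (Nat.cast_le.2 (h.L_mono (by omega))).trans (h.LQ k')
  have k2 : 0 < G.Q k' * d := mul_pos (h.Q0 k') d0
  have k3 : 4 * (G.Q k' * d) < δ * t := by
    have : 4 < δ * G.Q k' := (div_lt_iff₀' δ0).1 (by linarith)
    linarith only [mul_lt_mul_of_pos_right this k2, mul_le_mul_of_nonneg_left hd δ0.le]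
  have k4 : 2 * (G.Q k' * d) ≤ t := by
    linarith only [mul_le_mul_of_nonneg_right (show 2 ≤ G.Q k' by linarith) k2.le, hd]
  have k8 := le_mul_of_one_le_left d0.le (h.Q1 k')
  have k5 := mul_le_mul_of_nonneg_right m3 d0.le
  have k6 := mul_le_mul_of_nonneg_right m2 d0.le
  have k7 := mul_pos (one_pos.trans_le Λ1) t0
  have q := h.Q1 k
  have b0 := h.b0 k
  have σ0 := h.sg_pos (k + 1)
  filter_upwards [eventually_ge_atTop (G.e k'), (tendsto_inv_atTop_zero.comp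
    (tendsto_pow_atTop_atTop_of_one_lt (show (1 : ℝ) < 3 by norm_num))).eventually_le_const t0]
    with e ek eD
  change (3 ^ e : ℝ)⁻¹ ≤ t at eD
  have ke : G.e (k + 1) ≤ e := (h.sch.mono.monotone lk.le).trans ek
  have ke' : G.e k ≤ e := (h.sch.mono.monotone k.le_succ).trans ke
  have key : ∀ᶠ p in U, ∃ R : Wc (G.nn p), (Wsum R ∧ ∃ ρ : ℕ, G.aa p * ρ ≤ G.Q k * t ∧
      (G.wm p.1).Am (β p) p.2 k (nq p.1 e) (3 ^ (G.e p.2 - e)) ρ (G.aa p / (G.Q k * t)) R) ∧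
      ∃ P, G.Mp k' w d e p (β p) P ∧ ∀ m, 1 ≤ m → m ≤ 5 → ∀ (η ν : Fin m → ℝ), (∀ i, 0 < η i) →
        ∀ L (f : Fin m → R4 → ℝ) (A : Fin m → Pol), YM7.Tf f Λ δ →
        (∀ i, A i ∈ net.loc (Pur.Bx (2 * w.Λ * d)) ∧ Rc (A i) ∧ ∀ L, (G.wm p.1).Ds (β p) p.2 k' (k + 1)
          (nq p.1 e) P (Fin (w.M + 1)) (G.aa p / (2 * d)) w.c w.C (fun V => (η i)⁻¹ *
            evr (Fi.tr haar) (β p) _ (G.aa p) (acL L (A i)) V) ((η i)⁻¹ * ν i)) →
        ∃ I, R (evr (Fi.tr haar) (β p) _ (G.aa p) (acL L (((((3 ^ e)⁻¹ / t) ^ 4 : ℝ) : ℂ) • ∏ i,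
          ctl (G.nn p) (Fi.tr haar) (G.aa p) (β p) (yy e (A i) (ν i) (sc t (f i)))))) I
          (G.Q k ^ (n + 2) * G.bb k * ∏ i, η i / G.sg (k + 1)) := by
    filter_upwards [hL.le.trans hΦ (m4 e ek), o.grid ke] with p p3 ⟨g1, g2, g3, a4⟩
    obtain ⟨Pg, M⟩ := p3 _ (o.tu p)
    obtain ⟨o', pu⟩ := o.ok p.1
    have a0 := G.aa_pos p
    have a1 : G.aa p * 3 ^ (G.wm p.1).e p.2 = 1 := inv_mul_cancel₀ (by positivity)
    have a2 : 1 ≤ G.aa p * G.nn p := by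
      rw [aa_nn]
      exact le_add_of_nonneg_left (by positivity)
    have a5 : G.aa p ≤ t := (le_mul_of_one_le_right a0.le (by
      exact_mod_cast Nat.one_le_pow _ _ three_pos)).trans (a4.trans_le eD)
    have x1 : ∀ l ≤ k + 1, t * 3 ^ G.e l * (G.rt p.2 l * G.aa p) = t := fun l hl => by
      have : G.rt p.2 l * G.aa p * 3 ^ G.e l = 1 := o'.rt_a (hl.trans g1.le) a1
      linear_combination t * this
    have x0 := fun l => (mul_pos (Ok.rt_pos (G := G) p.2 l) a0).le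
    have x2 := (mul_le_mul_of_nonneg_right e1 (x0 _)).trans_eq (x1 _ le_rfl)
    have x3 := (x1 k k.le_succ).ge.trans (mul_le_mul_of_nonneg_right e3 (x0 _))
    have x8 := (le_mul_of_one_le_left (x0 _) y).trans_eq (x1 _ le_rfl)
    have x4 := M.rad
    obtain ⟨ρ, hρ⟩ : ∃ ρ, ρ = G.rt p.2 k' * (Pg.j * (G.p k').D + 1) + Pg.R + 1 := ⟨_, rfl⟩
    rw [← hρ] at x4
    have x5 : G.aa p * (G.dl p.2 (k + 1) + 2 * ρ : ℕ) ≤ δ * t := by
      have h1 := mul_le_mul_of_nonneg_left x2 δ0.le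
      have h2 : 0 ≤ δ * (G.L (k + 1) ^ G.K0 * (G.rt p.2 (k + 1) * G.aa p)) := by positivity
      rw [hX, mul_assoc, ← mul_assoc δ, mul_add, mul_div_cancel₀ _ δ0.ne'] at h1
      rw [dl]
      push_cast
      linarith only [h1, h2, x4, k3, k2]
    have x6 := (le_div_iff₀ (div_pos a0 t0)).1 (Nat.floor_le (show 0 ≤ Λ / (G.aa p / t) by positivity))
    rw [← mul_div_assoc, div_le_iff₀ t0] at x6
    obtain ⟨R, ρ', r1, r2, r3, r4⟩ := p1 p.1 (β p) p.2 k' (nq p.1 e) ρ ⌊Λ / (G.aa p / t)⌋₊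
      (3 ^ (e - G.e k)) Pg _ (G.aa p / t) (o.tu p) M.gk ⟨lk, k.succ_pos, by positivity,
        div_le_div_of_nonneg_left a0.le (by positivity) (by linarith only [k4, k8]), by
          rw [← mul_div_assoc, div_le_one t0]
          exact x8, m1, hρ.ge⟩ (by
        rw [M.hs, ← pow_add, add_comm, ← Nat.add_sub_assoc ke', Nat.sub_add_cancel M.he]
        rfl) (le_of_mul_le_mul_left (a := G.aa p) (by
          have := mul_le_mul_of_nonneg_left x3 (show 0 ≤ Λ + 1 by linarith)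
          change _ ≤ _ * (_ * (G.L k : ℝ) ^ G.K0 * G.rt p.2 k)
          linarith only [this, x4, x6, k4, k2]) a0)
    rw [M.hs] at r2 r4
    refine ⟨R, ⟨r3, ρ', (mul_le_mul_of_nonneg_left r1 a0.le).trans ?_, r2.anti
      (div_le_div_of_nonneg_left a0.le t0 (le_mul_of_one_le_left t0.le q))⟩, Pg, M,
      fun m j1 j2 η ν η0 => o'.wpr r4 r3 g2 a0 t0 (by positivity) a4 x5
        (lt_of_lt_of_le (by linarith only [k5, k4, a5, t1, k7, t0]) a2) j1 j2 η0 (mul_pos (by positivity)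
          (prod_pos fun i _ => div_pos (η0 i) σ0)) ?_⟩
    · rw [mul_left_comm, mul_comm (G.aa p)]
      exact mul_le_mul_of_nonneg_left x8 (h.Q0 k).le
    have z := prod_pos fun i (_ : i ∈ univ) => η0 i
    have z1 : (3 ^ e)⁻¹ / t * (3 ^ (e - G.e k) : ℕ) ≤ G.L k := by
      rw [Nat.cast_pow, Nat.cast_ofNat, pow_sub₀ _ three_ne_zero ke', div_mul_eq_mul_div,
        inv_mul_cancel_left₀ (by positivity), div_le_iff₀ t0, inv_le_iff_one_le_mul₀ (by positivity)]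
      rwa [h.e_succ, mul_left_comm, ← mul_assoc] at y
    rw [prod_mul_distrib, prod_div_distrib, prod_const, prod_const, card_univ, Fintype.card_fin,
      abs_of_pos (by positivity)]
    calc _ = ((3 ^ e)⁻¹ / t * (3 ^ (e - G.e k) : ℕ)) ^ 4 * Λ ^ m *
          (G.Q k ^ n * G.bb k * ((∏ i, η i) / G.sg (k + 1) ^ m)) := by
          change _ * (G.Q k ^ n * G.bb k * _ / G.sg (k + 1) ^ m) = _
          ring
      _ ≤ G.Q k * G.Q k * (G.Q k ^ n * G.bb k * ((∏ i, η i) / G.sg (k + 1) ^ m)) := by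
          gcongr
          · exact (pow_le_pow_left₀ (by positivity) z1 4).trans (h.LQ' k (by norm_num))
          · exact (pow_le_pow_right₀ Λ1 j2).trans (le_trans (by linarith only [p2, d3, d4]) (h.LQ k))
      _ = _ := by ring
  obtain ⟨R, hR⟩ := skolem.1 key
  refine ⟨R, hR.mono fun _ a => a.1, fun m j1 j2 f A ν η hf T H => ?_⟩
  choose η0 A' hA hr using H
  have q : ∀ i y, sc t (f i) y ≠ 0 → ∀ l, |y l| ≤ Λ * t :=
    fun i y hy l => by simpa [abs_le] using sc_cube T t0 (z := 0) (y := y) (by rwa [sub_zero]) l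
  have rc := fun i p => rc_yy (e := e) (ν := ν i) (q i) (hr i p).1
  refine ⟨fun p => (((((3 ^ e)⁻¹ / t) ^ 4 : ℝ) : ℂ) • ∏ i, ctl (G.nn p) (Fi.tr haar) (G.aa p) (β p)
    (yy e (A' i p) (ν i) (sc t (f i)))), .smul tendsto_const_nhds (.prod
      (B := fun i => {x | ∃ y, sc t (f i) y ≠ 0 ∧ ∀ l, |x l - y l| ≤ 2 * w.Λ * d}) (fun i _ => ?_)
      (fun i _ j _ u => Set.disjoint_left.2 ?_) fun i _ => ?_),
    fun p => (Rc.prod fun i _ => (rc i p).sub (Rc.one.smul _)).smul _, hR.mono fun p ⟨_, P, M, a⟩ L =>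
      a m j1 j2 η ν η0 L f _ T fun i => ⟨(hA i).mem.2 p, (hr i p).1, (hr i p).2 P M⟩⟩
  · rw [Ope.ctr, MvPolynomial.C_eq_smul_one]
    exact (cv_yy (q i) (hA i) tendsto_const_nhds ⟨(hf.1 i).1.comp_smul (inv_ne_zero t0.ne'),
      (hf.1 i).2.comp (by fun_prop), fun y hy => (Metric.mem_closure_iff.1 hy _ (by positivity)).imp
        fun x u => ⟨u.1, fun l => (PiLp.dist_apply_le y x l).trans u.2.le⟩⟩
      fun y _ u v => ⟨y, u, v⟩).cn hF hL (rc i)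
  · rintro x ⟨y, h1, h2⟩ ⟨y', h3, h4⟩
    obtain ⟨l, hl⟩ := sc_sep T t0 (z := 0) (x := y) (y := y') u (by rwa [sub_zero]) (by rwa [sub_zero])
    linarith only [abs_sub_le (y l) (x l) (y' l), abs_sub_comm (y l) (x l), h2 l, h4 l, hl, k5, k3, k2]
  · rintro x ⟨y, h1, h2⟩ l
    linarith only [k5, k4, k2, t0, q i y h1 l, h2 l, abs_sub_abs_le_abs_sub (x l) (y l)]

theorem Lm.nsp (Λ1 : 1 ≤ Λ) (δ0 : 0 < δ) {u : Fin 2 → R4 → ℝ}
    (hu : Adm u) : ∃ (n : ℕ) (r₀ : ℝ), ∀ P : ℕ → Prop, (∀ᶠ k in atTop, P k) →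
      ∀ᶠ t in 𝓝[>] (0 : ℝ), ∃ k, P k ∧ 1 ≤ t * 3 ^ G.e (k + 1) ∧ t * 3 ^ G.e (k + 1) ≤ G.Q k ∧
        ∀ d ∈ Set.Ioc 0 t, ∃ k', 1 ≤ d * 3 ^ G.e (k' + 1) ∧ d * 3 ^ G.e k' ≤ G.Q k' ∧
          (k + 1 < k' → G.Q k' ^ 2 * d ≤ t → ∀ᶠ e in atTop, ∃ R,
            G.Np β U S Λ δ u n r₀ t d k k' e R) := by
  obtain ⟨Λ₁, δ₁, T⟩ := hu.tf
  obtain ⟨c, n, C, H⟩ := o.ok.mrg 5 (Λ := 2 * Λ) (by linarith) (half_pos δ0)
  have δ2 := lt_min (half_pos δ0) T.pos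
  obtain ⟨n₁, W⟩ := o.wrd h ⟨5, 2 * Λ, δ / 2, c, n, C⟩ (le_max_of_le_right (b := 2 * Λ) T.one) δ2
  refine ⟨n + n₁ + 12001, max (2 * Λ) Λ₁ + 2, fun P hP => ?_⟩
  filter_upwards [W P hP, ev_ioc (H _ (.of_forall fun _ => trivial)), self_mem_nhdsWithin]
    with t ⟨k, p, k1, k2, W⟩ H (t0 : 0 < t)
  refine ⟨k, p, k1, k2, fun d hd => ?_⟩
  obtain ⟨k', -, m⟩ := H d hd
  refine ⟨k', m.2.1, m.2.2.1, fun a1 a2 => (W d k' m a1 a2).mono fun e ⟨R, M, W⟩ =>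
    ⟨R, M, fun j A j1 j2 hA d' hd' => ?_, fun d' hd' s s' hs hs' => ?_⟩⟩
  all_goals
    have q := h.Q1 k
    have b0 := h.b0 k
    have σ0 := h.sg_pos (k + 1)
  · obtain ⟨α, _, γ, f, a3, a4, e1⟩ := (wb_aw (e := e) hA t0 hd').mono (le_max_left _ Λ₁)
      (min_le_left _ δ₁) δ2 le_rfl
    have x0 : 0 < ((3 ^ e)⁻¹ / t : ℝ) ^ 4 := by positivity
    have := M.zy (c := fun x => γ x / ((3 ^ e)⁻¹ / t) ^ 4) (fun _ => [])
      (fun x => W j j1 j2 (f x) _ _ _ (a4 x).1 (a4 x).2 fun _ => slo_fld)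
      (N' := G.Q k ^ (n + n₁ + 12001) * G.bb k / G.bb k ^ j) (by positivity) ?_
    · refine e1 ▸ (congrArg (G.Zy β U _ R · _) (sum_congr rfl fun x _ => ?_)).mp this
      have ag : ∀ i, Adm ![sc t (f x i)] := fun i => ⟨fun y => by
        fin_cases y
        exact ((a4 x).1.smul (inv_pos.2 t0).ne').1 i, Subsingleton.pairwise⟩
      simp only [acL, List.foldr, yy_zero, Ope.ctr, o.cen (ag _), map_zero, sub_zero, smul_smul,
        ← Complex.ofReal_mul, div_mul_cancel₀ _ x0.ne']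
      rfl
    simp only [abs_div, abs_of_pos x0, ← sum_mul, ← sum_div, prod_const, card_univ, Fintype.card_fin]
    have b1 : (1 / G.sg (k + 1)) ^ j ≤ G.Q k ^ 12000 / G.bb k ^ j := by
      refine (pow_le_pow_left₀ (by positivity) ((div_le_div_iff₀ σ0 b0).2
        (by simpa using h.sg_ge k)) j).trans ?_
      rw [div_pow, ← pow_mul]
      gcongr
      omega
    calc _ ≤ G.Q k * (G.Q k ^ (n + n₁) * G.bb k * (G.Q k ^ 12000 / G.bb k ^ j)) := by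
          gcongr
          · exact ((div_le_iff₀ x0).2 a3).trans (h.cQ k (by norm_num))
          · omega
      _ = _ := by ring
  · have y := fun i {s : Cm.Sl} => y_eq (s := s) (d := d) (d' := d') (e := e) (f := sc t (u i))
      (R := Λ₁ * t) fun y hy l => by
        simpa [abs_le] using sc_cube T t0 (z := 0) (y := y) (by rwa [sub_zero]) l
    have z := fun {s : Cm.Sl} (hs : s.Ok 5 Λ δ) => o.slo (l := k + 1) (e := e) h m
      (show n ≤ n + n₁ + 12001 by omega) hd' hs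
    have z1 := (z hs).1
    have z2 := (z hs').1
    have w := W 2 one_le_two (by norm_num) u
      ![Bs d d' e s, Bs d d' e s'] (fun _ => 0) ![_, _] hu ⟨le_max_of_le_right T.one, δ2,
        fun i y a l => (T.cube i y a l).trans (le_max_right _ _), fun i y => (T.bd i y).trans
          (le_max_right _ _), fun i y z => (T.lip i y z).trans (by gcongr; exact le_max_right _ _),
        fun i j v y z a a' => (T.sep i j v y z a a').imp fun _ => (min_le_right _ _).trans⟩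
      (Fin.forall_fin_two.2 ⟨z hs, z hs'⟩)
    simp only [Fin.prod_univ_two, Matrix.cons_val_zero, Matrix.cons_val_one, ← mul_assoc, ← y] at w
    refine (congrArg (G.Zy β U _ R · _) (by simp [acL])).mp (M.zy (c := fun _ : Unit => 1) (fun _ => [])
      (fun _ => w) (by positivity) ?_)
    simp only [univ_unique, sum_singleton, abs_one, one_mul]
    gcongr
    exacts [by omega, le_rfl, le_rfl]

end Pool.Agent.Lib.MP_7f377f_mp.RG.Q4.En.Gl
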