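import Pool.Agent.Lib.MP_7f377f_mp.G.TsG

/-! The two scale law for centred clusters. -/

noncomputable section

namespace Pool.Agent.Lib.MP_7f377f_mp.Ope

open MeasureTheory Filter Topology Set Real YM7 Pur Metric

set_option linter.unusedSectionVars false

variable [GD] {S : Type} [Fintype S] [DecidableEq S] {κ : S → Type} [∀ s, Fintype (κ s)]
  [∀ s, DecidableEq (κ s)] {J : Finset S} {Λ δ L X : ℝ} {u : (Σ s, κ s) → R4 → ℝ} {ζ : S → R4}

theorem adm_of_tf {k : ℕ} {f : Fin k → R4 → ℝ} (H : Tf f X δ) (h : ∀ i, ContDiff ℝ 1 (f i)) :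
    Adm f := by
  refine ⟨fun i => ⟨HasCompactSupport.intro (isCompact_closedBall 0 (2 * X)) fun y hy =>
    not_not.1 fun e => hy (dist_le_two fun l => by simpa using H.cube i y e l), h i⟩,
    fun i j e => disjoint_left.2 fun x h1 h2 => ?_⟩
  obtain ⟨y, y1, y2⟩ := Metric.mem_closure_iff.1 h1 _ (half_pos H.pos)
  obtain ⟨z, z1, z2⟩ := Metric.mem_closure_iff.1 h2 _ (half_pos H.pos)
  obtain ⟨l, hl⟩ := H.sep i j e y z y1 z1
  linarith [dist_triangle_left y z x, show |y l - z l| ≤ dist y z from PiLp.dist_apply_le y z l]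

theorem Clq.tf (H : Clq J Λ δ u ζ) (δ0 : 0 < δ) (L1 : Λ + 1 ≤ L) (L2 : δ + 2 * Λ ≤ L * δ)
    (hX : L ^ 2 ≤ X) {k : ℕ} {e : Fin k → Σ s, κ s} (he : Function.Injective e) :
    Tf (fun i => us J u 1 L ζ (e i)) X (δ / 2) ∧ Adm fun i => us J u 1 L ζ (e i) := by
  have Λ1 := H.one
  have L0 : 0 < L := by linarith
  have X1 : (L + 1) * Λ ≤ X := by nlinarith
  have X2 : Λ ≤ X := by nlinarith
  have a : ∀ p y, us J u 1 L ζ p y = u p (if p.1 ∈ J then L⁻¹ • y else y - L • ζ p.1) :=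
    fun p y => by rw [us, inv_one, one_smul, apply_ite (u p)]
  have t : Tf (fun i => us J u 1 L ζ (e i)) X (δ / 2) := by
    refine ⟨by linarith, half_pos δ0, fun i y h l => (PiLp.norm_apply_le y l).trans
      ((H.us_sup L0 _ y h).trans X1), fun i y => a _ y ▸ (H.bd _ _).trans X2, fun i y z => ?_,
      fun i j c y z h1 h2 => ?_⟩
    · rw [a, a]
      refine (H.lip _ _ _).trans (mul_le_mul X2 ?_ dist_nonneg (by linarith))
      split_ifs
      · rw [dist_smul₀, norm_inv, Real.norm_of_nonneg L0.le]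
        exact mul_le_of_le_one_left dist_nonneg (inv_le_one_of_one_le₀ (by linarith))
      · rw [dist_sub_right]
    · by_contra! c'
      have d1 := dist_le_two fun l => (c' l).le
      have d2 : dist y z ≠ δ := fun e' => by
        have := EuclideanSpace.dist_sq_eq y z
        rw [e', Fin.sum_univ_four] at this
        have b := fun l => pow_lt_pow_left₀ (c' l) (abs_nonneg _) two_ne_zero
        simp only [Real.dist_eq] at this
        linarith [b 0, b 1, b 2, b 3]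
      refine d2 (le_antisymm (by linarith) ?_)
      rw [a] at h1 h2
      have s := H.sep _ _ (he.ne c) _ _ h1 h2
      have b : ∀ p y, u p (if p.1 ∈ J then L⁻¹ • y else y - L • ζ p.1) ≠ 0 → ‖y - L •
          if p.1 ∈ J then (if p.1 ∈ J then L⁻¹ • y else y - L • ζ p.1) else ζ p.1‖ ≤ Λ :=
        fun p y h => by
          by_cases c : p.1 ∈ J
          · simpa [c, L0.ne'] using zero_le_one.trans Λ1
          · simpa only [if_neg c] using H.sup _ _ h
      rw [dist_comm, dist_eq_norm]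
      by_cases c : (e i).1 = (e j).1
      · rw [if_pos c, ← c] at s
        split_ifs at s
        · rw [← smul_sub, norm_smul, norm_inv, Real.norm_of_nonneg L0.le] at s
          exact s.trans (mul_le_of_le_one_left (norm_nonneg _) (inv_le_one_of_one_le₀ (by linarith)))
        · rwa [sub_sub_sub_cancel_right] at s
      · rw [if_neg c] at s
        have b1 := b _ _ h1
        have b2 := b _ _ h2
        generalize (if (e i).1 ∈ J then _ else _ : R4) = v at s b1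
        generalize (if (e j).1 ∈ J then _ else _ : R4) = w at s b2
        have b3 := norm_sub_le (z - y) ((z - L • w) - (y - L • v))
        rw [show z - y - ((z - L • w) - (y - L • v)) = L • (w - v) by module, norm_smul,
          Real.norm_of_nonneg L0.le] at b3
        linarith [norm_sub_le (z - L • w) (y - L • v), mul_le_mul_of_nonneg_left s L0.le]
  refine ⟨t, adm_of_tf t fun i => ?_⟩
  unfold us
  split_ifs
  · exact (H.reg _).comp (contDiff_id.const_smul _)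
  · exact (H.reg _).comp ((contDiff_id.sub contDiff_const).const_smul _)

theorem LS_equiv {ι ι' : Type} [Fintype ι] [DecidableEq ι] [Fintype ι'] [DecidableEq ι']
    (e : ι ≃ ι') (κ₀ : Fin 4 → Fin 4 → (Fin 4 → ℤ) → ℝ) (s : ℝ) (f : ι' → R4 → ℝ) :
    LS κ₀ s (fun i => f (e i)) = LS κ₀ s f := by
  rw [LS, LS, ← (e.arrowCongr (Equiv.refl _)).symm.tsum_eq]
  refine tsum_congr fun z => ?_
  rw [← e.prod_comp, ← Lb.lq_reindex e]
  simp

theorem us_eq {d D : ℝ} (d0 : d ≠ 0) (p : Σ s, κ s) :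
    us J u d D ζ p = fun y => us J u 1 (D / d) ζ p (d⁻¹ • y) := by
  funext y
  simp only [us, inv_one, one_smul, smul_smul, smul_sub, inv_div, div_mul_cancel_left₀ d0,
    div_eq_inv_mul D, mul_inv, inv_inv, mul_right_comm d, mul_inv_cancel₀ d0, one_mul]

theorem ctr_prod (W : Pol →ₗ[ℂ] ℂ) (Y : S → Pol) : W (∏ s, ctr W (Y s)) =
    ∑ T : Finset S, (∏ s ∈ Tᶜ, -W (Y s)) * W (∏ s ∈ T, Y s) := by
  simp only [ctr, sub_eq_add_neg, ← map_neg MvPolynomial.C, Fintype.prod_add, map_sum,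
    ← map_prod MvPolynomial.C, mul_comm (∏ _ ∈ _, Y _), MvPolynomial.C_mul', map_smul, smul_eq_mul]

/-- the two scale law for centred clusters -/
theorem tsN {W : Pol →ₗ[ℂ] ℂ} {X : ℝ → ℝ} (hA : Afu W X) : TsN W X := by
  intro S _ _ κ _ _ J o hJ Λ δ δ0 η η0
  obtain ⟨κ₀, s, μ, hκ, tX, -, ts, tμ, H⟩ := hA
  obtain ⟨n, hn⟩ : ∃ n, n = Fintype.card (Σ s, κ s) := ⟨_, rfl⟩
  obtain ⟨c, hc⟩ : ∃ c, c = Fintype.card S := ⟨_, rfl⟩
  obtain ⟨R, hR⟩ : ∃ R, R = |qc| + 1 := ⟨_, rfl⟩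
  have R1 : 1 ≤ R := hR ▸ le_add_of_nonneg_left (abs_nonneg _)
  have Rn : 1 ≤ R ^ n := one_le_pow₀ R1
  obtain ⟨B, hB⟩ := gauss hκ o hJ Λ δ0 (show 0 < η / 3 / R ^ n by positivity)
  obtain ⟨r, hr, r0 : 0 < r⟩ := (hB.and self_mem_nhdsWithin).exists
  choose M hM using fun k : Fin (n + 1) => LS_bd hκ k (half_pos δ0)
  obtain ⟨N, hN⟩ := Finite.exists_le M
  refine ⟨max (max r⁻¹ (Λ + 1)) (1 + 2 * Λ / δ), ?_⟩
  have t1 : Tendsto (fun d => |μ d ^ n - qc ^ n| * B) (𝓝[>] 0) (𝓝 0) := by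
    simpa using ((tμ.pow n).sub_const (qc ^ n)).abs.mul_const B
  filter_upwards [H n ((5 * n + 1) * (c + 1) + 2 * c + 1) _ (half_pos δ0), self_mem_nhdsWithin,
    ts.eventually (eventually_all.2 hM), ts.eventually (Ioc_mem_nhdsGT r0),
    tμ.abs.eventually_le_const (show |qc| < R by linarith),
    tX.eventually_ge_atTop (R ^ n * max N 0 + 1), tX.eventually_ge_atTop (2 ^ c * (c + 1) / (η / 3)),
    t1.eventually_le_const (show 0 < η / 3 by positivity)]
    with d h1 (d0 : 0 < d) h2 h3 h4 h5 h6 h7 D hL hX u ζ hu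
  rw [← le_div_iff₀ d0, max_le_iff, max_le_iff] at hL
  simp only [us_eq d0.ne', ← hn]
  generalize D / d = L at hL hX
  generalize X d = x at *
  generalize μ d = m at *
  generalize s d = t at *
  generalize log d⁻¹ = ℓ at *
  have N0 : 0 ≤ R ^ n * max N 0 := by positivity
  have x1 : 1 ≤ x := by linarith
  obtain ⟨Z, hZ⟩ : ∃ Z, Z = x ^ (5 * n + 1) := ⟨_, rfl⟩
  obtain ⟨ε, hε⟩ : ∃ ε, ε = (x ^ ((5 * n + 1) * (c + 1) + 2 * c + 1))⁻¹ := ⟨_, rfl⟩
  have Z1 : 1 ≤ Z := hZ ▸ one_le_pow₀ x1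
  have ε0 : 0 ≤ ε := by rw [hε]; positivity
  have key : ∀ {ι : Type} [Fintype ι] [DecidableEq ι] (e : ι → Σ s, κ s), Function.Injective e →
      ∀ a b : ℂ, a = (∏ _i : ι, (ℓ : ℂ)) *
        W (∏ i, MvPolynomial.X fun y => us J u 1 L ζ (e i) (d⁻¹ • y)) →
      b = (∏ _i : ι, (m : ℂ)) * LS κ₀ t (fun i => us J u 1 L ζ (e i)) →
      ‖a‖ ≤ Z ∧ ‖b‖ ≤ Z ∧ ‖a - b‖ ≤ ε := fun {ι} _ _ e he a b ha hb => by
    have k1 : Fintype.card ι ≤ n := hn ▸ Fintype.card_le_of_injective e he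
    obtain ⟨t1, t2⟩ := hu.tf δ0 hL.1.2 (by
      have := mul_le_mul_of_nonneg_right hL.2 δ0.le
      rwa [add_mul, one_mul, div_mul_cancel₀ _ δ0.ne'] at this) hX
      (he.comp (Fintype.equivFin ι).symm.injective)
    have a1 := h1 _ k1 _ t2 t1
    have a2 := h2 ⟨_, Nat.lt_succ_of_le k1⟩ x _ t1
    simp only [Function.comp] at a1 a2
    rw [LS_equiv (Fintype.equivFin ι).symm κ₀ t fun i => us J u 1 L ζ (e i)] at a1 a2
    rw [mon, (Fintype.equivFin ι).symm.prod_comp fun i => MvPolynomial.X fun y =>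
      us J u 1 L ζ (e i) (d⁻¹ • y), ← le_div_iff₀' (by positivity), one_div, ← hε] at a1
    rw [Finset.prod_const, Finset.card_univ] at ha hb
    push_cast at a1
    rw [← ha, ← hb] at a1
    have a3 : ‖b‖ ≤ R ^ n * max N 0 * x ^ (5 * n) := by
      rw [hb, norm_mul, norm_pow, Complex.norm_real, Complex.norm_real, mul_assoc]
      exact mul_le_mul ((pow_le_pow_left₀ (norm_nonneg _) h4 _).trans (pow_le_pow_right₀ R1 k1))
        (a2.trans (mul_le_mul ((hN _).trans (le_max_left _ _)) (pow_le_pow_right₀ x1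
          (Nat.mul_le_mul_left 5 k1)) (by positivity) (le_max_right _ _))) (norm_nonneg _)
        (by positivity)
    have a4 : ε ≤ 1 := hε ▸ inv_le_one_of_one_le₀ (one_le_pow₀ x1)
    have a5 := one_le_pow₀ (n := 5 * n) x1
    have a6 := mul_le_mul_of_nonneg_right h5 (zero_le_one.trans a5)
    rw [← pow_succ', ← hZ] at a6
    exact ⟨by linarith [norm_sub_norm_le a b], by linarith, a1⟩
  obtain ⟨g1, g2⟩ := hr t L h3.1 h3.2 hL.1.1 u ζ hu
  generalize Lm (GD.d / 2) J o u ζ = I at g1 g2 ⊢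
  obtain ⟨G, hG⟩ : ∃ G, G = ∑ T : Finset S, (∏ a ∈ Tᶜ, -LS κ₀ t fun x => us J u 1 L ζ ⟨a, x⟩) *
    (LS κ₀ t fun q : Σ a : T, κ a => us J u 1 L ζ ⟨q.1, q.2⟩) := ⟨_, rfl⟩
  rw [← hG] at g2
  have g3 : ‖(ℓ ^ n : ℂ) * W (∏ s, ctr W (∏ x, MvPolynomial.X fun y =>
      us J u 1 L ζ ⟨s, x⟩ (d⁻¹ • y))) - m ^ n * G‖ ≤ 2 ^ c * ((c + 1) * Z ^ (c + 1) * ε) := by
    rw [ctr_prod, hG]
    push_cast
    rw [Finset.mul_sum, Finset.mul_sum, ← Finset.sum_sub_distrib]
    refine (norm_sum_le _ _).trans ((Finset.sum_le_card_nsmul _ _ _ fun T _ => ?_).trans_eq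
      (by rw [Finset.card_univ, Fintype.card_finset, nsmul_eq_mul, ← hc, Nat.cast_pow, Nat.cast_ofNat]))
    have e : ∀ (v : ℂ) (a : S → ℂ) (b : ℂ), v ^ n * ((∏ s ∈ Tᶜ, -a s) * b) =
        (∏ s ∈ Tᶜ, -((∏ _x : κ s, v) * a s)) * ((∏ _q : Σ s : T, κ s, v) * b) := fun v a b => by
      rw [hn, ← Finset.card_univ, ← Finset.prod_const, ← prod_split T]
      simp only [← mul_neg, Finset.prod_mul_distrib]
      ring
    rw [e, e, ← Finset.prod_coe_sort T, ← Fintype.prod_sigma' (α := fun s : T => κ s)]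
    obtain ⟨b1, -, b3⟩ := key (fun q : Σ s : T, κ s => ⟨q.1, q.2⟩)
      (Function.Injective.sigma_map Subtype.val_injective fun _ => Function.injective_id) _ _ rfl rfl
    have b4 := fun s => key (fun x : κ s => ⟨s, x⟩) sigma_mk_injective _ _ rfl rfl
    have cT : Tᶜ.card ≤ c := hc ▸ Finset.card_le_univ _
    have b5 := norm_prod_sub Tᶜ Z1 ε0 fun s _ => ⟨(norm_neg _).trans_le (b4 s).1,
      (norm_neg _).trans_le (b4 s).2.1, by rw [neg_sub_neg, norm_sub_rev]; exact (b4 s).2.2⟩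
    have b6 := (Finset.norm_prod_le Tᶜ _).trans ((Finset.prod_le_prod (fun _ _ => norm_nonneg _)
      fun s _ => (norm_neg _).trans_le (b4 s).2.1).trans_eq (Finset.prod_const Z))
    have f : ∀ a b a' b' : ℂ, a * b - a' * b' = (a - a') * b + a' * (b - b') := fun _ _ _ _ => by ring
    rw [f]
    refine (norm_add_le _ _).trans ((add_le_add (norm_mul_le _ _) (norm_mul_le _ _)).trans ?_)
    refine le_trans (b := Tᶜ.card * Z ^ Tᶜ.card * ε * Z + Z ^ Tᶜ.card * ε) (add_le_add ?_ ?_) ?_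
    · exact mul_le_mul b5 b1 (norm_nonneg _) (by positivity)
    · exact mul_le_mul b6 b3 (norm_nonneg _) (by positivity)
    calc _ ≤ c * Z ^ c * ε * Z + Z ^ (c + 1) * ε := by gcongr; omega
      _ = _ := by ring
  have L1 : 1 ≤ L := by linarith [hL.1.2, hu.one]
  have g4 : L ^ (4 * Jᶜ.card) * (2 ^ c * ((c + 1) * Z ^ (c + 1) * ε)) ≤ η / 3 := by
    have : L ^ (4 * Jᶜ.card) ≤ x ^ (2 * c) := by
      rw [show 4 * Jᶜ.card = 2 * (2 * Jᶜ.card) by ring, pow_mul]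
      exact (pow_le_pow_left₀ (by positivity) hX _).trans (pow_le_pow_right₀ x1
        (Nat.mul_le_mul_left 2 (hc ▸ Finset.card_le_univ _)))
    rw [div_le_iff₀ (by positivity), ← div_le_iff₀' (by positivity)] at h6
    refine (mul_le_mul_of_nonneg_right this (by positivity)).trans (le_of_eq_of_le ?_ h6)
    rw [hZ, hε, ← pow_mul, pow_succ x (_ + 2 * c), pow_add x (_ * _)]
    field_simp
  have g5 : |m ^ n| ≤ R ^ n := abs_pow m n ▸ pow_le_pow_left₀ (abs_nonneg _) h4 _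
  rw [le_div_iff₀' (by positivity)] at g2
  generalize W _ = w at g3 ⊢
  rw [show ((ℓ ^ n * L ^ (4 * Jᶜ.card) : ℝ) : ℂ) * w - (qc ^ n * I : ℝ) =
    (L ^ (4 * Jᶜ.card) : ℝ) * ((ℓ ^ n : ℂ) * w - m ^ n * G) +
    ((m ^ n * (L ^ (4 * Jᶜ.card) * G - I) : ℝ) + ((m ^ n - qc ^ n) * I : ℝ)) by push_cast; ring]
  refine (norm_add_le _ _).trans ((add_le_add le_rfl (norm_add_le _ _)).trans ?_)
  rw [norm_mul, Complex.norm_real, Complex.norm_real, Complex.norm_real, norm_mul, norm_mul,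
    Real.norm_of_nonneg (by positivity)]
  linarith [mul_le_mul_of_nonneg_left g3 (show 0 ≤ L ^ (4 * Jᶜ.card) by positivity),
    mul_le_mul_of_nonneg_right g5 (norm_nonneg (L ^ (4 * Jᶜ.card) * G - I)),
    mul_le_mul_of_nonneg_left g1 (abs_nonneg (m ^ n - qc ^ n)), Real.norm_eq_abs (m ^ n),
    show ‖m ^ n - qc ^ n‖ * ‖I‖ = |m ^ n - qc ^ n| * |I| from rfl,
    show ‖m ^ n‖ * ‖L ^ (4 * Jᶜ.card) * G - I‖ = |m ^ n| * ‖L ^ (4 * Jᶜ.card) * G - I‖ from rfl,
    show R ^ n * ‖L ^ (4 * Jᶜ.card) * G - I‖ ≤ η / 3 from g2]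

end Pool.Agent.Lib.MP_7f377f_mp.Ope
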