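import Pool.Agent.Lib.MP_7f377f_mp.G.S15
import Pool.Agent.Lib.MP_7f377f_mp.G.TyX
import Pool.Agent.Lib.MP_7f377f_mp.G.TsN
import Pool.Agent.Lib.MP_7f377f_mp.G.CmA

/-! The fields of dimension four of the continuum limit. -/

noncomputable section

set_option linter.unusedSectionVars false
variable [Pool.Agent.Lib.MP_7f377f_mp.GD]

namespace Pool.Agent.Lib.MP_7f377f_mp.RG.Q4.En.Rn

open YM7 Filter Topology Real Pur Set Ope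

variable {G : Gl} {β : ℕ × ℕ → ℝ} {U : Ultrafilter (ℕ × ℕ)}
  {S₀ : ∀ {k : ℕ}, (Fin k → R4 → ℝ) → ℝ} {S : Pol →ₗ[ℂ] ℂ} (R : Rn G β U S₀ S)
include R

theorem sf : ∃ K, Cm.Sf S K :=
  (Cm.qr_of R.inp.st R.lift R.inp.lin R.prod).imp fun _ h =>
    ⟨R.inp, R.inv, fun _ => R.lm.cen, h.1, h.2⟩

theorem kin (M : ℕ) {Λ δ : ℝ} (Λ1 : 1 ≤ Λ) (δ0 : 0 < δ) :
    Cm.Kin S M Λ δ 50⁻¹ (G.Kk β U Λ δ) := by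
  obtain ⟨X, hX, hq⟩ := afu R.ok R.tu R.lim'
  exact R.lm.kin (tsN hX) (hX.elim fun _ h => h.elim fun _ h => h.elim fun _ h => h.2.2.1) hq M
    Λ1 δ0

/-- the approximants of the fields with labels -/
theorem res : ∃ K h ω Λ δ, ∃ (L : Lb.Cl → ℕ → ℝ) (N : _), Cm.Sf S K ∧ Cm.Dat (GD.d / 2) h ω Λ δ ∧
    (∀ Λ δ, 1 ≤ Λ → 0 < δ → ∃ a Kl, Cm.Kin S 5 Λ δ a Kl) ∧ (∀ n, 0 < L .t n) ∧
    (∀ ε > (0 : ℝ), ∀ᶠ n in atTop, L .t n ≤ Cm.dn n ^ (-ε)) ∧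
      Cm.Res S (4 * K) (atTop.curry Cm.UU) (Cm.Oa h ω S L) N := by
  obtain ⟨K, hS⟩ := R.sf
  have I := fun Λ δ (a : 1 ≤ Λ) (b : 0 < δ) => (⟨_, _, R.kin 5 a b⟩ : ∃ a Kl, Cm.Kin S 5 Λ δ a Kl)
  obtain ⟨h, ω, Λ, δ, L, N, H, r⟩ := Cm.core' hS I
  exact ⟨K, h, ω, Λ, δ, L, N, hS, H, I, r⟩

end Pool.Agent.Lib.MP_7f377f_mp.RG.Q4.En.Rn
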