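import Pool.Agent.Lib.MP_7f377f_mp.G.Op3
import Pool.Agent.Lib.MP_7f377f_mp.G.S18

/-! The windows for the product of two composite fields. -/

noncomputable section

set_option linter.unusedSectionVars false
variable [Pool.Agent.Lib.MP_7f377f_mp.GD]

namespace Pool.Agent.Lib.MP_7f377f_mp.RG.Q4.En

open YM7 Filter Topology Real Pur Set Ope

variable {G : Gl} {β : ℕ × ℕ → ℝ} {U : Ultrafilter (ℕ × ℕ)}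
  {S₀ : ∀ {k : ℕ}, (Fin k → R4 → ℝ) → ℝ} {S : Pol →ₗ[ℂ] ℂ} {Λ δ : ℝ}

/-- the fields of the input that depend on the ratio only -/
structure Gl.Wr (G : Gl) (S : Pol →ₗ[ℂ] ℂ) (Λ δ a : ℝ) (Kl : ℝ → ℝ → ℕ → Cm.Sl → Prop) (q : ℕ)
    (ρ : ℝ → ℝ) : Prop where
  win : ∃ W, Cm.Tsc S W ∧ (∀ M, ∀ᶠ D in 𝓝[>] (0 : ℝ), ∀ r, W D r → M ≤ r) ∧
    ∀ᶠ t in 𝓝[>] (0 : ℝ), W (ρ t * t) (ρ t)
  lim : Tendsto (fun t => ρ t * t) (𝓝[>] 0) (𝓝[>] 0)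
  lg : ∀ᶠ t in 𝓝[>] (0 : ℝ), ρ t ≤ log (ρ t * t)⁻¹
  inn : ∃ W, Cm.Wnd W ∧ Cm.Tsc S W ∧
    (∀ j ≤ 2, ∀ f : Fin j → R4 → ℝ, Adm f → Cm.Clu S Λ δ a Kl W f) ∧ ∀ᶠ t in 𝓝[>] (0 : ℝ), W t (ρ t)
  ts3 : Cm.Ts3 S ρ
  top : Tendsto ρ (𝓝[>] 0) atTop
  lg' : ∀ᶠ t in 𝓝[>] (0 : ℝ), 4 * ρ t ≤ log t⁻¹
  big : ∀ᶠ t in 𝓝[>] (0 : ℝ), ∀ D, D = t ∨ D = ρ t * t → ∀ l, 1 ≤ D * 3 ^ G.e l →
    D * 3 ^ G.e l ≤ G.Q l → G.Q l ^ q ≤ ρ t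

theorem Rn.win2 (R : Rn G β U S₀ S) (Λ1 : 1 ≤ Λ) (δ0 : 0 < δ) (q : ℕ) :
    ∃ ρ, G.Wr S Λ δ 50⁻¹ (G.Kk β U Λ δ) q ρ := by
  obtain ⟨X, hX, hq⟩ := afu R.ok R.tu R.lim'
  have o : (G.wm 0).Lm β U S := ⟨R.lm.ok, R.lm.tu, R.lm.st, R.lm.lim⟩
  have hX' : ∀ᶠ d in 𝓝[>] (0 : ℝ), X d ≤ log d⁻¹ :=
    hX.elim fun _ h => h.elim fun _ h => h.elim fun _ h => h.2.2.1
  have h := (R.ok 0).1
  obtain ⟨q', H⟩ := o.clw h (tsN hX) hX' 5 2 Λ1 δ0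
  obtain ⟨W, ρ, w⟩ := h.wnd hX' hq (max q q')
  obtain ⟨t, c⟩ := H W ρ (w.mono h (le_max_right _ _))
  have top : Tendsto ρ (𝓝[>] 0) atTop := tendsto_atTop.2 fun M =>
    (w.mem.and (w.wnd.top M)).mono fun _ a => a.2 _ a.1.2.1
  refine ⟨ρ, ⟨W, t, w.wnd.top, w.mem.mono fun _ a => a.2.2.1⟩, w.lim, ?_,
    ⟨W, w.wnd, t, c, w.mem.mono fun _ a => a.2.1⟩, Cm.ts3_of hX top ?_, top,
    (w.mem.and w.lg).mono fun _ a => a.2 _ a.1.2.1, w.mem.mono ?_⟩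
  · filter_upwards [w.mem, w.lim.eventually w.lg] with t a b
    linarith [b _ a.2.2.1, a.1]
  · filter_upwards [w.mem] with t a d hd
    have r0 : ρ t ≠ 0 := (one_pos.trans_le a.1).ne'
    refine w.sq _ _ a.2.2.2 d ?_
    rwa [mul_left_comm 4, mul_div_mul_left _ _ r0, mul_div_mul_left _ _ r0]
  · rintro t a _ (rfl | rfl)
    exacts [(w.mono h (le_max_left _ _)).big _ _ a.2.1, (w.mono h (le_max_left _ _)).big _ _ a.2.2.1]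

end Pool.Agent.Lib.MP_7f377f_mp.RG.Q4.En
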