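import Pool.Agent.Lib.MP_7f377f_mp.G.OpL

/-! The two scale law for words with labels. -/

noncomputable section

namespace Pool.Agent.Lib.MP_7f377f_mp.Cm
variable [Pool.Agent.Lib.MP_7f377f_mp.GD]
set_option linter.unusedSectionVars false

open MeasureTheory Filter Topology Set Real YM7 Pur MvPolynomial
open Ope (gp sc ctr Mx Dt)
open Ro (Iso act)
open Lb (Lab Pl Cl rho mx pc)
open RG.Q4.En.Ty (Gn Ty sb Det)

variable {S : Pol →ₗ[ℂ] ℂ} {Λ δ C : ℝ} {h : R4 → ℝ} {ω : ∀ l : Cl, (Fin l.m → R4) → Lab ℝ}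
  {W : ℝ → ℝ → Prop}

theorem Tw.wk {m : ℕ} {Λ' δ' : ℝ} {u : Fin m → R4 → ℝ} (h : Tw Λ δ u) (h1 : Λ ≤ Λ')
    (h2 : δ' ≤ δ) (h3 : 0 < δ') : Tw Λ' δ' u :=
  let ⟨x, y, z⟩ := h
  ⟨x, ⟨y.one.trans h1, h3, fun i v e l => (y.cube i v e l).trans h1, fun i v => (y.bd i v).trans h1,
    fun i v w => (y.lip i v w).trans (mul_le_mul_of_nonneg_right h1 dist_nonneg),
    fun i j e v w a b => (y.sep i j e v w a b).imp fun _ => h2.trans⟩, z⟩

theorem Wn.mono {m : ℕ} {Λ' δ' C' : ℝ} {A : Pol} {b : Lab ℝ} (h : Wn m Λ δ C A b) (h1 : Λ ≤ Λ')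
    (h2 : 0 < δ → δ' ≤ δ) (h3 : 0 < δ') (h4 : C ≤ C') : Wn m Λ' δ' C' A b :=
  let ⟨ι, s, c, u, a, t, e⟩ := h
  ⟨ι, s, c, u, a.trans h4, fun i hi => (t i hi).wk h1 (h2 (t i hi).2.1.pos) h3, e⟩

theorem ctr_Yl {A : Pol} {D d : ℝ} {e : ℕ} {f : R4 → ℝ} {s : Finset (Fin 4 → ℤ)} (D0 : D ≠ 0)
    (d0 : d ≠ 0) (hs : ∀ x, f (D⁻¹ • gp e x) ≠ 0 → x ∈ s) :
    ctr S (Yl A d e (sc D f)) = ∑ x ∈ s, (((D⁻¹ * (3 ^ e)⁻¹) ^ 4 * f (D⁻¹ • gp e x) : ℝ) : ℂ) •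
      Lt S D d (D⁻¹ • gp e x) A := by
  rw [Yl_eq (s := s) hs, ← ctl_apply, map_sum]
  refine Finset.sum_congr rfl fun x _ => ?_
  simp only [Lt, LinearMap.smul_apply, LinearMap.comp_apply, AlgHom.toLinearMap_apply, map_smul,
    smul_smul, mul_inv_cancel₀ D0, one_smul, ← Complex.ofReal_mul, sc]
  congr 2
  field_simp

theorem st_wd {k : ℕ} {m : Fin k → ℕ} {A : Fin k → Pol} {b : Fin k → Lab ℝ}
    (hA : ∀ i, Wn (m i) Λ δ C (A i) (b i)) {L : Fin k → Pol →ₗ[ℂ] Pol} {c : ℂ} {g η : ℝ}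
    (M : MultilinearMap ℝ (fun _ : Fin k => Lab ℝ) ℝ) (η0 : 0 ≤ η)
    (hL : ∀ u : ∀ i, Fin (m i) → R4 → ℝ, (∀ i, Tw Λ δ (u i)) →
      ‖c * S (∏ i, L i (mon (u i))) - (g * M fun i => Bu (GD.d / 2) (u i) : ℝ)‖ ≤ η) :
    ‖c * S (∏ i, L i (A i)) - (g * M b : ℝ)‖ ≤ η * (|C| ^ k + 1) := by
  choose ι s x u h1 h2 h3 h4 using hA
  have s1 := sum_est (S := S) (fun i => (s i).attach) (fun i a => x i a)
    (fun i a => L i (mon (u i a))) c (fun y => g * M fun i => Bu (GD.d / 2) (u i (y i)))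
    fun y _ => hL _ fun i => h2 i _ (y i).2
  simp only [Finset.abs_prod] at s1
  rw [← Finset.prod_univ_sum (fun i => (s i).attach) fun i y => |x i y|] at s1
  simp only [← Finset.sum_attach (s _)] at h1 h3 h4
  obtain rfl := funext h4
  refine le_trans ?_ (mul_le_mul_of_nonneg_left (((Finset.prod_le_prod (s := Finset.univ)
    (fun i _ => by positivity) fun i _ => (h1 i).trans (le_abs_self C)).trans_eq (by simp)).trans
      (lt_add_one _).le) η0)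
  simpa only [h3, map_sum, map_smul, MultilinearMap.map_sum_finset, MultilinearMap.map_smul_univ,
    smul_eq_mul, Finset.mul_sum, mul_left_comm g] using s1

theorem ts_wd (T : Tsc S W) (hW : ∀ M, ∀ᶠ D in 𝓝[>] (0 : ℝ), ∀ r, W D r → M ≤ r) {k : ℕ}
    {m : Fin k → ℕ} (hm : ∀ i, 1 ≤ m i) (Λ δ C : ℝ) {f : Fin k → R4 → ℝ} (hf : Adm f) {η : ℝ}
    (η0 : 0 < η) : ∀ᶠ D in 𝓝[>] (0 : ℝ), ∀ r, W D r → ∀ d : Fin k → ℝ,
      (∀ i, d i ∈ Icc (D / (4 * r)) (D / r)) → ∀ (A : ℕ → Fin k → Pol) (b : ℕ → Fin k → Lab ℝ)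
        (a : Fin k → Lab ℝ), (∀ᶠ e in atTop, ∀ i, Wn (m i) Λ δ C (A e i) (b e i)) →
        (∀ i, Tendsto (b · i) atTop (𝓝 (a i))) → ∀ᶠ e in atTop,
          ‖((log D⁻¹ ^ ∑ i, m i : ℝ) : ℂ) * S (∏ i, ctr S (Yl (A e i) (d i) e (sc D (f i)))) -
            ((gm ^ ∑ i, m i : ℝ) : ℂ) * frI (fun i => cx (a i)) f‖ ≤ η := by
  obtain ⟨Λf, δf, tf⟩ := hf.tf
  have C1p : 0 < |C| ^ k + 1 := by positivity
  obtain ⟨C₂, e2⟩ : ∃ C, C = ∫ y : Fin k → R4, |∏ i, f i (y i)| := ⟨_, rfl⟩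
  have C2p : 0 < C₂ + 1 :=
    add_pos_of_nonneg_of_pos (e2 ▸ integral_nonneg fun _ => abs_nonneg _) one_pos
  have η1 : 0 < η / 2 / (C₂ + 1) := by positivity
  filter_upwards [tsc_var T hW hm Λ δ (2 * Λf) tf.pos (div_pos η1 C1p), hW 1,
    self_mem_nhdsWithin] with D hD h1 (D0 : 0 < D) r hr d hd A b a hA hb
  have r0 : 0 < r := one_pos.trans_le (h1 r hr)
  have d0 : ∀ i, 0 < d i := fun i => lt_of_lt_of_le (by positivity) (hd i).1
  obtain ⟨sx, hsx⟩ : ∃ s : ℕ → Fin k → Finset (Fin 4 → ℤ),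
      ∀ e i x, f i (D⁻¹ • gp e x) ≠ 0 → x ∈ s e i :=
    ⟨fun e i => (fin_gp ((hf.smul (inv_ne_zero D0.ne')).1 i).1 e).toFinset,
      fun e i x hx => by simpa using hx⟩
  filter_upwards [hA, (f_lim hf (inv_pos.2 D0) hsx).eventually_le_const
    (e2.symm.trans_lt (lt_add_one C₂)), Metric.tendsto_nhds.1 (fr_lim (w := GD.d / 2) hf
      (inv_pos.2 D0) hsx (fun i α => tendsto_pi_nhds.1 (tendsto_pi_nhds.1 (hb i) α))
        (gm ^ ∑ i, m i)) _ (half_pos η0)] with e c1 c2 c3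
  have s2 := sum_est (S := S) (sx e) (fun i x => (D⁻¹ * (3 ^ e)⁻¹) ^ 4 * f i (D⁻¹ • gp e x))
    (fun i x => Lt S D (d i) (D⁻¹ • gp e x) (A e i)) _ _ fun z hz =>
      (st_wd c1 (Lb.frM _ _) (div_pos η1 C1p).le (hD r hr d hd _ (sep_of tf (Finset.prod_ne_zero_iff.2
        fun i _ => right_ne_zero_of_mul (hz i))))).trans (div_mul_cancel₀ _ C1p.ne').le
  have s3 := (s2.trans (mul_le_mul_of_nonneg_left c2 η1.le)).trans (div_mul_cancel₀ _ C2p.ne').le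
  simp only [fun i => ctr_Yl (S := S) (A := A e i) D0.ne' (d0 i).ne' (hsx e i)]
  rw [frI_cx, ← Complex.ofReal_mul (gm ^ _)]
  refine (norm_sub_le_norm_sub_add_norm_sub _ _ _).trans ((add_le_add s3 ?_).trans
    (add_halves η).le)
  rw [← Complex.ofReal_sub, Complex.norm_real]
  exact c3.le

theorem Zc_wn (H : Dat (GD.d / 2) h ω Λ δ) (l : Cl) (c : Lab ℝ) : ∃ (C : ℝ) (b : ℕ → Lab ℝ),
    (∀ᶠ e in atTop, Wn l.m Λ δ C (Zc h ω l e (cx c)) (b e)) ∧ Tendsto b atTop (𝓝 (pc l c)) := by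
  classical
  obtain ⟨s, hs⟩ := H.ex_grid l
  refine ⟨(∫ y, |Lb.ip c (ω l y)|) + 1, fun e => Ae h ω (GD.d / 2) l c e (s e),
    ((wy_lim H hs c).eventually_le_const (lt_add_one _)).mono fun e he => ⟨_, (s e).filter (wy ω l c e · ≠ 0), wy ω l c e,
      fun y => hy h fun i => gp e (y i), ?_, fun y hy => H.tw _ _ (subset_tsupport _ (Cm.ip_ne
        (right_ne_zero_of_mul (Finset.mem_filter.1 hy).2))), ?_, ?_⟩,
    tendsto_pi_nhds.2 fun α => tendsto_pi_nhds.2 (Ae_lim H hs c α)⟩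
  · rwa [Finset.sum_filter_of_ne fun y _ hy => abs_ne_zero.1 hy]
  · exact (Zc_wy (hs e) c).trans (Finset.sum_filter_of_ne (p := (wy ω l c e · ≠ 0))
      fun y _ hy q => hy (by simp [q])).symm
  · exact (Finset.sum_filter_of_ne (p := (wy ω l c e · ≠ 0)) fun y _ hy q => hy (by simp [q])).symm

theorem Yl_nw {m e : ℕ} {t d : ℝ} {A : Pol} {f : R4 → ℝ} (hf : HasCompactSupport f) :
    Yl (nw m t d A) 1 e f = ((log t⁻¹ ^ m : ℝ) : ℂ) • Yl A d e f := by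
  have e1 : ∀ z, sh 1 z (sh d 0 A) = sh d z A := fun z => by
    simp only [sh, rename_rename, Function.comp_def, inv_one, one_smul, sub_zero]
  simp only [Yl_eq fun x => (fin_gp hf e).mem_toFinset.2, nw, map_smul, e1, Finset.smul_sum,
    smul_smul, ← Complex.ofReal_mul]
  refine Finset.sum_congr rfl fun x _ => ?_
  congr 2
  ring

theorem dn_nn {t : ℝ} (ht : t ∈ Ioc (0 : ℝ) 1) : dn (nn t) ∈ Icc (t / 2) t := by
  have x0 : 0 ≤ logb 2 t⁻¹ := logb_nonneg one_lt_two ((one_le_inv₀ ht.1).2 ht.2)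
  have e : (2 : ℝ) ^ logb 2 t⁻¹ = t⁻¹ := rpow_logb two_pos (by norm_num) (inv_pos.2 ht.1)
  refine ⟨le_inv_of_le_inv₀ (by positivity) ?_, inv_le_of_inv_le₀ ht.1 ?_⟩ <;> rw [← rpow_natCast]
  · refine (rpow_le_rpow_of_exponent_le one_le_two (Nat.ceil_lt_add_one x0).le).trans_eq ?_
    rw [rpow_add_one two_ne_zero, e, inv_div, div_eq_inv_mul]
  · exact e.symm.trans_le (rpow_le_rpow_of_exponent_le one_le_two (Nat.le_ceil _))

theorem Ps_fst : Tendsto (fun p : Ix => p.1) Ps (𝓝[>] 0) := by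
  refine fun s hs => (ev_Ps (Q := fun p => p.1 ∈ s)).2 ?_
  filter_upwards [hs] with t ht d _ using .of_forall fun _ => ht

theorem Kab.lgr {a : ℝ} {r : ℝ → ℝ} {Z : Ix → Pol → ℝ → Prop} {K : Ix → Pol → Prop}
    (I : Kab S Λ δ a r Z K) :
    Tendsto (fun t => log t⁻¹ / log (r t * t)⁻¹) (𝓝[>] 0) (𝓝 1) ∧ Tendsto r (𝓝[>] 0) atTop := by
  obtain ⟨W, -, h1, h2⟩ := I.win
  have hr : Tendsto r (𝓝[>] 0) atTop := tendsto_atTop.2 fun M => by
    filter_upwards [h2, I.lim.eventually (h1 M)] with t a b using b _ a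
  refine ⟨?_, hr⟩
  have h3 := (isLittleO_log_id_atTop.tendsto_div_nhds_zero.comp hr).const_add 1
  rw [add_zero] at h3
  have h4 : ∀ᶠ t in 𝓝[>] (0 : ℝ), 1 ≤ log t⁻¹ / log (r t * t)⁻¹ ∧
      log t⁻¹ / log (r t * t)⁻¹ ≤ 1 + log (r t) / r t := by
    filter_upwards [I.lg, hr.eventually_ge_atTop 1, self_mem_nhdsWithin] with t a b (t0 : 0 < t)
    have r0 := one_pos.trans_le b
    have e : log t⁻¹ = log (r t * t)⁻¹ + log (r t) := by
      rw [log_inv, log_inv, log_mul r0.ne' t0.ne']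
      ring
    rw [e, add_div, div_self (r0.trans_le a).ne']
    have := log_nonneg b
    exact ⟨le_add_of_nonneg_right (div_nonneg this (r0.le.trans a)), by gcongr⟩
  exact tendsto_of_tendsto_of_tendsto_of_le_of_le' tendsto_const_nhds h3 (h4.mono fun _ => And.left)
    (h4.mono fun _ => And.right)

/-- the label of an ordinary word -/
theorem Kab.law {a : ℝ} {r : ℝ → ℝ} {Z : Ix → Pol → ℝ → Prop} {K : Ix → Pol → Prop}
    (I : Kab S Λ δ a r Z K) (H : Dat (GD.d / 2) h ω Λ δ) {m : ℕ} (hm : 1 ≤ m) {Λ' δ' C : ℝ}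
    {A : ℕ → Pol} {b : ℕ → Lab ℝ} {c : Lab ℝ} (hA : ∀ᶠ e in atTop, Wn m Λ' δ' C (A e) (b e))
    (hb : Tendsto b atTop (𝓝 c)) {d : ℝ → ℝ} (hd : ∀ᶠ t in 𝓝[>] (0 : ℝ), d t ∈ Icc (t / 2) t) :
    Law h ω S r Ps id (fun p => nw m p.1 (d p.1) (A p.2.2)) (gm ^ m • c) := by
  intro l x f hf
  obtain ⟨W, T, h1, h2⟩ := I.win
  obtain ⟨C', b', hA', hb'⟩ := Zc_wn H l x
  obtain ⟨M, hM⟩ := frI_ml hf
  have e0 : frI ![cx (gm ^ m • c), cx (pc l x)] f =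
      (gm ^ m : ℝ) * frI (fun i => cx (![c, pc l x] i)) f := by
    rw [cx_smul, ← hM, ← hM]
    refine (M.cons_smul (M := fun _ : Fin 2 => Lab ℂ) _ _ _).trans (congrArg _ (congrArg _ ?_))
    ext1 i
    fin_cases i <;> rfl
  obtain ⟨g, g0, g1⟩ : ∃ g : ℝ → ℝ, (∀ y, 0 < g y) ∧ ∀ y, 0 < y → g y ≤ y :=
    ⟨fun y => if 0 < y then y else 1, fun y => by by_cases q : 0 < y <;> simp [q], fun y hy => by simp [hy]⟩
  have hG : Tendsto (fun p : Ix => ((log (r p.1 * p.1)⁻¹ ^ (m + l.m) : ℝ) : ℂ) *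
      S (ctr S (Yl (A p.2.2) (d p.1) p.2.2 (sc (r p.1 * p.1) (f 0))) *
        Yc h ω S l (dn (nn p.1)) p.2.2 (cx x) (sc (r p.1 * p.1) (f 1)))) Ps
      (𝓝 (((gm ^ (m + l.m) : ℝ) : ℂ) * frI (fun i => cx (![c, pc l x] i)) f)) := by
    refine Metric.tendsto_nhds.2 fun η η0 => ev_Ps.2 ?_
    filter_upwards [I.lim.eventually (ts_wd T h1 (m := ![m, l.m]) (Fin.forall_fin_two.2
      ⟨hm, Cl_m l⟩) (max Λ' Λ) (min (g δ') (g δ)) (max C C') hf (half_pos η0)), h2, hd,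
      I.lgr.2.eventually_gt_atTop 0, Ioc_mem_nhdsGT one_pos] with t a1 a2 a3 r0 ht d' _
    have i1 : ∀ y ∈ Icc (t / 2) t, y ∈ Icc (r t * t / (4 * r t)) (r t * t / r t) := fun y hy => by
      rw [mul_div_cancel_left₀ _ r0.ne', mul_comm 4, mul_div_mul_left _ _ r0.ne']
      exact ⟨by linarith [hy.1, ht.1], hy.2⟩
    have p0 := lt_min (g0 δ') (g0 δ)
    filter_upwards [UU_le (a1 _ a2 ![d t, dn (nn t)]
      (Fin.forall_fin_two.2 ⟨i1 _ a3, i1 _ (dn_nn ht)⟩) (fun e => ![A e, Zc h ω l e (cx x)])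
      (fun e => ![b e, b' e]) ![c, pc l x] ((hA.and hA').mono fun e he => Fin.forall_fin_two.2
        ⟨he.1.mono (le_max_left _ _) (fun q => (min_le_left _ _).trans (g1 _ q)) p0
          (le_max_left _ _), he.2.mono (le_max_right _ _)
            (fun q => (min_le_right _ _).trans (g1 _ q)) p0 (le_max_right _ _)⟩)
      (Fin.forall_fin_two.2 ⟨hb, hb'⟩))] with e he
    rw [Fin.sum_univ_two, Fin.prod_univ_two] at he
    exact (dist_eq_norm _ _).trans_lt (he.trans_lt (half_lt_self η0))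
  have h3 := ((Complex.continuous_ofReal.tendsto _).comp ((I.lgr.1.comp Ps_fst).pow m)).mul hG
  rw [e0, ← mul_assoc, ← Complex.ofReal_mul, ← pow_add, add_comm]
  simp only [one_pow, Complex.ofReal_one, one_mul] at h3
  refine h3.congr' ?_
  filter_upwards [Ps_fst.eventually I.lg, Ps_fst.eventually (I.lgr.2.eventually_gt_atTop 0),
    Ps_fst.eventually self_mem_nhdsWithin] with p a1 r0 (t0 : 0 < p.1)
  have := (r0.trans_le a1).ne'
  have cs : HasCompactSupport (sc (r p.1 * p.1) (f 0)) :=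
    ((hf.smul (inv_ne_zero (mul_pos r0 t0).ne')).1 0).1
  simp only [id, Function.comp, Yl_nw cs, ctr_smul, smul_mul_assoc, map_smul, smul_eq_mul,
    ← mul_assoc, ← Complex.ofReal_mul]
  rw [div_pow, pow_add, ← mul_assoc, div_mul_cancel₀ _ (pow_ne_zero _ this), mul_comm (_ ^ m)]

end Pool.Agent.Lib.MP_7f377f_mp.Cm
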