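import Pool.Agent.Lib.MP_7f377f_mp.G.OpL
import Pool.Agent.Lib.MP_7f377f_mp.G.S18

/-! Arrays of slots and long windows from the renormalisation group. -/

noncomputable section

set_option linter.unusedSectionVars false
variable [Pool.Agent.Lib.MP_7f377f_mp.GD]

namespace Pool.Agent.Lib.MP_7f377f_mp.RG.Q4.En

open YM7 Filter Topology Real Pur Set Ope

variable {G : Gl} {β : ℕ × ℕ → ℝ} {U : Ultrafilter (ℕ × ℕ)}
  {S₀ : ∀ {k : ℕ}, (Fin k → R4 → ℝ) → ℝ} {S : Pol →ₗ[ℂ] ℂ} {Λ δ : ℝ}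

theorem mx_le {Y Y' : (R4 → ℝ) → Pol} {e : ℕ} {K η η' c : ℝ} (h : Mx S Y e δ K η) (η0 : 0 ≤ η)
    (c0 : 0 < c) (u : η ≤ c * η') (hY : ∀ f R, (∀ y, f y ≠ 0 → ∀ l, |y l| ≤ R) → Y' f = Y f) :
    Mx S Y' e δ (K + c) η' := fun lo hi k z f T a b c' v => by
  have η1 : 0 ≤ η' := le_of_mul_le_mul_left (by simpa using η0.trans u) c0
  have y : ∀ i, Y' (f i) = Y (f i) := fun i => by
    obtain ⟨R, hR⟩ := (a.1 i).1.isCompact.isBounded.exists_norm_le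
    exact hY _ R fun y hy l => (PiLp.norm_apply_le y l).trans (hR y (subset_tsupport _ hy))
  have t : T.card ≤ (cells lo hi).card := Finset.card_le_card_of_injOn z (fun i _ => c' i) b.injOn
  simp only [y]
  refine (h lo hi k z f T a b c' v).trans ?_
  rw [add_mul, exp_add, mul_assoc]
  refine mul_le_mul_of_nonneg_left ((pow_le_pow_left₀ η0 u _).trans ?_) (exp_pos _).le
  rw [mul_pow]
  exact mul_le_mul_of_nonneg_right ((pow_le_pow_left₀ c0.le ((le_add_of_nonneg_right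
    zero_le_one).trans (add_one_le_exp c)) _).trans ((exp_nat_mul c _).ge.trans (exp_le_exp.2
      ((mul_comm _ _).trans_le (mul_le_mul_of_nonneg_left (Nat.cast_le.2 t) c0.le))))) (pow_nonneg η1 _)

theorem Gl.Lm.mxs (o : G.Lm β U S) (h : G.Ok) (Λ1 : 1 ≤ Λ) (δ0 : 0 < δ) (s : ℕ) :
    ∀ᶠ e₀ in atTop, ∃ C, ∀ᶠ d in 𝓝[>] (0 : ℝ), ∀ d' ∈ Icc (d / 2) d, ∀ᶠ e in atTop,
      ∀ v : Cm.Sl, v.Ok 5 Λ δ → Ope.Mx S (v.Y d d' e) e₀ (3 ^ (e₀ + s))⁻¹ C d⁻¹ ∧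
        (G.Kk β U Λ δ d d' e v → Ope.Mx S (v.Y d d' e) e₀ (3 ^ (e₀ + s))⁻¹ C (d ^ (50⁻¹ : ℝ))) := by
  classical
  obtain ⟨c, n, C, H⟩ := o.ok.mrg 5 (Λ := 2 * Λ) (by linarith) (half_pos δ0)
  obtain ⟨N, hN⟩ := o.cel s
  obtain ⟨q, hn⟩ := h.num (n + 9)
  filter_upwards [hN _ hn] with e₀ ⟨l, K, p1, l1, l2, hc⟩
  have t0 : (1 : ℝ) ≤ 3 ^ e₀ := one_le_pow₀ (by norm_num)
  have q0 := pow_pos (h.Q0 l) q
  refine ⟨K + 3 ^ e₀, ?_⟩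
  filter_upwards [H _ (.of_forall fun _ => trivial), Ioc_mem_nhdsGT
    (show 0 < (3 ^ e₀)⁻¹ / G.Q l ^ q by positivity)] with d ⟨k, _, hk⟩ ⟨d0, d2⟩ d' hd
  obtain ⟨n1, n2, n3, n4⟩ := p1 k d _ d0 hk.2.1 hk.2.2.1 l1 l2 ((le_div_iff₀' q0).1 d2)
  filter_upwards [hc _ d k hk n1 n2, eventually_ge_atTop (G.e k)] with e a1 a2 v hv
  have z := h.zk_le (n := n) n1.le hv.1 hv.2.1 le_rfl (mul_pos (h.Q0 l) (h.b0 l)).le
  have w := o.slt_s (l := l) h hk a2 hd hv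
  refine ⟨mx_le (a1 _ _ _ w).1 w.1.le (by positivity) ?_ fun _ _ => Gl.y_eq, fun hK =>
    mx_le (a1 _ _ _ w).1 w.1.le (by positivity) ?_ fun _ _ => Gl.y_eq⟩
  · refine (mul_le_of_le_one_left z.1.le ?_).trans (z.2.1.trans (n3.trans ?_))
    · split_ifs
      exacts [h.cP1 _ _, le_rfl]
    · exact mul_le_mul_of_nonneg_right ((inv_le_one_of_one_le₀ t0).trans t0) (by positivity)
  · rw [if_pos hK]
    refine ((mul_le_mul_of_nonneg_left z.2.1 (h.cP0 _ _).le).trans n4).trans ?_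
    rw [div_inv_eq_mul, mul_rpow d0.le (by positivity), mul_comm]
    exact mul_le_mul_of_nonneg_right (rpow_le_self_of_one_le t0 (by norm_num)) (by positivity)

theorem Rn.kx (R : Rn G β U S₀ S) (Λ1 : 1 ≤ Λ) (δ0 : 0 < δ) :
    Cm.Kx S Λ δ 50⁻¹ (G.Kk β U Λ δ) := by
  obtain ⟨X, hX, hq⟩ := afu R.ok R.tu R.lim'
  have o : (G.wm 0).Lm β U S := ⟨R.lm.ok, R.lm.tu, R.lm.st, R.lm.lim⟩
  have hX' : ∀ᶠ d in 𝓝[>] (0 : ℝ), X d ≤ log d⁻¹ :=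
    hX.elim fun _ h => h.elim fun _ h => h.elim fun _ h => h.2.2.1
  obtain ⟨q, H⟩ := o.clw (R.ok 0).1 (tsN hX) hX' 5 2 Λ1 δ0
  obtain ⟨W, ρ, w⟩ := (R.ok 0).1.wnd hX' hq q
  exact ⟨fun s => (o.mxs (R.ok 0).1 Λ1 δ0 s).frequently, W, w.wnd, (H W ρ w).1, (H W ρ w).2,
    fun ε ε0 => (w.mem.and ((w.lim.mono_right nhdsWithin_le_nhds).eventually_lt_const ε0)).mono
      fun _ a => ⟨_, _, one_pos.trans_le a.1.1, a.2, a.1.2⟩⟩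

end Pool.Agent.Lib.MP_7f377f_mp.RG.Q4.En
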