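import Pool.Agent.Lib.MP_7f377f_mp.G.NsE2
import Pool.Agent.Lib.MP_7f377f_mp.G.OpK1
import Pool.Agent.Lib.MP_7f377f_mp.G.OpX
import Pool.Agent.Lib.MP_7f377f_mp.G.OpW

/-! The input for the product of two composite fields from the classes of words. -/

noncomputable section

set_option linter.unusedSectionVars false
variable [Pool.Agent.Lib.MP_7f377f_mp.GD]

namespace Pool.Agent.Lib.MP_7f377f_mp.RG.Q4.En.Gl

open Finset Filter Topology Real YM7 Pur Ob Ty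
open Ope (sc)

/-- all the sizes above `x` -/
def Zl (G : Gl) (β : ℕ × ℕ → ℝ) (U : Filter (ℕ × ℕ)) (r : ℝ) (R : G.Wy) (B : Pol) (x : ℝ) : Prop :=
  0 ≤ x ∧ ∀ y, x < y → G.Zy β U r R B y

variable {G : Gl} {β : ℕ × ℕ → ℝ} {U : Ultrafilter (ℕ × ℕ)} {S : Pol →ₗ[ℂ] ℂ} {k k' l e n m : ℕ}
  {Λ δ r r' r₀ x x' t d d' : ℝ} {R : G.Wy} {A B : Pol} {u : Fin 2 → R4 → ℝ}

theorem aw_one : Aw 1 e B = (((3 ^ e)⁻¹ ^ 4 : ℝ) : ℂ) • B := by
  simp only [Aw, Cm.sh, inv_one, one_smul, sub_zero, div_one]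
  exact congrArg _ (MvPolynomial.rename_id_apply B)

theorem yl_aw {f : R4 → ℝ} : Cm.Yl A d e f = yy e (Aw d e A) 0 f := by
  rw [yy, Complex.ofReal_zero, zero_smul, add_zero, yl_smp]
  rfl

theorem Ay.zl (M : G.Ay β U k e r R) {ι : Type} [Fintype ι] {B : ι → Pol} {N c : ι → ℝ}
    (L : ι → List Gn) (H : ∀ i, G.Zl β U r' R (B i) (N i)) (hx : ∑ i, |c i| * N i ≤ x) :
    G.Zl β U r' R (∑ i, (c i : ℂ) • acL (L i) (B i)) x := by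
  have x0 := (sum_nonneg fun i _ => mul_nonneg (abs_nonneg (c i)) (H i).1).trans hx
  refine ⟨x0, fun y hy => ?_⟩
  have a : Tendsto (fun ε : ℝ => ∑ i, |c i| * (N i + ε)) (𝓝[>] 0) (𝓝 (∑ i, |c i| * (N i + 0))) :=
    (Continuous.tendsto (by fun_prop) _).mono_left nhdsWithin_le_nhds
  simp only [add_zero] at a
  obtain ⟨ε, a, b⟩ := ((a.eventually_le_const (hx.trans_lt hy)).and self_mem_nhdsWithin).exists
  exact M.zy L (fun i => (H i).2 _ (lt_add_of_pos_right _ b)) (x0.trans_lt hy) a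

theorem Ay.zl1 (M : G.Ay β U k e r R) (L : List Gn) (H : G.Zl β U r' R B x) (c : ℝ)
    (hx : |c| * x ≤ x') : G.Zl β U r' R ((c : ℂ) • acL L B) x' := by
  simpa using M.zl (ι := Unit) (c := fun _ => c) (fun _ => L) (fun _ => H) (by simpa using hx)

theorem Ay.lz (M : G.Ay β U k e r R) (H : G.Zy β U r' R B x) {c : ℝ} (c0 : 0 ≤ c)
    (hx : c * x ≤ x') : G.Zl β U r' R ((c : ℂ) • B) x' :=
  M.zl1 [] ⟨(M.pos H).le, fun y hy => by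
    simpa [acL] using M.zy (ι := Unit) (c := fun _ => 1) (fun _ => []) (fun _ => H)
      ((M.pos H).trans hy) (by simpa using hy.le)⟩ c (by rwa [abs_of_nonneg c0])

theorem Ok.b_pow (h : G.Ok) (lk : l ≤ k) : G.bb k ≤ 1.01 ^ (k - l) * G.bb l := by
  induction k, lk using Nat.le_induction with
  | base => simp
  | succ k lk ih =>
    rw [Nat.succ_sub lk, pow_succ]
    linarith [h.b_succ k, h.b0 k]

theorem Np.wl (N : G.Np β U S Λ δ u n r₀ t d k k' e R) (h : G.Ok) (x0 : 0 ≤ log t⁻¹)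
    (x1 : log t⁻¹ ≤ G.Q (k + 1) * G.bb (k + 1)) (m1 : 1 ≤ m) (m2 : m ≤ 5) (H : Cm.Wo m Λ δ A)
    (hd : d' ∈ Set.Icc (t / 2) t) :
    G.Zl β U (r₀ * t) R (Aw 1 e (Cm.nw m t d' A)) (G.Q (k + 1) ^ (n + 10) * G.bb k) := by
  have b0 := h.b0 k
  have q0 := h.Q0 k
  have q := h.cQ (k + 1) (C := 2) (by norm_num)
  have e1 : Aw 1 e (Cm.nw m t d' A) = ((log t⁻¹ ^ m : ℝ) : ℂ) • Aw d' e A := by
    rw [aw_one, Cm.nw, Aw, smul_smul, smul_smul, ← Complex.ofReal_mul, ← Complex.ofReal_mul]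
    congr 2
    ring
  refine e1 ▸ N.ay.lz (N.wd m A m1 m2 H d' hd) (pow_nonneg x0 _) ?_
  calc _ ≤ (G.Q (k + 1) ^ 2 * G.bb k) ^ m * (G.Q (k + 1) ^ n * G.bb k / G.bb k ^ m) := by
        gcongr
        · refine x1.trans ?_
          rw [sq, mul_assoc]
          exact mul_le_mul_of_nonneg_left ((h.b_succ k).trans (by gcongr; linarith)) (by linarith)
        · exact h.Q_mono k.le_succ
    _ = G.Q (k + 1) ^ (n + 2 * m) * G.bb k := by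
        field_simp
        ring
    _ ≤ _ := by
        gcongr
        · linarith
        · omega

theorem Np.pw (N : G.Np β U S Λ δ u n r₀ t d k k' e R) (h : G.Ok) (lk : k + 1 ≤ k')
    (x0 : 0 ≤ log t⁻¹) (x1 : log t⁻¹ ≤ G.Q (k + 1) * G.bb (k + 1)) (hd : d' ∈ Set.Icc (d / 2) d)
    {s s' : Cm.Sl} (hs : s.Ok 5 Λ δ) (hs' : s'.Ok 5 Λ δ) {κ : ℝ}
    (hκ : κ = 1 ∨ κ = G.cP (k + 1 + 1) k' ∧ (G.Kk β U Λ δ d d' e s ∨ G.Kk β U Λ δ d d' e s'))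
    (hx : G.Q k ^ n * G.bb k * (κ * (1.01 ^ (k' - (k + 1)) * G.Q k') ^ (2 * (n + 1214))) ≤ x) :
    G.Zl β U (r₀ * t) R (Aw 1 e (Cm.Pw S u (t, d, e) d' s s')) x := by
  classical
  have e1 : ∀ X : Pol, Aw 1 e (((log t⁻¹ ^ (s.m + s'.m) / t ^ 4 : ℝ) : ℂ) • X) =
      ((log t⁻¹ ^ (s.m + s'.m) : ℝ) : ℂ) • ((((3 ^ e)⁻¹ / t) ^ 4 : ℝ) : ℂ) • X := fun X => by
    rw [aw_one, smul_smul, smul_smul, ← Complex.ofReal_mul, ← Complex.ofReal_mul]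
    congr 2
    ring
  refine (e1 _).symm ▸ N.ay.lz (N.pr d' hd s s' hs hs') (pow_nonneg x0 _) (le_trans ?_ hx)
  have z := h.zk_le (n := n) lk hs.1 hs.2.1 x0 x1
  have z' := h.zk_le (n := n) lk hs'.1 hs'.2.1 x0 x1
  have s0 := h.sg_pos (k + 1)
  have c0 := h.cP0 (k + 1 + 1) k'
  have c1 := h.cP1 (k + 1 + 1) k'
  have b0 := h.b0 k
  have q0 := h.Q0 k
  have := z.1
  have := z'.1
  have a : (if G.Kk β U Λ δ d d' e s then G.cP (k + 1 + 1) k' else 1) *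
      (if G.Kk β U Λ δ d d' e s' then G.cP (k + 1 + 1) k' else 1) ≤ κ := by
    rcases hκ with rfl | ⟨rfl, a⟩ <;> split_ifs <;> first | nlinarith | tauto
  rw [two_mul, pow_add _ (n + 1214)]
  refine le_of_eq_of_le ?_ (mul_le_mul_of_nonneg_left (mul_le_mul a (mul_le_mul z.2.2 z'.2.2
    (by positivity) (le_trans (by positivity) z.2.2)) (by positivity) ?_) (by positivity))
  · unfold zs'
    ring
  · rcases hκ with rfl | ⟨rfl, -⟩ <;> positivity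

theorem Lm.pb (o : G.Lm β U S) (h : G.Ok) {f : Fin 2 → R4 → ℝ} (hf : Adm f) (n : ℕ) :
    ∃ K, 0 < K ∧ ∀ P : ℕ → Prop, (∀ᶠ l in atTop, P l) → ∀ᶠ D in 𝓝[>] (0 : ℝ), ∃ l, P l ∧
      1 ≤ D * 3 ^ G.e l ∧ D * 3 ^ G.e l ≤ G.Q l ∧ ∀ t k, 0 < t → l < k → G.Q k ^ 2 * t ≤ D →
        ∀ᶠ e in atTop, ∀ R r, G.Ay β U k e (G.Q k * t) R → r ≤ G.Q k * t → ∀ m A d, 1 ≤ m → m ≤ 5 →
          G.Zy β U r R (Aw d e A) (G.Q k ^ n * G.bb k / G.bb k ^ m) → ∀ B x κ, 0 < x →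
            κ = 1 ∧ G.Zy β U r R (Aw 1 e B) (x * G.bb k) ∨
              κ = G.cP (l + 1) k ∧ G.Kq9 β U e r R (Aw 1 e B) (x * G.bb k) →
            ‖((log D⁻¹ ^ m : ℝ) : ℂ) * S (Ope.ctr S (Cm.Yl B 1 e (sc D (f 0))) *
              Ope.ctr S (Cm.Yl A d e (sc D (f 1))))‖ ≤
              K * x * (κ * (1.01 ^ (k - l) * G.Q k) ^ (2 * (n + 1214))) := by
  obtain ⟨K, K0, hc⟩ := o.cluK hf
  refine ⟨K, K0, fun P hP => ?_⟩
  filter_upwards [hc _ (hP.and h.ev_log), Ioc_mem_nhdsGT one_pos]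
    with D ⟨l, ⟨p, p2⟩, l1, l2, hc⟩ ⟨D0, D1⟩
  refine ⟨l, p, l1, l2, fun t k t0 lk hD => ?_⟩
  have q := h.Q1 k
  have q0 := h.Q0 k
  have q1 := h.Q_mono lk.le
  have q2 := h.Q0 l
  have b0 := h.b0 k
  have b1 := h.b0 l
  have z1 : (1 : ℝ) ≤ 1.01 ^ (k - l) := one_le_pow₀ (by norm_num)
  filter_upwards [hc (G.Q k * t) (mul_pos q0 t0) (le_trans (by
    rw [sq, mul_assoc]
    exact mul_le_mul_of_nonneg_right ((h.LQ l).trans q1) (by positivity)) hD)]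
    with e hc R r M hr m A d m1 m2 HA B x κ x0 HB
  have y0 : 0 ≤ log D⁻¹ := log_nonneg ((one_le_inv₀ D0).2 D1)
  have z := h.zk_le (n := n) lk.le m1 m2 y0
    ((log_le_log (inv_pos.2 D0) ((inv_le_iff_one_le_mul₀' D0).2 l1)).trans p2)
  have κ0 : 0 < κ := by
    rcases HB with ⟨rfl, -⟩ | ⟨rfl, -⟩
    exacts [one_pos, h.cP0 _ _]
  have s : G.Sk β U (G.Q k * t) (G.Yk β k l R) (Aw 1 e B) 0
      (κ * (1.01 ^ (k - l) * (x * G.bb k) * G.Q k ^ 8)) := by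
    rcases HB with ⟨rfl, H⟩ | ⟨rfl, H⟩
    · refine M.gen o H hr ?_
      rw [one_mul]
      gcongr
      norm_num
    · refine M.orb o H hr ?_
      rw [mul_assoc, mul_assoc (1.01 ^ _ : ℝ)]
      exact mul_le_mul_of_nonneg_left (le_mul_of_one_le_left (by positivity) z1) κ0.le
  have s' : G.Sk β U (G.Q k * t) (G.Yk β k l R) (Aw d e A) 0 (G.zk n k l m) := by
    refine M.gen o HA hr ?_
    unfold zk
    gcongr
    exacts [le_mul_of_one_le_left (by positivity) (by norm_num), by norm_num]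
  have b := o.st.bound (hc _ (M.kc o lk) ![Aw 1 e B, Aw d e A] (fun _ => 0) ![_, G.zk n k l m]
    (Fin.forall_fin_two.2 ⟨s, s'⟩)).1
  simp only [Fin.prod_univ_two, Matrix.cons_val_zero, Matrix.cons_val_one, ← yl_aw] at b
  rw [norm_mul, Complex.norm_real, norm_of_nonneg (pow_nonneg y0 _)]
  refine (mul_le_mul_of_nonneg_left b (pow_nonneg y0 _)).trans ?_
  have b2 := h.b_pow lk.le
  have s0 := h.sg_pos l
  have := z.1
  calc _ = K * x * (κ * (1.01 ^ (k - l) * G.bb k / G.bb l * (G.Q k ^ 8 * G.Q l ^ 1200) *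
        (log D⁻¹ ^ m * (G.zk n k l m / G.sg l)))) := by
        rw [sg]
        field_simp
    _ ≤ K * x * (κ * (1.01 ^ (k - l) * (1.01 ^ (k - l) * G.bb l) / G.bb l *
        (G.Q k ^ 8 * G.Q k ^ 1200) * (1.01 ^ (k - l) * G.Q k) ^ (n + 5 + 1209))) := by
        gcongr
        exact z.2.2
    _ ≤ _ := by
        rw [two_mul, pow_add _ (n + 1214)]
        gcongr
        rw [← mul_assoc (1.01 ^ _ : ℝ), mul_div_cancel_right₀ _ b1.ne', ← pow_add (G.Q k), ← sq,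
          mul_pow]
        exact mul_le_mul (pow_le_pow_right₀ z1 (by omega)) (pow_le_pow_right₀ q (by omega))
          (by positivity) (by positivity)

theorem Lm.kin2 (o : G.Lm β U S) (h : G.Ok) (Λ1 : 1 ≤ Λ) (δ0 : 0 < δ) (hu : Adm u)
    (hw : ∀ q, ∃ ρ, G.Wr S Λ δ 50⁻¹ (G.Kk β U Λ δ) q ρ) :
    ∃ ρ Z K, Cm.Kin2 S Λ δ 50⁻¹ 100⁻¹ (G.Kk β U Λ δ) ρ u Z K := by
  obtain ⟨n, r₀, H⟩ := o.nsp h Λ1 δ0 hu
  obtain ⟨c, hc⟩ : ∃ c, c = 2 * (n + 1214) := ⟨_, rfl⟩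
  obtain ⟨q, hn⟩ := h.num (c * 1000)
  obtain ⟨ρ, w⟩ := hw (max q ((n + 10) * 1000))
  obtain ⟨k, hk⟩ := (H _ (((tendsto_add_atTop_nat 1).eventually (hn.and h.ev_log)).and
    (h.Q_top.eventually_ge_atTop r₀))).choice
  obtain ⟨σ, hσ⟩ : ∃ σ : ℝ → ℝ, σ = fun t => ρ t ^ (1000⁻¹ : ℝ) := ⟨_, rfl⟩
  have st : Tendsto σ (𝓝[>] 0) atTop := hσ ▸ (tendsto_rpow_atTop (by norm_num)).comp w.top
  have y1 : ∀ l k, 1 ≤ 1.01 ^ (k - l) * G.Q k := fun l k => one_le_mul_of_one_le_of_one_le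
    (one_le_pow₀ (by norm_num)) (h.Q1 k)
  have y2 : ∀ l k, G.cP (l + 1) k * (1.01 ^ (k - l) * G.Q k) ^ c ≤
      G.cP (l + 1) k * (1.01 ^ (k - l) * G.Q k) ^ (c * 1000) := fun l k => mul_le_mul_of_nonneg_left
    (pow_le_pow_right₀ (y1 l k) (by omega)) (h.cP0 _ _).le
  have T : ∀ᶠ t in 𝓝[>] (0 : ℝ), 0 < t ∧ 1 ≤ σ t ∧ σ t ^ 1000 = ρ t ∧ ρ t * t ≤ 1 ∧
      1 ≤ t * 3 ^ G.e (k t + 1) ∧ t * 3 ^ G.e (k t) ≤ G.Q (k t) ∧ r₀ * t ≤ G.Q (k t) * t ∧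
      ∀ D, D = t ∨ D = ρ t * t → ∀ l, 1 ≤ D * 3 ^ G.e l → D * 3 ^ G.e l ≤ G.Q l →
        G.Q l ^ q ≤ ρ t ∧ G.Q l ^ (n + 10) ≤ σ t := by
    filter_upwards [hk, self_mem_nhdsWithin, st.eventually_ge_atTop 1, w.top.eventually_ge_atTop 0,
      (w.lim.mono_right nhdsWithin_le_nhds).eventually_le_const one_pos, w.big]
      with t ⟨⟨_, a⟩, a1, a2, _⟩ (t0 : 0 < t) s1 r0 r1 b
    have e : σ t ^ 1000 = ρ t := hσ ▸ by exact_mod_cast rpow_inv_natCast_pow r0 (n := 1000) (by norm_num)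
    refine ⟨t0, s1, e, r1, a1, (mul_le_mul_of_nonneg_left (pow_le_pow_right₀ (by norm_num)
      (h.sch.mono.monotone (k t).le_succ)) t0.le).trans a2, mul_le_mul_of_nonneg_right a t0.le,
      fun D hD l l1 l2 => ⟨(pow_le_pow_right₀ (h.Q1 l) (le_max_left _ _)).trans (b D hD l l1 l2),
        le_of_pow_le_pow_left₀ (n := 1000) (by norm_num) (zero_le_one.trans s1) ?_⟩⟩
    rw [e, ← pow_mul]
    exact (pow_le_pow_right₀ (h.Q1 l) (le_max_right _ _)).trans (b D hD l l1 l2)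
  obtain ⟨ν, hν⟩ : ∃ ν : ℝ → ℝ, ∀ t, ν t = σ t ^ 2 * G.bb (k t) := ⟨_, fun _ => rfl⟩
  have ν0 : ∀ t, 0 ≤ ν t := fun t => hν t ▸ mul_nonneg (sq_nonneg _) (h.b0 _).le
  have E : ∀ᶠ p in Cm.Ps, ∃ R, G.Ay β U (k p.1) p.2.2 (G.Q (k p.1) * p.1) R ∧
      (∀ m A, 1 ≤ m → m ≤ 5 → Cm.Wo m Λ δ A → ∀ d ∈ Set.Icc (p.1 / 2) p.1,
        G.Zy β U (r₀ * p.1) R (Aw d p.2.2 A) (G.Q (k p.1) ^ n * G.bb (k p.1) / G.bb (k p.1) ^ m) ∧
        G.Zl β U (r₀ * p.1) R (Aw 1 p.2.2 (Cm.nw m p.1 d A)) (1 * ν p.1)) ∧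
      (p.2.1 ≤ p.1 / ρ p.1 → ∀ d' ∈ Set.Icc (p.2.1 / 2) p.2.1, ∀ s s' : Cm.Sl, s.Ok 5 Λ δ →
        s'.Ok 5 Λ δ → G.Zl β U (r₀ * p.1) R (Aw 1 p.2.2 (Cm.Pw S u p d' s s'))
          (p.1 / ρ p.1 / p.2.1 * ν p.1) ∧ (G.Kk β U Λ δ p.2.1 d' p.2.2 s ∨
            G.Kk β U Λ δ p.2.1 d' p.2.2 s' → G.Zl β U (r₀ * p.1) R
              (Aw 1 p.2.2 (Cm.Pw S u p d' s s')) ((p.2.1 / p.1) ^ (100⁻¹ : ℝ) * ν p.1))) := by
    refine Cm.ev_Ps.2 ?_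
    filter_upwards [hk, T] with t ⟨⟨⟨a, a'⟩, _⟩, a1, a2, a3⟩ ⟨t0, s1, sr, r1, _, _, _, b⟩ d ⟨d0, d1⟩
    have a4 := a2.trans (h.Q_mono (k t).le_succ)
    obtain ⟨b1, b2⟩ := b t (.inl rfl) _ a1 a4
    have r2 : 1 ≤ ρ t := sr ▸ one_le_pow₀ s1
    have r0 := one_pos.trans_le r2
    have s0 := one_pos.trans_le s1
    have b0 := h.b0 (k t)
    have d2 : 0 < min d (t / ρ t) := lt_min d0 (div_pos t0 r0)
    obtain ⟨k', e1, e2, e3⟩ := a3 _ ⟨d2, (min_le_left _ _).trans d1⟩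
    obtain ⟨n1, n2, n3, n4⟩ := a k' _ t d2 e1 e2 a1 a4 ((mul_le_mul b1 (min_le_right _ _) d2.le
      r0.le).trans_eq (mul_div_cancel₀ _ r0.ne'))
    have x0 : 0 ≤ log t⁻¹ := log_nonneg ((one_le_inv₀ t0).2
      ((le_mul_of_one_le_left t0.le r2).trans r1))
    have x1 := (log_le_log (inv_pos.2 t0) ((inv_le_iff_one_le_mul₀' t0).2 a1)).trans a'
    have b3 : G.Q (k t) ^ n ≤ σ t := ((pow_le_pow_left₀ (h.Q0 _).le (h.Q_mono (k t).le_succ) n).trans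
      (pow_le_pow_right₀ (h.Q1 _) le_self_add)).trans b2
    refine Cm.UU_le ((e3 n1 n2).mono fun e ⟨R, N⟩ => ⟨R, N.ay, fun m A m1 m2 hA d' hd =>
      ⟨N.wd m A m1 m2 hA d' hd, ?_⟩, fun hd d' hd' s s' hs hs' => ?_⟩)
    · simpa [acL] using N.ay.zl1 [] (N.wl h x0 x1 m1 m2 hA hd) 1 (x' := ν t) (by
        rw [abs_one, one_mul, hν]
        exact mul_le_mul_of_nonneg_right (b2.trans (le_self_pow₀ s1 two_ne_zero)) b0.le)
    rw [min_eq_left hd] at N n3 n4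
    have y := y1 (k t + 1) k'
    have y3 := y2 (k t + 1) k'
    have c0 := h.cP0 (k t + 1 + 1) k'
    have x2 : ρ t ≤ t / d := (le_div_comm₀ r0 d0).2 hd
    refine ⟨N.pw h n1.le x0 x1 hd' hs hs' (.inl rfl) ?_,
      fun hK => N.pw h n1.le x0 x1 hd' hs hs' (.inr ⟨rfl, hK⟩) ?_⟩ <;> rw [← hc, hν]
    · have : (1.01 ^ (k' - (k t + 1)) * G.Q k') ^ c * σ t ^ 999 ≤ t / d := by
        refine le_of_pow_le_pow_left₀ (n := 1000) (by norm_num) (by positivity) ?_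
        rw [mul_pow, ← pow_mul, ← pow_mul, mul_comm 999, pow_mul (σ t), sr, pow_succ' _ 999]
        gcongr
      calc _ ≤ σ t * G.bb (k t) * (1 * (t / d / σ t ^ 999)) := by
            gcongr
            exact (le_div_iff₀ (by positivity)).2 this
        _ = _ := by
            rw [← sr]
            field_simp
    · rw [mul_comm]
      refine mul_le_mul ((y3.trans n4).trans (rpow_le_rpow_of_exponent_ge (div_pos d0 t0)
        ((div_le_one t0).2 d1) (by norm_num))) ?_ (by have := h.Q0 (k t); positivity) (by positivity)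
      exact mul_le_mul_of_nonneg_right (b3.trans (le_self_pow₀ s1 two_ne_zero)) b0.le
  obtain ⟨R, E⟩ := Filter.skolem.1 E
  have T' := Cm.Ps_fst.eventually T
  have z2 : ∀ᶠ p in Cm.Ps, ∀ B, G.Zl β U (r₀ * p.1) (R p) B (1 * ν p.1) →
      G.Zy β U (r₀ * p.1) (R p) B (2 * σ p.1 ^ 2 * G.bb (k p.1)) := T'.mono fun p a B b =>
    b.2 _ (by nlinarith [hν p.1, mul_pos (pow_pos (one_pos.trans_le a.2.1) 2) (h.b0 (k p.1))])
  have PB : ∀ f : Fin 2 → R4 → ℝ, Adm f → ∃ K, ∀ᶠ p in Cm.Ps, ∀ m A, 1 ≤ m → m ≤ 5 → Cm.Wo m Λ δ A →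
      ∀ d ∈ Set.Icc (p.1 / 2) p.1, ∀ B X, X = ‖((log (ρ p.1 * p.1)⁻¹ ^ m : ℝ) : ℂ) *
        S (Ope.ctr S (Cm.Yl B 1 p.2.2 (sc (ρ p.1 * p.1) (f 0))) *
          Ope.ctr S (Cm.Yl A d p.2.2 (sc (ρ p.1 * p.1) (f 1))))‖ →
        (G.Zy β U (r₀ * p.1) (R p) (Aw 1 p.2.2 B) (2 * σ p.1 ^ 2 * G.bb (k p.1)) →
          X ≤ K * σ p.1 ^ 3) ∧
        (G.Kq9 β U p.2.2 (r₀ * p.1) (R p) (Aw 1 p.2.2 B) (2 * σ p.1 ^ 2 * G.bb (k p.1)) →
          X ≤ K / σ p.1) := fun f hf => by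
    obtain ⟨K, K0, a⟩ := o.pb h hf n
    refine ⟨2 * K, Cm.ev_Ps.2 ?_⟩
    filter_upwards [w.lim.eventually (a _ hn), T, Cm.ev_Ps.1 E]
      with t ⟨l, a, l1, l2, a'⟩ ⟨t0, s1, sr, _, e1, e2, hr, b⟩ E d' hd'
    obtain ⟨n1, n2, n3, n4⟩ := a _ t _ t0 e1 e2 l1 l2
      (mul_le_mul_of_nonneg_right (b _ (.inr rfl) l l1 l2).1 t0.le)
    filter_upwards [Cm.UU_le (a' t _ t0 n1 n2), E d' hd'] with e a ⟨M, a1, _⟩ m A m1 m2 hA d hd B X hX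
    have s0 := one_pos.trans_le s1
    have z := fun κ => a _ _ M hr m A d m1 m2 (a1 m A m1 m2 hA d hd).1 B (2 * σ t ^ 2) κ
      (by positivity)
    have y := y1 l (k t)
    rw [← hc, ← hX] at z
    refine ⟨fun b => (z _ (.inl ⟨rfl, b⟩)).trans ?_, fun b => (z _ (.inr ⟨rfl, b⟩)).trans ?_⟩
    · rw [mul_div_cancel_right₀ _ t0.ne', ← sr, pow_mul] at n3
      have := le_of_pow_le_pow_left₀ (by norm_num) s0.le n3
      calc _ ≤ K * (2 * σ t ^ 2) * (1 * σ t) := by gcongr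
        _ = _ := by ring
    · rw [div_mul_cancel_right₀ t0.ne', ← sr, inv_rpow (by positivity), ← rpow_natCast (σ t),
        ← rpow_mul s0.le] at n4
      have : (σ t ^ ((1000 : ℕ) * 50⁻¹ : ℝ))⁻¹ ≤ (σ t ^ 3)⁻¹ := inv_anti₀ (by positivity)
        ((rpow_natCast _ 3).ge.trans (rpow_le_rpow_of_exponent_le s1 (by norm_num)))
      refine (mul_le_mul_of_nonneg_left ((y2 _ _).trans (n4.trans this)) (by positivity)).trans_eq ?_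
      field_simp
  refine ⟨ρ, fun p B x => G.Ay β U (k p.1) p.2.2 (G.Q (k p.1) * p.1) (R p) ∧
    G.Zl β U (r₀ * p.1) (R p) (Aw 1 p.2.2 B) (x * ν p.1), fun p B =>
    G.Kq9 β U p.2.2 (r₀ * p.1) (R p) (Aw 1 p.2.2 B) (2 * σ p.1 ^ 2 * G.bb (k p.1)),
    ⟨fun c ⟨M, a⟩ => ⟨M, ?_⟩, ⟨1, fun {p B x B' x'} ⟨M, a⟩ ⟨_, a'⟩ => ⟨M, ?_⟩⟩,
      fun ⟨M, a⟩ b => ⟨M, ?_⟩, fun g ⟨M, a⟩ => ⟨M, ?_⟩, fun g ⟨L, T, E, C, C', a, b, c⟩ =>
        ⟨g :: L, T, E, C, C', a, (aw_acL [g]).trans (congrArg _ b), c⟩,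
      ⟨r₀, .of_forall fun p B x ⟨_, _, a⟩ => ?_⟩,
      E.mono fun p a m A m1 m2 hA d hd => ⟨a.1, (a.2.1 m A m1 m2 hA d hd).2⟩,
      z2.mono fun p z T E B B' hD hE _ ⟨M, a⟩ ⟨_, a'⟩ t t' => ?_,
      z2.mono fun p z T B hD _ ⟨M, a⟩ t => M.kq0 hD (z _ a) (typ_aw t), fun s => ?_, w.win, w.lim,
      w.lg, fun f hf η η0 => ?_⟩, E.mono fun p a hd d' hd' s s' hs hs' =>
      (a.2.2 hd d' hd' s s' hs hs').imp (⟨a.1, ·⟩) fun b c => ⟨a.1, b c⟩, fun f hf => ?_, w.inn, w.ts3⟩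
  · simpa only [aw_one, acL, List.foldr_nil, smul_comm (c : ℂ)] using
      M.zl1 [] a c (mul_assoc _ _ _).ge
  · simpa [aw_one, acL] using M.zl (B := ![Aw 1 _ B, Aw 1 _ B']) (N := ![_, _]) (c := fun _ => 1) (fun _ => [])
      (Fin.forall_fin_two.2 ⟨a, a'⟩) (x := 1 * (x + x') * ν p.1) (by simp [add_mul])
  · simpa [acL] using M.zl1 [] a 1 (by simpa using mul_le_mul_of_nonneg_right b (ν0 _))
  · simpa [aw_one, acL] using M.zl1 [g] a 1 (by rw [abs_one, one_mul])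
  · obtain ⟨B', a1, a2, -⟩ := a _ (lt_add_one _)
    have e : B = ((((3 ^ p.2.2)⁻¹ ^ 4)⁻¹ : ℝ) : ℂ) • Aw 1 p.2.2 B := by
      rw [aw_one, smul_smul, ← Complex.ofReal_mul, inv_mul_cancel₀ (by positivity)]
      simp
    refine ⟨e ▸ Submodule.smul_mem _ _ a1.mem.1, fun μ => ?_⟩
    rw [(e ▸ (a1.rc a2).smul _ : Rc B).th]
    simp only [Ro.act, Cm.rfL_symm]
  · simpa only [aw_one, smul_add, smul_comm (_ : ℂ) ((((3 ^ p.2.2)⁻¹ ^ 4 : ℝ)) : ℂ)] using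
      M.kq o hD hE (z _ a) (z _ a') (typ_aw t) (typ_aw t')
  · obtain ⟨N, hN⟩ := o.celK s
    refine ((hN _ hn).mono fun e₀ ⟨l, K, a, l1, l2, a'⟩ => ?_).frequently
    have t1 : (1 : ℝ) ≤ 3 ^ e₀ := one_le_pow₀ (by norm_num)
    have q0 := pow_pos (h.Q0 l) q
    have b0 := h.b0 l
    refine ⟨K + 2 * G.bb l * 3 ^ e₀, Cm.ev_Ps.2 ?_⟩
    filter_upwards [T, Cm.ev_Ps.1 E, Ioc_mem_nhdsGT (show 0 < (3 ^ e₀)⁻¹ / G.Q l ^ q by positivity)]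
      with t ⟨t0, s1, sr, r1, e1, e2, hr, _⟩ E ⟨_, d2⟩ d hd
    obtain ⟨n1, n2, -, n4⟩ := a _ t _ t0 e1 e2 l1 l2 ((le_div_iff₀' q0).1 d2)
    have q1 := h.Q0 (k t)
    filter_upwards [Cm.UU_le (a' _ (mul_pos q1 t0) (le_trans (by
      rw [sq, mul_assoc]
      exact mul_le_mul_of_nonneg_right ((h.LQ l).trans (h.Q_mono n1.le)) (by positivity)) n2)),
      E d hd] with e a ⟨M, _⟩ B hB
    have z := M.orb (l := l) o hB hr le_rfl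
    refine mx_le (a _ (M.kc o n1) M.fld _ _ _ z).1 z.1.le (by positivity) ?_ fun _ _ _ => yl_aw
    have c0 := h.cP0 (l + 1) (k t)
    have τ0 := rpow_pos_of_pos t0 100⁻¹
    have a1 : σ t ^ 2 * t ^ (100⁻¹ : ℝ) ≤ 1 := by
      refine le_of_pow_le_pow_left₀ (n := 100) (by norm_num) zero_le_one ?_
      rw [mul_pow, ← pow_mul, show (100⁻¹ : ℝ) = ((100 : ℕ) : ℝ)⁻¹ by norm_num,
        rpow_inv_natCast_pow t0.le (by norm_num), one_pow]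
      exact (mul_le_mul_of_nonneg_right ((pow_le_pow_right₀ s1 (by norm_num)).trans_eq sr)
        t0.le).trans r1
    have a2 : (t / (3 ^ e₀)⁻¹) ^ (50⁻¹ : ℝ) ≤ t ^ (100⁻¹ : ℝ) * t ^ (100⁻¹ : ℝ) * 3 ^ e₀ := by
      rw [div_inv_eq_mul, mul_rpow t0.le (by positivity), ← rpow_add t0]
      exact mul_le_mul (by norm_num) (rpow_le_self_of_one_le t1 (by norm_num)) (by positivity)
        (by positivity)
    have a3 : 1.01 ^ (k t - l) * G.Q (k t) ^ 8 ≤ (1.01 ^ (k t - l) * G.Q (k t)) ^ (c * 1000) :=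
      le_trans (by
        rw [mul_pow]
        exact mul_le_mul_of_nonneg_right (le_self_pow₀ (one_le_pow₀ (by norm_num)) (by norm_num))
          (by positivity)) (pow_le_pow_right₀ (y1 l (k t)) (show 8 ≤ _ by omega))
    calc _ ≤ G.cP (l + 1) (k t) * (2 * σ t ^ 2 * (1.01 ^ (k t - l) * G.bb l)) * G.Q (k t) ^ 8 := by
          gcongr
          exact h.b_pow n1.le
      _ = 2 * G.bb l * (σ t ^ 2 * (G.cP (l + 1) (k t) * (1.01 ^ (k t - l) * G.Q (k t) ^ 8))) := by ring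
      _ ≤ 2 * G.bb l * (σ t ^ 2 * (t ^ (100⁻¹ : ℝ) * t ^ (100⁻¹ : ℝ) * 3 ^ e₀)) := by
          gcongr _ * (_ * ?_)
          exact (mul_le_mul_of_nonneg_left a3 c0.le).trans (n4.trans a2)
      _ = σ t ^ 2 * t ^ (100⁻¹ : ℝ) * (2 * G.bb l * 3 ^ e₀ * t ^ (100⁻¹ : ℝ)) := by ring
      _ ≤ _ := mul_le_of_le_one_left (by positivity) a1
  · obtain ⟨K, a⟩ := PB f hf
    filter_upwards [a, Cm.Ps_fst.eventually ((tendsto_const_nhds.div_atTop st).eventually_le_const η0)]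
      with p a b B hB m A m1 m2 hA d hd
    exact ((a m A m1 m2 hA d hd B _ rfl).2 hB).trans b
  · obtain ⟨K, a⟩ := PB f hf
    filter_upwards [a, z2, T', Cm.Ps_fst.eventually (st.eventually_ge_atTop K)]
      with p a z ⟨_, s1, sr, _⟩ b B hB m A m1 m2 hA d hd
    have s0 := zero_le_one.trans s1
    refine ((a m A m1 m2 hA d hd B _ rfl).1 (z _ hB.2)).trans ((mul_le_mul_of_nonneg_right b
      (by positivity)).trans ?_)
    rw [← pow_succ', ← sr, ← rpow_natCast, ← rpow_natCast, ← rpow_mul s0]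
    exact rpow_le_rpow_of_exponent_le s1 (by norm_num)

end Pool.Agent.Lib.MP_7f377f_mp.RG.Q4.En.Gl
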