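import Pool.Agent.Lib.MP_7f377f_mp.G.TyU
import Pool.Agent.Lib.MP_7f377f_mp.G.TyV

/-! Abstract classes of slots: the input of the chessboard estimate. -/

noncomputable section

set_option linter.unusedSectionVars false
variable [Pool.Agent.Lib.MP_7f377f_mp.GD]

namespace Pool.Agent.Lib.MP_7f377f_mp.Ob

open Weak Finset YM7

variable {n n' s lam μ ρ : ℕ} [NeZero n] [NeZero n'] {B : Cfg n → ℝ} {φ : Site 4 n → ℝ} {ν : ℝ}

/-- the observable depends only on the links near the origin -/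
def Dl (ρ : ℕ) (B : Cfg n → ℝ) : Prop := ∀ (lam : ℕ) (c : Site 4 n), lam < n →
  (∀ l, ρ ≤ (c l).val ∧ (c l).val + ρ ≤ lam) → ∀ U V : Cfg n,
    (∀ l, (∀ k, half lam k l) → U l = V l) → B (shift c U) = B (shift c V)

theorem ltr_dl (hB : Dl ρ B) (hn : lam < n) (hρ : ρ < μ)
    (hφ : ∀ x, φ x ≠ 0 → ∀ l, μ ≤ (x l).val ∧ (x l).val + μ ≤ lam) {U V : Cfg n}
    (e : ∀ l, (∀ k, half lam k l) → U l = V l) : ltr n' s B 1 ν φ U = ltr n' s B 1 ν φ V := by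
  rw [ltr, ltr, gfield_sy_dep hn (fun x u l => by have := hφ x u l; omega) e, smr, smr]
  refine congrArg (1 * · + _) (sum_congr rfl fun x _ => ?_)
  by_cases z : φ (corner s x) = 0
  · simp only [z, zero_mul]
  rw [hB lam _ hn (fun l => by have := hφ _ z l; omega) U V e]

end Pool.Agent.Lib.MP_7f377f_mp.Ob

namespace Pool.Agent.Lib.MP_7f377f_mp.RG.Q4.En.Gl

open Finset Real Sg Br YM7 Ob
open Weak (Site corner)

variable (G : Gl) (b : ℝ) (J l : ℕ) [NeZero (G.N J)] (n' s : ℕ) [NeZero n']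

/-- classes of slots at the level `l` -/
structure Ks (ρ : ℕ) (a : ℝ) (D : (Cfg (G.N J) → ℝ) → ℝ → Prop) : Prop where
  rf : ∀ {B ν} y, D B ν → D (fun U => B (Weak.refl y U)) ν
  cont : ∀ {B ν}, D B ν → Continuous B
  dep : ∀ {B ν}, D B ν → Dl ρ B
  core : ∀ (γ : Type) [Fintype γ] [DecidableEq γ] (B : γ → Cfg (G.N J) → ℝ) (ν : γ → ℝ)
    (φ : γ → Site 4 (G.N J) → ℝ) (a' : ℝ), 0 < l → 0 < a' → a' ≤ a → G.rt J l * a' ≤ 1 →
    (∀ q, D (B q) (ν q)) → (∀ q, Lqq a' (φ q)) →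
    Cls (G.N J) (G.dl J l) univ id (fun q => sup (fat ρ (φ q))) →
    ∃ X, Xo (G.N J) X (fun q => ltr n' s (B q) 1 (ν q) (φ q)) ∧
      G.Sl b J l X (G.sg l) fun q => sup (fat ρ (φ q))

/-- families of slots in the cell at the origin -/
def Lk {n : ℕ} [NeZero n] (n' s : ℕ) [NeZero n'] (D : (Cfg n → ℝ) → ℝ → Prop) {κ' : Type}
    (lam μ Δ : ℕ) (a' : ℝ) (O : κ' → Cfg n → ℝ) : Prop :=
  ∃ (B : κ' → Cfg n → ℝ) (ν : κ' → ℝ) (φ : κ' → Site 4 n → ℝ), Pc lam μ Δ a' φ ∧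
    ∀ i, D (B i) (ν i) ∧ O i = ltr n' s (B i) 1 (ν i) (φ i)

namespace Ok

variable {G b J l n' s} {a a' x δ r t X : ℝ} {j m u c' ρ μ Δ e₀ z : ℕ} [NeZero m] {κ' : Type}
  [Fintype κ'] [DecidableEq κ'] {D : (Cfg (G.N J) → ℝ) → ℝ → Prop} (h : G.Ok) (tu : G.Tu b J)
  (hp : G.Pu) (K : G.Ks b J l n' s ρ a D) (hJ : l < J) (hN : G.N J = n' * s) (hs : s ∣ G.rt J l)
  (l0 : 0 < l) (a0 : 0 < a') (a1 : a' ≤ a) (a2 : G.rt J l * a' ≤ 1)
include h tu hp K hJ hN hs l0 a0 a1 a2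

theorem rg_ks (hj : j ≤ l) (hn : G.N j = m * u) (m1 : 1 < m) (x0 : 0 < x)
    (hD : G.dl J l + 2 * ρ ≤ Δ) (hμ : G.dl J l + 2 * ρ ≤ 2 * μ) (δ0 : 0 ≤ δ)
    (hδ : δ + x * ρ ≤ x * μ) (geo : ∀ F : Site 4 m × κ' → Src (G.N J),
      (∀ q, YM7.InT x δ (G.rt J j * u) q.1 (F q)) →
      Cls (G.N J) (66 * (G.L l ^ G.K0 * G.rt J l) : ℕ) univ id (fun q => sup (F q)) →
        G.Geo univ Prod.fst c' (fun q => sup (F q)) J l j) :
    Ob.Rg (Fi.tr haar) b (G.rt J j * u) (Lk n' s D (κ' := κ') (G.rt J j * u) μ Δ a')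
      (2 ^ (l - j) * G.sg l)⁻¹ (G.sg l)⁻¹ (cJ / G.g j * u ^ 4 + G.cz j u (Fintype.card κ'))
      (exp (G.cz j u (Fintype.card κ'))) := by
  have : (Fi.tr haar).IsHaarMeasure := (inferInstance : haar.IsHaarMeasure)
  have hN' : G.N J = m * (G.rt J j * u) := by rw [← h.rt_N (hj.trans hJ.le), hn, mul_left_comm]
  have hl : G.rt J j * u < G.N J := by
    have := (h.N_odd J).pos
    rw [hN'] at this ⊢
    exact lt_mul_of_one_lt_left (Nat.pos_of_mul_pos_left this) m1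
  have hs' : s ∣ G.rt J j * u := by
    rw [← h.rt_mul hj hJ.le]
    exact (hs.mul_left _).mul_right _
  have d0 : 0 < G.dl J l := by
    have : 0 < G.L l := by exact_mod_cast (show (0 : ℝ) < G.L l by linarith [h.L1 l])
    unfold dl rt
    positivity
  refine h.rg_sl (c := c') x0 tu hp hJ.le hj hn (h.sg_pos l) δ0 ⟨?_, ?_, ?_⟩ fun O hO => ?_
  · rintro O ⟨B, ν, φ, -, e⟩ i
    exact (e i).2 ▸ cont_ltr (K.cont (e i).1)
  · rintro O ⟨B, ν, φ, p, e⟩ y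
    exact ⟨fun i V => B i (Weak.refl y V), ν, _, p.rf hl y, fun i => ⟨K.rf y (e i).1,
      funext fun U => (congrFun (e i).2 _).trans (ltr_rcl hN hs' y U)⟩⟩
  · rintro O ⟨B, ν, φ, p, e⟩ i U V hU
    rw [(e i).2]
    exact ltr_dl (K.dep (e i).1) hl (by omega) (p.mar i) hU
  choose A ν φ p e using hO
  have hμ' : (G.dl J l : ℝ) + 2 * ρ ≤ 2 * μ := by exact_mod_cast hμ
  have hc : Cls (G.N J) (G.dl J l) univ id fun q : Site 4 m × κ' =>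
      sup (fat ρ fun x => φ q.1 q.2 (x - corner (G.rt J j * u) q.1)) := by
    rintro ⟨x, i⟩ - ⟨y, i'⟩ - v
    rcases eq_or_ne x y with rfl | w
    · exact sep_sp ((p x).sp hD _) fun w => v (Prod.ext rfl w)
    · have I := fun x i => (p x).inT (ρ := ρ) (δ := μ - ρ) hl (by omega) zero_le_one
        (by linarith) x i
      exact (sep_cell hN' one_pos (I x i) (I y i') w).mono (by linarith) (by rfl) (by rfl)
  obtain ⟨X, o, S⟩ := K.core _ _ _ _ _ l0 a0 a1 a2 (fun q : Site 4 m × κ' => (e q.1 q.2).1)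
    (fun q => TG.lqq_sub ((p q.1).lp q.2) _) hc
  have I := fun q : Site 4 m × κ' => (p q.1).inT hl (by omega) x0.le hδ q.1 q.2
  refine ⟨X, _, ?_, S, I, geo _ I fun x hx y hy v => (hc x hx y hy v).mono
    (Nat.cast_le.2 (Nat.mul_le_mul_right _ (Nat.le_mul_of_pos_right _ (by positivity))))
    (by rfl) (by rfl)⟩
  refine (congrArg (Xo _ X) (funext₂ fun q U => ?_)).mpr o
  rw [arr, (e q.1 q.2).2, ltr_shift hN hs']

theorem rg_kc (hj : j ≤ l) (hn : G.N j = m * u) (m1 : 1 < m) (s0 : 0 < x) (s1 : x * 3 ^ G.e J = 1)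
    (hw : x * (G.rt J j * u : ℕ) = 3⁻¹) (hL : 1000 * 3 ^ Fintype.card κ' ≤ G.L j) (ht : x ≤ t)
    (hρ : x * ρ ≤ t) (hr : r + 2 * t ≤ 12⁻¹) (hd : x * (G.dl J l + 2 * ρ : ℕ) ≤ 6⁻¹)
    (hX : X + 1 ≤ G.L l) (hR : r + 2 * t ≤ X * G.L l ^ (G.K0 + 1) * (G.rt J l * x)) :
    ∃ μ : ℕ, x * μ ≤ 6⁻¹ - r ∧ Ob.Rg (Fi.tr haar) b (G.rt J j * u) (Lk n' s D (κ' := κ')
      (G.rt J j * u) μ (G.dl J l + 2 * ρ) a') (2 ^ (l - j) * G.sg l)⁻¹ (G.sg l)⁻¹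
      (cJ / G.g j * u ^ 4 + G.cz j u (Fintype.card κ')) (exp (G.cz j u (Fintype.card κ'))) := by
  have m0 : 0 ≤ x * ρ := by positivity
  have h1 := (le_div_iff₀' s0).1 (Nat.floor_le (div_nonneg (a := 6⁻¹ - r) (by linarith) s0.le))
  have h2 := (div_lt_iff₀' s0).1 (Nat.lt_floor_add_one ((6⁻¹ - r) / x))
  refine ⟨_, h1, h.rg_ks tu hp K hJ hN hs l0 a0 a1 a2 hj hn m1 s0 le_rfl ?_
    (δ := 6⁻¹ - r - 2 * t) (by linarith) (by linarith) fun F hF hs => h.geo_arr (by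
      rw [← h.rt_N (hj.trans hJ.le), hn, mul_left_comm]) s0 hF hJ.le hj s1 (by linarith) hL hX
      (by rw [hw]; linarith) hs fun y => ?_⟩
  · have : x * (G.dl J l + 2 * ρ : ℕ) ≤ x * (2 * ⌊(6⁻¹ - r) / x⌋₊ : ℕ) := by
      push_cast at hd ⊢
      linarith
    exact_mod_cast le_of_mul_le_mul_left this s0
  · exact (card_le_card_of_injOn (t := univ) Prod.snd (fun _ _ => mem_univ _) fun p a q b =>
      Prod.ext ((mem_filter.1 a).2.trans (mem_filter.1 b).2.symm)).trans_eq card_univ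

omit l0 a2 in
/-- one slot in each cell on the lattice -/
theorem rg_k1 (v : G.Lfit z e₀ l) (a3 : a' * 3 ^ G.e J = 1)
    (rad : 2 * (a' * ρ) ≤ (3 ^ (e₀ + z))⁻¹) :
    ∃ Δ, Ob.Rg (Fi.tr haar) b (G.rt J l * 3 ^ (G.e l - e₀)) (Lk n' s D (κ' := Unit)
      (G.rt J l * 3 ^ (G.e l - e₀)) (G.rt J l * 3 ^ (G.e l - (e₀ + z))) Δ a')
      (G.sg l)⁻¹ (G.sg l)⁻¹ (G.cC e₀ l) (exp (G.cz l (3 ^ (G.e l - e₀)) (Fintype.card Unit))) := by
  have hl := hJ.le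
  have m1 := h.a_rtq hl a3 v.2.2.1
  obtain ⟨v0, v1, v2, v3, v4, v5, -⟩ := v
  have m0 := h.odd.pos
  have : NeZero (G.m * 3 ^ e₀) := ⟨by positivity⟩
  have hn : G.N l = G.m * 3 ^ e₀ * 3 ^ (G.e l - e₀) := by
    rw [N, mul_assoc, ← pow_add, Nat.add_sub_cancel' (le_self_add.trans v2)]
  have hJ' : G.N J = G.m * 3 ^ e₀ * (G.rt J l * 3 ^ (G.e l - e₀)) := by
    rw [mul_left_comm, ← hn, N, N, rt, mul_left_comm, ← pow_add,
      Nat.sub_add_cancel (h.sch.mono.monotone hl)]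
  obtain ⟨μ, hμ⟩ : ∃ μ, μ = G.rt J l * 3 ^ (G.e l - (e₀ + z)) := ⟨_, rfl⟩
  rw [← hμ] at m1 ⊢
  have r1 : 2 * (ρ : ℝ) ≤ μ := le_of_mul_le_mul_left (by linarith) a0
  have r2 : 2 * G.dl J l ≤ μ := by
    rw [hμ, dl]
    exact le_of_eq_of_le (by ring) (Nat.mul_le_mul_left (G.rt J l) v3)
  have r3 : 2 * ρ ≤ μ := by exact_mod_cast r1
  have := h.rg_ks (κ' := Unit) (c' := 1) (x := a') (δ := a' * μ / 2) (Δ := G.dl J l + 2 * ρ)
    (μ := μ) tu hp K hJ hN hs v0 a0 a1 ((le_mul_of_one_le_right (mul_pos (rt_pos _ _) a0).le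
      (one_le_pow₀ (by norm_num))).trans_eq (h.rt_a hl a3)) le_rfl hn
    (lt_of_lt_of_le (Nat.one_lt_pow v1.ne' (by norm_num)) (Nat.le_mul_of_pos_left _ m0)) a0 le_rfl
    (by omega) (by positivity) (by nlinarith) fun F i _ => h.geo_one hJ' a0 i hl (by positivity) (by
      have r4 : (2 * (66 * 3 ^ (G.K0 + 1) * (G.L l ^ G.K0 * G.rt J l)) : ℝ) ≤ μ := by
        exact_mod_cast r2
      have r5 := mul_le_mul_of_nonneg_right (one_le_pow₀ (n := G.K0 + 1) (show (1 : ℝ) ≤ 3 by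
        norm_num)) (show (0 : ℝ) ≤ G.L l ^ G.K0 * G.rt J l by positivity)
      have r6 : (0 : ℝ) ≤ G.L l ^ G.K0 * G.rt J l := by positivity
      nlinarith [mul_le_mul_of_nonneg_left (show 86 * (G.L l ^ G.K0 * G.rt J l : ℝ) ≤ μ by linarith)
        a0.le]) v5 v4 fun x y e => Prod.ext e rfl
  rw [Nat.sub_self, pow_zero, one_mul] at this
  exact ⟨_, this⟩

end Ok

end Pool.Agent.Lib.MP_7f377f_mp.RG.Q4.En.Gl
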