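import Pool.Agent.Lib.MP_7f377f_mp.G.ObD
import Pool.Agent.Lib.MP_7f377f_mp.G.SoftG

/-! Arrays of general observables: jets. -/

noncomputable section

namespace Pool.Agent.Lib.MP_7f377f_mp.Ob
variable [GD]
set_option linter.unusedSectionVars false

open Weak Jet Finset YM7 Function

variable {ι κ γ : Type} [DecidableEq ι] [DecidableEq κ] [DecidableEq γ] {e : κ → ι} {r : ι → ℝ}
  {M M' w : ℝ} {g : (ι → ℂ) → ℂ}

theorem ext_upd (he : Injective e) (s : κ → ℂ) (i : κ) (t : ℂ) :
    extend e (update s i t) 0 = update (extend e s (0 : ι → ℂ)) (e i) t := funext fun x => by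
  by_cases h : ∃ j, e j = x
  · obtain ⟨j, rfl⟩ := h
    rw [he.extend_apply]
    by_cases u : j = i
    · simp [u]
    · rw [update_of_ne u, update_of_ne (he.ne u), he.extend_apply]
  · rw [extend_apply' _ _ _ h, update_of_ne fun u => h ⟨i, u.symm⟩, extend_apply' _ _ _ h]

omit [DecidableEq ι] [DecidableEq κ] in
theorem ext_zero (e : κ → ι) : extend e (0 : κ → ℂ) (0 : ι → ℂ) = 0 := funext fun x => by
  classical
  rw [extend_def]; split_ifs <;> rfl

omit [DecidableEq ι] [DecidableEq κ] in
theorem ext_mem (he : Injective e) (hr : ∀ x, 0 < r x) {s : κ → ℂ} (hs : s ∈ Pd fun i => r (e i)) :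
    extend e s 0 ∈ Pd r := fun x => by
  by_cases h : ∃ j, e j = x
  · obtain ⟨j, rfl⟩ := h
    rw [he.extend_apply]
    exact hs j
  · rw [extend_apply' _ _ _ h]
    simpa using hr x

theorem sh_ext (he : Injective e) (h : SH r M g) :
    SH (fun i => r (e i)) M fun s => g (extend e s 0) :=
  ⟨fun _ => h.pos _, fun s hs i => by
    simpa only [ext_upd he] using h.hol _ (ext_mem he h.pos hs) (e i),
    fun _ hs => h.bd _ (ext_mem he h.pos hs)⟩

theorem jd_ext (he : Injective e) (h : SH r M g) (T : Finset κ) :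
    jd T (fun s => g (extend e s 0)) = jd (T.image e) g := by
  induction T using Finset.induction_on generalizing g M with
  | empty => simp [ext_zero]
  | insert i S hi ih =>
    have k : pd i (fun s => g (extend e s 0)) = fun s => pd (e i) g (extend e s 0) := by
      ext s; simp only [pd, ext_upd he]
    rw [image_insert, h.jd_insert (by simpa [he.eq_iff] using hi), (sh_ext he h).jd_insert hi, k,
      ih (h.pd _)]

variable [Fintype ι] [Fintype κ] [Fintype γ]

theorem mo_eqv {m : Finset ι → ℂ} {f E z : (ι → ℂ) → ℂ}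
    (hm : ∀ T, m T = jd T f / f 0) (e : Eqv r univ f fun s => Complex.exp (E s) * z s)
    (h : E = ma univ fun T => jd T E) (T : Finset ι) :
    m T = jd T fun s => Complex.exp (ma univ (YM7.ce E) s) * (z s / z 0) := by
  rw [hm, e.eq T (subset_univ T), e.zero, div_eq_inv_mul, ← jd_smul]
  refine congrArg _ (funext fun s => ?_)
  simp only [ma_ce h, Complex.exp_sub, Pi.smul_apply, smul_eq_mul]
  ring

/-- restriction to some of the variables -/
theorem red_ext (he : Injective e) {a : Finset ι → ℂ} {q : (ι → ℂ) → ℂ}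
    (hq : SH (fun _ => w) M q) (T : Finset κ) :
    jd (T.image e) (fun s => Complex.exp (ma univ a s) * q s) =
      jd T fun s => Complex.exp (ma univ (fun S => a (S.image e)) s) * q (extend e s 0) := by
  have b := sh_ma hq.pos univ a
  have p : ∀ _ : κ, 0 < w := fun i => hq.pos (e i)
  refine (jd_ext he (b.exp.mul hq) T).symm.trans ?_
  exact (((Eqv.mk (A := univ) ⟨_, sh_ext he b⟩ ⟨_, sh_ma p univ fun S => a (S.image e)⟩
    fun S hS => by rw [jd_ext he b, jd_ma _ (subset_univ _), jd_ma _ hS]).exp).mul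
      (Hb.refl ⟨_, sh_ext he hq⟩)).eq T (subset_univ T)

/-- factorisation over the cells -/
theorem gen_abs {m m' a : Finset (γ × κ) → ℂ} {q z : (γ × κ → ℂ) → ℂ} (e0 : a ∅ = 0)
    (hc : ∀ T, ∀ i ∈ T, ∀ j ∈ T, i.1 ≠ j.1 → a T = 0)
    (h1 : ∀ T, m T = jd T fun s => Complex.exp (ma univ a s) * q s)
    (h2 : ∀ T, m' T = jd T fun s => Complex.exp (ma univ a s) * z s)
    (hq : SH (fun _ => w) M q) (hz : Hb (fun _ => w) z)
    (hz' : ∀ c, ∃ y, SH (fun _ => w) M' y ∧ ∀ s ∈ Pd fun _ => w, y s * z (ct c s) = 1) :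
    ∃ g, SH (fun _ => w) (M * M' ^ Fintype.card γ) g ∧ ∀ B, m B = jd B fun s => g s *
      ∏ c, ma univ (fun T => m' (T.image (Prod.mk c))) fun i => s (c, i) := by
  choose y y1 y2 using hz'
  obtain ⟨_, hz⟩ := hz
  have hg := hq.mul (SH.prod hq.pos (X := univ) fun c _ => y1 c)
  rw [prod_const, card_univ] at hg
  refine ⟨_, hg, fun B => ?_⟩
  have k : ∀ c, Eqv (fun _ => w) univ (fun s => Complex.exp (ma univ a (ct c s)) * z (ct c s))
      fun s : γ × κ → ℂ => ma univ (fun T => m' (T.image (Prod.mk c))) fun i => s (c, i) :=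
    fun c => by
    have b := sh_ct ((sh_ma hq.pos univ a).exp.mul hz) c
    have b' := sh_ma (r := fun _ => w) (fun i => hq.pos (c, i)) univ
      fun T => m' (T.image (Prod.mk c))
    refine ⟨⟨_, b⟩, ⟨_, b'.cell c⟩, fun S _ => ?_⟩
    have k := jd_ct c (fun s : γ × κ → ℂ => ma univ (fun T => m' (T.image (Prod.mk c)))
      fun i => s (c, i)) S
    simp only [ct, if_true] at k
    rw [k, jd_ct c fun s => Complex.exp (ma univ a s) * z s]
    split_ifs with u
    · obtain ⟨T, rfl⟩ : ∃ T : Finset κ, S = T.image (Prod.mk c) :=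
        ⟨S.image Prod.snd, by ext ⟨c', i⟩; simp; grind⟩
      rw [← h2]
      refine Eq.trans ?_ (jd_relabel (Prod.mk_right_injective c) b' (b'.cell c) T).symm
      simp only [jd_ma _ (subset_univ T)]
    · rfl
  rw [h1, ← ((Hb.refl ⟨_, hg⟩).mul (Eqv.prod hq.pos fun c _ => k c)).eq B (subset_univ B)]
  refine jd_congr hq.pos (fun s hs => ?_) B
  simp only [Pi.mul_apply, prod_mul_distrib, ← Complex.exp_sum, ma_cells e0 hc]
  have := prod_congr rfl fun c (_ : c ∈ univ) => y2 c s hs
  rw [prod_mul_distrib, prod_const_one] at this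
  linear_combination -(Complex.exp (ma univ a s) * q s) * this

end Pool.Agent.Lib.MP_7f377f_mp.Ob
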