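import Pool.Agent.Lib.MP_7f377f_mp.G.ObD
import Pool.Agent.Lib.MP_7f377f_mp.G.SoftI

/-! Arrays of general observables: the chessboard estimate. -/

noncomputable section

namespace Pool.Agent.Lib.MP_7f377f_mp.Ob
variable [GD]
set_option linter.unusedSectionVars false

open MeasureTheory Weak Filter Topology Real Jet Finset YM7 Pur

variable {n lam : ℕ} [NeZero n] {κ : Type} [Fintype κ] [DecidableEq κ] [MeasurableSpace SU2]
  [BorelSpace SU2] {h : Measure SU2} [h.IsHaarMeasure] [IsProbabilityMeasure h]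
  {b w ρ C M ε : ℝ} {L : (κ → Cfg n → ℝ) → Prop} {O : κ → Cfg n → ℝ}
  {Λ : (Cfg n → ℝ) → ℝ} {m E : ℕ} {η : ℝ} {T : Finset κ} {lo hi : Fin 4 → ℤ}

theorem int_jd (h : Measure SU2) [h.IsHaarMeasure] [IsProbabilityMeasure h] (b : ℝ)
    (cO : ∀ i, Continuous (O i)) {r : κ → ℝ} {H : (κ → ℂ) → ℂ} (hH : SH r M H) (B : Finset κ) :
    ∫ U, jd B (fun s => Complex.exp (∑ i, s i * (O i U : ℝ)) * H s) ∂wilson h b n =
      jd B fun s => ma univ (mo (ex h b n) O) s * H s := by
  have e : ∀ U, jd B (fun s => Complex.exp (∑ i, s i * (O i U : ℝ)) * H s) =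
      ∑ T ∈ B.powerset, (∏ i ∈ T, O i U : ℝ) * jd (B \ T) H := fun U =>
    (jd_mul (sh_lin hH.pos univ _).exp hH B).trans (sum_congr rfl fun T _ => by
      rw [jd_exp_lin _ (subset_univ T), Complex.ofReal_prod])
  simp only [e]
  rw [integral_finsetSum _ fun T _ => (Integrable.ofReal (cint _
    (continuous_finsetProd T fun i _ => cO i))).mul_const _]
  exact (sum_congr rfl fun T _ => by
    rw [integral_mul_const, integral_complex_ofReal, jd_ma _ (subset_univ T)]; rfl).trans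
      (jd_mul (sh_ma hH.pos univ _) hH B).symm

/-- the observables of a cell -/
def ob (Λ : (Cfg n → ℝ) → ℝ) (O : κ → Cfg n → ℝ) (T : Finset κ) (U : Cfg n) : ℝ :=
  ∑ S ∈ T.powerset, (∏ i ∈ S, O i U) * (jd (T \ S) fun s => (ma univ (mo Λ O) s)⁻¹).re

theorem cont_ob (cO : ∀ i, Continuous (O i)) (T : Finset κ) : Continuous (ob Λ O T) :=
  continuous_finsetSum _ fun S _ => (continuous_finsetProd S fun i _ => cO i).mul continuous_const

theorem rcl_rcl (k : Fin 4) (U : Cfg n) : rcl lam k (rcl lam k U) = U := by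
  rw [rcl, rcl, shift_refl, refl_refl, shift_shift]
  funext e
  exact congrArg U (Prod.ext (funext fun l => by by_cases hl : l = k <;> simp [Weak.rf, hl]) rfl)

section
variable (hI : Inv Λ lam)
include hI

theorem mo0 (O : κ → Cfg n → ℝ) : mo Λ O ∅ = 1 := by simp [mo, hI.one]

theorem ob0 (O : κ → Cfg n → ℝ) (U : Cfg n) : ob Λ O ∅ U = 1 := by simp [ob, ma_zero, mo0 hI]

theorem ob_eq (O : κ → Cfg n → ℝ) (T : Finset κ) (U : Cfg n) : (ob Λ O T U : ℂ) = jd T fun s =>
    Complex.exp (∑ i, s i * (O i U : ℝ)) * (ma univ (mo Λ O) s)⁻¹ := by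
  obtain ⟨r, hr, -⟩ := (ev_inv (mo0 hI O)).exists
  refine Eq.trans ?_ (jd_mul (sh_lin hr.pos univ _).exp hr T).symm
  rw [ob, Complex.ofReal_sum]
  refine sum_congr rfl fun S _ => ?_
  rw [jd_exp_lin _ (subset_univ S), Complex.ofReal_mul, Complex.ofReal_prod]
  refine congrArg _ (Complex.ext rfl (jd_real hr (fun s _ hs => ?_) _).symm)
  have : ∀ T, (Jet.mon T s).im = 0 := fun T => prod_induction _ (fun z : ℂ => z.im = 0)
    (fun _ _ h h' => by simp [h, h']) rfl fun i _ => hs i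
  simp [ma, mo, this]

theorem ob_rcl (cO : ∀ i, Continuous (O i)) (k : Fin 4) (U : Cfg n) :
    ob Λ (fun i U => O i (rcl lam k U)) T U = ob Λ O T (rcl lam k U) := by
  have : mo Λ (fun i U => O i (rcl lam k U)) = mo Λ O := funext fun S => by
    have c := continuous_finsetProd S fun i _ => cO i
    exact congrArg Complex.ofReal ((hI.sh _ (c.comp (continuous_refl k)) _ fun l => by
      by_cases e : l = k
      exacts [⟨1, by simp [e]⟩, ⟨0, by simp [e]⟩]).trans (hI.rf _ c k))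
  simp only [ob, this]

theorem ob_fold (hL : Cl lam L) (p : Fin 4 → Prop) [DecidablePred p] (l : List (Fin 4))
    (hO : L O) : ∃ O', L O' ∧ ∀ T U, ob Λ O' T U =
      ob Λ O T (l.foldr (fun k V => if p k then rcl lam k V else V) U) := by
  induction l generalizing O with
  | nil => exact ⟨O, hO, fun _ _ => rfl⟩
  | cons k l ih =>
    by_cases e : p k
    · obtain ⟨O', h1, h2⟩ := ih (hL.rf O hO k)
      exact ⟨O', h1, fun T U => by rw [h2, ob_rcl hI (hL.cont O hO), List.foldr_cons, if_pos e]⟩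
    · simpa only [List.foldr_cons, if_neg e] using ih hO

theorem cen_ob (O : κ → Cfg n → ℝ) (μ : κ → ℝ) (U : Cfg n) : ∏ i, (O i U - μ i) =
    ∑ B, (jd Bᶜ fun s => ma univ (mo Λ O) s * Complex.exp (∑ i, s i * (-μ i : ℝ))).re *
      ob Λ O B U := by
  obtain ⟨r, hr, h2⟩ := (ev_inv (mo0 hI O)).exists
  have k := jd_mul ((sh_lin hr.pos univ fun i => (O i U : ℝ)).exp.mul hr) ((sh_ma hr.pos univ
    (mo Λ O)).mul (sh_lin hr.pos univ fun i => ((-μ i : ℝ) : ℂ)).exp) univ
  rw [jd_congr hr.pos (g' := fun s => Complex.exp (∑ i, s i * (O i U - μ i : ℝ))) (fun s hs => by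
    simp only [Pi.mul_apply, mul_assoc, inv_mul_cancel_left₀ (h2 s hs), ← Complex.exp_add,
      ← sum_add_distrib, ← mul_add]
    simp [sub_eq_add_neg]), jd_exp_lin _ Subset.rfl, ← Complex.ofReal_prod] at k
  have k2 := congrArg Complex.re k
  simp only [Complex.ofReal_re, Complex.re_sum, Pi.mul_def, ← ob_eq hI,
    Complex.re_ofReal_mul, powerset_univ, ← compl_eq_univ_sdiff] at k2
  simp only [mul_comm _ (ob Λ O _ U), ← k2]

variable [NeZero m]

theorem Gen.le (hG : Gen h b m lam Λ L w M) (hL : Cl lam L) (w0 : 0 < w)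
    {O : Site 4 m → κ → Cfg n → ℝ} (hO : ∀ c, L (O c)) (T : Site 4 m → Finset κ) :
    |∫ U, ∏ c, ob Λ (O c) (T c) (shift (corner lam c) U) ∂wilson h b n| ≤
      M * ∏ c, w ^ (T c).card := by
  obtain ⟨g, hg, e⟩ := hG O hO
  obtain ⟨r, hr, r1⟩ := ((eventually_all.2 fun c => ev_inv (mo0 hI (O c))).and
    (Ioo_mem_nhdsGT (inv_pos.2 w0))).exists
  have r0 : ∀ _ : Site 4 m × κ, 0 < r := fun _ => r1.1
  have h1 := SH.prod (X := univ) r0 fun c _ => (hr c).1.cell c
  have h2 := SH.prod (X := univ) r0 fun c _ => (sh_ma (fun _ => r1.1) univ (mo Λ (O c))).cell c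
  have h3 := hg.shrink r0 fun _ => r1.2.le
  have h4 := ((Eqv.mk ⟨_, sh_ma r0 univ _⟩ ⟨_, h3.mul h2⟩ fun B hB => (jd_ma _ hB).trans (e B)).mul
    (Hb.refl (A := univ) ⟨_, h1⟩))
  have h5 := (h4.trans (h4.snd.congr (g' := g) fun s hs => by
    simp only [Pi.mul_apply, mul_assoc, ← prod_mul_distrib]
    rw [prod_eq_one fun c _ => mul_inv_cancel₀ ((hr c).2 _ fun i => hs _), mul_one])).eq _
      (subset_univ (univ.biUnion fun c => (T c).image (Prod.mk c)))
  rw [← int_jd h b (O := arr lam O) (fun q => (hL.cont _ (hO q.1) q.2).comp (continuous_shift _))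
    h1] at h5
  rw [← Real.norm_eq_abs, ← Complex.norm_real, ← integral_complex_ofReal]
  refine (congrArg _ ((congrArg _ (funext fun U => ?_)).trans h5)).trans_le
    ((hg.jd_le _).trans_eq ?_)
  · simp only [Complex.ofReal_prod, ob_eq hI]
    refine (jd_cells r1.1 univ (fun c => (sh_lin (fun _ => r1.1) univ _).exp.mul (hr c).1)
      T).symm.trans ?_
    simp only [Pi.mul_apply, prod_mul_distrib, ← Complex.exp_sum, Fintype.sum_prod_type, arr]
  · rw [prod_biUnion fun c _ c' _ e => disjoint_left.2 (by simp; grind), div_eq_mul_inv,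
      ← prod_inv_distrib]
    exact congrArg _ (prod_congr rfl fun c _ => by
      rw [prod_image (Prod.mk_right_injective c).injOn]; simp)

variable (hb : 0 ≤ b) (hm : Odd m) (hn : n = m * lam) (w0 : 0 < w) (hC : 0 ≤ C) (hL : Cl lam L)
  (hG : Gen h b m lam Λ L w (exp (C * m ^ 4))) (hO : L O)
include hb hm hn w0 hC hL hG hO

/-- the chessboard estimate for the observables of the cells of a box -/
theorem ob_box (hE : ∀ l, hi l - lo l ≤ E) (h4 : 4 * E < m) (T : (Fin 4 → ℤ) → Finset κ) :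
    |∫ U, ∏ c ∈ cells lo hi, ob Λ O (T c) (fl lam c U) ∂wilson h b n| ≤
      ∏ c ∈ cells lo hi, exp (256 * C) * w ^ (T c).card := by
  classical
  choose O' o1 o2 using fun c : Fin 4 → ℤ => ob_fold hI hL (fun k => Odd (c k)) (List.finRange 4) hO
  obtain ⟨cb, hcb⟩ : ∃ cb : (Fin 4 → ℤ) → Site 4 m, ∀ c, cb c = fun l => (c l : ZMod m) :=
    ⟨_, fun _ => rfl⟩
  obtain ⟨z, hz⟩ : ∃ z : Site 4 m → Fin 4 → ℤ, ∀ x, z x = fun l => lo l + (x l - lo l).val :=
    ⟨_, fun _ => rfl⟩
  have z1 : ∀ c ∈ cells lo hi, z (cb c) = c := fun c hc => funext fun l => by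
    simp only [hz, hcb, (val_box hc hE h4 l).1, add_sub_cancel]
  have z2 : ∀ x, cb (z x) = x := fun x => funext fun l => by simp [hz, hcb]
  let β := Option ({G // L G} × Finset κ)
  obtain ⟨σ, hσ⟩ : ∃ σ : Site 4 m → β, ∀ x, σ x =
      if z x ∈ cells lo hi then some (⟨_, o1 (z x)⟩, T (z x)) else none := ⟨_, fun _ => rfl⟩
  have pr : ∀ f : Site 4 m → β → ℝ, (∀ x, f x none = 1) → ∏ x, f x (σ x) =
      ∏ c ∈ cells lo hi, f (cb c) (some (⟨_, o1 c⟩, T c)) := fun f hf => by
    rw [← prod_subset (subset_univ ((cells lo hi).image cb)) fun x _ hx => by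
      rw [hσ, if_neg fun k => hx (mem_image.2 ⟨_, k, z2 x⟩), hf], prod_image fun c hc c' hc' e => by
        rw [← z1 c hc, e, z1 c' hc']]
    exact prod_congr rfl fun c hc => by simp only [hσ, z1 c hc, if_pos hc]
  have key := YM5.wilson_cbox h hb hm hn (β := β) none (fun k o => o.map fun G =>
      (⟨_, hL.rf _ G.1.2 k⟩, G.2)) (fun _ => rfl) (fun k o => by cases o <;> simp [rcl_rcl])
    (fun o U => o.elim 1 fun G => ob Λ G.1.1 G.2 U)
    (fun o => by
      rcases o with _ | G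
      · exact BM.const 1
      · exact BM.of_continuous (cont_ob (hL.cont _ G.1.2) _))
    (fun _ => rfl)
    (fun o k U => by
      rcases o with _ | G
      · rfl
      · exact ob_rcl hI (hL.cont _ G.1.2) k U)
    (fun o U V hUV => by
      rcases o with _ | G
      · rfl
      · simp only [Option.elim, ob, fun i => hL.dep _ G.1.2 i U V hUV])
    (fun o => o.elim 1 fun G => w ^ G.2.card) (fun o => by cases o <;> simp [w0]) rfl
    (fun k o => by cases o <;> rfl) hC (fun σ => ?_) (fun l => (hi l - lo l).toNat)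
    (fun l => Int.toNat_le.2 (hE l)) h4 (fun l => lo l)
    σ fun x l hx => (hσ x).trans (if_neg fun k => by
      have := mem_Ico.1 (Fintype.mem_piFinset.1 k l)
      simp only [hz, Pi.sub_apply] at hx this
      omega)
  · rw [pr (fun _ o => o.elim 1 fun G => w ^ G.2.card) fun _ => rfl] at key
    refine le_trans (le_of_eq ?_) (key.trans_eq ?_)
    · congr 2
      funext U
      rw [pr (fun x o => o.elim 1 fun G => ob Λ G.1.1 G.2 (shift (corner lam x) U)) fun _ => rfl]
      refine prod_congr rfl fun c _ => ?_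
      rw [Option.elim, o2, fl]
      congr 3
      exact funext fun l => (corner_int hn _ (c l) (by rw [hcb])).symm
    · rw [prod_mul_distrib (f := fun _ => exp _), prod_const, ← exp_nat_mul]
      congr 2
      simp only [prod_mul_distrib, Fintype.card_piFinset, Int.card_Ico, Nat.cast_prod]
      norm_num
      ring
  · have := hG.le hI hL w0 (O := fun x => (σ x).elim O (·.1.1))
      (fun x => by rcases σ x with _ | G; exacts [hO, G.1.2]) fun x => (σ x).elim ∅ (·.2)
    refine (congrArg (|∫ U, · U ∂_|) (funext fun U => prod_congr rfl fun x _ => ?_)).trans_le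
      (this.trans_eq (congrArg _ (prod_congr rfl fun x _ => ?_)))
    all_goals rcases σ x with _ | G <;> simp [ob0 hI]

theorem ob_le (m4 : 4 < m) (T : Finset κ) :
    |∫ U, ob Λ O T U ∂wilson h b n| ≤ exp (256 * C) * w ^ T.card := by
  have := ob_box hI hb hm hn w0 hC hL hG hO (lo := 0) (hi := 1) (E := 1) (by simp) m4 fun _ => T
  have e : ∀ U : Cfg n, fl lam 0 U = U := fun U => by
    funext e
    simp only [fl, Pi.zero_apply, Int.not_odd_zero, if_false, List.foldr_fixed, mul_zero,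
      Int.cast_zero]
    exact congrArg U (Prod.ext (add_zero _) rfl)
  simpa only [show cells 0 1 = {0} by decide, prod_singleton, e] using this

theorem red_of_gen (m4 : 4 < m) {e : Finset κ → ℂ} (hR : Red Λ O w M e) :
    Red (ex h b n) O w (2 ^ Fintype.card κ * exp (256 * C) * M) e := by
  obtain ⟨e0, q, hq, q0, hm'⟩ := hR
  have hN := sh_ma_le (a := fun T => (∫ U, ob Λ O T U ∂wilson h b n : ℝ)) w0 fun T => by
    simpa using ob_le hI hb hm hn w0 hC hL hG hO m4 T
  refine ⟨e0, _, hN.mul hq, by simp [ma_zero, ob0 hI, q0], fun T => ?_⟩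
  obtain ⟨r, ⟨h1, h2⟩, r1⟩ := ((ev_inv (mo0 hI O)).and (Ioo_mem_nhdsGT (inv_pos.2 w0))).exists
  have r0 : ∀ _ : κ, 0 < r := fun _ => r1.1
  have h3 := sh_ma r0 univ (mo (ex h b n) O)
  have h4 := (Eqv.mk (A := univ) ⟨_, h3.mul h1⟩ ⟨_, hN.shrink r0 fun _ => r1.2.le⟩ fun S hS => by
    rw [jd_ma _ hS, ← integral_complex_ofReal]
    simp only [ob_eq hI]
    exact (int_jd h b (hL.cont O hO) h1 S).symm).mul (Eqv.mk ⟨_, sh_ma r0 univ (mo Λ O)⟩
      ⟨_, (sh_ma r0 univ e).exp.mul (hq.shrink r0 fun _ => r1.2.le)⟩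
      fun S hS => (jd_ma _ hS).trans (hm' S))
  rw [← jd_ma (mo (ex h b n) O) (subset_univ T), ← jd_congr r0 (fun s hs => ?_) T,
    h4.eq T (subset_univ T)]
  · exact congrArg _ (funext fun s => mul_left_comm _ _ _)
  · exact inv_mul_cancel_right₀ (h2 s hs) _

theorem cen_le (m4 : 4 < m) {e : Finset κ → ℂ} (hR : Red Λ O w M e)
    (he : ∀ T, 2 ≤ T.card → ‖e T‖ ≤ ρ ^ T.card) (wρ : w ≤ ρ) : ∃ r : Finset κ → ℝ,
      (∀ U, ∏ i, ce h b (O i) U = ∑ B, r B * ob Λ O B U) ∧
        ∀ B, |r B| ≤ cA (Fintype.card κ) C M * ρ ^ Bᶜ.card := by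
  have ρ0 := w0.trans_le wρ
  obtain ⟨-, q', hq', q1, hm1⟩ := red_of_gen hI hb hm hn w0 hC hL hG hO m4 hR
  obtain ⟨e0, q, hq, q0, hm0⟩ := hR
  have M0 := hq.nonneg
  have h2 : ∀ i, ‖e {i} + (-ex h b n (O i) : ℝ)‖ ≤
      2 ^ Fintype.card κ * exp (256 * C) * M * w := fun i => by
    have := (hm1 {i}).trans (jd_mul_one (sh_ma hq'.pos univ e).exp hq' i)
    simp only [jd_single i fun s => Complex.exp _, ma_single (mem_univ i), ma_zero, e0, q1] at this
    rw [show e {i} + (-ex h b n (O i) : ℝ) = -jd {i} q' by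
      simp [mo] at this; push_cast; linear_combination -this, norm_neg]
    simpa using hq'.jd_pow {i}
  have r0 : ∀ _ : κ, 0 < ρ⁻¹ := fun _ => inv_pos.2 ρ0
  have hq2 := hq.shrink r0 fun _ => inv_anti₀ w0 wρ
  have hA := (((sh_ma_le ρ0 (hi_le (X := 1) (by simpa) zero_le_one ρ0)).exp.mul hq2).mul (sh_lin r0 univ
    fun i => e {i} + (-ex h b n (O i) : ℝ)).exp).mono (M' := cA (Fintype.card κ) C M) (by
      rw [cA, mul_one]
      gcongr
      exact (sum_le_card_nsmul _ _ _ fun i _ => by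
        rw [inv_mul_le_iff₀' ρ0]; exact (h2 i).trans (by gcongr)).trans_eq (by simp))
  refine ⟨_, cen_ob hI O fun i => ex h b n (O i), fun B => ?_⟩
  rw [((Eqv.mk ⟨_, sh_ma r0 univ (mo Λ O)⟩ ⟨_, (sh_ma r0 univ e).exp.mul hq2⟩
    fun T hT => (jd_ma _ hT).trans (hm0 T)).mul (Hb.refl (A := univ) ⟨_, (sh_lin r0 univ
      fun i => ((-ex h b n (O i) : ℝ) : ℂ)).exp⟩)).eq Bᶜ (subset_univ _)]
  refine (Complex.abs_re_le_norm _).trans ((congrArg (‖jd Bᶜ ·‖) (funext fun s => ?_)).trans_le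
    (hA.jd_pow Bᶜ))
  simp only [Pi.mul_apply, ma_hi e0 s, mul_add, sum_add_distrib, Complex.exp_add]
  ring

theorem arr_ob {P : Cfg n → ℝ} {r : Finset κ → ℝ} (e : ∀ U, P U = ∑ B, r B * ob Λ O B U)
    (hr : ∑ B, |r B| * w ^ B.card ≤ η) : Arr h b lam P (exp (256 * C) * η) := fun lo hi E hE h4 => by
  have := arr_sum (h := h) (b := b) (O := fun (c : cells lo hi) B U => ob Λ O B (fl lam c U))
    (fun c B => (cont_ob (hL.cont O hO) B).comp ?_) (β := fun _ => r) (η := exp (256 * C) * η)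
    (ω := fun B => exp (256 * C) * w ^ B.card) (fun _ => by positivity) (fun T => ?_) fun _ => ?_
  · rwa [Fintype.card_coe, ← funext fun U => (prod_coe_sort (cells lo hi) fun c =>
      ∑ B, r B * ob Λ O B (fl lam c U)).symm, ← funext fun U => prod_congr rfl fun c _ => e _] at this
  · unfold fl
    induction List.finRange 4 with
    | nil => exact continuous_shift _
    | cons k l ih =>
      simp only [List.foldr_cons]
      split_ifs
      exacts [(continuous_refl k).comp ((continuous_shift _).comp ih), ih]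
  · have := ob_box hI hb hm hn w0 hC hL hG hO hE (by rw [hn] at h4; nlinarith)
      fun c => if hc : c ∈ cells lo hi then T ⟨c, hc⟩ else ∅
    simpa only [← prod_coe_sort (cells lo hi), coe_mem, dif_pos] using this
  · simp only [mul_left_comm _ (exp _), ← mul_sum]
    exact mul_le_mul_of_nonneg_left hr (exp_pos _).le

theorem arr_ce (m4 : 4 < m) {P : Cfg n → ℝ} {r : Finset κ → ℝ}
    (e : ∀ U, P U = ∑ B, r B * ob Λ O B U) (hr : ∑ B ∈ univ.erase ∅, |r B| * w ^ B.card ≤ η) :
    Arr h b lam (ce h b P) (exp (256 * C) * ((1 + exp (256 * C)) * η)) := by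
  refine arr_ob hI hb hm hn w0 hC hL hG hO (r := fun B => r B - if B = ∅ then ex h b n P else 0)
    (fun U => by simp [ce, e U, sub_mul, ob0 hI]) ?_
  have e2 : ex h b n P = r ∅ + ∑ B ∈ univ.erase ∅, r B * ∫ U, ob Λ O B U ∂wilson h b n := by
    rw [ex, funext e, integral_finsetSum _ fun B _ =>
      (cint _ (cont_ob (hL.cont O hO) B)).const_mul _, ← add_sum_erase _ _ (mem_univ ∅)]
    simp [integral_const_mul, ob0 hI]
  rw [← add_sum_erase _ _ (mem_univ ∅), card_empty, pow_zero, mul_one, if_pos rfl, add_mul,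
    one_mul, add_comm η]
  refine add_le_add ?_ (le_of_eq_of_le (sum_congr rfl fun B hB => by
    rw [if_neg (ne_of_mem_erase hB), sub_zero]) hr)
  rw [e2, sub_add_cancel_left, abs_neg]
  refine (abs_sum_le_sum_abs _ _).trans ((sum_le_sum fun B _ => ?_).trans
    ((mul_sum _ _ _).ge.trans (mul_le_mul_of_nonneg_left hr (exp_pos _).le)))
  rw [abs_mul, mul_left_comm]
  exact mul_le_mul_of_nonneg_left (ob_le hI hb hm hn w0 hC hL hG hO m4 B) (abs_nonneg _)

end

theorem arr_of {P : Cfg n → ℝ} (hn : n = m * lam) (H : 4 < m → Arr h b lam P η) :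
    Arr h b lam P η := fun lo hi E hE h4 => by
  rcases (cells lo hi).eq_empty_or_nonempty with e | ⟨c, hc⟩
  · simp [e]
  · have := mem_Ico.1 (Fintype.mem_piFinset.1 hc 0)
    have := hE 0
    have := lt_of_mul_lt_mul_right (hn ▸ h4) lam.zero_le
    exact H (by omega) lo hi E hE h4

/-- one observable in each cell -/
theorem Rg.one {L : (Unit → Cfg n → ℝ) → Prop} {O : Unit → Cfg n → ℝ} (H : Rg h b lam L w ρ C M)
    (hO : L O) : Arr h b lam (ce h b (O ())) (exp (256 * C) * (1 + exp (256 * C)) * w) := by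
  obtain ⟨hb, w0, hC, hL, m, _, Λ, hm, hn, hI, hG, -⟩ := H
  rw [mul_assoc]
  have u : (univ : Finset (Finset Unit)) = {∅, {()}} := by decide
  refine arr_of hn fun m4 => arr_ce hI hb hm hn w0 hC hL hG hO m4 (r := fun B =>
    if B = ∅ then -(jd {()} fun s => (ma univ (mo Λ O) s)⁻¹).re else 1) (fun U => ?_) ?_
  · rw [u, sum_pair (by decide), ob0 hI, ob, ← insert_empty_eq,
      sum_powerset_insert (notMem_empty _)]
    simp [ma_zero, mo0 hI]
  · rw [show univ.erase ∅ = {({()} : Finset Unit)} by decide]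
    simp

/-- clusters -/
theorem Rg.clu (H : Rg h b lam L w ρ C M) (hw : w ≤ ρ) (hO : L O) :
    Arr h b lam (fun U => ∏ i, ce h b (O i) U) (cB (Fintype.card κ) C M * ρ ^ Fintype.card κ) := by
  obtain ⟨hb, w0, hC, hL, m, _, Λ, hm, hn, hI, hG, hR⟩ := H
  obtain ⟨e, hR, he⟩ := hR O hO
  refine arr_of hn fun m4 => ?_
  obtain ⟨r, e1, e2⟩ := cen_le hI hb hm hn w0 hC hL hG hO m4 hR he hw
  have ρ0 := w0.trans_le hw
  have A0 : 0 ≤ cA (Fintype.card κ) C M := by
    have := hR.2.choose_spec.1.nonneg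
    unfold cA; positivity
  rw [cB, mul_assoc]
  refine arr_ob hI hb hm hn w0 hC hL hG hO e1 ((sum_le_card_nsmul _ _
    (cA (Fintype.card κ) C M * ρ ^ Fintype.card κ) fun B _ => ?_).trans ?_)
  · rw [← card_add_card_compl B, add_comm B.card, pow_add, ← mul_assoc, add_comm,
      card_add_card_compl]
    exact mul_le_mul (e2 B) (pow_le_pow_left₀ w0.le hw _) (by positivity) (by positivity)
  · rw [← cA, card_univ, Fintype.card_finset, nsmul_eq_mul, ← mul_assoc]
    push_cast
    gcongr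
    exact le_mul_of_one_le_right (by positivity) (le_add_of_nonneg_right (exp_pos _).le)

/-- concentration of clusters -/
theorem Rg.con (H : Rg h b lam L w ρ C M) (ρ0 : 0 < ρ) (hw : w ≤ ε * ρ) (ε1 : ε ≤ 1) (hO : L O) :
    Arr h b lam (ce h b fun U => ∏ i, ce h b (O i) U)
      (cB (Fintype.card κ) C M * (ε * ρ ^ Fintype.card κ)) := by
  obtain ⟨hb, w0, hC, hL, m, _, Λ, hm, hn, hI, hG, hR⟩ := H
  obtain ⟨e, hR, he⟩ := hR O hO
  have ε0 : 0 < ε := pos_of_mul_pos_left (w0.trans_le hw) ρ0.le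
  refine arr_of hn fun m4 => ?_
  obtain ⟨r, e1, e2⟩ := cen_le hI hb hm hn w0 hC hL hG hO m4 hR he
    (hw.trans (mul_le_of_le_one_left ρ0.le ε1))
  have A0 : 0 ≤ cA (Fintype.card κ) C M := by
    have := hR.2.choose_spec.1.nonneg
    unfold cA; positivity
  have := arr_ce hI hb hm hn w0 hC hL hG hO m4 e1 (η := 2 ^ Fintype.card κ *
    (cA (Fintype.card κ) C M * (ε * ρ ^ Fintype.card κ))) ((sum_le_card_nsmul _ _
      (cA (Fintype.card κ) C M * (ε * ρ ^ Fintype.card κ)) fun B hB => ?_).trans ?_)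
  · exact (congrArg _ (by rw [cB, ← cA]; ring)).mp this
  · have h5 : w ^ B.card ≤ ε * ρ ^ B.card := (pow_le_pow_left₀ w0.le hw _).trans (by
      rw [mul_pow]
      gcongr
      exact pow_le_of_le_one ε0.le ε1 (card_ne_zero.2 (nonempty_iff_ne_empty.2 (ne_of_mem_erase hB))))
    refine (mul_le_mul (e2 B) h5 (by positivity) (by positivity)).trans_eq ?_
    rw [mul_assoc, mul_left_comm _ ε, ← pow_add, add_comm, card_add_card_compl]
  · rw [nsmul_eq_mul]
    gcongr
    exact_mod_cast card_erase_le.trans (by simp)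

end Pool.Agent.Lib.MP_7f377f_mp.Ob
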