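import Pool.Agent.Lib.MP_7f377f_mp.G.LgCore
import Pool.Agent.Lib.MP_7f377f_mp.G.RoDef

/-! The limit functional with diagonal reflection positivity. -/

noncomputable section

namespace Pool.Agent.Lib.MP_7f377f_mp.L6
variable [Pool.Agent.Lib.MP_7f377f_mp.GD]
set_option linter.unusedSectionVars false

open MeasureTheory Filter Topology Set Real YM7 Pur MvPolynomial Weak

set_option linter.unusedSectionVars false

/-- fields on the infinite lattice -/
abbrev Fz : Type := (Fin 4 → ℤ) × Fin 4 → SU2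

/-- the periodic field on the infinite lattice -/
def lf {n : ℕ} (U : Cfg n) : Fz := fun e => U (fun i => (e.1 i : ZMod n), e.2)

/-- gauge transformations -/
def gz (γ : (Fin 4 → ℤ) → SU2) (U : Fz) : Fz := fun e => γ e.1 * U e * (γ (e.1 + Pi.single e.2 1))⁻¹

/-- the links in the closed half space of the diagonal mirror -/
def Hf : Set ((Fin 4 → ℤ) × Fin 4) := {e | e.1 1 ≤ e.1 0 ∧ (e.2 = 1 → e.1 1 < e.1 0)}

variable [MeasurableSpace SU2] [BorelSpace SU2] (h : Measure SU2) [h.IsHaarMeasure]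
  [IsProbabilityMeasure h]

/-- diagonal reflection positivity in the infinite volume limit at fixed coupling -/
def ThD : Prop := ∀ (l : Filter ℕ) (n : ℕ → ℕ) [∀ i, NeZero (n i)] (b : ℕ → ℝ) (b₀ : ℝ), 0 < b₀ →
  Tendsto b l (𝓝 b₀) → (∀ i, Odd (n i)) → (∀ r, ∀ᶠ i in l, 3 ^ r ∣ n i) → ∀ g : C(Fz, ℝ),
    (∃ s : Finset ((Fin 4 → ℤ) × Fin 4), ↑s ⊆ Hf ∧ DependsOn g s) → (∀ γ U, g (gz γ U) = g U) →
    ∀ ε > 0, ∀ᶠ i in l,
      -ε ≤ ∫ U, g (lf U) * g (lf (prm (Equiv.swap 0 1) U)) ∂wilson h (b i) (n i)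

variable {ι : Type} (Φ : Filter ι) (n : ι → ℕ) [∀ p, NeZero (n p)] (a b : ι → ℝ)

/-- approximate diagonal reflection positivity of the lattice correlations -/
def SwapL : Prop := ∀ (m : ℕ) (c : Fin m → ℝ) (k : Fin m → ℕ) (f : ∀ u, Fin (k u) → R4 → ℝ),
  (∀ u, Adm (f u)) → (∀ u i, tsupport (f u i) ⊆ {y | y 1 < y 0}) → ∀ ε > 0, ∀ᶠ p in Φ,
    -ε ≤ ∑ u, ∑ u', c u * c u' * corr h (b p) (n p) (a p)
      (Fin.append (fun i y => f u i (WithLp.toLp 2 (y ∘ Equiv.swap 0 1))) (f u'))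

/-- limit points of the lattice correlations -/
structure Lim (U : Ultrafilter ι) (S₀ : ∀ {k : ℕ}, (Fin k → R4 → ℝ) → ℝ) (S : Pol →ₗ[ℂ] ℂ) :
    Prop where
  le : U ≤ Φ
  cv : ∀ {k} {f : Fin k → R4 → ℝ}, Adm f →
    Tendsto (fun p => corr h (b p) (n p) (a p) f) U (𝓝 (S₀ f))
  nr : ∀ {k} {f : Fin k → R4 → ℝ}, Adm f → ∀ {F : ∀ p, Fin k → Src (n p)},
    (∀ᶠ p in Φ, ∀ i, Near (a p) (F p i) (f i)) →
      Tendsto (fun p => gcorr h (b p) (n p) (F p)) U (𝓝 (S₀ f))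
  lift : ∀ {k} {f : Fin k → R4 → ℝ}, Adm f → S (mon f) = S₀ f

/-- the volume goes to infinity first, through powers of three -/
def fast : Filter (ℕ × ℕ) :=
  atTop.bind fun J => map (fun s => (3 ^ s / 2, J)) (hyperfilter ℕ : Filter ℕ)

variable {h Φ n a b} {τ : ι → ℝ}

theorem ev_fast {P : ℕ × ℕ → Prop} : (∀ᶠ p in fast, P p) ↔
    ∀ᶠ J in atTop, ∀ᶠ s in (hyperfilter ℕ : Filter ℕ), P (3 ^ s / 2, J) := eventually_bind

theorem hyp_le : (hyperfilter ℕ : Filter ℕ) ≤ atTop := Nat.cofinite_eq_atTop ▸ hyperfilter_le_cofinite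

instance : fast.NeBot := ⟨fun e => by
  have := ev_fast.1 (e ▸ eventually_bot : ∀ᶠ _ in fast, False)
  simp only [eventually_const] at this⟩

theorem fast_le : fast ≤ atTop ×ˢ atTop := fun _ hs => by
  obtain ⟨P, hP, Q, hQ, e⟩ := eventually_prod_iff.1 hs
  have t : Tendsto (fun s : ℕ => 3 ^ s / 2) atTop atTop :=
    (Nat.tendsto_div_const_atTop two_ne_zero).comp (tendsto_pow_atTop_atTop_of_one_lt (by norm_num))
  exact ev_fast.2 (hQ.mono fun J hJ => ((t.eventually hP).filter_mono hyp_le).mono fun s hs => e hs hJ)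

/-- the action density on the infinite lattice -/
def dz (x : Fin 4 → ℤ) : C(Fz, ℝ) := ⟨fun U => ∑ i, ∑ j, if i < j then 2 - 2 * GD.re1 (U (x, i) *
    U (x + Pi.single i 1, j) * (U (x + Pi.single j 1, i))⁻¹ * (U (x, j))⁻¹) else 0,
  continuous_finsetSum _ fun i _ => continuous_finsetSum _ fun j _ => by
    split_ifs
    exacts [continuous_pe (n := 0) x i j, continuous_const]⟩

theorem dz_lf {n : ℕ} (U : Cfg n) (x : Fin 4 → ℤ) : dz x (lf U) = dens U fun i => x i := by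
  have e : ∀ i, (fun l => ((x + Pi.single i 1 : Fin 4 → ℤ) l : ZMod n)) =
      (fun l => (x l : ZMod n)) + Pi.single i 1 := fun i => funext fun l => by
    by_cases hl : l = i <;> simp [hl]
  simp only [dz, dens, lf, ContinuousMap.coe_mk, e]

theorem dz_gz (γ : (Fin 4 → ℤ) → SU2) (U : Fz) (x : Fin 4 → ℤ) : dz x (gz γ U) = dz x U := by
  let _ := YM5.quatHS
  simp only [dz, ContinuousMap.coe_mk]
  refine Finset.sum_congr rfl fun i _ => Finset.sum_congr rfl fun j _ => ?_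
  split_ifs
  · rw [← YM5.qq_rho, ← YM5.qq_rho, ← qq_conj _ (γ x) (U _ * _ * _ * _)]
    simp only [gz, add_right_comm x (Pi.single i 1) (Pi.single j 1)]
    congr 1
    group
  · rfl

/-- the links of the plaquettes at `x` -/
def lk (x : Fin 4 → ℤ) : Finset ((Fin 4 → ℤ) × Fin 4) :=
  Finset.univ.image (fun i => (x, i)) ∪ (Finset.univ.offDiag.image fun q => (x + Pi.single q.1 1, q.2))

theorem dz_dep (x : Fin 4 → ℤ) : DependsOn (dz x) (lk x) := fun U V e => by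
  have e1 : ∀ i, U (x, i) = V (x, i) := fun i => e _ (by simp [lk])
  have e2 : ∀ i j, i ≠ j → U (x + Pi.single i 1, j) = V (x + Pi.single i 1, j) := fun i j hij =>
    e _ (Finset.mem_union_right _ (Finset.mem_image.2 ⟨(i, j), by simpa, rfl⟩))
  simp only [dz, ContinuousMap.coe_mk]
  refine Finset.sum_congr rfl fun i _ => Finset.sum_congr rfl fun j _ => ?_
  split_ifs with hij
  · rw [e1, e1, e2 i j hij.ne, e2 j i hij.ne']
  · rfl

theorem lk_hf {x : Fin 4 → ℤ} (hx : x 1 < x 0) : ↑(lk x) ⊆ Hf := fun e he => by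
  simp only [lk, Finset.coe_union, Finset.coe_image, mem_union, mem_image, Finset.mem_coe,
    Finset.mem_offDiag] at he
  obtain ⟨i, -, rfl⟩ | ⟨⟨i, j⟩, ⟨-, -, hij⟩, rfl⟩ := he
  · exact ⟨hx.le, fun _ => hx⟩
  · simp only [Hf, mem_ofPred_eq, Pi.add_apply, Pi.single_apply] at hij ⊢
    refine ⟨?_, fun e => ?_⟩
    · split_ifs <;> omega
    · rw [if_neg (e ▸ hij).symm]
      split_ifs <;> omega

/-- position of a site -/
def pz (a : ℝ) (x : Fin 4 → ℤ) : R4 := WithLp.toLp 2 fun l => a * x l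

/-- the smeared field on the infinite lattice -/
def fz (a : ℝ) (M : ℕ) (f : R4 → ℝ) : C(Fz, ℝ) :=
  ∑ x ∈ (Fintype.piFinset fun _ => Finset.Icc (-M : ℤ) M).filter fun x => x 1 < x 0, f (pz a x) • dz x

theorem fz_lf {n M : ℕ} [NeZero n] {a : ℝ} {f : R4 → ℝ} (a0 : 0 < a) (hM : 2 * M < n)
    (h1 : ∀ y, f y ≠ 0 → y 1 < y 0 ∧ ‖y‖ ≤ a * M) (U : Cfg n) :
    fz a M f (lf U) = gfield (src n a f) U := by
  have v : ∀ x ∈ (Fintype.piFinset fun _ : Fin 4 => Finset.Icc (-M : ℤ) M).filter fun x => x 1 < x 0,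
      ∀ l, (x l : ZMod n).valMinAbs = x l := fun x hx l => by
    have := Finset.mem_Icc.1 (Fintype.mem_piFinset.1 (Finset.mem_filter.1 hx).1 l)
    exact vma_cast (by omega) (by omega)
  unfold src
  rw [gfield_site, fz, ContinuousMap.sum_apply]
  refine Finset.sum_bij_ne_zero (fun x _ _ l => (x l : ZMod n)) (fun _ _ _ => Finset.mem_univ _)
    (fun x hx _ y hy _ e => funext fun l => ?_) (fun x _ hx => ?_) fun x hx _ => ?_
  · rw [← v x hx, ← v y hy, congrFun e l]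
  · obtain ⟨e1, e2⟩ := h1 _ (left_ne_zero_of_mul hx)
    have e3 : (fun l => (((x l).valMinAbs : ℤ) : ZMod n)) = x := by simp
    refine ⟨fun l => (x l).valMinAbs, Finset.mem_filter.2 ⟨Fintype.mem_piFinset.2 fun l => ?_, ?_⟩,
      ?_, e3⟩
    · have := (PiLp.norm_apply_le _ l).trans e2
      simp only [xp, Real.norm_eq_abs, abs_mul, abs_of_pos a0, mul_le_mul_iff_right₀ a0] at this
      exact Finset.mem_Icc.2 (abs_le.1 (by exact_mod_cast this))
    · simpa [xp, mul_lt_mul_iff_right₀ a0] using e1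
    · rwa [ContinuousMap.smul_apply, dz_lf, e3]
  · simp only [ContinuousMap.smul_apply, dz_lf, smul_eq_mul, xp, pz, v x hx]

theorem swap_eq {n : ℕ} [NeZero n] (b a : ℝ) {m : ℕ} (c : Fin m → ℝ) {k : Fin m → ℕ}
    (f : ∀ u, Fin (k u) → R4 → ℝ) (σ : Equiv.Perm (Fin 4)) :
    ∑ u, ∑ u', c u * c u' * corr h b n a
      (Fin.append (fun i y => f u i (WithLp.toLp 2 (y ∘ σ))) (f u')) =
    ∫ U, pol h b c (fun u i => src n a (f u i)) U * pol h b c (fun u i => src n a (f u i)) (prm σ U)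
      ∂wilson h b n := by
  have cc := continuous_cen (n := n) h b
  have cr : Continuous (prm (n := n) σ) := by
    unfold prm
    fun_prop
  have e : ∀ g : R4 → ℝ, ∀ U, cen h b (fun x _ _ => g (WithLp.toLp 2 (xp a x ∘ σ))) U =
      cen h b (src n a g) (prm σ U) := fun g =>
    cen_of h b (mp_prm h b σ) (gfield_prm σ fun x => g (xp a x))
  simp only [corr_eq, gcorr_eq, Fin.prod_univ_add, Fin.append_left, Fin.append_right, pol,
    ← integral_const_mul]
  simp only [Finset.sum_mul_sum]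
  rw [Finset.sum_comm, integral_finsetSum _ fun a _ => cint _ (by fun_prop)]
  refine Finset.sum_congr rfl fun u _ => ?_
  rw [integral_finsetSum _ fun a _ => cint _ (by fun_prop)]
  refine Finset.sum_congr rfl fun u' _ => ?_
  congr 1
  funext U
  simp only [← e]
  change _ * ((∏ i, cen h b (fun x _ _ => f u' i (WithLp.toLp 2 (xp a x ∘ σ))) U) *
    ∏ i, cen h b (src n a (f u i)) U) = _
  ring

theorem swapL_of (hD : ThD h) {n : ℕ × ℕ → ℕ} [∀ p, NeZero (n p)] {a b τ : ℕ × ℕ → ℝ}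
    (hF : Fam (atTop ×ˢ atTop) n a b τ) {N : ℕ → ℕ} (hn : ∀ p, n p = (2 * p.1 + 1) * 3 ^ N p.2)
    (ha : ∀ p, a p = a (0, p.2)) : SwapL h fast n a b := by
  intro m c k f f1 f2 ε ε0
  have c0 : (0 : ℝ) < 11 * GD.b0 / (48 * π ^ 2) := by have := GD.b0_pos; positivity
  refine ev_fast.2 ((ev_fast.1 (((hF.cpl.eventually (Icc_mem_nhds (half_lt_self c0)
    (lt_add_one _))).and (hF.a0.eventually (Ioo_mem_nhdsGT zero_lt_one))).filter_mono
      fast_le)).mono fun J hJ => ?_)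
  simp only [ha (_, J)] at hJ ⊢
  generalize a (0, J) = A at hJ ⊢
  obtain ⟨A0, A1⟩ := hJ.exists.choose_spec.2
  have l0 : 0 < log A⁻¹ := log_pos ((one_lt_inv₀ A0).2 A1)
  have b1 : ∀ᶠ s in (hyperfilter ℕ : Filter ℕ), 11 * GD.b0 / (48 * π ^ 2) / 2 * log A⁻¹ ≤ b (3 ^ s / 2, J) ∧
      b (3 ^ s / 2, J) ≤ (11 * GD.b0 / (48 * π ^ 2) + 1) * log A⁻¹ :=
    hJ.mono fun s e => ⟨(le_div_iff₀ l0).1 e.1.1, (div_le_iff₀ l0).1 e.1.2⟩
  have b2 := ultra_lim (hyperfilter ℕ) (b1.mono fun s e =>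
    (abs_of_nonneg (le_trans (by positivity) e.1)).trans_le e.2)
  have n1 : ∀ s, n (3 ^ s / 2, J) = 3 ^ s * 3 ^ N J := fun s => by
    rw [hn, Nat.two_mul_div_two_add_one_of_odd (Odd.pow (by decide))]
  obtain ⟨R, R0, hR⟩ := (isCompact_iUnion fun j : Σ u, Fin (k u) =>
    ((f1 j.1).1 j.2).1).isBounded.exists_pos_norm_le
  obtain ⟨M, hM⟩ := exists_nat_ge (R / A)
  have n2 : ∀ᶠ s in (hyperfilter ℕ : Filter ℕ), ∀ u i (U : Cfg (n (3 ^ s / 2, J))),
      fz A M (f u i) (lf U) = gfield (src _ A (f u i)) U := by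
    filter_upwards [hyp_le (eventually_ge_atTop (2 * M))] with s hs u i
    refine fz_lf A0 ?_ fun y hy => ⟨f2 u i (subset_tsupport _ hy), (hR y (mem_iUnion.2
      ⟨⟨u, i⟩, subset_tsupport _ hy⟩)).trans ((div_le_iff₀' A0).1 hM)⟩
    rw [n1]
    exact (hs.trans_lt (Nat.lt_pow_self (by norm_num))).trans_le
      (Nat.le_mul_of_pos_right _ (by positivity))
  obtain ⟨μ, hμ⟩ : ∃ μ : ℕ → (Σ u, Fin (k u)) → ℝ, ∀ s q, μ s q = ∫ U, fz A M (f q.1 q.2) (lf U)
    ∂wilson h (b (3 ^ s / 2, J)) (n (3 ^ s / 2, J)) := ⟨_, fun _ _ => rfl⟩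
  have m1 : Tendsto μ (hyperfilter ℕ) (𝓝 fun q => limUnder (hyperfilter ℕ : Filter ℕ) (μ · q)) :=
    tendsto_pi_nhds.2 fun q => ultra_lim _ (C := ‖fz A M (f q.1 q.2)‖) (.of_forall fun s => by
      rw [hμ]
      simpa using norm_integral_le_of_norm_le_const (μ := wilson h (b (3 ^ s / 2, J)) _)
        (.of_forall fun U => (fz A M (f q.1 q.2)).norm_coe_le_norm (lf U)))
  generalize (fun q => limUnder (hyperfilter ℕ : Filter ℕ) (μ · q)) = μ₀ at m1
  obtain ⟨G, hG⟩ : ∃ G : ((Σ u, Fin (k u)) → ℝ) → C(Fz, ℝ), ∀ w, G w =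
    ∑ u, c u • ∏ i, (fz A M (f u i) - w ⟨u, i⟩ • 1) := ⟨_, fun _ => rfl⟩
  have g1 : Continuous G := by
    rw [funext hG]
    fun_prop
  have g2 : ∀ w U, G w U = ∑ u, c u * ∏ i, (fz A M (f u i) U - w ⟨u, i⟩) := fun w U => by
    simp [hG]
  have g3 := ((g1.tendsto _).comp m1).norm.add_const ‖G μ₀‖ |>.mul
    (tendsto_iff_norm_sub_tendsto_zero.1 ((g1.tendsto _).comp m1))
  rw [mul_zero] at g3
  have g4 : ∀ {U V : Fz}, (∀ x : Fin 4 → ℤ, x ∈ Fintype.piFinset (fun _ => Finset.Icc (-M : ℤ) M) →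
      x 1 < x 0 → dz x U = dz x V) → G μ₀ U = G μ₀ V := fun e => by
    simp only [g2, fz, ContinuousMap.sum_apply, ContinuousMap.smul_apply]
    exact Finset.sum_congr rfl fun u _ => congrArg _ (Finset.prod_congr rfl fun i _ =>
      congrArg (· - _) (Finset.sum_congr rfl fun x hx => by
        rw [e x (Finset.mem_filter.1 hx).1 (Finset.mem_filter.1 hx).2]))
  filter_upwards [n2, g3.eventually_le_const (half_pos ε0), hD _ (fun s => n (3 ^ s / 2, J)) _ _
    (lt_of_lt_of_le (by positivity) (ge_of_tendsto b2 (b1.mono fun _ e => e.1))) b2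
    (fun s => by rw [n1]; exact (Odd.pow (by decide)).mul (Odd.pow (by decide)))
    (fun r => (eventually_ge_atTop r).filter_mono hyp_le |>.mono fun s hs => by
      rw [n1]; exact (pow_dvd_pow 3 hs).mul_right _) (G μ₀)
    ⟨((Fintype.piFinset fun _ => Finset.Icc (-M : ℤ) M).filter fun x => x 1 < x 0).biUnion lk,
      fun e he => let ⟨x, hx, e1⟩ := Finset.mem_biUnion.1 he
        lk_hf (Finset.mem_filter.1 hx).2 e1,
      fun U V e => g4 fun x h1 h2 => dz_dep x fun l hl =>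
        e l (Finset.mem_biUnion.2 ⟨x, Finset.mem_filter.2 ⟨h1, h2⟩, hl⟩)⟩
    (fun γ U => g4 fun x _ _ => dz_gz γ U x) _ (half_pos ε0)] with s e1 e2 e3
  have cl : Continuous (lf (n := n (3 ^ s / 2, J))) := by
    unfold lf
    fun_prop
  have cr : Continuous (prm (n := n (3 ^ s / 2, J)) (Equiv.swap 0 1)) := by
    unfold prm
    fun_prop
  have e4 : ∀ U : Cfg (n (3 ^ s / 2, J)), pol h (b (3 ^ s / 2, J)) c (fun u i => src _ A (f u i)) U = G (μ s) (lf U) :=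
    fun U => by simp only [pol, cen, g2, hμ, e1]
  simp only [swap_eq, e4]
  have e5 := norm_integral_le_of_norm_le_const (μ := wilson h (b (3 ^ s / 2, J)) (n (3 ^ s / 2, J))) (C := ε / 2)
    (f := fun U => G μ₀ (lf U) * G μ₀ (lf (prm (Equiv.swap 0 1) U)) -
      G (μ s) (lf U) * G (μ s) (lf (prm (Equiv.swap 0 1) U))) (.of_forall fun U => by
    generalize lf U = x, lf (prm (Equiv.swap 0 1) U) = y
    have h1 := (G (μ s) - G μ₀).norm_coe_le_norm
    simp only [ContinuousMap.sub_apply] at h1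
    rw [show G μ₀ x * G μ₀ y - G (μ s) x * G (μ s) y =
      -(G (μ s) x * (G (μ s) y - G μ₀ y) + G μ₀ y * (G (μ s) x - G μ₀ x)) by ring, norm_neg]
    refine (norm_add_le _ _).trans (le_trans ?_ e2)
    rw [add_mul, norm_mul, norm_mul]
    exact add_le_add (mul_le_mul ((G _).norm_coe_le_norm x) (h1 y) (norm_nonneg _) (norm_nonneg _))
      (mul_le_mul ((G _).norm_coe_le_norm y) (h1 x) (norm_nonneg _) (norm_nonneg _)))
  rw [integral_sub (cint _ (by fun_prop)) (cint _ (by fun_prop)), probReal_univ, mul_one] at e5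
  linarith [(abs_le.1 e5).2]

theorem lim10 [Φ.NeBot] (hF : Fam Φ n a b τ) (hB : Bd7 h Φ n a b τ)
    (hA : ∀ K, ShortA h Φ n a b K) (hP : Lg.PolyC h Φ n a b fun p => 2 * τ p)
    (hW : SwapL h Φ n a b) :
    ∃ (U : Ultrafilter ι) (S₀ : ∀ {k : ℕ}, (Fin k → R4 → ℝ) → ℝ) (S : Pol →ₗ[ℂ] ℂ)
      (n' : ℕ → ℕ+) (a' b' : ℕ → ℝ), Lim h Φ n a b U S₀ S ∧
      Tendsto a' atTop (𝓝[>] 0) ∧ Tendsto (fun j => a' j * n' j) atTop atTop ∧
      Tendsto (fun j => b' j / log (a' j)⁻¹) atTop (𝓝 (11 * GD.b0 / (48 * π ^ 2))) ∧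
      (∀ Z ∈ Loc univ, Tendsto (fun j => vev h (b' j) (n' j) (a' j) Z) atTop (𝓝 (S Z))) ∧
      Lg.Inp S ∧ (∀ σ, Ro.Inv S (Ro.prm σ)) ∧
      (∀ {k} (f : Fin k → R4 → ℝ), Adm f → (S (mon f)).im = 0) ∧ Ro.SwapRP S := by
  obtain ⟨U, p, S, hU, cv, nr, h1, h2, h3, h4, h5⟩ := infinite_ultra hF hB
  have hO := os_of (n := fun j => ⟨n (p j), NeZero.pos _⟩) (a := a ∘ p) (b := b ∘ p) h4 h5
    (gram_of hF hU nr)
  obtain ⟨S', e⟩ := exists_lift hO
  have hS := st_of hO (fun hf => (h4 _ _ hf).2.2.1) e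
  have hL := linP_of (n := fun j => ⟨n (p j), NeZero.pos _⟩) (a := a ∘ p) (b := b ∘ p)
    (fun hf => (h4 _ _ hf).1) e
  have e1 : ∀ (σ : Equiv.Perm (Fin 4)) (y : R4), (Ro.prm σ).symm y = WithLp.toLp 2 (y ∘ σ) :=
    fun σ y => by
      rw [LinearIsometryEquiv.symm_apply_eq]
      ext i
      simp [Ro.prm_apply]
  refine ⟨U, S, S', fun j => ⟨n (p j), NeZero.pos _⟩, a ∘ p, b ∘ p, ⟨hU, cv, nr, e⟩, h1, h2, h3,
    fun Z hZ => ?_, ⟨hS, hL, Lg.qb_grow hS e hL (Lg.prodS_of hF hP hU cv),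
      fun k => qb_short (hA k) hU nr hS e k le_rfl⟩, fun σ => .of_mon fun k f hf => ?_,
    fun f hf => by rw [e hf, Complex.ofReal_im], fun Z hZ => ?_⟩
  · obtain ⟨m, c, k, f, f1, -, rfl⟩ := PN.exists_sum hZ
    simp only [vev_sum, map_sum, map_smul, e (f1 _), smul_eq_mul]
    exact tendsto_finsetSum _ fun i _ =>
      ((Complex.continuous_ofReal.tendsto _).comp (h4 _ _ (f1 i)).1).const_mul _
  · rw [Ro.act_mon, e (Ro.adm_act hf _), e hf]
    simp only [e1, (h4 _ _ hf).2.2.1]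
  · obtain ⟨m, c, k, f, f1, f2, rfl⟩ := PN.exists_sum hZ
    have a1 : ∀ u u', Adm (Fin.append (fun i y => f u i (WithLp.toLp 2 (y ∘ Equiv.swap 0 1)))
        (f u')) := fun u u' => by
      simp only [← e1]
      refine (Ro.adm_act (f1 u) _).append (f1 u') fun i j => disjoint_left.2 fun y hy hy' => ?_
      have e2 := f2 u i (tsupport_comp (Ro.prm _).symm.continuous hy)
      have e3 := f2 u' j hy'
      simp only [e1, mem_ofPred_eq, Function.comp, Equiv.swap_apply_left,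
        Equiv.swap_apply_right] at e2 e3
      exact e2.not_gt e3
    have a2 : ∀ c : Fin m → ℝ, 0 ≤ ∑ u, ∑ u', c u * c u' * S
        (Fin.append (fun i y => f u i (WithLp.toLp 2 (y ∘ Equiv.swap 0 1))) (f u')) := fun c =>
      le_of_forall_pos_le_add fun ε ε0 => neg_le_iff_add_nonneg.1 (ge_of_tendsto
        (tendsto_finsetSum _ fun u _ => tendsto_finsetSum _ fun u' _ => (cv (a1 u u')).const_mul _)
        (hU (hW m c k f f1 f2 ε ε0)))
    refine (add_nonneg (a2 fun u => (c u).re) (a2 fun u => (c u).im)).trans_eq ?_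
    have a3 : ∀ u, map (starRingEnd ℂ) (c u • mon (f u)) = starRingEnd ℂ (c u) • mon (f u) :=
      fun u => by simp [mon, smul_eq_C_mul]
    simp only [map_sum, a3, map_smul, Ro.act_mon, Finset.sum_mul_sum, smul_mul_smul_comm,
      ← mon_append, e1, e (a1 _ _), Complex.re_sum, ← Finset.sum_add_distrib, smul_eq_mul]
    refine Finset.sum_congr rfl fun u _ => Finset.sum_congr rfl fun u' _ => ?_
    simp
    ring

end Pool.Agent.Lib.MP_7f377f_mp.L6
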