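import Pool.Agent.Lib.MP_7f377f_mp.G.ObD
import Pool.Agent.Lib.MP_7f377f_mp.G.SoftI
import Pool.Agent.Lib.MP_7f377f_mp.G.S10L6
import Pool.Agent.Lib.MP_7f377f_mp.G.PurF

/-! Polynomials as lattice observables. -/

noncomputable section

namespace Pool.Agent.Lib.MP_7f377f_mp.Ob
variable [GD]
set_option linter.unusedSectionVars false

open MeasureTheory Weak Filter Topology Real Jet Finset YM7 Pur MvPolynomial

variable {n lam k : ℕ} [NeZero n] [MeasurableSpace SU2] [BorelSpace SU2] {h : Measure SU2}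
  [h.IsHaarMeasure] [IsProbabilityMeasure h] {a b w η R V : ℝ} {Y Z : Pol} {A A' : Set R4}

theorem Rc.X (f : R4 → ℝ) : Rc (X f) := map_X _ _

theorem Rc.one : Rc 1 := map_one _

theorem Rc.add (e : Rc Y) (e' : Rc Z) : Rc (Y + Z) := (map_add _ _ _).trans (congrArg₂ _ e e')

theorem Rc.sub (e : Rc Y) (e' : Rc Z) : Rc (Y - Z) := (map_sub _ _ _).trans (congrArg₂ _ e e')

theorem Rc.mul (e : Rc Y) (e' : Rc Z) : Rc (Y * Z) := (map_mul _ _ _).trans (congrArg₂ _ e e')

theorem Rc.smul (e : Rc Y) (c : ℝ) : Rc ((c : ℂ) • Y) := by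
  rw [smul_eq_C_mul]
  exact Rc.mul (by rw [Rc, map_C, Complex.conj_ofReal]) e

theorem Rc.sum {ι : Type} {s : Finset ι} {Y : ι → Pol} (e : ∀ i ∈ s, Rc (Y i)) :
    Rc (∑ i ∈ s, Y i) := (map_sum _ _ _).trans (sum_congr rfl e)

theorem Rc.prod {ι : Type} {s : Finset ι} {Y : ι → Pol} (e : ∀ i ∈ s, Rc (Y i)) :
    Rc (∏ i ∈ s, Y i) := (map_prod _ _ _).trans (prod_congr rfl e)

theorem Rc.ren (e : Rc Y) (φ : (R4 → ℝ) → R4 → ℝ) : Rc (rename φ Y) :=
  (map_rename _ _ _).trans (congrArg _ e)

theorem Rc.th (e : Rc Y) (μ : Fin 4) : net.Θ μ Y = rename (fun f y => f (Pur.rf μ y)) Y :=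
  congrArg (rename _) e

theorem Rc.theta (e : Rc Y) (μ : Fin 4) : Rc (net.Θ μ Y) := e.th μ ▸ e.ren _

theorem Rc.tau (e : Rc Y) (v : R4) : Rc (net.τ v Y) := e.ren _

theorem evc_X (f : R4 → ℝ) (U : Cfg n) :
    evc h b n a (X f) U = (cen h b (sy fun x => f (xp a x)) U : ℝ) := by
  simp only [evc, aeval_X]

theorem evc_C (c : ℂ) (U : Cfg n) : evc h b n a (C c) U = c := by
  simp only [evc, aeval_C]
  rfl

theorem evc_conj (Y : Pol) (U : Cfg n) :
    evc h b n a (MvPolynomial.map (starRingEnd ℂ) Y) U = starRingEnd ℂ (evc h b n a Y U) := by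
  induction Y using MvPolynomial.induction_on with
  | C c => rw [map_C, evc_C, evc_C]
  | add p q e e' => simp only [map_add, Pi.add_apply, e, e']
  | mul_X p f e => simp only [map_mul, map_X, Pi.mul_apply, e, evc_X, Complex.conj_ofReal]

theorem Rc.evc (e : Rc Y) (U : Cfg n) : evc h b n a Y U = evr h b n a Y U :=
  (Complex.conj_eq_iff_re.1 ((evc_conj Y U).symm.trans (by rw [e]))).symm

theorem cont_evc (Y : Pol) : Continuous (evc h b n a Y) := by
  induction Y using MvPolynomial.induction_on with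
  | C c => exact continuous_const.congr fun U => (evc_C c U).symm
  | add p q e e' => rw [map_add]; exact e.add e'
  | mul_X p f e =>
    rw [map_mul]
    exact e.mul ((Complex.continuous_ofReal.comp (continuous_cen h b _)).congr
      fun U => (evc_X f U).symm)

theorem cont_evr (Y : Pol) : Continuous (evr h b n a Y) :=
  Complex.continuous_re.comp (cont_evc Y)

theorem int_evc (Y : Pol) : Integrable (evc h b n a Y) (wilson h b n) :=
  (BoundedContinuousFunction.mkOfCompact ⟨_, cont_evc Y⟩).integrable _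

theorem evc_mon (f : Fin k → R4 → ℝ) (U : Cfg n) :
    evc h b n a (mon f) U = (∏ i, cen h b (sy fun x => f i (xp a x)) U : ℝ) := by
  simp only [Pur.mon, map_prod, Finset.prod_apply, evc_X, Complex.ofReal_prod]

theorem cen_shift (F : Src n) (v : Site 4 n) (U : Cfg n) :
    cen h b F (shift v U) = cen h b (fun x => F (x - v)) U :=
  (cen_of h b (mp_shift' h b v) (gfield_shift F v) U).symm

theorem cen_rcl (F : Src n) (l : Fin 4) (U : Cfg n) :
    cen h b F (rcl lam l U) = cen h b (rL lam l F) U :=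
  (cen_of h b (mp_refl' h b l) (gfield_refl l F) _).symm.trans (cen_shift _ _ U)

theorem gfield_congr {F G : Src n} (e : ∀ x i j, i < j → F x i j = G x i j) :
    gfield F = gfield G := funext fun U => sum_congr rfl fun x _ => sum_congr rfl fun i _ =>
  sum_congr rfl fun j _ => by
    split_ifs with u
    exacts [by rw [e x i j u], rfl]

theorem cen_congr {F G : Src n} (e : ∀ x i j, i < j → F x i j = G x i j) (U : Cfg n) :
    cen h b F U = cen h b G U := by
  simp only [cen, gfield_congr e]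

/-- exact translation of the sample points -/
theorem xp_add {f : R4 → ℝ} (hR : ∀ y, f y ≠ 0 → ∀ l, |y l| ≤ R) (ha : 0 < a) {s : Fin 4 → ℤ}
    (hs : ∀ l, |a * s l| ≤ V) (hn : 2 * (R + V) < a * n) (x : Site 4 n) :
    f (xp a (x + fun l => (s l : ZMod n))) = f (xp a x + WithLp.toLp 2 fun l => a * s l) := by
  have key : ∀ (y : ZMod n) (t : ℤ), |a * y.valMinAbs + a * t| ≤ R + V →
      (y + t).valMinAbs = y.valMinAbs + t := fun y t h => vma_add (by
    have : (|y.valMinAbs + (t : ℝ)| * 2 : ℝ) < n := by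
      refine lt_of_mul_lt_mul_left ?_ ha.le
      rw [← mul_add, abs_mul, abs_of_pos ha] at h
      linarith
    exact_mod_cast this)
  by_cases e : ∀ l, (x l + s l).valMinAbs = (x l).valMinAbs + s l
  · congr 1
    ext l
    simp [xp, e l, mul_add]
  · have V0 := (abs_nonneg _).trans (hs 0)
    rw [of_not_not (a := f (xp a (x + _)) = 0) fun u => e fun l => ?_,
      of_not_not (a := f (xp a x + _) = 0) fun u => e fun l => key _ _ ?_]
    · exact (hR _ u l).trans (le_add_of_nonneg_right V0)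
    · have h4 : |a * (x l + s l).valMinAbs| ≤ R := hR _ u l
      have h7 := key (x l + s l) (-s l) (by
        rw [Int.cast_neg, mul_neg, ← sub_eq_add_neg]
        exact (abs_sub _ _).trans (add_le_add h4 (hs l)))
      rw [Int.cast_neg, add_neg_cancel_right] at h7
      rw [h7, neg_add_cancel_right]

theorem near_sy {f : R4 → ℝ} (hf : Continuous f) (hR : ∀ y, f y ≠ 0 → ∀ l, |y l| ≤ R) (ha : 0 < a)
    (hn : 2 * (R + 2 * a) < a * n) : Near a (sy (n := n) fun x => f (xp a x)) f := by
  intro x μ ν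
  have hc := ((convex_closedBall (xp a x) (10 * a)).isPreconnected.image f hf.continuousOn).convex
  have key : ∀ s : Fin 4 → ℤ, (∀ l, |s l| ≤ 2) →
      f (xp a (x + fun l => (s l : ZMod n))) ∈ f '' Metric.closedBall (xp a x) (10 * a) := fun s hs => by
    have e : ∀ l, |a * s l| ≤ 2 * a := fun l => by
      rw [abs_mul, abs_of_pos ha, mul_comm]
      exact mul_le_mul_of_nonneg_right (by exact_mod_cast hs l) ha.le
    refine ⟨_, (dist_le_two (w := 2 * a) fun l => ?_).trans (by linarith), (xp_add hR ha e hn x).symm⟩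
    simpa using e l
  have c1 : ∀ i : Fin 4, (fun l => (((Pi.single i 1 : Fin 4 → ℤ) l : ℤ) : ZMod n)) =
      Pi.single i 1 := fun i => funext fun l => by by_cases u : l = i <;> simp [u]
  have b1 : ∀ i l : Fin 4, |(Pi.single i 1 : Fin 4 → ℤ) l| ≤ 1 := fun i l => by
    by_cases u : l = i <;> simp [u]
  have k0 := key 0 fun l => by simp
  have k1 := key (Pi.single μ 1) fun l => (b1 μ l).trans one_le_two
  have k2 := key (Pi.single ν 1) fun l => (b1 ν l).trans one_le_two
  have k3 := key (Pi.single μ 1 + Pi.single ν 1) fun l =>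
    (abs_add_le _ _).trans (add_le_add (b1 μ l) (b1 ν l))
  simp only [Pi.add_apply, Int.cast_add, ← Pi.add_def, c1, ← add_assoc] at k1 k2 k3
  simp only [Pi.zero_apply, Int.cast_zero, ← Pi.zero_def, add_zero] at k0
  have h2 : (0 : ℝ) ≤ 1 / 2 := by norm_num
  obtain ⟨y, hy, e⟩ := hc (hc k0 k1 h2 h2 (add_halves 1)) (hc k2 k3 h2 h2 (add_halves 1)) h2 h2
    (add_halves 1)
  exact .inr ⟨y, hy, by rw [e, sy]; simp only [smul_eq_mul]; ring⟩

theorem span_ev {φ ψ : Pol → ℂ} {σ : ℂ → ℂ} (hY : Y ∈ net.loc A)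
    (h1 : ∀ X Y, φ (X + Y) = φ X + φ Y) (h2 : ∀ X Y, ψ (X + Y) = ψ X + ψ Y)
    (h3 : ∀ (c : ℂ) X, φ (c • X) = σ c * φ X) (h4 : ∀ (c : ℂ) X, ψ (c • X) = σ c * ψ X)
    (h5 : ∀ k (f : Fin k → R4 → ℝ), Adm f → (∀ i, tsupport (f i) ⊆ A) → φ (mon f) = ψ (mon f)) :
    φ Y = ψ Y := by
  induction hY using Submodule.span_induction with
  | mem Z hZ => obtain ⟨k, f, e1, e2, rfl⟩ := hZ; exact h5 k f e1 e2
  | zero => rw [show φ 0 = 0 by simpa using h1 0 0, show ψ 0 = 0 by simpa using h2 0 0]
  | add X Y _ _ e e' => rw [h1, h2, e, e']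
  | smul c X _ e => rw [h3, h4, e]

/-- translations -/
theorem evc_shift (hY : Y ∈ net.loc (Bx R)) (ha : 0 < a) {v : Fin 4 → ℤ} (hv : ∀ l, |a * v l| ≤ V)
    (hn : 2 * (R + V + 2 * a) < a * n) (U : Cfg n) :
    evc h b n a (net.τ (WithLp.toLp 2 fun l => a * v l) Y) U =
      evc h b n a Y (shift (fun l => (v l : ZMod n)) U) := by
  refine span_ev (φ := fun Y => evc h b n a (net.τ _ Y) U) (ψ := fun Y => evc h b n a Y _) (σ := id)
    hY (by simp) (by simp) (by simp) (by simp) fun k f _ e => ?_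
  simp only [τ_mon, evc_mon, cen_shift]
  refine congrArg _ (prod_congr rfl fun i _ => congrArg (cen h b · U) ?_)
  have e1 : ∀ x : Site 4 n, f i (xp a x - WithLp.toLp 2 fun l => a * v l) =
      f i (xp a (x - fun l => (v l : ZMod n))) := fun x => by
    have := xp_add (s := -v) (V := V) (fun y hy l => (e i (subset_tsupport _ hy) l).le) ha
      (by simpa using hv) (by linarith) x
    simp only [Pi.neg_apply, Int.cast_neg, mul_neg, ← Pi.neg_def, WithLp.toLp_neg,
      ← sub_eq_add_neg] at this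
    exact this.symm
  funext x μ ν
  simp only [sy, e1, add_sub_right_comm]

theorem xp_rf {f : R4 → ℝ} (hf : ∀ y, f y ≠ 0 → y ∈ cel (a * lam)) (ha : 0 < a) (hn : 2 * lam < n)
    (l : Fin 4) (x : Site 4 n) : f (Pur.rf l (xp a x - ax l (a * lam))) =
      f (xp a (Weak.rf l (x - Pi.single l (lam : ZMod n)))) := by
  have key : ∀ z : ZMod n, 0 < z.valMinAbs → z.valMinAbs < lam →
      ((lam : ZMod n) - z).valMinAbs = lam - z.valMinAbs := fun z u v => by
    rw [← vma_cast (L := n) (z := lam - z.valMinAbs) (by omega) (by omega)]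
    simp
  by_cases e : ((lam : ZMod n) - x l).valMinAbs = lam - (x l).valMinAbs
  · congr 1
    ext k
    by_cases u : k = l
    · simp [xp, Weak.rf, u, e, mul_sub]
    · simp [xp, Weak.rf, Pur.rf, u]
  · rw [of_not_not (a := f (Pur.rf l _) = 0) fun u => e ?_,
      of_not_not (a := f (xp a _) = 0) fun u => e ?_]
    · have := hf _ u l
      simp only [xp, Weak.rf, if_true, Pi.sub_apply, Pi.single_eq_same, neg_sub] at this
      have h1 := key _ (by exact_mod_cast pos_of_mul_pos_right this.1 ha.le)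
        (by exact_mod_cast lt_of_mul_lt_mul_left this.2 ha.le)
      rw [sub_sub_cancel] at h1
      rw [h1, sub_sub_cancel]
    · have := hf _ u l
      simp only [xp, rf_self, PiLp.sub_apply, PiLp.single_eq_same, neg_sub] at this
      rw [← mul_sub] at this
      have h1 : (0 : ℝ) < lam - (x l).valMinAbs := pos_of_mul_pos_right this.1 ha.le
      have h2 := lt_of_mul_lt_mul_left this.2 ha.le
      exact key _ (by exact_mod_cast (by linarith : (0 : ℝ) < (x l).valMinAbs))
        (by exact_mod_cast (by linarith : ((x l).valMinAbs : ℝ) < lam))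

theorem sy_rL (g : Site 4 n → ℝ) (l : Fin 4) (x : Site 4 n) {μ ν : Fin 4} (u : μ ≠ ν) :
    sy (fun x => g (Weak.rf l (x - Pi.single l (lam : ZMod n)))) x μ ν = rL lam l (sy g) x μ ν := by
  simp only [sy, rL, rF, rq, add_sub_right_comm _ _ (Pi.single l (lam : ZMod n) : Site 4 n),
    Weak.rf_add]
  by_cases h1 : μ = l
  · subst h1
    simp only [true_or, if_true, Weak.rc, rf_single, rf_single_ne u.symm, sub_add_cancel,
      ← sub_eq_add_neg]
    ring
  · by_cases h2 : ν = l
    · subst h2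
      simp only [or_true, if_true, Weak.rc, rf_single, rf_single_ne u, sub_add_cancel,
        ← sub_eq_add_neg, add_right_comm _ (Pi.single μ 1 : Site 4 n), add_sub_right_comm]
      ring
    · simp only [h1, h2, or_self, if_false, rf_single_ne h1, rf_single_ne h2]

/-- reflection of the cell -/
theorem evc_rcl (hY : Y ∈ net.loc (cel (a * lam))) (ha : 0 < a) (hn : 2 * lam < n) (l : Fin 4)
    (U : Cfg n) : evc h b n a (net.τ (ax l (a * lam)) (net.Θ l Y)) U =
      starRingEnd ℂ (evc h b n a Y (rcl lam l U)) := by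
  refine span_ev (φ := fun Y => evc h b n a (net.τ _ (net.Θ l Y)) U)
    (ψ := fun Y => starRingEnd ℂ (evc h b n a Y _)) (σ := starRingEnd ℂ) hY (by simp) (by simp)
    (by simp [net.Θ_smul]) (by simp) fun k f _ e => ?_
  simp only [Θ_mon, τ_mon, evc_mon, cen_rcl, Complex.conj_ofReal]
  refine congrArg _ (prod_congr rfl fun i _ => cen_congr (fun x μ ν u => ?_) U)
  simp only [xp_rf (fun y hy => e i (subset_tsupport _ hy)) ha hn]
  exact sy_rL (fun x => f i (xp a x)) l x u.ne

theorem cel_rcl (hY : Y ∈ net.loc (cel w)) (l : Fin 4) :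
    net.τ (ax l w) (net.Θ l Y) ∈ net.loc (cel w) :=
  net.mono (net.τ_mem _ (net.Θ_mem l hY)) fun y hy k => by
    have := hy k
    by_cases u : k = l
    · subst u
      simp only [rf_self, PiLp.sub_apply, PiLp.single_eq_same] at this
      constructor <;> linarith [this.1, this.2]
    · simpa [rf_ne u, u] using this

theorem sy_cel {g : Site 4 n → ℝ} (hg : ∀ x, g x ≠ 0 → ∀ l, 0 < (x l).val ∧ (x l).val < lam)
    {x : Site 4 n} {μ ν : Fin 4} (u : μ ≠ ν) (e : sy g x μ ν ≠ 0) (l : Fin 4) : (x l).val < lam := by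
  have k1 : ∀ z : ZMod n, 0 < (z + 1).val ∧ (z + 1).val < lam → z.val < lam := fun z hz => by
    have : z = (((z + 1).val - 1 : ℕ) : ZMod n) := by rw [Nat.cast_sub hz.1]; simp
    rw [this, ZMod.val_natCast]
    exact (Nat.mod_le _ _).trans_lt (by omega)
  by_contra v
  have k2 : ∀ y : Site 4 n, y l = x l ∨ y l = x l + 1 → g y = 0 := fun y hy => of_not_not fun z =>
    v (hy.elim (fun t => t ▸ (hg y z l).2) fun t => k1 _ (t ▸ hg y z l))
  have k3 : ∀ i : Fin 4, (x + Pi.single i 1 : Site 4 n) l = x l ∨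
      (x + Pi.single i 1 : Site 4 n) l = x l + 1 := fun i => by by_cases t : l = i <;> simp [t]
  refine e ?_
  rw [sy, k2 x (.inl rfl), k2 _ (k3 μ), k2 _ (k3 ν), k2 (x + _ + _) ?_]
  · simp
  · by_cases t : l = ν
    · exact .inr (by simp [t, u.symm])
    · simpa [t] using k3 μ

/-- locality -/
theorem evc_dep (hY : Y ∈ net.loc (cel (a * lam))) (ha : 0 < a) (hn : 2 * lam < n) {U U' : Cfg n}
    (e : ∀ l, (∀ k, half lam k l) → U l = U' l) : evc h b n a Y U = evc h b n a Y U' := by
  refine span_ev (φ := fun Y => evc h b n a Y U) (ψ := fun Y => evc h b n a Y U') (σ := id) hY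
    (by simp) (by simp) (by simp) (by simp) fun k f _ hf => ?_
  simp only [evc_mon, cen]
  refine congrArg _ (prod_congr rfl fun i _ => congrArg (· - _) (sum_congr rfl fun x _ =>
    sum_congr rfl fun μ _ => sum_congr rfl fun ν _ => ?_))
  split_ifs with u
  swap
  · rfl
  by_cases z : sy (fun x : Site 4 n => f i (xp a x)) x μ ν = 0
  · simp only [z, zero_mul]
  have h1 := sy_cel (lam := lam) (fun y hy l => by
    have := hf i (subset_tsupport _ hy) l
    have h2 : 0 < (y l).valMinAbs := Int.cast_pos.1 (pos_of_mul_pos_right this.1 ha.le)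
    have h3 : (y l).valMinAbs < lam := Int.cast_lt.1
      ((lt_of_mul_lt_mul_left this.2 ha.le).trans_eq (Int.cast_natCast lam).symm)
    rw [ZMod.valMinAbs_def_pos] at h2 h3
    have := (y l).val_lt
    split_ifs at h2 h3 <;> omega) u.ne z
  have h2 : ∀ j, U (x, j) = U' (x, j) := fun j => e _ fun l => ⟨(h1 l).le, fun _ => h1 l⟩
  have h3 : ∀ i j, i ≠ j → U (x + Pi.single i 1, j) = U' (x + Pi.single i 1, j) := fun i j v =>
    e _ fun l => by
      have := h1 l
      by_cases t : l = i
      · subst t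
        refine ⟨?_, fun t => (v t.symm).elim⟩
        simp only [Pi.add_apply, Pi.single_eq_same]
        rw [val_add_one _ (by omega)]
        omega
      · simpa [half, t] using ⟨this.le, fun _ => this⟩
  rw [pe, pe, h2, h2, h3 _ _ u.ne, h3 _ _ u.ne']

variable {ι : Type} {Φ : Filter ι} {X X' : ι → Pol}

theorem Cv.mem (e : Cv Φ A X Z) : Z ∈ net.loc A ∧ ∀ p, X p ∈ net.loc A := by
  induction e with
  | base e => exact ⟨e, fun _ => e⟩
  | smul _ _ e => exact ⟨Submodule.smul_mem _ _ e.1, fun p => Submodule.smul_mem _ _ (e.2 p)⟩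
  | add _ _ e e' => exact ⟨add_mem e.1 e'.1, fun p => add_mem (e.2 p) (e'.2 p)⟩

theorem Cv.map {g : Pol → Pol} {σ : ℂ → ℂ} (e : Cv Φ A X Z) (hσ : Continuous σ)
    (h1 : ∀ X Y, g (X + Y) = g X + g Y) (h2 : ∀ c X, g (c • X) = σ c • g X)
    (h3 : ∀ X ∈ net.loc A, g X ∈ net.loc A') : Cv Φ A' (fun p => g (X p)) (g Z) := by
  induction e with
  | base e => exact .base (h3 _ e)
  | smul t _ e => simp only [h2]; exact e.smul ((hσ.tendsto _).comp t)
  | add _ _ e e' => simp only [h1]; exact e.add e'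

theorem Cv.mono (e : Cv Φ A X Z) (s : A ⊆ A') : Cv Φ A' X Z :=
  e.map (g := id) continuous_id (fun _ _ => rfl) (fun _ _ => rfl) fun _ u => net.mono u s

theorem Cv.sub (e : Cv Φ A X Y) (e' : Cv Φ A X' Z) : Cv Φ A (fun p => X p - X' p) (Y - Z) := by
  simpa only [neg_one_smul, ← sub_eq_add_neg] using
    e.add (e'.smul (c := fun _ => -1) tendsto_const_nhds)

theorem Cv.mul (e : Cv Φ A X Y) (e' : Cv Φ A' X' Z) (d : Disjoint A A') :
    Cv Φ (A ∪ A') (fun p => X p * X' p) (Y * Z) := by
  induction e with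
  | base e =>
    exact e'.map (g := (_ * ·)) continuous_id (mul_add _) (fun c X => mul_smul_comm c _ X)
      fun _ u => net.mul e u d
  | smul t _ e => simp only [smul_mul_assoc]; exact e.smul t
  | add _ _ e e' => simp only [add_mul]; exact e.add e'

theorem Cv.sum {κ : Type} {s : Finset κ} {X : κ → ι → Pol} {Z : κ → Pol}
    (e : ∀ i ∈ s, Cv Φ A (X i) (Z i)) : Cv Φ A (fun p => ∑ i ∈ s, X i p) (∑ i ∈ s, Z i) := by
  induction s using Finset.cons_induction with
  | empty => exact .base (zero_mem _)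
  | cons i s hi ih =>
    simp only [sum_cons]
    exact (e i (mem_cons_self _ _)).add (ih fun j hj => e j (mem_cons_of_mem hj))

theorem Cv.prod {κ : Type} {s : Finset κ} {X : κ → ι → Pol} {Z : κ → Pol} {B : κ → Set R4}
    (e : ∀ i ∈ s, Cv Φ (B i) (X i) (Z i)) (d : ∀ i ∈ s, ∀ j ∈ s, i ≠ j → Disjoint (B i) (B j))
    (u : ∀ i ∈ s, B i ⊆ A) : Cv Φ A (fun p => ∏ i ∈ s, X i p) (∏ i ∈ s, Z i) := by
  induction s using Finset.cons_induction generalizing A with
  | empty => exact .base (net.one _)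
  | cons i s hi ih =>
    simp only [prod_cons]
    exact ((e i (mem_cons_self _ _)).mul (ih (A := ⋃ j ∈ s, B j) (fun j hj => e j (mem_cons_of_mem hj))
      (fun j hj l hl => d j (mem_cons_of_mem hj) l (mem_cons_of_mem hl))
      fun j hj => Set.subset_biUnion_of_mem (u := B) hj) (Set.disjoint_iUnion₂_right.2 fun j hj =>
        d i (mem_cons_self _ _) j (mem_cons_of_mem hj) (by rintro rfl; exact hi hj))).mono
      (Set.union_subset (u i (mem_cons_self _ _))
        (Set.iUnion₂_subset fun j hj => u j (mem_cons_of_mem hj)))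

theorem Cv.tau (e : Cv Φ A X Z) (v : R4) :
    Cv Φ {y | y - v ∈ A} (fun p => net.τ v (X p)) (net.τ v Z) :=
  e.map continuous_id (map_add _) (map_smul _) fun _ => net.τ_mem v

theorem Cv.theta (e : Cv Φ A X Z) (μ : Fin 4) :
    Cv Φ {y | rf μ y ∈ A} (fun p => net.Θ μ (X p)) (net.Θ μ Z) :=
  e.map Complex.continuous_conj (map_add _) (net.Θ_smul μ) fun _ => net.Θ_mem μ

theorem Cv.coeff (e : Cv Φ A X Z) (m : (R4 → ℝ) →₀ ℕ) :
    Tendsto (fun p => coeff m (X p)) Φ (𝓝 (coeff m Z)) := by
  induction e with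
  | base e => exact tendsto_const_nhds
  | smul t _ e => simp only [coeff_smul]; exact t.smul e
  | add _ _ e e' => simp only [coeff_add]; exact e.add e'

theorem Cv.rc [Φ.NeBot] (e : Cv Φ A X Z) (hR : ∀ p, Rc (X p)) : Rc Z :=
  MvPolynomial.ext _ _ fun m => by
    rw [coeff_map]
    exact tendsto_nhds_unique ((Complex.continuous_conj.tendsto _).comp (e.coeff m))
      ((e.coeff m).congr fun p => by rw [Function.comp, ← coeff_map, hR p])

/-- the folding of the cell `c` onto the cell at the origin -/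
def fz (w : ℝ) (c : Fin 4 → ℤ) : Pol →ₐ[ℂ] Pol := rename fun f y => f (fold w c y + dg (w / 2))

theorem fz_mem (c : Fin 4 → ℤ) (hY : Y ∈ net.loc (cel w)) :
    fz w c Y ∈ net.loc {y | ∀ l, c l * w < y l ∧ y l < (c l + 1) * w} :=
  span_map (map_add _) (fun c X => ⟨c, map_smul _ c X⟩) (fun _ ⟨k, f, h1, h2, h3⟩ =>
    ⟨k, _, h1.comp ((foldH w c).trans (Homeomorph.addRight (dg (w / 2))))
      ((fold_smooth w c).add contDiff_const), fun i y hy l => by
        have := h2 i (tsupport_comp ((foldH w c).trans (Homeomorph.addRight _)).continuous hy) l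
        change 0 < (-1) ^ c l * (y l - (c l + 1 / 2) * w) + w / 2 ∧
          (-1) ^ c l * (y l - (c l + 1 / 2) * w) + w / 2 < w at this
        rcases Int.even_or_odd (c l) with o | o <;> rw [o.neg_one_zpow] at this <;>
          constructor <;> linarith [this.1, this.2],
      by rw [← h3, fz, rename_mon]; rfl⟩) hY

/-- reflection of the cell in several directions -/
def rz (w : ℝ) (c : Fin 4 → ℤ) (L : List (Fin 4)) : Pol →ₐ[ℂ] Pol :=
  rename fun f y => f (WithLp.toLp 2 fun l => if l ∈ L ∧ Odd (c l) then w - y l else y l)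

theorem rz_odd {c : Fin 4 → ℤ} {L : List (Fin 4)} {k : Fin 4} (h1 : k ∉ L) (o : Odd (c k))
    (hR : Rc Y) : rz w c (k :: L) Y = rz w c L (net.τ (ax k w) (net.Θ k Y)) := by
  rw [hR.th]
  change _ = rename _ (rename _ (rename _ Y))
  rw [rename_rename, rename_rename]
  refine congrArg (rename · Y) (funext fun f => funext fun y => congrArg f ?_)
  ext l
  by_cases u : l = k
  · subst u; simp [o, h1]
  · simp [rf_ne u, u]

theorem rz_even {c : Fin 4 → ℤ} {L : List (Fin 4)} {k : Fin 4} (o : ¬Odd (c k)) :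
    rz w c (k :: L) Y = rz w c L Y := by
  refine congrArg (rename · Y) (funext fun f => funext fun y => congrArg f ?_)
  ext l
  by_cases u : l = k <;> simp [u, o]

theorem evc_list (ha : 0 < a) (hn : 2 * lam < n) (c : Fin 4 → ℤ) (U : Cfg n) {L : List (Fin 4)}
    (hL : L.Nodup) : ∀ {Y : Pol}, Y ∈ net.loc (cel (a * lam)) → Rc Y →
      rz (a * lam) c L Y ∈ net.loc (cel (a * lam)) ∧
      evc h b n a Y (L.foldr (fun k V => if Odd (c k) then rcl lam k V else V) U) =
        evc h b n a (rz (a * lam) c L Y) U := by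
  induction L with
  | nil =>
    intro Y hY _
    have e : rz (a * lam) c [] Y = Y := by
      simp only [rz, List.not_mem_nil, false_and, if_false]
      exact rename_id_apply Y
    rw [e]
    exact ⟨hY, rfl⟩
  | cons k L ih =>
    intro Y hY hR
    obtain ⟨h1, h2⟩ := List.nodup_cons.1 hL
    rw [List.foldr_cons]
    split_ifs with o
    · have h4 := evc_rcl (h := h) (b := b) hY ha hn k
        (L.foldr (fun k V => if Odd (c k) then rcl lam k V else V) U)
      rw [hR.evc, Complex.conj_ofReal, ← hR.evc] at h4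
      rw [← h4, rz_odd h1 o hR]
      exact ih h2 (cel_rcl hY k) ((hR.theta k).tau _)
    · rw [rz_even o]
      exact ih h2 hY hR

theorem evc_fz (hY : Y ∈ net.loc (cel (a * lam))) (hR : Rc Y) (ha : 0 < a) (hn : 2 * lam < n)
    {c : Fin 4 → ℤ} (hc : ∀ l, |a * lam * c l| ≤ V) (hv : 2 * (a * lam + V + 2 * a) < a * n)
    (U : Cfg n) : evc h b n a (fz (a * lam) c Y) U = evr h b n a Y (fl lam c U) := by
  obtain ⟨h1, h2⟩ := evc_list (h := h) (b := b) ha hn c
    (shift (fun l => ((lam * c l : ℤ) : ZMod n)) U) (List.nodup_finRange 4) hY hR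
  rw [← hR.evc, fl, h2, ← evc_shift (R := a * lam) (V := V) (v := fun l => lam * c l)
    (net.mono h1 fun y hy l => abs_lt.2 ⟨by linarith [(hy l).1, (hy l).2], (hy l).2⟩) ha
    (by simpa only [Int.cast_mul, Int.cast_natCast, ← mul_assoc] using hc) hv]
  change _ = evc h b n a (rename _ (rename _ Y)) U
  rw [rename_rename]
  refine congrArg (fun φ => evc h b n a (rename φ Y) U) (funext fun f => funext fun y =>
    congrArg f ?_)
  ext l
  rcases Int.even_or_odd (c l) with o | o
  · simp [Pur.fold, o.neg_one_zpow, Int.not_odd_iff_even.2 o]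
    ring
  · simp [Pur.fold, o.neg_one_zpow, o]
    ring

variable {n : ι → ℕ} [∀ p, NeZero (n p)] {a b τ : ι → ℝ} {U : Ultrafilter ι}
  {S₀ : ∀ {k : ℕ}, (Fin k → R4 → ℝ) → ℝ} {S : Pol →ₗ[ℂ] ℂ} (hF : Fam Φ n a b τ)
  (hL : L6.Lim h Φ n a b U S₀ S)
include hF hL

/-- the continuum limit -/
theorem Cv.lim (e : Cv U A X Z) : Tendsto (fun p =>
    ∫ V, evc h (b p) (n p) (a p) (X p) V ∂wilson h (b p) (n p)) U (𝓝 (S Z)) := by
  induction e with
  | base e =>
    induction e using Submodule.span_induction with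
    | mem Z hZ =>
      obtain ⟨k, f, e1, -, rfl⟩ := hZ
      obtain ⟨D, -, e2, -⟩ := e1.data
      simp only [evc_mon, integral_complex_ofReal, hL.lift e1]
      refine (Complex.continuous_ofReal.tendsto _).comp (hL.nr e1
        (F := fun p i => sy fun x => f i (xp (a p) x)) ?_)
      filter_upwards [hF.pos, hF.big (2 * D)] with p u v i
      exact near_sy (e1.1 i).2.continuous (cube_of (e2 i)) u.1 (by linarith [u.1])
    | zero => simp
    | add X Y _ _ e e' =>
      simp only [map_add, Pi.add_apply, integral_add (int_evc _) (int_evc _)]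
      exact e.add e'
    | smul c X _ e =>
      simp only [map_smul, Pi.smul_apply, integral_smul]
      exact e.const_smul c
  | smul t _ e =>
    simp only [map_smul, Pi.smul_apply, integral_smul]
    exact t.smul e
  | add _ _ e e' =>
    simp only [map_add, Pi.add_apply, integral_add (int_evc _) (int_evc _)]
    exact e.add e'

/-- array bounds on the lattice give operator bounds -/
theorem qb_arr (hS : net.St S) (w0 : 0 < w) (η0 : 0 ≤ η) (e : Cv U (cel w) X Z) (hR : ∀ p, Rc (X p))
    (H : ∀ᶠ p in U, ∃ lam : ℕ, a p * lam = w ∧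
      Arr h (b p) lam (evr h (b p) (n p) (a p) (X p)) η) : net.QB S Z (2 * w) η := by
  have hZ := e.rc hR
  have h3 := Net.qb_of_arr hS w0 η0 (fun c => fz w c Z) (fun c => fz_mem c e.mem.1)
    (fun μ c => by
      rw [fz, (hZ.ren _).th, rename_rename]
      simp only [fz, Function.comp_def, fold_rf])
    (fun μ c => by
      change rename _ (rename _ Z) = _
      simp only [fz, rename_rename, Function.comp_def, fold_ax]) fun lo hi => ?_
  · have e0 : ∀ y, fold w 0 y + dg (w / 2) = y := fun y => by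
      ext l
      simp [Pur.fold]
      ring
    simp only [fz, e0] at h3
    rwa [show rename (fun (f : R4 → ℝ) y => f y) Z = Z from rename_id_apply Z] at h3
  · obtain ⟨E, hE, -⟩ := hF.big_box lo hi
    obtain ⟨B, hB⟩ := (Set.finite_range fun c : cells lo hi × Fin 4 => |w * c.1.1 c.2|).bddAbove
    refine le_of_tendsto (Cv.lim hF hL (Cv.prod (A := Set.univ) (s := cells lo hi)
      (X := fun c p => fz w c (X p)) (fun c _ => e.map continuous_id (map_add _) (map_smul _)
        fun _ => fz_mem c) (fun c _ c' _ u => cell_disj w0 u) fun _ _ => Set.subset_univ _)).norm ?_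
    filter_upwards [H, hL.le hF.pos, hL.le (hF.big (2 * (w + |B|) + (4 * E + 1) * w))]
      with p ⟨lam, e1, e2⟩ ⟨ha, _⟩ (e3 : _ < _)
    have B0 := abs_nonneg B
    have E0 : 0 ≤ E * w := by positivity
    have e4 : (4 * E + 1) * lam < n p := by
      have : ((4 * E + 1) * lam : ℝ) < n p := lt_of_mul_lt_mul_left (by
        rw [mul_left_comm, e1]; linarith) ha.le
      exact_mod_cast this
    have e5 : 2 * lam < n p := by
      have : (2 * lam : ℝ) < n p := lt_of_mul_lt_mul_left (by
        rw [mul_left_comm, e1]; linarith) ha.le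
      exact_mod_cast this
    refine le_of_eq_of_le ?_ (e2 lo hi E hE e4)
    rw [← norm_eq_abs, ← Complex.norm_real, ← integral_complex_ofReal]
    refine congrArg _ (integral_congr_ae (.of_forall fun V => ?_))
    simp only [map_prod, Finset.prod_apply, Complex.ofReal_prod]
    subst e1
    exact prod_congr rfl fun c hc => evc_fz (e.mem.2 p) (hR p) ha e5 (V := |B|)
      (fun l => (hB ⟨(⟨c, hc⟩, l), rfl⟩).trans (le_abs_self B)) (by linarith) V

end Pool.Agent.Lib.MP_7f377f_mp.Ob
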