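import Pool.Agent.Lib.MP_7f377f_mp.G.SoftD
import Pool.Agent.Lib.MP_7f377f_mp.G.PurD

/-! Arrays of general observables: the definitions. -/

noncomputable section

namespace Pool.Agent.Lib.MP_7f377f_mp.Ob
variable [GD]
set_option linter.unusedSectionVars false

open MeasureTheory Weak Filter Topology Real Jet Finset YM7 Pur

variable {n : ℕ} [NeZero n] {κ : Type} [Fintype κ] [DecidableEq κ]

/-- moments of observables with respect to a functional -/
def mo (Λ : (Cfg n → ℝ) → ℝ) (O : κ → Cfg n → ℝ) (T : Finset κ) : ℂ :=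
  (Λ fun U => ∏ i ∈ T, O i U : ℝ)

/-- the moments are those of `exp (∑ e T s ^ T)` up to a correction with jets of size `w` -/
def Red (Λ : (Cfg n → ℝ) → ℝ) (O : κ → Cfg n → ℝ) (w M : ℝ) (e : Finset κ → ℂ) : Prop :=
  e ∅ = 0 ∧ ∃ q, SH (fun _ => w⁻¹) M q ∧ q 0 = 1 ∧
    ∀ T, mo Λ O T = jd T fun s => Complex.exp (ma univ e s) * q s

/-- reflection of the cell at the origin -/
def rcl (lam : ℕ) (k : Fin 4) (U : Cfg n) : Cfg n := refl k (shift (Pi.single k (lam : ZMod n)) U)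

/-- the folding of the cell `c` onto the cell at the origin -/
def fl (lam : ℕ) (c : Fin 4 → ℤ) (U : Cfg n) : Cfg n :=
  (List.finRange 4).foldr (fun k V => if Odd (c k) then rcl lam k V else V)
    (shift (fun l => ((lam * c l : ℤ) : ZMod n)) U)

/-- reflection symmetric classes of families of observables of the cell at the origin -/
structure Cl (lam : ℕ) (L : (κ → Cfg n → ℝ) → Prop) : Prop where
  cont : ∀ O, L O → ∀ i, Continuous (O i)
  rf : ∀ O, L O → ∀ k, L fun i U => O i (rcl lam k U)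
  dep : ∀ O, L O → ∀ i U V, (∀ l, (∀ k, half lam k l) → U l = V l) → O i U = O i V

/-- one family in each cell of the torus -/
def arr {m : ℕ} (lam : ℕ) (O : Site 4 m → κ → Cfg n → ℝ) (q : Site 4 m × κ) (U : Cfg n) : ℝ :=
  O q.1 q.2 (shift (corner lam q.1) U)

variable [MeasurableSpace SU2] (h : Measure SU2) (b : ℝ)

/-- factorisation over the cells up to a function which is bounded on a polydisc -/
def Gen (m lam : ℕ) [NeZero m] (Λ : (Cfg n → ℝ) → ℝ) (L : (κ → Cfg n → ℝ) → Prop) (w M : ℝ) :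
    Prop := ∀ O : Site 4 m → κ → Cfg n → ℝ, (∀ c, L (O c)) → ∃ g : (Site 4 m × κ → ℂ) → ℂ,
  SH (fun _ => w⁻¹) M g ∧ ∀ B, mo (ex h b n) (arr lam O) B =
    jd B fun s => g s * ∏ c, ma univ (mo Λ (O c)) fun i => s (c, i)

/-- the input of the renormalisation group -/
def Rg (lam : ℕ) (L : (κ → Cfg n → ℝ) → Prop) (w ρ C M : ℝ) : Prop :=
  0 ≤ b ∧ 0 < w ∧ 0 ≤ C ∧ Cl lam L ∧ ∃ (m : ℕ) (_ : NeZero m) (Λ : (Cfg n → ℝ) → ℝ), Odd m ∧
    n = m * lam ∧ Inv Λ lam ∧ Gen h b m lam Λ L w (exp (C * m ^ 4)) ∧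
      ∀ O, L O → ∃ e, Red Λ O w M e ∧ ∀ T, 2 ≤ T.card → ‖e T‖ ≤ ρ ^ T.card

/-- centring -/
def ce (O : Cfg n → ℝ) (U : Cfg n) : ℝ := O U - ex h b n O

/-- the array bound for an observable of the cell at the origin and its mirror images -/
def Arr (lam : ℕ) (O : Cfg n → ℝ) (η : ℝ) : Prop := ∀ (lo hi : Fin 4 → ℤ) (E : ℕ),
  (∀ l, hi l - lo l ≤ E) → (4 * E + 1) * lam < n →
    |∫ U, ∏ c ∈ cells lo hi, O (fl lam c U) ∂wilson h b n| ≤ η ^ (cells lo hi).card

/-- the constant of the cluster bounds -/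
def cB (k : ℕ) (C M : ℝ) : ℝ := exp (256 * C) * (2 ^ k * (1 + exp (256 * C)) *
  (exp (2 ^ k) * M * exp (k * (2 ^ k * exp (256 * C) * M))))

/-- averages over the corners of the plaquettes -/
def sy (g : Site 4 n → ℝ) : Src n := fun x μ ν => (g x + g (x + Pi.single μ 1) +
  g (x + Pi.single ν 1) + g (x + Pi.single μ 1 + Pi.single ν 1)) / 4

/-- polynomials in the smeared fields as lattice observables -/
def evc (n : ℕ) [NeZero n] (a : ℝ) : Pol →ₐ[ℂ] Cfg n → ℂ :=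
  MvPolynomial.aeval fun f U => (cen h b (sy fun x => f (xp a x)) U : ℝ)

/-- the real part -/
def evr (n : ℕ) [NeZero n] (a : ℝ) (Y : Pol) (U : Cfg n) : ℝ := (evc h b n a Y U).re

/-- real coefficients -/
def Rc (Y : Pol) : Prop := MvPolynomial.map (starRingEnd ℂ) Y = Y

/-- local polynomials with convergent coefficients -/
inductive Cv {ι : Type} (Φ : Filter ι) (A : Set R4) : (ι → Pol) → Pol → Prop
  | base {Z : Pol} : Z ∈ net.loc A → Cv Φ A (fun _ => Z) Z
  | smul {Y : ι → Pol} {Z : Pol} {c : ι → ℂ} {c₀ : ℂ} : Tendsto c Φ (𝓝 c₀) → Cv Φ A Y Z →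
      Cv Φ A (fun p => c p • Y p) (c₀ • Z)
  | add {Y Y' : ι → Pol} {Z Z' : Pol} : Cv Φ A Y Z → Cv Φ A Y' Z' →
      Cv Φ A (fun p => Y p + Y' p) (Z + Z')

/-- the open cell at the origin -/
def cel (w : ℝ) : Set R4 := {y | ∀ l, 0 < y l ∧ y l < w}

end Pool.Agent.Lib.MP_7f377f_mp.Ob
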