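import Pool.Agent.Lib.MP_7f377f_mp.G.Q5CmA
import Pool.Agent.Lib.MP_7f377f_mp.G.Q5Poly
import Pool.Agent.Lib.MP_7f377f_mp.G.Q5Lev
import Pool.Agent.Lib.MP_7f377f_mp.G.Q5Tan
import Pool.Agent.Lib.MP_7f377f_mp.G.SoftJ

/-! Arrays of clusters of sources. -/

noncomputable section

open Pool.Agent.Lib.MP_7f377f_mp.Jet

set_option linter.unusedSectionVars false
variable [Pool.Agent.Lib.MP_7f377f_mp.GD]

namespace Pool.Agent.Lib.MP_7f377f_mp.RG.Q4.En.Gl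

open Finset Real Sg Br YM7 Filter Topology

variable {G : Gl} {J j l m u c : ℕ} {a a' d δ τ b X : ℝ}

namespace Ok

variable (h : G.Ok)
include h

theorem rt_a (hl : l ≤ J) (a1 : a * 3 ^ G.e J = 1) : G.rt J l * a * 3 ^ G.e l = 1 := by
  rw [← a1, ← h.rt_e hl]; ring

theorem ev_log : ∀ᶠ l in atTop, log (3 ^ G.e l) ≤ G.Q l * G.bb l := by
  filter_upwards [(tendsto_inv_atTop_zero.comp h.Q_top).eventually_lt h.sch.lim
    (by have := GD.b0_pos; positivity)]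
    with l e
  have q := h.Q0 l
  rcases le_or_gt (log (3 ^ G.e l)) 0 with a | a
  · exact a.trans (mul_pos q (h.b0 l)).le
  · exact (inv_mul_le_iff₀ q).1 ((lt_div_iff₀ a).1 e).le

/-- clusters of sources near the middles of the cells -/
theorem arr_fe {ι : Type} [Fintype ι] [DecidableEq ι] [NeZero (G.N J)] [NeZero m] (hp : G.Pu)
    (t : G.Tu b J) (hl : l ≤ J) (hj : j ≤ l) (hn : G.N J = m * (G.rt J j * u)) (a0 : 0 < a)
    (a1 : a * 3 ^ G.e J = 1) (a2 : 0 < a') (τ0 : 0 ≤ τ) (hτ : 1.01 ^ (J - l) * (10 ^ 37 * τ) ≤ 1)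
    (ha : G.rt J l * a' ≤ 1) (hδ : 12⁻¹ ≤ δ) (hL : 1000 * 3 ^ c ≤ G.L j) (hX : X + 1 ≤ G.L l)
    (hR : a * (G.rt J j * u : ℕ) / 2 - δ ≤ X * G.L l ^ (G.K0 + 1) * (G.rt J l * a))
    {F : ι → Src (G.N J)} {cl : ι → Weak.Site 4 m}
    (P : ∀ x, Nrm a' τ (F x) ∧ YM7.InT a δ (G.rt J j * u) (cl x) (F x))
    (hs : Cls (G.N J) (66 * (G.L l ^ G.K0 * G.rt J l) : ℕ) univ id fun x => sup (F x))
    (hc : ∀ y, (univ.filter (cl · = y)).card ≤ c) :
    ∃ Y, G.Fe b J j F (2 ^ (l - j) * G.sg l)⁻¹ ((2 * (u + 4 * G.L j ^ G.K0) + 1) ^ 4 : ℕ) Y ∧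
      Y.Ec univ cl ∧ ∀ T, 2 ≤ T.card → ‖jd T Y.E‖ ≤ (G.sg l)⁻¹ ^ T.card := by
  have L := h.L1 l
  have r := rt_pos (G := G) J l
  have hj' := hj.trans hl
  refine ⟨_, h.fe_run t hp (fun _ e => (h.tan_main hp t e).1.sz) (fun x => (P x).1) a2 hτ τ0 ha
    (div_pos (h.b0 l) (pow_pos (h.Q0 l) _)) le_rfl hl hj (fun _ => Subset.rfl)
    (h.geo_of (R := G.rt J l * G.L l ^ (G.K0 + 2)) hl hs (by push_cast; rfl)
      (fun x _ y _ => sep_cell hn a0 (P x).2 (P y).2) ?_ hc hL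
      (fun y => ⟨_, fun x _ e => sup_inT (h.N_odd J) a0 (e ▸ (P x).2) ?_⟩) ?_) (inv_inv _).le
    fun x => Nat.cast_le.2 ?_⟩
  · have b := mul_le_mul_of_nonneg_left ((h.Lb j (i := G.K0 + 1) (by have := h.B1; omega)).trans
      (h.b_e j)) (mul_pos (rt_pos (G := G) J j) a0).le
    have c1 : (c : ℝ) ≤ 3 ^ c := by exact_mod_cast (Nat.lt_pow_self (by norm_num)).le
    have c2 : (1000 * 3 ^ c : ℝ) ≤ G.L j := by exact_mod_cast hL
    have y0 : 0 ≤ (G.L j : ℝ) ^ G.K0 * (G.rt J j * a) := by positivity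
    rw [h.rt_a hj' a1, pow_succ] at b
    rw [le_div_iff₀ a0]
    nlinarith [mul_le_mul_of_nonneg_right (show 6 * (40 * c + 46 : ℝ) ≤ G.L j by
      linarith [one_le_pow₀ (n := c) (show (1 : ℝ) ≤ 3 by norm_num)]) y0]
  · have y : 1 ≤ (G.L l : ℝ) ^ (G.K0 + 1) * G.rt J l := one_le_mul_of_one_le_of_one_le
      (one_le_pow₀ (by linarith)) (Nat.one_le_cast.2 (Nat.cast_pos.1 r))
    push_cast at hR ⊢
    rw [pow_succ _ (G.K0 + 1)]
    nlinarith [mul_le_mul_of_nonneg_right y a0.le, mul_le_mul_of_nonneg_right hX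
      (mul_nonneg (zero_le_one.trans y) a0.le)]
  · rw [Nat.mul_div_cancel_left _ (Nat.cast_pos.1 r)]
    push_cast
    refine (pow_le_pow_left₀ (by positivity) ?_ _).trans (pow_le_pow_right₀ (h.Q1 l) (by norm_num))
    have y : 1 ≤ (G.L l : ℝ) ^ G.K0 := one_le_pow₀ (by linarith)
    refine le_trans ?_ (pow_le_pow_right₀ (by linarith) (show G.K0 + 3 ≤ G.K by
      have := h.K0_le; omega))
    have z : 2 * (G.L l : ℝ) ^ 2 + 9 ≤ G.L l ^ 3 := by nlinarith [sq_nonneg (G.L l : ℝ)]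
    rw [pow_add, pow_add]
    nlinarith [mul_le_mul_of_nonneg_left z (zero_le_one.trans y)]
  · have := h.zs_card (sup_cell (h.N_odd J) a0 (by linarith) (P x).2) hj'
    rwa [Nat.mul_div_cancel_left _ (Nat.cast_pos.1 (rt_pos _ _))] at this

end Ok

variable {β : ℕ × ℕ → ℝ}

theorem Oks.arr2 (h : G.Oks) (hβ : G.Tus β) (Φ : Filter ℕ) (K : ℕ) :
    Arr2 (Fi.tr haar) (Φ ×ˢ atTop) G.nn G.aa β K := fun k _ R δ R0 δ0 => by
  have o := (h 0).1
  obtain ⟨j, j1, j2⟩ : ∃ j, 1 ≤ G.e j ∧ 1000 * 3 ^ k ≤ G.L j :=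
    ((o.sch.mono.tendsto_atTop.eventually_ge_atTop 1).and (o.L_nat.eventually_ge_atTop _)).exists
  refine ⟨cI (G.g j) * (3 ^ (G.e j - 1) : ℕ) ^ 4 + Fintype.card (Fin k) *
    ((2 * (3 ^ (G.e j - 1) + 4 * G.L j ^ G.K0) + 1) ^ 4 : ℕ), exp (Fintype.card (Fin k) *
    ((2 * (3 ^ (G.e j - 1) + 4 * G.L j ^ G.K0) + 1) ^ 4 : ℕ)), fun η η0 => ?_⟩
  have A0 : 0 < 70 / δ := by positivity
  filter_upwards [o.ex_jm (A := 70 / δ + 1) (by positivity) ((o.ev_two (1201 * k + 1) j).and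
    ((o.Q_top.eventually_ge_atTop η⁻¹).and ((o.ev_L (R * (70 / δ + 1) + 1)).and o.ev_log))),
    Ioc_mem_nhdsGT (show 0 < (12 * R + 6 * δ + 1)⁻¹ by positivity)] with d
    ⟨d0, l, ⟨⟨l1, l2⟩, l3, l4, l5⟩, e1, e2⟩ ⟨_, d1⟩
  rw [inv_eq_one_div, le_div_iff₀ (by positivity)] at d1
  have d2 := mul_pos R0 d0
  have d3 := mul_pos δ0 d0
  filter_upwards [tendsto_snd.eventually_ge_atTop (l + 3),
    (h.lims hβ Φ).2.2.eventually_ge_atTop (2 * 10 ^ 37 / d)] with p p1 p2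
  obtain ⟨o', pu⟩ := h p.1
  have hl : l ≤ p.2 := by omega
  have hj := l1.trans hl
  have a0 := G.aa_pos p
  have a1 : G.aa p * 3 ^ (G.wm p.1).e p.2 = 1 := inv_mul_cancel₀ (by positivity)
  have hn : (G.wm p.1).N j = (2 * p.1 + 1) * 3 * 3 ^ (G.e j - 1) := by
    rw [mul_assoc, ← pow_succ', Nat.sub_add_cancel j1]; rfl
  have hn' : G.nn p = (2 * p.1 + 1) * 3 * (G.rt p.2 j * 3 ^ (G.e j - 1)) := by
    rw [nn, ← o'.rt_N hj, hn, mul_left_comm]; rfl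
  have a3 : G.aa p * (G.rt p.2 j * 3 ^ (G.e j - 1) : ℕ) = 3⁻¹ := by
    have := G.aa_nn p
    rw [hn'] at this
    push_cast at this ⊢
    refine eq_inv_of_mul_eq_one_left (mul_left_cancel₀ (by positivity : (2 * p.1 + 1 : ℝ) ≠ 0) ?_)
    linarith
  have x1 : G.rt p.2 l * G.aa p * 3 ^ G.e l = 1 := o'.rt_a hl a1
  have r := Ok.rt_pos (G := G) p.2 l
  have x0 := mul_pos r a0
  have y : 1 ≤ (G.L l : ℝ) ^ G.K0 := one_le_pow₀ (le_trans (by norm_num) (o'.L1 l))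
  have x7 : d * 3 ^ G.e l * (G.rt p.2 l * G.aa p) = d := by linear_combination d * x1
  have x2 : (70 / δ + 1) * G.L l ^ G.K0 * (G.rt p.2 l * G.aa p) ≤ d :=
    (mul_le_mul_of_nonneg_right e1 x0.le).trans_eq x7
  have x3 : d ≤ (70 / δ + 1) * G.L l ^ (G.K0 + 1) * (G.rt p.2 l * G.aa p) :=
    x7.ge.trans (mul_le_mul_of_nonneg_right e2 x0.le)
  have x4 := mul_le_mul_of_nonneg_right y x0.le
  have x5 : 70 * (G.L l ^ G.K0 * (G.rt p.2 l * G.aa p)) ≤ δ * d := by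
    have := mul_le_mul_of_nonneg_left x2 δ0.le
    rw [mul_assoc, ← mul_assoc δ, mul_add, mul_div_cancel₀ _ δ0.ne'] at this
    nlinarith
  have x6 : G.rt p.2 l * G.aa p ≤ d := by nlinarith
  have s0 : 0 < G.sg l := div_pos (o'.b0 l) (pow_pos (o'.Q0 l) _)
  have w0 : 0 < (2 ^ (l - j) * G.sg l)⁻¹ := by positivity
  have H := fun (ι : Type) (_ : Fintype ι) (_ : DecidableEq ι) F cl => o'.arr_fe (ι := ι) (F := F)
    (cl := cl) (a' := G.aa p / d)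
    (τ := 8 * (G.aa p / d)) (δ := 6⁻¹ - R * d) pu (hβ p) hl l1 hn' a0 a1 (by positivity)
    (by positivity) ((mul_le_mul_of_nonneg_left (by
      rw [div_le_div_iff₀ d0 a0] at p2
      rw [← mul_div_assoc, ← mul_div_assoc, div_le_iff₀ d0]
      linarith) (by positivity)).trans (ta_le (p := p) (by omega) l))
    (by rw [← mul_div_assoc]; exact (div_le_one d0).2 x6) (by linarith) j2 l4
    ((le_of_eq (by rw [show G.aa p * ((G.wm p.1).rt p.2 j * 3 ^ (G.e j - 1) : ℕ) = _ from a3]; ring)).trans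
      ((mul_le_mul_of_nonneg_left x3 R0.le).trans_eq (by simp only [← mul_assoc]; rfl)))
  obtain ⟨-, g1, g2⟩ := o'.gen_cell (hβ p).b0 hj w0 hn (P := Cla (G.aa p) (G.aa p / d)
    (8 * (G.aa p / d)) (6⁻¹ - R * d) _ (66 * (G.L l ^ G.K0 * G.rt p.2 l))) fun F hF =>
      (H _ _ _ _ _ (fun q : _ × Fin k => (hF q.1).1 q.2) (cls_id hn' a0 hF _ (by
        rw [le_div_iff₀ a0]; push_cast; linarith)) fun y => (card_le_card_of_injOn (t := univ)
        Prod.snd (fun _ _ => mem_univ _) fun p a q b => Prod.ext ((mem_filter.1 a).2.trans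
          (mem_filter.1 b).2.symm)).trans_eq (card_fin k)).imp fun _ e => ⟨e.1, e.2.1⟩
  refine ⟨_, _, _, inferInstance, _, _, (G.sg l)⁻¹, (2 ^ (l - j))⁻¹, (odd_two_mul_add_one _).mul
    (by decide), hn', a3, g1, ?_, g2, fun c F hF => ?_, w0, inv_pos.2 s0, (mul_inv _ _).le,
    inv_le_one_of_one_le₀ (one_le_pow₀ one_le_two), ?_⟩
  · rw [← mul_div_assoc, div_le_iff₀ d0]
    push_cast
    nlinarith [mul_le_mul_of_nonneg_right (Nat.one_le_cast.2 (Nat.cast_pos.1 r) : (1 : ℝ) ≤ _) a0.le]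
  · obtain ⟨Y, y1, -, y2⟩ := H _ _ _ _ (fun _ => c) hF.1 (fun _ _ _ _ => sep_sp hF.2)
      fun _ => (card_le_univ _).trans_eq (Fintype.card_fin k)
    exact ⟨_, o'.red_al (hβ p).b0 hj w0 y1 le_rfl, fun T e => by
      rw [ce, if_neg (card_pos.1 (by omega)).ne_empty]; exact y2 T e⟩
  · have q : 0 < G.Q l := o'.Q0 l
    have b0 : 0 < G.bb l := o'.b0 l
    have a : log d⁻¹ * (G.sg l)⁻¹ ≤ G.Q l ^ 1201 := by
      rw [sg, inv_div, ← mul_div_assoc, div_le_iff₀ b0, pow_succ' _ 1200, mul_right_comm]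
      refine mul_le_mul_of_nonneg_right ((log_le_log (by positivity) ?_).trans l5) (by positivity)
      rw [inv_le_iff_one_le_mul₀' d0, ← x1]
      exact mul_le_mul_of_nonneg_right x6 (by positivity)
    have a' := mul_nonneg (log_nonneg ((one_le_inv₀ d0).2 (by linarith))) (inv_pos.2 s0).le
    refine (mul_le_mul (inv_anti₀ (pow_pos q _) l2) (pow_le_pow_left₀ a' a k) (pow_nonneg a' _)
      (by positivity)).trans ?_
    rw [pow_succ, pow_mul, mul_inv, mul_right_comm, inv_mul_cancel₀ (by positivity), one_mul]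
    exact inv_le_of_inv_le₀ η0 l3

end Pool.Agent.Lib.MP_7f377f_mp.RG.Q4.En.Gl
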