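import Pool.Agent.Lib.MP_7f377f_mp.G.ObA
import Pool.Agent.Lib.MP_7f377f_mp.G.Q5Arr

/-! Arrays of general observables: the geometry. -/

noncomputable section

open Pool.Agent.Lib.MP_7f377f_mp.Jet

set_option linter.unusedSectionVars false
variable [Pool.Agent.Lib.MP_7f377f_mp.GD]

namespace Pool.Agent.Lib.MP_7f377f_mp.RG.Q4.En.Gl.Ok

open Finset Real Sg Br YM7 Filter Topology
open Ob (arr)

variable {ι κ : Type} [Fintype ι] [DecidableEq ι] [Fintype κ] [DecidableEq κ] {G : Gl}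
  {J j l m u c : ℕ} [NeZero (G.N J)] [NeZero m] {a δ b X σ : ℝ} (h : G.Ok)
  (hn : G.N J = m * (G.rt J j * u)) (a0 : 0 < a) {F : ι → Src (G.N J)} {cl : ι → Weak.Site 4 m}
  (P : ∀ x, YM7.InT a δ (G.rt J j * u) (cl x) (F x))
include h hn a0 P

omit hn in
theorem zs_cell (hj : j ≤ J) (δ0 : 0 ≤ δ) (x : ι) :
    (G.zs (sup (F x)) J j).card ≤ (2 * (u + 4 * G.L j ^ G.K0) + 1) ^ 4 := by
  have := h.zs_card (sup_cell (h.N_odd J) a0 δ0 (P x)) hj
  rwa [Nat.mul_div_cancel_left _ (Nat.cast_pos.1 (rt_pos _ _))] at this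

/-- clusters near the middles of the cells -/
theorem geo_arr (hl : l ≤ J) (hj : j ≤ l) (a1 : a * 3 ^ G.e J = 1) (hδ : 12⁻¹ ≤ δ)
    (hL : 1000 * 3 ^ c ≤ G.L j) (hX : X + 1 ≤ G.L l)
    (hR : a * (G.rt J j * u : ℕ) / 2 - δ ≤ X * G.L l ^ (G.K0 + 1) * (G.rt J l * a))
    (hs : Cls (G.N J) (66 * (G.L l ^ G.K0 * G.rt J l) : ℕ) univ id fun x => sup (F x))
    (hc : ∀ y, (univ.filter (cl · = y)).card ≤ c) : G.Geo univ cl c (fun x => sup (F x)) J l j := by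
  have L := h.L1 l
  have r := rt_pos (G := G) J l
  have hj' := hj.trans hl
  refine h.geo_of (R := G.rt J l * G.L l ^ (G.K0 + 2)) hl hs (by push_cast; rfl)
    (fun x _ y _ => sep_cell hn a0 (P x) (P y)) ?_ hc hL
    (fun y => ⟨_, fun x _ e => sup_inT (h.N_odd J) a0 (e ▸ P x) ?_⟩) ?_
  · have b := mul_le_mul_of_nonneg_left ((h.Lb j (i := G.K0 + 1) (by have := h.B1; omega)).trans
      (h.b_e j)) (mul_pos (rt_pos (G := G) J j) a0).le
    have c1 : (c : ℝ) ≤ 3 ^ c := by exact_mod_cast (Nat.lt_pow_self (by norm_num)).le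
    have c2 : (1000 * 3 ^ c : ℝ) ≤ G.L j := by exact_mod_cast hL
    have y0 : 0 ≤ (G.L j : ℝ) ^ G.K0 * (G.rt J j * a) := by positivity
    rw [h.rt_a hj' a1, pow_succ] at b
    rw [le_div_iff₀ a0]
    nlinarith [mul_le_mul_of_nonneg_right (show 6 * (40 * c + 46 : ℝ) ≤ G.L j by
      linarith [one_le_pow₀ (n := c) (show (1 : ℝ) ≤ 3 by norm_num)]) y0]
  · have y : 1 ≤ (G.L l : ℝ) ^ (G.K0 + 1) * G.rt J l := one_le_mul_of_one_le_of_one_le
      (one_le_pow₀ (by linarith)) (Nat.one_le_cast.2 (Nat.cast_pos.1 r))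
    push_cast at hR ⊢
    rw [pow_succ _ (G.K0 + 1)]
    nlinarith [mul_le_mul_of_nonneg_right y a0.le, mul_le_mul_of_nonneg_right hX
      (mul_nonneg (zero_le_one.trans y) a0.le)]
  · rw [Nat.mul_div_cancel_left _ (Nat.cast_pos.1 r)]
    push_cast
    refine (pow_le_pow_left₀ (by positivity) ?_ _).trans (pow_le_pow_right₀ (h.Q1 l) (by norm_num))
    have y : 1 ≤ (G.L l : ℝ) ^ G.K0 := one_le_pow₀ (by linarith)
    refine le_trans ?_ (pow_le_pow_right₀ (by linarith) (show G.K0 + 3 ≤ G.K by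
      have := h.K0_le; omega))
    have z : 2 * (G.L l : ℝ) ^ 2 + 9 ≤ G.L l ^ 3 := by nlinarith [sq_nonneg (G.L l : ℝ)]
    rw [pow_add, pow_add]
    nlinarith [mul_le_mul_of_nonneg_left z (zero_le_one.trans y)]

/-- one slot in each cell -/
theorem geo_one (hj : j ≤ J) (δ0 : 0 ≤ δ) (hδ : 43 * (G.L j ^ G.K0 * (G.rt J j * a)) ≤ δ)
    (hL : (3000 : ℝ) ≤ G.L j) (hu : u ≤ G.L j ^ (G.K0 + 2)) (hc : cl.Injective) :
    G.Geo univ cl 1 (fun x => sup (F x)) J j j := by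
  have L := h.L1 j
  have k : (86 : ℝ) * (G.L j ^ G.K0 * G.rt J j) ≤ 2 * δ / a := by
    rw [le_div_iff₀ a0]; linarith
  have y : 1 ≤ (G.L j : ℝ) ^ G.K0 := one_le_pow₀ (by linarith)
  have r := rt_pos (G := G) J j
  refine h.geo_of (R := G.rt J j * u) hj (fun x _ y _ e => sep_cell hn a0 (P x) (P y) (hc.ne e))
    (le_trans (by nlinarith) k) (fun x _ y _ => sep_cell hn a0 (P x) (P y))
    (le_trans (by norm_num) k) (fun y => card_le_one.2 fun x hx z hz => hc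
      ((mem_filter.1 hx).2.trans (mem_filter.1 hz).2.symm)) (Nat.cast_le.1 (le_trans (by norm_num) hL))
    (fun y => ⟨_, fun x _ e => sup_cell (h.N_odd J) a0 δ0 (e ▸ P x)⟩) ?_
  rw [Nat.mul_div_cancel_left _ (Nat.cast_pos.1 r)]
  push_cast
  refine (pow_le_pow_left₀ (by positivity) ?_ _).trans (pow_le_pow_right₀ (h.Q1 j) (by norm_num))
  refine le_trans ?_ (pow_le_pow_right₀ (by linarith) (show G.K0 + 3 ≤ G.K by
    have := h.K0_le; omega))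
  have z : 2 * (G.L j : ℝ) ^ 2 + 9 ≤ G.L j ^ 3 := by nlinarith [sq_nonneg (G.L j : ℝ)]
  have hu' : (u : ℝ) ≤ G.L j ^ (G.K0 + 2) := by exact_mod_cast hu
  rw [pow_add] at hu' ⊢
  nlinarith [mul_le_mul_of_nonneg_left z (zero_le_one.trans y)]

omit hn P

/-- from separated small slots to the input of the chessboard estimate -/
theorem rg_sl (t : G.Tu b J) (hp : G.Pu) (hl : l ≤ J) (hj : j ≤ l) (hn : G.N j = m * u) (σ0 : 0 < σ)
    (δ0 : 0 ≤ δ) {L : (κ → Cfg (G.N J) → ℝ) → Prop} (hL : Ob.Cl (G.rt J j * u) L)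
    (H : ∀ O : Weak.Site 4 m → κ → _, (∀ c, L (O c)) → ∃ (X : _) (F : _ × κ → Src (G.N J)),
      Xo (G.N J) X (arr (G.rt J j * u) O) ∧ G.Sl b J l X σ (fun q => sup (F q)) ∧
        (∀ q, YM7.InT a δ (G.rt J j * u) q.1 (F q)) ∧
        G.Geo univ Prod.fst c (fun q => sup (F q)) J l j) :
    Ob.Rg (Fi.tr haar) b (G.rt J j * u) L (2 ^ (l - j) * σ)⁻¹ σ⁻¹ (cJ / G.g j * u ^ 4 +
      Fintype.card κ * ((2 * (u + 4 * G.L j ^ G.K0) + 1) ^ 4 : ℕ))
      (exp (Fintype.card κ * ((2 * (u + 4 * G.L j ^ G.K0) + 1) ^ 4 : ℕ))) :=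
  h.rg_fo t.b0 (hj.trans hl) (by positivity) hn (Nat.cast_nonneg _) hL fun O hO =>
    let ⟨X, _, o, s, i, g⟩ := H O hO
    let ⟨Y, y⟩ := h.fo_sl t hp hl hj σ0 (fun q => (o q).1) s g fun x =>
      Nat.cast_le.2 (h.zs_cell a0 i (hj.trans hl) δ0 x)
    ⟨X, Y, o, y⟩

end Pool.Agent.Lib.MP_7f377f_mp.RG.Q4.En.Gl.Ok
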