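import Pool.Agent.Lib.MP_7f377f_mp.G.ObB
import Pool.Agent.Lib.MP_7f377f_mp.G.ObC

/-! Operator bounds for clusters of composite fields. -/

noncomputable section

namespace Pool.Agent.Lib.MP_7f377f_mp.Ob
variable [GD]
set_option linter.unusedSectionVars false

open MeasureTheory Weak Filter Topology Real Jet Finset YM7 Pur

variable [MeasurableSpace SU2] [BorelSpace SU2] (h : Measure SU2) [h.IsHaarMeasure]
  [IsProbabilityMeasure h] {ι : Type} (n : ι → ℕ) [∀ p, NeZero (n p)] (a b : ι → ℝ)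

/-- the renormalisation group controls the arrays of the cluster `Y` -/
def RgY {κ : Type} [Fintype κ] [DecidableEq κ] (U : Filter ι) (w : ℝ) (Y : κ → ι → Pol)
    (ω ρ C M : ℝ) : Prop := ∀ᶠ p in U, ∃ (lam : ℕ) (L : (κ → Cfg (n p) → ℝ) → Prop)
  (O : κ → Cfg (n p) → ℝ), a p * lam = w ∧ Rg h (b p) lam L ω ρ C M ∧ L O ∧
    ∀ i, ∃ t, ∀ V, O i V = evr h (b p) (n p) (a p) (Y i p) V + t

/-- centring of polynomials on the lattice -/
def cn (Y : ι → Pol) (p : ι) : Pol :=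
  Y p - ((ex h (b p) (n p) (evr h (b p) (n p) (a p) (Y p)) : ℝ) : ℂ) • 1

variable {h n a b}

theorem Rc.cn {Y : ι → Pol} {p : ι} (e : Rc (Y p)) : Rc (cn h n a b Y p) := e.sub (Rc.one.smul _)

theorem evr_cn {Y : ι → Pol} {p : ι} {O : Cfg (n p) → ℝ} {t : ℝ}
    (e : ∀ V, O V = evr h (b p) (n p) (a p) (Y p) V + t) :
    evr h (b p) (n p) (a p) (cn h n a b Y p) = ce h (b p) O := by
  have i : Integrable (evr h (b p) (n p) (a p) (Y p)) (wilson h (b p) (n p)) :=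
    (Complex.continuous_re.comp (cont_evc (Y p))).integrable_of_hasCompactSupport
      (HasCompactSupport.of_compactSpace _)
  funext V
  simp only [ce, ex, e, integral_add i (integrable_const t)]
  rw [evr, cn, map_sub, map_smul, map_one]
  simp [evr, ex]

theorem evr_prod {κ : Type} [Fintype κ] {Y : κ → Pol} {p : ι} (e : ∀ i, Rc (Y i)) (V : Cfg (n p)) :
    evr h (b p) (n p) (a p) (∏ i, Y i) V = ∏ i, evr h (b p) (n p) (a p) (Y i) V := by
  rw [evr, map_prod, Finset.prod_apply]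
  simp only [(e _).evc, ← Complex.ofReal_prod, Complex.ofReal_re]

theorem RgY.pos {κ : Type} [Fintype κ] [DecidableEq κ] {U : Filter ι} [U.NeBot] {w ω ρ C M : ℝ}
    {Y : κ → ι → Pol} (H : RgY h n a b U w Y ω ρ C M) : 0 < ω ∧ ∀ k, 0 ≤ cB k C M := by
  obtain ⟨p, lam, L, O, -, ⟨-, h1, -, -, m, _, Λ, -, -, -, -, h2⟩, hO, -⟩ := H.exists
  obtain ⟨e, ⟨-, q, h3, -⟩, -⟩ := h2 O hO
  have := h3.nonneg
  exact ⟨h1, fun k => by unfold cB; positivity⟩

variable {Φ : Filter ι} {τ : ι → ℝ} {U : Ultrafilter ι}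
  {S₀ : ∀ {k : ℕ}, (Fin k → R4 → ℝ) → ℝ} {S : Pol →ₗ[ℂ] ℂ} (hF : Fam Φ n a b τ)
  (hL : L6.Lim h Φ n a b U S₀ S) (hS : net.St S) {w ω ρ C M ε : ℝ} (w0 : 0 < w)
include hF hL

theorem Cv.cn {Y : ι → Pol} {Z : Pol} {A : Set R4} (e : Cv U A Y Z) (hR : ∀ p, Rc (Y p)) :
    Cv U A (cn h n a b Y) (Z - S Z • 1) := by
  refine e.sub (.smul ((e.lim hF hL).congr fun p => ?_) (.base (net.one A)))
  rw [funext (hR p).evc, integral_complex_ofReal, ex]

include hS w0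

/-- one composite field -/
theorem qb_one {Y : ι → Pol} {Z : Pol} (e : Cv U (cel w) Y Z) (hR : ∀ p, Rc (Y p))
    (H : RgY h n a b U w (fun _ : Unit => Y) ω ρ C M) :
    net.QB S (Z - S Z • 1) (2 * w) (exp (256 * C) * (1 + exp (256 * C)) * ω) := by
  have := H.pos.1
  refine qb_arr hF hL hS w0 (by positivity) (e.cn hF hL hR) (fun p => (hR p).cn) (H.mono ?_)
  rintro p ⟨lam, L, O, h1, h2, h3, h4⟩
  obtain ⟨t, ht⟩ := h4 ()
  exact ⟨lam, h1, evr_cn ht ▸ h2.one h3⟩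

variable {κ : Type} [Fintype κ] [DecidableEq κ] {Y : κ → ι → Pol} {Z : κ → Pol} {A : κ → Set R4}
  (e : ∀ i, Cv U (A i) (Y i) (Z i)) (d : ∀ i j, i ≠ j → Disjoint (A i) (A j))
  (u : ∀ i, A i ⊆ cel w) (hR : ∀ i p, Rc (Y i p)) (H : RgY h n a b U w Y ω ρ C M)
include e d u hR H

/-- clusters -/
theorem qb_clu (hw : ω ≤ ρ) : net.QB S (∏ i, (Z i - S (Z i) • 1)) (2 * w)
    (cB (Fintype.card κ) C M * ρ ^ Fintype.card κ) := by
  have := H.pos.1.trans_le hw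
  have := H.pos.2 (Fintype.card κ)
  refine qb_arr hF hL hS w0 (by positivity) (Cv.prod (fun i _ => (e i).cn hF hL (hR i))
    (fun i _ j _ => d i j) fun i _ => u i) (fun p => Rc.prod fun i _ => (hR i p).cn) (H.mono ?_)
  rintro p ⟨lam, L, O, h1, h2, h3, h4⟩
  choose t ht using h4
  refine ⟨lam, h1, ?_⟩
  rw [funext (evr_prod fun i => (hR i p).cn)]
  simp only [fun i => evr_cn (ht i)]
  exact h2.clu hw h3

/-- concentration of clusters -/
theorem qb_con (ρ0 : 0 < ρ) (hw : ω ≤ ε * ρ) (ε1 : ε ≤ 1) :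
    net.QB S (∏ i, (Z i - S (Z i) • 1) - S (∏ i, (Z i - S (Z i) • 1)) • 1) (2 * w)
      (cB (Fintype.card κ) C M * (ε * ρ ^ Fintype.card κ)) := by
  have := (mul_pos_iff_of_pos_right ρ0).1 (H.pos.1.trans_le hw)
  have := H.pos.2 (Fintype.card κ)
  obtain ⟨X, hX⟩ : ∃ X : ι → Pol, X = fun p => ∏ i, cn h n a b (Y i) p := ⟨_, rfl⟩
  have r : ∀ p, Rc (X p) := fun p => hX ▸ Rc.prod fun i _ => (hR i p).cn
  have c : Cv U (cel w) X (∏ i, (Z i - S (Z i) • 1)) := hX ▸ Cv.prod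
    (fun i _ => (e i).cn hF hL (hR i)) (fun i _ j _ => d i j) fun i _ => u i
  refine qb_arr hF hL hS w0 (by positivity) (c.cn hF hL r) (fun p => (r p).cn) (H.mono ?_)
  rintro p ⟨lam, L, O, h1, h2, h3, h4⟩
  choose t ht using h4
  refine ⟨lam, h1, ?_⟩
  rw [evr_cn (Y := X) (O := fun V => ∏ i, ce h (b p) (O i) V) (t := 0) fun V => by
    rw [hX, add_zero, evr_prod fun i => (hR i p).cn]
    simp only [fun i => evr_cn (ht i)]]
  exact h2.con ρ0 hw ε1 h3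

end Pool.Agent.Lib.MP_7f377f_mp.Ob
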