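import Pool.Agent.Lib.MP_7f377f_mp.OddChess
import Pool.Agent.Lib.MP_7f377f_mp.G.SmeA

/-! Reflection positivity and the chessboard estimate for the `SU(2)` Wilson measure. -/

namespace Pool.Agent.Lib.MP_7f377f_mp.YM5
variable [GD]

open MeasureTheory Weak

variable {n : ℕ} [NeZero n] [MeasurableSpace SU2] [BorelSpace SU2] (h : Measure SU2)
  [h.IsHaarMeasure] [IsProbabilityMeasure h]

theorem wilson_rp {b : ℝ} (hb : 0 ≤ b) (k : Fin 4) {F : Cfg n → ℝ} (hF : BM F)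
    (hd : Dep (n / 2) k F) : 0 ≤ ∫ U, F U * F (refl k U) ∂(wilson h b n) := by
  let _ := quatHS
  rw [wilson_nu]
  exact rp_pos_meas rho h rho_cont (by positivity) k hF hd

theorem wilson_rp_ineq {b : ℝ} (hb : 0 ≤ b) (k : Fin 4) {F₁ F₂ : Cfg n → ℝ} (h₁ : BM F₁)
    (h₂ : BM F₂) (d₁ : Dep (n / 2) k F₁) (d₂ : Dep (n / 2) k F₂) :
    (∫ U, F₁ U * F₂ (refl k U) ∂(wilson h b n)) ^ 2 ≤
      (∫ U, F₁ U * F₁ (refl k U) ∂(wilson h b n)) * ∫ U, F₂ U * F₂ (refl k U) ∂(wilson h b n) := by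
  let _ := quatHS
  rw [wilson_nu]
  exact rp_ineq_meas rho h rho_cont (by positivity) k h₁ h₂ d₁ d₂

theorem wilson_shift (b : ℝ) (a : Site 4 n) :
    MeasurePreserving (shift a) (wilson h b n) (wilson h b n) := by
  let _ := quatHS
  rw [wilson_nu]
  exact nu_shift h rho rho_cont _ a

theorem wilson_refl (b : ℝ) (k : Fin 4) :
    MeasurePreserving (refl k) (wilson h b n) (wilson h b n) := by
  let _ := quatHS
  rw [wilson_nu]
  exact nu_refl h rho rho_cont _ k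

theorem wilson_chess_lite {b : ℝ} (hb : 0 ≤ b) {m : ℕ} [NeZero m] (hm : Odd m)
    {β : Type} (e : β) (r : Fin 4 → β → β) (re : ∀ k, r k e = e) (rr : ∀ k a, r k (r k a) = a)
    (f : β → Site 4 m → Cfg n → ℝ) (hf : ∀ a x, BM (f a x)) (he : ∀ x U, f e x U = 1)
    (emb : Site 4 m → Site 4 n) (hs : ∀ a x y U, f a x (shift (emb y) U) = f a (x + y) U)
    (hr : ∀ a x k U, f a x (refl k U) = f (r k a) (rc k x) U)
    (hd : ∀ a x k, (x k).val < m / 2 → Dep (n / 2) k (f a x))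
    (w : β → ℝ) (w0 : ∀ a, 0 < w a) (we : w e = 1) (wr : ∀ k a, w (r k a) = w a) {C : ℝ}
    (hC : 0 ≤ C) (hM : ∀ σ : Site 4 m → β,
      |∫ U, ∏ x, f (σ x) x U ∂(wilson h b n)| ≤ Real.exp (C * m ^ 4) * ∏ x, w (σ x))
    (D : ℕ) (x₀ : Site 4 m) (σ : Site 4 m → β) (hσ : ∀ x k, D ≤ ((x - x₀) k).val → σ x = e) :
    |∫ U, ∏ x, f (σ x) x U ∂(wilson h b n)| ≤ Real.exp (C * (4 * D) ^ 4) * ∏ x, w (σ x) := by
  let _ := quatHS
  rw [wilson_nu] at hM ⊢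
  exact chess_lite rho h rho_cont (by positivity) hm e r re rr f hf he emb hs hr hd w w0 we wr hC hM
    D x₀ σ hσ

theorem wilson_chess_cell {b : ℝ} (hb : 0 ≤ b) {m lam : ℕ} [NeZero m] (hm : Odd m)
    (hL : n = m * lam) {β : Type} (e : β) (r : Fin 4 → β → β) (re : ∀ k, r k e = e)
    (rr : ∀ k a, r k (r k a) = a) (O : β → Cfg n → ℝ) (hO : ∀ a, BM (O a)) (he : ∀ U, O e U = 1)
    (hr : ∀ a k U, O (r k a) U = O a (refl k (shift (Pi.single k (lam : ZMod n)) U)))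
    (hd : ∀ a U V, (∀ l, (∀ k, half lam k l) → U l = V l) → O a U = O a V)
    (w : β → ℝ) (w0 : ∀ a, 0 < w a) (we : w e = 1) (wr : ∀ k a, w (r k a) = w a) {C : ℝ}
    (hC : 0 ≤ C) (hM : ∀ σ : Site 4 m → β, |∫ U, ∏ x, O (σ x) (shift (corner lam x) U)
      ∂(wilson h b n)| ≤ Real.exp (C * m ^ 4) * ∏ x, w (σ x))
    (D : ℕ) (x₀ : Site 4 m) (σ : Site 4 m → β) (hσ : ∀ x k, D ≤ ((x - x₀) k).val → σ x = e) :
    |∫ U, ∏ x, O (σ x) (shift (corner lam x) U) ∂(wilson h b n)| ≤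
      Real.exp (C * (4 * D) ^ 4) * ∏ x, w (σ x) := by
  let _ := quatHS
  rw [wilson_nu] at hM ⊢
  exact chess_cell rho h rho_cont (by positivity) hm hL e r re rr O hO he hr hd w w0 we wr hC hM
    D x₀ σ hσ

end Pool.Agent.Lib.MP_7f377f_mp.YM5
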