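import Pool.Agent.Lib.MP_7f377f_mp.G.Op3a

/-! The short distance law for centred clusters at several scales. -/

noncomputable section

namespace Pool.Agent.Lib.MP_7f377f_mp.Ope

open MeasureTheory Filter Topology Set Real YM7 Pur Metric

set_option linter.unusedSectionVars false

variable [GD] {S : Type} [Fintype S] [DecidableEq S] {κ : S → Type} [∀ s, Fintype (κ s)]
  [∀ s, DecidableEq (κ s)] {Λ δ r X : ℝ} {u : (Σ s, κ s) → R4 → ℝ} {c a : S → ℝ}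
  {m : S → S → ℝ} {ϖ : S → R4} {Δ : S → S → R4}

theorem Cq.tf (H : Cq Λ δ u) (G : Msc Λ δ r c a m ϖ Δ) (δ0 : 0 < δ) (r0 : 0 < r) (r1 : r ≤ 1)
    (hr : r * (2 * Λ + 1) ≤ δ / 4) (hX : ∀ i, ‖ϖ i‖ + c i * Λ ≤ X) (X2 : Λ ≤ X) {k : ℕ}
    {e : Fin k → Σ s, κ s} (he : Function.Injective e) :
    Tf (fun i => um c ϖ u (e i)) X (δ / 4) ∧ Adm fun i => um c ϖ u (e i) := by
  have Λ1 := H.one
  have c0 := fun i => one_pos.trans_le (G.one i)
  have t : Tf (fun i => um c ϖ u (e i)) X (δ / 4) := by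
    refine ⟨by linarith, by positivity, fun i y h l => (PiLp.norm_apply_le y l).trans (by
      linarith [H.um_sup G.one h, hX (e i).1, norm_sub_norm_le y (ϖ (e i).1)]),
      fun i y => (H.bd _ _).trans X2, fun i y z => ?_, fun i j n y z h1 h2 => ?_⟩
    · refine (H.lip _ _ _).trans (mul_le_mul X2 ?_ dist_nonneg (by linarith))
      rw [dist_smul₀, norm_inv, Real.norm_of_nonneg (c0 _).le, dist_sub_right]
      exact mul_le_of_le_one_left dist_nonneg (inv_le_one_of_one_le₀ (G.one _))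
    · by_contra! c'
      have d1 := dist_le_two fun l => (c' l).le
      rw [dist_comm, dist_eq_norm] at d1
      by_cases b : (e i).1 = (e j).1
      · have s := H.sep _ _ (he.ne n) b _ _ h1 h2
        rw [b, ← smul_sub, sub_sub_sub_cancel_right, norm_smul, norm_inv,
          Real.norm_of_nonneg (c0 _).le] at s
        linarith [mul_le_of_le_one_left (norm_nonneg (z - y)) (inv_le_one_of_one_le₀ (G.one (e j).1))]
      · have b1 := H.um_sup G.one h1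
        have b2 := H.um_sup G.one h2
        have b3 := G.near _ _ b
        have b4 := G.m1 r0 r1 (e i).1 (e j).1
        obtain ⟨b5, b6⟩ := G.far _ _ b
        have b7 := (G.sep _ _ b).1
        generalize m _ _ = M at b3 b4 b5 b6
        have M0 : 0 < M := by linarith
        have b8 := norm_sub_norm_le (Δ (e i).1 (e j).1) (M⁻¹ • (ϖ (e j).1 - ϖ (e i).1))
        rw [norm_sub_rev (Δ _ _), norm_smul, norm_inv, Real.norm_of_nonneg M0.le] at b8
        have b9 := (le_inv_mul_iff₀ M0).1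
          (show δ - r ≤ M⁻¹ * ‖ϖ (e j).1 - ϖ (e i).1‖ by linarith)
        have b0 := norm_sub_le (z - y) ((z - ϖ (e j).1) - (y - ϖ (e i).1))
        rw [show z - y - ((z - ϖ (e j).1) - (y - ϖ (e i).1)) = ϖ (e j).1 - ϖ (e i).1 by abel] at b0
        nlinarith [norm_sub_le (z - ϖ (e j).1) (y - ϖ (e i).1), mul_le_mul_of_nonneg_left hr M0.le,
          mul_le_mul_of_nonneg_right (add_le_add b5 b6) (zero_le_one.trans Λ1)]
  exact ⟨t, adm_of_tf t fun i => (H.reg _).comp ((contDiff_id.sub contDiff_const).const_smul _)⟩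

/-- the short distance law for centred clusters at several scales -/
theorem tsM {W : Pol →ₗ[ℂ] ℂ} {X : ℝ → ℝ} (hA : Afu W X) (Λ : ℝ) {δ η : ℝ} (δ0 : 0 < δ)
    (η0 : 0 < η) (C : ℕ) : ∃ B, ∃ r > 0, ∀ᶠ d in 𝓝[>] (0 : ℝ), ∀ c a m ϖ Δ, Msc Λ δ r c a m ϖ Δ →
    (∀ i, ‖ϖ i‖ + c i * Λ ≤ X d) → (∏ i, a i ^ 4)⁻¹ ≤ X d ^ C → ∀ u : (Σ s, κ s) → R4 → ℝ, Cq Λ δ u →
      |Lq (GD.d / 2) Δ u| ≤ B ∧
      ‖((log d⁻¹ ^ Fintype.card (Σ s, κ s) * (∏ i, a i ^ 4)⁻¹ : ℝ) : ℂ) *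
        W (∏ s, ctr W (∏ x, MvPolynomial.X fun y => um c ϖ u ⟨s, x⟩ (d⁻¹ • y))) -
        (qc ^ Fintype.card (Σ s, κ s) * Lq (GD.d / 2) Δ u : ℝ)‖ ≤ η := by
  obtain ⟨κ₀, s, μ, hκ, tX, -, ts, tμ, H⟩ := hA
  obtain ⟨n, hn⟩ : ∃ n, n = Fintype.card (Σ s, κ s) := ⟨_, rfl⟩
  obtain ⟨c, hc⟩ : ∃ c, c = Fintype.card S := ⟨_, rfl⟩
  obtain ⟨R, hR⟩ : ∃ R, R = |qc| + 1 := ⟨_, rfl⟩
  have R1 : 1 ≤ R := hR ▸ le_add_of_nonneg_left (abs_nonneg _)
  have Rn : 1 ≤ R ^ n := one_le_pow₀ R1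
  have δ4 : 0 < δ / 4 := by positivity
  obtain ⟨B, hB⟩ := gaussM (κ := κ) hκ Λ δ0 (show 0 < η / 3 / R ^ n by positivity)
  obtain ⟨r, hr, ⟨r0, r1⟩, -, r2⟩ := (hB.and (Eventually.and (Ioc_mem_nhdsGT one_pos)
    (Ioc_mem_nhdsGT (show 0 < δ / 4 / (2 * |Λ| + 1) by positivity)))).exists
  choose M hM using fun k : Fin (n + 1) => LS_bd hκ k δ4
  obtain ⟨N, hN⟩ := Finite.exists_le M
  refine ⟨B, r, r0, ?_⟩
  have t1 : Tendsto (fun d => |μ d ^ n - qc ^ n| * B) (𝓝[>] 0) (𝓝 0) := by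
    simpa using ((tμ.pow n).sub_const (qc ^ n)).abs.mul_const B
  filter_upwards [H n ((5 * n + 1) * (c + 1) + C + 1) _ δ4,
    ts.eventually (eventually_all.2 hM), ts.eventually (Ioc_mem_nhdsGT r0),
    tμ.abs.eventually_le_const (show |qc| < R by linarith),
    tX.eventually_ge_atTop (R ^ n * max N 0 + 1), tX.eventually_ge_atTop (2 ^ c * (c + 1) / (η / 3)),
    t1.eventually_le_const (show 0 < η / 3 by positivity), tX.eventually_ge_atTop Λ]
    with d h1 h2 h3 h4 h5 h6 h7 h8 cs a m' ϖ Δ G hX hL u hu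
  rw [abs_of_pos (one_pos.trans_le hu.one), le_div_iff₀ (by linarith [hu.one])] at r2
  simp only [← hn]
  generalize X d = x at *
  generalize μ d = m at *
  generalize s d = t at *
  generalize log d⁻¹ = ℓ at *
  have N0 : 0 ≤ R ^ n * max N 0 := by positivity
  have x1 : 1 ≤ x := by linarith
  obtain ⟨Z, hZ⟩ : ∃ Z, Z = x ^ (5 * n + 1) := ⟨_, rfl⟩
  obtain ⟨ε, hε⟩ : ∃ ε, ε = (x ^ ((5 * n + 1) * (c + 1) + C + 1))⁻¹ := ⟨_, rfl⟩
  have Z1 : 1 ≤ Z := hZ ▸ one_le_pow₀ x1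
  have ε0 : 0 ≤ ε := by rw [hε]; positivity
  have key : ∀ {ι : Type} [Fintype ι] [DecidableEq ι] (e : ι → Σ s, κ s), Function.Injective e →
      ∀ a b : ℂ, a = (∏ _i : ι, (ℓ : ℂ)) *
        W (∏ i, MvPolynomial.X fun y => um cs ϖ u (e i) (d⁻¹ • y)) →
      b = (∏ _i : ι, (m : ℂ)) * LS κ₀ t (fun i => um cs ϖ u (e i)) →
      ‖a‖ ≤ Z ∧ ‖b‖ ≤ Z ∧ ‖a - b‖ ≤ ε := fun {ι} _ _ e he a b ha hb => by
    have k1 : Fintype.card ι ≤ n := hn ▸ Fintype.card_le_of_injective e he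
    obtain ⟨t1, t2⟩ := hu.tf G δ0 r0 r1 r2 hX h8 (he.comp (Fintype.equivFin ι).symm.injective)
    have a1 := h1 _ k1 _ t2 t1
    have a2 := h2 ⟨_, Nat.lt_succ_of_le k1⟩ x _ t1
    simp only [Function.comp] at a1 a2
    rw [LS_equiv (Fintype.equivFin ι).symm κ₀ t fun i => um cs ϖ u (e i)] at a1 a2
    rw [mon, (Fintype.equivFin ι).symm.prod_comp fun i => MvPolynomial.X fun y =>
      um cs ϖ u (e i) (d⁻¹ • y), ← le_div_iff₀' (by positivity), one_div, ← hε] at a1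
    rw [Finset.prod_const, Finset.card_univ] at ha hb
    push_cast at a1
    rw [← ha, ← hb] at a1
    have a3 : ‖b‖ ≤ R ^ n * max N 0 * x ^ (5 * n) := by
      rw [hb, norm_mul, norm_pow, Complex.norm_real, Complex.norm_real, mul_assoc]
      exact mul_le_mul ((pow_le_pow_left₀ (norm_nonneg _) h4 _).trans (pow_le_pow_right₀ R1 k1))
        (a2.trans (mul_le_mul ((hN _).trans (le_max_left _ _)) (pow_le_pow_right₀ x1
          (Nat.mul_le_mul_left 5 k1)) (by positivity) (le_max_right _ _))) (norm_nonneg _)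
        (by positivity)
    have a4 : ε ≤ 1 := hε ▸ inv_le_one_of_one_le₀ (one_le_pow₀ x1)
    have a5 := one_le_pow₀ (n := 5 * n) x1
    have a6 := mul_le_mul_of_nonneg_right h5 (zero_le_one.trans a5)
    rw [← pow_succ', ← hZ] at a6
    exact ⟨by linarith [norm_sub_norm_le a b], by linarith, a1⟩
  obtain ⟨g1, g2⟩ := hr t h3.1 h3.2 _ _ _ _ _ G u hu
  refine ⟨g1, ?_⟩
  have L0 : 0 ≤ (∏ i, a i ^ 4)⁻¹ := by positivity
  generalize (∏ i, a i ^ 4)⁻¹ = L at *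
  generalize Lq (GD.d / 2) Δ u = I at g1 g2 ⊢
  obtain ⟨G, hG⟩ : ∃ G, G = ∑ T : Finset S, (∏ a ∈ Tᶜ, -LS κ₀ t fun x => um cs ϖ u ⟨a, x⟩) *
    (LS κ₀ t fun q : Σ a : T, κ a => um cs ϖ u ⟨q.1, q.2⟩) := ⟨_, rfl⟩
  rw [← hG] at g2
  have g3 : ‖(ℓ ^ n : ℂ) * W (∏ s, ctr W (∏ x, MvPolynomial.X fun y =>
      um cs ϖ u ⟨s, x⟩ (d⁻¹ • y))) - m ^ n * G‖ ≤ 2 ^ c * ((c + 1) * Z ^ (c + 1) * ε) := by
    rw [ctr_prod, hG]
    push_cast
    rw [Finset.mul_sum, Finset.mul_sum, ← Finset.sum_sub_distrib]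
    refine (norm_sum_le _ _).trans ((Finset.sum_le_card_nsmul _ _ _ fun T _ => ?_).trans_eq
      (by rw [Finset.card_univ, Fintype.card_finset, nsmul_eq_mul, ← hc, Nat.cast_pow, Nat.cast_ofNat]))
    have e : ∀ (v : ℂ) (a : S → ℂ) (b : ℂ), v ^ n * ((∏ s ∈ Tᶜ, -a s) * b) =
        (∏ s ∈ Tᶜ, -((∏ _x : κ s, v) * a s)) * ((∏ _q : Σ s : T, κ s, v) * b) := fun v a b => by
      rw [hn, ← Finset.card_univ, ← Finset.prod_const, ← prod_split T]
      simp only [← mul_neg, Finset.prod_mul_distrib]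
      ring
    rw [e, e, ← Finset.prod_coe_sort T, ← Fintype.prod_sigma' (α := fun s : T => κ s)]
    obtain ⟨b1, -, b3⟩ := key (fun q : Σ s : T, κ s => ⟨q.1, q.2⟩)
      (Function.Injective.sigma_map Subtype.val_injective fun _ => Function.injective_id) _ _ rfl rfl
    have b4 := fun s => key (fun x : κ s => ⟨s, x⟩) sigma_mk_injective _ _ rfl rfl
    have cT : Tᶜ.card ≤ c := hc ▸ Finset.card_le_univ _
    have b5 := norm_prod_sub Tᶜ Z1 ε0 fun s _ => ⟨(norm_neg _).trans_le (b4 s).1,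
      (norm_neg _).trans_le (b4 s).2.1, by rw [neg_sub_neg, norm_sub_rev]; exact (b4 s).2.2⟩
    have b6 := (Finset.norm_prod_le Tᶜ _).trans ((Finset.prod_le_prod (fun _ _ => norm_nonneg _)
      fun s _ => (norm_neg _).trans_le (b4 s).2.1).trans_eq (Finset.prod_const Z))
    have f : ∀ a b a' b' : ℂ, a * b - a' * b' = (a - a') * b + a' * (b - b') := fun _ _ _ _ => by ring
    rw [f]
    refine (norm_add_le _ _).trans ((add_le_add (norm_mul_le _ _) (norm_mul_le _ _)).trans ?_)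
    refine le_trans (b := Tᶜ.card * Z ^ Tᶜ.card * ε * Z + Z ^ Tᶜ.card * ε) (add_le_add ?_ ?_) ?_
    · exact mul_le_mul b5 b1 (norm_nonneg _) (by positivity)
    · exact mul_le_mul b6 b3 (norm_nonneg _) (by positivity)
    calc _ ≤ c * Z ^ c * ε * Z + Z ^ (c + 1) * ε := by gcongr; omega
      _ = _ := by ring
  have g4 : L * (2 ^ c * ((c + 1) * Z ^ (c + 1) * ε)) ≤ η / 3 := by
    rw [div_le_iff₀ (by positivity), ← div_le_iff₀' (by positivity)] at h6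
    refine (mul_le_mul_of_nonneg_right hL (by positivity)).trans (le_of_eq_of_le ?_ h6)
    rw [hZ, hε, ← pow_mul, pow_succ x (_ + C), pow_add x (_ * _)]
    field_simp
  have g5 : |m ^ n| ≤ R ^ n := abs_pow m n ▸ pow_le_pow_left₀ (abs_nonneg _) h4 _
  rw [le_div_iff₀' (by positivity)] at g2
  generalize W _ = w at g3 ⊢
  rw [show ((ℓ ^ n * L : ℝ) : ℂ) * w - (qc ^ n * I : ℝ) = (L : ℝ) * ((ℓ ^ n : ℂ) * w - m ^ n * G) +
    ((m ^ n * (L * G - I) : ℝ) + ((m ^ n - qc ^ n) * I : ℝ)) by push_cast; ring]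
  refine (norm_add_le _ _).trans ((add_le_add le_rfl (norm_add_le _ _)).trans ?_)
  rw [norm_mul, Complex.norm_real, Complex.norm_real, Complex.norm_real, norm_mul, norm_mul,
    Real.norm_of_nonneg L0]
  linarith [mul_le_mul_of_nonneg_left g3 L0,
    mul_le_mul_of_nonneg_right g5 (norm_nonneg (L * G - I)),
    mul_le_mul_of_nonneg_left g1 (abs_nonneg (m ^ n - qc ^ n)), Real.norm_eq_abs (m ^ n),
    show ‖m ^ n - qc ^ n‖ * ‖I‖ = |m ^ n - qc ^ n| * |I| from rfl,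
    show ‖m ^ n‖ * ‖L * G - I‖ = |m ^ n| * ‖L * G - I‖ from rfl,
    show R ^ n * ‖L * G - I‖ ≤ η / 3 from g2]

end Pool.Agent.Lib.MP_7f377f_mp.Ope
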