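import Pool.Agent.Lib.MP_7f377f_mp.G.OpB
import Pool.Agent.Lib.MP_7f377f_mp.G.Op3b
import Pool.Agent.Lib.MP_7f377f_mp.G.CmS

/-! The three scale law. -/

noncomputable section

namespace Pool.Agent.Lib.MP_7f377f_mp.Cm
variable [Pool.Agent.Lib.MP_7f377f_mp.GD]
set_option linter.unusedSectionVars false

open MeasureTheory Filter Topology Set Real YM7 Pur MvPolynomial Lg
open Lb (Lab Pl lq sy frL Sep)

theorem Lq_eq {k : ℕ} {m : Fin k → ℕ} {Λ δ : ℝ} {u : ∀ s, Fin (m s) → R4 → ℝ}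
    (hu : ∀ s, Tw Λ δ (u s)) (w : ℝ) (Δ : Fin k → Fin k → R4) :
    Ope.Lq w Δ (fun p : Σ s, Fin (m s) => u p.1 p.2) =
      lq w fun s t => Lb.pr (Δ s t) * sy (Bu w (u t)) := by
  obtain ⟨F, hF⟩ : ∃ F, F = Lb.lqM w fun s t => Lb.pr (Δ s t) := ⟨_, rfl⟩
  have e : ∀ c : Fin k → Lab ℝ, (lq w fun s t => Lb.pr (Δ s t) * c t) = ∑ e : Fin k → Pl × Pl,
      (∏ s, c s (e s).1 (e s).2) * F fun s => Matrix.single (e s).1 (e s).2 1 := fun c => by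
    have : c = fun s => ∑ e : Pl × Pl, c s e.1 e.2 • Matrix.single e.1 e.2 (1 : ℝ) :=
      funext fun s => by
        conv_lhs => rw [Matrix.matrix_eq_sum_single (c s)]
        simp [Fintype.sum_prod_type]
    refine (show _ = F c from hF ▸ rfl).trans ?_
    conv_lhs => rw [this, MultilinearMap.map_sum]
    simp only [MultilinearMap.map_smul_univ, smul_eq_mul]
  have h := fun s => CmS.wt (hu s)
  have e1 : ∀ s, sy (Bu w (u s)) = Bu w (u s) := fun s =>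
    Lb.sy_of (((congrArg _ (h s).pa_Bi).symm.trans Lb.pa_tr).trans (h s).pa_Bi)
  simp only [Ope.Lq, e, e1, Fintype.prod_sigma, Finset.mul_sum, ← mul_assoc,
    ← Finset.prod_mul_distrib]
  have := fun e : Fin k → Pl × Pl => (Lb.intg_sigma fun s =>
    ((h s).mul (Lb.B_cont' (w := w) (e s).1 (e s).2)).int).mul_const
      (F fun s => Matrix.single (e s).1 (e s).2 1)
  refine (integral_finset_sum _ fun e _ => this e).trans (Finset.sum_congr rfl fun e _ => ?_)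
  rw [integral_mul_const, Lb.int_sigma fun s y => (∏ i, u s i (y i)) * Lb.B w y (e s).1 (e s).2]
  rfl

theorem msc3 {Λ δ r ρ t d t' : ℝ} {ξ ζ : Fin 2 → R4} (d0 : 0 < d) (ρ2 : 2 ≤ ρ) (hr : 1 ≤ r * ρ)
    (hΛ : Λ ≤ r * ρ) (hd : d * ρ ≤ t) (h1 : t / 2 ≤ t') (h2 : t' ≤ t) (hξ : Sep δ Λ ξ)
    (hζ : Sep δ Λ ζ) : Ope.Msc (2 * Λ) δ r (fun s => ![d, d, t'] s / d)
      ![d / t, d / t, t' / (ρ ^ 2 * t)]
      ![![d / d, t / d, ρ * t / d], ![t / d, d / d, ρ * t / d], ![ρ * t / d, ρ * t / d, t' / d]]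
      (fun s => d⁻¹ • ![(ρ * t) • ζ 0 + t • ξ 0, (ρ * t) • ζ 0 + t • ξ 1, (ρ * t) • ζ 1] s)
      ![![0, ξ 1 - ξ 0, ζ 1 - ζ 0], ![ξ 0 - ξ 1, 0, ζ 1 - ζ 0], ![ζ 0 - ζ 1, ζ 0 - ζ 1, 0]] := by
  have ρ0 : 0 < ρ := by linarith
  have t0 : 0 < t := (mul_pos d0 ρ0).trans_le hd
  have t1 : 0 < t' := by linarith
  have r0 : 0 < r := (mul_pos_iff_of_pos_right ρ0).1 (by linarith)
  have a1 : 1 ≤ t' / d := (one_le_div d0).2 (by nlinarith)
  have a2 : d / t ≤ r := (div_le_iff₀ t0).2 (by nlinarith)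
  have a3 : t' / (ρ ^ 2 * t) ≤ r := (div_le_iff₀ (by positivity)).2 (by
    nlinarith [mul_le_mul_of_nonneg_right hr (mul_pos ρ0 t0).le])
  have a4 : d / d ≤ r * (t / d) := by
    rw [← mul_div_assoc]
    exact div_le_div_of_nonneg_right (by nlinarith) d0.le
  have a5 : t' / d ≤ r * (ρ * t / d) := by
    rw [← mul_div_assoc]
    exact div_le_div_of_nonneg_right (by nlinarith) d0.le
  have a6 : d / d ≤ r * (ρ * t / d) := ((div_self d0.ne').trans_le a1).trans a5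
  have b1 : ∀ i, ‖ρ⁻¹ • ξ i‖ ≤ r := fun i => by
    rw [norm_smul, norm_inv, Real.norm_of_nonneg ρ0.le, inv_mul_le_iff₀' ρ0]
    exact (hξ.1 i).trans hΛ
  have b2 : ∀ {y : Fin 2 → R4}, Sep δ Λ y → ∀ i j, i ≠ j →
      δ ≤ ‖y i - y j‖ ∧ ‖y i - y j‖ ≤ 2 * Λ := fun {y} h i j e =>
    ⟨h.2 i j e, by linarith [norm_sub_le (y i) (y j), h.1 i, h.1 j]⟩
  have b3 : ∀ i j, ‖(t / d)⁻¹ • (d⁻¹ • ((ρ * t) • ζ 0 + t • ξ i) -
      d⁻¹ • ((ρ * t) • ζ 0 + t • ξ j)) - (ξ i - ξ j)‖ ≤ r := fun i j =>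
    le_of_eq_of_le (norm_eq_zero.2 (by match_scalars <;> field_simp <;> ring)) r0.le
  have b4 : ∀ i, ‖(ρ * t / d)⁻¹ • (d⁻¹ • ((ρ * t) • ζ 0 + t • ξ i) - d⁻¹ • (ρ * t) • ζ 1) -
      (ζ 0 - ζ 1)‖ ≤ r := fun i =>
    le_of_eq_of_le (congrArg _ (by match_scalars <;> field_simp <;> ring)) (b1 i)
  have b5 : ∀ i, ‖(ρ * t / d)⁻¹ • (d⁻¹ • (ρ * t) • ζ 1 - d⁻¹ • ((ρ * t) • ζ 0 + t • ξ i)) -
      (ζ 1 - ζ 0)‖ ≤ r := fun i =>
    le_of_eq_of_le ((norm_neg _).symm.trans (congrArg _ (by module))) (b4 i)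
  refine ⟨fun s => ?_, fun s => ?_, fun s => ?_, fun s => ?_, fun s => ?_, fun s s' e => ?_,
    fun s s' e => ?_, fun s s' e => ?_, fun s s' e => ?_⟩
  · fin_cases s
    exacts [(div_self d0.ne').ge, (div_self d0.ne').ge, a1]
  · fin_cases s
    exacts [div_pos d0 t0, div_pos d0 t0, div_pos t1 (by positivity)]
  · fin_cases s
    exacts [a2, a2, a3]
  · fin_cases s <;> rfl
  · fin_cases s <;> rfl
  · fin_cases s <;> fin_cases s' <;> first | exact (e rfl).elim | (simp; field_simp)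
  · fin_cases s <;> fin_cases s'
    exacts [(e rfl).elim, ⟨a4, a4⟩, ⟨a6, a5⟩, ⟨a4, a4⟩, (e rfl).elim, ⟨a6, a5⟩, ⟨a5, a6⟩, ⟨a5, a6⟩,
      (e rfl).elim]
  · fin_cases s <;> fin_cases s'
    exacts [(e rfl).elim, b3 1 0, b5 0, b3 0 1, (e rfl).elim, b5 1, b4 0, b4 1, (e rfl).elim]
  · fin_cases s <;> fin_cases s'
    exacts [(e rfl).elim, b2 hξ 1 0 (by decide), b2 hζ 1 0 (by decide), b2 hξ 0 1 (by decide),
      (e rfl).elim, b2 hζ 1 0 (by decide), b2 hζ 0 1 (by decide), b2 hζ 0 1 (by decide),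
      (e rfl).elim]

theorem ts3_of {S : Pol →ₗ[ℂ] ℂ} {X ρ : ℝ → ℝ} (hA : Ope.Afu S X) (top : Tendsto ρ (𝓝[>] 0) atTop)
    (hP : ∀ᶠ t in 𝓝[>] (0 : ℝ), ∀ d ∈ Icc (t / (4 * ρ t)) (t / ρ t), (ρ t * t / d) ^ 2 ≤ X d) :
    Ts3 S ρ := by
  intro m Λ δ hm η η0
  by_cases δ0 : 0 < δ
  swap
  · exact .of_forall fun t d _ t' _ ξ ζ _ _ u hu => (δ0 (hu 0).2.1.pos).elim
  obtain ⟨B, r, r0, hL⟩ := Ope.tsM (κ := fun s : Fin 3 => Fin (m s)) hA (2 * Λ) δ0 (half_pos η0) 9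
  obtain ⟨-, -, -, -, -, hX, -⟩ := hA
  obtain ⟨ε, ε0, hε⟩ := mem_nhdsGT_iff_exists_Ioo_subset.1 (hL.and hX)
  obtain ⟨N, hN⟩ : ∃ N, N = ∑ s, m s := ⟨_, rfl⟩
  obtain ⟨Q, hQ⟩ : ∃ Q : ℝ, Q = ‖gm ^ N‖ * B := ⟨_, rfl⟩
  filter_upwards [top.eventually_ge_atTop 4, top.eventually_ge_atTop (Λ / r),
    top.eventually_ge_atTop (4 * Λ), top.eventually_ge_atTop (2 * (N * Q) / η), hP,
    Ioo_mem_nhdsGT ε0] with t r4 r5 r6 r7 h2 ⟨t0, t1⟩ d hd t' ht ξ ζ hξ hζ u hu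
  have h3 := h2 d hd
  generalize ρ t = q at *
  have tf := fun s => (hu s).2.1
  have Λ1 := (tf 0).one
  have q0 : 0 < q := by linarith
  have d0 : 0 < d := (div_pos t0 (by linarith)).trans_le hd.1
  have d1 : d * q ≤ t := (le_div_iff₀ q0).1 hd.2
  have x1 : q ≤ t / d := (le_div_iff₀' d0).2 d1
  have d2 : d ≤ t := (le_mul_of_one_le_right d0.le (by linarith)).trans d1
  have t2 : 0 < t' := by linarith [ht.1]
  obtain ⟨a1, a2⟩ := hε ⟨d0, d2.trans_lt t1⟩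
  rw [div_le_iff₀' r0] at r5
  have x0 : 0 < t / d := q0.trans_le x1
  have x2 : t / d ≤ q * t / d := by
    rw [mul_div_assoc]
    exact le_mul_of_one_le_left x0.le (by linarith)
  have e0 : (∏ i, ![d / t, d / t, t' / (q ^ 2 * t)] i ^ 4)⁻¹ = (t / d) ^ 8 * q ^ 8 * (t / t') ^ 4 := by
    simp only [Fin.prod_univ_three, Matrix.cons_val_zero, Matrix.cons_val_one, Matrix.cons_val]
    field_simp
  obtain ⟨b0, a3⟩ := a1 _ _ _ _ _ (msc3 d0 (by linarith) (Λ1.trans r5) r5 d1 ht.1 ht.2 hξ hζ)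
    (fun i => by
      have n1 : ∀ (c : ℝ) (y : R4), 0 < c → ‖y‖ ≤ Λ → ‖c • y‖ ≤ c * Λ := fun c y c0 h => by
        rw [norm_smul, Real.norm_of_nonneg c0.le]
        exact mul_le_mul_of_nonneg_left h c0.le
      have n2 := fun i => n1 _ _ (mul_pos q0 t0) (hζ.1 i)
      have n3 := fun i => (norm_add_le _ _).trans (add_le_add (n2 0) (n1 _ _ t0 (hξ.1 i)))
      have n4 : t * Λ ≤ q * t * Λ := by nlinarith [mul_pos t0 (one_pos.trans_le Λ1)]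
      have n5 : ‖![(q * t) • ζ 0 + t • ξ 0, (q * t) • ζ 0 + t • ξ 1, (q * t) • ζ 1] i‖ ≤
          2 * (q * t * Λ) := by
        fin_cases i
        exacts [(n3 0).trans (by linarith), (n3 1).trans (by linarith),
          (n2 1).trans (by nlinarith [mul_pos t0 (one_pos.trans_le Λ1)])]
      have n6 : ![d, d, t'] i / d ≤ q * t / d := le_trans (div_le_div_of_nonneg_right (by
        fin_cases i
        exacts [d2, d2, ht.2]) d0.le) x2
      rw [norm_smul, norm_inv, Real.norm_of_nonneg d0.le]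
      have n7 := mul_le_mul_of_nonneg_left n5 (inv_pos.2 d0).le
      rw [show d⁻¹ * (2 * (q * t * Λ)) = 2 * (q * t / d * Λ) by ring] at n7
      nlinarith)
    (by
      have : t / t' ≤ 2 := (div_le_iff₀ t2).2 (by linarith [ht.1])
      have x3 : 4 ≤ q * t / d := by linarith
      rw [e0]
      refine le_trans ?_ (pow_le_pow_left₀ (by positivity) h3 9)
      calc _ ≤ (q * t / d) ^ 8 * (q * t / d) ^ 8 * 2 ^ 4 := by gcongr; linarith
        _ ≤ (q * t / d) ^ 8 * (q * t / d) ^ 8 * (q * t / d) ^ 2 := by gcongr; nlinarith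
        _ = _ := by ring)
    (fun p => u p.1 p.2)
    ⟨by linarith, fun p => ((hu p.1).1.1 p.2).2, fun p y => ((tf p.1).bd p.2 y).trans (by linarith),
      fun p y z => ((tf p.1).lip p.2 y z).trans (mul_le_mul_of_nonneg_right (by linarith)
        dist_nonneg), fun p y hy => CmS.nrm (tf p.1) hy, by
        rintro ⟨s, i⟩ ⟨s', j⟩ e (rfl : s = s') y z hy hz
        exact CmS.far (tf s) (fun a : j = i => e (congrArg _ a.symm)) hz hy⟩
  have e1 := (Lq_eq hu (GD.d / 2) ![![0, ξ 1 - ξ 0, ζ 1 - ζ 0], ![ξ 0 - ξ 1, 0, ζ 1 - ζ 0],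
    ![ζ 0 - ζ 1, ζ 0 - ζ 1, 0]]).trans (Eq.trans (congrArg _ (funext₂ fun i j => congrArg (· * _) (by
      fin_cases i <;> fin_cases j <;> first | exact Lb.pr_zero | rfl | exact Lb.pr_sub _ _)))
    (lq_BL _ (fun s => Bu (GD.d / 2) (u s)) (ξ 1 - ξ 0) ζ))
  have e2 : ∀ (P : Fin 3 → R4) s, ∏ x, MvPolynomial.X (fun y => Ope.um (fun s => ![d, d, t'] s / d)
      (fun s => d⁻¹ • P s) (fun p : Σ s, Fin (m s) => u p.1 p.2) ⟨s, x⟩ (d⁻¹ • y)) =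
      sh (![d, d, t'] s) (P s) (mon (u s)) := fun P s => by
    rw [mon, map_prod]
    refine Finset.prod_congr rfl fun x _ => ?_
    rw [sh, rename_X]
    refine congrArg _ (funext fun y => congrArg (u s x) ?_)
    rw [← smul_sub, smul_smul, inv_div, div_mul_eq_mul_div, mul_inv_cancel₀ d0.ne', one_div]
  have e3 : Fintype.card (Σ s, Fin (m s)) = N := by simp [hN]
  rw [e1] at b0
  rw [e1, e3, e0] at a3
  simp only [e2] at a3
  have l1 : (t / d) ^ 2 ≤ log d⁻¹ := (pow_le_pow_left₀ x0.le x2 2).trans (h3.trans a2)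
  have l0 : 0 < log d⁻¹ := (pow_pos x0 2).trans_le l1
  have l2 : log t⁻¹ = log d⁻¹ - log (t / d) := by
    rw [log_div t0.ne' d0.ne', log_inv, log_inv]
    ring
  have l3 : 0 ≤ log (t / d) := log_nonneg (by linarith)
  have l4 : log (t / d) * q ≤ log d⁻¹ :=
    (mul_le_mul (log_le_self x0.le) x1 q0.le x0.le).trans ((sq _).symm.trans_le l1)
  obtain ⟨τ, hτ⟩ : ∃ τ : ℝ, log (t / d) = (1 - τ) * log d⁻¹ :=
    ⟨1 - log (t / d) / log d⁻¹, by rw [sub_sub_cancel, div_mul_cancel₀ _ l0.ne']⟩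
  have τ1 : 0 ≤ 1 - τ := nonneg_of_mul_nonneg_left (hτ ▸ l3) l0
  have τ2 : (1 - τ) * q ≤ 1 := le_of_mul_le_mul_right (by rw [hτ] at l4; linarith) l0
  have τ0 : 0 ≤ τ := by nlinarith
  have a4 := CmS.near (M := Q) N τ0 (by linarith) a3 (by
    rw [Complex.norm_real, norm_mul, hQ]
    exact mul_le_mul_of_nonneg_left b0 (norm_nonneg _))
  rw [← mul_assoc, ← Complex.ofReal_mul, ← mul_assoc, ← mul_pow,
    show τ * log d⁻¹ = log t⁻¹ by rw [l2, hτ]; ring] at a4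
  rw [← hN]
  refine a4.trans ?_
  have a5 : 2 * (N * Q) ≤ q * η := (div_le_iff₀ η0).1 r7
  have a6 := mul_le_mul_of_nonneg_left a5 τ1
  have a7 := mul_le_mul_of_nonneg_right τ2 η0.le
  linarith

end Pool.Agent.Lib.MP_7f377f_mp.Cm
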