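import Pool.Agent.Lib.MP_7f377f_mp.G.TsN

/-! Centred clusters of free lattice fields at several scales. -/

noncomputable section

namespace Pool.Agent.Lib.MP_7f377f_mp.Ope

open MeasureTheory Filter Topology Set Real YM7 Weak Metric
open Lb (Lab Pl lq tm nc Gd ex)
open YM5 (pt)

set_option linter.unusedSectionVars false

section clusters

variable {S : Type} [Fintype S] [DecidableEq S] {κ : S → Type} [∀ s, Fintype (κ s)]
  [∀ s, DecidableEq (κ s)] {Λ δ w r : ℝ} {u : (Σ s, κ s) → R4 → ℝ} {c a : S → ℝ}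
  {m : S → S → ℝ} {ϖ : S → R4} {Δ : S → S → R4}

/-- normalised clusters -/
structure Cq (Λ δ : ℝ) (u : (Σ s, κ s) → R4 → ℝ) : Prop where
  one : 1 ≤ Λ
  reg : ∀ p, ContDiff ℝ 1 (u p)
  bd : ∀ p y, |u p y| ≤ Λ
  lip : ∀ p y z, |u p y - u p z| ≤ Λ * dist y z
  sup : ∀ p y, u p y ≠ 0 → ‖y‖ ≤ Λ
  sep : ∀ p q, p ≠ q → p.1 = q.1 → ∀ y z, u p y ≠ 0 → u q z ≠ 0 → δ ≤ ‖z - y‖

/-- clusters of sizes `c s` at the points `ϖ s` and at the distances `m s t` -/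
structure Msc (Λ δ r : ℝ) (c a : S → ℝ) (m : S → S → ℝ) (ϖ : S → R4) (Δ : S → S → R4) : Prop where
  one : ∀ s, 1 ≤ c s
  pos : ∀ s, 0 < a s
  le : ∀ s, a s ≤ r
  dia : ∀ s, m s s = c s
  zero : ∀ s, Δ s s = 0
  fac : ∀ s t, s ≠ t → c s * c t = a s * a t * m s t ^ 2
  far : ∀ s t, s ≠ t → c s ≤ r * m s t ∧ c t ≤ r * m s t
  near : ∀ s t, s ≠ t → ‖(m s t)⁻¹ • (ϖ t - ϖ s) - Δ s t‖ ≤ r
  sep : ∀ s t, s ≠ t → δ ≤ ‖Δ s t‖ ∧ ‖Δ s t‖ ≤ Λ

/-- the test functions -/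
def um (c : S → ℝ) (ϖ : S → R4) (u : (Σ s, κ s) → R4 → ℝ) (p : Σ s, κ s) (y : R4) : ℝ :=
  u p ((c p.1)⁻¹ • (y - ϖ p.1))

/-- the free limit -/
def Lq (w : ℝ) (Δ : S → S → R4) (u : (Σ s, κ s) → R4 → ℝ) : ℝ :=
  ∫ y : (Σ s, κ s) → R4, (∏ p, u p (y p)) *
    lq w fun s t => Lb.pr (Δ s t) * Lb.B w fun x => y ⟨t, x⟩

/-- weighted loop sums -/
def Ht (w : ℝ) (θ : Equiv.Perm (Σ s, κ s) → ℝ) (k : (Σ s, κ s) → (Σ s, κ s) → Pl → Pl → ℝ) : ℝ :=
  ∑ σ, θ σ * (w ^ nc σ * tm k σ)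

theorem Ht_cont : Continuous fun v : (Equiv.Perm (Σ s, κ s) → ℝ) ×
    ((Σ s, κ s) → (Σ s, κ s) → Pl → Pl → ℝ) => Ht w v.1 v.2 := by
  unfold Ht tm
  fun_prop

/-- the differences of the limit positions -/
def dm (Δ : S → S → R4) (y : (Σ s, κ s) → R4) (p q : Σ s, κ s) : R4 :=
  if p.1 = q.1 then y q - y p else Δ p.1 q.1

/-- the weight of the permutations with one exit from each cluster -/
def th0 (σ : Equiv.Perm (Σ s, κ s)) : ℝ := if Gd σ ∧ (ex σ).card = Fintype.card S then 1 else 0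

theorem lq_Ht (h : w ≠ 0) (h0 : ∀ s, Δ s s = 0) (y : (Σ s, κ s) → R4) :
    (lq w fun s t => Lb.pr (Δ s t) * Lb.B w fun x => y ⟨t, x⟩) =
      Ht w th0 fun p q => (2⁻¹ : ℝ) • Lb.pr (dm Δ y p q) := by
  have := Lb.one_exit (w := w) (k := fun p q => (2⁻¹ : ℝ) • Lb.pr (dm Δ y p q))
    (n := fun _ => (2⁻¹ : ℝ) • Lb.an) (g := fun s t => Lb.pr (Δ s t))
    (fun s => by simp [h0, Lb.pr_zero]) fun i j e => by simp [dm, e, Lb.pr_an]
  refine mul_left_cancel₀ (pow_ne_zero (Fintype.card S) h)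
    (.trans ?_ (this.trans (congrArg _ (Finset.sum_congr rfl fun σ _ => ?_))))
  · rw [← Finset.card_univ, ← Finset.prod_const, ← Lb.lq_smul]
    congr
    ext1 s
    ext1 t
    rw [← Matrix.mul_smul]
    congr
    ext α β
    simp [Lb.B, dm, mul_inv_cancel_left₀ h]
  · simp only [th0, ite_mul, one_mul, zero_mul]

theorem th_near (a0 : ∀ s, 0 < a s) (a1 : ∀ s, a s ≤ r) (r0 : 0 ≤ r) (r1 : r ≤ 1)
    (σ : Equiv.Perm (Σ s, κ s)) :
    |(if Gd σ then (∏ s, a s)⁻¹ * ∏ p ∈ ex σ, a p.1 else 0) - th0 σ| ≤ r := by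
  unfold th0
  by_cases h : Gd σ
  swap
  · simpa [h] using r0
  have h' := h
  choose x hx using h'
  have i : Function.Injective fun s => (⟨s, x s⟩ : Σ s, κ s) := fun _ _ e => congrArg Sigma.fst e
  have s1 : Finset.univ.image (fun s => (⟨s, x s⟩ : Σ s, κ s)) ⊆ ex σ :=
    Finset.image_subset_iff.2 fun s _ => hx s
  have p0 : (∏ s, a s) ≠ 0 := (Finset.prod_pos fun s _ => a0 s).ne'
  rw [if_pos h, ← Finset.prod_sdiff s1, Finset.prod_image i.injOn, mul_comm, mul_inv_cancel_right₀ p0]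
  have c1 := Finset.card_sdiff_add_card_eq_card s1
  rw [Finset.card_image_of_injective _ i, Finset.card_univ] at c1
  generalize ex σ \ _ = E at c1
  rcases E.eq_empty_or_nonempty with rfl | ⟨p, hp⟩
  · rw [if_pos ⟨h, by simpa using c1.symm⟩]
    simpa using r0
  · have := Finset.card_pos.2 ⟨p, hp⟩
    rw [if_neg fun e => by omega, sub_zero, abs_of_pos (Finset.prod_pos fun p _ => a0 _),
      ← Finset.mul_prod_erase _ _ hp]
    exact (mul_le_of_le_one_right (a0 _).le (Finset.prod_le_one (fun p _ => (a0 _).le)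
      fun p _ => (a1 _).trans r1)).trans (a1 _)

theorem Msc.m1 (H : Msc Λ δ r c a m ϖ Δ) (r0 : 0 < r) (r1 : r ≤ 1) (s t : S) : 1 ≤ m s t := by
  rcases eq_or_ne s t with rfl | e
  · exact H.dia s ▸ H.one s
  · have := (H.one s).trans (H.far s t e).1
    nlinarith [(mul_pos_iff_of_pos_left r0).1 (one_pos.trans_le this)]

theorem Msc.prod (H : Msc Λ δ r c a m ϖ Δ) (r0 : 0 < r) (r1 : r ≤ 1) (s : ℝ)
    (σ : Equiv.Perm (Σ s, κ s)) : ∏ p, (s / m p.1 (σ p).1) ^ 4 =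
      (∏ p : Σ s, κ s, (s / c p.1) ^ 4) * ∏ p ∈ ex σ, a p.1 ^ 4 := by
  have c0 := fun s => (one_pos.trans_le (H.one s)).ne'
  have a0 := fun s => (H.pos s).ne'
  have e := σ.prod_comp Finset.univ (fun p => (c p.1 / a p.1) ^ 2) (by simp)
  refine mul_right_cancel₀ (b := ∏ p, (c (σ p).1 / a (σ p).1) ^ 2) (Finset.prod_ne_zero_iff.2
    fun p _ => pow_ne_zero _ (div_ne_zero (c0 _) (a0 _))) ?_
  conv_rhs => rw [e]
  rw [← Fintype.prod_ite_mem (ex σ), ← Finset.prod_mul_distrib, ← Finset.prod_mul_distrib,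
    ← Finset.prod_mul_distrib]
  refine Finset.prod_congr rfl fun p _ => ?_
  by_cases h : (σ p).1 = p.1
  · rw [if_neg (by simp [Lb.ex, h]), h, H.dia, mul_one]
  · have h1 := H.fac _ _ (Ne.symm h)
    have h2 := (one_pos.trans_le (H.m1 r0 r1 p.1 (σ p).1)).ne'
    have := c0 p.1
    have := a0 p.1
    have := a0 (σ p).1
    rw [if_pos (by simp [Lb.ex, h]), show c (σ p).1 = a p.1 * a (σ p).1 * m p.1 (σ p).1 ^ 2 / c p.1 by
      rw [← h1]; field_simp]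
    field_simp

theorem Cq.um_sup (H : Cq Λ δ u) (c1 : ∀ s, 1 ≤ c s) {p : Σ s, κ s} {y : R4}
    (h : um c ϖ u p y ≠ 0) : ‖y - ϖ p.1‖ ≤ c p.1 * Λ := by
  have c0 := one_pos.trans_le (c1 p.1)
  have := H.sup _ _ h
  rwa [norm_smul, norm_inv, Real.norm_of_nonneg c0.le, inv_mul_le_iff₀ c0] at this

end clusters

variable [GD] {κ₀ : Fin 4 → Fin 4 → (Fin 4 → ℤ) → ℝ} {S : Type} [Fintype S] [DecidableEq S]
  {κ : S → Type} [∀ s, Fintype (κ s)] [∀ s, DecidableEq (κ s)]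

theorem gaussM (hκ : YM5.Green κ₀) (Λ : ℝ) {δ η : ℝ} (δ0 : 0 < δ) (η0 : 0 < η) :
    ∃ B, ∀ᶠ r in 𝓝[>] (0 : ℝ), ∀ s : ℝ, 0 < s → s ≤ r → ∀ c a m ϖ Δ, Msc Λ δ r c a m ϖ Δ →
    ∀ u : (Σ s, κ s) → R4 → ℝ, Cq Λ δ u → |Lq (GD.d / 2) Δ u| ≤ B ∧ |(∏ i, a i ^ 4)⁻¹ *
      ∑ T : Finset S, (∏ i ∈ Tᶜ, -LS κ₀ s fun x => um c ϖ u ⟨i, x⟩) *
        (LS κ₀ s fun q : Σ i : T, κ i => um c ϖ u ⟨q.1, q.2⟩) - Lq (GD.d / 2) Δ u| ≤ η := by
  have w0 : (GD.d / 2 : ℝ) ≠ 0 := by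
    have : (3 : ℝ) ≤ GD.d := by exact_mod_cast GD.d3
    linarith
  obtain ⟨n, hn⟩ : ∃ n, n = Fintype.card (Σ s, κ s) := ⟨_, rfl⟩
  obtain ⟨M, M0, hM⟩ := pr_bd (2 * (Λ + 1)) (half_pos δ0)
  have hK := isCompact_closedBall (0 : (Equiv.Perm (Σ s, κ s) → ℝ) ×
    ((Σ s, κ s) → (Σ s, κ s) → Pl → Pl → ℝ)) (M + 2)
  obtain ⟨N, hN⟩ := hK.exists_bound_of_continuousOn (Ht_cont (w := GD.d / 2)).continuousOn
  have N0 := (norm_nonneg _).trans (hN 0 (mem_closedBall_self (by linarith)))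
  have hV := (isCompact_closedBall (0 : (Σ s, κ s) → R4) (Λ + 1))
  obtain ⟨V, hV'⟩ : ∃ V, V = volume.real (closedBall (0 : (Σ s, κ s) → R4) (Λ + 1)) := ⟨_, rfl⟩
  have V0 : 0 ≤ V := hV' ▸ measureReal_nonneg
  obtain ⟨θ, θ0, hθ⟩ : ∃ θ > 0, V * ((n * |Λ| ^ n * (|Λ| * 2) * N + |Λ| ^ n) * θ) ≤ η := by
    generalize hc : V * (n * |Λ| ^ n * (|Λ| * 2) * N + |Λ| ^ n) = c
    have : 0 ≤ c := by rw [← hc]; positivity
    refine ⟨η / (c + 1), by positivity, ?_⟩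
    rw [← mul_assoc, hc, ← mul_div_assoc, div_le_iff₀ (by positivity)]
    nlinarith
  obtain ⟨ρ, ρ0, hρ⟩ := Metric.uniformContinuousOn_iff.1
    (hK.uniformContinuousOn_of_continuous (Ht_cont (w := GD.d / 2)).continuousOn) θ θ0
  obtain ⟨r₁, h1, r0 : 0 < r₁⟩ := ((kL_near hκ (2 * (Λ + 1)) (half_pos δ0)
    (lt_min (half_pos ρ0) one_pos)).and self_mem_nhdsWithin).exists
  have ev : ∀ c > 0, ∀ᶠ r in 𝓝[>] (0 : ℝ), r ≤ c := fun c c0 =>
    mem_of_superset (Ioc_mem_nhdsGT c0) fun _ e => e.2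
  refine ⟨V * (Λ ^ n * N), ?_⟩
  filter_upwards [self_mem_nhdsWithin, ev _ (show 0 < r₁ / (2 * |Λ| + 8) by positivity), ev _ θ0,
    ev _ (half_pos ρ0), ev 2⁻¹ (by norm_num), ev (δ / 8) (by positivity)]
    with r (r0' : 0 < r) a1 a2 a3 a4 a5 s s0 s1 c a m ϖ Δ G u H
  have Λ1 := H.one
  have Λ0 : 0 < Λ := by linarith
  rw [abs_of_pos Λ0] at hθ a1
  rw [le_div_iff₀ (by positivity)] at a1
  have r1 : r ≤ 1 := by linarith
  have c0 := fun i => one_pos.trans_le (G.one i)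
  have m1 := fun i j => one_pos.trans_le (G.m1 r0' r1 i j)
  let ε : (Σ s, κ s) → ℝ := fun p => s / c p.1
  let o : (Σ s, κ s) → R4 := fun p => (c p.1)⁻¹ • ϖ p.1
  have ε0 : ∀ p, 0 < ε p ∧ ε p ≤ s := fun p => ⟨div_pos s0 (c0 _), div_le_self s0.le (G.one _)⟩
  have m0 : ∀ i j, 0 < s / m i j ∧ s / m i j ≤ s := fun i j =>
    ⟨div_pos s0 (m1 _ _), div_le_self s0.le (G.m1 r0' r1 _ _)⟩
  have e0 : ∀ t z, pt (s / t) z = t⁻¹ • pt s z := fun t z => by
    ext l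
    simp [pt, div_eq_inv_mul, mul_assoc]
  have e1 : ∀ p z, um c ϖ u p (pt s z) = u p (pt (ε p) z - o p) := fun p z => by
    simp only [um, ε, o, e0, smul_sub]
  let k : ((Σ s, κ s) → Fin 4 → ℤ) → (Σ s, κ s) → (Σ s, κ s) → Pl → Pl → ℝ := fun z p q =>
    ((s / m p.1 q.1) ^ 4)⁻¹ • kL κ₀ (z q - z p)
  obtain ⟨τ, hτ⟩ : ∃ τ : Equiv.Perm (Σ s, κ s) → ℝ, τ = fun σ =>
    if Gd σ then (∏ i, a i ^ 4)⁻¹ * ∏ p ∈ ex σ, a p.1 ^ 4 else 0 := ⟨_, rfl⟩
  have τ1 : ∀ σ, |τ σ - th0 σ| ≤ r := fun σ => hτ ▸ th_near (fun i => pow_pos (G.pos i) 4)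
    (fun i => (pow_le_of_le_one (G.pos i).le ((G.le i).trans r1) four_ne_zero).trans (G.le i))
    r0'.le r1 σ
  have τ0 : ∀ σ : Equiv.Perm (Σ s, κ s), |th0 σ| ≤ 1 := fun σ => by
    unfold th0
    split_ifs <;> simp
  have e2 : ∀ z, (∏ i, a i ^ 4)⁻¹ * Hk (GD.d / 2) 1 (fun p q => kL κ₀ (z q - z p)) =
      (∏ p, ε p ^ 4) * Ht (GD.d / 2) τ (k z) := fun z => by
    simp only [Hk, Ht, Finset.mul_sum, hτ]
    refine Finset.sum_congr rfl fun σ _ => ?_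
    split_ifs with hσ
    · have b2 : tm (fun p q => kL κ₀ (z q - z p)) σ =
          (∏ p, (s / m p.1 (σ p).1) ^ 4) * tm (k z) σ := by
        rw [← Lb.tm_smul fun p q : Σ s, κ s => (s / m p.1 q.1) ^ 4]
        exact Lb.tm_congr fun p => (smul_inv_smul₀ (pow_pos (m0 _ _).1 4).ne' _).symm
      rw [b2, G.prod r0' r1]
      ring
    · simp
  let g : ((Σ s, κ s) → Fin 4 → ℤ) → ℝ := fun z =>
    (∏ p, u p (pt (ε p) (z p) - o p)) * Ht (GD.d / 2) τ (k z)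
  let Φ : ((Σ s, κ s) → R4) → ℝ := fun y =>
    (∏ p, u p (y p)) * Ht (GD.d / 2) th0 fun p q => (2⁻¹ : ℝ) • Lb.pr (dm Δ y p q)
  have key : ∀ y, ‖g (fm ε o y) - Φ y‖ ≤ (closedBall 0 (Λ + 1)).indicator
      (fun _ => (n * Λ ^ n * (Λ * 2) * N + Λ ^ n) * θ) y ∧
      ‖Φ y‖ ≤ (closedBall 0 (Λ + 1)).indicator (fun _ => Λ ^ n * N) y := fun y => by
    have n1 := fun p => (fm_near (o := o) (fun p => (ε0 p).1) y p).trans
      (mul_le_mul_of_nonneg_left (ε0 p).2 two_pos.le)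
    simp only [g, Φ]
    generalize fm ε o y = z at n1
    obtain ⟨x, hx⟩ : ∃ x : (Σ s, κ s) → R4, x = fun p => pt (ε p) (z p) - o p := ⟨_, rfl⟩
    simp only [← congrFun hx] at n1 ⊢
    by_cases hc : ∃ v : (Σ s, κ s) → R4, (∀ p, u p (v p) ≠ 0) ∧ (v = x ∨ v = y)
    swap
    · have z0 : ∀ v : (Σ s, κ s) → R4, v = x ∨ v = y → ∏ p, u p (v p) = 0 := fun v e =>
        not_not.1 fun e' => hc ⟨v, fun p => Finset.prod_ne_zero_iff.1 e' p (Finset.mem_univ p), e⟩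
      simp only [z0 x (.inl rfl), z0 y (.inr rfl), zero_mul, sub_zero, norm_zero]
      exact ⟨indicator_nonneg (fun _ _ => by positivity) _,
        indicator_nonneg (fun _ _ => by positivity) _⟩
    obtain ⟨v, v1, v2⟩ := hc
    have v3 : ∀ p, ‖v p - y p‖ ≤ 2 * s := fun p => by
      obtain rfl | rfl := v2
      exacts [n1 p, by rw [sub_self, norm_zero]; positivity]
    have y1 : ∀ p, ‖y p‖ ≤ Λ + 1 := fun p => by
      linarith [H.sup p _ (v1 p), v3 p, norm_sub_norm_le (y p) (v p), norm_sub_rev (y p) (v p)]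
    have y2 : ∀ p q, ‖dm Δ y p q‖ ≤ 2 * (Λ + 1) := fun p q => by
      unfold dm
      split_ifs with e
      · linarith [norm_sub_le (y q) (y p), y1 p, y1 q]
      · linarith [(G.sep _ _ e).2]
    have y0 : ∀ (v : (Σ s, κ s) → R4) p q, (∀ p, ‖v p - y p‖ ≤ 2 * s) →
        ‖v q - v p - (y q - y p)‖ ≤ 4 * s := fun v p q e => by
      rw [sub_sub_sub_comm]
      linarith [norm_sub_le (v q - y q) (v p - y p), e p, e q]
    have y3 : ∀ p q, p ≠ q → δ / 2 ≤ ‖dm Δ y p q‖ := fun p q e => by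
      unfold dm
      split_ifs with e'
      · linarith [y0 v p q v3, norm_sub_norm_le (v q - v p) (y q - y p),
          H.sep p q e e' _ _ (v1 p) (v1 q)]
      · linarith [(G.sep _ _ e').1]
    have y4 : ∀ p q, ‖pt (s / m p.1 q.1) (z q - z p) - dm Δ y p q‖ ≤ r₁ := fun p q => by
      have x0 : ∀ p, pt s (z p) = c p.1 • x p + ϖ p.1 := fun p => by
        simp only [hx, ε, o, e0, ← smul_sub, smul_inv_smul₀ (c0 _).ne', sub_add_cancel]
      rw [e0, show pt s (z q - z p) = pt s (z q) - pt s (z p) by ext l; simp [pt, mul_sub], x0, x0]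
      unfold dm
      split_ifs with h
      · rw [h, G.dia, add_sub_add_right_eq_sub, ← smul_sub, inv_smul_smul₀ (c0 _).ne']
        nlinarith [y0 x p q n1]
      · have x2 : ∀ p', c p'.1 ≤ r * m p.1 q.1 → ‖(m p.1 q.1)⁻¹ • c p'.1 • x p'‖ ≤ r * (Λ + 2) :=
          fun p' e => by
            rw [smul_smul, norm_smul, Real.norm_of_nonneg (by have := c0 p'.1; have := m1 p.1 q.1; positivity)]
            exact mul_le_mul ((inv_mul_le_iff₀' (m1 _ _)).2 e)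
              (by linarith [y1 p', n1 p', norm_sub_norm_le (x p') (y p')]) (norm_nonneg _) r0'.le
        rw [add_sub_add_comm, smul_add, add_sub_assoc, smul_sub]
        refine (norm_add_le _ _).trans ((add_le_add (norm_sub_le _ _) (G.near _ _ h)).trans ?_)
        linarith [x2 p (G.far _ _ h).1, x2 q (G.far _ _ h).2]
    have k1 : ∀ p q a b, |((2⁻¹ : ℝ) • Lb.pr (dm Δ y p q)) a b| ≤ M ∧
        |k z p q a b - ((2⁻¹ : ℝ) • Lb.pr (dm Δ y p q)) a b| ≤ min (ρ / 2) 1 := fun p q a b => by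
      rcases eq_or_ne p q with rfl | e
      · simp [k, kL, dm, Lb.pr_zero, M0, (half_pos ρ0).le]
      · exact ⟨hM _ (y3 p q e) (y2 p q) a b, h1 _ _ _ (m0 _ _).1 (by nlinarith [(m0 p.1 q.1).2])
          (y3 p q e) (y2 p q) (y4 p q) a b⟩
    have M1 : 0 ≤ M + 2 := by linarith
    have k2 : (τ, k z) ∈ closedBall 0 (M + 2) := mem_closedBall_zero_iff.2
      (norm_prod_le_iff.2 ⟨(pi_norm_le_iff_of_nonneg M1).2 fun σ => by
        linarith [τ1 σ, τ0 σ, abs_sub_abs_le_abs_sub (τ σ) (th0 σ), Real.norm_eq_abs (τ σ)],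
        nrm4 M1 fun p q a b => by
          linarith [(k1 p q a b).1, (k1 p q a b).2.trans (min_le_right _ _), abs_sub_abs_le_abs_sub
            (k z p q a b) (((2⁻¹ : ℝ) • Lb.pr (dm Δ y p q)) a b)]⟩)
    have k3 : ((th0 : Equiv.Perm (Σ s, κ s) → ℝ), fun p q a b => ((2⁻¹ : ℝ) • Lb.pr (dm Δ y p q)) a b) ∈
        closedBall 0 (M + 2) := mem_closedBall_zero_iff.2 (norm_prod_le_iff.2
      ⟨(pi_norm_le_iff_of_nonneg M1).2 fun σ => (τ0 σ).trans (by linarith),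
        nrm4 M1 fun p q a b => (k1 p q a b).1.trans (by linarith)⟩)
    have k4 := hρ _ k2 _ k3 (by
      rw [dist_eq_norm]
      exact (norm_prod_le_iff.2 ⟨(pi_norm_le_iff_of_nonneg (half_pos ρ0).le).2 fun σ =>
        (τ1 σ).trans a3, nrm4 (half_pos ρ0).le fun p q a b =>
          (k1 p q a b).2.trans (min_le_left _ _)⟩).trans_lt (half_lt_self ρ0))
    have p1 := norm_prod_sub Finset.univ (a := fun p => u p (x p)) (b := fun p => u p (y p)) Λ1
      (show 0 ≤ Λ * (2 * θ) by positivity) fun p _ => ⟨H.bd _ _, H.bd _ _, (H.lip _ _ _).trans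
        (mul_le_mul_of_nonneg_left ((dist_eq_norm _ _).trans_le ((n1 p).trans (by linarith)))
          (by linarith))⟩
    have p2 : ‖∏ p, u p (y p)‖ ≤ Λ ^ n := (Finset.norm_prod_le _ _).trans
      ((Finset.prod_le_prod (fun _ _ => norm_nonneg _) fun p _ => H.bd p _).trans_eq
        (hn ▸ Finset.prod_const Λ))
    rw [Finset.card_univ, ← hn] at p1
    have hy : y ∈ closedBall 0 (Λ + 1) :=
      mem_closedBall_zero_iff.2 ((pi_norm_le_iff_of_nonneg (by linarith)).2 y1)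
    rw [indicator_of_mem hy, indicator_of_mem hy, norm_mul]
    refine ⟨?_, mul_le_mul p2 (hN _ k3) (norm_nonneg _) (by positivity)⟩
    rw [← sub_add_sub_cancel _ ((∏ p, u p (y p)) * Ht (GD.d / 2) τ (k z)), ← sub_mul, ← mul_sub]
    refine (norm_add_le _ _).trans ?_
    rw [norm_mul, norm_mul]
    exact (add_le_add (mul_le_mul p1 (hN _ k2) (norm_nonneg _) (by positivity))
      (mul_le_mul p2 ((dist_eq_norm _ _).symm.trans_le k4.le) (norm_nonneg _)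
        (by positivity))).trans_eq (by ring)
  have hI : ∀ C : ℝ, Integrable ((closedBall (0 : (Σ s, κ s) → R4) (Λ + 1)).indicator fun _ => C) :=
    fun C => (integrable_indicator_iff hV.measurableSet).2 (integrableOn_const hV.measure_lt_top.ne)
  have mΦ : Measurable Φ := (Finset.measurable_prod _ fun p _ =>
    (H.reg p).continuous.measurable.comp (measurable_pi_apply p)).mul
    (Finset.measurable_sum _ fun σ _ => ((Finset.measurable_sum _ fun _ _ =>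
      Finset.measurable_prod _ fun _ _ => ((Lb.pr_meas _ _).comp
        (by unfold dm; split_ifs <;> fun_prop)).const_mul _).const_mul _).const_mul _)
  have i1 : Integrable Φ := (hI _).mono' mΦ.aestronglyMeasurable (ae_of_all _ fun y => (key y).2)
  have i2 : Integrable fun y => g (fm ε o y) := (((hI _).mono' (((Measurable.of_discrete
    (f := g)).comp meas_fm).sub mΦ).aestronglyMeasurable (ae_of_all _ fun y => (key y).1)).add
      i1).congr (ae_of_all _ fun y => sub_add_cancel _ _)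
  obtain ⟨R, hR⟩ := Finite.exists_le fun i => c i * Λ + ‖ϖ i‖
  rw [cen_sum (R := R) s0 fun p y e => by
    linarith [H.um_sup G.one e, hR p.1, norm_sub_norm_le y (ϖ p.1)], ← tsum_mul_left]
  simp only [mul_left_comm (_⁻¹), e2, e1, mul_left_comm _ (∏ p, ε p ^ 4), Lq, lq_Ht w0 G.zero]
  rw [tsum_mul_left, ← integral_fm (fun p => (ε0 p).1) g i2, ← integral_sub i2 i1]
  refine ⟨(norm_integral_le_of_norm_le (hI _) (ae_of_all _ fun y => (key y).2)).trans_eq ?_,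
    (norm_integral_le_of_norm_le (hI _) (ae_of_all _ fun y => (key y).1)).trans ?_⟩
  · rw [integral_indicator_const _ hV.measurableSet, smul_eq_mul, ← hV']
  · rwa [integral_indicator_const _ hV.measurableSet, smul_eq_mul, ← hV']

end Pool.Agent.Lib.MP_7f377f_mp.Ope
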