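import Pool.Agent.Lib.MP_7f377f_mp.G.OpD
import Pool.Agent.Lib.MP_7f377f_mp.G.OpW

/-! The smeared three scale law. -/

noncomputable section

namespace Pool.Agent.Lib.MP_7f377f_mp.Cm
variable [Pool.Agent.Lib.MP_7f377f_mp.GD]
set_option linter.unusedSectionVars false

open MeasureTheory Filter Topology Set Real YM7 Pur MvPolynomial
open Ope (gp sc ctr)
open Lb (Lab Cl pc sy frL frM)

theorem sy_add (a b : Lab ℝ) : sy (a + b) = sy a + sy b := Lb.syL.map_add a b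

theorem sy_smul (t : ℝ) (a : Lab ℝ) : sy (t • a) = t • sy a := Lb.syL.map_smul t a

/-- the two point function as a bilinear map -/
def F2 (ζ : Fin 2 → R4) : Lab ℝ →ₗ[ℝ] Lab ℝ →ₗ[ℝ] ℝ :=
  .mk₂ ℝ (fun a b => frL (GD.d / 2) ![a, b] ζ) (fun x y b => (frM _ ζ).cons_add ![b] x y)
    (fun t x b => (frM _ ζ).cons_smul ![b] t x)
    (fun a x y => ((frM _ ζ).curryLeft a).cons_add ![] x y)
    fun t a x => ((frM _ ζ).curryLeft a).cons_smul ![] t x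

/-- the leading term of the three scale law -/
def M3 (v : R4) (ζ : Fin 2 → R4) : MultilinearMap ℝ (fun _ : Fin 3 => Lab ℝ) ℝ :=
  .mk' (fun b => F2 ζ (BL (b 0) (b 1) v) (b 2))
    (fun c i x y => by fin_cases i <;> simp [BL, sy_add, add_mul, mul_add, add_add_add_comm])
    fun c i t x => by fin_cases i <;> simp [BL, sy_smul, mul_add]

theorem BB_lim {u : Fin 2 → R4 → ℝ} (hu : Adm u) {c : ℝ} (c0 : 0 < c)
    {s : ℕ → Fin 2 → Finset (Fin 4 → ℤ)} (hs : ∀ e i x, u i (c • gp e x) ≠ 0 → x ∈ s e i)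
    {a b : ℕ → Lab ℝ} {a' b' : Lab ℝ} (ha : Tendsto a atTop (𝓝 a')) (hb : Tendsto b atTop (𝓝 b')) :
    Tendsto (fun e => ∑ z ∈ Fintype.piFinset (s e),
      (∏ i, (c * (3 ^ e)⁻¹) ^ 4 * u i (c • gp e (z i))) •
        BL (a e) (b e) (c • gp e (z 1) - c • gp e (z 0))) atTop (𝓝 (BB a' b' u)) := by
  have R : ∀ F : R4 → Lab ℝ, (∀ v ≠ 0, ContinuousAt F v) → Tendsto
      (fun e => ∑ z ∈ Fintype.piFinset (s e), (∏ i, (c * (3 ^ e)⁻¹) ^ 4 * u i (c • gp e (z i))) •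
        F (c • gp e (z 1) - c • gp e (z 0))) atTop
      (𝓝 (Matrix.of fun α β => ∫ y : Fin 2 → R4, (∏ i, u i (y i)) * F (y 1 - y 0) α β)) :=
    fun F hF => tendsto_pi_nhds.2 fun α => tendsto_pi_nhds.2 fun β => by
      have W := (wt_f hu).mul (F := fun y => F (y 1 - y 0) α β) fun y hy =>
        (continuousAt_pi.1 (continuousAt_pi.1 (hF _ (sub_ne_zero.2 (hy.ne one_ne_zero))) α) β).comp
          (f := fun y : Fin 2 → R4 => y 1 - y 0) (by fun_prop)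
      refine (riem_fin W.cont W.cpt c0 fun e z hz => Fintype.mem_piFinset.2 fun i => hs e i _
        (Finset.prod_ne_zero_iff.1 (left_ne_zero_of_mul hz) i (Finset.mem_univ i))).congr fun e => ?_
      simp only [Matrix.sum_apply, Matrix.smul_apply, ep, smul_eq_mul, mul_assoc]
  have P := R _ fun v => Lb.pr_cont
  have cs : Continuous (sy : Lab ℝ → Lab ℝ) := by unfold sy; fun_prop
  have key := fun {a b : ℕ → Lab ℝ} {a' b' : Lab ℝ} (ha : Tendsto (fun e => sy (a e)) atTop (𝓝 a'))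
    (hb : Tendsto (fun e => sy (b e)) atTop (𝓝 b')) =>
      ((ha.mul P).mul hb).add ((hb.mul P).mul ha)
  simp only [Finset.mul_sum, Finset.sum_mul, Matrix.mul_smul, Matrix.smul_mul,
    ← Finset.sum_add_distrib, ← smul_add] at key
  rw [BB, tendsto_nhds_unique (R (BL a' b') fun v hv => ((continuousAt_const.mul
    (Lb.pr_cont hv)).mul continuousAt_const).add ((continuousAt_const.mul (Lb.pr_cont hv)).mul
      continuousAt_const)) (key tendsto_const_nhds tendsto_const_nhds)]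
  exact key ((cs.tendsto _).comp ha) ((cs.tendsto _).comp hb)

variable {S : Pol →ₗ[ℂ] ℂ} {ρ : ℝ → ℝ}

theorem ts3_wd (hS : net.St S) (T : Ts3 S ρ) (top : Tendsto ρ (𝓝[>] 0) atTop) {m : Fin 3 → ℕ}
    (hm : ∀ i, 1 ≤ m i) (Λ δ C : ℝ) {u f : Fin 2 → R4 → ℝ} (hu : Adm u) (hf : Adm f) {η : ℝ}
    (η0 : 0 < η) : ∀ᶠ t in 𝓝[>] (0 : ℝ), ∀ d ∈ Icc (t / (4 * ρ t)) (t / ρ t), ∀ t' ∈ Icc (t / 2) t,
      ∀ (A : ℕ → Fin 3 → Pol) (b : ℕ → Fin 3 → Lab ℝ) (a : Fin 3 → Lab ℝ),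
        (∀ᶠ e in atTop, ∀ i, Wn (m i) Λ δ C (A e i) (b e i)) →
        (∀ i, Tendsto (b · i) atTop (𝓝 (a i))) → ∀ᶠ e in atTop,
          ‖((log t⁻¹ ^ (∑ i, m i) / t ^ 4 : ℝ) : ℂ) * S (Yl (ctr S (Yl (A e 0) d e (sc t (u 0))) *
            ctr S (Yl (A e 1) d e (sc t (u 1)))) 1 e (sc (ρ t * t) (f 0)) *
              ctr S (Yl (A e 2) t' e (sc (ρ t * t) (f 1)))) - ((gm ^ ∑ i, m i : ℝ) : ℂ) *
                frI (fun i => cx (![BB (a 0) (a 1) u, a 2] i)) f‖ ≤ η := by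
  obtain ⟨Λf, δf, tf⟩ := hf.tf
  obtain ⟨Λu, δu, tu⟩ := hu.tf
  have C1p : 0 < |C| ^ 3 + 1 := by positivity
  have ce : ∀ {a b a' b' : ℂ} {x : ℝ}, ‖a - b‖ ≤ x → a' = a → b' = b → ‖a' - b'‖ ≤ x :=
    fun h e e' => e ▸ e' ▸ h
  have cp : ∀ f : Fin 2 → R4 → ℝ, ∃ C > 0, ∫ y : Fin 2 → R4, |∏ i, f i (y i)| < C := fun f =>
    ⟨_, add_pos_of_nonneg_of_pos (integral_nonneg fun _ => abs_nonneg _) one_pos, lt_add_one _⟩
  obtain ⟨C₂, C2p, e2⟩ := cp f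
  obtain ⟨C₃, C3p, e3⟩ := cp u
  have η1 : 0 < η / 2 / C₂ := by positivity
  have η2 : 0 < η / 2 / C₂ / C₃ := by positivity
  filter_upwards [T m (max Λ (max (2 * Λu) (2 * Λf))) (min δ (min δu δf)) hm _ (div_pos η2 C1p),
    top.eventually_gt_atTop 0, self_mem_nhdsWithin] with t hT r0 (t0 : 0 < t) d hd t' ht' A b a hA hb
  have D0 : 0 < ρ t * t := mul_pos r0 t0
  have d0 : 0 < d := lt_of_lt_of_le (by positivity) hd.1
  have t1 : 0 < t' := (half_pos t0).trans_le ht'.1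
  have sp : ∀ {f : Fin 2 → R4 → ℝ} {D : ℝ}, Adm f → 0 < D → ∃ s : ℕ → Fin 2 → Finset (Fin 4 → ℤ),
      ∀ e i x, f i (D⁻¹ • gp e x) ≠ 0 → x ∈ s e i := fun hf D0 =>
    ⟨fun e i => (fin_gp ((hf.smul (inv_ne_zero D0.ne')).1 i).1 e).toFinset,
      fun e i x hx => by simpa using hx⟩
  obtain ⟨sx, hsx⟩ := sp hf D0
  obtain ⟨sy, hsy⟩ := sp hu t0
  filter_upwards [hA, (f_lim hf (inv_pos.2 D0) hsx).eventually_le_const e2,
    (f_lim hu (inv_pos.2 t0) hsy).eventually_le_const e3, Metric.tendsto_nhds.1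
      (fr_lim (w := GD.d / 2) hf (inv_pos.2 D0) hsx (A := fun e => ![_, b e 2])
        (a := ![BB (a 0) (a 1) u, a 2]) (Fin.forall_fin_two.2 ⟨fun α => tendsto_pi_nhds.1
          (tendsto_pi_nhds.1 (BB_lim hu (inv_pos.2 t0) hsy (hb 0) (hb 1)) α), fun α =>
            tendsto_pi_nhds.1 (tendsto_pi_nhds.1 (hb 2) α)⟩) (gm ^ ∑ i, m i)) _ (half_pos η0)]
    with e c1 c2 c3 c4
  have p1 : ∀ ξ ζ : Fin 2 → R4, ∏ i, u i (ξ i) ≠ 0 → ∏ i, f i (ζ i) ≠ 0 →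
      ‖((log t⁻¹ ^ (∑ i, m i) * ρ t ^ 4 : ℝ) : ℂ) * S (∏ i, ![
        (net.τ ((ρ t * t) • ζ 0)).toLinearMap ∘ₗ Lt S t d (ξ 0),
        (net.τ ((ρ t * t) • ζ 0)).toLinearMap ∘ₗ Lt S t d (ξ 1), Lt S (ρ t * t) t' (ζ 1)] i (A e i)) -
        (gm ^ (∑ i, m i) * M3 (ξ 1 - ξ 0) ζ (b e) : ℝ)‖ ≤ η / 2 / C₂ / C₃ := fun ξ ζ h1 h2 => by
    refine (st_wd c1 _ (div_pos η2 C1p).le fun v hv => ?_).trans (div_mul_cancel₀ _ C1p.ne').le
    refine ce (hT d hd t' ht' ξ ζ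
      ⟨fun i => ((sep_of tu h1).1 i).trans (le_max_of_le_right (le_max_left _ _)), fun i j e =>
        (min_le_of_right_le (min_le_left _ _)).trans ((sep_of tu h1).2 i j e)⟩
      ⟨fun i => ((sep_of tf h2).1 i).trans (le_max_of_le_right (le_max_right _ _)), fun i j e =>
        (min_le_of_right_le (min_le_right _ _)).trans ((sep_of tf h2).2 i j e)⟩ v
      fun s => (hv s).wk (le_max_left _ _) (min_le_left _ _)
        (lt_min (hv s).2.1.pos (lt_min tu.pos tf.pos))) ?_ rfl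
    simp only [Fin.prod_univ_three, Matrix.cons_val, Lt, LinearMap.smul_apply, LinearMap.comp_apply,
      AlgHom.toLinearMap_apply, ctl_apply, map_smul, smul_mul_assoc, mul_smul_comm, smul_eq_mul,
      fun i z => ctr_τ hS (sh_mem (hv i).mem d0 (z := z) (U := univ) fun _ _ => trivial), τ_sh,
      ← mul_assoc, ← Complex.ofReal_mul, add_comm (t • _)]
    congr 2
    ring
  have s2 := sum_est (S := S) (sx e)
    (fun i x => ((ρ t * t)⁻¹ * (3 ^ e)⁻¹) ^ 4 * f i ((ρ t * t)⁻¹ • gp e x))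
    (fun i x => ![net.τ (gp e x) (ctr S (Yl (A e 0) d e (sc t (u 0))) *
      ctr S (Yl (A e 1) d e (sc t (u 1)))), Lt S (ρ t * t) t' ((ρ t * t)⁻¹ • gp e x) (A e 2)] i)
    ((log t⁻¹ ^ (∑ i, m i) * ρ t ^ 4 : ℝ) : ℂ) (fun z => gm ^ (∑ i, m i) * frL (GD.d / 2)
      ![∑ y ∈ Fintype.piFinset (sy e), (∏ i, (t⁻¹ * (3 ^ e)⁻¹) ^ 4 * u i (t⁻¹ • gp e (y i))) •
        BL (b e 0) (b e 1) (t⁻¹ • gp e (y 1) - t⁻¹ • gp e (y 0)), b e 2]
          fun i => (ρ t * t)⁻¹ • gp e (z i)) (η := η / 2 / C₂) fun z hz => by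
      refine (ce (sum_est (S := S ∘ₗ LinearMap.mulRight ℂ
        (Lt S (ρ t * t) t' ((ρ t * t)⁻¹ • gp e (z 1)) (A e 2))) (sy e)
        (fun i y => (t⁻¹ * (3 ^ e)⁻¹) ^ 4 * u i (t⁻¹ • gp e y))
        (fun i y => net.τ (gp e (z 0)) (Lt S t d (t⁻¹ • gp e y) (A e i.castSucc)))
        ((log t⁻¹ ^ (∑ i, m i) * ρ t ^ 4 : ℝ) : ℂ) _ fun y hy => ce (p1 (fun i => t⁻¹ • gp e (y i))
          (fun i => (ρ t * t)⁻¹ • gp e (z i))
          (Finset.prod_ne_zero_iff.2 fun i _ => right_ne_zero_of_mul (hy i))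
          (Finset.prod_ne_zero_iff.2 fun i _ => right_ne_zero_of_mul (hz i))) ?_ rfl) ?_ ?_).trans
        ((mul_le_mul_of_nonneg_left c3 η2.le).trans (div_mul_cancel₀ _ C3p.ne').le)
      · rw [Fin.prod_univ_three, Fin.prod_univ_two, smul_inv_smul₀ D0.ne']
        rfl
      · simp only [Fin.prod_univ_two, Matrix.cons_val, map_mul, ctr_Yl t0.ne' d0.ne' (hsy e _),
          map_sum, map_smul]
        rfl
      · refine congrArg _ ((congrArg _ (LinearMap.congr_fun (map_sum (F2 _) _ _) (b e 2))).trans ?_)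
        simp only [LinearMap.sum_apply, map_smul, LinearMap.smul_apply, smul_eq_mul, Finset.mul_sum,
          mul_left_comm (gm ^ _)]
        rfl
  have s3 := (s2.trans (mul_le_mul_of_nonneg_left c2 η1.le)).trans (div_mul_cancel₀ _ C2p.ne').le
  rw [frI_cx, ← Complex.ofReal_mul (gm ^ _)]
  refine (norm_sub_le_norm_sub_add_norm_sub _ _ _).trans ((add_le_add (ce s3 ?_ rfl) ?_).trans
    (add_halves η).le)
  · have e1 : ∀ B, Yl B 1 e (sc (ρ t * t) (f 0)) = (((ρ t * t) ^ 4 : ℝ) : ℂ) • ∑ x ∈ sx e 0,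
        ((((ρ t * t)⁻¹ * (3 ^ e)⁻¹) ^ 4 * f 0 ((ρ t * t)⁻¹ • gp e x) : ℝ) : ℂ) •
          net.τ (gp e x) B := fun B => by
      rw [Yl_eq (f := sc _ (f 0)) (hsx e 0), Finset.smul_sum]
      refine Finset.sum_congr rfl fun x _ => ?_
      rw [smul_smul, ← Complex.ofReal_mul, sc]
      congr 2
      · field_simp
      · simp [sh, net]
    rw [ctr_Yl D0.ne' t1.ne' (hsx e 1), e1, Fin.prod_univ_two, smul_mul_assoc, map_smul, smul_eq_mul,
      ← mul_assoc, ← Complex.ofReal_mul]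
    congr 2
    field_simp
  · rw [← Complex.ofReal_sub, Complex.norm_real]
    exact c4.le

theorem ts3_sm {S : Pol →ₗ[ℂ] ℂ} {Λ δ : ℝ} {h : R4 → ℝ} {ω : ∀ l : Cl, (Fin l.m → R4) → Lab ℝ}
    {ρ d : ℝ → ℝ} (hS : net.St S) (H : Dat (GD.d / 2) h ω Λ δ) (top : Tendsto ρ (𝓝[>] 0) atTop)
    (lg : Tendsto (fun t => log t⁻¹ / log (ρ t * t)⁻¹) (𝓝[>] 0) (𝓝 1)) (T : Ts3 S ρ)
    (hd : ∀ᶠ t in 𝓝[>] (0 : ℝ), d t ∈ Icc (t / (4 * ρ t)) (t / ρ t)) (l l' : Cl) (c c' : Lab ℝ)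
    {u : Fin 2 → R4 → ℝ} (hu : Adm u) :
    Law h ω S ρ ((𝓝[>] (0 : ℝ)).curry UU) (fun p => (p.1, d p.1, p.2))
      (fun p => ((log p.1⁻¹ ^ (l.m + l'.m) / p.1 ^ 4 : ℝ) : ℂ) •
        (Yc h ω S l (d p.1) p.2 (cx c) (sc p.1 (u 0)) * Yc h ω S l' (d p.1) p.2 (cx c') (sc p.1 (u 1))))
      (gm ^ (l.m + l'.m) • BB (pc l c) (pc l' c') u) := by
  intro l₂ x f hf
  obtain ⟨M, hM⟩ := frI_ml hf
  choose C b hA hb using fun i : Fin 3 => Zc_wn H (![l, l', l₂] i) (![c, c', x] i)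
  have e0 : ∀ (g : ℝ) (y : Lab ℝ), frI ![cx (g • y), cx (pc l₂ x)] f =
      g * frI (fun i => cx (![y, pc l₂ x] i)) f := fun g y => by
    rw [cx_smul, ← hM, ← hM]
    refine (M.cons_smul (M := fun _ : Fin 2 => Lab ℂ) _ _ _).trans (congrArg _ (congrArg _ ?_))
    ext1 i
    fin_cases i <;> rfl
  have p1 : Tendsto Prod.fst ((𝓝[>] (0 : ℝ)).curry UU) (𝓝[>] 0) :=
    tendsto_fst.mono_left curry_le_prod
  have hG : Tendsto (fun p : ℝ × ℕ => ((log p.1⁻¹ ^ (l.m + l'.m + l₂.m) / p.1 ^ 4 : ℝ) : ℂ) *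
      S (Yl (Yc h ω S l (d p.1) p.2 (cx c) (sc p.1 (u 0)) * Yc h ω S l' (d p.1) p.2 (cx c')
        (sc p.1 (u 1))) 1 p.2 (sc (ρ p.1 * p.1) (f 0)) * Yc h ω S l₂ (dn (nn p.1)) p.2 (cx x)
          (sc (ρ p.1 * p.1) (f 1)))) ((𝓝[>] (0 : ℝ)).curry UU)
      (𝓝 (((gm ^ (l.m + l'.m + l₂.m) : ℝ) : ℂ) *
        frI (fun i => cx (![BB (pc l c) (pc l' c') u, pc l₂ x] i)) f)) := by
    refine Metric.tendsto_nhds.2 fun η η0 => eventually_curry_iff.2 ?_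
    filter_upwards [ts3_wd hS T top (fun i => Cl_m (![l, l', l₂] i)) Λ δ (∑ i, |C i|) hu hf
      (half_pos η0), hd, Ioc_mem_nhdsGT one_pos] with t a1 a2 ht
    filter_upwards [UU_le (a1 _ a2 _ (dn_nn ht) _ (fun e i => b i e) _
      ((eventually_all.2 hA).mono fun e he i => let ⟨ι, s, c, u, a, t⟩ := he i
        ⟨ι, s, c, u, a.trans ((le_abs_self _).trans (Finset.single_le_sum
          (fun i _ => abs_nonneg (C i)) (Finset.mem_univ i))), t⟩) hb)] with e he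
    rw [Fin.sum_univ_three] at he
    exact (dist_eq_norm _ _).trans_lt (he.trans_lt (half_lt_self η0))
  have h3 := ((Complex.continuous_ofReal.tendsto _).comp
    (((lg.comp p1).inv₀ one_ne_zero).pow l₂.m)).mul hG
  rw [e0, ← mul_assoc, ← Complex.ofReal_mul, ← pow_add, add_comm l₂.m]
  simp only [inv_one, one_pow, Complex.ofReal_one, one_mul] at h3
  refine h3.congr' ?_
  filter_upwards [p1.eventually (top.eventually_gt_atTop 0), p1.eventually (Ioo_mem_nhdsGT one_pos)]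
    with p r0 ht
  have := (log_pos ((one_lt_inv₀ ht.1).2 ht.2)).ne'
  have cs : HasCompactSupport (sc (ρ p.1 * p.1) (f 0)) :=
    ((hf.smul (inv_ne_zero (mul_pos r0 ht.1).ne')).1 0).1
  have k : ∀ X Y : Pol, S (ctr S X * ctr S Y) = S (X * ctr S Y) := fun X Y => by
    simp only [ctr, sub_mul, mul_sub, map_sub, C_eq_smul_one, smul_mul_assoc, mul_smul_comm, map_smul,
      one_mul, mul_one, hS.one, smul_eq_mul]
    ring
  simp only [Function.comp, Yl_smul cs, Yc, k, smul_mul_assoc, map_smul, smul_eq_mul,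
    ← mul_assoc, ← Complex.ofReal_mul]
  congr 2
  rw [inv_div, div_pow, pow_add _ _ l₂.m, mul_div_right_comm, mul_comm (_ / p.1 ^ 4), ← mul_assoc,
    div_mul_cancel₀ _ (pow_ne_zero _ this)]

end Pool.Agent.Lib.MP_7f377f_mp.Cm
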