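import Pool.Agent.Lib.MP_7f377f_mp.G.OpD
import Pool.Agent.Lib.MP_7f377f_mp.Lb9

/-! The leading label of a product. -/

noncomputable section

namespace Pool.Agent.Lib.MP_7f377f_mp.Cm
variable [Pool.Agent.Lib.MP_7f377f_mp.GD]
set_option linter.unusedSectionVars false

open MeasureTheory Filter Topology Set Real YM7 Matrix
open Lb (Lab Pl Cl pa sy an frL lq syL)

variable {a b : Lab ℝ} {v : R4} {u : Fin 2 → R4 → ℝ}

/-- the leading label is bilinear -/
def BLl (v : R4) : Lab ℝ →ₗ[ℝ] Lab ℝ →ₗ[ℝ] Lab ℝ := LinearMap.mk₂ ℝ (fun a b => BL a b v)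
  (fun a a' b => by
    simp only [BL, show sy (a + a') = sy a + sy a' from syL.map_add a a', Matrix.add_mul,
      Matrix.mul_add]
    abel)
  (fun t a b => by
    simp only [BL, show sy (t • a) = t • sy a from syL.map_smul t a, Matrix.smul_mul,
      Matrix.mul_smul, smul_add])
  (fun a b b' => by
    simp only [BL, show sy (b + b') = sy b + sy b' from syL.map_add b b', Matrix.add_mul,
      Matrix.mul_add]
    abel)
  fun t a b => by
    simp only [BL, show sy (t • b) = t • sy b from syL.map_smul t b, Matrix.smul_mul,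
      Matrix.mul_smul, smul_add]

theorem BLl_apply : BLl v a b = BL a b v := rfl

theorem BL_tr : (BL a b v)ᵀ = BL a b v := by
  simp only [BL, transpose_add, transpose_mul, Lb.sy_tr, Lb.pr_tr, Matrix.mul_assoc, add_comm]

theorem sy_BL : sy (BL a b v) = BL a b v := Lb.sy_of BL_tr

/-- the two cycles of length three -/
theorem lq_BL (w : ℝ) (c : Fin 3 → Lab ℝ) (v : R4) (ζ : Fin 2 → R4) :
    (lq w fun i j => ![![0, Lb.pr v, Lb.pr (ζ 1 - ζ 0)], ![Lb.pr v, 0, Lb.pr (ζ 1 - ζ 0)],
      ![Lb.pr (ζ 1 - ζ 0), Lb.pr (ζ 1 - ζ 0), 0]] i j * sy (c j)) =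
      frL w ![BL (c 0) (c 1) v, c 2] ζ := by
  rw [Lb.lq_three fun i => by fin_cases i <;> simp, frL,
    Lb.lq_two fun i => by simp [Lb.pr_zero]]
  simp only [cons_val_zero, cons_val_one, cons_val_two, sy_BL, Lb.pr_sub (ζ 0), Nat.succ_eq_add_one,
    Nat.reduceAdd, tail_cons, head_cons]
  obtain ⟨Q, hQ⟩ : ∃ Q, Q = Lb.pr (ζ 1 - ζ 0) := ⟨_, rfl⟩
  simp only [← hQ, BL, Matrix.mul_add, Matrix.add_mul, trace_add, mul_add]
  congr 2
  · rw [trace_mul_comm]
    simp only [Matrix.mul_assoc]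
  · rw [Matrix.mul_assoc (Q * _), trace_mul_comm]
    simp only [Matrix.mul_assoc]

theorem pa_BL : pa (BL (pa a) (pa b) v) = pa (BL a b v) := by
  have e : ∀ x y : Lab ℝ, an * (an * sy x * an * Lb.pr v * (an * sy y * an)) * an =
      an * (sy x * Lb.pr v * sy y) * an := fun x y => by
    simp only [← Matrix.mul_assoc, Lb.an_an]
    simp only [Matrix.mul_assoc, Lb.an_an, Lb.an_pr]
    rw [← Matrix.mul_assoc (Lb.pr v), Lb.pr_an]
  show an * sy _ * an = an * sy _ * an
  rw [sy_BL, sy_BL, BL, BL, Lb.sy_of Lb.pa_tr, Lb.sy_of Lb.pa_tr]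
  simp only [pa, Matrix.mul_add, Matrix.add_mul, e]

theorem BL_cont (α β : Pl) (y : Fin 2 → R4) (h : Function.Injective y) :
    ContinuousAt (fun y : Fin 2 → R4 => BL a b (y 1 - y 0) α β) y := by
  have := Lb.pr_cont' h 0 1
  exact continuousAt_pi.1 (continuousAt_pi.1 (show ContinuousAt (fun y : Fin 2 → R4 =>
    BL a b (y 1 - y 0)) y by unfold BL; fun_prop) α) β

theorem adm_wt {k : ℕ} {u : Fin k → R4 → ℝ} (hu : Adm u) :
    Lb.Wt fun y : Fin k → R4 => ∏ i, u i (y i) :=
  Lb.wt_prod (fun i => (hu.1 i).1) (fun i => (hu.1 i).2.continuous) hu.2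

theorem BB_int (hu : Adm u) (α β : Pl) :
    Integrable fun y : Fin 2 → R4 => (∏ i, u i (y i)) * BL a b (y 1 - y 0) α β :=
  ((adm_wt hu).mul (BL_cont α β)).int

/-- linear functionals commute with the smearing -/
theorem BB_map (hu : Adm u) (φ : Lab ℝ →ₗ[ℝ] ℝ) :
    φ (BB a b u) = ∫ y : Fin 2 → R4, (∏ i, u i (y i)) * φ (BL a b (y 1 - y 0)) := by
  have e : ∀ c, φ c = ∑ α, ∑ β, c α β * φ (single α β 1) := fun c => by
    conv_lhs => rw [matrix_eq_sum_single c]
    simp only [map_sum]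
    refine Finset.sum_congr rfl fun α _ => Finset.sum_congr rfl fun β _ => ?_
    rw [← smul_eq_mul, ← map_smul, smul_single, smul_eq_mul, mul_one]
  rw [e]
  simp only [e (BL _ _ _), Finset.mul_sum, ← mul_assoc, BB, of_apply, ← integral_mul_const]
  rw [integral_finset_sum _ fun α _ => integrable_finset_sum _ fun β _ => (BB_int hu α β).mul_const _]
  exact Finset.sum_congr rfl fun α _ =>
    (integral_finset_sum _ fun β _ => (BB_int hu α β).mul_const _).symm

/-- the smeared label is bilinear -/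
def BBl (hu : Adm u) : Lab ℝ →ₗ[ℝ] Lab ℝ →ₗ[ℝ] Lab ℝ := LinearMap.mk₂ ℝ (fun a b => BB a b u)
  (fun a a' b => by
    ext α β
    simp only [BB, of_apply, Matrix.add_apply, ← BLl_apply, map_add, LinearMap.add_apply, mul_add]
    exact integral_add (BB_int hu α β) (BB_int hu α β))
  (fun t a b => by
    ext α β
    simp only [BB, of_apply, Matrix.smul_apply, ← BLl_apply, map_smul, LinearMap.smul_apply, smul_eq_mul,
      mul_left_comm _ t, integral_const_mul])
  (fun a b b' => by
    ext α β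
    simp only [BB, of_apply, Matrix.add_apply, ← BLl_apply, map_add, mul_add]
    exact integral_add (BB_int hu α β) (BB_int hu α β))
  fun t a b => by
    ext α β
    simp only [BB, of_apply, Matrix.smul_apply, ← BLl_apply, map_smul, smul_eq_mul,
      mul_left_comm _ t, integral_const_mul]

theorem BBl_apply (hu : Adm u) : BBl hu a b = BB a b u := rfl

theorem pa_BB (hu : Adm u) : pa (BB (pa a) (pa b) u) = pa (BB a b u) := by
  ext α β
  have := fun a b => BB_map (a := a) (b := b) hu ((Matrix.entryLinearMap ℝ ℝ α β) ∘ₗ Lb.paL)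
  simp only [LinearMap.comp_apply, entryLinearMap_apply, show ∀ c, Lb.paL c = pa c from fun _ => rfl]
    at this
  simp only [this, pa_BL]

end Pool.Agent.Lib.MP_7f377f_mp.Cm
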