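import Pool.Agent.Lib.MP_7f377f_mp.G.OpW

/-! The coefficients of a word. -/

noncomputable section

namespace Pool.Agent.Lib.MP_7f377f_mp.Cm
variable [Pool.Agent.Lib.MP_7f377f_mp.GD]
set_option linter.unusedSectionVars false

open MeasureTheory Filter Topology Set Real YM7 Pur MvPolynomial
open Ope (gp sc ctr Mx Dt)
open Ro (Iso act)
open Lb (Lab Pl Cl rho mx pc)
open RG.Q4.En.Ty (Gn Ty sb Det)

theorem klem {J : Type} {Φ : Filter J} {c c' : J → ℝ} {u v : J → ℂ} {y : ℝ} {v₀ : ℂ} (v0 : v₀ ≠ 0)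
    (h1 : ∀ᶠ p in Φ, |c p| + |c' p| = 1) (hu : Tendsto u Φ (𝓝 (y * v₀))) (hv : Tendsto v Φ (𝓝 v₀))
    (h : Tendsto (fun p => c p * u p + c' p * v p) Φ (𝓝 0)) :
    (∀ᶠ p in Φ, (2 * (1 + |y|))⁻¹ ≤ |c p|) ∧ Tendsto (fun p => c' p / c p) Φ (𝓝 (-y)) := by
  have a : Tendsto (fun p => c p * y + c' p) Φ (𝓝 0) := by
    have := ((h.norm.add (tendsto_iff_norm_sub_tendsto_zero.1 hu)).add
      (tendsto_iff_norm_sub_tendsto_zero.1 hv)).div_const ‖v₀‖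
    refine squeeze_zero_norm' ?_ (by simpa using this)
    filter_upwards [h1] with p e
    rw [le_div_iff₀ (norm_pos_iff.2 v0), ← Complex.norm_real, ← norm_mul,
      show ((c p * y + c' p : ℝ) : ℂ) * v₀ = c p * u p + c' p * v p - c p * (u p - y * v₀) -
        c' p * (v p - v₀) by push_cast; ring]
    refine (norm_sub_le _ _).trans (add_le_add ((norm_sub_le _ _).trans (add_le_add le_rfl ?_)) ?_) <;>
      rw [norm_mul, Complex.norm_real] <;> refine mul_le_of_le_one_left (norm_nonneg _) ?_ <;>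
      rw [norm_eq_abs] <;> linarith [abs_nonneg (c p), abs_nonneg (c' p)]
  have y0 : 0 < 2 * (1 + |y|) := by positivity
  have b : ∀ᶠ p in Φ, (2 * (1 + |y|))⁻¹ ≤ |c p| := by
    filter_upwards [h1, a.abs.eventually_le_const (show |(0 : ℝ)| < 2⁻¹ by norm_num)] with p e e'
    have := abs_sub (c p * y + c' p) (c p * y)
    rw [add_sub_cancel_left, abs_mul] at this
    rw [inv_le_iff_one_le_mul₀ y0]
    linarith
  refine ⟨b, tendsto_iff_norm_sub_tendsto_zero.2 (squeeze_zero' (.of_forall fun _ => norm_nonneg _) ?_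
    (by simpa using a.abs.const_mul (2 * (1 + |y|))))⟩
  filter_upwards [b] with p e
  have c0 := (inv_pos.2 y0).trans_le e
  rw [sub_neg_eq_add, div_add' _ _ _ (abs_pos.1 c0), norm_div, norm_eq_abs, norm_eq_abs, div_le_iff₀ c0,
    add_comm, mul_comm y, mul_right_comm]
  exact le_mul_of_one_le_left (abs_nonneg _) ((inv_le_iff_one_le_mul₀' y0).1 e)

theorem mx_mul (g g' : Iso) : mx (g * g') = mx g * mx g' := by
  ext i j
  exact Lb.mx_mulVec g _ i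

theorem mx_one : mx (1 : Iso) = 1 := by
  ext i j
  by_cases h : i = j <;> simp [mx, h, Matrix.one_apply]

/-- the action on families with a label -/
def rep (J : Type) : Iso →* Module.End ℝ ((J → Pol) × Lab ℝ) where
  toFun g := (((act g).toLinearMap.restrictScalars ℝ).compLeft J).prodMap (Lb.rhoL (mx g))
  map_one' := LinearMap.ext fun v => Prod.ext (funext fun p => Ro.act_one _)
    (show rho (mx 1) v.2 = v.2 by rw [mx_one, Lb.rho_one])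
  map_mul' g g' := LinearMap.ext fun v => Prod.ext (funext fun p => (Ro.act_act g g' _).symm)
    (show rho (mx (g * g')) v.2 = rho (mx g) (rho (mx g') v.2) by rw [mx_mul, Lb.rho_mul])

theorem frI_rot {k : ℕ} (R : Iso) (a : Fin k → Lab ℝ) (f : Fin k → R4 → ℝ) :
    frI (fun i => cx (rho (mx R) (a i))) f = frI (fun i => cx (a i)) fun i y => f i (R y) := by
  rw [frI_cx, frI_cx, ← (Lb.mp_rot R).integral_comp
    (Homeomorph.piCongrRight fun _ => R.toHomeomorph).measurableEmbedding]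
  simp only [Lb.frL_rot]

variable {S : Pol →ₗ[ℂ] ℂ} {K₀ Λ δ a : ℝ} {h : R4 → ℝ} {ω : ∀ l : Cl, (Fin l.m → R4) → Lab ℝ}
  {r : ℝ → ℝ} {Z : Ix → Pol → ℝ → Prop} {K : Ix → Pol → Prop} {J : Type} {Φ : Filter J}
  {ι : J → Ix}

theorem Ps_e : Tendsto (fun p : Ix => p.2.2) Ps atTop := fun _ u =>
  ev_Ps.2 (.of_forall fun _ _ _ => UU_le u)

theorem sc_cpt {f : R4 → ℝ} (hf : HasCompactSupport f) {D : ℝ} (D0 : 0 < D) :
    HasCompactSupport (sc D f) := hf.comp_homeomorph (Homeomorph.smulOfNeZero D⁻¹ (inv_pos.2 D0).ne')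

theorem nw_smul (m : ℕ) (t d : ℝ) (c : ℂ) (A : Pol) : nw m t d (c • A) = c • nw m t d A := by
  rw [nw, map_smul, smul_comm, nw]

theorem nw_act (m : ℕ) (t d : ℝ) (g : Iso) (A : Pol) : act g (nw m t d A) = nw m t d (act g A) := by
  rw [nw, map_smul, act_sh, map_zero, nw]

theorem pair_mem {f : Fin 2 → R4 → ℝ} (hf : Adm f) : ∃ ε > 0, ∀ D > (0 : ℝ), ∀ {ρ d ρ' d' : ℝ} {A A'} e,
    0 < d → 0 < d' → 2 * ρ * d < ε * D → 2 * ρ' * d' < ε * D → A ∈ net.loc (Bx ρ) →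
      A' ∈ net.loc (Bx ρ') → ∃ O O', Disjoint O O' ∧ Yl A d e (sc D (f 0)) ∈ net.loc O ∧
        Yl A' d' e (sc D (f 1)) ∈ net.loc O' := by
  obtain ⟨_, q, -, -, h⟩ := hf.data
  refine ⟨1 / (q + 1) / 2, by positivity, fun D D0 ρ d ρ' d' A A' e d0 d1 u u' a a' => ?_⟩
  have b := hf.smul (inv_pos.2 D0).ne'
  refine ⟨_, _, Ope.sep_thick (A := fun i => tsupport (sc D (f i))) (δ := 1 / (q + 1) * D)
    (fun i j ij x hx y hy => ?_) (by linarith) (show (0 : Fin 2) ≠ 1 by simp),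
    (gl_Yl (S := 0) a d0 u le_rfl).loc ⟨(b.1 0).1, (b.1 0).2, subset_rfl⟩,
    (gl_Yl (S := 0) a' d1 u' le_rfl).loc ⟨(b.1 1).1, (b.1 1).2, subset_rfl⟩⟩
  have := h i j ij _ (tsupport_comp (continuous_const_smul D⁻¹) hx) _
    (tsupport_comp (continuous_const_smul D⁻¹) hy)
  rwa [dist_smul₀, norm_inv, norm_of_nonneg D0.le, le_inv_mul_iff₀' D0] at this

theorem ctr_act {g : Iso} (hg : Ro.Inv S g) {A : Pol} {O : Set R4} (hA : A ∈ net.loc O) :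
    act g (ctr S A) = ctr S (act g A) := by
  rw [ctr, ctr, map_sub, hg A (Net.adm hA), algHom_C, algebraMap_eq]

theorem frI_lin {f : Fin 2 → R4 → ℝ} (hf : Adm f) (x : ℝ) (a a' : Lab ℝ) (c : Lab ℂ) :
    frI ![cx (x • a + a'), c] f = x * frI ![cx a, c] f + frI ![cx a', c] f := by
  obtain ⟨M, hM⟩ := frI_ml hf
  simp only [← hM, cx_add, cx_smul]
  exact (M.cons_add ![c] _ _).trans (congrArg (· + _) (M.cons_smul ![c] _ _))

theorem frI_zero {f : Fin 2 → R4 → ℝ} (hf : Adm f) (c : Lab ℂ) : frI ![cx 0, c] f = 0 := by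
  simpa using frI_lin hf (-1) 0 0 c

theorem fun2 {α β : Type} (F : α → β) (a b : α) : (fun i => F (![a, b] i)) = ![F a, F b] :=
  List.ofFn_inj.1 rfl

theorem frI_pa2 (f : Fin 2 → R4 → ℝ) (b : Lab ℝ) (c : Lab ℂ) :
    frI ![cx (Lb.pa b), c] f = frI ![cx b, c] f := by
  have : cx (Lb.pa b) = Lb.pa (cx b) := by
    simp only [← Lb.sum_pc, ← cx_pc]
    ext
    simp [cx, Matrix.sum_apply]
  rw [← frI_pa, ← frI_pa ![cx b, c], fun2, fun2, this, Lb.pa_pa]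

variable {B B' : J → Pol} {b b' : Lab ℝ} {C C' : J → Lab ℝ}

theorem Law.comb (hD : ∀ᶠ p in Φ, 0 < r (ι p).1 * (ι p).1) (u : Law h ω S r Φ ι B b)
    (u' : Law h ω S r Φ ι B' b') (x : ℝ) : Law h ω S r Φ ι (x • B + B') (x • b + b') := fun l c f hf => by
  have := ((u l c f hf).const_mul (x : ℂ)).add (u' l c f hf)
  rw [mul_left_comm, ← mul_add, ← frI_lin hf] at this
  refine this.congr' ?_
  filter_upwards [hD] with p e
  have := sc_cpt (hf.1 0).1 e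
  simp only [Pi.add_apply, Pi.smul_apply, ← Complex.coe_smul, Yl_add this, Yl_smul this, ctr_add,
    ctr_smul, add_mul, smul_mul_assoc, map_add, map_smul, smul_eq_mul]
  ring

theorem Law.zero : Law h ω S r Φ ι 0 0 := fun l c f hf => by
  simp [Yl_zero, ctr_zero, frI_zero hf, tendsto_const_nhds]

variable (H : Dat (GD.d / 2) h ω Λ δ)
include H

theorem Rf_lin {f : R4 → ℝ} {Z : Pol} (u : Dt f Z) (t : ℝ) (e : ℕ) (x : ℝ) (c c' : Lab ℝ) :
    Rf h ω S t e (x • c + c') f = (x : ℂ) • Rf h ω S t e c f + Rf h ω S t e c' f := by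
  simp only [Rf, cx_add, cx_smul, Yc_linc H (Ope.adm_one.1 u.1).1, smul_add, Finset.sum_add_distrib,
    Finset.smul_sum, smul_comm (x : ℂ)]

theorem Rf_zero {f : R4 → ℝ} {Z : Pol} (u : Dt f Z) (t : ℝ) (e : ℕ) : Rf h ω S t e 0 f = 0 := by
  simpa using Rf_lin (S := S) H u t e (-1) 0 0

variable (hS : Sf S K₀)
include hS

theorem Ap.comb (u : Ap h ω S a Φ ι B C) (u' : Ap h ω S a Φ ι B' C') (x : ℝ) :
    Ap h ω S a Φ ι (x • B + B') (x • C + C') := fun f Z v => by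
  obtain ⟨R, K, e⟩ := u f Z v
  obtain ⟨R', K', e'⟩ := u' f Z v
  refine ⟨max R R', |x| * K + K', ?_⟩
  filter_upwards [e, e'] with p e e'
  have := (Ope.adm_one.1 v.1).1
  convert ((e.mono hS.inp.st (le_max_left R R') le_rfl).smul x).add hS.inp.st
    (e'.mono hS.inp.st (le_max_right R R') le_rfl) using 1
  · simp only [Pi.add_apply, Pi.smul_apply, Rf_lin H v, ← Complex.coe_smul, Yl_add this, Yl_smul this,
      ctr_add, ctr_smul, ← smul_mul_assoc, ← add_mul, smul_sub]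
    ring
  · rw [Complex.norm_real, norm_eq_abs]
    ring

variable (I : Kab S Λ δ a r Z K) (hι : Tendsto ι Φ Ps)
include I

omit H hS in
theorem Kab.evD : ∀ᶠ p in Ps, 0 < r p.1 * p.1 := (I.lim.comp Ps_fst).eventually self_mem_nhdsWithin

include hι in
theorem Kab.law_act {x : ℝ} (hB : ∀ᶠ p in Φ, Z (ι p) (B p) x) (u : Law h ω S r Φ ι B b) (g : Gn) :
    Law h ω S r Φ ι (fun p => Ro.act (gi g) (B p)) (rho (mx (gi g)) b) := fun l c f hf => by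
  obtain ⟨c, rfl⟩ : ∃ c', c = rho (mx (gi g)) c' := ⟨rho (mx (gi g)⁻¹) c, by
    rw [← Lb.rho_mul, ← mx_mul, mul_inv_cancel, mx_one, Lb.rho_one]⟩
  have hf' : Adm fun i y => f i (gi g y) := hf.comp (gi g).toHomeomorph (gi g).contDiff
  have e1 := frI_rot (gi g) ![b, pc l c] f
  rw [fun2, fun2 fun a => cx (rho (mx (gi g)) a)] at e1
  rw [Lb.pc_rho (Lb.mx_orth _)]
  refine (e1 ▸ u l c _ hf').congr' ?_
  obtain ⟨ε, ε0, hε⟩ := pair_mem hf'
  obtain ⟨ρ, hρ⟩ := I.loc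
  filter_upwards [hB, hι.eventually (hρ.and (I.evD.and (Ps_fst.eventually (.and (Ioc_mem_nhdsGT one_pos)
    ((I.lgr.2.eventually_gt_atTop (2 * ρ / ε)).and
      (I.lgr.2.eventually_gt_atTop (2 * (Λ + 1) / ε)))))))] with p z ⟨e, D0, t1, r1, r2⟩
  have d1 := dn_nn t1
  rw [div_lt_iff₀' ε0] at r1 r2
  obtain ⟨O, O', o, y, y'⟩ := hε _ D0 (ι p).2.2 one_pos (dn_pos _) (by nlinarith [t1.1])
    (by nlinarith [t1.1, d1.2, H.pos.1]) (e _ _ z).1 (Zc_mem H (l := l) (e := (ι p).2.2) (cx c))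
  have s : ∀ D i, (fun y => sc D (fun y => f i (gi g y)) ((gi g).symm y)) = sc D (f i) :=
    fun D i => funext fun y => by simp [sc]
  rw [Yc, ← hS.inv (gi g) _ (Net.adm (net.mul (ctr_mem y) (ctr_mem y') o)), map_mul,
    ctr_act (hS.inv _) y, ctr_act (hS.inv _) y', Yl_act (sc_cpt (hf'.1 0).1 D0),
    Yl_act (sc_cpt (hf'.1 1).1 D0), s, s, Zc_act H, rE_cx, Yc]

omit H in
theorem Kab.kq {f : R4 → ℝ} {Y : Pol} (u : Dt f Y) : ∃ R L, ∀ᶠ p in Ps, ∀ B x T σ, K p B → Z p B x →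
    Typ T B → (∀ i, ∃ χ, (.inr i, χ) ∈ T) →
      net.QB S (ctr S (Yl (Ro.act (Ro.prm σ) B) 1 p.2.2 f) * Y) R (L * p.1 ^ a) := by
  obtain ⟨s, hs⟩ := mx_qb hS.inp.st hS.inp.lin u
  obtain ⟨e₀, ⟨C, hC⟩, R, hR⟩ := ((I.mix s).and_eventually hs).exists
  obtain ⟨L, hL⟩ := hR C
  obtain ⟨ρ, hρ⟩ := I.loc
  have w0 : (0 : ℝ) < (3 ^ (e₀ + s))⁻¹ := by positivity
  refine ⟨R, L, ?_⟩
  filter_upwards [hC, hρ, Ps_e.eventually_ge_atTop (e₀ + s), Ps_fst.eventually self_mem_nhdsWithin,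
    ((tendsto_nhds_of_tendsto_nhdsWithin Ps_fst).const_mul (2 * ρ)).eventually_lt_const
      ((mul_zero _).trans_lt w0)] with p e1 e2 e3 (t0 : 0 < p.1) e4 B x T σ k z ty hT
  choose χ hχ using hT
  have y := e2 _ _ (I.act (.inl σ) z)
  refine hL _ (fun μ => sb (χ (σ.symm μ))) _ _ w0 le_rfl (rpow_nonneg t0.le _)
    (gl_Yl y.1 one_pos (by linarith) e3) (sg_Yl fun μ => ⟨sb_mul _, (y.2 μ).trans ?_⟩)
    (e1 _ (I.kact (.inl σ) k))
  obtain ⟨μ, rfl⟩ := σ.surjective μ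
  rw [gi, Ro.act_act, prm_rf, ← Ro.act_act, σ.symm_apply_apply]
  exact (congrArg _ (ty _ (hχ μ))).trans (by simp)

omit H hS in
theorem Kab.one {x : ℝ} (hB : ∀ᶠ p in Φ, Z (ι p) (B p) x) :
    ∀ᶠ p in Φ, Z (ι p) ((((|x| + 1)⁻¹ : ℝ) : ℂ) • B p) 1 := hB.mono fun p z =>
  I.mono (I.smul _ z) (by
    rw [abs_of_pos (by positivity), inv_mul_le_iff₀ (by positivity)]
    linarith [le_abs_self x])

omit hS I H in
theorem Typ.smul {T : Ty} {A : Pol} (u : Typ T A) (c : ℂ) : Typ T (c • A) := fun g hg => by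
  rw [map_smul, u g hg, smul_comm]

include hι

theorem Kab.ap0 {x : ℝ} (hB : ∀ᶠ p in Φ, Z (ι p) (B p) x) {T : Ty} (hD : Det T [])
    (hT : ∀ i, ∃ χ, (.inr i, χ) ∈ T) (ty : ∀ p, Typ T (B p)) (σ : Equiv.Perm (Fin 4)) :
    Ap h ω S a Φ ι (fun p => Ro.act (Ro.prm σ) (B p)) 0 := fun f Y u => by
  obtain ⟨R, L, e⟩ := I.kq hS u
  refine ⟨R, (|x| + 1) * L, ?_⟩
  filter_upwards [I.one hB, hι.eventually (e.and I.ex0)] with p z ⟨e, e'⟩
  have x0 : 0 < |x| + 1 := by positivity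
  have := (e _ _ T σ (e' T _ hD hT z ((ty p).smul _)) z ((ty p).smul _) hT).smul ((|x| + 1 : ℝ) : ℂ)
  rw [map_smul, Yl_smul (Ope.adm_one.1 u.1).1, ctr_smul, smul_mul_assoc, smul_smul,
    ← Complex.ofReal_mul, mul_inv_cancel₀ x0.ne', Complex.norm_real, norm_of_nonneg x0.le,
    ← mul_assoc] at this
  simpa [Rf_zero H u] using this

theorem Kab.ap1 {x : ℝ} (hB : ∀ᶠ p in Φ, Z (ι p) (B p) x) (law : Law h ω S r Φ ι B b) (τ : Lb.Tp)
    (ty : ∀ p, Typ τ.T (B p)) {y : ℝ} (hb : Lb.pa b = y • Lb.ref τ) (σ : Equiv.Perm (Fin 4)) :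
    ∃ κ : J → ℝ, Tendsto κ Φ (𝓝 y) ∧ Ap h ω S a Φ ι (fun p => Ro.act (Ro.prm σ) (B p))
      fun p => κ p • rho (mx (Ro.prm σ)) (Lb.ref τ) := by
  obtain ⟨β, Y⟩ := tys dim_ne
  obtain ⟨C, C0, hC⟩ := Zc_wo H τ.cl (Lb.ref τ)
  obtain ⟨C', w, w1, w2⟩ := Zc_wn H τ.cl (Lb.ref τ)
  obtain ⟨f, hf, ne⟩ := frI_ne (by simp) (fr_ref dim_ne τ)
  rw [fun2] at ne
  have g0 := pow_pos gm_pos τ.cl.m
  have x0 : 0 < |x| + 1 := by positivity
  have d1 := Eventually.mono (Ioc_mem_nhdsGT one_pos) fun t => dn_nn (t := t)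
  have m5 : τ.cl.m ≤ 5 := by cases τ <;> simp [Lb.Tp.cl, Cl.m]
  let R : Ix → Pol := fun p => nw τ.cl.m p.1 (dn (nn p.1)) (Zc h ω τ.cl p.2.2 (cx (Lb.ref τ)))
  have tR : ∀ p, Typ τ.T (((C⁻¹ : ℝ) : ℂ) • R p) := fun p g hg => by
    rw [← nw_smul, nw_act, Zc_typ H Y τ _ _ g hg, nw_smul]
  have e1 : ∀ᶠ p in Φ, Z (ι p) (((C⁻¹ : ℝ) : ℂ) • R (ι p)) 1 := by
    filter_upwards [hι.eventually (I.wd.and (Ps_fst.eventually d1))] with p ⟨e, d⟩
    rw [← nw_smul]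
    exact e _ _ (Cl_m _) m5 (hC _) _ d
  have e2 : ∀ᶠ p in Φ, ∃ c c' : ℝ, |c| + |c'| = 1 ∧ K (ι p) ((c : ℂ) • (((|x| + 1)⁻¹ : ℝ) : ℂ) • B p +
      (c' : ℂ) • ((C⁻¹ : ℝ) : ℂ) • R (ι p)) := by
    filter_upwards [I.one hB, e1, hι.eventually I.ex] with p z z' e
    exact e _ _ _ _ τ.det le_rfl (rf_mem τ) z z' ((ty p).smul _) (tR _)
  obtain ⟨c, e2⟩ := Filter.skolem.1 e2
  obtain ⟨c', e2⟩ := Filter.skolem.1 e2
  have l1 := (law τ.cl (Lb.ref τ) f hf).const_mul (((|x| + 1)⁻¹ : ℝ) : ℂ)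
  have l2 := ((I.law H (Cl_m _) w1 w2 d1 τ.cl (Lb.ref τ) f hf).comp hι).const_mul ((C⁻¹ : ℝ) : ℂ)
  have p1 := Y.cls τ
  have l4 := fun t => frI_lin hf t (Lb.ref τ) 0 (cx (Lb.ref τ))
  simp only [add_zero, frI_zero hf] at l4
  rw [p1, ← frI_pa2, hb, l4] at l1
  rw [p1, l4] at l2
  obtain ⟨k1, k2⟩ := klem (c := c) (c' := c') (y := (|x| + 1)⁻¹ * y * C / gm ^ τ.cl.m) (mul_ne_zero
    (Complex.ofReal_ne_zero.2 (inv_pos.2 C0).ne') (mul_ne_zero (gm_ne _) (mul_ne_zero (gm_ne _) ne))) (e2.mono fun _ e => e.1) (by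
      convert l1 using 2
      have := gm_ne τ.cl.m
      have : (C : ℂ) ≠ 0 := by exact_mod_cast C0.ne'
      push_cast at *
      field_simp) l2 (by
    refine tendsto_zero_iff_norm_tendsto_zero.2 (Metric.tendsto_nhds.2 fun η η0 => ?_)
    filter_upwards [e2, hι.eventually ((I.prb f hf _ (div_pos (half_pos η0) C0)).and
      (I.evD.and (Ps_fst.eventually d1)))] with p e ⟨u, D0, d⟩
    have := u _ e.2 _ _ (Cl_m _) m5 (hC (ι p).2.2) _ d
    have s0 := sc_cpt (hf.1 0).1 D0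
    rw [Yl_smul (sc_cpt (hf.1 1).1 D0), ctr_smul, mul_smul_comm, map_smul, smul_eq_mul, mul_left_comm,
      norm_mul, Complex.norm_real, norm_of_nonneg (inv_pos.2 C0).le, inv_mul_le_iff₀ C0,
      mul_div_cancel₀ _ C0.ne'] at this
    rw [dist_zero_right, norm_norm]
    refine lt_of_le_of_lt (le_of_eq_of_le ?_ this) (half_lt_self η0)
    simp only [Yl_add s0, Yl_smul s0, ctr_add, ctr_smul, add_mul, smul_mul_assoc, map_add, map_smul,
      smul_eq_mul, Function.comp, id, R, Yc]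
    congr 1
    ring)
  refine ⟨fun p => -(c' p / c p) * ((|x| + 1) * gm ^ τ.cl.m / C), ?_, fun f Y' u => ?_⟩
  · convert k2.neg.mul_const _ using 2
    field_simp
  obtain ⟨R', L, e⟩ := I.kq hS u
  obtain ⟨L', hL⟩ := I.add
  refine ⟨R', (|x| + 1) * (2 * (1 + |(|x| + 1)⁻¹ * y * C / gm ^ τ.cl.m|)) * L, ?_⟩
  filter_upwards [I.one hB, e1, e2, k1, hι.eventually e] with p z z' e2 k1 e
  have c0 := lt_of_lt_of_le (by positivity) k1
  have s0 := (Ope.adm_one.1 u.1).1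
  have := (e _ _ τ.T σ e2.2 (hL (I.smul _ z) (I.smul _ z')) (fun g hg => by
    rw [map_add, ((ty p).smul _).smul _ g hg, (tR _).smul _ g hg, smul_add]) (rf_mem τ))
  convert (this.smul (((|x| + 1) / c p : ℝ) : ℂ)).mono hS.inp.st le_rfl (c' := _) ?_ using 1
  · have q : pc τ.cl (cx (rho (mx (Ro.prm σ)) (Lb.ref τ))) = cx (rho (mx (Ro.prm σ)) (Lb.ref τ)) := by
      rw [← cx_pc, Lb.pc_rho (Lb.mx_orth _), p1]
    have q1 := Rf_lin (S := S) H u (ι p).1 (ι p).2.2 (-(c' p / c p) * ((|x| + 1) * gm ^ τ.cl.m / C))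
      (rho (mx (Ro.prm σ)) (Lb.ref τ)) 0
    rw [add_zero, Rf_zero H u, add_zero] at q1
    have q2 : Rf h ω S (ι p).1 (ι p).2.2 (rho (mx (Ro.prm σ)) (Lb.ref τ)) f = _ :=
      Oa_pc H (fun l _ => log (ι p).1⁻¹ ^ l.m / gm ^ l.m) (nn (ι p).1, (ι p).2.2) q
    have q3 := Zc_act H (l := τ.cl) (e := (ι p).2.2) (.inl σ) (cx (Lb.ref τ))
    rw [rE_cx, gi] at q3
    simp only [q1, q2, map_add, map_smul, R, nw_act, q3, Yl_add s0, Yl_smul s0, Yl_nw s0, ctr_add,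
      ctr_smul, ← smul_mul_assoc, smul_add, smul_smul, Yc, dn, sub_eq_add_neg, ← neg_smul,
      ← Complex.ofReal_mul, ← Complex.ofReal_neg]
    have := abs_pos.1 c0
    congr 2
    · rw [show (|x| + 1) / c p * (c p * (|x| + 1)⁻¹) = 1 by field_simp, Complex.ofReal_one, one_smul]
    · congr 2
      field_simp
  · rw [Complex.norm_real, norm_div, norm_of_nonneg x0.le, norm_eq_abs, mul_assoc _ L, div_eq_mul_inv]
    have := this.2.2.1
    gcongr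
    exact inv_le_of_inv_le₀ (by positivity) k1

theorem Kab.coef {x : ℝ} (hB : ∀ᶠ p in Φ, Z (ι p) (B p) x) (law : Law h ω S r Φ ι B b) :
    ∃ C : J → Lab ℝ, Tendsto C Φ (𝓝 (Lb.pa b)) ∧ Ap h ω S a Φ ι B C := by
  have hD := hι.eventually I.evD
  obtain ⟨L, hL⟩ := I.add
  let F : Submodule ℝ ((J → Pol) × Lab ℝ) := .ofLinearComb
    {v | (∃ x, ∀ᶠ p in Φ, Z (ι p) (v.1 p) x) ∧ Law h ω S r Φ ι v.1 v.2} ⟨(B, b), ⟨x, hB⟩, law⟩
    fun v ⟨⟨x, u⟩, u'⟩ w ⟨⟨y, z⟩, z'⟩ s t => ⟨⟨_, (u.and z).mono fun p e =>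
      hL (I.smul s e.1) (I.smul t e.2)⟩, by
        simpa using u'.comb hD (z'.comb hD .zero t) s⟩
  let P : Submodule ℝ ((J → Pol) × Lab ℝ) := .ofLinearComb
    {v | ∃ C, Tendsto C Φ (𝓝 (Lb.pa v.2)) ∧ Ap h ω S a Φ ι v.1 C} ⟨0, 0, by
      rw [Prod.snd_zero, show Lb.pa _ = 0 from Lb.paL.map_zero]; exact tendsto_const_nhds, fun f Y u => ⟨0, 0, .of_forall fun p => by
        simpa [Yl_zero, ctr_zero, Rf_zero H u] using Net.QB.zero le_rfl⟩⟩
    fun v ⟨C, u, u'⟩ w ⟨C', z, z'⟩ s t => ⟨s • C + t • C', by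
      rw [Prod.snd_add, Lb.pa_add, Prod.smul_snd, Prod.smul_snd, Lb.pa_smul, Lb.pa_smul]
      exact (u.const_smul s).add (z.const_smul t), by
        have := z'.comb H hS (z'.comb H hS z' (-1)) t
        simpa using u'.comb H hS this s⟩
  have ty : ∀ {T v}, Tv (rep J) T v → (∀ p, Typ T (v.1 p)) ∧
      ∀ g ∈ T, rho (Lb.gm g.1) (Lb.pa v.2) = (sb g.2 : ℝ) • Lb.pa v.2 := fun {T v} e =>
    ⟨fun p g hg => (congrFun (congrArg Prod.fst (e g hg)) p).trans (by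
      simp [← Complex.coe_smul]), fun g hg => by
        rw [← Lb.pa_rho (Lb.gm_orth _), ← Lb.pa_smul, ← mx_gi]
        exact congrArg Lb.pa (congrArg Prod.snd (e g hg))⟩
  have key := @decomp _ _ _ _ (rep J) F (⨅ σ, P.comap (rep J (Ro.prm σ)))
    (fun g v ⟨⟨x, u⟩, u'⟩ => ⟨⟨x, u.mono fun p e => I.act g e⟩, I.law_act H hS hι u u' g⟩)
    (fun σ v u => (Submodule.mem_iInf _).2 fun σ' => by
      simpa only [Submodule.mem_comap, pi_mul, Ro.prm_mul] using (Submodule.mem_iInf _).1 u (σ' * σ))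
    (fun v ⟨⟨x, u⟩, u'⟩ τ e => (Submodule.mem_iInf _).2 fun σ => by
      have e1 := Lb.uniq τ Lb.pa_pa (ty e).2
      obtain ⟨κ, k1, k2⟩ := I.ap1 H hS hι u u' τ (ty e).1 e1 σ
      refine ⟨_, ?_, k2⟩
      rw [show (rep J (Ro.prm σ) v).2 = rho (mx (Ro.prm σ)) v.2 from rfl, Lb.pa_rho (Lb.mx_orth _), e1,
        Lb.rho_smul]
      exact k1.smul_const _)
    (fun v ⟨⟨x, u⟩, u'⟩ T hD hT e => (Submodule.mem_iInf _).2 fun σ => by
      refine ⟨0, ?_, I.ap0 H hS hι u hD hT (ty e).1 σ⟩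
      rw [show (rep J (Ro.prm σ) v).2 = rho (mx (Ro.prm σ)) v.2 from rfl, Lb.pa_rho (Lb.mx_orth _),
        Lb.det_zero hD Lb.pa_pa (ty e).2 (by simp), Lb.rho_zero]
      exact tendsto_const_nhds)
  have := (Submodule.mem_iInf _).1 (@key (B, b) ⟨⟨x, hB⟩, law⟩) 1
  rwa [Submodule.mem_comap, Ro.prm_one, map_one] at this

end Pool.Agent.Lib.MP_7f377f_mp.Cm
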