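import Pool.Agent.Lib.MP_7f377f_mp.G.OpL

/-! The product of two composite fields at short distance: definitions and interfaces. -/

noncomputable section

namespace Pool.Agent.Lib.MP_7f377f_mp.Cm
variable [Pool.Agent.Lib.MP_7f377f_mp.GD]
set_option linter.unusedSectionVars false

open MeasureTheory Filter Topology Set Real YM7 Pur MvPolynomial
open Ope (sc ctr)
open Lb (Lab Cl pc sy frL Sep)

/-- the leading label in the product of two free fields with labels -/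
def BL (a b : Lab ℝ) (v : R4) : Lab ℝ := sy a * Lb.pr v * sy b + sy b * Lb.pr v * sy a

/-- the leading label of a smeared pair -/
def BB (a b : Lab ℝ) (u : Fin 2 → R4 → ℝ) : Lab ℝ :=
  Matrix.of fun α β => ∫ y : Fin 2 → R4, (∏ i, u i (y i)) * BL a b (y 1 - y 0) α β

variable (S : Pol →ₗ[ℂ] ℂ) (Λ δ a₀ a : ℝ) (Kl : ℝ → ℝ → ℕ → Sl → Prop) (ρ : ℝ → ℝ)

/-- the three scale law: two clusters of size `d` at the distance `t` and a cluster of size `t'`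
at the distance `ρ t * t` -/
def Ts3 : Prop := ∀ (m : Fin 3 → ℕ) (Λ δ : ℝ), (∀ s, 1 ≤ m s) → ∀ η > 0, ∀ᶠ t in 𝓝[>] (0 : ℝ),
  ∀ d ∈ Icc (t / (4 * ρ t)) (t / ρ t), ∀ t' ∈ Icc (t / 2) t, ∀ ξ ζ : Fin 2 → R4, Sep δ Λ ξ →
    Sep δ Λ ζ → ∀ u : ∀ s, Fin (m s) → R4 → ℝ, (∀ s, Tw Λ δ (u s)) →
      ‖((log t⁻¹ ^ (∑ s, m s) * ((t / d) ^ 8 * ρ t ^ 8 * (t / t') ^ 4) : ℝ) : ℂ) *
          S (∏ s, ctr S (sh (![d, d, t'] s) (![(ρ t * t) • ζ 0 + t • ξ 0,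
            (ρ t * t) • ζ 0 + t • ξ 1, (ρ t * t) • ζ 1] s) (mon (u s)))) -
        ((gm ^ (∑ s, m s) * frL (GD.d / 2) ![BL (Bu (GD.d / 2) (u 0)) (Bu (GD.d / 2) (u 1))
          (ξ 1 - ξ 0), Bu (GD.d / 2) (u 2)] ζ : ℝ) : ℂ)‖ ≤ η

/-- the normalised product of two slots -/
def Pw (u : Fin 2 → R4 → ℝ) (p : Ix) (d' : ℝ) (s s' : Sl) : Pol :=
  ((log p.1⁻¹ ^ (s.m + s'.m) / p.1 ^ 4 : ℝ) : ℂ) • (ctr S (s.Y p.2.1 d' p.2.2 (sc p.1 (u 0))) *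
    ctr S (s'.Y p.2.1 d' p.2.2 (sc p.1 (u 1))))

/-- the input from the renormalisation group -/
structure Kin2 (u : Fin 2 → R4 → ℝ) (Z : Ix → Pol → ℝ → Prop) (K : Ix → Pol → Prop) : Prop
    extends Kab S Λ δ a ρ Z K where
  pair : ∀ᶠ p in Ps, p.2.1 ≤ p.1 / ρ p.1 → ∀ d' ∈ Icc (p.2.1 / 2) p.2.1, ∀ s s' : Sl,
    s.Ok 5 Λ δ → s'.Ok 5 Λ δ → Z p (Pw S u p d' s s') (p.1 / ρ p.1 / p.2.1) ∧
    (Kl p.2.1 d' p.2.2 s ∨ Kl p.2.1 d' p.2.2 s' → Z p (Pw S u p d' s s') ((p.2.1 / p.1) ^ a))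
  two : ∀ f : Fin 2 → R4 → ℝ, Adm f → ∀ᶠ p in Ps, ∀ B, Z p B 1 → ∀ m A, 1 ≤ m → m ≤ 5 →
    Wo m Λ δ A → ∀ d ∈ Icc (p.1 / 2) p.1, ‖((log (ρ p.1 * p.1)⁻¹ ^ m : ℝ) : ℂ) *
      S (ctr S (Yl B 1 p.2.2 (sc (ρ p.1 * p.1) (f 0))) *
        ctr S (Yl A d p.2.2 (sc (ρ p.1 * p.1) (f 1))))‖ ≤ ρ p.1 ^ (a / 2)
  inn : ∃ W, Wnd W ∧ Tsc S W ∧ (∀ j ≤ 2, ∀ f : Fin j → R4 → ℝ, Adm f → Clu S Λ δ a₀ Kl W f) ∧
    ∀ᶠ t in 𝓝[>] (0 : ℝ), W t (ρ t)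
  ts3 : Ts3 S ρ

end Pool.Agent.Lib.MP_7f377f_mp.Cm
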