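import Pool.Agent.Lib.MP_7f377f_mp.G.CmD
import Pool.Agent.Lib.MP_7f377f_mp.G.LbT

/-! Decomposition into signed symmetry types. -/

noncomputable section

namespace Pool.Agent.Lib.MP_7f377f_mp.Cm
variable [Pool.Agent.Lib.MP_7f377f_mp.GD]
set_option linter.unusedSectionVars false

open Pur Equiv
open Ro (Iso prm prm_mul prm_one)
open RG.Q4.En.Ty (Gn Ty sb Det sw sa T1 T1' T3 T6 T2 T6' T2')

theorem prm_rf (σ : Perm (Fin 4)) (μ : Fin 4) : rfL (σ μ) * prm σ = prm σ * rfL μ := by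
  ext y i
  by_cases e : i = σ μ
  · simp [e, Ro.prm_apply, rfL_eq, rf]
  · simp [Ro.prm_apply, rfL_eq, rf, e, Function.update_of_ne (σ.symm_apply_eq.not.2 e)]

theorem rf_comm (μ ν : Fin 4) : rfL μ * rfL ν = rfL ν * rfL μ := by
  ext y i
  by_cases e : i = μ <;> by_cases e' : i = ν <;> simp_all [rfL_eq, rf, Function.update_apply]

theorem rf_sq (μ : Fin 4) : rfL μ * rfL μ = 1 := by
  ext y i
  simp [rfL_eq, rf_rf]

variable {V : Type} [AddCommGroup V] [Module ℝ V] (π : Iso →* Module.End ℝ V) {v : V} {T : Ty}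

/-- vectors of a signed symmetry type -/
def Tv (T : Ty) (v : V) : Prop := ∀ g ∈ T, π (gi g.1) v = (sb g.2 : ℝ) • v

/-- signs under the reflections -/
def Rv (c : Fin 4 → Bool) (v : V) : Prop := ∀ μ, π (rfL μ) v = (sb (c μ) : ℝ) • v

variable {π} {c : Fin 4 → Bool}

theorem pi_mul (g g' : Iso) (v : V) : π g (π g' v) = π (g * g') v := by rw [map_mul]; rfl

theorem Rv.prm (h : Rv π c v) (σ : Perm (Fin 4)) : Rv π (c ∘ σ.symm) (π (prm σ) v) := fun μ => by
  obtain ⟨ν, rfl⟩ := σ.surjective μ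
  rw [pi_mul, prm_rf, ← pi_mul, h, map_smul, Function.comp_apply, symm_apply_apply]

theorem Rv.prm' {b : Bool} (h : Rv π (fun _ => b) v) (σ : Perm (Fin 4)) :
    Rv π (fun _ => b) (π (Ro.prm σ) v) := h.prm σ

theorem Rv.comb {u : V} (h : Rv π c v) (h' : Rv π c u) (x : ℝ) : Rv π c (v + x • u) := fun μ => by
  rw [map_add, map_smul, h, h', smul_add, smul_comm]

theorem Rv.tv (h : Rv π c v) {T : Ty} (h' : Tv π T v) :
    Tv π (RG.Q4.En.Ty.rf (c 0) (c 1) (c 2) (c 3) ++ T) v := by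
  simpa [Tv, RG.Q4.En.Ty.rf, or_imp, forall_and, gi, h 0, h 1, h 2, h 3] using h'

theorem sb_mul (b : Bool) : (sb b : ℝ) * sb b = 1 := by exact_mod_cast RG.Q4.En.Ty.sb_sq b

theorem inv_eig {g : Iso} (hg : g * g = 1) (b : Bool) (v : V) :
    π g (v + (sb b : ℝ) • π g v) = (sb b : ℝ) • (v + (sb b : ℝ) • π g v) := by
  rw [map_add, map_smul, pi_mul, hg, map_one, smul_add, smul_smul, sb_mul, one_smul, add_comm]
  rfl

theorem split {O : Submodule ℝ V} (u : V) (h : ∀ b, v + (sb b : ℝ) • u ∈ O) : v ∈ O := by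
  convert O.smul_mem 2⁻¹ (add_mem (h true) (h false)) using 1
  simp only [sb, if_true, Bool.false_eq_true, if_false]
  module

theorem sw_sq (a b : Fin 4) : prm (swap a b) * prm (swap a b) = 1 := by
  rw [prm_mul, swap_mul_self, prm_one]

variable {F O : Submodule ℝ V} (hF : ∀ g, ∀ v ∈ F, π (gi g) v ∈ F)
  (hO : ∀ σ, ∀ v ∈ O, π (prm σ) v ∈ O)
  (h : ∀ v ∈ F, ∀ τ : Lb.Tp, Tv π τ.T v → v ∈ O)
include hF hO

omit hF in
theorem of_prm (σ : Perm (Fin 4)) (e : π (prm σ) v ∈ O) : v ∈ O := by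
  simpa [pi_mul, prm_mul, prm_one] using hO σ⁻¹ _ e

/-- all reflections have the same sign -/
theorem dec_all (b : Bool) (h1 : ∀ v ∈ F, Rv π (fun _ => b) v → Tv π (sa b) v → v ∈ O)
    (h2 : ∀ v ∈ F, Rv π (fun _ => b) v → Tv π [sw 0 1 !b] v → v ∈ O) (hv : v ∈ F)
    (e : Rv π (fun _ => b) v) : v ∈ O := by
  let χ : Perm (Fin 4) →* ℝ := if b then (Int.castRingHom ℝ).toMonoidHom.comp
    ((Units.coeHom ℤ).comp Perm.sign) else 1
  have c1 : ∀ x y, x ≠ y → χ (swap x y) = sb b := fun x y ne => by cases b <;> simp [χ, sb, ne]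
  have c2 : ∀ x y, x ≠ y → ∀ v ∈ F, Rv π (fun _ => b) v → v - χ (swap x y) • π (prm (swap x y)) v ∈ O :=
    fun x y ne v hv e => by
      obtain ⟨σ, rfl, rfl⟩ : ∃ σ : Perm (Fin 4), σ 0 = x ∧ σ 1 = y :=
        ⟨swap 0 x * swap 1 (swap 0 x y), by revert x y; decide⟩
      have := hO σ _ (h2 _ (add_mem (hF (.inl σ⁻¹) v hv) (F.smul_mem (sb !b) (hF (.inl (swap 0 1)) _
        (hF (.inl σ⁻¹) v hv)))) ((e.prm' σ⁻¹).comb ((e.prm' σ⁻¹).prm' (swap 0 1)) _) fun g hg => by
          obtain rfl := List.mem_singleton.1 hg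
          exact inv_eig (sw_sq 0 1) (!b) _)
      rw [map_add, map_smul] at this
      simp only [gi, pi_mul, prm_mul, mul_inv_cancel, prm_one, map_one, ← mul_assoc,
        ← swap_apply_apply] at this
      rw [c1 _ _ ne, sub_eq_add_neg, ← neg_smul]
      convert this using 3 <;> cases b <;> simp [sb]
  have c3 : ∀ σ, v - χ σ • π (prm σ) v ∈ O := fun σ => by
    induction σ using Perm.swap_induction_on with
    | one => simp [prm_one]
    | swap_mul σ x y ne ih =>
      convert add_mem ih (O.smul_mem (χ σ) (c2 x y ne _ (hF (.inl σ) v hv) (e.prm' σ))) using 1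
      rw [gi, pi_mul, prm_mul, map_mul, smul_sub, smul_smul, mul_comm, sub_add_sub_cancel]
  have c4 : ∑ σ, χ σ • π (prm σ) v ∈ O := h1 _ (F.sum_mem fun σ _ => F.smul_mem _ (hF (.inl σ) v hv))
    (fun μ => by simp only [map_sum, map_smul, e.prm' _ μ, Finset.smul_sum, smul_comm (χ _)]) (by
      have : ∀ x y, x ≠ y → π (prm (swap x y)) (∑ σ, χ σ • π (prm σ) v) =
          (sb b : ℝ) • ∑ σ, χ σ • π (prm σ) v := fun x y ne => by
        rw [Finset.smul_sum, ← Equiv.sum_comp (Equiv.mulLeft (swap x y)), map_sum]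
        simp only [map_smul, pi_mul, prm_mul, coe_mulLeft, swap_mul_self_mul, smul_smul, map_mul χ,
          c1 x y ne]
      simp only [Tv, sa, sw, gi, List.forall_mem_cons, List.not_mem_nil, false_imp_iff, implies_true]
      refine ⟨?_, ?_, ?_, ?_, ?_, ?_, trivial⟩ <;> exact this _ _ (by decide))
  convert O.smul_mem 24⁻¹ (add_mem (O.sum_mem fun σ (_ : σ ∈ Finset.univ) => c3 σ) c4) using 1
  rw [Finset.sum_sub_distrib, sub_add_cancel, Finset.sum_const, Finset.card_univ, Fintype.card_perm,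
    ← Nat.cast_smul_eq_nsmul ℝ, smul_smul]
  norm_num [Nat.factorial]

include h

theorem decomp (h0 : ∀ v ∈ F, ∀ T, Det T [] → (∀ i, ∃ χ, (.inr i, χ) ∈ T) → Tv π T v → v ∈ O) :
    F ≤ O := by
  have s23 : ∀ {c : Fin 4 → Bool} {T : Ty}, c 2 = c 3 → (∀ g ∈ T, gi g.1 * prm (swap 2 3) =
      prm (swap 2 3) * gi g.1) → (∀ b, ∀ v ∈ F, Rv π c v → Tv π (T ++ [sw 2 3 b]) v → v ∈ O) →
      ∀ v ∈ F, Rv π c v → Tv π T v → v ∈ O := fun {c T} e hT k v hv e1 e2 =>
    split (π (prm (swap 2 3)) v) fun b => k b _ (add_mem hv (F.smul_mem _ (hF (.inl _) v hv)))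
      (e1.comb (by
        convert e1.prm (swap 2 3) using 1
        ext i
        fin_cases i <;> simp [swap_apply_def, e]) _) fun g hg => by
      rcases List.mem_append.1 hg with u | u
      · rw [map_add, map_smul, pi_mul, hT g u, ← pi_mul, e2 g u, map_smul, smul_add, smul_comm]
      · obtain rfl := List.mem_singleton.1 u
        exact inv_eig (sw_sq 2 3) b v
  have k : ∀ c, ∀ v ∈ F, Rv π c v → v ∈ O := fun c v hv e => by
    have : (∃ b, c = fun _ => b) ∨ (∃ x y : Fin 4, c ∘ (swap 0 x * swap 1 y).symm =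
        ![true, true, false, false]) ∨ Det (RG.Q4.En.Ty.rf (c 0) (c 1) (c 2) (c 3) ++ []) [] := by
      clear e
      revert c
      decide +kernel
    rcases this with ⟨_ | _, rfl⟩ | ⟨x, y, u⟩ | u
    · refine dec_all hF hO false (fun v hv e e' => h v hv .s (e.tv e')) (s23 rfl (by
        simp [sw, gi, prm_mul]; congr 1; decide) ?_) hv e
      rintro (_ | _) v hv e e'
      exacts [h v hv .t3 (e.tv e'), h v hv .w2 (e.tv e')]
    · refine dec_all hF hO true (fun v hv e e' => h v hv .q (e.tv e')) (fun v hv e e' =>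
        of_prm hO (swap 0 2 * swap 1 3) (h _ (hF (.inl _) v hv) .w2p ((e.prm _).tv ?_))) hv e
      have := congrArg (π (prm (swap 0 2 * swap 1 3))) (e' _ (List.mem_singleton_self _))
      simp only [Tv, List.forall_mem_singleton, sw, gi, pi_mul, prm_mul, map_smul] at this ⊢
      convert this using 4 <;> decide
    · refine of_prm hO _ (s23 (T := []) rfl (by simp) ?_ _ (hF (.inl _) v hv) (u ▸ e.prm _)
        (by simp [Tv]))
      rintro (_ | _) v hv e e'
      exacts [h v hv .t6 (e.tv e'), h v hv .w6 (e.tv e')]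
    · exact h0 v hv _ u (fun i => ⟨c i, by fin_cases i <;> simp [RG.Q4.En.Ty.rf]⟩)
        (e.tv (by simp [Tv]))
  have k' : ∀ s : Finset (Fin 4), ∀ c : Fin 4 → Bool, ∀ v ∈ F,
      (∀ μ ∉ s, π (rfL μ) v = (sb (c μ) : ℝ) • v) → v ∈ O := fun s => by
    induction s using Finset.induction_on with
    | empty => exact fun c v hv e => k c v hv fun μ => e μ (by simp)
    | insert ν s hs ih =>
      refine fun c v hv e => split (π (rfL ν) v) fun b => ih (Function.update c ν b) _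
        (add_mem hv (F.smul_mem _ (hF (.inr ν) v hv))) fun μ u => ?_
      rcases eq_or_ne μ ν with rfl | ne
      · rw [Function.update_self, inv_eig (rf_sq μ)]
      · rw [Function.update_of_ne ne, map_add, map_smul, pi_mul, rf_comm, ← pi_mul,
          e μ (by simp [u, ne]), map_smul, smul_add, smul_comm]
  exact fun v hv => k' Finset.univ (fun _ => false) v hv (by simp)

end Pool.Agent.Lib.MP_7f377f_mp.Cm
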