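import Pool.Agent.Lib.MP_7f377f_mp.G.NsE3

/-! The input for the product of two composite fields. -/

noncomputable section

set_option linter.unusedSectionVars false
variable [Pool.Agent.Lib.MP_7f377f_mp.GD]

namespace Pool.Agent.Lib.MP_7f377f_mp.RG.Q4.En.Rn

open YM7 Filter Topology Real Pur Set Ope

variable {G : Gl} {β : ℕ × ℕ → ℝ} {U : Ultrafilter (ℕ × ℕ)}
  {S₀ : ∀ {k : ℕ}, (Fin k → R4 → ℝ) → ℝ} {S : Pol →ₗ[ℂ] ℂ} (R : Rn G β U S₀ S)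
include R

theorem kin2 {Λ δ : ℝ} (Λ1 : 1 ≤ Λ) (δ0 : 0 < δ) {u : Fin 2 → R4 → ℝ} (hu : Adm u) :
    ∃ ρ Z K, Cm.Kin2 S Λ δ 50⁻¹ 100⁻¹ (G.Kk β U Λ δ) ρ u Z K :=
  Gl.Lm.kin2 (G := G.wm 0) ⟨R.lm.ok, R.lm.tu, R.lm.st, R.lm.lim⟩ (R.ok 0).1 Λ1 δ0 hu fun q =>
    (R.win2 Λ1 δ0 q).imp fun _ w => ⟨w.1, w.2, w.3, w.4, w.5, w.6, w.7, w.8⟩

end Pool.Agent.Lib.MP_7f377f_mp.RG.Q4.En.Rn
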