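import Pool.Agent.Lib.MP_7f377f_mp.G.OpQ
import Pool.Agent.Lib.MP_7f377f_mp.G.OpG
import Pool.Agent.Lib.MP_7f377f_mp.G.CmA

/-! The operator product expansion: definitions of the soft part. -/

noncomputable section

namespace Pool.Agent.Lib.MP_7f377f_mp.Cm
variable [Pool.Agent.Lib.MP_7f377f_mp.GD]
set_option linter.unusedSectionVars false

open Filter Topology Set Real YM7 Pur MvPolynomial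
open Ope (gp sc ctr Mx Dt)
open Ro (Iso act)
open Lb (Lab Pl Cl rho mx pc)
open RG.Q4.En.Ty (Gn Ty sb Det)

/-- scale, inner scale, mesh -/
abbrev Ix : Type := ℝ × ℝ × ℕ

/-- first the mesh, then the scale go to zero -/
def Ps : Filter Ix := (𝓝[>] 0).bind fun t => (𝓟 (Ioc 0 t)).bind fun d => UU.map fun e => (t, d, e)

theorem ev_Ps {Q : Ix → Prop} : (∀ᶠ p in Ps, Q p) ↔
    ∀ᶠ t in 𝓝[>] (0 : ℝ), ∀ d ∈ Ioc 0 t, ∀ᶠ e in UU, Q (t, d, e) := by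
  simp only [Ps, eventually_bind, eventually_principal, eventually_map]

/-- the first dyadic scale below `t` -/
def nn (t : ℝ) : ℕ := ⌈logb 2 t⁻¹⌉₊

/-- the normalised word at the scale `d` -/
def nw (m : ℕ) (t d : ℝ) (A : Pol) : Pol := ((log t⁻¹ ^ m / d ^ 4 : ℝ) : ℂ) • sh d 0 A

/-- words with their label -/
def Wn (m : ℕ) (Λ δ C : ℝ) (A : Pol) (b : Lab ℝ) : Prop :=
  ∃ (ι : Type) (s : Finset ι) (c : ι → ℝ) (u : ι → Fin m → R4 → ℝ), ∑ a ∈ s, |c a| ≤ C ∧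
    (∀ a ∈ s, Tw Λ δ (u a)) ∧ A = ∑ a ∈ s, (c a : ℂ) • mon (u a) ∧
      b = ∑ a ∈ s, c a • Bu (GD.d / 2) (u a)

variable (h : R4 → ℝ) (ω : ∀ l : Cl, (Fin l.m → R4) → Lab ℝ) (S : Pol →ₗ[ℂ] ℂ)

/-- the reference field at the scale `t` -/
def Rf (t : ℝ) (e : ℕ) (c : Lab ℝ) (f : R4 → ℝ) : Pol :=
  ∑ l, ((log t⁻¹ ^ l.m / gm ^ l.m : ℝ) : ℂ) • Yc h ω S l (dn (nn t)) e (cx c) f

/-- the family `B` has the label `b` when it is probed at the scale `r t * t` -/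
def Law (r : ℝ → ℝ) {J : Type} (Φ : Filter J) (ι : J → Ix) (B : J → Pol) (b : Lab ℝ) : Prop :=
  ∀ (l : Cl) (c : Lab ℝ) (f : Fin 2 → R4 → ℝ), Adm f → Tendsto (fun p =>
    ((log (r (ι p).1 * (ι p).1)⁻¹ ^ l.m : ℝ) : ℂ) *
      S (ctr S (Yl (B p) 1 (ι p).2.2 (sc (r (ι p).1 * (ι p).1) (f 0))) *
        Yc h ω S l (dn (nn (ι p).1)) (ι p).2.2 (cx c) (sc (r (ι p).1 * (ι p).1) (f 1)))) Φ
    (𝓝 (((gm ^ l.m : ℝ) : ℂ) * frI ![cx b, cx (pc l c)] f))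

/-- the family `B` is the reference field with the label `C` up to a power of the scale -/
def Ap (a : ℝ) {J : Type} (Φ : Filter J) (ι : J → Ix) (B : J → Pol) (C : J → Lab ℝ) : Prop :=
  ∀ f Z, Dt f Z → ∃ R K, ∀ᶠ p in Φ, net.QB S ((ctr S (Yl (B p) 1 (ι p).2.2 f) -
    Rf h ω S (ι p).1 (ι p).2.2 (C p) f) * Z) R (K * (ι p).1 ^ a)

/-- words `Z` of a given size, words `K` without marginal part -/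
structure Kab (Λ δ a : ℝ) (r : ℝ → ℝ) (Z : Ix → Pol → ℝ → Prop) (K : Ix → Pol → Prop) : Prop where
  smul : ∀ {p B x} (c : ℝ), Z p B x → Z p ((c : ℂ) • B) (|c| * x)
  add : ∃ L, ∀ {p B x B' x'}, Z p B x → Z p B' x' → Z p (B + B') (L * (x + x'))
  mono : ∀ {p B x x'}, Z p B x → x ≤ x' → Z p B x'
  act : ∀ {p B x} (g : Gn), Z p B x → Z p (act (gi g) B) x
  kact : ∀ {p B} (g : Gn), K p B → K p (Ro.act (gi g) B)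
  loc : ∃ ρ, ∀ᶠ p in Ps, ∀ B x, Z p B x → B ∈ net.loc (Bx (ρ * p.1)) ∧
    ∀ μ, net.Θ μ B = Ro.act (rfL μ) B
  wd : ∀ᶠ p in Ps, ∀ m A, 1 ≤ m → m ≤ 5 → Wo m Λ δ A → ∀ d ∈ Icc (p.1 / 2) p.1, Z p (nw m p.1 d A) 1
  ex : ∀ᶠ p in Ps, ∀ T E B B', Det T E → E.length ≤ 1 → (∀ i, ∃ χ, (.inr i, χ) ∈ T) → Z p B 1 →
    Z p B' 1 → Typ T B → Typ T B' → ∃ c c' : ℝ, |c| + |c'| = 1 ∧ K p ((c : ℂ) • B + (c' : ℂ) • B')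
  ex0 : ∀ᶠ p in Ps, ∀ T B, Det T [] → (∀ i, ∃ χ, (.inr i, χ) ∈ T) → Z p B 1 → Typ T B → K p B
  mix : ∀ s : ℕ, ∃ᶠ e₀ in atTop, ∃ C, ∀ᶠ p in Ps, ∀ B, K p B →
    Mx S (Yl B 1 p.2.2) e₀ (3 ^ (e₀ + s))⁻¹ C (p.1 ^ a)
  win : ∃ W, Tsc S W ∧ (∀ M, ∀ᶠ D in 𝓝[>] (0 : ℝ), ∀ r, W D r → M ≤ r) ∧
    ∀ᶠ t in 𝓝[>] (0 : ℝ), W (r t * t) (r t)
  lim : Tendsto (fun t => r t * t) (𝓝[>] 0) (𝓝[>] 0)
  lg : ∀ᶠ t in 𝓝[>] (0 : ℝ), r t ≤ log (r t * t)⁻¹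
  prb : ∀ f : Fin 2 → R4 → ℝ, Adm f → ∀ η > 0, ∀ᶠ p in Ps, ∀ B, K p B → ∀ m A, 1 ≤ m → m ≤ 5 →
    Wo m Λ δ A → ∀ d ∈ Icc (p.1 / 2) p.1, ‖((log (r p.1 * p.1)⁻¹ ^ m : ℝ) : ℂ) *
      S (ctr S (Yl B 1 p.2.2 (sc (r p.1 * p.1) (f 0))) *
        ctr S (Yl A d p.2.2 (sc (r p.1 * p.1) (f 1))))‖ ≤ η

/-- arrays of slots and long windows -/
structure Kx (Λ δ a : ℝ) (Kl : ℝ → ℝ → ℕ → Sl → Prop) : Prop where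
  mix : ∀ s : ℕ, ∃ᶠ e₀ in atTop, ∃ C, ∀ᶠ d in 𝓝[>] (0 : ℝ), ∀ d' ∈ Icc (d / 2) d, ∀ᶠ e in atTop,
    ∀ v : Sl, v.Ok 5 Λ δ → Mx S (v.Y d d' e) e₀ (3 ^ (e₀ + s))⁻¹ C d⁻¹ ∧
      (Kl d d' e v → Mx S (v.Y d d' e) e₀ (3 ^ (e₀ + s))⁻¹ C (d ^ a))
  lng : ∃ W, Wnd W ∧ Tsc S W ∧ (∀ j ≤ 2, ∀ f : Fin j → R4 → ℝ, Adm f → Clu S Λ δ a Kl W f) ∧
    ∀ ε > 0, ∀ᶠ t in 𝓝[>] (0 : ℝ), ∃ ρ r, 0 < r ∧ r * t < ε ∧ W t ρ ∧ W (r * t) r ∧ W (r * t) (r * ρ)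

/-- the reference fields are the fields `O` with the labels `M t c` -/
structure Rl (a : ℝ) (O : ℕ × ℕ → Lab ℂ → (R4 → ℝ) → Pol) (N : Cl → ℝ → ℝ)
    (μ : Lb.Tp → ℝ → ℝ) : Prop where
  rat : ∀ τ, Tendsto (fun t => μ τ t / N τ.cl t) (𝓝[>] 0) (𝓝 1)
  qb : ∀ f Z, Dt f Z → ∃ R K, ∀ᶠ t in 𝓝[>] (0 : ℝ), ∀ᶠ j in atTop.curry UU, ∀ c : Lab ℝ,
    (∀ x y, |c x y| ≤ 1) → net.QB S ((Rf h ω S t j.2 c f -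
      O j (cx (∑ τ, μ τ t • Lb.pt τ c)) f) * Z) R (K * t ^ a)

end Pool.Agent.Lib.MP_7f377f_mp.Cm
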