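import Pool.Agent.Lib.MP_7f377f_mp.G.OpB
import Pool.Agent.Lib.MP_7f377f_mp.G.OpC

/-! Sizes of products of two composites. -/

noncomputable section

namespace Pool.Agent.Lib.MP_7f377f_mp.Cm
variable [Pool.Agent.Lib.MP_7f377f_mp.GD]
set_option linter.unusedSectionVars false

open MeasureTheory Filter Topology Set Real YM7 Pur MvPolynomial
open Ope (sc ctr Dt)
open Lb (Lab Cl pc pa)

variable {S : Pol →ₗ[ℂ] ℂ} {K₀ Λ δ a₀ a : ℝ} {h : R4 → ℝ} {ω : ∀ l : Cl, (Fin l.m → R4) → Lab ℝ}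
  {ρ : ℝ → ℝ} {Z : Ix → Pol → ℝ → Prop} {K : Ix → Pol → Prop} {J : Type} {Φ : Filter J}
  {ι : J → Ix} {Kl : ℝ → ℝ → ℕ → Sl → Prop} {u : Fin 2 → R4 → ℝ}

theorem geo_sum {v : ℕ → ℝ} {n₀ : ℕ} {b : ℝ} (b1 : b < 1) (v0 : ∀ n, 0 ≤ v n)
    (hv : ∀ n ≥ n₀, v (n + 1) ≤ b * v n) {n : ℕ} (hn : n₀ ≤ n) :
    ∑ i ∈ Finset.Ico n₀ n, v i ≤ v n₀ / (1 - b) := by
  have : (1 - b) * ∑ i ∈ Finset.Ico n₀ n, v i ≤ v n₀ - v n := by
    induction n, hn using Nat.le_induction with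
    | base => simp
    | succ m hm ih =>
      rw [Finset.sum_Ico_succ_top hm]
      linarith [hv m hm]
  rw [le_div_iff₀' (by linarith)]
  linarith [v0 n]

theorem Kab.sum' (I : Kab S Λ δ a ρ Z K) {A : Type} (s : Finset A) (hs : s.Nonempty) :
    ∃ L, 0 ≤ L ∧ ∀ p (B : A → Pol) x, 0 ≤ x → (∀ i, Z p (B i) x) → Z p (∑ i ∈ s, B i) (L * x) := by
  obtain ⟨L₀, h0⟩ := I.add
  induction hs using Finset.Nonempty.cons_induction with
  | singleton i => exact ⟨1, zero_le_one, fun p B x _ e => by simpa using e i⟩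
  | cons i s hi _ ih =>
    obtain ⟨L, L0, hL⟩ := ih
    refine ⟨|L₀| * (1 + L), by positivity, fun p B x x0 e => ?_⟩
    rw [Finset.sum_cons]
    refine I.mono (h0 (e i) (hL p B x x0 e)) ?_
    rw [mul_assoc, add_mul, one_mul]
    exact mul_le_mul_of_nonneg_right (le_abs_self _) (by positivity)

theorem Kab.add' (I : Kab S Λ δ a ρ Z K) : ∃ L, 0 ≤ L ∧ ∀ {p B B' x}, 0 ≤ x → Z p B x →
    Z p B' x → Z p (B + B') (L * x) := by
  obtain ⟨L, L0, e⟩ := I.sum' (Finset.univ : Finset Bool) Finset.univ_nonempty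
  exact ⟨L, L0, fun {p B B' x} x0 u v => by
    simpa using e p (cond · B B') x x0 (by simp [u, v])⟩

/-- small families have the label zero -/
theorem Kin2.law0 (I : Kin2 S Λ δ a₀ a Kl ρ u Z K) (H : Dat (GD.d / 2) h ω Λ δ)
    (hι : Tendsto ι Φ Ps) {B : J → Pol} {x : J → ℝ} (hB : ∀ᶠ p in Φ, 0 < x p ∧ Z (ι p) (B p) (x p))
    (hx : Tendsto (fun p => x p * ρ (ι p).1 ^ (a / 2)) Φ (𝓝 0)) : Law h ω S ρ Φ ι B 0 := by
  intro l c f hf
  obtain ⟨C, C0, hC⟩ := Zc_wo H l c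
  have e : frI ![cx 0, cx (pc l c)] f = 0 := by
    have := frI_cx ![0, pc l c] f
    simp only [← Lb.frM_apply, (Lb.frM _ _).map_coord_zero (m := ![0, pc l c]) 0 rfl, mul_zero,
      integral_zero, Complex.ofReal_zero] at this
    convert this using 2
    funext i
    fin_cases i <;> rfl
  rw [e, mul_zero]
  refine squeeze_zero_norm' ?_ (by simpa using hx.const_mul C)
  filter_upwards [hB, hι (I.two f hf), (I.lim.comp (Ps_fst.comp hι)).eventually self_mem_nhdsWithin,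
    (Ps_fst.comp hι).eventually (Ioc_mem_nhdsGT one_pos)] with p ⟨x0, z⟩ e1 (D0 : 0 < ρ (ι p).1 * (ι p).1) t0
  have e2 := e1 _ (I.mono (I.smul (x p)⁻¹ z) (by rw [abs_inv, abs_of_pos x0, inv_mul_cancel₀ x0.ne']))
    _ _ (Cl_m l) (by cases l <;> simp [Cl.m]) (hC (ι p).2.2) _ (dn_nn t0)
  rw [Yl_smul (sc_cpt (hf.1 0).1 D0), Yl_smul (sc_cpt (hf.1 1).1 D0), ctr_smul, ctr_smul,
    smul_mul_smul_comm, map_smul, smul_eq_mul, mul_left_comm, norm_mul, ← Complex.ofReal_mul,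
    Complex.norm_real, norm_of_nonneg (by positivity), ← mul_inv, inv_mul_le_iff₀ (by positivity)] at e2
  exact e2.trans_eq (by ring)

variable (H : Dat (GD.d / 2) h ω Λ δ) {f : R4 → ℝ} (hf : HasCompactSupport f)
include H hf

theorem Rf_map (t : ℝ) (e : ℕ) : ∃ L : Lab ℝ →ₗ[ℝ] Pol, ∀ c, L c = Rf h ω S t e c f := by
  have z : ∀ l d, Yc h ω S l d e 0 f = 0 := fun l d => by
    simpa using Yc_linc H hf (S := S) (l := l) (d := d) (e := e) (-1) 0 0
  refine ⟨⟨⟨fun c => Rf h ω S t e c f, fun b c => ?_⟩, fun x c => ?_⟩, fun _ => rfl⟩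
  · have := fun l d => Yc_linc H hf (S := S) (l := l) (d := d) (e := e) 1 (cx b) (cx c)
    simp only [one_smul] at this
    simp only [Rf, cx_add, this, smul_add, Finset.sum_add_distrib]
  · have := fun l d => Yc_linc H hf (S := S) (l := l) (d := d) (e := e) x (cx c) 0
    simp only [add_zero, z] at this
    simp only [Rf, cx_smul, this, RingHom.id_apply, Finset.smul_sum, smul_comm (x : ℂ)]
    simp only [Complex.coe_smul, smul_comm x]

omit H in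
theorem cY_lin (d : ℝ) (e : ℕ) : ∃ L : Pol →ₗ[ℂ] Pol, ∀ B, L B = ctr S (Yl B d e f) :=
  ⟨⟨⟨fun B => ctr S (Yl B d e f), fun _ _ => by rw [Yl_add hf, ctr_add]⟩, fun _ _ => by
    simp only [Yl_smul hf, ctr_smul, RingHom.id_apply]⟩, fun _ => rfl⟩

/-- combinations of expansions -/
theorem qb_comb (hS : net.St S) {A : Type} (s : Finset A) {B : A → Pol} {C : A → Lab ℝ}
    (x : A → ℝ) {Y : Pol} {t R η : ℝ} {e : ℕ} (R0 : 0 ≤ R) (hq : ∀ i ∈ s,
      net.QB S ((ctr S (Yl (B i) 1 e f) - Rf h ω S t e (C i) f) * Y) R η) :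
    net.QB S ((ctr S (Yl (∑ i ∈ s, (x i : ℂ) • B i) 1 e f) - Rf h ω S t e (∑ i ∈ s, x i • C i) f) * Y)
      R ((∑ i ∈ s, |x i|) * η) := by
  obtain ⟨L, hL⟩ := Rf_map (S := S) H hf t e
  obtain ⟨L', hL'⟩ := cY_lin (S := S) hf 1 e
  have := Net.QB.sum hS s R0 fun i hi => (hq i hi).smul (x i)
  simp only [← hL, ← hL', Complex.norm_real, norm_eq_abs] at this ⊢
  simpa only [map_sum, map_smul, ← Finset.sum_sub_distrib, Finset.sum_mul, ← Complex.coe_smul,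
    ← smul_sub, smul_mul_assoc] using this

end Pool.Agent.Lib.MP_7f377f_mp.Cm
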