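import Pool.Agent.Lib.MP_7f377f_mp.G.OpM
import Pool.Agent.Lib.MP_7f377f_mp.G.Op3s

/-! The product of two normalised composites: telescoping below the scale of the product. -/

noncomputable section

namespace Pool.Agent.Lib.MP_7f377f_mp.Cm
variable [Pool.Agent.Lib.MP_7f377f_mp.GD]
set_option linter.unusedSectionVars false

open MeasureTheory Filter Topology Set Real YM7 Pur MvPolynomial
open Ope (sc ctr Dt)
open Lb (Lab Cl pc pa)
open scoped Matrix.Norms.Elementwise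

variable {S : Pol →ₗ[ℂ] ℂ} {K₀ Λ δ a₀ a : ℝ} {h : R4 → ℝ} {ω : ∀ l : Cl, (Fin l.m → R4) → Lab ℝ}
  {ρ : ℝ → ℝ} {Z : Ix → Pol → ℝ → Prop} {K : Ix → Pol → Prop}
  {Kl : ℝ → ℝ → ℕ → Sl → Prop} {u : Fin 2 → R4 → ℝ} {Tp : Type} [Fintype Tp] {cl : Tp → Cl}
  {ref : Tp → Lab ℝ} {A : Tp → Equiv.Perm (Fin 4) → ℕ → Pol} {γ : Tp → ℕ → ℕ → Bool → ℝ}
  {g : Tp → ℕ → Bool → ℝ} {τ τ' : Tp} {c c' : Lab ℝ}

variable (S h ω u c c') in
/-- the product of two combinations -/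
def PW (l l' : Cl) (t : ℝ) (n e : ℕ) (v v' : Bool → ℝ) : Pol :=
  ((log t⁻¹ ^ (l.m + l'.m) / t ^ 4 : ℝ) : ℂ) •
    (Yw h ω S l n e v c (sc t (u 0)) * Yw h ω S l' n e v' c' (sc t (u 1)))

theorem PW_lin {l l' : Cl} {t : ℝ} {n e : ℕ} (x : ℝ) (v w v' : Bool → ℝ) :
    PW S h ω u c c' l l' t n e (v + x • w) v' =
      PW S h ω u c c' l l' t n e v v' + (x : ℂ) • PW S h ω u c c' l l' t n e w v' ∧
    PW S h ω u c c' l l' t n e v' (v + x • w) =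
      PW S h ω u c c' l l' t n e v' v + (x : ℂ) • PW S h ω u c c' l l' t n e v' w := by
  have : ∀ l c f, Yw h ω S l n e (v + x • w) c f =
      Yw h ω S l n e v c f + (x : ℂ) • Yw h ω S l n e w c f := fun l c f => by
    simp [Yw, add_smul, mul_smul, add_add_add_comm]
  simp only [PW, this, add_mul, mul_add, smul_add, smul_mul_assoc, mul_smul_comm,
    smul_comm (x : ℂ), and_self]

variable (I : Kin2 S Λ δ a₀ a Kl ρ u Z K) (Q : Sq cl ref h ω S Λ δ Kl A γ g) (hu : Adm u)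
  (hc : c ∈ Vs (ref τ)) (hc' : c' ∈ Vs (ref τ'))
include I Q hu hc hc'

theorem Kin2.pw₀ : ∃ C ≥ 0, ∀ᶠ t in 𝓝[>] (0 : ℝ), ∀ n, dn n ≤ t / ρ t → ∀ᶠ e in UU,
    ∀ v v' : Bool → ℝ, |v false| + |v true| ≤ 1 → |v' false| + |v' true| ≤ 1 →
      Z (t, dn n, e) (PW S h ω u c c' (cl τ) (cl τ') t n e v v') (C * (t / ρ t / dn n)) ∧
      (v = γ τ n e ∨ v' = γ τ' n e →
        Z (t, dn n, e) (PW S h ω u c c' (cl τ) (cl τ') t n e v v') (C * (dn n / t) ^ a)) := by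
  obtain ⟨x, hx⟩ := Q.exp τ c hc
  obtain ⟨y, hy⟩ := Q.exp τ' c' hc'
  obtain ⟨L, L0, hL⟩ := I.toKab.sum' (Finset.univ : Finset (Equiv.Perm (Fin 4) × Equiv.Perm (Fin 4)))
    Finset.univ_nonempty
  obtain ⟨M, hM⟩ : ∃ M, M = ∑ σ : Equiv.Perm (Fin 4) × Equiv.Perm (Fin 4), |x σ.1 * y σ.2| :=
    ⟨_, rfl⟩
  have M0 : 0 ≤ M := hM ▸ by positivity
  refine ⟨L * M, by positivity, ?_⟩
  filter_upwards [ev_Ps.1 I.pair, I.toKab.lgr.2.eventually_ge_atTop 1, self_mem_nhdsWithin]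
    with t e1 r1 (t0 : 0 < t) n hn
  have d0 := dn_pos n
  filter_upwards [e1 _ ⟨d0, hn.trans (div_le_self t0.le r1)⟩] with e e2 v v' hv hv'
  have e3 := fun σ σ' => e2 hn _ (dn_mem n) _ _ (ok_of (Q.wo τ σ e) hv) (ok_of (Q.wo τ' σ' e) hv')
  have key : ∀ {z}, 0 ≤ z → (∀ σ σ', Z (t, dn n, e) (Pw S u (t, dn n, e) (dn (n + 1))
      ⟨(cl τ).m, A τ σ e, A τ σ e, v false, v true⟩
      ⟨(cl τ').m, A τ' σ' e, A τ' σ' e, v' false, v' true⟩) z) →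
      Z (t, dn n, e) (PW S h ω u c c' (cl τ) (cl τ') t n e v v') (L * M * z) := fun {z} z0 q => by
    have := hL _ _ (M * z) (by positivity) fun σ => I.mono (I.smul (x σ.1 * y σ.2) (q σ.1 σ.2))
      (mul_le_mul_of_nonneg_right (hM ▸ Finset.single_le_sum (f := fun σ : _ × _ => |x σ.1 * y σ.2|)
        (fun _ _ => abs_nonneg _) (Finset.mem_univ σ)) z0)
    rw [← mul_assoc] at this
    convert this using 1
    simp only [PW, Pw, hx _ _ _ _ (sc_cpt (hu.1 0).1 t0), hy _ _ _ _ (sc_cpt (hu.1 1).1 t0),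
      Finset.sum_mul_sum, Fintype.sum_prod_type, Finset.smul_sum, smul_mul_smul_comm,
      Complex.ofReal_mul, smul_comm ((x _ : ℂ) * _)]
  refine ⟨key (by positivity) fun σ σ' => (e3 σ σ').1, fun q => key (by positivity) fun σ σ' =>
    (e3 σ σ').2 (q.imp ?_ ?_)⟩ <;> rintro rfl
  exacts [Q.kil .., Q.kil ..]

theorem Kin2.pw : ∃ C ≥ 0, ∀ᶠ t in 𝓝[>] (0 : ℝ), ∀ n, dn n ≤ t / ρ t → ∀ᶠ e in UU,
    ∀ v : Bool → ℝ, |v false| + |v true| ≤ 1 →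
      Z (t, dn n, e) (PW S h ω u c c' (cl τ) (cl τ') t n e (g τ n) v) (C * (dn n / t) ^ a) ∧
      Z (t, dn n, e) (PW S h ω u c c' (cl τ) (cl τ') t n e v (g τ' n)) (C * (dn n / t) ^ a) := by
  obtain ⟨C, C0, h1⟩ := I.pw₀ Q hu hc hc'
  obtain ⟨L, L0, hL⟩ := I.toKab.add'
  refine ⟨L * C, by positivity, ?_⟩
  filter_upwards [h1, I.toKab.lgr.2.eventually_gt_atTop 0, self_mem_nhdsWithin]
    with t e1 r0 (t0 : 0 < t) n hn
  have d0 := dn_pos n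
  obtain ⟨s, hs⟩ : ∃ s, s = (dn n / t) ^ a / (t / ρ t / dn n) := ⟨_, rfl⟩
  have s0 : 0 < s := hs ▸ by positivity
  have sm : ∀ τ, ∀ᶠ e in UU, |(s⁻¹ • (g τ n - γ τ n e)) false| + |(s⁻¹ • (g τ n - γ τ n e)) true| ≤ 1 :=
    fun τ => (((((Q.lim τ n false).const_sub (g τ n false)).const_mul s⁻¹).abs.add
      (((Q.lim τ n true).const_sub (g τ n true)).const_mul s⁻¹).abs).eventually_le_const
        (by simp)).mono fun e he => he
  have id : ∀ τ e, g τ n = γ τ n e + s • s⁻¹ • (g τ n - γ τ n e) := fun τ e => by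
    rw [smul_inv_smul₀ s0.ne', add_sub_cancel]
  have sz : |s| * (C * (t / ρ t / dn n)) ≤ C * (dn n / t) ^ a := by
    rw [abs_of_pos s0, hs, mul_left_comm, div_mul_cancel₀ _ (by positivity)]
  filter_upwards [e1 n hn, sm τ, sm τ'] with e e2 e3 e4 v hv
  rw [mul_assoc, id τ e, id τ' e, (PW_lin ..).1, (PW_lin ..).2]
  exact ⟨hL (by positivity) ((e2 _ _ (Q.nrm τ n e).le hv).2 (.inl rfl))
    (I.mono (I.smul s (e2 _ _ e3 hv).1) sz), hL (by positivity)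
      ((e2 _ _ hv (Q.nrm τ' n e).le).2 (.inr rfl)) (I.mono (I.smul s (e2 _ _ hv e4).1) sz)⟩

omit I Q hu hc hc'

/-- the first dyadic scale below `t / ρ t` -/
def mm (ρ : ℝ → ℝ) (t : ℝ) : ℕ := ⌈logb 2 (ρ t / t)⌉₊

/-- first the mesh, then the inner scale, then the scale go to zero -/
abbrev Pn3 : Filter (ℝ × ℕ × ℕ) := (𝓝[>] 0).curry (atTop.curry UU)

/-- all inner scales below `t / ρ t` -/
def Pi3 (ρ : ℝ → ℝ) : Filter (ℝ × ℕ × ℕ) :=
  (𝓝[>] 0).bind fun t => (𝓟 (Ici (mm ρ t))).bind fun n => UU.map fun e => (t, n, e)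

/-- the index of the scales -/
def ix (p : ℝ × ℕ × ℕ) : Ix := (p.1, dn p.2.1, p.2.2)

theorem ev_Pi3 {Q : ℝ × ℕ × ℕ → Prop} : (∀ᶠ p in Pi3 ρ, Q p) ↔
    ∀ᶠ t in 𝓝[>] (0 : ℝ), ∀ n ≥ mm ρ t, ∀ᶠ e in UU, Q (t, n, e) := by
  simp only [Pi3, eventually_bind, eventually_principal, eventually_map, mem_Ici]

theorem Pi3_sum {Q : ℝ × ℕ × ℕ → Prop} (e : ∀ᶠ p in Pi3 ρ, Q p) :
    ∀ᶠ p in Pn3, mm ρ p.1 ≤ p.2.1 ∧ ∀ k ∈ Finset.Ico (mm ρ p.1) p.2.1, Q (p.1, k, p.2.2) := by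
  simp only [eventually_curry_iff]
  filter_upwards [ev_Pi3.1 e] with t e1
  filter_upwards [eventually_ge_atTop (mm ρ t)] with n hn
  exact .and (.of_forall fun _ => hn)
    ((eventually_all_finset _).2 fun k hk => e1 k (Finset.mem_Ico.1 hk).1)

theorem mm_win (top : Tendsto ρ (𝓝[>] 0) atTop) : Tendsto (mm ρ) (𝓝[>] 0) atTop ∧
    ∀ᶠ t in 𝓝[>] (0 : ℝ), 0 < t ∧ 1 ≤ ρ t ∧ dn (mm ρ t) ≤ t / ρ t ∧ t / (2 * ρ t) ≤ dn (mm ρ t) := by
  refine ⟨tendsto_nat_ceil_atTop.comp ((tendsto_logb_atTop one_lt_two).comp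
    (top.atTop_mul_atTop₀ tendsto_inv_nhdsGT_zero)), ?_⟩
  filter_upwards [Ioo_mem_nhdsGT one_pos, top.eventually_ge_atTop 1] with D hD h1
  have := dn_ceil (x := ρ D / D) ((one_le_div hD.1).2 (hD.2.le.trans h1))
  rw [inv_div, ← mul_div_assoc, inv_div] at this
  exact ⟨hD.1, h1, this⟩

variable (S h ω u c c' cl τ τ') in
/-- the product of two normalised composites -/
def P2 (lam : Tp → ℕ → ℝ) (t : ℝ) (n e : ℕ) : Pol :=
  ((log t⁻¹ ^ ((cl τ).m + (cl τ').m) / t ^ 4 : ℝ) : ℂ) •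
    (Yn cl h ω S lam τ n e c (sc t (u 0)) * Yn cl h ω S lam τ' n e c' (sc t (u 1)))

variable {lam : Tp → ℕ → ℝ} {y : ℕ → Tp → ℝ} {n₁ : ℕ} (L : Lq cl h ω S g lam y n₁)
  (hS : Sf S K₀) (H : Dat (GD.d / 2) h ω Λ δ) (a0 : 0 < a)
include I Q hu hc hc' hS H

theorem Kin2.head : ∃ C : ℝ × ℕ × ℕ → Lab ℝ, Tendsto C Pn3
    (𝓝 (pa (gm ^ ((cl τ).m + (cl τ').m) • BB (pc (cl τ) c) (pc (cl τ') c') u))) ∧
      Ap h ω S a Pn3 ix (fun p => PW S h ω u c c' (cl τ) (cl τ') p.1 (mm ρ p.1) p.2.2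
        (cond · 0 1) (cond · 0 1)) C := by
  obtain ⟨lg, top⟩ := I.toKab.lgr
  obtain ⟨C, C0, h1⟩ := I.pw₀ Q hu hc hc'
  have w := (mm_win top).2
  obtain ⟨F, f1, f2⟩ := I.toKab.coef H hS (x := C * 2) (Φ := (𝓝[>] (0 : ℝ)).curry UU)
    (ι := fun p => (p.1, dn (mm ρ p.1), p.2)) (tendsto_iff_eventually.2 fun s hs => eventually_curry_iff.2 <| by
      filter_upwards [ev_Ps.1 hs, w] with t e1 ⟨t0, r1, w1, _⟩
      exact e1 _ ⟨dn_pos _, w1.trans (div_le_self t0.le r1)⟩)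
    (eventually_curry_iff.2 <| by
      filter_upwards [h1, w] with t e1 ⟨t0, r1, w1, w2⟩
      filter_upwards [e1 _ w1] with e e2
      refine I.mono (by simpa [PW, Yw] using (e2 (cond · 0 1) (cond · 0 1) (by simp) (by simp)).1)
        (mul_le_mul_of_nonneg_left (b := t / ρ t / dn (mm ρ t)) ?_ C0)
      rwa [div_le_iff₀' (dn_pos _), ← div_le_iff₀ two_pos, div_div, mul_comm])
    (ts3_sm hS.inp.st H top lg I.ts3 (w.mono fun t ⟨t0, r1, w1, w2⟩ => ⟨(div_le_div_of_nonneg_left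
      t0.le (by positivity) (by linarith)).trans w2, w1⟩) (cl τ) (cl τ') c c' hu)
  have j : Tendsto (fun p : ℝ × ℕ × ℕ => (p.1, p.2.2)) Pn3 ((𝓝[>] 0).curry UU) := fun s hs =>
    eventually_curry_iff.2 ((eventually_curry_iff.1 hs).mono fun t e => eventually_curry_iff.2
      (.of_forall fun _ => e))
  refine ⟨_, f1.comp j, fun f Y b => ?_⟩
  obtain ⟨R, M, e⟩ := f2 f Y b
  exact ⟨R, M, by simpa [PW, Yw, ix] using j.eventually e⟩

include L a0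

theorem Kin2.tail : ∃ C : ℝ × ℕ × ℕ → Lab ℝ, Tendsto C (Pi3 ρ) (𝓝 0) ∧ Ap h ω S a (Pi3 ρ) ix
    (fun p => (((lam τ p.2.1 * lam τ' p.2.1 * (dn p.2.1 / p.1) ^ (a / 4))⁻¹ : ℝ) : ℂ) •
      (P2 S h ω u cl τ τ' c c' lam p.1 (p.2.1 + 1) p.2.2 -
        P2 S h ω u cl τ τ' c c' lam p.1 p.2.1 p.2.2)) C := by
  have top := I.toKab.lgr.2
  obtain ⟨C, C0, h1⟩ := I.pw Q hu hc hc'
  obtain ⟨M, M0, hM⟩ := I.toKab.add'
  obtain ⟨m1, w⟩ := mm_win top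
  have j : Tendsto ix (Pi3 ρ) Ps := fun s hs => ev_Pi3.2 <| by
    filter_upwards [ev_Ps.1 hs, w] with t e1 ⟨t0, r1, w1, _⟩ n hn
    exact e1 _ ⟨dn_pos _, ((dn_anti hn).trans w1).trans (div_le_self t0.le r1)⟩
  have k : ∀ᶠ p in Pi3 ρ, 0 < p.1 ∧ 1 ≤ ρ p.1 ∧ dn p.2.1 / p.1 ≤ (ρ p.1)⁻¹ := ev_Pi3.2 <| by
    filter_upwards [w] with t ⟨t0, r1, w1, _⟩ n hn
    refine .of_forall fun _ => ⟨t0, r1, (div_le_iff₀' t0).2 ((dn_anti hn).trans w1)⟩
  have z : ∀ᶠ p in Pi3 ρ, Z (ix p) ((((lam τ p.2.1 * lam τ' p.2.1 *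
      (dn p.2.1 / p.1) ^ (a / 4))⁻¹ : ℝ) : ℂ) • (P2 S h ω u cl τ τ' c c' lam p.1 (p.2.1 + 1) p.2.2 -
        P2 S h ω u cl τ τ' c c' lam p.1 p.2.1 p.2.2))
          ((M * 16 * C + 1) * (dn p.2.1 / p.1) ^ (3 * a / 4)) := ev_Pi3.2 <| by
    filter_upwards [h1, w, m1.eventually_ge_atTop n₁] with t e1 ⟨t0, r1, w1, _⟩ n1 n hn
    filter_upwards [e1 n ((dn_anti hn).trans w1)] with e e2
    have n2 := n1.trans hn
    have p := L.pos τ n
    have p' := L.pos τ' n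
    have q : 0 < dn n / t := div_pos (dn_pos n) t0
    have b1 : |y n τ * lam τ n * lam τ' (n + 1)| ≤ 16 * (lam τ n * lam τ' n) := by
      rw [abs_mul, abs_of_pos (L.pos _ _)]
      exact (mul_le_mul (L.le τ n n2) (L.le' n n2 τ') (L.pos _ _).le (by positivity)).trans_eq
        (by ring)
    have b2 : |lam τ n * (y n τ' * lam τ' n)| ≤ 16 * (lam τ n * lam τ' n) := by
      rw [abs_mul, abs_of_pos p]
      nlinarith [L.le τ' n n2]
    have := I.smul (lam τ n * lam τ' n * (dn n / t) ^ (a / 4))⁻¹ (hM (by positivity)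
      (I.mono (I.smul _ (e2 (cond · 1 0) (by simp)).1) (mul_le_mul_of_nonneg_right b1 (by positivity)))
      (I.mono (I.smul _ (e2 (cond · 0 1) (by simp)).2) (mul_le_mul_of_nonneg_right b2 (by positivity))))
    have y0 : ∀ f, Yn cl h ω S lam τ n e c f =
      (lam τ n : ℂ) • Yw h ω S (cl τ) n e (cond · 0 1) c f := by simp [Yn, Yw]
    have y1 : ∀ f, Yn cl h ω S lam τ' (n + 1) e c' f =
      (lam τ' (n + 1) : ℂ) • Yw h ω S (cl τ') n e (cond · 1 0) c' f := by simp [Yn, Yw]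
    rw [P2, P2, ← smul_sub, show ∀ a b c d : Pol, a * b - c * d = (a - c) * b + c * (b - d) from
      fun a b c d => by ring, L.dif τ n n2, L.dif τ' n n2, y0, y1, smul_add, smul_mul_smul_comm,
      smul_mul_smul_comm, smul_comm _ (_ * _ : ℂ), smul_comm _ (_ * _ : ℂ), ← Complex.ofReal_mul,
      ← Complex.ofReal_mul]
    refine I.mono this (le_trans (b := M * 16 * C * (dn n / t) ^ (3 * a / 4)) (le_of_eq ?_)
      (by gcongr; linarith))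
    rw [abs_of_pos (by positivity), show (dn n / t) ^ a = (dn n / t) ^ (a / 4) *
      (dn n / t) ^ (3 * a / 4) by rw [← rpow_add q]; congr 1; ring]
    field_simp
  have hx : Tendsto (fun p : ℝ × ℕ × ℕ => (M * 16 * C + 1) * (dn p.2.1 / p.1) ^ (3 * a / 4) *
      ρ (ix p).1 ^ (a / 2)) (Pi3 ρ) (𝓝 0) := by
    refine squeeze_zero' (k.mono fun p ⟨t0, r1, _⟩ => ?_) (k.mono fun p ⟨t0, r1, e⟩ => ?_) (by
      simpa using ((tendsto_rpow_neg_atTop (y := a / 4) (by positivity)).comp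
        (top.comp (Ps_fst.comp j))).const_mul (M * 16 * C + 1)) <;>
      have r0 : 0 < ρ (ix p).1 := one_pos.trans_le r1 <;> have := dn_pos p.2.1
    · positivity
    rw [mul_assoc]
    calc _ ≤ (M * 16 * C + 1) * ((ρ (ix p).1)⁻¹ ^ (3 * a / 4) * ρ (ix p).1 ^ (a / 2)) := by
          gcongr; exact e
      _ = _ := by
        rw [inv_rpow r0.le, ← rpow_neg r0.le, ← rpow_add r0]
        congr 2
        ring
  obtain ⟨F, f1, f2⟩ := I.toKab.coef H hS j (x := M * 16 * C + 1) ((z.and k).mono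
    fun p ⟨e, t0, r1, e'⟩ => I.mono e (mul_le_of_le_one_right (by positivity) (rpow_le_one
      (div_pos (dn_pos _) t0).le (e'.trans (inv_le_one_of_one_le₀ r1)) (by positivity))))
    (I.law0 H j ((z.and k).mono fun p ⟨e, t0, _⟩ =>
      ⟨by have := dn_pos p.2.1; positivity, e⟩) hx)
  exact ⟨F, by simpa [pa, Lb.sy] using f1, f2⟩

theorem Kin2.nest : ∃ C : ℝ × ℕ × ℕ → Lab ℝ, Tendsto C Pn3
    (𝓝 (pa (gm ^ ((cl τ).m + (cl τ').m) • BB (pc (cl τ) c) (pc (cl τ') c') u))) ∧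
      Ap h ω S a Pn3 ix (fun p => (((lam τ (mm ρ p.1) * lam τ' (mm ρ p.1))⁻¹ : ℝ) : ℂ) •
        P2 S h ω u cl τ τ' c c' lam p.1 p.2.1 p.2.2) C := by
  obtain ⟨C, c1, c2⟩ := I.head Q hu hc hc' hS H
  obtain ⟨F, f1, f2⟩ := I.tail Q hu hc hc' L hS H a0
  obtain ⟨m1, w⟩ := mm_win I.toKab.lgr.2
  obtain ⟨q, hq⟩ : ∃ q : ℝ, q = 2⁻¹ ^ (a / 4) := ⟨_, rfl⟩
  have q0 : 0 < q := hq ▸ by positivity
  have q1 : q < 1 := hq ▸ rpow_lt_one (by norm_num) (by norm_num) (by positivity)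
  obtain ⟨n₂, h2⟩ := eventually_atTop.1 (((L.rat τ).mul (L.rat τ')).eventually_le_const
    (u := (1 + q) / 2 / q) (by rw [one_mul, one_lt_div q0]; linarith))
  obtain ⟨v, hv⟩ : ∃ v : ℝ → ℕ → ℝ, ∀ t k, v t k = (lam τ (mm ρ t) * lam τ' (mm ρ t))⁻¹ *
    (lam τ k * lam τ' k * (dn k / t) ^ (a / 4)) := ⟨_, fun _ _ => rfl⟩
  have p := L.pos
  have fst : Tendsto Prod.fst Pn3 (𝓝[>] 0) := tendsto_fst.mono_left curry_le_prod
  have sm : ∀ᶠ p in Pn3, 0 < p.1 ∧ (mm ρ p.1 ≤ p.2.1 →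
      ∑ k ∈ Finset.Ico (mm ρ p.1) p.2.1, |v p.1 k| ≤ (1 - (1 + q) / 2)⁻¹) := by
    filter_upwards [fst.eventually w, fst.eventually (m1.eventually_ge_atTop n₂)]
      with ⟨t, n, e⟩ ⟨t0, r1, w1, _⟩ n2
    have v0 : ∀ k, 0 ≤ v t k := fun k => by
      have := dn_pos k
      rw [hv]
      exact mul_nonneg (inv_pos.2 (mul_pos (p ..) (p ..))).le
        (mul_nonneg (mul_pos (p ..) (p ..)).le (by positivity))
    refine ⟨t0, fun hn => ?_⟩
    simp only [abs_of_nonneg (v0 _)]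
    refine (geo_sum (b := (1 + q) / 2) (by linarith) v0 (fun k hk => ?_) hn).trans ?_
    · have := h2 k (n2.trans hk)
      have d0 := dn_pos k
      rw [div_mul_div_comm, div_le_div_iff₀ (mul_pos (p ..) (p ..)) q0] at this
      rw [hv, hv, dn_succ, mul_div_right_comm, mul_rpow (by positivity) (by norm_num), ← hq,
        mul_left_comm ((1 + q) / 2), mul_comm _ q, ← mul_assoc _ q, ← mul_assoc ((1 + q) / 2)]
      have := mul_pos (p τ (mm ρ t)) (p τ' (mm ρ t))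
      gcongr
    · rw [hv, inv_mul_cancel_left₀ (mul_pos (p ..) (p ..)).ne', div_eq_mul_inv]
      exact mul_le_of_le_one_left (inv_pos.2 (by linarith)).le (rpow_le_one (div_pos (dn_pos _) t0).le
        ((div_le_one t0).2 (w1.trans (div_le_self t0.le r1))) (by positivity))
  refine ⟨fun p => C p + ∑ k ∈ Finset.Ico (mm ρ p.1) p.2.1, v p.1 k • F (p.1, k, p.2.2), ?_,
    fun f Y b => ?_⟩
  · rw [← add_zero (pa _)]
    refine c1.add (NormedAddGroup.tendsto_nhds_zero.2 fun ε ε0 => ?_)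
    have ε1 : 0 < ε / 2 * (1 - (1 + q) / 2) := mul_pos (half_pos ε0) (by linarith)
    filter_upwards [Pi3_sum (NormedAddGroup.tendsto_nhds_zero.1 f1 _ ε1), sm] with p ⟨e1, e2⟩ e3
    refine (norm_sum_le_of_le _ fun k hk => (norm_smul_le ..).trans
      (mul_le_mul_of_nonneg_left (e2 k hk).le (norm_nonneg _))).trans_lt ?_
    rw [← Finset.sum_mul]
    refine (mul_le_mul_of_nonneg_right (e3.2 e1) ε1.le).trans_lt ?_
    rw [mul_comm, mul_inv_cancel_right₀ (by linarith)]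
    exact half_lt_self ε0
  obtain ⟨R, M, e1⟩ := c2 f Y b
  obtain ⟨R', M', e2⟩ := f2 f Y b
  have st := hS.inp.st
  have cs : HasCompactSupport f := (b.1.1 0).1
  refine ⟨|R| + |R'|, M + (1 - (1 + q) / 2)⁻¹ * |M'|, ?_⟩
  filter_upwards [e1, Pi3_sum e2, sm] with ⟨t, n, e⟩ e3 ⟨e4, e5⟩ ⟨(t0 : 0 < t), e6⟩
  obtain ⟨T, hT⟩ := Rf_map (S := S) H cs t e
  have := (e3.mono st (show R ≤ |R| + |R'| by linarith [le_abs_self R, abs_nonneg R']) le_rfl).add st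
    (qb_comb H cs st _ (v t) (by positivity) fun k hk => (e5 k hk).mono st (by
      linarith [le_abs_self R', abs_nonneg R]) (mul_le_mul_of_nonneg_right (le_abs_self M')
        (rpow_nonneg t0.le _)))
  convert this.mono st le_rfl (c' := (M + (1 - (1 + q) / 2)⁻¹ * |M'|) * (ix (t, n, e)).1 ^ a) (by
    rw [add_mul, mul_assoc]
    exact add_le_add le_rfl (mul_le_mul_of_nonneg_right (e6 e4) (by positivity))) using 1
  simp only [ix, ← hT, map_add, ← add_mul, sub_add_sub_comm, ← ctr_add, ← Yl_add cs]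
  congr 4
  have z : ∀ k, v t k * (lam τ k * lam τ' k * (dn k / t) ^ (a / 4))⁻¹ =
      (lam τ (mm ρ t) * lam τ' (mm ρ t))⁻¹ := fun k => by
    have := dn_pos k
    rw [hv, mul_inv_cancel_right₀ (mul_pos (mul_pos (p ..) (p ..)) (by positivity)).ne']
  simp only [smul_smul, ← Complex.ofReal_mul, z, ← Finset.smul_sum]
  rw [Finset.sum_Ico_sub (P2 S h ω u cl τ τ' c c' lam t · e) e4, smul_sub, P2, P2, Yn, Yn, Yn, Yn,
    smul_mul_smul_comm (lam τ (mm ρ t) : ℂ), smul_comm _ (_ * _ : ℂ), ← Complex.ofReal_mul,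
    smul_smul _ ((_ * _ : ℝ) : ℂ), ← Complex.ofReal_mul, inv_mul_cancel₀ (mul_pos (p ..) (p ..)).ne']
  simp [PW, Yw]

end Pool.Agent.Lib.MP_7f377f_mp.Cm
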