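import Pool.Agent.Lib.MP_7f377f_mp.G.SbE
import Pool.Agent.Lib.MP_7f377f_mp.G.CmN

/-! From array bounds to operator bounds. -/

noncomputable section

namespace Pool.Agent.Lib.MP_7f377f_mp.Cm
variable [Pool.Agent.Lib.MP_7f377f_mp.GD]
set_option linter.unusedSectionVars false

open Filter Topology Set Real YM7 Pur MvPolynomial Metric
open Ope (gp ctr Gl Sg Mx Dt)

variable {S : Pol →ₗ[ℂ] ℂ} {f : R4 → ℝ} {Z B : Pol} {e e' : ℕ} {r d ρ K η : ℝ} {s : Fin 4 → ℝ}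

theorem mx_mono {Y : (R4 → ℝ) → Pol} {δ δ' : ℝ} (h : Mx S Y e δ K η) (u : δ ≤ δ') :
    Mx S Y e δ' K η := fun lo hi k c f T a b c' v => h lo hi k c f T a b c' fun i =>
  ⟨(v i).1, fun y => ⟨((v i).2 y).1, fun z l => by
    constructor <;> linarith [(((v i).2 y).2 z l).1, (((v i).2 y).2 z l).2]⟩⟩

theorem mx_qb (hS : net.St S) (hL : LinP S) (b : Dt f Z) : ∃ t, ∀ᶠ e in atTop, ∃ R, ∀ K, ∃ Λ,
    ∀ Y s r η, 0 < r → r ≤ (3 ^ (e + t))⁻¹ → 0 ≤ η → Gl S (e + t) r Y → Sg s Y →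
      Mx S Y e (3 ^ (e + t))⁻¹ K η → net.QB S (ctr S (Y f) * Z) R (Λ * η) := by
  obtain ⟨m, w, k, g, g1, rfl⟩ := b.sum
  choose t ht using fun i => Ope.cut hS hL (g1 i)
  refine ⟨∑ i, t i, ?_⟩
  filter_upwards [eventually_all.2 ht] with e he
  choose R hR using he
  refine ⟨∑ i, |R i|, fun K => ?_⟩
  choose Λ hΛ using fun i => hR i K
  refine ⟨∑ i, ‖w i‖ * Λ i, fun Y s r η r0 r1 η0 y y' z => ?_⟩
  have key : ∀ i, net.QB S (ctr S (Y f) * mon (g i)) (R i) (Λ i * η) := fun i => by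
    have u : e + t i ≤ e + ∑ i, t i :=
      Nat.add_le_add_left (Finset.single_le_sum (fun _ _ => Nat.zero_le _) (Finset.mem_univ i)) e
    have v : ((3 : ℝ) ^ (e + ∑ i, t i))⁻¹ ≤ (3 ^ (e + t i))⁻¹ :=
      inv_anti₀ (by positivity) (pow_le_pow_right₀ (by norm_num) u)
    simpa [Ope.wd, Fin.prod_univ_succ, mon, Fin.succ_ne_zero] using hΛ i _ s r _ {0} r0 (r1.trans v) η0
      ((y.ctr hS).mono u) (y'.ctr y hS) (mx_mono z v)
  simpa only [Finset.mul_sum, Finset.sum_mul, mul_smul_comm, mul_assoc] using Net.QB.sum hS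
    Finset.univ (Finset.sum_nonneg fun i _ => abs_nonneg (R i)) fun i _ => ((key i).mono hS
      ((le_abs_self _).trans (Finset.single_le_sum (fun j _ => abs_nonneg (R j))
        (Finset.mem_univ i))) le_rfl).smul (w i)

theorem gl_Yl (hB : B ∈ net.loc (Bx ρ)) (d0 : 0 < d) (hr : 2 * ρ * d < r) (he : e' ≤ e) :
    Gl S e' r (Yl B d e) where
  loc a := Yl_mem hB a.1 d0 fun z hz y hy => mem_thickening_iff.2 ⟨z, a.2.2 hz, by
    have := norm_cube fun l => (hy l).le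
    rw [dist_self_add_left, norm_smul, norm_of_nonneg d0.le]
    nlinarith⟩
  tau x a := Yl_τ a.1 he x
  lin s g a c Z _ := by
    classical
    have : Yl B d e (∑ z ∈ s, c z • g z) = ∑ z ∈ s, (c z : ℂ) • Yl B d e (g z) ∧
        HasCompactSupport (∑ z ∈ s, c z • g z) := by
      induction s using Finset.induction_on with
      | empty => exact ⟨by simp [Yl], HasCompactSupport.zero⟩
      | insert i s hi ih =>
        simp only [Finset.sum_insert hi, add_comm (c i • g i), Yl_lin ih.2 (a i).1, ih.1]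
        exact ⟨add_comm _ _, ih.2.add (a i).1.smul_left⟩
    simp only [this.1, Finset.sum_mul, map_sum, smul_mul_assoc, map_smul, smul_eq_mul]

theorem sg_Yl (h : ∀ μ, s μ * s μ = 1 ∧ net.Θ μ B = (s μ : ℂ) • B) : Sg s (Yl B d e) := fun μ =>
  ⟨(h μ).1, fun a => by
    rw [Yl_Θ a.1, (h μ).2, Yl_smul]
    exact a.1.comp_homeomorph (rfL μ).toHomeomorph |>.mono fun y hy => by
      simpa [rfL_eq] using hy⟩

end Pool.Agent.Lib.MP_7f377f_mp.Cm
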