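import Pool.Agent.Lib.MP_7f377f_mp.G.OpL

/-! Telescoping in the presence of other fields. -/

noncomputable section

namespace Pool.Agent.Lib.MP_7f377f_mp.Cm
variable [Pool.Agent.Lib.MP_7f377f_mp.GD]
set_option linter.unusedSectionVars false

open MeasureTheory Filter Topology Set Real YM7 Pur MvPolynomial
open Ope (gp sc ctr Mx Dt)
open Ro (Iso act)
open Lb (Lab Pl Cl rho mx pc)
open RG.Q4.En.Ty (Gn Ty sb Det)

theorem Wo.Θ {m : ℕ} {Λ δ : ℝ} {A : Pol} (hA : Wo m Λ δ A) (μ : Fin 4) :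
    net.Θ μ A = Ro.act (rfL μ) A := by
  obtain ⟨ι, s, c, u, -, -, rfl⟩ := hA
  simp only [map_sum, map_smul, net.Θ_smul, Complex.conj_ofReal, Θ_mon, Ro.act_mon, rfL_symm]

variable {S : Pol →ₗ[ℂ] ℂ} {K Λ δ a : ℝ} {h : R4 → ℝ} {ω : ∀ l : Cl, (Fin l.m → R4) → Lab ℝ}
  {Kl : ℝ → ℝ → ℕ → Sl → Prop} {β : Cl → Lb.Tp} {A : Lb.Tp → Equiv.Perm (Fin 4) → ℕ → Pol}
  {γ : Lb.Tp → ℕ → ℕ → Bool → ℝ} {g : Lb.Tp → ℕ → Bool → ℝ} {lam : Lb.Tp → ℕ → ℝ}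
  {t : ℕ → Lb.Tp → ℝ} {n₁ : ℕ} (hS : Sf S K) (H : Dat (GD.d / 2) h ω Λ δ)
  (Y : Tys Lb.Tp.cl Lb.ref (GD.d / 2) Lb.Tp.T β) (I : Kin S 5 Λ δ a Kl) (J : Kx S Λ δ a Kl)
  (Q : Sq Lb.Tp.cl Lb.ref h ω S Λ δ Kl A γ g) (L : Lq Lb.Tp.cl h ω S g lam t n₁)

include H Y Q in
theorem Sq.sg (τ : Lb.Tp) (σ : Equiv.Perm (Fin 4)) : ∃ s : Fin 4 → ℝ, ∀ e μ,
    s μ * s μ = 1 ∧ net.Θ μ (A τ σ e) = (s μ : ℂ) • A τ σ e := by
  obtain ⟨x, hx⟩ := Q.df τ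
  obtain ⟨-, -, -, E⟩ := Y.det τ
  choose χ hχ using E
  refine ⟨fun μ => sb (χ (σ.symm μ)), fun e μ => ⟨sb_mul _, ?_⟩⟩
  obtain ⟨ν, rfl⟩ := σ.surjective μ
  have e1 := Zc_typ H Y τ e x _ (hχ ν)
  rw [(Q.wo τ σ e).Θ, hx]
  generalize x • Zc h ω τ.cl e (cx (Lb.ref τ)) = B at e1 ⊢
  replace e1 : act (rfL ν) B = (sb (χ ν) : ℂ) • B := e1
  rw [Ro.act_act, prm_rf, ← Ro.act_act, e1, map_smul]
  simp only [σ.symm_apply_apply, Complex.ofReal_intCast]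

include hS H Y J Q in
theorem Sq.qb (τ : Lb.Tp) {c : Lab ℝ} (hc : c ∈ Vs (Lb.ref τ)) {f : R4 → ℝ} {Z : Pol}
    (b : Dt f Z) : ∃ R C, ∀ᶠ n in atTop, ∀ᶠ e in atTop, ∀ v : Bool → ℝ, |v false| + |v true| ≤ 1 →
      net.QB S (Yw h ω S τ.cl n e v c f * Z) R (C * (dn n)⁻¹) ∧
        (v = γ τ n e → net.QB S (Yw h ω S τ.cl n e v c f * Z) R (C * dn n ^ a)) := by
  have st := hS.inp.st
  obtain ⟨x, hx⟩ := Q.exp τ c hc
  choose s hs using Q.sg H Y τ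
  obtain ⟨k, h1⟩ := mx_qb st hS.inp.lin b
  obtain ⟨e₀, ⟨C, h2⟩, R, h3⟩ := ((J.mix k).and_eventually h1).exists
  obtain ⟨M, h3⟩ := h3 C
  have r0 : (0 : ℝ) < (3 ^ (e₀ + k))⁻¹ := by positivity
  have Λ1 := H.pos.1
  have t1 := (tendsto_nhds_of_tendsto_nhdsWithin dn_zero).const_mul (2 * (Λ + 1))
  rw [mul_zero] at t1
  refine ⟨R, (∑ σ, ‖(x σ : ℂ)‖) * M, ?_⟩
  filter_upwards [dn_zero.eventually h2, t1.eventually_lt_const r0] with n e1 e2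
  filter_upwards [e1 _ (dn_mem n), eventually_ge_atTop (e₀ + k)] with e e3 e4 v hv
  have key : ∀ η, 0 ≤ η → (∀ σ, Mx S ((Sl.mk τ.cl.m (A τ σ e) (A τ σ e) (v false) (v true)).Y (dn n)
      (dn (n + 1)) e) e₀ (3 ^ (e₀ + k))⁻¹ C η) →
      net.QB S (Yw h ω S τ.cl n e v c f * Z) R ((∑ σ, ‖(x σ : ℂ)‖) * M * η) := fun η η0 u => by
    have w := fun σ => h3 _ (s σ) _ η r0 le_rfl η0
      (((gl_Yl (Q.wo τ σ e).mem (dn_pos n) e2 e4).smul (v false : ℂ)).add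
        ((gl_Yl (Q.wo τ σ e).mem (dn_pos (n + 1)) (lt_of_le_of_lt (mul_le_mul_of_nonneg_left
          (dn_mem n).2 (by positivity)) e2) e4).smul (v true : ℂ)))
      ((sg_Yl (hs σ e)).comb (sg_Yl (hs σ e)) (v false) (v true)) (u σ)
    rw [hx n e v f (b.1.1 0).1, Finset.sum_mul, mul_assoc, Finset.sum_mul]
    simp only [smul_mul_assoc]
    exact Net.QB.sum st _ (w 1).2.1 fun σ _ => (w σ).smul _
  exact ⟨key _ (inv_pos.2 (dn_pos n)).le fun σ => (e3 _ (ok_of (Q.wo τ σ e) hv)).1,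
    fun u => key _ (rpow_pos_of_pos (dn_pos n) a).le fun σ =>
      (e3 _ (ok_of (Q.wo τ σ e) hv)).2 (u ▸ Q.kil τ σ n e)⟩

include hS H Y I J Q L in
/-- telescoping in the presence of other fields -/
theorem tel_qb (τ : Lb.Tp) {c : Lab ℝ} (hc : c ∈ Vs (Lb.ref τ)) {f : R4 → ℝ} {Z : Pol}
    (b : Dt f Z) : ∃ R C, ∀ᶠ n in atTop, ∃ B, ∀ n' ≥ n, ∀ᶠ e in UU,
      net.QB S ((Yn Lb.Tp.cl h ω S lam τ n' e c f - Yn Lb.Tp.cl h ω S lam τ n e c f) * Z) R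
        (C * (lam τ n * dn n ^ a)) ∧ net.QB S (Yn Lb.Tp.cl h ω S lam τ n' e c f * Z) R B := by
  have st := hS.inp.st
  obtain ⟨R, C, h1⟩ := Q.qb hS H Y J τ hc b
  obtain ⟨q, hq⟩ : ∃ q : ℝ, q = 2⁻¹ ^ a := ⟨_, rfl⟩
  have q0 : 0 < q := hq ▸ rpow_pos_of_pos (by norm_num) _
  have q1 : q < 1 := hq ▸ rpow_lt_one (by norm_num) (by norm_num) I.pos
  have p := L.pos τ
  have x0 := fun n => rpow_pos_of_pos (dn_pos n) a
  obtain ⟨n₂, h2⟩ := eventually_atTop.1 ((h1.and ((L.rat τ).eventually_le_const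
    (u := (1 + q) / 2 / q) ((one_lt_div q0).2 (by linarith)))).and (eventually_ge_atTop n₁))
  have y0 : ∀ n e (u : Bool), Yw h ω S τ.cl n e (fun v => if v = u then 1 else 0) c f =
      Yc h ω S τ.cl (dn (n + u.toNat)) e (cx c) f := fun n e u => by cases u <;> simp [Yw]
  have h3 : ∀ n ≥ n₂, ∀ᶠ e in UU, ∀ u : Bool,
      net.QB S (Yc h ω S τ.cl (dn (n + u.toNat)) e (cx c) f * Z) R (C * (dn n)⁻¹) := fun n hn => by
    filter_upwards [UU_le (h2 n hn).1.1] with e e1 u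
    exact y0 n e u ▸ (e1 _ (by cases u <;> simp)).1
  have R0 : 0 ≤ R := ((h3 n₂ le_rfl).exists.choose_spec true).2.1
  have h4 : ∀ {n n'}, n₂ ≤ n → n ≤ n' → _ := tele st (F := UU) (b := (1 + q) / 2)
    (P := fun n e => Yn Lb.Tp.cl h ω S lam τ n e c f * Z)
    (v := fun n => 4 * (|C| + 1) * (lam τ n * dn n ^ a)) R0 (by linarith)
    (fun n => by have := p n; have := x0 n; positivity) (fun n hn => by
      have e := (h2 n hn).1.2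
      rw [div_le_div_iff₀ (p n) q0] at e
      rw [dn_succ, mul_rpow (dn_pos n).le (by norm_num), ← hq]
      have := mul_le_mul_of_nonneg_left e (show 0 ≤ 4 * (|C| + 1) * dn n ^ a by
        have := x0 n; positivity)
      linarith) fun n hn => by
      filter_upwards [UU_le (h2 n hn).1.1, h3 n hn, lim_qb st (Q.lim τ n) (C * (dn n)⁻¹) (x0 n)]
        with e e1 e2 e3
      have e4 := (e3 R R0 _ e2).add st ((e1 _ (Q.nrm τ n e).le).2 rfl)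
      simp only [Yw, Finset.sum_mul, smul_mul_assoc, sub_add_cancel] at e4
      rw [← sub_mul, L.dif τ n (h2 n hn).2, smul_mul_assoc]
      simp only [Yw, Finset.sum_mul, smul_mul_assoc]
      refine (e4.smul _).mono st le_rfl ?_
      rw [Complex.norm_real]
      calc _ ≤ 4 * lam τ n * (dn n ^ a + |C| * dn n ^ a) := mul_le_mul (L.le τ n (h2 n hn).2)
            (by have := x0 n; gcongr; exact le_abs_self C) e4.2.2.1 (by linarith [p n])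
        _ = _ := by ring
  refine ⟨R, 4 * (|C| + 1) / (1 - (1 + q) / 2), ?_⟩
  filter_upwards [eventually_ge_atTop n₂] with n hn
  refine ⟨4 * (|C| + 1) * (lam τ n * dn n ^ a) / (1 - (1 + q) / 2) +
    ‖(lam τ n : ℂ)‖ * (C * (dn n)⁻¹), fun n' hn' => ?_⟩
  filter_upwards [h4 hn hn', h3 n hn] with e e1 e2
  have e3 := e1.add st ((e2 false).smul (lam τ n : ℂ))
  rw [← smul_mul_assoc] at e3
  exact ⟨by rw [sub_mul, div_mul_eq_mul_div]; exact e1, by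
    rw [← sub_add_cancel (_ * Z) (Yn Lb.Tp.cl h ω S lam τ n e c f * Z)]; exact e3⟩

end Pool.Agent.Lib.MP_7f377f_mp.Cm
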