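import Pool.Agent.Lib.MP_7f377f_mp.G.OpW
import Pool.Agent.Lib.MP_7f377f_mp.G.OpTq

/-! The reference fields and the fields with labels. -/

noncomputable section

namespace Pool.Agent.Lib.MP_7f377f_mp.Cm
variable [Pool.Agent.Lib.MP_7f377f_mp.GD]
set_option linter.unusedSectionVars false

open MeasureTheory Filter Topology Set Real YM7 Pur MvPolynomial
open Ope (gp sc ctr Mx Dt)
open Ro (Iso act)
open Lb (Lab Pl Cl rho mx pc)
open RG.Q4.En.Ty (Gn Ty sb Det)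

variable {S : Pol →ₗ[ℂ] ℂ} {K Λ δ a : ℝ} {h : R4 → ℝ} {ω : ∀ l : Cl, (Fin l.m → R4) → Lab ℝ}
  {Kl : ℝ → ℝ → ℕ → Sl → Prop} {β : Cl → Lb.Tp} {A : Lb.Tp → Equiv.Perm (Fin 4) → ℕ → Pol}
  {γ : Lb.Tp → ℕ → ℕ → Bool → ℝ} {g : Lb.Tp → ℕ → Bool → ℝ} {lam : Lb.Tp → ℕ → ℝ}
  {t : ℕ → Lb.Tp → ℝ} {n₁ : ℕ} {n₀ : ℝ → ℕ} (hS : Sf S K) (H : Dat (GD.d / 2) h ω Λ δ)
  (Y : Tys Lb.Tp.cl Lb.ref (GD.d / 2) Lb.Tp.T β) (I : Kin S 5 Λ δ a Kl) (J : Kx S Λ δ a Kl)
  (Q : Sq Lb.Tp.cl Lb.ref h ω S Λ δ Kl A γ g) (L : Lq Lb.Tp.cl h ω S g lam t n₁)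
  (F : Aft Lb.Tp.cl Lb.ref h ω S lam 2 n₀)
include hS H Y I J Q L

include F in
/-- slow variation of the normalisation -/
theorem slow_var (τ : Lb.Tp) :
    Tendsto (fun t => lam τ (nn t) / lam τ (n₀ t)) (𝓝[>] 0) (𝓝 1) := by
  obtain ⟨W, hW, ts, hc, hl⟩ := J.lng
  have p := L.pos τ
  have U : ∀ η > 0, ∀ᶠ D in 𝓝[>] (0 : ℝ), ∀ r, W D r →
      |log (lam τ ⌈logb 2 (r / D)⌉₊) - log (lam τ (n₀ D))| < η := fun η η0 => by
    have : ∀ D, ∃ ρ, ((∃ r, W D r) → W D ρ) ∧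
        (|log (lam τ ⌈logb 2 (ρ / D)⌉₊) - log (lam τ (n₀ D))| < η → ∀ r, W D r →
          |log (lam τ ⌈logb 2 (r / D)⌉₊) - log (lam τ (n₀ D))| < η) := fun D => by
      by_cases u : ∀ r, W D r → |log (lam τ ⌈logb 2 (r / D)⌉₊) - log (lam τ (n₀ D))| < η
      · by_cases v : ∃ r, W D r
        exacts [⟨_, fun _ => v.choose_spec, fun _ => u⟩, ⟨0, fun w => (v w).elim, fun _ => u⟩]
      · obtain ⟨r, u⟩ := not_forall.1 u
        obtain ⟨u, v⟩ := Classical.not_imp.1 u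
        exact ⟨r, fun _ => u, fun w => (v w).elim⟩
    choose ρ h1 h2 using this
    have h3 := (((Q.tel hS H L I).aft' hS H Y (Q.tc hS H L hW ts hc (hW.ex.mono h1))).win hS H Y
      L.pos le_rfl F le_rfl τ).log one_ne_zero
    simp only [log_div (p _).ne' (p _).ne', log_one] at h3
    filter_upwards [Metric.tendsto_nhds.1 h3 η η0] with D e
    exact h2 D (by simpa only [Real.dist_eq, sub_zero] using e)
  have : Tendsto (fun t => log (lam τ (nn t)) - log (lam τ (n₀ t))) (𝓝[>] 0) (𝓝 0) := by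
    refine Metric.tendsto_nhds.2 fun η η0 => ?_
    have h1 := U (η / 3) (by positivity)
    obtain ⟨u, u0, hu⟩ := mem_nhdsGT_iff_exists_Ioo_subset.1 h1
    filter_upwards [h1, hl u u0, self_mem_nhdsWithin] with t e1 ⟨ρ, r, r0, r1, w1, w2, w3⟩ t0
    have e2 := hu ⟨mul_pos r0 t0, r1⟩
    have a1 := abs_lt.1 (e1 _ w1)
    have a2 := abs_lt.1 (e2 _ w2)
    have a3 := abs_lt.1 (e2 _ w3)
    rw [div_mul_cancel_left₀ r0.ne'] at a2
    rw [mul_div_mul_left _ _ r0.ne'] at a3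
    rw [Real.dist_eq, sub_zero, abs_lt, nn]
    constructor <;> linarith [a1.1, a1.2, a2.1, a2.2, a3.1, a3.2]
  simpa only [exp_sub, exp_log (p _), exp_zero] using this.rexp

omit hS H Y I J Q L in
theorem nn_top : Tendsto nn (𝓝[>] 0) atTop :=
  tendsto_nat_ceil_atTop.comp ((tendsto_logb_atTop one_lt_two).comp tendsto_inv_nhdsGT_zero)

theorem rl_one (τ : Lb.Tp) {c : Lab ℝ} (hc : c ∈ Vs (Lb.ref τ)) {r : ℝ} (r0 : 0 < r) {x : ℕ → ℝ}
    (hr : Tendsto (fun n => x n / lam τ n) atTop (𝓝 r)) {f : R4 → ℝ} {Z : Pol} (b : Dt f Z) :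
    ∃ R C, ∀ᶠ t in 𝓝[>] (0 : ℝ), ∀ᶠ j in atTop.curry UU, net.QB S
      (((log t⁻¹ ^ τ.cl.m / gm ^ τ.cl.m) • Yc h ω S τ.cl (dn (nn t)) j.2 (cx c) f -
        (x j.1 * (log t⁻¹ ^ τ.cl.m / (gm ^ τ.cl.m * lam τ (nn t) * r))) •
          Yc h ω S τ.cl (dn j.1) j.2 (cx c) f) * Z) R (C * t ^ (a / 2)) := by
  have st := hS.inp.st
  have p := L.pos τ
  have g0 := pow_pos gm_pos τ.cl.m
  obtain ⟨R, C, h1⟩ := tel_qb hS H Y I J Q L τ hc b
  refine ⟨R, |C| + 1, ?_⟩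
  filter_upwards [nn_top.eventually h1, Ioc_mem_nhdsGT one_pos, tendsto_inv_nhdsGT_zero.eventually
    ((isLittleO_log_rpow_rpow_atTop τ.cl.m (half_pos I.pos)).bound g0)] with t ⟨B, e1⟩ ht e2
  have t0 := ht.1
  have l0 : 0 ≤ log t⁻¹ := log_nonneg ((one_le_inv₀ t0).2 ht.2)
  rw [norm_of_nonneg (by positivity), norm_of_nonneg (by positivity), rpow_natCast,
    inv_rpow t0.le, ← rpow_neg t0.le] at e2
  obtain ⟨ν, hν⟩ : ∃ ν, ν = log t⁻¹ ^ τ.cl.m / (gm ^ τ.cl.m * lam τ (nn t)) := ⟨_, rfl⟩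
  have ν0 : 0 ≤ ν := by have := p (nn t); rw [hν]; positivity
  have t2 := ((((hr.div_const r).const_sub 1).norm.mul_const B).const_mul ν)
  rw [div_self r0.ne', sub_self, norm_zero, zero_mul, mul_zero] at t2
  rw [eventually_curry_iff]
  filter_upwards [eventually_ge_atTop (nn t), t2.eventually_le_const (rpow_pos_of_pos t0 (a / 2))]
    with n hn e3
  filter_upwards [e1 n hn] with e ⟨e4, e5⟩
  have e6 := ((e4.smul (-1)).add st (e5.smul ((1 - x n / lam τ n / r : ℝ) : ℂ))).smul (ν : ℂ)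
  simp only [Yn, sub_mul, smul_mul_assoc, Complex.coe_smul, neg_one_smul, Complex.norm_real,
    norm_neg, norm_one, one_mul, norm_of_nonneg ν0] at e6 ⊢
  generalize Yc h ω S τ.cl (dn (nn t)) e (cx c) f * Z = P at e6 ⊢
  generalize Yc h ω S τ.cl (dn n) e (cx c) f * Z = P' at e6 ⊢
  have p1 := (p n).ne'
  have p2 := p (nn t)
  refine (congrArg (net.QB S · R _) ?_).mp (e6.mono st le_rfl ?_)
  · rw [hν]
    match_scalars <;> field_simp
    ring
  have d1 := dn_nn ht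
  have d0 := dn_pos (nn t)
  have a0 := I.pos
  rw [mul_add, add_mul, one_mul]
  refine add_le_add ?_ e3
  calc _ = C * (log t⁻¹ ^ τ.cl.m / gm ^ τ.cl.m * dn (nn t) ^ a) := by rw [hν]; field_simp
    _ ≤ |C| * (t ^ (-(a / 2)) * t ^ a) := by
        gcongr
        exacts [le_abs_self C, (div_le_iff₀' g0).2 e2, d1.2]
    _ = _ := by rw [← rpow_add t0]; congr 2; ring

include F in
theorem exists_rl : ∃ μ, Rl h ω S (a / 2) (Oa h ω S (lc lam β))
    (fun l D => log D⁻¹ ^ l.m / (gm ^ l.m * lc lam β l (n₀ D))) μ := by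
  have st := hS.inp.st
  have p := L.pos
  choose r r0 hr using F.rat hS H Y p le_rfl
  refine ⟨fun τ t => log t⁻¹ ^ τ.cl.m / (gm ^ τ.cl.m * lam τ (nn t) * r τ), fun τ => ?_,
    fun f Z b => ?_⟩
  · have := (((hr τ).comp F.top).div (slow_var hS H Y I J Q L F τ) one_ne_zero).div_const (r τ)
    rw [div_one, div_self (r0 τ).ne'] at this
    refine this.congr' ?_
    filter_upwards [Ioo_mem_nhdsGT one_pos] with t ht
    have := (log_pos ((one_lt_inv₀ ht.1).2 ht.2)).ne'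
    have := gm_pos.ne'
    have := fun n => (p τ n).ne'
    have := (r0 τ).ne'
    simp only [Function.comp, Pi.div_apply]
    generalize log t⁻¹ = z at *
    field_simp [*]
  have hf := (b.1.1 0).1
  have M : ∀ l d e, ∃ M : Lab ℝ →ₗ[ℝ] Pol, ∀ x, M x = Yc h ω S l d e (cx x) f := fun l d e => by
    have := Yc_linc H hf (S := S) (l := l) (d := d) (e := e)
    have z : Yc h ω S l d e 0 f = 0 := by simpa using this (-1) 0 0
    exact ⟨IsLinearMap.mk' (fun x => Yc h ω S l d e (cx x) f) ⟨fun x y => by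
      simpa [cx_add] using this 1 (cx x) (cx y), fun s x => by
        simpa [cx_smul, z] using this s (cx x) 0⟩, fun _ => rfl⟩
  choose M hM using M
  have dec : ∀ (w : Cl → ℝ) d e c, ∑ l, (w l : ℂ) • Yc h ω S l d e (cx c) f =
      ∑ τ : Lb.Tp, w τ.cl • M τ.cl d e (Lb.pt τ c) := fun w d e c => by
    rw [← Finset.sum_fiberwise (g := Lb.Tp.cl) (s := Finset.univ)]
    refine Finset.sum_congr rfl fun l _ => ?_
    have : Yc h ω S l d e (cx c) f = M l d e (pc l c) := by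
      rw [hM, cx_pc, Yc, Yc, Zc_pc H, if_pos rfl]
    rw [this, ← Lb.sum_pt_cl, map_sum, Finset.smul_sum]
    exact Finset.sum_congr rfl fun τ u => by rw [(Finset.mem_filter.1 u).2, Complex.coe_smul]
  choose R C h1 using fun q : Lb.Tp × Pl × Pl => rl_one hS H Y I J Q L q.1
    (pt_mem q.1 (Matrix.single q.2.1 q.2.2 1)) (r0 _) (hr _) b
  refine ⟨∑ q, |R q|, ∑ q, C q, ?_⟩
  filter_upwards [eventually_all.2 h1] with t e1
  filter_upwards [eventually_all.2 e1] with j e2 c hc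
  have e3 := Net.QB.sum st Finset.univ (Finset.sum_nonneg fun q _ => abs_nonneg (R q)) fun q _ =>
    (((e2 q).mono st ((le_abs_self _).trans (Finset.single_le_sum (fun q _ => abs_nonneg (R q))
      (Finset.mem_univ q))) le_rfl).smul (c q.2.1 q.2.2 : ℂ)).mono st le_rfl
        (mul_le_of_le_one_left (e2 q).2.2.1 (by rw [Complex.norm_real]; exact hc _ _))
  rw [← Finset.sum_mul] at e3
  refine (congrArg (net.QB S · _ _) ?_).mp e3
  rw [Rf, Oa, dec, show ((2 : ℝ) ^ j.1)⁻¹ = dn j.1 from rfl, dec, ← Finset.sum_sub_distrib,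
    Finset.sum_mul, Fintype.sum_prod_type]
  refine Finset.sum_congr rfl fun τ _ => ?_
  have e4 : Lb.pt τ (∑ τ' : Lb.Tp, (log t⁻¹ ^ τ'.cl.m / (gm ^ τ'.cl.m * lam τ' (nn t) * r τ')) •
      Lb.pt τ' c) = (log t⁻¹ ^ τ.cl.m / (gm ^ τ.cl.m * lam τ (nn t) * r τ)) • Lb.pt τ c := by
    simp [Lb.pt_pt]
  have e5 : c = ∑ q : Pl × Pl, c q.1 q.2 • Matrix.single q.1 q.2 1 := by
    rw [Fintype.sum_prod_type]
    simp only [Matrix.smul_single, smul_eq_mul, mul_one]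
    exact Matrix.matrix_eq_sum_single c
  rw [e4, map_smul, smul_smul]
  conv_rhs => rw [e5]
  simp only [← hM, map_sum, map_smul, Finset.smul_sum, ← Finset.sum_sub_distrib, Finset.sum_mul,
    Complex.coe_smul, ← smul_mul_assoc, smul_sub, smul_comm (c _ _)]

end Pool.Agent.Lib.MP_7f377f_mp.Cm
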