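import Pool.Agent.Lib.MP_7f377f_mp.G.WvLab2

/-! Convergence of the correlation functions of moving composite fields. -/

noncomputable section

namespace Pool.Agent.Lib.MP_7f377f_mp.Lm
variable [Pool.Agent.Lib.MP_7f377f_mp.GD]
set_option linter.unusedSectionVars false

open Filter Topology Set Metric Function YM7 Pur Lg Wm Lg.PI MvPolynomial
open Ro (Iso act act_τ)

variable {H : Type} [NormedAddCommGroup H] [InnerProductSpace ℂ H] {W : Pol →ₗ[ℂ] ℂ}
  {r : net.Rep W 0 H} {ι J : Type} {l : Filter ι} {m : Filter J} {K : ℝ}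
  {M : Iso → ℝ → (R4 → ℝ) → H →L[ℂ] H} {Φ : ι → (R4 → ℝ) → Pol}

theorem OB.mv {R : ℝ} {X : Pol} {A : H →L[ℂ] H} (h : OB r R X A) {w : R4} (hw : ‖w‖ ≤ R) :
    OB r (2 * R) (net.τ w X) (r.T (R • e0 + w) * A * r.T (R • e0 - w)) := by
  have b : ∀ μ, |w μ| ≤ R := fun μ => (PiLp.norm_apply_le w μ).trans hw
  have b0 := abs_le.1 (b 0)
  have p : 0 ≤ (R • e0 + w) 0 := by simp; linarith
  have p' : 0 ≤ (R • e0 - w) 0 := by simp; linarith
  refine ⟨net.mono (net.τ_mem w h.1) fun y hy μ => ?_, fun Z hZ => ?_⟩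
  · have := abs_add_le ((y - w) μ) (w μ)
    rw [PiLp.sub_apply, sub_add_cancel, ← PiLp.sub_apply] at this
    linarith [hy μ, b μ]
  have z : net.τ (R • e0 - w) Z ∈ net.loc (Hs 0 0) := Net.τ_hs hZ (by linarith)
  rw [mul_apply_eq_comp, mul_apply_eq_comp, r.act p' hZ, h.2 _ z,
    r.act p (B1.mem ((norm_nonneg _).trans hw) h.1 z)]
  simp only [map_mul, net.τ_τ]
  rw [show R • e0 + w + R • e0 = (2 * R) • e0 + w by module,
    show R • e0 + w + ((2 * R) • e0 + (R • e0 - w)) = (2 * (2 * R)) • e0 by module]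

/-- the operators in a frame of the double size -/
def dbl (r : net.Rep W 0 H) (K : ℝ) (M : Iso → ℝ → (R4 → ℝ) → H →L[ℂ] H) (R : Iso) (d : ℝ)
    (g : R4 → ℝ) : H →L[ℂ] H := r.T ((K * d) • e0) * M R d g * r.T ((K * d) • e0)

theorem Cvg.mv (hc : ∀ v : R4, 0 < v 0 → ContinuousAt r.T v) (K1 : 1 ≤ K) (h : Cvg r K M l Φ)
    {s : J → ι} (hs : Tendsto s m l) {w : J → R4} (hw : Tendsto w m (𝓝 0))
    {Ψ : J → (R4 → ℝ) → Pol} (hΨ : ∀ p g, Ψ p g = net.τ (w p) (Φ (s p) g)) :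
    Cvg r (2 * K) (dbl r K M) m Ψ := fun R v hR d hd g hg => by
  obtain ⟨A, a1, a2⟩ := h R v hR d hd g hg
  have kd : 0 < K * d := mul_pos (one_pos.trans_le K1) hd.1
  have t := hc ((K * d) • e0) (by simpa using kd)
  have w' : Tendsto (fun p => R (w p)) m (𝓝 0) := by
    simpa [Function.comp_def] using (R.continuous.tendsto 0).comp hw
  refine ⟨fun p => r.T ((K * d) • e0 + R (w p)) * A (s p) * r.T ((K * d) • e0 - R (w p)), ?_,
    ((t.tendsto.comp (by simpa using w'.const_add ((K * d) • e0))).mul (a2.comp hs)).mul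
      (t.tendsto.comp (by simpa using w'.const_sub ((K * d) • e0)))⟩
  filter_upwards [hs.eventually a1, (tendsto_zero_iff_norm_tendsto_zero.1 w').eventually_le_const kd]
    with p e e'
  rw [hΨ, act_τ, net.τ_τ, add_comm v, ← net.τ_τ, mul_assoc 2]
  exact e.mv e'

variable {V : Type} [AddCommGroup V] [Module ℂ V] {θ : Fin 4 → V → V} {ρ : Iso → V → V}
  {O : ι → V → (R4 → ℝ) → Pol} [CompleteSpace H] {c₀ : V}

theorem app_X [l.NeBot] (hS : net.St W) (hL : LinP W) (h0 : Bas W K l Φ)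
    (hD : ∀ R : ℝ, Dense {y | ∃ b ∈ net.loc (Ot 0), r.Ψ (net.τ (R • B1.nn) b) = y})
    (hM : App r K M l Φ) : App2 r K (fun _ => M 1) l fun _ g => X g := by
  have ob : ∀ {X R c}, net.QB W X R c → OB r R X (B1.Op r R X) := fun e =>
    ⟨e.1, fun Z hZ => B1.Op_eq r hS (hD _) e ⟨Z, hZ⟩⟩
  refine ⟨fun j g g' a b Z hZ => by simpa using hL g g' 1 a.1 a.2.1 b.1 b.2.1 Z hZ,
    fun U g _ hg => .of_forall fun _ => ?_, fun R v r1 d hd g hg => ?_⟩
  · simpa [mon] using mon_mem (f := fun _ : Fin 1 => g) ⟨fun _ => ⟨hg.1, hg.2.1⟩,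
      fun i j e => absurd (Subsingleton.elim i j) e⟩ fun _ => hg.2.2
  obtain ⟨A, b1, b2⟩ := hM.lim 1 0 dt_one d hd g hg
  simp only [LinearIsometryEquiv.coe_one, id, add_zero, Ro.act_one, net.τ_zero] at b1 b2
  obtain ⟨n, m1, m2⟩ := (b1.and (h0 d hd g hg 1 one_pos)).exists
  have o := m1.sub (ob m2)
  rw [sub_sub_cancel] at o
  refine ⟨fun _ => _, .of_forall fun _ => by simpa [Ro.act_X, B2.τ_X] using o, ?_⟩
  refine lim_of (fun η η0 => .of_forall fun _ => ?_) b2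
  filter_upwards [b1, h0 d hd g hg η η0] with j e1 e2
  rw [norm_sub_rev, (e1.sub o).eq (ob e2)]
  exact B1.Op_le r hS (hD _) e2

theorem app_mv (hc : ∀ v : R4, 0 < v 0 → ContinuousAt r.T v) (K1 : 1 ≤ K) (h : App r K M l Φ)
    (lo : ∀ U g, IsOpen U → C1 U g → ∀ᶠ j in l, Φ j g ∈ net.loc U) (z : R4) :
    App2 r (2 * K) (dbl r K M) (l ×ˢ 𝓝 z) fun p g => net.τ p.2 (Φ p.1 fun y => g (y + z)) := by
  have t : Tendsto (fun p : ι × R4 => p.2 - z) (l ×ˢ 𝓝 z) (𝓝 0) := by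
    simpa using (tendsto_snd (f := l) (g := 𝓝 z)).sub_const z
  refine ⟨fun p g g' a b Z _ => ?_, fun U g hU hg => ?_, ?_⟩
  · rw [← map_add, ← add_mul, ← map_add, ← h.add _ _ _ (c1_add a z) (c1_add b z)]
    rfl
  · obtain ⟨δ, δ0, hδ⟩ := hg.1.isCompact.exists_thickening_subset_open hU hg.2.2
    have a := c1_add ⟨hg.1, hg.2.1, subset_univ _⟩ z
    obtain ⟨T, t1, t2, t3⟩ : ∃ T, IsOpen T ∧ tsupport g ⊆ T ∧
        ∀ y ∈ T, ∀ u : R4, ‖u‖ < δ / 2 → y + u ∈ U :=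
      ⟨_, isOpen_thickening, self_subset_thickening (half_pos δ0) _, fun y hy u hu => by
        obtain ⟨x, x1, x2⟩ := mem_thickening_iff.1 hy
        refine hδ (mem_thickening_iff.2 ⟨x, x1, ?_⟩)
        have := dist_triangle (y + u) y x
        rw [dist_self_add_left] at this
        linarith⟩
    filter_upwards [tendsto_fst.eventually (lo {y | y + z ∈ T} (fun y => g (y + z))
      (t1.preimage (f := fun y => y + z) (by fun_prop)) ⟨a.1, a.2.1, fun y hy =>
        t2 (tsupport_comp (θ := fun y => y + z) (by fun_prop) hy)⟩),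
      (tendsto_zero_iff_norm_tendsto_zero.1 t).eventually_lt_const (half_pos δ0)] with p e e'
    refine net.mono (net.τ_mem p.2 e) fun y hy => ?_
    simpa using t3 (y - p.2 + z) hy _ e'
  · exact Cvg.mv (Φ := fun j g => net.τ z (Φ j fun y => g (y + z)))
      (Ψ := fun p g => net.τ p.2 (Φ p.1 fun y => g (y + z))) hc K1 (h.tau z).lim tendsto_fst t
      fun p g => by rw [net.τ_τ, sub_add_cancel]

theorem App2.st (hc : ∀ v : R4, 0 < v 0 → ContinuousAt r.T v) (K1 : 1 ≤ K) (h : App2 r K M l Φ)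
    {s : J → ι} (hs : Tendsto s m l) : App2 r (2 * K) (dbl r K M) m fun p => Φ (s p) :=
  ⟨fun _ => h.add _, fun U g a b => hs.eventually (h.loc U g a b),
    Cvg.mv (Φ := Φ) (Ψ := fun p => Φ (s p)) (w := fun _ => 0) hc K1 h.lim hs tendsto_const_nhds
      fun _ _ => (net.τ_zero _).symm⟩

end Pool.Agent.Lib.MP_7f377f_mp.Lm

namespace Pool.Agent.Lib.MP_7f377f_mp.Wv
variable [Pool.Agent.Lib.MP_7f377f_mp.GD]
set_option linter.unusedSectionVars false

open MeasureTheory Filter Topology Set Complex YM7 Pur Lg Wm Lm Matrix MvPolynomial Lb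
open scoped Matrix.Norms.Elementwise

theorem convU {ι H : Type} [NormedAddCommGroup H] [InnerProductSpace ℂ H] [CompleteSpace H]
    {W : Pol →ₗ[ℂ] ℂ} {K : ℝ} {l : Filter ι} [l.NeBot] {O : ι → Lab ℂ → (R4 → ℝ) → Pol}
    (h : Inl W K (fun μ c => rho ((Lb.mx (rfL μ)).map (↑)) cᴴ) (fun R => rho ((Lb.mx R).map (↑))) l O)
    (h0 : Bas W K l fun j => O j c0) (hL : LinP W) (hS : net.St W) (hr : Rot W) (hq : Quantum H W)
    {W' : Lm.PolL (Lab ℂ) →ₗ[ℂ] ℂ}
    (lim : ∀ U U', Disjoint U U' → ∀ Y ∈ (Lm.netL (inv4 rp_rho)).loc U, ∀ Z ∈ net.loc U',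
      Tendsto (fun j => W (Lm.sub (O j) Y * Z)) l (𝓝 (W' (Y * emb c0 Z))))
    {k : ℕ} (c : Fin k → Lab ℂ) {g : Fin k → R4 → ℝ} (hg : Adm g) {z : R4} {U : Set R4} {Z : Pol}
    (hZ : Z ∈ net.loc U) (hd : ∀ i, ∀ y ∈ tsupport (g i), y + z ∉ U) :
    Tendsto (fun p : ι × R4 => W (net.τ p.2 (∏ i, O p.1 (c i) (g i)) * Z)) (l ×ˢ 𝓝 z)
      (𝓝 (W' ((∏ i, X (c i, fun y => g i (y - z))) * emb c0 Z))) := by
  obtain ⟨r, r1, -, -, -⟩ := rep_of hS hq
  obtain ⟨E, e1, e2, -⟩ := sA_of sA1_of sA2_of sA3_of sA4_of H r.T r1 (sB0_of H W r hS hr r1)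
  have hc : ∀ v : R4, 0 < v 0 → ContinuousAt r.T v := fun v hv =>
    (ContinuousAt.comp (e1.hol.continuousOn.continuousAt (isOpen_TO.mem_nhds
      (TV.to hv (euc_mem v)))) continuous_euc.continuousAt).congr
      (((isOpen_Hs 0 0).eventually_mem hv).mono fun u hu => e2 u (le_of_lt hu))
  obtain ⟨M, hM⟩ := Inl.app (ρ := rE rho) (r := r) h hS (rE_one rp_rho) (B1.rs r e1 e2)
  have a1 : ∀ c, App2 r K (fun R => M (rE rho R c)) l fun j => O j c := fun c =>
    ⟨fun j g g' a b Z _ => by rw [(hM c).add j g g' a b, add_mul, map_add], h.loc c, (hM c).lim⟩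
  have a2 := (app_X hS hL h0 (B1.rs r e1 e2) (hM c0)).st hc h.one
    (tendsto_fst (f := l) (g := 𝓝 z))
  have ga := adm_sub hg z
  have gs : ∀ i, tsupport (fun y => g i (y - z)) ⊆ Uᶜ := fun i y hy => by
    simpa using hd i _ (tsupport_comp (θ := fun y => y - z) (by fun_prop) hy)
  induction hZ using Submodule.span_induction with
  | mem Z hZ =>
    obtain ⟨n, f, f1, f2, rfl⟩ := hZ
    obtain ⟨w, hw⟩ := conv2 (r := r) (l := l ×ˢ 𝓝 z) (K := 2 * K) hS hr (by linarith [h.one])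
      (Fin.append (fun i => dbl r K fun R => M (rE rho R (c i)))
        fun _ => dbl r K fun _ => M (rE rho 1 c0))
      (ga.append f1 fun i j => disjoint_compl_left.mono (gs i) (f2 j))
    have b1 := hw (Fin.append (fun i p g => net.τ p.2 (O p.1 (c i) fun y => g (y + z)))
      fun _ _ g => X g) (YM5.forall_append₂ (P := fun M Φ => App2 r (2 * K) M (l ×ˢ 𝓝 z) Φ)
        (fun i => app_mv hc h.one (hM (c i)) (h.loc _) z) fun _ => a2)
    have b2 := hw (Fin.append (fun i p => O p.1 (c i)) fun _ _ g => X g)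
      (YM5.forall_append₂ (P := fun M Φ => App2 r (2 * K) M (l ×ˢ 𝓝 z) Φ)
        (fun i => (a1 (c i)).st hc h.one tendsto_fst) fun _ => a2)
    have b3 := (lim _ _ disjoint_compl_left _ (gen_mem (gen_netL (inv4 rp_rho)) c ga gs) _
      (mon_mem f1 f2)).comp (tendsto_fst (f := l) (g := 𝓝 z))
    simp only [Fin.prod_univ_add, Fin.append_left, Fin.append_right, add_sub_cancel_right]
      at b1 b2
    rw [tendsto_nhds_unique b3 (by simpa [Lm.sub, mon, Function.comp_def] using b2)]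
    simpa only [map_prod, mon] using b1
  | zero => simp
  | add X Y _ _ a b => simpa only [mul_add, map_add] using a.add b
  | smul c X _ a => simpa only [map_smul, mul_smul_comm] using a.const_smul c

end Pool.Agent.Lib.MP_7f377f_mp.Wv
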