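import Pool.Agent.Lib.MP_7f377f_mp.G.OpU
import Pool.Agent.Lib.MP_7f377f_mp.G.OpM
import Pool.Agent.Lib.MP_7f377f_mp.G.SbA
import Pool.Agent.Lib.MP_7f377f_mp.YF

/-! The product of two composite fields: the passage to the limit. -/

noncomputable section

namespace Pool.Agent.Lib.MP_7f377f_mp.Cm
variable [Pool.Agent.Lib.MP_7f377f_mp.GD]
set_option linter.unusedSectionVars false

open MeasureTheory Filter Topology Set Real YM7 Pur Lg Wm Lm Matrix MvPolynomial Asymptotics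
open Ope (gp sc ctr cv Dt)
open Lb (Lab rho c0)
open scoped Matrix.Norms.Elementwise

/-- the expansion of the product for the approximants -/
def OpS (S : Pol →ₗ[ℂ] ℂ) (a : ℝ) (l : Filter (ℕ × ℕ)) (O : ℕ × ℕ → Lab ℂ → (R4 → ℝ) → Pol)
    (M : ℝ → Lab ℂ →ₗ[ℂ] Lab ℂ) (c c' b : Lab ℂ) (u : Fin 2 → R4 → ℝ) : Prop :=
  ∃ κ : ℝ × ℕ × ℕ → Lab ℂ, Tendsto κ ((𝓝[>] 0).curry l) (𝓝 b) ∧ ∀ f Z, Dt f Z → ∃ R K,
    ∀ᶠ p in (𝓝[>] (0 : ℝ)).curry l, net.QB S ((ctr S (Yl ((((p.1 ^ 4)⁻¹ : ℝ) : ℂ) •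
      (O p.2 (M p.1 c) (sc p.1 (u 0)) * O p.2 (M p.1 c') (sc p.1 (u 1)))) 1 p.2.2 f) -
        O p.2 (M p.1 (κ p)) f) * Z) R (K * p.1 ^ a)

theorem lin_lim {ι : Type} {F : Filter ι} [F.NeBot] {L : ι → Lab ℂ →ₗ[ℂ] ℂ} {φ : Lab ℂ → ℂ}
    (h : ∀ x, Tendsto (fun j => L j x) F (𝓝 (φ x))) {x : ι → Lab ℂ} {y : Lab ℂ}
    (hx : Tendsto x F (𝓝 y)) : Tendsto (fun j => L j (x j)) F (𝓝 (φ y)) := by
  have e : ∀ j y, L j y = ∑ α, ∑ β, y α β * L j (single α β 1) := fun j y => by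
    conv_lhs => rw [matrix_eq_sum_single y]
    simp only [map_sum]
    refine Finset.sum_congr rfl fun α _ => Finset.sum_congr rfl fun β _ => ?_
    rw [← smul_eq_mul, ← map_smul, smul_single, smul_eq_mul, mul_one]
  have k : ∀ {x : ι → Lab ℂ} {y}, Tendsto x F (𝓝 y) → Tendsto (fun j => L j (x j)) F
      (𝓝 (∑ α, ∑ β, y α β * φ (single α β 1))) := fun hx => (tendsto_finsetSum _ fun α _ =>
    tendsto_finsetSum _ fun β _ => (tendsto_pi_nhds.1 (tendsto_pi_nhds.1 hx α) β).mul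
      (h _)).congr fun j => (e j _).symm
  rw [tendsto_nhds_unique (h y) (k tendsto_const_nhds)]
  exact k hx

/-- Riemann sums of moving functions -/
theorem riem_mv {ι : Type} {l : Filter ι} [l.NeBot] {e : ι → ℕ} (he : Tendsto e l atTop)
    {f : R4 → ℝ} (hf : Adm ![f]) {F : ι × R4 → ℂ} {G : R4 → ℂ}
    (hJ : ∀ z ∈ tsupport f, Tendsto F (l ×ˢ 𝓝 z) (𝓝 (G z))) :
    Tendsto (fun j => ∑ x ∈ (Ope.fin_gp hf (e j)).toFinset,
      (((3 ^ e j)⁻¹ ^ 4 * f (gp (e j) x) : ℝ) : ℂ) * F (j, gp (e j) x)) l (𝓝 (∫ z, f z * G z)) := by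
  have fc := (Ope.adm_one.1 hf).2.continuous
  have R : ∀ Φ : R4 → ℂ, Continuous Φ → (∀ z, f z = 0 → Φ z = 0) → Tendsto (fun j =>
      ∑ x ∈ (Ope.fin_gp hf (e j)).toFinset, (((3 ^ e j)⁻¹ ^ 4 : ℝ) : ℂ) * Φ (gp (e j) x)) l
        (𝓝 (∫ z, Φ z)) := fun Φ h1 h2 => by
    refine ((St.riem h1 ((Ope.adm_one.1 hf).1.mono fun z => mt (h2 z))).comp
      ((tendsto_inv_atTop_nhdsGT_zero.comp (tendsto_pow_atTop_atTop_of_one_lt
        (by norm_num : (1 : ℝ) < 3))).comp he)).congr fun j => ?_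
    rw [← Finset.mul_sum, ← tsum_eq_sum (L := .unconditional _) (s := (Ope.fin_gp hf (e j)).toFinset)
      fun x hx => h2 _ (not_not.1 fun e => hx ((Finite.mem_toFinset _).2 e)), Complex.ofReal_pow]
    rfl
  have gc : ContinuousOn G (tsupport f) := fun x hx =>
    Metric.nhds_basis_closedBall.tendsto_right_iff.2 fun η η0 => by
      filter_upwards [mem_nhdsWithin_of_mem_nhds (eventually_swap_iff.1 ((hJ x hx).eventually
        (Metric.closedBall_mem_nhds _ η0))).curry, self_mem_nhdsWithin] with y h1 h2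
      exact Metric.isClosed_closedBall.mem_of_tendsto
        ((hJ y h2).comp (tendsto_id.prodMk tendsto_const_nhds)) h1
  have un : TendstoUniformlyOn (fun j y => F (j, y)) G l (tsupport f) :=
    (tendstoLocallyUniformlyOn_iff_tendstoUniformlyOn_of_compact (Ope.adm_one.1 hf).1).1
      (tendstoLocallyUniformlyOn_iff_forall_tendsto.2 fun x hx =>
        (((gc x hx).tendsto.comp tendsto_snd).prodMk_nhds ((hJ x hx).mono_left
          (prod_mono le_rfl nhdsWithin_le_nhds))).mono_right (nhds_le_uniformity _))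
  have r1 := R (fun z => f z * G z) (continuousOn_univ.1 ((((Complex.continuous_ofReal.comp
    fc).continuousOn.mul gc).union_of_isClosed ((continuousOn_const (c := 0)).congr
      (s := {y | f y = 0}) fun y hy => by simp [show f y = 0 from hy]) (isClosed_tsupport _)
        (isClosed_eq fc continuous_const)).mono fun y _ =>
          or_iff_not_imp_right.2 (subset_tsupport _ ·))) fun z hz => by simp [hz]
  have r2 := (Complex.continuous_re.tendsto _).comp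
    (R (fun z => (|f z| : ℝ)) (by fun_prop) fun z hz => by simp [hz])
  obtain ⟨C, C1, C0⟩ := (exists_gt (max (∫ z, ((|f z| : ℝ) : ℂ)).re 0)).imp fun _ => max_lt_iff.1
  have hC := r2.eventually_le_const C1
  refine r1.congr_dist (Metric.nhds_basis_closedBall.tendsto_right_iff.2 fun η η0 => ?_)
  filter_upwards [hC, Metric.tendstoUniformlyOn_iff.1 un _ (div_pos η0 C0)] with j h1 h2
  rw [mem_closedBall_zero_iff, Real.norm_of_nonneg dist_nonneg]
  refine (dist_sum_sum_le _ _ _).trans (le_trans ?_ ((mul_le_mul_of_nonneg_left h1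
    (div_pos η0 C0).le).trans (div_mul_cancel₀ _ C0.ne').le))
  simp only [Function.comp, Complex.re_sum, ← Complex.ofReal_mul, Complex.ofReal_re, ← mul_assoc,
    Finset.mul_sum]
  refine Finset.sum_le_sum fun x hx => ?_
  rw [dist_eq_norm, ← mul_sub, norm_mul, Complex.norm_real, norm_mul, mul_comm, mul_assoc,
    Real.norm_of_nonneg (by positivity), ← dist_eq_norm]
  exact mul_le_mul_of_nonneg_right (h2 _ (subset_tsupport _
    ((Ope.fin_gp hf (e j)).mem_toFinset.1 hx))).le (by positivity)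

theorem OpS.lim {H : Type} [NormedAddCommGroup H] [InnerProductSpace ℂ H] [CompleteSpace H]
    {S W : Pol →ₗ[ℂ] ℂ} {K a : ℝ} {l : Filter (ℕ × ℕ)} [l.NeBot]
    {O : ℕ × ℕ → Lab ℂ → (R4 → ℝ) → Pol} {M : ℝ → Lab ℂ →ₗ[ℂ] Lab ℂ} {c c' b : Lab ℂ}
    {u : Fin 2 → R4 → ℝ} (E : OpS S a l O M c c' b u) (hu : Adm u) (hl : Tendsto Prod.snd l atTop)
    (h : Inl W K (fun μ c => rho ((Lb.mx (rfL μ)).map (↑)) cᴴ) (fun R => rho ((Lb.mx R).map (↑))) l O)
    (h0 : Bas W K l fun j => O j c0) (hL : LinP W) (hS : net.St W) (hr : Rot W) (hq : Quantum H W)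
    (hD : net.Dom S W) {W' : PolL (Lab ℂ) →ₗ[ℂ] ℂ}
    (lim : ∀ U U', Disjoint U U' → ∀ Y ∈ (netL (Wv.inv4 Wv.rp_rho)).loc U, ∀ Z ∈ net.loc U',
      Tendsto (fun j => W (Lm.sub (O j) Y * Z)) l (𝓝 (W' (Y * emb c0 Z)))) :
    ∃ C : ℝ → Lab ℂ, Tendsto C (𝓝[>] 0) (𝓝 b) ∧ ∀ f Z, Dt f Z →
      (fun t : ℝ => (∫ z, f z * YF.cov W' (X (M t c, fun y => u 0 (t⁻¹ • (y - z))) *
        X (M t c', fun y => u 1 (t⁻¹ • (y - z)))) (emb c0 Z)) / t ^ 4 -
          YF.cov W' (X (M t (C t), f)) (emb c0 Z)) =O[𝓝[>] 0] fun t => t ^ a := by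
  obtain ⟨κ, hκ, hE⟩ := E
  have hU := Ultrafilter.of_le l
  obtain ⟨C, hC⟩ : ∃ C : ℝ → Lab ℂ, ∀ᶠ t in 𝓝[>] (0 : ℝ),
      Tendsto (fun j => κ (t, j)) (Ultrafilter.of l) (𝓝 (C t)) := by
    have := FiniteDimensional.proper ℂ (Lab ℂ)
    refine ⟨fun t => limUnder (Ultrafilter.of l) fun j => κ (t, j), ?_⟩
    filter_upwards [eventually_curry_iff.1 (hκ.eventually (Metric.closedBall_mem_nhds b one_pos))]
      with t ht
    obtain ⟨x, -, hx⟩ := (isCompact_closedBall b 1).ultrafilter_le_nhds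
      ((Ultrafilter.of l).map fun j => κ (t, j)) (le_principal_iff.2 (hU ht))
    exact tendsto_nhds_limUnder ⟨x, hx⟩
  refine ⟨C, Metric.nhds_basis_closedBall.tendsto_right_iff.2 fun η η0 => ?_, fun f Z d => ?_⟩
  · filter_upwards [hC, eventually_curry_iff.1 (hκ.eventually (Metric.closedBall_mem_nhds b η0))]
      with t h1 h2 using Metric.isClosed_closedBall.mem_of_tendsto h1 (hU h2)
  obtain ⟨R, K₁, e1⟩ := hE f Z d
  obtain ⟨R', K₂, e2⟩ := hE f 1 d.one
  obtain ⟨δ, δ0, hZ⟩ := d.sep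
  obtain ⟨r, r0, hr'⟩ := (isCompact_iUnion fun i => (hu.1 i).1.isCompact).isBounded.exists_pos_norm_le
  have f1 := Ope.adm_one.1 d.1
  have wz : W' (emb c0 Z) = W Z := by
    simpa using tendsto_nhds_unique (lim _ _ (empty_disjoint _) 1 (Net.one _ _) Z d.2)
      (tendsto_const_nhds.congr fun j => by rw [map_one, one_mul])
  refine .of_bound (K₁ + K₂ * ‖W Z‖) ?_
  filter_upwards [hC, eventually_curry_iff.1 e1, eventually_curry_iff.1 e2,
    Ioo_mem_nhdsGT (div_pos δ0 r0)] with t a0 a1 a2 ht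
  have b1 : ∀ Y, Dt f Y → Tendsto (fun j => W (O j (M t (κ (t, j))) f * Y)) (Ultrafilter.of l)
      (𝓝 (W' (X (M t (C t), f) * emb c0 Y))) := fun Y hY => by
      have c := fun j t a b => h.linc j t a b f ⟨f1.1, f1.2, subset_univ _⟩
      have z : ∀ j, O j 0 f = 0 := fun j => by simpa using c j 1 0 0
      refine lin_lim (φ := fun x => W' (X (M t x, f) * emb c0 Y)) (L := fun j =>
        W ∘ₗ LinearMap.mulRight ℂ Y ∘ₗ IsLinearMap.mk' (O j · f) ⟨fun a b => by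
          simpa using c j 1 a b, fun t a => by simpa [z] using c j t a 0⟩ ∘ₗ M t) (fun x => ?_) a0
      simpa [Lm.sub] using (lim _ _ disjoint_compl_right _ (Wv.gen_mem (gen_netL _) ![M t x] d.1
        fun i => by fin_cases i; exact subset_rfl) Y hY.2).mono_left hU
  have b2 := fun z (hz : z ∈ tsupport f) Y (hY : Y ∈ net.loc (Metric.thickening δ (tsupport f))ᶜ) =>
    Wv.convU h h0 hL hS hr hq lim ![M t c, M t c'] (hu.smul (inv_pos.2 ht.1).ne') hY (z := z)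
      fun i y hy => not_not.2 (Metric.mem_thickening_iff.2 ⟨z, hz, by
        have := hr' _ (mem_iUnion.2 ⟨i, tsupport_comp (θ := fun y => t⁻¹ • y) (by fun_prop) hy⟩)
        rw [norm_smul, norm_inv, Real.norm_of_nonneg ht.1.le, inv_mul_le_iff₀ ht.1] at this
        simpa [dist_eq_norm] using this.trans_lt ((lt_div_iff₀ r0).1 ht.2)⟩)
  have b3 := (riem_mv hl d.1 fun z hz => (b2 z hz Z hZ).sub
    ((b2 z hz 1 (net.one _)).mul_const (W Z))).div_const (t ^ 4)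
  have b4 := (b3.mono_left hU).sub ((b1 Z d).sub ((b1 1 d.one).mul_const (W Z)))
  simp only [Fin.prod_univ_two, cons_val_zero, cons_val_one, map_one, mul_one] at b4
  rw [Real.norm_of_nonneg (rpow_pos_of_pos ht.1 a).le]
  simp only [YF.cov, wz]
  refine le_of_tendsto b4.norm ?_
  filter_upwards [hU a1, hU a2] with j c1 c2
  have c3 := (norm_sub_le _ _).trans (add_le_add (hS.bound (hD.qb c1)) ((norm_mul_le _ _).trans
    (mul_le_mul_of_nonneg_right (hS.bound (hD.qb c2)) (norm_nonneg (W Z)))))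
  rw [mul_one, ← cv, Ope.cv_sub, ctr, Ope.cv_C hS.one, Yl_smul f1.1, Ope.cv_smul,
    Yl_eq fun x => (Ope.fin_gp d.1 _).mem_toFinset.2, Ope.cv_sum] at c3
  have e : ∀ z B, sh 1 z B = net.τ z B := fun z B => by simp [sh, net]
  simp only [Ope.cv_smul, e, div_one] at c3
  rw [div_eq_inv_mul, add_mul, mul_right_comm]
  push_cast at c3 ⊢
  exact c3

end Pool.Agent.Lib.MP_7f377f_mp.Cm
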