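import Pool.Agent.Lib.MP_7f377f_mp.G.WvLm
import Pool.Agent.Lib.MP_7f377f_mp.Lb0

/-! Labels: tensors of rank four as matrices. -/

noncomputable section

namespace Pool.Agent.Lib.MP_7f377f_mp.Wv
variable [Pool.Agent.Lib.MP_7f377f_mp.GD]
set_option linter.unusedSectionVars false

open MeasureTheory Filter Topology Set Complex YM7 Pur Lg Wm Lm Matrix MvPolynomial Lb
open scoped Matrix.Norms.Elementwise Kronecker

theorem rp_rho : Rp (rho (K := ℂ)) where
  one c := by simp [rho]
  mul g g' c := by simp only [rho, mul_kronecker_mul, transpose_mul, Matrix.mul_assoc]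
  hol f hf c := differentiable_pi.2 fun a => differentiable_pi.2 fun b => by
    simp only [rho, mul_apply, transpose_apply, kroneckerMap_apply]
    fun_prop
  cont c := continuous_pi fun a => continuous_pi fun b => by
    simp only [rho, mul_apply, transpose_apply, kroneckerMap_apply]
    fun_prop
  star g c := by
    have e : (g ⊗ₖ g)ᴴ = (g.map star ⊗ₖ g.map star)ᵀ := by
      ext a b
      simp [conjTranspose_apply, kroneckerMap_apply]
    have e' : ((g ⊗ₖ g)ᵀ)ᴴ = g.map star ⊗ₖ g.map star := by
      ext a b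
      simp [conjTranspose_apply, kroneckerMap_apply]
    simp only [rho, star_eq_conjTranspose, conjTranspose_mul, e, e', Matrix.mul_assoc]
  lin g t c c' := by
    simp only [rho, Matrix.mul_add, Matrix.add_mul, Matrix.mul_smul, Matrix.smul_mul]

theorem mat_orth (Q : Ro.Iso) : cm (mat Q) * (cm (mat Q))ᵀ = 1 := by
  rw [← transpose_map, ← cm_mul, mul_eq_one_comm.1 (act_ext fun y => ext_inner_left ℝ fun x => by
    rw [act_mul, inner_act, transpose_transpose, act_mat, act_mat, act_one, Q.inner_map_map]),
    cm_one]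

theorem rE_c0 (Q : Ro.Iso) : rE rho Q (c0 : Lab ℂ) = c0 := by
  rw [rE, rho, c0, Matrix.mul_smul, Matrix.mul_one, Matrix.smul_mul, ← kroneckerMap_transpose,
    ← mul_kronecker_mul, mat_orth, one_kronecker_one]

theorem tE_c0 (μ : Fin 4) : tE rho μ (c0 : Lab ℂ) = c0 := by
  rw [tE, show star (c0 : Lab ℂ) = c0 by simp [c0], rE_c0]

end Pool.Agent.Lib.MP_7f377f_mp.Wv
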