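import Pool.Agent.Lib.MP_7f377f_mp.G.YFa
import Pool.Agent.Lib.MP_7f377f_mp.G.CmF
import Pool.Agent.Lib.MP_7f377f_mp.G.WvLab

/-! Asymptotic freedom for the fields with labels. -/

noncomputable section

namespace Pool.Agent.Lib.MP_7f377f_mp.Cm
variable [Pool.Agent.Lib.MP_7f377f_mp.GD]
set_option linter.unusedSectionVars false

open MeasureTheory Filter Topology Set Real YM7 Pur MvPolynomial Lg Lm
open Lb (Lab Cl pc pa)

variable {S W : Pol →ₗ[ℂ] ℂ} {K : ℝ} {l : Filter (ℕ × ℕ)} [l.NeBot]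
  {O : ℕ × ℕ → Lab ℂ → (R4 → ℝ) → Pol} {N : Cl → ℝ → ℝ} {W' : PolL (Lab ℂ) →ₗ[ℂ] ℂ}

/-- multiplication by a number on each class -/
def dgL (n : Cl → ℂ) : Lab ℂ →ₗ[ℂ] Lab ℂ := ∑ t, n t • Lb.pcL t + n .s • (LinearMap.id - Lb.paL)

theorem dgL_eq (n : Cl → ℂ) (c : Lab ℂ) : dgL n c = ∑ t, n t • pc t c + n .s • (c - pa c) := by
  simp only [dgL, LinearMap.add_apply, LinearMap.sum_apply, LinearMap.smul_apply]
  rfl

theorem pa_dgL (n : Cl → ℂ) (c : Lab ℂ) : pa (dgL n c) = ∑ t, n t • pc t c := by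
  rw [dgL_eq, Lb.pa_add, Lb.pa_smul, Lb.pa_sub, Lb.pa_pa, sub_self, smul_zero, add_zero]
  exact (map_sum Lb.paL _ _).trans (Finset.sum_congr rfl fun t _ =>
    (Lb.pa_smul _).trans (by rw [Lb.pa_pc]))

theorem pc_dgL (n : Cl → ℂ) (t : Cl) (c : Lab ℂ) : pc t (dgL n c) = n t • pc t c := by
  rw [← Lb.pc_pa, pa_dgL]
  refine (map_sum (Lb.pcL t) _ _).trans ((Finset.sum_eq_single t (fun u _ h => ?_) (by simp)).trans ?_)
  · exact (Lb.pc_smul _ _).trans (by rw [Lb.pc_pc, if_neg h.symm, smul_zero])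
  · exact (Lb.pc_smul _ _).trans (by rw [Lb.pc_pc, if_pos rfl])

theorem dgL_inv {m n : Cl → ℂ} (h : ∀ t, m t * n t = 1) (c : Lab ℂ) : dgL m (dgL n c) = c := by
  rw [dgL_eq, pa_dgL]
  simp only [pc_dgL, smul_smul, h, one_smul, Lb.sum_pc]
  rw [dgL_eq, add_sub_cancel_left, smul_smul, h, one_smul, add_sub_cancel]

theorem dgL_one (n : Cl → ℂ) : dgL n 1 = n .s • 1 := by
  have h : pa (1 : Lab ℂ) = Lb.an := by simp [pa, Lb.sy_of, Lb.an_an]
  have e : pc .s (1 : Lab ℂ) = Lb.an := by simp [pc, Lb.ip_an, Lb.tr_an]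
  have e' : ∀ t, pc t (1 : Lab ℂ) = if t = .s then Lb.an else 0 := fun t => by
    rw [← Lb.pc_pa, h, ← e, Lb.pc_pc]
    split_ifs with a
    · rw [a]
    · rfl
  simp only [dgL_eq, h, e', smul_ite, smul_zero, Finset.sum_ite_eq', Finset.mem_univ, if_true,
    ← smul_add, add_sub_cancel]

theorem dgL_zero {n : ℝ → Cl → ℂ} {F : Filter ℝ} {u : ℝ → ℝ}
    (h : ∀ t, Tendsto (fun D => u D • n D t) F (𝓝 0)) (c : Lab ℂ) :
    Tendsto (fun D => u D • dgL (n D) c) F (𝓝 0) := by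
  have := (tendsto_finset_sum Finset.univ fun t _ => (h t).smul_const (pc t c)).add
    ((h .s).smul_const (c - pa c))
  simpa only [dgL_eq, smul_add, Finset.smul_sum, smul_assoc, zero_smul, Finset.sum_const_zero,
    add_zero] using this

theorem Res.ml (R : Res S K l O N)
    (lim : ∀ k (a : Fin k → Lab ℂ) (f : Fin k → R4 → ℝ), Adm f →
      Tendsto (fun j => W (∏ i, O j (a i) (f i))) l (𝓝 (W' (∏ i, X (a i, f i)))))
    {k : ℕ} {f : Fin k → R4 → ℝ} (hf : Adm f) :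
    ∃ M : MultilinearMap ℂ (fun _ : Fin k => Lab ℂ) ℂ, (∀ a, M a = W' (∏ i, X (a i, f i))) ∧
      ∀ a, M (fun i => Lb.pa (a i)) = M a := by
  have c := fun j i t a b => R.inl.linc j t a b (f i) ⟨(hf.1 i).1, (hf.1 i).2, subset_univ _⟩
  have z : ∀ j i, O j 0 (f i) = 0 := fun j i => by simpa using c j i 1 0 0
  let L : ℕ × ℕ → Fin k → Lab ℂ →ₗ[ℂ] Pol := fun j i =>
    { toFun a := O j a (f i)
      map_add' a b := by simpa using c j i 1 a b
      map_smul' t a := by simpa [z] using c j i t a 0 }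
  let M := fun j => W.compMultilinearMap
    ((MultilinearMap.mkPiAlgebra ℂ (Fin k) Pol).compLinearMap (L j))
  have e : ∀ a, Tendsto (fun j => M j a) l (𝓝 (W' (∏ i, X (a i, f i)))) := fun a => lim k a f hf
  refine ⟨⟨fun a => W' (∏ i, X (a i, f i)), fun a i x y => ?_, fun a i t x => ?_⟩, fun _ => rfl,
    fun a => ?_⟩
  · exact tendsto_nhds_unique (e _) (((e _).add (e _)).congr fun j =>
      ((M j).map_update_add a i x y).symm)
  · exact tendsto_nhds_unique (e _) (((e _).const_smul t).congr fun j =>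
      ((M j).map_update_smul a i t x).symm)
  · exact tendsto_nhds_unique (lim k _ f hf) ((lim k a f hf).congr fun j => by simp only [R.pa])

/-- the law for labels in the classes -/
theorem Res.law' (R : Res S K l O N) (hD : net.Dom S W) (hW : net.St W)
    (lim : ∀ k (a : Fin k → Lab ℂ) (f : Fin k → R4 → ℝ), Adm f →
      Tendsto (fun j => W (∏ i, O j (a i) (f i))) l (𝓝 (W' (∏ i, X (a i, f i)))))
    {k : ℕ} (t : Fin k → Cl) {a : Fin k → Lab ℂ} {f : Fin k → R4 → ℝ} (hf : Adm f)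
    (ha : ∀ i, pc (t i) (a i) = a i) :
    Tendsto (fun D => ((∏ i, N (t i) D : ℝ) : ℂ) * W' (∏ i, X (a i, Ope.sc D (f i)))) (𝓝[>] 0)
      (𝓝 (frI a f)) := by
  refine Metric.nhds_basis_closedBall.tendsto_right_iff.2 fun η η0 => ?_
  filter_upwards [R.law k t a f hf ha η η0, self_mem_nhdsWithin] with D h D0
  refine mem_closedBall_iff_norm.2 (le_of_tendsto ((((lim k a (fun i => Ope.sc D (f i))
    (hf.smul (inv_ne_zero (ne_of_gt D0)))).const_mul _).sub_const _).norm) (h.mono fun j e => ?_))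
  have := (e.dom hD).bound hW
  rwa [map_sub, map_smul, C_eq_smul_one, map_smul, hW.one, smul_eq_mul, smul_eq_mul, mul_one] at this

theorem Res.af (R : Res S K l O N) (hD : net.Dom S W) (hW : net.St W)
    (lim : ∀ k (a : Fin k → Lab ℂ) (f : Fin k → R4 → ℝ), Adm f →
      Tendsto (fun j => W (∏ i, O j (a i) (f i))) l (𝓝 (W' (∏ i, X (a i, f i))))) :
    YF.AF gm GD.d W' := by
  have g0 : 0 < gm := by
    have := GD.b0_pos
    unfold gm
    positivity
  classical
  obtain ⟨n, hn⟩ : ∃ n : ℝ → Cl → ℝ, ∀ D t, n D t = if N t D = 0 then 1 else gm * N t D :=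
    ⟨_, fun _ _ => rfl⟩
  have n0 : ∀ D t, (n D t : ℂ) ≠ 0 := fun D t => by
    rw [hn, Complex.ofReal_ne_zero]
    split_ifs with h
    exacts [one_ne_zero, mul_ne_zero g0.ne' h]
  have sl : ∀ b > (0 : ℝ), ∀ᶠ D in 𝓝[>] (0 : ℝ), 0 < D ∧ ∀ t, D ^ b ≤ N t D ∧ N t D ≤ D ^ (-b) ∧
      n D t = gm * N t D := fun b b0 => by
    filter_upwards [self_mem_nhdsWithin, eventually_all.2 fun t => R.slow t b b0] with D D0 h
    exact ⟨D0, fun t => ⟨(h t).1, (h t).2,
      by rw [hn, if_neg ((rpow_pos_of_pos D0 b).trans_le (h t).1).ne']⟩⟩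
  refine ⟨fun D => .ofLinear (dgL fun t => n D t) (dgL fun t => (n D t : ℂ)⁻¹)
    (LinearMap.ext (dgL_inv fun t => mul_inv_cancel₀ (n0 D t)))
    (LinearMap.ext (dgL_inv fun t => inv_mul_cancel₀ (n0 D t))), fun D g c hg => ?_,
    fun D hD => ?_, fun ε ε0 c => ?_, fun k c f hf => ?_⟩
  · show dgL _ (Lb.rho g c) = Lb.rhoL g (dgL _ c)
    simp only [dgL_eq, map_add, map_sum, map_smul, map_sub, Lb.pc_rho hg, Lb.pa_rho hg]
    rfl
  · have l0 : 0 < log D⁻¹ := log_pos (one_lt_inv₀ hD.1 |>.2 hD.2)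
    show dgL _ 1 = _
    rw [dgL_one, hn, R.sca, if_neg (div_pos l0 g0).ne', mul_div_cancel₀ _ g0.ne', Complex.coe_smul]
  · have z : Tendsto (fun D : ℝ => D ^ (ε / 2)) (𝓝[>] 0) (𝓝 0) := by
      simpa [zero_rpow (half_pos ε0).ne'] using
        ((continuousAt_rpow_const 0 (ε / 2) (.inr (half_pos ε0).le)).tendsto).mono_left
          nhdsWithin_le_nhds
    refine Tendsto.prodMk_nhds (dgL_zero (fun t => ?_) c) (dgL_zero (fun t => ?_) c)
    · refine squeeze_zero_norm' ?_ (by simpa using z.const_mul gm)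
      filter_upwards [sl _ (half_pos ε0)] with D ⟨D0, h⟩
      obtain ⟨h1, h2, h3⟩ := h t
      have p := rpow_pos_of_pos D0
      rw [h3, norm_smul, Complex.norm_real, norm_of_nonneg (p _).le,
        norm_of_nonneg (mul_pos g0 ((p _).trans_le h1)).le, mul_left_comm,
        show ε / 2 = ε + -(ε / 2) by ring, rpow_add D0]
      gcongr
    · refine squeeze_zero_norm' ?_ (by simpa using z.const_mul gm⁻¹)
      filter_upwards [sl _ (half_pos ε0)] with D ⟨D0, h⟩
      obtain ⟨h1, h2, h3⟩ := h t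
      have p := rpow_pos_of_pos D0
      rw [h3, norm_smul, norm_inv, Complex.norm_real, norm_of_nonneg (p _).le,
        norm_of_nonneg (mul_pos g0 ((p _).trans_le h1)).le, mul_inv, mul_left_comm,
        show ε / 2 = ε + -(ε / 2) by ring, rpow_add D0, rpow_neg D0.le]
      gcongr
  · obtain ⟨F, hF⟩ := frI_ml (f := f) hf
    have e : (gm : ℂ) ^ k * ∫ y : Fin k → R4, (∏ i, (f i (y i) : ℂ)) * YF.free GD.d c y =
        ∑ t : Fin k → Cl, (gm : ℂ) ^ k * frI (fun i => pc (t i) (c i)) f := by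
      simp only [← Finset.mul_sum, ← hF, ← F.map_sum fun i t => pc t (c i), Lb.sum_pc]
      simp only [hF, frI_pa, YF.free_eq, ← Complex.ofReal_prod]
      rfl
    rw [e]
    refine (tendsto_finset_sum _ fun t _ => (R.law' hD hW lim t hf fun i => by
      rw [Lb.pc_pc, if_pos rfl]).const_mul _).congr' ?_
    filter_upwards [sl 1 one_pos] with D ⟨D0, h⟩
    obtain ⟨M, hM, hp⟩ := R.ml lim (f := fun i => Ope.sc D (f i)) (Adm.smul hf (inv_ne_zero D0.ne'))
    refine .trans ?_ ((hp fun i => dgL (fun t => n D t) (c i)).trans (hM _))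
    simp only [pa_dgL]
    rw [M.map_sum fun i t => (n D t : ℂ) • pc t (c i)]
    simp only [M.map_smul_univ, ← hM,
      fun t => (h t).2.2, smul_eq_mul, Complex.ofReal_mul, Finset.prod_mul_distrib, mul_assoc,
      Finset.prod_const, Finset.card_univ, Fintype.card_fin, Complex.ofReal_prod]

end Pool.Agent.Lib.MP_7f377f_mp.Cm
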