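import Pool.Agent.Lib.MP_7f377f_mp.G.OpN
import Pool.Agent.Lib.MP_7f377f_mp.G.OpR
import Pool.Agent.Lib.MP_7f377f_mp.G.OpV
import Pool.Agent.Lib.MP_7f377f_mp.G.YFb
import Pool.Agent.Lib.MP_7f377f_mp.YO

/-! The product of two composite fields: the expansion for the approximants. -/

noncomputable section

namespace Pool.Agent.Lib.MP_7f377f_mp.Cm
variable [Pool.Agent.Lib.MP_7f377f_mp.GD]
set_option linter.unusedSectionVars false

open MeasureTheory Filter Topology Set Real YM7 Pur MvPolynomial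
open Ope (sc ctr Dt)
open Lb (Lab Cl pc pa pt)
open scoped Matrix.Norms.Elementwise

/-- real labels as complex labels -/
def cxL : Lab ℝ →ₗ[ℝ] Lab ℂ where
  toFun := cx
  map_add' := cx_add
  map_smul' t a := (cx_smul t a).trans (Complex.coe_smul ..)

theorem cx_sum {T : Type} (s : Finset T) (v : T → Lab ℝ) : cx (∑ i ∈ s, v i) = ∑ i ∈ s, cx (v i) :=
  map_sum cxL v s

theorem cx_pa (b : Lab ℝ) : cx (pa b) = pa (cx b) := by simp only [← Lb.sum_pc, ← cx_pc, cx_sum]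

theorem pa_dg (n : Cl → ℂ) (x : Lb.Tp → ℂ) (c : Lab ℝ) :
    pa (dgL n (∑ τ, x τ • cx (pt τ c))) = ∑ τ, (n τ.cl * x τ) • cx (pt τ c) := by
  have : ∀ l, pc l (∑ τ, x τ • cx (pt τ c)) = ∑ τ, if τ.cl = l then x τ • cx (pt τ c) else 0 :=
    fun l => (map_sum (Lb.pcL l) ..).trans (Finset.sum_congr rfl fun τ _ => by
      change pc l _ = _
      rw [Lb.pc_smul, ← cx_pc, Lb.pc_pt]
      split_ifs
      exacts [rfl, by simp [cx]])
  simp only [pa_dgL, this, Finset.smul_sum]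
  rw [Finset.sum_comm]
  simp [smul_smul]

theorem pa_dg' (n : Cl → ℂ) {b b' : Lab ℂ} (e : pa b = pa b') : pa (dgL n b) = pa (dgL n b') := by
  rw [pa_dgL, pa_dgL]
  exact Finset.sum_congr rfl fun l _ => by rw [← Lb.pc_pa, e, Lb.pc_pa]

theorem bl_eq {u : Fin 2 → R4 → ℝ} (hu : Adm u) (z : Bool → ℂ) (c c' : Bool → Lab ℝ) :
    (Matrix.of fun i j => ∫ y : Fin 2 → R4, u 0 (y 0) * u 1 (y 1) *
      YF.bl (∑ s, z s • cx (c s)) (∑ s, z s • cx (c' s)) (y 1 - y 0) i j) =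
      ∑ s, ∑ s', (z s * z s') • cx (BB (c s) (c' s') u) := by
  have e : ∀ v, YF.bl (∑ s, z s • cx (c s)) (∑ s, z s • cx (c' s)) v =
      ∑ s, ∑ s', (z s * z s') • cx (BL (c s) (c' s') v) := fun v => by
    have p : (Matrix.of fun i j => (YF.pr v i j : ℂ)) = cx (Lb.pr v) := by
      ext a b
      simp only [YF.pr, Lb.pr, YG.mirror, Matrix.det_fin_two, Matrix.submatrix_apply,
        Matrix.sub_apply, Matrix.one_apply, Matrix.smul_apply, Matrix.vecMulVec_apply, smul_eq_mul,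
        Matrix.of_apply, Matrix.cons_val_zero, Matrix.cons_val_one, cx, Matrix.map_apply]
      congr 1
      ring
    have m : ∀ a b, cx (a * b) = cx a * cx b := fun a b => Matrix.map_mul (f := Complex.ofRealHom)
    have t : ∀ a, cx a.transpose = (cx a).transpose := fun _ => rfl
    simp only [YF.bl, p, BL, Lb.sy, cx_add, m, cx_smul, t, Fintype.sum_bool, Matrix.transpose_add,
      Matrix.transpose_smul, Matrix.add_mul, Matrix.mul_add, Matrix.smul_mul, Matrix.mul_smul]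
    push_cast
    module
  ext i j
  have k : ∀ s s', Integrable fun y : Fin 2 → R4 =>
      z s * z s' * (((∏ i, u i (y i)) * BL (c s) (c' s') (y 1 - y 0) i j : ℝ) : ℂ) :=
    fun s s' => (BB_int hu i j).ofReal.const_mul _
  simp only [Matrix.of_apply, e]
  simp only [Matrix.of_apply, Matrix.sum_apply, Matrix.smul_apply, smul_eq_mul, cx,
    Matrix.map_apply, BB, ← integral_complex_ofReal, ← integral_const_mul]
  rw [← Finset.sum_product', ← integral_finset_sum _ fun s _ => k s.1 s.2]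
  simp only [Finset.sum_product, Finset.mul_sum, Fin.prod_univ_two, Complex.ofReal_mul,
    mul_left_comm (z _ * z _)]

variable {S : Pol →ₗ[ℂ] ℂ} {K Λ δ a : ℝ} {h : R4 → ℝ} {ω : ∀ l : Cl, (Fin l.m → R4) → Lab ℝ}
  {x : Cl → ℕ → ℝ} {n : ℝ → Cl → ℝ} {B : ℝ × ℕ × ℕ → Pol} {b b' : Lab ℂ}

variable (S a h ω x n) in
/-- the family `B` is the field with the label `b` -/
def Ob (B : ℝ × ℕ × ℕ → Pol) (b : Lab ℂ) : Prop :=
  ∃ κ : ℝ × ℕ × ℕ → Lab ℂ, Tendsto κ Pn3 (𝓝 b) ∧ ∀ f Z, Dt f Z → ∃ R K, ∀ᶠ p in Pn3,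
    net.QB S ((ctr S (Yl (B p) 1 p.2.2 f) - Oa h ω S x p.2 (dgL (fun l => n p.1 l) (κ p)) f) * Z) R
      (K * p.1 ^ a)

theorem Pn3_fst : Tendsto Prod.fst Pn3 (𝓝[>] 0) := tendsto_fst.mono_left curry_le_prod

theorem Ob.congr {B' : ℝ × ℕ × ℕ → Pol} (u : Ob S a h ω x n B b) (e : B =ᶠ[Pn3] B') :
    Ob S a h ω x n B' b :=
  let ⟨κ, k, u⟩ := u
  ⟨κ, k, fun f Z v => let ⟨R, K, u⟩ := u f Z v; ⟨R, K, (u.and e).mono fun _ q => q.2 ▸ q.1⟩⟩

variable (hS : Sf S K) (H : Dat (GD.d / 2) h ω Λ δ)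
include H

theorem Oa_map {f : R4 → ℝ} (hf : HasCompactSupport f) (j : ℕ × ℕ) :
    ∃ L : Lab ℂ →ₗ[ℂ] Pol, ∀ c, L c = Oa h ω S x j c f := by
  have e : ∀ (t : ℂ) a b, Oa h ω S x j (t • a + b) f = t • Oa h ω S x j a f + Oa h ω S x j b f :=
    fun t a b => by
      simp only [Oa, Yc_linc H hf, smul_add, Finset.sum_add_distrib, Finset.smul_sum, smul_comm t]
  have z : Oa h ω S x j 0 f = 0 := by simpa using e (-1) 0 0
  exact ⟨⟨⟨(Oa h ω S x j · f), fun a b => by simpa using e 1 a b⟩, fun t a => by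
    simpa [z] using e t a 0⟩, fun _ => rfl⟩

theorem Ob.pa (u : Ob S a h ω x n B b) (e : pa b = pa b') : Ob S a h ω x n B b' := by
  obtain ⟨κ, k, u⟩ := u
  refine ⟨fun p => κ p + (b' - b), by simpa using k.add_const (b' - b), fun f Z v => ?_⟩
  obtain ⟨R, K, u⟩ := u f Z v
  refine ⟨R, K, u.mono fun p q => ?_⟩
  rwa [← Oa_pa H, pa_dg' _ (b' := κ p) (by rw [Lb.pa_add, Lb.pa_sub, e, sub_self, add_zero]), Oa_pa H]

include hS

theorem Ob.sum {T : Type} [Fintype T] {B : T → ℝ × ℕ × ℕ → Pol} {b : T → Lab ℂ}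
    (u : ∀ i, Ob S a h ω x n (B i) (b i)) {z : T → ℝ × ℕ × ℕ → ℂ} {z₀ : T → ℂ}
    (hz : ∀ i, Tendsto (z i) Pn3 (𝓝 (z₀ i))) :
    Ob S a h ω x n (fun p => ∑ i, z i p • B i p) (∑ i, z₀ i • b i) := by
  choose κ k u using u
  refine ⟨_, tendsto_finset_sum _ fun i _ => (hz i).smul (k i), fun f Z v => ?_⟩
  choose R K u using fun i => u i f Z v
  have st := hS.inp.st
  have cs : HasCompactSupport f := (v.1.1 0).1
  refine ⟨∑ i, |R i|, ∑ i, (‖z₀ i‖ + 1) * K i, ?_⟩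
  filter_upwards [eventually_all.2 u, eventually_all.2 fun i =>
    (hz i).norm.eventually_le_const (lt_add_one _)] with p e1 e2
  obtain ⟨L, hL⟩ := Oa_map (S := S) (x := x) H cs p.2
  obtain ⟨L', hL'⟩ := cY_lin (S := S) cs 1 p.2.2
  have := Net.QB.sum st Finset.univ (by positivity) fun i _ => ((e1 i).smul (z i p)).mono st
    ((le_abs_self _).trans (Finset.single_le_sum (f := fun i => |R i|) (fun _ _ => abs_nonneg _)
      (Finset.mem_univ i))) (mul_le_mul_of_nonneg_right (e2 i) (e1 i).2.2.1)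
  simp only [← hL, ← hL'] at this ⊢
  simpa only [map_sum, map_smul, ← Finset.sum_sub_distrib, Finset.sum_mul, ← smul_sub,
    smul_mul_assoc, mul_assoc] using this

theorem Ob.of_ap {N : Cl → ℝ → ℝ} {μ : Lb.Tp → ℝ → ℝ} (r : Rl h ω S a (Oa h ω S x) N μ)
    (hn : ∀ᶠ D in 𝓝[>] (0 : ℝ), ∀ l, n D l = gm * N l D ∧ N l D ≠ 0) {C : ℝ × ℕ × ℕ → Lab ℝ}
    {c : Lab ℝ} (hC : Tendsto C Pn3 (𝓝 c)) (u : Ap h ω S a Pn3 ix B C) :
    Ob S a h ω x n B (((gm⁻¹ : ℝ) : ℂ) • cx c) := by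
  have ct : ∀ τ, Continuous fun c : Lab ℝ => cx (pt τ c) := fun τ =>
    (cxL ∘ₗ pt τ).continuous_of_finiteDimensional
  refine Ob.pa H (b := ∑ τ, ((gm⁻¹ * 1 : ℝ) : ℂ) • cx (pt τ c)) ⟨fun p => ∑ τ,
    ((gm⁻¹ * (μ τ p.1 / N τ.cl p.1) : ℝ) : ℂ) • cx (pt τ (C p)), tendsto_finset_sum _ fun τ _ =>
      ((((r.rat τ).comp Pn3_fst).const_mul _).ofReal).smul (((ct τ).tendsto c).comp hC),
        fun f Z v => ?_⟩ (by
          rw [← Finset.smul_sum, ← cx_sum, Lb.sum_pt, mul_one, Lb.pa_smul, Lb.pa_smul, ← cx_pa,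
            Lb.pa_pa, cx_pa])
  obtain ⟨R, M, e⟩ := u f Z v
  obtain ⟨R', M', e'⟩ := r.qb f Z v
  have st := hS.inp.st
  have cs : HasCompactSupport f := (v.1.1 0).1
  have c0 : 0 < ‖c‖ + 1 := by positivity
  refine ⟨max R R', M + (‖c‖ + 1) * M', ?_⟩
  filter_upwards [e, (eventually_curry_iff (p := fun p : ℝ × ℕ × ℕ => ∀ c : Lab ℝ,
    (∀ i j, |c i j| ≤ 1) → net.QB S
    ((Rf h ω S p.1 p.2.2 c f - Oa h ω S x p.2 (cx (∑ τ, μ τ p.1 • pt τ c)) f) * Z) R'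
      (M' * p.1 ^ a))).2 e', hC.norm.eventually_le_const (lt_add_one _),
    Pn3_fst.eventually hn] with p e1 e2 e3 e4
  obtain ⟨L, hL⟩ := Oa_map (S := S) (x := x) H cs p.2
  obtain ⟨T, hT⟩ := Rf_map (S := S) H cs p.1 p.2.2
  have := (e1.mono st (le_max_left R R') le_rfl).add st (((e2 ((‖c‖ + 1)⁻¹ • C p) fun i j => by
    rw [Matrix.smul_apply, smul_eq_mul, abs_mul, abs_of_pos (inv_pos.2 c0), inv_mul_le_one₀ c0]
    exact (Matrix.norm_entry_le_entrywise_sup_norm _).trans e3).mono st (le_max_right R R')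
      le_rfl).smul ((‖c‖ + 1 : ℝ) : ℂ))
  rw [Complex.norm_real, norm_of_nonneg c0.le, ← mul_assoc, ← smul_mul_assoc, ← add_mul] at this
  rw [← Oa_pa H, pa_dg, add_mul M]
  refine Eq.subst (motive := fun v => net.QB S (v * Z) _ _) (Eq.symm ?_) this
  have g0 := gm_pos.ne'
  simp only [ix, ← hL, ← hT, map_smul, smul_sub, Complex.coe_smul, smul_inv_smul₀ c0.ne', cx_sum,
    cx_smul, map_sum, Finset.smul_sum, sub_add_sub_cancel]
  congr 1
  refine Finset.sum_congr rfl fun τ _ => ?_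
  have := (e4 τ.cl).2
  rw [(e4 τ.cl).1, ← Complex.ofReal_mul, ← Complex.coe_smul, ← Complex.coe_smul, ← Complex.coe_smul,
    smul_smul, map_smul, smul_smul, ← Complex.ofReal_mul, ← Complex.ofReal_mul]
  congr 2
  field_simp

variable {Kl : ℝ → ℝ → ℕ → Sl → Prop} {β : Cl → Lb.Tp} {A : Lb.Tp → Equiv.Perm (Fin 4) → ℕ → Pol}
  {γ : Lb.Tp → ℕ → ℕ → Bool → ℝ} {g : Lb.Tp → ℕ → Bool → ℝ} {lam : Lb.Tp → ℕ → ℝ}
  {y : ℕ → Lb.Tp → ℝ} {n₁ : ℕ} {n₀ : ℝ → ℕ}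
  (Y : Tys Lb.Tp.cl Lb.ref (GD.d / 2) Lb.Tp.T β) (I : Kin S 5 Λ δ a Kl) (J : Kx S Λ δ a Kl)
  (Q : Sq Lb.Tp.cl Lb.ref h ω S Λ δ Kl A γ g) (L : Lq Lb.Tp.cl h ω S g lam y n₁)
  (F : Aft Lb.Tp.cl Lb.ref h ω S lam 2 n₀)
include Y I J Q L F

theorem ops {u : Fin 2 → R4 → ℝ} (hu : Adm u) {ρ : ℝ → ℝ} {Z : Ix → Pol → ℝ → Prop}
    {K' : Ix → Pol → Prop} (I₂ : Kin2 S Λ δ a (a / 2) Kl ρ u Z K')
    (hn : ∀ᶠ D in 𝓝[>] (0 : ℝ), ∀ l,
      n D l = gm * (log D⁻¹ ^ l.m / (gm ^ l.m * lc lam β l (n₀ D)))) (c c' : Lab ℂ) :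
    OpS S (a / 2) (atTop.curry UU) (Oa h ω S (lc lam β)) (fun D => dgL fun l => n D l) c c'
      (Matrix.of fun i j => gm * ∫ y : Fin 2 → R4,
        u 0 (y 0) * u 1 (y 1) * YF.bl c c' (y 1 - y 0) i j) u := by
  have top := I₂.toKab.lgr.2
  have p := L.pos
  have g0 := gm_pos
  have pl : ∀ l k, 0 < lc lam β l k := fun l k => by
    unfold lc
    split_ifs
    exacts [one_pos, p _ _]
  have t1 : ∀ᶠ D in 𝓝[>] (0 : ℝ), 0 < D ∧ 0 < log D⁻¹ := Eventually.mono (Ioo_mem_nhdsGT one_pos) fun D hD =>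
    ⟨hD.1, log_pos ((one_lt_inv₀ hD.1).2 hD.2)⟩
  obtain ⟨μ, r⟩ := exists_rl hS H Y I J Q L F
  obtain ⟨W, hW, ts, hc, w⟩ := I₂.inn
  have F' := (Q.tel hS H L I).aft' hS H Y (Q.tc hS H L hW ts hc w)
  choose q q0 hq using F.rat hS H Y p le_rfl
  obtain ⟨X, hX⟩ : ∃ X : Lb.Tp → ℝ × ℕ × ℕ → ℝ, ∀ τ p, X τ p = n p.1 τ.cl * lc lam β τ.cl p.2.1 /
    lam τ p.2.1 * lam τ (mm ρ p.1) / log p.1⁻¹ ^ τ.cl.m := ⟨_, fun _ _ => rfl⟩
  have x1 : ∀ τ, Tendsto (X τ) Pn3 (𝓝 (gm / gm ^ τ.cl.m)) := fun τ => by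
    have s : Tendsto (fun p : ℝ × ℕ × ℕ => p.2.1) Pn3 atTop := tendsto_iff_eventually.2 fun s hs =>
      eventually_curry_iff.2 (.of_forall fun _ => eventually_curry_iff.2
        (hs.mono fun _ e => .of_forall fun _ => e))
    have := ((((hq τ).comp s).mul ((F'.win hS H Y p le_rfl F le_rfl τ).comp Pn3_fst)).div
      (((hq τ).comp F.top).comp Pn3_fst) (q0 τ).ne').const_mul (gm / gm ^ τ.cl.m)
    rw [mul_one, div_self (q0 τ).ne', mul_one] at this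
    refine this.congr' ?_
    filter_upwards [Pn3_fst.eventually hn, Pn3_fst.eventually t1] with z e ⟨_, l0⟩
    have := (p τ (n₀ z.1)).ne'
    have := (p τ z.2.1).ne'
    have := (pl τ.cl (n₀ z.1)).ne'
    simp only [hX, e, Function.comp, Pi.div_apply, mm]
    generalize log z.1⁻¹ = v at *
    field_simp
  obtain ⟨z, hz⟩ : ∃ z : Bool → ℂ, z = fun s => if s then Complex.I else 1 := ⟨_, rfl⟩
  obtain ⟨d, hd⟩ : ∃ d : Lab ℂ → Bool → Lab ℝ, ∀ c, c = ∑ s, z s • cx (d c s) :=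
    ⟨fun c s => c.map (if s then Complex.im else Complex.re), fun c => by
      simpa [hz, add_comm] using cx_re_im c⟩
  have k := fun i : (Bool × Lb.Tp) × Bool × Lb.Tp => (I₂.nest Q hu (pt_mem i.1.2 (d c i.1.1))
    (pt_mem i.2.2 (d c' i.2.1)) L hS H (half_pos I.pos)).elim fun _ e => Ob.of_ap hS H r
      ((hn.and t1).mono fun D e l => ⟨e.1 l, (div_pos (pow_pos e.2.2 _)
        (mul_pos (pow_pos g0 _) (pl _ _))).ne'⟩) e.1 e.2
  refine ((Ob.sum hS H k fun i => (((x1 i.1.2).mul (x1 i.2.2)).ofReal.const_mul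
    (z i.1.1 * z i.2.1))).congr ?_).pa H ?_
  · filter_upwards [Pn3_fst.eventually t1] with ⟨t, j⟩ ⟨(t0 : 0 < t), (l0 : 0 < log t⁻¹)⟩
    have O : ∀ c f, HasCompactSupport f → Oa h ω S (lc lam β) j (dgL (fun l => n t l) c) f =
        ∑ i : Bool × Lb.Tp, (z i.1 * ((n t i.2.cl * lc lam β i.2.cl j.1 / lam i.2 j.1 : ℝ) : ℂ)) •
          Yn Lb.Tp.cl h ω S lam i.2 j.1 j.2 (pt i.2 (d c i.1)) f := fun c f hf => by
      obtain ⟨T, hT⟩ := Oa_map (S := S) (x := lc lam β) H hf j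
      conv_lhs => rw [hd c, map_sum, ← hT, map_sum]
      rw [Fintype.sum_prod_type]
      refine Finset.sum_congr rfl fun s _ => ?_
      rw [map_smul, map_smul, hT, ← Oa_pa H, pa_dg' _ (b' := ∑ τ, (1 : ℂ) • cx (pt τ (d c s))) (by
        simp only [one_smul, ← cx_sum, Lb.sum_pt, cx_pa, Lb.pa_pa]), pa_dg, ← hT, map_sum,
        Finset.smul_sum]
      refine Finset.sum_congr rfl fun τ _ => ?_
      have := (p τ j.1).ne'
      rw [map_smul, hT, Oa_pc H _ _ (l := τ.cl) (by rw [← cx_pc, Lb.pc_pt, if_pos rfl]), Yn, smul_smul,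
        smul_smul, smul_smul, mul_one, mul_assoc, mul_assoc, ← Complex.ofReal_mul,
        ← Complex.ofReal_mul, div_mul_cancel₀ _ this]
    simp only [O _ _ (sc_cpt (hu.1 _).1 t0), Fintype.sum_mul_sum, Finset.smul_sum,
      Fintype.sum_prod_type (α₁ := Bool × Lb.Tp), smul_mul_smul_comm, P2, smul_smul, hX]
    refine Finset.sum_congr rfl fun i _ => Finset.sum_congr rfl fun i' _ => ?_
    congr 1
    have := Complex.ofReal_ne_zero.2 (p i.2 (mm ρ t)).ne'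
    have := Complex.ofReal_ne_zero.2 (p i'.2 (mm ρ t)).ne'
    have := Complex.ofReal_ne_zero.2 l0.ne'
    have := Complex.ofReal_ne_zero.2 t0.ne'
    simp only [pow_add, Complex.ofReal_mul, Complex.ofReal_div, Complex.ofReal_inv, Complex.ofReal_pow]
    generalize (log t⁻¹ : ℂ) = v at *
    field_simp
  · have e := bl_eq hu z (d c) (d c')
    rw [← hd, ← hd] at e
    refine .trans ?_ (congrArg (fun v => pa ((gm : ℂ) • v)) e).symm
    have e1 : ∀ a b, ∑ τ, ∑ τ', cx (pa (BB (pt τ a) (pt τ' b) u)) = cx (pa (BB a b u)) := fun a b => by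
      rw [← pa_BB hu, ← Lb.sum_pt a, ← Lb.sum_pt b, ← BBl_apply hu, LinearMap.map_sum₂]
      simp only [map_sum, BBl_apply, ← show ∀ c : Lab ℝ, Lb.paL c = pa c from fun _ => rfl, cx_sum]
    have e2 : ∀ (x : ℂ) (m m' : ℕ) (b : Lab ℝ), (x * ((gm / gm ^ m * (gm / gm ^ m') : ℝ) : ℂ)) •
        ((gm⁻¹ : ℝ) : ℂ) • cx (pa (gm ^ (m + m') • b)) = (gm * x) • cx (pa b) := fun x m m' b => by
      rw [Lb.pa_smul, cx_smul, smul_smul, smul_smul]
      congr 1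
      have := Complex.ofReal_ne_zero.2 g0.ne'
      push_cast
      field_simp
      ring
    simp only [e2, Lb.pc_pt, if_true, Fintype.sum_prod_type, Finset.smul_sum, smul_smul,
      ← show ∀ c : Lab ℂ, Lb.paL c = pa c from fun _ => rfl, map_sum, map_smul]
    refine Finset.sum_congr rfl fun s _ => Finset.sum_comm.trans (Finset.sum_congr rfl fun s' _ => ?_)
    simp only [← Finset.smul_sum, ← map_sum, e1]
    exact congrArg _ (by rw [cx_pa]; exact Lb.pa_pa)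

end Pool.Agent.Lib.MP_7f377f_mp.Cm
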