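import Pool.Agent.Lib.MP_7f377f_mp.G.PlB
import Pool.Agent.Lib.MP_7f377f_mp.G.S10KE

/-! The spectrum condition and analyticity in the translations. -/

noncomputable section

namespace Pool.Agent.Lib.MP_7f377f_mp.Pl
variable [Pool.Agent.Lib.MP_7f377f_mp.GD]
set_option linter.unusedSectionVars false

open Filter Topology Set Real YM7 Pur Ro MvPolynomial
open scoped NNReal

variable {W : Pol →ₗ[ℂ] ℂ} {H : Type} [NormedAddCommGroup H] [InnerProductSpace ℂ H]
  [CompleteSpace H] {r : net.Rep W 0 H} {k : ℕ} {Z Z' : Pol}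

namespace PA

omit [CompleteSpace H] in
theorem T_mul {μ : Fin 4} (r : net.Rep W μ H) {v w : R4} (hv : 0 ≤ v μ) (hw : 0 ≤ w μ) :
    r.T (v + w) = r.T v * r.T w :=
  DFunLike.coe_injective (r.dense.equalizer (r.T _).continuous (r.T v * r.T w).continuous
    (funext fun X => by
      have hX := X.2
      simp only [Function.comp_apply]
      rw [mul_apply_eq_comp, r.act hw hX, r.act hv (Net.τ_hs hX (by simpa)),
        r.act (add_nonneg hv hw) hX, net.τ_τ]))

theorem hol {μ : Fin 4} [Pd μ] (hS : net.St W μ) (hZ : Z ∈ net.loc {y | y μ < 0})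
    (hZ' : Z' ∈ net.loc (Hs μ 0)) : ∃ M, ∀ u : R4, u μ = 0 →
      S10.Hol (fun t => W (Z * net.τ (ax μ t + u) Z')) M := by
  obtain ⟨H, _, _, _, ⟨r⟩⟩ := hS.exists_rep
  have h1 : net.Θ μ Z ∈ net.loc (Hs μ 0) :=
    net.mono (net.Θ_mem μ hZ) fun y hy => by simpa [Hs] using hy
  refine ⟨‖r.Ψ (net.Θ μ Z)‖ * ‖r.Ψ Z'‖, fun u hu => ?_⟩
  have h2 : net.τ u Z' ∈ net.loc (Hs μ 0) := Net.τ_hs hZ' (by simp [hu])
  have p : ∀ {t : ℝ}, 0 < t → 0 ≤ ax μ t μ := fun ht => by simpa using ht.le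
  refine (S10.hol_sg (T := fun t => r.T (ax μ t)) (fun t ht => ?_) (fun t ht => r.nrm (p ht))
    (fun s hs t ht => by rw [← ax_add, T_mul r (p hs) (p ht)]) (r.Ψ (net.Θ μ Z))
    (r.Ψ (net.τ u Z'))).congr (fun t ht => ?_)
    (mul_le_mul_of_nonneg_left (r.le hu.ge hZ') (norm_nonneg _))
  · refine ContinuousLinearMap.isSelfAdjoint_iff_isSymmetric.2 fun x y => ?_
    have := r.adj hS (p ht) x y
    rwa [rf_ax, show -ax μ (-t) = ax μ t by
      ext l
      by_cases e : l = μ <;> simp [e]] at this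
  · rw [r.act (p ht) h2, r.inn h1 (Net.τ_hs h2 (by simpa using ht.le)), net.Θ_Θ, net.τ_τ]

theorem v0 (t s : ℝ) : (ax 0 t + ax 1 s) 0 = t := by
  simp

theorem vl (t s : ℝ) : (ax 0 t + ax 1 s) 1 = s := by simp

theorem two (h : H0 W) (hZ : Z ∈ net.loc {y | |y 1| < y 0}) :
    ∃ M, (∀ q > 0, S10.Hol
      (fun p => W (net.Θ 0 Z * net.τ (ax 0 (p + q) + ax 1 (p - q)) Z)) M) ∧ ∀ p > 0, S10.Hol
      (fun q => W (net.Θ 0 Z * net.τ (ax 0 (p + q) + ax 1 (p - q)) Z)) M := by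
  have c0 : 0 < cos (π / 4) := by rw [cos_pi_div_four]; positivity
  have c1 : sin (π / 4) = cos (π / 4) := by rw [cos_pi_div_four, sin_pi_div_four]
  have hA : act (rot 0 (-(π / 4))) (net.Θ 0 Z) ∈ net.loc {y | y 0 < 0 ∧ 0 < y 1} :=
    net.mono (act_mem _ (net.Θ_mem 0 hZ)) fun y hy => by
      simp only [mem_ofPred_eq, rot_symm, neg_neg, rf_self, rf_ne (one_ne_zero (α := Fin 4)), rot_zero',
        rot_one, c1, abs_lt] at hy
      constructor <;> nlinarith [hy.1, hy.2]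
  have hB : act (rot 0 (-(π / 4))) Z ∈ net.loc {y | 0 < y 0 ∧ y 1 < 0} :=
    net.mono (act_mem _ hZ) fun y hy => by
      simp only [mem_ofPred_eq, rot_symm, neg_neg, rot_zero', rot_one, c1, abs_lt] at hy
      constructor <;> nlinarith [hy.1, hy.2]
  have e : ∀ p q : ℝ, W (net.Θ 0 Z * net.τ (ax 0 (p + q) + ax 1 (p - q)) Z) =
      cmp W (rot 0 (π / 4)) (act (rot 0 (-(π / 4))) (net.Θ 0 Z) *
        net.τ (ax 0 (2 * cos (π / 4) * p) + ax 1 (-(2 * cos (π / 4) * q)))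
          (act (rot 0 (-(π / 4))) Z)) := fun p q => by
    have : ax 0 (2 * cos (π / 4) * p) + ax 1 (-(2 * cos (π / 4) * q)) =
        rot 0 (-(π / 4)) (ax 0 (p + q) + ax 1 (p - q)) := by
      ext i
      by_cases i0 : i = 0
      · rw [i0, rot_zero', v0, v0, vl, cos_neg, sin_neg, c1]
        ring
      by_cases i1 : i = 1
      · rw [i1, rot_one, vl, v0, vl, cos_neg, sin_neg, c1]
        ring
      · rw [rot_ne (l := 0) i0 i1]
        simp [i0, i1]
    rw [this, ← act_τ, ← map_mul, cmp_apply, act_act, rot_mul, add_neg_cancel, rot_zero, act_one]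
  obtain ⟨M, hM⟩ := hol h.dg (net.mono hA fun _ hy => hy.1) (net.mono hB fun _ hy => hy.1)
  obtain ⟨M', hM'⟩ := hol h.dg1 (net.mono hB fun _ hy => hy.2)
    (net.mono hA fun _ hy => hy.2)
  have c2 : 0 < 2 * cos (π / 4) := by positivity
  refine ⟨max M M', fun q _ => ((hM (ax 1 (-(2 * cos (π / 4) * q))) (by
    simp)).scale c2).congr (fun p _ => (e p q).symm) (le_max_left _ _),
    fun p hp => ((hM' (ax 0 (-(2 * cos (π / 4) * p))) (by simp)).scale c2).congr (fun q hq => ?_)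
      (le_max_right _ _)⟩
  have m := net.mul (net.mono hB fun _ hy => hy.2) (Net.τ_hs (t' := 0)
    (v := ax 1 (2 * cos (π / 4) * q) + ax 0 (-(2 * cos (π / 4) * p)))
    (net.mono hA fun _ hy => hy.2) (by
      rw [add_comm (ax _ _), vl]
      positivity)) (disjoint_left.2 fun y a b =>
      lt_asymm (show y 1 < 0 from a) (show 0 < y 1 from b))
  rw [e, ← h.dg.ti (ax 0 (2 * cos (π / 4) * p) + ax 1 (-(2 * cos (π / 4) * q)))
    (Net.adm m), map_mul (net.τ _), net.τ_τ, mul_comm (net.τ _ _),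
    show ax 0 (2 * cos (π / 4) * p) + ax 1 (-(2 * cos (π / 4) * q)) +
      (ax 1 (2 * cos (π / 4) * q) + ax 0 (-(2 * cos (π / 4) * p))) = 0 by
      rw [add_assoc, ← add_assoc (ax 1 _), ax_add, neg_add_cancel, ax_zero, zero_add, ax_add,
        add_neg_cancel, ax_zero], net.τ_zero]

end PA

open PA

theorem H0.cone (h : H0 W) (r : net.Rep W 0 H) {θ : ℝ} (h0 : 0 < θ) (h1 : θ < 1) :
    ∃ A, Cone r θ A := by
  have p : ∀ {t : ℝ} (s : ℝ), 0 ≤ t → 0 ≤ (ax 0 t + ax 1 s) 0 := fun s ht =>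
    ht.trans_eq (v0 _ s).symm
  obtain ⟨A, a1, a2, a3⟩ := S10.cone (T := fun t s => r.T (ax 0 t + ax 1 s))
    (fun t ht s => r.nrm (p s ht))
    (fun t ht t' ht' s s' => by
      rw [← T_mul r (p s ht) (p s' ht'), add_add_add_comm, ax_add, ax_add])
    (fun t ht s x y => by
      rw [r.adj h.st (p s ht)]
      refine congrArg (fun v => inner ℂ x (r.T v y)) ?_
      ext i
      by_cases i0 : i = 0
      · simp [i0]
      · rw [PiLp.neg_apply, rf_ne i0]
        by_cases i1 : i = 1 <;> simp [i0, i1])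
    (D := range fun X : net.loc (Hs 0 0) => r.Ψ X) r.dense
    (by
      rintro _ ⟨⟨X, hX⟩, rfl⟩
      have c : Tendsto (fun t : ℝ => ax 0 t + ax 1 0) (𝓝[>] 0) (𝓝 0) := by
        refine tendsto_nhdsWithin_of_tendsto_nhds (Continuous.tendsto' ?_ _ _ (by simp))
        refine Continuous.add ?_ continuous_const
        refine (by fun_prop : Continuous fun t : ℝ => t • ax 0 1).congr fun t => ?_
        ext i
        by_cases e : i = 0 <;> simp [e]
      refine ((cont0 h.st h.lin h.qual r hX).comp c).congr' ?_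
      filter_upwards [self_mem_nhdsWithin] with t ht
      exact (r.act (p 0 (le_of_lt ht)) hX).symm)
    ((net.loc {y | |y 1| < y 0}).map r.Ψ)
    (by
      rintro _ ⟨⟨X, hX⟩, rfl⟩
      obtain ⟨R, hR⟩ := net.bdd hX
      filter_upwards [eventually_ge_atTop R, eventually_ge_atTop 0] with t ht t0
      refine ⟨_, net.mono (net.τ_mem (ax 0 t + ax 1 0) hR) fun y hy => ?_,
        (r.act (p 0 t0) hX).symm⟩
      have e1 : 0 < (y - (ax 0 t + ax 1 0)) 0 := hy.1
      have e2 := hy.2 1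
      rw [PiLp.sub_apply, v0] at e1
      rw [PiLp.sub_apply, vl, sub_zero] at e2
      change |y 1| < y 0
      linarith)
    (by
      rintro _ ⟨Z, hZ, rfl⟩
      have hZ' : Z ∈ net.loc (Hs 0 0) := net.mono hZ fun y hy =>
        (abs_nonneg (y 1)).trans_lt hy
      obtain ⟨M, m1, m2⟩ := two h hZ
      have e : ∀ a b : ℝ, 0 < a → 0 < b →
          W (net.Θ 0 Z * net.τ (ax 0 (a + b) + ax 1 (a - b)) Z) =
          inner ℂ (r.Ψ Z) (r.T (ax 0 (a + b) + ax 1 (a - b)) (r.Ψ Z)) := fun a b ha hb => by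
        have := p (a - b) (add_pos ha hb).le
        rw [r.act this hZ', r.inn hZ' (Net.τ_hs hZ' (by rwa [zero_add]))]
      exact ⟨M, fun b hb => (m1 b hb).congr (fun a ha => e a b ha hb) le_rfl,
        fun a ha => (m2 a ha).congr (fun b hb => e a b ha hb) le_rfl⟩) h0 h1
  exact ⟨A, a1, a2, a3⟩

theorem H0.line (h : H0 W) (r : net.Rep W 0 H) {v w : R4} (hv : pl v = v) (hw : pl w = w) :
    AnalyticOnNhd ℝ (fun t : ℝ => r.T (v + t • w)) {t | 0 < (v + t • w) 0} := by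
  obtain ⟨A, hA⟩ := h.cone r (θ := 1 / 2) (by norm_num) (by norm_num)
  intro t ht
  have a : AnalyticAt ℂ (fun z : ℂ => A (v 0 + z * w 0, v 1 + z * w 1)) t := by
    have o : IsOpen {z : ℂ | |(v 1 + z * w 1 : ℂ).im| < 1 / 2 * (v 0 + z * w 0 : ℂ).re} :=
      isOpen_lt (by fun_prop) (by fun_prop)
    refine DifferentiableOn.analyticAt (hA.diff.comp (by fun_prop) fun z hz => hz) (o.mem_nhds ?_)
    simpa using ht
  refine (a.restrictScalars (𝕜 := ℝ) |>.comp (Complex.ofRealCLM.analyticAt t)).congr ?_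
  have o : IsOpen {s : ℝ | 0 < (v + s • w) 0} := isOpen_lt continuous_const (by fun_prop)
  filter_upwards [o.mem_nhds ht] with s hs
  have e := hA.real (v 0 + s * w 0) (v 1 + s * w 1) (by simpa using hs)
  push_cast at e
  refine e.trans (congrArg r.T ?_)
  ext i
  fin_cases i <;> simp [hv ▸ pl2 v, hv ▸ pl3 v, hw ▸ pl2 w, hw ▸ pl3 w]

theorem H0.an (h : H0 W) {c : ℝ} (hZ : Z ∈ net.loc {y | y 0 < c}) (hZ' : Z' ∈ net.loc (Hs 0 c))
    {w : R4} (hp : pl w = w) (hw : 0 < w 0) :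
    AnalyticOnNhd ℝ (fun t : ℝ => W (Z * net.τ (t • w) Z')) (Ioi 0) := by
  obtain ⟨H, _, _, _, ⟨r⟩⟩ := h.st.exists_rep
  have m1 : net.τ (-rf 0 (ax 0 c)) (net.Θ 0 Z) ∈ net.loc (Hs 0 0) :=
    net.mono (net.τ_mem _ (net.Θ_mem 0 hZ)) fun y hy => by
      simp only [mem_ofPred_eq, rf_self, rf_ax, PiLp.sub_apply, PiLp.neg_apply,
        PiLp.single_apply, if_true] at hy
      change 0 < y 0
      linarith
  have m2 : net.τ (-ax 0 c) Z' ∈ net.loc (Hs 0 0) := Net.τ_hs hZ' (by simp)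
  intro t ht
  have b := (((innerSL ℂ (r.Ψ (net.τ (-rf 0 (ax 0 c)) (net.Θ 0 Z)))).comp
    (ContinuousLinearMap.apply ℂ H (r.Ψ (net.τ (-ax 0 c) Z')))).analyticAt _).restrictScalars
    (𝕜 := ℝ) |>.comp (h.line r (map_zero pl) hp t (by simpa using mul_pos ht hw))
  refine b.congr ?_
  filter_upwards [isOpen_Ioi.mem_nhds ht] with s hs
  have p : 0 ≤ (s • w) 0 := by simpa using (mul_pos hs hw).le
  have e := r.shift (v := ax 0 c) (Y := net.τ (s • w) Z') h.st m1 (by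
    rw [net.τ_τ, add_comm, ← net.τ_τ]
    exact Net.τ_hs m2 (by rwa [zero_add]))
  rw [net.τ_τ, add_comm, ← net.τ_τ, ← r.act p m2] at e
  simp only [Function.comp_apply, ContinuousLinearMap.comp_apply, ContinuousLinearMap.apply_apply,
    innerSL_apply_apply, zero_add, e]

theorem HH.an (h : HH W) {μ : Fin 4} [Pd μ] {c : ℝ} (hZ : Z ∈ net.loc {y | y μ < c})
    (hZ' : Z' ∈ net.loc (Hs μ c)) {w : R4} (hp : pl w = w) (hw : 0 < w μ) :
    AnalyticOnNhd ℝ (fun t : ℝ => W (Z * net.τ (t • w) Z')) (Ioi 0) := by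
  rcases pd_cases μ with rfl | rfl
  · exact h.h0.an hZ hZ' hp hw
  have gs : Pl.sw.symm = Pl.sw := inv_eq_of_mul_eq_one_right sw_sw
  have g1 : ∀ y : R4, Pl.sw y 1 = y 0 := fun y => by simp [prm_apply]
  have := h.h1.an (c := c) (net.mono (act_mem Pl.sw hZ) fun y hy => by
    simpa only [mem_ofPred_eq, gs, g1] using hy) (net.mono (act_mem Pl.sw hZ') fun y hy => by
    simpa only [Hs, mem_ofPred_eq, gs, g1] using hy) (w := Pl.sw w) (by rw [Pn.eq, hp])
    (by simpa [prm_apply] using hw)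
  simpa only [← map_smul, ← act_τ, ← map_mul, cmp_apply, act_act, sw_sw, act_one] using this

end Pool.Agent.Lib.MP_7f377f_mp.Pl
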