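import Pool.Agent.Lib.MP_7f377f_mp.G.TwS1

/-! The finite size criterion with two long directions. -/

noncomputable section

namespace Pool.Agent.Lib.MP_7f377f_mp.Fs

open Real

/-- partition functions of rectangles -/
structure Box2 (Z : ℕ → ℕ → ℝ) (l q : ℕ → ℝ) : Prop where
  s1 : ∀ {t a}, 2 ≤ t → 2 ≤ a → Z t a = Z a t
  sp : ∀ {a}, 2 ≤ a → Sp (fun t => Z t a) (l a) (q a)

namespace Box2
variable {Z : ℕ → ℕ → ℝ} {l q : ℕ → ℝ} (h : Box2 Z l q) {t : ℕ}
include h

theorem start (ht : 2 ≤ t) (H : YM9.Cr2 Z t) {a : ℕ} (h1 : t ≤ a) (h2 : a ≤ 8 * t) :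
    2 * log (Z t a) - log (Z (2 * t) a) ≤ 1 / 10 ^ 6 := by
  obtain ⟨e, H⟩ := H
  have t3 : 2 ≤ 3 * t := by omega
  have a2 := ht.trans h1
  have b1 := abs_le.1 (H t t (.inl rfl) (.inl rfl))
  have b2 := abs_le.1 (H (3 * t) t (.inr rfl) (.inl rfl))
  have b3 := abs_le.1 (H t (3 * t) (.inl rfl) (.inr rfl))
  have b4 := abs_le.1 (H (3 * t) (3 * t) (.inr rfl) (.inr rfl))
  have c1 := (h.sp ht).log_eq ht
  have c2 := (h.sp ht).log_eq t3
  have c3 := (h.sp t3).log_eq ht
  have c4 := (h.sp t3).log_eq t3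
  have c5 := (h.sp ht).log_eq a2
  have c6 := (h.sp t3).log_eq a2
  have c7 := (h.sp a2).log_eq ht
  have c8 := (h.sp a2).log_eq t3
  have c9 := (h.sp a2).log_eq (show 2 ≤ 2 * t by omega)
  have d1 := (h.sp ht).log_mono ht (show t ≤ 3 * t by omega)
  have d2 := (h.sp t3).log_mono ht (show t ≤ 3 * t by omega)
  have d3 := (h.sp ht).log_mono ht h1
  have d4 := (h.sp t3).log_mono ht h1
  have d5 := (h.sp a2).log_mono ht (show t ≤ 3 * t by omega)
  have d6 := (h.sp a2).log_mono ht (show t ≤ 2 * t by omega)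
  have a6 : (a : ℝ) ≤ 8 * t := by exact_mod_cast h2
  simp only [h.s1 a2 ht, h.s1 a2 t3] at c5 c6 d3 d4
  push_cast at b2 b3 b4 c2 c4 c8 c9
  have a7 : t * (3 * log (l t) - log (l (3 * t))) ≤ 6 / 10 ^ 9 := by
    linarith [d1.1, d1.2, d2.1, d2.2, b1.2, b3.1, b3.2, b4.1]
  have a8 : a * (3 * log (l t) - log (l (3 * t))) ≤ 48 / 10 ^ 9 := by
    rcases le_total 0 (3 * log (l t) - log (l (3 * t))) with c | c
    · linarith [mul_le_mul_of_nonneg_right a6 c]
    · linarith [mul_nonpos_of_nonneg_of_nonpos (a.cast_nonneg (α := ℝ)) c]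
  linarith [d1.1, d1.2, d3.2, d4.1, d5.2, d6.1, b1.2, b2.1]

theorem small (ht : 2 ≤ t) {y : ℝ} (y0 : 0 ≤ y) (y1 : y ≤ 1 / 2)
    (H : ∀ a, a = t ∨ a = 2 * t → 2 * log (Z t a) - log (Z (2 * t) a) ≤ y / 432) {a : ℕ}
    (a1 : t ≤ a) (a2 : a ≤ 8 * t) : Z t a / l a ^ t - 1 ≤ 2 / 47 * y := by
  have s := h.sp (ht.trans a1)
  have t2 : 2 ≤ 2 * t := by omega
  have h0 := (h.sp ht).ext (h.sp t2) ht (h.s1 t2 ht) (H _ (.inl rfl)) (H _ (.inr rfl)) a1 a2
  simp only [h.s1 (ht.trans a1) ht, h.s1 (ht.trans a1) t2] at h0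
  have h1 := (s.dbl ht).1.trans h0
  rw [log_le_iff_le_exp (zero_lt_one.trans_le (s.one_le ht))] at h1
  have h2 := h1.trans (exp_bound_div_one_sub_of_interval (by positivity) (by linarith))
  rw [le_div_iff₀ (by linarith)] at h2
  have := s.one_le ht
  generalize Z t a / l a ^ t = x at *
  nlinarith

theorem iter (ht : 2 ≤ t) (H : YM9.Cr2 Z t) (s a : ℕ) (x : a = 4 ^ s * t ∨ a = 2 * (4 ^ s * t)) :
    2 * log (Z (4 ^ s * t) a) - log (Z (2 * (4 ^ s * t)) a) ≤ exp (-4 ^ s) / 432 := by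
  induction s generalizing a with
  | zero =>
    simp only [pow_zero, one_mul] at x ⊢
    linarith [exp_neg_one_gt_d9, h.start ht H (a := a) (by omega) (by omega)]
  | succ s ih =>
    have t2 : 2 ≤ 4 ^ s * t := ht.trans (Nat.le_mul_of_pos_left _ (by positivity))
    have e : 4 ^ (s + 1) * t = 4 * (4 ^ s * t) := by ring
    rw [e] at x ⊢
    have y1 : exp (-4 ^ s) ≤ 1 / 2 :=
      (exp_le_exp.2 (neg_le_neg (one_le_pow₀ (by norm_num)))).trans (by linarith [exp_neg_one_lt_d9])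
    have h1 := h.small t2 (exp_pos _).le y1 ih (a := a) (by omega) (by omega)
    generalize 4 ^ s * t = u at *
    have sp := h.sp (a := a) (by omega)
    have h2 := (sp.four t2).trans (pow_le_pow_left₀ (sub_nonneg.2 (sp.one_le t2)) h1 4)
    have h3 := (sp.dbl (show 2 ≤ 4 * u by omega)).2
    rw [show (-4 ^ (s + 1) : ℝ) = (4 : ℕ) * -4 ^ s by push_cast; ring, exp_nat_mul]
    rw [mul_pow] at h2
    linarith [pow_pos (exp_pos (-4 ^ s)) 4]

theorem gap (ht : 2 ≤ t) (H : YM9.Cr2 Z t) {n : ℕ} (hn : 2 * t ≤ n) :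
    q n ≤ exp (-1 / t) ∧ ∀ T, n ≤ 2 * T → Z T n / l n ^ T ≤ 2 := by
  obtain ⟨s, s1, s2⟩ : ∃ s, 4 ^ s * t * 2 ≤ n ∧ n ≤ 8 * (4 ^ s * t) := by
    have h1 := Nat.pow_log_le_self 4 (Nat.div_pos hn (by omega)).ne'
    have h2 := Nat.lt_pow_succ_log_self (show 1 < 4 by norm_num) (n / (2 * t))
    rw [Nat.le_div_iff_mul_le (by omega)] at h1
    rw [Nat.div_lt_iff_lt_mul (by omega), pow_succ] at h2
    exact ⟨Nat.log 4 (n / (2 * t)), by linarith, by linarith⟩
  have t2 : 2 ≤ 4 ^ s * t := ht.trans (Nat.le_mul_of_pos_left _ (by positivity))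
  have y1 : exp (-4 ^ s) ≤ 1 / 2 :=
    (exp_le_exp.2 (neg_le_neg (one_le_pow₀ (by norm_num)))).trans (by linarith [exp_neg_one_lt_d9])
  have h1 := h.small t2 (exp_pos _).le y1 (h.iter ht H s) (a := n) (by omega) s2
  have sp := h.sp (a := n) (by omega)
  refine ⟨le_of_pow_le_pow_left₀ (n := 4 ^ s * t) (by omega) (exp_pos _).le ?_, fun T hT =>
    (sp.mono t2 (by omega)).trans (by linarith)⟩
  have t0 : (t : ℝ) ≠ 0 := by positivity
  rw [← exp_nat_mul, show ((4 ^ s * t : ℕ) : ℝ) * (-1 / t) = -4 ^ s by push_cast; field_simp]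
  linarith [sp.low _ t2, exp_pos (-4 ^ s)]

theorem up (ht : 2 ≤ t) (H : YM9.Cr2 Z t) {n T : ℕ} (hn : 2 * t ≤ n) (hT : n ≤ 2 * T) :
    log (Z T n) ≤ T * log (l n) + log 2 := by
  have s := h.sp (a := n) (by omega)
  have T2 : 2 ≤ T := by omega
  linarith [s.log_eq T2, log_le_log (zero_lt_one.trans_le (s.one_le T2)) ((h.gap ht H hn).2 T hT)]

theorem one (ht : 2 ≤ t) (H : YM9.Cr2 Z t) {n x : ℕ} (hn : 2 * t ≤ n) (hx : n ≤ 2 * x) :
    log (l x) / x ≤ log (l n) / n + log 2 / (x * n) := by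
  have s := h.sp (a := x) (by omega)
  have n2 : 2 ≤ n := by omega
  have h1 := h.up ht H hn hx
  have h2 := s.log_eq n2
  have h3 := (s.log_mono n2 le_rfl).1
  have x0 : (0 : ℝ) < x := Nat.cast_pos.2 (by omega)
  have n0 : (0 : ℝ) < n := Nat.cast_pos.2 (by omega)
  rw [h.s1 (by omega) n2] at h1
  rw [div_add_div _ _ n0.ne' (by positivity), div_le_div_iff₀ x0 (by positivity)]
  nlinarith [mul_le_mul_of_nonneg_left (show n * log (l x) ≤ x * log (l n) + log 2 by linarith)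
    (mul_pos x0 n0).le]

theorem chain (ht : 2 ≤ t) (H : YM9.Cr2 Z t) {R : ℕ} (k : ℕ) {x : ℕ} (hx : 2 * t ≤ x) (h1 : x ≤ R)
    (h2 : R ≤ x + k) : log (l x) / x ≤ log (l R) / R + log 2 / (x * x) := by
  have l2 := log_pos one_lt_two
  induction k generalizing x with
  | zero =>
    obtain rfl : x = R := by omega
    exact le_add_of_nonneg_right (by positivity)
  | succ k ih =>
    have x0 : (0 : ℝ) < x := Nat.cast_pos.2 (by omega)
    rcases le_total R (2 * x) with c | c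
    · refine (h.one ht H (hx.trans h1) c).trans ?_
      gcongr
    · have h3 := h.one ht H (n := 2 * x) (by omega) le_rfl
      have h4 := ih (x := 2 * x) (by omega) c (by omega)
      have e1 : log 2 / (x * (2 * x : ℕ)) = log 2 / (x * x) / 2 := by push_cast; field_simp
      have e2 : log 2 / ((2 * x : ℕ) * (2 * x : ℕ)) = log 2 / (x * x) / 4 := by
        push_cast; field_simp; ring
      have : 0 ≤ log 2 / (x * x) := by positivity
      linarith

theorem cmp (ht : 2 ≤ t) (H : YM9.Cr2 Z t) {M R j : ℕ} (hM : 100 * t ≤ M) (h1 : M ≤ R)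
    (h2 : R ≤ j * M) : Z (j * M) (2 * R - M) * Z M M ^ j ≤ 100 ^ j * l R ^ (2 * (j * M)) := by
  obtain ⟨x, hx⟩ := Nat.exists_eq_add_of_le (show M ≤ 2 * R by omega)
  have j1 : 1 ≤ j := Nat.pos_of_ne_zero fun e => by rw [e] at h2; omega
  have z0 : ∀ {T a}, 2 ≤ T → 2 ≤ a → 0 < Z T a := fun hT ha =>
    (div_pos_iff_of_pos_right (pow_pos (h.sp ha).pos _)).1
      (zero_lt_one.trans_le ((h.sp ha).one_le hT))
  rw [show 2 * R - M = x by omega]
  have p1 := z0 (T := j * M) (a := x) (by omega) (by omega)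
  have p2 := z0 (T := M) (a := M) (by omega) (by omega)
  have p3 := (h.sp (a := R) (by omega)).pos
  have a1 := h.up ht H (n := x) (T := j * M) (by omega) (by omega)
  have a2 := h.up ht H (n := M) (T := M) (by omega) (by omega)
  have a3 := h.one ht H (n := R) (x := x) (by omega) (by omega)
  have a4 := h.chain ht H R (x := M) (by omega) h1 (by omega)
  have x0 : (0 : ℝ) < x := Nat.cast_pos.2 (by omega)
  have M0 : (0 : ℝ) < M := Nat.cast_pos.2 (by omega)
  have R0 : (0 : ℝ) < R := Nat.cast_pos.2 (by omega)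
  have l2 := log_pos one_lt_two
  have e : (2 * R : ℝ) = M + x := by exact_mod_cast hx
  have b1 : M * log (l x) ≤ M * x * (log (l R) / R) + log 2 := by
    have : log 2 / (x * R) ≤ log 2 / (x * M) := by gcongr
    refine le_of_eq_of_le (by field_simp) ((mul_le_mul_of_nonneg_left (a3.trans
      (add_le_add le_rfl this)) (mul_pos M0 x0).le).trans_eq (by field_simp))
  have b2 : M * log (l M) ≤ M * M * (log (l R) / R) + log 2 :=
    le_of_eq_of_le (by field_simp) ((mul_le_mul_of_nonneg_left a4 (mul_pos M0 M0).le).trans_eq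
      (by field_simp))
  have b3 : M * x * (log (l R) / R) + M * M * (log (l R) / R) = 2 * M * log (l R) := by
    rw [← add_mul, ← mul_add, add_comm, ← e]
    field_simp
  have b4 : 4 * log 2 ≤ log 100 := by
    rw [show (4 : ℝ) = (4 : ℕ) by norm_num, ← log_pow]
    exact log_le_log (by norm_num) (by norm_num)
  have j2 : (1 : ℝ) ≤ j := by exact_mod_cast j1
  rw [← log_le_log_iff (by positivity) (by positivity), log_mul p1.ne' (by positivity),
    log_mul (by positivity) (by positivity), log_pow, log_pow, log_pow]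
  push_cast at a1 ⊢
  nlinarith [mul_le_mul_of_nonneg_left (show M * log (l x) + log (Z M M) + log 2 ≤
    2 * M * log (l R) + log 100 by linarith) (zero_le_one.trans j2)]

end Box2

end Pool.Agent.Lib.MP_7f377f_mp.Fs
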