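import Pool.Agent.Lib.MP_7f377f_mp.G.TwS0
import Pool.Agent.Lib.MP_7f377f_mp.G.CyD1

/-! The limit of the vacuum states when the second side tends to infinity. -/

noncomputable section

set_option linter.unusedSectionVars false
variable [Pool.Agent.Lib.MP_7f377f_mp.GD]

namespace Pool.Agent.Lib.MP_7f377f_mp.YM9

open MeasureTheory Filter Topology Function Real BoundedContinuousFunction
open Y6 (bm_of_cont)

/-- the links of a square window -/
def Sq (k : ℕ) : Set Link := {e | |e.1 0| ≤ k ∧ |e.1 1| ≤ k}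

/-- exchange of the two long directions -/
def sw : Fd → Fd := prm (Equiv.swap 0 1)

@[fun_prop] theorem cont_sw : Continuous sw := cont_prm _

theorem dep_sw {F : Fd → ℝ} {k : ℕ} (h : DependsOn F (Sq k)) :
    DependsOn (fun U => F (sw U)) (Sq k) := fun _ _ H => h fun _ he => H _ ⟨he.2, he.1⟩

theorem sw_sw (U : Fd) : sw (sw U) = U := funext fun e => by
  simp [sw, prm, Function.comp_def]

/-- truncation to a square window -/
def cu2 (k : ℕ) (U : Fd) : Fd := fun e => if |e.1 0| ≤ k ∧ |e.1 1| ≤ k then U e else 1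

theorem cont_cu2 (k : ℕ) : Continuous (cu2 k) := continuous_pi fun e => by
  unfold cu2
  split_ifs <;> fun_prop

theorem dep_cu2 {α : Type} (F : Fd → α) (k : ℕ) : DependsOn (fun U => F (cu2 k U)) (Sq k) :=
  fun U V hU => congrArg F (funext fun e => by
    unfold cu2
    split_ifs with h'
    exacts [hU e h', rfl])

theorem tendsto_cu2 (U : Fd) : Tendsto (fun k => cu2 k U) atTop (𝓝 U) :=
  tendsto_pi_nhds.2 fun e => tendsto_const_nhds.congr' <|
    (eventually_ge_atTop (|e.1 0|.toNat + |e.1 1|.toNat)).mono fun k hk =>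
      (if_pos ⟨by omega, by omega⟩).symm

variable [MeasurableSpace SU2] [BorelSpace SU2]

theorem tendsto_int_cu2 (ν : Measure Fd) [IsFiniteMeasure ν] {F : Fd → ℝ} (hF : Continuous F) :
    Tendsto (fun k => ∫ U, F (cu2 k U) ∂ν) atTop (𝓝 (∫ U, F U ∂ν)) := by
  obtain ⟨C, hC⟩ := (bm_of_cont hF).bdd
  exact tendsto_integral_of_dominated_convergence (fun _ => C)
    (fun _ => (hF.comp (cont_cu2 _)).aestronglyMeasurable) (integrable_const _)
    (fun _ => .of_forall fun _ => hC _) (.of_forall fun U => (hF.tendsto U).comp (tendsto_cu2 U))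

/-- the vacuum states `ν R` of the cylinders whose second side is `R` -/
structure Nu (n : ℕ) (ν : ℕ → Measure Fd) (r : ℝ) : Prop where
  prob : ∀ R, IsProbabilityMeasure (ν R)
  shf : ∀ v, ∃ Θ, Continuous Θ ∧ (∀ U, pe (Θ U) = pe (shf v U)) ∧
    ∀ᶠ R in atTop, MeasurePreserving Θ (ν R) (ν R)
  refl : ∀ᶠ R in atTop, MeasurePreserving rfl0 (ν R) (ν R)
  per : ∀ᶠ R in atTop, ∀ᵐ U ∂ν R, ∀ z : Z4, z 0 = 0 → z 1 = 0 →
    pe (YM9.shf ((n : ℤ) • z) U) = pe U
  gram : ∀ (F : Fd → ℝ) (k s : ℕ), Continuous F → DependsOn F (Wn k) → ∀ᶠ R in atTop,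
    (0 ≤ ∫ U, F (rfl0 U) * F (sht s U) ∂ν R ∧
      ∫ U, F (rfl0 U) * F (sht s U) ∂ν R ≤ ∫ U, F (rfl0 U) * F U ∂ν R) ∧
    ∫ U, F (rfl0 U) * F (sht s U) ∂ν R - (∫ U, F U ∂ν R) ^ 2 ≤
      exp (-r * s) * ∫ U, F (rfl0 U) * F U ∂ν R
  near : ∀ (F : Fd → ℝ) (k : ℕ), Continuous F → DependsOn F (Sq k) → ∃ ε : ℕ → ℝ, Summable ε ∧
    ∀ᶠ R in atTop, ∀ R', R' = R ∨ R' = R + 1 →
      |∫ U, F U ∂ν R - ∫ U, F (sw U) ∂ν R'| ≤ ε R

theorem exists_wlim {ν : ℕ → Measure Fd} (hp : ∀ R, IsProbabilityMeasure (ν R))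
    (H : ∀ (F : Fd → ℝ) (k : ℕ), Continuous F → DependsOn F (Sq k) →
      ∃ c, Tendsto (fun R => ∫ U, F U ∂ν R) atTop (𝓝 c)) :
    ∃ μ : Measure Fd, IsProbabilityMeasure μ ∧ ∀ F : Fd → ℝ, Continuous F →
      Tendsto (fun R => ∫ U, F U ∂ν R) atTop (𝓝 (∫ U, F U ∂μ)) := by
  let P : ℕ → ProbabilityMeasure Fd := fun R => ⟨ν R, hp R⟩
  choose c hc using fun (F : Fd →ᵇ ℝ) k =>
    H _ k (F.continuous.comp (cont_cu2 k)) (dep_cu2 F k)
  have key : ∀ μ, MapClusterPt μ atTop P → ∀ (F : Fd →ᵇ ℝ) (k : ℕ),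
      ∫ U, F (cu2 k U) ∂μ = c F k := fun μ hμ F k => by
    have h1 := hμ.continuousAt_comp (ProbabilityMeasure.continuous_integral_boundedContinuousFunction
      (F.compContinuous ⟨_, cont_cu2 k⟩)).continuousAt
    exact eq_of_nhds_neBot (ClusterPt.mono h1 (hc F k))
  obtain ⟨μ, -, hμ⟩ := isCompact_univ.exists_mapClusterPt (f := atTop) (u := P) (by simp)
  have : Tendsto P atTop (𝓝 μ) := isCompact_univ.tendsto_nhds_of_unique_mapClusterPt
    (.of_forall fun _ => trivial) fun ν' _ h' => ProbabilityMeasure.toMeasure_injective <|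
      ext_of_forall_integral_eq_of_IsFiniteMeasure fun F => tendsto_nhds_unique
        (tendsto_int_cu2 _ F.continuous) <| (tendsto_int_cu2 _ F.continuous).congr
          fun k => (key μ hμ F k).trans (key ν' h' F k).symm
  exact ⟨μ, inferInstance, fun F hF => ProbabilityMeasure.tendsto_iff_forall_integral_tendsto.1 this
    (mkOfCompact ⟨F, hF⟩)⟩

theorem mp_of_int {μ : Measure Fd} [IsFiniteMeasure μ] {φ : Fd → Fd} (cφ : Continuous φ)
    (e : ∀ F : Fd → ℝ, Continuous F → ∫ U, F (φ U) ∂μ = ∫ U, F U ∂μ) : MeasurePreserving φ μ μ :=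
  ⟨cφ.measurable, ext_of_forall_integral_eq_of_IsFiniteMeasure fun G => by
    rw [integral_map cφ.aemeasurable G.continuous.aestronglyMeasurable, e _ G.continuous]⟩

theorem mp_lim {ν : ℕ → Measure Fd} {μ : Measure Fd} [IsFiniteMeasure μ]
    (hμ : ∀ F : Fd → ℝ, Continuous F → Tendsto (fun R => ∫ U, F U ∂ν R) atTop (𝓝 (∫ U, F U ∂μ)))
    {φ : Fd → Fd} (cφ : Continuous φ) (e : ∀ᶠ R in atTop, MeasurePreserving φ (ν R) (ν R)) :
    MeasurePreserving φ μ μ := mp_of_int cφ fun F hF =>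
  tendsto_nhds_unique (hμ _ (hF.comp cφ)) ((hμ _ hF).congr' (e.mono fun _ h =>
    (RGP.int_mp h hF.measurable).symm))

theorem ae_lim {ν : ℕ → Measure Fd} {μ : Measure Fd} [IsFiniteMeasure μ]
    (hμ : ∀ F : Fd → ℝ, Continuous F → Tendsto (fun R => ∫ U, F U ∂ν R) atTop (𝓝 (∫ U, F U ∂μ)))
    {f g : Fd → ℝ} (cf : Continuous f) (cg : Continuous g)
    (e : ∀ᶠ R in atTop, ∀ᵐ U ∂ν R, f U = g U) : ∀ᵐ U ∂μ, f U = g U := by
  have cG := (cf.sub cg).abs
  have h0 : ∫ U, |f U - g U| ∂μ = 0 := tendsto_nhds_unique (hμ _ cG)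
    (tendsto_const_nhds.congr' (e.mono fun R h =>
      (integral_eq_zero_of_ae (h.mono fun U hU => by simp [hU])).symm))
  exact ((integral_eq_zero_iff_of_nonneg (fun _ => abs_nonneg _)
    ((bm_of_cont cG).integrable _)).1 h0).mono fun U hU => sub_eq_zero.1 (abs_eq_zero.1 hU)

theorem Nu.lim {n : ℕ} {ν : ℕ → Measure Fd} {r : ℝ} (h : Nu n ν r) : ∃ μ, Stp n μ r ∧
    ∀ F : Fd → ℝ, Continuous F → Tendsto (fun R => ∫ U, F U ∂ν R) atTop (𝓝 (∫ U, F U ∂μ)) := by
  obtain ⟨μ, hp, hμ⟩ := exists_wlim h.prob fun F k cF dF => by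
    obtain ⟨ε, e1, e2⟩ := h.near F k cF dF
    obtain ⟨ε', e3, e4⟩ := h.near _ k (cF.comp cont_sw) (dep_sw dF)
    refine cauchySeq_tendsto_of_complete (cauchySeq_of_summable_dist
      (Summable.of_norm_bounded_eventually_nat (e1.add e3) ?_))
    filter_upwards [e2, e4] with R a1 a2
    have a3 := a2 _ (.inr rfl)
    simp only [Function.comp, sw_sw] at a3
    rw [Real.norm_of_nonneg dist_nonneg]
    exact (abs_sub_le _ _ _).trans (add_le_add (a1 _ (.inl rfl)) a3)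
  refine ⟨μ, ⟨hp, fun v => ?_, mp_lim hμ cont_rfl0 h.refl, mp_of_int cont_sw fun F cF => ?_, ?_,
    fun F k s cF dF => ?_, fun F k s cF dF => ?_⟩, hμ⟩
  · obtain ⟨Θ, e1, e2, e3⟩ := h.shf v
    exact ⟨Θ, mp_lim hμ e1 e3, e2⟩
  · have key : ∀ k, ∫ U, F (cu2 k (sw U)) ∂μ = ∫ U, F (cu2 k U) ∂μ := fun k => by
      have c := cF.comp (cont_cu2 k)
      obtain ⟨ε, e1, e2⟩ := h.near _ k c (dep_cu2 F k)
      refine (sub_eq_zero.1 (abs_nonpos_iff.1 (le_of_tendsto_of_tendsto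
        ((hμ _ c).sub (hμ _ (c.comp cont_sw))).abs e1.tendsto_atTop_zero
        (e2.mono fun R e => e _ (.inl rfl))))).symm
    have := tendsto_int_cu2 (μ.map sw) cF
    rw [integral_map cont_sw.aemeasurable cF.aestronglyMeasurable] at this
    exact tendsto_nhds_unique this ((tendsto_int_cu2 μ cF).congr fun k => (key k).symm.trans
      (integral_map cont_sw.aemeasurable (cF.comp (cont_cu2 k)).aestronglyMeasurable).symm)
  · simp only [ae_all_iff, funext_iff]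
    exact fun z z0 z1 x i j => ae_lim hμ ((cont_pe x i j).comp (cont_shf _)) (cont_pe x i j)
      (h.per.mono fun R e => e.mono fun U hU => by simp only [Function.comp, hU z z0 z1])
  · have l1 := hμ (fun U => F (rfl0 U) * F (sht s U)) (by fun_prop)
    exact ⟨ge_of_tendsto l1 ((h.gram F k s cF dF).mono fun _ e => e.1.1),
      le_of_tendsto_of_tendsto l1 (hμ (fun U => F (rfl0 U) * F U) (by fun_prop))
        ((h.gram F k s cF dF).mono fun _ e => e.1.2)⟩
  · exact le_of_tendsto_of_tendsto ((hμ (fun U => F (rfl0 U) * F (sht s U)) (by fun_prop)).sub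
      ((hμ F cF).pow 2)) ((hμ (fun U => F (rfl0 U) * F U) (by fun_prop)).const_mul _)
      ((h.gram F k s cF dF).mono fun _ e => e.2)

end Pool.Agent.Lib.MP_7f377f_mp.YM9
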