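import Pool.Agent.Lib.MP_7f377f_mp.G.GapA

/-! Chains with a finite abelian symmetry: the projected weight. -/

noncomputable section

namespace Pool.Agent.Lib.MP_7f377f_mp.Ch

open MeasureTheory Measure Function Filter Topology Pool.Agent.Lib.MP_2d4879_an Hm RGP Finset
open scoped InnerProductSpace

set_option linter.unusedSectionVars false

section vac

variable {α : Type} [MeasurableSpace α] {m : Measure α} [IsProbabilityMeasure m] {k : α → α → ℝ}
  {hk : GK k} {l r : ℝ} {e : Lp ℝ 2 m} {φ : α → α} (hφ : MeasurePreserving φ m m)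

/-- the composition operator -/
abbrev cmp : Lp ℝ 2 m →ₗᵢ[ℝ] Lp ℝ 2 m := Lp.compMeasurePreservingₗᵢ ℝ φ hφ

theorem cmp_ae (v : Lp ℝ 2 m) : cmp hφ v =ᵐ[m] fun x => v (φ x) :=
  Lp.coeFn_compMeasurePreserving v hφ

theorem int_cmp (hk : GK k) (v : Lp ℝ 2 m) (x : α) :
    ∫ y, k x (φ y) * cmp hφ v y ∂m = ∫ y, k x y * v y ∂m := by
  rw [← int_mp hφ (f := fun y => k x y * v y)
    ((hk.meas_row x).mul (Lp.stronglyMeasurable v).measurable)]
  exact integral_congr_ae ((cmp_ae hφ v).mono fun y hy => by simp only [hy, Pi.mul_apply])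

theorem op_cmp (hi : ∀ x y, k (φ x) (φ y) = k x y) (v : Lp ℝ 2 m) :
    hk.op m (cmp hφ v) = cmp hφ (hk.op m v) := by
  refine Lp.ext ?_
  filter_upwards [hk.op_ae (cmp hφ v), cmp_ae hφ (hk.op m v),
    hφ.quasiMeasurePreserving.ae (hk.op_ae v)] with x h1 h2 h3
  rw [h1, h2, h3, ← int_cmp hφ hk v (φ x)]
  simp only [hi]

theorem cmp_vac (V : Vac m hk l r e) (hr : r < 1) (he : 0 ≤ᵐ[m] e)
    (hi : ∀ x y, k (φ x) (φ y) = k x y) : cmp hφ e = e := by
  have l0 := V.pos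
  have ee : ⟪e, e⟫_ℝ = 1 := by rw [real_inner_self_eq_norm_sq, V.one, one_pow]
  have h1 := V.gap 1 (cmp hφ e - ⟪e, cmp hφ e⟫_ℝ • e)
  rw [pow_one, pow_one, pow_one, inner_sub_right, inner_smul_right, ee, mul_one, sub_self, mul_zero,
    zero_smul, sub_zero, map_sub, map_smul, op_cmp hφ hi, V.eig, map_smul, smul_comm, ← smul_sub,
    norm_smul, Real.norm_of_nonneg l0.le] at h1
  have h2 : cmp hφ e = ⟪e, cmp hφ e⟫_ℝ • e := sub_eq_zero.1 (norm_eq_zero.1 (by
    by_contra c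
    nlinarith [mul_pos (mul_pos (sub_pos.2 hr) l0) ((norm_nonneg _).lt_of_ne' c)]))
  have h3 : 0 ≤ ⟪e, cmp hφ e⟫_ℝ := by
    rw [L2.inner_def]
    refine integral_nonneg_of_ae ?_
    filter_upwards [he, cmp_ae hφ e, hφ.quasiMeasurePreserving.ae he] with x h1 h2 h3
    rw [h2]
    simpa using mul_nonneg h3 h1
  have h4 := congrArg norm h2
  rw [LinearIsometry.norm_map, norm_smul, V.one, mul_one, Real.norm_of_nonneg h3] at h4
  rwa [← h4, one_smul] at h2

theorem vac_of_eig (hs : ∀ x y, k x y = k y x) (l0 : 0 < l) (h1 : ‖e‖ = 1) (h2 : hk.op m e = l • e)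
    (h3 : ∀ v, ‖hk.op m v‖ ≤ l * ‖v‖) : Vac m hk l 1 e := by
  have n : ∀ j v, ‖(hk.op m ^ j) v‖ ≤ l ^ j * ‖v‖ := fun j v => by
    induction j with
    | zero => simp
    | succ j ih =>
      rw [pow_succ', mul_apply_eq_comp, pow_succ', mul_assoc]
      exact (h3 _).trans (mul_le_mul_of_nonneg_left ih l0.le)
  have p : ∀ j, (hk.op m ^ j) e = l ^ j • e := fun j => by
    induction j with
    | zero => simp
    | succ j ih => rw [pow_succ', mul_apply_eq_comp, ih, map_smul, h2, smul_smul, pow_succ]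
  refine ⟨l0, zero_le_one, le_rfl, h1, h2, n, fun j v => ?_⟩
  rw [mul_smul, smul_comm, ← p, ← map_smul, ← map_sub, one_mul]
  refine (n j _).trans (mul_le_mul_of_nonneg_left (le_of_sq_le_sq ?_ (norm_nonneg _))
    (pow_pos l0 j).le)
  rw [norm_sub_sq_real, inner_smul_right, norm_smul, h1, mul_one, Real.norm_eq_abs, sq_abs,
    real_inner_comm]
  nlinarith [sq_nonneg ⟪e, v⟫_ℝ]

end vac

variable {G : Type} [MeasurableSpace G] {μ : Measure G} [IsProbabilityMeasure μ] [Group G]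
  [MeasurableMul₂ G] [MeasurableInv G] [μ.IsInvInvariant] [μ.IsMulRightInvariant]
  [μ.IsMulLeftInvariant] {E S : Type} {W : (E → G) → (S → G) → (E → G) → ℝ}
  {A : Type} [CommGroup A] [Fintype A] (χ : A →* (E → G))

theorem mp_left {I : Type} (a : I → G) : MeasurePreserving (a * ·) (PP μ I) (PP μ I) := by
  have m : ∀ i, MeasurePreserving (a i * ·) μ μ := fun i => measurePreserving_mul_left μ (a i)
  refine ⟨measurable_pi_lambda _ fun i => (m i).measurable.comp (measurable_pi_apply i), ?_⟩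
  erw [infinitePi_map_pi (fun _ : I => μ) fun i => (m i).measurable]
  simp only [fun i => (m i).map_eq]

variable (W) in
/-- the weight averaged over the symmetry -/
def WP (x : E → G) (g : S → G) (y : E → G) : ℝ := (Fintype.card A : ℝ)⁻¹ * ∑ ζ, W x g (χ ζ * y)

/-- the symmetry with a parameter which depends on the time -/
def tm (η : ℤ → A) : Ix E S → G := fun i => Sum.elim (χ (η i.1)) 1 i.2

variable {χ} (hW : Wt μ W) (hc : ∀ ζ x g y, W (χ ζ * x) g (χ ζ * y) = W x g y)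
  (hi : ∀ x g y, W x g⁻¹ y = W y g x)

theorem card_pos : (0 : ℝ) < Fintype.card A := Nat.cast_pos.2 Fintype.card_pos

include hc in
theorem W_mv (ζ ξ : A) (x : E → G) (g : S → G) (y : E → G) :
    W (χ ζ * x) g (χ ξ * y) = W x g (χ (ζ⁻¹ * ξ) * y) := by
  rw [← hc ζ x, ← mul_assoc, ← map_mul, mul_inv_cancel_left]

include hc hi in
theorem WP_inv (x : E → G) (g : S → G) (y : E → G) : WP W χ x g⁻¹ y = WP W χ y g x := by
  simp only [WP, hi]
  refine congrArg _ (Fintype.sum_equiv (Equiv.inv A) _ _ fun ζ => ?_)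
  simpa using W_mv hc ζ 1 y g x

include hW

theorem bm_sh (ζ : A) :
    BM fun p : (E → G) × (S → G) × (E → G) => W p.1 p.2.1 (χ ζ * p.2.2) :=
  hW.bm.comp (φ := fun p : (E → G) × (S → G) × (E → G) => (p.1, p.2.1, χ ζ * p.2.2)) (by fun_prop)

theorem KK_WP (x y : E → G) :
    KK μ (WP W χ) x y = (Fintype.card A : ℝ)⁻¹ * ∑ ζ, KK μ W x (χ ζ * y) := by
  simp only [KK, WP, integral_const_mul]
  rw [integral_finsetSum _ fun ζ _ => (hW.bm_g _ _).integrable _]

include hc hi in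
theorem wt_WP : Wt μ (WP W χ) where
  bm := (BM.const _).mul (BM.sum fun ζ _ => bm_sh hW ζ)
  pos _ _ _ := mul_pos (inv_pos.2 card_pos) (sum_pos (fun _ _ => hW.pos _ _ _) univ_nonempty)
  symm x y := by
    rw [KK, KK, ← int_mp (mp_pat μ injective_id fun _ => true) (f := fun g => WP W χ x g y)
      ((BM.const _).mul (BM.sum fun ζ _ => hW.bm_g x (χ ζ * y))).meas]
    exact congrArg _ (funext fun g => WP_inv hc hi x g y)

theorem op_WP (v : Lp ℝ 2 (PP μ E)) : (wt_WP hW hc hi).gk.op _ v =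
    hW.gk.op _ ((Fintype.card A : ℝ)⁻¹ • ∑ ζ, cmp (mp_left (χ ζ)) v) := by
  refine ext_inner_left ℝ fun u => ?_
  simp only [map_smul, _root_.map_sum, inner_smul_right, inner_sum, GK.inner_op, KK_WP hW]
  rw [← integral_finsetSum _ fun ζ _ => int_form hW.gk _ _, ← integral_const_mul]
  refine congrArg _ (funext fun x => ?_)
  have i : ∀ ζ : A, Integrable (fun y => KK μ W x (χ ζ * y) * v y) (PP μ E) := fun ζ =>
    int_act (f := fun x y => KK μ W x (χ ζ * y)) ⟨hW.gk.meas_comp measurable_fst (by fun_prop),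
      hW.gk.bdd.imp fun _ e => ⟨e.1, fun _ _ => e.2 _ _⟩⟩ v x
  simp only [mul_assoc, integral_const_mul, sum_mul, integral_finsetSum _ fun ζ _ => i ζ]
  rw [← mul_sum, mul_left_comm]
  congr 2
  refine Fintype.sum_equiv (Equiv.inv A) _ _ fun ζ => ?_
  rw [← int_cmp (mp_left (χ ζ)) hW.gk]
  refine integral_congr_ae ?_
  filter_upwards [cmp_ae (mp_left (χ ζ)) (cmp (mp_left (χ ζ⁻¹)) v),
    (mp_left (χ ζ)).quasiMeasurePreserving.ae (cmp_ae (mp_left (χ ζ⁻¹)) v)] with y h1 h2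
  rw [Equiv.inv_apply, h1, h2, ← mul_assoc, ← map_mul, inv_mul_cancel, map_one, one_mul]

omit hW in
include hc in
theorem KK_inv (ζ : A) (x y : E → G) : KK μ W (χ ζ * x) (χ ζ * y) = KK μ W x y := by
  simp only [KK, hc]

omit hW in
theorem cmp_avg (ξ : A) (v : Lp ℝ 2 (PP μ E)) :
    cmp (mp_left (χ ξ)) (∑ ζ, cmp (mp_left (χ ζ)) v) = ∑ ζ, cmp (mp_left (χ ζ)) v := by
  rw [_root_.map_sum]
  refine Fintype.sum_equiv (Equiv.mulRight ξ) _ _ fun ζ => Lp.ext ?_
  filter_upwards [cmp_ae (mp_left (χ ξ)) (cmp (mp_left (χ ζ)) v), cmp_ae (mp_left (χ (ζ * ξ))) v,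
    (mp_left (χ ξ)).quasiMeasurePreserving.ae (cmp_ae (mp_left (χ ζ)) v)] with y h1 h2 h3
  rw [Equiv.coe_mulRight, h1, h2, h3, map_mul, mul_assoc]

theorem psd_WP (hp : ∀ v, 0 ≤ ⟪v, hW.gk.op (PP μ E) v⟫_ℝ) (v : Lp ℝ 2 (PP μ E)) :
    0 ≤ ⟪v, (wt_WP hW hc hi).gk.op _ v⟫_ℝ := by
  refine (hp ((Fintype.card A : ℝ)⁻¹ • ∑ ζ, cmp (mp_left (χ ζ)) v)).trans_eq ?_
  rw [op_WP hW hc hi]
  have e : ∀ ζ, ⟪cmp (mp_left (χ ζ)) v, hW.gk.op _ ((Fintype.card A : ℝ)⁻¹ •
      ∑ ζ, cmp (mp_left (χ ζ)) v)⟫_ℝ = ⟪v, hW.gk.op _ ((Fintype.card A : ℝ)⁻¹ •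
        ∑ ζ, cmp (mp_left (χ ζ)) v)⟫_ℝ := fun ζ => by
    rw [← (cmp (mp_left (χ ζ))).inner_map_map v, ← op_cmp _ (KK_inv hc ζ), map_smul (cmp _),
      cmp_avg]
  rw [real_inner_smul_left, sum_inner]
  simp only [e, sum_const, card_univ, nsmul_eq_mul, inv_mul_cancel_left₀ card_pos.ne']

variable {l r : ℝ} {e : Lp ℝ 2 (PP μ E)} (V : Vac (PP μ E) hW.gk l r e) (hr : r < 1)
  (he : 0 ≤ᵐ[PP μ E] e)

include V hr he in
theorem vac_WP : Vac (PP μ E) (wt_WP hW hc hi).gk l 1 e := by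
  refine vac_of_eig (wt_WP hW hc hi).symm V.pos V.one ?_ fun v => ?_
  · simp only [op_WP hW hc hi, fun ζ => cmp_vac (mp_left (χ ζ)) V hr he (KK_inv hc ζ), sum_const,
      card_univ, ← Nat.cast_smul_eq_nsmul ℝ, inv_smul_smul₀ card_pos.ne', V.eig]
  · have := V.nrm 1 ((Fintype.card A : ℝ)⁻¹ • ∑ ζ, cmp (mp_left (χ ζ)) v)
    rw [pow_one, pow_one] at this
    rw [op_WP hW hc hi]
    refine this.trans (mul_le_mul_of_nonneg_left ?_ V.pos.le)
    rw [norm_smul, Real.norm_of_nonneg (inv_pos.2 card_pos).le, inv_mul_le_iff₀ card_pos]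
    exact (norm_sum_le _ _).trans_eq (by simp)

omit hW

theorem sum_prod_pi (k : ℕ) (f : A → ℝ) :
    ∑ p : Fin (k + 1) → A, f (∏ i, p i) = Fintype.card A ^ k * ∑ ζ, f ζ := by
  rw [← (Fin.consEquiv fun _ => A).sum_comp, Fintype.sum_prod_type_right]
  simp only [Fin.consEquiv_apply, Fin.prod_univ_succ, Fin.cons_zero, Fin.cons_succ]
  exact (sum_congr rfl fun p _ => Equiv.sum_comp (Equiv.mulRight (∏ i, p i)) f).trans (by simp)

/-- the products of the first factors -/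
def pr (a : ℤ) {k : ℕ} (p : Fin k → A) (t : ℤ) : A := ∏ i : Fin k, if a + i < t then p i else 1

include hc in
theorem wt_WP_eq (a : ℤ) (k : ℕ) (w : Ix E S → G) : wt (WP W χ) a k w =
    ((Fintype.card A : ℝ)⁻¹) ^ k * ∑ p : Fin k → A, wt W a k (tm χ (pr a p) * w) := by
  simp only [wt, WP, prod_range, prod_mul_distrib, Fin.prod_const, prod_univ_sum,
    Fintype.piFinset_univ]
  refine congrArg _ (sum_congr rfl fun p _ => prod_congr rfl fun i _ => ?_)
  have e : pr a p (a + i + 1) = pr a p (a + i) * p i := by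
    rw [pr, pr, ← mul_prod_erase _ _ (mem_univ i), ← mul_prod_erase _ _ (mem_univ i),
      if_pos (by omega), if_neg (lt_irrefl _), one_mul, mul_comm]
    refine congrArg (· * _) (prod_congr rfl fun j hj => if_congr ?_ rfl rfl)
    have := Fin.val_injective.ne (ne_of_mem_erase hj)
    omega
  exact ((W_mv hc (pr a p (a + i)) (pr a p (a + i + 1)) _ _ _).trans
    (by rw [e, inv_mul_cancel_left])).symm.trans (by congr 1; exact (one_mul _).symm)

theorem tm_put (η : ℤ → A) (t : ℤ) (x : E → G) (w : Ix E S → G) :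
    tm χ η * put t x w = put t (χ (η t) * x) (tm χ η * w) := by
  funext ⟨s, i⟩
  by_cases h : s = t <;> rcases i with i | i <;> simp [tm, put, tl, h]

include hW hc in
theorem ker_WP {F : (Ix E S → G) → ℝ} (bF : BM F) (hF : ∀ η w, F (tm χ η * w) = F w) (a : ℤ) (k : ℕ)
    (x y : E → G) : ker μ a (a + (k + 1 : ℕ)) (fun w => F w * wt (WP W χ) a (k + 1) w) x y =
      (Fintype.card A : ℝ)⁻¹ * ∑ ζ,
        ker μ a (a + (k + 1 : ℕ)) (fun w => F w * wt W a (k + 1) w) x (χ ζ * y) := by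
  have b := bF.mul (hW.bm_wt a (k + 1))
  have e : ∀ p : Fin (k + 1) → A, ∀ w, F (put a x (put (a + (k + 1 : ℕ)) y w)) *
      wt W a (k + 1) (tm χ (pr a p) * put a x (put (a + (k + 1 : ℕ)) y w)) =
      (fun w => F (put a x (put (a + (k + 1 : ℕ)) (χ (∏ i, p i) * y) w)) * wt W a (k + 1)
        (put a x (put (a + (k + 1 : ℕ)) (χ (∏ i, p i) * y) w))) (tm χ (pr a p) * w) := fun p w => by
    have e1 : pr a p a = 1 := prod_eq_one fun i _ => if_neg (by omega)
    have e2 : pr a p (a + (k + 1 : ℕ)) = ∏ i, p i := prod_congr rfl fun i _ => if_pos (by omega)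
    rw [← hF (pr a p), tm_put, tm_put, e1, e2, map_one, one_mul]
  simp only [ker, wt_WP_eq hc, mul_left_comm (F _), integral_const_mul]
  simp only [mul_sum univ _ (F _), e]
  rw [integral_finsetSum _ fun p _ =>
    ((bm_put b _ _ _ _).comp (mp_left (μ := μ) _).measurable).integrable _]
  simp only [fun p : Fin (k + 1) → A => int_mp (mp_left (μ := μ) (tm χ (pr a p)))
    (bm_put b a (a + (k + 1 : ℕ)) x (χ (∏ i, p i) * y)).meas]
  rw [sum_prod_pi k fun ζ => ∫ w, F (put a x (put (a + (k + 1 : ℕ)) (χ ζ * y) w)) *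
    wt W a (k + 1) (put a x (put (a + (k + 1 : ℕ)) (χ ζ * y) w)) ∂PP μ (Ix E S)]
  rw [pow_succ', inv_pow, mul_assoc, inv_mul_cancel_left₀ (pow_pos card_pos k).ne']

include hW hc V hr he in
theorem vac_WP_eq {F : (Ix E S → G) → ℝ} (bF : BM F) (hF : ∀ η w, F (tm χ η * w) = F w) (a : ℤ)
    (k : ℕ) : vac (WP W χ) l e a k F = vac W l e a k F := by
  have g := hW.gk_obs bF a k
  have i : ∀ ζ x, ∫ y, ker μ a (a + (k + 1 : ℕ)) (fun w => F w * wt W a (k + 1) w) x (χ ζ * y) * e y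
      ∂PP μ E = ∫ y, ker μ a (a + (k + 1 : ℕ)) (fun w => F w * wt W a (k + 1) w) x y * e y
      ∂PP μ E := fun ζ x => by
    rw [← int_cmp (mp_left (χ ζ)) g, cmp_vac (mp_left (χ ζ)) V hr he (KK_inv hc ζ)]
  simp only [vac, ker_WP hW hc bF hF, mul_assoc, integral_const_mul, sum_mul]
  congr 3
  funext x
  rw [integral_finsetSum _ fun ζ _ => int_act (f := fun x y => ker μ a (a + (k + 1 : ℕ))
    (fun w => F w * wt W a (k + 1) w) x (χ ζ * y)) ⟨g.meas_comp measurable_fst (by fun_prop),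
      g.bdd.imp fun _ e => ⟨e.1, fun _ _ => e.2 _ _⟩⟩ e x]
  simp only [i, sum_const, card_univ, nsmul_eq_mul, inv_mul_cancel_left₀ card_pos.ne']

include hW hc hi in
theorem tor_WP {F : (Ix E S → G) → ℝ} (bF : BM F) (hF : ∀ η w, F (tm χ η * w) = F w) (a : ℤ) (k : ℕ)
    (dF : DependsOn F (Win a (a + (k + 1 : ℕ)))) : tor μ (WP W χ) a (k + 1) F =
      (Fintype.card A : ℝ)⁻¹ * ∑ ζ, ∫ x,
        ker μ a (a + (k + 1 : ℕ)) (fun w => F w * wt W a (k + 1) w) x (χ ζ * x) ∂PP μ E := by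
  have g := hW.gk_obs bF a k
  rw [tor, int_cyc μ (H := fun w => F w * wt (WP W χ) a (k + 1) w) k.succ_pos
    (bF.mul ((wt_WP hW hc hi).bm_wt _ _)) (DependsOn.mul' dF (dep_wt _ _ le_rfl le_rfl))]
  simp only [ker_WP hW hc bF hF, integral_const_mul]
  rw [integral_finsetSum _ fun ζ _ => BM.integrable ⟨g.meas_comp measurable_id' (by fun_prop),
    g.bdd.imp fun _ e _ => e.2 _ _⟩ _]

end Pool.Agent.Lib.MP_7f377f_mp.Ch
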