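import Pool.Agent.Lib.MP_7f377f_mp.G.TwT0

/-! Cauchy-Schwarz, trace power and vacuum bounds for reflected pairs on a chain of slices. -/

noncomputable section

namespace Pool.Agent.Lib.MP_7f377f_mp.Ch

open MeasureTheory Measure Function Filter Topology Pool.Agent.Lib.MP_2d4879_an Hm RGP
open scoped InnerProductSpace

set_option linter.unusedSectionVars false

section kernels
variable {α : Type} [MeasurableSpace α] {m : Measure α} [IsProbabilityMeasure m]
  {k f g : α → α → ℝ} {l : ℝ}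

theorem int_cs2 {u A B : α → ℝ} (iu : Integrable u m) (iA : Integrable A m) (iB : Integrable B m)
    (hA : ∀ x, 0 ≤ A x) (hB : ∀ x, 0 ≤ B x) (h : ∀ x, u x ^ 2 ≤ A x * B x) :
    (∫ x, u x ∂m) ^ 2 ≤ (∫ x, A x ∂m) * ∫ x, B x ∂m := by
  have := discrim_le_zero (a := ∫ x, A x ∂m) (b := 2 * ∫ x, u x ∂m) (c := ∫ x, B x ∂m) fun s => by
    rw [← integral_mul_const, ← integral_const_mul, ← integral_mul_const,
      ← integral_add (iA.mul_const _) ((iu.const_mul _).mul_const _),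
      ← integral_add (by exact (iA.mul_const _).add ((iu.const_mul _).mul_const _)) iB]
    refine integral_nonneg fun x => ?_
    have h1 : (u x * s) ^ 2 ≤ ((A x * (s * s) + B x) / 2) ^ 2 := by
      nlinarith [mul_le_mul_of_nonneg_right (h x) (mul_self_nonneg s),
        sq_nonneg (A x * (s * s) - B x)]
    have h2 := (abs_le_of_sq_le_sq' h1 (by
      have := mul_nonneg (hA x) (mul_self_nonneg s)
      have := hB x
      positivity)).1
    simp only [Pi.zero_apply]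
    linarith
  rw [discrim] at this
  linarith

theorem cv_form (hk : GK k) (hf : GK f) (hg : GK g) (x y : α) :
    cv m f (cv m k fun x y => g y x) x y = ⟪hf.row m x, hk.op m (hg.row m y)⟫_ℝ := by
  rw [hf.inner_row]
  refine integral_congr_ae ((hk.op_ae (hg.row m y)).mono fun z hz => ?_)
  simp only [hz]
  exact congrArg _ (integral_congr_ae ((row_ae hg y).mono fun z hz => by simp only [hz]))

theorem tr_rot (hk : GK k) (hg : GK g) : ∫ x, cv m (cv m (fun x y => g y x) g) k x x ∂m =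
    ∫ x, cv m g (cv m k fun x y => g y x) x x ∂m := by
  have g' := gk_swap hg
  rw [cv_assoc g' hg hk, tr_comm g' (hg.cv hk), cv_assoc hg hk g']

theorem tr_cs (hk : GK k) (hs : ∀ x y, k x y = k y x) (hp : ∀ v, 0 ≤ ⟪v, hk.op m v⟫_ℝ) (hg : GK g)
    {C : α → α} (hC : MeasurePreserving C m m) (j : ℕ) :
    (∫ x, cv m g (pw m k (j + 1)) x (C x) ∂m) ^ 2 ≤
      (∫ x, cv m (cv m (fun x y => g y x) g) k x x ∂m) * ∫ x, pw m k (2 * j + 2) x x ∂m := by
  have hq := hk.pw (μ := m) j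
  have e : (fun x y => pw m k j y x) = pw m k j := funext₂ fun x y => pw_symm hk hs j y x
  have e1 : ∀ x y, cv m g (pw m k (j + 1)) x y = ⟪hg.row m x, hk.op m (hq.row m y)⟫_ℝ :=
    fun x y => by rw [← cv_form hk hg hq, e]; rfl
  have e2 : ∀ y, pw m k (2 * j + 2) y y = ⟪hq.row m y, hk.op m (hq.row m y)⟫_ℝ := fun y => by
    rw [← cv_form hk hq hq, e, show 2 * j + 2 = j + (j + 1) + 1 by ring, pw_add hk]; rfl
  have bd := bf_diag (hk.pw (μ := m) (2 * j + 2))
  obtain ⟨D, -, hD⟩ := (hg.cv (μ := m) (hk.pw (μ := m) (j + 1))).bdd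
  rw [tr_rot hk hg, ← int_mp hC bd.meas]
  refine int_cs2 (BF.int ⟨(hg.cv (hk.pw _)).meas_comp measurable_id hC.measurable, D,
    fun x => hD _ _⟩) (bf_diag (hg.cv (hk.cv (gk_swap hg)))).int
    (hC.integrable_comp_of_integrable bd.int) (fun x => ?_) (fun x => ?_) fun x => ?_
  · rw [cv_form hk hg hg]; exact hp _
  · rw [e2]; exact hp _
  · rw [e1, e2, cv_form hk hg hg]
    exact psd_cs (hk.symm_op hs) hp _ _

theorem pw_cv (hf : GK f) (hg : GK g) : ∀ j, cv m (pw m (cv m f g) j) f = cv m f (pw m (cv m g f) j)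
  | 0 => cv_assoc hf hg hf
  | j + 1 => by
    rw [pw, pw, cv_assoc (hf.cv hg) ((hf.cv hg).pw j) hf, pw_cv hf hg j,
      cv_assoc hf hg (hf.cv ((hg.cv hf).pw j)), cv_assoc hg hf ((hg.cv hf).pw j)]

theorem tr_pw_comm (hf : GK f) (hg : GK g) :
    ∀ j, ∫ x, pw m (cv m f g) j x x ∂m = ∫ x, pw m (cv m g f) j x x ∂m
  | 0 => tr_comm hf hg
  | j + 1 => by
    have p := (hf.cv (μ := m) hg).pw (μ := m) j
    rw [pw, pw, cv_assoc hf hg p, tr_comm hf (hg.cv p), cv_assoc hg p hf, pw_cv hf hg,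
      cv_assoc hg hf ((hg.cv hf).pw j)]

theorem tr_pw_rot (hk : GK k) (hg : GK g) (j : ℕ) :
    ∫ x, pw m (cv m (cv m (fun x y => g y x) g) k) j x x ∂m =
      ∫ x, pw m (cv m g (cv m k fun x y => g y x)) j x x ∂m := by
  have g' := gk_swap hg
  rw [cv_assoc g' hg hk, tr_pw_comm g' (hg.cv hk), cv_assoc hg hk g']

theorem tr_pw_le (hf : GK f) (h0 : ∀ x, 0 ≤ f x x) (h : ∀ x y, f x y ^ 2 ≤ f x x * f y y) (j : ℕ) :
    ∫ x, pw m f j x x ∂m ≤ (∫ x, f x x ∂m) ^ (j + 1) := by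
  have bd := bf_diag hf
  have t0 : 0 ≤ ∫ x, f x x ∂m := integral_nonneg h0
  have h1 : ∀ x y, |f x y| ≤ √(f x x) * √(f y y) := fun x y => by
    rw [← Real.sqrt_mul (h0 x)]
    exact Real.abs_le_sqrt (h x y)
  have key : ∀ j x y, |pw m f j x y| ≤ √(f x x) * √(f y y) * (∫ x, f x x ∂m) ^ j := fun j => by
    induction j with
    | zero => simpa [pw] using h1
    | succ j ih =>
      intro x y
      rw [pow_succ, ← mul_assoc, ← integral_const_mul]
      refine abs_integral_le_integral_abs.trans (integral_mono_of_nonneg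
        (.of_forall fun _ => abs_nonneg _) (bd.int.const_mul _) (.of_forall fun z => ?_))
      simp only [abs_mul]
      refine (mul_le_mul (h1 x z) (ih z y) (abs_nonneg _) (by positivity)).trans_eq ?_
      have := Real.mul_self_sqrt (h0 z)
      linear_combination (√(f x x) * √(f y y) * (∫ x, f x x ∂m) ^ j) * this
  rw [pow_succ, ← integral_const_mul]
  refine integral_mono (bf_diag (hf.pw j)).int (bd.int.const_mul _) fun x => ?_
  refine (le_abs_self _).trans ((key j x x).trans_eq ?_)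
  rw [Real.mul_self_sqrt (h0 x), mul_comm]

theorem tr_pow (hk : GK k) (hs : ∀ x y, k x y = k y x) (hp : ∀ v, 0 ≤ ⟪v, hk.op m v⟫_ℝ)
    (hg : GK g) (j : ℕ) : ∫ x, pw m (cv m (cv m (fun x y => g y x) g) k) j x x ∂m ≤
      (∫ x, cv m (cv m (fun x y => g y x) g) k x x ∂m) ^ (j + 1) := by
  rw [tr_pw_rot hk hg, tr_rot hk hg]
  refine tr_pw_le (hg.cv (hk.cv (gk_swap hg))) (fun x => ?_) (fun x y => ?_) j
  · rw [cv_form hk hg hg]; exact hp _
  · simp only [cv_form hk hg hg]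
    exact psd_cs (hk.symm_op hs) hp _ _

theorem form_two_pow {H : Type} [NormedAddCommGroup H] [InnerProductSpace ℝ H] {T : H →L[ℝ] H}
    (hs : ∀ u v, ⟪T u, v⟫_ℝ = ⟪u, T v⟫_ℝ) {e : H} (he : ‖e‖ = 1) {c : ℝ} (hc : 0 ≤ c)
    (h : c ≤ ⟪e, T e⟫_ℝ) (i : ℕ) : c ^ 2 ^ i ≤ ⟪e, (T ^ 2 ^ i) e⟫_ℝ := by
  have sy : ∀ (n : ℕ) u v, ⟪(T ^ n) u, v⟫_ℝ = ⟪u, (T ^ n) v⟫_ℝ := fun n => by
    induction n with
    | zero => simp
    | succ n ih =>
      intro u v
      rw [pow_succ, mul_apply_eq_comp, ih, hs, ← mul_apply_eq_comp, ← pow_succ', pow_succ]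
  induction i with
  | zero => simpa using h
  | succ i ih =>
    have h2 := real_inner_le_norm e ((T ^ 2 ^ i) e)
    rw [he, one_mul] at h2
    rw [pow_succ 2 i, pow_mul, mul_two, pow_add T, mul_apply_eq_comp, ← sy,
      real_inner_self_eq_norm_sq]
    exact pow_le_pow_left₀ (pow_nonneg hc _) (ih.trans h2) 2

theorem vac_pow {hk : GK k} {r : ℝ} {e : Lp ℝ 2 m} (V : Vac m hk l r e)
    (hs : ∀ x y, k x y = k y x) (hp : ∀ v, 0 ≤ ⟪v, hk.op m v⟫_ℝ) (hg : GK g) (i : ℕ) :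
    (l * ⟪e, hg.op m e⟫_ℝ ^ 2) ^ 2 ^ (i + 1) ≤
      ∫ x, pw m (cv m (cv m (fun x y => g y x) g) k) (2 ^ (i + 1) - 1) x x ∂m := by
  have g' := gk_swap hg
  have hS := hg.cv (μ := m) (hk.cv (μ := m) g')
  have sS : ∀ x y, cv m g (cv m k fun x y => g y x) x y = cv m g (cv m k fun x y => g y x) y x :=
    fun x y => by
      rw [cv_form hk hg hg, cv_form hk hg hg, real_inner_comm]
      exact hk.symm_op (μ := m) hs _ _
  have l0 := V.pos
  have ee : ⟪e, e⟫_ℝ = 1 := by rw [real_inner_self_eq_norm_sq, V.one, one_pow]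
  have h1 : l * ⟪e, hg.op m e⟫_ℝ ^ 2 ≤ ⟪e, hS.op m e⟫_ℝ := by
    have h2 := psd_cs (hk.symm_op hs) hp (g'.op m e) e
    rw [V.eig, inner_smul_right, inner_smul_right, ee, ← adj_op hg] at h2
    rw [op_cv hg (hk.cv g'), op_cv hk g', adj_op hg e (hk.op m _)]
    exact le_of_mul_le_mul_left (by nlinarith) l0
  have h2 := form_two_pow (hS.symm_op sS) V.one (by positivity) h1 (i + 1)
  have h3 := tr_frame hS sS (J := Unit) (v := fun _ => e) zero_le_one
    (fun c => by simp [norm_smul, V.one]) (2 ^ i - 1)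
  have p := Nat.one_le_two_pow (n := i)
  rw [show 2 * (2 ^ i - 1) + 2 = 2 ^ (i + 1) by rw [pow_succ]; omega,
    show 2 * (2 ^ i - 1) + 1 = 2 ^ (i + 1) - 1 by rw [pow_succ]; omega] at h3
  rw [tr_pw_rot hk hg]
  simpa using h2.trans (by simpa using h3)

end kernels

variable {G : Type} [MeasurableSpace G] {μ : Measure G} [IsProbabilityMeasure μ] [Group G]
  [MeasurableMul₂ G] [MeasurableInv G] [μ.IsInvInvariant] [μ.IsMulRightInvariant] {E S : Type}
  {W : (E → G) → (S → G) → (E → G) → ℝ} {F : (Ix E S → G) → ℝ} {k : ℕ}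

/-- an observable of the times `0 … k + 1`, moved to `k + 1 … 2 k + 2`, times its mirror image -/
def pair (k : ℕ) (F : (Ix E S → G) → ℝ) (w : Ix E S → G) : ℝ :=
  F (rfc 0 (sft (k + 1 : ℕ) w)) * F (sft (k + 1 : ℕ) w)

theorem sft_sft (s t : ℤ) (w : Ix E S → G) : sft s (sft t w) = sft (s + t) w :=
  funext fun i => by simp only [sft, pat, sg_false, add_assoc]

theorem sft_zero (w : Ix E S → G) : sft 0 w = w :=
  funext fun i => by simp only [sft, pat, sg_false, add_zero]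

theorem bm_pair (bF : BM F) : BM (pair k F) :=
  (bF.comp ((meas_rfc 0).comp (meas_sft _))).mul (bF.comp (meas_sft _))

theorem dep_pair (dF : DependsOn F (Win 0 (k + 1 : ℕ))) :
    DependsOn (pair k F) (Win 0 (2 * k + 2 : ℕ)) :=
  DependsOn.mul' ((dep_sft (dep_rfc dF 0) _).mono (Win.mono (by omega) (by omega)))
    ((dep_sft dF _).mono (Win.mono (by omega) (by omega)))

theorem mp_mulE [μ.IsMulLeftInvariant] (χ : E → G) :
    MeasurePreserving (fun x => χ * x) (PP μ E) (PP μ E) :=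
  ⟨measurable_const_mul χ, (infinitePi_map_pi (μ := fun _ : E => μ) (f := fun i g => χ i * g)
    fun i => measurable_const_mul (χ i)).trans (by simp only [map_mul_left_eq_self])⟩

namespace Wt
variable (hW : Wt μ W) {l r : ℝ} {e : Lp ℝ 2 (PP μ E)}
include hW

theorem ker_move (bF : BM F) (a s : ℤ) (T : ℕ) :
    ker μ (a + s) (a + s + T) (fun w => F (sft s w) * wt W (a + s) T w) =
      ker μ a (a + T) fun w => F w * wt W a T w := by
  rw [← ker_sft (bF.mul (hW.bm_wt _ _)) s, add_right_comm a s]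
  simp only [wt_sft]

theorem tor_ker (bF : BM F) {a : ℤ} {T : ℕ} (hT : 0 < T) (dF : DependsOn F (Win a (a + T))) :
    tor μ W a T F = ∫ x, ker μ a (a + T) (fun w => F w * wt W a T w) x x ∂PP μ E :=
  int_cyc μ (H := fun w => F w * wt W a T w) hT (bF.mul (hW.bm_wt _ _))
    (DependsOn.mul' dF (dep_wt _ _ le_rfl le_rfl))

theorem ker_pair (hi : ∀ x g y, W x g⁻¹ y = W y g x) (bF : BM F)
    (dF : DependsOn F (Win 0 (k + 1 : ℕ))) :
    ker μ 0 (0 + (2 * k + 2 + 1 : ℕ)) (fun w => pair k F w * wt W 0 (2 * k + 2 + 1) w) =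
      cv (PP μ E) (cv (PP μ E)
        (fun x y => ker μ 0 (0 + (k + 1 : ℕ)) (fun w => F w * wt W 0 (k + 1) w) y x)
        (ker μ 0 (0 + (k + 1 : ℕ)) fun w => F w * wt W 0 (k + 1) w)) (KK μ W) := by
  have bR := bF.comp (meas_rfc 0)
  have dR := dep_rfc dF 0
  have h1 := hW.ok_mul (a := -(k + 1 : ℕ)) (k := k) (k' := k) (b := 0) bR bF (by omega)
    (dR.mono (Win.mono (by omega) (by omega))) (dF.mono (Win.mono (by omega) (by omega)))
  rw [hW.ok_rfc (a := 0) hi bF (by omega)] at h1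
  have h2 := hW.ok_mul (a := -(k + 1 : ℕ)) (k := k + 1 + k) (k' := 0) (b := (k + 1 : ℕ))
    (bR.mul bF) (BM.const 1) (by omega) (DependsOn.mul' (dR.mono (Win.mono (by omega) (by omega)))
      (dF.mono (Win.mono (by omega) (by omega)))) fun _ _ _ => rfl
  simp only [one_mul, mul_one, hW.ker_wt 0] at h2
  rw [h1, show k + 1 + k + 1 + 0 + 1 = 2 * k + 2 + 1 by ring,
    ← hW.ker_move (bR.mul bF) _ (k + 1 : ℕ), neg_add_cancel] at h2
  exact h2

theorem ker_blocks {A : (Ix E S → G) → ℝ} {L : ℕ} (bA : BM A) (dA : DependsOn A (Win 0 (L + 1 : ℕ)))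
    (j : ℕ) : ker μ 0 (0 + ((j + 1) * (L + 1) : ℕ)) (fun w => (∏ c ∈ Finset.range (j + 1),
      A (sft (c * (L + 1 : ℕ)) w)) * wt W 0 ((j + 1) * (L + 1)) w) =
      pw (PP μ E) (ker μ 0 (0 + (L + 1 : ℕ)) fun w => A w * wt W 0 (L + 1) w) j := by
  induction j with
  | zero => simp [pw, sft_zero]
  | succ j ih =>
    have bP : BM fun w => ∏ c ∈ Finset.range (j + 1), A (sft (c * (L + 1 : ℕ)) w) :=
      BM.prod fun c _ => bA.comp (meas_sft _)
    have h1 := hW.ok_mul (a := 0) (k := j * (L + 1) + L) (k' := L)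
      (b := 0 + (j + 1 : ℕ) * (L + 1 : ℕ)) bP (bA.comp (meas_sft ((j + 1 : ℕ) * (L + 1 : ℕ))))
      (by push_cast; ring) (dep_prod fun c hc => (dep_sft dA _).mono (Win.mono (by positivity) (by
        have : (c : ℤ) ≤ j := by exact_mod_cast Nat.le_of_lt_succ (Finset.mem_range.1 hc)
        push_cast
        nlinarith))) ((dep_sft dA _).mono (Win.mono le_rfl (by omega)))
    rw [hW.ker_move bA, show j * (L + 1) + L + 1 + L + 1 = (j + 1 + 1) * (L + 1) by ring,
      show j * (L + 1) + L + 1 = (j + 1) * (L + 1) by ring, ih] at h1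
    simp only [Finset.prod_range_succ _ (j + 1)]
    exact h1.trans (pw_add (hW.gk_obs bA 0 L) j 0).symm

theorem tor_blocks (hi : ∀ x g y, W x g⁻¹ y = W y g x) (bF : BM F)
    (dF : DependsOn F (Win 0 (k + 1 : ℕ))) (j : ℕ) :
    (tor μ W 0 ((j + 1) * (2 * k + 3)) fun w =>
      ∏ c ∈ Finset.range (j + 1), pair k F (sft (c * (2 * k + 3)) w)) =
      ∫ x, pw (PP μ E) (cv (PP μ E) (cv (PP μ E)
        (fun x y => ker μ 0 (0 + (k + 1 : ℕ)) (fun w => F w * wt W 0 (k + 1) w) y x)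
        (ker μ 0 (0 + (k + 1 : ℕ)) fun w => F w * wt W 0 (k + 1) w)) (KK μ W)) j x x ∂PP μ E := by
  have dA : DependsOn (pair k F) (Win 0 (2 * k + 2 + 1 : ℕ)) :=
    (dep_pair dF).mono (Win.mono le_rfl (by omega))
  have h1 := hW.ker_blocks (bm_pair bF) dA j
  rw [hW.ker_pair hi bF dF] at h1
  rw [← h1, show (2 * k + 3 : ℤ) = (2 * k + 2 + 1 : ℕ) by push_cast; ring]
  refine hW.tor_ker (BM.prod fun c _ => (bm_pair bF).comp (meas_sft _)) (by positivity)
    (dep_prod fun c hc => (dep_sft dA _).mono (Win.mono (by positivity) ?_))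
  have : (c : ℤ) ≤ j := by exact_mod_cast Nat.le_of_lt_succ (Finset.mem_range.1 hc)
  push_cast
  nlinarith

theorem tor_pair (hi : ∀ x g y, W x g⁻¹ y = W y g x) (bF : BM F)
    (dF : DependsOn F (Win 0 (k + 1 : ℕ))) : tor μ W 0 (2 * k + 3) (pair k F) =
      ∫ x, cv (PP μ E) (cv (PP μ E)
        (fun x y => ker μ 0 (0 + (k + 1 : ℕ)) (fun w => F w * wt W 0 (k + 1) w) y x)
        (ker μ 0 (0 + (k + 1 : ℕ)) fun w => F w * wt W 0 (k + 1) w)) (KK μ W) x x ∂PP μ E := by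
  rw [← hW.ker_pair hi bF dF]
  exact hW.tor_ker (bm_pair bF) (by omega) ((dep_pair dF).mono (Win.mono le_rfl (by omega)))

variable (hp : ∀ v, 0 ≤ ⟪v, hW.gk.op (PP μ E) v⟫_ℝ) (hi : ∀ x g y, W x g⁻¹ y = W y g x) (bF : BM F)
  (dF : DependsOn F (Win 0 (k + 1 : ℕ)))
include hp hi bF dF

/-- the Cauchy-Schwarz inequality for a twisted trace -/
theorem tw_cs {C : (E → G) → E → G} (hC : MeasurePreserving C (PP μ E) (PP μ E)) (j : ℕ) :
    (∫ x, ker μ 0 (0 + (k + 1 + (j + 2) : ℕ)) (fun w => F w * wt W 0 (k + 1 + (j + 2)) w) x (C x)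
      ∂PP μ E) ^ 2 ≤ tor μ W 0 (2 * k + 3) (pair k F) * tor μ W 0 (2 * j + 3) fun _ => 1 := by
  have h1 := hW.ok_mul (a := 0) (k := k) (k' := j + 1) bF (BM.const 1) rfl
    (dF.mono (Win.mono le_rfl (by omega))) fun _ _ _ => rfl
  simp only [one_mul, mul_one, hW.ker_wt (j + 1)] at h1
  rw [show k + 1 + (j + 2) = k + 1 + (j + 1) + 1 by ring, h1, hW.tor_pair hi bF dF,
    hW.tor_one (2 * j + 1)]
  exact tr_cs hW.gk hW.symm hp (hW.gk_obs bF 0 k) hC j

theorem tt_cs [μ.IsMulLeftInvariant] (χ : E → G) (j : ℕ) : tt μ W 0 (k + 1 + (j + 2)) χ F ^ 2 ≤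
    tor μ W 0 (2 * k + 3) (pair k F) * tor μ W 0 (2 * j + 3) fun _ => 1 :=
  hW.tw_cs hp hi bF dF (mp_mulE χ) j

/-- the trace of a power -/
theorem tor_pow (j : ℕ) : (tor μ W 0 ((j + 1) * (2 * k + 3)) fun w =>
    ∏ c ∈ Finset.range (j + 1), pair k F (sft (c * (2 * k + 3)) w)) ≤
      tor μ W 0 (2 * k + 3) (pair k F) ^ (j + 1) := by
  rw [hW.tor_blocks hi bF dF, hW.tor_pair hi bF dF]
  exact tr_pow hW.gk hW.symm hp (hW.gk_obs bF 0 k) j

/-- the vacuum expectation is bounded by an array on a torus -/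
theorem vac_tor (V : Vac (PP μ E) hW.gk l r e) (i : ℕ) :
    vac W l e 0 k F ^ (2 * 2 ^ (i + 1)) * l ^ (2 ^ (i + 1) * (2 * k + 3)) ≤
      tor μ W 0 (2 ^ (i + 1) * (2 * k + 3)) fun w =>
        ∏ c ∈ Finset.range (2 ^ (i + 1)), pair k F (sft (c * (2 * k + 3)) w) := by
  have h1 := hW.tor_blocks hi bF dF (2 ^ (i + 1) - 1)
  have l0 := V.pos
  rw [Nat.sub_add_cancel Nat.one_le_two_pow] at h1
  rw [h1, hW.vac_eq bF, pow_mul, pow_mul', ← mul_pow]
  refine le_of_eq_of_le (congrArg (· ^ _) ?_) (vac_pow V hW.symm hp (hW.gk_obs bF 0 k) i)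
  field_simp
  ring

end Wt

end Pool.Agent.Lib.MP_7f377f_mp.Ch
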