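import Pool.Agent.Lib.MP_7f377f_mp.G.TwKer
import Pool.Agent.Lib.MP_7f377f_mp.G.TwK

/-! Transfer operators of twisted tori. -/

noncomputable section

set_option linter.unusedSectionVars false
variable [Pool.Agent.Lib.MP_7f377f_mp.GD]

namespace Pool.Agent.Lib.MP_7f377f_mp.YM9

open MeasureTheory Filter Topology Function Real BoundedContinuousFunction
open RGP (BM PP)
open RG.Q4 (Zc)
open Ch (Win vac sft)
open Y6 (bm_of_cont)
open D2

variable [MeasurableSpace SU2] [BorelSpace SU2] (h : Measure SU2) [h.IsHaarMeasure]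
  [IsProbabilityMeasure h] {b : ℝ} {M : Fin 3 → ℕ}

theorem bm_arr {H : Fd → ℝ} (bH : BM H) (N w : ℕ) : BM (arr N w H) := BM.prod fun r _ =>
  bH.comp (by
    unfold mot
    split_ifs
    exacts [(cont_rfl0.comp (cont_sht _)).measurable, (cont_sht _).measurable])

section
variable [∀ j, NeZero (M j)] (z : Tz)

theorem arr_liftz (H : Fd → ℝ) (k : ℕ) (w : Ch.Ix (Ed M) (Sp M) → SU2) :
    arr 2 (k + 1) H (liftz z w) = Ch.pair k (fun w => H (liftz z w)) w := by
  simp [arr, mot, Finset.prod_range_succ, Ch.pair, liftz_sft, liftz_rfc0]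

theorem dep_arr {H : Fd → ℝ} {k : ℕ} (j : ℕ) : (fun w => ∏ c ∈ Finset.range j,
    arr 2 (k + 1) H (sht (c * (2 * k + 3)) (liftz (M := M) z w))) = fun w => ∏ c ∈ Finset.range j,
      Ch.pair k (fun w => H (liftz z w)) (sft (c * (2 * k + 3)) w) := by
  simp only [← arr_liftz, liftz_sft]

variable {h z} {l r : ℝ} {e : Lp ℝ 2 (PP h (Ed M))}

theorem tendsto_locz (V : Hm.Vac _ (wt_WWz z h b).gk l r e) (hr : r < 1) {F : Fd → ℝ}
    (bF : BM F) {a : ℤ} {k : ℕ} (dF : DependsOn F (Tm a (a + (k + 1 : ℕ)))) :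
    Tendsto (fun T => ∫ U, F U ∂wilz h b (Matrix.vecCons T M) (zs z)) atTop
      (𝓝 (vac (WWz b z) l e a k fun w => F (liftz z w))) := by
  simp only [int_wilz h b _ _ bF.meas, zt_tor z h b a bF.meas, zt_tor z h b a measurable_const]
  exact (wt_WWz z h b).tendsto_vac V hr (bF.comp (meas_liftz z)) (dep_liftz z dF)

theorem exists_limz (V : Hm.Vac _ (wt_WWz z h b).gk l r e) (hr : r < 1) :
    ∃ μ : Measure Fd, IsProbabilityMeasure μ ∧ ∀ F : Fd → ℝ, Continuous F → Tendsto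
      (fun T => ∫ U, F U ∂wilz h b (Matrix.vecCons T M) (zs z)) atTop (𝓝 (∫ U, F U ∂μ)) := by
  let P : ℕ → ProbabilityMeasure Fd := fun T =>
    ⟨wilz h b (Matrix.vecCons T M) (zs z), inferInstance⟩
  have key : ∀ ν, MapClusterPt ν atTop P → ∀ (F : Fd →ᵇ ℝ) (k : ℕ),
      ∫ U, F (cut (0 - (k + 1 : ℕ)) (0 + (k + 1 : ℕ)) U) ∂ν = vac (WWz b z) l e (0 - (k + 1 : ℕ))
        (2 * k + 1) fun w => F (cut (0 - (k + 1 : ℕ)) (0 + (k + 1 : ℕ)) (liftz z w)) := by
    intro ν hν F k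
    have h1 := hν.continuousAt_comp (ProbabilityMeasure.continuous_integral_boundedContinuousFunction
      (F.compContinuous ⟨_, cont_cut (0 - (k + 1 : ℕ)) (0 + (k + 1 : ℕ))⟩)).continuousAt
    exact eq_of_nhds_neBot (ClusterPt.mono h1 (tendsto_locz V hr
      (bm_of_cont (F.continuous.comp (cont_cut _ _))) ((dep_cut F _ _).mono
        (tm_mono le_rfl (by push_cast; omega)))))
  obtain ⟨ν, -, hν⟩ := isCompact_univ.exists_mapClusterPt (f := atTop) (u := P) (by simp)
  have : Tendsto P atTop (𝓝 ν) := isCompact_univ.tendsto_nhds_of_unique_mapClusterPt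
    (.of_forall fun _ => trivial) fun ν' _ h' => ProbabilityMeasure.toMeasure_injective <|
      ext_of_forall_integral_eq_of_IsFiniteMeasure fun F => tendsto_nhds_unique
        (tendsto_int_cut _ F.continuous) <| (tendsto_int_cut _ F.continuous).congr
          fun k => (key ν hν F k).trans (key ν' h' F k).symm
  exact ⟨ν, inferInstance, fun F hF => ProbabilityMeasure.tendsto_iff_forall_integral_tendsto.1 this
    (mkOfCompact ⟨F, hF⟩)⟩

/-- the vacuum state which belongs to a given vacuum vector -/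
theorem vt_of_vac (hb : 0 ≤ b) (V : Hm.Vac _ (wt_WWz z h b).gk l r e) (hr : r < 1) :
    ∃ ν, Vt h b M z ν l := by
  obtain ⟨ν, hp, hν⟩ := exists_limz V hr
  have hW := wt_WWz (M := M) z h b
  have ps := KKz_psd (M := M) z h b hb
  refine ⟨ν, V.pos, hp, hν, fun T s hT => ?_, fun T hT => ?_, fun H k i cH dH => ?_⟩
  · obtain ⟨T, rfl⟩ := Nat.exists_eq_add_of_le' hT
    rw [zt_tor z h b 0 measurable_const, zt_tor z h b 0 measurable_const]
    exact hW.tor_step V ps T s
  · obtain ⟨T, rfl⟩ := Nat.exists_eq_add_of_le' hT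
    rw [zt_tor z h b 0 measurable_const]
    exact hW.pow_le_tor V ps hr T
  · have bH := bm_of_cont cH
    rw [zt_tor z h b 0 (BM.prod fun c _ => (bm_arr bH 2 (k + 1)).comp
      (cont_sht _).measurable).meas, dep_arr, tendsto_nhds_unique (hν H cH)
      (tendsto_locz V hr bH (a := 0) (k := k) (by simpa only [zero_add] using dH))]
    exact hW.vac_tor ps (WWz_inv z b) (bH.comp (meas_liftz z)) (dep_liftz z dH) V i

end

variable (hM : ∀ j, 0 < M j) (hb : 0 ≤ b) (z : Tz)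
include hM hb

/-- the Cauchy-Schwarz inequality between tori of different lengths -/
theorem zt_cs {H : Fd → ℝ} (bH : BM H) {k : ℕ} (dH : DependsOn H (Tm 0 (k + 1 : ℕ))) (j : ℕ) :
    zt h b (Matrix.vecCons (k + 1 + (j + 2)) M) z H ^ 2 ≤
      zt h b (Matrix.vecCons (2 * k + 3) M) (zs z) (arr 2 (k + 1) H) *
        zt h b (Matrix.vecCons (2 * j + 3) M) (zs z) fun _ => 1 := by
  have : ∀ j, NeZero (M j) := fun j => ⟨(hM j).ne'⟩
  rw [zt_ker z h b (by omega) bH (dH.mono (tm_mono le_rfl (by omega))),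
    zt_tor z h b 0 (bm_arr bH 2 (k + 1)).meas, zt_tor z h b 0 measurable_const]
  simp only [arr_liftz]
  exact (wt_WWz z h b).tt_cs (KKz_psd z h b hb) (WWz_inv z b) (bH.comp (meas_liftz z))
    (dep_liftz z dH) _ j

/-- the trace of a power of a positive operator -/
theorem zt_pow {H : Fd → ℝ} (bH : BM H) {k : ℕ} (dH : DependsOn H (Tm 0 (k + 1 : ℕ))) (j : ℕ) :
    (zt h b (Matrix.vecCons ((j + 1) * (2 * k + 3)) M) (zs z) fun U =>
      ∏ c ∈ Finset.range (j + 1), arr 2 (k + 1) H (sht (c * (2 * k + 3)) U)) ≤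
      zt h b (Matrix.vecCons (2 * k + 3) M) (zs z) (arr 2 (k + 1) H) ^ (j + 1) := by
  have : ∀ j, NeZero (M j) := fun j => ⟨(hM j).ne'⟩
  rw [zt_tor z h b 0 (BM.prod fun c _ => (bm_arr bH 2 (k + 1)).comp (cont_sht _).measurable).meas,
    zt_tor z h b 0 (bm_arr bH 2 (k + 1)).meas, dep_arr]
  simp only [arr_liftz]
  exact (wt_WWz z h b).tor_pow (KKz_psd z h b hb) (WWz_inv z b) (bH.comp (meas_liftz z))
    (dep_liftz z dH) j

theorem exists_vt : ∃ ν l, Vt h b M z ν l := by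
  have : ∀ j, NeZero (M j) := fun j => ⟨(hM j).ne'⟩
  obtain ⟨l, r, e, V, hr⟩ := exists_vacz (M := M) z h b
  exact (vt_of_vac hb V hr).imp fun ν hν => ⟨l, hν⟩

end Pool.Agent.Lib.MP_7f377f_mp.YM9
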