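import Pool.Agent.Lib.MP_7f377f_mp.G.TwKer
import Pool.Agent.Lib.MP_7f377f_mp.G.TwCh
import Pool.Agent.Lib.MP_7f377f_mp.G.TwC3
import Pool.Agent.Lib.MP_7f377f_mp.G.TwB2
import Pool.Agent.Lib.MP_7f377f_mp.G.TwS2

/-! The state of the plane from the finite size criterion. -/

noncomputable section

set_option linter.unusedSectionVars false
variable [Pool.Agent.Lib.MP_7f377f_mp.GD]

namespace Pool.Agent.Lib.MP_7f377f_mp.YM9

open MeasureTheory Filter Topology Function Real D2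
open RGP (BM PP)
open Ch (Win vac tor sft rfc WP tm)
open RG.Q4 (Zc)
open Y6 (bm_of_cont)

/-- the links of a strip in the direction `1` -/
def St1 (k : ℕ) : Set Link := {e | 0 ≤ e.1 1 ∧ e.1 1 ≤ k}

theorem st_rfl {F : Fd → ℝ} {k : ℕ} (h : DependsOn F (St1 k)) :
    DependsOn (fun U => F (rfl0 U)) (St1 k) := fun U V hU => h fun e he => by
  have : U (rq e.2 e.2 e.1, e.2) = V (rq e.2 e.2 e.1, e.2) := hU _ (by simpa [St1, rq] using he)
  simp only [rfl0, this]

theorem st_sht {F : Fd → ℝ} {k : ℕ} (h : DependsOn F (St1 k)) (s : ℤ) :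
    DependsOn (fun U => F (sht s U)) (St1 k) := fun U V hU => h fun e he =>
  hU _ (by simpa [St1] using he)

/-- the twist in the plane `01` as a multiplier of a slice -/
def chm (M : Fin 3 → ℕ) : Zc →* (Ed M → SU2) where
  toFun ζ := chi (tz ζ 1)
  map_one' := by
    funext e
    simp [chi, tz, zv_one]
  map_mul' ζ ξ := by
    funext e
    simp only [chi, tz, Pi.mul_apply, ← zv_mul]
    split_ifs <;> simp

variable {M : Fin 3 → ℕ}

theorem chi_tz (ζ z : Zc) : chi (tz ζ z) = chm M ζ := by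
  funext e
  simp [chm, chi, tz]

theorem liftz_tm (z : Tz) {F : Fd → ℝ} {k : ℕ} (dF : DependsOn F (St1 k)) (hk : k + 1 < M 0)
    (η : ℤ → Zc) (w : Ch.Ix (Ed M) (Sp M) → SU2) :
    F (liftz z (tm (chm M) η * w)) = F (liftz z w) := dF fun ⟨x, i⟩ he => by
  have e : tm (chm M) η (ix M (x, i)) = 1 := by
    refine Fin.cases rfl (fun j => ?_) i
    simp only [tm, ix, chm, chi, tz, Fin.cases_succ, Sum.elim_inl, MonoidHom.coe_mk, OneHom.coe_mk]
    split_ifs with h1 h2 h3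
    · obtain rfl : j = 0 := Fin.succ_injective _ h2.2
      have h4 : ((x 1 + 1 : ℤ) : ZMod (M 0)) = 0 := by
        push_cast
        exact eq_neg_iff_add_eq_zero.1 h1
      have := Int.le_of_dvd (by have := he.1; simp only at this; omega)
        ((ZMod.intCast_zmod_eq_zero_iff_dvd _ _).1 h4)
      have := he.2
      simp only at this
      omega
    all_goals rfl
  simp only [liftz, lift, Pi.mul_apply, e, one_mul]

theorem le_of_pow {l l' C : ℝ} (l0 : 0 < l') (H : ∀ s : ℕ, l ^ (2 + s) ≤ l' ^ s * C) : l ≤ l' := by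
  by_contra! c
  obtain ⟨s, hs⟩ := pow_unbounded_of_one_lt (C / l ^ 2) ((one_lt_div l0).2 c)
  rw [div_pow, div_lt_div_iff₀ (pow_pos (l0.trans c) 2) (pow_pos l0 s)] at hs
  linarith [H s, pow_add l 2 s]

variable [MeasurableSpace SU2] [BorelSpace SU2] (h : Measure SU2) [h.IsHaarMeasure]
  [IsProbabilityMeasure h] [Fintype Zc] {b : ℝ}

/-- unnormalised expectations without electric flux in the direction `1` -/
def En (b : ℝ) (n : ℕ) (z : Zc) (T R : ℕ) (F : Fd → ℝ) : ℝ :=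
  (Fintype.card Zc : ℝ)⁻¹ * ∑ ζ, zt h b ![T, R, n, n] (tz ζ z) F

theorem En_sw {n T R k : ℕ} (hn : 0 < n) (z : Zc) {F : Fd → ℝ} (mF : Measurable F)
    (dF : DependsOn F (Sp2 k)) (hT : k < T) (hR : k < R) :
    (En h b n z T R fun U => F (sw U)) = En h b n z R T F := by
  refine congrArg _ (Fintype.sum_equiv (Equiv.inv Zc) _ _ fun ζ => ?_)
  rw [sw, zt_swapz h b (fun i => by fin_cases i <;> simp <;> omega) ζ z mF dF hT hR]
  congr 1
  ext i; fin_cases i <;> rfl

omit [Fintype Zc] in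
theorem WWz_chm [∀ j, NeZero (M j)] (b : ℝ) (z : Tz) (ζ : Zc) (x : Ed M → SU2) (g : Sp M → SU2)
    (y : Ed M → SU2) : WWz b z (chm M ζ * x) g (chm M ζ * y) = WWz b z x g y :=
  WWz_chi z (tz ζ 1) b x g y

theorem En_tor {n R : ℕ} [∀ j, NeZero (![R, n, n] j)] (z : Zc) {F : Fd → ℝ} (bF : BM F) {T : ℕ}
    (dF : DependsOn F (Tm 0 (T + 1 : ℕ))) (hF : ∀ η w, F (liftz (tz 1 z)
      (tm (chm ![R, n, n]) η * w)) = F (liftz (tz 1 z) w)) : En h b n z (T + 1) R F =
      tor h (WP (WWz b (tz 1 z)) (chm ![R, n, n])) 0 (T + 1) fun w => F (liftz (tz 1 z) w) := by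
  rw [Ch.tor_WP (wt_WWz _ h b) (WWz_chm b _) (WWz_inv _ b) (bF.comp (meas_liftz _))
    hF 0 T (dep_liftz _ (by rwa [zero_add]))]
  refine congrArg _ (Finset.sum_congr rfl fun ζ _ => ?_)
  rw [zt_ker _ h b T.succ_pos bF dF, ← WWz_zs, ← liftz_zs, zs_tz, chi_tz]
  rfl

/-- the vacuum of the cylinder whose second side is `R` -/
structure Vz (b : ℝ) (n : ℕ) (z : Zc) (R : ℕ) (ν : Measure Fd) (l q : ℝ) : Prop where
  vt : Vt h b ![R, n, n] (tz 1 z) ν l
  sp : Fs.Sp (fun T => Z0 h b n z T R) l q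
  gram : ∀ (F : Fd → ℝ) (k j s : ℕ), Continuous F → DependsOn F (Tm 0 (k + 1 : ℕ)) →
    DependsOn F (St1 j) → j + 1 < R → (0 ≤ ∫ U, F (rfl0 U) * F (sht s U) ∂ν ∧
      ∫ U, F (rfl0 U) * F (sht s U) ∂ν ≤ ∫ U, F (rfl0 U) * F U ∂ν) ∧
    ∫ U, F (rfl0 U) * F (sht s U) ∂ν - (∫ U, F U ∂ν) ^ 2 ≤ q ^ s * ∫ U, F (rfl0 U) * F U ∂ν
  near : ∀ (F : Fd → ℝ) (k N s : ℕ), Continuous F → (∀ U, |F U| ≤ 1) → DependsOn F (Sp2 k) →
    k + 1 < R → |En h b n z (k + 1 + (2 * N + 2 + s)) R F / l ^ (k + 1 + (2 * N + 2 + s)) -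
      ∫ U, F U ∂ν| ≤ q ^ s * (Z0 h b n z (2 * N + 2) R / l ^ (2 * N + 2))

theorem exists_vz (hb : 0 ≤ b) {n R : ℕ} (hn : 0 < n) (hR : 0 < R) (z : Zc) :
    ∃ ν l q, Vz h b n z R ν l q := by
  have hM : ∀ j, 0 < ![R, n, n] j := fun j => by fin_cases j <;> assumption
  have : ∀ j, NeZero (![R, n, n] j) := fun j => ⟨(hM j).ne'⟩
  obtain ⟨ν, l', vt⟩ := exists_vt h hM hb (tz 1 z)
  obtain ⟨l, r, e0, V0, hr⟩ := exists_vacz (M := ![R, n, n]) (tz 1 z) h b
  have W := wt_WWz (M := ![R, n, n]) (tz 1 z) h b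
  have hp := KKz_psd (M := ![R, n, n]) (tz 1 z) h b hb
  have V := Ch.vac_abs V0 hr W.symm fun x y => (W.KK_pos x y).le
  have he : 0 ≤ᵐ[PP h (Ed ![R, n, n])] (|e0| : Lp ℝ 2 _) :=
    (Lp.coeFn_abs e0).mono fun x hx => hx ▸ abs_nonneg _
  generalize |e0| = e at V he
  obtain rfl : l = l' := by
    have s1 := vt.step 2
    have s2 := vt.low
    simp only [zt_tor _ h b 0 measurable_const] at s1 s2
    refine le_antisymm (le_of_pow vt.pos fun s => le_trans ?_ (s1 s le_rfl))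
      (le_of_pow V.pos fun s => (s2 _ (by omega)).trans (W.tor_step V hp 0 s))
    rw [add_comm]
    exact W.pow_le_tor V hp hr s
  have hc := WWz_chm (M := ![R, n, n]) b (tz 1 z)
  have hi := WWz_inv (M := ![R, n, n]) (tz 1 z) b
  have P := Ch.wt_WP W hc hi
  obtain ⟨q, V', sp⟩ := Fs.exists_sp P.symm (Ch.psd_WP W hc hi hp) (Ch.vac_WP W hc hi V hr he)
  have loc : ∀ (F : Fd → ℝ) (a : ℤ) (k : ℕ), Continuous F →
      DependsOn (fun w => F (liftz (M := ![R, n, n]) (tz 1 z) w)) (Win a (a + (k + 1 : ℕ))) →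
      ∫ U, F U ∂ν = vac (WWz b (tz 1 z)) l e a k fun w => F (liftz (tz 1 z) w) :=
    fun F a k cF dF => by
      refine tendsto_nhds_unique (vt.lim F cF) ?_
      simp only [int_wilz h b _ _ cF.measurable, zt_tor _ h b a cF.measurable,
        zt_tor _ h b a measurable_const]
      exact W.tendsto_vac V hr ((bm_of_cont cF).comp (meas_liftz _)) dF
  have e1 : ∀ T, Z0 h b n z (T + 1) R = tor h (WP (WWz b (tz 1 z)) (chm ![R, n, n])) 0 (T + 1)
    fun _ => 1 := fun T => En_tor h z (BM.const 1) (fun _ _ _ => rfl) fun _ _ => rfl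
  have e2 : ∀ T, 2 ≤ T → Z0 h b n z T R = ∫ x, MP_2d4879_an.pw (PP h _) (Ch.KK h (WP (WWz b
      (tz 1 z)) (chm ![R, n, n]))) (T - 1) x x ∂PP h _ := fun T hT => by
    obtain ⟨j, rfl⟩ := Nat.exists_eq_add_of_le' hT
    exact (e1 (j + 1)).trans (P.tor_one j)
  refine ⟨ν, l, q, vt, ⟨sp.pos, sp.q0, sp.q1, fun T hT => ?_, fun T t hT => ?_⟩,
    fun F k j s cF dF dF' hj => ?_, fun F k N s cF h1 dF hk => ?_⟩
  · exact (e2 T hT).symm ▸ sp.low T hT
  · exact (e2 T hT).symm ▸ (e2 (T + t) (by omega)).symm ▸ sp.step T t hT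
  · have bF := (bm_of_cont cF).comp (meas_liftz (M := ![R, n, n]) (tz 1 z))
    have dL := dep_liftz (M := ![R, n, n]) (tz 1 z) dF
    have g : ∀ s : ℕ, ∫ U, F (rfl0 U) * F (sht s U) ∂ν = vac (WWz b (tz 1 z)) l e (-(k + 1 : ℕ))
        (k + 1 + s + k) fun w => F (liftz (tz 1 z) (rfc 0 w)) * F (liftz (tz 1 z) (sft s w)) :=
      fun s => by
        simp only [liftz_rfc0, liftz_sft]
        refine loc (fun U => F (rfl0 U) * F (sht s U)) _ _ (by fun_prop) ?_
        simp only [← liftz_rfc0, ← liftz_sft]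
        exact RGP.DependsOn.mul' ((Ch.dep_rfc dL 0).mono (Ch.Win.mono (by omega) (by omega)))
          ((Ch.dep_sft dL s).mono (Ch.Win.mono (by omega) (by omega)))
    have g' : ∀ s : ℕ, (vac (WP (WWz b (tz 1 z)) (chm ![R, n, n])) l e (-(k + 1 : ℕ))
        (k + 1 + s + k) fun w => F (liftz (tz 1 z) (rfc 0 w)) * F (liftz (tz 1 z) (sft s w))) =
        ∫ U, F (rfl0 U) * F (sht s U) ∂ν := fun s => by
      rw [g s]
      refine Ch.vac_WP_eq W hc V hr he ((bF.comp (Ch.meas_rfc 0)).mul (bF.comp (Ch.meas_sft s)))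
        (fun η w => ?_) _ _
      simp only [liftz_rfc0, liftz_sft]
      exact liftz_tm _ (RGP.DependsOn.mul' (st_rfl dF') (st_sht dF' s)) hj η w
    have a1 := W.gram_pos V hp hi bF dL s
    have a2 := Fs.vac_clus P V' bF (Ch.WP_inv hc hi) dL s
    rw [← g, ← g] at a1
    rw [g', g', Ch.vac_WP_eq W hc V hr he bF (liftz_tm _ dF' hj),
      ← loc F 0 k cF (by rwa [zero_add])] at a2
    simpa only [Nat.cast_zero, D2.sht_zero] using And.intro a1 a2
  · have bF := bm_of_cont cF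
    have d1 : DependsOn F (St1 k) := dF.mono fun _ e => e.2.2
    have d2 : ∀ T : ℕ, k < T → DependsOn F (Tm 0 T) := fun T hT =>
      dF.mono fun _ e => ⟨e.1, e.2.1.trans_lt (by omega)⟩
    have dL := dep_liftz (M := ![R, n, n]) (tz 1 z) (d2 (k + 1) k.lt_succ_self)
    have := (Fs.tor_close P V' (bF.comp (meas_liftz _)) (fun _ => h1 _) (a := 0)
      (by rwa [zero_add]) N s).2
    rwa [Ch.vac_WP_eq W hc V hr he (bF.comp (meas_liftz _)) (liftz_tm _ d1 hk),
      ← loc F 0 k cF (by rwa [zero_add]), ← e1, show k + 1 + (2 * N + 2 + s) =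
      k + (2 * N + 2 + s) + 1 by ring, ← En_tor h z bF (d2 _ (by omega)) (liftz_tm _ d1 hk),
      show k + (2 * N + 2 + s) + 1 = k + 1 + (2 * N + 2 + s) by ring] at this

variable {h} in
theorem Vz.close {n R T R0 k : ℕ} {z : Zc} {ν : Measure Fd} {l q ρ : ℝ} (V : Vz h b n z R ν l q)
    (ρ0 : 0 ≤ ρ) (ρ1 : ρ ≤ 1) (hq : q ≤ ρ ^ 8)
    (hZ : ∀ T, R ≤ 2 * T → Z0 h b n z T R / l ^ T ≤ 2) {F : Fd → ℝ} (cF : Continuous F)
    (h1 : ∀ U, |F U| ≤ 1) (dF : DependsOn F (Sp2 k)) (hk : 3 * k + 10 ≤ R0) (hT : R0 ≤ T)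
    (hR : R0 ≤ R) (hR' : R ≤ R0 + 1) :
    |En h b n z T R F / Z0 h b n z T R - ∫ U, F U ∂ν| ≤ 4 * ρ ^ R0 := by
  obtain ⟨s, hs⟩ : ∃ s, T = k + 1 + (2 * (R / 4) + 2 + s) :=
    ⟨T - (k + 1) - (2 * (R / 4) + 2), by omega⟩
  have := V.vt.prob
  have a1 := V.near F k (R / 4) s cF h1 dF (by omega)
  have a2 := V.near (fun _ => 1) k (R / 4) s continuous_const (fun _ => abs_one.le)
    (fun _ _ _ => rfl) (by omega)
  have h0 := V.sp.one_le (show 2 ≤ T by omega)
  have a3 : q ^ s * (Z0 h b n z (2 * (R / 4) + 2) R / l ^ (2 * (R / 4) + 2)) ≤ ρ ^ R0 * 2 :=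
    mul_le_mul ((pow_le_pow_left₀ V.sp.q0 hq s).trans ((pow_mul ρ 8 s).symm.trans_le
      (pow_le_pow_of_le_one ρ0 ρ1 (by omega)))) (hZ _ (by omega))
      (zero_le_one.trans (V.sp.one_le (by omega))) (pow_nonneg ρ0 _)
  have a6 : |∫ U, F U ∂ν| ≤ 1 := by
    simpa using norm_integral_le_of_norm_le_const (μ := ν) (f := F) (.of_forall h1)
  rw [← hs] at a1 a2
  rw [integral_const, probReal_univ, one_smul] at a2
  rw [← div_div_div_cancel_right₀ (pow_pos V.sp.pos T).ne']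
  have a4 := a1.trans a3
  have a5 : |Z0 h b n z T R / l ^ T - 1| ≤ _ := a2.trans a3
  generalize ∫ U, F U ∂ν = v at *
  generalize En h b n z T R F / l ^ T = A at *
  generalize Z0 h b n z T R / l ^ T = B at *
  have B0 : 0 < B := by linarith
  rw [show A / B - v = (A - v - v * (B - 1)) / B by field_simp; ring, abs_div, abs_of_pos B0]
  refine (div_le_self (abs_nonneg _) h0).trans ((abs_sub _ _).trans ?_)
  rw [abs_mul]
  linarith [mul_le_of_le_one_left (abs_nonneg (B - 1)) a6]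

omit [Fintype Zc] in
variable {h} in
theorem Vt.mp {z : Tz} {ν : Measure Fd} {l : ℝ} (V : Vt h b M z ν l) {φ : Fd → Fd}
    (cφ : Continuous φ) (e : ∀ T, 0 < T → ∀ F : Fd → ℝ, Measurable F →
      (zt h b (Matrix.vecCons T M) (zs z) fun U => F (φ U)) = zt h b (Matrix.vecCons T M) (zs z) F) :
    MeasurePreserving φ ν ν := by
  have := V.prob
  exact mp_lim V.lim cφ ((eventually_gt_atTop 0).mono fun T hT =>
    mp_wilz h b cφ.measurable (e T hT))

theorem exists_pg (hb : 0 ≤ b) {n t : ℕ} (hn : 0 < n) (z : Zc) (ht : 2 ≤ t)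
    (H : Cr2 (Z0 h b n z) t) : ∃ μ, Pg h b n z t μ ∧ Stp n μ (1 / t) := by
  have key : ∀ R, ∃ ν l q, IsProbabilityMeasure ν ∧ (0 < R → Vz h b n z R ν l q) := fun R => by
    obtain ⟨ν, l, q, V⟩ := exists_vz h hb hn (lt_max_of_lt_right one_pos : 0 < max R 1) z
    exact ⟨ν, l, q, V.vt.prob, fun hR => by rwa [max_eq_left hR] at V⟩
  choose ν l q hp V using key
  have B : Fs.Box2 (Z0 h b n z) l q := ⟨fun x y => Z0_symm h b hn (by omega) (by omega) z,
    fun x => (V _ (by omega)).sp⟩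
  have p : ∀ {T R : ℕ}, 0 < T → 0 < R → ∀ i, 0 < ![T, R, n, n] i := fun hT hR i => by
    fin_cases i <;> assumption
  have sh : ∀ R, 0 < R → ∀ v : Z4, v 2 = 0 → v 3 = 0 → ∀ F : Fd → ℝ, Continuous F →
      ∫ U, F (shf v U) ∂ν R = ∫ U, F U ∂ν R := fun R hR v h2 h3 F cF =>
    RGP.int_mp ((V R hR).vt.mp (cont_shf v) fun T hT F mF => by
      rw [zs_tz]
      exact zt_shf01 h b (p hT hR) z h2 h3 mF) cF.measurable
  have t0 : (0 : ℝ) < t := by positivity
  refine (Nu.lim (n := n) (ν := ν) (r := 1 / t) ⟨hp, fun v => ?_, ?_, ?_, fun F k s cF dF => ?_,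
    fun F k cF dF => ?_⟩).imp fun μ e =>
      ⟨⟨ν, l, fun R hR => (V R hR).vt, e.2, fun M R j => B.cmp ht H⟩, e.1⟩
  · obtain ⟨Θ, c, e1, e2⟩ := zt_shf h n z v
    exact ⟨Θ, c, e1, (eventually_gt_atTop 0).mono fun R hR => (V R hR).vt.mp c fun T hT F mF => by
      rw [zs_tz]
      exact e2 b _ (p hT hR) rfl rfl F mF⟩
  · exact (eventually_gt_atTop 0).mono fun R hR => (V R hR).vt.mp cont_rfl0 fun T hT F mF =>
      zt_rfl h b (p hT hR) _ mF
  · refine (eventually_gt_atTop 0).mono fun R hR => ?_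
    simp only [ae_all_iff, funext_iff]
    refine fun v v0 v1 x i j => ae_lim (V R hR).vt.lim ((cont_pe x i j).comp (cont_shf _))
      (cont_pe x i j) (.of_forall fun T => (ae_pert h b _ _).mono fun U hU => ?_)
    have e : (n : ℤ) • v = fun i => (![T, R, n, n] i : ℕ) * v i := by
      funext i
      fin_cases i <;> simp [v0, v1]
    simp only [Function.comp, e, hU v]
  · filter_upwards [eventually_ge_atTop (2 * t), eventually_gt_atTop (2 * k + 1)] with R h1 h2
    have hR : 0 < R := by omega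
    have a := (V R hR).gram (fun U => F (shf (Pi.single 1 k) U)) k (2 * k) s (by fun_prop)
      (fun U U' hU => dF fun e he => hU _ (by
        have := he.1
        have := he.2.1
        simp only [Tm, Set.mem_ofPred_eq, Pi.add_apply, Pi.single_eq_of_ne zero_ne_one]
        omega))
      (fun U U' hU => dF fun e he => hU _ (by
        have := abs_lt.1 he.2.2
        simp only [St1, Set.mem_ofPred_eq, Pi.add_apply, Pi.single_eq_same]
        omega)) h2
    have c1 : ∀ U, shf (Pi.single 1 k) (rfl0 U) = rfl0 (shf (Pi.single 1 k) U) := fun U => by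
      funext e
      have : rq e.2 e.2 (e.1 + Pi.single 1 (k : ℤ)) = rq e.2 e.2 e.1 + Pi.single 1 (k : ℤ) := by
        funext i
        fin_cases i <;> simp [rq]
      simp only [shf, rfl0, this]
    have c2 : ∀ U, shf (Pi.single 1 k) (sht s U) = sht s (shf (Pi.single 1 k) U) := fun U => by
      funext e
      simp only [shf, sht, add_right_comm]
    have s0 := sh R hR (Pi.single 1 k) rfl rfl
    simp only [c1, c2, s0 F cF, s0 (fun U => F (rfl0 U) * F (sht s U)) (by fun_prop),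
      s0 (fun U => F (rfl0 U) * F U) (by fun_prop)] at a
    refine ⟨a.1, a.2.trans (mul_le_mul_of_nonneg_right ((pow_le_pow_left₀ (V R hR).sp.q0
      (B.gap ht H h1).1 s).trans_eq ?_) (a.1.1.trans a.1.2))⟩
    rw [← exp_nat_mul]
    congr 1
    ring
  · obtain ⟨C, hC⟩ := (bm_of_cont cF).bdd
    have C0 : 0 < |C| + 1 := by positivity
    have ρ1 : exp (-1 / (8 * t)) < 1 := exp_lt_one_iff.2 (div_neg_of_neg_of_pos neg_one_lt_zero
      (by positivity))
    refine ⟨fun R => (|C| + 1) * (8 * exp (-1 / (8 * t)) ^ R),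
      ((summable_geometric_of_lt_one (exp_pos _).le ρ1).mul_left _).mul_left _, ?_⟩
    filter_upwards [eventually_ge_atTop (2 * t), eventually_ge_atTop (3 * (2 * k) + 10)]
      with R h1 h2 R' hR'
    let v : Z4 := ![k, k, 0, 0]
    let G : Fd → ℝ := fun U => (|C| + 1)⁻¹ * F (shf v U)
    have cG : Continuous G := by fun_prop
    have G1 : ∀ U, |G U| ≤ 1 := fun U => by
      rw [abs_mul, abs_of_pos (inv_pos.2 C0), inv_mul_le_iff₀ C0]
      linarith [hC (shf v U), le_abs_self C]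
    have dG : DependsOn G (Sp2 (2 * k)) := fun U U' hU => congrArg (_ * ·) (dF fun e he => hU _ (by
      have := abs_le.1 he.1
      have := abs_le.1 he.2
      simp only [Sp2, v, Set.mem_ofPred_eq, Pi.add_apply, Matrix.cons_val_zero, Matrix.cons_val_one]
      omega))
    have cl : ∀ {T S : ℕ} {G : Fd → ℝ}, Continuous G → (∀ U, |G U| ≤ 1) →
        DependsOn G (Sp2 (2 * k)) → R ≤ T → R ≤ S → S ≤ R + 1 → _ := fun {T S G} c g d x y w =>
      (V S (by omega)).close (exp_pos (-1 / (8 * t))).le ρ1.le ((B.gap ht H (h1.trans y)).1.trans_eq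
        (by rw [← exp_nat_mul]; congr 1; push_cast; field_simp)) (B.gap ht H (h1.trans y)).2 c g d
        h2 x y w
    have a1 := cl (T := R') cG G1 dG (by omega) le_rfl R.le_succ
    have a2 := cl (S := R') (cG.comp cont_sw) (fun _ => G1 _)
      (fun _ _ H => dG fun _ he => H _ ⟨he.2.2.1, he.2.2.2, he.1, he.2.1⟩) le_rfl (by omega)
      (by omega)
    have c1 : ∀ U, shf v (sw U) = sw (shf v U) := fun U => by
      funext e
      have : (e.1 + v) ∘ (Equiv.swap 0 1).symm = e.1 ∘ (Equiv.swap 0 1).symm + v := by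
        funext i
        fin_cases i <;> rfl
      simp only [shf, sw, prm, this]
    rw [Function.comp_def, En_sw h hn z cG.measurable dG (by omega) (by omega),
      Z0_symm h b hn (by omega) (by omega)] at a2
    simp only [G, integral_const_mul, c1, sh R (by omega) v rfl rfl F cF,
      sh R' (by omega) v rfl rfl (fun U => F (sw U)) (by fun_prop)] at a1 a2
    rw [← inv_mul_le_iff₀ C0, ← abs_of_pos (inv_pos.2 C0), ← abs_mul, mul_sub]
    rw [abs_sub_comm] at a1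
    exact (abs_sub_le _ _ _).trans ((add_le_add a1 a2).trans_eq (by ring))

end Pool.Agent.Lib.MP_7f377f_mp.YM9
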