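import Pool.Agent.Lib.MP_7f377f_mp.G.TwD5
import Pool.Agent.Lib.MP_7f377f_mp.G.TwE

/-! Domination of the state of the plane by a cube, with control of the constant. -/

noncomputable section

set_option linter.unusedSectionVars false
variable [Pool.Agent.Lib.MP_7f377f_mp.GD]

namespace Pool.Agent.Lib.MP_7f377f_mp.YM9

open MeasureTheory Filter Topology Function Real D2
open RG.Q4 (Zc)
open Y6 (bm_of_cont)

variable {H : Fd → ℝ}

theorem dep_int {S T : Set Link} (h1 : DependsOn H S) (h2 : DependsOn H T) :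
    DependsOn H (S ∩ T) := fun U V e => by
  classical
  refine (h1 (y := S.piecewise U V) fun i hi => (Set.piecewise_eq_of_mem _ _ _ hi).symm).trans
    (h2 fun i hi => ?_)
  by_cases c : i ∈ S
  · rw [Set.piecewise_eq_of_mem _ _ _ c]
    exact e i ⟨c, hi⟩
  · exact Set.piecewise_eq_of_notMem _ _ _ c

theorem dep_xc0 {l : Fin 4} {w : ℕ} (dH : DependsOn H (Sl 0 w)) :
    DependsOn (fun U => H (xc l U)) (Sl l w) := fun U V e => dH fun i hi =>
  e _ (by simpa [Sl] using hi)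

theorem arl_xc (l : Fin 4) (N w : ℕ) (H : Fd → ℝ) :
    (fun U => arl l N w H (xc l U)) = arr N w fun V => H (xc l V) := by
  funext U
  rw [← arr_xc, xc_xc]

theorem arl_dbl (l : Fin 4) {N : ℕ} (hN : Even N) (w : ℕ) (H : Fd → ℝ) :
    arl l 2 (N * w) (arl l N w H) = arl l (2 * N) w H := by
  funext U
  rw [← arr_xc, arl_xc, arr_dbl hN, arr_xc]

theorem arl_comm {l l' : Fin 4} (h : l ≠ l') (N w N' w' : ℕ) (H : Fd → ℝ) :
    arl l N w (arl l' N' w' H) = arl l' N' w' (arl l N w H) := by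
  funext U
  simp only [arl, ml_comm h]
  exact Finset.prod_comm

theorem ev_two (i : ℕ) : Even (2 ^ (i + 1)) := Nat.even_pow.2 ⟨even_two, i.succ_ne_zero⟩

variable [MeasurableSpace SU2] [BorelSpace SU2] (h : Measure SU2) [h.IsHaarMeasure]
  [IsProbabilityMeasure h]

theorem dep_self {l : Fin 4} {w N : ℕ} (dH : DependsOn H (Sl l w)) (w0 : 0 < w) (hN : Even N) :
    DependsOn (arl l N w H) (Sl l (N * w)) := by
  rw [← funext (arr_xc l N w H)]
  exact dep_xc0 (dep_arr5 (dep_xc dH) w0 hN)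

section jensen
variable {n : ℕ} {μ ν : Measure Fd} {r : ℝ} (S : Stp n μ r)
  (hs : ∀ (s : ℤ) {F : Fd → ℝ}, Continuous F → ∫ U, F (sht s U) ∂μ = ∫ U, F U ∂μ)
include S

theorem Stp.cs {k : ℕ} (cH : Continuous H) (dH : DependsOn H (Wn k)) :
    (∫ U, H U ∂μ) ^ 2 ≤ ∫ U, H (rfl0 U) * H U ∂μ := by
  have := S.prob
  have a := (S.gram (fun U => H U - ∫ U, H U ∂μ) k 0 (by fun_prop)
    fun U V e => by simp only [dH e]).1
  simp only [Nat.cast_zero, D2.sht_zero, sub_mul, mul_sub] at a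
  rw [integral_sub, integral_sub, integral_sub, integral_const_mul, integral_mul_const,
    Weak.int_mp S.rfl cH, integral_const, probReal_univ, one_smul] at a
  · linarith
  all_goals exact (bm_of_cont (by fun_prop)).integrable μ

include hs

theorem jen0 (cH : Continuous H) {w w' : ℕ} (d0 : DependsOn H (Sl 0 w)) (d1 : DependsOn H (Sl 1 w'))
    (w0 : 0 < w) (i : ℕ) : (∫ U, H U ∂μ) ^ 2 ^ (i + 1) ≤ ∫ U, arl 0 (2 ^ (i + 1)) w H U ∂μ := by
  have key : ∀ {K : Fd → ℝ} {u : ℕ}, Continuous K → DependsOn K (Sl 0 u) → DependsOn K (Sl 1 w') →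
      (∫ U, K U ∂μ) ^ 2 ≤ ∫ U, arl 0 2 u K U ∂μ := fun {K u} cK e0 e1 => by
    simp only [← arr_eq, arr_two]
    rw [hs u (F := fun U => K (rfl0 U) * K U) (by fun_prop)]
    refine S.cs (k := u + w') cK ((dep_int e0 e1).mono fun e he => ?_)
    obtain ⟨⟨a1, a2⟩, a3, a4⟩ := he
    refine ⟨a1, by omega, ?_⟩
    rw [abs_of_nonneg a3]
    omega
  induction i with
  | zero => exact key cH d0 d1
  | succ i ih =>
    have := key (cont_arl cH 0 (2 ^ (i + 1)) w) (dep_self d0 w0 (ev_two i))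
      (dep_arl (by decide) d1 _ _)
    rw [arl_dbl 0 (ev_two i), ← pow_succ'] at this
    rw [pow_succ 2, pow_mul]
    exact (pow_le_pow_left₀ ((ev_two i).pow_nonneg _) ih 2).trans this

theorem jen1 (cH : Continuous H) {w w' : ℕ} (d0 : DependsOn H (Sl 0 w)) (d1 : DependsOn H (Sl 1 w'))
    (w0 : 0 < w') (i : ℕ) : (∫ U, H U ∂μ) ^ 2 ^ (i + 1) ≤ ∫ U, arl 1 (2 ^ (i + 1)) w' H U ∂μ := by
  have := jen0 S hs (H := fun U => H (xc 1 U)) (by fun_prop) (dep_xc d1) (dep_xc0 d0) w0 i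
  rwa [Weak.int_mp S.swp cH, ← arr_eq, ← arl_xc, Weak.int_mp S.swp (cont_arl cH _ _ _)] at this

theorem Dom.jen {D : ℝ} {N2 N3 i j : ℕ} {w : Fin 4 → ℕ} (w0 : ∀ l, 0 < w l)
    (hD : Dom μ ν ![2, 2, N2, N3] ![2 ^ (i + 1) * w 0, 2 ^ (j + 1) * w 1, w 2, w 3] D) :
    Dom μ ν ![2 ^ (i + 2), 2 ^ (j + 2), N2, N3] w D := fun H cH dH => by
  have d := dep_sl dH
  have c1 := cont_arl cH 1 (2 ^ (j + 1)) (w 1)
  have d0 := dep_arl (show (0 : Fin 4) ≠ 1 by decide) (d 0) (2 ^ (j + 1)) (w 1)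
  have d1 := dep_self (d 1) (w0 1) (ev_two j)
  have a1 := jen1 S hs cH (d 0) (d 1) (w0 1) j
  have a2 := jen0 S hs c1 d0 d1 (w0 0) i
  have d2 := fun l (l0 : l ≠ 0) (l1 : l ≠ 1) =>
    dep_arl l0 (dep_arl l1 (d l) (2 ^ (j + 1)) (w 1)) (2 ^ (i + 1)) (w 0)
  have a3 := hD _ (cont_arl c1 0 (2 ^ (i + 1)) (w 0)) ((dep_int (dep_int (dep_self d0 (w0 0)
    (ev_two i)) (dep_arl (by decide) d1 _ _)) (dep_int (d2 2 (by decide) (by decide))
      (d2 3 (by decide) (by decide)))).mono fun e he l => by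
        fin_cases l
        exacts [he.1.1, he.1.2, he.2.1, he.2.2])
  simp only [← arl_all, Matrix.cons_val, Fin.prod_univ_four] at a3 ⊢
  rw [arl_comm (show (1 : Fin 4) ≠ 0 by decide), arl_dbl 0 (ev_two i), arl_dbl 1 (ev_two j),
    ← pow_succ', ← pow_succ'] at a3
  refine le_trans ?_ a3
  calc _ = ((|∫ U, H U ∂μ| ^ 2 ^ (j + 1)) ^ 2 ^ (i + 1)) ^ (2 * 2 * N2 * N3) := by ring
    _ ≤ _ := pow_le_pow_left₀ (by positivity) ?_ _
  rw [(ev_two j).pow_abs]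
  exact ((pow_le_pow_left₀ ((ev_two j).pow_nonneg _) a1 _).trans a2).trans (le_abs_self _)

end jensen

variable {b : ℝ} {n : ℕ} {z : Zc}

theorem Pg.sht [Fintype Zc] {t : ℕ} {μ : Measure Fd} (P : Pg h b n z t μ) (hn : 0 < n) (s : ℤ)
    {F : Fd → ℝ} (cF : Continuous F) : ∫ U, F (sht s U) ∂μ = ∫ U, F U ∂μ := by
  obtain ⟨ν, l, vt, lim, -⟩ := P
  refine tendsto_nhds_unique (lim _ (cF.comp (cont_shf _))) ((lim F cF).congr'
    ((eventually_gt_atTop 0).mono fun R hR => (RGP.int_mp ((vt R hR).mp (cont_shf _)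
      fun T hT F mF => ?_) cF.measurable).symm))
  rw [zs_tz]
  exact zt_shf01 h b (fun i => by fin_cases i <;> assumption) z (by simp) (by simp) mF

theorem Zbd.cmp3 {η : ℕ} {C : ℝ} (hZ : Zbd h b η z C) {m u : ℕ} (hm : Odd m) (hu : Odd u) :
    (zt h b ![η, η * m, η * m, η * u] 1 fun _ => 1) ^ 3 ≤ exp (|C| * (3 * m * m * u : ℕ)) ^ 4 *
      zt h b ![η + 2 * η, η * m, η * m, η * u] 1 fun _ => 1 := by
  obtain ⟨κ, κ0, H⟩ := hZ.le h
  have a1 := (H ![1, m, m, u] 1 (3 * m * m * u) (odd4 odd_one hm hm hu) (.inl rfl) (by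
    simp only [Fin.prod_univ_four, Matrix.cons_val]; gcongr; omega)).1
  have a2 := (H ![3, m, m, u] 1 (3 * m * m * u) (odd4 (by decide) hm hm hu) (.inl rfl) (by
    simp only [Fin.prod_univ_four, Matrix.cons_val, le_refl])).2
  simp only [v4, tz_one, Fin.prod_univ_four, Matrix.cons_val, mul_one, one_mul] at a1 a2
  rw [show η + 2 * η = η * 3 by ring]
  generalize exp (|C| * (3 * m * m * u : ℕ)) = E at *
  have E0 : 0 ≤ E := nonneg_of_mul_nonneg_left ((zt_pos h b _ _).le.trans a1) (by positivity)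
  calc _ ≤ _ := pow_le_pow_left₀ (zt_pos h b _ _).le a1 3
    _ = E ^ 3 * κ ^ (3 * m * m * u) := by ring
    _ ≤ E ^ 3 * _ := mul_le_mul_of_nonneg_left a2 (by positivity)
    _ = _ := by ring

theorem Zbd.cmp4 {η : ℕ} {C : ℝ} (hZ : Zbd h b η z C) {m u : ℕ} (hm : Odd m) (hu : Odd u) :
    (zt h b ![η * u, η * m, η * m, η * u] 1 fun _ => 1) ≤ exp (|C| * (m * m * u * u : ℕ)) ^ 2 *
      zt h b ![η * m, η * m, η * u, η * u] (tz 1 z) fun _ => 1 := by
  obtain ⟨κ, κ0, H⟩ := hZ.le h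
  have a1 := (H ![u, m, m, u] 1 (m * m * u * u) (odd4 hu hm hm hu) (.inl rfl) (by
    simp only [Fin.prod_univ_four, Matrix.cons_val]; exact le_of_eq (by ring))).1
  have a2 := (H ![m, m, u, u] z (m * m * u * u) (odd4 hm hm hu hu) (.inr rfl) (by
    simp only [Fin.prod_univ_four, Matrix.cons_val, le_refl])).2
  simp only [v4, tz_one, Fin.prod_univ_four, Matrix.cons_val] at a1 a2
  calc _ ≤ _ := a1
    _ = exp (|C| * (m * m * u * u : ℕ)) * κ ^ (m * m * u * u) := by ring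
    _ ≤ _ := mul_le_mul_of_nonneg_left a2 (exp_pos _).le
    _ = _ := by ring

theorem dom_core [Fintype Zc] {η t M i : ℕ} {μ : Measure Fd} {w : Fin 4 → ℕ} {B B' : ℝ} (hb : 0 ≤ b)
    (hP : Pg h b n z t μ) (ho : Odd η) (hη : 3 ≤ η) (oM : Odd M) (w0 : ∀ i, 0 < w i)
    (h0 : 2 * w 0 < M) (h1 : 2 * w 1 < M) (h2 : 2 ^ (i + 1) * w 2 < M) (h3 : 2 ^ (i + 1) * w 3 < M)
    (h4 : w 2 + η ≤ n) (h5 : w 3 + η ≤ n) (h6 : M ≤ 2 ^ (i + 1) * (n - η) + η) (ηM : η ≤ M)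
    (ht : 100 * t ≤ M) (E1 : 1 ≤ B')
    (B1 : (zt h b ![η, M, M, n] 1 fun _ => 1) ^ 3 ≤ B * zt h b ![η + 2 * η, M, M, n] 1 fun _ => 1)
    (B2 : (zt h b ![n, M, M, n] 1 fun _ => 1) ≤ B * zt h b ![M, M, n, n] (tz 1 z) fun _ => 1)
    (B3 : (zt h b ![η, M, M, M] 1 fun _ => 1) ^ 3 ≤ B' * zt h b ![η + 2 * η, M, M, M] 1 fun _ => 1) :
    Dom μ (cube h b M) ![2, 2, 2 ^ (i + 1), 2 ^ (i + 1)] w
      (((100 * (Fintype.card Zc : ℝ) ^ 3 * (B * B)) ^ 2 ^ (i + 1) * (B' * B')) ^ 2 ^ (i + 1)) := by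
  intro H cH dH
  have M0 := oM.pos
  have n0 : 0 < n := by omega
  have a1 := dom01 h hb n0 hP cH (dep_sl dH 0) (dep_sl dH 1) (w0 0) (w0 1) oM h0 h1 ht
  have c1 := cont_arl (cont_arl cH 1 2 (w 1)) 0 2 (w 0)
  have d2 := fun l (l0 : l ≠ 0) (l1 : l ≠ 1) =>
    dep_arl l0 (dep_arl l1 (dep_sl dH l) 2 (w 1)) 2 (w 0)
  have e := arl_all ![2, 2, 2 ^ (i + 1), 2 ^ (i + 1)] w H
  simp only [Matrix.cons_val] at e
  generalize arl 0 2 (w 0) (arl 1 2 (w 1) H) = A at *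
  have s2 : ∀ {F : Fd → ℝ}, Continuous F → zt h b ![M, M, n, n] (tz 1 z) F =
      zt h b ![n, M, M, n] (t3 z) fun U => F (xc 2 U) := fun cF => by
    rw [← sw2 M _ n, ← zt_swap2 h b (pos4 M0 M0 n0 n0) z (by fun_prop : Continuous _).measurable]
    simp only [xc_xc]
  have sx : ∀ (l : Fin 4) {N : Fin 4 → ℕ} {F : Fd → ℝ}, (∀ i, 0 < N i) → Continuous F →
      ∫ U, F U ∂wilson h b (N ∘ Equiv.swap 0 l) = ∫ U, F (xc l U) ∂wilson h b N :=
    fun l N F hN cF => by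
      rw [← (mp_prm h b hN (Equiv.swap 0 l)).map_eq,
        integral_map (cont_prm _).aemeasurable cF.aestronglyMeasurable]
  have cx : ∀ (l : Fin 4) {F : Fd → ℝ}, Continuous F → Continuous fun U => F (xc l U) :=
    fun l F cF => cF.comp (cont_prm _)
  have a2 := dom0 h (pos3 M0 M0 n0) hb (z := t3 z) hη (cx 2 c1) (dep_xc (d2 2 (by decide) (by decide)))
    (w0 2) h4 ho (B := B) (zs_t3 z ▸ B1) (by
      rw [zs_t3]; exact B2.trans_eq (congrArg _ (s2 continuous_const))) oM h2 h6 ηM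
  have c2 := cont_arl c1 2 (2 ^ (i + 1)) (w 2)
  have a3 := dom0 h (pos3 M0 M0 M0) hb (z := 1) hη (cx 3 c2)
    (dep_xc (dep_arl (by decide) (d2 3 (by decide) (by decide)) _ _)) (w0 3) h5 ho (B := B')
    (zs_one ▸ B3) (by
      rw [zs_one]; exact le_mul_of_one_le_left (zt_pos h b _ _).le E1) oM h3 h6 ηM
  rw [zs_t3, wilz_one, int_wilz h b _ _ (cx 2 c1).measurable, ← s2 c1, ← s2 continuous_const,
    ← int_wilz h b _ _ c1.measurable, ← sw2 M M M n,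
    sx 2 (pos4 M0 M0 M0 n0) (cont_arr (cx 2 c1) _ _)] at a2
  rw [zs_one, wilz_one, wilz_one, ← sx 3 (pos4 n0 M0 M0 M0) c2, sw3,
    ← sw3 M M M M, sx 3 (pos4 M0 M0 M0 M0) (cont_arr (cx 3 c2) _ _)] at a3
  simp only [arr_xc, e] at a2 a3
  have ev := ev_two i
  have e4 : wilson h b ![M, M, M, M] = cube h b M := by
    congr 1
    funext l
    fin_cases l <;> rfl
  rw [e4] at a3
  simp only [Fin.prod_univ_four, Matrix.cons_val]
  generalize 2 ^ (i + 1) = N at *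
  rw [((even_two.mul_right 2).mul_right N).mul_right N |>.pow_abs]
  have b1 := pow_le_pow_left₀ (ev.pow_nonneg _) (pow_le_pow_left₀ (by positivity) a1 N) N
  have b2 := pow_le_pow_left₀ (ev.pow_nonneg _) a2 N
  rw [mul_pow _ _ N, mul_pow _ _ N] at b1
  rw [mul_pow _ _ N] at b2
  have := mul_self_nonneg B
  calc _ = (((∫ U, H U ∂μ) ^ 4) ^ N) ^ N := by ring
    _ ≤ _ := b1.trans (mul_le_mul_of_nonneg_left (b2.trans
        (mul_le_mul_of_nonneg_left a3 (by positivity))) (by positivity))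
    _ = _ := by ring

theorem exists_dy {m u : ℕ} (hu : 0 < u) (h : 2 * u ≤ m) :
    ∃ i, 2 ^ (i + 1) * u ≤ m ∧ m < 2 ^ (i + 2) * u := by
  have e : ∃ i, m < 2 ^ (i + 2) * u := ⟨m, by
    have := Nat.lt_two_pow_self (n := m + 2)
    nlinarith⟩
  refine ⟨Nat.find e, ?_, Nat.find_spec e⟩
  cases hj : Nat.find e with
  | zero => exact h
  | succ j => exact not_lt.1 (Nat.find_min e (hj ▸ j.lt_succ_self))

theorem dom_plane2 [Fintype Zc] (C : ℝ) {m' : ℕ} (hm' : Odd m') (m3 : 3 ≤ m') :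
    ∃ K : ℝ, 0 ≤ K ∧ ∀ {m : ℕ}, Odd m → 2 * m' ≤ m → ∃ I : ℕ, 2 ^ (I + 1) * m' ≤ 3 * m ∧
      ∀ {b r : ℝ} {η t i j : ℕ} {μ : Measure Fd} {w : Fin 4 → ℕ}, 0 ≤ b → Pg h b (η * m') z t μ →
      Stp (η * m') μ r → Zbd h b η z C → Odd η → 3 ≤ η → (∀ i, 0 < w i) →
      2 ^ (i + 2) * w 0 < η * m → 2 ^ (j + 2) * w 1 < η * m → 3 * w 2 < η * m' → 3 * w 3 < η * m' →
      100 * t ≤ η * m → Dom μ (cube h b (η * m)) ![2 ^ (i + 2), 2 ^ (j + 2), 2 ^ (I + 1), 2 ^ (I + 1)]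
        w (exp (K * m ^ 2) ^ (2 ^ (I + 1) * 2 ^ (I + 1))) := by
  obtain ⟨c, hc⟩ : ∃ c : ℝ, c = 100 * (Fintype.card Zc : ℝ) ^ 3 := ⟨_, rfl⟩
  have c0 : 0 ≤ c := by rw [hc]; positivity
  have C0 := abs_nonneg C
  refine ⟨c + 48 * |C| * m' ^ 2, by positivity, fun {m} hm h2 => ?_⟩
  obtain ⟨I, i1, i2⟩ := exists_dy (m := 2 * m) (u := m' - 1) (by omega) (by omega)
  rw [pow_succ' 2 (I + 1), mul_assoc] at i2
  refine ⟨I, by
    have : 2 ^ (I + 1) * (2 * m') ≤ 2 ^ (I + 1) * (3 * (m' - 1)) := Nat.mul_le_mul_left _ (by omega)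
    linarith, fun {b r η t i j μ w} hb P S hZ ho hη w0 h0 h1 h3 h4 ht => ?_⟩
  have k : ∀ {y : ℕ}, 3 * y < η * m' → 2 ^ (I + 1) * y < η * m ∧ y + η ≤ η * m' := fun {y} hy => by
    obtain ⟨u, rfl⟩ := Nat.exists_eq_add_of_le' m3
    rw [show u + 3 - 1 = u + 2 by omega] at i1
    have a1 : 2 * y < η * (u + 2) := by nlinarith
    have a2 := mul_lt_mul_of_pos_left a1 (show 0 < 2 ^ (I + 1) by positivity)
    have a3 := Nat.mul_le_mul_left η i1
    exact ⟨by linarith, by nlinarith⟩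
  have m1 : (1 : ℝ) ≤ m := by exact_mod_cast hm.pos
  have m2 : (1 : ℝ) ≤ m' := by exact_mod_cast hm'.pos
  have E : ∀ x y : ℝ, ∀ p : ℕ, p * x ≤ y → exp x ^ p ≤ exp y := fun x y p e => by
    rw [← exp_nat_mul]
    exact exp_le_exp.2 e
  have p1 : 0 ≤ |C| * m ^ 2 * m' := by positivity
  have p2 := mul_le_mul_of_nonneg_left m2 p1
  have a1 := dom_core h (B := exp (12 * |C| * m ^ 2 * m' ^ 2)) (B' := exp (12 * |C| * m ^ 3))
    (w := ![2 ^ (i + 1) * w 0, 2 ^ (j + 1) * w 1, w 2, w 3]) (i := I) hb P ho hη (ho.mul hm)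
    (pos4 (by have := w0 0; positivity) (by have := w0 1; positivity) (w0 2) (w0 3))
    (by rwa [pow_succ' 2 (i + 1), mul_assoc] at h0) (by rwa [pow_succ' 2 (j + 1), mul_assoc] at h1)
    (k h3).1 (k h4).1 (k h3).2 (k h4).2 (by
      have := Nat.mul_le_mul_left η (show m ≤ 2 ^ (I + 1) * (m' - 1) by omega)
      rw [mul_left_comm, Nat.mul_sub_one] at this
      omega) (Nat.le_mul_of_pos_right _ hm.pos) ht (one_le_exp (by positivity))
    ((hZ.cmp3 h hm hm').trans (mul_le_mul_of_nonneg_right (E _ _ _ (by push_cast; linarith))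
      (zt_pos h b _ _).le))
    ((hZ.cmp4 h hm hm').trans (mul_le_mul_of_nonneg_right (E _ _ _ (by push_cast; nlinarith))
      (zt_pos h b _ _).le))
    ((hZ.cmp3 h hm hm).trans (mul_le_mul_of_nonneg_right (E _ _ _ (by push_cast; linarith))
      (zt_pos h b _ _).le))
  have a2 := Dom.jen S (fun s _ cF => P.sht h (ho.mul hm').pos s cF) w0 a1
  intro H cH dH
  have a3 := a2 H cH dH
  refine a3.trans (mul_le_mul_of_nonneg_right ?_ (nonneg_of_mul_nonneg_right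
    (le_trans (by positivity) a3) ?_))
  · rw [pow_mul]
    refine pow_le_pow_left₀ (by positivity) ?_ _
    have N1 : (m : ℝ) ≤ (2 ^ (I + 1) : ℕ) * m' := by
      exact_mod_cast (show m ≤ 2 ^ (I + 1) * (m' - 1) by omega).trans
        (Nat.mul_le_mul_left _ (by omega))
    generalize 2 ^ (I + 1) = N at *
    have b1 : c ≤ exp (c * m ^ 2) := by
      nlinarith [add_one_le_exp (c * m ^ 2), mul_le_mul_of_nonneg_left (one_le_pow₀ m1 (n := 2)) c0]
    have b2 : exp (12 * |C| * m ^ 3) * exp (12 * |C| * m ^ 3) ≤ exp (24 * |C| * m ^ 2 * m' ^ 2) ^ N := by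
      rw [← exp_add, ← exp_nat_mul]
      have := mul_le_mul_of_nonneg_left N1 (show 0 ≤ |C| * m ^ 2 by positivity)
      have := mul_le_mul_of_nonneg_left p2 N.cast_nonneg
      exact exp_le_exp.2 (by linarith)
    rw [← hc]
    calc _ ≤ (exp (c * m ^ 2) * _) ^ N * _ := mul_le_mul (pow_le_pow_left₀ (by positivity)
          (mul_le_mul_of_nonneg_right b1 (by positivity)) N) b2 (by positivity) (by positivity)
      _ = _ := by simp only [← mul_pow, ← exp_add]; congr 2; ring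
  · have : 0 < Fintype.card Zc := Fintype.card_pos
    positivity

end Pool.Agent.Lib.MP_7f377f_mp.YM9
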