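import Pool.Agent.Lib.MP_7f377f_mp.G.TwD1

/-! The uniform bounds of the cubes pass to the planes. -/

noncomputable section

set_option linter.unusedSectionVars false
variable [Pool.Agent.Lib.MP_7f377f_mp.GD]

namespace Pool.Agent.Lib.MP_7f377f_mp.YM9

open MeasureTheory Filter Topology Function Real
open Y6 (bm_of_cont)

theorem exists_slab' {κ : Type} [Fintype κ] {k D : ℕ} (hk : Fintype.card κ ≤ k) {a η P : ℝ}
    (ha : 0 < a) (η0 : 0 < η) (hη : η * (3 * k + 1) = a * P) (c : κ → Fin (2 * D + 1)) :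
    ∃ (s : ℤ) (q : κ → ℕ), ∀ i (y : ℝ), |a * (y + (s + q i * P)) / η - ((c i : ℤ) - D : ℤ)| ≤ 1 →
      η - a ≤ a * y ∧ a * y ≤ a * P - η := by
  obtain ⟨e⟩ := Function.Embedding.nonempty_of_card_le (hk.trans_eq (Fintype.card_fin k).symm)
  obtain ⟨s, q, -, h⟩ := exists_slab ha η0 hη (extend e c fun _ => 0)
  exact ⟨s, q ∘ e, fun i y hy => h (e i) y (by rwa [e.injective.extend_apply])⟩

variable [MeasurableSpace SU2] [BorelSpace SU2]

theorem gc_recentre {k : ℕ} {μ ν : Measure Fd} [IsProbabilityMeasure μ] {F : Fin k → Sr} {C : ℝ}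
    (C0 : 0 ≤ C) (fin : ∀ i, (support (F i)).Finite)
    (H : ∀ B : Finset (Fin k), |gc μ ν fun i : B => F i| ≤ C) : |gc μ μ F| ≤ C * (1 + C) ^ k := by
  have cg := fun i => cont_gf (fin i)
  have h2 : ∀ B : Finset (Fin k),
      |∫ U, ∏ i ∈ B, (gf (F i) U - ∫ V, gf (F i) V ∂ν) ∂μ| ≤ C := fun B => by
    refine le_of_eq_of_le ?_ (H B)
    rw [gc]
    congr 2
    funext U
    exact (B.prod_coe_sort _).symm
  have e : ∀ U, ∏ i, (gf (F i) U - ∫ V, gf (F i) V ∂μ) = ∑ B ∈ Finset.univ.powerset,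
      (∏ i ∈ B, (gf (F i) U - ∫ V, gf (F i) V ∂ν)) *
        ∏ i ∈ Finset.univ \ B, (∫ V, gf (F i) V ∂ν - ∫ V, gf (F i) V ∂μ) := fun U => by
    rw [← Finset.prod_add]
    simp only [sub_add_sub_cancel]
  simp only [gc, e]
  rw [integral_finsetSum _ fun B _ => (bm_of_cont (by fun_prop)).integrable _, ← Fin.prod_const,
    Finset.prod_add, Finset.mul_sum]
  refine (Finset.abs_sum_le_sum_abs _ _).trans (Finset.sum_le_sum fun B _ => ?_)
  rw [integral_mul_const, abs_mul, Finset.prod_const_one, one_mul, Finset.abs_prod]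
  refine mul_le_mul (h2 B) (Finset.prod_le_prod (fun _ _ => abs_nonneg _) fun i _ => ?_)
    (Finset.prod_nonneg fun _ _ => abs_nonneg _) C0
  have := h2 {i}
  simp only [Finset.prod_singleton] at this
  rwa [integral_sub ((bm_of_cont (cg i)).integrable _) (integrable_const _), integral_const,
    probReal_univ, one_smul, abs_sub_comm] at this

variable (h : Measure SU2) [h.IsHaarMeasure] [IsProbabilityMeasure h]

/-- the sources are moved by a common vector and by periods -/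
theorem Stp.gc_move {n N : ℕ} {μ : Measure Fd} {r b : ℝ} (S : Stp n μ r) (hN : 0 < N) {κ : Type}
    [Fintype κ] {F : κ → Sr} (fin : ∀ i, (support (F i)).Finite) (v : Z4) {z : κ → Z4}
    (z0 : ∀ i, z i 0 = 0) (z1 : ∀ i, z i 1 = 0) :
    gc μ (cube h b N) (fun i => tF ((n : ℤ) • z i + v) (F i)) = gc μ (cube h b N) F := by
  obtain ⟨Θ, h1, h2⟩ := S.shf v
  have cg := fun i => cont_gf (fin i)
  simp only [gc, gf_tF, cube, Weak.int_mp (mp_shf h b (N := fun _ => N) (fun _ => hN) _) (cg _)]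
  refine Eq.trans (integral_congr_ae ((h1.quasiMeasurePreserving.ae S.per).mono fun U hU =>
    Finset.prod_congr (Eq.refl _) fun i _ => ?_))
    (Weak.int_mp h1 (continuous_finsetProd _ fun i _ => (cg i).sub continuous_const))
  have e : pe (YM9.shf ((n : ℤ) • z i + v) U) = pe (Θ U) := by
    rw [← hU (z i) (z0 i) (z1 i)]
    funext x
    funext j l
    rw [pe_shf, pe_shf, h2, pe_shf, add_assoc]
  simp only [gf, e, Pi.sub_apply]

theorem bd_dom {ι : Type} {Φ : Filter ι} {m Δ : ℝ} {n l : ι → ℕ} {a b τ : ι → ℝ} {μ : ι → Measure Fd}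
    (hP : Pln Φ m Δ n a τ μ) (hl : ∀ᶠ p in Φ, a p * l p = 1) (hD : DomF h Φ m l a b μ)
    (hB : ∀ s : ℕ, Odd s → Bd (Lt s) Φ (fun p => cube h (b p) (s * l p))
      (fun p => cube h (b p) (s * l p)) a τ) : Bd (L2 m) Φ μ μ a τ := by
  intro k R δ δ0
  have m0 := hP.pos
  obtain ⟨a1, a2⟩ := tendsto_nhdsWithin_iff.1 hP.fm.a0
  obtain ⟨θ, hθ⟩ : ∃ θ : ℝ, θ = m / (3 * k + 1) := ⟨_, rfl⟩
  have θ0 : 0 < θ := by rw [hθ]; positivity
  have θ1 : θ * (3 * k + 1) = m := by rw [hθ, div_mul_cancel₀ _ (by positivity)]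
  have θ2 : θ ≤ m := by nlinarith [(Nat.cast_nonneg k : (0 : ℝ) ≤ k)]
  obtain ⟨D, hD'⟩ := exists_nat_ge (|R| / θ)
  rw [div_le_iff₀' θ0] at hD'
  obtain ⟨s, I, E, so, sR, sI, hE⟩ := hD (θ / 2) (half_pos θ0) (4 * |R| + 6 * θ)
  obtain ⟨N, hN⟩ : ∃ N : Fin 4 → ℕ, N = ![2, 2, 2 ^ (I + 1), 2 ^ (I + 1)] := ⟨_, rfl⟩
  obtain ⟨C, C0, hC⟩ := (hB s so).sz (a2.mono fun p hp => ⟨hp, inferInstance, inferInstance⟩)
    ((Cp N).card * k) (s + θ) (lt_min (half_pos δ0) (div_pos θ0 four_pos))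
  have L1 : 1 ≤ 3 * (1 * (1 + 2 / θ)) := by linarith [div_pos two_pos θ0]
  obtain ⟨M, hM⟩ : ∃ M : ℝ, M = (1 + (Fintype.card (Fin 4 → Fin (2 * D + 1)) : ℝ)) ^ k *
    (1 + |E| * (C * (3 * (1 * (1 + 2 / θ))) ^ ((Cp N).card * k))) := ⟨_, rfl⟩
  have M0 : 0 ≤ M := by rw [hM]; positivity
  refine ⟨M * (1 + M) ^ k, by positivity, ?_⟩
  filter_upwards [hC, hE, a2, hl, hP.st, hP.fm.tau.eventually_ge_atTop 1, a1.eventually_le_const
    (lt_min (div_pos θ0 (show (0 : ℝ) < 8 by norm_num)) (div_pos δ0 (show (0 : ℝ) < 8 by norm_num)))]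
    with p h1 h2 ha h3 ⟨hn, S⟩ h4 h5 F f1 f2 f3
  replace ha : 0 < a p := ha
  rw [one_le_div ha] at h4
  simp only [le_min_iff] at h5
  have := S.prob
  have fin := fun i => (f2 i).fin ha
  have l0 : 0 < s * l p := Nat.mul_pos so.pos (Nat.pos_of_ne_zero fun e => by simp [e] at h3)
  refine gc_recentre (ν := cube h (b p) (s * l p)) M0 fin fun B => ?_
  have hB' : Fintype.card B ≤ k := by simpa using B.card_le_univ
  obtain ⟨L, hL⟩ := gc_ml (μ p) (cube h (b p) (s * l p)) B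
    (Finset.univ.biUnion fun i => (fin i).toFinset)
  let W : B → (Fin 4 → Fin (2 * D + 1)) → Sr := fun i z x u v =>
    YM7.bump θ (fun j => z j - D) (pt (a p) x) * F i x u v
  have w1 : ∀ i z x, W i z x ≠ 0 → F i x ≠ 0 ∧ ∀ j, |a p * x j / θ - ((z j : ℤ) - D : ℤ)| ≤ 1 :=
    fun i z x hx => ⟨fun e => hx (by funext u v; simp [W, e]), fun j => YM7.hat_supp
      (Finset.prod_ne_zero_iff.1 (fun e : YM7.bump θ (fun j => z j - D) (pt (a p) x) = 0 => hx (by
        funext u v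
        simp only [W, e, zero_mul, Pi.zero_apply])) j (Finset.mem_univ j))⟩
  have w2 : ∀ i x, F i x ≠ 0 → x ∈ Finset.univ.biUnion fun i => (fin i).toFinset := fun i x hx =>
    Finset.mem_biUnion.2 ⟨i, Finset.mem_univ _, (fin i).mem_toFinset.2 hx⟩
  have e1 : (fun i : B => F i) = fun i => ∑ z, W i z := by
    funext i x u v
    simp only [W, Finset.sum_apply, ← Finset.sum_mul]
    by_cases hx : F i x = 0
    · simp [hx]
    · rw [YM7.sum_bump θ0 fun j => (f2 i x hx j).trans ((le_abs_self R).trans hD'), one_mul]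
  rw [hL _ fun i => w2 i, e1, L.map_sum]
  refine (Finset.abs_sum_le_sum_abs _ _).trans ((Finset.sum_le_card_nsmul _ _
    (1 + |E| * (C * (3 * (1 * (1 + 2 / θ))) ^ ((Cp N).card * k))) fun z _ => ?_).trans ?_)
  swap
  · rw [hM, nsmul_eq_mul, Finset.card_univ, Fintype.card_fun, Nat.cast_pow]
    refine mul_le_mul_of_nonneg_right ((pow_le_pow_left₀ (by positivity) (le_add_of_nonneg_left
      zero_le_one) _).trans (pow_le_pow_right₀ (le_add_of_nonneg_right (by positivity)) hB'))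
      (by positivity)
  rw [← hL _ fun i x hx => w2 i x (w1 i _ x hx).1]
  obtain ⟨s2, q2, r2⟩ := exists_slab' hB' ha θ0 (θ1.trans hn.symm) fun i => z i 2
  obtain ⟨s3, q3, r3⟩ := exists_slab' hB' ha θ0 (θ1.trans hn.symm) fun i => z i 3
  obtain ⟨t, t1, t2⟩ : ∃ t : ℤ, |R| + θ ≤ a p * t ∧ a p * t ≤ |R| + θ + a p :=
    ⟨⌈(|R| + θ) / a p⌉, (div_le_iff₀' ha).1 (Int.le_ceil _), by
      have := mul_le_mul_of_nonneg_left (Int.ceil_lt_add_one ((|R| + θ) / a p)).le ha.le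
      rwa [mul_add, mul_div_cancel₀ _ ha.ne', mul_one] at this⟩
  have R0 := abs_nonneg R
  obtain ⟨u, u1, u2⟩ : ∃ u : ℕ, 2 * |R| + 2 * θ ≤ a p * u ∧ a p * u ≤ 2 * |R| + 2 * θ + a p :=
    ⟨⌈(2 * |R| + 2 * θ) / a p⌉₊, (div_le_iff₀' ha).1 (Nat.le_ceil _), by
      have := mul_le_mul_of_nonneg_left (Nat.ceil_lt_add_one
        (show 0 ≤ (2 * |R| + 2 * θ) / a p by positivity)).le ha.le
      rwa [mul_add, mul_div_cancel₀ _ ha.ne', mul_one] at this⟩
  obtain ⟨y, y1, y2⟩ : ∃ y : ℕ, m - θ / 2 - a p ≤ a p * y ∧ a p * y ≤ m - θ / 2 :=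
    ⟨⌊(m - θ / 2) / a p⌋₊, by
      have := (div_lt_iff₀' ha).1 (Nat.lt_floor_add_one ((m - θ / 2) / a p))
      linarith, (le_div_iff₀' ha).1 (Nat.floor_le (div_nonneg (by linarith) ha.le))⟩
  obtain ⟨w, hw⟩ : ∃ w : Fin 4 → ℕ, w = ![u, u, y, y] := ⟨_, rfl⟩
  let Z : B → Z4 := fun i => ![0, 0, -q2 i, -q3 i]
  let G : B → Sr := fun i => tF ((n p : ℤ) • Z i + ![t, t, -s2, -s3]) (W i (z i))
  have g1 : ∀ i x, G i x ≠ 0 → ∀ j, θ / 4 ≤ a p * x j ∧ a p * x j ≤ a p * w j - θ / 4 := by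
    intro i x hx j
    obtain ⟨e2, e3⟩ := w1 i _ _ hx
    have e4 := fun j => abs_le.1 ((f2 i _ e2 j).trans (le_abs_self R))
    fin_cases j
    · have := e4 0
      simp [Z, hw] at this ⊢
      constructor <;> linarith [this.1, this.2, h5.1]
    · have := e4 1
      simp [Z, hw] at this ⊢
      constructor <;> linarith [this.1, this.2, h5.1]
    · have := r2 i (x 2) (le_of_eq_of_le (by simp [Z]; ring_nf) (e3 2))
      simp [hw]
      constructor <;> linarith [this.1, this.2, h5.1]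
    · have := r3 i (x 3) (le_of_eq_of_le (by simp [Z]; ring_nf) (e3 3))
      simp [hw]
      constructor <;> linarith [this.1, this.2, h5.1]
  have g2 : ∀ i x, G i x ≠ 0 → ∀ j, 0 ≤ x j ∧ x j + 1 < w j := fun i x hx j => by
    have := g1 i x hx j
    have e2 : (0 : ℝ) ≤ x j := nonneg_of_mul_nonneg_right (by linarith [this.1]) ha
    have e3 : (x j : ℝ) + 1 < w j := lt_of_mul_lt_mul_left (by linarith [this.2, h5.1]) ha.le
    exact ⟨by exact_mod_cast e2, by exact_mod_cast e3⟩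
  have g3 : ∀ i, Sz (1 * (1 + 2 / θ)) (a p) (τ p) (G i) := fun i =>
    YM7.Sz.shift (n := 0) (F := W i (z i)) (YM7.Sz.mul (n := 0) (f1 i) (by positivity)
      (ha.le.trans h4) (fun x => YM7.abs_prod_hat _ _) fun (x : Z4) j => by
        have e : pt (a p) (x + Pi.single j 1) = pt (a p) x + EuclideanSpace.single j (a p) := by
          ext i
          rcases eq_or_ne i j with rfl | hi
          · simp [pt]; ring
          · simp [pt, hi]
        erw [e]
        exact (YM7.bump_lip θ0 _ _ _ _).trans_eq (by rw [abs_of_pos ha])) _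
  have g4 : Apart {0} (a p) δ G := by
    rintro i j hij x x' hx hx' _ rfl
    refine (f3 i j (Subtype.coe_ne_coe.2 hij) _ _ (w1 _ _ _ hx).1 (w1 _ _ _ hx').1 _
      ⟨Z j - Z i, by simp [Z], by simp [Z], rfl⟩).trans_eq ?_
    rw [dist_eq_norm, dist_eq_norm]
    congr 1
    ext j
    simp only [pt, PiLp.sub_apply, PiLp.add_apply, Pi.sub_apply, Pi.add_apply, Pi.smul_apply,
      smul_eq_mul, PiLp.zero_apply, ← hn]
    push_cast
    ring
  have g5 : ∀ j, a p * (N j * w j) ≤ s := fun j => by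
    have : (2 : ℝ) ^ (I + 1) * (a p * y) ≤ 2 ^ (I + 1) * (m - θ / 2) := by gcongr
    fin_cases j <;> simp [hN, hw] <;> linarith [h5.1]
  have u0 : 0 < u := Nat.pos_of_ne_zero fun e => by simp [e] at u1; linarith
  have y0 : 0 < y := Nat.pos_of_ne_zero fun e => by simp [e] at y1; linarith [h5.1]
  have key := Dom.gc h l0 (hN ▸ h2 w (fun j => by fin_cases j <;> simpa [hw])
    (by simp [hw]; linarith [h5.1]) (by simp [hw]; linarith [h5.1]) (by simpa [hw])
    (by simpa [hw])) g2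
  have hc : Fintype.card (Cp N × B) ≤ (Cp N).card * k := by
    rw [Fintype.card_prod, Fintype.card_coe]
    exact Nat.mul_le_mul_left _ hB'
  have h6 := (h1 _ hc (fun q : Cp N × B => act w q.1 (G q.2)) (fun _ => 3 * (1 * (1 + 2 / θ)))
    (fun q => sz_act (g3 q.2) ha.le h4) (fun q x hx j => (in_act ha.le q.1.2 g5
      (fun x hx j => ⟨(g2 _ x hx j).1, by linarith [(g2 _ x hx j).2]⟩) x hx j).trans
        (by linarith [h5.1]))
    (apart_act ha.le (by linarith [h5.2]) (by linarith [h5.1]) g5 g1 g4)).trans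
    (show _ ≤ C * (3 * (1 * (1 + 2 / θ))) ^ ((Cp N).card * k) by
      rw [Finset.prod_const, Finset.card_univ]
      exact mul_le_mul_of_nonneg_left (pow_le_pow_right₀ L1 hc) C0)
  rw [S.gc_move h l0 (F := fun i => W i (z i)) (z := Z)
    (fun i => (fin i).subset fun x hx => (w1 i _ x hx).1) _ (fun i => by simp [Z])
    fun i => by simp [Z]] at key
  have h7 := key.trans ((le_abs_self _).trans ((abs_mul _ _).trans_le
    (mul_le_mul_of_nonneg_left h6 (abs_nonneg E))))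
  have h8 : 0 ≤ |E| * (C * (3 * (1 * (1 + 2 / θ))) ^ ((Cp N).card * k)) := by positivity
  rcases le_total (|gc (μ p) (cube h (b p) (s * l p)) fun i => W i (z i)|) 1 with e | e
  · linarith
  · linarith [le_self_pow₀ e (show ∏ j, N j ≠ 0 by simp [hN, Fin.prod_univ_four])]

end Pool.Agent.Lib.MP_7f377f_mp.YM9
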