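import Pool.Agent.Lib.MP_7f377f_mp.G.ThA
import Pool.Agent.Lib.MP_7f377f_mp.G.TwD2

/-! Small bounds for arrays of sources in a cube, and their transfer by domination. -/

noncomputable section

set_option linter.unusedSectionVars false
variable [Pool.Agent.Lib.MP_7f377f_mp.GD]

namespace Pool.Agent.Lib.MP_7f377f_mp.Th

open MeasureTheory Filter Topology Real YM7 Weak Jet Finset Lg TW

variable {n m m' u : ℕ} [NeZero n] {a a' τ : ℝ}

theorem lc_tor {F : Src 0} {z : Fin 4 → ℤ} (hF : Lc a τ u z F) (u0 : 64 ≤ u) (hn : u ≤ n) :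
    Lc (n := n) a (2 * τ + 4 * a) u z fun x => F (z + fun l => (x l - z l).valMinAbs) := by
  obtain ⟨⟨g, g1, g2, g3⟩, hs⟩ := hF
  have τ0 : 0 ≤ τ := (abs_nonneg _).trans (g3 0 0 0 0 fun _ => .inl rfl)
  have a0 : 0 ≤ a := (abs_nonneg _).trans (g2 0 0)
  obtain ⟨φ, φ1, φ2, φ3, φ4⟩ : ∃ φ : ℝ → ℝ, (∀ t, |φ t| ≤ |t|) ∧ (∀ s t, |φ s - φ t| ≤ |s - t|) ∧
      (∀ t, |t - φ t| ≤ τ) ∧ ∀ t, |t| ≤ τ → φ t = 0 := by
    refine ⟨fun t => max (t - τ) 0 + min (t + τ) 0, fun t => ?_, fun s t => ?_, fun t => ?_,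
      fun t ht => ?_⟩ <;> simp only [abs_eq_max_neg, max_def, min_def] at * <;> split_ifs at * <;>
      linarith
  have z0 : ∀ y : Fin 4 → ℤ, φ (g y) ≠ 0 → ∀ l, 32 * |y l - z l| ≤ u + 64 := fun y hy l => by
    obtain ⟨t, t1, t2⟩ := hs y 0 0 y (fun e => hy (φ4 _ (by
      simpa [e] using g3 y 0 0 y fun _ => .inl rfl))) (fun _ => .inl rfl) l
    exact (show y l = t from t1) ▸ t2
  have k2 : ∀ (x : Site 4 n) l, |φ (g (z + fun i => ((x + Pi.single l 1 : Site 4 n) i - z i).valMinAbs)) -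
      φ (g (z + fun i => (x i - z i).valMinAbs))| ≤ a := fun x l => by
    have w := (x l - z l).valMinAbs_mem_Ioc
    have v : (x + Pi.single l 1 : Site 4 n) l - z l = x l - z l + 1 := by simp [add_sub_right_comm]
    by_cases c : ((x l - z l).valMinAbs + 1) * 2 ≤ n
    · have : (z + fun i => ((x + Pi.single l 1 : Site 4 n) i - z i).valMinAbs) =
          (z + fun i => (x i - z i).valMinAbs) + Pi.single l 1 := funext fun i => by
        rcases eq_or_ne i l with rfl | hi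
        · simp only [Pi.add_apply z, v, vma_add_one _ c]; simp [add_assoc]
        · simp [hi]
      rw [this]
      exact (φ2 _ _).trans (g2 _ l)
    · have e : (x l - z l + 1).valMinAbs = (x l - z l).valMinAbs + 1 - n := by
        rw [← vma_cast (L := n) (z := (x l - z l).valMinAbs + 1 - n) (by omega) (by linarith [w.2])]
        simp
      rw [of_not_not (a := φ _ = 0) fun k => ?_, of_not_not (a := φ _ = 0) fun k => ?_]
      · simpa
      · have := z0 _ k l
        simp only [Pi.add_apply z, add_sub_cancel_left, abs_eq_max_neg] at this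
        omega
      · have := z0 _ k l
        have := w.2
        simp only [Pi.add_apply z, v, e, add_sub_cancel_left, abs_eq_max_neg] at *
        omega
  refine ⟨⟨fun x => φ (g (z + fun l => (x l - z l).valMinAbs)), fun x => (φ1 _).trans (g1 _), k2,
    fun x i j y hy => ?_⟩, fun x i j y hx hy l => ?_⟩
  · have e1 := lip_cube (g := fun x : Site 4 n => φ (g (z + fun l => (x l - z l).valMinAbs))) k2
      (x := x) (y := y) fun l => (hy l).imp_right fun e => e.2
    have e2 := g3 (z + fun l => (x l - z l).valMinAbs) i j _ fun _ => .inl rfl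
    have e3 := φ3 (g (z + fun l => (x l - z l).valMinAbs))
    rw [abs_le] at *
    constructor <;> linarith [e1.1, e1.2, e2.1, e2.2, e3.1, e3.2]
  · classical
    obtain ⟨t, t1, t2⟩ := hs _ i j (show Fin 4 → ℤ from fun l => z l + (x l - z l).valMinAbs +
      if y l = x l then 0 else 1) hx (fun l => by
        by_cases c : y l = x l
        · exact .inl (by simp only [if_pos c]; exact add_zero _)
        · exact .inr ⟨((hy l).resolve_left c).1, by simp only [if_neg c]; rfl⟩) l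
    refine ⟨t, ?_, t2⟩
    rw [← show z l + (x l - z l).valMinAbs + (if y l = x l then 0 else 1) = t from t1]
    by_cases c : y l = x l
    · simp [c]
    · simp [c, ((hy l).resolve_left c).2]

variable [NeZero m] [NeZero m'] [MeasurableSpace SU2] [BorelSpace SU2] {h : Measure SU2}
  [h.IsHaarMeasure] [IsProbabilityMeasure h]

theorem arr_tor {Λ : (Cfg n → ℝ) → ℝ} {η C b : ℝ} (b0 : 0 ≤ b) (ho : Odd m') (hm : m' = 3 * m)
    (hn : n = m' * u) (u0 : 64 ≤ u) (ha : 0 < a) (a1 : a ≤ a') (hτ : 2 * a' ≤ τ) (hI : Inv Λ u)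
    (η0 : 0 < η) (C0 : 0 ≤ C)
    (hG : Gen h b (κ := Unit) Λ (Cla (m := m') a a' (4 * τ) (a * u / 32) u 0) η (exp (C * m' ^ 4)))
    {κ : Type} [Fintype κ] {c z : κ → Fin 4 → ℤ} {F : κ → Src n}
    (hc : Function.Injective fun i l => (c i l : ZMod (2 * m))) (lc : ∀ i, Lc a' (2 * τ) u (z i) (F i))
    (hz : ∀ i l, |4 * z i l - (2 * c i l + 1) * (3 * u)| ≤ 4) :
    |∫ U, ∏ i, cen h b (F i) U ∂wilson h b n| ≤
      (exp (6 * C) * (η + exp (256 * C) * η)) ^ Fintype.card κ := by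
  have a0 := ha.trans_le a1
  have u1 : (64 : ℝ) ≤ u := by exact_mod_cast u0
  have hP := cent b0 ho hn (by have := NeZero.pos m; omega) ha a0.le (by nlinarith) hτ hI η0 C0 hG
  refine step (h := h) b0 (Nat.odd_mul.1 (hm ▸ ho)).2 (lam := 3 * u) (by rw [hn, hm]; ring) c F hc
    (fun i => (lc i).slot u0 fun l => ?_) (by positivity) fun i => fine hm hn u0 a0
      (fun A G hA hG => (hP A G fun c hc => ⟨(hG c hc).1, fun x i j e l => ?_⟩).trans ?_) (lc i)
      (j := fun l => (c i l + 1) / 2) (w := fun l => z i l - 3 * u * ((c i l + 1) / 2))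
      fun l => ⟨by ring, ?_⟩
  · have := abs_le.1 (hz i l)
    rw [show (2 * c i l + 1) * (3 * u) = 2 * (c i l * (3 * u : ℕ)) + 3 * u by push_cast; ring] at this
    rw [add_mul]
    omega
  · obtain ⟨s1, s2⟩ := (hG c hc).2 x i j e l
    constructor <;> refine le_of_mul_le_mul_right ?_ a0 <;> nlinarith
  · rw [hA, mul_pow (exp _), ← exp_nat_mul, hm]
    refine mul_le_mul_of_nonneg_right (exp_le_exp.2 ?_) (by positivity)
    push_cast
    have : 0 ≤ C * m ^ 4 := by positivity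
    linarith
  · have := abs_le.1 (hz i l)
    obtain ⟨t, ht | ht⟩ := Int.even_or_odd' (c i l)
    · rw [ht, show (2 * t + 1) / 2 = t by omega, abs_eq_max_neg]
      rw [ht, show (2 * (2 * t) + 1) * (3 * (u : ℤ)) = 4 * (3 * u * t) + 3 * u by ring] at this
      omega
    · rw [ht, show (2 * t + 1 + 1) / 2 = t + 1 by omega, abs_eq_max_neg, mul_add]
      rw [ht, show (2 * (2 * t + 1) + 1) * (3 * (u : ℤ)) = 4 * (3 * u * t) + 9 * u by ring] at this
      omega

end Pool.Agent.Lib.MP_7f377f_mp.Th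

namespace Pool.Agent.Lib.MP_7f377f_mp.YM9

open MeasureTheory Filter Topology Function Real
open Y6 (bm_of_cont)

/-- normalised sources near `z`, in the middle of the slot `c` -/
def Lz (a τ : ℝ) (u : ℕ) (c z : Z4) (F : Sr) : Prop :=
  Lg.TW.Lc (n := 0) a τ u z F ∧ ∀ l, |4 * z l - (2 * c l + 1) * (3 * u)| ≤ 4

variable {a τ : ℝ} {u m : ℕ} {c z : Z4} {F : Sr}

theorem Lz.sup (h : Lz a τ u c z F) {x : Z4} (hx : F x ≠ 0) (l : Fin 4) :
    32 * |x l - z l| ≤ u + 64 := by
  obtain ⟨i, hi⟩ := ne_iff.1 hx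
  obtain ⟨j, hj⟩ := ne_iff.1 hi
  obtain ⟨t, t1, t2⟩ := h.1.2 x i j x hj (fun _ => .inl rfl) l
  exact (show x l = t from t1) ▸ t2

theorem Lz.fin (h : Lz a τ u c z F) : (support F).Finite :=
  (Set.Finite.pi' fun l => Set.finite_Icc (z l - (u + 64)) (z l + (u + 64))).subset fun x hx l => by
    have := h.sup hx l
    rw [abs_eq_max_neg] at this
    constructor <;> omega

theorem Lz.sh (h : Lz a τ u c z F) (o : Z4) :
    Lz a τ u (fun l => c l + 2 * o l) (fun l => z l + 3 * u * o l) (tF (fun l => 3 * u * o l) F) :=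
  ⟨h.1.sh _, fun l => (h.2 l).trans_eq' (by congr 1; ring)⟩

theorem Lz.act (h : Lz a τ u c z F) (W r : Fin 4 → ℕ) : ∃ z', Lz a τ u (fun l => if Even (r l) then
    2 * ((r l + 1) * W l) - c l - 1 else c l + 2 * (r l * W l)) z'
      (act (fun l => W l * (3 * u)) r F) := by
  obtain ⟨s, hs⟩ : ∃ s : Z4, ∀ l, s l = if Even (r l) then (r l + 1 : ℤ) * (W l * (3 * u) : ℕ)
    else r l * (W l * (3 * u) : ℕ) := ⟨_, fun _ => rfl⟩
  refine ⟨_, (congrArg _ (funext fun x => funext fun i => funext fun j => congrArg (F · i j)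
    (funext fun l => ?_))).mp ((h.1.re fun l => decide (Even (r l))).sh s), fun l => ?_⟩
  · revert x
    change ∀ x : Z4, (if decide (Even (r l)) = true then -(x l - s l) -
      (if i = l ∨ j = l then 1 else 0) else x l - s l : ℤ) = _
    intro x
    by_cases e : Even (r l) <;> simp only [hs, e, decide_true, decide_false, if_true, if_false,
      Bool.false_eq_true, neg_sub]
  · refine (h.2 l).trans_eq' ?_
    by_cases e : Even (r l) <;> simp only [hs, e, decide_true, decide_false, if_true, if_false,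
      Bool.false_eq_true]
    · rw [← abs_neg]
      congr 1
      push_cast
      ring
    · congr 1
      push_cast
      ring

theorem lz_src {f : R4 → ℝ} {L : NNReal} (ha : 0 < a) (h1 : LipschitzWith L f) (h2 : ∀ y, |f y| ≤ 1)
    (h3 : ∀ y, f y ≠ 0 → ∀ l, |y l - (c l + 1 / 2) * (3 / 2 * (a * u))| ≤ a * u / 32) :
    Lz (a * L) (4 * (a * L)) u c (fun l => (2 * c l + 1) * (3 * u) / 4) (src a f) := by
  have g2 : ∀ (x : Z4) l, |f (pt a (x + Pi.single l 1)) - f (pt a x)| ≤ a * L := fun x l => by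
    have e : pt a (x + Pi.single l 1) = pt a x + EuclideanSpace.single l a := by
      ext i
      rcases eq_or_ne i l with rfl | hi
      · simp [pt]; ring
      · simp [pt, hi]
    refine (h1.dist_le_mul _ _).trans_eq ?_
    rw [e, dist_eq_norm, add_sub_cancel_left, PiLp.norm_single, norm_of_nonneg ha.le, mul_comm]
  refine ⟨⟨⟨fun x => f (pt a x), fun _ => h2 _, g2, fun x _ _ y hx => ?_⟩,
    fun x _ _ y hx hy l => ⟨y l, rfl, ?_⟩⟩, fun l => by
      simp only [abs_eq_max_neg]; omega⟩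
  · rw [abs_sub_comm]
    exact YM7.lip_cube (n := 0) (g := fun x => f (pt a x)) g2 fun l => (hx l).imp_right fun e => e.2
  · obtain ⟨t, ht⟩ : ∃ t : ℤ, t = x l := ⟨_, rfl⟩
    obtain ⟨v, hv⟩ : ∃ v : ℤ, v = y l := ⟨_, rfl⟩
    replace hy : v = t ∨ v = t + 1 := hv ▸ ht ▸ (hy l).imp_right fun e => e.2
    have s0 := h3 _ hx l
    rw [show pt a x l = a * t by rw [ht]; rfl] at s0
    obtain ⟨s1, s2⟩ := abs_le.1 s0
    rw [← hv]
    have s3 : 32 * t - 8 * ((2 * c l + 1) * (3 * u)) ≤ u := by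
      have : (32 * t - 8 * ((2 * c l + 1) * (3 * u)) : ℝ) ≤ u :=
        le_of_mul_le_mul_left (by linarith) ha
      exact_mod_cast this
    have s4 : 8 * ((2 * c l + 1) * (3 * u)) - 32 * t ≤ u := by
      have : (8 * ((2 * c l + 1) * (3 * u)) - 32 * t : ℝ) ≤ u :=
        le_of_mul_le_mul_left (by linarith) ha
      exact_mod_cast this
    simp only [abs_eq_max_neg]
    omega

variable [MeasurableSpace SU2] [BorelSpace SU2]

theorem gc_centre {κ : Type} [Fintype κ] {μ ν : Measure Fd} [IsProbabilityMeasure μ] {F : κ → Sr}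
    {M w C : ℝ} (fin : ∀ i, (support (F i)).Finite)
    (H : ∀ B : Finset κ, |gc μ ν fun i : B => F i| ≤ M * w ^ Fintype.card B)
    (h2 : ∀ i, |gc μ ν fun _ : Unit => F i| ≤ C) : |gc μ μ F| ≤ M * (w + C) ^ Fintype.card κ := by
  classical
  have cg := fun i => cont_gf (fin i)
  have h1 : ∀ B : Finset κ,
      |∫ U, ∏ i ∈ B, (gf (F i) U - ∫ V, gf (F i) V ∂ν) ∂μ| ≤ M * w ^ B.card := fun B => by
    refine le_of_eq_of_le ?_ ((H B).trans_eq (by rw [Fintype.card_coe]))
    rw [gc]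
    congr 2
    funext U
    exact (B.prod_coe_sort _).symm
  have e : ∀ U, ∏ i, (gf (F i) U - ∫ V, gf (F i) V ∂μ) = ∑ B ∈ Finset.univ.powerset,
      (∏ i ∈ B, (gf (F i) U - ∫ V, gf (F i) V ∂ν)) *
        ∏ i ∈ Finset.univ \ B, (∫ V, gf (F i) V ∂ν - ∫ V, gf (F i) V ∂μ) := fun U => by
    rw [← Finset.prod_add]
    simp only [sub_add_sub_cancel]
  simp only [gc, e]
  rw [integral_finsetSum _ fun B _ => (bm_of_cont (by fun_prop)).integrable _, ← Finset.card_univ,
    ← Finset.prod_const, Finset.prod_add, Finset.mul_sum]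
  refine (Finset.abs_sum_le_sum_abs _ _).trans (Finset.sum_le_sum fun B _ => ?_)
  rw [integral_mul_const, abs_mul, Finset.prod_const, ← mul_assoc, Finset.abs_prod]
  refine mul_le_mul (h1 B) (Finset.prod_le_prod (fun _ _ => abs_nonneg _) fun i _ => ?_)
    (Finset.prod_nonneg fun _ _ => abs_nonneg _) ((abs_nonneg _).trans (h1 B))
  have := h2 i
  simp only [gc, Fintype.prod_unique] at this
  rwa [integral_sub ((bm_of_cont (cg i)).integrable _) (integrable_const _), integral_const,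
    probReal_univ, one_smul, abs_sub_comm] at this

variable (h : Measure SU2) [h.IsHaarMeasure] [IsProbabilityMeasure h]

/-- small bounds for arrays in the cube -/
def ArC (b : ℝ) (m u : ℕ) (a τ γ : ℝ) : Prop := ∀ (κ : Type) [Fintype κ] (c z : κ → Z4) (G : κ → Sr),
  (Injective fun i l => (c i l : ZMod (2 * m))) → (∀ i, Lz a τ u (c i) (z i) (G i)) →
    |gc (cube h b (m * (3 * u))) (cube h b (m * (3 * u))) G| ≤ γ ^ Fintype.card κ

theorem arC_of {ι : Type} {Φ : Filter ι} {l : ι → ℕ} {a b τ : ι → ℝ} {nn : ℕ × ι → ℕ}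
    [∀ q, NeZero (nn q)] (hn : ∀ q, nn q = (2 * q.1 + 1) * l q.2) (hF : Fm Φ a τ)
    (hb : ∀ᶠ p in Φ, 0 ≤ b p) (hP : Th.Poly4 h (⊤ ×ˢ Φ) nn (fun q => a q.2) (fun q => b q.2)
      fun q => τ q.2) {γ : ℝ} (γ0 : 0 < γ) : ∀ᶠ e : ℕ in atTop, ∀ s : ℕ, ∀ᶠ p in Φ, ∃ m u : ℕ,
        64 ≤ u ∧ (2 * s + 1) * l p = m * (3 * u) ∧ a p * u = (3 ^ e)⁻¹ ∧
          ArC h (b p) m u (a p * 3 ^ e) (4 * (a p * 3 ^ e)) γ := by
  obtain ⟨C, C0, hP⟩ := hP
  obtain ⟨η, η0, hη⟩ : ∃ η > 0, exp (6 * C) * (η + exp (256 * C) * η) = γ :=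
    ⟨γ / (exp (6 * C) * (1 + exp (256 * C))), by positivity, by field_simp⟩
  obtain ⟨a1, a2⟩ := tendsto_nhdsWithin_iff.1 hF.a0
  refine ((hP η η0).and (eventually_ne_atTop 0)).mono fun e ⟨hP, e0⟩ s => ?_
  have e3 : (1 : ℝ) ≤ 3 ^ e := one_le_pow₀ (by norm_num)
  filter_upwards [(tendsto_top.prodMk tendsto_id : Tendsto (fun p => (s, p)) Φ _).eventually hP, hb,
    a2, hF.tau.eventually_ge_atTop (24 * 3 ^ e),
    a1.eventually_le_const (show (0 : ℝ) < (3 ^ e)⁻¹ / 64 by positivity)]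
    with p ⟨m', u, _, ho, hm, hn', hu, Λ, hI, hG⟩ b0 ha h8 h9
  replace ha : 0 < a p := ha
  obtain ⟨m, hm⟩ := (dvd_pow_self 3 e0).trans hm
  rw [le_div_iff₀ ha] at h8
  rw [← hu] at h9 hG
  have u0 : 64 ≤ u := by
    have : (64 : ℝ) ≤ u := le_of_mul_le_mul_left (by linarith) ha
    exact_mod_cast this
  have m0 := (Nat.odd_mul.1 (hm ▸ ho)).2.pos
  have : NeZero m := ⟨m0.ne'⟩
  have e1 : nn (s, p) = m * (3 * u) := by rw [hn', hm]; ring
  refine ⟨m, u, u0, (hn (s, p)).symm.trans e1, hu, fun κ _ c z G hc lc => ?_⟩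
  have u1 : 3 * u ≤ nn (s, p) := e1 ▸ Nat.le_mul_of_pos_left _ m0
  rw [← e1, gc_cube h _ _ (fun i => (lc i).fin) fun i => gf_ext (z i) fun x hx l => by
    have := (lc i).sup hx l
    omega, ← hη]
  rw [show τ p = 4 * (τ p / 4) by ring] at hG
  refine Th.arr_tor b0 ho hm hn' u0 ha (le_mul_of_one_le_right ha.le e3) (by nlinarith) hI η0 C0 hG
    hc (fun i => ?_) fun i => (lc i).2
  obtain ⟨⟨g, g1, g2, g3⟩, k⟩ := Th.lc_tor (n := nn (s, p)) (lc i).1 u0 (by omega)
  exact ⟨⟨g, g1, g2, fun x i j y hy => (g3 x i j y hy).trans (by linarith)⟩, k⟩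

theorem gc_win {μ : Measure Fd} [IsProbabilityMeasure μ] {N W : Fin 4 → ℕ} {b D γ : ℝ}
    (hA : ArC h b m u a τ γ) (u0 : 64 ≤ u) (m0 : 0 < m)
    (hD : Dom μ (cube h b (m * (3 * u))) N (fun l => W l * (3 * u)) D) (hN : ∀ l, N l * W l ≤ m)
    {κ : Type} [Fintype κ] {c z : κ → Z4} {G : κ → Sr} (hc : Injective c)
    (c1 : ∀ i l, 0 ≤ c i l ∧ c i l < 2 * W l) (lc : ∀ i, Lz a τ u (c i) (z i) (G i)) :
    |gc μ (cube h b (m * (3 * u))) G| ^ (∏ l, N l) ≤ |D| * (γ ^ Fintype.card κ) ^ (∏ l, N l) := by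
  choose z' hz using fun q : Cp N × κ => (lc q.2).act W q.1
  have a1 := hA _ _ z' _ (fun q q' e => ?_) hz
  · refine (Dom.gc h (by positivity) hD fun i x hx l => ?_).trans ((le_abs_self _).trans
      ((abs_mul _ _).trans_le (mul_le_mul_of_nonneg_left (a1.trans_eq ?_) (abs_nonneg _))))
    · have s1 := (lc i).sup hx l
      have s2 := (lc i).2 l
      obtain ⟨s3, s4⟩ := c1 i l
      have s5 := mul_le_mul_of_nonneg_right s3 (show (0 : ℤ) ≤ u by positivity)
      have s6 := mul_le_mul_of_nonneg_right (Int.add_one_le_of_lt s4) (show (0 : ℤ) ≤ u by positivity)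
      rw [abs_eq_max_neg, show (2 * c i l + 1) * (3 * u) = 6 * (c i l * u) + 3 * u by ring] at s2
      rw [abs_eq_max_neg] at s1
      rw [show ((W l * (3 * u) : ℕ) : ℤ) = 3 * (W l * u) by push_cast; ring]
      rw [add_mul, mul_assoc] at s6
      omega
    · rw [Fintype.card_prod, Fintype.card_coe, Fintype.card_piFinset, ← pow_mul, mul_comm]
      simp only [Finset.card_range]
  · have key : ∀ l, q.1.1 l = q'.1.1 l ∧ c q.2 l = c q'.2 l := fun l => by
      have k : ∀ q : Cp N × κ, ∀ y : ℤ, y = (if Even (q.1.1 l) then 2 * ((q.1.1 l + 1) * W l) -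
          c q.2 l - 1 else c q.2 l + 2 * (q.1.1 l * W l)) → 2 * (q.1.1 l * W l) ≤ y ∧
            y < 2 * (q.1.1 l * W l) + 2 * W l ∧ (q.1.1 l * W l : ℤ) + W l ≤ m := fun q y e => by
        have := c1 q.2 l
        have r1 : q.1.1 l + 1 ≤ N l := Finset.mem_range.1 (Fintype.mem_piFinset.1 q.1.2 l)
        have r2 : ((q.1.1 l + 1) * W l : ℤ) ≤ m := by
          exact_mod_cast (Nat.mul_le_mul_right _ r1).trans (hN l)
        rw [add_one_mul] at r2 e
        omega
      obtain ⟨k1, k2, k3⟩ := k q _ rfl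
      obtain ⟨k4, k5, k6⟩ := k q' _ rfl
      have p1 : (0 : ℤ) ≤ q.1.1 l * W l := by positivity
      have p2 : (0 : ℤ) ≤ q'.1.1 l * W l := by positivity
      have e1 := Int.eq_zero_of_abs_lt_dvd ((ZMod.intCast_eq_intCast_iff_dvd_sub _ _ _).1
        (congrFun e l)) (abs_lt.2 (by push_cast; omega))
      have e2 : q.1.1 l = q'.1.1 l := by
        rcases lt_trichotomy (q.1.1 l) (q'.1.1 l) with v | v | v
        · have : ((q.1.1 l + 1) * W l : ℤ) ≤ q'.1.1 l * W l := by gcongr; omega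
          rw [add_one_mul] at this
          omega
        · exact v
        · have : ((q'.1.1 l + 1) * W l : ℤ) ≤ q.1.1 l * W l := by gcongr; omega
          rw [add_one_mul] at this
          omega
      rw [e2] at e1
      refine ⟨e2, ?_⟩
      split_ifs at e1 <;> linarith
    exact Prod.ext (Subtype.ext (funext fun l => (key l).1)) (hc (funext fun l => (key l).2))

end Pool.Agent.Lib.MP_7f377f_mp.YM9
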