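import Pool.Agent.Lib.MP_7f377f_mp.G.PlB1
import Pool.Agent.Lib.MP_7f377f_mp.G.PlB2

/-! Small bounds for rectangular arrays of sources in the state of the plane. -/

noncomputable section

set_option linter.unusedSectionVars false
variable [Pool.Agent.Lib.MP_7f377f_mp.GD]

namespace Pool.Agent.Lib.MP_7f377f_mp.YM9

open MeasureTheory Filter Topology Function Real
open RG.Q4 (Zc)

/-- test functions in the middle of slots of width `3 / 2 * 3 ^ -e` which lie in a rectangle -/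
def Rect (e P Q : ℕ) {k : ℕ} (f : Fin k → R4 → ℝ) : Prop := ∃ (c : Fin k → Z4) (lo : Z4),
  c.Injective ∧ (∀ i, (lo 0 ≤ c i 0 ∧ c i 0 < lo 0 + P) ∧ (lo 1 ≤ c i 1 ∧ c i 1 < lo 1 + Q) ∧
    c i 2 = 0 ∧ c i 3 = 0) ∧ ∀ i, LipschitzWith (3 ^ e) (f i) ∧ ∀ y, |f i y| ≤ 1 ∧ (f i y ≠ 0 →
      ∀ l, |y l - (c i l + 1 / 2) * (3 / 2 * (3 ^ e)⁻¹)| ≤ (3 ^ e)⁻¹ / 32)

variable [MeasurableSpace SU2] [BorelSpace SU2]

/-- small bounds for rectangular arrays -/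
def ArrL {ι : Type} (Φ : Filter ι) (μ : ι → Measure Fd) (a : ι → ℝ) : Prop :=
  ∀ γ > (0 : ℝ), ∀ᶠ e : ℕ in atTop, ∀ (k P Q : ℕ) (f : Fin k → R4 → ℝ), Rect e P Q f →
    ∀ᶠ p in Φ, |corr (μ p) (a p) f| ≤ 2 ^ (P * Q) * γ ^ k

variable (h : Measure SU2) [h.IsHaarMeasure] [IsProbabilityMeasure h]

/-- domination of the cube of side `M` with the constant `D` per unit of the compact directions -/
def DomA (μ : Measure Fd) (b : ℝ) (n M I : ℕ) (D : ℝ) : Prop := 2 ^ (I + 1) * n ≤ 3 * M ∧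
  ∀ (w : Fin 4 → ℕ) (i j : ℕ), (∀ l, 0 < w l) → 2 ^ (i + 2) * w 0 < M → 2 ^ (j + 2) * w 1 < M →
    3 * w 2 < n → 3 * w 3 < n → Dom μ (cube h b M)
      ![2 ^ (i + 2), 2 ^ (j + 2), 2 ^ (I + 1), 2 ^ (I + 1)] w (D ^ (2 ^ (I + 1) * 2 ^ (I + 1)))

/-- domination by cubes with a constant which grows like the area -/
def DomG {ι : Type} (Φ : Filter ι) (n l : ι → ℕ) (b : ι → ℝ) (μ : ι → Measure Fd) : Prop :=
  ∃ K : ℝ, 0 ≤ K ∧ ∀ᶠ s : ℕ in atTop, ∃ I, ∀ᶠ p in Φ,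
    DomA h (μ p) (b p) (n p) ((2 * s + 1) * l p) I (exp (K * (2 * s + 1) ^ 2))

theorem domG_of [Fintype Zc] {ι : Type} {Φ : Filter ι} {e : ι → ℕ} {s A : ℕ} {z : Zc} {b r : ι → ℝ}
    {μ : ι → Measure Fd} (he : Tendsto e Φ atTop) (hb : ∀ᶠ p in Φ, 0 ≤ b p)
    (hP : ∀ᶠ p in Φ, Pg h (b p) (3 ^ (e p - s)) z (A * 3 ^ (e p - s)) (μ p) ∧
      Stp (3 ^ (e p - s)) (μ p) (r p))
    (hZ : ∃ s0, ∀ s ≥ s0, ∃ C : ℝ, ∀ᶠ p in Φ, s ≤ e p ∧ Zbd h (b p) (3 ^ (e p - s)) z C) :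
    DomG h Φ (fun p => 3 ^ (e p - s)) (fun p => 3 ^ e p) b μ := by
  obtain ⟨u, hZ⟩ := hZ
  obtain ⟨C, hC⟩ := hZ (s + (u + 1)) (by omega)
  have o3 : ∀ k, Odd (3 ^ k) := fun k => Odd.pow (by decide)
  have p3 : ∀ k, 1 ≤ 3 ^ k := fun k => Nat.one_le_pow _ _ (by omega)
  obtain ⟨K, K0, hK⟩ := dom_plane2 h (z := z) C (o3 (u + 1)) (by have := p3 u; omega)
  refine ⟨K * (3 ^ (s + (u + 1))) ^ 2, by positivity,
    (eventually_ge_atTop (100 * A + 1)).mono fun σ hσ => ?_⟩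
  have e0 : ∀ c, c ≤ 2 * σ + 1 → c * 3 ^ (u + 1) ≤ (2 * σ + 1) * 3 ^ (s + (u + 1)) := fun c hc =>
    Nat.mul_le_mul hc (Nat.pow_le_pow_right three_pos (by omega))
  obtain ⟨I, hI, hD⟩ := hK ((odd_two_mul_add_one σ).mul (o3 (s + (u + 1)))) (e0 _ (by omega))
  refine ⟨I, ?_⟩
  filter_upwards [hb, hP, hC, he.eventually_ge_atTop (s + (u + 1) + 1)] with p b0 P ⟨_, Z⟩ e1
  obtain ⟨v, hv⟩ := Nat.exists_eq_add_of_le e1
  have e2 : e p - s = v + 1 + (u + 1) := by omega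
  have e3 : e p - (s + (u + 1)) = v + 1 := by omega
  have e4 : (2 * σ + 1) * 3 ^ e p = 3 ^ (v + 1) * ((2 * σ + 1) * 3 ^ (s + (u + 1))) := by
    rw [hv]; ring
  rw [e3] at Z
  rw [e2, pow_add] at P ⊢
  rw [e4]
  refine ⟨by linarith [Nat.mul_le_mul_left (3 ^ (v + 1)) hI], fun w i j w0 h0 h1 h2 h3 => ?_⟩
  have := hD b0 P.1 P.2 Z (o3 _) (by have := p3 v; omega) w0 h0 h1 h2 h3 (by
    linarith [Nat.mul_le_mul_left (3 ^ (v + 1)) (e0 (100 * A) (by omega))])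
  rwa [show K * ((2 * σ + 1) * 3 ^ (s + (u + 1)) : ℕ) ^ 2 =
    K * (3 ^ (s + (u + 1))) ^ 2 * (2 * σ + 1) ^ 2 by push_cast; ring] at this

theorem gc_rect {μ : Measure Fd} {n m u I P Q : ℕ} {r a τ b γ κ : ℝ} (S : Stp n μ r)
    (hA : ArC h b m u a τ γ) (u0 : 64 ≤ u) (hn : 9 * u < n) (γ0 : 0 ≤ γ) (κ0 : 0 ≤ κ)
    (κ1 : exp (4 * κ) ≤ 2) (hD : DomA h μ b n (m * (3 * u)) I (exp (κ * m ^ 2))) (P0 : 0 < P)
    (Q0 : 0 < Q) (hP : 4 * P < m) (hQ : 4 * Q < m) {A : Type} [Fintype A] {c z : A → Z4} {G : A → Sr}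
    (hc : Injective c) {x y : ℤ} (c1 : ∀ i, (x ≤ c i 0 ∧ c i 0 < x + P) ∧ (y ≤ c i 1 ∧ c i 1 < y + Q) ∧
      c i 2 = 0 ∧ c i 3 = 0) (lc : ∀ i, Lz a τ u (c i) (z i) (G i)) :
    |gc μ (cube h b (m * (3 * u))) G| ≤ 2 ^ (P * Q) * γ ^ Fintype.card A := by
  have := S.prob
  have m0 : 0 < m := by omega
  have u3 : 0 < 3 * u := by omega
  obtain ⟨i, i1, i2⟩ := exists_dy (m := m - 1) (u := 2 * P) (by omega) (by omega)
  obtain ⟨j, j1, j2⟩ := exists_dy (m := m - 1) (u := 2 * Q) (by omega) (by omega)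
  replace i1 : 2 ^ (i + 2) * P < m := by rw [pow_succ, mul_assoc]; omega
  replace j1 : 2 ^ (j + 2) * Q < m := by rw [pow_succ, mul_assoc]; omega
  have d := hD.2 (fun l => ![P, Q, 1, 1] l * (3 * u)) i j
    (fun l => Nat.mul_pos (pos4 P0 Q0 one_pos one_pos l) u3)
    (by rw [← mul_assoc]; exact Nat.mul_lt_mul_of_pos_right i1 u3)
    (by rw [← mul_assoc]; exact Nat.mul_lt_mul_of_pos_right j1 u3)
    (by change 3 * (1 * _) < n; omega) (by change 3 * (1 * _) < n; omega)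
  have I1 : 2 ^ (I + 1) * 1 ≤ m := by
    refine Nat.le_of_mul_le_mul_right (c := 9 * u) ?_ (by omega)
    linarith [hD.1, Nat.mul_le_mul_left (2 ^ (I + 1)) hn.le]
  let o : Z4 := ![-(x / 2), -(y / 2), 0, 0]
  have key := gc_win h hA u0 m0 d (fun l => by
    fin_cases l
    exacts [i1.le, j1.le, I1, I1]) (c := fun i l => c i l + 2 * o l)
    (fun i j e => hc (funext fun l => add_right_cancel (congrFun e l))) (fun i l => by
      obtain ⟨a1, a2, a3, a4⟩ := c1 i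
      fin_cases l <;> simp [o, a3, a4] <;> omega) fun i => (lc i).sh o
  have mv := S.gc_move h (b := b) (Nat.mul_pos m0 u3) (z := fun _ => 0) (fun i => (lc i).fin)
    (fun l => 3 * u * o l) (fun _ => rfl) fun _ => rfl
  simp only [smul_zero, zero_add] at mv
  rw [mv] at key
  simp only [Fin.prod_univ_four, Matrix.cons_val] at key
  refine le_of_pow_le_pow_left₀ (by positivity) (by positivity) (key.trans ?_)
  rw [mul_pow]
  refine mul_le_mul_of_nonneg_right ?_ (by positivity)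
  rw [abs_of_pos (by positivity), mul_assoc, pow_mul _ (_ * _)]
  refine pow_le_pow_left₀ (exp_pos _).le ?_ _
  refine le_trans ?_ (pow_le_pow_left₀ (by positivity) (pow_le_pow_left₀ (exp_pos _).le κ1 _) _)
  rw [← pow_mul, ← exp_nat_mul]
  have : m * m ≤ 2 ^ (i + 2) * (2 * P) * (2 ^ (j + 2) * (2 * Q)) := Nat.mul_le_mul (by omega) (by omega)
  have : (m * m : ℝ) ≤ 2 ^ (i + 2) * (2 * P) * (2 ^ (j + 2) * (2 * Q)) := by exact_mod_cast this
  refine exp_le_exp.2 ?_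
  push_cast
  linarith [mul_le_mul_of_nonneg_left this κ0]

theorem arr_of {ι : Type} {Φ : Filter ι} {m Δ : ℝ} {n l : ι → ℕ} {a b τ : ι → ℝ} {μ : ι → Measure Fd}
    (hP : Pln Φ m Δ n a τ μ) (hl : ∀ᶠ p in Φ, a p * l p = 1) (hb : ∀ᶠ p in Φ, 0 ≤ b p)
    (hD : DomG h Φ n l b μ) {nn : ℕ × ι → ℕ} [∀ q, NeZero (nn q)]
    (hn : ∀ q, nn q = (2 * q.1 + 1) * l q.2) (h4 : Th.Poly4 h (⊤ ×ˢ Φ) nn (fun q => a q.2)
      (fun q => b q.2) fun q => τ q.2) : ArrL Φ μ a := by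
  intro γ γ0
  obtain ⟨K, K0, hD⟩ := hD
  have l3 := (tendsto_pow_atTop_atTop_of_one_lt (show (1 : ℝ) < 3 by norm_num)).inv_tendsto_atTop
  have l4 : Tendsto (fun e : ℕ => exp (4 * (K * (3 * (3 ^ e)⁻¹) ^ 2))) atTop (𝓝 1) := by
    simpa using ((((l3.const_mul 3).pow 2).const_mul K).const_mul 4).rexp
  filter_upwards [arC_of h hn hP.fm hb h4 (div_pos γ0 three_pos), l4.eventually_le_const one_lt_two,
    l3.eventually_lt_const (div_pos hP.pos (show (0 : ℝ) < 9 by norm_num))]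
    with e hA h5 h6 k P Q f ⟨c, lo, hc, c1, h1⟩
  obtain ⟨s, hs, I, hD⟩ := ((eventually_ge_atTop (6 * (P + Q + 1))).and hD).exists
  filter_upwards [hA s, hD, hP.st, hl, hP.fm.a0.eventually self_mem_nhdsWithin]
    with p ⟨M, u, u0, e1, e2, hA⟩ hD ⟨e3, S⟩ e4 ha
  replace ha : 0 < a p := ha
  have := S.prob
  have e5 : (2 * s + 1 : ℝ) = 3 * (3 ^ e)⁻¹ * M := by
    have : ((2 * s + 1) * l p : ℝ) = M * (3 * u) := by exact_mod_cast e1
    rw [← e2]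
    linear_combination a p * this - (2 * s + 1) * e4
  have e6 : 2 * s + 1 ≤ 3 * M := by
    have : (3 ^ e : ℝ)⁻¹ ≤ 1 := inv_le_one_of_one_le₀ (one_le_pow₀ (by norm_num))
    have : (2 * s + 1 : ℝ) ≤ 3 * M := by rw [e5]; gcongr; linarith
    exact_mod_cast this
  have e7 : 9 * u < n p := by
    have : (9 * u : ℝ) < n p := lt_of_mul_lt_mul_left (by
      simp only [Pi.inv_apply] at h6; linarith) ha.le
    exact_mod_cast this
  rw [e1, e5, mul_pow, ← mul_assoc K] at hD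
  simp only [← e2] at h1
  have lc := fun i => lz_src ha (h1 i).1 (fun y => ((h1 i).2 y).1) fun y => ((h1 i).2 y).2
  push_cast at lc
  have key := fun P Q => @gc_rect _ _ _ h _ _ _ _ _ _ _ P Q _ _ _ _ _ _ S hA u0 e7 (by positivity)
    (by positivity) h5 hD
  rw [corr_eq]
  cases k with
  | zero => simpa [gc] using one_le_pow₀ one_le_two
  | succ k =>
    have := c1 0
    refine (gc_centre (fun i => (lc i).fin) (fun B => key P Q (by omega) (by omega) (by omega)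
      (by omega) (hc.comp Subtype.val_injective) (fun i => c1 i) fun i => lc i)
      fun i => key 1 1 one_pos one_pos (by omega) (by omega) (c := fun _ => c i)
        (injective_of_subsingleton _) (x := c i 0) (y := c i 1)
        (fun _ => ⟨by omega, by omega, (c1 i).2.2⟩) fun _ => lc i).trans_eq ?_
    simp only [Fintype.card_fin, Fintype.card_unique]
    ring

end Pool.Agent.Lib.MP_7f377f_mp.YM9
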