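import Pool.Agent.Lib.MP_7f377f_mp.G.PlN
import Pool.Agent.Lib.MP_7f377f_mp.G.PurQ

/-! Column bounds and array bounds give operator bounds on a quadrant of the plane. -/

noncomputable section

namespace Pool.Agent.Lib.MP_7f377f_mp.Pl
variable [Pool.Agent.Lib.MP_7f377f_mp.GD]
set_option linter.unusedSectionVars false

open Filter Topology Set ComplexConjugate YM7 Pur Ro MvPolynomial

variable {P : Type} [CommRing P] [Algebra ℂ P] {N : Net P} {S : P →ₗ[ℂ] ℂ}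

theorem dj_lt {O O' : Set R4} (μ : Fin 4) [Pd μ] (h : ∀ x ∈ O, ∀ y ∈ O', x μ < y μ) : Dj O O' :=
  fun x hx y hy e => (h x hx y hy).ne (pl_eq e μ)

theorem net_comm (μ ν : Fin 4) (Z : Pol) : net.Θ μ (net.Θ ν Z) = net.Θ ν (net.Θ μ Z) :=
  Pur.net.Θ_comm μ ν Z

theorem Net.nq_smul (μ : Fin 4) (a : ℂ) (Z : P) : N.nq S μ (a • Z) = ‖a‖ ^ 2 * N.nq S μ Z := by
  rw [Net.nq, Net.nq, N.Θ_smul, smul_mul_smul_comm, map_smul, smul_eq_mul,
    ← Complex.normSq_eq_conj_mul_self, Complex.re_ofReal_mul, Complex.normSq_eq_norm_sq]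

theorem Net.Rep.col {μ ν : Fin 4} [Pd μ] [Pd ν] {H : Type} [NormedAddCommGroup H]
    [InnerProductSpace ℂ H] (r : N.Rep S μ H) (hS : N.St S ν)
    (cm : ∀ X, N.Θ ν (N.Θ μ X) = N.Θ μ (N.Θ ν X)) (hν : μ ≠ ν) {η : ℝ} (hη : 0 ≤ η) {col : ℕ → P} {n : ℕ → ℝ}
    (n0 : ∀ j, 0 ≤ n j) (hn : ∀ j, n (j + 1) = n j + n j)
    (c0 : col 0 ∈ N.loc {y | 0 < y μ ∧ y μ < n 0 ∧ y ν < 0})
    (hr : ∀ j, col (j + 1) = N.τ (ax μ (n j)) (N.Θ μ (col j) * col j))
    (hb : ∀ j, ∃ v, ‖S (N.τ v (col j * N.Θ ν (col j)))‖ ≤ η ^ 2 ^ (j + 1)) {b : P}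
    (h : b ∈ N.loc (Hs μ 0 ∩ Hs ν 0)) :
    ‖r.Ψ (col 0 * N.τ (ax μ (n 0)) b)‖ ≤ η * ‖r.Ψ b‖ := by
  obtain ⟨H', _, _, _, ⟨r'⟩⟩ := hS.exists_rep
  have hμ := N.mono h inter_subset_left
  have hc : ∀ j, col j ∈ N.loc {y | 0 < y μ ∧ y μ < n j ∧ y ν < 0} := fun j => by
    induction j with
    | zero => exact c0
    | succ j ih =>
      rw [hr, hn]
      refine N.mono (N.τ_mem _ (N.mulD (N.Θ_mem μ ih) ih (dj_lt μ fun x e y e' => ?_)))
        fun y e => ?_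
      · simp only [mem_ofPred_eq, rf_self] at e e'
        linarith [e.1, e'.1]
      · simp only [mem_ofPred_eq, mem_union, rf_self, rf_ne hν.symm, PiLp.sub_apply,
          PiLp.single_apply, if_true, if_neg hν.symm, sub_zero] at e ⊢
        rcases e with e | e <;> exact ⟨by linarith [e.1, e.2.1, n0 j],
          by linarith [e.1, e.2.1, n0 j], e.2.2⟩
  have m1 : ∀ j, col j * N.τ (ax μ (n j)) b ∈ N.loc (Hs μ 0) := fun j => by
    have := Net.τ_hs (v := ax μ (n j)) (t' := n j) hμ (by simp)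
    refine N.mono (N.mul (hc j) this (disjoint_left.2 fun y e e' => e.2.1.not_gt e')) ?_
    exact union_subset (fun _ e => e.1) fun _ e => (n0 j).trans_lt e
  have m2 : ∀ j, N.Θ μ b * N.τ (ax μ (n j)) b ∈ N.loc (Hs ν 0) := fun j => by
    refine N.mono (N.mulD (N.Θ_mem μ h) (N.τ_mem _ h) (dj_lt μ fun x e y e' => ?_))
      (union_subset (fun y e => ?_) fun y e => ?_)
    · have e1 := e.1
      have e2 := e'.1
      simp only [Hs, mem_ofPred_eq, rf_self, PiLp.sub_apply, PiLp.single_apply, if_true] at e1 e2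
      linarith [n0 j]
    · exact (show 0 < rf μ y ν from e.2).trans_eq (rf_ne hν.symm _)
    · simpa [Hs, hν.symm] using e.2
  have m3 : ∀ j, N.Θ ν (col j) ∈ N.loc (Hs ν 0) := fun j =>
    N.mono (N.Θ_mem ν (hc j)) fun y e => by simpa [Hs] using e.2.2
  have m4 : N.Θ ν b * b ∈ N.loc (Hs μ 0) := by
    refine N.mono (N.mul (N.Θ_mem ν h) h (disjoint_left.2 fun y e e' => ?_))
      (union_subset (fun y e => ?_) inter_subset_left)
    · have e1 := e.2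
      have e2 := e'.2
      simp only [Hs, mem_ofPred_eq, rf_self] at e1 e2
      linarith
    · exact (show 0 < rf ν y μ from e.1).trans_eq (rf_ne hν _)
  have key : ∀ j, ‖r.Ψ (col j * N.τ (ax μ (n j)) b)‖ ^ 2 ≤
      ‖S (N.Θ μ b * (col (j + 1) * N.τ (ax μ (n (j + 1))) b))‖ := fun j => by
    rw [← r.nq (m1 j), Net.nq, ← hS.ti (ax μ (n j)) (Net.rp_adm (m1 j) (m1 j))]
    refine (Complex.re_le_norm _).trans_eq (congrArg (‖S ·‖) ?_)
    simp only [hr, hn, map_mul, N.Θ_τ, N.τ_τ, rf_ax, ax_add, add_neg_cancel, ax_zero, N.τ_zero]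
    ring
  refine dbl_le (x := fun j => ‖r.Ψ (col j * N.τ (ax μ (n j)) b)‖)
    (M := √‖r.Ψ (N.Θ ν b * b)‖) (norm_nonneg _) hη (fun j => ?_) fun j => ?_
  · refine (key j).trans ?_
    rw [← r.inn hμ (m1 _)]
    exact norm_inner_le_norm _ _
  · have a1 : ‖r'.Ψ (N.Θ ν (col (j + 1)))‖ ≤ η ^ 2 ^ (j + 1) := by
      refine le_of_sq_le_sq ?_ (by positivity)
      rw [← r'.nq (m3 _), Net.nq, N.Θ_Θ, ← pow_mul, ← pow_succ]
      obtain ⟨v, hv⟩ := hb (j + 1)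
      have := Net.rp_adm (m3 (j + 1)) (m3 (j + 1))
      rw [N.Θ_Θ] at this
      exact (Complex.re_le_norm _).trans (hS.ti v this ▸ hv)
    have a2 : ‖r'.Ψ (N.Θ μ b * N.τ (ax μ (n (j + 1))) b)‖ ≤ ‖r.Ψ (N.Θ ν b * b)‖ := by
      refine le_of_sq_le_sq ?_ (norm_nonneg _)
      have e : N.Θ ν (N.Θ μ b * N.τ (ax μ (n (j + 1))) b) * (N.Θ μ b * N.τ (ax μ (n (j + 1))) b) =
          N.Θ μ (N.Θ ν b * b) * N.τ (ax μ (n (j + 1))) (N.Θ ν b * b) := by
        simp only [map_mul, N.Θ_τ, rf_ax_ne hν, cm]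
        ring
      rw [← r'.nq (m2 _), Net.nq, e, ← r.inn m4 (Net.τ_hs m4 (by simpa using n0 _)), sq]
      exact (Complex.re_le_norm _).trans ((norm_inner_le_norm _ _).trans
        (mul_le_mul_of_nonneg_left (r.le (by simpa using n0 _) m4) (norm_nonneg _)))
    refine le_of_sq_le_sq ((key j).trans ?_) (by positivity)
    rw [mul_left_comm, ← N.Θ_Θ ν (col (j + 1)), ← r'.inn (m3 _) (m2 _), mul_pow,
      Real.sq_sqrt (norm_nonneg _), ← pow_mul, ← pow_succ]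
    exact (norm_inner_le_norm _ _).trans (mul_le_mul a1 a2 (norm_nonneg _) (by positivity))

omit [Algebra ℂ P] in
theorem cells_pl {μ ν : Fin 4} (hν : μ ≠ ν) (m : ℕ) : ∃ s : Finset (Fin 4 → ℤ), s.card = m * 2 ∧
    (∀ c ∈ s, (1 - m ≤ c μ ∧ c μ < 1) ∧ (0 ≤ c ν ∧ c ν < 2) ∧ ∀ l, l ≠ μ → l ≠ ν → c l = 0) ∧
    ∀ a : (Fin 4 → ℤ) → P, ∏ c ∈ s, a c =
      (∏ i ∈ Finset.range m, a (Pi.single μ (-(i : ℤ)) + Pi.single ν 0)) *
        ∏ i ∈ Finset.range m, a (Pi.single μ (-(i : ℤ)) + Pi.single ν 1) := by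
  let φ : ℕ × ℕ → Fin 4 → ℤ := fun p => Pi.single μ (-(p.1 : ℤ)) + Pi.single ν (p.2 : ℤ)
  have h1 : ∀ p, φ p μ = -(p.1 : ℤ) := fun p => by simp [φ, hν]
  have h2 : ∀ p, φ p ν = p.2 := fun p => by simp [φ, hν.symm]
  have hφ : Function.Injective φ := fun p q e => by
    have e1 := h1 p
    have e2 := h2 p
    rw [e, h1] at e1
    rw [e, h2] at e2
    exact Prod.ext (by omega) (by omega)
  refine ⟨(Finset.range m ×ˢ Finset.range 2).image φ, by
    rw [Finset.card_image_of_injective _ hφ]; simp, fun c hc => ?_, fun a => ?_⟩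
  · obtain ⟨p, hp, rfl⟩ := Finset.mem_image.1 hc
    simp only [Finset.mem_product, Finset.mem_range] at hp
    rw [h1, h2]
    exact ⟨by omega, by omega, fun l e e' => by simp [φ, e, e']⟩
  · rw [Finset.prod_image hφ.injOn, Finset.prod_product, ← Finset.prod_mul_distrib]
    exact Finset.prod_congr rfl fun i _ => by simp [φ, Finset.prod_range_succ]

/-- array bounds give operator bounds on a quadrant -/
theorem col_of_arr {μ ν : Fin 4} [Pd μ] [Pd ν] (hν : μ ≠ ν) (hS : N.St S ν)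
    (cm : ∀ X, N.Θ ν (N.Θ μ X) = N.Θ μ (N.Θ ν X))
    {w η : ℝ} (hw : 0 < w) (hη : 0 ≤ η) (a : (Fin 4 → ℤ) → P)
    (a0 : a 0 ∈ N.loc {y | ∀ l, 0 < y l ∧ y l < w})
    (hΘ : ∀ μ c, N.Θ μ (a c) = a (Function.update c μ (-c μ - 1)))
    (hτ : ∀ μ c, N.τ (ax μ (2 * w)) (a c) = a (c + Pi.single μ 2))
    (hb : ∀ (m : ℕ) (s : Finset (Fin 4 → ℤ)), s.card = m * 2 → (∀ c ∈ s, (1 - m ≤ c μ ∧ c μ < 1) ∧
      (0 ≤ c ν ∧ c ν < 2) ∧ ∀ l, l ≠ μ → l ≠ ν → c l = 0) → ‖S (∏ c ∈ s, a c)‖ ≤ η ^ (m * 2))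
    {H : Type} [NormedAddCommGroup H] [InnerProductSpace ℂ H]
    (r : N.Rep S μ H) {b : P} (h : b ∈ N.loc (Hs μ 0 ∩ Hs ν 0)) :
    ‖r.Ψ (N.τ (ax ν (-w)) (a 0) * N.τ (ax μ w) b)‖ ≤ η * ‖r.Ψ b‖ := by
  obtain ⟨g, hg⟩ : ∃ g : ℤ → ℤ → P, ∀ i k, g i k = a (Pi.single μ i + Pi.single ν k) :=
    ⟨_, fun _ _ => rfl⟩
  have g1 : ∀ i k, N.Θ μ (g i k) = g (-i - 1) k := fun i k => by
    rw [hg, hg, hΘ]
    congr 1
    funext l
    by_cases e : l = μ <;> simp [e, hν]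
  have g2 : ∀ i k, N.Θ ν (g i k) = g i (-k - 1) := fun i k => by
    rw [hg, hg, hΘ]
    congr 1
    funext l
    by_cases e : l = ν <;> simp [e, hν.symm]
  have g3 : ∀ (s : ℕ) i k, N.τ (ax μ (s * (2 * w))) (g i k) = g (i + 2 * s) k := fun s i k => by
    induction s with
    | zero => simp [N.τ_zero]
    | succ s ih =>
      rw [Nat.cast_succ, add_one_mul, add_comm, ← ax_add, ← N.τ_τ, ih, hg, hg, hτ, add_right_comm,
        ← Pi.single_add]
      congr 3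
      push_cast
      ring
  have g4 : ∀ i k, N.τ (ax ν (2 * w)) (g i k) = g i (k + 2) := fun i k => by
    rw [hg, hg, hτ, add_assoc, ← Pi.single_add]
  obtain ⟨C, hC⟩ : ∃ C : ℕ → P, ∀ m : ℕ, C m = N.τ (ax μ ((m - 1) * w) + ax ν (-w))
    (∏ i ∈ Finset.range m, g (-i) 0) := ⟨_, fun _ => rfl⟩
  have c1 : ∀ s : ℕ, C (s + 1 + (s + 1)) =
      N.τ (ax μ ((s + 1 : ℕ) * w)) (N.Θ μ (C (s + 1)) * C (s + 1)) := fun s => by
    have e : N.τ (ax μ (s * (2 * w))) (∏ i ∈ Finset.range (s + 1), g (-(s + 1 + i : ℕ)) 0) =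
        N.Θ μ (∏ i ∈ Finset.range (s + 1), g (-i) 0) := by
      rw [map_prod, map_prod, ← Finset.prod_range_reflect]
      refine Finset.prod_congr rfl fun i hi => ?_
      rw [g3, g1]
      congr 1
      have := Finset.mem_range.1 hi
      omega
    rw [hC, hC, Finset.prod_range_add, map_mul, map_mul, N.Θ_τ, ← e, N.τ_τ, N.τ_τ, N.τ_τ, mul_comm,
      rf_add, rf_ax, rf_ax_ne hν.symm]
    congr 1 <;> refine congrArg (fun v => N.τ v _) ?_ <;> ext l <;>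
      simp only [PiLp.add_apply, PiLp.single_apply] <;> push_cast <;> split_ifs <;> ring
  have c2 : C 1 = N.τ (ax ν (-w)) (a 0) := by simp [hC, hg]
  have key := r.col hS cm hν hη (col := fun j => C (2 ^ j)) (n := fun j => (2 ^ j : ℕ) * w)
    (fun j => by positivity) (fun j => by push_cast; ring) ?_ (fun j => ?_) (fun j => ?_) h
  · simpa only [pow_zero, c2, Nat.cast_one, one_mul] using key
  · simp only [pow_zero, c2, Nat.cast_one, one_mul]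
    refine N.mono (N.τ_mem _ a0) fun y e => ?_
    have e1 := e μ
    have e2 := (e ν).2
    simp only [PiLp.sub_apply, PiLp.single_apply, if_neg hν, sub_zero, if_true] at e1 e2
    exact ⟨e1.1, e1.2, by linarith⟩
  · obtain ⟨s, hs⟩ : ∃ s, 2 ^ j = s + 1 := Nat.exists_eq_add_one_of_ne_zero (by positivity)
    simp only [pow_succ, mul_two, hs, c1]
  · obtain ⟨s, h1, h3, h2⟩ := cells_pl (P := P) hν (2 ^ j)
    refine ⟨-(ax μ (((2 ^ j : ℕ) - 1) * w) + ax ν (-w)), ?_⟩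
    rw [pow_succ]
    refine le_trans (le_of_eq (congrArg (‖S ·‖) ?_)) (hb _ s h1 h3)
    simp only [h2, ← hg]
    rw [hC, map_mul, N.Θ_τ, N.τ_τ, N.τ_τ, neg_add_cancel, N.τ_zero, rf_add, rf_ax, rf_ax_ne hν,
      show -(ax μ (((2 ^ j : ℕ) - 1) * w) + ax ν (-w)) + (ax μ (((2 ^ j : ℕ) - 1) * w) +
        ax ν (- -w)) = ax ν (2 * w) by
        ext l
        simp only [PiLp.add_apply, PiLp.neg_apply, PiLp.single_apply]
        split_ifs <;> ring]
    simp only [map_prod, g2, g4]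
    rfl

end Pool.Agent.Lib.MP_7f377f_mp.Pl
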