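import Pool.Agent.Lib.MP_7f377f_mp.G.PlB3
import Pool.Agent.Lib.MP_7f377f_mp.G.PlB
import Pool.Agent.Lib.MP_7f377f_mp.G.PlC
import Pool.Agent.Lib.MP_7f377f_mp.G.ThB

/-! Small array bounds give the operator bound for thin boxes. -/

noncomputable section

namespace Pool.Agent.Lib.MP_7f377f_mp.Pl
variable [Pool.Agent.Lib.MP_7f377f_mp.GD]
set_option linter.unusedSectionVars false

open Filter Topology Set Real YM7 Pur Ro MvPolynomial
open scoped NNReal

variable {S : ∀ {k : ℕ}, (Fin k → R4 → ℝ) → ℝ} {W : Pol →ₗ[ℂ] ℂ}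

/-- small bounds for rectangular arrays -/
def ArrP (S : ∀ {k : ℕ}, (Fin k → R4 → ℝ) → ℝ) : Prop := ∀ γ > (0 : ℝ), ∀ᶠ e : ℕ in atTop,
  ∀ (k P Q : ℕ) (f : Fin k → R4 → ℝ), Adm f → YM9.Rect e P Q f → |S f| ≤ 2 ^ (P * Q) * γ ^ k

variable {H : Type} [NormedAddCommGroup H] [InnerProductSpace ℂ H] [CompleteSpace H]

theorem τ_X (v : R4) (f : R4 → ℝ) : net.τ v (X f) = X fun y => f (y - v) := rename_X _ _

theorem piece (hT : net.St W 1) (h : ∀ {k} {f : Fin k → R4 → ℝ}, Adm f → W (mon f) = S f)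
    (r : net.Rep W 0 H) {γ η R M : ℝ} {e : ℕ} (γ0 : 0 ≤ γ) (η0 : 0 < η) (hη : (3 ^ e)⁻¹ = 32 * η)
    (hA : ∀ (k P Q : ℕ) (f : Fin k → R4 → ℝ), Adm f → YM9.Rect e P Q f →
      |S f| ≤ 2 ^ (P * Q) * γ ^ k)
    {g : R4 → ℝ} {x : R4} (g1 : ContDiff ℝ 1 g) (g2 : LipschitzWith (3 ^ e) g) (g3 : ∀ y, |g y| ≤ 1)
    (g4 : ∀ y, g y ≠ 0 → ∀ l, |y l - x l| ≤ η) (x0 : |x 0| + 24 * η ≤ M) (x2 : x 1 + 24 * η ≤ R)
    {b : Pol} (hb : b ∈ net.loc (Hs 0 0 ∩ Hs 1 R)) :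
    ‖r.Ψ (net.τ (ax 0 M) (X g * net.τ (ax 0 M) b))‖ ≤ 2 * γ * ‖r.Ψ b‖ := by
  have w0 : 0 < 48 * η := by positivity
  have x1 := le_abs_self (x 0)
  have x3 := neg_abs_le (x 0)
  obtain ⟨G, hG⟩ : ∃ G : (Fin 4 → ℤ) → R4 → ℝ, ∀ c, G c =
    fun y => g (fo (48 * η) c y - (dg (24 * η) - x)) := ⟨_, fun _ => rfl⟩
  have G1 : ∀ c y, G c y ≠ 0 → ∀ l, |y l - (c l + 1 / 2) * (48 * η)| ≤ η := fun c y hy l => by
    have := abs_le.1 (g4 _ (hG c ▸ hy :) l)
    rw [abs_le]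
    by_cases e : Even (c l) <;> simp only [fo, e, if_true, if_false, PiLp.sub_apply, dg_apply]
      at this <;> constructor <;> linarith [this.1, this.2]
  have G2 : ∀ c y, G c y ≠ 0 → ∀ l, c l * (48 * η) + η ≤ y l ∧ y l ≤ (c l + 1) * (48 * η) - η :=
    fun c y hy l => by
      have := abs_le.1 (G1 c y hy l)
      constructor <;> linarith [this.1, this.2]
  have G3 : ∀ c, ContDiff ℝ 1 (G c) := fun c =>
    hG c ▸ g1.comp ((fo_smooth _ c).sub contDiff_const)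
  have a0 : (X (G 0) : Pol) ∈ net.loc {y | ∀ l, 0 < y l ∧ y l < 48 * η} :=
    gd_mem ⟨cpt_box (G2 0), G3 0, fun y hy l => by
      have := tsupp_box (G2 0) hy l
      simp only [Pi.zero_apply, Int.cast_zero] at this
      constructor <;> linarith [this.1, this.2]⟩
  obtain ⟨s, hs⟩ : ∃ s : R4, s = ax 0 (M - 48 * η) - ax 1 (48 * η) + (dg (24 * η) - x) := ⟨_, rfl⟩
  have s0 : 0 ≤ s 0 := by simp [hs]; linarith
  have b0 := net.mono hb inter_subset_left
  have b1 : net.τ s b ∈ net.loc (Hs 0 0 ∩ Hs 1 0) := net.mono (net.τ_mem s hb) fun y hy => by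
    obtain ⟨e1, e2⟩ : 0 < y 0 - s 0 ∧ R < y 1 - s 1 := hy
    have : s 1 = -(48 * η) + (24 * η - x 1) := by simp [hs]
    exact ⟨show 0 < y 0 by linarith, show 0 < y 1 by linarith⟩
  have key := col_of_arr (μ := 0) (ν := 1) (by decide) hT (net_comm 1 0) w0
    (mul_nonneg zero_le_two γ0) (fun c => X (G c)) a0 (fun μ c => ?_) (fun μ c => ?_)
    (fun m t t1 t2 => ?_) r b1
  · have e : net.τ (ax 0 M) (X g * net.τ (ax 0 M) b) =
        net.τ (ax 0 M + ax 1 (48 * η) - (dg (24 * η) - x))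
          (net.τ (ax 1 (-(48 * η))) (X (G 0)) * net.τ (ax 0 (48 * η)) (net.τ s b)) := by
      simp only [map_mul, net.τ_τ, τ_X, hG, fo_zero]
      refine congrArg₂ (· * ·) (congrArg X (funext fun y => congrArg g ?_))
        (congrArg (fun v => net.τ v b) ?_) <;> ext l <;>
        simp only [hs, PiLp.add_apply, PiLp.sub_apply, PiLp.single_apply] <;> split_ifs <;> ring
    rw [e]
    refine (r.le (by simp; linarith) ?_).trans
      (key.trans (mul_le_mul_of_nonneg_left (r.le s0 b0) (by positivity)))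
    refine net.mono (net.mul (net.τ_mem _ a0) (Net.τ_hs (v := ax 0 (48 * η)) (t' := 48 * η)
      (net.mono b1 inter_subset_left) (by simp)) (disjoint_left.2 fun y e e' => ?_))
      (union_subset (fun y e => ?_) fun _ e => w0.trans e)
    · exact (show y 0 < 48 * η by simpa using (e 0).2).not_gt e'
    · simpa [Hs] using (e 0).1
  · simpa only [mon, Fin.prod_univ_one, hG, fo_rf] using Θ_mon μ fun _ : Fin 1 => G c
  · simp only [τ_X, hG, fo_ax]
  · let ψ := t.equivFin.symm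
    have e1 : Function.Injective fun j => (ψ j).1 := Subtype.val_injective.comp ψ.injective
    have z : ∀ j, (ψ j).1 2 = 0 ∧ (ψ j).1 3 = 0 := fun j =>
      ⟨(t2 _ (ψ j).2).2.2 2 (by decide) (by decide), (t2 _ (ψ j).2).2.2 3 (by decide) (by decide)⟩
    have e2 : Adm fun j => G (ψ j) := by
      refine ⟨fun j => ⟨cpt_box (G2 _), G3 _⟩, fun i j hij y hi y' hj c => hij (e1 ?_)⟩
      have q : ∀ (l : Fin 4) [Pd l], (ψ i).1 l = (ψ j).1 l := fun l _ => by
        have e3 := tsupp_box (G2 _) hi l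
        have e4 := tsupp_box (G2 _) hj l
        rw [pl_eq c l] at e3
        have e5 : ((ψ i).1 l : ℝ) < (ψ j).1 l + 1 :=
          lt_of_mul_lt_mul_right (by linarith [e3.1, e4.2]) w0.le
        have e6 : ((ψ j).1 l : ℝ) < (ψ i).1 l + 1 :=
          lt_of_mul_lt_mul_right (by linarith [e3.2, e4.1]) w0.le
        norm_cast at e5 e6
        omega
      funext l
      fin_cases l
      exacts [q 0, q 1, (z i).1.trans (z j).1.symm, (z i).2.trans (z j).2.symm]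
    rw [← Finset.prod_coe_sort, ← ψ.prod_comp]
    refine (congrArg _ (h e2)).trans_le ?_
    rw [Complex.norm_real, mul_pow]
    refine (hA _ m 2 _ e2 ⟨_, ![1 - m, 0, 0, 0], e1, fun j => ?_, fun j =>
      ⟨.of_dist_le_mul fun y y' => ?_, fun y => ⟨by simp only [hG, g3], fun hy l => ?_⟩⟩⟩).trans_eq (by rw [t1])
    · obtain ⟨c0, c1, -⟩ := t2 _ (ψ j).2
      exact ⟨by simpa using c0, by simpa using c1, z j⟩
    · simp only [hG]
      refine (g2.dist_le_mul _ _).trans (mul_le_mul_of_nonneg_left ?_ (by positivity))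
      simpa using (fo_lip _ _).dist_le_mul y y'
    · rw [hη, show 3 / 2 * (32 * η) = 48 * η by ring, show 32 * η / 32 = η by ring]
      exact G1 _ y hy l

theorem thin_gen (hS : net.St W 0) (hT : net.St W 1) (hL : LinP W)
    (h : ∀ {k} {f : Fin k → R4 → ℝ}, Adm f → W (mon f) = S f) : ∃ K ≥ (0 : ℝ),
    ∀ {γ η d R R' M B : ℝ} {e : ℕ} {u : R4 → ℝ} {L : ℝ≥0} {b : Pol}, 0 ≤ γ → (3 ^ e)⁻¹ = 32 * η →
      (∀ (k P Q : ℕ) (f : Fin k → R4 → ℝ), Adm f → YM9.Rect e P Q f →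
        |S f| ≤ 2 ^ (P * Q) * γ ^ k) → η ≤ d → d ≤ 1 → 26 * d ≤ M → 26 * d ≤ R' → Tn d R L u →
      b ∈ net.loc (Hs 0 0 ∩ Hs 1 R') → K * (|R| + 1) ^ 2 * γ * d ^ 3 * L ≤ B * η ^ 4 →
      net.nq W 0 (net.τ (ax 0 M) (X u * net.τ (ax 0 M) b)) ≤ B ^ 2 * net.nq W 0 b := by
  obtain ⟨H, _, _, _, ⟨r⟩⟩ := hS.exists_rep
  obtain ⟨K, hK⟩ := Lg.LgQB.bmp_lip
  have K0 := K.coe_nonneg
  refine ⟨14400 * (5 + 2 * K), by positivity,
    fun {γ η d R R' M B e u L b} γ0 hη hA ηd d0 hM hR ⟨u1, u2, u3, u4⟩ hb hB => ?_⟩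
  have R0 := abs_nonneg R
  have e3 : (1 : ℝ) ≤ 3 ^ e := one_le_pow₀ (by norm_num)
  have η1 : 3 ^ e * (32 * η) = 1 := by rw [← hη]; field_simp
  have η0 : 0 < η := by have := inv_pos.2 (one_pos.trans_le e3); linarith
  have d3 := η0.trans_le ηd
  have L0 := L.coe_nonneg
  have s1 : ∀ y, |u y| ≤ L * (2 * d) := fun y => by
    by_cases e1 : u y = 0
    · rw [e1, abs_zero]; positivity
    have e2 : u (y + ax 0 (2 * d)) = 0 := of_not_not fun e2 => by
      have a1 := abs_lt.1 (u4 _ (subset_tsupport _ e1)).1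
      have a2 := abs_lt.1 (u4 _ (subset_tsupport _ e2)).1
      simp at a2
      linarith [a1.1, a2.2]
    have := u3.dist_le_mul y (y + ax 0 (2 * d))
    rwa [e2, Real.dist_0_eq_abs, dist_self_add_right, PiLp.norm_single,
      norm_of_nonneg (by positivity)] at this
  have ce : ∀ t ≥ 0, ∃ D : ℕ, t ≤ η * D ∧ η * D ≤ t + η := fun t t0 => ⟨⌈t / η⌉₊,
    (div_le_iff₀' η0).1 (Nat.le_ceil _), by
      have := (Nat.ceil_lt_add_one (div_nonneg t0 η0.le)).le
      rwa [div_add_one η0.ne', le_div_iff₀' η0] at this⟩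
  obtain ⟨D, d1, d2⟩ := ce _ R0
  obtain ⟨C, c1, c2⟩ := ce _ d3.le
  let E : Fin 4 → ℕ := ![C, C, D, D]
  obtain ⟨Λ, hΛ⟩ : ∃ Λ : ℝ, Λ = 1 + 2 * d + 2 * d * ((K + 1) * (32 * 3 ^ e : ℕ) : ℝ≥0) := ⟨_, rfl⟩
  have Λ0 : 0 < Λ := by rw [hΛ]; positivity
  have Λ1 : η * Λ = η + 2 * d * η + 2 * d * (K + 1) := by
    rw [hΛ]; push_cast; linear_combination 2 * d * (K + 1) * η1
  obtain ⟨g, hg⟩ : ∃ g : (∀ l, Fin (2 * E l + 1)) → R4 → ℝ, ∀ z, g z =
    fun y => 3 ^ e * ((Λ * L)⁻¹ * (bumpS η (fun l => z l - E l) y * u y)) := ⟨_, fun _ => rfl⟩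
  have g0 : ∀ z y, g z y ≠ 0 → bumpS η (fun l => z l - E l) y ≠ 0 ∧ u y ≠ 0 := fun z y hy =>
    mul_ne_zero_iff.1 (right_ne_zero_of_mul (right_ne_zero_of_mul (hg z ▸ hy :)))
  have g1 : ∀ z, ContDiff ℝ 1 (g z) := fun z =>
    hg z ▸ contDiff_const.mul (contDiff_const.mul ((bumpS_smooth _ _).mul u2))
  have g3 : (fun y => u (y - ax 0 M)) =
      ∑ z, (32 * η * (Λ * L)) • fun y => g z (y - ax 0 M) := by
    funext y
    simp only [Finset.sum_apply, Pi.smul_apply, hg, smul_eq_mul, ← Finset.mul_sum,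
      ← Finset.sum_mul]
    generalize y - ax 0 M = y
    by_cases e1 : u y = 0
    · simp [e1]
    have e2 : Λ * L ≠ 0 := mul_ne_zero Λ0.ne' fun v => e1 (by simpa [v] using s1 y)
    obtain ⟨a0, a1, a2⟩ := u4 y (subset_tsupport _ e1)
    have a3 := fun l => (PiLp.norm_apply_le y l).trans ((a2.trans (le_abs_self R)).trans d1)
    rw [Th.sum_bump η0 (Fin.forall_fin_succ.2 ⟨a0.le.trans c1, Fin.forall_fin_succ.2
      ⟨a1.le.trans c1, Fin.forall_fin_two.2 ⟨a3 _, a3 _⟩⟩⟩), one_mul, mul_mul_mul_comm,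
      mul_inv_cancel_left₀ e2, mul_comm _ (3 ^ e), η1, one_mul]
  have η3 : 0 < M + M := by linarith
  have b0 := net.mono hb inter_subset_left
  have b1 : net.τ (ax 0 M) (net.τ (ax 0 M) b) ∈ net.loc (Hs 0 (M + M)) :=
    Net.τ_hs (Net.τ_hs b0 (t' := M) (by simp)) (by simp)
  have gd : ∀ v : R4 → ℝ, HasCompactSupport v → ContDiff ℝ 1 v → tsupport v ⊆ tsupport u →
      PN.Gd (Hs 0 0 ∩ (Hs 0 (M + M))ᶜ) fun y => v (y - ax 0 M) := fun v v1 v2 v3 => by
    have := adm_sub (f := fun _ : Fin 1 => v) ⟨fun _ => ⟨v1, v2⟩, Subsingleton.pairwise⟩ (ax 0 M)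
    refine ⟨(this.1 0).1, (this.1 0).2, fun y hy => ?_⟩
    have := abs_lt.1 (u4 _ (v3 (tsupport_comp (θ := fun y => y - ax 0 M) (by fun_prop) hy))).1
    simp at this
    exact ⟨show 0 < y 0 by linarith [this.1], fun c : M + M < y 0 => by linarith [this.2]⟩
  have key := slot hS hL r Finset.univ (fun z => gd (g z) (u1.mono fun y hy => (g0 z y hy).2)
    (g1 z) (closure_mono fun y hy => (g0 z y hy).2)) (fun _ => 32 * η * (Λ * L)) (fun _ e => e.1)
    (net.mono b1 fun y hy => ⟨η3.trans hy, fun e => e.2 hy⟩)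
  rw [← g3] at key
  simp only [← τ_X, ← map_mul] at key
  rw [r.nq b0, r.nq (by
    rw [map_mul, τ_X]
    exact net.mono (net.mul (gd_mem (gd u u1 u2 subset_rfl)) b1 (disjoint_left.2 fun y e e' =>
      e.2 e')) (union_subset (fun _ e => e.1) fun y hy => η3.trans hy)),
    key, ← mul_pow]
  have cz : ∀ (z : ∀ l, Fin (2 * E l + 1)) l, E l = C →
      |η * (((z l : ℤ) - E l : ℤ) : ℝ)| + 24 * η ≤ 26 * d := fun z l e => by
    have := (z l).2
    have : |(z l : ℤ) - E l| ≤ C := abs_le.2 ⟨by omega, by omega⟩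
    have : |(((z l : ℤ) - E l : ℤ) : ℝ)| ≤ C := by rw [← Int.cast_abs]; exact_mod_cast this
    rw [abs_mul, abs_of_pos η0]
    linarith [mul_le_mul_of_nonneg_left this η0.le]
  refine pow_le_pow_left₀ (norm_nonneg _) ((norm_sum_le_of_le _ (n := fun _ =>
    32 * η * (Λ * L) * (2 * γ * ‖r.Ψ b‖)) fun z _ => ?_).trans ?_) 2
  · rw [norm_smul, Complex.norm_real, norm_of_nonneg (by positivity)]
    refine mul_le_mul_of_nonneg_left (piece hT h r γ0 η0 hη hA (g1 z)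
      (x := WithLp.toLp 2 fun l => η * ((z l : ℤ) - E l : ℤ)) (.of_dist_le_mul fun y y' => ?_)
      (fun y => ?_) (fun y hy => bumpS_supp η0 (g0 z y hy).1) ((cz z 0 rfl).trans hM)
      ((add_le_add_left (le_abs_self _) _).trans ((cz z 1 rfl).trans hR)) hb) (by positivity)
    · have := (norm_piece (by positivity) ((hK η (32 * 3 ^ e) (by push_cast; linarith)
        (fun l => z l - E l) 0).weaken (mul_le_mul_left le_self_add _ : _ ≤ (K + 1) * _))
        (fun y => abs_bumpS _ _ _) u3 s1).1.dist_le_mul y y'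
      simp only [sub_zero, ← hΛ, Real.dist_eq] at this
      rw [hg, Real.dist_eq, ← mul_sub, abs_mul, abs_of_nonneg (by positivity)]
      push_cast at this ⊢
      exact mul_le_mul_of_nonneg_left (by linarith) (by positivity)
    · have e0 : 0 ≤ Λ * L := by positivity
      simp only [hg]
      rw [mul_left_comm, abs_mul, abs_of_nonneg (inv_nonneg.2 e0), abs_mul, abs_mul,
        abs_of_nonneg (zero_le_one.trans e3)]
      refine inv_mul_le_of_le_mul₀ e0 zero_le_one ((mul_le_mul_of_nonneg_left (mul_le_mul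
        (abs_bumpS _ _ _) (s1 y) (abs_nonneg _) zero_le_one) (by positivity)).trans ?_)
      rw [show 3 ^ e * (1 * (L * (2 * d))) = 2 * d * 3 ^ e * L by ring, mul_one, hΛ]
      push_cast
      have : 0 ≤ d * 3 ^ e := by positivity
      exact mul_le_mul_of_nonneg_right (by nlinarith) L0
  · rw [Finset.sum_const, Finset.card_univ, Fintype.card_pi, Fin.prod_univ_four, ← mul_assoc,
      nsmul_eq_mul, ← mul_assoc]
    refine mul_le_mul_of_nonneg_right (le_of_mul_le_mul_right (le_trans ?_ hB) (pow_pos η0 4))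
      (norm_nonneg _)
    have e : ((2 * D + 1) * η) ^ 2 ≤ (3 * (|R| + 1)) ^ 2 :=
      pow_le_pow_left₀ (by positivity) (by linarith) 2
    have e' : ((2 * C + 1) * η) ^ 2 ≤ (5 * d) ^ 2 :=
      pow_le_pow_left₀ (by positivity) (by linarith) 2
    have := mul_le_mul (show η * Λ ≤ (5 + 2 * K) * d by nlinarith)
      (mul_le_mul e e' (by positivity) (by positivity)) (by positivity) (by positivity)
    have := mul_le_mul_of_nonneg_left this (show 0 ≤ 64 * γ * L by positivity)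
    simp only [Fintype.card_fin, E]
    simp
    linarith

theorem thinQ_of (hS : net.St W 0) (hT : net.St W 1) (hL : LinP W)
    (h : ∀ {k} {f : Fin k → R4 → ℝ}, Adm f → W (mon f) = S f) (hA : ArrP S) : ThinQ W := by
  obtain ⟨K, K0, hK⟩ := thin_gen hS hT hL h
  refine ⟨26, by norm_num, fun e => (3 ^ e)⁻¹ / 32, tendsto_nhdsWithin_iff.2 ⟨?_,
    .of_forall fun e => by simp⟩, fun R => ⟨26, fun ε ε0 => ?_⟩⟩
  · simpa using (tendsto_pow_atTop_atTop_of_one_lt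
      (show (1 : ℝ) < 3 by norm_num)).inv_tendsto_atTop.div_const 32
  obtain ⟨γ, γ0, hγ⟩ : ∃ γ > 0, (K * (|R| + 1) ^ 2 + 1) * γ = ε :=
    ⟨ε / (K * (|R| + 1) ^ 2 + 1), by positivity, by field_simp⟩
  refine (hA γ γ0).mono fun e hA u L hu b hb => ?_
  have : (3 ^ e : ℝ)⁻¹ ≤ 1 := inv_le_one_of_one_le₀ (one_le_pow₀ (by norm_num))
  refine hK γ0.le (by ring) hA le_rfl (by linarith) le_rfl (by linarith) hu hb ?_
  have p : (0 : ℝ) < (3 ^ e)⁻¹ / 32 := by positivity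
  beta_reduce
  generalize (3 ^ e : ℝ)⁻¹ / 32 = η at p
  rw [← hγ, show ∀ x, x / η * η ^ 4 = x * η ^ 3 from fun x => by field_simp]
  nlinarith [show 0 ≤ γ * L * η ^ 3 by positivity]

theorem thin1_of (hS : net.St W 0) (hT : net.St W 1) (hL : LinP W)
    (h : ∀ {k} {f : Fin k → R4 → ℝ}, Adm f → W (mon f) = S f) (hA : ArrP S) : Thin1 W := by
  obtain ⟨K, K0, hK⟩ := thin_gen hS hT hL h
  obtain ⟨e0, hA⟩ := eventually_atTop.1 (hA 1 one_pos)
  refine ⟨26, by norm_num, fun R => ⟨26, K * (|R| + 1) ^ 2 * (96 * 3 ^ e0) ^ 4, 1, by positivity,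
    fun d ⟨d0, d1⟩ u L hu b hb => ?_⟩⟩
  have e3 : (1 : ℝ) ≤ 3 ^ e0 := one_le_pow₀ (by norm_num)
  obtain ⟨e, a1, a2⟩ := exists_nat_pow_near (x := 3 ^ e0 / d) (y := 3)
    ((one_le_div d0).2 (d1.trans e3)) (by norm_num)
  rw [le_div_iff₀ d0] at a1
  rw [div_lt_iff₀ d0] at a2
  have a3 : e0 ≤ e + 1 := (pow_le_pow_iff_right₀ (show (1 : ℝ) < 3 by norm_num)).1
    (a2.le.trans (mul_le_of_le_one_right (by positivity) d1))
  have p : (0 : ℝ) < 3 ^ (e + 1) := by positivity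
  have a4 : (3 ^ (e + 1) : ℝ)⁻¹ / 32 ≤ d := by
    have : (3 ^ (e + 1) : ℝ)⁻¹ ≤ d := (inv_le_iff_one_le_mul₀' p).2 (by linarith)
    linarith
  refine hK zero_le_one (η := (3 ^ (e + 1))⁻¹ / 32) (by ring) (hA _ a3) a4 d1 le_rfl (by linarith)
    hu hb ?_
  have a5 : d ≤ 96 * 3 ^ e0 * ((3 ^ (e + 1))⁻¹ / 32) := by
    rw [pow_succ] at p ⊢
    field_simp
    linarith
  have := mul_le_mul_of_nonneg_left (pow_le_pow_left₀ d0.le a5 4)
    (show 0 ≤ K * (|R| + 1) ^ 2 * L / d by positivity)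
  rw [mul_pow (96 * _)] at this
  refine le_of_eq_of_le (by field_simp) (this.trans_eq (by ring))

end Pool.Agent.Lib.MP_7f377f_mp.Pl
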