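import Pool.Agent.Lib.MP_7f377f_mp.G.RoA

/-! Continuation to complex angles. -/

noncomputable section

namespace Pool.Agent.Lib.MP_7f377f_mp.Ro
variable [Pool.Agent.Lib.MP_7f377f_mp.GD]
set_option linter.unusedSectionVars false

open Filter Topology Set Real YM7 Pur MvPolynomial
open scoped NNReal

set_option linter.unusedSectionVars false

variable {W : Pol →ₗ[ℂ] ℂ} {H : Type} [NormedAddCommGroup H] [InnerProductSpace ℂ H]
  [CompleteSpace H] {r : net.Rep W 0 H} {k : ℕ} {Z Z' : Pol}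

variable {Y β β' : ℝ}

namespace RoD1

/-- a plane vector rotated by a complex angle -/
def pz (m : ℝ) (a : R4) (z : ℂ) : ℂ × ℂ :=
  (Complex.cos z * a 0 - Complex.sin z * a 1 - m, Complex.sin z * a 0 + Complex.cos z * a 1)

theorem diff_pz (m : ℝ) (a : R4) : Differentiable ℂ (pz m a) := by
  unfold pz
  fun_prop

theorem pz_mem {m : ℝ} {a : R4} {z : ℂ} (m0 : 0 < m) (hm : 8 * m ≤ exp (-Y)) (hz : |z.im| < Y)
    (hu : 1 / 4 ≤ rot 0 z.re a 0) :
    |(pz m a z).2.im| < (1 - exp (-2 * Y) / 2) * (pz m a z).1.re := by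
  rw [rot_zero'] at hu
  change 1 / 4 ≤ cos z.re * a 0 - sin z.re * a 1 at hu
  have hs : Complex.sin z = (sin z.re * cosh z.im : ℝ) + (cos z.re * sinh z.im : ℝ) * Complex.I := by
    rw [Complex.sin_eq z]
    push_cast
    rfl
  have hc : Complex.cos z = (cos z.re * cosh z.im : ℝ) - (sin z.re * sinh z.im : ℝ) * Complex.I := by
    rw [Complex.cos_eq z]
    push_cast
    rfl
  have e1 : (pz m a z).2.im = (cos z.re * a 0 - sin z.re * a 1) * sinh z.im := by
    simp only [pz, hs, hc, Complex.add_im, Complex.mul_im, Complex.sub_im, Complex.add_re,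
      Complex.sub_re, Complex.mul_re, Complex.ofReal_re, Complex.ofReal_im, Complex.I_re,
      Complex.I_im]
    ring
  have e2 : (pz m a z).1.re = (cos z.re * a 0 - sin z.re * a 1) * cosh z.im - m := by
    simp only [pz, hs, hc, Complex.add_im, Complex.mul_im, Complex.sub_im, Complex.add_re,
      Complex.sub_re, Complex.mul_re, Complex.ofReal_re, Complex.ofReal_im, Complex.I_re,
      Complex.I_im]
    ring
  rw [e1, e2, abs_mul, abs_of_nonneg (by linarith), abs_sinh, ← cosh_abs]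
  generalize cos z.re * a 0 - sin z.re * a 1 = u at hu
  have h1 : exp (-Y) ≤ cosh |z.im| - sinh |z.im| := by
    rw [cosh_sub_sinh]
    exact exp_le_exp.2 (by linarith)
  have h2 : cosh |z.im| ≤ exp Y := by
    have := cosh_add_sinh |z.im|
    have := sinh_nonneg_iff.2 (abs_nonneg z.im)
    have := exp_le_exp.2 hz.le
    linarith
  have h3 : exp (-2 * Y) * exp Y = exp (-Y) := by rw [← exp_add]; ring_nf
  have h4 : exp (-2 * Y) * cosh |z.im| ≤ exp (-Y) :=
    (mul_le_mul_of_nonneg_left h2 (exp_pos _).le).trans_eq h3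
  have h5 : exp (-Y) / 2 ≤ (1 - exp (-2 * Y) / 2) * cosh |z.im| - sinh |z.im| := by linarith
  have h6 := mul_le_mul hu h5 (by positivity) (by linarith)
  have h7 := mul_pos (exp_pos (-2 * Y)) m0
  nlinarith

theorem pz_real {θ m : ℝ} {A : ℂ × ℂ → H →L[ℂ] H} (hA : Cone r 0 θ A) {a : R4} (a2 : a 2 = 0)
    (a3 : a 3 = 0) {φ : ℝ} (h : m < rot 0 φ a 0) :
    A (pz m a φ) = r.T (rot 0 φ a - ax 0 m) := by
  have e : pz m a φ = (((rot 0 φ a 0 - m : ℝ) : ℂ), ((rot 0 φ a 1 : ℝ) : ℂ)) := by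
    rw [rot_zero', show (1 : Fin 4) = (0 : Fin 3).succ from rfl, rot_succ]
    simp [pz]
  rw [e, hA.real _ _ (sub_pos.2 h)]
  congr 1
  ext i
  have h2 := rot_ne (l := 0) (i := 2) (by decide) (by decide) φ a
  have h3 := rot_ne (l := 0) (i := 3) (by decide) (by decide) φ a
  fin_cases i <;> simp [a2, a3, h2, h3]

theorem adm_rp {g : Fin k → R4 → ℝ} (hg : Adm g) (hs : ∀ i, tsupport (g i) ⊆ Hs 0 0) :
    Adm (Fin.append (fun i y => g i (rf 0 y)) g) :=
  (adm_rf hg 0).append hg fun i j => disjoint_left.2 fun y hy hy' => by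
    have e := hs i (tsupport_comp (rfL_eq 0 ▸ (rfL 0).continuous) hy)
    have e' := hs j hy'
    simp only [Hs, mem_ofPred_eq, rf_self] at e e'
    linarith

theorem supp_rot {f : R4 → ℝ} (hs : tsupport f ⊆ Cz 0) {φ : ℝ} (hφ : |φ| < 1) :
    tsupport (fun y => f ((rot 0 φ).symm y)) ⊆ Hs 0 0 := fun y hy => by
  have h2 : 4 * |(rot 0 φ).symm y 1| + 0 < (rot 0 φ).symm y 0 :=
    hs (tsupport_comp (rot 0 φ).symm.continuous hy)
  have h1 := rot_cz le_rfl h2 hφ
  rw [LinearIsometryEquiv.apply_symm_apply] at h1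
  change 0 < y 0
  linarith [abs_nonneg ((rot 0 φ).symm y 1)]

end RoD1

open RoD1

theorem Ext.one (hS : net.St W) (r : net.Rep W 0 H) (Y : ℝ) : Ext r Y 1 1 :=
  ⟨fun _ => r.Ψ 1, differentiableOn_const _, fun _ _ => (r.one hS).le,
    fun _ _ => by rw [map_one (act _)]⟩

theorem Ext.mono (h : Ext r Y β Z) (e : β ≤ β') : Ext r Y β' Z :=
  let ⟨V, h1, h2, h3⟩ := h
  ⟨V, h1, fun z hz => (h2 z hz).trans e, h3⟩

theorem Ext.add (h : Ext r Y β Z) (h' : Ext r Y β' Z') : Ext r Y (β + β') (Z + Z') :=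
  let ⟨V, h1, h2, h3⟩ := h
  let ⟨V', g1, g2, g3⟩ := h'
  ⟨fun z => V z + V' z, h1.add g1, fun z hz => norm_add_le_of_le (h2 z hz) (g2 z hz),
    fun φ hφ => by simp only [h3 φ hφ, g3 φ hφ, map_add]⟩

theorem Ext.smul (h : Ext r Y β Z) (c : ℂ) : Ext r Y (‖c‖ * β) (c • Z) :=
  let ⟨V, h1, h2, h3⟩ := h
  ⟨fun z => c • V z, h1.const_smul c, fun z hz => (norm_smul _ _).trans_le
    (mul_le_mul_of_nonneg_left (h2 z hz) (norm_nonneg _)),
    fun φ hφ => by simp only [h3 φ hφ, map_smul]⟩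

theorem Ext.sum {I : Type} (s : Finset I) {Z : I → Pol} {β : I → ℝ}
    (h : ∀ i ∈ s, Ext r Y (β i) (Z i)) : Ext r Y (∑ i ∈ s, β i) (∑ i ∈ s, Z i) := by
  classical
  induction s using Finset.induction_on with
  | empty => exact ⟨0, differentiableOn_const _, by simp, by simp⟩
  | insert a s ha ih =>
    rw [Finset.sum_insert ha, Finset.sum_insert ha]
    exact (h a (by simp)).add (ih fun i hi => h i (by simp [hi]))

theorem Ext.congr (h : Ext r Y β Z)
    (e : ∀ φ : ℝ, |φ| < 1 → r.Ψ (act (rot 0 φ) Z') = r.Ψ (act (rot 0 φ) Z)) : Ext r Y β Z' :=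
  let ⟨V, h1, h2, h3⟩ := h
  ⟨V, h1, h2, fun φ hφ => (h3 φ hφ).trans (e φ hφ).symm⟩

theorem Ext.step (hW : H0 W) (h : Ext r Y β Z) (hZ : Z ∈ net.loc (Cz 0)) (Y0 : 0 < Y) {m : ℝ} (m0 : 0 < m)
    (hm : 8 * m ≤ exp (-Y)) {u : R4 → ℝ} {M : H →L[ℂ] H} (hM : Fop r m u M)
    (hu : X u ∈ net.loc {y | |y 0| < m}) (hr : ∀ φ y, u (rot 0 φ y) = u y) {a : R4}
    (a2 : a 2 = 0) (a3 : a 3 = 0) (ha : a ∈ Cz 1) :
    Ext r Y (‖M‖ * β) (net.τ a (X u * net.τ (ax 0 1) Z)) := by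
  obtain ⟨V, h1, h2, h3⟩ := h
  have y1 : exp (-2 * Y) < 1 := exp_lt_one_iff.2 (by linarith)
  have y2 : exp (-Y) < 1 := exp_lt_one_iff.2 (by linarith)
  obtain ⟨A, hA⟩ := hW.cone r 0 (θ := 1 - exp (-2 * Y) / 2) (by linarith)
    (by linarith [exp_pos (-2 * Y)])
  have c1 : ∀ φ : ℝ, |φ| < 1 → 1 / 4 ≤ rot 0 φ a 0 := fun φ hφ => by
    have h4 : 4 * |a 1| + 1 < a 0 := ha
    linarith [rot_cz zero_le_one ha hφ, abs_nonneg (a 1)]
  have c2 : ∀ φ : ℝ, |φ| < 1 → 1 / 4 ≤ rot 0 φ (ax 0 1) 0 := fun φ hφ => by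
    simpa using (rot_cz (y := ax 0 1) le_rfl (by simp [Cz]) hφ).le
  have p1 := fun (z : ℂ) (hz : |z.re| < 1 ∧ |z.im| < Y) => pz_mem m0 hm hz.2 (c1 _ hz.1)
  have p2 := fun (z : ℂ) (hz : |z.re| < 1 ∧ |z.im| < Y) => pz_mem m0 hm hz.2 (c2 _ hz.1)
  refine ⟨fun z => A (pz m a z) (M (A (pz m (ax 0 1) z) (V z))),
    (hA.diff.comp (diff_pz m a).differentiableOn p1).clm_apply (M.differentiable.comp_differentiableOn
      ((hA.diff.comp (diff_pz m _).differentiableOn p2).clm_apply h1)), fun z hz => ?_,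
    fun φ hφ => ?_⟩
  · refine ((A _).le_of_opNorm_le (hA.nrm _ (p1 z hz)) _).trans ?_
    rw [one_mul]
    refine (M.le_opNorm _).trans (mul_le_mul_of_nonneg_left ?_ (norm_nonneg _))
    exact ((A _).le_of_opNorm_le (hA.nrm _ (p2 z hz)) _).trans ((one_mul _).trans_le (h2 z hz))
  · have b1 := act_cz hZ hφ
    have v1 : 0 ≤ (rot 0 φ a - ax 0 m) 0 := by
      simp only [PiLp.sub_apply, PiLp.single_apply, if_true]
      linarith [c1 φ hφ]
    have v2 : 0 ≤ (rot 0 φ (ax 0 1) - ax 0 m) 0 := by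
      simp only [PiLp.sub_apply, PiLp.single_apply, if_true]
      linarith [c2 φ hφ]
    have b2 := Net.τ_hs (t' := 0) b1 (by simpa only [zero_add] using v2)
    have b3 : net.τ (ax 0 m) (X u * net.τ (ax 0 m) (net.τ (rot 0 φ (ax 0 1) - ax 0 m)
        (act (rot 0 φ) Z))) ∈ net.loc (Hs 0 0) := by
      have b4 := Net.τ_hs (t' := m) (v := ax 0 m) b2 (by simp)
      refine Net.τ_hs (t := -m) (net.mono (net.mul hu b4 (disjoint_left.2 fun y e e' =>
        ((le_abs_self _).trans_lt (show |y 0| < m from e)).not_gt (show m < y 0 from e'))) (union_subset (fun y e => (abs_lt.1 (show |y 0| < m from e)).1)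
          fun y e => lt_trans (by linarith) (show m < y 0 from e))) (by simp)
    have e : (fun y => u ((rot 0 φ).symm y)) = u := funext fun y => by rw [rot_symm, hr]
    beta_reduce
    rw [pz_real hA a2 a3 (by linarith [c1 φ hφ]), pz_real hA (by simp) (by simp)
      (by linarith [c2 φ hφ]), h3 φ hφ, r.act v2 b1, hM _ b2, r.act v1 b3, act_τ, map_mul (act _),
      act_τ, act_X, e, net.τ_τ, net.τ_τ, sub_add_cancel, add_sub_cancel]

theorem Ext.improve {f : Fin k → R4 → ℝ} (h : Ext r Y β (mon f)) (hf : Adm f)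
    (hs : ∀ i, tsupport (f i) ⊆ Cz 0) (hI : ∀ φ, InvN W (k + k) (rot 0 φ))
    (hB : ∀ φ : ℝ, |φ| < 1 → ‖r.Ψ (act (rot 0 φ) (mon f))‖ ≤ β') : Ext r Y β' (mon f) := by
  obtain ⟨V, h1, -, h3⟩ := h
  refine ⟨V, h1, fun z hz => ?_, h3⟩
  have hm := mon_mem hf hs
  have o : IsOpen {z : ℂ | |z.re| < 1 ∧ |z.im| < Y} :=
    (isOpen_lt (f := fun z : ℂ => |z.re|) (by fun_prop) continuous_const).inter
      (isOpen_lt (f := fun z : ℂ => |z.im|) (by fun_prop) continuous_const)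
  have d : ∀ w : ℂ, |w.re| < 1 ∧ |w.im| < Y → DifferentiableAt ℂ V w := fun w hw =>
    h1.differentiableAt (o.mem_nhds hw)
  have t1 : ∀ x : ℝ, |x| < 1 - |z.re| → |z.re - x| < 1 := fun x hx =>
    (abs_sub _ _).trans_lt (by linarith)
  have t2 : ∀ x : ℝ, |x| < 1 - |z.re| → |z.re + x| < 1 := fun x hx =>
    (abs_add_le _ _).trans_lt (by linarith)
  have key := S10.rc_id (a := 1 - |z.re|) (b := Y) (δ := 1 - |z.re|)
    (f := fun w => inner ℂ (V (z.re - starRingEnd ℂ w)) (V (z.re + w)))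
    (g := fun _ => inner ℂ (V z.re) (V z.re)) (fun w hw => (S10.diff_inner
      (f := fun w => V (z.re - w)) (g := fun w => V (z.re + w))
      ((d _ ⟨by simpa using t1 _ hw.1, by simpa using hw.2⟩).comp _ (by fun_prop))
      ((d _ ⟨by simpa using t2 _ hw.1, by simpa using hw.2⟩).comp _
        (by fun_prop))).differentiableWithinAt) (differentiableOn_const _) (by linarith [hz.1])
    (fun x hx => by
      have := hI x _ (adm_rp (adm_act hf (rot 0 z.re)) fun i => supp_rot (hs i) hz.1)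
      rw [mon_append, ← Θ_mon 0 fun i y => f i ((rot 0 z.re).symm y), ← act_mon, map_mul (act _), Θ_rot, act_act, act_act, rot_mul,
        rot_mul] at this
      rw [Complex.conj_ofReal, ← Complex.ofReal_sub, ← Complex.ofReal_add, h3 _ (t1 x hx),
        h3 _ (t2 x hx), h3 _ hz.1, r.inn (act_cz hm (t1 x hx)) (act_cz hm (t2 x hx)),
        r.inn (act_cz hm hz.1) (act_cz hm hz.1), Θ_rot, Θ_rot, ← this, neg_sub, add_comm z.re,
        sub_eq_add_neg])
    (x := z.im * Complex.I) ⟨by simpa using hz.1, by simpa using hz.2⟩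
  simp only [map_mul, Complex.conj_ofReal, Complex.conj_I, mul_neg, sub_neg_eq_add,
    Complex.re_add_im, inner_self_eq_norm_sq_to_K] at key
  have k2 : ‖V z‖ ^ 2 = ‖V z.re‖ ^ 2 := by exact_mod_cast key
  rw [(sq_eq_sq₀ (norm_nonneg _) (norm_nonneg _)).1 k2, h3 _ hz.1]
  exact hB _ hz.1

theorem App.add {Y : ℕ → ℝ} (h : App r Y Z) (h' : App r Y Z') : App r Y (Z + Z') := fun ε e0 => by
  filter_upwards [h (ε / 2) (by positivity), h' (ε / 2) (by positivity)] with n ⟨A, a1, a2, a3⟩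
    ⟨B, b1, b2, b3⟩
  refine ⟨A + B, Submodule.add_mem _ a1 b1, (a2.add b2).mono (by linarith), fun φ hφ => ?_⟩
  simp only [map_add, add_sub_add_comm]
  exact (norm_add_le_of_le (a3 φ hφ) (b3 φ hφ)).trans_eq (add_halves _)

theorem App.smul {Y : ℕ → ℝ} (h : App r Y Z) (c : ℂ) : App r Y (c • Z) := fun ε e0 => by
  have e : ‖c‖ * (ε / (‖c‖ + 1)) ≤ ε := by
    rw [← mul_div_assoc, div_le_iff₀ (by positivity)]
    nlinarith
  filter_upwards [h (ε / (‖c‖ + 1)) (by positivity)] with n ⟨A, a1, a2, a3⟩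
  refine ⟨c • A, Submodule.smul_mem _ _ a1, (a2.smul c).mono ?_, fun φ hφ => ?_⟩
  · rw [← mul_assoc]
    exact mul_le_mul_of_nonneg_right e (exp_pos _).le
  · simp only [map_smul, ← smul_sub, norm_smul]
    exact (mul_le_mul_of_nonneg_left (a3 φ hφ) (norm_nonneg _)).trans e

end Pool.Agent.Lib.MP_7f377f_mp.Ro
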