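import Pool.Agent.Lib.MP_7f377f_mp.G.RoDef

/-! Approximation by sums of thin radial functions. -/

noncomputable section

namespace Pool.Agent.Lib.MP_7f377f_mp.Ro
variable [Pool.Agent.Lib.MP_7f377f_mp.GD]
set_option linter.unusedSectionVars false

open Filter Topology Set Real YM7 Pur MvPolynomial MeasureTheory
open scoped NNReal

namespace RoC

theorem lipV {V : Type} [NormedAddCommGroup V] [NormedSpace ℝ V] {f : V → ℝ}
    (h1 : HasCompactSupport f) (h2 : ContDiff ℝ 1 f) {η : ℝ} (hη : 0 < η) :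
    ∃ h > 0, ∀ v : V, ‖v‖ < h → ∀ x y, |f (x - v) - f x - (f (y - v) - f y)| ≤ η * ‖x - y‖ := by
  obtain ⟨δ, δ0, hδ⟩ := Metric.uniformContinuous_iff.1
    ((h1.fderiv ℝ).uniformContinuous_of_continuous (h2.continuous_fderiv one_ne_zero)) η hη
  refine ⟨δ, δ0, fun u hu x y => ?_⟩
  have d1 := h2.differentiable one_ne_zero
  have d2 : Differentiable ℝ fun y => f (y - u) := d1.comp (differentiable_id.sub_const u)
  have : LipschitzWith ⟨η, hη.le⟩ ((fun y => f (y - u)) - f) := by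
    refine lipschitzWith_of_nnnorm_fderiv_le (d2.sub d1) fun y => ?_
    rw [fderiv_sub (d2 y) (d1 y), ← NNReal.coe_le_coe, coe_nnnorm, ← dist_eq_norm, fderiv_comp_sub]
    refine (hδ ?_).le
    rwa [dist_eq_norm, sub_sub_cancel_left, norm_neg]
  have h := this.dist_le_mul x y
  rwa [Real.dist_eq, dist_eq_norm] at h

/-- quadrature on a compact set -/
theorem quad {V : Type} [PseudoMetricSpace V] [MeasurableSpace V] [BorelSpace V] (ν : Measure V)
    [IsFiniteMeasure ν] {K : Set V} (hK : IsCompact K) (hν : ∀ᵐ a ∂ν, a ∈ K) {h : ℝ} (h0 : 0 < h) :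
    ∃ (N : ℕ) (w : Fin N → ℝ) (a : Fin N → V), (∀ i, 0 ≤ w i) ∧ ∑ i, w i = ν.real univ ∧
      (∀ i, a i ∈ K) ∧ ∀ (Φ : V → ℝ) (η : ℝ), Integrable Φ ν →
        (∀ x ∈ K, ∀ y ∈ K, dist x y < h → |Φ x - Φ y| ≤ η) →
        |∫ x, Φ x ∂ν - ∑ i, w i * Φ (a i)| ≤ η * ν.real univ := by
  obtain ⟨t, t1, t2, t3⟩ := hK.finite_cover_balls h0
  obtain ⟨N, e, -, rfl⟩ := t2.fin_param
  obtain ⟨P, hP⟩ : ∃ P : Fin N → Set V, P = disjointed fun i => Metric.ball (e i) h := ⟨_, rfl⟩
  have P1 : ∀ i, MeasurableSet (P i) := fun i => by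
    rw [hP, disjointed_apply]
    exact measurableSet_ball.diff (by
      rw [Finset.sup_eq_iSup]
      exact MeasurableSet.iUnion fun j => MeasurableSet.iUnion fun _ => measurableSet_ball)
  have P2 : ∀ i, P i ⊆ Metric.ball (e i) h := fun i => hP ▸ disjointed_le _ i
  have P3 : ∀ x ∈ K, ∃ i, x ∈ P i ∧ ∀ c : Fin N → ℝ, ∑ j, (P j).indicator (fun _ => c j) x = c i := by
    intro x hx
    have h1 : x ∈ ⋃ i, P i := by
      rw [hP, iUnion_disjointed]
      simpa using t3 hx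
    obtain ⟨i, hi⟩ := mem_iUnion.1 h1
    refine ⟨i, hi, fun c => ?_⟩
    rw [Finset.sum_eq_single i (fun j _ hj => indicator_of_notMem (fun h2 => ?_) _)
      (fun h => absurd (Finset.mem_univ i) h), indicator_of_mem hi]
    have := disjoint_disjointed (fun i => Metric.ball (e i) h) hj
    rw [← hP] at this
    exact disjoint_left.1 this h2 hi
  have I1 : ∀ (c : Fin N → ℝ) j, Integrable ((P j).indicator fun _ => c j) ν := fun c j =>
    (integrable_const _).indicator (P1 j)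
  have I2 : ∀ c : Fin N → ℝ,
      ∫ x, ∑ j, (P j).indicator (fun _ => c j) x ∂ν = ∑ j, ν.real (P j) * c j := fun c => by
    rw [integral_finsetSum _ fun j _ => I1 c j]
    simp only [integral_indicator_const _ (P1 _), smul_eq_mul]
  refine ⟨N, fun i => ν.real (P i), e, fun i => measureReal_nonneg, ?_,
    fun i => t1 (mem_range_self i), fun Φ η hΦ hη => ?_⟩
  · have := I2 fun _ => 1
    rw [integral_congr_ae (g := fun _ => (1 : ℝ))
      (hν.mono fun x hx => let ⟨_, _, hi⟩ := P3 x hx; hi _)] at this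
    simpa using this.symm
  · rw [← I2, ← integral_sub hΦ (integrable_finsetSum _ fun j _ => I1 (fun j => Φ (e j)) j),
      ← Real.norm_eq_abs]
    refine norm_integral_le_of_norm_le_const (hν.mono fun x hx => ?_)
    obtain ⟨i, h1, h2⟩ := P3 x hx
    rw [h2]
    exact hη x hx _ (t1 (mem_range_self i)) (P2 i h1)

/-- projection to the plane -/
def pj : R4 →L[ℝ] ℝ × ℝ := (EuclideanSpace.proj 0).prod (EuclideanSpace.proj 1)

/-- embedding of the plane -/
def io : ℝ × ℝ →L[ℝ] R4 :=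
  (ContinuousLinearMap.fst ℝ ℝ ℝ).smulRight (ax 0 1) + (ContinuousLinearMap.snd ℝ ℝ ℝ).smulRight (ax 1 1)

/-- projection along the plane -/
def qq : R4 →L[ℝ] R4 := ContinuousLinearMap.id ℝ R4 - io ∘L pj

theorem pj_apply (y : R4) : pj y = (y 0, y 1) := rfl

theorem io0 (a : ℝ × ℝ) : io a 0 = a.1 := by simp [io]

theorem io1 (a : ℝ × ℝ) : io a 1 = a.2 := by simp [io]

theorem io2 (a : ℝ × ℝ) : io a 2 = 0 := by simp [io]

theorem io3 (a : ℝ × ℝ) : io a 3 = 0 := by simp [io]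

theorem pj_io (a : ℝ × ℝ) : pj (io a) = a := by rw [pj_apply, io0, io1]

theorem qq_apply (y : R4) : qq y = y - io (pj y) := rfl

theorem qq_io (a : ℝ × ℝ) : qq (io a) = 0 := by rw [qq_apply, pj_io, sub_self]

theorem pj_qq (y : R4) : pj (qq y) = 0 := by rw [qq_apply, map_sub, pj_io, sub_self]

theorem qq_rot (φ : ℝ) (y : R4) : qq (rot 0 φ y) = qq y := by
  ext i
  fin_cases i
  · simp [qq_apply, pj_apply, io0]
  · simp [qq_apply, pj_apply, io1]
  · simp [qq_apply, io2, rot_apply, rv]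
  · simp [qq_apply, io3, rot_apply, rv]

/-- the radial bump -/
def bp (b : ℝ × ℝ) : ℝ := expNegInvGlue (1 / 4 - (b.1 ^ 2 + b.2 ^ 2))

theorem bp_diff : ContDiff ℝ 1 bp := expNegInvGlue.contDiff.comp (by fun_prop)

theorem bp_nonneg (b : ℝ × ℝ) : 0 ≤ bp b := expNegInvGlue.nonneg _

theorem bp_ne {b : ℝ × ℝ} (h : bp b ≠ 0) : ‖b‖ ≤ 1 / 2 := by
  have h1 : b.1 ^ 2 + b.2 ^ 2 ≤ 1 / 4 := by
    by_contra hc
    exact h (expNegInvGlue.zero_of_nonpos (by linarith))
  refine max_le (abs_le_of_sq_le_sq ?_ (by norm_num)) (abs_le_of_sq_le_sq ?_ (by norm_num)) <;>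
    nlinarith [sq_nonneg b.1, sq_nonneg b.2]

theorem bp_cs : HasCompactSupport bp :=
  .intro (isCompact_closedBall 0 (1 / 2)) fun b hb => by
    by_contra h
    exact hb (mem_closedBall_zero_iff.2 (bp_ne h))

theorem bp_int : 0 < ∫ b, bp b :=
  bp_diff.continuous.integral_pos_of_hasCompactSupport_nonneg_nonzero bp_cs bp_nonneg (x := 0)
    (expNegInvGlue.pos_of_pos (by simp)).ne'

/-- the scaled bump -/
def rh (δ : ℝ) (b : ℝ × ℝ) : ℝ := bp (δ⁻¹ • b)

variable {δ : ℝ}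

theorem rh_diff : ContDiff ℝ 1 (rh δ) := bp_diff.comp (contDiff_const_smul _)

theorem rh_ne (δ0 : 0 < δ) {b : ℝ × ℝ} (h : rh δ b ≠ 0) : ‖b‖ ≤ δ / 2 := by
  have := bp_ne h
  rw [norm_smul, norm_inv, Real.norm_of_nonneg δ0.le, inv_mul_le_iff₀ δ0] at this
  linarith

theorem rh_cs (δ0 : 0 < δ) : HasCompactSupport (rh δ) :=
  .intro (isCompact_closedBall 0 (δ / 2)) fun b hb => by
    by_contra h
    exact hb (mem_closedBall_zero_iff.2 (rh_ne δ0 h))

theorem rh_int (δ0 : 0 < δ) : ∫ b, rh δ b = δ ^ 2 * ∫ b, bp b := by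
  have := Measure.integral_comp_inv_smul_of_nonneg volume bp δ0.le
  simpa [rh] using this

theorem rh_rot (δ φ : ℝ) (y : R4) : rh δ (pj (rot 0 φ y)) = rh δ (pj y) := by
  have h0 := rot_zero' 0 φ y
  have h1 := rot_succ 0 φ y
  rw [Fin.succ_zero_eq_one] at h0 h1
  simp only [rh, bp, pj_apply, Prod.smul_mk, smul_eq_mul, h0, h1]
  congr 2
  linear_combination δ⁻¹ ^ 2 * (y 0 ^ 2 + y 1 ^ 2) * sin_sq_add_cos_sq φ

theorem bnd {V : Type} [NormedAddCommGroup V] [NormedSpace ℝ V] {f : V → ℝ}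
    (h1 : HasCompactSupport f) (h2 : ContDiff ℝ 1 f) :
    ∃ B ≥ 0, (∀ x, |f x| ≤ B) ∧ ∀ x y, |f x - f y| ≤ B * ‖x - y‖ := by
  obtain ⟨B, hB⟩ := h1.exists_bound_of_continuous h2.continuous
  obtain ⟨L, hL⟩ := h2.lipschitzWith_of_hasCompactSupport h1 one_ne_zero
  have B0 : 0 ≤ B := (norm_nonneg _).trans (hB 0)
  refine ⟨B + L, by positivity, fun x => (hB x).trans (by simp), fun x y => ?_⟩
  have := hL.dist_le_mul x y
  rw [Real.dist_eq, dist_eq_norm] at this
  refine this.trans ?_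
  gcongr
  linarith

variable {F : R4 → ℝ}

/-- the integrand -/
def Ph (δ : ℝ) (F : R4 → ℝ) (z : (ℝ × ℝ) × R4) : ℝ := rh δ (pj z.2 - z.1) * F (io z.1 + qq z.2)

theorem Ph_diff (h2 : ContDiff ℝ 1 F) : ContDiff ℝ 1 (Ph δ F) :=
  (rh_diff.comp (by fun_prop)).mul (h2.comp (by fun_prop))

theorem Ph_mem {z : (ℝ × ℝ) × R4} (h : Ph δ F z ≠ 0) : z.1 ∈ pj '' tsupport F :=
  ⟨_, subset_tsupport _ (right_ne_zero_of_mul h), by rw [map_add, pj_io, pj_qq, add_zero]⟩

theorem Ph_cs (δ0 : 0 < δ) (h1 : HasCompactSupport F) : HasCompactSupport (Ph δ F) := by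
  refine .intro ((h1.isCompact.prod (isCompact_closedBall (0 : ℝ × ℝ) (δ / 2))).image
    (f := fun z => (pj z.1, z.1 + io z.2)) (by fun_prop)) fun z hz => ?_
  by_contra h
  refine hz ⟨(io z.1 + qq z.2, pj z.2 - z.1), ⟨subset_tsupport _ (right_ne_zero_of_mul h),
    mem_closedBall_zero_iff.2 (rh_ne δ0 (left_ne_zero_of_mul h))⟩, Prod.ext ?_ ?_⟩
  · simp only [map_add, pj_io, pj_qq, add_zero]
  · simp only [map_sub, qq_apply]
    abel

theorem Ph_int (δ : ℝ) (F : R4 → ℝ) (y : R4) :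
    ∫ a, Ph δ F (a, y) = ∫ b, rh δ b * F (y - io b) := by
  rw [← integral_sub_left_eq_self _ volume (pj y)]
  congr 1
  funext b
  simp only [Ph, sub_sub_cancel, map_sub, qq_apply]
  congr 2
  abel

theorem conv_lip (δ0 : 0 < δ) (h2 : Continuous F) {η : ℝ} (x y : R4)
    (h : ∀ b : ℝ × ℝ, ‖b‖ ≤ δ / 2 →
      |F (x - io b) - F x - (F (y - io b) - F y)| ≤ η) :
    |(∫ a, Ph δ F (a, x)) - (∫ a, Ph δ F (a, y)) - (∫ b, rh δ b) * (F x - F y)| ≤
      (∫ b, rh δ b) * η := by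
  have c1 := (rh_diff (δ := δ)).continuous
  have I : ∀ g : ℝ × ℝ → ℝ, Continuous g → Integrable fun b => rh δ b * g b := fun g hg =>
    (c1.mul hg).integrable_of_hasCompactSupport (rh_cs δ0).mul_right
  have I1 := I (fun b => F (x - io b)) (by fun_prop)
  have I2 := I (fun b => F (y - io b)) (by fun_prop)
  have I3 : Integrable fun b => rh δ b * F (x - io b) - rh δ b * F (y - io b) := I1.sub I2
  rw [Ph_int, Ph_int, ← integral_mul_const, ← integral_mul_const, ← integral_sub I1 I2,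
    ← integral_sub I3 (I _ continuous_const), ← Real.norm_eq_abs]
  refine norm_integral_le_of_norm_le (I _ continuous_const) (.of_forall fun b => ?_)
  by_cases hb : rh δ b = 0
  · simp [hb]
  have e : rh δ b * F (x - io b) - rh δ b * F (y - io b) - rh δ b * (F x - F y) =
      rh δ b * (F (x - io b) - F x - (F (y - io b) - F y)) := by ring
  rw [e, norm_mul, Real.norm_of_nonneg (show 0 ≤ rh δ b from bp_nonneg _)]
  exact mul_le_mul_of_nonneg_left (h b (rh_ne δ0 hb)) (bp_nonneg _)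

end RoC

open RoC in
theorem apx {F : R4 → ℝ} (h1 : HasCompactSupport F) (h2 : ContDiff ℝ 1 F) : ∃ R A : ℝ, 0 ≤ A ∧
    ∀ ε : ℝ≥0, 0 < ε → ∀ᶠ δ in 𝓝[>] (0 : ℝ), ∃ F', Atm δ R A (tsupport F) F' ∧
      LipschitzWith ε (F' - F) := by
  obtain ⟨B, B0, hB1, hB2⟩ := bnd h1 h2
  obtain ⟨D, D0, hD1, hD2⟩ := bnd bp_cs bp_diff
  obtain ⟨R, hR⟩ := h1.isCompact.isBounded.exists_norm_le
  have hK : IsCompact (pj '' tsupport F) := h1.isCompact.image pj.continuous
  obtain ⟨ν, hν⟩ : ∃ ν : Measure (ℝ × ℝ), ν = volume.restrict (pj '' tsupport F) := ⟨_, rfl⟩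
  have : IsFiniteMeasure ν := hν ▸ isFiniteMeasure_restrict.2 hK.measure_lt_top.ne
  obtain ⟨c, hc⟩ : ∃ c, c = ν.real univ + 1 := ⟨_, rfl⟩
  have c0 : 0 < c := by rw [hc]; positivity
  have I0 := bp_int
  refine ⟨‖io‖ + ‖qq‖ * R, c / (∫ b, bp b) * (D * ‖pj‖ * B + D * (B * ‖qq‖)), by positivity, ?_⟩
  intro ε ε0
  have e0 : (0 : ℝ) < ε / 2 := by positivity
  obtain ⟨h, h0, hh⟩ := lipV h1 h2 e0
  have ev : ∀ᶠ δ in 𝓝[>] (0 : ℝ), δ ∈ Ioo 0 (min 1 (h / (‖io‖ + 1))) :=
    Ioo_mem_nhdsGT (by positivity)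
  filter_upwards [ev] with δ hδ
  have δ0 := hδ.1
  have δ1 : δ < 1 := hδ.2.trans_le (min_le_left _ _)
  have δ2 : δ * (‖io‖ + 1) < h := (lt_div_iff₀ (by positivity)).1 (hδ.2.trans_le (min_le_right _ _))
  obtain ⟨J, hJ⟩ : ∃ J, J = ∫ b, rh δ b := ⟨_, rfl⟩
  have hJ' : J = δ ^ 2 * ∫ b, bp b := hJ.trans (rh_int δ0)
  have J0 : 0 < J := by rw [hJ']; positivity
  obtain ⟨h', h0', hh'⟩ := lipV (Ph_cs δ0 h1) (Ph_diff h2) (η := ε / 2 * J / c) (by positivity)
  obtain ⟨N, w, a, w0, w1, ha, hq⟩ := quad ν hK (hν ▸ ae_restrict_mem hK.measurableSet) h0'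
  refine ⟨_, ⟨N, fun i => w i / c, fun i => io (a i),
    fun i y => c / J * (rh δ (pj y) * F (io (a i) + qq y)), fun i => div_nonneg (w0 i) c0.le, ?_,
    fun i => ⟨io2 _, io3 _, ?_, ?_, fun φ y => by simp only [rh_rot, qq_rot]⟩, rfl⟩, ?_⟩
  · rw [← Finset.sum_div, w1, div_le_one c0, hc]
    linarith
  · obtain ⟨x, hx, e⟩ := ha i
    refine ⟨x, hx, ?_, ?_⟩
    · rw [io0, ← e, pj_apply, sub_self, abs_zero]
      norm_num
    · rw [io1, ← e, pj_apply, sub_self, abs_zero]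
      norm_num
  · have sup : ∀ y ∈ tsupport fun y => c / J * (rh δ (pj y) * F (io (a i) + qq y)),
        ‖pj y‖ ≤ δ / 2 ∧ ‖y‖ ≤ ‖io‖ + ‖qq‖ * R := by
      refine closure_minimal (t := {y | ‖pj y‖ ≤ δ / 2 ∧ ‖y‖ ≤ ‖io‖ + ‖qq‖ * R}) (fun y hy => ?_)
        ((isClosed_le pj.continuous.norm continuous_const).inter
          (isClosed_le continuous_norm continuous_const))
      have h3 := right_ne_zero_of_mul hy
      have h4 := rh_ne δ0 (left_ne_zero_of_mul h3)
      have h5 := hR _ (subset_tsupport _ (right_ne_zero_of_mul h3))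
      refine ⟨h4, ?_⟩
      have e : y = io (pj y) + qq (io (a i) + qq y) := by
        rw [map_add, qq_io, zero_add, qq_apply (qq y), pj_qq, map_zero, sub_zero, qq_apply]
        abel
      refine (congrArg norm e).trans_le ((norm_add_le _ _).trans (add_le_add ?_ ?_))
      · refine (io.le_opNorm _).trans (mul_le_of_le_one_right (norm_nonneg _) ?_)
        linarith
      · exact (qq.le_opNorm _).trans (mul_le_mul_of_nonneg_left h5 (norm_nonneg _))
    refine ⟨.mk (c / (∫ b, bp b) * (D * ‖pj‖ * B + D * (B * ‖qq‖)) / δ ^ 3) (by positivity), le_rfl,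
      (isCompact_closedBall 0 _).of_isClosed_subset (isClosed_tsupport _)
        fun y hy => mem_closedBall_zero_iff.2 (sup y hy).2,
      contDiff_const.mul ((rh_diff.comp pj.contDiff).mul (h2.comp (by fun_prop))),
      .of_dist_le_mul fun x y => ?_, fun y hy => ⟨?_, ?_, (sup y hy).2⟩⟩
    · have a1 : |rh δ (pj x) - rh δ (pj y)| ≤ D * (δ⁻¹ * (‖pj‖ * ‖x - y‖)) := by
        refine (hD2 _ _).trans (mul_le_mul_of_nonneg_left ?_ D0)
        rw [← smul_sub, norm_smul, norm_inv, Real.norm_of_nonneg δ0.le, ← map_sub]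
        exact mul_le_mul_of_nonneg_left (pj.le_opNorm _) (by positivity)
      have a2 : |F (io (a i) + qq x) - F (io (a i) + qq y)| ≤ B * (δ⁻¹ * (‖qq‖ * ‖x - y‖)) := by
        refine (hB2 _ _).trans (mul_le_mul_of_nonneg_left ?_ B0)
        rw [add_sub_add_left_eq_sub, ← map_sub]
        exact (qq.le_opNorm _).trans
          (le_mul_of_one_le_left (by positivity) (one_le_inv₀ δ0 |>.2 δ1.le))
      have a3 : |rh δ (pj y)| ≤ D := hD1 _
      have a4 := hB1 (io (a i) + qq x)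
      rw [Real.dist_eq, dist_eq_norm, ← mul_sub, abs_mul, abs_of_pos (by positivity : 0 < c / J),
        show rh δ (pj x) * F (io (a i) + qq x) - rh δ (pj y) * F (io (a i) + qq y) =
          (rh δ (pj x) - rh δ (pj y)) * F (io (a i) + qq x) +
            rh δ (pj y) * (F (io (a i) + qq x) - F (io (a i) + qq y)) by ring]
      calc _ ≤ c / J * (D * (δ⁻¹ * (‖pj‖ * ‖x - y‖)) * B + D * (B * (δ⁻¹ * (‖qq‖ * ‖x - y‖)))) := by
            refine mul_le_mul_of_nonneg_left ((abs_add_le _ _).trans ?_) (by positivity)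
            rw [abs_mul, abs_mul]
            gcongr
        _ = _ := by
            rw [hJ', NNReal.coe_mk]
            field_simp
    · exact ((norm_fst_le (pj y)).trans (sup y hy).1).trans_lt (by linarith)
    · exact ((norm_snd_le (pj y)).trans (sup y hy).1).trans_lt (by linarith)
  · refine .of_dist_le_mul fun x y => ?_
    have e : ∀ y, (∑ i, (w i / c) • fun y => c / J * (rh δ (pj (y - io (a i))) *
        F (io (a i) + qq (y - io (a i))))) y = J⁻¹ * ∑ i, w i * Ph δ F (a i, y) := by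
      intro y
      rw [Finset.sum_apply, Finset.mul_sum]
      refine Finset.sum_congr rfl fun i _ => ?_
      simp only [Pi.smul_apply, smul_eq_mul, map_sub, pj_io, qq_io, sub_zero, Ph]
      field_simp
    have I : ∀ y, Integrable (fun a => Ph δ F (a, y)) ν := fun y => hν ▸
      ((Ph_diff h2).continuous.comp (by fun_prop)).continuousOn.integrableOn_compact hK
    have I2 : ∀ y, ∫ a, Ph δ F (a, y) ∂ν = ∫ a, Ph δ F (a, y) := fun y => hν ▸
      setIntegral_eq_integral_of_forall_compl_eq_zero fun a ha => by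
        by_contra h
        exact ha (Ph_mem h)
    have q1 := hq (fun a => Ph δ F (a, x) - Ph δ F (a, y)) (ε / 2 * J / c * ‖x - y‖)
      ((I x).sub (I y)) fun a _ a' _ hd => by
        have := hh' (a' - a, 0) (by
          rwa [Prod.norm_mk, norm_zero, max_eq_left (norm_nonneg _), ← dist_eq_norm']) (a', x) (a', y)
        simp only [Prod.mk_sub_mk, sub_sub_cancel, sub_zero, sub_self, Prod.norm_mk, norm_zero,
          max_eq_right (norm_nonneg _)] at this
        refine le_trans (le_of_eq ?_) this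
        congr 1
        ring
    have q2 := conv_lip δ0 h2.continuous x y fun b hb => hh (io b)
      ((io.le_opNorm b).trans_lt (by nlinarith [norm_nonneg io, norm_nonneg b])) x y
    rw [integral_sub (I x) (I y), I2, I2] at q1
    simp only [mul_sub, Finset.sum_sub_distrib] at q1
    rw [← hJ] at q2
    have q3 : ε / 2 * J / c * ‖x - y‖ * ν.real univ ≤ J * (ε / 2 * ‖x - y‖) := by
      calc _ ≤ ε / 2 * J / c * ‖x - y‖ * c := by
            gcongr
            linarith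
        _ = _ := by field_simp
    rw [Real.dist_eq, dist_eq_norm, Pi.sub_apply, Pi.sub_apply, e, e]
    refine le_of_mul_le_mul_left ?_ J0
    rw [← abs_of_pos J0, ← abs_mul, abs_of_pos J0]
    have q4 := abs_le.1 (q1.trans q3)
    have q5 := abs_le.1 q2
    rw [mul_sub, mul_sub, mul_sub, mul_inv_cancel_left₀ J0.ne', mul_inv_cancel_left₀ J0.ne', abs_le]
    constructor <;> nlinarith [q4.1, q4.2, q5.1, q5.2]

end Pool.Agent.Lib.MP_7f377f_mp.Ro
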