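import Pool.Agent.Lib.MP_7f377f_mp.G.RoA

/-! From the quadrant to the half space. -/

noncomputable section

namespace Pool.Agent.Lib.MP_7f377f_mp.Ro
variable [Pool.Agent.Lib.MP_7f377f_mp.GD]
set_option linter.unusedSectionVars false

open Filter Topology Set Real YM7 Pur MvPolynomial
open scoped NNReal

variable {W : Pol →ₗ[ℂ] ℂ} {H : Type} [NormedAddCommGroup H] [InnerProductSpace ℂ H]
  [CompleteSpace H] {r : net.Rep W 0 H} {k : ℕ} {Z Z' : Pol}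

/-- Reeh-Schlieder property of the quadrants -/
theorem H0.rs (h : H0 W) (r : net.Rep W 0 H) (R : ℝ) {d : ℝ} (d0 : 0 < d)
    (hZ : Z ∈ net.loc (Hs 0 0)) : r.Ψ (net.τ (ax 0 d) Z) ∈
      closure ((net.loc (Hs 0 0 ∩ Hs 2 R)).map r.Ψ : Set H) := by
  rw [← Submodule.topologicalClosure_coe, ← Submodule.orthogonal_orthogonal_eq_closure]
  refine (Submodule.mem_orthogonal _ _).2 fun y hy => ?_
  have e : ∀ t : ℝ, (ax 0 d + t • ax 2 1) 0 = d := fun t => by simp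
  let Λ : (H →L[ℂ] H) →L[ℂ] ℂ := (innerSL ℂ y).comp (ContinuousLinearMap.apply ℂ H (r.Ψ Z))
  have a : AnalyticOnNhd ℝ (fun t : ℝ => Λ (r.T (ax 0 d + t • ax 2 1))) univ := fun t _ =>
    ((Λ.restrictScalars ℝ).analyticAt _).comp
      (h.line r (ax 0 d) (ax 2 1) t (by rw [mem_ofPred_eq, e]; exact d0))
  obtain ⟨D, hD⟩ := net.bdd hZ
  have z := a.eqOn_zero_of_preconnected_of_eventuallyEq_zero isPreconnected_univ
    (mem_univ (R + D + 1)) ((lt_mem_nhds (lt_add_one (R + D))).mono fun t ht => by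
      change inner ℂ y (r.T _ (r.Ψ Z)) = 0
      rw [r.act ((e t).symm ▸ d0.le) hZ]
      refine Submodule.inner_left_of_mem_orthogonal (Submodule.mem_map_of_mem
        (net.mono (O' := Hs 0 0 ∩ Hs 2 R) (net.τ_mem _ hD) fun x hx => ⟨?_, ?_⟩)) hy
      · have := hx.1
        simp only [Hs, mem_ofPred_eq, PiLp.sub_apply, e] at this ⊢
        linarith
      · have := (abs_lt.1 (hx.2 2)).1
        simp [Hs] at this ⊢
        linarith) (mem_univ 0)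
  change inner ℂ y (r.T _ (r.Ψ Z)) = 0 at z
  rwa [r.act ((e 0).symm ▸ d0.le) hZ, zero_smul, add_zero] at z

omit [CompleteSpace H] in
theorem RoR.mem {U : Pol} {d m : ℝ} (hm : d ≤ m) (m0 : 0 ≤ m) (hU : U ∈ net.loc {y | |y 0| < d})
    (hZ : Z ∈ net.loc (Hs 0 0)) : net.τ (ax 0 m) (U * net.τ (ax 0 m) Z) ∈ net.loc (Hs 0 0) :=
  Net.τ_hs (t := -m) (net.mono (net.mul hU (Net.τ_hs (t' := m) hZ (by simp))
    (disjoint_left.2 fun _ e e' => ((le_abs_self _).trans_lt (hm.trans_lt' e)).not_gt e'))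
    (union_subset (fun y e => by
      have := (abs_lt.1 (show |y 0| < d from e)).1
      change -m < y 0
      linarith) fun y e => by
      change -m < y 0
      linarith [show m < y 0 from e])) (by simp)

theorem H0.thin_hs (h : H0 W) (r : net.Rep W 0 H) {U : Pol} {R d m C : ℝ} (d0 : 0 < d) (hm : d ≤ m)
    (hU : U ∈ net.loc {y | |y 0| < d}) (hC : ∀ b ∈ net.loc (Hs 0 0 ∩ Hs 2 R),
      ‖r.Ψ (net.τ (ax 0 m) (U * net.τ (ax 0 m) b))‖ ≤ C * ‖r.Ψ b‖) (C0 : 0 ≤ C)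
    (hZ : Z ∈ net.loc (Hs 0 0)) :
    ‖r.Ψ (net.τ (ax 0 (m + d)) (U * net.τ (ax 0 (m + d)) Z))‖ ≤ C * ‖r.Ψ Z‖ := by
  have m0 := d0.le.trans hm
  have z1 : net.τ (ax 0 d) Z ∈ net.loc (Hs 0 0) := Net.τ_hs hZ (by simpa using d0.le)
  have a1 := RoR.mem hm m0 hU z1
  rw [add_comm m d, ← ax_add, ← net.τ_τ, add_comm (ax 0 d), ← net.τ_τ]
  refine (r.le (by simpa using d0.le) a1).trans ?_
  obtain ⟨a, ha⟩ : ∃ a, a = net.τ (ax 0 m) (U * net.τ (ax 0 m) (net.τ (ax 0 d) Z)) := ⟨_, rfl⟩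
  have a2 : a ∈ net.loc (Hs 0 0) := ha ▸ a1
  have a3 := RoR.mem hm m0 (net.mono (net.Θ_mem 0 hU) fun y hy => by simpa using hy) a2
  have key : ∀ b ∈ net.loc (Hs 0 0), inner ℂ (r.Ψ a) (r.Ψ (net.τ (ax 0 m) (U * net.τ (ax 0 m) b))) =
      inner ℂ (r.Ψ (net.τ (ax 0 m) (net.Θ 0 U * net.τ (ax 0 m) a))) (r.Ψ b) := fun b hb => by
    have b1 := RoR.mem hm m0 hU hb
    rw [r.inn a2 b1, r.inn a3 hb, ← h.st.ti (ax 0 (m + m)) (Net.rp_adm a3 hb)]
    simp only [map_mul, net.Θ_τ, net.Θ_Θ, net.τ_τ, rf_ax, ax_add]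
    rw [show m + m + -(m + m) = 0 by ring, show m + m + -m = m by ring, ax_zero, net.τ_zero]
    exact congrArg W (by ring)
  have cl : IsClosed {x : H | ‖inner ℂ (r.Ψ (net.τ (ax 0 m) (net.Θ 0 U * net.τ (ax 0 m) a))) x‖ ≤
      ‖r.Ψ a‖ * (C * ‖x‖)} := isClosed_le (by fun_prop) (by fun_prop)
  have k1 := closure_minimal (t := {x : H | _}) (by
    rintro _ ⟨b, hb, rfl⟩
    rw [mem_ofPred_eq, ← key b (net.mono hb inter_subset_left)]
    exact (norm_inner_le_norm _ _).trans (mul_le_mul_of_nonneg_left (hC b hb) (norm_nonneg _)))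
    cl (h.rs r R d0 hZ)
  rw [mem_ofPred_eq, ← key _ z1, ← ha, inner_self_eq_norm_sq_to_K, norm_pow, RCLike.norm_ofReal,
    abs_norm, sq] at k1
  rw [← ha]
  refine le_trans ?_ (mul_le_mul_of_nonneg_left (r.le (v := ax 0 d) (by simpa using d0.le) hZ) C0)
  rcases (norm_nonneg (r.Ψ a)).eq_or_lt with e | e
  · rw [← e]
    positivity
  · exact le_of_mul_le_mul_left k1 e

theorem H0.thinO (h : H0 W) (r : net.Rep W 0 H) :
    ∃ c ≥ 1, ∃ δ : ℕ → ℝ, Tendsto δ atTop (𝓝[>] 0) ∧ ThinO r c δ := by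
  obtain ⟨c, c1, δ, hδ, hT⟩ := h.thin
  refine ⟨c + 1, by linarith, δ, hδ, fun R ε ε0 => ?_⟩
  obtain ⟨R', hT⟩ := hT R
  filter_upwards [hT ε ε0, hδ.eventually self_mem_nhdsWithin] with n hn d0 u L hu
  replace d0 : 0 < δ n := d0
  have hm : δ n ≤ c * δ n := le_mul_of_one_le_left d0.le c1
  have hU : X u ∈ net.loc {y | |y 0| < δ n} :=
    PN.Gd.mem ⟨hu.1, hu.2.1, fun y hy => (hu.2.2.2 y hy).1⟩
  have C0 : 0 ≤ ε * L / δ n := by positivity
  let e := r.Ψ ∘ₗ (net.loc (Hs 0 0)).subtype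
  let f := r.Ψ ∘ₗ (net.τ (ax 0 ((c + 1) * δ n))).toLinearMap ∘ₗ LinearMap.mulLeft ℂ (X u) ∘ₗ
    (net.τ (ax 0 ((c + 1) * δ n))).toLinearMap ∘ₗ (net.loc (Hs 0 0)).subtype
  have hb : ∀ x, ‖f x‖ ≤ ε * L / δ n * ‖e x‖ := fun x => by
    have := h.thin_hs r d0 hm hU (fun b hb => by
      have b1 := net.mono hb inter_subset_left
      have := hn u L hu b hb
      rw [r.nq (RoR.mem hm (d0.le.trans hm) hU b1), r.nq b1, ← mul_pow] at this
      exact le_of_sq_le_sq this (by positivity)) C0 x.2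
    rwa [← add_one_mul] at this
  exact ⟨f.extendOfNorm e, fun b hb' => LinearMap.extendOfNorm_eq r.dense ⟨_, hb⟩ ⟨b, hb'⟩,
    LinearMap.opNorm_extendOfNorm_le r.dense C0 hb⟩

end Pool.Agent.Lib.MP_7f377f_mp.Ro
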