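import Pool.Agent.Lib.MP_7f377f_mp.G.RoD1
import Pool.Agent.Lib.MP_7f377f_mp.G.RoR
import Pool.Agent.Lib.MP_7f377f_mp.G.RoC
import Pool.Agent.Lib.MP_7f377f_mp.G.RoB

/-! Slow growth of the continuations. -/

noncomputable section

namespace Pool.Agent.Lib.MP_7f377f_mp.Ro
variable [Pool.Agent.Lib.MP_7f377f_mp.GD]
set_option linter.unusedSectionVars false

open Filter Topology Set Real YM7 Pur MvPolynomial
open scoped NNReal

set_option linter.unusedSectionVars false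

variable {W : Pol →ₗ[ℂ] ℂ} {H : Type} [NormedAddCommGroup H] [InnerProductSpace ℂ H]
  [CompleteSpace H] {r : net.Rep W 0 H} {k : ℕ} {Z Z' : Pol}

namespace RoD2

variable {δ R A m Y κ β : ℝ} {K K' : Set R4} {F : R4 → ℝ}

/-- planar neighbourhoods -/
def Nb (t : ℝ) (K : Set R4) : Set R4 := {y | ∃ x ∈ K, |y 0 - x 0| ≤ t ∧ |y 1 - x 1| ≤ t}

theorem nb_cz {t : ℝ} (h : K ⊆ Cz (m + 5 * t)) : Nb t K ⊆ Cz m := fun y ⟨x, hx, h0, h1⟩ => by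
  have : 4 * |x 1| + (m + 5 * t) < x 0 := h hx
  change 4 * |y 1| + m < y 0
  linarith [(abs_le.1 h0).1, abs_sub_abs_le_abs_sub (y 1) (x 1)]

theorem nb_ord {s t : ℝ} (h : ∀ x ∈ K, ∀ y ∈ K', y - x ∈ Cz (m + 5 * s + 5 * t)) :
    ∀ x ∈ Nb s K, ∀ y ∈ Nb t K', y - x ∈ Cz m := fun x ⟨x', hx, a0, a1⟩ y ⟨y', hy, b0, b1⟩ => by
  have : 4 * |y' 1 - x' 1| + (m + 5 * s + 5 * t) < y' 0 - x' 0 := h x' hx y' hy
  change 4 * |y 1 - x 1| + m < y 0 - x 0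
  have e : |y 1 - x 1| ≤ |y' 1 - x' 1| + s + t := by
    rw [abs_le] at a1 b1 ⊢
    constructor <;> linarith [le_abs_self (y' 1 - x' 1), neg_abs_le (y' 1 - x' 1)]
  linarith [(abs_le.1 a0).2, (abs_le.1 b0).1]

theorem cz_dist {x y : R4} (h : y - x ∈ Cz m) : m ≤ dist x y := by
  have h1 : 4 * |(y - x) 1| + m < (y - x) 0 := h
  rw [dist_comm, dist_eq_norm]
  linarith [abs_nonneg ((y - x) 1), (le_abs_self _).trans (PiLp.norm_apply_le (y - x) 0)]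

theorem gd_comp {O : Set R4} {u : R4 → ℝ} (h : PN.Gd O u) (e : R4 ≃ₜ R4) (he : ContDiff ℝ 1 e) :
    PN.Gd (e ⁻¹' O) fun y => u (e y) :=
  ⟨h.1.comp_homeomorph e, h.2.1.comp he, fun _ hy => h.2.2 (tsupport_comp e.continuous hy)⟩

theorem atom {u : R4 → ℝ} {L : ℝ≥0} (h : Tn δ R L u) (hδ : δ ≤ 1 / 4) {a : R4}
    (ha : a ∈ Nb (1 / 4) K) :
    PN.Gd (Nb (1 / 2) K ∩ {y | ‖y - a‖ ≤ R}) fun y => u (y - a) := by
  have := gd_comp (O := tsupport u) ⟨h.1, h.2.1, subset_rfl⟩ (Homeomorph.subRight a)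
    (contDiff_id.sub contDiff_const)
  refine ⟨this.1, this.2.1, fun y hy => ?_⟩
  obtain ⟨h0, h1, h2⟩ := h.2.2.2 _ (this.2.2 hy)
  obtain ⟨x, hx, a0, a1⟩ := ha
  simp only [Homeomorph.subRight_apply, PiLp.sub_apply] at h0 h1
  refine ⟨⟨x, hx, ?_, ?_⟩, h2⟩
  · linarith [abs_sub_le (y 0) (a 0) (x 0)]
  · linarith [abs_sub_le (y 1) (a 1) (x 1)]

theorem nrm_pl {a : R4} {ρ : ℝ} (a2 : a 2 = 0) (a3 : a 3 = 0) (ha : a ∈ Nb (1 / 4) K)
    (hK : ∀ x ∈ K, ‖x‖ ≤ ρ) : ‖a‖ ≤ 2 * ρ + 1 := by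
  obtain ⟨x, hx, a0, a1⟩ := ha
  have e : a = ax 0 (a 0) + ax 1 (a 1) := by
    ext i
    fin_cases i <;> simp [a2, a3]
  rw [e]
  refine (norm_add_le _ _).trans ?_
  rw [PiLp.norm_single, PiLp.norm_single, norm_eq_abs, norm_eq_abs]
  have b0 : |x 0| ≤ ρ := (PiLp.norm_apply_le x 0).trans (hK x hx)
  have b1 : |x 1| ≤ ρ := (PiLp.norm_apply_le x 1).trans (hK x hx)
  linarith [abs_sub_abs_le_abs_sub (a 0) (x 0), abs_sub_abs_le_abs_sub (a 1) (x 1)]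

theorem atm_gd (h : Atm δ R A K F) (hδ : δ ≤ 1 / 4) : PN.Gd (Nb (1 / 2) K) F := by
  obtain ⟨N, w, a, u, -, -, h3, rfl⟩ := h
  exact PN.Gd.sum _ (fun i => let ⟨_, _, ht⟩ := (h3 i).2.2.2.1
    let e := atom ht hδ (h3 i).2.2.1
    ⟨e.1, e.2.1, e.2.2.trans inter_subset_left⟩) w

theorem atm_gd' (h : Atm δ R A K F) (hδ : δ ≤ 1 / 4) {ρ : ℝ} (hK : ∀ x ∈ K, ‖x‖ ≤ ρ) :
    PN.Gd (Nb (1 / 2) K ∩ {y | ‖y‖ ≤ R + (2 * ρ + 1)}) F := by
  obtain ⟨N, w, a, u, -, -, h3, rfl⟩ := h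
  refine PN.Gd.sum _ (fun i => ?_) w
  obtain ⟨a2, a3, ha, ⟨_, -, ht⟩, -⟩ := h3 i
  have e := atom ht hδ ha
  refine ⟨e.1, e.2.1, fun y hy => ⟨(e.2.2 hy).1, ?_⟩⟩
  have h1 : ‖y - a i‖ ≤ R := (e.2.2 hy).2
  change ‖y‖ ≤ _
  linarith [nrm_pl a2 a3 ha hK, norm_sub_norm_le y (a i)]

theorem atm_mono {R' A' : ℝ} (h : Atm δ R A K F) (δ0 : 0 < δ) (hR : R ≤ R') (hA : A ≤ A') :
    Atm δ R' A' K F :=
  let ⟨N, w, a, u, h1, h2, h3, h4⟩ := h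
  ⟨N, w, a, u, h1, h2, fun i => let ⟨a2, a3, ha, ⟨L, l1, t⟩, hr⟩ := h3 i
    ⟨a2, a3, ha, ⟨L, l1.trans (by gcongr), t.1, t.2.1, t.2.2.1, fun y hy =>
      let e := t.2.2.2 y hy; ⟨e.1, e.2.1, e.2.2.trans hR⟩⟩, hr⟩, h4⟩

theorem atm_shift (h : Atm δ R A K F) {v : R4} (v2 : v 2 = 0) (v3 : v 3 = 0) :
    Atm δ R A {y | y - v ∈ K} fun y => F (y - v) := by
  obtain ⟨N, w, a, u, h1, h2, h3, rfl⟩ := h
  refine ⟨N, w, fun i => a i + v, u, h1, h2, fun i => ?_, ?_⟩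
  · obtain ⟨a2, a3, ⟨x, hx, b0, b1⟩, h4⟩ := h3 i
    exact ⟨by simp [a2, v2], by simp [a3, v3], ⟨x + v, by simpa using hx, by simpa using b0,
      by simpa using b1⟩, h4⟩
  · funext y
    simp only [Finset.sum_apply, Pi.smul_apply, sub_sub, add_comm v]

/-- ordered families of sums of thin functions -/
def Fm (δ R A : ℝ) (K : Fin k → Set R4) (g : Fin k → R4 → ℝ) : Prop :=
  (∀ i, Atm δ R A (K i) (g i)) ∧ (∀ i, K i ⊆ Cz 4) ∧
    ∀ i j, i < j → ∀ x ∈ K i, ∀ y ∈ K j, y - x ∈ Cz 8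

variable {g : Fin k → R4 → ℝ} {Q : Fin k → Set R4}

theorem sep (h : ∀ i j, i < j → ∀ x ∈ Q i, ∀ y ∈ Q j, y - x ∈ Cz 8) (i j : Fin k) (hij : i ≠ j) :
    ∀ x ∈ Nb (1 / 2) (Q i), ∀ y ∈ Nb (1 / 2) (Q j), 3 ≤ dist x y := fun x hx y hy => by
  rcases lt_or_gt_of_ne hij with e | e
  · exact cz_dist (nb_ord (fun a ha b hb => Cz.mono (by norm_num) (h i j e a ha b hb)) x hx y hy)
  · rw [dist_comm]
    exact cz_dist (nb_ord (fun a ha b hb => Cz.mono (by norm_num) (h j i e a ha b hb)) y hy x hx)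

theorem Fm.adm (h : Fm δ R A Q g) (hδ : δ ≤ 1 / 4) : Adm g :=
  ⟨fun i => ⟨(atm_gd (h.1 i) hδ).1, (atm_gd (h.1 i) hδ).2.1⟩, fun i j hij => disjoint_left.2
    fun y a b => by
      have := sep h.2.2 i j hij y ((atm_gd (h.1 i) hδ).2.2 a) y ((atm_gd (h.1 j) hδ).2.2 b)
      rw [dist_self] at this
      norm_num at this⟩

theorem Fm.cz (h : Fm δ R A Q g) (hδ : δ ≤ 1 / 4) (i : Fin k) : tsupport (g i) ⊆ Cz 1 :=
  (atm_gd (h.1 i) hδ).2.2.trans (nb_cz ((h.2.1 i).trans (Cz.mono (by norm_num))))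

theorem Fm.tail {g : Fin (k + 1) → R4 → ℝ} {Q : Fin (k + 1) → Set R4} (h : Fm δ R A Q g) {a : R4}
    (a2 : a 2 = 0) (a3 : a 3 = 0) (ha : a ∈ Nb (1 / 4) (Q 0)) :
    Fm δ R A (fun i => {y | y - -(a + ax 0 1) ∈ Q i.succ}) fun i y => g i.succ (y - -(a + ax 0 1)) := by
  refine ⟨fun i => atm_shift (h.1 _) (by simp [a2]) (by simp [a3]), fun i y hy => ?_,
    fun i j hij x hx y hy => ?_⟩
  · have := nb_ord (s := 1 / 4) (t := 0) (m := 5) (fun a ha b hb => Cz.mono (by norm_num)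
      (h.2.2 0 i.succ i.succ_pos a ha b hb)) a ha (y - -(a + ax 0 1))
      ⟨_, hy, by rw [sub_self, abs_zero], by rw [sub_self, abs_zero]⟩
    simp only [Cz, mem_ofPred_eq, PiLp.sub_apply, PiLp.neg_apply, PiLp.add_apply,
      PiLp.single_apply, if_true, show ¬ (1 : Fin 4) = 0 by decide, if_false] at this ⊢
    rw [show y 1 - -(a 1 + 0) - a 1 = y 1 by ring] at this
    linarith
  · simpa using h.2.2 _ _ (Fin.succ_lt_succ_iff.2 hij) _ hx _ hy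

theorem slot_rot (hW : H0 W) {O : Set R4} {I : Type} (s : Finset I) {G : I → R4 → ℝ}
    (hg : ∀ z, PN.Gd O (G z)) (c : I → ℝ) (hO : O ⊆ Cz 0) (hZ : Z ∈ net.loc (Cz 0 ∩ Oᶜ)) {φ : ℝ}
    (hφ : |φ| < 1) : r.Ψ (act (rot 0 φ) (X (∑ z ∈ s, c z • G z) * Z)) =
      r.Ψ (act (rot 0 φ) (∑ z ∈ s, (c z : ℂ) • (X (G z) * Z))) := by
  have p : ∀ y, (rot 0 φ).symm y ∈ Cz 0 → y ∈ Hs 0 0 := fun y hy => by
    have h1 := rot_cz le_rfl hy hφ
    have h2 : 4 * |(rot 0 φ).symm y 1| + 0 < (rot 0 φ).symm y 0 := hy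
    rw [LinearIsometryEquiv.apply_symm_apply] at h1
    change 0 < y 0
    linarith [abs_nonneg ((rot 0 φ).symm y 1)]
  have := slot hW.st hW.lin r s (fun z => gd_comp (hg z) (rot 0 φ).symm.toHomeomorph
    (rot 0 φ).symm.contDiff) c (fun y hy => p y (hO hy))
    (net.mono (act_mem (rot 0 φ) hZ) fun y hy => ⟨p y hy.1, hy.2⟩)
  simp only [map_sum, map_smul, map_mul (act _), act_X]
  refine Eq.trans ?_ this
  congr 3
  funext y
  simp only [Finset.sum_apply, Pi.smul_apply]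
  rfl

theorem step (hW : H0 W) (Y0 : 0 < Y) (hδ : δ ≤ 1 / 4) (hd : δ ≤ m) (m0 : 0 < m)
    (hm : 8 * m ≤ exp (-Y)) (β0 : 0 ≤ β) (κ0 : 0 ≤ κ)
    (hM : ∀ u (L : ℝ≥0), L ≤ A / δ ^ 3 → Tn δ R L u → ∃ M, Fop r m u M ∧ ‖M‖ ≤ κ)
    {g : Fin (k + 1) → R4 → ℝ} {Q : Fin (k + 1) → Set R4} (h : Fm δ R A Q g)
    (hE : ∀ a : R4, a 2 = 0 → a 3 = 0 → a ∈ Nb (1 / 4) (Q 0) →
      Ext r Y β (mon fun (i : Fin k) y => g i.succ (y - -(a + ax 0 1)))) :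
    Ext r Y (κ * β) (mon g) := by
  have t0 : mon (fun i : Fin k => g i.succ) ∈ net.loc (Cz 0 ∩ (Nb (1 / 2) (Q 0))ᶜ) :=
    mon_mem ⟨fun i => (h.adm hδ).1 _, fun i j hij => (h.adm hδ).2
      ((Fin.succ_injective _).ne hij)⟩ fun i y hy => ⟨Cz.mono zero_le_one (h.cz hδ _ hy), fun e => by
        have := sep h.2.2 _ _ i.succ_ne_zero y ((atm_gd (h.1 _) hδ).2.2 hy) y e
        rw [dist_self] at this
        norm_num at this⟩
  obtain ⟨N, w, a, u, h1, h2, h3, h4⟩ := h.1 0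
  have key := Ext.sum (r := r) (Y := Y) Finset.univ (β := fun i => w i * (κ * β))
    (Z := fun i => (w i : ℂ) • (X (fun y => u i (y - a i)) * mon fun i : Fin k => g i.succ))
    fun i _ => by
      obtain ⟨a2, a3, ha, ⟨L, l1, t⟩, hr⟩ := h3 i
      obtain ⟨M, M1, M2⟩ := hM _ L l1 t
      have ft := h.tail a2 a3 ha
      have e := Ext.step hW (hE _ a2 a3 ha) (mon_mem (ft.adm hδ) fun j =>
        (ft.cz hδ j).trans (Cz.mono zero_le_one)) Y0 m0 hm M1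
        (PN.Gd.mem ⟨t.1, t.2.1, fun y hy => (t.2.2.2 y hy).1.trans_le hd⟩) hr a2 a3
        (nb_cz ((h.2.1 0).trans (Cz.mono (by norm_num))) ha)
      rw [← τ_mon, map_mul, net.τ_τ, net.τ_τ, add_neg_cancel, net.τ_zero] at e
      have e2 := (e.mono (mul_le_mul_of_nonneg_right M2 β0)).smul (w i : ℂ)
      have e3 : net.τ (a i) (X (u i)) = X fun y => u i (y - a i) := rename_X _ _
      rwa [Complex.norm_real, norm_of_nonneg (h1 i), e3] at e2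
  refine (key.mono ?_).congr fun φ hφ => ?_
  · rw [← Finset.sum_mul]
    exact mul_le_of_le_one_left (by positivity) h2
  · rw [← slot_rot hW Finset.univ (O := Nb (1 / 2) (Q 0)) (fun i =>
      let ⟨_, _, ha, ⟨_, _, t⟩, _⟩ := h3 i
      let e := atom t hδ ha
      ⟨e.1, e.2.1, e.2.2.trans inter_subset_left⟩) w
      (nb_cz ((h.2.1 0).trans (Cz.mono (by norm_num)))) t0 hφ, ← h4, mon, Fin.prod_univ_succ]
    rfl

theorem crude (hW : H0 W) (Y0 : 0 < Y) (hδ : δ ≤ 1 / 4) (hd : δ ≤ m) (m0 : 0 < m)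
    (hm : 8 * m ≤ exp (-Y)) (κ0 : 0 ≤ κ)
    (hM : ∀ u (L : ℝ≥0), L ≤ A / δ ^ 3 → Tn δ R L u → ∃ M, Fop r m u M ∧ ‖M‖ ≤ κ) :
    ∀ (k : ℕ) (g : Fin k → R4 → ℝ) (Q : Fin k → Set R4), Fm δ R A Q g →
      Ext r Y (κ ^ k) (mon g) := by
  intro k
  induction k with
  | zero => exact fun g _ _ => by simpa [mon] using Ext.one hW.st r Y
  | succ k ih =>
    intro g Q h
    rw [pow_succ']
    exact step hW Y0 hδ hd m0 hm (by positivity) κ0 hM h fun a a2 a3 ha => ih _ _ (h.tail a2 a3 ha)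

theorem rot_pos {y : R4} {φ : ℝ} (hφ : |φ| < 1) (hy : (rot 0 φ).symm y ∈ Cz 1) : 1 / 4 ≤ y 0 := by
  have h1 := rot_cz zero_le_one hy hφ
  have h2 : 4 * |(rot 0 φ).symm y 1| + 1 < (rot 0 φ).symm y 0 := hy
  rw [LinearIsometryEquiv.apply_symm_apply] at h1
  linarith [abs_nonneg ((rot 0 φ).symm y 1)]

theorem lip_rot {L : ℝ≥0} (h : LipschitzWith L F) (e : Iso) : LipschitzWith L fun y => F (e y) :=
  .of_dist_le_mul fun x y => by rw [← e.dist_map]; exact h.dist_le_mul _ _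

theorem lip_sub {L : ℝ≥0} (h : LipschitzWith L F) (v : R4) : LipschitzWith L fun y => F (y - v) :=
  .of_dist_le_mul fun x y => by rw [← dist_sub_right x y v]; exact h.dist_le_mul _ _

theorem gd_rot {O : Set R4} {u : R4 → ℝ} (h : PN.Gd O u) (e : Iso) :
    PN.Gd {y | e y ∈ O} fun y => u (e y) := gd_comp h e.toHomeomorph e.contDiff

theorem close (h : H0 W) (r : net.Rep W 0 H) (k : ℕ) (ρ : ℝ) (L : ℝ≥0) : ∃ C ≥ 0,
    ∀ (f g : Fin k → R4 → ℝ) (O : Fin k → Set R4) (ε : ℝ≥0), ε ≤ 1 →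
      (∀ i, PN.Gd (O i) (f i) ∧ PN.Gd (O i) (g i) ∧ LipschitzWith L (g i) ∧
        LipschitzWith ε (f i - g i)) → (∀ i, ∀ y ∈ O i, ‖y‖ ≤ ρ ∧ y ∈ Cz 1) →
      (∀ i j, i ≠ j → ∀ x ∈ O i, ∀ y ∈ O j, 3 ≤ dist x y) → ∀ φ : ℝ, |φ| < 1 →
      ‖r.Ψ (act (rot 0 φ) (mon f)) - r.Ψ (act (rot 0 φ) (mon g))‖ ≤ C * ε := by
  obtain ⟨C, C0, hC⟩ := near h.st h.lin h.qual r k ρ (δ := 1 / 4) (by norm_num) L
  refine ⟨C, C0, fun f g O ε ε1 h1 h2 h3 φ hφ => ?_⟩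
  rw [act_mon, act_mon]
  refine hC _ _ (fun i => {y | (rot 0 φ).symm y ∈ O i}) ε ε1 (fun i => ⟨gd_rot (h1 i).1 _,
    gd_rot (h1 i).2.1 _, lip_rot (h1 i).2.2.1 _, lip_rot (h1 i).2.2.2 _⟩)
    (fun i y hy => ⟨?_, rot_pos hφ (h2 i _ hy).2⟩) fun i j hij x hx y hy => ?_
  · rw [← (rot 0 φ).symm.norm_map]
    exact (h2 i _ hy).1
  · have := h3 i j hij _ hx _ hy
    rw [LinearIsometryEquiv.dist_map] at this
    linarith

theorem bound (h : H0 W) (r : net.Rep W 0 H) (k : ℕ) (ρ : ℝ) (L : ℝ≥0) : ∃ β ≥ 0,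
    ∀ f : Fin k → R4 → ℝ, Adm f → (∀ i, LipschitzWith L (f i) ∧
      ∀ y ∈ tsupport (f i), ‖y‖ ≤ ρ ∧ y ∈ Cz 1) →
      (∀ i j, i ≠ j → ∀ x ∈ tsupport (f i), ∀ y ∈ tsupport (f j), 3 ≤ dist x y) →
      ∀ φ : ℝ, |φ| < 1 → ‖r.Ψ (act (rot 0 φ) (mon f))‖ ≤ β := by
  obtain ⟨D, D0, hD⟩ := bd h.qual r k ρ (δ := 1 / 4) (by norm_num)
  refine ⟨D * (∏ _i : Fin k, L : ℝ≥0), by positivity, fun f hf h1 h2 φ hφ => ?_⟩
  rw [act_mon]
  have s : ∀ i y, y ∈ tsupport (fun y => f i ((rot 0 φ).symm y)) →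
      (rot 0 φ).symm y ∈ tsupport (f i) := fun i y hy => tsupport_comp (rot 0 φ).symm.continuous hy
  refine hD _ (fun _ => L) (adm_act hf _) (fun i => ⟨lip_rot (h1 i).1 _, fun y hy =>
    ⟨?_, rot_pos hφ ((h1 i).2 _ (s i y hy)).2⟩⟩) fun i j hij x hx y hy => ?_
  · rw [← (rot 0 φ).symm.norm_map]
    exact ((h1 i).2 _ (s i y hy)).1
  · have := h2 i j hij _ (s i x hx) _ (s j y hy)
    rw [LinearIsometryEquiv.dist_map] at this
    linarith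

end RoD2

open RoD2

theorem H0.app (h : H0 W) (r : net.Rep W 0 H) : ∃ Y : ℕ → ℝ, Tendsto Y atTop atTop ∧
    ∀ b : ℕ, (∀ k ≤ 2 * b, ∀ φ, InvN W k (rot 0 φ)) → ∀ k ≤ b + 1, ∀ f : Fin k → R4 → ℝ, Ord f →
      App r Y (mon f) := by
  obtain ⟨c, c1, δ, hδ, hT⟩ := h.thinO r
  have c0 : 0 < c := by linarith
  have tY : Tendsto (fun n => -log (8 * (c * δ n))) atTop atTop := by
    refine tendsto_neg_atBot_atTop.comp (tendsto_log_nhdsGT_zero.comp ?_)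
    refine tendsto_nhdsWithin_iff.2 ⟨?_, ?_⟩
    · simpa using ((tendsto_nhds_of_tendsto_nhdsWithin hδ).const_mul c).const_mul 8
    · filter_upwards [hδ.eventually self_mem_nhdsWithin] with n (hn : 0 < δ n)
      exact (by positivity : 0 < 8 * (c * δ n))
  refine ⟨_, tY, fun b hI k hk f hf ε ε0 => ?_⟩
  cases k with
  | zero =>
    filter_upwards [tY.eventually_ge_atTop ε⁻¹] with n hn
    refine ⟨1, net.one _, (Ext.one h.st r _).mono ?_, fun φ _ => by simp [mon, ε0.le]⟩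
    have := add_one_le_exp (4 * -log (8 * (c * δ n)))
    rw [← inv_mul_le_iff₀ ε0]
    linarith [inv_pos.2 ε0]
  | succ k =>
    choose R A A0 hA using fun i => apx (hf.1.1 i).1 (hf.1.1 i).2
    choose ρ hρ using fun i => (hf.1.1 i).1.isCompact.isBounded.exists_norm_le
    choose L hL using fun i => (hf.1.1 i).2.lipschitzWith_of_hasCompactSupport (hf.1.1 i).1
      one_ne_zero
    obtain ⟨R', hR⟩ := (Set.finite_range R).bddAbove
    obtain ⟨A', hA'⟩ := (Set.finite_range A).bddAbove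
    obtain ⟨ρ', hρ'⟩ := (Set.finite_range ρ).bddAbove
    obtain ⟨L', hL'⟩ := (Set.finite_range L).bddAbove
    have a0 : 0 ≤ A' := (A0 0).trans (hA' ⟨0, rfl⟩)
    have bK : ∀ i, ∀ x ∈ tsupport (f i), ‖x‖ ≤ |ρ'| := fun i x hx =>
      (hρ i x hx).trans ((hρ' ⟨i, rfl⟩).trans (le_abs_self _))
    have lf : ∀ i, LipschitzWith L' (f i) := fun i => (hL i).weaken (hL' ⟨i, rfl⟩)
    obtain ⟨C, C0, hC⟩ := close h r (k + 1) (|R'| + (2 * |ρ'| + 1)) L'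
    obtain ⟨β, β0, hD⟩ := bound h r k (|R'| + (2 * |ρ'| + 1) + (2 * |ρ'| + 1 + 1)) (L' + 1)
    obtain ⟨η, η0, η1, η2⟩ : ∃ η : ℝ≥0, 0 < η ∧ η ≤ 1 ∧ C * η ≤ ε := by
      refine ⟨⟨min 1 (ε / (C + 1)), by positivity⟩, (by positivity : 0 < min 1 (ε / (C + 1))),
        min_le_left (1 : ℝ) _, (mul_le_mul_of_nonneg_left (min_le_right (1 : ℝ) _) C0).trans ?_⟩
      rw [← mul_div_assoc, div_le_iff₀ (by positivity)]
      nlinarith
    set θ : ℝ := ε / ((A' + 1) * (β + 1) * (8 * c) ^ 4) with hθ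
    filter_upwards [hT |R'| θ (by positivity), hδ.eventually self_mem_nhdsWithin,
      tY.eventually_gt_atTop 0, hδ.eventually (eventually_all.2 fun i => hA i η η0),
      (tendsto_nhds_of_tendsto_nhdsWithin hδ).eventually (ge_mem_nhds (show (0 : ℝ) < 1 / 4 by
        norm_num))] with n h1 (δ0 : 0 < δ n) Y0 h2 δ1
    choose g g1 g2 using h2
    have F : Fm (δ n) |R'| A' (fun i => tsupport (f i)) g := ⟨fun i => atm_mono (g1 i) δ0
      ((hR ⟨i, rfl⟩).trans (le_abs_self _)) (hA' ⟨i, rfl⟩),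
      fun i => (hf.2.1 i).trans (Cz.mono (by norm_num)), hf.2.2⟩
    have hm : 8 * (c * δ n) ≤ exp (- -log (8 * (c * δ n))) := by
      rw [neg_neg, exp_log (by positivity)]
    have hd : δ n ≤ c * δ n := le_mul_of_one_le_left δ0.le c1
    have hM : ∀ u (L : ℝ≥0), L ≤ A' / δ n ^ 3 → Tn (δ n) |R'| L u →
        ∃ M, Fop r (c * δ n) u M ∧ ‖M‖ ≤ θ * (A' / δ n ^ 3) / δ n := fun u L l t =>
      let ⟨M, m1, m2⟩ := h1 u L t
      ⟨M, m1, m2.trans (by gcongr)⟩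
    have lg : ∀ i, LipschitzWith (L' + 1) (g i) := fun i => by
      simpa using (lf i).add ((g2 i).weaken η1)
    have gd := fun i => atm_gd' (F.1 i) δ1 (bK i)
    refine ⟨mon g, mon_mem (F.adm δ1) fun i => (F.cz δ1 i).trans (Cz.mono zero_le_one),
      (step h Y0 δ1 hd (by positivity) hm β0 (by positivity) hM F fun a a2 a3 ha => ?_).mono ?_,
      fun φ hφ => ?_⟩
    · have ft := F.tail a2 a3 ha
      refine (crude h Y0 δ1 hd (by positivity) hm (by positivity) hM k _ _ ft).improve (ft.adm δ1)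
        (fun i => (ft.cz δ1 i).trans (Cz.mono zero_le_one)) (hI _ (by omega)) fun φ hφ => ?_
      refine hD _ (ft.adm δ1) (fun i => ⟨lip_sub (lg _) _, fun y hy => ⟨?_, ft.cz δ1 i hy⟩⟩)
        (fun i j hij x hx y hy => sep ft.2.2 i j hij _ ((atm_gd (ft.1 i) δ1).2.2 hx) _
          ((atm_gd (ft.1 j) δ1).2.2 hy)) φ hφ
      have e1 : ‖y - -(a + ax 0 1)‖ ≤ |R'| + (2 * |ρ'| + 1) :=
        ((gd i.succ).2.2 (tsupport_comp (θ := fun y => y - -(a + ax 0 1)) (by fun_prop) hy)).2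
      have e2 := norm_add_le a (ax 0 1)
      have e3 := norm_sub_norm_le y (-(a + ax 0 1))
      rw [PiLp.norm_single, norm_one] at e2
      rw [norm_neg] at e3
      linarith [nrm_pl a2 a3 ha (bK 0)]
    · rw [show (4 : ℝ) * -log (8 * (c * δ n)) = -((4 : ℕ) * log (8 * (c * δ n))) by push_cast; ring,
        exp_neg, exp_nat_mul, exp_log (by positivity), hθ]
      have e : ε / ((A' + 1) * (β + 1) * (8 * c) ^ 4) * (A' / δ n ^ 3) / δ n * β =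
          ε * ((8 * (c * δ n)) ^ 4)⁻¹ * (A' / (A' + 1) * (β / (β + 1))) := by
        field_simp
      rw [e]
      refine mul_le_of_le_one_right (by positivity) (mul_le_one₀ ?_ (by positivity) ?_) <;>
        exact (div_le_one (by positivity)).2 (by linarith)
    · refine (hC _ _ _ η η1 (fun i => ⟨gd i, ⟨(hf.1.1 i).1, (hf.1.1 i).2, fun y hy =>
        ⟨⟨y, hy, by simp, by simp⟩, ?_⟩⟩, lf i, g2 i⟩) (fun i y hy =>
          ⟨hy.2, nb_cz ((hf.2.1 i).trans (Cz.mono (by norm_num))) hy.1⟩)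
        (fun i j hij x hx y hy => sep hf.2.2 i j hij _ hx.1 _ hy.1) φ hφ).trans η2
      change ‖y‖ ≤ _
      linarith [bK i y hy, abs_nonneg R', abs_nonneg ρ']

end Pool.Agent.Lib.MP_7f377f_mp.Ro
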