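import Pool.Agent.Lib.MP_7f377f_mp.G.PlD1
import Pool.Agent.Lib.MP_7f377f_mp.G.PlR
import Pool.Agent.Lib.MP_7f377f_mp.G.RoD2

/-! Slow growth of the continuations. -/

noncomputable section

namespace Pool.Agent.Lib.MP_7f377f_mp.Pl
variable [Pool.Agent.Lib.MP_7f377f_mp.GD]
set_option linter.unusedSectionVars false

open Filter Topology Set Real YM7 Pur Ro MvPolynomial
open Ro.RoD2 (Nb nb_cz nb_ord gd_comp atom nrm_pl atm_gd atm_gd' atm_mono atm_shift Fm rot_pos lip_rot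
  lip_sub gd_rot)
open scoped NNReal

variable {W : Pol →ₗ[ℂ] ℂ} {H : Type} [NormedAddCommGroup H] [InnerProductSpace ℂ H]
  [CompleteSpace H] {r : net.Rep W 0 H} {k : ℕ} {Z Z' : Pol}

namespace PD2

variable {δ R A m Y κ β : ℝ} {K K' : Set R4} {F : R4 → ℝ}

instance (t : ℝ) (K : Set R4) : Cyl (Nb t K) := ⟨fun e ⟨z, hz, h⟩ =>
  ⟨z, hz, by rwa [← pl_eq e 0, ← pl_eq e 1]⟩⟩

theorem cyl_pre (O : Set R4) [Cyl O] (g : Iso) [Pn g] : Cyl {y | g y ∈ O} :=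
  ⟨fun e h => Cyl.mem (O := O) (by rw [Pn.eq, Pn.eq, e]) h⟩

theorem cz_dist {x y : R4} (h : y - x ∈ Cz m) : m ≤ dist (pl x) (pl y) := by
  have h1 : 4 * |y 1 - x 1| + m < y 0 - x 0 := h
  linarith [abs_nonneg (y 1 - x 1), neg_abs_le (x 0 - y 0), abs_le_pd 0 x y]

variable {g : Fin k → R4 → ℝ} {Q : Fin k → Set R4}

theorem sep (h : ∀ i j, i < j → ∀ x ∈ Q i, ∀ y ∈ Q j, y - x ∈ Cz 8) (i j : Fin k) (hij : i ≠ j) :
    ∀ x ∈ Nb (1 / 2) (Q i), ∀ y ∈ Nb (1 / 2) (Q j), 3 ≤ dist (pl x) (pl y) := fun x hx y hy => by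
  rcases lt_or_gt_of_ne hij with e | e
  · exact cz_dist (nb_ord (fun a ha b hb => Cz.mono (by norm_num) (h i j e a ha b hb)) x hx y hy)
  · rw [dist_comm]
    exact cz_dist (nb_ord (fun a ha b hb => Cz.mono (by norm_num) (h j i e a ha b hb)) y hy x hx)

theorem fm_adm (h : Fm δ R A Q g) (hδ : δ ≤ 1 / 4) : Adm g :=
  ⟨fun i => ⟨(atm_gd (h.1 i) hδ).1, (atm_gd (h.1 i) hδ).2.1⟩, fun i j hij =>
    (Dj.of_pd three_pos (sep h.2.2 i j hij)).mono (atm_gd (h.1 i) hδ).2.2 (atm_gd (h.1 j) hδ).2.2⟩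

theorem slot_rot (hW : H0 W) {O : Set R4} [Cyl O] {I : Type} (s : Finset I) {G : I → R4 → ℝ}
    (hg : ∀ z, PN.Gd O (G z)) (c : I → ℝ) (hO : O ⊆ Cz 0) (hZ : Z ∈ net.loc (Cz 0 ∩ Oᶜ)) {φ : ℝ}
    (hφ : |φ| < 1) : r.Ψ (act (rot 0 φ) (X (∑ z ∈ s, c z • G z) * Z)) =
      r.Ψ (act (rot 0 φ) (∑ z ∈ s, (c z : ℂ) • (X (G z) * Z))) := by
  have p : ∀ y, (rot 0 φ).symm y ∈ Cz 0 → y ∈ Hs 0 0 := fun y hy => by
    have h1 := rot_cz le_rfl hy hφ
    have h2 : 4 * |(rot 0 φ).symm y 1| + 0 < (rot 0 φ).symm y 0 := hy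
    rw [LinearIsometryEquiv.apply_symm_apply] at h1
    change 0 < y 0
    linarith [abs_nonneg ((rot 0 φ).symm y 1)]
  have := cyl_pre O (rot 0 φ).symm
  have := slot hW.st hW.lin r s (fun z => gd_rot (hg z) (rot 0 φ).symm) c (fun y hy => p y (hO hy))
    (net.mono (act_mem (rot 0 φ) hZ) fun y hy => ⟨p y hy.1, hy.2⟩)
  simp only [map_sum, map_smul, map_mul (act _), act_X]
  refine Eq.trans ?_ this
  congr 3
  funext y
  simp only [Finset.sum_apply, Pi.smul_apply]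

theorem step (hW : H0 W) (Y0 : 0 < Y) (hδ : δ ≤ 1 / 4) (hd : δ ≤ m) (m0 : 0 < m)
    (hm : 8 * m ≤ exp (-Y)) (β0 : 0 ≤ β) (κ0 : 0 ≤ κ)
    (hM : ∀ u (L : ℝ≥0), L ≤ A / δ ^ 3 → Tn δ R L u → ∃ M, Fop r m u M ∧ ‖M‖ ≤ κ)
    {g : Fin (k + 1) → R4 → ℝ} {Q : Fin (k + 1) → Set R4} (h : Fm δ R A Q g)
    (hE : ∀ a : R4, a 2 = 0 → a 3 = 0 → a ∈ Nb (1 / 4) (Q 0) →
      Ext r Y β (mon fun (i : Fin k) y => g i.succ (y - -(a + ax 0 1)))) :
    Ext r Y (κ * β) (mon g) := by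
  have t0 : mon (fun i : Fin k => g i.succ) ∈ net.loc (Cz 0 ∩ (Nb (1 / 2) (Q 0))ᶜ) :=
    mon_mem ⟨fun i => (fm_adm h hδ).1 _, fun i j hij => (fm_adm h hδ).2
      ((Fin.succ_injective _).ne hij)⟩ fun i y hy => ⟨Cz.mono zero_le_one (h.cz hδ _ hy), fun e => by
        have := sep h.2.2 _ _ i.succ_ne_zero y ((atm_gd (h.1 _) hδ).2.2 hy) y e
        rw [dist_self] at this
        norm_num at this⟩
  obtain ⟨N, w, a, u, h1, h2, h3, h4⟩ := h.1 0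
  have key := Ext.sum (r := r) (Y := Y) Finset.univ (β := fun i => w i * (κ * β))
    (Z := fun i => (w i : ℂ) • (X (fun y => u i (y - a i)) * mon fun i : Fin k => g i.succ))
    fun i _ => by
      obtain ⟨a2, a3, ha, ⟨L, l1, t⟩, hr⟩ := h3 i
      obtain ⟨M, M1, M2⟩ := hM _ L l1 t
      have ft := h.tail a2 a3 ha
      have e := Ext.step hW (hE _ a2 a3 ha) (mon_mem (fm_adm ft hδ) fun j =>
        (ft.cz hδ j).trans (Cz.mono zero_le_one)) Y0 m0 hm M1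
        (gd_mem ⟨t.1, t.2.1, fun y hy => (t.2.2.2 y hy).1.trans_le hd⟩) hr a2 a3
        (nb_cz ((h.2.1 0).trans (Cz.mono (by norm_num))) ha)
      rw [← τ_mon, map_mul, net.τ_τ, net.τ_τ, add_neg_cancel, net.τ_zero] at e
      have e2 := (e.mono (mul_le_mul_of_nonneg_right M2 β0)).smul (w i : ℂ)
      have e3 : net.τ (a i) (X (u i)) = X fun y => u i (y - a i) := rename_X _ _
      rwa [Complex.norm_real, norm_of_nonneg (h1 i), e3] at e2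
  refine (key.mono ?_).congr fun φ hφ => ?_
  · rw [← Finset.sum_mul]
    exact mul_le_of_le_one_left (by positivity) h2
  · rw [← slot_rot hW Finset.univ (O := Nb (1 / 2) (Q 0)) (fun i =>
      let ⟨_, _, ha, ⟨_, _, t⟩, _⟩ := h3 i
      let e := atom t hδ ha
      ⟨e.1, e.2.1, e.2.2.trans inter_subset_left⟩) w
      (nb_cz ((h.2.1 0).trans (Cz.mono (by norm_num)))) t0 hφ, ← h4, mon, Fin.prod_univ_succ]
    rfl

theorem crude (hW : H0 W) (Y0 : 0 < Y) (hδ : δ ≤ 1 / 4) (hd : δ ≤ m) (m0 : 0 < m)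
    (hm : 8 * m ≤ exp (-Y)) (κ0 : 0 ≤ κ)
    (hM : ∀ u (L : ℝ≥0), L ≤ A / δ ^ 3 → Tn δ R L u → ∃ M, Fop r m u M ∧ ‖M‖ ≤ κ) :
    ∀ (k : ℕ) (g : Fin k → R4 → ℝ) (Q : Fin k → Set R4), Fm δ R A Q g →
      Ext r Y (κ ^ k) (mon g) := by
  intro k
  induction k with
  | zero => exact fun g _ _ => by simpa [mon] using Ext.one hW.st r Y
  | succ k ih =>
    intro g Q h
    rw [pow_succ']
    exact step hW Y0 hδ hd m0 hm (by positivity) κ0 hM h fun a a2 a3 ha => ih _ _ (h.tail a2 a3 ha)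

theorem close (h : H0 W) (r : net.Rep W 0 H) (k : ℕ) (ρ : ℝ) (L : ℝ≥0) : ∃ C ≥ 0,
    ∀ (f g : Fin k → R4 → ℝ) (O : Fin k → Set R4) (ε : ℝ≥0), ε ≤ 1 →
      (∀ i, PN.Gd (O i) (f i) ∧ PN.Gd (O i) (g i) ∧ LipschitzWith L (g i) ∧
        LipschitzWith ε (f i - g i)) → (∀ i, ∀ y ∈ O i, ‖y‖ ≤ ρ ∧ y ∈ Cz 1) →
      (∀ i j, i ≠ j → ∀ x ∈ O i, ∀ y ∈ O j, 3 ≤ dist (pl x) (pl y)) → ∀ φ : ℝ, |φ| < 1 →
      ‖r.Ψ (act (rot 0 φ) (mon f)) - r.Ψ (act (rot 0 φ) (mon g))‖ ≤ C * ε := by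
  obtain ⟨C, C0, hC⟩ := near h.st h.lin h.qual r k ρ (δ := 1 / 4) (by norm_num) L
  refine ⟨C, C0, fun f g O ε ε1 h1 h2 h3 φ hφ => ?_⟩
  rw [act_mon, act_mon]
  refine hC _ _ (fun i => {y | (rot 0 φ).symm y ∈ O i}) ε ε1 (fun i => ⟨gd_rot (h1 i).1 _,
    gd_rot (h1 i).2.1 _, lip_rot (h1 i).2.2.1 _, lip_rot (h1 i).2.2.2 _⟩)
    (fun i y hy => ⟨?_, rot_pos hφ (h2 i _ hy).2⟩) fun i j hij x hx y hy => ?_
  · rw [← (rot 0 φ).symm.norm_map]
    exact (h2 i _ hy).1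
  · have := h3 i j hij _ hx _ hy
    rw [pd_map] at this
    linarith

theorem bound (h : H0 W) (r : net.Rep W 0 H) (k : ℕ) (ρ : ℝ) (L : ℝ≥0) : ∃ β ≥ 0,
    ∀ f : Fin k → R4 → ℝ, Adm f → (∀ i, LipschitzWith L (f i) ∧
      ∀ y ∈ tsupport (f i), ‖y‖ ≤ ρ ∧ y ∈ Cz 1) →
      (∀ i j, i ≠ j → ∀ x ∈ tsupport (f i), ∀ y ∈ tsupport (f j), 3 ≤ dist (pl x) (pl y)) →
      ∀ φ : ℝ, |φ| < 1 → ‖r.Ψ (act (rot 0 φ) (mon f))‖ ≤ β := by
  obtain ⟨D, D0, hD⟩ := bd h.qual r k ρ (δ := 1 / 4) (by norm_num)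
  refine ⟨D * (∏ _i : Fin k, L : ℝ≥0), by positivity, fun f hf h1 h2 φ hφ => ?_⟩
  rw [act_mon]
  have s : ∀ i y, y ∈ tsupport (fun y => f i ((rot 0 φ).symm y)) →
      (rot 0 φ).symm y ∈ tsupport (f i) := fun i y hy => tsupport_comp (rot 0 φ).symm.continuous hy
  refine hD _ (fun _ => L) (adm_act hf _) (fun i => ⟨lip_rot (h1 i).1 _, fun y hy =>
    ⟨?_, rot_pos hφ ((h1 i).2 _ (s i y hy)).2⟩⟩) fun i j hij x hx y hy => ?_
  · rw [← (rot 0 φ).symm.norm_map]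
    exact ((h1 i).2 _ (s i y hy)).1
  · have := h2 i j hij _ (s i x hx) _ (s j y hy)
    rw [pd_map] at this
    linarith

end PD2

open PD2

theorem H0.app (h : H0 W) (r : net.Rep W 0 H) : ∃ Y : ℕ → ℝ, Tendsto Y atTop atTop ∧
    ∀ b : ℕ, (∀ k ≤ 2 * b, ∀ φ, InvN W k (rot 0 φ)) → ∀ k ≤ b + 1, ∀ f : Fin k → R4 → ℝ, Ord f →
      App r Y (mon f) := by
  obtain ⟨c, c1, δ, hδ, hT⟩ := h.thinO r
  have c0 : 0 < c := by linarith
  have tY : Tendsto (fun n => -log (8 * (c * δ n))) atTop atTop := by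
    refine tendsto_neg_atBot_atTop.comp (tendsto_log_nhdsGT_zero.comp ?_)
    refine tendsto_nhdsWithin_iff.2 ⟨?_, ?_⟩
    · simpa using ((tendsto_nhds_of_tendsto_nhdsWithin hδ).const_mul c).const_mul 8
    · filter_upwards [hδ.eventually self_mem_nhdsWithin] with n (hn : 0 < δ n)
      exact (by positivity : 0 < 8 * (c * δ n))
  refine ⟨_, tY, fun b hI k hk f hf ε ε0 => ?_⟩
  cases k with
  | zero =>
    filter_upwards [tY.eventually_ge_atTop ε⁻¹] with n hn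
    refine ⟨1, net.one _, (Ext.one h.st r _).mono ?_, fun φ _ => by simp [mon, ε0.le]⟩
    have := add_one_le_exp (4 * -log (8 * (c * δ n)))
    rw [← inv_mul_le_iff₀ ε0]
    linarith [inv_pos.2 ε0]
  | succ k =>
    choose R A A0 hA using fun i => apx (hf.1.1 i).1 (hf.1.1 i).2
    choose ρ hρ using fun i => (hf.1.1 i).1.isCompact.isBounded.exists_norm_le
    choose L hL using fun i => (hf.1.1 i).2.lipschitzWith_of_hasCompactSupport (hf.1.1 i).1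
      one_ne_zero
    obtain ⟨R', hR⟩ := (Set.finite_range R).bddAbove
    obtain ⟨A', hA'⟩ := (Set.finite_range A).bddAbove
    obtain ⟨ρ', hρ'⟩ := (Set.finite_range ρ).bddAbove
    obtain ⟨L', hL'⟩ := (Set.finite_range L).bddAbove
    have a0 : 0 ≤ A' := (A0 0).trans (hA' ⟨0, rfl⟩)
    have bK : ∀ i, ∀ x ∈ tsupport (f i), ‖x‖ ≤ |ρ'| := fun i x hx =>
      (hρ i x hx).trans ((hρ' ⟨i, rfl⟩).trans (le_abs_self _))
    have lf : ∀ i, LipschitzWith L' (f i) := fun i => (hL i).weaken (hL' ⟨i, rfl⟩)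
    obtain ⟨C, C0, hC⟩ := close h r (k + 1) (|R'| + (2 * |ρ'| + 1)) L'
    obtain ⟨β, β0, hD⟩ := bound h r k (|R'| + (2 * |ρ'| + 1) + (2 * |ρ'| + 1 + 1)) (L' + 1)
    obtain ⟨η, η0, η1, η2⟩ : ∃ η : ℝ≥0, 0 < η ∧ η ≤ 1 ∧ C * η ≤ ε := by
      refine ⟨⟨min 1 (ε / (C + 1)), by positivity⟩, (by positivity : 0 < min 1 (ε / (C + 1))),
        min_le_left (1 : ℝ) _, (mul_le_mul_of_nonneg_left (min_le_right (1 : ℝ) _) C0).trans ?_⟩
      rw [← mul_div_assoc, div_le_iff₀ (by positivity)]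
      nlinarith
    set θ : ℝ := ε / ((A' + 1) * (β + 1) * (8 * c) ^ 4) with hθ
    filter_upwards [hT |R'| θ (by positivity), hδ.eventually self_mem_nhdsWithin,
      tY.eventually_gt_atTop 0, hδ.eventually (eventually_all.2 fun i => hA i η η0),
      (tendsto_nhds_of_tendsto_nhdsWithin hδ).eventually (ge_mem_nhds (show (0 : ℝ) < 1 / 4 by
        norm_num))] with n h1 (δ0 : 0 < δ n) Y0 h2 δ1
    choose g g1 g2 using h2
    have F : Fm (δ n) |R'| A' (fun i => tsupport (f i)) g := ⟨fun i => atm_mono (g1 i) δ0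
      ((hR ⟨i, rfl⟩).trans (le_abs_self _)) (hA' ⟨i, rfl⟩),
      fun i => (hf.2.1 i).trans (Cz.mono (by norm_num)), hf.2.2⟩
    have hm : 8 * (c * δ n) ≤ exp (- -log (8 * (c * δ n))) := by
      rw [neg_neg, exp_log (by positivity)]
    have hd : δ n ≤ c * δ n := le_mul_of_one_le_left δ0.le c1
    have hM : ∀ u (L : ℝ≥0), L ≤ A' / δ n ^ 3 → Tn (δ n) |R'| L u →
        ∃ M, Fop r (c * δ n) u M ∧ ‖M‖ ≤ θ * (A' / δ n ^ 3) / δ n := fun u L l t =>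
      let ⟨M, m1, m2⟩ := h1 u L t
      ⟨M, m1, m2.trans (by gcongr)⟩
    have lg : ∀ i, LipschitzWith (L' + 1) (g i) := fun i => by
      simpa using (lf i).add ((g2 i).weaken η1)
    have gd := fun i => atm_gd' (F.1 i) δ1 (bK i)
    refine ⟨mon g, mon_mem (fm_adm F δ1) fun i => (F.cz δ1 i).trans (Cz.mono zero_le_one),
      (step h Y0 δ1 hd (by positivity) hm β0 (by positivity) hM F fun a a2 a3 ha => ?_).mono ?_,
      fun φ hφ => ?_⟩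
    · have ft := F.tail a2 a3 ha
      refine (crude h Y0 δ1 hd (by positivity) hm (by positivity) hM k _ _ ft).improve (fm_adm ft δ1)
        (fun i => (ft.cz δ1 i).trans (Cz.mono zero_le_one)) (hI _ (by omega)) fun φ hφ => ?_
      refine hD _ (fm_adm ft δ1) (fun i => ⟨lip_sub (lg _) _, fun y hy => ⟨?_, ft.cz δ1 i hy⟩⟩)
        (fun i j hij x hx y hy => sep ft.2.2 i j hij _ ((atm_gd (ft.1 i) δ1).2.2 hx) _
          ((atm_gd (ft.1 j) δ1).2.2 hy)) φ hφ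
      have e1 : ‖y - -(a + ax 0 1)‖ ≤ |R'| + (2 * |ρ'| + 1) :=
        ((gd i.succ).2.2 (tsupport_comp (θ := fun y => y - -(a + ax 0 1)) (by fun_prop) hy)).2
      have e2 := norm_add_le a (ax 0 1)
      have e3 := norm_sub_norm_le y (-(a + ax 0 1))
      rw [PiLp.norm_single, norm_one] at e2
      rw [norm_neg] at e3
      linarith [nrm_pl a2 a3 ha (bK 0)]
    · rw [show (4 : ℝ) * -log (8 * (c * δ n)) = -((4 : ℕ) * log (8 * (c * δ n))) by push_cast; ring,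
        exp_neg, exp_nat_mul, exp_log (by positivity), hθ]
      have e : ε / ((A' + 1) * (β + 1) * (8 * c) ^ 4) * (A' / δ n ^ 3) / δ n * β =
          ε * ((8 * (c * δ n)) ^ 4)⁻¹ * (A' / (A' + 1) * (β / (β + 1))) := by
        field_simp
      rw [e]
      refine mul_le_of_le_one_right (by positivity) (mul_le_one₀ ?_ (by positivity) ?_) <;>
        exact (div_le_one (by positivity)).2 (by linarith)
    · refine (hC _ _ _ η η1 (fun i => ⟨gd i, ⟨(hf.1.1 i).1, (hf.1.1 i).2, fun y hy =>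
        ⟨⟨y, hy, by simp, by simp⟩, ?_⟩⟩, lf i, g2 i⟩) (fun i y hy =>
          ⟨hy.2, nb_cz ((hf.2.1 i).trans (Cz.mono (by norm_num))) hy.1⟩)
        (fun i j hij x hx y hy => sep hf.2.2 i j hij _ hx.1 _ hy.1) φ hφ).trans η2
      change ‖y‖ ≤ _
      linarith [bK i y hy, abs_nonneg R', abs_nonneg ρ']

end Pool.Agent.Lib.MP_7f377f_mp.Pl
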