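import Pool.Agent.Lib.MP_7f377f_mp.G.PlN

/-! Rotation invariance in the plane: definitions and elementary facts. -/

noncomputable section

namespace Pool.Agent.Lib.MP_7f377f_mp.Pl
variable [Pool.Agent.Lib.MP_7f377f_mp.GD]
set_option linter.unusedSectionVars false

open Filter Topology Set Real YM7 Pur Ro MvPolynomial
open scoped NNReal

/-- linearity in each smeared field -/
def LinP (W : Pol →ₗ[ℂ] ℂ) : Prop := ∀ (g g' : R4 → ℝ) (c : ℝ), HasCompactSupport g →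
  ContDiff ℝ 1 g → HasCompactSupport g' → ContDiff ℝ 1 g' →
  ∀ Z ∈ net.loc (Cy (tsupport g ∪ tsupport g'))ᶜ,
    W (X (g + c • g') * Z) = W (X g * Z) + c * W (X g' * Z)

/-- bound for fixed supports -/
def Qual (W : Pol →ₗ[ℂ] ℂ) : Prop := ∀ k R, ∀ δ > 0, ∃ C : ℝ, ∀ (f : Fin k → R4 → ℝ)
  (L : Fin k → ℝ≥0), Adm f → (∀ i, LipschitzWith (L i) (f i) ∧ ∀ y, f i y ≠ 0 → ‖y‖ ≤ R) →
  (∀ i j, i ≠ j → ∀ x y, f i x ≠ 0 → f j y ≠ 0 → δ ≤ dist (pl x) (pl y)) →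
  ‖W (mon f)‖ ≤ C * ∏ i, L i

/-- isometries which respect the plane -/
class Pn (g : Iso) : Prop where
  eq : ∀ y, pl (g y) = g (pl y)

/-- the exchange of the two axes -/
abbrev sw : Iso := prm (Equiv.swap 0 1)

/-- invariance -/
def Inv (W : Pol →ₗ[ℂ] ℂ) (g : Iso) : Prop := ∀ Z ∈ net.loc univ, W (act g Z) = W Z

/-- invariance of the `k` point function -/
def InvN (W : Pol →ₗ[ℂ] ℂ) (k : ℕ) (g : Iso) : Prop :=
  ∀ f : Fin k → R4 → ℝ, Adm f → W (act g (mon f)) = W (mon f)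

/-- the operator bound for thin boxes, on a quadrant -/
def ThinQ (W : Pol →ₗ[ℂ] ℂ) : Prop := ∃ c ≥ 1, ∃ δ : ℕ → ℝ, Tendsto δ atTop (𝓝[>] 0) ∧
  ∀ R, ∃ R', ∀ ε > 0, ∀ᶠ n in atTop, ∀ u L, Tn (δ n) R L u → ∀ b ∈ net.loc (Hs 0 0 ∩ Hs 1 R'),
    net.nq W 0 (net.τ (ax 0 (c * δ n)) (X u * net.τ (ax 0 (c * δ n)) b)) ≤
      (ε * L / δ n) ^ 2 * net.nq W 0 b

/-- the operator bound for thin boxes of all widths, with a polynomial loss -/
def Thin1 (W : Pol →ₗ[ℂ] ℂ) : Prop := ∃ c ≥ 1, ∀ R, ∃ (R' C : ℝ) (s : ℕ), 0 ≤ C ∧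
  ∀ d ∈ Ioc (0 : ℝ) 1, ∀ u L, Tn d R L u → ∀ b ∈ net.loc (Hs 0 0 ∩ Hs 1 R'),
    net.nq W 0 (net.τ (ax 0 (c * d)) (X u * net.τ (ax 0 (c * d)) b)) ≤
      (C / d ^ s * L) ^ 2 * net.nq W 0 b

/-- the hypotheses in one frame -/
structure H0 (W : Pol →ₗ[ℂ] ℂ) : Prop where
  st : net.St W 0
  lin : LinP W
  qual : Qual W
  dg : net.St (cmp W (rot 0 (π / 4))) 0
  dg1 : net.St (cmp W (rot 0 (π / 4))) 1
  thin : ThinQ W

/-- the hypotheses in both frames -/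
structure HH (W : Pol →ₗ[ℂ] ℂ) : Prop where
  h0 : H0 W
  h1 : H0 (cmp W sw)

/-- reflection positivity for the exchange of the axes `0` and `1` -/
def SwapRP (W : Pol →ₗ[ℂ] ℂ) : Prop := ∀ Z ∈ net.loc {y | y 1 < y 0},
  0 ≤ (W (act sw (map (starRingEnd ℂ) Z) * Z)).re

/-- families which are ordered by the cone -/
def Ord {k : ℕ} (f : Fin k → R4 → ℝ) : Prop := Adm f ∧ (∀ i, tsupport (f i) ⊆ Cz 8) ∧
  ∀ i j, i < j → ∀ x ∈ tsupport (f i), ∀ y ∈ tsupport (f j), y - x ∈ Cz 8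

/-- the direction of separation -/
def ell : R4 := WithLp.toLp 2 ![8, 1, 0, 0]

/-- invariance for families which are far apart -/
def Far (W : Pol →ₗ[ℂ] ℂ) (k : ℕ) : Prop := ∀ f : Fin k → R4 → ℝ, Adm f → ∃ T : ℝ,
  ∀ s : Fin k → ℝ, (∀ i j, i ≠ j → T ≤ |s i - s j|) → ∀ φ : ℝ, |φ| < 1 →
    W (act (rot 0 φ) (mon fun i y => f i (y - s i • ell))) = W (mon fun i y => f i (y - s i • ell))

section
variable {W : Pol →ₗ[ℂ] ℂ} {H : Type} [NormedAddCommGroup H] [InnerProductSpace ℂ H]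
  (r : net.Rep W 0 H)

/-- the translations in the plane at complex points -/
structure Cone (θ : ℝ) (A : ℂ × ℂ → H →L[ℂ] H) : Prop where
  diff : DifferentiableOn ℂ A {z | |z.2.im| < θ * z.1.re}
  nrm : ∀ z : ℂ × ℂ, |z.2.im| < θ * z.1.re → ‖A z‖ ≤ 1
  real : ∀ t s : ℝ, 0 < t → A (t, s) = r.T (ax 0 t + ax 1 s)

/-- `M` is the operator of the field `u` with margins `m` -/
def Fop (m : ℝ) (u : R4 → ℝ) (M : H →L[ℂ] H) : Prop :=
  ∀ b ∈ net.loc (Hs 0 0), M (r.Ψ b) = r.Ψ (net.τ (ax 0 m) (X u * net.τ (ax 0 m) b))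

/-- small operators for thin boxes -/
def ThinO (c : ℝ) (δ : ℕ → ℝ) : Prop := ∀ R, ∀ ε > 0, ∀ᶠ n in atTop, ∀ u L, Tn (δ n) R L u →
  ∃ M, Fop r (c * δ n) u M ∧ ‖M‖ ≤ ε * L / δ n

/-- continuation to complex angles -/
def Ext (Y β : ℝ) (Z : Pol) : Prop := ∃ V : ℂ → H,
  DifferentiableOn ℂ V {z | |z.re| < 1 ∧ |z.im| < Y} ∧
  (∀ z : ℂ, |z.re| < 1 ∧ |z.im| < Y → ‖V z‖ ≤ β) ∧
  ∀ φ : ℝ, |φ| < 1 → V φ = r.Ψ (act (rot 0 φ) Z)

/-- approximation by vectors with slowly growing continuations -/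
def App (Y : ℕ → ℝ) (Z : Pol) : Prop := ∀ ε > 0, ∀ᶠ n in atTop, ∃ Z' ∈ net.loc (Cz 0),
  Ext r (Y n) (ε * exp (4 * Y n)) Z' ∧
    ∀ φ : ℝ, |φ| < 1 → ‖r.Ψ (act (rot 0 φ) Z') - r.Ψ (act (rot 0 φ) Z)‖ ≤ ε

end

variable {k : ℕ} {g g' : Iso} {W : Pol →ₗ[ℂ] ℂ} {Z : Pol} {O : Set R4} {φ : ℝ}

theorem rot_one (φ : ℝ) (y : R4) : rot 0 φ y 1 = sin φ * y 0 + cos φ * y 1 := rot_succ 0 φ y

theorem rot_zero' (φ : ℝ) (y : R4) : rot 0 φ y 0 = cos φ * y 0 - sin φ * y 1 := Ro.rot_zero' 0 φ y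

instance : Pn 1 := ⟨fun _ => rfl⟩

instance [Pn g] [Pn g'] : Pn (g * g') := ⟨fun y => (Pn.eq (g' y)).trans (congrArg g (Pn.eq y))⟩

instance [Pn g] : Pn g.symm := ⟨fun y => g.injective (by
  rw [← Pn.eq, g.apply_symm_apply, g.apply_symm_apply])⟩

instance (φ : ℝ) : Pn (rot 0 φ) := ⟨fun y => by
  ext i
  fin_cases i <;> simp [Pd.eq, pl2, pl3, rot_apply, rv]⟩

instance : Pn sw := ⟨fun y => by
  ext i
  fin_cases i <;> simp [Pd.eq, pl2, pl3, prm_apply, Equiv.swap_apply_def]⟩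

instance (μ : Fin 4) : Pn (rfL μ) := ⟨fun y => by rw [rfL_eq, pl_rf]⟩

theorem pd_map (g : Iso) [Pn g] (x y : R4) : dist (pl (g x)) (pl (g y)) = dist (pl x) (pl y) := by
  rw [Pn.eq, Pn.eq, g.dist_map]

theorem sw_sw : sw * sw = 1 := by rw [prm_mul, Equiv.swap_mul_self, prm_one]

theorem act_τ (g : Iso) (v : R4) (Z : Pol) : act g (net.τ v Z) = net.τ (g v) (act g Z) :=
  Ro.act_τ g v Z

theorem adm_act {f : Fin k → R4 → ℝ} (hf : Adm f) (g : Iso) [Pn g] :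
    Adm fun i y => f i (g.symm y) :=
  hf.comp g.symm.toHomeomorph g.symm.contDiff fun x y e => by
    simp only [LinearIsometryEquiv.coe_toHomeomorph, Pn.eq, e]

theorem act_mem (g : Iso) [Pn g] (h : Z ∈ net.loc O) : act g Z ∈ net.loc {y | g.symm y ∈ O} :=
  span_map (map_add _) (fun c X => ⟨c, map_smul _ c X⟩) (fun _ ⟨k, f, h1, h2, h3⟩ =>
    ⟨k, _, adm_act h1 g, fun i _ hy => h2 i (tsupport_comp g.symm.continuous hy),
      by rw [← h3, act_mon]⟩) h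

theorem act_adm (g : Iso) [Pn g] (h : Z ∈ net.loc O) : act g Z ∈ net.loc univ :=
  Net.adm (act_mem g h)

theorem Θ_act {μ ν : Fin 4} (h : ∀ y, rf μ (g y) = g' (rf ν y)) (Z : Pol) :
    net.Θ μ (act g Z) = act g' (net.Θ ν Z) := Ro.Θ_act h Z

theorem Θ_rot (φ : ℝ) (Z : Pol) :
    net.Θ 0 (act (rot 0 φ) Z) = act (rot 0 (-φ)) (net.Θ 0 Z) := Ro.Θ_rot 0 φ Z

theorem HH.sw (h : HH W) : HH (cmp W sw) := ⟨h.h1, by rw [cmp_cmp, sw_sw, cmp_one]; exact h.h0⟩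

theorem act_cz (h : Z ∈ net.loc (Cz 0)) (hφ : |φ| < 1) : act (rot 0 φ) Z ∈ net.loc (Hs 0 0) :=
  net.mono (act_mem _ h) fun y hy => by
    have h1 := rot_cz le_rfl hy hφ
    have h2 : 4 * |(rot 0 φ).symm y 1| + 0 < (rot 0 φ).symm y 0 := hy
    rw [LinearIsometryEquiv.apply_symm_apply] at h1
    change 0 < y 0
    linarith [abs_nonneg ((rot 0 φ).symm y 1)]

theorem Inv.of_mon (h : ∀ k, InvN W k g) : Inv W g := fun Z hZ => by
  obtain ⟨m, c, k, f, f1, -, rfl⟩ := exists_sum hZ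
  simp only [map_sum, map_smul, h _ _ (f1 _)]

theorem Inv.mul [Pn g'] (h : Inv W g) (h' : Inv W g') : Inv W (g * g') := fun Z hZ => by
  rw [← act_act, h _ (act_adm _ hZ), h' _ hZ]

/-- quarter turns are free -/
theorem H0.quarter (h : H0 W) : Inv W (rot 0 (π / 2)) := fun Z hZ => by
  have h1 := h.dg.herm (act_adm (rot 0 (-(π / 4))) (Net.Θ_adm 0 hZ))
  rw [cmp_apply, cmp_apply, Θ_rot, net.Θ_Θ, neg_neg, act_act, act_act, rot_mul, rot_mul,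
    show π / 4 + π / 4 = π / 2 by ring, add_neg_cancel, rot_zero, act_one, h.st.herm hZ,
    Complex.conj_conj] at h1
  exact h1

theorem adm_rp {l : ℕ} {f : Fin l → R4 → ℝ} {g : Fin k → R4 → ℝ} {μ : Fin 4} [Pd μ] (hf : Adm f)
    (hg : Adm g) (hs : ∀ i, tsupport (f i) ⊆ Hs μ 0) (hs' : ∀ i, tsupport (g i) ⊆ Hs μ 0) :
    Adm (Fin.append (fun i y => f i (rf μ y)) g) :=
  (adm_rf hf μ).append hg fun i j => (Dj.of (O := {y | rf μ y ∈ Hs μ 0}) (O' := Hs μ 0)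
    (disjoint_left.2 fun y e e' => by
      simp only [Hs, mem_ofPred_eq, rf_self] at e e'
      linarith)).mono (fun _ hy => hs i (tsupport_comp (rfL_eq μ ▸ (rfL μ).continuous) hy)) (hs' j)

theorem one_slot (h : LinP W) [Cyl O] {I : Type} (s : Finset I) {g : I → R4 → ℝ}
    (hg : ∀ z, PN.Gd O (g z)) (c : I → ℝ) (hZ : Z ∈ net.loc Oᶜ) :
    W (X (∑ z ∈ s, c z • g z) * Z) = ∑ z ∈ s, c z * W (X (g z) * Z) := by
  classical
  have e : ∀ {u u' : R4 → ℝ} (c : ℝ), PN.Gd O u → PN.Gd O u' →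
      W (X (u + c • u') * Z) = W (X u * Z) + c * W (X u' * Z) := fun c h1 h2 =>
    h _ _ c h1.1 h1.2.1 h2.1 h2.2.1 Z
      (net.mono hZ (compl_subset_compl.2 (cy_sub (union_subset h1.2.2 h2.2.2))))
  induction s using Finset.induction_on with
  | empty =>
    have := e 1 (PN.Gd.zero O) (PN.Gd.zero O)
    rw [smul_zero, add_zero, left_eq_add] at this
    simpa using this
  | insert a s ha ih =>
    rw [Finset.sum_insert ha, Finset.sum_insert ha, add_comm, e _ (PN.Gd.sum s hg c) (hg a), ih,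
      add_comm]

/-- expansion in all slots -/
theorem LinP.sum (h : LinP W) {I : Type} [Fintype I] {g : Fin k → I → R4 → ℝ}
    {O : Fin k → Set R4} (hO : Pairwise fun i j => Dj (O i) (O j))
    (hg : ∀ i z, HasCompactSupport (g i z) ∧ ContDiff ℝ 1 (g i z) ∧ tsupport (g i z) ⊆ O i)
    (c : Fin k → I → ℝ) : ∀ Z ∈ net.loc (⋃ i, Cy (O i))ᶜ,
      W (mon (fun i => ∑ z, c i z • g i z) * Z) =
        ∑ z : Fin k → I, (∏ i, c i (z i) : ℝ) * W (mon (fun i => g i (z i)) * Z) := by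
  induction k with
  | zero => intro Z _; simp [mon]
  | succ k ih =>
    intro Z hZ
    obtain ⟨o1, -, o2⟩ := pairwise_fin_succ_iff.1 hO
    have s0 : ∀ i z, PN.Gd (Cy (O i)) (g i z) := fun i z =>
      ⟨(hg i z).1, (hg i z).2.1, (hg i z).2.2.trans sub_cy⟩
    have s1 : ∀ i, PN.Gd (O i) (∑ z, c i z • g i z) := fun i => PN.Gd.sum _ (hg i) _
    have u1 : ⋃ i : Fin k, Cy (O i.succ) ⊆ ⋃ i, Cy (O i) :=
      iUnion_subset fun i => subset_iUnion (fun i => Cy (O i)) _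
    have u2 : Disjoint (⋃ i : Fin k, Cy (O i.succ)) (Cy (O 0)) :=
      disjoint_iUnion_left.2 fun i => (o1 i).cy
    have u3 := subset_iUnion (fun i => Cy (O i)) 0
    have m1 : mon (fun i : Fin k => ∑ z, c i.succ z • g i.succ z) * Z ∈ net.loc (Cy (O 0))ᶜ :=
      net.mono (net.mul (mon_mem ⟨fun i => ⟨(s1 _).1, (s1 _).2.1⟩, fun i j e =>
        (o2 e).mono (s1 _).2.2 (s1 _).2.2⟩ fun i => ((s1 _).2.2.trans sub_cy).trans
          (subset_iUnion (fun i : Fin k => Cy (O i.succ)) i)) hZ (disjoint_compl_right.mono_left u1))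
        (union_subset u2.subset_compl_right (compl_subset_compl.2 u3))
    have m2 : ∀ z, X (g 0 z) * Z ∈ net.loc (⋃ i : Fin k, Cy (O i.succ))ᶜ := fun z =>
      net.mono (net.mul (gd_mem (s0 0 z)) hZ (disjoint_compl_right.mono_left u3))
        (union_subset u2.subset_compl_left (compl_subset_compl.2 u1))
    rw [mon, Fin.prod_univ_succ, mul_assoc, ← mon, one_slot h _ (s0 0) _ m1,
      ← (Fin.consEquiv fun _ => I).sum_comp, Fintype.sum_prod_type]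
    refine Finset.sum_congr rfl fun z _ => ?_
    rw [mul_left_comm, ih o2 (fun i => hg i.succ) _ _ (m2 z), Finset.mul_sum]
    refine Finset.sum_congr rfl fun w _ => ?_
    simp only [mon, Fin.prod_univ_succ, Fin.consEquiv_apply, Fin.cons_zero, Fin.cons_succ]
    rw [mul_left_comm (∏ i, _), ← mul_assoc (X _)]
    push_cast
    ring

end Pool.Agent.Lib.MP_7f377f_mp.Pl
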