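import Pool.Agent.Lib.MP_7f377f_mp.G.PlDef
import Pool.Agent.Lib.MP_7f377f_mp.G.RoE2

/-! Families which are far apart. -/

noncomputable section

namespace Pool.Agent.Lib.MP_7f377f_mp.Pl
variable [Pool.Agent.Lib.MP_7f377f_mp.GD]
set_option linter.unusedSectionVars false

open Filter Topology Set Real YM7 Pur Ro MvPolynomial
open Ro.RoE2 (cz_of rf_sub)
open scoped NNReal

variable {W : Pol →ₗ[ℂ] ℂ} {H : Type} [NormedAddCommGroup H] [InnerProductSpace ℂ H]
  [CompleteSpace H] {r : net.Rep W 0 H} {k : ℕ} {Z Z' : Pol}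

namespace PE2

theorem ord_of {g : Fin k → R4 → ℝ} (hg : ∀ i, HasCompactSupport (g i) ∧ ContDiff ℝ 1 (g i))
    {D : ℝ} (hD : ∀ i, ∀ y ∈ tsupport (g i), |y 0| ≤ D ∧ |y 1| ≤ D) {v : Fin k → R4}
    (h1 : ∀ i, 4 * |v i 1| + (5 * D + 9) ≤ v i 0)
    (h2 : ∀ i j, i < j → 4 * |(v j - v i) 1| + (5 * (2 * D) + 9) ≤ (v j - v i) 0) :
    Ord fun i y => g i (y - v i) := by
  have hs : ∀ i, ∀ y ∈ tsupport fun y => g i (y - v i), y - v i ∈ tsupport (g i) :=
    fun i y hy => tsupport_comp (θ := fun y => y - v i) (by fun_prop) hy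
  have key : ∀ i j, i < j → ∀ x ∈ tsupport fun y => g i (y - v i),
      ∀ y ∈ tsupport fun y => g j (y - v j), y - x ∈ Cz 8 := fun i j hij x hx y hy => by
    have a := hD i _ (hs i x hx)
    have b := hD j _ (hs j y hy)
    have e : y - x = (y - v j - (x - v i)) + (v j - v i) := by abel
    rw [e]
    refine cz_of (D := 2 * D) ?_ ?_ (h2 i j hij)
    · exact (abs_sub _ _).trans ((add_le_add b.1 a.1).trans_eq (two_mul D).symm)
    · exact (abs_sub _ _).trans ((add_le_add b.2 a.2).trans_eq (two_mul D).symm)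
  have dis : ∀ i j, i < j → Dj (tsupport fun y => g i (y - v i))
      (tsupport fun y => g j (y - v j)) := fun i j hij x hx y hy e => by
    have : 4 * |y 1 - x 1| + 8 < y 0 - x 0 := key i j hij x hx y hy
    rw [pl_eq e 0] at this
    linarith [abs_nonneg (y 1 - x 1)]
  refine ⟨⟨fun i => ⟨(hg i).1.comp_homeomorph (Homeomorph.subRight (v i)),
    (hg i).2.comp (contDiff_id.sub contDiff_const)⟩, fun i j hij => ?_⟩, fun i y hy => ?_, key⟩
  · rcases hij.lt_or_gt with h | h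
    · exact dis i j h
    · exact (dis j i h).symm
  · have a := hD i _ (hs i y hy)
    rw [← sub_add_cancel y (v i)]
    exact cz_of a.1 a.2 (h1 i)

theorem ell0 (t : ℝ) : (t • ell) 0 = 8 * t := by
  simp [ell, mul_comm]

theorem ell1 (t : ℝ) : (t • ell) 1 = t := by
  simp [ell]

end PE2

open PE2 in
theorem far_of (hS : net.St W 0) {b : ℕ} (h : ∀ k ≤ b, ∀ l ≤ b, ∀ (f : Fin k → R4 → ℝ)
    (g : Fin l → R4 → ℝ), Ord f → Ord g → ∀ φ : ℝ, |φ| < 1 →
      W (act (rot 0 φ) (net.Θ 0 (mon f) * mon g)) = W (net.Θ 0 (mon f) * mon g))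
    (hk : k ≤ 2 * b) : Far W k := fun f hf => by
  obtain ⟨D, -, hD, -⟩ := hf.data
  have D0 : (0 : ℝ) ≤ D := D.cast_nonneg
  refine ⟨10 * D + 100, fun s hs φ hφ => ?_⟩
  obtain ⟨a, c, ha, hc, rfl⟩ : ∃ a c, a ≤ b ∧ c ≤ b ∧ k = a + c :=
    ⟨k / 2, k - k / 2, by omega, by omega, by omega⟩
  set σ := Tuple.sort s
  have ht : ∀ i j, i < j → s (σ i) + (10 * D + 100) ≤ s (σ j) := fun i j hij => by
    have h1 : s (σ i) ≤ s (σ j) := Tuple.monotone_sort s hij.le
    have h2 := hs (σ i) (σ j) (σ.injective.ne hij.ne)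
    rw [abs_sub_comm, abs_of_nonneg (sub_nonneg.2 h1)] at h2
    linarith
  obtain ⟨t, t1, t2⟩ := Set.Finite.exists_between'
    (finite_range fun i : Fin a => s (σ (Fin.castAdd c i)) + (5 * D + 49))
    (finite_range fun j : Fin c => s (σ (Fin.natAdd a j)) - (5 * D + 49)) (by
      rintro _ ⟨i, rfl⟩ _ ⟨j, rfl⟩
      have := ht (Fin.castAdd c i) (Fin.natAdd a j) (by
        change i.1 < a + j.1
        omega)
      beta_reduce
      linarith)
  have hD' : ∀ i, ∀ y ∈ tsupport (f i), ∀ l, |y l| ≤ D := fun i y hy l =>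
    (PiLp.norm_apply_le y l).trans (hD i y hy)
  have oG : Ord fun (j : Fin c) y => f (σ (Fin.natAdd a j))
      (y - (s (σ (Fin.natAdd a j)) - t) • ell) := by
    refine ord_of (D := D) (fun j => hf.1 _) (fun j y hy => ⟨hD' _ y hy 0, hD' _ y hy 1⟩)
      (fun j => ?_) fun i j hij => ?_
    · have : t < s (σ (Fin.natAdd a j)) - (5 * D + 49) := t2 _ ⟨j, rfl⟩
      rw [ell0, ell1, abs_of_nonneg (by linarith)]
      linarith
    · have := ht (Fin.natAdd a i) (Fin.natAdd a j) (by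
        change a + i.1 < a + j.1
        exact Nat.add_lt_add_left hij a)
      rw [← sub_smul, ell0, ell1, abs_of_nonneg (by linarith)]
      linarith
  have oF : Ord fun (i : Fin a) y => (fun y => f (σ (Fin.castAdd c i.rev)) (rf 0 y))
      (y - rf 0 ((s (σ (Fin.castAdd c i.rev)) - t) • ell)) := by
    refine ord_of (D := D) (g := fun (i : Fin a) y => f (σ (Fin.castAdd c i.rev)) (rf 0 y))
      (fun j => (adm_rf hf 0).1 _) (fun j y hy => ?_) (fun j => ?_) fun i j hij => ?_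
    · have := hD' _ _ (tsupport_comp (rfL_eq 0 ▸ (rfL 0).continuous) hy)
      exact ⟨by simpa only [abs_rf] using this 0, by simpa only [abs_rf] using this 1⟩
    · have : s (σ (Fin.castAdd c j.rev)) + (5 * D + 49) < t := t1 _ ⟨j.rev, rfl⟩
      rw [abs_rf, rf_self, ell0, ell1, abs_of_nonpos (by linarith)]
      linarith
    · have := ht (Fin.castAdd c j.rev) (Fin.castAdd c i.rev) (by
        change j.rev.1 < i.rev.1
        exact Fin.rev_lt_rev.2 hij)
      rw [← rf_sub, ← sub_smul, abs_rf, rf_self, ell0, ell1, abs_of_nonpos (by linarith)]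
      linarith
  have e := h a ha c hc _ _ oF oG φ hφ
  have m := net.mul (net.Θ_mem 0 (mon_mem oF.1 oF.2.1)) (mon_mem oG.1 oG.2.1)
    (disjoint_left.2 fun y h1 h2 => by
      have h1 : 4 * |rf 0 y 1| + 8 < rf 0 y 0 := h1
      have h2 : 4 * |y 1| + 8 < y 0 := h2
      rw [abs_rf, rf_self] at h1
      linarith [abs_nonneg (y 1)])
  have q : (mon fun i y => f i (y - s i • ell)) = net.τ (t • ell) (net.Θ 0 (mon fun (i : Fin a) y =>
      (fun y => f (σ (Fin.castAdd c i.rev)) (rf 0 y))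
        (y - rf 0 ((s (σ (Fin.castAdd c i.rev)) - t) • ell))) * mon fun (j : Fin c) y =>
          f (σ (Fin.natAdd a j)) (y - (s (σ (Fin.natAdd a j)) - t) • ell)) := by
    rw [map_mul, Θ_mon, τ_mon, τ_mon]
    simp only [rf_sub, rf_rf]
    simp only [sub_sub, ← add_smul, add_sub_cancel]
    unfold mon
    rw [← Equiv.prod_comp σ, Fin.prod_univ_add]
    exact congrArg (· * _) (Equiv.prod_comp Fin.revPerm fun i => (X fun y =>
      f (σ (Fin.castAdd c i)) (y - s (σ (Fin.castAdd c i)) • ell) : Pol)).symm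
  rw [q, act_τ, hS.ti _ (act_adm _ m), hS.ti _ (Net.adm m), e]

end Pool.Agent.Lib.MP_7f377f_mp.Pl
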