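import Pool.Agent.Lib.MP_7f377f_mp.G.TwC1
import Pool.Agent.Lib.MP_7f377f_mp.G.CyZ

/-! The continuum limit on the plane times a torus. -/

noncomputable section

set_option linter.unusedSectionVars false
variable [Pool.Agent.Lib.MP_7f377f_mp.GD]

namespace Pool.Agent.Lib.MP_7f377f_mp.YM9

open MeasureTheory Filter Topology Function Real Finset
open RGP (BM)
open YM7 (rp sh th)

variable {k : ℕ} {m Δ : ℝ}

theorem gf_pe {U V : Fd} (e : pe U = pe V) (F : Sr) : gf F U = gf F V := by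
  simp only [gf, e]

theorem dep_wn {F : Sr} {K : ℕ} (hF : ∀ x, F x ≠ 0 → 0 ≤ x 0 ∧ x 0 + 1 < K ∧ |x 1| + 1 < K) :
    DependsOn (gf F) (Wn K) := fun U V H => tsum_congr fun x => by
  by_cases hx : F x = 0
  · simp [hx]
  have h1 := hF x hx
  have h2 : ∀ i, U (x, i) = V (x, i) := fun i =>
    H _ ⟨h1.1, by simp only; omega, by simp only; omega⟩
  have h3 : ∀ i j, U (x + Pi.single i 1, j) = V (x + Pi.single i 1, j) := fun i j => H _ (by
    have := abs_lt.1 (show |x 1| < K - 1 by omega)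
    simp only [Wn, Set.mem_ofPred_eq, Pi.add_apply, Pi.single_apply, abs_lt]
    split_ifs <;> omega)
  simp only [pe, h2, h3]

variable [MeasurableSpace SU2] [BorelSpace SU2]

theorem PoL.po {Λ : Set R4} {f : Fin k → R4 → ℝ} (hf : PoL Λ f) (μ : Measure Fd) {a : ℝ}
    (ha : 0 < a) : Continuous (po μ a f) ∧ ∀ᶠ K : ℕ in atTop, DependsOn (po μ a f) (Wn K) := by
  have h1 := fun i => fin_src ha (hf.1.1 i).1
  refine ⟨continuous_finsetProd _ fun i _ => (cont_gf (h1 i)).sub continuous_const,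
    (eventually_all.2 fun i => (h1 i).eventually_all.2 fun x _ =>
      (eventually_gt_atTop (x 0 + 1).toNat).and (eventually_gt_atTop (|x 1| + 1).toNat)).mono
        fun K hK U V H => prod_congr rfl fun i _ => ?_⟩
  rw [dep_wn (fun x hx => ⟨?_, ?_⟩) H]
  · have := hf.2 i _ (subset_tsupport _ (src_ne hx))
    exact_mod_cast ((mul_pos_iff_of_pos_left ha).1 this).le
  · have := hK i x hx
    omega

theorem Stp.gc_tF {n : ℕ} {μ : Measure Fd} {r : ℝ} (h : Stp n μ r) {κ : Type} [Fintype κ]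
    {F : κ → Sr} (hF : ∀ i, (support (F i)).Finite) (v : Z4) :
    gc μ μ (fun i => tF v (F i)) = gc μ μ F :=
  let ⟨_, h1, h2⟩ := h.shf v
  gc_of h1 hF fun _ U => (gf_tF ..).trans (gf_pe (h2 U).symm _)

theorem Stp.int_shf {n : ℕ} {μ : Measure Fd} {r : ℝ} (h : Stp n μ r) {F : Sr}
    (hF : (support F).Finite) (v : Z4) : ∫ V, gf F (YM9.shf v V) ∂μ = ∫ V, gf F V ∂μ := by
  obtain ⟨_, h1, h2⟩ := h.shf v
  simp only [← fun U => gf_pe (h2 U) F]
  exact RGP.int_mp h1 (cont_gf hF).measurable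

variable {ι : Type} {a τ : ι → ℝ} {μ : ι → Measure Fd} {S : ∀ {k : ℕ}, (Fin k → R4 → ℝ) → ℝ}

/-- convergence for all sources which sample the test functions -/
def Lm2 (U : Filter ι) (m : ℝ) (a : ι → ℝ) (μ : ι → Measure Fd)
    (S : ∀ {k : ℕ}, (Fin k → R4 → ℝ) → ℝ) : Prop :=
  ∀ {k} {f : Fin k → R4 → ℝ}, AdL (L2 m) f → ∀ {F : ι → Fin k → Sr},
    (∀ᶠ p in U, ∀ i, Near (a p) (F p i) (f i)) →
    Tendsto (fun p => gc (μ p) (μ p) (F p)) U (𝓝 (S f))

theorem Pln.fin {U : Filter ι} {n : ι → ℕ} (hC : Pln U m Δ n a τ μ) :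
    ∀ᶠ p in U, IsFiniteMeasure (μ p) ∧ IsFiniteMeasure (μ p) := hC.st.mono fun _ e =>
  have := e.2.prob
  ⟨inferInstance, inferInstance⟩

theorem Pln.mono {U Φ : Filter ι} {n : ι → ℕ} (hC : Pln Φ m Δ n a τ μ) (hU : U ≤ Φ) :
    Pln U m Δ n a τ μ :=
  ⟨⟨hC.fm.a0.mono_left hU, hC.fm.tau.mono_left hU⟩, hC.pos, hC.st.filter_mono hU⟩

theorem exists_lm2 (U : Ultrafilter ι) {n : ι → ℕ} (hC : Pln U m Δ n a τ μ)
    (hB : Bd (L2 m) U μ μ a τ) : ∃ S, Lm2 U m a μ S :=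
  ⟨fun f => limUnder U fun p => gc (μ p) (μ p) fun i => src (a p) (f i), fun hf F hN => by
    obtain ⟨C, h⟩ := hB.bdd hC.fm hC.fin (closed_L2 m) hf
    simpa using (hB.near hC.fm hC.fin (closed_L2 m) hf hN).add (YM7.ultra_lim U h)⟩

theorem adl_small {f : Fin k → R4 → ℝ} (hf : YM7.Adm f) (m0 : 0 < m) :
    ∀ᶠ d in 𝓝[>] (0 : ℝ), AdL (L2 m) fun i y => f i (d⁻¹ • y) :=
  (adm_small hf m0).mono fun _ h =>
    ⟨h.1, fun i j e x hx y hy _ ⟨z, e1, _, e2⟩ => e2 ▸ h.2 i j e x hx y hy z e1⟩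

variable {U : Filter ι} [U.NeBot] {n : ι → ℕ} (hN : Lm2 U m a μ S) (hC : Pln U m Δ n a τ μ)
include hN hC

theorem Lm2.cv {f : Fin k → R4 → ℝ} (hf : AdL (L2 m) f) :
    Tendsto (fun p => gc (μ p) (μ p) fun i => src (a p) (f i)) U (𝓝 (S f)) :=
  hN hf (hC.fm.ap.mono fun _ h _ => near_src h.le _)

theorem Lm2.lip (hB : Bd (L2 m) U μ μ a τ) (k : ℕ) (R δ : ℝ) (hδ : 0 < δ) :
    ∃ C, ∀ (f : Fin k → R4 → ℝ) (L : Fin k → NNReal), AdL (L2 m) f →
      (∀ i, LipschitzWith (L i) (f i) ∧ ∀ y, f i y ≠ 0 → ‖y‖ ≤ R) →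
      (∀ i j, i ≠ j → ∀ x y, f i x ≠ 0 → f j y ≠ 0 → ∀ w ∈ L2 m, δ ≤ dist x (y + w)) →
      |S f| ≤ C * ∏ i, L i := by
  obtain ⟨C, h⟩ := hB.lip hC.fm hC.fin k R hδ
  exact ⟨C, fun f L hf h1 h2 => le_of_tendsto (hN.cv hC hf).abs (h.mono fun p hp => hp f L h1 h2)⟩

theorem Lm2.per {f : Fin k → R4 → ℝ} (hf : AdL (L2 m) f) (w : Fin k → R4) (hw : ∀ i, w i ∈ L2 m) :
    S (fun i y => f i (y - w i)) = S f := by
  have h1 : AdL (L2 m) fun i y => f i (y - w i) :=
    ⟨fun i => ⟨(hf.1 i).1.comp_homeomorph (Homeomorph.subRight _),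
      (hf.1 i).2.comp (contDiff_id.sub contDiff_const)⟩, fun i j hij x hx y hy v hv h =>
      hf.2 i j hij _ (YM7.tsupport_comp (θ := fun y => y - w i) (by fun_prop) hx) _
        (YM7.tsupport_comp (θ := fun y => y - w j) (by fun_prop) hy) (v + w j - w i)
        (L2.sub (L2.add hv (hw j)) (hw i)) (by rw [h]; abel)⟩
  choose z z0 z1 hz using hw
  refine tendsto_nhds_unique (hN.cv hC h1) ((hN.cv hC hf).congr' (hC.st.mono fun p ⟨e1, e2⟩ => ?_))
  have e : ∀ᵐ V ∂μ p, ∀ i, gf (src (a p) (f i)) V = gf (src (a p) fun y => f i (y - w i)) V :=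
    e2.per.mono fun V hV i => by
      rw [← gf_pe (hV _ (z0 i) (z1 i)), ← gf_tF]
      refine congrArg (gf · V) (funext fun x => funext₂ fun _ _ => congrArg (f i) ?_)
      ext l
      simp [hz, pt, ← e1, mul_sub, mul_assoc]
  refine integral_congr_ae (e.mono fun V hV => prod_congr rfl fun i _ => ?_)
  rw [hV i, integral_congr_ae (e.mono fun V hV => hV i)]

theorem Lm2.short {K : ℕ} (hS : Sho U μ μ a K) (hk : k ≤ K) {f : Fin k → R4 → ℝ}
    (hf : YM7.Adm f) : Tendsto (fun d : ℝ => log d⁻¹ ^ k * S fun i y => f i (d⁻¹ • y)) (𝓝[>] 0)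
      (𝓝 ((48 / (11 * GD.b0)) ^ k * fv f)) :=
  Metric.nhds_basis_closedBall.tendsto_right_iff.2 fun η η0 => by
    filter_upwards [hS k hk f hf η η0, adl_small hf hC.pos] with d h1 h2
    exact le_of_tendsto (((hN.cv hC h2).const_mul _).sub_const _).abs h1

theorem Lm2.trans {f : Fin k → R4 → ℝ} (hf : AdL (L2 m) f) (v : R4) :
    S (fun i y => f i (y + v)) = S f := by
  have := hN hf (F := fun p i => tF (fun l => ⌊v l / a p⌋) (src (a p) fun y => f i (y + v)))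
    (hC.fm.ap.mono fun p e i => by
      simpa only [sub_add_cancel] using near_tF e (fun y => f i (y + v)) (v := v) fun l => by
        have e3 := (le_div_iff₀' e).1 (Int.floor_le (v l / a p))
        have e4 := (div_lt_iff₀' e).1 (Int.lt_floor_add_one (v l / a p))
        rw [abs_le]
        constructor <;> linarith)
  refine tendsto_nhds_unique (hN.cv hC (hf.add v)) (this.congr' ?_)
  filter_upwards [hC.fm.ap, hC.st] with p e1 e2
  exact e2.2.gc_tF (fun i => fin_src e1 ((hf.add v).1 i).1) _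

theorem Lm2.refl {f : Fin k → R4 → ℝ} (hf : AdL (L2 m) f) : S (fun i => theta (f i)) = S f := by
  have := hN hf.theta (F := fun p i => rF (src (a p) (f i))) (hC.fm.ap.mono fun p e i => by
    simpa only [sub_zero, tF_zero] using near_rF e (f i) (v := 0) (s := 0) fun l => by simp [e.le])
  refine tendsto_nhds_unique (this.congr' ?_) (hN.cv hC hf)
  filter_upwards [hC.fm.ap, hC.st] with p e1 e2
  exact gc_of e2.2.rfl (fun i => fin_src e1 (hf.1 i).1) fun i => gf_rF (fin_src e1 (hf.1 i).1)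

theorem Lm2.swp {f : Fin k → R4 → ℝ} (hf : AdL (L2 m) f) :
    S (fun i y => f i (WithLp.toLp 2 (y ∘ Equiv.swap 0 1))) = S f := by
  let θ := LinearIsometryEquiv.piLpCongrLeft 2 ℝ ℝ (Equiv.swap (0 : Fin 4) 1).symm
  have h1 : AdL (L2 m) fun i y => f i (WithLp.toLp 2 (y ∘ Equiv.swap 0 1)) :=
    hf.comp θ.toHomeomorph θ.contDiff fun y _ ⟨z, z0, z1, e⟩ =>
      ⟨_, ⟨z ∘ Equiv.swap 0 1, by simpa, by simpa, rfl⟩, e ▸ rfl⟩
  refine tendsto_nhds_unique ((hN.cv hC h1).congr' ?_) (hN.cv hC hf)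
  filter_upwards [hC.fm.ap, hC.st] with p e1 e2
  exact gc_of e2.2.swp (fun i => fin_src e1 (hf.1 i).1)
    fun i => gf_prm _ fun x => f i (pt (a p) x)

theorem Lm2.gm {l : ℕ} {f : Fin k → R4 → ℝ} {g : Fin l → R4 → ℝ} (hf : PoL (L2 m) f)
    (hg : PoL (L2 m) g) {t : ℝ} (ht : 0 ≤ t) {s : ι → ℕ}
    (hs : ∀ᶠ p in U, |t - a p * s p| ≤ 4 * a p) :
    Tendsto (fun p => ∫ V, po (μ p) (a p) f (rfl0 V) * po (μ p) (a p) g (sht (s p) V) ∂μ p) U
      (𝓝 (S (rp f (sh (EuclideanSpace.single 0 t) g)))) := by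
  have := hN (hf.rp (hg.sh (v := EuclideanSpace.single 0 t) (by simpa))) (F := fun p => Fin.append
    (fun i => rF (src (a p) (f i))) fun i => tF (Pi.single 0 (s p)) (src (a p) (g i)))
    ((hC.fm.ap.and hs).mono fun p ⟨e, e'⟩ => YM5.forall_append₂ (P := Near (a p)) (fun i => by
      change Near _ _ (theta (f i))
      simpa only [sub_zero, tF_zero] using near_rF e (f i) (v := 0) (s := 0) fun l => by
        simp [e.le]) fun i => near_tF e _ (v := EuclideanSpace.single 0 t)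
        (s := Pi.single 0 (s p)) fun l => by
      by_cases hl : l = 0
      · simpa [hl] using e'.trans (by linarith)
      · simp [hl, e.le])
  refine this.congr' ?_
  filter_upwards [hC.fm.ap, hC.st] with p e1 e2
  have f1 := fun i => fin_src e1 (hf.1.1 i).1
  simp only [gc, Fin.prod_univ_add, Fin.append_left, Fin.append_right, gf_tF, gf_rF (f1 _),
    RGP.int_mp e2.2.rfl (cont_gf (f1 _)).measurable, e2.2.int_shf (fin_src e1 (hg.1.1 _).1)]
  rfl

theorem Lm2.pos {A : Type} [Fintype A] {κ : A → ℕ} {f : ∀ x, Fin (κ x) → R4 → ℝ}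
    (hf : ∀ x, PoL (L2 m) (f x)) (c : A → ℝ) {t : ℝ} (ht : 0 ≤ t) :
    (0 ≤ gr S f t c ∧ gr S f t c ≤ gr S f 0 c) ∧
      gr S f t c - (∑ x, c x * S (f x)) ^ 2 ≤ exp (-Δ * t) * gr S f 0 c := by
  have h0 := hC.fm.ap.and hC.st
  have B := fun p (e : 0 < a p) x => Y6.bm_of_cont ((hf x).po (μ p) e).1
  have lim : ∀ t ≥ 0, Tendsto (fun p => ∫ V, (∑ x, c x * po (μ p) (a p) (f x) (rfl0 V)) *
      ∑ y, c y * po (μ p) (a p) (f y) (sht (⌊t / a p⌋₊ : ℕ) V) ∂μ p) U (𝓝 (gr S f t c)) :=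
    fun t ht => (tendsto_finsetSum _ fun x _ => tendsto_finsetSum _ fun y _ =>
      (hN.gm hC (hf x) (hf y) ht (s := fun p => ⌊t / a p⌋₊) (h0.mono fun p e => by
        have e1 := (le_div_iff₀' e.1).1 (Nat.floor_le (div_nonneg ht e.1.le))
        have e2 := (div_le_iff₀' e.1).1 (Nat.lt_floor_add_one (t / a p)).le
        rw [abs_le]
        constructor <;> linarith [e.1])).const_mul _).congr' (h0.mono fun p e => by
      have := e.2.2.prob
      exact (int_bil (μ p) (fun x => (B p e.1 x).comp cont_rfl0.measurable)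
        (fun x => (B p e.1 x).comp (cont_sht _).measurable) c c).symm)
  have l1 := lim t ht
  have l0 := lim 0 le_rfl
  simp only [zero_div, Nat.floor_zero, sht_zero] at l0
  have l2 : Tendsto (fun p => ∫ V, ∑ x, c x * po (μ p) (a p) (f x) V ∂μ p) U
      (𝓝 (∑ x, c x * S (f x))) :=
    (tendsto_finsetSum _ fun x _ => (hN.cv hC (hf x).1).const_mul _).congr' (h0.mono fun p e => by
      have := e.2.2.prob
      simp only
      rw [integral_finsetSum _ fun x _ => ((B p e.1 x).integrable _).const_mul _]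
      exact sum_congr rfl fun x _ => (integral_const_mul _ _).symm)
  have l3 : Tendsto (fun p => exp (-(Δ * a p) * (⌊t / a p⌋₊ : ℕ))) U (𝓝 (exp (-Δ * t))) := by
    refine (continuous_exp.tendsto _).comp ?_
    simp only [neg_mul, mul_assoc]
    refine (Tendsto.const_mul Δ ?_).neg
    have a0 := hC.fm.a0.mono_right nhdsWithin_le_nhds
    refine tendsto_of_tendsto_of_tendsto_of_le_of_le' (by simpa using a0.const_sub t)
      tendsto_const_nhds (hC.fm.ap.mono fun p e => ?_) (hC.fm.ap.mono fun p e =>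
        (le_div_iff₀' e).1 (Nat.floor_le (div_nonneg ht e.le)))
    linarith [(div_le_iff₀' e).1 (Nat.lt_floor_add_one (t / a p)).le]
  have h3 := h0.mono fun p e => by
    obtain ⟨K, h1⟩ := (eventually_all.2 fun x => ((hf x).po (μ p) e.1).2).exists
    have c1 : Continuous fun V => ∑ x, c x * po (μ p) (a p) (f x) V :=
      continuous_finsetSum _ fun x _ => ((hf x).po (μ p) e.1).1.const_mul _
    have c2 : DependsOn (fun V => ∑ x, c x * po (μ p) (a p) (f x) V) (Wn K) :=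
      fun V V' H => sum_congr rfl fun x _ => by rw [h1 x H]
    exact And.intro (e.2.2.gram _ K ⌊t / a p⌋₊ c1 c2) (e.2.2.clus _ K ⌊t / a p⌋₊ c1 c2)
  exact ⟨⟨ge_of_tendsto l1 (h3.mono fun _ e => e.1.1),
    le_of_tendsto_of_tendsto l1 l0 (h3.mono fun _ e => e.1.2)⟩,
    le_of_tendsto_of_tendsto (l1.sub (l2.pow 2)) (l3.mul l0) (h3.mono fun _ e => e.2)⟩

theorem Lm2.os2 (hB : Bd (L2 m) U μ μ a τ) : OS2 m Δ S where
  nil f := tendsto_nhds_unique (hN.cv hC ⟨fun i => i.elim0, fun i => i.elim0⟩)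
    (tendsto_const_nhds.congr' (hC.st.mono fun p e => by have := e.2.prob; simp [gc]))
  perm e f hf := tendsto_nhds_unique (hN.cv hC (hf.reindex e)) ((hN.cv hC hf).congr fun _ =>
    (gc_equiv e _ _ fun i => src _ (f i)).symm)
  trans := hN.trans hC
  refl := hN.refl hC
  per := hN.per hC
  cont hf := Metric.nhds_basis_closedBall.tendsto_right_iff.2 fun _ ε0 =>
    (hB.cont hC.fm hC.fin (closed_L2 m) hf ε0).mono fun _ hu =>
      le_of_tendsto ((hN.cv hC hu.1).sub (hN.cv hC hf)).abs hu.2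
  pos hf c _ := hN.pos hC hf c

omit hN hC

/-- one sequence for countably many planes -/
theorem planes {Φ : Filter ι} [Φ.NeBot] [Φ.IsCountablyGenerated] {M Δ : ℕ → ℝ} {n : ℕ → ι → ℕ}
    {μ : ℕ → ι → Measure Fd} (hC : ∀ s, Pln Φ (M s) (Δ s) (n s) a τ (μ s))
    (hB : ∀ s, Bd (L2 (M s)) Φ (μ s) (μ s) a τ) (hS : ∀ s K, Sho Φ (μ s) (μ s) a K) :
    ∃ p : ℕ → ι, Tendsto p atTop Φ ∧
      ∀ s, Out2 (fun j => μ s (p j)) (fun j => a (p j)) (M s) (Δ s) := by
  obtain ⟨U, hU⟩ := Φ.exists_ultrafilter_le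
  have cU := fun s => (hC s).mono hU
  have bU := fun s => (hB s).mono hU
  have hN := fun s => exists_lm2 U (cU s) (bU s)
  choose S hN using hN
  choose G g0 g1 g2 using fun s => (hB s).seq (hC s).fm (hC s).fin (closed_L2 (M s)) U hU (S := S s)
    fun k f hf => Lm2.cv (hN s) (cU s) hf
  have : ((⨅ s, G s) ⊓ Φ).NeBot := neBot_of_le (le_inf (le_iInf g1) hU)
  obtain ⟨p, hp⟩ := exists_seq_tendsto ((⨅ s, G s) ⊓ Φ)
  obtain ⟨p1, p2⟩ := tendsto_inf.1 hp
  refine ⟨p, p2, fun s => ?_⟩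
  have hO := Lm2.os2 (hN s) (cU s) (bU s)
  have hA := fun k f => Lm2.short (hN s) (cU s) ((hS s k).mono hU) le_rfl (f := f)
  exact ⟨S s, fun k f hf => ⟨((g2 s k f hf).comp (tendsto_iInf.1 p1 s)).congr fun j =>
    (corr_eq ..).symm, hO.trans hf, hO.refl hf, Lm2.swp (hN s) (cU s) hf⟩,
    Lm2.lip (hN s) (cU s) (bU s), hA, hO.hilbert (hA 2)⟩

end Pool.Agent.Lib.MP_7f377f_mp.YM9
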