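import Pool.Agent.Lib.MP_7f377f_mp.G.TwG3
import Pool.Agent.Lib.MP_7f377f_mp.G.TwC2

/-! Diagonal reflection positivity and linearity of the continuum limit on the plane times a
torus. -/

noncomputable section

set_option linter.unusedSectionVars false
variable [Pool.Agent.Lib.MP_7f377f_mp.GD]

namespace Pool.Agent.Lib.MP_7f377f_mp.YM9

open MeasureTheory Filter Topology Function Real Finset

variable {k l : ℕ} {m Δ : ℝ}

/-- exchange of the two long axes -/
abbrev sx (y : R4) : R4 := WithLp.toLp 2 (y ∘ Equiv.swap 0 1)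

theorem dep_hd {F : Sr} {K : ℕ} (hF : ∀ x, F x ≠ 0 → x 1 < x 0 ∧ |x 0| < K ∧ |x 1| < K) :
    DependsOn (gf F) (Hd ∩ Sq K) := fun U V H => tsum_congr fun x => by
  by_cases hx : F x = 0
  · simp [hx]
  obtain ⟨h0, h1, h4⟩ := hF x hx
  have h2 : ∀ i, U (x, i) = V (x, i) := fun i => H _ ⟨⟨h0.le, fun _ => h0⟩, h1.le, h4.le⟩
  have h3 : ∀ i j, i ≠ j → U (x + Pi.single i 1, j) = V (x + Pi.single i 1, j) := fun i j e => H _ (by
    rw [abs_lt] at h1 h4
    simp only [Hd, Sq, Set.mem_inter_iff, Set.mem_ofPred_eq, Pi.add_apply, Pi.single_apply, abs_le]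
    split_ifs <;> omega)
  refine sum_congr rfl fun i _ => sum_congr rfl fun j _ => if_ctx_congr Iff.rfl (fun e => ?_)
    fun _ => rfl
  simp only [pe, h2, h3 i j e.ne, h3 j i e.ne']

theorem AdL.sx {f : Fin k → R4 → ℝ} (hf : AdL (L2 m) f) : AdL (L2 m) fun i y => f i (sx y) :=
  let θ := LinearIsometryEquiv.piLpCongrLeft 2 ℝ ℝ (Equiv.swap (0 : Fin 4) 1).symm
  hf.comp θ.toHomeomorph θ.contDiff fun _ _ ⟨z, z0, z1, e⟩ =>
    ⟨_, ⟨z ∘ Equiv.swap 0 1, by simpa, by simpa, rfl⟩, e ▸ rfl⟩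

theorem AdL.rs {f : Fin k → R4 → ℝ} {g : Fin l → R4 → ℝ} (hf : AdL (L2 m) f) (hg : AdL (L2 m) g)
    (f1 : ∀ i, tsupport (f i) ⊆ {y | y 1 < y 0}) (g1 : ∀ i, tsupport (g i) ⊆ {y | y 1 < y 0}) :
    AdL (L2 m) (Fin.append (fun i y => f i (YM9.sx y)) g) := by
  refine ⟨YM5.forall_append (P := fun u => HasCompactSupport u ∧ ContDiff ℝ 1 u) hf.sx.1 hg.1,
    fun i j hij => YM5.pairwise_append (R := fun u v : R4 → ℝ => ∀ x ∈ tsupport u,
      ∀ y ∈ tsupport v, ∀ w ∈ L2 m, x ≠ y + w)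
      (fun u v H x hx y hy w hw h => H y hy x hx (-w) (L2.neg hw) ?_) hf.sx.2 hg.2
      (fun i j x hx y hy w hw h => ?_) hij⟩
  · rw [h, add_neg_cancel_right]
  · have h1 := f1 i (YM7.tsupport_comp (θ := YM9.sx) (by fun_prop) hx)
    have h2 := g1 j hy
    obtain ⟨z, z0, z1, rfl⟩ := hw
    simp [h, pt, z0, z1] at h1 h2
    linarith

variable [MeasurableSpace SU2] [BorelSpace SU2]

/-- reflection positivity of a lattice state for the diagonal mirror -/
def SwL (μ : Measure Fd) : Prop := ∀ (F : Fd → ℝ) (k : ℕ), Continuous F →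
  DependsOn F (Hd ∩ Sq k) → 0 ≤ ∫ U, F (sw U) * F U ∂μ

theorem po_hd {f : Fin k → R4 → ℝ} (hf : ∀ i, HasCompactSupport (f i))
    (f1 : ∀ i, tsupport (f i) ⊆ {y | y 1 < y 0}) (μ : Measure Fd) {a : ℝ} (ha : 0 < a) :
    Continuous (po μ a f) ∧ ∀ᶠ K : ℕ in atTop, DependsOn (po μ a f) (Hd ∩ Sq K) := by
  have h1 := fun i => fin_src ha (hf i)
  refine ⟨continuous_finsetProd _ fun i _ => (cont_gf (h1 i)).sub continuous_const,
    (eventually_all.2 fun i => (h1 i).eventually_all.2 fun x _ =>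
      (eventually_gt_atTop |x 0|.toNat).and (eventually_gt_atTop |x 1|.toNat)).mono
        fun K hK U V H => prod_congr rfl fun i _ => ?_⟩
  rw [dep_hd (fun x hx => ⟨?_, ?_⟩) H]
  · have := f1 i (subset_tsupport _ (src_ne hx))
    exact_mod_cast lt_of_mul_lt_mul_left (show a * x 1 < a * x 0 from this) ha.le
  · have := hK i x hx
    omega

variable {ι : Type} {a τ : ι → ℝ} {μ : ι → Measure Fd} {S : ∀ {k : ℕ}, (Fin k → R4 → ℝ) → ℝ}
  {U : Filter ι} [U.NeBot] {n : ι → ℕ} (hN : Lm2 U m a μ S) (hC : Pln U m Δ n a τ μ)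
include hN hC

theorem Lm2.swap (hW : ∀ᶠ p in U, SwL (μ p)) {A : Type} [Fintype A] {κ : A → ℕ}
    {f : ∀ x, Fin (κ x) → R4 → ℝ} (hf : ∀ x, AdL (L2 m) (f x))
    (f1 : ∀ x i, tsupport (f x i) ⊆ {y | y 1 < y 0}) (c : A → ℝ) :
    0 ≤ ∑ x, ∑ y, c x * c y * S (Fin.append (fun i y => f x i (sx y)) (f y)) := by
  refine ge_of_tendsto (tendsto_finsetSum _ fun x _ => tendsto_finsetSum _ fun y _ =>
    (hN.cv hC ((hf x).rs (hf y) (f1 x) (f1 y))).const_mul _) ?_
  filter_upwards [hC.fm.ap, hC.st, hW] with p e1 e2 e3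
  have := e2.2.prob
  have B := fun x => po_hd (fun i => ((hf x).1 i).1) (f1 x) (μ p) e1
  obtain ⟨K, h1⟩ := (eventually_all.2 fun x => (B x).2).exists
  refine (e3 (fun V => ∑ x, c x * po (μ p) (a p) (f x) V) K
    (continuous_finsetSum _ fun x _ => (B x).1.const_mul _)
    fun V V' H => sum_congr rfl fun x _ => by rw [h1 x H]).trans_eq ?_
  rw [int_bil (μ p) (fun x => (Y6.bm_of_cont (B x).1).comp cont_sw.measurable)
    fun x => Y6.bm_of_cont (B x).1]
  refine sum_congr rfl fun x _ => sum_congr rfl fun y _ => congrArg _ ?_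
  have e : ∀ i V, gf (src (a p) fun y => f x i (sx y)) V = gf (src (a p) (f x i)) (sw V) :=
    fun i => gf_prm _ fun y => f x i (pt (a p) y)
  simp only [gc, Fin.prod_univ_add, Fin.append_left, Fin.append_right, e, po, sw,
    RGP.int_mp e2.2.swp (cont_gf (fin_src e1 ((hf x).1 _).1)).measurable]

theorem Lm2.lin {f : Fin k → R4 → ℝ} {g g' : R4 → ℝ} (c : ℝ)
    (h1 : AdL (L2 m) (Fin.cons g f : Fin (k + 1) → _))
    (h2 : AdL (L2 m) (Fin.cons g' f : Fin (k + 1) → _))
    (h3 : AdL (L2 m) (Fin.cons (g + c • g') f : Fin (k + 1) → _)) :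
    S (Fin.cons (g + c • g') f) = S (Fin.cons g f) + c * S (Fin.cons g' f) := by
  refine tendsto_nhds_unique (hN.cv hC h3)
    (((hN.cv hC h1).add ((hN.cv hC h2).const_mul c)).congr' ?_)
  filter_upwards [hC.fm.ap, hC.st] with p e1 e2
  have := e2.2.prob
  have c1 := cont_gf (fin_src e1 (h1.1 0).1)
  have c2 := cont_gf (fin_src e1 (h2.1 0).1)
  have c3 := fun i : Fin k => cont_gf (fin_src e1 (h1.1 i.succ).1)
  have f1 := fin_src e1 (h1.1 0).1
  have f2 := fin_src e1 (h2.1 0).1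
  simp only [Fin.cons_zero, Fin.cons_succ] at c1 c2 c3 f1 f2
  have e : ∀ V, gf (src (a p) (g + c • g')) V = gf (src (a p) g) V + c * gf (src (a p) g') V :=
    fun V => by
      have D := fun {F : Sr} (h : support F ⊆ support (src (a p) g) ∪ support (src (a p) g')) =>
        gf_sum (F := F) (D := (f1.union f2).toFinset) (fun x hx => (f1.union f2).mem_toFinset.2 (h hx)) V
      rw [D Set.subset_union_left, D Set.subset_union_right, D fun x hx => by
        by_contra! h
        simp only [Set.mem_union, mem_support, not_or, not_not] at h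
        refine hx (funext₂ fun i j => ?_)
        have e1 := congrFun₂ h.1 i j
        have e2 := congrFun₂ h.2 i j
        simp only [src, Pi.zero_apply] at e1 e2
        simp [src, e1, e2]]
      simp only [mul_sum, ← sum_add_distrib, src, Pi.add_apply, Pi.smul_apply, smul_eq_mul]
      refine sum_congr rfl fun x _ => sum_congr rfl fun i _ => sum_congr rfl fun j _ => ?_
      split_ifs <;> ring
  have i := fun {F : Fd → ℝ} (h : Continuous F) => (Y6.bm_of_cont h).integrable (μ p)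
  simp only [gc, Fin.prod_univ_succ, Fin.cons_zero, Fin.cons_succ, e]
  rw [integral_add (i c1) (i (by fun_prop)), integral_const_mul, ← integral_const_mul,
    ← integral_add (i (by fun_prop)) (i (by fun_prop))]
  refine congrArg _ (funext fun V => ?_)
  ring

end Pool.Agent.Lib.MP_7f377f_mp.YM9
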