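import Pool.Agent.Lib.MP_7f377f_mp.G.PlH
import Pool.Agent.Lib.MP_7f377f_mp.G.PlH0

/-! The functional on the planar net which belongs to the continuum limit. -/

noncomputable section

namespace Pool.Agent.Lib.MP_7f377f_mp.Pl
variable [Pool.Agent.Lib.MP_7f377f_mp.GD]
set_option linter.unusedSectionVars false

open MeasureTheory Filter Topology Set Real YM7 Pur MvPolynomial Ro
open YM9 (AdL L2 PoL OS2 Lm2 Pln Bd SwL PY)
open scoped NNReal

variable {k : ℕ} {m Δ : ℝ} {f : Fin k → R4 → ℝ} {S : ∀ {k : ℕ}, (Fin k → R4 → ℝ) → ℝ}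
  {W : Pol →ₗ[ℂ] ℂ}

theorem Adm.adl (hf : Adm f) (m : ℝ) : AdL (L2 m) f :=
  ⟨hf.1, fun i j hij x hx y hy _ ⟨z, z0, z1, e⟩ h => hf.2 hij x hx y hy
    (pl_ext (by simp [h, e, YM9.pt, z0]) (by simp [h, e, YM9.pt, z1]))⟩

theorem sw_eq (y : R4) : sw.symm y = YM9.sx y := by
  rw [show sw.symm = sw from inv_eq_of_mul_eq_one_left sw_sw]
  ext i
  simp [prm_apply]

theorem st_of (hS : OS2 m Δ S) {μ : Fin 4} [Pd μ]
    (p : ∀ {k} {f : Fin k → R4 → ℝ}, AdL (L2 m) f →
      AdL (L2 m) (fun i y => f i (PN.sw μ y)) ∧ S (fun i y => f i (PN.sw μ y)) = S f)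
    (h : ∀ {k} {f : Fin k → R4 → ℝ}, Adm f → W (mon f) = S f) : net.St W μ := by
  obtain ⟨H, _, _, _, ψ, T, -, h1, -, -, h2, -⟩ := hS.ker.reconstruct
  have q : ∀ {k} {f : Fin k → R4 → ℝ}, Adm f → (∀ i, tsupport (f i) ⊆ Hs μ 0) →
      PoL (L2 m) fun i y => f i (PN.sw μ y) := fun hf h =>
    ⟨(p (hf.adl m)).1, (PN.pos_sw hf.old h).2⟩
  have key : ∀ {r : ℕ} (c : Fin r → ℂ) {k : Fin r → ℕ} {f : ∀ a, Fin (k a) → R4 → ℝ}
      (f1 : ∀ a, Adm (f a)) (f2 : ∀ a i, tsupport (f a i) ⊆ Hs μ 0),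
      net.nq W μ (∑ a, c a • mon (f a)) = ‖∑ a, c a • ψ ⟨⟨_, _⟩, q (f1 a) (f2 a)⟩‖ ^ 2 := by
    intro r c k f f1 f2
    rw [Net.nq, ← inner_self_eq_norm_sq (𝕜 := ℂ), map_sum, Finset.sum_mul, map_sum, sum_inner]
    refine congrArg Complex.re (Finset.sum_congr rfl fun a _ => ?_)
    rw [Finset.mul_sum, map_sum, inner_sum]
    refine Finset.sum_congr rfl fun a' _ => ?_
    have e1 := adm_rp (f1 a) (f1 a') (f2 a) (f2 a')
    rw [net.Θ_smul, smul_mul_smul_comm, map_smul, Θ_mon, ← mon_append, h e1, inner_smul_left,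
      inner_smul_right, h1, ← (p (e1.adl m)).2, smul_eq_mul, mul_assoc]
    congr 4
    funext i y
    induction i using Fin.addCases with
    | left i =>
      simp only [rp, Fin.append_left]
      exact congrArg _ (PN.rf_sw μ y)
    | right i => simp only [rp, Fin.append_right]
  refine ⟨?_, fun {Z} v hZ => ?_, fun {Z} hZ => ?_, fun {Z} hZ => ?_, fun {Z v} hZ hv => ?_⟩
  · have := h (f := ![]) ⟨fun i => i.elim0, fun i => i.elim0⟩
    rwa [mon, Fin.prod_univ_zero, hS.nil] at this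
  · obtain ⟨r, c, k, f, f1, -, rfl⟩ := exists_sum hZ
    simp only [map_sum, map_smul, τ_mon]
    refine Finset.sum_congr rfl fun a _ => ?_
    rw [h (adm_sub (f1 a) v), h (f1 a), ← hS.trans ((f1 a).adl m) (-v)]
    simp only [sub_eq_add_neg]
  · obtain ⟨r, c, k, f, f1, -, rfl⟩ := exists_sum hZ
    simp only [map_sum, map_smul, net.Θ_smul, Θ_mon, smul_eq_mul, map_mul]
    refine Finset.sum_congr rfl fun a _ => ?_
    rw [h (adm_rf (f1 a) μ), h (f1 a), Complex.conj_ofReal, ← (p ((f1 a).adl m)).2,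
      ← (p ((adm_rf (f1 a) μ).adl m)).2]
    refine congrArg _ (congrArg _ (Eq.trans ?_ (hS.refl (p ((f1 a).adl m)).1)))
    exact congrArg S (funext fun i => funext fun y => congrArg _ (PN.rf_sw μ y))
  · obtain ⟨r, c, k, f, f1, f2, rfl⟩ := exists_sum hZ
    rw [key c f1 f2]
    positivity
  · obtain ⟨r, c, k, f, f1, f2, rfl⟩ := exists_sum hZ
    have v0 := hv.trans_eq (PN.sw_zero μ v).symm
    obtain ⟨t1, -, -, t2⟩ := h2 (PN.sw μ v) v0
    simp only [map_sum, map_smul, τ_mon]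
    rw [key c f1 f2, key c (fun a => adm_sub (f1 a) v) fun a i y hy => by
      have := f2 a i (tsupport_comp (θ := fun y => y - v) (by fun_prop) hy)
      simp only [Hs, mem_ofPred_eq, PiLp.sub_apply] at this ⊢
      linarith]
    gcongr
    refine le_trans (le_of_eq (congrArg _ ?_))
      (((T (PN.sw μ v)).le_of_opNorm_le t1 _).trans_eq (one_mul _))
    rw [map_sum]
    refine Finset.sum_congr rfl fun a _ => ?_
    rw [map_smul, t2, YM9.sg2_eq v0]
    unfold sh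
    simp only [PN.sw_sub]

variable [MeasurableSpace SU2] [BorelSpace SU2] {ι : Type} {a τ : ι → ℝ} {μ : ι → Measure YM9.Fd}
  {U : Filter ι} [U.NeBot] {n : ι → ℕ} (hN : Lm2 U m a μ S) (hC : Pln U m Δ n a τ μ)
  (h : ∀ {k} {f : Fin k → R4 → ℝ}, Adm f → W (mon f) = S f)
include hN hC h

theorem linP_of : LinP W := by
  intro g g' c g1 g2 g3 g4 Z hZ
  obtain ⟨r, d, k, f, f1, f2, rfl⟩ := exists_sum hZ
  simp only [Finset.mul_sum, mul_smul_comm, map_sum, map_smul, ← Finset.sum_add_distrib]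
  refine Finset.sum_congr rfl fun i _ => ?_
  have a1 : PN.Gd (tsupport g ∪ tsupport g') g := ⟨g1, g2, subset_union_left⟩
  have a2 : PN.Gd (tsupport g ∪ tsupport g') g' := ⟨g3, g4, subset_union_right⟩
  have a3 : ∀ {u}, PN.Gd (tsupport g ∪ tsupport g') u →
      Adm (Fin.cons u (f i) : Fin (k i + 1) → _) := fun hu => adm_cons hu.1 hu.2.1 (f1 i) fun j =>
    (Dj.of (disjoint_compl_right.mono_left sub_cy)).mono hu.2.2 (f2 i j)
  rw [← PN.mon_cons, ← PN.mon_cons, ← PN.mon_cons, h (a3 (a1.comb a2 c)), h (a3 a1), h (a3 a2),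
    hN.lin hC c ((a3 a1).adl m) ((a3 a2).adl m) ((a3 (a1.comb a2 c)).adl m)]
  simp only [smul_eq_mul]
  push_cast
  ring

theorem qual_of (hB : Bd (L2 m) U μ μ a τ) : Qual W := fun k R δ δ0 =>
  (hN.lip hC hB k R δ δ0).imp fun C hC f L hf h1 h2 => by
    rw [h hf, Complex.norm_real]
    refine hC f L (hf.adl m) h1 fun i j hij x y hx hy _ ⟨z, z0, z1, e⟩ => ?_
    refine (h2 i j hij x y hx hy).trans (le_of_eq_of_le ?_ (pd_le x _))
    rw [show pl (y + _) = pl y from pl_ext (by simp [e, YM9.pt, z0]) (by simp [e, YM9.pt, z1])]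

theorem inv_sw : Inv W sw := .of_mon fun k f hf => by
  rw [act_mon, h (adm_act hf _), h hf]
  simp only [sw_eq, hN.swp hC (hf.adl m)]

theorem swapRP_of (hW : ∀ᶠ p in U, SwL (μ p)) : SwapRP W := fun Z hZ => by
  obtain ⟨r, c, k, f, f1, f2, rfl⟩ := exists_sum hZ
  have a1 : ∀ u u', Adm (Fin.append (fun i y => f u i (YM9.sx y)) (f u')) := fun u u' => by
    simp only [← sw_eq]
    refine (adm_act (f1 u) _).append (f1 u') fun i j x hx y hy e => ?_
    have e2 := f2 u i (tsupport_comp sw.symm.continuous hx)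
    have e3 := f2 u' j hy
    simp only [sw_eq, mem_ofPred_eq, Function.comp, Equiv.swap_apply_left,
      Equiv.swap_apply_right, pl_eq e 0, pl_eq e 1] at e2 e3
    exact e2.not_gt e3
  have a2 := hN.swap hC hW (fun u => (f1 u).adl m) f2
  refine (add_nonneg (a2 fun u => (c u).re) (a2 fun u => (c u).im)).trans_eq ?_
  have a3 : ∀ u, map (starRingEnd ℂ) (c u • mon (f u)) = starRingEnd ℂ (c u) • mon (f u) :=
    fun u => by simp [mon, smul_eq_C_mul]
  simp only [map_sum, a3, map_smul, act_mon, Finset.sum_mul_sum, smul_mul_smul_comm,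
    ← mon_append, sw_eq, h (a1 _ _), Complex.re_sum, ← Finset.sum_add_distrib, smul_eq_mul]
  refine Finset.sum_congr rfl fun u _ => Finset.sum_congr rfl fun u' _ => ?_
  simp
  ring

theorem st_lim0 (hB : Bd (L2 m) U μ μ a τ) : net.St W 0 :=
  st_of (hN.os2 hC hB) (fun hf => by
    have : ∀ y, PN.sw 0 y = y := fun y => by ext l; simp [PN.sw]
    simpa only [this, and_true] using hf) h

theorem st_lim1 (hB : Bd (L2 m) U μ μ a τ) : net.St W 1 :=
  st_of (hN.os2 hC hB) (fun hf => ⟨hf.sx, hN.swp hC hf⟩) h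

/-- the hypotheses of the rotation theorem -/
theorem hh_lim (hB : Bd (L2 m) U μ μ a τ) (hW : ∀ᶠ p in U, SwL (μ p)) (ht : ThinQ W) : HH W :=
  hh_of (st_lim0 hN hC h hB) (st_lim1 hN hC h hB) (linP_of hN hC h) (qual_of hN hC h hB)
    (inv_sw hN hC h) (fun f hf => by rw [h hf, Complex.ofReal_im]) (swapRP_of hN hC h hW) ht

omit h in
theorem lift_lim (hB : Bd (L2 m) U μ μ a τ) :
    ∃ W : Pol →ₗ[ℂ] ℂ, ∀ {k} {f : Fin k → R4 → ℝ}, Adm f → W (mon f) = S f :=
  exists_lift (S := fun f => S f) fun e _ hf => congrArg _ ((hN.os2 hC hB).perm e (hf.adl m))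

end Pool.Agent.Lib.MP_7f377f_mp.Pl
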