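import Pool.Agent.Lib.MP_7f377f_mp.G.RoC

/-! The net of polynomials in fields whose supports have disjoint projections to the plane. -/

noncomputable section

namespace Pool.Agent.Lib.MP_7f377f_mp.Pl
variable [Pool.Agent.Lib.MP_7f377f_mp.GD]
set_option linter.unusedSectionVars false

open Filter Topology Set ComplexConjugate YM7 Pur Ro MvPolynomial

/-- the projection to the plane `01` -/
def pl : R4 →L[ℝ] R4 := RoC.io ∘L RoC.pj

/-- the two directions of the plane -/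
class Pd (μ : Fin 4) : Prop where
  eq : ∀ y, pl y μ = y μ

instance : Pd 0 := ⟨fun _ => RoC.io0 _⟩

instance : Pd 1 := ⟨fun _ => RoC.io1 _⟩

instance : Pd (Fin.succ 0) := ⟨fun _ => RoC.io1 _⟩

theorem pl_eq {x y : R4} (h : pl x = pl y) (μ : Fin 4) [Pd μ] : x μ = y μ := by
  rw [← Pd.eq x, h, Pd.eq]

theorem pl2 (y : R4) : pl y 2 = 0 := RoC.io2 _

theorem pl3 (y : R4) : pl y 3 = 0 := RoC.io3 _

theorem pd_cases (μ : Fin 4) [h : Pd μ] : μ = 0 ∨ μ = 1 := by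
  have := h.eq (ax μ 1)
  fin_cases μ <;> simp_all [pl2, pl3]

theorem pl_ext {x y : R4} (h0 : x 0 = y 0) (h1 : x 1 = y 1) : pl x = pl y :=
  congrArg RoC.io (Prod.ext h0 h1)

theorem pl_pl (y : R4) : pl (pl y) = pl y := pl_ext (Pd.eq y) (Pd.eq y)

theorem pl_ax (μ : Fin 4) [Pd μ] (t : ℝ) : pl (ax μ t) = ax μ t := by
  ext i
  rcases pd_cases μ with rfl | rfl <;> fin_cases i <;> simp [Pd.eq, pl2, pl3]

theorem pl_rf (μ : Fin 4) (y : R4) : pl (rf μ y) = rf μ (pl y) := by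
  ext i
  by_cases h : i = μ
  · subst h
    rw [rf_self]
    fin_cases i <;> simp [Pd.eq, pl2, pl3]
  · rw [rf_ne h]
    fin_cases i <;> simp [Pd.eq, pl2, pl3] <;> exact rf_ne h y

theorem abs_le_pd (μ : Fin 4) [Pd μ] (x y : R4) : |x μ - y μ| ≤ dist (pl x) (pl y) := by
  rw [← Pd.eq x, ← Pd.eq y]
  exact PiLp.dist_apply_le (pl x) (pl y) μ

theorem pd_sq (x y : R4) : dist (pl x) (pl y) = √((x 0 - y 0) ^ 2 + (x 1 - y 1) ^ 2) := by
  simp [EuclideanSpace.dist_eq, Fin.sum_univ_four, Pd.eq, pl2, pl3, Real.dist_eq]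

theorem pd_le (x y : R4) : dist (pl x) (pl y) ≤ dist x y := by
  rw [pd_sq, EuclideanSpace.dist_eq, Fin.sum_univ_four]
  simp only [Real.dist_eq, sq_abs]
  exact Real.sqrt_le_sqrt (by nlinarith [sq_nonneg (x 2 - y 2), sq_nonneg (x 3 - y 3)])

/-- sets which only depend on the projection -/
class Cyl (O : Set R4) : Prop where
  mem : ∀ {x y}, pl x = pl y → x ∈ O → y ∈ O

/-- the cylinder over a set -/
def Cy (K : Set R4) : Set R4 := {y | ∃ x ∈ K, pl x = pl y}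

/-- disjoint projections -/
def Dj (O O' : Set R4) : Prop := ∀ x ∈ O, ∀ y ∈ O', pl x ≠ pl y

instance (K : Set R4) : Cyl (Cy K) := ⟨fun e ⟨x, h, e'⟩ => ⟨x, h, e'.trans e⟩⟩

instance (μ : Fin 4) [Pd μ] (t : ℝ) : Cyl (Hs μ t) :=
  ⟨fun e h => (show t < _ from h).trans_eq (pl_eq e μ)⟩

instance (m : ℝ) : Cyl (Cz m) := ⟨fun e h => by
  simpa only [Cz, mem_ofPred_eq, pl_eq e 0, pl_eq e 1] using h⟩

instance (O : Set R4) [Cyl O] : Cyl Oᶜ := ⟨fun e h h' => h (Cyl.mem e.symm h')⟩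

instance (O O' : Set R4) [Cyl O] [Cyl O'] : Cyl (O ∩ O') :=
  ⟨fun e h => ⟨Cyl.mem e h.1, Cyl.mem e h.2⟩⟩

instance (O O' : Set R4) [Cyl O] [Cyl O'] : Cyl (O ∪ O') :=
  ⟨fun e h => h.imp (Cyl.mem e) (Cyl.mem e)⟩

instance {I : Type} (O : I → Set R4) [∀ i, Cyl (O i)] : Cyl (⋃ i, O i) :=
  ⟨fun e h => let ⟨i, h⟩ := mem_iUnion.1 h; mem_iUnion.2 ⟨i, Cyl.mem e h⟩⟩

section
variable {O O' K K' : Set R4}

theorem sub_cy : K ⊆ Cy K := fun x h => ⟨x, h, rfl⟩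

theorem cy_sub [Cyl O] (h : K ⊆ O) : Cy K ⊆ O := fun _ ⟨_, hx, e⟩ => Cyl.mem e (h hx)

theorem Dj.symm (h : Dj O O') : Dj O' O := fun x hx y hy e => h y hy x hx e.symm

theorem Dj.mono (h : Dj O O') (e : K ⊆ O) (e' : K' ⊆ O') : Dj K K' :=
  fun x hx y hy => h x (e hx) y (e' hy)

theorem Dj.of [Cyl O'] (h : Disjoint O O') : Dj O O' :=
  fun _ hx _ hy e => disjoint_left.1 h hx (Cyl.mem e.symm hy)

theorem Dj.cy (h : Dj O O') : Disjoint (Cy O) (Cy O') :=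
  disjoint_left.2 fun _ ⟨x, hx, e⟩ ⟨y, hy, e'⟩ => h x hx y hy (e.trans e'.symm)

theorem Dj.dis (h : Dj O O') : Disjoint O O' := h.cy.mono sub_cy sub_cy

theorem Dj.of_pd {δ : ℝ} (δ0 : 0 < δ) (h : ∀ x ∈ O, ∀ y ∈ O', δ ≤ dist (pl x) (pl y)) : Dj O O' :=
  fun x hx y hy e => (h x hx y hy).not_gt (by rwa [e, dist_self])

end

/-- a commutative algebra with translations, reflections and local subspaces -/
structure Net (P : Type) [CommRing P] [Algebra ℂ P] where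
  τ : R4 → P →ₐ[ℂ] P
  Θ : Fin 4 → P →+* P
  loc : Set R4 → Submodule ℂ P
  τ_zero : ∀ X, τ 0 X = X
  τ_τ : ∀ u v X, τ u (τ v X) = τ (u + v) X
  Θ_smul : ∀ μ (c : ℂ) X, Θ μ (c • X) = conj c • Θ μ X
  Θ_Θ : ∀ μ X, Θ μ (Θ μ X) = X
  Θ_τ : ∀ μ v X, Θ μ (τ v X) = τ (rf μ v) (Θ μ X)
  mono : ∀ {O O' X}, X ∈ loc O → O ⊆ O' → X ∈ loc O'
  one : ∀ O, 1 ∈ loc O
  mulD : ∀ {O O' X Y}, X ∈ loc O → Y ∈ loc O' → Dj O O' → X * Y ∈ loc (O ∪ O')
  τ_mem : ∀ {O X} v, X ∈ loc O → τ v X ∈ loc {y | y - v ∈ O}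
  Θ_mem : ∀ {O X} μ, X ∈ loc O → Θ μ X ∈ loc {y | rf μ y ∈ O}
  bdd : ∀ {O X}, X ∈ loc O → ∃ R, X ∈ loc (O ∩ Bx R)

namespace Net
variable {P : Type} [CommRing P] [Algebra ℂ P] (N : Net P) (S : P →ₗ[ℂ] ℂ)

/-- the reflection positive quadratic form -/
def nq (μ : Fin 4) (X : P) : ℝ := (S (N.Θ μ X * X)).re

/-- translation invariant functionals which are reflection positive in the direction `μ` -/
structure St (μ : Fin 4) : Prop where
  one : S 1 = 1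
  ti : ∀ {X} v, X ∈ N.loc univ → S (N.τ v X) = S X
  herm : ∀ {X}, X ∈ N.loc univ → S (N.Θ μ X) = conj (S X)
  pos : ∀ {X}, X ∈ N.loc (Hs μ 0) → 0 ≤ N.nq S μ X
  con : ∀ {X v}, X ∈ N.loc (Hs μ 0) → 0 ≤ v μ → N.nq S μ (N.τ v X) ≤ N.nq S μ X

/-- the Osterwalder-Schrader representation -/
structure Rep (μ : Fin 4) (H : Type) [NormedAddCommGroup H] [InnerProductSpace ℂ H] where
  Ψ : P →ₗ[ℂ] H
  T : R4 → H →L[ℂ] H
  inn : ∀ {X Y}, X ∈ N.loc (Hs μ 0) → Y ∈ N.loc (Hs μ 0) → inner ℂ (Ψ X) (Ψ Y) = S (N.Θ μ X * Y)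
  dense : DenseRange fun X : N.loc (Hs μ 0) => Ψ X
  nrm : ∀ {v}, 0 ≤ v μ → ‖T v‖ ≤ 1
  act : ∀ {v X}, 0 ≤ v μ → X ∈ N.loc (Hs μ 0) → T v (Ψ X) = Ψ (N.τ v X)

variable {S} {X Y b : P} {O O' : Set R4} {μ : Fin 4} {R c t : ℝ} {v : R4}

theorem mul [Cyl O'] (h : X ∈ N.loc O) (h' : Y ∈ N.loc O') (e : Disjoint O O') :
    X * Y ∈ N.loc (O ∪ O') := N.mulD h h' (.of e)

variable {N}

theorem adm (h : X ∈ N.loc O) : X ∈ N.loc univ := N.mono h (subset_univ _)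

theorem τ_adm (v : R4) (h : X ∈ N.loc O) : N.τ v X ∈ N.loc univ := adm (N.τ_mem v h)

theorem Θ_adm (μ : Fin 4) (h : X ∈ N.loc O) : N.Θ μ X ∈ N.loc univ := adm (N.Θ_mem μ h)

theorem box (h : X ∈ N.loc O) : ∀ᶠ R in atTop, X ∈ N.loc (O ∩ Bx R) :=
  let ⟨R, hR⟩ := N.bdd h
  (eventually_ge_atTop R).mono fun _ e => N.mono hR (inter_subset_inter_right _ (Bx.mono e))

theorem τ_hs (h : X ∈ N.loc (Hs μ t)) {t' : ℝ} (hv : t' ≤ t + v μ) : N.τ v X ∈ N.loc (Hs μ t') :=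
  N.mono (N.τ_mem v h) fun y hy => by
    simp only [Hs, mem_ofPred_eq, PiLp.sub_apply] at hy ⊢
    linarith

theorem bx_hs (h : X ∈ N.loc (Bx R)) (μ : Fin 4) : X ∈ N.loc (Hs μ (-R)) :=
  N.mono h fun _ hy => (abs_lt.1 (hy μ)).1

theorem Θ_bx (h : X ∈ N.loc (Bx R)) (μ : Fin 4) : N.Θ μ X ∈ N.loc (Bx R) :=
  N.mono (N.Θ_mem μ h) fun _ hy l => (abs_rf μ l _).symm.trans_lt (hy l)

theorem rp_adm [Pd μ] (h : X ∈ N.loc (Hs μ 0)) (h' : Y ∈ N.loc (Hs μ 0)) :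
    N.Θ μ X * Y ∈ N.loc univ :=
  adm (N.mul (N.Θ_mem μ h) h' (disjoint_left.2 fun y e e' => by
    simp only [Hs, mem_ofPred_eq, rf_self] at e e'
    linarith))

variable {H : Type} [NormedAddCommGroup H] [InnerProductSpace ℂ H] (r : N.Rep S μ H)

theorem Rep.nq (h : X ∈ N.loc (Hs μ 0)) : N.nq S μ X = ‖r.Ψ X‖ ^ 2 := by
  rw [Net.nq, ← r.inn h h, ← inner_self_eq_norm_sq (𝕜 := ℂ)]
  rfl

theorem Rep.le (hv : 0 ≤ v μ) (h : X ∈ N.loc (Hs μ 0)) : ‖r.Ψ (N.τ v X)‖ ≤ ‖r.Ψ X‖ := by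
  rw [← r.act hv h]
  exact ((r.T v).le_of_opNorm_le (r.nrm hv) _).trans_eq (one_mul _)

theorem Rep.one (hS : N.St S μ) : ‖r.Ψ 1‖ = 1 := by
  rw [← sq_eq_sq₀ (norm_nonneg _) zero_le_one, ← r.nq (N.one _), Net.nq, map_one, mul_one, hS.one]
  simp

theorem Rep.vac (h : X ∈ N.loc (Hs μ 0)) : inner ℂ (r.Ψ 1) (r.Ψ X) = S X := by
  rw [r.inn (N.one _) h, map_one, one_mul]

theorem Rep.shift [Pd μ] (hS : N.St S μ) (h : N.τ (-rf μ v) (N.Θ μ X) ∈ N.loc (Hs μ 0))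
    (h' : N.τ (-v) Y ∈ N.loc (Hs μ 0)) :
    S (X * Y) = inner ℂ (r.Ψ (N.τ (-rf μ v) (N.Θ μ X))) (r.Ψ (N.τ (-v) Y)) := by
  rw [r.inn h h', ← hS.ti v (rp_adm h h'), map_mul (N.τ v), N.Θ_τ, N.Θ_Θ, N.τ_τ, N.τ_τ, rf_neg, rf_rf,
    add_neg_cancel, N.τ_zero, N.τ_zero]

theorem Rep.adj [Pd μ] (hS : N.St S μ) (hv : 0 ≤ v μ) (x y : H) :
    inner ℂ (r.T v x) y = inner ℂ x (r.T (-rf μ v) y) := by
  have hw : 0 ≤ (-rf μ v) μ := by simpa using hv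
  refine r.dense.induction_on₂ (p := fun x y => inner ℂ (r.T v x) y = inner ℂ x (r.T (-rf μ v) y))
    (isClosed_eq (by fun_prop) (by fun_prop)) ?_ x y
  rintro ⟨X, hX⟩ ⟨Y, hY⟩
  have h1 := τ_hs (t' := 0) (v := v) hX (by linarith)
  rw [r.act hv hX, r.act hw hY, r.inn h1 hY, r.shift (v := rf μ v) hS (by
    rwa [rf_rf, N.Θ_Θ, N.τ_τ, neg_add_cancel, N.τ_zero]) (τ_hs hY (by linarith)), rf_rf, N.Θ_Θ,
    N.τ_τ, neg_add_cancel, N.τ_zero]

theorem St.exists_rep [Pd μ] (hS : N.St S μ) : ∃ (H : Type) (_ : NormedAddCommGroup H)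
    (_ : InnerProductSpace ℂ H) (_ : CompleteSpace H), Nonempty (N.Rep S μ H) := by
  let A := N.loc (Hs μ 0)
  let c : PreInnerProductSpace.Core ℂ A :=
    { inner := fun x y => S (N.Θ μ x * y)
      conj_inner_symm := fun x y => by
        rw [← hS.herm (rp_adm y.2 x.2), map_mul, N.Θ_Θ, mul_comm]
      re_inner_nonneg := fun x => hS.pos x.2
      add_left := fun x y z => by simp only [Submodule.coe_add, map_add, add_mul]
      smul_left := fun x y a => by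
        simp only [Submodule.coe_smul, N.Θ_smul, smul_mul_assoc, map_smul, smul_eq_mul] }
  let _ : SeminormedAddCommGroup A := InnerProductSpace.Core.toSeminormedAddCommGroup (𝕜 := ℂ)
  let _ : InnerProductSpace ℂ A := .ofCore c
  let e : A →ₗ[ℂ] UniformSpace.Completion A := UniformSpace.Completion.toComplₗᵢ.toLinearMap
  have he : DenseRange e := UniformSpace.Completion.denseRange_coe
  obtain ⟨Ψ, hΨ⟩ := e.exists_extend
  replace hΨ : ∀ x : A, Ψ x = e x := fun x => LinearMap.congr_fun hΨ x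
  have h1 : ∀ {X Y}, X ∈ A → Y ∈ A → inner ℂ (Ψ X) (Ψ Y) = S (N.Θ μ X * Y) := fun hX hY => by
    rw [hΨ ⟨_, hX⟩, hΨ ⟨_, hY⟩]
    exact UniformSpace.Completion.inner_coe _ _
  have h2 : ∀ v : R4, 0 ≤ v μ → ∀ x : A,
      ‖(Ψ ∘ₗ (N.τ v).toLinearMap ∘ₗ A.subtype) x‖ ≤ 1 * ‖e x‖ := fun v hv x => by
    have h3 := τ_hs (t' := 0) (v := v) x.2 (by linarith)
    rw [one_mul, ← hΨ, ← sq_le_sq₀ (norm_nonneg _) (norm_nonneg _),
      ← inner_self_eq_norm_sq (𝕜 := ℂ), ← inner_self_eq_norm_sq (𝕜 := ℂ), h1 x.2 x.2]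
    exact (congrArg Complex.re (h1 h3 h3)).trans_le (hS.con x.2 hv)
  exact ⟨_, inferInstance, inferInstance, inferInstance, ⟨Ψ, fun v =>
    (Ψ ∘ₗ (N.τ v).toLinearMap ∘ₗ A.subtype).extendOfNorm e, h1, by rwa [funext hΨ],
    fun hv => LinearMap.opNorm_extendOfNorm_le he zero_le_one (h2 _ hv), fun {v X} hv hX => by
      rw [hΨ ⟨X, hX⟩]
      exact LinearMap.extendOfNorm_eq he ⟨1, h2 v hv⟩ _⟩⟩

end Net

variable {k l : ℕ} {f : Fin k → R4 → ℝ}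

/-- test functions whose supports have disjoint projections -/
def Adm (f : Fin k → R4 → ℝ) : Prop := (∀ i, HasCompactSupport (f i) ∧ ContDiff ℝ 1 (f i)) ∧
  Pairwise fun i j => Dj (tsupport (f i)) (tsupport (f j))

theorem Adm.old (hf : Adm f) : YM7.Adm f := ⟨hf.1, fun _ _ h => (hf.2 h).dis⟩

theorem Adm.comp (hf : Adm f) (θ : R4 ≃ₜ R4) (hθ : ContDiff ℝ 1 θ)
    (e : ∀ x y, pl x = pl y → pl (θ x) = pl (θ y)) : Adm fun i y => f i (θ y) :=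
  ⟨(hf.old.comp θ hθ).1, fun _ _ h x hx y hy c => hf.2 h _ (tsupport_comp θ.continuous hx) _
    (tsupport_comp θ.continuous hy) (e x y c)⟩

theorem Adm.append {g : Fin l → R4 → ℝ} (hf : Adm f) (hg : Adm g)
    (h : ∀ i j, Dj (tsupport (f i)) (tsupport (g j))) : Adm (Fin.append f g) :=
  ⟨YM5.forall_append (P := fun u => HasCompactSupport u ∧ ContDiff ℝ 1 u) hf.1 hg.1,
    YM5.pairwise_append (R := fun u v => Dj (tsupport u) (tsupport v)) (fun _ _ h => h.symm)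
      hf.2 hg.2 h⟩

theorem Adm.data (hf : Adm f) : ∃ D q : ℕ,
    (∀ i, ∀ y ∈ tsupport (f i), ‖y‖ ≤ D) ∧ (∀ i, LipschitzWith D (f i) ∧ ∀ y, |f i y| ≤ D) ∧
    ∀ i j, i ≠ j → ∀ x ∈ tsupport (f i), ∀ y ∈ tsupport (f j),
      1 / (q + 1 : ℝ) ≤ dist (pl x) (pl y) := by
  obtain ⟨D, -, h1, h2, -⟩ := hf.old.data
  obtain ⟨δ, δ0, hδ⟩ := (isCompact_iUnion fun p : {p : Fin k × Fin k // p.1 ≠ p.2} =>
    (hf.1 p.1.1).1.isCompact.prod (hf.1 p.1.2).1.isCompact).exists_forall_le' (a := 0)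
    (f := fun z => dist (pl z.1) (pl z.2)) (by fun_prop) fun z hz => by
      obtain ⟨p, hp⟩ := mem_iUnion.1 hz
      exact dist_pos.2 (hf.2 p.2 _ hp.1 _ hp.2)
  obtain ⟨q, hq⟩ := exists_nat_one_div_lt δ0
  exact ⟨D, q, h1, h2, fun i j e x hx y hy =>
    hq.le.trans (hδ (x, y) (mem_iUnion.2 ⟨⟨(i, j), e⟩, hx, hy⟩))⟩

theorem adm_rf (hf : Adm f) (μ : Fin 4) : Adm fun i y => f i (rf μ y) := by
  have := hf.comp (rfL μ).toHomeomorph (rfL μ).contDiff fun x y e => by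
    simp only [LinearIsometryEquiv.coe_toHomeomorph, rfL_eq, pl_rf, e]
  rwa [LinearIsometryEquiv.coe_toHomeomorph, rfL_eq] at this

theorem adm_sub (hf : Adm f) (v : R4) : Adm fun i y => f i (y - v) :=
  hf.comp (Homeomorph.subRight v) (contDiff_id.sub contDiff_const) fun x y e => by
    simp only [Homeomorph.subRight_apply, map_sub, e]

theorem adm_cons {u : R4 → ℝ} (h1 : HasCompactSupport u) (h2 : ContDiff ℝ 1 u)
    (hf : Adm f) (h : ∀ i, Dj (tsupport u) (tsupport (f i))) :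
    Adm (Fin.cons u f : Fin (k + 1) → R4 → ℝ) :=
  ⟨Fin.forall_fin_succ.2 ⟨⟨h1, h2⟩, hf.1⟩,
    pairwise_fin_succ_iff.2 ⟨fun i => (h i).symm, h, hf.2⟩⟩

/-- admissible monomials localised in a set -/
def Mon (O : Set R4) : Set Pol :=
  {Z | ∃ (k : ℕ) (f : Fin k → R4 → ℝ), Adm f ∧ (∀ i, tsupport (f i) ⊆ O) ∧ mon f = Z}

theorem span_map {O O' : Set R4} {g : Pol → Pol} (h0 : ∀ X Y, g (X + Y) = g X + g Y)
    (h1 : ∀ (c : ℂ) X, ∃ c' : ℂ, g (c • X) = c' • g X) (h2 : ∀ Z ∈ Mon O, g Z ∈ Mon O') {Z : Pol}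
    (h : Z ∈ Submodule.span ℂ (Mon O)) : g Z ∈ Submodule.span ℂ (Mon O') := by
  induction h using Submodule.span_induction with
  | mem Z hZ => exact Submodule.subset_span (h2 Z hZ)
  | zero => rw [show g 0 = 0 by simpa using h0 0 0]; exact Submodule.zero_mem _
  | add X Y _ _ h h' => rw [h0]; exact Submodule.add_mem _ h h'
  | smul c X _ h => obtain ⟨c', e⟩ := h1 c X; rw [e]; exact Submodule.smul_mem _ _ h

/-- the planar net -/
def net : Net Pol where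
  τ := Pur.net.τ
  Θ := Pur.net.Θ
  loc O := Submodule.span ℂ (Mon O)
  τ_zero := Pur.net.τ_zero
  τ_τ := Pur.net.τ_τ
  Θ_smul := Pur.net.Θ_smul
  Θ_Θ := Pur.net.Θ_Θ
  Θ_τ := Pur.net.Θ_τ
  mono {O O' _} h hO := Submodule.span_mono (s := Mon O) (t := Mon O')
    (fun _ ⟨k, f, h1, h2, h3⟩ => ⟨k, f, h1, fun i => (h2 i).trans hO, h3⟩) h
  one O := Submodule.subset_span ⟨0, ![], ⟨fun i => i.elim0, fun i => i.elim0⟩, fun i => i.elim0,
    Fin.prod_univ_zero _⟩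
  mulD {O O' X Y} hX hY h := by
    refine Submodule.span_mono ?_ (Submodule.span_mul_span ℂ (Mon O) (Mon O') ▸
      Submodule.mul_mem_mul hX hY)
    rintro _ ⟨_, ⟨k, f, f1, f2, rfl⟩, _, ⟨l, g, g1, g2, rfl⟩, rfl⟩
    exact ⟨_, _, f1.append g1 fun i j => h.mono (f2 i) (g2 j),
      YM5.forall_append (P := fun u => tsupport u ⊆ O ∪ O') (fun i => (f2 i).trans subset_union_left)
        fun i => (g2 i).trans subset_union_right, mon_append f g⟩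
  τ_mem v := span_map (map_add _) (fun c X => ⟨c, map_smul _ c X⟩) fun _ ⟨k, f, h1, h2, h3⟩ =>
    ⟨k, _, adm_sub h1 v, fun i _ hy => h2 i (tsupport_comp (θ := fun y => y - v) (by fun_prop) hy),
      by rw [← h3, Pur.τ_mon]⟩
  Θ_mem μ := span_map (map_add _) (fun c X => ⟨_, thP_smul μ c X⟩) fun _ ⟨k, f, h1, h2, h3⟩ =>
    ⟨k, _, adm_rf h1 μ, fun i _ hy => h2 i (tsupport_comp (rfL_eq μ ▸ (rfL μ).continuous) hy),
      by rw [← h3, thP_mon]⟩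
  bdd {O Z} h := by
    have m : ∀ {R R' : ℝ}, R ≤ R' → Submodule.span ℂ (Mon (O ∩ Bx R)) ≤
        Submodule.span ℂ (Mon (O ∩ Bx R')) := fun e => Submodule.span_mono
      fun _ ⟨k, f, h1, h2, h3⟩ => ⟨k, f, h1, fun i => (h2 i).trans
        (inter_subset_inter_right _ (Bx.mono e)), h3⟩
    induction h using Submodule.span_induction with
    | mem Z hZ =>
      obtain ⟨k, f, h1, h2, h3⟩ := hZ
      obtain ⟨D, -, h4, -⟩ := h1.data
      exact ⟨D + 1, Submodule.subset_span ⟨k, f, h1, fun i y hy => ⟨h2 i hy, fun l =>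
        ((PiLp.norm_apply_le y l).trans (h4 i y hy)).trans_lt (lt_add_one _)⟩, h3⟩⟩
    | zero => exact ⟨0, Submodule.zero_mem _⟩
    | add X Y _ _ h h' =>
      obtain ⟨R, h⟩ := h
      obtain ⟨R', h'⟩ := h'
      exact ⟨max R R', Submodule.add_mem _ (m (le_max_left _ _) h) (m (le_max_right _ _) h')⟩
    | smul c X _ h => exact h.imp fun _ => Submodule.smul_mem _ _

theorem τ_mon (v : R4) (f : Fin k → R4 → ℝ) : net.τ v (mon f) = mon fun i y => f i (y - v) :=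
  rename_mon _ f

theorem Θ_mon (μ : Fin 4) (f : Fin k → R4 → ℝ) :
    net.Θ μ (mon f) = mon fun i y => f i (rf μ y) := thP_mon μ f

theorem mon_mem {O : Set R4} (hf : Adm f) (h : ∀ i, tsupport (f i) ⊆ O) :
    mon f ∈ net.loc O := Submodule.subset_span ⟨k, f, hf, h, rfl⟩

theorem exists_sum {O : Set R4} {Z : Pol} (h : Z ∈ net.loc O) : ∃ (m : ℕ) (c : Fin m → ℂ)
    (k : Fin m → ℕ) (f : ∀ a, Fin (k a) → R4 → ℝ), (∀ a, Adm (f a)) ∧
      (∀ a i, tsupport (f a i) ⊆ O) ∧ ∑ a, c a • mon (f a) = Z := by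
  obtain ⟨m, c, g, e⟩ := Submodule.mem_span_set'.1 h
  choose k f h1 h2 h3 using fun a => (g a).2
  exact ⟨m, c, k, f, h1, h2, by simp only [h3, e]⟩

theorem gd_mem {O : Set R4} {u : R4 → ℝ} (h : PN.Gd O u) : X u ∈ net.loc O := by
  have := mon_mem (f := fun _ : Fin 1 => u) (O := O)
    ⟨fun _ => ⟨h.1, h.2.1⟩, Subsingleton.pairwise⟩ fun _ => h.2.2
  rwa [mon, Fin.prod_univ_one] at this

end Pool.Agent.Lib.MP_7f377f_mp.Pl
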