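import Pool.Agent.Lib.MP_7f377f_mp.G.PlD2
import Pool.Agent.Lib.MP_7f377f_mp.G.PlE1
import Pool.Agent.Lib.MP_7f377f_mp.G.PlE2
import Pool.Agent.Lib.MP_7f377f_mp.G.PlF

/-! Rotation invariance. -/

noncomputable section

namespace Pool.Agent.Lib.MP_7f377f_mp.Pl
variable [Pool.Agent.Lib.MP_7f377f_mp.GD]
set_option linter.unusedSectionVars false

open Filter Topology Set Real YM7 Pur Ro MvPolynomial
open scoped NNReal

variable {W : Pol →ₗ[ℂ] ℂ} {H : Type} [NormedAddCommGroup H] [InnerProductSpace ℂ H]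
  [CompleteSpace H] {r : net.Rep W 0 H} {k : ℕ} {Z Z' : Pol}

theorem Ord.mem {f : Fin k → R4 → ℝ} (h : Ord f) : mon f ∈ net.loc (Cz 0) :=
  mon_mem h.1 fun i => (h.2.1 i).trans (Cz.mono (by norm_num))

theorem HH.inv_rot (h : HH W) (φ : ℝ) : Inv W (rot 0 φ) := by
  obtain ⟨H, _, _, _, ⟨r⟩⟩ := h.h0.st.exists_rep
  obtain ⟨Y, hY, hA⟩ := h.h0.app r
  have key : ∀ b : ℕ, ∀ k ≤ 2 * b, ∀ φ, InvN W k (rot 0 φ) := fun b => by
    induction b with
    | zero =>
      intro k hk φ f _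
      obtain rfl : k = 0 := by omega
      simp only [mon, Fin.prod_univ_zero, map_one]
    | succ b ih =>
      exact fun k hk φ => h.clu (far_of h.h0.st (fun k hk l hl f g hf hg φ hφ =>
        (hA b ih k hk f hf).inv2 h.h0 hY (hA b ih l hl g hg) hf.mem hg.mem hφ) hk) φ
  exact .of_mon fun k => key k k (by omega) φ

end Pool.Agent.Lib.MP_7f377f_mp.Pl
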