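import Pool.Agent.Lib.MP_7f377f_mp.G.TwZ
import Pool.Agent.Lib.MP_7f377f_mp.G.S10P5
import Pool.Agent.Lib.MP_7f377f_mp.G.PlB4
import Pool.Agent.Lib.MP_7f377f_mp.G.PlH1
import Pool.Agent.Lib.MP_7f377f_mp.G.PlZ

/-! The rotation invariant theory on the plane times a small twisted torus. -/

noncomputable section

set_option linter.unusedSectionVars false
variable [Pool.Agent.Lib.MP_7f377f_mp.GD]

namespace Pool.Agent.Lib.MP_7f377f_mp.YM9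

open MeasureTheory Filter Topology Function Real
open RG.Q4 RG.Q4.En

variable [MeasurableSpace SU2] [BorelSpace SU2]

/-- the continuum theory with the Schwinger functions `S` -/
def Out2S (μ : ℕ → Measure Fd) (a : ℕ → ℝ) (m Δ : ℝ) (S : ∀ {k : ℕ}, (Fin k → R4 → ℝ) → ℝ) : Prop :=
  (∀ k (f : Fin k → R4 → ℝ), AdL (L2 m) f →
    Tendsto (fun j => corr (μ j) (a j) f) atTop (𝓝 (S f)) ∧
    (∀ v, S (fun i y => f i (y + v)) = S f) ∧ S (fun i => theta (f i)) = S f ∧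
    S (fun i y => f i (WithLp.toLp 2 (y ∘ Equiv.swap 0 1))) = S f) ∧
  (∀ k R, ∀ δ > 0, ∃ C : ℝ, ∀ (f : Fin k → R4 → ℝ) (L : Fin k → NNReal), AdL (L2 m) f →
    (∀ i, LipschitzWith (L i) (f i) ∧ ∀ y, f i y ≠ 0 → ‖y‖ ≤ R) →
    (∀ i j, i ≠ j → ∀ x y, f i x ≠ 0 → f j y ≠ 0 → ∀ w ∈ L2 m, δ ≤ dist x (y + w)) →
    |S f| ≤ C * ∏ i, L i) ∧
  (∀ k (f : Fin k → R4 → ℝ), YM7.Adm f →
    Tendsto (fun d : ℝ => log d⁻¹ ^ k * S fun i y => f i (d⁻¹ • y)) (𝓝[>] 0)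
      (𝓝 ((48 / (11 * GD.b0)) ^ k * fv f))) ∧
  ∃ (H : Type) (_ : NormedAddCommGroup H) (_ : InnerProductSpace ℂ H) (_ : CompleteSpace H),
    Ms2 H m Δ S

/-- the continuum theory and its planar net -/
def Out3 (μ : ℕ → Measure Fd) (a : ℕ → ℝ) (m Δ : ℝ) : Prop :=
  ∃ S : ∀ {k : ℕ}, (Fin k → R4 → ℝ) → ℝ, Out2S μ a m Δ S ∧ OS2 m Δ S ∧ Pl.ArrP S ∧
    ∃ W : Pur.Pol →ₗ[ℂ] ℂ, (∀ {k} {f : Fin k → R4 → ℝ}, Pl.Adm f → W (Pur.mon f) = S f) ∧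
      Pl.HH W ∧ Pl.Thin1 W ∧ Pl.net.St W 1

theorem planes2 {ι : Type} {a τ : ι → ℝ} {Φ : Filter ι} [Φ.NeBot] [Φ.IsCountablyGenerated]
    {M Δ : ℕ → ℝ} {n : ℕ → ι → ℕ} {μ : ℕ → ι → Measure Fd}
    (hC : ∀ s, Pln Φ (M s) (Δ s) (n s) a τ (μ s)) (hB : ∀ s, Bd (L2 (M s)) Φ (μ s) (μ s) a τ)
    (hS : ∀ s K, Sho Φ (μ s) (μ s) a K) (hR : ∀ s, ArrL Φ (μ s) a)
    (hW : ∀ s, ∀ᶠ p in Φ, SwL (μ s p)) : ∃ p : ℕ → ι, Tendsto p atTop Φ ∧
      ∀ s, Out3 (fun j => μ s (p j)) (fun j => a (p j)) (M s) (Δ s) := by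
  obtain ⟨U, hU⟩ := Φ.exists_ultrafilter_le
  have cU := fun s => (hC s).mono hU
  have bU := fun s => (hB s).mono hU
  have hN := fun s => exists_lm2 U (cU s) (bU s)
  choose S hN using hN
  choose G g0 g1 g2 using fun s => (hB s).seq (hC s).fm (hC s).fin (closed_L2 (M s)) U hU (S := S s)
    fun k f hf => Lm2.cv (hN s) (cU s) hf
  have : ((⨅ s, G s) ⊓ Φ).NeBot := neBot_of_le (le_inf (le_iInf g1) hU)
  obtain ⟨p, hp⟩ := exists_seq_tendsto ((⨅ s, G s) ⊓ Φ)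
  obtain ⟨p1, p2⟩ := tendsto_inf.1 hp
  refine ⟨p, p2, fun s => ?_⟩
  have hO := Lm2.os2 (hN s) (cU s) (bU s)
  have hA := fun k f => Lm2.short (hN s) (cU s) ((hS s k).mono hU) le_rfl (f := f)
  have hP : Pl.ArrP (S s) := fun γ γ0 => (hR s γ γ0).mono fun e he k P Q f hf hr =>
    le_of_tendsto (Lm2.cv (hN s) (cU s) (hf.adl _)).abs (((he k P Q f hr).filter_mono hU).mono
      fun _ e => by rwa [corr_eq] at e)
  obtain ⟨W, w⟩ := Pl.lift_lim (hN s) (cU s) (bU s)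
  have w0 := Pl.st_lim0 (hN s) (cU s) w (bU s)
  have w1 := Pl.st_lim1 (hN s) (cU s) w (bU s)
  have w2 := Pl.linP_of (hN s) (cU s) w
  exact ⟨S s, ⟨fun k f hf => ⟨((g2 s k f hf).comp (tendsto_iInf.1 p1 s)).congr fun j =>
    (corr_eq ..).symm, hO.trans hf, hO.refl hf, Lm2.swp (hN s) (cU s) hf⟩,
    Lm2.lip (hN s) (cU s) (bU s), hA, hO.hilbert (hA 2)⟩, hO, hP, W, w,
    Pl.hh_lim (hN s) (cU s) w (bU s) ((hW s).filter_mono hU) (Pl.thinQ_of w0 w1 w2 w hP),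
    Pl.thin1_of w0 w1 w2 w hP, w1⟩

omit [MeasurableSpace SU2] [BorelSpace SU2] in
theorem out_tw4 [m : MeasurableSpace SU2] [BorelSpace SU2] (h : Measure SU2) [h.IsHaarMeasure]
    [IsProbabilityMeasure h] : ∃ (G : Gl) (b : ℕ → ℝ), G.Oks ∧ (G.Tus fun p => b p.2) ∧
    (∀ Φ : Filter ℕ, YM7.Poly2 h (Φ ×ˢ atTop) G.nn G.aa (fun p => b p.2) (fun p => 4 * ta p) ∧
      ∀ K, YM7.Short h (Φ ×ˢ atTop) G.nn G.aa (fun p => b p.2) K) ∧ Rtop G b ∧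
      YM7.Poly4 h (⊤ ×ˢ atTop) G.nn G.aa (fun p => b p.2) fun p => 4 * ta p := by
  obtain ⟨G, b, o, -, hβ, E, hR⟩ := out_tw h
  obtain rfl : m = Fi.mS := BorelSpace.measurable_eq
  have : (Fi.tr RG.haar).IsHaarMeasure := (inferInstance : RG.haar.IsHaarMeasure)
  obtain rfl := Measure.isHaarMeasure_eq_of_isProbabilityMeasure h (Fi.tr RG.haar)
  exact ⟨G, b, o, hβ, E, hR, o.poly4 hβ (fun p _ e => ((o _).1.tan_main (o _).2 (hβ p) e).1.sz) _⟩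

variable (h : Measure SU2) [h.IsHaarMeasure] [IsProbabilityMeasure h]

theorem out_plane2 [Finite Zc] {z : Zc} {P Q : RG.S3} (hz : Iso z P Q) :
    ∃ (e : ℕ → ℕ) (b : ℕ → ℝ) (s0 : ℕ), Tendsto e atTop atTop ∧
      Tendsto (fun j => b j / log (3 ^ e j)) atTop (𝓝 (11 * GD.b0 / (48 * π ^ 2))) ∧
      ∀ s ≥ s0, ∃ Δ > (0 : ℝ), ∃ μ : ℕ → Measure Fd,
        (∀ᶠ j in atTop, Itl h (b j) (3 ^ (e j - s)) z (μ j)) ∧
        Out3 μ (fun j => (3 ^ e j)⁻¹) (3 ^ s)⁻¹ Δ := by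
  have := Fintype.ofFinite Zc
  obtain ⟨G, b, o, hβ, E, hR, h4⟩ := out_tw4 h
  have he : StrictMono G.e := (o 0).1.sch.mono
  obtain ⟨a1, a2, a3⟩ := o.lims hβ (pure 0)
  rw [pure_prod, tendsto_map'_iff] at a1 a2 a3
  have hF : Fm atTop (fun J => (3 ^ G.e J : ℝ)⁻¹) fun J => 4 * ta (0, J) :=
    ⟨a1, (a3.const_mul_atTop four_pos).congr fun p => (mul_div_assoc ..).symm⟩
  have b0 : ∀ J, 0 ≤ b J := fun J => (hβ (0, J)).b0
  have hl : ∀ J, (3 ^ G.e J : ℝ)⁻¹ * (3 ^ G.e J : ℕ) = 1 := fun J => by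
    rw [Nat.cast_pow, Nat.cast_ofNat, inv_mul_cancel₀ (by positivity)]
  have hc : ∀ s : ℕ, Odd s → Bd (Lt s) atTop (fun J => cube h (b J) (s * 3 ^ G.e J))
      (fun J => cube h (b J) (s * 3 ^ G.e J)) (fun J => (3 ^ G.e J : ℝ)⁻¹) (fun J => 4 * ta (0, J)) ∧
      ∀ K, Sho atTop (fun J => cube h (b J) (s * 3 ^ G.e J))
        (fun J => cube h (b J) (s * 3 ^ G.e J)) (fun J => (3 ^ G.e J : ℝ)⁻¹) K := by
    rintro _ ⟨s, rfl⟩
    have := E (pure s)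
    rw [pure_prod] at this
    have e1 : ∀ᶠ J in atTop, (3 ^ G.e J : ℝ)⁻¹ * G.nn (s, J) = (2 * s + 1 : ℕ) :=
      .of_forall fun J => (G.aa_nn (s, J)).trans (by norm_cast)
    exact ⟨bd_cube h (n := fun J => G.nn (s, J)) hF (2 * s).succ_pos e1 this.1, fun K =>
      sho_cube h (n := fun J => G.nn (s, J)) (2 * s).succ_pos (e1.mono fun J e => ⟨by positivity, e⟩)
        (this.2 K)⟩
  obtain ⟨s0, H⟩ := cr2_of h hR he.monotone hz
  choose A A0 H using fun s => H (s0 + s) (Nat.le_add_right _ _)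
  have H' : ∀ s J, ∃ μ, s0 + s < G.e J →
      Cr2 (Z0 h (b J) (3 ^ (G.e J - (s0 + s))) z) (A s * 3 ^ (G.e J - (s0 + s))) →
      Pg h (b J) (3 ^ (G.e J - (s0 + s))) z (A s * 3 ^ (G.e J - (s0 + s))) μ ∧
        Stp (3 ^ (G.e J - (s0 + s))) μ (1 / (A s * 3 ^ (G.e J - (s0 + s)) : ℕ)) := fun s J => by
    by_cases h1 : s0 + s < G.e J ∧
      Cr2 (Z0 h (b J) (3 ^ (G.e J - (s0 + s))) z) (A s * 3 ^ (G.e J - (s0 + s)))
    · have h2 := Nat.pow_le_pow_right three_pos (show 1 ≤ G.e J - (s0 + s) by omega)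
      exact (exists_pg h (b0 J) (by positivity) z (by nlinarith [A0 s]) h1.2).imp fun _ e _ _ => e
    · exact ⟨0, fun h2 h3 => (h1 ⟨h2, h3⟩).elim⟩
  choose μ H' using H'
  have K := fun s => ((he.tendsto_atTop.eventually_gt_atTop (s0 + s)).and (H s)).mono
    fun J e => And.intro e.1.le (H' s J e.1 e.2.2)
  have hW : ∀ s, ∀ᶠ J in atTop, SwL (μ s J) := fun s =>
    ((he.tendsto_atTop.eventually_gt_atTop (s0 + s)).and (H s)).mono fun J e F k cF dF => by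
      have h2 := Nat.pow_le_pow_right three_pos (show 1 ≤ G.e J - (s0 + s) by omega)
      exact (H' s J e.1 e.2.2).1.swap_rp (b0 J) (by positivity) (by nlinarith [A0 s]) e.2.2 cF dF
  have hP : ∀ s, Pln atTop (3 ^ (s0 + s))⁻¹ (3 ^ (s0 + s) / A s) (fun J => 3 ^ (G.e J - (s0 + s)))
      (fun J => (3 ^ G.e J : ℝ)⁻¹) (fun J => 4 * ta (0, J)) (μ s) := fun s =>
    ⟨hF, by positivity, (K s).mono fun J e => by
      obtain ⟨u, hu⟩ := Nat.exists_eq_add_of_le e.1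
      have : (0 : ℝ) < A s := Nat.cast_pos.2 (A0 s)
      refine ⟨?_, ?_⟩
      · rw [hu, Nat.add_sub_cancel_left]
        push_cast
        field_simp
        ring
      · convert e.2.2 using 1
        rw [hu, Nat.add_sub_cancel_left]
        push_cast
        field_simp
        ring⟩
  have hD := fun s => domF_of h he.tendsto_atTop (.of_forall b0) ((K s).mono fun _ e => e.2.1)
    (zbd_of h hR he.monotone hz)
  obtain ⟨p, hp, O⟩ := planes2 hP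
    (fun s => bd_dom h (hP s) (.of_forall hl) (hD s) fun s o => (hc s o).1)
    (fun s => sho_dom h (hP s) (.of_forall hl) (hD s) (fun s o => (hc s o).1) fun s o => (hc s o).2)
    (fun s => arr_of h (hP s) (.of_forall hl) (.of_forall b0) (domG_of h he.tendsto_atTop
      (.of_forall b0) ((K s).mono fun _ e => e.2) (zbd_of h hR he.monotone hz)) (fun _ => rfl) h4) hW
  refine ⟨fun j => G.e (p j), fun j => b (p j), s0, he.tendsto_atTop.comp hp,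
    (a2.comp hp).congr fun j => ?_, fun s hs => ?_⟩
  · simp only [comp_apply, Gl.aa, inv_inv]
  obtain ⟨s, rfl⟩ := Nat.exists_eq_add_of_le hs
  refine ⟨_, div_pos (by positivity) (Nat.cast_pos.2 (A0 s)), _, (hp.eventually (K s)).mono
    fun j e => ?_, O s⟩
  obtain ⟨ν, l, V, lim, -⟩ := e.2.1
  exact ⟨e.2.2.prob, ν, fun R hR => ⟨(V R hR).prob, zs_tz 1 z ▸ (V R hR).lim⟩, lim⟩

end Pool.Agent.Lib.MP_7f377f_mp.YM9
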