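import Pool.Agent.Lib.MP_7f377f_mp.OSA
import Pool.Agent.Lib.MP_7f377f_mp.G.YM7Defs

/-! Local polynomial algebras, reflection positive functionals and their domination. -/

noncomputable section

namespace Pool.Agent.Lib.MP_7f377f_mp.Pur
variable [GD]

open Filter Topology Set ComplexConjugate YM7

/-- reflection of an axis -/
def rf (μ : Fin 4) (y : R4) : R4 := WithLp.toLp 2 (Function.update y μ (-y μ))

/-- a multiple of a basis vector -/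
abbrev ax (μ : Fin 4) (t : ℝ) : R4 := EuclideanSpace.single μ t

/-- a diagonal vector -/
def dg (t : ℝ) : R4 := WithLp.toLp 2 fun _ => t

/-- half spaces -/
def Hs (μ : Fin 4) (t : ℝ) : Set R4 := {y | t < y μ}

/-- orthants -/
def Ot (t : ℝ) : Set R4 := {y | ∀ l, t < y l}

/-- cubes -/
def Bx (R : ℝ) : Set R4 := {y | ∀ l, |y l| < R}

/-- boxes of cells -/
abbrev cells (lo hi : Fin 4 → ℤ) : Finset (Fin 4 → ℤ) :=
  Fintype.piFinset fun l => Finset.Ico (lo l) (hi l)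

/-- a commutative algebra with translations, reflections and local subspaces -/
structure Net (P : Type) [CommRing P] [Algebra ℂ P] where
  τ : R4 → P →ₐ[ℂ] P
  Θ : Fin 4 → P →+* P
  loc : Set R4 → Submodule ℂ P
  τ_zero : ∀ X, τ 0 X = X
  τ_τ : ∀ u v X, τ u (τ v X) = τ (u + v) X
  Θ_smul : ∀ μ (c : ℂ) X, Θ μ (c • X) = conj c • Θ μ X
  Θ_Θ : ∀ μ X, Θ μ (Θ μ X) = X
  Θ_comm : ∀ μ ν X, Θ μ (Θ ν X) = Θ ν (Θ μ X)
  Θ_τ : ∀ μ v X, Θ μ (τ v X) = τ (rf μ v) (Θ μ X)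
  mono : ∀ {O O' X}, X ∈ loc O → O ⊆ O' → X ∈ loc O'
  one : ∀ O, 1 ∈ loc O
  mul : ∀ {O O' X Y}, X ∈ loc O → Y ∈ loc O' → Disjoint O O' → X * Y ∈ loc (O ∪ O')
  τ_mem : ∀ {O X} v, X ∈ loc O → τ v X ∈ loc {y | y - v ∈ O}
  Θ_mem : ∀ {O X} μ, X ∈ loc O → Θ μ X ∈ loc {y | rf μ y ∈ O}
  bdd : ∀ {O X}, X ∈ loc O → ∃ R, X ∈ loc (O ∩ Bx R)

variable {P : Type} [CommRing P] [Algebra ℂ P] (N : Net P) (S S' : P →ₗ[ℂ] ℂ)

namespace Net

/-- the reflection positive quadratic form -/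
def nq (μ : Fin 4) (X : P) : ℝ := (S (N.Θ μ X * X)).re

/-- translation invariant reflection positive functionals -/
structure St : Prop where
  one : S 1 = 1
  ti : ∀ {X} v, X ∈ N.loc univ → S (N.τ v X) = S X
  herm : ∀ {X} μ, X ∈ N.loc univ → S (N.Θ μ X) = conj (S X)
  pos : ∀ {X} μ, X ∈ N.loc (Hs μ 0) → 0 ≤ N.nq S μ X
  con : ∀ {X v} μ, X ∈ N.loc (Hs μ 0) → 0 ≤ v μ → N.nq S μ (N.τ v X) ≤ N.nq S μ X

/-- operator bound on the orthant -/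
def QB (X : P) (R c : ℝ) : Prop := X ∈ N.loc (Bx R) ∧ 0 ≤ R ∧ 0 ≤ c ∧ ∀ μ, ∀ b ∈ N.loc (Ot 0),
  N.nq S μ (N.τ (ax μ R) (X * N.τ (dg R) b)) ≤ c ^ 2 * N.nq S μ b

/-- `S'` satisfies all inequalities which hold for `S` with all far boundary conditions -/
def Dom : Prop := ∀ (μ : Fin 4) (m : ℕ) (Z : Fin m → P) (s s' : Fin m → R4) (R : ℝ),
  (∀ j, Z j ∈ N.loc univ) → (∀ B ∈ N.loc (Ot R),
    0 ≤ (∑ j, S (N.Θ μ (N.τ (s j) B) * Z j * N.τ (s' j) B)).re) → 0 ≤ (∑ j, S' (Z j)).re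

/-- the Osterwalder-Schrader representation -/
structure Rep (μ : Fin 4) (H : Type) [NormedAddCommGroup H] [InnerProductSpace ℂ H] where
  Ψ : P →ₗ[ℂ] H
  T : R4 → H →L[ℂ] H
  inn : ∀ {X Y}, X ∈ N.loc (Hs μ 0) → Y ∈ N.loc (Hs μ 0) → inner ℂ (Ψ X) (Ψ Y) = S (N.Θ μ X * Y)
  dense : DenseRange fun X : N.loc (Hs μ 0) => Ψ X
  nrm : ∀ {v}, 0 ≤ v μ → ‖T v‖ ≤ 1
  act : ∀ {v X}, 0 ≤ v μ → X ∈ N.loc (Hs μ 0) → T v (Ψ X) = Ψ (N.τ v X)

end Net

@[simp] theorem rf_self (μ : Fin 4) (y : R4) : rf μ y μ = -y μ := by simp [rf]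

theorem rf_ne {μ l : Fin 4} (h : l ≠ μ) (y : R4) : rf μ y l = y l := by simp [rf, h]

@[simp] theorem abs_rf (μ l : Fin 4) (y : R4) : |rf μ y l| = |y l| := by
  by_cases h : l = μ <;> simp [rf, h]

@[simp] theorem rf_rf (μ : Fin 4) (y : R4) : rf μ (rf μ y) = y := by simp [rf]

@[simp] theorem rf_ax (μ : Fin 4) (t : ℝ) : rf μ (ax μ t) = ax μ (-t) := by
  ext l
  by_cases h : l = μ <;> simp [rf, h]

@[simp] theorem rf_neg (μ : Fin 4) (y : R4) : rf μ (-y) = -rf μ y := by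
  ext l
  by_cases h : l = μ <;> simp [rf, h]

@[simp] theorem dg_apply (t : ℝ) (l : Fin 4) : dg t l = t := rfl

theorem ax_add (μ : Fin 4) (s t : ℝ) : ax μ s + ax μ t = ax μ (s + t) := by
  ext l
  by_cases h : l = μ <;> simp [h]

@[simp] theorem ax_zero (μ : Fin 4) : ax μ 0 = 0 := by
  ext l
  by_cases h : l = μ <;> simp [h]

theorem Bx.mono {R R' : ℝ} (h : R ≤ R') : Bx R ⊆ Bx R' := fun _ hy l => (hy l).trans_le h

theorem Ot.mono {R R' : ℝ} (h : R ≤ R') : Ot R' ⊆ Ot R := fun _ hy l => h.trans_lt (hy l)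

theorem Ot.hs (μ : Fin 4) {R t : ℝ} (h : t ≤ R) : Ot R ⊆ Hs μ t := fun _ hy => h.trans_lt (hy μ)

theorem eq_of_re {x y : ℂ} (h : ∀ c : ℂ, 0 ≤ (c * x + -(c * y)).re) : x = y := by
  have := h (-conj (x - y))
  rw [← sub_eq_add_neg, ← mul_sub, neg_mul, Complex.neg_re, ← Complex.normSq_eq_conj_mul_self,
    Complex.ofReal_re, neg_nonneg] at this
  exact sub_eq_zero.1 (Complex.normSq_eq_zero.1 (this.antisymm (Complex.normSq_nonneg _)))

namespace Net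
variable {N S S'} {X Y b : P} {O : Set R4} {μ : Fin 4} {R c t : ℝ} {v : R4}

theorem adm (h : X ∈ N.loc O) : X ∈ N.loc univ := N.mono h (subset_univ _)

theorem τ_adm (v : R4) (h : X ∈ N.loc O) : N.τ v X ∈ N.loc univ := adm (N.τ_mem v h)

theorem Θ_adm (μ : Fin 4) (h : X ∈ N.loc O) : N.Θ μ X ∈ N.loc univ := adm (N.Θ_mem μ h)

theorem box (h : X ∈ N.loc O) : ∀ᶠ R in atTop, X ∈ N.loc (O ∩ Bx R) :=
  let ⟨R, hR⟩ := N.bdd h
  (eventually_ge_atTop R).mono fun _ e => N.mono hR (inter_subset_inter_right _ (Bx.mono e))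

theorem mul_far (h : X ∈ N.loc (O ∩ Bx R)) (h' : Y ∈ N.loc (Ot R)) (hO : Ot R ⊆ O) :
    X * Y ∈ N.loc O :=
  N.mono (N.mul h h' (disjoint_left.2 fun _ e e' => ((le_abs_self _).trans_lt (e.2 0)).not_gt (e' 0)))
    (union_subset inter_subset_left hO)

theorem τ_hs (h : X ∈ N.loc (Hs μ t)) {t' : ℝ} (hv : t' ≤ t + v μ) : N.τ v X ∈ N.loc (Hs μ t') :=
  N.mono (N.τ_mem v h) fun y hy => by
    simp only [Hs, mem_ofPred_eq, PiLp.sub_apply] at hy ⊢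
    linarith

theorem τ_ot (h : X ∈ N.loc (Ot t)) {t' : ℝ} (hv : ∀ l, t' ≤ t + v l) : N.τ v X ∈ N.loc (Ot t') :=
  N.mono (N.τ_mem v h) fun y hy l => by
    have := hy l
    simp only [PiLp.sub_apply] at this
    linarith [hv l]

theorem bx_hs (h : X ∈ N.loc (Bx R)) (μ : Fin 4) : X ∈ N.loc (Hs μ (-R)) :=
  N.mono h fun _ hy => (abs_lt.1 (hy μ)).1

theorem Θ_bx (h : X ∈ N.loc (Bx R)) (μ : Fin 4) : N.Θ μ X ∈ N.loc (Bx R) :=
  N.mono (N.Θ_mem μ h) fun _ hy l => (abs_rf μ l _).symm.trans_lt (hy l)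

theorem Θ_hs (h : X ∈ N.loc (Hs μ t)) {ν : Fin 4} (hν : μ ≠ ν) : N.Θ ν X ∈ N.loc (Hs μ t) :=
  N.mono (N.Θ_mem ν h) fun _ hy => (show t < _ from hy).trans_eq (rf_ne hν _)

theorem rp_adm (h : X ∈ N.loc (Hs μ 0)) (h' : Y ∈ N.loc (Hs μ 0)) :
    N.Θ μ X * Y ∈ N.loc univ :=
  adm (N.mul (N.Θ_mem μ h) h' (disjoint_left.2 fun y e e' => by
    simp only [Hs, mem_ofPred_eq, rf_self] at e e'
    linarith))

theorem qb_hs (h : X ∈ N.loc (Bx R)) (hb : b ∈ N.loc (Ot R)) (R0 : 0 ≤ R) (hv : R ≤ v μ) :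
    N.τ v (X * b) ∈ N.loc (Hs μ 0) :=
  τ_hs (mul_far (N.mono h fun _ hy => ⟨(abs_lt.1 (hy μ)).1, hy⟩) hb (Ot.hs μ (t := -R) (by linarith)))
    (by linarith)

theorem dg_ot (hb : b ∈ N.loc (Ot 0)) : N.τ (dg R) b ∈ N.loc (Ot R) := τ_ot hb fun _ => by simp

theorem sand (h : X ∈ N.loc (Bx R)) (R0 : 0 ≤ R) (hb : b ∈ N.loc (Hs μ R)) (hY : Y ∈ N.loc (Hs μ R)) :
    N.Θ μ b * X * Y ∈ N.loc univ :=
  adm (N.mul (N.mul (N.Θ_mem μ hb) h (disjoint_left.2 fun y e e' => by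
    simp only [Hs, mem_ofPred_eq, rf_self] at e
    linarith [(abs_lt.1 (e' μ)).1])) hY (disjoint_left.2 fun y e e' => by
    simp only [Hs, mem_ofPred_eq, rf_self, mem_union] at e e'
    rcases e with e | e
    · linarith
    · linarith [(abs_lt.1 (e μ)).2]))

variable {H : Type} [NormedAddCommGroup H] [InnerProductSpace ℂ H] (r : N.Rep S μ H)

theorem Rep.nq (h : X ∈ N.loc (Hs μ 0)) : N.nq S μ X = ‖r.Ψ X‖ ^ 2 := by
  rw [Net.nq, ← r.inn h h, ← inner_self_eq_norm_sq (𝕜 := ℂ)]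
  rfl

theorem Rep.le (hv : 0 ≤ v μ) (h : X ∈ N.loc (Hs μ 0)) : ‖r.Ψ (N.τ v X)‖ ≤ ‖r.Ψ X‖ := by
  rw [← r.act hv h]
  exact ((r.T v).le_of_opNorm_le (r.nrm hv) _).trans_eq (one_mul _)

theorem Rep.one (hS : N.St S) : ‖r.Ψ 1‖ = 1 := by
  rw [← sq_eq_sq₀ (norm_nonneg _) zero_le_one, ← r.nq (N.one _), Net.nq, map_one, mul_one, hS.one]
  simp

theorem Rep.vac (h : X ∈ N.loc (Hs μ 0)) : inner ℂ (r.Ψ 1) (r.Ψ X) = S X := by
  rw [r.inn (N.one _) h, map_one, one_mul]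

theorem Rep.qb (h : N.QB S X R c) (hb : b ∈ N.loc (Ot R)) (hv : R ≤ v μ) :
    ‖r.Ψ (N.τ v (X * b))‖ ≤ c * ‖r.Ψ (N.τ (dg (-R)) b)‖ := by
  have h1 : N.τ (dg (-R)) b ∈ N.loc (Ot 0) := τ_ot hb fun _ => by simp
  have h2 := h.2.2.2 μ _ h1
  have h3 := qb_hs (v := ax μ R) (μ := μ) h.1 hb h.2.1 (by simp)
  rw [N.τ_τ, show dg R + dg (-R) = 0 by ext; simp, N.τ_zero, r.nq h3,
    r.nq (N.mono h1 (Ot.hs μ le_rfl)), ← mul_pow] at h2
  rw [← sub_add_cancel v (ax μ R), ← N.τ_τ]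
  exact (r.le (by simpa using hv) h3).trans
    (le_of_sq_le_sq h2 (mul_nonneg h.2.2.1 (norm_nonneg _)))

theorem Rep.shift (hS : N.St S) (h : N.τ (-rf μ v) (N.Θ μ X) ∈ N.loc (Hs μ 0))
    (h' : N.τ (-v) Y ∈ N.loc (Hs μ 0)) :
    S (X * Y) = inner ℂ (r.Ψ (N.τ (-rf μ v) (N.Θ μ X))) (r.Ψ (N.τ (-v) Y)) := by
  rw [r.inn h h', ← hS.ti v (rp_adm h h'), map_mul (N.τ v), N.Θ_τ, N.Θ_Θ, N.τ_τ, N.τ_τ, rf_neg, rf_rf,
    add_neg_cancel, N.τ_zero, N.τ_zero]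

theorem Rep.adj (hS : N.St S) (hv : 0 ≤ v μ) (x y : H) :
    inner ℂ (r.T v x) y = inner ℂ x (r.T (-rf μ v) y) := by
  have hw : 0 ≤ (-rf μ v) μ := by simpa using hv
  refine r.dense.induction_on₂ (p := fun x y => inner ℂ (r.T v x) y = inner ℂ x (r.T (-rf μ v) y))
    (isClosed_eq (by fun_prop) (by fun_prop)) ?_ x y
  rintro ⟨X, hX⟩ ⟨Y, hY⟩
  have h1 := τ_hs (t' := 0) (v := v) hX (by linarith)
  rw [r.act hv hX, r.act hw hY, r.inn h1 hY, r.shift (v := rf μ v) hS (by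
    rwa [rf_rf, N.Θ_Θ, N.τ_τ, neg_add_cancel, N.τ_zero]) (τ_hs hY (by linarith)), rf_rf, N.Θ_Θ,
    N.τ_τ, neg_add_cancel, N.τ_zero]

theorem St.exists_rep (hS : N.St S) (μ : Fin 4) : ∃ (H : Type) (_ : NormedAddCommGroup H)
    (_ : InnerProductSpace ℂ H) (_ : CompleteSpace H), Nonempty (N.Rep S μ H) := by
  let A := N.loc (Hs μ 0)
  let c : PreInnerProductSpace.Core ℂ A :=
    { inner := fun x y => S (N.Θ μ x * y)
      conj_inner_symm := fun x y => by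
        rw [← hS.herm μ (rp_adm y.2 x.2), map_mul, N.Θ_Θ, mul_comm]
      re_inner_nonneg := fun x => hS.pos μ x.2
      add_left := fun x y z => by simp only [Submodule.coe_add, map_add, add_mul]
      smul_left := fun x y a => by
        simp only [Submodule.coe_smul, N.Θ_smul, smul_mul_assoc, map_smul, smul_eq_mul] }
  let _ : SeminormedAddCommGroup A := InnerProductSpace.Core.toSeminormedAddCommGroup (𝕜 := ℂ)
  let _ : InnerProductSpace ℂ A := .ofCore c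
  let e : A →ₗ[ℂ] UniformSpace.Completion A := UniformSpace.Completion.toComplₗᵢ.toLinearMap
  have he : DenseRange e := UniformSpace.Completion.denseRange_coe
  obtain ⟨Ψ, hΨ⟩ := e.exists_extend
  replace hΨ : ∀ x : A, Ψ x = e x := fun x => LinearMap.congr_fun hΨ x
  have h1 : ∀ {X Y}, X ∈ A → Y ∈ A → inner ℂ (Ψ X) (Ψ Y) = S (N.Θ μ X * Y) := fun hX hY => by
    rw [hΨ ⟨_, hX⟩, hΨ ⟨_, hY⟩]
    exact UniformSpace.Completion.inner_coe _ _
  have h2 : ∀ v : R4, 0 ≤ v μ → ∀ x : A,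
      ‖(Ψ ∘ₗ (N.τ v).toLinearMap ∘ₗ A.subtype) x‖ ≤ 1 * ‖e x‖ := fun v hv x => by
    have h3 := τ_hs (t' := 0) (v := v) x.2 (by linarith)
    rw [one_mul, ← hΨ, ← sq_le_sq₀ (norm_nonneg _) (norm_nonneg _),
      ← inner_self_eq_norm_sq (𝕜 := ℂ), ← inner_self_eq_norm_sq (𝕜 := ℂ), h1 x.2 x.2]
    exact (congrArg Complex.re (h1 h3 h3)).trans_le (hS.con μ x.2 hv)
  exact ⟨_, inferInstance, inferInstance, inferInstance, ⟨Ψ, fun v =>
    (Ψ ∘ₗ (N.τ v).toLinearMap ∘ₗ A.subtype).extendOfNorm e, h1, by rwa [funext hΨ],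
    fun hv => LinearMap.opNorm_extendOfNorm_le he zero_le_one (h2 _ hv), fun {v X} hv hX => by
      rw [hΨ ⟨X, hX⟩]
      exact LinearMap.extendOfNorm_eq he ⟨1, h2 v hv⟩ _⟩⟩

theorem St.bound (hS : N.St S) (h : N.QB S X R c) : ‖S X‖ ≤ c := by
  obtain ⟨H, _, _, _, ⟨r⟩⟩ := hS.exists_rep 0
  have h1 := r.qb (v := ax 0 R) h (N.one _) (by simp)
  have h2 := r.vac (qb_hs (v := ax 0 R) h.1 (N.one _) h.2.1 (by simp))
  rw [map_one, r.one hS, mul_one] at h1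
  rw [← hS.ti (ax 0 R) (adm h.1), ← mul_one X, ← h2]
  exact (norm_inner_le_norm _ _).trans (by rwa [r.one hS, one_mul, mul_one, ← mul_one c])

theorem Dom.two (h : N.Dom S S') (μ : Fin 4) {Z Z' : P} (s s' t t' : R4) (hZ : Z ∈ N.loc univ)
    (hZ' : Z' ∈ N.loc univ) (H : ∀ᶠ R in atTop, ∀ B ∈ N.loc (Ot R),
      0 ≤ (S (N.Θ μ (N.τ s B) * Z * N.τ s' B) + S (N.Θ μ (N.τ t B) * Z' * N.τ t' B)).re) :
    0 ≤ (S' Z + S' Z').re := by
  obtain ⟨R, hR⟩ := H.exists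
  simpa using h μ 2 ![Z, Z'] ![s, t] ![s', t'] R (Fin.forall_fin_two.2 ⟨hZ, hZ'⟩)
    (by simpa using hR)

theorem far_adm (μ : Fin 4) (hX : X ∈ N.loc univ) :
    ∀ᶠ R in atTop, ∀ B ∈ N.loc (Ot R), N.Θ μ B * X * B ∈ N.loc univ := by
  filter_upwards [box hX, eventually_ge_atTop 0] with R h1 h2 B hB
  have := N.mono hB (Ot.hs μ le_rfl)
  exact sand (N.mono h1 inter_subset_right) h2 this this

theorem Dom.eq_zero (h : N.Dom S S') (hX : X ∈ N.loc univ)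
    (H : ∀ᶠ R in atTop, ∀ B ∈ N.loc (Ot R), S (N.Θ μ B * X * B) = 0) : S' X = 0 :=
  eq_of_re fun c => by
    simpa using h.two μ 0 0 0 0 (Submodule.smul_mem _ c hX) (Submodule.zero_mem _)
      (H.mono fun R e B hB => by simp [N.τ_zero, e B hB])

theorem Dom.nq (h : N.Dom S S') {s : R4} (hX : X ∈ N.loc (Hs μ 0)) (hY : Y ∈ N.loc (Hs μ 0))
    (H : ∀ᶠ R in atTop, ∀ B ∈ N.loc (Ot R), N.nq S μ (Y * N.τ s B) ≤ c * N.nq S μ (X * B)) :
    N.nq S' μ Y ≤ c * N.nq S' μ X := by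
  have := h.two μ 0 0 s s (Submodule.smul_mem _ (c : ℂ) (rp_adm hX hX))
    (Submodule.neg_mem _ (rp_adm hY hY)) (H.mono fun R e B hB => by
      have := e B hB
      simp only [Net.nq, map_mul] at this
      simp only [N.τ_zero, mul_smul_comm, smul_mul_assoc, map_smul, smul_eq_mul, mul_neg, neg_mul,
        map_neg, Complex.add_re, Complex.neg_re, Complex.re_ofReal_mul]
      rw [show N.Θ μ B * (N.Θ μ X * X) * B = N.Θ μ X * N.Θ μ B * (X * B) by ring, show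
        N.Θ μ (N.τ s B) * (N.Θ μ Y * Y) * N.τ s B = N.Θ μ Y * N.Θ μ (N.τ s B) * (Y * N.τ s B) by ring]
      exact sub_nonneg.2 this)
  simp only [map_smul, smul_eq_mul, map_neg, Complex.add_re, Complex.neg_re,
    Complex.re_ofReal_mul] at this
  exact sub_nonneg.1 this

theorem Dom.st (h : N.Dom S S') (hS : N.St S) (h1 : S' 1 = 1) : N.St S' where
  one := h1
  ti {X} v hX := eq_of_re fun c => by
    simpa using h.two 0 0 0 (-rf 0 v) (-v) (Submodule.smul_mem _ c (τ_adm v hX))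
      (Submodule.neg_mem _ (Submodule.smul_mem _ c hX)) ((far_adm 0 (τ_adm v hX)).mono
        fun R e B hB => by
          have := hS.ti (-v) (e B hB)
          simp only [map_mul, N.τ_τ, neg_add_cancel, N.τ_zero] at this
          simp [N.τ_zero, N.Θ_τ, this])
  herm {X} μ hX := eq_of_re fun c => by
    have := h.two μ 0 0 0 0 (Submodule.smul_mem _ c (Θ_adm μ hX))
      (Submodule.neg_mem _ (Submodule.smul_mem _ (conj c) hX)) ((far_adm μ hX).mono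
        fun R e B hB => by
          have := hS.herm μ (e B hB)
          simp only [map_mul, N.Θ_Θ] at this
          simp [N.τ_zero, ← mul_comm B, mul_comm (N.Θ μ B) (N.Θ μ X),
            ← mul_assoc B, this])
    simpa using this
  pos {X} μ hX := by
    have := h.nq (c := 1) (s := 0) hX (Submodule.zero_mem _) (by
      filter_upwards [box hX, eventually_ge_atTop 0] with R h1 h2 B hB
      simpa [Net.nq] using hS.pos μ (mul_far h1 hB (Ot.hs μ h2)))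
    simpa [Net.nq] using this
  con {X v} μ hX hv := by
    rw [← one_mul (N.nq S' μ X)]
    refine h.nq (s := v) hX (τ_hs hX (by linarith)) ?_
    filter_upwards [box hX, eventually_ge_atTop 0] with R h1 h2 B hB
    rw [← map_mul, one_mul]
    exact hS.con μ (mul_far h1 hB (Ot.hs μ h2)) hv

theorem Dom.qb (h : N.Dom S S') (hQ : N.QB S X R c) : N.QB S' X R c := by
  refine ⟨hQ.1, hQ.2.1, hQ.2.2.1, fun μ b hb => h.nq (s := ax μ R + dg R)
    (N.mono hb (Ot.hs μ le_rfl)) (qb_hs hQ.1 (dg_ot hb) hQ.2.1 (by simp)) ?_⟩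
  filter_upwards [box hb, eventually_ge_atTop 0] with R' h1 h2 B hB
  rw [← N.τ_τ, ← map_mul, mul_assoc, ← map_mul]
  exact hQ.2.2.2 μ _ (mul_far h1 hB (Ot.mono h2))

end Net

end Pool.Agent.Lib.MP_7f377f_mp.Pur
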