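import Pool.Agent.Lib.MP_7f377f_mp.G.GAng
import Pool.Agent.Lib.MP_7f377f_mp.G.Q4Model
import Pool.Agent.Lib.MP_7f377f_mp.G.RGAp3
import Pool.Agent.Lib.MP_7f377f_mp.G.RGHol3

/-! Tori with vector periods, abelian backgrounds, Hessians: definitions. -/

noncomputable section

set_option linter.unusedSectionVars false
variable [Pool.Agent.Lib.MP_7f377f_mp.GD]

namespace Pool.Agent.Lib.MP_7f377f_mp.RG.Q4

open Finset Matrix

/-- sites of the torus with periods `N` -/
abbrev TS (N : Fin 4 → ℕ) := (i : Fin 4) → ZMod (N i)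

/-- projection to the torus -/
def cs (N : Fin 4 → ℕ) (x : St) : TS N := fun i => (x i : ZMod (N i))

/-- a representative of a site of the torus -/
def lf {N : Fin 4 → ℕ} (x : TS N) : St := fun i => ((x i).val : ℤ)

/-- real components of fluctuation fields -/
abbrev IL (N : Fin 4 → ℕ) := (TS N × Fin 4) × Fin GD.d

/-- gauge directions: the neutral components are pinned at the origin; constant neutral shifts -/
abbrev IG (N : Fin 4 → ℕ) := {p : TS N × Fin GD.d // ¬(p.1 = 0 ∧ GD.q p.2 = 0)} ⊕ Fin 4 × Neu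

/-- periodicity with the periods `N` -/
def PV {α : Type} (N : Fin 4 → ℕ) (U : Lk → α) : Prop := ∀ μ, sh ((N μ : ℤ) • un μ) U = U

/-- periodic extension -/
def pf {N : Fin 4 → ℕ} (a : IL N → ℝ) : Fld := fun e => Af.cR fun k => a ((cs N e.1, e.2), k)

/-- abelian fields -/
def ab (θ : Lk → Ang) : Conf := fun e => eA (θ e)

/-- curvature `F` in the plane of the first two axes -/
def kF (F : ℝ) (μ ν : Fin 4) : ℝ :=
  if μ = 0 ∧ ν = 1 then F else if μ = 1 ∧ ν = 0 then -F else 0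

/-- backgrounds of constant flux with a holonomy which gives a mass to the charged modes -/
structure Bg (N : Fin 4 → ℕ) (F : ℝ) (θ : Lk → Ang) : Prop where
  per : PV N θ
  curv : ∀ x μ ν, dd θ x μ ν = (kF F μ ν : ℝ)
  hol2 : ∑ s ∈ range (N 2), θ ((s : ℤ) • un 2, 2) = 0
  hol3 : ∑ s ∈ range (N 3), θ ((s : ℤ) • un 3, 3) = (twA : ℝ)

/-- the gauge parameter as a function on the torus -/
def gl {N : Fin 4 → ℕ} (v : IG N → ℝ) (x : TS N) (k : Fin GD.d) : ℝ :=
  if h : ¬(x = 0 ∧ GD.q k = 0) then v (.inl ⟨(x, k), h⟩) else 0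

/-- the constant shifts -/
def sv {N : Fin 4 → ℕ} (v : IG N → ℝ) (μ : Fin 4) (k : Fin GD.d) : ℝ :=
  if h : GD.q k = 0 then v (.inr (μ, ⟨k, h⟩)) else 0

/-- infinitesimal gauge transformations and shifts at the background `U` -/
def DL (N : Fin 4 → ℕ) (U : Conf) : (IG N → ℝ) →ₗ[ℝ] (IL N → ℝ) where
  toFun v i := gl v i.1.1 i.2 - (Rm (U (lf i.1.1, i.1.2)) *ᵥ gl v (i.1.1 + Pi.single i.1.2 1)) i.2 +
    sv v i.1.2 i.2
  map_add' v w := by
    have : ∀ x, gl (v + w) x = gl v x + gl w x := fun x => by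
      funext k; simp only [gl, Pi.add_apply]; split_ifs <;> simp
    funext i
    simp only [this, mulVec_add, Pi.add_apply, sv]
    split_ifs <;> ring
  map_smul' c v := by
    have : ∀ x, gl (c • v) x = c • gl v x := fun x => by
      funext k; simp only [gl, Pi.smul_apply]; split_ifs <;> simp
    funext i
    simp only [this, mulVec_smul, Pi.smul_apply, smul_eq_mul, RingHom.id_apply, sv]
    split_ifs <;> ring

variable (N : Fin 4 → ℕ) [∀ i, NeZero (N i)]

def Dm (U : Conf) : Matrix (IL N) (IG N) ℝ := LinearMap.toMatrix' (DL N U)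

/-- covariant curl -/
def crl {N : Fin 4 → ℕ} (U : Conf) (a : IL N → ℝ) (x : TS N) (μ ν : Fin 4) : Fin GD.d → ℝ :=
  (fun k => a ((x, μ), k)) + Rm (U (lf x, μ)) *ᵥ (fun k => a ((x + Pi.single μ 1, ν), k)) -
    Rm (U (lf x, ν)) *ᵥ (fun k => a ((x + Pi.single ν 1, μ), k)) - fun k => a ((x, ν), k)

/-- the action with density `t` as a function of the fluctuation around `U` -/
def SS (t : Cf → ℂ) (U : Conf) (a : IL N → ℝ) : ℝ :=
  ∑ x : TS N, (t (sh (lf x) (exF (pf a) * cC U))).re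

/-- the Wilson density -/
def wc (U : Cf) : ℂ := ∑ μ, ∑ ν, if μ < ν then enq (hol star U 0 μ ν) else 0

/-- the origin is a critical point of `f` with quadratic part `Q` -/
def Tay {ι : Type} [Fintype ι] (f : (ι → ℝ) → ℝ) (Q : Matrix ι ι ℝ) (C ρ : ℝ) : Prop :=
  Q.IsSymm ∧ ∀ a δ, ‖a‖ ≤ δ → δ ≤ ρ → |f a - f 0 - a ⬝ᵥ Q *ᵥ a| ≤ C * δ ^ 3

/-- half the logarithm of the gauge fixed determinant -/
def lk {ι κ : Type} [Fintype ι] [Fintype κ] [DecidableEq ι] [DecidableEq κ] (Q : Matrix ι ι ℝ)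
    (d : Matrix ι κ ℝ) : ℝ :=
  2⁻¹ * Real.log ((Q + d * dᵀ).det / (dᵀ * d).det ^ 2)

/-- periods of the tori which are used -/
def NN (n1 n2 : ℕ) : Fin 4 → ℕ := ![n1, n1, n2, n2]

instance (n1 n2 : ℕ) [NeZero n1] [NeZero n2] (i : Fin 4) : NeZero (NN n1 n2 i) := by
  fin_cases i <;> exact ⟨by simp [NN, NeZero.ne]⟩

theorem Dm_mulVec (U : Conf) (v : IG N → ℝ) : Dm N U *ᵥ v = DL N U v :=
  LinearMap.toMatrix'_mulVec _ _

end Pool.Agent.Lib.MP_7f377f_mp.RG.Q4
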