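import Pool.Agent.Lib.MP_7f377f_mp.G.Q4AfB

/-! Taylor expansions of local functionals. -/

noncomputable section

set_option linter.unusedSectionVars false
variable [Pool.Agent.Lib.MP_7f377f_mp.GD]

namespace Pool.Agent.Lib.MP_7f377f_mp.RG.Q4.Af

open Finset Matrix Filter Metric Kit Kit.Dom
open scoped Topology

section dom
variable {E : Type} [AddCommGroup E] [Module ℂ E] {O : Kit.Dom E} {k : E → ℂ} {M : ℝ}

/-- second Taylor coefficient at `B` in the direction `v` -/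
def q2 (k : E → ℂ) (B v : E) : ℂ := dv (fun B => dv k B v) B v / 2

theorem q2_eq (k : E → ℂ) (B v : E) :
    q2 k B v = deriv (deriv fun s : ℂ => k (B + s • v)) 0 / 2 := by
  unfold q2 dv
  congr 2
  funext s
  have := deriv_comp_const_add (fun t : ℂ => k (B + t • v)) s 0
  simpa only [add_smul, add_zero, add_assoc] using this

theorem q2_zero (k : E → ℂ) (v : E) : q2 k 0 v = d2 k v v / 2 := by
  simp [q2_eq, d2_self]

theorem q2_congr {E' : Type} [AddCommGroup E'] [Module ℂ E'] {k' : E' → ℂ} {B v : E} {B' v' : E'}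
    (e : ∀ s : ℂ, k (B + s • v) = k' (B' + s • v')) :
    q2 k B v = q2 k' B' v' ∧ dv k B v = dv k' B' v' := by
  simp only [q2_eq, dv, e, and_self]

theorem q2_lip (h : O.LH k) (hM : ∀ B ∈ O.D 1, ‖k B‖ ≤ M) {θ η : ℝ} (h0 : 0 < θ) (η0 : 0 < η)
    (η1 : η < 1 / 8) {B δ v : E} (hB : B ∈ O.D (1 / 8)) (hδ : δ ∈ O.D η) (hv : v ∈ O.D θ) :
    ‖q2 k (B + δ) v - q2 k B v‖ ≤ 256 * M * η * θ ^ 2 ∧ ‖q2 k B v‖ ≤ 16 * M * θ ^ 2 := by
  obtain ⟨a1, a2⟩ := h.dv_lh hM h0 hv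
  obtain ⟨b1, b2⟩ := a1.dv_lh a2 (by positivity : 0 < 2 * θ) (mem_half hv)
  have hB' : B ∈ O.half.half.D (1 / 2) := O.half.half.mono (by norm_num) (mem_half (mem_half hB))
  have c1 := b1.lip b2 hB' (mem_half (mem_half hδ)) (by positivity) (by linarith)
  have c2 := b2 B (O.half.half.mono (by norm_num) hB')
  simp only [q2, ← sub_div, norm_div, Complex.norm_ofNat]
  constructor
  · rw [div_le_iff₀ two_pos]
    refine c1.trans_eq ?_
    field_simp; ring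
  · rw [div_le_iff₀ two_pos]
    refine c2.trans_eq ?_
    field_simp; ring

theorem LH_tay (h : O.LH k) (hM : ∀ B ∈ O.D 1, ‖k B‖ ≤ M) (hall : ∀ B, ∃ θ, B ∈ O.D θ) :
    ∃ (ℓ : E →ₗ[ℂ] ℂ) (β : E →ₗ[ℂ] E →ₗ[ℂ] ℂ), (∀ v w, β v w = β w v) ∧ (∀ v, β v v = q2 k 0 v) ∧
      (∀ v, ℓ v = dv k 0 v) ∧ ∀ θ B, B ∈ O.D θ → 0 < θ → θ ≤ 1 →
        ‖k B - k 0 - ℓ B - β B B‖ ≤ 12 * M * θ ^ 3 ∧ ‖ℓ B‖ ≤ 4 * M * θ := by
  obtain ⟨θ0, z0⟩ := hall 0
  have z : ∀ θ, 0 ≤ θ → (0 : E) ∈ O.D θ := fun θ => zero z0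
  have zh : (0 : E) ∈ O.half.D 1 := z _ (by norm_num)
  obtain ⟨β, hβ⟩ := h.bilin hM hall
  let ℓ : E →ₗ[ℂ] ℂ := ⟨⟨dv k 0, h.dv_add hM hall zh⟩, fun c v => dv_smul k 0 v c⟩
  have hl : ∀ θ B, B ∈ O.D θ → 0 < θ → ‖ℓ B‖ ≤ 4 * M * θ := fun θ B hB h0 =>
    ((h.dv_lh hM h0 hB).2 0 zh).trans_eq (by field_simp; ring)
  refine ⟨ℓ, (4⁻¹ : ℂ) • (β + β.flip), fun v w => by simp [add_comm], fun v => ?_, fun _ => rfl,
    fun θ B hB h0 h1 => ⟨?_, hl θ B hB h0⟩⟩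
  · simp [hβ, q2_zero]; ring
  have hk : O.LH fun B => k B - k 0 - ℓ B := fun B δ S hS hD => by
    simp only [map_add, map_smul, smul_eq_mul]
    exact ((h B δ S hS hD).sub_const _).sub (by fun_prop)
  have dl : ∀ B (s : ℂ), HasDerivAt (fun t : ℂ => ℓ (t • B)) (ℓ B) s := fun B s => by
    simpa using (hasDerivAt_id s).mul_const (ℓ B)
  have c := hk.cubic (M := 6 * M) (fun B hB => by
      linarith [norm_sub_le (k B - k 0) (ℓ B), norm_sub_le (k B) (k 0), hM B hB, hM 0 (z 1 zero_le_one),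
        hl 1 B hB one_pos]) (by simp) (fun B => by
      obtain ⟨θ, hB⟩ := hall B
      rw [(((h.diffAt hB).hasDerivAt.sub_const _).fun_sub (dl B 0)).deriv]
      simp [ℓ, dv]) hB h0 h1
  have e : d2 (fun B => k B - k 0 - ℓ B) B B = d2 k B B := by
    rw [d2_self, d2_self]
    have : deriv (fun t : ℂ => k (t • B) - k 0 - ℓ (t • B)) =ᶠ[𝓝 0]
        fun s => deriv (fun t : ℂ => k (t • B)) s - ℓ B := by
      filter_upwards [ball_mem_nhds (0 : ℂ) (inv_pos.2 h0)] with s hs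
      exact (((((h.line_diff hB h0).1.differentiableAt
        (isOpen_ball.mem_nhds hs)).hasDerivAt).sub_const _).fun_sub (dl B s)).deriv
    rw [this.deriv_eq, deriv_sub_const]
  rw [e] at c
  refine le_of_eq_of_le ?_ (c.trans_eq (by ring))
  simp only [LinearMap.smul_apply, LinearMap.add_apply, LinearMap.flip_apply, hβ, smul_eq_mul]
  congr 1; ring

theorem LH_comp {E' : Type} [AddCommGroup E'] [Module ℂ E'] {O' : Kit.Dom E'} (h : O.LH k)
    (j : E' →ₗ[ℂ] E) {B : E} (hj : ∀ v ∈ O'.D 1, B + j v ∈ O.D 1) : O'.LH fun v => k (B + j v) :=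
  fun v δ S hS hD => by
    simpa only [map_add, map_smul, add_assoc] using h (B + j v) (j δ) S hS fun t ht => by
      simpa only [map_add, map_smul, add_assoc] using hj _ (hD t ht)

/-- Taylor expansion of a finite sum of local terms -/
theorem tay_sum {X ι : Type} [Fintype X] [Fintype ι] [DecidableEq ι] (k : X → E → ℂ)
    (h : ∀ x, O.LH (k x)) (hM : ∀ x, ∀ B ∈ O.D 1, ‖k x B‖ ≤ M) (hall : ∀ B, ∃ θ, B ∈ O.D θ)
    [Module ℝ E] [IsScalarTower ℝ ℂ E] (j : X → (ι → ℝ) →ₗ[ℝ] E) {ρ : ℝ} (hρ : 0 < ρ)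
    (hj : ∀ x a, j x a ∈ O.D (‖a‖ / ρ)) : ∃ (ℓ : (ι → ℝ) →ₗ[ℝ] ℝ) (Q : Matrix ι ι ℝ),
      Tay (fun a => ∑ x, (k x (j x a)).re - ℓ a) Q (Fintype.card X * (12 * M / ρ ^ 3)) ρ ∧
      (∀ a, ℓ a = ∑ x, (dv (k x) 0 (j x a)).re) ∧
      ∀ a, a ⬝ᵥ Q *ᵥ a = ∑ x, (q2 (k x) 0 (j x a)).re := by
  choose ℓ β h1 h2 h3 h4 using fun x => LH_tay (h x) (hM x) hall
  let L : (ι → ℝ) →ₗ[ℝ] ℝ := ∑ x, Complex.reLm ∘ₗ (ℓ x).restrictScalars ℝ ∘ₗ j x
  let b : (ι → ℝ) →ₗ[ℝ] (ι → ℝ) →ₗ[ℝ] ℝ := LinearMap.mk₂ ℝ (fun a b => ∑ x, (β x (j x a) (j x b)).re)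
    (fun a b c => by simp [sum_add_distrib]) (fun a b c => by simp [mul_sum])
    (fun a b c => by simp [sum_add_distrib]) (fun a b c => by simp [mul_sum])
  have hb : ∀ a c, a ⬝ᵥ LinearMap.toMatrix₂' ℝ b *ᵥ c = ∑ x, (β x (j x a) (j x c)).re := fun a c => by
    rw [← Matrix.toLinearMap₂'_apply', Matrix.toLinearMap₂'_toMatrix']; rfl
  have hL : ∀ a, L a = ∑ x, (ℓ x (j x a)).re := fun a => by simp [L]
  refine ⟨L, LinearMap.toMatrix₂' ℝ b, ⟨?_, fun a δ ha hδ => ?_⟩, fun a => by simp [hL, h3],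
    fun a => by simp [hb, h2]⟩
  · ext i i'
    simp [b, LinearMap.toMatrix₂'_apply, h1 _ (j _ (Pi.single i 1))]
  rcases ((norm_nonneg a).trans ha).eq_or_lt with rfl | δ0
  · simp [norm_le_zero_iff.1 ha]
  have := fun x => (Complex.abs_re_le_norm _).trans (h4 x (δ / ρ) (j x a)
    (O.mono (by gcongr) (hj x a)) (by positivity) ((div_le_one hρ).2 hδ)).1
  simp only [hb, hL, map_zero, Complex.zero_re, sum_const_zero, sub_zero]
  rw [sub_right_comm _ _ (∑ x, (k x 0).re), ← sum_sub_distrib, ← sum_sub_distrib, ← sum_sub_distrib]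
  refine (abs_sum_le_sum_abs _ _).trans ((sum_le_card_nsmul _ _ _ fun x _ => this x).trans_eq ?_)
  rw [card_univ, nsmul_eq_mul]; ring

end dom

/-- balls of the supremum over a finite set -/
def sD {I F : Type} [NormedAddCommGroup F] [NormedSpace ℂ F] (S : Finset I) {ρ : ℝ} (hρ : 0 < ρ) :
    Kit.Dom (I → F) where
  D θ := {A | ∀ i ∈ S, ‖A i‖ ≤ θ * ρ}
  smul c θ B h i hi := by
    rw [Pi.smul_apply, norm_smul, mul_assoc]; exact mul_le_mul_of_nonneg_left (h i hi) (norm_nonneg _)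
  add h h' i hi := (norm_add_le _ _).trans (by linarith [h i hi, h' i hi])
  mono h hB i hi := (hB i hi).trans (mul_le_mul_of_nonneg_right h hρ.le)

theorem mem_sD {I F : Type} [NormedAddCommGroup F] [NormedSpace ℂ F] {S : Finset I} {ρ δ : ℝ}
    (hρ : 0 < ρ) {A : I → F} (h : ∀ i ∈ S, ‖A i‖ ≤ δ) : A ∈ (sD S hρ).D (δ / ρ) :=
  fun i hi => by rw [div_mul_cancel₀ _ hρ.ne']; exact h i hi

theorem sD_all {I F : Type} [NormedAddCommGroup F] [NormedSpace ℂ F] (S : Finset I) {ρ : ℝ}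
    (hρ : 0 < ρ) (A : I → F) : ∃ θ, A ∈ (sD S hρ).D θ :=
  ⟨_, mem_sD hρ fun _ hi => single_le_sum (f := fun i => ‖A i‖) (fun _ _ => norm_nonneg _) hi⟩

/-- gauge action on a family of links with given end points -/
def ga {I : Type} (src tgt : I → St) (h : St → S3) (U : I → Hc) : I → Hc :=
  fun i => cS (h (src i)) * U i * star (cS (h (tgt i)))

/-- gauge invariant functionals which are holomorphic and bounded near the trivial field -/
structure Lo {I : Type} (src tgt : I → St) (S : Finset I) (δ M : ℝ) (t : (I → Hc) → ℂ) : Prop where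
  gi : ∀ h U, t (ga src tgt h U) = t U
  loc : ∀ U U', (∀ i ∈ S, U i = U' i) → t U = t U'
  hol : ∀ Ω γ, IsOpen Ω → Disc Ω γ → (∀ s ∈ Ω, ∀ i ∈ S, ‖γ s i - 1‖ ≤ δ) →
    DifferentiableOn ℂ (fun s => t (γ s)) Ω
  bd : ∀ U, (∀ i ∈ S, ‖U i - 1‖ ≤ δ) → ‖t U‖ ≤ M

section lo
variable {I : Type} {src tgt : I → St} {S : Finset I} {δ M : ℝ} {t : (I → Hc) → ℂ}

/-- the functional in the chart at `G` -/
def ph (t : (I → Hc) → ℂ) (G : I → Hc) (A : I → C3) : ℂ := t fun i => ex (A i) * G i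

theorem ex_sub_one {b : C3} {η : ℝ} (h : ‖b‖ ≤ η) (h1 : η ≤ 1 / 100) : ‖ex b - 1‖ ≤ 4 * η := by
  have := norm_add_le (ex b - 1 - io b) (io b)
  rw [sub_add_cancel] at this
  nlinarith [ex_near h h1, norm_io b, (norm_nonneg b).trans h]

theorem mul_sub_one {a b : Hc} {s u : ℝ} (h : ‖a - 1‖ ≤ s) (h' : ‖b - 1‖ ≤ u) :
    ‖a * b - 1‖ ≤ s + u + s * u := by
  have : a * b - 1 = (a - 1) + (b - 1) + (a - 1) * (b - 1) := by noncomm_ring
  rw [this]
  refine norm_add₃_le.trans (add_le_add (add_le_add h h') ((norm_mul_le _ _).trans ?_))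
  exact mul_le_mul h h' (norm_nonneg _) ((norm_nonneg _).trans h)

theorem norm_adq_cS (g : S3) (b : C3) : ‖adq (cS g) b‖ ≤ 12 * ‖b‖ := by
  linarith [norm_adq_eq g b, norm_nonneg b]

/-- joint holomorphy in the fluctuation and in the background -/
theorem Lo.lh2 [DecidableEq I] (h : Lo src tgt S δ M t) (h0 : 0 < δ / 10) (h1 : δ ≤ 1 / 10) :
    (sD (F := C3 × C3) S h0).LH (fun P => ph t (fun i => ex (P i).2) fun i => (P i).1) ∧
      ∀ P ∈ (sD (F := C3 × C3) S h0).D 1, ‖ph t (fun i => ex (P i).2) fun i => (P i).1‖ ≤ M := by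
  have sm : ∀ P ∈ (sD (F := C3 × C3) S h0).D 1, ∀ i ∈ S, ‖(P i).1‖ ≤ δ / 10 ∧ ‖(P i).2‖ ≤ δ / 10 ∧
      ‖ex (P i).1 * ex (P i).2 - 1‖ ≤ δ := fun P hP i hi => by
    have a := (norm_fst_le _).trans ((hP i hi).trans_eq (one_mul _))
    have b := (norm_snd_le _).trans ((hP i hi).trans_eq (one_mul _))
    exact ⟨a, b, (mul_sub_one (ex_sub_one a (by linarith)) (ex_sub_one b (by linarith))).trans
      (by nlinarith)⟩
  refine ⟨fun B v Ω hΩ hD => ?_, fun P hP => h.bd _ fun i hi => (sm P hP i hi).2.2⟩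
  refine (h.hol Ω (fun s i => if i ∈ S then ex ((B + s • v) i).1 * ex ((B + s • v) i).2 else 1) hΩ
    (fun i => ?_) fun s hs i hi => ?_).congr fun s _ => h.loc _ _ fun i hi => by simp [hi]
  · by_cases hi : i ∈ S
    · simp only [hi, if_true]
      refine (diff_ex ?_ fun s hs => ?_).mul (diff_ex ?_ fun s hs => ?_)
      · simp only [Pi.add_apply, Pi.smul_apply, Prod.fst_add, Prod.smul_fst]; fun_prop
      · linarith [(sm _ (hD s hs) i hi).1]
      · simp only [Pi.add_apply, Pi.smul_apply, Prod.snd_add, Prod.smul_snd]; fun_prop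
      · linarith [(sm _ (hD s hs) i hi).2.1]
    · simp [hi]
  · rw [if_pos hi]; exact (sm _ (hD s hs) i hi).2.2

theorem ph_ga (h : Lo src tgt S δ M t) (u : St → S3) (G : I → Hc) (A : I → C3) :
    ph t (ga src tgt u G) (fun i => adq (cS (u (src i))) (A i)) = ph t G A := by
  rw [ph, ph, ← h.gi u fun i => ex (A i) * G i]
  congr 1
  funext i
  simp only [ga, ex_adq (uni_cS _), mul_assoc]
  rw [← mul_assoc (star _), (uni_cS _).star_mul, one_mul]

end lo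

end Pool.Agent.Lib.MP_7f377f_mp.RG.Q4.Af
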