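import Pool.Agent.Lib.MP_7f377f_mp.G.Q4Def2

/-! Chains of tree data: definitions. -/

noncomputable section

set_option linter.unusedSectionVars false
variable [Pool.Agent.Lib.MP_7f377f_mp.GD]

namespace Pool.Agent.Lib.MP_7f377f_mp.RG.Q4

/-- the linear theory exists for the exponent `c` -/
def LinC (c : ℕ) : Prop := ∃ l0, ∀ t : Td, t.c = c → l0 ≤ t.l → ∀ j ρ v e, 2⁻¹ ≤ v → v ≤ 2 →
  0 ≤ e → e ≤ 1000⁻¹ → Ch j (3 * t.r) ρ v e t.m → ∃ s, Td.Ln { t with s := s } j v e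

/-- the number of steps after which the tree data have forgotten their origin -/
def S0 (l : ℕ) : ℕ := Nat.log 3 (LL l) ^ 2

/-- chains of `n` tree steps with blocks of the same size and small renormalisations -/
structure Chn (c Kt K0 l n : ℕ) (η : ℝ) (d : ℕ → Td) : Prop where
  ex : ∀ i ≤ n, (d i).c = c ∧ (d i).Kt = Kt ∧ (d i).K0 = K0 ∧ (d i).l = l
  tr : ∀ i ≤ n, ∃ M j v e, (M = LL l ∨ M = 3 * LL l) ∧ 2⁻¹ ≤ v ∧ v ≤ 2 ∧ 0 ≤ e ∧ e ≤ η ∧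
    (d i).Tr M j v e ∧ (d i).Ln j v e
  nx : ∀ i < n, ∃ lam : ℝ, |lam - 1| ≤ η ∧ (d (i + 1)).m = lam • (d i).m1 ∧
    (d (i + 1)).T = fun B => (lam : ℂ) * (d i).T1 B

end Pool.Agent.Lib.MP_7f377f_mp.RG.Q4
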