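import Pool.Agent.Lib.MP_7f377f_mp.G.Q4AfC

/-! Hessians of gauge invariant functionals at abelian backgrounds. -/

noncomputable section

set_option linter.unusedSectionVars false
variable [Pool.Agent.Lib.MP_7f377f_mp.GD]

namespace Pool.Agent.Lib.MP_7f377f_mp.RG.Q4.Af

open Finset Matrix Filter Metric Kit Kit.Dom
open scoped Topology

theorem cR_add (v w : Fin GD.d → ℝ) : cR (v + w) = cR v + cR w := by funext k; simp [cR_apply]
theorem cR_neg (v : Fin GD.d → ℝ) : cR (-v) = -cR v := by funext k; simp [cR_apply]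
theorem cR_smul (c : ℝ) (v : Fin GD.d → ℝ) : cR (c • v) = (c : ℂ) • cR v := by funext k; simp [cR_apply]
@[simp] theorem cR_zero : cR 0 = 0 := by funext k; simp [cR_apply]

theorem norm_cR (v : Fin GD.d → ℝ) : ‖cR v‖ ≤ GD.cG * ‖v‖ :=
  norm_C3_le _ fun k => by simpa [cR_apply] using norm_le_pi_norm v k

theorem norm_le_cR (v : Fin GD.d → ℝ) : ‖v‖ ≤ ‖cR v‖ :=
  (pi_norm_le_iff_of_nonneg (norm_nonneg _)).2 fun k => by
    simpa [cR_apply] using norm_c3_le (cR v) k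

theorem cR_Rm (g : S3) (v : Fin GD.d → ℝ) : cR (Rm g *ᵥ v) = adq (cS g) (cR v) :=
  funext (Rm_mulVec g v)

theorem exists_cR {b : C3} (h : ∀ k, (b k).im = 0) : ∃ v, cR v = b :=
  ⟨fun k => (b k).re, funext fun k => Complex.ext rfl (by simp [cR_apply, h])⟩

theorem exists_exS (v : Fin GD.d → ℝ) : ∃ g : S3, cS g = ex (cR v) :=
  ex_real' fun _ => Complex.ofReal_im _

/-- the point of the group with given chart coordinates -/
def exS (v : Fin GD.d → ℝ) : S3 := (exists_exS v).choose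

theorem cS_exS (v : Fin GD.d → ℝ) : cS (exS v) = ex (cR v) := (exists_exS v).choose_spec

theorem exists_chart {g : S3} {η : ℝ} (h : ‖cS g - 1‖ ≤ η) (h1 : η ≤ 1 / 2) :
    ∃ w, ex (cR w) = cS g ∧ cR w = ch (cS g) ∧ ‖cR w‖ ≤ 2 * η := by
  obtain ⟨w, hw⟩ := exists_cR (ch_real g.q)
  have h2 : ‖g.q - 1‖ ≤ η := by
    refine (norm_cq _).1.trans ?_
    rwa [cq_sub, cq_one]
  obtain ⟨h3, h4⟩ := ch_cS_le h2 h1
  exact ⟨w, by rw [hw]; exact ex_ch h3, hw, by rw [hw]; exact h4⟩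

theorem nr_ex {b : C3} {η : ℝ} (h : ‖b‖ ≤ η) (h1 : η ≤ 1 / 100) :
    Nr (4 * η) (10 * η ^ 2) (ex b) (io b) := Nr.of_le (ex_sub_one h h1) (ex_near h h1)

/-- the second order term of the product in the chart -/
def cm (a b : C3) : C3 := co (io a * io b)

theorem cm_anti (a b : C3) : cm b a = -cm a b := by
  rw [cm, cm, ← co_star, StarMul.star_mul, star_io, star_io, neg_mul_neg]

theorem cm_smul (s u : ℂ) (a b : C3) : cm (s • a) (u • b) = (s * u) • cm a b := by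
  rw [cm, cm, io_smul, io_smul, smul_mul_smul_comm, co_smul]

theorem ex_two {a b : C3} {η : ℝ} (ha : ‖a‖ ≤ η) (hb : ‖b‖ ≤ η) (h1 : η ≤ 1 / 100) :
    ‖co ((ex a - 1) * (ex b - 1)) - cm a b‖ ≤ 70 * η ^ 3 := by
  have η0 := (norm_nonneg _).trans ha
  rw [cm, ← co_sub, show (ex a - 1) * (ex b - 1) - io a * io b =
    (ex a - 1 - io a) * (ex b - 1) + io a * (ex b - 1 - io b) by noncomm_ring]
  refine (norm_co _).trans ((norm_add_le_of_le ((norm_mul_le _ _).trans (mul_le_mul (ex_near ha h1)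
    (ex_sub_one hb h1) (norm_nonneg _) (by positivity))) ((norm_mul_le _ _).trans (mul_le_mul
    ((norm_io a).trans (by linarith : _ ≤ 3 * η)) (ex_near hb h1) (norm_nonneg _)
      (by positivity)))).trans_eq (by ring))

theorem ex3 {u v w : Fin GD.d → ℝ} {η : ℝ} (hu : ‖cR u‖ ≤ η) (hv : ‖cR v‖ ≤ η) (hw : ‖cR w‖ ≤ η)
    (h1 : η ≤ 1 / 100) : ∃ z, ex (cR z) = ex (cR u) * ex (cR v) * ex (cR w) ∧
      ‖z - (u + v + w)‖ ≤ 600 * η ^ 2 ∧ ‖cR z - (cR u + cR v + cR w +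
        (cm (cR u) (cR v) + cm (cR u) (cR w) + cm (cR v) (cR w)))‖ ≤ 300 * η ^ 3 := by
  have η0 := (norm_nonneg _).trans hu
  have n := ((nr_ex hu h1).mul (nr_ex hv h1)).mul (nr_ex hw h1)
  rw [← io_add, ← io_add, ← cR_add, ← cR_add, ← cS_exS, ← cS_exS, ← cS_exS, ← cS_mul, ← cS_mul] at n
  obtain ⟨z, z1, z2, -⟩ := exists_chart (n.le (by positivity) (by linarith)).1 (by linarith)
  refine ⟨z, by rw [z1, cS_mul, cS_mul, cS_exS, cS_exS, cS_exS], (norm_le_cR _).trans ?_, ?_⟩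
  · rw [sub_eq_add_neg, cR_add, cR_neg, z2, ← sub_eq_add_neg]
    exact (n.ch (by positivity) (by linarith) (by nlinarith)).2.trans (by nlinarith)
  have c : ∀ {b : C3}, ‖b‖ ≤ η → co (ex b - 1) = b := fun h => by
    rw [co_sub, co_one, sub_zero, co_ex (by linarith)]
  have t := (norm_co _).trans ((norm_mul_le _ _).trans (mul_le_mul ((norm_mul_le _ _).trans
    (mul_le_mul (ex_sub_one hu h1) (ex_sub_one hv h1) (norm_nonneg _) (by positivity)))
    (ex_sub_one hw h1) (norm_nonneg _) (by positivity)))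
  refine le_of_eq_of_le (congrArg _ ?_) ((norm_add_le_of_le (norm_add_le_of_le (norm_add_le_of_le
    (ex_two hu hv h1) (ex_two hu hw h1)) (ex_two hv hw h1)) t).trans (by nlinarith [pow_nonneg η0 3]))
  rw [z2, ch_cS, cS_mul, cS_mul, cS_exS, cS_exS, cS_exS]
  generalize cm (cR u) (cR v) = x, cm (cR u) (cR w) = y, cm (cR v) (cR w) = z
  rw [← c hu, ← c hv, ← c hw, c hu, c hv, c hw, show ex (cR u) * ex (cR v) * ex (cR w) =
    1 + ((ex (cR u) - 1) + (ex (cR v) - 1) + (ex (cR w) - 1)) + ((ex (cR u) - 1) * (ex (cR v) - 1) +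
      (ex (cR u) - 1) * (ex (cR w) - 1) + (ex (cR v) - 1) * (ex (cR w) - 1) +
      (ex (cR u) - 1) * (ex (cR v) - 1) * (ex (cR w) - 1)) by noncomm_ring]
  simp only [co_add, co_one, c hu, c hv, c hw]
  abel

section gen
variable {I K J : Type} [Fintype J] (src tgt : I → St) (π : I → K) (e : K × Fin GD.d ≃ J)

/-- the field with fluctuation `a` around the background `V` -/
def fl (V : K → S3) (a : J → ℝ) : I → Hc :=
  fun i => ex (cR fun k => a (e (π i, k))) * cS (V (π i))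

/-- the neutral part -/
def nP (a : J → ℝ) : J → ℝ := fun j => if GD.q (e.symm j).2 = 0 then a j else 0

/-- the action of the twist -/
def rt (a : J → ℝ) : J → ℝ := fun j => (Rm zA *ᵥ fun k => a (e ((e.symm j).1, k))) (e.symm j).2

variable {src tgt π e} {F : (I → Hc) → ℝ} {Q : Matrix J J ℝ} {C ρ : ℝ}

theorem norm_comp_le (a : J → ℝ) (i : K) : ‖fun k => a (e (i, k))‖ ≤ ‖a‖ :=
  (pi_norm_le_iff_of_nonneg (norm_nonneg _)).2 fun _ => norm_le_pi_norm a _

theorem norm_le_of_comp {a : J → ℝ} {c : ℝ} (h0 : 0 ≤ c) (h : ∀ i, ‖fun k => a (e (i, k))‖ ≤ c) :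
    ‖a‖ ≤ c := (pi_norm_le_iff_of_nonneg h0).2 fun j => by
  simpa using (norm_le_pi_norm (fun k => a (e ((e.symm j).1, k))) (e.symm j).2).trans (h _)

theorem kill_gauge (hF : ∀ h U, F (ga src tgt h U) = F U) {V : K → S3}
    (hT : Tay (fun a => F (fl π e V a)) Q C ρ) (h0 : 0 < ρ) (u : St → Fin GD.d → ℝ)
    (ls lt : K → Fin GD.d → ℝ) (hs : ∀ i, u (src i) = ls (π i)) (ht : ∀ i, u (tgt i) = lt (π i))
    {d : J → ℝ} (hd : ∀ i k, d (e (i, k)) = ls i k - (Rm (V i) *ᵥ lt i) k) : Q *ᵥ d = 0 := by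
  have : Fintype K := Fintype.ofInjective (fun i => e (i, GD.k0)) fun i j h => by simpa using h
  refine kill_of_quad hT.1 fun a => ?_
  set A := GD.cG * (‖a‖ + ‖ls‖ + ‖lt‖) + 1 with hA
  have := norm_nonneg a
  have := norm_nonneg ls
  have := norm_nonneg lt
  have c1 := GD.cG1
  have nc : ∀ {v : Fin GD.d → ℝ}, ‖v‖ ≤ ‖a‖ + ‖ls‖ + ‖lt‖ → ‖cR v‖ ≤ A := fun h =>
    (norm_cR _).trans ((mul_le_mul_of_nonneg_left h (by linarith)).trans (by linarith))
  have A0 : 0 < A := by positivity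
  refine hT.eq_quad h0 hT h0 (K := 600 * A ^ 2) (s0 := 1 / 100 / A) (by positivity) fun s s0 s1 => ?_
  have nn : ∀ {v : Fin GD.d → ℝ}, ‖cR v‖ ≤ A → ‖cR (s • v)‖ ≤ s * A := fun h => by
    rw [cR_smul, norm_smul, Complex.norm_real, Real.norm_of_nonneg s0.le]; gcongr
  choose z z1 z2 _ using fun i => ex3 (u := s • ls i) (v := s • fun k => a (e (i, k)))
    (w := s • -(Rm (V i) *ᵥ lt i)) (η := s * A) (nn (nc (by linarith [norm_le_pi_norm ls i])))
    (nn (nc (by linarith [norm_comp_le (e := e) a i]))) (nn (by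
      rw [cR_neg, norm_neg, cR_Rm, norm_adq_eq]
      exact nc (by linarith [norm_le_pi_norm lt i])))
    ((le_div_iff₀ A0).1 s1)
  refine ⟨fun j => z (e.symm j).1 (e.symm j).2, norm_le_of_comp (e := e) (by positivity) fun i =>
    le_of_eq_of_le ?_ ((z2 i).trans_eq (by ring)), ?_⟩
  · congr 1; funext k; simp [hd]; ring
  · congr 1
    rw [← hF (fun x => exS (s • u x)) (fl π e V (s • a))]
    congr 1
    funext i
    simp only [fl, ga, Equiv.symm_apply_apply, z1, hs, ht, cS_exS, star_ex, mul_assoc]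
    rw [smul_neg, ← mulVec_smul, ← mulVec_neg, cR_Rm, ex_adq (uni_cS _), mul_assoc, mul_assoc,
      (uni_cS _).star_mul, mul_one, cR_neg]
    rfl

omit [Fintype J] in
theorem fl_flip (θ : K → Ang) (a : J → ℝ) :
    ga src tgt (fun _ => zA) (fl π e (fun i => eA (θ i)) a) =
      fl π e (fun i => eA (θ i)) (rt e a) := by
  funext i
  have h1 : cS (eA (θ (π i))) * star (cS zA) = star (cS zA) * cS (eA (θ (π i))) := by
    rw [zA, ← cS_inv, ← eA_neg, ← cS_mul, ← cS_mul, eA_comm]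
  simp only [ga, fl, mul_assoc, h1]
  rw [← mul_assoc, ← mul_assoc, ← ex_adq (uni_cS _), ← cR_Rm]
  simp only [rt, Equiv.symm_apply_apply]

omit [Fintype J] in
theorem rt_add (a b : J → ℝ) : rt e (a + b) = rt e a + rt e b := by
  funext j; rw [Pi.add_apply, rt, rt, rt, ← Pi.add_apply, ← mulVec_add]; rfl

omit [Fintype J] in
theorem rt_smul (s : ℝ) (a : J → ℝ) : rt e (s • a) = s • rt e a := by
  funext j; rw [Pi.smul_apply, rt, rt, ← Pi.smul_apply, ← mulVec_smul]; rfl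

omit [Fintype J] in
theorem rt_sum (a : J → ℝ) : a + rt e a + rt e (rt e a) = (3 : ℝ) • nP e a := by
  funext j
  obtain ⟨⟨i, k⟩, rfl⟩ := e.surjective j
  simp only [rt, nP, Equiv.symm_apply_apply, Pi.add_apply, Pi.smul_apply, smul_eq_mul]
  split_ifs with h
  · rw [zA, Gp.Rm_zero _ _ h, Gp.Rm_zero _ _ h, Gp.Rm_zero _ _ h]; ring
  · rw [mul_zero]; exact Rm_zA (fun k => a (e (i, k))) h

omit [Fintype J] in
theorem nP_nP (a : J → ℝ) : nP e (nP e a) = nP e a := by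
  funext j; simp only [nP]; split_ifs <;> rfl

omit [Fintype J] in
theorem rt_nP (a : J → ℝ) : rt e (nP e a) = nP e a := by
  funext j
  obtain ⟨⟨i, k⟩, rfl⟩ := e.surjective j
  simp only [rt, zA, Rm_eA, nP, Equiv.symm_apply_apply, GD.q_tau, neg_eq_zero]
  split_ifs with h <;> simp [h]

theorem quad_split (hF : ∀ h U, F (ga src tgt h U) = F U) {θ : K → Ang}
    (hT : Tay (fun a => F (fl π e (fun i => eA (θ i)) a)) Q C ρ) (h0 : 0 < ρ) (a : J → ℝ) :
    a ⬝ᵥ Q *ᵥ a = nP e a ⬝ᵥ Q *ᵥ nP e a + (a - nP e a) ⬝ᵥ Q *ᵥ (a - nP e a) := by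
  have h1 : ∀ a, rt e a ⬝ᵥ Q *ᵥ rt e a = a ⬝ᵥ Q *ᵥ a := fun a =>
    hT.eq_quad h0 hT h0 (K := 0) one_pos fun s _ _ => ⟨_, by rw [sub_self]; simp, by
      congr 1
      rw [← hF (fun _ => zA) (fl π e _ (s • a)), fl_flip, rt_smul]⟩
  have h2 : ∀ c, nP e a ⬝ᵥ Q *ᵥ rt e c = nP e a ⬝ᵥ Q *ᵥ c := fun c => by
    have := h1 (nP e a + c)
    rw [rt_add, rt_nP, quad_add hT.1, quad_add hT.1, h1] at this
    linarith
  have h3 := congrArg (nP e a ⬝ᵥ Q *ᵥ ·) (rt_sum (e := e) (a - nP e a))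
  have h4 : nP e (a - nP e a) = 0 := by
    funext j; simp only [nP, Pi.sub_apply, Pi.zero_apply]; split_ifs <;> simp
  simp only [mulVec_add, dotProduct_add, h2, h4, smul_zero, mulVec_zero, dotProduct_zero] at h3
  have h5 := quad_add hT.1 (nP e a) (a - nP e a)
  rw [add_sub_cancel] at h5
  linarith

end gen

end Pool.Agent.Lib.MP_7f377f_mp.RG.Q4.Af
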