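import Pool.Agent.Lib.MP_7f377f_mp.G.Q4AfD

/-! Local Taylor coefficients at small backgrounds. -/

noncomputable section

set_option linter.unusedSectionVars false
variable [Pool.Agent.Lib.MP_7f377f_mp.GD]

namespace Pool.Agent.Lib.MP_7f377f_mp.RG.Q4.Af

open Finset Matrix Filter Metric Kit Kit.Dom
open scoped Topology

theorem two_of_cubic {x y : ℂ} {C s0 : ℝ} (h0 : 0 < s0)
    (h : ∀ s : ℝ, 0 < s → s ≤ s0 → ‖s * x + s ^ 2 * y‖ ≤ C * s ^ 3) : x = 0 ∧ y = 0 := by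
  have hx : x = 0 := by
    rw [← norm_le_zero_iff]
    refine le_of_forall_pos_le_add fun ε hε => ?_
    have hp : 0 < min (min s0 1) (ε / (|C| + ‖y‖ + 1)) := by positivity
    have h1 := h _ hp ((min_le_left _ _).trans (min_le_left _ _))
    have h2 := (le_div_iff₀ (by positivity)).1 (min_le_right (min s0 1) (ε / (|C| + ‖y‖ + 1)))
    have h3 := (min_le_left _ (ε / (|C| + ‖y‖ + 1))).trans (min_le_right s0 1)
    generalize min (min s0 1) (ε / (|C| + ‖y‖ + 1)) = s at *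
    have h4 := norm_sub_le (s * x + s ^ 2 * y) (s ^ 2 * y)
    rw [add_sub_cancel_right, norm_mul, norm_mul, norm_pow, Complex.norm_real,
      Real.norm_of_nonneg hp.le] at h4
    have h5 : C * s ^ 3 ≤ |C| * s ^ 2 :=
      mul_le_mul (le_abs_self C) (pow_le_pow_of_le_one hp.le h3 (by norm_num)) (by positivity)
        (abs_nonneg C)
    refine le_of_mul_le_mul_left (a := s) ?_ hp
    nlinarith [mul_le_mul_of_nonneg_left h2 hp.le]
  refine ⟨hx, norm_le_zero_iff.1 (le_of_cubic (C := C) h0 fun s h1 h2 => ?_)⟩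
  simpa [hx, abs_of_pos h1] using h s h1 h2

section lo
variable {I : Type} [DecidableEq I] {src tgt : I → St} {S : Finset I} {δ M : ℝ}
  {t : (I → Hc) → ℂ} {g : I → C3}

def pl (I : Type) : (I → C3) →ₗ[ℂ] (I → C3 × C3) where
  toFun A i := (A i, 0)
  map_add' _ _ := by funext i; simp
  map_smul' _ _ := by funext i; simp

theorem Lo.lh1 (h : Lo src tgt S δ M t) (h0 : 0 < δ / 20) (h1 : δ ≤ 1 / 10)
    (hg : ∀ i ∈ S, ‖g i‖ ≤ δ / 20) : (sD (F := C3) S h0).LH (ph t fun i => ex (g i)) ∧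
      ∀ A ∈ (sD (F := C3) S h0).D 1, ‖ph t (fun i => ex (g i)) A‖ ≤ M := by
  obtain ⟨a, b⟩ := h.lh2 (by linarith) h1
  have hj : ∀ v ∈ (sD (F := C3) S h0).D 1, (fun i => ((0 : C3), g i)) + pl I v ∈
      (sD (F := C3 × C3) S (by linarith : 0 < δ / 10)).D 1 := fun v hv i hi => by
    simp only [pl, Pi.add_apply, LinearMap.coe_mk, AddHom.coe_mk, Prod.mk_add_mk, Prod.norm_mk,
      zero_add, add_zero]
    exact max_le (by linarith [hv i hi]) (by linarith [hg i hi])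
  exact ⟨by simpa [pl] using LH_comp a (pl I) hj, fun A hA => by simpa [pl] using b _ (hj A hA)⟩

omit [DecidableEq I] in
theorem Lo.nonneg (h : Lo src tgt S δ M t) (h0 : 0 ≤ δ) : 0 ≤ M :=
  (norm_nonneg _).trans (h.bd 1 fun i _ => by simpa using h0)

/-- size of the second coefficient and dependence on the background -/
theorem Lo.q2_le (h : Lo src tgt S δ M t) (h1 : δ ≤ 1 / 10) {η a : ℝ} (η0 : 0 < η)
    (η1 : 100 * η ≤ δ) (hg : ∀ i ∈ S, ‖g i‖ ≤ η) {A : I → C3} (a0 : 0 ≤ a) (hA : ∀ i ∈ S, ‖A i‖ ≤ a) :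
    ‖q2 (ph t fun i => ex (g i)) 0 A - q2 (ph t 1) 0 A‖ ≤ 256000 * M * η / δ ^ 3 * a ^ 2 ∧
      ‖q2 (ph t fun i => ex (g i)) 0 A‖ ≤ 5000 * M / δ ^ 2 * a ^ 2 := by
  have δ0 : 0 < δ := by linarith
  have M0 := h.nonneg δ0.le
  have d0 : 0 < δ / 10 := by linarith
  obtain ⟨p, q⟩ := h.lh2 d0 h1
  have key : ∀ a', a < a' →
      ‖q2 (ph t fun i => ex (g i)) 0 A - q2 (ph t 1) 0 A‖ ≤ 256000 * M * η / δ ^ 3 * a' ^ 2 ∧
      ‖q2 (ph t 1) 0 A‖ ≤ 1600 * M / δ ^ 2 * a' ^ 2 := fun a' ha => by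
    have := q2_lip p q (θ := a' / (δ / 10)) (η := η / (δ / 10)) (B := 0)
      (δ := fun i => (0, g i)) (v := pl I A) (div_pos (by linarith) d0) (div_pos η0 d0)
      (by rw [div_lt_iff₀ d0]; linarith) (fun i _ => by simp; linarith)
      (mem_sD d0 fun i hi => by simpa using hg i hi)
      (mem_sD d0 fun i hi => by simpa [pl] using (hA i hi).trans ha.le)
    rw [(q2_congr (k' := ph t fun i => ex (g i)) (B := 0 + _) (B' := 0) (v' := A) fun s => by
        simp [pl]; rfl).1, (q2_congr (k := fun P : I → C3 × C3 => ph t (fun i => ex (P i).2)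
          fun i => (P i).1) (k' := ph t 1) (B := 0) (B' := 0) (v' := A) fun s => by
        simp [pl]; rfl).1] at this
    exact ⟨this.1.trans_eq (by field_simp; ring), this.2.trans_eq (by field_simp; ring)⟩
  have lim : ∀ {x K : ℝ}, (∀ a', a < a' → x ≤ K * a' ^ 2) → x ≤ K * a ^ 2 := fun {x K} H =>
    ge_of_tendsto (f := fun a' => K * a' ^ 2) (x := 𝓝[>] a)
      ((Continuous.tendsto (by fun_prop) a).mono_left nhdsWithin_le_nhds)
      (eventually_nhdsWithin_of_forall H)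
  have k1 := lim fun a' ha => (key a' ha).1
  have k2 := lim fun a' ha => (key a' ha).2
  refine ⟨k1, (norm_le_insert' _ (q2 (ph t 1) 0 A)).trans ?_⟩
  have : 256000 * M * η / δ ^ 3 ≤ 2560 * M / δ ^ 2 := by
    rw [div_le_div_iff₀ (by positivity) (by positivity)]
    nlinarith [mul_le_mul_of_nonneg_left η1 (by positivity : 0 ≤ M * δ ^ 2)]
  have := mul_le_mul_of_nonneg_right this (sq_nonneg a)
  have : 0 ≤ M / δ ^ 2 * a ^ 2 := by positivity
  simp only [mul_div_assoc] at *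
  linarith

theorem adq_neu {c : Fin GD.d → ℝ} (hc : ∀ k, GD.q k ≠ 0 → c k = 0) (θ : Ang) :
    adq (cS (eA θ)) (cR c) = cR c := funext fun k => by
  by_cases h : GD.q k = 0
  · exact adq_eA_neu θ _ h
  · simp [adq_eA, cR_apply, hc k h, hc (GD.tau k) (by simpa [GD.q_tau] using h)]

theorem ex_comm {c : Fin GD.d → ℝ} (hc : ∀ k, GD.q k ≠ 0 → c k = 0) (θ : Ang) :
    cS (eA θ) * ex (cR c) = ex (cR c) * cS (eA θ) := by
  conv_rhs => rw [← adq_neu hc θ, ex_adq (uni_cS _), mul_assoc, (uni_cS _).star_mul, mul_one]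

/-- fluctuations of an abelian background may be changed by a neutral gradient -/
theorem Lo.neutral (h : Lo src tgt S δ M t) (h0 : 0 < δ / 20) (h1 : δ ≤ 1 / 10)
    (hg : ∀ i ∈ S, ‖g i‖ ≤ δ / 20) {θ : I → Ang} (hθ : ∀ i ∈ S, ex (g i) = cS (eA (θ i)))
    (a : I → Fin GD.d → ℝ) (c : St → Fin GD.d → ℝ) (hc : ∀ x k, GD.q k ≠ 0 → c x k = 0) :
    dv (ph t fun i => ex (g i)) 0 (fun i => cR (a i)) = dv (ph t fun i => ex (g i)) 0
      (fun i => cR (a i + (c (src i) - c (tgt i)))) ∧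
    q2 (ph t fun i => ex (g i)) 0 (fun i => cR (a i)) = q2 (ph t fun i => ex (g i)) 0
      (fun i => cR (a i + (c (src i) - c (tgt i)))) := by
  obtain ⟨p, q⟩ := h.lh1 h0 h1 hg
  obtain ⟨ℓ, β, -, b2, b3, b4⟩ := LH_tay p q (sD_all S h0)
  have M0 := h.nonneg (by linarith)
  set k := ph t fun i => ex (g i)
  set ρ := δ / 20
  have ρ1 : ρ ≤ 1 / 200 := by simp only [ρ]; linarith
  have main : ∀ (a : I → Fin GD.d → ℝ) (c : St → Fin GD.d → ℝ), (∀ x k, GD.q k ≠ 0 → c x k = 0) →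
      ∀ u v m : I → C3, (u = fun i => cR (a i)) → (v = fun i => cR (a i + (c (src i) - c (tgt i)))) →
      (m = fun i => cm (cR (c (src i))) (cR (a i)) + cm (cR (c (src i))) (cR (-c (tgt i))) +
        cm (cR (a i)) (cR (-c (tgt i)))) → ℓ v - ℓ u = 0 ∧ β v v + ℓ m - β u u = 0 := by
    intro a c hc u v m hu hv hm
    obtain ⟨A, A0, hA⟩ : ∃ A : ℝ, 0 < A ∧ ∀ i ∈ S, ‖cR (c (src i))‖ ≤ A ∧ ‖cR (a i)‖ ≤ A ∧
        ‖cR (-c (tgt i))‖ ≤ A ∧ ‖v i‖ + ‖m i‖ ≤ A :=
      ⟨∑ i ∈ S, (‖cR (c (src i))‖ + ‖cR (a i)‖ + ‖cR (-c (tgt i))‖ + (‖v i‖ + ‖m i‖)) + 1,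
        by positivity, fun i hi => by
        have := single_le_sum (f := fun i => ‖cR (c (src i))‖ + ‖cR (a i)‖ + ‖cR (-c (tgt i))‖ +
          (‖v i‖ + ‖m i‖)) (fun _ _ => by positivity) hi
        refine ⟨?_, ?_, ?_, ?_⟩ <;> linarith [norm_nonneg (cR (c (src i))), norm_nonneg (cR (a i)),
          norm_nonneg (cR (-c (tgt i))), norm_nonneg (v i), norm_nonneg (m i)]⟩
    refine two_of_cubic (s0 := min 1 (ρ / (100 * A))) (C := 24 * M * (A / ρ) ^ 3 +
      1200 * M * A ^ 3 / ρ + (‖β v m‖ + ‖β m v‖ + ‖β m m‖)) (by positivity) fun s s0 s1 => ?_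
    have s2 := (le_div_iff₀ (by positivity)).1 (s1.trans (min_le_right _ _))
    have s3 := s1.trans (min_le_left _ _)
    have ns : ‖(s : ℂ)‖ = s := by rw [Complex.norm_real, Real.norm_of_nonneg s0.le]
    have nn : ∀ {x : Fin GD.d → ℝ}, ‖cR x‖ ≤ A → ‖cR (s • x)‖ ≤ s * A := fun h => by
      rw [cR_smul, norm_smul, ns]; gcongr
    choose! z z1 _ z2 using fun i hi => ex3 (nn (hA i hi).1) (nn (hA i hi).2.1) (nn (hA i hi).2.2.1)
      (by linarith)
    have r1 : s * A / ρ ≤ 1 / 2 := by rw [div_le_iff₀ h0]; linarith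
    have m1 : (s : ℂ) • u ∈ (sD (F := C3) S h0).D (s * A / ρ) := mem_sD h0 fun i hi => by
      rw [Pi.smul_apply, norm_smul, ns, hu]
      exact mul_le_mul_of_nonneg_left (hA i hi).2.1 s0.le
    have m2 : (s : ℂ) • (v + (s : ℂ) • m) ∈ (sD (F := C3) S h0).D (s * A / ρ) :=
      mem_sD h0 fun i hi => by
        rw [Pi.smul_apply, norm_smul, ns]
        refine mul_le_mul_of_nonneg_left ((norm_add_le _ _).trans ?_) s0.le
        rw [Pi.smul_apply, norm_smul, ns]
        linarith [(hA i hi).2.2.2, mul_le_of_le_one_left (norm_nonneg (m i)) s3]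
    have t1 := (b4 _ _ m1 (by positivity) (by linarith)).1
    have t2 := (b4 _ _ m2 (by positivity) (by linarith)).1
    have t3 := p.lip q ((sD S h0).mono r1 m2) (θ := 300 * (s * A) ^ 3 / ρ)
      (δ := (fun i => cR (z i)) - (s : ℂ) • (v + (s : ℂ) • m))
      (mem_sD h0 fun i hi => le_of_eq_of_le (congrArg _ (by
        simp only [hv, hm, Pi.sub_apply, Pi.smul_apply, Pi.add_apply, cR_smul, cm_smul,
          sub_eq_add_neg (c _), cR_add, smul_add, smul_smul]
        abel)) (z2 i hi)) (by positivity) (by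
        have : (s * A) ^ 2 ≤ 1 / 10 ^ 4 := by nlinarith [mul_pos s0 A0]
        rw [← lt_sub_iff_add_lt', div_lt_iff₀ h0]; nlinarith [mul_pos s0 A0])
    have e : k (fun i => cR (z i)) = k ((s : ℂ) • u) := by
      simp only [k, ph]
      rw [← h.gi (fun x => exS (s • c x)) fun i => ex (((s : ℂ) • u) i) * _]
      refine h.loc _ _ fun i hi => ?_
      rw [ga, hθ i hi, z1 i hi, cS_exS, cS_exS, star_ex, ← cR_neg, ← smul_neg, hu, Pi.smul_apply,
        ← cR_smul]
      simp only [mul_assoc, ex_comm (c := s • -c (tgt i)) fun k hk => by simp [hc _ k hk]]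
    rw [add_sub_cancel, e] at t3
    have t4 : ‖(s : ℂ) ^ 3 * (β v m + β m v + s * β m m)‖ ≤
        (‖β v m‖ + ‖β m v‖ + ‖β m m‖) * s ^ 3 := by
      rw [norm_mul, norm_pow, ns, mul_comm]
      refine mul_le_mul_of_nonneg_right (norm_add₃_le.trans ?_) (by positivity)
      rw [norm_mul, ns]
      linarith [mul_le_of_le_one_left (norm_nonneg (β m m)) s3]
    simp only [map_smul, map_add, LinearMap.smul_apply, LinearMap.add_apply, smul_eq_mul] at t1 t2
    refine le_of_eq_of_le (congrArg norm ?_) ((norm_sub_le_of_le (norm_sub_le_of_le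
      (norm_sub_le_of_le t1 t2) t3) t4).trans (le_of_eq ?_))
    · ring
    · field_simp; ring
  have z : ∀ i (x y : Fin GD.d → ℝ), (∀ k, GD.q k ≠ 0 → x k = 0) →
      ℓ (Pi.single i (cm (cR x) (cR y))) = 0 := fun i x y hx => by
    have := (main (Pi.single i y) (fun _ => x) (fun _ => hx) _ _ ((2 : ℂ) • Pi.single i
      (cm (cR x) (cR y))) rfl rfl (funext fun j => by
        have e := cm_smul 1 (-1)
        simp only [one_smul, neg_smul, one_mul] at e
        have e' := cm_anti (cR x) (cR x)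
        rw [eq_neg_iff_add_eq_zero, ← two_smul ℂ, smul_eq_zero_iff_right two_ne_zero] at e'
        rw [cR_neg, e, e, e', ← cm_anti, neg_zero, add_zero, ← two_smul ℂ, Pi.smul_apply]
        by_cases hj : j = i
        · simp [hj]
        · simp [hj, cm])).2
    simpa using this
  obtain ⟨a1, a2⟩ := main a c hc _ _ _ rfl rfl rfl
  have loc : ∀ m, ℓ m = ∑ i ∈ S, ℓ (Pi.single i (m i)) := fun m => by
    rw [← map_sum, b3, b3]
    refine (q2_congr fun s => ?_).2
    simp only [k, ph]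
    exact h.loc _ _ fun i hi => by
      simp only [Pi.add_apply, Pi.smul_apply, Finset.sum_apply, sum_pi_single, if_pos hi]
  rw [← b2, ← b2, ← b3, ← b3, ← sub_eq_zero.1 a1, ← sub_eq_zero.1 a2, add_eq_left, loc (fun _ => _ + _)]
  refine ⟨rfl, sum_eq_zero fun i _ => ?_⟩
  rw [Pi.single_add, Pi.single_add, map_add, map_add, z _ _ _ (hc _), z _ _ _ (hc _), cm_anti,
    Pi.single_neg, map_neg, z _ _ _ fun k hk => by simp [hc _ k hk]]
  simp

/-- Taylor expansion of a sum over a family of gauge equivalent backgrounds -/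
theorem Lo.tay_fam (h : Lo src tgt S δ M t) (h0 : 0 < δ / 20) (h1 : δ ≤ 1 / 10)
    (hg : ∀ i ∈ S, ‖g i‖ ≤ δ / 20) {X J : Type} [Fintype X] [Fintype J] [DecidableEq J]
    (V : X → I → S3) (u : X → St → S3)
    (hV : ∀ x, ∀ i ∈ S, ga src tgt (u x) (fun i => cS (V x i)) i = ex (g i)) (j : X → I → Fin GD.d → J) :
    ∃ (ℓ : (J → ℝ) →ₗ[ℝ] ℝ) (Q : Matrix J J ℝ),
      Tay (fun a => ∑ x, (t fun i => ex (cR fun k => a (j x i k)) * cS (V x i)).re - ℓ a) Q
        (Fintype.card X * (12 * M / (δ / (20 * GD.cG)) ^ 3)) (δ / (20 * GD.cG)) ∧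
      (∀ a, ℓ a = ∑ x, (dv (ph t fun i => ex (g i)) 0
        fun i => adq (cS (u x (src i))) (cR fun k => a (j x i k))).re) ∧
      ∀ a, a ⬝ᵥ Q *ᵥ a = ∑ x, (q2 (ph t fun i => ex (g i)) 0
        fun i => adq (cS (u x (src i))) (cR fun k => a (j x i k))).re := by
  obtain ⟨p, q⟩ := h.lh1 h0 h1 hg
  have c1 := GD.cG1
  have δ0 : 0 < δ := by linarith
  let jj : X → (J → ℝ) →ₗ[ℝ] (I → C3) := fun x =>
    { toFun := fun a i => adq (cS (u x (src i))) (cR fun k => a (j x i k))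
      map_add' := fun a b => by funext i; rw [Pi.add_apply, ← adq_add, ← cR_add]; rfl
      map_smul' := fun c a => by
        funext i
        rw [RingHom.id_apply, Pi.smul_apply, ← Complex.coe_smul, ← adq_smul, ← cR_smul]; rfl }
  obtain ⟨ℓ, Q, a1, a2, a3⟩ := tay_sum (fun _ : X => ph t fun i => ex (g i)) (fun _ => p) (fun _ => q)
    (sD_all S h0) jj (by positivity : 0 < δ / (20 * GD.cG)) fun x a i _ => by
      refine (norm_adq_eq _ _).trans_le ((norm_cR _).trans ?_)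
      have : ‖fun k => a (j x i k)‖ ≤ ‖a‖ :=
        (pi_norm_le_iff_of_nonneg (norm_nonneg _)).2 fun _ => norm_le_pi_norm a _
      field_simp
      linarith
  refine ⟨ℓ, Q, a1.congr fun a _ => ?_, a2, a3⟩
  congr 1
  refine sum_congr rfl fun x _ => congrArg _ ?_
  refine ((ph_ga h (u x) (fun i => cS (V x i)) _).symm).trans (h.loc _ _ fun i hi => ?_)
  rw [hV x i hi]; rfl

end lo

end Pool.Agent.Lib.MP_7f377f_mp.RG.Q4.Af
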