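import Pool.Agent.Lib.MP_7f377f_mp.G.Q4AfA

/-! Gauge fixing around abelian backgrounds with control by the covariant curl. -/

noncomputable section

set_option linter.unusedSectionVars false
variable [Pool.Agent.Lib.MP_7f377f_mp.GD]

namespace Pool.Agent.Lib.MP_7f377f_mp.RG.Q4

open Finset Matrix

namespace Gp

section abstract
variable {G : Type} [AddCommGroup G] [Fintype G]

theorem sum_sh {M : Type} [AddCommMonoid M] (f : G → M) (a : G) : ∑ x, f (x + a) = ∑ x, f x :=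
  Equiv.sum_comp (Equiv.addRight a) f

omit [Fintype G] in
theorem tele (e : G) (φ f : G → ℂ) (x : G) (k : ℕ) :
    f x - (∏ s ∈ range k, φ (x + s • e)) * f (x + k • e) = ∑ j ∈ range k,
      (∏ s ∈ range j, φ (x + s • e)) * (f (x + j • e) - φ (x + j • e) * f (x + j • e + e)) := by
  induction k with
  | zero => simp
  | succ k ih =>
    rw [sum_range_succ, ← ih, prod_range_succ, succ_nsmul, ← add_assoc]
    ring

/-- a twisted difference operator with holonomy of order three -/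
theorem twist_le {e : G} {n : ℕ} {φ : G → ℂ} (h1 : ∀ x, ‖φ x‖ = 1) (hn : n • e = 0) {w : ℂ}
    (hw : ‖1 - w‖ ^ 2 = 3) (hφ : ∀ x, ∏ s ∈ range n, φ (x + s • e) = w) (f : G → ℂ) :
    3 * ∑ x, ‖f x‖ ^ 2 ≤ (n : ℝ) ^ 2 * ∑ x, ‖f x - φ x * f (x + e)‖ ^ 2 := by
  have a : ∀ x, 3 * ‖f x‖ ^ 2 ≤
      n * ∑ j ∈ range n, ‖f (x + j • e) - φ (x + j • e) * f (x + j • e + e)‖ ^ 2 := fun x => by
    have b := tele e φ f x n
    rw [hφ, hn, add_zero, ← one_sub_mul] at b
    have c := congrArg norm b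
    rw [norm_mul] at c
    have d := c.le.trans (norm_sum_le _ _)
    simp only [norm_mul, norm_prod, h1, prod_const_one, one_mul] at d
    have := sq_sum_le_card_mul_sum_sq (s := range n)
      (f := fun j => ‖f (x + j • e) - φ (x + j • e) * f (x + j • e + e)‖)
    rw [card_range] at this
    rw [← hw, ← mul_pow]
    exact (pow_le_pow_left₀ (by positivity) d 2).trans this
  rw [mul_sum]
  refine (sum_le_sum fun x _ => a x).trans (le_of_eq ?_)
  rw [← mul_sum, sum_comm]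
  simp only [sum_sh (fun x => ‖f x - φ x * f (x + e)‖ ^ 2), sum_const, card_range, nsmul_eq_mul]
  ring

theorem twist_inj {e : G} {n : ℕ} {φ : G → ℂ} (h1 : ∀ x, ‖φ x‖ = 1) (hn : n • e = 0) {w : ℂ}
    (hw : ‖1 - w‖ ^ 2 = 3) (hφ : ∀ x, ∏ s ∈ range n, φ (x + s • e) = w) (f : G → ℂ)
    (hf : ∀ x, f x - φ x * f (x + e) = 0) (x : G) : f x = 0 := by
  have a := twist_le h1 hn hw hφ f
  simp only [hf, norm_zero, ne_eq, OfNat.ofNat_ne_zero, not_false_eq_true, zero_pow,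
    sum_const_zero, mul_zero] at a
  have b := single_le_sum (f := fun x => ‖f x‖ ^ 2) (fun x _ => sq_nonneg _) (mem_univ x)
  exact norm_eq_zero.1 (by nlinarith [norm_nonneg (f x)])

theorem twist_surj {e : G} {n : ℕ} {φ : G → ℂ} (h1 : ∀ x, ‖φ x‖ = 1) (hn : n • e = 0) {w : ℂ}
    (hw : ‖1 - w‖ ^ 2 = 3) (hφ : ∀ x, ∏ s ∈ range n, φ (x + s • e) = w) (a : G → ℂ) :
    ∃ f : G → ℂ, ∀ x, f x - φ x * f (x + e) = a x := by
  let L : (G → ℂ) →ₗ[ℂ] (G → ℂ) :=
    { toFun := fun f x => f x - φ x * f (x + e)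
      map_add' := fun f g => by funext x; simp only [Pi.add_apply]; ring
      map_smul' := fun c f => by
        funext x; simp only [Pi.smul_apply, smul_eq_mul, RingHom.id_apply]; ring }
  obtain ⟨f, hf⟩ := LinearMap.injective_iff_surjective.1 ((injective_iff_map_eq_zero L).2
    fun f hf => funext (twist_inj h1 hn hw hφ f (congrFun hf))) a
  exact ⟨f, congrFun hf⟩

omit [Fintype G] in
theorem walk (e : Fin 4 → G) (f : G → ℝ) {M : ℝ} (h : ∀ x μ, |f (x + e μ) - f x| ≤ M)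
    (k : Fin 4 → ℕ) (s : Finset (Fin 4)) :
    |f (∑ μ ∈ s, k μ • e μ) - f 0| ≤ (∑ μ ∈ s, k μ : ℕ) * M := by
  have a : ∀ x μ (j : ℕ), |f (j • e μ + x) - f x| ≤ j * M := fun x μ j => by
    induction j with
    | zero => simp
    | succ j ih =>
      have := h (j • e μ + x) μ
      rw [succ_nsmul, add_right_comm]
      push_cast
      exact (abs_sub_le _ _ _).trans (by linarith)
  induction s using Finset.induction_on with
  | empty => simp
  | insert μ s hμ ih =>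
    rw [sum_insert hμ, sum_insert hμ]
    push_cast at ih ⊢
    exact (abs_sub_le _ _ _).trans (by linarith [a (∑ μ ∈ s, k μ • e μ) μ (k μ)])

/-- Landau gauge for a neutral field -/
theorem landau (e : Fin 4 → G) (a : G → Fin 4 → ℝ) : ∃ (g : G → ℝ) (s : Fin 4 → ℝ), g 0 = 0 ∧
    ∀ (h : G → ℝ) (t : Fin 4 → ℝ),
      ∑ x, ∑ μ, (h x - h (x + e μ) + t μ) * (a x μ - (g x - g (x + e μ) + s μ)) = 0 := by
  let L : ((G → ℝ) × (Fin 4 → ℝ)) →ₗ[ℝ] EuclideanSpace ℝ (G × Fin 4) :=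
    { toFun := fun v => WithLp.toLp 2 fun p => v.1 p.1 - v.1 (p.1 + e p.2) + v.2 p.2
      map_add' := fun v w => by ext p; simp; ring
      map_smul' := fun c v => by ext p; simp; ring }
  obtain ⟨_, ⟨v, rfl⟩, z, hz, hh⟩ := (LinearMap.range L).exists_add_mem_mem_orthogonal
    (WithLp.toLp 2 fun p => a p.1 p.2)
  refine ⟨fun x => v.1 x - v.1 0, v.2, sub_self _, fun h t => ?_⟩
  have := hz (L (h, t)) ⟨_, rfl⟩
  rw [PiLp.inner_apply, Fintype.sum_prod_type] at this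
  rw [← this]
  refine sum_congr rfl fun x _ => sum_congr rfl fun μ _ => ?_
  have e1 := congrArg (fun w : EuclideanSpace ℝ (G × Fin 4) => w (x, μ)) hh
  simp [L] at e1 ⊢
  rw [e1]
  ring

theorem neutral_le (e : Fin 4 → G) {D : ℝ}
    (hD : ∀ (f : G → ℝ) (M : ℝ), (∀ x μ, |f (x + e μ) - f x| ≤ M) → ∀ x, |f x - f 0| ≤ D * M)
    (b : G → Fin 4 → ℝ)
    (hb : ∀ (h : G → ℝ) (t : Fin 4 → ℝ), ∑ x, ∑ μ, (h x - h (x + e μ) + t μ) * b x μ = 0) :
    ∑ x, ∑ μ, b x μ ^ 2 ≤ 8 * D ^ 2 * Fintype.card G *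
      ∑ x, ∑ μ, ∑ ν, (b x μ + b (x + e μ) ν - b (x + e ν) μ - b x ν) ^ 2 := by
  set E := ∑ x, ∑ μ, ∑ ν, (b (x + e μ) ν - b x ν) ^ 2 with hE
  have c : ∀ ν, ∑ x, ∑ μ, (b (x + e μ) ν - b x ν) * (b (x + e ν) μ - b x μ) = 0 := fun ν => by
    have h1 := hb (fun x => b x ν - b (x - e ν) ν) 0
    have h2 := sum_sh (fun x => ∑ μ, (b (x + e μ - e ν) ν - b (x - e ν) ν) * b x μ) (e ν)
    simp only [add_sub_cancel_right, add_right_comm _ (e ν)] at h2
    simp only [mul_sub, sum_sub_distrib]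
    rw [h2, ← h1, ← sum_sub_distrib]
    refine sum_congr rfl fun x _ => ?_
    rw [← sum_sub_distrib]
    exact sum_congr rfl fun μ _ => by simp only [Pi.zero_apply]; ring
  have w : ∑ x, ∑ μ, ∑ ν, (b x μ + b (x + e μ) ν - b (x + e ν) μ - b x ν) ^ 2 = 2 * E := by
    have c' : ∑ x, ∑ μ, ∑ ν, (b (x + e μ) ν - b x ν) * (b (x + e ν) μ - b x μ) = 0 := by
      rw [sum_congr rfl fun x _ => sum_comm, sum_comm]
      simp only [c, sum_const_zero]
    have E' : E = ∑ x, ∑ μ, ∑ ν, (b (x + e ν) μ - b x μ) ^ 2 := sum_congr rfl fun x _ => sum_comm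
    rw [two_mul, ← sub_zero (E + E), ← mul_zero 2, ← c']
    nth_rewrite 1 [E']
    simp only [hE, mul_sum, ← sum_add_distrib, ← sum_sub_distrib]
    exact sum_congr rfl fun x _ => sum_congr rfl fun μ _ => sum_congr rfl fun ν _ => by ring
  have E0 : 0 ≤ E := by positivity
  have p : ∀ ν x, |b x ν - b 0 ν| ≤ D * √E := fun ν => hD (fun x => b x ν) _ fun x μ => by
    refine Real.abs_le_sqrt (le_trans ?_ (single_le_sum (f := fun x => ∑ μ, ∑ ν,
      (b (x + e μ) ν - b x ν) ^ 2) (fun _ _ => by positivity) (mem_univ x)))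
    refine le_trans ?_ (single_le_sum (f := fun μ => ∑ ν, (b (x + e μ) ν - b x ν) ^ 2)
      (fun _ _ => by positivity) (mem_univ μ))
    exact single_le_sum (f := fun ν => (b (x + e μ) ν - b x ν) ^ 2) (fun _ _ => by positivity)
      (mem_univ ν)
  have q : ∀ x ν, |b x ν| ≤ 2 * (D * √E) := fun x ν => by
    have h1 := hb 0 (Pi.single ν 1)
    simp only [Pi.zero_apply, sub_self, zero_add, Pi.single_apply, ite_mul, one_mul, zero_mul,
      sum_ite_eq', mem_univ, if_true] at h1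
    have h2 : (Fintype.card G : ℝ) * b x ν = ∑ y, (b x ν - b y ν) := by
      simp [sum_sub_distrib, h1]
    have h3 : |∑ y, (b x ν - b y ν)| ≤ Fintype.card G * (2 * (D * √E)) := by
      refine (abs_sum_le_sum_abs _ _).trans ((sum_le_card_nsmul _ _ (2 * (D * √E))
        fun y _ => ?_).trans (by simp))
      have := p ν y
      rw [abs_sub_comm] at this
      exact (abs_sub_le _ (b 0 ν) _).trans (by linarith [p ν x])
    rw [← h2, abs_mul, Nat.abs_cast] at h3
    exact le_of_mul_le_mul_left h3 (Nat.cast_pos.2 Fintype.card_pos)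
  rw [w]
  refine (sum_le_card_nsmul _ _ _ fun x _ => sum_le_card_nsmul _ _ (4 * D ^ 2 * E)
    fun μ _ => ?_).trans (le_of_eq (by simp; ring))
  have := pow_le_pow_left₀ (abs_nonneg _) (q x μ) 2
  rw [sq_abs, mul_pow, mul_pow, Real.sq_sqrt E0] at this
  linarith

end abstract

variable {N : Fin 4 → ℕ} [∀ i, NeZero (N i)]

theorem cs_lf (x : TS N) : cs N (lf x) = x := funext fun i => by simp [cs, lf]

omit [∀ i, NeZero (N i)] in
theorem cs_add_un (y : St) (s : ℕ) (μ : Fin 4) :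
    cs N (y + (s : ℤ) • un μ) = cs N y + s • Pi.single μ 1 := by
  funext i
  by_cases e : i = μ
  · subst e
    simp [cs, un]
  · simp [cs, un, e]

omit [∀ i, NeZero (N i)] in
theorem st_const {α : Type} (f : St → α) (h : ∀ y μ, f (y + un μ) = f y) (y : St) : f y = f 0 := by
  have a : ∀ (y : St) μ (k : ℤ), f (k • un μ + y) = f y := fun y μ k => by
    induction k using Int.induction_on with
    | zero => simp
    | succ k ih => rw [add_smul, one_smul, add_right_comm, h, ih]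
    | pred k ih => rw [← h _ μ, sub_smul, one_smul, add_right_comm, sub_add_cancel, ih]
  have b : y = y 0 • un 0 + (y 1 • un 1 + (y 2 • un 2 + (y 3 • un 3 + 0))) := by
    funext i
    fin_cases i <;> simp [un]
  rw [b, a, a, a, a]

theorem pv_lf {α : Type} {θ : Lk → α} (h : PV N θ) (y : St) (μ : Fin 4) :
    θ (lf (cs N y), μ) = θ (y, μ) := by
  have := st_const (fun k : St => θ (lf (cs N y) + fun i => N i * k i, μ)) (fun k ν => by
    rw [← congrFun (h ν) (lf (cs N y) + fun i => N i * k i, μ), sh]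
    congr 2
    funext i
    by_cases e : i = ν
    · subst e
      simp [un]
      ring
    · simp [un, e]) fun i => y i / N i
  refine Eq.trans ?_ (this.symm.trans ?_)
  · congr 2
  · congr 2
    funext i
    simp only [lf, cs, Pi.add_apply, ZMod.val_intCast]
    exact Int.emod_add_mul_ediv _ _

theorem hol_ph {F : ℝ} {θ : Lk → Ang} (h : Bg N F θ) (n : ℤ) (x : TS N) :
    ∏ s ∈ range (N 3), ph n (θ (lf (x + s • Pi.single 3 1), 3)) = ph n twA := by
  have a := st_const (fun y => ∑ s ∈ range (N 3), θ (y + (s : ℤ) • un 3, 3)) (fun y μ => by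
    have b : ∀ s : ℕ, θ (y + un μ + (s : ℤ) • un 3, 3) - θ (y + (s : ℤ) • un 3, 3) =
        θ (y + ((s + 1 : ℕ) : ℤ) • un 3, μ) - θ (y + (s : ℤ) • un 3, μ) := fun s => by
      have := h.curv (y + (s : ℤ) • un 3) μ 3
      rw [dd, show kF F μ 3 = 0 by simp [kF], Ang.coe_zero] at this
      rw [add_right_comm y, Nat.cast_succ, add_smul, one_smul, ← add_assoc, ← sub_eq_zero, ← this]
      abel
    rw [← sub_eq_zero, ← sum_sub_distrib, sum_congr rfl fun s _ => b s,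
      sum_range_sub fun s : ℕ => θ (y + (s : ℤ) • un 3, μ)]
    simpa [sh, sub_eq_zero] using congrFun (h.per 3) (y, μ)) (lf x)
  simp only [zero_add, h.hol3] at a
  rw [ph_sum, sum_congr rfl fun s _ => by
    rw [← cs_lf x, ← cs_add_un, pv_lf h.per], a]

omit [∀ i, NeZero (N i)] in
theorem sm_single (μ : Fin 4) : N μ • (Pi.single μ 1 : TS N) = 0 := by
  rw [← Pi.single_smul]
  simp

theorem tw_le {F : ℝ} {θ : Lk → Ang} (h : Bg N F θ) (k : Chg) (f : TS N → ℂ) :
    3 * ∑ x, ‖f x‖ ^ 2 ≤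
      (N 3 : ℝ) ^ 2 * ∑ x, ‖f x - ph (GD.q k) (θ (lf x, 3)) * f (x + Pi.single 3 1)‖ ^ 2 :=
  twist_le (G := TS N) (e := Pi.single 3 1) (φ := fun x => ph (GD.q k) (θ (lf x, 3)))
    (fun _ => norm_ph _ _) (sm_single 3) (ph_tw k.2.ne').2 (hol_ph h _) f

theorem tw_inj {F : ℝ} {θ : Lk → Ang} (h : Bg N F θ) (k : Chg) (f : TS N → ℂ)
    (hf : ∀ x, f x - ph (GD.q k) (θ (lf x, 3)) * f (x + Pi.single 3 1) = 0) (x : TS N) : f x = 0 :=
  twist_inj (G := TS N) (e := Pi.single 3 1) (φ := fun x => ph (GD.q k) (θ (lf x, 3)))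
    (fun _ => norm_ph _ _) (sm_single 3) (ph_tw k.2.ne').2 (hol_ph h _) f hf x

theorem tw_surj {F : ℝ} {θ : Lk → Ang} (h : Bg N F θ) (k : Chg) (a : TS N → ℂ) :
    ∃ f : TS N → ℂ, ∀ x, f x - ph (GD.q k) (θ (lf x, 3)) * f (x + Pi.single 3 1) = a x :=
  twist_surj (G := TS N) (e := Pi.single 3 1) (φ := fun x => ph (GD.q k) (θ (lf x, 3)))
    (fun _ => norm_ph _ _) (sm_single 3) (ph_tw k.2.ne').2 (hol_ph h _) a

theorem conn {n : ℕ} (hn : ∀ μ, N μ ≤ n) (f : TS N → ℝ) (M : ℝ)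
    (h : ∀ x μ, |f (x + Pi.single μ 1) - f x| ≤ M) (x : TS N) : |f x - f 0| ≤ 4 * n * M := by
  have a := walk (fun μ => (Pi.single μ 1 : TS N)) f h (fun μ => (x μ).val) univ
  have b : ∑ μ, (x μ).val • (Pi.single μ 1 : TS N) = x := by
    simp only [← Pi.single_smul, nsmul_eq_mul, mul_one, ZMod.natCast_zmod_val, univ_sum_single]
  rw [b] at a
  refine a.trans (mul_le_mul_of_nonneg_right ?_ ((abs_nonneg _).trans (h 0 0)))
  have := sum_le_card_nsmul univ _ n fun μ _ => (ZMod.val_lt (x μ)).le.trans (hn μ)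
  simp only [card_univ, Fintype.card_fin, smul_eq_mul] at this
  exact_mod_cast this

omit [∀ i, NeZero (N i)] in
theorem DL_zero (θ : Lk → Ang) (v : IG N → ℝ) (x : TS N) (μ : Fin 4) (k : Neu) :
    DL N (ab θ) v ((x, μ), k) = gl v x k - gl v (x + Pi.single μ 1) k + v (.inr (μ, k)) := by
  simp [DL, ab, Rm_zero _ _ k.2, sv, k.2]

omit [∀ i, NeZero (N i)] in
theorem DL_cx (θ : Lk → Ang) (v : IG N → ℝ) (x : TS N) (μ : Fin 4) (k : Chg) :
    cz k (fun k => DL N (ab θ) v ((x, μ), k)) =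
      cz k (gl v x) - ph (GD.q k) (θ (lf x, μ)) * cz k (gl v (x + Pi.single μ 1)) := by
  rw [← Rm_cx]
  simp [DL, ab, cz, Complex.ext_iff, sv, GD.q_tau, k.2.ne']

end Gp

open Gp

theorem DL_inj {N : Fin 4 → ℕ} [∀ i, NeZero (N i)] {F : ℝ} {θ : Lk → Ang} (h : Bg N F θ)
    (v : IG N → ℝ) (hv : DL N (ab θ) v = 0) : v = 0 := by
  have a := fun k => tw_inj h k (fun x => cz k (gl v x)) fun x => by rw [← DL_cx, hv]; rfl
  have b : ∀ μ k, v (.inr (μ, k)) = 0 := fun μ k => by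
    have : ∑ x : TS N, DL N (ab θ) v ((x, μ), k) = 0 := by simp [hv]
    simpa [DL_zero, sum_add_distrib, sum_sh fun x => gl v x k, prod_eq_zero_iff, NeZero.ne]
      using this
  have c := fun k : Neu => conn (n := ∑ μ, N μ)
    (fun μ => single_le_sum (fun _ _ => Nat.zero_le _) (mem_univ μ))
    (fun x => gl v x k) 0 fun x μ => by
      have := DL_zero θ v x μ k
      rw [hv, b, add_zero, Pi.zero_apply, eq_comm, sub_eq_zero] at this
      simp [this]
  funext p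
  rcases p with ⟨⟨x, k⟩, hp⟩ | μ
  · have e : gl v x k = v (.inl ⟨(x, k), hp⟩) := dif_pos hp
    rw [← e]
    exact congrFun (vec_ext (w := 0) (fun k => by simpa [gl, k.2] using c k x) fun k => a k x) k
  · exact b μ.1 μ.2

/-- GAP : gauge fixing with control by the covariant curl, and injectivity of `Dm` -/
theorem gap_main : ∃ C ≤ (11 : ℕ), ∀ (n1 n2 : ℕ) [NeZero n1] [NeZero n2], n2 ≤ n1 → 3 ≤ n2 →
    ∀ (F : ℝ) (θ : Lk → Ang), C * |F| * (n2 : ℝ) ^ 2 ≤ 1 → Bg (NN n1 n2) F θ →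
    (∀ v, DL (NN n1 n2) (ab θ) v = 0 → v = 0) ∧ ∀ a : IL (NN n1 n2) → ℝ, ∃ v,
      (∑ i with GD.q i.2 ≠ 0, (a - DL (NN n1 n2) (ab θ) v) i ^ 2 ≤ C * (n2 : ℝ) ^ 2 *
        ∑ x, ∑ μ, ∑ ν, ∑ k with GD.q k ≠ 0,
          crl (ab θ) (a - DL (NN n1 n2) (ab θ) v) x μ ν k ^ 2) ∧
      ∑ i with GD.q i.2 = 0, (a - DL (NN n1 n2) (ab θ) v) i ^ 2 ≤ (n1 : ℝ) ^ C *
        ∑ x, ∑ μ, ∑ ν, ∑ k with GD.q k = 0,
          crl (ab θ) (a - DL (NN n1 n2) (ab θ) v) x μ ν k ^ 2 := by
  refine ⟨11, le_rfl, fun n1 n2 _ _ h21 h3 F θ _ h => ⟨DL_inj h, fun a => ?_⟩⟩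
  choose f hf using fun k => tw_surj h k fun x => cz k fun k => a ((x, 3), k)
  choose g s g0 hg using fun k : Neu => landau (fun μ => (Pi.single μ 1 : TS (NN n1 n2)))
    fun x μ => a ((x, μ), k)
  choose u u1 u2 using fun x => exists_vec (fun k => g k x) fun k => f k x
  set v : IG (NN n1 n2) → ℝ := Sum.elim (fun p => u p.1.1 p.1.2) fun p => s p.2 p.1 with hv
  have e : ∀ x, gl v x = u x := fun x => by
    funext k
    unfold gl
    split_ifs with hh
    · exact ((u1 x ⟨k, hh.2⟩).trans ((congrArg _ hh.1).trans (g0 _))).symm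
    · rfl
  refine ⟨v, ?_, ?_⟩
  · set b := a - DL (NN n1 n2) (ab θ) v with hb
    have b3 : ∀ (k : Chg) x, cz k (fun k => b ((x, 3), k)) = 0 := fun k x => by
      have := DL_cx θ v x 3 k
      rw [e, e, u2, u2] at this
      exact sub_eq_zero.2 ((this.trans (hf k x)).symm)
    have l : ∑ i with GD.q i.2 ≠ 0, b i ^ 2 =
        ∑ μ, ∑ x, ∑ k : Chg, ‖cz k fun k => b ((x, μ), k)‖ ^ 2 := by
      simp only [← norm_cx, sum_filter, Fintype.sum_prod_type]
      exact sum_comm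
    have r : ∀ μ, 3 * ∑ x, ∑ k : Chg, ‖cz k fun k => b ((x, μ), k)‖ ^ 2 ≤
        (n2 : ℝ) ^ 2 * ∑ x, ∑ ν, ∑ k with GD.q k ≠ 0, crl (ab θ) b x μ ν k ^ 2 := fun μ => by
      rw [sum_comm, mul_sum]
      refine (sum_le_sum fun k _ => tw_le h k _).trans ?_
      rw [← mul_sum, sum_comm]
      refine mul_le_mul_of_nonneg_left (sum_le_sum fun x _ => le_trans (le_of_eq ?_)
          (single_le_sum (f := fun ν => ∑ k with GD.q k ≠ 0, crl (ab θ) b x μ ν k ^ 2)
            (fun _ _ => by positivity) (mem_univ 3))) (by positivity)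
      simp only [norm_cx, crl, cz_add, cz_sub, ab, Rm_cx, b3, mul_zero, add_zero, sub_zero]
    have t := sum_le_sum fun μ (_ : μ ∈ univ) => r μ
    rw [← mul_sum, ← mul_sum, ← l, sum_comm] at t
    have : 0 ≤ ∑ i with GD.q i.2 ≠ 0, b i ^ 2 := by positivity
    push_cast
    nlinarith
  · set b := a - DL (NN n1 n2) (ab θ) v with hb
    have hn : ∀ μ, NN n1 n2 μ ≤ n1 := fun μ => by fin_cases μ <;> simp [NN, h21]
    have t := sum_le_sum fun (k : Neu) (_ : k ∈ univ) => neutral_le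
      (fun μ => (Pi.single μ 1 : TS (NN n1 n2))) (conn hn) (fun x μ => b ((x, μ), k))
      fun h t => by
        simp only [hb, Pi.sub_apply, DL_zero, e, u1]
        exact hg k h t
    have l : ∑ i with GD.q i.2 = 0, b i ^ 2 = ∑ k : Neu, ∑ x, ∑ μ, b ((x, μ), k) ^ 2 := by
      simp only [sum_comm (γ := Neu), sum_filter, Fintype.sum_prod_type]
      simp only [← sum_filter, sum_neu]
    rw [l]
    simp only [sum_neu, crl, ab, Pi.add_apply, Pi.sub_apply, fun θ u (k : Neu) => Rm_zero θ u k.2]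
    simp only [← mul_sum, sum_comm (γ := Neu)] at t ⊢
    refine t.trans (mul_le_mul_of_nonneg_right ?_ (by positivity))
    have c : (Fintype.card (TS (NN n1 n2)) : ℝ) ≤ n1 ^ 4 := by
      rw [Fintype.card_pi, prod_congr rfl fun i _ => ZMod.card (NN n1 n2 i)]
      exact_mod_cast prod_le_pow_card univ (NN n1 n2) n1 fun μ _ => hn μ
    have d : (3 : ℝ) ≤ n1 := by exact_mod_cast h3.trans h21
    calc _ ≤ 8 * (4 * (n1 : ℝ)) ^ 2 * n1 ^ 4 := by gcongr
      _ = 128 * (n1 : ℝ) ^ 6 := by ring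
      _ ≤ n1 ^ 5 * (n1 : ℝ) ^ 6 := by
        gcongr
        exact le_trans (by norm_num) (pow_le_pow_left₀ (by norm_num) d 5)
      _ = _ := by ring

end Pool.Agent.Lib.MP_7f377f_mp.RG.Q4
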