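import Pool.Agent.Lib.MP_7f377f_mp.G.Q4AfF
import Pool.Agent.Lib.MP_7f377f_mp.G.Q4Gap
import Pool.Agent.Lib.MP_7f377f_mp.Q4Det2
import Pool.Agent.Lib.MP_7f377f_mp.G.Q4Tree

/-! Bounds for Hessians at backgrounds of constant flux. -/

noncomputable section

set_option linter.unusedSectionVars false
variable [Pool.Agent.Lib.MP_7f377f_mp.GD]

namespace Pool.Agent.Lib.MP_7f377f_mp.RG.Q4.Af

open Finset Matrix Kit Kit.Dom

variable {N : Fin 4 → ℕ} [∀ i, NeZero (N i)] {F δ M C ρ : ℝ} {R : ℕ} {t : Cf → ℂ}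
  {θ : Lk → Ang} {Q : Matrix (IL N) (IL N) ℝ}

/-- size of the charged part and of the curl of the neutral part -/
def NQ (U : Conf) (a : IL N → ℝ) : ℝ :=
  ∑ i with GD.q i.2 ≠ 0, a i ^ 2 + ∑ x, ∑ μ, ∑ ν, ∑ k with GD.q k = 0, crl U a x μ ν k ^ 2

/-- size of the curl -/
def CQ (U : Conf) (a : IL N → ℝ) : ℝ := ∑ x, ∑ μ, ∑ ν, ∑ k, crl U a x μ ν k ^ 2

theorem NQ_nonneg (U : Conf) (a : IL N → ℝ) : 0 ≤ NQ U a := by unfold NQ; positivity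

theorem CQ_nonneg (U : Conf) (a : IL N → ℝ) : 0 ≤ CQ U a := by unfold CQ; positivity

theorem sum_loc (R : ℕ) (g : TS N → ℝ) :
    ∑ x : TS N, ∑ y ∈ box R, g (cs N (y + lf x)) = (2 * R + 1) ^ 4 * ∑ x, g x := by
  rw [sum_comm, sum_congr rfl fun y _ => (sum_congr rfl fun x _ => by rw [add_comm]).trans
    (sum_shift (g := fun y => g (cs N y)) (fun x y h => by rw [h]) y)]
  simp [card_box, cs_lf]

omit [∀ i, NeZero (N i)] in
theorem crl_zero (a : IL N → ℝ) (x : TS N) (μ ν : Fin 4) {k : Fin GD.d} (h : GD.q k = 0) :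
    crl (ab θ) a x μ ν k =
    a ((x, μ), k) + a ((x + Pi.single μ 1, ν), k) - a ((x + Pi.single ν 1, μ), k) - a ((x, ν), k) := by
  simp only [crl, ab, Pi.add_apply, Pi.sub_apply, Gp.Rm_zero _ _ h]

omit [∀ i, NeZero (N i)] in
theorem crl_nP (a : IL N → ℝ) (x : TS N) (μ ν : Fin 4) (k : Fin GD.d) :
    crl (ab θ) (nP (Equiv.refl _) a) x μ ν k = if GD.q k = 0 then crl (ab θ) a x μ ν k else 0 := by
  split_ifs with h
  · simp [crl_zero, nP, h]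
  · simp [crl, ab, Rm_eA, nP, h, GD.q_tau]

omit [∀ i, NeZero (N i)] in
theorem crl_charged (a : IL N → ℝ) (x : TS N) (μ ν : Fin 4) :
    ∑ k, crl (ab θ) (a - nP (Equiv.refl _) a) x μ ν k ^ 2 +
      ∑ k with GD.q k = 0, crl (ab θ) a x μ ν k ^ 2 = ∑ k, crl (ab θ) a x μ ν k ^ 2 := by
  rw [sum_filter, ← sum_add_distrib]
  refine sum_congr rfl fun k _ => ?_
  split_ifs with h
  · simp [crl_zero, nP, h]
  · simp [crl, ab, Rm_eA, nP, h, GD.q_tau]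

theorem cR_le {v : Fin GD.d → ℝ} {s : ℝ} (h : ∑ k, v k ^ 2 ≤ s) : ‖cR v‖ ≤ √s :=
  Real.le_sqrt_of_sq_le (by simpa [sq_C3, cR_apply] using h)

theorem quad_est (h : L1 R δ M t) (h1 : δ ≤ 1 / 10) (h0 : 0 < δ) (hp : PV N θ)
    (hc : ∀ x μ ν, dd θ x μ ν = (kF F μ ν : ℝ)) (hF : 120 * R * |F| ≤ δ)
    (T : Tay (SS N t (ab θ)) Q C ρ) (r0 : 0 < ρ) {σ c K : ℝ} (K0 : 0 ≤ K)
    (H : ∀ (A : Fld) a, RealF A → 0 ≤ a → Sm R a A → c * ∑ μ, ∑ ν, ∑ k, (dd A 0 μ ν k).re ^ 2 -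
      K * a ^ 2 ≤ σ * (q2 (ph t (exF (gF F))) 0 A).re) (a : IL N → ℝ) :
    c * CQ (ab θ) a - 144 * (2 * R + 1) ^ 6 * K * NQ (ab θ) a ≤ σ * (a ⬝ᵥ Q *ᵥ a) := by
  obtain ⟨Q', T', hQ⟩ := hess0 (N := N) h h1 h0 hc hF
  have c1 := GD.cG1
  obtain rfl := T.unique r0 T' (by positivity)
  have hg := fun e he => gF_spec (F := F) (R := R) (by linarith) (e := e) he
  have hb := nP_nP (e := Equiv.refl _) a
  set b := a - nP (Equiv.refl _) a with hb'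
  have e1 : ∀ x, c * ∑ μ, ∑ ν, ∑ k, crl (ab θ) b x μ ν k ^ 2 -
      K * (144 * ∑ y ∈ box R, ∑ μ, ∑ k, b ((cs N (y + lf x), μ), k) ^ 2) ≤
      σ * (q2 (ph t (exF (gF F))) 0 (tl θ x b)).re := fun x => by
    have := H (tl θ x b) (12 * √(∑ y ∈ box R, ∑ μ, ∑ k, b ((cs N (y + lf x), μ), k) ^ 2))
      (fun e k => by rw [tl, ← cR_Rm]; simp [cR_apply]) (by positivity) fun e he => by
        refine (norm_adq_cS _ _).trans (mul_le_mul_of_nonneg_left (cR_le ?_) (by norm_num))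
        exact (single_le_sum (f := fun μ => ∑ k,
          b ((cs N (e.1 + lf x), μ), k) ^ 2) (fun _ _ => by positivity) (mem_univ e.2)).trans
          (single_le_sum (f := fun y => ∑ μ, ∑ k, b ((cs N (y + lf x), μ), k) ^ 2)
            (fun _ _ => by positivity) (mem_lbox.1 he))
    rw [mul_pow, Real.sq_sqrt (by positivity)] at this
    simpa only [dd_tl, cR_apply, Complex.ofReal_re, show (12 : ℝ) ^ 2 = 144 by norm_num] using this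
  obtain ⟨g, eg⟩ : ∃ g : TS N → Fin 4 → Fin 4 → ℝ,
    ∀ x μ ν, ∑ k with GD.q k = 0, crl (ab θ) a x μ ν k ^ 2 = g x μ ν := ⟨_, fun _ _ _ => rfl⟩
  have g0 : ∀ x μ ν, 0 ≤ g x μ ν := fun _ _ _ => eg .. ▸ by positivity
  have g1 : ∀ x μ, 0 ≤ ∑ ν, g x μ ν := fun _ _ => sum_nonneg fun _ _ => g0 _ _ _
  have g2 : ∀ x, 0 ≤ ∑ μ, ∑ ν, g x μ ν := fun _ => sum_nonneg fun _ _ => g1 _ _
  have e2 : ∀ x, c * ∑ μ, ∑ ν, g x μ ν -
      K * (9 * R ^ 2 * ∑ y ∈ box R, ∑ μ, ∑ ν, g (cs N (y + lf x)) μ ν) ≤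
      σ * (q2 (ph t (exF (gF F))) 0 (tl θ x (nP (Equiv.refl _) a))).re := fun x => by
    let α : Lk → Fin GD.d → ℝ := fun e k => nP (Equiv.refl _) a (pk N (e.1 + lf x, e.2), k)
    have d : ∀ y μ ν, ∑ k, dd α y μ ν k ^ 2 = g (cs N (y + lf x)) μ ν := fun y μ ν => by
      refine (sum_congr rfl fun k _ => ?_).trans ((sum_filter _ _).symm.trans (eg ..))
      split_ifs with h <;>
        simp [dd, α, pk, crl_zero, add_right_comm y (un _), cs_add_un, nP, h]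
    have d1 : ∀ y μ ν, dd (fun e => cR (α e)) y μ ν = cR (dd α y μ ν) := fun y μ ν => by
      simp only [dd, sub_eq_add_neg, cR_add, cR_neg]
    have d2 : cg (fun e => cR (α e)) = fun e => cR (cg α e) := cg_map (.mk' cR cR_add) α
    have := H (cg fun e => cR (α e)) (3 * R * √(∑ y ∈ box R, ∑ μ, ∑ ν, g (cs N (y + lf x)) μ ν))
      (fun e k => by rw [d2]; exact Complex.ofReal_im _) (by positivity)
        (Sm_cg fun y hy μ ν => by
          rw [d1]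
          exact cR_le ((d y μ ν).trans_le ((single_le_sum (fun ν _ => g0 _ μ ν) (mem_univ ν)).trans
            ((single_le_sum (fun μ _ => g1 _ μ) (mem_univ μ)).trans
            (single_le_sum (f := fun y => ∑ μ, ∑ ν, g (cs N (y + lf x)) μ ν)
              (fun _ _ => g2 _) hy)))))
    have n := (h.neutral (by linarith) h1 (fun e he => (hg e he).2.trans (by linarith))
      (fun e he => (hg e he).1) α (lam α) fun y k hk => by simp [lam, pr, α, nP, hk]).2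
    rw [mul_pow, Real.sq_sqrt (sum_nonneg fun _ _ => g2 _)] at this
    simp only [dd_cg, d1, cR_apply, Complex.ofReal_re, d, zero_add, cs_lf] at this
    rw [tl_neutral _ hb]
    refine (le_of_eq (by ring)).trans (this.trans_eq ?_)
    congr 2
    refine Eq.trans ?_ n.symm
    rw [d2]
    congr 1
    funext e
    rw [cg_apply]; congr 1; abel
  have s1 := sum_le_sum fun x (_ : x ∈ univ) => e1 x
  have s2 := sum_le_sum fun x (_ : x ∈ univ) => e2 x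
  simp only [sum_sub_distrib, ← mul_sum, ← hQ] at s1 s2
  rw [sum_loc R fun x => ∑ μ, ∑ k, b ((x, μ), k) ^ 2] at s1
  rw [sum_loc R fun x => ∑ μ, ∑ ν, g x μ ν] at s2
  have e3 : ∑ x, ∑ μ, ∑ k, b ((x, μ), k) ^ 2 = ∑ i with GD.q i.2 ≠ 0, a i ^ 2 := by
    rw [sum_filter, Fintype.sum_prod_type, Fintype.sum_prod_type]
    refine sum_congr rfl fun _ _ => sum_congr rfl fun _ _ => sum_congr rfl fun k _ => ?_
    by_cases hk : GD.q k = 0 <;> simp [hb', nP, hk]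
  have e4 : CQ (ab θ) a = ∑ x, ∑ μ, ∑ ν, ∑ k, crl (ab θ) b x μ ν k ^ 2 +
      ∑ x, ∑ μ, ∑ ν, g x μ ν := by
    simp only [CQ, ← crl_charged a, sum_add_distrib, hb', eg]
  rw [hess_split h hp T r0, e4, NQ, ← e3, ← hb']
  simp only [eg]
  have X0 : 0 ≤ (2 * R + 1 : ℝ) ^ 4 * K * ∑ x, ∑ μ, ∑ k, b ((x, μ), k) ^ 2 := by positivity
  have Y0 : 0 ≤ (2 * R + 1 : ℝ) ^ 4 * K * ∑ x, ∑ μ, ∑ ν, g x μ ν :=
    mul_nonneg (by positivity) (sum_nonneg fun _ _ => g2 _)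
  have R0 : (0 : ℝ) ≤ R := R.cast_nonneg
  nlinarith [mul_le_mul_of_nonneg_right (show (144 : ℝ) ≤ 144 * (2 * R + 1) ^ 2 by nlinarith) X0,
    mul_le_mul_of_nonneg_right (show (9 * R ^ 2 : ℝ) ≤ 144 * (2 * R + 1) ^ 2 by nlinarith) Y0]

theorem quad_U (h : L1 R δ M t) (h1 : δ ≤ 1 / 10) (h0 : 0 < δ) (hp : PV N θ)
    (hc : ∀ x μ ν, dd θ x μ ν = (kF F μ ν : ℝ)) (hF : 600 * R * |F| ≤ δ)
    (T : Tay (SS N t (ab θ)) Q C ρ) (r0 : 0 < ρ) (a : IL N → ℝ) :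
    |a ⬝ᵥ Q *ᵥ a| ≤ 144 * (2 * R + 1) ^ 6 * (5000 * M / δ ^ 2) * NQ (ab θ) a := by
  have F0 : 0 ≤ R * |F| := by positivity
  have M0 := h.nonneg h0.le
  have q := fun (A : Fld) a (a0 : 0 ≤ a) (hA : Sm R a A) => abs_le.1 ((Complex.abs_re_le_norm _).trans
    (h.q2_le (g := gF F) h1 (η := δ / 100) (by linarith) (by linarith) (fun e he =>
      (gF_spec (by linarith) he).2.trans (by linarith)) a0 hA).2)
  have a1 := quad_est h h1 h0 hp hc (by linarith) T r0 (σ := 1) (c := 0) (K := 5000 * M / δ ^ 2)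
    (by positivity) (fun A a _ a0 hA => by simpa using! (q A a a0 hA).1) a
  have a2 := quad_est h h1 h0 hp hc (by linarith) T r0 (σ := -1) (c := 0) (K := 5000 * M / δ ^ 2)
    (by positivity) (fun A a _ a0 hA => by simpa using! (q A a a0 hA).2) a
  exact abs_le.2 ⟨by linarith, by linarith⟩

theorem quad_L (h : L1 R δ M t) (h1 : δ ≤ 1 / 10) (hp : PV N θ)
    (hc : ∀ x μ ν, dd θ x μ ν = (kF F μ ν : ℝ)) {η c : ℝ} (η0 : 0 < η) (hF : 6 * R * |F| ≤ η)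
    (η1 : 100 * η ≤ δ) (T : Tay (SS N t (ab θ)) Q C ρ) (r0 : 0 < ρ)
    (H : ∀ A : Fld, RealF A → c * ∑ μ, ∑ ν, ∑ k, (dd A 0 μ ν k).re ^ 2 ≤ (q2 (ph t 1) 0 A).re)
    (a : IL N → ℝ) : c * CQ (ab θ) a -
      144 * (2 * R + 1) ^ 6 * (256000 * M * η / δ ^ 3) * NQ (ab θ) a ≤ a ⬝ᵥ Q *ᵥ a := by
  have h0 : 0 < δ := by linarith
  have M0 := h.nonneg h0.le
  refine (quad_est h h1 h0 hp hc (by linarith) T r0 (σ := 1) (by positivity)
    (fun A a hr a0 hA => ?_) a).trans_eq (one_mul _)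
  have := abs_le.1 ((Complex.abs_re_le_norm _).trans (h.q2_le (g := gF F) h1 η0 η1 (fun e he =>
    (gF_spec (by linarith) he).2.trans hF) a0 hA).1)
  rw [Complex.sub_re] at this
  change _ ≤ 1 * (q2 (ph t fun i => ex (gF F i)) 0 A).re
  linarith [H A hr]

/-- gauge fixing with control by the curl -/
def Gap (N : Fin 4 → ℕ) [∀ i, NeZero (N i)] (U : Conf) (g1 g2 : ℝ) : Prop :=
  (∀ v, DL N U v = 0 → v = 0) ∧ ∀ a, ∃ v, NQ U (a - DL N U v) ≤ g1 * CQ U (a - DL N U v) ∧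
    (a - DL N U v) ⬝ᵥ (a - DL N U v) ≤ g2 * CQ U (a - DL N U v)

theorem gap_NN : ∃ C ≤ (11 : ℕ), ∀ (n1 n2 : ℕ) [NeZero n1] [NeZero n2], n2 ≤ n1 → 3 ≤ n2 →
    ∀ (F : ℝ) (θ : Lk → Ang), C * |F| * (n2 : ℝ) ^ 2 ≤ 1 → Bg (NN n1 n2) F θ →
    Gap (NN n1 n2) (ab θ) (C * (n2 : ℝ) ^ 2 + 1) (C * (n2 : ℝ) ^ 2 + (n1 : ℝ) ^ C) := by
  obtain ⟨C, c1, hC⟩ := gap_main
  refine ⟨C, c1, fun n1 n2 _ _ h1 h2 F θ h3 h4 => ⟨(hC n1 n2 h1 h2 F θ h3 h4).1, fun a => ?_⟩⟩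
  obtain ⟨v, a1, a2⟩ := (hC n1 n2 h1 h2 F θ h3 h4).2 a
  refine ⟨v, ?_⟩
  generalize a - DL (NN n1 n2) (ab θ) v = b at *
  have e : CQ (ab θ) b = ∑ x, ∑ μ, ∑ ν, ∑ k with GD.q k ≠ 0, crl (ab θ) b x μ ν k ^ 2 +
      ∑ x, ∑ μ, ∑ ν, ∑ k with GD.q k = 0, crl (ab θ) b x μ ν k ^ 2 := by
    simp only [CQ, ← sum_add_distrib, sum_filter_not_add_sum_filter]
  have e2 : b ⬝ᵥ b = ∑ i with GD.q i.2 ≠ 0, b i ^ 2 + ∑ i with GD.q i.2 = 0, b i ^ 2 := by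
    rw [add_comm, sum_filter_add_sum_filter_not]; simp only [dotProduct, sq]
  have X0 : 0 ≤ ∑ x, ∑ μ, ∑ ν, ∑ k with GD.q k ≠ 0, crl (ab θ) b x μ ν k ^ 2 := by positivity
  have Y0 : 0 ≤ ∑ x, ∑ μ, ∑ ν, ∑ k with GD.q k = 0, crl (ab θ) b x μ ν k ^ 2 := by positivity
  rw [e, e2, NQ]
  constructor <;> nlinarith [mul_nonneg (by positivity : (0 : ℝ) ≤ C * (n2 : ℝ) ^ 2) Y0,
    mul_nonneg (by positivity : (0 : ℝ) ≤ (n1 : ℝ) ^ C) X0]

theorem lk_eq {ι κ : Type} [Fintype ι] [Fintype κ] [DecidableEq ι] [DecidableEq κ]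
    (Q : Matrix ι ι ℝ) (d : Matrix ι κ ℝ) : lk Q d = 2⁻¹ * Real.log (kap Q d dᵀ) := rfl

theorem Gap.det_ne {U : Conf} {g1 g2 : ℝ} (h : Gap N U g1 g2) : ((Dm N U)ᵀ * Dm N U).det ≠ 0 :=
  fun h0 => by
    obtain ⟨v, v0, hv⟩ := exists_mulVec_eq_zero_iff.2 h0
    have := congrArg (v ⬝ᵥ ·) hv
    simp only [← mulVec_mulVec, dotProduct_mulVec v, vecMul_transpose, dotProduct_zero,
      dotProduct_self_eq_zero, Dm_mulVec] at this
    exact v0 (h.1 v this)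

theorem lk_close {U : Conf} {g1 g2 c ε η1 η2 : ℝ} (h : Gap N U g1 g2) {Q' : Matrix (IL N) (IL N) ℝ}
    (s : Q.IsSymm) (s' : Q'.IsSymm) (k : ∀ v, Q *ᵥ DL N U v = 0) (k' : ∀ v, Q' *ᵥ DL N U v = 0)
    (c0 : 0 < c) (ε0 : 0 ≤ ε) (hε : 2 * ε * g1 ≤ c) (lo : ∀ a, c * CQ U a - ε * NQ U a ≤ a ⬝ᵥ Q *ᵥ a)
    (h1 : 0 ≤ η1) (h2 : 0 ≤ η2) {η : ℝ} (η0 : 0 ≤ η) (hη : 2 * (η1 * g1 + η2 * g2) ≤ η * c)
    (η' : η ≤ 1 / 2) (df : ∀ a, |a ⬝ᵥ Q' *ᵥ a - a ⬝ᵥ Q *ᵥ a| ≤ η1 * NQ U a + η2 * (a ⬝ᵥ a)) :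
    0 < kap Q (Dm N U) (Dm N U)ᵀ ∧ 0 < kap Q' (Dm N U) (Dm N U)ᵀ ∧
      |lk Q' (Dm N U) - lk Q (Dm N U)| ≤ η * Fintype.card (IL N) := by
  have sh : ∀ {Q : Matrix (IL N) (IL N) ℝ}, Q.IsSymm → (∀ v, Q *ᵥ DL N U v = 0) → ∀ a v,
      (a - DL N U v) ⬝ᵥ Q *ᵥ (a - DL N U v) = a ⬝ᵥ Q *ᵥ a := fun s k a v => by
    rw [mulVec_sub, k, sub_zero, quad_comm s, mulVec_sub, k, sub_zero]
  have key : ∀ a, ∃ v, c / 2 * CQ U (a - DL N U v) ≤ a ⬝ᵥ Q *ᵥ a ∧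
      (a - DL N U v) ⬝ᵥ (a - DL N U v) ≤ g2 * CQ U (a - DL N U v) ∧
      |a ⬝ᵥ Q' *ᵥ a - a ⬝ᵥ Q *ᵥ a| ≤ η * (a ⬝ᵥ Q *ᵥ a) := fun a => by
    obtain ⟨v, a1, a2⟩ := h.2 a
    have a3 := lo (a - DL N U v)
    have a4 := df (a - DL N U v)
    have a5 := CQ_nonneg U (a - DL N U v)
    rw [sh s k] at a3 a4
    rw [sh s' k'] at a4
    have a6 : c / 2 * CQ U (a - DL N U v) ≤ a ⬝ᵥ Q *ᵥ a := by
      nlinarith [mul_le_mul_of_nonneg_left a1 ε0, mul_le_mul_of_nonneg_right hε a5]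
    refine ⟨v, a6, a2, a4.trans ?_⟩
    nlinarith [mul_le_mul_of_nonneg_left a1 h1, mul_le_mul_of_nonneg_left a2 h2,
      mul_le_mul_of_nonneg_right hη a5, mul_le_mul_of_nonneg_left a6 η0]
  obtain ⟨p1, p2, p3⟩ := log_kap_rel s s' h.det_ne (fix_pos h.det_ne (fun a => by
      obtain ⟨v, a1, -⟩ := key a
      exact le_trans (mul_nonneg (by linarith) (CQ_nonneg _ _)) a1) fun a ha => by
      obtain ⟨v, a1, a2, -⟩ := key a
      have : CQ U (a - DL N U v) = 0 := le_antisymm (by nlinarith) (CQ_nonneg _ _)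
      rw [this, mul_zero] at a2
      exact ⟨v, by rw [Dm_mulVec, ← sub_eq_zero, ← dotProduct_self_eq_zero]
                   exact le_antisymm a2 (dot_nonneg _)⟩) η0 η'
    (fun a => by obtain ⟨v, -, -, a1⟩ := key a; linarith [abs_le.1 a1])
    fun a => by obtain ⟨v, -, -, a1⟩ := key a; linarith [abs_le.1 a1]
  refine ⟨p1, p2, ?_⟩
  rw [lk_eq, lk_eq, ← mul_sub, abs_mul, abs_of_pos (by norm_num : (0 : ℝ) < 2⁻¹)]
  linarith

/-- the tree density -/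
def tf (m : BF) (T : Fld → ℂ) (U : Cf) : ℂ := cx m (Bx 0 U) (Bx 0 U) + T (Bx 0 U)

section tf
variable {m : BF} {T : Fld → ℂ} {Mb : ℝ}

theorem tc_agr (hT : Tc R ρ C T) {A B : Fld} (h : Agr (R + 1) A B) : T A = T B :=
  hT.loc _ _ fun x hx μ ν => by
    have a := fun μ => h (x, μ) (mem_lbox.2 (box_mono R.le_succ hx))
    have c := fun μ ν => h (x + un μ, ν) (mem_lbox.2 (add_un_mem_box hx μ))
    simp only [dd, a, c]

theorem lo_tf (hm : Rng R R m) (hb : Bd R R Mb m) (hT : Tc R ρ C T) (h1 : 1000 * (R + 2) * δ ≤ 1)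
    (h2 : 120 * (R + 2) * δ ≤ ρ) : L1 (R + 2) δ (12 * Mb + C * ρ ^ 3) (tf m T) := by
  have h1' : 1000 * ((R + 1 : ℕ) + 1) * δ ≤ 1 := by push_cast; linarith
  have sm : ∀ U : Cf, (∀ e ∈ lbox (R + 2), ‖U e - 1‖ ≤ δ) →
      Sm (R + 1) (30 * (R + 2) * δ) (Bx 0 U) := fun U hU e he =>
    (Bx_re_ne hU h1' he).2.trans_eq (by push_cast; ring)
  refine ⟨fun h U => ?_, fun U U' h => ?_, fun Ω γ hΩ hγ h => ?_, fun U h => ?_⟩
  · have : Bx 0 (ga Prod.fst tg h U) = adF (fun _ => cS (h 0)) (Bx 0 U) :=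
      Bx_gauge (h := fun x => cS (h x)) (fun _ => uni_cS _) 0 U
    rw [tf, tf, this, cx_adF m hm (uni_cS _), hT.ad]
  · have := Bx_agr (R := R + 1) h
    rw [tf, tf, tc_agr hT this, cx_agr hm (this.mono R.le_succ) (this.mono R.le_succ)]
  · have d := Bx_disc hγ h h1'
    have c : ∀ s, Agr (R + 1) (cut (R + 1) (Bx 0 (γ s))) (Bx 0 (γ s)) := fun s e he =>
      cut_of_mem _ he
    refine ((diff_cx hm (fun e _ => d e) fun e _ => d e).add (hT.hol Ω _ hΩ d fun s hs =>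
      ((sm _ (h s hs)).cv.congr fun e he => (c s e he).symm).mono le_rfl (by linarith))).congr
      fun s _ => ?_
    rw [tf, Pi.add_apply, tc_agr hT (c s), cx_agr hm ((c s).mono R.le_succ) ((c s).mono R.le_succ)]
  · have a := (sm U h).mono R.le_succ (show _ ≤ 1 by linarith [(sm U h).nonneg])
    refine (norm_add_le _ _).trans (add_le_add ((cx_bd hb a a).trans_eq (by ring)) ?_)
    exact hT.bd _ _ ((sm U h).cv.mono le_rfl (by linarith)) le_rfl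

theorem q2_tf (hm : Rng R R m) (hb : Bd R R Mb m) (hT : Tc R ρ C T) (r0 : 0 < ρ)
    (hs : ∀ a b, m a b = m b a) (hg : ∀ u b, m (gr u) b = 0) (A : Fld) :
    q2 (ph (tf m T) 1) 0 A = cx m A A := by
  obtain ⟨δ, δ0, h1, h2⟩ : ∃ δ : ℝ, 0 < δ ∧ 1000 * (R + 2) * δ ≤ 1 ∧ 120 * (R + 2) * δ ≤ ρ :=
    ⟨min 1 ρ / (1000 * (R + 2)), by positivity, by field_simp; exact min_le_left _ _, by
      field_simp; linarith [min_le_right 1 ρ]⟩
  have R0 : (0 : ℝ) ≤ R * δ := by positivity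
  have h := lo_tf hm hb hT h1 h2
  have d0 : 0 < δ / 20 := by linarith
  obtain ⟨p, q⟩ := h.lh1 (g := 0) d0 (by linarith) fun _ _ => by simpa using d0.le
  simp only [Pi.zero_apply, ex_zero] at p q
  obtain ⟨ℓ, β, -, b2, -, b4⟩ := LH_tay p q (sD_all _ d0)
  obtain ⟨a, a0, ha⟩ : ∃ a, 0 < a ∧ Sm (R + 2) a A := ⟨∑ e ∈ lbox (R + 2), ‖A e‖ + 1,
    by positivity, fun e he => (single_le_sum (f := fun e => ‖A e‖) (fun _ _ => norm_nonneg _)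
      he).trans (by linarith)⟩
  rw [← sub_eq_zero, ← show β A A = q2 (ph (tf m T) 1) 0 A from b2 A]
  refine (two_of_cubic (x := ℓ A) (s0 := δ / 20 / a) (C := 12 * (12 * Mb + C * ρ ^ 3) *
    (a / (δ / 20)) ^ 3 + (24 * Mb * (10 ^ 4 * ((R + 2) ^ 2 + (R + 2) * 10)) * (120 * (R + 2)) +
      C * (480 * (R + 2)) ^ 3) * a ^ 3) (by positivity) fun s s0 s1 => ?_).2
  have s2 := (le_div_iff₀ a0).1 s1
  have sa : 0 ≤ R * (s * a) := by positivity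
  have sa' : R * (s * a) ≤ R * (δ / 20) := by gcongr
  have hB : Sm (R + 2) (s * a) ((s : ℂ) • A) := fun e he => by
    rw [Pi.smul_apply, norm_smul, Complex.norm_real, Real.norm_of_nonneg s0.le]
    exact mul_le_mul_of_nonneg_left (ha e he) s0.le
  have t1 := (b4 _ _ (mem_sD d0 hB) (by positivity) ((div_le_one d0).2 s2)).1
  have k0 : ∀ B, ph (tf m T) (fun _ => 1) B = tf m T (exF B) := fun B => by
    simp only [ph, mul_one]; rfl
  have k1 : tf m T (exF 0) = 0 := by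
    have := hT.bd 0 0 (fun _ _ _ _ => by simp [dd]) r0.le
    rw [show exF 0 = 1 from funext fun _ => ex_zero]
    simpa [tf] using this
  rw [k0, k0, k1, tf] at t1
  have x1 := (Bx_ap (R := R + 1) (Ap_exF hB (by linarith)) (by nlinarith [mul_pos s0 a0])
    (by push_cast; linarith)).mono R.le_succ le_rfl
  have x2 : Sm (R + 1) (120 * (R + 2) * (s * a)) (Bx 0 (exF ((s : ℂ) • A))) := fun e he =>
    (Bx_re_ne (δ := 4 * (s * a)) (fun e he => ex_sub_one (hB e he) (by linarith))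
      (by push_cast; linarith) he).2.trans_eq (by push_cast; ring)
  have x3 := (Sm_cg (R := R + 1) hB.cv).mono R.le_succ (δ' := 120 * (R + 2) * (s * a))
    (by push_cast; nlinarith [mul_pos s0 a0])
  have x4 := hT.bd _ _ x2.cv (by linarith)
  have x5 : cx m (cg ((s : ℂ) • A)) (cg ((s : ℂ) • A)) = s ^ 2 * cx m A A := by
    rw [cg, cx_sub_left, cx_gr_left hg, cx_sub_right, cx_gr_right fun u b => (hs _ _).trans (hg u b),
      cx_smul_left, cx_smul_right]; ring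
  have x6 := norm_add_le_of_le (cx_bd hb x1 (x2.mono R.le_succ le_rfl)) (cx_bd hb x3 x1)
  rw [cx_sub_left, cx_sub_right, x5] at x6
  simp only [map_smul, LinearMap.smul_apply, smul_eq_mul] at t1
  refine le_of_eq_of_le (congrArg norm ?_) (((norm_sub_le _ _).trans (add_le_add
    ((norm_add_le _ _).trans (add_le_add x6 x4)) t1)).trans (le_of_eq ?_))
  · ring
  · push_cast; field_simp; ring

theorem pos_tf (hm : Rng R R m) (hb : Bd R R Mb m) (hT : Tc R ρ C T) (r0 : 0 < ρ)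
    (hs : ∀ a b, m a b = m b a) (hg : ∀ u b, m (gr u) b = 0) {c : ℝ}
    (hc : ∀ a, c * nd a 0 ≤ m a a) (A : Fld) (hA : RealF A) :
    c * ∑ μ, ∑ ν, ∑ k, (dd A 0 μ ν k).re ^ 2 ≤ (q2 (ph (tf m T) 1) 0 A).re := by
  rw [q2_tf hm hb hT r0 hs hg, cx_real m hA hA, Complex.ofReal_re]
  refine le_of_eq_of_le ?_ (sum_le_sum fun k _ => hc (reF A k))
  rw [← mul_sum, sum_comm, sum_congr rfl fun ν _ => sum_comm, sum_comm]
  simp only [nd]
  congr 1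
  exact sum_congr rfl fun k _ => sum_comm

end tf

end Pool.Agent.Lib.MP_7f377f_mp.RG.Q4.Af
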