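import Pool.Agent.Lib.MP_7f377f_mp.G.Q4Nz

/-! The background field and the energy of a block: definitions. -/

noncomputable section

set_option linter.unusedSectionVars false
variable [Pool.Agent.Lib.MP_7f377f_mp.GD]

namespace Pool.Agent.Lib.MP_7f377f_mp.RG.Q4

open Finset

/-- the background field -/
def Us (l : ℕ) (s : V →ₗ[ℝ] V) (W : Cf) (f : Lk) : Hc :=
  ex (cxL s (Bx (yo l f.1) W) (f.1 - up l (yo l f.1), f.2)) *
    if yo l (f.1 + un f.2) = yo l f.1 then 1 else W (yo l f.1, f.2)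

def Uz (l : ℕ) (s : V →ₗ[ℝ] V) (W : Cf) (A : Fld) : Cf := fun f => ex (A f) * Us l s W f

/-- the energy of the block at the origin -/
def en (l : ℕ) (m : BF) (T : Fld → ℂ) (W U : Cf) : ℂ :=
  ∑ x ∈ box l, (cx m (Bx x U) (Bx x U) + T (Bx x U)) + (LL l : ℂ) ^ 2 * ∑ μ, nz l μ (W (0, μ)) U

def Gc (l : ℕ) (m : BF) (s : V →ₗ[ℝ] V) (T : Fld → ℂ) (W : Cf) (A : Fld) : ℂ :=
  en l m T W (Uz l s W A)

/-- the real background field -/
def Ub (l : ℕ) (s : V →ₗ[ℝ] V) (W : Conf) : Conf := fun f =>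
  Ms.e0 (WithLp.toLp 2 fun k =>
    (cxL s (Bx (yo l f.1) (cC W)) (f.1 - up l (yo l f.1), f.2) k).re) *
    if yo l (f.1 + un f.2) = yo l f.1 then 1 else W (yo l f.1, f.2)

theorem cE_re {b : C3} (h : ∀ k, (b k).im = 0) : cE (WithLp.toLp 2 fun k => (b k).re) = b :=
  funext fun k => Complex.ext rfl (by simp [cE, h])

theorem cC_Ub (l : ℕ) (s : V →ₗ[ℝ] V) (W : Conf) : cC (Ub l s W) = Us l s (cC W) := by
  funext f
  rw [cC, Ub, cS_mul, Ms.cS_e0, cE_re (cxL_real s (Bx_real _ W) _), Us, apply_ite cS, cS_one, cC]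

end Pool.Agent.Lib.MP_7f377f_mp.RG.Q4
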