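import Pool.Agent.Lib.MP_7f377f_mp.G.Q4AfL0

/-! The numbers of the telescoping argument and the limit of the one loop coefficient. -/

noncomputable section

set_option linter.unusedSectionVars false
variable [Pool.Agent.Lib.MP_7f377f_mp.GD]

namespace Pool.Agent.Lib.MP_7f377f_mp.RG.Q4.Af

open Finset Real Filter Topology

theorem gj_of {l a b B Ka : ℕ} (hl : 10 ^ 9 ≤ LL l) (hg : GD.hh ^ 6 ≤ LL l) (hb : 1 ≤ b)
    (ha : a = b + (B + Ka + 6)) (j : ℕ) : Gj l a b ((LL l : ℝ) ^ B) ((LL l : ℝ) ^ (Ka + 3))⁻¹ j := by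
  obtain ⟨C, c1, hC⟩ := gap_NN
  have L1 : 1 ≤ LL l := by omega
  have h1 : LL l ≤ LL l ^ (b + j) := Nat.le_self_pow (by omega) _
  have h2 : LL l ^ (b + j) ≤ LL l ^ (a + j) := Nat.pow_le_pow_right L1 (by omega)
  have G := fun k : ℤ => fun h => hC _ _ h2 (by omega) _ _ h (bg_th l a b k j)
  have f0 := fj_pos l a j
  have L9 : (4000000 : ℝ) ≤ LL l := by exact_mod_cast (show 4000000 ≤ LL l by omega)
  clear hl
  have c2 : (C : ℝ) ≤ 11 := by exact_mod_cast c1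
  have g1 := GD.hh1
  have p8 : 2 * π * GD.hh ≤ 8 * GD.hh := by gcongr; linarith [pi_lt_four]
  have g2 : GD.hh ≤ LL l := (le_self_pow₀ g1 (by norm_num)).trans hg
  obtain ⟨x, hx⟩ : ∃ x : ℝ, x = (LL l ^ (b + j) : ℕ) := ⟨_, rfl⟩
  obtain ⟨y, hy⟩ : ∃ y : ℝ, y = (LL l ^ (a + j) : ℕ) := ⟨_, rfl⟩
  have x1 : (4000000 : ℝ) ≤ x := hx ▸ L9.trans (by exact_mod_cast h1)
  have xy : x ≤ y := by rw [hx, hy]; exact_mod_cast h2
  have e1 : fj l a j * y ^ 2 = 2 * π * GD.hh := by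
    rw [fj, hy, Nat.cast_pow]
    exact div_mul_cancel₀ _ (by positivity)
  have key : (LL l : ℝ) ^ B * fj l a j * (C * x ^ 2 + 1) ≤ ((LL l : ℝ) ^ (Ka + 3))⁻¹ := by
    have e2 : y ^ 2 = x ^ 2 * ((LL l : ℝ) ^ B * LL l ^ (Ka + 3) * (LL l * LL l ^ (B + Ka + 8))) := by
      rw [hx, hy, ha]; push_cast; ring
    have h3 : (LL l : ℝ) ≤ LL l ^ (B + Ka + 8) := le_self_pow₀ (by linarith) (by omega)
    have h4 : C * x ^ 2 + 1 ≤ 12 * x ^ 2 := by nlinarith
    rw [← one_div, le_div_iff₀ (by positivity)]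
    refine le_of_mul_le_mul_right ?_ (show (0 : ℝ) < LL l * LL l ^ (B + Ka + 8) by positivity)
    calc _ ≤ (LL l : ℝ) ^ B * fj l a j * (12 * x ^ 2) * LL l ^ (Ka + 3) *
          (LL l * LL l ^ (B + Ka + 8)) := by gcongr
      _ = 12 * (fj l a j * y ^ 2) := by rw [e2]; ring
      _ ≤ _ := by nlinarith
  rw [← hx, ← hy] at G
  refine ⟨_, _, by nlinarith [(Nat.cast_nonneg C : (0 : ℝ) ≤ C)], key, ?_, G 1 ?_, G 0 (by simp)⟩
  · have y1 : 1 ≤ y := by linarith
    have h3 : y ^ C ≤ y ^ 11 := pow_le_pow_right₀ y1 c1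
    have h4 : x ^ 2 ≤ y ^ 11 := (pow_le_pow_left₀ (by linarith) xy 2).trans
      (pow_le_pow_right₀ y1 (by norm_num))
    have h5 : C * x ^ 2 ≤ 11 * y ^ 11 := by gcongr
    refine le_of_mul_le_mul_right ?_ (show 0 < y by linarith)
    calc _ ≤ 12 * y ^ 11 * fj l a j ^ 6 * y := by gcongr; linarith
      _ = 12 * (2 * π * GD.hh) ^ 6 := by rw [← e1]; ring
      _ ≤ 12 * (8 * GD.hh) ^ 6 := by gcongr
      _ ≤ (LL l : ℝ) ^ 2 := by rw [mul_pow]; nlinarith
      _ ≤ _ := by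
        rw [hy, one_mul, Nat.cast_pow]
        exact pow_le_pow_right₀ (by linarith) (by omega)
  · have h3 : (1 : ℝ) ≤ LL l ^ B := one_le_pow₀ (by linarith)
    have h4 := key.trans (inv_le_one_of_one_le₀ (one_le_pow₀ (by linarith)))
    rw [Int.cast_one, one_mul, abs_of_pos f0]
    nlinarith [mul_le_mul_of_nonneg_right h3 (show 0 ≤ fj l a j * (C * x ^ 2 + 1) by positivity)]

theorem pow_S0_le (c k : ℕ) (hc : 1 ≤ c) : ∀ᶠ l in atTop,
    (LL l : ℝ) ^ (k + 120 * S0 l) ≤ exp ((Nat.log 3 (LL l) ^ 4 : ℕ) / c) := by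
  filter_upwards [log_top.eventually (eventually_ge_atTop (500 * c + k))] with l h
  have h1 : LL l < 3 ^ (Nat.log 3 (LL l) + 1) := Nat.lt_pow_succ_log_self (by norm_num) _
  unfold S0
  generalize Nat.log 3 (LL l) = j at *
  have h2 : (LL l : ℝ) ≤ exp (2 * (j + 1 : ℕ)) := by
    rw [mul_comm, exp_nat_mul]
    refine le_trans (by exact_mod_cast h1.le) (pow_le_pow_left₀ (by norm_num) ?_ _ :
      (3 : ℝ) ^ (j + 1) ≤ _)
    linarith [add_one_le_exp 2]
  refine (pow_le_pow_left₀ (by positivity) h2 _).trans ?_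
  rw [← exp_nat_mul, exp_le_exp, le_div_iff₀ (by positivity)]
  have h3 : (k + 120 * j ^ 2) * (2 * (j + 1)) * c ≤ j ^ 4 :=
    calc _ ≤ 121 * j ^ 2 * (4 * j) * c := by
          refine Nat.mul_le_mul_right _ (Nat.mul_le_mul ?_ ?_) <;> nlinarith
      _ = j ^ 3 * (484 * c) := by ring
      _ ≤ j ^ 3 * j := by gcongr; omega
  exact_mod_cast h3

theorem fj_low {l a j : ℕ} (hj : j ≤ 2 * S0 l) {x : ℝ}
    (h : x * (LL l : ℝ) ^ (60 * a + 120 * S0 l) ≤ 1) : x ≤ fj l a j ^ 30 := by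
  have L0 := LL_pos' l
  have h0 := hh_pos
  rw [← le_div_iff₀ (by positivity)] at h
  rw [fj, div_pow, ← pow_mul, ← pow_mul]
  refine h.trans (div_le_div₀ (by positivity) (one_le_pow₀ (by nlinarith [pi_gt_three, GD.hh1]))
    (by positivity) (pow_le_pow_right₀ (by exact_mod_cast Nat.succ_pos _) (by omega)))

theorem bnat_lim {a b : ℕ} (hb : 1 ≤ b) (ha : b + 6 ≤ a)
    (h : ∀ᶠ l in atTop, ∀ j ≤ 2 * S0 l, ∀ k : ℤ, k = 1 ∨ k = 0 → ∃ C ρ, 0 < ρ ∧
      Tay (SS (Tn l a b j) wc (ab (th l a b k j))) (Hs (Tn l a b j) wc (th l a b k j)) C ρ) :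
    Tendsto (fun l => bnat l a b / log (LL l)) atTop (𝓝 (11 * GD.b0 / (48 * π ^ 2))) := by
  refine Metric.tendsto_nhds.2 fun ε hε => ?_
  obtain ⟨N0, hN⟩ := xi_main ε hε
  filter_upwards [h, log_pow_le 2, eventually_ge_atTop (N0 + a + 1),
    log_top.eventually (eventually_ge_atTop b)] with l h h1 h2 h3
  have L0 := LL_pos' l
  have L3 : (3 : ℝ) ≤ LL l := by exact_mod_cast (show 3 ≤ LL l by unfold LL; omega)
  have g0 : 0 < log (LL l) := log_pos (by linarith)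
  have o0 := om_pos l a b
  have p3 := pi_gt_three
  have g1 := GD.hh1
  have key : ∀ j ≤ 2 * S0 l, |XX l a b wc j +
      11 * GD.b0 / (48 * π ^ 2) * om l a b * ((b + j) * log (LL l))| ≤
      ε / 36 * om l a b * ((b + j) * log (LL l)) := fun j hj => by
    obtain ⟨C, ρ, r0, T⟩ := h j hj 1 (.inl rfl)
    obtain ⟨C0, ρ0, r1, T0⟩ := h j hj 0 (.inr rfl)
    have h4 : LL l ≤ LL l ^ (b + j) := Nat.le_self_pow (by omega) _
    have := hN (LL l ^ (a + j)) (LL l ^ (b + j)) (le_trans (by unfold LL; omega) h4)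
      (Nat.pow_le_pow_right (Nat.succ_pos _) (by omega)) ?_ _ _ _ ?_ (bg_th l a b 1 j)
      (by simpa using bg_th l a b 0 j) _ _ _ _ _ _ r0 r1 T T0
    · change |_ + 11 * GD.b0 / _ * _ * _ * _| ≤ _ at this
      push_cast at this
      rw [log_pow, Nat.cast_add] at this
      refine (le_of_eq_of_le (by
        congr 1
        simp only [XX, LK, fj, om, pow_add]
        field_simp
        ring) this).trans ?_
      rw [← mul_assoc ε]
      refine mul_le_mul_of_nonneg_right ?_ (mul_nonneg (by positivity) g0.le)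
      calc _ = ε / (4 * π ^ 2 * GD.hh ^ 2) * om l a b := by simp only [om, pow_add]; field_simp
        _ ≤ _ := by
          gcongr
          nlinarith [mul_le_mul (show 9 ≤ π ^ 2 by nlinarith) (one_le_pow₀ g1 (n := 2))
            zero_le_one (sq_nonneg _)]
    · push_cast
      rw [log_pow]
      have h5 : ((a + j : ℕ) : ℝ) ≤ LL l ^ 2 := by
        unfold S0 at hj
        exact_mod_cast (show a + j ≤ LL l ^ 2 by unfold LL at *; nlinarith)
      have h6 : log (LL l) ≤ LL l := log_le_self L0.le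
      calc _ ≤ (LL l : ℝ) ^ (b + j) * (LL l ^ 2 * LL l) ^ 2 := by gcongr
        _ = LL l ^ (b + 6 + j) := by ring
        _ ≤ _ := pow_le_pow_right₀ (by linarith) (by omega)
    · rw [Int.cast_one, one_mul, abs_of_pos (fj_pos l a j), fj, Nat.cast_pow,
        div_mul_cancel₀ _ (by positivity)]
      nlinarith [pi_lt_d2]
  have s1 : b ≤ S0 l := h3.trans (Nat.le_self_pow two_ne_zero _)
  have s2 : (b : ℝ) ≤ S0 l := by exact_mod_cast s1
  have s3 : (0 : ℝ) < S0 l := by exact_mod_cast hb.trans s1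
  have k1 := abs_le.1 (key _ le_rfl)
  have k2 := abs_le.1 (key (S0 l) (by omega))
  push_cast at k1
  have z := mul_pos (mul_pos s3 o0) g0
  have z1 := mul_le_mul_of_nonneg_right s2 (mul_pos (mul_pos hε o0) g0).le
  rw [Real.dist_eq, bnat, div_div, abs_lt, lt_sub_iff_add_lt, sub_lt_iff_lt_add, lt_div_iff₀ z,
    div_lt_iff₀ z]
  constructor <;> nlinarith [mul_pos hε z]

end Pool.Agent.Lib.MP_7f377f_mp.RG.Q4.Af
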