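import Pool.Agent.Lib.MP_7f377f_mp.G.Q4XiJ
import Pool.Agent.Lib.MP_7f377f_mp.Q4Det

/-! The one loop determinant of the Wilson action in a constant abelian flux. -/

noncomputable section

namespace Pool.Agent.Lib.MP_7f377f_mp.RG.Q4
variable [GD]

open Finset Matrix

namespace Xi

variable {N : Fin 4 → ℕ} [∀ i, NeZero (N i)] {F : ℝ} {θ : Lk → Ang}

def e4 {G : Type} : (G ⊕ G) ⊕ G ⊕ G → G × Fin 4 :=
  Sum.elim (Sum.elim (·, 0) (·, 1)) (Sum.elim (·, 2) (·, 3))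

def gL {G : Type} : (G × Fin 4) × Neu ⊕ (((G ⊕ G) ⊕ G ⊕ G) × Chg) × Fin 2 → (G × Fin 4) × Fin GD.d :=
  Sum.elim (fun p => (p.1, p.2)) fun p => (e4 p.1.1, dIx (.inr (p.1.2, p.2)))

theorem gL_bij {G : Type} : (gL (G := G)).Bijective := by
  have e : (e4 (G := G)).Bijective := Function.bijective_iff_has_inverse.2 ⟨fun p =>
    ![.inl (.inl p.1), .inl (.inr p.1), .inr (.inl p.1), .inr (.inr p.1)] p.2,
    by rintro ((x | x) | x | x) <;> rfl, by rintro ⟨x, μ⟩; fin_cases μ <;> rfl⟩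
  convert (Function.bijective_id.prodMap dIx_bij).comp ((Equiv.prodSumDistrib _ _ _).symm.bijective.comp
    (Function.bijective_id.sumMap ((Equiv.prodAssoc _ _ _).bijective.comp
      ((e.prodMap Function.bijective_id).prodMap Function.bijective_id))))
  funext p
  cases p <;> rfl

theorem q_dIx (p : Chg × Fin 2) : GD.q (dIx (.inr p)) ≠ 0 := fun h => by
  cases dIx_bij.1 (a₁ := .inr p) (a₂ := .inl ⟨_, h⟩) rfl

def gG : ({x : TS N // x ≠ 0} ⊕ Fin 4) × Neu ⊕ (TS N × Chg) × Fin 2 → IG N :=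
  Sum.elim (fun p => Sum.map (fun x => ⟨(x.1, p.2), fun h => x.2 h.1⟩) (·, p.2) p.1)
    fun p => .inl ⟨(p.1.1, dIx (.inr (p.1.2, p.2))), fun h => q_dIx _ h.2⟩

omit [∀ i, NeZero (N i)] in
theorem gG_bij : (gG (N := N)).Bijective := by
  have i : ∀ (k : Neu) p, ¬dIx (.inr p) = k ∧ ¬k = dIx (.inr p) := fun k p =>
    ⟨fun h => q_dIx p (h ▸ k.2), fun h => q_dIx p (h ▸ k.2)⟩
  constructor
  · rintro (⟨x | x, k⟩ | ⟨⟨x, k⟩, j⟩) (⟨y | y, l⟩ | ⟨⟨y, l⟩, m⟩) <;>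
      simp +contextual [gG, Subtype.ext_iff, dIx_bij.1.eq_iff, i]
  · rintro (⟨⟨x, k⟩, h⟩ | ⟨μ, k⟩)
    · obtain ⟨k | ⟨k, j⟩, rfl⟩ := dIx_bij.2 k
      · exact ⟨.inl (.inl ⟨x, fun e => h ⟨e, k.2⟩⟩, k), rfl⟩
      · exact ⟨.inr ((x, k), j), rfl⟩
    · exact ⟨.inl (.inr μ, k), rfl⟩

/-- the neutral part of the Faddeev-Popov form -/
def nG (y : ({x : TS N // x ≠ 0} ⊕ Fin 4) × Neu → ℝ) : ℝ :=
  let g := fun x k => if h : x ≠ 0 then y (.inl ⟨x, h⟩, k) else 0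
  ∑ x, ∑ μ, ∑ k, (g x k - g (x + Pi.single μ 1) k + y (.inr μ, k)) ^ 2

theorem fp_det (θ : Lk → Ang) :
    ∃ B : Matrix _ _ ℝ, B.IsSymm ∧ (∀ y, y ⬝ᵥ B *ᵥ y = nG (N := N) y) ∧
    ((Dm N (ab θ))ᵀ * Dm N (ab θ)).det =
      B.det * (∏ k : Chg, ‖(Lap (TT (GD.q k) N θ)).det‖) ^ 2 := by
  rw [← norm_prod, ← det_blockDiagonal]
  refine split_det (gG (N := N)) gG_bij (transpose_mul _ _) (herm_block fun k => Lap_herm _)
    fun v z hz => ?_
  have e : ∀ (k : Chg) x, Gp.cz k (gl v x) = z (x, k) := fun k x => by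
    rw [hz]; simp [Gp.cz, gl, gG, dIx, GD.q_tau, k.2.ne']
  have e0 : ∀ x (k : Neu), gl v x k = if h : x ≠ 0 then v (gG (.inl (.inl ⟨x, h⟩, k))) else 0 :=
    fun x k => by by_cases h : x = 0 <;> simp [gl, gG, h, k.2]
  rw [← mulVec_mulVec, dotProduct_mulVec, vecMul_transpose, Dm_mulVec, ip_block, Complex.re_sum]
  simp only [Lap, sum_mulVec, ip, dotProduct_sum, Complex.re_sum]
  simp only [← ip.eq_1, ← mulVec_mulVec, ← ip_mulVec, ip_self]
  simp only [dotProduct, ← sq, Fintype.sum_prod_type, nG]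
  rw [sum_comm (γ := Chg), sum_congr rfl fun μ _ => sum_comm (γ := Chg), sum_comm (γ := Fin 4),
    ← sum_add_distrib]
  refine sum_congr rfl fun x _ => ?_
  rw [← sum_add_distrib]
  refine sum_congr rfl fun μ _ => ?_
  rw [sq3 fun k => DL N (ab θ) v ((x, μ), k)]
  refine congrArg₂ _ (sum_congr rfl fun k _ => ?_) (sum_congr rfl fun k _ => ?_)
  · rw [Gp.DL_zero, e0, e0]; rfl
  · rw [Gp.DL_cx, e, e, norm_sub_rev, sub_mulVec, one_mulVec, Pi.sub_apply, TT,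
      ws_mulVec]

/-- pairing of a neutral field with a gauge direction -/
def nn (y : (TS N × Fin 4) × Neu → ℝ) (v : IG N → ℝ) : ℝ :=
  ∑ x, ∑ μ, ∑ k, y ((x, μ), k) * (gl v x k - gl v (x + Pi.single μ 1) k + v (.inr (μ, k)))

/-- the charged field -/
def al (k : Chg) (a : IL N → ℝ) (μ : Fin 4) (x : TS N) : ℂ := Gp.cz k (av a x μ)

theorem pair (θ : Lk → Ang) (a : IL N → ℝ) (v : IG N → ℝ) :
    v ⬝ᵥ (Dm N (ab θ))ᵀ *ᵥ a = nn (fun i => a (i.1, i.2)) v + ∑ k : Chg,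
      (ip (∑ μ, (al k a μ - (TT (GD.q k) N θ μ).1ᴴ *ᵥ al k a μ)) fun x => Gp.cz k (gl v x)).re := by
  rw [dotProduct_mulVec, vecMul_transpose, Dm_mulVec]
  simp only [ip, star_sum, sum_dotProduct, Complex.re_sum]
  simp only [star_sub, sub_dotProduct, ← ip.eq_1, ip_mulVec, conjTranspose_conjTranspose]
  simp only [ip, dotProduct, ← sum_sub_distrib, Complex.re_sum, Fintype.sum_prod_type, nn]
  rw [sum_comm (γ := Chg), sum_congr rfl fun μ _ => sum_comm (γ := Chg), sum_comm (γ := Fin 4),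
    ← sum_add_distrib]
  refine sum_congr rfl fun x _ => ?_
  rw [← sum_add_distrib]
  refine sum_congr rfl fun μ _ => ?_
  rw [sum_dIx]
  refine congrArg₂ _ (sum_congr rfl fun k _ => ?_) (sum_congr rfl fun k _ => ?_)
  · rw [Gp.DL_zero, mul_comm]
  · rw [← mul_sub, TT, ws_mulVec, ← Gp.DL_cx]
    simp [al, av, Gp.cz]
    ring

theorem comp_cz {u : IG N → ℝ} {y : (TS N × Fin 4) × Neu → ℝ} {w : Chg → TS N → ℂ}
    (h : ∀ v, v ⬝ᵥ u = nn y v + ∑ k : Chg, (ip (w k) fun x => Gp.cz k (gl v x)).re) (k : Chg)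
    (x : TS N) : Gp.cz k (gl u x) = w k x := by
  have i : ∀ (k : Neu) p, ¬k = dIx (.inr p) := fun k p h => q_dIx p (h ▸ k.2)
  have c : ∀ k v, Gp.cz k.1 v = ⟨v (dIx (.inr (k, 0))), v (dIx (.inr (k, 1)))⟩ := fun _ _ => rfl
  have a := fun j => h (Pi.single (.inl ⟨(x, dIx (.inr (k, j))), fun h => q_dIx _ h.2⟩) 1)
  simp only [single_dotProduct, one_mul] at a
  simp [c, gl, q_dIx, a, nn, i, ip, dotProduct, Pi.single_apply, dIx_bij.1.eq_iff, ite_and]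

/-- the divergence of a neutral field -/
def dv (y : (TS N × Fin 4) × Neu → ℝ) : IG N → ℝ :=
  (Dm N (ab 0))ᵀ *ᵥ fun i => if h : GD.q i.2 = 0 then y (i.1, ⟨_, h⟩) else 0

theorem dv_pair (y : (TS N × Fin 4) × Neu → ℝ) (v : IG N → ℝ) : v ⬝ᵥ dv y = nn y v := by
  have : ∀ k μ, al k (fun i : IL N => if h : GD.q i.2 = 0 then y (i.1, ⟨_, h⟩) else 0) μ = 0 :=
    fun k μ => by funext x; simp [al, av, Gp.cz, Complex.ext_iff, GD.q_tau, k.2.ne']
  have e : ∀ i : (TS N × Fin 4) × Neu, GD.q i.2 = 0 := fun i => i.2.2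
  simp [dv, pair, this, ip, e]

/-- the neutral part of the gauge fixed Hessian -/
def nL (y : (TS N × Fin 4) × Neu → ℝ) : ℝ := (∑ x, ∑ μ, ∑ ν, if μ < ν then ∑ k,
  (y ((x, μ), k) + y ((x + Pi.single μ 1, ν), k) - y ((x + Pi.single ν 1, μ), k) -
    y ((x, ν), k)) ^ 2 else 0) + dv y ⬝ᵥ dv y

theorem hess_mod (hh : ∀ k : Chg, Heis (ph (2 * Fk F k)) (TT (GD.q k) N θ)) (a : IL N → ℝ)
    (z : _ × Chg → ℂ) (hz : ∀ i, z i = ⟨a (gL (.inr (i, 0))), a (gL (.inr (i, 1)))⟩) :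
    PS F θ a qq + a ⬝ᵥ (Dm N (ab θ) * (Dm N (ab θ))ᵀ) *ᵥ a = nL (fun i => a (gL (.inl i))) +
      (ip z ((blockDiagonal fun k : Chg => M4 (Fk F k) (TT (GD.q k) N θ)) *ᵥ z)).re := by
  have p := pair θ a
  have e1 := p ((Dm N (ab θ))ᵀ *ᵥ a)
  have e2 := p (dv fun i => a (i.1, i.2))
  simp only [comp_cz p] at e1
  simp only [comp_cz (u := dv fun i => a (i.1, i.2)) (y := fun i => a (i.1, i.2)) (w := 0)
    fun v => by simp [dv_pair, ip]] at e2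
  rw [← dv_pair, dotProduct_comm _ (dv _), e2, ← dv_pair] at e1
  rw [← mulVec_mulVec, dotProduct_mulVec a (Dm _ _), ← mulVec_transpose, e1, ip_block,
    sum_congr rfl fun k _ => weitz (hh k) (al k a) _ (funext fun i => by
      rw [hz]; rcases i with (x | x) | x | x <;> rfl), nL, PS]
  have t : ∀ (k : Chg) x μ ν, ((TT (GD.q k) N θ μ).1 *ᵥ al k a ν) x = Gp.cz k (tv θ a x μ ν) :=
    fun k x μ ν => by rw [TT, ws_mulVec, tv, Gp.Rm_cx]; rfl
  have c : ∀ (k : Chg) x μ ν, crl (TT (GD.q k) N θ) (al k a) μ ν x =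
      Gp.cz k (av a x μ + tv θ a x μ ν - tv θ a x ν μ - av a x ν) := fun k x μ ν => by
    simp only [crl, Pi.add_apply, Pi.sub_apply, t]; rfl
  have t0 : ∀ x μ ν (k : Neu), tv θ a x μ ν k = a ((x + Pi.single μ 1, ν), k) := fun x μ ν k =>
    Gp.Rm_zero _ _ k.2
  have g : ∀ S D z W S' R : ℝ, z = 0 → S = S' + R → S + (D + z + W) = S' + D + (R + W) := by
    intro S D z W S' R h1 h2; rw [h1, h2]; ring
  rw [sum_add_distrib, Complex.add_re, Complex.re_sum, Complex.re_sum]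
  refine g _ _ _ _ _ _ (by simp [ip]) ?_
  simp only [Complex.add_re, Complex.re_ofReal_mul, Complex.sub_re, ip_im, ip_self, c, qq]
  simp only [mul_sum, ← sum_add_distrib, ← sum_sub_distrib]
  rw [sum_comm (γ := Chg), ← sum_add_distrib]
  refine sum_congr rfl fun x _ => ?_
  have z0 : ∀ k, Fk 0 k = 0 := fun k => by simp [Fk]
  simp [Fin.sum_univ_four, kF, t, t0, gL, im2, al, Gp.cz, av, z0]
  simp only [sum_add_distrib]
  ring

theorem nL_nonneg (y : (TS N × Fin 4) × Neu → ℝ) : 0 ≤ nL y :=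
  add_nonneg (by positivity) (dot_nonneg _)

theorem nL_pos {y : (TS N × Fin 4) × Neu → ℝ} (hy : y ≠ 0) : 0 < nL y := by
  have p : ∀ x μ ν, 0 ≤ if μ < ν then ∑ k, (y ((x, μ), k) + y ((x + Pi.single μ 1, ν), k) -
      y ((x + Pi.single ν 1, μ), k) - y ((x, ν), k)) ^ 2 else 0 := fun x μ ν => by positivity
  have p1 := fun x μ => sum_nonneg fun ν (_ : ν ∈ univ) => p x μ ν
  have p2 := fun x => sum_nonneg fun μ (_ : μ ∈ univ) => p1 x μ
  have p3 := sum_nonneg fun x (_ : x ∈ univ) => p2 x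
  have p4 := dot_nonneg (dv y)
  refine lt_of_le_of_ne (add_nonneg p3 p4) fun h => hy (funext fun ⟨i, k⟩ => ?_)
  obtain ⟨h1, h2⟩ := (add_eq_zero_iff_of_nonneg p3 p4).1 h.symm
  have c : ∀ x μ ν, μ < ν → y ((x, μ), k) + y ((x + Pi.single μ 1, ν), k) -
      y ((x + Pi.single ν 1, μ), k) - y ((x, ν), k) = 0 := fun x μ ν hμ => by
    have := (sum_eq_zero_iff_of_nonneg fun ν _ => p x μ ν).1 ((sum_eq_zero_iff_of_nonneg
      fun μ _ => p1 x μ).1 ((sum_eq_zero_iff_of_nonneg fun x _ => p2 x).1 h1 x (mem_univ _)) μ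
      (mem_univ _)) ν (mem_univ _)
    rw [if_pos hμ, sum_eq_zero_iff_of_nonneg fun _ _ => sq_nonneg _] at this
    exact pow_eq_zero_iff two_ne_zero |>.1 (this k (mem_univ _))
  have c' : ∀ x μ ν, y ((x, μ), k) + y ((x + Pi.single μ 1, ν), k) -
      y ((x + Pi.single ν 1, μ), k) - y ((x, ν), k) = 0 := fun x μ ν => by
    rcases lt_trichotomy μ ν with h | rfl | h
    · exact c x μ ν h
    · ring
    · linarith [c x ν μ h]
  have := Gp.neutral_le (fun μ => (Pi.single μ 1 : TS N)) (Gp.conn (n := ∑ μ, N μ) fun μ =>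
    single_le_sum (fun _ _ => Nat.zero_le _) (mem_univ μ)) (fun x μ => y ((x, μ), k)) fun f t => by
      have := dv_pair y (Sum.elim (fun p => if p.1.2 = k then f p.1.1 - f 0 else 0)
        fun p => if p.2 = k then t p.1 else 0)
      have e : ∀ x (j : Neu), gl (Sum.elim (fun p => if p.1.2 = k then f p.1.1 - f 0 else 0)
          fun p => if p.2 = k then t p.1 else 0 : IG N → ℝ) x j =
          if j = k then f x - f 0 else 0 := fun x j => by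
        by_cases h : x = 0 <;> simp [gl, h, j.2, Subtype.ext_iff]
      rw [dotProduct_self_eq_zero.1 h2, dotProduct_zero] at this
      simp only [nn, e, Sum.elim_inr, ite_sub_ite, ite_add_ite] at this
      simpa [mul_comm] using this.symm
  simp only [c', ne_eq, OfNat.ofNat_ne_zero, not_false_eq_true, zero_pow, sum_const_zero,
    mul_zero, ← Fintype.sum_prod_type' fun x μ => y ((x, μ), k) ^ 2] at this
  exact pow_eq_zero_iff two_ne_zero |>.1 (le_antisymm ((single_le_sum (f := fun i => y (i, k) ^ 2)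
    (fun _ _ => sq_nonneg _) (mem_univ i)).trans this) (sq_nonneg _))

theorem qq_cmp {κ f : ℝ} (h : |κ| ≤ f) (u1 u2 u3 u4 : Fin GD.d → ℝ) :
    (1 - f ^ 2 / 2) * qc u1 u2 u3 u4 ≤ 1 * qq κ u1 u2 u3 u4 + 3 * f * qu u1 u2 u3 u4 := by
  rw [qc, sq3, qq, qu, mul_add, one_mul, add_assoc, mul_sum, mul_sum, mul_sum, ← sum_add_distrib]
  refine add_le_add (sum_le_sum fun k _ => mul_le_of_le_one_left (sq_nonneg _) (by nlinarith))
    (sum_le_sum fun k _ => ?_)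
  have a := (abs_Fk κ k).trans h
  have b := mul_le_mul (Real.abs_sin_le_abs.trans a) (im_le k u1 u2 u3 u4) (abs_nonneg _)
    ((abs_nonneg _).trans h)
  have c : 1 - f ^ 2 / 2 ≤ Real.cos (Fk κ k) := by
    nlinarith [Real.one_sub_sq_div_two_le_cos (x := Fk κ k), sq_abs (Fk κ k), abs_nonneg (Fk κ k)]
  rw [← abs_mul] at b
  linarith [(abs_le.1 b).1, mul_le_mul_of_nonneg_right c (sq_nonneg ‖Gp.cz k (u1 + u2 - u3 - u4)‖)]

theorem PS_qu (F : ℝ) (θ : Lk → Ang) (a : IL N → ℝ) : PS F θ a (fun _ => qu) ≤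
    16 * ∑ k : Chg, ∑ μ, (ip (al k a μ) (al k a μ)).re := by
  have t : ∀ (k : Chg) x μ ν, ‖Gp.cz k (tv θ a x μ ν)‖ = ‖al k a ν (x + Pi.single μ 1)‖ :=
    fun k x μ ν => by rw [tv, Gp.Rm_cx, norm_mul, Gp.norm_ph, one_mul, al]
  refine (sum_le_sum fun x _ => sum_le_sum fun μ _ => sum_le_sum fun ν _ => (show _ ≤
    qu (av a x μ) (tv θ a x μ ν) (tv θ a x ν μ) (av a x ν) by
      split_ifs; exacts [le_rfl, by unfold qu; positivity])).trans (le_of_eq ?_)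
  simp only [qu, t, ← al.eq_1, ip_self, Fin.sum_univ_four, sum_add_distrib, sum_comm (γ := Chg),
    fun ν => Gp.sum_sh fun x => ∑ k, ‖al k a ν x‖ ^ 2]
  ring

open Q4 renaming NN → N4 in
theorem hess_det {n1 n2 : ℕ} [NeZero n1] [NeZero n2] (h : Bg (N4 n1 n2) F θ)
    (hF : |F| * n2 ^ 2 ≤ 1 / 10) {Q : Matrix _ _ ℝ} {C ρ : ℝ} (hρ : 0 < ρ)
    (hQ : Tay (Q4.SS (N4 n1 n2) wc (ab θ)) Q C ρ) {B : Matrix _ _ ℝ} (hB : B.IsSymm)
    (hy : ∀ y, y ⬝ᵥ B *ᵥ y = nL (N := N4 n1 n2) y) :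
    0 < B.det * (∏ k : Chg, ‖(M4 (Fk F k) (TT (GD.q k) (N4 n1 n2) θ)).det‖) ^ 2 ∧
    0 < (Q + Dm (N4 n1 n2) (ab θ) * (Dm (N4 n1 n2) (ab θ))ᵀ).det ∧
    |Real.log (Q + Dm (N4 n1 n2) (ab θ) * (Dm (N4 n1 n2) (ab θ))ᵀ).det - Real.log (B.det *
      (∏ k : Chg, ‖(M4 (Fk F k) (TT (GD.q k) (N4 n1 n2) θ)).det‖) ^ 2)| ≤
      2 * (50 * F ^ 2) * Fintype.card (IL (N4 n1 n2)) := by
  obtain ⟨A, s, d, f⟩ := split_mod (gL (G := TS (N4 n1 n2))) gL_bij hB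
    (herm_block fun k : Chg => M4_herm (Fk F k) (TT (GD.q k) (N4 n1 n2) θ))
  have h2 := NeZero.pos n2
  have hv : (1 : ℝ) ≤ n2 ^ 2 := one_le_pow₀ (by exact_mod_cast h2)
  have F0 := abs_nonneg F
  have F1 : |F| ≤ 1 / 10 := (le_mul_of_one_le_right F0 hv).trans hF
  have key : ∀ a, (a ≠ 0 → 0 < a ⬝ᵥ A *ᵥ a) ∧ |a ⬝ᵥ (Q + Dm (N4 n1 n2) (ab θ) * (Dm (N4 n1 n2) (ab θ))ᵀ) *ᵥ a -
      a ⬝ᵥ A *ᵥ a| ≤ 50 * F ^ 2 * (a ⬝ᵥ A *ᵥ a) := fun a => by
    have m := hess_mod (fun k => letI := twk k; (mag_TT h k).heis) a _ fun _ => rfl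
    have m1 := f a _ fun _ => rfl
    have e := hess h (by linarith) hρ hQ a
    have g := sum_le_sum fun (k : Chg) (_ : k ∈ univ) => letI := twk k; (mag_TT h k).gap4 h2
      ((mul_le_mul_of_nonneg_right (abs_Fk F k) (by positivity)).trans hF) (al k a)
      (fun i => ⟨a (gL (.inr ((i, k), 0))), a (gL (.inr ((i, k), 1)))⟩)
      (funext fun i => by rcases i with (x | x) | x | x <;> rfl)
    have u := PS_qu F θ a
    have c := PS_le (F := F) (θ := θ) (a := a) fun κ u1 u2 u3 u4 h => qq_cmp h u1 u2 u3 u4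
    have u0 : 0 ≤ PS F θ a fun _ => qu := PS_nonneg fun _ _ _ _ _ => by unfold qu; positivity
    have n0 := nL_nonneg fun i => a (gL (.inl i))
    have d0 : 0 ≤ a ⬝ᵥ (Dm (N4 n1 n2) (ab θ) * (Dm (N4 n1 n2) (ab θ))ᵀ) *ᵥ a := by
      rw [← mulVec_mulVec, dotProduct_mulVec, ← mulVec_transpose]; exact dot_nonneg _
    rw [PS_lin, PS_mul] at c
    rw [hy, ip_block, Complex.re_sum] at m1
    rw [ip_block, Complex.re_sum, ← m1] at m
    rw [← mul_sum, ← sub_eq_of_eq_add' m1] at g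
    have p0 : ∀ k μ, 0 ≤ (ip (al k a μ) (al k a μ)).re := fun k μ => by rw [ip_self]; positivity
    have p1 := fun k => sum_nonneg fun μ (_ : μ ∈ univ) => p0 k μ
    have p2 := sum_nonneg fun k (_ : k ∈ univ) => p1 k
    have m0 : nL (fun i => a (gL (.inl i))) ≤ a ⬝ᵥ A *ᵥ a := by nlinarith
    refine ⟨fun ha => ?_, ?_⟩
    · by_contra! hc
      have e1 : (fun i => a (gL (.inl i))) = 0 := by_contra fun e => by linarith [nL_pos e]
      have e2 := (sum_eq_zero_iff_of_nonneg fun k _ => p1 k).1 (le_antisymm (by nlinarith) p2)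
      refine ha (funext fun ⟨⟨x, μ⟩, j⟩ => ?_)
      obtain ⟨k | ⟨k, j⟩, rfl⟩ := dIx_bij.2 j
      · exact congrFun e1 ((x, μ), k)
      · have := (sum_eq_zero_iff_of_nonneg fun μ _ => p0 k μ).1 (e2 k (mem_univ _)) μ (mem_univ _)
        rw [ip_self, sum_eq_zero_iff_of_nonneg fun _ _ => sq_nonneg _] at this
        have := norm_eq_zero.1 (pow_eq_zero_iff two_ne_zero |>.1 (this x (mem_univ _)))
        fin_cases j
        exacts [congrArg Complex.re this, congrArg Complex.im this]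
    · rw [add_mulVec, dotProduct_add, ← m, add_sub_add_right_eq_sub, m]
      refine e.trans ?_
      generalize a ⬝ᵥ A *ᵥ a = M at *
      generalize PS F θ a (fun _ => qu) = U at *
      generalize PS F θ a (fun _ => qc) = S at *
      have a1 : |F| * U ≤ 2 * M := by
        have := mul_le_mul_of_nonneg_left (u.trans (mul_le_mul_of_nonneg_left (g.trans
          (mul_le_mul_of_nonneg_left (sub_le_self M n0) (by positivity))) (by norm_num))) F0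
        nlinarith
      have a2 : S ≤ 8 * M := by
        refine le_of_mul_le_mul_left (a := 1 - |F| ^ 2 / 2) (c.trans ?_) (by nlinarith)
        nlinarith [mul_le_mul_of_nonneg_left (show |F| ^ 2 ≤ 1 / 100 by nlinarith) (n0.trans m0)]
      rw [pow_succ |F|, sq_abs]
      nlinarith [mul_le_mul_of_nonneg_left a1 (sq_nonneg F), mul_le_mul_of_nonneg_left a2 (sq_nonneg F),
        mul_nonneg (sq_nonneg F) (n0.trans m0)]
  rw [← norm_prod, ← det_blockDiagonal, ← d]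
  exact logdet_rel' (A2 := Q + Dm (N4 n1 n2) (ab θ) * (Dm (N4 n1 n2) (ab θ))ᵀ) s (hQ.1.add (transpose_mul _ _))
    (fun a => (key a).1) (by nlinarith [sq_abs F])
    (fun a => by linarith [(abs_le.1 (key a).2).1]) fun a => by linarith [(abs_le.1 (key a).2).2]

theorem exists_nL (h : Bg N 0 θ) (hh : ∀ k : Chg, Heis (ph (2 * Fk 0 k)) (TT (GD.q k) N θ))
    {Q : Matrix (IL N) (IL N) ℝ} {C ρ : ℝ} (hρ : 0 < ρ) (hQ : Tay (Q4.SS N wc (ab θ)) Q C ρ) :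
    ∃ B : Matrix _ _ ℝ, B.IsSymm ∧ ∀ y, y ⬝ᵥ B *ᵥ y = nL (N := N) y := by
  obtain ⟨B, s, f, -⟩ := split_det (gL (G := TS N)) gL_bij (A := Q + Dm N (ab θ) * (Dm N (ab θ))ᵀ)
    (hQ.1.add (transpose_mul _ _)) (herm_block fun k : Chg => M4_herm (Fk 0 k) (TT (GD.q k) N θ))
    (n := nL) fun a z hz => by
      have := hess h (by simp) hρ hQ a
      rw [← hess_mod hh a z hz, add_mulVec, dotProduct_add]
      simpa [sub_eq_zero] using this
  exact ⟨B, s, f⟩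

theorem lk_eq (h : Bg N F θ) {Q : Matrix (IL N) (IL N) ℝ} {b g : ℝ}
    (hM : ∀ k : Chg, (MB (Fk F k) (TT (GD.q k) N θ)).det ≠ 0)
    (h0 : 0 < b * (∏ k : Chg, ‖(M4 (Fk F k) (TT (GD.q k) N θ)).det‖) ^ 2)
    (h1 : 0 < (Q + Dm N (ab θ) * (Dm N (ab θ))ᵀ).det)
    (h2 : ((Dm N (ab θ))ᵀ * Dm N (ab θ)).det =
      g * (∏ k : Chg, ‖(Lap (TT (GD.q k) N θ)).det‖) ^ 2) :
    lk Q (Dm N (ab θ)) = 2⁻¹ * (Real.log (Q + Dm N (ab θ) * (Dm N (ab θ))ᵀ).det -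
      Real.log (b * (∏ k : Chg, ‖(M4 (Fk F k) (TT (GD.q k) N θ)).det‖) ^ 2)) + 2⁻¹ * Real.log b +
      ∑ k : Chg, ld (MB (Fk F k) (TT (GD.q k) N θ)) - Real.log g := by
  have d : ((Dm N (ab θ))ᵀ * Dm N (ab θ)).det ≠ 0 := fun h0 => by
    obtain ⟨v, v0, hv⟩ := exists_mulVec_eq_zero_iff.2 h0
    have := congrArg (v ⬝ᵥ ·) hv
    simp only [← mulVec_mulVec, dotProduct_zero] at this
    rw [dotProduct_mulVec, vecMul_transpose, dotProduct_self_eq_zero, Dm_mulVec] at this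
    exact v0 (DL_inj h v this)
  rw [lk, Real.log_div h1.ne' (pow_ne_zero _ d), Real.log_pow,
    Real.log_mul (left_ne_zero_of_mul h0.ne') (right_ne_zero_of_mul h0.ne'), Real.log_pow]
  rw [h2] at d ⊢
  have l0 : ∏ k : Chg, ‖(Lap (TT (GD.q k) N θ)).det‖ ≠ 0 := fun e => by simp [e] at d
  simp only [M4, det_fromBlocks_zero₂₁, norm_mul, prod_mul_distrib, ld]
  have m0 := prod_ne_zero_iff.2 fun k (_ : k ∈ univ) => norm_ne_zero_iff.2 (hM k)
  rw [Real.log_mul (left_ne_zero_of_mul d) (right_ne_zero_of_mul d), Real.log_pow,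
    Real.log_mul m0 (mul_ne_zero l0 l0), Real.log_mul l0 l0,
    Real.log_prod fun k _ => norm_ne_zero_iff.2 (hM k)]
  push_cast; ring

theorem sum_Fk (F : ℝ) : ∑ k : Chg, Fk F k ^ 2 = (∑ k, (GD.q k / GD.hh) ^ 2) / 8 * F ^ 2 := by
  rw [sum_dIx, sum_eq_zero fun (k : Neu) _ => by simp [k.2], zero_add, sum_div, sum_mul]
  exact sum_congr rfl fun k _ => by rw [GD.q_tau, Fk]; push_cast; ring

end Xi

open Xi in
/-- the one loop coefficient -/
theorem xi_main (ε : ℝ) (hε : 0 < ε) : ∃ N0 : ℕ, ∀ (n1 n2 : ℕ) [NeZero n1] [NeZero n2], N0 ≤ n2 →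
    n2 ≤ n1 → n2 * Real.log n1 ^ 2 ≤ n1 → ∀ (F : ℝ) (θ θ0 : Lk → Ang),
    |F| * (n1 : ℝ) ^ 2 ≤ 7 * GD.hh → Bg (NN n1 n2) F θ → Bg (NN n1 n2) 0 θ0 →
    ∀ (Q Q0 : Matrix (IL (NN n1 n2)) (IL (NN n1 n2)) ℝ) (C ρ C0 ρ0 : ℝ), 0 < ρ → 0 < ρ0 →
    Tay (SS (NN n1 n2) wc (ab θ)) Q C ρ → Tay (SS (NN n1 n2) wc (ab θ0)) Q0 C0 ρ0 →
    |lk Q (Dm (NN n1 n2) (ab θ)) - lk Q0 (Dm (NN n1 n2) (ab θ0)) +
      11 * (∑ k, (GD.q k / GD.hh) ^ 2) / (48 * Real.pi ^ 2) * F ^ 2 *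
        ((n1 : ℝ) ^ 2 * (n2 : ℝ) ^ 2) * Real.log n2| ≤
      ε * (((n1 : ℝ) ^ 2)⁻¹ ^ 2 * ((n1 : ℝ) ^ 2 * (n2 : ℝ) ^ 2) * Real.log n2) := by
  have h1 := GD.hh1
  obtain ⟨η, η0, η1, η2⟩ : ∃ η : ℝ, 0 < η ∧ 70 * GD.hh * η ≤ 1 ∧
      10000 * GD.d * GD.hh ^ 2 * η ≤ ε := by
    have p : 1 ≤ (GD.d + 1) * GD.hh := one_le_mul_of_one_le_of_one_le (by simp) h1
    refine ⟨min ε 1 / (10000 * (GD.d + 1) * GD.hh ^ 2), by positivity, ?_, ?_⟩ <;>
      rw [← mul_div_assoc, div_le_iff₀ (by positivity)]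
    · nlinarith [min_le_right ε 1, mul_le_mul_of_nonneg_left p hh_pos.le]
    · rw [mul_comm ε]; gcongr; exacts [by simp, min_le_left _ _]
  choose N0 hN using fun k : Chg => @vec_main (twk k) η η0
  obtain ⟨M, hM⟩ := exists_nat_ge (Real.exp η⁻¹)
  refine ⟨max (univ.sup N0) M, fun n1 n2 _ _ h0 h21 hl F θ θ0 hF h h' Q Q0 C ρ C0 ρ0 hρ hρ0 hQ
    hQ0 => ?_⟩
  have hv := fun k => (hN k n1 n2 ((le_sup (mem_univ k)).trans (le_of_max_le_left h0)) h21 hl).2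
  have v0 : (0 : ℝ) < n2 := by exact_mod_cast NeZero.pos n2
  have vu : (n2 : ℝ) ≤ n1 := by exact_mod_cast h21
  have u0 : (0 : ℝ) < n1 := by linarith
  have l1 : 1 ≤ η * Real.log n2 := by
    rw [← inv_le_iff_one_le_mul₀' η0, Real.le_log_iff_exp_le v0]
    exact hM.trans (by exact_mod_cast le_of_max_le_right h0)
  have l0 : 0 < Real.log n2 := pos_of_mul_pos_right (one_pos.trans_le l1) η0.le
  have l2 : 70 * GD.hh ≤ Real.log n2 := by
    nlinarith [mul_le_mul_of_nonneg_left l1 (by positivity : 0 ≤ 70 * GD.hh)]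
  have l3 := Real.log_le_log v0 vu
  have F1 : |F| * n2 ^ 2 ≤ 1 / 10 := by
    have : (n2 : ℝ) ^ 2 * Real.log n1 ^ 4 ≤ n1 ^ 2 := by
      rw [show (n2 : ℝ) ^ 2 * Real.log n1 ^ 4 = (n2 * Real.log n1 ^ 2) ^ 2 by ring]; gcongr
    have l4 : Real.log n2 ≤ Real.log n1 ^ 4 := l3.trans (le_self_pow₀ (by linarith) (by norm_num))
    refine le_of_mul_le_mul_right ?_ (l0.trans_le l4)
    nlinarith [mul_le_mul_of_nonneg_left this (abs_nonneg F)]
  have Fq : ∀ k : Chg, |Fk F k| * (n1 : ℝ) ^ 2 ≤ 7 := fun k => by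
    have a : |(GD.q k : ℝ)| ≤ 2 := by exact_mod_cast GD.q_le k
    rw [Fk, abs_div, abs_mul, abs_div, abs_two, abs_of_pos hh_pos, div_mul_eq_mul_div,
      div_le_iff₀ two_pos, mul_assoc, div_mul_eq_mul_div, div_le_iff₀ hh_pos]
    nlinarith [mul_le_mul a hF (by positivity) zero_le_two]
  have z0 : ∀ k, Fk 0 k = 0 := fun k => by simp [Fk]
  have v1 := fun k => hv k _ (Fq k) _ _ (mag_TT h k)
  have v2 := fun k => hv k (Fk 0 k) (by simp [z0]) _ _ (mag_TT h' k)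
  obtain ⟨B, s1, f1⟩ := exists_nL h' (fun k => letI := twk k; (mag_TT h' k).heis) hρ0 hQ0
  obtain ⟨p1, p2, p3⟩ := hess_det h F1 hρ hQ s1 f1
  obtain ⟨q1, q2, q3⟩ := hess_det h' (by simp) hρ0 hQ0 s1 f1
  obtain ⟨G, s3, f3, e3⟩ := fp_det (N := NN n1 n2) θ
  obtain ⟨G0, s4, f4, e4⟩ := fp_det (N := NN n1 n2) θ0
  obtain rfl := symm_ext s3 s4 fun y => (f3 y).trans (f4 y).symm
  have F2 : F ^ 2 ≤ 49 * GD.hh ^ 2 * ((n1 : ℝ) ^ 4)⁻¹ := by
    rw [← div_eq_mul_inv, le_div_iff₀ (by positivity), ← sq_abs]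
    nlinarith [mul_nonneg (abs_nonneg F) (sq_nonneg (n1 : ℝ))]
  have c : (Fintype.card (TS (NN n1 n2)) : ℝ) = (n1 : ℝ) ^ 2 * (n2 : ℝ) ^ 2 := by
    rw [Fintype.card_pi, prod_congr rfl fun i _ => ZMod.card (NN n1 n2 i)]
    simp [Fin.prod_univ_four, NN]; ring
  rw [Fintype.card_prod, Fintype.card_prod, Fintype.card_fin, Fintype.card_fin, Nat.cast_mul,
    Nat.cast_mul, c] at p3 q3
  simp only [c, div_eq_mul_inv _ ((n1 : ℝ) ^ 4)] at v1 v2
  rw [lk_eq h (fun k => (v1 k).1) p1 p2 e3, lk_eq h' (fun k => (v2 k).1) q1 q2 e4, inv_pow,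
    ← pow_mul]
  set V := (n1 : ℝ) ^ 2 * (n2 : ℝ) ^ 2
  set w := ((n1 : ℝ) ^ 4)⁻¹
  have v3 := abs_sum_le (c := 2 * (η * (V * Real.log n2 * w))) fun k =>
    (abs_sub _ _).trans ((add_le_add (v1 k).2 (v2 k).2).trans_eq (two_mul _).symm)
  have c2 : (Fintype.card Chg : ℝ) ≤ GD.d := by
    exact_mod_cast (Fintype.card_subtype_le _).trans_eq (Fintype.card_fin _)
  replace v3 := v3.trans (mul_le_mul_of_nonneg_right c2 (by positivity))
  simp only [mul_sub, sum_sub_distrib, mul_right_comm _ (_ ^ 2) (Real.log n2), ← mul_sum,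
    sum_Fk] at v3
  have a1 := mul_le_mul_of_nonneg_right F2 (by positivity : 0 ≤ V * GD.d)
  have a2 := mul_le_mul_of_nonneg_right l1 (by positivity : 0 ≤ GD.hh ^ 2 * w * (V * GD.d))
  have a3 := mul_le_mul_of_nonneg_right η2 (by positivity : 0 ≤ w * V * Real.log n2)
  have a4 := mul_le_mul_of_nonneg_right (one_le_pow₀ (n := 2) h1)
    (by positivity : 0 ≤ GD.d * (η * (V * Real.log n2 * w)))
  have e : ∀ b : ℝ, 11 * b / (48 * Real.pi ^ 2) = 11 / (6 * Real.pi ^ 2) * (b / 8) := fun b => by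
    field_simp; ring
  have a5 : 0 ≤ GD.d * (η * (V * Real.log n2 * w)) := by positivity
  push_cast at p3 q3
  rw [e]
  rw [abs_le] at p3 q3 v3 ⊢
  constructor <;> linarith [p3.1, p3.2, v3.1, v3.2, q3.1, q3.2]

end Pool.Agent.Lib.MP_7f377f_mp.RG.Q4
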