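import Pool.Agent.Lib.MP_7f377f_mp.G.Q4TrH
import Pool.Agent.Lib.MP_7f377f_mp.G.Q4FldB

/-! Comparison of two tree steps with close energies. -/

noncomputable section

set_option linter.unusedSectionVars false
variable [Pool.Agent.Lib.MP_7f377f_mp.GD]

namespace Pool.Agent.Lib.MP_7f377f_mp.RG.Q4.Af

open Finset Polynomial Nt

attribute [local irreducible] box lbox

/-- two energies which are close at the scale `d` -/
structure Cl (l : ℕ) (d ω : ℝ) (h h' : BF) (G G' : Cf → Fld → ℂ) : Prop where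
  ω0 : 0 < ω
  G : ∀ B A, (∀ e, ‖B e‖ ≤ d) → Sm (3 * l + 1) (8 * d / LL l) A →
    ‖G (exF B) A - G' (exF B) A‖ ≤ ω * d ^ 2
  h : ∀ {a b α β}, Sm (3 * l + 1) α a → Sm (3 * l + 1) β b → ‖cx h a b - cx h' a b‖ ≤ ω * (α * β)

section block

variable {l r c : ℕ} {τ P δ d ω α β η : ℝ} {m m' h h' : BF} {s s' : V →ₗ[ℝ] V}
  {G G' : Cf → Fld → ℂ} {B A D a b : Fld} (hl : Lin l r c τ m s) (g : Ge l r m s P δ G)
  (d0 : 0 < d) (d1 : 8 * d ≤ δ) (hB : ∀ e, ‖B e‖ ≤ d)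
include g d0 d1 hB

theorem ge_lh (p : 0 < 8 * d / LL l) : (dM (3 * l + 1) _ p).LH (G (exF B)) :=
  fun A D S hS hD => g.hol S (fun _ => B) _ hS (Set.subset_univ _) (disc_const _)
    (Ho.disc_line S A D) fun t ht => ⟨fun e => (hB e).trans (by linarith),
      Sm.mono (hD t ht) le_rfl (by have := LL_pos' l; rw [one_mul]; gcongr)⟩

include hl

theorem j2_lip (hA : Sm (3 * l + 1) (d / LL l) A) (hD : Sm (3 * l + 1) η D) (η0 : 0 < η)
    (η1 : η ≤ 2 * d / LL l) (ha : Sm (3 * l + 1) α a) (α0 : 0 < α) (hb : Sm (3 * l + 1) β b)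
    (β0 : 0 < β) : ‖j2 (G (exF B)) (A + D) a b - j2 (G (exF B)) A a b‖ ≤
      256 * P * LL l ^ 3 * η * α * β := by
  have L0 := LL_pos' l
  have p0 : 0 ≤ d / LL l := by positivity
  have k := g.split hl d0 d1 hB (hA.mono le_rfl (by rw [mul_div_assoc]; linarith))
  have k' := g.split hl d0 d1 hB ((hA.add hD).mono le_rfl (by
    rw [mul_div_assoc] at η1 ⊢; linarith))
  obtain ⟨p, h1, h2⟩ := g.rm hl d0 d1 hB
  have m1 := fun {x : ℝ} {v : Fld} (hv : Sm (3 * l + 1) x v) =>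
    mem_dM p hv (div_mul_cancel₀ _ p.ne').ge
  have : η / (8 * d / LL l) ≤ 1 / 4 := by rw [div_le_iff₀ p]; exact η1.trans_eq (by ring)
  have := (j_lh h1 h2 (hall_dM p) a b).2.lip (fun _ hB => ((j_main h1 h2 (hall_dM p) hB).2.2
    (m1 ha) (by positivity)).2.1 (m1 hb) (by positivity))
    (Kit.Dom.mem_half (mem_dM p hA (θ := 1 / 8) (by ring_nf; rfl))) (Kit.Dom.mem_half (m1 hD))
    (by positivity) (by linarith)
  refine le_of_eq_of_le (congrArg _ ?_) (this.trans_eq (by field_simp; ring))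
  simp only [j2, k.kq, k'.kq]
  ring

theorem j_cl (hl' : Lin l r c τ m' s') (g' : Ge l r m' s' P δ G') (cl : Cl l d ω h h' G G')
    (hA : Sm (3 * l + 1) (4 * d / LL l) A) (ha : Sm (3 * l + 1) α a) (α0 : 0 < α) :
    ‖j1 (G (exF B)) A a - j1 (G' (exF B)) A a‖ ≤ 3 * ω * LL l * d * α ∧
    (∀ {β b}, Sm (3 * l + 1) β b → 0 < β →
      ‖j2 (G (exF B)) A a b - j2 (G' (exF B)) A a b‖ ≤ 3 / 4 * ω * LL l ^ 2 * α * β) ∧
    (α ≤ 4 * d / LL l → ‖G (exF B) (A + a) - G (exF B) A - j1 (G (exF B)) A a -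
      (G' (exF B) (A + a) - G' (exF B) A - j1 (G' (exF B)) A a)‖ ≤
        3 / 2 * ω * LL l ^ 2 * α ^ 2) := by
  have L0 := LL_pos' l
  have p : 0 < 8 * d / LL l := by positivity
  have m1 := fun {x : ℝ} {v : Fld} (hv : Sm (3 * l + 1) x v) =>
    mem_dM p hv (div_mul_cancel₀ _ p.ne').ge
  have k := (g.blk hl d0 d1 hB hA).1.sub (g'.blk hl' d0 d1 hB hA).1
  obtain ⟨a1, a2, a3⟩ := (j_main ((ge_lh g d0 d1 hB p).sub (ge_lh g' d0 d1 hB p))
    (fun A hA => cl.G B A hB (Sm.mono hA le_rfl (one_mul _).le)) (hall_dM p)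
    (mem_dM p hA (θ := 1 / 2) (by ring_nf; rfl))).2.2 (m1 ha) (by positivity)
  have e1 : ∀ v, j1 (fun A => G (exF B) A - G' (exF B) A) A v = _ := k.k1
  have e2 : ∀ v w, j2 (fun A => G (exF B) A - G' (exF B) A) A v w = _ := k.kq
  simp only [e1, e2] at a1 a2 a3
  refine ⟨a1.trans_eq (by field_simp; ring), fun hb β0 =>
    (a2 (m1 hb) (by positivity)).trans_eq (by field_simp; ring), fun h4 => ?_⟩
  exact le_of_eq_of_le (congrArg _ (by ring)) ((a3 (by
    rw [div_le_iff₀ p]; exact h4.trans_eq (by ring))).1.trans_eq (by field_simp; ring))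

end block

/-- other data with the same sizes -/
abbrev alt (t : Nt) (h' : BF) (G' : Cf → Fld → ℂ) : Nt := ⟨⟨t.O.l, h', t.O.Λ, t.O.N⟩, G', t.p⟩

variable {t : Nt} {r c : ℕ} {τ P δ d ω γ : ℝ} {m m' h' : BF} {s s' : V →ₗ[ℝ] V}
  {G' : Cf → Fld → ℂ} {B A : Fld} (h : t.Ok r c τ m s P δ) (z : t.Sz c τ P δ d)
  (hB : ∀ e, ‖B e‖ ≤ d)
include h z hB

theorem gk_kh (y : St) :
    Gk t.O (10 * d) ∅ (fun y => kh t.O.l t.O.h (sh y (exF B))) (exF B) 1 y :=
  ⟨fun _ => gp_exF hB (by linarith [h.d_le z]) y, fun _ => Kc.refl _ (by linarith [z.d0])⟩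

theorem gk_kd (y : St) : Gk t.O ((LL t.O.l : ℝ) ^ (c + 7) * (P * d)) ∅
    (fun y => t.kd (sh y (exF B))) (exF B) 1 y := by
  have p1 := h.P1
  have d0 := z.d0
  refine ⟨fun _ => (gp_exF hB (by linarith [h.d_le z]) y).mono ?_,
    fun _ => kd_kc h z (B := sh y B) fun _ => hB _⟩
  refine le_trans ?_ (h.up (C := 10) (i := 0) (by norm_num) (by omega) (by positivity))
  nlinarith

/-- the dependence of the value at the critical point on the approximate minimiser -/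
theorem val_lip {A' : Fld} {η : ℝ} (hA' : ∀ e, ‖A' e‖ ≤ t.al c τ P d) (η0 : 0 < η)
    (η1 : η ≤ 2 * t.al c τ P d) (hD : ∀ e, ‖(A - A') e‖ ≤ η) (ht : ∀ f, tree t.O.l f → (A - A') f = 0) :
    ‖t.G (exF B) A - j1 (t.G (exF B)) 0 A + t.gv (exF B) 0 A 0 -
      (t.G (exF B) A' - j1 (t.G (exF B)) 0 A' + t.gv (exF B) 0 A' 0)‖ ≤
      (LL t.O.l : ℝ) ^ (c + 6) * (P * t.al c τ P d * η) := by
  obtain ⟨a0, a1⟩ := h.al_le z
  have d0 := z.d0
  have P1 := h.P1
  have L1 := JS.one_le_LL t.O.l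
  have p0 : 0 ≤ d / LL t.O.l := by positivity
  have s0 : ∀ x, 0 ≤ x → Sm (3 * t.O.l + 1) x (0 : Fld) := fun x hx _ _ => norm_zero.trans_le hx
  have s1 : Sm (3 * t.O.l + 1) (t.al c τ P d) A' := fun f _ => hA' f
  have s2 : Sm (3 * t.O.l + 1) η (A - A') := fun f _ => hD f
  obtain ⟨-, ⟨L, -, hL, -⟩, -⟩ := h.ge.blk h.lin d0 z.d1 hB (s0 _ (by positivity))
  have h1 := (((h.ge.blk h.lin d0 z.d1 hB (s1.mono le_rfl (by rw [mul_div_assoc]; linarith))).2.2
    s2 η0).2.2 (by rw [mul_div_assoc]; linarith)).1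
  have h2 := h.ge.lip h.lin d0 z.d1 hB (s0 _ p0) s1 a0 (by rw [mul_div_assoc]; linarith) s2 η0
  have h3 := h.hh_bd s2 s2
  have h4 := h.hh_bd s2 s1
  have h5 := gv_le (W := exF B) (A := 0) (y := 0) (v := A - A')
    (fun e _ he => grad_zero h z hB fun h' => he ((tree_add_up _ e.1 0 e.2).1 h'))
    (by have := h.τ0; positivity)
    (fun _ _ => hD _) ht
  have h6 := norm_add_le_of_le (norm_add_le_of_le (norm_add_le_of_le h1 h2) h3) h5
  have h7 : ‖2 * cx (hh t.O.l m) (A - A') A'‖ ≤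
      2 * ((LL t.O.l : ℝ) ^ (c + 5) * (η * t.al c τ P d)) := by
    rw [norm_mul, Complex.norm_two]
    linarith
  refine le_of_eq_of_le (congrArg _ ?_) ((norm_add_le_of_le h6 h7).trans ?_)
  · rw [add_sub_cancel, zero_add, hL, hL, hL, map_sub]
    simp only [gv_eq, Pi.sub_apply, mul_sub, sum_sub_distrib]
    ring
  · have x0 : 0 ≤ P * t.al c τ P d * η := by positivity
    refine le_trans ?_ (h.up (C := 20) (i := c + 5) (by norm_num) (by omega) x0)
    have k0 := h.d_le z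
    have k1 : (LL t.O.l : ℝ) ^ 2 ≤ LL t.O.l ^ (c + 5) := pow_le_pow_right₀ L1 (by omega)
    have k2 : (LL t.O.l : ℝ) ^ 6 * (P * (d ^ 2 + τ * d)) ≤ t.al c τ P d :=
      mul_le_mul_of_nonneg_right (pow_le_pow_right₀ L1 (by omega)) (by have := h.τ0; positivity)
    have k3 : (1 : ℝ) ≤ LL t.O.l ^ (c + 5) := one_le_pow₀ L1
    generalize (LL t.O.l : ℝ) ^ (c + 5) = K at *
    have k4 : t.al c τ P d * η ≤ P * t.al c τ P d * η := by nlinarith [mul_pos a0 η0]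
    have k5 : η * η ≤ 2 * (t.al c τ P d * η) := by nlinarith
    have b1 : 768 * P * LL t.O.l ^ 2 * d * η ^ 2 ≤ 2 * (K * (P * t.al c τ P d * η)) := by
      calc _ = 768 * d * (LL t.O.l ^ 2 * (P * (η * η))) := by ring
        _ ≤ 1 * (K * (P * (2 * (t.al c τ P d * η)))) := by gcongr; linarith
        _ = _ := by ring
    have b2 : 1024 * P * LL t.O.l ^ 2 * d * η * t.al c τ P d ≤ 2 * (K * (P * t.al c τ P d * η)) := by
      calc _ = 1024 * d * (LL t.O.l ^ 2 * (P * t.al c τ P d * η)) := by ring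
        _ ≤ _ := by gcongr; linarith
    have b3 := mul_le_mul_of_nonneg_left (k5.trans (mul_le_mul_of_nonneg_left k4 zero_le_two))
      (zero_le_one.trans k3)
    have b4 := mul_le_mul_of_nonneg_left k4 (zero_le_one.trans k3)
    have b5 := (mul_le_mul_of_nonneg_right k2 η0.le).trans (k4.trans (le_mul_of_one_le_left x0 k3))
    nlinarith

variable (h2 : (alt t h' G').Ok r c τ m' s' P δ) (cl : Cl t.O.l d ω t.O.h h' t.G G')
include h2 cl

theorem grad_cl (hA : ∀ e, ‖A e‖ ≤ d / LL t.O.l) (f : Lk) :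
    ‖(t.grad (exF B) A - (alt t h' G').grad (exF B) A) f‖ ≤ (LL t.O.l : ℝ) ^ 2 * (ω * d) := by
  have d0 := z.d0
  have ω0 := cl.ω0
  have L0 := LL_pos' t.O.l
  have z2 : (alt t h' G').Sz c τ P δ d := ⟨z.d0, z.d1, z.d2⟩
  have hA' : ∀ e, ‖A e‖ ≤ 4 * d / LL t.O.l := fun e => (hA e).trans (by gcongr; linarith)
  refine norm_le_of_dot fun k hk => ?_
  have h1 := sum_two fun y => (j_cl h.lin h.ge d0 z.d1 (B := sh (yo t.O.l f.1 + y) B)
    (fun _ => hB _) h2.lin h2.ge cl ((sm_of_all hA _ (up t.O.l (yo t.O.l f.1 + y))).mono le_rfl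
      (by gcongr; linarith))
    (sm_of_all (norm_sgl hk f) _ (up t.O.l (yo t.O.l f.1 + y))) one_pos).1
  rw [sum_sub_distrib] at h1
  rw [Pi.sub_apply, dot_sub, dot_grad h z hB hA', dot_grad h2 z2 hB hA']
  exact h1.trans (le_of_eq_of_le (by ring) (h.up (C := 1875) (i := 1) (by norm_num) (by omega)
    (by positivity)))

theorem pol_cl (hA : ∀ e, ‖A e‖ ≤ γ) (f : Lk) : ‖(t.O.pol (pP t.O.N ^ 2) ∅ (exF B) A -
    (alt t h' G').O.pol (pP t.O.N ^ 2) ∅ (exF B) A) f‖ ≤ (LL t.O.l : ℝ) ^ (10 * c + 29) * (ω * γ) := by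
  have z2 : (alt t h' G').Sz c τ P δ d := ⟨z.d0, z.d1, z.d2⟩
  have γ0 := (norm_nonneg _).trans (hA f)
  have ω0 := cl.ω0
  have L0 := LL_pos' t.O.l
  have h1 := h.small' z (j := 2 * c + 10) (by omega)
  have h3 : 0 ≤ (LL t.O.l : ℝ) ^ (2 * c + 10) * d := by have := z.d0; positivity
  have hk : ∀ y, Kc t.O.l (4 * ω) (kh t.O.l t.O.h (sh y (exF B))) (kh t.O.l h' (sh y (exF B))) :=
    fun y e _ i e' _ j => (cl.h
      (Ay_near (B := sh y B) (fun _ => hB _) (h.d_le z) 0 (sm_of_all (norm_eb e · i) _ _)).2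
      (Ay_near (B := sh y B) (fun _ => hB _) (h.d_le z) 0 (sm_of_all (norm_eb e' · j) _ _)).2).trans_eq
        (by ring)
  refine at_block (l := t.O.l) (φ := fun b : C3 => ‖b‖ ≤ _) fun e he => ?_
  have := polK_lip h.op h2.op rfl (δ := 10 * d) (p := pP t.O.N ^ 2) (η := 4 * ω) (by linarith)
    (by positivity)
    (natDegree_pow_le.trans (Nat.mul_le_mul_left _ (Op.natDegree_pP t.O.N)))
    (fun y _ => gk_sh.2 (gk_kh h z hB (y + yo t.O.l f.1)))
    (fun y _ => gk_sh.2 (gk_kh h2 z2 hB (y + yo t.O.l f.1))) (fun y _ _ => hk _)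
    (sm_of_all hA _ (up t.O.l (yo t.O.l f.1))) e he
  rw [polK_sh, polK_sh, ← Od.pol_eqK h.op, ← Od.pol_eqK h2.op] at this
  refine this.trans ?_
  have w1 := wn_pP zero_le_one le_rfl t.O.N
  have w2 : wn 1 (pP t.O.N ^ 2) ≤ (t.O.N + 1) ^ 2 := by
    rw [sq, sq]
    exact (wn_mul zero_le_one).trans (mul_le_mul w1 w1 (wn_nonneg zero_le_one) (by positivity))
  have N1 : (1 : ℝ) ≤ t.O.N := h.op.N_cast ▸ one_le_pow₀ (JS.one_le_LL _)
  refine le_trans ?_ (h.up (C := 2592) (i := 10 * c + 28) (by norm_num) (by omega) (by positivity))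
  calc _ ≤ (2 * t.O.N : ℝ) ^ 2 * (2 * t.O.N * (9 * t.O.N) ^ 2 * (LL t.O.l : ℝ) ^ 8 * (4 * ω) * γ) := by
        push_cast
        gcongr
        · exact w2.trans (by gcongr; linarith)
        · linarith
    _ = _ := by rw [h.op.N_cast]; ring

theorem iter_cl (j : ℕ) (e : Lk) : ‖((t.nw (exF B))^[j] 0 - ((alt t h' G').nw (exF B))^[j] 0) e‖ ≤
    (LL t.O.l : ℝ) ^ (8 * c + 24) * (ω * d) := by
  have z2 : (alt t h' G').Sz c τ P δ d := ⟨z.d0, z.d1, z.d2⟩
  have d0 := z.d0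
  have ω0 := cl.ω0
  have L1 := JS.one_le_LL t.O.l
  obtain ⟨θ0, θ1⟩ := h.th_le z
  induction j generalizing e with
  | zero => simp only [Function.iterate_zero, id, sub_self, Pi.zero_apply, norm_zero]; positivity
  | succ j ih =>
    by_cases hE : (LL t.O.l : ℝ) ^ (8 * c + 24) * (ω * d) ≤ 2 * d / LL t.O.l
    swap
    · have := norm_sub_le_of_le (iter_small h z hB (j + 1) e) (iter_small h2 z2 hB (j + 1) e)
      rw [mul_div_assoc] at hE
      exact this.trans (by linarith)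
    rw [Function.iterate_succ_apply', Function.iterate_succ_apply']
    have k0 := iter_small h2 z2 hB j
    have k1 := nw_lip h z hB k0 ih (by positivity) hE (fun f hf => by
      rw [Pi.sub_apply, t.iter_tree _ _ hf, (alt t h' G').iter_tree _ _ hf, sub_zero]) e
    have k2 := pP_glob h z hB (grad_cl h z hB h2 cl k0) e
    have k3 := pol_cl h z hB h2 cl (fun f => ((iter_bd h2 z2 hB j).2 f).trans
      (mul_le_of_le_one_left (by have := h.τ0; have := h.P1; positivity)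
        (pow_le_one₀ θ0.le (θ1.trans (by norm_num))))) e
    rw [add_sub_cancel] at k1
    rw [Od.pol_pj, (alt t h' G').O.pol_pj] at k3
    generalize (t.nw (exF B))^[j] 0 = X at *
    generalize ((alt t h' G').nw (exF B))^[j] 0 = Y at *
    have k4 : ‖(2 * t.O.Λ : ℂ)⁻¹‖ ≤ 1 := by
      rw [norm_inv, norm_mul, Complex.norm_real, Complex.norm_two, Real.norm_of_nonneg
        h.op.lam_pos.le]
      exact inv_le_one_of_one_le₀ (by linarith [h.op.lam_ge])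
    have k5 := (norm_smul_le _ _).trans ((mul_le_of_le_one_left (norm_nonneg _) k4).trans k3)
    have k6 := norm_sub_le_of_le (norm_sub_le_of_le k1 k2) k5
    refine le_of_eq_of_le (congrArg _ ?_) (k6.trans ?_)
    · rw [← Od.polL_apply (A := _ - _), map_sub, Od.polL_apply, Od.polL_apply]
      simp only [nw, Pi.sub_apply, Pi.smul_apply, smul_sub]
      abel
    · have x0 : 0 ≤ ω * d := by positivity
      have b1 := h.up (C := 8) (i := 8 * c + 23) (j := 8 * c + 24) (by norm_num) (by omega) x0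
      have b2 : (LL t.O.l : ℝ) ^ (10 * c + 29) * (ω * ((LL t.O.l : ℝ) ^ 2 * (P * (d ^ 2 + τ * d)))) ≤
          (LL t.O.l : ℝ) ^ (8 * c + 23) * (ω * d) := by
        calc _ = (LL t.O.l : ℝ) ^ 1 * (t.q c P * (d + τ)) * (ω * d) := by unfold q; ring
          _ ≤ (LL t.O.l : ℝ) ^ 1 * 1 * (ω * d) := by gcongr; exact z.d2
          _ ≤ (LL t.O.l : ℝ) ^ (8 * c + 23) * 1 * (ω * d) := by gcongr; omega
          _ = _ := by ring
      have b3 : 0 ≤ (LL t.O.l : ℝ) ^ (8 * c + 24) * (ω * d) := by positivity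
      have b4 : (LL t.O.l : ℝ) ^ (8 * c + 21) * ((LL t.O.l : ℝ) ^ 2 * (ω * d)) =
        (LL t.O.l : ℝ) ^ (8 * c + 23) * (ω * d) := by ring
      nlinarith

theorem As_cl : ∃ η, 0 < η ∧ η ≤ 2 * t.al c τ P d ∧ η ≤ (LL t.O.l : ℝ) ^ (8 * c + 24) * (ω * d) ∧
    ∀ e, ‖(t.As (exF B) - (alt t h' G').As (exF B)) e‖ ≤ η := by
  have z2 : (alt t h' G').Sz c τ P δ d := ⟨z.d0, z.d1, z.d2⟩
  have d0 := z.d0
  have ω0 := cl.ω0
  have L0 := LL_pos' t.O.l
  exact ⟨min _ _, lt_min (by linarith [h.al_le z]) (by positivity), min_le_left _ _,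
    min_le_right _ _, fun e => le_min ((norm_sub_le_of_le (As_bd h z hB e) (As_bd h2 z2 hB e)).trans
      (two_mul _).ge) (iter_cl h z hB h2 cl _ e)⟩

theorem a0_cl : ‖t.a0 (exF B) - (alt t h' G').a0 (exF B) - (t.G (exF B) 0 - G' (exF B) 0)‖ ≤
    (LL t.O.l : ℝ) ^ (9 * c + 31) * (P * t.al c τ P d * (ω * d)) := by
  have z2 : (alt t h' G').Sz c τ P δ d := ⟨z.d0, z.d1, z.d2⟩
  have d0 := z.d0
  have ω0 := cl.ω0
  have P1 := h.P1
  have L1 := JS.one_le_LL t.O.l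
  obtain ⟨a0, a1⟩ := h.al_le z
  obtain ⟨η, η0, η1, η2, hD⟩ := As_cl h z hB h2 cl
  have s1 : ∀ e, ‖(alt t h' G').As (exF B) e‖ ≤ t.al c τ P d := As_bd h2 z2 hB
  have t1 := fun f (hf : tree t.O.l f) => (alt t h' G').As_tree (exF B) hf
  have p0 : 0 ≤ d / LL t.O.l := by positivity
  have k1 := val_lip h z hB s1 η0 η1 hD fun f hf => by
    rw [Pi.sub_apply, t.As_tree _ hf, t1 f hf, sub_zero]
  have k2 := (j_cl h.lin h.ge d0 z.d1 hB h2.lin h2.ge cl (A := 0)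
    (fun _ _ => norm_zero.trans_le (by positivity)) (fun e _ => s1 e) a0).2.2
      (by rw [mul_div_assoc]; linarith)
  have k3 : ‖t.gv (exF B) 0 ((alt t h' G').As (exF B)) 0 -
      (alt t h' G').gv (exF B) 0 ((alt t h' G').As (exF B)) 0‖ ≤
      4 * (LL t.O.l : ℝ) ^ 4 * (3 * ((LL t.O.l : ℝ) ^ 2 * (ω * d) * t.al c τ P d)) := by
    rw [gv_eq, gv_eq, ← sum_sub_distrib]
    refine (norm_sum_le _ _).trans ((sum_le_card_nsmul _ _ _ fun e _ => ?_).trans_eq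
      (by rw [nsmul_eq_mul, JS.card_lboxR]))
    simp only [← sum_sub_distrib, ← sub_mul]
    exact (norm_dot _ _).trans (by
      rw [mul_assoc]
      exact mul_le_mul_of_nonneg_left (mul_le_mul (grad_cl h z hB h2 cl
        (fun _ => norm_zero.trans_le p0) _) (s1 _) (norm_nonneg _) (by positivity)) zero_le_three)
  rw [a0_eq h z hB, a0_eq h2 z2 hB]
  rw [zero_add] at k2
  refine le_of_eq_of_le (congrArg _ (by ring))
    ((norm_add_le_of_le (norm_add_le_of_le k1 k2) k3).trans ?_)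
  have x0 : 0 ≤ t.al c τ P d * (ω * d) := by positivity
  have x1 : t.al c τ P d * (ω * d) ≤ P * t.al c τ P d * (ω * d) := by nlinarith
  refine le_trans ?_ (h.up (C := 15) (i := 9 * c + 30) (by norm_num) (by omega) (x0.trans x1))
  have b1 : (LL t.O.l : ℝ) ^ (c + 6) * (P * t.al c τ P d * η) ≤
      (LL t.O.l : ℝ) ^ (9 * c + 30) * (P * t.al c τ P d * (ω * d)) := by
    calc _ ≤ (LL t.O.l : ℝ) ^ (c + 6) * (P * t.al c τ P d *
          ((LL t.O.l : ℝ) ^ (8 * c + 24) * (ω * d))) := by gcongr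
      _ = _ := by ring
  have b2 : (LL t.O.l : ℝ) ^ 6 * (t.al c τ P d * (ω * d)) ≤
      (LL t.O.l : ℝ) ^ (9 * c + 30) * (P * t.al c τ P d * (ω * d)) := by gcongr; omega
  have b3 : ω * LL t.O.l ^ 2 * t.al c τ P d ^ 2 ≤ (LL t.O.l : ℝ) ^ 6 * (t.al c τ P d * (ω * d)) := by
    calc _ = (LL t.O.l : ℝ) ^ 2 * (t.al c τ P d * (ω * t.al c τ P d)) := by ring
      _ ≤ _ := by
        gcongr
        · omega
        · linarith [div_le_self d0.le L1]
  linarith [show 0 ≤ (LL t.O.l : ℝ) ^ 6 * (t.al c τ P d * (ω * d)) by positivity]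

theorem kd_cl : Kc t.O.l ((LL t.O.l : ℝ) ^ 2 * ω) (t.kd (exF B)) ((alt t h' G').kd (exF B)) := by
  have z2 : (alt t h' G').Sz c τ P δ d := ⟨z.d0, z.d1, z.d2⟩
  have d0 := z.d0
  have ω0 := cl.ω0
  have P1 := h.P1
  have L1 := JS.one_le_LL t.O.l
  obtain ⟨a0, a1⟩ := h.al_le z
  obtain ⟨η, η0, η1, η2, hD⟩ := As_cl h z hB h2 cl
  intro e _ i e' _ j
  have s1 := As_small h2 z2 hB
  have p0 : 0 ≤ d / LL t.O.l := by positivity
  have k1 := j2_lip h.lin h.ge d0 z.d1 hB (fun e _ => s1 e) (fun e _ => hD e) η0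
    (by rw [mul_div_assoc]; linarith) (fun f _ => norm_eb e f i) one_pos
    (fun f _ => norm_eb e' f j) one_pos
  have k2 := (j_cl h.lin h.ge d0 z.d1 hB h2.lin h2.ge cl (fun e _ => (s1 e).trans
    (by rw [mul_div_assoc]; linarith)) (fun f _ => norm_eb e f i) one_pos).2.1
    (fun f _ => norm_eb e' f j) one_pos
  rw [add_sub_cancel] at k1
  have k3 := norm_add_le_of_le k1 k2
  rw [sub_add_sub_cancel] at k3
  simp only [kd, j2_FF, up_zero, sh_zero]
  refine k3.trans ?_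
  have b1 := h.small z (j := 8 * c + 27) (by omega)
  have b2 : 256 * P * LL t.O.l ^ 3 * η ≤
      256 * ((LL t.O.l : ℝ) ^ (8 * c + 27) * (P * (d + τ))) * ω := by
    calc _ ≤ 256 * P * LL t.O.l ^ 3 * ((LL t.O.l : ℝ) ^ (8 * c + 24) * (ω * (d + τ))) := by
          gcongr
          exact η2.trans (by gcongr; linarith [h.τ0])
      _ = _ := by ring
  have b3 : ω ≤ (LL t.O.l : ℝ) ^ 2 * ω := le_mul_of_one_le_left ω0.le (one_le_pow₀ L1)
  nlinarith

theorem dt_cl : ‖dtK t.O.l t.O.Λ t.O.N ∅ (fun y => t.kd (sh y (exF B))) -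
    dtK t.O.l t.O.Λ t.O.N ∅ fun y => (alt t h' G').kd (sh y (exF B))‖ ≤
      (LL t.O.l : ℝ) ^ (4 * c + 20) * ω := by
  have z2 : (alt t h' G').Sz c τ P δ d := ⟨z.d0, z.d1, z.d2⟩
  have b1 := h.small z (j := 3 * c + 17) (by omega)
  have ω0 := cl.ω0
  have L0 := LL_pos' t.O.l
  refine (dtK_lip h.op h2.op rfl ?_ (by positivity) (fun y _ => gk_kd h z hB y)
    (fun y _ => gk_kd h2 z2 hB y) fun y _ _ => kd_cl h z (B := sh y B) (fun _ => hB _) h2 cl).trans_eq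
    (by ring)
  have d0 := z.d0
  have P1 := h.P1
  have τ0 := h.τ0
  calc _ = 1 * ((LL t.O.l : ℝ) ^ (3 * c + 17) * (P * (d + 0))) := by ring
    _ ≤ 10 ^ 6 * ((LL t.O.l : ℝ) ^ (3 * c + 17) * (P * (d + τ))) := by gcongr; norm_num
    _ ≤ 1 := b1

end Pool.Agent.Lib.MP_7f377f_mp.RG.Q4.Af
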