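import Pool.Agent.Lib.MP_7f377f_mp.G.Q4AfL2
import Pool.Agent.Lib.MP_7f377f_mp.G.Q4Ol

/-! Comparison of the new cubic terms and of the one loop terms for two sets of tree data. -/

noncomputable section

set_option linter.unusedSectionVars false
variable [Pool.Agent.Lib.MP_7f377f_mp.GD]

namespace Pool.Agent.Lib.MP_7f377f_mp.RG.Q4.Af

open Finset Nt

attribute [local irreducible] box lbox

section tq

variable {R : ℕ} {ρ η M M1 M2 d d' : ℝ} {φ ψ : Fld → ℂ} (h : Tq R ρ φ) (h' : Tq R ρ ψ) (η0 : 0 < η)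
  (η1 : η ≤ ρ) (h1 : ∀ B, Cv R η B → ‖φ B‖ ≤ M1) (h2 : ∀ B, Cv R η B → ‖ψ B‖ ≤ M2)
  (hM : ∀ B, Cv R η B → ‖φ B - ψ B‖ ≤ M)
include h h' η1

theorem tq_sub : Tq R η fun B => φ B - ψ B :=
  ⟨fun A B e => by rw [h.loc A B e, h'.loc A B e], fun Ω γ a b c =>
    (h.hol Ω γ a b fun t ht => (c t ht).mono le_rfl η1).sub
      (h'.hol Ω γ a b fun t ht => (c t ht).mono le_rfl η1), by rw [h.zero, h'.zero, sub_zero],
    fun g B hB => by rw [h.ad g B (hB.mono le_rfl (by linarith)),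
      h'.ad g B (hB.mono le_rfl (by linarith))], h.meas.sub h'.meas⟩

include η0 h1 h2

theorem kq_sub (a b : Fld) : kq (fun B => φ B - ψ B) a b = kq φ a b - kq ψ a b := by
  obtain ⟨σ, j⟩ := h.jet η0 η1 h1
  obtain ⟨σ', j'⟩ := h'.jet η0 η1 h2
  exact ((j.hasK (Ho.hall η0)).self.sub (j'.hasK (Ho.hall η0)).self).kq a b

include hM

theorem cub_cl {B : Fld} (hB : Cv R d B) (hd : d ≤ η) :
    ‖ctf R ρ (fun B => φ B - kq φ B B) B - ctf R ρ (fun B => ψ B - kq ψ B B) B‖ ≤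
      12 * M / η ^ 3 * d ^ 3 := by
  have := ((tq_sub h h' η1).tc η0 hM).bd B d hB hd
  rw [ctf_of (hB.mono le_rfl hd), kq_sub h h' η0 η1 h1 h2] at this
  rw [ctf_of (hB.mono le_rfl (hd.trans η1)), ctf_of (hB.mono le_rfl (hd.trans η1))]
  exact le_of_eq_of_le (congrArg _ (by ring)) this

theorem qc_cl {a b : V} (ha : Cv 0 d a) (hb : Cv 0 d' b) (d0 : 0 < d) (d0' : 0 < d') :
    ‖qc φ a b - qc ψ a b‖ ≤ 12 * M / η ^ 2 * d * d' := by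
  have e : ∀ φ : Fld → ℂ, qc φ a b = kq φ (Ho.em GD.k0 (cc a)) (Ho.em GD.k0 (cc b)) := fun φ => by
    rw [qc, q2]
    exact kq_congr fun s t => by rw [Ho.em_add, Ho.em_smul, Ho.em_smul, rsm, rsm]
  obtain ⟨σ, j⟩ := (tq_sub h h' η1).jet η0 le_rfl hM
  rw [e, e, ← kq_sub h h' η0 η1 h1 h2, (j.hasK (Ho.hall η0)).kq]
  exact (j.q_le (Ho.mem_dom η0 (Ho.cv_em _ (La.Q.cv_cf ha R)))
    (Ho.mem_dom η0 (Ho.cv_em _ (La.Q.cv_cf hb R))) (by positivity) (by positivity)).trans_eq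
      (by ring)

end tq

theorem sz_alt {t : Nt} {c : ℕ} {τ P δ d : ℝ} (z : t.Sz c τ P δ d) (h' : BF) (G' : Cf → Fld → ℂ) :
    (alt t h' G').Sz c τ P δ d := ⟨z.d0, z.d1, z.d2⟩

theorem tq_cl {t : Nt} {r c R : ℕ} {τ P δ ω ω0 η κ : ℝ} {m m' h' k k' : BF} {s s' : V →ₗ[ℝ] V}
    {G' : Cf → Fld → ℂ} (h : t.Ok r c τ m s P δ) (h2 : (alt t h' G').Ok r c τ m' s' P δ)
    (hR : r + 4 ≤ R) (z : t.Sz c τ P δ (3 * R * η)) (cl : Cl t.O.l (3 * R * η) ω t.O.h h' t.G G')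
    (hz : ∀ B, (∀ e, ‖B e‖ ≤ 3 * R * η) → Cv r η B → ‖t.G (exF B) 0 - G' (exF B) 0‖ ≤ ω0)
    (hk : Cb R κ (k - k')) (B : Fld) (hB : Cv R η B) :
    ‖t.tq R k B - (alt t h' G').tq R k' B‖ ≤
      (LL t.O.l : ℝ) ^ (9 * c + 31) * (P * t.al c τ P (3 * R * η) * (ω * (3 * R * η))) + ω0 +
        12 * cG * κ * η * η := by
  have h1 := fun (y : St) (e : Lk) => JS.cut_cg_bd hB hB.nonneg (e.1 + y, e.2)
  have h3 := avg_le fun y hy => le_of_eq_of_le (congrArg _ (sub_add_cancel _ _).symm)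
    (norm_add_le_of_le (a0_cl h z (B := sh y (cut R (cg B))) (h1 y) h2 cl)
      (hz (sh y (cut R (cg B))) (h1 y) (JS.cut_cg_cv hB (by omega) hy)))
  refine le_of_eq_of_le (congrArg _ ?_) (norm_sub_le_of_le h3 (cx_cb hk hB hB))
  rw [tq, tq, Nt.tn, Nt.tn, cx_sub, sum_sub_distrib, sh_zero]
  simp only [show ∀ y B, exF (sh y B) = sh y (exF B) from fun _ _ => rfl]
  ring

theorem Tn_cl {t : Nt} {r c R : ℕ} {τ P δ C P1 ρ η M d : ℝ} {m m' h' k k' : BF}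
    {s s' : V →ₗ[ℝ] V} {G' : Cf → Fld → ℂ} (h : t.Ok r c τ m s P δ)
    (h2 : (alt t h' G').Ok r c τ m' s' P δ) (gz : Gz t.O.l r m s C P1 δ t.G)
    (gz' : Gz t.O.l r m' s' C P1 δ G') (hR : r + 4 ≤ R) (z : t.Sz c τ P δ (6 * R * ρ))
    (η0 : 0 < η) (η1 : η ≤ ρ) (hk : k = mb t.O.l 3 m s) (hk' : k' = mb t.O.l 3 m' s')
    (hM : ∀ B, Cv R η B → ‖t.tq R k B - (alt t h' G').tq R k' B‖ ≤ M) {B : Fld} (hB : Cv R d B)
    (hd : d ≤ η) : ‖t.Tn R ρ k B - (alt t h' G').Tn R ρ k' B‖ ≤ 12 * M / η ^ 3 * d ^ 3 := by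
  subst hk hk'
  exact cub_cl (tq_Tq h gz hR z) (tq_Tq h2 gz' hR (sz_alt z _ _)) η0 η1 (tq_le h gz hR z η0 η1)
    (tq_le h2 gz' hR (sz_alt z _ _) η0 η1) hM hB hd

theorem num_t {r X D e η κ M : ℝ} (hr : 10 ^ 4 * cG ^ 1 ≤ r) (X2 : 1 * cG ^ 1 ≤ X) (hD : 10 ^ 3 * X ≤ D)
    (he : e * D ^ 2 = 1) (η0 : 0 ≤ η) (κ0 : 0 ≤ κ) (hM : M ≤ X * (e ^ 2 * D⁻¹ * (η * e + κ)) +
      (η * (10 ^ 7 * cG / r ^ 3 * e ^ 3 + X * e ^ 4) + X * κ * e ^ 2) + 12 * cG * κ * e * e) :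
    12 * M / e ^ 3 ≤ η / 8 + D ^ 3 * κ := by
  have c1 := GD.cG1
  rw [pow_one] at hr X2
  have X1 : 1 ≤ X := by linarith
  have D0 : 0 < D := by linarith
  have e0 : 0 < e := (mul_pos_iff_of_pos_right (by positivity)).1 (he ▸ one_pos : 0 < e * D ^ 2)
  have D1 : D⁻¹ ≤ 1 := inv_le_one_of_one_le₀ (by linarith)
  have h1 : X * D⁻¹ ≤ 1 / 10 ^ 3 := by rw [← div_eq_mul_inv, div_le_iff₀ D0]; linarith
  have h2 : X * e ≤ 1 / 10 ^ 3 := by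
    refine le_trans (mul_le_mul_of_nonneg_left ?_ (by linarith)) h1
    rw [le_inv_comm₀ e0 D0, ← eq_inv_of_mul_eq_one_right he]
    nlinarith
  have h3 : 10 ^ 7 * cG / r ^ 3 ≤ 1 / 10 ^ 3 := by
    have r0 : 10 ^ 4 ≤ r := by linarith
    rw [div_le_div_iff₀ (by positivity) (by positivity)]
    nlinarith [pow_le_pow_left₀ (by norm_num) r0 2]
  rw [div_le_iff₀ (by positivity)]
  have a1 := mul_le_mul_of_nonneg_right h1 (show 0 ≤ η * e ^ 3 by positivity)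
  have a2 := mul_le_mul_of_nonneg_right h2 (show 0 ≤ η * e ^ 3 by positivity)
  have a3 := mul_le_mul_of_nonneg_right h3 (show 0 ≤ η * e ^ 3 by positivity)
  have a4 := mul_le_mul_of_nonneg_right h1 (show 0 ≤ κ * e ^ 2 by positivity)
  have a5 := mul_le_mul_of_nonneg_right hD (show 0 ≤ κ * e ^ 2 by positivity)
  have a6 := mul_le_mul_of_nonneg_right X2 (show 0 ≤ κ * e ^ 2 by positivity)
  have a0 := mul_le_mul_of_nonneg_right X1 (show 0 ≤ κ * e ^ 2 by positivity)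
  have a7 : D ^ 3 * κ * e ^ 3 = D * (κ * e ^ 2) := by linear_combination D * κ * e ^ 2 * he
  have a8 : 0 ≤ η * e ^ 3 := by positivity
  have a9 : 0 ≤ κ * e ^ 2 := by positivity
  rw [add_mul, a7]
  linarith

open Sd

section step

variable {S : Sd} {m' : BF} {s' : V →ₗ[ℝ] V} {T' : Fld → ℂ} {η κ ω e R : ℝ} (h : S.Nu 0)
  (he : e = ((S.D0 : ℝ) ^ 2)⁻¹) (hR : R = (S.r + 5 : ℕ))
include h

theorem up_L {C : ℝ} {i j : ℕ} (hC : C ≤ 10 ^ 20) (hij : i < j) : C * S.L ^ i ≤ S.L ^ j :=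
  (mul_le_mul_of_nonneg_right (h.cL' hC) (pow_pos (L0 _) _).le).trans
    ((pow_succ' _ _).ge.trans (pw _ hij))

theorem up_D {C : ℝ} {i : ℕ} (hC : C ≤ 10 ^ 20) (hi : i < S.K0) : C * S.L ^ i ≤ S.D0 :=
  (up_L h hC i.lt_succ_self).trans (h.LD hi)

include he hR

theorem sizes : 0 < e ∧ e * (S.D0 : ℝ) ^ 2 = 1 ∧ S.L * e ≤ (S.D0 : ℝ)⁻¹ ∧ e ≤ (S.D0 : ℝ)⁻¹ ∧
    0 < 3 * R * e ∧ 8 * (3 * R * e) ≤ S.L * e ∧ 8 * (3 * R * e) ≤ (S.r : ℝ) ^ 10 * e ∧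
    e ≤ 3 * R * e ∧ 3 * R * e + S.τ ≤ S.L * (S.D0 : ℝ)⁻¹ ∧ 3 * (4 * S.D0) * e ^ 2 ≤ 3 * R * e ∧
    e ≤ 1 := by
  have L1 := L1 S.toTd
  have D0 := D0' S.toTd
  have LD := h.L_le_D
  have r1 : (10 : ℝ) ^ 4 ≤ S.r := h.cr' (by norm_num)
  have L2 : (4 : ℝ) ≤ S.L := h.cL' (by norm_num)
  have e0 : 0 < e := by rw [he]; positivity
  have e2 : e * S.D0 = (S.D0 : ℝ)⁻¹ := by rw [he]; field_simp
  have e3 : S.L * e ≤ (S.D0 : ℝ)⁻¹ := by rw [← e2, mul_comm]; gcongr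
  have e4 : (S.D0 : ℝ)⁻¹ ≤ 1 / 4 := by rw [inv_le_comm₀ D0 (by norm_num)]; linarith
  have R1 : 1 ≤ R ∧ R ≤ 2 * S.r := by rw [hR]; push_cast; constructor <;> linarith
  have R2 : 24 * R ≤ S.L := by linarith [h.crL (C := 48) (k := 1) (by norm_num) (by omega)]
  have R3 : 48 * (S.r : ℝ) ≤ (S.r : ℝ) ^ 10 := by
    nlinarith [pow_le_pow_right₀ h.r1' (show 2 ≤ 10 by norm_num)]
  have R4 : 8 * (3 * R * e) ≤ S.L * e := by nlinarith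
  refine ⟨e0, by rw [he]; field_simp, e3, by nlinarith, by nlinarith, R4, by nlinarith,
    by nlinarith, by nlinarith [h.τ_le, inv_pos.2 D0], by nlinarith, by nlinarith⟩

omit h he hR in
theorem cl_of (c : ℕ) : ∃ K : ℕ, ∀ {S : Sd} {m' : BF} {s' : V →ₗ[ℝ] V} {T' : Fld → ℂ} {M' : ℕ}
    {η κ e R : ℝ}, S.c = c → K ≤ S.Kt → S.Nu 0 → e = ((S.D0 : ℝ) ^ 2)⁻¹ → R = (S.r + 5 : ℕ) →
    S.TOk → Lin S.l S.r S.c S.τ m' s' → Rng (3 * S.r) (3 * S.r) m' →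
    Tc (3 * S.r) ((M' : ℝ) ^ S.K0)⁻¹ ((M' : ℝ) ^ S.Kt) T' → (M' : ℝ) ^ S.K0 ≤ S.L * S.D0 →
    (M' : ℝ) ^ S.Kt ≤ S.L * S.L ^ S.Kt → 1 ≤ (M' : ℝ) ^ S.K0 → 0 < η → 0 < κ →
    (S.D0 : ℝ) ^ 3 * κ ≤ 1 → Tc (3 * S.r) e η (fun B => S.T B - T' B) → Cb (3 * S.r) κ (S.m - m') →
    (∀ B δ, Cv S.r δ B → ∀ f ∈ lbox S.l, |S.s B f - s' B f| ≤ κ * δ) →
    ∃ ω, Cl S.l (3 * R * e) ω (hh S.l S.m) (hh S.l m') (Gc S.l S.m S.s S.T) (Gc S.l m' s' T') ∧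
      ω ≤ S.L ^ (2 * S.Kt + 2) * (η * e + κ) ∧ ∀ B, (∀ f, ‖B f‖ ≤ 3 * R * e) → Cv S.r e B →
        ‖Gc S.l S.m S.s S.T (exF B) 0 - Gc S.l m' s' T' (exF B) 0‖ ≤ η * (10 ^ 7 * cG / (S.r : ℝ) ^ 3 *
          e ^ 3 + S.L ^ (9 * S.Kt) * e ^ 4) + S.L ^ (9 * S.Kt) * κ * e ^ 2 := by
  obtain ⟨K, hK⟩ := gc_cl c
  refine ⟨K + 5, fun {S m' s' T' M' η κ e R} e0 hk h he hR o lin rng tc m1 m2 m3 η0 κ0 κ1 hT hm
    hs => ?_⟩
  subst e0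
  obtain ⟨e0, e1, -, -, d0, R3, R4, R5, -⟩ := sizes h he hR
  have ex := h.exps
  have L1 := L1 S.toTd
  have D0 := D0' S.toTd
  have a0 : S.L ^ K * (8 * (3 * R * e)) ≤ ((M' : ℝ) ^ S.K0)⁻¹ := by
    rw [← one_div, le_div_iff₀ (by linarith)]
    calc _ ≤ S.L ^ K * (S.L * e) * (S.L * S.D0) := by gcongr
      _ = S.L ^ (K + 2) * (e * S.D0) := by ring
      _ ≤ S.D0 * (e * S.D0) := by gcongr; exact h.LD (by omega)
      _ = 1 := by linarith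
  have a1 : S.L ^ K * κ ≤ 8 * (3 * R * e) := by
    have a1 : S.L ^ K * κ ≤ S.D0 * κ := by gcongr; exact h.LD (by omega)
    have a2 : S.D0 * κ = e * ((S.D0 : ℝ) ^ 3 * κ) := by linear_combination -S.D0 * κ * e1
    linarith [mul_le_of_le_one_right e0.le κ1]
  have cL : cG ≤ S.L := by simpa using h.gL' (C := 1) (k := 1) (by norm_num) (by norm_num)
  have g := hK S.l S.r S.τ _ e _ _ η κ S.m m' S.s s' S.T T' o.lin lin o.rng rng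
    h.r_3.1 (h.rl (by omega)) cL
    (by positivity) a0 (inv_le_one_of_one_le₀ m3) R4 κ0 a1 η0
    (by positivity) tc hT hm hs
  change ∀ B, _ → (∀ A, _ → _ ≤ S.L ^ K * _ * _) ∧ ∀ d, _ → _ ≤ _ * (_ + S.L ^ K * _) +
    S.L ^ K * _ * _ at g
  obtain ⟨C, hC⟩ : ∃ C, C = 1 + (M' : ℝ) ^ S.Kt := ⟨_, rfl⟩
  rw [← hC] at g
  have C1 : 1 ≤ C := hC ▸ le_add_of_nonneg_right (by positivity)
  have C2 : C ≤ S.L ^ (S.Kt + 2) := by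
    have := up_L h (C := 2) (i := S.Kt + 1) (j := S.Kt + 2) (by norm_num) (by omega)
    have := one_le_pow₀ (n := S.Kt + 1) L1
    rw [← pow_succ'] at m2
    linarith
  refine ⟨S.L ^ S.Kt * (η * (8 * (3 * R * e)) + C * κ), ⟨by positivity, fun B A hB hA =>
    ((g B fun f => (hB f).trans (by linarith)).1 A hA).trans ?_, fun {a b α β} ha hb =>
      (hh_cl h.r_3.2 hm ha hb).trans ?_⟩, ?_, fun B hB hc =>
        ((g B fun f => (hB f).trans (by linarith)).2 e hc).trans ?_⟩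
  · calc _ = 64 * S.L ^ K * (η * (8 * (3 * R * e)) + C * κ) * (3 * R * e) ^ 2 := by ring
      _ ≤ _ := by gcongr; exact up_L h (by norm_num) (by omega)
  · refine mul_le_mul_of_nonneg_right (mul_le_mul (((mul_le_mul_of_nonneg_right (pow_one cG ▸
      h.gL' (k := 1) (by norm_num) (by norm_num)) (by positivity)).trans_eq (pow_succ' _ _).symm).trans
      (pw _ (by omega))) ?_ κ0.le
      (by positivity)) (mul_nonneg ha.nonneg hb.nonneg)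
    linarith [show 0 ≤ η * (8 * (3 * R * e)) by positivity, le_mul_of_one_le_left κ0.le C1]
  · calc _ ≤ S.L ^ S.Kt * (η * (S.L ^ (S.Kt + 2) * e) + S.L ^ (S.Kt + 2) * κ) := by
          gcongr _ * (_ * ?_ + ?_ * _)
          exact R3.trans (by gcongr; exact le_self_pow₀ L1 (by omega))
      _ = _ := by ring
  · gcongr η * (_ + ?_) + ?_
    · calc _ ≤ S.L ^ K * (S.L * e) ^ 4 := by gcongr
        _ = S.L ^ (K + 4) * e ^ 4 := by ring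
        _ ≤ _ := by gcongr; omega
    · calc _ ≤ S.L ^ K * (S.L ^ (S.Kt + 2) * κ) * (S.L * e) ^ 2 := by gcongr
        _ = S.L ^ (K + S.Kt + 4) * κ * e ^ 2 := by ring
        _ ≤ _ := by gcongr; omega

variable (k : S.TK)
  (k2 : (alt S.t (hh S.l m') (Gc S.l m' s' T')).Ok S.r S.c S.τ m' s' S.P S.δ)
  (cl : Cl S.l (3 * R * e) ω (hh S.l S.m) (hh S.l m') (Gc S.l S.m S.s S.T) (Gc S.l m' s' T'))
  (ω1 : ω ≤ S.L ^ (2 * S.Kt + 2) * (η * e + κ)) (η0 : 0 < η) (κ0 : 0 < κ)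
include k

theorem sz_e : S.t.Sz S.c S.τ S.P S.δ (3 * R * e) := by
  obtain ⟨e0, -, -, e3, -⟩ := sizes h he hR
  exact hR ▸ sz_of k.ok (by omega) h.sz1 e0 (by linarith)

include k2 cl ω1 η0 κ0

theorem T1_cl (gz : Gz S.l S.r m' s' (S.L ^ S.Kt / S.r) (S.L ^ S.Kt / S.L) S.δ (Gc S.l m' s' T'))
    (hz : ∀ B, (∀ f, ‖B f‖ ≤ 3 * R * e) → Cv S.r e B →
      ‖Gc S.l S.m S.s S.T (exF B) 0 - Gc S.l m' s' T' (exF B) 0‖ ≤ η * (10 ^ 7 * cG / (S.r : ℝ) ^ 3 *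
        e ^ 3 + S.L ^ (9 * S.Kt) * e ^ 4) + S.L ^ (9 * S.Kt) * κ * e ^ 2)
    {k' : BF} (hk : k' = mb S.l 3 m' s') (h1 : Cb (S.r + 5) κ (S.m1 - k')) {φ : Fld → ℂ}
    (hφ : φ = (alt S.t (hh S.l m') (Gc S.l m' s' T')).Tn (S.r + 5) (S.D0 : ℝ)⁻¹ k') {B : Fld}
    {d : ℝ} (hB : Cv (S.r + 5) d B) (hd : d ≤ e) : ‖S.T1 B - φ B‖ ≤ (η / 8 + (S.D0 : ℝ) ^ 3 * κ) * d ^ 3 := by
  have z := sz_e h he hR k
  obtain ⟨e0, e1, -, e3, d0, R3, -, -, a1, -⟩ := sizes h he hR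
  have ex := h.exps
  have L1 := L1 S.toTd
  have D0 := D0' S.toTd
  have r4 : S.r + 4 ≤ S.r + 5 := by omega
  subst hR
  have b2 := Tn_cl (k := S.m1) k.ok k2 k.gz gz r4 h.sz1 e0 e3 rfl hk (tq_cl k.ok k2 r4 z cl hz h1)
    hB hd
  rw [Td.T1, hφ]
  refine le_trans b2 (mul_le_mul_of_nonneg_right (num_t (h.gr' (by norm_num) (by norm_num))
    ((h.gL' (by norm_num) (by norm_num)).trans (le_self_pow₀ (n := 9 * S.Kt) L1 (by omega))) (up_D h (by norm_num) (by omega)) e1 η0.le κ0.le ?_)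
    (pow_nonneg hB.nonneg 3))
  rw [al_eq]
  generalize ((S.r + 5 : ℕ) : ℝ) = R at *
  have τ0 := k.ok.τ0
  have ω0 := cl.ω0
  have a2 : 3 * R * e ≤ S.L * e := by linarith
  gcongr ?_ + _ + _
  show S.L ^ (9 * S.c + 31) * (S.L ^ (2 * S.Kt) * _ * _) ≤ _
  calc _ ≤ S.L ^ (9 * S.c + 31) * (S.L ^ (2 * S.Kt) * (S.L ^ (8 * S.c + 24 + 2 * S.Kt) *
        (S.L * e * (S.L * (S.D0 : ℝ)⁻¹))) * (S.L ^ (2 * S.Kt + 2) * (η * e + κ) * (S.L * e))) := by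
        gcongr
    _ = S.L ^ (17 * S.c + 60 + 6 * S.Kt) * (e ^ 2 * (S.D0 : ℝ)⁻¹ * (η * e + κ)) := by ring
    _ ≤ _ := by gcongr; omega

theorem ol_cl {φ : Fld → ℂ} (hφ : ∀ B, φ B =
      (dtK S.l S.Λ S.N ∅ fun y => (alt S.t (hh S.l m') (Gc S.l m' s' T')).kd (sh y (S.wB 0))) -
        dtK S.l S.Λ S.N ∅ fun y => (alt S.t (hh S.l m') (Gc S.l m' s' T')).kd (sh y (S.wB B)))
    (tq : Tq (4 * S.D0) (1 / (S.D0 : ℝ) ^ 2) φ) {Q : ℝ} (hQ : ∀ {B d}, Cv (4 * S.D0) d B →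
      d ≤ 1 / (S.D0 : ℝ) ^ 2 → ‖φ B‖ ≤ Q * d ^ 2) {a b : V} {d d' : ℝ} (ha : Cv 0 d a)
    (hb : Cv 0 d' b) (d1 : 0 < d) (d2 : 0 < d') :
    ‖qc S.ol a b - qc φ a b‖ ≤ (S.D0 : ℝ) ^ 9 * (η + κ) * d * d' := by
  have z := sz_e h he hR k
  obtain ⟨e0, e1, -, -, -, -, -, -, -, a1, e3⟩ := sizes h he hR
  have ex := h.exps
  have L0 := L0 S.toTd
  have f := k.fo h
  have e4 : e ^ 2 ≤ 1 / (S.D0 : ℝ) ^ 2 := by
    rw [one_div, ← he]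
    nlinarith
  have b1 : ∀ B : Fld, Cv (4 * S.D0) (e ^ 2) B → ∀ x, ‖cut (4 * S.D0) (cg B) x‖ ≤ 3 * R * e :=
    fun B hB x => (JS.cut_cg_bd hB hB.nonneg x).trans (by push_cast; exact a1)
  refine (qc_cl f.ol_tq tq (by positivity) e4 (fun B hB => f.ol_le hB e4)
    (fun B hB => hQ hB e4) (M := 2 * (S.L ^ (4 * S.c + 20) * ω)) (fun B hB => ?_)
    ha hb d1 d2).trans ?_
  · have := norm_sub_le_of_le (dt_cl k.ok z (b1 0 (Ho.cv_zero _ hB.nonneg)) k2 cl)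
      (dt_cl k.ok z (b1 B hB) k2 cl)
    rw [← two_mul, sub_sub_sub_comm] at this
    rw [hφ]
    exact this
  · gcongr
    rw [div_le_iff₀ (by positivity)]
    have a1 : η * e ≤ η := mul_le_of_le_one_right η0.le e3
    calc _ ≤ 12 * (2 * (S.L ^ (4 * S.c + 20) * (S.L ^ (2 * S.Kt + 2) * (η + κ)))) := by
          gcongr
          exact ω1.trans (by gcongr)
      _ = 24 * S.L ^ (4 * S.c + 22 + 2 * S.Kt) * (η + κ) := by ring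
      _ ≤ S.D0 * (η + κ) := by
          gcongr
          exact up_D h (by norm_num) (by omega)
      _ = S.D0 * (η + κ) * (e * (S.D0 : ℝ) ^ 2) ^ 4 / (e ^ 4 * (S.D0 : ℝ) ^ 8) *
          (e ^ 4 * (S.D0 : ℝ) ^ 8) := by rw [e1, div_mul_cancel₀ _ (by have := D0' S.toTd; positivity)]; ring
      _ = _ := by have := D0' S.toTd; field_simp

end step

/-- one step -/
theorem t_step (c : ℕ) : ∃ K : ℕ, ∀ (S S' : Sd) (η κ : ℝ), S.c = c → K ≤ S.Kt → S'.c = S.c →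
    S'.Kt = S.Kt → S'.K0 = S.K0 → S'.l = S.l → S.Nu 0 → S'.Nu 0 → S.TK → S'.TK → S.TOk → S'.TOk →
    0 < η → 0 < κ → (S.D0 : ℝ) ^ 3 * κ ≤ 1 →
    Tc (3 * S.r) ((S.D0 : ℝ) ^ 2)⁻¹ η (fun B => S.T B - S'.T B) → Cb (3 * S.r) κ (S.m - S'.m) →
    (∀ B δ, Cv S.r δ B → ∀ f ∈ lbox S.l, |S.s B f - S'.s B f| ≤ κ * δ) →
    Cb (S.r + 5) κ (S.m1 - S'.m1) →
      (∀ B d, Cv (S.r + 5) d B → d ≤ ((S.D0 : ℝ) ^ 2)⁻¹ →
        ‖S.T1 B - S'.T1 B‖ ≤ (η / 8 + (S.D0 : ℝ) ^ 3 * κ) * d ^ 3) ∧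
      ∀ a b d d', Cv 0 d a → Cv 0 d' b → 0 < d → 0 < d' →
        ‖qc S.ol a b - qc S'.ol a b‖ ≤ (S.D0 : ℝ) ^ 9 * (η + κ) * d * d' := by
  obtain ⟨K, hK⟩ := cl_of c
  refine ⟨K, fun S S' η κ e0 hk e1 e2 e3 e4 h h' k k' o o' η0 κ0 κ1 hT hm hs h1 => ?_⟩
  obtain ⟨⟨c', Kt', K0', l', m', s', T'⟩, K', B', M', n', β, β'⟩ := S'
  dsimp only at e1 e2 e3 e4 hT hm hs
  subst e1 e2 e3 e4
  obtain ⟨ω, cl, ω1, hz⟩ := hK (M' := M') e0 hk h rfl rfl o o'.lin o'.rng o'.tc h'.MD_le' h'.MT_le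
    ((one_le_pow₀ (L1 _)).trans (h'.ok.LM_pow _)) η0 κ0 κ1 hT hm hs
  refine ⟨fun B d => T1_cl h rfl rfl k k'.ok cl ω1 η0 κ0 k'.gz hz ?_ h1 ?_, fun a b d d' =>
    ol_cl h rfl rfl k k'.ok cl ω1 η0 κ0 (fun B => ?_) (k'.fo h').ol_tq (k'.fo h').ol_le⟩
  exacts [rfl, rfl, congrArg₂ (· - ·) rfl rfl]

end Pool.Agent.Lib.MP_7f377f_mp.RG.Q4.Af
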