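import Pool.Agent.Lib.MP_7f377f_mp.G.Q4EDef
import Pool.Agent.Lib.MP_7f377f_mp.G.Q4LinT

/-! Bounds of the quadratic densities and contraction of their differences. -/

noncomputable section

set_option linter.unusedSectionVars false
variable [Pool.Agent.Lib.MP_7f377f_mp.GD]

namespace Pool.Agent.Lib.MP_7f377f_mp.RG.Q4.En

open Filter Sd La La.Q

theorem inv_cv : ∃ c : ℕ, ∀ (n r : ℕ) (cL cU : ℝ) (m : BF), c ≤ r → cU ≤ 20 → Inv n r cL cU m →
    Bd r r ((r : ℝ) ^ c) m ∧ ∀ a δ, Cv r δ a → |m a a| ≤ (r : ℝ) ^ c * δ ^ 2 := by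
  obtain ⟨c, h⟩ := inv_bd
  refine ⟨c + 9, fun n r cL cU m hr h1 hm => ?_⟩
  have r9 : (9 : ℝ) ≤ r := by exact_mod_cast (by omega : 9 ≤ r)
  have hb := h _ _ _ _ _ (by omega) h1 hm
  refine ⟨fun a b δ δ' ha hb' => (hb a b δ δ' ha hb').trans (mul_le_mul_of_nonneg_right
    (mul_le_mul_of_nonneg_right (pow_le_pow_right₀ (by linarith) (by omega)) ha.nonneg)
    hb'.nonneg), fun a δ ha => ?_⟩
  have h2 := hb _ _ _ _ (Sm_cg ha) (Sm_cg ha)
  rw [m_closed hm.gauge (dd_cg a), hm.symm, m_closed hm.gauge (dd_cg a)] at h2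
  calc _ ≤ 9 * (r : ℝ) ^ (c + 2) * δ ^ 2 := h2.trans_eq (by ring)
    _ ≤ r * (r : ℝ) ^ (c + 2) * δ ^ 2 := by gcongr
    _ = (r : ℝ) ^ (c + 3) * δ ^ 2 := by ring
    _ ≤ _ := mul_le_mul_of_nonneg_right (pow_le_pow_right₀ (by linarith) (by omega)) (sq_nonneg _)

theorem r_pow {S : Sd} {a k R : ℕ} (h : S.Nu a) (hk : k ≤ S.Kt) (hR : R ≤ 3 * S.r) :
    100 * (R : ℝ) ^ k ≤ S.L := by
  have ex := h.exps
  have h1 : (R : ℝ) ≤ (S.r : ℝ) ^ 2 := by
    have := h.lens.1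
    exact_mod_cast hR.trans (by nlinarith)
  refine le_trans ?_ ((h.mono a.zero_le).crL (C := 100) (k := 2 * k) (by norm_num) (by omega))
  rw [pow_mul]
  gcongr

theorem ev_bd (c : ℕ) : ∀ᶠ S in ev0 c, ∀ (t : Td) M j v e, t.l = S.l → v ≤ 2 → 0 ≤ v → e ≤ 1 →
    t.Tr M j v e → Bd (3 * S.r) (3 * S.r) S.L t.m ∧ Cb (3 * S.r) S.L t.m := by
  obtain ⟨c1, H⟩ := inv_cv
  filter_upwards [ev_nu c 0, ev_Kt c1] with S h hk t M j v e e1 v2 v0 he ht
  obtain ⟨ρ, -, -, hm⟩ := ht.ch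
  rw [show t.r = S.r by unfold Td.r; rw [e1]] at hm
  have ex := h.exps
  have rb := h.r_big
  have h1 := r_pow h hk le_rfl
  have h2 : (0 : ℝ) ≤ (3 * S.r : ℕ) ^ c1 := by positivity
  obtain ⟨k1, k2⟩ := H _ _ _ _ _ (by omega) le_rfl (hm.inv20 v0 v2 he)
  exact ⟨fun a b δ δ' ha hb => (k1 a b δ δ' ha hb).trans (mul_le_mul_of_nonneg_right
      (mul_le_mul_of_nonneg_right (by linarith) ha.nonneg) hb.nonneg),
    fun a b δ δ' ha hb => (bil hm.inv.symm k2 a b δ δ' ha hb).trans (mul_le_mul_of_nonneg_right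
      (mul_le_mul_of_nonneg_right (by linarith) ha.nonneg) hb.nonneg)⟩

theorem ev_df (c : ℕ) : ∀ᶠ S in ev0 c, DfS S := by
  obtain ⟨c1, H⟩ := inv_cv
  obtain ⟨c2, H2⟩ := df_apriori
  obtain ⟨c3, H3⟩ := df_next c
  filter_upwards [ev_nu c 0, ev_Kt (c1 + c2 + c3), H3] with S h hk H3 t M M' j j' v v' e e' lam
    lam' η σ e2 e1 v1 v2 v3 v4 a1 a3 t1 l1 t2 l2 b1 b2 b3 b4 b5 b6 s0
  obtain ⟨ρ, -, r1, m1⟩ := t1.ch
  obtain ⟨ρ', -, r2, m2⟩ := t2.ch
  have er : t.r = S.r := by unfold Td.r; rw [e1]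
  rw [er] at m2
  have ex := h.exps
  have rb := h.r_big
  have lb := h.l_big
  have η0 := a1.trans b2
  have q1 := h.L_le_Q
  have q2 := mul_le_mul_of_nonneg_right (h.cQ' (C := 1000) (by norm_num)) η0
  have p2 := r_pow h (k := c2) (by omega) le_rfl
  have p3 := r_pow h (k := c3) (R := S.r) (by omega) (by omega)
  have p1 := r_pow h (k := c1) (R := S.r + 3) (by omega) (by omega)
  have L0 := L0 S.toTd
  refine ⟨fun a δ ha => (H2 _ _ _ _ _ _ _ _ _ (by omega) le_rfl le_rfl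
    (m1.inv20 (by linarith) v2 (by linarith)) (m2.inv20 (by linarith) v4 (by linarith))
    a δ ha).trans (mul_le_mul_of_nonneg_right (by linarith) (sq_nonneg δ)), fun hd a δ ha => ?_⟩
  have p4 : (S.r : ℝ) ^ c3 * (5 * η) ≤ S.L / 20 * η := by nlinarith
  have k1 := (H3 t j j' ρ ρ' v v' e e' σ (5 * η) e1 e2 v1 v2 v3 v4 a1 (by linarith) a3
    (by linarith) r1 r2 m1 m2 l1 l2 (by linarith) (by nlinarith) (fun b hb => ?_) hd).1 a δ ha
  · have t0 : t.τ ≤ 1 := by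
      rw [show t.τ = S.τ by unfold Td.τ Td.L; rw [er, e1, e2]]
      simpa using h.τ_g (i := 0) (j := 0) (by norm_num) (by norm_num)
    have i1 := m2.inv_mn v3 v4 a3 (by linarith) (l := t.l) (by omega) r2 l2.inv
    have k2 := (H _ _ _ _ _ (by omega) (by nlinarith)
      (inv_mb i1 3 (by norm_num) i1.lower)).2 a δ (er ▸ ha)
    rw [er] at k2
    have c0 := Nu.cs0 (S := S)
    have c4 := h.cs_le (k := 1) (by omega)
    have c5 := mul_le_mul_of_nonneg_right (h.cr' (C := 6) (by norm_num)) c0.le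
    rw [pow_one] at c4
    have c6 : S.cs ^ 10 ≤ S.cs / 6 :=
      (pow_le_pow_of_le_one c0.le (by linarith) (show 2 ≤ 10 by norm_num)).trans (by nlinarith)
    have g1 := h.τ_g (i := 2) (j := 2) (by norm_num) (by norm_num)
    have g2 := mul_le_mul_of_nonneg_right (h.cQ' (C := 2) (by norm_num))
      (mul_pos S.Q0 (Nu.τ0 (S := S))).le
    rw [inv_eq_of_mul_eq_one_right h.ok.βg]
    obtain ⟨d1, d2⟩ := abs_le.1 b4
    obtain ⟨d3, d4⟩ := abs_le.1 b5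
    change |lam * S.m1 a a - lam' * t.m1 a a| ≤ _
    change |t.m1 a a| ≤ _ at k2
    calc _ = |lam * (S.m1 a a - t.m1 a a) + (lam - lam') * t.m1 a a| := by ring_nf
      _ ≤ 2 * |S.m1 a a - t.m1 a a| + 2 * η * |t.m1 a a| := by
        refine (abs_add_le _ _).trans ?_
        rw [abs_mul, abs_mul]
        gcongr <;> rw [abs_le] <;> constructor <;> linarith
      _ ≤ 2 * (((S.r : ℝ) ^ c3 * (5 * η) + S.cs ^ 10 * σ + S.Q * S.τ) * δ ^ 2) +
          2 * η * ((S.r + 3 : ℕ) ^ c1 * δ ^ 2) := by gcongr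
      _ = (2 * (S.cs ^ 10 * σ) + (2 * ((S.r : ℝ) ^ c3 * (5 * η)) + 2 * (S.r + 3 : ℕ) ^ c1 * η) +
          2 * (S.Q * S.τ)) * δ ^ 2 := by ring
      _ ≤ _ := by
        refine mul_le_mul_of_nonneg_right (add_le_add (add_le_add ?_ ?_) ?_) (sq_nonneg δ)
        · nlinarith
        · nlinarith
        · nlinarith
  · have k1 := abs_le.1 (m1.cc b hb)
    have k2 := abs_le.1 (m2.cc b hb)
    have n0 := Li.nd_nonneg b 0
    have k3 : m0 b b = 2⁻¹ * nd b 0 := by simpa [Li.sh_zero] using Li.m0_sh b 0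
    obtain ⟨d1, d2⟩ := abs_le.1 b1
    simp only [LinearMap.smul_apply, smul_eq_mul, k3] at k1 k2
    have k4 : v * e ≤ 2 * η := mul_le_mul v2 b2 a1 zero_le_two
    have k5 : v' * e' ≤ 2 * η := mul_le_mul v4 b3 a3 zero_le_two
    rw [abs_le]
    constructor <;> nlinarith

end Pool.Agent.Lib.MP_7f377f_mp.RG.Q4.En
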