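import Pool.Agent.Lib.MP_7f377f_mp.G.Q4AfK
import Pool.Agent.Lib.MP_7f377f_mp.G.Q4IniA

/-! Hessians of local densities at abelian backgrounds. -/

noncomputable section

set_option linter.unusedSectionVars false
variable [Pool.Agent.Lib.MP_7f377f_mp.GD]

namespace Pool.Agent.Lib.MP_7f377f_mp.RG.Q4.Af

open Finset Matrix

variable {N : Fin 4 → ℕ} [∀ i, NeZero (N i)] {S : Sd} {ε φ F Q g1 g2 : ℝ}
  {θ : Lk → Ang} {t t' : Cf → ℂ}

theorem NQ_le (a : IL N → ℝ) : NQ (ab θ) a ≤ 260 * cG * Fintype.card (TS N) * ‖a‖ ^ 2 := by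
  have h : ∀ i, |a i| ≤ ‖a‖ := fun i => norm_le_pi_norm a i
  have h1 : ∑ i with GD.q i.2 ≠ 0, a i ^ 2 ≤ ∑ _i : IL N, ‖a‖ ^ 2 :=
    (sum_le_sum fun i _ => sq_le_sq' (abs_le.1 (h i)).1 (abs_le.1 (h i)).2).trans
      (sum_le_sum_of_subset_of_nonneg (filter_subset _ _) fun _ _ _ => by positivity)
  have h2 : ∑ x, ∑ μ, ∑ ν, ∑ k with GD.q k = 0, crl (ab θ) a x μ ν k ^ 2 ≤
      ∑ _x : TS N, ∑ _μ : Fin 4, ∑ _ν : Fin 4, ∑ _k : Fin GD.d, (4 * ‖a‖) ^ 2 :=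
    sum_le_sum fun x _ => sum_le_sum fun μ _ => sum_le_sum fun ν _ => by
      refine (sum_le_sum fun k hk => ?_).trans
        (sum_le_sum_of_subset_of_nonneg (filter_subset _ _) fun _ _ _ => by positivity)
      rw [crl_zero _ _ _ _ (mem_filter.1 hk).2]
      have := abs_le.1 (h ((x, μ), k))
      have := abs_le.1 (h ((x + Pi.single μ 1, ν), k))
      have := abs_le.1 (h ((x + Pi.single ν 1, μ), k))
      have := abs_le.1 (h ((x, ν), k))
      exact sq_le_sq' (by linarith) (by linarith)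
  simp only [sum_const, card_univ, Fintype.card_prod, Fintype.card_fin, nsmul_eq_mul] at h1 h2
  push_cast at h1 h2
  rw [NQ]
  linarith [mul_le_mul_of_nonneg_right GD.d_le
    (by positivity : 0 ≤ (Fintype.card (TS N) : ℝ) * ‖a‖ ^ 2)]

theorem TD.hess (h : TD Q t) (hp : PV N θ) (hc : ∀ x μ ν, dd θ x μ ν = (kF F μ ν : ℝ))
    (hF : |F| ≤ φ) (φ0 : 0 < φ) (hφ : Q ^ 3 * φ ≤ 1) :
    Tay (SS N t (ab θ)) (Hs N t θ) (Fintype.card (TS N) * Q ^ 5) (Q ^ 2)⁻¹ ∧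
    (∀ v, Hs N t θ *ᵥ DL N (ab θ) v = 0) ∧
    (∀ a, |a ⬝ᵥ Hs N t θ *ᵥ a| ≤ Fintype.card (TS N) * Q ^ 12 * ‖a‖ ^ 2) ∧
    ∀ a, 48020⁻¹ * CQ (ab θ) a - Q ^ 14 * φ * NQ (ab θ) a ≤ a ⬝ᵥ Hs N t θ *ᵥ a := by
  obtain ⟨R, δ, M, l, hR, hδ, δ1, hM⟩ := h.ex
  have big := h.big
  have Q0 : 0 < Q := by linarith
  have δ0 : 0 < δ := pos_of_mul_pos_right (lt_of_lt_of_le one_pos hδ) Q0.le
  have M0 := l.nonneg δ0.le
  have F0 := abs_nonneg F
  have R0 : (0 : ℝ) ≤ R := R.cast_nonneg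
  have a1 : Q ^ 2 * φ ≤ δ := le_of_mul_le_mul_left (by linarith) Q0
  have a2 : 600 * Q * φ ≤ δ := le_trans (by gcongr; nlinarith) a1
  have a3 : R * |F| ≤ Q * φ := by gcongr
  have a4 : δ⁻¹ ≤ Q := by rw [inv_le_iff_one_le_mul₀ δ0]; exact hδ
  have a5 : (2 * R + 1 : ℝ) ^ 6 ≤ (3 * Q) ^ 6 := by gcongr; linarith
  obtain ⟨H, T, -⟩ := hess0 (N := N) l δ1 δ0 hc (by linarith)
  have c1 := GD.cG1
  have c3 : cG ≤ cG ^ 3 := le_self_pow₀ c1 (by norm_num)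
  have c4 : 10 ^ 9 * cG ^ 3 ≤ Q := le_trans (by gcongr; norm_num) h.cg
  have r0 : 0 < δ / (20 * cG) := by positivity
  rw [Hs_eq T r0]
  refine ⟨T.mono ?_ ?_, hess_kill l δ1 δ0 hp hc (by linarith) T r0, fun a => ?_, fun a => ?_⟩
  · gcongr
    calc 12 * M / (δ / (20 * cG)) ^ 3 = 96000 * cG ^ 3 * M * δ⁻¹ ^ 3 := by field_simp; ring
      _ ≤ Q * Q * Q ^ 3 := by gcongr; linarith
      _ = _ := by ring
  · rw [inv_le_comm₀ (by positivity) r0, inv_div, div_eq_mul_inv, sq]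
    gcongr; linarith
  · refine (quad_U l δ1 δ0 hp hc (by linarith) T r0 a).trans ?_
    calc _ = 144 * (2 * R + 1) ^ 6 * (5000 * M * δ⁻¹ ^ 2) * NQ (ab θ) a := by field_simp
      _ ≤ 144 * (3 * Q) ^ 6 * (5000 * Q * Q ^ 2) * (260 * cG * Fintype.card (TS N) * ‖a‖ ^ 2) := by
        gcongr
        exacts [NQ_nonneg _ _, NQ_le a]
      _ = Fintype.card (TS N) * (136468800000 * cG * Q ^ 9) * ‖a‖ ^ 2 := by ring
      _ ≤ Fintype.card (TS N) * (Q ^ 2 * Q * Q ^ 9) * ‖a‖ ^ 2 := by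
        gcongr
        exacts [le_trans (by norm_num) (pow_le_pow_left₀ (by norm_num) big 2), by linarith]
      _ = _ := by ring
  · refine le_trans ?_ (quad_L l δ1 hp hc (η := 6 * Q * φ) (by positivity) (by linarith)
      (by linarith) T r0 h.pos a)
    refine sub_le_sub_left (mul_le_mul_of_nonneg_right ?_ (NQ_nonneg _ _)) _
    calc _ = 144 * (2 * R + 1) ^ 6 * (256000 * M * (6 * Q * φ) * δ⁻¹ ^ 3) := by field_simp
      _ ≤ 144 * (3 * Q) ^ 6 * (256000 * Q * (6 * Q * φ) * Q ^ 3) := by gcongr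
      _ = 161243136000 * Q ^ 11 * φ := by ring
      _ ≤ Q ^ 3 * Q ^ 11 * φ := by
        gcongr
        exact le_trans (by norm_num) (pow_le_pow_left₀ (by norm_num) big 3)
      _ = _ := by ring

theorem td_of (h : S.Nu 100) (ht : S.TOk) : TD S.Q (tf S.m S.T) := by
  obtain ⟨j, cU, hU, hm⟩ := ht.inv
  have hb : Bd (3 * S.r) (3 * S.r) (5120 * Lin.KK ^ 2 * (2 * (3 * S.r : ℕ) + 3) ^ 4) S.m :=
    fun a b δ δ' ha hb => Lin.m_bd hm hU ha hb
  have ex := h.exps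
  have Q0 := S.Q0
  have L1 := Sd.L1 S.toTd
  have r1 := h.r1'
  have M1 : ∀ k, (1 : ℝ) ≤ (S.M : ℝ) ^ k := fun k => (one_le_pow₀ L1).trans (h.ok.LM_pow k)
  have a1 := h.crL (C := 5000) (k := 1) (by norm_num) (by omega)
  have a2 := h.L_le_Q
  have r0 : 0 < ((S.M : ℝ) ^ S.K0)⁻¹ := inv_pos.2 (one_pos.trans_le (M1 _))
  refine ⟨h.cQ' (by norm_num), h.gQ' (by norm_num) (by norm_num), ⟨_, S.Q⁻¹, _, lo_tf ht.rng hb ht.tc ?_ ?_, ?_,
    (mul_inv_cancel₀ Q0.ne').ge, ?_, ?_⟩, ?_⟩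
  · rw [← div_eq_mul_inv, div_le_one Q0]
    push_cast
    linarith
  · rw [← div_eq_mul_inv, div_le_iff₀ Q0, ← div_eq_inv_mul, le_div_iff₀ (one_pos.trans_le (M1 _))]
    refine le_trans ?_ (h.LQ (k := S.K0 + 1 + 1) (by omega))
    rw [pow_succ']
    refine mul_le_mul ?_ (h.M_pow' (by omega)) (by positivity) (by positivity)
    push_cast
    linarith
  · push_cast
    linarith
  · rw [inv_le_comm₀ Q0 (by norm_num)]
    exact h.cQ' (by norm_num)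
  · have b1 : (S.M : ℝ) ^ S.Kt * ((S.M : ℝ) ^ S.K0)⁻¹ ^ 3 ≤ 1 := by
      rw [inv_pow, ← div_eq_mul_inv, div_le_one (pow_pos (one_pos.trans_le (M1 _)) _), ← pow_mul]
      exact pow_le_pow_right₀ (by simpa using M1 1) (by omega)
    have b2 := h.crL (C := 10 ^ 100) (k := 4) (by norm_num) (by omega)
    have b3 : 5120 * Lin.KK ^ 2 * (2 * (3 * S.r : ℕ) + 3 : ℝ) ^ 4 ≤
        10 ^ 94 * (9 * S.r : ℝ) ^ 4 := by
      refine mul_le_mul (by norm_num [Lin.KK]) ?_ (by positivity) (by positivity)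
      push_cast
      gcongr
      linarith
    have b4 : (1 : ℝ) ≤ S.r ^ 4 := one_le_pow₀ r1
    nlinarith
  · obtain ⟨j, v, e, -, -, -, -, ⟨⟨ρ, -, ρ3, c⟩, tc, -⟩, -⟩ := ht
    exact pos_tf hm.rng hb tc r0 hm.symm hm.gauge fun a => by linarith [c.pos0 ρ3 a]

theorem l1_diff {R : ℕ} {m m' : BF} {T T' : Fld → ℂ} {ρ C C' σ ρ1 δ : ℝ} (hm : Rng R R m)
    (hm' : Rng R R m') (hs : ∀ a b, m a b = m b a) (hs' : ∀ a b, m' a b = m' b a)
    (hT : Tc R ρ C T) (hT' : Tc R ρ C' T') (h1 : ρ1 ≤ ρ) (h2 : ρ1 ≤ 1) (d1 : Df R σ m m')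
    (d2 : ∀ B d, Cv R d B → d ≤ ρ1 → ‖T B - T' B‖ ≤ σ * d ^ 3) (h3 : 1000 * (R + 3) * δ ≤ ρ1) :
    L1 (R + 3) δ (1000 * σ) fun U => tf m T U - tf m' T' U := by
  have σ0 : 0 ≤ σ := by simpa using d1 0 1 (Ho.cv_zero R zero_le_one)
  have kr : Rng (R + 1) (R + 1) (m - m') := fun a b h => by
    have h' : (∀ e ∈ lbox R, a e = 0) ∨ ∀ e ∈ lbox R, b e = 0 :=
      h.imp (fun h e he => h e (lbox_mono R.le_succ he)) fun h e he => h e (lbox_mono R.le_succ he)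
    simp [hm a b h', hm' a b h']
  have kb : Bd (R + 1) (R + 1) (32 * σ) (m - m') := fun a b δ δ' ha hb =>
    (La.Q.bil (k := m - m') (fun a b => by simp [hs a b, hs' a b]) d1 a b _ _ ha.cv hb.cv).trans_eq
      (by ring)
  have kt : Tc (R + 1) ρ1 σ fun B => T B - T' B :=
    ⟨fun A B h => by
      rw [hT.loc A B fun x hx => h x (box_mono R.le_succ hx),
        hT'.loc A B fun x hx => h x (box_mono R.le_succ hx)],
      fun Ω γ a b c => (hT.hol Ω γ a b fun s hs => (c s hs).mono R.le_succ h1).sub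
        (hT'.hol Ω γ a b fun s hs => (c s hs).mono R.le_succ h1),
      fun B d a b => d2 B d (a.mono R.le_succ le_rfl) b, fun u B => by rw [hT.ad, hT'.ad],
      hT.meas.sub hT'.meas⟩
  have R0 : (0 : ℝ) ≤ R := R.cast_nonneg
  have k3 : 1000 * ((R + 1 : ℕ) + 2) * min δ (9 * δ) ≤ 1 ∧
      120 * ((R + 1 : ℕ) + 2) * min δ (9 * δ) ≤ ρ1 := by
    push_cast
    rcases le_total 0 δ with h | h
    · rw [min_eq_left (by linarith)]
      constructor <;> nlinarith [mul_nonneg R0 h]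
    · rw [min_eq_right (by linarith)]
      constructor <;> nlinarith [mul_nonneg R0 (neg_nonneg.2 h)]
  have H := lo_tf kr kb kt k3.1 k3.2
  have e : (fun U => tf m T U - tf m' T' U) = tf (m - m') fun B => T B - T' B := by
    funext U
    have := cx_add (m - m') m' (Bx 0 U) (Bx 0 U)
    rw [show m - m' + m' = m from sub_add_cancel m m'] at this
    simp only [tf, this]
    ring
  have k : ∀ x : Hc, ‖x‖ ≤ δ → ‖x‖ ≤ min δ (9 * δ) := fun x h =>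
    le_min h (by linarith [norm_nonneg x])
  rw [e]
  refine ⟨H.gi, H.loc, fun Ω γ a b c => H.hol Ω γ a b fun s hs i hi => k _ (c s hs i hi),
    fun U h => (H.bd U fun i hi => k _ (h i hi)).trans ?_⟩
  have : ρ1 ^ 3 ≤ 1 := by nlinarith [mul_nonneg (sub_nonneg.2 h2) (sq_nonneg (ρ1 + 1 / 2))]
  nlinarith

theorem lk_near (h : TD Q t) (h' : TD Q t') {R : ℕ} {δ M η : ℝ}
    (d : L1 R δ M fun U => t' U - t U) (δ0 : 0 < δ) (δ1 : δ ≤ 1 / 10) (hb : Bg N F θ)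
    (gp : Gap N (ab θ) g1 g2) (g0 : 1 ≤ g1) (hF : |F| ≤ φ) (φ0 : 0 < φ) (hφ : Q ^ 20 * φ * g1 ≤ 1)
    (hd : 600 * R * φ ≤ δ) (hη : 10 ^ 11 * (2 * R + 1) ^ 6 * M / δ ^ 2 * g1 ≤ η) (η1 : η ≤ 1 / 2) :
    |LK N t' θ - LK N t θ| ≤ η * Fintype.card (IL N) := by
  have big := h.big
  have Q1 : 1 ≤ Q := by linarith
  have M0 := d.nonneg δ0.le
  have a0 : 0 ≤ Q ^ 14 * φ * g1 := by positivity
  have a1 : Q ^ 6 * (Q ^ 14 * φ * g1) ≤ 1 := by linarith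
  have a2 : 10 ^ 9 ≤ Q ^ 6 := big.trans (le_self_pow₀ Q1 (by norm_num))
  have a3 : Q ^ 3 * φ ≤ 1 := le_trans ((mul_le_mul_of_nonneg_right
    (pow_le_pow_right₀ Q1 (by norm_num)) φ0.le).trans (le_mul_of_one_le_right (by positivity) g0)) hφ
  obtain ⟨T, k, -, lo⟩ := h.hess hb.per hb.curv hF φ0 a3
  obtain ⟨T', k', -, -⟩ := h'.hess hb.per hb.curv hF φ0 a3
  have T2 : Tay (SS N (fun U => t' U - t U) (ab θ)) _ _ _ := (T'.add T.neg).congr fun a _ => by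
    simp only [SS, Complex.sub_re, sum_sub_distrib]
    rfl
  have a4 : 0 ≤ (2 * R + 1 : ℝ) ^ 6 * M / δ ^ 2 * g1 := by positivity
  have a5 : 10 ^ 11 * ((2 * R + 1 : ℝ) ^ 6 * M / δ ^ 2 * g1) ≤ η := by
    refine le_of_eq_of_le ?_ hη
    ring
  refine (lk_close gp T.1 T'.1 k k' (by norm_num) (by positivity) (by nlinarith) lo
    (η1 := 144 * (2 * R + 1) ^ 6 * (5000 * M / δ ^ 2)) (η2 := 0) (by positivity) le_rfl
    (by linarith) ?_ η1 fun a => ?_).2.2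
  · have : 144 * (2 * R + 1) ^ 6 * (5000 * M / δ ^ 2) * g1 =
        720000 * ((2 * R + 1 : ℝ) ^ 6 * M / δ ^ 2 * g1) := by ring
    rw [this]
    linarith
  · have := quad_U d δ1 δ0 hb.per hb.curv (le_trans (by gcongr) hd) T2 (by positivity) a
    rw [add_mulVec, neg_mulVec, dotProduct_add, dotProduct_neg] at this
    rw [zero_mul, add_zero, sub_eq_add_neg]
    exact this

theorem wc_cC (U : Conf) : wc (cC U) = wd U := by
  simp only [wc, wd, JT.hol_cC, fq, enq_cS]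
  push_cast
  refine sum_congr rfl fun μ _ => sum_congr rfl fun ν _ => ?_
  split_ifs <;> simp

theorem fq_rf (hc : ∀ x μ ν, dd θ x μ ν = (kF F μ ν : ℝ)) {a : IL N → ℝ} (ha : cG * ‖a‖ ≤ 1 / 1000)
    (x : St) (μ ν : Fin 4) : fq (rf (ab θ) a) x μ ν ≤ |F| + 1 / 50 := by
  have k : ∀ e, Rb.Nr (1 / 250) (rf (ab θ) a e) (ab θ e) := fun e => by
    have h1 := ex_sub_one (b := cR fun k => a ((cs N e.1, e.2), k)) (η := 1 / 1000)
      ((norm_pf a e).trans ha) (by norm_num)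
    rw [← cS_exS] at h1
    have h2 : Rb.Nr (1 / 250) (exS fun k => a ((cs N e.1, e.2), k)) 1 :=
      .of1 ((norm_cS_sub _).ge.trans (h1.trans (by norm_num)))
    simpa [rf] using h2.right (ab θ e)
  have := ((((k (x, μ)).mul (k (x + un μ, ν))).mul (k (x + un ν, μ)).inv).mul
    (k (x, ν)).inv).trans (show Rb.Nr |F| (hol Inv.inv (ab θ) x μ ν) 1 from by
      rw [hol_ab, hc]; exact .of1 ((norm_eA _).trans (abs_kF F μ ν)))
  exact le_trans this.one (by linarith)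

/-- the initial density is `v` times the Wilson density on small real fields -/
theorem wil_eq {v : ℝ} (v0 : 0 < v) (h : TD Q (tf (v • m0) fun B => v * TW B)) (hb : Bg N F θ)
    (gp : Gap N (ab θ) g1 g2) (g0 : 1 ≤ g1) (hF : |F| ≤ φ) (φ0 : 0 < φ)
    (hφ : Q ^ 20 * φ * g1 ≤ 1) : (∃ C ρ, 0 < ρ ∧ Tay (SS N wc (ab θ)) (Hs N wc θ) C ρ) ∧
      LK N (tf (v • m0) fun B => v * TW B) θ = LK N wc θ +
        2⁻¹ * ((Fintype.card (IL N) : ℝ) - Fintype.card (IG N)) * Real.log v := by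
  have big := h.big
  have Q1 : 1 ≤ Q := by linarith
  have a0 : 0 ≤ Q ^ 14 * φ * g1 := by positivity
  have a1 : Q ^ 6 * (Q ^ 14 * φ * g1) ≤ 1 := by linarith
  have a2 : 10 ^ 9 ≤ Q ^ 6 := big.trans (le_self_pow₀ Q1 (by norm_num))
  have a3 : Q ^ 3 * φ ≤ 1 := le_trans ((mul_le_mul_of_nonneg_right
    (pow_le_pow_right₀ Q1 (by norm_num)) φ0.le).trans (le_mul_of_one_le_right (by positivity) g0)) hφ
  have a4 : 10 ^ 9 * φ ≤ 1 := le_trans (mul_le_mul_of_nonneg_right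
    (big.trans (le_self_pow₀ Q1 (by norm_num))) φ0.le) a3
  have a5 : cG * (Q ^ 2)⁻¹ ≤ 1 / 1000 := by
    rw [← div_eq_mul_inv, div_le_iff₀ (by positivity)]
    nlinarith [h.cg, le_self_pow₀ GD.cG1 (by norm_num : 4 ≠ 0), GD.cG1]
  obtain ⟨T, k, -, lo⟩ := h.hess hb.per hb.curv hF φ0 a3
  have T2 : Tay (SS N wc (ab θ)) _ _ _ := (T.smul (inv_pos.2 v0).le).congr fun a ha => by
    simp only [SS, ← cC_rf, mul_sum]
    refine sum_congr rfl fun x _ => ?_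
    have := wd_eq (U := rf (ab θ) a) (x := lf x) (fun y _ μ ν => fq_rf hb.curv
      ((mul_le_mul_of_nonneg_left ha GD.cG_pos.le).trans a5) _ μ ν)
      (by linarith)
    rw [tf, cx_smul, ← mul_add, Bx_sh, zero_add, this, ← SX.cC_sh, wc_cC]
    simp [v0.ne']
  have r0 : 0 < (Q ^ 2)⁻¹ := by positivity
  have e := Hs_eq T2 r0
  have p := (lk_close gp T.1 T.1 k k (by norm_num) (by positivity) (by nlinarith) lo
    (η1 := 0) (η2 := 0) le_rfl le_rfl le_rfl (by simp) (by norm_num) fun a => by simp).1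
  refine ⟨⟨_, _, r0, e ▸ T2⟩, ?_⟩
  have kd : Hs N (tf (v • m0) fun B => v * TW B) θ * Dm N (ab θ) = 0 :=
    Matrix.ext_iff_mulVec.2 fun w => by rw [← mulVec_mulVec, Dm_mulVec, k, zero_mulVec]
  rw [LK, LK, lk_eq, lk_eq, e, kap_smul T.1 kd gp.det_ne (inv_pos.2 v0),
    Real.log_mul (by positivity) p.ne', Real.log_div (by positivity) (by positivity), Real.log_pow,
    Real.log_pow, Real.log_inv]
  ring

end Pool.Agent.Lib.MP_7f377f_mp.RG.Q4.Af
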