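import Pool.Agent.Lib.MP_7f377f_mp.G.Q4TrE

/-! The tree step: holomorphic dependence on the field and on the energy. -/

noncomputable section

set_option linter.unusedSectionVars false
variable [Pool.Agent.Lib.MP_7f377f_mp.GD]

namespace Pool.Agent.Lib.MP_7f377f_mp.RG.Q4

open Finset

attribute [local irreducible] box lbox

variable {r c p : ℕ} {τ P δ d : ℝ} {m : BF} {s : V →ₗ[ℝ] V} {G : ℂ → Cf → Fld → ℂ} {S : Set ℂ}
  {B A v : ℂ → Fld} {O : Od}

theorem GH.mono {l : ℕ} {S' : Set ℂ} (h : GH l δ S G) (h' : S' ⊆ S) : GH l δ S' G :=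
  fun Ω B A h1 h2 => h Ω B A h1 (h2.trans h')

theorem GH.comp {l : ℕ} {G : Cf → Fld → ℂ} (h : GH l δ Set.univ fun _ => G) (S : Set ℂ) :
    GH l δ S fun _ => G := h.mono (Set.subset_univ _)

theorem jG_disc {l : ℕ} (hl : Lin l r c τ m s) (hS : IsOpen S) (g : ∀ x ∈ S, Ge l r m s P δ (G x))
    (gh : GH l δ S G) (d0 : 0 < d) (d1 : 8 * d ≤ δ) (dB : Disc S B) (hB : ∀ x ∈ S, ∀ e, ‖B x e‖ ≤ d)
    (dA : Disc S A) (hA : ∀ x ∈ S, Sm (3 * l + 1) (4 * d / LL l) (A x)) (a b : Fld) :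
    DifferentiableOn ℂ (fun x => j1 (G x (exF (B x))) (A x) a) S ∧
      DifferentiableOn ℂ (fun x => j2 (G x (exF (B x))) (A x) a b) S := by
  have L0 := LL_pos' l
  have p : 0 < 8 * d / LL l := by positivity
  obtain ⟨θ, h0, ha, hb⟩ := Kit.Dom.common (hall_dM (R := 3 * l + 1) p) a b
  have hA' : ∀ x ∈ S, A x ∈ (dM (3 * l + 1) _ p).D (1 / 2) := fun x hx =>
    mem_dM p (hA x hx) (by ring_nf; rfl)
  have key := Jet.disc (O := (dM (3 * l + 1) _ p).half)
    (fun B => (hall_dM p B).elim fun _ h => ⟨_, Kit.Dom.mem_half h⟩) hS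
    (k := fun x w => G x (exF (B x)) (A x + w) - Qf l m s (B x) (A x + w)) (a := fun _ => a)
    (b := fun _ => b) (fun x hx => by
      obtain ⟨_, h1, h2⟩ := (g x hx).rm hl d0 d1 (hB x hx)
      exact jet_at h1 h2 (hall_dM p) (hA' x hx)) (θ := 2 * θ) (by positivity)
    (fun _ _ => ⟨Kit.Dom.mem_half ha, Kit.Dom.mem_half hb⟩) fun x y hx hy hxy => by
      have dA' : Disc S fun t => A t + (x • a + y • b) := fun e => (dA e).add_const _
      refine (gh S B _ hS subset_rfl dB dA' fun t ht => ⟨fun e => (hB t ht e).trans (by linarith),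
        ?_⟩).sub (Qf_diff hl dB dA')
      have := (dM (3 * l + 1) _ p).add (hA' t ht)
        ((dM (3 * l + 1) _ p).add (mem_rsm x ha) (mem_rsm y hb))
      rw [abs_of_nonneg hx, abs_of_nonneg hy] at this
      exact Sm.mono this le_rfl ((mul_le_of_le_one_left p.le (by linarith)).trans (by gcongr))
  have k := fun x hx => (g x hx).split hl d0 d1 (hB x hx) (hA x hx)
  exact ⟨(key.1.add (((diff_cx hl.xx_rng (fun e _ => disc_const a e) fun e _ => dB e).const_mul
      2).add ((diff_cx hl.hh_rng (fun e _ => disc_const a e) fun e _ => dA e).const_mul 2))).congr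
      fun x hx => (k x hx).k1 a, (key.2.add_const _).congr fun x hx => (k x hx).kq a b⟩

namespace Nt

/-- holomorphic families of data -/
structure Fm (O : Od) (p : ℕ) (G : ℂ → Cf → Fld → ℂ) (r c : ℕ) (τ : ℝ) (m : BF) (s : V →ₗ[ℝ] V)
    (P δ d : ℝ) (S : Set ℂ) (B : ℂ → Fld) : Prop where
  op : IsOpen S
  ok : ∀ x ∈ S, (Nt.mk O (G x) p).Ok r c τ m s P δ
  sz : ∀ x ∈ S, (Nt.mk O (G x) p).Sz c τ P δ d
  gh : GH O.l δ S G
  disc : Disc S B
  bd : ∀ x ∈ S, ∀ e, ‖B x e‖ ≤ d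

theorem fm_const {t : Nt} (h : t.Ok r c τ m s P δ) (z : t.Sz c τ P δ d) (hS : IsOpen S)
    (dB : Disc S B) (hB : ∀ x ∈ S, ∀ e, ‖B x e‖ ≤ d) :
    Fm t.O t.p (fun _ => t.G) r c τ m s P δ d S B :=
  ⟨hS, fun _ _ => h, fun _ _ => z, h.ge.hol.comp S, dB, hB⟩

namespace Fm

variable (F : Fm O p G r c τ m s P δ d S B)
include F

theorem sh (y : St) : Fm O p G r c τ m s P δ d S fun x => sh y (B x) :=
  ⟨F.op, F.ok, F.sz, F.gh, F.disc.sh y, fun x hx _ => F.bd x hx _⟩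

theorem exF_disc : Disc S fun x => exF (B x) :=
  F.disc.exF fun x hx e => (F.bd x hx e).trans (by linarith [(F.ok x hx).d_le (F.sz x hx)])

theorem FF_disc (dA : Disc S A) (y : St)
    (hA : ∀ x ∈ S, Sm (3 * O.l + 1) (8 * d / LL O.l) (RG.sh (up O.l y) (A x))) :
    DifferentiableOn ℂ (fun x => (Nt.mk O (G x) p).FF (exF (B x)) y (A x)) S :=
  F.gh S _ _ F.op subset_rfl (F.disc.sh y) (dA.sh (up O.l y)) fun x hx => ⟨fun _ => (F.bd x hx _).trans (by
    linarith [(F.sz x hx).d0, (F.sz x hx).d1]), (hA x hx).mono le_rfl (by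
      have := (F.sz x hx).d1
      gcongr)⟩

theorem j_disc (dA : Disc S A) (y : St)
    (hA : ∀ x ∈ S, Sm (3 * O.l + 1) (4 * d / LL O.l) (RG.sh (up O.l y) (A x))) (a b : Fld) :
    DifferentiableOn ℂ (fun x => j1 ((Nt.mk O (G x) p).FF (exF (B x)) y) (A x) a) S ∧
      DifferentiableOn ℂ (fun x => j2 ((Nt.mk O (G x) p).FF (exF (B x)) y) (A x) a b) S := by
  rcases S.eq_empty_or_nonempty with rfl | ⟨x, hx⟩
  · exact ⟨differentiableOn_empty, differentiableOn_empty⟩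
  simp only [j1_FF, j2_FF]
  exact jG_disc (F.ok x hx).lin F.op (fun x hx => (F.ok x hx).ge) F.gh (F.sz x hx).d0 (F.sz x hx).d1
    (F.disc.sh y) (fun x hx _ => F.bd x hx _) (dA.sh _) hA _ _

theorem sm4 (hA : ∀ x ∈ S, ∀ e, ‖A x e‖ ≤ d / LL O.l) (y : St) (x : ℂ) (hx : x ∈ S) :
    Sm (3 * O.l + 1) (4 * d / LL O.l) (RG.sh (up O.l y) (A x)) :=
  (sm_of_all (hA x hx) _ _).mono le_rfl (by
    have := (F.sz x hx).d0
    have := LL_pos' O.l
    gcongr
    linarith)

section base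

variable (dA : Disc S A) (hA : ∀ x ∈ S, ∀ e, ‖A x e‖ ≤ d / LL O.l)
include dA hA

theorem grad_disc : Disc S fun x => (Nt.mk O (G x) p).grad (exF (B x)) (A x) := fun f =>
  differentiableOn_pi.2 fun k => by
    simp only [grad]
    exact .fun_sum fun v _ => (F.j_disc dA _ (F.sm4 hA (yo O.l f.1 + v)) (eb f k) 0).1

theorem nw_disc : Disc S fun x => (Nt.mk O (G x) p).nw (exF (B x)) (A x) := fun e => by
  rcases S.eq_empty_or_nonempty with rfl | ⟨x, hx⟩
  · exact differentiableOn_empty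
  simp only [nw, Pi.sub_apply, Pi.smul_apply]
  exact (dA e).sub ((Od.pol_disc (O := O) (F.ok x hx).op F.exF_disc (F.grad_disc dA hA)
    e).fun_const_smul _)

theorem xi_disc (dv : Disc S v) (y y' : St) :
    DifferentiableOn ℂ (fun x => (Nt.mk O (G x) p).xi (exF (B x)) (A x) (v x) y y') S := by
  simp only [xi]
  exact .fun_sum fun e _ => .fun_sum fun k _ => (F.j_disc dA y (F.sm4 hA y)
    (eb (e.1 + up O.l y', e.2) k) 0).1.mul (differentiableOn_pi.1 (dv _) k)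

theorem L1_disc (dv : Disc S v) (y : St) :
    DifferentiableOn ℂ (fun x => (Nt.mk O (G x) p).L1 (exF (B x)) (A x) (v x) y) S :=
  .fun_sum fun _ _ => F.xi_disc dA hA dv _ _

theorem gv_disc (dv : Disc S v) (y : St) :
    DifferentiableOn ℂ (fun x => (Nt.mk O (G x) p).gv (exF (B x)) (A x) (v x) y) S :=
  .fun_sum fun _ _ => F.xi_disc dA hA dv _ _

end base

theorem iter_disc (j : ℕ) : Disc S fun x => ((Nt.mk O (G x) p).nw (exF (B x)))^[j] 0 := by
  induction j with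
  | zero => exact disc_const _
  | succ j ih =>
    simp only [Function.iterate_succ_apply']
    exact F.nw_disc ih fun x hx => iter_small (F.ok x hx) (F.sz x hx) (F.bd x hx) j

theorem As_disc : Disc S fun x => (Nt.mk O (G x) p).As (exF (B x)) := F.iter_disc p

theorem As_small (x : ℂ) (hx : x ∈ S) (e : Lk) :
    ‖(Nt.mk O (G x) p).As (exF (B x)) e‖ ≤ d / LL O.l :=
  Nt.As_small (F.ok x hx) (F.sz x hx) (F.bd x hx) e

theorem zero_small (x : ℂ) (hx : x ∈ S) (e : Lk) : ‖(0 : Fld) e‖ ≤ d / LL O.l :=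
  norm_zero.le.trans ((norm_nonneg _).trans (F.As_small x hx e))

theorem kd_disc (e : Lk) (i : Fin GD.d) (e' : Lk) (j : Fin GD.d) :
    DifferentiableOn ℂ (fun x => (Nt.mk O (G x) p).kd (exF (B x)) e i e' j) S :=
  (F.j_disc F.As_disc 0 (F.sm4 F.As_small 0) _ _).2

/-- the kernels of all blocks -/
theorem ka_disc (y : St) (e : Lk) (i : Fin GD.d) (e' : Lk) (j : Fin GD.d) :
    DifferentiableOn ℂ (fun x => (Nt.mk O (G x) p).kd (RG.sh y (exF (B x))) e i e' j) S :=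
  (F.sh y).kd_disc e i e' j

theorem Ay_disc (dv : Disc S v) (y : St) : Disc S fun x => Ay O.l y (exF (B x)) (v x) :=
  fun _ => diff_adq (diff_cmb (F.exF_disc.sh y) _) (dv _)

theorem hA_disc {w : ℂ → Fld} (dv : Disc S v) (dw : Disc S w) (y : St) : DifferentiableOn ℂ
    (fun x => cx O.h (Ay O.l y (exF (B x)) (v x)) (Ay O.l y (exF (B x)) (w x))) S := by
  rcases S.eq_empty_or_nonempty with rfl | ⟨x, hx⟩
  · exact differentiableOn_empty
  exact diff_cx (F.ok x hx).op.rng (fun e _ => F.Ay_disc dv y e) fun e _ => F.Ay_disc dw y e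

theorem Yb_disc (y : St) (a b : Fld) :
    DifferentiableOn ℂ (fun x => (Nt.mk O (G x) p).Yb (exF (B x)) y a b) S :=
  (F.j_disc F.As_disc y (F.sm4 F.As_small y) a b).2.sub (F.hA_disc (disc_const a) (disc_const b) y)

theorem Yq_disc (dv : Disc S v) (y : St) :
    DifferentiableOn ℂ (fun x => (Nt.mk O (G x) p).Yq (exF (B x)) (v x) y) S := by
  simp only [Yq]
  exact .fun_sum fun e _ => .fun_sum fun k _ => .fun_sum fun f _ => .fun_sum fun j _ =>
    (F.Yb_disc y (eb (e.1 + up O.l y, e.2) k) (eb (f.1 + up O.l y, f.2) j)).mul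
      ((differentiableOn_pi.1 (dv _) k).mul (differentiableOn_pi.1 (dv _) j))

theorem FF_As (dv : Disc S v) (y : St)
    (hv : ∀ x ∈ S, Sm (3 * O.l + 1) (4 * d / LL O.l) (RG.sh (up O.l y) (v x))) : DifferentiableOn ℂ
    (fun x => (Nt.mk O (G x) p).FF (exF (B x)) y ((Nt.mk O (G x) p).As (exF (B x)) + v x)) S :=
  F.FF_disc (fun e => (F.As_disc e).add (dv e)) y fun x hx =>
    ((F.sm4 F.As_small y x hx).add (hv x hx)).mono le_rfl (le_of_eq (by ring))

theorem FF_As' (y : St) : DifferentiableOn ℂ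
    (fun x => (Nt.mk O (G x) p).FF (exF (B x)) y ((Nt.mk O (G x) p).As (exF (B x)))) S := by
  simpa only [add_zero] using F.FF_As (disc_const 0) y (F.sm4 (A := fun _ => 0) F.zero_small y)

theorem rem3_disc (dv : Disc S v) (y : St)
    (hv : ∀ x ∈ S, Sm (3 * O.l + 1) (4 * d / LL O.l) (RG.sh (up O.l y) (v x))) :
    DifferentiableOn ℂ (fun x => (Nt.mk O (G x) p).rem3 (exF (B x)) (v x) y) S :=
  (((F.FF_As dv y hv).sub (F.FF_As' y)).sub (F.L1_disc F.As_disc F.As_small dv y)).sub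
    ((F.hA_disc dv dv y).add (F.Yq_disc dv y))

theorem a0_disc : DifferentiableOn ℂ (fun x => (Nt.mk O (G x) p).a0 (exF (B x))) S :=
  ((F.FF_As' 0).sub (F.L1_disc (disc_const 0) F.zero_small F.As_disc 0)).add
    (F.gv_disc (disc_const 0) F.zero_small F.As_disc 0)

theorem tn_disc : DifferentiableOn ℂ (fun x => (Nt.mk O (G x) p).tn (exF (B x))) S :=
  (F.a0_disc.add ((DifferentiableOn.fun_sum fun z _ => (F.sh z).a0_disc).const_mul _)).const_mul _

end Fm

section real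

variable {t : Nt} (h : t.Ok r c τ m s P δ) (z : t.Sz c τ P δ d) (hr : GR t.G) {B : Fld}
  (hB : ∀ e, ‖B e‖ ≤ d) (rB : RealF B)
include h z hr hB rB

theorem As_real' : RealF (t.As (exF B)) := by
  obtain ⟨U, hU⟩ := JS.exF_real rB
  exact hU ▸ As_real hr (hU ▸ gw_exF h z hB)

theorem kd_real' : Kr (t.kd (exF B)) := by
  obtain ⟨U, hU⟩ := JS.exF_real rB
  exact hU ▸ kd_real hr (hU ▸ gw_exF h z hB)

theorem tn_real' : (t.tn (exF B)).im = 0 := by
  obtain ⟨U, hU⟩ := JS.exF_real rB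
  exact hU ▸ tn_real hr (hU ▸ gw_exF h z hB)

end real

end Nt

end Pool.Agent.Lib.MP_7f377f_mp.RG.Q4
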