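import Pool.Agent.Lib.MP_7f377f_mp.G.Q4AfK
import Pool.Agent.Lib.MP_7f377f_mp.G.Q4FluxA
import Pool.Agent.Lib.MP_7f377f_mp.G.Q4Ol
import Pool.Agent.Lib.MP_7f377f_mp.G.Q4CalmB

/-! The one loop term at a background of constant flux. -/

noncomputable section

set_option linter.unusedSectionVars false
variable [Pool.Agent.Lib.MP_7f377f_mp.GD]

namespace Pool.Agent.Lib.MP_7f377f_mp.RG.Q4.Af

open Finset En

attribute [local irreducible] box lbox

variable {S : Sd} {F : ℝ} {θ : Lk → Ang}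

theorem ps_im {R s : ℕ} {ρ xb xk xr : ℝ} {ψ : Fld → ℂ} (h : Ps R s ρ xb xk xr ψ) (r0 : 0 < ρ)
    (hr : ∀ B, RealF B → Cv R ρ B → (ψ B).im = 0) (a : V) : (qc ψ a a).im = 0 := by
  obtain ⟨k, -, e, b⟩ := h.elim
  have hF : As (dd a 0) := La.Q.dd_anti a 0
  rw [qc, e, cc_pt, ← abs_nonpos_iff]
  generalize dd a 0 = G at hF
  refine le_of_cubic (C := xr * ((‖G‖ + 1) / ρ) ^ 3) (s0 := ρ / (‖G‖ + 1)) (by positivity)
    fun t t0 t1 => ?_
  have c : Cv R (t * (‖G‖ + 1)) (Ho.em GD.k0 (pt (t • G))) := Ho.cv_em GD.k0 ((cv_pt (hF.smul t) R).mono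
    le_rfl (by rw [norm_smul, Real.norm_of_nonneg t0.le]; nlinarith))
  have c1 := (le_div_iff₀ (by positivity)).1 t1
  have := (Complex.abs_im_le_norm _).trans (b.bd (Ho.real_em GD.k0 _) c c1)
  rw [qf_em, Complex.sub_im, hr _ (Ho.real_em GD.k0 _) (c.mono le_rfl c1), zero_sub, abs_neg] at this
  simp only [map_smul, LinearMap.smul_apply, Complex.smul_im, smul_eq_mul, abs_mul,
    abs_of_pos t0] at this
  exact (le_of_eq (by ring)).trans (this.trans_eq (by ring))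

theorem qc_ol_im (h : S.Nu 100) (k : S.TK) (a : V) : (qc S.ol a a).im = 0 := by
  have f := k.fo (h.mono (Nat.zero_le _))
  have h1 := f.ρ_small
  have h2 := f.two_le
  have h3 : 0 < S.p'.ρ := mul_pos (pow_pos S.Q0 3) h.ok.g'0
  exact ps_im f.ol_ps h3 (fun B rB hB => f.ol_real (hB.mono le_rfl (by linarith)) rB) a

theorem as_kF (F : ℝ) : As (kF F) := fun μ ν => by
  fin_cases μ <;> fin_cases ν <;> simp [kF]

theorem kF_eq (F : ℝ) : kF F = F • kF 1 := by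
  funext μ ν; simp only [kF, Pi.smul_apply]; split_ifs <;> simp

theorem norm_kF (F : ℝ) : ‖kF F‖ ≤ |F| :=
  (pi_norm_le_iff_of_nonneg (abs_nonneg F)).2 fun μ =>
    (pi_norm_le_iff_of_nonneg (abs_nonneg F)).2 fun ν => abs_kF F μ ν

theorem dt_flux (h : S.Nu 100) (_ht : S.TOk) (k : S.TK)
    (hc : ∀ x μ ν, dd θ x μ ν = (kF F μ ν : ℝ))
    (hF : S.β * |F| ≤ 1) (y : St) {a : V} (ha : ∀ μ ν, dd a 0 μ ν = kF 1 μ ν) :
    |(S.dt0 (sh y (cC (ab θ)))).re - (S.dt0 (S.wB 0)).re + F ^ 2 * (qc S.ol a a).re| ≤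
      S.Q ^ 10 * |F| ^ 3 := by
  have f := k.fo (h.mono (Nat.zero_le _))
  have F0 := abs_nonneg F
  have q1 := S.Q1
  have q2 : (1000 : ℝ) ≤ S.Q := h.cQ' (by norm_num)
  have g0 := h.ok.g0
  have d1 : (1 : ℝ) ≤ S.D0 := by exact_mod_cast Sd.D1 S.toTd
  have dq := h.D_le_Q
  have hg : |F| ≤ S.g := by
    have := mul_le_mul_of_nonneg_right hF (sq_nonneg S.g)
    rw [mul_right_comm, h.ok.βg, one_mul, one_mul] at this
    exact this.trans (pow_le_of_le_one g0.le h.ok.g1 two_ne_zero)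
  have hq : ∀ i ≤ 500, S.Q ^ i * |F| ≤ 1 := fun i hi =>
    (mul_le_mul (S.Qw hi) hg F0 (by positivity)).trans h.ok.Qg
  have fx : Fx 0 (kF F) (sh y θ) := ⟨fun _ => by simp, fun x μ ν => by rw [RG.dd_sh, hc]⟩
  have R1 : ((4 * S.D0 : ℕ) : ℝ) + 1 ≤ S.Q ^ 2 := by push_cast; nlinarith
  have R0 : (0 : ℝ) ≤ (4 * S.D0 : ℕ) := Nat.cast_nonneg _
  have hd : 6 * (4 * S.D0 : ℕ) * |F| ≤ S.Q ^ 3 * S.g' :=
    mul_le_mul (by nlinarith) (hg.trans h.ok.gg') F0 (by positivity)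
  obtain ⟨c1, c2⟩ := comb_real (R := 4 * S.D0) (W := ab (sh y θ))
    (fun x _ μ ν => (fx.fq_le x μ ν).trans (norm_kF F))
    (hd.trans (by simpa using h.ok.Qg'_le (i := 3) (j := 0) (by norm_num)))
  have r0 : 0 < S.Q ^ 3 * S.g' := mul_pos (by positivity) h.ok.g'0
  have e1 : S.dt0 (sh y (cC (ab θ))) = S.dt0 (S.wB (Ho.em GD.k0 (tF (kF F)))) := by
    rw [← fx.bx (as_kF F) 0, Td.wB, cg_Bx]
    refine (Td.dt0_agr f.ok (c2.mono (by have := h.lens; omega))).trans (Cm.dt0_cov f.ok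
      (Nt.gw_exF f.ok (f.sz _ r0 (le_trans ?_ (h.Qg_δ (i := 4) (by norm_num))))
        fun e => (c1 e).trans hd) _)
    nlinarith
  have e2 := ps_val f.ol_ps (as_kF F) (norm_kF F) (d := |F|) (le_trans (by
    rw [Sd.p'_R]
    refine mul_le_mul_of_nonneg_right (le_trans ?_ (pow_succ' S.Q 4).ge) F0
    gcongr
    · linarith
    · exact (pow_le_pow_left₀ (by positivity) R1 2).trans_eq (by ring)) (hq 5 (by norm_num)))
    (le_trans (by push_cast; nlinarith) hd)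
  have e3 : qc S.ol (pt (kF F)) (pt (kF F)) = F ^ 2 * qc S.ol a a := by
    obtain ⟨k, -, e, -⟩ := f.ol_ps.elim
    rw [qc, qc, e, e, cc_eq (as_kF F), cc_pt, show dd a 0 = kF 1 from funext₂ ha, kF_eq F]
    simp only [map_smul, LinearMap.smul_apply, Complex.real_smul]
    ring
  have e4 := (Complex.abs_re_le_norm _).trans e2
  rw [e3, Td.ol, ← e1, Sd.p'_R, Sd.p'_ρ, ← Complex.ofReal_pow, Complex.sub_re,
    Complex.sub_re, Complex.re_ofReal_mul, abs_sub_comm] at e4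
  refine (congrArg abs (by ring)).trans_le (e4.trans ?_)
  have e5 : (((4 * S.D0 : ℕ) : ℝ) + 1) ^ 3 * |F| ≤ 1 :=
    le_trans (by rw [show 6 = 2 * 3 from rfl, pow_mul]; gcongr) (hq 6 (by norm_num))
  have e6 : 1000 * S.Q ≤ S.Q ^ 10 := le_trans (by nlinarith) (S.Qw (show 2 ≤ 10 by norm_num))
  calc _ = (648 * S.Q * ((((4 * S.D0 : ℕ) : ℝ) + 1) ^ 3 * |F|) + 8 * S.Q) * |F| ^ 3 := by
        have := h.ok.g'0.ne'
        field_simp; ring
    _ ≤ _ := mul_le_mul_of_nonneg_right (by nlinarith) (by positivity)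

end Pool.Agent.Lib.MP_7f377f_mp.RG.Q4.Af
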