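import Pool.Agent.Lib.MP_7f377f_mp.G.Q4AfG

/-! Comparison of Hessians in finite dimension. -/

noncomputable section

set_option linter.unusedSectionVars false
variable [Pool.Agent.Lib.MP_7f377f_mp.GD]

namespace Pool.Agent.Lib.MP_7f377f_mp.RG.Q4.Af

open Finset Matrix

variable {ι κ : Type} [Fintype ι] [Fintype κ] {f g : (ι → ℝ) → ℝ} {Q Q' : Matrix ι ι ℝ}
  {C C' ρ ρ' K η : ℝ}

theorem norm_sq_le_dot (a : ι → ℝ) : ‖a‖ ^ 2 ≤ a ⬝ᵥ a := by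
  classical
  have : ‖a‖ ≤ √(a ⬝ᵥ a) := (pi_norm_le_iff_of_nonneg (Real.sqrt_nonneg _)).2 fun i =>
    Real.abs_le_sqrt ((sq _).trans_le (single_le_sum (f := fun i => a i * a i)
      (fun _ _ => mul_self_nonneg _) (mem_univ i)))
  exact (pow_le_pow_left₀ (norm_nonneg _) this 2).trans_eq (Real.sq_sqrt (dot_nonneg a))

theorem quad_scale {X σ : ℝ} (h0 : 0 < σ) (h : ∀ a, ‖a‖ ≤ σ → |a ⬝ᵥ Q *ᵥ a| ≤ X) (a : ι → ℝ) :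
    |a ⬝ᵥ Q *ᵥ a| ≤ X / σ ^ 2 * ‖a‖ ^ 2 := by
  rcases eq_or_ne a 0 with rfl | ha
  · simp
  have n := norm_pos_iff.2 ha
  have := h ((σ / ‖a‖) • a) (by
    rw [norm_smul, Real.norm_of_nonneg (by positivity), div_mul_cancel₀ _ n.ne'])
  rw [quad_smul, abs_mul, abs_of_pos (by positivity), div_pow, div_mul_eq_mul_div,
    div_le_iff₀ (by positivity)] at this
  rw [div_mul_eq_mul_div, le_div_iff₀ (by positivity)]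
  linarith

theorem quad_near (hs : Q.IsSymm) (hK : ∀ a, |a ⬝ᵥ Q *ᵥ a| ≤ K * ‖a‖ ^ 2) (K0 : 0 ≤ K) {x e : ι → ℝ}
    {δ : ℝ} (d0 : 0 < δ) (d1 : δ ≤ 1) (hx : ‖x‖ ≤ 2 * δ) (he : ‖e‖ ≤ δ ^ 2) :
    |(x + e) ⬝ᵥ Q *ᵥ (x + e) - x ⬝ᵥ Q *ᵥ x| ≤ 10 * K * δ ^ 3 := by
  have n : ‖δ⁻¹ • e‖ ≤ δ := by
    rw [norm_smul, Real.norm_of_nonneg (by positivity), inv_mul_le_iff₀ d0]; linarith
  have b : ∀ a, ‖a‖ ≤ 3 * δ → |a ⬝ᵥ Q *ᵥ a| ≤ 9 * K * δ ^ 2 := fun a ha => (hK a).trans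
    ((mul_le_mul_of_nonneg_left (pow_le_pow_left₀ (norm_nonneg _) ha 2) K0).trans_eq (by ring))
  have p := abs_le.1 (b (x + δ⁻¹ • e) ((norm_add_le_of_le hx n).trans (by linarith)))
  have m := abs_le.1 (b (x + -(δ⁻¹ • e)) ((norm_add_le_of_le hx ((norm_neg _).trans_le n)).trans
    (by linarith)))
  have q := abs_le.1 ((hK e).trans (mul_le_mul_of_nonneg_left
    (pow_le_pow_left₀ (norm_nonneg _) he 2) K0))
  rw [quad_add hs] at p m ⊢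
  simp only [mulVec_neg, dotProduct_neg, neg_dotProduct, mulVec_smul, dotProduct_smul,
    smul_eq_mul] at p m
  have t : x ⬝ᵥ Q *ᵥ e = δ * (δ⁻¹ * x ⬝ᵥ Q *ᵥ e) := by field_simp
  have u : K * (δ ^ 2) ^ 2 ≤ K * δ ^ 3 := mul_le_mul_of_nonneg_left (by nlinarith [pow_pos d0 3]) K0
  rw [t, abs_le]
  constructor <;> nlinarith [p.1, p.2, m.1, m.2]

theorem quad_conj (Q : Matrix ι ι ℝ) (M : Matrix ι κ ℝ) (v : κ → ℝ) :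
    v ⬝ᵥ (Mᵀ * Q * M) *ᵥ v = M *ᵥ v ⬝ᵥ Q *ᵥ M *ᵥ v := by
  rw [← mulVec_mulVec, ← mulVec_mulVec, dotProduct_mulVec, vecMul_transpose]

omit [Fintype κ] in
theorem symm_conj (h : Q.IsSymm) (M : Matrix ι κ ℝ) : (Mᵀ * Q * M).IsSymm := by
  simp [IsSymm, h.eq, Matrix.mul_assoc]

theorem Tay.comp (h : Tay f Q C ρ) (hK : ∀ a, |a ⬝ᵥ Q *ᵥ a| ≤ K * ‖a‖ ^ 2) (K0 : 0 ≤ K)
    {M : Matrix ι κ ℝ} {b : (κ → ℝ) → ι → ℝ} (h1 : ρ' ≤ 1) (h2 : 3 * ρ' ≤ ρ)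
    (hM : ∀ v, ‖M *ᵥ v‖ ≤ 2 * ‖v‖) (hb : ∀ v, ‖v‖ ≤ ρ' → ‖b v - M *ᵥ v‖ ≤ ‖v‖ ^ 2) :
    Tay (fun v => f (b v)) (Mᵀ * Q * M) (27 * C + 10 * K) ρ' := by
  refine ⟨symm_conj h.1 M, fun v δ v1 v2 => ?_⟩
  have d0 := (norm_nonneg _).trans v1
  have b0 : b 0 = 0 := by simpa using hb 0 (by simpa using d0.trans v2)
  rcases d0.eq_or_lt with rfl | d0
  · simp [norm_le_zero_iff.1 v1, b0]
  have e := (hb v (v1.trans v2)).trans (pow_le_pow_left₀ (norm_nonneg _) v1 2)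
  have x : ‖M *ᵥ v‖ ≤ 2 * δ := (hM v).trans (by linarith)
  have a := quad_near h.1 hK K0 d0 (v2.trans h1) x e
  rw [add_sub_cancel] at a
  have t := h.2 (b v) (3 * δ) (by
    rw [← add_sub_cancel (M *ᵥ v) (b v)]
    exact (norm_add_le_of_le x e).trans (by nlinarith)) (by linarith)
  simp only [quad_conj, b0, abs_le] at a t ⊢
  constructor <;> linarith [a.1, a.2, t.1, t.2]

theorem tay_shift {ℓ : (ι → ℝ) →ₗ[ℝ] ℝ} {x0 x : ι → ℝ} (h : Tay (fun u => g (x0 + u) - ℓ u) Q C ρ)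
    (h' : Tay (fun u => g (x + u)) Q' C' ρ') (η0 : 0 < η) (hx : ‖x - x0‖ ≤ η) (h1 : 2 * η ≤ ρ)
    (h2 : η ≤ ρ') (v : ι → ℝ) : |v ⬝ᵥ (Q' - Q) *ᵥ v| ≤ (9 * C + C') * η * ‖v‖ ^ 2 := by
  refine (quad_scale η0 (X := (9 * C + C') * η ^ 3) (fun v hv => ?_) v).trans_eq (by field_simp)
  have a := fun u (hu : ‖u‖ ≤ η) =>
    abs_le.1 (h.2 (x - x0 + u) (2 * η) ((norm_add_le_of_le hx hu).trans (by linarith)) h1)
  have b := fun u (hu : ‖u‖ ≤ η) => abs_le.1 (h'.2 u η hu h2)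
  have c := abs_le.1 (h.2 (x - x0) η hx (by linarith))
  have a1 := a v hv
  have a2 := a (-v) ((norm_neg _).trans_le hv)
  have b1 := b v hv
  have b2 := b (-v) ((norm_neg _).trans_le hv)
  simp only [quad_add h.1 (x - x0), ← add_assoc, add_sub_cancel, add_zero, map_add, map_neg,
    mulVec_neg, dotProduct_neg, neg_dotProduct, neg_neg] at a1 a2 b1 b2 c
  rw [sub_mulVec, dotProduct_sub, abs_le]
  constructor <;> linarith [a1.1, a1.2, a2.1, a2.2, b1.1, b1.2, b2.1, b2.2, c.1, c.2]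

variable [DecidableEq ι] [DecidableEq κ]

theorem det_chart {Y A J : Matrix ι ι ℝ} {q ζ : ℝ} (hY : Y.IsSymm) (hA : A.IsSymm) (q0 : 0 < q)
    (c : ∀ v, v ⬝ᵥ v ≤ q * (v ⬝ᵥ Y *ᵥ v)) (z1 : ζ ≤ 1 / 2) (z0 : 0 ≤ ζ)
    (j1 : ∀ v, (1 - ζ) * (v ⬝ᵥ v) ≤ J *ᵥ v ⬝ᵥ J *ᵥ v) 
    (j2 : ∀ v, J *ᵥ v ⬝ᵥ J *ᵥ v ≤ (1 + ζ) * (v ⬝ᵥ v)) (η0 : 0 ≤ η) (η1 : 4 * η * q ≤ 1)
    (d : ∀ v, |v ⬝ᵥ (Jᵀ * A * J - Y) *ᵥ v| ≤ η * (v ⬝ᵥ v)) :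
    0 < A.det ∧ (∀ x, x ⬝ᵥ x ≤ 2 * q * (x ⬝ᵥ A *ᵥ x)) ∧
      |Real.log A.det - Real.log Y.det| ≤ (2 * η * q + 2 * ζ) * Fintype.card ι := by
  obtain ⟨-, a2, a3⟩ := logdet_abs hY (symm_conj hA J) (inv_pos.2 q0)
    (fun x => (inv_mul_le_iff₀ q0).2 (c x)) d η0
    (by rw [← one_div, le_div_iff₀ q0]; nlinarith [mul_nonneg η0 q0.le])
  obtain ⟨-, b2, b3⟩ := logdet_rel' (A := 1) (A2 := Jᵀ * 1 * J) transpose_one
    (symm_conj isSymm_one J) (fun x hx => by simpa using dot_pos hx) z1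
    (fun x => by simpa only [quad_conj, one_mulVec] using j1 x) fun x => by
      simpa only [quad_conj, one_mulVec] using j2 x
  simp only [det_mul, det_transpose, det_one, mul_one, Real.log_one, sub_zero] at a2 a3 b2 b3
  have e : J.det * A.det * J.det = A.det * (J.det * J.det) := by ring
  rw [e] at a2 a3
  have p := (mul_pos_iff_of_pos_right b2).1 a2
  rw [Real.log_mul p.ne' b2.ne', div_inv_eq_mul, abs_le] at a3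
  refine ⟨p, fun x => ?_, abs_le.2 ⟨by linarith [abs_le.1 b3], by linarith [abs_le.1 b3]⟩⟩
  obtain ⟨v, rfl⟩ := mulVec_surjective_iff_isUnit.2 ((isUnit_iff_isUnit_det J).2
    (Ne.isUnit (mul_self_pos.1 b2))) x
  have := (abs_le.1 (d v)).1
  rw [sub_mulVec, dotProduct_sub, quad_conj] at this
  nlinarith [j2 v, c v, mul_le_mul_of_nonneg_left this q0.le, mul_le_mul_of_nonneg_right z1 (dot_nonneg v),
    mul_le_mul_of_nonneg_right η1 (dot_nonneg v)]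

variable {A : Matrix ι ι ℝ} {B : Matrix ι κ ℝ} {B' : Matrix κ ι ℝ} {D : Matrix κ κ ℝ} {γ ε : ℝ}

theorem schur_near (hs : (fromBlocks A B B' D).IsSymm) (hA : A.det ≠ 0) (γ0 : 0 < γ)
    (c : ∀ u, γ * ‖u‖ ^ 2 ≤ u ⬝ᵥ A *ᵥ u) {s : ℝ} (s0 : 0 < s) (hε : ε < γ * s ^ 2)
    {x : ι → ℝ} {w : κ → ℝ} (h : ∀ u, ‖u‖ ≤ s → Sum.elim x w ⬝ᵥ fromBlocks A B B' D *ᵥ Sum.elim x w ≤
      Sum.elim (x + u) w ⬝ᵥ fromBlocks A B B' D *ᵥ Sum.elim (x + u) w + ε) :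
    |Sum.elim x w ⬝ᵥ fromBlocks A B B' D *ᵥ Sum.elim x w - w ⬝ᵥ (D - B' * A⁻¹ * B) *ᵥ w| ≤ ε := by
  simp only [schur_form hs hA] at h ⊢
  set y := x + (A⁻¹ * B) *ᵥ w
  have k : ∀ t : ℝ, 0 ≤ t → t * ‖y‖ ≤ s → y ⬝ᵥ A *ᵥ y ≤ (1 - t) ^ 2 * (y ⬝ᵥ A *ᵥ y) + ε :=
    fun t t0 t1 => by
      have := h (-(t • y)) (by rwa [norm_neg, norm_smul, Real.norm_of_nonneg t0])
      rw [show x + -(t • y) + (A⁻¹ * B) *ᵥ w = (1 - t) • y by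
        rw [sub_smul, one_smul, sub_eq_add_neg, add_right_comm], quad_smul] at this
      linarith
  have y0 : 0 ≤ y ⬝ᵥ A *ᵥ y := le_trans (by positivity) (c y)
  rw [add_sub_cancel_left, abs_of_nonneg y0]
  rcases le_or_gt ‖y‖ s with h1 | h1
  · simpa using k 1 zero_le_one (by linarith)
  have n := s0.trans h1
  have t1 : s / ‖y‖ ≤ 1 := (div_le_one n).2 h1.le
  have t0 : 0 < s / ‖y‖ := by positivity
  have t2 : s / ‖y‖ * ‖y‖ = s := by field_simp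
  have := k _ t0.le t2.le
  set t := s / ‖y‖
  have a : t * (γ * ‖y‖ ^ 2) ≤ ε := by
    nlinarith [mul_le_mul_of_nonneg_left (c y) t0.le, mul_nonneg (mul_nonneg t0.le y0) (sub_nonneg.2 t1)]
  have b : γ * s ^ 2 ≤ t * (γ * ‖y‖ ^ 2) := by
    rw [show t * (γ * ‖y‖ ^ 2) = γ * (s * ‖y‖) by rw [← t2]; ring]
    exact mul_le_mul_of_nonneg_left (by nlinarith) γ0.le
  linarith

theorem schur_tay {E : (ι ⊕ κ → ℝ) → ℝ} (T : Tay E (fromBlocks A B B' D) C ρ) (hA : A.det ≠ 0)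
    (γ0 : 0 < γ) (c : ∀ u, γ * ‖u‖ ^ 2 ≤ u ⬝ᵥ A *ᵥ u) {Φ : (κ → ℝ) → ℝ} {P : Matrix κ κ ℝ}
    (T' : Tay Φ P C' ρ') {σ s : ℝ} (σ0 : 0 < σ) (h1 : σ ≤ s) (h2 : 2 * s ≤ ρ) (h3 : σ ≤ ρ')
    (ε0 : 0 ≤ ε) (hε : ε + 9 * C * s ^ 3 < γ * s ^ 2)
    (h : ∀ w, ‖w‖ ≤ σ → ∃ v, ‖v‖ ≤ s ∧ Φ w = E (Sum.elim v w) ∧
      ∀ u, ‖u‖ ≤ s → E (Sum.elim v w) ≤ E (Sum.elim (v + u) w) + ε) (w : κ → ℝ) :
    |w ⬝ᵥ (D - B' * A⁻¹ * B) *ᵥ w - w ⬝ᵥ P *ᵥ w| ≤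
      (2 * ε + 20 * C * s ^ 3 + C' * σ ^ 3) / σ ^ 2 * (w ⬝ᵥ w) := by
  have s0 := σ0.trans_le h1
  have C0 := T.nonneg (by linarith)
  have C1 := T'.nonneg (by linarith)
  have n : ∀ {v : ι → ℝ} {w : κ → ℝ} {a : ℝ}, ‖v‖ ≤ a → ‖w‖ ≤ a → ‖Sum.elim v w‖ ≤ a :=
    fun {v w _} hv hw => (pi_norm_le_iff_of_nonneg ((norm_nonneg _).trans hv)).2 fun i => by
      cases i
      exacts [(norm_le_pi_norm v _).trans hv, (norm_le_pi_norm w _).trans hw]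
  have k : ∀ w, ‖w‖ ≤ σ →
      |Φ w - E 0 - w ⬝ᵥ (D - B' * A⁻¹ * B) *ᵥ w| ≤ ε + 10 * C * s ^ 3 := fun w hw => by
    obtain ⟨v, v1, v2, v3⟩ := h w hw
    have a := abs_le.1 (T.2 _ s (n v1 (hw.trans h1)) (by linarith))
    have b := abs_le.1 (schur_near T.1 hA γ0 c s0 hε (x := v) (w := w) fun u hu => by
      have := abs_le.1 (T.2 _ (2 * s) (n ((norm_add_le_of_le v1 hu).trans (by linarith))
        (hw.trans (by linarith))) h2)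
      linarith [v3 u hu, this.2, a.1])
    rw [v2, abs_le]
    constructor <;> linarith [a.1, a.2, b.1, b.2]
  rw [← dotProduct_sub, ← sub_mulVec]
  refine (quad_scale σ0 (fun w hw => ?_) w).trans
    (mul_le_mul_of_nonneg_left (norm_sq_le_dot w) (by positivity))
  have a := abs_le.1 (k w hw)
  have b := abs_le.1 (k 0 (by simpa using σ0.le))
  have d := abs_le.1 (T'.2 w σ hw h3)
  rw [zero_dotProduct] at b
  rw [sub_mulVec, dotProduct_sub, abs_le]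
  constructor <;> linarith [a.1, a.2, b.1, b.2, d.1, d.2]

end Pool.Agent.Lib.MP_7f377f_mp.RG.Q4.Af
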