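import Pool.Agent.Lib.MP_7f377f_mp.G.Q4AfT
import Pool.Agent.Lib.MP_7f377f_mp.G.Q4AfP
import Pool.Agent.Lib.MP_7f377f_mp.G.GMu

/-! Changes of the base point of the chart. -/

noncomputable section

set_option linter.unusedSectionVars false
variable [Pool.Agent.Lib.MP_7f377f_mp.GD]

namespace Pool.Agent.Lib.MP_7f377f_mp.RG.Q4.Af

open Finset Matrix

theorem exS_eq (a : R3) : exS a = Ms.e0 (WithLp.toLp 2 a) :=
  cS_inj ((cS_exS a).trans (Ms.cS_e0 _).symm)

variable {l : ℕ} {N : Fin 4 → ℕ} [∀ i, NeZero (N i)] {U U' : Conf} {x u : IR l N → ℝ} {η : ℝ}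

/-- the value on a link -/
def av (x : IR l N → ℝ) (e : TS (fi l N) × Fin 4) : R3 := fun k => exN x (e, k)

/-- an operation on the values on the links -/
def lw (φ : R3 → R3 → R3) (x u : IR l N → ℝ) : IR l N → ℝ :=
  fun i => φ (av x i.1.1) (av u i.1.1) i.1.2

omit [∀ i, NeZero (N i)] in
theorem av_lw {φ : R3 → R3 → R3} (h : φ 0 0 = 0) (e : TS (fi l N) × Fin 4) :
    av (lw φ x u) e = φ (av x e) (av u e) := by
  by_cases t : tree l (lf e.1, e.2)
  · have : ∀ y : IR l N → ℝ, av y e = 0 := fun y => funext fun k => dif_pos t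
    rw [this, this, this, h]
  · exact funext fun k => dif_neg t

omit [∀ i, NeZero (N i)] in
theorem av_add (e : TS (fi l N) × Fin 4) : av (x + u) e = av x e + av u e := by
  funext k; simp only [av, exN, Pi.add_apply]; split_ifs <;> simp

theorem norm_av (x : IR l N → ℝ) (e : TS (fi l N) × Fin 4) : ‖av x e‖ ≤ ‖x‖ :=
  (norm_comp_le (e := Equiv.refl _) (exN x) e).trans (norm_exT x)

theorem norm_le_av (h0 : 0 ≤ η) (h : ∀ e, ‖av x e‖ ≤ η) : ‖x‖ ≤ η :=
  (pi_norm_le_iff_of_nonneg h0).2 fun i => le_of_eq_of_le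
    (congrArg norm (show exN x i = _ from dif_neg i.2).symm)
    ((norm_le_pi_norm (av x i.1.1) i.1.2).trans (h _))

theorem dot_av (x u : IR l N → ℝ) : x ⬝ᵥ u = ∑ e, av x e ⬝ᵥ av u e := by
  rw [show ∑ e, av x e ⬝ᵥ av u e = ∑ i, exN x i * exN u i from
    (Fintype.sum_prod_type fun i => exN x i * exN u i).symm,
    ← Fintype.sum_subtype_add_sum_subtype (trI l N), sum_eq_zero fun i _ => by simp [exN, i.2],
    zero_add]
  exact sum_congr rfl fun i _ => by simp [exN, i.2]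

/-- coordinates with respect to the new base point -/
def dl (x u : IR l N → ℝ) : IR l N → ℝ := lw (fun x u => mu3 (x + u) (-x)) x u

/-- their linearisation -/
def Jc (x : IR l N → ℝ) : Matrix (IR l N) (IR l N) ℝ := LinearMap.toMatrix'
  { toFun := lw jc3 x
    map_add' := fun u v => funext fun i => by
      simp only [lw, av_add, jc3, mulVec_add, Pi.add_apply]
    map_smul' := fun c u => funext fun i => by
      have : av (c • u) i.1.1 = c • av u i.1.1 := by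
        funext k; simp only [av, exN, Pi.smul_apply]; split_ifs <;> simp
      simp only [lw, this, jc3, mulVec_smul, Pi.smul_apply, RingHom.id_apply] }

theorem av_Jc (e : TS (fi l N) × Fin 4) : av (Jc x *ᵥ u) e = jc3 (av x e) (av u e) := by
  rw [Jc, LinearMap.toMatrix'_mulVec]; exact av_lw (φ := jc3) (by simp [jc3]) e

theorem Jc_le (hx : ‖x‖ ≤ kG) (u : IR l N → ℝ) : ‖Jc x *ᵥ u‖ ≤ 2 * ‖u‖ ∧
    (1 - 72 * (GD.cG * ‖x‖) ^ 2) * (u ⬝ᵥ u) ≤ Jc x *ᵥ u ⬝ᵥ Jc x *ᵥ u ∧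
    Jc x *ᵥ u ⬝ᵥ Jc x *ᵥ u ≤ (1 + 72 * (GD.cG * ‖x‖) ^ 2) * (u ⬝ᵥ u) := by
  have c := GD.cG1
  have a := fun e => jc3_le ((norm_av x e).trans hx) (av u e)
  have b := fun e => abs_le.1 ((a e).2.trans (mul_le_mul_of_nonneg_right
    (show _ ≤ 72 * (GD.cG * ‖x‖) ^ 2 by gcongr; exact norm_av x e) (dot_nonneg _)))
  simp only [dot_av, av_Jc, mul_sum]
  refine ⟨norm_le_av (by positivity) fun e => ?_, sum_le_sum fun e _ => by linarith [(b e).1],
    sum_le_sum fun e _ => by linarith [(b e).2]⟩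
  rw [av_Jc]; linarith [(a e).1, norm_av u e]

theorem dl_spec (hx : ‖x‖ ≤ kG) (hu : ‖u‖ ≤ kG) :
    rf (rf U (exN x)) (exN (dl x u)) = rf U (exN (x + u)) ∧ ‖dl x u‖ ≤ 2 * ‖u‖ ∧
      ‖dl x u - Jc x *ᵥ u‖ ≤ ‖u‖ ^ 2 := by
  have a := fun e => mu3_neg ((norm_av x e).trans hx) ((norm_av u e).trans hu)
  have b : ∀ e, av (dl x u) e = mu3 (av x e + av u e) (-av x e) := av_lw (by simp [mu3_zero])
  refine ⟨funext fun f => ?_, norm_le_av (by positivity) fun e => ?_,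
    norm_le_av (by positivity) fun e => ?_⟩
  · show exS (av _ _) * (exS (av _ _) * _) = exS (av _ _) * _
    rw [b, ← (a _).1, exS_neg, av_add, mul_assoc, inv_mul_cancel_left]
  · rw [b]; linarith [(a e).2.1, norm_av u e]
  · rw [eq_sub_of_add_eq ((av_add e).symm.trans (congrArg (av · e) (sub_add_cancel _ _))), b, av_Jc]
    exact (a e).2.2.trans (pow_le_pow_left₀ (norm_nonneg _) (norm_av u e) 2)

theorem rf_rf (hx : ‖x‖ ≤ kG) (hu : ‖u‖ ≤ kG) :
    ∃ v, rf (rf U (exN x)) (exN u) = rf U (exN (x + v)) ∧ ‖v‖ ≤ 2 * ‖u‖ := by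
  have a := fun e => mu3_near ((norm_av u e).trans hu) ((norm_av x e).trans hx)
  have b : ∀ e, av (lw mu3 u x) e = mu3 (av u e) (av x e) := av_lw mu3_zero
  refine ⟨lw mu3 u x - x, funext fun f => ?_, norm_le_av (by positivity) fun e => ?_⟩
  · show exS (av _ _) * (exS (av _ _) * _) = exS (av _ _) * _
    rw [add_sub_cancel, b, ← (a _).1, mul_assoc]
  · rw [eq_sub_of_add_eq ((av_add e).symm.trans (congrArg (av · e) (sub_add_cancel _ _))), b]
    linarith [(a e).2, norm_av u e]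

theorem rf_near (hx : ‖x‖ ≤ kG) (f : Lk) : Rb.Nr (2 * (GD.cG * ‖x‖)) (rf U (exN x) f) (U f) :=
  ((Rb.Nr.of1 (exS_near ((norm_cR _).trans (mul_le_mul_of_nonneg_left (norm_av x _) GD.cG_pos.le))
    (by linarith [(kG_spec (norm_nonneg _) hx).1]))).right _).congr rfl (one_mul _)

theorem rf_tree (h : ∀ f, tree l f → U f = 1) (f : Lk) (hf : tree l f) : rf U (exN x) f = 1 := by
  rw [rf, h f hf, mul_one, ← exS_zero]
  exact congrArg _ (funext fun k => dif_pos ((trI_cs f k).2 hf))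

omit [∀ i, NeZero (N i)] in
theorem pv_rf (h : PV N U) (a : IL N → ℝ) : PV N (rf U a) :=
  (pv_of_cs fun x μ => exS fun k => a ((x, μ), k)).map₂ h (· * ·)

omit [∀ i, NeZero (N i)] in
theorem rf_zero : rf (M := N) U 0 = U := funext fun f => by
  rw [rf, show (fun k => (0 : IL N → ℝ) ((cs N f.1, f.2), k)) = 0 from rfl, exS_zero, one_mul]

theorem exists_rf (hU : PV (fi l N) U) (hU' : PV (fi l N) U') (t : ∀ f, tree l f → U f = 1)
    (t' : ∀ f, tree l f → U' f = 1) (h : ∀ f, Rb.Nr η (U f) (U' f)) (h1 : η ≤ 1 / 2) :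
    ∃ x : IR l N → ℝ, U = rf U' (exN x) ∧ ‖x‖ ≤ 2 * η := by
  have a0 : ∀ f, Rb.Nr η (U f * (U' f)⁻¹) 1 := fun f => by
    have := (h f).right (U' f)⁻¹
    rwa [mul_inv_cancel] at this
  have a := fun f => ch_cS_le (g := U f * (U' f)⁻¹) (a0 f).one h1
  let x : IR l N → ℝ := fun i =>
    (ch (cS (U (lf i.1.1.1, i.1.1.2) * (U' (lf i.1.1.1, i.1.1.2))⁻¹)) i.1.2).re
  have b : ∀ e, cR (av x e) = ch (cS (U (lf e.1, e.2) * (U' (lf e.1, e.2))⁻¹)) := fun e => by
    by_cases h : tree l (lf e.1, e.2)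
    · rw [t _ h, t' _ h, mul_inv_cancel, cS_one, ch_one,
        show av x e = 0 from funext fun k => dif_pos h, cR_zero]
    · funext k
      exact Complex.ext (dif_neg h) ((Complex.ofReal_im _).trans (ch_real _ k).symm)
  refine ⟨x, funext fun f => ?_, norm_le_av (by linarith [(norm_nonneg _).trans (h (0, 0))])
    fun e => (norm_le_cR _).trans (by rw [b]; exact (a _).2)⟩
  rw [rf, ← mul_inv_eq_iff_eq_mul]
  refine cS_inj ((ex_ch (a f).1).symm.trans ?_)
  rw [cS_exS, show (fun k => exN x ((cs (fi l N) f.1, f.2), k)) = av x (cs _ f.1, f.2) from rfl, b,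
    hU.lf_cs, hU'.lf_cs]

theorem Ur_pf (s : V →ₗ[ℝ] V) (W : Conf) {M : Fin 4 → ℕ} (a : IL M → ℝ) :
    Ur l s W (pf a) = rf (Ub l s W) a := funext fun f => by rw [rf, exS_eq]; rfl

omit [∀ i, NeZero (N i)] in
theorem pv_Ub (s : V →ₗ[ℝ] V) (h : PV N U) : PV (fi l N) (Ub l s U) := fun μ => by
  rw [show ((fi l N μ : ℕ) : ℤ) • un μ = up l ((N μ : ℤ) • un μ) by
    funext i; simp [up_apply, fi, mul_assoc], ← Ub_sh, h μ]

end Pool.Agent.Lib.MP_7f377f_mp.RG.Q4.Af
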