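import Pool.Agent.Lib.MP_7f377f_mp.G.Q4AfK

/-! The part of the new tree density which is dropped is a small local functional. -/

noncomputable section

set_option linter.unusedSectionVars false
variable [Pool.Agent.Lib.MP_7f377f_mp.GD]

namespace Pool.Agent.Lib.MP_7f377f_mp.RG.Q4.Af

open Finset Sd

attribute [local irreducible] box lbox

variable {S : Sd} {φ : ℝ}

theorem dd_eq {R : ℕ} {A B : Fld} (h : Agr (R + 1) A B) :
    ∀ x ∈ box R, ∀ μ ν, dd A x μ ν = dd B x μ ν := fun x hx μ ν => by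
  have a := fun μ => h (x, μ) (mem_lbox.2 (box_mono R.le_succ hx))
  have c := fun μ ν => h (x + un μ, ν) (mem_lbox.2 (add_un_mem_box hx μ))
  simp only [dd, a, c]

theorem rest_l1 (h : Sm0 S (φ ^ 3)) {κ : ℝ} (dc : Dcy S.l (S.r / 2) κ S.m) (κ0 : 0 ≤ κ)
    (κ1 : κ ≤ φ ^ 3) (hφ : S.β * φ ≤ 1) : ∃ (R : ℕ) (t : Cf → ℂ), 1000 * (R : ℝ) ≤ S.Q ∧
      L1 R (S.Q * φ) (S.Q ^ 30 * φ ^ 5) t ∧
      ∀ W : Conf, Gl (2 * φ) W → S.t.tn (cC W) = tf S.m1 S.T1 (cC W) + t (cC W) := by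
  have n := h.nu
  have k := h.tk
  have φ0 : 0 < φ := (Odd.pow_pos_iff ⟨1, rfl⟩).1 h.pos
  have le := n.lens
  have Q1 := S.Q1
  have D0 := D0' S.toTd
  have D1 : (1 : ℝ) ≤ S.D0 := by exact_mod_cast D1 S.toTd
  have DQ := n.D_le_Q
  have w1 : (1 : ℝ) ≤ S.w := by exact_mod_cast (by omega : 1 ≤ S.w)
  have wD : (S.w : ℝ) + 2 ≤ S.D0 := by exact_mod_cast (by omega : S.w + 2 ≤ S.D0)
  have hQ : 10 ^ 6 * (S.D0 : ℝ) ^ 2 ≤ S.Q := by
    simpa using n.mon (C := 10 ^ 6) (i := 0) (j := 2) (by norm_num) (by omega) (by omega)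
  have q4 : S.Q ^ 4 * φ ≤ 1 :=
    (mul_le_mul_of_nonneg_right ((S.Qw (by norm_num)).trans n.ok.Qβ) φ0.le).trans hφ
  have Qφ : 0 < S.Q * φ := by positivity
  have φ1 : φ ≤ S.Q * φ := le_mul_of_one_le_left φ0.le Q1
  obtain ⟨ρ, hρ⟩ : ∃ ρ, ρ = 120 * (S.w + 2 : ℝ) * (S.Q * φ) := ⟨_, rfl⟩
  have ρ0 : 0 < ρ := by rw [hρ]; positivity
  have b1 : 1000 * S.w * ρ ≤ S.Q ^ 2 * φ := by
    rw [hρ]
    calc _ = 120000 * (S.w * (S.w + 2)) * (S.Q * φ) := by ring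
      _ ≤ 10 ^ 6 * (S.D0 * S.D0) * (S.Q * φ) := by gcongr <;> linarith
      _ ≤ _ := by nlinarith
  have b2 : S.Q ^ 2 * φ ≤ (S.D0 : ℝ)⁻¹ := by
    rw [inv_eq_one_div, le_div_iff₀ D0]
    calc _ ≤ S.Q ^ 2 * φ * S.Q ^ 2 := by gcongr; nlinarith
      _ ≤ _ := by linarith
  have b3 : (S.D0 : ℝ)⁻¹ ≤ S.δ := by
    rw [inv_eq_one_div, div_le_iff₀ D0]; linarith [n.le_δ]
  have b4 : (S.D0 : ℝ)⁻¹ ≤ 1 := inv_le_one_of_one_le₀ D1
  have wρ : ρ ≤ S.w * ρ := le_mul_of_one_le_left ρ0.le w1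
  have wφ : 0 ≤ S.w * (S.Q * φ) := by positivity
  have wφ' : S.w * φ ≤ S.w * (S.Q * φ) := by gcongr
  have sz := fun d (d0 : 0 < d) (d1 : d ≤ 6 * S.w * ρ) => n.sz d0 (by linarith)
  have tq := Nt.tq_Tq k.ok k.gz (R := S.w) (ρ := ρ) (by omega) (sz _ (by positivity) le_rfl)
  have tc := n.T1_tc k
  have h1 : 1000 * ((S.w + 1 : ℕ) + 1) * (S.Q * φ) ≤ 1 := by push_cast; nlinarith
  have cv : ∀ U : Cf, (∀ e ∈ lbox (S.w + 2), ‖U e - 1‖ ≤ S.Q * φ) → Cv S.w ρ (Bx 0 U) :=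
    fun U hU => (Sm.cv fun e he => (Bx_re_ne hU h1 he).2).mono le_rfl
      (by rw [hρ]; push_cast; linarith)
  have lc : ∀ A B : Fld, (∀ x ∈ box S.w, ∀ μ ν, dd A x μ ν = dd B x μ ν) →
      S.t.tq S.w S.m1 A - S.T1 A = S.t.tq S.w S.m1 B - S.T1 B := fun A B e =>
    congrArg₂ (· - ·) (tq.loc A B e) (tc.loc A B fun x hx => e x (box_mono (by omega) hx))
  refine ⟨S.w + 2, fun U => ctf S.w ρ (fun B => S.t.tq S.w S.m1 B - S.T1 B) (Bx 0 U), ?_,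
    ⟨fun g U => ?_, fun U U' e => ?_, fun Ω γ hΩ hγ e => ?_, fun U e => ?_⟩, fun W hW => ?_⟩
  · push_cast; nlinarith
  · have : Bx 0 (ga Prod.fst tg g U) = adF (fun _ => cS (g 0)) (Bx 0 U) :=
      Bx_gauge (h := fun x => cS (g x)) (fun _ => uni_cS _) 0 U
    rw [this]
    exact ctf_congr ρ0.le (fun x _ μ ν => by rw [dd_adF, nsq_adq]) fun hB =>
      congrArg₂ (· - ·) (tq.ad (g 0) _ hB) (tc.ad (g 0) _)
  · have := dd_eq (Bx_agr (R := S.w + 1) e)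
    exact ctf_congr ρ0.le (fun x hx μ ν => by rw [this x hx]) fun _ => lc _ _ this
  · have d := Bx_disc hγ e h1
    have c := fun s (hs : s ∈ Ω) => (cv _ (e s hs)).congr (b := cut (S.w + 1) (Bx 0 (γ s)))
      fun e he => (cut_of_mem _ he).symm
    refine ((tq.hol Ω _ hΩ d c).sub (tc.hol Ω _ hΩ d fun s hs =>
      (c s hs).mono (by omega) (by linarith))).congr fun s hs => ?_
    rw [ctf_of (cv _ (e s hs))]
    exact lc _ _ (dd_eq fun e he => (cut_of_mem _ he).symm)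
  · have c := cv U e
    rw [ctf_of c]
    generalize Bx 0 U = B at c
    have hB := JS.cut_cg_bd c ρ0.le
    have z := sz (3 * S.w * ρ) (by positivity) (by linarith)
    have a := (Nt.rest_exF k.ok z hB k.gz (R := S.r + 5) (by omega) n.sz1 dc κ0 (by omega) Nu.τ0
      n.τ_le (cut_cg_tr _ B) (Sm.cv fun e _ => hB e) (by positivity) (by linarith)).trans
      (n.rest_num k z κ0 κ1 h.τ h.ex (pow_le_one₀ φ0.le (by nlinarith [one_le_pow₀ Q1 (n := 4)])))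
    rw [Nt.rest, Bx_exF (fun e => (hB e).trans (by linarith)) (cut_cg_tr _ B),
      cx_mb_cut k.ok.lin (by omega)] at a
    rw [tc.loc B (cut S.w (cg B)) fun x hx μ ν => by
      rw [dd_eq ((agr_cut S.w (cg B)).mono (show S.r + 5 + 1 ≤ _ by omega)) x hx, dd_cg]]
    refine a.trans ?_
    have b5 : 3 * S.w * ρ ≤ S.Q ^ 2 * φ := by linarith
    generalize 3 * S.w * ρ = d at z b5
    have d0 := z.d0
    calc _ ≤ 17 * S.Q * ((S.Q ^ 2 * φ) ^ 5 + φ ^ 3 * (S.Q ^ 2 * φ) ^ 2) := by gcongr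
      _ = 17 * (S.Q ^ 11 + S.Q ^ 5) * φ ^ 5 := by ring
      _ ≤ _ := by
        gcongr
        have := S.Qw (show 5 ≤ 11 by norm_num)
        have := S.Qw (show 12 ≤ 30 by norm_num)
        have := mul_le_mul_of_nonneg_right (n.cQ' (C := 34) (by norm_num)) (pow_pos S.Q0 11).le
        nlinarith
  · obtain ⟨a, -⟩ := comb_real (R := S.w + 1) (fun x _ => hW x) (by push_cast; nlinarith)
    obtain ⟨a', b⟩ := comb_real (R := S.w) (fun x _ => hW x) (by nlinarith)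
    have c : Cv S.w ρ (Bx 0 (cC W)) := (Sm.cv fun e he => cut_of_mem (Bx 0 (cC W)) he ▸ a e).mono
      le_rfl (by rw [hρ]; push_cast; nlinarith)
    beta_reduce
    rw [ctf_of c, tf, Nt.tq, cg_Bx, Nt.tn_agr k.ok (b.mono (by omega)),
      Nt.tn_cov k.ok _ (Nt.gw_exF k.ok (sz _ (by positivity) (by nlinarith)) a')]
    ring

end Pool.Agent.Lib.MP_7f377f_mp.RG.Q4.Af
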