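import Pool.Agent.Lib.MP_7f377f_mp.G.Q4TrG

/-! The tree step: estimates on good fields. -/

noncomputable section

set_option linter.unusedSectionVars false
variable [Pool.Agent.Lib.MP_7f377f_mp.GD]

namespace Pool.Agent.Lib.MP_7f377f_mp.RG.Q4

open Finset

attribute [local irreducible] box lbox

section tr

variable {l R R' : ℕ} {u : St → S3} {W W' : Cf} (e : Agr R W (gS u W'))
include e

theorem Bx_trf (hR : R' + 1 ≤ R) : Agr R' (Bx 0 W) (adF (fun _ => cS (u 0)) (Bx 0 W')) :=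
  Bx_gauge (fun x => uni_cS (u x)) 0 W' ▸ Bx_agr (e.mono hR)

theorem Ay_trf (hR : 1 ≤ R) (a : Fld) : Agr (3 * l + 1) (Ay l 0 W a)
    (adF (fun _ => cS (u 0)) (Ay l 0 W' (aS l (fun x => (u x)⁻¹) a))) := by
  rw [← Ay_gauge (u := fun x => cS (u x)) fun _ => uni_cS _]
  exact Ay_agr (zero_mem_box 0) (e.mono hR) fun f _ => (congrFun (aS_inv l u a) f).symm

end tr

namespace Nt

variable {t : Nt} {r c n R : ℕ} {τ P δ d α β : ℝ} {m : BF} {s : V →ₗ[ℝ] V} {B A A' v a b : Fld}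
  {W W' : Cf} {W0 : Conf} {y y' : St}

variable (h : t.Ok r c τ m s P δ)
include h

theorem Lj.agr (j : t.Lj W' y A') (hy : y ∈ box n) (hW : Agr (n + r / 4 + 2) W W')
    (hA : Agr (fb t.O.l (n + 1)) A A') : t.Lj W y A := by
  have e : (fun w => t.FF W y (A + w)) = fun w => t.FF W' y (A' + w) :=
    funext fun w => FF_agr h hy hW fun e he => by simp only [Pi.add_apply, hA e he]
  unfold Lj j1 j2 at j ⊢
  rwa [e]

variable (z : t.Sz c τ P δ d)
include z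

/-! ### flat fields -/

section flat

variable (hB : ∀ e, ‖B e‖ ≤ d)
include hB

theorem Bx_flat (hR : R ≤ t.O.l) : Sm R ((LL t.O.l : ℝ) ^ 3 * d ^ 2) (Bx 0 (exF B) - cg B) ∧
    Sm R ((LL t.O.l : ℝ) ^ 2 * d) (Bx 0 (exF B)) ∧ Sm R ((LL t.O.l : ℝ) ^ 2 * d) (cg B) := by
  have d0 := z.d0
  have d1 := h.d_le z
  have L0 := h.op.LL_ge
  have s1 := h.small' z (j := 1) (by omega)
  have r1 : (R : ℝ) + 1 ≤ LL t.O.l := by exact_mod_cast (by unfold LL; omega : R + 1 ≤ LL t.O.l)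
  have r2 := mul_le_mul_of_nonneg_right r1 d0.le
  have r0 : (0 : ℝ) ≤ R := R.cast_nonneg
  have k1 : Sm R ((LL t.O.l : ℝ) ^ 3 * d ^ 2) (Bx 0 (exF B) - cg B) := by
    refine (Bx_ap (Ap_exF (fun e _ => hB e) (by linarith)) (by nlinarith) (by linarith)).mono le_rfl
      (le_trans ?_ (h.up (C := 110000) (i := 2) (by norm_num) (by norm_num) (sq_nonneg d)))
    calc _ ≤ 10 ^ 4 * ((LL t.O.l : ℝ) ^ 2 * d ^ 2 + LL t.O.l ^ 2 * (10 * d ^ 2)) := by
          gcongr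
          nlinarith
      _ = _ := by ring
  have k2 : Sm R (3 * R * (4 * d)) (cg B) := Sm_cg (Sm.cv fun e _ => hB e)
  have k3 := h.up (C := 24) (i := 1) (j := 2) (by norm_num) (by norm_num) d0.le
  have k4 : (LL t.O.l : ℝ) ^ 3 * d ^ 2 + 3 * R * (4 * d) ≤ LL t.O.l ^ 2 * d := by
    nlinarith [mul_le_mul_of_nonneg_left s1 (by positivity : 0 ≤ (LL t.O.l : ℝ) ^ 2 * d)]
  exact ⟨k1, by simpa using (k1.add k2).mono le_rfl k4, k2.mono le_rfl (by nlinarith)⟩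

theorem xx_flat (ha : Sm (3 * t.O.l + 1) α a) :
    ‖cx (xx t.O.l m s) (Ay t.O.l 0 (exF B) a) (Bx 0 (exF B)) - cx (xx t.O.l m s) a B‖ ≤
      (LL t.O.l : ℝ) ^ (c + 4) * (d ^ 2 * α) := by
  obtain ⟨a1, a2, -⟩ := Bx_flat h z hB (R := r) (by have := h.r_le; omega)
  have a3 := (Ay_near hB (h.d_le z) 0 (by rwa [up_zero, sh_zero])).1
  rw [up_zero, sh_zero] at a3
  have := norm_add_le_of_le (cx_bd h.lin.xx_bd a3 a2) (cx_bd h.lin.xx_bd ha a1)
  rw [cx_sub_left, cx_sub_right, sub_add_sub_cancel,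
    JS.cx_cg_right (JS.xx_gr h.lin.symm h.lin.gauge h.lin.s_gauge)] at this
  have x0 := mul_nonneg (sq_nonneg d) ha.nonneg
  have k1 := h.up (C := 14400) (i := c + 2) (j := c + 4) (by norm_num) (by omega) x0
  have k2 := h.up (C := 24) (i := c + 3) (j := c + 4) (by norm_num) (by omega) x0
  refine this.trans ?_
  rw [pow_add _ c 2] at k1
  rw [pow_add _ c 3] at k2
  linarith

end flat

/-! ### good fields -/

omit h z in
theorem sm_inv (hv : Sm R α (sh (up t.O.l y) v)) (u : St → S3) :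
    Sm R (2 * α) (sh (up t.O.l y) (aS t.O.l (fun x => (u x)⁻¹) v)) :=
  fun e he => (norm_adq_two _ _).trans (mul_le_mul_of_nonneg_left (hv e he) zero_le_two)

theorem rem3_gd (g : Gd (n + 1 + t.rA r) d W) (hy : y ∈ box n)
    (hv : Sm (3 * t.O.l + 1) α (sh (up t.O.l y) v)) (α0 : 0 < α) (α1 : α ≤ 2 * d / LL t.O.l) :
    ‖t.rem3 W v y‖ ≤ 768 * P * LL t.O.l ^ 3 * α ^ 3 := by
  obtain ⟨u, B, hB, e⟩ := g
  have := rem3_bd h z hB (sm_inv hv u) (by positivity) (by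
    rw [mul_div_assoc] at α1 ⊢; linarith)
  rw [← rem3_cov h u (gw_exF h z hB), aS_inv, ← rem3_agr h hy e fun _ _ => rfl] at this
  exact this.trans_eq (by ring)

theorem gv_gd (g : Gd (n + 3 + t.rA r) d W) (hy : y ∈ box n) (hv : Sm t.O.l α (sh (up t.O.l y) v))
    (ht : ∀ f, tree t.O.l f → v f = 0) : ‖t.gv W (t.As W) v y‖ ≤ 24 * (LL t.O.l : ℝ) ^ 4 *
      (t.th c P d ^ t.p * ((LL t.O.l : ℝ) ^ 2 * (P * (d ^ 2 + τ * d))) * α) := by
  obtain ⟨u, B, hB, e⟩ := g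
  have := gv_As h z hB (sm_inv hv u) fun f hf => by rw [aS, adF, ht f hf, adq_zero]
  rw [← gv_cov h u (gw_exF h z hB).As, aS_inv, ← As_cov h u (gw_exF h z hB),
    ← gv_agr h hy (e.mono (by unfold rA; omega)) (As_agr h e) fun _ _ => rfl] at this
  exact this.trans_eq (by ring)

/-- the differential of the energy of a block -/
theorem j1_gd (g : Gd (r + 1) d W) (hA : Sm (3 * t.O.l + 1) β A) (β1 : β ≤ 2 * d / LL t.O.l) :
    t.Lj W 0 A ∧ ∀ {α a}, Sm (3 * t.O.l + 1) α a → 0 < α →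
      ‖j1 (t.FF W 0) A a - 2 * cx (xx t.O.l m s) (Ay t.O.l 0 W a) (Bx 0 W)‖ ≤
        (LL t.O.l : ℝ) ^ (c + 6) * ((P * d ^ 2 + β) * α) ∧
      ‖j1 (t.FF W 0) A a‖ ≤ (LL t.O.l : ℝ) ^ (c + 6) * (P * d * α) := by
  obtain ⟨u, B, hB, e⟩ := g
  have r0 := h.r_ge
  have d0 := z.d0
  have d1 := h.d_le z
  have P1 := h.P1
  have β0 := hA.nonneg
  have a0 := sm_aS (l := t.O.l) hA fun x => (u x)⁻¹
  have a1 := a0.mono le_rfl (show _ ≤ 4 * d / LL t.O.l by rw [mul_div_assoc] at β1 ⊢; linarith)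
  have ea : ∀ A : Fld, Agr (fb t.O.l (0 + 1)) A (aS t.O.l u (aS t.O.l (fun x => (u x)⁻¹) A)) :=
    fun A f _ => (congrFun (aS_inv _ u A) f).symm
  refine ⟨((lj_of h z hB (y := 0) (by rwa [up_zero, sh_zero])).cov h u).agr h (zero_mem_box 0)
    (e.mono (by omega)) (ea A), fun {α a} ha α0 => ?_⟩
  have a2 := sm_aS (l := t.O.l) ha fun x => (u x)⁻¹
  have h1 := ((h.ge.blk h.lin d0 z.d1 hB a1).2.2 a2 (by positivity)).1
  have h2 := h.hh_bd a2 a0
  have h3 := xx_flat h z hB a2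
  have h4 := cx_bd h.lin.xx_bd a2 (fun e _ => hB e : Sm r d B)
  have e1 := Bx_trf e le_rfl
  have e2 := Ay_trf (l := t.O.l) e (by omega) a
  rw [j1_agr h (zero_mem_box 0) (e.mono (by omega)) (ea A) (ea a), j1_cov h, j1_FF, up_zero, sh_zero,
    sh_zero, sh_zero, cx_agr h.lin.xx_rng e2 e1, cx_adF _ h.lin.xx_rng (uni_cS _)]
  have two : ∀ {x : ℂ} {y : ℝ}, ‖x‖ ≤ y → ‖2 * x‖ ≤ 2 * y := norm_mul_le_of_le Complex.norm_two.le
  have h5 := norm_add_le_of_le h1 (two h2)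
  have x1 : 0 ≤ P * d ^ 2 * α := by positivity
  have x2 : 0 ≤ P * d * α := by positivity
  have k1 := h.up (C := 9216) (i := 1) (j := c + 6) (by norm_num) (by omega) x1
  have k2 := h.up (C := 8) (i := c + 5) (j := c + 6) (by norm_num) (by omega) (mul_nonneg β0 α0.le)
  have k3 := h.up (C := 12) (i := c + 4) (j := c + 6) (by norm_num) (by omega) x1
  have k4 : (LL t.O.l : ℝ) ^ (c + 4) * (1 * d ^ 2 * α) ≤ LL t.O.l ^ (c + 4) * (P * d ^ 2 * α) := by
    gcongr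
  refine ⟨(le_of_eq_of_le (congrArg _ (by ring)) (norm_sub_le_of_le h5 (two h3))).trans
    (by nlinarith [mul_nonneg (pow_pos (LL_pos' t.O.l) (c + 6)).le x1]),
    (le_of_eq_of_le (congrArg _ (by ring)) (norm_add_le_of_le h5 (two h4))).trans ?_⟩
  have L0 := LL_pos' t.O.l
  have k5 := h.up (C := 30) (i := 1) (j := c + 6) (by norm_num) (by omega) x2
  have k6 := h.up (C := 48) (i := c + 4) (j := c + 6) (by norm_num) (by omega) x2
  have k7 := h.up (C := 144) (i := c) (j := c + 6) (by norm_num) (by omega) x2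
  have k8 : (LL t.O.l : ℝ) ^ (c + 4) * (LL t.O.l * β * α) ≤ LL t.O.l ^ (c + 4) * (2 * (P * d) * α) := by
    rw [le_div_iff₀' L0] at β1
    exact mul_le_mul_of_nonneg_left (mul_le_mul_of_nonneg_right
      (by linarith [mul_le_mul_of_nonneg_right P1 d0.le]) α0.le) (pow_pos L0 _).le
  have k9 : (LL t.O.l : ℝ) ^ c * (1 * d * α) ≤ LL t.O.l ^ c * (P * d * α) := by gcongr
  have k10 := mul_le_mul_of_nonneg_left d1 (mul_nonneg L0.le x2)
  rw [pow_succ _ (c + 4)]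
  nlinarith

/-! ### reality -/

variable (hr : GR t.G)
include hr

end Nt

end Pool.Agent.Lib.MP_7f377f_mp.RG.Q4
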