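import Pool.Agent.Lib.MP_7f377f_mp.G.Q4AfK

/-! The energy of all blocks as a joint energy of the fine and of the coarse fluctuation. -/

noncomputable section

set_option linter.unusedSectionVars false
variable [Pool.Agent.Lib.MP_7f377f_mp.GD]

namespace Pool.Agent.Lib.MP_7f377f_mp.RG.Q4.Af

open Finset Matrix

attribute [local irreducible] box lbox nz

variable {l : ℕ} {N : Fin 4 → ℕ} [∀ i, NeZero (N i)] {W : Conf}

/-- sums over the fine torus, block by block -/
theorem sum_blks {M : Type} [AddCommMonoid M] {g : St → M}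
    (hg : ∀ x y, cs (fi l N) x = cs _ y → g x = g y) :
    ∑ y : TS N, ∑ x ∈ box l, g (x + up l (lf y)) = ∑ z : TS (fi l N), g (lf z) := by
  rw [← sum_product']
  refine sum_nbij' (fun p => cs _ (p.2 + up l (lf p.1)))
    (fun z => (cs N (yo l (lf z)), ps l (lf z))) (fun _ _ => mem_univ _)
    (fun z _ => mem_product.2 ⟨mem_univ _, ps_mem l _⟩) (fun p hp => ?_) (fun z _ => ?_)
    fun p _ => hg _ _ (cs_lf _).symm
  · obtain ⟨v, hv⟩ := dv_iff.1 (cs_eq_iff.1 (cs_lf (cs (fi l N) (p.2 + up l (lf p.1)))))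
    have h := (mem_product.1 hp).2
    simp only [sub_eq_iff_eq_add'.1 hv, ← up_pv, ps_add_up, yo_add_up, ps_of_mem h, yo_of_mem h,
      zero_add, cs_add_pv, cs_lf]
  · rw [cs_add, cs_up (cs_lf _), ← cs_add, ps, sub_add_cancel, cs_lf]

theorem en_sum (S : Td) (_hn : ∀ i, Odd (N i)) {U : Conf} (hU : PV (fi S.l N) U)
    (ht : ∀ f, tree S.l f → U f = 1) {w : IL N → ℝ} {x v : IR S.l N → ℝ}
    (e : Ur S.l S.s (rf W w) (pf (exN x)) = rf U (exN v)) :
    PP N S (rf W w) x = EJ N S U W (Sum.elim (exN v) w) := by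
  set Z := exF (pf (exN v)) * cC U with hZ
  have z : Uz S.l S.s (cC (rf W w)) (pf (exN x)) = Z := by
    rw [← cC_Ur _ (pf_real _), e, cC_rf]
  have zt : ∀ f, tree S.l f → Z f = 1 := fun f hf => by
    have : pf (exN v) f = 0 := funext fun k => by simp [pf, cR_apply, exN, (trI_cs (N := N) f k).2 hf]
    simp [hZ, exF, cC, this, ht f hf, cS_one]
  have zp : PV (fi S.l N) Z := (pv_pf _).map₂ hU fun a b => ex a * cS b
  have a := sum_blks (l := S.l) (N := N) (g := fun x => (tf S.m S.T (sh x Z)).re)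
    fun x y h => by rw [zp.sh_eq h]
  rw [PP, EJ, SS, NJ, mul_sum]
  simp only [Sum.elim_inl, Sum.elim_inr]
  rw [← hZ, ← a, ← sum_add_distrib]
  refine sum_congr rfl fun y _ => ?_
  change (en S.l S.m S.T (sh (lf y) (cC (rf W w))) (Uz S.l S.s (sh (lf y) (cC (rf W w)))
    (sh (up S.l (lf y)) (pf (exN x))))).re = _
  rw [En.Uz_sh, z, tfx_sh, tfx_tree zt, en, Complex.add_re, Complex.re_sum, cC_rf, Td.L,
    ← Complex.ofReal_natCast, ← Complex.ofReal_pow, Complex.re_ofReal_mul]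
  simp only [tf, Bx_sh, zero_add, sh_apply]

end Pool.Agent.Lib.MP_7f377f_mp.RG.Q4.Af
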