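import Pool.Agent.Lib.MP_7f377f_mp.G.Q4AfQ
import Pool.Agent.Lib.MP_7f377f_mp.G.Q4AfT2
import Pool.Agent.Lib.MP_7f377f_mp.G.Q4AfU
import Pool.Agent.Lib.MP_7f377f_mp.G.Q4AfU2
import Pool.Agent.Lib.MP_7f377f_mp.G.Q4AfR
import Pool.Agent.Lib.MP_7f377f_mp.G.Q4AfN

/-! The determinants in one tree step. -/

noncomputable section

set_option linter.unusedSectionVars false
variable [Pool.Agent.Lib.MP_7f377f_mp.GD]

namespace Pool.Agent.Lib.MP_7f377f_mp.RG.Q4.Af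

open Finset Matrix

section gen

variable {ι κ : Type} [Fintype ι] [Fintype κ] {f : (ι → ℝ) → ℝ} {Q : Matrix ι ι ℝ} {C ρ : ℝ}

theorem quad_sub (Q : Matrix ι ι ℝ) {g : κ → ι} {e : ι → ℝ} {v : κ → ℝ}
    (he : ∀ a, e ⬝ᵥ a = v ⬝ᵥ fun k => a (g k)) : v ⬝ᵥ Q.submatrix g g *ᵥ v = e ⬝ᵥ Q *ᵥ e := by
  rw [he]
  exact congrArg _ (funext fun k => (dotProduct_comm _ _).trans ((he _).symm.trans
    (dotProduct_comm _ _)))

theorem Tay.sub (h : Tay f Q C ρ) (g : κ → ι) {e : (κ → ℝ) → ι → ℝ} (hn : ∀ v, ‖e v‖ ≤ ‖v‖)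
    (he : ∀ v a, e v ⬝ᵥ a = v ⬝ᵥ fun k => a (g k)) :
    Tay (fun v => f (e v)) (Q.submatrix g g) C ρ := ⟨h.1.submatrix g, fun v δ h1 h2 => by
  simp only [quad_sub Q (he v), show e 0 = 0 from norm_le_zero_iff.1 ((hn 0).trans_eq norm_zero)]
  exact h.2 _ δ ((hn v).trans h1) h2⟩

theorem Tay.inl (h : Tay f Q C ρ) :
    Tay (fun p : ι ⊕ κ → ℝ => f fun i => p (.inl i)) (fromBlocks Q 0 0 0) C ρ :=
  ⟨h.1.fromBlocks transpose_zero isSymm_zero, fun p δ h1 h2 => by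
    have := h.2 (fun i => p (.inl i)) δ (((pi_norm_le_iff_of_nonneg (norm_nonneg _)).2 fun i =>
      norm_le_pi_norm p _).trans h1) h2
    simpa [fromBlocks_mulVec, dotProduct, Function.comp_def, Pi.zero_def] using this⟩

theorem Tay.crit (h : Tay f Q C ρ) (h0 : 0 < ρ) (u : ι → ℝ) : ∃ K s0 : ℝ, 0 < s0 ∧
    ∀ s, 0 < s → s ≤ s0 → |f (s • u) - f 0| ≤ K * s ^ 2 := by
  have u0 := norm_nonneg u
  refine ⟨C * ‖u‖ ^ 3 + |u ⬝ᵥ Q *ᵥ u|, min 1 (ρ / (‖u‖ + 1)), by positivity, fun s s0 s1 => ?_⟩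
  have a := (le_div_iff₀ (by positivity)).1 (s1.trans (min_le_right _ _))
  have b := h.2 (s • u) (s * ‖u‖) (by rw [norm_smul, Real.norm_of_nonneg s0.le]) (by linarith)
  rw [quad_smul] at b
  have c := abs_add_le (f (s • u) - f 0 - s ^ 2 * (u ⬝ᵥ Q *ᵥ u)) (s ^ 2 * (u ⬝ᵥ Q *ᵥ u))
  rw [sub_add_cancel, abs_mul, abs_of_pos (by positivity : 0 < s ^ 2)] at c
  have C0 := h.nonneg h0
  nlinarith [mul_le_mul_of_nonneg_left (s1.trans (min_le_left _ _))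
    (by positivity : 0 ≤ C * ‖u‖ ^ 3 * s ^ 2)]

theorem norm_elim {α β : Type} [Fintype α] [Fintype β] {a : α → ℝ} {b : β → ℝ} {c : ℝ} (c0 : 0 ≤ c)
    (ha : ‖a‖ ≤ c) (hb : ‖b‖ ≤ c) : ‖Sum.elim a b‖ ≤ c :=
  (pi_norm_le_iff_of_nonneg c0).2 fun i => by
    rcases i with i | i
    exacts [(norm_le_pi_norm a i).trans ha, (norm_le_pi_norm b i).trans hb]

end gen

/-- the hierarchy of the numbers -/
structure Nm (Q φ V : ℝ) : Prop where
  big : 10 ^ 120 ≤ Q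
  pos : 0 < φ
  sm : Q ^ 1000 * φ ≤ 1
  V0 : 0 ≤ V
  V1 : V * φ ^ 2 ≤ Q

namespace Nm

variable {Q φ V C : ℝ} (h : Nm Q φ V)
include h

theorem Q1 : 1 ≤ Q := le_trans (by norm_num) h.big

theorem a (hC : C ≤ 10 ^ 120) {i : ℕ} (hi : i < 1000) : C * Q ^ i * φ ≤ 1 := by
  have := h.Q1
  have := h.pos
  calc _ ≤ Q * Q ^ 999 * φ := by gcongr; exacts [hC.trans h.big, by omega]
    _ = _ := by ring
    _ ≤ _ := h.sm

theorem p1 : φ ≤ 1 := by simpa using h.a (C := 1) (i := 0) (by norm_num) (by norm_num)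

theorem b (hC : C ≤ 10 ^ 120) {i j k : ℕ} (hi : i < 1000) (hj : k < j) :
    C * Q ^ i * φ ^ j ≤ φ ^ k := by
  have := h.pos
  have := h.Q1
  rcases le_total C 0 with c | c
  · exact le_trans (mul_nonpos_of_nonpos_of_nonneg (mul_nonpos_of_nonpos_of_nonneg c
      (by positivity)) (by positivity)) (by positivity)
  calc _ ≤ C * Q ^ i * φ ^ (k + 1) :=
        mul_le_mul_of_nonneg_left (pow_le_pow_of_le_one h.pos.le h.p1 hj) (by positivity)
    _ = C * Q ^ i * φ * φ ^ k := by ring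
    _ ≤ _ := mul_le_of_le_one_left (by positivity) (h.a hC hi)

theorem c (c0 : 0 ≤ C) (hC : C ≤ 10 ^ 118) {i j k : ℕ} (hi : i + 1 < 1000) (hj : k < j) :
    C * Q ^ i * φ ^ j * (V * φ ^ 2) ≤ φ ^ k := by
  have := h.pos
  have := h.Q1
  calc _ ≤ C * Q ^ i * φ ^ j * Q := mul_le_mul_of_nonneg_left h.V1 (by positivity)
    _ = C * Q ^ (i + 1) * φ ^ j := by ring
    _ ≤ _ := h.b (by linarith) hi hj

theorem inv (hC : C ≤ 10 ^ 120) {i j k : ℕ} (hi : i + k < 1000) (hj : 0 < j) :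
    C * Q ^ i * φ ^ j ≤ (Q ^ k)⁻¹ := by
  have := h.Q1
  rw [← one_div, le_div_iff₀ (by positivity)]
  exact le_of_eq_of_le (by ring) ((h.b hC hi hj).trans_eq (pow_zero _))

end Nm

variable {N : Fin 4 → ℕ} [∀ i, NeZero (N i)] {S : Sd} {ε φ F g1 g2 : ℝ} {θ : Lk → Ang}

theorem card_fi (l : ℕ) : (Fintype.card (TS (fi l N)) : ℝ) = (LL l : ℝ) ^ 4 * Fintype.card (TS N) := by
  simp [Fintype.card_pi, ZMod.card, prod_mul_distrib]

theorem det_ne_of {U : Conf} (h : ∀ v, DL N U v = 0 → v = 0) : ((Dm N U)ᵀ * Dm N U).det ≠ 0 :=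
  fun h0 => by
    obtain ⟨v, v0, hv⟩ := exists_mulVec_eq_zero_iff.2 h0
    have := congrArg (v ⬝ᵥ ·) hv
    simp only [← mulVec_mulVec, dotProduct_mulVec v, vecMul_transpose, dotProduct_zero,
      dotProduct_self_eq_zero, Dm_mulVec] at this
    exact v0 (h v this)

theorem exN_dot {l : ℕ} (x : IR l N → ℝ) (a : IL (fi l N) → ℝ) :
    exN x ⬝ᵥ a = x ⬝ᵥ fun i => a i := by
  rw [dotProduct, ← Fintype.sum_subtype_add_sum_subtype (trI l N),
    sum_eq_zero fun i _ => by simp [exN, i.2], zero_add]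
  exact sum_congr rfl fun i _ => by simp [exN, i.2]

variable (N) in
/-- the joint energy in the tree gauge -/
def ER (S : Td) (F : ℝ) (θ : Lk → Ang) (p : IR S.l N ⊕ IL N → ℝ) : ℝ :=
  EJ N S (ab (lift S.l F θ)) (ab θ) (Sum.elim (exN fun i => p (.inl i)) fun i => p (.inr i))

theorem jt (h : S.Nu 100) (ht : S.TOk) (n : Nm S.Q φ (Fintype.card (TS N))) :
    ∃ c0 : ℝ, ∀ F θ, Bg N F θ → |F| ≤ φ → ∃ A B B' D,
      Tay (ER N S.toTd F θ) (fromBlocks A B B' D) (Fintype.card (TS N) * S.Q ^ 7) (S.Q ^ 2)⁻¹ ∧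
      (∀ u, |u ⬝ᵥ A *ᵥ u| ≤ Fintype.card (TS N) * S.Q ^ 14 * ‖u‖ ^ 2) ∧ (0 < A.det →
        (∀ v, (D - B' * A⁻¹ * B) *ᵥ DL N (ab θ) v = 0) ∧
        (0 < kap (D - B' * A⁻¹ * B) (Dm N (ab θ)) (Dm N (ab θ))ᵀ →
          LK (fi S.l N) (tf S.m S.T) (lift S.l F θ) =
            lk (D - B' * A⁻¹ * B) (Dm N (ab θ)) + 2⁻¹ * Real.log A.det - c0)) := by
  obtain ⟨e, he⟩ := Th_det S.l N
  have L1 := Sd.L1 S.toTd
  have Q1 := S.Q1
  have φ0 := n.pos
  have V0 := n.V0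
  set M : Matrix (IL N) (IL N) ℝ := S.L ^ 2 • 1 with hM
  have dM : 0 < M.det := by rw [hM, det_smul, det_one]; positivity
  refine ⟨2⁻¹ * (Real.log M.det + Real.log (((Th S.l N 1).submatrix id e).det ^ 2)),
    fun F θ hb hF => ?_⟩
  have q : ∀ {C : ℝ} {i : ℕ}, C ≤ 10 ^ 120 → i ≤ 20 → C * S.L ^ i ≤ S.Q := fun hC hi => by
    simpa using h.mon (j := 0) hC (by have := h.exps; omega) (by omega)
  have a1 := n.a (C := 1) (i := 1) (by norm_num) (by norm_num)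
  obtain ⟨B, hB, TJ, KJ⟩ := joint (l := S.l) hb
    (by simpa [Td.L] using h.gL' (C := 1) (k := 1) (by norm_num))
    ((mul_le_mul (q (by norm_num) (by norm_num)) hF (abs_nonneg _) (by positivity)).trans (by linarith))
  have hb' := bg_lift (l := S.l) hb
  obtain ⟨TH, kH, KH, -⟩ := (td_of h ht).hess hb'.per hb'.curv (φ := φ) (by
    rw [abs_div, abs_pow, Nat.abs_cast]
    exact (div_le_self (abs_nonneg _) (one_le_pow₀ L1)).trans hF) φ0
    (by simpa using n.a (C := 1) (i := 3) (by norm_num) (by norm_num))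
  set H := Hs (fi S.l N) (tf S.m S.T) (lift S.l F θ)
  rw [card_fi] at TH KH
  have b1 := q (C := 1) (i := 4) (by norm_num) (by norm_num)
  have e1 : Bᵀ * M * B = S.L ^ 2 • (Bᵀ * B) := by simp [hM]
  have T := Tay.sub ((Tay.inl TH (κ := IL N)).add ((TJ.mono le_rfl (ρ' := (S.Q ^ 2)⁻¹) (inv_anti₀
    (by positivity) ((q (by norm_num) (by norm_num)).trans (by nlinarith)))).smul
      (c := S.L ^ 2) (by positivity))) (Sum.map (Equiv.sumCompl (trI S.l N) ∘ Sum.inr) id)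
    (e := fun p => Sum.elim (exN fun i => p (.inl i)) fun i => p (.inr i))
    (fun p => norm_elim (norm_nonneg _) ((norm_exT _).trans ((pi_norm_le_iff_of_nonneg
      (norm_nonneg _)).2 fun i => norm_le_pi_norm p _)) ((pi_norm_le_iff_of_nonneg
      (norm_nonneg _)).2 fun i => norm_le_pi_norm p _)) fun p a => by
      have := exN_dot (fun i => p (.inl i)) fun i => a (.inl i)
      simp only [dotProduct, Fintype.sum_sum_type, Sum.elim_inl, Sum.elim_inr] at this ⊢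
      rw [this]; rfl
  refine ⟨(H + Bᵀ * M * B).submatrix (Equiv.sumCompl (trI S.l N) ∘ Sum.inr)
    (Equiv.sumCompl (trI S.l N) ∘ Sum.inr), -(Bᵀ * M).submatrix (Equiv.sumCompl (trI S.l N) ∘ Sum.inr) id,
    -(M * B).submatrix id (Equiv.sumCompl (trI S.l N) ∘ Sum.inr), M, ?_, fun u => ?_, fun hA => ?_⟩
  · convert T.mono (C' := Fintype.card (TS N) * S.Q ^ 7) ?_ le_rfl using 1
    · rfl
    · rw [e1]
      ext (i | i) (j | j) <;> simp [hM]
    · have b2 := q (C := 10 ^ 27) (i := 11) (by norm_num) (by norm_num)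
      have b3 := h.cQ (C := 2) (by norm_num)
      calc _ = Fintype.card (TS N) * (1 * S.L ^ 4 * S.Q ^ 5 + 10 ^ 27 * S.L ^ 11 * 1) := by
            simp only [Td.L]; ring
        _ ≤ Fintype.card (TS N) * (S.Q * S.Q ^ 5 + S.Q * S.Q ^ 5) := by
            gcongr; exact one_le_pow₀ Q1
        _ = Fintype.card (TS N) * (2 * S.Q ^ 6) := by ring
        _ ≤ Fintype.card (TS N) * (S.Q * S.Q ^ 6) := by gcongr
        _ = _ := by ring
  · rw [quad_sub _ (g := _ ∘ Sum.inr) (e := exN u) (exN_dot u), e1, add_mulVec, dotProduct_add, smul_mulVec,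
      dotProduct_smul, smul_eq_mul]
    have b2 := q (C := 10 ^ 20) (i := 8) (by norm_num) (by norm_num)
    have b3 := h.cQ (C := 2) (by norm_num)
    have b4 := norm_exT u
    calc _ ≤ _ := abs_add_le _ _
      _ ≤ _ + S.L ^ 2 * _ := add_le_add (KH _) ((abs_mul _ _).trans_le (mul_le_mul
          (abs_of_pos (by positivity)).le (KJ _) (abs_nonneg _) (by positivity)))
      _ = Fintype.card (TS N) * (1 * S.L ^ 4 * S.Q ^ 12 + 10 ^ 20 * S.L ^ 8 * 1) * ‖exN u‖ ^ 2 := by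
          simp only [Td.L]; ring
      _ ≤ Fintype.card (TS N) * (S.Q * S.Q ^ 12 + S.Q * S.Q ^ 12) * ‖u‖ ^ 2 := by
          gcongr; exact one_le_pow₀ Q1
      _ = Fintype.card (TS N) * (2 * S.Q ^ 13) * ‖u‖ ^ 2 := by ring
      _ ≤ Fintype.card (TS N) * (S.Q * S.Q ^ 13) * ‖u‖ ^ 2 := by gcongr
      _ = _ := by ring
  have e2 : Th S.l N (ab (lift S.l F θ)) = Th S.l N 1 :=
    Th_eq fun f hf => by rw [ab, lift_tree hf, eA_zero]
  obtain ⟨k1, k2⟩ := kap_step TH.1 (N := M) (by simp [hM]) (D := Dm _ (ab (lift S.l F θ)))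
    (ext_iff_mulVec.2 fun v => by rw [← mulVec_mulVec, Dm_mulVec, kH, zero_mulVec]) hB
    (Equiv.sumCompl (trI S.l N)) e (by rw [← e2] at he; exact he) hA.ne' dM.ne'
    (det_ne_of (DL_inj hb')) (det_ne_of (DL_inj hb))
  simp only [Matrix.neg_mul, Matrix.mul_neg, neg_neg]
  refine ⟨fun v => by rw [← Dm_mulVec, mulVec_mulVec, k2, zero_mulVec], fun hk => ?_⟩
  have k3 := congrArg Real.log k1
  rw [show fromRows _ _ = Th S.l N 1 from e2] at k1 k3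
  have k4 := (k1 ▸ mul_pos hA hk).ne'
  rw [Real.log_mul hA.ne' hk.ne', Real.log_mul (left_ne_zero_of_mul k4) (pow_ne_zero _ he),
    Real.log_mul dM.ne' (right_ne_zero_of_mul (left_ne_zero_of_mul k4))] at k3
  rw [LK, lk_eq, lk_eq]
  linarith

end Pool.Agent.Lib.MP_7f377f_mp.RG.Q4.Af
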