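import Pool.Agent.Lib.MP_7f377f_mp.G.Q4AfS

/-! The determinants in one tree step: comparison with the tree step. -/

noncomputable section

set_option linter.unusedSectionVars false
variable [Pool.Agent.Lib.MP_7f377f_mp.GD]

namespace Pool.Agent.Lib.MP_7f377f_mp.RG.Q4.Af

open Finset Matrix

variable {N : Fin 4 → ℕ} [∀ i, NeZero (N i)] {S : Sd} {ε φ F g1 g2 : ℝ} {θ : Lk → Ang}

theorem Gl.mono {W : Conf} {ε' : ℝ} (h : Gl ε W) (h1 : ε ≤ ε') : Gl ε' W :=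
  fun x μ ν => (h x μ ν).trans h1

theorem Sm0.up (h : Sm0 S (φ ^ 30)) (hβ : S.β * φ ≤ 1) (h1 : φ ^ 30 ≤ ε)
    (h2 : ε ≤ S.Q ^ 2 * φ) : Sm0 S ε := by
  have o := h.nu.ok
  have g0 := o.g0
  have Q0 := S.Q0
  have a : φ ≤ S.g ^ 2 := le_of_mul_le_mul_left (hβ.trans_eq o.βg.symm) o.β0
  refine h.mono h1 ?_
  calc _ ≤ S.Q ^ 10 * (S.Q ^ 2 * S.g ^ 2) := by
        gcongr; exact h2.trans (by gcongr)
    _ = S.Q ^ 10 * (S.Q ^ 2 * S.g) * S.g := by ring
    _ ≤ _ := (mul_le_of_le_one_left g0.le (o.Qg_le (by norm_num))).trans o.gg'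

theorem ab_tree {l : ℕ} (f : Lk) (hf : tree l f) : ab (lift l F θ) f = 1 := by
  rw [ab, lift_tree hf, eA_zero]

theorem kG_ge (h : S.Nu 100) : (S.Q ^ 1)⁻¹ ≤ kG ∧ cG ≤ S.Q :=
  have := GD.cG_pos
  ⟨inv_anti₀ (by positivity) ((h.gQ' (by norm_num) (by norm_num)).trans_eq (pow_one _).symm),
    by simpa using h.gQ' (C := 1) (k := 1) (by norm_num)⟩

variable {A : Matrix (IR S.l N) (IR S.l N) ℝ} {B : Matrix (IR S.l N) (IL N) ℝ}
  {B' : Matrix (IL N) (IR S.l N) ℝ} {D : Matrix (IL N) (IL N) ℝ}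

theorem det_A (h : Sm0 S (φ ^ 30)) (n : Nm S.Q φ (Fintype.card (TS N))) (hβ : S.β * φ ≤ 1)
    (hn : ∀ i, Odd (N i)) (hN : ∀ i, 2 * S.N < N i) (hb : Bg N F θ) (hF : |F| ≤ φ)
    (T : Tay (ER N S.toTd F θ) (fromBlocks A B B' D) (Fintype.card (TS N) * S.Q ^ 7) (S.Q ^ 2)⁻¹)
    (hK : ∀ u, |u ⬝ᵥ A *ᵥ u| ≤ Fintype.card (TS N) * S.Q ^ 14 * ‖u‖ ^ 2) :
    (∀ f, Rb.Nr (φ ^ 99) (Ur S.l S.s (ab θ) (S.t.As (cC (ab θ))) f) (ab (lift S.l F θ) f)) ∧
    0 < A.det ∧ (∀ x, x ⬝ᵥ x ≤ 2 * S.Q * (x ⬝ᵥ A *ᵥ x)) ∧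
    |Real.log A.det - Fintype.card (IR S.l N) * Real.log S.Λ +
      2 * ∑ y : TS N, (S.dt0 (sh (lf y) (cC (ab θ)))).re| ≤ 3 * (Fintype.card (TS N) * φ ^ 3) := by
  have φ0 := n.pos
  have Q1 := n.Q1
  have V0 := n.V0
  have p1 : φ ^ 30 ≤ φ := pow_le_of_le_one φ0.le n.p1 (by norm_num)
  have q2 : 2 * S.Q ≤ S.Q ^ 2 := by nlinarith [n.big]
  have h1 := h.up hβ p1 (by nlinarith)
  have h2 := h.up (ε := 2 * (S.Q * φ)) hβ (by nlinarith) (by nlinarith)
  have hp : PV N (ab θ) := hb.per.map eA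
  have hp' : PV _ (ab (lift S.l F θ)) := (bg_lift hb).per.map eA
  have gl := (gl_ab hb.curv).mono hF
  have a1 := n.a (C := 20) (i := 1) (by norm_num) (by norm_num)
  obtain ⟨x, ex, x1⟩ := exists_rf hp' (pv_Ub S.s hp) ab_tree (fun f => Ub_tree h.tk.ok.lin _)
    (bg_near h1 hb.curv hF) (by linarith)
  obtain ⟨kQ, cQ⟩ := kG_ge h.nu
  have c0 := GD.cG_pos
  have x2 : ‖x‖ ≤ kG := by
    linarith [n.inv (C := 2) (i := 1) (j := 1) (k := 1) (by norm_num) (by norm_num) (by norm_num)]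
  have r1 : (S.Q ^ 3)⁻¹ ≤ kG :=
    (inv_anti₀ (by positivity) (pow_le_pow_right₀ Q1 (by norm_num))).trans kQ
  have TA : Tay _ A _ _ := Tay.sub T Sum.inl (e := fun v => Sum.elim v 0)
    (fun v => norm_elim (norm_nonneg _) le_rfl (by simp)) fun v a => by simp [dotProduct]
  have TC : Tay (fun u => PP N S.toTd (ab θ) (x + u)) _ _ (S.Q ^ 3)⁻¹ :=
    (Tay.comp TA hK (by positivity) (M := Jc x) (b := dl x)
      (inv_le_one_of_one_le₀ (one_le_pow₀ Q1)) (by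
      rw [← div_eq_mul_inv, div_le_iff₀ (by positivity), pow_succ _ 2, inv_mul_cancel_left₀
        (by positivity)]; linarith [n.big]) (fun v => (Jc_le x2 v).1)
      fun v hv => (dl_spec (U := 1) x2 (hv.trans r1)).2.2).congr fun u hu => by
        have := en_sum S.toTd hn hp' ab_tree (W := ab θ) (w := 0) (x := x + u) (v := dl x u) (by
          rw [rf_zero, Ur_pf, ex, (dl_spec x2 (hu.trans r1)).1])
        rwa [rf_zero] at this
  have cf := crit_fix h2 hn hp (gl.mono (by nlinarith)) x1 fun u => by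
    simpa using Tay.crit TC (by positivity) u
  have c1 : ‖x - xs N S.toTd (ab θ)‖ ≤ φ ^ 100 :=
    cf.trans (le_of_eq_of_le (by ring) (n.b (C := 2 ^ 101) (i := 202) (j := 101) (by norm_num)
      (by norm_num) (by norm_num)))
  obtain ⟨e1, s1⟩ := As_xs h1 hp gl
  have x3 : ‖x‖ ≤ 2 * (S.Q * φ ^ 2) := by
    have := norm_le_norm_add_norm_sub' x (xs N S.toTd (ab θ))
    nlinarith [pow_le_pow_of_le_one φ0.le n.p1 (show 2 ≤ 100 by norm_num), sq_nonneg φ]
  obtain ⟨Y, ℓ, TY, -, cY, dY⟩ := tree_tay h1 hn hN hp gl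
  have ts := tay_shift TY TC (by positivity) c1
    (by simpa using n.inv (C := 2) (i := 0) (j := 100) (k := 1) (by norm_num) (by norm_num) (by norm_num))
    (by simpa using n.inv (C := 1) (i := 0) (j := 100) (k := 3) (by norm_num) (by norm_num) (by norm_num))
  have z1 : 72 * (cG * ‖x‖) ^ 2 ≤ 288 * S.Q ^ 4 * φ ^ 4 :=
    le_of_le_of_eq (b := 72 * (S.Q * (2 * (S.Q * φ ^ 2))) ^ 2) (by gcongr) (by ring)
  obtain ⟨d1, d2, d3⟩ := det_chart (η := φ ^ 97) TY.1 TA.1 S.Q0 cY (by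
      linarith [n.b (C := 576) (i := 4) (j := 4) (k := 0) (by norm_num) (by norm_num) (by norm_num)])
    (by positivity) (fun v => (Jc_le x2 v).2.1) (fun v => (Jc_le x2 v).2.2) (by positivity)
    (le_of_eq_of_le (by ring) ((n.b (C := 4) (i := 1) (j := 97) (by norm_num) (by norm_num)
      (by norm_num)).trans_eq (pow_zero _))) fun v => (ts v).trans (mul_le_mul (by
        calc _ = (9 * S.Q ^ 1 + 27 * S.Q ^ 7 + 10 * S.Q ^ 14) * φ ^ 98 *
              (Fintype.card (TS N) * φ ^ 2) := by ring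
          _ ≤ (9 * S.Q ^ 14 + 27 * S.Q ^ 14 + 10 * S.Q ^ 14) * φ ^ 98 *
              (Fintype.card (TS N) * φ ^ 2) := by gcongr <;> first | exact Q1 | norm_num
          _ ≤ _ := le_of_eq_of_le (by ring) (n.c (C := 46) (i := 14) (j := 98) (by norm_num)
              (by norm_num) (by norm_num) (by norm_num))) (norm_sq_le_dot v) (by positivity)
      (by positivity))
  refine ⟨fun f => ?_, d1, d2, ?_⟩
  · have p := n.inv (C := 2) (i := 0) (j := 100) (k := 1) (by norm_num) (by norm_num) (by norm_num)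
    rw [norm_sub_rev] at c1
    obtain ⟨k1, k2, -⟩ := dl_spec (U := Ub S.l S.s (ab θ)) x2
      (c1.trans (by linarith [pow_pos φ0 100]))
    rw [e1, Ur_pf, ← add_sub_cancel x (xs _ _ _), ← k1, ← ex]
    exact (rf_near (by linarith) f).mono (by
      linarith [n.b (C := 4) (i := 1) (j := 100) (k := 99) (by norm_num) (by norm_num) (by norm_num),
        mul_le_mul cQ (k2.trans (mul_le_mul_of_nonneg_left c1 zero_le_two)) (norm_nonneg _) S.Q0.le])
  have cI : (Fintype.card (IR S.l N) : ℝ) ≤ S.Q * Fintype.card (TS N) := by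
    refine (Nat.cast_le.2 (Fintype.card_subtype_le _)).trans ?_
    have := h.nu.mong (C := 4) (k := 1) (i := 4) (j := 0) (by norm_num) (by norm_num)
      (by have := h.nu.exps; omega) (by omega)
    rw [Fintype.card_prod, Fintype.card_prod, Nat.cast_mul, Nat.cast_mul, card_fi]
    simp only [Fintype.card_fin, Td.L] at this ⊢
    push_cast
    nlinarith [mul_le_mul_of_nonneg_left GD.d_le
      (by positivity : 0 ≤ (LL S.l : ℝ) ^ 4 * Fintype.card (TS N))]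
  have b1 := n.b (C := 10) (i := 0) (j := 30) (k := 3) (by norm_num) (by norm_num) (by norm_num)
  have b2 := n.b (C := 2) (i := 2) (j := 97) (k := 3) (by norm_num) (by norm_num) (by norm_num)
  have b3 := n.b (C := 576) (i := 5) (j := 4) (k := 3) (by norm_num) (by norm_num) (by norm_num)
  have b4 := d3.trans (mul_le_mul (show _ ≤ 2 * φ ^ 97 * S.Q + 576 * S.Q ^ 4 * φ ^ 4 by linarith) cI
    (by positivity) (by positivity))
  have b5 := abs_le.1 (dY.trans (mul_le_mul_of_nonneg_left h.ex (by positivity)))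
  have b6 := abs_le.1 b4
  rw [abs_le]
  constructor <;> nlinarith [mul_le_mul_of_nonneg_left b1 V0, mul_le_mul_of_nonneg_left b2 V0,
    mul_le_mul_of_nonneg_left b3 V0]

theorem schur_A (h : Sm0 S (φ ^ 30)) (n : Nm S.Q φ (Fintype.card (TS N))) (hβ : S.β * φ ≤ 1)
    (hn : ∀ i, Odd (N i)) (hN : ∀ i, 2 * S.N < N i) (hb : Bg N F θ) (hF : |F| ≤ φ)
    (T : Tay (ER N S.toTd F θ) (fromBlocks A B B' D) (Fintype.card (TS N) * S.Q ^ 7) (S.Q ^ 2)⁻¹)
    (nr : ∀ f, Rb.Nr (φ ^ 99) (Ur S.l S.s (ab θ) (S.t.As (cC (ab θ))) f) (ab (lift S.l F θ) f))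
    (dA : 0 < A.det) (cA : ∀ x, x ⬝ᵥ x ≤ 2 * S.Q * (x ⬝ᵥ A *ᵥ x)) {P : Matrix (IL N) (IL N) ℝ}
    (T' : Tay (fun w => ∑ y : TS N, (S.t.tn (sh (lf y) (cC (rf (ab θ) w)))).re) P
      (Fintype.card (TS N) * S.Q ^ 6) (φ ^ 2)) (w : IL N → ℝ) :
    |w ⬝ᵥ (D - B' * A⁻¹ * B) *ᵥ w - w ⬝ᵥ P *ᵥ w| ≤ 25 * φ ^ 9 * (w ⬝ᵥ w) := by
  have φ0 := n.pos
  have Q1 := n.Q1
  have V0 := n.V0
  have p1 : φ ^ 30 ≤ φ := pow_le_of_le_one φ0.le n.p1 (by norm_num)
  have q2 : 2 * S.Q ≤ S.Q ^ 2 := by nlinarith [n.big]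
  have h1 := h.up hβ p1 (by nlinarith)
  have h2 := h.up (ε := 2 * φ) hβ (by linarith) (by nlinarith)
  have hp : PV N (ab θ) := hb.per.map eA
  have hp' : PV _ (ab (lift S.l F θ)) := (bg_lift hb).per.map eA
  have gl := (gl_ab hb.curv).mono hF
  have p0 : 0 < φ ^ 12 := by positivity
  have a0 : φ ^ 12 ≤ S.Q * φ ^ 12 := le_mul_of_one_le_left p0.le Q1
  obtain ⟨kQ, cQ⟩ := kG_ge h.nu
  have a1 := n.b (C := 8) (i := 1) (j := 12) (k := 1) (by norm_num) (by norm_num) (by norm_num)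
  have c1 := mul_le_mul_of_nonneg_right cQ p0.le
  have c2 := n.inv (C := 8) (i := 1) (j := 12) (k := 1) (by norm_num) (by norm_num) (by norm_num)
  have c3 := pow_le_pow_of_le_one φ0.le n.p1 (show 2 ≤ 12 by norm_num)
  have a2 := n.b (C := 100) (i := 1) (j := 12) (k := 0) (by norm_num) (by norm_num) (by norm_num)
  have a3 := n.inv (C := 4) (i := 1) (j := 2) (k := 1) (by norm_num) (by norm_num) (by norm_num)
  have a4 := pow_le_pow_of_le_one φ0.le n.p1 (show 12 ≤ 99 by norm_num)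
  have a5 := n.c (C := 64) (i := 10) (j := 34) (k := 33) (by norm_num) (by norm_num) (by norm_num)
    (by norm_num)
  have a6 := n.c (C := 1) (i := 6) (j := 34) (k := 33) (by norm_num) (by norm_num) (by norm_num)
    (by norm_num)
  have a7 := n.c (C := 4096) (i := 4) (j := 34) (k := 33) (by norm_num) (by norm_num) (by norm_num)
    (by norm_num)
  have a8 := n.c (C := 2 ^ 104) (i := 101) (j := 110) (k := 33) (by norm_num) (by norm_num)
    (by norm_num) (by norm_num)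
  have a9 := n.b (C := 11) (i := 0) (j := 33) (k := 24) (by norm_num) (by norm_num) (by norm_num)
  refine (schur_tay T dA.ne' (γ := (2 * S.Q)⁻¹) (by positivity) (fun u => by
      rw [inv_mul_le_iff₀ (by positivity)]; exact (norm_sq_le_dot u).trans (cA u)) T' p0
    (s := 4 * (S.Q * φ ^ 12)) (ε := 2 * φ ^ 33) (by linarith) (le_of_eq_of_le (by ring)
      (n.inv (C := 8) (i := 1) (j := 12) (by norm_num) (by norm_num) (by norm_num))) (by linarith)
    (by positivity) ?_ (fun w hw => ?_) w).trans (mul_le_mul_of_nonneg_right ?_ (dot_nonneg w))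
  · rw [show (2 * S.Q)⁻¹ * (4 * (S.Q * φ ^ 12)) ^ 2 = 8 * (S.Q * φ ^ 24) by field_simp; ring]
    linarith [le_mul_of_one_le_left (pow_pos φ0 24).le Q1, pow_pos φ0 24]
  · have gl' := (gl_rf gl hw (by linarith)).mono (show _ ≤ 2 * φ by linarith)
    have hq := pv_rf hp w
    obtain ⟨e1, s1⟩ := As_xs h2 hq gl'
    set x := xs N S.toTd (rf (ab θ) w)
    obtain ⟨v, ev, v1⟩ := exists_rf (pv_rf (pv_Ub S.s hq) (exN x)) hp'
      (rf_tree fun f => Ub_tree h.tk.ok.lin _) ab_tree (fun f => by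
        have := (Ur_lip h1 gl hw (by linarith) f).trans (nr f)
        rwa [e1, Ur_pf] at this) (by linarith)
    refine ⟨v, by linarith, (tn_sum h2 hq gl').trans
      (en_sum S.toTd hn hp' ab_tree ((Ur_pf _ _ _).trans ev)), fun u hu => ?_⟩
    obtain ⟨k1, k2, -⟩ := dl_spec (U := ab (lift S.l F θ)) (x := v) (u := u) (by linarith)
      (by linarith)
    obtain ⟨u', k3, k4⟩ := rf_rf (U := Ub S.l S.s (rf (ab θ) w)) (x := x) (u := dl v u)
      (by linarith) (by linarith)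
    obtain ⟨Y, ℓ, TY, lY, cY, -⟩ := tree_tay h2 hn hN hq gl'
    have u1 : ‖u'‖ ≤ 16 * (S.Q * φ ^ 12) := by linarith
    have t := (abs_le.1 (TY.2 u' _ u1 (le_of_eq_of_le (by ring) ((n.inv (C := 16) (i := 1) (j := 12)
      (k := 1) (by norm_num) (by norm_num) (by norm_num)).trans_eq (by rw [pow_one]))))).1
    have y0 := nonneg_of_mul_nonneg_right ((dot_nonneg u').trans (cY u')) S.Q0
    have l1 := (abs_le.1 ((lY u').trans (mul_le_mul_of_nonneg_left u1 (by positivity)))).1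
    have e2 := en_sum S.toTd hn hp' ab_tree ((Ur_pf _ _ _).trans ev)
    have e3 := en_sum S.toTd hn hp' ab_tree (w := w) (x := x + u') (v := v + u) (by
      rw [Ur_pf, ← k3, ev, k1])
    simp only [add_zero, map_zero] at t
    refine e2.symm.trans_le (le_of_le_of_eq ?_ (congrArg (· + _) e3))
    linarith
  · rw [div_le_iff₀ (by positivity)]
    linarith

theorem step_lk (h : Sm0 S (φ ^ 30)) (φ0 : 0 < φ) {κ : ℝ} (dc : Dcy S.l (S.r / 2) κ S.m)
    (κ0 : 0 ≤ κ) (κ1 : κ ≤ φ ^ 30) (f1 : TD S.Q (tf S.m1 S.T1)) (hn : ∀ i, Odd (N i))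
    (hN : ∀ i, 2 * S.N < N i) (hV : Fintype.card (TS N) * φ ^ 2 ≤ S.Q) :
    ∃ k0 : ℝ, ∀ F θ g1 g2, Bg N F θ → Gap N (ab θ) g1 g2 → |F| ≤ φ → 1 ≤ g1 →
      S.β * φ * g1 ≤ 1 → g2 * φ ^ 6 ≤ 1 →
      |LK (fi S.l N) (tf S.m S.T) (lift S.l F θ) - LK N (tf S.m1 S.T1) θ - k0 +
        ∑ y : TS N, (S.dt0 (sh (lf y) (cC (ab θ)))).re| ≤
          S.β * (Fintype.card (TS N) * φ ^ 3 * g1) := by
  have β0 := h.nu.ok.β0
  have Qβ := h.nu.ok.Qβ
  rcases lt_or_ge 1 (S.β * φ) with hβ | hβ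
  · exact ⟨0, fun F θ g1 g2 _ _ _ g0 h1 _ => by nlinarith⟩
  have n : Nm S.Q φ (Fintype.card (TS N)) := ⟨h.nu.cQ le_rfl, φ0,
    (mul_le_mul_of_nonneg_right Qβ φ0.le).trans hβ, by positivity, hV⟩
  obtain ⟨c0, hc⟩ := jt h.nu h.tok n
  refine ⟨2⁻¹ * (Fintype.card (IR S.l N) * Real.log S.Λ) - c0,
    fun F θ g1 g2 hb gp hF g0 h1 h2 => ?_⟩
  obtain ⟨A, B, B', D, T, hK, hk⟩ := hc F θ hb hF
  obtain ⟨nr, dA, cA, lA⟩ := det_A h n hβ hn hN hb hF T hK
  obtain ⟨k1, k2⟩ := hk dA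
  have Q1 := n.Q1
  have V0 := n.V0
  have big := n.big
  have p3 : φ ^ 30 ≤ φ ^ 3 := pow_le_pow_of_le_one φ0.le n.p1 (by norm_num)
  have p4 : φ ^ 3 ≤ φ := pow_le_of_le_one φ0.le n.p1 (by norm_num)
  obtain ⟨R, t, hR, l1, et⟩ := rest_l1 (h.up hβ p3 (p4.trans (le_mul_of_one_le_left φ0.le
    (one_le_pow₀ Q1)))) dc κ0 (κ1.trans p3) hβ
  have a1 := n.a (C := 10) (i := 1) (by norm_num) (by norm_num)
  have a2 : R * |F| ≤ S.Q / 1000 * φ := mul_le_mul (by linarith) hF (abs_nonneg _) (by positivity)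
  have a3 : 0 < S.Q * φ := by positivity
  obtain ⟨H, TH, -⟩ := hess0 (N := N) l1 (by linarith) a3 hb.curv (by linarith)
  obtain ⟨T1, s1, -, s2⟩ := f1.hess hb.per hb.curv hF φ0
    (by simpa using n.a (C := 1) (i := 3) (by norm_num) (by norm_num))
  have gl := (gl_ab hb.curv).mono hF
  have cQ := (kG_ge h.nu).2
  have c0 := GD.cG_pos
  have c3 := mul_le_mul_of_nonneg_right cQ (sq_nonneg φ)
  have c4 := n.b (C := 100) (i := 1) (j := 2) (k := 1) (by norm_num) (by norm_num) (by norm_num)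
  have sc := schur_A h n hβ hn hN hb hF T nr dA cA (((T1.mono le_rfl (ρ' := φ ^ 2) (by
      linarith [n.inv (C := 1) (i := 0) (j := 2) (k := 2) (by norm_num) (by norm_num)
        (by norm_num)])).add (TH.mono le_rfl (by
          rw [le_div_iff₀ (by positivity)]; nlinarith))).mono (by
      have := (show 96000 * cG ^ 3 * S.Q ^ 27 * φ ^ 2 ≤ 96000 * S.Q ^ 3 * S.Q ^ 27 * φ ^ 2 by
        gcongr).trans (le_of_eq_of_le (by ring) (n.b (C := 96000) (i := 30) (j := 2) (k := 0)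
          (by norm_num) (by norm_num) (by norm_num)))
      rw [← mul_add, show 12 * (S.Q ^ 30 * φ ^ 5) / (S.Q * φ / (20 * cG)) ^ 3 =
        96000 * cG ^ 3 * S.Q ^ 27 * φ ^ 2 by field_simp; norm_num, pow_succ' _ 5]
      exact mul_le_mul_of_nonneg_left (by nlinarith [one_le_pow₀ (n := 5) Q1]) V0) le_rfl |>.congr
    fun w hw => by
      rw [SS, SS, ← sum_add_distrib, ← cC_rf]
      exact sum_congr rfl fun y _ => congrArg Complex.re
        (et _ (((gl_rf gl hw (by linarith [n.p1])).mono (by linarith)).sh (lf y))))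
  have g3 : S.Q ^ 1000 * φ * g1 ≤ 1 := le_trans (by gcongr) h1
  have g4 : ∀ i ≤ 900, 10 ^ 10 * (S.Q ^ i * φ * g1) ≤ 1 := fun i hi => le_trans (by
    calc _ ≤ S.Q * (S.Q ^ 999 * φ * g1) := by gcongr; exacts [by linarith, by omega]
      _ = _ := by ring) g3
  have sD := T.1
  rw [IsSymm, fromBlocks_transpose, fromBlocks_inj] at sD
  have b1 : φ ^ 3 ≤ S.Q ^ 35 * φ ^ 3 * g1 := by
    rw [mul_right_comm]
    exact le_mul_of_one_le_left (by positivity) (one_le_mul_of_one_le_of_one_le (one_le_pow₀ Q1) g0)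
  obtain ⟨-, c1, c2⟩ := lk_close gp T1.1 (Q' := D - B' * A⁻¹ * B) (by
      simp only [IsSymm, transpose_sub, transpose_mul, transpose_nonsing_inv, sD, Matrix.mul_assoc])
    s1 k1 (by norm_num) (by positivity) (by linarith [g4 14 (by norm_num)]) s2
    (η1 := S.Q ^ 35 * φ ^ 3) (η2 := 25 * φ ^ 9) (by positivity) (by positivity)
    (η := 10 ^ 7 * (S.Q ^ 35 * φ ^ 3 * g1)) (by positivity)
    (by nlinarith [mul_le_mul_of_nonneg_left h2 (pow_pos φ0 3).le])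
    (by linarith [g4 35 (by norm_num),
      mul_le_mul_of_nonneg_left p4 (by positivity : 0 ≤ S.Q ^ 35 * g1)]) fun a => by
      have q := quad_U l1 (by linarith) a3 hb.per hb.curv (by linarith) TH (by positivity) a
      have r : 144 * (2 * R + 1 : ℝ) ^ 6 * (5000 * (S.Q ^ 30 * φ ^ 5) / (S.Q * φ) ^ 2) ≤
          S.Q ^ 35 * φ ^ 3 := by
        calc _ = 720000 * (2 * R + 1 : ℝ) ^ 6 * (S.Q ^ 28 * φ ^ 3) := by field_simp; ring
          _ ≤ S.Q * S.Q ^ 6 * (S.Q ^ 28 * φ ^ 3) := by gcongr <;> linarith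
          _ = _ := by ring
      have s := sc a
      rw [add_mulVec, dotProduct_add, ← sub_sub] at s
      have := abs_sub_abs_le_abs_sub (a ⬝ᵥ (D - B' * A⁻¹ * B) *ᵥ a -
        a ⬝ᵥ Hs N (tf S.m1 S.T1) θ *ᵥ a) (a ⬝ᵥ H *ᵥ a)
      linarith [mul_le_mul_of_nonneg_right r (NQ_nonneg (ab θ) a)]
  rw [k2 c1, LK]
  simp only [Fintype.card_prod, Fintype.card_fin, Nat.cast_mul, Nat.cast_ofNat] at c2
  have b2 := mul_le_mul_of_nonneg_left b1 V0
  have b3 : 10 ^ 9 * S.Q ^ 36 ≤ S.β :=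
    le_trans (by
      calc _ ≤ S.Q * S.Q ^ 999 := by gcongr; exacts [by linarith, by omega]
        _ = _ := by ring) Qβ
  have b4 := mul_le_mul_of_nonneg_right b3 (by positivity : 0 ≤ Fintype.card (TS N) * φ ^ 3 * g1)
  have b5 := abs_le.1 (c2.trans (mul_le_mul_of_nonneg_left (mul_le_mul_of_nonneg_left
    (GD.d_le.trans cQ) (by positivity)) (by positivity)))
  have b8 := mul_le_mul_of_nonneg_right (pow_le_pow_right₀ Q1 (show 35 ≤ 36 by norm_num))
    (by positivity : 0 ≤ Fintype.card (TS N) * φ ^ 3 * g1)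
  have b6 := abs_le.1 lA
  have b7 : 0 ≤ Fintype.card (TS N) * φ ^ 3 := by positivity
  rw [abs_le]
  constructor <;> linarith

end Pool.Agent.Lib.MP_7f377f_mp.RG.Q4.Af
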