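import Pool.Agent.Lib.MP_7f377f_mp.G.Q4AfL
import Pool.Agent.Lib.MP_7f377f_mp.G.Q4AfL4
import Pool.Agent.Lib.MP_7f377f_mp.G.Q4AfW
import Pool.Agent.Lib.MP_7f377f_mp.G.Q4AfS2
import Pool.Agent.Lib.MP_7f377f_mp.G.Q4AfBr
import Pool.Agent.Lib.MP_7f377f_mp.G.Q4AfO
import Pool.Agent.Lib.MP_7f377f_mp.G.Q4AfX

/-! Asymptotic freedom: the one loop term at the end of a chain is universal. -/

noncomputable section

set_option linter.unusedSectionVars false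
variable [Pool.Agent.Lib.MP_7f377f_mp.GD]

namespace Pool.Agent.Lib.MP_7f377f_mp.RG.Q4.Af

open Finset Real Filter Topology

variable {c Kt K0 K l a b j n : ℕ} {S S' : Sd} {β E η : ℝ} {x : V} {d : ℕ → Td}

theorem chn_sh (h : Chn c Kt K0 l n η d) {i m : ℕ} (hi : i + m ≤ n) {η' : ℝ} (e : η ≤ η') :
    ∃ d' : ℕ → Td, (∀ k, d' k = d (i + k)) ∧ Chn c Kt K0 l m η' d' := by
  obtain ⟨d', hd⟩ : ∃ d' : ℕ → Td, ∀ k, d' k = d (i + k) := ⟨_, fun _ => rfl⟩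
  refine ⟨d', hd, fun k _ => ?_, fun k _ => ?_, fun k _ => ?_⟩ <;> simp only [hd, ← add_assoc]
  · exact h.ex _ (by omega)
  · obtain ⟨M, j, v, e, h1, h2, h3, h4, h5, h6⟩ := h.tr (i + k) (by omega)
    exact ⟨M, j, v, e, h1, h2, h3, h4, by linarith, h6⟩
  · exact (h.nx (i + k) (by omega)).imp fun _ h => ⟨h.1.trans e, h.2⟩

/-- the steps which are used in the telescoping sum -/
structure Gp (l K a b : ℕ) (β : ℝ) (S : Sd) : Prop where
  nu : S.Nu 100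
  tok : S.TOk
  tk : S.TK
  el : S.l = l
  eK : S.K = K
  eb : b = 2 * S.c + 5
  eβ : S.β = β
  eβ' : S.β' = β
  τ : ∀ j ≤ 2 * S0 l, S.τ ≤ fj l a j ^ 30
  dc : ∃ κ, 0 ≤ κ ∧ (∀ j ≤ 2 * S0 l, κ ≤ fj l a j ^ 30) ∧ Dcy S.l (S.r / 2) κ S.m

theorem om_le (h : b ≤ a) : om l a b ≤ 40 * cG ^ 1 := by
  have p := LL_pos' l
  have := GD.cG_pos
  rw [om, div_le_iff₀ (by positivity)]
  exact mul_le_mul (mul_le_mul (by nlinarith [pi_lt_d2, pi_pos]) (GD.hh_sq_le.trans_eq (pow_one _).symm)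
    (by positivity) (by norm_num)) (pow_le_pow_left₀ (by positivity)
    (pow_le_pow_right₀ (Sd.L1 ⟨0, 0, 0, l, 0, 0, 0⟩) h) 2) (by positivity) (by positivity)

theorem Gp.step (h : Gp l K a b β S) (f1 : TD S.Q (tf S.m1 S.T1)) (ba : b ≤ a)
    (hj : j ≤ 2 * S0 l) (G : Gj l a b β E j) (E1 : E ≤ 1) (hx : ∀ μ ν, dd x 0 μ ν = kF 1 μ ν) :
    |XX l a b (tf S.m S.T) (j + 1) - XX l a b (tf S.m1 S.T1) j - om l a b * (qc S.ol x x).re| ≤
      3 * (om l a b * E) := by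
  obtain ⟨nu, tok, tk, rfl, -, eb, rfl, eβ, hτ, κ, κ0, κ1, dc⟩ := h
  obtain ⟨g1, g2, a1, a2, a3, G1, G0⟩ := G
  have b1 := bg_th S.l a b 1 j
  have b0 := bg_th S.l a b 0 j
  have c1 := card_Tn S.l a b j
  have φ0 := fj_pos S.l a j
  have ω0 := om_pos S.l a b
  have e1 : th S.l a b 1 (j + 1) = lift S.l (fj S.l a j) (th S.l a b 1 j) := by simp [th]
  have e0 : th S.l a b 0 (j + 1) = lift S.l 0 (th S.l a b 0 j) := by simp [th]
  have t1 := hτ j hj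
  have t2 := κ1 j hj
  simp only [Int.cast_one, one_mul, Int.cast_zero, zero_mul] at b1 b0
  generalize fj S.l a j = φ at *
  have β0 := nu.ok.β0
  have p1 : S.β * φ ≤ E := (le_mul_of_one_le_right (by positivity) a1).trans a2
  have g0 := nu.ok.g'0
  have p2 : φ ≤ S.g' ^ 2 := le_of_mul_le_mul_left (by linarith [eβ ▸ nu.ok.βg']) β0
  have p3 : φ ≤ 1 := p2.trans (pow_le_one₀ g0.le nu.ok.g'1)
  have p4 : S.Q ^ 10 * φ ≤ S.g' ⊓ E := le_min (by
    nlinarith [nu.ok.Qg'_le (i := 10) (j := 0) (by norm_num), pow_pos S.Q0 10])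
    ((mul_le_mul_of_nonneg_right ((S.Qw (by norm_num)).trans nu.ok.Qβ) φ0.le).trans p1)
  have sm : Sm0 S (φ ^ 30) := ⟨nu, tok, tk, by positivity, (mul_le_mul_of_nonneg_left
    (pow_le_of_le_one φ0.le p3 (by norm_num)) (pow_pos S.Q0 _).le).trans (p4.trans inf_le_left), t1,
    le_trans (le_trans (exp_le_exp.2 (neg_le_neg ((div_le_self (by positivity)
      (by exact_mod_cast nu.ok.c1)).trans nu.r_le_lsq)))
      (le_mul_of_one_le_left (exp_pos _).le (one_le_pow₀ (Sd.L1 _)))) t1⟩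
  have L3 := nu.LL_big
  have hN : ∀ i, ∃ k, 2 * S.c + 5 ≤ k ∧ Tn S.l a b j i = LL S.l ^ k := fun i => by
    fin_cases i
    exacts [⟨_, by omega, rfl⟩, ⟨_, by omega, rfl⟩, ⟨_, by omega, rfl⟩, ⟨_, by omega, rfl⟩]
  obtain ⟨k0, H⟩ := step_lk (N := Tn S.l a b j) sm φ0 dc κ0 t2 f1
    (fun i => by obtain ⟨k, -, e⟩ := hN i; exact e ▸ Odd.pow ⟨S.l, rfl⟩) (fun i => by
      obtain ⟨k, a, e⟩ := hN i
      refine e ▸ lt_of_lt_of_le ?_ (Nat.pow_le_pow_right (by omega) a)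
      rw [pow_succ' _ (2 * S.c + 4)]
      exact Nat.mul_lt_mul_of_pos_right (by omega) (pow_pos (by omega) _)) 
    (c1.trans_le ((om_le ba).trans (nu.gQ' (by norm_num) (by norm_num))))
  have H1 := H _ _ g1 g2 b1 G1 (abs_of_pos φ0).le a1 (a2.trans E1) a3
  have H0 := H _ _ g1 g2 b0 G0 (by simpa using φ0.le) a1 (a2.trans E1) a3
  have D := (abs_sum_le_sum_abs _ _).trans (sum_le_card_nsmul univ _ (S.Q ^ 10 * φ ^ 3)
    fun (y : TS (Tn S.l a b j)) _ => show |(S.dt0 (sh (lf y) (cC (ab (th S.l a b 1 j))))).re -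
      (S.dt0 (sh (lf y) (cC (ab (th S.l a b 0 j))))).re + φ ^ 2 * (qc S.ol x x).re| ≤ _ by
        have d1 := dt_flux nu tok tk b1.curv (by rw [abs_of_pos φ0]; linarith) (lf y) hx
        have d0 := dt_flux nu tok tk b0.curv (by simp) (lf y) hx
        simp only [abs_zero, zero_pow two_ne_zero, zero_pow three_ne_zero, zero_mul, mul_zero,
          add_zero, abs_nonpos_iff, sub_eq_zero] at d0
        rwa [abs_of_pos φ0, ← d0] at d1)
  rw [sum_add_distrib, sum_sub_distrib, sum_const, card_univ, nsmul_eq_mul, nsmul_eq_mul,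
    ← mul_assoc, c1] at D
  rw [LK_congr (fi_Tn S.l a b j), ← e1] at H1
  rw [LK_congr (fi_Tn S.l a b j), ← e0] at H0
  have k1 : S.β * (Fintype.card (TS (Tn S.l a b j)) * φ ^ 3 * g1) ≤ om S.l a b * E :=
    le_of_eq_of_le (by rw [← c1]; ring) (mul_le_mul_of_nonneg_left a2 ω0.le)
  have k2 : Fintype.card (TS (Tn S.l a b j)) * (S.Q ^ 10 * φ ^ 3) ≤ om S.l a b * E :=
    le_of_eq_of_le (by rw [← c1]; ring) (mul_le_mul_of_nonneg_left (p4.trans inf_le_right) ω0.le)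
  rw [abs_le] at *
  unfold XX
  constructor <;> linarith [H1.1, H1.2, H0.1, H0.2, D.1, D.2]

theorem Gp.Q (h : Gp l K a b β S) : S.Q = (LL l : ℝ) ^ K := by rw [Sd.Q, Td.L, h.el, h.eK]

theorem tele {X : ℕ → ℕ → ℝ} {q : ℕ → ℝ} {ε : ℝ}
    (h : ∀ i j, i + j < n → |X i (j + 1) - X (i + 1) j - q i| ≤ ε) (j : ℕ) :
    ∀ i, i + j ≤ n → |X i j - X (i + j) 0 - ∑ k ∈ range j, q (i + k)| ≤ j * ε := by
  induction j with
  | zero => simp
  | succ j ih =>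
    intro i hi
    have h1 := abs_le.1 (h i j hi)
    have h2 := abs_le.1 (ih (i + 1) (by omega))
    simp only [sum_range_succ', add_zero, ← add_assoc, add_right_comm i _ 1, Nat.cast_succ]
    exact abs_le.2 ⟨by linarith, by linarith⟩

theorem tele2 {X : ℕ → ℕ → ℝ} {q : ℕ → ℝ} {ε : ℝ} (n1 : 1 ≤ n)
    (h : ∀ i j, i + j < 2 * n → |X i (j + 1) - X (i + 1) j - q i| ≤ 3 * ε)
    (h1 : |X (2 * n) 0 - X n 0| ≤ ε) (h2 : ∀ k ≤ n, |q (k + n) - q n| ≤ ε) :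
    |X 0 (2 * n) - X 0 n - n * q n| ≤ n * (11 * ε) := by
  have a1 := abs_le.1 (tele h (2 * n) 0 (by omega))
  have a2 := abs_le.1 (tele h n 0 (by omega))
  have a3 := abs_le.1 ((abs_sum_le_sum_abs _ _).trans (sum_le_card_nsmul (range n) _ ε
    fun k hk => h2 k (mem_range.1 hk).le))
  have a4 := le_mul_of_one_le_left ((abs_nonneg _).trans h1) (show (1 : ℝ) ≤ n by exact_mod_cast n1)
  simp only [zero_add, two_mul, sum_range_add, add_comm n, sum_sub_distrib, sum_const, card_range,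
    nsmul_eq_mul, Nat.cast_add, abs_le] at *
  exact ⟨by linarith, by linarith⟩

theorem Cd.mono {σ σ' : ℝ} {m m' : BF} (h : Cd σ m m') (e : σ ≤ σ') : Cd σ' m m' := fun a ha =>
  (h a ha).trans (mul_le_mul_of_nonneg_right e (Li.nd_nonneg _ _))

theorem af_main (c : ℕ) (c1 : 1 ≤ c) (hc : LinC c) : AfM c := by
  obtain ⟨c', c2, hd⟩ := dcy_of
  obtain ⟨a0, H0⟩ := (ev_nu c 100).and (tk0 c)
  obtain ⟨a1, H1⟩ := chain_exists c c1 hc
  obtain ⟨a2, H2⟩ := chain_close c c1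
  refine ⟨a0 + a1 + a2, fun Kt h0 => ?_⟩
  obtain ⟨b0, H0⟩ := H0 Kt (by omega)
  obtain ⟨b1, H1⟩ := H1 Kt (by omega)
  obtain ⟨b2, H2⟩ := H2 Kt (by omega)
  refine ⟨b0 + b1 + b2, fun K0 h1 Ka => ?_⟩
  obtain ⟨k0, H0⟩ := H0 K0 (by omega)
  obtain ⟨K1, H2⟩ := H2 K0 (by omega)
  obtain ⟨K, hK⟩ : ∃ K, K = k0 + (K1 + 2 * K0 + 1) := ⟨_, rfl⟩
  obtain ⟨b, hb⟩ : ∃ b, b = 2 * c + 5 := ⟨_, rfl⟩
  obtain ⟨a, ha⟩ : ∃ a, a = b + (1000 * K + Ka + 6) := ⟨_, rfl⟩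
  obtain ⟨l0, H0⟩ := H0 K (by omega) (1000 * K)
  obtain ⟨K', l2, H2⟩ := H2 (9 * K + 6 * a + (Ka + 3))
  obtain ⟨l1, H1⟩ := H1 K0 (by omega) (K' + 1)
  obtain ⟨l3, H3⟩ := eventually_atTop.1 (pow_S0_le (3 * c * c') (c + 60 * a) (by nlinarith))
  obtain ⟨l4, h4⟩ : ∃ l4, l4 = l0 + l1 + l2 + l3 + c' + 10 ^ 9 + ⌈GD.hh ^ 6⌉₊ := ⟨_, rfl⟩
  have LN : ∀ l ≥ l4, 10 ^ 9 ≤ LL l := fun l h => by unfold LL; omega
  have LR : ∀ l ≥ l4, (10 : ℝ) ^ 9 ≤ LL l := fun l h => by exact_mod_cast LN l h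
  have η1 : ∀ l ≥ l4, ∀ k, 1000 * ((LL l : ℝ) ^ (k + 1))⁻¹ ≤ ((LL l : ℝ) ^ k)⁻¹ ∧
      0 < ((LL l : ℝ) ^ k)⁻¹ ∧ ((LL l : ℝ) ^ k)⁻¹ ≤ 1 := fun l h k => by
    have := LR l h
    refine ⟨?_, by positivity, inv_le_one_of_one_le₀ (one_le_pow₀ (by linarith))⟩
    rw [pow_succ, mul_inv, mul_left_comm]
    exact mul_le_of_le_one_right (by positivity) ((div_le_one (by linarith)).2 (by linarith))
  have gp : ∀ l ≥ l4, ∀ n d, Chn c Kt K0 l n ((LL l : ℝ) ^ (K' + 1))⁻¹ d → ∀ i ≤ n,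
      ∃ S : Sd, S.toTd = d i ∧ Gp l K a b ((LL l : ℝ) ^ (1000 * K)) S := fun l hl n d h i hi => by
    obtain ⟨M, j, v, e, hM, v1, v2, e0, e1, tr, ln⟩ := h.tr i hi
    obtain ⟨rfl, r1, r2, rfl⟩ := h.ex i hi
    generalize d i = t at *
    have o := sdOf_ok (t := t) (K := K) c1 le_rfl
    obtain ⟨nu, tk⟩ := H0 ⟨t, K, 1000 * K, M, (sdOf t K 0).n, t.L ^ (1000 * K), t.L ^ (1000 * K)⟩
      ⟨c1, hM, o.odd, o.vol, o.low, o.le, o.two, o.upp⟩ rfl r1 r2 rfl rfl (show l0 ≤ t.l by omega)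
    have tok : Sd.TOk ⟨t, K, 1000 * K, M, (sdOf t K 0).n, t.L ^ (1000 * K), t.L ^ (1000 * K)⟩ :=
      ⟨j, v, e, v1, v2, e0, by linarith [η1 _ hl K'], tr, ln⟩
    obtain ⟨j', cU, u1, u2⟩ := tok.inv
    have r3 := nu.lens
    have c3 : (1 : ℝ) ≤ t.c := by exact_mod_cast c1
    have c4 : (1 : ℝ) ≤ c' := by exact_mod_cast c2
    have k : ∀ y, (t.r : ℝ) / (3 * t.c * c') ≤ y →
        t.L ^ t.c * exp (-y) * (LL t.l : ℝ) ^ (60 * a + 120 * S0 t.l) ≤ 1 := fun y hy => by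
      rw [mul_right_comm, Td.L, ← pow_add, exp_neg, ← div_eq_mul_inv, div_le_one (exp_pos _),
        ← add_assoc]
      exact (H3 _ (by omega)).trans (exp_le_exp.2 (le_of_eq_of_le (by rw [Td.r]; push_cast; rfl) hy))
    refine ⟨_, rfl, nu, tok, tk tok, rfl, rfl, hb, rfl, rfl, fun j hj => fj_low hj (k _ ?_), _,
      (exp_pos _).le, fun j hj => fj_low hj (le_trans (mul_le_mul_of_nonneg_right
        (le_mul_of_one_le_left (exp_pos _).le (one_le_pow₀ (Sd.L1 t))) (by positivity)) (k _ ?_)),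
      hd _ _ _ _ _ _ _ (show c' ≤ t.l by omega) (show 3 * t.r ≤ t.l by simp only at r3; omega)
        (show t.r / 2 + 6 ≤ t.l by simp only at r3; omega) le_rfl u1 u2⟩
    · exact div_le_div_of_nonneg_left (by positivity) (by linarith) (by nlinarith)
    · have : (t.r : ℝ) ≤ 3 * (t.r / 2 : ℕ) := by
        exact_mod_cast (show t.r ≤ 3 * (t.r / 2) by simp only at r3; omega)
      rw [div_le_div_iff₀ (by positivity) (by positivity)]
      nlinarith [mul_le_mul_of_nonneg_right this (show (0 : ℝ) ≤ c' by linarith),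
        mul_nonneg (sub_nonneg.2 c3) (show (0 : ℝ) ≤ (t.r / 2 : ℕ) * c' by positivity)]
  have key : ∀ l ≥ l4, ∀ v : ℝ, 2⁻¹ ≤ v → v ≤ 2 → (∀ j ≤ 2 * S0 l, ∀ k : ℤ, k = 1 ∨ k = 0 →
      ∃ C ρ, 0 < ρ ∧ Tay (SS (Tn l a b j) wc (ab (th l a b k j)))
        (Hs (Tn l a b j) wc (th l a b k j)) C ρ) ∧ ∀ x : V, (∀ μ ν, dd x 0 μ ν = kF 1 μ ν) →
      ∃ d, Chn c Kt K0 l (S0 l) ((LL l : ℝ) ^ K')⁻¹ d ∧ (d 0).m = v • m0 ∧
        ‖qc (d (S0 l)).ol x x + bnat l a b‖ ≤ 11 * ((LL l : ℝ) ^ (Ka + 3))⁻¹ := by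
    intro l hl v v1 v2
    obtain ⟨d, h, m1, T1, nx, cd⟩ := H1 l (by omega) v v1 v2
    have : Nonempty Sd := ⟨sdOf (d 0) 0 0⟩
    choose! S eS gS using gp l hl _ d h
    have G := gj_of (B := 1000 * K) (LN l hl) (Nat.ceil_le.1 (by unfold LL; omega)) (by omega) ha
    obtain ⟨-, E0, E1⟩ := η1 l hl (Ka + 3)
    have L1 : (1 : ℝ) ≤ LL l := by linarith [LR l hl]
    have σE : ((LL l : ℝ) ^ (9 * K + 6 * a + (Ka + 3)))⁻¹ ≤ ((LL l : ℝ) ^ (Ka + 3))⁻¹ :=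
      inv_anti₀ (by positivity) (pow_le_pow_right₀ L1 (by omega))
    have td : ∀ i ≤ 2 * S0 l, TD ((LL l : ℝ) ^ K) (tf (d i).m (d i).T) := fun i hi => by
      rw [← eS i hi, ← (gS i hi).Q]
      exact td_of (gS i hi).nu (gS i hi).tok
    have W := fun j (k : ℤ) (hk : k = 1 ∨ k = 0) => by
      have t0 := td 0 (Nat.zero_le _)
      rw [m1, T1] at t0
      exact wil_eq (by linarith) t0 (bg_th l a b k j) (g1 := (G j).choose)
        (by rcases hk with rfl | rfl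
            exacts [(G j).choose_spec.choose_spec.2.2.2.1, (G j).choose_spec.choose_spec.2.2.2.2])
        (G j).choose_spec.choose_spec.1 (φ := fj l a j)
        (by rcases hk with rfl | rfl <;> simp [abs_of_pos, fj_pos, le_of_lt]) (fj_pos l a j)
        (le_trans (by
          have := fj_pos l a j
          have := (G j).choose_spec.choose_spec.1
          have : ((LL l : ℝ) ^ K) ^ 20 ≤ (LL l : ℝ) ^ (1000 * K) :=
            pow_mul (LL l : ℝ) K 20 ▸ pow_le_pow_right₀ L1 (by omega)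
          gcongr) ((G j).choose_spec.choose_spec.2.1.trans E1))
    refine ⟨fun j _ k hk => (W j k hk).1, fun x hx => ?_⟩
    have η2 : ((LL l : ℝ) ^ (K' + 1))⁻¹ ≤ ((LL l : ℝ) ^ K')⁻¹ := by
      linarith [(η1 l hl K').1, (η1 l hl (K' + 1)).2.1]
    obtain ⟨d0, e0, h0⟩ := chn_sh h (i := 0) (m := S0 l) (by omega) η2
    have cl := fun s (hs : s ≤ S0 l) => by
      have p := chn_sh h (i := s) (m := S0 l) (by omega) η2
      have := H2 l (by omega) _ d0 p.choose_spec.2 h0 (by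
        rw [p.choose_spec.1, e0, m1]; exact Cd.mono (cd s (by omega)) η2)
      simp only [p.choose_spec.1, e0, add_zero, zero_add] at this
      exact this
    have s1 : 1 ≤ S0 l := Nat.one_le_pow _ _ (Nat.log_pos (by norm_num) (by linarith [LN l hl]))
    have ω0 := om_pos l a b
    obtain ⟨X, hX⟩ : ∃ X : ℕ → ℕ → ℝ, ∀ i j, X i j = XX l a b (tf (d i).m (d i).T) j :=
      ⟨_, fun _ _ => rfl⟩
    obtain ⟨q, hq⟩ : ∃ q : ℕ → ℝ, ∀ i, q i = om l a b * (qc (d i).ol x x).re := ⟨_, fun _ => rfl⟩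
    have g1 := gS (S0 l) (by omega)
    have g2 := gS (2 * S0 l) le_rfl
    have := tele2 (X := X) (q := q) (ε := om l a b * ((LL l : ℝ) ^ (Ka + 3))⁻¹) s1
      (fun i j hi => by
        have g := gS i (by omega)
        have := g.step (by rw [g.Q, eS i (by omega), ← (nx i (by omega)).1, ← (nx i (by omega)).2]
                           exact td _ (by omega)) (by omega) (by omega) (G j) E1 hx
        rwa [eS i (by omega), ← (nx i (by omega)).1, ← (nx i (by omega)).2, ← hX, ← hX, ← hq] at this)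
      (by
        obtain ⟨p1, p2, -⟩ := cl (S0 l) le_rfl
        have r : (d (S0 l)).r = (d (2 * S0 l)).r := by
          rw [Td.r, Td.r, (h.ex _ le_rfl).2.2.2, (h.ex _ (by omega)).2.2.2]
        have k : ∀ i ≤ 2 * S0 l, (S i).K0 = K0 := fun i hi => by rw [eS i hi, (h.ex i hi).2.2.1]
        rw [← two_mul, r, ← eS _ le_rfl, ← eS (S0 l) (by omega)] at p1 p2
        have := xx_near (a := a) (b := b) (K1 := K1) g2.nu g2.tok g1.nu g1.tok (g1.el.trans g2.el.symm)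
          (g1.eK.trans g2.eK.symm) ((k _ (by omega)).trans (k _ le_rfl).symm)
          (by rw [g2.el, g2.eβ]; exact G 0) E0 E1 (by rw [k _ le_rfl, g2.eK]; omega) (by
            rw [g2.Q, g2.el, fj]
            calc _ = (1 / ((LL l : ℝ) ^ (a + 0)) ^ 2) ^ 3 * ((LL l : ℝ) ^ (Ka + 3))⁻¹ := by
                  field_simp; ring
              _ ≤ _ := by have := hh_pos; gcongr; nlinarith [pi_gt_three, GD.hh1]) p1 (by rwa [g2.el])
        rwa [g2.el, eS _ le_rfl, eS _ (by omega), ← hX, ← hX] at this)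
      (fun k hk => by
        rw [hq, hq, ← mul_sub, abs_mul, abs_of_pos ω0, ← Complex.sub_re]
        exact mul_le_mul_of_nonneg_left ((Complex.abs_re_le_norm _).trans
          (((cl k hk).2.2 x hx).trans σE)) ω0.le)
    have w : ∀ j, X 0 j = XX l a b wc j := fun j => by
      rw [hX, m1, T1, XX, XX, (W j 1 (.inl rfl)).2, (W j 0 (.inr rfl)).2]; ring
    have im := qc_ol_im g1.nu g1.tk x
    rw [eS _ (by omega)] at im
    refine ⟨d0, h0, by rw [e0, m1], ?_⟩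
    have s2 : (0 : ℝ) < S0 l := by exact_mod_cast s1
    rw [e0, zero_add, ← Complex.re_add_im (qc _ x x), im, Complex.ofReal_zero, zero_mul, add_zero,
      ← Complex.ofReal_add, Complex.norm_real, norm_eq_abs]
    refine le_of_mul_le_mul_left ?_ (mul_pos s2 ω0)
    rw [← abs_of_pos (mul_pos s2 ω0), ← abs_mul, abs_of_pos (mul_pos s2 ω0), ← abs_neg]
    rw [w, w, hq] at this
    refine le_of_eq_of_le (congrArg _ ?_) (this.trans_eq (by ring))
    unfold bnat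
    field_simp
    ring
  refine ⟨K' + 1, l4, fun l => bnat l a b, bnat_lim (by omega) (by omega)
    (eventually_atTop.2 ⟨l4, fun l hl => (key l hl 1 (by norm_num) one_le_two).1⟩),
    fun l hl n hn d h x hx => ?_⟩
  have η3 := η1 l hl
  obtain ⟨d', e', h'⟩ := chn_sh h (i := n - S0 l) (m := S0 l) (by omega)
    (show _ ≤ ((LL l : ℝ) ^ K')⁻¹ by linarith [(η3 K').1, (η3 (K' + 1)).2.1])
  obtain ⟨M, j, v, e, -, v1, v2, e0, e1, ⟨⟨ρ, -, -, ch⟩, -, -⟩, -⟩ := h.tr (n - S0 l) (by omega)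
  obtain ⟨d0, h0, m1, hq⟩ := (key l hl v v1 v2).2 x hx
  have := (H2 l (by omega) d' d0 h' h0 (by
    rw [e', m1]; exact Cd.mono ch.cc (by nlinarith [(η3 K').1]))).2.2 x hx
  rw [e', Nat.sub_add_cancel hn] at this
  refine le_trans (le_of_eq (congrArg _ (by ring))) ((norm_add_le (qc (d n).ol x x -
    qc (d0 (S0 l)).ol x x) (qc (d0 (S0 l)).ol x x + bnat l a b)).trans ?_)
  have L1 : (1 : ℝ) ≤ LL l := by linarith [LR l hl]
  have k : ∀ i ≥ Ka + 1, ((LL l : ℝ) ^ i)⁻¹ ≤ ((LL l : ℝ) ^ (Ka + 1))⁻¹ := fun i hi =>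
    inv_anti₀ (by positivity) (pow_le_pow_right₀ L1 hi)
  linarith [k _ (show 9 * K + 6 * a + (Ka + 3) ≥ _ by omega), k (Ka + 3) (by omega),
    (η3 Ka).1, (η3 (Ka + 1)).2.1]

theorem af_all {c : ℕ} (h : TL c) : AF c := af_of (af_main c h.1 h.2)

end Pool.Agent.Lib.MP_7f377f_mp.RG.Q4.Af
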