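import Pool.Agent.Lib.MP_7f377f_mp.G.Q4Fs
import Pool.Agent.Lib.MP_7f377f_mp.G.Q4FldB

/-! Cancellation of the small polymers against the smoothing marks. -/

noncomputable section

set_option linter.unusedSectionVars false
variable [Pool.Agent.Lib.MP_7f377f_mp.GD]

namespace Pool.Agent.Lib.MP_7f377f_mp.RG.Q4

open Finset MeasureTheory Polynomial
open scoped Classical

attribute [local irreducible] box lbox

theorem Fq.cv1 {R : ℕ} {ε : ℝ} {U : Conf} (h : Fq (R + 1) ε U) (h2 : 1000 * (R + 1) * ε ≤ 1) :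
    Cv R (ε + 10 ^ 6 * ((R + 1) * ε) ^ 2) (Bx 0 (cC U)) := fun x hx μ ν => by
  have k0 : 0 ≤ (R + 1) * ε := mul_nonneg (by positivity) h.nonneg
  obtain ⟨a2, a1⟩ := Bx_loc h (by push_cast; linarith)
  push_cast at a2
  have h3 := hol_ap' (Ap_exF a2 (by linarith)) (by nlinarith) (by linarith) hx μ ν
  have h4 : hol star (exF (Bx 0 (cC U))) x μ ν =
      cS (hol Inv.inv (gauge Inv.inv (cmb Inv.inv U) U) x μ ν) := by
    have b1 := fun μ => a1 (x, μ) (mem_lbox.2 (box_mono R.le_succ hx))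
    have b2 := fun μ ν => a1 (x + un μ, ν) (mem_lbox.2 (add_un_mem_box hx μ))
    rw [← hol_cC, hol, hol, b1, b1, b2, b2]
  rw [h4] at h3
  have h5 := (norm_co_cq _).trans
    ((Mx.fq_gauge (cmb Inv.inv U) U x μ ν).trans_le (h x (box_mono R.le_succ hx) μ ν))
  have h6 := (norm_co _).trans h3
  rw [cq_sub, cq_one] at h5
  rw [co_sub, co_io] at h6
  have h7 := norm_sub_le (co (cS (hol Inv.inv (gauge Inv.inv (cmb Inv.inv U) U) x μ ν) - 1))
    (co (cS (hol Inv.inv (gauge Inv.inv (cmb Inv.inv U) U) x μ ν) - 1) - dd (Bx 0 (cC U)) x μ ν)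
  rw [sub_sub_cancel] at h7
  refine h7.trans ((add_le_add h5 h6).trans ?_)
  nlinarith [sq_nonneg ((R + 1) * ε)]

theorem polK_dep {l d : ℕ} {Λ : ℝ} {p : ℂ[X]} {H : Set St} {ka : St → Kf} {A A' : Fld} {f : Lk}
    (hp : p.natDegree ≤ d)
    (h : ∀ e, ¬ tree l e → ∀ y ∈ box (2 * d), yo l e.1 = y + yo l f.1 → A e = A' e) :
    polK l Λ p H ka A f = polK l Λ p H ka A' f := by
  rw [← polK_pj, ← polK_pj (A := A')]
  refine at_block (l := l) (A := fun e => polK l Λ p H ka (pj l H A) e = polK l Λ p H ka (pj l H A') e)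
    (φ := id) fun e he => ?_
  have := polK_agr (Λ := Λ) (r := 0) (H := shS (yo l f.1) H) (ka := shK (yo l f.1) ka) hp
    (fun _ _ => Iff.rfl) (fun _ _ _ => Kc.refl _ le_rfl) (A := sh (up l (yo l f.1)) (pj l H A))
    (A' := sh (up l (yo l f.1)) (pj l H A')) (fun e he => by
      simp only [sh_apply, pj]
      split_ifs with h1
      exacts [h _ h1.1 _ (zero_add (2 * d) ▸ Op.mem_fb.1 (mem_lbox.1 he)) (yo_add_up _ _ _), rfl])
    e (mem_fb_zero he)
  rwa [polK_sh, polK_sh] at this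

theorem trS_trS {n : ℕ} (hn : Odd n) {X : Finset St} (hX : X ⊆ box (n / 2)) (v : St) :
    trS n v (trS n (-v) X) = X := by
  rw [trS, trS, image_image]
  exact (image_congr fun x hx => by
    simp only [Function.comp, rc_add_rc, neg_add_cancel_right, rc_eq hn (hX hx), id]).trans image_id

theorem dn_trS (l n : ℕ) (v : St) (X : Finset St) :
    dn l n (trS (LL l * n) (up l v) X) = trS n v (dn l n X) := by
  simp only [dn, trS, image_image, Function.comp_def, rc_yo, yo_add_up, rc_add_rc]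

theorem card_trS {n : ℕ} {X : Finset St} (hX : ∀ x ∈ X, rc n x = x) (v : St) :
    (trS n v X).card = X.card :=
  card_image_of_injOn fun x hx y hy e => by
    rw [← hX x hx, ← hX y hy, ← nearT_zero, ← nearT_add_right v, nearT_zero]
    exact e

theorem pc_per {α : Type} {n : ℕ} {U : Lk → α} (h : Per n U) : pc n U = U :=
  funext fun e => Mx.per_iff.1 h _ _ _ (Mx.cg_rc n e.1)

namespace Sd

variable {S : Sd} {X : Finset St} {ψ : Lx} {K : Ac} {κ P : ℝ} {W : Conf} {O : Finset Ob}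
  {z : Lk → E3} {f : Lk} {y : St}

/-- the fine field as a function of the truncated fluctuation variable -/
def Ur (S : Sd) (W : Conf) (z : Lk → E3) : Conf := fun f =>
  Ms.e0 (reE (S.t.As (cC W) + (S.gt : ℂ) • S.pol (pP S.N) W (zc S.ζ z)) f) * Ub S.l S.s W f

theorem Ur_sh (y : St) : S.Ur (sh y W) (sh (up S.l y) z) = sh (up S.l y) (S.Ur W z) := by
  funext f
  rw [Ur, show zc S.ζ (sh (up S.l y) z) = sh (up S.l y) (zc S.ζ z) from rfl, pol_sh, ← sh_cC,
    Td.As_sh, Ub_sh]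
  simp only [Ur, reE, sh_apply, Pi.add_apply, Pi.smul_apply]

theorem Ur_per (hW : Per S.n W) (hz : Per S.nf z) : Per S.nf (S.Ur W z) := fun μ => by
  have := hz μ
  rw [nf, ← up_per] at this ⊢
  rw [← Ur_sh, hW μ, this]

/-- families without holes -/
theorem wO_free (h1 : CC O = ∅) (h2 : Wk O = ∅) (h3 : Dbl O = ∅) :
    S.wO ψ K W O = (S.p0 ^ (us S.sp O).card : ℝ)⁻¹ * ∫ v, ((∏ y ∈ us S.sp O, gd S.l S.ζ (v y) : ℝ) : ℂ) *
      ((if (olds O : Set (LP St)).PairwiseDisjoint (fun o => o.1) then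
        ∏ o ∈ olds O, K o.1 o.2 (S.Uv W (pcs S.n v)) else 0) *
      ∏ m ∈ O.toRight, S.jm ψ K W (pcs S.n v) ∅ m) ∂PB S.l (nu S.zm) := by
  have e1 : S.Oh O = ∅ := by simp [Oh, h1, h2, h3, Hh, tb]
  have e2 : S.lab W O = ∅ := by simp [lab, ncs, zones, h1, h2, comps, Conn, filter_singleton]
  simp only [wO, wf, h2, e2, prod_empty, biUnion_empty, empty_sdiff, one_mul, FO, e1, df, h3,
    notMem_empty, if_false, mul_one]
  rw [← integral_const_mul]
  refine congrArg _ (funext fun v => ?_)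
  have : ∀ y ∈ us S.sp O, pcs S.n v y = v y := fun y hy => by
    obtain ⟨o, -, ho⟩ := mem_biUnion.1 hy
    rw [pcs, (mem_tb.1 ho).1]
  rw [prod_congr (s₁ := us S.sp O) rfl fun y hy => by rw [this y hy], ← Complex.ofReal_prod,
    prod_div_distrib, prod_const]
  push_cast
  ring

variable (h : S.Fo P)
include h

theorem Ur_tree (hf : tree S.l f) : S.Ur W z f = 1 := by
  refine cS_inj ?_
  rw [Ur, cS_mul, Ms.cS_e0, show cS (Ub S.l S.s W f) = _ from congrFun (cC_Ub _ _ _) f,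
    En.Us_tree h.lin _ hf, cS_one, cE_reE] <;>
  simp [S.t.As_tree _ hf, pol_not fun h' => h'.1 hf]

theorem Ur_meas : Measurable (S.Ur W) := measurable_pi_lambda _ fun _ =>
  (Ms.meas_e0.comp (meas_reE (measurable_const.add ((pol_meas h.ok
    measurable_const (meas_zc _ measurable_id)).fun_const_smul _))).eval).mul_const _

theorem p0_pos : 0 < S.p0 := Cov.cgd_pos _ S.Q0 (zn_pos (S.Q0.trans_le h.nu.ok.ζ_zm))

theorem wO_oS : S.wO ψ K W {oS y X} = Complex.exp (-S.Fs (S.Ky K y) X (Bx y (cC W))) - 1 := by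
  have z0 := S.Q0.trans_le h.nu.ok.ζ_zm
  have := Smo.nu_prob z0
  rw [wO_free rfl rfl rfl]
  have e1 : olds {oS y X} = ∅ := rfl
  have e2 : ({oS y X} : Finset Ob).toRight = {.inr (.inr (.inl (y, X)))} := by ext; simp [oS]
  simp only [e1, e2, coe_empty, Set.pairwiseDisjoint_empty, if_true, prod_empty, prod_singleton, jm,
    notMem_empty, if_false, one_mul]
  rw [integral_mul_const, int_gd _ (ζ := S.ζ) S.Q0 (Cov.gs_nu z0 h.nu.ok.ζ_zm), ← mul_assoc,
    ← Complex.ofReal_mul, ← p0, inv_mul_cancel₀ (pow_pos (p0_pos h) _).ne']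
  simp

omit h in
theorem near_sp {x u : St} {R : ℕ} (hx : x ∈ dn S.l S.n X) (hu : u ∈ box R) (hR : R ≤ 13 * S.D0) :
    rc S.n (u + x) ∈ us S.sp {oX X} := by
  rw [us, singleton_biUnion]
  obtain ⟨x, h1, rfl⟩ := mem_image.1 hx
  exact Cov.rc_mem_tb ((rc_rc _ _).symm ▸ hx) (box_mono hR hu)

omit h in
theorem In.not_H (hW : Per S.n W) (i : S.In W {oX X}) {x u : St} (hx : rc S.n x ∈ dn S.l S.n X)
    (hu : u ∈ box (2 * S.D0)) : u + x ∉ S.H W := by
  have d := D1 S.toTd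
  have := i (rc S.n (u + x)) (mem_filter.2 ⟨by
    simpa only [add_comm u, rc_add_rc] using near_sp hx hu (by omega), fun w hw => by
      obtain ⟨w, h1, rfl⟩ := mem_image.1 hw
      obtain ⟨_, h2, b, hb, rfl⟩ := mem_add.1 h1
      rw [mem_singleton.1 h2, rc_add_rc]
      have := near_sp hx (add_mem_box hu hb) (by rw [R_eq]; omega)
      rwa [add_comm, rc_add_rc, add_comm, add_right_comm] at this⟩)
  obtain ⟨v, hv⟩ := rc_exists S.n (u + x)
  rwa [hv, SX.per_sh hW, ← not_mem_H] at this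

theorem wO_oX (hW : Per S.n W) (i : S.In W {oX X}) (k : K1 S.nf X κ (K X ∅)) :
    S.wO ψ K W {oX X} = ∫ z, K X ∅ (S.Ur W (pc S.nf z)) ∂nuI S.ζ := by
  have z0 := S.Q0.trans_le h.nu.ok.ζ_zm
  have := Smo.nu_prob z0
  have l := h.nu.lens
  rw [wO_free rfl rfl rfl]
  have e1 : olds {oX X} = {⟨X, ∅⟩} := by ext; simp [olds, oX]
  have e2 : ({oX X} : Finset Ob).toRight = ∅ := rfl
  have loc : ∀ U U', (∀ f : Lk, f.1 ∈ X → U f = U' f) → K X ∅ U = K X ∅ U' := fun U U' e => by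
    rw [← k.per, ← k.per U']
    exact k.dep fun b hb => e _ hb.1
  have nr : ∀ {f : Lk} {y : St}, f.1 ∈ X → y ∈ box (2 * S.N) →
      rc S.n (y + yo S.l f.1) ∈ us S.sp {oX X} := fun hf hy => by
    simpa only [add_comm _ (rc _ _), rc_add_rc, add_comm (yo _ _)] using
      near_sp (mem_image_of_mem _ hf) hy (by omega)
  simp only [e1, e2, coe_singleton, Set.pairwiseDisjoint_singleton, if_true, prod_empty,
    prod_singleton, mul_one]
  rw [integral_congr_ae (g := fun v => ((∏ y ∈ us S.sp {oX X}, gd S.l S.ζ (v y) : ℝ) : ℂ) *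
    K X ∅ (S.Ur W (vz S.l (pcs S.n v)))) (.of_forall fun v => ?_),
    calm_int h.nu.ok.odd (ζ := S.ζ) S.Q0 (Cov.gs_nu z0 h.nu.ok.ζ_zm) (Φ := fun z => K X ∅ (S.Ur W z))
      (k.meas.comp (Ur_meas h)) fun z z' e => loc _ _ fun f hf => ?_, ← mul_assoc,
    ← Complex.ofReal_mul, ← p0, inv_mul_cancel₀ (pow_pos (p0_pos h) _).ne', Complex.ofReal_one,
    one_mul, nf]
  · simp only [Ur, reE, Pi.add_apply, Pi.smul_apply, pol]
    rw [polK_dep (A := zc S.ζ z) (A' := zc S.ζ z') (Op.natDegree_pP _) fun b hb y hy e1 => by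
      rw [zc, zc, e b ⟨hb, e1 ▸ nr hf hy⟩]]
  · by_cases h0 : ∏ y ∈ us S.sp {oX X}, gd S.l S.ζ (v y) = 0
    · simp only [h0, Complex.ofReal_zero, zero_mul]
    refine congrArg _ (loc _ _ fun f hf => ?_)
    by_cases ht : tree S.l f
    · rw [Uv_tree ht, Ur_tree h ht]
    have g : ∀ y ∈ box (2 * S.N), ∀ b : Lk, yo S.l b.1 = y + yo S.l f.1 → ¬ tree S.l b →
        ‖vz S.l (pcs S.n v) b‖ ≤ S.ζ ∧ vs S.l (pcs S.n v) b = 0 := fun y hy =>
      ((Cov.gd_iff (v := pcs S.n v) (y := y + yo S.l f.1)).1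
        (prod_ne_zero_iff.1 h0 _ (nr hf hy))).1
    rw [Uv_act ⟨ht, fun u hu => add_comm u _ ▸ i.not_H hW (mem_image_of_mem _ hf)
      (box_mono (by omega) hu)⟩, (g 0 (zero_mem_box _) f (zero_add _).symm ht).2, q8_zero, mul_one]
    simp only [Ur, Af, vH, reE, Pi.add_apply, Pi.smul_apply, pol]
    rw [polK_dep (A := cF (vz S.l (pcs S.n v))) (A' := zc S.ζ (vz S.l (pcs S.n v)))
      (Op.natDegree_pP _) fun b hb y hy e1 => (if_pos (g y hy b e1 hb).1).symm]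

theorem Fo.PQ : P ≤ S.Q := h.le.trans (h.nu.LQ (by have := h.nu.exps; omega))

theorem tail_le (hX : X ∈ S.X1s) :
    48 * ((S.La X).card + 1) * (cG * Real.exp (-(S.ζ ^ 2 / 4))) ≤ S.g ^ 30 := by
  refine le_trans ?_ (h.nu.exp_g h.nu.r_le_ζ (i := 1) (by norm_num) (by norm_num))
  have := h.nu.mong (C := 48 * 325) (k := 1) (i := 4) (j := 4) (by norm_num) (by norm_num)
    (by have := h.nu.exps; omega) (by norm_num)
  rw [← mul_assoc]
  gcongr
  linarith [mul_le_mul_of_nonneg_right (La_card h.nu hX) GD.cG_pos.le]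

theorem Fs_close (hX : X ∈ S.X1s) (k : K1 S.nf X κ (K X ∅))
    (hW : ∀ y ∈ box (2 * S.D0), y ∉ S.H W) :
    ‖(dn S.l S.n X).card * S.Fs K X (Bx 0 (cC W)) - ∫ z, K X ∅ (S.Ur W (pc S.nf z)) ∂nuI S.ζ‖ ≤
      S.g ^ 30 * κ := by
  obtain ⟨h1, -, h3, h4⟩ := dF_le h.nu
  have l := h.nu.lens
  have t := tail_le h hX
  have k0 := (norm_nonneg _).trans (k.bd 1)
  have x0 := mul_pos GD.cG_pos (Real.exp_pos (-(S.ζ ^ 2 / 4)))
  have q := sh_zero W ▸ not_mem_H.1 (hW 0 (zero_mem_box _))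
  have g0 := h.nu.ok.g'0
  have q0 := S.Q0
  have d1 : (1 : ℝ) ≤ S.D0 := by exact_mod_cast D1 _
  have a1 := h.nu.mon (C := 5000) (i := 0) (j := 1) (by norm_num) (by omega) (by norm_num)
  have a2 : 1000 * ((S.p'.R : ℝ) + 1) * S.p'.ε ≤ S.Q ^ 3 * S.g' := by
    rw [p'_R, p'_ε, pow_succ' _ 2, mul_assoc S.Q]
    gcongr
    push_cast
    linarith
  have a3 := h.nu.ok.Qg'_le (i := 3) (j := 1) (by norm_num)
  have a4 := h.nu.cQ' (C := 2) (by norm_num)
  have a5 : 0 < S.Q ^ 2 * S.g' := by positivity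
  have a6 : 2 * (S.Q ^ 2 * S.g') ≤ S.Q ^ 3 * S.g' := by
    rw [pow_succ' _ 2, mul_assoc S.Q]
    gcongr
  rw [Fs, mul_div_cancel₀ _ (by exact_mod_cast (zero_lt_one.trans_le (X1_card hX)).ne'),
    ctr_of (Bx_real 0 W) ((q.cv1 (by nlinarith)).mono le_rfl ?_)]
  · refine (Nt.sm_close (ζ := S.ζ) h.ok (dF_sz h.nu h.ok.P1 h.PQ) h.gr h1 (by linarith) h.nu.ok.gt0 S.Q1 h4
      k.meas k.bd (La_sub h.nu hX) (R := 4 * S.D0) (show S.D0 + 2 * S.N + 1 + _ ≤ _ by omega)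
      (by linarith [pow_le_one₀ (n := 30) h.nu.ok.g0.le h.nu.ok.g1, mul_pos (by positivity :
        (0 : ℝ) < 24 * ((S.La X).card + 1)) x0]) (q.mono (Nat.le_succ _) le_rfl) ?_
      (fun y hy => hW y (box_mono (show S.D0 + 2 * S.N + 3 ≤ _ by omega) hy)) (fun _ _ => rfl)
      (fun z => agr_zc _ (Cov.pc_agr h.nu.ok.odd_nf (nf_half h.nu.ok.odd ▸ Op.fb_mono _
        (show S.D0 + 2 * S.N ≤ _ by omega)) z)) (fun _ _ _ => rfl)
      (k.gauge h.nu.ok.odd_nf (X1_sub h.nu hX) (X1_big h.nu))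
      (k.loc h.nu.ok.odd_nf (X1_sub h.nu hX) (X1_big h.nu)) fun f hf => ?_).trans ?_
    · rw [p'_ε, dF]
      push_cast
      nlinarith
    · by_cases ht : tree S.l f
      exacts [.inr ⟨ht, fun _ => Ur_tree h ht⟩,
        .inl (mem_filter.2 ⟨mem_product.2 ⟨hf.1, mem_univ _⟩, hf.2, ht⟩)]
    · exact mul_le_mul_of_nonneg_right (by linarith) k0
  · have a7 := pow_le_pow_left₀ (by rw [p'_ε]; positivity) a2 2
    rw [p'_ρ]
    rw [p'_ε] at *
    nlinarith

/-- the small polymers cancel against the smoothing marks -/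
theorem c3 (hW : Per S.n W) (hX : X ⊆ box (S.nf / 2)) (h0 : X.Nonempty)
    (ht : tau S.nf S.p.D X = 1) (i : S.In W {oX X}) (k : K1 S.nf X κ (K X ∅)) (h1 : 2 * κ ≤ 1) :
    ‖S.wO ψ K W {oX X} + ∑ y ∈ dn S.l S.n X, S.wO ψ K W {oS y (trS S.nf (-up S.l y) X)}‖ ≤
      (4 * κ + S.g ^ 30) * κ := by
  have o := h.nu.ok.odd_nf
  have k0 := (norm_nonneg _).trans (k.bd 1)
  have n1 : (1 : ℝ) ≤ (dn S.l S.n X).card := by exact_mod_cast card_pos.2 (h0.image _)
  have n0 : ((dn S.l S.n X).card : ℂ) ≠ 0 := by exact_mod_cast (zero_lt_one.trans_le n1).ne'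
  rw [← mul_div_cancel₀ (S.wO ψ K W {oX X}) n0, ← nsmul_eq_mul, ← sum_const, ← sum_add_distrib]
  refine (norm_sum_le _ _).trans ((sum_le_card_nsmul _ _ ((4 * κ + S.g ^ 30) * κ / (dn S.l S.n X).card)
    fun y hy => ?_).trans_eq (by rw [nsmul_eq_mul, mul_div_cancel₀ _ (by linarith)]))
  have ry : ∀ y ∈ dn S.l S.n X, rc S.n y = y := fun y hy => by
    obtain ⟨x, -, rfl⟩ := mem_image.1 hy
    exact rc_rc _ _
  have e1 : dn S.l S.n (trS S.nf (-up S.l y) X) = trS S.n (-y) (dn S.l S.n X) :=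
    up_neg S.l y ▸ dn_trS _ _ _ _
  have hd : trS S.nf (-up S.l y) X ⊆ box (S.nf / 2) := image_subset_iff.2 fun _ _ => rc_mem o _
  have x1 : trS S.nf (-up S.l y) X ∈ S.X1s := mem_filter.2 ⟨mem_powerset.2 hd,
    (tau_sh _ _).trans ht, e1 ▸ mem_image.2 ⟨y, hy, by
      rw [add_neg_cancel, rc_eq h.nu.ok.odd (zero_mem_box _)]⟩⟩
  have ky : K1 S.nf (trS S.nf (-up S.l y) X) κ (S.Ky K y (trS S.nf (-up S.l y) X) ∅) := by
    refine K1.tr o hd (F := K (trS S.nf (up S.l y) _) ∅) ?_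
    rwa [trS_trS o hX]
  have c := Fs_close h x1 ky (W := sh y W) fun u hu =>
    H_sh y W ▸ i.not_H hW ((ry y hy).symm ▸ hy) hu
  have b := Fs_bd h.nu h.ok h.gr h.PQ x1 ky (Bx y (cC W))
  have e2 : ∫ z, S.Ky K y (trS S.nf (-up S.l y) X) ∅ (S.Ur (sh y W) (pc S.nf z)) ∂nuI S.ζ =
      S.wO ψ K W {oX X} := by
    rw [wO_oX h hW i k, ← Cov.int_rot (ζ := S.ζ) S.Q0 S.nf (up S.l (-y)) (T := fun _ => .refl _ _) (fun _ => rfl)
      (Φ := fun z => K X ∅ (S.Ur W z)) (k.meas.comp (Ur_meas h))]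
    refine integral_congr_ae (.of_forall fun z => ?_)
    simp only [Ky, trA, trS_trS o hX, image_empty, pc_per (Ur_per (hW.sh y) (Mx.per_pc _ z))]
    rw [← up_neg, ← Ur_sh, sh_sh, neg_add_cancel, sh_zero]
    rfl
  rw [e1, card_trS ry] at b c
  rw [e2, ← sh_cC, Bx_sh, zero_add] at c
  rw [wO_oS h]
  generalize S.Fs (S.Ky K y) _ _ = F at b c
  generalize S.wO ψ K W _ = I at c
  generalize (dn S.l S.n X).card = N at *
  have b1 : 2 * κ / N ≤ 2 * κ := div_le_self (by linarith) n1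
  have := Complex.norm_exp_sub_one_sub_id_le (x := -F) (by rw [norm_neg]; linarith)
  rw [show I / N + (Complex.exp (-F) - 1) = Complex.exp (-F) - 1 - -F - (N * F - I) / N by
    field_simp; ring, add_mul, add_div]
  refine norm_sub_le_of_le (this.trans ?_) ?_
  · rw [norm_neg, sq, show 4 * κ * κ / N = 2 * κ * (2 * κ / N) by ring]
    exact mul_le_mul (b.trans b1) b (norm_nonneg _) (by linarith)
  · rw [norm_div, Complex.norm_natCast]
    gcongr

end Sd

end Pool.Agent.Lib.MP_7f377f_mp.RG.Q4
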