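import Pool.Agent.Lib.MP_7f377f_mp.G.Q4Defs
import Pool.Agent.Lib.MP_7f377f_mp.G.Q4TrE
import Pool.Agent.Lib.MP_7f377f_mp.G.Q4Geo
import Pool.Agent.Lib.MP_7f377f_mp.G.Q4OpK2

/-! The factor of a calm block: algebraic identities. -/

noncomputable section

set_option linter.unusedSectionVars false
variable [Pool.Agent.Lib.MP_7f377f_mp.GD]

namespace Pool.Agent.Lib.MP_7f377f_mp.RG.Q4

open Finset

namespace Cm

variable (S : Td)

theorem box_filter : (box 3).filter (fun u => u ∈ box 2) = box 2 := by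
  ext u
  simp only [mem_filter, and_iff_right_iff_imp]
  exact fun h => box_mono (by norm_num) h

theorem tel_eq (W : Cf) (a : Fld) : S.tel W a =
    S.t.gv W (S.t.As W) a 0 - S.t.L1 W (S.t.As W) a 0 + S.t.tn W - S.t.FF W 0 (S.t.As W) := by
  have e1 : ∀ u, S.xf (sh u W) (sh (up S.l u) a) (-u) = (if u ∈ box 2 then
      S.t.xi W (S.t.As W) a (0 + u) 0 + S.t.xi W 0 (S.t.As W) (0 + u) 0 else 0) +
      (2 * (box 3).card : ℂ)⁻¹ * S.t.a0 (sh u W) := fun u => by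
    have h1 := S.t.xi_sh W (S.t.As W) a 0 (-u) u
    have h2 := S.t.xi_sh W 0 (S.t.As W) 0 (-u) u
    rw [neg_add_cancel, ← Nt.As_sh] at h1 h2
    rw [Td.xf, ← h1, ← h2]
    congr 1
    exact if_congr ⟨fun h => by simpa using neg_mem_box h, neg_mem_box⟩ rfl rfl
  have c0 : ((box 3).card : ℂ) ≠ 0 := by simp [card_box]
  simp only [Td.tel, e1]
  simp only [sum_sub_distrib, sum_add_distrib, Td.xf, ← sum_filter, box_filter,
    ← mul_sum, sum_const, nsmul_eq_mul, Nt.tn, Nt.gv, Nt.L1, zero_add]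
  have e2 := Nt.a0.eq_1 S.t W
  simp only [Nt.gv, Nt.L1, zero_add] at e2
  rw [e2]
  field_simp
  ring

variable {S}

theorem en_id {r c : ℕ} {τ P δ : ℝ} {m : BF} {s : V →ₗ[ℝ] V} (h : S.t.Ok r c τ m s P δ) (W : Cf)
    (v : Fld) (R : ℕ) (ρ : ℝ) (k : BF) :
    S.t.FF W 0 (S.t.As W + v) - qk S.l (S.kd W) v v + S.tel W v =
      cx k (Bx 0 W) (Bx 0 W) + S.t.Tn R ρ k (Bx 0 W) + S.t.rem3 W v 0 +
        (S.t.gv W (S.t.As W) v 0 + S.t.rest R ρ k W) := by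
  rw [tel_eq, Nt.rem3, Nt.Yq_zero h, Nt.rest]
  change _ - qk S.t.O.l (S.t.kd W) v v + _ = _
  ring

theorem dH_e4 {l : ℕ} {A : Lk → E3} {B : Fld} (h : ∀ t ∈ ntr l, cE (A t) = B t)
    (h2 : ∀ t ∈ ntr l, ‖A t‖ < 2) (h' : ∀ t ∈ lbox l, tree l t → B t = 0) :
    ((∏ t ∈ ntr l, dH (A t) : ℝ) : ℂ) = (cHa ^ (ntr l).card : ℝ) * Complex.exp (-e4 l B) := by
  have e : ∀ t ∈ ntr l, ((dH (A t) : ℝ) : ℂ) = (cHa : ℝ) * Complex.exp (-lj (B t)) := fun t ht => by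
    rw [← h t ht, dH, Ms.hd, if_pos (h2 t ht), Complex.ofReal_mul, Complex.ofReal_exp,
      Complex.ofReal_neg, ← lj_real]
  rw [Complex.ofReal_prod, prod_congr rfl e, prod_mul_distrib, prod_const, ← Complex.exp_sum, e4,
    sum_neg_distrib, Complex.ofReal_pow, ntr, sum_filter_of_ne]
  intro t ht h0 h1
  simp [h' t ht h1] at h0

end Cm

end Pool.Agent.Lib.MP_7f377f_mp.RG.Q4
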