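import Pool.Agent.Lib.MP_7f377f_mp.G.Q4CalmD
import Pool.Agent.Lib.MP_7f377f_mp.G.Q4TrZ
import Pool.Agent.Lib.MP_7f377f_mp.G.Q4J2

/-! The counterterms, the bounds of the marks and the factor of a calm block. -/

noncomputable section

set_option linter.unusedSectionVars false
variable [Pool.Agent.Lib.MP_7f377f_mp.GD]

namespace Pool.Agent.Lib.MP_7f377f_mp.RG.Q4

open Finset Polynomial MeasureTheory

namespace Cm

variable {S : Sd} {b x : ℝ} {B : Fld} {W : Cf} {U : Conf} {z : Lk → E3} {u : St → S3} {y : St}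
  {ψ : Lx}

/-- the part of the tree density which is not kept is small -/
def Rs (S : Sd) : Prop := ∀ U, Fq S.D0 S.p'.ε U →
  ‖S.β * S.t.rest (S.r + 5) ((S.D0 : ℝ)⁻¹) S.m1 (cC U)‖ ≤ 2 * (S.Q ^ 16 * S.g ^ 3)

theorem ev_rs (c : ℕ) : ∀ᶠ S in ev c, Rs S := by
  filter_upwards [ev_hp c, rest_bd c] with S h r U hU
  have g0 := h.g0
  have g1 := h.nu.ok.g'0
  have q0 := S.Q0
  have q1 := S.Q1
  have h1 : 3 / 2 * S.g ≤ S.Q * S.g := by gcongr; exact h.nu.cQ' (by norm_num)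
  have h3 := r U _ h.fo.size_ε.1 h.fo.size_ε.2 hU
  rw [norm_mul, Complex.norm_real, Real.norm_of_nonneg h.nu.ok.β0.le]
  calc _ ≤ S.β * (S.Q * (S.Q ^ 2 * (S.Q * S.g)) ^ 5) := by
        refine mul_le_mul_of_nonneg_left (h3.trans ?_) h.nu.ok.β0.le
        rw [Sd.p'_ε]
        gcongr
        exact h.nu.ok.g'g.trans h1
    _ = S.Q ^ 16 * S.g ^ 3 * (S.β * S.g ^ 2) := by ring
    _ ≤ _ := by rw [h.nu.ok.βg]; linarith [mul_pos (pow_pos q0 16) (pow_pos g0 3)]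

theorem exp_le {w : ℂ} (h : ‖w‖ ≤ x) (h1 : x ≤ 1) : ‖Complex.exp w - 1‖ ≤ 2 * x :=
  (Complex.norm_exp_sub_one_le (h.trans h1)).trans (by linarith)

theorem int_le {f : (Lk → E3) → ℂ} (h : ∀ z, ‖f z‖ ≤ x) : ‖∫ z, f z ∂nuI S.ζ‖ ≤ x := by
  have := nuI_prob (ζ := S.ζ) S.Q0
  simpa using norm_integral_le_of_norm_le_const (μ := nuI S.ζ) (ae_of_all _ h)

theorem int_of {f : (Lk → E3) → ℂ} (m : Measurable f) (h : ∀ z, ‖f z‖ ≤ x) :
    Integrable f (nuI S.ζ) :=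
  have := nuI_prob (ζ := S.ζ) S.Q0
  .of_bound m.aestronglyMeasurable x (ae_of_all _ h)

theorem int_sub_one {f : (Lk → E3) → ℂ} (m : Measurable f) (h : ∀ z, ‖f z - 1‖ ≤ x) :
    ∫ z, (f z - 1) ∂nuI S.ζ = ∫ z, f z ∂nuI S.ζ - 1 := by
  have := nuI_prob (ζ := S.ζ) S.Q0
  rw [integral_sub (int_of (x := x + 1) m fun z => by
    simpa using norm_add_le_of_le (h z) (norm_one (α := ℂ)).le) (integrable_const _)]
  simp

theorem e4_meas {Z : Type} [MeasurableSpace Z] {A : Z → Fld} (h : Measurable A) (l : ℕ) :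
    Measurable fun x => e4 l (A x) :=
  Finset.measurable_sum _ fun _ _ => meas_lj.comp h.eval

namespace Hp

variable (h : Hp S)
include h

section meas

variable {Z : Type} [MeasurableSpace Z] {W : Z → Cf} {z : Z → Lk → E3}
  (hW : ∀ e, MQ fun x => W x e) (hz : Measurable z)
include hW hz

theorem s1_meas : Measurable fun x => S.s1 (W x) (z x) :=
  ((Nt.rem3_meas h.ok hW (Sd.v0_meas h.ok hW hz) 0).const_mul _).add
    (e4_meas ((Nt.As_meas h.ok hW).add (Sd.v0_meas h.ok hW hz)) _)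

end meas

theorem s1_m (W : Cf) : Measurable (S.s1 W) := h.s1_meas (fun _ => mq_const _) measurable_id

theorem σ1 : 1000 * (S.Q ^ 7 * S.g) ≤ 1 := h.Qg1 (by norm_num)

theorem σ0 : 0 < S.Q ^ 7 * S.g := mul_pos (pow_pos S.Q0 _) h.g0

theorem ga_one : Ga S 1 (fun _ => 1) 0 :=
  ⟨fun _ => by simpa using (mul_pos (pow_pos S.Q0 _) h.g0).le, fun e _ => by
    simp [gauge, cS_one]⟩

theorem int_one : ‖∫ z, Complex.exp (-S.s1 1 z) ∂nuI S.ζ - 1‖ ≤ 6 * (S.Q ^ 7 * S.g) := by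
  have b : ∀ z, ‖Complex.exp (-S.s1 1 z) - 1‖ ≤ 6 * (S.Q ^ 7 * S.g) := fun z =>
    (exp_le ((norm_neg _).trans_le (h.s1_le h.ga_one z)) (by linarith [h.σ1])).trans_eq (by ring)
  rw [← int_sub_one (f := fun z => Complex.exp (-S.s1 1 z)) (h.s1_m 1).neg.cexp b]
  exact int_le b

theorem c1_le9 : ‖S.c1‖ ≤ 9 * (S.Q ^ 7 * S.g) := by
  have := Complex.norm_log_one_add_half_le_self (h.int_one.trans (by linarith [h.σ1]))
  rw [add_sub_cancel] at this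
  rw [Sd.c1, norm_neg]
  linarith [h.int_one]

theorem f0_le (a : Ga S W u B) (z : Lk → E3) : ‖S.f0 W z‖ ≤ 24 * (S.Q ^ 7 * S.g) :=
  (exp_le (norm_add_le_of_le ((norm_neg _).trans_le (h.s1_le a z)) h.c1_le9)
    (by linarith [h.σ1])).trans_eq (by ring)

theorem c2_le (u : St) : ‖S.c2 u‖ ≤ (24 * (S.Q ^ 7 * S.g)) ^ 2 := by
  rw [Sd.c2, norm_neg, sq]
  exact int_le fun z => (norm_mul _ _).trans_le (mul_le_mul (h.f0_le h.ga_one _)
    (h.f0_le h.ga_one _) (norm_nonneg _) (by linarith [h.σ0]))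

theorem oP_le (u : St) : ‖Complex.exp (S.c2 u / 2) - 1‖ ≤ S.Q ^ 15 * S.g ^ 2 := by
  have g0 := h.g0
  have q0 := S.Q0
  refine (exp_le (x := (24 * (S.Q ^ 7 * S.g)) ^ 2 / 2) (by
    rw [norm_div, Complex.norm_two]; gcongr; exact h.c2_le u) (by nlinarith [h.σ0, h.σ1])).trans ?_
  calc _ = 576 * (S.Q ^ 14 * S.g ^ 2) := by ring
    _ ≤ S.Q * (S.Q ^ 14 * S.g ^ 2) := by gcongr; exact h.nu.cQ' (by norm_num)
    _ = _ := by ring

theorem sT_le (r : Rs S) (hU : Fq S.D0 S.p'.ε U) (a : Ga S (cC U) u B) (z : Lk → E3) :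
    ‖S.sT (cC U) z‖ ≤ 4 * (S.Q ^ 16 * S.g ^ 3) := by
  have h1 : S.g ^ 3 ≤ S.Q ^ 16 * S.g ^ 3 :=
    le_mul_of_one_le_left (pow_pos h.g0 _).le (one_le_pow₀ S.Q1)
  rw [sT_eq, mul_add, h.gg_ga a, h.uu_ga a]
  refine (norm_sub_le_of_le (norm_add_le_of_le (h.gg_le a.bd _) (r U hU)) (r₂ := S.g ^ 3 / 2)
    (by rw [norm_div, Complex.norm_two]; gcongr; exact h.uu_le (h.big a.bd) _)).trans ?_
  linarith [pow_pos h.g0 3]

/-- the small part of the exponent of the Mayer mark -/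
theorem sm_le (r : Rs S) (hψ : PU S.p b ψ) (hU : Fq (S.p'.R + 1) S.p'.ε U) (z : Lk → E3) :
    ‖S.pz ψ (Bx 0 (cC U)) - S.sT (cC U) z - S.sP ψ (cC U) z‖ ≤
      4 * (S.Q ^ 16 * S.g ^ 3) + 2 * (S.L ^ 4 * b) := by
  have R := S.R_eq
  have h1 : Fq S.D0 S.p'.ε U := hU.mono (by omega) le_rfl
  exact (norm_sub_le_of_le (norm_sub_le_of_le (h.pz_le hψ hU) (h.sT_le r h1
    (h.ga0 (hU.mono (by omega) le_rfl)) z)) (h.sP_le hψ h1 z)).trans_eq (by ring)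

omit h in
theorem fm_eq1 (W : Cf) (z : Lk → E3) : S.fm ψ W z = S.f0 W z + (1 + S.f0 W z) *
    (Complex.exp (S.pz ψ (Bx 0 W) - S.sT W z - S.sP ψ W z) - 1) := by
  rw [Sd.fm, Sd.f0, add_sub_cancel, mul_sub, ← Complex.exp_add]
  ring_nf

theorem sm_num (b0 : 0 ≤ b) (hb : S.Q ^ 100 * b ≤ 1) :
    4 * (S.Q ^ 16 * S.g ^ 3) + 2 * (S.L ^ 4 * b) ≤ S.Q ^ 17 * (S.g ^ 3 + b) ∧
      S.Q ^ 17 * (S.g ^ 3 + b) ≤ 1 / 100 := by
  have g0 := h.g0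
  have q0 := S.Q0
  have q1 := S.Q1
  have h1 : 4 * (S.Q ^ 16 * S.g ^ 3) ≤ S.Q * (S.Q ^ 16 * S.g ^ 3) := by
    gcongr; exact h.nu.cQ' (by norm_num)
  have h2 : 2 * S.L ^ 4 * b ≤ S.Q ^ 17 * b := mul_le_mul_of_nonneg_right
    ((h.cq (by norm_num) (by have := h.nu.exps; omega)).trans (le_self_pow₀ q1 (by norm_num))) b0
  have h3 := h.Qgg (i := 17) (j := 3) (k := 0) (by norm_num) (by norm_num)
  have h4 : 1000 * (S.Q ^ 17 * b) ≤ S.Q ^ 83 * (S.Q ^ 17 * b) := by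
    gcongr; exact (h.nu.cQ' (by norm_num)).trans (le_self_pow₀ q1 (by norm_num))
  exact ⟨by linarith, by linarith⟩

theorem b0 (hψ : PU S.p b ψ) : 0 ≤ b :=
  pu_nonneg hψ ((mul_pos (pow_pos S.Q0 _) h.g0).le.trans h.nu.ρ_ge)

/-- the Mayer mark is close to its leading part -/
theorem fm_f0 (r : Rs S) (hψ : PU S.p b ψ) (hb : S.Q ^ 100 * b ≤ 1)
    (hU : Fq (S.p'.R + 1) S.p'.ε U) (z : Lk → E3) :
    ‖S.fm ψ (cC U) z - S.f0 (cC U) z‖ ≤ 3 * (S.Q ^ 17 * (S.g ^ 3 + b)) := by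
  have R := S.R_eq
  obtain ⟨n1, n2⟩ := h.sm_num (h.b0 hψ) hb
  have h1 := exp_le ((h.sm_le r hψ hU z).trans n1) (by linarith)
  have h2 := norm_add_le_of_le (norm_one (α := ℂ)).le (h.f0_le (h.ga0 (hU.mono (by omega) le_rfl)) z)
  rw [fm_eq1, add_sub_cancel_left, norm_mul]
  exact (mul_le_mul (h2.trans (show _ ≤ 3 / 2 by linarith [h.σ1])) h1 (norm_nonneg _)
    (by norm_num)).trans_eq (by ring)

theorem fm_le (r : Rs S) (hψ : PU S.p b ψ) (hb : S.Q ^ 100 * b ≤ 1)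
    (hU : Fq (S.p'.R + 1) S.p'.ε U) (z : Lk → E3) : ‖S.fm ψ (cC U) z‖ ≤ S.Q ^ 18 * (S.g + b) := by
  have R := S.R_eq
  have g0 := h.g0
  have q0 := S.Q0
  have q1 := S.Q1
  have b0 := h.b0 hψ
  have h1 : S.g ^ 3 ≤ S.g := pow_le_of_le_one g0.le h.nu.ok.g1 (by norm_num)
  rw [← sub_add_cancel (S.fm _ _ _) (S.f0 (cC U) z)]
  calc _ ≤ _ := norm_add_le_of_le (h.fm_f0 r hψ hb hU z)
        (h.f0_le (h.ga0 (hU.mono (by omega) le_rfl)) z)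
    _ ≤ 3 * (S.Q ^ 17 * (S.g + b)) + 24 * (S.Q ^ 17 * (S.g + b)) := by
        gcongr
        exacts [by norm_num, by linarith]
    _ = 27 * (S.Q ^ 17 * (S.g + b)) := by ring
    _ ≤ S.Q * (S.Q ^ 17 * (S.g + b)) := by gcongr; exact h.nu.cQ' (by norm_num)
    _ = _ := by ring

end Hp

end Cm

end Pool.Agent.Lib.MP_7f377f_mp.RG.Q4
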