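import Pool.Agent.Lib.MP_7f377f_mp.G.Q4PolyA
import Pool.Agent.Lib.MP_7f377f_mp.RGAp0

/-! Torus geometry: centred residues, neighbourhoods and the tour size `tau`. -/

noncomputable section

set_option linter.unusedSectionVars false
variable [Pool.Agent.Lib.MP_7f377f_mp.GD]

namespace Pool.Agent.Lib.MP_7f377f_mp.RG.Q4

open Finset
open scoped Pointwise

variable {n D : ℕ}

/-! centred residues -/

theorem rc_exists (n : ℕ) (x : St) : ∃ v : St, rc n x = x + (n : ℤ) • v := by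
  refine ⟨fun i => -((x i + (n / 2 : ℕ)) / (n : ℤ)), funext fun i => ?_⟩
  have h := Int.mul_ediv_add_emod (x i + (n / 2 : ℕ)) (n : ℤ)
  simp only [rc, Pi.add_apply, Pi.smul_apply, smul_eq_mul]
  linear_combination h

theorem rc_add_smul (n : ℕ) (x v : St) : rc n (x + (n : ℤ) • v) = rc n x := by
  funext i
  simp only [rc, Pi.add_apply, Pi.smul_apply, smul_eq_mul]
  rw [add_right_comm, Int.add_mul_emod_self_left]

theorem rc_rc (n : ℕ) (x : St) : rc n (rc n x) = rc n x := by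
  obtain ⟨v, hv⟩ := rc_exists n x
  conv_lhs => rw [hv]
  exact rc_add_smul n x v

theorem rc_add_rc (n : ℕ) (x y : St) : rc n (rc n x + y) = rc n (x + y) := by
  obtain ⟨v, hv⟩ := rc_exists n x
  rw [hv, add_right_comm, rc_add_smul]

theorem rc_mem (hn : Odd n) (x : St) : rc n x ∈ box (n / 2) := by
  obtain ⟨m, rfl⟩ := hn
  rw [mem_box]
  intro i
  have h0 : (0 : ℤ) < ((2 * m + 1 : ℕ) : ℤ) := by positivity
  have h1 := Int.emod_nonneg (x i + ((2 * m + 1) / 2 : ℕ)) h0.ne'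
  have h2 := Int.emod_lt_of_pos (x i + ((2 * m + 1) / 2 : ℕ)) h0
  simp only [rc]
  omega

theorem rc_eq (hn : Odd n) {x : St} (h : x ∈ box (n / 2)) : rc n x = x := by
  obtain ⟨m, rfl⟩ := hn
  funext i
  have h1 := mem_box.1 h i
  simp only [rc]
  rw [Int.emod_eq_of_lt (by omega) (by omega)]
  ring

theorem rc_yo (l : ℕ) (x : St) : rc n (yo l (rc (LL l * n) x)) = rc n (yo l x) := by
  obtain ⟨v, hv⟩ := rc_exists (LL l * n) x
  have : ((LL l * n : ℕ) : ℤ) • v = up l ((n : ℤ) • v) := by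
    rw [up, smul_smul]; push_cast; rfl
  rw [hv, this, yo_add_up, rc_add_smul]

/-! the distance in the torus -/

theorem nearT_iff {x y : St} : nearT n D x y ↔
    ∃ v : St, ∀ i, -(D : ℤ) ≤ y i - x i - n * v i ∧ y i - x i - n * v i ≤ D := by
  simp only [nearT, mem_box, Pi.sub_apply, Pi.smul_apply, smul_eq_mul]

theorem nearT.refl (n D : ℕ) (x : St) : nearT n D x x :=
  nearT_iff.2 ⟨0, fun i => by simp⟩

theorem nearT.symm {x y : St} (h : nearT n D x y) : nearT n D y x := by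
  obtain ⟨v, hv⟩ := nearT_iff.1 h
  refine nearT_iff.2 ⟨-v, fun i => ?_⟩
  have := hv i
  simp only [Pi.neg_apply, mul_neg]
  omega

theorem nearT.mono {D' : ℕ} {x y : St} (h : nearT n D x y) (hD : D ≤ D') : nearT n D' x y := by
  obtain ⟨v, hv⟩ := nearT_iff.1 h
  refine nearT_iff.2 ⟨v, fun i => ?_⟩
  have := hv i
  omega

theorem nearT.trans {D' : ℕ} {x y z : St} (h : nearT n D x y) (h' : nearT n D' y z) :
    nearT n (D + D') x z := by
  obtain ⟨v, hv⟩ := nearT_iff.1 h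
  obtain ⟨w, hw⟩ := nearT_iff.1 h'
  refine nearT_iff.2 ⟨v + w, fun i => ?_⟩
  have := hv i
  have := hw i
  simp only [Pi.add_apply, mul_add]
  omega

theorem nearT_of_box {x y : St} (h : y - x ∈ box D) : nearT n D x y := ⟨0, by simpa using h⟩

theorem nearT_add {x b : St} (h : b ∈ box D) : nearT n D x (x + b) :=
  nearT_of_box (by simpa using h)

theorem nearT_rc (n : ℕ) (x : St) : nearT n 0 x (rc n x) := by
  obtain ⟨v, hv⟩ := rc_exists n x
  exact ⟨v, by rw [hv]; simp [mem_box]⟩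

theorem nearT_rc_right {x y : St} : nearT n D x (rc n y) ↔ nearT n D x y :=
  ⟨fun h => (h.trans (nearT_rc n y).symm).mono (D.add_zero).le,
    fun h => (h.trans (nearT_rc n y)).mono (D.add_zero).le⟩

theorem nearT_rc_left {x y : St} : nearT n D (rc n x) y ↔ nearT n D x y :=
  ⟨fun h => (nearT_rc_right.1 h.symm).symm, fun h => (nearT_rc_right.2 h.symm).symm⟩

theorem nearT_add_right {x y : St} (v : St) : nearT n D (x + v) (y + v) ↔ nearT n D x y := by
  simp only [nearT, add_sub_add_right_eq_sub]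

theorem nearT_zero {x y : St} : nearT n 0 x y ↔ rc n x = rc n y := by
  constructor
  · rintro ⟨v, hv⟩
    have : y = x + (n : ℤ) • v := by
      funext i
      have := mem_box.1 hv i
      simp only [Pi.sub_apply, Pi.add_apply, Nat.cast_zero, neg_zero] at this ⊢
      omega
    rw [this, rc_add_smul]
  · intro h
    rw [← nearT_rc_left, h, nearT_rc_left]
    exact nearT.refl _ _ _

theorem nearT.split {D' : ℕ} {x z : St} (h : nearT n (D + D') x z) :
    ∃ y, nearT n D x y ∧ nearT n D' y z := by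
  obtain ⟨v, hv⟩ := nearT_iff.1 h
  refine ⟨fun i => x i + max (-(D : ℤ)) (min D (z i - x i - n * v i)),
    nearT_iff.2 ⟨0, fun i => ?_⟩, nearT_iff.2 ⟨v, fun i => ?_⟩⟩
  · simp only [Pi.zero_apply, mul_zero]; omega
  · have := hv i
    push_cast at this
    omega

theorem nearT_exists (n : ℕ) (x y : St) : ∃ R, nearT n R x y := by
  refine ⟨∑ i, (y i - x i).natAbs, nearT_iff.2 ⟨0, fun i => ?_⟩⟩
  have := single_le_sum (f := fun i => (y i - x i).natAbs) (fun _ _ => Nat.zero_le _) (mem_univ i)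
  simp only [Pi.zero_apply, mul_zero]
  omega

/-- passage to the coarse lattice -/
theorem nearT.yo {l E : ℕ} {x y : St} (h : nearT (LL l * n) E x y) :
    nearT n (E / LL l + 1) (yo l x) (yo l y) := by
  obtain ⟨v, hv⟩ := nearT_iff.1 h
  refine nearT_iff.2 ⟨v, fun i => ?_⟩
  have h0 : (0 : ℤ) < (LL l : ℤ) := by exact_mod_cast LL_pos l
  obtain ⟨h1, h2⟩ := hv i
  have a1 := Int.mul_ediv_add_emod (x i + l) (LL l : ℤ)
  have a2 := Int.mul_ediv_add_emod (y i + l) (LL l : ℤ)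
  have a3 := Int.emod_nonneg (x i + l) h0.ne'
  have a4 := Int.emod_nonneg (y i + l) h0.ne'
  have a5 := Int.emod_lt_of_pos (x i + l) h0
  have a6 := Int.emod_lt_of_pos (y i + l) h0
  have a7 : (E : ℤ) < LL l * ((E / LL l : ℕ) + 1) := by
    exact_mod_cast Nat.lt_mul_div_succ E (LL_pos l)
  simp only [RG.yo]
  push_cast at h1 h2 a7 ⊢
  constructor
  · refine Int.le_of_lt_add_one (lt_of_mul_lt_mul_left ?_ h0.le)
    nlinarith
  · refine Int.le_of_lt_add_one (lt_of_mul_lt_mul_left ?_ h0.le)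
    nlinarith

theorem mem_tb {R : ℕ} {X : Finset St} {y : St} :
    y ∈ tb n R X ↔ rc n y = y ∧ ∃ x ∈ X, nearT n R x y := by
  simp only [tb, mem_image, mem_add]
  constructor
  · rintro ⟨_, ⟨x, hx, b, hb, rfl⟩, rfl⟩
    exact ⟨rc_rc _ _, x, hx, nearT_rc_right.2 (nearT_add hb)⟩
  · rintro ⟨h, x, hx, v, hv⟩
    refine ⟨_, ⟨x, hx, _, hv, rfl⟩, ?_⟩
    rw [show x + (y - x - (n : ℤ) • v) = y + (n : ℤ) • (-v) by rw [smul_neg]; abel, rc_add_smul, h]

theorem mem_tb_single {R : ℕ} {x y : St} : y ∈ tb n R {x} ↔ rc n y = y ∧ nearT n R x y := by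
  simp [mem_tb]

theorem card_tb_le (n R : ℕ) (X : Finset St) : (tb n R X).card ≤ X.card * (2 * R + 1) ^ 4 :=
  card_image_le.trans (card_add_le.trans_eq (by rw [card_box]))

theorem tb_mono {R R' : ℕ} {X X' : Finset St} (h : X ⊆ X') (hR : R ≤ R') :
    tb n R X ⊆ tb n R' X' := fun _ hy => by
  obtain ⟨h1, x, hx, h2⟩ := mem_tb.1 hy
  exact mem_tb.2 ⟨h1, x, h hx, h2.mono hR⟩

theorem tb_tb {R R' : ℕ} (X : Finset St) : tb n R' (tb n R X) = tb n (R + R') X := by
  ext y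
  simp only [mem_tb]
  constructor
  · rintro ⟨h, z, ⟨-, x, hx, h1⟩, h2⟩
    exact ⟨h, x, hx, h1.trans h2⟩
  · rintro ⟨h, x, hx, h1⟩
    obtain ⟨z, h2, h3⟩ := h1.split
    exact ⟨h, rc n z, ⟨rc_rc _ _, x, hx, nearT_rc_right.2 h2⟩, nearT_rc_left.2 h3⟩

theorem tb_union (n R : ℕ) (X X' : Finset St) : tb n R (X ∪ X') = tb n R X ∪ tb n R X' := by
  rw [tb, union_add, image_union]; rfl

theorem sub_tb {R : ℕ} {X : Finset St} (hX : ∀ x ∈ X, rc n x = x) : X ⊆ tb n R X :=
  fun x hx => mem_tb.2 ⟨hX x hx, x, hx, nearT.refl _ _ _⟩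

/-! walks -/

namespace Ta

/-- a walk of length `k` from `a` to `b` whose balls cover `X` -/
def Wk (n D : ℕ) (a b : St) (k : ℕ) (X : Set St) : Prop :=
  ∃ p : ℕ → St, p 0 = a ∧ p k = b ∧ (∀ i < k, nearT n D (p i) (p (i + 1))) ∧
    ∀ x ∈ X, ∃ i ≤ k, nearT n D (p i) x

variable {a b c : St} {k k' : ℕ} {X X' : Set St}

theorem Wk.mono (h : Wk n D a b k X) (hX : X' ⊆ X) : Wk n D a b k X' := by
  obtain ⟨p, h1, h2, h3, h4⟩ := h
  exact ⟨p, h1, h2, h3, fun x hx => h4 x (hX hx)⟩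

theorem Wk.step (h : nearT n D a b) : Wk n D a b 1 {b} := by
  refine ⟨fun i => if i = 0 then a else b, rfl, rfl, fun i hi => ?_, fun x hx => ⟨0, zero_le_one, ?_⟩⟩
  · obtain rfl : i = 0 := by omega
    exact h
  · obtain rfl : x = b := hx
    exact h

theorem Wk.append (h : Wk n D a b k X) (h' : Wk n D b c k' X') :
    Wk n D a c (k + k') (X ∪ X') := by
  obtain ⟨p, h1, h2, h3, h4⟩ := h
  obtain ⟨q, g1, g2, g3, g4⟩ := h'
  have e1 : ∀ i ≤ k, (if i ≤ k then p i else q (i - k)) = p i := fun i hi => if_pos hi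
  have e2 : ∀ j, (if k + j ≤ k then p (k + j) else q (k + j - k)) = q j := fun j => by
    split_ifs with hj
    · obtain rfl : j = 0 := by omega
      rw [add_zero, h2, g1]
    · rw [Nat.add_sub_cancel_left]
  refine ⟨fun i => if i ≤ k then p i else q (i - k), (e1 0 k.zero_le).trans h1, (e2 k').trans g2,
    fun i hi => ?_, fun x hx => ?_⟩
  · rcases lt_or_ge i k with hk | hk
    · simp only [e1 i hk.le, e1 (i + 1) hk]
      exact h3 i hk
    · obtain ⟨j, rfl⟩ := Nat.exists_eq_add_of_le hk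
      simp only [add_assoc, e2]
      exact g3 j (by omega)
  · rcases hx with hx | hx
    · obtain ⟨i, hi, hx⟩ := h4 x hx
      exact ⟨i, by omega, by simpa only [e1 i hi] using hx⟩
    · obtain ⟨j, hj, hx⟩ := g4 x hx
      exact ⟨k + j, by omega, by simpa only [e2] using hx⟩

/-- a closed walk can be started close to any point which it covers -/
theorem Wk.rot (h : Wk n D a a k X) {z : St} (hz : z ∈ X) :
    ∃ c, nearT n D c z ∧ Wk n D c c k X := by
  obtain ⟨p, h1, h2, h3, h4⟩ := h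
  obtain ⟨i, hi, hz⟩ := h4 z hz
  obtain ⟨j, rfl⟩ := Nat.exists_eq_add_of_le hi
  have w1 : Wk n D a (p i) i {x | ∃ t ≤ i, nearT n D (p t) x} :=
    ⟨p, h1, rfl, fun t ht => h3 t (by omega), fun x hx => hx⟩
  have w2 : Wk n D (p i) a j {x | ∃ t ≤ j, nearT n D (p (i + t)) x} :=
    ⟨fun t => p (i + t), rfl, h2, fun t ht => h3 (i + t) (by omega), fun x hx => hx⟩
  refine ⟨p i, hz, add_comm j i ▸ (w2.append w1).mono fun x hx => ?_⟩
  obtain ⟨t, ht, hx⟩ := h4 x hx
  rcases le_total t i with h | h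
  · exact Or.inr ⟨t, h, hx⟩
  · obtain ⟨s, rfl⟩ := Nat.exists_eq_add_of_le h
    exact Or.inl ⟨s, by omega, hx⟩

theorem tour_iff {X : Finset St} : Tour n D X k ↔ 0 < k ∧ ∃ a, Wk n D a a k X := by
  refine and_congr_right fun hk => ⟨?_, ?_⟩
  · rintro ⟨p, h1, h2, h3⟩
    exact ⟨p 0, p, rfl, h1, h2, fun x hx => (h3 x hx).imp fun i hi => ⟨hi.1.le, hi.2⟩⟩
  · rintro ⟨a, p, h0, h1, h2, h3⟩
    refine ⟨p, h1.trans h0.symm, h2, fun x hx => ?_⟩
    obtain ⟨i, hi, hx⟩ := h3 x hx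
    rcases hi.lt_or_eq with hi | rfl
    · exact ⟨i, hi, hx⟩
    · exact ⟨0, hk, by rwa [h0, ← h1]⟩

theorem wk_line (m : ℕ) : ∀ a : St, nearT n ((m + 1) * D) a b → Wk n D a b (m + 1) {b} := by
  induction m with
  | zero => exact fun a h => Wk.step (by simpa using h)
  | succ m ih =>
    intro a h
    rw [add_comm (m + 1), add_mul, one_mul] at h
    obtain ⟨c, h1, h2⟩ := h.split
    rw [add_comm (m + 1)]
    exact ((Wk.step h1).append (ih c h2)).mono Set.subset_union_right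

theorem wk_exists (hD : 1 ≤ D) (a b : St) : ∃ k, Wk n D a b k {b} := by
  obtain ⟨R, h⟩ := nearT_exists n a b
  exact ⟨R + 1, wk_line R a (h.mono (by nlinarith))⟩

theorem tour_exists (hD : 1 ≤ D) (X : Finset St) : ∃ k, Tour n D X k := by
  have : ∃ k, Wk n D 0 0 (k + 1) X := by
    induction X using Finset.induction_on with
    | empty => exact ⟨0, (Wk.step (nearT.refl _ _ _)).mono (by simp)⟩
    | insert x X _ ih =>
      obtain ⟨k, h⟩ := ih
      obtain ⟨k1, h1⟩ := wk_exists (n := n) hD 0 x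
      obtain ⟨k2, h2⟩ := wk_exists (n := n) hD x 0
      refine ⟨k1 + k2 + k, ((h1.append h2).append h).mono fun y hy => ?_⟩
      rcases mem_insert.1 hy with rfl | hy
      · exact Or.inl (Or.inl rfl)
      · exact Or.inr hy
  obtain ⟨k, h⟩ := this
  exact ⟨k + 1, tour_iff.2 ⟨k.succ_pos, 0, h⟩⟩

theorem chain {p : ℕ → St} (h : ∀ i < k, nearT n D (p i) (p (i + 1))) (i j : ℕ)
    (hj : i + j ≤ k) : nearT n (j * D) (p i) (p (i + j)) := by
  induction j with
  | zero => exact nearT.refl _ _ _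
  | succ j ih =>
    rw [add_mul, one_mul]
    exact (ih (by omega)).trans (h (i + j) (by omega))

theorem chain' {p : ℕ → St} (h : ∀ i < k, nearT n D (p i) (p (i + 1))) {i j m : ℕ}
    (hi : i ≤ k) (hj : j ≤ k) (h1 : i ≤ j + m) (h2 : j ≤ i + m) : nearT n (m * D) (p i) (p j) := by
  rcases le_total i j with g | g
  · obtain ⟨s, rfl⟩ := Nat.exists_eq_add_of_le g
    exact (chain h i s hj).mono (Nat.mul_le_mul_right _ (by omega))
  · obtain ⟨s, rfl⟩ := Nat.exists_eq_add_of_le g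
    exact (chain h j s hi).symm.mono (Nat.mul_le_mul_right _ (by omega))

end Ta

open Ta

/-! the size `tau` -/

theorem tau_spec (hD : 1 ≤ D) (X : Finset St) : Tour n D X (tau n D X) :=
  Nat.sInf_mem (tour_exists hD X)

theorem tau_le {X : Finset St} {k : ℕ} (h : Tour n D X k) : tau n D X ≤ k := Nat.sInf_le h

theorem tau_pos (hD : 1 ≤ D) (X : Finset St) : 1 ≤ tau n D X := (tau_spec hD X).1

theorem tau_mono (hD : 1 ≤ D) {X X' : Finset St} (h : X ⊆ X') : tau n D X ≤ tau n D X' := by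
  obtain ⟨h0, p, h1, h2, h3⟩ := tau_spec (n := n) hD X'
  exact tau_le ⟨h0, p, h1, h2, fun x hx => h3 x (h hx)⟩

theorem card_le_tau (hD : 1 ≤ D) {X : Finset St} (hX : ∀ x ∈ X, rc n x = x) :
    X.card ≤ tau n D X * (2 * D + 1) ^ 4 := by
  obtain ⟨-, p, -, -, h3⟩ := tau_spec (n := n) hD X
  have : X ⊆ tb n D ((range (tau n D X)).image p) := fun x hx => by
    obtain ⟨i, hi, h⟩ := h3 x hx
    exact mem_tb.2 ⟨hX x hx, p i, mem_image_of_mem _ (mem_range.2 hi), h⟩
  exact (card_le_card this).trans ((card_tb_le _ _ _).trans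
    (Nat.mul_le_mul_right _ (card_image_le.trans_eq (card_range _))))

theorem tau_eq_one (hD : 1 ≤ D) {X : Finset St} {x : St} (h : ∀ y ∈ X, nearT n D x y) :
    tau n D X = 1 :=
  le_antisymm (tau_le ⟨one_pos, fun _ => x, rfl, fun _ _ => nearT.refl _ _ _,
    fun y hy => ⟨0, one_pos, h y hy⟩⟩) (tau_pos hD X)

theorem tau_ball {R : ℕ} (hD : 1 ≤ D) (h : R ≤ D) (x : St) : tau n D (tb n R {x}) = 1 :=
  tau_eq_one hD (x := x) fun _ hy => (mem_tb_single.1 hy).2.mono h

theorem tau_diam (hD : 1 ≤ D) {X : Finset St} {x y : St} (hx : x ∈ X) (hy : y ∈ X) :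
    nearT n ((tau n D X + 2) * D) x y := by
  obtain ⟨-, p, -, h2, h3⟩ := tau_spec (n := n) hD X
  obtain ⟨i, hi, a1⟩ := h3 x hx
  obtain ⟨j, hj, a2⟩ := h3 y hy
  have := chain' h2 (m := tau n D X) hi.le hj.le (by omega) (by omega)
  exact ((a1.symm.trans this).trans a2).mono (le_of_eq (by ring))

theorem tau_union (hD : 1 ≤ D) {X X' : Finset St} (h : ¬ Disjoint X X') :
    tau n D (X ∪ X') ≤ tau n D X + tau n D X' + 4 := by
  obtain ⟨z, hz, hz'⟩ := not_disjoint_iff.1 h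
  obtain ⟨-, a, w⟩ := tour_iff.1 (tau_spec (n := n) hD X)
  obtain ⟨-, a', w'⟩ := tour_iff.1 (tau_spec (n := n) hD X')
  obtain ⟨c, hc, w⟩ := w.rot hz
  obtain ⟨c', hc', w'⟩ := w'.rot hz'
  have := ((w.append ((Wk.step hc).append (Wk.step hc'.symm))).append w').append
    ((Wk.step hc').append (Wk.step hc.symm))
  refine (tau_le (tour_iff.2 ⟨by omega, c, this.mono fun y hy => ?_⟩)).trans_eq (by ring)
  rcases mem_union.1 hy with hy | hy
  · exact Or.inl (Or.inl (Or.inl hy))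
  · exact Or.inl (Or.inr hy)

theorem tau_conn {Ω : Type} [DecidableEq Ω] (hD : 1 ≤ D) (sp : Ω → Finset St) {O : Finset Ω}
    (h : Conn sp O) : tau n D (us sp O) + 4 ≤ ∑ o ∈ O, (tau n D (sp o) + 4) := by
  obtain ⟨o, ho⟩ := h.1
  refine h.induct sp ho (fun O => tau n D (us sp O) + 4 ≤ ∑ o ∈ O, (tau n D (sp o) + 4))
    (by simp) fun O1 _ _ ih o' _ h1 h2 => ?_
  have := tau_union (n := n) hD h2
  rw [sum_insert h1, us_insert, union_comm]
  omega

theorem tau_scale {l D' R : ℕ} (hD : 1 ≤ D) (h : 4 * D / LL l + R + 3 ≤ D') (X : Finset St) :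
    tau n D' (tb n R (dn l n X)) ≤ max 1 (tau (LL l * n) D X / 2) := by
  obtain ⟨h0, p, h1, h2, h3⟩ := tau_spec (n := LL l * n) hD X
  generalize tau (LL l * n) D X = k at *
  obtain ⟨m, hm⟩ : ∃ m, m = max 1 (k / 2) := ⟨_, rfl⟩
  rw [← hm]
  refine tau_le ⟨by omega, fun j => yo l (p (if j < m then 2 * j else k)), ?_, fun j hj => ?_,
    fun y hy => ?_⟩
  · simp only [lt_irrefl, if_false, if_pos (show 0 < m by omega), h1]
  · have : nearT (LL l * n) (4 * D) (p (if j < m then 2 * j else k))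
        (p (if j + 1 < m then 2 * (j + 1) else k)) :=
      chain' h2 (by split_ifs <;> omega) (by split_ifs <;> omega) (by split_ifs <;> omega)
        (by split_ifs <;> omega)
    exact this.yo.mono (by omega)
  · obtain ⟨-, z, hz, a1⟩ := mem_tb.1 hy
    obtain ⟨x, hx, rfl⟩ := mem_image.1 hz
    obtain ⟨i, hi, a2⟩ := h3 x hx
    have hj : min (i / 2) (m - 1) < m := by omega
    refine ⟨min (i / 2) (m - 1), hj, ?_⟩
    have : nearT (LL l * n) (3 * D) (p (2 * min (i / 2) (m - 1))) (p i) :=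
      chain' h2 (by omega) hi.le (by omega) (by omega)
    have a3 := ((this.trans a2).mono (show 3 * D + D ≤ 4 * D by omega)).yo
    simp only [if_pos hj]
    exact (a3.trans (nearT_rc_left.1 a1)).mono (by omega)

theorem tau_sh (v : St) (X : Finset St) :
    tau n D (X.image fun x => rc n (x + v)) = tau n D X := by
  unfold tau
  congr 1
  ext k
  refine and_congr_right fun _ => ⟨?_, ?_⟩
  · rintro ⟨p, h1, h2, h3⟩
    refine ⟨fun i => p i + -v, by simp only [h1], fun i hi => (nearT_add_right _).2 (h2 i hi),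
      fun x hx => ?_⟩
    obtain ⟨i, hi, h⟩ := h3 _ (mem_image_of_mem _ hx)
    exact ⟨i, hi, (nearT_add_right v).1 (by simpa using nearT_rc_right.1 h)⟩
  · rintro ⟨p, h1, h2, h3⟩
    refine ⟨fun i => p i + v, by simp only [h1], fun i hi => (nearT_add_right _).2 (h2 i hi),
      fun y hy => ?_⟩
    obtain ⟨x, hx, rfl⟩ := mem_image.1 hy
    obtain ⟨i, hi, h⟩ := h3 x hx
    exact ⟨i, hi, nearT_rc_right.2 ((nearT_add_right v).2 h)⟩

/-- a family with a root and parents of smaller rank is connected -/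
theorem conn_of_rank {σ Ω : Type} [DecidableEq σ] [DecidableEq Ω] (sp : Ω → Finset σ)
    {O : Finset Ω} {o0 : Ω} (h0 : o0 ∈ O) (r : Ω → ℕ)
    (h : ∀ o ∈ O, o ≠ o0 → ∃ o' ∈ O, r o' < r o ∧ ¬ Disjoint (sp o') (sp o)) : Conn sp O := by
  have key : ∀ A B : Finset Ω, A ⊆ O → (∀ o ∈ O, o ∉ A → o ∈ B) → A.Nonempty → o0 ∉ A →
      ¬ Disjoint (us sp A) (us sp B) := by
    intro A B hA hB hne ho
    obtain ⟨o, h1, h2⟩ := exists_min_image A r hne
    obtain ⟨o', a1, a2, a3⟩ := h o (hA h1) (fun e => ho (e ▸ h1))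
    exact fun hd => a3 (hd.symm.mono (sp_sub_us sp (hB o' a1 fun g => (h2 o' g).not_gt a2))
      (sp_sub_us sp h1))
  refine ⟨⟨o0, h0⟩, fun O1 a1 a2 a3 => ?_⟩
  by_cases ho : o0 ∈ O1
  · refine fun hd => key (O \ O1) O1 sdiff_subset (fun o b1 b2 => ?_) ?_ (by simp [ho]) hd.symm
    · by_contra b3
      exact b2 (mem_sdiff.2 ⟨b1, b3⟩)
    · exact sdiff_nonempty.2 fun b => a3 (subset_antisymm a1 b)
  · exact key O1 (O \ O1) a1 (fun o b1 b2 => mem_sdiff.2 ⟨b1, b2⟩) a2 ho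

end Pool.Agent.Lib.MP_7f377f_mp.RG.Q4
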