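import Pool.Agent.Lib.MP_7f377f_mp.G.Q4Cov
import Pool.Agent.Lib.MP_7f377f_mp.G.Q4MeasLaw
import Pool.Agent.Lib.MP_7f377f_mp.G.Q4Tau

/-! The product space of the block variables and the global change of variables. -/

noncomputable section

set_option linter.unusedSectionVars false
variable [Pool.Agent.Lib.MP_7f377f_mp.GD]

namespace Pool.Agent.Lib.MP_7f377f_mp.RG.Q4

open MeasureTheory Measure Set Ms
open scoped ENNReal

/-- the variables of a link: a group element, a fluctuation variable and a chart -/
abbrev LV : Type := S3 × XQ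

/-- the variables of a block -/
abbrev BV : Type := (Lk → LV) × Om

/-- the variables of all blocks -/
abbrev VB : Type := St → BV

/-- the law of the variables of a block -/
def bv (l : ℕ) (ν : Measure E3) : Measure BV :=
  (infinitePi fun _ : Lk => haar.prod (lq ν)).prod (unO l)

/-- the law of all variables -/
def PB (l : ℕ) (ν : Measure E3) : Measure VB := infinitePi fun _ => bv l ν

instance (l : ℕ) (ν : Measure E3) [IsProbabilityMeasure ν] : IsProbabilityMeasure (bv l ν) := by
  unfold bv
  infer_instance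

instance (l : ℕ) (ν : Measure E3) [IsProbabilityMeasure ν] : IsProbabilityMeasure (PB l ν) := by
  unfold PB
  infer_instance

/-- the variables of the fine links -/
def lnk (l : ℕ) (v : VB) : Lk → LV := fun f => (v (yo l f.1)).1 (f.1 - up l (yo l f.1), f.2)

def vU (l : ℕ) (v : VB) : Conf := fun f => (lnk l v f).1

def vz (l : ℕ) (v : VB) : Lk → E3 := fun f => (lnk l v f).2.1

def vs (l : ℕ) (v : VB) : Lk → Fin NG := fun f => (lnk l v f).2.2

def vo (v : VB) : St → Om := fun y => (v y).2

open Classical in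
/-- the field with active links `exp (A) q b` and the other links taken from `U` -/
def uq (act : Lk → Prop) (b : Conf) (A : Lk → E3) (s : Lk → Fin NG) (U : Conf) : Conf :=
  fun f => if act f then e0 (A f) * q8 (s f) * b f else U f

namespace Cov

theorem meas_lnk (l : ℕ) : Measurable (lnk l) := measurable_pi_lambda _ fun _ =>
  (measurable_pi_apply _).comp (measurable_pi_apply _).fst

theorem meas_vU (l : ℕ) : Measurable (vU l) := measurable_pi_lambda _ fun f =>
  ((measurable_pi_apply f).comp (meas_lnk l)).fst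

theorem meas_vz (l : ℕ) : Measurable (vz l) := measurable_pi_lambda _ fun f =>
  ((measurable_pi_apply f).comp (meas_lnk l)).snd.fst

theorem meas_vs (l : ℕ) : Measurable (vs l) := measurable_pi_lambda _ fun f =>
  ((measurable_pi_apply f).comp (meas_lnk l)).snd.snd

theorem meas_vo : Measurable vo := measurable_pi_lambda _ fun y => (measurable_pi_apply y).snd

theorem lnk_up (l : ℕ) (v : VB) (y : St) {t : Lk} (ht : t ∈ lbox l) :
    lnk l v (t.1 + up l y, t.2) = (v y).1 t := by
  have h := mem_box.1 (Finset.mem_product.1 ht).1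
  simp only [lnk, yo_add_up, yo_box h, zero_add, add_sub_cancel_right]

theorem lnk_sh (l : ℕ) (v : VB) (x : St) :
    lnk l (fun y => v (y + x)) = sh (up l x) (lnk l v) := by
  funext f
  simp only [lnk, sh, yo_add_up]
  simp only [up, smul_add, add_sub_add_right_eq_sub]

theorem vU_sh (l : ℕ) (v : VB) (x : St) : vU l (fun y => v (y + x)) = sh (up l x) (vU l v) :=
  funext fun f => congrArg Prod.fst (congrFun (lnk_sh l v x) f)

theorem vz_sh (l : ℕ) (v : VB) (x : St) : vz l (fun y => v (y + x)) = sh (up l x) (vz l v) :=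
  funext fun f => congrArg (·.2.1) (congrFun (lnk_sh l v x) f)

theorem vs_sh (l : ℕ) (v : VB) (x : St) : vs l (fun y => v (y + x)) = sh (up l x) (vs l v) :=
  funext fun f => congrArg (·.2.2) (congrFun (lnk_sh l v x) f)

theorem uq_sh (act : Lk → Prop) (b : Conf) (A : Lk → E3) (s : Lk → Fin NG) (U : Conf) (x : St) :
    sh x (uq act b A s U) = uq (sh x act) (sh x b) (sh x A) (sh x s) (sh x U) := rfl

theorem yo_mem {l n : ℕ} (hn : Odd n) {x : St} (hx : x ∈ box (LL l * n / 2)) :
    yo l x ∈ box (n / 2) := by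
  obtain ⟨m, rfl⟩ := hn
  have e1 : LL l * (2 * m + 1) / 2 = LL l * m + l := by
    rw [show LL l * (2 * m + 1) = 2 * (LL l * m + l) + 1 by simp only [LL]; ring]
    omega
  rw [e1] at hx
  rw [show (2 * m + 1) / 2 = m by omega]
  refine mem_box.2 fun i => ?_
  have h := mem_box.1 hx i
  have h4 : ((LL l : ℕ) : ℤ) = 2 * l + 1 := by simp [LL]
  push_cast at h
  constructor
  · refine Int.le_ediv_of_mul_le (Ms.LL_pos l) ?_
    linarith [h.1]
  · refine Int.le_of_lt_add_one (Int.ediv_lt_of_lt_mul (Ms.LL_pos l) ?_)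
    nlinarith [h.2]

theorem odd_fine {l n : ℕ} (hn : Odd n) : Odd (LL l * n) := Odd.mul ⟨l, rfl⟩ hn

theorem yo_rc {l n : ℕ} (hn : Odd n) (x : St) : yo l (rc (LL l * n) x) = rc n (yo l x) := by
  rw [← rc_yo, rc_eq hn (yo_mem hn (rc_mem (odd_fine hn) x))]

theorem lnk_pcs {l n : ℕ} (hn : Odd n) (v : VB) :
    lnk l (pcs n v) = pc (LL l * n) (lnk l v) := by
  funext f
  have h := yo_rc (l := l) hn f.1
  obtain ⟨w, hw⟩ := rc_exists (LL l * n) f.1
  have e : ((LL l * n : ℕ) : ℤ) • w = up l ((n : ℤ) • w) := by
    rw [up, smul_smul]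
    push_cast
    rfl
  have e2 : rc (LL l * n) f.1 - up l (yo l (rc (LL l * n) f.1)) = f.1 - up l (yo l f.1) := by
    rw [hw, e, yo_add_up]
    simp only [up, smul_add, add_sub_add_right_eq_sub]
  simp only [lnk, pcs, pc, ← h, e2]

theorem vU_pcs {l n : ℕ} (hn : Odd n) (v : VB) : vU l (pcs n v) = pc (LL l * n) (vU l v) :=
  funext fun f => congrArg Prod.fst (congrFun (lnk_pcs hn v) f)

theorem vz_pcs {l n : ℕ} (hn : Odd n) (v : VB) : vz l (pcs n v) = pc (LL l * n) (vz l v) :=
  funext fun f => congrArg (·.2.1) (congrFun (lnk_pcs hn v) f)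

theorem vs_pcs {l n : ℕ} (hn : Odd n) (v : VB) : vs l (pcs n v) = pc (LL l * n) (vs l v) :=
  funext fun f => congrArg (·.2.2) (congrFun (lnk_pcs hn v) f)

theorem trz_uq {l : ℕ} {act : Lk → Prop} (h : ∀ f, act f → ¬ tree l f) (b : Conf) (A : Lk → E3)
    (s : Lk → Fin NG) (U : Conf) : trz l (uq act b A s U) = uq act b A s (trz l U) := by
  funext f
  by_cases hf : act f
  · simp only [trz, uq, if_pos hf, if_neg (h f hf)]
  · simp only [trz, uq, if_neg hf]

theorem mp_dens {α β : Type} [MeasurableSpace α] [MeasurableSpace β] {μ : Measure α}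
    {μ' : Measure β} {r : α → β} (h : MeasurePreserving r μ μ') {J : β → ℝ≥0∞}
    (hJ : Measurable J) :
    MeasurePreserving r (μ.withDensity fun x => J (r x)) (μ'.withDensity J) := by
  refine ⟨h.measurable, Measure.ext fun s hs => ?_⟩
  rw [map_apply h.measurable hs, withDensity_apply _ (h.measurable hs), withDensity_apply _ hs,
    h.setLIntegral_comp_preimage hs hJ]

theorem mp_unzip {ι α β : Type} [MeasurableSpace α] [MeasurableSpace β] (μ : Measure α)
    (ν : Measure β) [IsProbabilityMeasure μ] [IsProbabilityMeasure ν] :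
    MeasurePreserving (fun v : ι → α × β => (fun i => (v i).1, fun i => (v i).2))
      (infinitePi fun _ => μ.prod ν) ((infinitePi fun _ => μ).prod (infinitePi fun _ => ν)) := by
  have h : MeasurePreserving (MeasurableEquiv.arrowProdEquivProdArrow α β ι).symm
      ((infinitePi fun _ => μ).prod (infinitePi fun _ => ν)) (infinitePi fun _ => μ.prod ν) := by
    refine ⟨MeasurableEquiv.measurable _, eq_infinitePi _ fun s t ht => ?_⟩
    have r1 : MeasurePreserving (s.restrict (π := fun _ => α)) (infinitePi fun _ => μ)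
        (Measure.pi fun _ => μ) := ⟨Finset.measurable_restrict s, infinitePi_map_restrict _⟩
    have r2 : MeasurePreserving (s.restrict (π := fun _ => β)) (infinitePi fun _ => ν)
        (Measure.pi fun _ => ν) := ⟨Finset.measurable_restrict s, infinitePi_map_restrict _⟩
    have r3 := (measurePreserving_arrowProdEquivProdArrow α β s (fun _ => μ) fun _ => ν).symm.comp
      (r1.prod r2)
    have := r3.measure_preimage (s := Set.pi univ fun i : s => t i)
      (MeasurableSet.univ_pi fun i : s => ht i).nullMeasurableSet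
    rw [pi_pi, Finset.univ_eq_attach, Finset.prod_attach s fun i => μ.prod ν (t i)] at this
    rw [map_apply (MeasurableEquiv.measurable _)
      (MeasurableSet.pi s.countable_toSet fun i _ => ht i), ← this]
    congr 1
    ext v
    simp only [mem_preimage, Set.mem_pi, Finset.mem_coe, mem_univ, forall_const, Subtype.forall]
    rfl
  exact h.symm

theorem mp_inj {ι κ X : Type} [MeasurableSpace X] (m : Measure X) [IsProbabilityMeasure m]
    {j : ι → κ} (hj : Function.Injective j) :
    MeasurePreserving (fun (U : κ → X) i => U (j i)) (infinitePi fun _ => m)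
      (infinitePi fun _ => m) :=
  ⟨measurable_pi_lambda _ fun _ => measurable_pi_apply _,
    map_infinitePi_infinitePi_of_inj (P := fun _ => m) hj⟩

theorem mp_fin {ι κ X : Type} [Fintype ι] [MeasurableSpace X] (m : Measure X)
    [IsProbabilityMeasure m] {j : ι → κ} (hj : Function.Injective j) :
    MeasurePreserving (fun (U : κ → X) i => U (j i)) (infinitePi fun _ => m)
      (Measure.pi fun _ => m) := infinitePi_eq_pi (fun _ : ι => m) ▸ mp_inj m hj

/-- the law of the link variables and of the base data -/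
theorem mp_lnk (l : ℕ) (ν : Measure E3) [IsProbabilityMeasure ν] :
    MeasurePreserving (fun v : VB => (lnk l v, vo v)) (PB l ν)
      ((infinitePi fun _ : Lk => haar.prod (lq ν)).prod (OO l)) := by
  have h1 := mp_unzip (ι := St) (infinitePi fun _ : Lk => haar.prod (lq ν)) (unO l)
  have h2 : MeasurePreserving (MeasurableEquiv.curry St Lk LV).symm
      (infinitePi fun _ : St => infinitePi fun _ : Lk => haar.prod (lq ν))
      (infinitePi fun _ => haar.prod (lq ν)) :=
    ⟨MeasurableEquiv.measurable _, infinitePi_map_curry_symm fun _ _ => haar.prod (lq ν)⟩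
  have hj : Function.Injective fun f : Lk => (yo l f.1, (f.1 - up l (yo l f.1), f.2)) := by
    intro f f' h
    simp only [Prod.mk.injEq] at h
    obtain ⟨a1, a2, a3⟩ := h
    rw [a1, sub_left_inj] at a2
    exact Prod.ext a2 a3
  exact (((mp_inj _ hj).comp h2).prod (MeasurePreserving.id _)).comp h1

theorem mp_VB (l : ℕ) (ν : Measure E3) [IsProbabilityMeasure ν] :
    MeasurePreserving (fun v : VB => ((vU l v, vo v), fun f => (lnk l v f).2)) (PB l ν)
      ((PP.prod (OO l)).prod (ZQ ν)) := by
  have h1 := (mp_unzip (ι := Lk) haar (lq ν)).prod (MeasurePreserving.id (OO l))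
  have s1 := measurePreserving_prodAssoc PP (ZQ ν) (OO l)
  have s2 := (MeasurePreserving.id PP).prod (measurePreserving_swap (μ := ZQ ν) (ν := OO l))
  have s3 := (measurePreserving_prodAssoc PP (OO l) (ZQ ν)).symm
  exact (((s3.comp s2).comp s1).comp h1).comp (mp_lnk l ν)

/-- replacement of finitely many links by independent ones -/
theorem mp_ext {ι Ω : Type} [Fintype ι] [MeasurableSpace Ω] (μ : Measure Ω) [SFinite μ]
    {j : ι → Lk} (hj : Function.Injective j) :
    MeasurePreserving (fun w : (Conf × Ω) × (ι → S3) => (Function.extend j w.2 w.1.1, w.1.2))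
      ((PP.prod μ).prod (Measure.pi fun _ => haar)) (PP.prod μ) := by
  classical
  have mx : Measurable fun w : (Conf × Ω) × (ι → S3) => (Function.extend j w.2 w.1.1, w.1.2) := by
    refine Measurable.prodMk (measurable_pi_lambda _ fun e => ?_) measurable_fst.snd
    simp only [Function.extend_def]
    split_ifs
    exacts [(measurable_pi_apply _).comp measurable_snd,
      (measurable_pi_apply _).comp measurable_fst.fst]
  have r00 : MeasurePreserving (fun (U : Conf) i => U (j i)) PP (Measure.pi fun _ => haar) :=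
    mp_fin haar hj
  have r0 := (MeasurePreserving.id (PP.prod μ)).prod r00
  have s1 := measurePreserving_prodAssoc PP μ PP
  have s2 := (MeasurePreserving.id PP).prod (measurePreserving_swap (μ := μ) (ν := PP))
  have s3 := (measurePreserving_prodAssoc PP PP μ).symm
  have s4 := (mp_merge (· ∈ range j)).prod (MeasurePreserving.id μ)
  refine ⟨mx, ?_⟩
  rw [← r0.map_eq, map_map mx r0.measurable]
  convert (((s4.comp s3).comp s2).comp s1).map_eq using 2
  funext w
  refine Prod.ext (funext fun e => ?_) rfl
  change Function.extend j (fun i => w.2 (j i)) w.1.1 e = if e ∈ range j then w.2 e else w.1.1 e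
  split_ifs with he
  · obtain ⟨i, rfl⟩ := he
    rw [hj.extend_apply]
  · rw [Function.extend_apply' _ _ _ he]

end Cov

open Cov

variable {ν : Measure E3} {B : Set E3} {d : E3 → ℝ} {l n : ℕ} {S : Finset Lk}
  {act : Lk → Prop} {b : Conf} {a : S → E3} {P : (S → E3) →ₗ[ℝ] (S → E3)}
  {A : (Lk → E3) → Lk → E3}

/-- the Jacobian of the global change of variables -/
def jb (d : E3 → ℝ) (S : Finset Lk) (D : ℝ) (A z : Lk → E3) (s : Lk → Fin NG) : ℝ :=
  |D| * ∏ f ∈ S, NG * th (s f) (A f) * dH (A f) * d (z f)

/-- hypotheses of the change of variables: `S` is the set of active links of the torus and the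
fluctuation field `A z` of a periodic field `z` is the periodic extension of `a + P z` -/
structure CovOk (l n : ℕ) (B : Set E3) (S : Finset Lk) (act : Lk → Prop) (b : Conf) (a : S → E3)
    (P : (S → E3) →ₗ[ℝ] (S → E3)) (A : (Lk → E3) → Lk → E3) : Prop where
  odd : Odd n
  sub : S ⊆ ldom (LL l * n)
  act : ∀ f, act f ↔ (rc (LL l * n) f.1, f.2) ∈ S
  per : Per (LL l * n) b
  fld : ∀ z f (h : (rc (LL l * n) f.1, f.2) ∈ S),
    A (pc (LL l * n) z) f = a ⟨_, h⟩ + P (fun i => z i) ⟨_, h⟩
  det : LinearMap.det P ≠ 0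
  bd : ∀ z, (∀ i, ‖a i + P z i‖ ^ 2 ≤ 3) → ∀ i, z i ∈ B

/-- the global change of variables -/
theorem cov8_mp (h : Ref ν B d) (hc : CovOk l n B S act b a P A) :
    MeasurePreserving (fun v : VB =>
        (uq act b (A (vz l (pcs n v))) (vs l (pcs n v)) (vU l (pcs n v)), vo (pcs n v)))
      ((PB l ν).withDensity fun v => ENNReal.ofReal
        (jb d S (LinearMap.det P) (A (vz l (pcs n v))) (vz l (pcs n v)) (vs l (pcs n v))))
      ((PP.prod (OO l)).map fun v => (pc (LL l * n) v.1, pcs n v.2)) := by
  have := h.prob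
  have hn := hc.odd
  have hN := odd_fine (l := l) hn
  have hS : ∀ f ∈ S, (rc (LL l * n) f.1, f.2) = f := fun f hf =>
    Prod.ext (rc_eq hN (Finset.mem_product.1 (hc.sub hf)).1) rfl
  have hj : Function.Injective (Subtype.val : S → Lk) := Subtype.val_injective
  have mj := (meas_jq h a P).ennreal_ofReal
  have r1 := mp_fin (lq ν) hj
  have h1 := (mp_chq h (fun i : S => b i) a hc.det hc.bd).comp (mp_dens r1 mj)
  have h2 := (mp_ext (OO l) hj).comp ((MeasurePreserving.id (PP.prod (OO l))).prod h1)
  have mJ : Measurable fun w : Lk → XQ => ENNReal.ofReal (jq d a P fun i => w i) :=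
    mj.comp r1.measurable
  rw [prod_withDensity_right mJ] at h2
  have h3 := h2.comp (mp_dens (mp_VB l ν) (mJ.comp measurable_snd))
  have h4 : MeasurePreserving (fun v : Conf × (St → Om) => (pc (LL l * n) v.1, pcs n v.2))
      (PP.prod (OO l)) _ := ⟨Mx.meas_pp _ _, rfl⟩
  convert h4.comp h3 using 1
  · funext v
    refine Prod.ext (funext fun f => ?_) rfl
    rw [vz_pcs hn, vs_pcs hn, vU_pcs hn]
    change uq act b _ _ _ f = Function.extend Subtype.val
      (chq (fun i : S => b i) a P fun i => (lnk l v i).2) (vU l v) (rc (LL l * n) f.1, f.2)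
    by_cases hf : (rc (LL l * n) f.1, f.2) ∈ S
    · refine Eq.trans ?_ (hj.extend_apply _ _ ⟨_, hf⟩).symm
      rw [uq, if_pos ((hc.act f).2 hf), hc.fld _ _ hf]
      have e : b f = b (rc (LL l * n) f.1, f.2) :=
        Mx.per_iff.1 hc.per _ _ _ (Mx.cg_of_rc (rc_rc _ _).symm)
      rw [e]
      rfl
    · rw [uq, if_neg fun hx => hf ((hc.act f).1 hx), Function.extend_apply' _ _ _ (by
        rintro ⟨i, hi⟩
        exact hf (hi ▸ i.2))]
      rfl
  · congr 1
    funext v
    congr 1
    rw [vz_pcs hn, vs_pcs hn, jb, ← Finset.prod_coe_sort]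
    change _ = jq d a P fun i => (lnk l v i).2
    rw [jq]
    congr 1
    refine Finset.prod_congr rfl fun i _ => ?_
    have e := hS i i.2
    rw [hc.fld _ _ (by rw [e]; exact i.2)]
    simp only [pc, e]
    rfl

theorem jb_nonneg (h : Ref ν B d) (S : Finset Lk) (D : ℝ) (A z : Lk → E3) (s : Lk → Fin NG) :
    0 ≤ jb d S D A z s :=
  mul_nonneg (abs_nonneg _) (Finset.prod_nonneg fun _ _ => mul_nonneg (mul_nonneg
    (mul_nonneg (Nat.cast_nonneg _) (th_nonneg _ _)) (dH_nonneg _)) (h.nn _))

/-- the global change of variables, complex functions -/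
theorem cov8 (h : Ref ν B d) (hc : CovOk l n B S act b a P A) (hA : Measurable A)
    {F : Conf × (St → Om) → ℂ} (hF : Measurable F) {G : VB → ℂ}
    (hG : ∀ v, G v = F (uq act b (A (vz l v)) (vs l v) (vU l v), vo v) *
      (jb d S (LinearMap.det P) (A (vz l v)) (vz l v) (vs l v) : ℝ)) :
    ∫ v : Conf × (St → Om), F (pc (LL l * n) v.1, pcs n v.2) ∂(PP.prod (OO l)) =
      ∫ v, G (pcs n v) ∂PB l ν ∧
    ((∃ M, ∀ v, ‖F v‖ ≤ M) → Integrable (fun v => G (pcs n v)) (PB l ν)) := by
  have := h.prob
  have hm := cov8_mp h hc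
  have mz := (meas_vz l).comp (Mx.meas_pcs (α := BV) n)
  have ms := (meas_vs l).comp (Mx.meas_pcs (α := BV) n)
  have mJ : Measurable fun v : VB => ENNReal.ofReal
      (jb d S (LinearMap.det P) (A (vz l (pcs n v))) (vz l (pcs n v)) (vs l (pcs n v))) := by
    refine (measurable_const.mul (Finset.measurable_fun_prod _ fun f _ => ?_)).ennreal_ofReal
    have m1 := (measurable_pi_apply f).comp (hA.comp mz)
    exact (((meas_th.comp (((measurable_pi_apply f).comp ms).prodMk m1)).const_mul _).mul
      (meas_dH.comp m1)).mul (h.md.comp ((measurable_pi_apply f).comp mz))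
  have e : ∀ v : VB, G (pcs n v) = (ENNReal.ofReal
      (jb d S (LinearMap.det P) (A (vz l (pcs n v))) (vz l (pcs n v)) (vs l (pcs n v)))).toReal •
      F (uq act b (A (vz l (pcs n v))) (vs l (pcs n v)) (vU l (pcs n v)), vo (pcs n v)) := by
    intro v
    rw [hG, ENNReal.toReal_ofReal (jb_nonneg h _ _ _ _ _), Complex.real_smul, mul_comm]
  simp only [e]
  constructor
  · rw [← integral_map (Mx.meas_pp _ _).aemeasurable hF.aestronglyMeasurable, ← hm.map_eq,
      integral_map hm.measurable.aemeasurable hF.aestronglyMeasurable,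
      integral_withDensity_eq_integral_toReal_smul mJ (.of_forall fun _ => ENNReal.ofReal_lt_top)]
  · rintro ⟨M, hM⟩
    have : IsProbabilityMeasure ((PP.prod (OO l)).map
        fun v : Conf × (St → Om) => (pc (LL l * n) v.1, pcs n v.2)) :=
      isProbabilityMeasure_map (Mx.meas_pp _ _).aemeasurable
    exact (integrable_withDensity_iff_integrable_smul' mJ
      (.of_forall fun _ => ENNReal.ofReal_lt_top)).1 ((hm.integrable_comp
        hF.aestronglyMeasurable).2 (.of_bound hF.aestronglyMeasurable M (.of_forall hM)))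

end Pool.Agent.Lib.MP_7f377f_mp.RG.Q4
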