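import Pool.Agent.Lib.MP_7f377f_mp.G.Q4CovB

/-! Invariance, locality, conditioning and volume bounds for the block variables. -/

noncomputable section

set_option linter.unusedSectionVars false
variable [Pool.Agent.Lib.MP_7f377f_mp.GD]

namespace Pool.Agent.Lib.MP_7f377f_mp.RG.Q4

open MeasureTheory Measure Set Ms
open scoped ENNReal

open Classical in
/-- the links of a block which are not in the tree -/
def ntr (l : ℕ) : Finset Lk := (lbox l).filter fun t => ¬ tree l t

open Classical in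
/-- indicator of the good values of the variables of a block -/
def gd (l : ℕ) (ζ : ℝ) (β : BV) : ℝ :=
  if (∀ t ∈ ntr l, ‖(β.1 t).2.1‖ ≤ ζ ∧ (β.1 t).2.2 = 0) ∧ β.2.1 = 0 then 1 else 0

/-- probability of the good values, `Z` being the mass of the Gaussian weight -/
def cgd (l : ℕ) (ζ Z : ℝ) : ℝ := ((LL l : ℝ) ^ 4)⁻¹ * (zn ζ / (NG * Z)) ^ (ntr l).card

namespace Cov

variable {l n : ℕ} {ν : Measure E3}

/-! ### locality -/

theorem rc_mem_tb {R : ℕ} {X : Finset St} {y x : St} (hy : rc n y ∈ X) (hx : x ∈ box R) :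
    rc n (x + y) ∈ tb n R X :=
  mem_tb.2 ⟨rc_rc _ _, _, hy, nearT_rc_left.2 (nearT_rc_right.2 (add_comm y x ▸ nearT_add hx))⟩

/-! ### invariance -/

theorem nu_rot (ζ : ℝ) (T : E3 ≃ₗᵢ[ℝ] E3) : MeasurePreserving T (nu ζ) (nu ζ) := by
  have m := T.continuous.measurable
  have : (nu0 ζ).map T = nu0 ζ := Measure.ext fun s hs => by
    rw [Measure.map_apply m hs, nu0, withDensity_apply _ hs, withDensity_apply _ (m hs),
      Measure.restrict_restrict hs, Measure.restrict_restrict (m hs),
      ← T.measurePreserving.setLIntegral_comp_preimage (hs.inter measurableSet_closedBall)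
        (by fun_prop)]
    simp [Set.preimage_inter]
  exact ⟨m, by rw [nu, Measure.map_smul, this]⟩

theorem nuI_rot {ζ : ℝ} (h : 0 < ζ) (T : Lk → E3 ≃ₗᵢ[ℝ] E3) :
    MeasurePreserving (fun (z : Lk → E3) f => T f (z f)) (nuI ζ) (nuI ζ) := by
  have := nu_prob h
  refine ⟨measurable_pi_lambda _ fun f => (nu_rot ζ (T f)).measurable.comp
    (measurable_pi_apply f), ?_⟩
  exact (infinitePi_map_pi _ fun f => (nu_rot ζ (T f)).measurable).trans
    (by simp only [fun f => (nu_rot ζ (T f)).map_eq, nuI])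

theorem meas_pc {α : Type} [MeasurableSpace α] (n : ℕ) : Measurable (pc (α := α) n) :=
  measurable_pi_lambda _ fun _ => measurable_pi_apply _

/-- rotations and translations of the periodised fluctuation field -/
theorem int_rot {ζ : ℝ} (h : 0 < ζ) (N : ℕ) (x : St) {T : Lk → E3 ≃ₗᵢ[ℝ] E3}
    (hT : ∀ f, T (rc N f.1, f.2) = T f) {Φ : (Lk → E3) → ℂ} (hΦ : Measurable Φ) :
    ∫ z, Φ (fun f => T f (sh x (pc N z) f)) ∂nuI ζ = ∫ z, Φ (pc N z) ∂nuI ζ := by
  have := nu_prob h
  have e := Mx.map_rel (nu ζ) (T := fun f => T f) (r := Mx.rl N) (φ := fun f => (f.1 + x, f.2))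
    (fun f => nu_rot ζ (T f)) (Mx.rl_rl N) (Mx.rel_sh N x) fun f => congrArg _ (hT f)
  have m : Measurable fun (z : Lk → E3) f => T f (sh x (pc N z) f) := measurable_pi_lambda _
    fun f => (nu_rot ζ (T f)).measurable.comp (measurable_pi_apply _)
  rw [← integral_map m.aemeasurable hΦ.aestronglyMeasurable,
    ← integral_map (meas_pc N).aemeasurable hΦ.aestronglyMeasurable]
  exact congrArg (integral · Φ) e

/-- a function of the links in the fundamental domain does not see the periodisation -/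
theorem pc_agr {α : Type} {N R : ℕ} (hN : Odd N) (h : R ≤ N / 2) (z : Lk → α) :
    Agr R (pc N z) z := fun e he => by
  have := mem_box.1 (Finset.mem_product.1 he).1
  rw [pc, rc_eq hN (mem_box.2 fun i => by have := this i; omega)]

/-! ### conditioning -/

/-- tilting of finitely many coordinates -/
theorem tilt {ι X X' : Type} [MeasurableSpace X] [MeasurableSpace X'] [Nonempty X']
    {m : Measure X} {m' : Measure X'} [IsProbabilityMeasure m] [IsProbabilityMeasure m']
    {ρ : X → ℝ} (hρ : Measurable ρ) (h0 : ∀ x, 0 ≤ ρ x) {π : X → X'} (hπ : Measurable π) {c : ℝ}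
    (hc : 0 ≤ c) (h : (m.withDensity fun x => ENNReal.ofReal (ρ x)).map π = ENNReal.ofReal c • m')
    (S : Finset ι) {F : (ι → X') → ℂ} (hF : Measurable F) (hS : DependsOn F S) :
    ∫ v, ((∏ i ∈ S, ρ (v i) : ℝ) : ℂ) * F (fun i => π (v i)) ∂(infinitePi fun _ => m) =
      (c ^ S.card : ℝ) * ∫ w, F w ∂(infinitePi fun _ => m') := by
  classical
  have hj : Function.Injective (Subtype.val : S → ι) := Subtype.val_injective
  obtain ⟨o⟩ := ‹Nonempty X'›
  set E : (S → X') → ι → X' := fun w => Function.extend Subtype.val w fun _ => o with hE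
  have mE : Measurable E := by
    refine measurable_pi_lambda _ fun e => ?_
    simp only [hE, Function.extend_def]
    split_ifs
    exacts [measurable_pi_apply _, measurable_const]
  have eF : ∀ w : ι → X', F w = F (E fun i => w i) := fun w =>
    hS fun i hi => (hj.extend_apply (fun i : S => w i) _ ⟨i, hi⟩).symm
  have mρ := hρ.ennreal_ofReal
  have f1 : IsFiniteMeasure (m.withDensity fun x => ENNReal.ofReal (ρ x)) := ⟨by
    have := congrArg (· univ) h
    simp only [map_apply hπ MeasurableSet.univ, preimage_univ] at this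
    rw [this]
    simp⟩
  have mc : MeasurePreserving π (m.withDensity fun x => ENNReal.ofReal (ρ x))
      (m'.withDensity fun _ => ENNReal.ofReal c) := ⟨hπ, by rw [h, withDensity_const]⟩
  have f2 : IsFiniteMeasure (m'.withDensity fun _ => ENNReal.ofReal c) :=
    isFiniteMeasure_withDensity (by simp)
  have h2 := measurePreserving_pi (fun _ : S => _) (fun _ => _) fun _ => mc
  rw [pi_dens _ fun _ => mρ, pi_dens _ fun _ => measurable_const, withDensity_const] at h2
  have mP : Measurable fun w : S → X => ∏ i, ENNReal.ofReal (ρ (w i)) :=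
    Finset.measurable_fun_prod _ fun i _ => mρ.comp (measurable_pi_apply i)
  have h3 := h2.comp (mp_dens (mp_fin m hj) mP)
  have mFE := hF.comp mE
  have e1 := integral_map (μ := (infinitePi fun _ => m).withDensity
    fun x : ι → X => ∏ e : S, ENNReal.ofReal (ρ (x e))) h3.measurable.aemeasurable mFE.aestronglyMeasurable
  have mP' : Measurable fun x : ι → X => ∏ e : S, ENNReal.ofReal (ρ (x e)) :=
    mP.comp (mp_fin m hj).measurable
  rw [h3.map_eq, integral_smul_measure, integral_withDensity_eq_integral_toReal_smul mP'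
    (.of_forall fun _ => ENNReal.prod_lt_top fun _ _ => ENNReal.ofReal_lt_top),
    ← (mp_fin m' hj).map_eq, integral_map (mp_fin m' hj).measurable.aemeasurable
      mFE.aestronglyMeasurable] at e1
  simp only [Function.comp, ← eF, ENNReal.toReal_prod, ENNReal.toReal_ofReal (h0 _),
    ENNReal.toReal_pow, ENNReal.toReal_ofReal hc, Finset.prod_const, Finset.card_univ, Fintype.card_coe,
    Complex.real_smul] at e1
  rw [e1]
  refine integral_congr_ae (.of_forall fun v => ?_)
  simp only
  rw [Finset.prod_coe_sort S fun i => ρ (v i), eF fun i => π (v i)]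

/-- `ν` is the Gaussian measure conditioned on a set which contains the ball of radius `ζ` -/
def Gs (ν : Measure E3) (ζ Z : ℝ) : Prop :=
  0 < Z ∧ ν.restrict (Metric.closedBall 0 ζ) = (ENNReal.ofReal Z)⁻¹ • nu0 ζ

theorem gs_nu {ζ ζ' : ℝ} (h : 0 < ζ') (h' : ζ ≤ ζ') : Gs (nu ζ') ζ (zn ζ') := by
  refine ⟨zn_pos h, ?_⟩
  rw [nu, Measure.restrict_smul, zn, ENNReal.ofReal_toReal (nu0_fin _), nu0, nu0,
    restrict_withDensity measurableSet_closedBall,
    Measure.restrict_restrict_of_subset (Metric.closedBall_subset_closedBall h')]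

open Classical in
/-- indicator of the good values of the variables of a link -/
def g1 (ζ : ℝ) (w : LV) : ℝ := if ‖w.2.1‖ ≤ ζ ∧ w.2.2 = 0 then 1 else 0

theorem meas_good (ζ : ℝ) : MeasurableSet {w : LV | ‖w.2.1‖ ≤ ζ ∧ w.2.2 = 0} :=
  (measurableSet_le measurable_snd.fst.norm measurable_const).inter
    (measurable_snd.snd (measurableSet_singleton 0))

theorem meas_g1 (ζ : ℝ) : Measurable (g1 ζ) :=
  Measurable.ite (meas_good ζ) measurable_const measurable_const

theorem link_law [IsProbabilityMeasure ν] {ζ Z : ℝ} (hζ : 0 < ζ) (h : Gs ν ζ Z) :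
    ((haar.prod (lq ν)).withDensity fun w => ENNReal.ofReal (g1 ζ w)).map (·.2.1) =
      ENNReal.ofReal (zn ζ / (NG * Z)) • nu ζ := by
  have e : (fun w => ENNReal.ofReal (g1 ζ w)) =
      (univ ×ˢ Metric.closedBall (0 : E3) ζ ×ˢ ({0} : Set (Fin NG))).indicator 1 := by
    funext w
    simp only [g1, indicator, mem_prod, mem_univ, true_and, mem_closedBall_zero_iff,
      mem_singleton_iff]
    split_ifs <;> simp
  rw [e, withDensity_indicator_one (MeasurableSet.univ.prod
    (measurableSet_closedBall.prod (measurableSet_singleton _))), ← prod_restrict, lq,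
    ← prod_restrict, Measure.restrict_univ, h.2]
  have m : Measurable (Prod.fst : XQ → E3) := measurable_fst
  rw [show (fun w : LV => w.2.1) = Prod.fst ∘ Prod.snd from rfl, ← map_map m measurable_snd]
  have : IsFiniteMeasure (nu0 ζ) := ⟨(nu0_fin ζ).lt_top⟩
  rw [map_snd_prod, measure_univ, one_smul, map_fst_prod, nu, smul_smul, smul_smul]
  congr 1
  rw [ENNReal.ofReal_div_of_pos (by nlinarith [h.1, NG_one]), zn, ENNReal.ofReal_toReal (nu0_fin _),
    ENNReal.ofReal_mul (Nat.cast_nonneg _), ENNReal.div_eq_inv_mul, mul_assoc,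
    ENNReal.mul_inv_cancel (nu0_pos hζ) (nu0_fin _), mul_one,
    ENNReal.mul_inv (by simp) (by simp)]
  simp [u8]

theorem gd_eq (l : ℕ) (ζ : ℝ) (β : BV) :
    gd l ζ β = (∏ t ∈ ntr l, g1 ζ (β.1 t)) * if β.2.1 = 0 then 1 else 0 := by
  classical
  simp only [gd, g1, Finset.prod_ite_zero, Finset.prod_const_one]
  by_cases h1 : β.2.1 = 0 <;> simp [h1]

theorem gd_cases (l : ℕ) (ζ : ℝ) (β : BV) : gd l ζ β = 0 ∨ gd l ζ β = 1 := by
  unfold gd
  split_ifs <;> simp

theorem meas_gd (l : ℕ) (ζ : ℝ) : Measurable (gd l ζ) := by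
  have : gd l ζ = _ := funext (gd_eq l ζ)
  rw [this]
  exact (Finset.measurable_fun_prod _ fun t _ =>
    (meas_g1 ζ).comp ((measurable_pi_apply t).comp measurable_fst)).mul
    ((Measurable.of_discrete (f := fun ω : Om => if ω.1 = 0 then (1 : ℝ) else 0)).comp
      measurable_snd)

theorem tree_up (l : ℕ) (t : Lk) (y : St) : tree l (t.1 + up l y, t.2) ↔ tree l t :=
  tree_add_up l t.1 y t.2

/-- the meaning of the good event -/
theorem gd_iff {ζ : ℝ} {v : VB} {y : St} : gd l ζ (v y) ≠ 0 ↔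
    (∀ f, yo l f.1 = y → ¬ tree l f → ‖vz l v f‖ ≤ ζ ∧ vs l v f = 0) ∧ (vo v y).1 = 0 := by
  rw [gd, ite_ne_right_iff, and_iff_left one_ne_zero]
  simp only [ntr, Finset.mem_filter]
  refine and_congr ⟨fun h f hf ht => ?_, fun h t ht => ?_⟩ Iff.rfl
  · subst hf
    refine h (f.1 - up l (yo l f.1), f.2) ⟨Finset.mem_product.2
      ⟨sub_up_yo_mem l f.1, Finset.mem_univ _⟩, fun hc => ht ?_⟩
    simpa using (tree_up l _ (yo l f.1)).2 hc
  · have := h (t.1 + up l y, t.2) (by
      rw [yo_add_up, yo_of_mem (Finset.mem_product.1 ht.1).1, zero_add])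
      fun hc => ht.2 ((tree_up l t y).1 hc)
    simpa only [vz, vs, lnk_up l v y ht.1] using this

theorem cgd_pos (l : ℕ) {ζ Z : ℝ} (hζ : 0 < ζ) (hZ : 0 < Z) : 0 < cgd l ζ Z := by
  have := zn_pos hζ
  have : 0 < LL l := by simp [LL]
  have := one_pos.trans_le NG_one
  unfold cgd
  positivity

end Cov

open Cov

/-- on good blocks the fluctuation variables have the truncated Gaussian law -/
theorem calm_int {l n : ℕ} (hn : Odd n) {ν : Measure E3} [IsProbabilityMeasure ν] {ζ Z : ℝ}
    (hζ : 0 < ζ) (h : Gs ν ζ Z) {Y : Finset St} {Φ : (Lk → E3) → ℂ}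
    (hΦ : Measurable Φ) (hd : DependsOn Φ {f | ¬ tree l f ∧ rc n (yo l f.1) ∈ Y}) :
    ∫ v, ((∏ y ∈ Y, gd l ζ (v y) : ℝ) : ℂ) * Φ (vz l (pcs n v)) ∂PB l ν =
      (cgd l ζ Z ^ Y.card : ℝ) * ∫ z, Φ (pc (LL l * n) z) ∂nuI ζ := by
  classical
  have := nu_prob hζ
  have hj : Set.InjOn (fun p : St × Lk => (p.2.1 + up l p.1, p.2.2)) (Y ×ˢ ntr l : Finset _) := by
    intro p hp q hq e
    have a1 := (Finset.mem_product.1 (Finset.mem_filter.1 (Finset.mem_product.1 hp).2).1).1
    have a2 := (Finset.mem_product.1 (Finset.mem_filter.1 (Finset.mem_product.1 hq).2).1).1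
    simp only [Prod.mk.injEq] at e
    have e1 := congrArg (yo l) e.1
    rw [yo_add_up, yo_add_up, yo_of_mem a1, yo_of_mem a2, zero_add, zero_add] at e1
    rw [e1] at e
    exact Prod.ext e1 (Prod.ext (add_right_cancel e.1) e.2)
  set S := (Y ×ˢ ntr l).image fun p : St × Lk => (p.2.1 + up l p.1, p.2.2) with hS
  have mΦ := hΦ.comp (meas_pc (LL l * n))
  have dΦ : DependsOn (Φ ∘ pc (LL l * n)) S := by
    intro z z' e
    refine hd fun f hf => e _ (Finset.mem_image.2 ⟨(rc n (yo l f.1),
      (rc (LL l * n) f.1 - up l (rc n (yo l f.1)), f.2)), Finset.mem_product.2 ⟨hf.2,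
      Finset.mem_filter.2 ⟨Finset.mem_product.2 ⟨?_, Finset.mem_univ _⟩, fun hc => hf.1 ?_⟩⟩, ?_⟩)
    · rw [← yo_rc hn]
      exact sub_up_yo_mem l _
    · have := (tree_up l _ (rc n (yo l f.1))).2 hc
      simp only [sub_add_cancel] at this
      exact (Mx.tree_rl l n f).1 this
    · simp
  have h1 := tilt (meas_g1 ζ) (fun w => by unfold g1; split_ifs <;> simp) measurable_snd.fst
    (div_pos (zn_pos hζ) (by nlinarith [h.1, NG_one])).le (link_law hζ h) S mΦ dΦ
  have h2 : ∫ ω : St → Om, ((∏ y ∈ Y, if (ω y).1 = 0 then 1 else 0 : ℝ) : ℂ) ∂OO l =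
      ((((LL l : ℝ) ^ 4)⁻¹) ^ Y.card : ℝ) := by
    have mf : Measurable fun ω : Om => if ω.1 = 0 then (1 : ℝ) else 0 := Measurable.of_discrete
    have r := mp_fin (unO l) (Subtype.val_injective (p := (· ∈ Y)))
    have e := integral_map (μ := OO l) r.measurable.aemeasurable
      (f := fun w : Y → Om => ∏ y, if (w y).1 = 0 then (1 : ℝ) else 0)
      (Finset.measurable_fun_prod _ fun y _ =>
        mf.comp (measurable_pi_apply y)).aestronglyMeasurable
    rw [OO, r.map_eq, integral_fintype_prod_eq_pow fun ω : Om => if ω.1 = 0 then (1 : ℝ) else 0,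
      Mx.int_unO l fun p => if p = 0 then 1 else 0, Finset.sum_ite_eq', if_pos (zero_mem_box l),
      mul_one, Fintype.card_coe] at e
    rw [integral_complex_ofReal, e]
    congr 1
    refine integral_congr_ae (.of_forall fun ω => ?_)
    exact (Finset.prod_coe_sort Y fun y => if (ω y).1 = 0 then (1 : ℝ) else 0).symm
  have hm := mp_lnk l ν
  set F1 : (Lk → LV) → ℂ := fun w => ((∏ f ∈ S, g1 ζ (w f) : ℝ) : ℂ) *
    (Φ ∘ pc (LL l * n)) fun f => (w f).2.1 with hF1
  set F2 : (St → Om) → ℂ := fun ω => ((∏ y ∈ Y, if (ω y).1 = 0 then 1 else 0 : ℝ) : ℂ) with hF2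
  have m1 : Measurable F1 := (Complex.measurable_ofReal.comp (Finset.measurable_fun_prod _
    fun f _ => (meas_g1 ζ).comp (measurable_pi_apply f))).mul
    (mΦ.comp (measurable_pi_lambda _ fun f => (measurable_pi_apply f).snd.fst))
  have m2 : Measurable F2 := Complex.measurable_ofReal.comp (Finset.measurable_fun_prod _
    fun y _ => (Measurable.of_discrete (f := fun ω : Om => if ω.1 = 0 then (1 : ℝ) else 0)).comp
      (measurable_pi_apply y))
  have e := integral_map (μ := PB l ν) hm.measurable.aemeasurable (f := fun p => F1 p.1 * F2 p.2)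
    ((m1.comp measurable_fst).mul (m2.comp measurable_snd)).aestronglyMeasurable
  rw [hm.map_eq, integral_prod_mul, h1, h2, hS, Finset.card_image_of_injOn hj,
    Finset.card_product] at e
  calc _ = ∫ v, F1 (lnk l v) * F2 (vo v) ∂PB l ν := by
        refine integral_congr_ae (.of_forall fun v => ?_)
        simp only [hF1, hF2, hS, gd_eq, Finset.prod_mul_distrib, vz_pcs hn]
        have e3 : ∏ y ∈ Y, ∏ t ∈ ntr l, g1 ζ (lnk l v (t.1 + up l y, t.2)) =
            ∏ y ∈ Y, ∏ t ∈ ntr l, g1 ζ ((v y).1 t) := Finset.prod_congr rfl fun y _ =>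
          Finset.prod_congr rfl fun t ht => congrArg (g1 ζ)
            (lnk_up l v y (Finset.mem_filter.1 ht).1)
        rw [Finset.prod_image hj, Finset.prod_product, e3]
        push_cast
        change _ = _ * Φ (pc (LL l * n) (vz l v)) * ∏ y ∈ Y, ((if (v y).2.1 = 0 then 1 else 0 : ℝ) : ℂ)
        ring
    _ = _ := by
        rw [← e, cgd, mul_pow, ← pow_mul, mul_comm (ntr l).card]
        push_cast
        change _ * (∫ z, Φ (pc (LL l * n) z) ∂nuI ζ) * _ = _
        ring

theorem int_gd (l : ℕ) {ν : Measure E3} [IsProbabilityMeasure ν] {ζ Z : ℝ} (hζ : 0 < ζ)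
    (h : Gs ν ζ Z) {Y : Finset St} :
    ∫ v, ((∏ y ∈ Y, gd l ζ (v y) : ℝ) : ℂ) ∂PB l ν = (cgd l ζ Z ^ Y.card : ℝ) := by
  have := nuI_prob hζ
  simpa using calm_int (l := l) odd_one hζ h (Y := Y) (Φ := fun _ => 1) measurable_const
    fun _ _ _ => rfl

/-! ### the volume bound -/

theorem ae_vz (l : ℕ) {ζ : ℝ} (hζ : 0 < ζ) : ∀ᵐ v ∂PB l (nu ζ), ∀ f, ‖vz l v f‖ ≤ ζ := by
  have := nu_prob hζ
  refine ae_all_iff.2 fun f => ?_
  have h1 : MeasurePreserving (fun v => vz l v f) (PB l (nu ζ)) (nu ζ) :=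
    ((measurePreserving_fst.comp (measurePreserving_eval_infinitePi (fun _ => lq (nu ζ)) f)).comp
      measurePreserving_snd).comp (mp_VB l (nu ζ))
  refine h1.quasiMeasurePreserving.ae (p := fun z => ‖z‖ ≤ ζ) ?_
  refine ae_smul_measure (withDensity_absolutelyContinuous _ _ ?_) _
  filter_upwards [ae_restrict_mem measurableSet_closedBall] with z hz
  exact mem_closedBall_zero_iff.1 hz

theorem vol_ball {ζ : ℝ} (hζ : 0 ≤ ζ) :
    volume (Metric.closedBall (0 : E3) ζ) ≤ ENNReal.ofReal ((2 * ζ) ^ GD.d) := by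
  have h := (EuclideanSpace.volume_preserving_symm_measurableEquiv_toLp (Fin GD.d)).measure_preimage
    (s := Metric.closedBall 0 ζ) measurableSet_closedBall.nullMeasurableSet
  rw [Real.volume_pi_closedBall _ hζ, Fintype.card_fin] at h
  rw [← h]
  refine measure_mono fun z hz => ?_
  rw [mem_closedBall_zero_iff] at hz
  simp only [mem_preimage, mem_closedBall_zero_iff]
  exact (pi_norm_le_iff_of_nonneg hζ).2 fun i => (PiLp.norm_apply_le z i).trans hz

end Pool.Agent.Lib.MP_7f377f_mp.RG.Q4
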