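import Pool.Agent.Lib.MP_7f377f_mp.G.Q4CubeA
import Pool.Agent.Lib.MP_7f377f_mp.KitHol
import Pool.Agent.Lib.MP_7f377f_mp.RGAp0
import Pool.Agent.Lib.MP_7f377f_mp.G.RGAp1

/-! Cubes: exponentials, integrals, the Schwarz lemma, holomorphic functions and cutoffs. -/

noncomputable section

set_option linter.unusedSectionVars false
variable [Pool.Agent.Lib.MP_7f377f_mp.GD]

namespace Pool.Agent.Lib.MP_7f377f_mp.RG.Q4

open Finset MeasureTheory Function
open scoped Pointwise Topology

variable {A B : Type} [NormedAddCommGroup A] [NormedAddCommGroup B] {η : Fin 3 → ℝ} {η0 : ℝ}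

namespace Cb

theorem w_pos (h : Eta η0 η) (S : Finset (Fin 3)) : 0 < ∏ i ∈ S, η i :=
  prod_pos fun i _ => (h i).1

theorem le_cN (h : Eta η0 η) (f : Vx → A) (τ : Finset (Fin 3) → Vx) :
    ∑ S, ‖dS S f (τ S)‖ / ∏ i ∈ S, η i ≤ cN η f :=
  sum_le_sum fun S _ => div_le_div_of_nonneg_right
    (le_ciSup (f := fun T => ‖dS S f T‖) (Set.finite_range _).bddAbove _) (w_pos h S).le

theorem exists_cN (η : Fin 3 → ℝ) (f : Vx → A) :
    ∃ τ : Finset (Fin 3) → Vx, cN η f = ∑ S, ‖dS S f (τ S)‖ / ∏ i ∈ S, η i := by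
  choose τ hτ using fun S => exists_eq_ciSup_of_finite (f := fun T => ‖dS S f T‖)
  exact ⟨τ, sum_congr rfl fun S _ => by rw [hτ]⟩

theorem cN_le (h : Eta η0 η) (f : Vx → A) {M : ℝ}
    (hf : ∀ S T, ‖dS S f T‖ ≤ M * ∏ i ∈ S, η i) : cN η f ≤ 8 * M := by
  obtain ⟨τ, e⟩ := exists_cN η f
  rw [e]
  refine (sum_le_card_nsmul _ _ M fun S _ => (div_le_iff₀ (w_pos h S)).2 (hf S _)).trans ?_
  simp

theorem dS_ins {E : Type} [AddCommGroup E] {S : Finset (Fin 3)} {i : Fin 3} (hi : i ∉ S)
    (f : Vx → E) (T : Vx) :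
    dS (insert i S) f T = dS S (fun T => f (update T i true) - f (update T i false)) T := by
  unfold dS
  rw [sum_powerset_insert hi, add_comm, ← sum_add_distrib]
  refine sum_congr rfl fun S' hS' => ?_
  have hs := mem_powerset.1 hS'
  have hi' : i ∉ S' := fun h => hi (hs h)
  have c := card_le_card hs
  rw [card_insert_of_notMem hi, card_insert_of_notMem hi', Nat.add_sub_add_right,
    show S.card + 1 - S'.card = S.card - S'.card + 1 by omega, pow_succ, smul_sub, mul_neg_one,
    neg_smul, sub_eq_add_neg]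
  congr 4
  · funext j
    by_cases e : j = i
    · simp [e]
    · simp [e]
  · funext j
    by_cases e : j = i
    · simp [e, hi']
    · simp [e]

theorem cN_lim (h : Eta η0 η) {f : ℕ → Vx → A} {g : Vx → A} {M : ℝ}
    (hf : ∀ T, Filter.Tendsto (fun n => f n T) Filter.atTop (𝓝 (g T)))
    (hM : ∀ n, cN η (f n) ≤ M) : cN η g ≤ M := by
  obtain ⟨τ, e⟩ := exists_cN η g
  rw [e]
  refine le_of_tendsto' (f := fun n => ∑ S, ‖dS S (f n) (τ S)‖ / ∏ i ∈ S, η i)
    (x := Filter.atTop) ?_ fun n => (le_cN h _ τ).trans (hM n)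
  refine tendsto_finsetSum _ fun S _ => Filter.Tendsto.div_const (Filter.Tendsto.norm ?_) _
  exact tendsto_finsetSum _ fun S' _ => (hf _).const_smul _

theorem cN_hasSum (h : Eta η0 η) {g : ℕ → Vx → A} {G : Vx → A} {m : ℕ → ℝ} {M : ℝ}
    (hg : ∀ T, HasSum (fun n => g n T) (G T)) (hm : ∀ n, cN η (g n) ≤ m n) (hM : HasSum m M) :
    cN η G ≤ M :=
  cN_lim h (fun T => (hg T).tendsto_sum_nat) fun _ => (cN_sum h _ _).trans
    ((sum_le_sum fun i _ => hm i).trans
      (sum_le_hasSum _ (fun i _ => (cN_nonneg h _).trans (hm i)) hM))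

theorem cN_tail (h : Eta η0 η) (f : Vx → ℂ) (j : ℕ) :
    cN η (fun T => Complex.exp (f T) - ∑ k ∈ range j, f T ^ k / k.factorial) ≤
      cN η f ^ j * Real.exp (cN η f) := by
  have h0 := cN_nonneg h f
  refine cN_hasSum h (g := fun n T => f T ^ (n + j) / (n + j).factorial)
    (m := fun n => cN η f ^ j * (cN η f ^ n / n.factorial)) (fun T => ?_) (fun n => ?_) ?_
  · have := NormedSpace.expSeries_div_hasSum_exp (f T)
    rw [← Complex.exp_eq_exp_ℂ] at this
    exact (hasSum_nat_add_iff' j).2 this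
  · have e : (fun T => f T ^ (n + j) / ((n + j).factorial : ℂ)) =
        fun T => (fun _ : Vx => (((n + j).factorial : ℂ))⁻¹) T * (fun T => f T ^ (n + j)) T := by
      funext T
      simp [div_eq_inv_mul]
    rw [e]
    refine (cN_mul h _ _).trans ?_
    rw [cN_const, norm_inv, Complex.norm_natCast, mul_div_assoc', ← pow_add, add_comm j n,
      div_eq_inv_mul]
    have : (n.factorial : ℝ) ≤ (n + j).factorial := by
      exact_mod_cast Nat.factorial_le (Nat.le_add_right n j)
    have p : (0 : ℝ) < n.factorial := by positivity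
    exact mul_le_mul (inv_anti₀ p this) (cN_pow h f _) (cN_nonneg h _) (by positivity)
  · have := NormedSpace.expSeries_div_hasSum_exp (cN η f)
    rw [← Real.exp_eq_exp_ℝ] at this
    exact this.mul_left _

end Cb

open Cb

theorem cN_exp (h : Eta η0 η) (f : Vx → ℂ) :
    cN η (fun T => Complex.exp (f T)) ≤ Real.exp ((f o3).re + cV η f) ∧
    cN η (fun T => Complex.exp (f T) - 1) ≤ cN η f * Real.exp (cN η f) ∧
    cN η (fun T => Complex.exp (f T) - 1 - f T) ≤ cN η f ^ 2 * Real.exp (cN η f) ∧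
    cN η (fun T => Complex.exp (f T) - 1 - f T - f T ^ 2 / 2) ≤ cN η f ^ 3 * Real.exp (cN η f) := by
  refine ⟨?_, by simpa using cN_tail h f 1, ?_, ?_⟩
  · have e : (fun T => Complex.exp (f T)) = fun T =>
        (fun _ : Vx => Complex.exp (f o3)) T * (fun T => Complex.exp (f T - f o3)) T := by
      funext T
      simp [← Complex.exp_add]
    rw [e]
    refine (cN_mul h _ _).trans ?_
    rw [cN_const, Complex.norm_exp, Real.exp_add]
    refine mul_le_mul_of_nonneg_left ?_ (Real.exp_pos _).le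
    simpa [cV] using cN_tail h (fun T => f T - f o3) 0
  · simpa [sum_range_succ, sub_sub] using cN_tail h f 2
  · simpa [sum_range_succ, sub_sub, add_assoc] using cN_tail h f 3

theorem cN_integral {Z : Type} [MeasurableSpace Z] (μ : Measure Z) (h : Eta η0 η) (f : Z → Vx → ℂ)
    (M : Z → ℝ) (hf : ∀ T, AEStronglyMeasurable (fun z => f z T) μ) (hM : Integrable M μ)
    (hb : ∀ᵐ z ∂μ, cN η (f z) ≤ M z) : cN η (fun T => ∫ z, f z T ∂μ) ≤ ∫ z, M z ∂μ := by
  have hi : ∀ T, Integrable (fun z => f z T) μ := fun T =>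
    hM.mono' (hf T) (hb.mono fun z hz => (norm_le_cN h _ T).trans hz)
  have hd : ∀ S T, Integrable (fun z => dS S (f z) T) μ := fun S T =>
    integrable_finsetSum _ fun S' _ => (hi _).smul _
  have e1 : ∀ S T, dS S (fun T => ∫ z, f z T ∂μ) T = ∫ z, dS S (f z) T ∂μ := fun S T => by
    refine Eq.trans (sum_congr rfl fun S' _ => ?_)
      (integral_finsetSum _ fun S' _ => (hi _).smul _).symm
    simp only [zsmul_eq_mul, Pi.mul_apply, Pi.intCast_apply, integral_const_mul]
  obtain ⟨τ, e⟩ := exists_cN η fun T => ∫ z, f z T ∂μ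
  rw [e]
  calc _ ≤ ∑ S, ∫ z, ‖dS S (f z) (τ S)‖ / ∏ i ∈ S, η i ∂μ := sum_le_sum fun S _ => by
        rw [e1, integral_div]
        exact div_le_div_of_nonneg_right (norm_integral_le_integral_norm _) (w_pos h S).le
    _ = ∫ z, ∑ S, ‖dS S (f z) (τ S)‖ / ∏ i ∈ S, η i ∂μ :=
        (integral_finsetSum _ fun S _ => (hd S _).norm.div_const _).symm
    _ ≤ _ := integral_mono_ae (integrable_finsetSum _ fun S _ => (hd S _).norm.div_const _) hM
        (hb.mono fun z hz => (le_cN h _ τ).trans hz)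

namespace Cb

section hol
variable {G : Type} [NormedAddCommGroup G] [NormedSpace ℂ G]

/-- vertices of the cube as complex points -/
def ind (T : Vx) : Fin 3 → ℂ := fun i => if T i then 1 else 0

/-- bounded and separately holomorphic on the polydisc -/
def SH (η : Fin 3 → ℝ) (ψ : (Fin 3 → ℂ) → G) (M : ℝ) : Prop :=
  ∀ t : Fin 3 → ℂ, (∀ i, ‖t i‖ < 3 / η i) → ‖ψ t‖ ≤ M ∧
    ∀ i, DifferentiableOn ℂ (fun s => ψ (update t i s)) (Metric.ball 0 (3 / η i))

theorem upd_lt {t : Fin 3 → ℂ} (ht : ∀ i, ‖t i‖ < 3 / η i) {i : Fin 3} {s : ℂ}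
    (hs : ‖s‖ < 3 / η i) (j : Fin 3) : ‖update t i s j‖ < 3 / η j := by
  by_cases e : j = i
  · simpa [e] using hs
  · simpa [e] using ht j

theorem one_lt (h : Eta 1 η) (i : Fin 3) : 1 < 3 / η i := by
  rw [lt_div_iff₀ (h i).1]
  linarith [(h i).2]

theorem SH.step (h : Eta 1 η) {ψ : (Fin 3 → ℂ) → G} {M : ℝ} (H : SH η ψ M) (i : Fin 3) :
    SH η (fun t => ψ (update t i 1) - ψ (update t i 0)) (M * η i) := by
  intro t ht
  have o1 : ‖(1 : ℂ)‖ < 3 / η i := by simpa using one_lt h i
  have o0 : ‖(0 : ℂ)‖ < 3 / η i := by simpa using (h i).1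
  refine ⟨?_, fun j => ?_⟩
  · have := Complex.dist_le_div_mul_dist_of_mapsTo_ball (R₂ := 2 * M) ((H t ht).2 i)
      (fun s hs => by
        have a := (H _ (upd_lt ht (mem_ball_zero_iff.1 hs))).1
        have b := (H _ (upd_lt ht o0)).1
        rw [mem_closedBall_iff_norm]
        exact (norm_sub_le _ _).trans (by linarith)) (z := 1) (mem_ball_zero_iff.2 o1)
    rw [dist_eq_norm, dist_zero_right, norm_one, mul_one, div_div_eq_mul_div] at this
    have m := (norm_nonneg _).trans (H t ht).1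
    have := mul_nonneg m (h i).1.le
    linarith
  · by_cases e : j = i
    · simp only [e, update_idem]
      exact differentiableOn_const _
    · simp only [update_comm e]
      exact ((H _ (upd_lt ht o1)).2 j).sub ((H _ (upd_lt ht o0)).2 j)

theorem ind_update (T : Vx) (i : Fin 3) (b : Bool) :
    ind (update T i b) = update (ind T) i (if b then 1 else 0) := by
  funext j
  by_cases e : j = i
  · simp [e, ind]
  · simp [e, ind]

theorem SH.dS_le (h : Eta 1 η) (S : Finset (Fin 3)) (T : Vx) : ∀ {ψ : (Fin 3 → ℂ) → G} {M : ℝ},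
    SH η ψ M → ‖dS S (fun T => ψ (ind T)) T‖ ≤ M * ∏ i ∈ S, η i := by
  induction S using Finset.induction_on with
  | empty =>
    intro ψ M H
    rw [dS_empty, prod_empty, mul_one]
    refine (H _ fun i => lt_of_le_of_lt ?_ (one_lt h i)).1
    unfold ind
    split_ifs <;> simp
  | insert i S hi ih =>
    intro ψ M H
    rw [dS_ins hi, prod_insert hi, ← mul_assoc]
    simpa [ind_update] using ih (H.step h i)

variable {E : Type} [AddCommGroup E] [Module ℂ E]

theorem interp (T : Vx) (U : Finset (Fin 3)) : ∀ γ : Vx → E,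
    ∑ S ∈ U.powerset, (∏ i ∈ S, ind T i) • dS S γ o3 = γ fun i => if i ∈ U then T i else false := by
  induction U using Finset.induction_on with
  | empty =>
    intro γ
    simp [dS_empty]
    rfl
  | insert i U hi ih =>
    intro γ
    rw [sum_powerset_insert hi, ih, sum_congr rfl fun S hS => by
      have hs : i ∉ S := fun h => hi (mem_powerset.1 hS h)
      rw [prod_insert hs, dS_ins hs, mul_smul], ← smul_sum, ih]
    have e0 : update (fun j => if j ∈ U then T j else false) i false =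
        fun j => if j ∈ U then T j else false := update_eq_self_iff.2 (by simp [hi])
    have e1 : (fun j => if j ∈ insert i U then T j else false) =
        update (fun j => if j ∈ U then T j else false) i (T i) := by
      funext j
      by_cases e : j = i
      · simp [e]
      · simp [e]
    rw [e1, ind, e0]
    generalize (fun j => if j ∈ U then T j else false) = T' at e0
    cases T i
    · simp [e0]
    · simp

theorem prod_affine (S : Finset (Fin 3)) (t : Fin 3 → ℂ) (i : Fin 3) (s : ℂ) :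
    ∏ j ∈ S, update t i s j = ∏ j ∈ S, update t i 0 j +
      s * (∏ j ∈ S, update t i 1 j - ∏ j ∈ S, update t i 0 j) := by
  by_cases e : i ∈ S
  · simp [prod_update_of_mem e]
  · simp [prod_update_of_notMem e]

theorem sum_mem (O : Kit.Dom E) {ι : Type} (s : Finset ι) (a : ι → E) {θ : ℝ}
    (h0 : (0 : E) ∈ O.D 0) (ha : ∀ i ∈ s, a i ∈ O.D θ) : ∑ i ∈ s, a i ∈ O.D (s.card * θ) := by
  classical
  induction s using Finset.induction_on with
  | empty => simpa using h0
  | insert i s hi ih =>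
    rw [sum_insert hi, card_insert_of_notMem hi]
    exact O.mono (by push_cast; linarith) (O.add (ha i (mem_insert_self _ _))
      (ih fun j hj => ha j (mem_insert_of_mem hj)))

theorem lip0 {O : Kit.Dom E} {φ : E → G} {M θ : ℝ} (hφ : O.LH φ) (hM : ∀ a ∈ O.D 1, ‖φ a‖ ≤ M)
    {a δ : E} (ha : a ∈ O.D 2⁻¹) (hδ : δ ∈ O.D θ) (h0 : 0 ≤ θ) (h1 : θ ≤ 4⁻¹) :
    ‖φ (a + δ) - φ a‖ ≤ 4 * M * θ := by
  have m := (norm_nonneg _).trans (hM a (O.mono (by norm_num) ha))
  refine le_of_forall_pos_le_add fun ε hε => ?_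
  have p : 0 < min 8⁻¹ (ε / (4 * M + 1)) := by positivity
  have q := (le_div_iff₀ (by positivity)).1 (min_le_right 8⁻¹ (ε / (4 * M + 1)))
  have r := min_le_left 8⁻¹ (ε / (4 * M + 1))
  generalize min 8⁻¹ (ε / (4 * M + 1)) = u at p q r
  refine (hφ.lip hM ha (O.mono (by linarith : θ ≤ θ + u) hδ) (by linarith) (by linarith)).trans ?_
  rw [div_le_iff₀ (by norm_num)]
  nlinarith

end hol

end Cb

/-- holomorphic along lines and bounded gives jets -/
theorem hol_cube {E G : Type} [AddCommGroup E] [Module ℂ E] [NormedAddCommGroup G]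
    [NormedSpace ℂ G] [CompleteSpace G] (h : Eta η0 η) (h1 : η0 ≤ 1) (O : Kit.Dom E) (φ : E → G)
    {M d : ℝ} (hφ : O.LH φ) (hM : ∀ a ∈ O.D 1, ‖φ a‖ ≤ M) (γ : Vx → E) (h0 : γ o3 ∈ O.D 2⁻¹)
    (hd : ∀ S, S ≠ ∅ → dS S γ o3 ∈ O.D (d * ∏ i ∈ S, η i)) (hd0 : 0 ≤ d) (hd1 : 1000 * d ≤ 1) :
    cV η (fun T => φ (γ T)) ≤ 10 ^ 6 * M * d := by
  have hE : Eta 1 η := fun i => ⟨(h i).1, (h i).2.trans h1⟩
  have m := (norm_nonneg _).trans (hM _ (O.mono (by norm_num) h0))
  set Γ : (Fin 3 → ℂ) → E := fun t => ∑ S, (∏ i ∈ S, t i) • dS S γ o3 with hΓ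
  have e1 : ∀ T, Γ (ind T) = γ T := fun T => by simpa using interp T univ γ
  have e2 : ∀ t, (∀ i, ‖t i‖ < 3 / η i) → ∃ δ ∈ O.D (216 * d), Γ t = γ o3 + δ := fun t ht => by
    refine ⟨∑ S ∈ univ.erase ∅, (∏ i ∈ S, t i) • dS S γ o3, ?_, ?_⟩
    · refine O.mono ?_ (sum_mem O _ _ (θ := 27 * d) (Kit.Dom.zero h0 le_rfl) fun S hS =>
        O.mono ?_ (O.smul _ (hd S (ne_of_mem_erase hS))))
      · simp
        linarith
      · rw [norm_prod, mul_left_comm, ← prod_mul_distrib, mul_comm]
        refine mul_le_mul_of_nonneg_right ((prod_le_prod (g := fun _ => 3) (fun i _ =>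
          mul_nonneg (norm_nonneg _) (h i).1.le) fun i _ =>
            ((lt_div_iff₀ (h i).1).1 (ht i)).le).trans ?_) hd0
        rw [prod_const]
        exact (pow_le_pow_right₀ (by norm_num) (by simpa using card_le_univ S : S.card ≤ 3)).trans
          (by norm_num)
    · rw [hΓ]
      simp only
      rw [← add_sum_erase _ _ (mem_univ ∅), dS_empty, prod_empty, one_smul]
  have H : SH η (fun t => φ (Γ t) - φ (γ o3)) (4 * M * (216 * d)) := fun t ht => by
    refine ⟨?_, fun i => ?_⟩
    · obtain ⟨δ, a, b⟩ := e2 t ht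
      simp only [b]
      exact lip0 hφ hM h0 a (by positivity) (by linarith)
    · have e3 : ∀ s, Γ (update t i s) =
          Γ (update t i 0) + s • (Γ (update t i 1) - Γ (update t i 0)) := fun s => by
        simp only [hΓ, ← sum_sub_distrib, smul_sum, ← sum_add_distrib]
        refine sum_congr rfl fun S _ => ?_
        rw [prod_affine S t i s, add_smul, mul_smul, sub_smul]
      refine ((hφ _ _ _ Metric.isOpen_ball fun s hs => ?_).congr fun s _ => by
        rw [e3 s]).sub_const _
      obtain ⟨δ, a, b⟩ := e2 _ (upd_lt ht (mem_ball_zero_iff.1 hs))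
      rw [← e3, b]
      exact O.mono (by linarith) (O.add h0 a)
  refine (cN_le h _ fun S T => by simpa only [e1] using H.dS_le hE S T).trans ?_
  nlinarith [mul_nonneg m hd0]

namespace Cb

section explicit
variable {E : Type} [AddCommGroup E] (f : Vx → E) (a b c x : Bool)

theorem u0 : update (![a, b, c] : Vx) 0 x = ![x, b, c] := by
  funext i
  fin_cases i <;> simp
theorem u1 : update (![a, b, c] : Vx) 1 x = ![a, x, c] := by
  funext i
  fin_cases i <;> simp
theorem u2 : update (![a, b, c] : Vx) 2 x = ![a, b, x] := by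
  funext i
  fin_cases i <;> simp

theorem dS_one (i : Fin 3) (T : Vx) : dS {i} f T = f (update T i true) - f (update T i false) := by
  rw [← insert_empty_eq, dS_ins (notMem_empty i), dS_empty]

theorem d0 : dS {0} f ![a, b, c] = f ![true, b, c] - f ![false, b, c] := by rw [dS_one, u0, u0]
theorem d1 : dS {1} f ![a, b, c] = f ![a, true, c] - f ![a, false, c] := by rw [dS_one, u1, u1]
theorem d2 : dS {2} f ![a, b, c] = f ![a, b, true] - f ![a, b, false] := by rw [dS_one, u2, u2]
theorem d01 : dS {0, 1} f ![a, b, c] = f ![true, true, c] - f ![false, true, c] -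
    (f ![true, false, c] - f ![false, false, c]) := by
  simp only [dS_ins (show (0 : Fin 3) ∉ ({1} : Finset (Fin 3)) by decide), d1, u0]
theorem d02 : dS {0, 2} f ![a, b, c] = f ![true, b, true] - f ![false, b, true] -
    (f ![true, b, false] - f ![false, b, false]) := by
  simp only [dS_ins (show (0 : Fin 3) ∉ ({2} : Finset (Fin 3)) by decide), d2, u0]
theorem d12 : dS {1, 2} f ![a, b, c] = f ![a, true, true] - f ![a, false, true] -
    (f ![a, true, false] - f ![a, false, false]) := by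
  simp only [dS_ins (show (1 : Fin 3) ∉ ({2} : Finset (Fin 3)) by decide), d2, u1]
theorem d012 : dS {0, 1, 2} f ![a, b, c] =
    f ![true, true, true] - f ![false, true, true] -
      (f ![true, false, true] - f ![false, false, true]) -
    (f ![true, true, false] - f ![false, true, false] -
      (f ![true, false, false] - f ![false, false, false])) := by
  simp only [dS_ins (show (0 : Fin 3) ∉ ({1, 2} : Finset (Fin 3)) by decide), d12, u0]

end explicit

variable {F : ℝ → ℝ} {K v : ℝ}

end Cb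

namespace Cb

end Cb

end Pool.Agent.Lib.MP_7f377f_mp.RG.Q4
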