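import Pool.Agent.Lib.MP_7f377f_mp.RGLinZ
import Pool.Agent.Lib.MP_7f377f_mp.G.RGAp2

/-! Exponential decay for the quadratic form of the fluctuation field in the tree gauge. -/

set_option linter.unusedSectionVars false
variable [Pool.Agent.Lib.MP_7f377f_mp.GD]

namespace Pool.Agent.Lib.MP_7f377f_mp.Lin

noncomputable section

open Finset hiding box
open Classical Function RG RG.La
open scoped InnerProductSpace Pointwise

variable {l R n k : ℕ} {m : BF} {φ : (Fin 4 → ℝ) → ℝ} {δ M C cL cU : ℝ}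

theorem agmonS (hm : Inv n R cL cU m) (hc : cL ≤ 20) (hU : cU ≤ 20) (hR : R ≤ l) (hl : 1 ≤ l)
    {A : F1} (hg : d0 (gl l A) = 0) (hφ : Adm de φ) {K : ℝ} (hK : 0 ≤ K)
    (hσ : ∀ (Φ : F1) (ε : ℝ), 0 < ε → |MM R m A Φ + (LL l : ℝ) ^ 2 * ∑ ρ, ⟪QQ l A ρ, QQ l Φ ρ⟫_ℝ| ≤
      (ε * s1 (-φ) (LL l) Φ + K / ε) / 2) :
    s1 φ (LL l) A / LL l ^ 2 ≤ 16 * GG ^ 4 * (LL l ^ 2 * K) := by
  have hL := LL_posR l
  have hL1 : (1 : ℝ) ≤ LL l := NN_one l
  obtain ⟨hG, hG2, hG3, hG4⟩ := GG_ge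
  have hK1 := KK_one
  have d1 : de ≤ 1 := de_le.trans (by norm_num)
  have hφ1 := hφ.mono d1
  obtain ⟨J, hJ⟩ : ∃ J : F1, J = (-(LL l : ℝ) ^ 2) • QQ l A := ⟨_, rfl⟩
  have we : ∀ Φ, (LL l : ℝ) ^ 2 * ∑ ρ, ⟪QQ l A ρ, QQ l Φ ρ⟫_ℝ = -∑ ρ, ⟪J ρ, QQ l Φ ρ⟫_ℝ := fun Φ => by
    rw [hJ]; simp only [Pi.smul_apply, real_inner_smul_left, ← mul_sum]; ring
  simp only [we] at hσ
  have hf := s2_GG hm hc hl hφ1
  have e0 := EW_nonneg (φ := φ) (M := LL l) hm A
  have j0 := s1_nonneg (φ := φ) (M := 1) J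
  obtain ⟨X, hX⟩ : ∃ X, X = (LL l : ℝ) ^ 2 * K := ⟨_, rfl⟩
  have X0 : 0 ≤ X := hX ▸ by positivity
  rw [← hX]
  have hj : s1 φ 1 J - 2 * KK ^ 2 * X ≤ GG * EW m φ (LL l) A := by
    have h1 := MM_le (M := LL l) hm hφ A (II l (ww φ 1 J)) (by linarith : 0 < GG)
    have h2 := EW_le hm (inv_U1 hm hU) (by positivity) hR hφ1.neg (II l (ww φ 1 J))
    have h3 := (s2_II (l := l) hφ1.neg (ww φ 1 J)).trans
      (mul_le_mul_of_nonneg_left (s2_le_s1 le_rfl hφ1.neg _) (sq_nonneg _))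
    have h4 := s1_op (fun ρ => (gd_I (l := l) ρ).bd) hφ1.neg (ww φ 1 J)
    change s1 (-φ) (LL l) (II l (ww φ 1 J)) ≤ _ at h4
    rw [s1_ww hφ] at h3 h4
    have h6 := (abs_le.1 (hσ (II l (ww φ 1 J)) (2 * (KK * LL l) ^ 2)⁻¹ (by positivity))).1
    rw [QQ_II] at h6
    simp only [ww, real_inner_comm (wt _ _ _), hφ.inner_ww] at h6
    change _ ≤ MM R m A (II l (ww φ 1 J)) + -s1 φ 1 J at h6
    have h7 : (2 * (KK * LL l) ^ 2)⁻¹ * s1 (-φ) (LL l) (II l (ww φ 1 J)) ≤ s1 φ 1 J / 2 := by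
      rw [inv_mul_le_iff₀ (by positivity)]; linarith
    rw [mul_pow, mul_right_comm, ← div_le_iff₀ (by positivity)] at h4
    have h5 : EW m (-φ) (LL l) (II l (ww φ 1 J)) / GG ≤ s1 φ 1 J / 2 := by
      rw [div_le_iff₀ (by linarith), GG]
      nlinarith [mul_le_mul_of_nonneg_left (add_le_add h3 h4) (sq_nonneg KK),
        mul_nonneg (by positivity : 0 ≤ KK ^ 4) j0]
    have h8 : K / (2 * (KK * LL l) ^ 2)⁻¹ = 2 * KK ^ 2 * X := by rw [hX]; field_simp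
    rw [h8] at h6
    change _ ≤ (GG * _ + EW m (-φ) (LL l) (II l (ww φ 1 J)) / GG) / 2 at h1
    linarith
  have hq : s1 φ 1 (QQ l A) ≤ s1 φ 1 J := by
    rw [hJ, s1_smul, neg_sq]
    exact le_mul_of_one_le_left (s1_nonneg _) (one_le_pow₀ (one_le_pow₀ hL1))
  have ha1 := s1_GG (l := l) hφ1 A
  rw [hg, sub_zero] at ha1
  have a0 : 0 ≤ s1 φ (LL l) A / LL l ^ 2 := div_nonneg (s1_nonneg _) (sq_nonneg _)
  have p0 : 0 ≤ 2 * KK ^ 2 * X := by positivity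
  have ha2 : s1 φ (LL l) A / LL l ^ 2 ≤ GG * (2 * KK ^ 2 * X) + GG ^ 2 * EW m φ (LL l) A := by
    nlinarith [mul_le_mul_of_nonneg_left (add_le_add hq (hf A)) (by linarith : 0 ≤ GG),
      mul_le_mul_of_nonneg_left hj (by linarith : 0 ≤ GG), mul_nonneg (by linarith : 0 ≤ GG) p0,
      mul_nonneg (sq_nonneg GG) e0]
  have he : EW m φ (LL l) A ≤ 2 * (2 * (2 * KK ^ 2 * X) + 2 * GG ^ 2 * X) + 2 * KK ^ 2 * X := by
    refine core e0 p0 (hf A) hj ha2 ((coerG hm hU hR hφ A).trans ?_)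
    have h0 := (abs_le.1 (hσ (ww φ (LL l) A) (4 * (GG * LL l) ^ 2)⁻¹ (by positivity))).2
    have h1 : ∑ ρ, ⟪J ρ, QQ l (ww φ (LL l) A) ρ⟫_ℝ ≤
        ∑ ρ, KK * de * (nrm φ 1 (J ρ) * nrm φ (LL l) (((LL l : ℝ)⁻¹ • A) ρ)) := by
      refine sum_le_sum fun ρ _ => ?_
      have k1 := (abs_le.1 ((gd_Q (l := l) ρ).cm de φ d1 hφ (J ρ) (A ρ))).2
      have k3 : ⟪wt φ 1 (wt φ 1 (J ρ)), QT l {ρ} (A ρ)⟫_ℝ ≤ 0 := by
        have : QT l {ρ} (A ρ) = (-((LL l : ℝ) ^ 2)⁻¹) • J ρ := by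
          rw [hJ, Pi.smul_apply, smul_smul, neg_mul_neg, inv_mul_cancel₀ (by positivity), one_smul]
          rfl
        rw [this, real_inner_smul_right, hφ.inner_ww, neg_mul, neg_nonpos]; positivity
      rw [Pi.smul_apply, nrm_smul, abs_of_pos (by positivity)]
      change ⟪J ρ, QT l {ρ} (wt φ (LL l) (wt φ (LL l) (A ρ)))⟫_ℝ ≤ _
      rw [div_eq_mul_inv] at k1
      linarith
    rw [← mul_sum] at h1
    have h3 := sum_amgm (φ := φ) (ψ := φ) (M := 1) (M' := LL l) one_pos J ((LL l : ℝ)⁻¹ • A)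
    rw [s1_smul, inv_pow, inv_mul_eq_div, one_mul, div_one] at h3
    have h8 : K / (4 * (GG * LL l) ^ 2)⁻¹ = 4 * GG ^ 2 * X := by rw [hX]; field_simp
    rw [s1_ww hφ, h8] at h0
    have h4 : (4 * (GG * LL l) ^ 2)⁻¹ * s1 φ (LL l) A ≤ 2 * KK ^ 2 * X + EW m φ (LL l) A / 4 := by
      rw [inv_mul_le_iff₀ (by positivity)]
      rw [div_le_iff₀ (by positivity)] at ha2
      nlinarith [mul_le_mul_of_nonneg_right hG (mul_nonneg (mul_nonneg (by linarith : 0 ≤ GG) p0)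
        (sq_nonneg (LL l : ℝ))), mul_nonneg (mul_nonneg (sq_nonneg GG) p0) (sq_nonneg (LL l : ℝ))]
    have h5 := mul_le_mul_of_nonneg_left h3 (mul_nonneg (by linarith : 0 ≤ KK) de_pos.le)
    have h6 := mul_le_mul_of_nonneg_right hG4 (mul_nonneg de_pos.le (add_nonneg j0 a0))
    have h7 := mul_nonneg (mul_nonneg de_pos.le (by linarith : 0 ≤ GG))
      (add_nonneg e0 (s2_nonneg (φ := φ) (M := LL l) A))
    have h9 : de * GG ≤ 1 := by
      rw [de, inv_mul_le_iff₀ (by positivity)]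
      nlinarith [one_le_pow₀ (n := 2) hG]
    have h10 := mul_le_mul_of_nonneg_right h9 p0
    have h11 := mul_nonneg (mul_nonneg de_pos.le (by linarith : 0 ≤ GG)) j0
    linarith
  have h1 : KK ^ 2 * X ≤ GG ^ 2 * X := by gcongr
  have h2 : GG ^ 2 * X * GG ≤ GG ^ 2 * X * GG ^ 2 := by
    gcongr; exact le_self_pow₀ hG (by norm_num)
  nlinarith [mul_le_mul_of_nonneg_left he (sq_nonneg GG), mul_le_mul_of_nonneg_left h1 (sq_nonneg GG),
    mul_le_mul_of_nonneg_left h1 (by linarith : 0 ≤ GG)]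

lemma hh_rng (hm : Inv n R cL cU m) (hR : R ≤ l) : Rng (3 * l + 1) (3 * l + 1) (hh l m) :=
  fun a b h => by
    rcases h with h | h
    · exact enB_zero hm.rng hR (sm_zero.2 h) (fun _ => rfl) _
    · rw [hh_apply, enB_symm hm.symm]; exact enB_zero hm.rng hR (sm_zero.2 h) (fun _ => rfl) _

/-- the weak form as a finite sum of block forms -/
lemma weak_eq (hm : Inv n R cL cU m) (hR : R ≤ l) (A Φ : F1)
    (h0 : ∀ e : Lk, yo l e.1 ∉ box k → toV A e = 0) :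
    MM R m A Φ + (LL l : ℝ) ^ 2 * ∑ ρ, ⟪QQ l A ρ, QQ l Φ ρ⟫_ℝ =
      ∑ y ∈ box (k + 1), hh l m (RG.sh (up l y) (TG l (toV Φ))) (RG.sh (up l y) (toV A)) := by
  have far : ∀ {y : St}, y ∉ box (k + 1) → ∀ t ∈ box (3 * l + 1), ∀ μ, toV A (up l y + t, μ) = 0 :=
    fun {y} hy t ht μ => h0 _ fun h => hy (by
      rw [add_comm, RG.yo_add_up] at h
      simpa using sub_mem_box h (yo_mem_one ht))
  have h2 := (hasSum_MM hm.rng A Φ).unique (hasSum_sum_of_ne_finset_zero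
    (s := Blk l (box (k + 1))) fun x hx => hm.rng _ _ (Or.inl fun b hb => by
      have := far (mem_Blk.not.1 hx) (x - up l (yo l x) + b.1) (RG.box_mono (by omega)
        (RG.add_mem_box (sub_up_mem l x) (RG.mem_lbox.1 hb))) b.2
      rwa [show up l (yo l x) + (x - up l (yo l x) + b.1) = b.1 + x by abel] at this))
  have qa : ∀ (A : F1) ρ y, QQ l A ρ y = avgA l (toV A) (y, ρ) := fun A ρ y => by rw [avgA_QT]; rfl
  have h3 : ∀ ρ, ⟪QQ l A ρ, QQ l Φ ρ⟫_ℝ = ∑ y ∈ box (k + 1),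
      avgA l (toV A) (y, ρ) * avgA l (toV Φ) (y, ρ) := fun ρ => by
    rw [(hsi _ _).unique (hasSum_sum_of_ne_finset_zero (s := box (k + 1)) fun y hy => ?_)]
    · exact sum_congr rfl fun y _ => by rw [qa, qa]
    have := avgA_bd (l := l) (a := toV A) (δ := 0) (b := (y, ρ)) fun t ht => by
      rw [far hy t (RG.box_mono (by omega) ht), abs_zero]
    rw [qa, abs_nonpos_iff.1 (this.trans_eq (mul_zero _)), zero_mul]
  rw [h2, sum_Blk]
  simp only [h3]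
  rw [sum_comm (s := univ), mul_sum, ← sum_add_distrib]
  refine sum_congr rfl fun y _ => ?_
  have : ∀ z b u, m (RG.sh z (gr u)) b = 0 := fun z b u => by rw [Li.sh_gr, hm.gauge]
  simp only [hh_apply, enB_apply, Li.sh_sh, avgA_sh, avgA_TG, RG.sh_apply, zero_add, Pi.zero_apply,
    zero_sub, neg_mul_neg]
  simp only [TG, sh_sub, map_sub, LinearMap.sub_apply, this, sub_zero, hm.symm (RG.sh _ (toV A)),
    mul_comm (avgA l (toV A) _)]

theorem decay0 (hm : Inv n R cL cU m) (hc : cL ≤ 20) (hU : cU ≤ 20) (hR : R ≤ l)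
    (hL : 160000 * |20 * KK ^ 2| + 16 ≤ (LL l : ℝ)) (hk : k + 6 ≤ l) {D : RG.V} {γ d : ℝ} (γ0 : 0 ≤ γ)
    (h0 : ∀ f, tree l f → D f = 0) (hd : Sm (fb l (k + 3)) d D)
    (hγ : ∀ f : Lk, yo l f.1 ∈ box k → ¬ tree l f → |∑ y ∈ box 2, hh l m
      (RG.sh (up l (yo l f.1 + y)) (Pi.single f 1)) (RG.sh (up l (yo l f.1 + y)) D)| ≤ γ) :
    Sm l (2 ^ 20 * GG ^ 2 * LL l ^ 21 * (γ + Real.exp (-de * k) * d)) D := fun f hf => by
  have hG := GG_ge.1
  have hL0 := LL_posR l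
  have hL1 : (1 : ℝ) ≤ LL l := NN_one l
  have d0' := hd.nonneg
  have hr := hh_rng hm hR
  have ad := adm_rad (k.cast_nonneg : (0 : ℝ) ≤ k)
  obtain ⟨A0, hA0⟩ : ∃ A0, A0 = ofV (box (fb l (k + 3))) D := ⟨_, rfl⟩
  have eA : ∀ e, toV A0 e = if yo l e.1 ∈ box (k + 3) then D e else 0 := fun e => by
    rw [hA0, toV_ofV, fb, ← Blk_box]; simp only [mem_Blk]
  have a1 : ∀ e, |toV A0 e| ≤ d := fun e => by
    rw [eA]; split_ifs with h
    exacts [hd e (RG.mem_lbox.2 (mem_box_of_yo h)), by simpa]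
  obtain ⟨E, hE⟩ : ∃ E, E = Real.exp (-de * k) := ⟨_, rfl⟩
  have E0 : 0 < E := hE ▸ Real.exp_pos _
  obtain ⟨σ, hσ⟩ : ∃ σ : Lk → ℝ, ∀ f, σ f = ∑ y ∈ box (k + 3 + 1), hh l m
    (RG.sh (up l y) (Pi.single f 1)) (RG.sh (up l y) (toV A0)) := ⟨_, fun _ => rfl⟩
  have s1' : ∀ f, |σ f| ≤ LL l ^ 9 * d := fun f => by
    rw [hσ]
    refine (abs_sum_le_sum_abs _ _).trans ((sum_le_card_nsmul _ _ (LL l ^ 5 * d) fun y _ => ?_).trans ?_)
    · have b1 := enB_bd (a := RG.sh (up l y) (Pi.single f 1)) (B := 0) (δ := 1) (inv_U1 hm hU)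
        hm.rng hR hL (fun e _ => by
          rw [RG.sh_apply, Pi.single_apply]; split_ifs <;> simp) (by simp)
      have b2 := enB_bd (a := RG.sh (up l y) (toV A0)) (B := 0) (δ := d) (inv_U1 hm hU)
        hm.rng hR hL (fun e _ => a1 _) (by simpa)
      refine abs_le_of_sq_le_sq ((cs_one (enB l m) (enB_symm hm.symm l) (enB_psd hm.psd l) _ _).trans
        ((mul_le_mul b1 b2 (enB_psd hm.psd l _) (by positivity)).trans_eq (by ring))) (by positivity)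
    · have : ((2 * (k + 3 + 1) + 1 : ℕ) : ℝ) ≤ LL l := by simp only [LL]; norm_cast; omega
      rw [Li.card_box, nsmul_eq_mul, Nat.cast_pow]
      calc _ ≤ (LL l : ℝ) ^ 4 * (LL l ^ 5 * d) := by gcongr
        _ = _ := by ring
  have s2' : ∀ f : Lk, yo l f.1 ∈ box k → ¬ tree l f → |σ f| ≤ γ := fun f h1 h2 => by
    refine le_of_eq_of_le (congrArg _ ?_) (hγ f h1 h2)
    rw [hσ, Li.sum_shift (box 2) (yo l f.1) fun y => hh l m (RG.sh (up l y) (Pi.single f 1))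
      (RG.sh (up l y) D)]
    refine (sum_subset (fun y hy => ?_) fun y _ hy => hr _ _ (Or.inl fun e he => ?_)).symm.trans
      (sum_congr rfl fun y hy => hr.congr (fun _ _ => rfl) fun e he => ?_)
    · obtain ⟨z, hz, rfl⟩ := mem_image.1 hy
      exact RG.box_mono (by omega) (RG.add_mem_box h1 hz)
    · rw [RG.sh_apply, Pi.single_eq_of_ne]
      rintro rfl
      refine hy (mem_image.2 ⟨-yo l e.1, RG.box_mono one_le_two
        (RG.neg_mem_box (yo_mem_one (RG.mem_lbox.1 he))), ?_⟩)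
      rw [RG.yo_add_up]; abel
    · obtain ⟨z, hz, rfl⟩ := mem_image.1 hy
      rw [RG.sh_apply, RG.sh_apply, eA, if_pos]
      rw [RG.yo_add_up]
      exact RG.box_mono (by omega) (RG.add_mem_box (yo_mem_one (RG.mem_lbox.1 he))
        (RG.add_mem_box h1 hz))
  obtain ⟨K, hK⟩ : ∃ K, K = 288 * (LL l : ℝ) ^ 18 * (γ + E * d) := ⟨_, rfl⟩
  have K0 : 0 ≤ K := hK ▸ by positivity
  have h1 := agmonS hm hc hU hR (by omega) (good_sub A0) ad (sq_nonneg K) fun Φ ε hε => by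
    have e1 : QQ l (A0 - d0 (gl l A0)) = QQ l A0 := by rw [QQ_sub, QQ_gl, sub_zero]
    rw [MM_sub, MM_d0 hm, sub_zero, e1, weak_eq (k := k + 3) hm hR A0 Φ fun e he => by
      rw [eA, if_neg he]]
    obtain ⟨ψ, hψ⟩ : ∃ ψ, ψ = TG l (toV Φ) := ⟨_, rfl⟩
    obtain ⟨S, hS⟩ : ∃ S, S = √(s1 (-rad k) (LL l) Φ) := ⟨_, rfl⟩
    have S0 : 0 ≤ S := hS ▸ Real.sqrt_nonneg _
    have S2 : S ^ 2 = s1 (-rad k) (LL l) Φ := hS ▸ Real.sq_sqrt (s1_nonneg _)
    have e2 : ∑ y ∈ box (k + 3 + 1), hh l m (RG.sh (up l y) ψ) (RG.sh (up l y) (toV A0)) =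
        ∑ f ∈ lbox (fb l (k + 5)), ψ f * σ f := by
      simp only [hσ, mul_sum]
      rw [sum_comm]
      refine sum_congr rfl fun y hy => ?_
      have := ((agr_sum_single (fb l (k + 5)) ψ).mono (R' := 3 * l + 1 + (k + 3 + 1) * LL l)
        (by simp only [fb, LL]; nlinarith)).sh (up_mem_box hy)
      rw [hr.congr this fun _ _ => rfl, ← shL_apply, map_sum, map_sum, LinearMap.sum_apply]
      refine sum_congr rfl fun f _ => ?_
      rw [← smul_eq_mul, ← LinearMap.smul_apply, ← map_smul, ← shL_apply (up l y) (Pi.single f 1),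
        ← map_smul, ← Pi.single_smul, smul_eq_mul, mul_one]
    have p1 : ∀ (f : Lk) (w : ℝ), 0 ≤ w → Real.exp (2 * rad k (sc 1 (yo l f.1))) ≤ w ^ 2 →
        |ψ f| ≤ 8 * LL l * (9 * w * S) := fun f w w0 hw => by
      have : (16 * l + 1 : ℝ) ≤ 8 * LL l := by simp only [LL]; push_cast; linarith
      refine (hψ ▸ TG_bd l (toV Φ) f fun e he => ?_).trans
        (mul_le_mul_of_nonneg_right this (by positivity))
      have h2 := (le_hasSum (hasSum_nrm (M := LL l) ad.neg (Φ e.2)) e.1 fun _ _ => by positivity).trans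
        (single_le_sum (f := fun ρ => nrm (-rad k) (LL l) (Φ ρ) ^ 2) (fun _ _ => sq_nonneg _)
        (mem_univ _))
      have h3 : e.1 - up l (yo l f.1) ∈ box (3 * l + 1) := mem_of_yo_one (by
        rw [sub_eq_add_neg, ← RG.up_neg, RG.yo_add_up]
        rcases he with he | he
        · simp [he, RG.zero_mem_box]
        · rcases RG.yo_add_un l f.1 f.2 with h | h <;> simp [he, h, RG.zero_mem_box, RG.un_mem_box])
      have h4 := (near_le (ad.mono de_one) (yo l f.1) h3).2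
      rw [sub_add_cancel] at h4
      change _ ≤ s1 (-rad k) (LL l) Φ at h2
      rw [← S2, Pi.neg_apply, mul_neg, Real.exp_neg, inv_mul_le_iff₀ (Real.exp_pos _)] at h2
      refine abs_le_of_sq_le_sq (h2.trans ?_) (by positivity)
      nlinarith [mul_le_mul_of_nonneg_right (h4.trans (mul_le_mul_of_nonneg_left hw (by norm_num)))
        (sq_nonneg S)]
    have p2 : ∀ f, |ψ f * σ f| ≤ 72 * LL l ^ 10 * (γ + E * d) * S := fun f => by
      by_cases ht : tree l f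
      · rw [hψ, TG_tree _ ht, zero_mul, abs_zero]; positivity
      rw [abs_mul]
      have l9 : (1 : ℝ) ≤ LL l ^ 9 := one_le_pow₀ hL1
      by_cases hy : yo l f.1 ∈ box k
      · refine (mul_le_mul (p1 f 1 zero_le_one ?_) (s2' f hy ht) (abs_nonneg _) (by positivity)).trans ?_
        · rw [one_pow, Real.exp_le_one_iff, rad]
          nlinarith [de_pos, le_min (norm_nonneg (sc 1 (yo l f.1))) (k.cast_nonneg : (0 : ℝ) ≤ k)]
        · nlinarith [mul_le_mul_of_nonneg_right l9 (by positivity : 0 ≤ LL l * γ * S),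
            (by positivity : 0 ≤ (LL l : ℝ) ^ 10 * (E * d) * S)]
      · refine (mul_le_mul (p1 f E E0.le ?_) (s1' f) (abs_nonneg _) (by positivity)).trans ?_
        · rw [rad, min_eq_right (not_le.1 (mem_box_sc.not.1 hy)).le, hE, ← Real.exp_nat_mul]
          norm_num
        · nlinarith [(by positivity : 0 ≤ (LL l : ℝ) ^ 10 * γ * S)]
    rw [← hψ, e2, ← S2]
    refine (abs_sum_le_sum_abs _ _).trans ((sum_le_card_nsmul _ _ _ fun f _ => p2 f).trans ?_)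
    have c1 : ((2 * fb l (k + 5) + 1 : ℕ) : ℝ) ≤ LL l ^ 2 := by
      simp only [fb, LL]; norm_cast; nlinarith
    rw [RG.card_lbox, nsmul_eq_mul, Nat.cast_mul, Nat.cast_pow]
    calc _ ≤ ((LL l : ℝ) ^ 2) ^ 4 * (4 : ℕ) * (72 * LL l ^ 10 * (γ + E * d) * S) := by gcongr
      _ = K * S := by rw [hK]; push_cast; ring
      _ ≤ _ := by
        rw [le_div_iff₀ two_pos, ← sub_nonneg, show ε * S ^ 2 + K ^ 2 / ε - K * S * 2 =
          (ε * S - K) ^ 2 / ε by field_simp; ring]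
        positivity
  have e3 : TG l (toV (A0 - d0 (gl l A0))) = toV A0 := by
    have : toV A0 = toV (A0 - d0 (gl l A0)) + gr (gl l A0) := by rw [toV_sub, toV_d0]; abel
    have h2 := TG_self (l := l) (a := toV A0) fun f hf => by rw [eA, h0 f hf, ite_self]
    have h3 := congrArg (TG l) this
    rw [h2, TG_add, TG_gr] at h3
    simp only [avg0_QT, Q0_gl] at h3
    rw [h3]
    funext e
    simp [gr]
  have h2 := TG_sm (l := l) (a := toV (A0 - d0 (gl l A0))) (δ := 36 * GG ^ 2 * LL l ^ 2 * K)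
    (fun e he => by
      have h2 := (le_hasSum (hasSum_nrm (M := LL l) ad ((A0 - d0 (gl l A0)) e.2)) e.1
        fun _ _ => by positivity).trans ((single_le_sum (f := fun ρ => nrm (rad k) (LL l)
        ((A0 - d0 (gl l A0)) ρ) ^ 2) (fun _ _ => sq_nonneg _) (mem_univ _)).trans
        ((div_le_iff₀ (by positivity)).1 h1))
      have h3 := (near_le (ad.mono de_one) 0 (RG.mem_lbox.1 he)).1
      rw [rad_zero k.cast_nonneg, RG.up_zero, add_zero] at h3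
      refine abs_le_of_sq_le_sq ?_ (by positivity)
      change (A0 - d0 (gl l A0)) e.2 e.1 ^ 2 ≤ _
      nlinarith [mul_le_mul_of_nonneg_right h3 (sq_nonneg ((A0 - d0 (gl l A0)) e.2 e.1))]) f hf
  rw [e3, eA, yo_of_mem (RG.mem_lbox.1 hf), if_pos (RG.zero_mem_box _)] at h2
  have : (16 * l + 1 : ℝ) ≤ 8 * LL l := by simp only [LL]; push_cast; linarith
  refine h2.trans ((mul_le_mul_of_nonneg_right this (by positivity)).trans ?_)
  rw [hK, ← hE]
  nlinarith [(by positivity : 0 ≤ GG ^ 2 * (LL l : ℝ) ^ 21 * (γ + E * d))]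

end

end Pool.Agent.Lib.MP_7f377f_mp.Lin

namespace Pool.Agent.Lib.MP_7f377f_mp.RG.Q4

open Finset

/-- an approximate solution of the linear equation in the tree gauge is small far from the boundary -/
theorem hh_decay : ∃ c : ℕ, 1 ≤ c ∧ ∀ (l R n k : ℕ) (cL cU : ℝ) (m : BF), c ≤ l → R ≤ l → k + 6 ≤ l →
    cL ≤ 20 → cU ≤ 20 → Inv n R cL cU m → ∀ (D : V) (γ d : ℝ), 0 ≤ γ → (∀ f, tree l f → D f = 0) →
      Sm (fb l (k + 3)) d D → (∀ f : Lk, yo l f.1 ∈ box k → ¬ tree l f → |∑ y ∈ box 2, hh l m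
        (sh (up l (yo l f.1 + y)) (Pi.single f 1)) (sh (up l (yo l f.1 + y)) D)| ≤ γ) →
      Sm l ((LL l : ℝ) ^ 22 * (γ + Real.exp (-(k / c)) * d)) D := by
  obtain ⟨c, c1, cW⟩ : ∃ c : ℕ, 1 ≤ c ∧ 2 ^ 40 * Lin.GG ^ 3 ≤ c :=
    ⟨⌈2 ^ 40 * Lin.GG ^ 3⌉₊ + 1, by omega, (Nat.le_ceil _).trans (by simp)⟩
  refine ⟨c, c1, fun l R n k cL cU m hl hR hk hc hU hm D γ d γ0 h0 hd hγ => ?_⟩
  obtain ⟨hG, hG2, -, -⟩ := Lin.GG_ge
  have g3 : Lin.GG ^ 2 ≤ Lin.GG ^ 3 := pow_le_pow_right₀ hG (by norm_num)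
  have g1 : Lin.GG ≤ Lin.GG ^ 2 := le_self_pow₀ hG (by norm_num)
  have lc : (c : ℝ) ≤ LL l := by simp only [LL]; norm_cast; omega
  have c0 : (0 : ℝ) < c := by exact_mod_cast c1
  have d0 := hd.nonneg
  refine (Lin.decay0 hm hc hU hR ?_ hk γ0 h0 hd hγ).mono le_rfl ?_
  · rw [abs_of_nonneg (by positivity)]; nlinarith [sq_nonneg Lin.KK]
  · have : Real.exp (-Lin.de * k) ≤ Real.exp (-(k / c)) := by
      refine Real.exp_le_exp.2 ?_
      rw [neg_mul, neg_le_neg_iff, div_le_iff₀ c0, mul_right_comm]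
      refine le_mul_of_one_le_left k.cast_nonneg ?_
      rw [Lin.de, le_inv_mul_iff₀ (by positivity)]; nlinarith
    calc _ ≤ LL l * (LL l : ℝ) ^ 21 * (γ + Real.exp (-(k / c)) * d) := by gcongr; nlinarith
      _ = _ := by ring

end Pool.Agent.Lib.MP_7f377f_mp.RG.Q4
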