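import Pool.Agent.Lib.MP_7f377f_mp.G.Q4Tau

/-! Geometry of the holes of one step, and the data of the budget inequality: definitions. -/

noncomputable section

set_option linter.unusedSectionVars false
variable [Pool.Agent.Lib.MP_7f377f_mp.GD]

namespace Pool.Agent.Lib.MP_7f377f_mp.RG.Q4

open Finset

/-- primitive marks: an old core (fine sites) or a coarse site with a large block field -/
abbrev Pm : Type := Finset St ⊕ St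

/-- the coarse sites occupied by a primitive mark -/
def pb (l n : ℕ) : Pm → Finset St
  | .inl C => dn l n C
  | .inr y => {y}

/-- the collar of a primitive mark -/
def zsp (l n D1 : ℕ) (o : Pm) : Finset St := tb n D1 (pb l n o)

/-- the holes -/
def Hh (l n : ℕ) (CC : Finset (Finset St)) (Wm : Finset St) : Finset St :=
  CC.biUnion (dn l n) ∪ Wm

/-- the zones: connected components of the union of the collars -/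
def zones (l n D1 : ℕ) (CC : Finset (Finset St)) (Wm : Finset St) : Finset (Finset St) :=
  (comps (zsp l n D1) (CC.disjSum Wm)).image (us (zsp l n D1))

/-- total curvature of the plaquettes based at `x` -/
def fs (U : Conf) (x : St) : ℝ := ∑ μ, ∑ ν, fq U x μ ν

/-- a zone is healed if it is small and the function `rW` (the curvature) is small on it -/
def Heal (n DD : ℕ) (ε2 : ℝ) (rW : St → ℝ) (Z : Finset St) : Prop :=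
  tau n DD Z = 1 ∧ ∀ y ∈ Z, rW y ≤ ε2

open Classical in
/-- the new cores -/
def ncs (l n D1 DD : ℕ) (ε2 : ℝ) (rW : St → ℝ) (CC : Finset (Finset St)) (Wm : Finset St) :
    Finset (Finset St) :=
  (zones l n D1 CC Wm).filter fun Z => ¬ Heal n DD ε2 rW Z

/-- `y` is at distance larger than `d` from `Y` -/
def Far (n d : ℕ) (Y : Finset St) (y : St) : Prop := ∀ p ∈ Y, ¬ nearT n d p y

/-- functions on the torus -/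
def Pf {α : Type} (n : ℕ) (f : St → α) : Prop := ∀ y, f (rc n y) = f y

/-- the numbers of the budget -/
structure Bp where
  l : ℕ
  n : ℕ
  ρ : ℕ
  r : ℕ
  dt : ℕ
  el : ℕ
  j : ℕ
  dD : ℕ
  dN : ℕ
  R : ℕ
  D1 : ℕ
  D3 : ℕ
  D4 : ℕ
  DD0 : ℕ
  DD : ℕ
  C1 : ℝ
  M : ℝ
  U : ℝ
  U0 : ℝ
  M1 : ℝ
  M2 : ℝ
  lam : ℝ
  ε1 : ℝ
  ε2 : ℝ
  gN : ℝ
  gD : ℝ
  g0 : ℝ
  u : ℝ
  G0 : ℝ
  G2 : ℝ
  G0' : ℝ
  G2' : ℝ

/-- the outer radius of the transition region -/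
def Bp.d2 (p : Bp) : ℕ := p.dt + 2 * (p.ρ + p.r + 2) + p.j * p.el

structure Bp.Ok (p : Bp) : Prop where
  odd : Odd p.n
  n5 : 5 ≤ p.n
  C1 : 0 ≤ p.C1
  el : 100 * (p.ρ + p.r + 2) * (1 + p.C1 * (2 * p.ρ + 1) ^ 4 * (2 * p.r + 1) ^ 4) ≤ p.el
  M : 10 ≤ p.M
  j : p.M + 1 ≤ Real.exp p.j
  D1 : p.d2 + p.r ≤ p.D1
  R : p.R + 1 ≤ 2 * p.D1
  D13 : p.D1 + 2 ≤ p.D3
  dN : p.dN + p.d2 ≤ p.D3
  dD : p.d2 + p.dD ≤ p.D4
  dD3 : p.dD ≤ p.D3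
  D4 : p.D3 ≤ p.D4
  DD0 : 1 ≤ p.DD0
  DD : 4 * p.DD0 / LL p.l + p.D1 + 3 ≤ p.DD
  U : 0 ≤ p.U
  U0 : 0 ≤ p.U0
  M1 : 0 ≤ p.M1
  M2 : 0 ≤ p.M2
  lam : 0 ≤ p.lam
  g0 : 0 ≤ p.g0
  e12 : p.ε2 ≤ p.ε1
  gD : (p.U0 + 2 * p.U + 10) * (2 * p.D4 + 1) ^ 4 + p.g0 ≤ p.gD
  gN : (p.gD + p.M1) * (2 * p.D4 + 1) ^ 4 ≤ p.gN
  u : 2 * p.gD * (2 * p.D4 + 1) ^ 4 * (2 * p.DD0 + 1) ^ 4 + p.g0 ≤ p.u
  G2 : 2 * p.u ≤ p.G2
  G0 : 2 * p.u + 4 * p.G2 + p.M2 * (2 * p.DD + 1) ^ 4 ≤ p.G0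
  G0' : p.G0' ≤ p.G0
  G2' : 0 ≤ p.G2' ∧ p.G2' ≤ p.G2
  e1 : (5 * p.G2' + 2 * p.u) * (2 * p.R + 3) ^ 4 ≤ p.lam * p.ε1
  e2 : p.u ≤ p.lam * p.ε2

/-- the functions of the budget. `e` kept energy, `rg` old regulators, `t` new energy, `t'` the
exponent of the new weight, `h` energy of the fluctuation, `xi y v` flow from `y` to `y + v`,
`rW` curvature of the block field; `Nz` the sites with large noise, `D` the sites with a large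
fluctuation variable -/
structure Bf (p : Bp) (CC : Finset (Finset St)) (Wm D Nz Om : Finset St)
    (e rg t t' h rW : St → ℝ) (xi : St → St → ℝ) : Prop where
  om : Om = tb p.n p.D3 (Hh p.l p.n CC Wm ∪ D)
  cc : ∀ C ∈ CC, C.Nonempty ∧ ∀ x ∈ C, rc (LL p.l * p.n) x = x
  wm : ∀ y ∈ Wm, rc p.n y = y
  dd : ∀ y ∈ D, rc p.n y = y
  nz : Nz ⊆ tb p.n p.dN (Hh p.l p.n CC Wm ∪ D)
  pe : Pf p.n e
  prg : Pf p.n rg
  pt : Pf p.n t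
  ph : Pf p.n h
  prW : Pf p.n rW
  pxi : ∀ v, Pf p.n fun y => xi y v
  e0 : ∀ y ∈ Om, 0 ≤ e y
  rg0 : ∀ y ∈ Om, 0 ≤ rg y
  rW0 : ∀ y, 0 ≤ rW y
  tay : ∀ y ∈ Om, Far p.n p.dt (Hh p.l p.n CC Wm ∪ Nz) y →
    t y + h y - 1 ≤ e y + ∑ v ∈ box p.ρ, (xi (y + v) (-v) - xi y v) ∧ -1 ≤ t y ∧ 0 ≤ h y ∧
      t y + h y ≤ p.M ∧ t' y ≤ t y + 1 ∧ 3 * p.lam * rW y ≤ t y / 4 + p.U ∧
      ∀ v ∈ box p.ρ, Far p.n (p.dt + p.r) (Hh p.l p.n CC Wm ∪ Nz) y →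
        |xi y v| ≤ p.C1 * ∑ u ∈ box p.r, (t (y + u) + h (y + u) + 1)
  m4 : ∀ y ∈ tb p.n p.D1 (Hh p.l p.n CC Wm),
    3 * p.lam * rW y ≤ 625⁻¹ * ∑ u ∈ box 2, (e (y + u) / 8 + rg (y + u)) + p.U
  bad : ∀ y ∈ Wm, ∃ q ∈ Wm, nearT p.n (p.R + 1) y q ∧ p.ε1 < rW q
  new : ∀ q ∈ Wm, p.ε1 < rW q → Far p.n 2 (CC.biUnion (dn p.l p.n)) q →
    4 * p.G0' ≤ ∑ u ∈ box 2, e (q + u)
  noi : ∀ y ∈ Nz, 4 * p.gN ≤ e y
  m1 : ∀ y ∈ Om, y ∉ Wm → t' y ≤ p.M1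
  m2 : ∀ y ∈ Om, y ∉ Wm → (∀ u ∈ box p.r, rW (y + u) ≤ p.ε2) → t' y ≤ p.M2
  big : ∀ y ∈ D, Far p.n (p.d2 + p.dD) (Hh p.l p.n CC Wm ∪ Nz) y →
    p.gD * (2 * p.dD + 1) ^ 4 ≤ ∑ u ∈ box p.dD, h (y + u)

end Pool.Agent.Lib.MP_7f377f_mp.RG.Q4
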