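import Pool.Agent.Lib.MP_7f377f_mp.G.Q4Kit
import Pool.Agent.Lib.MP_7f377f_mp.Q4LinDefs
import Pool.Agent.Lib.MP_7f377f_mp.G.RGHol3

/-! The class of the small local terms of the effective action: definitions. -/

noncomputable section

set_option linter.unusedSectionVars false
variable [Pool.Agent.Lib.MP_7f377f_mp.GD]

namespace Pool.Agent.Lib.MP_7f377f_mp.RG.Q4

open Finset

/-- bilinear forms on scalar fields with complex values -/
abbrev CF := V →ₗ[ℝ] V →ₗ[ℝ] ℂ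

/-- the field of constant curvature with the curvature of `a` at the origin -/
def cc (a : V) : V := fun e => 2⁻¹ * ∑ ν, dd a 0 ν e.2 * (e.1 ν : ℝ)

/-- weighted bound for the curvature -/
def Cw (R s : ℕ) (δ : ℝ) (a : V) : Prop := ∀ j ≤ R, Cv j (δ * (j + 1 : ℝ) ^ s) a

/-- the quadratic part at the origin, on one colour -/
def q2 (ψ : Fld → ℂ) (a b : V) : ℂ := kq (fun a : V => ψ (Ho.em GD.k0 a)) a b

/-- its value on constant curvature -/
def qc (ψ : Fld → ℂ) (a b : V) : ℂ := q2 ψ (cc a) (cc b)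

/-- the remainder -/
def rem (ψ : Fld → ℂ) (B : Fld) : ℂ := ψ B - ∑ j, q2 ψ (reF B j) (reF B j)

/-- cubes of real fields with curvature of size at most `d` -/
def Cu (R : ℕ) (η : Fin 3 → ℝ) (d : ℝ) (γ : Vx → Fld) : Prop :=
  (∀ T, RealF (γ T)) ∧ ∀ x ∈ box R, ∀ μ ν, cN η (fun T => dd (γ T) x μ ν) ≤ d

/-- jets which are homogeneous of degree three -/
def H3 (R : ℕ) (ρ M : ℝ) (φ : Fld → ℂ) : Prop :=
  ∀ η, Eta 1 η → ∀ γ d, Cu R η d γ → d ≤ ρ → cN η (fun T => φ (γ T)) ≤ M * (d / ρ) ^ 3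

/-- on real fields of curvature at most `ρ` the function depends only on the curvature in the box
of radius `R` and is invariant under rotations -/
structure LA (R : ℕ) (ρ : ℝ) (φ : Fld → ℂ) : Prop where
  loc : ∀ A B, RealF A → RealF B → Cv R ρ A → (∀ x ∈ box R, ∀ μ ν, dd A x μ ν = dd B x μ ν) →
    φ A = φ B
  ad : ∀ (u : S3) B, RealF B → Cv R ρ B → Cv R ρ (adF (fun _ => cS u) B) →
    φ (adF (fun _ => cS u) B) = φ B

/-- local terms: `xb` bounds the quadratic part on constant curvature, `xk` the rest of the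
quadratic part, `xr` the remainder on the domain of curvature `ρ` -/
structure Ps (R s : ℕ) (ρ xb xk xr : ℝ) (ψ : Fld → ℂ) : Prop extends LA R ρ ψ where
  bil : ∃ k : CF, (∀ a b, k a b = k b a) ∧ ∀ a b, q2 ψ a b = k a b
  cb : ∀ a b δ δ', Cv 0 δ a → Cv 0 δ' b → ‖qc ψ a b‖ ≤ xb * δ * δ'
  ck : ∀ a b δ δ', Cw R s δ a → Cw R s δ' b → ‖q2 ψ a b - qc ψ a b‖ ≤ xk * δ * δ'
  jr : H3 R ρ xr (rem ψ)

/-- the tube of width `h` around the real fields of curvature at most `ρ` -/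
def InT (R : ℕ) (ρ h : ℝ) (B : Fld) : Prop := ∃ B0, RealF B0 ∧ Cv R ρ B0 ∧ Cv R h (B - B0)

/-- local terms which are holomorphic and bounded on a tube -/
structure Tb (R : ℕ) (ρ h M : ℝ) (φ : Fld → ℂ) : Prop extends LA R ρ φ where
  hol : ∀ Ω γ, IsOpen Ω → Disc Ω γ → (∀ t ∈ Ω, InT R ρ h (γ t)) →
    DifferentiableOn ℂ (fun t => φ (γ t)) Ω
  bd : ∀ B, InT R ρ h B → ‖φ B‖ ≤ M

/-- jets on real fields: base point of curvature at most `ρ`, variation at most `h` -/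
def JC (R : ℕ) (h ρ M : ℝ) (φ : Fld → ℂ) : Prop :=
  ∀ η, Eta 1 η → ∀ γ : Vx → Fld, (∀ T, RealF (γ T)) → Cv R ρ (γ o3) →
    (∀ x ∈ box R, ∀ μ ν, cV η (fun T => dd (γ T) x μ ν) ≤ h) → cN η (fun T => φ (γ T)) ≤ M

/-- symmetric forms with bounds for the constant curvature part and for the rest -/
structure Fm (R s : ℕ) (xb xk : ℝ) (k : CF) : Prop where
  symm : ∀ a b, k a b = k b a
  cb : ∀ a b δ δ', Cv 0 δ a → Cv 0 δ' b → ‖k (cc a) (cc b)‖ ≤ xb * δ * δ'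
  ck : ∀ a b δ δ', Cw R s δ a → Cw R s δ' b → ‖k a b - k (cc a) (cc b)‖ ≤ xk * δ * δ'

/-- the quadratic function of a form -/
def qf (k : CF) (B : Fld) : ℂ := ∑ j, k (reF B j) (reF B j)

/-- `G x z B` is the field seen from the site `x` of the block, for the coarse field `B` and the
fluctuation `z`; it is close to the linear minimiser -/
structure Fam {Z : Type} [MeasurableSpace Z] (ν : MeasureTheory.Measure Z) (l R R' : ℕ)
    (σ : V →ₗ[ℝ] V) (δ e ε : ℝ) (G : St → Z → Fld → Fld) : Prop where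
  real : ∀ x ∈ box l, ∀ z B, RealF B → Cv R' δ B → RealF (G x z B)
  hol : ∀ x ∈ box l, ∀ z (A B : Fld) (Ω : Set ℂ), IsOpen Ω → (∀ t ∈ Ω, Cv R' δ (A + t • B)) →
    ∀ f ∈ lbox (R + 1), DifferentiableOn ℂ (fun t => G x z (A + t • B) f) Ω
  bd : ∀ x ∈ box l, ∀ z B d, Cv R' d B → d ≤ δ →
    Cv R (e * d + ε) (G x z B - sh x (cxL (mu l σ) B))
  loc : ∀ x ∈ box l, ∀ z A B, RealF A → RealF B → Cv R' δ A →
    (∀ y ∈ box R', ∀ μ ν, dd A y μ ν = dd B y μ ν) →
      ∀ y ∈ box R, ∀ μ ν, dd (G x z A) y μ ν = dd (G x z B) y μ ν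
  ad : ∀ u : S3, ∃ T : Z → Z, MeasurableEmbedding T ∧ MeasureTheory.MeasurePreserving T ν ν ∧
    ∀ x ∈ box l, ∀ z B, RealF B → Cv R' δ B → Cv R' δ (adF (fun _ => cS u) B) →
      ∀ y ∈ box R, ∀ μ ν, dd (G x (T z) (adF (fun _ => cS u) B)) y μ ν =
        dd (adF (fun _ => cS u) (G x z B)) y μ ν
  meas : ∀ x ∈ box l, ∀ B, Cv R' δ B → Measurable fun z => G x z B

/-- the push of a family of local terms -/
def push {Z : Type} [MeasurableSpace Z] (ν : MeasureTheory.Measure Z) (l : ℕ)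
    (G : St → Z → Fld → Fld) (ψ : St → Fld → ℂ) (B : Fld) : ℂ :=
  ∫ z, ∑ x ∈ box l, ψ x (G x z B) ∂ν

end Pool.Agent.Lib.MP_7f377f_mp.RG.Q4
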