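import Pool.Agent.Lib.MP_7f377f_mp.G.Q4ETv
import Pool.Agent.Lib.MP_7f377f_mp.G.Q4EDfc
import Pool.Agent.Lib.MP_7f377f_mp.G.Q4EHyb
import Pool.Agent.Lib.MP_7f377f_mp.G.Q5DifC

/-! Convergence of the laws of tuned runs. -/

noncomputable section

set_option linter.unusedSectionVars false
variable [Pool.Agent.Lib.MP_7f377f_mp.GD]

namespace Pool.Agent.Lib.MP_7f377f_mp.RG.Q4.En

open Finset Real Filter Topology MeasureTheory

namespace Gl.Ok

variable {G : Gl} (h : G.Ok)
include h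

end Gl.Ok

end Pool.Agent.Lib.MP_7f377f_mp.RG.Q4.En
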