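import Pool.Agent.Lib.MP_7f377f_mp.G.Q4NonB
import Pool.Agent.Lib.MP_7f377f_mp.G.Q4MeasLaw
import Pool.Agent.Lib.MP_7f377f_mp.CEnd

/-! The continuum limit in four dimensions from the convergence and the bounds of the densities. -/

noncomputable section

set_option linter.unusedSectionVars false
variable [Pool.Agent.Lib.MP_7f377f_mp.GD]

namespace Pool.Agent.Lib.MP_7f377f_mp.RG.Q4.En

open MeasureTheory Measure Finset YM4 Ms Fi Real Filter
open scoped ENNReal Topology

variable (e : ℕ → ℕ) (a : ℕ → ℝ)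

/-- half side of the blocks of the step from level `j + 1` to level `j` -/
def ll (j : ℕ) : ℕ := 3 ^ (e (j + 1) - e j) / 2

theorem odd3 (k : ℕ) : Odd (3 ^ k) := Odd.pow (by decide)

theorem LL_ll (j : ℕ) : LL (ll e j) = 3 ^ (e (j + 1) - e j) := by
  obtain ⟨k, hk⟩ := odd3 (e (j + 1) - e j)
  unfold LL ll
  omega

variable {e a}

theorem LL_mul (he : Monotone e) (j : ℕ) : LL (ll e j) * 3 ^ e j = 3 ^ e (j + 1) := by
  rw [LL_ll, ← pow_add, Nat.sub_add_cancel (he j.le_succ)]

end Pool.Agent.Lib.MP_7f377f_mp.RG.Q4.En
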