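import Pool.Agent.Lib.MP_7f377f_mp.G.Q4AfDef
import Pool.Agent.Lib.MP_7f377f_mp.G.Q4FluxA
import Pool.Agent.Lib.MP_7f377f_mp.G.Q4RepB
import Pool.Agent.Lib.MP_7f377f_mp.G.Q4PsE
import Pool.Agent.Lib.MP_7f377f_mp.G.Q4End

/-! The flow through many levels: definitions. -/

noncomputable section

set_option linter.unusedSectionVars false
variable [Pool.Agent.Lib.MP_7f377f_mp.GD]

namespace Pool.Agent.Lib.MP_7f377f_mp.RG.Q4.En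

open Finset Filter Topology Real

/-- the ratio of the exponent of the volume and the coupling -/
def wN : ℕ := ⌈70 * GD.cG⌉₊

theorem wN_ge : 70 / GD.b0 ≤ wN := le_trans (by
  rw [div_eq_mul_inv]
  exact mul_le_mul_of_nonneg_left GD.b0_inv (by norm_num)) (Nat.le_ceil _)

theorem wN_10 : 10 ≤ wN := by
  have := GD.b0_pos
  have h : (10 : ℝ) ≤ wN := le_trans (by rw [le_div_iff₀ this]; linarith [GD.b0_le]) wN_ge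
  exact_mod_cast h

theorem wN_le : (wN : ℝ) ≤ 71 * GD.cG ^ 1 := by
  have := GD.b0_pos
  have h : 1 ≤ GD.cG := ((one_le_inv₀ this).2 GD.b0_le).trans GD.b0_inv
  have := Nat.ceil_lt_add_one (show 0 ≤ 70 * GD.cG by positivity)
  unfold wN
  linarith

/-- the schedule: volumes `3 ^ e k` and reference couplings `bb k` -/
structure Sch (K B0 l0 : ℕ) (B : ℕ → ℕ) (bn : ℕ → ℝ) (e : ℕ → ℕ) (bb : ℕ → ℝ) : Prop where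
  mono : StrictMono e
  big : ∀ k, l0 ≤ ll e k
  size : ∀ k, LL (ll e (k + 1)) = LL (ll e k) ∨ LL (ll e (k + 1)) = 3 * LL (ll e k)
  step : ∀ k, bb (k + 1) = bb k + bn (ll e k)
  le : ∀ k, bb k ≤ bb (k + 1) ∧ bb (k + 1) ≤ bb k + LL (ll e k)
  low : ∀ k, (LL (ll e k) : ℝ) ^ B (ll e k) ≤ bb k
  upp : ∀ k, bb (k + 1) ≤ (LL (ll e k) : ℝ) ^ (4 * B (ll e k))
  cmp : ∀ k, (e k : ℝ) / wN ≤ bb k ∧ bb k ≤ e k
  vol : ∀ k, ∃ n : ℕ, Odd n ∧ LL (ll e k) * n = 3 ^ e k ∧ bb k ≤ n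
  sum1 : ∀ k J, ∑ j ∈ Ico k J, ((LL (ll e j) : ℝ) ^ (4 * B (ll e j)))⁻¹ ≤ (bb k ^ 2)⁻¹
  sum2 : ∀ k, ∑ j ∈ range k, (((LL (ll e j) : ℝ) ^ K) ^ 420)⁻¹ ≤
    bb k / ((LL (ll e k) : ℝ) ^ K) ^ 415
  bad : ∀ k J, k ≤ J → ((range k).filter fun j =>
    j = 0 ∨ J ≤ j + ll e j ∨ ll e (j + ll e j) ≠ ll e j).card ≤ LL (ll e k) ^ 3
  lim : Tendsto (fun k => bb k / log ((3 : ℝ) ^ e k)) atTop (𝓝 (11 * GD.b0 / (48 * π ^ 2)))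
  top : Tendsto (ll e) atTop atTop
  grow : Tendsto (fun k => bb k * (2 / 3) ^ k) atTop (𝓝 0)
  Blo : ∀ k, B0 ≤ B (ll e k)
  Bmo : Monotone fun k => B (ll e k)
  Btop : Tendsto (fun k => B (ll e k)) atTop atTop

/-- a level, described as the fine level of a step without change of the parameters -/
structure LF (S : Sd) (v e : ℝ) : Prop where
  nu : S.Nu 100
  hM : S.M = LL S.l
  hβ : S.β' = S.β
  vol : S.β ≤ S.nf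
  v1 : 2⁻¹ ≤ v
  v2 : v ≤ 2
  e0 : 0 ≤ e
  e1 : e * S.β ^ 2 ≤ 1
  tr : ∃ j, S.Tr S.M j v e
  bd : Bd (3 * S.r) (3 * S.r) S.L S.m
  cb : Cb (3 * S.r) S.L S.m

/-- the density `f` is represented by the data -/
def Rp (S : Sd) (ψ : Lx) (K : Ac) (f : Conf → ℂ) : Prop :=
  ∃ κ : ℝ, 0 < κ ∧ ∀ U, Per S.nf U → f U = κ * Rep S.p S.nf (S.Φ ψ) K U

/-- sizes of data -/
def Sz (p : Pa) (n : ℕ) (Q g x y ω : ℝ) (ψ : Lx) (K : Ac) : Prop :=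
  PM p x (Q ^ 2 * y) (Q ^ 50 * ω * y * g ^ 2) ψ ∧ ∃ k, KM p n k K ∧ kN p n k (ω * y * g ^ 2)

/-- real and translation invariant data -/
def Re (p : Pa) (n : ℕ) (ψ : Lx) (K : Ac) : Prop := RealP p ψ ∧ RealA K ∧ TCov n ψ K

/-- what is used of one step -/
structure St2 (S : Sd) : Prop where
  K : ∀ b θ k, S.Q ^ 100 * b ≤ 1 → S.Q ^ 100 * θ ≤ 1 → 0 ≤ b →
    kN S.p S.nf k θ → ∃ k', kN S.p'.up S.n k' (S.θ' b θ) ∧ ∀ ψ K, S.Sml b θ k ψ K →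
      KM S.p' S.n k' (S.KK ψ K)
  id : ∀ b θ k ψ K, S.Sml b θ k ψ K → ∀ W, Per S.n W →
    TT S.l (S.β * S.L ^ 2) S.n (Rep S.p S.nf (S.Φ ψ) K) W =
      Complex.exp (∑ y ∈ S.Λ', S.Ey ψ K y) * Rep S.p' S.n (S.Φ' ψ K) (S.KK ψ K) W
  ps : ∀ xb xk xr θ k ψ K, PM S.p xb xk xr ψ → KM S.p S.nf k K → kN S.p S.nf k θ →
      PM S.p' (xb + S.xd xb xk xr θ) (S.xk' xb xk xr θ) (S.xr' xb xk xr θ) (S.PL ψ K) ∧
      ∀ y a b d d', Cv 0 d a → Cv 0 d' b → ‖qc (S.PL ψ K y) a b -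
        (S.L ^ 4)⁻¹ • ∑ x ∈ box S.l, qc (S.ψy ψ y x) a b‖ ≤ S.xd xb xk xr θ * d * d'
  lin : ∀ b b' k k' ψ ψ' K K' (t : ℂ), PU S.p b ψ → PU S.p b' ψ' →
    KM S.p S.nf k K → KM S.p S.nf k' K' →
      S.PL (ψ + t • ψ') (K + t • K') = S.PL ψ K + t • S.PL ψ' K'
  ol : PM S.p' S.Q S.Q (S.Q * S.p'.ρ ^ 3) (fun _ => S.ol) ∧ RealP S.p' fun _ => S.ol
  hol : ∀ b θ k (Ω : Set ℂ) (ψ : ℂ → Lx) (K : ℂ → Ac), IsOpen Ω →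
    (∀ t ∈ Ω, S.Sml b θ k (ψ t) (K t)) → HolL Ω ψ → HolA Ω K → HolA Ω fun t => S.KK (ψ t) (K t)
  real : ∀ b θ k ψ K, S.Sml b θ k ψ K → RealP S.p ψ → RealA K →
    RealP S.p' (S.PL ψ K) ∧ RealA (S.KK ψ K) ∧ ∀ y, (S.Ey ψ K y).im = 0
  cov : ∀ b θ k ψ K, S.Sml b θ k ψ K → TCov S.nf ψ K → TCov S.n (S.PL ψ K) (S.KK ψ K)

/-- what is used of the tree step -/
def St1 (S : Sd) : Prop := ∀ j (v e lam : ℝ), 2⁻¹ ≤ v → v ≤ 2 → 0 ≤ e → e ≤ 1000⁻¹ →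
  S.Tr S.M j v e → S.Ln j v e → 2⁻¹ ≤ lam * v → |lam - 1| ≤ 10⁻¹ →
    Cd (S.L ^ S.B)⁻¹ S.m1 S.m ∧ ∀ t : Td, t.Kt = S.Kt → t.K0 = S.K0 →
      (LL S.l = LL t.l ∨ LL S.l = 3 * LL t.l) → t.m = lam • S.m1 →
      (t.T = fun B => lam * S.T1 B) →
        t.Tr (LL S.l) (2 * j * S.l + j + S.l) (lam * v) (e + (S.L ^ S.B)⁻¹)

/-- contraction of the difference of two quadratic densities -/
def DfS (S : Sd) : Prop := ∀ (t : Td) M M' j j' (v v' e e' lam lam' η σ : ℝ), t.c = S.c →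
  t.l = S.l → 2⁻¹ ≤ v → v ≤ 2 → 2⁻¹ ≤ v' → v' ≤ 2 → 0 ≤ e → 0 ≤ e' → S.Tr M j v e → S.Ln j v e →
  t.Tr M' j' v' e' → t.Ln j' v' e' → |v - v'| ≤ η → e ≤ η → e' ≤ η → |lam - 1| ≤ η →
  |lam' - 1| ≤ η → S.Q * η ≤ 1 → 0 ≤ σ → Df (3 * S.r) S.L S.m t.m ∧ (Df (3 * S.r) σ S.m t.m →
    Df (S.r + 3) (S.cs / 3 * σ + S.L * η + S.β⁻¹) (lam • S.m1) (lam' • t.m1))

end Pool.Agent.Lib.MP_7f377f_mp.RG.Q4.En
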