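import Pool.Agent.Lib.MP_7f377f_mp.G.Q4EG
import Pool.Agent.Lib.MP_7f377f_mp.G.Q4EPs
import Pool.Agent.Lib.MP_7f377f_mp.Q4Shoot

/-! The difference of two flows with the same measured coupling at the bottom. -/

noncomputable section

set_option linter.unusedSectionVars false
variable [Pool.Agent.Lib.MP_7f377f_mp.GD]

namespace Pool.Agent.Lib.MP_7f377f_mp.RG.Q4.En

open Finset Real

/-- the norm of the marginal part is a size -/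
theorem pm_nb {p : Pa} {a b c b' c' : ℝ} {ψ : Lx} (h0 : 0 < p.ρ) (h : PM p a b c ψ)
    (e : ∀ x, ψ x = ψ 0) (h1 : b ≤ b') (h2 : c ≤ c') : PM p (nb (ψ 0)) b' c' ψ := fun x =>
  ⟨e x ▸ (Ps.nb (h x).1).1.mono' h0 le_rfl h1 h2, (h x).2⟩

namespace Gl.Ok

variable {G : Gl} (h : G.Ok) {b x y : ℝ} {J i k : ℕ} {z : Z} {ψ ψ' : Lx} {K K' : Ac}
include h

theorem rh0 (k : ℕ) : 0 < (G.p k).ρ :=
  (rho_pos (h.sl_all k (G.top0 0 0)).nu).trans_eq (congrArg Pa.ρ rfl)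

theorem u_one (k : ℕ) : 1 ≤ G.u k := (one_le_div (pow_pos (h.Q0 k) _)).2
  ((pow_le_pow_right₀ (h.Q1 k) (by norm_num)).trans (h.Qb k))

theorem u_up (k : ℕ) : G.u (k + 1) ≤ 1001 / 1000 * G.u k := by
  have := h.Q0 k
  have := h.b0 k
  rw [u, u, ← mul_div_assoc]
  gcongr
  exacts [h.b_succ k, h.Q_mono k.le_succ]

theorem u_g (k : ℕ) (e : x ≤ 132 * G.u k) : G.Q k ^ 300 * x * G.g k ^ 2 ≤ 1 := by
  have Q0 := h.Q0 k
  calc _ ≤ G.Q k ^ 300 * (132 * G.u k) * G.g k ^ 2 := by gcongr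
    _ = 132 / G.Q k ^ 100 * (G.bb k * G.g k ^ 2) := by rw [u]; field_simp
    _ ≤ 1 := by
      rw [h.bg, mul_one, div_le_one (by positivity)]
      exact (h.cQ k (by norm_num)).trans (le_self_pow₀ (h.Q1 k) (by norm_num))

theorem sg_le (k : ℕ) : √(G.g k) ≤ (G.Q k ^ 100)⁻¹ := by
  rw [← one_div, le_div_iff₀' (pow_pos (h.Q0 k) _)]
  exact (mul_le_mul_of_nonneg_right (pow_le_pow_right₀ (h.Q1 k) (by norm_num))
    (sqrt_nonneg _)).trans (h.Qsg k)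

/-- one step for the difference of two sets of data -/
theorem dif_step (t : G.Tz J (k + 1) z) (a : G.Sz (k + 1) 1 1 √(G.g (k + 1)) z.ψ z.K)
    (s : G.Sz (k + 1) x y (G.Q (k + 1) ^ 100)⁻¹ ψ K) (y0 : 0 < y)
    (hx : G.Q (k + 1) ^ 300 * (x + y) * G.g (k + 1) ^ 2 ≤ 1) (c : ∀ v, ψ v = ψ 0)
    (e1 : ψ' = (G.hs k z (z.ψ + ψ, z.K + K)).1 - (G.nx k z).ψ)
    (e2 : K' = (G.hs k z (z.ψ + ψ, z.K + K)).2 - (G.nx k z).K) (c' : ∀ v, ψ' v = ψ' 0) :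
    G.Sz k (nb (ψ' 0)) (y / 2 + x / 100) (G.Q k ^ 100)⁻¹ ψ' K' ∧
      nb (ψ 0) ≤ nb (ψ' 0) + (x + y) / 1000 := by
  have n := (h.sd_all k z).nu
  have f := h.st2 t
  rw [Sz, ← h.sd_nf k z] at a s
  have Q0 := h.Q0 k
  have Qm := h.Q_mono k.le_succ
  have g0 := h.g0 (k + 1)
  have gm := h.g_succ k
  have x0 : 0 ≤ x := (Sz.nn n s).1
  have w : (G.Q (k + 1) ^ 100)⁻¹ ≤ (G.Q k ^ 100)⁻¹ := by gcongr
  have iv : ∀ {t : ℝ}, t ≤ (G.Q k ^ 100)⁻¹ → G.Q k ^ 100 * t ≤ 1 := fun ht =>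
    (mul_le_mul_of_nonneg_left ht (by positivity)).trans_eq (mul_inv_cancel₀ (by positivity))
  have w1 := iv w
  have w2 := iv ((h.sg_le _).trans w)
  have E : ψ' = (G.sd k z).PL ψ K := by
    obtain ⟨_, k1, -⟩ := a.2
    obtain ⟨_, k2, -⟩ := s.2
    have := f.lin _ _ _ _ _ _ _ _ 1 (Sz.pu n a w2) (Sz.pu n s w1) k1 k2
    rw [one_smul, one_smul, one_smul] at this
    rw [e1]
    show stp _ _ _ _ - stp _ _ _ _ = _
    rw [stp, stp, this]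
    abel
  obtain ⟨p1, p2⟩ := lin_step n f s (h.sg_le _) w1
  obtain ⟨d, d1, d2⟩ := lip_step n f a s (le_trans
    (by show G.Q k ^ 300 * _ * G.g (k + 1) ^ 2 ≤ _; gcongr)
    (h.u_g (x := 1) (k + 1) (by linarith [h.u_one (k + 1)]))) w2 w1 y0
    (le_trans (by show G.Q k ^ 300 * _ * G.g (k + 1) ^ 2 ≤ _; gcongr) hx)
  rw [← E] at p1 p2
  refine ⟨⟨pm_nb (h.rh0 k) p1 c' ?_ ?_, d, e2 ▸ d1, d2.mono ?_⟩, (nb_sub (p2 c)).trans ?_⟩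
  · show G.Q k ^ 2 * _ ≤ _
    gcongr ?_ * ?_
    linarith
  · show G.Q k ^ 50 * _ * _ * G.g (k + 1) ^ 2 ≤ _
    gcongr ?_ * ?_ * ?_ * ?_ ^ 2
    linarith
  · show (G.Q k ^ 100)⁻¹ * _ * G.g (k + 1) ^ 2 ≤ _
    gcongr ?_ * ?_ * ?_ ^ 2
    linarith
  · show _ + 64 * (G.Q k ^ 50 * _ * _) ≤ _
    have q : 64000 * G.Q k ^ 50 ≤ G.Q k ^ 100 :=
      (mul_le_mul_of_nonneg_right (h.cQ k (by norm_num)) (by positivity)).trans
        ((pow_succ' _ _).ge.trans (pow_le_pow_right₀ (h.Q1 k) (by norm_num)))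
    have q' := mul_le_mul_of_nonneg_right q (inv_pos.2 (pow_pos (h.Q0 (k + 1)) 100)).le
    nlinarith [mul_le_mul_of_nonneg_right (q'.trans w1) (add_pos_of_nonneg_of_pos x0 y0).le]

end Gl.Ok

end Pool.Agent.Lib.MP_7f377f_mp.RG.Q4.En
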