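import Pool.Agent.Lib.MP_7f377f_mp.G.Q4EG
import Pool.Agent.Lib.MP_7f377f_mp.G.Q4ETv

/-! The limit is not trivial; the final statement from tuned runs and their convergence. -/

noncomputable section

set_option linter.unusedSectionVars false
variable [Pool.Agent.Lib.MP_7f377f_mp.GD]

namespace Pool.Agent.Lib.MP_7f377f_mp.RG.Q4.En

open Finset Real Filter Topology MeasureTheory

end Pool.Agent.Lib.MP_7f377f_mp.RG.Q4.En
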