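import Pool.Agent.Lib.MP_7f377f_mp.G.Q4ERp0
import Pool.Agent.Lib.MP_7f377f_mp.G.Q4FinB
import Pool.Agent.Lib.MP_7f377f_mp.G.Q4MeasLoc
import Pool.Agent.Lib.MP_7f377f_mp.G.Q4MeasInv
import Pool.Agent.Lib.MP_7f377f_mp.KitMix
import Pool.Agent.Lib.MP_7f377f_mp.WeakRP

/-! Block averaging preserves reflection positivity. -/

noncomputable section

set_option linter.unusedSectionVars false
variable [Pool.Agent.Lib.MP_7f377f_mp.GD]

namespace Pool.Agent.Lib.MP_7f377f_mp.RG.Q4.Rf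

open MeasureTheory Measure Finset YM4 Fi Kit
open scoped ENNReal

section meas

variable {ι X : Type} [MeasurableSpace X] {ν : Measure X}

end meas

variable {m n l : ℕ} {k : Fin 4} {a : ℝ} {F G : Cfg n → ℝ} {U U' : Cfg m}

variable [NeZero n]

instance (l : ℕ) : IsProbabilityMeasure (unO l) := (wt_int l 1).2.2

variable (ha : 0 ≤ a)
include ha

omit ha

end Pool.Agent.Lib.MP_7f377f_mp.RG.Q4.Rf

namespace Pool.Agent.Lib.MP_7f377f_mp.YM4

open MeasureTheory RG RG.Q4 Rf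

end Pool.Agent.Lib.MP_7f377f_mp.YM4
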