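import Pool.Agent.Lib.MP_7f377f_mp.G.Q4Zin
import Pool.Agent.Lib.MP_7f377f_mp.Q4Shoot

/-! Tuning of the bare coupling. -/

noncomputable section

set_option linter.unusedSectionVars false
variable [Pool.Agent.Lib.MP_7f377f_mp.GD]

namespace Pool.Agent.Lib.MP_7f377f_mp.RG.Q4.En.Gl

open Finset Real Sd

variable (G : Gl)

/-- bound for the change of the coupling in one step -/
def er (J j : ℕ) : ℝ := if j = 0 ∨ J ≤ j + ll G.e j ∨ ll G.e (j + ll G.e j) ≠ ll G.e j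
  then G.Q j ^ 2 else (G.Q j ^ 420)⁻¹

/-- deviation of the measured coupling -/
def dv (J k : ℕ) (b : ℝ) : ℝ :=
  bh (G.N k) (G.g k / if k = 0 then G.Q k else G.Q k ^ 250) (G.f (max b 0) J k) - G.bb k

theorem sd_td (k : ℕ) (z : Z) : (G.sd k z).toTd = G.td k z := rfl

variable {G} in
theorem td_m (i k : ℕ) (z : Z) : (G.td i (G.nx k z)).m = G.lam k z • (G.td k z).m1 := by
  rw [← G.sd_td k z]; rfl

variable {G} in
theorem td_T (i k : ℕ) (z : Z) :
    (G.td i (G.nx k z)).T = fun B => G.lam k z * (G.td k z).T1 B := by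
  rw [← G.sd_td k z]; rfl

namespace Ok

variable {G} (h : G.Ok) {b : ℝ} {J k : ℕ} {z : Z}
include h

theorem er0 (J j : ℕ) : 0 ≤ G.er J j := by
  have := h.Q0 j
  unfold er; split_ifs <;> positivity

theorem wd_le (hk : k ≤ J) : ∑ j ∈ range k, G.er J j ≤ G.bb k / G.Q k ^ 410 := by
  have q := h.Q0 k
  have a : ∑ j ∈ range k, G.er J j ≤ G.Q k ^ 3 * G.Q k ^ 2 + G.bb k / G.Q k ^ 415 := by
    unfold er
    rw [sum_ite]
    refine add_le_add ((sum_le_card_nsmul _ _ (G.Q k ^ 2) fun j hj => pow_le_pow_left₀ (h.Q0 j).le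
      (h.Q_mono (mem_range.1 (mem_filter.1 hj).1).le) 2).trans ?_)
      ((sum_le_sum_of_subset_of_nonneg (filter_subset _ _) fun j _ _ =>
        (inv_pos.2 (pow_pos (h.Q0 j) _)).le).trans (h.sch.sum2 k))
    rw [nsmul_eq_mul]
    refine mul_le_mul_of_nonneg_right (le_trans ?_ (pow_le_pow_left₀ (Nat.cast_nonneg _)
      (h.LQ k) 3)) (sq_nonneg _)
    exact_mod_cast h.sch.bad k J hk
  refine a.trans ?_
  rw [le_div_iff₀ (pow_pos q _), add_mul, show G.bb k / G.Q k ^ 415 * G.Q k ^ 410 =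
    G.bb k * (G.Q k ^ 5)⁻¹ by field_simp, ← pow_add, ← pow_add]
  have := h.inv_le k (i := 0) (j := 5) (by norm_num)
  rw [pow_zero, inv_one] at this
  nlinarith only [h.Qbb k (i := 415) (by norm_num), this, h.b0 k]

theorem dv_le (b0 : 0 ≤ b) (d : G.Gd b J k z) : |G.dv J k b - G.bb k * (z.v - 1)| ≤
    if k = 0 then 7 else (G.Q k ^ 490)⁻¹ := by
  rw [dv, max_eq_left b0, mul_sub_one, sub_sub_sub_cancel_right]
  split_ifs
  exacts [(h.meas b0 d).1, (h.meas b0 d).2]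

theorem dv_le' (b0 : 0 ≤ b) (d : G.Gd b J k z) : |G.dv J k b - G.bb k * (z.v - 1)| ≤ 7 :=
  (h.dv_le b0 d).trans (by
    split_ifs
    exacts [le_rfl, (inv_le_one_of_one_le₀ (one_le_pow₀ (h.Q1 k))).trans (by norm_num)])

theorem v_le (b0 : 0 ≤ b) (d : G.Gd b J k z) (hk : k ≤ J)
    (w : |G.dv J k b| ≤ ∑ j ∈ range k, G.er J j) : |z.v - 1| ≤ (G.Q k ^ 409)⁻¹ := by
  have q := h.Q0 k
  have a := (abs_sub_abs_le_abs_sub _ _).trans ((abs_sub_comm _ _).trans_le (h.dv_le' b0 d))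
  rw [abs_mul, abs_of_pos (h.b0 k)] at a
  refine le_of_mul_le_mul_left ?_ (h.b0 k)
  have c : 1000 ≤ G.bb k * (G.Q k ^ 410)⁻¹ := by
    rw [← div_eq_mul_inv, le_div_iff₀ (pow_pos q _)]; exact h.Qbb k (by norm_num)
  have := mul_le_mul_of_nonneg_left (h.inv_le k (i := 409) (j := 410) (by norm_num)) (h.b0 k).le
  have := w.trans (h.wd_le hk)
  rw [div_eq_mul_inv] at this
  linarith

theorem v20 (w : |z.v - 1| ≤ (G.Q k ^ 409)⁻¹) : |z.v - 1| ≤ 20⁻¹ := by
  have := h.inv_le k (i := 0) (j := 409) (by norm_num)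
  rw [pow_zero, inv_one] at this
  linarith

theorem gd_all (b0 : 0 ≤ b) (hb : |b / G.bb J - 1| ≤ 10⁻¹) : ∀ k ≤ J, (∀ i, k < i → i ≤ J →
    |G.dv J i b| ≤ ∑ j ∈ range i, G.er J j) → G.Gd b J k (G.zz b J k) :=
  dw_ind (fun _ => zz_top b J ▸ h.gd_top hb) fun k hk ih w => by
    have d := ih fun i a => w i (by omega)
    rw [zz_step b hk]
    exact (h.gd_step b0 hk d (h.v20 (h.v_le b0 d hk (w _ k.lt_succ_self hk)))).1

theorem l_eq {i j : ℕ} (e : G.l j = G.l k) (h1 : k ≤ i) (h2 : i ≤ j) : G.l i = G.l k := by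
  have := h.L_mono h1
  have := h.L_mono h2
  unfold L LL at *
  omega

theorem af_step (hJ : k + G.l k < J) (e : G.l (k + G.l k) = G.l k)
    (d : ∀ i, k < i → i ≤ J → G.Tz J i (G.zz b J i))
    (w : ∀ i, k ≤ i → i < J → |G.lam i (G.zz b J (i + 1)) - 1| ≤ 3 * G.Q i / G.bb i) :
    |(qc (G.sd k (G.zz b J (k + 1))).ol En.e1 En.e1).re + G.bn (G.l k)| ≤ (G.Q k ^ 500)⁻¹ := by
  obtain ⟨t, ht⟩ : ∃ t : ℕ → Td, ∀ s, t s = G.td (k + G.l k - s) (G.zz b J (k + G.l k - s + 1)) :=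
    ⟨_, fun _ => rfl⟩
  have l0 : (0 : ℝ) < G.L k := by linarith [h.L1 k]
  have B := h.B1
  have := (h.sd_all k (G.zz b J (k + 1))).af (G.l k) t le_rfl ⟨fun i hi => ?_, fun i hi => ?_,
    fun i hi => ⟨G.lam (k + G.l k - i) (G.zz b J (k + G.l k - i + 1)), ?_, ?_⟩⟩
  · rwa [ht, Nat.add_sub_cancel] at this
  · rw [ht]
    exact ⟨rfl, rfl, rfl, h.l_eq e (by omega) (by omega)⟩
  · have D := d (k + G.l k - i + 1) (by omega) (by omega)
    rw [ht]
    refine ⟨_, _, _, _, ?_, D.v, ze0 D, ?_, D.tr _ (.inr rfl), h.ln D (.inr rfl)⟩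
    · rcases Nat.eq_zero_or_pos i with rfl | i0
      · exact (h.sch.size (k + G.l k)).imp (·.trans (congrArg LL e))
          fun a => ⟨rfl, a.trans (congrArg (3 * LL ·) e)⟩
      · exact .inl (congrArg LL (h.l_eq e (by omega) (by omega)))
    · have a := (h.Lb k (i := G.κ) (by omega)).trans (h.b_mono (show k ≤ k + G.l k - i + 1 by omega))
      have c := (one_le_pow₀ (h.Q1 _)).trans (h.Qb (k + G.l k - i + 1))
      change _ ≤ ((G.L k : ℝ) ^ G.κ)⁻¹
      rw [inv_eq_one_div, le_div_iff₀ (pow_pos l0 _)]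
      exact (mul_le_mul_of_nonneg_left (a.trans (le_self_pow₀ c two_ne_zero)) (ze0 D)).trans
        (h.ze1 D)
  · refine (w _ (by omega) (by omega)).trans ?_
    have a := h.Lb (k + G.l k - i) (i := G.K + G.κ + 1) (by omega)
    change _ ≤ ((G.L k : ℝ) ^ G.κ)⁻¹
    rw [Q]
    rw [show G.L (k + G.l k - i) = G.L k from congrArg LL (h.l_eq e (by omega) (by omega))] at a ⊢
    rw [inv_eq_one_div, div_le_div_iff₀ (h.b0 _) (pow_pos l0 _), one_mul, mul_assoc, ← pow_add]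
    refine le_trans ?_ a
    rw [pow_succ']
    gcongr
    linarith [h.L1 k]
  · rw [ht, ht, show k + G.l k - (i + 1) + 1 = k + G.l k - i by omega,
      zz_step b (show k + G.l k - i < J by omega)]
    exact ⟨td_m _ _ _, td_T _ _ _⟩

theorem run1 (J : ℕ) :
    ∃ b, G.Tu1 b J ∧ bh (G.N 0) (G.g 0 / G.Q 0) (G.f b J 0) = G.bb 0 := by
  have b0 := h.b0 J
  have I : ∀ b ∈ Set.Icc (9 / 10 * G.bb J) (11 / 10 * G.bb J), 0 ≤ b ∧ |b / G.bb J - 1| ≤ 10⁻¹ :=
    fun b hb => ⟨by linarith [hb.1], by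
      rw [div_sub_one b0.ne', abs_div, abs_of_pos b0, div_le_iff₀ b0, abs_le]
      constructor <;> linarith [hb.1, hb.2]⟩
  have W : ∑ j ∈ range J, G.er J j + 7 ≤ G.bb J / 10 := by
    have := h.inv_le J (i := 0) (j := 410) (by norm_num)
    rw [pow_zero, inv_one] at this
    have a := h.wd_le (le_refl J)
    rw [div_eq_mul_inv] at a
    nlinarith only [a, this, b0, h.Qbb J (i := 0) (by norm_num)]
  have T : ∀ c : ℝ, c * G.bb J ∈ Set.Icc (9 / 10 * G.bb J) (11 / 10 * G.bb J) →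
      |G.dv J J (c * G.bb J) - G.bb J * (c - 1)| ≤ 7 := fun c hc => by
    have := h.dv_le' (I _ hc).1 (h.gd_top (I _ hc).2)
    rwa [show (G.top (c * G.bb J) J).v = c from mul_div_cancel_right₀ _ b0.ne'] at this
  obtain ⟨b, hb, d0, w⟩ := shoot J (G.dv J) (fun k => ∑ j ∈ range k, G.er J j) (G.er J)
    (9 / 10 * G.bb J) (11 / 10 * G.bb J) (by linarith)
    (fun k => (bh_cont (fun U => ((h.f_facts J k).2 U).comp (continuous_id.max continuous_const))
      fun b U => (((h.f_facts J k).1 _ (le_max_right _ _)).2.2 U).2).sub continuous_const)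
    (h.er0 J) (fun k => ⟨sum_nonneg fun j _ => h.er0 J j, (sum_range_succ _ _).ge⟩)
    (by linarith [(abs_le.1 (T _ ⟨le_rfl, by linarith⟩)).2])
    (by linarith [(abs_le.1 (T _ ⟨by linarith, le_rfl⟩)).1]) fun k hk b hb w => by
      obtain ⟨b1, b2⟩ := I b hb
      have D : ∀ i, k ≤ i → i ≤ J → G.Gd b J i (G.zz b J i) := fun i a c =>
        h.gd_all b1 b2 i c fun j e => w j (by omega)
      have s := fun i (a : k ≤ i) (c : i < J) => h.gd_step b1 c (D _ (by omega) c)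
        (h.v20 (h.v_le b1 (D _ (by omega) c) c (w _ (by omega) c)))
      obtain ⟨-, -, -, s1, s2⟩ := s k le_rfl hk
      rw [← zz_step b hk] at s2
      have e : G.bb (k + 1) = G.bb k + G.bn (G.l k) := h.sch.step k
      have a2 := abs_le.1 s2
      have c1 := h.inv_le k (i := 500) (j := 900) (by norm_num)
      have c2 := h.inv_le k (i := 490) (j := 500) (by norm_num)
      have c5 := inv_pos.2 (pow_pos (h.Q0 k) 900)
      unfold er
      split_ifs with hi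
      · have a3 := abs_le.1 (h.dv_le' b1 (D k le_rfl hk.le))
        have a4 := abs_le.1 (h.dv_le' b1 (D (k + 1) k.le_succ hk))
        have a5 : G.bb k ≤ G.bb (k + 1) ∧ G.bb (k + 1) ≤ G.bb k + G.L k := h.sch.le k
        have c3 := h.inv_le k (i := 0) (j := 490) (by norm_num)
        have c4 := h.qpw k (i := 1) (j := 2) (by norm_num)
        rw [pow_zero, inv_one] at c3
        rw [pow_one] at c4
        generalize (G.Q k ^ 490)⁻¹ = w1, (G.Q k ^ 500)⁻¹ = w2, (G.Q k ^ 900)⁻¹ = w3 at *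
        rw [abs_le] at s1 ⊢
        constructor <;> linarith [h.LQ k, h.Q1 k]
      · push Not at hi
        have a3 := h.dv_le b1 (D k le_rfl hk.le)
        have a4 := h.dv_le b1 (D (k + 1) k.le_succ hk)
        rw [if_neg hi.1] at a3
        rw [if_neg k.succ_ne_zero] at a4
        have a5 := abs_le.1 (a4.trans (inv_anti₀ (pow_pos (h.Q0 k) _)
          (pow_le_pow_left₀ (h.Q0 k).le (h.Q_mono k.le_succ) _)))
        have a6 := abs_le.1 (h.af_step hi.2.1 hi.2.2 (fun i a c => (D i a.le c).tz)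
          fun i a c => (s i a c).2.2.1)
        have c3 := h.inv_le k (i := 420) (j := 490) (by norm_num)
        generalize (G.Q k ^ 490)⁻¹ = w1, (G.Q k ^ 500)⁻¹ = w2, (G.Q k ^ 900)⁻¹ = w3,
          (G.Q k ^ 420)⁻¹ = w4 at *
        rw [abs_le] at a3 ⊢
        constructor <;> linarith
  obtain ⟨b1, b2⟩ := I b hb
  have D := fun k hk => h.gd_all b1 b2 k hk fun i _ => w i
  have V := fun k hk => h.v_le b1 (D k hk) hk (w k hk)
  refine ⟨b, ⟨b1, D, V, fun k hk => ?_⟩, ?_⟩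
  · have := h.gd_step b1 hk (D _ hk) (h.v20 (V _ hk))
    exact ⟨this.2.1, this.2.2.1⟩
  · rwa [dv, if_pos rfl, max_eq_left b1, sub_eq_zero] at d0

theorem run (J : ℕ) : ∃ b, G.Tu b J :=
  (h.one.run1 J).imp fun _ a => h.tu_of ⟨a.1, a.1, a.2⟩

end Ok

end Pool.Agent.Lib.MP_7f377f_mp.RG.Q4.En.Gl
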