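import Pool.Agent.Lib.MP_7f377f_mp.G.Q4EndM
import Pool.Agent.Lib.MP_7f377f_mp.G.Q4EFinA
import Pool.Agent.Lib.MP_7f377f_mp.G.Q4ECv
import Pool.Agent.Lib.MP_7f377f_mp.G.Q4EEx
import Pool.Agent.Lib.MP_7f377f_mp.G.Q4AfY
import Pool.Agent.Lib.MP_7f377f_mp.G.Q4ERun
import Pool.Agent.Lib.MP_7f377f_mp.G.Q4ERp

/-! The continuum limit on the four dimensional tori. -/

noncomputable section

set_option linter.unusedSectionVars false
variable [Pool.Agent.Lib.MP_7f377f_mp.GD]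

namespace Pool.Agent.Lib.MP_7f377f_mp.RG.Q4.En

open Finset Real Filter Topology MeasureTheory YM4

theorem Gl.Ok.tL {G : Gl} (o : G.Ok) : Tendsto (fun j => (G.L j : ℝ)) atTop atTop :=
  tendsto_natCast_atTop_atTop.comp
    (tendsto_atTop_mono (fun j => by unfold Gl.L Gl.l LL; omega) o.sch.top)

end Pool.Agent.Lib.MP_7f377f_mp.RG.Q4.En
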