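import Pool.Agent.Lib.MP_7f377f_mp.G.YM4DefsM
import Pool.Agent.Lib.MP_7f377f_mp.G.OddYM

/-! Reflection positivity of the Wilson measure and of limits in total variation. -/

noncomputable section

namespace Pool.Agent.Lib.MP_7f377f_mp.YM4
variable [GD]

open MeasureTheory Set

variable {m n : ℕ}

variable [MeasurableSpace SU2]

variable [BorelSpace SU2] (h : Measure SU2) [h.IsHaarMeasure] [IsProbabilityMeasure h] {k : Fin 4}

end Pool.Agent.Lib.MP_7f377f_mp.YM4
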