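import Pool.Agent.Lib.MP_7f377f_mp.G.YM4Defs

/-! Symmetries of the discrete tori and iterated block averaging. -/

noncomputable section

namespace Pool.Agent.Lib.MP_7f377f_mp.YM4
variable [GD]

open MeasureTheory

variable {n : ℕ}

end Pool.Agent.Lib.MP_7f377f_mp.YM4
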