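import Pool.Agent.Lib.MP_7f377f_mp.G.Q4EG
import Pool.Agent.Lib.MP_7f377f_mp.G.YM4DefsM

/-! The continuum limit on all tori from the convergence and the bounds of the densities. -/

noncomputable section

set_option linter.unusedSectionVars false
variable [Pool.Agent.Lib.MP_7f377f_mp.GD]

namespace Pool.Agent.Lib.MP_7f377f_mp.RG.Q4.En

open MeasureTheory Measure Finset YM4 Ms Fi Real Filter
open scoped ENNReal Topology

variable {n : ℕ} {f : Conf → ℂ}

end Pool.Agent.Lib.MP_7f377f_mp.RG.Q4.En
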