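import Pool.Agent.Lib.MP_7f377f_mp.G.YMBase

/-! Block averaged `SU(2)` lattice gauge fields on four dimensional discrete tori. -/

noncomputable section

namespace Pool.Agent.Lib.MP_7f377f_mp.YM4
variable [GD]

open MeasureTheory Finset Equiv
open scoped Quaternion ENNReal

/-- the group `SU(2)` of unit quaternions -/
abbrev SU2 : Type := GD.G

/-- sites of the torus with `n` sites per side -/
abbrev Site (n : ℕ) : Type := Fin 4 → ZMod n

/-- lattice gauge fields on the torus with `n` sites per side -/
abbrev Cfg (n : ℕ) : Type := Site n × Fin 4 → SU2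

variable {m n : ℕ}

/-- holonomy around a plaquette -/
def plaq (U : Cfg n) (x : Site n) (i j : Fin 4) : SU2 :=
  U (x, i) * U (x + Pi.single i 1, j) * (U (x + Pi.single j 1, i))⁻¹ * (U (x, j))⁻¹

/-- distance of the holonomy of a plaquette from the identity -/
def curv (U : Cfg n) (x : Site n) (i j : Fin 4) : ℝ := ‖RG.S3.q (plaq U x i j) - 1‖

variable [MeasurableSpace SU2] (h : Measure SU2)

end Pool.Agent.Lib.MP_7f377f_mp.YM4
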