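import Pool.Agent.Lib.MP_7f377f_mp.G.Q4RobA
import Pool.Agent.Lib.MP_7f377f_mp.G.YM4Defs

/-! Transfer from periodic fields to fields on discrete tori: geometry. -/

noncomputable section

set_option linter.unusedSectionVars false
variable [Pool.Agent.Lib.MP_7f377f_mp.GD]

namespace Pool.Agent.Lib.MP_7f377f_mp.RG.Q4.Fi

open MeasureTheory Finset YM4 Ms Rb
open scoped ENNReal

variable {m n : ℕ}

/-- reduction modulo the period -/
def cst (n : ℕ) (x : St) : Site n := fun i => x i

theorem cst_add (x y : St) : cst n (x + y) = cst n x + cst n y := funext fun _ => Int.cast_add _ _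

theorem cst_sub (x y : St) : cst n (x - y) = cst n x - cst n y := funext fun _ => Int.cast_sub _ _

theorem cst_un (k : ℤ) (i : Fin 4) : cst n (k • un i) = Pi.single i (k : ZMod n) :=
  funext fun j => by by_cases h : j = i <;> simp [cst, un, h]

theorem cst_un1 (i : Fin 4) : cst n (un i) = Pi.single i 1 := by simpa using cst_un (n := n) 1 i

theorem cst_rc (x : St) : cst n (rc n x) = cst n x := funext fun i => by
  simp only [cst, rc, Int.cast_sub, ZMod.intCast_mod, Int.cast_add, add_sub_cancel_right]

/-- the periodic field -/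
def lift {α : Type} (U : Site n × Fin 4 → α) : Lk → α := fun e => U (cst n e.1, e.2)

/-- representative in the fundamental domain -/
def vl (x : Site n) : St := rc n fun i => (x i).val

/-- restriction to the fundamental domain -/
def res {α : Type} (n : ℕ) (W : Lk → α) : Site n × Fin 4 → α := fun b => W (vl b.1, b.2)

/-- the periodic field as a configuration -/
def lf (U : Cfg n) : Conf := lift U

/-- restriction of a configuration -/
def rs (n : ℕ) (W : Conf) : Cfg n := res n W

theorem hol_lift (U : Cfg n) (x : St) (i j : Fin 4) :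
    hol Inv.inv (lift U) x i j = plaq U (cst n x) i j := by
  simp only [hol, plaq, lift, cst_add, cst_un1]

theorem fq_lf (U : Cfg n) (x : St) (i j : Fin 4) : fq (lf U) x i j = curv U (cst n x) i j := by
  rw [curv, ← hol_lift]
  rfl

theorem fq_sh (U : Conf) (c x : St) (i j : Fin 4) : fq (sh c U) x i j = fq U (x + c) i j := by
  simp only [fq, hol, sh, add_right_comm x _ c]

variable [NeZero n]

theorem cst_vl (x : Site n) : cst n (vl x) = x := by
  rw [vl, cst_rc]
  funext i
  simp [cst]

theorem vl_cst (x : St) : vl (cst n x) = rc n x := funext fun i => by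
  simp only [vl, rc, cst, ZMod.val_intCast, Int.emod_add_emod]

theorem vl_inj : Function.Injective (vl (n := n)) := fun x y h => by rw [← cst_vl x, h, cst_vl]

theorem res_lift {α : Type} (U : Site n × Fin 4 → α) : res n (lift U) = U :=
  funext fun b => by simp only [res, lift, cst_vl]

theorem lift_res {α : Type} (W : Lk → α) : lift (res n W) = pc n W :=
  funext fun e => congrArg (fun x => W (x, e.2)) (vl_cst _)

theorem res_pc {α : Type} (W : Lk → α) : res n (pc n W) = res n W := by
  rw [← lift_res, res_lift]

theorem rs_lf (U : Cfg n) : rs n (lf U) = U := res_lift U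

theorem lf_rs (W : Conf) : lf (rs n W) = pc n W := lift_res W

theorem rs_pc (W : Conf) : rs n (pc n W) = rs n W := res_pc W

theorem image_vl (hn : Odd n) : (univ : Finset (Site n)).image vl = box (n / 2) := by
  obtain ⟨k, rfl⟩ := hn
  have e : (2 * k + 1) / 2 = k := by omega
  ext y
  simp only [mem_image, mem_univ, true_and, box, Fintype.mem_piFinset, mem_Icc, e]
  constructor
  · rintro ⟨x, rfl⟩ i
    have h1 := Int.emod_nonneg (((x i).val : ℤ) + k) (show ((2 * k + 1 : ℕ) : ℤ) ≠ 0 by omega)
    have h2 := Int.emod_lt_of_pos (((x i).val : ℤ) + k) (show (0 : ℤ) < (2 * k + 1 : ℕ) by omega)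
    simp only [vl, rc, e]
    omega
  · refine fun h => ⟨cst _ y, ?_⟩
    rw [vl_cst]
    funext i
    have := h i
    simp only [rc, e]
    rw [Int.emod_eq_of_lt (by omega) (by omega)]
    omega

theorem sum_vl (hn : Odd n) (f : St → ℝ) : ∑ x ∈ box (n / 2), f x = ∑ x : Site n, f (vl x) := by
  rw [← image_vl hn, sum_image fun _ _ _ _ h => vl_inj h]

end Pool.Agent.Lib.MP_7f377f_mp.RG.Q4.Fi
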