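import Pool.Agent.Lib.MP_7f377f_mp.G.Q4FlatB
import Pool.Agent.Lib.MP_7f377f_mp.G.Q5FamB
import Pool.Agent.Lib.MP_7f377f_mp.G.Q4ETv

/-! Families of data at the flat field and their integrals. -/

noncomputable section

open Pool.Agent.Lib.MP_7f377f_mp.Jet

set_option linter.unusedSectionVars false
variable [Pool.Agent.Lib.MP_7f377f_mp.GD]

namespace Pool.Agent.Lib.MP_7f377f_mp.RG.Q4.En

open Finset Function Real Sg MeasureTheory

attribute [local irreducible] box lbox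

variable {ι : Type} [DecidableEq ι] {A B : Finset ι} {r r0 : ι → ℝ} {s : ι → ℂ} {θ β M : ℝ}

/-- the variables outside `B` are set to zero -/
def cutS (B : Finset ι) (s : ι → ℂ) (i : ι) : ℂ := if i ∈ B then s i else 0

theorem cut_zero : cutS B 0 = 0 := funext fun _ => ite_self _

theorem cut_mem (hs : s ∈ Pd r) : cutS B s ∈ Pd r := fun i => by
  unfold cutS
  split_ifs
  exacts [hs i, norm_zero.trans_lt ((norm_nonneg _).trans_lt (hs i))]

theorem cut_in {i : ι} (hi : i ∈ B) (t : ℂ) : cutS B (update s i t) = update (cutS B s) i t :=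
  funext fun j => by by_cases e : j = i <;> simp [cutS, e, hi]

theorem cut_out {i : ι} (hi : i ∉ B) (t : ℂ) : cutS B (update s i t) = cutS B s :=
  funext fun j => by by_cases e : j = i <;> simp [cutS, e, hi]

theorem sh_cut {g : (ι → ℂ) → ℂ} (h : SH r M g) (B : Finset ι) : SH r M fun s => g (cutS B s) :=
  ⟨h.pos, fun s hs i => by
    by_cases e : i ∈ B
    · simpa only [cut_in e] using h.hol _ (cut_mem hs) i
    · simpa only [cut_out e] using differentiableOn_const _, fun _ hs => h.bd _ (cut_mem hs)⟩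

theorem fa_cut {p : Pa} {n : ℕ} {k : Mj} {K : (ι → ℂ) → Ac} (h : FA r p n k K) (B : Finset ι) :
    FA r p n k fun s => K (cutS B s) :=
  ⟨h.pos, fun s hs i X c U => (sh_cut (h.sh X c U) B).hol s hs i, fun _ hs => h.km _ (cut_mem hs)⟩

namespace Fi

variable {p : Pa} {n : ℕ} {Z : ι → Finset St} {ψ : (ι → ℂ) → Lx} {K : (ι → ℂ) → Ac}
  (F : Fi p n A Z r θ ψ K)
include F

theorem off {X : Finset St} (hX : Disjoint (B.biUnion Z) X) (c : Finset (Finset St)) (s : ι → ℂ) :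
    K (cutS B s) X c = K 0 X c := funext fun U => by
  rw [congrFun F.act, congrFun (ma_A _ X c U), Jet.ma, sum_eq_single_of_mem ∅ (empty_mem_powerset _)]
  · simp [mon, jA_empty]
  · intro T _ hT
    obtain ⟨i, hi⟩ := nonempty_iff_ne_empty.2 hT
    by_cases e : i ∈ B
    · rw [jA, F.loc.jdA hi (hX.mono_left (subset_biUnion_of_mem Z e)), smul_zero]
    · rw [mon, prod_eq_zero hi (if_neg e), zero_smul]

theorem at_zero (h0 : 0 < p.ρ) (s : ι → ℂ) (x : St) : ψ s x 0 = 0 := by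
  rw [congrFun F.psi, congrFun (ma_L _ x 0)]
  refine sum_eq_zero fun T hT => ?_
  obtain ⟨_, ⟨_, _, _, a⟩, -⟩ := F.pu T (mem_powerset.1 hT)
  have := (a x).1.bd realF_zero (Ho.cv_zero _ le_rfl) h0.le
  simp_all

end Fi

namespace Gl.Ok

variable {G : Gl} {J j : ℕ} {z : Z} {Y : Fy ι} {f : (ι → ℂ) → Conf → ℂ} (h : G.Ok)
  (t : G.Tz J j z) (e : G.Fd j z A r0 r θ Y f)
include h t e

theorem fd_flat (s : ι → ℂ) :
    Rep (G.p j) (G.N j) ((G.sl j z).Φ (Y.ψ s)) (Y.K s) 1 = Sg.zf (G.N j) (Y.K s) := by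
  have o := (h.sl_all j z).nu.p_ok.1
  refine rep_flat o.1.le (fun x => ?_) _
  have := (h.tok_sl t).tc.bd 0 0 (Ho.cv_zero _ le_rfl) (by positivity)
  simp_all [Sd.Φ, e.fi.at_zero o.ρ0]

omit e in
theorem pg_th (hθ : G.Q j ^ 100 * θ ≤ 1) (θ0 : 0 ≤ θ) :
    Pg (G.p j) ((G.sl j z).L ^ 2) ∧ 2 * θ ≤ ee (G.p j) := by
  refine (h.lf t).pg.imp_right fun a => le_trans ?_ a
  change _ ≤ (G.Q j)⁻¹
  have q := h.cQ j (C := 2) (by norm_num)
  have := mul_le_mul_of_nonneg_right (pow_le_pow_right₀ (h.Q1 j) (show 2 ≤ 100 by norm_num)) θ0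
  rw [← one_div, le_div_iff₀ (h.Q0 j)]
  nlinarith [mul_le_mul_of_nonneg_right q (mul_nonneg (h.Q0 j).le θ0)]

theorem fd_ne (hθ : G.Q j ^ 100 * θ ≤ 1) (hs : s ∈ Pd r) : Sg.zf (G.N j) (Y.K s) ≠ 0 :=
  let ⟨_, a, b⟩ := e.fi.km
  zf_ne (h.pg_th t hθ a.nonneg).1 (h.N_odd j) a (h.pg_th t hθ a.nonneg).2 (b s hs)

/-- the ratios of the partition functions at the flat field are locally bounded -/
theorem fd_ratio (hθ : G.Q j ^ 100 * θ ≤ 1) (B : Finset ι) :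
    SH r (exp (4 * θ * (B.biUnion Y.Z).card))
      (fun s => Sg.zf (G.N j) (Y.K (cutS B s)) / Sg.zf (G.N j) (Y.K 0)) ∧
    SH r (exp (4 * θ * (B.biUnion Y.Z).card))
      fun s => Sg.zf (G.N j) (Y.K 0) / Sg.zf (G.N j) (Y.K (cutS B s)) := by
  obtain ⟨k, a, b⟩ := e.fi.fa
  simpa only [cut_zero] using flat_ratio (h.pg_th t hθ a.nonneg).1 (h.N_odd j) a
    (h.pg_th t hθ a.nonneg).2 (fa_cut b B) fun s _ X c hX => by rw [cut_zero, e.fi.off hX]

theorem fd_hd : HD r fun s => Rep (G.p j) (G.N j) ((G.sl j z).Φ (Y.ψ s)) (Y.K s) := by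
  obtain ⟨k, -, b⟩ := e.fi.fa
  have nu := (h.sl_all j z).nu
  have o := nu.p_ok.1
  have fl := e.fi.fl.add (nu.lo_Φ (h.tok_sl t) (pm_zero o.ρ0).lo)
  simp only [Sd.Φ, Pi.zero_apply, add_zero] at fl
  exact hd_rep o (sqrt_nonneg _) fl b

end Gl.Ok

/-- the integral of the representation -/
def Fy.ir (Y : Fy ι) (G : Gl) (j : ℕ) (z : En.Z) (s : ι → ℂ) : ℂ :=
  ∫ U, Rep (G.p j) (G.N j) ((G.sl j z).Φ (Y.ψ s)) (Y.K s) (pc (G.N j) U) ∂PP

theorem int_ratio : ∃ C : ℝ → ℝ, (∀ g, 0 < g → 0 ≤ C g) ∧ ∀ {ι : Type} [DecidableEq ι]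
    {A : Finset ι} {r r0 : ι → ℝ} {θ β : ℝ} {G : Gl} {J j : ℕ} {z : Z} {Y : Fy ι}
    {f : (ι → ℂ) → Conf → ℂ}, G.Ok → G.Tz J j z → G.Fd j z A r0 r θ Y f → GI (G.N j) (f 0) →
    Pos (f 0) → RealP (G.p j) (Y.ψ 0) → RealA (Y.K 0) → (∀ s ∈ Pd r, PU (G.p j) β (Y.ψ s)) →
    G.Q j ^ 100 * β ≤ 1 → G.Q j ^ 100 * θ ≤ 1 → Y.ir G j z 0 ≠ 0 ∧
      SH r (exp (C (G.g j) * G.N j ^ 4)) fun s => Y.ir G j z s / Y.ir G j z 0 := by
  obtain ⟨c, C, c0, -, C0, H⟩ := maj_rep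
  obtain ⟨a, a0, a1, hz⟩ := z_low
  have a2 : ∀ g, a * min a g ≤ 1 := fun g => by nlinarith [min_le_left a g]
  refine ⟨fun g => 2 * C - 4 * GD.d * log (a * min a g), fun g g0 => by
    nlinarith [log_nonpos (mul_pos a0 (lt_min a0 g0)).le (a2 g), Nat.cast_nonneg (α := ℝ) GD.d],
    fun {ι _ A r r0 θ β G J j z Y f} h t e gf pf r1 r2 pu hb hθ => ?_⟩
  have n := h.sl_nf j z
  have g0 := h.g0 j
  have m0 := lt_min a0 g0
  have a3 := mul_pos a0 m0
  obtain ⟨k, sm⟩ := Fi.sml (S := G.sl j z) (n.symm ▸ e.fi) pu hb hθ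
  have w := fun s hs U hU => H _ _ _ _ _ _ _ _ (h.lf t) (sm s hs) U (n.symm ▸ hU)
  rw [n] at w
  have e0 : ∀ U, Per (G.N j) U → f 0 U = _ := fun U hU => (e.eq.eqv hU).zero
  have κ0 := norm_pos_iff.2 (Complex.exp_ne_zero (Y.E 0))
  have lo := hz _ _ (‖Complex.exp (Y.E 0)‖ * exp (-(C * G.N j ^ 4))) _ (h.N_odd j) gf pf
    (by positivity) m0 (min_le_left _ _) fun U hU h1 => by
      rw [← abs_of_pos (pf U).2, Complex.abs_re_eq_norm.2 (pf U).1, e0 U hU, norm_mul]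
      exact mul_le_mul_of_nonneg_left (((w 0 (zero_mem e.fi.pos) U hU).2 r1 r2 fun f =>
        (h1 f).trans (min_le_right _ _)).trans (Complex.re_le_norm _)) κ0.le
  have up : zz (G.N j) (f 0) (fun _ => 1) ≤ ‖Complex.exp (Y.E 0)‖ * ‖Y.ir G j z 0‖ := by
    rw [← norm_mul, Fy.ir, ← integral_const_mul, zz]
    simp only [← e0 _ (Mx.per_pc _ _), mul_one]
    obtain ⟨M, hM⟩ := gf.2.1
    exact (integral_re (.of_bound (gf.1.comp Fi.meas_pc).aestronglyMeasurable M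
      (.of_forall fun _ => hM _))).trans_le (RCLike.re_le_norm _)
  have lw := le_of_mul_le_mul_left ((mul_assoc ..).ge.trans (lo.trans up)) κ0
  have n0 := norm_pos_iff.1 (lt_of_lt_of_le (by positivity) lw)
  have d := h.fd_hd t e
  have I := sh_int PP e.fi.pos (fun U => d.1.choose_spec (pc (G.N j) U))
    fun s hs => (d.2 s hs).comp Fi.meas_pc
  refine ⟨n0, e.fi.pos, fun s hs i => (I.hol s hs i).div_const _, fun s hs => ?_⟩
  have N1 : (1 : ℝ) ≤ G.N j ^ 4 := one_le_pow₀ (by exact_mod_cast (h.N_odd j).pos)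
  have u : ‖Y.ir G j z s‖ ≤ exp (C * G.N j ^ 4) :=
    (norm_integral_le_of_norm_le_const (μ := PP) (.of_forall fun U =>
      (w s hs _ (Mx.per_pc _ U)).1.trans (exp_le_exp.2 (sub_le_self _
        (mul_nonneg (div_pos c0 g0).le (ps_nonneg _ _)))))).trans_eq (by simp)
  rw [norm_div]
  refine (div_le_div₀ (exp_pos _).le u (by positivity) lw).trans ?_
  rw [← exp_log a3, ← exp_nat_mul, ← exp_add, ← exp_sub, exp_le_exp]
  push_cast
  nlinarith [mul_nonneg (mul_nonneg (Nat.cast_nonneg (α := ℝ) GD.d)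
    (neg_nonneg.2 (log_nonpos a3.le (a2 _)))) (sub_nonneg.2 N1)]

end Pool.Agent.Lib.MP_7f377f_mp.RG.Q4.En
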