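import Pool.Agent.Lib.MP_7f377f_mp.G.Q4EDef
import Pool.Agent.Lib.MP_7f377f_mp.G.Q4Rep

/-! The effective coupling measured by a flux. -/

noncomputable section

set_option linter.unusedSectionVars false
variable [Pool.Agent.Lib.MP_7f377f_mp.GD]

namespace Pool.Agent.Lib.MP_7f377f_mp.RG.Q4.En

open Finset Real La La.Q Sd

/-- an admissible flux close to `x` -/
def tq (n : ℕ) (x : ℝ) : ℝ := (⌈x * n ^ 2 / (2 * π * GD.hh)⌉ : ℤ) * (2 * π * GD.hh / (n : ℝ) ^ 2)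

/-- a field with this flux -/
def fl (n : ℕ) (x : ℝ) : Lk → Ang := Classical.epsilon (Fx n (tq n x • EE (0, 1)))

/-- the measured coupling -/
def bh (n : ℕ) (x : ℝ) (f : Conf → ℂ) : ℝ :=
  (log (f (ab 0)).re - log (f (ab (fl n x))).re) / (n ^ 4 * tq n x ^ 2)

/-- the unit flux -/
def e1 : V := pt (EE (0, 1))

variable {S : Sd} {v e xb xk xr θ d x : ℝ} {n : ℕ} {ψ : Lx} {K : Ac} {k : Mj} {F : Mt}
  {f : Conf → ℂ}

theorem fx_fl (hn : n ≠ 0) (x : ℝ) : Fx n (tq n x • EE (0, 1)) (fl n x) :=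
  Classical.epsilon_spec (fx_EE hn _ _)

theorem tq_bd (hn : n ≠ 0) (h : 7 * GD.hh ≤ x * n ^ 2) : x ≤ tq n x ∧ tq n x ≤ 2 * x := by
  have n0 : (0 : ℝ) < (n : ℝ) ^ 2 := by positivity
  have h0 := hh_pos
  have e : x * n ^ 2 / (2 * π * GD.hh) * (2 * π * GD.hh / (n : ℝ) ^ 2) = x := by field_simp
  have p : 0 ≤ 2 * π * GD.hh / (n : ℝ) ^ 2 := by positivity
  have h1 := mul_le_mul_of_nonneg_right (Int.le_ceil (x * n ^ 2 / (2 * π * GD.hh))) p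
  have h2 := mul_le_mul_of_nonneg_right (Int.ceil_lt_add_one (x * n ^ 2 / (2 * π * GD.hh))).le p
  have h3 : 2 * π * GD.hh / (n : ℝ) ^ 2 ≤ x := (div_le_iff₀ n0).2 (by nlinarith [pi_lt_d2])
  rw [add_mul, e] at h2
  rw [e] at h1
  exact ⟨h1, by unfold tq; linarith⟩

theorem bh_cont {f : ℝ → Conf → ℂ} (h : ∀ U, Continuous fun b => f b U)
    (hp : ∀ b U, 0 < (f b U).re) : Continuous fun b => bh n x (f b) :=
  (((Complex.continuous_re.comp (h _)).log fun b => (hp b _).ne').sub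
    ((Complex.continuous_re.comp (h _)).log fun b => (hp b _).ne')).div_const _

theorem As.pM (h : As F) (σ : Equiv.Perm (Fin 4)) : As (pM σ F) := fun _ _ => h _ _

theorem As.rM (h : As F) (j : Fin 4) : As (rM j F) := fun μ ν => by
  simp only [En.rM, h μ ν, mul_comm (sg j ν), smul_neg]

theorem norm_Mt (h0 : 0 ≤ d) (h : ∀ μ ν, |F μ ν| ≤ d) : ‖F‖ ≤ d :=
  (pi_norm_le_iff_of_nonneg h0).2 fun μ => (pi_norm_le_iff_of_nonneg h0).2 (h μ)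

theorem le_Mt (F : Mt) (μ ν : Fin 4) : |F μ ν| ≤ ‖F‖ :=
  (norm_le_pi_norm (F μ) ν).trans (norm_le_pi_norm F μ)

theorem norm_pM (σ : Equiv.Perm (Fin 4)) : ‖pM σ F‖ ≤ ‖F‖ :=
  norm_Mt (norm_nonneg _) fun _ _ => le_Mt F _ _

theorem norm_rM (j : Fin 4) : ‖rM j F‖ ≤ ‖F‖ := norm_Mt (norm_nonneg _) fun μ ν => by
  simp only [rM, sg]
  split_ifs <;> simpa using le_Mt F μ ν

theorem cv_e1 : Cv 0 1 e1 := (cv_pt (as_EE _) 0).mono le_rfl (norm_EE _)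

theorem cc_e1 : cc e1 = e1 := cc_eq (as_EE _)

theorem m0_e1 : m0 e1 e1 = 1 := by
  rw [Li.m0_apply, e1, dd_pt (as_EE _)]
  simp [EE, EZ, Fin.sum_univ_four]
  norm_num

theorem m0_le {a b : V} {δ δ' : ℝ} (ha : Cv 0 δ a) (hb : Cv 0 δ' b) : |m0 a b| ≤ 8 * δ * δ' := by
  rw [Li.m0_apply, abs_mul, abs_of_pos (show (0 : ℝ) < 2⁻¹ by norm_num)]
  refine (mul_le_mul_of_nonneg_left ((abs_sum_le_sum_abs _ _).trans (sum_le_card_nsmul _ _
    (4 * (δ * δ')) fun μ _ => (abs_sum_le_sum_abs _ _).trans ((sum_le_card_nsmul _ _ (δ * δ')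
      fun ν _ => ?_).trans_eq (by simp)))) (by norm_num)).trans_eq (by simp; ring)
  rw [abs_mul]
  exact mul_le_mul (ha 0 (zero_mem_box 0) μ ν) (hb 0 (zero_mem_box 0) μ ν) (abs_nonneg _) ha.nonneg

theorem m0_cc (a b : V) : m0 (cc a) (cc b) = m0 a b := by
  simp only [Li.m0_apply, cc_eq', dd_cf]

theorem TCov.cx (hn : Odd n) (h : TCov n ψ K) (x : St) : ψ x = ψ 0 := by
  rw [← congrFun (h (-x)).1 x, trL, add_neg_cancel, rc_eq hn (zero_mem_box _)]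

namespace LF

variable (h : LF S v e)
include h

theorem pp : S.p = S.p' := by rw [Sd.p, Sd.p', h.hM, h.hβ]

theorem QM : S.QM = S.Q := by rw [Sd.QM, h.hM]; rfl

theorem R : S.p.R = 4 * S.D0 := by rw [h.pp, p'_R]

theorem ρ : S.p.ρ = S.Q ^ 3 * S.g := by rw [p_ρ, h.QM]

theorem tc : Tc (3 * S.r) (S.D0 : ℝ)⁻¹ (S.L ^ S.Kt) S.T := by
  obtain ⟨j, t⟩ := h.tr
  simpa only [h.hM, D0_eq, Td.L] using t.tc

theorem ch : ∃ j ρ, 2 ≤ ρ ∧ ρ ≤ 3 ∧ Ch j (3 * S.r) ρ v e S.m := h.tr.imp fun _ t => t.ch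

theorem symm (a b : V) : S.m a b = S.m b a := let ⟨_, _, _, _, c⟩ := h.ch; c.inv.symm a b

theorem real (B : Fld) (hB : RealF B) : (S.T B).im = 0 := let ⟨_, t⟩ := h.tr; t.real B hB

theorem rR : 3 * S.r ≤ S.p.R := by have := h.nu.lens; rw [h.R]; omega

theorem n0 : S.nf ≠ 0 := h.nu.ok.odd_nf.pos.ne'

theorem eβ : S.β * e ≤ S.g ^ 2 := by
  have b := h.nu.ok.β0
  refine le_of_mul_le_mul_left ?_ b
  linarith [h.e1, h.nu.ok.βg]

theorem pg1 : Pg S.p 1 ∧ S.Q⁻¹ ≤ ee S.p := by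
  have d : (1 : ℝ) ≤ S.D0 := by exact_mod_cast D1 _
  have a : (2 * S.p.D + 1 : ℝ) ^ 4 ≤ S.Q := by
    rw [h.pp, p'_D]
    push_cast
    refine le_trans ?_ (h.nu.mon (C := 41 ^ 4) (i := 0) (j := 4) (by norm_num) (by omega) (by omega))
    rw [pow_zero, mul_one, ← mul_pow]
    gcongr
    linarith
  refine ⟨⟨?_, ?_, ?_, zero_le_one, ?_, sqrt_nonneg _⟩, inv_anti₀ (by positivity) a⟩
  · have := D1 S.toTd; rw [h.pp, p'_D]; omega
  · rw [h.pp, p'_a]; linarith [h.nu.logQ_ge]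
  · rw [h.pp, p'_G0]; exact (pow_pos S.Q0 _).le
  · rw [p_G2, h.QM]; linarith

/-- the tree part of the exponent on constant curvature -/
theorem cd {a b : V} {δ δ' : ℝ} (ha : Cv 0 δ a) (hb : Cv 0 δ' b) :
    |S.β * S.m (cc a) (cc b) - S.β * v * m0 a b| ≤ 64 * S.g ^ 2 * δ * δ' := by
  obtain ⟨_, _, -, -, c⟩ := h.ch
  have := cd_bil h.symm (fun a b => by simp [Li.m0_apply, mul_comm])
    (mul_nonneg (by linarith [h.v1]) h.e0) c.cc a b δ δ' ha hb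
  simp only [LinearMap.sub_apply, LinearMap.smul_apply, smul_eq_mul, ← cc_eq', m0_cc] at this
  have b0 := h.nu.ok.β0.le
  rw [mul_assoc, ← mul_sub, abs_mul, abs_of_nonneg b0]
  refine (mul_le_mul_of_nonneg_left this b0).trans ?_
  have := mul_le_mul_of_nonneg_right h.v2 (mul_nonneg b0 h.e0)
  nlinarith [mul_le_mul_of_nonneg_right (show 32 * (v * (S.β * e)) ≤ 64 * S.g ^ 2 by
    linarith [h.eβ]) (mul_nonneg ha.nonneg hb.nonneg)]

theorem small (d0 : 0 ≤ d) (hd : S.Q * d ≤ 4 * S.g) : 20 * (S.p.R + 1) ^ 2 * d ≤ 1 ∧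
    2 * d ≤ S.p.ρ ∧ d ≤ S.p.ε ∧ 2 * d < (S.D0 : ℝ)⁻¹ ∧ (S.p.R + 1 : ℝ) ≤ 5 * S.D0 := by
  have d1 : (1 : ℝ) ≤ S.D0 := by exact_mod_cast D1 _
  have a : (S.p.R + 1 : ℝ) ≤ 5 * S.D0 := by rw [h.R]; push_cast; linarith
  have q := h.nu.cQ' (C := 100) (by norm_num)
  have g0 := h.nu.ok.g0
  have g1 := h.nu.ok.Qg_le (i := 0) (j := 1) (by norm_num)
  have b := h.nu.mon (C := 500) (i := 0) (j := 2) (by norm_num) (by omega) (by omega)
  have c : d ≤ S.g := by nlinarith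
  have c2 : S.g ≤ S.p.ε := by
    rw [p_ε, h.QM]; exact le_mul_of_one_le_left g0.le (one_le_pow₀ S.Q1)
  refine ⟨?_, ?_, c.trans c2, ?_, a⟩
  · have : (S.p.R + 1 : ℝ) ^ 2 ≤ (5 * S.D0) ^ 2 := by gcongr
    nlinarith
  · rw [h.ρ]; nlinarith [le_self_pow₀ S.Q1 three_ne_zero]
  · rw [inv_eq_one_div, lt_div_iff₀ (by linarith)]
    nlinarith [h.nu.D_le_Q]

/-- the exponent on a constant flux -/
theorem val (hψ : PM S.p xb xk xr ψ) (r : RealP S.p ψ) (hF : As F) (hd : ‖F‖ ≤ d) (d0 : 0 < d)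
    (h1 : S.Q * d ≤ 4 * S.g) (x : St) : (S.Φ ψ x (Ho.em GD.k0 (tF F))).im = 0 ∧
      |(S.Φ ψ x (Ho.em GD.k0 (tF F))).re - (S.β * S.m (pt F) (pt F) + (qc (ψ x) (pt F) (pt F)).re)| ≤
        (S.β + xb + xk) * S.Q * d ^ 4 + xr * (2 * d / S.p.ρ) ^ 3 := by
  obtain ⟨a1, a2, -, a3, a4⟩ := h.small d0.le h1
  obtain ⟨c1, c2⟩ := cc_val (R := S.p.R) (κ := S.L) (k := ofB S.m) (fun a b δ δ' ha hb => by
    simpa using h.cb a b δ δ' (ha.mono h.rR le_rfl) (hb.mono h.rR le_rfl)) hF hd a1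
  have c3 := tc_even h.tc (c1.mono h.rR le_rfl) (by linarith) a3
  have c4 := ps_val (hψ x).1 hF hd a1 a2
  have b := Ho.real_em GD.k0 (tF F)
  have e : cx S.m (Ho.em GD.k0 (tF F)) (Ho.em GD.k0 (tF F)) = S.m (tF F) (tF F) := by
    rw [← qf_ofB _ b, qf_em, ofB_apply]
  obtain ⟨x0, x1, -⟩ := (hψ x).1.nonneg h.nu.p_ok.1.ρ0
  have b0 := h.nu.ok.β0.le
  refine ⟨by simp [Sd.Φ, e, h.real _ b, r x _ b ((Ho.cv_em GD.k0 c1).mono le_rfl a2)], ?_⟩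
  have d1 : (1 : ℝ) ≤ S.D0 := by exact_mod_cast D1 _
  have l1 : S.L ≤ S.L ^ S.Kt := le_self_pow₀ (L1 _) (by have := h.nu.exps; omega)
  have l0 := L1 S.toTd
  have q := h.nu.mon (C := 10 ^ 5) (i := S.Kt) (j := 3) (by norm_num)
    (by have := h.nu.exps; omega) (by omega)
  have s1 : (S.p.R + 1 : ℝ) ^ 3 ≤ (5 * S.D0) ^ 3 := by gcongr
  have s2 : (S.D0 : ℝ) ≤ S.D0 ^ 3 := le_self_pow₀ d1 three_ne_zero
  have s3 : 324 * S.L * (S.p.R + 1) ^ 3 + 16 * S.L ^ S.Kt * S.D0 ≤ S.Q := by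
    nlinarith [mul_le_mul l1 s1 (by positivity) (by positivity),
      mul_le_mul_of_nonneg_left s2 (show 0 ≤ S.L ^ S.Kt by positivity)]
  have s4 : 324 * (S.p.R + 1 : ℝ) ^ 3 ≤ S.Q := by
    nlinarith [mul_le_mul_of_nonneg_right l0 (show 0 ≤ (S.p.R + 1 : ℝ) ^ 3 by positivity),
      show 0 ≤ S.L ^ S.Kt * S.D0 by positivity]
  rw [← Complex.ofReal_re (S.m (pt F) (pt F)), ← Complex.re_ofReal_mul, ← ofB_apply,
    ← Complex.add_re, ← Complex.sub_re]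
  refine (Complex.abs_re_le_norm _).trans ?_
  rw [Sd.Φ, e, ← ofB_apply, show ∀ b a t p a' q : ℂ, b * (a + t) + p - (b * a' + q) =
    b * ((a - a') + t) + (p - q) from fun _ _ _ _ _ _ => by ring]
  refine (norm_add_le_of_le ((norm_mul _ _).trans_le (mul_le_mul_of_nonneg_left
    (norm_add_le_of_le c2 c3) (norm_nonneg _))) c4).trans ?_
  rw [Complex.norm_real, norm_of_nonneg b0, div_inv_eq_mul]
  nlinarith [mul_le_mul_of_nonneg_right s3 (show 0 ≤ S.β * d ^ 4 by positivity),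
    mul_le_mul_of_nonneg_right s4 (show 0 ≤ (xb + xk) * d ^ 4 by positivity)]

end LF

end Pool.Agent.Lib.MP_7f377f_mp.RG.Q4.En
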