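import Pool.Agent.Lib.MP_7f377f_mp.G.RGSmF
import Pool.Agent.Lib.MP_7f377f_mp.KitMix

/-! The new local term produced by the fluctuation integral. -/

noncomputable section

set_option linter.unusedSectionVars false
variable [Pool.Agent.Lib.MP_7f377f_mp.GD]

namespace Pool.Agent.Lib.MP_7f377f_mp.RG.JS

open Finset MeasureTheory

attribute [local irreducible] box lbox

variable {c R : ℕ} {τ ρ κ : ℝ}

/-! ### the linear comb gauge -/

section cg
variable {W W' : Type} [AddCommGroup W] [AddCommGroup W']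

theorem cg_map (φ : W →+ W') (a : Lk → W) (e : Lk) : cg (fun e => φ (a e)) e = φ (cg a e) := by
  simp only [cg, gr, lam, pr, Pi.sub_apply, map_sub, map_sum]

theorem cg_sub (a b : Lk → W) : cg (a - b) = cg a - cg b := by
  funext e
  simp only [cg, gr, lam, pr, Pi.sub_apply, sum_sub_distrib]
  abel

end cg

theorem cut_cg_bd {B : Fld} (h : Cv R ρ B) (ρ0 : 0 ≤ ρ) (e : Lk) : ‖cut R (cg B) e‖ ≤ 3 * R * ρ := by
  simp only [cut]
  split_ifs with he
  · exact Sm_cg h e he
  · rw [norm_zero]; positivity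

theorem cut_cg_cv {B : Fld} (h : Cv R ρ B) {a b : ℕ} (hab : a + b + 1 ≤ R) {y : St}
    (hy : y ∈ box b) : Cv a ρ (sh y (cut R (cg B))) :=
  cv_sh (R := a + b) (fun x hx μ ν => by
    rw [dd_agr (agr_mono (agr_cut R _) hab) hx, dd_cg]
    exact h x (Li.box_mono (by omega) hx) μ ν) hy le_rfl

theorem cut_cg_disc {Ω : Set ℂ} {γ : ℂ → Fld} (h : Disc Ω γ) (R : ℕ) :
    Disc Ω fun t => cut R (cg (γ t)) := fun e => by
  have : ∀ e, DifferentiableOn ℂ (fun t => γ t e) Ω := h
  simp only [cut]
  split_ifs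
  · simp only [cg, gr, lam, pr, Pi.sub_apply]
    fun_prop
  · exact differentiableOn_const _

theorem cut_cg_ad (h : Hc) (B : Fld) :
    cut R (cg (adF (fun _ => h) B)) = adF (fun _ => h) (cut R (cg B)) := by
  rw [← cut_adF]
  congr 1
  funext e
  exact cg_map (AddMonoidHom.mk' (adq h) (adq_add h)) B e

theorem cut_cg_real {B : Fld} (h : RealF B) : RealF (cut R (cg B)) := fun e k => by
  simp only [cut]
  split_ifs
  · have := cg_map (AddMonoidHom.mk' (fun b : C3 => (b k).im) fun _ _ => rfl) B e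
    simp only [AddMonoidHom.mk'_apply, h _ k] at this
    rw [← this]
    simp [cg, gr, lam, pr]
  · rfl

end Pool.Agent.Lib.MP_7f377f_mp.RG.JS
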