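import Pool.Agent.Lib.MP_7f377f_mp.G.Q4TrF
import Pool.Agent.Lib.MP_7f377f_mp.G.Q4En
import Pool.Agent.Lib.MP_7f377f_mp.G.RGSmG
import Pool.Agent.Lib.MP_7f377f_mp.Q4LinDefs

/-! The tree step: the new cubic term. -/

noncomputable section

set_option linter.unusedSectionVars false
variable [Pool.Agent.Lib.MP_7f377f_mp.GD]

namespace Pool.Agent.Lib.MP_7f377f_mp.RG.Q4

open Finset Filter
open scoped Topology

attribute [local irreducible] box lbox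

section small

variable {E E' : Type} [AddCommGroup E] [Module ℝ E] [AddCommGroup E'] [Module ℝ E'] {φ : E → ℂ}
  {ψ : E' → ℂ} {a b : E} {a' b' : E'} {ε : ℝ}

theorem ev_eps (h : 0 < ε) : ∀ᶠ n : ℕ in atTop, (2⁻¹ : ℝ) ^ n ≤ ε := by
  simpa using (tend_half 1).eventually_le_const h

theorem k1_small (ε0 : 0 < ε) (h : ∀ t : ℝ, 0 ≤ t → t ≤ ε → φ (t • a) = ψ (t • a')) :
    k1 φ a = k1 ψ a' := by
  have h0 := h 0 le_rfl ε0.le
  rw [zero_smul, zero_smul] at h0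
  exact congrArg lim (map_congr ((ev_eps ε0).mono fun n hn => by
    simp only [h _ (by positivity) hn, h0]))

theorem kq_small (ε0 : 0 < ε) (h : ∀ s t : ℝ, 0 ≤ s → s ≤ ε → 0 ≤ t → t ≤ ε →
    φ (s • a + t • b) = ψ (s • a' + t • b')) : kq φ a b = kq ψ a' b' := by
  have h0 := h 0 0 le_rfl ε0.le le_rfl ε0.le
  have h1 := fun s h1 h2 => h s 0 h1 h2 le_rfl ε0.le
  have h2 := fun s => h 0 s le_rfl ε0.le
  simp only [zero_smul, add_zero, zero_add] at h0 h1 h2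
  exact congrArg lim (map_congr ((ev_eps ε0).mono fun n hn => by
    have p : 0 ≤ (2⁻¹ : ℝ) ^ n := by positivity
    simp only [h _ _ p hn p hn, h0, h1 _ p hn, h2 _ p hn]))

theorem kq_real_small {L : E → ℂ} {σ : E → E → ℂ} (k : HasK φ L σ) (ε0 : 0 < ε)
    (h : ∀ s t : ℝ, 0 ≤ s → s ≤ ε → 0 ≤ t → t ≤ ε → (φ (s • a + t • b)).im = 0) :
    (kq φ a b).im = 0 := by
  have h0 := h 0 0 le_rfl ε0.le le_rfl ε0.le
  have h1 := fun s h1 h2 => h s 0 h1 h2 le_rfl ε0.le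
  have h2 := fun s => h 0 s le_rfl ε0.le
  simp only [zero_smul, add_zero, zero_add] at h0 h1 h2
  refine tendsto_nhds_unique ((Complex.continuous_im.tendsto _).comp (k.self.2 a b))
    (tendsto_const_nhds.congr' ((ev_eps ε0).mono fun n hn => ?_))
  have p : 0 ≤ (2⁻¹ : ℝ) ^ n := by positivity
  have e : ((4 : ℂ) ^ n / 2).im = 0 := by
    rw [show (4 : ℂ) ^ n / 2 = ((4 ^ n / 2 : ℝ) : ℂ) by push_cast; rfl, Complex.ofReal_im]
  simp only [Function.comp, s2, Complex.mul_im, e, Complex.add_im, Complex.sub_im, h _ _ p hn p hn,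
    h0, h1 _ p hn, h2 _ p hn]
  ring

end small

section ctf

variable {R : ℕ} {ρ η M d : ℝ} {φ : Fld → ℂ} {A B : Fld}

theorem ctf_of (h : Cv R ρ B) : ctf R ρ φ B = φ B :=
  if_pos fun x hx μ ν => (nsq_le _).trans (by gcongr; exact h x hx μ ν)

theorem ctf_cases (ρ0 : 0 ≤ ρ) (B : Fld) :
    (Cv R (2 * ρ) B ∧ ∀ φ, ctf R ρ φ B = φ B) ∨ ∀ φ, ctf R ρ φ B = 0 := by
  by_cases h : ∀ x ∈ box R, ∀ μ ν, ∑ k, ‖dd B x μ ν k‖ ^ 2 ≤ 3 * ρ ^ 2
  · exact .inl ⟨fun x hx μ ν => (abs_le_of_sq_le_sq' ((norm_sq_le _).trans ((h x hx μ ν).trans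
      (by nlinarith))) (by positivity)).2, fun _ => if_pos h⟩
  · exact .inr fun _ => if_neg h

theorem ctf_congr (ρ0 : 0 ≤ ρ)
    (h : ∀ x ∈ box R, ∀ μ ν, ∑ k, ‖dd A x μ ν k‖ ^ 2 = ∑ k, ‖dd B x μ ν k‖ ^ 2)
    (e : Cv R (2 * ρ) B → φ A = φ B) : ctf R ρ φ A = ctf R ρ φ B := by
  rcases ctf_cases (R := R) ρ0 B with ⟨h1, -⟩ | h1
  · simp only [ctf, e h1]
    exact if_congr (forall₂_congr fun x hx => by simp only [h x hx]) rfl rfl
  · have := h1 fun _ => 1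
    simp only [ctf, ite_eq_right_iff, one_ne_zero, imp_false] at this
    rw [h1, ctf, if_neg fun h' => this fun x hx μ ν => h x hx μ ν ▸ h' x hx μ ν]

theorem ctf_meas (h : Measurable φ) : Measurable (ctf R ρ φ) := by
  refine Measurable.ite ?_ h measurable_const
  simp only [Set.ofPred_forall]
  exact .iInter fun x => .iInter fun _ => .iInter fun μ => .iInter fun ν =>
    measurableSet_le (by simp only [dd]; fun_prop) measurable_const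

theorem cv_comb (h : Cv R d B) {s t : ℝ} (s0 : 0 ≤ s) (t0 : 0 ≤ t) (h1 : s + t ≤ 1) :
    Cv R d (s • B + t • B) := by
  rw [← add_smul, rsm]
  refine (h.smul _).mono le_rfl (mul_le_of_le_one_left h.nonneg ?_)
  rwa [Complex.norm_real, Real.norm_of_nonneg (add_nonneg s0 t0)]

/-- local terms before the extraction of the quadratic part -/
structure Tq (R : ℕ) (ρ : ℝ) (φ : Fld → ℂ) : Prop where
  loc : ∀ A B, (∀ x ∈ box R, ∀ μ ν, dd A x μ ν = dd B x μ ν) → φ A = φ B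
  hol : ∀ Ω γ, IsOpen Ω → Disc Ω γ → (∀ t ∈ Ω, Cv R ρ (γ t)) →
    DifferentiableOn ℂ (fun t => φ (γ t)) Ω
  zero : φ 0 = 0
  ad : ∀ (h : S3) B, Cv R (2 * ρ) B → φ (adF (fun _ => cS h) B) = φ B
  meas : Measurable φ

namespace Tq

variable (h : Tq R ρ φ)
include h

theorem kq_ad (g : S3) (hB : Cv R (2 * ρ) B) :
    kq φ (adF (fun _ => cS g) B) (adF (fun _ => cS g) B) = kq φ B B :=
  kq_small (ε := 1 / 2) (by norm_num) fun s t s0 s1 t0 t1 => by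
    rw [← h.ad g _ (cv_comb hB s0 t0 (by linarith)), Ho.adF_add, rsm, rsm, rsm s B, rsm t B,
      Ho.adF_smul, Ho.adF_smul]

theorem kq_loc (e : ∀ x ∈ box R, ∀ μ ν, dd A x μ ν = dd B x μ ν) : kq φ A A = kq φ B B :=
  kq_congr fun s t => h.loc _ _ fun x hx μ ν => by
    simp only [rsm, dd_add, dd_smul, e x hx]

theorem jet (η0 : 0 < η) (η1 : η ≤ ρ) (hM : ∀ B, Cv R η B → ‖φ B‖ ≤ M) :
    ∃ σ, Jet (Ho.dom R η η0) φ (12 * M) 0 σ := by
  obtain ⟨L, σ, j⟩ := exists_jet (O := Ho.dom R η η0) (fun B D S hS hD => h.hol S _ hS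
    (Ho.disc_line S B D) fun t ht => (Ho.mem_dom_one.1 (hD t ht)).mono le_rfl η1)
    (fun B hB => hM B (Ho.mem_dom_one.1 hB)) (Ho.hall η0)
  have k := j.hasK (Ho.hall η0)
  have e : ∀ g B, L (adF (fun _ => cS g) B) = L B := fun g B => by
    obtain ⟨θ, θ0, hB, -⟩ := Kit.Dom.common (Ho.hall (R := R) η0) B B
    rw [← k.k1, ← k.k1]
    refine k1_small (ε := θ⁻¹) (by positivity) fun t t0 t1 => ?_
    have := Ho.mem_dom_one.1 ((Ho.dom R η η0).mono (show |t| * θ ≤ 1 by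
      rwa [abs_of_nonneg t0, ← le_div_iff₀ θ0, one_div]) (mem_rsm t hB))
    rw [← h.ad g _ (this.mono le_rfl (by linarith)), rsm, rsm t B, Ho.adF_smul]
  have e0 : L = 0 := LinearMap.ext fun B => Ho.lin_inv L fun g => e g B
  exact ⟨σ, e0 ▸ j⟩

/-- the quadratic part -/
theorem kq_le (η0 : 0 < η) (η1 : η ≤ ρ) (hM : ∀ B, Cv R η B → ‖φ B‖ ≤ M) (hB : Cv R d B)
    (d0 : 0 < d) : ‖kq φ B B‖ ≤ 12 * M / η ^ 2 * d ^ 2 := by
  obtain ⟨σ, j⟩ := h.jet η0 η1 hM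
  rw [(j.hasK (Ho.hall η0)).kq]
  exact (j.q_le (Ho.mem_dom η0 hB) (Ho.mem_dom η0 hB) (by positivity) (by positivity)).trans_eq
    (by ring)

theorem quad (ρ0 : 0 < ρ) (hM : ∀ B, Cv R ρ B → ‖φ B‖ ≤ M) (hB : Cv R d B) (hd : d ≤ ρ) :
    ‖φ B‖ ≤ 24 * M / ρ ^ 2 * d ^ 2 := by
  obtain ⟨σ, j⟩ := h.jet ρ0 le_rfl hM
  rcases hB.nonneg.eq_or_lt with rfl | d0
  · rw [h.loc B 0 fun x hx μ ν => by
      rw [norm_le_zero_iff.1 (hB x hx μ ν)]
      simp [dd], h.zero]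
    simp
  · have := j.rem2 (Ho.mem_dom ρ0 hB) (by positivity) ((div_le_one ρ0).2 hd)
    rw [h.zero, sub_zero, LinearMap.zero_apply, sub_zero] at this
    exact this.trans_eq (by ring)

theorem real (ρ0 : 0 < ρ) (hM : ∀ B, Cv R ρ B → ‖φ B‖ ≤ M)
    (hr : ∀ B, RealF B → Cv R (2 * ρ) B → (φ B).im = 0) (hB : RealF B) :
    (ctf R ρ (fun B => φ B - kq φ B B) B).im = 0 := by
  obtain ⟨σ, j⟩ := h.jet ρ0 le_rfl hM
  rcases ctf_cases (R := R) ρ0.le B with ⟨h1, h2⟩ | h2 <;> rw [h2]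
  · rw [Complex.sub_im, hr B hB h1, kq_real_small (j.hasK (Ho.hall ρ0)) (ε := 1 / 2) (by norm_num)
      fun s t s0 s1 t0 t1 => hr _ (fun e k => by simp [hB e k]) (cv_comb h1 s0 t0 (by linarith)),
      sub_zero]
  · rfl

end Tq

theorem th_of {S : Set ℂ} {φ : ℂ → Fld → ℂ} (ρ0 : 0 < ρ) (h : ∀ x ∈ S, Tq R ρ (φ x))
    (hM : ∀ x ∈ S, ∀ B, Cv R ρ B → ‖φ x B‖ ≤ M) (H : TH R ρ S φ) :
    TH R ρ S fun x => ctf R ρ fun B => φ x B - kq (φ x) B B := by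
  refine ⟨fun x A B e => ctf_congr ρ0.le (fun y hy μ ν => by rw [e y hy]) fun _ => ?_,
    fun Ω γ hΩ hS dγ hγ => ?_⟩
  · rw [H.1 x A B e, kq_congr (a' := B) (b' := B) fun s t => H.1 x _ _ fun x hx μ ν => by
      simp only [rsm, dd_add, dd_smul, e x hx]]
  · refine ((H.2 Ω γ hΩ hS dγ hγ).sub (Jet.disc (O := Ho.dom R ρ ρ0) (Ho.hall ρ0) hΩ
      (fun x hx => ⟨0, (h x (hS hx)).jet ρ0 le_rfl (hM x (hS hx))⟩) one_pos
      (fun x hx => ⟨Ho.mem_dom_one.2 (hγ x hx), Ho.mem_dom_one.2 (hγ x hx)⟩)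
      fun s t s0 t0 h1 => H.2 Ω _ hΩ hS (fun e => ?_) fun x hx =>
        cv_comb (hγ x hx) s0 t0 (by linarith)).2).congr fun x hx => ctf_of (hγ x hx)
    exact ((dγ e).fun_const_smul s).add ((dγ e).fun_const_smul t)

theorem Tq.tc (h : Tq R ρ φ) (ρ0 : 0 < ρ) (hM : ∀ B, Cv R ρ B → ‖φ B‖ ≤ M) :
    Tc R ρ (12 * M / ρ ^ 3) (ctf R ρ fun B => φ B - kq φ B B) := by
  obtain ⟨h1, h2⟩ := th_of (S := Set.univ) ρ0 (fun _ _ => h) (fun _ _ => hM)
    ⟨fun _ => h.loc, fun Ω γ hΩ _ => h.hol Ω γ hΩ⟩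
  obtain ⟨σ, j⟩ := h.jet ρ0 le_rfl hM
  refine ⟨h1 0, fun Ω γ hΩ => h2 Ω γ hΩ (Set.subset_univ _), fun B d hB hd => ?_, fun g B =>
    ctf_congr ρ0.le (fun x _ μ ν => by rw [dd_adF, nsq_adq]) fun hB => by
      rw [h.ad g B hB, h.kq_ad g hB], ctf_meas (h.meas.sub (kq_meas (F := fun _ => φ) fun s t =>
        h.meas.comp ((measurable_id.const_smul s).add (measurable_id.const_smul t))))⟩
  rw [ctf_of (hB.mono le_rfl hd), (j.hasK (Ho.hall ρ0)).kq]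
  rcases hB.nonneg.eq_or_lt with rfl | d0
  · have e : ∀ x ∈ box R, ∀ μ ν, dd B x μ ν = dd (0 : Fld) x μ ν := fun x hx μ ν => by
      rw [norm_le_zero_iff.1 (hB x hx μ ν)]
      simp [dd]
    rw [← (j.hasK (Ho.hall ρ0)).kq, h.kq_loc e, h.loc _ _ e, (j.hasK (Ho.hall ρ0)).kq, h.zero]
    simp
  · have := j.rem (Ho.mem_dom ρ0 hB) (by positivity) ((div_le_one ρ0).2 hd)
    rw [h.zero, sub_zero, LinearMap.zero_apply, sub_zero] at this
    exact this.trans_eq (by ring)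

end ctf

section mb

variable {l r c R : ℕ} {τ : ℝ} {m : BF} {s : V →ₗ[ℝ] V}

theorem mb_eq (l k : ℕ) (m : BF) (s : V →ₗ[ℝ] V) (a b : V) : mb l k m s a b =
    2⁻¹ * (mn l m s a b + ((box k).card : ℝ)⁻¹ * ∑ y ∈ box k, mn l m s (sh y a) (sh y b)) := by
  simp [mb, avB, LinearMap.sum_apply, Li.shL_apply, mul_add]

theorem cx_mb (k : ℕ) (A B : Fld) : cx (mb l k m s) A B = 2⁻¹ * (cx (mn l m s) A B +
    ((box k).card : ℂ)⁻¹ * ∑ y ∈ box k, cx (mn l m s) (sh y A) (sh y B)) := by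
  rw [mb, cx_smul, cx_add, avB, cx_smul, cx_sum]
  push_cast
  rfl

theorem mb_rng (h : Lin l r c τ m s) (k : ℕ) : Rng (r + k) (r + k) (mb l k m s) := fun a b e => by
  have : ∀ y ∈ box k, mn l m s (sh y a) (sh y b) = 0 := fun y hy =>
    h.mn_rng _ _ (e.imp (fun e => Agr.sh (U' := 0) e hy) fun e => Agr.sh (U' := 0) e hy)
  have h0 := this 0 (zero_mem_box k)
  rw [sh_zero, sh_zero] at h0
  rw [mb_eq, sum_eq_zero this, h0]
  simp

theorem cx_mb_cut (h : Lin l r c τ m s) {k : ℕ} (hR : r + k ≤ R) (B : Fld) :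
    cx (mb l k m s) (cut R (cg B)) (cut R (cg B)) = cx (mb l k m s) B B := by
  rw [cx_agr (mb_rng h k) ((agr_cut R _).mono hR) ((agr_cut R _).mono hR),
    JS.cx_cg_left fun u b => by simp [mb_eq, sh_gr, JS.mn_gr h.gauge h.s_gauge],
    JS.cx_cg_right fun u b => by simp [mb_eq, sh_gr, JS.mn_gr' h.symm h.gauge h.s_gauge]]

end mb

theorem meas_cut_cg (R : ℕ) : Measurable fun B : Fld => cut R (cg B) :=
  measurable_pi_lambda _ fun e => by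
    simp only [cut]
    split_ifs
    · simp only [cg, gr, lam, pr, Pi.sub_apply]
      fun_prop
    · exact measurable_const

theorem exF_cut_ad (R : ℕ) (g : S3) (B : Fld) :
    exF (cut R (cg (adF (fun _ => cS g) B))) = gS (fun _ => g) (exF (cut R (cg B))) := by
  rw [JS.cut_cg_ad]
  exact funext fun e => ex_adq (uni_cS g) _

namespace Nt

/-- size of the new tree density minus its quadratic form -/
def Mq (t : Nt) (c : ℕ) (τ P C P1 : ℝ) (R : ℕ) (d : ℝ) : ℝ := C * d ^ 3 + P1 * (3 * R * d) ^ 3 +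
  (LL t.O.l : ℝ) ^ (c + 7) * (P * t.al c τ P (3 * R * d) ^ 2)

variable {t : Nt} {r c R : ℕ} {τ P δ d d' C P1 ρ η : ℝ} {m : BF} {s : V →ₗ[ℝ] V} {B : Fld}

theorem Sz.mono (h : t.Ok r c τ m s P δ) (z : t.Sz c τ P δ d) (d0 : 0 < d') (h1 : d' ≤ d) :
    t.Sz c τ P δ d' := ⟨d0, by linarith [z.d1], le_trans (by
  have := h.P1
  unfold q
  gcongr) z.d2⟩

variable (h : t.Ok r c τ m s P δ) (gz : Gz t.O.l r m s C P1 δ t.G)
include h gz

theorem a0_mn (z : t.Sz c τ P δ d') (hB : ∀ e, ‖B e‖ ≤ d') (hc : Cv r d B) :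
    ‖t.a0 (exF B) - cx (mn t.O.l m s) B B‖ ≤
      C * d ^ 3 + P1 * d' ^ 3 + (LL t.O.l : ℝ) ^ (c + 7) * (P * t.al c τ P d' ^ 2) := by
  have := norm_add_le_of_le (gz B d d' (by linarith [z.d0, z.d1]) hB hc) (a0_sub h z hB)
  rwa [add_comm (_ - _), sub_add_sub_cancel] at this

omit h gz in
theorem avg_le {f : St → ℂ} {x : ℝ} (hf : ∀ y ∈ box 3, ‖f y‖ ≤ x) :
    ‖2⁻¹ * (f 0 + ((box 3).card : ℂ)⁻¹ * ∑ y ∈ box 3, f y)‖ ≤ x := by
  have h1 := (norm_sum_le _ _).trans (sum_le_card_nsmul _ _ _ hf)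
  have h2 := norm_add_le (f 0) (((box 3).card : ℂ)⁻¹ * ∑ y ∈ box 3, f y)
  rw [norm_mul, norm_inv, Complex.norm_natCast] at h2
  rw [card_box] at h1 h2 ⊢
  rw [norm_mul, norm_inv, Complex.norm_two]
  norm_num at h1 h2 ⊢
  linarith [hf 0 (zero_mem_box 3)]

theorem tn_mb (z : t.Sz c τ P δ d') (hB : ∀ e, ‖B e‖ ≤ d') (hc : Cv (r + 3) d B) :
    ‖t.tn (exF B) - cx (mb t.O.l 3 m s) B B‖ ≤
      C * d ^ 3 + P1 * d' ^ 3 + (LL t.O.l : ℝ) ^ (c + 7) * (P * t.al c τ P d' ^ 2) := by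
  refine le_of_eq_of_le (congrArg _ ?_) (avg_le fun y hy =>
    a0_mn h gz z (B := sh y B) (fun _ => hB _) (hc.sh hy))
  rw [tn, cx_mb, sum_sub_distrib, sh_zero]
  simp only [show ∀ y, exF (sh y B) = sh y (exF B) from fun _ => rfl]
  ring

variable (hR : r + 4 ≤ R)
include hR

theorem tq_bd (z : t.Sz c τ P δ (3 * R * d)) (hB : Cv R d B) :
    ‖t.tq R (mb t.O.l 3 m s) B‖ ≤ t.Mq c τ P C P1 R d := by
  rw [tq, ← cx_mb_cut h.lin (R := R) (by omega)]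
  simpa only [sh_zero, Mq] using tn_mb h gz z (JS.cut_cg_bd hB hB.nonneg) (by
    simpa only [sh_zero] using JS.cut_cg_cv hB (b := 0) (by omega) (zero_mem_box 0))

variable (z : t.Sz c τ P δ (6 * R * ρ))
include z

omit gz in
theorem sz_of (η0 : 0 < η) (η1 : η ≤ 2 * ρ) : t.Sz c τ P δ (3 * R * η) := by
  have : (0 : ℝ) < R := by exact_mod_cast (by omega : 0 < R)
  exact z.mono h (by positivity) (by nlinarith)

omit h gz in
theorem rho_pos : 0 < ρ := by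
  have : (0 : ℝ) < R := by exact_mod_cast (by omega : 0 < R)
  exact (mul_pos_iff_of_pos_left (by positivity)).1 z.d0

theorem tq_zero : t.tq R (mb t.O.l 3 m s) 0 = 0 := by
  have ρ0 := rho_pos hR z
  have k : Tendsto (t.Mq c τ P C P1 R) (𝓝[>] 0) (𝓝 0) :=
    (Continuous.tendsto' (by unfold Mq al; fun_prop) 0 0 (by simp [Mq, al])).mono_left
      nhdsWithin_le_nhds
  refine norm_le_zero_iff.1 (ge_of_tendsto k ?_)
  filter_upwards [Ioc_mem_nhdsGT ρ0] with η hη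
  exact tq_bd h gz hR (sz_of h hR z hη.1 (by linarith [hη.2])) fun x _ μ ν => by
    simpa [dd] using hη.1.le

omit h gz z in
theorem tq_loc (hl : Lin t.O.l r c τ m s) {A : Fld}
    (e : ∀ x ∈ box R, ∀ μ ν, dd A x μ ν = dd B x μ ν) :
    t.tq R (mb t.O.l 3 m s) A = t.tq R (mb t.O.l 3 m s) B := by
  rw [tq, tq, ← cx_mb_cut hl (R := R) (by omega) A, ← cx_mb_cut hl (R := R) (by omega) B,
    JS.cut_cg_loc e]

theorem tq_Tq : Tq R ρ (t.tq R (mb t.O.l 3 m s)) := by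
  have ρ0 := rho_pos hR z
  have z2 := sz_of h hR z (η := 2 * ρ) (by positivity) le_rfl
  refine ⟨fun _ _ => tq_loc hR h.lin, fun Ω γ hΩ dγ hγ => (fm_const h (sz_of h hR z ρ0 (by linarith))
    hΩ (JS.cut_cg_disc dγ R) fun x hx => JS.cut_cg_bd (hγ x hx) ρ0.le).tn_disc.sub
    (diff_cx (mb_rng h.lin 3) (fun e _ => dγ e) fun e _ => dγ e), tq_zero h gz hR z, fun g B hB => ?_,
    (tn_meas h fun e => mq_ex (meas_cut_cg R).eval).sub
      (measurable_cx (mb_rng h.lin 3) measurable_id measurable_id)⟩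
  rw [tq, exF_cut_ad, tn_cov h _ (gw_exF h z2 (JS.cut_cg_bd hB hB.nonneg)),
    cx_adF _ (mb_rng h.lin 3) (uni_cS g), tq]

theorem tq_le (η0 : 0 < η) (η1 : η ≤ ρ) (B : Fld) (hB : Cv R η B) :
    ‖t.tq R (mb t.O.l 3 m s) B‖ ≤ t.Mq c τ P C P1 R η :=
  tq_bd h gz hR (sz_of h hR z η0 (by linarith)) hB

/-- the new cubic term is admissible -/
theorem Tn_tc : Tc R ρ (12 * t.Mq c τ P C P1 R ρ / ρ ^ 3) (t.Tn R ρ (mb t.O.l 3 m s)) :=
  (tq_Tq h gz hR z).tc (rho_pos hR z) (tq_le h gz hR z (rho_pos hR z) le_rfl)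

theorem Tn_real (hr : GR t.G) (hB : RealF B) : (t.Tn R ρ (mb t.O.l 3 m s) B).im = 0 :=
  (tq_Tq h gz hR z).real (rho_pos hR z) (tq_le h gz hR z (rho_pos hR z) le_rfl) (fun B rB hB => by
    rw [tq, Complex.sub_im, cx_im _ rB rB, sub_zero]
    exact tn_real' h (sz_of h hR z (by linarith [rho_pos hR z]) le_rfl) hr
      (JS.cut_cg_bd hB hB.nonneg) (JS.cut_cg_real rB)) hB

/-- the quadratic part which is thrown away -/
theorem kq_tq (η0 : 0 < η) (η1 : η ≤ ρ) (hB : Cv R d B) (d0 : 0 < d) :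
    ‖kq (t.tq R (mb t.O.l 3 m s)) B B‖ ≤ 12 * t.Mq c τ P C P1 R η / η ^ 2 * d ^ 2 :=
  (tq_Tq h gz hR z).kq_le η0 η1 (tq_le h gz hR z η0 η1) hB d0

end Nt

end Pool.Agent.Lib.MP_7f377f_mp.RG.Q4
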