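import Pool.Agent.Lib.MP_7f377f_mp.G.Q4FldB
import Pool.Agent.Lib.MP_7f377f_mp.G.Q4TrG
import Pool.Agent.Lib.MP_7f377f_mp.G.Q4Def2
import Pool.Agent.Lib.MP_7f377f_mp.G.Q4StepA

/-! Locality of the factors of the integrand of a family of objects. -/

noncomputable section

set_option linter.unusedSectionVars false
variable [Pool.Agent.Lib.MP_7f377f_mp.GD]

namespace Pool.Agent.Lib.MP_7f377f_mp.RG.Q4

open Finset MeasureTheory
open scoped Classical

attribute [local irreducible] box lbox tb tau rc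

namespace Fx

variable {S : Sd} {P : ℝ} {ψ : Lx} {K : Ac} {y : St} {z z' : Lk → E3} {v v' : VB} {A B : Fld}

/-! ### functions of the chart coordinates -/

theorem ctf_loc {R : ℕ} {ρ : ℝ} {φ : Fld → ℂ} (e : ∀ x ∈ box R, ∀ μ ν, dd A x μ ν = dd B x μ ν)
    (h : φ A = φ B) : ctf R ρ φ A = ctf R ρ φ B :=
  if_congr (forall₂_congr fun x hx => forall₂_congr fun μ ν => by rw [e x hx]) h rfl

theorem ctr_loc {R : ℕ} {ρ : ℝ} {φ : Fld → ℂ} (rA : RealF A) (rB : RealF B)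
    (e : ∀ x ∈ box R, ∀ μ ν, dd A x μ ν = dd B x μ ν) (h : φ A = φ B) :
    ctr R ρ φ A = ctr R ρ φ B := by rw [ctr, ctr, if_pos rA, if_pos rB, ctf_loc e h]

section chart

variable (e : ∀ x ∈ box (4 * S.D0), ∀ μ ν, dd A x μ ν = dd B x μ ν)
include e

theorem wB_loc : S.wB A = S.wB B := by rw [Td.wB, Td.wB, JS.cut_cg_loc e]

theorem ol_loc : S.ol A = S.ol B := by rw [Td.ol, Td.ol, wB_loc e]

theorem pz_loc (rA : RealF A) (rB : RealF B) (ψ : Lx) : S.pz ψ A = S.pz ψ B :=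
  ctr_loc rA rB e (by rw [Sd.pzr, Sd.pzr, wB_loc e])

theorem Fs_loc (rA : RealF A) (rB : RealF B) (K : Ac) (X : Finset St) : S.Fs K X A = S.Fs K X B := by
  rw [Sd.Fs, Sd.Fs, ctr_loc (R := S.p'.R) rA rB e (by rw [Sd.Fsr, Sd.Fsr, wB_loc e])]

variable (h : S.Fo P)
include h

theorem m1_loc : cx S.m1 A A = cx S.m1 B B := by
  have l := h.nu.lens
  rw [Td.m1, ← cx_mb_cut h.lin (R := 4 * S.D0) (by omega) A,
    ← cx_mb_cut h.lin (R := 4 * S.D0) (by omega) B, JS.cut_cg_loc e]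

theorem T1_loc : S.T1 A = S.T1 B := by
  have l := h.nu.lens
  have e' : ∀ x ∈ box (S.r + 5), ∀ μ ν, dd A x μ ν = dd B x μ ν := fun x hx =>
    e x (box_mono (by omega) hx)
  have k := fun A B => Nt.tq_loc (t := S.t) (R := S.r + 5) (B := B) (A := A) (by omega) h.lin
  have k2 : kq (S.t.tq (S.r + 5) S.m1) A A = kq (S.t.tq (S.r + 5) S.m1) B B :=
    kq_congr fun s t => k _ _ fun x hx μ ν => by simp only [rsm, dd_add, dd_smul, e' x hx]
  unfold Td.T1 Nt.Tn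
  exact ctf_loc e' (congrArg₂ (fun a b : ℂ => a - b) (k A B e') k2 :)

theorem Φ'_loc (rA : RealF A) (rB : RealF B) (ψ : Lx) (K : Ac) (y : St) :
    S.Φ' ψ K y A = S.Φ' ψ K y B := by
  simp only [Sd.Φ', Sd.PL, Sd.Pl, m1_loc e h, T1_loc e h, ol_loc e, pz_loc e rA rB, Fs_loc e rA rB]

end chart

theorem dd_Bx {R : ℕ} {W W' : Cf} (h : Agr (R + 2) (sh y W) (sh y W')) :
    ∀ x ∈ box R, ∀ μ ν, dd (Bx y W) x μ ν = dd (Bx y W') x μ ν := fun _ hx μ ν => by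
  rw [Bx_eq, Bx_eq y W']
  exact JS.dd_agr (Bx_agr h) hx μ ν

/-! ### the factors of the block at the origin -/

section block

variable (h : S.Fo P)
include h

theorem xf_agr {W W' : Cf} (hW : Agr (2 + S.t.rA S.r) W W') (ha : Agr (fb S.l 2) A B) (u : St) :
    S.xf W A u = S.xf W' B u := by
  have h1 := Nt.As_agr h.ok hW
  have h2 : Agr (0 + S.r / 4 + 2) W W' := hW.mono (by unfold Nt.rA; omega)
  rw [Td.xf, Td.xf, Nt.a0_agr h.ok hW]
  by_cases hu : u ∈ box 2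
  · rw [if_pos hu, if_pos hu,
      Nt.xi_agr h.ok (zero_mem_box 0) hu h2 (h1.mono (Op.fb_mono _ (by omega))) ha,
      Nt.xi_agr h.ok (zero_mem_box 0) hu h2 (fun _ _ => rfl) h1]
  · rw [if_neg hu, if_neg hu]

theorem tel_agr {W W' : Cf} (hW : Agr (5 + S.t.rA S.r) W W') (ha : Agr (fb S.l 5) A B) :
    S.tel W A = S.tel W' B := sum_congr rfl fun u hu => by
  rw [xf_agr h (JS.agr_sh hW hu (by omega)) (agr_up (a := 3) ha hu),
    xf_agr h (hW.mono (by omega)) (ha.mono (Op.fb_mono _ (by omega)))]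

theorem fb_R : S.p.R + 2 + S.l ≤ fb S.l S.D0 := by
  have l := h.nu.lens
  have := Sd.D1 S.toTd
  rw [Sd.p_R, fb, mul_comm S.D0]
  omega

theorem fm_agr {W W' : Cf} (hW : Agr (2 * S.D0) W W') (hz : Agr (fb S.l (2 * S.D0)) z z')
    (e : ∀ x ∈ box (4 * S.D0), ∀ μ ν, dd (Bx 0 W) x μ ν = dd (Bx 0 W') x μ ν)
    (r : RealF (Bx 0 W)) (r' : RealF (Bx 0 W')) : S.fm ψ W z = S.fm ψ W' z' := by
  have l := h.nu.lens
  have h0 := zero_mem_box 0
  have a1 : Agr (fb S.l 3) (S.t.As W) (S.t.As W') := Nt.As_agr h.ok (hW.mono (by omega))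
  have a2 : Agr (fb S.l 2) (S.v0 W z) (S.v0 W' z') :=
    Sd.v0_agr h.ok (hW.mono (by omega)) (hz.mono (Op.fb_mono _ (by omega)))
  have a3 : Agr (fb S.l S.D0) (S.U0 W z) (S.U0 W' z') :=
    Sd.U0_agr h.ok (hW.mono (by omega)) (hz.mono (Op.fb_mono _ (by omega)))
  have a4 : Agr (fb S.l 0) (S.pol0 (pU S.N) W (zc S.ζ z)) (S.pol0 (pU S.N) W' (zc S.ζ z')) :=
    Td.pol0_agr h.ok (natDegree_pU _) (hW.mono (by omega))
      (agr_zc _ (hz.mono (Op.fb_mono _ (by omega))))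
  have b : ∀ {a : ℕ} {f : Lk}, f ∈ lbox S.l → f ∈ lbox (fb S.l a) := fun hf =>
    lbox_mono (Op.fb_mono _ (Nat.zero_le _)) (mem_fb_zero hf)
  have e1 : S.s1 W z = S.s1 W' z' := by
    rw [Sd.s1, Sd.s1, Nt.rem3_agr h.ok h0 (hW.mono (by omega)) a2, e4, e4,
      sum_congr rfl fun f hf => by
        rw [Pi.add_apply, a1 f (b hf), a2 f (b hf), ← Pi.add_apply (S.t.As W')]]
  have e2 : S.sT W z = S.sT W' z' := by
    rw [Sd.sT, Sd.sT, Nt.gv_agr h.ok h0 (hW.mono (by have := h.rA; unfold Nt.rA at *; omega)) a1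
      (a2.mono (Op.fb_mono _ (by omega))), Nt.rest, Nt.rest, Nt.tn_agr h.ok (hW.mono (by omega)),
      m1_loc e h, sum_congr rfl fun f hf => by rw [a4 f (b hf), agr_zc _ hz f (b hf)]]
    exact congrArg (fun t => _ * (_ + (_ - t)) - _) (T1_loc e h)
  have e3 : S.sP ψ W z = S.sP ψ W' z' := sum_congr rfl fun x hx => congrArg _ (funext fun f => by
    have := JS.Bx_agr' (a := S.p.R + 1) a3 hx (fb_R h)
    unfold cut
    split_ifs with hf
    exacts [this f hf, rfl])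
  rw [Sd.fm, Sd.fm, e1, e2, e3, pz_loc e r r']

variable {W W' : Conf} (hW : Agr (6 * S.D0) W W')
include hW

theorem Eg_agr (hz : Agr (fb S.l S.D0) z z') : S.Eg W z = S.Eg W' z' := by
  have l := h.nu.lens
  have R := S.p'_R
  have a1 : Agr (fb S.l 5) (S.vH W z) (S.vH W' z') :=
    Sd.vH_agr h.ok h.rA (hW.mono (by omega)) (hz.mono (Op.fb_mono _ (by omega)))
  have a2 : Agr (3 * S.l + 1) (S.vH W z) (S.vH W' z') :=
    a1.mono ((Op.fb_one _).ge.trans (Op.fb_mono _ (by omega)))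
  have a3 : Agr (fb S.l 0) (S.pol (pU S.N) W (cF z)) (S.pol (pU S.N) W' (cF z')) :=
    Sd.pol_agr h.ok h.rA (natDegree_pU _) (hW.mono (by omega))
      (agr_cF (hz.mono (Op.fb_mono _ (by omega))))
  rw [Sd.Eg, Sd.Eg, qk_agr a2 a2, Td.kd_agr h.ok (agr_cC (hW.mono (by omega))),
    Sd.dtH_agr h.ok h.rA (hW.mono (by omega)), tel_agr h (agr_cC (hW.mono (by omega))) a1,
    sum_congr rfl fun f hf => by rw [a3 f (mem_fb_zero hf), agr_cF hz f
      (lbox_mono (Op.fb_mono _ (Nat.zero_le _)) (mem_fb_zero hf))]]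

variable (hv : ∀ u ∈ box (2 * S.D0), v u = v' u)
include hv

theorem Uv_agr : Agr (fb S.l S.D0) (S.Uv W v) (S.Uv W' v') := by
  have l := h.nu.lens
  have R := S.p'_R
  exact Sd.Uv_agr h.ok h.rA (hW.mono (by omega)) fun u hu => hv u (box_mono (by omega) hu)

theorem Jk_agr : S.Jk W v = S.Jk W' v' := by
  have l := h.nu.lens
  have R := S.p'_R
  have a1 : Agr (fb S.l 0) (S.Af W (vz S.l v)) (S.Af W' (vz S.l v')) :=
    Sd.Af_agr h.ok h.rA (hW.mono (by omega)) (agr_vz0 fun u hu => hv u (box_mono (by omega) hu))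
  have a2 := agr_lnk0 (l := S.l) (a := 0) fun u hu => hv u (box_mono (by omega) hu)
  refine if_congr ((Sd.H_agr (a := 0 + 3) (hW.mono (by omega))).fr (zero_mem_box 0))
    (prod_congr rfl fun t ht => ?_) rfl
  have := mem_fb_zero (mem_filter.1 ht).1
  rw [a1 t this, vs, vs, a2 t this]

theorem Gw_agr (h0 : (v 0).2.1 ∈ box S.l) (h1 : ∀ μ, (v (un μ)).2.1 ∈ box S.l) :
    S.Gw W v = S.Gw W' v' := by
  have d := Sd.D1 S.toTd
  have a1 : Agr (3 * S.l + 1) (S.Uv W v) (S.Uv W' v') :=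
    (Uv_agr h hW hv).mono ((Op.fb_one _).ge.trans (Op.fb_mono _ d))
  have a2 : vo v 0 = vo v' 0 := congrArg Prod.snd (hv 0 (zero_mem_box _))
  rw [Sd.Gw, Sd.Gw, Mx.wt_agr a1, a2]
  refine congrArg _ (prod_congr rfl fun μ _ => ?_)
  rw [hW _ (mem_lbox.2 (zero_mem_box _)), Mx.blkN_agr (ω' := vo v') (by simpa using a1) a2
    (by simpa [vo] using congrArg Prod.snd (hv _ (box_mono (by omega) (un_mem_box μ)))) h0
    (by simpa [vo] using h1 μ)]

theorem Gn_agr (h0 : (v 0).2.1 ∈ box S.l) (h1 : ∀ μ, (v (un μ)).2.1 ∈ box S.l) :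
    S.Gn W v = S.Gn W' v' := by
  rw [Sd.Gn, Sd.Gn, Gw_agr h hW hv h0 h1, Jk_agr h hW hv,
    Eg_agr h hW (agr_vz0 fun u hu => hv u (box_mono (by omega) hu))]

end block

/-- the weights of the sites are local -/
def IxL (p : Pa) (Φ : Lx) : Prop :=
  ∀ U U' x, Agr (p.R + 2) (sh x U) (sh x U') → Ix p Φ U x = Ix p Φ U' x

theorem Ib_agr (h : S.Fo P) (hI : IxL S.p (S.Φ ψ)) (co : Finset St) {U U' : Conf}
    (e : Agr (fb S.l S.D0) (sh (up S.l y) U) (sh (up S.l y) U')) :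
    S.Ib ψ co U y = S.Ib ψ co U' y := prod_congr rfl fun x hx => hI _ _ _ (by
  rw [← sh_sh, ← sh_sh]
  exact JS.agr_sh e (mem_filter.1 hx).1 (fb_R h))

/-! ### geometry -/

variable {O : Finset Ob} {W W' : Conf}

/-- sites close to the objects -/
def Cl (S : Sd) (O : Finset Ob) (y : St) : Prop :=
  ∃ o ∈ O, ∃ x ∈ S.bs o, nearT S.n (5 * S.D0) x y

theorem Cl.mem (h : Cl S O y) {u : St} (hu : u ∈ box (8 * S.D0)) : rc S.n (u + y) ∈ us S.sp O :=
  let ⟨o, ho, x, hx, e⟩ := h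
  mem_us.2 ⟨o, ho, mem_tb.2 ⟨rc_rc _ _, x, hx, nearT_rc_right.2
    ((e.trans (add_comm y u ▸ nearT_add hu)).mono (by omega))⟩⟩

theorem cl_of {o : Ob} (ho : o ∈ O) (h : rc S.n y ∈ S.bs o) : Cl S O y :=
  ⟨o, ho, _, h, nearT_rc_left.2 (nearT.refl _ _ _)⟩

theorem cl_of' {o : Ob} (ho : o ∈ O) (h : y ∈ S.bs o) : Cl S O y :=
  ⟨o, ho, _, h, nearT.refl _ _ _⟩

theorem cl_Oh (h : O ⊆ S.obs) (hy : y ∈ S.Oh O) : Cl S O y := by
  obtain ⟨-, x, hx, h2⟩ := mem_tb.1 hy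
  simp only [Hh, CC, mem_union, mem_biUnion] at hx
  rcases hx with (⟨C, ⟨o, ho, hC⟩, hx⟩ | hx) | hx
  · exact ⟨_, Xp.mem_olds.1 ho, x, image_subset_image
      ((mem_fams.1 (mem_lps.1 (Xp.olds_sub h ho)).2.2).1 C hC) hx, h2⟩
  · exact ⟨_, Xp.mem_Wk.1 hx, x, mem_singleton_self _, h2⟩
  · exact ⟨_, Xp.mem_Dbl.1 hx, x, mem_singleton_self _, h2⟩

/-- the fields agree on the links of `Y` -/
def AgW (n : ℕ) (Y : Finset St) (W W' : Conf) : Prop :=
  ∀ e : Lk, rc n e.1 ∈ Y → rc n (e.1 + un e.2) ∈ Y → W e = W' e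

theorem Cl.agr (h : Cl S O y) (e : AgW S.n (us S.sp O) W W') :
    Agr (6 * S.D0) (sh y W) (sh y W') := fun f hf => by
  have := Sd.D1 S.toTd
  have h1 := mem_lbox.1 hf
  refine e _ (h.mem (box_mono (by omega) h1)) ?_
  rw [add_right_comm]
  exact h.mem (box_mono (by omega) (add_un_mem_box h1 _))

theorem Cl.agv (h : Cl S O y) (e : ∀ x, rc S.n x ∈ us S.sp O → v x = v' x) :
    ∀ u ∈ box (2 * S.D0), shv y v u = shv y v' u := fun _ hu =>
  e _ (h.mem (box_mono (by omega) hu))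

theorem Cl.dd (h : Cl S O y) (e : AgW S.n (us S.sp O) W W') :
    ∀ x ∈ box (4 * S.D0), ∀ μ ν, dd (Bx y (cC W)) x μ ν = dd (Bx y (cC W')) x μ ν := by
  have := Sd.D1 S.toTd
  exact dd_Bx (agr_cC ((h.agr e).mono (by omega)))

theorem Cl.chi (h : Cl S O y) (e : AgW S.n (us S.sp O) W W') : chi S.p' W y = chi S.p' W' y := by
  have := Sd.D1 S.toTd
  exact if_congr (fq_agr_iff ((h.agr e).mono (by rw [Sd.p'_R]; omega))) rfl rfl

theorem lab_agr (hO : O ⊆ S.obs) (e : AgW S.n (us S.sp O) W W') : S.lab W O = S.lab W' O := by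
  have := Sd.D1 S.toTd
  refine filter_congr fun Z hZ => not_congr (and_congr_right fun _ => forall₂_congr fun y hy => ?_)
  have h1 : y ∈ S.Oh O := tb_mono subset_union_left (by omega)
    (zones_union ▸ mem_biUnion.2 ⟨Z, hZ, hy⟩)
  have h2 := (cl_Oh hO h1).agr e
  have h3 : fs W y = fs W' y := sum_congr rfl fun μ _ => sum_congr rfl fun ν _ => by
    have := Mx.fq_agr h2 (zero_mem_box _) (μ := μ) (ν := ν) (box_mono (by omega)
      (add_un_mem_box (add_un_mem_box (zero_mem_box 0) μ) ν))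
    simpa only [Mx.fq_sh, zero_add] using this
  rw [h3]

theorem wf_agr (hO : O ⊆ S.obs) (e : AgW S.n (us S.sp O) W W') : S.wf W O = S.wf W' O := by
  rw [Sd.wf, Sd.wf, ← lab_agr hO e,
    prod_congr rfl fun y hy => by rw [(cl_of' (Xp.mem_Wk.1 hy) (mem_singleton_self y)).chi e],
    prod_congr (s₂ := _ \ Wk O) rfl fun y hy => (cl_Oh hO (Xp.lab_sub (mem_sdiff.1 hy).1)).chi e]

/-- the integrand vanishes if a base point is outside its block -/
theorem FO_zero (hy : y ∈ us S.sp O) (h : (v y).2.1 ∉ box S.l) : S.FO ψ K W O v = 0 := by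
  by_cases h1 : y ∈ S.Oh O
  · have : wt S.l (S.Uv (sh y W) (shv y v)) (vo (shv y v) 0) = 0 :=
      by_contra fun h2 => h (by simpa [vo, shv] using Mx.wt_mem h2)
    rw [Sd.FO, prod_eq_zero h1 (by simp [Sd.hf, Sd.Gn, Sd.Gw, this]), mul_zero, zero_mul, zero_mul]
  · obtain ⟨o, -, h2⟩ := mem_us.1 hy
    have h3 : y ∉ Dbl O := fun h3 =>
      h1 (mem_tb.2 ⟨(mem_tb.1 h2).1, y, mem_union_right _ h3, nearT.refl _ _ _⟩)
    have h4 : gd S.l S.ζ (v y) = 0 := by_contra fun h4 =>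
      h (by rw [show (v y).2.1 = 0 from (Cov.gd_iff.1 h4).2]; exact zero_mem_box _)
    rw [Sd.FO, prod_eq_zero hy (by simp [Sd.df, h3, h4]), mul_zero]

theorem PS.rc {α : Type} {n : ℕ} {v : St → α} (hv : PS n v) (x : St) : v (rc n x) = v x := by
  obtain ⟨w, hw⟩ := rc_exists n x
  rw [hw, hv]

theorem smk_bs {q : St × Finset St} (h : (.inr (.inr (.inr (.inl q))) : Ob) ∈ S.obs) :
    rc S.n q.1 ∈ S.bs (.inr (.inr (.inr (.inl q)))) := by
  simp only [Sd.obs, Sd.mks, Sd.X1s, inr_mem_disjSum, inl_mem_disjSum, mem_product,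
    mem_filter] at h
  obtain ⟨x, hx, e⟩ := mem_image.1 h.2.2.2
  refine mem_image.2 ⟨_, mem_image_of_mem _ hx, ?_⟩
  rw [Sd.nf, rc_yo, yo_add_up, ← rc_add_rc, e, zero_add]

/-- locality of the integrand, jointly in the block field and in the variables -/
theorem FO_agr {k : Mj} (h : S.Fo P) (hI : IxL S.p (S.Φ ψ)) (hK : KM S.p S.nf k K)
    (hO : O ⊆ S.obs) (hW : Per S.n W) (hW' : Per S.n W') (hv : PS S.n v)
    (eW : AgW S.n (us S.sp O) W W') (ev : ∀ x, rc S.n x ∈ us S.sp O → v x = v' x) :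
    S.FO ψ K W O v = S.FO ψ K W' O v' := by
  have l := h.nu.lens
  have e0 : ∀ y ∈ us S.sp O, v y = v' y := fun y hy => ev y (by
    obtain ⟨o, -, h2⟩ := mem_us.1 hy
    rwa [(mem_tb.1 h2).1])
  by_cases hb : ∃ y ∈ us S.sp O, (v y).2.1 ∉ box S.l
  · obtain ⟨y, hy, hb⟩ := hb
    rw [FO_zero hy hb, FO_zero hy (e0 y hy ▸ hb)]
  push Not at hb
  have hb' : ∀ y, Cl S O y → ∀ u ∈ box 1, (shv y v u).2.1 ∈ box S.l := fun y hy u hu => by
    rw [shv, ← PS.rc hv]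
    exact hb _ (hy.mem (box_mono (by omega) hu))
  have eU : ∀ y, Cl S O y → Agr (fb S.l S.D0) (sh (up S.l y) (S.Uv W v))
      (sh (up S.l y) (S.Uv W' v')) := fun y hy => by
    rw [← Sd.Uv_sh, ← Sd.Uv_sh]
    exact Uv_agr h (hy.agr eW) (hy.agv ev)
  have e1 : ∀ o ∈ olds O, K o.1 o.2 (S.Uv W v) = K o.1 o.2 (S.Uv W' v') := fun o ho =>
    hK.dep _ _ fun b hb => by
      have := eU (yo S.l b.1) (cl_of (Xp.mem_olds.1 ho) (mem_image.2 ⟨_, hb.1, rc_yo _ _⟩))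
        (b.1 - up S.l (yo S.l b.1), b.2) (mem_lbox.2 (box_mono (Nat.le_add_left _ _)
          (sub_up_yo_mem _ _)))
      simpa only [sh_apply, sub_add_cancel] using this
  have e2 : ∀ y ∈ S.Oh O, S.hf ψ K W v O y = S.hf ψ K W' v' O y := fun y hy => by
    have c := cl_Oh hO hy
    rw [Sd.hf, Sd.hf, Gn_agr h (c.agr eW) (c.agv ev) (hb' y c 0 (zero_mem_box _))
      (fun μ => hb' y c _ (un_mem_box μ)), Ib_agr h hI _ (eU y c), lab_agr hO eW,
      Φ'_loc (c.dd eW) h (Bx_real _ _) (Bx_real _ _)]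
  have e3 : ∀ m ∈ O.toRight, S.jm ψ K W v (S.Oh O) m = S.jm ψ K W' v' (S.Oh O) m := fun m hm => by
    have hm := mem_toRight.1 hm
    rcases m with y | q | q | Z
    · have c := cl_of' (S := S) hm (mem_singleton_self y)
      refine if_congr Iff.rfl rfl (fm_agr h (agr_cC ((c.agr eW).mono (by omega))) ?_ ?_
        (Bx_real _ (sh y W)) (Bx_real _ (sh y W')))
      · rw [← Sd.vz_shv, ← Sd.vz_shv]
        exact agr_vz0 (c.agv ev)
      · rw [← Bx_eq, ← Bx_eq]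
        exact c.dd eW
    · rfl
    · rw [Sd.jm, Sd.jm, Fs_loc ((cl_of hm (smk_bs (hO hm))).dd eW) (Bx_real _ _) (Bx_real _ _)]
    · exact Sd.dZ_agr h.ok h.rA hW hW' fun y hy =>
        ((cl_of' hm hy).agr eW).mono (by rw [Sd.p'_R]; omega)
  rw [Sd.FO, Sd.FO, prod_congr rfl e1, prod_congr rfl e2, prod_congr rfl e3,
    prod_congr (s₂ := us S.sp O) rfl fun y hy => by rw [Sd.df, e0 y hy, ← Sd.df]]

theorem FO_dep {k : Mj} (h : S.Fo P) (hI : IxL S.p (S.Φ ψ)) (hK : KM S.p S.nf k K)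
    (hO : O ⊆ S.obs) (hW : Per S.n W) :
    DependsOn (fun v => S.FO ψ K W O (pcs S.n v)) (us S.sp O) := fun _ _ e =>
  FO_agr h hI hK hO hW hW (ps_pcs _ _) (fun _ _ _ => rfl) fun _ hx => e _ hx

/-- locality of the weight in the block field -/
theorem wO_agr {k : Mj} (h : S.Fo P) (hI : IxL S.p (S.Φ ψ)) (hK : KM S.p S.nf k K)
    (hO : O ⊆ S.obs) (hW : Per S.n W) (hW' : Per S.n W') (eW : AgW S.n (us S.sp O) W W') :
    S.wO ψ K W O = S.wO ψ K W' O := by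
  rw [Sd.wO, Sd.wO, wf_agr hO eW,
    funext fun v => FO_agr h hI hK hO hW hW' (ps_pcs _ v) eW fun _ _ => rfl]

end Fx

end Pool.Agent.Lib.MP_7f377f_mp.RG.Q4
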