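import Pool.Agent.Lib.MP_7f377f_mp.G.RGMeasTree
import Pool.Agent.Lib.MP_7f377f_mp.G.Q4Model

/-! Free energy bounds: axial gauge upper bound and gauge orbit lower bound. -/

noncomputable section

set_option linter.unusedSectionVars false
variable [Pool.Agent.Lib.MP_7f377f_mp.GD]

namespace Pool.Agent.Lib.MP_7f377f_mp.RG.Q4

open Finset MeasureTheory
open scoped ENNReal

namespace Fr

theorem mem_box {l : ℕ} {x : St} : x ∈ box l ↔ ∀ i, -(l : ℤ) ≤ x i ∧ x i ≤ l := by
  simp only [box, Fintype.mem_piFinset, mem_Icc]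

theorem half (l : ℕ) : LL l / 2 = l := by unfold LL; omega

theorem rc_up (l : ℕ) (x : St) : rc (LL l) x = x + up l (-yo l x) := by
  funext i
  have h := Int.mul_ediv_add_emod (x i + l) (LL l : ℕ)
  simp only [rc, half, up, yo, Pi.add_apply, Pi.smul_apply, Pi.neg_apply, smul_eq_mul]
  linear_combination h

theorem rc_box (l : ℕ) (x : St) : rc (LL l) x ∈ box l := by
  rw [rc_up, mem_box]
  intro i
  have := Ms.rel_box l x i
  simpa only [up, smul_neg, ← sub_eq_add_neg] using this

theorem rc_id {l : ℕ} {x : St} (h : x ∈ box l) : rc (LL l) x = x := by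
  rw [rc_up, Ms.yo_box (mem_box.1 h)]
  simp [up]

theorem cg_rc (l : ℕ) (x : St) : Ms.Cg (LL l * 1) (rc (LL l) x) x := fun i =>
  ⟨-yo l x i, by simp [rc_up, up]⟩

theorem PL_pc {α : Type} (l : ℕ) (U : Lk → α) : Ms.PL (LL l * 1) (pc (LL l) U) := by
  intro x y μ h
  have : rc (LL l) x = rc (LL l) y := by
    funext i
    have h1 := h i
    rw [mul_one] at h1
    simp only [rc]
    congr 1
    refine Int.emod_eq_emod_iff_emod_sub_eq_zero.2 ?_
    rw [add_sub_add_right_eq_sub]
    exact Int.emod_eq_zero_of_dvd h1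
  simp only [pc, this]

theorem cont_pc (n : ℕ) : Continuous fun U : Conf => pc n U :=
  continuous_pi fun _ => continuous_apply _

theorem card_box (l : ℕ) : (box l).card = LL l ^ 4 := by
  have : (Icc (-(l : ℤ)) l).card = LL l := by
    rw [Int.card_Icc]; unfold LL; omega
  simp [box, Fintype.card_piFinset, this]

theorem card_tree (l : ℕ) : LL l ^ 4 ≤ ((lbox l).filter (tree l)).card + 1 := by
  have h0 : (Icc (-(l : ℤ)) l).card = 2 * l + 1 := by
    rw [Int.card_Icc]; omega
  have h1 : (Ico (-(l : ℤ)) l).card = 2 * l := by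
    rw [Int.card_Ico]; omega
  set s : Fin 4 → Fin 4 → Finset ℤ := fun μ i =>
    if i < μ then Icc (-(l : ℤ)) l else if i = μ then Ico (-(l : ℤ)) l else {0} with hs
  have hsub : ∀ μ, Fintype.piFinset (s μ) ⊆ (box l).filter fun x => tree l (x, μ) := by
    intro μ x hx
    rw [Fintype.mem_piFinset] at hx
    have b1 : ∀ i, -(l : ℤ) ≤ x i ∧ x i ≤ l := fun i => by
      have := hx i
      simp only [hs] at this
      split_ifs at this
      · exact mem_Icc.1 this
      · rw [mem_Ico] at this; omega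
      · rw [mem_singleton] at this; omega
    have b2 : ∀ i, -(l : ℤ) ≤ (x + un μ) i ∧ (x + un μ) i ≤ l := fun i => by
      by_cases hi : i = μ
      · subst hi
        have := hx i
        simp only [hs, lt_irrefl, if_false, if_true, mem_Ico] at this
        simp only [un, Pi.add_apply, Pi.single_eq_same]
        omega
      · simpa only [un, Pi.add_apply, Pi.single_eq_of_ne hi, add_zero] using b1 i
    refine mem_filter.2 ⟨mem_box.2 b1, (Ms.yo_box b2).trans (Ms.yo_box b1).symm, fun ν hν => ?_⟩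
    have hν' : μ < ν := hν
    have := hx ν
    simp only [hs, hν'.not_gt, hν'.ne', if_false, mem_singleton] at this
    simp only [Ms.yo_box b1, this]
    simp [up]
  have e : ((lbox l).filter (tree l)).card =
      ∑ μ, ((box l).filter fun x => tree l (x, μ)).card := by
    simp only [lbox, card_filter]
    rw [sum_product_right]
  have h2 : ∑ μ, (Fintype.piFinset (s μ)).card ≤
      ∑ μ, ((box l).filter fun x => tree l (x, μ)).card :=
    sum_le_sum fun μ _ => card_le_card (hsub μ)
  rw [e]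
  refine le_trans (le_of_eq ?_) (Nat.add_le_add_right h2 1)
  simp only [Fintype.card_piFinset, Fin.sum_univ_four, Fin.prod_univ_four, hs]
  simp [h0, h1, LL]
  ring

end Fr

open Fr

/-- gauge orbits of the fields close to the identity -/
theorem orbit_lower : ∃ c > 0, ∀ (n : ℕ), Odd n → ∀ δ : ℝ, 0 < δ → δ ≤ c →
    (c * δ) ^ (GD.d * (3 * n ^ 4 + 1)) ≤ PP.real {U | ∃ u : St → S3, PS n u ∧
      ∀ e, ‖(gauge Inv.inv u (pc n U) e).q - 1‖ ≤ δ} := by
  obtain ⟨cB, hB0, hB⟩ := haar_ball
  refine ⟨min cB 1, lt_min hB0 one_pos, fun n hn δ hδ hδc => ?_⟩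
  obtain ⟨l, rfl⟩ : ∃ l, n = LL l := hn
  set c := min cB 1 with hc
  have hc0 : 0 < c := lt_min hB0 one_pos
  have hc1 : c ≤ 1 := min_le_right _ _
  have hδ1 : δ ≤ 1 := hδc.trans hc1
  set N := (lbox l).filter fun f => ¬tree l f with hN
  have hcard : N.card ≤ 3 * LL l ^ 4 + 1 := by
    have c1 := card_filter_add_card_filter_not (s := lbox l) (tree l)
    have c2 := card_tree l
    have c3 : (lbox l).card = LL l ^ 4 * 4 := by rw [lbox, card_product, card_box]; simp
    rw [hN]
    omega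
  have hcont : ∀ x, Continuous fun U : Conf => Ms.hb l (pc (LL l) U) x := fun x =>
    (Ms.cont_hb l x).comp (cont_pc _)
  have hm := Ms.mp_skew (j := fun f : N => f.1) Subtype.val_injective
    (a := fun U f => Ms.hb l (pc (LL l) U) f.1.1)
    (b := fun U f => (Ms.hb l (pc (LL l) U) (f.1.1 + un f.1.2))⁻¹)
    (continuous_pi fun f => hcont _).measurable (continuous_pi fun f => (hcont _).inv).measurable
    fun U U' h => by
      have : ∀ x, Ms.hb l (pc (LL l) U) x = Ms.hb l (pc (LL l) U') x := by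
        refine Ms.hb_congr fun e he => h _ ?_
        rintro ⟨f, hf⟩
        refine (mem_filter.1 f.2).2 ?_
        simp only at hf
        rw [hf, rc_up, Ms.tree_add_up]
        exact he
      simp only [this, and_self]
  set Bl : Set S3 := {g | ‖g.q - 1‖ ≤ δ} with hBl
  have hS : MeasurableSet Bl := measurableSet_le Ms.meas_nsub measurable_const
  have h1 := hm.measure_preimage (s := Set.univ.pi fun _ => Bl)
    (MeasurableSet.univ_pi fun _ => hS).nullMeasurableSet
  rw [Measure.pi_pi, prod_const, card_univ, Fintype.card_coe] at h1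
  have hsub : (fun (U : Conf) (f : N) => Ms.hb l (pc (LL l) U) f.1.1 * U f.1 *
      (Ms.hb l (pc (LL l) U) (f.1.1 + un f.1.2))⁻¹) ⁻¹' (Set.univ.pi fun _ => Bl) ⊆
      {U | ∃ u : St → S3, PS (LL l) u ∧
        ∀ e, ‖(gauge Inv.inv u (pc (LL l) U) e).q - 1‖ ≤ δ} := by
    intro U hU
    have hP := Ms.hb_per (l := l) (PL_pc l U)
    refine ⟨Ms.hb l (pc (LL l) U), fun x v => hP _ _ fun i => ⟨v i, by simp⟩, fun e => ?_⟩
    rw [← Ms.PL_gauge hP (PL_pc l U) _ _ e.2 (cg_rc l e.1)]
    by_cases ht : tree l (rc (LL l) e.1, e.2)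
    · rw [Ms.hb_tree _ ht, Ms.q_one, sub_self, norm_zero]
      exact hδ.le
    · have := hU ⟨(rc (LL l) e.1, e.2),
        mem_filter.2 ⟨mem_product.2 ⟨rc_box l _, mem_univ _⟩, ht⟩⟩ (Set.mem_univ _)
      simpa only [gauge, pc, rc_id (rc_box l _), hBl, Set.mem_ofPred_eq] using this
  refine (ENNReal.ofReal_le_iff_le_toReal (measure_ne_top _ _)).1 ?_
  refine le_trans ?_ (h1 ▸ measure_mono hsub)
  have h2 : (c * δ) ^ GD.d ≤ cB * δ ^ GD.d := by
    rw [mul_pow]
    gcongr
    exact (pow_le_of_le_one hc0.le hc1 (by have := GD.d3; omega)).trans (min_le_left _ _)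
  have h3 : (c * δ) ^ GD.d ≤ 1 := pow_le_one₀ (by positivity) (mul_le_one₀ hc1 hδ.le hδ1)
  calc ENNReal.ofReal ((c * δ) ^ (GD.d * (3 * LL l ^ 4 + 1)))
      = ENNReal.ofReal (((c * δ) ^ GD.d) ^ (3 * LL l ^ 4 + 1)) := by
        rw [← pow_mul]
    _ ≤ ENNReal.ofReal (((c * δ) ^ GD.d) ^ N.card) :=
        ENNReal.ofReal_le_ofReal (pow_le_pow_of_le_one (by positivity) h3 hcard)
    _ = ENNReal.ofReal ((c * δ) ^ GD.d) ^ N.card := ENNReal.ofReal_pow (by positivity) _
    _ ≤ haar Bl ^ N.card := by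
        gcongr
        exact (ENNReal.ofReal_le_ofReal h2).trans (hB δ hδ.le hδ1)

end Pool.Agent.Lib.MP_7f377f_mp.RG.Q4
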