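import Pool.Agent.Lib.MP_7f377f_mp.G.Q4Model

/-! Cubes (finite difference jets), cutoffs, polymers and tours: definitions. -/

noncomputable section

set_option linter.unusedSectionVars false
variable [Pool.Agent.Lib.MP_7f377f_mp.GD]

namespace Pool.Agent.Lib.MP_7f377f_mp.RG.Q4

open Finset
open scoped Pointwise

section cubes

/-- vertices of the cube -/
abbrev Vx := Fin 3 → Bool

/-- the base vertex -/
def o3 : Vx := fun _ => false

variable {A : Type} [NormedAddCommGroup A]

/-- mixed difference in the directions `S` -/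
def dS {E : Type} [AddCommGroup E] (S : Finset (Fin 3)) (f : Vx → E) (T : Vx) : E :=
  ∑ S' ∈ S.powerset, (-1 : ℤ) ^ (S.card - S'.card) •
    f fun i => if i ∈ S then decide (i ∈ S') else T i

/-- the algebra norm of a cube with sides `η` -/
def cN (η : Fin 3 → ℝ) (f : Vx → A) : ℝ :=
  ∑ S : Finset (Fin 3), (⨆ T, ‖dS S f T‖) / ∏ i ∈ S, η i

/-- the variation of a cube -/
def cV (η : Fin 3 → ℝ) (f : Vx → A) : ℝ := cN η fun T => f T - f o3

/-- admissible sides -/
def Eta (η0 : ℝ) (η : Fin 3 → ℝ) : Prop := ∀ i, 0 < η i ∧ η i ≤ η0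

end cubes

/-- jets of a function on a real vector space with the seminorms `‖ℓ j ·‖` -/
def JtL {E F J : Type} [AddCommGroup E] [NormedAddCommGroup F] (P : E → Prop) (ℓ : J → E → F)
    (η0 h ρ : ℝ) (φ : E → ℂ) (M : ℝ) : Prop :=
  ∀ η, Eta η0 η → ∀ γ : Vx → E, (∀ T, P (γ T)) → (∀ j, ‖ℓ j (γ o3)‖ ≤ ρ) →
    (∀ j, cV η (fun T => ℓ j (γ T)) ≤ h) → cN η (fun T => φ (γ T)) ≤ M

/-- half of the second differential at the origin -/
def kq {E : Type} [AddCommGroup E] [Module ℝ E] (φ : E → ℂ) (a b : E) : ℂ :=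
  Filter.limUnder Filter.atTop fun n : ℕ => (4 : ℂ) ^ n / 2 *
    (φ ((2⁻¹ : ℝ) ^ n • a + (2⁻¹ : ℝ) ^ n • b) - φ ((2⁻¹ : ℝ) ^ n • a) -
      φ ((2⁻¹ : ℝ) ^ n • b) + φ 0)

/-- the differential at the origin -/
def k1 {E : Type} [AddCommGroup E] [Module ℝ E] (φ : E → ℂ) (a : E) : ℂ :=
  Filter.limUnder Filter.atTop fun n : ℕ => (2 : ℂ) ^ n * (φ ((2⁻¹ : ℝ) ^ n • a) - φ 0)

section polymers

variable {σ Ω : Type} [DecidableEq σ] [DecidableEq Ω]

/-- union of the supports -/
def us (sp : Ω → Finset σ) (O : Finset Ω) : Finset σ := O.biUnion sp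

/-- families which are connected by overlapping supports -/
def Conn (sp : Ω → Finset σ) (O : Finset Ω) : Prop :=
  O.Nonempty ∧ ∀ O1 ⊆ O, O1.Nonempty → O1 ≠ O → ¬ Disjoint (us sp O1) (us sp (O \ O1))

open Classical in
/-- the connected components of a family -/
def comps (sp : Ω → Finset σ) (O : Finset Ω) : Finset (Finset Ω) :=
  O.powerset.filter fun O1 => Conn sp O1 ∧ Disjoint (us sp O1) (us sp (O \ O1))

open Classical in
/-- families of pairwise disjoint nonempty subsets of `Λ` -/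
def fams (Λ : Finset σ) : Finset (Finset (Finset σ)) :=
  Λ.powerset.powerset.filter fun 𝒳 => ∅ ∉ 𝒳 ∧ (𝒳 : Set (Finset σ)).PairwiseDisjoint id

/-- polymer partition function with background weights `I` -/
def Zp (Λ : Finset σ) (K : Finset σ → ℂ) (I : σ → ℂ) : ℂ :=
  ∑ 𝒳 ∈ fams Λ, (∏ X ∈ 𝒳, K X) * ∏ y ∈ Λ \ 𝒳.biUnion id, I y

open Classical in
/-- connected subfamilies of `Ω0` with total support `X` -/
def clus (sp : Ω → Finset σ) (Ω0 : Finset Ω) (X : Finset σ) : Finset (Finset Ω) :=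
  Ω0.powerset.filter fun O => Conn sp O ∧ us sp O = X

end polymers

/-- distance at most `D` in the torus of side `n` -/
def nearT (n D : ℕ) (x y : St) : Prop := ∃ v : St, y - x - (n : ℤ) • v ∈ box D

/-- a closed tour of length `k` with steps at most `D` whose balls of radius `D` cover `X` -/
def Tour (n D : ℕ) (X : Finset St) (k : ℕ) : Prop :=
  0 < k ∧ ∃ p : ℕ → St, p k = p 0 ∧ (∀ i < k, nearT n D (p i) (p (i + 1))) ∧
    ∀ x ∈ X, ∃ i < k, nearT n D (p i) x

/-- size of a set at scale `D` -/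
def tau (n D : ℕ) (X : Finset St) : ℕ := sInf {k | Tour n D X k}

/-- coarse sites of the blocks which meet `X` -/
def dn (l n : ℕ) (X : Finset St) : Finset St := X.image fun x => rc n (yo l x)

end Pool.Agent.Lib.MP_7f377f_mp.RG.Q4
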