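import Pool.Agent.Lib.MP_7f377f_mp.RGLinD
import Pool.Agent.Lib.MP_7f377f_mp.G.RGHol1
import Pool.Agent.Lib.MP_7f377f_mp.Q4LinDefs

/-! The new density on fields of constant curvature. -/

noncomputable section

set_option linter.unusedSectionVars false
variable [Pool.Agent.Lib.MP_7f377f_mp.GD]

namespace Pool.Agent.Lib.MP_7f377f_mp.RG.La.Q

open Finset Q4
open scoped Pointwise

variable {l r n R c : ℕ} {cL cU C τ δ δ' σ : ℝ} {m : BF} {s : V →ₗ[ℝ] V} {a b B φ : V}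

theorem pre_of_lin (h : Lin l r c τ m s) : Pre l r c τ m s :=
  ⟨h.s_tree, h.s_gauge, h.s_rng, h.s_bd, h.stat, h.energy, h.point⟩

theorem mem_box_ht (x : St) : ∃ R, x ∈ box R :=
  ⟨∑ i, (x i).natAbs, mem_box.2 fun i => by
    have := single_le_sum (f := fun i => (x i).natAbs) (fun _ _ => Nat.zero_le _) (mem_univ i)
    rw [Int.abs_eq_natAbs]
    exact_mod_cast this⟩

/-- closed forms are gradients -/
theorem closed_gr (h : dd a = dd b) : a = b + gr (lam (a - b)) := by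
  have h1 : cg (a - b) = 0 := funext fun e => by
    obtain ⟨R, hR⟩ := mem_box_ht e.1
    have : Cv R 0 (a - b) := fun x _ μ ν => by simp [dd_sub, h]
    simpa using Sm_cg this e (mem_lbox.2 hR)
  rw [← sub_eq_zero.1 h1, add_sub_cancel]

theorem m_closed (hg : ∀ u b, m (gr u) b = 0) (h : dd a = dd b) (v : V) : m a v = m b v := by
  rw [closed_gr h]
  simp [hg]

theorem tree_sh (h : ∀ f, tree l f → a f = 0) (y : St) (f : Lk) (hf : tree l f) :
    sh (up l y) a f = 0 := h _ ((tree_add_up l f.1 y f.2).2 hf)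

theorem mu_tree (hs : ∀ a f, tree l f → s a f = 0) (B : V) (f : Lk) (hf : tree l f) :
    mu l s B f = 0 := by
  rw [mu_apply, iz_tree B hf, zero_add]
  refine hs _ _ ((tree_add_up l _ (yo l f.1) f.2).1 ?_)
  rwa [sub_add_cancel]

theorem closed_tree (h : ∀ f, tree l f → a f = 0) (h1 : dd a = 0) (h2 : avgA l a = 0) : a = 0 := by
  funext e
  have := tree_poinc (δ := 0) (δ' := 0) (tree_sh h (yo l e.1))
    (fun x _ μ ν => by simp [Li.dd_sh, h1]) (fun μ => by simp [avgA_sh, h2, sh])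
    (e.1 - up l (yo l e.1), e.2) (mem_lbox.2 (sub_up_mem l e.1))
  simpa [sh] using this

theorem avg0_yo (l : ℕ) (u : St → ℝ) : avg0 l (fun x => u (yo l x)) = u := by
  funext y
  have := avg0_sub_yo l (fun x => u (yo l x)) u y
  simp only [sub_self, avg0, sum_const_zero, mul_zero] at this
  exact (sub_eq_zero.1 this.symm)

theorem mu_gr (hs : ∀ u, s (gr u) = 0) (l : ℕ) (u : St → ℝ) :
    mu l s (gr u) = gr fun x => u (yo l x) := by
  funext f
  simp [mu_apply, iz_gr, sh_gr, hs]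

theorem enB_mu_gr (hg : ∀ u b, m (gr u) b = 0) (hs : ∀ u, s (gr u) = 0) (l : ℕ) (u : St → ℝ)
    (q : V × V) : enB l m (mu l s (gr u), gr u) q = 0 := by
  rw [mu_gr hs]
  exact enB_gr hg (by rw [avgA_gr, avg0_yo]) _

theorem xx_closed (hs : ∀ a b, m a b = m b a) (hg : ∀ u b, m (gr u) b = 0)
    (sg : ∀ u, s (gr u) = 0) {B B' : V} (h : dd B = dd B') (l : ℕ) (a : V) :
    xx l m s a B = xx l m s a B' := by
  rw [closed_gr h, map_add, xx_apply l m s a (gr _), enB_symm hs, enB_mu_gr hg sg, add_zero]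

theorem sum_box_per {g : St → ℝ} (hg : ∀ x y, g (x + up l y) = g x) (v : St) :
    ∑ x ∈ box l, g (x + v) = ∑ x ∈ box l, g x := by
  have key : ∀ v, ∀ x ∈ box l, x + v - up l (yo l (x + v)) + -v -
      up l (yo l (x + v - up l (yo l (x + v)) + -v)) = x := fun v x hx => by
    have e : x + v - up l (yo l (x + v)) + -v = x + up l (-yo l (x + v)) := by
      rw [up_neg]; abel
    rw [e, yo_add_up hx, add_sub_cancel_right]
  refine sum_nbij' (fun x => x + v - up l (yo l (x + v))) (fun x => x + -v - up l (yo l (x + -v)))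
    (fun x _ => sub_up_mem l _) (fun x _ => sub_up_mem l _) (key v) (fun x hx => ?_) fun x _ => ?_
  · simpa only [neg_neg] using key (-v) x hx
  · rw [sub_eq_add_neg, ← up_neg, hg]

theorem dd_smul (t : ℝ) (a : V) (x : St) (μ ν : Fin 4) : dd (t • a) x μ ν = t * dd a x μ ν := by
  simp only [dd, Pi.smul_apply, smul_eq_mul]; ring

/-- the fine field of constant curvature in the tree gauge -/
theorem exists_const (l : ℕ) (hB : ∀ x, dd B x = dd B 0) : ∃ a : V, avgA l a = B ∧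
    dd a = dd (((LL l : ℝ) ^ 2)⁻¹ • B) ∧ ∀ f, tree l f → a f = 0 := by
  have hL := LL_posR l
  have h1 : dd B = dd (avgA l (((LL l : ℝ) ^ 2)⁻¹ • B)) := by
    funext y μ ν
    have : ∀ x, dd B x μ ν = dd B y μ ν := fun x => by rw [hB x, hB y]
    simp only [Li.dd_avgA, dd_smul, this, sum_const, card_range, nsmul_eq_mul, card_box_LL]
    field_simp
  refine ⟨TG l (((LL l : ℝ) ^ 2)⁻¹ • B + gr fun x => lam (B - avgA l (((LL l : ℝ) ^ 2)⁻¹ • B))
    (yo l x)), ?_, ?_, fun f hf => TG_tree _ hf⟩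
  · rw [avgA_TG, map_add, avgA_gr, avg0_yo, ← closed_gr h1]
  · rw [dd_TG, dd_add, dd_gr, add_zero]

theorem cc_eq (hm : Lin l r c τ m s) (hB : ∀ x, dd B x = dd B 0) : ∃ a D : V,
    avgA l a = B ∧ dd a = dd (((LL l : ℝ) ^ 2)⁻¹ • B) ∧ D = mu l s B - a ∧
    (∀ f, tree l f → D f = 0) ∧ (∀ y, sh (up l y) D = D) ∧ xx l m s D B = hh l m D D ∧
      mn l m s B B = m B B + hh l m D D := by
  have hL := LL_posR l
  obtain ⟨a, h1, h2, h3⟩ := exists_const l hB
  have hB' : ∀ y, dd (sh y B) = dd B := fun y => funext fun x => by rw [dd_sh, hB, hB x]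
  have ha : ∀ y, dd (sh y a) = dd a := fun y => by
    funext x μ ν
    rw [dd_sh, h2, dd_smul, dd_smul, hB, hB x]
  have hp : ∀ y, sh (up l y) (mu l s B - a) = mu l s B - a := fun y => by
    obtain ⟨v, hv⟩ : ∃ v, sh y B = B + gr v := ⟨_, closed_gr (hB' y)⟩
    have := closed_tree (l := l) (a := sh (up l y) a - a - iz l (gr v))
      (fun f hf => by simp only [Pi.sub_apply, tree_sh h3 y f hf, h3 f hf, iz_tree _ hf, sub_zero])
      (by rw [dd_sub, dd_sub, ha, iz_gr, dd_gr]; simp)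
      (by rw [map_sub, map_sub, avgA_sh, h1, hv, iz_gr, avgA_gr, avg0_yo]; simp)
    rw [sh_sub, ← mu_sh, hv, map_add, mu_gr hm.s_gauge, ← iz_gr, ← sub_eq_zero.1 this]
    abel
  set D := mu l s B - a with hD
  have e1 : (mu l s B, B) = (a, B) + (D, 0) := by simp [hD]
  have e2 : enB l m (D, 0) (a, B) = 0 := by
    have h4 : dd (∑ x ∈ box l, sh x D) = dd 0 := by
      have h5 : ∀ v μ, ∑ x ∈ box l, D (v + x, μ) = ∑ x ∈ box l, D (x, μ) := fun v μ => by
        simp only [add_comm v]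
        exact sum_box_per (g := fun x => D (x, μ)) (fun x y => congrFun (hp y) (x, μ)) v
      funext z μ ν
      simp [dd, Finset.sum_apply, sh, h5]
    have h5 := m_closed hm.gauge h4 a
    simp only [map_sum, LinearMap.sum_apply, map_zero, LinearMap.zero_apply] at h5
    simp only [enB_apply, h1, sub_self, mul_zero, sum_const_zero, add_zero, hm.symm (sh _ D),
      m_closed hm.gauge (ha _)] at h5 ⊢
    simpa only [hm.symm a] using h5
  have e3 : enB l m (a, B) (a, B) = m B B := by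
    have h4 : ∀ x v, m (sh x a) v = ((LL l : ℝ) ^ 2)⁻¹ * m B v := fun x v => by
      rw [m_closed hm.gauge ((ha x).trans h2), map_smul]; rfl
    simp only [enB_apply, h1, sub_self, mul_zero, sum_const_zero, add_zero, h4, hm.symm B (sh _ a),
      sum_const, nsmul_eq_mul, card_box_LL]
    field_simp
  refine ⟨a, D, h1, h2, rfl, fun f hf => by simp [hD, mu_tree hm.s_tree B f hf, h3 f hf], hp, ?_, ?_⟩
  · rw [xx_apply, e1, map_add, e2, zero_add, hh_apply]
  · rw [mn_apply, e1, ← e3, hh_apply]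
    simp only [map_add, LinearMap.add_apply, enB_symm hm.symm l (a, B) (D, 0), e2]
    ring

theorem hh_small (hm : Lin l r c τ m s) (hB : ∀ x, dd B x = dd B 0) {D : V}
    (h0 : ∀ f, tree l f → D f = 0) (hp : ∀ y, sh (up l y) D = D) (h : xx l m s D B = hh l m D D) :
    hh l m D D ≤ 9604 * (LL l : ℝ) ^ (c + 4) * τ ^ 2 * nd B 0 := by
  have hL := LL_posR l
  have hB' : ∀ y, dd (sh y B) = dd B := fun y => funext fun x => by rw [dd_sh, hB, hB x]
  have h1 : xx l m s D B = ∑ w ∈ box 2, xx l m s (sh (up l w) (cut l D)) (sh w B) := by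
    simp only [xx_closed hm.symm hm.gauge hm.s_gauge (hB' _)]
    rw [← LinearMap.sum_apply, ← map_sum, ← sub_eq_zero, ← LinearMap.sub_apply, ← map_sub]
    refine hm.xx_rng _ _ (Or.inl fun e he => ?_)
    have h2 : (e.1 + up l (-yo l e.1), e.2) ∈ lbox l :=
      mem_lbox.2 (by simpa only [up_neg, ← sub_eq_add_neg] using sub_up_mem l e.1)
    rw [Pi.sub_apply, Finset.sum_apply, sum_eq_single_of_mem (-yo l e.1)
      (neg_mem_box (box_mono one_le_two (yo_mem_one (mem_lbox.1 he)))), sub_eq_zero]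
    · exact (congrFun (hp _) e).symm.trans (cut_of_mem _ h2).symm
    · refine fun w _ hw => cut_of_not_mem _ fun h => hw ?_
      have h3 := yo_of_mem (mem_lbox.1 h)
      rw [yo_up_add] at h3
      exact eq_neg_of_add_eq_zero_right h3
  have h2 : Cv (r / 3) (√(nd B 0)) B := fun x _ μ ν => by
    rw [hB]; exact Real.abs_le_sqrt (Li.sq_le_nd B 0 μ ν)
  have h3 := (le_abs_self _).trans (cross_one (pre_of_lin hm) h0 h2)
  have h4 := hm.coer D h0
  simp only [hp, sum_const, nsmul_eq_mul, card_box] at h4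
  set K := (LL l : ℝ) ^ c * 7 ^ 4 with hK
  have K0 : 0 < K := by positivity
  have h5 : 2 * ∑ f ∈ lbox l, |D f| * (τ * √(nd B 0)) ≤
      ∑ f ∈ lbox l, (K⁻¹ * D f ^ 2 + K * τ ^ 2 * nd B 0) := by
    rw [mul_sum]
    refine sum_le_sum fun f _ => ?_
    have e : K⁻¹ * D f ^ 2 + K * τ ^ 2 * √(nd B 0) ^ 2 - 2 * (|D f| * (τ * √(nd B 0))) =
        K⁻¹ * (|D f| - K * τ * √(nd B 0)) ^ 2 := by
      rw [← sq_abs (D f)]; field_simp; ring
    have e0 : 0 ≤ K⁻¹ * (|D f| - K * τ * √(nd B 0)) ^ 2 := by positivity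
    rw [Real.sq_sqrt (Li.nd_nonneg _ _)] at e
    linarith
  have h6 : ((lbox l).card : ℝ) = (LL l : ℝ) ^ 4 * 4 := by simp [card_lbox, LL]
  simp only [sum_add_distrib, ← mul_sum, sum_const, nsmul_eq_mul, h6] at h5
  have h7 : K⁻¹ * ∑ f ∈ lbox l, D f ^ 2 ≤ hh l m D D := by
    rw [inv_mul_le_iff₀ K0, hK, mul_assoc]
    exact h4.trans_eq (by norm_num)
  rw [← h1, h] at h3
  rw [hK] at h5 h7
  rw [pow_add]
  linarith

theorem df_of_bd {m' : BF} {K : ℝ} (hs : ∀ a b, m a b = m b a) (hg : ∀ u b, m (gr u) b = 0)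
    (hp : ∀ a, 0 ≤ m a a) (hb : Bd r r K m) (hs' : ∀ a b, m' a b = m' b a)
    (hg' : ∀ u b, m' (gr u) b = 0) (hp' : ∀ a, 0 ≤ m' a a) (hb' : Bd r r K m') :
    Df r (K * (3 * r) ^ 2) m m' := fun a δ h => by
  have h1 := abs_le.1 (hb _ _ _ _ (Sm_cg h) (Sm_cg h))
  have h2 := abs_le.1 (hb' _ _ _ _ (Sm_cg h) (Sm_cg h))
  rw [m_closed hg (dd_cg a), hs, m_closed hg (dd_cg a)] at h1
  rw [m_closed hg' (dd_cg a), hs', m_closed hg' (dd_cg a)] at h2
  have := hp a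
  have := hp' a
  rw [abs_le]
  constructor <;> linarith

theorem df_apriori_of (h : ∃ c : ℕ, ∀ (n r : ℕ) (cL cU : ℝ) (m : BF), c ≤ r → cU ≤ 20 →
    Inv n r cL cU m → Bd r r ((r : ℝ) ^ c) m) : ∃ c : ℕ, ∀ (n n' r : ℕ) (cL cL' cU cU' : ℝ)
    (m m' : BF), c ≤ r → cU ≤ 20 → cU' ≤ 20 → Inv n r cL cU m → Inv n' r cL' cU' m' →
      Df r ((r : ℝ) ^ c) m m' := by
  obtain ⟨c, h⟩ := h
  refine ⟨c + 9, fun n n' r cL cL' cU cU' m m' hr h1 h2 hm hm' a δ ha => ?_⟩
  refine (df_of_bd hm.symm hm.gauge hm.psd (h _ _ _ _ _ (by omega) h1 hm) hm'.symm hm'.gauge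
    hm'.psd (h _ _ _ _ _ (by omega) h2 hm') a δ ha).trans (mul_le_mul_of_nonneg_right ?_ (sq_nonneg _))
  have : (9 : ℝ) ≤ r := by exact_mod_cast (by omega : 9 ≤ r)
  calc _ = 9 * (r : ℝ) ^ (c + 2) := by ring
    _ ≤ r * (r : ℝ) ^ (c + 2) := by gcongr
    _ = (r : ℝ) ^ (c + 3) := by ring
    _ ≤ _ := pow_le_pow_right₀ (by linarith) (by omega)

theorem cv_smul' (t : ℝ) (h : Cv R δ a) : Cv R (|t| * δ) (t • a) := fun x hx μ ν => by
  rw [dd_smul, norm_mul]
  exact mul_le_mul_of_nonneg_left (h x hx μ ν) (norm_nonneg _)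

/-- polarisation -/
theorem bil {k : BF} (hs : ∀ a b, k a b = k b a) (h : ∀ a δ, Cv R δ a → |k a a| ≤ σ * δ ^ 2)
    : Cb R (2 * σ) k := fun a b δ δ' ha hb => by
  have h1 : ∀ (a b : V) δ, Cv R δ a → Cv R δ b → |k a b| ≤ 2 * σ * δ ^ 2 := fun a b δ ha hb => by
    have k1 := abs_le.1 (h _ _ (Ho.cv_add ha hb))
    have k2 := abs_le.1 (h _ _ (Ho.cv_add ha (cv_smul' (-1) hb)))
    simp only [map_add, map_smul, LinearMap.add_apply, LinearMap.smul_apply, smul_eq_mul, hs b a,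
      abs_neg, abs_one, one_mul] at k1 k2
    rw [abs_le]
    constructor <;> linarith [k1.1, k1.2, k2.1, k2.2]
  have d0 := ha.nonneg
  have d1 := hb.nonneg
  have h2 : ∀ ε, 0 < ε → |k a b| ≤ 2 * σ * (δ + ε) * (δ' + ε) := fun ε hε => by
    have := h1 _ _ ((δ + ε) * (δ' + ε))
      ((cv_smul' (δ' + ε) ha).mono le_rfl (by rw [abs_of_pos (by linarith)]; nlinarith))
      ((cv_smul' (δ + ε) hb).mono le_rfl (by rw [abs_of_pos (by linarith)]; nlinarith))
    simp only [map_smul, LinearMap.smul_apply, smul_eq_mul, abs_mul] at this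
    rw [abs_of_pos (by linarith : 0 < δ + ε), abs_of_pos (by linarith : 0 < δ' + ε)] at this
    refine le_of_mul_le_mul_left (a := (δ + ε) * (δ' + ε)) (by linarith) (by positivity)
  have c : Continuous fun ε : ℝ => 2 * σ * (δ + ε) * (δ' + ε) := by fun_prop
  simpa using ge_of_tendsto (c.continuousAt.tendsto.mono_left
    (nhdsWithin_le_nhds (a := 0) (s := Set.Ioi 0))) (eventually_nhdsWithin_of_forall h2)

theorem cb_nonneg {k : BF} (h : Cb R σ k) : 0 ≤ σ := by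
  simpa using h 0 0 1 1 (Ho.cv_zero _ zero_le_one) (Ho.cv_zero _ zero_le_one)

theorem cv_sqrt_box (R : ℕ) (a : V) : Cv R (√(∑ x ∈ box R, nd a x)) a := Li.cv_sqrt R a

theorem cb_left {k : BF} (h : Cb R σ k) (ha : ∀ x ∈ box R, dd a x = 0) (b : V) : k a b = 0 := by
  simpa using h a b 0 _ (fun x hx μ ν => by simp [ha x hx]) (cv_sqrt_box R b)

theorem cb_right {k : BF} (h : Cb R σ k) (ha : ∀ x ∈ box R, dd a x = 0) (b : V) : k b a = 0 := by
  simpa using h b a _ 0 (cv_sqrt_box R b) (fun x hx μ ν => by simp [ha x hx])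

theorem cst_cv (h : Cst a) (R : ℕ) : Cv R (√(nd a 0)) a := fun x _ μ ν => by
  rw [h]; exact Real.abs_le_sqrt (Li.sq_le_nd a 0 μ ν)

theorem cst_sh (h : Cst a) (y : St) : dd (sh y a) = dd a :=
  funext fun x => by funext μ ν; rw [Li.dd_sh, h, h x]

theorem cb_cst {k : BF} (h : Cb R σ k) (ha : Cst a) : |k a a| ≤ σ * nd a 0 := by
  have := h _ _ _ _ (cst_cv ha R) (cst_cv ha R)
  rwa [mul_assoc, Real.mul_self_sqrt (Li.nd_nonneg _ _)] at this

theorem avB_apply (k : ℕ) (m : BF) (a b : V) :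
    avB k m a b = ((box k).card : ℝ)⁻¹ * ∑ y ∈ box k, m (sh y a) (sh y b) := by
  simp [avB, LinearMap.sum_apply, Li.shL_apply]

theorem card_pos' (k : ℕ) : (0 : ℝ) < (box k).card := by
  rw [card_box]; positivity

theorem avB_cst (hs : ∀ a b, m a b = m b a) (hg : ∀ u b, m (gr u) b = 0) (h : Cst a) (k : ℕ) :
    avB k m a a = m a a := by
  have : ∀ y, m (sh y a) (sh y a) = m a a := fun y => by
    rw [m_closed hg (cst_sh h y), hs, m_closed hg (cst_sh h y)]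
  simp only [avB_apply, this, sum_const, nsmul_eq_mul]
  rw [← mul_assoc, inv_mul_cancel₀ (card_pos' k).ne', one_mul]

theorem mb_apply (l ρ : ℕ) (m : BF) (s : V →ₗ[ℝ] V) (a b : V) :
    mb l ρ m s a b = 2⁻¹ * (mn l m s a b + avB ρ (mn l m s) a b) := rfl

theorem mn_symm (h : Lin l r c τ m s) (a b : V) : mn l m s a b = mn l m s b a :=
  enB_symm h.symm l _ _

theorem mn_gauge (h : Lin l r c τ m s) (u : St → ℝ) (b : V) : mn l m s (gr u) b = 0 :=
  enB_mu_gr h.gauge h.s_gauge l u _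

theorem LL_ge {k : ℕ} (h : k ≤ l) : (k : ℝ) ≤ LL l := by
  exact_mod_cast h.trans (by simp only [LL]; omega)

theorem mu_cst0 (hl : 5000 ≤ l) (hτ : 0 ≤ τ) (hm : Lin l r c τ m s) (hB : Cst B) : ∃ a : V,
    dd a = dd (((LL l : ℝ) ^ 2)⁻¹ • B) ∧ avgA l a = B ∧
      ∀ e, |(mu l s B - a) e| ≤ (LL l : ℝ) ^ (c + 3) * τ * √(nd B 0) := by
  obtain ⟨a, D, h1, h2, rfl, h0, hp, h3, -⟩ := cc_eq hm hB
  refine ⟨a, h2, h1, fun e => ?_⟩
  have h4 := hh_small hm hB h0 hp h3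
  have h5 := hm.coer _ h0
  simp only [hp, sum_const, nsmul_eq_mul, card_box] at h5
  generalize mu l s B - a = D at *
  have hL : (5000 : ℝ) ≤ LL l := LL_ge hl
  have n0 := Li.nd_nonneg B 0
  have h6 : D e ^ 2 ≤ ∑ f ∈ lbox l, D f ^ 2 := by
    have := single_le_sum (f := fun f => D f ^ 2) (fun _ _ => sq_nonneg _)
      (mem_lbox.2 (sub_up_mem l e.1) : (e.1 - up l (yo l e.1), e.2) ∈ lbox l)
    rwa [← hp (yo l e.1), sh_apply, sub_add_cancel, hp] at this
  refine abs_le_of_sq_le_sq (h6.trans (h5.trans ?_)) (by positivity)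
  rw [mul_pow, mul_pow, Real.sq_sqrt n0]
  push_cast
  calc _ ≤ (LL l : ℝ) ^ c * (2401 * (9604 * (LL l : ℝ) ^ (c + 4) * τ ^ 2 * nd B 0)) := by
        gcongr
    _ = 23059204 * (LL l : ℝ) ^ (2 * c + 4) * τ ^ 2 * nd B 0 := by ring
    _ ≤ (LL l : ℝ) ^ 2 * (LL l : ℝ) ^ (2 * c + 4) * τ ^ 2 * nd B 0 := by gcongr; nlinarith
    _ = _ := by ring

end Pool.Agent.Lib.MP_7f377f_mp.RG.La.Q

namespace Pool.Agent.Lib.MP_7f377f_mp.RG.Q4

open Finset La La.Q

theorem mu_cst (c : ℕ) : ∃ c1 : ℕ, ∀ (l r : ℕ) (τ : ℝ) (m : BF) (s : V →ₗ[ℝ] V) (B : V), c1 ≤ l →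
    0 ≤ τ → Lin l r c τ m s → Cst B → ∃ a : V, dd a = dd (((LL l : ℝ) ^ 2)⁻¹ • B) ∧ avgA l a = B ∧
      ∀ e, |(mu l s B - a) e| ≤ (LL l : ℝ) ^ c1 * τ * √(nd B 0) := by
  refine ⟨c + 5000, fun l r τ m s B hl hτ hm hB => ?_⟩
  obtain ⟨a, h1, h2, h3⟩ := mu_cst0 (by omega) hτ hm hB
  have hL : ((1 : ℕ) : ℝ) ≤ LL l := LL_ge (by omega)
  refine ⟨a, h1, h2, fun e => (h3 e).trans ?_⟩
  gcongr
  exacts [by simpa using hL, by omega]

theorem lin_cc (c : ℕ) : ∃ c1 : ℕ, ∀ (l r : ℕ) (τ : ℝ) (m : BF) (s : V →ₗ[ℝ] V), c1 ≤ l →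
    0 ≤ τ → τ ≤ 1 → Lin l r c τ m s → Cd ((LL l : ℝ) ^ c1 * τ) (mn l m s) m ∧
      ∀ ρ, Cd ((LL l : ℝ) ^ c1 * τ) (mb l ρ m s) m := by
  refine ⟨c + 10000, fun l r τ m s hl t0 t1 hm => ?_⟩
  have key : Cd ((LL l : ℝ) ^ (c + 10000) * τ) (mn l m s) m := fun B hB => by
    obtain ⟨a, D, -, -, -, h0, hp, h1, h2⟩ := cc_eq hm hB
    have h3 := hh_small hm hB h0 hp h1
    have h4 : 0 ≤ hh l m D D := enB_psd hm.psd _ _
    have hL : ((9604 : ℕ) : ℝ) ≤ LL l := LL_ge (by omega)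
    push_cast at hL
    have n0 := Li.nd_nonneg B 0
    rw [h2, add_sub_cancel_left, abs_of_nonneg h4]
    refine h3.trans ?_
    calc _ ≤ LL l * (LL l : ℝ) ^ (c + 4) * (τ * 1) * nd B 0 := by rw [sq]; gcongr
      _ = (LL l : ℝ) ^ (c + 5) * τ * nd B 0 := by ring
      _ ≤ _ := by
          gcongr
          exacts [by linarith, by omega]
  refine ⟨key, fun ρ B hB => ?_⟩
  rw [mb_apply, avB_cst (mn_symm hm) (mn_gauge hm) hB]
  exact (congrArg _ (by ring)).trans_le (key B hB)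

end Pool.Agent.Lib.MP_7f377f_mp.RG.Q4
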