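import Pool.Agent.Lib.MP_7f377f_mp.G.Q4LocB
import Pool.Agent.Lib.MP_7f377f_mp.G.Q4Tau

/-! Closed walk expansion of the determinant: the identity and the sums on the torus. -/

noncomputable section

set_option linter.unusedSectionVars false
variable [Pool.Agent.Lib.MP_7f377f_mp.GD]

namespace Pool.Agent.Lib.MP_7f377f_mp.RG.Q4.Loc

open Finset Polynomial Matrix
open scoped Matrix.Norms.L2Operator

variable {I σ : Type} [Fintype I] [DecidableEq I] [DecidableEq σ]
  {π : I → σ} {B : σ → Finset σ} {M : Matrix I I ℂ} {Λ : Finset σ}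
  {η : Fin 3 → ℝ} {η0 q ε : ℝ} {β d N K : ℕ}

/-! ### Finite range -/

/-- the powers up to `K` do not leave the balls -/
def Rg (π : I → σ) (B : σ → Finset σ) (K : ℕ) (M : Matrix I I ℂ) : Prop :=
  ∀ k ≤ K, ∀ y, prj π y * cpr π (B y) M ^ k = prj π y * M ^ k

theorem rg_of_nb (nb : ℕ → σ → σ → Prop) (h0 : ∀ i, nb 0 (π i) (π i))
    (h1 : ∀ k y i j, nb k y (π i) → M i j ≠ 0 → nb (k + 1) y (π j))
    (h2 : ∀ k ≤ K, ∀ y j, nb k y (π j) → π j ∈ B y) : Rg π B K M := by
  have key : ∀ i, ∀ k ≤ K, ∀ j, (cpr π (B (π i)) M ^ k) i j = (M ^ k) i j ∧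
      ((M ^ k) i j ≠ 0 → nb k (π i) (π j)) := fun i k => by
    induction k with
    | zero =>
      refine fun _ j => ⟨by simp, fun h => ?_⟩
      obtain rfl : i = j := by_contra fun h1 => h (by simp [one_apply_ne h1])
      exact h0 i
    | succ k ih =>
      intro hk j
      have ih := ih (by omega)
      simp only [pow_succ, mul_apply]
      refine ⟨sum_congr rfl fun l _ => ?_, fun h => ?_⟩
      · rw [(ih l).1, cpr_apply]
        split_ifs with h
        · rfl
        · by_contra h3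
          have h4 := mul_ne_zero_iff.1 fun h4 : (M ^ k) i l * M l j = 0 => h3 (by rw [h4, mul_zero])
          exact h ⟨h2 k (by omega) _ _ ((ih l).2 h4.1), h2 _ hk _ _ (h1 _ _ _ _ ((ih l).2 h4.1) h4.2)⟩
      · obtain ⟨l, -, h3⟩ := exists_ne_zero_of_sum_ne_zero h
        exact h1 _ _ _ _ ((ih l).2 (left_ne_zero_of_mul h3)) (right_ne_zero_of_mul h3)
  intro k hk y
  ext i j
  rw [prj_mul, prj_mul]
  split_ifs with h
  · exact h ▸ (key i k hk j).1
  · rfl

theorem Rg.lp (h : Rg π B K M) {p : ℂ[X]} (hp : p.natDegree ≤ K) (y : σ) :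
    lp π B p M y = prj π y * aeval M p := by
  rw [Loc.lp, aeval_eq_sum_range, aeval_eq_sum_range, mul_sum, mul_sum]
  refine sum_congr rfl fun k hk => ?_
  rw [mul_smul_comm, mul_smul_comm, h k ((Nat.lt_succ_iff.1 (mem_range.1 hk)).trans hp)]

theorem sum_Qm (h : Rg π B K M) (hΛ : ∀ i, π i ∈ Λ) {p s : ℂ[X]} (hp : p.natDegree ≤ K)
    (hs : s.natDegree ≤ K) (m : ℕ) :
    ∑ S ∈ Λ.powerset, Qm π B p s M m S = trace (aeval M (s * p ^ m)) := by
  simp only [Qm, ← trace_sum, sum_Wm, h.lp hp, h.lp hs, ← sum_mul, sum_prj hΛ, one_mul, map_mul,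
    map_pow]

theorem deg_sP (N m : ℕ) : (sP N m).natDegree ≤ N :=
  natDegree_sum_le_of_forall_le _ _ fun _ hi => (natDegree_monomial_le _).trans (mem_range.1 hi)

theorem deg_uP (N : ℕ) : (uP N).natDegree ≤ 2 * N + 1 := by
  rw [uP_eq]
  exact natDegree_sum_le_of_forall_le _ _ fun _ hi => (natDegree_monomial_le _).trans
    (by have := mem_range.1 hi; omega)

/-! ### Polynomials in a matrix -/

theorem cpr_unit (M : Matrix I I ℂ) : cpr (fun _ => ()) univ M = M := by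
  ext i j
  simp [cpr_apply]

theorem lp_unit (p : ℂ[X]) (M : Matrix I I ℂ) :
    lp (fun _ => ()) (fun _ => univ) p M () = aeval M p := by
  rw [lp, cpr_unit]
  simp [prj]

theorem cN_uP (h : Eta η0 η) {F : Vx → Matrix I I ℂ} (q1 : q ≤ 1) (hF : cN η F ≤ q) (N : ℕ) :
    cN η (fun T => aeval (F T) (uP N)) ≤ (2 * N + 1) * q ^ N := by
  simpa only [lp_unit] using (cN_four (π := fun _ => ()) (B := fun _ => univ) (y := ()) h q1
    (by simpa only [cpr_unit] using hF) N le_rfl).2.1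

theorem norm_uP (q1 : q ≤ 1) (hM : ‖M‖ ≤ q) (N : ℕ) :
    ‖aeval M (uP N)‖ ≤ (2 * N + 1) * q ^ N := by
  simpa only [cN_const] using cN_uP eta_one (F := fun _ => M) q1 (by simpa only [cN_const]) N

theorem aeval_diagonal (v : I → ℂ) (p : ℂ[X]) :
    aeval (diagonal v) p = diagonal fun i => p.eval (v i) := by
  have := aeval_algHom_apply (diagonalAlgHom (n := I) (α := ℂ) ℂ) v p
  simp only [diagonalAlgHom_apply] at this
  rw [this]
  congr 1
  funext i
  exact (aeval_algHom_apply (Pi.evalAlgHom ℂ (fun _ => ℂ) i) v p).symm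

theorem spectral (hM : M.IsHermitian) : ∃ μ : I → ℝ, (∀ i, |μ i| ≤ ‖M‖) ∧
    (∀ p : ℂ[X], trace (aeval M p) = ∑ i, p.eval (μ i : ℂ)) ∧
    (∀ p : ℂ[X], det (aeval M p) = ∏ i, p.eval (μ i : ℂ)) ∧
    ∀ p : ℂ[X], ∀ i, ‖p.eval (μ i : ℂ)‖ ≤ ‖aeval M p‖ := by
  set U := hM.eigenvectorUnitary
  have h1 : star (U : Matrix I I ℂ) * U = 1 := Unitary.coe_star_mul_self U
  have h2 : cj _ _ h1 M = diagonal fun i => (hM.eigenvalues i : ℂ) := by
    have := hM.conjStarAlgAut_star_eigenvectorUnitary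
    rw [Unitary.conjStarAlgAut_star_apply] at this
    exact this
  have h3 : ∀ p : ℂ[X], star (U : Matrix I I ℂ) * aeval M p * U =
      diagonal fun i => p.eval (hM.eigenvalues i : ℂ) := fun p => by
    rw [← aeval_diagonal, ← h2, aeval_algHom_apply]
    rfl
  have h4 : ∀ p : ℂ[X], ∀ i, ‖p.eval (hM.eigenvalues i : ℂ)‖ ≤ ‖aeval M p‖ := fun p i => by
    have := entry_le (star (U : Matrix I I ℂ) * aeval M p * (U : Matrix I I ℂ)) i i
    rwa [CStarRing.norm_mul_coe_unitary, ← Unitary.coe_star, CStarRing.norm_coe_unitary_mul,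
      Unitary.coe_star, h3, diagonal_apply_eq] at this
  refine ⟨hM.eigenvalues, fun i => by simpa using h4 X i, fun p => ?_, fun p => ?_, h4⟩
  · rw [← trace_diagonal, ← h3, trace_mul_comm, ← mul_assoc, mul_eq_one_comm.1 h1, one_mul]
  · rw [← det_diagonal, ← h3, det_mul, det_mul, mul_right_comm, ← det_mul, h1, det_one, one_mul]

/-! ### The identity -/

theorem scalar (N1 : 1 ≤ N) {t : ℝ} (ht : |t| < 1) (hu : ‖(uP N).eval (t : ℂ)‖ < 1) :
    ∃ a b : ℂ, HasSum (fun m => (sP N m * (X ^ N) ^ (m + 1)).eval (t : ℂ)) a ∧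
      HasSum (fun m : ℕ => (C (1 / (2 * ((m : ℂ) + 1))) * uP N ^ (m + 1)).eval (t : ℂ)) b ∧
      (‖(pP N).eval (t : ℂ)‖ : ℂ) = Complex.exp ((pQ N).eval (t : ℂ) + (a - b)) := by
  have : NeZero N := ⟨by omega⟩
  set P : ℝ := ∑ k ∈ range (N + 1), bin k * t ^ k with hP
  have e1 : (pP N).eval (t : ℂ) = P := by simp [pP, hP, eval_finset_sum]
  have e2 : (uP N).eval (t : ℂ) = (1 - P ^ 2 * (1 - t) : ℝ) := by simp [uP, e1]
  rw [e2, Complex.norm_real, Real.norm_eq_abs] at hu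
  set u := 1 - P ^ 2 * (1 - t) with hu'
  have h1 := Real.hasSum_pow_div_log_of_abs_lt_one ht
  have h2 := (hasSum_nat_add_iff' N).2 h1
  have h3 := ((Nat.divModEquiv N).symm.hasSum_iff.2 h2).prod_fiberwise fun m => hasSum_fintype _
  have h4 := Real.hasSum_pow_div_log_of_abs_lt_one hu
  refine ⟨_, _, (Complex.hasSum_ofReal.2 (h3.div_const 2)).congr_fun fun m => ?_,
    (Complex.hasSum_ofReal.2 (h4.div_const 2)).congr_fun fun m => ?_, ?_⟩
  · simp only [sP, eval_mul, eval_finset_sum, eval_monomial, eval_pow, eval_X, sum_mul,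
      Function.comp, Nat.divModEquiv_symm_apply]
    rw [sum_range, sum_div, Complex.ofReal_sum]
    refine sum_congr rfl fun j _ => ?_
    rw [show m * N + j + N + 1 = j + 1 + N * (m + 1) by ring, pow_add t, pow_mul]
    push_cast
    rw [div_div, mul_comm _ (2 : ℂ), show (m * N + j + N + 1 : ℂ) = (m + 1) * N + j + 1 by ring]
    ring
  · rw [eval_mul, eval_C, eval_pow, e2]
    push_cast
    rw [div_div, mul_comm _ (2 : ℂ)]
    ring
  · have e3 : (pQ N).eval (t : ℂ) = ((∑ i ∈ range N, t ^ (i + 1) / (i + 1)) / 2 : ℝ) := by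
      simp only [pQ, eval_finset_sum, eval_monomial]
      rw [sum_div, Complex.ofReal_sum]
      refine sum_congr rfl fun j _ => ?_
      push_cast
      rw [div_div, mul_comm _ (2 : ℂ)]
      ring
    have t1 : 0 < 1 - t := by linarith [(abs_lt.1 ht).2]
    have u1 : 1 - u = P ^ 2 * (1 - t) := by rw [hu']; ring
    have P0 : P ≠ 0 := fun h => by
      have := (abs_lt.1 hu).2
      rw [hu', h] at this
      norm_num at this
    rw [e1, e3, ← Complex.ofReal_sub, ← Complex.ofReal_add, ← Complex.ofReal_exp,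
      Complex.norm_real, u1, Real.log_mul (pow_ne_zero 2 P0) t1.ne', Real.log_pow,
      Real.norm_eq_abs, ← Real.exp_log (abs_pos.2 P0), Real.log_abs]
    congr 2
    push_cast
    ring

/-- the logarithm of the determinant as a sum of local terms -/
theorem det_exp (hM : M.IsHermitian) (hq : ‖M‖ ≤ q) (q1 : q < 1) (hΛ : ∀ i, π i ∈ Λ)
    (hB : Nb B Λ d) (hβ : ∀ y, (univ.filter fun i => π i = y).card ≤ β) (N1 : 1 ≤ N)
    (hε : (2 * N + 1) * q ^ N ≤ ε) (hd : d * ε ≤ 1 / 2) (hr : Rg π B (2 * N + 1) M) :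
    (‖det (aeval M (pP N))‖ : ℂ) =
      Complex.exp (trace (aeval M (pQ N)) + ∑ S ∈ Λ.powerset, Qd π B N M S) := by
  have q0 := (norm_nonneg _).trans hq
  have ε0 : 0 ≤ ε := le_trans (by positivity) hε
  obtain ⟨μ, m1, m2, m3, m4⟩ := spectral hM
  have h1 : ∀ i, ‖(uP N).eval (μ i : ℂ)‖ < 1 := fun i => by
    have d1 : (1 : ℝ) ≤ d := by
      exact_mod_cast (card_pos.2 ⟨_, hB.self _ (hΛ i)⟩).trans_le (hB.card _ (hΛ i))
    have := (m4 _ i).trans ((norm_uP q1.le hq N).trans hε)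
    nlinarith
  choose a b ha hb hab using fun i => scalar N1 (((m1 i).trans hq).trans_lt q1) (h1 i)
  have h2 := fun S (hS : S ∈ Λ.powerset) m => norm_terms hβ (hB.mono (mem_powerset.1 hS)).self
    q0 q1.le hε (fun y _ => (norm_cpr (B y) M).trans hq) m
  have h3 := fun S (hS : S ∈ Λ.powerset) =>
    (summable_kq0 (hB.mono (mem_powerset.1 hS)) ε0 hd).mul_left (β * (1 / 2) : ℝ)
  have h4 : ∑ S ∈ Λ.powerset, QS π B (X ^ N) (sP N) M S = ∑ i, a i := by
    simp only [QS]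
    rw [← Summable.tsum_finsetSum fun S hS => (h3 S hS).of_norm_bounded fun m => (h2 S hS m).1,
      ← (hasSum_sum fun i _ => ha i).tsum_eq]
    exact tsum_congr fun m => by
      rw [sum_Qm hr hΛ (by rw [natDegree_X_pow]; omega) ((deg_sP N m).trans (by omega)), m2]
  have h5 : ∑ S ∈ Λ.powerset, QS π B (uP N) (fun m => C (1 / (2 * ((m : ℂ) + 1)))) M S =
      ∑ i, b i := by
    simp only [QS]
    rw [← Summable.tsum_finsetSum fun S hS => (h3 S hS).of_norm_bounded fun m => (h2 S hS m).2,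
      ← (hasSum_sum fun i _ => hb i).tsum_eq]
    exact tsum_congr fun m => by
      rw [sum_Qm hr hΛ (deg_uP N) (by rw [natDegree_C]; omega), m2]
  simp only [Qd, sum_sub_distrib, h4, h5]
  rw [m2, m3, norm_prod, Complex.ofReal_prod, ← sum_sub_distrib, ← sum_add_distrib,
    Complex.exp_sum]
  exact prod_congr rfl fun i _ => hab i

/-! ### Real matrices and bounds for the Euclidean operator norm -/

theorem det_ofReal (A : Matrix I I ℝ) : det (A.map Complex.ofReal) = (det A : ℝ) :=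
  (Complex.ofRealHom.map_det A).symm

/-- the Euclidean operator norm from a bound on vectors -/
theorem l2_le (q0 : 0 ≤ q)
    (h : ∀ v : I → ℂ, ∑ i, ‖(M *ᵥ v) i‖ ^ 2 ≤ q ^ 2 * ∑ i, ‖v i‖ ^ 2) : ‖M‖ ≤ q := by
  rw [cstar_norm_def]
  refine ContinuousLinearMap.opNorm_le_bound _ q0 fun v => ?_
  refine (sq_le_sq₀ (by positivity) (by positivity)).1 ?_
  rw [mul_pow, EuclideanSpace.norm_sq_eq, EuclideanSpace.norm_sq_eq]
  exact h v

theorem mulVec_le (M : Matrix I I ℂ) (v : I → ℂ) :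
    ∑ i, ‖(M *ᵥ v) i‖ ^ 2 ≤ ‖M‖ ^ 2 * ∑ i, ‖v i‖ ^ 2 := by
  have := pow_le_pow_left₀ (norm_nonneg _) (l2_opNorm_mulVec M (WithLp.toLp 2 v)) 2
  rwa [mul_pow, EuclideanSpace.norm_sq_eq, EuclideanSpace.norm_sq_eq] at this

/-! ### The torus -/

section torus

variable {n D D' R ρ : ℕ} {Λ S : Finset St} {π : I → St}

/-- balls of the torus -/
abbrev bl (n D : ℕ) : St → Finset St := fun y => tb n D {y}

theorem nb_bl (h : ∀ y ∈ Λ, rc n y = y) (D : ℕ) : Nb (bl n D) Λ ((2 * D + 1) ^ 4) :=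
  ⟨fun y hy => mem_tb_single.2 ⟨h y hy, nearT.refl _ _ _⟩,
    fun y _ => by simpa using card_tb_le n D {y},
    fun y hy _ _ h1 => mem_tb_single.2 ⟨h y hy, (mem_tb_single.1 h1).2.symm⟩⟩

theorem tau_cw (hD : D ≤ D') (hR : R ≤ D') {m : ℕ} (h : cw (bl n D) m S ≠ 0) :
    tau n D' (tb n R S) ≤ m + 1 := by
  obtain ⟨y, w, h1, rfl, h2⟩ := exists_of_cw h
  have hl : (y :: w ++ [y]).length = m + 2 := by simp [h1]
  refine tau_le ⟨m.succ_pos, fun i => (y :: w ++ [y]).getD i y, ?_, fun i hi => ?_, fun x hx => ?_⟩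
  · simp [← h1]
  · beta_reduce
    rw [List.getD_eq_getElem _ _ (by omega), List.getD_eq_getElem _ _ (by omega)]
    exact (mem_tb_single.1 (List.isChain_iff_getElem.1 h2 i (by omega))).2.mono hD
  · obtain ⟨-, z, hz, h3⟩ := mem_tb.1 hx
    obtain ⟨i, hi, rfl⟩ := List.getElem_of_mem (List.mem_toFinset.1 hz)
    refine ⟨i, by simpa [h1] using hi, ?_⟩
    beta_reduce
    rw [List.getD_append _ _ _ _ hi, List.getD_eq_getElem _ _ hi]
    exact h3.mono hR

/-- the weighted sum of the majorants over the ranges which contain a point -/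
theorem sum_kw (hΛ : ∀ y ∈ Λ, rc n y = y) (hD : D ≤ D') (hR : R ≤ D') {a e : ℝ} (a0 : 0 ≤ a)
    (e0 : 0 ≤ e) (ε0 : 0 ≤ ε)
    (hε : (2 * D + 1) ^ 4 * ε * Real.exp (a + e * (2 * R + 1) ^ 4) ≤ 1 / 2) (β : ℕ) (x : St) :
    ∑ S ∈ Λ.powerset.filter (fun S => x ∈ S), kw (bl n D) β ε S *
      Real.exp (a * tau n D' (tb n R S) + e * (tb n R S).card) ≤
      18 * β * (2 * D + 1) ^ 4 * ε * Real.exp (2 * (a + e * (2 * R + 1) ^ 4)) := by
  have := sum_kq0 (nb_bl hΛ D) ε0 (A := a + e * (2 * R + 1) ^ 4) (by positivity)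
    (by exact_mod_cast hε) (fun S => a * tau n D' (tb n R S) + e * (tb n R S).card)
    (fun S _ m hm => by
      have h1 : (tau n D' (tb n R S) : ℝ) ≤ m + 1 := by exact_mod_cast tau_cw hD hR hm
      have h2 : ((tb n R S).card : ℝ) ≤ (m + 1) * (2 * R + 1) ^ 4 := by
        exact_mod_cast (card_tb_le n R S).trans (Nat.mul_le_mul_right _ (card_le_of_cw hm))
      calc _ ≤ a * (m + 1) + e * ((m + 1) * (2 * R + 1) ^ 4) := by gcongr
        _ = _ := by ring) x
  simp only [kw, mul_assoc (3 * β : ℝ), ← mul_sum]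
  refine (mul_le_mul_of_nonneg_left this (by positivity)).trans_eq ?_
  push_cast
  ring

/-- the weighted sum of the majorants over the supports which contain a point -/
theorem sum_kw' (hΛ : ∀ y ∈ Λ, rc n y = y) (hD : D ≤ D') (hR : R ≤ D') {a e : ℝ} (a0 : 0 ≤ a)
    (e0 : 0 ≤ e) (ε0 : 0 ≤ ε)
    (hε : (2 * D + 1) ^ 4 * ε * Real.exp (a + e * (2 * R + 1) ^ 4) ≤ 1 / 2) (β : ℕ) (x : St) :
    ∑ S ∈ Λ.powerset.filter (fun S => x ∈ tb n R S), kw (bl n D) β ε S *
      Real.exp (a * tau n D' (tb n R S) + e * (tb n R S).card) ≤ (2 * R + 1) ^ 4 *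
      (18 * β * (2 * D + 1) ^ 4 * ε * Real.exp (2 * (a + e * (2 * R + 1) ^ 4))) := by
  set f : Finset St → ℝ := fun S => kw (bl n D) β ε S *
    Real.exp (a * tau n D' (tb n R S) + e * (tb n R S).card)
  have f0 : ∀ S, 0 ≤ f S := fun S => mul_nonneg (kw_nonneg ε0 S) (by positivity)
  calc _ ≤ ∑ S ∈ Λ.powerset, ∑ y ∈ tb n R {x}, if y ∈ S then f S else 0 := by
        rw [sum_filter]
        refine sum_le_sum fun S hS => ?_
        have h0 : ∀ y ∈ tb n R {x}, 0 ≤ if y ∈ S then f S else 0 := fun y _ => by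
          split_ifs
          exacts [f0 S, le_rfl]
        split_ifs with h
        · obtain ⟨-, y, hy, h1⟩ := mem_tb.1 h
          simpa [hy] using single_le_sum h0
            (mem_tb_single.2 ⟨hΛ y (mem_powerset.1 hS hy), h1.symm⟩)
        · exact sum_nonneg h0
    _ ≤ _ := by
        rw [sum_comm]
        refine (sum_le_card_nsmul _ _ _ fun y _ => by
          rw [← sum_filter]
          exact sum_kw hΛ hD hR a0 e0 ε0 hε β y).trans ?_
        rw [nsmul_eq_mul]
        refine mul_le_mul_of_nonneg_right ?_ (by positivity)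
        exact_mod_cast (card_tb_le n R {x}).trans_eq (by simp)

end torus

end Pool.Agent.Lib.MP_7f377f_mp.RG.Q4.Loc
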