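import Pool.Agent.Lib.MP_7f377f_mp.G.Q4Op3

/-! Local bounds for polynomials in the fluctuation operator. -/

noncomputable section

set_option linter.unusedSectionVars false
variable [Pool.Agent.Lib.MP_7f377f_mp.GD]

namespace Pool.Agent.Lib.MP_7f377f_mp.RG.Q4

open Finset Polynomial

attribute [local irreducible] lbox cube

variable {O O' : Od} {c l R : ℕ} {H : Set St} {W W' : Cf} {W0 W0' : Conf} {A A' : Fld} {p q : ℂ[X]}
  {δ : ℝ} {f : Lk} {n : Fin 4 → ℕ}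

/-- a torus which contains the box of radius `R` -/
def tn (R : ℕ) : Fin 4 → ℕ := cu (2 * (R + 6) + 1)

/-- the holes in the box, and its complement -/
def tH (R : ℕ) (H : Set St) : Set St := {x | rcv (tn R) x ∈ H ∨ rcv (tn R) x ∉ box (R + 3)}

theorem tn_odd (R : ℕ) (i : Fin 4) : Odd (tn R i) := ⟨R + 6, rfl⟩

theorem dom_tn (R : ℕ) : domv (tn R) = box (R + 6) := by
  rw [domv, box]
  simp only [tn, show (2 * (R + 6) + 1) / 2 = R + 6 by omega]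

attribute [local irreducible] box

theorem Gp.congr (h : Gp δ W W0) (h1 : Agr 5 W W') (h2 : Agr 6 W0 W0') : Gp δ W' W0' := by
  refine ⟨fun x hx μ ν => ?_, fun e he => ?_⟩
  · have b1 := fun μ => h2 (x, μ) (mem_lbox.2 (box_mono (by norm_num) hx))
    have b2 := fun μ ν => h2 (x + un μ, ν) (mem_lbox.2 (add_un_mem_box hx μ))
    rw [fq, hol, ← b1, ← b1, ← b2, ← b2]
    exact h.1 x hx μ ν
  · rw [← h1 e he, ← h2 e (lbox_mono (by norm_num) he)]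
    exact h.2 e he

theorem tH_per : PerS (tn R) (tH R H) := fun v => by
  ext x
  simp only [shS, tH, Set.mem_ofPred_eq, rcv_add]

theorem rcv_tn {x : St} (hx : x ∈ box (R + 6)) : rcv (tn R) x = x :=
  rcv_eq (tn_odd R) (dom_tn R ▸ hx)

theorem tH_ag : AgS (R + 3) H (tH R H) := fun x hx => by
  simp only [tH, Set.mem_ofPred_eq, rcv_tn (R := R) (box_mono (by omega) hx), hx, not_true, or_false]

theorem pcv_agr {α : Type} (U : Lk → α) : Agr (R + 6) U (pcv (tn R) U) := fun e he => by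
  rw [pcv, rcv_tn (mem_lbox.1 he)]

theorem pcv_agr' {α : Type} (U : Lk → α) : Agr (fb l (R + 6)) U (pcv (fi l (tn R)) U) :=
  fun e he => by
    rw [pcv, rcv_eq (odd_fi (tn_odd R) l)
      ((mem_fine (tn_odd R)).2 (dom_tn R ▸ Op.mem_fb.1 (mem_lbox.1 he)))]

theorem tH_gp (hg : ∀ y ∈ box R, Fr H y → Gp δ (sh y W) (sh y W0)) (y : St) (hy : Fr (tH R H) y) :
    Gp δ (sh y (pcv (tn R) W)) (sh y (pcv (tn R) W0)) := by
  obtain ⟨v, hv⟩ := rcv_spec (tn R) y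
  rw [hv, tH_per.fr] at hy
  rw [hv, ← sh_sh, ← sh_sh, pcv_per _ v, pcv_per _ v]
  have h0 := dom_tn R ▸ rcv_mem (tn_odd R) y
  generalize rcv (tn R) y = x at hy h0
  have h1 : x ∈ box (R + 3) := by
    have := hy 0 (zero_mem_box 3)
    rw [add_zero, tH, Set.mem_ofPred_eq, rcv_tn h0, not_or, not_not] at this
    exact this.2
  have h2 : ∀ v ∈ box 3, x + v ∉ H ∧ x + v ∈ box (R + 3) := fun v hv => by
    have := hy v hv
    rwa [tH, Set.mem_ofPred_eq, rcv_tn (R := R) (add_mem_box h1 hv :), not_or, not_not] at this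
  have h3 : x ∈ box R := mem_box.2 fun i => by
    have a := mem_box.1 (h2 (fun _ => 3) (mem_box.2 fun _ => by norm_num)).2 i
    have b := mem_box.1 (h2 (fun _ => -3) (mem_box.2 fun _ => by norm_num)).2 i
    simp only [Pi.add_apply] at a b
    omega
  exact (hg x h3 fun v hv => (h2 v hv).1).congr (((pcv_agr (R := R) W).mono (by omega)).sh h3)
    (((pcv_agr (R := R) W0).mono (by omega)).sh h3)

theorem sum_tn {M : Type} [AddCommMonoid M] {g : Lk → M} (S : Finset Lk)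
    (hS : S ⊆ lbox (fb l (R + 6))) (hg : ∀ e ∉ S, g e = 0) :
    ∑ y ∈ domv (tn R), ∑ t ∈ lbox l, pcv (fi l (tn R)) g (t.1 + up l y, t.2) = ∑ e ∈ S, g e := by
  rw [dom_tn, ← Op.sum_fb, ← sum_congr rfl (pcv_agr' g), sum_subset hS fun e _ he => hg e he]

theorem nrm2_cut : nrm2 (tn R) l (pcv (fi l (tn R)) (cut (fb l R) A)) ^ 2 =
    ∑ e ∈ lbox (fb l R), ∑ k, ‖A e k‖ ^ 2 := by
  rw [nrm2_sq]
  refine (sum_tn (g := fun e => ∑ k, ‖cut (fb l R) A e k‖ ^ 2) (lbox (fb l R))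
    (fun _ => lbox_mono (Op.fb_mono _ (by omega))) fun e he => ?_).trans
    (sum_congr rfl fun e he => by rw [cut_of_mem _ he])
  simp [cut_of_not_mem _ he]

theorem le_nrm2 {y : St} (hy : y ∈ domv n) :
    ∑ t ∈ lbox l, ∑ k, ‖A (t.1 + up l y, t.2) k‖ ^ 2 ≤ nrm2 n l A ^ 2 := by
  rw [nrm2_sq]
  exact single_le_sum (f := fun y => ∑ t ∈ lbox l, ∑ k, ‖A (t.1 + up l y, t.2) k‖ ^ 2)
    (fun _ _ => by positivity) hy

theorem sm_of_sq {a γ : ℝ} (γ0 : 0 ≤ γ) (hA : Sm (fb l R) a A)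
    (h : ∑ f ∈ lbox l, ∑ k, ‖A' f k‖ ^ 2 ≤ γ ^ 2 * ∑ e ∈ lbox (fb l R), ∑ k, ‖A e k‖ ^ 2) :
    Sm l (γ * (4 * (2 * R + 1) ^ 2 * (LL l : ℝ) ^ 2 * a)) A' := fun f hf => by
  have a0 := hA.nonneg
  refine (abs_le_of_sq_le_sq' ((norm_sq_le _).trans ((single_le_sum
    (f := fun f => ∑ k, ‖A' f k‖ ^ 2) (fun _ _ => by positivity) hf).trans (h.trans ?_)))
    (by positivity)).2
  rw [mul_pow]
  refine mul_le_mul_of_nonneg_left ((sum_le_card_nsmul _ _ _ fun e he => (sq_C3 _).ge.trans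
    (pow_le_pow_left₀ (norm_nonneg _) (hA e he) 2)).trans ?_) (sq_nonneg _)
  rw [card_lbox, show 2 * fb l R + 1 = (2 * R + 1) * LL l by unfold fb LL; ring, nsmul_eq_mul]
  push_cast
  nlinarith [sq_nonneg ((2 * R + 1) ^ 2 * (LL l : ℝ) ^ 2 * a)]

theorem sm_of_all {a : ℝ} (h : ∀ e, ‖A e‖ ≤ a) (R : ℕ) (y : St) : Sm R a (sh y A) := fun _ _ => h _

namespace Od

theorem pol_tn (h : O.Ok c) {d a : ℕ} (hp : p.natDegree ≤ d) (hR : a + 3 * d ≤ R)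
    (hA : Agr (fb O.l (a + 3 * d)) A A') : Agr (fb O.l a) (O.pol p H W A)
      (O.pol p (tH R H) (pcv (tn R) W) (pcv (fi O.l (tn R)) A')) :=
  pol_agr h hp (tH_ag.mono (by omega)) ((pcv_agr W).mono (by omega))
    (hA.trans ((pcv_agr' A').mono (Op.fb_mono _ (by omega))))

theorem loc_of {G : Fld → Fld} {B : Fld} {γ : ℝ}
    (h1 : Agr (fb l 0) B (G (pcv (fi l (tn R)) (cut (fb l R) A))))
    (h2 : ∀ A, PerV (fi l (tn R)) A → nrm2 (tn R) l (G A) ≤ γ * nrm2 (tn R) l A) :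
    ∑ f ∈ lbox l, ∑ k, ‖B f k‖ ^ 2 ≤ γ ^ 2 * ∑ e ∈ lbox (fb l R), ∑ k, ‖A e k‖ ^ 2 := by
  rw [← nrm2_cut, ← mul_pow]
  refine le_trans (le_of_eq ?_) ((le_nrm2 (dom_tn R ▸ zero_mem_box _)).trans
    (pow_le_pow_left₀ nrm2_nonneg (h2 _ (pcv_per _)) 2))
  refine sum_congr rfl fun t ht => ?_
  rw [h1 t (by simpa [fb] using ht), Op.up_zero, add_zero]

theorem pol_loc (h : O.Ok c) (hδ : (LL O.l : ℝ) ^ (2 * c + 10) * δ ≤ 1) {d : ℕ}
    (hp : p.natDegree ≤ d) (hg : ∀ y ∈ box (3 * d), Fr H y → Gp δ (sh y W) (sh y W0)) :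
    ∑ f ∈ lbox O.l, ∑ k, ‖O.pol p H W A f k‖ ^ 2 ≤
      wn (O.θ c) p ^ 2 * ∑ e ∈ lbox (fb O.l (3 * d)), ∑ k, ‖A e k‖ ^ 2 :=
  loc_of (pol_tn h hp (by omega) (by rw [zero_add]; exact (agr_cut _ _).symm)) fun _ =>
      pol_l2 h hδ (tn_odd _) tH_per (pcv_per _) (pcv_per _) (tH_gp hg)

theorem pol_sup (h : O.Ok c) (hδ : (LL O.l : ℝ) ^ (2 * c + 10) * δ ≤ 1) {d : ℕ} {a : ℝ}
    (hp : p.natDegree ≤ d) (hg : ∀ y ∈ box (3 * d), Fr H y → Gp δ (sh y W) (sh y W0))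
    (hA : Sm (fb O.l (3 * d)) a A) :
    Sm O.l (wn (O.θ c) p * (4 * (6 * d + 1) ^ 2 * (LL O.l : ℝ) ^ 2 * a)) (O.pol p H W A) :=
  (sm_of_sq (wn_nonneg (θ_mem h).1) hA (pol_loc h hδ hp hg)).mono le_rfl
    (le_of_eq (by push_cast; ring))

/-- the bound at an arbitrary link -/
theorem pol_at (h : O.Ok c) (hδ : (LL O.l : ℝ) ^ (2 * c + 10) * δ ≤ 1) {d : ℕ} {a : ℝ}
    (hp : p.natDegree ≤ d) (f : Lk) (hg : ∀ y ∈ box (3 * d), Fr H (y + yo O.l f.1) →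
      Gp δ (sh (y + yo O.l f.1) W) (sh (y + yo O.l f.1) W0))
    (hA : Sm (fb O.l (3 * d)) a (sh (up O.l (yo O.l f.1)) A)) :
    ‖O.pol p H W A f‖ ≤ wn (O.θ c) p * (4 * (6 * d + 1) ^ 2 * (LL O.l : ℝ) ^ 2 * a) := by
  have := pol_sup h hδ hp (H := shS (yo O.l f.1) H) (W := sh (yo O.l f.1) W)
    (W0 := sh (yo O.l f.1) W0) (fun y hy hf => by
      rw [sh_sh, sh_sh]; exact hg y hy (fr_shS.1 hf)) hA (f.1 - up O.l (yo O.l f.1), f.2)
    (mem_lbox.2 (sub_up_yo_mem _ _))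
  rwa [pol_sh, sh, sub_add_cancel] at this

theorem Ok.deg_le (h : O.Ok c) : (4 : ℝ) * (6 * (2 * O.N + 1 : ℕ) + 1) ^ 2 * (LL O.l : ℝ) ^ 2 ≤
    (LL O.l : ℝ) ^ (4 * c + 11) := by
  have hL := h.LL_ge
  have hN := h.N_cast
  have N1 : (7 : ℝ) ≤ O.N := hN ▸ le_trans (by linarith) (le_self_pow₀ (by linarith) (by omega))
  refine le_trans ?_ (h.pow_le (C := 676) (by norm_num) (i := 4 * c + 10) (by omega))
  calc _ ≤ 4 * (13 * O.N : ℝ) ^ 2 * (LL O.l : ℝ) ^ 2 := by gcongr; push_cast; linarith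
    _ = _ := by rw [hN]; ring

theorem Ok.exp_le (h : O.Ok c) : Real.exp (-(O.l : ℝ) ^ 2) ≤ 1 / 2 := by
  have : (1 : ℝ) ≤ O.l := by exact_mod_cast le_trans (by omega) h.big
  have h2 := Real.add_one_le_exp ((O.l : ℝ) ^ 2)
  rw [Real.exp_neg, ← one_div]
  exact one_div_le_one_div_of_le two_pos (by nlinarith)

theorem Ok.N_le (h : O.Ok c) : 4 * ((O.N : ℝ) + 1) ≤ (LL O.l : ℝ) ^ (2 * c + 5) := by
  have N1 : (1 : ℝ) ≤ O.N := h.N_cast ▸ one_le_pow₀ (by linarith [h.LL_ge])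
  have := h.pow_le (C := 8) (by norm_num) (i := 2 * c + 4) (j := 2 * c + 5) (by omega)
  linarith [h.N_cast]

end Od

end Pool.Agent.Lib.MP_7f377f_mp.RG.Q4
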