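import Pool.Agent.Lib.MP_7f377f_mp.G.Q4OpK
import Pool.Agent.Lib.MP_7f377f_mp.G.Q4Op4

/-! Algebra, covariance, locality and symmetry of the operator built from kernels. -/

noncomputable section

set_option linter.unusedSectionVars false
variable [Pool.Agent.Lib.MP_7f377f_mp.GD]

namespace Pool.Agent.Lib.MP_7f377f_mp.RG.Q4

open Finset Polynomial

attribute [local irreducible] box lbox cube

variable {l N c : ℕ} {Λ : ℝ} {H H' : Set St} {ka ka' : St → Kf} {k k' : Kf} {A A' a a' b b' : Fld}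
  {p q : ℂ[X]} {f : Lk} {Ω : Set ℂ} {n : Fin 4 → ℕ} {O : Od} {W W' : Cf} {u : St → Hc}

def qkL (l : ℕ) (k : Kf) : Fld →ₗ[ℂ] Fld →ₗ[ℂ] ℂ := LinearMap.mk₂ ℂ (qk l k)
  (fun a b c => by simp only [qk, Pi.add_apply, add_mul, mul_add, sum_add_distrib])
  (fun t a b => by simp only [qk, Pi.smul_apply, smul_eq_mul, mul_sum, mul_assoc, mul_left_comm t])
  (fun a b c => by simp only [qk, Pi.add_apply, mul_add, sum_add_distrib])
  (fun t a b => by simp only [qk, Pi.smul_apply, smul_eq_mul, mul_sum, mul_left_comm t])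

theorem qkL_apply : qkL l k a b = qk l k a b := rfl

theorem qk_agr (ha : Agr (3 * l + 1) a a') (hb : Agr (3 * l + 1) b b') : qk l k a b = qk l k a' b' :=
  sum_congr rfl fun e he => sum_congr rfl fun _ _ => sum_congr rfl fun e' he' =>
    sum_congr rfl fun _ _ => by rw [ha e he, hb e' he']

theorem qk_congr (h : Kc l 0 k k') : qk l k a b = qk l k' a b :=
  sum_congr rfl fun e he => sum_congr rfl fun i _ => sum_congr rfl fun e' he' =>
    sum_congr rfl fun j _ => by rw [sub_eq_zero.1 (norm_le_zero_iff.1 (h e he i e' he' j))]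

theorem Kc.refl (k : Kf) {δ : ℝ} (h : 0 ≤ δ) : Kc l δ k k := fun _ _ _ _ _ _ => by simpa

theorem Kc.mono {δ δ' : ℝ} (h : Kc l δ k k') (h' : δ ≤ δ') : Kc l δ' k k' :=
  fun e he i e' he' j => (h e he i e' he' j).trans h'

theorem Kc.nonneg {δ : ℝ} (h : Kc l δ k k') : 0 ≤ δ :=
  (norm_nonneg _).trans (h (0, 0) (mem_lbox.2 (zero_mem_box _)) GD.k0 (0, 0)
    (mem_lbox.2 (zero_mem_box _)) GD.k0)

theorem qk_symm (h : Ks k) : qk l k a b = qk l k b a := by
  simp only [qk, ← sum_product' (t := univ)]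
  rw [sum_comm]
  exact sum_congr rfl fun _ _ => sum_congr rfl fun _ _ => by rw [h, mul_comm (a _ _)]

theorem eb_apply (f e : Lk) (i j : Fin GD.d) : eb f i e j = if e = f ∧ j = i then 1 else 0 := by
  by_cases he : e = f <;> by_cases hj : j = i <;> simp [eb, he, hj]

theorem sh_eb (x : St) (f : Lk) (i : Fin GD.d) : sh x (eb f i) = eb (f.1 - x, f.2) i := by
  funext e j
  simp only [sh, eb_apply, Prod.ext_iff, eq_sub_iff_add_eq]

theorem qk_eb {e : Lk} (he : e ∈ lbox (3 * l + 1)) (i : Fin GD.d) :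
    qk l k (eb e i) b = ∑ e' ∈ lbox (3 * l + 1), ∑ j, k e i e' j * b e' j := by
  rw [qk, sum_eq_single_of_mem e he fun e' _ h => by simp [eb_apply, h],
    sum_eq_single i (fun j _ h => by simp [eb_apply, h]) (by simp)]
  simp [eb_apply]

theorem single_eq_sum (f : Lk) (b : C3) : (Pi.single f b : Fld) = ∑ i, b i • eb f i := by
  funext e j
  by_cases he : e = f <;> simp [Finset.sum_apply, eb_apply, he]

theorem qk_eq_sum (k : Kf) (a b : Fld) :
    qk l k a b = ∑ e ∈ lbox (3 * l + 1), ∑ i, a e i * qk l k (eb e i) b :=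
  sum_congr rfl fun e he => sum_congr rfl fun i _ => by
    simp only [qk_eb he, mul_sum, mul_left_comm (a e i)]

/-- a bilinear form of range `3 l + 1` is given by its kernel -/
theorem qk_bilin (B : Fld →ₗ[ℂ] Fld →ₗ[ℂ] ℂ)
    (hB : ∀ a a' b b', Agr (3 * l + 1) a a' → Agr (3 * l + 1) b b' → B a b = B a' b') (a b : Fld) :
    qk l (fun e i e' j => B (eb e i) (eb e' j)) a b = B a b := by
  rw [hB _ _ _ _ (agr_sum_single _ a) (agr_sum_single _ b)]
  simp only [single_eq_sum, map_sum, map_smul, LinearMap.sum_apply, LinearMap.smul_apply,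
    smul_eq_mul, qk, mul_sum, ← sum_product' (t := univ)]
  rw [sum_comm]
  exact sum_congr rfl fun _ _ => sum_congr rfl fun _ _ => by ring

theorem rel_mem {y : St} (hy : y ∈ box 1) : (f.1 - up l (yo l f.1 + y), f.2) ∈ lbox (3 * l + 1) := by
  rw [mem_lbox, ← Op.fb_one, Op.mem_fb, Op.yo_sub_up, sub_add_cancel_left]
  exact neg_mem_box hy

theorem hamK_ker (i : Fin GD.d) : hamK l ka A f i = ∑ y ∈ box 1, ∑ e ∈ lbox (3 * l + 1), ∑ j,
    ka (yo l f.1 + y) (f.1 - up l (yo l f.1 + y), f.2) i e j *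
      A (e.1 + up l (yo l f.1 + y), e.2) j :=
  sum_congr rfl fun y hy => by rw [sh_eb, qk_eb (rel_mem hy)]; rfl

theorem dot_hamK (b : C3) : dot b (hamK l ka A f) = ∑ y ∈ box 1, qk l (ka (yo l f.1 + y))
    (sh (up l (yo l f.1 + y)) (Pi.single f b)) (sh (up l (yo l f.1 + y)) A) := by
  have : ∀ x, sh x (Pi.single f b : Fld) = ∑ i, b i • sh x (eb f i) := fun x => by
    rw [single_eq_sum]
    funext e
    simp only [sh, Finset.sum_apply, Pi.smul_apply]
  simp only [dot, hamK, this, ← qkL_apply, map_sum, map_smul, LinearMap.sum_apply,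
    LinearMap.smul_apply, smul_eq_mul, mul_sum]
  exact sum_comm

def hamKL (l : ℕ) (ka : St → Kf) : Fld →ₗ[ℂ] Fld where
  toFun := hamK l ka
  map_add' A B := by
    funext f i
    simp only [hamK_ker, Pi.add_apply, mul_add, sum_add_distrib]
  map_smul' t A := by
    funext f i
    simp only [hamK_ker, Pi.smul_apply, smul_eq_mul, mul_sum, mul_left_comm t, RingHom.id_apply]

def topKL (l : ℕ) (Λ : ℝ) (H : Set St) (ka : St → Kf) : Fld →ₗ[ℂ] Fld :=
  pjL l H ∘ₗ (LinearMap.id - (Λ : ℂ)⁻¹ • (hamKL l ka ∘ₗ pjL l H))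

theorem topKL_apply : topKL l Λ H ka A = topK l Λ H ka A := rfl

theorem topK_act (hf : Act l H f) :
    topK l Λ H ka A f = A f - (Λ : ℂ)⁻¹ • hamK l ka (pj l H A) f := pj_act hf

theorem topK_not (hf : ¬ Act l H f) : topK l Λ H ka A f = 0 := pj_not hf

theorem topK_pj : topK l Λ H ka (pj l H A) = topK l Λ H ka A := by
  funext f
  by_cases hf : Act l H f
  · rw [topK_act hf, topK_act hf, pj_pj, pj_act hf]
  · rw [topK_not hf, topK_not hf]

theorem topKL_pow (k : ℕ) : (topKL l Λ H ka ^ k) A = (topK l Λ H ka)^[k] A :=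
  Module.End.pow_apply _ _ _

theorem polK_eq : polK l Λ p H ka A = aeval (topKL l Λ H ka) p (pj l H A) := by
  simp only [aeval_endomorphism, topKL_pow, polK]

theorem polK_apply : polK l Λ p H ka A f =
    ∑ k ∈ p.support, p.coeff k • (topK l Λ H ka)^[k] (pj l H A) f := by
  simp [polK, Polynomial.sum, Finset.sum_apply]

def polKL (l : ℕ) (Λ : ℝ) (p : ℂ[X]) (H : Set St) (ka : St → Kf) : Fld →ₗ[ℂ] Fld :=
  aeval (topKL l Λ H ka) p ∘ₗ pjL l H

theorem polKL_apply : polKL l Λ p H ka A = polK l Λ p H ka A := polK_eq.symm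

theorem polK_not (hf : ¬ Act l H f) : polK l Λ p H ka A f = 0 := by
  have : ∀ k, (topK l Λ H ka)^[k] (pj l H A) f = 0 := fun k => by
    cases k with
    | zero => exact pj_not hf
    | succ k => rw [Function.iterate_succ_apply']; exact topK_not hf
  simp only [polK_apply, this, smul_zero, sum_const_zero]

theorem pj_polK : pj l H (polK l Λ p H ka A) = polK l Λ p H ka A := pj_of fun _ => polK_not

theorem polK_pj : polK l Λ p H ka (pj l H A) = polK l Λ p H ka A := by rw [polK_eq, polK_eq, pj_pj]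

theorem polK_add : polK l Λ (p + q) H ka A = polK l Λ p H ka A + polK l Λ q H ka A := by
  simp only [polK_eq, map_add, LinearMap.add_apply]

theorem polK_sub : polK l Λ (p - q) H ka A = polK l Λ p H ka A - polK l Λ q H ka A := by
  simp only [polK_eq, map_sub, LinearMap.sub_apply]

theorem polK_smul (t : ℂ) : polK l Λ (t • p) H ka A = t • polK l Λ p H ka A := by
  simp only [polK_eq, map_smul, LinearMap.smul_apply]

theorem polK_mul : polK l Λ (p * q) H ka A = polK l Λ p H ka (polK l Λ q H ka A) := by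
  rw [polK_eq (p := p), pj_polK, polK_eq, polK_eq, map_mul, Module.End.mul_apply]

theorem polK_one : polK l Λ 1 H ka A = pj l H A := by rw [polK_eq, map_one, Module.End.one_apply]

theorem polK_X : polK l Λ X H ka A = topK l Λ H ka A := by
  rw [polK_eq, aeval_X, topKL_apply, topK_pj]

theorem polK_X_pow (k : ℕ) : polK l Λ (X ^ k) H ka A = (topK l Λ H ka)^[k] (pj l H A) := by
  rw [polK_eq, map_pow, aeval_X, topKL_pow]

theorem polK_zero : polK l Λ p H ka 0 = 0 := by rw [← polKL_apply, map_zero]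

theorem shK_shK (x y : St) : shK x (shK y ka) = shK (x + y) ka := by
  funext z
  simp only [shK, add_assoc]

theorem nf_shS {x y : St} : Nf (shS y H) x ↔ Nf H (x + y) := by
  simp only [Nf, fr_shS, add_right_comm x]

theorem Fr.nf {x y : St} (h : Fr H x) (hy : y ∈ box 1) : Nf H (x + y) :=
  ⟨-y, neg_mem_box hy, by rwa [add_neg_cancel_right]⟩

theorem hamK_sh (y : St) : hamK l (shK y ka) (sh (up l y) A) = sh (up l y) (hamK l ka A) := by
  funext f i
  rw [sh, hamK_ker, hamK_ker]
  refine sum_congr rfl fun x _ => ?_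
  simp only [sh, shK, yo_add_up, add_right_comm (yo l f.1) y, up_add _ _ y,
    add_sub_add_right_eq_sub, add_assoc _ _ (up l y)]

theorem topK_sh (y : St) :
    topK l Λ (shS y H) (shK y ka) (sh (up l y) A) = sh (up l y) (topK l Λ H ka A) := by
  rw [topK, topK, pj_sh, hamK_sh, ← pj_sh]
  rfl

theorem polK_sh (y : St) :
    polK l Λ p (shS y H) (shK y ka) (sh (up l y) A) = sh (up l y) (polK l Λ p H ka A) := by
  have : ∀ (k : ℕ) A, (topK l Λ (shS y H) (shK y ka))^[k] (sh (up l y) A) =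
      sh (up l y) ((topK l Λ H ka)^[k] A) := fun k A => by
    induction k with
    | zero => rfl
    | succ k ih => rw [Function.iterate_succ_apply', Function.iterate_succ_apply', ih, topK_sh]
  funext f
  simp only [polK_apply, pj_sh, this, sh]

/-- the kernel `k'` is the kernel `k` of the block `y` after the rotation `u` -/
def Kg (l : ℕ) (u : St → Hc) (y : St) (k k' : Kf) : Prop := ∀ a b,
  qk l k' (adF (fun x => u (yo l x + y)) a) (adF (fun x => u (yo l x + y)) b) = qk l k a b

theorem dot_ext {a b : C3} (h : ∀ v, dot v a = dot v b) : a = b := funext fun i => by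
  simpa [dot, Pi.single_apply] using h (Pi.single i 1)

theorem sh_adF (y : St) :
    sh (up l y) (adF (fun x => u (yo l x)) A) = adF (fun x => u (yo l x + y)) (sh (up l y) A) := by
  funext e
  simp only [sh, adF, yo_add_up]

theorem adF_single (v : St → Hc) (f : Lk) (b : C3) :
    adF v (Pi.single f b) = Pi.single f (adq (v f.1) b) := by
  funext e
  by_cases he : e = f
  · simp only [he, adF, Pi.single_eq_same]
  · simp only [adF, Pi.single_eq_of_ne he, adq_zero]

theorem topK_rel (hu : ∀ x, Uni (u x)) {r : ℕ} (hH : AgS (r + 5) H H')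
    (hk : ∀ y ∈ box (r + 1), Nf H y → Kg l u y (ka y) (ka' y))
    (hA : Agr (fb l (r + 2)) (adF (fun x => u (yo l x)) A) A') :
    Agr (fb l r) (adF (fun x => u (yo l x)) (topK l Λ H ka A)) (topK l Λ H' ka' A') := by
  intro f hf
  have h0 := (hH.mono (R' := r + 3) (by omega)).act hf
  by_cases h1 : Act l H f
  swap
  · rw [adF, topK_not h1, topK_not fun h => h1 (h0.2 h), adq_zero]
  have h2 := Op.mem_fb.1 (mem_lbox.1 hf)
  rw [adF, topK_act h1, topK_act (h0.1 h1), adq_sub, adq_smul,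
    ← hA.mono (Op.fb_mono _ (by omega)) f hf]
  refine congrArg₂ _ rfl (congrArg _ (dot_ext fun v => ?_))
  rw [← Op.adq_adq_star (hu (yo l f.1)) v, dot_adq_adq (hu _), dot_hamK, dot_hamK]
  refine sum_congr rfl fun y hy => ?_
  rw [← hk _ (add_mem_box h2 hy) (h1.2.nf hy), ← sh_adF, ← sh_adF, adF_single, ← adF_pj]
  refine qk_agr (fun _ _ => rfl) fun e he => pj_agr hH hA _ ?_
  rw [mem_lbox, Op.mem_fb, yo_add_up]
  exact box_mono (by omega) (add_mem_box (yo_mem_one he) (add_mem_box h2 hy))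

/-- locality and covariance -/
theorem polK_rel (hu : ∀ x, Uni (u x)) {d r : ℕ} (hp : p.natDegree ≤ d)
    (hH : AgS (r + 2 * d + 3) H H') (hk : ∀ y ∈ box (r + 2 * d), Nf H y → Kg l u y (ka y) (ka' y))
    (hA : Agr (fb l (r + 2 * d)) (adF (fun x => u (yo l x)) A) A') :
    Agr (fb l r) (adF (fun x => u (yo l x)) (polK l Λ p H ka A)) (polK l Λ p H' ka' A') := by
  have : ∀ (k : ℕ) (r' : ℕ), r' + 2 * k ≤ r + 2 * d → Agr (fb l r') (adF (fun x => u (yo l x))
      ((topK l Λ H ka)^[k] (pj l H A))) ((topK l Λ H' ka')^[k] (pj l H' A')) := fun k => by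
    induction k with
    | zero => exact fun r' h => adF_pj (l := l) _ ▸ (pj_agr hH hA).mono (Op.fb_mono _ (by omega))
    | succ k ih =>
      intro r' h
      rw [Function.iterate_succ_apply', Function.iterate_succ_apply']
      exact topK_rel hu (hH.mono (by omega)) (fun y hy => hk y (box_mono (by omega) hy))
        (ih _ (by omega))
  intro f hf
  rw [adF, polK_apply, polK_apply, adq_sum]
  refine sum_congr rfl fun i hi => ?_
  have h1 := (le_natDegree_of_mem_supp i hi).trans hp
  rw [adq_smul, ← this i r (by omega) f hf, adF]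

theorem adF_one : adF (fun _ => 1) A = A := funext fun _ => adq_one _

theorem Kc.kg {y : St} (h : Kc l 0 k k') : Kg l (fun _ => 1) y k k' := fun a b => by
  rw [adF_one, adF_one, qk_congr h]

theorem topK_agr {r : ℕ} (hH : AgS (r + 5) H H')
    (hk : ∀ y ∈ box (r + 1), Nf H y → Kc l 0 (ka y) (ka' y)) (hA : Agr (fb l (r + 2)) A A') :
    Agr (fb l r) (topK l Λ H ka A) (topK l Λ H' ka' A') := by
  have := topK_rel (Λ := Λ) (u := fun _ => 1) (fun _ => uni_one) hH (fun y hy h => (hk y hy h).kg)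
    (A := A) (by rwa [adF_one])
  rwa [adF_one] at this

theorem polK_agr {d r : ℕ} (hp : p.natDegree ≤ d) (hH : AgS (r + 2 * d + 3) H H')
    (hk : ∀ y ∈ box (r + 2 * d), Nf H y → Kc l 0 (ka y) (ka' y))
    (hA : Agr (fb l (r + 2 * d)) A A') : Agr (fb l r) (polK l Λ p H ka A) (polK l Λ p H' ka' A') := by
  have := polK_rel (Λ := Λ) (u := fun _ => 1) (fun _ => uni_one) hp hH
    (fun y hy h => (hk y hy h).kg) (A := A) (by rwa [adF_one])
  rwa [adF_one] at this

theorem ext_agr {α : Type} {U U' : Lk → α} (h : ∀ r, Agr (fb l r) U U') : U = U' := funext fun e =>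
  h (univ.sup fun i => (yo l e.1 i).natAbs) e (mem_lbox.2 (Op.mem_fb.2 (mem_box.2 fun i => by
    have := le_sup (f := fun i => (yo l e.1 i).natAbs) (mem_univ i)
    omega)))

theorem polK_gauge (hu : ∀ x, Uni (u x)) (hk : ∀ y, Nf H y → Kg l u y (ka y) (ka' y)) :
    polK l Λ p H ka' (adF (fun x => u (yo l x)) A) = adF (fun x => u (yo l x)) (polK l Λ p H ka A) :=
  (ext_agr fun _ => polK_rel hu le_rfl (fun _ _ => Iff.rfl) (fun y _ => hk y) fun _ _ => rfl).symm

theorem topK_congr (hk : ∀ y, Nf H y → Kc l 0 (ka y) (ka' y)) : topK l Λ H ka = topK l Λ H ka' :=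
  funext fun _ => ext_agr fun _ => topK_agr (fun _ _ => Iff.rfl) (fun y _ => hk y) fun _ _ => rfl

theorem topK_real (hk : ∀ y, Nf H y → Kr (ka y)) (hA : RealF A) : RealF (topK l Λ H ka A) := by
  intro f i
  by_cases hf : Act l H f
  · have : (hamK l ka (pj l H A) f i).im = 0 := by
      simp only [hamK_ker, Complex.im_sum]
      exact sum_eq_zero fun y hy => sum_eq_zero fun e _ => sum_eq_zero fun j _ => by
        simp [hk _ (hf.2.nf hy) _ _ _ _, pj_real hA _ j]
    simp [topK_act hf, ← Complex.ofReal_inv, hA f i, this]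
  · rw [topK_not hf]
    rfl

theorem polK_real (hp : ∀ k, (p.coeff k).im = 0) (hk : ∀ y, Nf H y → Kr (ka y)) (hA : RealF A) :
    RealF (polK l Λ p H ka A) := fun e k => by
  have : ∀ i, RealF ((topK l Λ H ka)^[i] (pj l H A)) := fun i => by
    induction i with
    | zero => exact pj_real hA
    | succ i ih => rw [Function.iterate_succ_apply']; exact topK_real hk ih
  rw [polK_apply, Finset.sum_apply, Complex.im_sum]
  exact sum_eq_zero fun i _ => by simp [hp i, this i e k]

open Classical in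
/-- properties of the entries which are stable under the algebraic operations -/
theorem polK_closed {Z : Type} (P : (Z → ℂ) → Prop) (hc : ∀ c, P fun _ => c)
    (hadd : ∀ φ ψ, P φ → P ψ → P fun z => φ z + ψ z) (hmul : ∀ φ ψ, P φ → P ψ → P fun z => φ z * ψ z)
    {H : Z → Set St} {ka : Z → St → Kf} {A : Z → Fld} {d r : ℕ} (hp : p.natDegree ≤ d)
    (hH : ∀ f, P fun z => if Act l (H z) f then 1 else 0)
    (hk : ∀ y ∈ box (r + 2 * d), ∀ e i e' j, P fun z => ka z y e i e' j)
    (hA : ∀ e ∈ lbox (fb l (r + 2 * d)), ∀ i, P fun z => A z e i) :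
    ∀ f ∈ lbox (fb l r), ∀ i, P fun z => polK l Λ p (H z) (ka z) (A z) f i := by
  have hs : ∀ {ι : Type} (s : Finset ι) (φ : ι → Z → ℂ), (∀ i ∈ s, P (φ i)) →
      P fun z => ∑ i ∈ s, φ i z := fun s φ => by
    induction s using Finset.cons_induction with
    | empty => exact fun _ => hc 0
    | cons a s ha ih =>
      intro h
      simp only [sum_cons]
      exact hadd _ _ (h a (mem_cons_self _ _)) (ih fun i hi => h i (mem_cons_of_mem hi))
  have hj : ∀ (B : Z → Fld) f i, (P fun z => B z f i) → P fun z => pj l (H z) (B z) f i :=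
    fun B f i h => by
      convert hmul _ _ (hH f) h using 2 with z
      simp only [pj]
      split_ifs <;> simp
  have : ∀ (k r' : ℕ), r' + 2 * k ≤ r + 2 * d → ∀ f ∈ lbox (fb l r'), ∀ i,
      P fun z => (topK l Λ (H z) (ka z))^[k] (pj l (H z) (A z)) f i := fun k => by
    induction k with
    | zero => exact fun r' h f hf i => hj _ _ _ (hA f (lbox_mono (Op.fb_mono _ (by omega)) hf) i)
    | succ k ih =>
      intro r' h f hf i
      have h2 := Op.mem_fb.1 (mem_lbox.1 hf)
      simp only [Function.iterate_succ_apply']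
      refine hj _ _ _ ?_
      simp only [Pi.sub_apply, Pi.smul_apply, smul_eq_mul, hamK_ker, sub_eq_add_neg, ← neg_mul]
      refine hadd _ _ (ih r' (by omega) f hf i) (hmul _ _ (hc _) (hs _ _ fun y hy =>
        hs _ _ fun e he => hs _ _ fun j _ => hmul _ _
          (hk _ (box_mono (by omega) (add_mem_box h2 hy)) _ _ _ _) (hj _ _ _ (ih (r' + 2) (by omega) _ ?_ j))))
      rw [mem_lbox, Op.mem_fb, yo_add_up]
      exact box_mono (by omega) (add_mem_box (yo_mem_one he) (add_mem_box h2 hy))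
  intro f hf i
  simp only [polK_apply, Finset.sum_apply, Pi.smul_apply, smul_eq_mul]
  exact hs _ _ fun k hk => hmul _ _ (hc _)
    (this k r (by have := (le_natDegree_of_mem_supp k hk).trans hp; omega) f hf i)

theorem polK_diff {ka : ℂ → St → Kf} {A : ℂ → Fld} {d r : ℕ} (hp : p.natDegree ≤ d)
    (hk : ∀ y ∈ box (r + 2 * d), ∀ e i e' j, DifferentiableOn ℂ (fun t => ka t y e i e' j) Ω)
    (hA : ∀ e ∈ lbox (fb l (r + 2 * d)), DifferentiableOn ℂ (fun t => A t e) Ω)
    (hf : f ∈ lbox (fb l r)) : DifferentiableOn ℂ (fun t => polK l Λ p H (ka t) (A t) f) Ω :=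
  differentiableOn_pi.2 (polK_closed (fun φ => DifferentiableOn ℂ φ Ω) differentiableOn_const
    (fun _ _ => .add) (fun _ _ => .mul) hp (fun _ => differentiableOn_const _) hk
    (fun e he => differentiableOn_pi.1 (hA e he)) f hf)

theorem mem_some_fb (l : ℕ) (f : Lk) : ∃ r, f ∈ lbox (fb l r) :=
  ⟨univ.sup fun i => (yo l f.1 i).natAbs, mem_lbox.2 (Op.mem_fb.2 (mem_box.2 fun i => by
    have := le_sup (f := fun i => (yo l f.1 i).natAbs) (mem_univ i)
    omega))⟩

theorem polK_disc {ka : ℂ → St → Kf} {A : ℂ → Fld}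
    (hk : ∀ y e i e' j, DifferentiableOn ℂ (fun t => ka t y e i e' j) Ω) (hA : Disc Ω A) :
    Disc Ω fun t => polK l Λ p H (ka t) (A t) := fun f =>
  let ⟨_, hr⟩ := mem_some_fb l f
  polK_diff le_rfl (fun y _ => hk y) (fun e _ => hA e) hr

theorem measurableSet_act {Z : Type} [MeasurableSpace Z] {H : Z → Set St}
    (hH : ∀ y, MeasurableSet {z | y ∈ H z}) (f : Lk) : MeasurableSet {z | Act l (H z) f} := by
  have : {z | Act l (H z) f} = {_z | ¬ tree l f} ∩ ⋂ v ∈ box 3, {z | yo l f.1 + v ∈ H z}ᶜ := by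
    ext z
    simp [Act, Fr]
  rw [this]
  exact (MeasurableSet.const _).inter (Finset.measurableSet_biInter _ fun v _ => (hH _).compl)

/-- joint measurability; the holes may depend on the parameter -/
theorem polK_meas {Z : Type} [MeasurableSpace Z] {H : Z → Set St} {ka : Z → St → Kf} {A : Z → Fld}
    (hH : ∀ y, MeasurableSet {z | y ∈ H z}) (hk : ∀ y e i e' j, Measurable fun z => ka z y e i e' j)
    (hA : Measurable A) : Measurable fun z => polK l Λ p (H z) (ka z) (A z) :=
  measurable_pi_lambda _ fun f => measurable_pi_lambda _ <|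
    let ⟨_, hr⟩ := mem_some_fb l f
    polK_closed Measurable (fun _ => measurable_const) (fun _ _ => .add) (fun _ _ => .mul) le_rfl
      (fun f => Measurable.ite (measurableSet_act hH f) measurable_const measurable_const)
      (fun y _ => hk y) (fun e _ i => (measurable_pi_apply i).comp ((measurable_pi_apply e).comp hA))
      f hr

theorem mem_fb_zero (hf : f ∈ lbox l) : f ∈ lbox (fb l 0) := by simpa [fb] using hf

theorem dtK_rel (hu : ∀ x, Uni (u x)) (hH : AgS (2 * N + 3) H H')
    (hk : ∀ y ∈ box (2 * N), Nf H y → Kg l u y (ka y) (ka' y)) :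
    dtK l Λ N H' ka' = dtK l Λ N H ka := by
  refine sum_congr rfl fun f hf => ?_
  refine Eq.trans (sum_congr rfl fun k _ => ?_) ((Od.tr_conj (hu (yo l f.1))
    (LinearMap.proj f ∘ₗ polKL l Λ (pQ N) H ka ∘ₗ LinearMap.single ℂ (fun _ => C3) f)).trans
    (sum_congr rfl fun k _ => congrFun (congrFun polKL_apply f) k))
  rw [← polK_rel hu (r := 0) (Op.natDegree_pQ N) (by rwa [zero_add]) (by rwa [zero_add])
    (A := Pi.single f (adq (star (u (yo l f.1))) (Pi.single k 1))) (A' := eb f k)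
    (fun _ _ => by rw [adF_single, Op.adq_adq_star (hu _), eb]) f (mem_fb_zero hf), adF,
    ← polKL_apply]
  rfl

theorem dtK_agr (hH : AgS (2 * N + 3) H H')
    (hk : ∀ y ∈ box (2 * N), Nf H y → Kc l 0 (ka y) (ka' y)) : dtK l Λ N H ka = dtK l Λ N H' ka' :=
  (dtK_rel (u := fun _ => 1) (fun _ => uni_one) hH fun y hy h => (hk y hy h).kg).symm

theorem dtK_real (hk : ∀ y, Nf H y → Kr (ka y)) : (dtK l Λ N H ka).im = 0 := by
  simp only [dtK, Complex.im_sum]
  exact sum_eq_zero fun f _ => sum_eq_zero fun k _ =>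
    polK_real (fun i => (Od.coeff_real _ i).2.1) hk (Od.single_real f k) f k

theorem dtK_diff {ka : ℂ → St → Kf}
    (hk : ∀ y ∈ box (2 * N), ∀ e i e' j, DifferentiableOn ℂ (fun t => ka t y e i e' j) Ω) :
    DifferentiableOn ℂ (fun t => dtK l Λ N H (ka t)) Ω :=
  DifferentiableOn.fun_sum fun f hf => DifferentiableOn.fun_sum fun k _ => differentiableOn_pi.1
    (polK_diff (r := 0) (A := fun _ => eb f k) (Op.natDegree_pQ N) (by rwa [zero_add])
      (fun _ _ => differentiableOn_const _) (mem_fb_zero hf)) k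

theorem dtK_meas {Z : Type} [MeasurableSpace Z] {H : Z → Set St} {ka : Z → St → Kf}
    (hH : ∀ y, MeasurableSet {z | y ∈ H z})
    (hk : ∀ y e i e' j, Measurable fun z => ka z y e i e' j) :
    Measurable fun z => dtK l Λ N (H z) (ka z) :=
  Finset.measurable_sum _ fun f _ => Finset.measurable_sum _ fun k _ => (measurable_pi_apply k).comp
    ((measurable_pi_apply f).comp (polK_meas hH hk measurable_const))

section kh

theorem qk_kh {h : BF} (hr : Rng (3 * l + 1) (3 * l + 1) h) :
    qk l (kh l h W) a b = cx h (Ay l 0 W a) (Ay l 0 W b) := by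
  have : ∀ a a', Agr (3 * l + 1) a a' → Agr (3 * l + 1) (Ay l 0 W a) (Ay l 0 W a') :=
    fun a a' h e he => by simp only [Ay, adF, Op.up_zero, Op.sh_zero, h e he]
  exact qk_bilin ((cxB h).compl₁₂ (AyL l 0 W) (AyL l 0 W))
    (fun _ _ _ _ ha hb => cx_agr hr (this _ _ ha) (this _ _ hb)) a b

theorem qk_kh_sh {h : BF} (hr : Rng (3 * l + 1) (3 * l + 1) h) (y : St) :
    qk l (kh l h (sh y W)) (sh (up l y) a) (sh (up l y) b) = cx h (Ay l y W a) (Ay l y W b) := by
  rw [qk_kh hr, Ay_sh, Ay_sh, zero_add]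

theorem kh_agr {h : BF} (hr : Rng (3 * l + 1) (3 * l + 1) h) (hW : Agr 1 W W') :
    kh l h W = kh l h W' := by
  have : ∀ a, Agr (3 * l + 1) (Ay l 0 W a) (Ay l 0 W' a) := fun a e he => by
    simp only [Ay, adF, Op.sh_zero, Op.cmb_agr hW (yo_mem_one he)]
  funext e i e' j
  exact cx_agr hr (this _) (this _)

theorem Od.ham_eq (h : O.Ok c) : O.ham W A = hamK O.l (fun y => kh O.l O.h (sh y W)) A := by
  funext f
  refine dot_ext fun v => ?_
  rw [Od.dot_ham h, dot_hamK]
  simp only [qk_kh_sh h.rng]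
  refine (sum_subset (fun _ => box_mono one_le_two) fun y _ hy => ?_).symm
  rw [cx_agr h.rng (A' := 0) (fun e he => ?_) fun _ _ => rfl, cx_zero_left]
  rw [Ay, adF, sh, Pi.single_eq_of_ne, adq_zero, Pi.zero_apply]
  intro h2
  have h3 := yo_mem_one he
  rw [eq_sub_of_add_eq (congrArg Prod.fst h2), Op.yo_sub_up, sub_add_cancel_left] at h3
  exact hy (by simpa using neg_mem_box h3)

theorem Od.top_eq (h : O.Ok c) : O.top H W = topK O.l O.Λ H fun y => kh O.l O.h (sh y W) := by
  funext A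
  rw [Od.top, Od.ham_eq h, topK]

theorem Od.pol_eqK (h : O.Ok c) :
    O.pol p H W A = polK O.l O.Λ p H (fun y => kh O.l O.h (sh y W)) A := by
  rw [Od.pol, Od.top_eq h, polK]

end kh

section torus

theorem PerK.shK (h : PerK n ka) (v : St) : shK (pv n v) ka = ka := funext fun y => h y v

theorem topK_per (hH : PerS n H) (hk : PerK n ka) (hA : PerV (fi l n) A) :
    PerV (fi l n) (topK l Λ H ka A) := fun v => by
  rw [← up_pv, ← topK_sh, hH v, hk.shK, up_pv, hA v]

theorem polK_per (hH : PerS n H) (hk : PerK n ka) (hA : PerV (fi l n) A) :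
    PerV (fi l n) (polK l Λ p H ka A) := fun v => by
  rw [← up_pv, ← polK_sh, hH v, hk.shK, up_pv, hA v]

/-- the total quadratic form -/
def QK (n : Fin 4 → ℕ) (l : ℕ) (ka : St → Kf) (A' A : Fld) : ℂ :=
  ∑ y ∈ domv n, qk l (ka y) (sh (up l y) A') (sh (up l y) A)

theorem regroupK (hn : ∀ i, Odd (n i)) (hk : PerK n ka) (hA : PerV (fi l n) A)
    (hA' : PerV (fi l n) A') : bp n l A' (hamK l ka A) = QK n l ka A' A := by
  let g : St → Lk → ℂ := fun y e => ∑ i, sh (up l y) A' e i * qk l (ka y) (eb e i) (sh (up l y) A)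
  have e1 : ∀ y, ∀ t ∈ lbox l, dot (sh (up l y) A' t) (sh (up l y) (hamK l ka A) t) =
      ∑ x ∈ box 1, g (y + x) (t.1 + up l (-x), t.2) := by
    intro y t ht
    have h0 := Op.yo_add_box (mem_lbox.1 ht)
    simp only [dot, sh, hamK, mul_sum, h0, sh_eb]
    rw [sum_comm]
    refine sum_congr rfl fun x _ => ?_
    have e2 : t.1 + up l y - up l (y + x) = t.1 + up l (-x) := by rw [up_add, up_neg]; abel
    have e3 : t.1 + up l (-x) + up l (y + x) = t.1 + up l y := by rw [up_add, up_neg]; abel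
    simp only [g, sh, e2, e3]
  rw [bp, sum_congr rfl fun y _ => sum_congr rfl (e1 y), QK,
    sum_congr rfl fun y _ => qk_eq_sum (ka y) _ _]
  simp only [← Op.fb_one, Op.sum_fb]
  rw [sum_congr rfl fun y _ => sum_comm, sum_comm, sum_comm (s := domv n)]
  refine sum_nbij' (fun x => -x) (fun x => -x) (fun _ => neg_mem_box) (fun _ => neg_mem_box)
    (fun _ _ => neg_neg _) (fun _ _ => neg_neg _) fun x _ => ?_
  exact sum_dom_add hn (g := fun y => ∑ t ∈ lbox l, g y (t.1 + up l (-x), t.2))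
    (fun y v => by simp only [g, hk y v, up_add, ← sh_sh, up_pv, hA v, hA' v]) x

theorem bp_topK (hn : ∀ i, Odd (n i)) (hH : PerS n H) (hk : PerK n ka) (hA : PerV (fi l n) A)
    (hA' : PerV (fi l n) A') : bp n l A' (topK l Λ H ka A) =
      bp n l (pj l H A') A - (Λ : ℂ)⁻¹ * QK n l ka (pj l H A') (pj l H A) := by
  rw [topK, bp_pj, ← regroupK hn hk (pj_per hH hA) (pj_per hH hA')]
  exact ((bpL n l _).map_sub _ _).trans (congrArg _ ((bpL n l _).map_smul _ _))

theorem topK_symm (hn : ∀ i, Odd (n i)) (hH : PerS n H) (hk : PerK n ka) (hs : ∀ y, Ks (ka y))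
    (hA : PerV (fi l n) A) (hA' : PerV (fi l n) A') :
    bp n l A' (topK l Λ H ka A) = bp n l (topK l Λ H ka A') A := by
  rw [bp_comm (A := A), bp_topK hn hH hk hA hA', bp_topK hn hH hk hA' hA, ← bp_pj, bp_comm]
  simp only [QK, qk_symm (a := sh _ (pj l H A')) (hs _)]

theorem bp_polK (hn : ∀ i, Odd (n i)) (hH : PerS n H) (hk : PerK n ka) (hs : ∀ y, Ks (ka y))
    (hA : PerV (fi l n) A) (hA' : PerV (fi l n) A') :
    bp n l A' (polK l Λ p H ka A) = bp n l (polK l Λ p H ka A') A := by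
  induction p using Polynomial.induction_on generalizing A A' with
  | C a =>
    rw [← mul_one (C a), ← smul_eq_C_mul, polK_smul, polK_smul, polK_one, polK_one, bp_comm (A := A)]
    exact ((bpL n l _).map_smul _ _).trans ((congrArg _ (bp_pj.trans bp_comm)).trans
      ((bpL n l _).map_smul _ _).symm)
  | add p q hp hq =>
    rw [polK_add, polK_add, bp_comm (A := A)]
    exact ((bpL n l _).map_add _ _).trans ((congrArg₂ _ ((hp hA hA').trans bp_comm)
      ((hq hA hA').trans bp_comm)).trans ((bpL n l _).map_add _ _).symm)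
  | monomial k a ih =>
    rw [pow_succ, ← mul_assoc, polK_mul, ih (polK_per hH hk hA) hA', polK_X,
      topK_symm hn hH hk hs hA (polK_per hH hk hA'), mul_comm _ X, polK_mul (p := X), polK_X]

/-- the exact Gaussian exponent -/
theorem quad_idK (hΛ : Λ ≠ 0) (hn : ∀ i, Odd (n i)) (hH : PerS n H) (hk : PerK n ka)
    (hs : ∀ y, Ks (ka y)) (hA : PerV (fi l n) A) :
    QK n l ka (polK l Λ (pP N) H ka A) (polK l Λ (pP N) H ka A) =
      Λ * bp n l A (pj l H A - polK l Λ (pU N) H ka A) := by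
  have hP := polK_per (Λ := Λ) (p := pP N) hH hk hA
  have h1 := bp_topK (Λ := Λ) hn hH hk hP hP
  have h2 : pj l H A - polK l Λ (pU N) H ka A = polK l Λ (pP N) H ka
      (polK l Λ (pP N) H ka A - topK l Λ H ka (polK l Λ (pP N) H ka A)) := by
    rw [← polK_one (Λ := Λ) (ka := ka), ← polK_sub, ← polK_X, ← polK_mul, ← polK_sub, ← polK_mul, pU]
    congr 1
    ring
  rw [pj_polK] at h1
  rw [h2, bp_polK hn hH hk hs (fun v => congrArg₂ (· - ·) (hP v) (topK_per hH hk hP v)) hA]
  refine Eq.symm ((congrArg _ ((bpL n l _).map_sub _ _)).trans ?_)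
  change (Λ : ℂ) * (bp _ _ _ _ - bp _ _ _ _) = _
  rw [h1, sub_sub_cancel, mul_inv_cancel_left₀ (Complex.ofReal_ne_zero.2 hΛ)]

end torus

end Pool.Agent.Lib.MP_7f377f_mp.RG.Q4
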