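import Pool.Agent.Lib.MP_7f377f_mp.G.Q4Loc
import Pool.Agent.Lib.MP_7f377f_mp.G.Q4Op3

/-! Matrices of operators on periodic fields and their determinant marks. -/

noncomputable section

set_option linter.unusedSectionVars false
variable [Pool.Agent.Lib.MP_7f377f_mp.GD]

namespace Pool.Agent.Lib.MP_7f377f_mp.RG.Q4.Loc

open Finset Polynomial Matrix
open scoped Matrix.Norms.L2Operator Pointwise

attribute [local irreducible] box lbox cube

/-- block, link in the block, colour -/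
abbrev IX (n : Fin 4 → ℕ) (l : ℕ) := domv n × lbox l × Fin GD.d

variable {n : Fin 4 → ℕ} {l : ℕ}

/-- the block of an index -/
def bk (i : IX n l) : St := i.1

/-- the link of an index -/
def lk (i : IX n l) : Lk := (i.2.1.1.1 + up l i.1, i.2.1.1.2)

/-- the periodic field with one nonzero entry -/
def bv (i : IX n l) : Fld := pd (fi l n) (lk i) (Pi.single i.2.2 1)

def vec (n : Fin 4 → ℕ) (l : ℕ) : Fld →ₗ[ℂ] (IX n l → ℂ) where
  toFun A i := A (lk i) i.2.2
  map_add' _ _ := rfl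
  map_smul' _ _ := rfl

def fld (n : Fin 4 → ℕ) (l : ℕ) : (IX n l → ℂ) →ₗ[ℂ] Fld := Fintype.linearCombination ℂ bv

/-- the matrix of an operator on periodic fields -/
def mat (n : Fin 4 → ℕ) (l : ℕ) (G : Fld →ₗ[ℂ] Fld) : Matrix (IX n l) (IX n l) ℂ :=
  Matrix.of fun i j => G (bv j) (lk i) i.2.2

/-- balls of the torus; `blv (cu n) D = bl n D` -/
def blv (n : Fin 4 → ℕ) (D : ℕ) : St → Finset St := fun y => ({y} + box D).image (rcv n)

/-- the local exponent of the determinant of `pP G` -/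
def qG (n : Fin 4 → ℕ) (l D N : ℕ) (G : Fld →ₗ[ℂ] Fld) (S : Finset St) : ℂ :=
  Qd bk (blv n D) N (mat n l G) S

/-- the determinant marks of an operator -/
def dG (n : Fin 4 → ℕ) (l D N : ℕ) (G : Fld →ₗ[ℂ] Fld) (S : Finset St) : ℂ :=
  Complex.exp (qG n l D N G S) - 1

/-- operators which preserve periodicity -/
def PG (n : Fin 4 → ℕ) (l : ℕ) (G : Fld →ₗ[ℂ] Fld) : Prop :=
  ∀ A, PerV (fi l n) A → PerV (fi l n) (G A)

/-- operators of range `ρ`, in units of blocks -/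
def RnG (l ρ : ℕ) (G : Fld →ₗ[ℂ] Fld) : Prop :=
  ∀ y A, (∀ e ∈ lbox (fb l ρ), sh (up l y) A e = 0) → ∀ t ∈ lbox l, sh (up l y) (G A) t = 0

variable {G G' : Fld →ₗ[ℂ] Fld} {A : Fld} {D N ρ : ℕ} {S : Finset St} {q ε : ℝ}

theorem mem_blv {y z : St} : z ∈ blv n D y ↔ ∃ v ∈ box D, rcv n (y + v) = z := by
  simp only [blv, mem_image, Finset.mem_add, mem_singleton, exists_eq_left, exists_exists_and_eq_and]

theorem mat_apply (i j : IX n l) : mat n l G i j = G (bv j) (lk i) i.2.2 := rfl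

theorem vec_apply (i : IX n l) : vec n l A i = A (lk i) i.2.2 := rfl

theorem fld_apply (v : IX n l → ℂ) : fld n l v = ∑ i, v i • bv i := rfl

theorem bk_mem (i : IX n l) : bk i ∈ domv n := i.1.2

theorem yo_lk (i : IX n l) : yo l (lk i).1 = bk i := Op.yo_add_box (mem_lbox.1 i.2.1.2) _

theorem lk_mem (hn : ∀ i, Odd (n i)) (i : IX n l) : (lk i).1 ∈ domv (fi l n) := by
  rw [mem_fine hn, yo_lk]
  exact bk_mem i

theorem ix_ext {i j : IX n l} (h : lk i = lk j) (h' : i.2.2 = j.2.2) : i = j := by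
  have h1 : i.1 = j.1 := Subtype.ext ((yo_lk i).symm.trans ((congrArg _ (congrArg _ h)).trans
    (yo_lk j)))
  have h2 := Prod.ext_iff.1 h
  simp only [lk, h1, add_left_inj] at h2
  exact Prod.ext h1 (Prod.ext (Subtype.ext (Prod.ext h2.1 h2.2)) h')

/-- the index of a link -/
def ixo (hn : ∀ i, Odd (n i)) (f : Lk) (k : Fin GD.d) : IX n l :=
  (⟨rcv n (yo l f.1), rcv_mem hn _⟩, ⟨(f.1 - up l (yo l f.1), f.2),
    mem_lbox.2 (sub_up_yo_mem l _)⟩, k)

theorem lk_ixo (hn : ∀ i, Odd (n i)) (f : Lk) (k : Fin GD.d) :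
    ∃ v, f = ((lk (ixo (l := l) hn f k)).1 + pv (fi l n) v, (lk (ixo (l := l) hn f k)).2) := by
  obtain ⟨v, hv⟩ := rcv_spec n (yo l f.1)
  refine ⟨v, Prod.ext ?_ rfl⟩
  simp only [lk, ixo]
  rw [← up_pv, add_assoc, ← up_add, ← hv, sub_add_cancel]

theorem per_ixo (hn : ∀ i, Odd (n i)) {α : Type} {U : Lk → α} (hU : PerV (fi l n) U) (f : Lk)
    (k : Fin GD.d) : U (lk (ixo (l := l) hn f k)) = U f := by
  obtain ⟨v, hv⟩ := lk_ixo (l := l) hn f k
  conv_rhs => rw [hv, hU.app]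

theorem pd_per (f : Lk) (b : C3) : PerV n (pd n f b) := fun v => by
  funext e
  simp only [sh, pd, add_sub_right_comm, dv_add (dv_pv v)]

theorem bv_per (i : IX n l) : PerV (fi l n) (bv i) := pd_per _ _

theorem bv_lk (hn : ∀ i, Odd (n i)) (i j : IX n l) :
    bv j (lk i) i.2.2 = if i = j then 1 else 0 := by
  simp only [bv, pd]
  split_ifs with h1 h2 h2
  · rw [h2, Pi.single_eq_same]
  · exact Pi.single_eq_of_ne (fun h => h2 (ix_ext (Prod.ext
      (dom_inj (odd_fi hn l) (lk_mem hn i) (lk_mem hn j) h1.1) h1.2) h)) _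
  · exact (h1 (by rw [h2, sub_self]; exact ⟨dv_zero, rfl⟩)).elim
  · rfl

theorem fld_per (v : IX n l → ℂ) : PerV (fi l n) (fld n l v) := fun w => by
  funext e
  simp only [sh, fld_apply, Finset.sum_apply, Pi.smul_apply, (bv_per _).app]

theorem vec_fld (hn : ∀ i, Odd (n i)) (v : IX n l → ℂ) : vec n l (fld n l v) = v := by
  funext i
  simp [vec_apply, fld_apply, Finset.sum_apply, bv_lk hn]

theorem vec_inj (hn : ∀ i, Odd (n i)) {A' : Fld} (hA : PerV (fi l n) A) (hA' : PerV (fi l n) A')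
    (h : vec n l A = vec n l A') : A = A' := by
  funext f k
  rw [← per_ixo hn hA f k, ← per_ixo hn hA' f k]
  exact congrFun h (ixo hn f k)

theorem fld_vec (hn : ∀ i, Odd (n i)) (hA : PerV (fi l n) A) : fld n l (vec n l A) = A :=
  vec_inj hn (fld_per _) hA (vec_fld hn _)

theorem mat_mulVec (v : IX n l → ℂ) : mat n l G *ᵥ v = vec n l (G (fld n l v)) := by
  funext i
  simp [fld_apply, map_sum, vec_apply, mulVec, dotProduct, mat_apply, mul_comm]

theorem mat_vec (hn : ∀ i, Odd (n i)) (hA : PerV (fi l n) A) :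
    mat n l G *ᵥ vec n l A = vec n l (G A) := by rw [mat_mulVec, fld_vec hn hA]

theorem mat_mul (hn : ∀ i, Odd (n i)) (h : PG n l G') :
    mat n l (G * G') = mat n l G * mat n l G' := by
  ext i j
  exact (congrFun (mat_vec (G := G) hn (h _ (bv_per j))) i).symm

theorem mat_one (hn : ∀ i, Odd (n i)) : mat n l 1 = 1 := by
  ext i j
  rw [one_apply, ← bv_lk hn]
  rfl

theorem mat_add : mat n l (G + G') = mat n l G + mat n l G' := rfl

theorem mat_smul (a : ℂ) : mat n l (a • G) = a • mat n l G := rfl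

theorem mat_aeval (hn : ∀ i, Odd (n i)) (h : PG n l G) (p : ℂ[X]) :
    mat n l (aeval G p) = aeval (mat n l G) p := by
  induction p using Polynomial.induction_on with
  | C a => simp only [aeval_C, Algebra.algebraMap_eq_smul_one, mat_smul, mat_one hn]
  | add p q hp hq => rw [map_add, map_add, mat_add, hp, hq]
  | monomial k a ih =>
    rw [pow_succ, ← mul_assoc, map_mul, map_mul _ _ X, aeval_X, aeval_X, mat_mul hn h, ih]

theorem sum_ix {M : Type} [AddCommMonoid M] (φ : St → Lk → Fin GD.d → M) :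
    ∑ i : IX n l, φ i.1 i.2.1 i.2.2 = ∑ y ∈ domv n, ∑ t ∈ lbox l, ∑ k, φ y t k := by
  rw [← sum_coe_sort (domv n), Fintype.sum_prod_type]
  refine sum_congr rfl fun y _ => ?_
  rw [← sum_coe_sort (lbox l), Fintype.sum_prod_type]

theorem trace_mat : trace (mat n l G) = ∑ y ∈ domv n, trB n l y G :=
  sum_ix fun y t k => G (pd (fi l n) (t.1 + up l y, t.2) (Pi.single k 1)) (t.1 + up l y, t.2) k

theorem nrm2_vec (A : Fld) : nrm2 n l A ^ 2 = ∑ i, ‖vec n l A i‖ ^ 2 :=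
  nrm2_sq.trans (sum_ix fun y t k => ‖A (t.1 + up l y, t.2) k‖ ^ 2).symm

theorem bp_vec (A A' : Fld) : bp n l A' A = vec n l A' ⬝ᵥ vec n l A :=
  (sum_ix fun y t k => A' (t.1 + up l y, t.2) k * A (t.1 + up l y, t.2) k).symm

theorem norm_mat (hn : ∀ i, Odd (n i)) (q0 : 0 ≤ q)
    (h : ∀ A, PerV (fi l n) A → nrm2 n l (G A) ≤ q * nrm2 n l A) : ‖mat n l G‖ ≤ q :=
  l2_le q0 fun v => by
    have := pow_le_pow_left₀ nrm2_nonneg (h _ (fld_per v)) 2
    rwa [mul_pow, nrm2_vec, nrm2_vec, vec_fld hn, ← mat_mulVec] at this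

theorem bv_real (i : IX n l) : RealF (bv i) := fun e k => by
  simp only [bv, pd]
  split_ifs
  · by_cases h : k = i.2.2 <;> simp [h]
  · rfl

theorem herm_mat (hn : ∀ i, Odd (n i)) (hr : ∀ A, RealF A → RealF (G A))
    (hs : ∀ A A', PerV (fi l n) A → PerV (fi l n) A' → bp n l A' (G A) = bp n l (G A') A) :
    (mat n l G).IsHermitian := by
  ext i j
  have h1 := hs _ _ (bv_per i) (bv_per j)
  have h2 : ∀ i : IX n l, vec n l (bv i) = Pi.single i 1 := fun i => funext fun j => by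
    rw [vec_apply, bv_lk hn, Pi.single_apply]
  rw [bp_vec, bp_vec, h2, h2, single_one_dotProduct, dotProduct_single_one] at h1
  rw [conjTranspose_apply, show mat n l G j i = mat n l G i j from h1]
  exact Complex.conj_eq_iff_im.2 (hr _ (bv_real j) _ _)

theorem card_bk (y : St) :
    (univ.filter fun i : IX n l => bk i = y).card ≤ 4 * GD.d * LL l ^ 4 := by
  refine (card_le_card_of_injOn (t := univ) (fun i => i.2) (fun _ _ => mem_univ _)
    fun i hi j hj h => Prod.ext (Subtype.ext ?_) h).trans_eq ?_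
  · exact (mem_filter.1 (mem_coe.1 hi)).2.trans (mem_filter.1 (mem_coe.1 hj)).2.symm
  · simp only [card_univ, Fintype.card_prod, Fintype.card_coe, card_lbox, Fintype.card_fin, LL]
    ring

theorem rcv_rcv_add (x v : St) : rcv n (rcv n x + v) = rcv n (x + v) :=
  rcv_congr (by simpa using (dv_rcv n x).neg)

theorem nb_blv (hn : ∀ i, Odd (n i)) (D : ℕ) : Nb (blv n D) (domv n) ((2 * D + 1) ^ 4) where
  self y hy := mem_blv.2 ⟨0, zero_mem_box _, by rw [add_zero, rcv_eq hn hy]⟩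
  card y _ := card_image_le.trans (card_add_le.trans_eq (by rw [card_box, card_singleton, one_mul]))
  symm y hy y' _ h := by
    obtain ⟨v, hv, rfl⟩ := mem_blv.1 h
    exact mem_blv.2 ⟨-v, Op.box_neg hv, by rw [rcv_rcv_add, add_neg_cancel_right, rcv_eq hn hy]⟩

theorem mat_range (hn : ∀ i, Odd (n i)) (h : RnG l ρ G) {i j : IX n l} (hij : mat n l G i j ≠ 0) :
    bk j ∈ blv n ρ (bk i) := by
  by_contra h1
  refine hij (congrFun (h (bk i) (bv j) (fun e he => ?_) _ i.2.1.2) _)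
  refine if_neg fun h2 => h1 (mem_blv.2 ⟨yo l e.1, Op.mem_fb.1 (mem_lbox.1 he), ?_⟩)
  obtain ⟨v, hv⟩ := dv_iff.1 h2.1
  have := congrArg (yo l) (sub_eq_iff_eq_add'.1 hv)
  rw [← up_pv, yo_add_up, yo_add_up, yo_lk] at this
  rw [add_comm, this, rcv_add, rcv_eq hn (bk_mem j)]

theorem rg_mat (hn : ∀ i, Odd (n i)) (h : RnG l ρ G) {K : ℕ} (hD : K * ρ ≤ D) :
    Rg bk (blv n D) K (mat n l G) := by
  refine rg_of_nb (fun k y z => z ∈ blv n (k * ρ) y)
    (fun i => (nb_blv hn _).self _ (bk_mem i)) (fun k y i j h1 h2 => ?_) fun k hk y j h1 => ?_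
  · obtain ⟨v, hv, e⟩ := mem_blv.1 h1
    obtain ⟨w, hw, e'⟩ := mem_blv.1 (mat_range hn h h2)
    exact mem_blv.2 ⟨v + w, Nat.succ_mul k ρ ▸ add_mem_box hv hw, by
      rw [← e', ← e, rcv_rcv_add, add_assoc]⟩
  · obtain ⟨v, hv, e⟩ := mem_blv.1 h1
    exact mem_blv.2 ⟨v, box_mono ((Nat.mul_le_mul_right _ hk).trans hD) hv, e⟩

/-! ### The marks -/

theorem row_eq (hG : PG n l G) (hG' : PG n l G') {x : St}
    (h : ∀ A, PerV (fi l n) A → ∀ t ∈ lbox l, sh (up l x) (G A) t = sh (up l x) (G' A) t)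
    {i : IX n l} (hi : rcv n x = bk i) (j : IX n l) : mat n l G i j = mat n l G' i j := by
  have h1 := h _ (bv_per j) _ i.2.1.2
  obtain ⟨v, hv⟩ := rcv_spec n x
  rw [hv, hi, up_add, up_pv] at h1
  simp only [sh, ← add_assoc, (hG _ (bv_per j)).app, (hG' _ (bv_per j)).app] at h1
  exact congrFun h1 _

/-- locality -/
theorem qG_agr (hG : PG n l G) (hG' : PG n l G')
    (h : ∀ y ∈ S, ∀ v ∈ box D, ∀ A, PerV (fi l n) A → ∀ t ∈ lbox l,
      sh (up l (y + v)) (G A) t = sh (up l (y + v)) (G' A) t) :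
    qG n l D N G S = qG n l D N G' S :=
  Qd_congr (fun y hy _ j hi _ => by
    obtain ⟨v, hv, e⟩ := mem_blv.1 hi
    exact row_eq hG hG' (h y hy v hv) e j) N

/-- translations of the indices -/
def trI (hn : ∀ i, Odd (n i)) (l : ℕ) (v : St) : IX n l ≃ IX n l where
  toFun i := (⟨rcv n (i.1 + v), rcv_mem hn _⟩, i.2)
  invFun i := (⟨rcv n (i.1 + -v), rcv_mem hn _⟩, i.2)
  left_inv i := Prod.ext (Subtype.ext (by
    simp only [rcv_rcv_add, add_neg_cancel_right, rcv_eq hn i.1.2])) rfl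
  right_inv i := Prod.ext (Subtype.ext (by
    simp only [rcv_rcv_add, neg_add_cancel_right, rcv_eq hn i.1.2])) rfl

theorem lk_trI (hn : ∀ i, Odd (n i)) (v : St) (i : IX n l) : ∃ w,
    (lk i).1 + up l v = (lk (trI hn l v i)).1 + pv (fi l n) w := by
  obtain ⟨w, hw⟩ := rcv_spec n (i.1 + v)
  refine ⟨w, ?_⟩
  simp only [lk, trI, Equiv.coe_fn_mk]
  rw [← up_pv, add_assoc, add_assoc, ← up_add, ← up_add, ← hw]

theorem mat_sh (hn : ∀ i, Odd (n i)) (hG : PG n l G) (v : St)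
    (h : ∀ A, PerV (fi l n) A → G' (sh (up l v) A) = sh (up l v) (G A)) (i j : IX n l) :
    mat n l G (trI hn l v i) (trI hn l v j) = mat n l G' i j := by
  have h1 : sh (up l v) (bv (trI hn l v j)) = bv j := by
    obtain ⟨w, hw⟩ := lk_trI hn v j
    funext e
    have e1 : e.1 + up l v - (lk (trI hn l v j)).1 = e.1 - (lk j).1 + pv (fi l n) w := by
      rw [← sub_eq_iff_eq_add.2 hw]
      abel
    simp only [sh, bv, pd, e1, dv_add (dv_pv w)]
    rfl
  obtain ⟨w, hw⟩ := lk_trI hn v i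
  rw [mat_apply, mat_apply, ← h1, h _ (bv_per _), sh, hw, (hG _ (bv_per _)).app]
  rfl

/-- translation covariance -/
theorem qG_sh (hn : ∀ i, Odd (n i)) (hG : PG n l G) (v : St)
    (h : ∀ A, PerV (fi l n) A → G' (sh (up l v) A) = sh (up l v) (G A)) (hS : S ⊆ domv n) :
    qG n l D N G' S = qG n l D N G (S.image fun y => rcv n (y + v)) := by
  have h1 : ∀ x ∈ domv n, ∀ y ∈ domv n, rcv n (x + v) = rcv n (y + v) → x = y :=
    fun x hx y hy e => by
      have := congrArg (fun z => rcv n (z + -v)) e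
      simpa only [rcv_rcv_add, add_neg_cancel_right, rcv_eq hn hx, rcv_eq hn hy] using this
  refine (Qd_reindex (trI hn l v) _ (fun x hx y hy => h1 x (hS hx) y (hS hy))
    (fun y hy i => ⟨h1 _ (bk_mem i) _ (hS hy), fun e => by rw [← e]; rfl⟩) (fun y _ i => ?_)
    (fun _ _ i j _ _ => mat_sh hn hG v h i j) N).symm
  simp only [mem_blv, rcv_rcv_add]
  refine exists_congr fun w => and_congr_right fun _ => ⟨fun e => h1 _ (rcv_mem hn _) _ (bk_mem i)
    ?_, fun e => ?_⟩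
  · rw [rcv_rcv_add, add_right_comm]
    exact e
  · rw [add_right_comm, ← rcv_rcv_add, e]
    rfl

theorem qG_real (hr : ∀ A, RealF A → RealF (G A)) : (qG n l D N G S).im = 0 :=
  Qd_real (fun _ _ _ j _ _ => hr _ (bv_real j) _ _) N

theorem qG_empty : qG n l D N G ∅ = 0 := Qd_empty N

theorem qG_meas {α : Type} [MeasurableSpace α] {G : α → Fld →ₗ[ℂ] Fld}
    (h : ∀ A f k, Measurable fun a => G a A f k) : Measurable fun a => qG n l D N (G a) S :=
  Qd_measurable (fun _ _ _ _ _ _ => h _ _ _) N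

/-- near `y` the operator agrees with an operator of norm at most `q` -/
def Nr (n : Fin 4 → ℕ) (l D : ℕ) (q : ℝ) (G : Fld →ₗ[ℂ] Fld) (y : St) : Prop :=
  ∃ G' : Fld →ₗ[ℂ] Fld, PG n l G' ∧ (∀ A, PerV (fi l n) A → nrm2 n l (G' A) ≤ q * nrm2 n l A) ∧
    ∀ A, PerV (fi l n) A → (∀ f, rcv n (yo l f.1) ∉ blv n D y → A f = 0) →
      ∀ v ∈ box D, ∀ t ∈ lbox l, sh (up l (y + v)) (G A) t = sh (up l (y + v)) (G' A) t

theorem Nr.cpr (hn : ∀ i, Odd (n i)) (hG : PG n l G) (q0 : 0 ≤ q) {y : St}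
    (h : Nr n l D q G y) : ‖cpr bk (blv n D y) (mat n l G)‖ ≤ q := by
  obtain ⟨G', h1, h2, h3⟩ := h
  refine le_trans (le_of_eq ?_) ((norm_cpr (π := bk) (blv n D y) _).trans (norm_mat hn q0 h2))
  congr 1
  ext i j
  rw [cpr_apply, cpr_apply]
  split_ifs with hij
  · obtain ⟨v, hv, e⟩ := mem_blv.1 hij.1
    have h4 := h3 _ (bv_per j) (fun f hf => if_neg fun h5 => hf (by
      obtain ⟨w, hw⟩ := dv_iff.1 h5.1
      rw [sub_eq_iff_eq_add'.1 hw, ← up_pv, yo_add_up, yo_lk, rcv_add, rcv_eq hn (bk_mem j)]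
      exact hij.2)) v hv _ i.2.1.2
    obtain ⟨w, hw⟩ := rcv_spec n (y + v)
    rw [hw, e, up_add, up_pv] at h4
    simp only [sh, ← add_assoc, (hG _ (bv_per j)).app, (h1 _ (bv_per j)).app] at h4
    exact congrFun h4 _
  · rfl

theorem dG_norm (hn : ∀ i, Odd (n i)) (hG : PG n l G) (q0 : 0 ≤ q) (q1 : q ≤ 1)
    (hε : (2 * N + 1) * q ^ N ≤ ε) (hd : 6 * (4 * GD.d * LL l ^ 4 + 1) * (2 * D + 1) ^ 4 * ε ≤ 1)
    (hS : S ⊆ domv n) (h : ∀ y ∈ S, Nr n l D q G y) :
    ‖dG n l D N G S‖ ≤ kw (blv n D) (4 * GD.d * LL l ^ 4) ε S :=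
  norm_dm card_bk ((nb_blv hn D).mono hS) q0 q1 hε (by exact_mod_cast hd)
    fun y hy => (h y hy).cpr hn hG q0

/-! ### The determinant on the active links -/

theorem det_act (hn : ∀ i, Odd (n i)) {H : Set St} (hH : PerS n H) {F : Fld →ₗ[ℂ] Fld}
    (hF : ∀ A, (∀ f, Act l H f → A f = 0) → F A = A)
    (P : (alk n l H → E3) →ₗ[ℝ] (alk n l H → E3))
    (hP : ∀ z, F (fun f => cE (exa n l H 0 z f)) = fun f => cE (exa n l H 0 (P z) f)) :
    det (mat n l F) = (LinearMap.det P : ℝ) := by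
  classical
  let b := Pi.basis fun _ : alk n l H => (EuclideanSpace.basisFun (Fin GD.d) ℝ).toBasis
  let e0 : {i : IX n l // Act l H (lk i)} → Σ _ : alk n l H, Fin GD.d := fun i =>
    ⟨⟨lk i.1, mem_alk.2 ⟨lk_mem hn _, i.2⟩⟩, i.1.2.2⟩
  have he : Function.Bijective e0 := by
    refine ⟨fun i j h => Subtype.ext (ix_ext (congrArg (fun a => a.1.1) h)
      (congrArg (fun a => a.2) h)), fun a => ?_⟩
    have h1 : lk (ixo (l := l) hn a.1.1 a.2) = a.1.1 := by
      simp only [lk, ixo, rcv_eq hn ((mem_fine hn).1 (mem_alk.1 a.1.2).1), sub_add_cancel]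
    exact ⟨⟨ixo hn a.1.1 a.2, h1.symm ▸ (mem_alk.1 a.1.2).2⟩,
      Sigma.ext (Subtype.ext h1) HEq.rfl⟩
  have h1 : ∀ j : {i : IX n l // Act l H (lk i)},
      bv j.1 = fun f => cE (exa n l H 0 (b (e0 j)) f) := fun j => by
    refine vec_inj hn (bv_per _) (exa_per.map cE) (funext fun i => ?_)
    rw [vec_apply, vec_apply, bv_lk hn]
    by_cases hi : Act l H (lk i)
    · rw [show lk i = (e0 ⟨i, hi⟩).1.1 from rfl, exa_coe hn, Pi.basis_apply]
      by_cases h2 : (e0 ⟨i, hi⟩).1 = (e0 j).1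
      · rw [h2, Pi.single_eq_same]
        have h3 : i = j.1 ↔ i.2.2 = j.1.2.2 :=
          ⟨fun h => by rw [h], ix_ext (congrArg Subtype.val h2)⟩
        by_cases h4 : i.2.2 = j.1.2.2 <;> simp [cE, h3, h4, e0]
      · rw [Pi.single_eq_of_ne h2, if_neg fun h => h2 (by simp only [e0, h]), cE_zero]
        rfl
    · rw [exa_not hn hH hi, cE_zero, if_neg fun h : i = j.1 => hi (h ▸ j.2)]
      rfl
  rw [twoBlockTriangular_det _ (fun i => Act l H (lk i)) fun i hi j hj => by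
    rw [mat_apply, h1 ⟨j, hj⟩, hP]
    simp only [exa_not hn hH hi, cE_zero, Pi.zero_apply]]
  have h2 : toSquareBlockProp (mat n l F) (fun i => ¬ Act l H (lk i)) = 1 := by
    ext i j
    rw [toSquareBlockProp_def, of_apply, mat_apply, hF (bv j.1) fun f hf => if_neg fun h => j.2 (by
      obtain ⟨w, hw⟩ := dv_iff.1 h.1
      rwa [← hH.act _ w, ← sub_eq_iff_eq_add'.1 hw, ← h.2]), bv_lk hn, Matrix.one_apply]
    simp only [Subtype.ext_iff]
  rw [h2, ← mul_one ((LinearMap.det P : ℝ) : ℂ), ← LinearMap.det_toMatrix b, ← det_ofReal,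
    ← det_submatrix_equiv_self (Equiv.ofBijective e0 he)]
  have hd : ∀ (ι : Type) (d d' : DecidableEq ι) [Fintype ι],
      @det ι d _ ℂ _ (@OfNat.ofNat _ 1 (@One.toOfNat1 _ (@Matrix.one ι ℂ d' _ _))) = 1 :=
    fun ι d d' _ => by
      obtain rfl := Subsingleton.elim d d'
      exact det_one
  refine congrArg₂ _ ?_ (hd _ _ _)
  congr 1
  ext i j
  rw [toSquareBlockProp_def, of_apply, mat_apply, h1, hP, show lk i.1 = (e0 i).1.1 from rfl]
  simp only [exa_coe hn]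
  simp [LinearMap.toMatrix_apply, b, cE, e0]

/-- the determinant of the preconditioner as a product of local factors -/
theorem det_G (hn : ∀ i, Odd (n i)) {H : Set St} (hH : PerS n H) (hG : PG n l G)
    (hR : RnG l ρ G) (hr : ∀ A, RealF A → RealF (G A))
    (hs : ∀ A A', PerV (fi l n) A → PerV (fi l n) A' → bp n l A' (G A) = bp n l (G A') A)
    (h0 : ∀ A, (∀ f, Act l H f → A f = 0) → G A = 0) (q0 : 0 ≤ q) (q1 : q < 1)
    (hq : ∀ A, PerV (fi l n) A → nrm2 n l (G A) ≤ q * nrm2 n l A) (N1 : 1 ≤ N)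
    (hε : (2 * N + 1) * q ^ N ≤ ε) (hd : (2 * D + 1) ^ 4 * ε ≤ 1 / 2) (hD : (2 * N + 1) * ρ ≤ D)
    (P : (alk n l H → E3) →ₗ[ℝ] (alk n l H → E3))
    (hP : ∀ z, aeval G (pP N) (fun f => cE (exa n l H 0 z f)) =
      fun f => cE (exa n l H 0 (P z) f)) :
    ((|LinearMap.det P| : ℝ) : ℂ) = Complex.exp (∑ y ∈ domv n, trB n l y (aeval G (pQ N)) +
      ∑ S ∈ (domv n).powerset, qG n l D N G S) := by
  have h1 := det_exp (herm_mat hn hr hs) (norm_mat hn q0 hq) q1 bk_mem (nb_blv hn D) card_bk N1 hε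
    (by exact_mod_cast hd) (rg_mat hn hR hD)
  rw [← mat_aeval hn hG, ← mat_aeval hn hG, trace_mat, det_act hn hH (fun A hA => ?_) P hP,
    Complex.norm_real] at h1
  · exact h1
  · rw [← divX_mul_X_add (pP N), map_add, map_mul, aeval_X, aeval_C, LinearMap.add_apply,
      Module.End.mul_apply, h0 A hA, map_zero, zero_add]
    simp [pP, coeff_monomial, bin]

end Pool.Agent.Lib.MP_7f377f_mp.RG.Q4.Loc
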