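import Pool.Agent.Lib.MP_7f377f_mp.G.Q4MeasInv

/-! Reduction of a step to the tree gauge and to the corrected block field. -/

noncomputable section

set_option linter.unusedSectionVars false
variable [Pool.Agent.Lib.MP_7f377f_mp.GD]

namespace Pool.Agent.Lib.MP_7f377f_mp.RG.Q4

open Finset Ms MeasureTheory Measure
open scoped ENNReal

/-- the tree gauge of a field: trivial on the trees -/
def trz (l : ℕ) (U : Conf) : Conf := fun f => if tree l f then 1 else U f

namespace Mx

theorem cont_trz (l : ℕ) : Continuous (trz l) := continuous_pi fun f => by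
  unfold trz
  split_ifs <;> fun_prop

theorem tree_rl (l n : ℕ) (e : Lk) : tree l (rl (LL l * n) e) ↔ tree l e := by
  obtain ⟨k, -, hk⟩ := (cg_rc (LL l * n) e.1).ex
  rw [rl, hk, tree_add_up]

theorem map_tree (l : ℕ) {n : ℕ} (hn : Odd n) :
    PP.map (fun U => gauge Inv.inv (hb l (pc (LL l * n) U)) (pc (LL l * n) U)) =
      PP.map fun U => trz l (pc (LL l * n) U) := by
  have hN : Odd (LL l * n) := Odd.mul ⟨l, rfl⟩ hn
  set D := (lbox (LL l * n / 2)).filter fun e => ¬ tree l e with hD
  have hm : ∀ e, ¬ tree l e → rl (LL l * n) e ∈ D := fun e h =>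
    mem_filter.2 ⟨mem_lbox.2 (rc_box hN _), fun h' => h ((tree_rl l n e).1 h')⟩
  set E : (D → S3) → Conf := fun w e => if h : tree l e then 1 else w ⟨_, hm e h⟩ with hE
  have mE : Measurable E := measurable_pi_lambda _ fun e => by
    simp only [hE]
    split_ifs <;> fun_prop
  have hc : ∀ x, Continuous fun U : Conf => hb l (pc (LL l * n) U) x := fun x =>
    (cont_hb l x).comp (cont_pc _)
  have h1 := mp_skew (ι := D) Subtype.val_injective
    (a := fun U f => hb l (pc (LL l * n) U) f.1.1)
    (b := fun U f => (hb l (pc (LL l * n) U) (f.1.1 + un f.1.2))⁻¹)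
    (continuous_pi fun f => hc _).measurable (continuous_pi fun f => (hc _).inv).measurable
    fun U U' h => by
      have : ∀ x, hb l (pc (LL l * n) U) x = hb l (pc (LL l * n) U') x := by
        refine hb_congr fun e he => h _ ?_
        rintro ⟨f, hf⟩
        exact (mem_filter.1 f.2).2 (hf ▸ (tree_rl l n e).2 he)
      simp only [this, and_self]
  have h2 := mp_skew (ι := D) Subtype.val_injective (a := 1) (b := 1) measurable_const
    measurable_const fun _ _ _ => ⟨rfl, rfl⟩
  have := congrArg (Measure.map E) (h1.map_eq.trans h2.map_eq.symm)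
  rw [map_map mE h1.measurable, map_map mE h2.measurable] at this
  convert this using 2 <;> funext U e <;> simp only [hE, Function.comp, trz]
  · have hP := hb_per (l := l) (PL_pc (LL l * n) U)
    split_ifs with h
    · exact hb_tree _ h
    · rw [gauge, ← hP _ _ (cg_rc _ e.1), ← hP _ _ ((cg_rc _ e.1).add _)]
      rfl
  · split_ifs
    · rfl
    · simp [pc, rl]

theorem Hk_move (a : ℝ) (n : ℕ) (u : St → S3) (W B : Conf) :
    Hk a n W (gauge Inv.inv (fun y => (u y)⁻¹) B) = Hk a n (gauge Inv.inv u W) B := by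
  rw [← Hk_gauge a n u]
  congr 1
  funext b
  simp only [gauge]
  group

theorem gauge_gauge (u v : St → S3) (W : Conf) :
    gauge Inv.inv u (gauge Inv.inv v W) = gauge Inv.inv (fun y => u y * v y) W := by
  funext b
  simp only [gauge]
  group

/-- the integrand at a gauge transform of the coarse field -/
def KK (l : ℕ) (a : ℝ) (n : ℕ) (f : Conf → ℂ) (W : Conf) (γ : St → S3) (w : Conf × (St → Om)) : ℂ :=
  Itg (blk l) l a n f (gauge Inv.inv (pcs n γ) W) (pc (LL l * n) w.1, pcs n w.2)

/-- the corrected gauge transformation -/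
def vv (l n : ℕ) (U : Conf) (γ : St → S3) : St → S3 :=
  fun y => uh l (sh (up l y) (pc (LL l * n) U)) * γ y

theorem meas_KK (l : ℕ) (a : ℝ) (n : ℕ) {f : Conf → ℂ} (hf : Measurable f) (W : Conf) :
    Measurable fun z : (St → S3) × Conf × (St → Om) => KK l a n f W z.1 z.2 := by
  have mg : Measurable fun γ : St → S3 => gauge Inv.inv (pcs n γ) W :=
    measurable_pi_lambda _ fun b => by unfold gauge pcs; fun_prop
  have := (meas_Itg l a n (measurable_blk l) hf).comp (mg.prodMap (meas_pp (LL l * n) n))
  simpa only [Function.comp_def, Prod.map, KK] using this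

theorem meas_vv (l n : ℕ) :
    Measurable fun z : (St → S3) × Conf × (St → Om) => vv l n z.2.1 z.1 := by
  refine measurable_pi_lambda _ fun y => Measurable.mul ?_ (by fun_prop)
  have h0 : Measurable fun z : (St → S3) × Conf × (St → Om) => z.2.1 := by fun_prop
  have := (meas_uh l).comp (((cont_sh (up l y)).comp (cont_pc (LL l * n))).measurable.comp h0)
  simpa only [Function.comp_def] using this

theorem int_KK {l n : ℕ} (a : ℝ) {f : Conf → ℂ} (h : GI (LL l * n) f) (W : Conf) (γ : St → S3) :
    ∫ w, Itg (blkN l) l a n f W (pc (LL l * n) w.1, pcs n w.2) ∂PP.prod (OO l) =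
      ∫ w, KK l a n f W (vv l n w.1 γ) w ∂PP.prod (OO l) := by
  have hu : Ms.PS (LL l * n) fun x => (pcs n γ (yo l x))⁻¹ := fun x y h =>
    congrArg _ (PS_pcs n γ _ _ h.yo)
  rw [← int_rel (meas_Itg' l a n (measurable_blkN l) h.1 _)
    ((mp_gauge fun x => (pcs n γ (yo l x))⁻¹).measurable.comp (cont_pc _).measurable) (meas_pcs n)
    (map_gauge hu) rfl]
  refine integral_congr_ae (.of_forall fun w => ?_)
  simp only [KK, Itg, Function.comp, h.2.2 _ _ (PS_iff.2 hu) (per_pc _ _), ker_eq, Wt_gauge,
    (blk_gauge _ _ _ _).2.1, yo_up]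
  have e : pcs n (vv l n w.1 γ) =
      fun y => uh l (sh (up l y) (pc (LL l * n) w.1)) * pcs n γ y := by
    funext y
    simp only [pcs, vv, sh_cg (PL_pc _ _) (cg_up (cg_rc n y))]
  rw [Hk_move, blkN, Hk_move, gauge_gauge, e]

theorem int_vv (l n : ℕ) (U : Conf) {F : (St → S3) → ℂ} (hF : Measurable F) :
    ∫ γ, F (vv l n U γ) ∂(infinitePi fun _ => haar) = ∫ γ, F γ ∂(infinitePi fun _ => haar) := by
  have hp : ∀ y, MeasurePreserving (fun g => uh l (sh (up l y) (pc (LL l * n) U)) * g) haar haar :=
    fun y => measurePreserving_mul_left haar _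
  have e := infinitePi_map_pi (fun _ : St => haar) fun y => (hp y).measurable
  simp only [fun y => (hp y).map_eq] at e
  conv_rhs => rw [← e]
  exact (integral_map (measurable_pi_lambda _ fun y =>
    (hp y).measurable.comp (measurable_pi_apply y)).aemeasurable hF.aestronglyMeasurable).symm

/-- the block field may be corrected by a covariant gauge transformation -/
theorem TT_blkN {l n : ℕ} {a : ℝ} (ha : 0 ≤ a) (hn : Odd n) {f : Conf → ℂ} (h : GI (LL l * n) f)
    (W : Conf) (hW : Per n W) : TT l a n f W =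
      ∫ v, Itg (blkN l) l a n f W (pc (LL l * n) v.1, pcs n v.2) ∂PP.prod (OO l) := by
  obtain ⟨M, hM⟩ := h.2.1
  obtain ⟨C, -, hC⟩ := Itg_bd l a n
  have mK := meas_KK l a n h.1 W
  have mK' := mK.comp ((meas_vv l n).prodMk measurable_snd)
  simp only [Function.comp_def] at mK'
  have hb : ∀ γ w, ‖KK l a n f W γ w‖ ≤ M * C := fun γ w => hC _ _ M _ _ hM
  have e3 : ∀ γ, ∫ w, KK l a n f W γ w ∂PP.prod (OO l) = TT l a n f W := fun γ =>
    (h.step ha hn).2.2 _ _ (PS_iff.2 (PS_pcs n γ)) hW
  have e4 := integral_integral_swap (f := KK l a n f W) (μ := infinitePi fun _ => haar)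
    (ν := PP.prod (OO l)) (.of_bound mK.aestronglyMeasurable _ (.of_forall fun z => hb _ _))
  have e5 := integral_integral_swap (f := fun γ w => KK l a n f W (vv l n w.1 γ) w)
    (μ := infinitePi fun _ => haar)
    (ν := PP.prod (OO l)) (.of_bound mK'.aestronglyMeasurable _ (.of_forall fun z => hb _ _))
  have e6 : ∀ w : Conf × (St → Om), _ := fun w => int_vv l n w.1 (F := fun γ => KK l a n f W γ w)
    (by simpa only [Function.comp_def] using mK.comp (measurable_prodMk_right (y := w)))
  simp only [e6, ← e4, e3, ← int_KK a h W, integral_const, probReal_univ, one_smul] at e5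
  exact e5.symm

end Mx

open Mx in
/-- reduction to the tree gauge and to the corrected block field -/
theorem GI.tree {l n : ℕ} {a : ℝ} (ha : 0 ≤ a) (hn : Odd n) {f : Conf → ℂ} (h : GI (LL l * n) f)
    (W : Conf) (hW : Per n W) : TT l a n f W = ∫ v : Conf × (St → Om),
      f (trz l (pc (LL l * n) v.1)) *
        (ker (blkN l) l a n W (trz l (pc (LL l * n) v.1)) (pcs n v.2) : ℝ) ∂(PP.prod (OO l)) := by
  have hG := meas_Itg' l a n (measurable_blkN l) h.1 W
  have m1 : Measurable fun U : Conf => gauge Inv.inv (hb l (pc (LL l * n) U)) (pc (LL l * n) U) := by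
    have hc : ∀ x, Continuous fun U : Conf => hb l (pc (LL l * n) U) x := fun x =>
      (cont_hb l x).comp (cont_pc _)
    exact (continuous_pi fun e => ((hc _).mul (continuous_apply _)).mul (hc _).inv).measurable
  have m2 := ((cont_trz l).comp (cont_pc (LL l * n))).measurable
  have e1 := integral_map (μ := PP.prod (OO l)) (m1.prodMap (meas_pcs n)).aemeasurable
    hG.aestronglyMeasurable
  have e2 := integral_map (μ := PP.prod (OO l)) (m2.prodMap (meas_pcs n)).aemeasurable
    hG.aestronglyMeasurable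
  rw [← map_prod_map _ _ m1 (meas_pcs n), map_tree l hn] at e1
  rw [← map_prod_map _ _ m2 (meas_pcs n)] at e2
  rw [TT_blkN ha hn h W hW]
  refine Eq.trans ?_ (e1.symm.trans e2)
  refine integral_congr_ae (.of_forall fun v => ?_)
  simp only [Itg, Prod.map, h.2.2 _ _ (PS_iff.2 (hb_per (PL_pc _ _))) (per_pc _ _), ker_eq,
    Wt_gauge, (blk_gauge _ _ _ _).2.1, gauge_one (hb_up l _)]

end Pool.Agent.Lib.MP_7f377f_mp.RG.Q4
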