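import Pool.Agent.Lib.MP_7f377f_mp.G.Q4CalmD
import Pool.Agent.Lib.MP_7f377f_mp.G.Q4C3

/-! The weights of Mayer marks and pair marks as Gaussian integrals. -/

noncomputable section

set_option linter.unusedSectionVars false
variable [Pool.Agent.Lib.MP_7f377f_mp.GD]

namespace Pool.Agent.Lib.MP_7f377f_mp.RG.Q4

open Finset MeasureTheory Polynomial
open scoped Classical

attribute [local irreducible] box lbox

namespace Cm

variable {S : Sd} {b : ℝ} {W : Cf} {U : Conf} {z z' : Lk → E3} {y y' u : St} {ψ : Lx} {K : Ac}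
  {O : Finset Ob}

/-- the fluctuation variable without its values on the trees -/
def zt (l : ℕ) (z : Lk → E3) : Lk → E3 := fun f => if tree l f then 0 else z f

theorem pol0_zt (p : ℂ[X]) (W : Cf) (z : Lk → E3) :
    S.pol0 p W (zc S.ζ (zt S.l z)) = S.pol0 p W (zc S.ζ z) := by
  rw [Td.pol0, Td.pol0, ← polK_pj, ← polK_pj (A := zc S.ζ z)]
  congr 1
  funext f
  simp only [pj]
  split_ifs with h
  · simp only [zc, zt, if_neg h.1]
  · rfl

theorem v0_zt (W : Cf) (z : Lk → E3) : S.v0 W (zt S.l z) = S.v0 W z := by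
  rw [Sd.v0, Sd.P0, pol0_zt, Sd.v0, Sd.P0]

theorem s1_zt (W : Cf) (z : Lk → E3) : S.s1 W (zt S.l z) = S.s1 W z := by
  rw [Sd.s1, v0_zt, Sd.s1]

theorem uu_zt (W : Cf) (z : Lk → E3) : uu S W (zt S.l z) = uu S W z :=
  sum_congr rfl fun f _ => by
    rw [pol0_zt]
    by_cases h : tree S.l f
    · rw [Td.pol0_tree h, dot_zero, dot_zero]
    · simp only [zc, zt, if_neg h]

theorem fm_zt (ψ : Lx) (W : Cf) (z : Lk → E3) : S.fm ψ W (zt S.l z) = S.fm ψ W z := by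
  simp only [Sd.fm, sT_eq, s1_zt, uu_zt, gg, Sd.sP, Sd.U0, v0_zt]

theorem mp_sh {ζ : ℝ} (h : 0 < ζ) (x : St) : MeasurePreserving (sh x) (nuI ζ) (nuI ζ) := by
  have := Smo.nu_prob h
  refine ⟨measurable_pi_lambda _ fun _ => measurable_pi_apply _, ?_⟩
  exact Measure.map_infinitePi_infinitePi_of_inj (P := fun _ : Lk => nu ζ)
    (f := fun e : Lk => (e.1 + x, e.2)) fun e e' h => by
      simpa only [Prod.ext_iff, add_left_inj] using h

theorem int_sh (x : St) {f : (Lk → E3) → ℂ} (hf : Measurable f) :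
    ∫ z, f (sh x z) ∂nuI S.ζ = ∫ z, f z ∂nuI S.ζ := by
  rw [← integral_map_of_stronglyMeasurable (mp_sh (ζ := S.ζ) S.Q0 x).measurable
    hf.stronglyMeasurable, (mp_sh (ζ := S.ζ) S.Q0 x).map_eq]

theorem int_pc (x : St) {f : (Lk → E3) → ℂ} (hf : Measurable f) :
    ∫ z, f (sh x (pc S.nf z)) ∂nuI S.ζ = ∫ z, f (pc S.nf z) ∂nuI S.ζ :=
  Cov.int_rot (ζ := S.ζ) S.Q0 S.nf x (T := fun _ => .refl _ _) (fun _ => rfl) hf

theorem In.mono {O' : Finset Ob} (i : S.In U O) (h : us S.sp O' ⊆ us S.sp O) : S.In U O' :=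
  fun y hy => i y (mem_filter.2 ⟨h (mem_filter.1 hy).1, (mem_filter.1 hy).2.trans h⟩)

theorem near_us {o : Ob} (ho : o ∈ O) (hy : rc S.n y ∈ S.bs o) {x : St} {R : ℕ} (hx : x ∈ box R)
    (hR : R ≤ 13 * S.D0) : rc S.n (x + y) ∈ us S.sp O :=
  mem_biUnion.2 ⟨o, ho, Cov.rc_mem_tb hy (box_mono hR hx)⟩

/-- the block field is small near the sites of an object -/
theorem In.fq (hU : Per S.n U) (i : S.In U O) {o : Ob} (ho : o ∈ O) (hy : rc S.n y ∈ S.bs o) :
    Fq (S.p'.R + 1) S.p'.ε (sh y U) := by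
  have d := Sd.D1 S.toTd
  have := i (rc S.n y) (mem_filter.2 ⟨by
    simpa only [zero_add] using near_us ho hy (zero_mem_box 0) (Nat.zero_le _), fun w hw => by
      obtain ⟨w, h1, rfl⟩ := mem_image.1 hw
      obtain ⟨_, h2, b, hb, rfl⟩ := mem_add.1 h1
      rw [mem_singleton.1 h2, rc_add_rc, add_comm]
      exact near_us ho hy hb (by rw [Sd.R_eq]; omega)⟩)
  obtain ⟨v, hv⟩ := rc_exists S.n y
  rwa [hv, SX.per_sh hU] at this

/-- the Mayer mark of the block `y` -/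
def Fy (S : Sd) (ψ : Lx) (U : Conf) (y : St) (z : Lk → E3) : ℂ :=
  S.fm (S.ψy ψ y) (sh y (cC U)) (sh (up S.l y) z)

namespace Hp

variable (h : Hp S)
include h

theorem s1_meas' (W : Cf) : Measurable (S.s1 W) := by
  have c : ∀ e, MQ fun _ : Lk → E3 => W e := fun _ => mq_const _
  have v := Sd.v0_meas h.ok c measurable_id
  exact ((Nt.rem3_meas h.ok c v 0).const_mul _).add (Finset.measurable_fun_sum _ fun f _ =>
    meas_lj.comp ((v.eval (a := f)).const_add _))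

theorem f0_meas' (W : Cf) : Measurable (S.f0 W) :=
  (((h.s1_meas' W).neg.add_const _).cexp).sub_const _

theorem fm_meas' (hψ : PU S.p b ψ) (W : Cf) : Measurable (S.fm ψ W) := by
  have c : ∀ e, MQ fun _ : Lk → E3 => W e := fun _ => mq_const _
  have v := Sd.v0_meas h.ok c measurable_id
  have z := meas_zc S.ζ (measurable_id (α := Lk → E3))
  have p := Td.pol0_meas (p := pU S.N) h.ok c z
  have t : Measurable (S.sT W) :=
    (((Nt.gv_meas h.ok c measurable_const v 0).add_const _).const_mul _).sub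
      ((Finset.measurable_fun_sum _ fun f _ => Finset.measurable_fun_sum _ fun k _ =>
        z.eval.eval.mul p.eval.eval).div_const _)
  exact ((((((h.s1_meas' W).add t).add (h.sP_meas hψ c measurable_id)).neg.add_const _).add_const
    _).cexp).sub_const _

theorem s1_agr' (e : Agr (fb S.l S.D0) z z') : S.s1 W z = S.s1 W z' :=
  s1_agr h.ok (fun _ _ => rfl) (e.mono (Op.fb_mono _ (by have := h.nu.lens; omega)))

theorem fm_agr (e : Agr (fb S.l S.D0) z z') : S.fm ψ W z = S.fm ψ W z' := by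
  have l := h.nu.lens
  have e1 : Agr (fb S.l (4 * S.N + 2)) z z' := e.mono (Op.fb_mono _ (by omega))
  have e2 : S.sP ψ W z = S.sP ψ W z' := sum_congr rfl fun x hx => by
    rw [Bx_agr_at (Sd.U0_agr h.ok (a := S.D0 / 4) (fun _ _ => rfl)
      (e.mono (Op.fb_mono _ (by omega)))) hx h.R_fb]
  rw [Sd.fm, Sd.fm, sT_eq, sT_eq, h.s1_agr' e, gg_agr h.ok (fun _ _ => rfl) e1,
    uu_agr h.ok (fun _ _ => rfl) e1, e2]

theorem fm_dep (e : ∀ f, ¬ tree S.l f → yo S.l f.1 ∈ box S.D0 → z f = z' f) :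
    S.fm ψ W z = S.fm ψ W z' := by
  rw [← fm_zt, ← fm_zt ψ W z']
  refine h.fm_agr fun f hf => ?_
  simp only [zt]
  split_ifs with ht
  exacts [rfl, e f ht (Op.mem_fb.1 (mem_lbox.1 hf))]

theorem Fy_meas (hψ : PU S.p b ψ) (U : Conf) (y : St) : Measurable (Fy S ψ U y) :=
  (h.fm_meas' (pu_tr hψ _ _) _).comp (measurable_pi_lambda _ fun _ => measurable_pi_apply _)

theorem Fy_dep (e : ∀ f, ¬ tree S.l f → ∀ x ∈ box S.D0, yo S.l f.1 = x + y → z f = z' f) :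
    Fy S ψ U y z = Fy S ψ U y z' :=
  h.fm_dep fun _ ht hf => e _ (fun hc => ht ((Cov.tree_up _ _ _).1 hc)) _ hf (yo_add_up _ _ _)

theorem pc_D (z : Lk → E3) {R : ℕ} (hR : R ≤ 400 * S.D0) : Agr (fb S.l R) (pc S.nf z) z :=
  Cov.pc_agr h.nu.ok.odd_nf (Sd.nf_half h.nu.ok.odd ▸ Op.fb_mono _
    (by have := h.nu.lens; omega)) z

/-- families of marks -/
theorem wO_marks (h0 : O.toLeft = ∅) {Φ : (Lk → E3) → ℂ} (m : Measurable Φ)
    (d : DependsOn Φ {f | ¬ tree S.l f ∧ rc S.n (yo S.l f.1) ∈ us S.sp O})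
    (e : ∀ v, ∏ m ∈ O.toRight, S.jm ψ K U v ∅ m = Φ (vz S.l v)) :
    S.wO ψ K U O = ∫ z, Φ (pc S.nf z) ∂nuI S.ζ := by
  have z0 := S.Q0.trans_le h.nu.ok.ζ_zm
  have := Smo.nu_prob z0
  have e1 : olds O = ∅ := by rw [olds, h0]; rfl
  rw [Sd.wO_free (by rw [CC, e1]; rfl) (by rw [Wk, h0]; rfl) (by rw [Dbl, h0]; rfl)]
  simp only [e1, coe_empty, Set.pairwiseDisjoint_empty, if_true, prod_empty, one_mul, e]
  rw [calm_int h.nu.ok.odd (ζ := S.ζ) S.Q0 (Cov.gs_nu z0 h.nu.ok.ζ_zm) m d, ← mul_assoc,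
    ← Complex.ofReal_mul, ← Sd.p0,
    inv_mul_cancel₀ (pow_pos (Sd.p0_pos h.fo) _).ne', Complex.ofReal_one, one_mul, Sd.nf]

theorem wO_oP : S.wO ψ K U {oP y u} = Complex.exp (S.c2 u / 2) - 1 := by
  have := nuI_prob (ζ := S.ζ) S.Q0
  rw [h.wO_marks (Φ := fun _ => Complex.exp (S.c2 u / 2) - 1) rfl measurable_const
    (fun _ _ _ => rfl) fun v => by
      rw [show ({oP y u} : Finset Ob).toRight = {.inr (.inl (y, u))} by ext; simp [oP],
        prod_singleton, Sd.jm]]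
  simp

theorem Fy_us {o : Ob} (ho : o ∈ O) (hy : rc S.n y ∈ S.bs o) :
    DependsOn (Fy S ψ U y) {f | ¬ tree S.l f ∧ rc S.n (yo S.l f.1) ∈ us S.sp O} :=
  fun _ _ e => h.Fy_dep fun f ht x hx e1 => e f ⟨ht, e1 ▸ near_us ho hy hx (by omega)⟩

theorem wO_oM' (hψ : PU S.p b ψ) (hy : y ∈ S.Λ') :
    S.wO ψ K U {oM y} = ∫ z, Fy S ψ U y (pc S.nf z) ∂nuI S.ζ :=
  h.wO_marks rfl (h.Fy_meas hψ U y) (h.Fy_us (mem_singleton_self _)
    ((rc_eq h.nu.ok.odd hy).symm ▸ mem_singleton_self _)) fun v => by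
      rw [show ({oM y} : Finset Ob).toRight = {.inl y} by ext; simp [oM], prod_singleton, Sd.jm,
        if_neg (notMem_empty _), Fy]

/-- the weight of one Mayer mark -/
theorem wO_oM (hψ : PU S.p b ψ) (hy : y ∈ S.Λ') :
    S.wO ψ K U {oM y} = ∫ z, S.fm (S.ψy ψ y) (cC (sh y U)) z ∂nuI S.ζ := by
  rw [h.wO_oM' hψ hy]
  refine (int_pc (up S.l y) (h.fm_meas' (pu_tr hψ _ _) _)).trans
    (integral_congr_ae (ae_of_all _ fun z => h.fm_agr (h.pc_D z (by omega))))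

theorem wO_oM2 (hψ : PU S.p b ψ) (hy : y ∈ S.Λ') (hy' : y' ∈ S.Λ') (ne : y ≠ y') :
    S.wO ψ K U {oM y, oM y'} =
      ∫ z, Fy S ψ U y (pc S.nf z) * Fy S ψ U y' (pc S.nf z) ∂nuI S.ζ :=
  h.wO_marks (Φ := fun z => Fy S ψ U y z * Fy S ψ U y' z) (by ext; simp [oM])
    ((h.Fy_meas hψ U y).mul (h.Fy_meas hψ U y'))
    (fun _ _ e => congrArg₂ (· * ·)
      (h.Fy_us (mem_insert_self _ _) ((rc_eq h.nu.ok.odd hy).symm ▸ mem_singleton_self _) e)
      (h.Fy_us (mem_insert_of_mem (mem_singleton_self _))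
        ((rc_eq h.nu.ok.odd hy').symm ▸ mem_singleton_self _) e)) fun v => by
      rw [show ({oM y, oM y'} : Finset Ob).toRight = {.inl y, .inl y'} by ext; simp [oM],
        prod_pair (by simpa using ne), Sd.jm, Sd.jm, if_neg (notMem_empty _),
        if_neg (notMem_empty _), Fy, Fy]

/-- distant Mayer marks are independent -/
theorem wO_far (hψ : PU S.p b ψ) (hy : y ∈ S.Λ') (hy' : y' ∈ S.Λ')
    (far : ¬ nearT S.n (2 * S.D0) y y') :
    S.wO ψ K U {oM y, oM y'} = S.wO ψ K U {oM y} * S.wO ψ K U {oM y'} := by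
  have := Smo.nu_prob (ζ := S.ζ) S.Q0
  have d : ∀ y, DependsOn (fun z => Fy S ψ U y (pc S.nf z))
      {f | nearT S.n S.D0 y (yo S.l f.1)} := fun y _ _ e => h.Fy_dep fun f _ x hx e1 => e _ (by
    rw [Set.mem_ofPred, Sd.nf, Cov.yo_rc h.nu.ok.odd, nearT_rc_right, e1, add_comm]
    exact nearT_add hx)
  rw [h.wO_oM2 hψ hy hy' fun e => far (e ▸ nearT.refl _ _ _), h.wO_oM' hψ hy, h.wO_oM' hψ hy']
  exact Mx.int_indep ((h.Fy_meas hψ U y).comp (Cov.meas_pc _))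
    ((h.Fy_meas hψ U y').comp (Cov.meas_pc _)) (d y) (d y') (Set.disjoint_left.2 fun f h1 h2 =>
      far (two_mul S.D0 ▸ nearT.trans h1 (nearT.symm h2)))

/-- the weight of two Mayer marks which are close -/
theorem wO_near (hψ : PU S.p b ψ) (hU : Per S.n U) (hy : y ∈ S.Λ') (hu : u ∈ S.prs) :
    S.wO ψ K U {oM y, oM (rc S.n (y + u))} = ∫ z, S.fm (S.ψy ψ y) (cC (sh y U)) z *
      S.fm (S.ψy ψ (rc S.n (y + u))) (cC (sh u (sh y U))) (sh (up S.l u) z) ∂nuI S.ζ := by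
  have l := h.nu.lens
  obtain ⟨u0, u1⟩ := mem_erase.1 hu
  have m1 := h.fm_meas' (pu_tr hψ S.nf (up S.l y)) (cC (sh y U))
  have m2 := (h.fm_meas' (pu_tr hψ S.nf (up S.l (rc S.n (y + u)))) (cC (sh u (sh y U)))).comp
    (mp_sh (ζ := S.ζ) S.Q0 (up S.l u)).measurable
  rw [h.wO_oM2 hψ hy (rc_mem h.nu.ok.odd _) fun e => u0 ?_]
  · refine Eq.trans (integral_congr_ae (ae_of_all _ fun z => ?_)) ((int_pc (up S.l y)
      (m1.mul m2)).trans (integral_congr_ae (ae_of_all _ fun z => congrArg₂ (· * ·)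
        (h.fm_agr (h.pc_D z (by omega))) (h.fm_agr fun e he => ?_))))
    · obtain ⟨v, hv⟩ := rc_exists S.n (y + u)
      have p : sh (up S.l (rc S.n (y + u))) (pc S.nf z) = sh (up S.l (y + u)) (pc S.nf z) := by
        rw [hv, up_add, show up S.l ((S.n : ℤ) • v) = (S.nf : ℤ) • v by
          rw [up, Sd.nf, smul_smul, Nat.cast_mul], SX.per_sh (Mx.per_pc _ _)]
      simp only [Fy, Function.comp, Pi.mul_apply, p, sh_cC, sh_sh, ← up_add, add_comm u]
      rw [show sh (rc S.n (y + u)) U = sh (y + u) U by rw [hv, SX.per_sh hU]]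
      rfl
    · exact h.pc_D z (R := S.D0 + 2 * S.D0) (by omega) _ (mem_lbox.2 (Op.mem_fb.2
        (yo_add_up _ _ _ ▸ add_mem_box (Op.mem_fb.1 (mem_lbox.1 he)) u1)))
  · have : rc S.n (0 + y) = rc S.n (u + y) := by
      rw [zero_add, rc_eq h.nu.ok.odd hy, add_comm, ← e]
    rw [← nearT_zero, nearT_add_right, nearT_zero, rc_eq h.nu.ok.odd (zero_mem_box _),
      rc_eq h.nu.ok.odd (box_mono (by omega) u1)] at this
    exact this.symm

theorem c2_neg (u : St) : S.c2 (-u) = S.c2 u := by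
  have m := h.f0_meas' 1
  rw [Sd.c2, Sd.c2, ← int_sh (up S.l u) (f := fun z => S.f0 1 z * S.f0 1 (sh (up S.l (-u)) z))
    (m.mul (m.comp (mp_sh (ζ := S.ζ) S.Q0 _).measurable))]
  simp only [sh_sh, up_neg, neg_add_cancel, sh_zero, mul_comm]

end Hp

end Cm

end Pool.Agent.Lib.MP_7f377f_mp.RG.Q4
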