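import Pool.Agent.Lib.MP_7f377f_mp.G.Q4FinB
import Pool.Agent.Lib.MP_7f377f_mp.G.Q4Free

/-! Expectations, symmetry of the plaquette laws and upper bounds for the Haar measure. -/

noncomputable section

set_option linter.unusedSectionVars false
variable [Pool.Agent.Lib.MP_7f377f_mp.GD]

namespace Pool.Agent.Lib.MP_7f377f_mp.RG.Q4.En

open MeasureTheory Measure Finset YM4 Ms Fi
open scoped ENNReal

variable {n : ℕ} {f : Conf → ℂ}

/-- positive functions -/
def Pos (f : Conf → ℂ) : Prop := ∀ U, (f U).im = 0 ∧ 0 < (f U).re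

/-- unnormalised expectation -/
def zz (n : ℕ) (f : Conf → ℂ) (O : Conf → ℝ) : ℝ := ∫ U, (f (pc n U)).re * O (pc n U) ∂PP

instance : IsProbabilityMeasure PP := by unfold PP; infer_instance

/-- bounded measurable functions -/
def BM (O : Conf → ℝ) : Prop := Measurable O ∧ ∃ M, ∀ U, |O U| ≤ M

theorem BM.const (c : ℝ) : BM fun _ => c := ⟨measurable_const, |c|, fun _ => le_rfl⟩

theorem BM.mul {O O' : Conf → ℝ} (h : BM O) (h' : BM O') : BM fun U => O U * O' U := by
  obtain ⟨m, M, h⟩ := h
  obtain ⟨m', M', h'⟩ := h'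
  exact ⟨m.mul m', M * M', fun U => (abs_mul _ _).trans_le
    (mul_le_mul (h U) (h' U) (abs_nonneg _) ((abs_nonneg _).trans (h U)))⟩

theorem BM.re (h : GI n f) : BM fun U => (f U).re :=
  ⟨Complex.measurable_re.comp h.1, h.2.1.imp fun _ hM U => (Complex.abs_re_le_norm _).trans (hM U)⟩

theorem BM.int {O : Conf → ℝ} (h : BM O) (n : ℕ) : Integrable (fun U => O (pc n U)) PP := by
  obtain ⟨m, M, h⟩ := h
  exact .of_bound (m.comp meas_pc).aestronglyMeasurable M (.of_forall fun U => h _)

theorem per_pc {α : Type} (n : ℕ) (U : Lk → α) : Per n (pc n U) := fun μ => by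
  funext e
  refine congrArg (fun x => U (x, e.2)) (funext fun i => ?_)
  simp only [rc, Pi.add_apply, Pi.smul_apply, smul_eq_mul]
  rw [add_right_comm, Int.add_mul_emod_self_left]

variable [NeZero n]

end Pool.Agent.Lib.MP_7f377f_mp.RG.Q4.En
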