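import Pool.Agent.Lib.MP_7f377f_mp.G.Q4NonA

/-! Total variation and nontriviality from pointwise bounds on the densities. -/

noncomputable section

set_option linter.unusedSectionVars false
variable [Pool.Agent.Lib.MP_7f377f_mp.GD]

namespace Pool.Agent.Lib.MP_7f377f_mp.RG.Q4.En

open MeasureTheory Measure Finset YM4 Ms Fi Real
open scoped ENNReal

variable {n : ℕ} {f f' : Conf → ℂ}

/-- sum over the plaquettes of the torus -/
def ps (n : ℕ) (φ : ℝ → ℝ) (U : Conf) : ℝ :=
  ∑ x ∈ box (n / 2), ∑ μ, ∑ ν, if μ < ν then φ (fq U x μ ν) else 0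

/-- lower bound close to the identity -/
def Low (n : ℕ) (f : Conf → ℂ) (m δ : ℝ) : Prop :=
  ∀ U, Per n U → (∀ e, ‖(U e).q - 1‖ ≤ δ) → m ≤ (f U).re

theorem per_gauge {u : St → S3} {U : Conf} (hu : PS n u) (hU : Per n U) :
    Per n (gauge Inv.inv u U) := fun μ => by
  funext e
  have := congrFun (hU μ) e
  simp only [sh, gauge] at this ⊢
  rw [this, hu, add_right_comm, hu]

theorem z_low : ∃ c0 > 0, c0 ≤ 1 ∧ ∀ (n : ℕ) (f : Conf → ℂ) (m δ : ℝ), Odd n → GI n f → Pos f →
    0 ≤ m → 0 < δ → δ ≤ c0 → Low n f m δ →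
      m * (c0 * δ) ^ (GD.d * (3 * n ^ 4 + 1)) ≤ zz n f fun _ => 1 := by
  obtain ⟨c, c0, h⟩ := orbit_lower
  refine ⟨min c 1, lt_min c0 one_pos, min_le_right _ _, fun n f m δ hn hg hp m0 d0 d1 hl => ?_⟩
  have hA : MeasurableSet {U | m ≤ (f U).re} := measurableSet_le measurable_const (BM.re hg).1
  calc _ ≤ m * PP.real (pc n ⁻¹' {U | m ≤ (f U).re}) := by
        refine mul_le_mul_of_nonneg_left (le_trans ?_ ((h n hn δ d0 (d1.trans (min_le_left _ _))).trans
          (measureReal_mono ?_))) m0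
        · gcongr
          exact min_le_left _ _
        · rintro U ⟨u, hu, hU⟩
          have := hl _ (per_gauge hu (per_pc n U)) hU
          rwa [hg.2.2 u _ hu (per_pc n U)] at this
    _ = ∫ U, (pc n ⁻¹' {U | m ≤ (f U).re}).indicator (fun _ => m) U ∂PP := by
        rw [integral_indicator_const _ (meas_pc hA), smul_eq_mul, mul_comm]
    _ ≤ _ := by
        refine integral_mono ((integrable_const m).indicator (meas_pc hA))
          (((BM.re hg).mul (BM.const 1)).int n) fun U => ?_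
        by_cases hU : U ∈ pc n ⁻¹' {U | m ≤ (f U).re}
        · rw [Set.indicator_of_mem hU]
          exact le_of_le_of_eq hU (mul_one _).symm
        · rw [Set.indicator_of_notMem hU]
          exact mul_nonneg (hp _).2.le zero_le_one

theorem fq_le (U : Conf) (x : St) (μ ν : Fin 4) : 0 ≤ fq U x μ ν ∧ fq U x μ ν ≤ cG :=
  ⟨norm_nonneg _, S3.diam _⟩

end Pool.Agent.Lib.MP_7f377f_mp.RG.Q4.En
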