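import Pool.Agent.Lib.MP_7f377f_mp.G.RGSmD
import Pool.Agent.Lib.MP_7f377f_mp.G.Q4Rob

/-! The complex noise functional of the symmetric block spin map. -/

noncomputable section

set_option linter.unusedSectionVars false
variable [Pool.Agent.Lib.MP_7f377f_mp.GD]

namespace Pool.Agent.Lib.MP_7f377f_mp.RG.Q4

open Finset

/-- normalised average -/
def Nz.avc {E : Type} [AddCommGroup E] [Module ℂ E] (l : ℕ) (f : Rb.Pm → St → E) : E :=
  (24 * (LL l : ℂ) ^ 4)⁻¹ • ∑ σ : Rb.Pm, ∑ t ∈ box l, f σ t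

def Vc (l : ℕ) (μ : Fin 4) (U : Cf) : Hc :=
  Nz.avc l fun σ t =>
    cms star σ U 0 t * lnP U t μ (LL l) * star (cms star σ (sh (up l (un μ)) U) 0 t)

def uc (l : ℕ) (U : Cf) : Hc :=
  Nz.avc l fun σ t => cms star σ U 0 t

def Vh (l : ℕ) (μ : Fin 4) (U : Cf) : Hc :=
  star (pjq (uc l U)) * Vc l μ U * pjq (uc l (sh (up l (un μ)) U))

def rsN (l : ℕ) (μ : Fin 4) (w : Hc) (U : Cf) : C3 := ch (pjq (w * star (Vh l μ U)))

def nz (l : ℕ) (μ : Fin 4) (w : Hc) (U : Cf) : ℂ := enq (pjq (w * star (Vh l μ U)))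

namespace Nz

open Rb

attribute [local irreducible] box lbox

variable {l : ℕ} {μ : Fin 4}

theorem avc_congr {f g : Pm → St → Hc} (h : ∀ σ, ∀ t ∈ box l, f σ t = g σ t) : avc l f = avc l g :=
  congrArg (_ • ·) (sum_congr rfl fun σ _ => sum_congr rfl (h σ))

theorem avc_mul (f : Pm → St → Hc) (a b : Hc) :
    avc l (fun σ t => a * f σ t * b) = a * avc l f * b := by
  simp only [avc, mul_smul_comm, smul_mul_assoc, mul_sum, sum_mul]

theorem cms0 {α : Type} [Monoid α] (iv : α → α) (σ : Pm) (U : Lk → α) (t : St) :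
    cms iv σ U 0 t = cmb iv (pm σ U) fun j => t (σ j) := by
  simp [cms]

theorem perm_mem {R : ℕ} {t : St} (ht : t ∈ box R) (σ : Pm) : (fun j => t (σ j)) ∈ box R :=
  mem_box.2 fun _ => mem_box.1 ht _

theorem pm_mem {R : ℕ} {e : Lk} (he : e ∈ lbox R) (σ : Pm) :
    ((fun i => e.1 (σ.symm i)), σ e.2) ∈ lbox R := mem_lbox.2 (perm_mem (mem_lbox.1 he) σ.symm)

theorem pm_gauge {α : Type} [Monoid α] (iv : α → α) (σ : Pm) (h : St → α) (U : Lk → α) :
    pm σ (gauge iv h U) = gauge iv (fun x => h fun i => x (σ.symm i)) (pm σ U) := by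
  funext e
  simp only [pm, gauge]
  congr 3
  funext i
  simp [un_apply, Equiv.symm_apply_eq]

theorem cms_cC (σ : Pm) (U : Conf) (p t : St) :
    cms star σ (cC U) p t = cS (cms Inv.inv σ U p t) := cmb_cC (pm σ (sh p U)) _

theorem cms_gauge {h : St → Hc} (hh : ∀ x, Uni (h x)) (σ : Pm) (U : Cf) (t : St) :
    cms star σ (gauge star h U) 0 t = h 0 * cms star σ U 0 t * star (h t) := by
  rw [cms0, cms0, pm_gauge, cmb_gauge_star fun _ => hh _]
  simp only [Equiv.apply_symm_apply]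
  rfl

theorem cms_agr {α : Type} [Monoid α] (iv : α → α) {R : ℕ} {U U' : Lk → α} (h : Agr R U U')
    (σ : Pm) {t : St} (ht : t ∈ box R) : cms iv σ U 0 t = cms iv σ U' 0 t := by
  rw [cms0, cms0]
  exact cmb_agr (fun e he => h _ (pm_mem he σ)) _ (perm_mem ht σ)

theorem line_mem {t : St} (ht : t ∈ box l) {i : ℕ} (hi : i < LL l) :
    (t + (i : ℤ) • un μ, μ) ∈ lbox (3 * l + 1) := mem_lbox.2 (mem_box.2 fun k => by
  have := mem_box.1 ht k
  simp only [Pi.add_apply, Pi.smul_apply, un_apply, smul_eq_mul, LL] at *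
  split_ifs <;> omega)

theorem up_un_mem (l : ℕ) (μ : Fin 4) : up l (un μ) ∈ box (2 * l + 1) := mem_box.2 fun k => by
  simp only [up_apply, un_apply, LL_cast]
  split_ifs <;> omega

theorem lnP_agr {α : Type} [Monoid α] {U U' : Lk → α} {p : St} {n : ℕ}
    (h : ∀ i < n, U (p + (i : ℤ) • un μ, μ) = U' (p + (i : ℤ) • un μ, μ)) :
    lnP U p μ n = lnP U' p μ n := by
  induction n with
  | zero => rfl
  | succ n ih => rw [lnP, lnP, ih fun i hi => h i (by omega), h n (by omega)]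

theorem uc_agr {U U' : Cf} (h : Agr l U U') : uc l U = uc l U' :=
  avc_congr fun σ _ ht => cms_agr star h σ ht

theorem Vh_agr {U U' : Cf} (h : Agr (3 * l + 1) U U') : Vh l μ U = Vh l μ U' := by
  have h0 : Agr l U U' := h.mono (by omega)
  have h1 : Agr l (sh (up l (un μ)) U) (sh (up l (un μ)) U') :=
    Agr.sh (h.mono (by omega)) (up_un_mem l μ)
  have e : Vc l μ U = Vc l μ U' := avc_congr fun σ t ht => by
    rw [cms_agr star h0 σ ht, cms_agr star h1 σ ht, lnP_agr fun i hi => h _ (line_mem ht hi)]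
  rw [Vh, Vh, uc_agr h0, uc_agr h1, e]

theorem uc_gauge {h : St → Hc} (hh : ∀ x, Uni (h x)) (h0 : ∀ t ∈ box l, h t = h 0) (U : Cf) :
    uc l (gauge star h U) = h 0 * uc l U * star (h 0) := by
  rw [uc, uc, ← avc_mul]
  exact avc_congr fun _ t ht => by rw [cms_gauge hh, h0 t ht]

theorem Vc_gauge {h : St → Hc} (hh : ∀ x, Uni (h x)) (U : Cf) :
    Vc l μ (gauge star h U) = h 0 * Vc l μ U * star (h (up l (un μ))) := by
  have h1 : ∀ x, Uni (h (x + up l (un μ))) := fun _ => hh _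
  rw [Vc, Vc, ← avc_mul]
  refine avc_congr fun σ t _ => ?_
  simp only [sh_gauge, cms_gauge hh, cms_gauge h1, JS.lnP_gauge hh, star_mul, star_star, mul_assoc,
    JS.cancel hh, show ((LL l : ℕ) : ℤ) • un μ = up l (un μ) from rfl, zero_add]

theorem Vh_gauge {g : St → Hc} (hg : ∀ x, Uni (g x)) (U : Cf) :
    Vh l μ (gauge star (fun x => g (yo l x)) U) = g 0 * Vh l μ U * star (g (un μ)) := by
  have hh : ∀ x, Uni (g (yo l x)) := fun _ => hg _
  have h1 : ∀ x, Uni (g (yo l (x + up l (un μ)))) := fun _ => hg _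
  have y0 : yo l 0 = 0 := yo_of_mem (zero_mem_box l)
  have y1 : yo l (up l (un μ)) = un μ := by rw [← zero_add (up l _), yo_add_up, y0, zero_add]
  rw [Vh, Vh, Vc_gauge hh, sh_gauge, uc_gauge hh fun t ht => by rw [yo_of_mem ht, y0],
    uc_gauge h1 fun t ht => by rw [yo_add_up, yo_add_up, yo_of_mem ht, y0], pjq_conj (hh _),
    pjq_conj (h1 _)]
  simp only [star_mul, star_star, mul_assoc, JS.cancel hg, y0, y1, zero_add]

theorem wV_gauge {g : St → Hc} (hg : ∀ x, Uni (g x)) (w : Hc) (U : Cf) :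
    pjq (g 0 * w * star (g (un μ)) * star (Vh l μ (gauge star (fun x => g (yo l x)) U))) =
      g 0 * pjq (w * star (Vh l μ U)) * star (g 0) := by
  rw [Vh_gauge hg, ← pjq_conj (hg 0)]
  simp only [star_mul, star_star, mul_assoc, JS.cancel hg]

theorem nz_gauge {g : St → Hc} (hg : ∀ x, Uni (g x)) (w : Hc) (U : Cf) :
    nz l μ (g 0 * w * star (g (un μ))) (gauge star (fun x => g (yo l x)) U) = nz l μ w U := by
  rw [nz, nz, wV_gauge hg, enq_conj (hg 0)]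

theorem nz_agr {U U' : Cf} (h : Agr (3 * l + 1) U U') (w : Hc) : nz l μ w U = nz l μ w U' := by
  rw [nz, nz, Vh_agr h]

section disc
variable {Ω : Set ℂ} {U : ℂ → Cf}

theorem diff_cms (hU : Disc Ω U) (σ : Pm) (t : St) :
    DifferentiableOn ℂ (fun s => cms star σ (U s) 0 t) Ω := by
  simp only [cms0]
  exact diff_cmb (U := fun s => pm σ (U s)) (fun _ => hU _) _

theorem diff_uc (hU : Disc Ω U) : DifferentiableOn ℂ (fun s => uc l (U s)) Ω :=
  (DifferentiableOn.fun_sum fun σ _ => .fun_sum fun t _ => diff_cms hU σ t).fun_const_smul _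

theorem diff_Vc (hU : Disc Ω U) : DifferentiableOn ℂ (fun s => Vc l μ (U s)) Ω :=
  (DifferentiableOn.fun_sum fun σ _ => .fun_sum fun t _ => ((diff_cms hU σ t).mul
    (diff_lnP hU _ _ _)).mul (diff_star (diff_cms (hU.sh _) σ t))).fun_const_smul _

end disc

theorem cL_ne (l : ℕ) : (24 * (LL l : ℂ) ^ 4) ≠ 0 :=
  mul_ne_zero (by norm_num) (pow_ne_zero _ (by exact_mod_cast (LL_pos l).ne'))

theorem avc_t {E : Type} [AddCommGroup E] [Module ℂ E] (f : St → E) :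
    avc l (fun _ t => f t) = ((LL l : ℂ) ^ 4)⁻¹ • ∑ t ∈ box l, f t := by
  rw [avc, sum_const, card_univ, Fintype.card_perm, Fintype.card_fin, ← Nat.cast_smul_eq_nsmul ℂ,
    smul_smul]
  congr 1
  push_cast [Nat.factorial]
  field_simp

theorem norm_avc {E : Type} [NormedAddCommGroup E] [NormedSpace ℂ E] {f : Pm → St → E} {a : ℝ}
    (h : ∀ σ, ∀ t ∈ box l, ‖f σ t‖ ≤ a) : ‖avc l f‖ ≤ a := by
  have p := LR l
  rw [avc, norm_smul, norm_inv, norm_mul, norm_pow, Complex.norm_natCast, Complex.norm_ofNat,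
    inv_mul_le_iff₀ (by positivity)]
  refine (norm_sum_le_of_le _ fun σ _ => norm_sum_le_of_le _ (h σ)).trans_eq ?_
  simp only [sum_const, card_univ, Fintype.card_perm, Fintype.card_fin, card_box, nsmul_eq_mul, LL]
  push_cast [Nat.factorial]
  ring

theorem nr_avc {s u : ℝ} {f : Pm → St → Hc} {b : Pm → St → C3}
    (h : ∀ σ, ∀ t ∈ box l, RG.Nr s u (f σ t) (io (b σ t))) :
    RG.Nr s u (avc l f) (io (avc l b)) := by
  have e1 : avc l (fun _ _ => (1 : Hc)) = 1 := (avc_t _).trans (JS.avg_one l)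
  have e2 : io (avc l b) = avc l fun σ t => io (b σ t) := by
    simp only [avc, io_smul]
    congr 1
    exact (map_sum ioL _ _).trans (sum_congr rfl fun _ _ => map_sum ioL _ _)
  have h1 := norm_avc fun σ t ht => (h σ t ht).1
  have h2 := norm_avc fun σ t ht => (h σ t ht).2
  rw [RG.Nr, e2]
  nth_rw 1 [← e1]
  nth_rw 2 [← e1]
  simp only [avc, sum_sub_distrib, smul_sub] at h1 h2 ⊢
  exact ⟨h1, h2⟩

/-- linear part of the block field -/
def lnA (l : ℕ) (μ : Fin 4) (a : Fld) : C3 :=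
  ((LL l : ℂ) ^ 4)⁻¹ • ∑ t ∈ box l, ∑ i ∈ range (LL l), a (t + (i : ℤ) • un μ, μ)

theorem nr_cmb' {R : ℕ} {s u : ℝ} {U : Cf} {b : Fld} (s0 : 0 ≤ s) (u0 : 0 ≤ u)
    (h : ∀ e ∈ lbox R, RG.Nr s u (U e) (io (b e))) {t : St} (ht : t ∈ box R) :
    RG.Nr (4 * R * s) (4 * R * u) (cmb star U t) (io (lam b t)) := by
  have k : (RG.ht t : ℝ) ≤ 4 * R := by exact_mod_cast ht_le ht
  exact (nr_cmb h t ht).mono (by positivity) (by gcongr) (by gcongr)

theorem nr_cms {R : ℕ} {s u : ℝ} {U : Cf} {b : Fld} (s0 : 0 ≤ s) (u0 : 0 ≤ u)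
    (h : ∀ e ∈ lbox R, RG.Nr s u (U e) (io (b e))) (σ : Pm) {t : St} (ht : t ∈ box R) :
    RG.Nr (4 * R * s) (4 * R * u) (cms star σ U 0 t) (io (lam (pm σ b) fun j => t (σ j))) := by
  rw [cms0]
  exact nr_cmb' s0 u0 (b := pm σ b) (fun e he => h _ (pm_mem he σ)) (perm_mem ht σ)

theorem nr_uc {s u : ℝ} {U : Cf} {a : Fld} (s0 : 0 ≤ s) (u0 : 0 ≤ u)
    (h : ∀ e ∈ lbox l, RG.Nr s u (U e) (io (a e))) : RG.Nr (4 * l * s) (4 * l * u) (uc l U)
      (io (avc l fun σ t => lam (pm σ a) fun j => t (σ j))) :=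
  nr_avc fun σ _ ht => nr_cms s0 u0 h σ ht

theorem up_mem {e : Lk} (he : e ∈ lbox l) : (e.1 + up l (un μ), e.2) ∈ lbox (3 * l + 1) :=
  mem_lbox.2 (box_mono (by omega) (add_mem_box (mem_lbox.1 he) (up_un_mem l μ)))

theorem nr_Vc {s u : ℝ} {U : Cf} {a : Fld} (s0 : 0 ≤ s) (u0 : 0 ≤ u)
    (h : ∀ e ∈ lbox (3 * l + 1), RG.Nr s u (U e) (io (a e))) :
    RG.Nr (5 * LL l * s) (5 * LL l * u) (Vc l μ U) (io (avc l fun σ t =>
      lam (pm σ a) (fun j => t (σ j)) + ∑ i ∈ range (LL l), a (t + (i : ℤ) • un μ, μ) +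
        -lam (pm σ (sh (up l (un μ)) a)) fun j => t (σ j))) :=
  nr_avc fun σ t ht => by
    rw [io_add, io_add]
    exact (((nr_cms s0 u0 (fun e he => h e (lbox_mono (by omega) he)) σ ht).mul
      (nr_lnP _ fun i hi => h _ (line_mem ht hi))).mul (nr_cms s0 u0 (U := sh (up l (un μ)) U)
        (fun e he => h _ (up_mem he)) σ ht).star).mono (by positivity)
      (by unfold LL; push_cast; nlinarith) (by unfold LL; push_cast; nlinarith)

theorem nr_pjq {s u : ℝ} {W : Hc} {b : C3} (h : RG.Nr s u W (io b)) (s0 : 0 ≤ s) (s1 : s ≤ 1 / 20) :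
    RG.Nr (4 * s) (u + 41 * s ^ 2) (pjq W) (io b) := by
  have := h.le s0 (by linarith)
  have := pjq_near this.1 (by linarith) this.2
  exact .of_le (by linarith [this.1]) (by linarith [this.2])

theorem nr_Vh {s u : ℝ} {U : Cf} {a : Fld} (s0 : 0 ≤ s) (u0 : 0 ≤ u) (s1 : 40 * (LL l * s) ≤ 1)
    (h : ∀ e ∈ lbox (3 * l + 1), RG.Nr s u (U e) (io (a e))) :
    RG.Nr (21 * (LL l * s)) (9 * (LL l * u) + 328 * (LL l * s) ^ 2) (Vh l μ U) (io (lnA l μ a)) := by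
  have uu : ∀ {U : Cf} {a : Fld}, (∀ e ∈ lbox l, RG.Nr s u (U e) (io (a e))) →
      RG.Nr (4 * (2 * (LL l * s))) (2 * (LL l * u) + 41 * (2 * (LL l * s)) ^ 2) (pjq (uc l U))
        (io (avc l fun σ t => lam (pm σ a) fun j => t (σ j))) := fun h =>
    nr_pjq ((nr_uc s0 u0 h).mono (by positivity) (by unfold LL; push_cast; nlinarith)
      (by unfold LL; push_cast; nlinarith)) (by positivity) (by linarith)
  have := (((uu fun e he => h e (lbox_mono (by omega) he)).star.mul (nr_Vc (μ := μ) s0 u0 h)).mul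
    (uu (U := sh (up l (un μ)) U) (a := sh (up l (un μ)) a) fun e he => h _ (up_mem he))).mono
    (s' := 21 * (LL l * s)) (u' := 9 * (LL l * u) + 328 * (LL l * s) ^ 2) (by positivity)
    (by linarith) (by linarith)
  refine (congrArg _ ?_).mp this
  rw [← io_add, ← io_add, lnA, ← avc_t]
  congr 1
  simp only [avc, ← smul_neg, ← smul_add, ← sum_neg_distrib, ← sum_add_distrib]
  refine congrArg _ (sum_congr rfl fun σ _ => sum_congr rfl fun t _ => ?_)
  abel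

/-- the residual to second order; `1 + b` is the first order part of `w` -/
theorem wV_ap {δ η : ℝ} {U : Cf} {a : Fld} {w : Hc} {b : C3} (h : Ap (3 * l + 1) δ η U a)
    (h1 : η ≤ δ) (hb : ‖b‖ ≤ δ) (hw : ‖w - 1 - io b‖ ≤ η) (h2 : 1000 * LL l * δ ≤ 1) :
    ‖w * star (Vh l μ U) - 1‖ ≤ 96 * (LL l * δ) ∧ ‖w * star (Vh l μ U) - 1 - io (b - lnA l μ a)‖ ≤
      10 * (LL l * η) + 13000 * (LL l * δ) ^ 2 := by
  obtain ⟨δ0, η0⟩ := h.nonneg
  have L1 : (1 : ℝ) ≤ LL l := by exact_mod_cast LL_pos l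
  have k1 : δ ≤ LL l * δ := le_mul_of_one_le_left δ0 L1
  have k2 : η ≤ LL l * η := le_mul_of_one_le_left η0 L1
  have n1 : RG.Nr (4 * δ) η w (io b) := .of_le ((JS.near_one ⟨hb, hw⟩).trans (by linarith)) hw
  have n2 := (n1.mul (nr_Vh (μ := μ) (by positivity) η0 (by linarith) (h.nr h1)).star).mono
    (s' := 88 * (LL l * δ)) (u' := 10 * (LL l * η) + 5248 * (LL l * δ) ^ 2) (by positivity)
    (by linarith) (by linarith)
  rw [← io_add, ← sub_eq_add_neg] at n2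
  rw [mul_assoc] at h2
  have p0 : 0 ≤ LL l * δ := by positivity
  generalize LL l * δ = p at *
  have n3 := (abs_le.1 (Real.abs_exp_sub_one_sub_id_le (x := 88 * p)
    (by rw [abs_of_nonneg (by positivity)]; linarith))).2
  exact ⟨n2.1.trans (by nlinarith), (n2.le (by positivity) (by linarith)).2.trans (by nlinarith)⟩

theorem nz_ap {δ η : ℝ} {U : Cf} {a : Fld} {w : Hc} {b : C3} (h : Ap (3 * l + 1) δ η U a)
    (h1 : η ≤ δ) (hb : ‖b‖ ≤ δ) (hw : ‖w - 1 - io b‖ ≤ η) (h2 : 1000 * LL l * δ ≤ 1) :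
    ‖nz l μ w U - dot (b - lnA l μ a) (b - lnA l μ a)‖ ≤
      10 ^ 9 * (LL l * δ * (LL l * η + (LL l * δ) ^ 2)) := by
  obtain ⟨δ0, η0⟩ := h.nonneg
  obtain ⟨r1, r2⟩ := wV_ap (μ := μ) h h1 hb hw h2
  have k3 : LL l * η ≤ LL l * δ := by gcongr
  rw [mul_assoc] at h2
  have p0 : 0 ≤ LL l * δ := by positivity
  have q0 : 0 ≤ LL l * η := by positivity
  generalize LL l * δ = p at *
  generalize LL l * η = q at *
  have r3 : ‖b - lnA l μ a‖ ≤ 120 * p := by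
    have e : b - lnA l μ a = co ((w * star (Vh l μ U) - 1) -
      (w * star (Vh l μ U) - 1 - io (b - lnA l μ a))) := by simp
    rw [e]
    exact (norm_co _).trans ((norm_sub_le_of_le r1 r2).trans (by nlinarith))
  have r4 := (pjq_near r1 (by linarith) r2).2.trans
    (show _ ≤ 10 * q + 110000 * p ^ 2 by nlinarith)
  refine (enq_near r3 r4).trans ((mul_le_mul_of_nonneg_left
    (show _ ≤ 360 * p by nlinarith) (by positivity)).trans ?_)
  nlinarith [pow_nonneg p0 3, mul_nonneg p0 q0]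

theorem ap_zero {R : ℕ} {δ : ℝ} {U : Cf} (h : ∀ e ∈ lbox R, ‖U e - 1‖ ≤ δ) : Ap R δ δ U 0 :=
  fun e he => ⟨by simpa using (norm_nonneg _).trans (h e he), by simpa using h e he⟩

theorem uc_near {δ : ℝ} {U : Cf} (h : ∀ e ∈ lbox l, ‖U e - 1‖ ≤ δ) (h2 : 1000 * LL l * δ ≤ 1) :
    ‖uc l U - 1‖ ≤ 16 * (LL l * δ) := by
  have δ0 := (ap_zero h).nonneg.1
  refine (((nr_uc (by positivity) δ0 ((ap_zero h).nr le_rfl)).mono (s' := 8 * (LL l * δ))
    (by positivity) ?_ le_rfl).le (by positivity) (by linarith)).1.trans (by linarith)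
  unfold LL
  push_cast
  nlinarith

theorem Vh_near {δ : ℝ} {U : Cf} (h : ∀ e ∈ lbox (3 * l + 1), ‖U e - 1‖ ≤ δ)
    (h2 : 1000 * LL l * δ ≤ 1) : ‖Vh l μ U - 1‖ ≤ 200 * LL l * δ := by
  have δ0 := (ap_zero h).nonneg.1
  have : 0 ≤ LL l * δ := by positivity
  exact ((nr_Vh (μ := μ) (by positivity) δ0 (by linarith) ((ap_zero h).nr le_rfl)).le
    (by positivity) (by linarith)).1.trans (by linarith)

theorem diff_Vh {Ω : Set ℂ} {U : ℂ → Cf} {δ : ℝ} (hU : Disc Ω U)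
    (h : ∀ s ∈ Ω, ∀ e ∈ lbox (3 * l + 1), ‖U s e - 1‖ ≤ δ) (h2 : 1000 * LL l * δ ≤ 1) :
    DifferentiableOn ℂ (fun s => Vh l μ (U s)) Ω :=
  ((diff_star (diff_pjq (diff_uc hU) fun s hs => (uc_near (fun e he => h s hs e
    (lbox_mono (by omega) he)) h2).trans (by linarith))).mul (diff_Vc hU)).mul
    (diff_pjq (diff_uc (hU.sh _)) fun s hs => (uc_near (U := sh (up l (un μ)) (U s))
      (fun e he => h s hs _ (up_mem he)) h2).trans (by linarith))

theorem diff_wV {Ω : Set ℂ} {U : ℂ → Cf} {w : ℂ → Hc} {δ : ℝ} (hU : Disc Ω U)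
    (hw : DifferentiableOn ℂ w Ω) (h : ∀ s ∈ Ω, ∀ e ∈ lbox (3 * l + 1), ‖U s e - 1‖ ≤ δ)
    (h' : ∀ s ∈ Ω, ‖w s - 1‖ ≤ δ) (h2 : 1000 * LL l * δ ≤ 1) :
    DifferentiableOn ℂ (fun s => pjq (w s * star (Vh l μ (U s)))) Ω :=
  diff_pjq (hw.mul (diff_star (diff_Vh hU h h2))) fun s hs => (wV_ap (b := 0) (ap_zero (h s hs))
    le_rfl (by simpa using (norm_nonneg _).trans (h' s hs)) (by simpa using h' s hs) h2).1.trans
      (by linarith)

theorem diff_nz {Ω : Set ℂ} {U : ℂ → Cf} {w : ℂ → Hc} {δ : ℝ} (hU : Disc Ω U)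
    (hw : DifferentiableOn ℂ w Ω) (h : ∀ s ∈ Ω, ∀ e ∈ lbox (3 * l + 1), ‖U s e - 1‖ ≤ δ)
    (h' : ∀ s ∈ Ω, ‖w s - 1‖ ≤ δ) (h2 : 1000 * LL l * δ ≤ 1) :
    DifferentiableOn ℂ (fun s => nz l μ (w s) (U s)) Ω :=
  diff_enq (diff_wV hU hw h h' h2)

theorem mq_Vh {Z : Type} [MeasurableSpace Z] {U : Z → Cf} (hU : ∀ e, MQ fun z => U z e) :
    MQ fun z => Vh l μ (U z) := by
  have c : ∀ {U : Z → Cf}, (∀ e, MQ fun z => U z e) → ∀ σ t, MQ fun z => cms star σ (U z) 0 t :=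
    fun {U} hU σ t => by
      simp only [cms0]
      exact mq_cmb (U := fun z => pm σ (U z)) (fun _ => hU _) _
  have u : ∀ {U : Z → Cf}, (∀ e, MQ fun z => U z e) → MQ fun z => uc l (U z) := fun hU =>
    .smul measurable_const (.sum _ fun σ => .sum _ fun t => c hU σ t)
  have h1 : ∀ e, MQ fun z => sh (up l (un μ)) (U z) e := fun _ => hU _
  exact ((mq_pjq (u hU)).star.mul (.smul measurable_const (.sum _ fun σ => .sum _ fun t =>
    ((c hU σ t).mul (mq_lnP hU _ _ _)).mul (c h1 σ t).star))).mul (mq_pjq (u h1))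

theorem measurable_nz {Z : Type} [MeasurableSpace Z] {U : Z → Cf} {w : Z → Hc}
    (hU : ∀ e, MQ fun z => U z e) (hw : MQ w) : Measurable fun z => nz l μ (w z) (U z) :=
  (mq_pjq (hw.mul (mq_Vh hU).star)).enq

/-- the average which defines `uh` -/
def uq (l : ℕ) (U : Conf) : Hr := avs l fun σ t => (cms Inv.inv σ U 0 t).q

theorem cq_avs (f : Pm → St → Hr) : cq (avs l f) = avc l fun σ t => cq (f σ t) := by
  simp only [avs, avc, cq_smul, cq_sum]
  push_cast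
  rfl

theorem uc_cC (U : Conf) : uc l (cC U) = cq (uq l U) := by
  simp only [uc, uq, cq_avs, cms_cC]
  rfl

theorem Vc_cC (U : Conf) : Vc l μ (cC U) = cq (avq l μ U 0 0) := by
  refine Eq.trans ?_ (cq_avs _).symm
  simp only [Vc, sh_cC, cms_cC, lnP_cC, ← cS_inv, ← cS_mul]
  rfl

theorem Vh_cC' (U : Conf) : ∃ g h : S3, cS g = pjq (cq (uq l U)) ∧
    cS h = pjq (cq (uq l (sh (up l (un μ)) U))) ∧
    Vh l μ (cC U) = cq (g⁻¹.q * avq l μ U 0 0 * h.q) := by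
  obtain ⟨g, hg⟩ := pjq_real (uq l U)
  obtain ⟨h, hh⟩ := pjq_real (uq l (sh (up l (un μ)) U))
  refine ⟨g, h, hg, hh, ?_⟩
  rw [Vh, sh_cC, uc_cC, uc_cC, Vc_cC, cq_mul, cq_mul, ← hg, ← hh, ← cS_inv, cS, cS]

theorem Vh_cC (U : Conf) : ∃ q : Hr, q.re = 1 ∧ Vh l μ (cC U) = cq q := by
  obtain ⟨a, b, -, -, e⟩ := Vh_cC' (l := l) (μ := μ) U
  exact ⟨_, re_conj (avs_re _) _ _, e⟩

theorem wV_real (g : S3) (U : Conf) : ∃ h : S3, cS h = pjq (cS g * star (Vh l μ (cC U))) := by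
  obtain ⟨q, -, e⟩ := Vh_cC (l := l) (μ := μ) U
  rw [e, cS, ← cq_star, ← cq_mul]
  exact pjq_real _

theorem nz_im (g : S3) (U : Conf) : (nz l μ (cS g) (cC U)).im = 0 := by
  obtain ⟨h, e⟩ := wV_real (l := l) (μ := μ) g U
  rw [nz, ← e, enq_cS, Complex.ofReal_im]

theorem nz_nonneg (μ : Fin 4) (g : S3) (U : Conf) : 0 ≤ (nz l μ (cS g) (cC U)).re := by
  obtain ⟨h, e⟩ := wV_real (l := l) (μ := μ) g U
  rw [nz, ← e, enq_cS, Complex.ofReal_re]
  positivity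

theorem cmb_tree {α : Type} [Monoid α] {iv : α → α} (hi : iv 1 = 1) {U : Lk → α}
    (hU : ∀ f, tree l f → U f = 1) (y t : St) : t ∈ box l → cmb iv (sh (up l y) U) t = 1 := by
  have key : ∀ p ν, Tr p ν → p ∈ box l → p + un ν ∈ box l → sh (up l y) U (p, ν) = 1 :=
    fun p ν h1 h2 h3 => hU _ ((tree_add_up l p y ν).2 ⟨by rw [yo_of_mem h2, yo_of_mem h3],
      fun κ hκ => by rw [yo_of_mem h2, up_zero]; exact h1 κ hκ⟩)
  induction t using site_ind with
  | h0 => simp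
  | hp p ν h1 h2 ih =>
    intro hx
    rw [cmb_fwd _ _ h1 h2, ih (box_fwd h2 hx), key p ν h1 (box_fwd h2 hx) hx, one_mul]
  | hn p ν h1 h2 ih =>
    intro hx
    rw [cmb_bwd _ _ h1 h2, ih (box_bwd h2 hx), key p ν h1 hx (box_bwd h2 hx), hi, one_mul]

theorem uh_tree {U : Conf} (hU : ∀ f, tree l f → U f = 1) (y : St) :
    uh l (sh (up l y) U) = nr (uq l (sh (up l y) U)) 1 := by
  rw [uh, uq, avs]
  exact congrArg (fun x => nr ((24 * (LL l : ℝ) ^ 4)⁻¹ • x) 1) (sum_congr rfl fun σ _ => sum_congr rfl fun t ht => by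
    rw [cmb_tree inv_one hU y t ht, inv_one, mul_one])

open scoped Matrix.Norms.Frobenius in
theorem cq_near (q : Hr) : ‖cq q - 1‖ = ‖q - 1‖ := by
  rw [← cq_one, ← cq_sub, Un.norm_def, Un.norm_def, cq, Complex.norm_real,
    Matrix.frobenius_norm_map_eq _ _ Complex.norm_real]

theorem pjq_nr {q : Hr} (h1 : q.re = 1) (h : ‖q - 1‖ ≤ 1 / 4) : pjq (cq q) = cS (nr q 1) := by
  obtain ⟨g, hg⟩ := pjq_real q
  have k1 := pjq_crit (q := cq q) (by rwa [cq_near])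
  have k2 := (pjq_near (q := cq q) (b := 0) (by rwa [cq_near]) le_rfl le_rfl).1
  rw [← hg] at k1 k2 ⊢
  rw [cS, cq_near, norm_sub_rev] at k2
  rw [nr_uniq h1 ((norm_sub_le_norm_sub_add_norm_sub _ 1 _).trans_lt (by linarith)) k1]

theorem pjq_mul {q : Hr} {g : S3} (h1 : q.re = 1) (h : ‖q - 1‖ ≤ 1 / 8) (hg : ‖g.q - 1‖ ≤ 1 / 8) :
    pjq (cS g * cq q) = cS g * pjq (cq q) := by
  have k := norm_conj h1 g 1 1
  have k1 := re_conj h1 g 1
  have k2 := nr_mul (not_off h1 (g := 1) (by rw [S3.q_one]; linarith)) g 1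
  rw [S3.q_one, mul_one, mul_one] at k2
  rw [S3.q_one, mul_one] at k1
  rw [S3.q_one, mul_one, mul_one, mul_one] at k
  rw [cS, ← cq_mul, pjq_nr k1 ((norm_sub_le_norm_sub_add_norm_sub _ g.q _).trans (by linarith)), k2,
    pjq_nr h1 (by linarith), cS, cS, S3.q_mul, cq_mul]

/-- the corrected block field is the projection of `Vh` -/
theorem blkN_eq {U : Conf} (hU : ∀ f, tree l f → U f = 1) {ω : St → Om} {y : St} (h0 : (ω y).1 = 0) (h1 : (ω (y + un μ)).1 = 0)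
    {g : St → S3} {η : ℝ} (hs : ∀ e ∈ lbox (3 * l + 1),
      Rb.Nr η (gauge Inv.inv (fun x => g (yo l x)) (sh (up l y) U) e) 1) (hη : 1000 * LL l * η ≤ 1) :
    ∃ V : Hr, V.re = 1 ∧ Vh l μ (sh (up l y) (cC U)) = cq V ∧
      ‖V - (blkN l U ω (y, μ)).q‖ ≤ 1 / 20 ∧ nr V 1 = blkN l U ω (y, μ) := by
  have hc : ∀ e ∈ lbox (3 * l + 1),
      ‖cC (gauge Inv.inv (fun x => g (yo l x)) (sh (up l y) U)) e - 1‖ ≤ η := fun e he =>
    (cq_near _).trans_le (hs e he).one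
  have η0 := (ap_zero hc).nonneg.1
  have y0 : yo l 0 = 0 := yo_of_mem (zero_mem_box l)
  have uu : ∀ {W : Conf} {k : St → S3} {a : S3}, (∀ t ∈ box l, k t = k 0) →
      (∀ e ∈ lbox l, ‖cC (gauge Inv.inv k W) e - 1‖ ≤ η) →
      cS a = pjq (cq (uq l W)) → a = nr (uq l W) 1 := fun {W k a} hk h e => by
    have e1 : uq l (gauge Inv.inv k W) = (k 0).q * uq l W * (k 0)⁻¹.q := cq_inj (by
      rw [← uc_cC, cC_gauge, uc_gauge (fun _ => uni_cS _) fun t ht => by rw [hk t ht], uc_cC, cq_mul,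
        cq_mul, ← cS_inv, cS, cS])
    have e2 := uc_near h hη
    rw [uc_cC, cq_near] at e2
    have e3 := pjq_nr (q := uq l _) (avs_re _) (e2.trans (by linarith))
    rw [e1, nr_conj, cq_mul, cq_mul, ← cS, ← cS, cS_inv, pjq_conj (uni_cS _), ← e, ← cS_inv, ← cS_mul,
      ← cS_mul] at e3
    exact mul_left_cancel (mul_right_cancel (cS_inj e3))
  obtain ⟨a, b, ha, hb, e⟩ := Vh_cC' (l := l) (μ := μ) (sh (up l y) U)
  have a1 := uu (fun t ht => by rw [yo_of_mem ht, y0]) (fun e he => hc e (lbox_mono (by omega) he)) ha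
  have a3 := uu (k := fun x => g (yo l (x + up l (un μ))))
    (fun t ht => by rw [yo_add_up, yo_add_up, yo_of_mem ht, y0]) (fun e he => by
      rw [← sh_gauge Inv.inv fun x => g (yo l x)]
      exact hc _ (up_mem he)) hb
  have a2 := ((nr_Vc (μ := μ) (by positivity) η0 ((ap_zero hc).nr le_rfl)).le (by positivity)
    (by linarith)).1
  have r1 : (avq l μ (sh (up l y) U) 0 0).re = 1 := avs_re _
  rw [cC_gauge, Vc_gauge fun _ => uni_cS _, Vc_cC, ← cS_inv, cS, cS, ← cq_mul, ← cq_mul, cq_near,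
    ← S3.q_one, show (1 : S3) = g (yo l 0) * ((g (yo l 0))⁻¹ * g (yo l (up l (un μ)))) *
      (g (yo l (up l (un μ))))⁻¹ by group, norm_conj r1] at a2
  have a4 := a2.trans (show _ ≤ 1 / 20 by linarith)
  have a5 := not_off r1 (a4.trans_lt (by norm_num))
  have e1 : blk l U ω (y, μ) = nr (avq l μ (sh (up l y) U) 0 0) 1 := by
    rw [blk, av, h0, h1, if_neg a5, cms_self, cms_self, inv_one, one_mul, mul_one]
  have e2 : blkN l U ω (y, μ) = (nr (uq l (sh (up l y) U)) 1)⁻¹ * blk l U ω (y, μ) *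
      (nr (uq l (sh (up l (y + un μ)) U)) 1)⁻¹⁻¹ := by
    rw [← uh_tree hU, ← uh_tree hU]
    rfl
  rw [e1, inv_inv, up_add, add_comm (up l y), ← sh_sh, ← a1, ← a3] at e2
  refine ⟨_, re_conj r1 _ _, e, ?_, by rw [nr_mul a5, e2]⟩
  rw [e2, norm_conj r1]
  exact (nr_le a5 1 _).trans a4

/-- the noise functional of real fields -/
theorem nz_real {U : Conf} (hU : ∀ f, tree l f → U f = 1) {ω : St → Om} {y : St} (h0 : (ω y).1 = 0) (h1 : (ω (y + un μ)).1 = 0)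
    {g : St → S3} {η : ℝ} (hs : ∀ e ∈ lbox (3 * l + 1),
      Rb.Nr η (gauge Inv.inv (fun x => g (yo l x)) (sh (up l y) U) e) 1) (hη : 1000 * LL l * η ≤ 1)
    {w : S3} (hw : ‖(w * (blkN l U ω (y, μ))⁻¹).q - 1‖ ≤ 1 / 5) :
    nz l μ (cS w) (sh (up l y) (cC U)) = (‖(w * (blkN l U ω (y, μ))⁻¹).q - 1‖ ^ 2 : ℝ) := by
  obtain ⟨V, r, e, n, k⟩ := blkN_eq hU h0 h1 hs hη
  have o := not_off r (n.trans_lt (by norm_num))
  have r' : (star V).re = 1 := r
  have n' : ‖w.q * star V * (1 : S3).q - (w * (blkN l U ω (y, μ))⁻¹ * 1).q‖ ≤ 1 / 20 := by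
    rwa [norm_conj r', norm_star_sub]
  have k' := nr_mul (off_star.not.2 o) w 1
  have r2 := re_conj r' w 1
  rw [S3.q_one, mul_one, mul_one] at n' k'
  rw [S3.q_one, mul_one] at r2
  rw [nz, e, cS, ← cq_star, ← cq_mul, pjq_nr r2 ((norm_sub_le_norm_sub_add_norm_sub _
    (w * (blkN l U ω (y, μ))⁻¹).q _).trans (by linarith)), k', nr_star o, k, enq_cS]

end Nz

end Pool.Agent.Lib.MP_7f377f_mp.RG.Q4
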