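import Pool.Agent.Lib.MP_7f377f_mp.G.Q4Tree

/-! The fluctuation operator built from a family of kernels: definitions. -/

noncomputable section

set_option linter.unusedSectionVars false
variable [Pool.Agent.Lib.MP_7f377f_mp.GD]

namespace Pool.Agent.Lib.MP_7f377f_mp.RG.Q4

open Finset Polynomial

/-- kernel of the form of a block, in coordinates relative to the centre of the block -/
abbrev Kf := Lk → Fin GD.d → Lk → Fin GD.d → ℂ

/-- the form with kernel `k` -/
def qk (l : ℕ) (k : Kf) (a b : Fld) : ℂ :=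
  ∑ e ∈ lbox (3 * l + 1), ∑ i, ∑ e' ∈ lbox (3 * l + 1), ∑ j, k e i e' j * (a e i * b e' j)

/-- the sum of the forms of the blocks as an operator -/
def hamK (l : ℕ) (ka : St → Kf) (A : Fld) : Fld := fun f i => ∑ y ∈ box 1,
  qk l (ka (yo l f.1 + y)) (sh (up l (yo l f.1 + y)) (eb f i)) (sh (up l (yo l f.1 + y)) A)

def topK (l : ℕ) (Λ : ℝ) (H : Set St) (ka : St → Kf) (A : Fld) : Fld :=
  pj l H (A - (Λ : ℂ)⁻¹ • hamK l ka (pj l H A))

/-- a polynomial in the operator `topK` -/
def polK (l : ℕ) (Λ : ℝ) (p : ℂ[X]) (H : Set St) (ka : St → Kf) (A : Fld) : Fld :=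
  p.sum fun k c => c • (topK l Λ H ka)^[k] (pj l H A)

/-- local part of the logarithm of the determinant, for the block at the origin -/
def dtK (l : ℕ) (Λ : ℝ) (N : ℕ) (H : Set St) (ka : St → Kf) : ℂ :=
  ∑ f ∈ lbox l, ∑ k, polK l Λ (pQ N) H ka (eb f k) f k

/-- the kernel of the transported form `h` -/
def kh (l : ℕ) (h : BF) (W : Cf) : Kf := fun e i e' j => cx h (Ay l 0 W (eb e i)) (Ay l 0 W (eb e' j))

/-- the kernels seen from `y` -/
def shK (y : St) (ka : St → Kf) : St → Kf := fun x => ka (x + y)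

/-- periodic families of kernels -/
def PerK (n : Fin 4 → ℕ) (ka : St → Kf) : Prop := ∀ y v, ka (y + pv n v) = ka y

/-- neighbours of free blocks; only their kernels matter -/
def Nf (H : Set St) (y : St) : Prop := ∃ v ∈ box 1, Fr H (y + v)

/-- the entries of two kernels differ by at most `δ` -/
def Kc (l : ℕ) (δ : ℝ) (k k' : Kf) : Prop :=
  ∀ e ∈ lbox (3 * l + 1), ∀ i, ∀ e' ∈ lbox (3 * l + 1), ∀ j, ‖k e i e' j - k' e i e' j‖ ≤ δ

/-- symmetric kernels -/
def Ks (k : Kf) : Prop := ∀ e i e' j, k e i e' j = k e' j e i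

/-- real kernels -/
def Kr (k : Kf) : Prop := ∀ e i e' j, (k e i e' j).im = 0

end Pool.Agent.Lib.MP_7f377f_mp.RG.Q4
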