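import Pool.Agent.Lib.MP_7f377f_mp.G.Q4Kit

/-! Connected components of families of objects, factorisation into clusters. -/

noncomputable section

set_option linter.unusedSectionVars false
variable [Pool.Agent.Lib.MP_7f377f_mp.GD]

namespace Pool.Agent.Lib.MP_7f377f_mp.RG.Q4

open Finset

variable {σ Ω : Type} [DecidableEq σ] [DecidableEq Ω]

theorem mem_us {sp : Ω → Finset σ} {O : Finset Ω} {x : σ} : x ∈ us sp O ↔ ∃ o ∈ O, x ∈ sp o :=
  mem_biUnion

theorem us_mono (sp : Ω → Finset σ) {O O' : Finset Ω} (h : O ⊆ O') : us sp O ⊆ us sp O' :=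
  biUnion_subset_biUnion_of_subset_left _ h

theorem us_union (sp : Ω → Finset σ) (O O' : Finset Ω) : us sp (O ∪ O') = us sp O ∪ us sp O' :=
  union_biUnion

theorem us_insert (sp : Ω → Finset σ) (o : Ω) (O : Finset Ω) :
    us sp (insert o O) = sp o ∪ us sp O := biUnion_insert

@[simp] theorem us_empty (sp : Ω → Finset σ) : us sp ∅ = ∅ := rfl

@[simp] theorem us_singleton (sp : Ω → Finset σ) (o : Ω) : us sp {o} = sp o := singleton_biUnion

theorem sp_sub_us (sp : Ω → Finset σ) {O : Finset Ω} {o : Ω} (h : o ∈ O) : sp o ⊆ us sp O :=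
  subset_biUnion_of_mem _ h

theorem us_sub {sp : Ω → Finset σ} {O : Finset Ω} {Λ : Finset σ} :
    us sp O ⊆ Λ ↔ ∀ o ∈ O, sp o ⊆ Λ := biUnion_subset

theorem disjoint_us {sp : Ω → Finset σ} {O O' : Finset Ω} :
    Disjoint (us sp O) (us sp O') ↔ ∀ o ∈ O, ∀ o' ∈ O', Disjoint (sp o) (sp o') := by
  simp only [us, disjoint_biUnion_left, disjoint_biUnion_right]
  exact ⟨fun h o ho o' ho' => h o' ho' o ho, fun h o ho o' ho' => h o' ho' o ho⟩

theorem mem_comps {sp : Ω → Finset σ} {O O1 : Finset Ω} :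
    O1 ∈ comps sp O ↔ O1 ⊆ O ∧ Conn sp O1 ∧ Disjoint (us sp O1) (us sp (O \ O1)) := by
  simp [comps]

theorem mem_clus {sp : Ω → Finset σ} {Ω0 O : Finset Ω} {X : Finset σ} :
    O ∈ clus sp Ω0 X ↔ O ⊆ Ω0 ∧ Conn sp O ∧ us sp O = X := by
  simp [clus]

theorem mem_fams {Λ : Finset σ} {𝒳 : Finset (Finset σ)} : 𝒳 ∈ fams Λ ↔
    (∀ X ∈ 𝒳, X ⊆ Λ) ∧ ∅ ∉ 𝒳 ∧ (𝒳 : Set (Finset σ)).PairwiseDisjoint id := by
  simp [fams, subset_iff]

theorem conn_single (sp : Ω → Finset σ) (o : Ω) : Conn sp {o} :=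
  ⟨singleton_nonempty o, fun O1 h h1 h2 => by
    rcases subset_singleton_iff.1 h with rfl | rfl
    · simp at h1
    · exact absurd rfl h2⟩

/-- a connected family lies on one side of a splitting -/
theorem Conn.side {sp : Ω → Finset σ} {O1 A B : Finset Ω} (h : Conn sp O1) (hs : O1 ⊆ A ∪ B)
    (hd : Disjoint (us sp A) (us sp B)) : O1 ⊆ A ∨ Disjoint O1 A := by
  by_contra hc
  push Not at hc
  refine h.2 (O1 ∩ A) inter_subset_left (not_disjoint_iff_nonempty_inter.1 hc.2)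
    (fun e => hc.1 (inter_eq_left.1 e)) ?_
  refine hd.mono (us_mono sp inter_subset_right) (us_mono sp fun o ho => ?_)
  simp only [mem_sdiff, mem_inter, not_and] at ho
  exact (mem_union.1 (hs ho.1)).resolve_left (ho.2 ho.1)

theorem exists_comp (sp : Ω → Finset σ) {O : Finset Ω} {o : Ω} (ho : o ∈ O) :
    ∃ O1 ∈ comps sp O, o ∈ O1 := by
  classical
  obtain ⟨O1, h1, h2⟩ := exists_min_image (O.powerset.filter fun O1 =>
    o ∈ O1 ∧ Disjoint (us sp O1) (us sp (O \ O1))) card ⟨O, by simp [ho]⟩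
  simp only [mem_filter, mem_powerset] at h1 h2
  refine ⟨O1, mem_comps.2 ⟨h1.1, ⟨⟨o, h1.2.1⟩, fun O2 a1 a2 a3 hd => ?_⟩, h1.2.2⟩, h1.2.1⟩
  have key : ∀ A ⊆ O1, Disjoint (us sp A) (us sp (O1 \ A)) → o ∈ A → O1.card ≤ A.card := by
    intro A hA hd hoA
    refine h2 A ⟨hA.trans h1.1, hoA, ?_⟩
    refine Disjoint.mono_right (c := us sp (O \ O1) ∪ us sp (O1 \ A)) ?_
      (disjoint_union_right.2 ⟨h1.2.2.mono_left (us_mono sp hA), hd⟩)
    rw [← us_union]
    refine us_mono sp fun x hx => ?_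
    simp only [mem_sdiff, mem_union] at hx ⊢
    tauto
  by_cases h : o ∈ O2
  · exact a3 (eq_of_subset_of_card_le a1 (key O2 a1 hd h))
  · have := key (O1 \ O2) sdiff_subset (by rw [Finset.sdiff_sdiff_eq_self a1]; exact hd.symm)
      (mem_sdiff.2 ⟨h1.2.1, h⟩)
    have h3 := card_sdiff_add_card_eq_card a1
    have h4 := a2.card_pos
    omega

theorem comps_disjoint (sp : Ω → Finset σ) (O : Finset Ω) :
    (comps sp O : Set (Finset Ω)).PairwiseDisjoint id := by
  intro O1 h1 O2 h2 hne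
  obtain ⟨a1, a2, a3⟩ := mem_comps.1 h1
  obtain ⟨b1, b2, b3⟩ := mem_comps.1 h2
  rcases a2.side (A := O2) (B := O \ O2) (by rwa [union_sdiff_of_subset b1]) b3 with h | h
  · rcases b2.side (A := O1) (B := O \ O1) (by rwa [union_sdiff_of_subset a1]) a3 with h' | h'
    · exact absurd (subset_antisymm h h') hne
    · exact h'.symm
  · exact h

theorem comps_spec (sp : Ω → Finset σ) (O : Finset Ω) :
    (comps sp O).biUnion id = O ∧ ((comps sp O : Set (Finset Ω)).PairwiseDisjoint (us sp)) ∧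
      ((∀ o ∈ O, (sp o).Nonempty) → (comps sp O : Set (Finset Ω)).PairwiseDisjoint id) := by
  refine ⟨subset_antisymm (biUnion_subset.2 fun O1 h => (mem_comps.1 h).1) fun o ho => ?_,
    fun O1 h1 O2 h2 hne => ?_, fun _ => comps_disjoint sp O⟩
  · obtain ⟨O1, h1, h2⟩ := exists_comp sp ho
    exact mem_biUnion.2 ⟨O1, h1, h2⟩
  · exact (mem_comps.1 h1).2.2.mono_right (us_mono sp (subset_sdiff.2
      ⟨(mem_comps.1 h2).1, (comps_disjoint sp O h1 h2 hne).symm⟩))

theorem comps_union' (sp : Ω → Finset σ) {O O' : Finset Ω} (h : Disjoint (us sp O) (us sp O')) :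
    comps sp (O ∪ O') = comps sp O ∪ comps sp O' := by
  have key : ∀ {A B O1 : Finset Ω}, Disjoint (us sp A) (us sp B) → O1 ∈ comps sp A →
      O1 ∈ comps sp (A ∪ B) := by
    intro A B O1 hd h1
    obtain ⟨a1, a2, a3⟩ := mem_comps.1 h1
    refine mem_comps.2 ⟨a1.trans subset_union_left, a2, ?_⟩
    refine Disjoint.mono_right (c := us sp (A \ O1) ∪ us sp B) ?_
      (disjoint_union_right.2 ⟨a3, hd.mono_left (us_mono sp a1)⟩)
    rw [← us_union]
    refine us_mono sp fun x hx => ?_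
    simp only [mem_sdiff, mem_union] at hx ⊢
    tauto
  ext O1
  rw [mem_union]
  refine ⟨fun h1 => ?_, fun h1 => h1.elim (key h) fun h2 => union_comm O O' ▸ key h.symm h2⟩
  obtain ⟨a1, a2, a3⟩ := mem_comps.1 h1
  rcases a2.side a1 h with h2 | h2
  · exact Or.inl (mem_comps.2 ⟨h2, a2, a3.mono_right
      (us_mono sp (sdiff_subset_sdiff subset_union_left subset_rfl))⟩)
  · refine Or.inr (mem_comps.2 ⟨fun o ho => ?_, a2, a3.mono_right
      (us_mono sp (sdiff_subset_sdiff subset_union_right subset_rfl))⟩)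
    exact (mem_union.1 (a1 ho)).resolve_left (disjoint_left.1 h2 ho)

theorem comps_conn' (sp : Ω → Finset σ) {O : Finset Ω} (h : Conn sp O) : comps sp O = {O} := by
  ext O1
  rw [mem_singleton, mem_comps]
  refine ⟨fun h1 => ?_, by rintro rfl; simpa using h⟩
  by_contra hne
  exact h.2 O1 h1.1 h1.2.1.1 hne h1.2.2

@[simp] theorem comps_empty (sp : Ω → Finset σ) : comps sp (∅ : Finset Ω) = ∅ := by
  refine eq_empty_of_forall_notMem fun O1 h => ?_
  obtain ⟨a1, a2, -⟩ := mem_comps.1 h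
  exact a2.1.ne_empty (subset_empty.1 a1)

/-- induction along a connected family -/
theorem Conn.induct (sp : Ω → Finset σ) {O : Finset Ω} (h : Conn sp O) {o : Ω} (ho : o ∈ O)
    (P : Finset Ω → Prop) (h1 : P {o}) (h2 : ∀ O1 ⊆ O, o ∈ O1 → P O1 → ∀ o' ∈ O, o' ∉ O1 →
      ¬ Disjoint (us sp O1) (sp o') → P (insert o' O1)) : P O := by
  have key : ∀ n, ∀ O1 ⊆ O, o ∈ O1 → P O1 → (O \ O1).card = n → P O := by
    intro n
    induction n with
    | zero =>
      intro O1 a1 _ a3 a4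
      rwa [← subset_antisymm a1 (sdiff_eq_empty_iff_subset.1 (card_eq_zero.1 a4))]
    | succ n ih =>
      intro O1 a1 a2 a3 a4
      have := h.2 O1 a1 ⟨o, a2⟩ (by rintro rfl; simp at a4)
      rw [us, us, disjoint_biUnion_right] at this
      push Not at this
      obtain ⟨o', b1, b2⟩ := this
      obtain ⟨c1, c2⟩ := mem_sdiff.1 b1
      refine ih (insert o' O1) (insert_subset c1 a1) (mem_insert_of_mem a2)
        (h2 O1 a1 a2 a3 o' c1 c2 b2) ?_
      rw [sdiff_insert, card_erase_of_mem b1, a4]; rfl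
  exact key _ {o} (singleton_subset_iff.2 ho) (mem_singleton_self o) h1 rfl

theorem us_comps (sp : Ω → Finset σ) (O : Finset Ω) :
    ((comps sp O).image (us sp)).biUnion id = us sp O := by
  conv_rhs => rw [← (comps_spec sp O).1]
  rw [image_biUnion, us, biUnion_biUnion]
  rfl

theorem Conn.us_ne {sp : Ω → Finset σ} {O : Finset Ω} (h : Conn sp O)
    (hs : ∀ o ∈ O, (sp o).Nonempty) : (us sp O).Nonempty := by
  obtain ⟨o, ho⟩ := h.1
  exact (hs o ho).mono (sp_sub_us sp ho)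

theorem comps_fams (sp : Ω → Finset σ) {O : Finset Ω} {Λ : Finset σ}
    (hs : ∀ o ∈ O, (sp o).Nonempty ∧ sp o ⊆ Λ) : (comps sp O).image (us sp) ∈ fams Λ := by
  refine mem_fams.2 ⟨fun X hX => ?_, fun hX => ?_, fun X hX Y hY hne => ?_⟩
  · obtain ⟨O1, h1, rfl⟩ := mem_image.1 hX
    exact us_sub.2 fun o ho => (hs o ((mem_comps.1 h1).1 ho)).2
  · obtain ⟨O1, h1, e⟩ := mem_image.1 hX
    obtain ⟨a1, a2, -⟩ := mem_comps.1 h1
    exact (a2.us_ne fun o ho => (hs o (a1 ho)).1).ne_empty e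
  · obtain ⟨O1, h1, rfl⟩ := mem_image.1 (mem_coe.1 hX)
    obtain ⟨O2, h2, rfl⟩ := mem_image.1 (mem_coe.1 hY)
    exact (comps_spec sp O).2.1 h1 h2 fun e => hne (by rw [e])

theorem factor_fibre (sp : Ω → Finset σ) (Ω0 : Finset Ω) (hs : ∀ o ∈ Ω0, (sp o).Nonempty)
    (F : Finset Ω → ℂ) (h0 : F ∅ = 1)
    (hF : ∀ O ⊆ Ω0, ∀ O' ⊆ Ω0, Disjoint (us sp O) (us sp O') → F (O ∪ O') = F O * F O')
    (𝒳 : Finset (Finset σ)) (h𝒳 : (𝒳 : Set (Finset σ)).PairwiseDisjoint id) :
    ∑ O ∈ Ω0.powerset.filter (fun O => (comps sp O).image (us sp) = 𝒳), F O =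
      ∏ X ∈ 𝒳, ∑ O ∈ clus sp Ω0 X, F O := by
  induction 𝒳 using Finset.induction_on with
  | empty =>
    rw [prod_empty, sum_eq_single ∅ (fun O hO hne => ?_) (by simp), h0]
    have := (mem_filter.1 hO).2
    rw [image_eq_empty] at this
    exact absurd (by rw [← (comps_spec sp O).1, this]; rfl) hne
  | insert X 𝒳 hX ih =>
    have hd : Disjoint X (𝒳.biUnion id) := (disjoint_biUnion_right _ _ _).2 fun Y hY =>
      h𝒳 (by simp) (by simp [hY]) (by rintro rfl; exact hX hY)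
    rw [prod_insert hX, ← ih (h𝒳.subset (by simp)), sum_mul_sum, ← sum_product']
    have hdis : ∀ q ∈ clus sp Ω0 X ×ˢ Ω0.powerset.filter
        (fun O => (comps sp O).image (us sp) = 𝒳), Disjoint (us sp q.1) (us sp q.2) := by
      intro q hq
      simp only [mem_product, mem_clus, mem_filter] at hq
      rw [hq.1.2.2, ← us_comps, hq.2.2]; exact hd
    have hfil : ∀ q ∈ clus sp Ω0 X ×ˢ Ω0.powerset.filter
        (fun O => (comps sp O).image (us sp) = 𝒳),
        q = ((q.1 ∪ q.2).filter (fun o => sp o ⊆ X), (q.1 ∪ q.2).filter (fun o => ¬ sp o ⊆ X)) := by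
      intro q hq
      have hd' := hdis q hq
      simp only [mem_product, mem_clus, mem_filter, mem_powerset] at hq
      have e1 : ∀ o ∈ q.1, sp o ⊆ X := fun o ho => hq.1.2.2 ▸ sp_sub_us sp ho
      have e2 : ∀ o ∈ q.2, ¬ sp o ⊆ X := fun o ho h => by
        obtain ⟨x, hx⟩ := hs o (hq.2.1 ho)
        exact disjoint_left.1 hd' (hq.1.2.2 ▸ h hx) (sp_sub_us sp ho hx)
      ext o <;> simp only [mem_filter, mem_union]
      · exact ⟨fun h => ⟨Or.inl h, e1 o h⟩, fun h => h.1.resolve_right fun h' => e2 o h' h.2⟩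
      · exact ⟨fun h => ⟨Or.inr h, e2 o h⟩, fun h => h.1.resolve_left fun h' => h.2 (e1 o h')⟩
    symm
    refine sum_bij (fun q _ => q.1 ∪ q.2) (fun q hq => ?_) (fun q hq q' hq' e => ?_)
      (fun O hO => ?_) fun q hq => ?_
    · have hd' := hdis q hq
      simp only [mem_product, mem_clus, mem_filter, mem_powerset] at hq ⊢
      refine ⟨union_subset hq.1.1 hq.2.1, ?_⟩
      rw [comps_union' sp hd', comps_conn' sp hq.1.2.1, image_union, image_singleton, hq.1.2.2,
        hq.2.2, insert_eq]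
    · rw [hfil q hq, hfil q' hq', e]
    · simp only [mem_filter, mem_powerset] at hO
      obtain ⟨O1, h1, e1⟩ := mem_image.1 (hO.2 ▸ mem_insert_self X 𝒳)
      obtain ⟨a1, a2, a3⟩ := mem_comps.1 h1
      refine ⟨(O1, O \ O1), ?_, union_sdiff_of_subset a1⟩
      simp only [mem_product, mem_clus, mem_filter, mem_powerset]
      refine ⟨⟨a1.trans hO.1, a2, e1⟩, sdiff_subset.trans hO.1, ?_⟩
      have e2 := hO.2
      rw [← union_sdiff_of_subset a1, comps_union' sp a3, comps_conn' sp a2, image_union,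
        image_singleton, e1, ← insert_eq] at e2
      have hn : X ∉ (comps sp (O \ O1)).image (us sp) := fun hm => by
        obtain ⟨x, hx⟩ := a2.us_ne fun o ho => hs o (hO.1 (a1 ho))
        refine disjoint_left.1 a3 hx ?_
        rw [← us_comps]
        exact mem_biUnion.2 ⟨X, hm, e1 ▸ hx⟩
      rw [← erase_insert hn, e2, erase_insert hX]
    · have hd' := hdis q hq
      simp only [mem_product, mem_clus, mem_filter, mem_powerset] at hq
      exact (hF _ hq.1.1 _ hq.2.1 hd').symm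

/-- factorisation into clusters -/
theorem factor (sp : Ω → Finset σ) (Ω0 : Finset Ω) (Λ : Finset σ)
    (hs : ∀ o ∈ Ω0, (sp o).Nonempty ∧ sp o ⊆ Λ) (F : Finset Ω → ℂ) (h0 : F ∅ = 1)
    (hF : ∀ O ⊆ Ω0, ∀ O' ⊆ Ω0, Disjoint (us sp O) (us sp O') → F (O ∪ O') = F O * F O')
    (I : σ → ℂ) : ∑ O ∈ Ω0.powerset, F O * ∏ y ∈ Λ \ us sp O, I y =
      Zp Λ (fun X => ∑ O ∈ clus sp Ω0 X, F O) I := by
  rw [Zp, ← sum_fiberwise_of_maps_to (g := fun O => (comps sp O).image (us sp))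
    (fun O hO => comps_fams sp fun o ho => hs o (mem_powerset.1 hO ho))]
  refine sum_congr rfl fun 𝒳 h𝒳 => ?_
  rw [← factor_fibre sp Ω0 (fun o ho => (hs o ho).1) F h0 hF 𝒳 (mem_fams.1 h𝒳).2.2, sum_mul]
  refine sum_congr rfl fun O hO => ?_
  rw [← (mem_filter.1 hO).2, us_comps]

theorem Zp_congr {Λ : Finset σ} {K K' : Finset σ → ℂ} {I I' : σ → ℂ}
    (h : ∀ X ⊆ Λ, X.Nonempty → K X = K' X) (hI : ∀ y ∈ Λ, I y = I' y) : Zp Λ K I = Zp Λ K' I' := by
  refine sum_congr rfl fun 𝒳 h𝒳 => ?_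
  obtain ⟨a1, a2, -⟩ := mem_fams.1 h𝒳
  rw [prod_congr rfl fun X hX => h X (a1 X hX) (nonempty_iff_ne_empty.2 (by rintro rfl; exact a2 hX)),
    prod_congr rfl fun y hy => hI y (mem_sdiff.1 hy).1]

/-- a connected family with pairwise disjoint supports has one member -/
theorem Conn.single {sp : Ω → Finset σ} {O : Finset Ω} (h : Conn sp O)
    (hd : (O : Set Ω).PairwiseDisjoint sp) : ∃ o, O = {o} := by
  obtain ⟨o, ho⟩ := h.1
  refine ⟨o, ?_⟩
  by_contra hne
  refine h.2 {o} (singleton_subset_iff.2 ho) (singleton_nonempty o) (Ne.symm hne) ?_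
  refine disjoint_us.2 fun a ha b hb => ?_
  rw [mem_singleton.1 ha]
  simp only [mem_sdiff, mem_singleton] at hb
  exact hd ho hb.1 (Ne.symm hb.2)

/-- labelled polymers as objects -/
theorem Zp_labels {Lb : Type} [DecidableEq Lb] (Λ : Finset σ) (lb : Finset σ → Finset Lb)
    (co : Lb → Finset σ) (hco : ∀ X, ∀ c ∈ lb X, co c ⊆ X) (K : Finset σ → Lb → ℂ) (I : σ → ℂ) :
    Zp Λ (fun X => ∑ c ∈ lb X, K X c * ∏ y ∈ X \ co c, I y) I =
      ∑ O ∈ ((Λ.powerset.filter Finset.Nonempty).sigma lb).powerset,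
        (open Classical in if (O : Set (Σ _ : Finset σ, Lb)).PairwiseDisjoint (fun o => o.1) then
          (∏ o ∈ O, K o.1 o.2) * ∏ y ∈ Λ \ O.biUnion (fun o => co o.2), I y else 0) := by
  classical
  set Ω0 := (Λ.powerset.filter Finset.Nonempty).sigma lb with hΩ
  have hm : ∀ o ∈ Ω0, o.1 ⊆ Λ ∧ o.1.Nonempty ∧ o.2 ∈ lb o.1 := fun o ho => by
    simpa [hΩ, and_assoc] using ho
  set F : Finset (Σ _ : Finset σ, Lb) → ℂ := fun O =>
    if (O : Set (Σ _ : Finset σ, Lb)).PairwiseDisjoint (fun o => o.1) then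
      ∏ o ∈ O, (K o.1 o.2 * ∏ y ∈ o.1 \ co o.2, I y) else 0 with hFd
  have hf := factor (fun o : (Σ _ : Finset σ, Lb) => o.1) Ω0 Λ
    (fun o ho => ⟨(hm o ho).2.1, (hm o ho).1⟩) F (by simp [hFd]) (fun O hO O' hO' hd => ?_) I
  · rw [Zp_congr (K' := fun X => ∑ O ∈ clus (fun o : (Σ _ : Finset σ, Lb) => o.1) Ω0 X, F O)
      (I' := I) (fun X hX hne => ?_) (fun _ _ => rfl), ← hf]
    · refine sum_congr rfl fun O hO => ?_
      have hO' := mem_powerset.1 hO
      simp only [hFd]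
      split_ifs with hp
      · rw [prod_mul_distrib, mul_assoc, ← prod_biUnion (hp.mono fun o => sdiff_subset),
          ← prod_union]
        · congr 2
          ext y
          simp only [mem_union, mem_biUnion, mem_sdiff, mem_us, not_exists, not_and]
          constructor
          · rintro (⟨o, h1, h2, h3⟩ | ⟨h1, h2⟩)
            · refine ⟨(hm o (hO' h1)).1 h2, fun o' h4 h5 => ?_⟩
              by_cases e : o = o'
              · exact h3 (e ▸ h5)
              · exact disjoint_left.1 (hp h1 h4 e) h2 (hco _ _ (hm o' (hO' h4)).2.2 h5)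
            · exact ⟨h1, fun o h3 h4 => h2 o h3 (hco _ _ (hm o (hO' h3)).2.2 h4)⟩
          · rintro ⟨h1, h2⟩
            by_cases e : ∃ o ∈ O, y ∈ o.1
            · obtain ⟨o, h3, h4⟩ := e
              exact Or.inl ⟨o, h3, h4, h2 o h3⟩
            · exact Or.inr ⟨h1, fun o h3 h4 => e ⟨o, h3, h4⟩⟩
        · refine disjoint_left.2 fun y hy hy' => ?_
          obtain ⟨o, h1, h2⟩ := mem_biUnion.1 hy
          exact (mem_sdiff.1 hy').2 (mem_us.2 ⟨o, h1, (mem_sdiff.1 h2).1⟩)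
      · exact zero_mul _
    · symm
      rw [← sum_filter_add_sum_filter_not _ (fun O : Finset (Σ _ : Finset σ, Lb) =>
        (O : Set (Σ _ : Finset σ, Lb)).PairwiseDisjoint (fun o => o.1)),
        sum_eq_zero (s := filter (fun O => ¬ _) _) fun O hO => if_neg (mem_filter.1 hO).2, add_zero]
      symm
      refine sum_bij (fun c _ => {⟨X, c⟩}) (fun c hc => ?_) (fun c _ c' _ e => ?_)
        (fun O hO => ?_) fun c _ => ?_
      · refine mem_filter.2 ⟨mem_clus.2 ⟨?_, conn_single _ _, us_singleton _ _⟩, by simp⟩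
        simp [hΩ, hX, hne, hc]
      · simpa using e
      · obtain ⟨a1, a2⟩ := mem_filter.1 hO
        obtain ⟨b1, b2, b3⟩ := mem_clus.1 a1
        obtain ⟨⟨Y, c⟩, rfl⟩ := b2.single a2
        rw [us_singleton] at b3
        subst b3
        exact ⟨c, (hm _ (b1 (mem_singleton_self _))).2.2, rfl⟩
      · simp [hFd]
  · have hdd : Disjoint O O' := disjoint_left.2 fun o h1 h2 =>
      (hm o (hO h1)).2.1.ne_empty (disjoint_self.1 (disjoint_us.1 hd o h1 o h2))
    have : ((O ∪ O' : Finset _) : Set (Σ _ : Finset σ, Lb)).PairwiseDisjoint (fun o => o.1) ↔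
        (O : Set (Σ _ : Finset σ, Lb)).PairwiseDisjoint (fun o => o.1) ∧
        (O' : Set (Σ _ : Finset σ, Lb)).PairwiseDisjoint (fun o => o.1) := by
      rw [coe_union, Set.pairwiseDisjoint_union]
      exact ⟨fun h => ⟨h.1, h.2.1⟩, fun h => ⟨h.1, h.2, fun a ha b hb _ =>
        disjoint_us.1 hd a ha b hb⟩⟩
    simp only [hFd, this]
    by_cases h1 : (O : Set (Σ _ : Finset σ, Lb)).PairwiseDisjoint (fun o => o.1) <;>
      by_cases h2 : (O' : Set (Σ _ : Finset σ, Lb)).PairwiseDisjoint (fun o => o.1) <;>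
      simp [h1, h2, prod_union hdd]

theorem Zp_bound (Λ : Finset σ) (K : Finset σ → ℂ) (I : σ → ℂ) (w : Finset σ → ℝ) {θ : ℝ}
    (hI : ∀ y, ‖I y‖ ≤ 1) (hK : ∀ X, ‖K X‖ ≤ w X)
    (h : ∀ x, ∑ X ∈ Λ.powerset.filter (fun X => x ∈ X), w X ≤ θ) :
    ‖Zp Λ K I‖ ≤ Real.exp (θ * Λ.card) := by
  have hw : ∀ X, 0 ≤ w X := fun X => (norm_nonneg _).trans (hK X)
  set S := Λ.powerset.filter Finset.Nonempty with hS
  calc ‖Zp Λ K I‖ ≤ ∑ 𝒳 ∈ fams Λ, ∏ X ∈ 𝒳, w X := by
        refine norm_sum_le_of_le _ fun 𝒳 _ => ?_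
        rw [norm_mul, norm_prod, norm_prod]
        exact (mul_le_of_le_one_right (prod_nonneg fun _ _ => norm_nonneg _)
          (prod_le_one (fun _ _ => norm_nonneg _) fun y _ => hI y)).trans
          (prod_le_prod (fun _ _ => norm_nonneg _) fun X _ => hK X)
    _ ≤ ∑ 𝒳 ∈ S.powerset, ∏ X ∈ 𝒳, w X := by
        refine sum_le_sum_of_subset_of_nonneg (fun 𝒳 h𝒳 => ?_)
          fun _ _ _ => prod_nonneg fun X _ => hw X
        obtain ⟨a1, a2, -⟩ := mem_fams.1 h𝒳
        exact mem_powerset.2 fun X hX => mem_filter.2 ⟨mem_powerset.2 (a1 X hX),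
          nonempty_iff_ne_empty.2 (by rintro rfl; exact a2 hX)⟩
    _ = ∏ X ∈ S, (1 + w X) := (prod_one_add S).symm
    _ ≤ ∏ X ∈ S, Real.exp (w X) :=
        prod_le_prod (fun X _ => by linarith [hw X]) fun X _ => by
          linarith [Real.add_one_le_exp (w X)]
    _ = Real.exp (∑ X ∈ S, w X) := (Real.exp_sum _ _).symm
    _ ≤ _ := by
        refine Real.exp_le_exp.2 ?_
        calc ∑ X ∈ S, w X ≤ ∑ X ∈ Λ.powerset, ∑ x ∈ Λ.filter (fun x => x ∈ X), w X := by
              rw [hS, sum_filter]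
              refine sum_le_sum fun X hX => ?_
              rw [sum_const, nsmul_eq_mul]
              split_ifs with hne
              · obtain ⟨x, hx⟩ := hne
                have : 1 ≤ (Λ.filter (fun x => x ∈ X)).card :=
                  card_pos.2 ⟨x, mem_filter.2 ⟨mem_powerset.1 hX hx, hx⟩⟩
                exact le_mul_of_one_le_left (hw X) (by exact_mod_cast this)
              · exact mul_nonneg (Nat.cast_nonneg _) (hw X)
          _ = ∑ x ∈ Λ, ∑ X ∈ Λ.powerset.filter (fun X => x ∈ X), w X := by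
              simp only [sum_filter]
              exact sum_comm
          _ ≤ ∑ _x ∈ Λ, θ := sum_le_sum fun x _ => h x
          _ = _ := by rw [sum_const, nsmul_eq_mul, mul_comm]

end Pool.Agent.Lib.MP_7f377f_mp.RG.Q4
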