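import Pool.Agent.Lib.MP_7f377f_mp.G.Q4LipK

/-! The tangent map of one step and slowly varying multiples of a direction. -/

noncomputable section

set_option linter.unusedSectionVars false
variable [Pool.Agent.Lib.MP_7f377f_mp.GD]

namespace Pool.Agent.Lib.MP_7f377f_mp.RG.Q4.En.Pos

open Finset Real
open scoped Classical

/-! ### Slowly varying functions -/

/-- Lipschitz functions on the torus of side `n` -/
def LipT (n : ℕ) (a : ℝ) (F : St → ℂ) : Prop :=
  ∀ x y (R : ℕ), nearT n R x y → ‖F x - F y‖ ≤ a * R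

theorem near_up {l n R : ℕ} {x y : St} (h : nearT n R x y) :
    nearT (LL l * n) (LL l * R) (up l x) (up l y) := by
  obtain ⟨v, hv⟩ := nearT_iff.1 h
  refine nearT_iff.2 ⟨v, fun i => ?_⟩
  have h0 : (0 : ℤ) ≤ LL l := Nat.cast_nonneg _
  have a := mul_le_mul_of_nonneg_left (hv i).1 h0
  have b := mul_le_mul_of_nonneg_left (hv i).2 h0
  simp only [up, Pi.smul_apply, smul_eq_mul]
  push_cast
  constructor <;> linarith

theorem near_yo {l n R : ℕ} {x y : St} (h : nearT n R y (yo l x)) :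
    nearT (LL l * n) (LL l * (R + 1)) (up l y) x :=
  ((near_up h).trans (nearT_of_box (sub_up_yo_mem l x))).mono (by unfold LL; nlinarith)

theorem LipT.up {l n : ℕ} {a : ℝ} {F : St → ℂ} (h : LipT (LL l * n) a F) :
    LipT n (LL l * a) fun y => F (up l y) := fun x y R e =>
  (h _ _ _ (near_up e)).trans_eq (by push_cast; ring)

theorem lip_line {a : ℝ} {F : St → ℂ} (h : ∀ x i, ‖F (x + un i) - F x‖ ≤ a) (i : Fin 4) (t : ℤ) :
    ∀ x, ‖F (x + t • un i) - F x‖ ≤ a * |t| := by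
  induction t with
  | zero => simp
  | succ t ih =>
    intro x
    rw [add_smul, one_smul, ← add_assoc, abs_of_nonneg (by omega)]
    rw [abs_of_nonneg (by omega)] at ih
    exact (norm_sub_le_norm_sub_add_norm_sub _ _ _).trans
      ((add_le_add (h _ i) (ih x)).trans_eq (by push_cast; ring))
  | pred t ih =>
    intro x
    have := h (x + (-(t : ℤ) - 1) • un i) i
    rw [add_assoc, ← add_one_zsmul, sub_add_cancel, norm_sub_rev] at this
    rw [abs_of_nonpos (by omega)] at ih ⊢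
    exact (norm_sub_le_norm_sub_add_norm_sub _ _ _).trans
      ((add_le_add this (ih x)).trans_eq (by push_cast; ring))

theorem lipT_of_steps {n : ℕ} {a : ℝ} {F : St → ℂ} (hp : ∀ x v : St, F (x + (n : ℤ) • v) = F x)
    (h : ∀ x i, ‖F (x + un i) - F x‖ ≤ a) : LipT n (4 * a) F := by
  rintro x y R ⟨v, hv⟩
  obtain ⟨w, hw⟩ : ∃ w, w = y - x - (n : ℤ) • v := ⟨_, rfl⟩
  rw [← hw] at hv
  have a0 := (norm_nonneg _).trans (h 0 0)
  have b : ∀ z i, ‖F (z + w i • un i) - F z‖ ≤ a * R := fun z i => (lip_line h i _ z).trans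
    (mul_le_mul_of_nonneg_left (by exact_mod_cast abs_le.2 (mem_box.1 hv i)) a0)
  have e : y = x + w 0 • un 0 + w 1 • un 1 + w 2 • un 2 + w 3 • un 3 + (n : ℤ) • v := by
    rw [show y = x + w + (n : ℤ) • v by rw [hw]; abel]
    congr 1
    funext i
    fin_cases i <;> simp [un]
  rw [e, hp, norm_sub_rev]
  linarith [norm_sub_le_norm_sub_add_norm_sub _ _ (F x) |>.trans (add_le_add (b _ 3)
    (norm_sub_le_norm_sub_add_norm_sub _ _ (F x) |>.trans (add_le_add (b _ 2)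
      (norm_sub_le_norm_sub_add_norm_sub _ _ (F x) |>.trans (add_le_add (b _ 1) (b x 0))))))]

/-- functions on the discrete torus -/
theorem lipT_zmod {n : ℕ} {a : ℝ} {g : (Fin 4 → ZMod n) → ℝ}
    (h : ∀ x l, |g (x + Pi.single l 1) - g x| ≤ a) :
    LipT n (4 * a) fun x => g fun i => (x i : ZMod n) := by
  refine lipT_of_steps (fun x v => by simp) fun x l => ?_
  rw [← Complex.ofReal_sub, Complex.norm_real, show (fun i => ((x + un l) i : ZMod n)) =
    (fun i => (x i : ZMod n)) + Pi.single l 1 from funext fun i => by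
      by_cases e : i = l <;> simp [un, e]]
  exact h _ l

/-- a point of `X` -/
def px (X : Finset St) : St := if h : X.Nonempty then h.choose else 0

theorem px_mem {X : Finset St} (h : X.Nonempty) : px X ∈ X := by
  rw [px, dif_pos h]
  exact h.choose_spec

/-- local terms multiplied by a function of the site -/
def mL (F : St → ℂ) (ψ : Lx) : Lx := fun x => F x • ψ x

/-- activities multiplied by a function of the position -/
def mA (F : St → ℂ) (K : Ac) : Ac := fun X => F (px X) • K X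

/-! ### Sizes -/

section sizes

variable {p : Pa} {n : ℕ} {Q g x y x' y' ω A : ℝ} {ψ ψ' : Lx} {K K' : Ac} {k : Mj} {F : St → ℂ}

theorem km_mA (h : KM p n k K) (F : St → ℂ) : KM p n (fun X c => ‖F (px X)‖ * k X c) (mA F K) :=
  ⟨fun X => (h.smul (F (px X))).meas X, fun X => (h.smul (F (px X))).per X,
    fun X => (h.smul (F (px X))).dep X, fun X => (h.smul (F (px X))).gi X,
    fun X => (h.smul (F (px X))).bd X⟩

theorem km_mA' (h : KM p n k K) (k0 : ∀ X c, 0 ≤ k X c) (hF : ∀ x, ‖F x‖ ≤ A) :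
    KM p n (A • k) (mA F K) :=
  (km_mA h F).mono fun X c => mul_le_mul_of_nonneg_right (hF _) (k0 X c)

theorem pm_mL {a b c : ℝ} (h0 : 0 < p.ρ) (h : PM p a b c ψ) (hF : ∀ x, ‖F x‖ ≤ A) :
    PM p (A * a) (A * b) (A * c) (mL F ψ) := fun v =>
  have n := (h v).1.nonneg h0
  ⟨((h v).1.smul h0 (F v)).1.mono' h0 (mul_le_mul_of_nonneg_right (hF v) n.1)
    (mul_le_mul_of_nonneg_right (hF v) n.2.1) (mul_le_mul_of_nonneg_right (hF v) n.2.2),
    (h v).2.const_mul _⟩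

theorem sz_mul (h0 : 0 < p.ρ) (h : Sz p n Q g x y ω ψ K) (hF : ∀ x, ‖F x‖ ≤ A) :
    Sz p n Q g (A * x) (A * y) ω (mL F ψ) (mA F K) := by
  obtain ⟨a, k, k1, k2⟩ := h
  refine ⟨?_, _, km_mA' k1 k2.1 hF, (k2.smul ((norm_nonneg _).trans (hF 0))).mono (le_of_eq ?_)⟩
  · convert pm_mL h0 a hF using 1 <;> ring
  · ring

theorem sz_smul (h0 : 0 < p.ρ) (h : Sz p n Q g x y ω ψ K) (t : ℂ) :
    Sz p n Q g (‖t‖ * x) (‖t‖ * y) ω (t • ψ) (t • K) := sz_mul (F := fun _ => t) h0 h fun _ => le_rfl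

theorem sz_add (h0 : 0 < p.ρ) (h : Sz p n Q g x y ω ψ K) (h' : Sz p n Q g x' y' ω ψ' K') :
    Sz p n Q g (x + x') (y + y') ω (ψ + ψ') (K + K') := by
  obtain ⟨a, k, k1, k2⟩ := h
  obtain ⟨a', k', k1', k2'⟩ := h'
  refine ⟨fun v => ⟨?_, (a v).2.add (a' v).2⟩, _, k1.add k1', (k2.add k2').mono (le_of_eq ?_)⟩
  · convert ((a v).1.add (a' v).1 h0).1 using 1 <;> first | rfl | ring
  · ring

theorem sz_sub (h0 : 0 < p.ρ) (h : Sz p n Q g x y ω ψ K) (h' : Sz p n Q g x' y' ω ψ' K') :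
    Sz p n Q g (x + x') (y + y') ω (ψ - ψ') (K - K') := by
  simpa [sub_eq_add_neg] using sz_add h0 h (sz_smul h0 h' (-1))

theorem sz_mono (h0 : 0 < p.ρ) (_ : 0 ≤ Q) (ω0 : 0 ≤ ω) (h : Sz p n Q g x y ω ψ K) (hx : x ≤ x')
    (hy : y ≤ y') : Sz p n Q g x' y' ω ψ K := by
  obtain ⟨a, k, k1, k2⟩ := h
  exact ⟨fun v => ⟨(a v).1.mono' h0 hx (by gcongr) (by gcongr), (a v).2⟩, k, k1,
    k2.mono (by gcongr)⟩

end sizes

/-! ### The tangent map -/

variable {S : Sd} {x y u ω N N' E A a : ℝ} {ψ φ φ' : Lx} {K J J' : Ac} {d : Mj} {F : St → ℂ}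

/-- the ball which contains the base points -/
def Bs (S : Sd) (ψ : Lx) (K : Ac) : Prop := ∃ k, S.Sml (S.Q ^ 20 * S.g) (S.g * √S.g) k ψ K

/-- size of a direction at the fine level -/
def Tz (S : Sd) (N : ℝ) (φ : Lx) (J : Ac) : Prop := Sz S.p S.nf S.QM S.g N N (√S.g) φ J

theorem qsq (h : S.Nu 100) {i : ℕ} (hi : i ≤ 250) : S.Q ^ i * √S.g ≤ 1 := by
  refine le_of_sq_le_sq ?_ zero_le_one
  rw [mul_pow, sq_sqrt h.ok.g0.le, ← pow_mul, one_pow]
  simpa using h.ok.Qg_le (i := i * 2) (j := 0) (by omega)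

theorem rho'_pos (h : S.Nu 100) : 0 < S.p'.ρ := mul_pos (pow_pos S.Q0 3) h.ok.g'0

theorem bl (h : S.Nu 100) : Bl S (S.Q ^ 20 * S.g) (S.g * √S.g) := by
  have g0 := h.ok.g0
  have u0 := sqrt_nonneg S.g
  have a1 := qsq h (i := 0) (by norm_num)
  have a2 : 1000 * (S.Q ^ 120 * S.g) ≤ 1 := by
    linarith [mul_le_mul_of_nonneg_right (qpw h (i := 120) (j := 121) (by norm_num)) g0.le,
      h.ok.Qg_le (i := 121) (j := 0) (by norm_num)]
  have a3 : S.Q ^ 100 * S.g ≤ S.Q ^ 120 * S.g :=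
    mul_le_mul_of_nonneg_right (S.Qw (by norm_num)) g0.le
  have a4 : 1000 * (S.Q ^ 131 * √S.g) ≤ 1 := by
    linarith [mul_le_mul_of_nonneg_right (qpw h (i := 131) (j := 132) (by norm_num)) u0,
      qsq h (i := 132) (by norm_num)]
  have Q0 := S.Q0
  refine ⟨le_mul_of_one_le_left g0.le (one_le_pow₀ S.Q1), ?_, by linarith, ?_⟩
  · calc _ = 5 * (S.Q ^ 131 * √S.g) * (S.g * √S.g) := by
          rw [show ∀ q : ℝ, 5 * (q * √S.g) * (S.g * √S.g) = 5 * q * S.g * (√S.g * √S.g) from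
            fun q => by ring, mul_self_sqrt g0.le]
          ring
      _ ≤ _ := mul_le_of_le_one_left (by positivity) (by linarith)
  · nlinarith [mul_pos (pow_pos Q0 100) g0]

theorem Bs.rm (h : S.Nu 100) (b : Bs S ψ K) : Rm S ψ K := by
  obtain ⟨k, s⟩ := b
  exact ⟨_, _, k, s, by linarith [(bl h).b_le], by linarith [(bl h).θ_le]⟩

theorem bs_of_sz (h : S.Nu 100) (z : Sz S.p S.nf S.QM S.g u u ω ψ K) (hω : S.Q ^ 100 * ω ≤ 1)
    (hu : u * √S.g ≤ 1) : Bs S ψ K := by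
  obtain ⟨k, k1, k2⟩ := z.2
  have u0 := (z.nn h).1
  have g0 := h.ok.g0
  have Q0 := S.Q0
  have r0 := sqrt_nonneg S.g
  have e := mul_self_sqrt g0.le
  have a1 := qsq h (i := 0) (by norm_num)
  have a2 : u * S.g ≤ 1 := by nlinarith
  have a3 := qom h hω (i := 0) (by norm_num)
  refine ⟨k, by linarith [(bl h).b_le, mul_pos (pow_pos Q0 120) g0],
    by nlinarith [(bl h).θ_le, mul_nonneg (pow_pos Q0 100).le (mul_nonneg g0.le r0)],
    pu_mono (z.pu h hω) ?_, k1, k2.mono ?_⟩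
  · calc _ = 2 * S.Q ^ 10 * (u * S.g) * S.g := by ring
      _ ≤ S.Q ^ 20 * 1 * S.g := by
        gcongr
        linarith [qpw h (i := 10) (j := 20) (by norm_num), pow_pos Q0 10]
      _ = _ := by ring
  · calc _ = ω * (u * (√S.g * √S.g) * S.g) := by rw [e]; ring
      _ ≤ 1 * (u * (√S.g * √S.g) * S.g) := by gcongr; linarith
      _ = u * √S.g * (S.g * √S.g) := by ring
      _ ≤ _ := mul_le_of_le_one_left (by positivity) hu

/-- one majorant for all directions with given sizes -/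
theorem tan_K (h : S.Nu 100) (f : St2 S) (b : Bs S ψ K) (d1 : kN S.p S.nf d (√S.g * y * S.g ^ 2))
    (x0 : 0 ≤ x) (h0 : 0 < x + y) : ∃ m, kN S.p'.up S.n m (8 / S.Q * (√S.g * (x + y) * S.g ^ 2)) ∧
      ∀ φ J, Sz S.p S.nf S.QM S.g x y (√S.g) φ J → KM S.p S.nf d J →
        KM S.p' S.n m (dK S ψ K φ J) := by
  obtain ⟨k, s⟩ := b
  have g0 := h.ok.g0
  have Q0 := S.Q0
  obtain ⟨m, m1, m2⟩ := lipK (e := (x + y) * S.g) h f (bl h) s.kn (d1.mono (by
    calc _ ≤ √S.g * (x + y) * S.g ^ 2 := by gcongr; linarith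
      _ = _ := by ring)) (by positivity)
  refine ⟨_, (m1.smul (by positivity)).mono (le_of_eq (by ring)), fun φ J z j =>
    (m2 ψ K φ J s (pu_mono (z.pu h (qsq h (by norm_num))) ?_) j).1⟩
  calc _ ≤ S.Q ^ 20 * (x + y) * S.g ^ 2 := by gcongr; exacts [S.Q1, by norm_num]
    _ = _ := by ring

/-! ### Slowly varying multiples -/

/-- the variation of `F` on the blocks of `Y` -/
def vr (S : Sd) (F : St → ℂ) (t : ℂ) (Y : Finset St) (x : St) : ℂ :=
  if yo S.l x ∈ Y then F x - t else 0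

theorem vr_ag (h : S.Nu 100) (t : ℂ) (Y : Finset St) :
    S.AgD Y (mL F φ - t • φ) (mL (vr S F t Y) φ) (mA F J - t • J) (mA (vr S F t Y) J) := by
  refine ⟨fun x _ hx => by simp only [mL, vr, if_pos hx, sub_smul, Pi.sub_apply, Pi.smul_apply],
    fun o ho hY => ?_⟩
  obtain ⟨o1, o2, -⟩ := mem_lps.1 ho
  have : yo S.l (px o.1) ∈ Y := hY (mem_image.2 ⟨_, px_mem o2,
    rc_eq h.ok.odd (Cov.yo_mem h.ok.odd (o1 (px_mem o2)))⟩)
  simp only [mA, vr, if_pos this, sub_smul, Pi.sub_apply, Pi.smul_apply]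

theorem vr_le (hL : LipT S.nf a F) (a0 : 0 ≤ a) {Y : Finset St} {y : St} {R : ℕ}
    (hY : ∀ z ∈ Y, nearT S.n R y z) (x : St) :
    ‖vr S F (F (up S.l y)) Y x‖ ≤ S.L * a * (R + 1) := by
  have := Sd.L0 S.toTd
  rw [vr]
  split_ifs with e
  · exact (hL _ _ _ (near_yo (hY _ e)).symm).trans_eq (by push_cast [Td.L]; ring)
  · rw [norm_zero]
    positivity

theorem pl_sub (f : St2 S) (a : Dir S φ J) (a' : Dir S φ' J') (t : ℂ) :
    S.PL (φ - t • φ') (J - t • J') = S.PL φ J - t • S.PL φ' J' := by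
  obtain ⟨_, _, _, p1, p2, -⟩ := a
  obtain ⟨_, _, _, q1, q2, -⟩ := a'
  simpa [sub_eq_add_neg] using f.lin _ _ _ _ _ _ _ _ (-t) p1 q1 p2 q2

end Pool.Agent.Lib.MP_7f377f_mp.RG.Q4.En.Pos
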