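import Pool.Agent.Lib.MP_7f377f_mp.G.Q4Def2
import Pool.Agent.Lib.MP_7f377f_mp.G.Q4Fs
import Pool.Agent.Lib.MP_7f377f_mp.G.Q4IniC

/-! Translations of the torus: sets, data, objects and holes. -/

noncomputable section

set_option linter.unusedSectionVars false
variable [Pool.Agent.Lib.MP_7f377f_mp.GD]

namespace Pool.Agent.Lib.MP_7f377f_mp.RG.Q4

open Finset MeasureTheory
open scoped Classical

attribute [local irreducible] box lbox

namespace Sh

section abs

variable {σ σ' Ω Ω' : Type} [DecidableEq σ] [DecidableEq σ'] [DecidableEq Ω] [DecidableEq Ω']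

omit [DecidableEq σ] in
theorem disj_image {φ : σ → σ'} {Λ A B : Finset σ} (hφ : Set.InjOn φ Λ) (hA : A ⊆ Λ) (hB : B ⊆ Λ) :
    Disjoint (A.image φ) (B.image φ) ↔ Disjoint A B := by
  refine ⟨Disjoint.of_image_finset, fun hd => disjoint_left.2 fun y hy hy' => ?_⟩
  obtain ⟨a, ha, rfl⟩ := mem_image.1 hy
  obtain ⟨b, hb, e2⟩ := mem_image.1 hy'
  obtain rfl := hφ (hB hb) (hA ha) e2
  exact disjoint_left.1 hd ha hb

omit [DecidableEq σ] in
theorem mem_img {φ : σ → σ'} {Λ A : Finset σ} (hφ : Set.InjOn φ Λ) (hA : A ⊆ Λ) {x : σ}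
    (hx : x ∈ Λ) : φ x ∈ A.image φ ↔ x ∈ A :=
  ⟨fun h => by
    obtain ⟨a, ha, e⟩ := mem_image.1 h
    exact hφ (hA ha) hx e ▸ ha, mem_image_of_mem _⟩

theorem image_sdiff_of_inj {φ : σ → σ'} {Λ A B : Finset σ} (hφ : Set.InjOn φ Λ) (hA : A ⊆ Λ)
    (hB : B ⊆ Λ) : (A \ B).image φ = A.image φ \ B.image φ := by
  ext y
  simp only [mem_sdiff, mem_image]
  constructor
  · rintro ⟨a, ⟨ha, hb⟩, rfl⟩
    exact ⟨⟨a, ha, rfl⟩, fun h => hb ((mem_img hφ hB (hA ha)).1 (mem_image.2 h))⟩
  · rintro ⟨⟨a, ha, rfl⟩, hb⟩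
    exact ⟨a, ⟨ha, fun h => hb ⟨a, h, rfl⟩⟩, rfl⟩

theorem comps_image {sp : Ω → Finset σ} {sp' : Ω' → Finset σ'} {e : Ω → Ω'} {φ : σ → σ'}
    {O : Finset Ω} (he : Set.InjOn e O) (hφ : Set.InjOn φ (us sp O))
    (h : ∀ o ∈ O, sp' (e o) = (sp o).image φ) :
    comps sp' (O.image e) = (comps sp O).image (image e) := by
  have k : ∀ O1 ⊆ O, O1.image e ∈ comps sp' (O.image e) ↔ O1 ∈ comps sp O := fun O1 h1 => by
    rw [mem_comps, mem_comps, conn_image (he.mono h1) (hφ.mono (us_mono sp h1))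
      fun o ho => h o (h1 ho), ← image_sdiff_of_injOn he h1, us_image fun o ho => h o (h1 ho),
      us_image fun o ho => h o (sdiff_subset ho),
      disj_image hφ (us_mono sp h1) (us_mono sp sdiff_subset)]
    exact and_congr_left' ⟨fun _ => h1, image_subset_image⟩
  ext O2
  constructor
  · intro h2
    obtain ⟨O1, a, rfl⟩ := subset_image_iff.1 (mem_comps.1 h2).1
    exact mem_image_of_mem _ ((k O1 a).1 h2)
  · intro h2
    obtain ⟨O1, a, rfl⟩ := mem_image.1 h2
    exact (k O1 (mem_comps.1 a).1).2 a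

theorem left_image {α β γ δ : Type} [DecidableEq γ] [DecidableEq (γ ⊕ δ)] (O : Finset (α ⊕ β))
    (f : α → γ) (g : β → δ) : (O.image (Sum.map f g)).toLeft = O.toLeft.image f := by
  ext a
  simp [Sum.exists]

theorem right_image {α β γ δ : Type} [DecidableEq δ] [DecidableEq (γ ⊕ δ)] (O : Finset (α ⊕ β))
    (f : α → γ) (g : β → δ) : (O.image (Sum.map f g)).toRight = O.toRight.image g := by
  ext a
  simp [Sum.exists]

theorem sum_image' {α β γ δ : Type} [DecidableEq γ] [DecidableEq δ] [DecidableEq (γ ⊕ δ)]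
    (A : Finset α) (B : Finset β) (f : α → γ) (g : β → δ) :
    (A.image f).disjSum (B.image g) = (A.disjSum B).image (Sum.map f g) := by
  ext (a | a) <;> simp [Sum.exists]

end abs

variable {n l : ℕ} {v w x y : St} {X Y : Finset St} {c : Finset (Finset St)}

/-- translation of the sites of the torus -/
abbrev tp (n : ℕ) (v : St) : St → St := fun x => rc n (x + v)

theorem tp_tp (n : ℕ) (v w x : St) : tp n w (tp n v x) = tp n (v + w) x := by
  simp only [tp, rc_add_rc, add_assoc]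

theorem trS_trS (n : ℕ) (v w : St) (X : Finset St) : trS n w (trS n v X) = trS n (v + w) X := by
  unfold trS
  rw [image_image]
  exact congrArg (image · X) (funext (tp_tp n v w))

theorem tp_zero (hn : Odd n) (hx : x ∈ box (n / 2)) : tp n 0 x = x := by
  simp only [tp, add_zero, rc_eq hn hx]

theorem trS_zero (hn : Odd n) (hX : X ⊆ box (n / 2)) : trS n 0 X = X :=
  (image_congr fun _ hx => tp_zero hn (hX hx)).trans image_id

theorem trS_dom (hn : Odd n) : trS n v X ⊆ box (n / 2) := image_subset_iff.2 fun _ _ => rc_mem hn _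

theorem trS_inj (hn : Odd n) (v : St) : Set.InjOn (trS n v) (box (n / 2)).powerset :=
  fun _ a _ b e => (image_eq_image_iff_of_injOn (In.sh_inj hn v) (mem_powerset.1 a)
    (mem_powerset.1 b)).1 e

theorem trS_bi (n : ℕ) (v : St) (c : Finset (Finset St)) :
    (c.image (trS n v)).biUnion id = trS n v (c.biUnion id) := by
  rw [image_biUnion, trS, biUnion_image]
  rfl

theorem up_rc (l n : ℕ) (y : St) : ∃ w : St, up l (rc n y) = up l y + ((LL l * n : ℕ) : ℤ) • w := by
  obtain ⟨w, e⟩ := rc_exists n y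
  exact ⟨w, by rw [e, up_add, up_per]⟩

theorem tp_up_rc (l n : ℕ) (y : St) : tp (LL l * n) (up l (rc n y)) = tp (LL l * n) (up l y) := by
  obtain ⟨w, e⟩ := up_rc l n y
  funext x
  simp only [tp, e, ← add_assoc, rc_add_smul]

theorem trS_up_rc (l n : ℕ) (y : St) :
    trS (LL l * n) (up l (rc n y)) = trS (LL l * n) (up l y) :=
  funext fun X => congrArg (image · X) (tp_up_rc l n y)

theorem pc_per {α : Type} {U : Lk → α} (hU : Per n U) : pc n U = U :=
  funext fun e => Mx.per_iff.1 hU _ _ _ (Mx.cg_rc n e.1)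

theorem sh_rc {α : Type} {U : Lk → α} (hU : Per n U) (y : St) : sh (rc n y) U = sh y U := by
  obtain ⟨w, e⟩ := rc_exists n y
  rw [e, ← sh_sh, hU.sh_smul]

theorem sh_tp {α : Type} {U : Lk → α} (hU : Per n U) (v y : St) :
    sh (tp n v y) U = sh y (sh v U) := by rw [sh_rc hU, sh_sh]

theorem sh_up_tp {α : Type} {U : Lk → α} (hU : Per (LL l * n) U) (v y : St) :
    sh (up l (tp n v y)) U = sh (up l y) (sh (up l v) U) := by
  obtain ⟨w, e⟩ := up_rc l n (y + v)
  rw [e, ← sh_sh, hU.sh_smul, sh_sh, up_add]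

theorem ps_tp {α : Type} {ω : St → α} (h : PS n ω) (v y : St) : ω (tp n v y) = shv v ω y := by
  obtain ⟨w, e⟩ := rc_exists n (y + v)
  exact (congrArg ω e).trans (h _ _)

theorem shv_tp {α : Type} {ω : St → α} (h : PS n ω) (v y : St) :
    shv (tp n v y) ω = shv y (shv v ω) := by
  obtain ⟨w, e⟩ := rc_exists n (y + v)
  funext x
  simp only [shv, tp, e, ← add_assoc]
  exact h _ _

theorem Bx_tp {W : Conf} (hW : Per n W) (v y : St) :
    Bx (tp n v y) (cC W) = Bx y (cC (sh v W)) := by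
  rw [← zero_add (tp n v y), ← Bx_sh, sh_cC, sh_tp hW, ← sh_cC, Bx_sh, zero_add]

theorem chi_tp (p : Pa) {W : Conf} (hW : Per n W) (v y : St) :
    chi p W (tp n v y) = chi p (sh v W) y := by rw [chi, chi, sh_tp hW]

theorem Ix_tp (p : Pa) (Φ : Lx) {W : Conf} (hW : Per n W) (v y : St) :
    Ix p Φ W (tp n v y) = Ix p (trL n v Φ) (sh v W) y := by
  rw [Ix, Ix, chi_tp p hW, Bx_tp hW]
  rfl

theorem fs_tp {W : Conf} (hW : Per n W) (v y : St) : fs W (tp n v y) = fs (sh v W) y := by
  simp only [tp, In.fs_rc hW]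
  simp only [fs, Mx.fq_sh]

theorem dn_trS (l n : ℕ) (v : St) (X : Finset St) :
    dn l n (trS (LL l * n) (up l v) X) = trS n v (dn l n X) := by
  unfold dn trS
  rw [image_image, image_image]
  refine congrArg (image · X) (funext fun x => ?_)
  simp only [Function.comp, rc_yo, yo_add_up, rc_add_rc]

theorem trL_trL (n : ℕ) (v w : St) (Φ : Lx) : trL n w (trL n v Φ) = trL n (w + v) Φ :=
  funext fun x => congrArg Φ (tp_tp n w v x)

theorem trA_trA (n : ℕ) (v w : St) (K : Ac) : trA n w (trA n v K) = trA n (w + v) K := by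
  funext X c U
  simp only [trA, trS_trS, image_image, pc_per ((Mx.per_pc n U).sh _), sh_sh, neg_add_rev]
  congr 2
  exact funext (trS_trS n w v)

theorem trL_up_rc (l n : ℕ) (y : St) (Φ : Lx) :
    trL (LL l * n) (up l (rc n y)) Φ = trL (LL l * n) (up l y) Φ :=
  funext fun x => congrArg Φ (congrFun (tp_up_rc l n y) x)

theorem trA_up_rc (l n : ℕ) (y : St) (K : Ac) :
    trA (LL l * n) (up l (rc n y)) K = trA (LL l * n) (up l y) K := by
  funext X c U
  obtain ⟨w, e⟩ := up_rc l n y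
  rw [trA, trA, trS_up_rc, e, neg_add, ← smul_neg, ← sh_sh, (Mx.per_pc _ U).sh_smul]

theorem fams_tr (hn : Odd n) (hX : X ⊆ box (n / 2)) (hc : c ∈ fams X) (v : St) :
    c.image (trS n v) ∈ fams (trS n v X) := by
  obtain ⟨h1, h2, h3⟩ := mem_fams.1 hc
  refine mem_fams.2 ⟨fun C hC => ?_, fun h => ?_, fun C hC C' hC' hne => ?_⟩
  · obtain ⟨C, a, rfl⟩ := mem_image.1 hC
    exact image_subset_image (h1 C a)
  · obtain ⟨C, a, e⟩ := mem_image.1 h
    exact h2 (image_eq_empty.1 e ▸ a)
  · obtain ⟨C, a, rfl⟩ := mem_image.1 (mem_coe.1 hC)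
    obtain ⟨C', a', rfl⟩ := mem_image.1 (mem_coe.1 hC')
    exact (disj_image (In.sh_inj hn v) ((h1 C a).trans hX) ((h1 C' a').trans hX)).2
      (h3 a a' fun e => hne (e ▸ rfl))

/-- translation of labelled polymers -/
def trP (n : ℕ) (v : St) (o : LP St) : LP St := ⟨trS n v o.1, o.2.image (trS n v)⟩

theorem trP_mem (hn : Odd n) {o : LP St} (ho : o ∈ lps (box (n / 2))) (v : St) :
    trP n v o ∈ lps (box (n / 2)) :=
  mem_lps.2 ⟨trS_dom hn, (mem_lps.1 ho).2.1.image _, fams_tr hn (mem_lps.1 ho).1 (mem_lps.1 ho).2.2 v⟩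

theorem trP_trP (n : ℕ) (v w : St) (o : LP St) : trP n w (trP n v o) = trP n (v + w) o := by
  simp only [trP, trS_trS, image_image]
  congr 2
  exact funext (trS_trS n v w)

theorem trP_zero (hn : Odd n) {o : LP St} (ho : o ∈ lps (box (n / 2))) : trP n 0 o = o := by
  obtain ⟨h1, -, h2⟩ := mem_lps.1 ho
  rw [trP, trS_zero hn h1, image_congr (f := trS n 0) (g := id) fun C hC =>
    trS_zero hn (((mem_fams.1 h2).1 C hC).trans h1), image_id]

theorem trP_inj (hn : Odd n) (v : St) : Set.InjOn (trP n v) (lps (box (n / 2))) := fun a ha b hb e => by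
  rw [← trP_zero hn ha, ← trP_zero hn hb, ← add_neg_cancel v, ← trP_trP, e, trP_trP]

/-! ### holes -/

variable {CC : Finset (Finset St)} {Wm : Finset St}

theorem Hh_tr (l n : ℕ) (v : St) (CC : Finset (Finset St)) (Wm : Finset St) :
    Hh l n (CC.image (trS (LL l * n) (up l v))) (trS n v Wm) = trS n v (Hh l n CC Wm) := by
  rw [Hh, Hh, image_biUnion, trS, trS, image_union, biUnion_image]
  simp only [dn_trS]
  rfl

theorem zone_dom (hn : Odd n) {D : ℕ} {Z : Finset St} (h : Z ∈ zones l n D CC Wm) :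
    Z ⊆ box (n / 2) := by
  obtain ⟨O, -, rfl⟩ := mem_image.1 h
  exact us_sub.2 fun _ _ => tb_dom hn

theorem zones_tr (hn : Odd n) (hC : ∀ C ∈ CC, C ⊆ box (LL l * n / 2)) (hW : Wm ⊆ box (n / 2))
    (D : ℕ) (v : St) : zones l n D (CC.image (trS (LL l * n) (up l v))) (trS n v Wm) =
      (zones l n D CC Wm).image (trS n v) := by
  have h : ∀ o, zsp l n D (Sum.map (trS (LL l * n) (up l v)) (tp n v) o) =
      (zsp l n D o).image (tp n v) := by
    rintro (C | y)
    · rw [zsp, zsp, ← In.tb_image]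
      exact congrArg _ (dn_trS l n v C)
    · rw [zsp, zsp, ← In.tb_image]
      exact congrArg _ (image_singleton _ _).symm
  have he : Set.InjOn (Sum.map (trS (LL l * n) (up l v)) (tp n v)) (CC.disjSum Wm) := by
    rintro (a | a) ha (b | b) hb e
    · exact congrArg _ (trS_inj (Odd.mul ⟨l, rfl⟩ hn) _
        (mem_powerset.2 (hC a (inl_mem_disjSum.1 ha))) (mem_powerset.2 (hC b (inl_mem_disjSum.1 hb)))
        (Sum.inl.inj e))
    · cases e
    · cases e
    · exact congrArg _ (In.sh_inj hn v (hW (inr_mem_disjSum.1 ha)) (hW (inr_mem_disjSum.1 hb))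
        (Sum.inr.inj e))
  rw [zones, zones, trS, sum_image', comps_image he
    ((In.sh_inj hn v).mono (us_sub.2 fun _ _ => tb_dom hn)) fun o _ => h o, image_image, image_image]
  exact image_congr fun O _ => us_image fun o _ => h o

theorem ncs_tr (hn : Odd n) (hC : ∀ C ∈ CC, C ⊆ box (LL l * n / 2)) (hW : Wm ⊆ box (n / 2))
    (D DD : ℕ) (ε : ℝ) (v : St) {rW rW' : St → ℝ} (h : ∀ y, rW (tp n v y) = rW' y) :
    ncs l n D DD ε rW (CC.image (trS (LL l * n) (up l v))) (trS n v Wm) =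
      (ncs l n D DD ε rW' CC Wm).image (trS n v) := by
  rw [ncs, ncs, zones_tr hn hC hW, filter_image]
  congr 1
  refine filter_congr fun Z _ => not_congr (and_congr ?_ ?_)
  · rw [trS, tau_sh]
  · simp only [trS, forall_mem_image, h]

/-! ### invariance of the periodised product measures -/

theorem int_tr {α : Type} [MeasurableSpace α] (m : Measure α) (hn : Odd n)
    (v : St) (G : (St → α) → ℂ) :
    ∫ ω, G (shv v (pcs n ω)) ∂(Measure.infinitePi fun _ => m) =
      ∫ ω, G (pcs n ω) ∂(Measure.infinitePi fun _ => m) := by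
  by_cases hm : IsProbabilityMeasure m
  swap
  · rw [Measure.infinitePi, dif_neg fun h => hm (h 0), integral_zero_measure, integral_zero_measure]
  have inv : ∀ v x, (fun x => if x ∈ box (n / 2) then tp n (-v) x else x)
      (if x ∈ box (n / 2) then tp n v x else x) = x := fun v x => by
    by_cases hx : x ∈ box (n / 2)
    · simp only [if_pos hx, if_pos (rc_mem hn (x + v)), tp_tp, add_neg_cancel, tp_zero hn hx]
    · simp only [if_neg hx]
  let s : St ≃ St := ⟨fun x => if x ∈ box (n / 2) then tp n v x else x,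
    fun x => if x ∈ box (n / 2) then tp n (-v) x else x, inv v,
    fun x => by simpa only [neg_neg] using inv (-v) x⟩
  let E : (St → α) ≃ᵐ (St → α) := ⟨⟨fun ω x => ω (s x), fun ω x => ω (s.symm x),
    fun ω => by simp, fun ω => by simp⟩,
    measurable_pi_lambda _ fun _ => measurable_pi_apply _,
    measurable_pi_lambda _ fun _ => measurable_pi_apply _⟩
  have hE : MeasurePreserving E (Measure.infinitePi fun _ => m) (Measure.infinitePi fun _ => m) :=
    ⟨E.measurable, Measure.map_infinitePi_infinitePi_of_inj (P := fun _ : St => m) s.injective⟩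
  rw [← hE.integral_comp' fun ω => G (pcs n ω)]
  congr 1
  funext ω
  congr 1
  funext x
  change ω (rc n (x + v)) = ω (if rc n x ∈ box (n / 2) then tp n v (rc n x) else rc n x)
  rw [if_pos (rc_mem hn x), tp, rc_add_rc]

end Sh

end Pool.Agent.Lib.MP_7f377f_mp.RG.Q4
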