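import Pool.Agent.Lib.MP_7f377f_mp.G.RGMeasRho
import Pool.Agent.Lib.MP_7f377f_mp.G.RGAp3
import Pool.Agent.Lib.MP_7f377f_mp.G.Q4Model

/-! Smoothing by the Gaussian fluctuation, first part: the chart and the Gaussian measures.
The chart lemmas are those of the draft of helper36. -/

noncomputable section

set_option linter.unusedSectionVars false
variable [Pool.Agent.Lib.MP_7f377f_mp.GD]

namespace Pool.Agent.Lib.MP_7f377f_mp.RG.Q4.Smo

open MeasureTheory Measure Set Ms
open scoped ENNReal

/-- density of the Haar measure at the origin of the chart -/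
def cHa : ℝ := Classical.choose haar_chart

theorem cHa_pos : 0 < cHa := (Classical.choose_spec haar_chart).1

/-- density of the Haar measure in the chart -/
def dH (v : E3) : ℝ := cHa * hd v

theorem dH_nonneg (v : E3) : 0 ≤ dH v := mul_nonneg cHa_pos.le (hd_nonneg v)

theorem dH_eq {v : E3} (h : ‖v‖ < 2) : dH v = Real.exp (Real.log cHa - (lj (cE v)).re) := by
  rw [sub_eq_add_neg, Real.exp_add, Real.exp_log cHa_pos, dH, hd, if_pos h]

theorem meas_dH : Measurable dH := measurable_hd.const_mul _

theorem mp_e0 : MeasurePreserving e0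
    ((volume : Measure E3).withDensity fun v => ENNReal.ofReal (dH v)) (haar.restrict pos) :=
  (Classical.choose_spec haar_chart).2

variable {ι : Type} [Fintype ι]

/-- the chart map -/
def chm (b : ι → S3) (a : ι → E3) (P : (ι → E3) →ₗ[ℝ] (ι → E3)) (z : ι → E3) : ι → S3 :=
  fun i => e0 (a i + P z i) * b i

theorem meas_chm (b : ι → S3) (a : ι → E3) (P : (ι → E3) →ₗ[ℝ] (ι → E3)) :
    Measurable (chm b a P) := by
  have := LinearMap.continuous_of_finiteDimensional P
  exact measurable_pi_lambda _ fun i => (meas_e0.comp (by fun_prop)).mul_const _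

theorem mp_chm (b : ι → S3) (a : ι → E3) {P : (ι → E3) →ₗ[ℝ] (ι → E3)}
    (hP : LinearMap.det P ≠ 0) :
    MeasurePreserving (chm b a P) ((volume : Measure (ι → E3)).withDensity fun z =>
      ENNReal.ofReal (|LinearMap.det P| * ∏ i, dH (a i + P z i)))
      ((Measure.pi fun _ => haar).restrict {u | ∀ i, u i * (b i)⁻¹ ∈ pos}) := by
  set d : E3 → ℝ≥0∞ := fun v => ENNReal.ofReal (dH v) with hd
  have md : Measurable d := meas_dH.ennreal_ofReal
  have : IsFiniteMeasure ((volume : Measure E3).withDensity d) :=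
    ⟨(mp_e0.measure_preimage (s := univ) MeasurableSet.univ.nullMeasurableSet).trans_lt
      (measure_lt_top _ _)⟩
  have h2 := measurePreserving_pi (fun _ : ι => _) (fun _ => _) fun _ => mp_e0
  have h3 := measurePreserving_pi (fun _ : ι => haar) (fun _ => haar)
    fun i => measurePreserving_mul_right haar (b i)
  have hS : MeasurableSet {u : ι → S3 | ∀ i, u i * (b i)⁻¹ ∈ pos} := by
    rw [ofPred_forall]
    refine MeasurableSet.iInter fun i => ?_
    have m1 : Measurable fun u : ι → S3 => u i * (b i)⁻¹ := (measurable_pi_apply i).mul_const _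
    exact m1 meas_pos
  have e1 : (fun (a : ι → S3) i => a i * b i) ⁻¹' {u : ι → S3 | ∀ i, u i * (b i)⁻¹ ∈ pos} =
      Set.pi univ fun _ => pos := by
    ext U
    simp
  have h4 := h3.restrict_preimage hS
  rw [e1, restrict_pi_pi] at h4
  have mD : Measurable fun v : ι → E3 => ∏ i, d (v i) :=
    Finset.measurable_fun_prod _ fun i _ => md.comp (measurable_pi_apply i)
  have mP : Measurable P := (LinearMap.continuous_of_finiteDimensional P).measurable
  have h5 : MeasurePreserving (fun z => a + P z)
      ((volume : Measure (ι → E3)).withDensity fun z =>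
        ENNReal.ofReal (|LinearMap.det P| * ∏ i, dH (a i + P z i)))
      (Measure.pi fun _ : ι => (volume : Measure E3).withDensity d) := by
    have m5 : Measurable fun z => a + P z := mP.const_add a
    refine ⟨m5, Measure.ext fun s hs => ?_⟩
    have mI : Measurable fun v : ι → E3 => s.indicator (fun v => ∏ i, d (v i)) (a + v) :=
      (mD.indicator hs).comp (measurable_const_add a)
    have hG := lintegral_map (μ := (volume : Measure (ι → E3))) mI mP
    rw [map_linearMap_addHaar_eq_smul_addHaar _ hP, lintegral_smul_measure, smul_eq_mul,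
      lintegral_add_left_eq_self (μ := (volume : Measure (ι → E3)))
        (s.indicator fun v => ∏ i, d (v i)) a, lintegral_indicator hs] at hG
    rw [map_apply m5 hs, withDensity_apply _ (m5 hs), pi_dens _ fun _ => md, ← volume_pi,
      withDensity_apply _ hs, ← lintegral_indicator (m5 hs)]
    have e2 : ∀ z : ι → E3, ((fun z => a + P z) ⁻¹' s).indicator (fun z =>
        ENNReal.ofReal (|LinearMap.det P| * ∏ i, dH (a i + P z i))) z =
        ENNReal.ofReal |LinearMap.det P| * s.indicator (fun v => ∏ i, d (v i)) (a + P z) := by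
      intro z
      by_cases hz : a + P z ∈ s
      · rw [indicator_of_mem (show z ∈ (fun z => a + P z) ⁻¹' s from hz), indicator_of_mem hz,
          ENNReal.ofReal_mul (abs_nonneg _),
          ENNReal.ofReal_prod_of_nonneg fun i _ => dH_nonneg _]
        rfl
      · rw [indicator_of_notMem (show z ∉ (fun z => a + P z) ⁻¹' s from hz),
          indicator_of_notMem hz, mul_zero]
    simp only [e2]
    rw [lintegral_const_mul' _ _ ENNReal.ofReal_ne_top, ← hG, ← mul_assoc,
      ← ENNReal.ofReal_mul (abs_nonneg _), ← abs_mul, mul_inv_cancel₀ hP, abs_one,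
      ENNReal.ofReal_one, one_mul]
  exact (h4.comp h2).comp h5

/-- action of a matrix on vector fields -/
def mv (M : Matrix (ι × Fin GD.d) (ι × Fin GD.d) ℝ) : (ι → E3) →ₗ[ℝ] (ι → E3) where
  toFun z i := WithLp.toLp 2 fun k => ∑ q, M (i, k) q * z q.1 q.2
  map_add' z w := by
    ext i k
    simp [mul_add, Finset.sum_add_distrib]
  map_smul' c z := by
    ext i k
    simp [Finset.mul_sum, mul_left_comm]

theorem mv_apply (M : Matrix (ι × Fin GD.d) (ι × Fin GD.d) ℝ) (z : ι → E3) (i : ι) (k : Fin GD.d) :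
    mv M z i k = ∑ q, M (i, k) q * z q.1 q.2 := rfl

/-- coordinates of a vector field -/
def cor : (ι → E3) ≃ₗ[ℝ] (ι × Fin GD.d → ℝ) where
  toFun z q := z q.1 q.2
  invFun v i := WithLp.toLp 2 fun k => v (i, k)
  map_add' _ _ := rfl
  map_smul' _ _ := rfl
  left_inv _ := rfl
  right_inv _ := rfl

theorem det_mv [DecidableEq ι] (M : Matrix (ι × Fin GD.d) (ι × Fin GD.d) ℝ) :
    LinearMap.det (mv M) = M.det := by
  rw [← LinearMap.det_toLin' M, ← LinearMap.det_conj (mv M) cor]
  congr 1

/-- Gaussian weight -/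
def gw (v : E3) : ℝ := Real.exp (-(‖v‖ ^ 2 / 2))

theorem gw_pos (v : E3) : 0 < gw v := Real.exp_pos _

theorem cont_gw : Continuous gw := by unfold gw; fun_prop

theorem int_gauss {b : ℝ} (hb : 0 < b) : Integrable fun v : E3 => Real.exp (-b * ‖v‖ ^ 2) := by
  have := (GaussianFourier.integrable_cexp_neg_mul_sq_norm_add (V := E3) (b := (b : ℂ))
    (by simpa using hb) 0 0).norm
  refine this.congr (.of_forall fun v => ?_)
  simp [Complex.norm_exp, ← Complex.ofReal_pow]

theorem gw_eq (v : E3) : gw v = Real.exp (-(1 / 2) * ‖v‖ ^ 2) := by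
  unfold gw; congr 1; ring

theorem int_gw : Integrable gw := (int_gauss (b := 1 / 2) (by norm_num)).congr
  (.of_forall fun v => (gw_eq v).symm)

/-- mass of the truncated Gaussian weight -/
def zn (ζ : ℝ) : ℝ := ∫ v in Metric.closedBall 0 ζ, gw v

theorem zn_pos {ζ : ℝ} (h : 0 < ζ) : 0 < zn ζ := by
  rw [zn, setIntegral_pos_iff_support_of_nonneg_ae (.of_forall fun v => (gw_pos v).le)
    int_gw.integrableOn]
  have : Function.support gw = univ := eq_univ_of_forall fun v => (gw_pos v).ne'
  rw [this, univ_inter]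
  exact Metric.measure_closedBall_pos _ _ h

theorem nu_eq {ζ : ℝ} (h : 0 < ζ) : nu ζ = (volume.restrict (Metric.closedBall 0 ζ)).withDensity
    fun v => ENNReal.ofReal (gw v / zn ζ) := by
  have e : nu0 ζ univ = ENNReal.ofReal (zn ζ) := by
    rw [nu0, withDensity_apply _ MeasurableSet.univ, Measure.restrict_univ, zn,
      ofReal_integral_eq_lintegral_ofReal int_gw.integrableOn (.of_forall fun v => (gw_pos v).le)]
    rfl
  rw [nu, e, nu0, ← withDensity_smul _ (by fun_prop)]
  congr 1
  funext v
  rw [Pi.smul_apply, smul_eq_mul, ENNReal.ofReal_div_of_pos (zn_pos h), ENNReal.div_eq_inv_mul]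
  rfl

theorem nu_prob {ζ : ℝ} (h : 0 < ζ) : IsProbabilityMeasure (nu ζ) := ⟨by
  rw [nu_eq h, withDensity_apply _ MeasurableSet.univ, Measure.restrict_univ,
    ← ofReal_integral_eq_lintegral_ofReal (int_gw.integrableOn.div_const _)
      (.of_forall fun v => (div_pos (gw_pos v) (zn_pos h)).le), integral_div, ← zn,
    div_self (zn_pos h).ne', ENNReal.ofReal_one]⟩

theorem nuI_prob {ζ : ℝ} (h : 0 < ζ) : IsProbabilityMeasure (nuI ζ) := by
  have := nu_prob h
  unfold nuI
  infer_instance

theorem nu_rot (ζ : ℝ) (T : E3 ≃ₗᵢ[ℝ] E3) : (nu ζ).map T = nu ζ := by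
  have m := T.continuous.measurable
  have : (nu0 ζ).map T = nu0 ζ := Measure.ext fun s hs => by
    rw [Measure.map_apply m hs, nu0, withDensity_apply _ hs, withDensity_apply _ (m hs),
      Measure.restrict_restrict hs, Measure.restrict_restrict (m hs),
      ← T.measurePreserving.setLIntegral_comp_preimage (hs.inter measurableSet_closedBall)
        (by fun_prop)]
    simp [Set.preimage_inter]
  rw [nu, Measure.map_smul, this]

/-- the box of the truncation -/
def bx (ι : Type) (ζ : ℝ) : Set (ι → E3) := Set.pi univ fun _ => Metric.closedBall 0 ζ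

theorem meas_bx (ζ : ℝ) : MeasurableSet (bx ι ζ) :=
  MeasurableSet.univ_pi fun _ => measurableSet_closedBall

/-- Gaussian weight of a vector field -/
def gG (z : ι → E3) : ℝ := ∏ i, gw (z i)

theorem gG_pos (z : ι → E3) : 0 < gG z := Finset.prod_pos fun _ _ => gw_pos _

theorem int_gG : Integrable (gG (ι := ι)) := Integrable.fintype_prod (f := fun _ => gw) fun _ => int_gw

theorem nu_int {ζ : ℝ} (h : 0 < ζ) (F : (ι → E3) → ℂ) :
    (zn ζ : ℂ) ^ Fintype.card ι * ∫ z, F z ∂(Measure.pi fun _ => nu ζ) =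
      ∫ z in bx ι ζ, gG z * F z := by
  have md : Measurable fun v => ENNReal.ofReal (gw v / zn ζ) :=
    (cont_gw.measurable.div_const _).ennreal_ofReal
  have := nu_prob h
  have : SigmaFinite ((volume.restrict (Metric.closedBall (0 : E3) ζ)).withDensity
      fun v => ENNReal.ofReal (gw v / zn ζ)) := by
    rw [← nu_eq h]
    infer_instance
  have mD : Measurable fun a : ι → E3 => ∏ e, ENNReal.ofReal (gw (a e) / zn ζ) :=
    Finset.measurable_fun_prod _ fun i _ => md.comp (measurable_pi_apply i)
  simp only [nu_eq h]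
  rw [pi_dens _ fun _ => md, ← restrict_pi_pi, ← volume_pi, ← bx,
    integral_withDensity_eq_integral_toReal_smul mD
      (.of_forall fun z => ENNReal.prod_lt_top fun _ _ => ENNReal.ofReal_lt_top),
    ← integral_const_mul]
  refine integral_congr_ae (.of_forall fun z => ?_)
  have z0 : (zn ζ : ℂ) ≠ 0 := Complex.ofReal_ne_zero.2 (zn_pos h).ne'
  simp only [ENNReal.toReal_prod, fun v => ENNReal.toReal_ofReal (div_pos (gw_pos v) (zn_pos h)).le,
    Complex.real_smul, Finset.prod_div_distrib, gG, Finset.prod_const, Finset.card_univ]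
  push_cast
  field_simp

theorem int_bx {ζ : ℝ} (h : 0 < ζ) : ∫ z in bx ι ζ, gG z = zn ζ ^ Fintype.card ι := by
  have := nu_prob h
  have e := nu_int (ι := ι) h fun _ => 1
  simp only [integral_const, probReal_univ, one_smul, mul_one, integral_complex_ofReal] at e
  exact_mod_cast e.symm

/-- the Gaussian tail -/
theorem tail {ζ : ℝ} (h : 0 < ζ) (n : ℕ) (hn : 24 * (n + 1) * (GD.cG * Real.exp (-(ζ ^ 2 / 4))) ≤ 1) :
    (∫ v, gw v) ^ n - zn ζ ^ n ≤ 12 * n * (GD.cG * Real.exp (-(ζ ^ 2 / 4))) * zn ζ ^ n := by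
  set s := Real.exp (-(ζ ^ 2 / 4)) with hs
  have s0 : 0 < s := Real.exp_pos _
  set t := GD.cG * s with ht
  have t0 : 0 < t := mul_pos (one_pos.trans_le GD.cG1) s0
  have n0 : (0 : ℝ) ≤ n := n.cast_nonneg
  have z0 := zn_pos h
  have i4 := int_gauss (b := 1 / 4) (by norm_num)
  have e2 : ∫ v, gw v = (Real.pi / (1 / 2)) ^ (GD.d / 2 : ℝ) := by
    simp only [gw_eq]
    rw [GaussianFourier.integral_rexp_neg_mul_sq_norm (by norm_num)]
    simp
  have e4 : ∫ v : E3, Real.exp (-(1 / 4) * ‖v‖ ^ 2) ≤ GD.cG * ∫ v, gw v := by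
    rw [GaussianFourier.integral_rexp_neg_mul_sq_norm (by norm_num), e2,
      show Real.pi / (1 / 4) = 2 * (Real.pi / (1 / 2)) by ring,
      Real.mul_rpow (by norm_num) (by positivity)]
    have : (2 : ℝ) ^ (GD.d / 2 : ℝ) ≤ GD.cG := (Real.rpow_le_rpow_of_exponent_le one_le_two
      (half_le_self (Nat.cast_nonneg _))).trans (by rw [Real.rpow_natCast]; exact GD.two_pow_le)
    simp only [finrank_euclideanSpace, Fintype.card_fin]
    exact mul_le_mul_of_nonneg_right this (by positivity)
  have e5 : (∫ v, gw v) - zn ζ ≤ s * ∫ v : E3, Real.exp (-(1 / 4) * ‖v‖ ^ 2) := by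
    rw [zn, ← setIntegral_compl measurableSet_closedBall int_gw, ← integral_const_mul]
    refine (setIntegral_mono_on int_gw.integrableOn (i4.const_mul s).integrableOn
      measurableSet_closedBall.compl fun v hv => ?_).trans
      (setIntegral_le_integral (i4.const_mul s) (.of_forall fun v => by positivity))
    rw [mem_compl_iff, mem_closedBall_zero_iff, not_le] at hv
    rw [hs, ← Real.exp_add, gw]
    exact Real.exp_le_exp.2 (by nlinarith)
  have e6 : ∫ v, gw v ≤ zn ζ * (1 + 6 * t) := by
    have g0 : 0 ≤ ∫ v, gw v := integral_nonneg fun v => (gw_pos v).le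
    have a : (∫ v, gw v) * (1 - 3 * t) ≤ zn ζ := by
      nlinarith [mul_le_mul_of_nonneg_left e4 s0.le, mul_nonneg t0.le g0]
    have b : 1 ≤ (1 - 3 * t) * (1 + 6 * t) := by nlinarith
    nlinarith
  have e7 : (1 + 6 * t) ^ n ≤ 1 + 12 * n * t := by
    have a : (1 + 6 * t) ^ n ≤ Real.exp (n * (6 * t)) := by
      rw [Real.exp_nat_mul]
      exact pow_le_pow_left₀ (by positivity) (by linarith [Real.add_one_le_exp (6 * t)]) n
    have b := Real.abs_exp_sub_one_le (x := n * (6 * t))
      (by rw [abs_of_nonneg (by positivity)]; nlinarith)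
    rw [abs_of_nonneg (by positivity : 0 ≤ n * (6 * t))] at b
    linarith [le_abs_self (Real.exp (n * (6 * t)) - 1)]
  have := pow_le_pow_left₀ (integral_nonneg fun v => (gw_pos v).le) e6 n
  rw [mul_pow] at this
  nlinarith [pow_pos z0 n]

end Pool.Agent.Lib.MP_7f377f_mp.RG.Q4.Smo
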