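import Pool.Agent.Lib.MP_7f377f_mp.G.Q4SmA
import Pool.Agent.Lib.MP_7f377f_mp.KitHol

/-! Smoothing by the Gaussian fluctuation, second part: the smoothed mean for finitely many links,
linearity, bounds, holomorphy. -/

noncomputable section

set_option linter.unusedSectionVars false
variable [Pool.Agent.Lib.MP_7f377f_mp.GD]

namespace Pool.Agent.Lib.MP_7f377f_mp.RG.Q4.Smo

open MeasureTheory Measure Set Ms Matrix
open scoped ENNReal

abbrev Mx (ι : Type) := Matrix (ι × Fin GD.d) (ι × Fin GD.d) ℂ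

variable {ι Z : Type} [Fintype ι] [DecidableEq ι] [MeasurableSpace Z]

/-- chart coordinates over the base `b` -/
def sA (b : ι → Hc) (u : ι → S3) : ι → C3 := fun i => ch (cS (u i) * star (b i))

/-- the Gaussian variable which produces the links `u` -/
def sZ (b : ι → Hc) (a : ι → C3) (M : Mx ι) (u : ι → S3) : ι × Fin GD.d → ℂ :=
  M⁻¹ *ᵥ fun q => sA b u q.1 q.2 - a q.1 q.2

/-- logarithm of the density of the links -/
def sq (b : ι → Hc) (a : ι → C3) (M : Mx ι) (u : ι → S3) : ℂ :=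
  -((∑ q, sZ b a M u q ^ 2) / 2) + ∑ i, lj (sA b u i)

/-- links close to the identity -/
def sD (ι : Type) (ε : ℝ) : Set (ι → S3) := {u | ∀ i, ‖(u i).q - 1‖ ≤ ε}

def hD (ι : Type) [Fintype ι] (ε : ℝ) : Measure (ι → S3) :=
  (Measure.pi fun _ => haar).restrict (sD ι ε)

instance (ε : ℝ) : IsFiniteMeasure (hD ι ε) := by unfold hD; infer_instance

/-- unnormalised smoothed mean -/
def sI (μ : Measure Z) (ε : ℝ) (b : ι → Hc) (a : Z → ι → C3) (M : Mx ι) (K : (ι → S3) → ℂ) : ℂ :=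
  ∫ v : Z × (ι → S3), Complex.exp (sq b (a v.1) M v.2) * K v.2 ∂(μ.prod (hD ι ε))

/-- smoothed mean -/
def sm (μ : Measure Z) (ε : ℝ) (b : ι → Hc) (a : Z → ι → C3) (M : Mx ι) (K : (ι → S3) → ℂ) : ℂ :=
  sI μ ε b a M K / sI μ ε b a M 1

omit [DecidableEq ι] in
theorem meas_sD (ε : ℝ) : MeasurableSet (sD ι ε) := by
  rw [sD, ofPred_forall]
  exact MeasurableSet.iInter fun i =>
    measurableSet_le (meas_nsub.comp (measurable_pi_apply i)) measurable_const

omit [DecidableEq ι] in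
theorem ae_sD (μ : Measure Z) (ε : ℝ) : ∀ᵐ v ∂(μ.prod (hD ι ε)), v.2 ∈ sD ι ε :=
  quasiMeasurePreserving_snd.ae (ae_restrict_mem (meas_sD ε))

omit [DecidableEq ι] in
theorem hD_pos {ε : ℝ} (h : 0 < ε) : hD ι ε univ ≠ 0 := by
  rw [hD, Measure.restrict_apply_univ]
  have o : IsOpen {u : ι → S3 | ∀ i, ‖(u i).q - 1‖ < ε} := by
    rw [ofPred_forall]
    exact isOpen_iInter_of_finite fun i => isOpen_lt
      ((cont_q.comp (continuous_apply i)).sub continuous_const).norm continuous_const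
  exact ((o.measure_pos _ ⟨1, fun i => by simpa [q_one] using h⟩).trans_le
    (measure_mono fun u hu i => (hu i).le)).ne'

theorem mq_cS {X : Type} [MeasurableSpace X] {g : X → S3} (hg : Measurable g) :
    MQ fun x => cS (g x) := RG.mq_cS hg

theorem meas_sq {X : Type} [MeasurableSpace X] (b : ι → Hc) (M : Mx ι) {a : X → ι → C3}
    {u : X → ι → S3} (ha : Measurable a) (hu : Measurable u) :
    Measurable fun x => sq b (a x) M (u x) := by
  have mA : ∀ i, Measurable fun x => sA b (u x) i := fun i =>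
    ((mq_cS hu.eval).mul (mq_const _)).ch
  have mZ : ∀ q, Measurable fun x => sZ b (a x) M (u x) q := fun q =>
    Finset.measurable_fun_sum _ fun p _ => ((mA p.1).eval.sub ha.eval.eval).const_mul _
  exact (((Finset.measurable_fun_sum _ fun q _ => (mZ q).pow_const 2).div_const _).neg).add
    (Finset.measurable_fun_sum _ fun i _ => meas_lj.comp (mA i))

/-- linearity, for arbitrary data -/
theorem sm_lin (μ : Measure Z) (ε : ℝ) (b : ι → Hc) (a : Z → ι → C3) (M : Mx ι)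
    {K K' : (ι → S3) → ℂ} (hK : Measurable K) (hK' : Measurable K') {κ κ' : ℝ}
    (h : ∀ u, ‖K u‖ ≤ κ) (h' : ∀ u, ‖K' u‖ ≤ κ') (c : ℂ) :
    sm μ ε b a M (fun u => K u + c * K' u) = sm μ ε b a M K + c * sm μ ε b a M K' := by
  by_cases hi : Integrable (fun v : Z × (ι → S3) => Complex.exp (sq b (a v.1) M v.2))
    (μ.prod (hD ι ε))
  · have i1 := hi.mul_bdd (hK.comp measurable_snd).aestronglyMeasurable (.of_forall fun v => h v.2)
    have i2 := hi.mul_bdd (hK'.comp measurable_snd).aestronglyMeasurable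
      (.of_forall fun v => h' v.2)
    simp only [Function.comp_apply] at i1 i2
    simp only [sm, sI, mul_add, mul_left_comm _ c]
    rw [integral_add i1 (i2.const_mul c), integral_const_mul]
    ring
  · simp only [sm, sI, Pi.one_apply, mul_one, integral_undef hi, div_zero, mul_zero, add_zero]

/-- good data -/
structure Gd (ε c : ℝ) (b : ι → Hc) (a : Z → ι → C3) (M : Mx ι) : Prop where
  hb : ∀ i, ‖b i - 1‖ ≤ ε
  ha : ∀ ω i, ‖a ω i‖ ≤ ε
  hm : Measurable a
  co : ∀ v : ι × Fin GD.d → ℂ, c ^ 2 * ∑ q, ‖v q‖ ^ 2 ≤ 4 * ∑ q, ‖(M *ᵥ v) q‖ ^ 2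

/-- bound of the exponent -/
def sQ (ι : Type) [Fintype ι] (ε c : ℝ) : ℝ := 3000 * (Fintype.card ι + 1) * (ε / c) ^ 2

variable {μ : Measure Z} {ε c κ : ℝ} {b : ι → Hc} {a : Z → ι → C3} {M : Mx ι} {u : ι → S3}
  {K : (ι → S3) → ℂ}

omit [Fintype ι] [DecidableEq ι] in
theorem sA_bd (hb : ∀ i, ‖b i - 1‖ ≤ ε) (h1 : ε ≤ 1 / 100) (hu : u ∈ sD ι ε) (i : ι) :
    (cS (u i) * star (b i)).re ≠ 0 ∧ ‖sA b u i‖ ≤ 12 * ε := by
  have e0 : 0 ≤ ε := (norm_nonneg _).trans (hb i)
  have a1 : ‖cS (u i) - 1‖ ≤ 2 * ε := by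
    have := (norm_cq ((u i).q - 1)).2
    rw [cq_sub, cq_one] at this
    exact this.trans (by linarith [hu i])
  have a2 : ‖star (b i) - 1‖ ≤ ε := by
    rw [← star_one (R := Hc), ← star_sub, norm_star_Hc]
    exact hb i
  have a3 : ‖cS (u i) * star (b i) - 1 - io 0‖ ≤ 4 * ε := by
    have e : cS (u i) * star (b i) - 1 - io 0 =
        (cS (u i) - 1) * (star (b i) - 1) + (cS (u i) - 1) + (star (b i) - 1) := by
      rw [show io 0 = 0 by simp]
      noncomm_ring
    have := mul_le_mul a1 a2 (norm_nonneg _) (by positivity)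
    have := norm_mul_le (cS (u i) - 1) (star (b i) - 1)
    rw [e]
    exact norm_add₃_le.trans (by nlinarith)
  obtain ⟨r, s⟩ := ch_near a3 (by linarith) (by simp)
  exact ⟨r, by rw [sub_zero] at s; exact s.trans (by linarith)⟩

theorem Gd.det (G : Gd ε c b a M) (c0 : 0 < c) : M.det ≠ 0 := fun h => by
  obtain ⟨v, v0, hv⟩ := exists_mulVec_eq_zero_iff.2 h
  have := G.co v
  simp only [hv, Pi.zero_apply, norm_zero, ne_eq, OfNat.ofNat_ne_zero, not_false_eq_true, zero_pow,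
    Finset.sum_const_zero, mul_zero] at this
  have h2 := (Finset.sum_eq_zero_iff_of_nonneg fun q _ => sq_nonneg ‖v q‖).1
    (le_antisymm (nonpos_of_mul_nonpos_right this (by positivity)) (by positivity))
  exact v0 (funext fun q => by simpa using h2 q (Finset.mem_univ q))

theorem Gd.bd (G : Gd ε c b a M) (c0 : 0 < c) (c1 : c ≤ 1) (h1 : ε ≤ 1 / 100) (ω : Z)
    (hu : u ∈ sD ι ε) : ‖sq b (a ω) M u‖ ≤ sQ ι ε c := by
  set n : ℝ := (Fintype.card ι : ℝ) with hn
  have n0 : 0 ≤ n := Nat.cast_nonneg _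
  have A := fun i => (sA_bd G.hb h1 hu i).2
  have e1 := G.co (sZ b (a ω) M u)
  rw [sZ, mulVec_mulVec, mul_nonsing_inv _ (G.det c0).isUnit, one_mulVec, ← sZ] at e1
  have e2 : ∑ q : ι × Fin GD.d, ‖sA b u q.1 q.2 - a ω q.1 q.2‖ ^ 2 ≤ 3 * n * (13 * ε) ^ 2 := by
    rw [Fintype.sum_prod_type]
    refine (Finset.sum_le_card_nsmul _ _ ((13 * ε) ^ 2) fun i _ => ?_).trans
      (by simpa [hn] using mul_le_mul_of_nonneg_right (by linarith) (sq_nonneg _))
    refine (sq_C3 (sA b u i - a ω i)).symm.trans_le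
      (pow_le_pow_left₀ (norm_nonneg _) ((norm_sub_le _ _).trans ?_) 2)
    linarith [A i, G.ha ω i]
  have e3 : ‖∑ q, sZ b (a ω) M u q ^ 2‖ ≤ 2028 * n * (ε / c) ^ 2 := by
    refine (norm_sum_le _ _).trans ?_
    simp only [norm_pow]
    rw [div_pow, ← mul_div_assoc, le_div_iff₀ (by positivity)]
    nlinarith
  have e4 : ‖∑ i, lj (sA b u i)‖ ≤ n * (648 * ε ^ 2) := by
    refine (norm_sum_le _ _).trans ((Finset.sum_le_card_nsmul _ _ (648 * ε ^ 2) fun i _ => ?_).trans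
      (by simp [hn]))
    exact (lj_le ((A i).trans (by linarith))).trans (by nlinarith [A i, norm_nonneg (sA b u i)])
  have e5 : ε ^ 2 ≤ (ε / c) ^ 2 := by
    rw [div_pow, le_div_iff₀ (by positivity)]
    exact mul_le_of_le_one_right (sq_nonneg _) (pow_le_one₀ c0.le c1)
  refine (norm_add_le _ _).trans ?_
  rw [norm_neg, norm_div, Complex.norm_two, sQ]
  nlinarith [sq_nonneg (ε / c), mul_le_mul_of_nonneg_left e5 n0, mul_nonneg n0 (sq_nonneg (ε / c))]

theorem Gd.int [IsFiniteMeasure μ] (G : Gd ε c b a M) (c0 : 0 < c) (c1 : c ≤ 1) (h1 : ε ≤ 1 / 100)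
    (hK : Measurable K) (h : ∀ u, ‖K u‖ ≤ κ) : Integrable
      (fun v : Z × (ι → S3) => Complex.exp (sq b (a v.1) M v.2) * K v.2) (μ.prod (hD ι ε)) := by
  refine Integrable.of_bound (((meas_sq b M (G.hm.comp measurable_fst) measurable_snd).cexp.mul
    (hK.comp measurable_snd)).aestronglyMeasurable) (Real.exp (sQ ι ε c) * κ) ?_
  filter_upwards [ae_sD μ ε] with v hv
  rw [norm_mul]
  exact mul_le_mul ((Complex.norm_exp_le_exp_norm _).trans
    (Real.exp_le_exp.2 (G.bd c0 c1 h1 v.1 hv))) (h _) (norm_nonneg _) (by positivity)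

section hol

variable {S : Set ℂ} {b : ℂ → ι → Hc} {a : ℂ → Z → ι → C3} {M : ℂ → Mx ι}

theorem diff_det {J : Type} [Fintype J] [DecidableEq J] {M : ℂ → Matrix J J ℂ}
    (h : ∀ p q, DifferentiableOn ℂ (fun t => M t p q) S) :
    DifferentiableOn ℂ (fun t => (M t).det) S := by
  simp only [det_apply']
  exact DifferentiableOn.fun_sum fun σ _ =>
    (DifferentiableOn.fun_finsetProd fun i _ => h _ _).const_mul _

theorem diff_inv {J : Type} [Fintype J] [DecidableEq J] {M : ℂ → Matrix J J ℂ}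
    (h : ∀ p q, DifferentiableOn ℂ (fun t => M t p q) S) (h0 : ∀ t ∈ S, (M t).det ≠ 0) (p q : J) :
    DifferentiableOn ℂ (fun t => (M t)⁻¹ p q) S := by
  simp only [Matrix.inv_def, Ring.inverse_eq_inv', Matrix.smul_apply, adjugate_apply, smul_eq_mul]
  refine ((diff_det h).inv h0).mul (diff_det fun i j => ?_)
  simp only [updateRow_apply]
  split_ifs
  exacts [differentiableOn_const _, h _ _]

/-- holomorphic families of data -/
structure Hf (S : Set ℂ) (b : ℂ → ι → Hc) (a : ℂ → Z → ι → C3) (M : ℂ → Mx ι) : Prop where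
  hb : ∀ i, DifferentiableOn ℂ (fun t => b t i) S
  ha : ∀ ω i, DifferentiableOn ℂ (fun t => a t ω i) S
  hM : ∀ p q, DifferentiableOn ℂ (fun t => M t p q) S

theorem Hf.sq (H : Hf S b a M) (G : ∀ t ∈ S, Gd ε c (b t) (a t) (M t)) (c0 : 0 < c)
    (h1 : ε ≤ 1 / 100) (ω : Z) (hu : u ∈ sD ι ε) :
    DifferentiableOn ℂ (fun t => sq (b t) (a t ω) (M t) u) S := by
  have dA : ∀ i, DifferentiableOn ℂ (fun t => sA (b t) u i) S := fun i =>
    diff_ch ((diff_star (H.hb i)).const_mul _) fun t ht => (sA_bd (G t ht).hb h1 hu i).1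
  have dZ : ∀ q, DifferentiableOn ℂ (fun t => sZ (b t) (a t ω) (M t) u q) S := fun q =>
    DifferentiableOn.fun_sum fun p _ => (diff_inv H.hM (fun t ht => (G t ht).det c0) q p).mul
      ((differentiableOn_pi.1 (dA p.1) p.2).sub (differentiableOn_pi.1 (H.ha ω p.1) p.2))
  refine ((DifferentiableOn.fun_sum fun q _ => (dZ q).pow 2).div_const _).neg.add
    (DifferentiableOn.fun_sum fun i _ => diff_lj (dA i)
      fun t ht => (sA_bd (G t ht).hb h1 hu i).2.trans (by linarith))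

theorem Hf.sI [IsFiniteMeasure μ] (H : Hf S b a M) (hS : IsOpen S)
    (G : ∀ t ∈ S, Gd ε c (b t) (a t) (M t)) (c0 : 0 < c) (c1 : c ≤ 1) (h1 : ε ≤ 1 / 100)
    (hK : Measurable K) (h : ∀ u, ‖K u‖ ≤ κ) :
    DifferentiableOn ℂ (fun t => sI μ ε (b t) (a t) (M t) K) S := by
  refine Kit.holo_integral _ hS (M := Real.exp (sQ ι ε c) * κ)
    (fun t ht => ((G t ht).int c0 c1 h1 hK h).aestronglyMeasurable) ?_
  filter_upwards [ae_sD μ ε] with v hv
  refine ⟨(H.sq G c0 h1 v.1 hv).cexp.mul_const _, fun t ht => ?_⟩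
  rw [norm_mul]
  exact mul_le_mul ((Complex.norm_exp_le_exp_norm _).trans
    (Real.exp_le_exp.2 ((G t ht).bd c0 c1 h1 v.1 hv))) (h _) (norm_nonneg _) (by positivity)

end hol

end Pool.Agent.Lib.MP_7f377f_mp.RG.Q4.Smo
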