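import Pool.Agent.Lib.MP_7f377f_mp.G.RGSmG

/-! The old small term evaluated on the background field. -/

noncomputable section

set_option linter.unusedSectionVars false
variable [Pool.Agent.Lib.MP_7f377f_mp.GD]

namespace Pool.Agent.Lib.MP_7f377f_mp.RG.JS

open Finset

attribute [local irreducible] box lbox

variable {c R a n : ℕ} {τ ρ κ P δ : ℝ} {B : Fld}

theorem cut_cg_loc {A B : Fld} (h : ∀ x ∈ box R, ∀ μ ν, dd A x μ ν = dd B x μ ν) :
    cut R (cg A) = cut R (cg B) := funext fun e => by
  have := cut_cg_bd (R := R) (ρ := 0) (B := A - B)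
    (fun x hx μ ν => by rw [dd_sub, h x hx, sub_self, norm_zero]) le_rfl e
  simp only [cut, cg_sub, mul_zero, norm_le_zero_iff] at this ⊢
  split_ifs at this ⊢
  exacts [sub_eq_zero.1 this, rfl]

end Pool.Agent.Lib.MP_7f377f_mp.RG.JS
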