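import Pool.Agent.Lib.MP_7f377f_mp.G.Q4TrB
import Pool.Agent.Lib.MP_7f377f_mp.G.Q4Op4
import Pool.Agent.Lib.MP_7f377f_mp.G.RGBgB
import Pool.Agent.Lib.MP_7f377f_mp.G.RGHol3

/-! The tree step: expansions of the energy of a block and the Newton iteration. -/

noncomputable section

set_option linter.unusedSectionVars false
variable [Pool.Agent.Lib.MP_7f377f_mp.GD]

namespace Pool.Agent.Lib.MP_7f377f_mp.RG.Q4

open Finset

attribute [local irreducible] box lbox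

/-- balls in the supremum norm -/
def dM (R : ℕ) (ρ : ℝ) (hρ : 0 < ρ) : Kit.Dom Fld where
  D θ := {A | Sm R (θ * ρ) A}
  smul c θ A h e he := by
    rw [Pi.smul_apply, norm_smul, mul_assoc]
    exact mul_le_mul_of_nonneg_left (h e he) (norm_nonneg _)
  add h h' := by simpa only [Set.mem_ofPred_eq, add_mul] using Sm.add h h'
  mono h hB := Sm.mono hB le_rfl (mul_le_mul_of_nonneg_right h hρ.le)

theorem mem_dM {R : ℕ} {ρ α θ : ℝ} (hρ : 0 < ρ) {A : Fld} (h : Sm R α A) (e : α ≤ θ * ρ) :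
    A ∈ (dM R ρ hρ).D θ := h.mono le_rfl e

theorem hall_dM {R : ℕ} {ρ : ℝ} (hρ : 0 < ρ) (A : Fld) : ∃ θ, A ∈ (dM R ρ hρ).D θ :=
  ⟨(∑ e ∈ lbox R, ‖A e‖) / ρ, mem_dM hρ (fun _ he => single_le_sum (f := fun e => ‖A e‖)
    (fun _ _ => norm_nonneg _) he) (div_mul_cancel₀ _ hρ.ne').ge⟩

theorem norm_le_of_dot {b : C3} {x : ℝ} (h : ∀ a : C3, ‖a‖ ≤ 1 → ‖dot a b‖ ≤ x) : ‖b‖ ≤ x := by
  rcases (norm_nonneg b).eq_or_lt with h0 | h0
  · simpa [← h0] using h 0 (by simp)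
  · let c : C3 := fun k => (starRingEnd ℂ) (b k)
    have e1 : ‖c‖ = ‖b‖ := by simp [norm_C3, c]
    have e2 : dot c b = ((‖b‖ ^ 2 : ℝ) : ℂ) := by
      rw [norm_C3, Real.sq_sqrt (by positivity)]
      simp [dot, c, Complex.conj_mul']
    have := h (((‖b‖⁻¹ : ℝ) : ℂ) • c) (by
      rw [norm_smul, e1, Complex.norm_real, norm_inv, norm_norm, inv_mul_cancel₀ h0.ne'])
    rw [smul_dot, e2, ← Complex.ofReal_mul, Complex.norm_real,
      Real.norm_of_nonneg (by positivity)] at this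
    exact le_of_eq_of_le (by field_simp) this

theorem dot_cs (a b : C3) : ‖dot a b‖ ≤ ‖a‖ * ‖b‖ := by
  rw [norm_C3, norm_C3]
  refine (norm_sum_le _ _).trans (le_of_eq_of_le (sum_congr rfl fun k _ => norm_mul _ _) ?_)
  exact Real.sum_mul_le_sqrt_mul_sqrt _ _ _

theorem dot_le_one {a : C3} (ha : ‖a‖ ≤ 1) (b : C3) : ‖dot a b‖ ≤ ‖b‖ :=
  (dot_cs a b).trans (mul_le_of_le_one_left (norm_nonneg _) ha)

theorem norm_sgl {a : C3} (ha : ‖a‖ ≤ 1) (f e : Lk) : ‖(Pi.single f a : Fld) e‖ ≤ 1 := by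
  by_cases h : e = f
  · rwa [h, Pi.single_eq_same]
  · rw [Pi.single_eq_of_ne h, norm_zero]
    exact zero_le_one

/-- real and imaginary part of the component of a field in the direction `a` -/
def reO (a : C3) (B : Fld) : V := fun e => (dot a (B e)).re

def imO (a : C3) (B : Fld) : V := fun e => (dot a (B e)).im

theorem reO_sh (a : C3) (x : St) (B : Fld) : reO a (sh x B) = sh x (reO a B) := rfl

theorem imO_sh (a : C3) (x : St) (B : Fld) : imO a (sh x B) = sh x (imO a B) := rfl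

theorem reO_le {a : C3} (ha : ‖a‖ ≤ 1) (B : Fld) (e : Lk) : ‖reO a B e‖ ≤ ‖B e‖ :=
  (Complex.abs_re_le_norm _).trans (dot_le_one ha _)

theorem imO_le {a : C3} (ha : ‖a‖ ≤ 1) (B : Fld) (e : Lk) : ‖imO a B e‖ ≤ ‖B e‖ :=
  (Complex.abs_im_le_norm _).trans (dot_le_one ha _)

theorem cx_sgl (m : BF) (f : Lk) (a : C3) (B : Fld) : cx m (Pi.single f a) B =
    (m (Pi.single f 1) (reO a B) : ℝ) + (m (Pi.single f 1) (imO a B) : ℝ) * Complex.I := by
  have h1 : ∀ j, reF (Pi.single f a) j = (a j).re • (Pi.single f 1 : V) := fun j => by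
    funext e
    by_cases h : e = f <;> simp [reF, h]
  have h2 : ∀ j, imF (Pi.single f a) j = (a j).im • (Pi.single f 1 : V) := fun j => by
    funext e
    by_cases h : e = f <;> simp [imF, h]
  have h3 : reO a B = ∑ j, ((a j).re • reF B j - (a j).im • imF B j) := by
    funext e
    simp [reO, dot, reF, imF, Finset.sum_apply]
  have h4 : imO a B = ∑ j, ((a j).re • imF B j + (a j).im • reF B j) := by
    funext e
    simp [imO, dot, reF, imF, Finset.sum_apply]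
  simp only [cx, h1, h2, h3, h4, map_smul, map_sum, map_sub, map_add, LinearMap.smul_apply,
    smul_eq_mul, Complex.ofReal_sum, sum_mul, ← sum_add_distrib]

theorem sh_sgl {W : Type} [Zero W] (x : St) (f : Lk) (a : W) :
    sh x (Pi.single f a : Lk → W) = Pi.single (f.1 - x, f.2) a := funext fun e => by
  simp only [sh, Pi.single_apply, Prod.ext_iff, eq_sub_iff_add_eq]

theorem sh_sgl_sum (x : St) (f : Lk) (a : C3) :
    sh x (Pi.single f a : Fld) = ∑ i, a i • sh x (eb f i) := by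
  funext e j
  by_cases he : (e.1 + x, e.2) = f <;> simp [sh, eb, Finset.sum_apply, Pi.single_apply, he]

theorem dot_sub' (a b c : C3) : dot a (b - c) = dot a b - dot a c := by
  simp [dot, mul_sub]

theorem dot_eb (k : Fin GD.d) (b : C3) : dot (Pi.single k 1) b = b k := by
  simp [dot, Pi.single_apply]

theorem LL_pos' (l : ℕ) : (0 : ℝ) < LL l := by exact_mod_cast Li.LL_pos l

section block

variable {l r c : ℕ} {τ P δ d α β η : ℝ} {m : BF} {s : V →ₗ[ℝ] V} {G : Cf → Fld → ℂ}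
  {B A v w D : Fld}

theorem hh_symm (hl : Lin l r c τ m s) (a b : V) : hh l m a b = hh l m b a :=
  JS.enB_symm hl.symm _ _

theorem Qf_diff (hl : Lin l r c τ m s) {Ω : Set ℂ} {B A : ℂ → Fld} (hB : Disc Ω B) (hA : Disc Ω A) :
    DifferentiableOn ℂ (fun t => Qf l m s (B t) (A t)) Ω := by
  have h1 := diff_cx hl.mn_rng (fun e _ => hB e) fun e _ => hB e
  have h2 := diff_cx hl.xx_rng (fun e _ => hA e) fun e _ => hB e
  have h3 := diff_cx hl.hh_rng (fun e _ => hA e) fun e _ => hA e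
  exact (h1.add (h2.const_mul 2)).add h3

variable (hl : Lin l r c τ m s) (g : Ge l r m s P δ G) (d0 : 0 < d) (d1 : 8 * d ≤ δ)
  (hB : ∀ e, ‖B e‖ ≤ d)
include hl g d0 d1 hB

theorem Ge.rm : ∃ p : 0 < 8 * d / LL l,
    ((dM (3 * l + 1) _ p).LH fun A => G (exF B) A - Qf l m s B A) ∧
    ∀ A ∈ (dM (3 * l + 1) _ p).D 1, ‖G (exF B) A - Qf l m s B A‖ ≤ P * (8 * d) ^ 3 := by
  have L0 := LL_pos' l
  refine ⟨by positivity, fun A D S hS hD => ?_, fun A hA =>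
    g.exp B A _ d1 (fun e => (hB e).trans (by linarith)) (Sm.mono hA le_rfl (one_mul _).le)⟩
  have h1 := g.hol S (fun _ => B) _ hS (Set.subset_univ _) (disc_const _) (Ho.disc_line S A D)
    fun t ht => ⟨fun e => (hB e).trans (by linarith),
      Sm.mono (hD t ht) le_rfl (by rw [one_mul]; gcongr)⟩
  exact h1.sub (Qf_diff hl (disc_const B) (Ho.disc_line S A D))

theorem Ge.split (hA : Sm (3 * l + 1) (4 * d / LL l) A) : HasK (fun w => G (exF B) (A + w))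
    (fun v => j1 (fun A => G (exF B) A - Qf l m s B A) A v +
      (2 * cx (xx l m s) v B + 2 * cx (hh l m) v A))
    fun a b => j2 (fun A => G (exF B) A - Qf l m s B A) A a b + cx (hh l m) a b := by
  obtain ⟨p, h1, h2⟩ := g.rm hl d0 d1 hB
  have := (j_main h1 h2 (hall_dM p) (mem_dM p hA (by ring_nf; rfl))).1.add (hasK_poly
    (Qf l m s B A) ((2 : ℂ) • (cxB (xx l m s)).flip B + (2 : ℂ) • (cxB (hh l m)).flip A)
    (σ := cxB (hh l m)) (cx_symm (hh_symm hl)))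
  simp only [LinearMap.add_apply, LinearMap.smul_apply, LinearMap.flip_apply, cxB_apply,
    smul_eq_mul] at this
  convert this using 2 with w
  simp only [Qf, cx_add_left, cx_add_right, cx_symm (hh_symm hl) A w]
  ring

theorem Ge.blk (hA : Sm (3 * l + 1) (4 * d / LL l) A) :
    HasK (fun w => G (exF B) (A + w)) (j1 (G (exF B)) A) (j2 (G (exF B)) A) ∧
    (∃ (L : Fld →ₗ[ℂ] ℂ) (σ : Fld →ₗ[ℂ] Fld →ₗ[ℂ] ℂ), (∀ a, j1 (G (exF B)) A a = L a) ∧
      ∀ a b, j2 (G (exF B)) A a b = σ a b) ∧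
    ∀ {α v}, Sm (3 * l + 1) α v → 0 < α →
      ‖j1 (G (exF B)) A v - (2 * cx (xx l m s) v B + 2 * cx (hh l m) v A)‖ ≤
        1536 * P * LL l * d ^ 2 * α ∧
      (∀ {β w}, Sm (3 * l + 1) β w → 0 < β →
        ‖j2 (G (exF B)) A v w - cx (hh l m) v w‖ ≤ 384 * P * LL l ^ 2 * d * α * β) ∧
      (α ≤ 4 * d / LL l →
        ‖G (exF B) (A + v) - G (exF B) A - j1 (G (exF B)) A v - cx (hh l m) v v‖ ≤
          768 * P * LL l ^ 2 * d * α ^ 2 ∧
        ‖G (exF B) (A + v) - G (exF B) A - j1 (G (exF B)) A v - j2 (G (exF B)) A v v‖ ≤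
          96 * P * LL l ^ 3 * α ^ 3) := by
  have L0 := LL_pos' l
  have k := g.split hl d0 d1 hB hA
  obtain ⟨p, h1, h2⟩ := g.rm hl d0 d1 hB
  obtain ⟨-, ⟨L, σ, hL, hσ⟩, h3⟩ := j_main h1 h2 (hall_dM p) (mem_dM p hA (θ := 1 / 2)
    (by ring_nf; rfl))
  refine ⟨k.self, ⟨L + ((2 : ℂ) • (cxB (xx l m s)).flip B + (2 : ℂ) • (cxB (hh l m)).flip A),
    σ + cxB (hh l m), fun a => (k.k1 a).trans (by rw [hL]; rfl),
    fun a b => (k.kq a b).trans (by rw [hσ]; rfl)⟩, fun {α v} hv h0 => ?_⟩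
  obtain ⟨a1, a2, a3⟩ := h3 (mem_dM p hv (div_mul_cancel₀ _ p.ne').ge) (by positivity)
  simp only [j1, j2, k.k1, k.kq, add_sub_cancel_right] at a1 a2 a3 ⊢
  refine ⟨a1.trans_eq (by field_simp; ring), fun hw h0' =>
    (a2 (mem_dM p hw (div_mul_cancel₀ _ p.ne').ge) (by positivity)).trans_eq (by field_simp; ring),
    fun h4 => ?_⟩
  obtain ⟨b1, b2⟩ := a3 (by rw [div_le_iff₀ p]; exact h4.trans_eq (by ring))
  refine ⟨le_of_eq_of_le (congrArg _ ?_) (b1.trans_eq (by field_simp; ring)),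
    le_of_eq_of_le (congrArg _ ?_) (b2.trans_eq (by field_simp))⟩ <;>
  · simp only [Qf, cx_add_left, cx_add_right, cx_symm (hh_symm hl) A v]
    ring

theorem Ge.lip (hA : Sm (3 * l + 1) (d / LL l) A) (hD : Sm (3 * l + 1) η D) (η0 : 0 < η)
    (η1 : η ≤ 2 * d / LL l) (hv : Sm (3 * l + 1) α v) (h0 : 0 < α) :
    ‖j1 (G (exF B)) (A + D) v - j1 (G (exF B)) A v - 2 * cx (hh l m) v D‖ ≤
      1024 * P * LL l ^ 2 * d * α * η := by
  have L0 := LL_pos' l
  have p0 : 0 ≤ d / LL l := by positivity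
  have k := g.split hl d0 d1 hB (hA.mono le_rfl (by rw [mul_div_assoc]; linarith))
  have k' := g.split hl d0 d1 hB ((hA.add hD).mono le_rfl (by
    rw [mul_div_assoc] at η1 ⊢; linarith))
  obtain ⟨p, h1, h2⟩ := g.rm hl d0 d1 hB
  have := j1_lip h1 h2 (hall_dM p) (mem_dM p hA (by ring_nf; rfl))
    (mem_dM p hD (div_mul_cancel₀ _ p.ne').ge) (by positivity)
    (by rw [div_le_iff₀ p]; exact η1.trans_eq (by ring)) (mem_dM p hv (div_mul_cancel₀ _ p.ne').ge)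
    (by positivity)
  refine le_of_eq_of_le (congrArg _ ?_) (this.trans_eq (by field_simp; ring))
  simp only [j1, k.k1, k'.k1, cx_add_right]
  ring

end block

theorem Ay_near {l : ℕ} {d α : ℝ} {B a : Fld} (hB : ∀ e, ‖B e‖ ≤ d) (h1 : d ≤ 1 / 1000) (y : St)
    (ha : Sm (3 * l + 1) α (sh (up l y) a)) :
    Sm (3 * l + 1) (600 * d * α) (Ay l y (exF B) a - sh (up l y) a) ∧
      Sm (3 * l + 1) (2 * α) (Ay l y (exF B) a) := by
  have d0 := (norm_nonneg _).trans (hB (0, 0))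
  have α0 := ha.nonneg
  have k : Sm (3 * l + 1) (600 * d * α) (Ay l y (exF B) a - sh (up l y) a) := fun e he =>
    (norm_adq_sub (JS.cmb_near (W := sh y (exF B)) (fun e => (JS.near_one ⟨hB _, ex_near (hB _)
      (by linarith)⟩).trans (show _ ≤ 4 * d by nlinarith)) (by linarith) (yo_mem_one he))
      (by linarith) _).trans ((mul_le_mul_of_nonneg_left (ha e he) (by positivity)).trans_eq
        (by ring))
  refine ⟨k, ?_⟩
  simpa using (k.add ha).mono le_rfl (show _ ≤ 2 * α by nlinarith)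

theorem gp_exF {d : ℝ} {B : Fld} (hB : ∀ e, ‖B e‖ ≤ d) (h1 : d ≤ 1 / 100) (y : St) :
    Gp (10 * d) (sh y (exF B)) (sh y 1) := by
  have := Gp.exF (W0 := 1) h1 (fun x _ μ ν => le_of_eq_of_le (by simp [fq, hol, S3.q_one])
    ((norm_nonneg _).trans (hB (0, 0)))) (sm_of_all hB 5 y)
  simp only [Pi.one_apply, cS_one, mul_one] at this
  exact this

namespace Nt

/-- the loss in the estimates -/
def q (t : Nt) (c : ℕ) (P : ℝ) : ℝ := (LL t.O.l : ℝ) ^ (10 * c + 30) * P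

/-- admissible sizes of the field -/
structure Sz (t : Nt) (c : ℕ) (τ P δ d : ℝ) : Prop where
  d0 : 0 < d
  d1 : 8 * d ≤ δ
  d2 : t.q c P * (d + τ) ≤ 1

variable {t : Nt} {r c : ℕ} {τ P δ d α β η : ℝ} {m : BF} {s : V →ₗ[ℝ] V} {B A A' v a b D : Fld}
  {f : Lk} (h : t.Ok r c τ m s P δ)
include h

theorem Ok.up {C : ℝ} (hC : C ≤ 10 ^ 6) {i j : ℕ} (hij : i < j) {x : ℝ} (hx : 0 ≤ x) :
    C * ((LL t.O.l : ℝ) ^ i * x) ≤ (LL t.O.l : ℝ) ^ j * x := by
  rw [← mul_assoc]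
  exact mul_le_mul_of_nonneg_right (h.op.pow_le hC hij) hx

theorem Ok.hh_bd (ha : Sm (3 * t.O.l + 1) α a) (hb : Sm (3 * t.O.l + 1) β b) :
    ‖cx (hh t.O.l m) a b‖ ≤ (LL t.O.l : ℝ) ^ (c + 5) * (α * β) :=
  (cx_bd (JS.hh_Bd h.lin) ha hb).trans (le_of_eq_of_le (by ring) (h.up (C := 3888) (i := c + 4)
    (by norm_num) (by omega) (mul_nonneg ha.nonneg hb.nonneg)))

variable (z : t.Sz c τ P δ d)
include z

theorem Ok.small {j : ℕ} (hj : j < 10 * c + 30) :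
    10 ^ 6 * ((LL t.O.l : ℝ) ^ j * (P * (d + τ))) ≤ 1 :=
  (h.up le_rfl hj (mul_nonneg (zero_le_one.trans h.P1) (add_nonneg z.d0.le h.τ0))).trans
    (by rw [← mul_assoc]; exact z.d2)

theorem Ok.small' {j : ℕ} (hj : j < 10 * c + 30) : 10 ^ 6 * ((LL t.O.l : ℝ) ^ j * d) ≤ 1 := by
  refine le_trans ?_ (h.small z hj)
  gcongr
  nlinarith [h.P1, h.τ0, z.d0]

theorem Ok.d_le : d ≤ 1 / 1000 := by
  have := h.small' z (j := 0) (by omega)
  rw [pow_zero] at this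
  linarith [z.d0]

variable (hB : ∀ e, ‖B e‖ ≤ d)
include hB

theorem hh_near (y : St) (ha : Sm (3 * t.O.l + 1) α (sh (up t.O.l y) a))
    (hb : Sm (3 * t.O.l + 1) β (sh (up t.O.l y) b)) :
    ‖cx t.O.h (Ay t.O.l y (exF B) a) (Ay t.O.l y (exF B) b) -
      cx (hh t.O.l m) (sh (up t.O.l y) a) (sh (up t.O.l y) b)‖ ≤
      (LL t.O.l : ℝ) ^ (c + 6) * (d * α * β) := by
  obtain ⟨a1, -⟩ := Ay_near hB (h.d_le z) y ha
  obtain ⟨b1, b2⟩ := Ay_near hB (h.d_le z) y hb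
  have := norm_add_le_of_le (h.hh_bd a1 b2) (h.hh_bd ha b1)
  rw [cx_sub_left, cx_sub_right, sub_add_sub_cancel] at this
  rw [h.hO]
  exact this.trans (le_of_eq_of_le (by ring) (h.up (C := 1800) (i := c + 5) (by norm_num) (by omega)
    (by have := z.d0; have := ha.nonneg; have := hb.nonneg; positivity)))

theorem pol_glob {p : Polynomial ℂ} (hp : p.natDegree ≤ 2 * t.O.N + 1) (hA : ∀ e, ‖A e‖ ≤ α)
    (f : Lk) : ‖t.O.pol p ∅ (exF B) A f‖ ≤ wn (t.O.θ c) p * ((LL t.O.l : ℝ) ^ (4 * c + 11) * α) := by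
  have := h.small' z (j := 2 * c + 10) (by omega)
  have d0 := z.d0
  refine (Od.pol_at h.op (δ := 10 * d) (W0 := 1) (by
    linarith [show 0 ≤ (LL t.O.l : ℝ) ^ (2 * c + 10) * d by positivity]) hp f
    (fun y _ _ => gp_exF hB (by linarith [h.d_le z]) _) (sm_of_all hA _ _)).trans ?_
  exact mul_le_mul_of_nonneg_left (mul_le_mul_of_nonneg_right h.op.deg_le
    ((norm_nonneg _).trans (hA f))) (wn_nonneg (Od.θ_mem h.op).1)

theorem pU_glob (hA : ∀ e, ‖A e‖ ≤ α) (f : Lk) :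
    ‖t.O.pol (pU t.O.N) ∅ (exF B) A f‖ ≤ Real.exp (-(t.O.l : ℝ) ^ 2) * α := by
  obtain ⟨θ0, θ1⟩ := Od.θ_mem h.op
  have α0 := (norm_nonneg _).trans (hA f)
  have h1 := h.op.N_le
  have h2 := Od.θ_pow h.op (j := 6 * c + 16) (by have := h.op.big; omega)
  refine (pol_glob h z hB (natDegree_pU _) hA f).trans ?_
  calc _ ≤ (LL t.O.l : ℝ) ^ (2 * c + 5) * t.O.θ c ^ t.O.N * ((LL t.O.l : ℝ) ^ (4 * c + 11) * α) := by
        gcongr
        exact (wn_pU θ0 θ1 _).trans (by gcongr; linarith [Nat.cast_nonneg (α := ℝ) t.O.N])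
    _ = (LL t.O.l : ℝ) ^ (6 * c + 16) * t.O.θ c ^ t.O.N * α := by ring
    _ ≤ _ := by gcongr

theorem pP_glob (hA : ∀ e, ‖A e‖ ≤ α) (f : Lk) :
    ‖((2 * t.O.Λ : ℂ)⁻¹ • t.O.pol (pP t.O.N ^ 2) ∅ (exF B) A) f‖ ≤
      (LL t.O.l : ℝ) ^ (8 * c + 21) * α := by
  obtain ⟨θ0, θ1⟩ := Od.θ_mem h.op
  have α0 := (norm_nonneg _).trans (hA f)
  have h1 := h.op.N_le
  have h2 := wn_pP θ0 θ1 t.O.N
  have h3 : 1 ≤ t.O.Λ := h.op.lam ▸ one_le_pow₀ (by linarith [h.op.LL_ge])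
  have h4 : wn (t.O.θ c) (pP t.O.N) ≤ (LL t.O.l : ℝ) ^ (2 * c + 5) := by
    linarith [Nat.cast_nonneg (α := ℝ) t.O.N]
  rw [Pi.smul_apply, norm_smul, norm_inv, norm_mul, Complex.norm_real, Complex.norm_two,
    Real.norm_of_nonneg (by linarith)]
  refine (mul_le_of_le_one_left (norm_nonneg _) (inv_le_one_of_one_le₀ (by linarith))).trans
    ((pol_glob h z hB (Polynomial.natDegree_pow_le.trans (by
      linarith [Op.natDegree_pP t.O.N])) hA f).trans ?_)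
  calc _ ≤ (LL t.O.l : ℝ) ^ (2 * c + 5) * (LL t.O.l : ℝ) ^ (2 * c + 5) *
        ((LL t.O.l : ℝ) ^ (4 * c + 11) * α) := by
        gcongr
        rw [sq]
        exact (wn_mul θ0).trans (mul_le_mul h4 h4 (wn_nonneg θ0) (by positivity))
    _ = _ := by ring

omit h z hB in
theorem sum_two {g : St → ℂ} {x : ℝ} (hg : ∀ y, ‖g y‖ ≤ x) : ‖∑ y ∈ box 2, g y‖ ≤ 625 * x :=
  (norm_sum_le _ _).trans ((sum_le_card_nsmul _ _ _ fun y _ => hg y).trans_eq (by simp [card_box]))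

omit h z hB in
theorem j1_FF (W : Cf) (y : St) (A v : Fld) : j1 (t.FF W y) A v =
    j1 (t.G (sh y W)) (sh (up t.O.l y) A) (sh (up t.O.l y) v) := k1_congr fun _ => rfl

omit h z hB in
theorem j2_FF (W : Cf) (y : St) (A a b : Fld) : j2 (t.FF W y) A a b =
    j2 (t.G (sh y W)) (sh (up t.O.l y) A) (sh (up t.O.l y) a) (sh (up t.O.l y) b) :=
  kq_congr fun _ _ => rfl

theorem dot_grad (hA : ∀ e, ‖A e‖ ≤ 4 * d / LL t.O.l) (f : Lk) (a : C3) :
    dot a (t.grad (exF B) A f) = ∑ y ∈ box 2, j1 (t.G (exF (sh (yo t.O.l f.1 + y) B)))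
      (sh (up t.O.l (yo t.O.l f.1 + y)) A) (sh (up t.O.l (yo t.O.l f.1 + y)) (Pi.single f a)) := by
  simp only [dot, grad, j1_FF, mul_sum]
  rw [sum_comm]
  refine sum_congr rfl fun y _ => ?_
  obtain ⟨-, ⟨L, -, hL, -⟩, -⟩ := h.ge.blk h.lin z.d0 z.d1 (B := sh (yo t.O.l f.1 + y) B)
    (fun _ => hB _) (sm_of_all hA _ (up t.O.l (yo t.O.l f.1 + y)))
  rw [hL, sh_sgl_sum, map_sum]
  exact sum_congr rfl fun i _ => by rw [map_smul, ← hL]; rfl

theorem grad_zero (hf : ¬ tree t.O.l f) :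
    ‖t.grad (exF B) 0 f‖ ≤ (LL t.O.l : ℝ) ^ 2 * (P * (d ^ 2 + τ * d)) := by
  have d0 := z.d0
  have L0 := h.op.LL_ge
  refine norm_le_of_dot fun k hk => ?_
  have h1 := sum_two fun y => ((h.ge.blk h.lin d0 z.d1 (B := sh (yo t.O.l f.1 + y) B) (fun _ => hB _)
    (A := 0) fun _ _ => by rw [Pi.zero_apply, norm_zero]; positivity).2.2
    (sm_of_all (norm_sgl hk f) _ (up t.O.l (yo t.O.l f.1 + y))) one_pos).1
  have h2 : ∀ b : V, (∀ e, ‖b e‖ ≤ d) → |∑ y ∈ box 2, xx t.O.l m s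
      (Pi.single (f.1 - up t.O.l (yo t.O.l f.1 + y), f.2) 1) (sh (yo t.O.l f.1 + y) b)| ≤
      τ * (4 * d) := fun b hb => by
    refine le_of_eq_of_le (congrArg _ (sum_congr rfl fun y _ => ?_)) (h.lin.stat (sh (yo t.O.l f.1) b)
      _ (f.1 - up t.O.l (yo t.O.l f.1), f.2) (mem_lbox.2 (sub_up_yo_mem _ _)) (fun h' => hf (by
        simpa using (tree_add_up _ _ (yo t.O.l f.1) _).2 h')) (Sm.cv fun _ _ => hb _))
    rw [sh_sh, add_comm y]
    congr 2
    funext e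
    simp only [sh, Pi.single_apply, Prod.ext_iff, up_add, ← sub_sub, eq_sub_iff_add_eq]
  have h4 := h2 (reO k B) fun e => (reO_le hk B e).trans (hB e)
  have h5 := h2 (imO k B) fun e => (imO_le hk B e).trans (hB e)
  have h6 : ‖∑ y ∈ box 2, 2 * cx (xx t.O.l m s) (sh (up t.O.l (yo t.O.l f.1 + y)) (Pi.single f k))
      (sh (yo t.O.l f.1 + y) B)‖ ≤ 16 * (τ * d) := by
    simp only [sh_sgl, cx_sgl, ← mul_sum, sum_add_distrib, ← sum_mul, ← Complex.ofReal_sum]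
    rw [norm_mul, Complex.norm_two]
    refine (mul_le_mul_of_nonneg_left ((norm_add_le _ _).trans ?_) zero_le_two).trans_eq
      (by ring : 2 * (τ * (4 * d) + τ * (4 * d)) = _)
    rw [norm_mul, Complex.norm_I, mul_one, Complex.norm_real, Complex.norm_real]
    exact add_le_add h4 h5
  have h7 := norm_add_le_of_le h1 h6
  simp only [cx_zero_right, mul_zero, add_zero, sum_sub_distrib, sub_add_cancel] at h7
  rw [dot_grad h z hB fun _ => by rw [Pi.zero_apply, norm_zero]; positivity]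
  refine h7.trans ?_
  have h8 := mul_nonneg h.τ0 d0.le
  have h9 := h.P1
  have : 16 * (τ * d) ≤ (LL t.O.l : ℝ) ^ 2 * (P * (τ * d)) := by
    nlinarith [mul_le_mul (show 16 ≤ (LL t.O.l : ℝ) ^ 2 by nlinarith) h9 zero_le_one (by positivity)]
  nlinarith [mul_nonneg (show 0 ≤ P * LL t.O.l * d ^ 2 by positivity) (sub_nonneg.2 L0),
    show 0 ≤ P * LL t.O.l * d ^ 2 by positivity]

theorem grad_flat (hA : ∀ e, ‖A e‖ ≤ d / LL t.O.l) (hD : ∀ e, ‖D e‖ ≤ η) (η0 : 0 < η)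
    (η1 : η ≤ 2 * d / LL t.O.l) (f : Lk) {k : C3} (hk : ‖k‖ ≤ 1) :
    ‖dot k (t.grad (exF B) (A + D) f) - dot k (t.grad (exF B) A f) - 2 * ∑ y ∈ box 2, cx (hh t.O.l m)
      (sh (up t.O.l (yo t.O.l f.1 + y)) (Pi.single f k)) (sh (up t.O.l (yo t.O.l f.1 + y)) D)‖ ≤
      (LL t.O.l : ℝ) ^ 3 * (P * d * η) := by
  have h1 := sum_two fun y => h.ge.lip h.lin z.d0 z.d1 (B := sh (yo t.O.l f.1 + y) B)
    (fun _ => hB _) (sm_of_all hA _ (up t.O.l (yo t.O.l f.1 + y)))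
    (sm_of_all hD _ (up t.O.l (yo t.O.l f.1 + y))) η0 η1
    (sm_of_all (norm_sgl hk f) _ (up t.O.l (yo t.O.l f.1 + y))) one_pos
  have p0 : 0 ≤ d / LL t.O.l := (norm_nonneg _).trans (hA f)
  simp only [sum_sub_distrib, ← mul_sum] at h1
  rw [dot_grad h z hB fun e => (hA e).trans (by rw [mul_div_assoc]; linarith),
    dot_grad h z hB (A := A + D) fun e => (norm_add_le_of_le (hA e) (hD e)).trans (by
      rw [mul_div_assoc] at η1 ⊢; linarith)]
  exact h1.trans (le_of_eq_of_le (by ring) (h.up (C := 640000) (i := 2) (by norm_num) (by omega)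
    (by have := z.d0; have := h.P1; positivity)))

theorem grad_diff (hA : ∀ e, ‖A e‖ ≤ d / LL t.O.l) (hD : ∀ e, ‖D e‖ ≤ η) (η0 : 0 < η)
    (η1 : η ≤ 2 * d / LL t.O.l) (f : Lk) :
    ‖(t.grad (exF B) (A + D) - t.grad (exF B) A - (2 : ℂ) • t.O.ham (exF B) D) f‖ ≤
      (LL t.O.l : ℝ) ^ (c + 8) * (P * d * η) := by
  have d0 := z.d0
  have P1 := h.P1
  refine norm_le_of_dot fun k hk => ?_
  have h1 := grad_flat h z hB hA hD η0 η1 f hk
  have h2 := sum_two fun y => hh_near h z hB (yo t.O.l f.1 + y)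
    (sm_of_all (norm_sgl hk f) _ _) (sm_of_all hD _ _)
  rw [sum_sub_distrib, ← Od.dot_ham h.op] at h2
  have h3 := norm_sub_le_of_le h1 (norm_mul_le_of_le Complex.norm_two.le h2)
  have h4 := h.up (C := 2) (i := 3) (j := c + 8) (x := P * d * η) (by norm_num) (by omega)
    (by positivity)
  have h5 := h.up (C := 2500) (i := c + 6) (j := c + 8) (x := P * d * η) (by norm_num) (by omega)
    (by positivity)
  have h6 : (LL t.O.l : ℝ) ^ (c + 6) * (d * 1 * η) ≤ (LL t.O.l : ℝ) ^ (c + 6) * (P * d * η) := by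
    rw [mul_comm d 1]; gcongr
  refine le_of_eq_of_le (congrArg _ ?_) (h3.trans (by linarith))
  simp only [Pi.sub_apply, Pi.smul_apply, dot_sub', dot_smul]
  ring

end Nt

end Pool.Agent.Lib.MP_7f377f_mp.RG.Q4
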