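import Pool.Agent.Lib.MP_7f377f_mp.G.Q4SmD
import Pool.Agent.Lib.MP_7f377f_mp.G.Q4TrC
import Pool.Agent.Lib.MP_7f377f_mp.G.Q4En
import Pool.Agent.Lib.MP_7f377f_mp.G.RGSmG

/-! The smoothing lemma for the whitening operator built from kernels. -/

noncomputable section

set_option linter.unusedSectionVars false
variable [Pool.Agent.Lib.MP_7f377f_mp.GD]

namespace Pool.Agent.Lib.MP_7f377f_mp.RG.Q4

open Finset

attribute [local irreducible] box lbox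

/-- background field, minimiser and kernels as functions of a small field -/
structure Dk (O : Od) (d δ ε : ℝ) (b : Fld → Cf) (a : Fld → Fld) (ka : Fld → St → Kf) : Prop where
  bd : ∀ B, (∀ e, ‖B e‖ ≤ d) → (∀ f, 5 * ‖b B f - 1‖ ≤ ε ∧ 5 * ‖a B f‖ ≤ ε) ∧
    ∀ y, Ks (ka B y) ∧ Kc O.l δ (ka B y) (kh O.l O.h (sh y (exF B)))
  re : ∀ B, (∀ e, ‖B e‖ ≤ d) → RealF B →
    (∀ f, ∃ u : S3, b B f = cS u) ∧ RealF (a B) ∧ ∀ y, Kr (ka B y)
  hol : ∀ Ω γ, IsOpen Ω → Disc Ω γ → (∀ t ∈ Ω, ∀ e, ‖γ t e‖ ≤ d) →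
    Disc Ω (fun t => b (γ t)) ∧ Disc Ω (fun t => a (γ t)) ∧
      ∀ y e i e' j, DifferentiableOn ℂ (fun t => ka (γ t) y e i e' j) Ω
  ad : ∀ (u : S3) B, (∀ e, ‖B e‖ ≤ d) → (∀ e, ‖adF (fun _ => cS u) B e‖ ≤ d) → RealF B →
    b (adF (fun _ => cS u) B) = gauge star (fun _ => cS u) (b B) ∧
    a (adF (fun _ => cS u) B) = adF (fun _ => cS u) (a B) ∧
      ∀ y, Kg O.l (fun _ => cS u) y (ka B y) (ka (adF (fun _ => cS u) B) y)

variable {O : Od} {c R n : ℕ} {d δ ε g ζ ρ h κ : ℝ} {b : Fld → Cf} {a : Fld → Fld}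
  {ka : Fld → St → Kf} {B : Fld} {Λ : Finset Lk} {K : Conf → ℂ}

theorem polK_lin (l : ℕ) (Λ : ℝ) (p : Polynomial ℂ) (H : Set St) (k : St → Kf) (t : ℂ) :
    IsLinearMap ℂ fun X => t • polK l Λ p H k X := by
  simp only [← polKL_apply]
  exact (t • polKL l Λ p H k).isLinear

theorem cut_cg_loc {A : Fld} (h : ∀ x ∈ box R, ∀ μ ν, dd A x μ ν = dd B x μ ν) :
    cut R (cg A) = cut R (cg B) := funext fun e => by
  have := JS.cut_cg_bd (R := R) (ρ := 0) (B := A - B) (fun x hx μ ν => by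
    rw [show dd (A - B) x μ ν = dd A x μ ν - dd B x μ ν by simp only [dd, Pi.sub_apply]; abel,
      h x hx, sub_self, norm_zero]) le_rfl e
  rw [mul_zero, norm_le_zero_iff, JS.cg_sub] at this
  simp only [cut] at this ⊢
  split_ifs at this ⊢
  exacts [sub_eq_zero.1 this, rfl]

namespace Dk

variable (D : Dk O d δ ε b a ka) (hO : O.Ok c) (hδ : (LL O.l : ℝ) ^ (2 * c + 10) * δ ≤ 1)
  (hd : 10 * d ≤ δ)
include D hO hδ hd

theorem gk (hB : ∀ e, ‖B e‖ ≤ d) (H : Set St) (y : St) : Gk O δ H (ka B) (exF B) 1 y := by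
  have d0 := (norm_nonneg _).trans (hB (0, 0))
  have := hO.small (by linarith) hδ (j := 0) (by omega)
  exact ⟨fun _ => (gp_exF hB (by linarith) y).mono hd, fun _ => ((D.bd B hB).2 y).2⟩

theorem smB (hB : ∀ e, ‖B e‖ ≤ d) (g0 : 0 ≤ g) (H : Set St) (Λ : Finset Lk) :
    SmB Λ ε (g * (LL O.l : ℝ) ^ (6 * c + 16)) (b B) (a B)
      fun X => (g : ℂ) • polK O.l O.Λ (pP O.N) H (ka B) X where
  hb f _ := ((D.bd B hB).1 f).1
  ha f _ := ((D.bd B hB).1 f).2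
  hP X s hX f _ := by
    rw [Pi.smul_apply, norm_smul, Complex.norm_real, Real.norm_of_nonneg g0, mul_assoc]
    exact mul_le_mul_of_nonneg_left (polK_pP hO hδ f (fun _ _ => D.gk hO hδ hd hB H _)
      (sm_of_all hX _ _)).1 g0
  hm f _ := ((polK_meas (H := fun _ => H) (ka := fun _ => ka B) (fun _ => .const _)
    (fun _ _ _ _ _ => measurable_const) measurable_id).eval (a := f)).const_smul (g : ℂ)

theorem smR (hB : ∀ e, ‖B e‖ ≤ d) (rB : RealF B) (g0 : 0 ≤ g) {H : Set St}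
    (hΛ : ∀ f ∈ Λ, Act O.l H f) :
    SmR Λ (g / 2) (b B) (a B) fun X => (g : ℂ) • polK O.l O.Λ (pP O.N) H (ka B) X where
  lin := polK_lin _ _ _ _ _ _
  hb f _ := (D.re B hB rB).1 f
  ha f _ := (D.re B hB rB).2.1 f
  hP X hX f _ k := by
    simp [polK_real (fun k => (Od.coeff_real O.N k).1) (fun y _ => (D.re B hB rB).2.2 y) hX f k]
  co X hX h0 := by
    choose r hr using mem_some_fb O.l
    have := mul_le_mul_of_nonneg_left (pP_coer hO hδ (a := Λ.sup r) (N := O.N)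
      (fun f hf => ⟨lbox_mono (Op.fb_mono _ (le_sup hf)) (hr f), hΛ f hf⟩)
      (fun y _ => ⟨D.gk hO hδ hd hB H y, fun _ => ⟨((D.bd B hB).2 y).1, (D.re B hB rB).2.2 y⟩⟩)
      hX h0) g0
    simp only [Pi.smul_apply, dot_smul, Complex.re_ofReal_mul, ← mul_sum]
    linarith

/-- the smoothing lemma -/
theorem smT {H : Set St} (hΛ : ∀ f ∈ Λ, Act O.l H f) (hK : Measurable K) (hκ : ∀ U, ‖K U‖ ≤ κ)
    (hKg : ∀ (u : S3) U, K (gauge Inv.inv (fun _ => u) U) = K U) (hρ : 6 * R * ρ ≤ d)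
    (g0 : 0 < g) (hζ : 1 ≤ ζ) (hm : 5 * (g * (LL O.l : ℝ) ^ (6 * c + 16)) * ζ ≤ ε)
    (h1 : ε ≤ 1 / 100) (h0 : 0 < h)
    (hh : (Λ.card + 1) ^ 2 * (LL O.l : ℝ) ^ (6 * c + 18) * (ε / g) ^ 2 * h ≤ ρ) :
    Tb R ρ h (2 * κ) fun B => smL Λ ζ ε (b (cut R (cg B))) (a (cut R (cg B)))
      (fun X => (g : ℂ) • polK O.l O.Λ (pP O.N) H (ka (cut R (cg B))) X) K := by
  have hL := hO.LL_ge
  have L1 : (1 : ℝ) ≤ (LL O.l : ℝ) ^ (6 * c + 16) := one_le_pow₀ (by linarith)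
  have ρ0 : 0 ≤ ρ := le_trans (by positivity) hh
  have s2 : ∀ B, Cv R (2 * ρ) B → ∀ e, ‖cut R (cg B) e‖ ≤ d := fun B hB e =>
    (JS.cut_cg_bd hB (by linarith) e).trans (by linarith)
  have s1 : ∀ B, Cv R ρ B → ∀ e, ‖cut R (cg B) e‖ ≤ d := fun B hB => s2 B (hB.mono le_rfl (by linarith))
  have gL : g ≤ g * (LL O.l : ℝ) ^ (6 * c + 16) := le_mul_of_one_le_right g0.le L1
  refine smL_Tb (c := g / 2) (fun B => b (cut R (cg B))) (fun B => a (cut R (cg B)))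
    (fun B X => (g : ℂ) • polK O.l O.Λ (pP O.N) H (ka (cut R (cg B))) X) hK hκ hKg
    (fun _ => polK_lin _ _ _ _ _ _) (fun A B _ _ _ e f _ => by rw [cut_cg_loc e]; simp)
    (fun u B r v v' f _ => ?_) (fun Ω γ o dγ v f _ => ?_) (fun B v => D.smB hO hδ hd (s2 B v) g0.le H Λ)
    (fun B r v => D.smR hO hδ hd (s1 B v) (JS.cut_cg_real r) g0.le hΛ) (by linarith) hm (by linarith)
    (by nlinarith) (by linarith) h1 h0 (le_trans ?_ hh)
  · obtain ⟨a1, a2, a3⟩ := D.ad u _ (s1 B v) (JS.cut_cg_ad _ B ▸ s1 _ v') (JS.cut_cg_real r)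
    simp only [JS.cut_cg_ad, a1, a2, Pi.smul_apply, adq_smul]
    exact ⟨rfl, rfl, fun X => congrArg _ (congrFun
      (polK_gauge (u := fun _ => cS u) (fun _ => uni_cS u) fun y _ => a3 y) f)⟩
  · obtain ⟨a1, a2, a3⟩ := D.hol Ω _ o (JS.cut_cg_disc dγ R) fun t ht => s2 _ (v t ht)
    exact ⟨a1 f, a2 f, fun X => (polK_disc a3 (disc_const X) f).const_smul (g : ℂ)⟩
  · refine mul_le_mul_of_nonneg_right ?_ h0.le
    calc _ = (Λ.card + 1) ^ 2 * (8 * 10 ^ 6 * (LL O.l : ℝ) ^ (6 * c + 16)) * (ε / g) ^ 2 := by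
          field_simp; ring
      _ ≤ _ := by
          refine mul_le_mul_of_nonneg_right (mul_le_mul_of_nonneg_left ?_ (sq_nonneg _)) (sq_nonneg _)
          rw [show 6 * c + 18 = 2 + (6 * c + 16) by ring, pow_add _ 2]
          exact mul_le_mul_of_nonneg_right (by nlinarith) (by linarith)

end Dk

end Pool.Agent.Lib.MP_7f377f_mp.RG.Q4
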