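import Pool.Agent.Lib.MP_7f377f_mp.G.Q4Kit
import Pool.Agent.Lib.MP_7f377f_mp.RGHol2

/-! Two-jets of functions which are holomorphic along lines. -/

noncomputable section

set_option linter.unusedSectionVars false
variable [Pool.Agent.Lib.MP_7f377f_mp.GD]

namespace Pool.Agent.Lib.MP_7f377f_mp.RG.Q4

open Filter Metric Kit Kit.Dom
open scoped Topology

section real

variable {E : Type} [AddCommGroup E] [Module ℝ E] {φ ψ L L' : E → ℂ} {σ σ' : E → E → ℂ}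

/-- first difference quotients -/
def s1 (φ : E → ℂ) (a : E) (n : ℕ) : ℂ := (2 : ℂ) ^ n * (φ ((2⁻¹ : ℝ) ^ n • a) - φ 0)

/-- second difference quotients -/
def s2 (φ : E → ℂ) (a b : E) (n : ℕ) : ℂ := (4 : ℂ) ^ n / 2 *
  (φ ((2⁻¹ : ℝ) ^ n • a + (2⁻¹ : ℝ) ^ n • b) - φ ((2⁻¹ : ℝ) ^ n • a) - φ ((2⁻¹ : ℝ) ^ n • b) + φ 0)

/-- the difference quotients converge -/
def HasK (φ L : E → ℂ) (σ : E → E → ℂ) : Prop :=
  (∀ a, Tendsto (s1 φ a) atTop (𝓝 (L a))) ∧ ∀ a b, Tendsto (s2 φ a b) atTop (𝓝 (σ a b))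

theorem HasK.k1 (h : HasK φ L σ) (a : E) : k1 φ a = L a := (h.1 a).limUnder_eq

theorem HasK.kq (h : HasK φ L σ) (a b : E) : kq φ a b = σ a b := (h.2 a b).limUnder_eq

theorem HasK.self (h : HasK φ L σ) : HasK φ (Q4.k1 φ) (Q4.kq φ) :=
  ⟨fun a => h.k1 a ▸ h.1 a, fun a b => h.kq a b ▸ h.2 a b⟩

theorem HasK.add (h : HasK φ L σ) (h' : HasK ψ L' σ') :
    HasK (fun v => φ v + ψ v) (fun a => L a + L' a) fun a b => σ a b + σ' a b :=
  ⟨fun a => ((h.1 a).add (h'.1 a)).congr fun n => by simp only [s1]; ring,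
    fun a b => ((h.2 a b).add (h'.2 a b)).congr fun n => by simp only [s2]; ring⟩

theorem HasK.mul (h : HasK φ L σ) (c : ℂ) :
    HasK (fun v => c * φ v) (fun a => c * L a) fun a b => c * σ a b :=
  ⟨fun a => ((h.1 a).const_mul c).congr fun n => by simp only [s1]; ring,
    fun a b => ((h.2 a b).const_mul c).congr fun n => by simp only [s2]; ring⟩

theorem HasK.sub (h : HasK φ L σ) (h' : HasK ψ L' σ') :
    HasK (fun v => φ v - ψ v) (fun a => L a - L' a) fun a b => σ a b - σ' a b := by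
  simpa only [neg_mul, one_mul, ← sub_eq_add_neg] using h.add (h'.mul (-1))

theorem k1_congr {E' : Type} [AddCommGroup E'] [Module ℝ E'] {ψ : E' → ℂ} {a : E} {a' : E'}
    (h : ∀ t : ℝ, φ (t • a) = ψ (t • a')) : k1 φ a = k1 ψ a' := by
  have := h 0
  rw [zero_smul, zero_smul] at this
  simp only [k1, h, this]

theorem kq_congr {E' : Type} [AddCommGroup E'] [Module ℝ E'] {ψ : E' → ℂ} {a b : E} {a' b' : E'}
    (h : ∀ s t : ℝ, φ (s • a + t • b) = ψ (s • a' + t • b')) : kq φ a b = kq ψ a' b' := by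
  have h0 := h 0 0
  have h1 := fun s => h s 0
  have h2 := h 0
  simp only [zero_smul, add_zero, zero_add] at h0 h1 h2
  simp only [kq, h, h0, h1, h2]

theorem kq_symm (φ : E → ℂ) (a b : E) : kq φ a b = kq φ b a := by
  unfold kq
  congr 1
  funext n
  rw [add_comm (_ • a)]
  ring

theorem k1_real (h : HasK φ L σ) {a : E} (ha : ∀ t : ℝ, (φ (t • a)).im = 0) : (k1 φ a).im = 0 := by
  have h0 := ha 0
  rw [zero_smul] at h0
  have := (Complex.continuous_im.tendsto _).comp (h.self.1 a)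
  refine tendsto_nhds_unique this (tendsto_const_nhds.congr fun n => ?_)
  have e : ((2 : ℂ) ^ n).im = 0 := by norm_cast
  simp [s1, ha, h0, e]

theorem kq_real (h : HasK φ L σ) {a b : E} (ha : ∀ s t : ℝ, (φ (s • a + t • b)).im = 0) :
    (kq φ a b).im = 0 := by
  have h0 := ha 0 0
  have h1 := fun s => ha s 0
  have h2 := ha 0
  simp only [zero_smul, add_zero, zero_add] at h0 h1 h2
  have := (Complex.continuous_im.tendsto _).comp (h.self.2 a b)
  refine tendsto_nhds_unique this (tendsto_const_nhds.congr fun n => ?_)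
  have e : ((4 : ℂ) ^ n / 2).im = 0 := by
    rw [show (4 : ℂ) ^ n / 2 = ((4 ^ n / 2 : ℝ) : ℂ) by push_cast; rfl, Complex.ofReal_im]
  simp only [Function.comp, s2, Complex.mul_im, e, Complex.add_im, Complex.sub_im, ha, h0, h1, h2]
  ring

variable {Z : Type} [MeasurableSpace Z] {F : Z → E → ℂ} {a b : Z → E}

theorem k1_meas (h : ∀ t : ℝ, Measurable fun z => F z (t • a z)) :
    Measurable fun z => k1 (F z) (a z) := by
  have h0 := h 0
  simp only [zero_smul] at h0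
  exact (MeasureTheory.StronglyMeasurable.limUnder fun n =>
    (((h _).sub h0).const_mul _).stronglyMeasurable).measurable

theorem kq_meas (h : ∀ s t : ℝ, Measurable fun z => F z (s • a z + t • b z)) :
    Measurable fun z => kq (F z) (a z) (b z) := by
  have h0 := h 0 0
  have h1 := fun s => h s 0
  have h2 := h 0
  simp only [zero_smul, add_zero, zero_add] at h0 h1 h2
  exact (MeasureTheory.StronglyMeasurable.limUnder fun n =>
    (((((h _ _).sub (h1 _)).sub (h2 _)).add h0).const_mul _).stronglyMeasurable).measurable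

end real

variable {E : Type} [AddCommGroup E] [Module ℂ E] [Module ℝ E] [IsScalarTower ℝ ℂ E]
  {O : Dom E} {k : E → ℂ} {M θ θ' η : ℝ} {L : E →ₗ[ℂ] ℂ} {σ : E →ₗ[ℂ] E →ₗ[ℂ] ℂ} {a b A : E}

theorem rsm (t : ℝ) (a : E) : t • a = (t : ℂ) • a := (algebraMap_smul ℂ t a).symm

theorem mem_rsm (t : ℝ) (h : a ∈ O.D θ) : t • a ∈ O.D (|t| * θ) := by
  simpa [rsm] using O.smul t h

theorem hasK_poly (c : ℂ) (L : E →ₗ[ℂ] ℂ) (hs : ∀ a b, σ a b = σ b a) :
    HasK (fun v => c + L v + σ v v) L fun a b => σ a b := by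
  have e : ∀ n : ℕ, (2 : ℂ) ^ n * (2⁻¹ : ℂ) ^ n = 1 := fun n => by simp
  refine ⟨fun a => ?_, fun a b => tendsto_const_nhds.congr fun n => ?_⟩
  · have := ((tendsto_pow_atTop_nhds_zero_of_norm_lt_one (x := (2⁻¹ : ℂ)) (by
      norm_num)).mul_const (σ a a)).const_add (L a)
    rw [zero_mul, add_zero] at this
    refine this.congr fun n => ?_
    simp only [s1, rsm, map_smul, map_zero, LinearMap.smul_apply, smul_eq_mul]
    push_cast
    linear_combination (-(L a) - 2⁻¹ ^ n * σ a a) * e n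
  · simp only [s2, rsm, map_smul, map_add, map_zero, LinearMap.smul_apply, LinearMap.add_apply,
      smul_eq_mul, hs b a, show (4 : ℂ) ^ n = 2 ^ n * 2 ^ n by rw [← mul_pow]; norm_num]
    push_cast
    linear_combination (-(σ a b) * (1 + 2 ^ n * 2⁻¹ ^ n)) * e n

/-- Taylor expansion of order two -/
structure Jet (O : Dom E) (k : E → ℂ) (M : ℝ) (L : E →ₗ[ℂ] ℂ) (σ : E →ₗ[ℂ] E →ₗ[ℂ] ℂ) : Prop where
  symm : ∀ a b, σ a b = σ b a
  l_le : ∀ {θ a}, a ∈ O.D θ → 0 < θ → ‖L a‖ ≤ M * θ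
  q_le : ∀ {θ θ' a b}, a ∈ O.D θ → b ∈ O.D θ' → 0 < θ → 0 < θ' → ‖σ a b‖ ≤ M * θ * θ'
  rem : ∀ {θ a}, a ∈ O.D θ → 0 < θ → θ ≤ 1 → ‖k a - k 0 - L a - σ a a‖ ≤ M * θ ^ 3

omit [Module ℝ E] [IsScalarTower ℝ ℂ E] in
theorem Jet.rem2 (h : Jet O k M L σ) (ha : a ∈ O.D θ) (h0 : 0 < θ) (h1 : θ ≤ 1) :
    ‖k a - k 0 - L a‖ ≤ 2 * M * θ ^ 2 := by
  have h2 := h.rem ha h0 h1
  have h3 := h.q_le ha ha h0 h0
  have h4 := norm_add_le (k a - k 0 - L a - σ a a) (σ a a)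
  have M0 : 0 ≤ M := nonneg_of_mul_nonneg_left ((norm_nonneg _).trans (h.l_le ha h0)) h0
  rw [sub_add_cancel] at h4
  nlinarith [mul_nonneg M0 (mul_nonneg (sq_nonneg θ) (sub_nonneg.2 h1))]

theorem Jet.rate1 (h : Jet O k M L σ) (ha : a ∈ O.D θ) (h0 : 0 < θ) {n : ℕ}
    (hn : (2⁻¹ : ℝ) ^ n * θ ≤ 1) : ‖s1 k a n - L a‖ ≤ 2 * M * θ ^ 2 * 2⁻¹ ^ n := by
  have e : (2 : ℂ) ^ n * (2⁻¹ : ℂ) ^ n = 1 := by simp
  have e' : (2 : ℝ) ^ n * (2⁻¹ : ℝ) ^ n = 1 := by simp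
  have h1 := mem_rsm ((2⁻¹ : ℝ) ^ n) ha
  rw [abs_of_pos (by positivity)] at h1
  have h2 := h.rem2 h1 (by positivity) hn
  have h3 : s1 k a n - L a = 2 ^ n * (k ((2⁻¹ : ℝ) ^ n • a) - k 0 - L ((2⁻¹ : ℝ) ^ n • a)) := by
    simp only [s1, rsm _ a, map_smul, smul_eq_mul]
    push_cast
    linear_combination L a * e
  rw [h3, norm_mul, norm_pow, Complex.norm_two]
  refine (mul_le_mul_of_nonneg_left h2 (by positivity)).trans_eq ?_
  linear_combination 2 * M * θ ^ 2 * 2⁻¹ ^ n * e'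

theorem Jet.rate2 (h : Jet O k M L σ) (ha : a ∈ O.D θ) (hb : b ∈ O.D θ) (h0 : 0 < θ) {n : ℕ}
    (hn : 2 * ((2⁻¹ : ℝ) ^ n * θ) ≤ 1) : ‖s2 k a b n - σ a b‖ ≤ 5 * M * θ ^ 3 * 2⁻¹ ^ n := by
  have e : (2 : ℂ) ^ n * (2⁻¹ : ℂ) ^ n = 1 := by simp
  have e' : (2 : ℝ) ^ n * (2⁻¹ : ℝ) ^ n = 1 := by simp
  have h1 := mem_rsm ((2⁻¹ : ℝ) ^ n) ha
  have h2 := mem_rsm ((2⁻¹ : ℝ) ^ n) hb
  have p : 0 < (2⁻¹ : ℝ) ^ n * θ := by positivity
  rw [abs_of_pos (by positivity)] at h1 h2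
  have r1 := h.rem h1 p (by linarith)
  have r2 := h.rem h2 p (by linarith)
  have r3 := h.rem (O.add h1 h2) (by positivity) (by linarith)
  set x := (2⁻¹ : ℝ) ^ n • a with hx
  set y := (2⁻¹ : ℝ) ^ n • b with hy
  have h3 : s2 k a b n - σ a b = 2 ^ n * 2 ^ n / 2 * ((k (x + y) - k 0 - L (x + y) - σ (x + y) (x + y)) -
      (k x - k 0 - L x - σ x x) - (k y - k 0 - L y - σ y y)) := by
    have : σ x y = 2⁻¹ ^ n * 2⁻¹ ^ n * σ a b := by
      simp only [hx, hy, rsm, map_smul, LinearMap.smul_apply, smul_eq_mul]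
      push_cast
      ring
    simp only [s2, ← hx, ← hy, map_add, LinearMap.add_apply, h.symm y x, this,
      show (4 : ℂ) ^ n = 2 ^ n * 2 ^ n by rw [← mul_pow]; norm_num]
    linear_combination (σ a b * (1 + 2 ^ n * 2⁻¹ ^ n)) * e
  rw [h3, norm_mul, norm_div, norm_mul, norm_pow, Complex.norm_two]
  refine (mul_le_mul_of_nonneg_left ((norm_sub_le _ _).trans (add_le_add ((norm_sub_le _ _).trans
    (add_le_add r3 r1)) r2)) (by positivity)).trans_eq ?_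
  linear_combination 5 * M * θ ^ 3 * 2⁻¹ ^ n * (1 + 2 ^ n * 2⁻¹ ^ n) * e'

theorem tend_half (c : ℝ) : Tendsto (fun n : ℕ => c * 2⁻¹ ^ n) atTop (𝓝 0) := by
  simpa using (tendsto_pow_atTop_nhds_zero_of_lt_one (r := (2⁻¹ : ℝ)) (by norm_num)
    (by norm_num)).const_mul c

theorem ev_half (θ : ℝ) : ∀ᶠ n : ℕ in atTop, 2 * ((2⁻¹ : ℝ) ^ n * θ) ≤ 1 :=
  ((tend_half (2 * θ)).eventually_le_const one_pos).mono fun n h => by linarith

theorem Jet.hasK (h : Jet O k M L σ) (hall : ∀ B, ∃ θ, B ∈ O.D θ) :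
    HasK k L fun a b => σ a b := by
  refine ⟨fun a => ?_, fun a b => ?_⟩
  · obtain ⟨θ, h0, ha, -⟩ := common hall a a
    exact tendsto_iff_norm_sub_tendsto_zero.2 (squeeze_zero' (.of_forall fun _ => norm_nonneg _)
      ((ev_half θ).mono fun n hn => h.rate1 ha h0 (by
        linarith [show 0 < (2⁻¹ : ℝ) ^ n * θ by positivity])) (tend_half _))
  · obtain ⟨θ, h0, ha, hb⟩ := common hall a b
    exact tendsto_iff_norm_sub_tendsto_zero.2 (squeeze_zero' (.of_forall fun _ => norm_nonneg _)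
      ((ev_half θ).mono fun n hn => h.rate2 ha hb h0 hn) (tend_half _))

theorem holo_lim {S : Set ℂ} (hS : IsOpen S) {F : ℕ → ℂ → ℂ} {f : ℂ → ℂ} {c : ℝ}
    (h : ∀ᶠ n in atTop, DifferentiableOn ℂ (F n) S ∧ ∀ s ∈ S, ‖F n s - f s‖ ≤ c * 2⁻¹ ^ n) :
    DifferentiableOn ℂ f S := by
  refine (TendstoUniformlyOn.tendstoLocallyUniformlyOn (p := atTop) (F := F)
    (Metric.tendstoUniformlyOn_iff.2 fun ε hε => ?_)).differentiableOn (h.mono fun _ h => h.1) hS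
  filter_upwards [h, (tend_half c).eventually_lt_const hε] with n h1 h2 s hs
  rw [dist_comm, dist_eq_norm]
  exact (h1.2 s hs).trans_lt h2

/-- the jets of a holomorphic family are holomorphic -/
theorem Jet.disc (hall : ∀ B, ∃ θ, B ∈ O.D θ) {S : Set ℂ} (hS : IsOpen S) {k : ℂ → E → ℂ}
    {a b : ℂ → E} (h : ∀ s ∈ S, ∃ L σ, Jet O (k s) M L σ) (h0 : 0 < θ)
    (hab : ∀ s ∈ S, a s ∈ O.D θ ∧ b s ∈ O.D θ)
    (hd : ∀ x y : ℝ, 0 ≤ x → 0 ≤ y → x * θ + y * θ ≤ 1 →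
      DifferentiableOn ℂ (fun s => k s (x • a s + y • b s)) S) :
    DifferentiableOn ℂ (fun s => k1 (k s) (a s)) S ∧
      DifferentiableOn ℂ (fun s => kq (k s) (a s) (b s)) S := by
  have d0 := hd 0 0 le_rfl le_rfl (by simp)
  have d1 := fun x hx h => hd x 0 hx le_rfl h
  have d2 := fun x hx h => hd 0 x le_rfl hx h
  simp only [zero_smul, add_zero, zero_add, zero_mul] at d0 d1 d2
  refine ⟨holo_lim hS (F := fun n s => s1 (k s) (a s) n) (c := 2 * M * θ ^ 2)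
    ((ev_half θ).mono fun n hn => ?_), holo_lim hS (F := fun n s => s2 (k s) (a s) (b s) n)
    (c := 5 * M * θ ^ 3) ((ev_half θ).mono fun n hn => ?_)⟩ <;>
    have p : 0 < (2⁻¹ : ℝ) ^ n * θ := by positivity
  · refine ⟨((d1 _ (by positivity) (by linarith)).sub d0).const_mul _, fun s hs => ?_⟩
    obtain ⟨L, σ, j⟩ := h s hs
    rw [(j.hasK hall).k1]
    exact j.rate1 (hab s hs).1 h0 (by linarith)
  · refine ⟨((((hd _ _ (by positivity) (by positivity) (by linarith)).sub (d1 _ (by positivity)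
      (by linarith))).sub (d2 _ (by positivity) (by linarith))).add d0).const_mul _, fun s hs => ?_⟩
    obtain ⟨L, σ, j⟩ := h s hs
    rw [(j.hasK hall).kq]
    exact j.rate2 (hab s hs).1 (hab s hs).2 h0 hn

omit [Module ℝ E] [IsScalarTower ℝ ℂ E] in
theorem exists_jet (h : O.LH k) (hM : ∀ B ∈ O.D 1, ‖k B‖ ≤ M) (hall : ∀ B, ∃ θ, B ∈ O.D θ) :
    ∃ L σ, Jet O k (12 * M) L σ := by
  obtain ⟨θ0, h00⟩ := hall 0
  have z : ∀ θ, 0 ≤ θ → (0 : E) ∈ O.D θ := fun θ => zero h00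
  have z' : (0 : E) ∈ O.half.D 1 := z _ (by norm_num)
  have M0 : 0 ≤ M := (norm_nonneg _).trans (hM 0 (z 1 zero_le_one))
  let L : E →ₗ[ℂ] ℂ := ⟨⟨dv k 0, h.dv_add hM hall z'⟩, fun c v => dv_smul k 0 v c⟩
  have hL : ∀ {θ a}, a ∈ O.D θ → 0 < θ → ‖L a‖ ≤ 4 * M * θ := fun {θ a} ha h0 =>
    ((h.dv_lh hM h0 ha).2 0 z').trans_eq (by field_simp; ring)
  have g1 : O.LH fun w => k w - k 0 - L w := fun B δ S hS hD => by
    simp only [map_add, map_smul]
    exact ((h B δ S hS hD).sub_const _).sub (by fun_prop)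
  have g2 : ∀ B ∈ O.D 1, ‖k B - k 0 - L B‖ ≤ 6 * M := fun B hB => by
    linarith [norm_sub_le (k B - k 0) (L B), norm_sub_le (k B) (k 0), hM B hB,
      hM 0 (z 1 zero_le_one), hL hB one_pos]
  have g3 : k 0 - k 0 - L 0 = 0 := by simp
  have g4 : ∀ B, deriv (fun t : ℂ => k (t • B) - k 0 - L (t • B)) 0 = 0 := fun B => by
    obtain ⟨θ, hB⟩ := hall B
    have := (((h.diffAt hB).hasDerivAt.sub_const (k 0)).sub
      ((hasDerivAt_id (0 : ℂ)).mul_const (L B))).deriv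
    simp only [map_smul, smul_eq_mul]
    refine this.trans ?_
    simp [L, dv]
  obtain ⟨β, hβ⟩ := g1.bilin g2 hall
  let σ := (4⁻¹ : ℂ) • (β + β.flip)
  have sy : ∀ a b, σ a b = σ b a := fun a b => by simp [σ, add_comm]
  have hσ : ∀ B, σ B B = d2 (fun w => k w - k 0 - L w) B B / 2 := fun B => by
    simp [σ, hβ]; ring
  refine ⟨L, σ, sy, fun ha h0 => (hL ha h0).trans (by nlinarith), fun {θ θ' a b} ha hb h0 h0' => ?_,
    fun {θ a} ha h0 h1 => ?_⟩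
  · have a1 := O.smul (θ⁻¹ : ℝ) ha
    have b1 := O.smul (θ'⁻¹ : ℝ) hb
    rw [Complex.norm_real, Real.norm_of_nonneg (by positivity), inv_mul_cancel₀ (by positivity)]
      at a1 b1
    have c1 := g1.d2_le g2 g3 g4 (O.add a1 b1) (by norm_num)
    have c2 := g1.d2_le g2 g3 g4 (sub a1 b1) (by norm_num)
    rw [← hσ] at c1 c2
    have c3 := (norm_sub_le _ _).trans (add_le_add c1 c2)
    have e : σ a b = θ * θ' / 4 * (σ (((θ⁻¹ : ℝ) : ℂ) • a + ((θ'⁻¹ : ℝ) : ℂ) • b)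
        (((θ⁻¹ : ℝ) : ℂ) • a + ((θ'⁻¹ : ℝ) : ℂ) • b) -
        σ (((θ⁻¹ : ℝ) : ℂ) • a - ((θ'⁻¹ : ℝ) : ℂ) • b)
          (((θ⁻¹ : ℝ) : ℂ) • a - ((θ'⁻¹ : ℝ) : ℂ) • b)) := by
      have n1 : (θ : ℂ) ≠ 0 := by exact_mod_cast h0.ne'
      have n2 : (θ' : ℂ) ≠ 0 := by exact_mod_cast h0'.ne'
      simp only [map_add, map_sub, map_smul, LinearMap.add_apply, LinearMap.sub_apply,
        LinearMap.smul_apply, smul_eq_mul, sy b a]
      push_cast
      field_simp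
      ring
    rw [e, norm_mul, norm_div, norm_mul, Complex.norm_real, Complex.norm_real,
      Real.norm_of_nonneg h0.le, Real.norm_of_nonneg h0'.le, Complex.norm_ofNat]
    exact (mul_le_mul_of_nonneg_left c3 (by positivity)).trans_eq (by ring)
  · rw [hσ]
    exact (g1.cubic g2 g3 g4 ha h0 h1).trans_eq (by ring)

/-- first and second Taylor coefficients at the point `A` -/
def j1 (k : E → ℂ) (A v : E) : ℂ := k1 (fun w => k (A + w)) v

def j2 (k : E → ℂ) (A a b : E) : ℂ := kq (fun w => k (A + w)) a b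

section base

variable (h : O.LH k) (hM : ∀ B ∈ O.D 1, ‖k B‖ ≤ M) (hall : ∀ B, ∃ θ, B ∈ O.D θ)
include h hM hall

omit [Module ℝ E] [IsScalarTower ℝ ℂ E] in
theorem jet_at (hA : A ∈ O.half.D 1) : ∃ L σ, Jet O.half (fun w => k (A + w)) (12 * M) L σ := by
  have m : ∀ B ∈ O.half.D 1, A + B ∈ O.D 1 := fun B hB => O.mono (by norm_num) (O.add hA hB)
  exact exists_jet (fun B δ S hS hD => by
    simpa only [add_assoc] using h (A + B) δ S hS fun t ht => by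
      simpa only [add_assoc] using m _ (hD t ht)) (fun B hB => hM _ (m B hB))
    fun B => (hall B).elim fun _ h => ⟨_, mem_half h⟩

/-- everything about the expansion at a point of the ball of half the radius -/
theorem j_main (hA : A ∈ O.D (1 / 2)) :
    HasK (fun w => k (A + w)) (j1 k A) (j2 k A) ∧
    (∃ (L : E →ₗ[ℂ] ℂ) (σ : E →ₗ[ℂ] E →ₗ[ℂ] ℂ), (∀ a, j1 k A a = L a) ∧ ∀ a b, j2 k A a b = σ a b) ∧
    ∀ {θ a}, a ∈ O.D θ → 0 < θ → ‖j1 k A a‖ ≤ 24 * M * θ ∧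
      (∀ {θ' b}, b ∈ O.D θ' → 0 < θ' → ‖j2 k A a b‖ ≤ 48 * M * θ * θ') ∧
      (θ ≤ 1 / 2 → ‖k (A + a) - k A - j1 k A a‖ ≤ 96 * M * θ ^ 2 ∧
        ‖k (A + a) - k A - j1 k A a - j2 k A a a‖ ≤ 96 * M * θ ^ 3) := by
  obtain ⟨L, σ, j⟩ := jet_at h hM hall hA
  have hk := j.hasK fun B => (hall B).elim fun _ h => ⟨_, mem_half h⟩
  refine ⟨hk.self, ⟨L, σ, hk.k1, hk.kq⟩, fun {θ a} ha h0 => ?_⟩
  simp only [j1, j2, hk.k1, hk.kq]
  refine ⟨(j.l_le (mem_half ha) (by positivity)).trans_eq (by ring), fun hb h0' =>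
    (j.q_le (mem_half ha) (mem_half hb) (by positivity) (by positivity)).trans_eq (by ring),
    fun h1 => ⟨?_, ?_⟩⟩
  · simpa only [add_zero] using (j.rem2 (mem_half ha) (by positivity) (by linarith)).trans_eq
      (by ring)
  · simpa only [add_zero] using (j.rem (mem_half ha) (by positivity) (by linarith)).trans_eq
      (by ring)

theorem j_lh (a b : E) : (O.half.LH fun A => j1 k A a) ∧ O.half.LH fun A => j2 k A a b := by
  obtain ⟨θ, h0, ha, hb⟩ := common hall a b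
  have key := fun (B δ : E) (S : Set ℂ) (hS : IsOpen S) (hD : ∀ t ∈ S, B + t • δ ∈ O.half.D 1) =>
    Jet.disc (O := O.half) (fun B => (hall B).elim fun _ h => ⟨_, mem_half h⟩) hS
      (k := fun s w => k (B + s • δ + w)) (a := fun _ => a) (b := fun _ => b)
      (fun s hs => jet_at h hM hall (hD s hs)) (θ := 2 * θ) (by positivity)
      (fun _ _ => ⟨mem_half ha, mem_half hb⟩) fun x y hx hy hxy => by
        simp only [add_right_comm B (_ • δ)]
        refine h _ δ S hS fun t ht => ?_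
        rw [add_right_comm]
        refine O.mono ?_ (O.add (hD t ht) (O.add (mem_rsm x ha) (mem_rsm y hb)))
        rw [abs_of_nonneg hx, abs_of_nonneg hy]
        linarith
  exact ⟨fun B δ S hS hD => (key B δ S hS hD).1, fun B δ S hS hD => (key B δ S hS hD).2⟩

theorem j1_lip (hA : A ∈ O.D (1 / 8)) {δ : E} (hδ : δ ∈ O.D η) (η0 : 0 < η) (η1 : η ≤ 1 / 4)
    (ha : a ∈ O.D θ) (h0 : 0 < θ) : ‖j1 k (A + δ) a - j1 k A a‖ ≤ 128 * M * θ * η :=
  ((j_lh h hM hall a a).1.lip (fun _ hB => ((j_main h hM hall hB).2.2 ha h0).1) (mem_half hA)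
    (mem_half hδ) (by positivity) (by linarith)).trans_eq (by ring)

end base

end Pool.Agent.Lib.MP_7f377f_mp.RG.Q4
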