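import Pool.Agent.Lib.MP_7f377f_mp.G.Q4TrC
import Pool.Agent.Lib.MP_7f377f_mp.G.Q4OpK1

/-! The tree step: convergence of the Newton iteration, expansions around the minimiser. -/

noncomputable section

set_option linter.unusedSectionVars false
variable [Pool.Agent.Lib.MP_7f377f_mp.GD]

namespace Pool.Agent.Lib.MP_7f377f_mp.RG.Q4

open Finset Polynomial

attribute [local irreducible] box lbox

theorem Od.pj_ham {O : Od} {c : ℕ} (h : O.Ok c) (H : Set St) (W : Cf) {A : Fld}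
    (hA : pj O.l H A = A) : pj O.l H (O.ham W A) = (O.Λ : ℂ) • O.pol (1 - X) H W A := by
  have : (O.Λ : ℂ) ≠ 0 := by exact_mod_cast h.lam_pos.ne'
  rw [Od.pol_sub, Od.pol_one, Od.pol_X, Od.top, hA, ← pjL_apply (A := A - _), map_sub, map_smul,
    pjL_apply, pjL_apply, hA, sub_sub_cancel, smul_inv_smul₀ this]

theorem HasK.comp {E E' : Type} [AddCommGroup E] [Module ℝ E] [AddCommGroup E'] [Module ℝ E']
    {φ L : E → ℂ} {σ : E → E → ℂ} (h : HasK φ L σ) (g : E' →ₗ[ℝ] E) :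
    HasK (fun v => φ (g v)) (fun a => L (g a)) fun a b => σ (g a) (g b) :=
  ⟨fun a => (h.1 (g a)).congr fun n => by simp only [s1, map_smul, map_zero],
    fun a b => (h.2 (g a) (g b)).congr fun n => by simp only [s2, map_smul, map_add, map_zero]⟩

/-- translations as linear maps -/
def shF (x : St) : Fld →ₗ[ℂ] Fld := LinearMap.funLeft ℂ C3 fun e : Lk => (e.1 + x, e.2)

/-- rotations of the colour as linear maps -/
def adFL (u : St → Hc) : Fld →ₗ[ℂ] Fld := ⟨⟨adF u, Ho.adF_add u⟩, Ho.adF_smul u⟩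

namespace Nt

/-- the contraction factor of the Newton iteration -/
def th (t : Nt) (c : ℕ) (P d : ℝ) : ℝ :=
  Real.exp (-(t.O.l : ℝ) ^ 2) + (LL t.O.l : ℝ) ^ (9 * c + 29) * (P * d)

/-- the size of the minimiser -/
def al (t : Nt) (c : ℕ) (τ P d : ℝ) : ℝ := (LL t.O.l : ℝ) ^ (8 * c + 24) * (P * (d ^ 2 + τ * d))

/-- the kernel of the Hessian of the block at the origin -/
def kd (t : Nt) (W : Cf) : Kf := fun e i e' j => j2 (t.FF W 0) (t.As W) (eb e i) (eb e' j)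

/-- the jets of the energy of the block `y` at `A` exist and are linear -/
def Lj (t : Nt) (W : Cf) (y : St) (A : Fld) : Prop :=
  HasK (fun w => t.FF W y (A + w)) (j1 (t.FF W y) A) (j2 (t.FF W y) A) ∧
    ∃ (L : Fld →ₗ[ℂ] ℂ) (σ : Fld →ₗ[ℂ] Fld →ₗ[ℂ] ℂ), (∀ a, j1 (t.FF W y) A a = L a) ∧
      ∀ a b, j2 (t.FF W y) A a b = σ a b

variable {t : Nt} {r c : ℕ} {τ P δ d α β η γ : ℝ} {m : BF} {s : V →ₗ[ℝ] V} {B A A' v a b D : Fld}
  {f : Lk} {W : Cf} {y y' : St}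

/-! ### consequences of linearity -/

theorem Lj.single (j : t.Lj W y A) (f : Lk) (b : C3) :
    ∑ k, j1 (t.FF W y) A (eb f k) * b k = j1 (t.FF W y) A (Pi.single f b) := by
  obtain ⟨-, L, -, hL, -⟩ := j
  simp only [hL, single_eq_sum f b, map_sum, map_smul, smul_eq_mul, mul_comm]

theorem Lj.xi_eq (j : t.Lj W y A) : t.xi W A v y y' = ∑ e ∈ lbox t.O.l, j1 (t.FF W y) A
    (Pi.single (e.1 + up t.O.l y', e.2) (v (e.1 + up t.O.l y', e.2))) :=
  sum_congr rfl fun _ _ => j.single _ _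

theorem j1_loc (h : t.Ok r c τ m s P δ)
    (e : Agr (3 * t.O.l + 1) (sh (up t.O.l y) a) (sh (up t.O.l y) v)) :
    j1 (t.FF W y) A a = j1 (t.FF W y) A v :=
  k1_congr fun s => h.ge.loc _ _ _ _ (fun _ _ => rfl) fun f hf => by
    have := e f hf
    simp only [sh_apply, Pi.add_apply, Pi.smul_apply] at this ⊢
    rw [this]

theorem Lj.L1_eq (h : t.Ok r c τ m s P δ) (j : t.Lj W y A) : t.L1 W A v y = j1 (t.FF W y) A v := by
  simp only [L1, j.xi_eq]
  obtain ⟨-, L, -, hL, -⟩ := j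
  have e := Op.sum_fb t.O.l 2 fun e : Lk =>
    L (Pi.single (e.1 + up t.O.l y, e.2) (v (e.1 + up t.O.l y, e.2)))
  simp only [add_assoc, ← up_add, add_comm _ y] at e
  simp only [hL]
  rw [← e, ← map_sum, ← hL, ← hL]
  refine j1_loc h fun f hf => ?_
  rw [sh_apply, sh_apply, Finset.sum_apply, sum_eq_single f (fun e _ he => Pi.single_eq_of_ne
    (by simpa [Prod.ext_iff, eq_comm] using he) _) fun h' => (h' (lbox_mono (by
      rw [← Op.fb_one]; exact Op.fb_mono _ one_le_two) hf)).elim, Pi.single_eq_same]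

theorem Lj.qk_eq (h : t.Ok r c τ m s P δ) (j : t.Lj W 0 (t.As W)) :
    qk t.O.l (t.kd W) a b = j2 (t.FF W 0) (t.As W) a b := by
  obtain ⟨-, -, σ, -, hσ⟩ := j
  rw [hσ, ← qk_bilin (l := t.O.l) σ fun a a' b b' ha hb => by
    rw [← hσ, ← hσ]
    exact j2_agr h (zero_mem_box 0) (fun _ _ => rfl) (fun _ _ => rfl) (by rwa [Op.fb_one])
      (by rwa [Op.fb_one])]
  simp only [qk, kd, hσ]

theorem Yq_zero (h : t.Ok r c τ m s P δ) :
    t.Yq W v 0 = qk t.O.l (t.kd W) v v - cx t.O.h (Ay t.O.l 0 W v) (Ay t.O.l 0 W v) := by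
  have := qk_bilin (l := t.O.l) ((cxB t.O.h).compl₁₂ (AyL t.O.l 0 W) (AyL t.O.l 0 W))
    (fun a a' b b' ha hb => cx_agr h.op.rng (Ay_agr (zero_mem_box 0) (fun _ _ => rfl)
      (by rwa [Op.fb_one])) (Ay_agr (zero_mem_box 0) (fun _ _ => rfl) (by rwa [Op.fb_one]))) v v
  refine Eq.trans ?_ (congrArg _ this)
  simp only [Yq, Yb, qk, kd, up_zero, add_zero, sub_mul, sum_sub_distrib]
  rfl

theorem Lj.Yq_eq (h : t.Ok r c τ m s P δ) (j : t.Lj (sh y W) 0 (t.As (sh y W))) :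
    t.Yq W v y = t.Yb W y v v := by
  have e1 := t.Yq_sh W v 0 y
  have e2 := t.Yb_sh W v v 0 y
  rw [zero_add] at e1 e2
  rw [← e1, ← e2, Yq_zero h, j.qk_eq h, Yb]

theorem kd_symm (W : Cf) : Ks (t.kd W) := fun e i e' j => by
  simp only [kd, j2, kq_symm _ (eb e i)]

variable (h : t.Ok r c τ m s P δ) (z : t.Sz c τ P δ d)
include h z

theorem Ok.th_le : 0 < t.th c P d ∧ t.th c P d ≤ 3 / 4 := by
  have h1 := h.small z (j := 9 * c + 29) (by omega)
  have h2 := h.op.exp_le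
  have h3 : (LL t.O.l : ℝ) ^ (9 * c + 29) * (P * d) ≤ LL t.O.l ^ (9 * c + 29) * (P * (d + τ)) := by
    gcongr
    exacts [zero_le_one.trans h.P1, le_add_of_nonneg_right h.τ0]
  have := z.d0
  have := h.P1
  exact ⟨by unfold th; positivity, by unfold th; linarith⟩

theorem Ok.al_le : 0 < t.al c τ P d ∧ 10 ^ 6 * t.al c τ P d ≤ d / LL t.O.l := by
  have h1 := h.small z (j := 8 * c + 25) (by omega)
  have := z.d0
  have := h.P1
  have := h.τ0
  have := LL_pos' t.O.l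
  refine ⟨by unfold al; positivity, ?_⟩
  rw [le_div_iff₀ this]
  exact le_of_eq_of_le (by unfold al; ring) (mul_le_of_le_one_right z.d0.le h1)

variable (hB : ∀ e, ‖B e‖ ≤ d)
include hB

theorem lj_of (hA : Sm (3 * t.O.l + 1) (4 * d / LL t.O.l) (sh (up t.O.l y) A)) :
    t.Lj (exF B) y A := by
  obtain ⟨k, ⟨L, σ, hL, hσ⟩, -⟩ := h.ge.blk h.lin z.d0 z.d1 (B := sh y B) (fun _ => hB _) hA
  exact ⟨(k.comp ((shF (up t.O.l y)).restrictScalars ℝ)).self, L ∘ₗ shF _,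
    σ.compl₁₂ (shF _) (shF _), fun a => (j1_FF _ _ _ _).trans (hL _),
    fun a b => (j2_FF _ _ _ _ _).trans (hσ _ _)⟩

theorem lj_all (hA : ∀ e, ‖A e‖ ≤ d / LL t.O.l) (y : St) : t.Lj (exF B) y A :=
  lj_of h z hB ((sm_of_all hA _ _).mono le_rfl (by
    have := z.d0
    have := LL_pos' t.O.l
    gcongr
    linarith))

theorem err_le {E : Fld} (hE : ∀ e, ‖E e‖ ≤ (LL t.O.l : ℝ) ^ (c + 8) * (P * d * η)) (f : Lk) :
    ‖((2 * t.O.Λ : ℂ)⁻¹ • t.O.pol (pP t.O.N ^ 2) ∅ (exF B) E) f‖ ≤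
      (LL t.O.l : ℝ) ^ (9 * c + 29) * (P * d) * η :=
  (pP_glob h z hB hE f).trans_eq (by ring)

/-- the Newton step is a contraction -/
theorem nw_lip (hA : ∀ e, ‖A e‖ ≤ d / LL t.O.l) (hD : ∀ e, ‖D e‖ ≤ η) (η0 : 0 < η)
    (η1 : η ≤ 2 * d / LL t.O.l) (ht : ∀ f, tree t.O.l f → D f = 0) (f : Lk) :
    ‖(t.nw (exF B) (A + D) - t.nw (exF B) A) f‖ ≤ t.th c P d * η := by
  have hp : pj t.O.l ∅ D = D := pj_of fun f hf => ht f (by_contra fun h' => hf (act_empty.2 h'))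
  have L0 : (t.O.Λ : ℂ) ≠ 0 := by exact_mod_cast h.op.lam_pos.ne'
  have e : t.nw (exF B) (A + D) - t.nw (exF B) A = t.O.pol (pU t.O.N) ∅ (exF B) D -
      (2 * t.O.Λ : ℂ)⁻¹ • t.O.pol (pP t.O.N ^ 2) ∅ (exF B)
        (t.grad (exF B) (A + D) - t.grad (exF B) A - (2 : ℂ) • t.O.ham (exF B) D) := by
    have e1 : t.O.pol (pP t.O.N ^ 2) ∅ (exF B) (t.O.ham (exF B) D) =
        (t.O.Λ : ℂ) • t.O.pol (pP t.O.N ^ 2 * (1 - X)) ∅ (exF B) D := by
      rw [← Od.pol_pj, Od.pj_ham h.op _ _ hp, ← Od.polL_apply, map_smul, Od.polL_apply, Od.pol_mul]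
    rw [pU, Od.pol_sub, Od.pol_one, hp, ← Od.polL_apply (A := _ - _ - _), map_sub, map_sub, map_smul,
      Od.polL_apply, Od.polL_apply, Od.polL_apply, e1, nw, nw]
    match_scalars <;> field_simp <;> ring
  rw [e, Pi.sub_apply, th, add_mul]
  exact norm_sub_le_of_le (pU_glob h z hB hD f) (err_le h z hB (grad_diff h z hB hA hD η0 η1) f)

/-- the Newton step reduces the gradient -/
theorem grad_step (hA : ∀ e, ‖A e‖ ≤ d / LL t.O.l) (γ0 : 0 < γ)
    (hγ : ∀ e, ‖pj t.O.l ∅ (t.grad (exF B) A) e‖ ≤ γ)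
    (γ1 : (LL t.O.l : ℝ) ^ (8 * c + 21) * γ ≤ 2 * d / LL t.O.l) (f : Lk) :
    ‖(t.nw (exF B) A - A) f‖ ≤ (LL t.O.l : ℝ) ^ (8 * c + 21) * γ ∧
      ‖pj t.O.l ∅ (t.grad (exF B) (t.nw (exF B) A)) f‖ ≤ t.th c P d * γ := by
  have L0 : (t.O.Λ : ℂ) ≠ 0 := by exact_mod_cast h.op.lam_pos.ne'
  obtain ⟨D, hD, e0⟩ : ∃ D, D = -((2 * t.O.Λ : ℂ)⁻¹ • t.O.pol (pP t.O.N ^ 2) ∅ (exF B)
    (pj t.O.l ∅ (t.grad (exF B) A))) ∧ t.nw (exF B) A = A + D :=
    ⟨_, rfl, by rw [Od.pol_pj, nw, sub_eq_add_neg]⟩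
  have h1 : ∀ e, ‖D e‖ ≤ (LL t.O.l : ℝ) ^ (8 * c + 21) * γ := fun e => by
    rw [hD, Pi.neg_apply, norm_neg]
    exact pP_glob h z hB hγ e
  have hp : pj t.O.l ∅ D = D := by
    rw [hD, ← pjL_apply, map_neg, map_smul, pjL_apply, Od.pj_pol]
  have h2 := grad_diff h z hB hA h1 (mul_pos (pow_pos (LL_pos' _) _) γ0) γ1
  have e : pj t.O.l ∅ (t.grad (exF B) (A + D)) =
      t.O.pol (pU t.O.N) ∅ (exF B) (pj t.O.l ∅ (t.grad (exF B) A)) + pj t.O.l ∅
        (t.grad (exF B) (A + D) - t.grad (exF B) A - (2 : ℂ) • t.O.ham (exF B) D) := by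
    rw [← pjL_apply (A := _ - _ - _), map_sub, map_sub, map_smul, pjL_apply, pjL_apply, pjL_apply,
      Od.pj_ham h.op _ _ hp, pU, Od.pol_sub, Od.pol_one, pj_pj, mul_comm, Od.pol_mul]
    conv_rhs => rw [← Od.polL_apply (A := D), hD, map_neg, map_smul, Od.polL_apply]
    rw [← hD]
    match_scalars <;> field_simp <;> ring
  rw [e0, add_sub_cancel_left, e, Pi.add_apply, th, add_mul]
  exact ⟨h1 f, norm_add_le_of_le (pU_glob h z hB hγ f)
    ((norm_pj f).trans ((h2 f).trans_eq (by ring)))⟩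

theorem iter_bd (j : ℕ) : (∀ e, ‖(t.nw (exF B))^[j] 0 e‖ ≤ 4 * (LL t.O.l : ℝ) ^ (8 * c + 21) *
      ((1 - t.th c P d ^ j) * ((LL t.O.l : ℝ) ^ 2 * (P * (d ^ 2 + τ * d))))) ∧
    ∀ e, ‖pj t.O.l ∅ (t.grad (exF B) ((t.nw (exF B))^[j] 0)) e‖ ≤
      t.th c P d ^ j * ((LL t.O.l : ℝ) ^ 2 * (P * (d ^ 2 + τ * d))) := by
  obtain ⟨θ0, θ1⟩ := h.th_le z
  obtain ⟨a0, a1⟩ := h.al_le z
  have L0 := LL_pos' t.O.l
  have p0 : 0 < P * (d ^ 2 + τ * d) := (mul_pos_iff_of_pos_left (pow_pos L0 _)).1 a0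
  have k := h.up (C := 4) (i := 8 * c + 23) (j := 8 * c + 24) (by norm_num) (by omega) p0.le
  set α := (LL t.O.l : ℝ) ^ 2 * (P * (d ^ 2 + τ * d)) with hα
  set K := (LL t.O.l : ℝ) ^ (8 * c + 21) with hK
  have α0 : 0 < α := by positivity
  have K0 : 0 < K := by positivity
  have k1 : 4 * K * α ≤ d / LL t.O.l := by
    refine le_of_eq_of_le (by rw [hK, hα]; ring) (k.trans ?_)
    unfold al at a0 a1
    linarith
  induction j with
  | zero =>
    simp only [Function.iterate_zero, id, pow_zero, sub_self, zero_mul, mul_zero, one_mul]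
    refine ⟨fun e => norm_zero.le, fun e => ?_⟩
    by_cases he : tree t.O.l e
    · rw [pj_not fun h => act_empty.1 h he, norm_zero]
      exact α0.le
    · rw [pj_act (act_empty.2 he)]
      exact grad_zero h z hB he
  | succ j ih =>
    have t0 : 0 < t.th c P d ^ j := pow_pos θ0 j
    have t1 : t.th c P d ^ j ≤ 1 := pow_le_one₀ θ0.le (by linarith)
    have t2 := mul_pos (mul_pos K0 α0) t0
    have := grad_step h z hB (fun e => (ih.1 e).trans (le_trans (by nlinarith) k1)) (mul_pos t0 α0)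
      ih.2 (by rw [mul_div_assoc]; nlinarith [mul_pos K0 α0])
    rw [Function.iterate_succ_apply']
    refine ⟨fun e => ?_, fun e => (this e).2.trans_eq (by ring)⟩
    have h3 := norm_add_le_of_le (this e).1 (ih.1 e)
    rw [Pi.sub_apply, sub_add_cancel] at h3
    rw [pow_succ]
    nlinarith

theorem iter_al (j : ℕ) (e : Lk) : ‖(t.nw (exF B))^[j] 0 e‖ ≤ t.al c τ P d := by
  have p0 : 0 < P * (d ^ 2 + τ * d) :=
    (mul_pos_iff_of_pos_left (pow_pos (LL_pos' _) _)).1 (h.al_le z).1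
  refine ((iter_bd h z hB j).1 e).trans (le_trans ?_
    (h.up (C := 4) (i := 8 * c + 23) (by norm_num) (by omega) p0.le))
  have := pow_pos (h.th_le z).1 j
  calc _ ≤ 4 * (LL t.O.l : ℝ) ^ (8 * c + 21) * (1 * ((LL t.O.l : ℝ) ^ 2 * (P * (d ^ 2 + τ * d)))) := by
        gcongr; linarith
    _ = _ := by ring

theorem iter_small (j : ℕ) (e : Lk) : ‖(t.nw (exF B))^[j] 0 e‖ ≤ d / LL t.O.l :=
  (iter_al h z hB j e).trans (by linarith [h.al_le z])

theorem As_bd (e : Lk) : ‖t.As (exF B) e‖ ≤ t.al c τ P d := iter_al h z hB _ e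

theorem As_small (e : Lk) : ‖t.As (exF B) e‖ ≤ d / LL t.O.l := iter_small h z hB _ e

theorem grad_As (hf : ¬ tree t.O.l f) : ‖t.grad (exF B) (t.As (exF B)) f‖ ≤
    t.th c P d ^ t.p * ((LL t.O.l : ℝ) ^ 2 * (P * (d ^ 2 + τ * d))) := by
  simpa only [pj_act (act_empty.2 hf), As] using (iter_bd h z hB t.p).2 f

theorem lj_As (y : St) : t.Lj (exF B) y (t.As (exF B)) := lj_all h z hB (As_small h z hB) y

theorem L1_As : t.L1 (exF B) (t.As (exF B)) v y = j1 (t.FF (exF B) y) (t.As (exF B)) v :=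
  (lj_As h z hB y).L1_eq h

theorem Yq_As : t.Yq (exF B) v y = t.Yb (exF B) y v v :=
  Lj.Yq_eq h (lj_As h z (B := sh y B) (fun _ => hB _) 0)

theorem sm_As (y : St) :
    Sm (3 * t.O.l + 1) (4 * d / LL t.O.l) (sh (up t.O.l y) (t.As (exF B))) :=
  (sm_of_all (As_small h z hB) _ _).mono le_rfl (by
    have := z.d0
    have := LL_pos' t.O.l
    gcongr
    linarith)

theorem Yb_bd (ha : Sm (3 * t.O.l + 1) α (sh (up t.O.l y) a)) (α0 : 0 < α)
    (hb : Sm (3 * t.O.l + 1) β (sh (up t.O.l y) b)) (β0 : 0 < β) :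
    ‖t.Yb (exF B) y a b‖ ≤ (LL t.O.l : ℝ) ^ (c + 7) * (P * d * α * β) := by
  have h1 := ((h.ge.blk h.lin z.d0 z.d1 (B := sh y B) (fun _ => hB _) (sm_As h z hB y)).2.2 ha
    α0).2.1 hb β0
  have h2 := norm_sub_le_of_le h1 (hh_near h z hB y ha hb)
  have d0 := z.d0
  have P1 := h.P1
  have h4 := h.up (C := 768) (i := 2) (j := c + 7) (x := P * d * α * β) (by norm_num) (by omega)
    (by positivity)
  have h5 := h.up (C := 2) (i := c + 6) (j := c + 7) (x := P * d * α * β) (by norm_num) (by omega)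
    (by positivity)
  have h6 : (LL t.O.l : ℝ) ^ (c + 6) * (1 * d * α * β) ≤ LL t.O.l ^ (c + 6) * (P * d * α * β) := by
    gcongr
  rw [sub_sub_sub_cancel_right] at h2
  rw [Yb, j2_FF]
  exact h2.trans (by linarith)

theorem kd_kc : Kc t.O.l ((LL t.O.l : ℝ) ^ (c + 7) * (P * d)) (t.kd (exF B))
    (kh t.O.l t.O.h (exF B)) := fun e _ i e' _ j => by
  simpa only [mul_one, Yb, kd, kh] using Yb_bd h z hB (y := 0) (sm_of_all (fun f => norm_eb e f i) _ _) one_pos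
    (sm_of_all (fun f => norm_eb e' f j) _ _) one_pos

theorem Yq_bd (hv : Sm (3 * t.O.l + 1) α (sh (up t.O.l y) v)) (α0 : 0 < α) :
    ‖t.Yq (exF B) v y‖ ≤ (LL t.O.l : ℝ) ^ (c + 7) * (P * d * α * α) :=
  Yq_As h z hB ▸ Yb_bd h z hB hv α0 hv α0

theorem rem3_bd (hv : Sm (3 * t.O.l + 1) α (sh (up t.O.l y) v)) (α0 : 0 < α)
    (α1 : α ≤ 4 * d / LL t.O.l) : ‖t.rem3 (exF B) v y‖ ≤ 96 * P * LL t.O.l ^ 3 * α ^ 3 := by
  rw [rem3, L1_As h z hB, Yq_As h z hB, Yb, add_sub_cancel, j1_FF, j2_FF]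
  exact (((h.ge.blk h.lin z.d0 z.d1 (B := sh y B) (fun _ => hB _) (sm_As h z hB y)).2.2 hv
    α0).2.2 α1).2

omit h z hB in
theorem gv_le (hg : ∀ e ∈ lbox t.O.l, ¬ tree t.O.l e → ‖t.grad W A (e.1 + up t.O.l y, e.2)‖ ≤ γ)
    (γ0 : 0 ≤ γ) (hv : Sm t.O.l α (sh (up t.O.l y) v)) (ht : ∀ f, tree t.O.l f → v f = 0) :
    ‖t.gv W A v y‖ ≤ 12 * (LL t.O.l : ℝ) ^ 4 * (γ * α) := by
  rw [gv_eq]
  refine (norm_sum_le _ _).trans ((sum_le_card_nsmul _ _ (3 * (γ * α)) fun e he => ?_).trans_eq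
    (by rw [nsmul_eq_mul, JS.card_lboxR]; ring))
  by_cases h : tree t.O.l e
  · simp only [ht _ ((tree_add_up _ e.1 y e.2).2 h), Pi.zero_apply, mul_zero, sum_const_zero,
      norm_zero]
    have := hv.nonneg
    positivity
  · exact (norm_dot _ _).trans (by
      rw [mul_assoc]
      exact mul_le_mul_of_nonneg_left (mul_le_mul (hg e he h) (hv e he) (norm_nonneg _) γ0)
        zero_le_three)

theorem gv_As (hv : Sm t.O.l α (sh (up t.O.l y) v)) (ht : ∀ f, tree t.O.l f → v f = 0) :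
    ‖t.gv (exF B) (t.As (exF B)) v y‖ ≤ 12 * (LL t.O.l : ℝ) ^ 4 *
      (t.th c P d ^ t.p * ((LL t.O.l : ℝ) ^ 2 * (P * (d ^ 2 + τ * d))) * α) :=
  gv_le (fun e _ he => grad_As h z hB fun h' => he ((tree_add_up _ e.1 y e.2).1 h'))
    ((norm_nonneg _).trans ((iter_bd h z hB t.p).2 (0, 0))) hv ht

/-- the minimal energy is close to the energy of the background field -/
theorem a0_sub : ‖t.a0 (exF B) - t.G (exF B) 0‖ ≤
    (LL t.O.l : ℝ) ^ (c + 7) * (P * t.al c τ P d ^ 2) := by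
  obtain ⟨a0, a1⟩ := h.al_le z
  have d0 := z.d0
  have P1 := h.P1
  have L0 := h.op.LL_ge
  have p0 : 0 ≤ d / LL t.O.l := by positivity
  have s1 := sm_of_all (As_bd h z hB) (3 * t.O.l + 1) 0
  rw [sh_zero] at s1
  have h1 := (((h.ge.blk h.lin d0 z.d1 hB (A := 0) fun _ _ => by
    rw [Pi.zero_apply, norm_zero]; positivity).2.2 s1 a0).2.2 (by rw [mul_div_assoc]; linarith)).1
  have h2 := h.hh_bd s1 s1
  have h3 := gv_le (W := exF B) (A := 0) (y := 0) (fun e _ he => grad_zero h z hB fun h' =>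
      he ((tree_add_up _ e.1 0 e.2).1 h')) (by have := h.τ0; positivity)
    (sm_of_all (As_bd h z hB) _ _) fun f => t.As_tree _
  have h4 := norm_add_le_of_le (norm_add_le_of_le h1 h2) h3
  rw [sub_add_cancel, zero_add] at h4
  have e : t.a0 (exF B) = t.G (exF B) (t.As (exF B)) - j1 (t.G (exF B)) 0 (t.As (exF B)) +
      t.gv (exF B) 0 (t.As (exF B)) 0 := by
    rw [Nt.a0, (lj_all h z hB (fun _ => by simpa using p0) 0).L1_eq h, j1_FF, FF]
    simp only [up_zero, sh_zero]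
  rw [e, show ∀ a b g c : ℂ, a - b + g - c = a - c - b + g from fun _ _ _ _ => by ring]
  refine h4.trans ?_
  have h5 : (LL t.O.l : ℝ) ^ 2 * (P * (d ^ 2 + τ * d)) ≤ t.al c τ P d :=
    mul_le_mul_of_nonneg_right (pow_le_pow_right₀ (by linarith) (by omega))
      (by have := h.τ0; positivity)
  have h6 := h.d_le z
  have x0 : 0 ≤ P * t.al c τ P d ^ 2 := by positivity
  have k1 := h.up (C := 3) (i := 2) (j := c + 7) (by norm_num) (by omega) x0
  have k2 := h.up (C := 3) (i := c + 5) (j := c + 7) (by norm_num) (by omega) x0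
  have k3 := h.up (C := 36) (i := 4) (j := c + 7) (by norm_num) (by omega) x0
  have k4 : t.al c τ P d * t.al c τ P d ≤ P * t.al c τ P d ^ 2 := by nlinarith
  have k5 := mul_le_mul_of_nonneg_left k4 (pow_pos (LL_pos' t.O.l) (c + 5)).le
  have k6 := mul_le_mul_of_nonneg_left ((mul_le_mul_of_nonneg_right h5 a0.le).trans k4)
    (pow_pos (LL_pos' t.O.l) 4).le
  have k7 := mul_le_mul_of_nonneg_left h6 (mul_nonneg (sq_nonneg (LL t.O.l : ℝ)) x0)
  nlinarith [mul_nonneg (sq_nonneg (LL t.O.l : ℝ)) x0]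

end Nt

end Pool.Agent.Lib.MP_7f377f_mp.RG.Q4
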