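import Pool.Agent.Lib.MP_7f377f_mp.Q4XiA
import Pool.Agent.Lib.MP_7f377f_mp.G.Q4XiC

/-! Estimates for sums over words: windings, returns and large areas. -/

noncomputable section

namespace Pool.Agent.Lib.MP_7f377f_mp.RG.Q4.Xi

open Finset Real
open scoped BigOperators

theorem sum_xi {M : Type*} [AddCommMonoid M] (f : Z4 → M) :
    ∑ σ : Lt, f (xi σ) = ∑ μ, (f (Pi.single μ 1) + f (Pi.single μ (-1)) + 2 • f 0) := by
  rw [Fintype.sum_prod_type]
  refine sum_congr rfl fun μ _ => ?_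
  simp [Fin.sum_univ_four, xi, sg, two_nsmul, add_assoc]

theorem Ew_eig {h : Z4 → ℝ} {q : ℝ} (hq : ∀ a, ∑ σ : Lt, h (xi σ + a) = q * h a) (n : ℕ) :
    Ew n (fun a _ => h a) = q ^ n * h 0 := by
  induction n with
  | zero => simp [Ew]
  | succ n ih => simp only [Ew]; rw [← Ew_sum]; simp only [hq]; rw [Ew_mul, ih]; ring

theorem Ew_close (n : ℕ) {f g b : Z4 → ℤ → ℝ}
    (h : ∀ (a : Z4) (A : ℤ), (∀ μ, |a μ| ≤ n) → |A| ≤ (n : ℤ) ^ 2 → |f a A - g a A| ≤ b a A) :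
    |Ew n f - Ew n g| ≤ Ew n b := by
  have h1 := Ew_le n (f := f) (g := fun a A => g a A + b a A) fun a A ha hA => by
    linarith [(abs_le.1 (h a A ha hA)).2]
  have h2 := Ew_le n (f := g) (g := fun a A => f a A + b a A) fun a A ha hA => by
    linarith [(abs_le.1 (h a A ha hA)).1]
  rw [Ew_add] at h1 h2
  rw [abs_le]; constructor <;> linarith

theorem Ew_av {κ : Type*} [Fintype κ] (n : ℕ) (f : κ → Z4 → ℤ → ℝ) :
    Ew n (fun a A => 𝔼 k, f k a A) = 𝔼 k, Ew n (f k) := by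
  simp only [expect_eq_sum_div_card, div_eq_inv_mul]
  rw [Ew_mul, Ew_sum]

def dot (θ : Fin 4 → ℝ) (a : Z4) : ℝ := ∑ μ, θ μ * a μ

theorem dot_add (θ : Fin 4 → ℝ) (a b : Z4) : dot θ (a + b) = dot θ a + dot θ b := by
  simp [dot, mul_add, sum_add_distrib]

theorem dot_single (θ : Fin 4 → ℝ) (μ : Fin 4) (c : ℤ) : dot θ (Pi.single μ c) = θ μ * c := by
  simp [dot, Pi.single_apply]

theorem dot_zero (θ : Fin 4 → ℝ) : dot θ 0 = 0 := by simp [dot]

theorem Ew_cos (θ : Fin 4 → ℝ) (n : ℕ) : Ew n (fun a _ => cos (dot θ a)) = (16 - lam θ) ^ n := by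
  rw [Ew_eig (h := fun a => cos (dot θ a)) (q := 16 - lam θ)]
  · simp [dot_zero]
  · intro a
    rw [sum_xi fun b => cos (dot θ (b + a))]
    simp [dot_add, dot_single, cos_add, lam, Fin.sum_univ_four]
    ring

theorem cos_area (θ : Fin 4 → ℝ) (a : Z4) : ∑ σ : Lt, ∑ σ' : Lt,
    (xi σ 0 : ℝ) ^ 2 * (xi σ' 1 : ℝ) ^ 2 * cos (dot θ (xi σ + xi σ' + a)) =
      4 * (cos (θ 0) * cos (θ 1)) * cos (dot θ a) := by
  rw [sum_xi fun b => ∑ σ' : Lt, (b 0 : ℝ) ^ 2 * (xi σ' 1 : ℝ) ^ 2 * cos (dot θ (b + xi σ' + a))]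
  simp only [fun b : Z4 => sum_xi fun c => (b 0 : ℝ) ^ 2 * (c 1 : ℝ) ^ 2 * cos (dot θ (b + c + a))]
  simp [Fin.sum_univ_four, dot_add, dot_single, cos_add, sin_add]
  ring

theorem Ew_exp (t : ℝ) (μ : Fin 4) (n : ℕ) :
    Ew n (fun a _ => exp (t * a μ)) ≤ 16 ^ n * exp (n * (t ^ 2 / 2)) := by
  rw [Ew_eig (h := fun a => exp (t * a μ)) (q := 2 * cosh t + 14)]
  · have := cosh_le_exp_half_sq t
    have := one_le_exp (by positivity : 0 ≤ t ^ 2 / 2)
    have := cosh_pos t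
    simp only [Pi.zero_apply, Int.cast_zero, mul_zero, exp_zero, mul_one, exp_nat_mul, ← mul_pow]
    gcongr; linarith
  · intro a
    rw [sum_xi fun b => exp (t * (b + a) μ)]
    fin_cases μ <;> simp [Fin.sum_univ_four, mul_add, exp_add, cosh_eq] <;> ring

/-- a weight which is large on the words which wind around the long directions -/
def bd (N t : ℝ) (a : Z4) : ℝ :=
  exp (-(t * (N - 2))) * (exp (t * a 0) + exp (-t * a 0) + (exp (t * a 1) + exp (-t * a 1)))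

theorem bd_nonneg (N t : ℝ) (a : Z4) : 0 ≤ bd N t a := by unfold bd; positivity

theorem bd_ge {N : ℕ} {t : ℝ} (ht : 0 ≤ t) {a : Z4} (h : (N : ℤ) - 2 ≤ |a 0| ∨ (N : ℤ) - 2 ≤ |a 1|) :
    1 ≤ bd N t a := by
  have key : ∀ c : ℤ, (N : ℤ) - 2 ≤ |c| →
      1 ≤ exp (-(t * (N - 2))) * (exp (t * c) + exp (-t * c)) := fun c hc => by
    have hc' : (N : ℝ) - 2 ≤ |(c : ℝ)| := by exact_mod_cast hc
    rw [mul_add, ← exp_add, ← exp_add]
    rcases le_abs.1 hc' with h | h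
    · exact le_add_of_le_of_nonneg (one_le_exp (by nlinarith)) (exp_pos _).le
    · exact le_add_of_nonneg_of_le (exp_pos _).le (one_le_exp (by nlinarith))
  rw [bd, mul_add]
  rcases h with h | h
  · exact le_add_of_le_of_nonneg (key _ h) (by positivity)
  · exact le_add_of_nonneg_of_le (by positivity) (key _ h)

theorem Ew_bd (N t : ℝ) (n : ℕ) :
    Ew n (fun a _ => bd N t a) ≤ 16 ^ n * (4 * exp (n * (t ^ 2 / 2) - t * (N - 2))) := by
  simp only [bd]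
  rw [Ew_mul, Ew_add, Ew_add, Ew_add, sub_eq_neg_add (_ * _), exp_add]
  have a := Ew_exp t 0 n
  have b := Ew_exp (-t) 0 n
  have c := Ew_exp t 1 n
  have d := Ew_exp (-t) 1 n
  rw [neg_sq] at b d
  nlinarith [exp_pos (-(t * (N - 2)))]

theorem Ew_area (l c : ℝ) (hc : 4 * c ^ 2 ≤ l ^ 2) (n : ℕ) {κ : ℝ} (h0 : 0 ≤ κ)
    (h : κ + n * l ^ 2 ≤ c) :
    Ew n (fun a A => exp (l * A + κ * a 0 ^ 2)) ≤ 16 ^ n * exp (n * c) := by
  induction n generalizing κ with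
  | zero => simp [Ew]
  | succ n ih =>
    push_cast at h
    have h1 : κ ≤ c := by nlinarith [sq_nonneg l, mul_nonneg (n.cast_nonneg (α := ℝ)) (sq_nonneg l)]
    have := ih (κ := κ + l ^ 2) (by positivity) (by linarith)
    simp only [Ew]
    rw [← Ew_sum]
    refine (Ew_le n (g := fun a A => 16 * exp c * exp (l * A + (κ + l ^ 2) * a 0 ^ 2))
      fun a A _ _ => ?_).trans ?_
    · rw [sum_xi fun b => exp (l * (A + b 1 * a 0 : ℤ) + κ * ((b + a) 0 : ℝ) ^ 2)]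
      set x : ℝ := ((a 0 : ℤ) : ℝ)
      have e : ∑ μ : Fin 4, (exp (l * (A + (Pi.single μ 1 : Z4) 1 * a 0 : ℤ) +
          κ * (((Pi.single μ 1 : Z4) + a) 0 : ℝ) ^ 2) + exp (l * (A + (Pi.single μ (-1) : Z4) 1 *
          a 0 : ℤ) + κ * (((Pi.single μ (-1) : Z4) + a) 0 : ℝ) ^ 2) + 2 • exp (l * (A + (0 : Z4) 1 *
          a 0 : ℤ) + κ * (((0 : Z4) + a) 0 : ℝ) ^ 2)) = exp (l * A + κ * x ^ 2) *
          (2 * (exp κ * cosh (2 * κ * x)) + 2 * cosh (l * x) + 12) := by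
        simp [Fin.sum_univ_four, cosh_eq, mul_add, add_sq, exp_add, x, mul_assoc]
        ring_nf
      have x2 := sq_nonneg x
      have u := cosh_le_exp_half_sq (2 * κ * x)
      have v := cosh_le_exp_half_sq (l * x)
      have w : ∀ y, y ≤ c + l ^ 2 * x ^ 2 → exp y ≤ exp c * exp (l ^ 2 * x ^ 2) := fun y hy => by
        rw [← exp_add]; exact exp_le_exp.2 hy
      have k2 : κ ^ 2 ≤ c ^ 2 := by gcongr
      have w1 := w (κ + (2 * κ * x) ^ 2 / 2) (by nlinarith [sq_nonneg (l * x)])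
      have w2 := w ((l * x) ^ 2 / 2) (by nlinarith [sq_nonneg (l * x)])
      have w3 := w 0 (by nlinarith [sq_nonneg (l * x)])
      rw [exp_add] at w1
      rw [exp_zero] at w3
      rw [e, add_mul κ, ← add_assoc, exp_add (_ + _), mul_left_comm (16 * _)]
      gcongr
      nlinarith [mul_le_mul_of_nonneg_left u (exp_pos κ).le]
    · rw [Ew_mul]
      refine (mul_le_mul_of_nonneg_left this (by positivity)).trans_eq ?_
      push_cast; rw [add_mul, exp_add]; ring_nf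

theorem Ew_moment {g : Z4 → ℝ} (hg : ∀ a, |g a| ≤ 1) (r : ℕ) {n : ℕ} (hn : 0 < n) {K : ℝ}
    (hK : 0 ≤ K) : Ew n (fun a A => |(A : ℝ)| ^ r * |g a|) ≤
      (K * n) ^ r * Ew n (fun a _ => |g a|) + 16 ^ n * (6 * ((n : ℝ) ^ 2) ^ r * exp (-(K / 2))) := by
  have n0 : (0 : ℝ) < n := by exact_mod_cast hn
  have key : ∀ l : ℝ, l ^ 2 = (1 / (2 * n)) ^ 2 → Ew n (fun _ A => exp (l * A)) ≤ 16 ^ n * 3 := by
    intro l hl
    have := Ew_area l (1 / (4 * n)) (by rw [hl]; field_simp; norm_num) n le_rfl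
      (by rw [hl]; field_simp; norm_num)
    simp only [zero_mul, add_zero] at this
    refine this.trans ?_
    gcongr
    refine (exp_le_exp.2 (by field_simp; norm_num : _ ≤ (1 : ℝ))).trans ?_
    linarith [exp_one_lt_d9]
  refine (Ew_le n (g := fun a A => (K * n) ^ r * |g a| + ((n : ℝ) ^ 2) ^ r * exp (-(K / 2)) *
    (exp (1 / (2 * n) * A) + exp (-(1 / (2 * n)) * A))) fun a A _ hA => ?_).trans ?_
  · rcases le_total |(A : ℝ)| (K * n) with h | h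
    · exact le_add_of_le_of_nonneg (by gcongr) (by positivity)
    · refine le_add_of_nonneg_of_le (by positivity) ?_
      have hA' : |(A : ℝ)| ≤ (n : ℝ) ^ 2 := by exact_mod_cast hA
      rw [mul_assoc]
      refine mul_le_mul (by gcongr) ((hg a).trans ?_) (abs_nonneg _) (by positivity)
      rw [mul_add, ← exp_add, ← exp_add]
      have e : K / 2 = 1 / (2 * n) * (K * n) := by field_simp
      have p : (0 : ℝ) < 1 / (2 * n) := by positivity
      rcases le_abs.1 h with h | h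
      · exact le_add_of_le_of_nonneg (one_le_exp (by nlinarith)) (exp_pos _).le
      · exact le_add_of_nonneg_of_le (exp_pos _).le (one_le_exp (by nlinarith))
  · rw [Ew_add, Ew_mul, Ew_mul, Ew_add]
    have a := key _ rfl
    have b := key _ (neg_sq _)
    have p : 0 ≤ ((n : ℝ) ^ 2) ^ r * exp (-(K / 2)) := by positivity
    nlinarith

/-- the trace of a translation without flux -/
def gt (N : Fin 4 → ℕ) (s : Fin 4 → ℝ) (a : Z4) : ℝ :=
  if ∀ μ, (N μ : ℤ) ∣ a μ then cos (∑ μ, 2 * π * s μ / N μ * a μ) else 0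

/-- reflection of the last direction -/
def rf (a : Z4) : Z4 := fun μ => if μ = 3 then -a μ else a μ

theorem Ew_rf {M : Type*} [AddCommMonoid M] (n : ℕ) (f : Z4 → ℤ → M) :
    Ew n f = Ew n fun a A => f (rf a) A := by
  induction n generalizing f with
  | zero => exact congrArg (f · 0) (funext fun μ => by simp [rf])
  | succ n ih =>
    have e : ∀ σ : Lt, rf (xi σ) = xi (σ.1, if σ.1 = 3 then Equiv.swap 0 1 σ.2 else σ.2) := by
      decide
    have r : ∀ a b, rf (a + b) = rf a + rf b := fun a b => funext fun μ => by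
      simp only [rf, Pi.add_apply]; split_ifs <;> ring
    refine (Fintype.sum_bijective (fun σ : Lt =>
      ((σ.1, if σ.1 = 3 then Equiv.swap 0 1 σ.2 else σ.2) : Lt)) (by decide) _ _ fun σ => ?_).symm
    rw [ih fun a A => f (_ + a) _, ← e]
    simp only [r]
    rfl

variable [Tw]

/-- the part of the trace which is odd under the reflection -/
def gs (N1 N2 : ℕ) (a : Z4) : ℝ :=
  if ∀ μ, (NN N1 N2 μ : ℤ) ∣ a μ then sin (2 * π * Tw.s / N2 * a 3) else 0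

theorem Ew_gs (N1 N2 n : ℕ) (φ : ℝ) :
    Ew n (fun a A => sin (φ * A) * if a 0 = 0 ∧ a 1 = 0 then gs N1 N2 a else 0) = 0 := by
  have := Ew_rf n fun a A => sin (φ * A) * if a 0 = 0 ∧ a 1 = 0 then gs N1 N2 a else 0
  have e : ∀ a, gs N1 N2 (rf a) = -gs N1 N2 a := fun a => by
    have : ∀ μ, (NN N1 N2 μ : ℤ) ∣ rf a μ ↔ (NN N1 N2 μ : ℤ) ∣ a μ := fun μ => by
      unfold rf; split_ifs <;> simp
    simp only [gs, this]
    split_ifs <;> simp [rf]
  have e' := Ew_mul (-1) n fun a A => sin (φ * A) * if a 0 = 0 ∧ a 1 = 0 then gs N1 N2 a else 0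
  have e0 : ∀ a, rf a 0 = a 0 ∧ rf a 1 = a 1 := fun a => ⟨rfl, rfl⟩
  simp only [e, e0, mul_ite, mul_neg, neg_mul, one_mul, mul_zero] at this e' ⊢
  linarith

/-- the same without windings in the long directions -/
def gg (N1 N2 : ℕ) (a : Z4) : ℝ := if a 0 = 0 ∧ a 1 = 0 then gt (NN N1 N2) sa a else 0

omit [Tw] in
theorem gt_le (N : Fin 4 → ℕ) (s : Fin 4 → ℝ) (a : Z4) : |gt N s a| ≤ gt N 0 a ∧ gt N 0 a ≤ 1 := by
  unfold gt; split_ifs <;> simp [abs_cos_le_one]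

theorem gg_le (N1 N2 : ℕ) (a : Z4) : |gg N1 N2 a| ≤ gt (NN N1 N2) 0 a := by
  unfold gg; split_ifs
  · exact (gt_le _ _ _).1
  · simpa using (abs_nonneg _).trans (gt_le (NN N1 N2) 0 a).1

theorem gg_eq {N1 N2 : ℕ} {a : Z4} (h0 : |a 0| < N1) (h1 : |a 1| < N1) :
    gg N1 N2 a = gt (NN N1 N2) sa a := by
  unfold gg gt
  split_ifs with h h' h''
  · rfl
  · rfl
  · exact (h ⟨Int.eq_zero_of_abs_lt_dvd (h'' 0) h0, Int.eq_zero_of_abs_lt_dvd (h'' 1) h1⟩).elim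
  · rfl

theorem gg_close (N1 N2 : ℕ) {t : ℝ} (ht : 0 ≤ t) {a b : Z4} (hb : ∀ μ, |b μ| ≤ 2) :
    |gg N1 N2 (b + a) - gt (NN N1 N2) sa (b + a)| ≤ bd N1 t a := by
  by_cases h : (N1 : ℤ) - 2 ≤ |a 0| ∨ (N1 : ℤ) - 2 ≤ |a 1|
  · refine le_trans ?_ (bd_ge ht h)
    unfold gg; split_ifs
    · simp
    · simpa using (gt_le _ _ _).1.trans (gt_le _ 0 _).2
  · push Not at h
    rw [gg_eq ((abs_add_le _ _).trans_lt (by linarith [hb 0]))
      ((abs_add_le _ _).trans_lt (by linarith [hb 1]))]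
    simpa using bd_nonneg _ _ _

omit [Tw] in
theorem Ew_gt {N : Fin 4 → ℕ} (hN : ∀ μ, 0 < N μ) (s : Fin 4 → ℝ) (n : ℕ) :
    Ew n (fun a _ => gt N s a) = 𝔼 k, (16 - lam (ang N s k)) ^ n := by
  simp only [gt, ← av_cos hN, ← Ew_cos]
  exact Ew_av n fun k a _ => cos (dot (ang N s k) a)

omit [Tw] in
theorem NN_pos {N1 N2 : ℕ} (h1 : 0 < N1) (h2 : 0 < N2) (μ : Fin 4) : 0 < NN N1 N2 μ := by
  fin_cases μ <;> simpa [NN]

theorem Ew_gg {N1 N2 : ℕ} (h1 : 0 < N1) (h2 : 0 < N2) {t : ℝ} (ht : 0 ≤ t) (n : ℕ) :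
    |Ew n (fun a _ => gg N1 N2 a) - 𝔼 k, (16 - lam (ang (NN N1 N2) sa k)) ^ n| ≤
      Ew n fun a _ => bd N1 t a := by
  rw [← Ew_gt (NN_pos h1 h2)]
  exact Ew_close n fun a _ _ _ => by simpa using gg_close N1 N2 ht (a := a) (b := 0) (by simp)

theorem Ew_gg2 {N1 N2 : ℕ} (h1 : 0 < N1) (h2 : 0 < N2) {t : ℝ} (ht : 0 ≤ t) (n : ℕ) :
    |6 * Ew n (fun a A => (A : ℝ) ^ 2 * gg N1 N2 a) - n.choose 2 * (4 * 𝔼 k,
      cos (ang (NN N1 N2) sa k 0) * cos (ang (NN N1 N2) sa k 1) *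
        (16 - lam (ang (NN N1 N2) sa k)) ^ (n - 2))| ≤
      n.choose 2 * (256 * Ew (n - 2) fun a _ => bd N1 t a) := by
  rw [area_sq (gg N1 N2) (fun a ha => if_neg (by tauto)), ← mul_sub, abs_mul, Nat.abs_cast, ← Ew_mul]
  gcongr
  have e : 4 * 𝔼 k, cos (ang (NN N1 N2) sa k 0) * cos (ang (NN N1 N2) sa k 1) *
      (16 - lam (ang (NN N1 N2) sa k)) ^ (n - 2) = Ew (n - 2) fun a _ => ∑ σ : Lt, ∑ σ' : Lt,
      (xi σ 0 : ℝ) ^ 2 * (xi σ' 1 : ℝ) ^ 2 * gt (NN N1 N2) sa (xi σ + xi σ' + a) := by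
    simp only [gt, ← av_cos (NN_pos h1 h2), mul_expect, ← expect_sum_comm]
    rw [Ew_av]
    refine expect_congr rfl fun k _ => ?_
    rw [← Ew_cos, ← mul_assoc, ← Ew_mul]
    simp only [← cos_area]
    rfl
  rw [e]
  refine Ew_close _ fun a _ _ _ => ?_
  simp only [← sum_sub_distrib, ← mul_sub]
  refine (abs_sum_le_sum_abs _ _).trans ((sum_le_card_nsmul _ _ (16 * bd N1 t a) fun σ _ =>
    (abs_sum_le_sum_abs _ _).trans ((sum_le_card_nsmul _ _ (bd N1 t a) fun σ' _ => ?_).trans_eq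
      (by simp))).trans_eq (by simp; ring))
  have a1 : |(xi σ 0 : ℝ)| ≤ 1 := by exact_mod_cast abs_xi σ 0
  have a2 : |(xi σ' 1 : ℝ)| ≤ 1 := by exact_mod_cast abs_xi σ' 1
  have a3 := gg_close N1 N2 ht (a := a) (b := xi σ + xi σ') fun μ =>
    (abs_add_le _ _).trans (by linarith [abs_xi σ μ, abs_xi σ' μ])
  rw [abs_mul, abs_mul, abs_pow, abs_pow]
  calc _ ≤ 1 ^ 2 * 1 ^ 2 * bd N1 t a := by gcongr
    _ = _ := by ring

theorem Ew_ret {N1 N2 n : ℕ} (h2 : 0 < N2) (hn : 0 < n) (h1 : n ≤ N1 ^ 2) :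
    Ew n (fun a _ => |gg N1 N2 a|) ≤ 16 ^ n * (36 / n * (8 / (N2 : ℝ) ^ 2 + 32 / n)) := by
  have h0 : 0 < N1 := pos_of_ne_zero fun h => by simp [h] at h1; omega
  have n0 : (0 : ℝ) < n := by exact_mod_cast hn
  have t0 : (0 : ℝ) < n / 16 := by positivity
  refine (Ew_le n fun a _ _ _ => gg_le N1 N2 a).trans ?_
  rw [Ew_gt (NN_pos h0 h2)]
  refine (expect_le_expect (g := fun k => 16 ^ n * exp (-(n / 16 * lam (ang _ 0 k))))
    fun k _ => ?_).trans ?_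
  · rw [show -(n / 16 * lam (ang _ 0 k)) = n * -(lam (ang _ 0 k) / 16) by ring, exp_nat_mul,
      ← mul_pow]
    have := lam_le (ang _ 0 k)
    gcongr
    · linarith
    · linarith [add_one_le_exp (-(lam (ang _ 0 k) / 16))]
  rw [← mul_expect, av_exp]
  gcongr
  set s := √(n : ℝ) with hs
  have s0 : 0 < s := sqrt_pos.2 n0
  have s2 : (n : ℝ) = s ^ 2 := (sq_sqrt n0.le).symm
  have e : (√(n / 16 : ℝ))⁻¹ = 4 / s := by
    rw [show (n / 16 : ℝ) = (s / 4) ^ 2 by rw [s2]; ring, sqrt_sq (by positivity), inv_div]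
  have a := th_le h0 le_rfl zero_le_one t0
  have b := th_le h2 le_rfl zero_le_one t0
  have a0 := (th_mem (N := N1) 0 t0.le).1
  have b0 := (th_mem (N := N2) 0 t0.le).1
  have c : 2 / (N1 : ℝ) ≤ 2 / s := by
    gcongr; exact sqrt_le_iff.2 ⟨by positivity, by exact_mod_cast h1⟩
  rw [e] at a b
  have a' : th N1 0 (n / 16) ≤ 6 / s := by linarith [show 6 / s = 2 / s + 4 / s by ring]
  simp only [Fin.prod_univ_four, NN, Pi.zero_apply, Matrix.cons_val]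
  calc _ ≤ 6 / s * (6 / s) * (2 / N2 + 4 / s) * (2 / N2 + 4 / s) := by gcongr
    _ = 36 / n * (2 / N2 + 4 / s) ^ 2 := by rw [s2]; ring
    _ ≤ _ := by
      gcongr
      rw [s2]
      nlinarith [sq_nonneg (2 / (N2 : ℝ) - 4 / s), show 8 / (N2 : ℝ) ^ 2 = 2 * (2 / N2) ^ 2 by ring,
        show 32 / s ^ 2 = 2 * (4 / s) ^ 2 by ring]

end Pool.Agent.Lib.MP_7f377f_mp.RG.Q4.Xi
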