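import Pool.Agent.Lib.MP_7f377f_mp.Q4XiB
import Pool.Agent.Lib.MP_7f377f_mp.G.Q4XiD

/-! The magnetic Laplacian: gap and traces of powers. -/

noncomputable section

namespace Pool.Agent.Lib.MP_7f377f_mp.RG.Q4.Xi

open Finset Real Matrix
open scoped BigOperators Matrix.Norms.L2Operator InnerProductSpace

variable {ι : Type*} [Fintype ι] [DecidableEq ι]

/-- phases -/
def ph (θ : ℝ) : unitaryGroup ι ℂ := ⟨Complex.exp (θ * Complex.I) • 1, by
  rw [mem_unitaryGroup_iff, star_smul, star_one, smul_mul_smul, one_mul, Complex.star_def,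
    ← Complex.exp_conj, ← Complex.exp_add]
  simp⟩

theorem ph_val (θ : ℝ) : (ph θ : unitaryGroup ι ℂ).1 = Complex.exp (θ * Complex.I) • 1 := rfl

theorem ph_add (a b : ℝ) : (ph (a + b) : unitaryGroup ι ℂ) = ph a * ph b :=
  Subtype.ext (by simp [ph_val, mul_add, Complex.exp_add, smul_smul, mul_comm])

theorem ph_zpow (θ : ℝ) (k : ℤ) : (ph θ : unitaryGroup ι ℂ) ^ k = ph (k * θ) :=
  (map_zpow (MonoidHom.mk' (fun x : Multiplicative ℝ => (ph x.toAdd : unitaryGroup ι ℂ))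
    fun _ _ => ph_add _ _) (Multiplicative.ofAdd θ) k).symm.trans (by simp)

theorem ph_comm (θ : ℝ) (g : unitaryGroup ι ℂ) : Commute (ph θ) g :=
  Subtype.ext (by simp [ph_val])

/-- magnetic translations with flux `φ` -/
structure Mag [Tw] (N1 N2 : ℕ) (φ : ℝ) (T : Fin 4 → unitaryGroup ι ℂ) : Prop where
  heis : Heis (ph φ) T
  p2 : T 2 ^ N2 = 1
  p3 : T 3 ^ N2 = ph (2 * π * Tw.s)
  tr : ∀ a : Z4, ¬(∀ μ, (NN N1 N2 μ : ℤ) ∣ a μ) → (mon T a).1.trace = 0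

/-- the covariant Laplacian -/
def Lap (T : Fin 4 → unitaryGroup ι ℂ) : Matrix ι ι ℂ := ∑ μ, ((T μ).1 - 1)ᴴ * ((T μ).1 - 1)

theorem sq_eq (U : unitaryGroup ι ℂ) : (U.1 - 1)ᴴ * (U.1 - 1) = 2 - U.1 - U.1ᴴ := by
  have : U.1ᴴ * U.1 = 1 := U.2.1
  rw [conjTranspose_sub, conjTranspose_one, sub_mul, mul_sub, this, ← one_add_one_eq_two]
  noncomm_ring

theorem Lap_letters (T : Fin 4 → unitaryGroup ι ℂ) :
    ∑ σ : Lt, (T σ.1 ^ sg σ.2).1 = 16 - Lap T := by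
  simp only [Lap, sq_eq, Fintype.sum_prod_type, Fin.sum_univ_four, sg]
  simp [star_eq_conjTranspose]
  rw [show (16 : Matrix ι ι ℂ) = 16 • 1 by simp, show (2 : Matrix ι ι ℂ) = 2 • 1 by simp]
  abel

theorem op_uni (U : unitaryGroup ι ℂ) (v : EuclideanSpace ℂ ι) : ‖op U.1 v‖ ≤ ‖v‖ := by
  simpa using (op U.1).le_of_opNorm_le (norm_uni U) v

theorem op_pow (U : unitaryGroup ι ℂ) (v : EuclideanSpace ℂ ι) (n : ℕ) :
    ‖op ((U ^ n).1 - 1) v‖ ≤ n * ‖op (U.1 - 1) v‖ := by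
  induction n with
  | zero => simp
  | succ n ih =>
    have : (U ^ (n + 1)).1 - 1 = (U ^ n).1 * (U.1 - 1) + ((U ^ n).1 - 1) := by
      simp [pow_succ, mul_sub]
    rw [this, op, map_add, map_mul]
    refine (norm_add_le _ _).trans ?_
    have := op_uni (U ^ n) (op (U.1 - 1) v)
    rw [Nat.cast_succ, add_one_mul, add_comm]
    exact add_le_add ih this

theorem form_sq (D : Matrix ι ι ℂ) (v : EuclideanSpace ℂ ι) :
    (⟪v, op (Dᴴ * D) v⟫_ℂ).re = ‖op D v‖ ^ 2 := by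
  rw [op, map_mul, ← star_eq_conjTranspose, map_star, ContinuousLinearMap.star_eq_adjoint,
    mul_apply_eq_comp, ContinuousLinearMap.adjoint_inner_right,
    ← inner_self_eq_norm_sq (𝕜 := ℂ)]
  rfl

variable [Tw] {N1 N2 : ℕ} {φ : ℝ} {T : Fin 4 → unitaryGroup ι ℂ}

theorem Mag.gap (h : Mag N1 N2 φ T) (h2 : 0 < N2) : Gap (2 / (N2 : ℝ) ^ 2) (Lap T) := by
  refine ⟨by simp [IsHermitian, Lap, conjTranspose_sum], fun v => ?_⟩
  have e : (⟪v, op (Lap T) v⟫_ℂ).re = ∑ μ, ‖op ((T μ).1 - 1) v‖ ^ 2 := by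
    simp only [Lap, op, map_sum, _root_.sum_apply, inner_sum, Complex.re_sum, form_sq]
  have a := op_pow (T 3) v N2
  have b : 2 * ‖v‖ ^ 2 ≤ ‖op ((T 3 ^ N2).1 - 1) v‖ ^ 2 := by
    have c : cos (2 * π * Tw.s) ≤ 0 := cos_nonpos_of_pi_div_two_le_of_le
      (by nlinarith [Tw.lo, pi_pos]) (by nlinarith [Tw.hi, pi_pos])
    rw [h.p3, ph_val, show ∀ z : ℂ, z • (1 : Matrix ι ι ℂ) - 1 = (z - 1) • 1 from fun z => by module]
    simp only [map_smul, map_one, _root_.smul_apply, one_apply_eq_self,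
      norm_smul, mul_pow]
    gcongr
    rw [Complex.sq_norm, Complex.normSq_apply, Complex.sub_re, Complex.sub_im,
      Complex.exp_ofReal_mul_I_re, Complex.exp_ofReal_mul_I_im, Complex.one_re, Complex.one_im]
    nlinarith [sin_sq_add_cos_sq (2 * π * Tw.s)]
  have N0 : (0 : ℝ) < N2 := by exact_mod_cast h2
  rw [e, div_mul_eq_mul_div, div_le_iff₀ (by positivity)]
  refine le_trans ?_ (mul_le_mul_of_nonneg_right (single_le_sum
    (f := fun μ => ‖op ((T μ).1 - 1) v‖ ^ 2) (fun _ _ => sq_nonneg _) (mem_univ 3)) (sq_nonneg _))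
  exact b.trans ((pow_le_pow_left₀ (norm_nonneg _) a 2).trans_eq (by ring))

omit [Tw] in
theorem norm_Lap (T : Fin 4 → unitaryGroup ι ℂ) : ‖Lap T‖ ≤ 16 := by
  refine (norm_sum_le _ _).trans ((sum_le_card_nsmul _ _ 4 fun μ _ => ?_).trans_eq (by norm_num))
  have : ‖(T μ).1 - 1‖ ≤ 2 :=
    (norm_sub_le _ _).trans (by linarith [norm_uni (T μ), norm_one_le (ι := ι)])
  rw [← star_eq_conjTranspose, CStarRing.norm_star_mul_self]
  nlinarith [norm_nonneg ((T μ).1 - 1)]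

theorem Mag.norm_P (h : Mag N1 N2 φ T) (h2 : 0 < N2) :
    ‖1 - ((16⁻¹ : ℝ) : ℂ) • Lap T‖ ≤ 1 - (8 * (N2 : ℝ) ^ 2)⁻¹ := by
  obtain ⟨U, d, e, hd⟩ := (h.gap h2).spec
  have n := norm_Lap T
  have N0 : (1 : ℝ) ≤ N2 := by exact_mod_cast h2
  have e2 : ((16⁻¹ : ℝ) : ℂ) • cj U d = cj U ((16⁻¹ : ℝ) • d) := by
    rw [cj_apply, cj_apply, ← smul_mul_assoc, ← mul_smul_comm, ← diagonal_smul]
    congr 3; ext i; simp
  rw [e, norm_cj] at n
  rw [e, e2, ← map_one (cj U), ← map_sub, norm_cj, pi_norm_le_iff_of_nonneg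
    (sub_nonneg.2 (inv_le_one_of_one_le₀ (by nlinarith)))]
  intro i
  have a := (le_abs_self _).trans ((norm_le_pi_norm d i).trans n)
  have b := hd i
  have c : (8 * (N2 : ℝ) ^ 2)⁻¹ = 16⁻¹ * (2 / (N2 : ℝ) ^ 2) := by field_simp; norm_num
  simp only [Pi.sub_apply, Pi.one_apply, Pi.smul_apply, smul_eq_mul, Real.norm_eq_abs]
  rw [abs_of_nonneg (by linarith)]; linarith

theorem Mag.trace (h : Mag N1 N2 φ T) (h1 : 0 < N1) (h2 : 0 < N2) {t : ℝ} (ht : 0 ≤ t) (a : Z4)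
    (A : ℤ) : |rt (ph φ ^ (-A) * mon T a).1 - Fintype.card ι * (cos (φ * A) * gg N1 N2 a +
      sin (φ * A) * if a 0 = 0 ∧ a 1 = 0 then gs N1 N2 a else 0)| ≤
      Fintype.card ι * bd N1 t a := by
  by_cases hb : (N1 : ℤ) ≤ |a 0| ∨ (N1 : ℤ) ≤ |a 1|
  · have : ¬(a 0 = 0 ∧ a 1 = 0) := by rintro ⟨a0, a1⟩; simp [a0, a1] at hb; omega
    rw [gg, if_neg this, if_neg this, mul_zero, mul_zero, add_zero, mul_zero, sub_zero]
    refine (rt_le _).trans ?_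
    gcongr
    exact (norm_uni _).trans (bd_ge ht (by omega))
  push Not at hb
  refine le_of_eq_of_le (abs_eq_zero.2 (sub_eq_zero.2 ?_)) (by have := bd_nonneg N1 t a; positivity)
  rw [gg_eq hb.1 hb.2, gt, ph_zpow, gs]
  by_cases hd : ∀ μ, (NN N1 N2 μ : ℤ) ∣ a μ
  · obtain ⟨c2, e2⟩ := hd 2
    obtain ⟨c3, e3⟩ := hd 3
    have N0 : (N2 : ℝ) ≠ 0 := by exact_mod_cast h2.ne'
    have a0 := Int.eq_zero_of_abs_lt_dvd (hd 0) hb.1
    have a1 := Int.eq_zero_of_abs_lt_dvd (hd 1) hb.2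
    simp only [NN, Matrix.cons_val] at e2 e3
    rw [if_pos hd, if_pos hd, if_pos ⟨a0, a1⟩, mon, a0, a1, e2, e3,
      _root_.zpow_mul, _root_.zpow_mul, zpow_natCast, zpow_natCast, h.p2, h.p3, ph_zpow]
    simp only [zpow_zero, _root_.one_zpow, one_mul, ← ph_add, ph_val, rt, trace_smul, trace_one,
      Fin.sum_univ_four, sa, NN, Matrix.cons_val, e3]
    rw [smul_eq_mul, mul_comm, ← Complex.ofReal_natCast, Complex.re_ofReal_mul,
      Complex.exp_ofReal_mul_I_re, cos_add]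
    push_cast
    rw [neg_mul, cos_neg, sin_neg, mul_comm φ, show 2 * π * Tw.s / N2 * (N2 * c3) =
      c3 * (2 * π * Tw.s) by field_simp]
    simp
  · simp [rt, ph_val, h.tr a hd, hd]

omit [Tw] in
theorem cos_four (x : ℝ) : |cos x - (1 - x ^ 2 / 2)| ≤ x ^ 4 := by
  rcases le_total |x| 1 with h | h
  · refine (cos_bound h).trans ?_
    rw [show |x| ^ 4 = x ^ 4 by rw [← abs_pow, abs_of_nonneg (by positivity)]]
    nlinarith [pow_nonneg (sq_nonneg x) 2]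
  · have : 1 ≤ x ^ 2 := (one_le_sq_iff_one_le_abs x).2 h
    rw [abs_of_nonneg (by linarith [one_sub_sq_div_two_le_cos (x := x)])]
    nlinarith [cos_le_one x]

theorem Mag.word (h : Mag N1 N2 φ T) (h1 : 0 < N1) (h2 : 0 < N2) {t β : ℝ} (ht : 0 ≤ t) (j : ℕ)
    (hβ : ∀ i ≤ j, Ew i (fun a _ => bd N1 t a) ≤ 16 ^ i * β) :
    |rt ((16 - Lap T) ^ j) - Fintype.card ι * 𝔼 k, (16 - lam (ang (NN N1 N2) sa k)) ^ j| ≤
      Fintype.card ι * (16 ^ j * (2 * β) + φ ^ 2 * Ew j fun a A => |(A : ℝ)| ^ 2 * |gg N1 N2 a|) ∧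
    |rt ((16 - Lap T) ^ j) - Fintype.card ι * (𝔼 k, (16 - lam (ang (NN N1 N2) sa k)) ^ j -
      φ ^ 2 / 3 * j.choose 2 * 𝔼 k, cos (ang (NN N1 N2) sa k 0) * cos (ang (NN N1 N2) sa k 1) *
        (16 - lam (ang (NN N1 N2) sa k)) ^ (j - 2))| ≤
      Fintype.card ι * (16 ^ j * ((2 + 22 * (φ * j) ^ 2) * β) +
        φ ^ 4 * Ew j fun a A => |(A : ℝ)| ^ 4 * |gg N1 N2 a|) := by
  have e := congrArg rt (h.heis.pow (unitaryGroup ι ℂ).subtype j)
  simp only [Submonoid.subtype_apply, Lap_letters] at e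
  rw [show rt = (AddMonoidHom.mk' rt rt_add : Matrix ι ι ℂ →+ ℝ) from rfl, Ew_map] at e
  simp only [AddMonoidHom.mk'_apply] at e
  have a1 := Ew_close j fun a A _ _ => h.trace h1 h2 ht a A
  rw [← e, Ew_mul, Ew_mul, Ew_add, Ew_gs, add_zero] at a1
  have a2 := (Ew_gg h1 h2 ht j).trans (hβ j le_rfl)
  have a3 := Ew_gg2 h1 h2 ht j
  have a4 := Ew_close j (f := fun a A => cos (φ * A) * gg N1 N2 a) (g := fun a _ => gg N1 N2 a)
    (b := fun a A => φ ^ 2 * (|(A : ℝ)| ^ 2 * |gg N1 N2 a|)) fun a A _ _ => by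
      rw [← sub_one_mul, abs_mul, ← mul_assoc, sq_abs, ← mul_pow, abs_sub_comm,
        abs_of_nonneg (sub_nonneg.2 (cos_le_one _))]
      gcongr
      nlinarith [one_sub_sq_div_two_le_cos (x := φ * A)]
  have a5 := Ew_close j (f := fun a A => cos (φ * A) * gg N1 N2 a)
    (g := fun a A => gg N1 N2 a + -(φ ^ 2 / 2) * ((A : ℝ) ^ 2 * gg N1 N2 a))
    (b := fun a A => φ ^ 4 * (|(A : ℝ)| ^ 4 * |gg N1 N2 a|)) fun a A _ _ => by
      rw [show cos (φ * A) * gg N1 N2 a - (gg N1 N2 a + -(φ ^ 2 / 2) * ((A : ℝ) ^ 2 * gg N1 N2 a)) =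
        (cos (φ * A) - (1 - (φ * A) ^ 2 / 2)) * gg N1 N2 a by ring, abs_mul, ← mul_assoc,
        ← abs_pow, abs_of_nonneg (by positivity : 0 ≤ (A : ℝ) ^ 4), ← mul_pow]
      gcongr
      exact cos_four _
  rw [Ew_mul] at a4
  rw [Ew_add, Ew_mul, Ew_mul] at a5
  have β0 : 0 ≤ β := by simpa [Ew] using (bd_nonneg _ _ _).trans (hβ 0 j.zero_le)
  have a6 : φ ^ 2 / 12 * (j.choose 2 * (256 * Ew (j - 2) fun a _ => bd N1 t a)) ≤
      16 ^ j * (22 * (φ * j) ^ 2 * β) := by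
    have b1 : (j.choose 2 : ℝ) ≤ j ^ 2 := by exact_mod_cast Nat.choose_le_pow j 2
    have b2 : (16 : ℝ) ^ (j - 2) ≤ 16 ^ j := pow_le_pow_right₀ (by norm_num) (j.sub_le 2)
    calc _ ≤ φ ^ 2 / 12 * (j ^ 2 * (256 * (16 ^ j * β))) := by
          have := (hβ _ (j.sub_le 2)).trans (mul_le_mul_of_nonneg_right b2 β0)
          refine le_trans ?_ (mul_le_mul_of_nonneg_left (mul_le_mul_of_nonneg_right b1
            (by positivity)) (by positivity))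
          gcongr
      _ ≤ _ := by nlinarith [show 0 ≤ 16 ^ j * ((φ * j) ^ 2 * β) by positivity]
  replace a3 := (mul_le_mul_of_nonneg_left a3 (by positivity : 0 ≤ φ ^ 2 / 12)).trans a6
  rw [← abs_of_nonneg (by positivity : 0 ≤ φ ^ 2 / 12), ← abs_mul] at a3
  replace a1 := a1.trans (mul_le_mul_of_nonneg_left (hβ j le_rfl) (Nat.cast_nonneg _))
  have key : ∀ y b c, |(Ew j fun a A => cos (φ * A) * gg N1 N2 a) - y| ≤ b → 16 ^ j * β + b ≤ c →
      |rt ((16 - Lap T) ^ j) - Fintype.card ι * y| ≤ Fintype.card ι * c := fun y b c hy hc => by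
    refine (abs_sub_le _ _ _).trans ((add_le_add a1 ?_).trans ((mul_add _ _ b).ge.trans ?_))
    · rw [← mul_sub, abs_mul, Nat.abs_cast]; gcongr
    · gcongr
  refine ⟨key _ _ _ ((abs_sub_le _ _ _).trans (add_le_add a4 a2)) (by linarith), key _ _ _
    (le_trans ?_ (add_le_add (add_le_add a5 a2) a3)) (by linarith)⟩
  rw [← abs_neg (φ ^ 2 / 12 * _)]
  exact le_of_eq_of_le (by congr 1; ring) (abs_add_three _ _ _)

end Pool.Agent.Lib.MP_7f377f_mp.RG.Q4.Xi
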