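import Pool.Agent.Lib.MP_7f377f_mp.G.Q4XiE

/-! The determinant of the magnetic Laplacian to second order in the flux. -/

noncomputable section

namespace Pool.Agent.Lib.MP_7f377f_mp.RG.Q4.Xi

open Finset Real Matrix
open scoped BigOperators Matrix.Norms.L2Operator

variable {ι : Type*} [Fintype ι] [DecidableEq ι]
variable {N1 N2 : ℕ} {φ : ℝ} {T : Fin 4 → unitaryGroup ι ℂ}

theorem params {u v : ℝ} (hv : 1 ≤ v) (hu : 1 ≤ u) (hl : 50 ≤ log u) (h : v * log u ^ 2 ≤ u) :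
    ∃ n : ℕ, (n + 1 : ℝ) ≤ 82 * v ^ 2 * log u ∧ (1 - (8 * v ^ 2)⁻¹) ^ n ≤ (u ^ 10)⁻¹ ∧
      ∀ i : ℕ, i ≤ n + 1 → 4 * exp (i * (v⁻¹ ^ 2 / 2) - v⁻¹ * (u - 2)) ≤ (u ^ 6)⁻¹ := by
  have e : ∀ k : ℕ, (u ^ k)⁻¹ = exp (-(k * log u)) := fun k => by
    rw [exp_neg, exp_nat_mul, exp_log (by linarith)]
  have v2 : 1 ≤ v ^ 2 := one_le_pow₀ hv
  have a := Nat.ceil_lt_add_one (by positivity : 0 ≤ 80 * v ^ 2 * log u)
  have b := Nat.le_ceil (80 * v ^ 2 * log u)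
  have c : (⌈80 * v ^ 2 * log u⌉₊ + 1 : ℝ) ≤ 82 * v ^ 2 * log u := by nlinarith
  refine ⟨_, c, ?_, fun i hi => ?_⟩
  · refine (pow_le_pow_left₀ (sub_nonneg.2 (inv_le_one_of_one_le₀ (by linarith)))
      (one_sub_le_exp_neg _) _).trans ?_
    rw [← exp_nat_mul, e, exp_le_exp, mul_neg, neg_le_neg_iff, ← div_eq_mul_inv,
      le_div_iff₀ (by positivity)]
    push_cast; linarith
  · have hi' : (i : ℝ) ≤ 82 * v ^ 2 * log u := le_trans (by exact_mod_cast hi) c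
    have d1 : i * (v⁻¹ ^ 2 / 2) ≤ 41 * log u :=
      (mul_le_mul_of_nonneg_right hi' (by positivity)).trans_eq (by field_simp; norm_num)
    have d2 : log u ^ 2 ≤ v⁻¹ * u := by rw [← div_eq_inv_mul, le_div_iff₀' (by linarith)]; exact h
    have d3 : v⁻¹ ≤ 1 := inv_le_one_of_one_le₀ hv
    have d4 : 4 ≤ exp 3 := by linarith [add_one_le_exp 3]
    refine (mul_le_mul_of_nonneg_right d4 (exp_pos _).le).trans ?_
    rw [← exp_add, e, exp_le_exp]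
    push_cast; nlinarith

variable [Tw]

/-- eigenvalues of the lazy random walk -/
def pk (N1 N2 : ℕ) (k : Kp (NN N1 N2)) : ℝ := 1 - 16⁻¹ * lam (ang _ sa k)

def ck (N1 N2 : ℕ) (k : Kp (NN N1 N2)) : ℝ := cos (ang _ sa k 0) * cos (ang _ sa k 1)

theorem Mag.word' (h : Mag N1 N2 φ T) (h2 : 0 < N2) (hl : 1 ≤ log N1) {β : ℝ} {j : ℕ}
    (hj : 0 < j) (hj1 : j ≤ N1 ^ 2) (hj2 : (j : ℝ) ≤ 82 * N2 ^ 2 * log N1)
    (hβ : ∀ i : ℕ, i ≤ j → 4 * exp (i * ((N2 : ℝ)⁻¹ ^ 2 / 2) - (N2 : ℝ)⁻¹ * (N1 - 2)) ≤ β) :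
    |rt ((1 - ((16⁻¹ : ℝ) : ℂ) • Lap T) ^ j) - Fintype.card ι * 𝔼 k, pk N1 N2 k ^ j| ≤
      Fintype.card ι * (2 * β + φ ^ 2 * (10 ^ 8 * log N1 ^ 3)) ∧
    |rt ((1 - ((16⁻¹ : ℝ) : ℂ) • Lap T) ^ j) - Fintype.card ι * 𝔼 k, (pk N1 N2 k ^ j -
      φ ^ 2 / 768 * j.choose 2 * (ck N1 N2 k * pk N1 N2 k ^ (j - 2)))| ≤
      Fintype.card ι * ((2 + 22 * (φ * j) ^ 2) * β + φ ^ 4 * (10 ^ 11 * log N1 ^ 5 * j ^ 2)) := by
  have h1 : 0 < N1 := pos_of_ne_zero fun h => by simp [h] at hj1; omega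
  have u1 : (1 : ℝ) ≤ N1 := by exact_mod_cast h1
  have v0 : (0 : ℝ) < N2 := by exact_mod_cast h2
  have j1 : (1 : ℝ) ≤ j := by exact_mod_cast hj
  have ju : (j : ℝ) ≤ N1 ^ 2 := by exact_mod_cast hj1
  obtain ⟨a, b⟩ := h.word h1 h2 (t := (N2 : ℝ)⁻¹) (β := β) (by positivity) j fun i hi =>
    (Ew_bd _ _ _).trans (mul_le_mul_of_nonneg_left (hβ i hi) (by positivity))
  have r := Ew_ret h2 hj hj1
  have r2 : 36 / (j : ℝ) * (8 / (N2 : ℝ) ^ 2 + 32 / j) ≤ 25000 * log N1 / j ^ 2 := by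
    have : j / (N2 : ℝ) ^ 2 ≤ 82 * log N1 := by rw [div_le_iff₀ (by positivity)]; linarith
    rw [le_div_iff₀ (by positivity)]
    calc _ = 36 * (8 * (j / (N2 : ℝ) ^ 2) + 32) := by field_simp
      _ ≤ _ := by linarith
  have m : ∀ r : ℕ, r ≤ 4 → Ew j (fun a A => |(A : ℝ)| ^ r * |gg N1 N2 a|) ≤
      16 ^ j * ((32 * log N1 * j) ^ r * (25000 * log N1 / j ^ 2) + 6) := fun s hs => by
    refine (Ew_moment (fun a => (gg_le N1 N2 a).trans (gt_le _ 0 a).2) s hj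
      (K := 32 * log N1) (by positivity)).trans ?_
    rw [mul_add, mul_left_comm (16 ^ j : ℝ) (_ ^ s)]
    gcongr
    · exact r.trans (by gcongr)
    · rw [show -(32 * log N1 / 2) = -((16 : ℕ) * log N1) by push_cast; ring, exp_neg, exp_nat_mul,
        exp_log (by linarith), mul_assoc, ← div_eq_mul_inv]
      refine mul_le_of_le_one_right (by norm_num) (div_le_one_of_le₀ ?_ (by positivity))
      calc _ ≤ (((N1 : ℝ) ^ 2) ^ 2) ^ s := by gcongr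
        _ ≤ (((N1 : ℝ) ^ 2) ^ 2) ^ 4 := pow_le_pow_right₀ (one_le_pow₀ (one_le_pow₀ u1)) hs
        _ = _ := by ring
  have l3 : 1 ≤ log N1 ^ 3 := one_le_pow₀ hl
  have l5 : 1 ≤ log N1 ^ 5 * j ^ 2 := one_le_mul_of_one_le_of_one_le (one_le_pow₀ hl)
    (one_le_pow₀ j1)
  have m2 := (m 2 (by norm_num)).trans (mul_le_mul_of_nonneg_left (c := 10 ^ 8 * log N1 ^ 3)
    (by field_simp; linarith) (by positivity))
  have m4 := (m 4 le_rfl).trans (mul_le_mul_of_nonneg_left (c := 10 ^ 11 * log N1 ^ 5 * j ^ 2)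
    (by field_simp; linarith) (by positivity))
  have e1 : rt ((16 - Lap T) ^ j) = 16 ^ j * rt ((1 - ((16⁻¹ : ℝ) : ℂ) • Lap T) ^ j) := by
    rw [← rt_smul, Complex.ofReal_pow, ← smul_pow, smul_sub, smul_smul]
    norm_num [Algebra.smul_def, map_ofNat]
  have e2 : ∀ k i, (16 - lam (ang _ sa k)) ^ i = 16 ^ i * pk N1 N2 k ^ i := fun k i => by
    rw [← mul_pow, pk]; congr 1; ring
  have e3 : (j.choose 2 : ℝ) * 16 ^ j = j.choose 2 * (256 * 16 ^ (j - 2)) := by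
    rcases lt_or_ge j 2 with c | c
    · simp [Nat.choose_eq_zero_of_lt c]
    · rw [show (16 : ℝ) ^ j = 16 ^ (j - 2 + 2) by rw [Nat.sub_add_cancel c]]; ring
  have p : (0 : ℝ) < 16 ^ j := by positivity
  simp only [e1, e2, mul_left_comm _ ((16 : ℝ) ^ (j - 2)), ← mul_expect] at a b
  constructor <;> refine le_of_mul_le_mul_left ?_ p <;> rw [← abs_of_pos p, ← abs_mul, abs_of_pos p]
  · refine (le_of_eq_of_le (by congr 1; ring) a).trans ?_
    rw [mul_left_comm _ (Fintype.card ι : ℝ), mul_add (16 ^ j : ℝ), mul_left_comm _ (φ ^ 2)]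
    gcongr
  · refine (le_of_eq_of_le ?_ b).trans ?_
    · rw [expect_sub_distrib, ← mul_expect]
      congr 1
      simp only [ck]
      linear_combination (Fintype.card ι * φ ^ 2 / 768 * 𝔼 k, cos (ang _ sa k 0) *
        cos (ang _ sa k 1) * pk N1 N2 k ^ (j - 2)) * e3
    · rw [mul_left_comm _ (Fintype.card ι : ℝ), mul_add (16 ^ j : ℝ), mul_left_comm _ (φ ^ 4)]
      gcongr

/-- the free determinant per site -/
def L0 (N1 N2 : ℕ) : ℝ := 𝔼 k, log (lam (ang (NN N1 N2) sa k))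

def S1 (N1 N2 : ℕ) : ℝ := 𝔼 k, ck N1 N2 k * (lam (ang (NN N1 N2) sa k))⁻¹ ^ 2

omit [Tw] in
theorem abs_av {κ : Type*} [Fintype κ] {f : κ → ℝ} {c : ℝ} (c0 : 0 ≤ c) (h : ∀ k, |f k| ≤ c) :
    |𝔼 k, f k| ≤ c := by
  cases isEmpty_or_nonempty κ
  · simpa using c0
  · exact abs_le.2 ⟨le_expect univ_nonempty fun k _ => (abs_le.1 (h k)).1,
      expect_le univ_nonempty fun k _ => (abs_le.1 (h k)).2⟩

omit [Tw] in
theorem choose_sum (p : ℝ) (n : ℕ) : ∑ m ∈ range (n + 1), ((m + 1).choose 2 : ℝ) * p ^ (m + 1 - 2) /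
    (m + 1) = 2⁻¹ * ∑ m ∈ range n, (m + 1) * p ^ m := by
  rw [sum_range_succ', mul_sum]
  simp only [zero_add, Nat.cast_choose_two]
  rw [show ((1 : ℕ) : ℝ) * ((1 : ℕ) - 1) / 2 = 0 by simp, zero_mul, zero_div, add_zero]
  refine sum_congr rfl fun m _ => ?_
  rw [show m + 1 + 1 - 2 = m by omega]
  push_cast; field_simp; ring

theorem Mag.sums (h : Mag N1 N2 φ T) (h2 : 0 < N2) (hl : 50 ≤ log N1)
    (hN : N2 * log N1 ^ 2 ≤ N1) (hφ : |φ| * N1 ^ 2 ≤ 14) :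
    |ld (Lap T) - Fintype.card ι * (L0 N1 N2 + φ ^ 2 / 6 * S1 N1 N2)| ≤
      Fintype.card ι * (10 ^ 20 / (N1 : ℝ) ^ 4) ∧
    |hs (Lap T)⁻¹ ^ 2 - Fintype.card ι * SS N1 N2| ≤ Fintype.card ι * 10 ^ 20 := by
  have h1 : 0 < N1 := pos_of_ne_zero fun h => by simp [h] at hl; linarith
  have hu : (1 : ℝ) ≤ N1 := by exact_mod_cast h1
  have hv : (1 : ℝ) ≤ N2 := by exact_mod_cast h2
  obtain ⟨n, n1, n2, n3⟩ := params hv hu hl hN
  have hw := fun j hj hj1 hj2 => h.word' h2 (by linarith) (β := ((N1 : ℝ) ^ 6)⁻¹) (j := j) hj hj1 hj2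
  have hp := fun m => ld_series (P := 1 - ((16⁻¹ : ℝ) : ℂ) • Lap T)
    (isHermitian_one.sub ((h.gap h2).1.smul (by simp [IsSelfAdjoint]))) (h.norm_P h2)
    (sub_lt_self _ (by positivity)) m
  have pk1 : ∀ k, |pk N1 N2 k| ≤ 1 - (8 * (N2 : ℝ) ^ 2)⁻¹ := fun k => by
    have c : (8 * (N2 : ℝ) ^ 2)⁻¹ = 16⁻¹ * (2 / (N2 : ℝ) ^ 2) := by field_simp; norm_num
    have := lam_le (ang _ sa k)
    rw [pk, abs_of_nonneg (by linarith)]; linarith [lam_ge k]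
  have lp : ∀ k : Kp (NN N1 N2), 0 < lam (ang _ sa k) := fun k =>
    lt_of_lt_of_le (by positivity) (lam_ge k)
  have pk2 : ∀ k, 1 - pk N1 N2 k = 16⁻¹ * lam (ang _ sa k) := fun k => sub_sub_cancel _ _
  have ck1 : ∀ k, |ck N1 N2 k| ≤ 1 := fun k => by
    rw [ck, abs_mul]; exact mul_le_one₀ (abs_cos_le_one _) (abs_nonneg _) (abs_cos_le_one _)
  have : Nonempty (Kp (NN N1 N2)) := ⟨fun μ => ⟨0, NN_pos h1 h2 μ⟩⟩
  set u : ℝ := (N1 : ℝ)
  set v : ℝ := (N2 : ℝ)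
  set l := log u
  set x := 1 - (8 * v ^ 2)⁻¹ with hx
  set c : ℝ := (Fintype.card ι : ℝ)
  have c0 : 0 ≤ c := Nat.cast_nonneg _
  have x1 : x < 1 := sub_lt_self _ (by positivity)
  have x0 : 0 ≤ x := (abs_nonneg _).trans (pk1 (Classical.arbitrary _))
  have l1 : 1 ≤ l := by linarith
  have vu : v ≤ u := le_trans (le_mul_of_one_le_right (by linarith) (one_le_pow₀ l1)) hN
  have n4 : (n + 1 : ℝ) * l ^ 3 ≤ 82 * u ^ 2 :=
    calc _ ≤ 82 * v ^ 2 * l * l ^ 3 := by gcongr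
      _ = 82 * (v * l ^ 2) ^ 2 := by ring
      _ ≤ _ := by gcongr
  have n5 : (n + 1 : ℝ) ≤ u ^ 2 := by
    have : 50 ^ 3 ≤ l ^ 3 := by gcongr
    nlinarith [n.cast_nonneg (α := ℝ)]
  have φ2 : φ ^ 2 ≤ 196 / u ^ 4 := by
    rw [le_div_iff₀ (by positivity), ← sq_abs]
    nlinarith [mul_nonneg (abs_nonneg φ) (sq_nonneg u)]
  have φ3 : φ ^ 2 * (n + 1) ^ 2 * l ^ 6 ≤ (2 * 10 ^ 6) :=
    calc _ = φ ^ 2 * ((n + 1) * l ^ 3) ^ 2 := by ring
      _ ≤ 196 / u ^ 4 * (82 * u ^ 2) ^ 2 := by gcongr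
      _ ≤ _ := by field_simp; norm_num
  have φ4 : φ ^ 2 * (n + 1) ^ 2 ≤ (2 * 10 ^ 6) :=
    (le_mul_of_one_le_right (by positivity) (one_le_pow₀ l1)).trans φ3
  have t1 : x ^ (n + 1 + 1) / (1 - x) ≤ 8 / u ^ 4 :=
    calc _ = x ^ n * x ^ 2 * (8 * v ^ 2) := by rw [hx, sub_sub_cancel, div_inv_eq_mul]; ring
      _ ≤ (u ^ 10)⁻¹ * 1 ^ 2 * (8 * u ^ 2) := by gcongr
      _ ≤ _ := by field_simp; exact one_le_pow₀ hu
  have t2 : (2 * n + 1) * x ^ n / (1 - x) ^ 2 ≤ 128 :=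
    calc _ = (2 * n + 1) * x ^ n * (8 * v ^ 2) ^ 2 := by
          rw [hx, sub_sub_cancel, inv_pow, div_inv_eq_mul]
      _ ≤ (2 * u ^ 2) * (u ^ 10)⁻¹ * (8 * u ^ 2) ^ 2 := by gcongr; linarith
      _ ≤ _ := by field_simp; linarith [one_le_pow₀ (n := 4) hu]
  have n6 : n + 1 ≤ N1 ^ 2 := by simp only [u] at n5; exact_mod_cast n5
  replace hw := fun j hj (hj1 : j ≤ n + 1) => hw j hj (hj1.trans n6)
    (le_trans (by exact_mod_cast hj1) n1) fun i hi => n3 i (hi.trans hj1)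
  simp only [sub_sub_cancel] at hp
  set P := 1 - ((16⁻¹ : ℝ) : ℂ) • Lap T
  have u6 : (u ^ 6)⁻¹ * (n + 1) ≤ 1 / u ^ 4 :=
    (mul_le_mul_of_nonneg_left n5 (by positivity)).trans_eq (by field_simp)
  constructor
  · have a1 := (hp (n + 1)).2.1.trans (mul_le_mul_of_nonneg_left t1 c0)
    have e1 : ld (((16⁻¹ : ℝ) : ℂ) • Lap T) = ld (Lap T) + c * log 16⁻¹ := by
      rw [ld, det_smul, norm_mul, log_mul (by simp) (by simpa using ((h.gap h2).inv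
        (by positivity)).1), norm_pow, log_pow, add_comm, Complex.norm_of_nonneg (by norm_num)]
      rfl
    have a2 := abs_av (c := 8 / u ^ 4 + φ ^ 2 * 128) (by positivity) (f := fun k =>
      log (lam (ang _ sa k)) + φ ^ 2 / 6 * (ck N1 N2 k * (lam (ang (NN N1 N2) sa k))⁻¹ ^ 2) +
      log 16⁻¹ + ∑ m ∈ range (n + 1), (pk N1 N2 k ^ (m + 1) - φ ^ 2 / 768 * (m + 1).choose 2 *
        (ck N1 N2 k * pk N1 N2 k ^ (m + 1 - 2))) / (m + 1)) fun k => by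
      have b1 := (log_series (pk1 k) x1 (n + 1)).trans t1
      have b2 := mul_le_mul (ck1 k) ((sq_series (pk1 k) x1 n).trans t2) (abs_nonneg _) zero_le_one
      have b3 := mul_le_mul (show φ ^ 2 / 1536 ≤ φ ^ 2 by linarith [sq_nonneg φ]) b2
        (by positivity) (sq_nonneg _)
      rw [← abs_mul, ← abs_of_nonneg (by positivity : 0 ≤ φ ^ 2 / 1536), ← abs_mul, one_mul] at b3
      refine le_of_eq_of_le (congrArg _ ?_) ((abs_add_le _ _).trans (add_le_add b1 b3))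
      have := choose_sum (pk N1 N2 k) n
      rw [pk2, log_mul (by norm_num) (lp k).ne']
      simp only [sub_div, sum_sub_distrib, mul_assoc, mul_left_comm _ (ck N1 N2 k), mul_div_assoc,
        ← mul_sum] at this ⊢
      rw [this]; ring
    have a3 : |∑ m ∈ range (n + 1), (rt (P ^ (m + 1)) - c * 𝔼 k, (pk N1 N2 k ^ (m + 1) -
        φ ^ 2 / 768 * (m + 1).choose 2 * (ck N1 N2 k * pk N1 N2 k ^ (m + 1 - 2)))) / (m + 1)| ≤
        (n + 1) * (c * (10 ^ 8 * (u ^ 6)⁻¹ + φ ^ 4 * (10 ^ 11 * l ^ 5 * (n + 1)))) := by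
      refine (abs_sum_le_sum_abs _ _).trans ((sum_le_card_nsmul _ _ _ fun m hm => ?_).trans_eq
        (by rw [card_range, nsmul_eq_mul]; push_cast; rfl))
      have m1 : (m + 1 : ℝ) ≤ n + 1 := by exact_mod_cast mem_range.1 hm
      have m0 : (1 : ℝ) ≤ m + 1 := by linarith [m.cast_nonneg (α := ℝ)]
      rw [abs_div, abs_of_pos (by linarith : (0 : ℝ) < m + 1), div_le_iff₀ (by linarith)]
      refine (hw _ m.succ_pos (mem_range.1 hm)).2.trans ?_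
      rw [mul_assoc c, add_mul (_ * _), mul_assoc (φ ^ 4), mul_assoc _ (n + 1 : ℝ), mul_pow]
      push_cast
      refine mul_le_mul_of_nonneg_left (add_le_add
        (le_trans ?_ (le_mul_of_one_le_right (by positivity) m0)) ?_) c0
      · gcongr
        have : φ ^ 2 * (m + 1) ^ 2 ≤ φ ^ 2 * (n + 1) ^ 2 := by gcongr
        linarith
      · rw [sq]; gcongr
    simp only [expect_add_distrib, ← mul_expect, expect_const univ_nonempty, expect_sum_comm,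
      ← expect_div] at a2
    replace a2 := mul_le_mul_of_nonneg_left a2 c0
    rw [← abs_of_nonneg c0, ← abs_mul, abs_of_nonneg c0] at a2
    refine (le_of_eq_of_le (congrArg _ ?_) ((abs_sub _ _).trans (add_le_add
      ((abs_sub _ _).trans (add_le_add a1 a3)) a2))).trans ?_
    · simp only [e1, L0, S1, sub_div, sum_sub_distrib, mul_div_assoc, ← mul_sum]; ring
    · rw [mul_left_comm _ c, ← mul_add, ← mul_add]
      gcongr
      have b1 : φ ^ 2 * (φ ^ 2 * (n + 1) ^ 2 * l ^ 5) ≤ 196 / u ^ 4 * (2 * 10 ^ 6) := by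
        gcongr ?_ * ?_
        exact le_trans (by gcongr; norm_num) φ3
      have e : ∀ a : ℝ, a / u ^ 4 = a * (1 / u ^ 4) := fun a => by ring
      rw [e] at φ2 b1 ⊢
      rw [e (10 ^ 20)]
      nlinarith [show 0 < 1 / u ^ 4 by positivity]
  · have a1 := (hp n).2.2.trans (mul_le_mul_of_nonneg_left t2 c0)
    have e1 : rt ((((16⁻¹ : ℝ) : ℂ) • Lap T)⁻¹ * (((16⁻¹ : ℝ) : ℂ) • Lap T)⁻¹) =
        256 * hs (Lap T)⁻¹ ^ 2 := by
      rw [inv_eq_left_inv (B := ((16 : ℝ) : ℂ) • (Lap T)⁻¹) (by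
        rw [smul_mul_smul_comm, ((h.gap h2).inv (by positivity)).2.1]; simp), smul_mul_smul_comm,
        ← Complex.ofReal_mul, rt_smul, hs_sq, (h.gap h2).1.inv.eq]
      norm_num
    have a2 := abs_av (c := 128) (by positivity) (f := fun k => 256 *
      (lam (ang (NN N1 N2) sa k))⁻¹ ^ 2 - ∑ m ∈ range n, (m + 1) * pk N1 N2 k ^ m) fun k => by
      refine le_of_eq_of_le (congrArg _ ?_) ((sq_series (pk1 k) x1 n).trans t2)
      rw [pk2]; ring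
    have a3 : |∑ m ∈ range n, (m + 1) * (rt (P ^ m) - c * 𝔼 k, pk N1 N2 k ^ m)| ≤
        (n + 1) * ((n + 1) * (c * (2 * (u ^ 6)⁻¹ + φ ^ 2 * (10 ^ 8 * l ^ 3)))) := by
      refine (abs_sum_le_sum_abs _ _).trans ((sum_le_card_nsmul _ _ ((n + 1) * (c * (2 * (u ^ 6)⁻¹ +
        φ ^ 2 * (10 ^ 8 * l ^ 3)))) fun m hm => ?_).trans ?_)
      · have m1 : (m : ℝ) ≤ n := by exact_mod_cast (mem_range.1 hm).le
        rw [abs_mul, abs_of_pos (by positivity : (0 : ℝ) < m + 1)]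
        gcongr
        rcases m.eq_zero_or_pos with rfl | m0
        · simp only [pow_zero, expect_const univ_nonempty, rt, trace_one, Complex.natCast_re, c,
            mul_one, sub_self, abs_zero]
          positivity
        · exact (hw _ m0 (by have := mem_range.1 hm; omega)).1
      · rw [card_range, nsmul_eq_mul]; gcongr; linarith
    simp only [expect_sub_distrib, ← mul_expect, expect_sum_comm] at a2
    replace a2 := mul_le_mul_of_nonneg_left a2 c0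
    rw [← abs_of_nonneg c0, ← abs_mul, abs_of_nonneg c0] at a2
    have := (abs_sub _ _).trans (add_le_add ((abs_add_le _ _).trans (add_le_add a1 a3)) a2)
    simp only [e1, mul_sub, sum_sub_distrib, mul_left_comm _ c, ← mul_sum] at this
    have b1 : φ ^ 2 * (n + 1) ^ 2 * l ^ 3 ≤ (2 * 10 ^ 6) := le_trans (by gcongr; norm_num) φ3
    have b2 : (n + 1) * ((u ^ 6)⁻¹ * (n + 1)) ≤ 1 :=
      (mul_le_mul n5 u6 (by positivity) (by positivity)).trans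
        (by field_simp; exact one_le_pow₀ hu)
    have b3 : 128 + (n + 1) * ((n + 1) * (2 * (u ^ 6)⁻¹ + φ ^ 2 * (10 ^ 8 * l ^ 3))) + 128 ≤
      10 ^ 20 := by nlinarith
    replace b3 := mul_le_mul_of_nonneg_left b3 c0
    rw [abs_le] at this ⊢
    rw [SS]
    constructor <;> nlinarith [this.1, this.2]

end Pool.Agent.Lib.MP_7f377f_mp.RG.Q4.Xi
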