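import Pool.Agent.Lib.MP_7f377f_mp.G.Q4XiF

/-! The paramagnetic contribution to the determinant of the vector Laplacian. -/

noncomputable section

namespace Pool.Agent.Lib.MP_7f377f_mp.RG.Q4.Xi

open Finset Real Matrix
open scoped BigOperators Matrix.Norms.L2Operator

variable {ι : Type*} [Fintype ι] [DecidableEq ι]
variable {N1 N2 : ℕ} {φ F : ℝ} {T : Fin 4 → unitaryGroup ι ℂ}

theorem ld_one_add {Y : Matrix ι ι ℂ} (hY : Y.IsHermitian) (h : ‖Y‖ ≤ 1 / 2) :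
    |ld (1 + Y) - rt Y| ≤ 2 * rt (Y * Y) := by
  obtain ⟨U, d, rfl⟩ : ∃ U d, Y = cj U d := ⟨_, _, spec hY⟩
  rw [norm_cj] at h
  have hd : ∀ i, |d i| ≤ 1 / 2 := fun i => (norm_le_pi_norm d i).trans h
  rw [← map_one (cj U), ← map_add, ← map_mul, ld_cj U fun i => by
    have := (abs_le.1 (hd i)).1; simp; linarith, trace_cj, trace_cj, ← sum_sub_distrib, mul_sum]
  refine (abs_sum_le_sum_abs _ _).trans (sum_le_sum fun i _ => ?_)
  have := log_series (y := -d i) (abs_neg _).le (by linarith [hd i]) 1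
  simp only [range_one, sum_singleton, zero_add, pow_one, Nat.cast_zero, div_one] at this
  refine (le_of_eq_of_le (by simp [sub_eq_add_neg]) this).trans ?_
  rw [div_le_iff₀ (by linarith [hd i]), Pi.mul_apply, ← abs_mul_abs_self, pow_succ, pow_one]
  nlinarith [mul_le_mul_of_nonneg_left (hd i) (mul_self_nonneg |d i|)]

theorem hs_mul' (A B : Matrix ι ι ℂ) : hs (A * B) ≤ hs A * ‖B‖ := by
  rw [← hs_star, conjTranspose_mul, mul_comm, ← hs_star A, ← l2_opNorm_conjTranspose B]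
  exact hs_mul _ _

theorem Gap.ld_hs {γ η : ℝ} {A W : Matrix ι ι ℂ} (h : Gap γ A) (hγ : 0 < γ) (hW : W.IsHermitian)
    (hη : ‖W‖ ≤ η) (h2 : 2 * η ≤ γ) : (A + W).det ≠ 0 ∧
    |ld (A + W) - ld A - rt (A⁻¹ * W)| ≤ 2 * (η * hs A⁻¹) ^ 2 := by
  obtain ⟨R, S, hR, h1, h1', h3, h4, h5⟩ := h.sqrt hγ
  have η0 : 0 ≤ η := (norm_nonneg _).trans hη
  have d0 := ((h.pert hW hη).inv (by linarith)).1
  have hY : (R * W * R).IsHermitian := by
    have := isHermitian_mul_mul_conjTranspose R hW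
    rwa [hR.eq] at this
  have hn : ‖R * W * R‖ ≤ 1 / 2 :=
    calc _ ≤ (√γ)⁻¹ * η * (√γ)⁻¹ := norm_mul₃_le.trans (by gcongr)
      _ = η / (√γ * √γ) := by field_simp
      _ ≤ _ := by rw [Real.mul_self_sqrt hγ.le, div_le_iff₀ hγ]; linarith
  have dS : S.det ≠ 0 := fun h0 => by simpa [h0] using congrArg det h1
  have e : A + W = S * (1 + R * W * R) * S := by
    rw [mul_add, add_mul, mul_one, h3, ← mul_assoc, ← mul_assoc, h1', one_mul, mul_assoc, h1,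
      mul_one]
  have d1 : (1 + R * W * R).det ≠ 0 := fun h0 => d0 (by simp [e, h0])
  have e2 : rt (A⁻¹ * W) = rt (R * W * R) := by rw [rt_comm (R * W), ← mul_assoc, h4]
  have e3 : rt (R * W * R * (R * W * R)) = rt (A⁻¹ * W * (A⁻¹ * W)) := by
    rw [← mul_assoc, rt_comm, ← h4]; simp only [mul_assoc]
  have b := (hs_mul' A⁻¹ W).trans (mul_le_mul_of_nonneg_left hη (hs_nonneg _))
  have c := (le_abs_self _).trans ((rt_mul_le (A⁻¹ * W) (A⁻¹ * W)).trans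
    (mul_self_le_mul_self (hs_nonneg _) b))
  refine ⟨d0, ?_⟩
  rw [e, ld_mul (by simp [dS, d1]) dS, ld_mul dS d1, e2]
  nth_rewrite 1 [← h3]
  rw [ld_mul dS dS]
  refine (le_of_eq_of_le (by congr 1; ring) (ld_one_add hY hn)).trans ?_
  rw [e3]; linarith

/-- twisted translations -/
def tw (s t : ℝ) (T : Fin 4 → unitaryGroup ι ℂ) : Fin 4 → unitaryGroup ι ℂ :=
  ![ph s * T 0, ph t * T 1, T 2, T 3]

theorem Mag.tw [Tw] (h : Mag N1 N2 φ T) (s t : ℝ) : Mag N1 N2 φ (tw s t T) := by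
  refine ⟨⟨h.heis.cen, ?_, (ph_comm _ _).mul_left h.heis.c02, (ph_comm _ _).mul_left h.heis.c03,
    (ph_comm _ _).mul_left h.heis.c12, (ph_comm _ _).mul_left h.heis.c13, h.heis.c23⟩, h.p2, h.p3,
    fun a ha => ?_⟩
  · have := congrArg Subtype.val h.heis.c01
    refine Subtype.ext ?_
    simp only [Xi.tw, cons_val_zero, cons_val_one, Submonoid.coe_mul, ph_val, smul_mul_assoc,
      one_mul, mul_smul_comm, smul_smul] at this ⊢
    rw [this, smul_smul]; congr 1; ring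
  · have := h.tr a ha
    simp only [mon, Xi.tw, cons_val_zero, cons_val_one, Matrix.cons_val] at this ⊢
    rw [(ph_comm s (T 0)).mul_zpow, (ph_comm t (T 1)).mul_zpow]
    simp only [ph_zpow, Submonoid.coe_mul, ph_val, smul_mul_assoc, one_mul, mul_smul_comm,
      trace_smul] at this ⊢
    simp [this]

theorem norm_ph_sub (s : ℝ) : ‖(ph s : unitaryGroup ι ℂ).1 - 1‖ ≤ |s| := by
  rw [ph_val, show Complex.exp (s * Complex.I) • (1 : Matrix ι ι ℂ) - 1 =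
    (Complex.exp (s * Complex.I) - 1) • 1 by module, norm_smul, mul_comm (s : ℂ)]
  exact (mul_le_of_le_one_right (norm_nonneg _) norm_one_le).trans norm_exp_I_mul_ofReal_sub_one_le

theorem norm_Lap_tw (s t : ℝ) (T : Fin 4 → unitaryGroup ι ℂ) :
    ‖Lap (tw s t T) - Lap T‖ ≤ 2 * (|s| + |t|) := by
  have a : ∀ (s : ℝ) (U : unitaryGroup ι ℂ), ‖((ph s).1 - 1) * U.1‖ ≤ |s| := fun s U =>
    (norm_mul_le _ _).trans ((mul_le_of_le_one_right (norm_nonneg _) (norm_uni U)).trans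
      (norm_ph_sub s))
  have e : Lap (tw s t T) - Lap T = -(((ph s).1 - 1) * (T 0).1 + (((ph s).1 - 1) * (T 0).1)ᴴ +
      (((ph t).1 - 1) * (T 1).1 + (((ph t).1 - 1) * (T 1).1)ᴴ)) := by
    simp only [Lap, sq_eq]
    simp only [Fin.sum_univ_four, tw, cons_val_zero, cons_val_one, Matrix.cons_val,
      Submonoid.coe_mul, sub_mul, one_mul, conjTranspose_sub]
    abel
  rw [e, norm_neg]
  refine (norm_add_le _ _).trans ((add_le_add (norm_add_le _ _) (norm_add_le _ _)).trans ?_)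
  simp only [l2_opNorm_conjTranspose]
  linarith [a s (T 0), a t (T 1)]

/-- the distance of a unitary from the identity, seen by `G` -/
def qd (G : Matrix ι ι ℂ) (U : unitaryGroup ι ℂ) : ℝ := hs ((U.1 - 1) * G)

theorem qd_mul (G : Matrix ι ι ℂ) (U V : unitaryGroup ι ℂ) : qd G (U * V) ≤ qd G U + qd G V := by
  rw [qd, show ((U * V).1 - 1) * G = (U.1 - 1) * G + U.1 * ((V.1 - 1) * G) by
    rw [Submonoid.coe_mul]; noncomm_ring]
  refine (hs_add _ _).trans (add_le_add le_rfl ((hs_mul _ _).trans ?_))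
  exact mul_le_of_le_one_left (hs_nonneg _) (norm_uni U)

theorem qd_inv (G : Matrix ι ι ℂ) (U : unitaryGroup ι ℂ) : qd G U⁻¹ ≤ qd G U := by
  have : (U⁻¹).1 * U.1 = 1 := U.2.1
  rw [qd, show ((U⁻¹).1 - 1) * G = -(U⁻¹).1 * ((U.1 - 1) * G) by
    rw [← mul_assoc, mul_sub, neg_mul, this]; noncomm_ring]
  refine (hs_mul _ _).trans (mul_le_of_le_one_left (hs_nonneg _) ?_)
  rw [norm_neg]; exact norm_uni _

theorem qd_ph (G : Matrix ι ι ℂ) (s : ℝ) : qd G (ph s) ≤ |s| * hs G :=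
  (hs_mul _ _).trans (mul_le_mul_of_nonneg_right (norm_ph_sub s) (hs_nonneg _))

theorem rt_hs (A : Matrix ι ι ℂ) : |rt A| ≤ √(Fintype.card ι) * hs A := by
  simpa [hs_one] using rt_mul_le 1 A

theorem Mag.qd_le [Tw] (h : Mag N1 N2 φ T) (h2 : 0 < N2) (μ : Fin 4) :
    qd (Lap T)⁻¹ (T μ) ^ 2 ≤ √(Fintype.card ι) * hs (Lap T)⁻¹ := by
  have g := h.gap h2
  refine (single_le_sum (f := fun μ => qd (Lap T)⁻¹ (T μ) ^ 2) (fun _ _ => sq_nonneg _)
    (mem_univ μ)).trans ((le_of_eq ?_).trans ((le_abs_self _).trans (rt_hs _)))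
  conv_rhs => rw [← one_mul (Lap T)⁻¹, ← (g.inv (by positivity)).2.1]
  simp only [qd, hs_sq, conjTranspose_mul, g.1.inv.eq]
  generalize (Lap T)⁻¹ = G
  simp only [Lap, rt, mul_sum, sum_mul, trace_sum, Complex.re_sum, mul_assoc]

/-- the off diagonal block -/
def KK (F : ℝ) (T : Fin 4 → unitaryGroup ι ℂ) : Matrix ι ι ℂ :=
  ((T 1)⁻¹ * (ph (-F) * T 0)).1 + ((T 1)⁻¹).1 + (T 0).1 + (ph F).1

/-- the gauge fixed Hessian in the plane of the flux -/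
def MB (F : ℝ) (T : Fin 4 → unitaryGroup ι ℂ) : Matrix (ι ⊕ ι) (ι ⊕ ι) ℂ :=
  fromBlocks (Lap (tw 0 F T) + ((2 * cos F - 2 : ℝ) : ℂ) • 1)
    ((Complex.exp (-(F * Complex.I)) - 1) • KK F T)
    ((Complex.exp (-(F * Complex.I)) - 1) • KK F T)ᴴ
    (Lap (tw (-F) 0 T) + ((2 * cos F - 2 : ℝ) : ℂ) • 1)

theorem norm_KK (F : ℝ) (T : Fin 4 → unitaryGroup ι ℂ) : ‖KK F T‖ ≤ 4 := by
  refine (norm_add_le _ _).trans ((add_le_add norm_add₃_le le_rfl).trans ?_)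
  linarith [norm_uni ((T 1)⁻¹ * (ph (-F) * T 0)), norm_uni (T 1)⁻¹, norm_uni (T 0),
    norm_uni (ph F : unitaryGroup ι ℂ)]

theorem Mag.vec [Tw] (h : Mag N1 N2 φ T) (h2 : 0 < N2) {ε σ : ℝ} (ε1 : ε ≤ 1 / 10)
    (hF : |F| * N2 ^ 2 ≤ ε) (g1 : hs (Lap (Xi.tw 0 F T))⁻¹ ≤ σ) (g2 : hs (Lap (Xi.tw (-F) 0 T))⁻¹ ≤ σ)
    (hc : √(Fintype.card ι) ≤ ε ^ 2 * σ) : (MB F T).det ≠ 0 ∧ |ld (MB F T) - (ld (Lap (Xi.tw 0 F T)) +
      ld (Lap (Xi.tw (-F) 0 T)) - 16 * F ^ 2 * hs (Lap (Xi.tw (-F) 0 T))⁻¹ ^ 2)| ≤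
      300 * ε * (F * σ) ^ 2 := by
  have hv : (1 : ℝ) ≤ N2 ^ 2 := one_le_pow₀ (by exact_mod_cast h2)
  have a1 := (h.tw 0 F).gap h2
  have a2 := (h.tw (-F) 0).gap h2
  have q0 := (h.tw (-F) 0).qd_le h2 0
  have q1 := (h.tw (-F) 0).qd_le h2 1
  have nL : ‖Lap (Xi.tw (-F) 0 T) - Lap (Xi.tw 0 F T)‖ ≤ 4 * |F| := by
    have := norm_sub_le_norm_sub_add_norm_sub (Lap (Xi.tw (-F) 0 T)) (Lap T) (Lap (Xi.tw 0 F T))
    rw [norm_sub_rev (Lap T)] at this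
    have a := norm_Lap_tw (-F) 0 T
    have b := norm_Lap_tw 0 F T
    simp only [abs_neg, abs_zero] at a b
    linarith
  have eK : KK F T = ((4 : ℝ) : ℂ) • 1 + ((((Xi.tw (-F) 0 T 1)⁻¹ * Xi.tw (-F) 0 T 0).1 - 1) +
      (((Xi.tw (-F) 0 T 1)⁻¹).1 - 1) + ((ph F * Xi.tw (-F) 0 T 0).1 - 1) + ((ph F).1 - 1)) := by
    have z : (ph 0 : unitaryGroup ι ℂ) = 1 := Subtype.ext (by simp [ph_val])
    simp only [KK, Xi.tw, cons_val_zero, cons_val_one, ← mul_assoc, ← ph_add, add_neg_cancel, z,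
      one_mul]
    module
  have nK := norm_KK F T
  rw [MB]
  generalize Lap (Xi.tw 0 F T) = L1 at *
  generalize Lap (Xi.tw (-F) 0 T) = L2 at *
  generalize KK F T = K at *
  generalize (N2 : ℝ) ^ 2 = v at *
  set c := 2 * cos F - 2 with hc0
  clear_value c
  have F0 := abs_nonneg F
  have ε0 : 0 ≤ ε := le_trans (by positivity) hF
  have σ0 : 0 ≤ σ := (hs_nonneg _).trans g1
  have Fε : |F| ≤ ε := (le_mul_of_one_le_right F0 hv).trans hF
  have c1 : |c| ≤ F ^ 2 := by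
    rw [abs_le]; constructor <;> nlinarith [cos_le_one F, one_sub_sq_div_two_le_cos (x := F)]
  have c2 : |c + F ^ 2| ≤ ε * F ^ 2 := by
    have := cos_four F
    have : F ^ 2 ≤ ε ^ 2 := by rw [← sq_abs]; gcongr
    rw [show c + F ^ 2 = 2 * (cos F - (1 - F ^ 2 / 2)) by rw [hc0]; ring, abs_mul, abs_two]
    nlinarith [mul_le_mul_of_nonneg_right this (sq_nonneg F), mul_nonneg ε0 (sq_nonneg F)]
  have Fv : F ^ 2 * v ≤ |F| * ε := by rw [← sq_abs, sq, mul_assoc]; gcongr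
  have n1 : ‖(c : ℂ) • (1 : Matrix ι ι ℂ)‖ ≤ F ^ 2 := by
    rw [norm_smul, Complex.norm_real]
    exact (mul_le_of_le_one_right (norm_nonneg _) norm_one_le).trans c1
  have h1 : ((c : ℂ) • (1 : Matrix ι ι ℂ)).IsHermitian :=
    isHermitian_one.smul (by simp [IsSelfAdjoint])
  have γ1 : 2 * F ^ 2 ≤ 2 / v := by rw [le_div_iff₀ (by linarith)]; nlinarith
  obtain ⟨d1, b1⟩ := a1.ld_hs (by positivity) h1 n1 γ1
  have a3 := a1.pert h1 n1
  have γ2 : 1 / v ≤ 2 / v - F ^ 2 := by linarith [show 2 / v = 2 * (1 / v) by ring]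
  obtain ⟨-, i1, -, i2⟩ := a3.inv (lt_of_lt_of_le (by positivity) γ2)
  replace i2 : ‖(L1 + (c : ℂ) • 1)⁻¹‖ ≤ v :=
    i2.trans ((inv_anti₀ (by positivity) γ2).trans_eq (by simp))
  obtain ⟨-, -, j1, -⟩ := a2.inv (by positivity)
  set A := L1 + (c : ℂ) • 1 with hA
  clear_value A
  have hG : L2⁻¹ᴴ = L2⁻¹ := a2.1.inv.eq
  have hW : ((c : ℂ) • (1 + Kᴴ * A⁻¹ * K)).IsHermitian :=
    (isHermitian_one.add (isHermitian_conjTranspose_mul_mul K a3.1.inv)).smul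
      (by simp [IsSelfAdjoint])
  have nW : ‖(c : ℂ) • (1 + Kᴴ * A⁻¹ * K)‖ ≤ 17 * (F ^ 2 * v) := by
    rw [norm_smul, Complex.norm_real]
    have : ‖Kᴴ * A⁻¹ * K‖ ≤ 4 * v * 4 := norm_mul₃_le.trans (by
      rw [l2_opNorm_conjTranspose]; gcongr)
    have := (norm_add_le _ _).trans (add_le_add norm_one_le this)
    calc _ ≤ F ^ 2 * (17 * v) := by gcongr; exacts [c1, by linarith]
      _ = _ := by ring
  obtain ⟨d2, b2⟩ := a2.ld_hs (by positivity) hW nW (by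
    rw [le_div_iff₀ (by linarith)]
    nlinarith [mul_self_le_mul_self (by positivity) hF, sq_abs F])
  have e0 : (fromBlocks A ((Complex.exp (-(F * Complex.I)) - 1) • K)
      ((Complex.exp (-(F * Complex.I)) - 1) • K)ᴴ (L2 + (c : ℂ) • 1)).det =
      A.det * (L2 + (c : ℂ) • (1 + Kᴴ * A⁻¹ * K)).det := by
    have := invertibleOfIsUnitDet A (Ne.isUnit d1)
    rw [det_fromBlocks₁₁, invOf_eq_nonsing_inv, conjTranspose_smul, smul_mul_assoc,
      smul_mul_smul_comm, smul_add, add_sub_assoc, sub_eq_add_neg (_ • 1), ← neg_smul]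
    congr 5
    rw [mul_comm, Complex.star_def, Complex.mul_conj, ← Complex.ofReal_neg, Complex.normSq_apply,
      ← neg_mul, ← Complex.ofReal_neg, Complex.sub_re, Complex.sub_im, Complex.exp_ofReal_mul_I_re,
      Complex.exp_ofReal_mul_I_im, hc0, cos_neg, sin_neg]
    congr 1
    simp only [Complex.one_re, Complex.one_im]
    linear_combination -cos_sq_add_sin_sq F
  refine ⟨by rw [e0]; exact mul_ne_zero d1 d2, ?_⟩
  have e1 : ∀ X Y : Matrix ι ι ℂ, rt (X * (c : ℂ) • Y) = c * rt (X * Y) := fun X Y => by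
    rw [mul_smul_comm, rt_smul]
  rw [ld, e0, ← det_mul, ← ld, ld_mul d1 d2]
  rw [e1, mul_one] at b1
  rw [e1, mul_add, mul_one, rt_add] at b2
  generalize L2⁻¹ = G at *
  have G0 := hs_nonneg G
  have r1 : |rt L1⁻¹| ≤ ε ^ 2 * σ * σ :=
    (rt_hs _).trans (mul_le_mul hc g1 (hs_nonneg _) (by positivity))
  have r2 : |rt G| ≤ ε ^ 2 * σ * σ := (rt_hs _).trans (by gcongr)
  have q : ∀ x : ℝ, x ^ 2 ≤ √(Fintype.card ι) * hs G → x ≤ ε * σ := fun x hx =>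
    (abs_le_of_sq_le_sq' (hx.trans ((mul_le_mul hc g2 G0 (by positivity)).trans_eq (by ring)))
      (by positivity)).2
  obtain ⟨R, eR, hR⟩ : ∃ R, K = ((4 : ℝ) : ℂ) • 1 + R ∧ hs (R * G) ≤ 6 * (ε * σ) := by
    refine ⟨_, eK, ?_⟩
    simp only [add_mul]
    refine (hs_add _ _).trans ((add_le_add ((hs_add _ _).trans (add_le_add ((hs_add _ _).trans
      (add_le_add (qd_mul G _ _) le_rfl)) (qd_mul G _ _))) le_rfl).trans ?_)
    have := (qd_inv G _).trans (q _ q1)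
    have := q _ q0
    have := (qd_ph G F).trans (mul_le_mul Fε g2 G0 ε0)
    simp only [qd] at *
    linarith
  have t1 : |rt (G * (Kᴴ * (A⁻¹ - G) * K))| ≤ 4 * (σ * 4) * (v * (5 * |F|) * σ) := by
    rw [← mul_assoc, rt_comm, ← mul_assoc, ← mul_assoc, mul_assoc K]
    refine (rt_mul_le _ _).trans (mul_le_mul ((hs_mul _ _).trans ?_) ?_ (hs_nonneg _)
      (by positivity))
    · gcongr
      · exact hs_nonneg _
      · refine (hs_mul' _ _).trans ?_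
        rw [l2_opNorm_conjTranspose]; gcongr
    · rw [show A⁻¹ - G = A⁻¹ * (L2 - L1 - (c : ℂ) • 1) * G by
        rw [sub_sub, ← hA, mul_sub, i1, sub_mul, mul_assoc, j1, mul_one, one_mul]]
      refine (hs_mul _ _).trans ?_
      have : ‖L2 - L1 - (c : ℂ) • 1‖ ≤ 5 * |F| := (norm_sub_le _ _).trans (by nlinarith [sq_abs F])
      gcongr
      exact (norm_mul_le _ _).trans (by gcongr)
  have t2 : |rt (Kᴴ * G * (R * G))| ≤ 4 * σ * (6 * (ε * σ)) := by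
    refine (rt_mul_le _ _).trans (mul_le_mul ((hs_mul _ _).trans ?_) hR (hs_nonneg _)
      (by positivity))
    rw [l2_opNorm_conjTranspose]; gcongr
  have t3 : |rt ((R * G)ᴴ * G)| ≤ 6 * (ε * σ) * σ := by
    refine (rt_mul_le _ _).trans ?_
    rw [hs_star]; gcongr
  have e2 : rt (G * (Kᴴ * A⁻¹ * K)) = rt (G * (Kᴴ * (A⁻¹ - G) * K)) + rt (Kᴴ * G * (R * G)) +
      4 * rt ((R * G)ᴴ * G) + 16 * hs G ^ 2 := by
    rw [hs_sq, conjTranspose_mul, hG, ← mul_assoc _ R, rt_comm _ G, ← rt_smul, ← rt_smul, ← rt_add,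
      ← rt_add, ← rt_add, eR]
    simp only [conjTranspose_add, conjTranspose_smul, conjTranspose_one, Complex.star_def,
      Complex.conj_ofReal, mul_add, add_mul, mul_sub, sub_mul, smul_mul_assoc, mul_smul_comm,
      mul_one, one_mul, mul_assoc]
    congr 1; module
  have u1 : |rt (G * (Kᴴ * A⁻¹ * K)) - 16 * hs G ^ 2| ≤ 128 * ε * σ ^ 2 := by
    have : 4 * (σ * 4) * (v * (5 * |F|) * σ) ≤ 80 * ε * σ ^ 2 := by
      nlinarith [mul_le_mul_of_nonneg_right hF (sq_nonneg σ)]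
    rw [abs_le] at t1 t2 t3 ⊢
    constructor <;> linarith [t1.1, t1.2, t2.1, t2.2, t3.1, t3.2]
  have m : ∀ {x y : ℝ}, |x| ≤ y → |c * x| ≤ F ^ 2 * y := fun h => by rw [abs_mul]; gcongr
  have u2 : |(c + F ^ 2) * hs G ^ 2| ≤ ε * F ^ 2 * σ ^ 2 := by
    rw [abs_mul, abs_pow, abs_of_nonneg G0]; gcongr
  have u3 : (F ^ 2 * hs L1⁻¹) ^ 2 ≤ (|F| * ε * σ) ^ 2 := by
    have := hs_nonneg L1⁻¹
    gcongr; exact (le_mul_of_one_le_right (sq_nonneg _) hv).trans Fv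
  have u4 : (17 * (F ^ 2 * v) * hs G) ^ 2 ≤ (17 * (|F| * ε) * σ) ^ 2 := by gcongr
  have u5 : ε ^ 2 * (F * σ) ^ 2 ≤ 1 / 10 * ε * (F * σ) ^ 2 := by rw [sq ε]; gcongr
  have u6 : 0 ≤ ε * (F * σ) ^ 2 := by positivity
  have m1 := abs_le.1 (m r1)
  have m2 := abs_le.1 (m r2)
  have m3 := abs_le.1 (m u1)
  simp only [mul_pow, sq_abs] at u3 u4 u5 u6 b1 b2 ⊢
  rw [abs_le] at b1 b2 u2 ⊢
  constructor <;> linarith [b1.1, b1.2, b2.1, b2.2, u2.1, u2.2, m1.1, m1.2, m2.1, m2.2, m3.1, m3.2]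

end Pool.Agent.Lib.MP_7f377f_mp.RG.Q4.Xi
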