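import Pool.Agent.Lib.MP_7f377f_mp.G.Q4XiG

/-! The one loop coefficient for the vector Laplacian. -/

noncomputable section

namespace Pool.Agent.Lib.MP_7f377f_mp.RG.Q4.Xi

open Finset Real Matrix
open scoped BigOperators

variable [Tw]

theorem S1_SS {N1 N2 : ℕ} (h1 : 0 < N1) (h2 : 0 < N2) {η : ℝ} (η0 : 0 < η) :
    |S1 N1 N2 - SS N1 N2| ≤ η * SS N1 N2 + η⁻¹ := by
  have : Nonempty (Kp (NN N1 N2)) := ⟨fun μ => ⟨0, NN_pos h1 h2 μ⟩⟩
  have key : ∀ k, |ck N1 N2 k * (lam (ang (NN N1 N2) sa k))⁻¹ ^ 2 - (lam (ang _ sa k))⁻¹ ^ 2| ≤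
      η * (lam (ang _ sa k))⁻¹ ^ 2 + η⁻¹ := fun k => by
    have lp : 0 < lam (ang _ sa k) := lt_of_lt_of_le (by positivity) (lam_ge k)
    have a : |ck N1 N2 k - 1| ≤ lam (ang _ sa k) := by
      simp only [ck, lam, Fin.sum_univ_four]
      generalize ang _ sa k = θ
      rw [abs_le]
      constructor <;> nlinarith [cos_le_one (θ 0), cos_le_one (θ 1), cos_le_one (θ 2),
        cos_le_one (θ 3), neg_one_le_cos (θ 0), neg_one_le_cos (θ 1)]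
    rw [← sub_one_mul, abs_mul, abs_sq]
    refine (mul_le_mul_of_nonneg_right a (sq_nonneg _)).trans ?_
    rw [sq, mul_inv_cancel_left₀ lp.ne']
    generalize (lam (ang _ sa k))⁻¹ = x
    refine le_of_mul_le_mul_left ?_ η0
    rw [mul_add, mul_inv_cancel₀ η0.ne']
    nlinarith [sq_nonneg (η * x - 1), sq_nonneg (η * x)]
  have e : η * SS N1 N2 + η⁻¹ = 𝔼 k, (η * (lam (ang (NN N1 N2) sa k))⁻¹ ^ 2 + η⁻¹) := by
    rw [expect_add_distrib, ← mul_expect, expect_const univ_nonempty, SS]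
  rw [e, S1, SS, ← expect_sub_distrib, abs_le, ← expect_neg_distrib]
  exact ⟨expect_le_expect fun k _ => (abs_le.1 (key k)).1,
    expect_le_expect fun k _ => (abs_le.1 (key k)).2⟩

theorem vec_main {ε : ℝ} (hε : 0 < ε) : ∃ N0 : ℕ, ∀ N1 N2 : ℕ, N0 ≤ N2 → N2 ≤ N1 →
    N2 * log N1 ^ 2 ≤ N1 → 1 ≤ ε * log N2 ∧ ∀ F : ℝ, |F| * N1 ^ 2 ≤ 7 →
    ∀ (ι : Type) [Fintype ι] [DecidableEq ι] (T : Fin 4 → unitaryGroup ι ℂ), Mag N1 N2 (2 * F) T →
    (MB F T).det ≠ 0 ∧ |ld (MB F T) - Fintype.card ι * (2 * L0 N1 N2 -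
      11 / (6 * π ^ 2) * F ^ 2 * log N2)| ≤ ε * (Fintype.card ι * log N2 / (N1 : ℝ) ^ 4) := by
  obtain ⟨η, η0, η1, η2⟩ : ∃ η : ℝ, 0 < η ∧ η ≤ 1 / 10 ∧ 20000 * η ≤ ε :=
    ⟨min (1 / 10) (ε / 20000), by positivity, min_le_left _ _,
      by linarith [min_le_right (1 / 10) (ε / 20000)]⟩
  obtain ⟨N0, hN0⟩ := SS_asym η0
  obtain ⟨M, hM⟩ := exists_nat_ge (exp (10 ^ 20 / η ^ 4))
  refine ⟨max N0 M, fun N1 N2 h0 h21 hN => ?_⟩
  have hS := hN0 N1 N2 (le_of_max_le_left h0) h21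
  have v0 : (0 : ℝ) < N2 := (exp_pos _).trans_le (hM.trans (by exact_mod_cast le_of_max_le_right h0))
  have vu : (N2 : ℝ) ≤ N1 := by exact_mod_cast h21
  have u0 : (0 : ℝ) < N1 := by linarith
  have h2 : 0 < N2 := by exact_mod_cast v0
  have hl : 10 ^ 20 ≤ η ^ 4 * log N2 := by
    rw [← div_le_iff₀' (by positivity), le_log_iff_exp_le v0]
    exact hM.trans (by exact_mod_cast le_of_max_le_right h0)
  have ll : log N2 ≤ log N1 := log_le_log v0 vu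
  have s1 := S1_SS (h2.trans_le h21) h2 η0
  have l0 : 0 < log N2 := pos_of_mul_pos_right (a := η ^ 4) (lt_of_lt_of_le (by norm_num) hl) (by positivity)
  have η4 : η ^ 4 ≤ η ^ 2 := pow_le_pow_of_le_one η0.le (by linarith) (by norm_num)
  have hl2 : 10 ^ 20 ≤ η ^ 2 * log N2 := hl.trans (by gcongr)
  have hl1 : 10 ^ 20 ≤ η * log N2 := by nlinarith [mul_pos η0 l0]
  have hl0 : 50 ≤ log N2 := by nlinarith
  refine ⟨by nlinarith, fun F hF ι _ _ T h => ?_⟩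
  have hφ : |2 * F| * (N1 : ℝ) ^ 2 ≤ 14 := by rw [abs_mul, abs_two]; linarith
  obtain ⟨a1, b1⟩ := (h.tw 0 F).sums h2 (by linarith) hN hφ
  obtain ⟨a2, b2⟩ := (h.tw (-F) 0).sums h2 (by linarith) hN hφ
  set c : ℝ := (Fintype.card ι : ℝ)
  have c0 : 0 ≤ c := Nat.cast_nonneg _
  have p1 : log N2 / (8 * π ^ 2) ≤ log N2 / 2 := by gcongr; nlinarith [pi_gt_three]
  have p2 : SS N1 N2 + 10 ^ 20 ≤ log N2 := by nlinarith [(abs_le.1 hS).2]
  have g : ∀ x, 0 ≤ x → |x ^ 2 - c * SS N1 N2| ≤ c * 10 ^ 20 → x ≤ √(c * log N2) := fun x _ hx =>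
    le_sqrt_of_sq_le (by nlinarith [(abs_le.1 hx).2])
  obtain ⟨d, v⟩ := h.vec h2 η1 (σ := √(c * log N2)) (by
      have : (N2 : ℝ) ^ 2 * log N1 ^ 4 ≤ N1 ^ 2 := by
        rw [show (N2 : ℝ) ^ 2 * log N1 ^ 4 = (N2 * log N1 ^ 2) ^ 2 by ring]; gcongr
      have l4 : log N2 ≤ log N1 ^ 4 := ll.trans (le_self_pow₀ (by linarith) (by norm_num))
      refine le_of_mul_le_mul_right ?_ (l0.trans_le l4)
      nlinarith [mul_le_mul_of_nonneg_left this (abs_nonneg F), mul_le_mul_of_nonneg_left l4 η0.le])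
    (g _ (hs_nonneg _) b1) (g _ (hs_nonneg _) b2) (by
      rw [← sqrt_sq (sq_nonneg η), ← sqrt_mul (sq_nonneg _)]
      exact sqrt_le_sqrt (by nlinarith))
  refine ⟨d, ?_⟩
  rw [mul_pow, sq_sqrt (by positivity)] at v
  have F2 : F ^ 2 ≤ 49 * (1 / (N1 : ℝ) ^ 4) := by
    rw [mul_one_div, le_div_iff₀ (by positivity), ← sq_abs]
    nlinarith [mul_nonneg (abs_nonneg F) (sq_nonneg (N1 : ℝ))]
  have e1 : 11 / (6 * π ^ 2) * F ^ 2 * log N2 = 44 / 3 * F ^ 2 * (log N2 / (8 * π ^ 2)) := by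
    field_simp; ring
  have e2 : ∀ a : ℝ, a / (N1 : ℝ) ^ 4 = a * (1 / (N1 : ℝ) ^ 4) := fun a => by ring
  have s2 : |S1 N1 N2 - log N2 / (8 * π ^ 2)| ≤ 3 * (η * log N2) := by
    have : η⁻¹ ≤ η * log N2 := by rw [inv_le_iff_one_le_mul₀ η0]; nlinarith
    have : η * SS N1 N2 ≤ η * log N2 := by gcongr; linarith
    exact (abs_sub_le _ (SS N1 N2) _).trans (by linarith)
  have s3 : |hs (Lap (tw (-F) 0 T))⁻¹ ^ 2 - c * (log N2 / (8 * π ^ 2))| ≤ c * (2 * (η * log N2)) := by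
    refine (abs_sub_le _ _ _).trans ((add_le_add b2 (b := _) (d := c * (η * log N2)) ?_).trans ?_)
    · rw [← mul_sub, abs_mul, abs_of_nonneg c0]; gcongr
    · nlinarith
  rw [e1, e2]
  rw [e2] at a1 a2
  generalize 1 / (N1 : ℝ) ^ 4 = w at *
  have w0 : 0 ≤ w := by nlinarith [sq_nonneg F]
  have m : ∀ {x y : ℝ}, |x| ≤ y → |F ^ 2 * x| ≤ 49 * w * y := fun h => by
    rw [abs_mul, abs_of_nonneg (sq_nonneg F)]; gcongr
  have m1 := abs_le.1 (m s3)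
  have m2 := abs_le.1 (m (x := c * (S1 N1 N2 - log N2 / (8 * π ^ 2))) (y := c * (3 * (η * log N2)))
    (by rw [abs_mul, abs_of_nonneg c0]; gcongr))
  have m3 : 300 * η * (F ^ 2 * (c * log N2)) ≤ 300 * η * (49 * w * (c * log N2)) := by gcongr
  have m4 : c * (10 ^ 20 * w) ≤ c * (η * log N2 * w) := by gcongr
  have m5 : 20000 * η * (c * log N2 * w) ≤ ε * (c * log N2 * w) := by gcongr
  have m6 : 0 ≤ η * (c * log N2 * w) := by positivity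
  rw [abs_le] at a1 a2 v ⊢
  constructor <;> linarith [a1.1, a1.2, a2.1, a2.2, v.1, v.2, m1.1, m1.2, m2.1, m2.2]

end Pool.Agent.Lib.MP_7f377f_mp.RG.Q4.Xi
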