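import Pool.Agent.Lib.MP_7f377f_mp.G.Q4XiI0
import Pool.Agent.Lib.MP_7f377f_mp.G.Q4AfB
import Pool.Agent.Lib.MP_7f377f_mp.G.Q4Gap

/-! The magnetic translations of an abelian background. -/

noncomputable section

namespace Pool.Agent.Lib.MP_7f377f_mp.RG.Q4.Xi

variable [GD]

open Finset Matrix Complex

theorem split_det {α β κ : Type} [Fintype α] [Fintype β] [Fintype κ] [DecidableEq α] [DecidableEq β]
    [DecidableEq κ] (g : α ⊕ β × Fin 2 → κ) (hg : g.Bijective) {A : Matrix κ κ ℝ} (hA : A.IsSymm)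
    {M : Matrix β β ℂ} (hM : M.IsHermitian) {n : (α → ℝ) → ℝ}
    (h : ∀ (a : κ → ℝ) (z : β → ℂ), (∀ i, z i = ⟨a (g (.inr (i, 0))), a (g (.inr (i, 1)))⟩) →
      a ⬝ᵥ A *ᵥ a = n (fun i => a (g (.inl i))) + (ip z (M *ᵥ z)).re) :
    ∃ B : Matrix α α ℝ, B.IsSymm ∧ (∀ y, y ⬝ᵥ B *ᵥ y = n y) ∧ A.det = B.det * ‖M.det‖ ^ 2 := by
  let e := Equiv.ofBijective g hg
  have h1 : ∀ y, y ⬝ᵥ (A.submatrix e e).toBlocks₁₁ *ᵥ y = n y := fun y => by
    have e1 : ∀ i, (Sum.elim y 0 ∘ e.symm) (g i) = Sum.elim y 0 i := fun i =>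
      congrArg _ (e.symm_apply_apply i)
    have := h (Sum.elim y 0 ∘ e.symm) 0 fun _ => by simp only [e1]; rfl
    simp only [e1] at this
    rw [comp_equiv_symm_dotProduct, ← show _ = (A *ᵥ _) ∘ e from submatrix_mulVec_equiv A _ e e,
      ← fromBlocks_toBlocks (A.submatrix e e), fromBlocks_mulVec, sumElim_dotProduct_sumElim]
      at this
    simpa [ip] using this
  have s1 : (A.submatrix e e).toBlocks₁₁.IsSymm := (hA.submatrix e).submatrix _
  obtain ⟨A', s2, d, f⟩ := split_mod g hg s1 hM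
  exact ⟨_, s1, h1, d ▸ congrArg det (symm_ext hA s2 fun a => by
    rw [h a _ fun _ => rfl, f a _ fun _ => rfl, h1])⟩

variable {N : Fin 4 → ℕ} [∀ i, NeZero (N i)] {F : ℝ} {θ : Lk → Ang}

/-- the magnetic translations of the background -/
def TT (n : ℤ) (N : Fin 4 → ℕ) [∀ i, NeZero (N i)] (θ : Lk → Ang) (μ : Fin 4) :
    unitaryGroup (TS N) ℂ :=
  ws (fun x => Gp.ph n (θ (lf x, μ))) (fun _ => Gp.norm_ph _ _) (Pi.single μ 1)

theorem lf_add {α : Type} {U : Lk → α} (h : PV N U) (x : TS N) (μ ν : Fin 4) :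
    U (lf (x + Pi.single μ 1), ν) = U (lf x + un μ, ν) := h.apply_eq (by simp [cs_add_un]) _

theorem TT_comm (h : Bg N F θ) (n : ℤ) (μ ν : Fin 4) :
    TT n N θ μ * TT n N θ ν = ph (n / GD.hh * kF F μ ν) * (TT n N θ ν * TT n N θ μ) :=
  uni_ext fun f x => by
  have := h.curv (lf x) μ ν
  rw [dd, sub_sub, sub_eq_iff_eq_add] at this
  simp only [TT, Submonoid.coe_mul, ← mulVec_mulVec, ws_mulVec, ph_val, smul_mulVec, one_mulVec,
    Pi.smul_apply, smul_eq_mul, lf_add h.per, ← mul_assoc, ← Gp.ph_add, this,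
    add_right_comm x (Pi.single μ 1)]
  rw [Gp.ph_add, add_comm (θ _), Gp.ph_coe]

theorem TT_pow (h : Bg N F θ) (n : ℤ) (μ : Fin 4) (hμ : ∀ ν, kF F ν μ = 0) {w : ℝ}
    (hw : ∑ s ∈ range (N μ), θ ((s : ℤ) • un μ, μ) = w) :
    TT n N θ μ ^ N μ = ph (n / GD.hh * w) :=
  uni_ext fun f x => by
  have a := Gp.st_const (fun y => ∑ s ∈ range (N μ), θ (y + (s : ℤ) • un μ, μ)) (fun y ν => by
    have b : ∀ s : ℕ, θ (y + un ν + (s : ℤ) • un μ, μ) - θ (y + (s : ℤ) • un μ, μ) =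
        θ (y + ((s + 1 : ℕ) : ℤ) • un μ, ν) - θ (y + (s : ℤ) • un μ, ν) := fun s => by
      have := h.curv (y + (s : ℤ) • un μ) ν μ
      rw [dd, hμ, Ang.coe_zero] at this
      rw [add_right_comm y, Nat.cast_succ, add_smul, one_smul, ← add_assoc, ← sub_eq_zero, ← this]
      abel
    rw [← sub_eq_zero, ← sum_sub_distrib, sum_congr rfl fun s _ => b s,
      sum_range_sub fun s : ℕ => θ (y + (s : ℤ) • un μ, ν)]
    simpa [sh, sub_eq_zero] using congrFun (h.per μ) (y, ν)) (lf x)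
  simp only [zero_add, hw] at a
  rw [TT, ws_pow, Gp.sm_single, Gp.ph_sum, sum_congr rfl fun s _ => by
    rw [← cs_lf x, ← Gp.cs_add_un, Gp.pv_lf h.per], a, Gp.ph_coe, ph_val, smul_mulVec, one_mulVec,
    add_zero]
  rfl

/-- the flux seen by the component `k` -/
def Fk (F : ℝ) (k : Fin GD.d) : ℝ := GD.q k / GD.hh * F / 2

/-- the twist seen by a charged component -/
@[instance_reducible] def twk (k : Chg) : Tw := ⟨GD.q k / 3, by
    have : (1 : ℝ) ≤ GD.q k := by exact_mod_cast k.2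
    linarith, by
    have : (GD.q k : ℝ) ≤ 2 := by exact_mod_cast (abs_le.1 (GD.q_le k)).2
    linarith⟩

theorem mag_TT {n1 n2 : ℕ} [NeZero n1] [NeZero n2] (h : Bg (Q4.NN n1 n2) F θ) (k : Chg) :
    @Mag _ _ _ (twk k) n1 n2 (2 * Fk F k) (TT (GD.q k) (Q4.NN n1 n2) θ) := by
  have z : (ph 0 : unitaryGroup (TS (Q4.NN n1 n2)) ℂ) = 1 := Subtype.ext (by simp [ph_val])
  have h0 : GD.hh ≠ 0 := hh_pos.ne'
  have c : ∀ μ ν, kF F μ ν = 0 → Commute (TT (GD.q k) _ θ μ) (TT (GD.q k) (Q4.NN n1 n2) θ ν) :=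
    fun μ ν e => by simpa [e, z, commute_iff_eq] using TT_comm h _ μ ν
  refine @Mag.mk _ _ _ (twk k) _ _ _ _ ⟨ph_comm _, ?_, c _ _ (by simp [kF]), c _ _ (by simp [kF]),
    c _ _ (by simp [kF]), c _ _ (by simp [kF]), c _ _ (by simp [kF])⟩ ?_ ?_ fun a ha => ?_
  · rw [TT_comm h _ 0 1, Fk]
    congr 2; simp only [kF, and_self, if_true]; field_simp
  · exact (TT_pow h _ 2 (by simp [kF]) (w := 0) h.hol2).trans (by rw [mul_zero, z])
  · refine (TT_pow h _ 3 (by simp [kF]) h.hol3).trans (congrArg _ ?_)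
    change _ = 2 * Real.pi * (GD.q k / 3)
    rw [twA]; field_simp
  · have s : ∀ μ, Sf (Pi.single μ 1) (TT (GD.q k) (Q4.NN n1 n2) θ μ) := fun μ x y hy => if_neg hy
    have t := ((((s 0).zpow (a 0)).mul ((s 1).zpow (a 1))).mul ((s 2).zpow (a 2))).mul
      ((s 3).zpow (a 3))
    refine sum_eq_zero fun x _ => t x x fun hx => ha fun μ => ?_
    have := congrFun (left_eq_add.1 hx) μ
    refine (ZMod.intCast_zmod_eq_zero_iff_dvd _ (Q4.NN n1 n2 μ)).1 ?_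
    fin_cases μ <;> simpa using this

end Pool.Agent.Lib.MP_7f377f_mp.RG.Q4.Xi
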