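import Pool.Agent.Lib.MP_7f377f_mp.G.Q4XiH

/-! Real forms of Hermitian matrices, the Weitzenboeck identity, weighted shifts. -/

noncomputable section

namespace Pool.Agent.Lib.MP_7f377f_mp.RG.Q4.Xi

open Finset Matrix Complex

section real
variable {α β κ : Type} [Fintype α] [Fintype β] [Fintype κ] [DecidableEq α] [DecidableEq β]
  [DecidableEq κ]

/-- complex numbers as real matrices -/
def cm : ℂ →+* Matrix (Fin 2) (Fin 2) ℝ where
  toFun z := !![z.re, -z.im; z.im, z.re]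
  map_one' := by simp [one_fin_two]
  map_mul' z w := by simp; constructor <;> constructor <;> ring
  map_zero' := by ext i j; fin_cases i <;> fin_cases j <;> simp
  map_add' z w := by simp [add_comm]

/-- the scalar product -/
def ip (u v : β → ℂ) : ℂ := star u ⬝ᵥ v

theorem split_mod (g : α ⊕ β × Fin 2 → κ) (hg : g.Bijective) {B : Matrix α α ℝ} (hB : B.IsSymm)
    {M : Matrix β β ℂ} (hM : M.IsHermitian) :
    ∃ A : Matrix κ κ ℝ, A.IsSymm ∧ A.det = B.det * ‖M.det‖ ^ 2 ∧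
    ∀ (a : κ → ℝ) (z : β → ℂ), (∀ i, z i = ⟨a (g (.inr (i, 0))), a (g (.inr (i, 1)))⟩) →
      a ⬝ᵥ A *ᵥ a = (fun i => a (g (.inl i))) ⬝ᵥ B *ᵥ (fun i => a (g (.inl i))) +
        (ip z (M *ᵥ z)).re := by
  let e := Equiv.ofBijective g hg
  have s2 : ((M.map cm).comp β β _ _ ℝ).IsSymm := by
    ext ⟨i, k⟩ ⟨j, l⟩
    fin_cases k <;> fin_cases l <;> simp [cm, ← hM.apply j i]
  refine ⟨(fromBlocks B 0 0 ((M.map cm).comp β β _ _ ℝ)).submatrix e.symm e.symm,
    (hB.fromBlocks transpose_zero s2).submatrix _, ?_, fun a z hz => ?_⟩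
  · rw [det_submatrix_equiv_self, det_fromBlocks_zero₂₁, ← det_det, Complex.sq_norm]
    simp [cm, normSq_apply]
  · rw [submatrix_mulVec_equiv, dotProduct_comm, comp_equiv_symm_dotProduct, dotProduct_comm,
      Equiv.symm_symm, ← Sum.elim_comp_inl_inr (a ∘ e), fromBlocks_mulVec,
      sumElim_dotProduct_sumElim]
    simp only [Sum.elim_comp_inl, Sum.elim_comp_inr, zero_mulVec, add_zero, zero_add]
    congr 1
    simp only [ip, dotProduct, mulVec, Fintype.sum_prod_type, Fin.sum_univ_two, re_sum, mul_sum,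
      ← sum_add_distrib, hz]
    refine sum_congr rfl fun i _ => sum_congr rfl fun j _ => ?_
    simp [cm, e, hz]; ring

omit [DecidableEq β] in
theorem ip_block (M : κ → Matrix β β ℂ) (z : β × κ → ℂ) :
    ip z (blockDiagonal M *ᵥ z) = ∑ k, ip (fun i => z (i, k)) (M k *ᵥ fun i => z (i, k)) := by
  simp only [ip, dotProduct, mulVec, Fintype.sum_prod_type_right, blockDiagonal_apply, ite_mul,
    zero_mul, sum_comm (γ := κ), Pi.star_apply]
  simp

omit [Fintype β] [DecidableEq β] [Fintype κ] in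
theorem herm_block {M : κ → Matrix β β ℂ} (h : ∀ k, (M k).IsHermitian) :
    (blockDiagonal M).IsHermitian := by
  rw [IsHermitian, blockDiagonal_conjTranspose]
  exact congrArg _ (funext h)

omit [DecidableEq β] in
theorem ip_mulVec (X : Matrix β β ℂ) (u v : β → ℂ) : ip (X *ᵥ u) v = ip u (Xᴴ *ᵥ v) := by
  rw [ip, ip, star_mulVec, dotProduct_mulVec]

omit [DecidableEq β] in
theorem ip_self (u : β → ℂ) : (ip u u).re = ∑ i, ‖u i‖ ^ 2 := by
  simp [ip, dotProduct, Complex.sq_norm, normSq_apply]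

omit [DecidableEq β] in
theorem ip_im (u v : β → ℂ) : (-I * (ip u v - ip v u)).re =
    2 * ∑ i, ((u i).re * (v i).im - (u i).im * (v i).re) := by
  simp only [ip, dotProduct, ← sum_sub_distrib, mul_sum, re_sum]
  exact sum_congr rfl fun i _ => by simp; ring

/-- the gauge fixed Hessian of the charged field -/
def M4 (F : ℝ) (T : Fin 4 → unitaryGroup β ℂ) : Matrix ((β ⊕ β) ⊕ β ⊕ β) ((β ⊕ β) ⊕ β ⊕ β) ℂ :=
  fromBlocks (MB F T) 0 0 (fromBlocks (Lap T) 0 0 (Lap T))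

theorem Lap_herm (T : Fin 4 → unitaryGroup β ℂ) : (Lap T).IsHermitian := by
  simp [IsHermitian, Lap, conjTranspose_sum]

theorem M4_herm (F : ℝ) (T : Fin 4 → unitaryGroup β ℂ) : (M4 F T).IsHermitian := by
  have h : (((2 * Real.cos F - 2 : ℝ) : ℂ) • (1 : Matrix β β ℂ)).IsHermitian :=
    isHermitian_one.smul (by simp [IsSelfAdjoint, -ofReal_cos])
  exact (((Lap_herm _).add h).fromBlocks rfl ((Lap_herm _).add h)).fromBlocks conjTranspose_zero
    ((Lap_herm _).fromBlocks conjTranspose_zero (Lap_herm _))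

/-- covariant curl -/
def crl (T : Fin 4 → unitaryGroup β ℂ) (a : Fin 4 → β → ℂ) (μ ν : Fin 4) : β → ℂ :=
  a μ + (T μ).1 *ᵥ a ν - (T ν).1 *ᵥ a μ - a ν

theorem weitz {F : ℝ} {T : Fin 4 → unitaryGroup β ℂ} (h : Heis (ph (2 * F)) T)
    (a : Fin 4 → β → ℂ) (z : (β ⊕ β) ⊕ β ⊕ β → ℂ)
    (hz : z = Sum.elim (Sum.elim (a 0) (a 1)) (Sum.elim (a 2) (a 3))) :
    ip z (M4 F T *ᵥ z) = Real.cos F * ip (crl T a 0 1) (crl T a 0 1) +
      ip (crl T a 0 2) (crl T a 0 2) + ip (crl T a 0 3) (crl T a 0 3) +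
      ip (crl T a 1 2) (crl T a 1 2) + ip (crl T a 1 3) (crl T a 1 3) +
      ip (crl T a 2 3) (crl T a 2 3) + Real.sin F * (-I * (ip ((T 1).1 *ᵥ a 0) (a 1) -
        ip (a 1) ((T 1).1 *ᵥ a 0)) + -I * (ip (a 0) ((T 0).1 *ᵥ a 1) - ip ((T 0).1 *ᵥ a 1) (a 0)) -
        -I * (ip ((T 1).1 *ᵥ a 0 + a 1) (a 0 + (T 0).1 *ᵥ a 1) -
          ip (a 0 + (T 0).1 *ᵥ a 1) ((T 1).1 *ᵥ a 0 + a 1))) +
      ip (∑ μ, (a μ - (T μ).1ᴴ *ᵥ a μ)) (∑ μ, (a μ - (T μ).1ᴴ *ᵥ a μ)) := by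
  have u1 : ∀ μ, (T μ).1ᴴ * (T μ).1 = 1 := fun μ => (T μ).2.1
  have u2 : ∀ μ, (T μ).1 * (T μ).1ᴴ = 1 := fun μ => (T μ).2.2
  have c : ∀ {μ ν}, Commute (T μ) (T ν) → (T μ).1 * (T ν).1ᴴ = (T ν).1ᴴ * (T μ).1 ∧
      (T ν).1 * (T μ).1ᴴ = (T μ).1ᴴ * (T ν).1 := fun h =>
    ⟨congrArg Subtype.val h.inv_right.eq, congrArg Subtype.val h.inv_left.eq.symm⟩
  set e := exp (F * I) with he
  have e0 : e ≠ 0 := exp_ne_zero _
  have e1 : exp (-(F * I)) = e⁻¹ := exp_neg _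
  have e2 : star e = e⁻¹ := by rw [he, star_def, ← exp_conj, ← e1]; simp
  have e3 : (Real.cos F : ℂ) = (e + e⁻¹) / 2 := by rw [ofReal_cos, cos, neg_mul, e1]
  have e4 : (Real.sin F : ℂ) = (e⁻¹ - e) * I / 2 := by rw [ofReal_sin, sin, neg_mul, e1]
  have c1 : (T 0).1 * (T 1).1ᴴ = (e⁻¹ * e⁻¹) • ((T 1).1ᴴ * (T 0).1) := by
    have := congrArg Subtype.val (h.swap (-1) 1)
    simp only [_root_.zpow_neg, zpow_one, mul_one, neg_neg, Submonoid.coe_mul, ph_val] at this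
    change (T 1).1ᴴ * _ = _ * (_ * (T 1).1ᴴ) at this
    rw [this, smul_mul_assoc, one_mul, smul_smul, show exp ((2 * F : ℝ) * I) = e * e by
      rw [← exp_add]; congr 1; push_cast; ring]
    field_simp
    rw [one_smul]
  have c2 : (T 1).1 * (T 0).1ᴴ = (e * e) • ((T 0).1ᴴ * (T 1).1) := by
    simpa [e2] using congrArg conjTranspose c1
  have l : ∀ u v w : β → ℂ, ip (u + v) w = ip u w + ip v w ∧ ip (u - v) w = ip u w - ip v w ∧
      ip w (u + v) = ip w u + ip w v ∧ ip w (u - v) = ip w u - ip w v := fun u v w => by simp [ip]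
  have l' : ∀ (u v : β → ℂ) (c : ℂ), ip u (c • v) = c * ip u v := fun u v w => by simp [ip]
  have t : ∀ (s : ℝ) (U : unitaryGroup β ℂ), (ph s * U).1 = exp (s * I) • U.1 := fun s U => by
    simp [ph_val]
  have i : ∀ U : unitaryGroup β ℂ, (U⁻¹).1 = U.1ᴴ := fun _ => rfl
  rw [hz, M4, MB, ip, Function.star_sumElim, Function.star_sumElim, Function.star_sumElim]
  simp only [fromBlocks_mulVec, sumElim_dotProduct_sumElim, Sum.elim_comp_inl, Sum.elim_comp_inr,
    zero_mulVec, add_zero, zero_add, ← ip.eq_1, Lap, sq_eq]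
  simp only [KK, tw, Fin.sum_univ_four, cons_val_zero, cons_val_one, Matrix.cons_val, t,
    Submonoid.coe_mul _ (_⁻¹), i, ph_val, crl, ofReal_neg, neg_mul, e1, ← he, ofReal_zero, zero_mul,
    exp_zero, one_smul, conjTranspose_smul, conjTranspose_add, conjTranspose_mul,
    conjTranspose_conjTranspose, conjTranspose_one, mul_smul_comm, star_sub,
    star_inv₀, e2, inv_inv, star_one, ofReal_sub, ofReal_mul, ofReal_ofNat, e3, e4,
    ← one_add_one_eq_two (R := Matrix β β ℂ), add_mulVec, sub_mulVec, smul_mulVec, one_mulVec,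
    l, l', ip_mulVec, mulVec_mulVec, u1, u2, c h.c02, c h.c03, c h.c12,
    c h.c13, c h.c23, c1, c2]
  field_simp
  ring_nf
  simp only [I_sq]
  ring

open scoped Matrix.Norms.L2Operator in
theorem ip_le (W : Matrix β β ℂ) (u v : β → ℂ) :
    2 * |(ip u (W *ᵥ v)).re| ≤ ‖W‖ * ((ip u u).re + (ip v v).re) := by
  have e : ∀ u v : β → ℂ, ip u v = inner ℂ (WithLp.toLp 2 u : EuclideanSpace ℂ β)
      (WithLp.toLp 2 v) := fun u v => by
    rw [EuclideanSpace.inner_eq_star_dotProduct, dotProduct_comm]; rfl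
  have n : ∀ u : β → ℂ, (ip u u).re = ‖(WithLp.toLp 2 u : EuclideanSpace ℂ β)‖ ^ 2 := fun u => by
    rw [e, ← inner_self_eq_norm_sq (𝕜 := ℂ)]; rfl
  have a := (abs_re_le_norm _).trans ((norm_inner_le_norm (𝕜 := ℂ) (WithLp.toLp 2 u) _).trans
    (mul_le_mul_of_nonneg_left ((op W).le_opNorm (WithLp.toLp 2 v)) (norm_nonneg _)))
  rw [n, n, e]
  change |(inner ℂ _ (WithLp.toLp 2 (W *ᵥ v))).re| ≤ _ * (‖W‖ * _) at a
  nlinarith [mul_nonneg (norm_nonneg W) (sq_nonneg (‖(WithLp.toLp 2 u : EuclideanSpace ℂ β)‖ -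
    ‖(WithLp.toLp 2 v : EuclideanSpace ℂ β)‖))]

theorem Gap.ip {γ : ℝ} {A : Matrix β β ℂ} (h : Gap γ A) (u : β → ℂ) :
    γ * (ip u u).re ≤ (ip u (A *ᵥ u)).re := by
  have := h.2 (WithLp.toLp 2 u)
  rwa [← inner_self_eq_norm_sq (𝕜 := ℂ), EuclideanSpace.inner_eq_star_dotProduct,
    EuclideanSpace.inner_eq_star_dotProduct, dotProduct_comm,
    dotProduct_comm (WithLp.ofLp (op _ _))] at this

open scoped Matrix.Norms.L2Operator in
/-- the gap of the gauge fixed Hessian -/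
theorem Mag.gap4 [Tw] {N1 N2 : ℕ} {φ F : ℝ} {T : Fin 4 → unitaryGroup β ℂ} (h : Mag N1 N2 φ T)
    (h2 : 0 < N2) (hF : |F| * N2 ^ 2 ≤ 1 / 10) (a : Fin 4 → β → ℂ) (z : (β ⊕ β) ⊕ β ⊕ β → ℂ)
    (hz : z = Sum.elim (Sum.elim (a 0) (a 1)) (Sum.elim (a 2) (a 3))) :
    ∑ μ, (Xi.ip (a μ) (a μ)).re ≤ N2 ^ 2 * (Xi.ip z (M4 F T *ᵥ z)).re := by
  have hv : (1 : ℝ) ≤ N2 ^ 2 := one_le_pow₀ (by exact_mod_cast h2)
  have g0 := ((h.tw 0 F).gap h2).ip (a 0)
  have g1 := ((h.tw (-F) 0).gap h2).ip (a 1)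
  have g2 := (h.gap h2).ip (a 2)
  have g3 := (h.gap h2).ip (a 3)
  have n : ‖(exp (-(F * I)) - 1) • KK F T‖ ≤ |F| * 4 := by
    rw [norm_smul, ← neg_mul, ← ofReal_neg, mul_comm _ I]
    exact mul_le_mul (Real.norm_exp_I_mul_ofReal_sub_one_le.trans_eq (abs_neg _)) (norm_KK F T)
      (norm_nonneg _) (abs_nonneg _)
  have k1 := ip_le ((exp (-(F * I)) - 1) • KK F T) (a 0) (a 1)
  have k2 := ip_le ((exp (-(F * I)) - 1) • KK F T)ᴴ (a 1) (a 0)
  rw [l2_opNorm_conjTranspose] at k2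
  have p : ∀ μ, 0 ≤ (Xi.ip (a μ) (a μ)).re := fun μ => by rw [ip_self]; positivity
  have c1 : -F ^ 2 ≤ 2 * Real.cos F - 2 := by nlinarith [Real.one_sub_sq_div_two_le_cos (x := F)]
  rw [hz, M4, MB, Xi.ip, Function.star_sumElim, Function.star_sumElim, Function.star_sumElim]
  simp only [fromBlocks_mulVec, sumElim_dotProduct_sumElim, Sum.elim_comp_inl, Sum.elim_comp_inr,
    zero_mulVec, add_zero, zero_add, add_mulVec, dotProduct_add, smul_mulVec _ (1 : Matrix β β ℂ),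
    one_mulVec, dotProduct_smul, smul_eq_mul, add_re, re_ofReal_mul, ← Xi.ip.eq_1,
    Fin.sum_univ_four]
  generalize (exp (-(F * I)) - 1) • KK F T = K at *
  generalize 2 * Real.cos F - 2 = c at *
  generalize (N2 : ℝ) ^ 2 = v at *
  have p0 := p 0
  have p1 := p 1
  have F0 := abs_nonneg F
  rw [div_mul_eq_mul_div, div_le_iff₀' (by linarith)] at g0 g1 g2 g3
  have k3 := k1.trans (mul_le_mul_of_nonneg_right n (by positivity))
  have k4 := k2.trans (mul_le_mul_of_nonneg_right n (by positivity))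
  have k5 := mul_le_mul_of_nonneg_left (neg_abs_le (Xi.ip (a 0) (K *ᵥ a 1)).re) (zero_le_one.trans hv)
  have k6 := mul_le_mul_of_nonneg_left (neg_abs_le (Xi.ip (a 1) (Kᴴ *ᵥ a 0)).re) (zero_le_one.trans hv)
  have k7 := mul_le_mul_of_nonneg_left k3 (zero_le_one.trans hv)
  have k8 := mul_le_mul_of_nonneg_left k4 (zero_le_one.trans hv)
  have k9 := mul_le_mul_of_nonneg_right hF (add_nonneg p0 p1)
  have c2 : -(1 / 10) ≤ v * c := by
    have : |F| ≤ 1 := by nlinarith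
    nlinarith [sq_abs F, mul_le_mul_of_nonneg_left c1 (zero_le_one.trans hv), mul_nonneg F0 F0,
      mul_le_mul_of_nonneg_left this (mul_nonneg F0 (zero_le_one.trans hv))]
  have c3 := mul_le_mul_of_nonneg_right c2 (add_nonneg p0 p1)
  linarith [p 2, p 3]

end real

section shift
variable {G : Type} [AddCommGroup G] [Fintype G] [DecidableEq G]

/-- weighted shifts -/
def ws (θ : G → ℂ) (h1 : ∀ x, ‖θ x‖ = 1) (e : G) : unitaryGroup G ℂ :=
  ⟨of fun x y => if y = x + e then θ x else 0, by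
    rw [mem_unitaryGroup_iff]
    ext x z
    by_cases h : x = z
    · subst h
      simp [Matrix.mul_apply, star_apply, mul_conj, normSq_eq_norm_sq, h1]
    · simp [Matrix.mul_apply, star_apply, h]⟩

theorem ws_mulVec (θ : G → ℂ) (h1 : ∀ x, ‖θ x‖ = 1) (e : G) (f : G → ℂ) (x : G) :
    ((ws θ h1 e).1 *ᵥ f) x = θ x * f (x + e) := by
  simp [ws, mulVec, dotProduct]

theorem ws_pow (θ : G → ℂ) (h1 : ∀ x, ‖θ x‖ = 1) (e : G) (n : ℕ) (f : G → ℂ) (x : G) :
    ((ws θ h1 e ^ n).1 *ᵥ f) x = (∏ s ∈ range n, θ (x + s • e)) * f (x + n • e) := by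
  induction n generalizing f with
  | zero => simp
  | succ n ih =>
    rw [pow_succ, Submonoid.coe_mul, ← mulVec_mulVec, ih, ws_mulVec, prod_range_succ, succ_nsmul,
      add_assoc, mul_assoc]

omit [AddCommGroup G] in
theorem uni_ext {U V : unitaryGroup G ℂ} (h : ∀ f x, (U.1 *ᵥ f) x = (V.1 *ᵥ f) x) : U = V :=
  Subtype.ext (mulVec_injective (funext fun f => funext (h f)))

/-- matrices which shift by `e` -/
def Sf (e : G) (U : unitaryGroup G ℂ) : Prop := ∀ x y, y ≠ x + e → U.1 x y = 0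

theorem Sf.mul {e e' : G} {U V : unitaryGroup G ℂ} (h : Sf e U) (h' : Sf e' V) :
    Sf (e + e') (U * V) := fun x y hy => by
  rw [Submonoid.coe_mul, Matrix.mul_apply]
  refine sum_eq_zero fun z _ => ?_
  by_cases hz : z = x + e
  · rw [h' z y (by rwa [hz, add_assoc]), mul_zero]
  · rw [h x z hz, zero_mul]

theorem Sf.zpow {e : G} {U : unitaryGroup G ℂ} (h : Sf e U) (k : ℤ) : Sf (k • e) (U ^ k) := by
  have h' : Sf (-e) U⁻¹ := fun x y hy => by
    change star (U.1 y x) = 0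
    rw [h y x fun hx => hy (by simp [hx]), star_zero]
  induction k using Int.induction_on with
  | zero => exact fun x y hy => one_apply_ne' (by simpa using hy)
  | succ k ih => rw [_root_.zpow_add_one, add_smul, one_smul]; exact ih.mul h
  | pred k ih => rw [_root_.zpow_sub_one, sub_smul, one_smul, sub_eq_add_neg]; exact ih.mul h'

end shift

end Pool.Agent.Lib.MP_7f377f_mp.RG.Q4.Xi
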