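import Pool.Agent.Lib.MP_7f377f_mp.G.Q4XiI

/-! The Hessian of the Wilson action at an abelian background. -/

noncomputable section

namespace Pool.Agent.Lib.MP_7f377f_mp.RG.Q4.Xi
variable [GD]

open Finset Matrix Asymptotics Filter
open scoped Topology

/-- jets of second order -/
def J2 (f : ℝ → Hc) (c A B : Hc) : Prop :=
  (fun s : ℝ => f s - (c + (s : ℂ) • A + (s : ℂ) ^ 2 • B)) =O[𝓝 0] fun s : ℝ => s ^ 3

theorem big_cube {g : ℝ → Hc} (hg : ContinuousAt g 0) :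
    (fun s : ℝ => (s : ℂ) ^ 3 • g s) =O[𝓝 0] fun s : ℝ => s ^ 3 := by
  have : (fun s : ℝ => (s : ℂ) ^ 3) =O[𝓝 0] fun s : ℝ => s ^ 3 := .of_bound' (by simp)
  simpa using this.smul (hg.tendsto.isBigO_one ℝ)

theorem J2.mul {f g : ℝ → Hc} {c A B c' A' B' : Hc} (h : J2 f c A B) (h' : J2 g c' A' B') :
    J2 (fun s => f s * g s) (c * c') (c * A' + A * c') (c * B' + A * A' + B * c') := by
  have p : ∀ c A B : Hc, (fun s : ℝ => c + (s : ℂ) • A + (s : ℂ) ^ 2 • B) =O[𝓝 0] fun _ => (1 : ℝ) :=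
    fun c A B => (ContinuousAt.tendsto (by fun_prop)).isBigO_one ℝ
  have q : (fun s : ℝ => s ^ 3) =O[𝓝 0] fun _ => (1 : ℝ) :=
    (ContinuousAt.tendsto (by fun_prop)).isBigO_one ℝ
  have a := IsBigO.mul h ((h'.trans q).add (p c' A' B'))
  have b := (p c A B).mul h'
  simp only [mul_one, one_mul] at a b
  refine ((a.add b).add (big_cube (g := fun s => A * B' + B * A' + (s : ℂ) • (B * B'))
    (by fun_prop))).congr_left fun s => ?_
  simp only [mul_add, add_mul, mul_sub, sub_mul, smul_mul_assoc, mul_smul_comm]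
  module

theorem J2.const (c : Hc) : J2 (fun _ => c) c 0 0 := by simpa [J2] using isBigO_zero _ _

theorem J2.neg {f : ℝ → Hc} {c A B : Hc} (h : J2 f c A B) : J2 (fun s => f (-s)) c (-A) B := by
  have := IsBigO.comp_tendsto h (continuous_neg.tendsto' 0 0 neg_zero)
  refine (this.congr_left fun s => ?_).trans (IsBigO.of_bound' (.of_forall fun s => ?_)) <;> simp

theorem J2.ex (b : C3) : J2 (fun s => ex ((s : ℂ) • b)) 1 (io b) ((2⁻¹ : ℂ) • (io b * io b)) := by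
  have r : ∀ᶠ z : ℂ in 𝓝 0, ‖z • b‖ < 1 / 100 :=
    ContinuousAt.eventually_lt (by fun_prop) continuousAt_const (by simp)
  obtain ⟨Ω, h1, h2, h3⟩ := eventually_nhds_iff.1 r
  obtain ⟨p, hp⟩ := (diff_ex (Ω := Ω) (f := fun z => z • b) (by fun_prop) fun z hz => by
    linarith [h1 z hz]).analyticAt (h2.mem_nhds h3)
  have c0 : p.coeff 0 = 1 := by simpa using hp.coeff_zero 1
  have c1 : p.coeff 1 = io b := hp.hasDerivAt.unique (hasDerivAt_iff_isLittleO.2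
    (IsBigO.trans_isLittleO (IsBigO.of_bound (g := fun z : ℂ => z ^ 2) (10 * ‖b‖ ^ 2) (r.mono fun z hz => by
      simpa [io_smul, norm_smul, mul_pow, mul_assoc, mul_comm, mul_left_comm] using
        ex_near le_rfl hz.le)) (by simpa using isLittleO_pow_id (𝕜 := ℂ) one_lt_two)))
  have j : J2 (fun s => RG.ex ((s : ℂ) • b)) 1 (io b) (p.coeff 2) := by
    have := (hp.isBigO_sub_partialSum_pow 3).comp_tendsto
      (Complex.continuous_ofReal.tendsto' 0 0 Complex.ofReal_zero)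
    refine (this.congr_left fun s => ?_).trans (IsBigO.of_bound' (.of_forall fun s => by simp))
    simp [FormalMultilinearSeries.partialSum, sum_range_succ, c0, c1]
  have e : ∀ s : ℝ, RG.ex ((s : ℂ) • b) * RG.ex (((-s : ℝ) : ℂ) • b) = 1 := fun s => by
    rw [Complex.ofReal_neg, neg_smul, ← star_ex]; exact (uni_ex _).mul_star
  obtain ⟨K, hK⟩ := IsBigO.bound (j.mul j.neg)
  obtain ⟨δ, δ0, hδ⟩ := Metric.eventually_nhds_iff.1 hK
  have z := norm_le_zero_iff.1 (le_of_cubic (x := ‖p.coeff 2 - io b * io b + p.coeff 2‖) (C := K)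
    (half_pos δ0) fun s s0 s1 => by
      have := hδ (y := s) (by rw [dist_zero_right, Real.norm_of_nonneg s0.le]; linarith)
      beta_reduce at this
      rw [e] at this
      simpa [norm_smul, abs_of_pos s0, ← sub_eq_add_neg, -smul_add] using this)
  rwa [show p.coeff 2 = (2⁻¹ : ℂ) • (io b * io b) by
    linear_combination (norm := module) (2⁻¹ : ℂ) • z] at j

/-- the trace -/
def tq (q : Hc) : ℂ := GD.t ^ 2 * trace q.m

theorem tq_add (p q : Hc) : tq (p + q) = tq p + tq q := by simp [tq, mul_add]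
theorem tq_smul (c : ℂ) (q : Hc) : tq (c • q) = c * tq q := by simp [tq, mul_left_comm]
theorem tq_comm (p q : Hc) : tq (p * q) = tq (q * p) := by
  simp [tq, trace_mul_comm p.m, add_comm (p.re * _)]
theorem tq_star (q : Hc) : tq (star q) = tq q := by simp [tq]
theorem tq_io (a : C3) (q : Hc) : tq (io a * q) = -RG.dot a (co q) := by
  have h : (io a).mᵀ = -(io a).m := congrArg Un.m (star_io a)
  have h1 := congrArg trace h
  rw [trace_transpose, trace_neg, eq_neg_iff_add_eq_zero, add_self_eq_zero] at h1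
  simp [← bq_io, bq, tq, h, h1]
theorem tq_big : ∃ K, ∀ q, ‖tq q‖ ≤ K * ‖q‖ :=
  let L := LinearMap.toContinuousLinearMap (⟨⟨tq, tq_add⟩, tq_smul⟩ : Hc →ₗ[ℂ] ℂ)
  ⟨_, L.le_opNorm⟩
theorem norm_tq {p q : Hc} (hp : p.re = 0) (hq : q.re = 0) : ‖tq (p * q)‖ ≤ ‖p‖ * ‖q‖ := by
  have := norm_bq (star p) q
  rw [← Un.norm_of_re hq, ← Un.norm_of_re (q := star p) hp, norm_star] at this
  simpa [tq, bq, hp, hq] using this
theorem enq_cS (g : S3) : enq (cS g) = -2 * tq (cS g) := by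
  have := congrArg (fun q => trace (Un.m q)) (uni_cS g).mul_star
  simp only [Un.m_mul, Un.re_star, cS_re, one_smul, Un.m_star, trace_add, trace_transpose, Un.m_one,
    trace_zero] at this
  rw [enq, tq]
  linear_combination (GD.t : ℂ) ^ 2 * this
theorem re_sq (a : C3) : (io a * io a).re = 0 := by simp
theorem re_cS (g : S3) : ((cS g - 1) * (star (cS g) - 1)).re = 0 := by simp
theorem br_nA (b : C3) : io (nA 1) * io b - io b * io (nA 1) =
    io fun k => -(GD.q k / GD.hh : ℝ) * b (GD.tau k) := by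
  have e : ∀ k, eC GD.k0 * eC k - eC k * eC GD.k0 = ((GD.q k / GD.hh : ℝ) : ℂ) • eC (GD.tau k) :=
    fun k => by
      ext i j
      simpa [eC, mul_apply] using congrArg (fun M => ((M i j : ℝ) : ℂ)) (GD.br k)
  refine Un.ext (by simp) ?_
  rw [nA, io_single]
  simp only [Un.m_sub, Un.m_mul, io_re, cq_re, Complex.ofReal_zero, zero_smul, zero_add, io_m]
  rw [show (cq ⟨0, GD.e GD.k0⟩).m = eC GD.k0 from rfl, Finset.mul_sum, Finset.sum_mul, ← sum_sub_distrib]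
  refine Fintype.sum_equiv (Function.Involutive.toPerm _ GD.tau_tau) _ _ fun k => ?_
  rw [mul_smul_comm, smul_mul_assoc, ← smul_sub, e, smul_smul]
  simp [GD.tau_tau, GD.q_tau, mul_comm, neg_div]

theorem tq_neg (q : Hc) : tq (-q) = -tq q := by simpa using tq_smul (-1) q
theorem tq_sub (p q : Hc) : tq (p - q) = tq p - tq q := by
  rw [sub_eq_add_neg, tq_add, tq_neg, sub_eq_add_neg]

theorem sq3 (u : Fin GD.d → ℝ) : ∑ k, u k ^ 2 = ∑ k : Neu, u k ^ 2 + ∑ k : Chg, ‖Gp.cz k u‖ ^ 2 := by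
  rw [← Gp.norm_cx, sum_chg, sum_dIx]

def im2 (k : Fin GD.d) (u w : Fin GD.d → ℝ) : ℝ := u k * w (GD.tau k) - u (GD.tau k) * w k

/-- second order part of the action of a plaquette, up to small errors -/
def qq (κ : ℝ) (u1 u2 u3 u4 : Fin GD.d → ℝ) : ℝ :=
  ∑ k : Neu, (u1 + u2 - u3 - u4) k ^ 2 + ∑ k : Chg, (Real.cos (Fk κ k) *
    ‖Gp.cz k (u1 + u2 - u3 - u4)‖ ^ 2 + Real.sin (Fk κ k) *
      (2 * im2 k u3 u4 + 2 * im2 k u1 u2 - 2 * im2 k (u3 + u4) (u1 + u2)))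

/-- the square of the curl -/
def qc (u1 u2 u3 u4 : Fin GD.d → ℝ) : ℝ := ∑ k, (u1 + u2 - u3 - u4) k ^ 2

/-- the square of the charged components -/
def qu (u1 u2 u3 u4 : Fin GD.d → ℝ) : ℝ :=
  ∑ k : Chg, (‖Gp.cz k u1‖ ^ 2 + ‖Gp.cz k u2‖ ^ 2 + ‖Gp.cz k u3‖ ^ 2 + ‖Gp.cz k u4‖ ^ 2)

theorem abs_Fk (κ : ℝ) (k : Fin GD.d) : |Fk κ k| ≤ |κ| := by
  have a : |(GD.q k : ℝ)| ≤ 2 := by exact_mod_cast GD.q_le k
  have b : |GD.q k / GD.hh| ≤ 2 := by
    rw [abs_div, abs_of_pos hh_pos]; exact (div_le_self (abs_nonneg _) GD.hh1).trans a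
  rw [Fk, abs_div, abs_mul, abs_two]
  nlinarith [abs_nonneg κ]

theorem im_le (k : Fin GD.d) (u1 u2 u3 u4 : Fin GD.d → ℝ) :
    |2 * im2 k u3 u4 + 2 * im2 k u1 u2 - 2 * im2 k (u3 + u4) (u1 + u2)| ≤
      3 * (‖Gp.cz k u1‖ ^ 2 + ‖Gp.cz k u2‖ ^ 2 + ‖Gp.cz k u3‖ ^ 2 + ‖Gp.cz k u4‖ ^ 2) := by
  have e : ∀ u w, |2 * im2 k u w| ≤ ‖Gp.cz k u‖ ^ 2 + ‖Gp.cz k w‖ ^ 2 := fun u w => by
    simp only [Complex.sq_norm, Complex.normSq_apply, Gp.cz, im2, abs_le]
    constructor <;> nlinarith [sq_nonneg (u k + w (GD.tau k)), sq_nonneg (u k - w (GD.tau k)),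
      sq_nonneg (u (GD.tau k) + w k), sq_nonneg (u (GD.tau k) - w k)]
  have : 2 * im2 k (u3 + u4) (u1 + u2) =
      2 * im2 k u3 u1 + 2 * im2 k u3 u2 + 2 * im2 k u4 u1 + 2 * im2 k u4 u2 := by
    simp only [im2, Pi.add_apply]; ring
  simp only [abs_le] at e ⊢
  constructor <;> linarith [e u3 u4, e u1 u2, e u3 u1, e u3 u2, e u4 u1, e u4 u2]

open Af

/-- second order part of the action of a plaquette -/
def qx (κ : ℝ) (u1 u2 u3 u4 : Fin GD.d → ℝ) : ℝ :=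
  -(tq (io (cR (u1 + u2 - u3 - u4)) * io (cR (u1 + u2 - u3 - u4)) * cS (eA κ))).re +
    tnA κ * ∑ k : Chg, GD.q k / GD.hh * (im2 k u3 u4 + im2 k u1 u2 - im2 k (u3 + u4) (u1 + u2))

theorem tq_eA (κ : ℝ) (c : C3) : tq (io c * cS (eA κ)) = -(tnA κ * c GD.k0) := by
  rw [tq_io, ← ch_cS, ch_eA]
  simp [RG.dot, nA_apply, mul_comm]

theorem tq_br (κ : ℝ) (u w : Fin GD.d → ℝ) :
    tq ((io (cR u) * io (cR w) - io (cR w) * io (cR u)) * cS (eA κ)) =
      -(tnA κ * ∑ k : Chg, GD.q k / GD.hh * im2 k u w : ℝ) := by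
  obtain ⟨c, hc⟩ := br_io (cR u) (cR w)
  have e : tq (io c * io (nA 1)) = -c GD.k0 := by rw [tq_io]; simp [RG.dot, nA_apply]
  rw [← hc, sub_mul, tq_sub, mul_assoc, mul_assoc, tq_comm (io (cR w)), mul_assoc, ← tq_sub,
    ← mul_sub, ← neg_sub, br_nA, mul_neg, tq_neg, tq_io, co_io, neg_neg, RG.dot, sum_dIx] at e
  rw [hc, tq_eA, ← neg_neg (c _), ← e, sum_eq_zero fun (k : Neu) _ => by simp [k.2]]
  push_cast
  rw [zero_add, ← sum_neg_distrib]
  congr 2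
  exact sum_congr rfl fun k _ => by simp [cR_apply, im2, GD.q_tau, GD.tau_tau]; ring

theorem plaq (κ : ℝ) (u1 u2 u3 u4 : Fin GD.d → ℝ) : (fun s : ℝ => (enq (ex ((s : ℂ) • cR u1) *
    ex ((s : ℂ) • cR u2) * cS (eA κ) * ex ((s : ℂ) • -cR u3) * ex ((s : ℂ) • -cR u4))).re -
    ((enq (cS (eA κ))).re + s * (2 * tnA κ * (u1 + u2 - u3 - u4) GD.k0) +
      s ^ 2 * qx κ u1 u2 u3 u4)) =O[𝓝 0] fun s : ℝ => s ^ 3 := by
  have h := ((((J2.ex (cR u1)).mul (J2.ex (cR u2))).mul (J2.const (cS (eA κ)))).mul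
    (J2.ex (-cR u3))).mul (J2.ex (-cR u4))
  obtain ⟨K, hK⟩ := tq_big
  refine (((IsBigO.of_bound K (.of_forall fun s => (Complex.abs_re_le_norm _).trans (hK _))).trans
    h).const_mul_left (-2)).congr_left fun s => ?_
  have r : ∀ b : C3, (∀ k, (b k).im = 0) → ∃ g, cS g = ex ((s : ℂ) • b) := fun b hb =>
    ex_real' fun k => by simp [hb]
  obtain ⟨g1, e1⟩ := r (cR u1) fun k => by simp [cR_apply]
  obtain ⟨g2, e2⟩ := r (cR u2) fun k => by simp [cR_apply]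
  obtain ⟨g3, e3⟩ := r (-cR u3) fun k => by simp [cR_apply]
  obtain ⟨g4, e4⟩ := r (-cR u4) fun k => by simp [cR_apply]
  have c : io (cR (u1 + u2 - u3 - u4)) = io (cR u1) + io (cR u2) - io (cR u3) - io (cR u4) := by
    rw [← io_add, ← io_sub, ← io_sub]; congr 1; funext k; simp [cR_apply]
  have c' : ∀ u w, io (cR (u + w)) = io (cR u) + io (cR w) := fun u w => by
    rw [← io_add]; congr 1; funext k; simp [cR_apply]
  have l := congrArg Complex.re (tq_eA κ (cR (u1 + u2 - u3 - u4)))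
  have k1 := congrArg Complex.re (tq_br κ u3 u4)
  have k2 := congrArg Complex.re (tq_br κ u1 u2)
  have k3 := congrArg Complex.re (tq_br κ (u3 + u4) (u1 + u2))
  beta_reduce
  rw [← e1, ← e2, ← e3, ← e4, ← cS_mul, ← cS_mul, ← cS_mul, ← cS_mul, enq_cS, enq_cS, qx]
  simp only [c, c', io_neg, cR_apply, Complex.neg_re, Complex.ofReal_re, ← Complex.ofReal_mul,
    mul_sub, mul_add, sum_sub_distrib, sum_add_distrib] at l k1 k2 k3 ⊢
  generalize io (cR u1) = X1 at *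
  generalize io (cR u2) = X2 at *
  generalize io (cR u3) = X3 at *
  generalize io (cR u4) = X4 at *
  generalize cS (eA κ) = g at *
  have t1 : ∀ X Y, tq (X * (g * Y)) = tq (Y * (X * g)) := fun X Y => by rw [← mul_assoc, tq_comm]
  have t2 : ∀ X Y, tq (g * (X * Y)) = tq (X * (Y * g)) := fun X Y => by rw [tq_comm, mul_assoc]
  simp only [mul_add, add_mul, mul_sub, sub_mul, mul_neg, neg_mul, one_mul, mul_one, mul_zero,
    zero_add, add_zero, neg_neg, smul_mul_assoc, mul_smul_comm, mul_assoc, tq_add, tq_sub, tq_neg,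
    tq_smul, t1, t2, tq_comm g, ← Complex.ofReal_pow, Complex.re_ofReal_mul, Complex.add_re,
    Complex.sub_re, Complex.neg_re, ← Complex.ofReal_inv,
    show (2 : ℂ) = (2 : ℝ) by simp] at l k1 k2 k3 ⊢
  linear_combination 2 * s * l + s ^ 2 * (k1 + k2 - k3)

theorem qx_bd {κ f : ℝ} (h : |κ| ≤ f) (h1 : f ≤ 1) (u1 u2 u3 u4 : Fin GD.d → ℝ) :
    |qx κ u1 u2 u3 u4 - qq κ u1 u2 u3 u4| ≤
      3 * f ^ 2 * qc u1 u2 u3 u4 + 5 * f ^ 3 * qu u1 u2 u3 u4 := by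
  have f0 := (abs_nonneg κ).trans h
  have a1 : |-(tq (io (cR (u1 + u2 - u3 - u4)) * io (cR (u1 + u2 - u3 - u4)) * cS (eA κ))).re -
      qc u1 u2 u3 u4| ≤ 2 * f ^ 2 * qc u1 u2 u3 u4 := by
    have n : ‖io (cR (u1 + u2 - u3 - u4))‖ ^ 2 = qc u1 u2 u3 u4 := by
      simp [norm_io', sq_C3, qc, cR_apply, -Complex.ofReal_add, -Complex.ofReal_sub]
    have d : tq (io (cR (u1 + u2 - u3 - u4)) * io (cR (u1 + u2 - u3 - u4))) = -qc u1 u2 u3 u4 := by
      simp [tq_io, RG.dot, qc, cR_apply, sq]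
    have g : ‖cS (eA κ) - 1‖ ≤ 2 * f := by
      rw [cS, ← cq_one, ← cq_sub]; linarith [(norm_cq ((eA κ).q - 1)).2, norm_eA κ]
    have g' : ‖star (cS (eA κ)) - 1‖ ≤ 2 * f := by rwa [← star_one Hc, ← star_sub, norm_star_Hc]
    have b := (Complex.abs_re_le_norm _).trans ((norm_tq (re_sq (cR (u1 + u2 - u3 - u4)))
      (re_cS (eA κ))).trans (mul_le_mul (norm_mul_le _ _) ((norm_mul_le _ _).trans
        (mul_le_mul g g' (norm_nonneg _) (by positivity))) (norm_nonneg _) (by positivity)))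
    have st := tq_star (io (cR (u1 + u2 - u3 - u4)) * io (cR (u1 + u2 - u3 - u4)) * cS (eA κ))
    rw [star_mul, star_mul, star_io, neg_mul_neg, tq_comm] at st
    rw [← sq ‖_‖, n, sub_mul, mul_sub (cS _), (uni_cS _).mul_star, mul_one, one_mul, mul_sub,
      mul_sub, mul_sub, mul_one, tq_sub, tq_sub, tq_sub, st, d] at b
    simp only [Complex.sub_re, Complex.neg_re, Complex.ofReal_re] at b
    rw [abs_le] at b ⊢
    constructor <;> linarith [b.1, b.2]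
  have a2 : |qc u1 u2 u3 u4 + tnA κ * ∑ k : Chg, GD.q k / GD.hh * (im2 k u3 u4 + im2 k u1 u2 -
      im2 k (u3 + u4) (u1 + u2)) - qq κ u1 u2 u3 u4| ≤ f ^ 2 * ∑ k : Chg,
      ‖Gp.cz k (u1 + u2 - u3 - u4)‖ ^ 2 + 5 * f ^ 3 * qu u1 u2 u3 u4 := by
    rw [qc, sq3, qq, qu, add_assoc, add_sub_add_left_eq_sub, mul_sum, mul_sum, mul_sum,
      ← sum_add_distrib, ← sum_add_distrib, ← sum_sub_distrib]
    refine (abs_sum_le_sum_abs _ _).trans (sum_le_sum fun k _ => ?_)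
    have a := (abs_Fk κ k).trans h
    have b : |1 - Real.cos (Fk κ k)| ≤ f ^ 2 := by
      rw [abs_of_nonneg (sub_nonneg.2 (Real.cos_le_one _))]
      nlinarith [Real.one_sub_sq_div_two_le_cos (x := Fk κ k), sq_abs (Fk κ k), abs_nonneg (Fk κ k)]
    have c : |Fk (tnA κ - κ) k + (Fk κ k - Real.sin (Fk κ k))| ≤ 5 / 3 * f ^ 3 := by
      have c1 := (abs_Fk _ k).trans ((abs_tn_sub κ).trans (pow_le_pow_left₀ (abs_nonneg _) h 3))
      have c2 := Real.sin_bound (a.trans h1)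
      have c3 := pow_le_pow_left₀ (abs_nonneg _) a 3
      have c4 := pow_le_pow_left₀ (abs_nonneg _) a 5
      have c5 := pow_le_pow_of_le_one f0 h1 (show 3 ≤ 5 by norm_num)
      rw [← abs_pow] at c3
      rw [abs_le] at c1 c2 c3 ⊢
      constructor <;> linarith [c1.1, c1.2, c2.1, c2.2, c3.1, c3.2, pow_nonneg f0 3]
    have b' := mul_le_mul_of_nonneg_right b (sq_nonneg ‖Gp.cz k (u1 + u2 - u3 - u4)‖)
    have c' := mul_le_mul c (im_le k u1 u2 u3 u4) (abs_nonneg _) (by positivity)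
    rw [← abs_sq ‖_‖, ← abs_mul, abs_sq] at b'
    rw [← abs_mul] at c'
    refine le_of_eq_of_le (congrArg _ ?_) ((abs_add_le _ _).trans ((add_le_add b' c').trans_eq ?_))
    · simp only [Fk]; ring
    · ring
  have a3 : ∑ k : Chg, ‖Gp.cz k (u1 + u2 - u3 - u4)‖ ^ 2 ≤ qc u1 u2 u3 u4 := by
    rw [qc, sq3]; exact le_add_of_nonneg_left (by positivity)
  rw [qx, abs_le] at *
  constructor <;> linarith [a1.1, a1.2, a2.1, a2.2, mul_le_mul_of_nonneg_left a3 (sq_nonneg f)]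

theorem hol_eq {U1 U4 : Hc} (h1 : Uni U1) (h4 : Uni U4) (U2 U3 : Hc) (A1 A2 A3 A4 : C3) :
    ex A1 * U1 * (ex A2 * U2) * star (ex A3 * U3) * star (ex A4 * U4) =
      ex A1 * ex (adq U1 A2) * (U1 * U2 * star U3 * star U4) * ex (-adq U4 A3) * ex (-A4) := by
  have c : ∀ {U : Hc}, Uni U → ∀ x, star U * (U * x) = x := fun h x => by
    rw [← mul_assoc, h.star_mul, one_mul]
  simp only [← star_ex, ex_adq h1, ex_adq h4, star_mul, star_star, mul_assoc, c h1, c h4]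

variable {N : Fin 4 → ℕ} [∀ i, NeZero (N i)] {F : ℝ} {θ : Lk → Ang}

/-- the field on a link -/
def av (a : IL N → ℝ) (x : TS N) (μ : Fin 4) : Fin GD.d → ℝ := fun k => a ((x, μ), k)

/-- the transported field -/
def tv (θ : Lk → Ang) (a : IL N → ℝ) (x : TS N) (μ ν : Fin 4) : Fin GD.d → ℝ :=
  Rm (eA (θ (lf x, μ))) *ᵥ av a (x + Pi.single μ 1) ν

/-- sums over plaquettes -/
def PS (F : ℝ) (θ : Lk → Ang) (a : IL N → ℝ) (f : ℝ → (u1 u2 u3 u4 : Fin GD.d → ℝ) → ℝ) : ℝ :=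
  ∑ x, ∑ μ, ∑ ν, if μ < ν then
    f (kF F μ ν) (av a x μ) (tv θ a x μ ν) (tv θ a x ν μ) (av a x ν) else 0

section
variable {a : IL N → ℝ} {f g : ℝ → (u1 u2 u3 u4 : Fin GD.d → ℝ) → ℝ}

theorem PS_le (h : ∀ κ u1 u2 u3 u4, |κ| ≤ |F| → f κ u1 u2 u3 u4 ≤ g κ u1 u2 u3 u4) :
    PS F θ a f ≤ PS F θ a g := by
  refine sum_le_sum fun x _ => sum_le_sum fun μ _ => sum_le_sum fun ν _ => ?_
  split_ifs
  exacts [h _ _ _ _ _ (by unfold kF; split_ifs <;> simp), le_rfl]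

theorem PS_mul (c : ℝ) : PS F θ a (fun κ u1 u2 u3 u4 => c * f κ u1 u2 u3 u4) = c * PS F θ a f := by
  simp only [PS, mul_sum, mul_ite, mul_zero]

theorem PS_lin (c d : ℝ) : PS F θ a (fun κ u1 u2 u3 u4 => c * f κ u1 u2 u3 u4 +
    d * g κ u1 u2 u3 u4) = c * PS F θ a f + d * PS F θ a g := by
  simp only [PS, mul_sum, mul_ite, mul_zero, ← sum_add_distrib, ite_add_ite, add_zero]

theorem PS_nonneg (h : ∀ κ u1 u2 u3 u4, 0 ≤ f κ u1 u2 u3 u4) : 0 ≤ PS F θ a f :=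
  sum_nonneg fun _ _ => sum_nonneg fun _ _ => sum_nonneg fun _ _ => by
    split_ifs
    exacts [h _ _ _ _ _, le_rfl]

end

theorem hess0 (h : Bg N F θ) {Q : Matrix (IL N) (IL N) ℝ} {C ρ : ℝ} (hρ : 0 < ρ)
    (hQ : Tay (Q4.SS N wc (ab θ)) Q C ρ) (a : IL N → ℝ) : a ⬝ᵥ Q *ᵥ a = PS F θ a qx := by
  have e : ∀ s : ℝ, Q4.SS N wc (ab θ) (s • a) = ∑ x, ∑ μ, ∑ ν, if μ < ν then
      (enq (ex ((s : ℂ) • cR (av a x μ)) * ex ((s : ℂ) • cR (tv θ a x μ ν)) *
      cS (eA (kF F μ ν)) * ex ((s : ℂ) • -cR (tv θ a x ν μ)) * ex ((s : ℂ) • -cR (av a x ν)))).re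
      else 0 := fun s => by
    simp only [Q4.SS, wc, Complex.re_sum, apply_ite Complex.re, Complex.zero_re]
    refine sum_congr rfl fun x _ => sum_congr rfl fun μ _ => sum_congr rfl fun ν _ => ?_
    have e1 : ∀ μ, pf a (lf x, μ) = cR (av a x μ) := fun μ => by funext k; simp [pf, cR_apply, av]
    have e2 : ∀ μ ν, adq (cS (eA (θ (lf x, μ)))) (pf a (lf x + un μ, ν)) = cR (tv θ a x μ ν) :=
      fun μ ν => by
      funext k; simp only [cR_apply, tv, Rm_mulVec]; congr 1; funext k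
      simp [pf, av, cs_add_un, cR_apply]
    have e3 := congrArg cS (hol_ab θ (lf x) μ ν)
    simp only [h.curv, hol, cS_mul, cS_inv, ab] at e3
    simp only [hol, sh_apply, zero_add, add_comm (un _), Pi.mul_apply, exF, cC, ab, pf_smul,
      Pi.smul_apply, hol_eq (uni_cS _) (uni_cS _), adq_smul, e1, e2, e3, smul_neg]
  have l : ∀ μ ν, ∑ x, (av a x μ + tv θ a x μ ν - tv θ a x ν μ - av a x ν) GD.k0 = 0 := fun μ ν => by
    simp [tv, Gp.Rm_zero _ _ GD.q_k0, sum_add_distrib, Gp.sum_sh fun x => av a x μ GD.k0,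
      Gp.sum_sh fun x => av a x ν GD.k0]
  have b := IsBigO.fun_sum (s := univ) fun (x : TS N) _ => IsBigO.fun_sum (s := univ) fun μ _ =>
    IsBigO.fun_sum (s := univ.filter (μ < ·)) fun ν _ =>
      plaq (kF F μ ν) (av a x μ) (tv θ a x μ ν) (tv θ a x ν μ) (av a x ν)
  have l' : ∑ x, ∑ μ, ∑ ν with μ < ν, 2 * tnA (kF F μ ν) *
      (av a x μ + tv θ a x μ ν - tv θ a x ν μ - av a x ν) GD.k0 = 0 := by
    rw [sum_comm]
    refine sum_eq_zero fun μ _ => ?_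
    rw [sum_comm]
    simp only [← mul_sum, l, mul_zero, sum_const_zero]
  simp only [sum_sub_distrib, sum_add_distrib, ← mul_sum, l', mul_zero, add_zero] at b
  simp only [sum_filter, ← e] at b
  obtain ⟨K, hK⟩ := b.bound
  have k0 := hK.self_of_nhds
  obtain ⟨δ, δ0, hδ⟩ := Metric.eventually_nhds_iff.1 hK
  refine hQ.eq_of hρ (K := |K|) (half_pos δ0) fun s s0 s1 => ⟨s • a, by simp; positivity, ?_⟩
  have := hδ (y := s) (by rw [dist_zero_right, Real.norm_of_nonneg s0.le]; linarith)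
  simp only [zero_smul, zero_pow, norm_zero, mul_zero, norm_le_zero_iff, zero_mul, add_zero,
    sub_eq_zero, ne_eq, OfNat.ofNat_ne_zero, not_false_eq_true] at k0
  rw [k0, sub_sub]
  refine le_trans this ?_
  rw [Real.norm_of_nonneg (by positivity)]
  gcongr; exact le_abs_self K

theorem hess (h : Bg N F θ) (hF : |F| ≤ 1) {Q : Matrix (IL N) (IL N) ℝ} {C ρ : ℝ} (hρ : 0 < ρ)
    (hQ : Tay (Q4.SS N wc (ab θ)) Q C ρ) (a : IL N → ℝ) : |a ⬝ᵥ Q *ᵥ a - PS F θ a qq| ≤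
      3 * F ^ 2 * PS F θ a (fun _ => qc) + 5 * |F| ^ 3 * PS F θ a fun _ => qu := by
  have b : ∀ c : ℝ, |c| = 1 → c * PS F θ a qx + -c * PS F θ a qq ≤
      3 * |F| ^ 2 * PS F θ a (fun _ => qc) + 5 * |F| ^ 3 * PS F θ a fun _ => qu := fun c hc => by
    rw [← PS_lin, ← PS_lin]
    refine PS_le fun κ u1 u2 u3 u4 h => le_trans ?_ (qx_bd h hF u1 u2 u3 u4)
    rw [neg_mul, ← sub_eq_add_neg, ← mul_sub, ← one_mul |_|, ← hc, ← abs_mul]
    exact le_abs_self _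
  rw [hess0 h hρ hQ, abs_le, ← sq_abs]
  constructor <;> linarith [b 1 abs_one, b (-1) (by simp)]

end Pool.Agent.Lib.MP_7f377f_mp.RG.Q4.Xi
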