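import Pool.Agent.Lib.MP_7f377f_mp.G.Q4AfY

/-! Chains of tree data near a deformed Wilson form: definitions. -/

noncomputable section

set_option linter.unusedSectionVars false
variable [Pool.Agent.Lib.MP_7f377f_mp.GD]

namespace Pool.Agent.Lib.MP_7f377f_mp.RG.Q4

open Finset Filter Topology

/-- chains whose densities stay in a fixed neighbourhood of the Wilson form -/
structure Chw (c Kt K0 l n : ℕ) (η : ℝ) (d : ℕ → Td) : Prop where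
  ex : ∀ i ≤ n, (d i).c = c ∧ (d i).Kt = Kt ∧ (d i).K0 = K0 ∧ (d i).l = l
  tr : ∀ i ≤ n, ∃ M j v e, (M = LL l ∨ M = 3 * LL l) ∧ 2⁻¹ ≤ v ∧ v ≤ 2 ∧ 0 ≤ e ∧ e ≤ 1000⁻¹ ∧
    (d i).Tr M j v e ∧ (d i).Ln j v e
  nx : ∀ i < n, ∃ lam : ℝ, |lam - 1| ≤ η ∧ (d (i + 1)).m = lam • (d i).m1 ∧
    (d (i + 1)).T = fun B => (lam : ℂ) * (d i).T1 B

/-- the entry `a, b` of the one loop term at the end of a chain which starts near
`v • (m0 + s • k)` is `E - s * γ` -/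
def AfD (c : ℕ) (k : BF) (a b : V) (x : ℝ) : Prop := ∃ a0, ∀ Kt ≥ a0, ∃ a1, ∀ K0 ≥ a1, ∃ C : ℕ,
  ∀ Ka : ℕ, ∃ (K' l0 : ℕ) (E γ : ℕ → ℝ), Tendsto (fun l => γ l / Real.log (LL l)) atTop (𝓝 x) ∧
    ∀ l ≥ l0, ∀ n ≥ S0 l, n ≤ LL l → ∀ d, Chw c Kt K0 l n ((LL l : ℝ) ^ K')⁻¹ d →
      ∀ v s : ℝ, 2⁻¹ ≤ v → v ≤ 2 → |s| ≤ ((LL l : ℝ) ^ C)⁻¹ →
        Cd ((LL l : ℝ) ^ K')⁻¹ (d 0).m (v • (m0 + s • k)) →
          |(qc (d n).ol a b).re - E l + s * γ l| ≤ ((LL l : ℝ) ^ Ka)⁻¹ + (LL l : ℝ) ^ C * s ^ 2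

/-- the quadratic form with weights on the planes -/
def kW (w : Fin 4 → Fin 4 → ℝ) : BF :=
  LinearMap.mk₂ ℝ (fun a b => ∑ μ, ∑ ν, (if μ < ν then w μ ν else 0) * (dd a 0 μ ν * dd b 0 μ ν))
    (fun a b c => by
      simp only [dd, Pi.add_apply, ← sum_add_distrib]
      exact sum_congr rfl fun _ _ => sum_congr rfl fun _ _ => by ring)
    (fun a b c => by
      simp only [dd, Pi.smul_apply, smul_eq_mul, mul_sum]
      exact sum_congr rfl fun _ _ => sum_congr rfl fun _ _ => by ring)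
    (fun a b c => by
      simp only [dd, Pi.add_apply, ← sum_add_distrib]
      exact sum_congr rfl fun _ _ => sum_congr rfl fun _ _ => by ring)
    fun a b c => by
      simp only [dd, Pi.smul_apply, smul_eq_mul, mul_sum]
      exact sum_congr rfl fun _ _ => sum_congr rfl fun _ _ => by ring

/-- the plaquette density with weights -/
def pW (w : Fin 4 → Fin 4 → ℝ) (U : Cf) : ℂ :=
  ∑ μ, ∑ ν, ((if μ < ν then w μ ν else 0 : ℝ) : ℂ) * enq (hol star U 0 μ ν)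

/-- its non quadratic part -/
def tW (w : Fin 4 → Fin 4 → ℝ) (B : Fld) : ℂ := pW w (exF (cg B)) - cx (kW w) B B

/-- weights on the three pairs of complementary planes -/
def w3 (α β γ : ℝ) : Fin 4 → Fin 4 → ℝ := !![0, α, β, γ; α, 0, γ, β; β, γ, 0, α; γ, β, α, 0]

theorem kW_apply (w : Fin 4 → Fin 4 → ℝ) (a b : V) :
    kW w a b = ∑ μ, ∑ ν, (if μ < ν then w μ ν else 0) * (dd a 0 μ ν * dd b 0 μ ν) := rfl

theorem Chn.chw {c Kt K0 l n : ℕ} {η : ℝ} {d : ℕ → Td} (h : Chn c Kt K0 l n η d)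
    (e : η ≤ 1000⁻¹) : Chw c Kt K0 l n η d :=
  ⟨h.ex, fun i hi => by
    obtain ⟨M, j, v, e, h1, h2, h3, h4, h5, h6⟩ := h.tr i hi
    exact ⟨M, j, v, e, h1, h2, h3, h4, by linarith, h6⟩, h.nx⟩

theorem Chw.sh {c Kt K0 l n : ℕ} {η η' : ℝ} {d : ℕ → Td} (h : Chw c Kt K0 l n η d) {i m : ℕ}
    (hi : i + m ≤ n) (e : η ≤ η') : Chw c Kt K0 l m η' fun k => d (i + k) := by
  obtain ⟨d', hd⟩ : ∃ d' : ℕ → Td, ∀ k, d' k = d (i + k) := ⟨_, fun _ => rfl⟩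
  rw [← funext hd]
  refine ⟨fun k _ => ?_, fun k _ => ?_, fun k _ => ?_⟩ <;> simp only [hd, ← add_assoc]
  exacts [h.ex _ (by omega), h.tr _ (by omega),
    (h.nx (i + k) (by omega)).imp fun _ h => ⟨h.1.trans e, h.2⟩]

end Pool.Agent.Lib.MP_7f377f_mp.RG.Q4
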