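import Pool.Agent.Lib.MP_7f377f_mp.G.Q4XwA
import Pool.Agent.Lib.MP_7f377f_mp.G.S21A0

/-! The one loop determinant of an anisotropic Wilson action in a constant abelian flux. -/

noncomputable section

namespace Pool.Agent.Lib.MP_7f377f_mp.RG.Q4
variable [GD]

open Finset Matrix Asymptotics

/-- the anisotropic Wilson density -/
def wa (be ga : ℝ) (U : Cf) : ℂ := wc U + pW (w3 0 be ga) U

namespace Xi

variable {N : Fin 4 → ℕ} [∀ i, NeZero (N i)] {F : ℝ} {θ : Lk → Ang}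

open Af in
theorem hessw (h : Bg N F θ) {w : Fin 4 → Fin 4 → ℝ} {Q : Matrix (IL N) (IL N) ℝ} {C ρ : ℝ}
    (hρ : 0 < ρ) (hQ : Tay (Q4.SS N (pW w) (ab θ)) Q C ρ) (a : IL N → ℝ) :
    a ⬝ᵥ Q *ᵥ a = ∑ x, ∑ μ, ∑ ν, (if μ < ν then w μ ν else 0) *
      qx (kF F μ ν) (av a x μ) (tv θ a x μ ν) (tv θ a x ν μ) (av a x ν) := by
  have e : ∀ s : ℝ, Q4.SS N (pW w) (ab θ) (s • a) = ∑ x, ∑ μ, ∑ ν, (if μ < ν then w μ ν else 0) *
      (enq (ex ((s : ℂ) • cR (av a x μ)) * ex ((s : ℂ) • cR (tv θ a x μ ν)) *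
      cS (eA (kF F μ ν)) * ex ((s : ℂ) • -cR (tv θ a x ν μ)) * ex ((s : ℂ) • -cR (av a x ν)))).re :=
      fun s => by
    simp only [Q4.SS, pW, Complex.re_sum, Complex.re_ofReal_mul]
    refine sum_congr rfl fun x _ => sum_congr rfl fun μ _ => sum_congr rfl fun ν _ => ?_
    have e1 : ∀ μ, pf a (lf x, μ) = cR (av a x μ) := fun μ => by funext k; simp [pf, cR_apply, av]
    have e2 : ∀ μ ν, adq (cS (eA (θ (lf x, μ)))) (pf a (lf x + un μ, ν)) = cR (tv θ a x μ ν) :=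
      fun μ ν => by
      funext k; simp only [cR_apply, tv, Rm_mulVec]; congr 1; funext k
      simp [pf, av, cs_add_un, cR_apply]
    have e3 := congrArg cS (hol_ab θ (lf x) μ ν)
    simp only [h.curv, hol, cS_mul, cS_inv, ab] at e3
    simp only [hol, sh_apply, zero_add, add_comm (un _), Pi.mul_apply, exF, cC, ab, pf_smul,
      Pi.smul_apply, hol_eq (uni_cS _) (uni_cS _), adq_smul, e1, e2, e3, smul_neg]
  obtain ⟨c, hc⟩ : ∃ c : Fin 4 → Fin 4 → ℝ, ∀ μ ν, (if μ < ν then w μ ν else 0) = c μ ν :=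
    ⟨_, fun _ _ => rfl⟩
  simp only [hc] at e ⊢
  have l : ∀ μ ν, ∑ x, (av a x μ + tv θ a x μ ν - tv θ a x ν μ - av a x ν) GD.k0 = 0 := fun μ ν => by
    simp [tv, Gp.Rm_zero _ _ GD.q_k0, sum_add_distrib, Gp.sum_sh fun x => av a x μ GD.k0,
      Gp.sum_sh fun x => av a x ν GD.k0]
  have b := IsBigO.fun_sum (s := univ) fun (x : TS N) _ => IsBigO.fun_sum (s := univ) fun μ _ =>
    IsBigO.fun_sum (s := univ) fun ν _ => (plaq (kF F μ ν) (av a x μ) (tv θ a x μ ν)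
      (tv θ a x ν μ) (av a x ν)).const_mul_left (c μ ν)
  have l' : ∑ x, ∑ μ, ∑ ν, c μ ν * (2 * tnA (kF F μ ν) *
      (av a x μ + tv θ a x μ ν - tv θ a x ν μ - av a x ν) GD.k0) = 0 := by
    rw [sum_comm]
    refine sum_eq_zero fun μ _ => ?_
    rw [sum_comm]
    simp only [← mul_sum, l, mul_zero, sum_const_zero]
  replace b := b.congr_left (f₂ := fun s => Q4.SS N (pW w) (ab θ) (s • a) - (∑ x : TS N, ∑ μ, ∑ ν,
      c μ ν * (enq (cS (eA (kF F μ ν)))).re + s ^ 2 * ∑ x, ∑ μ, ∑ ν, c μ ν *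
      qx (kF F μ ν) (av a x μ) (tv θ a x μ ν) (tv θ a x ν μ) (av a x ν))) fun s => by
    rw [e, ← add_zero (∑ _x : TS N, _), ← mul_zero s, ← l']
    simp only [mul_sum, ← sum_add_distrib, ← sum_sub_distrib]
    exact sum_congr rfl fun _ _ => sum_congr rfl fun _ _ => sum_congr rfl fun _ _ => by ring
  obtain ⟨K, hK⟩ := b.bound
  have k0 := hK.self_of_nhds
  obtain ⟨δ, δ0, hδ⟩ := Metric.eventually_nhds_iff.1 hK
  refine hQ.eq_of hρ (K := |K|) (half_pos δ0) fun s s0 s1 => ⟨s • a, by simp; positivity, ?_⟩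
  have := hδ (y := s) (by rw [dist_zero_right, Real.norm_of_nonneg s0.le]; linarith)
  simp only [zero_smul, zero_pow, norm_zero, mul_zero, norm_le_zero_iff, zero_mul, add_zero,
    sub_eq_zero, ne_eq, OfNat.ofNat_ne_zero, not_false_eq_true] at k0
  rw [k0, sub_sub]
  refine le_trans this ?_
  rw [Real.norm_of_nonneg (by positivity)]
  gcongr; exact le_abs_self K

theorem qx_zero (u1 u2 u3 u4 : Fin GD.d → ℝ) : qx 0 u1 u2 u3 u4 = qc u1 u2 u3 u4 := by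
  have := qx_bd (κ := 0) (f := 0) (by simp) zero_le_one u1 u2 u3 u4
  rw [qc, sq3]
  simpa [sub_eq_zero, qq, Fk] using this

/-- the neutral part of the anisotropy -/
def nP (be ga : ℝ) (y : (TS N × Fin 4) × Neu → ℝ) : ℝ :=
  let c := fun x μ ν => ∑ k, (y ((x, μ), k) + y ((x + Pi.single μ 1, ν), k) -
    y ((x + Pi.single ν 1, μ), k) - y ((x, ν), k)) ^ 2
  ∑ x, (be * (c x 0 2 + c x 1 3) + ga * (c x 0 3 + c x 1 2))

theorem hess_P (h : Bg N F θ) {be ga : ℝ} {P : Matrix (IL N) (IL N) ℝ} {C ρ : ℝ} (hρ : 0 < ρ)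
    (hP : Tay (Q4.SS N (pW (w3 0 be ga)) (ab θ)) P C ρ) (a : IL N → ℝ) :
    |a ⬝ᵥ P *ᵥ a| ≤ (|be| + |ga|) * PS F θ a (fun _ => qc) ∧ ∀ z : _ × Chg → ℂ,
    (∀ i, z i = ⟨a (gL (.inr (i, 0))), a (gL (.inr (i, 1)))⟩) →
    a ⬝ᵥ P *ᵥ a = nP be ga (fun i => a (gL (.inl i))) +
      (ip z ((blockDiagonal fun k : Chg => P4 be ga (TT (GD.q k) N θ)) *ᵥ z)).re := by
  obtain ⟨c, hc⟩ : ∃ c : TS N → Fin 4 → Fin 4 → ℝ, ∀ x μ ν,
    qc (av a x μ) (tv θ a x μ ν) (tv θ a x ν μ) (av a x ν) = c x μ ν := ⟨_, fun _ _ _ => rfl⟩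
  have e : a ⬝ᵥ P *ᵥ a = ∑ x, (be * (c x 0 2 + c x 1 3) + ga * (c x 0 3 + c x 1 2)) := by
    rw [hessw h hρ hP]
    refine sum_congr rfl fun x _ => ?_
    simp [Fin.sum_univ_four, w3, kF, qx_zero, hc]
    ring
  rw [e]
  refine ⟨(abs_sum_le_sum_abs _ _).trans ?_, fun z hz => ?_⟩
  · rw [PS, mul_sum]
    refine sum_le_sum fun x _ => ?_
    have p : ∀ μ ν, 0 ≤ c x μ ν := fun μ ν => by rw [← hc, qc]; positivity
    have b : ∀ (s : ℝ) y, 0 ≤ y → |s * y| ≤ |s| * y := fun s y h => by rw [abs_mul, abs_of_nonneg h]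
    refine (abs_add_le _ _).trans ((add_le_add (b _ _ (add_nonneg (p _ _) (p _ _)))
      (b _ _ (add_nonneg (p _ _) (p _ _)))).trans ?_)
    simp only [hc]
    rw [show ∑ μ, ∑ ν, (if μ < ν then c x μ ν else 0) = c x 0 2 + c x 1 3 + (c x 0 3 + c x 1 2) +
      (c x 0 1 + c x 2 3) by simp [Fin.sum_univ_four]; ring, add_mul]
    gcongr ?_ + ?_ <;> gcongr _ * ?_ <;> linarith [p 0 1, p 0 2, p 0 3, p 1 2, p 1 3, p 2 3]
  · rw [ip_block, sum_congr rfl fun k _ => P4_form be ga _ (al k a) _ (funext fun i => by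
      rw [hz]; rcases i with (x | x) | x | x <;> rfl), nP]
    have t : ∀ (k : Chg) x μ ν, ((TT (GD.q k) N θ μ).1 *ᵥ al k a ν) x = Gp.cz k (tv θ a x μ ν) :=
      fun k x μ ν => by rw [TT, ws_mulVec, tv, Gp.Rm_cx]; rfl
    have c : ∀ (k : Chg) x μ ν, crl (TT (GD.q k) N θ) (al k a) μ ν x =
        Gp.cz k (av a x μ + tv θ a x μ ν - tv θ a x ν μ - av a x ν) := fun k x μ ν => by
      simp only [crl, Pi.add_apply, Pi.sub_apply, t]; rfl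
    have t0 : ∀ x μ ν (k : Neu), tv θ a x μ ν k = a ((x + Pi.single μ 1, ν), k) := fun x μ ν k =>
      Gp.Rm_zero _ _ k.2
    simp only [Complex.re_sum, Complex.add_re, Complex.re_ofReal_mul, ip_self, c, ← hc, qc, sq3]
    simp only [mul_sum, ← sum_add_distrib]
    rw [sum_comm (γ := Chg), ← sum_add_distrib]
    refine sum_congr rfl fun x _ => ?_
    simp only [Pi.add_apply, Pi.sub_apply, t0, av, gL, Sum.elim_inl, mul_add, sum_add_distrib,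
      mul_sum]
    ring

open Q4 renaming NN → N4 in
theorem hess_tr {n1 n2 : ℕ} [NeZero n1] [NeZero n2] (h : Bg (N4 n1 n2) F θ)
    (hF : |F| * n2 ^ 2 ≤ 1 / 10) {be ga : ℝ} {Q P H : Matrix _ _ ℝ} {C ρ C' ρ' : ℝ} (hρ : 0 < ρ)
    (hρ' : 0 < ρ') (hQ : Tay (Q4.SS (N4 n1 n2) wc (ab θ)) Q C ρ)
    (hP : Tay (Q4.SS (N4 n1 n2) (pW (w3 0 be ga)) (ab θ)) P C' ρ') {B B' : Matrix _ _ ℝ}
    (hB : B.IsSymm) (hy : ∀ y, y ⬝ᵥ B *ᵥ y = nL (N := N4 n1 n2) y) (hB' : B'.IsSymm)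
    (hy' : ∀ y, y ⬝ᵥ B' *ᵥ y = nP (N := N4 n1 n2) be ga y)
    (hH : H = Q + Dm (N4 n1 n2) (ab θ) * (Dm (N4 n1 n2) (ab θ))ᵀ) :
    H.PosDef ∧ (∀ x, |x ⬝ᵥ P *ᵥ x| ≤ 16 * (|be| + |ga|) * (x ⬝ᵥ H *ᵥ x)) ∧
    (∀ k : Chg, (M4 (Fk F k) (TT (GD.q k) (N4 n1 n2) θ)).det ≠ 0) ∧
    |(H⁻¹ * P).trace - ((B⁻¹ * B').trace + 2 * ∑ k : Chg, rt ((M4 (Fk F k)
      (TT (GD.q k) (N4 n1 n2) θ))⁻¹ * P4 be ga (TT (GD.q k) (N4 n1 n2) θ)))| ≤
      Fintype.card (IL (N4 n1 n2)) * (2 * (50 * F ^ 2) * (8 * (|be| + |ga|))) := by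
  have hM := herm_block fun k : Chg => M4_herm (Fk F k) (TT (GD.q k) (N4 n1 n2) θ)
  obtain ⟨A, s, d, f⟩ := split_mod (gL (G := TS (N4 n1 n2))) gL_bij hB hM
  have h2 := NeZero.pos n2
  have hv : (1 : ℝ) ≤ n2 ^ 2 := one_le_pow₀ (by exact_mod_cast h2)
  have F0 := abs_nonneg F
  have F1 : |F| ≤ 1 / 10 := (le_mul_of_one_le_right F0 hv).trans hF
  have key : ∀ a, (a ≠ 0 → 0 < a ⬝ᵥ A *ᵥ a) ∧ |a ⬝ᵥ H *ᵥ a - a ⬝ᵥ A *ᵥ a| ≤
      50 * F ^ 2 * (a ⬝ᵥ A *ᵥ a) ∧ PS F θ a (fun _ => qc) ≤ 8 * (a ⬝ᵥ A *ᵥ a) := fun a => by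
    have m := hess_mod (fun k => letI := twk k; (mag_TT h k).heis) a _ fun _ => rfl
    have m1 := f a _ fun _ => rfl
    have e := hess h (by linarith) hρ hQ a
    have g := sum_le_sum fun (k : Chg) (_ : k ∈ univ) => letI := twk k; (mag_TT h k).gap4 h2
      ((mul_le_mul_of_nonneg_right (abs_Fk F k) (by positivity)).trans hF) (al k a)
      (fun i => ⟨a (gL (.inr ((i, k), 0))), a (gL (.inr ((i, k), 1)))⟩)
      (funext fun i => by rcases i with (x | x) | x | x <;> rfl)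
    have u := PS_qu F θ a
    have c := PS_le (F := F) (θ := θ) (a := a) fun κ u1 u2 u3 u4 h => qq_cmp h u1 u2 u3 u4
    have u0 : 0 ≤ PS F θ a fun _ => qu := PS_nonneg fun _ _ _ _ _ => by unfold qu; positivity
    have n0 := nL_nonneg fun i => a (gL (.inl i))
    have d0 : 0 ≤ a ⬝ᵥ (Dm (N4 n1 n2) (ab θ) * (Dm (N4 n1 n2) (ab θ))ᵀ) *ᵥ a := by
      rw [← mulVec_mulVec, dotProduct_mulVec, ← mulVec_transpose]; exact dot_nonneg _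
    rw [PS_lin, PS_mul] at c
    rw [hy, ip_block, Complex.re_sum] at m1
    rw [ip_block, Complex.re_sum, ← m1] at m
    rw [← mul_sum, ← sub_eq_of_eq_add' m1] at g
    have p0 : ∀ k μ, 0 ≤ (ip (al k a μ) (al k a μ)).re := fun k μ => by rw [ip_self]; positivity
    have p1 := fun k => sum_nonneg fun μ (_ : μ ∈ univ) => p0 k μ
    have p2 := sum_nonneg fun k (_ : k ∈ univ) => p1 k
    have m0 : nL (fun i => a (gL (.inl i))) ≤ a ⬝ᵥ A *ᵥ a := by nlinarith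
    refine ⟨fun ha => ?_, ?_⟩
    · by_contra! hc
      have e1 : (fun i => a (gL (.inl i))) = 0 := by_contra fun e => by linarith [nL_pos e]
      have e2 := (sum_eq_zero_iff_of_nonneg fun k _ => p1 k).1 (le_antisymm (by nlinarith) p2)
      refine ha (funext fun ⟨⟨x, μ⟩, j⟩ => ?_)
      obtain ⟨k | ⟨k, j⟩, rfl⟩ := dIx_bij.2 j
      · exact congrFun e1 ((x, μ), k)
      · have := (sum_eq_zero_iff_of_nonneg fun μ _ => p0 k μ).1 (e2 k (mem_univ _)) μ (mem_univ _)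
        rw [ip_self, sum_eq_zero_iff_of_nonneg fun _ _ => sq_nonneg _] at this
        have := norm_eq_zero.1 (pow_eq_zero_iff two_ne_zero |>.1 (this x (mem_univ _)))
        fin_cases j
        exacts [congrArg Complex.re this, congrArg Complex.im this]
    · rw [hH, add_mulVec, dotProduct_add, ← m, add_sub_add_right_eq_sub, m]
      generalize a ⬝ᵥ A *ᵥ a = M at *
      generalize PS F θ a (fun _ => qu) = U at *
      generalize PS F θ a (fun _ => qc) = S at *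
      have a1 : |F| * U ≤ 2 * M := by
        have := mul_le_mul_of_nonneg_left (u.trans (mul_le_mul_of_nonneg_left (g.trans
          (mul_le_mul_of_nonneg_left (sub_le_self M n0) (by positivity))) (by norm_num))) F0
        nlinarith
      have a2 : S ≤ 8 * M := by
        refine le_of_mul_le_mul_left (a := 1 - |F| ^ 2 / 2) (c.trans ?_) (by nlinarith)
        nlinarith [mul_le_mul_of_nonneg_left (show |F| ^ 2 ≤ 1 / 100 by nlinarith) (n0.trans m0)]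
      refine ⟨e.trans ?_, a2⟩
      rw [pow_succ |F|, sq_abs]
      nlinarith [mul_le_mul_of_nonneg_left a1 (sq_nonneg F),
        mul_le_mul_of_nonneg_left a2 (sq_nonneg F), mul_nonneg (sq_nonneg F) (n0.trans m0)]
  have sH : H.IsSymm := hH ▸ hQ.1.add (transpose_mul _ _)
  have F2 : 50 * F ^ 2 ≤ 1 / 2 := by nlinarith [sq_abs F]
  have b0 : 0 ≤ |be| + |ga| := by positivity
  have k0 : ∀ a, 0 ≤ a ⬝ᵥ A *ᵥ a := fun a => by
    linarith [(key a).2.2, PS_nonneg (F := F) (θ := θ) (a := a) (f := fun _ => qc)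
      fun _ _ _ _ _ => by unfold qc; positivity]
  have k1 : ∀ a, a ⬝ᵥ A *ᵥ a ≤ 2 * (a ⬝ᵥ H *ᵥ a) := fun a => by
    linarith [(abs_le.1 (key a).2.1).1, mul_le_mul_of_nonneg_right F2 (k0 a)]
  have k2 : ∀ a, |a ⬝ᵥ P *ᵥ a| ≤ 8 * (|be| + |ga|) * (a ⬝ᵥ A *ᵥ a) := fun a =>
    (hess_P h hρ' hP a).1.trans ((mul_le_mul_of_nonneg_left (key a).2.2 b0).trans_eq (by ring))
  have d0 := (logdet_rel' s s (fun a => (key a).1) (η := 0) (by norm_num) (by simp) (by simp)).1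
  rw [d] at d0
  have d1 := norm_ne_zero_iff.1 (ne_zero_pow two_ne_zero (right_ne_zero_of_mul d0.ne'))
  have d2 := fun k => prod_ne_zero_iff.1 ((det_blockDiagonal _).symm.trans_ne d1) k (mem_univ _)
  have t := tr_rel (W := H - A) s (sH.sub s) (fun a => (key a).1) F2
    (fun a => by rw [sub_mulVec, dotProduct_sub]; exact (key a).2.1) k2
  rw [add_sub_cancel, split_tr gL gL_bij s hP.1 hB hB' hM (herm_block fun k => P4_herm _ _ _)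
    (left_ne_zero_of_mul d0.ne') d1 f fun a z hz => by rw [hy', (hess_P h hρ' hP a).2 z hz],
    inv_eq_left_inv (B := blockDiagonal fun k : Chg =>
      (M4 (Fk F k) (TT (GD.q k) (N4 n1 n2) θ))⁻¹) (by
      rw [← blockDiagonal_mul, ← blockDiagonal_one]
      exact congrArg _ (funext fun k => nonsing_inv_mul _ (Ne.isUnit (d2 k)))),
    ← blockDiagonal_mul, rt, trace_blockDiagonal, Complex.re_sum] at t
  exact ⟨posDef_iff_dotProduct_mulVec.2 ⟨sH, fun x hx => by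
    rw [star_trivial]; linarith [(key x).1 hx, k1 x]⟩, fun x => (k2 x).trans
      ((mul_le_mul_of_nonneg_left (k1 x) (by positivity)).trans_eq (by ring)), d2, t⟩

theorem tay_P {be ga : ℝ} {U : Conf} {Q Qe : Matrix (IL N) (IL N) ℝ} {C ρ Ce ρe : ℝ}
    (hQ : Tay (Q4.SS N wc U) Q C ρ) (hQe : Tay (Q4.SS N (wa be ga) U) Qe Ce ρe) :
    Tay (Q4.SS N (pW (w3 0 be ga)) U) (Qe - Q) (Ce + C) (min ρe ρ) := by
  rw [sub_eq_add_neg]
  exact ((hQe.mono le_rfl (min_le_left _ _)).add (hQ.mono le_rfl (min_le_right _ _)).neg).congr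
    fun a _ => by simp [Q4.SS, wa, sum_add_distrib]

end Xi

open Xi in
/-- the derivative of the one loop coefficient -/
theorem xw_tr (ε : ℝ) (hε : 0 < ε) : ∃ N0 : ℕ, ∀ (n1 n2 : ℕ) [NeZero n1] [NeZero n2], N0 ≤ n2 →
    n2 ≤ n1 → n2 * Real.log n1 ^ 2 ≤ n1 → ∀ (F : ℝ) (θ θ0 : Lk → Ang),
    |F| * (n1 : ℝ) ^ 2 ≤ 7 * GD.hh → Bg (NN n1 n2) F θ → Bg (NN n1 n2) 0 θ0 → ∀ (be ga : ℝ)
    (Q Q0 Qe Qe0 : Matrix (IL (NN n1 n2)) (IL (NN n1 n2)) ℝ) (C ρ C0 ρ0 Ce ρe Ce0 ρe0 : ℝ),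
    0 < ρ → 0 < ρ0 → 0 < ρe → 0 < ρe0 →
    Tay (SS (NN n1 n2) wc (ab θ)) Q C ρ → Tay (SS (NN n1 n2) wc (ab θ0)) Q0 C0 ρ0 →
    Tay (SS (NN n1 n2) (wa be ga) (ab θ)) Qe Ce ρe →
    Tay (SS (NN n1 n2) (wa be ga) (ab θ0)) Qe0 Ce0 ρe0 →
    ∀ H H0 : Matrix _ _ ℝ, H = Q + Dm (NN n1 n2) (ab θ) * (Dm (NN n1 n2) (ab θ))ᵀ →
    H0 = Q0 + Dm (NN n1 n2) (ab θ0) * (Dm (NN n1 n2) (ab θ0))ᵀ →
    H.PosDef ∧ H0.PosDef ∧ (∀ x, |x ⬝ᵥ (Qe - Q) *ᵥ x| ≤ 16 * (|be| + |ga|) * (x ⬝ᵥ H *ᵥ x)) ∧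
    (∀ x, |x ⬝ᵥ (Qe0 - Q0) *ᵥ x| ≤ 16 * (|be| + |ga|) * (x ⬝ᵥ H0 *ᵥ x)) ∧
    |2⁻¹ * (H⁻¹ * (Qe - Q)).trace - 2⁻¹ * (H0⁻¹ * (Qe0 - Q0)).trace -
      (be + ga) * (∑ k, (GD.q k / GD.hh) ^ 2) / (8 * Real.pi ^ 2) * F ^ 2 *
        ((n1 : ℝ) ^ 2 * (n2 : ℝ) ^ 2) * Real.log n2| ≤ (|be| + |ga|) *
      (ε * (((n1 : ℝ) ^ 2)⁻¹ ^ 2 * ((n1 : ℝ) ^ 2 * (n2 : ℝ) ^ 2) * Real.log n2)) := by
  have h1 := GD.hh1
  obtain ⟨η, η0, η1, η2⟩ : ∃ η : ℝ, 0 < η ∧ 70 * GD.hh * η ≤ 1 ∧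
      100000 * GD.d * GD.hh ^ 2 * η ≤ ε := by
    have p : 1 ≤ (GD.d + 1) * GD.hh := one_le_mul_of_one_le_of_one_le (by simp) h1
    refine ⟨min ε 1 / (100000 * (GD.d + 1) * GD.hh ^ 2), by positivity, ?_, ?_⟩ <;>
      rw [← mul_div_assoc, div_le_iff₀ (by positivity)]
    · nlinarith [min_le_right ε 1, mul_le_mul_of_nonneg_left p hh_pos.le]
    · rw [mul_comm ε]; gcongr; exacts [by simp, min_le_left _ _]
  choose N0 hN using fun k : Chg => @vec_tr (twk k) η η0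
  obtain ⟨M, hM⟩ := exists_nat_ge (Real.exp η⁻¹)
  refine ⟨max (univ.sup N0) M, fun n1 n2 _ _ h0 h21 hl F θ θ0 hF h h' be ga Q Q0 Qe Qe0 C ρ C0 ρ0
    Ce ρe Ce0 ρe0 hρ hρ0 hρe hρe0 hQ hQ0 hQe hQe0 H H0 hH hH0 => ?_⟩
  have hv := fun k => hN k n1 n2 ((le_sup (mem_univ k)).trans (le_of_max_le_left h0)) h21 hl
  have v0 : (0 : ℝ) < n2 := by exact_mod_cast NeZero.pos n2
  have vu : (n2 : ℝ) ≤ n1 := by exact_mod_cast h21
  have u0 : (0 : ℝ) < n1 := by linarith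
  have l1 : 1 ≤ η * Real.log n2 := by
    rw [← inv_le_iff_one_le_mul₀' η0, Real.le_log_iff_exp_le v0]
    exact hM.trans (by exact_mod_cast le_of_max_le_right h0)
  have l0 : 0 < Real.log n2 := pos_of_mul_pos_right (one_pos.trans_le l1) η0.le
  have l2 : 70 * GD.hh ≤ Real.log n2 := by
    nlinarith [mul_le_mul_of_nonneg_left l1 (by positivity : 0 ≤ 70 * GD.hh)]
  have l3 := Real.log_le_log v0 vu
  have F1 : |F| * n2 ^ 2 ≤ 1 / 10 := by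
    have : (n2 : ℝ) ^ 2 * Real.log n1 ^ 4 ≤ n1 ^ 2 := by
      rw [show (n2 : ℝ) ^ 2 * Real.log n1 ^ 4 = (n2 * Real.log n1 ^ 2) ^ 2 by ring]; gcongr
    have l4 : Real.log n2 ≤ Real.log n1 ^ 4 := l3.trans (le_self_pow₀ (by linarith) (by norm_num))
    refine le_of_mul_le_mul_right ?_ (l0.trans_le l4)
    nlinarith [mul_le_mul_of_nonneg_left this (abs_nonneg F)]
  have Fq : ∀ k : Chg, |Fk F k| * (n1 : ℝ) ^ 2 ≤ 7 := fun k => by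
    have a : |(GD.q k : ℝ)| ≤ 2 := by exact_mod_cast GD.q_le k
    rw [Fk, abs_div, abs_mul, abs_div, abs_two, abs_of_pos hh_pos, div_mul_eq_mul_div,
      div_le_iff₀ two_pos, mul_assoc, div_mul_eq_mul_div, div_le_iff₀ hh_pos]
    nlinarith [mul_le_mul a hF (by positivity) zero_le_two]
  have z0 : ∀ k, Fk 0 k = 0 := fun k => by simp [Fk]
  have hP := tay_P hQ hQe
  have hP0 := tay_P hQ0 hQe0
  obtain ⟨B, s1, f1⟩ := exists_nL h' (fun k => letI := twk k; (mag_TT h' k).heis) hρ0 hQ0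
  obtain ⟨B', s2, f2, -⟩ := split_det (gL (G := TS (NN n1 n2))) gL_bij hP.1 (herm_block fun k : Chg =>
    P4_herm be ga (Xi.TT (GD.q k) (NN n1 n2) θ)) fun a => (hess_P h (lt_min hρe hρ) hP a).2
  obtain ⟨p1, p2, p3, p4⟩ := hess_tr h F1 hρ (lt_min hρe hρ) hQ hP s1 f1 s2 f2 hH
  obtain ⟨q1, q2, q3, q4⟩ := hess_tr h' (by simp) hρ0 (lt_min hρe0 hρ0) hQ0 hP0 s1 f1 s2 f2 hH0
  refine ⟨p1, q1, p2, q2, ?_⟩
  have F2 : F ^ 2 ≤ 49 * GD.hh ^ 2 * ((n1 : ℝ) ^ 4)⁻¹ := by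
    rw [← div_eq_mul_inv, le_div_iff₀ (by positivity), ← sq_abs]
    nlinarith [mul_nonneg (abs_nonneg F) (sq_nonneg (n1 : ℝ))]
  have c : (Fintype.card (TS (NN n1 n2)) : ℝ) = (n1 : ℝ) ^ 2 * (n2 : ℝ) ^ 2 := by
    rw [Fintype.card_pi, prod_congr rfl fun i _ => ZMod.card (NN n1 n2 i)]
    simp [Fin.prod_univ_four, NN]; ring
  rw [Fintype.card_prod, Fintype.card_prod, Fintype.card_fin, Fintype.card_fin, Nat.cast_mul,
    Nat.cast_mul, c] at p4 q4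
  have key : ∀ {F θ}, Bg (NN n1 n2) F θ → ∀ k : Chg, |Fk F k| * (n1 : ℝ) ^ 2 ≤ 7 →
      (M4 (Fk F k) (Xi.TT (GD.q k) (NN n1 n2) θ)).det ≠ 0 → |rt ((M4 (Fk F k) (Xi.TT (GD.q k) (NN n1 n2)
        θ))⁻¹ * P4 be ga (Xi.TT (GD.q k) (NN n1 n2) θ)) - (be + ga) * ((n1 : ℝ) ^ 2 * (n2 : ℝ) ^ 2) *
        (1 + 1 / Real.pi ^ 2 * Real.log n2 * Fk F k ^ 2)| ≤ (|be| + |ga|) * (2 * (η * ((n1 : ℝ) ^ 2 *
        (n2 : ℝ) ^ 2 * Real.log n2 * ((n1 : ℝ) ^ 4)⁻¹))) := fun h k hk d => by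
    have v := hv k _ hk _ _ (mag_TT h k)
    have b : ∀ (s : ℝ) {x y e : ℝ}, |x| ≤ e → |y| ≤ e → |s * (x + y)| ≤ |s| * (2 * e) :=
      fun s x y e a b => by rw [abs_mul]; gcongr; linarith [abs_add_le x y]
    simp only [c, div_eq_mul_inv _ ((n1 : ℝ) ^ 4)] at v
    rw [P4_tr d, c, add_mul |be|]
    exact le_of_eq_of_le (congrArg _ (by ring)) ((abs_add_le _ _).trans (add_le_add
      (b be (v 2 (.inl rfl) _ (.inl rfl)) (v 3 (.inr rfl) _ (.inr rfl)))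
      (b ga (v 3 (.inr rfl) _ (.inl rfl)) (v 2 (.inl rfl) _ (.inr rfl)))))
  rw [inv_pow, ← pow_mul]
  set V := (n1 : ℝ) ^ 2 * (n2 : ℝ) ^ 2
  set w := ((n1 : ℝ) ^ 4)⁻¹
  set b := |be| + |ga|
  have b0 : 0 ≤ b := by positivity
  have v3 := abs_sum_le (c := 2 * (b * (2 * (η * (V * Real.log n2 * w))))) fun k =>
    (abs_sub _ _).trans ((add_le_add (key h k (Fq k) (p3 k))
      (key h' k (by simp [z0]) (q3 k))).trans_eq (two_mul _).symm)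
  have c2 : (Fintype.card Chg : ℝ) ≤ GD.d := by
    exact_mod_cast (Fintype.card_subtype_le _).trans_eq (Fintype.card_fin _)
  replace v3 := v3.trans (mul_le_mul_of_nonneg_right c2 (by positivity))
  simp only [sum_sub_distrib, sum_add_distrib, ← mul_sum, sum_Fk] at v3
  have a1 := mul_le_mul_of_nonneg_right F2 (by positivity : 0 ≤ b * (V * GD.d))
  have a2 := mul_le_mul_of_nonneg_right l1 (by positivity : 0 ≤ b * (GD.hh ^ 2 * w * (V * GD.d)))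
  have a3 := mul_le_mul_of_nonneg_right η2 (by positivity : 0 ≤ b * (w * V * Real.log n2))
  have a4 := mul_le_mul_of_nonneg_right (one_le_pow₀ (n := 2) h1)
    (by positivity : 0 ≤ b * (GD.d * (η * (V * Real.log n2 * w))))
  have e : ∀ a b : ℝ, a * b / (8 * Real.pi ^ 2) = a * (1 / Real.pi ^ 2) * (b / 8) := fun a b => by
    field_simp
  have a5 : 0 ≤ b * (GD.d * (η * (V * Real.log n2 * w))) := by positivity
  push_cast at p4 q4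
  rw [e]
  rw [abs_le] at p4 q4 v3 ⊢
  constructor <;> linarith [p4.1, p4.2, v3.1, v3.2, q4.1, q4.2]

/-- the one loop coefficient of the anisotropic action -/
theorem xw_main (ε : ℝ) (hε : 0 < ε) : ∃ N0 : ℕ, ∀ (n1 n2 : ℕ) [NeZero n1] [NeZero n2], N0 ≤ n2 →
    n2 ≤ n1 → n2 * Real.log n1 ^ 2 ≤ n1 → ∀ (F : ℝ) (θ θ0 : Lk → Ang),
    |F| * (n1 : ℝ) ^ 2 ≤ 7 * GD.hh → Bg (NN n1 n2) F θ → Bg (NN n1 n2) 0 θ0 → ∀ (be ga : ℝ)
    (Q Q0 Qe Qe0 : Matrix (IL (NN n1 n2)) (IL (NN n1 n2)) ℝ) (C ρ C0 ρ0 Ce ρe Ce0 ρe0 : ℝ),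
    |be| ≤ 1 / 100 → |ga| ≤ 1 / 100 → 0 < ρ → 0 < ρ0 → 0 < ρe → 0 < ρe0 →
    Tay (SS (NN n1 n2) wc (ab θ)) Q C ρ → Tay (SS (NN n1 n2) wc (ab θ0)) Q0 C0 ρ0 →
    Tay (SS (NN n1 n2) (wa be ga) (ab θ)) Qe Ce ρe →
    Tay (SS (NN n1 n2) (wa be ga) (ab θ0)) Qe0 Ce0 ρe0 →
    |lk Qe (Dm (NN n1 n2) (ab θ)) - lk Qe0 (Dm (NN n1 n2) (ab θ0)) -
      (lk Q (Dm (NN n1 n2) (ab θ)) - lk Q0 (Dm (NN n1 n2) (ab θ0))) -
      (be + ga) * (∑ k, (GD.q k / GD.hh) ^ 2) / (8 * Real.pi ^ 2) * F ^ 2 *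
        ((n1 : ℝ) ^ 2 * (n2 : ℝ) ^ 2) * Real.log n2| ≤ (|be| + |ga|) *
      (ε * (((n1 : ℝ) ^ 2)⁻¹ ^ 2 * ((n1 : ℝ) ^ 2 * (n2 : ℝ) ^ 2) * Real.log n2)) +
      2048 * GD.d * (|be| + |ga|) ^ 2 * ((n1 : ℝ) ^ 2 * (n2 : ℝ) ^ 2) := by
  refine (xw_tr ε hε).imp fun N0 hN n1 n2 _ _ h0 h21 hl F θ θ0 hF h h' be ga Q Q0 Qe Qe0 C ρ C0 ρ0
    Ce ρe Ce0 ρe0 hb hg hρ hρ0 hρe hρe0 hQ hQ0 hQe hQe0 => ?_
  obtain ⟨p1, q1, p2, q2, t⟩ := hN n1 n2 h0 h21 hl F θ θ0 hF h h' be ga Q Q0 Qe Qe0 C ρ C0 ρ0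
    Ce ρe Ce0 ρe0 hρ hρ0 hρe hρe0 hQ hQ0 hQe hQe0 _ _ rfl rfl
  have c : (Fintype.card (IL (NN n1 n2)) : ℝ) = (n1 : ℝ) ^ 2 * (n2 : ℝ) ^ 2 * 4 * GD.d := by
    rw [Fintype.card_prod, Fintype.card_prod, Fintype.card_pi,
      prod_congr rfl fun i _ => ZMod.card (NN n1 n2 i)]
    simp [Fin.prod_univ_four, NN]; left; ring
  have key : ∀ {Q Qe : Matrix (IL (NN n1 n2)) (IL (NN n1 n2)) ℝ} {D : Matrix _ (IG (NN n1 n2)) ℝ},
      Q.IsSymm → Qe.IsSymm → (Q + D * Dᵀ).PosDef → (∀ x, |x ⬝ᵥ (Qe - Q) *ᵥ x| ≤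
        16 * (|be| + |ga|) * (x ⬝ᵥ (Q + D * Dᵀ) *ᵥ x)) → (Dᵀ * D).det ≠ 0 →
      |lk Qe D - lk Q D - 2⁻¹ * ((Q + D * Dᵀ)⁻¹ * (Qe - Q)).trace| ≤ (16 * (|be| + |ga|)) ^ 2 *
        ((n1 : ℝ) ^ 2 * (n2 : ℝ) ^ 2 * 4 * GD.d) := fun {Q Qe D} s se p b d => by
    obtain ⟨a0, a1, -, a2, -, -, -, a3⟩ := logdet_rel (A := Q + D * Dᵀ) (s.add (transpose_mul _ _))
      (se.sub s)
      (fun x hx => by simpa using p.dotProduct_mulVec_pos hx) (by linarith) b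
    rw [add_right_comm, add_sub_cancel] at a1 a2
    rw [lk, lk, Real.log_div a0.ne' (pow_ne_zero _ d), Real.log_div a1.ne' (pow_ne_zero _ d), ← c]
    rw [abs_le] at a2 ⊢
    constructor <;> linarith [a2.1, a2.2]
  have d : ∀ {F θ}, Bg (NN n1 n2) F θ →
      ((Dm (NN n1 n2) (ab θ))ᵀ * Dm (NN n1 n2) (ab θ)).det ≠ 0 := fun h h0 => by
    obtain ⟨v, v0, hv⟩ := exists_mulVec_eq_zero_iff.2 h0
    have := congrArg (v ⬝ᵥ ·) hv
    simp only [← mulVec_mulVec, dotProduct_zero] at this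
    rw [dotProduct_mulVec, vecMul_transpose, dotProduct_self_eq_zero, Dm_mulVec] at this
    exact v0 (DL_inj h v this)
  have a := abs_le.1 (key hQ.1 hQe.1 p1 p2 (d h))
  have b := abs_le.1 (key hQ0.1 hQe0.1 q1 q2 (d h'))
  rw [abs_le] at t ⊢
  constructor <;> linarith [a.1, a.2, b.1, b.2, t.1, t.2]

end Pool.Agent.Lib.MP_7f377f_mp.RG.Q4
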