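import Pool.Agent.Lib.MP_7f377f_mp.G.Q4XwC
import Pool.Agent.Lib.MP_7f377f_mp.G.Q4Xi

/-! Traces of real forms, the anisotropic part of the Hessian. -/

noncomputable section

namespace Pool.Agent.Lib.MP_7f377f_mp.RG.Q4.Xi

open Finset Matrix Complex

variable {α β κ : Type} [Fintype α] [Fintype β] [Fintype κ] [DecidableEq α] [DecidableEq β]
  [DecidableEq κ]

theorem tr_rel {A W P : Matrix κ κ ℝ} (hA : A.IsSymm) (hW : W.IsSymm)
    (hp : ∀ x, x ≠ 0 → 0 < x ⬝ᵥ A *ᵥ x) {η c : ℝ} (hη : η ≤ 1 / 2)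
    (h : ∀ x, |x ⬝ᵥ W *ᵥ x| ≤ η * (x ⬝ᵥ A *ᵥ x)) (hP : ∀ x, |x ⬝ᵥ P *ᵥ x| ≤ c * (x ⬝ᵥ A *ᵥ x)) :
    |((A + W)⁻¹ * P).trace - (A⁻¹ * P).trace| ≤ Fintype.card κ * (2 * η * c) := by
  obtain ⟨T, μ, h1, h2⟩ := diag_two hA hW hp
  have b : ∀ {X : Matrix κ κ ℝ} {c : ℝ}, (∀ x, |x ⬝ᵥ X *ᵥ x| ≤ c * (x ⬝ᵥ A *ᵥ x)) → ∀ j,
      |(Tᵀ * X * T) j j| ≤ c := fun h j => by
    simpa only [form_col, h1, one_apply_eq, mul_one] using h (T *ᵥ Pi.single j 1)
  have hμ : ∀ j, |μ j| ≤ η := fun j => by simpa only [h2, diagonal_apply_eq] using b h j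
  have p : ∀ j, 1 / 2 ≤ 1 + μ j := fun j => by linarith [(abs_le.1 (hμ j)).1]
  have i : ∀ (X : Matrix κ κ ℝ) (d : κ → ℝ), (∀ j, d j ≠ 0) → Tᵀ * X * T = diagonal d →
      (X⁻¹ * P).trace = ∑ j, (d j)⁻¹ * (Tᵀ * P * T) j j := fun X d hd e => by
    rw [inv_eq_left_inv (B := T * (diagonal d⁻¹ * Tᵀ)) (by
      rw [mul_assoc, mul_eq_one_comm, mul_assoc, mul_assoc, ← mul_assoc Tᵀ, e,
        diagonal_mul_diagonal, ← diagonal_one]
      exact congrArg _ (funext fun j => inv_mul_cancel₀ (hd j))), mul_assoc, trace_mul_comm,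
      mul_assoc, mul_assoc, ← mul_assoc Tᵀ]
    simp [trace]
  rw [i A 1 (by simp) (h1.trans diagonal_one.symm), i (A + W) (fun j => 1 + μ j)
    (fun j => by linarith [p j]) (by rw [mul_add, add_mul, h1, h2, ← diagonal_one, diagonal_add]),
    ← sum_sub_distrib]
  refine abs_sum_le fun j => ?_
  have := p j
  rw [← sub_mul, abs_mul]
  refine mul_le_mul ?_ (b hP j) (abs_nonneg _) (by linarith [(abs_nonneg _).trans (hμ j)])
  rw [show (1 + μ j)⁻¹ - ((1 : κ → ℝ) j)⁻¹ = -μ j / (1 + μ j) by simp; field_simp; ring, abs_div,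
    abs_neg, abs_of_pos (by linarith : 0 < 1 + μ j), div_le_iff₀ (by linarith)]
  nlinarith [hμ j, abs_nonneg (μ j)]

omit [DecidableEq α] [DecidableEq β] in
theorem trace_blocks {R : Type*} [AddCommMonoid R] (A : Matrix α α R) (B : Matrix α β R)
    (C : Matrix β α R) (D : Matrix β β R) : (fromBlocks A B C D).trace = A.trace + D.trace := by
  simp [trace]

theorem split_tr [GD] (g : α ⊕ β × Fin 2 → κ) (hg : g.Bijective) {A A' : Matrix κ κ ℝ}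
    {B B' : Matrix α α ℝ} {M M' : Matrix β β ℂ} (hA : A.IsSymm) (hA' : A'.IsSymm) (hB : B.IsSymm)
    (hB' : B'.IsSymm) (hM : M.IsHermitian) (hM' : M'.IsHermitian) (dB : B.det ≠ 0) (dM : M.det ≠ 0)
    (f : ∀ (a : κ → ℝ) (z : β → ℂ), (∀ i, z i = ⟨a (g (.inr (i, 0))), a (g (.inr (i, 1)))⟩) →
      a ⬝ᵥ A *ᵥ a = (fun i => a (g (.inl i))) ⬝ᵥ B *ᵥ (fun i => a (g (.inl i))) +
        (ip z (M *ᵥ z)).re)
    (f' : ∀ (a : κ → ℝ) (z : β → ℂ), (∀ i, z i = ⟨a (g (.inr (i, 0))), a (g (.inr (i, 1)))⟩) →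
      a ⬝ᵥ A' *ᵥ a = (fun i => a (g (.inl i))) ⬝ᵥ B' *ᵥ (fun i => a (g (.inl i))) +
        (ip z (M' *ᵥ z)).re) :
    (A⁻¹ * A').trace = (B⁻¹ * B').trace + 2 * rt (M⁻¹ * M') := by
  let e := Equiv.ofBijective g hg
  let r : Matrix β β ℂ →+* Matrix (β × Fin 2) (β × Fin 2) ℝ :=
    (compRingEquiv β (Fin 2) ℝ).toRingHom.comp cm.mapMatrix
  have r0 : ∀ M i j k l, r M (i, k) (j, l) = cm (M i j) k l := fun _ _ _ _ _ => rfl
  have key : ∀ {A : Matrix κ κ ℝ} {B : Matrix α α ℝ} {M : Matrix β β ℂ}, A.IsSymm → B.IsSymm →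
      M.IsHermitian → (∀ (a : κ → ℝ) (z : β → ℂ), (∀ i, z i = ⟨a (g (.inr (i, 0))),
        a (g (.inr (i, 1)))⟩) → a ⬝ᵥ A *ᵥ a = (fun i => a (g (.inl i))) ⬝ᵥ B *ᵥ
        (fun i => a (g (.inl i))) + (ip z (M *ᵥ z)).re) →
      A = (fromBlocks B 0 0 (r M)).submatrix e.symm e.symm := fun {A B M} hA hB hM f => by
    have s2 : (r M).IsSymm := by
      ext ⟨i, k⟩ ⟨j, l⟩
      fin_cases k <;> fin_cases l <;> simp [r0, cm, ← hM.apply j i]
    refine symm_ext hA ((hB.fromBlocks transpose_zero s2).submatrix _) fun a => ?_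
    rw [f a _ fun _ => rfl, submatrix_mulVec_equiv, dotProduct_comm a, comp_equiv_symm_dotProduct,
      dotProduct_comm _ (a ∘ _), Equiv.symm_symm, ← Sum.elim_comp_inl_inr (a ∘ e),
      fromBlocks_mulVec, sumElim_dotProduct_sumElim]
    simp only [Sum.elim_comp_inl, Sum.elim_comp_inr, zero_mulVec, add_zero, zero_add]
    congr 1
    simp only [ip, dotProduct, mulVec, Fintype.sum_prod_type, Fin.sum_univ_two, re_sum, mul_sum,
      ← sum_add_distrib]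
    refine sum_congr rfl fun i _ => sum_congr rfl fun j _ => ?_
    simp [r0, cm, e]; ring
  rw [key hA hB hM f, key hA' hB' hM' f', inv_eq_left_inv
    (B := (fromBlocks B⁻¹ 0 0 (r M⁻¹)).submatrix e.symm e.symm) (by
      rw [submatrix_mul_equiv, fromBlocks_multiply]
      simp [← map_mul, nonsing_inv_mul _ (Ne.isUnit dB), nonsing_inv_mul _ (Ne.isUnit dM)]),
    submatrix_mul_equiv, fromBlocks_multiply]
  simp only [Matrix.zero_mul, Matrix.mul_zero, add_zero, zero_add, ← map_mul]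
  refine (e.symm.sum_comp fun i => fromBlocks _ _ _ _ i i).trans ((trace_blocks _ _ _ _).trans ?_)
  simp [rt, trace, Fintype.sum_prod_type, r0, cm, two_mul, sum_add_distrib, -map_mul]

/-- the Hessian of the plaquettes without flux -/
def P4 (be ga : ℝ) (T : Fin 4 → unitaryGroup β ℂ) :
    Matrix ((β ⊕ β) ⊕ β ⊕ β) ((β ⊕ β) ⊕ β ⊕ β) ℂ :=
  let X := fun (c : ℝ) μ ν => -((c : ℂ) • (((T ν).1 - 1)ᴴ * ((T μ).1 - 1)))
  let Y := fromBlocks (X be 0 2) (X ga 0 3) (X ga 1 2) (X be 1 3)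
  let Z := fun μ ν => fromBlocks ((be : ℂ) • dl (T μ) + (ga : ℂ) • dl (T ν)) 0 0
    ((be : ℂ) • dl (T ν) + (ga : ℂ) • dl (T μ))
  fromBlocks (Z 2 3) Y Yᴴ (Z 0 1)

theorem P4_herm (be ga : ℝ) (T : Fin 4 → unitaryGroup β ℂ) : (P4 be ga T).IsHermitian := by
  have h : ∀ μ ν, ((be : ℂ) • dl (T μ) + (ga : ℂ) • dl (T ν)).IsHermitian := fun μ ν => by
    simp [IsHermitian, dl]
  exact ((h _ _).fromBlocks conjTranspose_zero (h _ _)).fromBlocks rfl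
    ((h _ _).fromBlocks conjTranspose_zero (h _ _))

theorem P4_form (be ga : ℝ) (T : Fin 4 → unitaryGroup β ℂ) (a : Fin 4 → β → ℂ)
    (z : (β ⊕ β) ⊕ β ⊕ β → ℂ) (hz : z = Sum.elim (Sum.elim (a 0) (a 1)) (Sum.elim (a 2) (a 3))) :
    ip z (P4 be ga T *ᵥ z) = be * (ip (crl T a 0 2) (crl T a 0 2) + ip (crl T a 1 3) (crl T a 1 3)) +
      ga * (ip (crl T a 0 3) (crl T a 0 3) + ip (crl T a 1 2) (crl T a 1 2)) := by
  have l : ∀ u v w : β → ℂ, ip (u + v) w = ip u w + ip v w ∧ ip (u - v) w = ip u w - ip v w ∧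
      ip w (u + v) = ip w u + ip w v ∧ ip w (u - v) = ip w u - ip w v := fun u v w => by simp [ip]
  have l' : ∀ u v : β → ℂ, (∀ c : ℂ, ip u (c • v) = c * ip u v) ∧ ip u (-v) = -ip u v :=
    fun u v => by simp [ip]
  have c : ∀ μ ν, crl T a μ ν = ((T μ).1 - 1) *ᵥ a ν - ((T ν).1 - 1) *ᵥ a μ := fun μ ν => by
    simp only [crl, sub_mulVec, one_mulVec]; abel
  rw [hz, P4, ip, Function.star_sumElim, Function.star_sumElim, Function.star_sumElim]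
  simp only [fromBlocks_conjTranspose, fromBlocks_mulVec, sumElim_dotProduct_sumElim,
    Sum.elim_comp_inl, Sum.elim_comp_inr, zero_mulVec, add_zero, zero_add, ← ip.eq_1, dl, c,
    dotProduct_add, conjTranspose_neg, conjTranspose_smul, conjTranspose_mul,
    conjTranspose_conjTranspose, star_def, conj_ofReal, add_mulVec, neg_mulVec, smul_mulVec,
    l, l', ip_mulVec, mulVec_mulVec]
  ring

theorem P4_tr {F : ℝ} {T : Fin 4 → unitaryGroup β ℂ} (h : (M4 F T).det ≠ 0) (be ga : ℝ) :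
    rt ((M4 F T)⁻¹ * P4 be ga T) =
      (be + ga) * Fintype.card β +
      be * (rt ((MB F T)⁻¹.toBlocks₁₁ * dl (T 2)) - rt ((Lap T)⁻¹ * dl (T 2)) +
        (rt ((MB F T)⁻¹.toBlocks₂₂ * dl (T 3)) - rt ((Lap T)⁻¹ * dl (T 3)))) +
      ga * (rt ((MB F T)⁻¹.toBlocks₁₁ * dl (T 3)) - rt ((Lap T)⁻¹ * dl (T 3)) +
        (rt ((MB F T)⁻¹.toBlocks₂₂ * dl (T 2)) - rt ((Lap T)⁻¹ * dl (T 2)))) := by
  simp only [M4, det_fromBlocks_zero₂₁, mul_ne_zero_iff, and_self] at h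
  have h2 := nonsing_inv_mul _ (Ne.isUnit h.2)
  have e : fromBlocks (MB F T)⁻¹ 0 0 (fromBlocks (Lap T)⁻¹ 0 0 (Lap T)⁻¹) * M4 F T = 1 := by
    simp [M4, fromBlocks_multiply, h2, nonsing_inv_mul _ (Ne.isUnit h.1)]
  have e1 : (Fintype.card β : ℝ) = ∑ μ, rt ((Lap T)⁻¹ * dl (T μ)) := by
    simp only [rt, ← re_sum, ← trace_sum, ← mul_sum]
    rw [show ∑ μ, dl (T μ) = Lap T from rfl, h2]; simp
  rw [inv_eq_left_inv e, e1, P4]
  nth_rewrite 1 [← fromBlocks_toBlocks (MB F T)⁻¹]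
  simp only [rt, fromBlocks_multiply, Matrix.zero_mul, Matrix.mul_zero, add_zero, zero_add,
    trace_blocks, mul_add, mul_smul_comm, trace_add, trace_smul, add_re, smul_eq_mul,
    re_ofReal_mul, Fin.sum_univ_four]
  ring

end Pool.Agent.Lib.MP_7f377f_mp.RG.Q4.Xi
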