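import Pool.Agent.Lib.MP_7f377f_mp.G.Q4XiH

/-! Isotropy of the logarithm: summation by parts in a central direction. -/

noncomputable section

namespace Pool.Agent.Lib.MP_7f377f_mp.RG.Q4.Xi

open Finset Real Matrix
open scoped BigOperators Matrix.Norms.L2Operator

section ring
variable {Γ R : Type*} [Group Γ] [Ring R] {z : Γ} {t : Fin 4 → Γ}

theorem Heis.step (h : Heis z t) (ρ : Γ →* R) (n : ℕ) (f : Z4 → ℤ) :
    Ew (n + 1) (fun a A => (f a : R) * ρ (z ^ (-A) * mon t a)) = ∑ σ : Lt, ρ (t σ.1 ^ sg σ.2) *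
      Ew n fun a A => (f (xi σ + a) : R) * ρ (z ^ (-A) * mon t a) := by
  refine sum_congr rfl fun σ _ => ?_
  rw [← Ew_mul]
  congr 1; funext a A
  rw [← mul_assoc, ← (Int.cast_commute _ _).eq, mul_assoc, ← map_mul, ← mul_assoc,
    ← ((h.cen _).zpow_left _).eq, mul_assoc, h.letter, ← mul_assoc, ← _root_.zpow_add, ← neg_add]

theorem Heis.ibp (h : Heis z t) (ρ : Γ →* R) {μ : Fin 4} (hc : ∀ ν, Commute (t μ) (t ν)) (n : ℕ) :
    Ew (n + 1) (fun a A => ((a μ ^ 2 : ℤ) : R) * ρ (z ^ (-A) * mon t a)) =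
      (n + 1) * ((∑ σ : Lt, ρ (t σ.1 ^ sg σ.2)) ^ n * (ρ (t μ) + ρ (t μ)⁻¹)) + (n + 1) * n *
        ((∑ σ : Lt, ρ (t σ.1 ^ sg σ.2)) ^ (n - 1) * (ρ (t μ) - ρ (t μ)⁻¹) ^ 2) := by
  set Y := ∑ σ : Lt, ρ (t σ.1 ^ sg σ.2) with hY
  set p := ρ (t μ) + ρ (t μ)⁻¹ with hp
  set q := ρ (t μ) - ρ (t μ)⁻¹ with hq
  have c1 : Commute (ρ (t μ)) Y := Commute.sum_right _ _ _ fun σ _ => ((hc _).zpow_right _).map ρ
  have c2 : Commute (ρ (t μ)⁻¹) Y :=
    Commute.sum_right _ _ _ fun σ _ => ((hc _).inv_left.zpow_right _).map ρ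
  have cp : Commute p Y := c1.add_left c2
  have cq : Commute q Y := c1.sub_left c2
  have s1 : ∑ σ : Lt, ρ (t σ.1 ^ sg σ.2) * (xi σ μ : R) = q := by
    rw [hq]; fin_cases μ <;> simp [Fintype.sum_prod_type, Fin.sum_univ_four, xi, sg, sub_eq_add_neg]
  have s2 : ∑ σ : Lt, ρ (t σ.1 ^ sg σ.2) * ((xi σ μ ^ 2 : ℤ) : R) = p := by
    rw [hp]; fin_cases μ <;> simp [Fintype.sum_prod_type, Fin.sum_univ_four, xi, sg]
  have e0 : ∀ n, Ew n (fun a A => ρ (z ^ (-A) * mon t a)) = Y ^ n := fun n => (h.pow ρ n).symm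
  have e1 : ∀ n, Ew n (fun a A => ((a μ : ℤ) : R) * ρ (z ^ (-A) * mon t a)) =
      n * (Y ^ (n - 1) * q) := fun n => by
    induction n with
    | zero => simp [Ew]
    | succ n ih =>
      rw [h.step ρ n fun a => a μ]
      simp only [Pi.add_apply, Int.cast_add, add_mul, Ew_add, Ew_mul, e0, ih, mul_add,
        sum_add_distrib, ← mul_assoc, ← sum_mul, s1, ← hY]
      rcases n with _ | n
      · simp
      · simp only [Nat.add_sub_cancel, (cq.pow_right _).eq]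
        rw [← (Nat.cast_commute _ Y).eq, mul_assoc _ Y, ← pow_succ']
        push_cast; noncomm_ring
  induction n with
  | zero =>
    rw [h.step ρ 0 fun a => a μ ^ 2]
    simpa [Ew, mon] using s2
  | succ n ih =>
    rw [h.step ρ (n + 1) fun a => a μ ^ 2]
    have : ∀ (σ : Lt) (a : Z4), (((xi σ + a) μ ^ 2 : ℤ) : R) = ((xi σ μ ^ 2 : ℤ) : R) +
        ((xi σ μ : ℤ) : R) * 2 * (a μ : ℤ) + (a μ ^ 2 : ℤ) := fun σ a => by
      rw [show (xi σ + a) μ ^ 2 = xi σ μ ^ 2 + xi σ μ * 2 * a μ + a μ ^ 2 by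
        rw [Pi.add_apply]; ring]
      push_cast; rfl
    simp only [this, add_mul, mul_assoc, Ew_add, Ew_mul, e0, e1, ih, mul_add, sum_add_distrib]
    simp only [← mul_assoc, ← sum_mul, s1, s2, ← hY, Nat.add_sub_cancel]
    have a1 : ∀ (k : ℕ) (x : R), x * k = k * x := fun k x => (Nat.cast_commute k x).eq.symm
    have a2 : q * 2 * ((n + 1 : ℕ) : R) * Y ^ n * q = 2 * (n + 1) * (Y ^ n * q ^ 2) := by
      rw [mul_assoc q, ← Nat.cast_two, ← Nat.cast_mul, a1, mul_assoc _ q, (cq.pow_right _).eq]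
      push_cast; noncomm_ring
    have a3 : (n : R) * (Y * (Y ^ (n - 1) * (q * q))) = n * (Y ^ n * (q * q)) := by
      rcases n with _ | n
      · simp
      · rw [Nat.add_sub_cancel, pow_succ' Y, mul_assoc]
    have a4 : Y * (n * (Y ^ (n - 1) * (q * q))) = n * (Y ^ n * (q * q)) := by
      rw [← mul_assoc, a1, mul_assoc, a3]
    rw [a2, (cp.pow_right _).eq, pow_succ' Y n]
    simp only [mul_one, one_mul, a1 n Y]
    push_cast; noncomm_ring
    rw [a3, a4]; abel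

end ring

theorem Ew_sq_cos (θ : Fin 4 → ℝ) (μ : Fin 4) (n : ℕ) :
    Ew (n + 1) (fun a _ => (a μ : ℝ) ^ 2 * cos (dot θ a)) ≤ 2 * (n + 1) * (16 - lam θ) ^ n := by
  let ρ : Multiplicative ℝ →* ℂ :=
    ⟨⟨fun x => Complex.exp (x.toAdd * Complex.I), by simp⟩, fun x y => by
      simp [add_mul, Complex.exp_add]⟩
  have r : ∀ x, ρ x = Complex.exp (x.toAdd * Complex.I) := fun _ => rfl
  have h : Heis (1 : Multiplicative ℝ) fun ν => Multiplicative.ofAdd (θ ν) :=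
    ⟨fun _ => .all _ _, by rw [one_mul, mul_comm], .all _ _, .all _ _, .all _ _, .all _ _, .all _ _⟩
  have e := congrArg Complex.re (h.ibp ρ (μ := μ) (fun _ => .all _ _) n)
  have c : ∀ x : ℝ, Complex.exp (x * Complex.I) + Complex.exp (-(x * Complex.I)) = (2 * cos x : ℝ) :=
    fun x => by push_cast; rw [Complex.two_cos, neg_mul]
  have s : ∀ x : ℝ, (Complex.exp (x * Complex.I) - Complex.exp (-(x * Complex.I))) ^ 2 =
      (-(4 * sin x ^ 2) : ℝ) := fun x => by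
    have := Complex.two_sin x
    rw [neg_mul] at this
    push_cast
    linear_combination (2 * Complex.sin x + (Complex.exp (-(x * Complex.I)) -
      Complex.exp (x * Complex.I)) * Complex.I) * this + (Complex.exp (-(x * Complex.I)) -
      Complex.exp (x * Complex.I)) ^ 2 * Complex.I_sq
  have y : ∑ σ : Lt, ρ (Multiplicative.ofAdd (θ σ.1) ^ sg σ.2) = (16 - lam θ : ℝ) := by
    simp only [Fintype.sum_prod_type, Fin.sum_univ_four, sg, r, lam]
    simp only [cons_val_zero, cons_val_one, Matrix.cons_val, zpow_one, zpow_zero, _root_.zpow_neg,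
      toAdd_inv, toAdd_ofAdd, toAdd_one, Complex.ofReal_neg, neg_mul, c, Complex.ofReal_zero,
      zero_mul, Complex.exp_zero]
    push_cast; ring
  rw [y, show Complex.re = Complex.reAddGroupHom from rfl, Ew_map] at e
  simp only [r, toAdd_inv, toAdd_ofAdd, Complex.ofReal_neg, neg_mul, c, s] at e
  have m : ∀ (a : Z4) (A : ℤ), Complex.reAddGroupHom (((a μ ^ 2 : ℤ) : ℂ) * Complex.exp
      ((((1 : Multiplicative ℝ) ^ (-A) * mon (fun ν => Multiplicative.ofAdd (θ ν)) a).toAdd : ℝ) *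
        Complex.I)) = (a μ : ℝ) ^ 2 * cos (dot θ a) := fun a A => by
    rw [← Complex.ofReal_intCast, Complex.coe_reAddGroupHom, Complex.re_ofReal_mul,
      Complex.exp_ofReal_mul_I_re]
    simp [mon, dot, Fin.sum_univ_four, mul_comm]
  simp only [m] at e
  rw [e, Complex.coe_reAddGroupHom]
  norm_cast
  have := lam_le θ
  have p : ∀ k, 0 ≤ (16 - lam θ) ^ k := fun k => pow_nonneg (by linarith) k
  push_cast
  nlinarith [mul_le_mul_of_nonneg_left (cos_le_one (θ μ)) (by have := p n; positivity :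
    0 ≤ (n + 1 : ℝ) * (16 - lam θ) ^ n), show 0 ≤ (n + 1 : ℝ) * n * ((16 - lam θ) ^ (n - 1) *
    sin (θ μ) ^ 2) by have := p (n - 1); positivity]

theorem av_ret {N1 N2 n : ℕ} (h2 : 0 < N2) (h21 : N2 ≤ N1) (hn : 0 < n) :
    𝔼 k, (16 - lam (ang (NN N1 N2) 0 k)) ^ n ≤ 16 ^ n * (128 / (N2 : ℝ) ^ 4 + 2048 / n ^ 2) := by
  have h0 : 0 < N1 := h2.trans_le h21
  have n0 : (0 : ℝ) < n := by exact_mod_cast hn
  have t0 : (0 : ℝ) < n / 16 := by positivity
  refine (expect_le_expect (g := fun k => 16 ^ n * exp (-(n / 16 * lam (ang _ 0 k))))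
    fun k _ => ?_).trans ?_
  · rw [show -(n / 16 * lam (ang _ 0 k)) = n * -(lam (ang _ 0 k) / 16) by ring, exp_nat_mul,
      ← mul_pow]
    have := lam_le (ang _ 0 k)
    gcongr
    · linarith
    · linarith [add_one_le_exp (-(lam (ang _ 0 k) / 16))]
  rw [← mul_expect, av_exp]
  gcongr
  set s := √(n : ℝ) with hs
  have s0 : 0 < s := sqrt_pos.2 n0
  have s2 : (n : ℝ) = s ^ 2 := (sq_sqrt n0.le).symm
  have e : (√(n / 16 : ℝ))⁻¹ = 4 / s := by
    rw [show (n / 16 : ℝ) = (s / 4) ^ 2 by rw [s2]; ring, sqrt_sq (by positivity), inv_div]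
  have a := th_le h0 le_rfl zero_le_one t0
  have b := th_le h2 le_rfl zero_le_one t0
  have a0 := (th_mem (N := N1) 0 t0.le).1
  have b0 := (th_mem (N := N2) 0 t0.le).1
  have c : 2 / (N1 : ℝ) ≤ 2 / N2 := by gcongr
  rw [e] at a b
  have a' : th N1 0 (n / 16) ≤ 2 / N2 + 4 / s := by linarith
  simp only [Fin.prod_univ_four, NN, Pi.zero_apply, Matrix.cons_val]
  calc _ ≤ (2 / N2 + 4 / s) * (2 / N2 + 4 / s) * (2 / N2 + 4 / s) * (2 / N2 + 4 / s) := by gcongr
    _ = (2 / N2 + 4 / s) ^ 4 := by ring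
    _ ≤ 8 * ((2 / N2) ^ 4 + (4 / s) ^ 4) :=
      (add_pow_le (by positivity) (by positivity) 4).trans_eq (by norm_num)
    _ = _ := by rw [s2]; ring

/-- the second moment of the windings -/
def mw (N1 N2 : ℕ) (μ : Fin 4) (n : ℕ) : ℝ := Ew n fun a _ => (a μ : ℝ) ^ 2 * gt (NN N1 N2) 0 a

theorem mw_ret {N1 N2 n : ℕ} (h2 : 0 < N2) (h21 : N2 ≤ N1) (hn : 0 < n) (μ : Fin 4) :
    mw N1 N2 μ (n + 1) ≤ 16 ^ (n + 1) * (16 * (n + 1) / (N2 : ℝ) ^ 4 + 512 / n) := by
  have n1 : (1 : ℝ) ≤ n := by exact_mod_cast hn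
  simp only [mw, gt, ← av_cos (NN_pos (h2.trans_le h21) h2), mul_expect]
  rw [Ew_av]
  refine (expect_le_expect fun k _ => Ew_sq_cos _ μ n).trans ?_
  rw [← mul_expect]
  refine (mul_le_mul_of_nonneg_left (av_ret h2 h21 hn) (by positivity)).trans ?_
  have : (n + 1 : ℝ) * (2048 / n ^ 2) ≤ 4096 / n := by
    rw [mul_div_assoc', div_le_div_iff₀ (by positivity) (by positivity)]; nlinarith
  have e : (16 : ℝ) ^ (n + 1) * (16 * (n + 1) / (N2 : ℝ) ^ 4 + 512 / n) =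
      16 ^ n * (2 * ((n + 1) * (128 / (N2 : ℝ) ^ 4) + 4096 / n)) := by ring
  rw [e, mul_left_comm, mul_assoc, mul_add]
  gcongr

theorem mw_exp {N1 N2 : ℕ} {μ : Fin 4} (hμ : μ = 2 ∨ μ = 3) (n : ℕ) {t : ℝ} (ht : 0 ≤ t) :
    mw N1 N2 μ n ≤ 16 ^ n * (2 * n ^ 2 * exp (n * (t ^ 2 / 2) - t * N2)) := by
  refine (Ew_le n (g := fun a _ => n ^ 2 * exp (-(t * N2)) * (exp (t * a μ) + exp (-t * a μ)))
    fun a _ ha _ => ?_).trans ?_
  · by_cases h0 : a μ = 0
    · simp only [h0]; norm_num; positivity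
    unfold gt
    split_ifs with h
    · have h1 : (N2 : ℤ) ≤ |a μ| := Int.le_of_dvd (abs_pos.2 h0) ((dvd_abs _ _).2 (by
        rcases hμ with rfl | rfl; exacts [h 2, h 3]))
      have h2 : (N2 : ℝ) ≤ |(a μ : ℝ)| := by exact_mod_cast h1
      have h3 : |(a μ : ℝ)| ≤ n := by exact_mod_cast ha μ
      have h4 : 1 ≤ exp (-(t * N2)) * (exp (t * a μ) + exp (-t * a μ)) := by
        rw [mul_add, ← exp_add, ← exp_add]
        rcases le_abs.1 h2 with h | h
        · exact le_add_of_le_of_nonneg (one_le_exp (by nlinarith)) (exp_pos _).le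
        · exact le_add_of_nonneg_of_le (exp_pos _).le (one_le_exp (by nlinarith))
      rw [mul_assoc, ← sq_abs]
      exact mul_le_mul (by gcongr) ((cos_le_one _).trans h4) (by simp) (by positivity)
    · rw [mul_zero]; positivity
  · rw [Ew_mul, Ew_add, sub_eq_neg_add (_ * _), exp_add]
    have a := Ew_exp t μ n
    have b := Ew_exp (-t) μ n
    rw [neg_sq] at b
    nlinarith [show 0 ≤ (n : ℝ) ^ 2 * exp (-(t * N2)) by positivity]

theorem sum_inv_sq {b : ℝ} (hb : 1 < b) (N : ℕ) :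
    ∑ n ∈ range N, ((n + b) ^ 2)⁻¹ ≤ (b - 1)⁻¹ - (N + b - 1)⁻¹ := by
  induction N with
  | zero => simp
  | succ N ih =>
    have : (0 : ℝ) < N + b - 1 := by linarith [N.cast_nonneg (α := ℝ)]
    have p : (0 : ℝ) < N + b := by linarith
    have e : ((N + b) ^ 2)⁻¹ ≤ (N + b - 1)⁻¹ - (N + b)⁻¹ := by
      rw [inv_sub_inv this.ne' p.ne', sub_sub_cancel, one_div, sq]
      gcongr; linarith
    rw [sum_range_succ]
    push_cast
    rw [show (N : ℝ) + 1 + b - 1 = N + b by ring]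
    linarith

theorem mw_sum {N1 N2 : ℕ} (h21 : N2 ≤ N1) (hl : 100 ≤ log N2) {μ : Fin 4} (hμ : μ = 2 ∨ μ = 3)
    {η z : ℝ} (η0 : 0 < η) (η1 : η ≤ 1) (z0 : 0 ≤ z) (z1 : η / (17 * N2 ^ 2) ≤ 1 - z) (N : ℕ) :
    ∑ n ∈ range N, z ^ n * (mw N1 N2 μ (n + 1) / 16 ^ (n + 1)) ≤
      8704 * η * log N2 + 56000 / η ^ 2 := by
  have h2 : 0 < N2 := pos_of_ne_zero fun h => by simp [h] at hl; linarith
  have u0 : (0 : ℝ) < N2 := by exact_mod_cast h2
  have ul := log_le_sub_one_of_pos u0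
  set u : ℝ := (N2 : ℝ)
  set l := log u with hll
  have l0 : 0 < l := by linarith
  set b := u ^ 2 / (50 * l) with hb
  have b2 : 2 ≤ b := by rw [hb, le_div_iff₀ (by positivity)]; nlinarith
  set δ := η ^ 2 * l / u ^ 2 with hδ
  have δ0 : 0 < δ := by positivity
  have zz : 0 < 1 - z := lt_of_lt_of_le (by positivity) z1
  have z2 : z ≤ 1 := by linarith
  have key : ∀ n : ℕ, z ^ n * (mw N1 N2 μ (n + 1) / 16 ^ (n + 1)) ≤ (2 / u ^ 2 + 512 * δ) * z ^ n +
      16 / u ^ 4 * ((n + 1).choose 1 * z ^ n) + 512 / δ * ((n + b) ^ 2)⁻¹ := fun n => by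
    have zn : 0 ≤ z ^ n := pow_nonneg z0 n
    have n0 := n.cast_nonneg (α := ℝ)
    rcases le_total (n + 1 : ℝ) (2 * b) with h | h
    · have := mw_exp (N1 := N1) (N2 := N2) hμ (n + 1) (t := 7 * l / u) (by positivity)
      rw [← div_le_iff₀' (by positivity)] at this
      have e : (n + 1 : ℕ) * ((7 * l / u) ^ 2 / 2) - 7 * l / u * u ≤ -((6 : ℕ) * l) := by
        have : (n + 1 : ℝ) * ((7 * l / u) ^ 2 / 2) ≤ 2 * b * ((7 * l / u) ^ 2 / 2) := by gcongr
        rw [show 2 * b * ((7 * l / u) ^ 2 / 2) = 49 / 50 * l by rw [hb]; field_simp; norm_num] at this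
        rw [div_mul_cancel₀ _ u0.ne']
        push_cast; linarith
      have e2 := exp_le_exp.2 e
      rw [Real.exp_neg, Real.exp_nat_mul, hll, exp_log u0] at e2
      have e3 : (n + 1 : ℝ) ≤ u ^ 2 := h.trans (by
        rw [hb, mul_div_assoc', div_le_iff₀ (by positivity)]; nlinarith [sq_nonneg u])
      have e4 : 2 * ((n + 1 : ℕ) : ℝ) ^ 2 * exp ((n + 1 : ℕ) * ((7 * l / u) ^ 2 / 2) - 7 * l / u * u) ≤
          2 / u ^ 2 := by
        calc _ ≤ 2 * (u ^ 2) ^ 2 * (u ^ 6)⁻¹ := by push_cast at e2 ⊢; gcongr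
          _ = _ := by field_simp
      have := mul_le_mul_of_nonneg_left (this.trans e4) zn
      have : 0 ≤ 512 * δ * z ^ n + 16 / u ^ 4 * ((n + 1).choose 1 * z ^ n) +
        512 / δ * ((n + b) ^ 2)⁻¹ := by positivity
      linarith
    · have nb : b ≤ n := by linarith
      have np : (0 : ℝ) < n := by linarith
      have := mw_ret h2 h21 (by exact_mod_cast np : 0 < n) μ
      rw [← div_le_iff₀' (by positivity)] at this
      have e : 1 / (n : ℝ) ≤ δ + 1 / δ * ((n + b) ^ 2)⁻¹ := by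
        have a : ((2 * n : ℝ) ^ 2)⁻¹ ≤ ((n + b) ^ 2)⁻¹ := by gcongr; linarith
        refine le_trans ?_ (add_le_add le_rfl (mul_le_mul_of_nonneg_left a (by positivity)))
        have : δ + 1 / δ * ((2 * n : ℝ) ^ 2)⁻¹ - 1 / n = (2 * n * δ - 1) ^ 2 / (δ * (2 * n) ^ 2) := by
          field_simp; ring
        linarith [show 0 ≤ (2 * n * δ - 1) ^ 2 / (δ * (2 * n) ^ 2) by positivity]
      have a1 := mul_le_mul_of_nonneg_left this zn
      have a2 := mul_le_mul_of_nonneg_left e zn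
      have a3 := mul_le_mul_of_nonneg_right (pow_le_one₀ (n := n) z0 z2)
        (by positivity : 0 ≤ 1 / δ * ((n + b) ^ 2)⁻¹)
      have a4 : 0 ≤ 2 / u ^ 2 * z ^ n := by positivity
      rw [Nat.choose_one_right]
      push_cast
      simp only [div_eq_mul_inv] at *
      nlinarith
  have nz : ‖z‖ < 1 := by rw [Real.norm_of_nonneg z0]; linarith
  have s1 := sum_le_hasSum (range N) (fun n _ => pow_nonneg z0 n) (hasSum_geometric_of_lt_one z0
    (by linarith))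
  have s2 := sum_le_hasSum (range N) (fun n _ => by positivity)
    (hasSum_choose_mul_geometric_of_norm_lt_one 1 nz)
  have s3 := (sum_inv_sq (by linarith : 1 < b) N).trans (sub_le_self _ (inv_nonneg.2 (by
    linarith [N.cast_nonneg (α := ℝ)])))
  have i1 : (1 - z)⁻¹ ≤ 17 * u ^ 2 / η := (inv_anti₀ (by positivity) z1).trans_eq (inv_div _ _)
  have i2 : 1 / (1 - z) ^ (1 + 1) ≤ (17 * u ^ 2 / η) ^ 2 := by
    rw [one_div, ← inv_pow]; gcongr
  have i3 : (b - 1)⁻¹ ≤ 100 * l / u ^ 2 :=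
    (inv_anti₀ (by linarith) (by linarith : b / 2 ≤ b - 1)).trans_eq (by rw [hb]; field_simp; ring)
  refine (sum_le_sum fun n _ => key n).trans ?_
  simp only [sum_add_distrib, ← mul_sum]
  calc _ ≤ (2 / u ^ 2 + 512 * δ) * (17 * u ^ 2 / η) + 16 / u ^ 4 * (17 * u ^ 2 / η) ^ 2 +
        512 / δ * (100 * l / u ^ 2) := by
        gcongr
        exacts [s1.trans i1, s2.trans i2, s3.trans i3]
    _ = 8704 * η * l + (34 * η + 55824) / η ^ 2 := by rw [hδ]; field_simp; ring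
    _ ≤ _ := by gcongr; linarith

end Pool.Agent.Lib.MP_7f377f_mp.RG.Q4.Xi
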