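import Pool.Agent.Lib.MP_7f377f_mp.G.Q4XwB

/-! Isotropy of the logarithm: the trace of the cube of the Green function. -/

noncomputable section

namespace Pool.Agent.Lib.MP_7f377f_mp.RG.Q4.Xi

open Finset Real Matrix
open scoped BigOperators Matrix.Norms.L2Operator InnerProductSpace

variable {ι : Type*} [Fintype ι] [DecidableEq ι]

/-- one direction of the Laplacian -/
def dl (U : unitaryGroup ι ℂ) : Matrix ι ι ℂ := (U.1 - 1)ᴴ * (U.1 - 1)

theorem dl_comm {U V : unitaryGroup ι ℂ} (h : Commute U V) : Commute (dl U) (dl V) ∧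
    dl U * dl V = ((V.1 - 1) * (U.1 - 1))ᴴ * ((V.1 - 1) * (U.1 - 1)) := by
  have c : ∀ {U : unitaryGroup ι ℂ}, Commute U V → Commute (U.1 - 1) (dl V) := fun h =>
    .sub_left (.mul_right (by
      rw [conjTranspose_sub, conjTranspose_one]
      exact .sub_right (congrArg Subtype.val h.inv_right.eq) (.one_right _))
      (.sub_right (congrArg Subtype.val h.eq) (.one_right _))) (.one_left _)
  have c' : Commute (U.1 - 1)ᴴ (dl V) := by
    rw [conjTranspose_sub, conjTranspose_one]; exact c (U := U⁻¹) h.inv_left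
  refine ⟨c'.mul_left (c h), ?_⟩
  rw [dl, mul_assoc, (c h).eq, dl, conjTranspose_mul]
  simp only [mul_assoc]

theorem rt_cj (U : unitaryGroup ι ℂ) (X : Matrix ι ι ℂ) :
    ∃ x : ι → ℝ, (∀ i, |x i| ≤ ‖X‖) ∧ ∀ f, rt (cj U f * X) = ∑ i, f i * x i := by
  refine ⟨fun i => ((star U.1 * X * U.1) i i).re, fun i => (Complex.abs_re_le_norm _).trans ?_,
    fun f => ?_⟩
  · have := (op (star U.1 * X * U.1)).le_opNorm (EuclideanSpace.single i 1)
    have e : ‖op (star U.1 * X * U.1)‖ = ‖X‖ := by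
      change ‖star U.1 * X * U.1‖ = _
      rw [← Unitary.coe_star, CStarRing.norm_mul_coe_unitary, CStarRing.norm_coe_unitary_mul]
    rw [e] at this
    generalize star U.1 * X * U.1 = M at this ⊢
    simpa using (PiLp.norm_apply_le _ i).trans this
  · rw [cj_apply, mul_assoc, mul_assoc, rt_comm, mul_assoc]
    simp [rt, trace]

variable [Tw] {N1 N2 : ℕ} {φ : ℝ} {T : Fin 4 → unitaryGroup ι ℂ} {μ : Fin 4}

omit [Tw] in
theorem Heis.cen2 {Γ : Type*} [Group Γ] {z : Γ} {t : Fin 4 → Γ} (h : Heis z t)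
    (hμ : μ = 2 ∨ μ = 3) (ν : Fin 4) : Commute (t μ) (t ν) := by
  rcases hμ with rfl | rfl <;> fin_cases ν
  exacts [h.c02.symm, h.c12.symm, .refl _, h.c23, h.c03.symm, h.c13.symm, h.c23.symm, .refl _]

theorem Mag.dg (h : Mag N1 N2 φ T) (h2 : 0 < N2) (hμ : μ = 2 ∨ μ = 3) :
    Commute (dl (T μ)) (Lap T) ∧ Commute (dl (T μ)) (Lap T)⁻¹ ∧ ‖(Lap T)⁻¹ * dl (T μ)‖ ≤ 1 := by
  have hc := fun ν => dl_comm (h.heis.cen2 hμ ν)
  obtain ⟨-, i1, i2, -⟩ := (h.gap h2).inv (by positivity)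
  have c : Commute (dl (T μ)) (Lap T) := .sum_right _ _ _ fun ν _ => (hc ν).1
  have c' : Commute (dl (T μ)) (Lap T)⁻¹ := by
    rw [commute_iff_eq, ← one_mul (_ * _), ← i1, mul_assoc, ← mul_assoc (Lap T), ← c.eq,
      mul_assoc, i2, mul_one]
  refine ⟨c, c', ?_⟩
  rw [← c'.eq]
  refine (op (dl (T μ) * (Lap T)⁻¹)).opNorm_le_bound zero_le_one fun v => ?_
  have e : (Lap T)ᴴ * Lap T = (dl (T μ))ᴴ * dl (T μ) + (Lap T - dl (T μ))ᴴ * (Lap T - dl (T μ)) +
      2 • ∑ ν ∈ univ.erase μ, (((T ν).1 - 1) * ((T μ).1 - 1))ᴴ * (((T ν).1 - 1) * ((T μ).1 - 1)) := by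
    have : Lap T - dl (T μ) = ∑ ν ∈ univ.erase μ, dl (T ν) := by
      rw [sum_erase_eq_sub (mem_univ _)]; rfl
    rw [← sum_congr rfl fun ν _ => (hc ν).2, ← mul_sum, ← this, conjTranspose_sub,
      (h.gap h2).1.eq, show (dl (T μ))ᴴ = dl (T μ) by simp [dl]]
    linear_combination (norm := noncomm_ring) c.eq.symm
  have := form_sq (Lap T) (op (Lap T)⁻¹ v)
  simp only [e, op, map_add, map_sum, _root_.add_apply, _root_.sum_apply, two_nsmul,
    inner_add_right, inner_sum, Complex.add_re, Complex.re_sum, form_sq] at this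
  rw [← mul_apply_eq_comp (Lap T |> op), ← map_mul, i2, map_one, one_apply_eq_self] at this
  rw [op, map_mul, mul_apply_eq_comp, one_mul]
  refine (sq_le_sq₀ (norm_nonneg _) (norm_nonneg _)).1 (le_of_le_of_eq ?_ this)
  rw [add_assoc]
  exact le_add_of_nonneg_right (add_nonneg (sq_nonneg _) (add_nonneg
    (sum_nonneg fun _ _ => sq_nonneg _) (sum_nonneg fun _ _ => sq_nonneg _)))

theorem Mag.sq_word (h : Mag N1 N2 φ T) (μ : Fin 4) (n : ℕ) :
    |rt (Ew n fun a A => ((a μ ^ 2 : ℤ) : Matrix ι ι ℂ) * (ph φ ^ (-A) * mon T a).1)| ≤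
      Fintype.card ι * mw N1 N2 μ n := by
  rw [show rt = (AddMonoidHom.mk' rt rt_add : Matrix ι ι ℂ →+ ℝ) from rfl, Ew_map, mw, ← Ew_mul]
  have := Ew_close n (g := fun _ _ => 0) (f := fun a A => rt (((a μ ^ 2 : ℤ) : Matrix ι ι ℂ) *
      (ph φ ^ (-A) * mon T a).1)) (b := fun a _ => Fintype.card ι * ((a μ : ℝ) ^ 2 *
      gt (NN N1 N2) 0 a)) fun a A _ _ => by
    rw [sub_zero, ← zsmul_eq_mul, ← Int.cast_smul_eq_zsmul ℂ, ← Complex.ofReal_intCast, rt_smul,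
      abs_mul, mul_left_comm, gt, Int.cast_pow, abs_sq]
    gcongr
    split_ifs with hd
    · exact (rt_le _).trans (mul_le_mul_of_nonneg_left
        ((norm_uni _).trans_eq (by simp)) (Nat.cast_nonneg _))
    · simp [ph_zpow, rt, ph_val, h.tr a hd]
  simpa [Ew_const] using this

omit [Tw] in
theorem geo2 {w y : ℝ} (h : |w * y| < 1) (p q : ℝ) : HasSum (fun n : ℕ => w ^ (n + 2) *
    ((n + 1) * (y ^ n * p) + (n + 1) * n * (y ^ (n - 1) * q)))
    (w ^ 2 * p / (1 - w * y) ^ 2 + 2 * w ^ 3 * q / (1 - w * y) ^ 3) := by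
  rw [← Real.norm_eq_abs] at h
  have a := (hasSum_choose_mul_geometric_of_norm_lt_one 1 h).mul_left (w ^ 2 * p)
  have b := (hasSum_choose_mul_geometric_of_norm_lt_one 2 h).mul_left (2 * w ^ 3 * q)
  have c := (hasSum_nat_add_iff (f := fun n : ℕ => w ^ (n + 2) * ((n + 1) * n * (y ^ (n - 1) * q)))
    1).1 (b.congr_fun fun n => by rw [Nat.cast_choose_two, Nat.add_sub_cancel]; push_cast; ring)
  convert a.add c using 1
  · rfl
  · funext n; simp; ring
  · simp [div_eq_mul_inv]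

theorem Mag.cube (h : Mag N1 N2 φ T) (h21 : N2 ≤ N1) (hl : 100 ≤ log N2) (hμ : μ = 2 ∨ μ = 3)
    {η : ℝ} (η0 : 0 < η) (η1 : η ≤ 1) :
    |8 * rt ((Lap T)⁻¹ * dl (T μ) * ((Lap T)⁻¹ * (Lap T)⁻¹)) - 2 * hs (Lap T)⁻¹ ^ 2| ≤
      Fintype.card ι * (544 * η * log N2 + 3500 / η ^ 2) +
        3 * (√(Fintype.card ι) * hs (Lap T)⁻¹) + 14 * η * hs (Lap T)⁻¹ ^ 2 := by
  have h2 : 0 < N2 := pos_of_ne_zero fun h => by simp [h] at hl; linarith
  have u1 : (1 : ℝ) ≤ (N2 : ℝ) ^ 2 := one_le_pow₀ (by exact_mod_cast h2)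
  obtain ⟨c1, c2, n1⟩ := h.dg h2 hμ
  obtain ⟨-, i1, i2, -⟩ := (h.gap h2).inv (by positivity)
  obtain ⟨U, d, e, hd⟩ := (h.gap h2).spec
  have d0 : ∀ i, 0 < d i := fun i => lt_of_lt_of_le (by positivity) (hd i)
  have d1 : ∀ i, d i ≤ 16 := fun i => (le_abs_self _).trans ((norm_le_pi_norm d i).trans
    (norm_cj U d ▸ e ▸ norm_Lap T))
  have e' : (Lap T)⁻¹ = cj U d⁻¹ := inv_eq_left_inv (by
    rw [e, ← map_mul, ← map_one (cj U)]; congr 1; ext i; exact inv_mul_cancel₀ (d0 i).ne')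
  set X := (Lap T)⁻¹ * dl (T μ) with hX
  obtain ⟨x, x1, x2⟩ := rt_cj U X
  obtain ⟨y, y1, y2⟩ := rt_cj U (X * X)
  have eX : dl (T μ) = cj U d * X := by rw [← e, hX, ← mul_assoc, i2, one_mul]
  have eX2 : dl (T μ) * dl (T μ) = cj U (d * d) * (X * X) := by
    rw [map_mul, ← e, hX, mul_assoc (Lap T)⁻¹, ← mul_assoc (dl _), c2.eq]
    simp only [mul_assoc]
    rw [← mul_assoc (Lap T) (Lap T)⁻¹, i2, one_mul, ← mul_assoc (Lap T) (Lap T)⁻¹, i2, one_mul]
  have w : ∀ n : ℕ, |∑ i, ((n + 1) * ((16 - d i) ^ n * (2 - d i * x i)) + (n + 1) * n *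
      ((16 - d i) ^ (n - 1) * (d i * d i * y i - 4 * (d i * x i))))| ≤
      Fintype.card ι * mw N1 N2 μ (n + 1) := fun n => by
    have := h.sq_word μ (n + 1)
    have b := h.heis.ibp (unitaryGroup ι ℂ).subtype (h.heis.cen2 hμ) n
    simp only [Submonoid.subtype_apply, Lap_letters] at b
    have p : (T μ).1 + ((T μ)⁻¹).1 = 2 - dl (T μ) := by
      rw [dl, sq_eq, sub_sub, sub_sub_cancel]; rfl
    have q : ((T μ).1 - ((T μ)⁻¹).1) ^ 2 = dl (T μ) * dl (T μ) - 4 * dl (T μ) := by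
      have a1 : (T μ).1 * ((T μ)⁻¹).1 = 1 := (T μ).2.2
      have a2 : ((T μ)⁻¹).1 * (T μ).1 = 1 := (T μ).2.1
      rw [eq_sub_iff_add_eq', ← eq_sub_iff_add_eq] at p
      rw [p]
      linear_combination (norm := (noncomm_ring; norm_num)) -2 * a1 - 2 * a2
    rw [b, p, q, eX2, eX, e] at this
    refine le_of_eq_of_le (congrArg _ ?_) this
    have k : ∀ k : ℕ, (k : Matrix ι ι ℂ) = cj U k := fun k => (map_natCast _ k).symm
    have x0 := trace_cj U
    rw [← map_ofNat (cj U) 16, ← map_ofNat (cj U) 2, ← map_ofNat (cj U) 4, ← map_one (cj U), k]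
    simp only [mul_sub, ← mul_assoc _ (cj U _), ← map_mul, ← map_sub, ← map_pow, ← map_add, rt_add,
      rt_sub, x2, y2, x0, ← sum_add_distrib, ← sum_sub_distrib]
    exact sum_congr rfl fun i _ => by simp [mul_assoc]
  set m := η / (N2 : ℝ) ^ 2 with hm
  have m0 : 0 < m := by positivity
  have m1 : m ≤ 1 := (div_le_self η0.le u1).trans η1
  have s := hasSum_sum fun i (_ : i ∈ univ) => geo2 (w := (16 + m)⁻¹) (y := 16 - d i) (by
    rw [abs_of_nonneg (by have := d1 i; positivity [sub_nonneg.2 this]), inv_mul_lt_iff₀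
      (by positivity)]; linarith [d0 i]) (2 - d i * x i) (d i * d i * y i - 4 * (d i * x i))
  have s1 := le_of_tendsto' s.tendsto_sum_nat.abs (b := Fintype.card ι *
      (544 * η * log N2 + 3500 / η ^ 2)) fun N => by
    have := mw_sum h21 hl hμ η0 η1 (z := 16 * (16 + m)⁻¹) (by positivity) (by
      rw [show η / (17 * N2 ^ 2) = m / 17 by rw [hm]; field_simp, show 1 - 16 * (16 + m)⁻¹ =
        m / (16 + m) by field_simp; ring]
      gcongr; linarith) N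
    refine (abs_sum_le_sum_abs _ _).trans ((sum_le_sum fun n _ => ?_).trans ((mul_sum _ _ _).ge.trans
      ((mul_le_mul_of_nonneg_left this (a := (Fintype.card ι / 16 : ℝ)) (by positivity)).trans_eq
        (by ring))))
    rw [← mul_sum, abs_mul, abs_of_pos (by positivity)]
    have a := (abs_nonneg _).trans (w n)
    have b : (16 + m)⁻¹ ≤ 16⁻¹ := by gcongr; linarith
    calc _ ≤ (16 + m)⁻¹ ^ n * 16⁻¹ ^ 2 * (Fintype.card ι * mw N1 N2 μ (n + 1)) := by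
          rw [pow_add]; gcongr; exact w n
      _ = _ := by rw [mul_pow]; field_simp; ring
  have a1 : rt (X * ((Lap T)⁻¹ * (Lap T)⁻¹)) = ∑ i, (d i)⁻¹ ^ 2 * x i := by
    rw [rt_comm, e', ← map_mul, x2]; simp [sq]
  have a2 : hs (Lap T)⁻¹ ^ 2 = ∑ i, (d i)⁻¹ ^ 2 := by
    rw [hs_sq, (h.gap h2).1.inv.eq, e', ← map_mul, trace_cj]; simp [sq]
  have a3 : ∑ i, (d i)⁻¹ ≤ √(Fintype.card ι) * hs (Lap T)⁻¹ :=
    (le_of_eq (by rw [e', trace_cj]; rfl)).trans ((le_abs_self _).trans (rt_hs _))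
  rw [a1, a2]
  refine le_trans ?_ (add_le_add (add_le_add s1 (mul_le_mul_of_nonneg_left a3 zero_le_three)) le_rfl)
  rw [add_assoc, add_comm]
  refine (le_of_eq (congrArg _ (add_sub_cancel_right _ _).symm)).trans ((abs_sub _ _).trans
    (add_le_add ?_ le_rfl))
  simp only [mul_sum, ← sum_sub_distrib, ← sum_add_distrib]
  refine (abs_sum_le_sum_abs _ _).trans (sum_le_sum fun i _ => ?_)
  have x3 := abs_le.1 ((x1 i).trans n1)
  have y3 := abs_le.1 ((y1 i).trans ((norm_mul_le _ _).trans (mul_le_one₀ n1 (norm_nonneg _) n1)))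
  have l0 := d0 i
  obtain ⟨κ, hκ⟩ : ∃ κ, κ = d i / (d i + m) := ⟨_, rfl⟩
  have κ1 : κ ≤ 1 := by rw [hκ, div_le_one (by positivity)]; linarith
  have κ2 : 1 - η / 2 ≤ κ := by
    have : m ≤ η / 2 * d i := le_of_eq_of_le (by rw [hm]; ring)
      (mul_le_mul_of_nonneg_left (hd i) (by positivity))
    rw [hκ, le_div_iff₀ (by positivity)]; nlinarith
  rw [show 1 - (16 + m)⁻¹ * (16 - d i) = (16 + m)⁻¹ * (d i + m) by field_simp; ring]
  refine le_of_eq_of_le (b := |(d i)⁻¹ ^ 2 * (8 * (x i * (1 - κ ^ 3)) - 2 * (1 - κ ^ 2) -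
    d i * (x i * κ ^ 2 - 2 * (y i * κ ^ 3)))|) (by rw [hκ]; congr 1; field_simp; ring) ?_
  rw [abs_mul, abs_sq, show 3 * (d i)⁻¹ + 14 * η * (d i)⁻¹ ^ 2 = (d i)⁻¹ ^ 2 * (14 * η + d i * 3) by
    field_simp; ring]
  gcongr
  have κ0 : 0 ≤ κ := by linarith
  have k2 : κ ^ 2 ≤ 1 := pow_le_one₀ κ0 κ1
  have k3 : κ ^ 3 ≤ 1 := pow_le_one₀ κ0 κ1
  have k4 := one_add_mul_le_pow (a := κ - 1) (by linarith) 2
  have k5 := one_add_mul_le_pow (a := κ - 1) (by linarith) 3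
  have k6 := pow_nonneg κ0 2
  have k7 := pow_nonneg κ0 3
  rw [add_sub_cancel] at k4 k5
  push_cast at k4 k5
  have : |x i * κ ^ 2 - 2 * (y i * κ ^ 3)| ≤ 3 := by rw [abs_le]; constructor <;> nlinarith
  rw [abs_le] at this ⊢
  constructor <;> nlinarith

end Pool.Agent.Lib.MP_7f377f_mp.RG.Q4.Xi
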