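import Pool.Agent.Lib.MP_7f377f_mp.G.Q4XwB2

/-! The diagonal blocks of the Green function of the vector Laplacian. -/

noncomputable section

namespace Pool.Agent.Lib.MP_7f377f_mp.RG.Q4.Xi

open Finset Real Matrix
open scoped BigOperators Matrix.Norms.L2Operator

variable {ι : Type*} [Fintype ι] [DecidableEq ι]

theorem inv_blocks {A B C D : Matrix ι ι ℂ} (h : (fromBlocks A B C D).det ≠ 0) (hA : A⁻¹ * A = 1)
    (hD : D⁻¹ * D = 1) : (fromBlocks A B C D)⁻¹.toBlocks₁₁ = (A - B * D⁻¹ * C)⁻¹ ∧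
      (fromBlocks A B C D)⁻¹.toBlocks₂₂ = (D - C * A⁻¹ * B)⁻¹ := by
  have := mul_nonsing_inv _ (Ne.isUnit h)
  rw [← fromBlocks_toBlocks (fromBlocks A B C D)⁻¹, fromBlocks_multiply, ← fromBlocks_one,
    fromBlocks_inj] at this
  obtain ⟨a, b, c, d⟩ := this
  generalize (fromBlocks A B C D)⁻¹ = G at *
  generalize A⁻¹ = A' at *
  generalize D⁻¹ = D' at *
  constructor <;> refine (inv_eq_right_inv ?_).symm
  · linear_combination (norm := noncomm_ring) a - B * D' * c + B * hD * G.toBlocks₂₁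
  · linear_combination (norm := noncomm_ring) d - C * A' * b + C * hA * G.toBlocks₁₂

theorem schur_tr {L A J d : Matrix ι ι ℂ} {v c F ε σ : ℝ} (hv : 1 ≤ v) (a1 : Gap (2 / v) L)
    (hA : A.IsHermitian) (i1 : A⁻¹ * A = 1) (i2 : ‖A⁻¹‖ ≤ v) (nL : ‖L - A‖ ≤ 5 * |F|)
    (nJ : ‖J‖ ≤ 4) (ε1 : ε ≤ 1 / 10) (hF : |F| * v ≤ ε) (c1 : |c| ≤ F ^ 2)
    (c2 : |c + F ^ 2| ≤ ε * F ^ 2) (g : hs L⁻¹ ≤ σ) (hc : √(Fintype.card ι) ≤ ε ^ 2 * σ)
    (hR : hs ((J - ((4 : ℝ) : ℂ) • 1) * L⁻¹) ≤ 12 * (ε * σ)) (nd : ‖L⁻¹ * d‖ ≤ 1) :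
    |rt ((L + (c : ℂ) • (1 + J * A⁻¹ * Jᴴ))⁻¹ * d) - rt (L⁻¹ * d) -
      16 * F ^ 2 * rt (L⁻¹ * d * (L⁻¹ * L⁻¹))| ≤ 240 * ε * (F * σ) ^ 2 := by
  have F0 := abs_nonneg F
  have ε0 : 0 ≤ ε := le_trans (by positivity) hF
  have σ0 : 0 ≤ σ := (hs_nonneg _).trans g
  obtain ⟨-, j1, j2, -⟩ := a1.inv (by positivity)
  have hG : L⁻¹ᴴ = L⁻¹ := a1.1.inv.eq
  have nJ' : ‖Jᴴ‖ ≤ 4 := by rwa [l2_opNorm_conjTranspose]
  have hW : ((c : ℂ) • (1 + J * A⁻¹ * Jᴴ)).IsHermitian :=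
    (isHermitian_one.add (isHermitian_mul_mul_conjTranspose J hA.inv)).smul
      (by simp [IsSelfAdjoint])
  have nW : ‖(c : ℂ) • (1 + J * A⁻¹ * Jᴴ)‖ ≤ 17 * (F ^ 2 * v) := by
    rw [norm_smul, Complex.norm_real]
    have : ‖J * A⁻¹ * Jᴴ‖ ≤ 4 * v * 4 := norm_mul₃_le.trans (by gcongr)
    have := (norm_add_le _ _).trans (add_le_add norm_one_le this)
    calc _ ≤ F ^ 2 * (17 * v) := by gcongr; exacts [c1, by linarith]
      _ = _ := by ring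
  have Fv : F ^ 2 * v * v ≤ ε * ε :=
    (le_of_eq (by rw [← sq_abs]; ring)).trans (mul_self_le_mul_self (by positivity) hF)
  have γ2 : 1 / v ≤ 2 / v - 17 * (F ^ 2 * v) := by
    rw [le_sub_iff_add_le, ← le_sub_iff_add_le', ← sub_div, le_div_iff₀ (by linarith)]; nlinarith
  obtain ⟨-, k1, k2, k3⟩ := (a1.pert hW nW).inv (lt_of_lt_of_le (by positivity) γ2)
  replace k3 := k3.trans ((inv_anti₀ (by positivity) γ2).trans_eq (by simp : _ = v))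
  have hAG : hs (A⁻¹ - L⁻¹) ≤ 5 * (ε * σ) := by
    rw [show A⁻¹ - L⁻¹ = A⁻¹ * (L - A) * L⁻¹ by
      rw [mul_sub, i1, sub_mul, mul_assoc, j2, mul_one, one_mul]]
    refine (hs_mul _ _).trans ((mul_le_mul ((norm_mul_le _ _).trans (mul_le_mul i2 nL
      (norm_nonneg _) (by positivity))) g (hs_nonneg _) (by positivity)).trans ?_)
    nlinarith [mul_le_mul_of_nonneg_right hF σ0]
  have εσ : ε * σ ≤ 1 / 10 * σ := by gcongr
  have hsW : hs ((c : ℂ) • (1 + J * A⁻¹ * Jᴴ)) ≤ F ^ 2 * (25 * σ) := by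
    have a : hs A⁻¹ ≤ 3 / 2 * σ := by
      have := hs_add (A⁻¹ - L⁻¹) L⁻¹
      rw [sub_add_cancel] at this; linarith
    have b : hs (J * A⁻¹ * Jᴴ) ≤ 4 * (3 / 2 * σ) * 4 := (hs_mul' _ _).trans (mul_le_mul
      ((hs_mul _ _).trans (by have := hs_nonneg A⁻¹; gcongr)) nJ' (norm_nonneg _) (by positivity))
    have := hs_add 1 (J * A⁻¹ * Jᴴ)
    rw [hs_one] at this
    rw [hs_smul, Complex.norm_real]
    exact mul_le_mul c1 (by nlinarith) (hs_nonneg _) (sq_nonneg _)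
  obtain ⟨R, rfl⟩ : ∃ R, J = ((4 : ℝ) : ℂ) • 1 + R := ⟨_, (add_sub_cancel _ _).symm⟩
  rw [add_sub_cancel_left] at hR
  set J := ((4 : ℝ) : ℂ) • 1 + R with hJ
  set W := (c : ℂ) • (1 + J * A⁻¹ * Jᴴ) with hW'
  have e0 : (L + W)⁻¹ * d = L⁻¹ * d - L⁻¹ * (W * (L⁻¹ * d)) +
      L⁻¹ * (W * ((L + W)⁻¹ * W * (L⁻¹ * d))) := by
    generalize (L + W)⁻¹ = S at *
    generalize L⁻¹ = G at *
    linear_combination (norm := noncomm_ring) G * k2 * d - j1 * S * d - G * W * k1 * G * d +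
      G * W * S * j2 * d
  rw [e0]
  generalize (L + W)⁻¹ = S at *
  generalize L⁻¹ * d = X at *
  generalize L⁻¹ = G at *
  have G0 := hs_nonneg G
  have xg : hs (X * G) ≤ σ := (hs_mul _ _).trans (by nlinarith [norm_nonneg X])
  have xj : hs (X * G * J) ≤ σ * 4 := (hs_mul' _ _).trans (by gcongr)
  have e2 : rt (G * (W * X)) = c * (rt (X * G) + rt (X * G * J * ((A⁻¹ - G) * Jᴴ)) +
      rt (X * G * J * (R * G)ᴴ) + 4 * rt (X * G * (R * G)) + 16 * rt (X * (G * G))) := by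
    rw [← mul_assoc, rt_comm, conjTranspose_mul, hG, ← rt_smul 4, ← rt_smul 16, ← rt_add, ← rt_add,
      ← rt_add, ← rt_add, ← rt_smul, hW', hJ]
    simp only [conjTranspose_add, conjTranspose_smul, conjTranspose_one, Complex.star_def,
      Complex.conj_ofReal, mul_add, add_mul, mul_sub, sub_mul, smul_mul_assoc, mul_smul_comm,
      mul_one, one_mul, mul_assoc]
    congr 1; module
  have t0 : |rt (X * G)| ≤ ε ^ 2 * σ * σ :=
    (rt_hs _).trans (mul_le_mul hc xg (hs_nonneg _) (by positivity))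
  have t1 : |rt (X * G * J * ((A⁻¹ - G) * Jᴴ))| ≤ σ * 4 * (5 * (ε * σ) * 4) :=
    (rt_mul_le _ _).trans (mul_le_mul xj ((hs_mul' _ _).trans (by gcongr)) (hs_nonneg _)
      (by positivity))
  have t2 : |rt (X * G * J * (R * G)ᴴ)| ≤ σ * 4 * (12 * (ε * σ)) :=
    (rt_mul_le _ _).trans (mul_le_mul xj (by rwa [hs_star]) (hs_nonneg _) (by positivity))
  have t3 : |rt (X * G * (R * G))| ≤ σ * (12 * (ε * σ)) :=
    (rt_mul_le _ _).trans (mul_le_mul xg hR (hs_nonneg _) σ0)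
  have t4 : |rt (X * (G * G))| ≤ σ * σ := by
    rw [← mul_assoc]; exact (rt_mul_le _ _).trans (mul_le_mul xg g G0 σ0)
  have t5 : |rt (G * (W * (S * W * X)))| ≤ F ^ 2 * (25 * σ) * (v * (17 * (F ^ 2 * v)) * σ) := by
    rw [rt_comm, mul_assoc, mul_assoc]
    refine (rt_mul_le _ _).trans (mul_le_mul hsW ((hs_mul _ _).trans (mul_le_mul
      ((norm_mul_le _ _).trans (by gcongr)) xg (hs_nonneg _) (by positivity))) (hs_nonneg _)
      (by positivity))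
  have m : ∀ {x y : ℝ}, |x| ≤ y → |c * x| ≤ F ^ 2 * y := fun h => by rw [abs_mul]; gcongr
  have u2 : |(c + F ^ 2) * rt (X * (G * G))| ≤ ε * F ^ 2 * (σ * σ) := by rw [abs_mul]; gcongr
  have u5 : ε * ε * (F * σ) ^ 2 ≤ 1 / 10 * ε * (F * σ) ^ 2 := by gcongr
  have u6 : 0 ≤ ε * (F * σ) ^ 2 := by positivity
  have u7 := mul_le_mul_of_nonneg_right Fv (sq_nonneg (F * σ))
  have m0 := abs_le.1 (m t0)
  have m1 := abs_le.1 (m t1)
  have m2 := abs_le.1 (m t2)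
  have m3 := abs_le.1 (m t3)
  rw [rt_add, rt_sub, e2]
  rw [abs_le] at t5 u2 ⊢
  constructor <;> linarith [t5.1, t5.2, u2.1, u2.2, m0.1, m0.2, m1.1, m1.2, m2.1, m2.2, m3.1, m3.2]

variable {N1 N2 : ℕ} {φ F : ℝ} {T T' : Fin 4 → unitaryGroup ι ℂ} {μ : Fin 4}

theorem hs_KK {G : Matrix ι ι ℂ} {x : ℝ} (h0 : qd G (T 0) ≤ x) (h1 : qd G (T 1) ≤ x)
    (hF : |F| * hs G ≤ x) : hs ((KK F T - ((4 : ℝ) : ℂ) • 1) * G) ≤ 6 * x ∧
      hs (((KK F T)ᴴ - ((4 : ℝ) : ℂ) • 1) * G) ≤ 6 * x := by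
  have key : ∀ U1 U2 U3 U4 : unitaryGroup ι ℂ, hs ((U1.1 + U2.1 + U3.1 + U4.1 - ((4 : ℝ) : ℂ) • 1) *
      G) ≤ qd G U1 + qd G U2 + qd G U3 + qd G U4 := fun U1 U2 U3 U4 => by
    rw [show U1.1 + U2.1 + U3.1 + U4.1 - ((4 : ℝ) : ℂ) • 1 = (U1.1 - 1) + (U2.1 - 1) + (U3.1 - 1) +
      (U4.1 - 1) by push_cast; module, add_mul, add_mul, add_mul]
    exact (hs_add _ _).trans (add_le_add ((hs_add _ _).trans (add_le_add (hs_add _ _) le_rfl)) le_rfl)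
  have a := qd_mul G (T 1)⁻¹ (ph (-F) * T 0)
  have b := qd_mul G (ph (-F)) (T 0)
  have c := qd_inv G (T 1)
  have d := qd_ph G F
  have e := qd_ph G (-F)
  rw [abs_neg] at e
  refine ⟨(key _ _ _ _).trans (by linarith), ?_⟩
  simp only [KK, conjTranspose_add]
  refine (key (_)⁻¹ (_)⁻¹ (_)⁻¹ (_)⁻¹).trans ?_
  linarith [qd_inv G ((T 1)⁻¹ * (ph (-F) * T 0)), qd_inv G (T 1)⁻¹, qd_inv G (T 0), qd_inv G (ph F)]

variable [Tw]

theorem Mag.blk (h : Mag N1 N2 φ T) (h2 : 0 < N2) {ε σ : ℝ} (ε1 : ε ≤ 1 / 10)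
    (hF : |F| * N2 ^ 2 ≤ ε) (g : ∀ s t, hs (Lap (Xi.tw s t T))⁻¹ ≤ σ)
    (hc : √(Fintype.card ι) ≤ ε ^ 2 * σ) (hμ : μ = 2 ∨ μ = 3) {G : Matrix ι ι ℂ}
    (hG : G = (MB F T)⁻¹.toBlocks₁₁ ∨ G = (MB F T)⁻¹.toBlocks₂₂) : ∃ s t,
    |rt (G * dl (T μ)) - rt ((Lap (Xi.tw s t T))⁻¹ * dl (T μ)) - 16 * F ^ 2 *
      rt ((Lap (Xi.tw s t T))⁻¹ * dl (T μ) * ((Lap (Xi.tw s t T))⁻¹ * (Lap (Xi.tw s t T))⁻¹))| ≤
      240 * ε * (F * σ) ^ 2 := by
  have hv : (1 : ℝ) ≤ N2 ^ 2 := one_le_pow₀ (by exact_mod_cast h2)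
  have d0 := (h.vec h2 ε1 hF (g _ _) (g _ _) hc).1
  have F0 := abs_nonneg F
  have ε0 : 0 ≤ ε := le_trans (by positivity) hF
  have σ0 : 0 ≤ σ := (hs_nonneg _).trans (g 0 0)
  have Fε : |F| ≤ ε := (le_mul_of_one_le_right F0 hv).trans hF
  have nL : ‖Lap (Xi.tw (-F) 0 T) - Lap (Xi.tw 0 F T)‖ ≤ 4 * |F| := by
    have := norm_sub_le_norm_sub_add_norm_sub (Lap (Xi.tw (-F) 0 T)) (Lap T) (Lap (Xi.tw 0 F T))
    rw [norm_sub_rev (Lap T)] at this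
    have a := norm_Lap_tw (-F) 0 T
    have b := norm_Lap_tw 0 F T
    simp only [abs_neg, abs_zero] at a b
    linarith
  have hK : ∀ s t, |s| ≤ |F| → |t| ≤ |F| → _ := fun s t hs ht => by
    have q : ∀ s (U : unitaryGroup ι ℂ) (G : Matrix ι ι ℂ), |s| ≤ |F| → Xi.hs G ≤ σ →
        qd G (ph s * U) ^ 2 ≤ √(Fintype.card ι) * Xi.hs G → qd G U ≤ 2 * (ε * σ) :=
      fun s U G hs hG hx => by
        have a := (abs_le_of_sq_le_sq' (hx.trans ((mul_le_mul hc hG (hs_nonneg _)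
          (by positivity)).trans_eq (by ring : _ = (ε * σ) ^ 2))) (by positivity)).2
        have b := qd_mul G (ph (-s)) (ph s * U)
        have c := (qd_ph G (-s)).trans (mul_le_mul ((abs_neg s).trans_le (hs.trans Fε)) hG
          (hs_nonneg _) ε0)
        rw [← mul_assoc, ← ph_add, neg_add_cancel, show (ph 0 : unitaryGroup ι ℂ) = 1 from
          Subtype.ext (by simp [ph_val]), one_mul] at b
        linarith
    exact hs_KK (F := F) (T := T) (q s _ _ hs (g s t) ((h.tw s t).qd_le h2 0))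
      (q t _ _ ht (g s t) ((h.tw s t).qd_le h2 1))
      ((mul_le_mul Fε (g s t) (hs_nonneg _) ε0).trans (by nlinarith [mul_nonneg ε0 σ0]))
  have nK := norm_KK F T
  have nd : ∀ s t, ‖(Lap (Xi.tw s t T))⁻¹ * dl (T μ)‖ ≤ 1 := fun s t => by
    have := ((h.tw s t).dg h2 hμ).2.2
    rcases hμ with rfl | rfl <;> exact this
  have ec : (Complex.exp (-(F * Complex.I)) - 1) * star (Complex.exp (-(F * Complex.I)) - 1) =
      -((2 * cos F - 2 : ℝ) : ℂ) := by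
    rw [Complex.star_def, Complex.mul_conj, ← Complex.ofReal_neg, Complex.normSq_apply,
      ← neg_mul, ← Complex.ofReal_neg, Complex.sub_re, Complex.sub_im, Complex.exp_ofReal_mul_I_re,
      Complex.exp_ofReal_mul_I_im, cos_neg, sin_neg]
    congr 1
    simp only [Complex.one_re, Complex.one_im]
    linear_combination cos_sq_add_sin_sq F
  have c1 : |2 * cos F - 2| ≤ F ^ 2 := by
    rw [abs_le]; constructor <;> nlinarith [cos_le_one F, one_sub_sq_div_two_le_cos (x := F)]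
  have c2 : |2 * cos F - 2 + F ^ 2| ≤ ε * F ^ 2 := by
    have := cos_four F
    have : F ^ 2 ≤ ε ^ 2 := by rw [← sq_abs]; gcongr
    rw [show 2 * cos F - 2 + F ^ 2 = 2 * (cos F - (1 - F ^ 2 / 2)) by ring, abs_mul, abs_two]
    nlinarith [mul_le_mul_of_nonneg_right this (sq_nonneg F), mul_nonneg ε0 (sq_nonneg F)]
  rw [MB, conjTranspose_smul] at hG d0
  generalize 2 * cos F - 2 = c at *
  generalize Complex.exp (-(F * Complex.I)) - 1 = e at *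
  have n1 : ‖(c : ℂ) • (1 : Matrix ι ι ℂ)‖ ≤ F ^ 2 := by
    rw [norm_smul, Complex.norm_real]
    exact (mul_le_of_le_one_right (norm_nonneg _) norm_one_le).trans c1
  have γ2 : 1 / (N2 : ℝ) ^ 2 ≤ 2 / N2 ^ 2 - F ^ 2 := by
    rw [le_sub_iff_add_le, ← le_sub_iff_add_le', ← sub_div, le_div_iff₀ (by linarith), ← sq_abs]
    nlinarith
  have a3 := fun s t => ((h.tw s t).gap h2).pert (W := (c : ℂ) • 1)
    (isHermitian_one.smul (by simp [IsSelfAdjoint])) n1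
  have a4 := fun s t => (a3 s t).inv (lt_of_lt_of_le (by positivity) γ2)
  have a5 := fun s t => (a4 s t).2.2.2.trans ((inv_anti₀ (by positivity) γ2).trans_eq
    (by simp : _ = (N2 : ℝ) ^ 2))
  have a6 : ∀ L L' : Matrix ι ι ℂ, ‖L - L'‖ ≤ 4 * |F| → ‖L - (L' + (c : ℂ) • 1)‖ ≤ 5 * |F| :=
    fun L L' h => by
      rw [← sub_sub]; exact (norm_sub_le _ _).trans (by nlinarith [sq_abs F])
  obtain ⟨b1, b2⟩ := inv_blocks d0 (a4 _ _).2.1 (a4 _ _).2.1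
  rw [smul_mul_assoc, smul_mul_smul_comm] at b1 b2
  rw [mul_comm (star e)] at b2
  rw [ec, neg_smul, sub_neg_eq_add, add_assoc, ← smul_add] at b1 b2
  rcases hG with rfl | rfl
  · exact ⟨0, F, b1 ▸ schur_tr hv ((h.tw _ _).gap h2) (a3 _ _).1 (a4 _ _).2.1 (a5 _ _)
      (a6 _ _ (by rwa [norm_sub_rev])) nK ε1 hF c1 c2 (g _ _) hc
      ((hK 0 F (by simp) le_rfl).1.trans_eq (by ring)) (nd _ _)⟩
  · have := schur_tr (J := (KK F T)ᴴ) hv ((h.tw _ _).gap h2) (a3 _ _).1 (a4 _ _).2.1 (a5 _ _)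
      (a6 _ _ nL) (by rwa [l2_opNorm_conjTranspose]) ε1 hF c1 c2 (g _ _) hc
      ((hK (-F) 0 (by simp) (by simp)).2.trans_eq (by ring)) (nd _ _)
    rw [conjTranspose_conjTranspose] at this
    exact ⟨-F, 0, b2 ▸ this⟩

theorem Mag.univ (h : Mag N1 N2 φ T) (h' : Mag N1 N2 φ T') (h2 : 0 < N2) (hl : 50 ≤ log N1)
    (hN : N2 * log N1 ^ 2 ≤ N1) (hμ : μ = 2 ∨ μ = 3) :
    |rt ((Lap T)⁻¹ * dl (T μ)) - rt ((Lap T')⁻¹ * dl (T' μ))| ≤
      Fintype.card ι * (3 / (N1 : ℝ) ^ 4) := by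
  have h1 : 0 < N1 := pos_of_ne_zero fun h => by simp [h] at hl; linarith
  have hu : (1 : ℝ) ≤ N1 := by exact_mod_cast h1
  have hv : (1 : ℝ) ≤ N2 := by exact_mod_cast h2
  obtain ⟨n, n1, n2, n3⟩ := params hv hu hl hN
  have n5 : (n + 1 : ℝ) ≤ N1 ^ 2 := by
    have a : 50 ^ 3 ≤ log N1 ^ 3 := by gcongr
    have b : (n + 1 : ℝ) * log N1 ^ 3 ≤ 82 * N1 ^ 2 :=
      calc _ ≤ 82 * N2 ^ 2 * log N1 * log N1 ^ 3 := by gcongr
        _ = 82 * (N2 * log N1 ^ 2) ^ 2 := by ring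
        _ ≤ _ := by gcongr
    nlinarith [n.cast_nonneg (α := ℝ)]
  obtain ⟨u, key⟩ : ∃ u : ℕ → Fin 4 → ℝ, ∀ {T : Fin 4 → unitaryGroup ι ℂ}, Mag N1 N2 φ T →
      ∀ j ≤ n + 1, ∀ s, |rt ((T μ ^ sg s).1 * (16 - Lap T) ^ j) - u j s| ≤
        Fintype.card ι * (16 ^ j * ((N1 : ℝ) ^ 6)⁻¹) := by
    refine ⟨fun j s => Ew j fun a A => Fintype.card ι * (cos (φ * A) * gg N1 N2 (xi (μ, s) + a) +
      sin (φ * A) * if (xi (μ, s) + a) 0 = 0 ∧ (xi (μ, s) + a) 1 = 0 then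
        gs N1 N2 (xi (μ, s) + a) else 0), fun {T} h j hj s => ?_⟩
    have e := h.heis.pow (unitaryGroup ι ℂ).subtype j
    simp only [Submonoid.subtype_apply, Lap_letters] at e
    have x0 : xi (μ, s) 0 = 0 ∧ xi (μ, s) 1 = 0 := by rcases hμ with rfl | rfl <;> simp [xi]
    have e2 : ∀ (a : Z4) (A : ℤ), (T μ ^ sg s).1 * (ph φ ^ (-A) * mon T a).1 =
        (ph φ ^ (-A) * mon T (xi (μ, s) + a)).1 := fun a A => by
      rw [← Submonoid.coe_mul, ← mul_assoc, ← ((h.heis.cen _).zpow_left _).eq, mul_assoc,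
        h.heis.letter (μ, s), x0.2]
      simp
    rw [e, ← Ew_mul, show rt = (AddMonoidHom.mk' rt rt_add : Matrix ι ι ℂ →+ ℝ) from rfl, Ew_map]
    simp only [AddMonoidHom.mk'_apply, e2]
    refine (Ew_close j fun a A _ _ => h.trace h1 h2 (t := (N2 : ℝ)⁻¹) (by positivity) _ A).trans ?_
    simp only [bd, Pi.add_apply, x0, zero_add]
    rw [Ew_mul]
    gcongr
    exact (Ew_bd _ _ _).trans (mul_le_mul_of_nonneg_left (n3 j hj) (by positivity))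
  have key2 : ∀ {T : Fin 4 → unitaryGroup ι ℂ}, Mag N1 N2 φ T → |rt ((Lap T)⁻¹ * dl (T μ)) -
      ∑ j ∈ range (n + 1), (2 * u j 2 - u j 0 - u j 1) / 16 ^ (j + 1)| ≤
      Fintype.card ι * (3 / 2 / (N1 : ℝ) ^ 4) := fun {T} h => by
    obtain ⟨-, c2, nd⟩ := h.dg h2 hμ
    obtain ⟨-, i1, -⟩ := (h.gap h2).inv (by positivity)
    have nP := h.norm_P h2
    have e1 : 16 - Lap T = ((16 : ℝ) : ℂ) • (1 - ((16⁻¹ : ℝ) : ℂ) • Lap T) := by
      rw [smul_sub, smul_smul]; norm_num [Algebra.smul_def, map_ofNat]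
    have e2 := mul_neg_geom_sum (1 - ((16⁻¹ : ℝ) : ℂ) • Lap T) (n + 1)
    rw [sub_sub_cancel] at e2
    replace key := key h
    rw [e1] at key
    generalize 1 - ((16⁻¹ : ℝ) : ℂ) • Lap T = P at *
    have e3 : (Lap T)⁻¹ * dl (T μ) = ((16⁻¹ : ℝ) : ℂ) • ∑ j ∈ range (n + 1), dl (T μ) * P ^ j +
        (Lap T)⁻¹ * dl (T μ) * P ^ (n + 1) := by
      rw [← sub_eq_iff_eq_add, ← mul_one_sub, ← e2, ← c2.eq, mul_assoc, smul_mul_assoc,
        mul_smul_comm, ← mul_assoc (Lap T)⁻¹, i1, one_mul, mul_smul_comm, mul_sum]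
    have b1 : |rt ((Lap T)⁻¹ * dl (T μ) * P ^ (n + 1))| ≤ Fintype.card ι * ((N1 : ℝ) ^ 10)⁻¹ := by
      refine (rt_le _).trans (mul_le_mul_of_nonneg_left ((norm_mul_le _ _).trans ((mul_le_mul nd
        (norm_pow_le' _ n.succ_pos) (norm_nonneg _) zero_le_one).trans ?_)) (Nat.cast_nonneg _))
      rw [one_mul, pow_succ]
      refine (mul_le_of_le_one_right (by positivity) (nP.trans (by simp))).trans (le_trans ?_ n2)
      gcongr
    have b2 : ∀ j ∈ range (n + 1), |16⁻¹ * rt (dl (T μ) * P ^ j) - (2 * u j 2 - u j 0 - u j 1) /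
        16 ^ (j + 1)| ≤ Fintype.card ι * (((N1 : ℝ) ^ 6)⁻¹ / 4) := fun j hj => by
      have k := key j (mem_range.1 hj).le
      have k0 := k 0
      have k1 := k 1
      have k2 := k 2
      simp only [sg, cons_val_zero, cons_val_one, Matrix.cons_val, zpow_one, zpow_zero,
        _root_.zpow_neg, smul_pow, ← Complex.ofReal_pow, mul_smul_comm, rt_smul] at k0 k1 k2
      rw [sub_div' (by positivity), abs_div, abs_of_pos (by positivity : (0 : ℝ) < 16 ^ (j + 1)),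
        div_le_iff₀ (by positivity), dl, sq_eq, sub_mul, sub_mul, two_mul, rt_sub, rt_sub, rt_add,
        pow_succ]
      change |_ * rt ((T μ).1ᴴ * _) - _| ≤ _ at k1
      change |_ * rt (1 * _) - _| ≤ _ at k2
      rw [one_mul] at k2
      rw [abs_le] at k0 k1 k2 ⊢
      constructor <;> linarith [k0.1, k0.2, k1.1, k1.2, k2.1, k2.2]
    have b3 := (abs_sum_le_sum_abs _ _).trans (sum_le_card_nsmul _ _ _ b2)
    rw [card_range, nsmul_eq_mul, sum_sub_distrib, ← mul_sum] at b3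
    rw [e3, rt_add, rt_smul, add_sub_right_comm]
    simp only [rt, trace_sum, Complex.re_sum] at b1 b3 ⊢
    refine (abs_add_le _ _).trans ((add_le_add b3 b1).trans ?_)
    rw [mul_left_comm, ← mul_add]
    gcongr
    push_cast
    calc _ ≤ (N1 : ℝ) ^ 2 * (((N1 : ℝ) ^ 6)⁻¹ / 4) + ((N1 : ℝ) ^ 4)⁻¹ := by gcongr; norm_num
      _ ≤ _ := by field_simp; norm_num
  have a := abs_le.1 (key2 h)
  have b := abs_le.1 (key2 h')
  rw [div_right_comm, ← mul_div_assoc] at a b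
  rw [abs_le]
  constructor <;> linarith [a.1, a.2, b.1, b.2]

theorem vec_tr {ε : ℝ} (hε : 0 < ε) : ∃ N0 : ℕ, ∀ N1 N2 : ℕ, N0 ≤ N2 → N2 ≤ N1 →
    N2 * log N1 ^ 2 ≤ N1 → ∀ F : ℝ, |F| * N1 ^ 2 ≤ 7 →
    ∀ (ι : Type) [Fintype ι] [DecidableEq ι] (T : Fin 4 → unitaryGroup ι ℂ), Mag N1 N2 (2 * F) T →
    ∀ μ, μ = 2 ∨ μ = 3 → ∀ G, G = (MB F T)⁻¹.toBlocks₁₁ ∨ G = (MB F T)⁻¹.toBlocks₂₂ →
    |rt (G * dl (T μ)) - rt ((Lap T)⁻¹ * dl (T μ)) - Fintype.card ι *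
      (1 / (2 * π ^ 2) * F ^ 2 * log N2)| ≤ ε * (Fintype.card ι * log N2 / (N1 : ℝ) ^ 4) := by
  obtain ⟨η, η0, η1, η2⟩ : ∃ η : ℝ, 0 < η ∧ η ≤ 1 / 10 ∧ 70000 * η ≤ ε :=
    ⟨min (1 / 10) (ε / 70000), by positivity, min_le_left _ _,
      by linarith [min_le_right (1 / 10) (ε / 70000)]⟩
  obtain ⟨N0, hN0⟩ := SS_asym η0
  obtain ⟨M, hM⟩ := exists_nat_ge (exp (10 ^ 20 / η ^ 4))
  refine ⟨max N0 M, fun N1 N2 h0 h21 hN F hF ι _ _ T h μ hμ G hG => ?_⟩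
  have hS := hN0 N1 N2 (le_of_max_le_left h0) h21
  have v0 : (0 : ℝ) < N2 := (exp_pos _).trans_le (hM.trans (by exact_mod_cast le_of_max_le_right h0))
  have vu : (N2 : ℝ) ≤ N1 := by exact_mod_cast h21
  have u0 : (0 : ℝ) < N1 := by linarith
  have h2 : 0 < N2 := by exact_mod_cast v0
  have hl : 10 ^ 20 ≤ η ^ 4 * log N2 := by
    rw [← div_le_iff₀' (by positivity), le_log_iff_exp_le v0]
    exact hM.trans (by exact_mod_cast le_of_max_le_right h0)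
  have ll : log N2 ≤ log N1 := log_le_log v0 vu
  have l0 : 0 < log N2 :=
    pos_of_mul_pos_right (a := η ^ 4) (lt_of_lt_of_le (by norm_num) hl) (by positivity)
  have η4 : ∀ k ≤ 4, 10 ^ 20 ≤ η ^ k * log N2 := fun k hk => hl.trans
    (mul_le_mul_of_nonneg_right (pow_le_pow_of_le_one η0.le (by linarith) hk) l0.le)
  have hl2 := η4 2 (by norm_num)
  have hl1 := η4 1 (by norm_num)
  have hl0 := η4 0 (by norm_num)
  rw [pow_one] at hl1
  have hφ : |2 * F| * (N1 : ℝ) ^ 2 ≤ 14 := by rw [abs_mul, abs_two]; linarith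
  have b1 := fun s t => ((h.tw s t).sums h2 (by linarith) hN hφ).2
  set c : ℝ := (Fintype.card ι : ℝ)
  have c0 : 0 ≤ c := Nat.cast_nonneg _
  have p1 : log N2 / (8 * π ^ 2) ≤ log N2 / 2 := by gcongr; nlinarith [pi_gt_three]
  have p2 : SS N1 N2 + 10 ^ 20 ≤ log N2 := by nlinarith [(abs_le.1 hS).2]
  have g2 : ∀ s t, hs (Lap (tw s t T))⁻¹ ^ 2 ≤ c * log N2 := fun s t => by
    nlinarith [(abs_le.1 (b1 s t)).2]
  have g := fun s t => le_sqrt_of_sq_le (g2 s t)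
  have hc : √c ≤ η ^ 2 * √(c * log N2) := by
    rw [← sqrt_sq (sq_nonneg η), ← sqrt_mul (sq_nonneg _)]
    exact sqrt_le_sqrt (by nlinarith)
  obtain ⟨s, t, v⟩ := h.blk (F := F) h2 η1 (by
      have : (N2 : ℝ) ^ 2 * log N1 ^ 4 ≤ N1 ^ 2 := by
        rw [show (N2 : ℝ) ^ 2 * log N1 ^ 4 = (N2 * log N1 ^ 2) ^ 2 by ring]; gcongr
      have l4 : log N2 ≤ log N1 ^ 4 := ll.trans (le_self_pow₀ (by linarith) (by norm_num))
      refine le_of_mul_le_mul_right ?_ (l0.trans_le l4)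
      nlinarith [mul_le_mul_of_nonneg_left this (abs_nonneg F), mul_le_mul_of_nonneg_left l4 η0.le])
    g hc hμ hG
  have e0 : tw s t T μ = T μ := by rcases hμ with rfl | rfl <;> rfl
  have a1 := (h.tw s t).univ h h2 (by linarith) hN hμ
  have a2 := (h.tw s t).cube h21 (by linarith) hμ η0 (by linarith)
  rw [e0] at a1 a2
  rw [mul_pow, sq_sqrt (by positivity)] at v
  have F2 : F ^ 2 ≤ 49 * (1 / (N1 : ℝ) ^ 4) := by
    rw [mul_one_div, le_div_iff₀ (by positivity), ← sq_abs]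
    nlinarith [mul_nonneg (abs_nonneg F) (sq_nonneg (N1 : ℝ))]
  have e1 : 1 / (2 * π ^ 2) * F ^ 2 * log N2 = 4 * F ^ 2 * (log N2 / (8 * π ^ 2)) := by
    field_simp; ring
  have e2 : ∀ a : ℝ, a / (N1 : ℝ) ^ 4 = a * (1 / (N1 : ℝ) ^ 4) := fun a => by ring
  have s3 : |hs (Lap (tw s t T))⁻¹ ^ 2 - c * (log N2 / (8 * π ^ 2))| ≤ c * (2 * (η * log N2)) := by
    refine (abs_sub_le _ _ _).trans ((add_le_add (b1 s t) (b := _) (d := c * (η * log N2))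
      ?_).trans ?_)
    · rw [← mul_sub, abs_mul, abs_of_nonneg c0]; gcongr
    · nlinarith
  replace a2 := a2.trans (c := c * (562 * (η * log N2))) (by
    have x1 : 3500 / η ^ 2 ≤ η * log N2 := by
      rw [div_le_iff₀ (by positivity)]; linarith [η4 3 (by norm_num)]
    have x2 := mul_le_mul hc (g s t) (hs_nonneg _) (by positivity)
    rw [mul_assoc, mul_self_sqrt (by positivity)] at x2
    have x3 : η ^ 2 * (c * log N2) ≤ η * (c * log N2) := by gcongr; nlinarith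
    nlinarith [mul_le_mul_of_nonneg_left (g2 s t) η0.le, mul_le_mul_of_nonneg_left x1 c0])
  rw [e1, e2]
  rw [e2] at a1
  generalize 1 / (N1 : ℝ) ^ 4 = w at *
  have w0 : 0 ≤ w := by nlinarith [sq_nonneg F]
  have m : ∀ {x y : ℝ}, |x| ≤ y → |F ^ 2 * x| ≤ 49 * w * y := fun h => by
    rw [abs_mul, abs_of_nonneg (sq_nonneg F)]; gcongr
  have m1 := abs_le.1 (m s3)
  have m2 := abs_le.1 (m a2)
  have m3 : 240 * η * (F ^ 2 * (c * log N2)) ≤ 240 * η * (49 * w * (c * log N2)) := by gcongr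
  have m4 : c * (3 * w) ≤ c * (η * log N2 * w) := by gcongr; linarith
  have m5 : 70000 * η * (c * log N2 * w) ≤ ε * (c * log N2 * w) := by gcongr
  have m6 : 0 ≤ η * (c * log N2 * w) := by positivity
  rw [abs_le] at a1 v ⊢
  constructor <;> linarith [a1.1, a1.2, v.1, v.2, m1.1, m1.2, m2.1, m2.2]

end Pool.Agent.Lib.MP_7f377f_mp.RG.Q4.Xi
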