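import Pool.Agent.Lib.MP_7f377f_mp.JetTwo

/-! The logarithm of the determinant of a pencil of symmetric matrices is holomorphic. -/

noncomputable section

namespace Pool.Agent.Lib.MP_7f377f_mp.RG.Q4

open Matrix Metric
open scoped MatrixOrder

variable {n : Type} [Fintype n] [DecidableEq n] {A P : Matrix n n ℝ} {C : ℝ}

/-- simultaneous diagonalisation -/
theorem pencil_eig (hA : A.PosDef) (hP : P.IsHermitian)
    (h : ∀ x, |x ⬝ᵥ P *ᵥ x| ≤ C * (x ⬝ᵥ A *ᵥ x)) :
    ∃ μ : n → ℝ, (∀ i, |μ i| ≤ C) ∧ (∀ s : ℝ, (A + s • P).det = A.det * ∏ i, (1 + s * μ i)) ∧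
      ∑ i, μ i = (A⁻¹ * P).trace := by
  obtain ⟨B, hB⟩ := CStarAlgebra.nonneg_iff_eq_star_mul_self.1 hA.posSemidef.nonneg
  have u : IsUnit B.det := by
    have := (isUnit_iff_isUnit_det A).1 hA.isUnit
    rw [hB, det_mul] at this
    exact isUnit_of_mul_isUnit_right this
  have b1 := mul_nonsing_inv B u
  have b2 := nonsing_inv_mul B u
  have b3 : star B⁻¹ * star B = 1 := by rw [← star_mul, b1, star_one]
  have b4 : star B * star B⁻¹ = 1 := by rw [← star_mul, b2, star_one]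
  have hM : (star B⁻¹ * P * B⁻¹).IsHermitian := isHermitian_conjTranspose_mul_mul _ hP
  have q : ∀ (X : Matrix n n ℝ) v, v ⬝ᵥ (star B⁻¹ * X * B⁻¹) *ᵥ v = (B⁻¹ *ᵥ v) ⬝ᵥ X *ᵥ (B⁻¹ *ᵥ v) :=
    fun X v => by
      rw [← mulVec_mulVec, ← mulVec_mulVec, dotProduct_mulVec, star_eq_conjTranspose,
        conjTranspose_eq_transpose_of_trivial, vecMul_transpose]
  refine ⟨hM.eigenvalues, fun i => ?_, fun s => ?_, ?_⟩
  · have e := hM.eigenvalues_eq i
    have o : ⇑(hM.eigenvectorBasis i) ⬝ᵥ ⇑(hM.eigenvectorBasis i) = 1 := by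
      have := hM.eigenvectorBasis.orthonormal.1 i
      rw [EuclideanSpace.norm_eq, Real.sqrt_eq_one] at this
      simpa [dotProduct, sq] using this
    have a := q A (hM.eigenvectorBasis i)
    rw [show star B⁻¹ * A * B⁻¹ = 1 by rw [hB, mul_assoc, mul_assoc, b1, mul_one, b3], one_mulVec,
      o] at a
    simp only [star_trivial, RCLike.re_to_real] at e
    rw [e, q]
    exact (h _).trans_eq (by rw [← a, mul_one])
  · have e : A + s • P = star B * (1 + s • (star B⁻¹ * P * B⁻¹)) * B := by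
      rw [mul_add, add_mul, mul_one, ← hB, mul_smul_comm, smul_mul_assoc, ← mul_assoc, ← mul_assoc,
        b4, one_mul, mul_assoc, b2, mul_one]
    have d : (1 + s • (star B⁻¹ * P * B⁻¹)).det = ∏ i, (1 + s * hM.eigenvalues i) := by
      have t := hM.spectral_theorem
      rw [Unitary.conjStarAlgAut_apply] at t
      have w : (hM.eigenvectorUnitary : Matrix n n ℝ) * star (hM.eigenvectorUnitary : Matrix n n ℝ)
        = 1 := Unitary.coe_mul_star_self _
      have : 1 + s • (star B⁻¹ * P * B⁻¹) = hM.eigenvectorUnitary *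
          diagonal (fun i => 1 + s * hM.eigenvalues i) * star (hM.eigenvectorUnitary : Matrix n n ℝ) := by
        have dg : diagonal (fun i => 1 + s * hM.eigenvalues i) =
            1 + s • diagonal (RCLike.ofReal ∘ hM.eigenvalues) := by
          rw [← diagonal_one, ← diagonal_smul, diagonal_add]
          rfl
        rw [dg, mul_add, add_mul, mul_one, w, mul_smul_comm, smul_mul_assoc]
        exact congrArg (fun X => 1 + s • X) t
      rw [this, det_mul, det_mul, mul_right_comm, ← det_mul, w, det_one, one_mul, det_diagonal]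
    rw [e, det_mul, det_mul, mul_right_comm, ← det_mul, ← hB, d]
  · have := hM.trace_eq_sum_eigenvalues
    simp only [RCLike.ofReal_real_eq_id, id] at this
    rw [← this, trace_mul_cycle, hB, Matrix.mul_inv_rev, star_eq_conjTranspose,
      star_eq_conjTranspose, conjTranspose_nonsing_inv]

omit [DecidableEq n] in
theorem pencil_pos (hA : A.PosDef) (hP : P.IsHermitian)
    (h : ∀ x, |x ⬝ᵥ P *ᵥ x| ≤ C * (x ⬝ᵥ A *ᵥ x)) {s : ℝ} (hs : |s| * C < 1) :
    (A + s • P).PosDef := by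
  refine posDef_iff_dotProduct_mulVec.2 ⟨hA.1.add (by
    rw [IsHermitian, conjTranspose_smul, hP.eq, star_trivial]), fun x hx => ?_⟩
  have a := hA.dotProduct_mulVec_pos hx
  rw [star_trivial] at a ⊢
  rw [add_mulVec, dotProduct_add, smul_mulVec, dotProduct_smul, smul_eq_mul]
  have b : |s * (x ⬝ᵥ P *ᵥ x)| ≤ |s| * C * (x ⬝ᵥ A *ᵥ x) := by
    rw [abs_mul, mul_assoc]
    exact mul_le_mul_of_nonneg_left (h x) (abs_nonneg s)
  nlinarith [neg_abs_le (s * (x ⬝ᵥ P *ᵥ x))]

/-- the holomorphic extension of `s ↦ log det (A + s P) - log det A` -/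
theorem logdet_hol (hA : A.PosDef) (hP : P.IsHermitian) (C0 : 0 < C)
    (h : ∀ x, |x ⬝ᵥ P *ᵥ x| ≤ C * (x ⬝ᵥ A *ᵥ x)) :
    ∃ f : ℂ → ℂ, DifferentiableOn ℂ f (ball 0 (1 / (2 * C))) ∧ f 0 = 0 ∧
      (∀ z ∈ ball (0 : ℂ) (1 / (2 * C)), ‖f z‖ ≤ 2 * Fintype.card n * C * ‖z‖) ∧
      (∀ s : ℝ, |s| < 1 / (2 * C) → (A + s • P).PosDef ∧
        f s = (Real.log (A + s • P).det - Real.log A.det : ℝ)) ∧
      HasDerivAt f ((A⁻¹ * P).trace : ℝ) 0 := by
  obtain ⟨μ, h1, h2, h3⟩ := pencil_eig hA hP h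
  have b : ∀ z ∈ ball (0 : ℂ) (1 / (2 * C)), ∀ i, ‖z * μ i‖ ≤ C * ‖z‖ ∧ ‖z * μ i‖ ≤ 1 / 2 :=
    fun z hz i => by
      have a : ‖z * μ i‖ ≤ C * ‖z‖ := by
        rw [norm_mul, mul_comm, Complex.norm_real]
        exact mul_le_mul_of_nonneg_right (h1 i) (norm_nonneg z)
      have c : ‖z‖ * (2 * C) < 1 := (lt_div_iff₀ (by positivity)).1 (mem_ball_zero_iff.1 hz)
      exact ⟨a, by linarith⟩
  have d : ∀ z ∈ ball (0 : ℂ) (1 / (2 * C)), HasDerivAt (fun z => ∑ i, Complex.log (1 + z * μ i))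
      (∑ i, (μ i : ℂ) / (1 + z * μ i)) z := fun z hz => HasDerivAt.fun_sum fun i _ => by
    simpa using (((hasDerivAt_id z).mul_const (μ i : ℂ)).const_add 1).clog
      (Complex.mem_slitPlane_of_norm_lt_one ((b z hz i).2.trans_lt (by norm_num)))
  refine ⟨_, fun z hz => (d z hz).differentiableAt.differentiableWithinAt, by simp,
    fun z hz => ?_, fun s hs => ?_, ?_⟩
  · refine (norm_sum_le _ _).trans ((Finset.sum_le_card_nsmul _ _ (2 * (C * ‖z‖)) fun i _ =>
      (Complex.norm_log_one_add_half_le_self (b z hz i).2).trans ?_).trans_eq ?_)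
    · linarith [(b z hz i).1, norm_nonneg (z * μ i)]
    · simp; ring
  · have c : |s| * (2 * C) < 1 := (lt_div_iff₀ (by positivity)).1 hs
    have p : ∀ i, 0 < 1 + s * μ i := fun i => by
      have : |s * μ i| ≤ |s| * C := by
        rw [abs_mul]; exact mul_le_mul_of_nonneg_left (h1 i) (abs_nonneg s)
      linarith [neg_abs_le (s * μ i), abs_nonneg (s * μ i)]
    refine ⟨pencil_pos hA hP h (by nlinarith [abs_nonneg s]), ?_⟩
    rw [h2, Real.log_mul hA.det_pos.ne' (Finset.prod_pos fun i _ => p i).ne', add_sub_cancel_left,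
      Real.log_prod fun i _ => (p i).ne', Complex.ofReal_sum]
    exact Finset.sum_congr rfl fun i _ => by rw [Complex.ofReal_log (p i).le]; push_cast; rfl
  · simpa [← h3] using d 0 (mem_ball_self (by positivity))

/-- second order Taylor bound from a bound on the real diameter and a crude bound on the disc -/
theorem two_const_tay {h : ℂ → ℂ} {σ K η M : ℝ} (hd : DifferentiableOn ℂ h (ball 0 σ))
    (hK : ∀ z ∈ ball (0 : ℂ) σ, ‖h z‖ ≤ K) (hη : ∀ s : ℝ, |s| < σ → ‖h s‖ ≤ η) (η0 : 0 < η)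
    (ηK : η ≤ K) (σ0 : 0 < σ) (hM : 2 ≤ M) {z : ℂ} (hz : ‖z‖ ≤ σ / (2 * M)) :
    ‖h z - h 0 - z * deriv h 0‖ ≤ 6 * (M / σ) ^ 2 * (η * (K / η) ^ (6 / M)) * ‖z‖ ^ 2 := by
  have M0 : 0 < M := by linarith
  have r0 : 0 < σ / M := by positivity
  have r1 : σ / M ≤ σ / 2 := by gcongr
  set B := η * (K / η) ^ (6 / M) with hB
  have q1 : 1 ≤ K / η := (one_le_div η0).2 ηK
  have b : ∀ w : ℂ, ‖w‖ ≤ σ / M → ‖h w‖ ≤ B := fun w hw =>
    (Jet.two_const hd hK hη η0 ηK σ0 (hw.trans r1)).trans (mul_le_mul_of_nonneg_left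
      (Real.rpow_le_rpow_of_exponent_le q1 (by
        rw [div_le_div_iff₀ σ0 M0]
        nlinarith [(le_div_iff₀ M0).1 hw])) η0.le)
  have n0 : ball (0 : ℂ) σ ∈ nhds (0 : ℂ) := ball_mem_nhds _ σ0
  have d1 := (Complex.differentiableOn_dslope n0).2 hd
  have d2 := (Complex.differentiableOn_dslope n0).2 d1
  have sub : closedBall (0 : ℂ) (σ / M) ⊆ ball 0 σ := closedBall_subset_ball (by linarith)
  have B0 : 0 ≤ B := (norm_nonneg _).trans (b 0 (by simpa using r0.le))
  have dv : ‖deriv h 0‖ ≤ B / (σ / M) := Complex.norm_deriv_le_of_forall_mem_sphere_norm_le r0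
    (DifferentiableOn.diffContOnCl (hd.mono (closure_ball_subset_closedBall.trans sub)))
    fun w hw => b w (by simpa using (mem_sphere_zero_iff_norm.1 hw).le)
  have e : ∀ w : ℂ, h w - h 0 - w * deriv h 0 = w ^ 2 * dslope (dslope h 0) 0 w := fun w => by
    have a := sub_smul_dslope h 0 w
    have c := sub_smul_dslope (dslope h 0) 0 w
    rw [dslope_same] at c
    simp only [sub_zero, smul_eq_mul] at a c
    rw [sq, mul_assoc, c, mul_sub, a]
  have m : ‖dslope (dslope h 0) 0 z‖ ≤ 3 * B / (σ / M) ^ 2 := by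
    refine Complex.norm_le_of_forall_mem_frontier_norm_le (U := ball 0 (σ / M)) isBounded_ball
      (DifferentiableOn.diffContOnCl (d2.mono (closure_ball_subset_closedBall.trans sub)))
      (fun w hw => ?_) (subset_closure (mem_ball_zero_iff.2 (hz.trans_lt (by gcongr; linarith))))
    rw [frontier_ball _ r0.ne', mem_sphere_zero_iff_norm] at hw
    rw [le_div_iff₀ (by positivity), ← hw, mul_comm, ← norm_pow, ← norm_mul, ← e]
    have t : ‖w * deriv h 0‖ ≤ B := by
      rw [norm_mul, hw, mul_comm]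
      exact (le_div_iff₀ r0).1 dv
    linarith [norm_sub_le (h w - h 0) (w * deriv h 0), norm_sub_le (h w) (h 0), b w hw.le,
      b 0 (by simpa using r0.le)]
  rw [e, norm_mul, norm_pow, mul_comm]
  refine mul_le_mul_of_nonneg_right (m.trans ?_) (by positivity)
  rw [show 3 * B / (σ / M) ^ 2 = 3 * ((M / σ) ^ 2 * B) by field_simp]
  nlinarith [mul_nonneg (sq_nonneg (M / σ)) B0]

end Pool.Agent.Lib.MP_7f377f_mp.RG.Q4
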