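import Pool.Agent.Lib.MP_7f377f_mp.G.Q4Xw
import Pool.Agent.Lib.MP_7f377f_mp.G.S21L

/-! The one loop determinant of the anisotropic action from its derivative. -/

noncomputable section

namespace Pool.Agent.Lib.MP_7f377f_mp.RG.Q4

open Finset Matrix

theorem lk_sub {ι κ : Type} [Fintype ι] [Fintype κ] [DecidableEq ι] [DecidableEq κ]
    {Q Qe : Matrix ι ι ℝ} {d : Matrix ι κ ℝ} {c : ℝ} (hd : (dᵀ * d).det ≠ 0) (s : Q.IsSymm)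
    (s' : Qe.IsSymm) (hH : (Q + d * dᵀ).PosDef) (hc : c ≤ 2⁻¹)
    (h : ∀ x, |x ⬝ᵥ (Qe - Q) *ᵥ x| ≤ c * (x ⬝ᵥ (Q + d * dᵀ) *ᵥ x)) :
    |lk Qe d - lk Q d - 2⁻¹ * ((Q + d * dᵀ)⁻¹ * (Qe - Q)).trace| ≤ Fintype.card ι * c ^ 2 := by
  obtain ⟨μ, h1, h2, h3⟩ := pencil_eig hH (isHermitian_iff_isSymm.2 (s'.sub s)) h
  have p : ∀ i, 0 < 1 + μ i := fun i => by linarith [(abs_le.1 (h1 i)).1]
  have e := h2 1
  simp only [one_smul, one_mul, add_right_comm Q, add_sub_cancel] at e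
  have p0 := hH.det_pos.ne'
  have p1 := prod_ne_zero_iff.2 fun i (_ : i ∈ univ) => (p i).ne'
  rw [lk, lk, e, Real.log_div (mul_ne_zero p0 p1) (pow_ne_zero _ hd),
    Real.log_div p0 (pow_ne_zero _ hd), Real.log_mul p0 p1, Real.log_prod fun i _ => (p i).ne', ← h3,
    show ∀ a b g x : ℝ, 2⁻¹ * (a + b - g) - 2⁻¹ * (a - g) - 2⁻¹ * x = 2⁻¹ * (b - x) from
      fun _ _ _ _ => by ring, ← sum_sub_distrib, mul_sum]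
  refine (abs_sum_le_sum_abs _ _).trans ((sum_le_card_nsmul _ _ (c ^ 2) fun i _ => ?_).trans_eq
    (by simp))
  have a := Real.abs_log_sub_add_sum_range_le (x := -μ i) (by
    rw [abs_neg]; linarith [h1 i]) 1
  simp only [range_one, sum_singleton, zero_add, pow_one, Nat.cast_zero, div_one, abs_neg,
    sub_neg_eq_add] at a
  rw [abs_mul, abs_of_pos (by norm_num : (0 : ℝ) < 2⁻¹), sub_eq_neg_add]
  rw [le_div_iff₀ (by linarith [h1 i])] at a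
  have b := pow_le_pow_left₀ (abs_nonneg _) (h1 i) 2
  have a' : |-μ i + Real.log (1 + μ i)| * (1 - |μ i|) ≤ |μ i| ^ 2 := a
  linarith [mul_le_mul_of_nonneg_left ((h1 i).trans hc) (abs_nonneg (-μ i + Real.log (1 + μ i)))]

variable [GD]

open Xi in
/-- the one loop coefficient of the anisotropic action -/
theorem xw_lk (ε : ℝ) (hε : 0 < ε) : ∃ N0 : ℕ, ∀ (n1 n2 : ℕ) [NeZero n1] [NeZero n2], N0 ≤ n2 →
    n2 ≤ n1 → n2 * Real.log n1 ^ 2 ≤ n1 → ∀ (F : ℝ) (θ θ0 : Lk → Ang),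
    |F| * (n1 : ℝ) ^ 2 ≤ 7 * GD.hh → Bg (NN n1 n2) F θ → Bg (NN n1 n2) 0 θ0 → ∀ (be ga : ℝ)
    (Q Q0 Qe Qe0 : Matrix (IL (NN n1 n2)) (IL (NN n1 n2)) ℝ) (C ρ C0 ρ0 Ce ρe Ce0 ρe0 : ℝ),
    |be| ≤ 1 / 100 → |ga| ≤ 1 / 100 → 0 < ρ → 0 < ρ0 → 0 < ρe → 0 < ρe0 →
    Tay (SS (NN n1 n2) wc (ab θ)) Q C ρ → Tay (SS (NN n1 n2) wc (ab θ0)) Q0 C0 ρ0 →
    Tay (SS (NN n1 n2) (wa be ga) (ab θ)) Qe Ce ρe →
    Tay (SS (NN n1 n2) (wa be ga) (ab θ0)) Qe0 Ce0 ρe0 →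
    |lk Qe (Dm (NN n1 n2) (ab θ)) - lk Qe0 (Dm (NN n1 n2) (ab θ0)) -
      (lk Q (Dm (NN n1 n2) (ab θ)) - lk Q0 (Dm (NN n1 n2) (ab θ0))) -
      (be + ga) * (∑ k, (GD.q k / GD.hh) ^ 2) / (8 * Real.pi ^ 2) * F ^ 2 *
        ((n1 : ℝ) ^ 2 * (n2 : ℝ) ^ 2) * Real.log n2| ≤ (|be| + |ga|) *
      (ε * (((n1 : ℝ) ^ 2)⁻¹ ^ 2 * ((n1 : ℝ) ^ 2 * (n2 : ℝ) ^ 2) * Real.log n2)) +
      2048 * GD.d * (|be| + |ga|) ^ 2 * ((n1 : ℝ) ^ 2 * (n2 : ℝ) ^ 2) := by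
  obtain ⟨N0, H⟩ := xw_tr ε hε
  refine ⟨N0, fun n1 n2 _ _ h0 h21 hl F θ θ0 hF h h' be ga Q Q0 Qe Qe0 C ρ C0 ρ0 Ce ρe Ce0 ρe0 b1 b2
    r1 r2 r3 r4 t1 t2 t3 t4 => ?_⟩
  obtain ⟨p1, p2, p3, p4, p5⟩ := H n1 n2 h0 h21 hl F θ θ0 hF h h' be ga Q Q0 Qe Qe0 C ρ C0 ρ0 Ce ρe
    Ce0 ρe0 r1 r2 r3 r4 t1 t2 t3 t4 _ _ rfl rfl
  have d : ∀ {F θ}, Bg (NN n1 n2) F θ → ((Dm (NN n1 n2) (ab θ))ᵀ * Dm (NN n1 n2) (ab θ)).det ≠ 0 :=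
    fun h h0 => by
      obtain ⟨v, v0, hv⟩ := exists_mulVec_eq_zero_iff.2 h0
      have := congrArg (v ⬝ᵥ ·) hv
      simp only [← mulVec_mulVec, dotProduct_zero] at this
      rw [dotProduct_mulVec, vecMul_transpose, dotProduct_self_eq_zero, Dm_mulVec] at this
      exact v0 (DL_inj h v this)
  have a1 := lk_sub (d h) t1.1 t3.1 p1 (by linarith) p3
  have a2 := lk_sub (d h') t2.1 t4.1 p2 (by linarith) p4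
  have c : (Fintype.card (TS (NN n1 n2)) : ℝ) = (n1 : ℝ) ^ 2 * (n2 : ℝ) ^ 2 := by
    rw [Fintype.card_pi, prod_congr rfl fun i _ => ZMod.card (NN n1 n2 i)]
    simp [Fin.prod_univ_four, NN]; ring
  rw [Fintype.card_prod, Fintype.card_prod, Fintype.card_fin, Fintype.card_fin, Nat.cast_mul,
    Nat.cast_mul, c] at a1 a2
  push_cast at a1 a2
  rw [abs_le] at a1 a2 p5 ⊢
  constructor <;> linarith [a1.1, a1.2, a2.1, a2.2, p5.1, p5.2]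

end Pool.Agent.Lib.MP_7f377f_mp.RG.Q4
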