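import Pool.Agent.Lib.MP_7f377f_mp.G.Q5CmL
import Pool.Agent.Lib.MP_7f377f_mp.G.Q5HyP

/-! The hybrid flow at the levels of the comparison. -/

noncomputable section

set_option linter.unusedSectionVars false
variable [Pool.Agent.Lib.MP_7f377f_mp.GD]

namespace Pool.Agent.Lib.MP_7f377f_mp.RG.Q4.En.Gl.Ok

open Real

variable {G : Gl} (h : G.Ok) {c C j l J' : ℕ} {X η b b' : ℝ}
include h

theorem hy_ex (hB : pB c C * G.K + pB c C ≤ G.Bk l) (hp : G.Pu) (w : G.Lw c l j X η)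
    (t : G.Tu b (G.lJ c l)) (t' : G.Tu b' J') (hJ : G.lJ c l ≤ J') :
    ∃ γ H u, |γ - 1| ≤ (G.Q l)⁻¹ ∧ G.Hy b (G.lJ c l) b' J' (G.li c l) (G.lk c l) γ
      (32 / G.Q l ^ pT c) (4 / G.Q l ^ pT c * G.bb (G.lk c l)) H u := by
  have o : l ≤ G.lk c l := Nat.le_add_right _ _
  have o' : G.lk c l ≤ G.li c l := Nat.le_add_right _ _
  have hK : (4 * pT c + 3000) * G.K ≤ G.Bk (G.lk c l) :=
    ((Nat.mul_le_mul_right _ (by unfold pB; omega)).trans (le_of_add_le_left hB)).trans (h.B_mono o)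
  obtain ⟨γ, e, Y⟩ := h.hy_pack (i := G.li c l) (k := G.lk c l) (n := G.K * pT c) hp t t' hJ le_rfl
    (w.2.2.2.1 _ (o.trans o')) le_rfl (Nat.add_le_add_left (by nlinarith [h.B_mono o']) _)
  have q := h.Q_mono o
  clear o'
  generalize G.lk c l = k at *
  have q0 := h.Q0 l
  have q1 := h.Q0 k
  have a : (G.Q k ^ pT c)⁻¹ ≤ (G.Q l ^ pT c)⁻¹ := by gcongr
  have a0 : 0 < (G.Q k ^ pT c)⁻¹ := by positivity
  have g : G.Q k ^ 508 * √(G.g k) ≤ (G.Q k ^ pT c)⁻¹ := by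
    rw [inv_eq_one_div, le_div_iff₀' (by positivity), ← mul_assoc, ← pow_add]
    refine le_of_sq_le_sq (le_of_sq_le_sq ?_ (by norm_num)) zero_le_one
    rw [mul_pow, mul_pow, sq_sqrt (h.g0 k).le, one_pow, one_pow, ← h.bg k, Q, ← pow_mul, ← pow_mul,
      ← pow_mul]
    exact mul_le_mul_of_nonneg_right (h.Lbk k (by nlinarith)) (sq_nonneg _)
  rw [pow_mul, ← Q] at Y
  refine ⟨γ, _, _, e.trans (le_trans ?_ (inv_anti₀ q0 q)), { Y with
    du := h.sz_le Y.du (by positivity) ?_ ?_ le_rfl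
    dh := h.sz_le Y.dh (by positivity) ?_ ?_ le_rfl }⟩
  · have := h.inv_le k (i := 1) (j := 30) (by norm_num)
    rw [pow_one] at this
    linarith [div_eq_mul_inv 4 (G.Q k ^ 30), inv_pos.2 (pow_pos q1 30)]
  all_goals simp only [div_eq_mul_inv]; nlinarith [h.b0 k]

end Pool.Agent.Lib.MP_7f377f_mp.RG.Q4.En.Gl.Ok
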