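import Pool.Agent.Lib.MP_7f377f_mp.G.Q5CmL

/-! High levels are high enough. -/

noncomputable section

set_option linter.unusedSectionVars false
variable [Pool.Agent.Lib.MP_7f377f_mp.GD]

namespace Pool.Agent.Lib.MP_7f377f_mp.RG.Q4.En.Gl.Ok

open Real Filter Topology

variable {G : Gl} (h : G.Ok) {η : ℝ}
include h

theorem lw_cpl (η0 : 0 < η) : ∀ᶠ J in atTop, ∀ b, |b / G.bb J - 1| ≤ (G.Q J ^ 409)⁻¹ →
    |b / log (3 ^ G.e J) - 11 * GD.b0 / (48 * π ^ 2)| ≤ η := by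
  have t1 : Tendsto (fun J => (G.Q J ^ 409)⁻¹) atTop (𝓝 0) :=
    ((tendsto_pow_atTop (by norm_num)).comp h.Q_top).inv_tendsto_atTop
  have t2 := (t1.mul h.sch.lim.abs).add (h.sch.lim.sub_const (11 * GD.b0 / (48 * π ^ 2))).abs
  rw [zero_mul, sub_self, abs_zero, add_zero] at t2
  filter_upwards [t2.eventually_le_const η0, h.b_top.eventually_gt_atTop 0] with J a b0 b hb
  have e : b / log (3 ^ G.e J) - 11 * GD.b0 / (48 * π ^ 2) = (b / G.bb J - 1) * (G.bb J / log (3 ^ G.e J)) +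
      (G.bb J / log (3 ^ G.e J) - 11 * GD.b0 / (48 * π ^ 2)) := by
    rw [sub_mul, div_mul_div_cancel₀ b0.ne']; ring
  rw [e]
  refine (abs_add_le _ _).trans (le_trans ?_ a)
  rw [abs_mul]
  gcongr

theorem lw_ev (c j : ℕ) (X : ℝ) (η0 : 0 < η) : ∀ᶠ l in atTop, G.Lw c l j X η := by
  filter_upwards [h.ev_gap (pP c * G.K) j, h.ev_two (pP c) j, h.ev_exp (pT c + 200),
    eventually_forall_ge_atTop.2 h.ev_B, h.ev_L X,
    h.Q_top.inv_tendsto_atTop.eventually_le_const η0,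
    eventually_forall_ge_atTop.2 (h.lw_cpl η0)] with l a1 a2 a3 a4 a5 a6 a7
  exact ⟨a1.1, a2.2, a3, a4, a5, a6, fun J b hJ => a7 J hJ b⟩

end Pool.Agent.Lib.MP_7f377f_mp.RG.Q4.En.Gl.Ok
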