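import Pool.Agent.Lib.MP_7f377f_mp.G.Q4EFinM
import Pool.Agent.Lib.MP_7f377f_mp.G.Q5TanD
import Pool.Agent.Lib.MP_7f377f_mp.G.InfDefs

/-! The family of lattices of all odd volumes and all numbers of levels. -/

noncomputable section

set_option linter.unusedSectionVars false
variable [Pool.Agent.Lib.MP_7f377f_mp.GD]

namespace Pool.Agent.Lib.MP_7f377f_mp.RG.Q4.En

open Real Filter Topology

/-- the allowed size of the rough part of the sources -/
def ta (p : ℕ × ℕ) : ℝ := (2 ^ p.2)⁻¹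

namespace Gl

variable (G : Gl)

/-- the same parameters on the torus of side `2 m + 1` -/
def wm (m : ℕ) : Gl := { G with m := 2 * m + 1 }

/-- parameters which are good for all volumes -/
def Oks : Prop := ∀ m, (G.wm m).Ok ∧ (G.wm m).Pu

/-- the number of sites in each direction -/
def nn (p : ℕ × ℕ) : ℕ := (G.wm p.1).N p.2

/-- the lattice spacing -/
def aa (p : ℕ × ℕ) : ℝ := (3 ^ G.e p.2)⁻¹

/-- tuned bare couplings -/
def Tus (β : ℕ × ℕ → ℝ) : Prop := ∀ p, (G.wm p.1).Tu (β p) p.2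

instance (m J : ℕ) : NeZero ((G.wm m).N J) :=
  ⟨mul_ne_zero (Nat.succ_ne_zero _) (pow_ne_zero _ three_ne_zero)⟩

instance (p : ℕ × ℕ) : NeZero (G.nn p) := inferInstanceAs (NeZero ((G.wm p.1).N p.2))

theorem aa_pos (p : ℕ × ℕ) : 0 < G.aa p := inv_pos.2 (pow_pos three_pos _)

theorem aa_nn (p : ℕ × ℕ) : G.aa p * G.nn p = 2 * p.1 + 1 := by
  simp only [aa, nn, N, wm]
  push_cast
  field_simp

variable {G} {β : ℕ × ℕ → ℝ}

theorem Oks.tus1 (h : G.Oks) : ∃ b : ℕ → ℝ, G.Tus fun p => b p.2 := by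
  choose b hb using (h 0).1.run
  exact ⟨b, fun p => (h p.1).1.tu_of (hb p.2).to1⟩

theorem Oks.tus (h : G.Oks) : ∃ β, G.Tus β := h.tus1.elim fun _ a => ⟨_, a⟩

theorem Oks.lims (h : G.Oks) (hβ : G.Tus β) (Φ : Filter ℕ) :
    Tendsto G.aa (Φ ×ˢ atTop) (𝓝[>] 0) ∧
      Tendsto (fun p => β p / log (G.aa p)⁻¹) (Φ ×ˢ atTop) (𝓝 (11 * GD.b0 / (48 * π ^ 2))) ∧
      Tendsto (fun p => ta p / G.aa p) (Φ ×ˢ atTop) atTop := by
  have o := (h 0).1
  refine ⟨tendsto_inv_atTop_nhdsGT_zero.comp (((tendsto_pow_atTop_atTop_of_one_lt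
    (by norm_num)).comp o.sch.mono.tendsto_atTop).comp tendsto_snd), ?_, ?_⟩
  · have t1 : Tendsto (fun p => β p / G.bb p.2) (Φ ×ˢ atTop) (𝓝 1) := by
      refine tendsto_iff_norm_sub_tendsto_zero.2 (squeeze_zero (fun _ => norm_nonneg _)
        (fun p => ?_) (tendsto_inv_atTop_zero.comp (o.tL.comp tendsto_snd)))
      have := (hβ p).v _ le_rfl
      rw [zz_top] at this
      exact this.trans (inv_anti₀ (lt_of_lt_of_le (by norm_num) (o.L1 p.2))
        ((o.LQ _).trans (le_self_pow₀ (o.Q1 _) (by norm_num))))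
    have t3 := t1.mul (o.sch.lim.comp tendsto_snd)
    rw [one_mul] at t3
    refine t3.congr fun p => ?_
    rw [aa, inv_inv]
    exact div_mul_div_cancel₀ (o.b0 p.2).ne'
  · refine tendsto_atTop_mono (fun p => ?_) ((tendsto_pow_atTop_atTop_of_one_lt
      (show (1 : ℝ) < 3 / 2 by norm_num)).comp tendsto_snd)
    rw [ta, aa, div_inv_eq_mul, Function.comp_apply, div_pow, inv_mul_eq_div]
    gcongr
    · norm_num
    · exact o.sch.mono.le_apply

theorem Oks.fam (h : G.Oks) (hβ : G.Tus β) : YM7.Fam (atTop ×ˢ atTop) G.nn G.aa β ta :=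
  let ⟨a1, a2, a3⟩ := h.lims hβ atTop
  ⟨a1, by
    simp only [aa_nn]
    exact tendsto_atTop_add_const_right _ _ ((tendsto_natCast_atTop_atTop.comp
      tendsto_fst).const_mul_atTop two_pos), a2, a3⟩

end Gl

end Pool.Agent.Lib.MP_7f377f_mp.RG.Q4.En
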