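import Pool.Agent.Lib.MP_7f377f_mp.G.Q5CmC
import Pool.Agent.Lib.MP_7f377f_mp.G.Q5CmH
import Pool.Agent.Lib.MP_7f377f_mp.G.Q5CmR
import Pool.Agent.Lib.MP_7f377f_mp.G.Q5CmW
import Pool.Agent.Lib.MP_7f377f_mp.G.Q5CmN
import Pool.Agent.Lib.MP_7f377f_mp.G.Q5Fm

/-! Comparison of the correlation functions with those of a weakly coupled lattice theory. -/

noncomputable section

open Pool.Agent.Lib.MP_7f377f_mp.Jet

set_option linter.unusedSectionVars false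
variable [Pool.Agent.Lib.MP_7f377f_mp.GD]

namespace Pool.Agent.Lib.MP_7f377f_mp.RG.Q4.En

open Finset Real Sg Br YM7 Filter Topology

theorem red_mono {n : ℕ} [NeZero n] {κ : Type} [Fintype κ] [DecidableEq κ] {Λ : (YM7.Cfg n → ℝ) → ℝ}
    {F : κ → Src n} {w M M' : ℝ} {e : Finset κ → ℂ} (h : Red Λ F w M e) (hM : M ≤ M') :
    Red Λ F w M' e := ⟨h.1, h.2.imp fun _ a => ⟨a.1.mono hM, a.2⟩⟩

namespace Gl.Ok

variable {G : Gl} (h : G.Ok) {c C j l J J' k : ℕ} {Λ δ d η X b b' : ℝ} {f : Fin k → R4 → ℝ}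
include h

theorem sg_pos (l : ℕ) : 0 < G.sg l := div_pos (h.b0 l) (pow_pos (h.Q0 l) _)

theorem top_two (t : G.Tu b J) : b ≤ 2 * G.bb J ∧ 2 * b ≤ G.N J := by
  have v := (t.gd J le_rfl).tz.v
  rw [zz_top] at v
  have a : b / G.bb J ≤ 2 := by linarith [(abs_le.1 (show |b / G.bb J - 1| ≤ _ from v)).2]
  rw [div_le_iff₀ (h.b0 J)] at a
  obtain ⟨-, v1, v2⟩ := h.vol J
  rw [← v1, Nat.cast_mul]
  exact ⟨a, by nlinarith [h.L1 J, h.b0 J]⟩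

/-- the parameters of the comparison -/
theorem lw_par (w : G.Lw c l j X η) (hk : k ≤ c) (b0 : 0 ≤ b) (hb : b ≤ 4 * G.bb l) :
    0 < (2 ^ (l - j) * G.sg l)⁻¹ ∧ 0 < 2 / G.sg l ∧
      (2 ^ (l - j) * G.sg l)⁻¹ ≤ (G.Q l ^ pP c)⁻¹ * (2 / G.sg l) ∧ (G.Q l ^ pP c)⁻¹ < 1 ∧
      (G.Q l ^ pP c)⁻¹ * (b * (2 / G.sg l)) ^ k ≤ η := by
  have s := h.sg_pos l
  have q := h.Q0 l
  have q1 := h.cQ l (C := 8) (by norm_num)
  refine ⟨by positivity, by positivity, ?_, inv_lt_one_of_one_lt₀ (one_lt_pow₀ (by linarith)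
    (Nat.succ_ne_zero _)), le_trans ?_ w.2.2.2.2.2.1⟩
  · rw [mul_inv]
    exact mul_le_mul (inv_anti₀ (by positivity) w.2.1) (by rw [← one_div]; gcongr; norm_num)
      (by positivity) (by positivity)
  · have a : b * (2 / G.sg l) ≤ G.Q l ^ 1201 := by
      rw [sg, div_div_eq_mul_div, ← mul_div_assoc, div_le_iff₀ (h.b0 l), pow_succ _ 1200]
      nlinarith [mul_le_mul_of_nonneg_left hb (pow_pos q 1200).le,
        mul_le_mul_of_nonneg_left q1 (mul_pos (pow_pos q 1200) (h.b0 l)).le]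
    have := (pow_le_pow_left₀ (by positivity) a k).trans
      (pow_le_pow_right₀ (one_le_pow₀ (h.Q1 l)) hk)
    rw [pP, pow_succ, mul_inv, mul_comm (G.Q l ^ _)⁻¹, mul_assoc, pow_mul]
    exact mul_le_of_le_one_right (by positivity) (by rwa [inv_mul_le_one₀ (by positivity)])

theorem tv_all (hp : G.Pu) (t : G.Tu b J) : G.Tv b J := fun _ hk => (h.tan_main hp t hk).1.sz

/-- the exponents of two runs -/
theorem cmp_two [NeZero (G.N J)] [NeZero (G.N J')] (hB : pB c C * G.K + pB c C ≤ G.Bk l) (hp : G.Pu)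
    (w : G.Lw c l j X η) (V : G.Lv c j l Λ δ d) (H : Tf f Λ δ) (hk : k ≤ c) (j0 : 0 < j)
    (hJ : J = G.lJ c l) (t : G.Tu b J) (t' : G.Tu b' J') (hJ' : J ≤ J') :
    ∃ (γ : ℝ) (v : Weak.Site 4 (G.N J)) (v' : Weak.Site 4 (G.N J')) (e e' : Finset (Fin k) → ℂ),
      |γ - 1| ≤ η ∧ Red (YM7.ex (Fi.tr haar) b (G.N J)) (tsr Λ f ((3 ^ G.e J)⁻¹ / d) v)
        (2 ^ (l - j) * G.sg l)⁻¹ (G.mr j (3 ^ (G.e j - 1)) k) e ∧
      Red (YM7.ex (Fi.tr haar) b' (G.N J')) (tsr Λ f ((3 ^ G.e J')⁻¹ / d) v')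
        (2 ^ (l - j) * G.sg l)⁻¹ (G.mr j (3 ^ (G.e j - 1)) k) e' ∧
      ∀ T : Finset (Fin k), 2 ≤ T.card → ‖e T‖ ≤ (2 / G.sg l) ^ T.card ∧
        ‖e' T - γ ^ T.card * e T‖ ≤ (G.Q l ^ pP c)⁻¹ * (2 / G.sg l) ^ T.card := by
  have o1 : l + G.K0 + 1 ≤ G.lk c l := by
    have := h.K0_le
    unfold lk
    nlinarith [Nat.zero_le (G.K * pT c)]
  have o2 : G.lk c l < G.li c l := Nat.lt_add_of_pos_right (Nat.mul_pos (by norm_num)
    (Nat.mul_pos (by have := h.K0_le; omega) (Nat.succ_pos _)))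
  have o3 : G.li c l ≤ J := by rw [hJ, lJ]; omega
  have o4 : l < J := by omega
  have e1 : 3 * 3 ^ (G.e j - 1) = 3 ^ G.e j := by
    rw [← pow_succ', Nat.sub_add_cancel (j0.trans_le h.sch.mono.le_apply)]
  have hn : G.N j = 3 * G.m * 3 ^ (G.e j - 1) := by rw [N, ← e1]; ring
  have m1 : 1 < 3 * G.m := by have := h.odd.pos; omega
  have : NeZero (3 * G.m) := ⟨by omega⟩
  have a1 : ∀ n, ((3 : ℝ) ^ G.e n)⁻¹ * 3 ^ G.e n = 1 := fun n => inv_mul_cancel₀ (by positivity)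
  have w0 := inv_pos.2 (mul_pos (pow_pos (two_pos (α := ℝ)) (l - j)) (h.sg_pos l))
  have e2 : (G.rt J' J : ℝ) * (3 ^ G.e J')⁻¹ = (3 ^ G.e J)⁻¹ := by
    rw [← h.rt_e hJ', mul_inv, mul_inv_cancel_left₀ (rt_pos _ _).ne']
  obtain ⟨v, hv⟩ : ∃ v : ℕ, |((3 : ℝ) ^ G.e J)⁻¹ * v -
      (3 ^ G.e J)⁻¹ * (G.rt J j * 3 ^ (G.e j - 1) : ℕ) / 2| ≤ d := by
    have := (h.s_le V o4 (a1 J)).1
    rw [div_le_one V.d0] at this
    generalize G.rt J j * 3 ^ (G.e j - 1) = n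
    refine ⟨n / 2, ?_⟩
    rw [mul_div_assoc, ← mul_sub, abs_mul, abs_of_pos (by positivity)]
    refine (mul_le_of_le_one_right (by positivity) (abs_le.2 ⟨?_, ?_⟩)).trans this
    · have : ((n : ℕ) : ℝ) ≤ (2 * (n / 2) + 1 : ℕ) := Nat.cast_le.2 (by omega)
      push_cast at this ⊢
      linarith
    · linarith [Nat.cast_div_le (α := ℝ) (m := n) (n := 2)]
  have hv' : |((3 : ℝ) ^ G.e J')⁻¹ * (G.rt J' J * v : ℕ) -
      (3 ^ G.e J')⁻¹ * (G.rt J' j * 3 ^ (G.e j - 1) : ℕ) / 2| ≤ d := by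
    rw [← h.rt_mul (V.le.trans o4.le) hJ']
    rw [← e2] at hv
    refine le_of_eq_of_le ?_ hv
    push_cast
    ring_nf
  have s0 : 0 < ((3 : ℝ) ^ G.e J')⁻¹ / d := div_pos (by positivity) V.d0
  obtain ⟨g1, g2, g3, g4⟩ := h.geo_ts V (o4.trans_le hJ') (a1 J') hn e1.ge hk H hv' rfl
  have a5 : 2 * Λ + 2 * ((3 ^ G.e J')⁻¹ / d) < (3 ^ G.e J')⁻¹ / d * G.N J' := by
    have a3 : (3 : ℝ) ^ G.e J' ≤ G.N J' := by
      exact_mod_cast Nat.le_mul_of_pos_left _ h.odd.pos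
    have a4 := mul_le_mul_of_nonneg_left a3 s0.le
    rw [div_mul_eq_mul_div, a1, div_le_iff₀ V.d0] at a4
    nlinarith [(h.s_le V (o4.trans_le hJ') (a1 J')).1, d_le V H.one H.pos, V.d0, H.one, H.pos]
  have a6 : ∀ i, symF (tsr Λ f ((3 ^ G.e J)⁻¹ / d) (Fi.cst (G.N J) fun _ => v) i) = fun z _ _ =>
      G.fd J' J (prf (G.N J') Λ f ((3 ^ G.e J')⁻¹ / d) (fun _ => (G.rt J' J * v : ℕ)) i) z := fun i => by
    rw [show (fun _ => ((G.rt J' J * v : ℕ) : ℤ)) = (G.rt J' J : ℤ) • (fun _ => (v : ℤ) : St) from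
      funext fun _ => Nat.cast_mul .., fd_prf h hJ', ← mul_div_assoc, e2]
    rfl
  subst hJ
  obtain ⟨γ, _, _, a2, Y⟩ := h.hy_ex hB hp w t t' hJ'
  obtain ⟨Z, Z', z1, z2, z3⟩ := h.cmp_core
    (F := tsr Λ f ((3 ^ G.e (G.lJ c l))⁻¹ / d) (Fi.cst _ fun _ => v))
    (g := prf _ Λ f _ fun _ => (G.rt J' (G.lJ c l) * v : ℕ)) hp t t' (h.tv_all hp t)
    (h.tv_all hp t') (Nat.le_sub_of_add_le w.1) (Nat.sub_le _ _) (by omega) o2 o3 hJ' Y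
    (mul_pos four_pos s0) (by linarith [h.s_rt V (o4.trans_le hJ') (a1 J')])
    (fun _ => prf_lip H s0 a5 _) (fun _ _ => prf_le H _ _) (fun _ => rfl) a6
    (fun _ => Subset.rfl) ((Fintype.card_fin k).trans_le hk) g1
    (g2 _ o1 (by omega) (h.lw_win hB (by omega) (by omega)).1) g3 g4 (inv_inv _).le
    (h.er_le hB w (V.big.trans (h.L_mono V.le)) (by omega) (mul_pos four_pos s0).le
      (by linarith [h.s_rt V (o4.trans_le hJ') (a1 J')]))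
  exact ⟨γ, _, _, _, _, a2.trans w.2.2.2.2.2.1, h.red_run V o4 (a1 _) hn e1.ge t hp
    (h.tv_all hp t) w0 (inv_inv _).le m1 hk H hv z1, h.red_run V (o4.trans_le hJ') (a1 _)
    hn e1.ge t' hp (h.tv_all hp t') w0 (inv_inv _).le m1 hk H hv' z2, z3⟩

theorem d_big (V : G.Lv c j l Λ δ d) (hl : l < J) : (G.L l : ℝ) ≤ d * 3 ^ G.e J := by
  have a : (G.L l : ℝ) ≤ G.rt J l := Nat.cast_le.2
    ((Nat.le_self_pow (by omega) _).trans (h.le_rt l hl.le))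
  rw [← h.rt_e hl.le, mul_left_comm]
  exact a.trans (le_mul_of_one_le_right (Nat.cast_nonneg _) V.one)

end Gl.Ok

theorem cmp2_main (G : Gl) (β : ℕ × ℕ → ℝ) (o : G.Oks) (hβ : G.Tus β) (K C : ℕ) :
    Cmp2 (Fi.tr haar) (⊤ ×ˢ atTop) G.nn G.aa β K C := by
  intro k hk f hf
  obtain ⟨Λ, δ, H⟩ := hf.tf
  have : (Fi.tr haar).IsHaarMeasure := (inferInstance : haar.IsHaarMeasure)
  have o0 := (o 0).1
  obtain ⟨j, j0, j1⟩ := ((eventually_gt_atTop 0).and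
    (o0.L_nat.eventually_ge_atTop (1000 * 3 ^ K))).exists
  have m0 : 0 ≤ G.mr j (3 ^ (G.e j - 1)) k := by unfold Gl.mr; positivity
  have Λ0 : 0 ≤ Λ ^ k := pow_nonneg (zero_le_one.trans H.one) k
  refine ⟨Λ ^ k + G.mr j (3 ^ (G.e j - 1)) k, fun η η0 D => ?_⟩
  filter_upwards [o0.ev_lv H.one H.pos j1 ((o0.lw_ev K j D η0).and
    (o0.sch.Btop.eventually_ge_atTop (pB K C * G.K + pB K C)))] with d ⟨l, ⟨w, hB⟩, V⟩
  filter_upwards [tendsto_snd.eventually_ge_atTop (G.lJ K l)] with p hp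
  obtain ⟨h, pu⟩ := o p.1
  obtain ⟨b, t⟩ := h.run (G.lJ K l)
  have V' : (G.wm p.1).Lv K j l Λ δ d := ⟨V.1, V.2, V.3, V.4, V.5, V.6, V.7, V.8⟩
  have o1 : l < G.lJ K l := by unfold Gl.lJ Gl.li Gl.lk; omega
  obtain ⟨γ, v, v', e, e', a1, a2, a3, a4⟩ := h.cmp_two hB pu w V' H hk j0 rfl t (hβ p) hp
  obtain ⟨b1, b2⟩ := h.top_two t
  obtain ⟨c1, c2, c3, c4, c5⟩ := h.lw_par w hk t.b0
    (by linarith [(h.lw_win hB o1.le le_rfl).2.2])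
  refine ⟨_, inferInstance, _, b, γ, _, _, _, _, _, _, e', e, inv_pos.2 (pow_pos three_pos _), ?_, ?_,
    b2, ?_, a1, H.corr _ _ _ _ v', H.corr _ _ _ _ v, by rw [abs_of_nonneg Λ0]; linarith,
    red_mono a3 (le_add_of_nonneg_left Λ0), red_mono a2 (le_add_of_nonneg_left Λ0), c1, c2, c3, c4,
    c5, a4⟩
  · rw [div_inv_eq_mul]
    exact w.2.2.2.2.1.trans (h.d_big V' o1)
  · rw [div_inv_eq_mul]
    exact ((le_div_iff₀' two_pos).2
      (h.lw_pow hB le_rfl V'.d0.le (V'.up.trans_eq (pow_succ' ..)))).trans (h.top_half t)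
  · rw [inv_inv]
    have := t.v _ le_rfl
    rw [Gl.zz_top] at this
    exact w.2.2.2.2.2.2 _ b o1.le this

end Pool.Agent.Lib.MP_7f377f_mp.RG.Q4.En
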