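import Pool.Agent.Lib.MP_7f377f_mp.G.Q5CmA

/-! Comparison of the free energies of two runs. -/

noncomputable section

open Pool.Agent.Lib.MP_7f377f_mp.Jet

set_option linter.unusedSectionVars false
variable [Pool.Agent.Lib.MP_7f377f_mp.GD]

namespace Pool.Agent.Lib.MP_7f377f_mp.RG.Q4.En

open Finset Real Sg Pos

variable {ι κ : Type} [DecidableEq ι] [DecidableEq κ] {A T : Finset ι} {σ : ℝ}

/-- one majorant for a multi-affine family -/
theorem km_ma {p : Pa} {n : ℕ} {a : Finset ι → Ac} {θ : Finset ι → ℝ} (σ0 : 0 < σ)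
    (e : ∀ T ⊆ A, ∃ d, KM p n d (a T) ∧ kN p n d (θ T / σ ^ T.card)) :
    ∃ d, kN p n d (∑ T ∈ A.powerset, θ T) ∧ ∀ s ∈ Pd fun _ => σ, KM p n d (ma A a s) := by
  choose! d h1 h2 using e
  have : ∀ B ⊆ A.powerset, kN p n (∑ T ∈ B, σ ^ T.card • d T) (∑ T ∈ B, θ T) ∧
      ∀ s ∈ Pd fun _ => σ, KM p n (∑ T ∈ B, σ ^ T.card • d T) (∑ T ∈ B, mon T s • a T) := fun B => by
    induction B using Finset.induction_on with
    | empty => exact fun _ => ⟨⟨fun _ _ => le_rfl, fun _ => by simp⟩, fun _ _ => km_zero⟩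
    | insert T B hT ih =>
      intro u
      have v := mem_powerset.1 (u (mem_insert_self _ _))
      obtain ⟨i1, i2⟩ := ih ((subset_insert _ _).trans u)
      simp only [sum_insert hT]
      exact ⟨(((h2 T v).smul (by positivity)).mono (mul_div_cancel₀ _ (by positivity)).le).add i1,
        fun s hs => (((h1 T v).smul _).mono fun X c => mul_le_mul_of_nonneg_right
          ((mon_le hs T).trans_eq (prod_const _)) ((h2 T v).1 X c)).add (i2 s hs)⟩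
  exact ⟨_, this _ Subset.rfl⟩

theorem sum_three {α β γ : ℝ} {c : ℕ} (hc : A.card ≤ c) (β0 : 0 ≤ β) (γ0 : 0 ≤ γ) :
    ∑ T ∈ A.powerset, ((if T = ∅ then α else 0) + (if T.card = 1 then β else 0) + γ) ≤
      α + c * β + 2 ^ c * γ := by
  rw [sum_add_distrib, sum_add_distrib, sum_ite_eq', if_pos (empty_mem_powerset A), ← sum_filter,
    ← powersetCard_eq_filter, sum_const, sum_const, card_powersetCard, card_powerset,
    Nat.choose_one_right, nsmul_eq_mul, nsmul_eq_mul, Nat.cast_pow, Nat.cast_ofNat]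
  gcongr
  norm_num

namespace Gl

variable (G : Gl)

/-- the properties of the flow of a family -/
structure Fo (A : Finset ι) (b : ℝ) (J i l j : ℕ) (σ : ℝ) (Y H : ℕ → _) (v : ι → ℕ → Lx × Ac)
    (f : ℕ → (ι → ℂ) → Conf → ℂ) : Prop where
  st : ∀ n < i, Y n = G.fs A n (G.zz b J (n + 1)) (Y (n + 1))
  fd : ∀ n ≤ i, j ≤ n → G.Fd n (G.zz b J n) A (fun _ => σ) (fun _ => σ) (G.Q n ^ 329)⁻¹ (Y n) (f n)
  pu : ∀ n ≤ i, j ≤ n → ∀ s ∈ Pd fun _ => σ, PU (G.p n) (G.Q n ^ 211)⁻¹ ((Y n).ψ s)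
  bs : ∀ n ≤ i, j ≤ n → (Y n).bs = H n
  jt : ∀ n ≤ i, l ≤ n → ∀ x ∈ A, (Y n).jt {x} = v x n
  e0 : ∀ T ⊆ A, 2 ≤ T.card → jd T (Y l).E = 0
  tl : ∀ n ≤ l, j ≤ n → ∀ T ⊆ A, T.Nonempty →
    ‖jd T (Y j).E - jd T (Y n).E‖ ≤ (100 ^ (l - n))⁻¹ / σ ^ T.card
  fe : G.Fd j (G.zz b J j) A (fun _ => σ) (fun _ => 2 ^ (l - j) * σ) (G.Q j ^ 329)⁻¹ (Y j) (f j)
  pe : ∀ s ∈ Pd fun _ => 2 ^ (l - j) * σ, PU (G.p j) (G.Q j ^ 211)⁻¹ ((Y j).ψ s)

/-- the data `H` and the tangent `u` of the run `(b', J')`, carried from level `i` on with the tree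
data of the run `(b, J)`, and their distance at level `k` to those of the run `(b, J)` -/
structure Hy (b : ℝ) (J : ℕ) (b' : ℝ) (J' i k : ℕ) (γ x y : ℝ) (H u : ℕ → Lx × Ac) : Prop where
  top : H i = ((G.zz b' J' i).ψ + ((G.sl i (G.zz b' J' i)).Φ 0 - (G.sl i (G.zz b J i)).Φ 0),
    (G.zz b' J' i).K)
  hs : ∀ k < i, H k = G.hs k (G.zz b J (k + 1)) (H (k + 1))
  bz : ∀ k ≤ i, G.Bz k (H k)
  tg : ∀ k < i, Tg (G.sd k (G.zz b J (k + 1))) (G.Q (k + 1) ^ 280)⁻¹ (H (k + 1)).1 (H (k + 1)).2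
  u0 : u i = G.tu b' J' i
  us : ∀ k < i, u k = G.ts k (G.zz b J (k + 1)) (H (k + 1)) (u (k + 1))
  un : ∀ k ≤ i, G.Sz k 1000 10 (G.Q k ^ 280)⁻¹ (u k).1 (u k).2
  one : |γ - 1| ≤ 1
  du : G.Sz k x x (G.Q k ^ 100)⁻¹ (u k - (γ : ℂ) • G.tu b J k).1 (u k - (γ : ℂ) • G.tu b J k).2
  dh : G.Sz k y y (G.Q k ^ 100)⁻¹ ((H k).1 - (G.zz b J k).ψ) ((H k).2 - (G.zz b J k).K)

/-- the relative error at level `k` -/
def er2 (J k c : ℕ) (a x y C : ℝ) : ℝ := y * G.g k ^ 2 +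
  c * (12000 * G.Q k * (G.rt J k * a) + x) + 2 ^ (c + 1) * G.Q k ^ 100 * exp (2 - C)

variable {G} {b b' γ x y a C w M ε τ d θ θ' : ℝ} {J J' i i' j k l m c : ℕ} {H u : ℕ → Lx × Ac}
  {W : ι → Finset St} {cl : ι → κ} {Y Y' : Fy ι} {z : Z}

omit [DecidableEq ι] in
theorem Geo.down (g : G.Geo A cl c W i l j) (hi : i' ≤ i) (hl : l ≤ i') :
    G.Geo A cl c (fun a => G.zs (W a) i i') i' l j :=
  ⟨fun k a b => by simpa only [zs_zs hi b] using g.one k a (b.trans hi),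
    fun k a b => by simpa only [zs_zs hi (b.trans hl)] using g.grp k a b, g.card, g.big,
    by simpa only [zs_zs hi hl] using g.vol⟩

namespace Ok

variable (h : G.Ok)
include h

theorem flow {v : ι → ℕ → Lx × Ac} {N : ℕ → ℝ} {f : ℕ → (ι → ℂ) → Conf → ℂ} (t : G.Tu b J)
    (hp : G.Pu) (hi : i ≤ J) (hl : l ≤ i) (hj : j ≤ l) (σ0 : 0 < σ)
    (w : G.Fw2 A b J i l j σ H v N f) (g : G.Geo A cl c Y.Z i l j)
    (e : G.Fd i (G.zz b J i) A (fun _ => σ) (fun _ => σ) (G.Q i ^ 329)⁻¹ Y (f i)) (e1 : Y.bs = H i)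
    (e2 : ∀ x ∈ A, Y.jt {x} = v x i) (e3 : Y.Ec A id) (hV : G.Q l ^ 273 * (σ * N l) ≤ G.bb l) :
    G.Fo A b J i l j σ (G.fw A b J Y i) H v f := by
  have R := h.flow1 t hp hi hj σ0 w g e e1 e2 e3
  have R' := h.flow2 t hp hi hl hj σ0 w g e e1 e2 e3 hV
  have p : ∀ n : ℕ, σ ≤ 2 ^ n * σ := fun n => le_mul_of_one_le_left σ0.le (one_le_pow₀ one_le_two)
  exact ⟨fun _ => fw_step, fun n a b => (le_total l n).elim (fun e => (R n a e).1) fun e =>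
      (R' n e b).1.mono (fun _ => σ0) (fun _ => p _) le_rfl,
    fun n a b s hs => (le_total l n).elim (fun e => (R n a e).2.2.2.2 s hs) fun e =>
      (R' n e b).2.2.2.1 s fun x => (hs x).trans_le (p _),
    fun n a b => (le_total l n).elim (fun e => (R n a e).2.1) fun e => (R' n e b).2.1,
    fun n a b => (R n a b).2.2.1, fun _ => jd_two (R l hl le_rfl).2.2.2.1,
    fun n a b => (R' n a b).2.2.2.2, (R' j hj le_rfl).1, (R' j hj le_rfl).2.2.2.1⟩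

omit [DecidableEq κ] in
/-- jets in two distant sources -/
theorem far_jet (t : G.Tz J (k + 1) z)
    (F : Fi (G.p (k + 1)) (G.N (k + 1)) A W (fun _ => σ) (G.Q (k + 1) ^ 329)⁻¹ Y.ψ Y.K)
    (pu : ∀ s ∈ Pd fun _ => σ, PU (G.p (k + 1)) (G.Q k ^ 210)⁻¹ (Y.ψ s))
    (far : Cls (G.N k) (C * (G.p k).D) A id fun v => nxt (G.sd k z) (W v)) (hT : T ⊆ A)
    (h2 : 2 ≤ T.card) : ∃ d, KM (G.p k) (G.N k) d (jA T (G.fs A k z Y).K) ∧
      kN (G.p k) (G.N k) d (exp (2 - C) / σ ^ T.card) := by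
  obtain ⟨x, hx, y, hy, u⟩ := one_lt_card.1 h2
  have B := h.bl_big k z
  have q := h.Q0 k
  have a0 := inv_pos.2 (pow_pos q 329)
  have σ0 := F.pos x
  obtain ⟨d, d1, -, d2⟩ := ((h.fi_sd F z).mono F.pos (fun _ => le_rfl) (by
    linarith [h.inv_up k.le_succ 329]) fun _ => Subset.rfl).jet_far (h.sd_all k z).nu (h.st2 t)
    (fun s hs => pu_mono (pu s hs) (by linarith [inv_pos.2 (pow_pos q 210)])) B.b_le B.θ_le hT hx hy
    (far x (hT hx) y (hT hy) u)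
  refine ⟨d, d1, d2.mono ?_⟩
  rw [show C * (G.p k).D / (G.sd k z).p'.D = C from mul_div_cancel_right₀ _ (h.D_pos k).ne',
    prod_const, div_eq_mul_inv]
  refine mul_le_mul_of_nonneg_left (mul_le_of_le_one_right (by positivity)
    ((B.th (h.sd_all k z).nu).trans ((div_le_one q).2 ?_))) (exp_pos _).le
  have := h.inv_le k (show 0 < 329 by norm_num)
  rw [pow_zero, inv_one] at this
  exact le_trans (by linarith) (h.Q1 k)

omit [DecidableEq κ] in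
/-- the difference of two families of separated sources -/
theorem df2_of (F : Fi (G.p k) (G.N k) A W (fun _ => σ) θ Y.ψ Y.K)
    (F' : Fi (G.p k) (G.N k) A W (fun _ => σ) θ' Y'.ψ Y'.K) (σ0 : 0 < σ) (hc : Cls (G.N k) d A id W)
    (d0 : 0 < d) (hA : A.card ≤ c) (c1 : 1 ≤ c) (x0 : 0 ≤ x) (τ0 : 0 ≤ τ)
    (e0 : G.Sz k y y (G.Q k ^ 100)⁻¹ (Y.ψ 0 - Y'.ψ 0) (Y.K 0 - Y'.K 0))
    (e1 : ∀ v ∈ A, G.Sz k x x (G.Q k ^ 100)⁻¹ (Y.jt {v} - Y'.jt {v}).1 (Y.jt {v} - Y'.jt {v}).2)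
    (e2 : ∀ T ⊆ A, 2 ≤ T.card →
      (∃ d, KM (G.p k) (G.N k) d (jA T Y.K) ∧ kN (G.p k) (G.N k) d (τ / σ ^ T.card)) ∧
        ∃ d, KM (G.p k) (G.N k) d (jA T Y'.K) ∧ kN (G.p k) (G.N k) d (τ / σ ^ T.card))
    (hX : y + c * (σ * x) + 2 ^ (c + 1) * G.Q k ^ 100 * τ * G.bb k ≤ M) :
    G.Df2 k (fun _ => σ) M M Y Y' := by
  have q := h.Q0 k
  have ω0 := inv_pos.2 (pow_pos q 100)
  have g0 := h.g0 k
  have y0 := (h.sz_nn e0).1
  have σx := mul_nonneg σ0.le x0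
  obtain ⟨a1, a2⟩ := F.ml.sub F'.ml
  have a3 : y + σ * x ≤ M := by
    have := mul_pos (mul_pos (pow_pos (two_pos (α := ℝ)) (c + 1)) (pow_pos q 100)) (h.b0 k)
    nlinarith [mul_le_mul_of_nonneg_right (Nat.one_le_cast (α := ℝ).2 c1) σx, mul_nonneg this.le τ0]
  refine ⟨fun s hs => PM.mono (h.ρ0 k) (a1.pm_one (h.ρ0 k) hc d0 e0.1 (fun v hv => by
    rw [a2 _ (singleton_subset_iff.2 hv)]; exact (e1 v hv).1) σx
    (mul_nonneg σ0.le (mul_nonneg (sq_nonneg _) x0)) (mul_nonneg σ0.le (mul_nonneg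
      (mul_nonneg (mul_pos (pow_pos q _) ω0).le x0) (sq_nonneg _))) fun v _ => (hs v).le)
    a3 ((le_of_eq (by ring)).trans (mul_le_mul_of_nonneg_left a3 (sq_nonneg _)))
    ((le_of_eq (by ring)).trans (mul_le_mul_of_nonneg_right (mul_le_mul_of_nonneg_left a3
      (mul_pos (pow_pos q _) ω0).le) (sq_nonneg _))), ?_⟩
  have β0 : 0 ≤ σ * ((G.Q k ^ 100)⁻¹ * x * G.g k ^ 2) :=
    mul_nonneg σ0.le (mul_nonneg (mul_nonneg ω0.le x0) (sq_nonneg _))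
  have α0 : 0 ≤ (G.Q k ^ 100)⁻¹ * y * G.g k ^ 2 := mul_nonneg (mul_nonneg ω0.le y0) (sq_nonneg _)
  obtain ⟨D, D1, D2⟩ := km_ma (p := G.p k) (n := G.N k) (A := A) (a := fun T => jA T Y.K - jA T Y'.K)
    (θ := fun T => (if T = ∅ then (G.Q k ^ 100)⁻¹ * y * G.g k ^ 2 else 0) +
      (if T.card = 1 then σ * ((G.Q k ^ 100)⁻¹ * x * G.g k ^ 2) else 0) + 2 * τ) σ0 fun T hT => by
    rcases Nat.lt_trichotomy T.card 1 with e | e | e
    · obtain rfl := card_eq_zero.1 (Nat.lt_one_iff.1 e)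
      simp only [jA_empty]
      exact e0.2.imp fun _ a => ⟨a.1, a.2.mono (by simp; linarith)⟩
    · obtain ⟨v, rfl⟩ := card_eq_one.1 e
      refine (e1 v (singleton_subset_iff.1 hT)).2.imp fun _ a => ⟨a.1, a.2.mono ?_⟩
      rw [if_neg (singleton_ne_empty v), if_pos e, e, pow_one, le_div_iff₀ σ0]
      linarith
    · obtain ⟨⟨_, u1, u2⟩, _, u3, u4⟩ := e2 T hT e
      refine ⟨_, u1.sub u3, (u2.add u4).mono (le_of_eq ?_)⟩
      rw [if_neg (card_pos.1 (by omega)).ne_empty, if_neg e.ne']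
      ring
  refine ⟨D, D1.mono ((sum_three hA β0 (by linarith)).trans ?_), fun s hs => ?_⟩
  · have e := mul_le_mul_of_nonneg_right (mul_le_mul_of_nonneg_left hX ω0.le) (sq_nonneg (G.g k))
    refine le_trans (le_of_eq ?_) e
    have := h.bg k
    field_simp
    rw [pow_succ]
    linear_combination (-(2 ^ c * 2 * τ * G.Q k ^ 100)) * this
  · convert D2 s hs using 1
    rw [Pi.sub_apply, congrFun F.act s, congrFun F'.act s]
    simp only [Jet.ma, smul_sub, sum_sub_distrib]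

end Ok

end Gl

end Pool.Agent.Lib.MP_7f377f_mp.RG.Q4.En
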