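import Pool.Agent.Lib.MP_7f377f_mp.G.Q5Lev

/-! The levels of the comparison. -/

noncomputable section

set_option linter.unusedSectionVars false
variable [Pool.Agent.Lib.MP_7f377f_mp.GD]

namespace Pool.Agent.Lib.MP_7f377f_mp.RG.Q4.En

open Real

/-- the accuracy of the comparison of `c` sources -/
def pP (c : ℕ) : ℕ := 1201 * c + 1

/-- the accuracy of the comparison of the tangents -/
def pT (c : ℕ) : ℕ := 3 * pP c + 70

/-- the ratio of the exponents -/
def pB (c C : ℕ) : ℕ := (41 * pT c + 8200) * (C + 1) + 4 * pT c + 3000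

namespace Gl

variable (G : Gl) (c l : ℕ)

/-- the level of the comparison -/
def lk : ℕ := l + G.K * (pT c + 2)

/-- the level at which the tree data are exchanged -/
def li : ℕ := G.lk c l + 40 * (G.K * pT c)

/-- the top level of the weakly coupled run -/
def lJ : ℕ := G.li c l + 20 * (405 * G.K + 1) + 1

/-- the level below which the sources are not seen -/
def lm : ℕ := l - pP c * G.K * G.t l

/-- the level `l` is high enough -/
def Lw (j : ℕ) (X η : ℝ) : Prop :=
  j + pP c * G.K * G.t l ≤ l ∧ G.Q l ^ pP c ≤ 2 ^ (l - j) ∧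
    G.Q l ^ (pT c + 200) * G.bb l * exp (-G.L l) ≤ 1 ∧ (∀ i, l ≤ i → 160 * G.Bk i ≤ i) ∧ X ≤ G.L l ∧
    (G.Q l)⁻¹ ≤ η ∧ ∀ J b, l ≤ J → |b / G.bb J - 1| ≤ (G.Q J ^ 409)⁻¹ →
      |b / log (3 ^ G.e J) - 11 * GD.b0 / (48 * π ^ 2)| ≤ η

end Gl

end Pool.Agent.Lib.MP_7f377f_mp.RG.Q4.En
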