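import Pool.Agent.Lib.MP_7f377f_mp.G.Q5Ball
import Pool.Agent.Lib.MP_7f377f_mp.G.Q4Src

/-! Multi-affine families of data: the free energy, the identity, reality and level zero. -/

noncomputable section

open Pool.Agent.Lib.MP_7f377f_mp.Jet

set_option linter.unusedSectionVars false
variable [Pool.Agent.Lib.MP_7f377f_mp.GD]

namespace Pool.Agent.Lib.MP_7f377f_mp.RG.Q4.En

open Finset Function Metric Sg Pos

attribute [local irreducible] box lbox tb rc

variable {ι κ : Type} [DecidableEq ι] [DecidableEq κ] {r r' : ι → ℝ} {A T : Finset ι} {p : Pa}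
  {n m c : ℕ} {Z : ι → Finset St} {cl : ι → κ} {ψ : (ι → ℂ) → Lx} {K : (ι → ℂ) → Ac} {φ : Lx}
  {s : ι → ℂ} {ρ θ b d β v : ℝ} {S : Sd} {i j : ι} {E : (ι → ℂ) → ℂ} {g : (ι → ℂ) → Conf → ℂ}

theorem ey_lin (h : S.Pu) {ψ ψ' : Lx} {K K' : Ac} (a : Dir S ψ K) (a' : Dir S ψ' K') (t : ℂ)
    (y : St) : S.Ey (ψ + t • ψ') (K + t • K') y =
      S.Ey ψ K y + t * (S.Ey ψ' K' y - S.Ey 0 0 y) := by
  obtain ⟨_, _, _, ⟨⟨_, _, _, m⟩, v⟩, hK, -⟩ := a
  obtain ⟨_, _, _, ⟨⟨_, _, _, m'⟩, v'⟩, hK', -⟩ := a'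
  have e1 : S.pz (S.ψy (ψ + t • ψ') y) 0 = S.pz (S.ψy ψ y) 0 + t * S.pz (S.ψy ψ' y) 0 :=
    h.pz_lin (ψ := S.ψy ψ y) (ψ' := S.ψy ψ' y) ⟨⟨_, _, _, fun _ => m _⟩, fun _ => v _⟩
      ⟨⟨_, _, _, fun _ => m' _⟩, fun _ => v' _⟩ t 0
  have e2 : ∑ X ∈ S.X1s, S.Fs (S.Ky (K + t • K') y) X 0 =
      ∑ X ∈ S.X1s, S.Fs (S.Ky K y) X 0 + t * ∑ X ∈ S.X1s, S.Fs (S.Ky K' y) X 0 := by
    rw [mul_sum, ← sum_add_distrib]
    exact sum_congr rfl fun X hX => Sd.Fs_lin (Sd.k1y h.nu.ok hK y hX) (Sd.k1y h.nu.ok hK' y hX) t 0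
  have e3 : S.pz (S.ψy 0 y) 0 = 0 := norm_le_zero_iff.1
    ((h.pz_le (b := 0) (fun _ _ _ _ _ => norm_zero.le) 0).trans_eq (mul_zero _))
  have e4 : ∑ X ∈ S.X1s, S.Fs (S.Ky 0 y) X 0 = 0 := sum_eq_zero fun X _ => Sd.Fs_zero rfl 0
  simp only [Sd.Ey, Sd.cX, e1, e2, e3, e4]
  ring

theorem hb_ma (hr : ∀ i, 0 < r i) (a : Finset ι → ℂ) : Hb r (ma A a) := ⟨_, sh_ma hr A a⟩

namespace Fi

variable (F : Fi S.p S.nf A Z r θ ψ K) (h : S.Nu 100)
include F h

/-- the free energy of a block is multi-affine -/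
theorem ey (u : S.Pu) (y : St) : (fun s => S.Ey (ψ s) (K s) y) = ma A fun T =>
    S.Ey (jL T ψ) (jA T K) y - if T = ∅ then 0 else S.Ey 0 0 y := funext fun s => by
  have := lin_ma (F := fun ψ K => S.Ey ψ K y - S.Ey 0 0 y) h (fun _ _ _ _ t a a' => by
    rw [ey_lin u a a', smul_eq_mul]; ring) (fun _ => F.dir) s
  rw [← congrFun F.psi s, ← congrFun F.act s, sub_eq_iff_eq_add] at this
  rw [this, show S.Ey 0 0 y = ma A (fun T => if T = ∅ then S.Ey 0 0 y else 0) s by simp [ma, mon],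
    ← ma_add]
  refine congrFun (ma_congr fun T _ => ?_) s
  simp only [Pi.add_apply]
  split_ifs <;> simp [ma, mon]

omit [DecidableEq κ] in
/-- the free energy does not couple different clusters -/
theorem ey_far (hc : Cls S.n d A cl fun i => nxt S (Z i)) (hd : 0 < d) (hT : T ⊆ A) (hi : i ∈ T)
    (hj : j ∈ T) (e : cl i ≠ cl j) (y : St) : jd T (fun s => S.Ey (ψ s) (K s) y) = 0 := by
  by_cases a : rc S.n y ∈ nxt S (Z i)
  · exact (F.loc.ey h fun a' => e (one_cluster hc hd (hT hi) (hT hj) a a')).jd hj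
  · exact (F.loc.ey h a).jd hi

variable (f : St2 S) (pu : ∀ s ∈ Pd r, PU S.p b (ψ s)) (hb : S.Q ^ 100 * b ≤ 1)
  (hθ : S.Q ^ 100 * θ ≤ 1)
include f pu hb hθ

omit h in
/-- the new activities before the truncation -/
theorem fa_up : ∃ k, kN S.p'.up S.n k (S.θ' b θ) ∧ FA r S.p' S.n k fun s => S.KK (ψ s) (K s) :=
  let ⟨k, sm⟩ := F.sml pu hb hθ
  have z := sm 0 (zero_mem F.pos)
  (f.K b θ k hb hθ z.b0 z.kn).imp fun _ a => ⟨a.1, fa_KK f F.pos (F.sl r) (F.sa r) sm a.2⟩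

/-- jets in two distant sources are small -/
theorem jet_far (hT : T ⊆ A) (hi : i ∈ T) (hj : j ∈ T)
    (e : Sep S.n d (nxt S (Z i)) (nxt S (Z j))) :
    ∃ k, KM S.p' S.n k (jA T (trK A fun s => S.KK (ψ s) (K s))) ∧ (∀ X c, k X c ≠ 0 →
      ¬ Disjoint (nxt S (Z i)) X) ∧
      kN S.p' S.n k (Real.exp (2 - d / S.p'.D) * ((∏ i ∈ T, r i)⁻¹ * S.θ' b θ)) := by
  obtain ⟨k, k1, k2⟩ := F.fa_up f pu hb hθ
  have D1 : 1 ≤ S.p'.D :=
    Nat.succ_le_of_lt (Nat.mul_pos (by norm_num) (Nat.pow_pos (Nat.succ_pos _)))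
  have a := k2.km_jA T
  have r0 : 0 ≤ (∏ i ∈ T, r i)⁻¹ := inv_nonneg.2 (prod_nonneg fun i _ => (F.pos i).le)
  rw [jA_trK hT]
  refine ⟨fun X c => (if Disjoint (nxt S (Z i)) X ∨ Disjoint (nxt S (Z j)) X then 0 else 1) *
    ((∏ i ∈ T, r i)⁻¹ • k) X c, ⟨a.meas, a.per, a.dep, a.gi, fun X c U hU => ?_⟩,
    fun X c h0 h1 => h0 (by simp [h1]),
    kN_slack (k1.smul r0) (fun X c => by positivity) (fun o _ => ?_) (Real.exp_pos _).le⟩
  · split_ifs with w
    · have : jA T (fun s => S.KK (ψ s) (K s)) X c U = 0 :=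
        w.elim ((F.loc.step h).jdA hi · c U) ((F.loc.step h).jdA hj · c U)
      simp [this]
    · simpa [div_eq_inv_mul] using a.bd X c U hU
  · split_ifs with w
    · positivity
    · have := tau_two D1 e (fun a => w (.inl a)) fun a => w (.inr a)
      rw [← Real.exp_add, Real.one_le_exp_iff]
      rw [← div_le_iff₀ (by exact_mod_cast D1)] at this
      linarith

/-- the identity for jets -/
theorem eqd (u : S.Pu) (ht : S.TOk) (hE : Hb r E) (e : EqD r A S.nf g fun s U =>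
      Complex.exp (E s) * Rep S.p S.nf (S.Φ (ψ s)) (K s) U) :
    (Hb r fun s => E s + ∑ y ∈ S.Λ', S.Ey (ψ s) (K s) y) ∧
    EqD r A S.n (fun s => TT S.l (S.β * S.L ^ 2) S.n (g s)) fun s U =>
      Complex.exp (E s + ∑ y ∈ S.Λ', S.Ey (ψ s) (K s) y) *
        Rep S.p' S.n (S.Φ' (ψ s) (K s)) (trK A (fun s => S.KK (ψ s) (K s)) s) U := by
  obtain ⟨k, sm⟩ := F.sml pu hb hθ
  have h4 : ∀ y, Hb r fun s => S.Ey (ψ s) (K s) y := fun y => F.ey h u y ▸ hb_ma F.pos _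
  refine ⟨(hE.refl.add (Eqv.sum (A := A) F.pos fun y _ => (h4 y).refl)).fst, ?_⟩
  simp only [Complex.exp_add]
  refine fam_step h f (F.sl r) (F.sa r) sm (hE.refl (A := A)).exp.fst ?_ h4 e
  have z := (F.dir (empty_subset A)).zero h
  obtain ⟨_, _, _, z1⟩ := z.pm f
  have := (fl_ma F.pos fun T hT =>
    (Dir.pm f (F.dir hT)).choose_spec.choose_spec.choose_spec.lo).add
    (h.lo_Φ' ht u.tk f.ol.1.lo z1.lo)
  have z2 : S.PL 0 0 = 0 := by simpa using pl_sub f z z 1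
  simp only [Sd.Φ', ← pl_ma h f fun _ => F.dir, z2, Pi.zero_apply, add_zero,
    ← congrFun F.psi, ← congrFun F.act] at this
  exact this

end Fi

/-! ### Level zero -/

/-- the total source -/
def sF (A : Finset ι) (F : ι → Sr) (s : ι → ℂ) : Sr := ∑ i ∈ A, s i • F i

variable {F : ι → Sr}

theorem sF_single (hi : i ∈ A) (t : ℂ) : sF A F (Pi.single i t) = t • F i := by
  rw [sF, sum_eq_single_of_mem i hi fun j _ e => by rw [Pi.single_eq_of_ne e, zero_smul],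
    Pi.single_eq_same]

omit [DecidableEq ι] in
theorem sF_zero : sF A F 0 = 0 := by simp [sF]

theorem sF_ind {x : St} (h : F i x = 0) : Ind i (sF A F · x) := fun s t => by
  simp only [sF, Finset.sum_apply, Pi.smul_apply]
  exact sum_congr rfl fun j _ => by
    by_cases e : j = i
    · rw [e, h, smul_zero, smul_zero]
    · rw [update_of_ne e]

theorem sF_diff (s : ι → ℂ) (i : ι) (x : St) (μ ν : Fin 4) :
    Differentiable ℂ fun t => sF A F (update s i t) x μ ν := by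
  simp only [sF, Finset.sum_apply, Pi.smul_apply, smul_eq_mul]
  exact .fun_sum fun j _ => .mul_const (by
    by_cases e : j = i
    · simpa only [e, update_self] using differentiable_fun_id
    · simpa only [update_of_ne e] using differentiable_const _) _

theorem lin_eq_ma {V : Type} [AddCommMonoid V] [Module ℂ V] (a : ι → V) (s : ι → ℂ) :
    ∑ i ∈ A, s i • a i = ma A (fun T => if T.card = 1 then ∑ i ∈ T, a i else 0) s := by
  induction A using Finset.induction_on with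
  | empty => simp [ma]
  | insert i A hi ih =>
    rw [sum_insert hi, ma_insert hi, ← ih, add_comm, ma_congr (a' := fun T => if T = ∅ then a i else 0)
      fun T hT => by by_cases e : T = ∅ <;> simp [e, card_insert_of_notMem (notMem_mono hT hi)]]
    simp [ma, mon]

theorem jL_src (hT : T ⊆ A) : jL T (fun s => sL (sF A F s)) =
    if T.card = 1 then ∑ i ∈ T, sL (F i) else 0 := by
  simp only [sF, sL_sum]
  simp only [lin_eq_ma]
  exact jL_ma _ hT

omit [DecidableEq ι] in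
/-- a bound for the total source -/
theorem sF_le {σ a : ℝ} (hc : Cls n d A id Z) (hd : 0 < d) (hZ : ∀ i x, rc n x ∉ Z i → F i x = 0)
    (hF : ∀ i ∈ A, ∀ x μ ν, ‖F i x μ ν‖ ≤ a) (hs : ∀ i ∈ A, ‖s i‖ ≤ σ) (h0 : 0 ≤ σ * a)
    (x : St) (μ ν : Fin 4) : ‖sF A F s x μ ν‖ ≤ σ * a := by
  simp only [sF, Finset.sum_apply, Pi.smul_apply, smul_eq_mul]
  by_cases e : ∃ i ∈ A, rc n x ∈ Z i
  · obtain ⟨i, hi, e⟩ := e
    rw [sum_eq_single_of_mem i hi fun j hj u => by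
      simp [hZ j x fun a => u (one_cluster hc hd hj hi a e)]]
    exact norm_mul_le_of_le (hs i hi) (hF i hi x μ ν)
  · rwa [sum_eq_zero fun j hj => by simp [hZ j x fun a => e ⟨j, hj, a⟩], norm_zero]

theorem src_loc (hn : Odd n) (hZ : ∀ i x, rc n x ∉ Z i → F i x = 0) :
    Loc n Z (fun s => sL (sF A F s)) fun s => sK p n β (sF A F s) := by
  refine ⟨fun i x hx => (sF_ind (hZ i x hx)).comp fun f B => ∑ μ, ∑ ν, f μ ν * wp μ ν B,
    fun i X c hX s t => funext fun U => ?_⟩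
  simp only [sK, KI]
  refine K0_congr hn (d := 0) (by omega) fun y hy e => ⟨rfl, ?_⟩
  have e1 := rc_eq hn hy
  have : sF A F (update s i t) y = sF A F s y := sF_ind (hZ i y fun a => disjoint_left.1 hX
    (e1 ▸ a) (e (mem_tb_single.2 ⟨e1, nearT.refl _ _ _⟩))) s t
  simp only [ww, this]

theorem src_hd {a : ℝ} (hr : ∀ i, 0 < r i) (hF : ∀ s ∈ Pd r, ∀ x μ ν, ‖sF A F s x μ ν‖ ≤ a)
    (h : a ≤ β) : HD r fun s U => wil β n U * Complex.exp (-sO n (sF A F s) U) := by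
  simp only [← ww_src]
  refine HD.prod hr fun x _ => ?_
  have w := fun s hs => wz_ww (b0 := 0) (b := fun x μ ν => (β : ℝ) + sF A F s x μ ν)
    le_rfl fun x μ ν => by
      have := (abs_le.1 ((Complex.abs_re_le_norm _).trans (hF s hs x μ ν))).1
      rw [Complex.add_re, Complex.ofReal_re]
      linarith
  exact ⟨⟨1, fun U => ⟨hr, fun s _ i => ww_diff fun μ ν =>
    ((sF_diff s i x μ ν).const_add _).differentiableOn, fun s hs => ((w s hs).bd x U).trans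
      (by simp)⟩⟩, fun s hs => (w s hs).meas x⟩

theorem pm_zero (h : 0 < p.ρ) : PM p 0 0 0 0 := fun _ => ⟨(ps_zero _ _ h).1, measurable_const⟩

variable (h : S.Nu 100) (hr : ∀ i, 0 < r i)
  (hF : ∀ s ∈ Pd r, ∀ x μ ν, ‖sF A F s x μ ν‖ ≤ S.β / 4)
include h hr hF

theorem src_fa (hβ : S.β / 2 ≤ β) :
    FA r S.p S.nf (kI S.p S.nf (S.β / 4)) fun s => sK S.p S.nf β (sF A F s) :=
  ⟨hr, fun s _ i X c U => (sK_diff (sF_diff s i) X c U).differentiableOn,
    fun s hs => sK_km h hβ (hF s hs)⟩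

/-- the family at level zero -/
theorem fi_top (hβ : S.β / 2 ≤ β) (hZ : ∀ i x, rc S.nf x ∉ Z i → F i x = 0)
    (h1 : ∀ i ∈ A, ∃ a, ∀ x μ ν, ‖F i x μ ν‖ ≤ a) (hc : Cls S.nf d A cl Z)
    (hd : (m + 2 : ℝ) * S.p.D ≤ d) (hk : ∀ a, (A.filter (cl · = a)).card ≤ c) (hρ : c ≤ m) :
    Fi S.p S.nf A Z r (2 ^ c * S.g ^ 31) (fun s => sL (sF A F s))
      (trK A fun s => sK S.p S.nf β (sF A F s)) := by
  have D1 : 1 ≤ S.p.D := by
    have : 0 < S.M := by rcases h.ok.size with e | e <;> unfold LL at e <;> omega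
    exact Nat.mul_pos (by norm_num) (Nat.pow_pos this)
  obtain ⟨b1, b2⟩ := fa_trK (src_fa h hr hF hβ) (src_loc h.ok.odd_nf hZ) (kI_up h) D1 hc hd hk
    zero_le_one (by exact_mod_cast (mul_one c).trans_le hρ) hr fun _ => (one_mul _).ge
  refine ⟨hr, funext fun s => ?_, ma_congr fun T hT => (jA_trK hT).symm, fun T hT => ?_, b1,
    one_add_one_eq_two (R := ℝ) ▸ b2⟩
  · rw [ma_congr fun T hT => jL_src hT, sF, sL_sum, lin_eq_ma]
  · rw [jL_src hT]
    split_ifs with e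
    · obtain ⟨i, rfl⟩ := card_eq_one.1 e
      obtain ⟨_, u⟩ := h1 i (singleton_subset_iff.1 hT)
      rw [sum_singleton]
      exact ⟨_, pu_of_pm (sL_sz h u)⟩
    · exact ⟨_, pu_of_pm (pm_zero h.p_ok.1.ρ0)⟩

theorem eqd_top (ht : S.TOk) (hm : S.m = v • m0) (hT : S.T = fun B => v * TW B) (hv : 2⁻¹ ≤ v)
    (f : FL r S.p fun s => sL (sF A F s)) :
    EqD r A S.nf (fun s U => wil (v * S.β) S.nf U * Complex.exp (-sO S.nf (sF A F s) U))
      fun s U => Rep S.p S.nf (S.Φ (sL (sF A F s)))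
        (trK A (fun s => sK S.p S.nf (v * S.β) (sF A F s)) s) U := by
  have β0 := h.ok.β0
  have hβ : S.β / 2 ≤ v * S.β := by nlinarith
  have o := h.p_ok.1
  have fl := f.add (h.lo_Φ ht (pm_zero o.ρ0).lo)
  simp only [Sd.Φ, Pi.zero_apply, add_zero] at fl
  exact ((rep_trK (A := A) o (Real.sqrt_nonneg _) fl (src_fa h hr hF hβ)).symm.congr
    (src_hd hr hF (by linarith)) fun s _ U hU => (init_src h hm hT _ hU).symm).symm

omit h hr hF

theorem jL_top (hi : i ∈ A) : jL {i} (fun s => sL (sF A F s)) = sL (F i) := by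
  simp [jL_src (singleton_subset_iff.2 hi)]

theorem jA_top (hi : i ∈ A) : jA {i} (trK A fun s => sK p n β (sF A F s)) = Pos.dS p n β (F i) := by
  simp only [jA_trK (singleton_subset_iff.2 hi), jA_single, sF_single hi, Pos.dS]

theorem top_zero : sL (sF A F 0) = 0 ∧
    trK A (fun s => sK p n β (sF A F s)) 0 = KI p n (ww fun _ _ _ => β) := by
  simp only [trK_zero, sF_zero, sL_zero, sK_zero, and_self]

end Pool.Agent.Lib.MP_7f377f_mp.RG.Q4.En
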