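import Pool.Agent.Lib.MP_7f377f_mp.G.SoftD
import Pool.Agent.Lib.MP_7f377f_mp.JetC
import Pool.Agent.Lib.MP_7f377f_mp.G.SmeF

/-! The short distance law from the comparison of the exponents. -/

noncomputable section

namespace Pool.Agent.Lib.MP_7f377f_mp.YM7
variable [GD]

open MeasureTheory Weak Filter Topology Real Jet Finset

variable {n n₀ : ℕ} [NeZero n] [NeZero n₀] {κ : Type} [Fintype κ] [DecidableEq κ]
  [MeasurableSpace SU2] [BorelSpace SU2] (h : Measure SU2) [h.IsHaarMeasure] [IsProbabilityMeasure h]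

theorem int_jd (b : ℝ) (F : κ → Src n) {r : κ → ℝ} {M : ℝ} {H : (κ → ℂ) → ℂ} (hH : SH r M H)
    (B : Finset κ) :
    ∫ U, jd B (fun s => Complex.exp (∑ i, s i * (-gfield (F i) U : ℝ)) * H s) ∂wilson h b n =
      jd B fun s => ma univ (mom (ex h b n) F) s * H s := by
  have cg := continuous_gfield (n := n)
  have e : ∀ U, jd B (fun s => Complex.exp (∑ i, s i * (-gfield (F i) U : ℝ)) * H s) =
      ∑ T ∈ B.powerset, (∏ i ∈ T, -gfield (F i) U : ℝ) * jd (B \ T) H := fun U =>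
    (jd_mul (sh_lin hH.pos univ _).exp hH B).trans (sum_congr rfl fun T _ => by
      rw [jd_exp_lin _ (subset_univ T), Complex.ofReal_prod])
  simp only [e]
  rw [integral_finsetSum _ fun T _ => (Integrable.ofReal (cint _
    (continuous_finsetProd T fun i _ => (cg _).neg))).mul_const _]
  exact (sum_congr rfl fun T _ => by
    rw [integral_mul_const, integral_complex_ofReal, jd_ma _ (subset_univ T)]; rfl).trans
      (jd_mul (sh_ma hH.pos univ _) hH B).symm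

/-- centred moments -/
theorem cen_jd (b : ℝ) (F : κ → Src n) : (∫ U, ∏ i, cen h b (F i) U ∂wilson h b n : ℝ) =
    (-1) ^ Fintype.card κ * jd univ fun s => ma univ (mom (ex h b n) F) s *
      Complex.exp (∑ i, s i * ex h b n (gfield (F i))) := by
  rw [← int_jd h b F (sh_lin (fun _ => one_pos) univ _).exp, ← integral_const_mul,
    ← integral_complex_ofReal]
  refine congrArg _ (funext fun U => ?_)
  simp only [← Complex.exp_add, ← sum_add_distrib, ← mul_add]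
  rw [jd_exp_lin _ Subset.rfl, ← card_univ, ← prod_const, ← prod_mul_distrib, Complex.ofReal_prod]
  exact prod_congr rfl fun i _ => by simp [cen, ex, sub_eq_neg_add]

variable {h} {b b₀ w M ρ ε X : ℝ} {F : κ → Src n} {F₀ : κ → Src n₀} {e e₀ : Finset κ → ℂ}

theorem Red.cen (hR : Red (ex h b n) F w M e) (w0 : 0 < w) (ρ0 : 0 < ρ) (hw : w ≤ ε * ρ)
    (ε1 : ε < 1) (he : ∀ T, 2 ≤ T.card → ‖e T‖ ≤ X * ρ ^ T.card) (X0 : 0 ≤ X) :
    ‖(∫ U, ∏ i, cen h b (F i) U ∂wilson h b n : ℝ) - (-1) ^ Fintype.card κ *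
      jd univ fun s => Complex.exp (ma univ (hi e) s)‖ ≤ 2 * (exp (2 ^ Fintype.card κ * X) *
        (2 ^ Fintype.card κ * (M * exp (Fintype.card κ * M)))) * (ε * ρ ^ Fintype.card κ) := by
  obtain ⟨e0, q, hq, q0, hm⟩ := hR
  have := (Eqv.mk ⟨_, sh_ma hq.pos univ (mom (ex h b n) F)⟩ ⟨_, (sh_ma hq.pos univ e).exp.mul hq⟩
    fun T hT => (jd_ma _ hT).trans (hm T)).mul (Hb.refl (A := univ) ⟨_, (sh_lin hq.pos univ
      fun i => (ex h b n (gfield (F i)) : ℂ)).exp⟩)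
  rw [cen_jd, ← mul_sub, norm_mul, norm_pow, norm_neg, norm_one, one_pow, one_mul,
    this.eq _ Subset.rfl]
  refine centre_le e0 hq q0 (fun i => ?_) w0 ρ0 hw ε1 he X0
  simp [← hm, mom, ex, integral_neg]

/-- comparison of two lattices -/
theorem cmp_pair (κ : Type) [Fintype κ] [DecidableEq κ] (M : ℝ) : ∃ C : ℝ, 0 ≤ C ∧
    ∀ {n n₀ : ℕ} [NeZero n] [NeZero n₀] {b b₀ w ρ ε γ : ℝ} {F : κ → Src n} {F₀ : κ → Src n₀}
      {e e₀ : Finset κ → ℂ}, Red (ex h b n) F w M e → Red (ex h b₀ n₀) F₀ w M e₀ → 0 < w → 0 < ρ →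
      w ≤ ε * ρ → ε < 1 → |γ| ≤ 2 → (∀ T : Finset κ, 2 ≤ T.card →
        ‖e₀ T‖ ≤ ρ ^ T.card ∧ ‖e T - γ ^ T.card * e₀ T‖ ≤ ε * ρ ^ T.card) →
      |∫ U, ∏ i, cen h b (F i) U ∂wilson h b n - γ ^ Fintype.card κ *
        ∫ U, ∏ i, cen h b₀ (F₀ i) U ∂wilson h b₀ n₀| ≤ C * (ε * ρ ^ Fintype.card κ) := by
  set k := Fintype.card κ
  refine ⟨(1 + 2 ^ k) * (2 * (exp (2 ^ k * (2 ^ k + 1)) * (2 ^ k * (|M| * exp (k * |M|))))) +
    2 * exp (2 ^ k * (2 ^ k + 1)), by positivity,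
    fun {n n₀ _ _ b b₀ w ρ ε γ F F₀ e e₀} h1 h2 w0 ρ0 hw ε1 hγ he => ?_⟩
  have ε0 : 0 < ε := pos_of_mul_pos_left (w0.trans_le hw) ρ0.le
  have g : ‖(γ : ℂ)‖ ≤ 2 := by simpa using hγ
  have gk : ∀ j ≤ k, ‖(γ : ℂ) ^ j‖ ≤ 2 ^ k := fun j hj => (norm_pow _ _).trans_le
    ((pow_le_pow_left₀ (norm_nonneg _) g _).trans (pow_le_pow_right₀ one_le_two hj))
  have a1 := h1.cen w0 ρ0 hw ε1 (X := 2 ^ k + 1) (fun T hT => by
    have := norm_add_le_of_le (norm_mul_le_of_le (gk _ (card_le_univ T)) (he T hT).1) (he T hT).2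
    rw [add_sub_cancel] at this
    exact this.trans (by rw [add_mul]; gcongr)) (by positivity)
  have a2 := h2.cen w0 ρ0 hw ε1 (X := 2 ^ k + 1) (fun T hT => (he T hT).1.trans
    (le_mul_of_one_le_left (by positivity) (le_add_of_nonneg_left (by positivity)))) (by positivity)
  have a3 := hi_cmp ρ0 ε0 ε1 g he
  have a4 := norm_add_le_of_le (norm_sub_le_of_le a1 (norm_mul_le_of_le (gk k le_rfl) a2))
    (norm_mul_le_of_le (show ‖(-1 : ℂ) ^ k‖ ≤ 1 by simp) a3)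
  rw [abs_of_nonneg h1.2.choose_spec.1.nonneg, ← Real.norm_eq_abs, ← Complex.norm_real]
  refine (congrArg _ ?_).trans_le (a4.trans_eq (by ring))
  push_cast
  ring

variable (h) in
theorem short_of2 (K : ℕ) : ∃ C : ℕ, ∀ {ι : Type} (Φ : Filter ι) (n : ι → ℕ) [∀ p, NeZero (n p)]
    (a b : ι → ℝ), Cmp2 h Φ n a b K C → Short h Φ n a b K := by
  obtain ⟨C, hC⟩ := YM5.af_core h K
  refine ⟨C, fun Φ n _ a b H k hk f hf η' hη' => ?_⟩
  obtain ⟨η, η0, D₀, D1, hD⟩ := hC k hk f (fun i => (hf.1 i).2.continuous) (fun i => (hf.1 i).1)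
    hf.2 η' hη'
  obtain ⟨M, H⟩ := H k hk f hf
  obtain ⟨C1, C0, h1⟩ := cmp_pair (h := h) (Fin k) M
  obtain ⟨η1, p1, p2⟩ := Metric.continuousAt_iff.1 ((continuous_pow k).continuousAt (x := (1 : ℝ))) η η0
  have p3 : 0 < η / (|M| * C1 + 1) := by positivity
  filter_upwards [H _ (lt_min (lt_min η0 p3) (lt_min (half_pos p1) one_pos)) D₀] with d H
  refine H.mono fun p ⟨n₀, _, a₀, b₀, γ, ρ, ε, w, c, F, F₀, e, e₀, a1, a2, a3, a4, a5, a6, a7, a8,
    a9, b1, b2, b3, b4, b5, b6, b7, b8⟩ => ?_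
  simp only [le_min_iff] at a5 a6 b7
  have b0 : 0 ≤ b₀ := (pow_nonneg (by linarith) _).trans a3
  refine hD n₀ a₀ b₀ d (γ ^ k) _ a1 a2 a3 a4 a5.1.1 ?_ ?_
  · simpa [Real.dist_eq] using (p2 (x := γ) (a6.2.1.trans_lt (half_lt_self p1))).le
  · have := h1 b1 b2 b3 b4 b5 b6 (by linarith [abs_sub_abs_le_abs_sub γ 1, abs_one (α := ℝ)]) b8
    rw [a7, a8, gcorr_eq, gcorr_eq, mul_left_comm, ← mul_sub, abs_mul]
    rw [Fintype.card_fin] at this
    calc _ ≤ b₀ ^ k * (|M| * (C1 * (ε * ρ ^ k))) := mul_le_mul_of_nonneg_left (mul_le_mul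
          (a9.trans (le_abs_self M)) this (abs_nonneg _) (abs_nonneg _)) (pow_nonneg b0 _)
      _ = |M| * C1 * (ε * (b₀ * ρ) ^ k) := by ring
      _ ≤ (|M| * C1 + 1) * (η / (|M| * C1 + 1)) := (mul_le_mul_of_nonneg_left b7.1.2
          (by positivity)).trans (mul_le_mul_of_nonneg_right (by linarith) p3.le)
      _ = η := by field_simp

end Pool.Agent.Lib.MP_7f377f_mp.YM7
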