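import Pool.Agent.Lib.MP_7f377f_mp.RGBase
import Pool.Agent.Lib.MP_7f377f_mp.G.GFix

/-! The gauge group, unitisations of matrix algebras, charts. -/

noncomputable section

set_option linter.unusedSectionVars false

namespace Pool.Agent.Lib.MP_7f377f_mp

open Finset MeasureTheory Matrix NormedSpace

/-- the data of a compact group of orthogonal matrices with simple Lie algebra -/
class GD where
  G : Type
  [grp : Group G]
  [top : TopologicalSpace G]
  [tg : IsTopologicalGroup G]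
  [cpt : CompactSpace G]
  [t2 : T2Space G]
  [sc : SecondCountableTopology G]
  n : ℕ
  d : ℕ
  d3 : 3 ≤ d
  rho : G →* Matrix (Fin n) (Fin n) ℝ
  cont : Continuous rho
  inj : Function.Injective rho
  orth : ∀ g, (rho g)ᵀ * rho g = 1
  t : ℝ
  big : 1000 * ((d : ℝ) + n + 1) ^ 2 ≤ t
  e : Fin d → Matrix (Fin n) (Fin n) ℝ
  anti : ∀ k, (e k)ᵀ = -e k
  on : ∀ k j, t ^ 2 * trace ((e k)ᵀ * e j) = if k = j then 1 else 0
  lie : ∀ X, X ∈ Submodule.span ℝ (Set.range e) ↔ ∀ s : ℝ, ∃ g, rho g = exp (s • X)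
  br_mem : ∀ k j, e k * e j - e j * e k ∈ Submodule.span ℝ (Set.range e)
  ad_mem : ∀ g k, rho g * e k * (rho g)ᵀ ∈ Submodule.span ℝ (Set.range e)
  loc : ∀ g, t * √(∑ i, ∑ j, (rho g - 1) i j ^ 2) ≤ 100 → ∃ X ∈ Submodule.span ℝ (Set.range e),
    rho g = exp X ∧ √(∑ i, ∑ j, X i j ^ 2) ≤ 2 * √(∑ i, ∑ j, (rho g - 1) i j ^ 2)
  schur : ∀ M : Matrix (Fin d) (Fin d) ℝ,
    (∀ g i j, ∑ k, ∑ l, t ^ 2 * trace ((e k)ᵀ * (rho g * e i * (rho g)ᵀ)) *
      (t ^ 2 * trace ((e l)ᵀ * (rho g * e j * (rho g)ᵀ))) * M k l = M i j) → ∃ c : ℝ, M = c • 1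
  k0 : Fin d
  tau : Fin d → Fin d
  q : Fin d → ℤ
  hh : ℝ
  hh1 : 1 ≤ hh
  tau_tau : ∀ k, tau (tau k) = k
  q_le : ∀ k, |q k| ≤ 2
  q_tau : ∀ k, q (tau k) = -q k
  tau_neu : ∀ k, q k = 0 → tau k = k
  q_k0 : q k0 = 0
  br : ∀ k, e k0 * e k - e k * e k0 = (q k / hh) • e (tau k)
  per : exp ((2 * Real.pi * hh) • e k0) = 1
  w : G
  w_k0 : rho w * e k0 * (rho w)ᵀ = -e k0
  wfix : ∀ k, q k = 0 → k ≠ k0 → rho w * e k * (rho w)ᵀ = e k
  b0_pos' : 0 < ∑ k, (q k / hh) ^ 2
  b0_le' : ∑ k, (q k / hh) ^ 2 ≤ 1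

variable [GD]

/-- the coefficient of the beta function -/
def GD.b0 : ℝ := ∑ k, (GD.q k / GD.hh) ^ 2

/-- a constant which dominates all the constants of the group -/
def GD.cG : ℝ := (10 + 2 ^ GD.d + GD.t * (2 * GD.n + 1) + GD.hh + GD.b0⁻¹) ^ 2

export GD (cG)

namespace GD

instance : Group G := grp
instance : TopologicalSpace G := top
instance : IsTopologicalGroup G := tg
instance : CompactSpace G := cpt
instance : T2Space G := t2
instance : SecondCountableTopology G := sc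

theorem rho_cont : Continuous rho := cont
theorem rho_inj : Function.Injective rho := inj
theorem rho_orth (g : G) : (rho g)ᵀ * rho g = 1 := orth g
theorem rho_orth' (g : G) : rho g * (rho g)ᵀ = 1 := mul_eq_one_comm.1 (orth g)
theorem rho_inv (g : G) : rho g⁻¹ = (rho g)ᵀ := by
  rw [← one_mul (rho g⁻¹), ← orth g, mul_assoc, ← map_mul, mul_inv_cancel, map_one, mul_one]
theorem e_on (k j : Fin d) : t ^ 2 * trace ((e k)ᵀ * e j) = if k = j then 1 else 0 := on k j
theorem b0_pos : 0 < b0 := b0_pos'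
theorem b0_le : b0 ≤ 1 := b0_le'

theorem t_ge : (1000 : ℝ) ≤ t := by
  have := big
  have h1 : (0 : ℝ) ≤ d := Nat.cast_nonneg _
  have h2 : (0 : ℝ) ≤ n := Nat.cast_nonneg _
  nlinarith

theorem t1 : 1 ≤ t := by linarith [t_ge]
theorem t_pos : 0 < t := by linarith [t_ge]
theorem hh_pos : 0 < hh := by linarith [hh1]

theorem exp_mem {X : Matrix (Fin n) (Fin n) ℝ} (h : X ∈ Submodule.span ℝ (Set.range e)) :
    ∃ g, rho g = exp X := by simpa using (lie X).1 h 1

theorem le_cG {x : ℝ} (h : x ≤ 10 + 2 ^ d + t * (2 * n + 1) + hh + b0⁻¹) : x ≤ cG ∧ (0 ≤ x → x ^ 2 ≤ cG) := by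
  have h1 : (0 : ℝ) < 2 ^ d := by positivity
  have h2 : 0 ≤ t * (2 * n + 1) := by have := t_pos; positivity
  have h3 := hh_pos
  have h4 := inv_pos.2 b0_pos
  refine ⟨?_, fun h0 => pow_le_pow_left₀ h0 h 2⟩
  rw [cG]
  nlinarith

theorem cG_aux : (0 : ℝ) < 2 ^ d ∧ t ≤ t * (2 * n + 1) ∧ 0 < t ∧ 0 < hh ∧ 0 < b0⁻¹ :=
  ⟨by positivity, le_mul_of_one_le_right t_pos.le (by linarith [Nat.cast_nonneg (α := ℝ) n]), t_pos,
    hh_pos, inv_pos.2 b0_pos⟩

theorem cG_ge : (1000000 : ℝ) ≤ cG := by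
  obtain ⟨a, b, c, d, e⟩ := cG_aux
  linarith [(le_cG (x := 1000) (by linarith [t_ge])).2 (by norm_num)]
theorem cG1 : 1 ≤ cG := by linarith [cG_ge]
theorem cG_pos : 0 < cG := by linarith [cG_ge]
theorem two_pow_le : 2 ^ d ≤ cG := by
  obtain ⟨a, b, c, d, e⟩ := cG_aux
  exact (le_cG (by linarith)).1
theorem d_le : (d : ℝ) ≤ cG := le_trans (by exact_mod_cast Nat.lt_two_pow_self.le) two_pow_le
theorem d_sq_le : (d : ℝ) ^ 2 ≤ cG := by
  obtain ⟨a, b, c, f, e⟩ := cG_aux
  have : (d : ℝ) ≤ 2 ^ d := by exact_mod_cast Nat.lt_two_pow_self.le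
  exact (le_cG (by linarith)).2 (Nat.cast_nonneg _)
theorem tn_le : t * (2 * n + 1) ≤ cG := by
  obtain ⟨a, b, c, d, e⟩ := cG_aux
  exact (le_cG (by linarith)).1
theorem n_le : (n : ℝ) ≤ cG := le_trans (by nlinarith [t1, Nat.cast_nonneg (α := ℝ) n]) tn_le
theorem t_le : t ≤ cG := cG_aux.2.1.trans tn_le
theorem t_sq_le : t ^ 2 ≤ cG := by
  obtain ⟨a, b, c, d, e⟩ := cG_aux
  exact (le_cG (by linarith)).2 c.le
theorem hh_le : hh ≤ cG := by
  obtain ⟨a, b, c, d, e⟩ := cG_aux
  exact (le_cG (by linarith)).1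
theorem hh_sq_le : hh ^ 2 ≤ cG := by
  obtain ⟨a, b, c, d, e⟩ := cG_aux
  exact (le_cG (by linarith)).2 d.le
theorem b0_inv : b0⁻¹ ≤ cG := by
  obtain ⟨a, b, c, d, e⟩ := cG_aux
  exact (le_cG (by linarith)).1

end GD

namespace RG

open scoped Matrix.Norms.Frobenius

/-- unitisation of the algebra of matrices -/
@[ext] structure Un (K : Type) where
  re : K
  m : Matrix (Fin GD.n) (Fin GD.n) K

namespace Un

variable {K : Type} [RCLike K]

instance : Zero (Un K) := ⟨⟨0, 0⟩⟩
instance : One (Un K) := ⟨⟨1, 0⟩⟩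
instance : Add (Un K) := ⟨fun p q => ⟨p.re + q.re, p.m + q.m⟩⟩
instance : Neg (Un K) := ⟨fun p => ⟨-p.re, -p.m⟩⟩
instance : Sub (Un K) := ⟨fun p q => ⟨p.re - q.re, p.m - q.m⟩⟩
instance : Mul (Un K) := ⟨fun p q => ⟨p.re * q.re, p.re • q.m + q.re • p.m + p.m * q.m⟩⟩
instance {S : Type} [SMul S K] : SMul S (Un K) := ⟨fun c p => ⟨c • p.re, c • p.m⟩⟩
instance : Star (Un K) := ⟨fun p => ⟨p.re, p.mᵀ⟩⟩

@[simp] theorem re_zero : (0 : Un K).re = 0 := rfl
@[simp] theorem m_zero : (0 : Un K).m = 0 := rfl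
@[simp] theorem re_one : (1 : Un K).re = 1 := rfl
@[simp] theorem m_one : (1 : Un K).m = 0 := rfl
@[simp] theorem re_add (p q : Un K) : (p + q).re = p.re + q.re := rfl
@[simp] theorem m_add (p q : Un K) : (p + q).m = p.m + q.m := rfl
@[simp] theorem re_neg (p : Un K) : (-p).re = -p.re := rfl
@[simp] theorem m_neg (p : Un K) : (-p).m = -p.m := rfl
@[simp] theorem re_sub (p q : Un K) : (p - q).re = p.re - q.re := rfl
@[simp] theorem m_sub (p q : Un K) : (p - q).m = p.m - q.m := rfl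
@[simp] theorem re_mul (p q : Un K) : (p * q).re = p.re * q.re := rfl
@[simp] theorem m_mul (p q : Un K) : (p * q).m = p.re • q.m + q.re • p.m + p.m * q.m := rfl
@[simp] theorem re_smul {S : Type} [SMul S K] (c : S) (p : Un K) : (c • p).re = c • p.re := rfl
@[simp] theorem m_smul {S : Type} [SMul S K] (c : S) (p : Un K) : (c • p).m = c • p.m := rfl
@[simp] theorem re_star (p : Un K) : (star p).re = p.re := rfl
@[simp] theorem m_star (p : Un K) : (star p).m = p.mᵀ := rfl

instance : AddCommGroup (Un K) :=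
  Function.Injective.addCommGroup (fun q : Un K => (q.re, q.m))
    (fun _ _ h => Un.ext (congrArg Prod.fst h) (congrArg Prod.snd h)) rfl (fun _ _ => rfl)
    (fun _ => rfl) (fun _ _ => rfl) (fun _ _ => rfl) fun _ _ => rfl

instance : Ring (Un K) where
  __ := (inferInstance : AddCommGroup (Un K))
  natCast k := ⟨k, 0⟩
  natCast_zero := by ext <;> simp
  natCast_succ k := by ext <;> simp
  intCast k := ⟨k, 0⟩
  intCast_ofNat k := Un.ext (Int.cast_natCast k) rfl
  intCast_negSucc k := Un.ext (Int.cast_negSucc k) (neg_zero).symm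
  left_distrib a b c := Un.ext (by simp [mul_add]) (by simp [mul_add, add_smul]; abel)
  right_distrib a b c := Un.ext (by simp [add_mul]) (by simp [add_mul, add_smul]; abel)
  zero_mul a := Un.ext (by simp) (by simp)
  mul_zero a := Un.ext (by simp) (by simp)
  mul_assoc a b c := Un.ext (by simp [mul_assoc])
    (by simp only [m_mul, re_mul, mul_add, add_mul, mul_assoc, smul_add, smul_smul, mul_smul_comm,
      smul_mul_assoc]; module)
  one_mul a := Un.ext (by simp) (by simp)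
  mul_one a := Un.ext (by simp) (by simp)

instance {S : Type} [Semiring S] [Module S K] : Module S (Un K) :=
  Function.Injective.module S
    ({ toFun := fun q : Un K => (q.re, q.m), map_zero' := rfl, map_add' := fun _ _ => rfl } :
      Un K →+ K × Matrix (Fin GD.n) (Fin GD.n) K)
    (fun _ _ h => Un.ext (congrArg Prod.fst h) (congrArg Prod.snd h)) fun _ _ => rfl

instance {S : Type} [CommSemiring S] [Algebra S K] : Algebra S (Un K) :=
  Algebra.ofModule (fun r x y => Un.ext (by simp) (by simp [smul_comm r]))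
    fun r x y => Un.ext (by simp) (by simp [smul_comm r])

instance : StarRing (Un K) where
  star_involutive a := Un.ext rfl (by simp)
  star_mul a b := Un.ext (by simp [mul_comm]) (by simp [add_comm])
  star_add a b := Un.ext rfl (by simp)

theorem t_ge : (1000 : ℝ) ≤ GD.t := GD.t_ge

instance {S T : Type} [SMul S T] [SMul S K] [SMul T K] [IsScalarTower S T K] :
    IsScalarTower S T (Un K) := ⟨fun a b x => Un.ext (smul_assoc a b _) (smul_assoc a b _)⟩

instance {S T : Type} [SMul S K] [SMul T K] [SMulCommClass S T K] : SMulCommClass S T (Un K) :=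
  ⟨fun a b x => Un.ext (smul_comm a b _) (smul_comm a b _)⟩

/-- scalars -/
@[coe] def coe (c : K) : Un K := ⟨c, 0⟩

instance : CoeTC K (Un K) := ⟨coe⟩

@[simp] theorem re_coe (c : K) : (c : Un K).re = c := rfl
@[simp] theorem m_coe (c : K) : (c : Un K).m = 0 := rfl

theorem star_smul {S : Type} [SMul S K] (c : S) (p : Un K) : star (c • p) = c • star p := rfl

theorem re_sum {ι : Type*} (s : Finset ι) (f : ι → Un K) : (∑ i ∈ s, f i).re = ∑ i ∈ s, (f i).re :=
  map_sum (⟨⟨re, rfl⟩, re_add⟩ : Un K →+ K) f s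

theorem m_sum {ι : Type*} (s : Finset ι) (f : ι → Un K) : (∑ i ∈ s, f i).m = ∑ i ∈ s, (f i).m :=
  map_sum (⟨⟨m, rfl⟩, m_add⟩ : Un K →+ Matrix (Fin GD.n) (Fin GD.n) K) f s

instance : FiniteDimensional K (Un K) :=
  FiniteDimensional.of_injective
    ({ toFun := fun q : Un K => (q.re, q.m), map_add' := fun _ _ => rfl, map_smul' := fun _ _ => rfl } :
      Un K →ₗ[K] K × Matrix (Fin GD.n) (Fin GD.n) K)
    fun _ _ h => Un.ext (congrArg Prod.fst h) (congrArg Prod.snd h)

instance : NormedAddCommGroup (Un K) := AddGroupNorm.toNormedAddCommGroup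
  { toFun := fun q => ‖q.re‖ + GD.t * ‖q.m‖
    map_zero' := by simp
    add_le' := fun p q => by
      have := norm_add_le p.re q.re
      have := mul_le_mul_of_nonneg_left (norm_add_le p.m q.m) (show 0 ≤ GD.t by linarith [t_ge])
      simp only [re_add, m_add]
      linarith
    neg' := fun q => by simp
    eq_zero_of_map_eq_zero' := fun q h => by
      have h1 := norm_nonneg q.re
      have h2 := norm_nonneg q.m
      have h3 := t_ge
      exact Un.ext (norm_eq_zero.mp (by nlinarith)) (norm_eq_zero.mp (by nlinarith)) }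

theorem norm_def (q : Un K) : ‖q‖ = ‖q.re‖ + GD.t * ‖q.m‖ := rfl

instance : NormedRing (Un K) where
  dist_eq := NormedAddCommGroup.dist_eq
  norm_mul_le p q := by
    have h1 : ‖p.re • q.m + q.re • p.m + p.m * q.m‖ ≤
        ‖p.re‖ * ‖q.m‖ + ‖q.re‖ * ‖p.m‖ + ‖p.m‖ * ‖q.m‖ :=
      norm_add₃_le.trans (by rw [norm_smul, norm_smul]; linarith [norm_mul_le p.m q.m])
    have h3 := t_ge
    have h4 := mul_nonneg (norm_nonneg p.m) (norm_nonneg q.m)
    simp only [norm_def, re_mul, m_mul, norm_mul]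
    nlinarith [mul_le_mul_of_nonneg_left h1 (show 0 ≤ GD.t by linarith),
      mul_nonneg (mul_nonneg (show 0 ≤ GD.t by linarith) (show 0 ≤ GD.t - 1 by linarith)) h4]

instance {S : Type} [NormedField S] [NormedAlgebra S K] : NormedAlgebra S (Un K) where
  norm_smul_le c q := by
    simp only [norm_def, re_smul, m_smul, norm_smul]
    exact le_of_eq (by ring)

instance : NormOneClass (Un K) := ⟨by simp [norm_def]⟩

instance : CompleteSpace (Un K) := FiniteDimensional.complete K (Un K)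

instance : NormedStarGroup (Un K) :=
  ⟨fun q => by simp only [norm_def, re_star, m_star, frobenius_norm_transpose, le_refl]⟩

theorem norm_eq (q : Un K) : ‖q‖ = ‖q.re‖ + GD.t * √(∑ i, ∑ j, ‖q.m i j‖ ^ 2) := by
  rw [norm_def, frobenius_norm_def, Real.sqrt_eq_rpow]
  simp only [Real.rpow_two]

end Un

abbrev Hc := Un ℂ
abbrev Hr := Un ℝ

theorem norm_Hc (q : Hc) : ‖q‖ = ‖q.re‖ + GD.t * ‖q.m‖ := rfl

theorem norm_star_Hc (q : Hc) : ‖star q‖ = ‖q‖ := norm_star q

/-- the complexified Lie algebra in an orthonormal basis, with the Euclidean norm -/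
abbrev C3 : Type := Fin GD.d → ℂ
abbrev E3 := EuclideanSpace ℝ (Fin GD.d)

instance (priority := 100000) c3R : NormedCommRing C3 :=
  { PiLp.normedAddCommGroupToPi 2 (fun _ : Fin GD.d => ℂ), (Pi.commRing : CommRing C3) with
    norm_mul_le := fun a b => by
      change ‖WithLp.toLp 2 (a * b)‖ ≤ ‖WithLp.toLp 2 a‖ * ‖WithLp.toLp 2 b‖
      refine abs_le_of_sq_le_sq' ?_ (by positivity) |>.2
      rw [mul_pow, EuclideanSpace.norm_sq_eq, EuclideanSpace.norm_sq_eq (WithLp.toLp 2 b), mul_sum]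
      refine sum_le_sum fun k _ => ?_
      rw [PiLp.toLp_apply, Pi.mul_apply, norm_mul, mul_pow]
      exact mul_le_mul_of_nonneg_right (pow_le_pow_left₀ (norm_nonneg _)
        (PiLp.norm_apply_le (WithLp.toLp 2 a) k) 2) (sq_nonneg _) }
instance (priority := 100000) : NormedRing C3 := c3R.toNormedRing
instance (priority := 100000) : SeminormedCommRing C3 := c3R.toSeminormedCommRing
instance (priority := 100000) : SeminormedRing C3 := c3R.toNormedRing.toSeminormedRing
instance (priority := 100000) : NonUnitalNormedCommRing C3 := c3R.toNonUnitalNormedCommRing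
instance (priority := 100000) : NonUnitalNormedRing C3 := c3R.toNormedRing.toNonUnitalNormedRing
instance (priority := 100000) : NonUnitalSeminormedCommRing C3 :=
  c3R.toSeminormedCommRing.toNonUnitalSeminormedCommRing
instance (priority := 100000) : NonUnitalSeminormedRing C3 :=
  c3R.toNormedRing.toNonUnitalNormedRing.toNonUnitalSeminormedRing
instance (priority := 100000) c3N : NormedAddCommGroup C3 :=
  c3R.toNormedRing.toNonUnitalNormedRing.toNormedAddCommGroup
instance (priority := 100000) : SeminormedAddCommGroup C3 := c3N.toSeminormedAddCommGroup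
instance (priority := 100000) : NormedAddGroup C3 := c3N.toNormedAddGroup
instance (priority := 100000) : SeminormedAddGroup C3 := c3N.toNormedAddGroup.toSeminormedAddGroup
instance (priority := 100000) : Norm C3 := c3N.toNorm
instance (priority := 100000) : MetricSpace C3 := c3N.toMetricSpace
instance (priority := 100000) : PseudoMetricSpace C3 := c3N.toMetricSpace.toPseudoMetricSpace
instance (priority := 100000) : Dist C3 := c3N.toMetricSpace.toPseudoMetricSpace.toDist
instance (priority := 100000) : EMetricSpace C3 := c3N.toMetricSpace.toEMetricSpace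
instance (priority := 100000) : PseudoEMetricSpace C3 :=
  c3N.toMetricSpace.toPseudoMetricSpace.toPseudoEMetricSpace
instance (priority := 100000) : EDist C3 :=
  c3N.toMetricSpace.toPseudoMetricSpace.toPseudoEMetricSpace.toEDist
instance (priority := 100000) : NormedSpace ℂ C3 :=
  PiLp.normedSpaceSeminormedAddCommGroupToPi 2 fun _ : Fin GD.d => ℂ
instance (priority := 100000) : NormedSpace ℝ C3 :=
  PiLp.normedSpaceSeminormedAddCommGroupToPi 2 fun _ : Fin GD.d => ℂ

theorem norm_C3 (b : C3) : ‖b‖ = √(∑ k, ‖b k‖ ^ 2) := EuclideanSpace.norm_eq (WithLp.toLp 2 b)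
theorem sq_C3 (b : C3) : ‖b‖ ^ 2 = ∑ k, ‖b k‖ ^ 2 := EuclideanSpace.norm_sq_eq (WithLp.toLp 2 b)
theorem norm_c3_le (b : C3) (k : Fin GD.d) : ‖b k‖ ≤ ‖b‖ := PiLp.norm_apply_le (WithLp.toLp 2 b) k

def io (b : C3) : Hc := ⟨0, ∑ k, b k • (GD.e k).map (↑)⟩

def co (q : Hc) : C3 := fun k => (GD.t : ℂ) ^ 2 * trace (((GD.e k).map (↑))ᵀ * q.m)

def dot (a b : C3) : ℂ := ∑ k, a k * b k

def ex (b : C3) : Hc := exp (io (GE.fixp fun u => u + b - co (exp (io u))))

def bq (p q : Hc) : ℂ := (GD.t : ℂ) ^ 2 * trace (p.mᵀ * q.m)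

def enq (q : Hc) : ℂ := (GD.t : ℂ) ^ 2 * trace (q.m * q.mᵀ)

def prq (q : Hc) : C3 := GE.fixp fun u => u + co (q * exp (-io u))

def pjq (q : Hc) : Hc := exp (io (prq q))

def ch (q : Hc) : C3 := q.re⁻¹ • co q

def adq (h : Hc) (b : C3) : C3 := co (h * io b * star h)

/-- the gauge group -/
def S3 : Type := GD.G

instance : Group S3 := GD.grp
instance : TopologicalSpace S3 := GD.top
instance : IsTopologicalGroup S3 := GD.tg
instance : CompactSpace S3 := GD.cpt
instance : T2Space S3 := GD.t2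
instance : SecondCountableTopology S3 := GD.sc
instance : MeasurableSpace S3 := borel _
instance : BorelSpace S3 := ⟨rfl⟩

def S3.q (g : S3) : Hr := ⟨1, GD.rho g - 1⟩

def S3.re1 (g : S3) : ℝ := 1 - GD.t ^ 2 * (GD.n - trace (GD.rho g))

def haar : Measure S3 := Measure.haarMeasure ⊤

instance : haar.IsHaarMeasure := inferInstanceAs (Measure.haarMeasure ⊤).IsHaarMeasure
instance : IsProbabilityMeasure haar := ⟨by
  have := Measure.haarMeasure_self (G := S3) (K₀ := ⊤)
  rwa [TopologicalSpace.PositiveCompacts.coe_top] at this⟩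

def cq (q : Hr) : Hc := ⟨q.re, q.m.map (↑)⟩

def cS (g : S3) : Hc := cq g.q

def cE (v : E3) : C3 := fun k => v k

end RG

end Pool.Agent.Lib.MP_7f377f_mp
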