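import Pool.Agent.Lib.MP_7f377f_mp.G.RGSmE

/-! The background field: covariance, locality and second order expansion. -/

noncomputable section

set_option linter.unusedSectionVars false
variable [Pool.Agent.Lib.MP_7f377f_mp.GD]

namespace Pool.Agent.Lib.MP_7f377f_mp.RG

open Finset

attribute [local irreducible] box lbox

variable {c R : ℕ} {τ ρ κ : ℝ}

namespace Dat

end Dat

namespace JS

variable {P δ : ℝ}

end JS

end Pool.Agent.Lib.MP_7f377f_mp.RG
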