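import Pool.Agent.Lib.MP_7f377f_mp.G.RGModel

/-! The local holomorphic functionals of one renormalisation step. -/

noncomputable section

set_option linter.unusedSectionVars false
variable [Pool.Agent.Lib.MP_7f377f_mp.GD]

namespace Pool.Agent.Lib.MP_7f377f_mp.RG

open Finset MeasureTheory Polynomial
open scoped ENNReal

abbrev Fld := Lk → C3
abbrev Cf := Lk → Hc

def reF (A : Fld) (k : Fin GD.d) : V := fun e => (A e k).re
def imF (A : Fld) (k : Fin GD.d) : V := fun e => (A e k).im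

/-- complexification of a bilinear form -/
def cx (m : BF) (A B : Fld) : ℂ :=
  ∑ k, (((m (reF A k) (reF B k) - m (imF A k) (imF B k) : ℝ) : ℂ) +
    ((m (reF A k) (imF B k) + m (imF A k) (reF B k) : ℝ) : ℂ) * Complex.I)

/-- complexification of a linear map -/
def cxL (T : V →ₗ[ℝ] V) (A : Fld) : Fld :=
  fun f k => (T (reF A k) f : ℂ) + (T (imF A k) f : ℂ) * Complex.I

def RealF (A : Fld) : Prop := ∀ e k, (A e k).im = 0

def cC (U : Conf) : Cf := fun e => cS (U e)

def exF (B : Fld) : Cf := fun e => ex (B e)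

def adF (h : St → Hc) (A : Fld) : Fld := fun e => adq (h e.1) (A e)

/-- chart coordinates in the comb gauge based at `x` -/
def Bx (x : St) (U : Cf) : Fld := fun e => ch (gauge star (cmb star (sh x U)) (sh x U) e)

/-- a holomorphic family -/
def Disc {ι F : Type} [NormedAddCommGroup F] [NormedSpace ℂ F] (Ω : Set ℂ) (γ : ℂ → ι → F) : Prop :=
  ∀ e, DifferentiableOn ℂ (fun t => γ t e) Ω

/-- small local terms of the effective action -/
structure Tm (R : ℕ) (ρ κ : ℝ) (φ : Fld → ℂ) : Prop where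
  loc : ∀ A B, (∀ x ∈ box R, ∀ μ ν, dd A x μ ν = dd B x μ ν) → φ A = φ B
  hol : ∀ Ω γ, IsOpen Ω → Disc Ω γ → (∀ t ∈ Ω, Cv R ρ (γ t)) →
    DifferentiableOn ℂ (fun t => φ (γ t)) Ω
  bd : ∀ B, Cv R ρ B → ‖φ B‖ ≤ κ
  zero : φ 0 = 0
  ad : ∀ (h : S3) B, φ (adF (fun _ => cS h) B) = φ B
  real : ∀ B, RealF B → (φ B).im = 0

/-- coefficients of the binomial series of `(1 - t)^(-1/2)` -/
def bin : ℕ → ℝ
  | 0 => 1
  | n + 1 => bin n * (2 * n + 1) / (2 * n + 2)

def pP (N : ℕ) : ℂ[X] := ∑ n ∈ range (N + 1), monomial n (bin n : ℂ)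

def pQ (N : ℕ) : ℂ[X] := ∑ n ∈ range N, monomial (n + 1) (1 / (2 * (n + 1)) : ℂ)

open Classical in
/-- truncation of the fluctuation variable -/
def zc (ζ : ℝ) (z : Lk → E3) : Fld := fun f => if ‖z f‖ ≤ ζ then cE (z f) else 0

/-- truncated Gaussian measure -/
def nu0 (ζ : ℝ) : Measure E3 :=
  (volume.restrict (Metric.closedBall 0 ζ)).withDensity
    fun v => ENNReal.ofReal (Real.exp (-(‖v‖ ^ 2 / 2)))

def nu (ζ : ℝ) : Measure E3 := (nu0 ζ Set.univ)⁻¹ • nu0 ζ

def nuI (ζ : ℝ) : Measure (Lk → E3) := Measure.infinitePi fun _ => nu ζ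

namespace Dat

end Dat

def Agr {α : Type} (R : ℕ) (U U' : Lk → α) : Prop := ∀ e ∈ lbox R, U e = U' e

/-- radius of the union of the blocks with labels in the box of radius `R` -/
def fb (l R : ℕ) : ℕ := R * LL l + l

/-- the links of the torus with `n ^ 4` blocks which are not in the trees -/
def fund (l n : ℕ) : Finset Lk :=
  (((cube n ×ˢ box l).image fun p => up l p.1 + p.2) ×ˢ univ).filter fun f => ¬ tree l f

/-- representative in the fundamental domain -/
def rp (l n : ℕ) (x : St) : St := x - up l (yo l x - fun i => yo l x i % (n : ℤ))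

/-- periodic extension, equal to `o` on the trees -/
def ext {α : Type} (l n : ℕ) (o : α) (u : fund l n → α) : Lk → α :=
  fun f => if h : (rp l n f.1, f.2) ∈ fund l n then u ⟨_, h⟩ else o

/-- effective action on the torus of side `n` -/
def act (β : ℝ) (m : BF) (φ : Fld → ℂ) (n : ℕ) (U : Conf) : ℝ :=
  ∑ x ∈ cube n, (β * cx m (Bx x (cC U)) (Bx x (cC U)) + φ (Bx x (cC U))).re

end Pool.Agent.Lib.MP_7f377f_mp.RG
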