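import Pool.Agent.Lib.MP_7f377f_mp.G.RGMeasHaar
import Pool.Agent.Lib.MP_7f377f_mp.WeakHaar

/-! Small balls, tails of the noise kernel, the product chart. -/

noncomputable section

set_option linter.unusedSectionVars false
variable [Pool.Agent.Lib.MP_7f377f_mp.GD]

namespace Pool.Agent.Lib.MP_7f377f_mp.RG

open MeasureTheory Measure Set
open scoped ENNReal

namespace Ms

theorem norm_sub_one_sq (g : S3) : ‖g.q - 1‖ ^ 2 = 2 - 2 * g.re1 := g.norm_sub_one_sq

theorem norm_sub_conj (u g : S3) : ‖(u * g * u⁻¹).q - 1‖ = ‖g.q - 1‖ := S3.norm_conj_sub u g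

theorem meas_nsub : Measurable fun g : S3 => ‖g.q - 1‖ :=
  (cont_q.sub continuous_const).norm.measurable

end Ms

open Ms

theorem haar_ball : ∃ cB : ℝ, 0 < cB ∧ ∀ δ : ℝ, 0 ≤ δ → δ ≤ 1 →
    ENNReal.ofReal (cB * δ ^ GD.d) ≤ haar {g : S3 | ‖g.q - 1‖ ≤ δ} := by
  obtain ⟨c, c0, h⟩ := haar_chart
  set b : ℝ≥0∞ := volume (Metric.ball (0 : E3) 1) with hb
  have b0 : b ≠ 0 := (Metric.measure_ball_pos _ _ one_pos).ne'
  have b1 : b ≠ ∞ := measure_ball_lt_top.ne
  refine ⟨c / 2 * 2⁻¹ ^ GD.d * b.toReal, mul_pos (by positivity) (ENNReal.toReal_pos b0 b1),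
    fun δ h0 h1 => ?_⟩
  have hS : MeasurableSet {g : S3 | ‖g.q - 1‖ ≤ δ} := measurableSet_le meas_nsub measurable_const
  have hB := (Metric.isClosed_closedBall (x := (0 : E3)) (ε := 2⁻¹ * δ)).measurableSet
  calc _ = ∫⁻ _ in Metric.closedBall (0 : E3) (2⁻¹ * δ), ENNReal.ofReal (c / 2) := by
        rw [setLIntegral_const, addHaar_closedBall _ _ (by positivity), finrank_euclideanSpace_fin,
          ← hb, ← mul_assoc, ← ENNReal.ofReal_mul (by positivity), mul_right_comm,
          ENNReal.ofReal_mul (by positivity), ENNReal.ofReal_toReal b1, mul_pow, mul_assoc (c / 2)]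
    _ ≤ ∫⁻ v in Metric.closedBall (0 : E3) (2⁻¹ * δ), ENNReal.ofReal (c * hd v) :=
        setLIntegral_mono' hB fun v hv => ENNReal.ofReal_le_ofReal (by
          nlinarith [(hd_bd (a := v) (by linarith [mem_closedBall_zero_iff.1 hv])).1])
    _ ≤ _ := by
        rw [← withDensity_apply _ hB]
        refine (measure_mono fun v hv => ?_).trans
          ((h.measure_preimage hS.nullMeasurableSet).trans_le (restrict_le_self _))
        have := mem_closedBall_zero_iff.1 hv
        exact (e0_near (by linarith)).trans (by linarith)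

namespace Ms

theorem lint_fin_prod {n : ℕ} {E : Fin n → Type} {mE : ∀ i, MeasurableSpace (E i)}
    {μ : (i : Fin n) → Measure (E i)} [∀ i, SigmaFinite (μ i)] (f : (i : Fin n) → E i → ℝ≥0∞)
    (hf : ∀ i, Measurable (f i)) :
    ∫⁻ x : (i : Fin n) → E i, ∏ i, f i (x i) ∂(Measure.pi μ) = ∏ i, ∫⁻ x, f i x ∂(μ i) := by
  induction n with
  | zero => simp
  | succ n ih =>
    rw [Fin.prod_univ_succ, ← ih _ fun i => hf _, ← lintegral_prod_mul (hf 0).aemeasurable
      (g := fun x : (i : Fin n) → E i.succ => ∏ i, f i.succ (x i))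
      (Finset.measurable_fun_prod _ fun i _ => (hf _).comp (measurable_pi_apply i)).aemeasurable,
      ((measurePreserving_piFinSuccAbove μ 0).symm).lintegral_map_equiv]
    refine lintegral_congr fun x => ?_
    rw [Fin.prod_univ_succ]
    rfl

theorem lint_pi_prod {ι : Type} [Fintype ι] {E : ι → Type} {mE : ∀ i, MeasurableSpace (E i)}
    {μ : (i : ι) → Measure (E i)} [∀ i, SigmaFinite (μ i)] (f : (i : ι) → E i → ℝ≥0∞)
    (hf : ∀ i, Measurable (f i)) :
    ∫⁻ x : (i : ι) → E i, ∏ i, f i (x i) ∂(Measure.pi μ) = ∏ i, ∫⁻ x, f i x ∂(μ i) := by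
  let e := (Fintype.equivFin ι).symm
  rw [(measurePreserving_piCongrLeft _ e).lintegral_map_equiv]
  simp_rw [← e.prod_comp, MeasurableEquiv.coe_piCongrLeft, Equiv.piCongrLeft_apply_apply]
  exact lint_fin_prod _ fun i => hf _

theorem pi_dens {ι X : Type} [Fintype ι] [MeasurableSpace X] (m : Measure X) [SigmaFinite m]
    {f : ι → X → ℝ≥0∞} (hf : ∀ e, Measurable (f e)) [∀ e, SigmaFinite (m.withDensity (f e))] :
    (Measure.pi fun e => m.withDensity (f e)) =
      (Measure.pi fun _ : ι => m).withDensity fun a => ∏ e, f e (a e) := by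
  refine Measure.pi_eq fun s hs => ?_
  rw [withDensity_apply _ (MeasurableSet.univ_pi hs), restrict_pi_pi, lint_pi_prod _ hf]
  simp only [fun e => withDensity_apply (μ := m) (f e) (hs e)]

instance haar_right : haar.IsMulRightInvariant := Weak.haar_right haar

end Ms

end Pool.Agent.Lib.MP_7f377f_mp.RG
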