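import Pool.Agent.Lib.MP_7f377f_mp.G.RGOp0
import Pool.Agent.Lib.MP_7f377f_mp.G.RGAp2

/-! Linearity and the kernel formula for the operator `top`. -/

noncomputable section

set_option linter.unusedSectionVars false
variable [Pool.Agent.Lib.MP_7f377f_mp.GD]

namespace Pool.Agent.Lib.MP_7f377f_mp.RG.Op

open Finset Polynomial

attribute [local irreducible] box lbox cube

def ioL : C3 →ₗ[ℂ] Hc where
  toFun := io
  map_add' := io_add
  map_smul' := io_smul

def coL : Hc →ₗ[ℂ] C3 where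
  toFun := co
  map_add' := co_add
  map_smul' := co_smul

def adqL (h : Hc) : C3 →ₗ[ℂ] C3 :=
  coL ∘ₗ LinearMap.mulRight ℂ (star h) ∘ₗ LinearMap.mulLeft ℂ h ∘ₗ ioL

theorem adq_adq_star {h : Hc} (hh : Uni h) (b : C3) : adq h (adq (star h) b) = b :=
  RG.adq_adq_star hh b

end Pool.Agent.Lib.MP_7f377f_mp.RG.Op
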