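import Pool.Agent.Lib.MP_7f377f_mp.G.RGOp1

/-! Locality, covariance, reality and holomorphy of `pol` and `dt`. -/

noncomputable section

set_option linter.unusedSectionVars false
variable [Pool.Agent.Lib.MP_7f377f_mp.GD]

namespace Pool.Agent.Lib.MP_7f377f_mp.RG

open Finset Polynomial

attribute [local irreducible] box lbox cube

namespace Op

theorem cC_one : cC 1 = 1 := funext fun _ => cS_one

/-- the real part of a vector -/
def reE (b : C3) : E3 := WithLp.toLp 2 fun k => (b k).re

theorem cE_reE {b : C3} (h : ∀ k, (b k).im = 0) : cE (reE b) = b := by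
  funext k
  apply Complex.ext <;> simp [cE, reE, h]

theorem cE_im (v : E3) (k : Fin GD.d) : (cE v k).im = 0 := by simp [cE]

theorem natDegree_pP (N : ℕ) : (pP N).natDegree ≤ N :=
  natDegree_sum_le_of_forall_le _ _ fun _ hi =>
    (natDegree_monomial_le _).trans (Nat.lt_succ_iff.1 (mem_range.1 hi))

theorem natDegree_pQ (N : ℕ) : (pQ N).natDegree ≤ N :=
  natDegree_sum_le_of_forall_le _ _ fun _ hi => (natDegree_monomial_le _).trans (mem_range.1 hi)

end Op

open Op

namespace Dat
variable {c R : ℕ} {τ ρ κ : ℝ}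

end Dat

end Pool.Agent.Lib.MP_7f377f_mp.RG
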