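import Pool.Agent.Lib.MP_7f377f_mp.G.RGOp3
import Pool.Agent.Lib.MP_7f377f_mp.G.RGAp3

/-! Coercivity on the torus, and the perturbation of `top` by a small background. -/

noncomputable section

set_option linter.unusedSectionVars false
variable [Pool.Agent.Lib.MP_7f377f_mp.GD]

namespace Pool.Agent.Lib.MP_7f377f_mp.RG.Op

open Finset Polynomial
open scoped InnerProductSpace

attribute [local irreducible] box lbox cube

variable {n c R : ℕ} {τ ρ κ : ℝ}

theorem cmb_near' {R : ℕ} {U : Cf} {δ : ℝ} (h0 : 0 ≤ δ) (h1 : 4 * R * δ ≤ 1)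
    (h : ∀ e ∈ lbox R, ‖U e - 1‖ ≤ δ) {x : St} (hx : x ∈ box R) :
    ‖cmb star U x - 1‖ ≤ 8 * R * δ := by
  refine (cmb_near h0 h hx).trans ?_
  have h2 : (1 + δ) ^ (4 * R) ≤ Real.exp (4 * R * δ) := by
    rw [show 4 * R * δ = (4 * R : ℕ) * δ by push_cast; ring, Real.exp_nat_mul]
    exact pow_le_pow_left₀ (by linarith) (by linarith [Real.add_one_le_exp δ]) _
  have h3 : 0 ≤ 4 * R * δ := by positivity
  have := (abs_le.1 (Real.abs_exp_sub_one_le (x := 4 * R * δ) (by rwa [abs_of_nonneg h3]))).2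
  rw [abs_of_nonneg h3] at this
  linarith

theorem nq_le (b : C3) : nq b ≤ 3 * ‖b‖ ^ 2 :=
  (Complex.re_le_norm _).trans ((norm_dot b b).trans_eq (by ring))

theorem le_nq {b : C3} (h : ∀ k, (b k).im = 0) : ‖b‖ ^ 2 ≤ nq b := by
  obtain ⟨v, rfl⟩ := exists_cE h
  rw [nq, dot_cE_self, Complex.ofReal_re]
  exact pow_le_pow_left₀ (norm_nonneg _) (norm_cE v).1 2

end Pool.Agent.Lib.MP_7f377f_mp.RG.Op
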