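import Pool.Agent.Lib.MP_7f377f_mp.G.RGSmA
import Pool.Agent.Lib.MP_7f377f_mp.G.RGAp3

/-! Induction on paths, and classes of functions closed under the algebraic operations. -/

noncomputable section

set_option linter.unusedSectionVars false
variable [Pool.Agent.Lib.MP_7f377f_mp.GD]

namespace Pool.Agent.Lib.MP_7f377f_mp.RG.JS

open Finset

attribute [local irreducible] box lbox

section paths
variable {ι α : Type} [Monoid α] {iv : α → α} {U : ι → Lk → α} {P : ℕ → (ι → α) → Prop}

theorem lnP_ind (h1 : P 0 fun _ => 1)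
    (hm : ∀ {a b f g}, P a f → P b g → P (a + b) fun i => f i * g i) {p : St} {μ : Fin 4} {n : ℕ}
    (h : ∀ k < n, P 1 fun i => U i (p + (k : ℤ) • un μ, μ)) : P n fun i => lnP (U i) p μ n := by
  induction n with
  | zero => exact h1
  | succ n ih => exact hm (ih fun k hk => h k (hk.trans n.lt_succ_self)) (h n n.lt_succ_self)

theorem lnN_ind (h1 : P 0 fun _ => 1)
    (hm : ∀ {a b f g}, P a f → P b g → P (a + b) fun i => f i * g i) {p : St} {μ : Fin 4} {n : ℕ}
    (h : ∀ k < n, P 1 fun i => iv (U i (p - ((k : ℤ) + 1) • un μ, μ))) :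
    P n fun i => lnN iv (U i) p μ n := by
  induction n with
  | zero => exact h1
  | succ n ih => exact hm (ih fun k hk => h k (hk.trans n.lt_succ_self)) (h n n.lt_succ_self)

theorem pre_mem {R : ℕ} {x : St} (hx : x ∈ box R) (μ : Fin 4) {k : ℤ} (hk : |k| ≤ R) :
    pre x μ + k • un μ ∈ box R := by
  refine Li.mem_box.2 fun i => ?_
  have := Li.mem_box.1 hx i
  rcases lt_trichotomy i μ with h | h | h
  · simpa [pre, un, h, h.ne] using this
  · simpa [pre, un, h] using hk
  · simp [pre, un, h.not_gt, h.ne']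

theorem cmb_ind (h1 : P 0 fun _ => 1)
    (hm : ∀ {a b f g}, P a f → P b g → P (a + b) fun i => f i * g i)
    (mono : ∀ {a b f}, a ≤ b → P a f → P b f) {R : ℕ}
    (h : ∀ e ∈ lbox R, P 1 (fun i => U i e) ∧ P 1 fun i => iv (U i e)) {x : St} (hx : x ∈ box R) :
    P (4 * R) fun i => cmb iv (U i) x := by
  have key : ∀ μ, P R fun i => ln iv (U i) (pre x μ) μ (x μ) := fun μ => by
    have := abs_le.1 (Li.mem_box.1 hx μ)
    refine mono (a := (x μ).toNat + (-x μ).toNat) (by omega) (hm (lnP_ind h1 hm fun k hk => ?_)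
      (lnN_ind h1 hm fun k hk => ?_))
    · exact (h _ (Li.mem_lbox.2 (pre_mem hx μ (abs_le.2 (by omega))))).1
    · rw [sub_eq_add_neg, ← neg_smul]
      exact (h _ (Li.mem_lbox.2 (pre_mem hx μ (abs_le.2 (by omega))))).2
  exact mono (by omega) (hm (hm (hm (key 0) (key 1)) (key 2)) (key 3))

end paths

theorem Uni.symm {h : Hc} (hh : Uni h) : star h * h = 1 := hh.star_mul

section gauge
variable {g : St → Hc} (hg : ∀ x, Uni (g x)) (U : Cf) (p : St) (μ : Fin 4)
include hg

theorem cancel (x : St) (q : Hc) : star (g x) * (g x * q) = q := by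
  rw [← mul_assoc, Uni.symm (hg x), one_mul]

theorem lnP_gauge (n : ℕ) :
    lnP (gauge star g U) p μ n = g p * lnP U p μ n * star (g (p + (n : ℤ) • un μ)) := by
  induction n with
  | zero => simpa [lnP] using (hg p).mul_star.symm
  | succ n ih => simp only [lnP, ih, gauge, mul_assoc, cancel hg, Nat.cast_add, Nat.cast_one,
      add_smul, one_smul, add_assoc]

end gauge

theorem Bx_eq (x : St) (U : Cf) : Bx x U = Bx 0 (sh x U) := by rw [Bx_sh, zero_add]

theorem adq_zero (h : Hc) : adq h 0 = 0 := by simp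

/-! ### closed classes of functions -/

variable {ι : Type} {P : (ι → ℂ) → Prop}

namespace Cl
end Cl

end Pool.Agent.Lib.MP_7f377f_mp.RG.JS
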