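import Pool.Agent.Lib.MP_7f377f_mp.G.RGSmB
import Pool.Agent.Lib.MP_7f377f_mp.G.RGOp2
import Pool.Agent.Lib.MP_7f377f_mp.G.RGBgA

/-! Locality, reality and gauge invariance of the small interaction. -/

noncomputable section

set_option linter.unusedSectionVars false
variable [Pool.Agent.Lib.MP_7f377f_mp.GD]

namespace Pool.Agent.Lib.MP_7f377f_mp.RG.JS

open Finset Polynomial

attribute [local irreducible] box lbox

theorem Bx_agr' {a b R : ℕ} {U U' : Cf} (h : Agr R U U') {x : St} (hx : x ∈ box b)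
    (hab : a + 1 + b ≤ R) : Agr a (Bx x U) (Bx x U') := by
  rw [Bx_eq, Bx_eq x U']
  exact Bx_agr (agr_sh h hx hab)

theorem eq_cE {b : C3} (h : ∀ k, (b k).im = 0) : ∃ v, cE v = b :=
  ⟨WithLp.toLp 2 fun k => (b k).re, funext fun k => Complex.ext rfl (h k).symm⟩

theorem exF_real {B : Fld} (h : RealF B) : ∃ U : Conf, cC U = exF B := by
  choose v hv using fun e => eq_cE (h e)
  choose g hg using ex_real
  exact ⟨fun e => g (v e), funext fun e => by rw [cC, (hg _).1, hv, exF]⟩

section gauge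
variable {c R : ℕ} {τ ρ κ : ℝ} {g : St → Hc}

theorem cut_adF (a : ℕ) (g : St → Hc) (A : Fld) : cut a (adF g A) = adF g (cut a A) := by
  funext e
  simp only [cut, adF]
  split_ifs
  · rfl
  · exact (adq_zero _).symm

end gauge

variable {c R : ℕ} {τ ρ κ : ℝ}

end Pool.Agent.Lib.MP_7f377f_mp.RG.JS
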