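import Pool.Agent.Lib.MP_7f377f_mp.G.RGSmB

/-! Second order approximations of the ingredients of the small interaction. -/

noncomputable section

set_option linter.unusedSectionVars false
variable [Pool.Agent.Lib.MP_7f377f_mp.GD]

namespace Pool.Agent.Lib.MP_7f377f_mp.RG.JS

open Finset

attribute [local irreducible] box lbox

theorem io_re (b : C3) : (io b).re = 0 := rfl

theorem norm_io (b : C3) : ‖io b‖ ≤ 3 * ‖b‖ := RG.norm_io b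

def ioL : C3 →ₗ[ℂ] Hc where
  toFun := io
  map_add' := io_add
  map_smul' := io_smul

theorem norm_dot (a b : C3) : ‖dot a b‖ ≤ 3 * (‖a‖ * ‖b‖) :=
  (RG.norm_dot a b).trans_eq (mul_assoc _ _ _)

theorem dot_diff {a b : C3} {η σ : ℝ} (h : ‖a - b‖ ≤ η) (ha : ‖a‖ ≤ σ) (hb : ‖b‖ ≤ σ) :
    ‖dot a a - dot b b‖ ≤ 6 * η * σ := by
  have : dot a a - dot b b = dot (a - b) (a + b) := by
    simp only [dot, ← sum_sub_distrib, Pi.sub_apply, Pi.add_apply]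
    exact sum_congr rfl fun k _ => by ring
  rw [this]
  refine (norm_dot _ _).trans ?_
  have := mul_le_mul h (norm_add_le_of_le ha hb) (norm_nonneg _) ((norm_nonneg _).trans h)
  linarith

theorem near_one {q : Hc} {b : C3} {δ η : ℝ} (h : ‖b‖ ≤ δ ∧ ‖q - 1 - io b‖ ≤ η) :
    ‖q - 1‖ ≤ 3 * δ + η := by
  have := norm_add_le (q - 1 - io b) (io b)
  rw [sub_add_cancel] at this
  linarith [norm_io b, h.1, h.2]

theorem mul_near {p q : Hc} {a b : ℝ} (hp : ‖p - 1‖ ≤ a) (hq : ‖q - 1‖ ≤ b) :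
    ‖p * q - 1‖ ≤ a * b + a + b := by
  have : p * q - 1 = (p - 1) * (q - 1) + (p - 1) + (q - 1) := by noncomm_ring
  rw [this]
  exact norm_add_le_of_le (norm_add_le_of_le (norm_mul_le_of_le hp hq) hp) hq

theorem mul_ap {p q : Hc} {u v : C3} {a b η η' : ℝ} (hp : ‖p - 1‖ ≤ a) (hq : ‖q - 1‖ ≤ b)
    (hu : ‖p - 1 - io u‖ ≤ η) (hv : ‖q - 1 - io v‖ ≤ η') :
    ‖p * q - 1 - io (u + v)‖ ≤ a * b + η + η' := by
  have : p * q - 1 - io (u + v) = (p - 1) * (q - 1) + (p - 1 - io u) + (q - 1 - io v) := by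
    rw [show io (u + v) = io u + io v from ioL.map_add u v]
    noncomm_ring
  rw [this]
  exact norm_add_le_of_le (norm_add_le_of_le (norm_mul_le_of_le hp hq) hu) hv

theorem star_near (q : Hc) : ‖star q - 1‖ = ‖q - 1‖ := by
  rw [← norm_star_Hc, star_sub, star_star, star_one]

theorem cmb_near {W : Cf} {ε : ℝ} (h : ∀ e, ‖W e - 1‖ ≤ ε) (h1 : ε ≤ 1) {x : St}
    (hx : x ∈ box 1) : ‖cmb star W x - 1‖ ≤ 15 * ε := by
  have ε0 : 0 ≤ ε := (norm_nonneg _).trans (h (0, 0))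
  have := cmb_ind (iv := star) (U := fun _ : Unit => W)
    (P := fun n q => ‖q () - 1‖ ≤ (1 + ε) ^ n - 1) (by simp)
    (fun a b => (mul_near a b).trans_eq (by ring))
    (fun hab a => a.trans (by gcongr; linarith))
    (fun e _ => ⟨by simpa using h e, by simpa [star_near] using h e⟩) hx
  refine this.trans ?_
  have : ε ^ 2 ≤ ε := by nlinarith
  have : ε ^ 3 ≤ ε := by nlinarith
  have : ε ^ 4 ≤ ε := by nlinarith
  rw [mul_one]
  nlinarith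

theorem cx_diff {m : BF} {r r' : ℕ} {C η σ : ℝ} (hm : Bd r r' C m) {A A' B B' : Fld}
    (hA : Sm r η (A - A')) (hB : Sm r' η (B - B')) (hA' : Sm r σ A') (hB' : Sm r' σ B) :
    ‖cx m A B - cx m A' B'‖ ≤ 24 * C * η * σ := by
  have : cx m A B - cx m A' B' = cx m (A - A') B + cx m A' (B - B') := by
    rw [cx_sub_left, cx_sub_right]; ring
  rw [this]
  exact (norm_add_le_of_le (cx_bd hm hA hB') (cx_bd hm hA' hB)).trans_eq (by ring)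

/-- `A = A' + O(δ ^ 2)` and both are `O(δ)` -/
def Cz (r : ℕ) (P δ : ℝ) (A A' : Fld) : Prop :=
  Sm r (P ^ 5 * δ ^ 2) (A - A') ∧ Sm r (2 * P ^ 3 * δ) A ∧ Sm r (2 * P ^ 3 * δ) A'

variable {P δ : ℝ}

theorem Cz.mono {r r' : ℕ} {A A' : Fld} (h : Cz r P δ A A') (hr : r' ≤ r) : Cz r' P δ A A' :=
  ⟨sm_mono h.1 hr le_rfl, sm_mono h.2.1 hr le_rfl, sm_mono h.2.2 hr le_rfl⟩

theorem Cz.cx {m : BF} {r r' : ℕ} {C : ℝ} (hm : Bd r r' C m) (hC : C ≤ P ^ 2) (hP : 10 ^ 6 ≤ P)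
    (δ0 : 0 ≤ δ) {A A' B B' : Fld} (hA : Cz r P δ A A') (hB : Cz r' P δ B B') :
    ‖cx m A B - cx m A' B'‖ ≤ P ^ 11 * δ ^ 3 := by
  have P0 : 0 ≤ P := le_trans (by norm_num) hP
  refine (cx_diff hm hA.1 hB.1 hA.2.2 hB.2.1).trans ?_
  calc _ ≤ 24 * P ^ 2 * (P ^ 5 * δ ^ 2) * (2 * P ^ 3 * δ) := by gcongr
    _ = 48 * (P ^ 10 * δ ^ 3) := by ring
    _ ≤ P * (P ^ 10 * δ ^ 3) := by gcongr; linarith
    _ = _ := by ring

theorem pow_small (hP : 10 ^ 6 ≤ P) (δ0 : 0 ≤ δ) (h : P ^ 3 * δ ≤ 1) :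
    10 ^ 6 * (P ^ 2 * δ) ≤ 1 ∧ P * δ ≤ P ^ 2 * δ ∧ δ ≤ P * δ := by
  have P1 : 1 ≤ P := le_trans (by norm_num) hP
  refine ⟨?_, by gcongr; nlinarith, by nlinarith⟩
  calc _ ≤ P * (P ^ 2 * δ) := by gcongr
    _ = P ^ 3 * δ := by ring
    _ ≤ 1 := h

theorem Bx_cz (hP : 10 ^ 6 ≤ P) (h : P ^ 3 * δ ≤ 1) {U : Cf} {b : Fld}
    (hU : ∀ e, ‖b e‖ ≤ P * δ ∧ ‖U e - 1 - io (b e)‖ ≤ P * δ ^ 2) {n : ℕ} (hn : n + 1 ≤ P) (x : St) :
    Cz n P δ (Bx x U) (cg (sh x b)) := by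
  have P1 : 1 ≤ P := le_trans (by norm_num) hP
  have δ0 : 0 ≤ δ := nonneg_of_mul_nonneg_right ((norm_nonneg _).trans (hU (0, 0)).1)
    (by linarith)
  obtain ⟨s1, s2, s3⟩ := pow_small hP δ0 h
  have n0 : (0 : ℝ) ≤ n := n.cast_nonneg
  have h1 : Sm n (P ^ 5 * δ ^ 2) (Bx x U - cg (sh x b)) := by
    rw [Bx_eq]
    refine sm_mono (Bx_ap (δ := P * δ) (η := P * δ ^ 2) (fun e _ => hU _)
      (by rw [sq, ← mul_assoc]; exact mul_le_of_le_one_right (by positivity) (by linarith)) ?_)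
      le_rfl ?_
    · calc _ ≤ 1000 * P * (P * δ) := by gcongr
        _ = 1000 * (P ^ 2 * δ) := by ring
        _ ≤ 1 := by nlinarith
    · calc _ ≤ 10 ^ 4 * (P ^ 2 * (P * δ) ^ 2 + P ^ 3 * (P * δ ^ 2)) := by
            gcongr
            exact hn.trans (le_self_pow₀ P1 (by norm_num))
        _ = 2 * 10 ^ 4 * (P ^ 4 * δ ^ 2) := by ring
        _ ≤ P * (P ^ 4 * δ ^ 2) := by gcongr; linarith
        _ = _ := by ring
  have h2 : Sm n (P ^ 3 * δ) (cg (sh x b)) := by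
    refine sm_mono (Sm_cg (cv_of_sm (δ := P * δ) fun e _ => (hU _).1)) le_rfl ?_
    calc _ ≤ 3 * P * (4 * (P * δ)) := by gcongr; linarith
      _ = 12 * (P ^ 2 * δ) := by ring
      _ ≤ P * (P ^ 2 * δ) := by gcongr; linarith
      _ = _ := by ring
  refine ⟨h1, ?_, sm_mono h2 le_rfl (by nlinarith [pow_pos (zero_lt_one.trans_le P1) 3])⟩
  have := sm_add h1 h2
  rw [sub_add_cancel] at this
  refine sm_mono this le_rfl ?_
  have : P ^ 3 * δ * (P ^ 2 * δ) ≤ P ^ 3 * δ * 1 := by gcongr; nlinarith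
  nlinarith

theorem exF_ap (hP : 10 ^ 6 ≤ P) (h : P ^ 3 * δ ≤ 1) {B : Fld} (hB : ∀ e, ‖B e‖ ≤ δ) (e : Lk) :
    ‖exF B e - 1‖ ≤ 4 * δ ∧ ‖B e‖ ≤ P * δ ∧ ‖exF B e - 1 - io (B e)‖ ≤ P * δ ^ 2 := by
  have δ0 : 0 ≤ δ := (norm_nonneg _).trans (hB e)
  obtain ⟨s1, s2, s3⟩ := pow_small hP δ0 h
  have := Ap_exF (R := 0) (b := sh e.1 B) (fun e _ => hB _) (by linarith) (0, e.2)
    (Li.mem_lbox.2 (Li.zero_mem_box 0))
  simp only [exF, sh, zero_add] at this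
  exact ⟨(near_one this).trans (by nlinarith), (hB e).trans s3,
    this.2.trans (by gcongr; linarith)⟩

theorem avg_one (l : ℕ) : ((LL l : ℂ) ^ 4)⁻¹ • ∑ _t ∈ box l, (1 : Hc) = 1 := by
  have p : (LL l : ℂ) ^ 4 ≠ 0 := pow_ne_zero _ (by exact_mod_cast (Li.LL_pos l).ne')
  rw [sum_const, Li.card_box, ← Nat.cast_smul_eq_nsmul ℂ, Nat.cast_pow, ← LL, inv_smul_smul₀ p]

end Pool.Agent.Lib.MP_7f377f_mp.RG.JS
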