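import Pool.Agent.Lib.MP_7f377f_mp.G.SbU
import Pool.Agent.Lib.MP_7f377f_mp.G.PurG

/-! Insertions which are limits of polynomials, uniformly in far insertions. -/

noncomputable section

namespace Pool.Agent.Lib.MP_7f377f_mp.Ope
variable [Pool.Agent.Lib.MP_7f377f_mp.GD]
set_option linter.unusedSectionVars false

open MeasureTheory Filter Topology Set Real YM7 Pur MvPolynomial Metric Lg St

theorem riem_le {F : R4 → ℂ} (hF : Continuous F) {L ε η : ℝ} (hL : ∀ y, F y ≠ 0 → ‖y‖ ≤ L)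
    (ε0 : 0 < ε) (ε1 : ε ≤ 1) (h : ∀ x y, dist x y ≤ 2 * ε → ‖F x - F y‖ ≤ η) :
    ‖(∫ y, F y) - ε ^ 4 * ∑' z, F (pt ε z)‖ ≤ η * volume.real (closedBall (0 : R4) (L + 2)) := by
  have m : Measurable (fl ε) :=
    measurable_pi_lambda _ fun l => Measurable.floor (Measurable.div_const (by fun_prop) _)
  have h0 : AEStronglyMeasurable (fun z => F (pt ε z)) (Measure.map (fl ε) volume) :=
    (Measurable.of_discrete).aestronglyMeasurable
  have i1 : Integrable F := hF.integrable_of_hasCompactSupport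
    (.intro (isCompact_closedBall 0 L) fun y hy => not_not.1 fun e =>
      hy (mem_closedBall_zero_iff.2 (hL y e)))
  have b : ∀ y, ‖F y - F (pt ε (fl ε y))‖ ≤ (closedBall (0 : R4) (L + 2)).indicator (fun _ => η) y :=
    fun y => by
    have e := fl_near ε0 y
    by_cases u : y ∈ closedBall (0 : R4) (L + 2)
    · rw [indicator_of_mem u]
      exact h _ _ ((dist_comm _ _).trans_le e)
    · rw [indicator_of_notMem u]
      rw [mem_closedBall_zero_iff, not_le] at u
      rw [not_not.1 fun e => (hL y e).not_gt (by linarith), not_not.1 fun e' => (hL _ e').not_gt (by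
        linarith [norm_sub_norm_le y (pt ε (fl ε y)), dist_eq_norm' (pt ε (fl ε y)) y]), sub_self,
        norm_zero]
  have hb : Integrable ((closedBall (0 : R4) (L + 2)).indicator fun _ => η) :=
    (integrable_indicator_iff measurableSet_closedBall).2
      (integrableOn_const measure_closedBall_lt_top.ne)
  have i2 : Integrable fun y => F (pt ε (fl ε y)) := by
    simpa [Function.comp_def] using i1.sub (hb.mono' (i1.1.sub ((Measurable.of_discrete
      (f := fun z => F (pt ε z))).comp m).aestronglyMeasurable) (ae_of_all _ b))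
  have e : ε ^ 4 * ∑' z, F (pt ε z) = ∫ y, F (pt ε (fl ε y)) := by
    rw [← integral_map m.aemeasurable h0, integral_countable
      ((integrable_map_measure h0 m.aemeasurable).2 i2), ← tsum_mul_left]
    refine tsum_congr fun z => ?_
    have e : fl ε ⁻¹' {z} = WithLp.ofLp ⁻¹' (univ.pi fun l => Ico (z l * ε) ((z l + 1) * ε)) := by
      ext y
      simp only [mem_preimage, mem_singleton_iff, _root_.funext_iff, fl, Int.floor_eq_iff,
        Set.mem_pi, mem_univ, true_imp_iff, mem_Ico, le_div_iff₀ ε0, div_lt_iff₀ ε0]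
    rw [Measure.real, Measure.map_apply m (measurableSet_singleton z), e,
      (PiLp.volume_preserving_ofLp (Fin 4)).measure_preimage
        (MeasurableSet.univ_pi fun _ => measurableSet_Ico).nullMeasurableSet, Real.volume_pi_Ico]
    simp [add_mul, ε0.le]
  rw [e, ← integral_sub i1 i2]
  refine (norm_integral_le_of_norm_le hb (ae_of_all _ b)).trans_eq ?_
  rw [integral_indicator_const _ measurableSet_closedBall, smul_eq_mul, mul_comm]

variable {S W : Pol →ₗ[ℂ] ℂ} {S₀ : ∀ {k : ℕ}, (Fin k → R4 → ℝ) → ℝ} {u f : R4 → ℝ}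
  {Y Z E : Pol} {O : Set R4} {R η η' d : ℝ} {Φ Ψ : Pol → ℂ} {x y : ℂ}

/-- smallness for all sufficiently far insertions -/
def Ue (S : Pol →ₗ[ℂ] ℂ) (Φ : Pol → ℂ) (Z : Pol) (η : ℝ) : Prop := ∀ᶠ R in atTop, Us S Φ Z R η

theorem Us.ue (hS : net.St S) (h : Us S Φ Z R η) (η0 : 0 ≤ η) : Ue S Φ Z η :=
  (eventually_ge_atTop R).mono fun _ e => h.mono hS e η0 le_rfl

theorem Ue.add (h : Ue S Φ Z η) (h' : Ue S Ψ Z η') : Ue S (fun Z => Φ Z + Ψ Z) Z (η + η') :=
  (h.and h').mono fun _ e => e.1.add e.2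

/-- `Φ` for `S` and the number `x` for `W` are approximated by the same polynomials -/
def Ap (S W : Pol →ₗ[ℂ] ℂ) (Z : Pol) (Φ : Pol → ℂ) (x : ℂ) : Prop := ∀ ε > 0, ∃ P ∈ net.loc univ,
  P * Z ∈ net.loc univ ∧ Ue S (fun Z => Φ Z - cv S P Z) Z ε ∧ Ue S (fun Z => Φ Z - cv S P Z) 1 ε ∧
    ‖x - cv W P Z‖ ≤ ε

theorem Ap.pol (hS : net.St S) (hY : Y ∈ net.loc O) (hZ : Z ∈ net.loc Oᶜ) :
    Ap S W Z (cv S Y) (cv W Y Z) := fun ε ε0 =>
  have e : ∀ Z, Ue S (fun Z => cv S Y Z - cv S Y Z) Z ε := fun Z => .of_forall fun R μ B hB => by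
    simpa using mul_nonneg ε0.le (nq_nn hS hB μ)
  ⟨Y, Net.adm hY, mul_adm hY hZ, e Z, e 1, by simpa using ε0.le⟩

theorem Ap.lim (h : ∀ ε > 0, ∃ Ψ y, Ap S W Z Ψ y ∧ Ue S (fun Z => Φ Z - Ψ Z) Z ε ∧
    Ue S (fun Z => Φ Z - Ψ Z) 1 ε ∧ ‖x - y‖ ≤ ε) : Ap S W Z Φ x := fun ε ε0 => by
  obtain ⟨Ψ, y, a, b1, b2, b3⟩ := h _ (half_pos ε0)
  obtain ⟨P, p1, p2, c1, c2, c3⟩ := a _ (half_pos ε0)
  refine ⟨P, p1, p2, ?_, ?_, (norm_sub_le_norm_sub_add_norm_sub _ _ _).trans (by linarith)⟩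
  · simpa only [sub_add_sub_cancel, add_halves] using b1.add c1
  · simpa only [sub_add_sub_cancel, add_halves] using b2.add c2

theorem Ap.add (h : Ap S W Z Φ x) (h' : Ap S W Z Ψ y) :
    Ap S W Z (fun Z => Φ Z + Ψ Z) (x + y) := fun ε ε0 => by
  obtain ⟨P, p1, p2, b1, b2, b3⟩ := h _ (half_pos ε0)
  obtain ⟨Q, q1, q2, c1, c2, c3⟩ := h' _ (half_pos ε0)
  refine ⟨P + Q, add_mem p1 q1, add_mul P Q Z ▸ add_mem p2 q2, ?_, ?_, ?_⟩
  · simpa only [cv_add, add_halves, add_sub_add_comm] using b1.add c1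
  · simpa only [cv_add, add_halves, add_sub_add_comm] using b2.add c2
  · simpa only [cv_add, add_halves, add_sub_add_comm] using norm_add_le_of_le b3 c3

theorem Ap.smul (hS : net.St S) (h : Ap S W Z Φ x) (c : ℂ) :
    Ap S W Z (fun Z => c * Φ Z) (c * x) := fun ε ε0 => by
  obtain ⟨P, p1, p2, b1, b2, b3⟩ := h (ε / (‖c‖ + 1)) (by positivity)
  have e : ‖c‖ * (ε / (‖c‖ + 1)) ≤ ε := by
    rw [← mul_div_assoc, div_le_iff₀ (by positivity)]
    linarith
  have e' : ∀ {Z}, Ue S (fun Z => Φ Z - cv S P Z) Z (ε / (‖c‖ + 1)) →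
      Ue S (fun Z => c * Φ Z - cv S (c • P) Z) Z ε := fun b => b.mono fun R r => by
    simpa only [cv_smul, mul_sub] using (r.smul c).mono hS le_rfl (by positivity) e
  refine ⟨c • P, Submodule.smul_mem _ _ p1, smul_mul_assoc c P Z ▸ Submodule.smul_mem _ _ p2,
    e' b1, e' b2, ?_⟩
  rw [cv_smul, ← mul_sub, norm_mul]
  exact (mul_le_mul_of_nonneg_left b3 (norm_nonneg c)).trans e

theorem Ap.sub (hS : net.St S) (h : Ap S W Z Φ x) (h' : Ap S W Z Ψ y) :
    Ap S W Z (fun Z => Φ Z - Ψ Z) (x - y) := by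
  simpa only [neg_one_mul, ← sub_eq_add_neg] using h.add (h'.smul hS (-1))

theorem Ap.sum (hS : net.St S) {I : Type} (s : Finset I) {Φ : I → Pol → ℂ} {x : I → ℂ}
    (h : ∀ i ∈ s, Ap S W Z (Φ i) (x i)) : Ap S W Z (fun Z => ∑ i ∈ s, Φ i Z) (∑ i ∈ s, x i) := by
  classical
  induction s using Finset.induction_on with
  | empty =>
    exact fun ε e => ⟨0, zero_mem _, by simp, .of_forall fun R μ B hB => by
        simpa [cv] using mul_nonneg e.le (nq_nn hS hB μ), .of_forall fun R μ B hB => by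
        simpa [cv] using mul_nonneg e.le (nq_nn hS hB μ), by simpa [cv] using e.le⟩
  | insert i s hi ih =>
    simp only [Finset.sum_insert hi]
    exact (h i (Finset.mem_insert_self _ _)).add (ih fun j hj => h j (Finset.mem_insert_of_mem hj))

theorem dom_le (hD : net.Dom S W) (w1 : W 1 = 1) (hY : Y ∈ net.loc univ)
    (h : ∀ᶠ R in atTop, ∀ B ∈ net.loc (Ot R),
      ‖S (net.Θ 0 B * Y * B)‖ ≤ η * net.nq S 0 (net.τ (dg (-R)) B)) : ‖W Y‖ ≤ η := by
  obtain ⟨R, hR⟩ := h.exists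
  obtain ⟨c, c1, c2⟩ := Complex.exists_norm_eq_mul_self (W Y)
  have := hD 0 2 ![-c • Y, (η : ℂ) • 1] ![0, dg (-R)] ![0, dg (-R)] R (Fin.forall_fin_two.2
    ⟨Submodule.smul_mem _ _ hY, Submodule.smul_mem _ _ (net.one _)⟩) fun B hB => by
      have := (Complex.re_le_norm (c * _)).trans ((norm_mul _ _).trans_le
        (mul_le_mul c1.le (hR B hB) (norm_nonneg _) zero_le_one))
      simp only [Fin.sum_univ_two, Matrix.cons_val_zero, Matrix.cons_val_one, net.τ_zero,
        mul_smul_comm, smul_mul_assoc, map_smul, smul_eq_mul, mul_one, neg_mul, Complex.add_re,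
        Complex.neg_re, Complex.re_ofReal_mul]
      rw [one_mul, Net.nq] at this
      linarith
  simp only [Fin.sum_univ_two, Matrix.cons_val_zero, Matrix.cons_val_one, map_smul, smul_eq_mul,
    neg_mul, ← c2, w1, mul_one, Complex.add_re, Complex.neg_re, Complex.ofReal_re] at this
  linarith

/-- linear relations which hold with all far insertions pass to the dominated state -/
theorem Ap.dom (hS : net.St S) (hD : net.Dom S W) (w1 : W 1 = 1) (h : Ap S W Z Φ x)
    (hE : E ∈ net.loc univ) (H : ∀ᶠ R in atTop, ∀ B ∈ net.loc (Ot R),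
      Φ (net.Θ 0 B * Z * B) = S (net.Θ 0 B * E * B) ∧ Φ (net.Θ 0 B * B) = 0)
    (hZ : Z ∈ net.loc univ) : x = W E := by
  refine eq_of_forall_dist_le fun ε ε0 => ?_
  obtain ⟨P, p1, p2, b1, b2, b3⟩ := h (ε / (2 + ‖W Z‖)) (by positivity)
  have c1 := dom_le hD w1 (Y := E - ctr S P * Z) (sub_mem hE (by
    rw [ctr_eq, sub_mul, smul_one_mul]; exact sub_mem p2 (Submodule.smul_mem _ _ hZ)))
    ((b1.and H).mono fun R e B hB => by
      have := e.1 0 B hB
      beta_reduce at this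
      rwa [(e.2 B hB).1, cv_ctr hS.one, ← map_sub, show net.Θ 0 B * E * B - ctr S P *
        (net.Θ 0 B * Z * B) = net.Θ 0 B * (E - ctr S P * Z) * B by ring] at this)
  have c2 := dom_le hD w1 (Y := ctr S P) (sub_mem p1 (C_mem _ _))
    ((b2.and H).mono fun R e B hB => by
      have := e.1 0 B hB
      beta_reduce at this
      rwa [mul_one, (e.2 B hB).2, cv_ctr hS.one, zero_sub, norm_neg, mul_left_comm,
        ← mul_assoc] at this)
  rw [← cv_C w1 (S P), cv] at b3
  rw [dist_eq_norm, show x - W E = x - (W (ctr S P * Z) - W (ctr S P) * W Z) -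
    W (E - ctr S P * Z) - W (ctr S P) * W Z by rw [map_sub]; ring]
  refine (norm_sub_le_of_le (norm_sub_le_of_le b3 c1) ((norm_mul _ _).trans_le
    (mul_le_mul_of_nonneg_right c2 (norm_nonneg _)))).trans_eq ?_
  field_simp
  ring

variable (hI : Inp S) (hl : ∀ {k} {f : Fin k → R4 → ℝ}, Adm f → S (mon f) = S₀ f) (hA : ArrS S₀)
include hI hl hA

theorem qb_tau (hY : Y ∈ net.loc O) (hZ : Z ∈ net.loc Oᶜ) (η0 : 0 < η) :
    ∀ᶠ p : ℝ × R4 in atTop ×ˢ 𝓝 0, net.QB S (net.τ p.2 Y * Z - Y * Z) p.1 η := by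
  obtain ⟨m, c, k, f, f1, f2, rfl⟩ := PN.exists_sum hY
  obtain ⟨m', c', k', g, g1, g2, rfl⟩ := PN.exists_sum hZ
  obtain ⟨ε, ε0, hε⟩ : ∃ ε > 0, ∑ a, ∑ b, ‖c a * c' b‖ * ε ≤ η := by
    refine ⟨η / (∑ a, ∑ b, ‖c a * c' b‖ + 1), by positivity, ?_⟩
    simp only [← Finset.sum_mul]
    rw [← mul_div_assoc, div_le_iff₀ (by positivity)]
    linarith
  have key : ∀ a b, ∀ᶠ p : ℝ × R4 in atTop ×ˢ 𝓝 0,
      net.QB S (net.τ p.2 (mon (f a)) * mon (g b) - mon (f a) * mon (g b)) p.1 ε := fun a b => by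
    have h1 : Tendsto (fun v : R4 => (Fin.append (fun _ => v) (fun _ => 0) : Fin (k a + k' b) → R4))
        (𝓝 0) (𝓝 0) := tendsto_pi_nhds.2 fun i => by
      induction i using Fin.addCases with
      | left i => simp only [Fin.append_left, Pi.zero_apply]; exact tendsto_id
      | right i => simpa only [Fin.append_right, Pi.zero_apply] using tendsto_const_nhds
    obtain ⟨R, hR⟩ := qb_shift hI.st hl hI.lin hA
      ((f1 a).append (g1 b) fun i j => disjoint_compl_right.mono (f2 a i) (g2 b j)) ε0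
    filter_upwards [(eventually_ge_atTop R).prod_mk (h1.eventually hR)] with p e
    rw [τ_mon, ← mon_append, ← mon_append]
    convert e.2.mono hI.st e.1 le_rfl using 3
    funext i y
    induction i using Fin.addCases with
    | left i => simp only [Fin.append_left]
    | right i => simp only [Fin.append_right, sub_zero]
  filter_upwards [eventually_all.2 fun a => eventually_all.2 (key a),
    (eventually_ge_atTop 0).prod_inl _] with p e R0
  simp only [map_sum, map_smul, Finset.sum_mul_sum, smul_mul_smul_comm, ← Finset.sum_sub_distrib,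
    ← smul_sub]
  exact (Net.QB.sum hI.st _ R0 fun a _ => Net.QB.sum hI.st _ R0 fun b _ => (e a b).smul _).mono
    hI.st le_rfl hε

theorem qb_unif (a : Sm d f Z) (hu : Pb u) (η0 : 0 < η) : ∃ δ > 0, ∀ᶠ R in atTop, ∀ x y,
    dist x y ≤ δ → net.QB S ((f x : ℂ) • (ctr S (pr u d x) * Z) -
      (f y : ℂ) • (ctr S (pr u d y) * Z)) R η := by
  obtain ⟨G, hG⟩ : ∃ G : R4 → Pol, ∀ x, G x = (f x : ℂ) • (ctr S (pr u d x) * Z) :=
    ⟨_, fun _ => rfl⟩
  simp only [← hG]
  have h1 : ∀ z ∈ tsupport f, ∀ᶠ p : ℝ × R4 in atTop ×ˢ 𝓝 z,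
      net.QB S (G p.2 - G z) p.1 (η / 2) := fun z hz => by
    have m := a.pr hu hz
    obtain ⟨R, c, hc⟩ := hI.all _ (mul_adm (sub_mem m (C_mem _ (S (pr u d z)))) a.2.2)
    have t := (adm_one.1 a.2.1).2.continuous.tendsto z
    filter_upwards [(tendsto_id.prodMap (tendsto_sub_nhds_zero_iff.2 tendsto_id)).eventually
      (qb_tau hI hl hA m a.2.2 (show 0 < η / 4 / (|f z| + 1) by positivity)),
      (eventually_ge_atTop R).prod_mk ((((t.sub_const (f z)).abs.mul_const c).eventually_le_const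
        (u := η / 4) (by simpa using η0)).and (t.abs.eventually_le_const (lt_add_one _)))]
      with p e1 e2
    simp only [Prod.map_snd, Prod.map_fst, id, pr_tau, add_sub_cancel] at e1
    have e3 : S (pr u d p.2) = S (pr u d z) := by
      rw [← hI.st.ti (p.2 - z) (Net.adm m), pr_tau, add_sub_cancel]
    have := (e1.smul (f p.2)).add hI.st ((hc.mono hI.st e2.1 le_rfl).smul (f p.2 - f z : ℝ))
    rw [Complex.norm_real, Complex.norm_real, norm_eq_abs, norm_eq_abs] at this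
    refine (show G p.2 - G z = _ from ?_) ▸ this.mono hI.st le_rfl ?_
    · simp only [hG, ctr, e3, Complex.ofReal_sub, smul_eq_C_mul, map_sub]
      ring
    · have := mul_le_mul_of_nonneg_right e2.2.2 (show 0 ≤ η / 4 / (|f z| + 1) by positivity)
      rw [mul_div_cancel₀ _ (by positivity)] at this
      linarith [e2.2.1]
  have h2 := (adm_one.1 a.2.1).1.isCompact.mem_prod_nhdsSet_of_forall
    (l := atTop ×ˢ 𝓝 (0 : R4)) (s := {p | net.QB S (G (p.2 + p.1.2) - G p.2) p.1.1 η})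
    fun z hz => by
      have t1 : Tendsto (fun p : (ℝ × R4) × R4 => (p.1.1, p.2 + p.1.2)) ((atTop ×ˢ 𝓝 0) ×ˢ 𝓝 z)
          (atTop ×ˢ 𝓝 z) := (tendsto_fst.comp tendsto_fst).prodMk (by
        simpa using tendsto_snd.add (tendsto_snd.comp (tendsto_fst (f := atTop ×ˢ 𝓝 (0 : R4)))))
      filter_upwards [t1.eventually (h1 z hz),
        ((tendsto_fst.comp tendsto_fst).prodMk tendsto_snd).eventually (h1 z hz)] with p e1 e2
      simpa using e1.add hI.st (e2.smul (-1))
  obtain ⟨t, ht, s, hs, h3⟩ := mem_prod_iff.1 h2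
  obtain ⟨t1, h4, t2, h5, h6⟩ := mem_prod_iff.1 ht
  obtain ⟨δ, δ0, h7⟩ := nhds_basis_closedBall.mem_iff.1 h5
  refine ⟨δ, δ0, ?_⟩
  filter_upwards [h4, eventually_ge_atTop 0] with R e R0 x y hxy
  have h8 : ∀ x, ∀ y ∈ tsupport f, dist x y ≤ δ → net.QB S (G x - G y) R η := fun x y hy h => by
    simpa using h3 (mk_mem_prod (h6 (mk_mem_prod e (h7 (show x - y ∈ _ by
      rwa [mem_closedBall_zero_iff, ← dist_eq_norm])))) (subset_of_mem_nhdsSet hs hy))
  by_cases hy : y ∈ tsupport f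
  · exact h8 x y hy hxy
  by_cases hx : x ∈ tsupport f
  · simpa using (h8 y x hx ((dist_comm _ _).trans_le hxy)).smul (-1)
  · simpa [hG, image_eq_zero_of_notMem_tsupport hx, image_eq_zero_of_notMem_tsupport hy] using
      (Net.QB.zero R0).mono hI.st le_rfl η0.le

theorem ue_riem (a : Sm d f Z) (hu : Pb u) (η0 : 0 < η) : ∀ᶠ e in atTop,
    Ue S (fun Z => Ai S u d f Z - cv S (Yr u d e f) Z) Z η := by
  obtain ⟨L, hL⟩ := (adm_one.1 a.2.1).1.isCompact.isBounded.exists_norm_le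
  obtain ⟨V, hV⟩ : ∃ V, V = volume.real (closedBall (0 : R4) (L + 2)) := ⟨_, rfl⟩
  have V0 : 0 ≤ V := hV ▸ measureReal_nonneg
  have d0 := a.1
  obtain ⟨δ, δ0, h⟩ := qb_unif hI hl hA a hu (show 0 < η * d ^ 4 / (V + 1) by positivity)
  filter_upwards [(tendsto_inv_atTop_zero.comp (tendsto_pow_atTop_atTop_of_one_lt
    (show (1 : ℝ) < 3 by norm_num))).eventually_le_const (half_pos δ0)]
    with e (he : ((3 : ℝ) ^ e)⁻¹ ≤ _)
  filter_upwards [h, a.far] with R h1 h2 μ B hB
  have b := h2 μ B hB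
  have := riem_le (b.cont hI hu) (L := L) (ε := (3 ^ e)⁻¹) (fun y hy => hL y (subset_tsupport _
    fun e => hy (by simp [e]))) (by positivity) (inv_le_one_of_one_le₀ (one_le_pow₀ (by norm_num)))
    fun x y hxy => by
      have := qb_sand hI.st (h1 x y (by linarith)) μ B hB
      rwa [mul_sub, sub_mul, map_sub, mul_smul_comm, mul_smul_comm, smul_mul_assoc, smul_mul_assoc,
        map_smul, map_smul, mul_left_comm, mul_left_comm (net.Θ μ B), mul_assoc (ctr _ _),
        mul_assoc (ctr _ _), ← cv_ctr hI.st.one, ← cv_ctr hI.st.one] at this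
  have n0 := nq_nn hI.st hB μ
  refine le_trans (le_of_eq ?_) ((mul_le_mul_of_nonneg_left this
    (show 0 ≤ (d ^ 4)⁻¹ by positivity)).trans ?_)
  · beta_reduce
    rw [← norm_of_nonneg (show 0 ≤ (d ^ 4)⁻¹ by positivity), ← Complex.norm_real, ← norm_mul,
      mul_sub, Yr_eq a.2.1, cv_sum, tsum_eq_sum (s := (fin_gp a.2.1 e).toFinset) fun x hx => by
        have : f (gp e x) = 0 := not_not.1 fun e => hx ((Finite.mem_toFinset _).2 e)
        exact mul_eq_zero_of_left (Complex.ofReal_eq_zero.2 this) _]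
    simp only [Finset.mul_sum, cv_smul]
    congr 2
    refine Finset.sum_congr rfl fun x _ => ?_
    change _ = _ * (_ * ((f (gp e x) : ℂ) * cv S (pr u d (gp e x)) _))
    push_cast
    ring
  · rw [← hV, show (d ^ 4)⁻¹ * (η * d ^ 4 / (V + 1) * net.nq S μ (net.τ (dg (-R)) B) * V) =
      η * net.nq S μ (net.τ (dg (-R)) B) * (V / (V + 1)) by field_simp]
    exact mul_le_of_le_one_right (by positivity) (div_le_one_of_le₀ (by linarith) (by positivity))

theorem ap_Ai (hW : Inp W) (a : Sm d f Z) (hu : Pb u) : Ap S W Z (Ai S u d f) (Ai W u d f Z) :=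
  .lim fun ε ε0 => by
    obtain ⟨e, e1, e2, e3⟩ := ((ue_riem hI hl hA a hu ε0).and ((ue_riem hI hl hA (Z := 1)
      ⟨a.1, a.2.1, net.one _⟩ hu ε0).and (Metric.tendsto_nhds.1 (a.riem hW hu) ε ε0))).exists
    exact ⟨_, _, .pol hI.st (a.Yr hu e) a.2.2, e1, e2, by rw [← dist_eq_norm']; exact e3.le⟩

end Pool.Agent.Lib.MP_7f377f_mp.Ope
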