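import Pool.Agent.Lib.MP_7f377f_mp.G.SbW
import Pool.Agent.Lib.MP_7f377f_mp.G.SbX
import Pool.Agent.Lib.MP_7f377f_mp.G.CaDef

/-! The tensor field in the product of two fields. -/

noncomputable section

namespace Pool.Agent.Lib.MP_7f377f_mp.Ope
variable [Pool.Agent.Lib.MP_7f377f_mp.GD]
set_option linter.unusedSectionVars false

open MeasureTheory Filter Topology Set Real YM7 Pur MvPolynomial Metric Lg

/-- a permutation with prescribed values at `0` and `1` -/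
def sg (μ ν : Fin 4) : Equiv.Perm (Fin 4) := .swap 0 μ * .swap 1 (Equiv.swap 0 μ ν)

theorem sg_eq : ∀ {μ ν : Fin 4}, μ ≠ ν → sg μ ν 0 = μ ∧ sg μ ν 1 = ν := by decide

variable {S W : Pol →ₗ[ℂ] ℂ} {h h₀ f f' : R4 → ℝ} {Z : Pol} {a R η d : ℝ} {D M N c : ℝ → ℝ}
  {κ : (R4 → ℝ) → ℝ} {F : Fr} {k : ℕ} {g : Fin k → R4 → ℝ} {n : R4} {r : Ro.Iso}
  {B : Fin 4 → Fin 4 → ℂ} {μ ν : Fin 4} {Φ Ψ : Pol → ℂ} {x : ℂ}

theorem qf_prm (σ : Equiv.Perm (Fin 4)) :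
    (fun n => qf B (Ro.prm σ n)) = qf fun i j => B (σ i) (σ j) := funext fun n => by
  simp only [qf, Ro.prm_apply]
  rw [← Equiv.sum_comp σ]
  exact Finset.sum_congr rfl fun i _ => by rw [← Equiv.sum_comp σ]; simp only [σ.symm_apply_apply]

theorem ent_d (tr : ∑ μ, B μ μ = 0) (μ : Fin 4) :
    B μ μ = 8⁻¹ * ∑ ν ∈ .univ \ {μ}, t3 0 fun n => qf B (Ro.prm (sg μ ν) n) := by
  rw [Finset.sum_congr rfl (g := fun ν => 2 * (B μ μ - B ν ν)) fun ν e => by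
    have := sg_eq (Finset.notMem_singleton.1 (Finset.mem_sdiff.1 e).2).symm
    simp [qf_prm, t3_qf, this], Finset.sum_sdiff_eq_sub (Finset.subset_univ _)]
  simp only [Fin.sum_univ_four, Finset.sum_singleton] at tr ⊢
  linear_combination tr / 4

theorem ent_o (sy : B ν μ = B μ ν) (e : μ ≠ ν) :
    B μ ν = 4⁻¹ * t6 (π / 4) fun n => qf B (Ro.prm (sg μ ν) n) := by
  rw [qf_prm, t6_qf, show 2 * (π / 4) = π / 2 by ring, sin_pi_div_two, (sg_eq e).1, (sg_eq e).2, sy]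
  push_cast
  ring

theorem qf_neg (n : R4) : qf B (-n) = qf B n := by simp [qf]

theorem qf_lin (x y : ℂ) (B' : Fin 4 → Fin 4 → ℂ) (n : R4) :
    qf (fun μ ν => x * (y * B μ ν) - B' μ ν) n = x * (y * qf B n) - qf B' n := by
  simp only [qf, mul_sub, Finset.sum_sub_distrib, Finset.mul_sum, mul_left_comm]

theorem ent {ι : Type} {l : Filter ι} {B : ι → Fin 4 → Fin 4 → ℂ} (sy : ∀ p μ ν, B p μ ν = B p ν μ)
    (tr : ∀ᶠ p in l, ∑ μ, B p μ μ = 0)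
    (h : ∀ r : Ro.Iso, Tendsto (fun p => t3 0 fun n => qf (B p) (r n)) l (𝓝 0)) (μ ν : Fin 4) :
    Tendsto (B · μ ν) l (𝓝 0) := by
  by_cases e : μ = ν
  · subst e
    exact (((tendsto_finsetSum (.univ \ {μ}) fun ν _ => h (Ro.prm (sg μ ν))).const_mul 8⁻¹).congr'
      (tr.mono fun p e => (ent_d e μ).symm)).trans_eq (by simp)
  · exact (((h (Ro.prm (sg μ ν) * Ro.rot 0 (π / 4))).const_mul 4⁻¹).congr fun p => by
      rw [ent_o (sy p ν μ) e, t6_eq fun n => by rw [map_neg, qf_neg]]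
      rfl).trans_eq (by simp)

theorem Th_sym (hh : Rd h) (μ ν : Fin 4) : Th W h M μ ν f Z = Th W h M ν μ f Z := by
  rw [Th, Th, pl, pl, add_comm, ← neg_sub (ee μ), hq, hq, hq, norm_neg, smul_neg, qq_neg hh]

theorem Us.prm (hi : ∀ r, Ro.Inv S r) (σ : Equiv.Perm (Fin 4))
    (h : Us S Φ (Ro.act (Ro.prm σ).symm Z) R η) :
    Us S (fun Z => Φ (Ro.act (Ro.prm σ).symm Z)) Z R η := fun μ B hB => by
  have p : ∀ y l, (Ro.prm σ).symm y l = y (σ l) := fun y l => by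
    conv_rhs => rw [← (Ro.prm σ).apply_symm_apply y, Ro.prm_apply, σ.symm_apply_apply]
  have e := Ro.Θ_act (μ := σ.symm μ) (ν := μ) (g := (Ro.prm σ).symm) (g' := (Ro.prm σ).symm)
    fun y => by
      ext l
      by_cases e : l = σ.symm μ
      · rw [e, rf_self, p, p, σ.apply_symm_apply, rf_self]
      · rw [rf_ne e, p, p, rf_ne fun e' => e (σ.eq_symm_apply.2 e')]
  have b : net.τ (dg (-R)) B ∈ net.loc (Hs μ 0) :=
    Net.τ_hs (net.mono hB (Ot.hs μ le_rfl)) (by simp)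
  have := h (σ.symm μ) _ (net.mono (Ro.act_mem (Ro.prm σ).symm hB) fun y hy l => by
    simpa [Ro.prm_apply] using hy (σ l))
  rwa [e, ← map_mul, ← map_mul, show dg (-R) = (Ro.prm σ).symm (dg (-R)) by ext l; rw [p]; rfl,
    ← Ro.act_τ, Net.nq, e, ← map_mul, hi _ _ (Net.rp_adm b b)] at this

theorem Ue.congr (h : Ue S Φ Z η) (b : Sm d f Z) (e : ∀ Z, Sm d f Z → Ψ Z = Φ Z) : Ue S Ψ Z η :=
  (h.and b.far).mono fun _ r μ B hB => (e _ (r.2 μ B hB)).symm ▸ r.1 μ B hB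

theorem Ap.congr (hS : net.St S) (h : Ap S W Z Ψ x) (b : Dt f Z) (e : ∀ Z, Dt f Z → Φ Z = Ψ Z) :
    Ap S W Z Φ x := .lim fun ε ε0 =>
  have u : ∀ {Z}, Dt f Z → Ue S (fun Z => Φ Z - Ψ Z) Z ε := fun b =>
    let ⟨_, b⟩ := b.sm.exists
    Ue.congr (Φ := fun _ => 0) (.of_forall fun R μ B hB => by
      simpa using mul_nonneg ε0.le (nq_nn hS hB μ)) b fun Z b => sub_eq_zero.2 (e Z b.dt)
  ⟨_, _, h, u b, u b.one, by simpa using ε0.le⟩

theorem div_mm {y : ℂ} (e : a ≠ 0) : y / a * (a * x) = y * x := by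
  rw [div_mul_eq_mul_div, mul_left_comm, mul_div_cancel_left₀ _ (Complex.ofReal_ne_zero.2 e)]

variable (H : BIn S h₀ D κ F a) (C : Cau S D M (A3 h₀ 0))
include H C

theorem BIn.quad (hW : Sub S W) (b : Dt f Z) (n1 : ‖n‖ = 1) :
    qf (Th W h₀ M · · f Z) n = qq W h₀ M f Z n := ((H.circ C hW b).quad n1).symm

theorem BIn.tr (hW : Sub S W) (b : Dt f Z) : ∑ μ, Th W h₀ M μ μ f Z = 0 := by
  rw [← t1_qf (Th W h₀ M · · f Z), ← H.frame C hW b PI.dt_one]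
  exact Finset.sum_congr rfl fun μ _ => H.quad C hW b (norm_ee μ)

theorem BIn.quad3 (hW : Sub S W) (b : Dt f Z) (r : Ro.Iso) (θ : ℝ) :
    (t3 θ fun n => qf (Th W h₀ M · · f Z) (r n)) = (t3 θ fun n => qq W h₀ M f Z (r n)) ∧
    (t6 θ fun n => qf (Th W h₀ M · · f Z) (r n)) = t6 θ fun n => qq W h₀ M f Z (r n) := by
  simp only [t3, t6, H.quad C hW b ((r.norm_map _).trans (norm_nt _)), and_self]

theorem BIn.tsT (hk : k ≤ 2) (μ ν : Fin 4) (b : Adm (Fin.cons f g : Fin (k + 1) → _)) :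
    Tendsto (fun d => ((log d⁻¹ ^ (k + 2) / M d : ℝ) : ℂ) * ((κ h₀ : ℂ)⁻¹ *
      Th S h₀ M μ ν (sc (D d) f) (mon fun i => sc (D d) (g i)))) (𝓝[>] 0) (𝓝 (F k μ ν f g)) := by
  have k0 : (κ h₀ : ℂ) ≠ 0 := Complex.ofReal_ne_zero.2 H.ts.ne
  refine tendsto_sub_nhds_zero_iff.1 (ent (B := fun d μ ν => ((log d⁻¹ ^ (k + 2) / M d : ℝ) : ℂ) *
    ((κ h₀ : ℂ)⁻¹ * Th S h₀ M μ ν (sc (D d) f) (mon fun i => sc (D d) (g i))) - F k μ ν f g)
    (fun d μ ν => by rw [Th_sym H.ts.rd, H.ts.sym]) (H.pos'.mono fun d e => ?_) (fun r => ?_) μ ν)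
  · rw [Finset.sum_sub_distrib, ← Finset.mul_sum, ← Finset.mul_sum,
      H.tr C H.sub (dt_of (adm_sc b e)), ← Complex.ofReal_sum, H.ts.tr]
    simp
  have t := (t3_lim (c := fun p : ℝ × ℝ => ((log p.1⁻¹ ^ (k + 2) : ℝ) : ℂ)) (G := fun p n => Ai S (hn h₀ (r n)) p.2 (sc (D p.1) f)
    (mon fun i => sc (D p.1) (g i))) (G₀ := fun n => qf (F k · · f g) (r n))
    (fun n n1 => H.tsn hk H.ts.rd b (r n) ((r.norm_map n).trans n1)) 0).1.comp fp_diag
  have t' := (((C.s k hk _ _ (adm_rot b r.symm)).add t).sub_const (κ h₀ * t3 0 fun n =>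
    qf (F k · · f g) (r n))).const_mul (κ h₀ : ℂ)⁻¹
  rw [zero_add, sub_self, mul_zero] at t'
  refine t'.congr' ?_
  filter_upwards [H.pos', fp_diag.eventually (H.sm b)] with d e1 e2
  have b' := dt_of (adm_sc b e1)
  have e3 := tendsto_nhds_unique_of_eventuallyEq (C.w S H.sub _ _ (b'.rot r))
    (H.lim C H.sub b' r 0).1 ((rot_ev (H.inv _) H.ts.rd b').mono fun d e =>
      congrArg ((M d : ℂ) * ·) (e.1 0))
  rw [← (H.quad3 C H.sub b' r 0).1] at e3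
  have e4 := fun μ => e2.rot' (r := r) H.ts.rd (H.inv _) (norm_ee μ)
  rw [Ro.act_mon, funext fun i => sc_act r.symm (D d) (g i)] at e3 e4
  simp only [sd, A3, t3_zero, Function.comp, qf_lin, LinearIsometryEquiv.symm_symm,
    show ∀ u, (fun y => sc (D d) u (r y)) = sc (D d) fun y => u (r y) from sc_act r.symm _]
    at e3 e4 ⊢
  rw [e3, e4, e4]
  field_simp
  ring

theorem BIn.ap {t : (R4 → ℂ) → ℂ} (ht : t = t3 0 ∨ t = t6 (π / 4))
    (C' : Cau S D N fun W d f Z => t fun n => Ai W (hn h₀ n) d f Z) {ρ : ℂ}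
    (hρ : Tendsto (fun d => (N d : ℂ) / M d) (𝓝[>] 0) (𝓝 ρ)) (ρ0 : ρ ≠ 0) (σ : Equiv.Perm (Fin 4))
    (hW : Sub S W) (b : Dt f Z) :
    Ap S W Z (fun Z => t fun n => qf (Th S h₀ M · · f Z) (Ro.prm σ n))
      (t fun n => qf (Th W h₀ M · · f Z) (Ro.prm σ n)) := by
  have l : ∀ {W Z}, Sub S W → Dt f Z → Tendsto (fun d => N d * t fun n =>
      Ai W (hn h₀ (Ro.prm σ n)) d f Z) (𝓝[>] 0)
      (𝓝 (ρ * t fun n => qf (Th W h₀ M · · f Z) (Ro.prm σ n))) := fun hW b => by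
    have q := H.quad3 C hW b (Ro.prm σ)
    rcases ht with rfl | rfl
    · exact (q 0).1 ▸ (hρ.mul (H.lim C hW b _ _).1).congr' (C.ne.mono fun d => div_mm)
    · exact (q _).2 ▸ (hρ.mul (H.lim C hW b _ _).2).congr' (C.ne.mono fun d => div_mm)
  have r : ∀ {d Z}, Sm d f Z → (t fun n => Ai S (hn h₀ n) d (fun y => f (Ro.prm σ y))
      (Ro.act (Ro.prm σ).symm Z)) = t fun n => Ai S (hn h₀ (Ro.prm σ n)) d f Z := fun e => by
    rcases ht with rfl | rfl <;> simp only [t3, t6, e.rot' H.ts.rd (H.inv _) (norm_nt _)]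
  have u : ∀ {Z}, Dt f Z → ∀ ε > 0, ∀ᶠ d in 𝓝[>] (0 : ℝ), Ue S (fun Z => (ρ * t fun n =>
      qf (Th S h₀ M · · f Z) (Ro.prm σ n)) - N d * t fun n => Ai S (hn h₀ (Ro.prm σ n)) d f Z) Z ε :=
    fun b ε ε0 => by
    filter_upwards [C'.u _ _ (b.rot (Ro.prm σ)) ε ε0, b.sm] with d ⟨R, e⟩ e'
    refine ((e.prm H.inv σ).ue H.inp.st ε0.le).congr e' fun Z e => ?_
    rw [r e, tendsto_nhds_unique_of_eventuallyEq (C'.w S H.sub _ _ (e.dt.rot _)) (l H.sub e.dt)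
      (e.dt.sm.mono fun d e => congrArg ((N d : ℂ) * ·) (r e))]
  obtain ⟨S₀, s1, s2⟩ := H.arr
  have := (Ap.lim (W := W) (x := ρ * t fun n => qf (Th W h₀ M · · f Z) (Ro.prm σ n)) fun ε ε0 => by
    obtain ⟨d, e1, e2, e3, e4⟩ := ((u b ε ε0).and ((u b.one ε ε0).and (b.sm.and
      (Metric.tendsto_nhds.1 (l hW b) ε ε0)))).exists
    have G := fun θ => ap_Ai H.inp s1 s2 (H.inp.dom hW.dom hW.one) e3
      (H.ts.rd.pb (((Ro.prm σ).norm_map _).trans (norm_nt θ)))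
    refine ⟨_, _, Ap.smul H.inp.st ?_ _, e1, e2, by rw [← dist_eq_norm']; exact e4.le⟩
    rcases ht with rfl | rfl
    · exact (((G _).add (G _)).sub H.inp.st (G _)).sub H.inp.st (G _)
    · exact (((G _).sub H.inp.st (G _)).add (G _)).sub H.inp.st (G _)).smul H.inp.st ρ⁻¹
  simpa only [inv_mul_cancel_left₀ ρ0] using this

theorem BIn.rho : ∃ N, Cau S D N (A6 h₀ (π / 4)) ∧ ∃ ρ : ℂ, ρ ≠ 0 ∧
    Tendsto (fun d => (N d : ℂ) / M d) (𝓝[>] 0) (𝓝 ρ) := by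
  obtain ⟨N, C', f, Z, b, e⟩ := H.c6
  obtain ⟨f₁, g, b₁, e₁⟩ := H.nd3
  obtain ⟨f', Z', b', e'⟩ := H.nz C le_rfl b₁ e₁ (by simpa using (H.ts3 le_rfl H.ts.rd b₁ 0).1)
  have t := (C.w S H.sub _ _ b').congr' (b'.sm.mono fun d e =>
    congrArg ((M d : ℂ) * ·) (a6_rot e H.ts.rd (H.inv _)).symm)
  have t' := ((C'.w S H.sub _ _ (b'.act _)).div t e').congr' ((t.eventually_ne e').mono
    fun d e => mul_div_mul_right _ _ (right_ne_zero_of_mul e))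
  refine ⟨N, C', _, fun e0 => e ?_, t'⟩
  rw [tendsto_nhds_unique_of_eventuallyEq (C'.w S H.sub _ _ b) (t'.mul (H.lim C H.sub b 1 _).2)
    (C.ne.mono fun d e => (div_mm e).symm), e0, zero_mul]

theorem BIn.apT (hW : Sub S W) (b : Dt f Z) (μ ν : Fin 4) :
    Ap S W Z (Th S h₀ M μ ν f) (Th W h₀ M μ ν f Z) := by
  by_cases e : μ = ν
  · subst e
    rw [ent_d (B := (Th W h₀ M · · f Z)) (H.tr C hW b)]
    exact ((Ap.sum H.inp.st _ fun ν _ => H.ap C (.inl rfl) C (ρ := 1) (tendsto_const_nhds.congr'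
      (C.ne.mono fun d e => (div_self (Complex.ofReal_ne_zero.2 e)).symm)) one_ne_zero _ hW b).smul
      H.inp.st _).congr H.inp.st b fun Z b => ent_d (B := (Th S h₀ M · · f Z)) (H.tr C H.sub b) μ
  · obtain ⟨N, C', ρ, ρ0, t⟩ := H.rho C
    rw [ent_o (B := (Th W h₀ M · · f Z)) (Th_sym H.ts.rd _ _) e]
    exact ((H.ap C (.inr rfl) C' t ρ0 _ hW b).smul H.inp.st _).congr H.inp.st b fun Z b =>
      ent_o (B := (Th S h₀ M · · f Z)) (Th_sym H.ts.rd _ _) e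

theorem BIn.out : Out S D κ F M fun W μ ν f Z => (κ h₀ : ℂ)⁻¹ * Th W h₀ M μ ν f Z where
  ne := C.ne
  sym W μ ν f Z := by rw [Th_sym H.ts.rd]
  tr W hW f Z b := by rw [← Finset.mul_sum, H.tr C hW b, mul_zero]
  ope h hh := (H.p1 C hh).imp fun c s => ⟨s.1, fun W hW n n1 f Z b => by
    simpa only [← H.quad C hW b n1, qf, Finset.mul_sum, mul_left_comm _ (κ h₀ : ℂ)⁻¹] using
      (H.ope C hW b n1).2 h c hh s⟩
  cov W hW r hr f Z b μ ν := by
    rw [Th, ← pl_cov r fun n => H.cov C hW b hr, (H.circ C hW (b.act r)).expand]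
    simp only [Th, Finset.mul_sum, mul_left_comm _ (κ h₀ : ℂ)⁻¹]
  lin W hW μ ν c f f' Z b b' := by
    rw [Th, pl_congr (q' := qq W h₀ M _ Z)
      (q := fun n => qq W h₀ M f Z n + c * qq W h₀ M f' Z n) fun n n1 =>
      (((H.ope C hW b n1).1.add ((H.ope C hW b' n1).1.const_mul (c : ℂ))).congr'
        ((b.sm.and b'.sm).mono fun d e => ?_)).limUnder_eq]
    · simp only [Th, pl, hq]
      ring
    · have := fun n n1 => e.1.lin e.2 (H.inp.dom hW.dom hW.one) (H.ts.rd.pb (n := n) n1) c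
      simp only [t1, this _ n1, this _ (norm_ee _), Fin.sum_univ_four]
      ring
  linZ W hW μ ν c f Z Z' b b' := by
    rw [Th, pl_congr (q' := qq W h₀ M f _)
      (q := fun n => qq W h₀ M f Z n + c * qq W h₀ M f Z' n) fun n n1 =>
      (((H.ope C hW b n1).1.add ((H.ope C hW b' n1).1.const_mul c)).congr'
        ((b.sm.and b'.sm).mono fun d e => ?_)).limUnder_eq]
    · simp only [Th, pl, hq]
      ring
    · have := fun n n1 => e.1.linZ e.2 (H.inp.dom hW.dom hW.one) (H.ts.rd.pb (n := n) n1) c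
      simp only [t1, this _ n1, this _ (norm_ee _), Fin.sum_univ_four]
      ring
  ts k hk μ ν f g b := H.tsT C hk μ ν b
  dom W hW m c μ ν f β u Z E b b' hE h := ((Ap.sum H.inp.st _ fun i _ =>
    ((H.apT C hW (b i) _ _).smul H.inp.st _).smul H.inp.st _).add
      ((Ap.pol H.inp.st b'.gd.mem b'.2).smul H.inp.st _)).dom H.inp.st hW.dom hW.one hE h b'.adm

omit C in
/-- the soft theorem -/
theorem BIn.main : ∃ M T, Out S D κ F M T ∧ Slow M :=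
  let ⟨M, C⟩ := H.c3
  ⟨M, _, H.out C, fun ε ε0 => (C.sl ε ε0).eventually_le_const one_pos⟩

end Pool.Agent.Lib.MP_7f377f_mp.Ope
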