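import Pool.Agent.Lib.MP_7f377f_mp.G.ScD

/-! The Ward identity and the normalisation of the stress tensor. -/

noncomputable section

namespace Pool.Agent.Lib.MP_7f377f_mp.Ope
variable [Pool.Agent.Lib.MP_7f377f_mp.GD]
set_option linter.unusedSectionVars false

open MeasureTheory Filter Topology Set Real YM7 Pur MvPolynomial Metric Fx Lg
open scoped ContDiff NNReal

variable {S : Pol →ₗ[ℂ] ℂ} {c α : ℂ} {k : ℕ} {ξ : R4 → ℝ} {Z : Pol}

theorem dp_mon {g : Fin k → R4 → ℝ} {e : Fin k → ℝ} (hg : Adm g)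
    (h : ∀ i, ∀ᶠ y in 𝓝ˢ (tsupport (g i)), ξ y = e i) (h1 : ContDiff ℝ ∞ ξ)
    (h2 : HasCompactSupport ξ) (hZ : Z ∈ net.loc (tsupport ξ ∪ ⋃ i, tsupport (g i))ᶜ) :
    Dp ξ (mon g * Z) := by
  choose U u1 u2 u3 using fun i => mem_nhdsSet_iff_exists.1 (h i)
  refine ⟨h1, tsupport ξ \ ⋃ i, U i, h2.isCompact.diff (isOpen_iUnion u1), fun y hy => ?_,
    net.mono (net.mul (mon_mem hg (subset_iUnion fun i => tsupport (g i))) hZ
      (disjoint_compl_right.mono_left subset_union_right)) (union_subset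
        (fun y hy e => e.2 (iUnion_mono u2 hy)) fun y hy e => hy (.inl e.1))⟩
  by_cases e : y ∈ ⋃ i, U i
  · obtain ⟨i, hi⟩ := mem_iUnion.1 e
    exact ⟨_, mem_of_superset ((u1 i).mem_nhds hi) (u3 i)⟩
  · exact ⟨0, notMem_tsupport_iff_eventuallyEq.1 fun e' => hy ⟨e', e⟩⟩

theorem ward_S {T : Tn} (H : Ax S T) (hc : ∀ ν f Z, Ds f Z → cur S T c ν f Z = 0)
    (hα : ∀ ν g Z, Ds g Z → chg S T c ν g Z = α * cd S ν g Z) (ν : Fin 4) (k : ℕ) :
    ∀ (g : Fin k → R4 → ℝ) (ξ : R4 → ℝ) (e : Fin k → ℝ) (Z : Pol), Adm g →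
    (∀ i, ContDiff ℝ ∞ (g i) ∧ ∀ᶠ y in 𝓝ˢ (tsupport (g i)), ξ y = e i) → ContDiff ℝ ∞ ξ →
    HasCompactSupport ξ → Z ∈ net.loc (tsupport ξ ∪ ⋃ i, tsupport (g i))ᶜ →
    cur S T c ν ξ (mon g * Z) =
      α * ∑ i, e i * S (mon (Function.update g i (pd ν (g i))) * Z) := by
  induction k with
  | zero =>
    intro g ξ e Z _ _ h1 h2 hZ
    simpa [mon] using hc ν ξ Z ⟨h1, adm_one.2 ⟨h2, h1.of_le (by simp)⟩, by simpa using hZ⟩
  | succ k ih =>
    intro g ξ e Z hg h h1 h2 hZ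
    obtain ⟨u, g, rfl⟩ : ∃ u g', g = Fin.cons u g' := ⟨_, _, (Fin.cons_self_tail g).symm⟩
    have a := dt_of hg
    have hg' : Adm g := ⟨fun i => hg.1 i.succ, fun _ _ e => hg.2 ((Fin.succ_injective _).ne e)⟩
    have o : ∀ i, Disjoint (tsupport u) (tsupport (g i)) := fun i => hg.2 (Fin.succ_ne_zero i).symm
    obtain ⟨δ, δ0, z⟩ := loc_sep (h2.isCompact.union (isCompact_iUnion fun i => (hg.1 i).1)) hZ
    have s0 : tsupport u ⊆ tsupport ξ ∪ ⋃ i, tsupport ((Fin.cons u g : Fin (k + 1) → _) i) :=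
      (subset_iUnion (fun i => tsupport ((Fin.cons u g : Fin (k + 1) → _) i)) 0).trans
        subset_union_right
    have s1 : ⋃ i, tsupport (g i) ⊆
        tsupport ξ ∪ ⋃ i, tsupport ((Fin.cons u g : Fin (k + 1) → _) i) :=
      (iUnion_subset fun i : Fin k => subset_iUnion
        (fun i => tsupport ((Fin.cons u g : Fin (k + 1) → _) i)) i.succ).trans subset_union_right
    have s2 := self_subset_thickening δ0
      (tsupport ξ ∪ ⋃ i, tsupport ((Fin.cons u g : Fin (k + 1) → _) i))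
    obtain ⟨ζ, z1, z2, z3, z4⟩ := exists_bump (hg.1 0).1 (isOpen_thickening.inter
      (isClosed_iUnion_of_finite fun i => isClosed_tsupport (g i)).isOpen_compl)
      (subset_inter (s0.trans s2) (disjoint_iUnion_right.2 o).subset_compl_right)
    have c0 : Cut ζ (tsupport u) (mon g * Z) := ⟨z1, z2, z3, net.mono (net.mul
      (mon_mem hg' (subset_iUnion fun i => tsupport (g i))) z
      (disjoint_compl_right.mono_left (s1.trans s2))) (union_subset (fun y hy e => (z4 e).2 hy)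
        fun y hy e => hy (z4 e).1)⟩
    have d0 : Ds u (mon g * Z) := ⟨(h 0).1, a.1, net.mono c0.2.2.2 (compl_subset_compl.2 c0.sub)⟩
    have t1 : ContDiff ℝ ∞ (ξ + (-e 0) • ζ) := h1.add (z1.const_smul (-e 0))
    have t2 : HasCompactSupport (ξ + (-e 0) • ζ) := h2.add (z2.smul_left (f := fun _ => -e 0))
    have t3 : ∀ i, ∀ᶠ y in 𝓝ˢ (tsupport (g i)), (ξ + (-e 0) • ζ) y = e i.succ := fun i =>
      ((h i.succ).2.and ((isClosed_tsupport ζ).isOpen_compl.mem_nhdsSet.2 fun y hy e =>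
        (z4 e).2 (mem_iUnion.2 ⟨i, hy⟩))).mono fun y hy => by
          simp [hy.1, image_eq_zero_of_notMem_tsupport hy.2]
    have t4 : X u * Z ∈ net.loc (tsupport (ξ + (-e 0) • ζ) ∪ ⋃ i, tsupport (g i))ᶜ :=
      net.mono (net.mul a.X z (disjoint_compl_right.mono_left (s0.trans s2))) (union_subset
        (fun y hy => not_or.2 ⟨notMem_tsupport_iff_eventuallyEq.2 ((((h 0).2.and z3).filter_mono
          (nhds_le_nhdsSet hy)).mono fun y hy => by simp [hy.1, hy.2]),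
          disjoint_left.1 (disjoint_iUnion_right.2 o) hy⟩)
        (compl_subset_compl.2 (union_subset ((tsupport_add _ _).trans (union_subset
          (subset_union_left.trans s2) ((tsupport_smul_subset_right (fun _ => -e 0) ζ).trans
            (z4.trans inter_subset_left)))) (s1.trans s2))))
    have e1 := ih g _ (fun i => e i.succ) _ hg' (fun i => ⟨(h i.succ).1, t3 i⟩) t1 t2 t4
    have e2 := cur_lin (c := c) (ν := ν) H (dp_mon hg (fun i => (h i).2) h1 h2 hZ)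
      (PN.mon_cons u g ▸ mul_assoc (X u) (mon g) Z ▸ c0.dp a.X) (-e 0)
    have e3 := hα ν _ _ d0
    rw [chg_eq H hc a.1 c0, cd, cv, H.cen _ (d0.dp.pd ν).1] at e3
    rw [PN.mon_cons, mul_assoc] at e2
    rw [mul_left_comm] at e1
    simp only [Fin.sum_univ_succ, Fin.cons_zero, Fin.cons_succ, Fin.update_cons_zero,
      ← Fin.cons_update, PN.mon_cons, mul_assoc, mul_left_comm (X u)] at e1 e2 e3 ⊢
    push_cast at e2
    linear_combination e1 - e2 + (e 0 : ℂ) * e3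

variable {h₀ : R4 → ℝ} {D M : ℝ → ℝ} {κ : (R4 → ℝ) → ℝ} {F : Fr} {C : ℝ}
  {T : (Pol →ₗ[ℂ] ℂ) → Tn} (H : CIn S h₀ D κ F C M T)
  (hc : ∀ ν f Z, Ds f Z → cur S (T S) c ν f Z = 0)
include H hc

theorem CIn.charge : ∃ α : ℂ, ∀ ν g Z, Ds g Z → chg S (T S) c ν g Z = α * cd S ν g Z := by
  classical
  obtain ⟨h, ξ, b, h1⟩ := H.cc
  obtain ⟨s₀, h2⟩ := St.red (A := fun x : Sd => Jv S (T S) x.f (mon x.g)) (a₀ := ![1, 1, c])
    (fun _ => H.ind) (fun x => by
      simpa [jv_eq, cur] using hc 0 _ _ ⟨x.sm, dt_of x.ad⟩) rfl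
  obtain ⟨a, ha⟩ := St.spanC (A := fun x : Sd => Jv S (T S) x.f (mon x.g))
    (Q := fun x => chg S (T S) c 0 x.f (mon x.g)) fun s ε e0 => by
      have n0 : 0 < ‖![1, 1, c]‖ + 1 := by positivity
      obtain ⟨d, d1, d2⟩ := ((h1 (s₀ ∪ s) _ (div_pos e0 n0)).and_eventually
        ((Finset.eventually_all s).2 fun x _ => chg_lim H.ax hc b (dt_of x.ad) (div_pos e0 n0))).exists
      obtain ⟨e, ⟨B, e1⟩, e2⟩ := (d1.and_eventually ((Finset.eventually_all s).2 d2)).exists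
      obtain ⟨a, ha⟩ := h2 _ Finset.subset_union_left
        (fun x => Cm S (T S) h ξ d e x.f (mon x.g)) _ B e1
      refine ⟨a, fun x hx => (norm_sub_le_norm_sub_add_norm_sub _ _ _).trans
        ((add_le_add (ha x (Finset.mem_union_right _ hx)) (e2 x hx)).trans_eq ?_)⟩
      field_simp
  have h3 := fun f Z (b : Ds f Z) => sub_eq_zero.1 (Lz.ext ((Lz Ds).sub_mem
    (chg_lz (ν := 0) H.ax hc) (H.ax.jv_lz a)) (fun x => sub_eq_zero.2 (ha x)) b)
  have h4 := H.rel (chg_vec H.ax hc) h3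
  refine ⟨a 2 - a 1 * c, fun ν g Z b => sub_eq_zero.1 (H.ax.all ((Vec S Ds).sub_mem
    (chg_vec H.ax hc) ((Vec S Ds).smul_mem (a 2 - a 1 * c) (Vec.ds (cd_vec H.inp))))
    (fun f Z b => ?_) b ν)⟩
  have := hc 0 f Z b
  simp only [cur, Pi.add_apply, Pi.sub_apply, Pi.smul_apply, smul_eq_mul, h3 f Z b, jv_eq,
    h4] at this ⊢
  linear_combination a 1 * this

variable (hα : ∀ ν g Z, Ds g Z → chg S (T S) c ν g Z = α * cd S ν g Z)
include hα

theorem CIn.wd {W : Pol →ₗ[ℂ] ℂ} (hW : Sub S W) : Wd W (T W) c α := by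
  intro k g ξ e ν hg h h1 h2
  have p := (dp_mon hg (fun i => (h i).2) h1 h2 (net.one _)).pd
  simp only [mul_one] at p
  have ts : ∀ i j, tsupport (Function.update g i (pd ν (g i)) j) ⊆ tsupport (g j) := fun i j => by
    rw [Function.update_apply]
    split_ifs with e
    exacts [e ▸ St.pd_ts, subset_rfl]
  have := H.out.dom W hW 4 1 id (fun _ => ν) (fun μ => pd μ ξ) c (pd ν ξ) (mon g)
    (α • ∑ i, (e i : ℂ) • mon (Function.update g i (pd ν (g i)))) p (p ν)
    (Submodule.smul_mem _ _ (Submodule.sum_mem _ fun i _ => Submodule.smul_mem _ _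
      (mon_mem ⟨fun j => ?_, fun j l hj => (hg.2 hj).mono (ts i j) (ts i l)⟩ fun _ => subset_univ _))) ?_
  · simpa using this
  · by_cases e : j = i
    · rw [e, Function.update_self]
      exact ⟨St.pd_cpt (hg.1 i).1, (pd_smooth (h i).1 ν).of_le (by simp)⟩
    · rw [Function.update_of_ne e]
      exact hg.1 j
  obtain ⟨R, hR⟩ := (h2.isCompact.union
    (isCompact_iUnion fun i => (hg.1 i).1)).isBounded.exists_norm_le
  filter_upwards [eventually_ge_atTop (max R 0)] with r hr B hB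
  have z : net.Θ 0 B * B ∈ net.loc (tsupport ξ ∪ ⋃ i, tsupport (g i))ᶜ :=
    net.mono (net.mul (net.Θ_mem 0 hB) hB (disjoint_left.2 fun y e e' => by
      have := e 0
      rw [rf_self] at this
      linarith [e' 0, le_max_right R 0])) fun y hy e => by
        have := abs_le.1 ((PiLp.norm_apply_le y 0).trans (hR y e))
        rcases hy with hy | hy <;> have := hy 0 <;> (try rw [rf_self] at this) <;>
          linarith [le_max_left R 0]
  have e1 := ward_S H.ax hc hα ν k g ξ e _ hg h h1 h2 z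
  have e2 := hc ν ξ _ ⟨h1, adm_one.2 ⟨h2, h1.of_le (by simp)⟩,
    net.mono z (compl_subset_compl.2 subset_union_left)⟩
  simp only [mul_right_comm _ _ B, mul_comm (net.Θ 0 B * B)]
  simpa [cur, dv, cd, Finset.sum_mul] using And.intro e1 e2

theorem CIn.flux {g : Fin 2 → R4 → ℝ} (hg : Src g) : ∃ s : ℝ → ℂ, Tendsto s (𝓝[>] 0)
    (𝓝 (kap (Fin.cons (pd 0 (g 0)) ![g 1] : Fin 2 → _))) ∧
    Tendsto (fun d => (log d ^ 2 / M d : ℝ) * (α * s d)) (𝓝[>] 0)
      (𝓝 (C * ∫ y : Fin 2 → R4, (∏ i, g i (y i)) * flux (y 0) (y 1) : ℝ)) := by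
  have e : g = Fin.cons (g 0) ![g 1] := funext fun i => by fin_cases i <;> rfl
  have a : Adm g := e ▸ src_adm hg
  have n : ∀ i, ∀ᶠ y in 𝓝ˢ (tsupport (g i)), xi y = ![1, 0] i := fun i => by
    refine mem_of_superset (isOpen_ball.mem_nhdsSet.2 (hg i).2.2) fun y hy => ?_
    fin_cases i
    · exact xi_one ((mem_ball_iff_norm'.1 hy).le.trans (by norm_num))
    · exact xi_zero_near ((mem_ball_zero_iff.1 hy).le.trans (by norm_num))
  have b : ∀ l, Adm (Fin.cons (pd l xi) g : Fin 3 → _) := fun l =>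
    PN.adm_cons (St.pd_cpt xi_cpt) ((pd_smooth xi_smooth l).of_le (by simp)) a fun i =>
      disjoint_right.2 fun y hy => St.pd_far ((n i).filter_mono (nhds_le_nhdsSet hy))
  refine ⟨_, H.cvd (hg 0).1 (adm_pd (src_adm hg) (hg 0).1 0), ?_⟩
  have := (H.dvd le_rfl xi_smooth b).add ((H.small hc).mul (H.cvd xi_smooth (b 0)))
  simp only [H.fre.two _ _ _ _ (b _), ← Finset.mul_sum, I3, flux_fub hg, zero_mul,
    add_zero] at this
  refine this.congr' (H.pos'.mono fun d hd => ?_)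
  have a' := a.smul (inv_pos.2 hd).ne'
  have e1 := ward_S H.ax hc hα 0 2 (fun i => sc (D d) (g i)) (sc (D d) xi) ![1, 0] 1 a'
    (fun i => ⟨sm_sc' (hg i).1 _, (Continuous.tendsto_nhdsSet (f := fun y : R4 => (D d)⁻¹ • y)
      (by fun_prop) fun y hy => tsupport_comp (θ := fun y : R4 => (D d)⁻¹ • y) (by fun_prop) hy
        ).eventually (n i)⟩) (sm_sc' xi_smooth _)
    (xi_cpt.comp_homeomorph (Homeomorph.smulOfNeZero _ (inv_pos.2 hd).ne')) (net.one _)
  have e2 := H.cen _ (adm_one.2 ⟨St.pd_cpt (μ := 0) (a'.1 0).1,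
    (pd_smooth (sm_sc' (hg 0).1 (D d)) 0).of_le (by simp)⟩)
  simp only [cur, Pi.add_apply, Pi.smul_apply, smul_eq_mul, mul_one, Fin.sum_univ_two,
    Matrix.cons_val] at e1
  rw [show mon (Function.update (fun i => sc (D d) (g i)) 0 (pd 0 (sc (D d) (g 0)))) =
    X (pd 0 (sc (D d) (g 0))) * mon fun i => sc (D d) (![g 1] i) by simp [mon]] at e1
  change S (X (pd 0 (sc (D d) (g 0)))) = 0 at e2
  simp only [cd, cv, e2, log_inv] at e1 ⊢
  push_cast at e1 ⊢
  linear_combination (log d : ℂ) ^ 4 / M d * D d * e1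

omit hc hα in
theorem endgame : COut S C M T := by
  obtain ⟨c, hc⟩ := H.cons
  obtain ⟨α, hα⟩ := H.charge hc
  obtain ⟨g, g1, g2⟩ := flux_ne
  obtain ⟨s, s1, s2⟩ := H.flux hc hα g1
  have n := Complex.ofReal_ne_zero.2 (mul_ne_zero H.fre.ne g2)
  have l : ∀ᶠ d in 𝓝[>] (0 : ℝ), ((M d / log d ^ 2 : ℝ) : ℂ) * (log d ^ 2 / M d : ℝ) = 1 := by
    filter_upwards [H.out.ne, Ioo_mem_nhdsGT one_pos] with d h1 h2
    have := (log_neg h2.1 h2.2).ne
    norm_cast
    field_simp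
  have t := ((s1.const_mul α).div s2 n).congr' (f₂ := fun d => ((M d / log d ^ 2 : ℝ) : ℂ))
    ((l.and (s2.eventually_ne n)).mono fun d hd => by
      rw [Pi.div_apply, div_eq_iff hd.2, ← mul_assoc, hd.1, one_mul])
  obtain ⟨m, hm⟩ : ∃ m : ℝ, Tendsto (fun d => M d / log d ^ 2) (𝓝[>] 0) (𝓝 m) :=
    ⟨_, (Complex.continuous_re.tendsto _).comp t⟩
  have key : ∀ g : Fin 2 → R4 → ℝ, Src g → α * kap (Fin.cons (pd 0 (g 0)) ![g 1] : Fin 2 → _) =
      m * (C * ∫ y : Fin 2 → R4, (∏ i, g i (y i)) * flux (y 0) (y 1) : ℝ) := fun g hg => by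
    obtain ⟨s, s1, s2⟩ := H.flux hc hα hg
    exact tendsto_nhds_unique (s1.const_mul α) ((((Complex.continuous_ofReal.tendsto _).comp hm).mul s2).congr'
      (l.mono fun d hd => by rw [Function.comp, ← mul_assoc, hd, one_mul]))
  have a0 : α ≠ 0 := fun e => n (tendsto_nhds_unique s2 (by simp [e]))
  obtain ⟨g', g3, g4⟩ := kap_ne
  obtain ⟨β, rfl⟩ : ∃ β : ℝ, α = β :=
    ⟨_ / _, by rw [Complex.ofReal_div, eq_div_iff (Complex.ofReal_ne_zero.2 g4), key g' g3,
      ← Complex.ofReal_mul]⟩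
  have d : (0 : ℝ) < GD.d := by exact_mod_cast GD.d3.trans_lt' (by norm_num)
  have b := GD.b0_pos
  have b0 : β ≠ 0 := by exact_mod_cast a0
  have := pin (m := m * C / (β * (48 / (11 * GD.b0)) ^ 2 * (3 * GD.d))) fun g hg => by
    have := key g hg
    rw [kap_src hg] at this
    replace this := Complex.ofReal_injective (((Complex.ofReal_mul _ _).trans this).trans
      (Complex.ofReal_mul _ _).symm)
    field_simp at this ⊢
    linear_combination -this
  refine ⟨m, c, fun e => by simp [e] at this, hm, fun W hW => ?_⟩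
  convert H.wd hc hα hW using 2
  field_simp at this ⊢
  linear_combination this

end Pool.Agent.Lib.MP_7f377f_mp.Ope
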