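import Pool.Agent.Lib.MP_7f377f_mp.G.TsD
import Pool.Agent.Lib.MP_7f377f_mp.Lb9

/-! The free limit for a pair and at most two single fields. -/

noncomputable section

namespace Pool.Agent.Lib.MP_7f377f_mp.Ope

set_option linter.unusedSectionVars false

open MeasureTheory Filter Topology Set Real YM7 Fx Function

/-- the points of a pair and of single fields -/
def ek (k : ℕ) : (Σ s, Fin (pm k s)) ≃ Fin 2 ⊕ Fin k where
  toFun
    | ⟨none, x⟩ => .inl x
    | ⟨some i, _⟩ => .inr i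
  invFun := Sum.elim (fun x => ⟨none, x⟩) fun i => ⟨some i, (0 : Fin 1)⟩
  left_inv
    | ⟨none, _⟩ => rfl
    | ⟨some _, x⟩ => congrArg _ (Subsingleton.elim (α := Fin 1) _ x)
  right_inv := by rintro (_ | _) <;> rfl

theorem int_ek (k : ℕ) (F : ((Σ s, Fin (pm k s)) → E4) → ℝ) : ∫ y, F y =
    ∫ p : (Fin 2 → E4) × (Fin k → E4), F (fun q => Sum.elim p.1 p.2 (ek k q)) ∂volume.prod volume :=
  (((volume_measurePreserving_sumPiEquivProdPi_symm fun _ => E4).trans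
    (volume_preserving_arrowCongr' (ek k).symm (MeasurableEquiv.refl E4) (.id _))).integral_comp' F).symm

theorem Lm_eq {w : ℝ} (hw : w ≠ 0) (k : ℕ) (u : E4 → ℝ) (g : Fin k → E4 → ℝ) (ζ : E4) :
    Lm w {none}ᶜ (po k) (pu u g) (fun _ => ζ) = ∫ p : (Fin 2 → E4) × (Fin k → E4),
      u (p.1 0) * u (-p.1 1) * (∏ i, g i (p.2 i)) * Lb.frL w (Fin.cons ((2⁻¹ : ℝ) • Lb.pr (p.1 1 - p.1 0))
        fun _ => (2⁻¹ : ℝ) • Lb.an) (Fin.cons ζ p.2 : Fin (k + 1) → E4) ∂volume.prod volume := by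
  rw [Lm, int_ek]
  refine congrArg _ (funext fun p => congrArg₂ _ ?_ ?_)
  · rw [← (ek k).symm.prod_comp, Fintype.prod_sum_type, Fin.prod_univ_two]
    rfl
  · rw [← Lb.frL_reindex (finSuccEquiv k)]
    congr 1 <;> ext1 i <;> refine i.cases ?_ fun i => ?_
    · exact Lb.B_two hw _
    · exact Lb.B_unique (ι := Fin 1) hw
    · simp [zp]
    · simp [zp]
      rfl

/-- the tensor of the pair -/
def At (h : E4 → ℝ) (n : E4) (μ ν : Fin 4) (u : Fin 2 → E4) : ℝ :=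
  h (u 0 - n) * h (-u 1 - n) * ((u 1 - u 0) μ * (u 1 - u 0) ν / ‖u 1 - u 0‖ ^ 6)

theorem At_int {h : E4 → ℝ} {n : E4} (hh : ContDiff ℝ 1 h ∧ tsupport h ⊆ Metric.ball 0 1 ∧
    ∀ x y, ‖x‖ = ‖y‖ → h x = h y) (hn : ‖n‖ = 1) : ∃ B : ℝ, ∀ μ ν, Integrable (At h n μ ν) ∧
    ∫ u, At h n μ ν u = kap h * (n μ * n ν) + if μ = ν then B else 0 := by
  obtain ⟨B, hB⟩ := kap_tensor hh.1.continuous hh.2.1 hh.2.2 hn
  refine ⟨B, fun μ ν => ?_⟩
  have I := kk_int hh.1.continuous hh.2.1 hn (EuclideanSpace.single μ 1) (EuclideanSpace.single ν 1)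
  have mp := (volume_preserving_finTwoArrow E4).trans (e' := .prodCongr (.refl _) (.neg _))
    ((MeasurePreserving.id volume).prod (Measure.measurePreserving_neg volume))
  have e : ∀ u, At h n μ ν u = kk h n (EuclideanSpace.single μ 1) (EuclideanSpace.single ν 1)
      (u 0, -u 1) := fun u => by
    simp only [At, kk, EuclideanSpace.inner_single_left, map_one, one_mul, ← sub_eq_add_neg,
      norm_sub_rev (u 0), PiLp.sub_apply]
    ring
  simp only [funext e]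
  refine ⟨(mp.integrable_comp_emb (MeasurableEquiv.measurableEmbedding _)).2 I,
    (mp.integral_comp' _).trans ((integral_prod _ I).trans ?_)⟩
  simpa only [kk, EuclideanSpace.inner_single_left, map_one, one_mul] using hB μ ν

/-- the integrand of the three point function -/
def Bt (μ ν : Fin 4) (f : E4 → ℝ) (g : Fin 2 → E4 → ℝ) (p : E4 × (Fin 2 → E4)) : ℝ :=
  f p.1 * (∏ i, g i (p.2 i)) * tt μ ν p.1 (p.2 0) (p.2 1)

variable [Pool.Agent.Lib.MP_7f377f_mp.GD]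

theorem Bt_int {f : E4 → ℝ} {g : Fin 2 → E4 → ℝ} (H : Adm (Fin.cons f g : Fin 3 → _)) (μ ν : Fin 4) :
    Integrable (Bt μ ν f g) (volume.prod volume) ∧
      I3 μ ν f g = ∫ p, Bt μ ν f g p ∂volume.prod volume := by
  have mp := volume_preserving_piFinSuccAbove (fun _ : Fin 3 => E4) 0
  have I := ((Lb.wt_prod (fun i => (H.1 i).1) (fun i => (H.1 i).2.continuous) H.2).mul
    (F := fun y => tt μ ν (y 0) (y 1) (y 2)) fun y hy => tt_cont (continuousAt_apply 0 y)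
      (continuousAt_apply 1 y) (continuousAt_apply 2 y) (hy.ne (by decide)) (hy.ne (by decide))
      (hy.ne (by decide)) μ ν).int
  have e : ∀ y : Fin 3 → E4, Bt μ ν f g (MeasurableEquiv.piFinSuccAbove (fun _ => E4) 0 y) =
      f (y 0) * (g 0 (y 1) * g 1 (y 2)) * tt μ ν (y 0) (y 1) (y 2) := fun y => by
    rw [Bt, Fin.prod_univ_two]
    rfl
  refine ⟨(mp.integrable_comp_emb (MeasurableEquiv.measurableEmbedding _)).1
    (I.congr (.of_forall fun y => ?_)), .trans ?_ (mp.integral_comp' _)⟩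
  · simp only [comp, e, mul_assoc]
    rw [Fin.prod_univ_three, mul_assoc, mul_assoc]
    rfl
  · simp only [I3, e, Fin.prod_univ_three, mul_assoc]
    rfl

theorem I3_tr {f : E4 → ℝ} {g : Fin 2 → E4 → ℝ} (H : Adm (Fin.cons f g : Fin 3 → _)) :
    ∑ μ, I3 μ μ f g = 0 := by
  simp only [(Bt_int H _ _).2]
  rw [← integral_finset_sum _ fun μ _ => (Bt_int H μ μ).1]
  simp only [Bt, ← Finset.mul_sum, Lb.tt_tr, mul_zero, integral_zero]

theorem Ff_two {f : E4 → ℝ} {g : Fin 2 → E4 → ℝ} (H : Adm (Fin.cons f g : Fin 3 → _)) (C : ℝ)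
    (μ ν : Fin 4) : Ff C 2 μ ν f g = C * I3 μ ν f g := by simp [Ff, I3_tr H]

theorem pairF : PairF := fun k hk h hh n hn f g H => by
  have hw : (GD.d / 2 : ℝ) ≠ 0 := by have := GD.d3; positivity
  simp only [Lm_eq hw, Ope.hn]
  interval_cases k
  · simp [Lb.frL_unique (ι := Fin 1), Ff]
  · have : ∀ (x : E4) (y : Fin 2 → E4), Lb.frL (GD.d / 2) (Fin.cons ((2⁻¹ : ℝ) • Lb.pr x)
        fun _ => (2⁻¹ : ℝ) • Lb.an) y = 0 := fun x y => by
      by_cases e : y 0 = y 1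
      · rw [Lb.frL, Lb.lq_two fun i => by simp [Lb.pr_zero]]
        simp [e, Lb.pr_zero]
      by_cases hx : x = 0
      · simp [Lb.frL_two _ e, hx, Lb.pr_zero, Lb.pa, Lb.sy, Lb.ip]
      have := Lb.tr_kk (Lb.mr x)
      rw [show Lb.mr x * Lb.mr x = 1 by simpa only [Lb.mr_tr] using Lb.mr_orth hx,
        show (Lb.mr x).trace = 2 by
          simp [Lb.mr_eq, Matrix.trace_vecMulVec, Lb.dot_eq, norm_ne_zero_iff.2 hx]; norm_num] at this
      rw [Lb.frL_two _ e, Fin.cons_one, Fin.cons_zero, Lb.rho_smul,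
        Lb.rho_an (Lb.mr_orth (sub_ne_zero.2 (Ne.symm e))), Lb.ip_smul, ← Lb.ip_pa, Lb.pa_an',
        Lb.ip_comm, Lb.ip_an, Matrix.mul_smul, Lb.an_pr, Lb.pr_eq, Matrix.trace_smul,
        Matrix.trace_smul, this]
      norm_num
    simp [this, Ff]
  obtain ⟨B, hB⟩ := At_int hh hn
  have key : ∀ᵐ ζ : E4, f ζ * (∫ p : (Fin 2 → E4) × (Fin 2 → E4), h (p.1 0 - n) * h (-p.1 1 - n) *
      (∏ i, g i (p.2 i)) * Lb.frL (GD.d / 2) (Fin.cons ((2⁻¹ : ℝ) • Lb.pr (p.1 1 - p.1 0))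
        fun _ => (2⁻¹ : ℝ) • Lb.an) (Fin.cons ζ p.2 : Fin 3 → E4) ∂volume.prod volume) =
      ∑ μ, ∑ ν, 16 * GD.d * kap h * (n μ * n ν) * ∫ v, Bt μ ν f g (ζ, v) := by
    filter_upwards [eventually_all.2 fun μ => eventually_all.2 fun ν =>
      (Bt_int H μ ν).1.prod_right_ae] with ζ hζ
    have h1 : ∀ p : (Fin 2 → E4) × (Fin 2 → E4), f ζ * (h (p.1 0 - n) * h (-p.1 1 - n) *
        (∏ i, g i (p.2 i)) * Lb.frL (GD.d / 2) (Fin.cons ((2⁻¹ : ℝ) • Lb.pr (p.1 1 - p.1 0))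
          fun _ => (2⁻¹ : ℝ) • Lb.an) (Fin.cons ζ p.2 : Fin 3 → E4)) =
        16 * GD.d * ∑ μ, ∑ ν, At h n μ ν p.1 * Bt μ ν f g (ζ, p.2) := fun p => by
      have := Lb.frL_three (w := GD.d / 2) (p.1 1 - p.1 0) (Fin.cons ζ p.2)
      rw [show (Fin.cons _ fun _ => _ : Fin 3 → Lb.Lab ℝ) = ![(2⁻¹ : ℝ) • Lb.pr (p.1 1 - p.1 0),
        (2⁻¹ : ℝ) • Lb.an, (2⁻¹ : ℝ) • Lb.an] from funext fun i => by fin_cases i <;> rfl, this]
      simp only [Finset.mul_sum, At, Bt]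
      refine Finset.sum_congr rfl fun μ _ => Finset.sum_congr rfl fun ν _ => ?_
      change _ * (_ * (_ * (_ * tt μ ν ζ (p.2 0) (p.2 1)))) = _
      ring
    have h2 := fun μ ν => (hB μ ν).1.mul_prod (hζ μ ν)
    have h3 : ∑ μ, ∫ v, Bt μ μ f g (ζ, v) = 0 := by
      rw [← integral_finset_sum _ fun μ _ => hζ μ μ]
      simp only [Bt, ← Finset.mul_sum, Lb.tt_tr, mul_zero, integral_zero]
    rw [← integral_const_mul, funext h1, integral_const_mul,
      integral_finset_sum _ fun μ _ => integrable_finset_sum _ fun ν _ => h2 μ ν,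
      Finset.sum_congr rfl fun μ _ => integral_finset_sum _ fun ν _ => h2 μ ν]
    simp only [fun μ ν => integral_prod_mul (μ := volume) (ν := volume) (At h n μ ν)
      fun v => Bt μ ν f g (ζ, v), (hB _ _).2, add_mul,
      Finset.sum_add_distrib, ite_mul, zero_mul, Finset.sum_ite_eq, Finset.mem_univ, if_true,
      ← Finset.mul_sum, h3, mul_zero, add_zero, mul_assoc]
  have I := fun μ ν => (Bt_int H μ ν).1.integral_prod_left.const_mul
    (16 * GD.d * kap h * (n μ * n ν))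
  refine ⟨(integrable_finset_sum _ fun μ _ => integrable_finset_sum _ fun ν _ => I μ ν).congr
    (EventuallyEq.symm key), ?_⟩
  rw [integral_congr_ae key, integral_finset_sum _ fun μ _ => integrable_finset_sum _ fun ν _ => I μ ν,
    Finset.sum_congr rfl fun μ _ => integral_finset_sum _ fun ν _ => I μ ν]
  simp only [Finset.mul_sum, Ff_two H, (Bt_int H _ _).2, integral_prod _ (Bt_int H _ _).1, integral_const_mul]
  exact Finset.sum_congr rfl fun μ _ => Finset.sum_congr rfl fun ν _ => by ring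

variable {C : ℝ}

theorem fre (hC : C ≠ 0) : Fre (Ff C) C := ⟨hC, fun _ _ _ _ _ => rfl, fun _ _ _ _ H => Ff_two H ..⟩

theorem Ff_sym (k μ ν f g) : Ff C k μ ν f g = Ff C k ν μ f g := by
  unfold Ff
  split
  · simp only [I3, tt, eq_comm (a := μ), mul_comm (vv _ _ _ μ)]
  · rfl

theorem Ff_tr (k f g) : ∑ μ, Ff C k μ μ f g = 0 := by
  unfold Ff
  split
  · simp only [if_true, ← Finset.mul_sum, Finset.sum_sub_distrib]
    simp [mul_div_cancel₀]
  · simp

theorem Ff_nd (hC : C ≠ 0) :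
    ∃ f g, Adm (Fin.cons f g : Fin 3 → _) ∧ Ff C 2 0 0 f g ≠ Ff C 2 1 1 f g := by
  have c := fun μ => conc pk (F := Fx.t3 μ μ) ((tt_meas μ μ).comp
    (f := fun y : Fin 3 → E4 => ((y 1, y 2), y 0)) (by fun_prop)) (t3_smooth pk_mem μ μ).continuousAt
  have n : Fx.t3 0 0 pk - Fx.t3 1 1 pk ≠ 0 := by
    have n1 : ‖e0 - (2⁻¹ : ℝ) • e0‖ = 2⁻¹ := by
      rw [show e0 - (2⁻¹ : ℝ) • e0 = (2⁻¹ : ℝ) • e0 by module, norm_smul, norm_e0]; norm_num
    have n2 : ‖-e0 - (2⁻¹ : ℝ) • e0‖ = 3 / 2 := by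
      rw [show -e0 - (2⁻¹ : ℝ) • e0 = (-3 / 2 : ℝ) • e0 by module, norm_smul, norm_e0]; norm_num
    have n3 : ‖e0 - -e0‖ = 2 := by rw [sub_neg_eq_add, ← two_smul ℝ, norm_smul, norm_e0]; norm_num
    simp only [Fx.t3, pk, Matrix.cons_val, tt, if_true, ← sub_div, sub_sub_sub_cancel_right, n1, n2, n3]
    simp only [vv, n1, n2]
    simp [e0]
    norm_num
  obtain ⟨m, hm⟩ := (((c 0).sub (c 1)).eventually_ne n).exists
  have e : ∀ i, (Fin.cons (bu m (pk 0)) ![bu m (pk 1), bu m (pk 2)] : Fin 3 → _) i = bu m (pk i) :=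
    fun i => by fin_cases i <;> rfl
  have H : Adm (Fin.cons (bu m (pk 0)) ![bu m (pk 1), bu m (pk 2)] : Fin 3 → _) :=
    ⟨fun i => e i ▸ ⟨(bu_adm m _).2.1, (bu_adm m _).1.of_le (by simp)⟩, fun i j a => by
      simpa only [e] using (pk_far a).mono (bu_adm m _).2.2 (bu_adm m _).2.2⟩
  refine ⟨_, _, H, fun a => hm ?_⟩
  rw [Ff_two H, Ff_two H] at a
  have := mul_left_cancel₀ hC a
  simp only [I3, Fin.prod_univ_three] at this ⊢
  exact sub_eq_zero.2 this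

end Pool.Agent.Lib.MP_7f377f_mp.Ope
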