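import Pool.Agent.Lib.MP_7f377f_mp.G.TsN
import Pool.Agent.Lib.MP_7f377f_mp.G.TsF

/-! The two scale law for the pair. -/

noncomputable section

namespace Pool.Agent.Lib.MP_7f377f_mp.Ope

open MeasureTheory Filter Topology Set Real YM7 Pur Metric

set_option linter.unusedSectionVars false

variable [GD] {S : Pol →ₗ[ℂ] ℂ} {X D : ℝ → ℝ} {k : ℕ} {u f : R4 → ℝ} {g : Fin k → R4 → ℝ}

theorem ev_io2 {P : ℝ → Prop} (h : ∀ᶠ d in 𝓝[>] (0 : ℝ), P d) :
    ∀ᶠ d in 𝓝[>] (0 : ℝ), ∀ d' ∈ Ioc 0 d, P d' := by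
  obtain ⟨ε, ε0, e⟩ := mem_nhdsGT_iff_exists_Ioo_subset.1 h
  filter_upwards [Ioo_mem_nhdsGT ε0] with d hd d' h' using e ⟨h'.1, h'.2.trans_lt hd.2⟩

theorem clq_pair (hu : Pb u) (a : Adm (Fin.cons f g : Fin (k + 1) → _)) : ∃ Λ, ∃ δ > 0,
    ∀ ζ, f ζ ≠ 0 → Clq {none}ᶜ Λ δ (pu u g) fun _ => ζ := by
  obtain ⟨Λ, δ, t⟩ := hu.1.tf
  obtain ⟨Λ', δ', t'⟩ := a.tf
  have o := t.one
  have o' := t'.one
  have n1 : ∀ {m} {v : Fin m → R4 → ℝ} {A δ : ℝ}, Tf v A δ → ∀ i y, v i y ≠ 0 → ‖y‖ ≤ 2 * A :=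
    fun h i y e => dist_zero_right y ▸ dist_le_two fun l => by simpa using h.cube i y e l
  have n2 : ∀ {m} {v : Fin m → R4 → ℝ} {A δ : ℝ}, Tf v A δ → ∀ i j, i ≠ j → ∀ y z, v i y ≠ 0 →
      v j z ≠ 0 → δ ≤ ‖y - z‖ := fun h i j e y z a b =>
    let ⟨l, hl⟩ := h.sep i j e y z a b
    hl.trans (PiLp.norm_apply_le (y - z) l)
  refine ⟨2 * Λ + 2 * Λ', min δ δ', lt_min t.pos t'.pos, fun ζ hζ => ⟨by linarith, ?_, ?_, ?_, ?_,
    fun _ => (n1 t' 0 ζ hζ).trans (by linarith), ?_⟩⟩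
  · rintro ⟨_ | i, x⟩
    exacts [(hu.1.1 x).2, (a.1 i.succ).2]
  · rintro ⟨_ | i, x⟩ y
    exacts [(t.bd x y).trans (by linarith), (t'.bd i.succ y).trans (by linarith)]
  · rintro ⟨_ | i, x⟩ y z
    exacts [(t.lip x y z).trans (mul_le_mul_of_nonneg_right (by linarith) dist_nonneg),
      (t'.lip i.succ y z).trans (mul_le_mul_of_nonneg_right (by linarith) dist_nonneg)]
  · rintro ⟨_ | i, x⟩ y e
    exacts [(n1 t x y e).trans (by linarith), (n1 t' i.succ y e).trans (by linarith)]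
  · rintro ⟨_ | i, x⟩ ⟨_ | j, x'⟩ e y z h1 h2
    · simpa using .inl (n2 t x' x (fun c => e (by rw [c])) z y h2 h1)
    · simpa using .inr (n2 t' j.succ 0 j.succ_ne_zero z ζ h2 hζ)
    · simpa using .inr (n2 t' 0 i.succ i.succ_ne_zero.symm ζ y hζ h1)
    · have c : i ≠ j := fun c => e (by
        subst c
        rw [Subsingleton.elim (α := Fin 1) x x'])
      simpa [c] using .inr (n2 t' j.succ i.succ ((Fin.succ_injective _).ne c.symm) z y h2 h1)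

theorem pair_eq (cen : ∀ f, Adm ![f] → S (MvPolynomial.X f) = 0)
    (a : Adm (Fin.cons f g : Fin (k + 1) → _)) (d : ℝ) {D : ℝ} (D0 : 0 < D) (ζ : R4) :
    S (∏ s, ctr S (∏ x, MvPolynomial.X (us {none}ᶜ (pu u g) d D (fun _ => ζ) ⟨s, x⟩))) =
      cv S (pr u d (D • ζ)) (mon fun i => sc D (g i)) := by
  have e1 : ∀ i, ctr S (∏ x, MvPolynomial.X (us {none}ᶜ (pu u g) d D (fun _ => ζ) ⟨some i, x⟩)) =
      MvPolynomial.X (sc D (g i)) := fun i => by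
    have : ∀ x, us {none}ᶜ (pu u g) d D (fun _ => ζ) ⟨some i, x⟩ = sc D (g i) := fun x =>
      funext fun y => if_pos (by simp)
    simp only [this]
    rw [Finset.prod_const, Finset.card_univ, Fintype.card_fin, show pm k (some i) = 1 from rfl,
      pow_one, ctr,
      cen (sc D (g i)) (adm_one.2 ((a.smul (inv_pos.2 D0).ne').1 i.succ)), map_zero, sub_zero]
  have e2 : ∏ x, MvPolynomial.X (us {none}ᶜ (pu u g) d D (fun _ => ζ) ⟨none, x⟩) =
      pr u d (D • ζ) := by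
    rw [pr_eq]
    exact Finset.prod_congr rfl fun x _ => congrArg _ (funext fun y => if_neg (by simp))
  rw [Fintype.prod_option, e2, Finset.prod_congr rfl fun i _ => e1 i, ctr, cv, sub_mul, map_sub,
    MvPolynomial.C_mul', map_smul, smul_eq_mul, mon]

theorem ts2 (hN : TsN S X) (hI : Lg.Inp S) (cen : ∀ f, Adm ![f] → S (MvPolynomial.X f) = 0)
    (hD : Win X D) : Ts2 S D Fx.kap (Ff (16 * GD.d * qc ^ 4)) := by
  intro k hk h hh n hn f g a η η0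
  obtain ⟨p1, p2⟩ := pairF k hk h hh n hn f g a
  rw [← p2]
  obtain ⟨Λ, δ, δ0, hc⟩ := clq_pair (hh.pb hn) a
  obtain ⟨ρ, ρ0, hρ⟩ := sm_sc a
  have fi : Integrable fun ζ => |f ζ| := ((a.1 0).2.continuous.integrable_of_hasCompactSupport
    (a.1 0).1).abs
  obtain ⟨I, hI'⟩ : ∃ I, I = ∫ ζ, |f ζ| := ⟨_, rfl⟩
  have I0 : 0 ≤ I := hI' ▸ integral_nonneg fun _ => abs_nonneg _
  obtain ⟨L, hL⟩ := hN (Option (Fin k)) (fun s => Fin (pm k s)) {none}ᶜ (po k) (by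
    rintro (_ | i) c
    · simp at c
    · exact inferInstanceAs (Subsingleton (Fin 1))) Λ δ δ0 (η / 2 / (I + 1)) (by positivity)
  have c1 : Fintype.card (Σ s, Fin (pm k s)) = k + 2 := by simp [add_comm]
  simp only [c1, compl_compl, Finset.card_singleton, mul_one] at hL
  generalize hc₀ : qc ^ (k + 2) * ∫ ζ, f ζ * Lm (GD.d / 2) {none}ᶜ (po k) (pu (Ope.hn h n) g)
    (fun _ => ζ) = c
  have t0 : Tendsto (fun d : ℝ => log d⁻¹) (𝓝[>] 0) atTop :=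
    tendsto_log_atTop.comp tendsto_inv_nhdsGT_zero
  have t1 : Tendsto (fun d : ℝ => (1 - (1 - log 2 / log d⁻¹) ^ (k + 2)) * |c|) (𝓝[>] 0) (𝓝 0) := by
    simpa using ((((t0.const_div_atTop (log 2)).const_sub 1).pow (k + 2)).const_sub 1).mul_const |c|
  filter_upwards [ev_io2 hL, hD.win, hD.rat.eventually_ge_atTop L, self_mem_nhdsWithin,
    hD.rat.eventually_ge_atTop ρ⁻¹, t1.eventually_le_const (half_pos η0), t0.eventually_ge_atTop 1]
    with d h1 h2 h3 (d0 : 0 < d) h4 h5 h6 d' hd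
  have d1 : 0 < d' := (half_pos d0).trans_le hd.1
  have D0 : 0 < D d := (div_pos_iff_of_pos_right d0).1 ((inv_pos.2 ρ0).trans_le h4)
  have r1 : D d / d ≤ D d / d' := div_le_div_of_nonneg_left D0.le d1 hd.2
  have h7 := h1 d' ⟨d1, hd.2⟩ (D d) ((le_div_iff₀ d1).1 (h3.trans r1)) (h2 d' hd)
  have h8 := ((hρ d' (D d) d1 D0 (inv_div (D d) d' ▸ inv_le_of_inv_le₀ ρ0 (h4.trans r1))).int hI
    (hh.pb hn)).comp_smul D0.ne'
  have e1 : Ai S (Ope.hn h n) d' (sc (D d) f) (mon fun i => sc (D d) (g i)) = ((D d / d') ^ 4 : ℝ) *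
      ∫ ζ, f ζ * cv S (pr (Ope.hn h n) d' (D d • ζ)) (mon fun i => sc (D d) (g i)) := by
    have := Measure.integral_comp_smul volume (fun z => sc (D d) f z *
      cv S (pr (Ope.hn h n) d' z) (mon fun i => sc (D d) (g i))) (D d)
    simp only [sc, inv_smul_smul₀ D0.ne', finrank_euclideanSpace, Fintype.card_fin,
      abs_of_pos (inv_pos.2 (pow_pos D0 4)), Complex.real_smul] at this
    simp only [Ai, sc, this, ← mul_assoc, ← Complex.ofReal_mul]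
    congr 2
    field_simp
  simp only [sc, inv_smul_smul₀ D0.ne'] at h8
  have h9 : ‖((log d'⁻¹ ^ (k + 2) : ℝ) : ℂ) * Ai S (Ope.hn h n) d' (sc (D d) f)
      (mon fun i => sc (D d) (g i)) - c‖ ≤ η / 2 := by
    rw [e1, ← hc₀, ← mul_assoc, ← integral_const_mul, ← integral_const_mul, ← integral_complex_ofReal,
      ← integral_sub (g := fun ζ => ((qc ^ (k + 2) * (f ζ * Lm (GD.d / 2) {none}ᶜ (po k)
        (pu (Ope.hn h n) g) fun _ => ζ) : ℝ) : ℂ)) (h8.const_mul _) (p1.const_mul _).ofReal]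
    refine (norm_integral_le_of_norm_le (fi.const_mul (η / 2 / (I + 1))) (ae_of_all _ fun ζ => ?_)).trans
      ?_
    · by_cases e : f ζ = 0
      · simp [e]
      have := h7 _ _ (hc ζ e)
      rw [pair_eq cen a d' D0] at this
      refine le_of_eq_of_le ?_ (mul_le_mul_of_nonneg_right this (abs_nonneg (f ζ)))
      rw [← Real.norm_eq_abs, ← Complex.norm_real, ← norm_mul]
      congr 1
      push_cast
      ring
    · rw [integral_const_mul, ← hI', div_mul_eq_mul_div, div_le_iff₀ (by positivity)]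
      nlinarith
  have l1 : log d⁻¹ ≤ log d'⁻¹ := log_le_log (by positivity) (inv_anti₀ d1 hd.2)
  have l2 : log d'⁻¹ ≤ log d⁻¹ + log 2 := by
    rw [← log_mul (by positivity) two_ne_zero]
    exact log_le_log (by positivity) ((inv_anti₀ (half_pos d0) hd.1).trans_eq (by field_simp))
  have l3 : log 2 ≤ 1 := (log_le_sub_one_of_pos two_pos).trans (by norm_num)
  have l4 := log_pos one_lt_two
  generalize Ai S _ _ _ _ = A at h9 ⊢
  generalize log d⁻¹ = x at *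
  generalize log d'⁻¹ = y at *
  have y0 : 0 < y := by linarith
  have x0 : 0 < x := by linarith
  have q1 : (x / y) ^ (k + 2) ≤ 1 := pow_le_one₀ (by positivity) ((div_le_one y0).2 l1)
  have q2 : (1 - log 2 / x) ^ (k + 2) ≤ (x / y) ^ (k + 2) := by
    refine pow_le_pow_left₀ (sub_nonneg.2 ((div_le_one x0).2 (by linarith))) ?_ _
    rw [le_div_iff₀ y0, sub_mul, div_mul_eq_mul_div, mul_div_assoc]
    nlinarith [(one_le_div x0).2 l1]
  rw [show ((x ^ (k + 2) : ℝ) : ℂ) * A - c = ((x / y) ^ (k + 2) : ℝ) * (((y ^ (k + 2) : ℝ) : ℂ) * A - c) -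
    ((1 - (x / y) ^ (k + 2)) * c : ℝ) by
      have : (y : ℂ) ^ (k + 2) ≠ 0 := pow_ne_zero _ (Complex.ofReal_ne_zero.2 y0.ne')
      push_cast
      rw [mul_sub, ← mul_assoc, div_pow, div_mul_cancel₀ _ this]
      ring]
  refine (norm_sub_le _ _).trans ?_
  rw [norm_mul, Complex.norm_real, Complex.norm_real, norm_mul, Real.norm_of_nonneg (by positivity),
    Real.norm_of_nonneg (sub_nonneg.2 q1), Real.norm_eq_abs]
  nlinarith [abs_nonneg c, norm_nonneg (((y ^ (k + 2) : ℝ) : ℂ) * A - c)]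

theorem Win.sq (hD : Win X D) (hX : ∀ᶠ d in 𝓝[>] (0 : ℝ), X d ≤ log d⁻¹) :
    ∀ᶠ d in 𝓝[>] (0 : ℝ), (D d / d) ^ 2 ≤ log d⁻¹ ∧ D d ^ 2 ≤ d := by
  filter_upwards [hD.win, hX, self_mem_nhdsWithin] with d h1 h2 (d0 : 0 < d)
  have := (h1 d ⟨half_le_self d0.le, le_rfl⟩).trans h2
  refine ⟨this, ?_⟩
  have e := this.trans (log_le_self (inv_pos.2 d0).le)
  rwa [div_pow, div_le_iff₀ (by positivity), pow_two d, inv_mul_cancel_left₀ d0.ne'] at e

theorem Win.lg (hD : Win X D) (hX : ∀ᶠ d in 𝓝[>] (0 : ℝ), X d ≤ log d⁻¹) :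
    Tendsto (fun d => log (D d) / log d) (𝓝[>] 0) (𝓝 1) := by
  have t0 : Tendsto (fun d : ℝ => log d⁻¹) (𝓝[>] 0) atTop :=
    tendsto_log_atTop.comp tendsto_inv_nhdsGT_zero
  refine tendsto_sub_nhds_zero_iff.1 (squeeze_zero_norm' ?_
    (isLittleO_log_id_atTop.tendsto_div_nhds_zero.comp t0))
  filter_upwards [hD.sq hX, hD.rat.eventually_ge_atTop 1, self_mem_nhdsWithin,
    t0.eventually_gt_atTop 0] with d h1 h2 (d0 : 0 < d) h3
  have D0 : 0 < D d := (div_pos_iff_of_pos_right d0).1 (by linarith)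
  have e : log d ≠ 0 := fun e => by simp [e] at h3
  rw [div_sub_one e, ← log_div D0.ne' d0.ne', norm_div, ← norm_neg (log d), ← log_inv,
    Real.norm_of_nonneg h3.le, Real.norm_of_nonneg (log_nonneg h2)]
  exact div_le_div_of_nonneg_right (log_le_log (by linarith)
    ((le_self_pow₀ h2 two_ne_zero).trans h1.1)) h3.le

theorem tsS (hN : TsN S X) (hI : Lg.Inp S) (cen : ∀ f, Adm ![f] → S (MvPolynomial.X f) = 0)
    (hX : ∀ᶠ d in 𝓝[>] (0 : ℝ), X d ≤ log d⁻¹) (hD : Win X D) {h₀ : R4 → ℝ} (rd : Rd h₀)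
    (ne : Fx.kap h₀ ≠ 0) : TsS S h₀ D Fx.kap (Ff (16 * GD.d * qc ^ 4)) := by
  have c0 : 16 * GD.d * qc ^ 4 ≠ 0 := by
    have := GD.b0_pos
    have : (0 : ℝ) < GD.d := by exact_mod_cast GD.d3.trans_lt' (by norm_num)
    unfold qc
    positivity
  refine ⟨rd, ne, ?_, ?_, ?_, fun k hk h hh n hn f g a => Metric.tendsto_nhds.2 fun η η0 => ?_,
    Ff_sym, Ff_tr, Ff_nd c0⟩
  · filter_upwards [hD.rat.eventually_ge_atTop 1, self_mem_nhdsWithin] with d h1 (d0 : 0 < d)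
      using (one_le_div d0).1 h1
  · refine squeeze_zero_norm' ((hD.sq hX).mono fun d e => abs_le_sqrt e.2) ?_
    simpa using (continuous_sqrt.tendsto 0).mono_left nhdsWithin_le_nhds
  · exact hD.rat.inv_tendsto_atTop.congr fun d => inv_div _ _
  · filter_upwards [ts2 hN hI cen hD k hk h hh n hn f g a _ (half_pos η0), self_mem_nhdsWithin]
      with d h1 (d0 : 0 < d)
    exact (dist_eq_norm _ _).trans_lt ((h1 d ⟨half_le_self d0.le, le_rfl⟩).trans_lt (half_lt_self η0))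

theorem exists_win (tX : Tendsto X (𝓝[>] 0) atTop) : ∃ D, Win X D ∧ ∀ d > 0, ∀ c,
    (∀ d' ∈ Icc (d / 2) d, (2 * c) ^ 2 ≤ X d') → c * d ≤ D d := by
  have b : ∀ d, BddBelow ((fun d' => √(X d') / 2) '' Icc (d / 2) d) := fun d =>
    ⟨0, by rintro _ ⟨x, -, rfl⟩; positivity⟩
  have l : ∀ d > 0, ∀ c, (∀ d' ∈ Icc (d / 2) d, (2 * c) ^ 2 ≤ X d') →
      c ≤ sInf ((fun d' => √(X d') / 2) '' Icc (d / 2) d) := fun d d0 c e =>
    le_csInf ⟨_, d, ⟨half_le_self d0.le, le_rfl⟩, rfl⟩ (by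
      rintro _ ⟨x, hx, rfl⟩
      linarith [le_sqrt_of_sq_le (e x hx)])
  have t : ∀ c, ∀ᶠ d in 𝓝[>] (0 : ℝ), ∀ d' ∈ Icc (d / 2) d, c ≤ X d' := fun c => by
    filter_upwards [ev_io2 (tX.eventually_ge_atTop c), self_mem_nhdsWithin] with d h (d0 : 0 < d) x hx
      using h x ⟨(half_pos d0).trans_le hx.1, hx.2⟩
  refine ⟨fun d => sInf ((fun d' => √(X d') / 2) '' Icc (d / 2) d) * d, ⟨tendsto_atTop.2 fun c => ?_,
    ?_⟩, fun d d0 c e => mul_le_mul_of_nonneg_right (l d d0 c e) d0.le⟩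
  · filter_upwards [t _, self_mem_nhdsWithin] with d h (d0 : 0 < d)
    rw [mul_div_cancel_right₀ _ d0.ne']
    exact l d d0 c h
  · filter_upwards [t 0, self_mem_nhdsWithin] with d h (d0 : 0 < d) x hx
    have x0 := (half_pos d0).trans_le hx.1
    have a1 := csInf_le (b d) ⟨x, hx, rfl⟩
    have a2 := l d d0 0 fun y hy => by simpa using h y hy
    rw [← sq_sqrt (h x hx)]
    refine pow_le_pow_left₀ (by positivity) ?_ 2
    rw [div_le_iff₀ x0]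
    nlinarith [hx.1, sqrt_nonneg (X x)]

theorem exists_rd : ∃ h, Rd h ∧ Fx.kap h ≠ 0 := by
  have c : ContDiff ℝ 1 fun x : R4 => expNegInvGlue (8⁻¹ - ‖x‖ ^ 2) :=
    expNegInvGlue.contDiff.comp (contDiff_const.sub (contDiff_norm_sq ℝ))
  have s : tsupport (fun x : R4 => expNegInvGlue (8⁻¹ - ‖x‖ ^ 2)) ⊆ ball 0 2⁻¹ :=
    (closure_minimal (s := Function.support _) (t := {x | ‖x‖ ^ 2 ≤ 8⁻¹}) (fun x hx => not_lt.1 fun e : 8⁻¹ < ‖x‖ ^ 2 =>
      Function.mem_support.1 hx (expNegInvGlue.zero_of_nonpos (by linarith))) (isClosed_le (by fun_prop)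
        continuous_const)).trans fun x hx => mem_ball_zero_iff.2
      (lt_of_pow_lt_pow_left₀ 2 (by norm_num) (lt_of_le_of_lt hx (by norm_num)))
  exact ⟨_, ⟨c, s.trans (ball_subset_ball (by norm_num)), fun x y e => by rw [e]⟩,
    (Fx.kap_pos c.continuous s (fun _ => expNegInvGlue.nonneg _) fun e =>
      (expNegInvGlue.pos_of_pos (by simp)).ne' (congrFun e 0)).ne'⟩

end Pool.Agent.Lib.MP_7f377f_mp.Ope

namespace Pool.Agent.Lib.MP_7f377f_mp.RG.Q4.En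

open Filter Topology YM7 Pur Sg Br Ope

variable [GD]

/-- the two scale law in the window of the renormalisation group -/
theorem two_scale {G : Gl} {β : ℕ × ℕ → ℝ} (o : G.Oks) (hβ : G.Tus β) {U : Ultrafilter (ℕ × ℕ)}
    {S₀ : ∀ {k : ℕ}, (Fin k → R4 → ℝ) → ℝ} {S : Pol →ₗ[ℂ] ℂ}
    (hL : L6.Lim (Fi.tr haar) (atTop ×ˢ atTop) G.nn G.aa β U S₀ S) (hI : Lg.Inp S)
    (cen : ∀ f, Adm ![f] → S (MvPolynomial.X f) = 0) : ∃ D : ℝ → ℝ,
      ((∀ᶠ d in 𝓝[>] (0 : ℝ), D d ^ 2 ≤ d) ∧ ∀ q : ℕ, ∀ᶠ d in 𝓝[>] (0 : ℝ),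
        ∀ l, d * 3 ^ G.e l ≤ G.Q l ^ q → G.Q l ^ q * d ≤ D d) ∧
      Tendsto (fun d => Real.log (D d) / Real.log d) (𝓝[>] 0) (𝓝 1) ∧
      Ts2 S D Fx.kap (Ff (16 * GD.d * Ope.qc ^ 4)) ∧
      ∀ h₀, Rd h₀ → Fx.kap h₀ ≠ 0 → TsS S h₀ D Fx.kap (Ff (16 * GD.d * Ope.qc ^ 4)) := by
  obtain ⟨X, hA, hQ⟩ := afu o hβ hL
  have hN := tsN hA
  obtain ⟨-, -, -, -, tX, hX, -⟩ := hA
  obtain ⟨D, hD, hl⟩ := exists_win tX
  refine ⟨D, ⟨(hD.sq hX).mono fun _ e => e.2, fun q => ?_⟩, hD.lg hX, ts2 hN hI cen hD,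
    fun h₀ => tsS hN hI cen hX hD⟩
  filter_upwards [ev_io2 (hQ (2 * q + 1)), self_mem_nhdsWithin] with d h1 (d0 : 0 < d) l h2
  have q1 : 1 ≤ G.Q l := (o 0).1.Q1 l
  have q4 : 4 ≤ G.Q l := (o 0).1.cQ l (by norm_num)
  refine hl d d0 _ fun x hx => le_trans ?_ (h1 x ⟨(half_pos d0).trans_le hx.1, hx.2⟩ l
    ((mul_le_mul_of_nonneg_right hx.2 (by positivity)).trans (h2.trans
      (pow_le_pow_right₀ q1 (by omega)))))
  rw [pow_succ' _ (2 * q), mul_pow, ← pow_mul, mul_comm q]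
  exact mul_le_mul_of_nonneg_right (by linarith) (by positivity)

end Pool.Agent.Lib.MP_7f377f_mp.RG.Q4.En
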