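import Pool.Agent.Lib.MP_7f377f_mp.G.YGDefs

/-! Change of the normalisation of the field. -/

noncomputable section

namespace Pool.Agent.Lib.MP_7f377f_mp.YG

open MeasureTheory MvPolynomial Filter Topology Real

/-- multiplication of all test functions by `c` -/
def sc (c : ℝ) : Fp →ₐ[ℂ] Fp := rename fun f => c • f

variable {c : ℝ} {k : ℕ}

theorem sc_sc (c c' : ℝ) (Z : Fp) : sc c (sc c' Z) = sc (c * c') Z := by
  simp only [sc, rename_rename, Function.comp_def, smul_smul]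

theorem sc_one (Z : Fp) : sc 1 Z = Z := by
  simp only [sc, one_smul]
  exact rename_id_apply Z

theorem sc_fld (f : Fin k → R4 → ℝ) : sc c (fld f) = fld fun i => c • f i := by
  simp only [sc, fld, map_prod, rename_X]

theorem ts_smul (f : R4 → ℝ) : tsupport (c • f) ⊆ tsupport f :=
  closure_mono fun _ hy => right_ne_zero_of_mul hy

theorem Adm.smul {f : Fin k → R4 → ℝ} (h : Adm f) : Adm fun i => c • f i :=
  ⟨fun i => ⟨(h.1 i).1.mono' ((subset_tsupport _).trans (ts_smul _)), (h.1 i).2.const_smul c⟩,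
    fun _ _ e => (h.2 e).mono (ts_smul _) (ts_smul _)⟩

theorem sc_loc {O : Set R4} {Z : Fp} (h : Z ∈ Loc O) : sc c Z ∈ Loc O := by
  induction h using Submodule.span_induction with
  | mem x hx =>
    obtain ⟨k, f, f1, f2, rfl⟩ := hx
    exact Submodule.subset_span ⟨k, _, f1.smul, fun i => (ts_smul _).trans (f2 i), (sc_fld f).symm⟩
  | zero => rw [map_zero]; exact Submodule.zero_mem _
  | add x y _ _ hx hy => rw [map_add]; exact Submodule.add_mem _ hx hy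
  | smul a x _ hx => rw [map_smul]; exact Submodule.smul_mem _ _ hx

theorem sc_move (v : R4) (Z : Fp) : sc c (move v Z) = move v (sc c Z) := by
  simp only [sc, move, rename_rename]
  rfl

theorem sc_bar (μ : Fin 4) (Z : Fp) : sc c (bar μ Z) = bar μ (sc c Z) := by
  simp only [sc, bar, map_rename, rename_rename]
  rfl

theorem sc_osp (μ : Fin 4) (Y Z : Fp) : sc c (osp μ Y Z) = osp μ (sc c Y) (sc c Z) := by
  rw [osp, osp, map_mul, sc_bar]

theorem sc_ins {r : ℕ} (B : Fin r → Fp) (Z : Fp) :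
    sc c (ins B Z) = ins (fun i => sc c (B i)) (sc c Z) := by
  simp only [ins, map_sum, sc_osp, map_mul]

theorem Quantum.sc {H : Type} [NormedAddCommGroup H] [InnerProductSpace ℂ H] [CompleteSpace H]
    {W : Fp → ℂ} (h : Quantum H W) (hc : c ≠ 0) : Quantum H fun Z => W (sc c Z) := by
  obtain ⟨Ψ, T, h1, h2, h3, h4⟩ := h
  refine ⟨fun Z => Ψ (YG.sc c Z), T, ⟨fun x y => by rw [map_add, h1.1], fun a x => by
    rw [map_smul, h1.2]⟩, h2.mono ?_, fun Z hZ => ⟨fun Y hY => ?_, fun v hv => ?_⟩, ?_⟩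
  · rintro _ ⟨Z, hZ, rfl⟩
    exact ⟨YG.sc c⁻¹ Z, sc_loc hZ, by simp only [sc_sc, mul_inv_cancel₀ hc, sc_one]⟩
  · simp only [sc_osp]
    exact (h3 _ (sc_loc hZ)).1 _ (sc_loc hY)
  · simp only [sc_move]
    exact (h3 _ (sc_loc hZ)).2 v hv
  · simpa only [map_one] using h4

/-- the conclusion of the main theorem for the lattice expectations `V` -/
def Out (V : ℝ → ℕ+ → ℝ → Fp → ℂ) (c₁ c₂ : ℝ) (d : ℕ) : Prop :=
  ∃ (n : ℕ → ℕ+) (a b : ℕ → ℝ) (S W : Fp → ℂ) (r : ℕ → ℕ) (B : ∀ j, Fin (r j) → Fp),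
    Tendsto a atTop (𝓝[>] 0) ∧ Tendsto (fun j => a j * n j) atTop atTop ∧
    Tendsto (fun j => b j / log (a j)⁻¹) atTop (𝓝 c₁) ∧
    (∀ (j : ℕ) i, B j i ∈ Loc (Fut 0 j)) ∧
    (∀ Z ∈ Loc Set.univ, Tendsto (fun j => V (b j) (n j) (a j) Z) atTop (𝓝 (S Z)) ∧
      Tendsto (fun j => S (ins (B j) Z)) atTop (𝓝 (W Z)) ∧ (∀ᶠ j in atTop, ins (B j) Z ∈ Loc Set.univ) ∧
      (∀ v, W (move v Z) = W Z) ∧ ∀ μ, W (bar μ Z) = starRingEnd ℂ (W Z)) ∧
    (∀ μ, ∀ Z ∈ Loc (Fut μ 0), 0 ≤ (W (osp μ Z Z)).re) ∧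
    (∀ k R, ∀ δ > 0, ∃ C : ℝ, ∀ (f : Fin k → R4 → ℝ) (L : Fin k → NNReal), Adm f →
      (∀ i, LipschitzWith (L i) (f i) ∧ ∀ y, f i y ≠ 0 → ‖y‖ ≤ R) →
      (∀ i j, i ≠ j → ∀ x y, f i x ≠ 0 → f j y ≠ 0 → δ ≤ dist x y) →
      ‖W (fld f)‖ ≤ C * ∏ i, L i) ∧
    (∀ k (f : Fin k → R4 → ℝ), Adm f →
      Tendsto (fun d : ℝ => (log d⁻¹ : ℂ) ^ k * W (fld fun i y => f i (d⁻¹ • y))) (𝓝[>] 0)
        (𝓝 (c₂ ^ k * ∫ y : Fin k → R4, (∏ i, f i (y i)) * free d y : ℝ))) ∧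
    (∀ y : Fin 2 → R4, y 0 ≠ y 1 → free d y = 3 * d / ‖y 0 - y 1‖ ^ 8) ∧
    ∃ (H : Type) (_ : NormedAddCommGroup H) (_ : InnerProductSpace ℂ H) (_ : CompleteSpace H),
      Quantum H W

theorem Out.sc {V V' : ℝ → ℕ+ → ℝ → Fp → ℂ} {c₁ c₂ : ℝ} {d : ℕ} (h : Out V c₁ c₂ d) (hc : 0 < c)
    (e : ∀ b n a Z, V' (c * b) n a Z = V b n a (sc c⁻¹ Z)) : Out V' (c * c₁) (c⁻¹ * c₂) d := by
  obtain ⟨n, a, b, S, W, r, B, h1, h2, h3, h4, h5, h6, h7, h8, h9, H, i1, i2, i3, hQ⟩ := h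
  have e1 : ∀ j Z, YG.sc c⁻¹ (ins (fun i => YG.sc c (B j i)) Z) = ins (B j) (YG.sc c⁻¹ Z) :=
    fun j Z => by simp only [sc_ins, sc_sc, inv_mul_cancel₀ hc.ne', sc_one]
  refine ⟨n, a, fun j => c * b j, fun Z => S (YG.sc c⁻¹ Z), fun Z => W (YG.sc c⁻¹ Z), r,
    fun j i => YG.sc c (B j i), h1, h2, by simpa only [mul_div_assoc] using h3.const_mul c,
    fun j i => sc_loc (h4 j i), fun Z hZ => ?_, fun μ Z hZ => ?_, fun k R δ δ0 => ?_,
    fun k f hf => ?_, h9, H, i1, i2, i3, hQ.sc (inv_ne_zero hc.ne')⟩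
  · obtain ⟨a1, a2, a3, a4, a5⟩ := h5 _ (sc_loc (c := c⁻¹) hZ)
    refine ⟨by simpa only [e] using a1, by simpa only [e1] using a2, a3.mono fun j hj => ?_,
      fun v => by simp only [sc_move, a4], fun μ => by simp only [sc_bar, a5]⟩
    have := sc_loc (c := c) hj
    rwa [← e1, sc_sc, mul_inv_cancel₀ hc.ne', sc_one] at this
  · simp only [sc_osp]
    exact h6 μ _ (sc_loc hZ)
  · obtain ⟨C, hC⟩ := h7 k R δ δ0
    refine ⟨C * c⁻¹ ^ k, fun f L f1 f2 f3 => ?_⟩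
    have := hC (fun i => c⁻¹ • f i) (fun i => ‖c⁻¹‖₊ * L i) f1.smul
      (fun i => ⟨(lipschitzWith_smul c⁻¹).comp (f2 i).1, fun y hy =>
        (f2 i).2 y (right_ne_zero_of_mul hy)⟩)
      fun i j hij x y hx hy => f3 i j hij x y (right_ne_zero_of_mul hx) (right_ne_zero_of_mul hy)
    simp only [sc_fld]
    refine this.trans_eq ?_
    simp [Finset.prod_mul_distrib, abs_of_pos hc, mul_assoc]
  · have := h8 k _ (hf.smul (c := c⁻¹))
    simp only [sc_fld]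
    refine (congrArg (fun z : ℝ => Tendsto _ _ (𝓝 (z : ℂ))) ?_).mp this
    simp only [Pi.smul_apply, smul_eq_mul, Finset.prod_mul_distrib, Finset.prod_const,
      Finset.card_univ, Fintype.card_fin, mul_assoc, integral_const_mul, mul_pow]
    ring

end Pool.Agent.Lib.MP_7f377f_mp.YG
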