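import Pool.Agent.Lib.MP_7f377f_mp.G.YGDefs

/-! The stress tensor and the leading terms of the operator product expansion. -/

noncomputable section

namespace Pool.Agent.Lib.MP_7f377f_mp.YG

open MeasureTheory MvPolynomial Filter Topology Real Asymptotics
open scoped ContDiff

/-- truncated correlation -/
def cov (W : Fp → ℂ) (Y Z : Fp) : ℂ := W (Y * Z) - W Y * W Z

/-- derivative in the direction of an axis -/
def pd (μ : Fin 4) (f : R4 → ℝ) (y : R4) : ℝ := lineDeriv ℝ f y (EuclideanSpace.single μ 1)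

/-- the Ward identity: `T μ ν f Z`, the correlation of the tensor field smeared with `f` and `Z`,
is conserved away from the other fields and generates the translations -/
def Ward (W : Fp → ℂ) (T : Fin 4 → Fin 4 → (R4 → ℝ) → Fp → ℂ) : Prop :=
  ∀ (k : ℕ) (g : Fin k → R4 → ℝ) (ξ : R4 → ℝ) (e : Fin k → ℝ) (ν : Fin 4), Adm g →
    (∀ i, ContDiff ℝ ∞ (g i) ∧ ∀ᶠ y in 𝓝ˢ (tsupport (g i)), ξ y = e i) → ContDiff ℝ ∞ ξ →
    HasCompactSupport ξ →
    ∑ μ, T μ ν (pd μ ξ) (fld g) = ∑ i, e i * W (fld (Function.update g i (pd ν (g i))))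

/-- the operator product expansion up to dimension four -/
def Ope (κ : ℝ) (W : Fp → ℂ) (T : Fin 4 → Fin 4 → (R4 → ℝ) → Fp → ℂ) : Prop :=
  ∀ (u : R4 → ℝ) (p : R4), (∀ x y, dist x p = dist y p → u x = u y) → Adm ![u, fun y => u (-y)] →
    ∃ c : ℝ → ℂ, c =o[𝓝[>] 0] log ∧ ∀ f, Adm ![f] → ∀ Z ∈ Loc (tsupport f)ᶜ,
      Tendsto (fun d : ℝ => (log d ^ 2 / d ^ 4 : ℝ) * (∫ z, f z *
        cov W (X (fun y => u (d⁻¹ • (y - z))) * X fun y => u (d⁻¹ • (z - y))) Z) - c d * cov W (X f) Z)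
        (𝓝[>] 0) (𝓝 (∑ μ, ∑ ν,
          (κ * ∫ x, ∫ y, u x * u y * ((x + y) μ * (x + y) ν / ‖x + y‖ ^ 6) : ℝ) * T μ ν f Z))

/-- a symmetric tensor field whose trace is a multiple of the scalar field, with the Ward identity
and the operator product expansion -/
def Stress (κ : ℝ) (W : Fp → ℂ) : Prop := ∃ (T : Fin 4 → Fin 4 → (R4 → ℝ) → Fp → ℂ) (c : ℂ),
  (∀ f Z, (∀ μ ν, T μ ν f Z = T ν μ f Z) ∧ ∑ μ, T μ μ f Z = c * cov W (X f) Z) ∧
    Ward W T ∧ Ope κ W T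

end Pool.Agent.Lib.MP_7f377f_mp.YG
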