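import Pool.Agent.Lib.MP_7f377f_mp.G.ScDef
import Pool.Agent.Lib.MP_7f377f_mp.G.YTDefs
import Pool.Agent.Lib.MP_7f377f_mp.G.YGScale
import Pool.Agent.Lib.MP_7f377f_mp.StK
import Pool.Agent.Lib.MP_7f377f_mp.StS

/-! The stress tensor: from the interfaces to the final statement. -/

noncomputable section

namespace Pool.Agent.Lib.MP_7f377f_mp

open MeasureTheory Filter Topology Set Real MvPolynomial Asymptotics Metric
open scoped ContDiff

theorem YG.pd_smul (μ : Fin 4) (c : ℝ) (f : YG.R4 → ℝ) : YG.pd μ (c • f) = c • YG.pd μ f :=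
  funext fun _ => deriv_const_mul_field _

theorem YG.Stress.sc {κ c : ℝ} {W : YG.Fp → ℂ} (h : YG.Stress κ W) (hc : c ≠ 0) :
    YG.Stress (c ^ 2 * κ) fun Z => W (YG.sc c Z) := by
  obtain ⟨T, a, h1, h2, h3⟩ := h
  have hc' : (c : ℂ) ≠ 0 := Complex.ofReal_ne_zero.2 hc
  have e : ∀ Y Z, YG.cov (fun Z => W (YG.sc c Z)) Y Z = YG.cov W (YG.sc c Y) (YG.sc c Z) :=
    fun Y Z => by simp only [YG.cov, map_mul]
  have x : ∀ f, YG.sc c (X f) = X (c • f) := fun f => rename_X _ _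
  refine ⟨fun μ ν f Z => (c : ℂ)⁻¹ * T μ ν (c • f) (YG.sc c Z), (c : ℂ)⁻¹ * a,
    fun f Z => ⟨fun μ ν => congrArg _ ((h1 _ _).1 μ ν), ?_⟩, fun k g ξ b ν g1 g2 g3 g4 => ?_,
    fun u p u1 u2 => ?_⟩
  · rw [← Finset.mul_sum, (h1 _ _).2, e, x, mul_assoc]
  · have := h2 k _ (c • ξ) (fun i => c * b i) ν (g1.smul (c := c)) (fun i => ⟨(g2 i).1.const_smul c,
      ((g2 i).2.filter_mono (nhdsSet_mono (YG.ts_smul _))).mono fun y hy => by simp [hy]⟩)
      (g3.const_smul c) g4.smul_left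
    simp only [YG.pd_smul, Complex.ofReal_mul, mul_assoc, ← Finset.mul_sum] at this
    simp only [← Finset.mul_sum, YG.sc_fld, this, inv_mul_cancel_left₀ hc',
      fun i v => (funext (Function.apply_update (fun _ (f : YG.R4 → ℝ) => c • f) g i v) :
        (fun j => c • Function.update g i v j) = _)]
  · obtain ⟨b, b1, b2⟩ := h3 (c • u) p (fun x y e => by simp [u1 x y e])
      (by convert u2.smul (c := c) using 1; funext i; fin_cases i <;> rfl)
    refine ⟨fun d => (c : ℂ)⁻¹ * b d, b1.const_mul_left _, fun f hf Z hZ => ?_⟩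
    convert (b2 (c • f) (by convert hf.smul (c := c) using 1; funext i; fin_cases i; rfl) _
      (Submodule.span_mono (by
        exact fun _ ⟨k, g, g1, g2, g3⟩ => ⟨k, g, g1, fun i => (g2 i).trans
          (compl_subset_compl.2 (YG.ts_smul _)), g3⟩) (YG.sc_loc (c := c) hZ))).const_mul
          (c : ℂ)⁻¹ using 2
    · simp only [e, map_mul, x, Pi.smul_apply, smul_eq_mul, Complex.ofReal_mul, mul_assoc,
        integral_const_mul, mul_sub, mul_left_comm _ (c : ℂ), mul_inv_cancel_left₀ hc']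
      rfl
    · simp only [Finset.mul_sum, Pi.smul_apply, smul_eq_mul, mul_mul_mul_comm c _ c, mul_assoc,
        integral_const_mul]
      refine Finset.sum_congr rfl fun μ _ => Finset.sum_congr rfl fun ν _ => ?_
      push_cast
      ring

namespace Ope
variable [Pool.Agent.Lib.MP_7f377f_mp.GD]
set_option linter.unusedSectionVars false

open YM7 Pur

theorem rad_form {u : R4 → ℝ} {p : R4} (hr : ∀ x y, dist x p = dist y p → u x = u y)
    (ha : Adm ![u, fun y => u (-y)]) : ∃ (ρ : ℝ) (n : R4) (h : R4 → ℝ), 0 < ρ ∧ ‖n‖ = 1 ∧ Rd h ∧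
      ∀ y, hn h n y = u (ρ • y) := by
  obtain ⟨⟨-, a1⟩, -, a2⟩ := adm_two.1 ha
  wlog p0 : p ≠ 0 generalizing p
  · have := Fx.rad_pair hr a2
    rw [not_not.1 p0, norm_zero, ball_zero, subset_empty_iff, tsupport_eq_empty_iff] at this
    exact ‹∀ {p : R4}, _ → p ≠ 0 → _› (p := ee 0) (by simp [this]) (by simp)
  have ρ0 := norm_pos_iff.2 p0
  refine ⟨‖p‖, ‖p‖⁻¹ • p, fun y => u (‖p‖ • y + p), ρ0, norm_smul_inv_norm p0,
    ⟨a1.comp (by fun_prop), fun y hy => ?_, fun x y e => hr _ _ (by simp [norm_smul, e])⟩,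
    fun y => by simp [hn, smul_sub, smul_smul, ρ0.ne']⟩
  have := Fx.rad_pair hr a2 (tsupport_comp (θ := fun y => ‖p‖ • y + p) (by fun_prop) hy)
  simpa [norm_smul, ρ0] using this

theorem stress_ex {S W : Pol →ₗ[ℂ] ℂ} {D M : ℝ → ℝ} {F : Fr} {T : (Pol →ₗ[ℂ] ℂ) → Tn} {C : ℝ}
    (o : Out S D Fx.kap F M T) (h : COut S C M T) (hC : C ≠ 0) (hW : Sub S W) :
    ∃ s t : ℂ, ∀ T' : Tn, (∀ μ ν f Z, Dt f Z →
      T' μ ν f Z = s * T W μ ν f Z + if μ = ν then t * cv W (X f) Z else 0) → YG.Ward W T' ∧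
        YG.Ope (C * π ^ 2 / (8 * GD.d * (48 / (11 * GD.b0)) ^ 2)) W T' := by
  classical
  obtain ⟨m, c, m0, hm, hw⟩ := h
  have := GD.b0_pos
  have : 0 < GD.d := GD.d3.trans_lt' three_pos
  set κ := C * π ^ 2 / (8 * GD.d * (48 / (11 * GD.b0)) ^ 2) with hκ
  have k0 : (κ : ℂ) ≠ 0 := Complex.ofReal_ne_zero.2 (by positivity)
  have m1 : (m : ℂ) ≠ 0 := Complex.ofReal_ne_zero.2 m0
  refine ⟨(m * κ)⁻¹, (m * κ : ℂ)⁻¹ * c, fun T' hT => ⟨fun k g ξ b ν g1 g2 g3 g4 => ?_,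
    fun u p u1 u2 => ?_⟩⟩
  · have d : ∀ μ, Dt (YG.pd μ ξ) (YG.fld g) := fun μ =>
      ⟨adm_one.2 ⟨St.pd_cpt g4, (Fx.pd_smooth g3 μ).of_le (by simp)⟩, mon_mem g1 fun i y hy =>
        St.pd_far ((g2 i).2.filter_mono (nhds_le_nhdsSet hy))⟩
    simp only [hT _ _ _ _ (d _), Finset.sum_add_distrib, Finset.sum_ite_eq', Finset.mem_univ, if_true,
      ← Finset.mul_sum]
    rw [mul_assoc _ c, ← mul_add, inv_mul_eq_iff_eq_mul₀ (mul_ne_zero m1 k0), ← Complex.ofReal_mul,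
      hκ, ← mul_div_assoc, ← mul_assoc]
    exact hw W hW k g ξ b ν g1 g2 g3 g4
  obtain ⟨ρ, n, h, ρ0, n1, h1, h2⟩ := rad_form u1 u2
  obtain ⟨a, a1, a2⟩ := o.ope h h1
  obtain ⟨B, hB⟩ := Fx.kap_tensor h1.1.continuous h1.2.1 h1.2.2 n1
  have t : Tendsto (fun d => ρ * d) (𝓝[>] 0) (𝓝[>] 0) :=
    tendsto_nhdsWithin_iff.2 ⟨tendsto_nhdsWithin_of_tendsto_nhds (Continuous.tendsto'
      (by fun_prop) _ _ (by simp)), eventually_mem_nhdsWithin.mono fun d hd => mul_pos ρ0 hd⟩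
  have l0 : ∀ᶠ d in 𝓝[>] (0 : ℝ), log d ≠ 0 :=
    (tendsto_log_nhdsGT_zero.eventually_lt_atBot 0).mono fun _ => ne_of_lt
  have l1 : Tendsto (fun d => log d / log (ρ * d)) (𝓝[>] 0) (𝓝 1) := by
    have := (((tendsto_inv_atBot_zero.comp tendsto_log_nhdsGT_zero).const_mul (log ρ)).add_const
      1).inv₀ (by simp)
    rw [mul_zero, zero_add, inv_one] at this
    refine this.congr' ?_
    filter_upwards [l0, self_mem_nhdsWithin] with d e (d0 : 0 < d)
    rw [log_mul ρ0.ne' d0.ne', Function.comp]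
    field_simp
  have l2 : Tendsto (fun d => log d ^ 2 / M (ρ * d)) (𝓝[>] 0) (𝓝 m⁻¹) := by
    refine (by simpa using (l1.pow 2).mul ((hm.comp t).inv₀ m0) : Tendsto _ _ (𝓝 m⁻¹)).congr' ?_
    filter_upwards [t.eventually l0] with d e
    field_simp
  refine ⟨fun d => (ρ ^ 4 * (log d ^ 2 / M (ρ * d) * a (ρ * d)) : ℝ) -
    ρ ^ 4 * c * (Fx.kap h + 4 * B) / m, .sub ?_ ?_, fun f hf Z hZ => ?_⟩
  · refine Complex.isLittleO_ofReal_left.2 (.const_mul_left ((isLittleO_iff_tendsto'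
      (l0.mono fun _ e e' => absurd e' e)).2 ?_) _)
    refine (mul_zero (1 : ℝ) ▸ l1.mul (a1.comp t)).congr' ?_
    filter_upwards [l0, t.eventually l0] with d e e'
    rw [Function.comp]
    field_simp
  · exact isLittleO_const_left.2 (.inr (tendsto_abs_atBot_atTop.comp tendsto_log_nhdsGT_zero))
  have s : ∀ μ ν, ∫ x, ∫ y, u x * u y * ((x + y) μ * (x + y) ν / ‖x + y‖ ^ 6) =
      ρ ^ 4 * (Fx.kap h * (n μ * n ν) + if μ = ν then B else 0) := fun μ ν => by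
    have i : ∀ G : R4 → ℝ, ∫ x, G x = ρ ^ 4 * ∫ x, G (ρ • x) := fun G => by
      rw [Measure.integral_comp_smul]
      simp [abs_of_pos ρ0, ρ0.ne']
    rw [← hB, i]
    refine congrArg _ (congrArg _ (funext fun x => ?_))
    rw [i, ← integral_const_mul]
    refine congrArg _ (funext fun y => ?_)
    simp only [← h2, hn, ← smul_add, norm_smul, PiLp.smul_apply, smul_eq_mul,
      Real.norm_of_nonneg ρ0.le]
    field_simp
  have q : ∑ μ, ((n μ * n μ : ℝ) : ℂ) = 1 := by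
    rw [← Complex.ofReal_sum, ← Complex.ofReal_one, ← one_pow 2, ← n1,
      EuclideanSpace.real_norm_sq_eq]
    simp only [sq]
  have dt : Dt f Z := ⟨hf, hZ⟩
  refine (congrArg (fun z => Tendsto _ _ (𝓝 z)) ?_).mp (((((Complex.continuous_ofReal.tendsto
    _).comp l2).mul ((a2 W hW n n1 f Z dt).comp t)).const_mul (ρ ^ 4 : ℂ)).add_const
      (ρ ^ 4 * c * (Fx.kap h + 4 * B) / m * cv W (X f) Z)) |>.congr' ?_
  · have tr := o.tr W hW f Z dt
    simp only [s, hT _ _ _ _ dt]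
    simp [Fin.sum_univ_four] at q tr ⊢
    field_simp
    linear_combination (-ρ ^ 4 * (Fx.kap h) * c * cv W (X f) Z) * q - ρ ^ 4 * B * tr
  · filter_upwards [t.eventually o.ne, self_mem_nhdsWithin] with d e (d0 : 0 < d)
    have e1 : (M (ρ * d) : ℂ) ≠ 0 := Complex.ofReal_ne_zero.2 e
    have e2 : (ρ : ℂ) ≠ 0 := Complex.ofReal_ne_zero.2 ρ0.ne'
    have e3 : (d : ℂ) ≠ 0 := Complex.ofReal_ne_zero.2 d0.ne'
    simp only [Function.comp, Ai, pr, h2, smul_smul, mul_inv, mul_inv_cancel_left₀ ρ0.ne']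
    change _ = _ * (∫ z, f z * cv W _ Z) - _ * cv W _ Z
    push_cast
    field_simp
    ring

theorem stress_of {S W : Pol →ₗ[ℂ] ℂ} {D M : ℝ → ℝ} {F : Fr} {T : (Pol →ₗ[ℂ] ℂ) → Tn} {C : ℝ}
    (o : Out S D Fx.kap F M T) (h : COut S C M T) (hC : C ≠ 0) (hW : Sub S W) :
    YG.Stress (C * π ^ 2 / (8 * GD.d * (48 / (11 * GD.b0)) ^ 2)) W := by
  classical
  obtain ⟨s, t, e⟩ := stress_ex o h hC hW
  refine ⟨fun μ ν f Z => s * (if Dt f Z then T W μ ν f Z else 0) +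
    if μ = ν then t * cv W (X f) Z else 0, 4 * t, fun f Z =>
      ⟨fun μ ν => by simp only [o.sym W μ ν, eq_comm], ?_⟩, e _ fun μ ν f Z a => by rw [if_pos a]⟩
  by_cases e : Dt f Z <;> simp [e, ← Finset.mul_sum, Finset.sum_add_distrib, o.tr W hW f Z,
    YG.cov, cv, mul_assoc]

end Ope

end Pool.Agent.Lib.MP_7f377f_mp
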