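import Pool.Agent.Lib.MP_7f377f_mp.G.S15A
import Pool.Agent.Lib.MP_7f377f_mp.G.CaKZ
import Pool.Agent.Lib.MP_7f377f_mp.G.CaS
import Pool.Agent.Lib.MP_7f377f_mp.G.SbZ
import Pool.Agent.Lib.MP_7f377f_mp.G.ScE
import Pool.Agent.Lib.MP_7f377f_mp.G.TsT
import Pool.Agent.Lib.MP_7f377f_mp.G.TyZ
import Pool.Agent.Lib.MP_7f377f_mp.G.YTGlue

/-! The stress tensor of the continuum limit. -/

noncomputable section

set_option linter.unusedSectionVars false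
variable [Pool.Agent.Lib.MP_7f377f_mp.GD]

namespace Pool.Agent.Lib.MP_7f377f_mp.RG.Q4.En.Rn

open YM7 Filter Topology Real Pur Set Ope

variable {G : Gl} {β : ℕ × ℕ → ℝ} {U : Ultrafilter (ℕ × ℕ)}
  {S₀ : ∀ {k : ℕ}, (Fin k → R4 → ℝ) → ℝ} {S : Pol →ₗ[ℂ] ℂ} (R : Rn G β U S₀ S)
include R

theorem lm : G.Lm β U S := ⟨R.ok, R.tu, R.inp.st, _, _, S₀, le_rfl, R.ok.fam R.tu, R.lim'⟩

theorem ts : ∃ h₀ D, G.Wl D ∧ TsS S h₀ D Fx.kap (Ff (16 * GD.d * Ope.qc ^ 4)) ∧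
    Ts2 S D Fx.kap (Ff (16 * GD.d * Ope.qc ^ 4)) ∧
    Tendsto (fun d => log (D d) / log d) (𝓝[>] 0) (𝓝 1) :=
  let ⟨h, r, n⟩ := exists_rd
  let ⟨D, w, l, t2, t⟩ := two_scale R.ok R.tu R.lim' R.inp fun _ => R.lm.cen
  ⟨h, D, w, t h r n, t2, l⟩

theorem pin {h₀ : R4 → ℝ} {D : ℝ → ℝ} (r : Rd h₀) (w : G.Wl D) : PIn S h₀ D (1 / 100) :=
  R.lm.pin w r

theorem vE : ∀ Z ∈ net.loc univ, Tendsto (G.vE β · Z) U (𝓝 (S Z)) :=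
  fun _ => R.ok.vE_lim R.tu le_rfl R.lim'

/-- the tensor field and its Ward identity -/
theorem main : ∃ h₀ D M T, BIn S h₀ D Fx.kap (Ff (16 * GD.d * Ope.qc ^ 4)) (1 / 100) ∧
    Out S D Fx.kap (Ff (16 * GD.d * Ope.qc ^ 4)) M T ∧ COut S (16 * GD.d * Ope.qc ^ 4) M T ∧
    ∀ W, Sub S W → YG.Stress (2 * π ^ 2 * Ope.qc ^ 2) W := by
  obtain ⟨h₀, D, w, t, t2, lg⟩ := R.ts
  have B : BIn S h₀ D Fx.kap _ _ :=
    ⟨R.inp, R.inv, ⟨S₀, R.lim.lift, R.arr⟩, fun _ => R.lm.cen, t, t2, R.pin t.rd w⟩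
  obtain ⟨M, T, o, sl⟩ := B.main
  have d0 : (0 : ℝ) < GD.d := by exact_mod_cast GD.d3.trans_lt' three_pos
  have q0 : 0 < Ope.qc := by have := GD.b0_pos; rw [Ope.qc]; positivity
  have c0 : 16 * (GD.d : ℝ) * Ope.qc ^ 4 ≠ 0 := by positivity
  obtain ⟨V, V', ζ, ζ', L⟩ := R.ok.clat R.tu R.lim.le t.rd R.vE
  have c := endgame ⟨R.inp, R.rot, B.cen, t, o, fre c0, lg,
    cc_of R.inp R.rot R.inv t o (fre c0) sl L⟩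
  refine ⟨h₀, D, M, T, B, o, c, fun W hW => ?_⟩
  convert stress_of o c c0 hW using 1
  rw [← Ope.qc]
  field_simp
  ring

end Pool.Agent.Lib.MP_7f377f_mp.RG.Q4.En.Rn
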