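import Pool.Agent.Lib.MP_7f377f_mp.G.S21A0

/-! Anisotropic chains of tree steps forget their origin. -/

noncomputable section

set_option linter.unusedSectionVars false
variable [Pool.Agent.Lib.MP_7f377f_mp.GD]

namespace Pool.Agent.Lib.MP_7f377f_mp.RG.Q4.Af

open Filter Sd La La.Q

attribute [local irreducible] box lbox

section chain

variable {c Kt K0 l n r : ℕ} {L D κ : ℝ} {d d' : ℕ → Td}

theorem drift_w (h : Chw c Kt K0 l n κ d) (h1 : ∀ i ≤ n, StO r L D κ (d i)) (κ0 : 0 ≤ κ)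
    (κ1 : κ ≤ 1) {a : V} (ha : Cst a) :
    ∀ i ≤ n, |(d i).m a a - (d 0).m a a| ≤ 4 * i * (κ * nd a 0) := by
  intro i hi
  induction i with
  | zero => simp
  | succ i ih =>
    obtain ⟨lam, l1, l2, -⟩ := h.nx i hi
    obtain ⟨k1, k2, -⟩ := h1 i (by omega)
    have k3 := k1 a ha
    have k4 := k2 a ha
    have n0 := Li.nd_nonneg a 0
    have k5 := abs_le.1 (ih (by omega))
    have k6 : |(d i).m1 a a| ≤ 3 * nd a 0 := by
      have := abs_sub_abs_le_abs_sub ((d i).m1 a a) ((d i).m a a)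
      nlinarith
    have k7 : |(lam - 1) * (d i).m1 a a| ≤ κ * (3 * nd a 0) := by rw [abs_mul]; gcongr
    rw [l2, LinearMap.smul_apply, LinearMap.smul_apply, smul_eq_mul]
    push_cast
    rw [abs_le] at *
    constructor <;> linarith [k3.1, k3.2, k7.1, k7.2]

theorem chain_abs_w (h : Chw c Kt K0 l n κ d) (h' : Chw c Kt K0 l n κ d')
    (h1 : ∀ i ≤ n, StO r L D κ (d i)) (h1' : ∀ i ≤ n, StO r L D κ (d' i))
    (h2 : ∀ i ≤ n, StT r L D κ (d i) (d' i)) (κ0 : 0 < κ) (L1 : 1 ≤ L) (hn : n ≤ L)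
    (LD : 24 * L ≤ D) (κ1 : D * κ ≤ 1) (h0 : Cd κ (d 0).m (d' 0).m) : ∀ i ≤ n,
      Cd (9 * L * κ) (d i).m (d' i).m ∧ Df (3 * r) (4 * D * (κ + 2⁻¹ ^ i)) (d i).m (d' i).m ∧
        Tdf (3 * r) (D ^ 2)⁻¹ (D ^ 6 * (κ + 2⁻¹ ^ i)) (d i).T (d' i).T := by
  have κ2 : κ ≤ 2⁻¹ := by nlinarith
  have cd : ∀ i ≤ n, Cd (9 * L * κ) (d i).m (d' i).m := fun i hi a ha => by
    have k1 := abs_le.1 (drift_w h h1 κ0.le (by linarith) ha i hi)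
    have k2 := abs_le.1 (drift_w h' h1' κ0.le (by linarith) ha i hi)
    have k3 := abs_le.1 (h0 a ha)
    have n0 := mul_nonneg κ0.le (Li.nd_nonneg a 0)
    have k4 := mul_le_mul_of_nonneg_right ((Nat.cast_le.2 hi).trans hn) n0
    have k5 := mul_le_mul_of_nonneg_right L1 n0
    rw [abs_le]
    constructor <;> linarith
  have D1 : 24 ≤ D := by linarith
  have p1 : D ≤ D ^ 5 := le_self_pow₀ (by linarith) (by norm_num)
  have ap : ∀ i ≤ n, ∀ η, D / 2 ≤ η → Tdf (3 * r) (D ^ 2)⁻¹ η (d i).T (d' i).T :=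
    fun i hi η hη B δ hB hδ => (norm_sub_le_of_le ((h1 i hi).2.2.2 B δ hB hδ)
      ((h1' i hi).2.2.2 B δ hB hδ)).trans (by nlinarith [pow_nonneg hB.nonneg 3])
  intro i hi
  refine ⟨cd i hi, ?_⟩
  induction i with
  | zero =>
    refine ⟨fun a δ ha => ((abs_sub _ _).trans (add_le_add ((h1 0 hi).2.2.1 a a δ δ ha ha)
      ((h1' 0 hi).2.2.1 a a δ δ ha ha))).trans ?_, ap 0 hi _ ?_⟩
    · nlinarith [mul_le_mul_of_nonneg_right (show 2 * L ≤ 4 * D * (κ + 2⁻¹ ^ 0) by nlinarith)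
        (sq_nonneg δ)]
    · have : D ≤ D ^ 6 := le_self_pow₀ (by linarith) (by norm_num)
      nlinarith
  | succ i ih =>
    obtain ⟨lam, l1, l2, l3⟩ := h.nx i hi
    obtain ⟨lam', l4, l5, l6⟩ := h'.nx i hi
    obtain ⟨i1, i2⟩ := ih (by omega)
    have x0 : (0 : ℝ) < 2⁻¹ ^ i := by positivity
    obtain ⟨k1, k2⟩ := h2 i (by omega) _ (by linarith) (cd i (by omega)) i1
    rw [pow_succ (2⁻¹ : ℝ)]
    generalize (2⁻¹ : ℝ) ^ i = x at *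
    refine ⟨fun a δ ha => ?_, ?_⟩
    · have k3 := (h1' _ hi).2.2.1 a a δ δ ha ha
      rw [l5] at k3
      rw [l2, l5]
      refine (ren_cl (E := ℝ) l1 l4 κ2 (k1 a δ ha) k3).trans ?_
      nlinarith [mul_le_mul_of_nonneg_right (show 2 * (D * (κ + x) / 2 + D * κ) + 4 * κ * L ≤
        4 * D * (κ + x * 2⁻¹) by nlinarith) (sq_nonneg δ)]
    rcases le_total (D ^ 5 * (κ + x)) 1 with y1 | y1
    · intro B δ hB hδ
      have k3 := (h1' _ hi).2.2.2 B δ hB hδ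
      rw [l6] at k3
      rw [l3, l6]
      refine (ren_cl (E := ℂ) (κ := κ) (by exact_mod_cast l1) (by exact_mod_cast l4) κ2
        ((k2 y1 i2).1 B δ hB hδ) k3).trans ?_
      have p2 := mul_le_mul_of_nonneg_right D1 (show 0 ≤ D ^ 5 * (κ + x) by positivity)
      have p3 := mul_le_mul_of_nonneg_right p1 κ0.le
      have p4 : 0 ≤ D ^ 5 * x := by positivity
      have p5 : 0 ≤ D ^ 6 * κ := by positivity
      nlinarith [mul_le_mul_of_nonneg_right (show 2 * (D ^ 6 * (κ + x) / 8 + D ^ 5 * (κ + x)) +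
        4 * κ * (D / 4) ≤ D ^ 6 * (κ + x * 2⁻¹) by nlinarith) (pow_nonneg hB.nonneg 3)]
    · have p5 : 0 ≤ D ^ 6 * κ := by positivity
      exact ap _ hi _ (by nlinarith)

end chain

theorem chain_close_w (c : ℕ) (c1 : 1 ≤ c) : ∃ a0, ∀ Kt ≥ a0, ∃ a1, ∀ K0 ≥ a1, ∃ K1 : ℕ, ∀ Ka : ℕ,
    ∃ K' l0 : ℕ, ∀ l ≥ l0, ∀ d d', Chw c Kt K0 l (S0 l) ((LL l : ℝ) ^ K')⁻¹ d →
      Chw c Kt K0 l (S0 l) ((LL l : ℝ) ^ K')⁻¹ d' → Cd ((LL l : ℝ) ^ K')⁻¹ (d 0).m (d' 0).m →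
        Df (3 * (d 0).r) ((LL l : ℝ) ^ Ka)⁻¹ (d (S0 l)).m (d' (S0 l)).m ∧
        (∀ B δ, Cv (3 * (d 0).r) δ B → δ ≤ ((LL l : ℝ) ^ K1)⁻¹ →
          ‖(d (S0 l)).T B - (d' (S0 l)).T B‖ ≤ ((LL l : ℝ) ^ Ka)⁻¹ * δ ^ 3) ∧
        ∀ a : V, Cv 0 1 a →
          ‖qc (d (S0 l)).ol a a - qc (d' (S0 l)).ol a a‖ ≤ ((LL l : ℝ) ^ Ka)⁻¹ := by
  obtain ⟨a0, H⟩ := (ev_nu c 0).and ((tk0 c).and ((ev_one c).and (ev_two c)))
  refine ⟨a0, fun Kt h0 => (H Kt h0).imp fun a1 H K0 h1 => ⟨K0 * 2, fun Ka => ?_⟩⟩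
  obtain ⟨K, H⟩ := H K0 h1
  obtain ⟨l1, H⟩ := H K le_rfl (K * 1000)
  obtain ⟨l2, H2⟩ := eventually_atTop.1 ((half_S0 (K0 * 17 + Ka)).and
    (pow_le_exp c (K0 * 17 + Ka + (K + c)) c1))
  refine ⟨K0 * 17 + Ka, max l1 l2, fun l hl d d' h h' h0 => ?_⟩
  obtain ⟨g1, g2⟩ := H2 l (le_of_max_le_right hl)
  generalize hκ : ((LL l : ℝ) ^ (K0 * 17 + Ka))⁻¹ = κ at *
  let lv (t : Td) (M : ℕ) : Sd :=
    ⟨t, K, K * 1000, M, 2 * (500 * t.D0) + 1, t.L ^ (K * 1000), t.L ^ (K * 1000)⟩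
  have hv := fun (t : Td) M (e : t.c = c ∧ t.Kt = Kt ∧ t.K0 = K0 ∧ t.l = l)
      (hM : M = LL l ∨ M = 3 * LL l) => H (lv t M) ⟨e.1 ▸ c1, e.2.2.2 ▸ hM, ⟨_, rfl⟩,
    show 1000 * t.D0 ≤ 2 * (500 * t.D0) + 1 by omega, (pow_mul _ _ _).ge, le_rfl,
      le_mul_of_one_le_left (pow_pos (L0 t) _).le one_le_two, le_rfl⟩
        e.1 e.2.1 e.2.2.1 rfl rfl (e.2.2.2 ▸ le_of_max_le_left hl)
  have ee : ∀ t : Td, t.c = c ∧ t.Kt = Kt ∧ t.K0 = K0 ∧ t.l = l → t.r = (d 0).r ∧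
      t.L = LL l ∧ (t.D0 : ℝ) = (LL l : ℝ) ^ K0 ∧ t.L ^ K * t.τ ≤ κ := by
    rintro t ⟨rfl, -, rfl, rfl⟩
    refine ⟨by unfold Td.r; rw [(h.ex 0 (Nat.zero_le _)).2.2.2], rfl, D0_eq _, ?_⟩
    have := L0 t
    rw [← hκ, Td.τ, ← mul_assoc, ← pow_add, Real.exp_neg, ← div_eq_mul_inv, ← one_div]
    refine (div_le_div_iff₀ (Real.exp_pos _) (pow_pos this _)).2 ?_
    rw [one_mul, mul_comm]
    exact (pow_add _ _ _).ge.trans g2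
  have nu := (hv (d 0) _ (h.ex 0 (Nat.zero_le _)) (.inl rfl)).1
  obtain ⟨-, a2, a3, -⟩ := ee _ (h.ex 0 (Nat.zero_le _))
  have L1 := Sd.L1 (d 0)
  have LD : 24 * (d 0).L ^ 1 ≤ (d 0).D0 :=
    up_D nu (by norm_num) (by have := nu.exps; omega)
  have b1 : (1000 : ℝ) ≤ (d 0).L := nu.cL' (by norm_num)
  have b2 : (S0 l : ℝ) ≤ (d 0).L := le_trans (by
    rw [S0, ← (h.ex 0 (Nat.zero_le _)).2.2.2]
    exact Nat.cast_le.2 (Nat.pow_le_pow_right (Nat.pos_of_ne_zero fun e => by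
      have := nu.r1; simp [Td.r, lv, e] at this) (by norm_num))) nu.r_le_L
  rw [a3, pow_one] at LD
  rw [a2] at L1 LD b1 b2
  have b3 : ((LL l : ℝ) ^ K0) ^ 17 * κ = ((LL l : ℝ) ^ Ka)⁻¹ := by
    rw [← hκ, pow_add, pow_mul]; field_simp
  have b4 : ((LL l : ℝ) ^ Ka)⁻¹ ≤ 1 := inv_le_one_of_one_le₀ (one_le_pow₀ L1)
  have κ0 : 0 < κ := hκ ▸ by positivity
  rw [pow_mul, ← b3]
  generalize (LL l : ℝ) ^ K0 = D at *
  have up : ∀ i ≤ 16, 24 * (D ^ i * κ) ≤ D ^ 17 * κ := fun i hi =>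
    calc _ ≤ D * (D ^ 16 * κ) := by
          have : 1 ≤ D := by linarith
          gcongr
          linarith
      _ = _ := by ring
  have b5 := up 1 (by norm_num)
  have b6 := up 6 (by norm_num)
  have b7 := up 16 le_rfl
  have b8 := mul_le_mul_of_nonneg_right (show 1000 ≤ D by linarith) κ0.le
  rw [pow_one] at b5
  have o1 : ∀ d', Chw c Kt K0 l (S0 l) κ d' → ∀ i ≤ S0 l, StO (d 0).r (LL l) D κ (d' i) := by
    intro d' h' i hi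
    obtain ⟨M, j, v, e, hM, v1, v2, e0, e1, t, k⟩ := h'.tr i hi
    obtain ⟨f1, f2, f3, f4⟩ := ee _ (h'.ex i hi)
    rw [← f1, ← f2, ← f3]
    exact (hv _ M (h'.ex i hi) hM).2.2.1 j v e κ v1 v2 e0 (by linarith) t k f4
  have o2 : ∀ i ≤ S0 l, StT (d 0).r (LL l) D κ (d i) (d' i) := by
    intro i hi
    obtain ⟨M, j, v, e, hM, v1, v2, e0, e1, t, k⟩ := h.tr i hi
    obtain ⟨M', j', v', e', hM', v3, v4, e2, e3, t', k'⟩ := h'.tr i hi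
    obtain ⟨f1, f2, f3, f4⟩ := ee _ (h.ex i hi)
    obtain ⟨u1, u2, u3, u4⟩ := h.ex i hi
    obtain ⟨u5, u6, u7, u8⟩ := h'.ex i hi
    have k1 := hv _ M' (h'.ex i hi) hM'
    have k2 := (hv _ M (h.ex i hi) hM).2.2.2 (lv (d' i) M') j j' v v' e e' κ (u5.trans u1.symm)
      (u6.trans u2.symm) (u7.trans u3.symm) (u8.trans u4.symm) k1.1 k1.2.1 v1 v2 e0 (by linarith)
      v3 v4 e2 (by linarith) t k t' k' f4 ((congrArg (· * κ) f3).trans_le (by linarith))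
    rw [← f1, ← f2, ← f3]
    exact k2
  obtain ⟨k1, k2, k3⟩ := chain_abs_w h h' (o1 d h) (o1 d' h') o2 κ0 L1 b2 LD (by linarith) h0 _ le_rfl
  have x0 : (0 : ℝ) < 2⁻¹ ^ S0 l := by positivity
  have b9 := up 5 (by norm_num)
  have D0 : 0 < D := by linarith
  have y1 : ∀ i, D ^ i * (κ + 2⁻¹ ^ S0 l) ≤ 2 * (D ^ i * κ) := fun i => by
    linarith [mul_le_mul_of_nonneg_left g1 (pow_pos D0 i).le]
  have z : ∀ i, 0 < D ^ i * κ := fun i => by positivity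
  refine ⟨fun a δ ha => (k2 a δ ha).trans (mul_le_mul_of_nonneg_right (by
    linarith [y1 1]) (sq_nonneg δ)), fun B δ hB hδ => (k3 B δ hB hδ).trans
      (mul_le_mul_of_nonneg_right (by linarith [y1 6, z 6]) (pow_nonneg hB.nonneg 3)),
    fun a ha => (((o2 _ le_rfl _ (by linarith) k1 k2).2 (by linarith [y1 5, z 5]) k3).2 a
      ha).trans (by linarith [y1 16, z 16])⟩

/-- the value on constant curvature along a chain -/
theorem chain_drift (c : ℕ) (c1 : 1 ≤ c) : ∃ a0, ∀ Kt ≥ a0, ∃ a1, ∀ K0 ≥ a1, ∀ Ka : ℕ,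
    ∃ l0, ∀ l ≥ l0, ∀ n ≤ LL l, ∀ d, Chw c Kt K0 l n ((LL l : ℝ) ^ (Ka + 2))⁻¹ d →
      ∀ i ≤ n, Cd ((LL l : ℝ) ^ Ka)⁻¹ (d i).m (d 0).m := by
  obtain ⟨a0, H⟩ := ev_one c
  refine ⟨a0, fun Kt h0 => (H Kt h0).imp fun a1 H K0 h1 Ka => ?_⟩
  obtain ⟨K, H⟩ := H K0 h1
  obtain ⟨l1, H⟩ := H K le_rfl (K * 1000)
  obtain ⟨l2, H2⟩ := eventually_atTop.1 (pow_le_exp c (Ka + 2 + (K + c)) c1)
  refine ⟨l1 + l2 + 2, fun l hl n hn d h i hi a ha => ?_⟩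
  have g2 := H2 l (by omega)
  have L4 : (4 : ℝ) ≤ LL l := by exact_mod_cast (show 4 ≤ LL l by unfold LL; omega)
  have o : ∀ i ≤ n, StO (d 0).r (LL l) ((LL l : ℝ) ^ K0) ((LL l : ℝ) ^ (Ka + 2))⁻¹ (d i) := by
    intro i hi
    obtain ⟨M, j, v, e, hM, v1, v2, e0, e1, t, k⟩ := h.tr i hi
    have er : (d 0).r = (d i).r := by
      unfold Td.r; rw [(h.ex 0 n.zero_le).2.2.2, (h.ex i hi).2.2.2]
    obtain ⟨rfl, u2, rfl, rfl⟩ := h.ex i hi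
    generalize d i = t' at *
    have := L0 t'
    rw [er, ← show (t'.D0 : ℝ) = (LL t'.l : ℝ) ^ t'.K0 from D0_eq _]
    refine H ⟨t', K, K * 1000, M, 2 * (500 * t'.D0) + 1, t'.L ^ (K * 1000), t'.L ^ (K * 1000)⟩
      ⟨c1, hM, ⟨_, rfl⟩, show 1000 * t'.D0 ≤ 2 * (500 * t'.D0) + 1 by omega, (pow_mul _ _ _).ge,
        le_rfl, le_mul_of_one_le_left (pow_pos this _).le one_le_two, le_rfl⟩ rfl u2 rfl rfl rfl
      (show l1 ≤ t'.l by omega) j v e _ v1 v2 e0 e1 t k ?_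
    change t'.L ^ K * t'.τ ≤ _
    rw [Td.τ, ← mul_assoc, ← pow_add, Real.exp_neg, ← div_eq_mul_inv, ← one_div]
    refine (div_le_div_iff₀ (Real.exp_pos _) (pow_pos this _)).2 ?_
    rw [one_mul, mul_comm]
    exact (pow_add _ _ _).ge.trans g2
  refine (drift_w h o (by positivity) (inv_le_one_of_one_le₀ (one_le_pow₀ (by linarith))) ha i
    hi).trans ?_
  rw [← mul_assoc]
  refine mul_le_mul_of_nonneg_right ?_ (Li.nd_nonneg _ _)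
  have : (i : ℝ) ≤ LL l := by exact_mod_cast hi.trans hn
  calc _ ≤ LL l * LL l * ((LL l : ℝ) ^ (Ka + 2))⁻¹ := by gcongr
    _ = _ := by field_simp; ring

/-- pure chains with a given start -/
theorem chain_exists_w (c : ℕ) (c1 : 1 ≤ c) (hc : LinC c) : ∃ a0, ∀ Kt ≥ a0, ∃ a1, ∀ K0 ≥ a1,
    ∃ l0, ∀ l ≥ l0, ∀ (j : ℕ) (v e : ℝ) m T, 2⁻¹ ≤ v → v ≤ 2 → 0 ≤ e → e ≤ 2000⁻¹ →
      Td.Tr ⟨c, Kt, K0, l, m, 0, T⟩ (LL l) j v e → ∃ d, Chw c Kt K0 l (LL l) 0 d ∧ (d 0).m = m ∧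
        (d 0).T = T ∧ (∀ i < LL l, (d (i + 1)).m = (d i).m1 ∧ (d (i + 1)).T = (d i).T1) ∧
          ∀ i ≤ LL l, ∃ j e', 0 ≤ e' ∧ e' ≤ e + (10 ^ 6)⁻¹ ∧ (d i).Tr (LL l) j v e' ∧
            (d i).Ln j v e' := by
  obtain ⟨l1, hc⟩ := hc
  obtain ⟨a0, H⟩ := tree_step c
  refine ⟨a0, fun Kt h0 => (H Kt h0).imp fun a1 H K0 h1 => ?_⟩
  obtain ⟨K, H⟩ := H K0 h1
  obtain ⟨B, hB⟩ : ∃ B, B = 1000 * K + 3 := ⟨_, rfl⟩
  obtain ⟨l0, H⟩ := H K le_rfl B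
  refine ⟨l0 + l1 + 1000, fun l hl j0 v e m T v1 v2 e0 e1 ht => ?_⟩
  have L3 : (1000 : ℝ) ≤ LL l := by exact_mod_cast (show 1000 ≤ LL l by unfold LL; omega)
  obtain ⟨η, hη⟩ : ∃ η, η = ((LL l : ℝ) ^ B)⁻¹ := ⟨_, rfl⟩
  have η0 : 0 < η := by rw [hη]; positivity
  have nu : ∀ i ≤ LL l, i * η ≤ (10 ^ 6)⁻¹ ∧ 0 ≤ i * η := fun i hi => by
    have a1 : (i : ℝ) ≤ LL l := by exact_mod_cast hi
    have a2 : η ≤ ((LL l : ℝ) ^ 3)⁻¹ :=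
      hη ▸ inv_anti₀ (by positivity) (pow_le_pow_right₀ (by linarith) (by omega))
    refine ⟨?_, by positivity⟩
    calc _ ≤ LL l * ((LL l : ℝ) ^ 3)⁻¹ := by gcongr
      _ = ((LL l : ℝ) ^ 2)⁻¹ := by field_simp
      _ ≤ _ := inv_anti₀ (by norm_num) (by nlinarith)
  let P : ℕ → Td → Prop := fun i t => (t.c = c ∧ t.Kt = Kt ∧ t.K0 = K0 ∧ t.l = l) ∧
    ∃ j, t.Tr (LL l) j v (e + i * η) ∧ t.Ln j v (e + i * η)
  have ex : ∀ (i j : ℕ) m T, i ≤ LL l → Td.Tr ⟨c, Kt, K0, l, m, 0, T⟩ (LL l) j v (e + i * η) →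
      ∃ t, P i t ∧ t.m = m ∧ t.T = T := fun i j m T hi h => by
    obtain ⟨ρ, -, -, k⟩ := h.ch
    obtain ⟨s, hs⟩ := hc ⟨c, Kt, K0, l, m, 0, T⟩ rfl (by simp only; omega) j ρ v _ v1 v2
      (by linarith [nu i hi]) (by linarith [nu i hi]) k
    exact ⟨⟨c, Kt, K0, l, m, s, T⟩, ⟨⟨rfl, rfl, rfl, rfl⟩, j, ⟨h.ch, h.tc, h.real⟩, hs⟩, rfl, rfl⟩
  have st : ∀ i t, i < LL l → P i t → ∃ t', P (i + 1) t' ∧ t'.m = t.m1 ∧ t'.T = t.T1 := by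
    rintro i t hi ⟨⟨e0, e1, e2, e3⟩, j, a1, a2⟩
    have k := H (sdOf t K B) (sdOf_ok (e0 ▸ c1) (by omega)) e0 e1 e2 rfl rfl
      (show l0 ≤ t.l by omega)
    rw [Set.mem_ofPred_eq, show (sdOf t K B).toTd = t from rfl] at k
    have := (k j v _ 1 v1 v2 (by linarith [nu i hi.le]) (by linarith [nu i hi.le])
      (show t.Tr (LL t.l) j v _ from e3 ▸ a1) a2 (by linarith) (by norm_num)).2
      ⟨c, Kt, K0, l, t.m1, 0, t.T1⟩ e1.symm e2.symm (.inl (congrArg LL e3)) (by simp) (by simp)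
    refine ex (i + 1) (2 * j * l + j + l) _ _ hi ?_
    subst e3
    rw [Nat.cast_succ, add_one_mul, ← add_assoc, hη]
    rwa [one_mul, hη] at this
  choose! f hf using st
  obtain ⟨t0, a0, a1, a2⟩ := ex 0 j0 m T (Nat.zero_le _) (by simpa using ht)
  let d : ℕ → Td := fun i => Nat.rec t0 f i
  have hd : ∀ i ≤ LL l, P i (d i) := fun i => by
    induction i with
    | zero => exact fun _ => a0
    | succ i ih => exact fun h => (hf i _ h (ih (Nat.le_of_succ_le h))).1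
  refine ⟨d, ⟨fun i hi => (hd i hi).1, fun i hi => ?_, fun i hi => ⟨1, by simp, ?_⟩⟩, a1, a2,
    fun i hi => (hf i _ hi (hd i hi.le)).2, fun i hi => ?_⟩
  · obtain ⟨j, k⟩ := (hd i hi).2
    exact ⟨_, j, v, _, .inl rfl, v1, v2, by linarith [nu i hi], by linarith [nu i hi], k⟩
  · simpa using (hf i _ hi (hd i hi.le)).2
  · obtain ⟨j, k⟩ := (hd i hi).2
    exact ⟨j, _, by linarith [nu i hi], by linarith [nu i hi], k⟩

theorem Cd.trans {σ σ' : ℝ} {m m' m'' : BF} (h : Cd σ m m') (h' : Cd σ' m' m'') :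
    Cd (σ + σ') m m'' := fun a ha =>
  (abs_sub_le _ _ _).trans ((add_le_add (h a ha) (h' a ha)).trans_eq (add_mul _ _ _).symm)

theorem Cd.symm {σ : ℝ} {m m' : BF} (h : Cd σ m m') : Cd σ m' m := fun a ha =>
  (abs_sub_comm _ _).trans_le (h a ha)

end Pool.Agent.Lib.MP_7f377f_mp.RG.Q4.Af
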