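import Pool.Agent.Lib.MP_7f377f_mp.G.S21Spec

/-! The Wilson density with weights on the planes. -/

noncomputable section

set_option linter.unusedSectionVars false
variable [Pool.Agent.Lib.MP_7f377f_mp.GD]

namespace Pool.Agent.Lib.MP_7f377f_mp.RG.Q4

open Finset La La.Q JT En En.Ty Matrix

attribute [local irreducible] box lbox

variable {w : Fin 4 → Fin 4 → ℝ} {W v e ρ : ℝ} {r R : ℕ}

theorem cx_kW (w) (B : Fld) : cx (kW w) B B =
    ∑ μ, ∑ ν, ((if μ < ν then w μ ν else 0 : ℝ) : ℂ) * dot (dd B 0 μ ν) (dd B 0 μ ν) := by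
  have h1 : ∀ k μ ν, dd (reF B k) 0 μ ν = (dd B 0 μ ν k).re := fun k μ ν => by simp [dd, reF]
  have h2 : ∀ k μ ν, dd (imF B k) 0 μ ν = (dd B 0 μ ν k).im := fun k μ ν => by simp [dd, imF]
  simp only [cx, kW_apply, h1, h2, dot, mul_sum, Complex.ofReal_add, Complex.ofReal_sub, Complex.ofReal_sum, Complex.ofReal_mul,
    ← sum_add_distrib, ← sum_sub_distrib, sum_mul]
  refine sum_comm.trans (sum_congr rfl fun μ _ => sum_comm.trans (sum_congr rfl fun ν _ =>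
    sum_congr rfl fun k _ => ?_))
  conv_rhs => rw [← Complex.re_add_im (dd B 0 μ ν k)]
  generalize ((if μ < ν then w μ ν else 0 : ℝ) : ℂ) = x
  linear_combination (-x * ((dd B 0 μ ν k).im : ℂ) ^ 2) * Complex.I_mul_I

theorem kW_symm (w) (a b : V) : kW w a b = kW w b a := by
  simp only [kW_apply, mul_comm (dd a _ _ _)]

theorem abs_wt (h : ∀ μ ν, |w μ ν| ≤ W) (μ ν : Fin 4) : |if μ < ν then w μ ν else 0| ≤ W := by
  split_ifs
  exacts [h μ ν, abs_zero.trans_le ((abs_nonneg _).trans (h μ ν))]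

theorem cb_kW (h : ∀ μ ν, |w μ ν| ≤ W) (R : ℕ) : Cb R (16 * W) (kW w) := fun a b δ δ' ha hb => by
  have W0 := (abs_nonneg _).trans (h 0 0)
  have := ha.nonneg
  rw [kW_apply]
  refine (abs_sum_le_sum_abs _ _).trans ((sum_le_card_nsmul _ _ (4 * (W * (δ * δ'))) fun μ _ =>
    (abs_sum_le_sum_abs _ _).trans ((sum_le_card_nsmul _ _ (W * (δ * δ')) fun ν _ => ?_).trans_eq
      (by simp))).trans_eq (by simp; ring))
  rw [abs_mul, abs_mul]
  gcongr
  exacts [abs_wt h μ ν, ha 0 (zero_mem_box R) μ ν, hb 0 (zero_mem_box R) μ ν]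

theorem kW_dom (h : ∀ μ ν, |w μ ν| ≤ W) (a : V) : |kW w a a| ≤ 2 * W * m0 a a := by
  rw [kW_apply, Li.m0_apply, mul_mul_mul_comm, mul_inv_cancel₀ two_ne_zero, one_mul, mul_sum]
  refine (abs_sum_le_sum_abs _ _).trans (sum_le_sum fun μ _ => (abs_sum_le_sum_abs _ _).trans ?_)
  rw [mul_sum]
  refine sum_le_sum fun ν _ => ?_
  rw [abs_mul, abs_mul_self]
  exact mul_le_mul_of_nonneg_right (abs_wt h μ ν) (mul_self_nonneg _)

theorem tm_tW (hw : ∀ μ ν, |w μ ν| ≤ W) (h1 : ρ ≤ 1 / 10 ^ 5) (hr : 1 ≤ r) :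
    Tm r ρ (10 ^ 8 * W * ρ ^ 3) (tW w) := by
  have W0 := (abs_nonneg _).trans (hw 0 0)
  have sm : ∀ B : Fld, Cv r ρ B → Sm 1 (3 * ρ) (cg B) := fun B hB => by
    simpa using Sm_cg (hB.mono hr le_rfl)
  have m0 : ∀ κ : Fin 4, ((0 : St), κ) ∈ lbox 1 := zero_lbox 1
  have m1 : ∀ κ κ' : Fin 4, ((0 : St) + un κ, κ') ∈ lbox 1 := un_lbox
  refine ⟨fun A B h => ?_, fun Ω γ _ hγ hc => ?_, fun B hB => ?_, ?_, fun h B => ?_,
    fun B hB => ?_⟩
  · have h2 : Agr 1 (exF (cg A)) (exF (cg B)) := fun e he =>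
      congrArg ex (cg_loc h e (lbox_mono hr he))
    simp only [tW, pW, cx_kW, hol_agr star h2, h 0 (zero_mem_box r)]
  · have h2 : ∀ e ∈ lbox 1, DifferentiableOn ℂ (fun t => exF (cg (γ t)) e) Ω := fun e he =>
      diff_ex (hγ.cg e) fun t ht => (sm _ (hc t ht) e he).trans (by linarith)
    have h3 : ∀ e ∈ lbox 1, DifferentiableOn ℂ (fun t => star (exF (cg (γ t)) e)) Ω := fun e he =>
      stL.differentiable.comp_differentiableOn (h2 e he)
    have h4 : ∀ μ ν, DifferentiableOn ℂ (fun t => enq (hol star (exF (cg (γ t))) 0 μ ν)) Ω :=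
      fun μ ν => diff_enq
        ((((h2 _ (m0 μ)).mul (h2 _ (m1 μ ν))).mul (h3 _ (m1 ν μ))).mul (h3 _ (m0 ν)))
    have h5 : ∀ e k, DifferentiableOn ℂ (fun t => γ t e k) Ω := fun e =>
      differentiableOn_pi.1 (hγ e)
    simp only [tW, pW, cx_kW, dot, dd, Pi.add_apply, Pi.sub_apply]
    fun_prop
  · have r0 := hB.nonneg
    have key : ∀ μ ν, ‖enq (hol star (exF (cg B)) 0 μ ν) - dot (dd B 0 μ ν) (dd B 0 μ ν)‖ ≤
        2 * 10 ^ 6 * ρ ^ 3 := fun μ ν => by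
      have h2 := hol_ap (Ap_exF (sm B hB) (by linarith)) (by nlinarith) (by linarith) μ ν
      rw [dd_cg] at h2
      have h3 := cubic (hB 0 (zero_mem_box r) μ ν) h2
      rw [← mul_sub, norm_mul, norm_inv, Complex.norm_ofNat] at h3
      have : ρ ^ 4 ≤ ρ ^ 3 / 10 ^ 5 := by nlinarith [pow_nonneg r0 3]
      nlinarith [pow_nonneg r0 3]
    rw [tW, pW, cx_kW, ← sum_sub_distrib]
    refine (norm_sum_le_of_le _ fun μ _ => (?_ : _ ≤ 4 * (W * (2 * 10 ^ 6 * ρ ^ 3)))).trans ?_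
    · rw [← sum_sub_distrib]
      refine (norm_sum_le_of_le _ fun ν _ => (?_ : _ ≤ W * (2 * 10 ^ 6 * ρ ^ 3))).trans (by simp)
      rw [← mul_sub, norm_mul, Complex.norm_real]
      exact mul_le_mul (abs_wt hw μ ν) (key μ ν) (norm_nonneg _) W0
    · simp only [sum_const, card_univ, Fintype.card_fin, nsmul_eq_mul, Nat.cast_ofNat]
      nlinarith [mul_nonneg W0 (pow_nonneg r0 3)]
  · have : cg (0 : Fld) = 0 := cg_eq_self fun _ _ _ => rfl
    simp [tW, pW, this, hol, exF, enq_one]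
  · have h2 : cg (adF (fun _ => cS h) B) = adF (fun _ => cS h) (cg B) :=
      cg_map (adL (cS h)).toAddMonoidHom B
    have h3 : ∀ μ ν, hol star (exF (adF (fun _ => cS h) (cg B))) 0 μ ν =
        cS h * hol star (exF (cg B)) 0 μ ν * star (cS h) := fun μ ν => by
      have e : ∀ q : Hc, star (cS h) * (cS h * q) = q := fun q => by
        rw [← mul_assoc, (uni_cS h).star_mul, one_mul]
      simp only [hol, exF, adF, ex_adq (uni_cS h), star_mul, star_star, mul_assoc, e]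
    simp only [tW, pW, h2, h3, cx_adF _ (cb_kW hw 0).rng (uni_cS h), enq_conj (uni_cS h)]
  · have h2 : ∀ e, ∃ g : S3, cS g = ex (cg B e) := fun e => by
      obtain ⟨v, hv⟩ := exists_cE (b := cg B e) fun k => by
        simp [cg, gr, lam, pr, hB _ k]
      exact hv ▸ (ex_real v).imp fun _ h => h.1
    choose U hU using h2
    have h3 : exF (cg B) = cC U := funext fun e => (hU e).symm
    simp only [tW, pW, h3, hol_cC, cx_real _ hB hB, enq_cS, ← Complex.ofReal_mul,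
      ← Complex.ofReal_sum, ← Complex.ofReal_sub, Complex.ofReal_im]

theorem tc_tW (hw : ∀ μ ν, |w μ ν| ≤ W) (hR : 1 ≤ R) (h : ρ ≤ 1 / 10 ^ 5) :
    Tc R ρ (10 ^ 8 * W) (tW w) := by
  have t := fun d (hd : d ≤ ρ) => tm_tW hw (hd.trans h) hR
  refine ⟨(t ρ le_rfl).loc, (t ρ le_rfl).hol, fun B d hB hd => (t d hd).bd B hB, (t ρ le_rfl).ad, ?_⟩
  have h1 : ∀ e, Measurable fun B : Fld => cg B e := fun e => by
    simp only [cg, gr, lam, pr, Pi.sub_apply]
    fun_prop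
  have h2 : ∀ e, MQ fun B : Fld => exF (cg B) e := fun e => mq_ex (h1 e)
  have h3 : ∀ μ ν, Measurable fun B : Fld => enq (hol star (exF (cg B)) 0 μ ν) := fun μ ν =>
    ((((h2 _).mul (h2 _)).mul (h2 _).star).mul (h2 _).star).enq
  exact (measurable_sum _ fun μ _ => measurable_sum _ fun ν _ => measurable_const.mul (h3 μ ν)).sub
    (measurable_cx (cb_kW hw 0).rng (measurable_id (α := Fld)) measurable_id)

theorem tW_real (hw : ∀ μ ν, |w μ ν| ≤ W) (B : Fld) (h : RealF B) : (tW w B).im = 0 :=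
  (tm_tW (ρ := 0) hw (by norm_num) le_rfl).real B h

theorem abs_w3 {α β γ : ℝ} (a : |α| ≤ W) (b : |β| ≤ W) (c : |γ| ≤ W) (μ ν : Fin 4) :
    |w3 α β γ μ ν| ≤ W := by
  have := (abs_nonneg _).trans a
  fin_cases μ <;> fin_cases ν <;> simpa [w3]

theorem kW_w3 (α β γ : ℝ) (a b : V) : kW (w3 α β γ) a b =
    α * (dd a 0 0 1 * dd b 0 0 1 + dd a 0 2 3 * dd b 0 2 3) +
    β * (dd a 0 0 2 * dd b 0 0 2 + dd a 0 1 3 * dd b 0 1 3) +
    γ * (dd a 0 0 3 * dd b 0 0 3 + dd a 0 1 2 * dd b 0 1 2) := by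
  simp [kW_apply, Fin.sum_univ_four, w3]
  ring

/-- the direction of Weyl type -/
theorem dir_w : Dir T2s ((0, 1), (0, 1)) (kW (w3 1 0 (-1))) (tW (w3 1 0 (-1))) := by
  have hw := abs_w3 (W := 1) (α := 1) (β := 0) (γ := -1) (by simp) (by simp) (by simp)
  refine ⟨kW_symm _, ⟨_, by norm_num, cb_kW hw 1⟩, ?_, fun g hg F hF => ?_,
    ⟨_, _, by norm_num, tc_tW hw one_le_two le_rfl⟩, tW_real hw⟩
  · simp [kW_w3, dd_pt (as_EE _), EE, EZ]
  · have a : As (Ty.mt g.1 F) := by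
      rcases g with ⟨σ | j, c⟩
      · exact fun μ ν => hF _ _
      · exact fun μ ν => by simp only [Ty.mt, rM, hF μ ν, mul_comm (sg j ν), smul_neg]
    rw [kW_w3, kW_w3, dd_pt a, dd_pt hF]
    simp only [T2s, rf, sw, List.cons_append, List.nil_append, List.mem_cons, List.not_mem_nil,
      or_false] at hg
    rcases hg with rfl | rfl | rfl | rfl | rfl | rfl <;>
      simp [Ty.mt, rM, pM, sg, sb, Equiv.swap_apply_def, hF 0 1, hF 0 2, hF 1 2, hF 1 3,
        hF 2 3] <;> ring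

theorem ch_w {k : BF} {σ : ℝ} (hr : 1 ≤ r) (h1 : 2⁻¹ ≤ v) (e0 : 0 ≤ e) (e1 : e ≤ 2⁻¹)
    (hs : ∀ a b, k a b = k b a) (hk : Cb 0 σ k) (hd : ∀ a, |k a a| ≤ e * m0 a a) :
    Ch 0 r 2 v e (v • (m0 + k)) := by
  obtain ⟨h, lo⟩ := inv_dom (t := v) (r' := r) (cL' := 20) (cU' := v * (2⁻¹ + e))
    (inv_zero r hr) hs hk hd e0 (by linarith) (by linarith) le_rfl hr (by norm_num) (by nlinarith)
    (by nlinarith)
  have z := ch_zero hr h1
  have m : ∀ a, m0 a a = 2⁻¹ * nd a 0 := fun a => by simpa [Li.sh_zero] using Li.m0_sh a 0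
  refine ⟨h, fun a S => ⟨a, ?_⟩, fun a _ => ?_, fun a => ?_⟩
  · simp only [sub_self, Pi.zero_apply, mul_sum]
    simp only [ne_eq, OfNat.ofNat_ne_zero, not_false_eq_true, zero_pow, mul_zero, sum_const_zero,
      add_zero]
    refine (sum_le_sum fun x _ => le_trans ?_ (lo (sh x a))).trans
      (sum_le_sum_of_subset_of_nonneg (sub_add_box S (2 + 3)) fun x _ _ => h.psd _)
    rw [Li.m0_sh]
    nlinarith [mul_nonneg (mul_nonneg (show 0 ≤ v by linarith) e0) (Li.nd_nonneg a x)]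
  · have := hd a
    rw [show (v • (m0 + k)) a a - (v • m0) a a = v * k a a by simp, abs_mul,
      abs_of_nonneg (by linarith), mul_assoc]
    refine mul_le_mul_of_nonneg_left (this.trans ?_) (by linarith)
    rw [m]
    nlinarith [mul_nonneg e0 (Li.nd_nonneg a 0)]
  · have := lo a
    rw [m] at this
    rw [show box (2 - 2) = {0} by ext; simp [Li.mem_box, funext_iff], sum_singleton]
    push_cast
    nlinarith [mul_le_mul_of_nonneg_right (show 4⁻¹ ≤ v * (1 - e) by nlinarith) (Li.nd_nonneg a 0),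
      Li.nd_nonneg a 0]

theorem Tc.add {C C' : ℝ} {T T' : Fld → ℂ} (h : Tc R ρ C T) (h' : Tc R ρ C' T') :
    Tc R ρ (C + C') fun B => T B + T' B :=
  ⟨fun A B e => by rw [h.loc A B e, h'.loc A B e], fun Ω γ a b c =>
    (h.hol Ω γ a b c).add (h'.hol Ω γ a b c), fun B d a b =>
      (norm_add_le_of_le (h.bd B d a b) (h'.bd B d a b)).trans_eq (add_mul _ _ _).symm,
    fun g B => by rw [h.ad, h'.ad], h.meas.add h'.meas⟩

/-- the tree data of the weighted density -/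
theorem Sd.Nu.tr_w {S : Sd} {a : ℕ} (h : S.Nu a) (h1 : 2⁻¹ ≤ v) (h2 : v ≤ 2)
    (hw : ∀ μ ν, |w μ ν| ≤ W) (W1 : W ≤ 4⁻¹) (hm : S.m = v • (m0 + kW w))
    (hT : S.T = fun B => v * (TW B + tW w B)) : S.Tr S.M 0 v (2 * W) := by
  have e := h.exps
  have r1 := h.r1
  have W0 := (abs_nonneg _).trans (hw 0 0)
  have a : ∀ k, 1 ≤ k → (10 : ℝ) ^ 9 ≤ (S.M : ℝ) ^ k := fun k hk =>
    ((h.cL' (by norm_num)).trans (le_self_pow₀ (Sd.L1 _) (by omega))).trans (h.ok.LM_pow k)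
  have p : ((S.M : ℝ) ^ S.K0)⁻¹ ≤ 1 / 10 ^ 5 := by
    rw [one_div]
    exact inv_anti₀ (by norm_num) (le_trans (by norm_num) (a _ (by omega)))
  refine ⟨⟨2, le_rfl, by norm_num, hm ▸ ch_w (by omega) h1 (by linarith) (by linarith) (kW_symm w)
    (cb_kW hw 0) (kW_dom hw)⟩, ?_, fun B hB => by simp [hT, TW_real B hB, tW_real hw B hB]⟩
  rw [hT]
  refine (((tc_TW (by omega) p).add (tc_tW hw (by omega) p)).smul v).weak ?_
  rw [abs_of_nonneg (by linarith)]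
  nlinarith [a S.Kt (by omega)]

/-- the weighted density in the chart -/
theorem pW_eq {ε : ℝ} {U : Conf} {x : St} (h : ∀ y ∈ box 1, ∀ μ ν, fq U (x + y) μ ν ≤ ε)
    (h1 : 6 * ε ≤ 1) :
    cx (kW w) (Bx x (cC U)) (Bx x (cC U)) + tW w (Bx x (cC U)) = pW w (sh x (cC U)) := by
  have h2 := (Bx_loc (R := 1) (U := sh x U) (fun y hy μ ν => by
    rw [Mx.fq_sh, add_comm]; exact h y hy μ ν) (by simpa using h1)).2
  have h3 : Bx x (cC U) = Bx 0 (cC (sh x U)) := by rw [SX.cC_sh, Bx_sh, zero_add]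
  rw [tW, add_sub_cancel, h3, cg_Bx, ← SX.cC_sh]
  simp only [pW, ← hol_agr star h2, hol_cC, hol_gauge, cmb_zero, one_mul, inv_one, mul_one]

end Pool.Agent.Lib.MP_7f377f_mp.RG.Q4
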