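import Pool.Agent.Lib.MP_7f377f_mp.G.S21A1
import Pool.Agent.Lib.MP_7f377f_mp.G.S21A2

/-! The one loop term at the end of a chain which starts at a weighted Wilson density. -/

noncomputable section

set_option linter.unusedSectionVars false
variable [Pool.Agent.Lib.MP_7f377f_mp.GD]

namespace Pool.Agent.Lib.MP_7f377f_mp.RG.Q4.Af

open Finset Real Filter Topology Matrix

/-- densities which are proportional on small real fields -/
theorem wil_w {N : Fin 4 → ℕ} [∀ i, NeZero (N i)] {t0 t : Cf → ℂ} {Q F φ g1 g2 v : ℝ}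
    {θ : Lk → Ang} (v0 : 0 < v) (h : TD Q t0) (he : ∀ (U : Conf) x,
      (∀ y μ ν, fq U y μ ν ≤ 6⁻¹) → t0 (sh x (cC U)) = v * t (sh x (cC U))) (hb : Bg N F θ)
    (gp : Gap N (ab θ) g1 g2) (g0 : 1 ≤ g1) (hF : |F| ≤ φ) (φ0 : 0 < φ)
    (hφ : Q ^ 20 * φ * g1 ≤ 1) : (∃ C ρ, 0 < ρ ∧ Tay (SS N t (ab θ)) (Hs N t θ) C ρ) ∧
      LK N t0 θ = LK N t θ +
        2⁻¹ * ((Fintype.card (IL N) : ℝ) - Fintype.card (IG N)) * Real.log v := by
  have big := h.big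
  have Q1 : 1 ≤ Q := by linarith
  have a0 : 0 ≤ Q ^ 14 * φ * g1 := by positivity
  have a1 : Q ^ 6 * (Q ^ 14 * φ * g1) ≤ 1 := by linarith
  have a2 : 10 ^ 9 ≤ Q ^ 6 := big.trans (le_self_pow₀ Q1 (by norm_num))
  have a3 : Q ^ 3 * φ ≤ 1 := le_trans ((mul_le_mul_of_nonneg_right
    (pow_le_pow_right₀ Q1 (by norm_num)) φ0.le).trans (le_mul_of_one_le_right (by positivity) g0)) hφ
  have a4 : 10 ^ 9 * φ ≤ 1 := le_trans (mul_le_mul_of_nonneg_right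
    (big.trans (le_self_pow₀ Q1 (by norm_num))) φ0.le) a3
  have a5 : cG * (Q ^ 2)⁻¹ ≤ 1 / 1000 := by
    rw [← div_eq_mul_inv, div_le_iff₀ (by positivity)]
    nlinarith [h.cg, le_self_pow₀ GD.cG1 (by norm_num : 4 ≠ 0), GD.cG1]
  obtain ⟨T, k, -, lo⟩ := h.hess hb.per hb.curv hF φ0 a3
  have T2 : Tay (SS N t (ab θ)) _ _ _ := (T.smul (inv_pos.2 v0).le).congr fun a ha => by
    simp only [SS, ← cC_rf, mul_sum]
    refine sum_congr rfl fun x _ => ?_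
    rw [he (rf (ab θ) a) (lf x) fun y μ ν => (fq_rf hb.curv
      ((mul_le_mul_of_nonneg_left ha GD.cG_pos.le).trans a5) y μ ν).trans (by linarith)]
    simp [v0.ne']
  have r0 : 0 < (Q ^ 2)⁻¹ := by positivity
  have e := Hs_eq T2 r0
  have p := (lk_close gp T.1 T.1 k k (by norm_num) (by positivity) (by nlinarith) lo
    (η1 := 0) (η2 := 0) le_rfl le_rfl le_rfl (by simp) (by norm_num) fun a => by simp).1
  refine ⟨⟨_, _, r0, e ▸ T2⟩, ?_⟩
  have kd : Hs N t0 θ * Dm N (ab θ) = 0 :=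
    Matrix.ext_iff_mulVec.2 fun w => by rw [← mulVec_mulVec, Dm_mulVec, k, zero_mulVec]
  rw [LK, LK, lk_eq, lk_eq, e, kap_smul T.1 kd gp.det_ne (inv_pos.2 v0),
    Real.log_mul (by positivity) p.ne', Real.log_div (by positivity) (by positivity), Real.log_pow,
    Real.log_pow, Real.log_inv]
  ring

/-- the one loop coefficient of a density -/
def bnw (l a b : ℕ) (t : Cf → ℂ) : ℝ :=
  -(XX l a b t (2 * S0 l) - XX l a b t (S0 l)) / (S0 l * om l a b)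

/-- the chains which start at a weighted Wilson density -/
theorem ref_w (c : ℕ) (c1 : 1 ≤ c) (hc : LinC c) : ∃ a0, ∀ Kt ≥ a0, ∃ a1, ∀ K0 ≥ a1, ∃ K : ℕ,
    ∀ Ka : ℕ, ∃ a b l0 : ℕ, 1 ≤ b ∧ b + 6 ≤ a ∧ ∀ l ≥ l0, (∃ β E, ∀ j, Gj l a b β E j) ∧
      ∀ (y : Fin 4 → Fin 4 → ℝ) (v u : ℝ) (t : Cf → ℂ), 2⁻¹ ≤ v → v ≤ 2 → 0 < u →
        (∀ μ ν, |y μ ν| ≤ 4000⁻¹) → (∀ U, v * (wc U + pW y U) = u * t U) →
        (∀ j (k : ℤ), k = 1 ∨ k = 0 → ∃ C ρ, 0 < ρ ∧ Tay (SS (Tn l a b j) t (ab (th l a b k j)))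
          (Hs (Tn l a b j) t (th l a b k j)) C ρ) ∧ ∀ x : V, (∀ μ ν, dd x 0 μ ν = kF 1 μ ν) →
        ∃ d, Chw c Kt K0 l (S0 l) 0 d ∧ (d 0).m = v • (m0 + kW y) ∧
          |(qc (d (S0 l)).ol x x).re + bnw l a b t| ≤ ((LL l : ℝ) ^ Ka)⁻¹ ∧
          |(qc (d (S0 l)).ol x x).re| ≤ (LL l : ℝ) ^ K := by
  obtain ⟨c', c2, hd⟩ := dcy_of
  obtain ⟨a0, H0⟩ := (ev_nu c 100).and (tk0 c)
  obtain ⟨a1, H1⟩ := chain_exists_w c c1 hc
  obtain ⟨a2, H2⟩ := chain_close_w c c1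
  obtain ⟨a4, H4⟩ := chain_drift c c1
  refine ⟨a0 + a1 + a2 + a4, fun Kt h0 => ?_⟩
  obtain ⟨b0, H0⟩ := H0 Kt (by omega)
  obtain ⟨b1, H1⟩ := H1 Kt (by omega)
  obtain ⟨b2, H2⟩ := H2 Kt (by omega)
  obtain ⟨b4, H4⟩ := H4 Kt (by omega)
  refine ⟨b0 + b1 + b2 + b4, fun K0 h1 => ?_⟩
  obtain ⟨k0, H0⟩ := H0 K0 (by omega)
  obtain ⟨K1, H2⟩ := H2 K0 (by omega)
  obtain ⟨K, hK⟩ : ∃ K, K = k0 + (K1 + 2 * K0 + 1) := ⟨_, rfl⟩
  refine ⟨K, fun Ka => ?_⟩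
  obtain ⟨b, hb⟩ : ∃ b, b = 2 * c + 5 := ⟨_, rfl⟩
  obtain ⟨a, ha⟩ : ∃ a, a = b + (1000 * K + Ka + 6) := ⟨_, rfl⟩
  obtain ⟨l0, H0⟩ := H0 K (by omega) (1000 * K)
  obtain ⟨K', l2, H2⟩ := H2 (9 * K + 6 * a + (Ka + 3))
  obtain ⟨l1, H1⟩ := H1 K0 (by omega)
  obtain ⟨l5, H4⟩ := H4 K0 (by omega) K'
  obtain ⟨l3, H3⟩ := eventually_atTop.1 (pow_S0_le (3 * c * c') (c + 60 * a) (by nlinarith))
  obtain ⟨l6, H6⟩ := eventually_atTop.1 (log_pow_le 2)
  obtain ⟨l4, h4⟩ : ∃ l4, l4 = l0 + l1 + l2 + l3 + l5 + l6 + c' + 10 ^ 9 + ⌈GD.hh ^ 6⌉₊ := ⟨_, rfl⟩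
  have LN : ∀ l ≥ l4, 10 ^ 9 ≤ LL l := fun l h => by unfold LL; omega
  have LR : ∀ l ≥ l4, (10 : ℝ) ^ 9 ≤ LL l := fun l h => by exact_mod_cast LN l h
  have gp : ∀ l ≥ l4, ∀ n d, Chw c Kt K0 l n 0 d → ∀ i ≤ n,
      ∃ S : Sd, S.toTd = d i ∧ Gp l K a b ((LL l : ℝ) ^ (1000 * K)) S := fun l hl n d h i hi => by
    obtain ⟨M, j, v, e, hM, v1, v2, e0, e1, tr, ln⟩ := h.tr i hi
    obtain ⟨rfl, r1, r2, rfl⟩ := h.ex i hi
    generalize d i = t at *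
    have o := sdOf_ok (t := t) (K := K) c1 le_rfl
    obtain ⟨nu, tk⟩ := H0 ⟨t, K, 1000 * K, M, (sdOf t K 0).n, t.L ^ (1000 * K), t.L ^ (1000 * K)⟩
      ⟨c1, hM, o.odd, o.vol, o.low, o.le, o.two, o.upp⟩ rfl r1 r2 rfl rfl (show l0 ≤ t.l by omega)
    have tok : Sd.TOk ⟨t, K, 1000 * K, M, (sdOf t K 0).n, t.L ^ (1000 * K), t.L ^ (1000 * K)⟩ :=
      ⟨j, v, e, v1, v2, e0, e1, tr, ln⟩
    obtain ⟨j', cU, u1, u2⟩ := tok.inv
    have r3 := nu.lens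
    have c3 : (1 : ℝ) ≤ t.c := by exact_mod_cast c1
    have c4 : (1 : ℝ) ≤ c' := by exact_mod_cast c2
    have k : ∀ y, (t.r : ℝ) / (3 * t.c * c') ≤ y →
        t.L ^ t.c * exp (-y) * (LL t.l : ℝ) ^ (60 * a + 120 * S0 t.l) ≤ 1 := fun y hy => by
      rw [mul_right_comm, Td.L, ← pow_add, exp_neg, ← div_eq_mul_inv, div_le_one (exp_pos _),
        ← add_assoc]
      exact (H3 _ (by omega)).trans (exp_le_exp.2 (le_of_eq_of_le (by rw [Td.r]; push_cast; rfl) hy))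
    refine ⟨_, rfl, nu, tok, tk tok, rfl, rfl, hb, rfl, rfl, fun j hj => fj_low hj (k _ ?_), _,
      (exp_pos _).le, fun j hj => fj_low hj (le_trans (mul_le_mul_of_nonneg_right
        (le_mul_of_one_le_left (exp_pos _).le (one_le_pow₀ (Sd.L1 t))) (by positivity)) (k _ ?_)),
      hd _ _ _ _ _ _ _ (show c' ≤ t.l by omega) (show 3 * t.r ≤ t.l by simp only at r3; omega)
        (show t.r / 2 + 6 ≤ t.l by simp only at r3; omega) le_rfl u1 u2⟩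
    · exact div_le_div_of_nonneg_left (by positivity) (by linarith) (by nlinarith)
    · have : (t.r : ℝ) ≤ 3 * (t.r / 2 : ℕ) := by
        exact_mod_cast (show t.r ≤ 3 * (t.r / 2) by simp only at r3; omega)
      rw [div_le_div_iff₀ (by positivity) (by positivity)]
      nlinarith [mul_le_mul_of_nonneg_right this (show (0 : ℝ) ≤ c' by linarith),
        mul_nonneg (sub_nonneg.2 c3) (show (0 : ℝ) ≤ (t.r / 2 : ℕ) * c' by positivity)]
  refine ⟨a, b, l4, by omega, by omega, fun l hl => ?_⟩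
  have G := gj_of (B := 1000 * K) (LN l hl) (Nat.ceil_le.1 (by unfold LL; omega)) (by omega) ha
  refine ⟨⟨_, _, G⟩, fun y v u t v1 v2 u0 hy ht => ?_⟩
  have L1 : (1 : ℝ) ≤ LL l := by linarith [LR l hl]
  have E0 : 0 < ((LL l : ℝ) ^ (Ka + 3))⁻¹ := by positivity
  have E1 : ((LL l : ℝ) ^ (Ka + 3))⁻¹ ≤ 1 := inv_le_one_of_one_le₀ (one_le_pow₀ L1)
  have s3 : 2 * S0 l ≤ LL l := by have := H6 l (by omega); unfold S0 LL at *; omega
  obtain ⟨d, h, m1, T1, nx, -⟩ := H1 l (by omega) 0 v (2 * 4000⁻¹) (v • (m0 + kW y))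
    (fun B => v * (TW B + tW y B)) v1 v2 (by norm_num) (by norm_num)
    ((H0 (sdOf ⟨c, Kt, K0, l, _, 0, _⟩ K (1000 * K)) (sdOf_ok c1 le_rfl) rfl rfl rfl rfl rfl
      (show l0 ≤ l by omega)).1.tr_w v1 v2 hy (by norm_num) rfl rfl)
  replace h : Chw c Kt K0 l (2 * S0 l) 0 d := ⟨fun i hi => h.ex i (by omega),
    fun i hi => h.tr i (by omega), fun i hi => h.nx i (by omega)⟩
  have : Nonempty Sd := ⟨sdOf (d 0) 0 0⟩
  choose! S eS gS using gp l hl _ d h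
  have σE : ((LL l : ℝ) ^ (9 * K + 6 * a + (Ka + 3)))⁻¹ ≤ ((LL l : ℝ) ^ (Ka + 3))⁻¹ :=
    inv_anti₀ (by positivity) (pow_le_pow_right₀ L1 (by omega))
  have td : ∀ i ≤ 2 * S0 l, TD ((LL l : ℝ) ^ K) (tf (d i).m (d i).T) := fun i hi => by
    rw [← eS i hi, ← (gS i hi).Q]
    exact td_of (gS i hi).nu (gS i hi).tok
  have W := fun j (k : ℤ) (hk : k = 1 ∨ k = 0) => by
    have t0 := td 0 (Nat.zero_le _)
    rw [m1, T1] at t0
    exact wil_w (t := t) u0 t0 (fun U x hU => by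
      rw [tf, cx_smul, cx_add, Bx_sh, zero_add, ← mul_add, add_add_add_comm,
        wd_eq (fun y _ => hU _) (by norm_num), pW_eq (fun y _ => hU _) (by norm_num), ← wc_cC,
        ← SX.cC_sh, ht]) (bg_th l a b k j) (g1 := (G j).choose)
      (by rcases hk with rfl | rfl
          exacts [(G j).choose_spec.choose_spec.2.2.2.1, (G j).choose_spec.choose_spec.2.2.2.2])
      (G j).choose_spec.choose_spec.1 (φ := fj l a j)
      (by rcases hk with rfl | rfl <;> simp [abs_of_pos, fj_pos, le_of_lt]) (fj_pos l a j)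
      (le_trans (by
        have := fj_pos l a j
        have := (G j).choose_spec.choose_spec.1
        have : ((LL l : ℝ) ^ K) ^ 20 ≤ (LL l : ℝ) ^ (1000 * K) :=
          pow_mul (LL l : ℝ) K 20 ▸ pow_le_pow_right₀ L1 (by omega)
        gcongr) ((G j).choose_spec.choose_spec.2.1.trans E1))
  refine ⟨fun j k hk => (W j k hk).1, fun x hx => ?_⟩
  have η0 : 0 ≤ ((LL l : ℝ) ^ K')⁻¹ := by positivity
  have cl := fun s (hs : s ≤ S0 l) => by
    have := H2 l (by omega) _ _ (h.sh (i := s) (m := S0 l) (by omega) η0)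
      (h.sh (i := 0) (m := S0 l) (by omega) η0) (H4 l (by omega) _ s3 d
        ⟨h.ex, h.tr, fun i hi => (h.nx i hi).imp fun _ p => ⟨p.1.trans (by positivity), p.2⟩⟩ s
          (by omega))
    simp only [add_zero, zero_add] at this
    exact this
  have cx : Cv 0 1 x := fun y hy μ ν => by
    obtain rfl : y = 0 := funext fun i => by simpa using La.mem_box.1 hy i
    exact (hx μ ν).symm ▸ (abs_kF 1 μ ν).trans_eq abs_one
  have s1 : 1 ≤ S0 l := Nat.one_le_pow _ _ (Nat.log_pos (by norm_num) (by linarith [LN l hl]))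
  have ω0 := om_pos l a b
  obtain ⟨X, hX⟩ : ∃ X : ℕ → ℕ → ℝ, ∀ i j, X i j = XX l a b (tf (d i).m (d i).T) j :=
    ⟨_, fun _ _ => rfl⟩
  obtain ⟨q, hq⟩ : ∃ q : ℕ → ℝ, ∀ i, q i = om l a b * (qc (d i).ol x x).re := ⟨_, fun _ => rfl⟩
  have g1 := gS (S0 l) (by omega)
  have g2 := gS (2 * S0 l) le_rfl
  have := tele2 (X := X) (q := q) (ε := om l a b * ((LL l : ℝ) ^ (Ka + 3))⁻¹) s1
    (fun i j hi => by
      have g := gS i (by omega)
      have := g.step (by rw [g.Q, eS i (by omega), ← (nx i (by omega)).1, ← (nx i (by omega)).2]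
                         exact td _ (by omega)) (by omega) (by omega) (G j) E1 hx
      rwa [eS i (by omega), ← (nx i (by omega)).1, ← (nx i (by omega)).2, ← hX, ← hX, ← hq] at this)
    (by
      obtain ⟨p1, p2, -⟩ := cl (S0 l) le_rfl
      have r : (d (S0 l)).r = (d (2 * S0 l)).r := by
        rw [Td.r, Td.r, (h.ex _ le_rfl).2.2.2, (h.ex _ (by omega)).2.2.2]
      have k : ∀ i ≤ 2 * S0 l, (S i).K0 = K0 := fun i hi => by rw [eS i hi, (h.ex i hi).2.2.1]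
      rw [← two_mul, r, ← eS _ le_rfl, ← eS (S0 l) (by omega)] at p1 p2
      have := xx_near (a := a) (b := b) (K1 := K1) g2.nu g2.tok g1.nu g1.tok (g1.el.trans g2.el.symm)
        (g1.eK.trans g2.eK.symm) ((k _ (by omega)).trans (k _ le_rfl).symm)
        (by rw [g2.el, g2.eβ]; exact G 0) E0 E1 (by rw [k _ le_rfl, g2.eK]; omega) (by
          rw [g2.Q, g2.el, fj]
          calc _ = (1 / ((LL l : ℝ) ^ (a + 0)) ^ 2) ^ 3 * ((LL l : ℝ) ^ (Ka + 3))⁻¹ := by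
                field_simp; ring
            _ ≤ _ := by have := hh_pos; gcongr; nlinarith [pi_gt_three, GD.hh1]) p1 (by rwa [g2.el])
      rwa [g2.el, eS _ le_rfl, eS _ (by omega), ← hX, ← hX] at this)
    (fun k hk => by
      rw [hq, hq, ← mul_sub, abs_mul, abs_of_pos ω0, ← Complex.sub_re]
      exact mul_le_mul_of_nonneg_left ((Complex.abs_re_le_norm _).trans
        (((cl k hk).2.2 x cx).trans σE)) ω0.le)
  have w : ∀ j, X 0 j = XX l a b t j := fun j => by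
    rw [hX, m1, T1, XX, XX, (W j 1 (.inl rfl)).2, (W j 0 (.inr rfl)).2]; ring
  have bd := (Complex.abs_re_le_norm _).trans
    ((g1.tk.fo (g1.nu.mono (Nat.zero_le _))).ol_ps.cb x x 1 1 cx cx)
  rw [eS _ (by omega), g1.Q, mul_one, mul_one] at bd
  refine ⟨d, ⟨fun i hi => h.ex i (by omega), fun i hi => h.tr i (by omega),
    fun i hi => h.nx i (by omega)⟩, m1, ?_, bd⟩
  have s2 : (0 : ℝ) < S0 l := by exact_mod_cast s1
  refine le_trans (b := 11 * ((LL l : ℝ) ^ (Ka + 3))⁻¹) (le_of_mul_le_mul_left ?_ (mul_pos s2 ω0)) ?_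
  · rw [← abs_of_pos (mul_pos s2 ω0), ← abs_mul, abs_of_pos (mul_pos s2 ω0), ← abs_neg]
    rw [w, w, hq] at this
    refine le_of_eq_of_le (congrArg _ ?_) (this.trans_eq (by ring))
    unfold bnw
    field_simp
    ring
  · rw [pow_add, mul_inv, mul_left_comm]
    refine mul_le_of_le_one_right (by positivity) ((div_le_one (by positivity)).2 ?_)
    linarith [LR l hl, le_self_pow₀ L1 three_ne_zero]

end Pool.Agent.Lib.MP_7f377f_mp.RG.Q4.Af
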