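import Pool.Agent.Lib.MP_7f377f_mp.G.S21A3
import Pool.Agent.Lib.MP_7f377f_mp.G.S21L
import Pool.Agent.Lib.MP_7f377f_mp.G.Q4Xw

/-! The anomalous term in the direction of Weyl type. -/

noncomputable section

set_option linter.unusedSectionVars false
variable [Pool.Agent.Lib.MP_7f377f_mp.GD]

namespace Pool.Agent.Lib.MP_7f377f_mp.RG.Q4.Af

open Finset Real Filter Topology Matrix Metric En

theorem ray_tay {h : ℂ → ℂ} {g : ℝ → ℝ} {L η D : ℝ} {A : ℕ} (hd : DifferentiableOn ℂ h (ball 0 1))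
    (hK : ∀ z ∈ ball (0 : ℂ) 1, ‖h z‖ ≤ L ^ A * η) (hg : ∀ s : ℝ, |s| < 1 → h s = g s ∧ |g s| ≤ η)
    (h0 : h 0 = 0) (hD : HasDerivAt h D 0) (η0 : 0 < η) (L2 : 2 ≤ L) (hA : 6 * A ≤ L) :
    |D| ≤ L ^ 2 * η ∧ ∀ τ : ℝ, |τ| ≤ 1 / (2 * L) → |g τ - τ * D| ≤ 6 * L ^ 3 * η * τ ^ 2 := by
  have L1 : 1 ≤ L := by linarith
  have hη : ∀ s : ℝ, |s| < 1 → ‖h s‖ ≤ η := fun s hs => by
    rw [(hg s hs).1, Complex.norm_real]; exact (hg s hs).2
  have e := le_mul_of_one_le_left η0.le (one_le_pow₀ L1 (n := A))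
  have k1 := Jet.two_const_le hd hK hη η0 e one_pos L2 hA L1 le_rfl
  rw [hD.deriv, Complex.norm_real, div_one, ← sq] at k1
  refine ⟨k1, fun τ hτ => ?_⟩
  have k2 := two_const_tay hd hK hη η0 e one_pos L2 (z := τ) (by rwa [Complex.norm_real])
  rw [hD.deriv, h0, sub_zero, (hg τ (hτ.trans_lt ((div_lt_one (by linarith)).2 (by linarith)))).1,
    ← Complex.ofReal_mul, ← Complex.ofReal_sub, Complex.norm_real, Complex.norm_real, div_one,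
    mul_div_cancel_right₀ _ η0.ne', ← rpow_natCast L A, ← rpow_mul (by linarith), norm_eq_abs τ,
    sq_abs] at k2
  have k3 : L ^ (A * (6 / L)) ≤ L := (rpow_le_rpow_of_exponent_le L1 (by
    rw [← mul_div_assoc, div_le_one (by linarith)]; linarith)).trans_eq (rpow_one L)
  refine k2.trans (le_of_le_of_eq (b := 6 * L ^ 2 * (η * L) * τ ^ 2) (by gcongr) (by ring))

theorem Tay.ray {ι : Type} [Fintype ι] {f g : (ι → ℝ) → ℝ} {Q Q' : Matrix ι ι ℝ} {C C' ρ ρ' : ℝ}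
    (h : Tay f Q C ρ) (h' : Tay g Q' C' ρ') (τ : ℝ) : Tay (fun a => f a + τ * (g a - f a))
      (Q + τ • (Q' - Q)) (C + |τ| * (C' + C)) (min ρ ρ') :=
  ⟨h.1.add ((h'.1.sub h.1).smul τ), fun a δ h1 h2 => by
    have k := h.2 a δ h1 (h2.trans (min_le_left _ _))
    have k' := (abs_sub _ _).trans (add_le_add (h'.2 a δ h1 (h2.trans (min_le_right _ _))) k)
    have := (abs_add_le _ _).trans (add_le_add k ((abs_mul τ _).trans_le
      (mul_le_mul_of_nonneg_left k' (abs_nonneg τ))))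
    simp only [add_mulVec, smul_mulVec, sub_mulVec, dotProduct_add, dotProduct_smul, dotProduct_sub,
      smul_eq_mul]
    exact le_of_eq_of_le (congrArg _ (by ring)) (this.trans_eq (by ring))⟩

theorem pW_w3 (α β γ : ℝ) (U : Cf) : pW (w3 α β γ) U =
    α * (enq (hol star U 0 0 1) + enq (hol star U 0 2 3)) +
    β * (enq (hol star U 0 0 2) + enq (hol star U 0 1 3)) +
    γ * (enq (hol star U 0 0 3) + enq (hol star U 0 1 2)) := by
  simp [pW, w3, Fin.sum_univ_four]; ring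

theorem wc_w3 (U : Cf) : wc U = pW (w3 1 1 1) U := by
  simp [pW_w3, wc, Fin.sum_univ_four]; ring

section torus

variable (N : Fin 4 → ℕ) [∀ i, NeZero (N i)] (θ : Lk → Ang)

/-- the gauge fixed Hessian of the Wilson action -/
def Hw : Matrix (IL N) (IL N) ℝ := Hs N wc θ + Dm N (ab θ) * (Dm N (ab θ))ᵀ

/-- its variation -/
def Pw : Matrix (IL N) (IL N) ℝ := Hs N (wa (10 ^ 4)⁻¹ (2 * (10 ^ 4)⁻¹)) θ - Hs N wc θ

/-- existence of the Hessian -/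
def Hx (t : Cf → ℂ) : Prop := ∃ C ρ, 0 < ρ ∧ Tay (SS N t (ab θ)) (Hs N t θ) C ρ

variable {N θ}

theorem lk_ray {g1 g2 : ℝ} (gp : Gap N (ab θ) g1 g2) (t0 : Hx N θ wc)
    (t1 : Hx N θ (wa (10 ^ 4)⁻¹ (2 * (10 ^ 4)⁻¹))) (p : (Hw N θ).PosDef)
    (b : ∀ x, |x ⬝ᵥ Pw N θ *ᵥ x| ≤ 2⁻¹ * (x ⬝ᵥ Hw N θ *ᵥ x)) :
    ∃ f : ℂ → ℂ, DifferentiableOn ℂ f (ball 0 1) ∧ f 0 = 0 ∧
      (∀ z ∈ ball (0 : ℂ) 1, ‖f z‖ ≤ Fintype.card (IL N)) ∧ (∀ τ : ℝ, |τ| < 1 →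
        f τ = (2 * (LK N (wa (τ * (10 ^ 4)⁻¹) (2 * (τ * (10 ^ 4)⁻¹))) θ - LK N wc θ) : ℝ)) ∧
      HasDerivAt f (((Hw N θ)⁻¹ * Pw N θ).trace : ℝ) 0 := by
  obtain ⟨C, ρ, r0, T0⟩ := t0
  obtain ⟨C', ρ', r1, T1⟩ := t1
  obtain ⟨f, f1, f2, f3, f4, f5⟩ := logdet_hol p (P := Pw N θ) (by
    rw [IsHermitian, conjTranspose_eq_transpose_of_trivial]; exact T1.1.sub T0.1) (by norm_num) b
  rw [show (1 : ℝ) / (2 * 2⁻¹) = 1 by norm_num] at f1 f3 f4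
  refine ⟨f, f1, f2, fun z hz => (f3 z hz).trans ?_, fun τ hτ => ?_, f5⟩
  · nlinarith [mem_ball_zero_iff.1 hz, (Nat.cast_nonneg (Fintype.card (IL N)) : (0 : ℝ) ≤ _)]
  · have e := Hs_eq (t := wa (τ * (10 ^ 4)⁻¹) (2 * (τ * (10 ^ 4)⁻¹))) ((Tay.ray T0 T1 τ).congr
      fun a _ => by
        simp only [SS, ← sum_sub_distrib, mul_sum, ← sum_add_distrib, wa, pW_w3, Complex.add_re,
          Complex.re_ofReal_mul]
        exact sum_congr rfl fun _ _ => by ring) (lt_min r0 r1)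
    have d := pow_ne_zero 2 gp.det_ne
    have q := (f4 τ hτ).1.det_pos.ne'
    rw [(f4 τ hτ).2, LK, LK, lk, lk, e, add_right_comm]
    unfold Hw Pw at *
    rw [log_div q d, log_div p.det_pos.ne' d]
    exact congrArg _ (by ring)

end torus

variable (l a b : ℕ)

/-- the response of the variation of the determinant to the flux -/
def XW (j : ℕ) : ℝ :=
  ((Hw (Tn l a b j) (th l a b 1 j))⁻¹ * Pw (Tn l a b j) (th l a b 1 j)).trace -
    ((Hw (Tn l a b j) (th l a b 0 j))⁻¹ * Pw (Tn l a b j) (th l a b 0 j)).trace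

/-- the anomalous term of a step -/
def gw : ℝ := 10 ^ 4 * ((XW l a b (2 * S0 l) - XW l a b (S0 l)) / (2 * (S0 l * om l a b)))

variable {l a b}

theorem xw_ev (hb : 1 ≤ b) (ha : b + 6 ≤ a) {ε : ℝ} (hε : 0 < ε) : ∀ᶠ l in atTop,
    ∀ j ≤ 2 * S0 l, (∀ k : ℤ, k = 1 ∨ k = 0 → Hx (Tn l a b j) (th l a b k j) wc ∧
      Hx (Tn l a b j) (th l a b k j) (wa (10 ^ 4)⁻¹ (2 * (10 ^ 4)⁻¹))) →
    (∀ k : ℤ, k = 1 ∨ k = 0 → (Hw (Tn l a b j) (th l a b k j)).PosDef ∧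
      ∀ x, |x ⬝ᵥ Pw (Tn l a b j) (th l a b k j) *ᵥ x| ≤
        2⁻¹ * (x ⬝ᵥ Hw (Tn l a b j) (th l a b k j) *ᵥ x)) ∧
    |10 ^ 4 / 2 * XW l a b j - 18 * GD.b0 / (48 * π ^ 2) * om l a b * ((b + j) * log (LL l))| ≤
      ε / 12 * om l a b * ((b + j) * log (LL l)) := by
  obtain ⟨N0, hN⟩ := xw_tr ε hε
  filter_upwards [log_pow_le 2, eventually_ge_atTop (N0 + a + 1)] with l h1 h2 j hj h
  have L0 := LL_pos' l
  have L3 : (3 : ℝ) ≤ LL l := by exact_mod_cast (show 3 ≤ LL l by unfold LL; omega)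
  have g0 : 0 < log (LL l) := log_pos (by linarith)
  have o0 := om_pos l a b
  have p3 := pi_gt_three
  have g1 := GD.hh1
  obtain ⟨⟨C, ρ, r0, T⟩, C2, ρ2, r2, T2⟩ := h 1 (.inl rfl)
  obtain ⟨⟨C0, ρ0, r1, T0⟩, C3, ρ3, r3, T3⟩ := h 0 (.inr rfl)
  have h4 : LL l ≤ LL l ^ (b + j) := Nat.le_self_pow (by omega) _
  have := hN (LL l ^ (a + j)) (LL l ^ (b + j)) (le_trans (by unfold LL; omega) h4)
    (Nat.pow_le_pow_right (Nat.succ_pos _) (by omega)) ?_ _ _ _ ?_ (bg_th l a b 1 j)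
    (by simpa using bg_th l a b 0 j) _ _ _ _ _ _ _ _ _ _ _ _ _ _ r0 r1 r2 r3 T T0 T2 T3 _ _ rfl rfl
  · obtain ⟨p1, p0, q1, q0, this⟩ := this
    have u : |((10 : ℝ) ^ 4)⁻¹| + |2 * ((10 : ℝ) ^ 4)⁻¹| = 3 / 10 ^ 4 := by norm_num [abs_of_pos]
    rw [u] at q1 q0 this
    have w : ∀ {n : Type} [Fintype n] {H : Matrix n n ℝ}, H.PosDef → ∀ x,
        16 * (3 / 10 ^ 4) * (x ⬝ᵥ H *ᵥ x) ≤ 2⁻¹ * (x ⬝ᵥ H *ᵥ x) := fun p x =>
      mul_le_mul_of_nonneg_right (by norm_num) (by simpa using p.posSemidef.dotProduct_mulVec_nonneg x)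
    refine ⟨fun k hk => ?_, ?_⟩
    · rcases hk with rfl | rfl
      exacts [⟨p1, fun x => (q1 x).trans (w p1 x)⟩, ⟨p0, fun x => (q0 x).trans (w p0 x)⟩]
    change |_ - _ * GD.b0 / _ * _ * _ * _| ≤ _ at this
    push_cast at this
    rw [log_pow, Nat.cast_add] at this
    replace this := mul_le_mul_of_nonneg_left this (show (0 : ℝ) ≤ 10 ^ 4 by norm_num)
    rw [← abs_of_pos (show (0 : ℝ) < 10 ^ 4 by norm_num), ← abs_mul, abs_of_pos (show (0 : ℝ) < 10 ^ 4 by norm_num)] at this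
    refine (le_of_eq_of_le (by
      congr 1
      simp only [XW, Hw, Pw, fj, om, pow_add]
      field_simp
      ring) this).trans ?_
    calc _ = 3 * ε / (4 * π ^ 2 * GD.hh ^ 2) * om l a b * ((b + j) * log (LL l)) := by
          simp only [om, pow_add]; field_simp
      _ ≤ _ := by
        gcongr ?_ * _ * _
        rw [div_le_div_iff₀ (by positivity) (by norm_num)]
        nlinarith [mul_le_mul (show 9 ≤ π ^ 2 by nlinarith) (one_le_pow₀ g1 (n := 2))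
          zero_le_one (sq_nonneg _)]
  · push_cast
    rw [log_pow]
    have h5 : ((a + j : ℕ) : ℝ) ≤ LL l ^ 2 := by
      unfold S0 at hj
      exact_mod_cast (show a + j ≤ LL l ^ 2 by unfold LL at *; nlinarith)
    have h6 : log (LL l) ≤ LL l := log_le_self L0.le
    calc _ ≤ (LL l : ℝ) ^ (b + j) * (LL l ^ 2 * LL l) ^ 2 := by gcongr
      _ = LL l ^ (b + 6 + j) := by ring
      _ ≤ _ := pow_le_pow_right₀ (by linarith) (by omega)
  · rw [Int.cast_one, one_mul, abs_of_pos (fj_pos l a j), fj, Nat.cast_pow,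
      div_mul_cancel₀ _ (by positivity)]
    nlinarith [pi_lt_d2]

theorem gw_lim (hb : 1 ≤ b) (ha : b + 6 ≤ a) (h : ∀ᶠ l in atTop, ∀ j (k : ℤ), k = 1 ∨ k = 0 →
    Hx (Tn l a b j) (th l a b k j) wc ∧
      Hx (Tn l a b j) (th l a b k j) (wa (10 ^ 4)⁻¹ (2 * (10 ^ 4)⁻¹))) :
    Tendsto (fun l => gw l a b / log (LL l)) atTop (𝓝 (18 * GD.b0 / (48 * π ^ 2))) := by
  refine Metric.tendsto_nhds.2 fun ε hε => ?_
  filter_upwards [h, xw_ev hb ha hε, eventually_ge_atTop 1,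
    log_top.eventually (eventually_ge_atTop b)] with l h key h2 h3
  have g0 : 0 < log (LL l) := log_pos (by exact_mod_cast (show 1 < LL l by unfold LL; omega))
  have o0 := om_pos l a b
  have s1 : b ≤ S0 l := h3.trans (Nat.le_self_pow two_ne_zero _)
  have s2 : (b : ℝ) ≤ S0 l := by exact_mod_cast s1
  have s3 : (0 : ℝ) < S0 l := by exact_mod_cast hb.trans s1
  have k1 := abs_le.1 (key _ le_rfl (h _)).2
  have k2 := abs_le.1 (key (S0 l) (by omega) (h _)).2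
  push_cast at k1
  have z := mul_pos (mul_pos s3 o0) g0
  have z1 := mul_le_mul_of_nonneg_right s2 (mul_pos (mul_pos hε o0) g0).le
  rw [Real.dist_eq, show gw l a b / log (LL l) = (10 ^ 4 / 2 * XW l a b (2 * S0 l) -
    10 ^ 4 / 2 * XW l a b (S0 l)) / (S0 l * om l a b * log (LL l)) by unfold gw; field_simp, abs_lt,
    lt_sub_iff_add_lt, sub_lt_iff_lt_add, lt_div_iff₀ z, div_lt_iff₀ z]
  constructor <;> nlinarith [mul_pos hε z]

theorem xx_ray {β E : ℝ} {j : ℕ} (G : Gj l a b β E j) (hj : j ≤ 2 * S0 l)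
    (h : ∀ k : ℤ, k = 1 ∨ k = 0 → Hx (Tn l a b j) (th l a b k j) wc ∧
      Hx (Tn l a b j) (th l a b k j) (wa (10 ^ 4)⁻¹ (2 * (10 ^ 4)⁻¹)))
    (p : ∀ k : ℤ, k = 1 ∨ k = 0 → (Hw (Tn l a b j) (th l a b k j)).PosDef ∧
      ∀ x, |x ⬝ᵥ Pw (Tn l a b j) (th l a b k j) *ᵥ x| ≤
        2⁻¹ * (x ⬝ᵥ Hw (Tn l a b j) (th l a b k j) *ᵥ x)) :
    ∃ f : ℂ → ℂ, DifferentiableOn ℂ f (ball 0 1) ∧ f 0 = 0 ∧ (∀ z ∈ ball (0 : ℂ) 1,
      ‖f z‖ ≤ 8 * GD.d * LL l ^ (4 * (a + 2 * S0 l)) * om l a b) ∧ (∀ τ : ℝ, |τ| < 1 → f τ =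
        (2 * (XX l a b (wa (τ * (10 ^ 4)⁻¹) (2 * (τ * (10 ^ 4)⁻¹))) j - XX l a b wc j) : ℝ)) ∧
      HasDerivAt f (XW l a b j) 0 := by
  obtain ⟨g1, g2, -, -, -, G1, G0⟩ := G
  obtain ⟨f, f1, f2, f3, f4, f5⟩ := lk_ray G1 (h 1 (.inl rfl)).1 (h 1 (.inl rfl)).2
    (p 1 (.inl rfl)).1 (p 1 (.inl rfl)).2
  obtain ⟨g, g1, g2, g3, g4, g5⟩ := lk_ray G0 (h 0 (.inr rfl)).1 (h 0 (.inr rfl)).2
    (p 0 (.inr rfl)).1 (p 0 (.inr rfl)).2
  refine ⟨f - g, f1.sub g1, by simp [f2, g2], fun z hz => ((norm_sub_le _ _).trans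
    (add_le_add (f3 z hz) (g3 z hz))).trans ?_, fun τ hτ => ?_, by
      rw [XW, Complex.ofReal_sub]; exact f5.sub g5⟩
  · have L1 : (1 : ℝ) ≤ LL l := by exact_mod_cast Nat.succ_pos _
    have e : 1 ≤ (LL l : ℝ) ^ (4 * (a + 2 * S0 l)) * fj l a j ^ 2 := by
      rw [fj, div_pow, ← pow_mul, ← pow_mul, ← mul_div_assoc, one_le_div (by positivity)]
      exact (pow_le_pow_right₀ L1 (by omega)).trans (le_mul_of_one_le_right (by positivity)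
        (one_le_pow₀ (by nlinarith [pi_gt_three, GD.hh1])))
    rw [Fintype.card_prod, Fintype.card_prod, Fintype.card_fin, Fintype.card_fin, ← card_Tn l a b j]
    push_cast
    nlinarith [mul_le_mul_of_nonneg_left e
      (show (0 : ℝ) ≤ GD.d * Fintype.card (TS (Tn l a b j)) by positivity)]
  · rw [Pi.sub_apply, f4 τ hτ, g4 τ hτ, ← Complex.ofReal_sub, XX, XX]
    exact congrArg _ (by ring)

theorem bnw_ray (hb : 1 ≤ b) (ha : b + 6 ≤ a) : ∀ᶠ l in atTop, ∀ η : ℝ, 1 ≤ η →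
    (∃ β E, ∀ j, Gj l a b β E j) → (∀ τ : ℝ, |τ| ≤ 1 → (∀ j (k : ℤ), k = 1 ∨ k = 0 →
      Hx (Tn l a b j) (th l a b k j) (wa (τ * (10 ^ 4)⁻¹) (2 * (τ * (10 ^ 4)⁻¹)))) ∧
      |bnw l a b (wa (τ * (10 ^ 4)⁻¹) (2 * (τ * (10 ^ 4)⁻¹)))| ≤ η) →
    |gw l a b| ≤ 10 ^ 4 * (LL l ^ 2 * (2 * η)) ∧ ∀ τ : ℝ, |τ| ≤ 1 / (2 * LL l) →
      |bnw l a b (wa (τ * (10 ^ 4)⁻¹) (2 * (τ * (10 ^ 4)⁻¹))) - bnw l a b wc +
        τ * (10 ^ 4)⁻¹ * gw l a b| ≤ 6 * LL l ^ 3 * (2 * η) * τ ^ 2 := by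
  filter_upwards [xw_ev hb ha one_pos, eventually_ge_atTop (8 * GD.d + 1), log_pow_le 3,
    log_top.eventually (eventually_ge_atTop (24 * a + 54))] with l key h1 h2 h3 η η1 ⟨β, E, G⟩ h
  have e0 : wa (0 * (10 ^ 4)⁻¹) (2 * (0 * (10 ^ 4)⁻¹)) = wc := funext fun U => by simp [wa, pW_w3]
  have t0 := h 0 (by norm_num)
  have t1 := (h 1 (by norm_num)).1
  rw [e0] at t0
  rw [one_mul] at t1
  have X := fun j hj => xx_ray (G j) hj (fun k hk => ⟨t0.1 j k hk, t1 j k hk⟩)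
    (key j hj fun k hk => ⟨t0.1 j k hk, t1 j k hk⟩).1
  obtain ⟨f, f1, f2, f3, f4, f5⟩ := X _ le_rfl
  obtain ⟨g, g1, g2, g3, g4, g5⟩ := X (S0 l) (by omega)
  have o0 := om_pos l a b
  have s1 : 1 ≤ S0 l := Nat.one_le_pow _ _ (by omega)
  have s2 : (1 : ℝ) ≤ S0 l := by exact_mod_cast s1
  have L0 := LL_pos' l
  have z : 0 < 2 * (S0 l * om l a b) := by positivity
  have := ray_tay (h := fun x => -(f x - g x) / (2 * (S0 l * om l a b) : ℝ)) (L := LL l)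
    (g := fun τ => bnw l a b (wa (τ * (10 ^ 4)⁻¹) (2 * (τ * (10 ^ 4)⁻¹))) - bnw l a b wc)
    (A := 4 * (a + 2 * S0 l) + 1) (η := 2 * η) (D := -((10 ^ 4)⁻¹ * gw l a b))
    ((f1.sub g1).neg.div_const _) (fun x hx => ?_) (fun τ hτ => ⟨?_, (abs_sub _ _).trans
      (by linarith [(h τ hτ.le).2, t0.2])⟩) (by simp [f2, g2]) ?_ (by linarith)
    (by exact_mod_cast (show 2 ≤ LL l by unfold LL; omega)) ?_
  · rw [abs_neg, abs_mul, abs_of_pos (by norm_num), inv_mul_le_iff₀ (by norm_num)] at this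
    exact ⟨this.1, fun τ hτ => le_of_eq_of_le (congrArg _ (by ring)) (this.2 τ hτ)⟩
  · rw [norm_div, norm_neg, Complex.norm_real, norm_of_nonneg z.le, div_le_iff₀ z, pow_succ]
    refine ((norm_sub_le _ _).trans (add_le_add (f3 x hx) (g3 x hx))).trans ?_
    have d1 : 8 * (GD.d : ℝ) ≤ LL l := by exact_mod_cast (show 8 * GD.d ≤ LL l by unfold LL; omega)
    calc _ = (LL l : ℝ) ^ (4 * (a + 2 * S0 l)) * (8 * GD.d) * 1 * (2 * (1 * om l a b)) := by ring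
      _ ≤ _ := by gcongr; linarith
  · rw [f4 τ hτ, g4 τ hτ, ← Complex.ofReal_sub, ← Complex.ofReal_neg, ← Complex.ofReal_div]
    exact congrArg _ (by unfold bnw; field_simp; ring)
  · refine ((f5.sub g5).neg.div_const _).congr_deriv ?_
    rw [← Complex.ofReal_sub, ← Complex.ofReal_neg, ← Complex.ofReal_div]
    exact congrArg _ (by unfold gw; field_simp)
  · have := Nat.mul_le_mul_right (S0 l) h3
    have := Nat.mul_le_mul_left (24 * a + 6) s1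
    rw [pow_succ', ← S0] at h2
    exact_mod_cast (show 6 * (4 * (a + 2 * S0 l) + 1) ≤ l by linarith).trans
      (show l ≤ LL l by unfold LL; omega)

/-- the anomalous term in the direction of Weyl type -/
theorem afd_w : AFD (kW (w3 1 0 (-1))) ((0, 1), (0, 1)) (18 * GD.b0 / (48 * π ^ 2)) := by
  refine AfD.afd fun c ⟨c1, hc⟩ => ?_
  obtain ⟨a0, H0⟩ := ref_w c c1 hc
  obtain ⟨a1, H1⟩ := chain_close_w c c1
  obtain ⟨a2, H2⟩ := chain_drift c c1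
  refine ⟨a0 + a1 + a2, fun Kt h0 => ?_⟩
  obtain ⟨b0, H0⟩ := H0 Kt (by omega)
  obtain ⟨b1, H1⟩ := H1 Kt (by omega)
  obtain ⟨b2, H2⟩ := H2 Kt (by omega)
  refine ⟨b0 + b1 + b2, fun K0 h1 => ?_⟩
  obtain ⟨K, H0⟩ := H0 K0 (by omega)
  obtain ⟨_, H1⟩ := H1 K0 (by omega)
  refine ⟨K + 6, fun Ka => ?_⟩
  obtain ⟨K', l1, H1⟩ := H1 (Ka + 1)
  obtain ⟨l2, H2⟩ := H2 K0 (by omega) (K' + 1)
  obtain ⟨a, b, l0, hb, ha, H0⟩ := H0 (Ka + 1)
  obtain ⟨l3, H3⟩ := eventually_atTop.1 (bnw_ray hb ha)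
  have hx : ∀ μ ν, dd (pt (EE (0, 1))) 0 μ ν = kF 1 μ ν := fun μ ν => by
    rw [dd_pt (as_EE _)]
    fin_cases μ <;> fin_cases ν <;> simp [EE, EZ, kF]
  have L1 : ∀ l, (1 : ℝ) ≤ LL l := fun l => by exact_mod_cast Nat.succ_pos _
  have R : ∀ l ≥ l0, ∀ τ : ℝ, |τ| ≤ 1 → (∀ j (k : ℤ), k = 1 ∨ k = 0 →
      Hx (Tn l a b j) (th l a b k j) (wa (τ * (10 ^ 4)⁻¹) (2 * (τ * (10 ^ 4)⁻¹)))) ∧
      |bnw l a b (wa (τ * (10 ^ 4)⁻¹) (2 * (τ * (10 ^ 4)⁻¹)))| ≤ 2 * LL l ^ K := fun l hl τ hτ => by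
    obtain ⟨p, q⟩ := (H0 l hl).2 _ 1 1 (wa (τ * (10 ^ 4)⁻¹) (2 * (τ * (10 ^ 4)⁻¹))) (by norm_num)
      (by norm_num) one_pos (abs_w3 (by norm_num) (by
        rw [abs_le] at *; constructor <;> linarith) (by rw [abs_le] at *; constructor <;> linarith))
      fun _ => rfl
    obtain ⟨d, -, -, q1, q2⟩ := q _ hx
    have := inv_le_one_of_one_le₀ (one_le_pow₀ (L1 l) (n := Ka + 1))
    have := one_le_pow₀ (L1 l) (n := K)
    refine ⟨p, ?_⟩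
    rw [abs_le] at *
    constructor <;> linarith
  refine ⟨K' + 1 + 2, l0 + l1 + l2 + l3 + 10 ^ 4, fun l => -bnw l a b wc, fun l => gw l a b,
    gw_lim hb ha ?_, fun l hl n hn hL d hd v s v1 v2 hs hc => ?_⟩
  · filter_upwards [eventually_ge_atTop l0] with l hl j k hk
    have t0 := (R l hl 0 (by norm_num)).1 j k hk
    have t1 := (R l hl 1 (by norm_num)).1 j k hk
    rw [show wa (0 * (10 ^ 4)⁻¹) (2 * (0 * (10 ^ 4)⁻¹)) = wc from funext fun U => by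
      simp [wa, pW_w3]] at t0
    rw [one_mul] at t1
    exact ⟨t0, t1⟩
  have L4 : (10 : ℝ) ^ 4 ≤ LL l := by exact_mod_cast (show 10 ^ 4 ≤ LL l by unfold LL; omega)
  have K1 := one_le_pow₀ (L1 l) (n := K)
  have L := L1 l
  obtain ⟨g1, g2⟩ := H3 l (by omega) _ (by linarith) (H0 l (by omega)).1 (R l (by omega))
  have s1 : |s| ≤ ((LL l : ℝ) ^ 3)⁻¹ :=
    hs.trans (inv_anti₀ (by positivity) (pow_le_pow_right₀ L (by omega)))
  have s2 : |s| ≤ 4000⁻¹ := s1.trans (inv_anti₀ (by norm_num)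
    (le_trans (by linarith) (le_self_pow₀ L three_ne_zero)))
  have s3 := abs_le.1 s2
  have s4 : 0 < 1 + s := by linarith
  obtain ⟨σ, hσ⟩ : ∃ σ, σ * (1 + s) = -s := ⟨-s / (1 + s), div_mul_cancel₀ _ s4.ne'⟩
  have s5 : |σ| ≤ 2 * |s| := by
    rw [← abs_neg s, ← hσ, abs_mul, abs_of_pos s4]; nlinarith [abs_nonneg σ]
  obtain ⟨d', h', m', q, -⟩ := ((H0 l (by omega)).2 (w3 s 0 (-s)) v (v * (1 + s)) (wa σ (2 * σ)) v1 v2
    (by positivity) (abs_w3 s2 (by norm_num) (by rwa [abs_neg])) fun U => by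
      have := congrArg ((↑) : ℝ → ℂ) hσ
      simp only [wa, wc_w3, pW_w3]
      push_cast at *
      linear_combination -(v * (enq (hol star U 0 0 2) + enq (hol star U 0 1 3) +
        2 * (enq (hol star U 0 0 3) + enq (hol star U 0 1 2)))) * this).2 _ hx
  have i : ∀ m, ((LL l : ℝ) ^ (m + 1))⁻¹ ≤ 2⁻¹ * ((LL l : ℝ) ^ m)⁻¹ := fun m => by
    rw [← mul_inv, pow_succ']; exact inv_anti₀ (by positivity) (by gcongr; linarith)
  have i' : ∀ m, 0 < ((LL l : ℝ) ^ m)⁻¹ := fun m => by positivity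
  have i1 := i (K' + 1 + 1)
  have cl := (Complex.abs_re_le_norm _).trans ((H1 l (by omega) _ d'
    (hd.sh (i := n - S0 l) (by omega) (by linarith [i K', i (K' + 1), i' K']))
    ⟨h'.ex, h'.tr, fun i hi => (h'.nx i hi).imp fun _ p => ⟨p.1.trans (i' _).le, p.2⟩⟩
    (Cd.mono (Cd.trans (H2 l (by omega) n hL d hd _ (Nat.sub_le _ _)) (by
      rw [m', show kW (w3 s 0 (-s)) = s • kW (w3 1 0 (-1)) from
        LinearMap.ext₂ fun a b => by simp only [LinearMap.smul_apply, kW_w3, smul_eq_mul]; ring]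
      exact hc)) (by linarith [i K', i (K' + 1), i' K']))).2.2 _
    ((En.cv_pt (as_EE (0, 1)) 0).mono le_rfl (norm_EE _)))
  rw [Nat.sub_add_cancel hn, Complex.sub_re] at cl
  have g3 := g2 (10 ^ 4 * σ) (by
    rw [abs_mul, abs_of_pos (by norm_num), le_div_iff₀ (by positivity)]
    rw [← one_div, le_div_iff₀ (by positivity)] at s1
    nlinarith [mul_le_mul_of_nonneg_right s5 (L.trans' zero_le_one), mul_le_mul_of_nonneg_left
      (pow_le_pow_left₀ (by norm_num) L4 2) (mul_nonneg (abs_nonneg s) (L.trans' zero_le_one))])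
  rw [show 10 ^ 4 * σ * (10 ^ 4)⁻¹ = σ by ring] at g3
  have g4 : |(s + σ) * gw l a b| ≤ 2 * s ^ 2 * (10 ^ 4 * (LL l ^ 2 * (2 * (2 * LL l ^ K)))) := by
    rw [abs_mul, show s + σ = -(σ * s) by linarith, abs_neg, abs_mul, ← sq_abs s, sq, ← mul_assoc 2]
    gcongr
  have g5 : σ ^ 2 ≤ 4 * s ^ 2 := by
    rw [← sq_abs σ, ← sq_abs s]; nlinarith [abs_nonneg σ]
  have g6 : 6 * (LL l : ℝ) ^ 3 * (2 * (2 * LL l ^ K)) * (10 ^ 4 * σ) ^ 2 +
      2 * s ^ 2 * (10 ^ 4 * (LL l ^ 2 * (2 * (2 * LL l ^ K)))) ≤ LL l ^ (K + 6) * s ^ 2 := by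
    have := pow_le_pow_right₀ L (show 2 ≤ 3 by norm_num)
    calc _ ≤ 6 * (LL l : ℝ) ^ 3 * (2 * (2 * LL l ^ K)) * (10 ^ 8 * (4 * s ^ 2)) +
          2 * s ^ 2 * (10 ^ 4 * (LL l ^ 3 * (2 * (2 * LL l ^ K)))) := by
          rw [mul_pow, ← pow_mul]; gcongr
      _ = LL l ^ (K + 3) * s ^ 2 * (96 * 10 ^ 8 + 8 * 10 ^ 4) := by ring
      _ ≤ LL l ^ (K + 3) * s ^ 2 * LL l ^ 3 := by
          gcongr; exact le_trans (by norm_num) (pow_le_pow_left₀ (by norm_num) L4 3)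
      _ = _ := by ring
  have := i Ka
  rw [abs_le] at *
  constructor <;> linarith

end Pool.Agent.Lib.MP_7f377f_mp.RG.Q4.Af
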