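import Pool.Agent.Lib.MP_7f377f_mp.G.S21P
import Pool.Agent.Lib.MP_7f377f_mp.G.Q4LinT

/-! Levels with anisotropic tree data. -/

noncomputable section

set_option linter.unusedSectionVars false
variable [Pool.Agent.Lib.MP_7f377f_mp.GD]

namespace Pool.Agent.Lib.MP_7f377f_mp.RG.Q4.En

open Finset Real La La.Q Sd Filter

/-- a level with arbitrary tree data -/
structure LG (S : Sd) : Prop where
  nu : S.Nu 100
  hM : S.M = LL S.l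
  hβ : S.β' = S.β
  vol : S.β ≤ S.nf
  tc : Tc (3 * S.r) (S.D0 : ℝ)⁻¹ (S.L ^ S.Kt) S.T
  real : ∀ B, RealF B → (S.T B).im = 0
  cb : Cb (3 * S.r) S.L S.m

namespace LG

variable {S : Sd} {xb xk xr θ d η P : ℝ} {ψ : Lx} {K : Ac} {k : Mj} {F : Mt} {f : Conf → ℂ}
  {ϑ : Lk → Ang} (h : LG S)
include h

theorem pp : S.p = S.p' := by rw [Sd.p, Sd.p', h.hM, h.hβ]

theorem QM : S.QM = S.Q := by rw [Sd.QM, h.hM]; rfl

theorem R : S.p.R = 4 * S.D0 := by rw [h.pp, p'_R]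

theorem ρ : S.p.ρ = S.Q ^ 3 * S.g := by rw [p_ρ, h.QM]

theorem rR : 3 * S.r ≤ S.p.R := by have := h.nu.lens; rw [h.R]; omega

theorem n0 : S.nf ≠ 0 := h.nu.ok.odd_nf.pos.ne'

theorem pg1 : Pg S.p 1 ∧ S.Q⁻¹ ≤ ee S.p := by
  have d : (1 : ℝ) ≤ S.D0 := by exact_mod_cast D1 _
  have a : (2 * S.p.D + 1 : ℝ) ^ 4 ≤ S.Q := by
    rw [h.pp, p'_D]
    push_cast
    refine le_trans ?_ (h.nu.mon (C := 41 ^ 4) (i := 0) (j := 4) (by norm_num) (by omega) (by omega))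
    rw [pow_zero, mul_one, ← mul_pow]
    gcongr
    linarith
  refine ⟨⟨?_, ?_, ?_, zero_le_one, ?_, sqrt_nonneg _⟩, inv_anti₀ (by positivity) a⟩
  · have := D1 S.toTd; rw [h.pp, p'_D]; omega
  · rw [h.pp, p'_a]; linarith [h.nu.logQ_ge]
  · rw [h.pp, p'_G0]; exact (pow_pos S.Q0 _).le
  · rw [p_G2, h.QM]; linarith

theorem small (d0 : 0 ≤ d) (hd : S.Q * d ≤ 4 * S.g) : 20 * (S.p.R + 1) ^ 2 * d ≤ 1 ∧
    2 * d ≤ S.p.ρ ∧ d ≤ S.p.ε ∧ 2 * d < (S.D0 : ℝ)⁻¹ ∧ (S.p.R + 1 : ℝ) ≤ 5 * S.D0 := by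
  have d1 : (1 : ℝ) ≤ S.D0 := by exact_mod_cast D1 _
  have a : (S.p.R + 1 : ℝ) ≤ 5 * S.D0 := by rw [h.R]; push_cast; linarith
  have q := h.nu.cQ' (C := 100) (by norm_num)
  have g0 := h.nu.ok.g0
  have g1 := h.nu.ok.Qg_le (i := 0) (j := 1) (by norm_num)
  have b := h.nu.mon (C := 500) (i := 0) (j := 2) (by norm_num) (by omega) (by omega)
  have c : d ≤ S.g := by nlinarith
  have c2 : S.g ≤ S.p.ε := by
    rw [p_ε, h.QM]; exact le_mul_of_one_le_left g0.le (one_le_pow₀ S.Q1)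
  refine ⟨?_, ?_, c.trans c2, ?_, a⟩
  · have : (S.p.R + 1 : ℝ) ^ 2 ≤ (5 * S.D0) ^ 2 := by gcongr
    nlinarith
  · rw [h.ρ]; nlinarith [le_self_pow₀ S.Q1 three_ne_zero]
  · rw [inv_eq_one_div, lt_div_iff₀ (by linarith)]
    nlinarith [h.nu.D_le_Q]

/-- the exponent on a constant flux -/
theorem val (hψ : PM S.p xb xk xr ψ) (r : RealP S.p ψ) (hF : As F) (hd : ‖F‖ ≤ d) (d0 : 0 < d)
    (h1 : S.Q * d ≤ 4 * S.g) (x : St) : (S.Φ ψ x (Ho.em GD.k0 (tF F))).im = 0 ∧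
      |(S.Φ ψ x (Ho.em GD.k0 (tF F))).re - (S.β * S.m (pt F) (pt F) + (qc (ψ x) (pt F) (pt F)).re)| ≤
        (S.β + xb + xk) * S.Q * d ^ 4 + xr * (2 * d / S.p.ρ) ^ 3 := by
  obtain ⟨a1, a2, -, a3, a4⟩ := h.small d0.le h1
  obtain ⟨c1, c2⟩ := cc_val (R := S.p.R) (κ := S.L) (k := ofB S.m) (fun a b δ δ' ha hb => by
    simpa using h.cb a b δ δ' (ha.mono h.rR le_rfl) (hb.mono h.rR le_rfl)) hF hd a1
  have c3 := tc_even h.tc (c1.mono h.rR le_rfl) (by linarith) a3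
  have c4 := ps_val (hψ x).1 hF hd a1 a2
  have b := Ho.real_em GD.k0 (tF F)
  have e : cx S.m (Ho.em GD.k0 (tF F)) (Ho.em GD.k0 (tF F)) = S.m (tF F) (tF F) := by
    rw [← qf_ofB _ b, qf_em, ofB_apply]
  obtain ⟨x0, x1, -⟩ := (hψ x).1.nonneg h.nu.p_ok.1.ρ0
  have b0 := h.nu.ok.β0.le
  refine ⟨by simp [Sd.Φ, e, h.real _ b, r x _ b ((Ho.cv_em GD.k0 c1).mono le_rfl a2)], ?_⟩
  have d1 : (1 : ℝ) ≤ S.D0 := by exact_mod_cast D1 _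
  have l1 : S.L ≤ S.L ^ S.Kt := le_self_pow₀ (L1 _) (by have := h.nu.exps; omega)
  have l0 := L1 S.toTd
  have q := h.nu.mon (C := 10 ^ 5) (i := S.Kt) (j := 3) (by norm_num)
    (by have := h.nu.exps; omega) (by omega)
  have s1 : (S.p.R + 1 : ℝ) ^ 3 ≤ (5 * S.D0) ^ 3 := by gcongr
  have s2 : (S.D0 : ℝ) ≤ S.D0 ^ 3 := le_self_pow₀ d1 three_ne_zero
  have s3 : 324 * S.L * (S.p.R + 1) ^ 3 + 16 * S.L ^ S.Kt * S.D0 ≤ S.Q := by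
    nlinarith [mul_le_mul l1 s1 (by positivity) (by positivity),
      mul_le_mul_of_nonneg_left s2 (show 0 ≤ S.L ^ S.Kt by positivity)]
  have s4 : 324 * (S.p.R + 1 : ℝ) ^ 3 ≤ S.Q := by
    nlinarith [mul_le_mul_of_nonneg_right l0 (show 0 ≤ (S.p.R + 1 : ℝ) ^ 3 by positivity),
      show 0 ≤ S.L ^ S.Kt * S.D0 by positivity]
  rw [← Complex.ofReal_re (S.m (pt F) (pt F)), ← Complex.re_ofReal_mul, ← ofB_apply,
    ← Complex.add_re, ← Complex.sub_re]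
  refine (Complex.abs_re_le_norm _).trans ?_
  rw [Sd.Φ, e, ← ofB_apply, show ∀ b a t p a' q : ℂ, b * (a + t) + p - (b * a' + q) =
    b * ((a - a') + t) + (p - q) from fun _ _ _ _ _ _ => by ring]
  refine (norm_add_le_of_le ((norm_mul _ _).trans_le (mul_le_mul_of_nonneg_left
    (norm_add_le_of_le c2 c3) (norm_nonneg _))) c4).trans ?_
  rw [Complex.norm_real, norm_of_nonneg b0, div_inv_eq_mul]
  nlinarith [mul_le_mul_of_nonneg_right s3 (show 0 ≤ S.β * d ^ 4 by positivity),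
    mul_le_mul_of_nonneg_right s4 (show 0 ≤ (xb + xk) * d ^ 4 by positivity)]

theorem val1 (hψ : PM S.p xb xk xr ψ) (r : RealP S.p ψ) (hx : (xb + xk) * S.g ^ 2 ≤ 1)
    (hr : xr ≤ 1) (hF : As F) (hd : ‖F‖ ≤ d) (d0 : 0 < d) (h1 : S.Q * d ≤ 4 * S.g) (x : St) :
    |(S.Φ ψ x (Ho.em GD.k0 (tF F))).re| ≤ 1 := by
  have a := (h.val hψ r hF hd d0 h1 x).2
  have c := (cv_pt hF (3 * S.r)).mono le_rfl hd
  have a1 := h.cb _ _ _ _ c c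
  have a2 := (Complex.abs_re_le_norm _).trans
    ((hψ x).1.cb _ _ _ _ (c.mono (Nat.zero_le _) le_rfl) (c.mono (Nat.zero_le _) le_rfl))
  obtain ⟨x0, x1, x2⟩ := (hψ x).1.nonneg h.nu.p_ok.1.ρ0
  have b0 := h.nu.ok.β0
  have g0 := h.nu.ok.g0
  have q := h.nu.cQ' (C := 1000) (by norm_num)
  have b1 : S.Q ^ 2 * d ^ 2 ≤ 16 * S.g ^ 2 := by
    rw [← mul_pow]; exact (pow_le_pow_left₀ (by positivity) h1 2).trans_eq (by ring)
  have b2 : S.Q ^ 2 * (S.β * d ^ 2) ≤ 16 := by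
    nlinarith [mul_le_mul_of_nonneg_left b1 b0.le, h.nu.ok.βg]
  have b3 : S.Q ^ 2 * ((xb + xk) * d ^ 2) ≤ 16 := by
    nlinarith [mul_le_mul_of_nonneg_left b1 (add_nonneg x0 x1)]
  have b4 : S.Q * (S.β * d ^ 2) ≤ 1 / 10 := by
    refine le_of_mul_le_mul_left ?_ S.Q0; nlinarith
  have b5 : S.Q * ((xb + xk) * d ^ 2) ≤ 1 / 10 := by
    refine le_of_mul_le_mul_left ?_ S.Q0; nlinarith
  have b6 : d ≤ 1 := by nlinarith [h.nu.ok.g1]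
  have b7 : d ^ 2 ≤ 1 := pow_le_one₀ d0.le b6
  have b8 : 2 * d / S.p.ρ ≤ 1 / 2 := by
    rw [div_le_iff₀ h.nu.p_ok.1.ρ0, h.ρ]
    nlinarith [mul_le_mul_of_nonneg_right (le_self_pow₀ S.Q1 three_ne_zero) g0.le]
  have b9 : xr * (2 * d / S.p.ρ) ^ 3 ≤ 1 * (1 / 2) ^ 3 := by
    have := h.nu.p_ok.1.ρ0
    gcongr
  have c1 : |S.β * S.m (pt F) (pt F)| ≤ 1 / 10 := by
    rw [abs_mul, abs_of_pos b0]
    nlinarith [mul_le_mul_of_nonneg_left a1 b0.le,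
      mul_le_mul_of_nonneg_right h.nu.L_le_Q (show 0 ≤ S.β * d ^ 2 by positivity)]
  have c2 : xb * d * d ≤ 1 / 10 := by
    nlinarith [mul_le_mul_of_nonneg_right S.Q1 (show 0 ≤ (xb + xk) * d ^ 2 by positivity),
      mul_nonneg x1 (sq_nonneg d)]
  have c3 : (S.β + xb + xk) * S.Q * d ^ 4 ≤ 1 / 5 := by
    nlinarith [mul_le_mul_of_nonneg_left b7
      (show 0 ≤ S.Q * (S.β * d ^ 2) + S.Q * ((xb + xk) * d ^ 2) by have := S.Q0; positivity)]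
  rw [abs_le] at *
  constructor <;> linarith

theorem chi (hϑ : Fx S.nf F ϑ) (hd : ‖F‖ ≤ d) (h1 : S.Q * d ≤ 4 * S.g) (x : St) :
    Fq (S.p.R + 1) S.p.ε (sh x (ab ϑ)) := fun y _ μ ν => by
  rw [Mx.fq_sh]
  exact (hϑ.fq_le _ μ ν).trans (hd.trans (h.small ((norm_nonneg _).trans hd) h1).2.2.1)

theorem tq_bd (P1 : S.Q ≤ P) (P2 : P ^ 2 ≤ S.β) : 0 < tq S.nf (S.g / P) ∧
    S.g ≤ P * tq S.nf (S.g / P) ∧ P * tq S.nf (S.g / P) ≤ 2 * S.g ∧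
      S.Q * (2 * tq S.nf (S.g / P)) ≤ 4 * S.g := by
  have P0 := S.Q0.trans_le P1
  have g0 := h.nu.ok.g0
  have b0 := h.nu.ok.β0
  have b1 : 7 * GD.hh ≤ S.β := le_trans (by linarith [GD.hh_le]) (((h.nu.gQ' (C := 7) (k := 1)
    (by norm_num) (by norm_num)).trans (le_self_pow₀ S.Q1 (by norm_num))).trans h.nu.ok.Qβ)
  have a : P * S.g ≤ 1 := le_of_sq_le_sq (by
    nlinarith [mul_le_mul_of_nonneg_right P2 (sq_nonneg S.g), h.nu.ok.βg]) zero_le_one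
  obtain ⟨a1, a2⟩ := En.tq_bd (x := S.g / P) h.n0 (by
    rw [div_mul_eq_mul_div, le_div_iff₀ P0]
    refine le_of_mul_le_mul_left ?_ g0
    have : S.β ^ 2 ≤ (S.nf : ℝ) ^ 2 := by gcongr; exact h.vol
    nlinarith [mul_le_mul_of_nonneg_left this (sq_nonneg S.g), h.nu.ok.βg,
      mul_le_mul_of_nonneg_left a GD.hh_pos.le])
  have t0 := (div_pos g0 P0).trans_le a1
  rw [div_le_iff₀' P0] at a1
  rw [← mul_div_assoc, le_div_iff₀' P0] at a2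
  exact ⟨t0, a1, a2, by nlinarith⟩

variable (hψ : PM S.p xb xk xr ψ) (hK : KM S.p S.nf k K) (h0 : kN S.p S.nf k θ)
  (r : Re S.p S.nf ψ K) (p : Rp S ψ K f) (hx : (xb + xk) * S.g ^ 2 ≤ 1) (hr : xr ≤ 1)
  (hθ : 2 * S.Q * θ ≤ 1) (P1 : S.Q ≤ P) (P2 : P ^ 2 ≤ S.β)
  (hη : S.Q ^ 2 / P ^ 2 + xr / (S.Q ^ 9 * S.g ^ 2) + 2 * P ^ 2 * θ / S.g ^ 2 ≤ η)
include hψ hK h0 r p hx hr hθ P1 P2 hη

/-- the density on flux fields -/
theorem flux0 : ∃ c, ∀ F ϑ, As F → ‖F‖ ≤ 2 * tq S.nf (S.g / P) → Fx S.nf F ϑ →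
    ((f (ab ϑ)).im = 0 ∧ 0 < (f (ab ϑ)).re) ∧ |log (f (ab ϑ)).re - c + S.nf ^ 4 *
      (S.β * S.m (pt F) (pt F) + (qc (ψ 0) (pt F) (pt F)).re)| ≤
        η * tq S.nf (S.g / P) ^ 2 * S.nf ^ 4 := by
  obtain ⟨t0, t1, t2, t3⟩ := h.tq_bd P1 P2
  obtain ⟨κ, κ0, p⟩ := p
  obtain ⟨x0, x1, x2⟩ := (hψ 0).1.nonneg h.nu.p_ok.1.ρ0
  have o := h.nu.ok.odd_nf
  have θ0 := h0.nonneg
  have P0 := S.Q0.trans_le P1
  have Q0 := S.Q0
  have g0 := h.nu.ok.g0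
  have b0 := h.nu.ok.β0
  have q := h.nu.cQ' (C := 1000) (by norm_num)
  refine ⟨log κ, fun F ϑ hF hd hϑ => ?_⟩
  have v := h.val hψ r.1 hF hd (by linarith) t3 0
  have c : ∀ x, S.Φ ψ x (Bx x (cC (ab ϑ))) = (S.Φ ψ 0 (Ho.em GD.k0 (tF F))).re := fun x => by
    rw [hϑ.bx hF, show S.Φ ψ x = S.Φ ψ 0 by unfold Sd.Φ; rw [TCov.cx o r.2.2 x]]
    exact Complex.ext rfl v.1
  obtain ⟨b1, b2⟩ := rep_log (Φ := S.Φ ψ) h.pg1.1 o hK r.2.1 h0 (le_trans (by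
    rw [inv_eq_one_div, le_div_iff₀ Q0]; linarith) h.pg1.2) hϑ.per (h.chi hϑ hd t3) c
    fun _ => h.val1 hψ r.1 hx hr hF hd (by linarith) t3 0
  rw [sum_const, nsmul_eq_mul, card_dom o] at b2
  rw [p _ hϑ.per, Complex.re_ofReal_mul, log_mul κ0.ne' b1.ne', add_sub_cancel_left]
  refine ⟨⟨Im.mul (Complex.ofReal_im _) (rep_im r.2.1 hϑ.per (h.chi hϑ hd t3) c),
    mul_pos κ0 b1⟩, ?_⟩
  have v2 := v.2
  have n0 : (0 : ℝ) ≤ S.nf ^ 4 := by positivity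
  generalize tq S.nf (S.g / P) = t at *
  have w1 : (S.β + xb + xk) * S.Q * (2 * t) ^ 4 ≤ S.Q ^ 2 / P ^ 2 * t ^ 2 := by
    rw [div_mul_eq_mul_div, le_div_iff₀ (by positivity)]
    have : (P * t) ^ 2 ≤ (2 * S.g) ^ 2 := by gcongr
    have : (S.β + xb + xk) * (P * t) ^ 2 ≤ 8 := by
      nlinarith [mul_le_mul_of_nonneg_left this (show 0 ≤ S.β + xb + xk by positivity),
        h.nu.ok.βg]
    nlinarith [mul_le_mul_of_nonneg_right this (show 0 ≤ S.Q * t ^ 2 by positivity),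
      mul_le_mul_of_nonneg_right q (show 0 ≤ S.Q * t ^ 2 by positivity)]
  have w2 : xr * (2 * (2 * t) / S.p.ρ) ^ 3 ≤ xr / (S.Q ^ 9 * S.g ^ 2) * t ^ 2 := by
    rw [h.ρ, show xr * (2 * (2 * t) / (S.Q ^ 3 * S.g)) ^ 3 =
      xr / (S.Q ^ 9 * S.g ^ 2) * t ^ 2 * (64 * t / S.g) by field_simp; norm_num]
    exact mul_le_of_le_one_right (by positivity) ((div_le_one g0).2 (by nlinarith))
  have w3 : 2 * θ ≤ 2 * P ^ 2 * θ / S.g ^ 2 * t ^ 2 := by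
    rw [div_mul_eq_mul_div, le_div_iff₀ (by positivity)]
    have : S.g ^ 2 ≤ (P * t) ^ 2 := by gcongr
    nlinarith [mul_le_mul_of_nonneg_right this θ0]
  have w4 := mul_le_mul_of_nonneg_right hη (sq_nonneg t)
  have w5 := mul_le_mul_of_nonneg_right (v2.trans
    (show _ ≤ η * t ^ 2 - 2 * θ by linarith only [w1, w2, w3, w4])) n0
  rw [← abs_of_nonneg n0, ← abs_mul, abs_of_nonneg n0, abs_le] at w5
  rw [abs_le] at b2
  exact abs_le.2 ⟨by linarith only [b2.1, w5.1, w5.2, mul_nonneg θ0 n0],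
    by linarith only [b2.2, w5.1, w5.2, mul_nonneg θ0 n0]⟩

end LG

theorem _root_.Pool.Agent.Lib.MP_7f377f_mp.RG.Q4.Tc.plus {R : ℕ} {ρ C C' : ℝ} {T T' : Fld → ℂ}
    (h : Tc R ρ C T) (h' : Tc R ρ C' T') : Tc R ρ (C + C') fun B => T B + T' B :=
  ⟨fun A B e => by rw [h.loc A B e, h'.loc A B e],
    fun Ω γ a b c => (h.hol Ω γ a b c).add (h'.hol Ω γ a b c),
    fun B d a b => (norm_add_le_of_le (h.bd B d a b) (h'.bd B d a b)).trans_eq (add_mul ..).symm,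
    fun u B => by rw [h.ad, h'.ad], h.meas.add h'.meas⟩

theorem _root_.Pool.Agent.Lib.MP_7f377f_mp.RG.Q4.Tc.shr {R : ℕ} {ρ ρ' C : ℝ} {T : Fld → ℂ}
    (h : Tc R ρ C T) (e : ρ' ≤ ρ) : Tc R ρ' C T :=
  ⟨h.loc, fun Ω γ a b c => h.hol Ω γ a b fun t ht => (c t ht).mono le_rfl e,
    fun B d a b => h.bd B d a (b.trans e), h.ad, h.meas⟩

/-- a tree step followed by a small insertion -/
def In1 (S : Sd) : Prop := ∀ j (v e lam σ : ℝ) (k : BF) (T : Fld → ℂ), 2⁻¹ ≤ v → v ≤ 2 → 0 ≤ e →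
  e ≤ 1000⁻¹ → S.Tr S.M j v e → S.Ln j v e → |lam * v - 1| ≤ 10⁻¹ → |lam - 1| ≤ 100⁻¹ → 0 ≤ σ →
  σ ≤ (10 ^ 10)⁻¹ → (∀ a b, k a b = k b a) → Cb 1 σ k → Tc (3 * S.r) (S.D0 : ℝ)⁻¹ 1 T →
  (∀ B, RealF B → (T B).im = 0) → ∀ t : Td, t.Kt = S.Kt → t.K0 = S.K0 → t.l = S.l →
  t.m = lam • S.m1 + k → (t.T = fun B => lam * S.T1 B + T B) →
    t.Tr (LL S.l) (2 * j * S.l + j + S.l) (lam * v) (e + (10 ^ 4)⁻¹)

theorem ins (c : ℕ) (hc : 1 ≤ c) : ∀ᶠ l in atTop, ∀ S : Sd, S.Nu 100 → St1 S → S.c = c → S.l = l →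
    In1 S := by
  obtain ⟨c1, H⟩ := ch_step c
  filter_upwards [pow_le_exp c (c1 + c + 1) hc, eventually_ge_atTop c1] with l h1 h2 S h s1 e1 e2 j v
    e lam σ k T v1 v2 e0 e3 ht hl v3 l1 σ0 σ1 hs hk hT hR t a1 a2 a3 a4 a5
  subst e1 e2
  obtain ⟨ρ, -, r1, hm⟩ := ht.ch
  obtain ⟨l2, l3⟩ := abs_le.1 l1
  obtain ⟨v4, v5⟩ := abs_le.1 v3
  have lb := h.l_big
  have L0 := L0 S.toTd
  have L6 := h.cL' (C := 10 ^ 6) (by norm_num)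
  have t1 : (LL S.l : ℝ) ^ c1 * S.τ ≤ (10 ^ 6)⁻¹ := by
    refine le_trans ?_ (inv_anti₀ (by norm_num) L6)
    rw [Td.τ, ← mul_assoc, ← Td.L, ← pow_add, exp_neg, ← div_eq_mul_inv, div_le_iff₀ (exp_pos _),
      le_inv_mul_iff₀ L0, ← pow_succ']
    exact h1
  have e4 : t.r = S.r := by rw [Td.r, a3, Td.r]
  have c1 := H S.l S.r j ρ 3 S.τ _ v e (2 * σ) lam S.m (lam⁻¹ • k) S.s h2 (by omega) (by norm_num)
    Nu.τ0.le (by linarith) v1 v2 (by linarith) e0 (by push_cast; linarith) hm hl.lin hl.inv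
    (fun a b => by simp [hs a]) fun a b δ δ' ha hb => by
      have := mul_le_mul (show |lam⁻¹| ≤ 2 by
        rw [abs_inv, abs_of_pos (by linarith)]
        exact inv_le_of_inv_le₀ two_pos (by linarith)) (hk a b δ δ' ha hb) (abs_nonneg _) zero_le_two
      rw [← abs_mul] at this
      exact this.trans_eq (by ring)
  rw [smul_add, smul_inv_smul₀ (by linarith)] at c1
  obtain ⟨-, c2, c3⟩ := (s1 j v e (1.05 * lam) v1 v2 e0 e3 ht hl (by linarith) (abs_le.2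
    ⟨by linarith, by linarith⟩)).2 ⟨t.c, t.Kt, t.K0, t.l, (1.05 * lam) • S.m1, t.s,
      fun B => (1.05 * lam : ℝ) * S.T1 B⟩ a1 a2 (.inl (by rw [a3])) rfl rfl
  have c4 : (fun B => lam * S.T1 B) = fun B => ((1.05⁻¹ : ℝ) : ℂ) * ((1.05 * lam : ℝ) * S.T1 B) :=
    funext fun B => by rw [← mul_assoc, ← Complex.ofReal_mul, inv_mul_cancel_left₀ (by norm_num)]
  refine ⟨⟨3, by norm_num, le_rfl, a4 ▸ c1.mono (by linarith) (by have := h.lens.1; omega)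
    (by push_cast; linarith)⟩, ?_, fun B hB => ?_⟩
  · have c5 := c2.smul 1.05⁻¹
    rw [← c4] at c5
    rw [a5]
    rw [← e4, D0_eq, ← a2] at hT
    refine (c5.plus hT).weak ?_
    have : S.L ≤ (LL S.l : ℝ) ^ t.Kt := le_self_pow₀ (L1 _) (by have := h.exps; omega)
    rw [abs_of_pos (by norm_num)]
    change _ * (LL S.l : ℝ) ^ t.Kt + 1 ≤ _
    linarith
  · have := c3 B hB
    rw [Complex.im_ofReal_mul, mul_eq_zero] at this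
    simp [a5, hR B hB, this.resolve_left (by linarith)]

end Pool.Agent.Lib.MP_7f377f_mp.RG.Q4.En
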