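import Pool.Agent.Lib.MP_7f377f_mp.G.Q4AfG
import Pool.Agent.Lib.MP_7f377f_mp.G.Q4AfH

/-! Hessians at backgrounds with constant flux in two orthogonal planes. -/

noncomputable section

set_option linter.unusedSectionVars false
variable [Pool.Agent.Lib.MP_7f377f_mp.GD]

namespace Pool.Agent.Lib.MP_7f377f_mp.RG.Q4.Af.Tp

open Finset Matrix Kit Kit.Dom

/-- curvature `F.1` in the plane 01 and `F.2` in the plane 23 -/
def kF (F : ℝ × ℝ) (μ ν : Fin 4) : ℝ :=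
  if μ = 0 ∧ ν = 1 then F.1 else if μ = 1 ∧ ν = 0 then -F.1 else
    if μ = 2 ∧ ν = 3 then F.2 else if μ = 3 ∧ ν = 2 then -F.2 else 0

/-- periodic backgrounds of constant flux -/
structure Bg (N : Fin 4 → ℕ) (F : ℝ × ℝ) (θ : Lk → Ang) : Prop where
  per : PV N θ
  curv : ∀ x μ ν, dd θ x μ ν = (kF F μ ν : ℝ)

/-- a potential with curvature `kF F` -/
def aF (F : ℝ × ℝ) : V := fun e =>
  if e.2 = 1 then F.1 * e.1 0 else if e.2 = 3 then F.2 * e.1 2 else 0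

/-- the same in the comb gauge, in the chart -/
def gF (F : ℝ × ℝ) : Fld := fun e => nA (tnA (cg (aF F) e))

/-- the part of the fine background which is the same in all blocks -/
def bF (l : ℕ) (F : ℝ × ℝ) : V := fun f =>
  if f.2 = 0 then -(F.1 / (LL l : ℝ) ^ 2 * ps l f.1 1)
  else if f.2 = 1 ∧ ps l f.1 1 = l then F.1 / (LL l : ℝ) * ps l f.1 0
  else if f.2 = 2 then -(F.2 / (LL l : ℝ) ^ 2 * ps l f.1 3)
  else if f.2 = 3 ∧ ps l f.1 3 = l then F.2 / (LL l : ℝ) * ps l f.1 2 else 0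

/-- the fine background in the tree gauge -/
def lift (l : ℕ) (F : ℝ × ℝ) (θ : Lk → Ang) : Lk → Ang :=
  fun f => (bF l F f : ℝ) + izA l θ f

theorem kF_one (F : ℝ) : kF (F, 0) = Q4.kF F := by
  funext μ ν; simp [kF, Q4.kF]

theorem aF_one (F : ℝ) : aF (F, 0) = Af.aF F := by
  funext e; simp [aF, Af.aF]

theorem abs_fst (F : ℝ × ℝ) : |F.1| ≤ ‖F‖ := norm_fst_le F

theorem abs_snd (F : ℝ × ℝ) : |F.2| ≤ ‖F‖ := norm_snd_le F

theorem kF_smul (c : ℝ) (F : ℝ × ℝ) : kF (c • F) = c • kF F := by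
  funext μ ν; simp only [kF, Pi.smul_apply]; split_ifs <;> simp

theorem aF_smul (c : ℝ) (F : ℝ × ℝ) : aF (c • F) = c • aF F := by
  funext e; simp only [aF, Pi.smul_apply]; split_ifs <;> simp [mul_assoc]

theorem dd_aF (F : ℝ × ℝ) (x : St) (μ ν : Fin 4) : dd (aF F) x μ ν = kF F μ ν := by
  fin_cases μ <;> fin_cases ν <;> simp [dd, aF, kF, un_apply] <;> ring

theorem abs_kF (F : ℝ × ℝ) (μ ν : Fin 4) : |kF F μ ν| ≤ ‖F‖ := by
  unfold kF; split_ifs <;> simp [abs_fst, abs_snd]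

theorem cg_aF_le (F : ℝ × ℝ) {R : ℕ} {e : Lk} (he : e ∈ lbox R) : |cg (aF F) e| ≤ 3 * R * ‖F‖ :=
  Sm_cg (a := aF F) (fun x _ μ ν => by rw [dd_aF]; exact abs_kF F μ ν) e he

theorem cg_flux {F : ℝ × ℝ} {θ : Lk → Ang} (h : ∀ x μ ν, dd θ x μ ν = (kF F μ ν : ℝ)) (x : St) :
    cg (sh x θ) = fun e => ((cg (aF F) e : ℝ) : Ang) := by
  rw [← show cg (fun e => Ang.coeHom (aF F e)) = fun e => ((cg (aF F) e : ℝ) : Ang) from
    cg_map Ang.coeHom (aF F)]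
  refine cg_of_dd ?_
  funext y μ ν
  rw [dd_sh, h, ← dd_aF F y]
  simp [dd]

theorem gF_spec {F : ℝ × ℝ} {R : ℕ} (h : 6 * R * ‖F‖ ≤ 1) {e : Lk} (he : e ∈ lbox R) :
    ex (gF F e) = cS (eA (cg (aF F) e : ℝ)) ∧ ‖gF F e‖ ≤ 6 * R * ‖F‖ :=
  have := ex_tan (x := cg (aF F) e) ((cg_aF_le F he).trans (by linarith))
  ⟨this.1, this.2.trans (by linarith [cg_aF_le F he])⟩

variable {N : Fin 4 → ℕ} [∀ i, NeZero (N i)] {F : ℝ × ℝ} {δ M C ρ : ℝ} {R : ℕ} {t : Cf → ℂ}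
  {θ : Lk → Ang}

theorem crit (h : L1 R δ M t) (h1 : δ ≤ 1 / 10) (h0 : 0 < δ) (hF : 120 * R * ‖F‖ ≤ δ)
    (a : IL N → ℝ) : ∑ x, (dv (ph t (exF (gF F))) 0 (tl θ x a)).re = 0 := by
  have hg := fun e he => gF_spec (F := F) (R := R) (by linarith) (e := e) he
  have d0 : 0 < δ / 20 := by linarith
  have hg' : ∀ e ∈ lbox R, ‖gF F e‖ ≤ δ / 20 := fun e he => (hg e he).2.trans (by linarith)
  obtain ⟨p, q⟩ := h.lh1 d0 h1 hg'
  obtain ⟨L, -, -, -, hL, -⟩ := LH_tay p q (sD_all _ d0)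
  replace hL : ∀ v, L v = dv (ph t (exF (gF F))) 0 v := hL
  have e2 : ∀ x (a : IL N → ℝ), L (tl θ x (rt (Equiv.refl _) a)) = L (tl θ x a) := fun x a => by
    rw [hL, hL]
    refine (q2_congr fun s => ?_).2
    rw [← ph_ga h (fun _ => zA) _ (0 + s • tl θ x a)]
    refine h.loc _ _ fun e he => ?_
    have h1 : ∀ φ, cS zA * cS (eA φ) * star (cS zA) = cS (eA φ) := fun φ => by
      rw [← cS_inv, ← cS_mul, ← cS_mul, zA, eA_comm, mul_inv_cancel_right]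
    simp only [ga, exF, (hg e he).1, h1, zero_add, Pi.smul_apply, adq_smul, sh_ab, cmb_ab, tl]
    have h2 : ∀ φ b, adq (cS zA) (adq (cS (eA φ)) (cR b)) = adq (cS (eA φ)) (cR (Rm zA *ᵥ b)) :=
      fun φ b => by rw [cR_Rm, ← adq_mul (uni_cS _), ← adq_mul (uni_cS _), ← cS_mul, ← cS_mul, zA,
        eA_comm]
    rw [h2]
    rfl
  have e3 : ∑ x, L (tl θ x (nP (Equiv.refl _) a)) = 0 := by
    have hb := nP_nP (e := Equiv.refl _) a
    generalize nP (Equiv.refl _) a = b at hb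
    have := (hL _).trans ((h.neutral d0 h1 hg' (fun e he => (hg e he).1) 0
      (fun y k => -∑ μ, y μ * ∑ x, b ((x, μ), k)) fun y k hk => by
        rw [← hb]; simp [nP, hk]).1.trans (hL _).symm)
    rw [show (fun i : Lk => cR ((0 : Lk → Fin GD.d → ℝ) i)) = 0 from
      funext fun _ => cR_zero, map_zero] at this
    rw [← map_sum, this]
    refine congrArg _ (funext fun e => funext fun k => ?_)
    have s1 := sum_shift (N := N) (g := fun y => b (pk N (y, e.2), k))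
      (fun x y h => by simp only [pk, h]) e.1
    simp only [pk, cs_lf, add_comm (lf _)] at s1
    simp only [Finset.sum_apply, tl_neutral _ hb, pk, cR_apply, ← Complex.ofReal_sum,
      s1, tg, Pi.add_apply, Pi.sub_apply, Int.cast_add, add_mul, sum_add_distrib, Pi.zero_apply]
    simp [un_apply]
  have e4 : ∀ x, L (tl θ x a) + L (tl θ x a) + L (tl θ x a) = L (tl θ x (nP (Equiv.refl _) a)) +
      L (tl θ x (nP (Equiv.refl _) a)) + L (tl θ x (nP (Equiv.refl _) a)) := fun x => by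
    nth_rewrite 3 [← e2 x]
    nth_rewrite 2 [← e2 x, ← e2 x]
    simp only [← map_add, ← tl_add]
    rw [add_right_comm, rt_sum]
    exact congrArg _ (congrArg _ (by module))
  have e5 := sum_congr rfl fun x (_ : x ∈ univ) => e4 x
  simp only [sum_add_distrib, e3] at e5
  simp only [← hL, ← Complex.re_sum, show ∑ x, L (tl θ x a) = 0 by linear_combination e5 / 3,
    Complex.zero_re]

theorem hess0 (h : L1 R δ M t) (h1 : δ ≤ 1 / 10) (h0 : 0 < δ)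
    (hc : ∀ x μ ν, dd θ x μ ν = (kF F μ ν : ℝ)) (hF : 120 * R * ‖F‖ ≤ δ) :
    ∃ Q, Tay (SS N t (ab θ)) Q (Fintype.card (TS N) * (12 * M / (δ / (20 * GD.cG)) ^ 3))
      (δ / (20 * GD.cG)) ∧
      ∀ a, a ⬝ᵥ Q *ᵥ a = ∑ x, (q2 (ph t (exF (gF F))) 0 (tl θ x a)).re := by
  have hg := fun e he => gF_spec (F := F) (R := R) (by linarith) (e := e) he
  have d0 : 0 < δ / 20 := by linarith
  have hg' : ∀ e ∈ lbox R, ‖gF F e‖ ≤ δ / 20 := fun e he => (hg e he).2.trans (by linarith)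
  obtain ⟨ℓ, Q, a1, a2, a3⟩ := h.tay_fam d0 h1 hg' (fun x : TS N => sh (lf x) (ab θ))
    (fun x => cmb Inv.inv (sh (lf x) (ab θ))) (fun x e he => by
      rw [(hg e he).1, ← congrFun (cg_flux hc (lf x)) e, ← show ab _ e = eA _ from rfl, ← fix_ab]
      simp only [ga, gauge, cS_mul, cS_inv, sh_ab])
    (fun x e k => ((cs N (e.1 + lf x), e.2), k))
  exact ⟨Q, a1.congr fun a _ => by rw [(a2 a).trans (crit h h1 h0 hF a), sub_zero]; rfl, a3⟩

variable {Q : Matrix (IL N) (IL N) ℝ}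

theorem hess_kill2 (h : L1 R δ M t) (h1 : δ ≤ 1 / 10)
    (h0 : 0 < δ) (hc : ∀ x μ ν, dd θ x μ ν = (kF F μ ν : ℝ)) (hF : 120 * R * ‖F‖ ≤ δ)
    (T : Tay (SS N t (ab θ)) Q C ρ) (r0 : 0 < ρ) (v : Fin 4 → Fin GD.d → ℝ)
    (hv : ∀ μ k, GD.q k ≠ 0 → v μ k = 0) : Q *ᵥ (fun i => v i.1.2 i.2) = 0 := by
  have c1 := GD.cG1
  obtain ⟨Q', T', hQ⟩ := hess0 (N := N) h h1 h0 hc hF
  obtain rfl := T.unique r0 T' (by positivity)
  have hg := fun e he => gF_spec (F := F) (R := R) (by linarith) (e := e) he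
  refine kill_of_quad T.1 fun a => ?_
  rw [hQ, hQ]
  refine sum_congr rfl fun x _ => congrArg _ ?_
  have := (h.neutral (by linarith) h1 (fun e he => (hg e he).2.trans (by linarith))
    (fun e he => (hg e he).1) (fun e => Rm (cmb Inv.inv (sh (lf x) (ab θ)) e.1) *ᵥ
      fun k => a ((cs N (e.1 + lf x), e.2), k)) (fun y k => -∑ μ, y μ * v μ k)
    fun y k hk => by simp [hv _ k hk]).2
  simp only [cR_add, cR_Rm] at this
  refine Eq.trans (congrArg _ ?_) this.symm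
  funext e
  rw [tl_add, Pi.add_apply, tl_neutral x (a := fun i => v i.1.2 i.2) (by
    funext j; by_cases h : GD.q j.2 = 0 <;> simp [nP, h, hv])]
  refine congrArg₂ _ rfl (congrArg _ (funext fun k => ?_))
  simp only [tg, Pi.add_apply, Pi.sub_apply, Int.cast_add, add_mul, sum_add_distrib]
  simp [un_apply, pk]

theorem hess_kill (h : L1 R δ M t) (h1 : δ ≤ 1 / 10)
    (h0 : 0 < δ) (hp : PV N θ) (hc : ∀ x μ ν, dd θ x μ ν = (kF F μ ν : ℝ)) (hF : 120 * R * ‖F‖ ≤ δ)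
    (T : Tay (SS N t (ab θ)) Q C ρ) (r0 : 0 < ρ) (v : IG N → ℝ) : Q *ᵥ DL N (ab θ) v = 0 := by
  have k := congrArg₂ (· + ·) (hess_kill1 h hp T r0 (gl v))
    (hess_kill2 h h1 h0 hc hF T r0 (sv v) fun _ _ h => dif_neg h)
  simp only [← mulVec_add, add_zero] at k
  exact k

theorem quad_est (h : L1 R δ M t) (h1 : δ ≤ 1 / 10) (h0 : 0 < δ) (hp : PV N θ)
    (hc : ∀ x μ ν, dd θ x μ ν = (kF F μ ν : ℝ)) (hF : 120 * R * ‖F‖ ≤ δ)
    (T : Tay (SS N t (ab θ)) Q C ρ) (r0 : 0 < ρ) {σ c K : ℝ} (K0 : 0 ≤ K)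
    (H : ∀ (A : Fld) a, RealF A → 0 ≤ a → Sm R a A → c * ∑ μ, ∑ ν, ∑ k, (dd A 0 μ ν k).re ^ 2 -
      K * a ^ 2 ≤ σ * (q2 (ph t (exF (gF F))) 0 A).re) (a : IL N → ℝ) :
    c * CQ (ab θ) a - 144 * (2 * R + 1) ^ 6 * K * NQ (ab θ) a ≤ σ * (a ⬝ᵥ Q *ᵥ a) := by
  obtain ⟨Q', T', hQ⟩ := hess0 (N := N) h h1 h0 hc hF
  have c1 := GD.cG1
  obtain rfl := T.unique r0 T' (by positivity)
  have hg := fun e he => gF_spec (F := F) (R := R) (by linarith) (e := e) he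
  have hb := nP_nP (e := Equiv.refl _) a
  set b := a - nP (Equiv.refl _) a with hb'
  have e1 : ∀ x, c * ∑ μ, ∑ ν, ∑ k, crl (ab θ) b x μ ν k ^ 2 -
      K * (144 * ∑ y ∈ box R, ∑ μ, ∑ k, b ((cs N (y + lf x), μ), k) ^ 2) ≤
      σ * (q2 (ph t (exF (gF F))) 0 (tl θ x b)).re := fun x => by
    have := H (tl θ x b) (12 * √(∑ y ∈ box R, ∑ μ, ∑ k, b ((cs N (y + lf x), μ), k) ^ 2))
      (fun e k => by rw [tl, ← cR_Rm]; simp [cR_apply]) (by positivity) fun e he => by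
        refine (norm_adq_cS _ _).trans (mul_le_mul_of_nonneg_left (cR_le ?_) (by norm_num))
        exact (single_le_sum (f := fun μ => ∑ k,
          b ((cs N (e.1 + lf x), μ), k) ^ 2) (fun _ _ => by positivity) (mem_univ e.2)).trans
          (single_le_sum (f := fun y => ∑ μ, ∑ k, b ((cs N (y + lf x), μ), k) ^ 2)
            (fun _ _ => by positivity) (mem_lbox.1 he))
    rw [mul_pow, Real.sq_sqrt (by positivity)] at this
    simpa only [dd_tl, cR_apply, Complex.ofReal_re, show (12 : ℝ) ^ 2 = 144 by norm_num] using this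
  obtain ⟨g, eg⟩ : ∃ g : TS N → Fin 4 → Fin 4 → ℝ,
    ∀ x μ ν, ∑ k with GD.q k = 0, crl (ab θ) a x μ ν k ^ 2 = g x μ ν := ⟨_, fun _ _ _ => rfl⟩
  have g0 : ∀ x μ ν, 0 ≤ g x μ ν := fun _ _ _ => eg .. ▸ by positivity
  have g1 : ∀ x μ, 0 ≤ ∑ ν, g x μ ν := fun _ _ => sum_nonneg fun _ _ => g0 _ _ _
  have g2 : ∀ x, 0 ≤ ∑ μ, ∑ ν, g x μ ν := fun _ => sum_nonneg fun _ _ => g1 _ _
  have e2 : ∀ x, c * ∑ μ, ∑ ν, g x μ ν -
      K * (9 * R ^ 2 * ∑ y ∈ box R, ∑ μ, ∑ ν, g (cs N (y + lf x)) μ ν) ≤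
      σ * (q2 (ph t (exF (gF F))) 0 (tl θ x (nP (Equiv.refl _) a))).re := fun x => by
    let α : Lk → Fin GD.d → ℝ := fun e k => nP (Equiv.refl _) a (pk N (e.1 + lf x, e.2), k)
    have d : ∀ y μ ν, ∑ k, dd α y μ ν k ^ 2 = g (cs N (y + lf x)) μ ν := fun y μ ν => by
      refine (sum_congr rfl fun k _ => ?_).trans ((sum_filter _ _).symm.trans (eg ..))
      split_ifs with h <;>
        simp [dd, α, pk, crl_zero, add_right_comm y (un _), cs_add_un, nP, h]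
    have d1 : ∀ y μ ν, dd (fun e => cR (α e)) y μ ν = cR (dd α y μ ν) := fun y μ ν => by
      simp only [dd, sub_eq_add_neg, cR_add, cR_neg]
    have d2 : cg (fun e => cR (α e)) = fun e => cR (cg α e) := cg_map (.mk' cR cR_add) α
    have := H (cg fun e => cR (α e)) (3 * R * √(∑ y ∈ box R, ∑ μ, ∑ ν, g (cs N (y + lf x)) μ ν))
      (fun e k => by rw [d2]; exact Complex.ofReal_im _) (by positivity)
        (Sm_cg fun y hy μ ν => by
          rw [d1]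
          exact cR_le ((d y μ ν).trans_le ((single_le_sum (fun ν _ => g0 _ μ ν) (mem_univ ν)).trans
            ((single_le_sum (fun μ _ => g1 _ μ) (mem_univ μ)).trans
            (single_le_sum (f := fun y => ∑ μ, ∑ ν, g (cs N (y + lf x)) μ ν)
              (fun _ _ => g2 _) hy)))))
    have n := (h.neutral (by linarith) h1 (fun e he => (hg e he).2.trans (by linarith))
      (fun e he => (hg e he).1) α (lam α) fun y k hk => by simp [lam, pr, α, nP, hk]).2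
    rw [mul_pow, Real.sq_sqrt (sum_nonneg fun _ _ => g2 _)] at this
    simp only [dd_cg, d1, cR_apply, Complex.ofReal_re, d, zero_add, cs_lf] at this
    rw [tl_neutral _ hb]
    refine (le_of_eq (by ring)).trans (this.trans_eq ?_)
    congr 2
    refine Eq.trans ?_ n.symm
    rw [d2]
    congr 1
    funext e
    rw [cg_apply]; congr 1; abel
  have s1 := sum_le_sum fun x (_ : x ∈ univ) => e1 x
  have s2 := sum_le_sum fun x (_ : x ∈ univ) => e2 x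
  simp only [sum_sub_distrib, ← mul_sum, ← hQ] at s1 s2
  rw [sum_loc R fun x => ∑ μ, ∑ k, b ((x, μ), k) ^ 2] at s1
  rw [sum_loc R fun x => ∑ μ, ∑ ν, g x μ ν] at s2
  have e3 : ∑ x, ∑ μ, ∑ k, b ((x, μ), k) ^ 2 = ∑ i with GD.q i.2 ≠ 0, a i ^ 2 := by
    rw [sum_filter, Fintype.sum_prod_type, Fintype.sum_prod_type]
    refine sum_congr rfl fun _ _ => sum_congr rfl fun _ _ => sum_congr rfl fun k _ => ?_
    by_cases hk : GD.q k = 0 <;> simp [hb', nP, hk]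
  have e4 : CQ (ab θ) a = ∑ x, ∑ μ, ∑ ν, ∑ k, crl (ab θ) b x μ ν k ^ 2 +
      ∑ x, ∑ μ, ∑ ν, g x μ ν := by
    simp only [CQ, ← crl_charged a, sum_add_distrib, hb', eg]
  rw [hess_split h hp T r0, e4, NQ, ← e3, ← hb']
  simp only [eg]
  have X0 : 0 ≤ (2 * R + 1 : ℝ) ^ 4 * K * ∑ x, ∑ μ, ∑ k, b ((x, μ), k) ^ 2 := by positivity
  have Y0 : 0 ≤ (2 * R + 1 : ℝ) ^ 4 * K * ∑ x, ∑ μ, ∑ ν, g x μ ν :=
    mul_nonneg (by positivity) (sum_nonneg fun _ _ => g2 _)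
  have R0 : (0 : ℝ) ≤ R := R.cast_nonneg
  nlinarith [mul_le_mul_of_nonneg_right (show (144 : ℝ) ≤ 144 * (2 * R + 1) ^ 2 by nlinarith) X0,
    mul_le_mul_of_nonneg_right (show (9 * R ^ 2 : ℝ) ≤ 144 * (2 * R + 1) ^ 2 by nlinarith) Y0]

theorem quad_U (h : L1 R δ M t) (h1 : δ ≤ 1 / 10) (h0 : 0 < δ) (hp : PV N θ)
    (hc : ∀ x μ ν, dd θ x μ ν = (kF F μ ν : ℝ)) (hF : 600 * R * ‖F‖ ≤ δ)
    (T : Tay (SS N t (ab θ)) Q C ρ) (r0 : 0 < ρ) (a : IL N → ℝ) :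
    |a ⬝ᵥ Q *ᵥ a| ≤ 144 * (2 * R + 1) ^ 6 * (5000 * M / δ ^ 2) * NQ (ab θ) a := by
  have F0 : 0 ≤ R * ‖F‖ := by positivity
  have M0 := h.nonneg h0.le
  have q := fun (A : Fld) a (a0 : 0 ≤ a) (hA : Sm R a A) => abs_le.1 ((Complex.abs_re_le_norm _).trans
    (h.q2_le (g := gF F) h1 (η := δ / 100) (by linarith) (by linarith) (fun e he =>
      (gF_spec (by linarith) he).2.trans (by linarith)) a0 hA).2)
  have a1 := quad_est h h1 h0 hp hc (by linarith) T r0 (σ := 1) (c := 0) (K := 5000 * M / δ ^ 2)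
    (by positivity) (fun A a _ a0 hA => by simpa using! (q A a a0 hA).1) a
  have a2 := quad_est h h1 h0 hp hc (by linarith) T r0 (σ := -1) (c := 0) (K := 5000 * M / δ ^ 2)
    (by positivity) (fun A a _ a0 hA => by simpa using! (q A a a0 hA).2) a
  exact abs_le.2 ⟨by linarith, by linarith⟩

theorem quad_L (h : L1 R δ M t) (h1 : δ ≤ 1 / 10) (hp : PV N θ)
    (hc : ∀ x μ ν, dd θ x μ ν = (kF F μ ν : ℝ)) {η c : ℝ} (η0 : 0 < η) (hF : 6 * R * ‖F‖ ≤ η)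
    (η1 : 100 * η ≤ δ) (T : Tay (SS N t (ab θ)) Q C ρ) (r0 : 0 < ρ)
    (H : ∀ A : Fld, RealF A → c * ∑ μ, ∑ ν, ∑ k, (dd A 0 μ ν k).re ^ 2 ≤ (q2 (ph t 1) 0 A).re)
    (a : IL N → ℝ) : c * CQ (ab θ) a -
      144 * (2 * R + 1) ^ 6 * (256000 * M * η / δ ^ 3) * NQ (ab θ) a ≤ a ⬝ᵥ Q *ᵥ a := by
  have h0 : 0 < δ := by linarith
  have M0 := h.nonneg h0.le
  refine (quad_est h h1 h0 hp hc (by linarith) T r0 (σ := 1) (by positivity)
    (fun A a hr a0 hA => ?_) a).trans_eq (one_mul _)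
  have := abs_le.1 ((Complex.abs_re_le_norm _).trans (h.q2_le (g := gF F) h1 η0 η1 (fun e he =>
    (gF_spec (by linarith) he).2.trans hF) a0 hA).1)
  rw [Complex.sub_re] at this
  change _ ≤ 1 * (q2 (ph t fun i => ex (gF F i)) 0 A).re
  linarith [H A hr]

end Pool.Agent.Lib.MP_7f377f_mp.RG.Q4.Af.Tp
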