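import Pool.Agent.Lib.MP_7f377f_mp.G.Q4AfBr
import Pool.Agent.Lib.MP_7f377f_mp.G.Q4AfK
import Pool.Agent.Lib.MP_7f377f_mp.G.TyA
import Pool.Agent.Lib.MP_7f377f_mp.G.S21F
import Pool.Agent.Lib.MP_7f377f_mp.G.S21A0

/-! The anomalous dimensions: interfaces between the chains of tree steps and the flow. -/

noncomputable section

set_option linter.unusedSectionVars false
variable [Pool.Agent.Lib.MP_7f377f_mp.GD]

namespace Pool.Agent.Lib.MP_7f377f_mp.RG.Q4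

open Filter Topology En En.Ty

/-- a marginal direction of type `T`, normalised by the entry `e` -/
structure Dir (T : Ty) (e : Pl × Pl) (k : BF) (T1 : Fld → ℂ) : Prop where
  symm : ∀ a b, k a b = k b a
  cb : ∃ σ, 0 ≤ σ ∧ Cb 1 σ k
  one : k (pt (EE e.1)) (pt (EE e.2)) = 1
  typ : ∀ g ∈ T, ∀ F, As F → k (pt (Ty.mt g.1 F)) (pt (Ty.mt g.1 F)) = sb g.2 * k (pt F) (pt F)
  tc : ∃ ρ C, 0 < ρ ∧ Tc 2 ρ C T1
  real : ∀ B, RealF B → (T1 B).im = 0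

/-- the entry `e` of the one loop term at the end of a chain which starts near
`v • (m0 + ε • k)` -/
def AFd (k : BF) (e : Pl × Pl) (γ : ℝ) (c Kt K0 K : ℕ) : Prop :=
  ∃ (κ l0 : ℕ) (gam : ℕ → ℝ), Tendsto (fun l => gam l / Real.log (LL l)) atTop (𝓝 γ) ∧
    ∀ l ≥ l0, ∀ v : ℝ, |v - 1| ≤ 10⁻¹ → ∃ E : ℝ, ∀ n ≥ S0 l, ∀ (d : ℕ → Td) (ε : ℝ),
      Chw c Kt K0 l n ((LL l : ℝ) ^ κ)⁻¹ d → n ≤ LL l → |ε| ≤ (((LL l : ℝ) ^ K) ^ 400)⁻¹ →
      Cd ((LL l : ℝ) ^ κ)⁻¹ (d 0).m (v • (m0 + ε • k)) →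
        |(qc (d n).ol (pt (EE e.1)) (pt (EE e.2))).re - E + ε * gam l| ≤
          (((LL l : ℝ) ^ K) ^ 500)⁻¹

/-- the same for all large exponents -/
def AFD (k : BF) (e : Pl × Pl) (γ : ℝ) : Prop :=
  ∀ c, TL c → ∃ a0, ∀ Kt ≥ a0, ∃ a1, ∀ K0 ≥ a1, ∃ a2, ∀ K ≥ a2, AFd k e γ c Kt K0 K

theorem AfD.afd {k : BF} {e : Pl × Pl} {γ : ℝ}
    (h : ∀ c, TL c → AfD c k (pt (EE e.1)) (pt (EE e.2)) γ) : AFD k e γ := fun c t => by
  obtain ⟨a0, h⟩ := h c t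
  refine ⟨a0, fun Kt h0 => (h Kt h0).imp fun a1 h K0 h1 => ?_⟩
  obtain ⟨C, h⟩ := h K0 h1
  refine ⟨C + 1, fun K hK => ?_⟩
  obtain ⟨κ, l0, E, g, tg, h⟩ := h (500 * K + 1)
  refine ⟨κ, l0 + 1, g, tg, fun l hl v hv => ⟨E l, fun n hn d ε hd hL hε hc => ?_⟩⟩
  have L2 : (2 : ℝ) ≤ LL l := by exact_mod_cast (by unfold LL; omega : 2 ≤ LL l)
  have L1 : (1 : ℝ) ≤ LL l := by linarith
  have L0 : (0 : ℝ) < LL l := by linarith
  rw [abs_le] at hv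
  rw [← pow_mul] at hε ⊢
  refine (h l (by omega) n hn hL d hd v ε (by linarith [hv.1]) (by linarith [hv.2])
    (hε.trans (inv_anti₀ (by positivity) (pow_le_pow_right₀ L1 (by omega)))) hc).trans ?_
  have e1 : ε ^ 2 ≤ (((LL l : ℝ) ^ (K * 400))⁻¹) ^ 2 := by
    rw [← sq_abs]; exact pow_le_pow_left₀ (abs_nonneg _) hε 2
  have e2 : (LL l : ℝ) ^ C * ε ^ 2 ≤ ((LL l : ℝ) ^ (500 * K + 1))⁻¹ := by
    refine (mul_le_mul_of_nonneg_left e1 (by positivity)).trans ?_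
    rw [inv_pow, ← pow_mul, ← div_eq_mul_inv, div_le_iff₀ (by positivity), inv_mul_eq_div,
      le_div_iff₀ (by positivity), ← pow_add]
    exact pow_le_pow_right₀ L1 (by omega)
  have e3 : 2 * ((LL l : ℝ) ^ (500 * K + 1))⁻¹ ≤ ((LL l : ℝ) ^ (K * 500))⁻¹ := by
    rw [pow_succ, mul_comm 500 K, mul_inv, mul_left_comm]
    refine mul_le_of_le_one_right (by positivity) ?_
    rw [← div_eq_mul_inv, div_le_one L0]; exact L2
  linarith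

/-- the property which is attached to the flow -/
def AFP (k : BF) (e : Pl × Pl) (γ : ℝ) (S : Sd) : Prop := TL S.c → AFd k e γ S.c S.Kt S.K0 S.K

theorem AFD.ev {k : BF} {e : Pl × Pl} {γ : ℝ} (h : AFD k e γ) (c : ℕ) :
    ∀ᶠ S in ev c, AFP k e γ S := by
  refine Eventually.filter_mono inf_le_left ?_
  by_cases t : TL c
  · obtain ⟨a0, h⟩ := h c t
    refine ⟨a0, fun Kt h0 => (h Kt h0).imp fun a1 h K0 h1 => (h K0 h1).imp fun a2 h K h2 B =>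
      ⟨0, fun S _ e0 e1 e2 e3 _ _ _ => ?_⟩⟩
    rw [e0, e1, e2, e3]
    exact h K h2
  · exact ⟨0, fun _ _ => ⟨0, fun _ _ => ⟨0, fun _ _ _ => ⟨0, fun S _ e0 _ _ _ _ _ u =>
      (t (e0 ▸ u)).elim⟩⟩⟩⟩

/-- densities whose sum over the torus is nearly constant near the backgrounds of constant flux -/
def Topd (t : Cf → ℂ) : Prop := ∃ C : ℝ, 1 ≤ C ∧ ∀ (N : Fin 4 → ℕ) [∀ i, NeZero (N i)] F θ (δ : ℝ),
  Af.Tp.Bg N F θ → ‖F‖ ≤ δ → C * δ ≤ 1 → ∀ a, ‖a‖ ≤ δ →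
    |SS N t (ab θ) a - SS N t (ab θ) 0| ≤ C * Fintype.card (TS N) * δ ^ 30

namespace En.Ty

/-- the type of the Weyl component with weights `1` on `01, 23` and `-1` on `03, 12` -/
def T2s : Ty := rf false false false false ++ [sw 0 2 true, sw 1 3 true]

theorem det2s : Det T2s [((0, 1), (0, 1))] := by decide +kernel

end En.Ty

end Pool.Agent.Lib.MP_7f377f_mp.RG.Q4
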