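import Pool.Agent.Lib.MP_7f377f_mp.G.S21B1
import Pool.Agent.Lib.MP_7f377f_mp.G.S21Spec

/-! The run without renormalisation of the coupling. -/

noncomputable section

set_option linter.unusedSectionVars false
variable [Pool.Agent.Lib.MP_7f377f_mp.GD]

namespace Pool.Agent.Lib.MP_7f377f_mp.RG.Q4.En

open Finset Real Sd Ty

theorem _root_.Pool.Agent.Lib.MP_7f377f_mp.RG.Q4.Td.Tr.mono {t : Td} {M j : ℕ} {v e e' : ℝ}
    (h : t.Tr M j v e) (hv : 0 ≤ v) (he : e ≤ e') : t.Tr M j v e' :=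
  let ⟨ρ, a, b, c⟩ := h.ch
  ⟨⟨ρ, a, b, c.mono hv le_rfl he⟩, h.tc, h.real⟩

/-- a state moved in the direction `κ`, `T` -/
def Z.mv (z : Z) (s : ℝ) (κ : BF) (T : Fld → ℂ) : Z :=
  { z with e := 2000⁻¹, m := z.m + s • κ, T := fun B => z.T B + s * T B }

namespace Gl

variable (G : Gl)

/-- the step without renormalisation of the coupling -/
def nf (k : ℕ) (z : Z) : Z where
  j := 2 * z.j * G.l k + z.j + G.l k
  v := G.bb (k + 1) / G.bb k * z.v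
  e := z.e + ((G.L k : ℝ) ^ (4 * G.Bk k))⁻¹
  m := (G.bb (k + 1) / G.bb k) • (G.sd k z).m1
  T := fun B => (G.bb (k + 1) / G.bb k : ℝ) * (G.sd k z).T1 B
  ψ := (G.sd k z).PL z.ψ z.K + fun _ => (G.sd k z).ol
  K := (G.sd k z).KK z.ψ z.K

/-- the invariant of such a run -/
structure Fr (k : ℕ) (z : Z) (a u : ℝ) (f : Conf → ℂ) : Prop where
  tr : (G.td k z).Tr (G.L k) z.j z.v z.e
  e0 : 0 ≤ z.e
  e1 : z.e ≤ a
  v : |z.v - 1| ≤ a
  dt : G.Dt k z u u √(G.g k) z.ψ z.K f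

/-- a direction which is small at the scale of level `k` -/
structure Dv (k : ℕ) (κ : BF) (T : Fld → ℂ) : Prop where
  symm : ∀ a b, κ a b = κ b a
  cb : Cb 1 (G.L k) κ
  tc : Tc 2 ((G.L k : ℝ) ^ G.K0)⁻¹ (G.L k) T
  real : ∀ B, RealF B → (T B).im = 0
  ins : ∀ S : Sd, S.Nu 100 → St1 S → S.c = G.c → S.l = G.l k → In1 S

variable {G} {b a u s t : ℝ} {J i j k : ℕ} {z : Z} {f : Conf → ℂ} {κ : BF} {T : Fld → ℂ}

theorem td_eq (e : G.l i = G.l k) (z : Z) : G.td i z = G.td k z := by rw [td, td, e]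

theorem nf_m (k : ℕ) (z : Z) : (G.nf k z).m = (G.bb (k + 1) / G.bb k) • (G.td k z).m1 :=
  congrArg (fun t : Td => (G.bb (k + 1) / G.bb k) • t.m1) (show (G.sd k z).toTd = G.td k z from rfl)

namespace Ok

variable (h : G.Ok)
include h

theorem fr_ln (d : G.Fr k z a u f) (ha : a ≤ 1000⁻¹) : (G.td k z).Ln z.j z.v z.e := by
  obtain ⟨ρ, -, -, c⟩ := d.tr.ch
  have v := abs_le.1 (d.v.trans ha)
  exact Classical.epsilon_spec ((h.sd_all k z).ln (G.td k z) rfl rfl _ _ _ _ (by linarith)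
    (by linarith) d.e0 (d.e1.trans ha) c)

theorem Lbb (k : ℕ) : ((G.L k : ℝ) ^ (4 * G.Bk k))⁻¹ ≤ (G.bb k ^ 2)⁻¹ := by
  have := h.sch.sum1 k (k + 1)
  rwa [Nat.Ico_succ_singleton, sum_singleton] at this

theorem bb_le (k : ℕ) : (G.bb k ^ 2)⁻¹ * G.bb k ≤ (G.Q k ^ 4000)⁻¹ := by
  rw [sq, mul_inv, inv_mul_cancel_right₀ (h.b0 k).ne']
  exact inv_anti₀ (pow_pos (h.Q0 k) _) (h.Qb k)

theorem lam0 (k : ℕ) : |G.bb (k + 1) / G.bb k - 1| ≤ G.L k / G.bb k := by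
  have b0 := h.b0 k
  have a : G.bb k ≤ G.bb (k + 1) ∧ G.bb (k + 1) ≤ G.bb k + G.L k := h.sch.le k
  rw [div_sub_one b0.ne', abs_div, abs_of_pos b0, abs_of_nonneg (by linarith)]
  gcongr
  linarith

theorem fr_step (e : G.l (k + 1) = G.l k) (d : G.Fr (k + 1) z a u f) (ha : a ≤ 1000⁻¹) (u1 : 1 ≤ u)
    (u3 : u ≤ G.Q k ^ 3) :
    G.Fr k (G.nf k z) (a + (G.Q k)⁻¹) (u + 2 * G.Q k) (TT (G.l k) (G.a k) (G.N k) f) ∧
      ∀ F F' δ, As F → As F' → ‖F‖ ≤ δ → ‖F'‖ ≤ δ →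
        |G.bb k * (G.nf k z).m (pt F) (pt F') - G.bb (k + 1) * z.m (pt F) (pt F')| ≤
          (G.Q k ^ 900)⁻¹ * δ ^ 2 ∧
        |(qc ((G.nf k z).ψ 0) (pt F) (pt F')).re - (qc (z.ψ 0) (pt F) (pt F')).re -
          (qc (G.sd k z).ol (pt F) (pt F')).re| ≤ (G.Q k ^ 900)⁻¹ * δ ^ 2 := by
  have al := h.sd_all k z
  have nu := al.nu
  have v := abs_le.1 (d.v.trans ha)
  have tr : (G.td k z).Tr (G.L (k + 1)) z.j z.v z.e := td_eq e z ▸ d.tr
  have ln : (G.td k z).Ln z.j z.v z.e := td_eq e z ▸ h.fr_ln d ha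
  have s : St2 (G.sd k z) :=
    al.s2 ⟨_, _, _, by linarith, by linarith, d.e0, d.e1.trans ha, tr, ln⟩
  have b0 := h.b0 k
  have q0 := h.Q0 k
  have q1 := h.Q1 k
  have g0 := h.g0 (k + 1)
  have g0' := h.g0 k
  have gg := h.g_succ k
  have qi : (G.Q k)⁻¹ ≤ 1 := inv_le_one_of_one_le₀ q1
  have lm : |G.bb (k + 1) / G.bb k - 1| ≤ 1000⁻¹ * (G.Q k)⁻¹ := (h.lam0 k).trans (by
    rw [← mul_inv, inv_eq_one_div, div_le_div_iff₀ b0 (by positivity)]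
    nlinarith [h.Qbb k (i := 2) (by norm_num), h.LQ k])
  have l1 := abs_le.1 lm
  obtain ⟨c1, c2⟩ := al.s1 _ _ _ (G.bb (k + 1) / G.bb k) (by linarith) (by linarith) d.e0
    (d.e1.trans ha) tr ln (by nlinarith) (lm.trans (by linarith))
  have t := c2 (G.td k (G.nf k z)) rfl rfl (.inl rfl) rfl rfl
  have Lb := h.Lbb k
  have bl := h.bb_le k
  have b1 : (G.bb k ^ 2)⁻¹ ≤ (G.bb k ^ 2)⁻¹ * G.bb k :=
    le_mul_of_one_le_right (by positivity) ((one_le_pow₀ q1).trans (h.Qb k))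
  have w : ∀ i < 1000, 1000 * (G.Q k ^ i * √(G.g (k + 1))) ≤ 1 := fun i hi => by
    rw [← mul_assoc]
    exact (mul_le_mul_of_nonneg_right ((h.qpw k hi).trans (pow_le_pow_left₀ q0.le
      (h.Q_mono k.le_succ) _)) (sqrt_nonneg _)).trans (h.Qsg (k + 1))
  have s0 := sqrt_nonneg (G.g (k + 1))
  have s2 : G.g (k + 1) ^ 2 ≤ √(G.g (k + 1)) * √(G.g (k + 1)) := by
    rw [mul_self_sqrt g0.le]; nlinarith only [h.g1 (k + 1), g0]
  have hω : G.Q k ^ 100 * √(G.g (k + 1)) ≤ 1 := by linarith [w 100 (by norm_num)]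
  have sz := h.sz_sd d.dt.sz z
  obtain ⟨a1, p2⟩ := lin_step nu s sz le_rfl hω
  obtain ⟨⟨b, θ, k0, sm⟩, k', b2, b3⟩ := ball_step nu s sz u1 le_rfl hω (by
    change G.Q k ^ 115 * u * G.g (k + 1) ^ 2 ≤ √(G.g (k + 1))
    nlinarith only [w 118 (by norm_num), s0, mul_le_mul_of_nonneg_left
      (mul_le_mul u3 s2 (sq_nonneg _) (pow_pos q0 3).le) (pow_pos q0 115).le])
  obtain ⟨r1, r2, r3⟩ := s.real _ _ _ _ _ sm d.dt.re.1 d.dt.re.2.1
  obtain ⟨a2, a3⟩ := PM.add (h.ρ0 k) a1 s.ol.1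
  have w1 : G.Q k ^ 50 * √(G.g (k + 1)) * (u + u) ≤ (G.Q k ^ 900)⁻¹ := by
    rw [inv_eq_one_div, le_div_iff₀ (pow_pos q0 _)]
    linarith only [w 953 (by norm_num), mul_le_mul_of_nonneg_left u3
      (show 0 ≤ G.Q k ^ 950 * √(G.g (k + 1)) by positivity)]
  have w2 : √(G.g (k + 1)) * u * G.g (k + 1) ^ 2 ≤ √(G.g k) * u * G.g k ^ 2 := by gcongr
  have w0 : 0 ≤ √(G.g k) * u * G.g k ^ 2 := by positivity
  have w3 : 0 ≤ √(G.g k) * G.Q k * G.g k ^ 2 := by positivity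
  refine ⟨⟨t, add_nonneg d.e0 (by positivity), add_le_add d.e1 ?_, ?_, ⟨PM.mono (h.ρ0 k) a2 ?_ ?_ ?_,
    k', b2, b3.mono ?_⟩, ⟨fun x B h1 h2 => ?_, r2,
      TCov.add (s.cov _ _ _ _ _ sm (by rw [h.sd_nf]; exact d.dt.re.2.2)) _⟩, ?_⟩,
    fun F F' δ hF hF' e1 e2 => ?_⟩
  · exact ((Lb.trans b1).trans bl).trans (inv_anti₀ q0 (le_self_pow₀ q1 (by norm_num)))
  · change |G.bb (k + 1) / G.bb k * z.v - 1| ≤ _
    have := abs_le.1 d.v
    have := inv_pos.2 q0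
    exact abs_le.2 ⟨by nlinarith, by nlinarith⟩
  · change u + G.Q k ^ 50 * √(G.g (k + 1)) * (u + u) + G.Q k ≤ _
    linarith only [w1, q1, inv_le_one_of_one_le₀ (one_le_pow₀ (n := 900) q1)]
  · change G.Q k ^ 2 * _ + G.Q k ≤ _
    nlinarith only [u1, q1, mul_le_mul_of_nonneg_right (one_le_pow₀ (n := 2) q1) q0.le,
      mul_nonneg (sq_nonneg (G.Q k)) (zero_le_one.trans u1)]
  · change G.Q k ^ 50 * √(G.g (k + 1)) * _ * G.g (k + 1) ^ 2 + G.Q k * (G.Q k ^ 3 * G.g k) ^ 3 ≤ _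
    have : G.Q k * (G.Q k ^ 3 * G.g k) ^ 3 ≤ G.Q k ^ 50 * (√(G.g k) * G.Q k * G.g k ^ 2) :=
      calc _ = G.Q k ^ 9 * (G.g k * G.Q k * G.g k ^ 2) := by ring
        _ ≤ _ := by
          gcongr
          exacts [by norm_num, le_sqrt_of_sq_le (by nlinarith [h.g1 k])]
    linarith only [this, mul_le_mul_of_nonneg_left w2 (pow_pos q0 50).le,
      mul_nonneg (pow_pos q0 50).le w0, mul_nonneg (pow_pos q0 50).le w3]
  · change √(G.g (k + 1)) * u * G.g (k + 1) ^ 2 / 2 ≤ _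
    linarith only [w2, w0, w3]
  · exact (Complex.add_im _ _).trans (by rw [r1 x B h1 h2, s.ol.2 x B h1 h2, add_zero])
  · obtain ⟨κ, κ0, p⟩ := d.dt.rp
    refine ⟨κ * exp (∑ y ∈ (G.sd k z).Λ', (G.sd k z).Ey z.ψ z.K y).re, by positivity,
      fun W hW => ?_⟩
    rw [h.sl_nf] at p hW ⊢
    rw [← h.sd_nf k z] at p
    refine ((TT_mul p W).trans (congrArg ((κ : ℂ) * ·) (s.id _ _ _ _ _ sm W hW))).trans ?_
    rw [Complex.ofReal_mul, mul_assoc (κ : ℂ), Complex.ofReal_exp]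
    congr 3
    · exact Complex.ext rfl (by simp [r3])
    · funext y B
      have : (G.bb k : ℂ) ≠ 0 := Complex.ofReal_ne_zero.2 b0.ne'
      change (G.bb (k + 1) : ℂ) * _ + _ + _ = (G.bb k : ℂ) * (cx ((G.bb (k + 1) / G.bb k) • _) B B +
        (G.bb (k + 1) / G.bb k : ℝ) * _) + (_ + _)
      rw [cx_smul]
      push_cast
      field_simp
      ring
  · have ca := (cv_pt hF 0).mono le_rfl e1
    have cb := (cv_pt hF' 0).mono le_rfl e2
    obtain ⟨_, -, -, c⟩ := t.ch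
    obtain ⟨_, -, -, c'⟩ := tr.ch
    have a4 := La.Q.cd_bil (fun a b => mul_left_cancel₀ (by linarith) (c.inv.symm a b)) c'.inv.symm
      (inv_pos.2 (pow_pos (L0 _) _)).le c1 _ _ _ _ ca cb
    rw [← cc_eq', ← cc_eq', cc_eq hF, cc_eq hF'] at a4
    have a5 := (Complex.abs_re_le_norm _).trans (p2 (TCov.cx (h.N_odd _) d.dt.re.2.2) _ _ _ _ ca cb)
    constructor
    · change |G.bb k * (G.bb (k + 1) / G.bb k * _) - _| ≤ _
      rw [← mul_assoc, mul_div_cancel₀ _ b0.ne', ← mul_sub, abs_mul, abs_of_pos (h.b0 _)]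
      refine (mul_le_mul (h.b_succ k) a4 (abs_nonneg _) (by positivity)).trans ?_
      change _ * (32 * ((G.L k : ℝ) ^ (4 * G.Bk k))⁻¹ * δ * δ) ≤ _
      linarith only [mul_le_mul_of_nonneg_right ((mul_le_mul_of_nonneg_right Lb b0.le).trans bl)
        (sq_nonneg δ), mul_le_mul_of_nonneg_right (h.inv_le k (show 900 < 4000 by norm_num))
        (sq_nonneg δ), mul_nonneg (inv_pos.2 (pow_pos q0 4000)).le (sq_nonneg δ)]
    · erw [a3, Complex.add_re, add_sub_right_comm, add_sub_cancel_right]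
      exact a5.trans (by rw [mul_assoc _ δ, ← sq]; exact mul_le_mul_of_nonneg_right w1 (sq_nonneg _))

theorem fr_flux (d : G.Fr k z a u f) (ha : a ≤ 1000⁻¹) (u3 : u ≤ G.Q k ^ 3) :
    (∀ ϑ, Fw (G.N k) (G.fx k) ϑ → (f (ab ϑ)).im = 0 ∧ 0 < (f (ab ϑ)).re) ∧
    (∀ e, |rq (G.N k) (G.fx k) e (fun U => log (f U).re) - (G.bb k * z.m (pt (EE e.1)) (pt (EE e.2)) +
      (qc (z.ψ 0) (pt (EE e.1)) (pt (EE e.2))).re)| ≤ (G.Q k ^ 495)⁻¹) ∧
    ∃ c, ∀ F ϑ, As F → ‖F‖ ≤ 2 * tq (G.N k) (G.fx k) → Fx (G.N k) F ϑ →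
      |log (f (ab ϑ)).re - c + G.N k ^ 4 * (G.bb k * z.m (pt F) (pt F))| ≤
        (1 + 4 * u) * tq (G.N k) (G.fx k) ^ 2 * G.N k ^ 4 := by
  obtain ⟨a1, k0, a2, a3⟩ := h.sz_sl d.dt.sz z
  have q0 := h.Q0 k
  have q1 := h.Q1 k
  have g0 := h.g0 k
  have v := abs_le.1 (d.v.trans ha)
  have lg : LG (G.sl k z) := ⟨(h.sl_all k z).nu, rfl, rfl, (h.bN k).trans_eq (by rw [h.sl_nf]),
    D0_eq _ ▸ d.tr.tc, d.tr.real, ((h.sl_all k z).bd _ _ _ _ _ rfl (by linarith) (by linarith)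
      (d.e1.trans (by linarith)) d.tr).2⟩
  have u0 : 0 ≤ u := ((d.dt.sz.1 0).1.nonneg (h.ρ0 k)).1
  have w : ∀ i < 997, 1000 * (G.Q k ^ i * (√(G.g k) * u)) ≤ 1 := fun i hi => by
    refine le_trans ?_ (h.Qsg k)
    calc _ ≤ 1000 * (G.Q k ^ i * (√(G.g k) * G.Q k ^ 3)) := by gcongr
      _ = 1000 * G.Q k ^ (i + 3) * √(G.g k) := by ring
      _ ≤ _ := mul_le_mul_of_nonneg_right (h.qpw k (by omega)) (sqrt_nonneg _)
  have w' : ∀ i < 4000, 1000 * (G.Q k ^ i * G.g k ^ 2) ≤ 1 := fun i hi => by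
    rw [← mul_assoc]
    exact (mul_le_mul_of_nonneg_right (h.Qbb k hi) (sq_nonneg _)).trans_eq (h.bg k)
  have g1 : G.g k ^ 2 ≤ 1 := by linarith [w' 0 (by norm_num), sq_nonneg (G.g k)]
  obtain ⟨c, H⟩ := lg.flux0 a1 a2 a3 (h.re_sl d.dt.re z) d.dt.rp
    (P := G.Q k ^ 250) (η := (G.Q k ^ 495)⁻¹) (by
      change (u + G.Q k ^ 2 * u) * G.g k ^ 2 ≤ 1
      linarith only [mul_le_mul_of_nonneg_right u3 (sq_nonneg (G.g k)), w' 5 (by norm_num),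
        w' 3 (by norm_num), mul_le_mul_of_nonneg_right u3
          (mul_nonneg (sq_nonneg (G.Q k)) (sq_nonneg (G.g k)))]) (by
      change G.Q k ^ 50 * √(G.g k) * u * G.g k ^ 2 ≤ 1
      linarith only [mul_le_mul_of_nonneg_left g1
        (show 0 ≤ G.Q k ^ 50 * (√(G.g k) * u) by positivity), w 50 (by norm_num)]) (by
      change 2 * G.Q k * (√(G.g k) * u * G.g k ^ 2) ≤ 1
      linarith only [mul_le_mul_of_nonneg_left g1 (show 0 ≤ G.Q k * (√(G.g k) * u) by positivity),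
        w 1 (by norm_num)]) (le_self_pow₀ q1 (by norm_num))
    (by rw [← pow_mul]; exact (pow_le_pow_right₀ q1 (by norm_num)).trans (h.Qb k)) (by
      change G.Q k ^ 2 / (G.Q k ^ 250) ^ 2 + G.Q k ^ 50 * √(G.g k) * u * G.g k ^ 2 /
        (G.Q k ^ 9 * G.g k ^ 2) + 2 * (G.Q k ^ 250) ^ 2 * (√(G.g k) * u * G.g k ^ 2) / G.g k ^ 2 ≤ _
      rw [inv_eq_one_div, le_div_iff₀ (pow_pos q0 _)]
      calc _ = (G.Q k ^ 3)⁻¹ + G.Q k ^ 536 * (√(G.g k) * u) +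
            2 * (G.Q k ^ 995 * (√(G.g k) * u)) := by field_simp
        _ ≤ _ := by
          linarith only [w 536 (by norm_num), w 995 (by norm_num), (h.inv_le k (i := 0) (j := 3)
            (by norm_num)).trans_eq (by simp : _ = (1 : ℝ))])
  rw [h.sl_nf] at H
  have η0 := inv_pos.2 (pow_pos q0 495)
  refine ⟨fun ϑ ⟨F, b1, b2, b3⟩ => (H F ϑ b1 b2 b3).1, fun e => ?_, c, fun F ϑ b1 b2 b3 => ?_⟩
  · obtain ⟨κ, k1, k2⟩ := (a1 0).1.bil
    obtain ⟨_, -, -, m⟩ := d.tr.ch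
    have := (aty_def (G := fun U => log (f U).re) (k := G.bb k • z.m + reK κ) (D := 0) (T := [])
      (h.N_odd k).pos.ne' (h.tq0 k) (fun a b => congrArg₂ (G.bb k * · + Complex.re ·)
        (m.inv.symm a b) (k1 a b)) fun F ϑ b1 b2 b3 => by
          have := (H F ϑ b1 b2 b3).2
          rwa [qc, k2, cc_eq b1] at this).1 e
    rw [qc, k2, cc_eq (as_EE _), cc_eq (as_EE _)]
    exact this.trans (half_le_self η0.le)
  · have c1 := (cv_pt b1 0).mono le_rfl b2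
    have c3 := mul_le_mul_of_nonneg_left ((Complex.abs_re_le_norm _).trans
      ((a1 0).1.cb _ _ _ _ c1 c1)) (show (0 : ℝ) ≤ G.N k ^ 4 by positivity)
    have c4 := abs_le.1 ((H F ϑ b1 b2 b3).2.trans (mul_le_mul_of_nonneg_right
      (mul_le_of_le_one_left (sq_nonneg _) (inv_le_one_of_one_le₀ (one_le_pow₀ q1))) (by positivity)))
    rw [← abs_of_nonneg (show (0 : ℝ) ≤ G.N k ^ 4 by positivity), ← abs_mul,
      abs_of_nonneg (show (0 : ℝ) ≤ G.N k ^ 4 by positivity), abs_le] at c3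
    change _ ≤ _ - _ + _ * (G.bb k * z.m _ _ + _) ∧ _ - _ + _ * (G.bb k * z.m _ _ + _) ≤
      tq _ (G.fx k) ^ 2 * _ at c4
    change -(tq _ (G.fx k) ^ 2 * _) ≤ _ ∧ _ at c4
    exact abs_le.2 ⟨by linarith only [c3.2, c4.1], by linarith only [c3.1, c4.2]⟩

theorem fr_top (A : G.Tu b J) (iJ : i < J) (D : G.Dv i κ T) (ht : |t| ≤ G.bb i / G.Q i ^ 402) :
    G.Fr i ((G.zz b J i).mv (t / G.bb i) κ T) 2000⁻¹ 1
      (G.wg i (G.zz b J i) (fun _ B => cx κ B B + T B) i t) := by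
  have b0 := h.b0 i
  have q0 := h.Q0 i
  have tz := (A.gd _ iJ).tz
  have d := A.gd i iJ.le
  have v := A.v i iJ.le
  have s1 : |t / G.bb i| * G.L i ≤ (10 ^ 10)⁻¹ := by
    have a : |t / G.bb i| ≤ (G.Q i ^ 402)⁻¹ := by
      rwa [abs_div, abs_of_pos b0, div_le_iff₀ b0, inv_mul_eq_div]
    have := mul_le_mul a (h.LQ i) (Nat.cast_nonneg _) (by positivity)
    rw [show (G.Q i ^ 402)⁻¹ * G.Q i = (G.Q i ^ 401)⁻¹ by field_simp] at this
    linarith [h.inv_le i (show 1 < 401 by norm_num), h.inv_c i one_ne_zero]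
  have v1 : |(G.zz b J i).v - 1| ≤ 2000⁻¹ := by linarith [h.inv_c i (j := 409) (by norm_num)]
  refine ⟨?_, by norm_num [Z.mv], le_rfl, v1, d.dt.sz, d.dt.re, 1, one_pos, fun U _ => ?_⟩
  · have al := h.sd_all i (G.zz b J (i + 1))
    rw [zz_step b iJ] at v1 ⊢
    refine (D.ins _ al.nu al.s1 rfl rfl _ _ _ _ _ _ _ (v12 tz).1 (v12 tz).2 (ze0 tz) (h.ze2 tz)
      (tz.tr i (.inr rfl)) (h.ln tz (.inr rfl)) (v1.trans (by norm_num)) (h.lam_le' (A.lam i iJ).1)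
      (by positivity) s1 (fun a b => by simp [D.symm a]) (fun a b δ δ' ha hb => ?_)
      (by rw [D0_eq]; exact (D.tc.smul _).wide (by have := al.nu.r1; omega) (by linarith))
      (fun B hB => by rw [Complex.im_ofReal_mul, D.real B hB, mul_zero])
      (G.td i ((G.nx i (G.zz b J (i + 1))).mv (t / G.bb i) κ T)) rfl rfl rfl rfl rfl).mono
      (show 0 ≤ (G.nx i (G.zz b J (i + 1))).v by linarith [(abs_le.1 v1).1]) ?_
    · have := mul_le_mul_of_nonneg_left (D.cb a b δ δ' ha hb) (abs_nonneg (t / G.bb i))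
      rw [← abs_mul] at this
      exact this.trans_eq (by ring)
    · have a := (h.L1 (i + 1)).trans (by simpa using h.Lb (i + 1) (i := 1) (by have := h.B1; omega))
      change _ ≤ (2000⁻¹ : ℝ)
      nlinarith [h.ze1 tz, ze0 tz,
        mul_le_mul_of_nonneg_left (show 10 ^ 6 ≤ G.bb (i + 1) ^ 2 by nlinarith) (ze0 tz)]
  · generalize G.zz b J i = z
    rw [h.sl_nf, wg, tt_top, Complex.ofReal_one, one_mul]
    congr 1
    funext y B
    have : (G.bb i : ℂ) ≠ 0 := Complex.ofReal_ne_zero.2 b0.ne'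
    change (G.bb i : ℂ) * (cx z.m B B + z.T B) + (z.ψ y B + t * (cx κ B B + T B)) = (G.bb i : ℂ) *
      (cx (z.m + (t / G.bb i) • κ) B B + (z.T B + (t / G.bb i : ℝ) * T B)) + z.ψ y B
    rw [cx_add, cx_smul]
    push_cast
    field_simp
    ring

theorem go_l (go : G.Go J k) (hk : k ≤ j) (hj : j ≤ k + G.l k) : G.l j = G.l k := by
  have := h.go_L go hk hj
  unfold L LL at this
  omega

/-- real motion in the direction `κ`, `T` -/
theorem fr_law (A : G.Tu b J) (go : G.Go J k) (hi : i = k + G.l k) (D : G.Dv i κ T) {e : Pl × Pl}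
    {c : ℕ} {E γ : ℝ} (hc : c < G.Bk k) (af : ∀ (d : ℕ → Td) (ε : ℝ),
      Chw G.c G.Kt G.K0 (G.l k) (G.l k - 1) ((G.L k : ℝ) ^ c)⁻¹ d → |ε| ≤ (G.Q k ^ 400)⁻¹ →
      Cd ((G.L k : ℝ) ^ c)⁻¹ (d 0).m ((G.zz b J i).v • (m0 + ε • κ)) →
        |(qc (d (G.l k - 1)).ol (pt (EE e.1)) (pt (EE e.2))).re - E + ε * γ| ≤ (G.Q k ^ 500)⁻¹)
    (ht : |t| ≤ G.bb k / G.Q k ^ 402) {w : ℕ → Conf → ℂ}
    (hw : w = fun j => G.wg i (G.zz b J i) (fun _ B => cx κ B B + T B) j t) :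
    (∀ j, j = k ∨ j = k + 1 → ∀ ϑ, Fw (G.N j) (G.fx j) ϑ →
      (w j (ab ϑ)).im = 0 ∧ 0 < (w j (ab ϑ)).re) ∧
    |rq (G.N k) (G.fx k) e (fun U => log (w k U).re) -
      rq (G.N (k + 1)) (G.fx (k + 1)) e (fun U => log (w (k + 1) U).re) - E +
        t / G.bb i / (G.zz b J i).v * γ| ≤ (G.Q k ^ 490)⁻¹ ∧
    ∃ c, ∀ F ϑ, As F → ‖F‖ ≤ 2 * tq (G.N (k + 1)) (G.fx (k + 1)) → Fx (G.N (k + 1)) F ϑ →
      |log (w (k + 1) (ab ϑ)).re - c + G.N (k + 1) ^ 4 *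
        (G.bb i * (G.zz b J i).m (pt F) (pt F) + t * κ (pt F) (pt F))| ≤
          G.Q k ^ 3 * tq (G.N (k + 1)) (G.fx (k + 1)) ^ 2 * G.N (k + 1) ^ 4 := by
  have iJ : i < J := hi ▸ go.1
  have ki : k ≤ i := by omega
  have q0 := h.Q0 k
  have q1 := h.Q1 k
  have L1 := h.L1 k
  have bi := h.b0 i
  have eQ : ∀ j, k ≤ j → j ≤ i → G.Q j = G.Q k := fun j h1 h2 => h.go_Q go h1 (hi ▸ h2)
  have el : ∀ j, k ≤ j → j ≤ i → G.l j = G.l k := fun j h1 h2 => h.go_l go h1 (hi ▸ h2)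
  have t1 : |t| ≤ G.bb i / G.Q k ^ 402 := ht.trans (by gcongr; exact h.b_mono ki)
  have a1 := h.fr_top A iJ D (eQ i ki le_rfl ▸ t1)
  obtain ⟨y, hy⟩ : ∃ y : ℕ → Z, ∀ j, y j = dw G.nf ((G.zz b J i).mv (t / G.bb i) κ T) i j :=
    ⟨_, fun _ => rfl⟩
  have y0 := (hy i).trans (dw_top ..)
  have y1 : ∀ j < i, y j = G.nf j (y (j + 1)) := fun j hj => by rw [hy, hy, dw_step _ _ hj]
  have w1 : ∀ j < i, w j = TT (G.l j) (G.a j) (G.N j) (w (j + 1)) := fun j hj => by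
    rw [hw]; exact tt_step _ hj
  have n1 : ∀ j, k ≤ j → 2000⁻¹ + (i - j : ℕ) * (G.Q k)⁻¹ ≤ 1000⁻¹ ∧
      1 + (i - j : ℕ) * (2 * G.Q k) ≤ G.Q k ^ 2 ∧ ((i - j : ℕ) : ℝ) ≤ G.Q k := fun j hj => by
    have a : ((i - j : ℕ) : ℝ) ≤ G.L k := by exact_mod_cast (by unfold L LL; omega)
    have c : 10 ^ 6 * ((i - j : ℕ) : ℝ) ≤ G.Q k := by
      nlinarith [h.LQ' k (i := 3) (by norm_num), mul_le_mul_of_nonneg_right
        (show 10 ^ 6 ≤ (G.L k : ℝ) ^ 2 by nlinarith) (Nat.cast_nonneg (G.L k))]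
    have := (div_le_iff₀ q0).2 (show ((i - j : ℕ) : ℝ) ≤ 2000⁻¹ * G.Q k by linarith)
    exact ⟨by rw [← div_eq_mul_inv]; linarith, by nlinarith [h.cQ k (C := 10) (by norm_num)],
      by linarith⟩
  have q3 := pow_le_pow_right₀ q1 (show 2 ≤ 3 by norm_num)
  have st := fun j (hj : j < i) (kj : k ≤ j) (c1 : G.Fr (j + 1) (y (j + 1)) _
      (1 + (i - (j + 1) : ℕ) * (2 * G.Q k)) (w (j + 1))) =>
    h.fr_step ((el _ (by omega) hj).trans (el j kj hj.le).symm) c1 (n1 (j + 1) (by omega)).1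
      (le_add_of_nonneg_right (by positivity))
      (eQ j kj hj.le ▸ (n1 (j + 1) (by omega)).2.1.trans q3)
  have inv : ∀ j ≤ i, k ≤ j → G.Fr j (y j) (2000⁻¹ + (i - j : ℕ) * (G.Q k)⁻¹)
      (1 + (i - j : ℕ) * (2 * G.Q k)) (w j) ∧ ∀ F δ, As F → ‖F‖ ≤ δ →
        |G.bb j * (y j).m (pt F) (pt F) - G.bb i * (y i).m (pt F) (pt F)| ≤ (i - j : ℕ) * δ ^ 2 :=
    dw_ind (fun _ => ⟨by rw [y0, hw]; simpa using a1, by simp⟩) fun j hj ih kj => by
      obtain ⟨c1, c2⟩ := ih (by omega)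
      obtain ⟨c3, c4⟩ := st j hj kj c1
      have e : ((i - j : ℕ) : ℝ) = (i - (j + 1) : ℕ) + 1 := by
        exact_mod_cast (by omega : i - j = i - (j + 1) + 1)
      rw [eQ j kj hj.le, ← y1 j hj] at c3 c4
      rw [← w1 j hj] at c3
      rw [e, add_one_mul, add_one_mul, ← add_assoc, ← add_assoc]
      refine ⟨c3, fun F δ hF hδ => ?_⟩
      have c5 := abs_le.1 (c2 F δ hF hδ)
      have c6 := abs_le.1 ((c4 F F δ hF hF hδ hδ).1.trans (mul_le_of_le_one_left (sq_nonneg _)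
        (inv_le_one_of_one_le₀ (one_le_pow₀ q1))))
      exact abs_le.2 ⟨by linarith, by linarith⟩
  have l1 : k + 1 < i := by have := h.sch.big k; have := h.l1; unfold l at hi; omega
  obtain ⟨f1, f2, -⟩ := h.fr_flux (inv k ki le_rfl).1 (n1 k le_rfl).1 ((n1 k le_rfl).2.1.trans q3)
  obtain ⟨f3, f4, c0, f5⟩ := h.fr_flux (inv _ l1.le k.le_succ).1 (n1 _ k.le_succ).1
    (eQ _ k.le_succ l1.le ▸ (n1 _ k.le_succ).2.1.trans q3)
  obtain ⟨f6, f7⟩ := (st k (by omega) le_rfl (inv _ l1.le k.le_succ).1).2 _ _ 1 (as_EE e.1)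
    (as_EE e.2) (norm_EE _) (norm_EE _)
  have tz := (A.gd i iJ.le).tz
  have v0 : 0 < (G.zz b J i).v := by linarith [(v12 tz).1]
  have Lc : ∀ j, k ≤ j → (G.L k : ℝ) ^ c * G.L k ≤ G.bb j := fun j hj =>
    (pow_succ _ _).ge.trans ((h.Lbk k hc).trans (h.b_mono hj))
  have Lp : (0 : ℝ) < (G.L k : ℝ) ^ c := by positivity
  obtain ⟨d, hd⟩ : ∃ d : ℕ → Td, ∀ s, d s = G.td k (y (i - s)) := ⟨_, fun _ => rfl⟩
  have f8 := af d (t / G.bb i / (G.zz b J i).v) ⟨fun _ _ => by rw [hd]; exact ⟨rfl, rfl, rfl, rfl⟩,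
    fun s hs => ?_, fun s hs => ?_⟩ ?_ fun a ha => ?_
  · rw [hd, show i - (G.l k - 1) = k + 1 by omega] at f8
    rw [← y1 k (by omega)] at f6 f7
    refine ⟨by rintro j (rfl | rfl); exacts [f1, f3], ?_, c0, fun F ϑ b1 b2 b3 => ?_⟩
    · have c1 := h.inv_le k (i := 490) (j := 495) (by norm_num)
      have c2 := h.inv_le k (i := 495) (j := 500) (by norm_num)
      have c3 := h.inv_le k (i := 500) (j := 900) (by norm_num)
      have c4 := inv_pos.2 (pow_pos q0 900)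
      have f2 := abs_le.1 (f2 e)
      have f4 := abs_le.1 (f4 e)
      rw [eQ _ k.le_succ l1.le] at f4
      change |_ - _ - (qc (G.td k (y (k + 1))).ol _ _).re| ≤ _ at f7
      rw [abs_le] at f6 f7 f8 ⊢
      constructor <;> linarith only [f2.1, f2.2, f4.1, f4.2, f6.1, f6.2, f7.1, f7.2, f8.1, f8.2, c1,
        c2, c3, c4]
    · have n0 : (0 : ℝ) ≤ G.N (k + 1) ^ 4 := by positivity
      have c1 := abs_le.1 (f5 F ϑ b1 b2 b3)
      have c2 := mul_le_mul_of_nonneg_left ((inv _ l1.le k.le_succ).2 F _ b1 b2) n0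
      have c3 : G.bb i * (y i).m (pt F) (pt F) =
          G.bb i * (G.zz b J i).m (pt F) (pt F) + t * κ (pt F) (pt F) := by
        rw [y0]
        change _ * (_ + t / G.bb i * _) = _
        field_simp
      rw [← abs_of_nonneg n0, ← abs_mul, abs_of_nonneg n0, abs_le, c3] at c2
      obtain ⟨-, c4, c5⟩ := n1 _ k.le_succ
      have c6 := mul_le_mul_of_nonneg_right (show 1 + 4 * (1 + (i - (k + 1) : ℕ) * (2 * G.Q k)) +
        4 * (i - (k + 1) : ℕ) ≤ G.Q k ^ 3 by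
          linarith only [c4, c5, h.qpw k (show 2 < 3 by norm_num), le_self_pow₀ q1 two_ne_zero, q1])
        (mul_nonneg (sq_nonneg (tq (G.N (k + 1)) (G.fx (k + 1)))) n0)
      exact abs_le.2 ⟨by linarith only [c1.1, c2.2, c6], by linarith only [c1.2, c2.1, c6]⟩
  · have k1 : k ≤ i - s := by omega
    have c := (inv _ (Nat.sub_le i s) k1).1
    have a := (n1 _ k1).1
    have v := abs_le.1 (c.v.trans a)
    have e1 := el _ k1 (Nat.sub_le i s)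
    rw [hd, ← td_eq e1]
    exact ⟨_, _, _, _, .inl (congrArg LL e1), by linarith, by linarith, c.e0, c.e1.trans a, c.tr,
      h.fr_ln c a⟩
  · obtain ⟨j, hj⟩ : ∃ j, j = i - (s + 1) := ⟨_, rfl⟩
    have k1 : k ≤ j := by omega
    rw [hd, hd, ← hj, show i - s = j + 1 by omega, y1 j (by omega), ← td_eq (el j k1 (by omega)) (y (j + 1))]
    refine ⟨_, (h.lam0 j).trans ?_, nf_m .., rfl⟩
    rw [h.go_L go k1 (by omega), inv_eq_one_div, div_le_div_iff₀ (h.b0 j) Lp]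
    linarith [Lc j k1]
  · rw [abs_div, abs_div, abs_of_pos bi, abs_of_pos v0, div_le_iff₀ v0, div_le_iff₀ bi]
    refine t1.trans ?_
    rw [div_eq_inv_mul]
    refine mul_le_mul_of_nonneg_right ?_ bi.le
    linarith only [h.inv_le k (show 400 < 402 by norm_num), inv_pos.2 (pow_pos q0 402),
      mul_le_mul_of_nonneg_left (v12 tz).1 (inv_pos.2 (pow_pos q0 400)).le]
  · obtain ⟨_, -, -, c1⟩ := (tz.tr i (.inl rfl)).ch
    have c2 := c1.cc a ha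
    have c3 : (G.zz b J i).v * (G.zz b J i).e ≤ ((G.L k : ℝ) ^ c)⁻¹ := by
      rw [inv_eq_one_div, le_div_iff₀ Lp]
      have b1 : 1 ≤ G.bb i := (one_le_pow₀ (h.Q1 i)).trans (h.Qb i)
      have c4 := mul_le_mul_of_nonneg_left ((Lc i ki).trans (le_self_pow₀ b1 two_ne_zero)) (ze0 tz)
      nlinarith [h.ze1 tz, mul_le_mul_of_nonneg_right ((v12 tz).2.trans (by linarith : _ ≤ (G.L k : ℝ)))
        (mul_nonneg (ze0 tz) Lp.le)]
    refine le_of_eq_of_le (congrArg _ ?_) (c2.trans (mul_le_mul_of_nonneg_right c3 (Li.nd_nonneg _ _)))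
    rw [hd, Nat.sub_zero, y0]
    change (G.zz b J i).m a a + t / G.bb i * κ a a - (G.zz b J i).v * (m0 a a + _ * κ a a) =
      (G.zz b J i).m a a - (G.zz b J i).v * m0 a a
    field_simp
    ring

end Ok

end Gl

end Pool.Agent.Lib.MP_7f377f_mp.RG.Q4.En
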