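import Pool.Agent.Lib.MP_7f377f_mp.G.S21P
import Pool.Agent.Lib.MP_7f377f_mp.G.Q5Lev

/-! The law of a typed tangent: single steps and the reference direction. -/

noncomputable section

set_option linter.unusedSectionVars false
variable [Pool.Agent.Lib.MP_7f377f_mp.GD]

namespace Pool.Agent.Lib.MP_7f377f_mp.RG.Q4.En

open Finset Real Sg Ty

variable {n : ℕ} {x D D' α η c : ℝ} {T : Ty} {e : Pl × Pl} {F H : Conf → ℝ}

theorem Prb9.congr {R : (Conf → ℝ) → ℝ} (p : Prb9 n x e R)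
    (a : ∀ ϑ, Fw n x ϑ → H (ab ϑ) = F (ab ϑ)) : R H = R F := by
  have := p.app (fun U => H U - 1 * F U) 0 0 0 (fun _ _ => rfl) fun E ϑ h1 h2 h3 => by
    simp [a ϑ ⟨E, h1, h2, h3⟩]
  rw [p.lin] at this
  simpa [sub_eq_zero] using this

namespace Gl.Ok

variable {G : Gl} (h : G.Ok) {b y r : ℝ} {J i j k : ℕ} {d : Lx × Ac} {f' : Conf → ℂ} {z : Z} {φ : Lx}
  {R : ℕ → (Conf → ℝ) → ℝ}
include h

theorem wg_h0 (a : G.Gd b J i z) (s : G.Sz i x y c φ 0) (r0 : 0 < r) :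
    H1 r fun t => Rep (G.p i) (G.N i) ((G.sl i z).Φ (z.ψ + t • φ)) z.K := by
  have nu := (h.sl_all i z).nu
  obtain ⟨p, _, q, u⟩ := a.dt.sz
  have := h1_line nu.p_ok.1 (sqrt_nonneg _) (nu.lo_Φ (h.tok_sl a.tz) p.lo) s.1.lo q (q.smul 0)
    (by simp) r0
  simp only [← phi_line, zero_smul, smul_zero, add_zero] at this
  exact this

theorem wg_h1 (a : G.Gd b J i z) (s : G.Sz i x y c φ 0) (hk : k ≤ i) (r0 : 0 < r) :
    H1 r (G.wg i z φ k) := tt_hd (h.wg_h0 a s r0) hk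

theorem wg_dF (a : G.Gd b J i z) (s : G.Sz i x y c φ 0) (hk : k ≤ i) :
    dF (G.wg i z φ k) = G.tt (dF (G.wg i z φ i)) i k := funext fun W => by
  have := jd_tt (G := G) (h.wg_h0 a s one_pos) hk {()} W
  refine ((jd_unit fun t => G.wg i z φ k t W).symm.trans this).trans (congrArg (G.tt · i k W)
    (funext fun U => ?_))
  simp only [dF, wg, tt_top]
  exact jd_unit fun t => Rep (G.p i) (G.N i) ((G.sl i z).Φ (z.ψ + t • φ)) z.K U

theorem tn_wg (a : G.Gd b J i z) (s : G.Sz i x y c φ 0) (r : Re (G.p i) (G.N i) φ 0) : ∃ κ : ℝ, 0 < κ ∧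
    (∀ k ≤ i, i ≤ J → ∀ U, Per (G.N k) U → G.f b J k U = κ * G.wg i z φ k 0 U) ∧
    G.Tn i z z.d (G.f b J i) x y c (φ, 0) fun U => κ * dF (G.wg i z φ i) U := by
  obtain ⟨κ, κ0, p⟩ := a.dt.rp
  have n := h.sl_nf i z
  refine ⟨κ, κ0, fun k hk hi => ?_, s, r, κ, 0, fun U hU => ⟨p U hU, ?_⟩⟩
  · refine dw_ind (P := fun k => ∀ U, Per (G.N k) U → G.f b J k U = κ * G.wg i z φ k 0 U)
      (fun U hU => ?_) (fun k e ih U _ => ?_) k hk
    · rw [n] at p
      rw [wg, tt_top, zero_smul, add_zero]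
      exact p U hU
    · rw [h.f_step b (e.trans_le hi), wg, tt_step _ e]
      exact TT_mul (fun U hU => ih U (h.N_succ k ▸ hU)) U
  · simp only [dF, dR, wg, tt_top, n, zero_mul, add_zero, Z.d, smul_zero]
    rfl

variable (A : G.Tu b J) (hR : G.Pb9 e R) (hp : G.Pu)
include A hR hp

/-- the reference direction at the top of a long chain -/
theorem ty_dir {γ : ℝ} (go : G.Go J k) (hi : i = k + G.l k) (H : G.Rf T e R γ b J k) :
    ∃ w w', BC w' ∧ G.Tr b J i (G.L i) 1 w w' ∧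
    |G.ry R b J (k + 1) (G.tt w' i (k + 1)) - 1| ≤ (G.Q k ^ 100)⁻¹ ∧
    |G.ry R b J k (G.tt w' i k) - G.ry R b J (k + 1) (G.tt w' i (k + 1)) + γ / G.bb k| ≤
      G.g k ^ 2 / G.Q k ^ 80 ∧
    Aty (G.N (k + 1)) (G.fx (k + 1)) (G.Q k ^ 410 * G.g k ^ 2) T
      (lg (G.f b J (k + 1)) (G.tt w' i (k + 1))) := by
  have iJ : i ≤ J := hi ▸ go.1.le
  have a := A.gd i iJ
  obtain ⟨φ, s, re, q, b1, b2⟩ := H i hi
  obtain ⟨κ, κ0, a1, a2⟩ := h.tn_wg a s re
  have e : ∀ j ≤ i, ∀ ϑ, Fw (G.N j) (G.fx j) ϑ →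
      lg (G.f b J j) (G.tt (fun U => κ * dF (G.wg i (G.zz b J i) φ i) U) i j) (ab ϑ) =
        G.wl i (G.zz b J i) φ j (ab ϑ) := fun j hj ϑ c => by
    rw [wl, lg, lg, tt_mul _ _ hj, a1 j hj iJ _ c.per, ← h.wg_dF a s hj,
      mul_div_mul_left _ _ (Complex.ofReal_ne_zero.2 κ0.ne')]
  have k1 : k + 1 ≤ i := by have := h.sch.big k; have := h.l1; unfold l at hi; omega
  refine ⟨_, _, (h.wg_h1 a s le_rfl one_pos).bc.2.cm _, a2, ?_, by
    rw [ry, ry, (hR _).congr (e k (by omega)), (hR _).congr (e _ k1), div_eq_mul_inv γ,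
      ← eq_inv_of_mul_eq_one_right (h.bg k)]
    exact b1, b2.congr (e _ k1)⟩
  generalize (fun U => κ * dF (G.wg i (G.zz b J i) φ i) U) = w at *
  have Q0 := h.Q0 k
  have ki : k ≤ i := by omega
  have eQ := h.go_Q go ki hi.le
  have LQ := eQ ▸ h.LQ i
  have L1 := h.L1 i
  have c1 := h.tr_short A hp iJ (h.tn_mono a2 (sqrt_nonneg _) le_rfl (by linarith)) (by linarith)
    (k := k) (by unfold L LL; omega)
  have c2 := (dist_le_Ico_sum_dist (fun j => G.ry R b J j (G.tt w i j)) k1).trans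
    (sum_le_card_nsmul _ _ (4 * G.Q k / G.Q k ^ 498) fun j hj => by
      obtain ⟨j1, j2⟩ := mem_Ico.1 hj
      have := h.ty_gm A hR hp (j2.trans_le iJ) (c1 _ j2 (by omega)).1 (by positivity)
      rw [← tt_step _ j2] at this
      refine this.trans ?_
      gcongr
      · linarith
      · exact h.Q_mono (by omega))
  have c3 := (h.ty_fd A iJ a2).1 _ R hR
  have c4 : ((Ico (k + 1) i).card : ℝ) ≤ G.Q k := le_trans (by
    rw [Nat.card_Ico]; exact_mod_cast (by unfold L LL; omega)) (h.LQ k)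
  rw [nsmul_eq_mul, tt_top, dist_eq] at c2
  have c5 := c2.trans (mul_le_mul_of_nonneg_right c4 (by positivity))
  rw [show G.Q k * (4 * G.Q k / G.Q k ^ 498) = 4 * (G.Q k ^ 496)⁻¹ by field_simp] at c5
  have c6 := mul_le_mul (h.ep_le' ki (i := 497) (by norm_num)) LQ (by linarith) (by positivity)
  rw [show (G.Q k ^ 497)⁻¹ * G.Q k = (G.Q k ^ 496)⁻¹ by field_simp] at c6
  have c8 := mul_le_mul_of_nonneg_left (show 1 ≤ (G.L i : ℝ) by linarith) (h.ep0 i)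
  rw [eQ] at q
  rw [abs_le] at *
  constructor <;> linarith only [c3, c5, c6, c8, q, h.ep0 i, h.inv_le k (show 200 < 496 by norm_num),
    h.inv_le k (show 100 < 200 by norm_num)]

end Gl.Ok

end Pool.Agent.Lib.MP_7f377f_mp.RG.Q4.En
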