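import Pool.Agent.Lib.MP_7f377f_mp.G.S21B2
import Pool.Agent.Lib.MP_7f377f_mp.G.S21D1
import Pool.Agent.Lib.MP_7f377f_mp.G.Q5Fm

/-! The reference direction of a typed tangent. -/

noncomputable section

set_option linter.unusedSectionVars false
variable [Pool.Agent.Lib.MP_7f377f_mp.GD]

namespace Pool.Agent.Lib.MP_7f377f_mp.RG.Q4.En

open Finset Real Metric Sd Ty Filter Topology

/-- the two constants theorem for two ratios, with a linear term -/
theorem two_lin {u v : Fin 2 → ℂ → ℂ} {c A μ : Fin 2 → ℝ} {σ η M x : ℝ} {a : ℕ} (σ0 : 0 < σ)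
    (A0 : ∀ i, 0 < A i) (hu : ∀ i, DifferentiableOn ℂ (u i) (ball 0 σ))
    (hv : ∀ i, DifferentiableOn ℂ (v i) (ball 0 σ))
    (h0 : ∀ i, ∀ t ∈ ball (0 : ℂ) σ, u i t ≠ 0 ∧ v i t ≠ 0 ∧ ‖u i t‖ ≤ exp (A i) * ‖v i t‖ ∧
      ‖v i t‖ ≤ exp (A i) * ‖u i t‖)
    (hr : ∀ i (s : ℝ), |s| < σ → ((u i s).im = 0 ∧ 0 < (u i s).re) ∧ (v i s).im = 0 ∧ 0 < (v i s).re)
    (hμ : ∀ i, |μ i| * σ ≤ A i) {E : ℝ} (hη : ∀ s : ℝ, |s| < σ →
      |c 0 * (log (u 0 s).re - log (v 0 s).re + μ 0 * s) -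
        c 1 * (log (u 1 s).re - log (v 1 s).re + μ 1 * s) + E| ≤ η) (η0 : 0 < η)
    (hM : 2 ≤ M) (ha : 6 * a ≤ M) (x1 : 1 ≤ x)
    (hx : 4 * (|c 0| * A 0 + |c 1| * A 1) ≤ x ^ a * η) :
    |c 0 * ((deriv (u 0) 0 / u 0 0).re - (deriv (v 0) 0 / v 0 0).re + μ 0) -
      c 1 * ((deriv (u 1) 0 / u 1 0).re - (deriv (v 1) 0 / v 1 0).re + μ 1)| ≤
        4 * M * x * η / σ := by
  have m0 : (0 : ℂ) ∈ ball (0 : ℂ) σ := mem_ball_self σ0
  have e1 : ∀ i (s : ℝ), u i s * Complex.exp (μ i * s) = exp (μ i * s) * u i s := fun i s => by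
    rw [mul_comm]; push_cast; rfl
  have := two_log (u := fun i t => u i t * Complex.exp (μ i * t)) (v := v) (c := c)
    (A := fun i => 2 * A i) (E := E) σ0 (fun i => mul_pos two_pos (A0 i))
    (fun i => (hu i).mul (by fun_prop)) hv (fun i t ht => ?_) (fun i s hs => ?_) (fun s hs => ?_)
    η0 hM ha x1 (by linarith)
  · have d : ∀ i, (deriv (fun t => u i t * Complex.exp (μ i * t)) 0 /
        (u i 0 * Complex.exp (μ i * 0))).re = (deriv (u i) 0 / u i 0).re + μ i := fun i => by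
      have := (h0 i 0 m0).1
      rw [(((hu i).differentiableAt (ball_mem_nhds _ σ0)).hasDerivAt.fun_mul
        ((hasDerivAt_id' (0 : ℂ)).const_mul (μ i : ℂ)).cexp).deriv, ← Complex.ofReal_re (μ i),
        ← Complex.add_re, Complex.ofReal_re]
      congr 1
      field_simp
    simp only [d] at this
    exact (congrArg _ (by ring)).trans_le this
  · obtain ⟨a1, a2, a3, a4⟩ := h0 i t ht
    have b := abs_le.1 ((Complex.abs_re_le_norm ((μ i : ℂ) * t)).trans (show _ ≤ A i by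
      rw [norm_mul, Complex.norm_real, norm_eq_abs]
      exact (mul_le_mul_of_nonneg_left (mem_ball_zero_iff.1 ht).le (abs_nonneg _)).trans (hμ i)))
    rw [norm_mul, Complex.norm_exp, two_mul, exp_add]
    refine ⟨mul_ne_zero a1 (Complex.exp_ne_zero _), a2, (mul_le_mul a3 (exp_le_exp.2 b.2)
      (exp_pos _).le (by positivity)).trans_eq (by ring), a4.trans ?_⟩
    rw [mul_assoc, mul_left_comm (exp _) ‖_‖, ← exp_add]
    exact mul_le_mul_of_nonneg_left (le_mul_of_one_le_right (norm_nonneg _)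
      (one_le_exp (by linarith))) (exp_pos _).le
  · obtain ⟨⟨a1, a2⟩, a3⟩ := hr i s hs
    rw [e1, Complex.im_ofReal_mul, Complex.re_ofReal_mul, a1]
    exact ⟨⟨mul_zero _, mul_pos (exp_pos _) a2⟩, a3⟩
  · simp only [e1, Complex.re_ofReal_mul, log_mul (exp_ne_zero _) (hr _ s hs).1.2.ne', log_exp]
    exact (congrArg _ (by ring)).trans_le (hη s hs)

namespace Gl.Ok

variable {G : Gl} (h : G.Ok) {b : ℝ} {J i j k : ℕ} {φ : Lx} {κ : BF} {T1 : Fld → ℂ}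
include h

theorem wg_cplx (A : G.Tu b J) (go : G.Go J k) (hi : i = k + G.l k)
    (s0 : G.Sz i (G.L i) 1 √(G.g i) φ 0) (hk : k ≤ j) (hj : j ≤ i) (t : ℂ)
    (ht : ‖t‖ ≤ G.bb k / G.Q k ^ 402) {ϑ ϑ' : Lk → Ang} (a : Fw (G.N j) (G.fx j) ϑ)
    (a' : Fw (G.N j) (G.fx j) ϑ') : G.wg i (G.zz b J i) φ j t (ab ϑ) ≠ 0 ∧
      ‖G.wg i (G.zz b J i) φ j t (ab ϑ)‖ ≤
        exp (4 * G.N j ^ 4) * ‖G.wg i (G.zz b J i) φ j t (ab ϑ')‖ := by
  have iJ : i ≤ J := hi ▸ go.1.le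
  have ki : k ≤ i := hk.trans hj
  have Q0 := h.Q0 k
  have Q1 := h.Q1 k
  have b0 := h.b0 k
  obtain ⟨u, hu⟩ : ∃ u, u = G.bb k / G.Q k ^ 401 := ⟨_, rfl⟩
  obtain ⟨ω, hω⟩ : ∃ ω, ω = (G.Q k ^ 280)⁻¹ := ⟨_, rfl⟩
  have ω0 : 0 < ω := by rw [hω]; positivity
  have u1 : G.Q k ^ 10 ≤ u := by
    rw [hu, le_div_iff₀ (by positivity), ← pow_add]
    exact (pow_le_pow_right₀ Q1 (by norm_num)).trans (h.Qb k)
  have u2 : 1 ≤ u := (one_le_pow₀ Q1).trans u1
  have ug : ∀ j, k ≤ j → G.Q k ^ 401 * (u * G.g j ^ 2) ≤ 1 := fun j hj => by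
    have : G.g j ≤ G.g k := antitone_nat_of_succ_le h.g_succ hj
    have := h.g0 j
    calc _ ≤ G.Q k ^ 401 * (u * G.g k ^ 2) := by gcongr
      _ = G.bb k * G.g k ^ 2 := by rw [hu]; field_simp
      _ = 1 := h.bg k
  have sg : ∀ j, k ≤ j → √(G.g j) ≤ ω := fun j hj => by
    refine (sqrt_le_sqrt (antitone_nat_of_succ_le h.g_succ hj)).trans ?_
    rw [hω, ← one_div, le_div_iff₀' (by positivity)]
    exact (mul_le_mul_of_nonneg_right (pow_le_pow_right₀ Q1 (by norm_num)) (sqrt_nonneg _)).trans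
      (h.Qsg k)
  have oq : G.Q k ^ 280 * ω = 1 := by rw [hω]; field_simp
  have ω1 : ∀ i < 280, 1000 * (G.Q k ^ i * ω) ≤ 1 := fun i hi =>
    (mul_assoc _ _ _).ge.trans ((mul_le_mul_of_nonneg_right (h.qpw k hi) ω0.le).trans_eq oq)
  obtain ⟨s, hs⟩ : ∃ s : ℕ → ℝ, ∀ j, s j = u + (i - j : ℕ) * (u / G.Q k ^ 2) := ⟨_, fun _ => rfl⟩
  have s1 : ∀ j, u ≤ s j := fun j => hs j ▸ le_add_of_nonneg_right (by positivity)
  have s2 : ∀ j, k ≤ j → s j ≤ 2 * u := fun j hj => by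
    have c : ((i - j : ℕ) : ℝ) ≤ G.L k := Nat.cast_le.2 (by unfold L LL; omega)
    rw [hs, two_mul, add_le_add_iff_left, ← mul_div_assoc, div_le_iff₀ (by positivity), mul_comm]
    gcongr
    exact (c.trans (h.LQ k)).trans (le_self_pow₀ Q1 two_ne_zero)
  have H : ∀ j ≤ i, k ≤ j → ∃ (d : Lx × Ac) (κ : ℂ), κ ≠ 0 ∧ G.Sz j (s j) (s j) ω d.1 d.2 ∧
      ∀ U, Per (G.N j) U → G.wg i (G.zz b J i) φ j t U =
        κ * Rep (G.p j) (G.N j) ((G.sl j (G.zz b J j)).Φ d.1) d.2 U := by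
    refine dw_ind (fun _ => ?_) fun j hj ih hk => ?_
    · have c := Pos.sz_add (h.ρ0 i) (A.gd i iJ).dt.sz (Pos.sz_smul (h.ρ0 i) s0 t)
      have L1 := h.L1 i
      have t0 := norm_nonneg t
      have t1 : ‖t‖ * G.L i ≤ u / 2 := by
        have := h.LQ' i (i := 2) (by norm_num)
        rw [h.go_Q go ki hi.le] at this
        rw [le_div_iff₀ (by positivity)] at ht
        rw [hu, div_div, le_div_iff₀ (by positivity)]
        calc _ = ‖t‖ * G.Q k ^ 401 * (G.L i * 2) := by ring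
          _ ≤ ‖t‖ * G.Q k ^ 401 * G.Q k := by gcongr; nlinarith
          _ ≤ _ := by rwa [mul_assoc, ← pow_succ]
      have t2 := mul_le_mul_of_nonneg_left (show 1 ≤ (G.L i : ℝ) by linarith) t0
      have u3 := h.qpw k (i := 0) (j := 10) (by norm_num)
      rw [smul_zero, add_zero] at c
      refine ⟨(_, _), 1, one_ne_zero, h.sz_le c (sqrt_nonneg _) ?_ ?_ (sg i ki),
        fun U _ => by rw [wg, tt_top, one_mul]⟩ <;> linarith [s1 i]
    · obtain ⟨d, κ, κ0, c, e⟩ := ih (by omega)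
      have jJ : j < J := hj.trans_le iJ
      have q := h.go_Q go hk (by omega)
      obtain ⟨c', E, e'⟩ := h.step_cx (u' := s j) (A.gd (j + 1) jJ).tz jJ ((A.v (j + 1) jJ).trans (by
        have := h.inv_le (j + 1) (i := 0) (j := 409) (by norm_num)
        rw [pow_zero, inv_one] at this
        linarith)) (A.lam j jJ).1 c (u2.trans (s1 _)) (sg j hk)
        (by rw [q]; linarith [ω1 100 (by norm_num)]) (by
          rw [q, hω, ← one_div, le_div_iff₀' (by positivity)]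
          have w : 0 ≤ u * G.g (j + 1) ^ 2 := mul_nonneg (zero_le_one.trans u2) (sq_nonneg _)
          linarith [ug (j + 1) (by omega), mul_le_mul_of_nonneg_right (s2 (j + 1) (by omega))
            (mul_nonneg (pow_pos Q0 395).le (sq_nonneg (G.g (j + 1)))), mul_le_mul_of_nonneg_right
            (h.qpw k (i := 395) (j := 401) (by norm_num)) w, mul_nonneg (pow_pos Q0 395).le w]) (by
          rw [q, hs j, show i - j = i - (j + 1) + 1 by omega, Nat.cast_succ, add_mul, ← add_assoc,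
            ← hs, add_assoc, add_le_add_iff_left, one_mul, le_div_iff₀ (by positivity)]
          nlinarith [mul_le_mul_of_nonneg_right (ω1 52 (by norm_num)) (zero_le_one.trans u2),
            mul_le_mul_of_nonneg_left (s2 (j + 1) (by omega))
              (show 0 ≤ G.Q k ^ 52 * ω by positivity), h.qpw k (i := 4) (j := 10) (by norm_num)])
      refine ⟨_, κ * Complex.exp E, mul_ne_zero κ0 (Complex.exp_ne_zero _), c', fun W hW => ?_⟩
      rw [wg, tt_step _ hj, zz_step b jJ, mul_assoc, ← e' W hW]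
      exact TT_mul (fun U hU => e U (h.N_succ j ▸ hU)) W
  obtain ⟨d, κ, κ0, c, e⟩ := H j hj hk
  have B := fun ϑ (a : Fw (G.N j) (G.fx j) ϑ) => (h.lf (A.gd j (hj.trans iJ)).tz).cx_bd
    (h.sz_sl c _) (ϑ := ϑ) (by
      change G.Q j ^ 100 * _ * G.g j ^ 2 ≤ 1
      have := h.Q0 j
      calc _ ≤ (G.Q k ^ 2) ^ 100 * (2 * u) * G.g j ^ 2 := by
            gcongr
            exacts [zero_le_one.trans (u2.trans (s1 j)), h.go_Q2 go (by omega), s2 j hk]
        _ ≤ 1 := by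
            nlinarith [ug j hk, mul_le_mul_of_nonneg_right (h.qpw k (i := 200) (j := 401)
              (by norm_num)) (show 0 ≤ u * G.g j ^ 2 by positivity)])
    (by linarith [ω1 0 (by norm_num)]) (by rw [h.sl_nf]; exact a)
  have b1 := B ϑ a
  have b2 := (B ϑ' a').1
  rw [h.sl_nf] at b1 b2
  obtain ⟨_, -, -, a⟩ := a
  obtain ⟨_, -, -, a'⟩ := a'
  rw [e _ a.per, e _ a'.per, norm_mul, norm_mul, mul_left_comm]
  refine ⟨mul_ne_zero κ0 (norm_pos_iff.1 ((exp_pos _).trans_le b1.1)),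
    mul_le_mul_of_nonneg_left (b1.2.trans (le_trans (le_of_eq ?_)
      (mul_le_mul_of_nonneg_left b2 (exp_pos _).le))) (norm_nonneg _)⟩
  rw [← exp_add]
  congr 1
  ring

theorem wg_gen (A : G.Tu b J) (go : G.Go J k) (hi : i = k + G.l k)
    (s0 : G.Sz i (G.L i) 1 √(G.g i) φ 0) {j : Fin 2 → ℕ}
    (hj : ∀ s, j s = k ∨ j s = k + 1) {ϑ ϑ' : Fin 2 → Lk → Ang}
    (a : ∀ s, Fw (G.N (j s)) (G.fx (j s)) (ϑ s)) (a' : ∀ s, Fw (G.N (j s)) (G.fx (j s)) (ϑ' s))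
    {c μ : Fin 2 → ℝ} (hc : ∀ s, |c s| ≤ (G.N (j s) ^ 4 * tq (G.N (j s)) (G.fx (j s)) ^ 2)⁻¹)
    (hμ : ∀ s, |μ s| * (G.bb k / G.Q k ^ 402) ≤ 4 * G.N (j s) ^ 4)
    {E η : ℝ} (η1 : (G.Q k ^ 490)⁻¹ ≤ η) {F : ℕ → ℂ → Conf → ℂ} (hF : F = G.wg i (G.zz b J i) φ)
    (hr : ∀ t : ℝ, |t| ≤ G.bb k / G.Q k ^ 402 → ∀ j, j = k ∨ j = k + 1 → ∀ ϑ,
      Fw (G.N j) (G.fx j) ϑ → (F j t (ab ϑ)).im = 0 ∧ 0 < (F j t (ab ϑ)).re)
    (hη : ∀ t : ℝ, |t| ≤ G.bb k / G.Q k ^ 402 →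
      |c 0 * (log (F (j 0) t (ab (ϑ 0))).re - log (F (j 0) t (ab (ϑ' 0))).re + μ 0 * t) -
        c 1 * (log (F (j 1) t (ab (ϑ 1))).re - log (F (j 1) t (ab (ϑ' 1))).re + μ 1 * t) + E| ≤ η) :
    |c 0 * (lg (F (j 0) 0) (dF (F (j 0))) (ab (ϑ 0)) - lg (F (j 0) 0) (dF (F (j 0))) (ab (ϑ' 0)) +
      μ 0) - c 1 * (lg (F (j 1) 0) (dF (F (j 1))) (ab (ϑ 1)) -
        lg (F (j 1) 0) (dF (F (j 1))) (ab (ϑ' 1)) + μ 1)| ≤ G.Q k ^ 403 * G.g k ^ 2 * η := by
  subst hF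
  have iJ : i ≤ J := hi ▸ go.1.le
  have q0 := h.Q0 k
  have q1 := h.Q1 k
  have b0 := h.b0 k
  have L1 := h.L1 k
  have η0 : 0 < η := (by positivity : 0 < (G.Q k ^ 490)⁻¹).trans_le η1
  have l1 : 1 ≤ G.l k := by have := h.sch.big k; have := h.l1; unfold l; omega
  have j1 : ∀ s, k ≤ j s ∧ j s ≤ k + 1 := fun s => by rcases hj s with e | e <;> omega
  have σ0 : 0 < G.bb k / G.Q k ^ 402 := by positivity
  have n0 : ∀ s, (0 : ℝ) < G.N (j s) ^ 4 := fun s =>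
    pow_pos (Nat.cast_pos.2 (h.N_odd _).pos) _
  have d := fun s U => (h.wg_h1 (A.gd i iJ) s0 (k := j s) (by have := j1 s; omega) σ0).diff U
  have w := fun s t (ht : t ∈ ball (0 : ℂ) (G.bb k / G.Q k ^ 402)) {ϑ ϑ'} =>
    h.wg_cplx A go hi s0 (j1 s).1 (by have := j1 s; omega) t (mem_ball_zero_iff.1 ht).le
      (ϑ := ϑ) (ϑ' := ϑ')
  have r := fun s (t : ℝ) (ht : |t| < G.bb k / G.Q k ^ 402) => hr t ht.le _ (hj s)
  have B : 10 ^ 9 * (100 + G.c + G.K + 4 * G.Bk k + 1) ≤ G.l k := (h.sl_all k (G.top0 0 0)).nu.l_big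
  have B1 := h.B1.trans (h.B_lo k)
  have cA : ∀ s, |c s| * (4 * G.N (j s) ^ 4) ≤ 4 * (G.Q k ^ 500 * G.bb (k + 1)) := fun s => by
    refine (mul_le_mul_of_nonneg_right (hc s) (mul_pos four_pos (n0 s)).le).trans ?_
    have := (n0 s).ne'
    rw [mul_inv, show ∀ x y : ℝ, x * y * (4 * G.N (j s) ^ 4) = 4 * y * (G.N (j s) ^ 4 * x) from
      fun _ _ => by ring, mul_inv_cancel₀ this, mul_one]
    refine mul_le_mul_of_nonneg_left ((h.tq_inv _).trans ?_) zero_le_four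
    rw [h.go_Q go (j1 s).1 (by have := j1 s; omega)]
    exact mul_le_mul_of_nonneg_left (h.b_mono (j1 s).2) (pow_pos q0 _).le
  refine (two_lin (u := fun s t => G.wg i (G.zz b J i) φ (j s) t (ab (ϑ s)))
    (v := fun s t => G.wg i (G.zz b J i) φ (j s) t (ab (ϑ' s))) (A := fun s => 4 * G.N (j s) ^ 4)
    (M := 30 * G.Bk k) (x := G.L k) (a := 5 * G.Bk k) σ0 (fun s => mul_pos four_pos (n0 s))
    (fun s => d s _) (fun s => d s _) (fun s t ht => ⟨(w s t ht (a s) (a' s)).1,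
      (w s t ht (a' s) (a s)).1, (w s t ht (a s) (a' s)).2, (w s t ht (a' s) (a s)).2⟩)
    (fun s t ht => ⟨r s t ht _ (a s), r s t ht _ (a' s)⟩) hμ (fun t ht => hη t ht.le) η0
    (by exact_mod_cast (by omega : 2 ≤ 30 * G.Bk k)) (by push_cast; linarith) (by linarith)
    ?_).trans ?_
  · have e1 : G.bb (k + 1) ≤ (G.L k : ℝ) ^ (4 * G.Bk k) := h.sch.upp k
    have e2 : G.Q k ^ 4000 ≤ (G.L k : ℝ) ^ G.Bk k := by
      rw [Q, ← pow_mul]
      exact pow_le_pow_right₀ (by linarith) (by omega)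
    have e3 : 32 * G.Q k ^ 500 ≤ (G.L k : ℝ) ^ G.Bk k * (G.Q k ^ 490)⁻¹ := by
      rw [← div_eq_mul_inv, le_div_iff₀ (pow_pos q0 _), mul_assoc, ← pow_add]
      linarith [h.qpw k (i := 500 + 490) (j := 4000) (by norm_num), pow_pos q0 (500 + 490)]
    calc _ ≤ 32 * G.Q k ^ 500 * G.bb (k + 1) := by linarith [cA 0, cA 1]
      _ ≤ (G.L k : ℝ) ^ G.Bk k * η * (G.L k : ℝ) ^ (4 * G.Bk k) :=
        mul_le_mul (e3.trans (by gcongr)) e1 (h.b0 _).le (by positivity)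
      _ = _ := by ring
  · have e1 : (120 * G.Bk k : ℝ) ≤ G.L k := by
      exact_mod_cast (by unfold L LL; omega : 120 * G.Bk k ≤ G.L k)
    have e2 : 4 * (30 * G.Bk k : ℝ) * G.L k ≤ G.Q k := by
      nlinarith [h.LQ' k (i := 2) (by norm_num)]
    rw [div_le_iff₀ σ0]
    calc _ ≤ G.Q k * η := mul_le_mul_of_nonneg_right e2 η0.le
      _ = G.Q k * η * (G.bb k * G.g k ^ 2) := by rw [h.bg, mul_one]
      _ = _ := by field_simp

/-- the direction as a local term -/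
theorem dv_sz (a : G.Gd b J i (G.zz b J i)) (D : G.Dv i κ T1) :
    G.Sz i (G.L i) 1 √(G.g i) (fun _ B => cx κ B B + T1 B) 0 ∧
      Re (G.p i) (G.N i) (fun _ B => cx κ B B + T1 B) 0 ∧
        ∀ a b, qc (fun B => cx κ B B + T1 B) a b = κ (cc a) (cc b) := by
  have lf := h.lf a.tz
  have r := h.ρ0 i
  have q0 := h.Q0 i
  have g0 := h.g0 i
  have L1 := h.L1 i
  have LQ := h.LQ' i (i := 2) (by norm_num)
  obtain ⟨-, _, q, u⟩ := a.dt.sz
  have c : Cb 2 (G.L i) κ := fun a b δ δ' ha hb =>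
    D.cb a b δ δ' (ha.mono one_le_two le_rfl) (hb.mono one_le_two le_rfl)
  obtain ⟨a1, a2⟩ := c.ps D.symm 6 r
  obtain ⟨b1, b2⟩ := D.tc.ps r (lf.ρD.trans_eq (by rw [D0_eq]; rfl)) 6
  obtain ⟨c1, c2⟩ := a1.add b1 r
  refine ⟨⟨fun _ => ⟨c1.mono (le_trans (by have := lf.nu.r1; omega) lf.rR) r le_rfl (by simp) ?_ ?_,
    (measurable_cx c.rng measurable_id measurable_id).add D.tc.meas⟩, _,
    (zero_smul ℂ (G.zz b J i).K).subst (q.smul 0), (u.smul (norm_nonneg _)).mono (by simp; positivity)⟩,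
    ⟨fun _ B hB _ => by simp [cx_im _ hB hB, D.real B hB], fun _ _ _ => rfl,
      fun _ => ⟨rfl, fun _ _ => rfl⟩⟩, fun a b => by rw [qc, c2, a2, b2, add_zero]⟩
  · have := mul_le_mul (h.cQ i (C := 10 ^ 7) (by norm_num)) (h.LQ i) (by linarith) q0.le
    push_cast
    linarith
  · rw [div_self r.ne', one_pow, mul_one, zero_add]
    change _ * (G.Q i ^ 3 * G.g i) ^ 3 ≤ _
    calc _ = 2 * 10 ^ 19 * G.L i * G.Q i ^ 9 * G.g i * 1 * G.g i ^ 2 := by ring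
      _ ≤ G.Q i * G.Q i * G.Q i ^ 48 * √(G.g i) * 1 * G.g i ^ 2 := by
        gcongr
        exacts [h.cQ i (by norm_num), h.LQ i, h.Q1 i, by norm_num,
          le_sqrt_of_sq_le (by nlinarith [h.g1 i])]
      _ = _ := by ring

theorem go_b1 (go : G.Go J k) : ∀ s ≤ G.l k, G.bb (k + s) ≤ G.bb k + s * G.L k := fun s hs => by
  induction s with
  | zero => simp
  | succ s ih =>
    have e : G.bb (k + s + 1) ≤ G.bb (k + s) + G.L (k + s) := (h.sch.le _).2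
    rw [h.go_L go (Nat.le_add_right _ _) (by omega)] at e
    push_cast
    exact e.trans (by linarith [ih (by omega)])

/-- the reference direction at one level -/
theorem rf_at (A : G.Tu b J) (go : G.Go J k) {T : Ty} {e : Pl × Pl} (D0 : Q4.Dir T e κ T1)
    (D : G.Dv (k + G.l k) κ T1) {c : ℕ} {γ : ℝ} (hc : c < G.Bk k) (hγ : |γ| ≤ G.Q k)
    (af : ∀ v : ℝ, |v - 1| ≤ 10⁻¹ → ∃ E : ℝ, ∀ (d : ℕ → Td) (ε : ℝ),
      Chw G.c G.Kt G.K0 (G.l k) (G.l k - 1) ((G.L k : ℝ) ^ c)⁻¹ d → |ε| ≤ (G.Q k ^ 400)⁻¹ →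
      Cd ((G.L k : ℝ) ^ c)⁻¹ (d 0).m (v • (m0 + ε • κ)) →
        |(qc (d (G.l k - 1)).ol (pt (EE e.1)) (pt (EE e.2))).re - E + ε * γ| ≤ (G.Q k ^ 500)⁻¹) :
    G.Rf T e (fun k => rq (G.N k) (G.fx k) e) γ b J k := fun i hi => by
  have iJ : i < J := hi ▸ go.1
  have q0 := h.Q0 k
  have q1 := h.Q1 k
  have b0 := h.b0 k
  have g0 := h.g0 k
  rw [← hi] at D
  have gd := A.gd i iJ.le
  obtain ⟨s0, re, qq⟩ := h.dv_sz gd D
  obtain ⟨E, af⟩ := af _ gd.tz.v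
  have H := fun t ht => h.fr_law A go hi D hc af (t := t) ht rfl
  have p : ∀ j, 0 < (G.N j : ℝ) ^ 4 * tq (G.N j) (G.fx j) ^ 2 := fun j =>
    mul_pos (pow_pos (Nat.cast_pos.2 (h.N_odd _).pos) _) (pow_pos (h.tq0 j) _)
  have fw := fun j => fw_pm (h.N_odd j).pos.ne' (h.tq0 j) e.1 e.2
  refine ⟨_, s0, re, ?_, ?_, fun ϑ a g hg => ?_⟩
  · rw [qq, cc_eq (as_EE _), cc_eq (as_EE _), D0.one, Complex.ofReal_re, sub_self, abs_zero]
    exact (inv_pos.2 (pow_pos (h.Q0 i) _)).le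
  · obtain ⟨x, hx⟩ : ∃ x, x = G.bb i * (G.zz b J i).v := ⟨_, rfl⟩
    have v := A.v i iJ.le
    rw [h.go_Q go (by omega) hi.le] at v
    obtain ⟨y, hy⟩ : ∃ y, y = (G.Q k ^ 409)⁻¹ := ⟨_, rfl⟩
    have y1 : 10 ^ 9 * y ≤ 1 := hy ▸ h.inv_c k (by norm_num)
    have x1 : |x - G.bb k| ≤ 3 * G.bb k * y := by
      have c1 : G.bb k ≤ G.bb i := h.b_mono (by omega)
      have c2 : G.bb i ≤ G.bb k + G.Q k := by
        have := hi ▸ h.go_b1 go _ le_rfl
        have a : (G.l k : ℝ) ≤ G.L k := Nat.cast_le.2 (by unfold L LL; omega)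
        nlinarith [h.LQ' k (i := 2) (by norm_num), h.L1 k]
      have c3 : G.Q k ≤ G.bb k * y := by
        rw [hy, ← div_eq_mul_inv, le_div_iff₀ (by positivity), ← pow_succ']
        exact (pow_le_pow_right₀ q1 (by norm_num)).trans (h.Qb k)
      have c4 := abs_le.1 (hy ▸ v)
      have c5 : G.bb i ≤ 2 * G.bb k := h.go_b go (by omega)
      rw [hx, abs_le]
      constructor <;> nlinarith only [c1, c2, c3, c4.1, c4.2, c5, b0]
    have x2 : G.bb k / 2 ≤ x := by nlinarith only [(abs_le.1 x1).1, y1, b0]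
    have x0 : 0 < x := by linarith
    have t1 : tq (G.N k) (G.fx k) ≤ 1 := by
      have := ((h.lf (A.gd k (by omega)).tz).tq_bd (le_self_pow₀ q1 (by norm_num) : _ ≤ G.Q k ^ 250)
        ((pow_mul _ _ _).ge.trans ((pow_le_pow_right₀ q1 (by norm_num)).trans (h.Qb k)))).2.2.2
      rw [h.sl_nf] at this
      change G.Q k * (2 * tq _ (G.fx k)) ≤ 4 * G.g k at this
      nlinarith only [this, h.g1 k, h.cQ k (C := 2) (by norm_num), h.tq0 k]
    have := h.wg_gen A go hi s0 (j := ![k, k + 1]) (E := -E) (η := (G.Q k ^ 490)⁻¹)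
      (ϑ := fun s => fp (G.N (![k, k + 1] s)) (G.fx (![k, k + 1] s)) e.1 -
        fp (G.N (![k, k + 1] s)) (G.fx (![k, k + 1] s)) e.2)
      (ϑ' := fun s => fp (G.N (![k, k + 1] s)) (G.fx (![k, k + 1] s)) e.1 +
        fp (G.N (![k, k + 1] s)) (G.fx (![k, k + 1] s)) e.2)
      (c := fun s => (4 * (G.N (![k, k + 1] s) ^ 4 * tq (G.N (![k, k + 1] s))
        (G.fx (![k, k + 1] s)) ^ 2))⁻¹) (μ := ![γ / x * (4 * (G.N k ^ 4 * tq (G.N k) (G.fx k) ^ 2)), 0])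
      (Fin.forall_fin_two.2 ⟨.inl rfl, .inr rfl⟩) (fun s => (fw _).2) (fun s => (fw _).1)
      (fun s => (abs_of_pos (inv_pos.2 (mul_pos four_pos (p _)))).trans_le
        (inv_anti₀ (p _) (by linarith [p (![k, k + 1] s)])))
      (Fin.forall_fin_two.2 ⟨?_, by simp⟩) le_rfl rfl (fun t ht => (H t ht).1) fun t ht => by
        have := (H t ht).2.1
        simp only [rq, div_eq_inv_mul (_ - _)] at this
        simp only [Matrix.cons_val_zero, Matrix.cons_val_one, mul_add, mul_comm (γ / x), mul_assoc _ (γ / x),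
          inv_mul_cancel_left₀ (mul_pos four_pos (p k)).ne']
        exact (congrArg _ (by rw [hx]; ring)).trans_le this
    · have c1 : |γ * G.g k ^ 2 - γ / x| ≤ 6 * (G.g k ^ 2 / G.Q k ^ 408) := by
        rw [show γ * G.g k ^ 2 - γ / x = γ * (x - G.bb k) * (G.g k ^ 2 / x) by
          rw [eq_inv_of_mul_eq_one_right (h.bg k)]; field_simp, abs_mul, abs_mul,
          abs_of_pos (a := _ / x) (by positivity)]
        calc _ ≤ G.Q k * (3 * G.bb k * y) * (G.g k ^ 2 / (G.bb k / 2)) := by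
              have : 0 < y := by rw [hy]; positivity
              gcongr
          _ = _ := by rw [hy]; field_simp; norm_num
      have c2 : ∀ i j, i < j → 1000 * (G.g k ^ 2 / G.Q k ^ j) ≤ G.g k ^ 2 / G.Q k ^ i := fun i j e => by
        linarith only [mul_le_mul_of_nonneg_left (h.inv_le k e) (sq_nonneg (G.g k)),
          div_eq_mul_inv (G.g k ^ 2) (G.Q k ^ i), div_eq_mul_inv (G.g k ^ 2) (G.Q k ^ j)]
      rw [show G.Q k ^ 403 * G.g k ^ 2 * (G.Q k ^ 490)⁻¹ = G.g k ^ 2 / G.Q k ^ 87 by field_simp] at this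
      simp only [Matrix.cons_val_zero, Matrix.cons_val_one, mul_add, add_zero,
        mul_comm (γ / x), inv_mul_cancel_left₀ (mul_pos four_pos (p k)).ne'] at this
      simp only [rq, wl, div_eq_inv_mul (_ - _)]
      rw [abs_le] at this c1 ⊢
      constructor <;> linarith only [this.1, this.2, c1.1, c1.2, c2 80 87 (by norm_num),
        c2 87 408 (by norm_num), div_pos (pow_pos g0 2) (pow_pos q0 408)]
    · simp only [Matrix.cons_val_zero]
      rw [abs_mul, abs_div, abs_of_pos x0, abs_of_pos (mul_pos four_pos (p k))]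
      calc _ ≤ G.Q k / (G.bb k / 2) * (4 * (G.N k ^ 4 * 1 ^ 2)) * (G.bb k / G.Q k ^ 402) := by
            have := h.tq0 k
            gcongr
        _ = 4 * G.N k ^ 4 * (2 * (G.Q k ^ 401)⁻¹) := by field_simp
        _ ≤ _ := mul_le_of_le_one_right (by positivity)
          (by linarith [h.inv_c k (j := 401) (by norm_num), inv_pos.2 (pow_pos q0 401)])
  · obtain ⟨F, a1, a2, a3⟩ := id a
    have c0 := inv_pos.2 (p (k + 1))
    have sg : |(sb g.2 : ℝ)| = 1 := by cases g.2 <;> simp [sb]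
    obtain ⟨w, hw⟩ : ∃ w, w = ((G.N (k + 1) : ℝ) ^ 4 * tq (G.N (k + 1)) (G.fx (k + 1)) ^ 2)⁻¹ :=
      ⟨_, rfl⟩
    have := h.wg_gen A go hi s0 (j := fun _ => k + 1) (ϑ := ![an g.1 ϑ, ϑ]) (ϑ' := 0) (μ := 0)
      (E := w * (G.N (k + 1) ^ 4 * (G.bb i * ((G.zz b J i).m (pt (Ty.mt g.1 F)) (pt (Ty.mt g.1 F)) -
        sb g.2 * (G.zz b J i).m (pt F) (pt F))))) (c := ![w, w * sb g.2]) (η := 4 * G.Q k ^ 3)
      (fun _ => .inr rfl) (Fin.forall_fin_two.2 ⟨a.an _, a⟩) (fun _ => a.zero)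
      (Fin.forall_fin_two.2 ⟨(hw ▸ abs_of_pos c0 : |w| = _).le.trans hw.le, by
        simp only [Matrix.cons_val_one, Matrix.cons_val_zero]
        rw [abs_mul, sg, mul_one, hw, abs_of_pos c0]⟩) (fun _ => by simp)
      ((inv_le_one_of_one_le₀ (one_le_pow₀ q1)).trans (by linarith [one_le_pow₀ (n := 3) q1])) rfl
      (fun t ht => (H t ht).1) fun t ht => by
        obtain ⟨c, K⟩ := (H t ht).2.2
        have k0 := abs_le.1 (K 0 0 (fun _ _ => by simp) (by simpa using (h.tq0 _).le) fx_zero)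
        have k1 := abs_le.1 (K _ _ a1 a2 a3)
        have k2 := abs_le.1 (K _ _ (as_mt a1 g.1) ((norm_mt g.1).trans a2) (fx_an a3 g.1))
        rw [D0.typ g hg F a1] at k2
        simp only [Matrix.cons_val_zero, Matrix.cons_val_one, Pi.zero_apply, zero_mul, add_zero,
          map_zero, mul_zero] at k0 ⊢
        rw [mul_assoc w, ← mul_sub, ← mul_add, abs_mul, hw, abs_of_pos c0, inv_mul_le_iff₀ (p _)]
        generalize g.2 = χ at *
        cases χ <;> simp only [sb, if_true, Bool.false_eq_true, if_false] at k2 ⊢ <;>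
          push_cast at k2 ⊢ <;> exact abs_le.2 ⟨by linarith, by linarith⟩
    simp only [Matrix.cons_val_zero, Matrix.cons_val_one, Pi.zero_apply, add_zero] at this
    rw [mul_assoc w, ← mul_sub, abs_mul, hw, abs_of_pos c0, inv_mul_le_iff₀ (p _)] at this
    refine this.trans ?_
    have := mul_le_mul_of_nonneg_right (h.qpw k (show 406 < 410 by norm_num))
      (mul_pos (pow_pos g0 2) (p (k + 1))).le
    linarith only [this, mul_pos (pow_pos q0 406) (mul_pos (pow_pos g0 2) (p (k + 1)))]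

end Gl.Ok

/-- the reference direction -/
theorem rf_of {G : Gl} (h : G.Oks) {T : Ty} {e : Pl × Pl} {κ : BF} {T1 : Fld → ℂ} {c : ℝ}
    (a : AFd κ e c G.c G.Kt G.K0 G.K) (d : Q4.Dir T e κ T1) : ∃ γ : ℕ → ℝ,
      Tendsto (fun k => γ k / log (G.L k)) atTop (𝓝 c) ∧ ∀ᶠ k in atTop, ∀ m b J, (G.wm m).Tu b J →
        (G.wm m).Go J k → (G.wm m).Rf T e (fun k => rq ((G.wm m).N k) ((G.wm m).fx k) e) (γ k)
          b J k := by
  obtain ⟨c0, l0, γ, g, a⟩ := a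
  obtain ⟨σ, -, cb⟩ := d.cb
  obtain ⟨ρ, C, ρ0, tc⟩ := d.tc
  have o := (h 0).1
  have tp : Tendsto G.l atTop atTop := o.sch.top
  refine ⟨fun k => γ (G.l k), g.comp tp, ?_⟩
  filter_upwards [tp.eventually (ins G.c o.c1), tp.eventually_ge_atTop l0,
    o.sch.Btop.eventually_gt_atTop c0, o.L_top.eventually_ge_atTop (max (max σ C) (max ρ⁻¹ (|c| + 1))),
    tp.eventually (g.eventually (Metric.ball_mem_nhds c one_pos))] with k h1 h2 h3 h4 h5 m b J A go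
  have o := (h m).1
  simp only [max_le_iff] at h4
  obtain ⟨⟨h6, h7⟩, h8, h9⟩ := h4
  have L1 : (1000 : ℝ) ≤ G.L k := o.L1 k
  have eL : (G.wm m).L (k + (G.wm m).l k) = G.L k := congrArg LL go.2
  have nu := (o.sl_all k (G.top0 0 0)).nu
  have a1 : 20 * (G.Kt + 1) ≤ G.K0 := nu.exps.2.2.1
  have a2 : 10 ^ 9 * Nat.log 3 (LL (G.l k)) ^ 4 ≤ G.l k := nu.r_sq
  have a3 : 1 ≤ Nat.log 3 (LL (G.l k)) ^ 4 := nu.r1
  have a4 : S0 (G.l k) ≤ Nat.log 3 (LL (G.l k)) ^ 4 :=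
    Nat.pow_le_pow_right (Nat.pos_of_ne_zero fun e => by rw [e] at a3; omega) (by norm_num)
  have a5 : |γ (G.l k)| ≤ (G.L k : ℝ) ^ 2 := by
    have l0 : 0 < log (G.L k) := log_pos (by linarith)
    have := abs_sub_abs_le_abs_sub (γ (G.l k) / log (G.L k)) c
    rw [abs_div, abs_of_pos l0, sub_le_iff_le_add, div_le_iff₀ l0] at this
    rw [sq]
    exact this.trans (mul_le_mul (le_trans (add_comm |c| 1 ▸ add_le_add_left
      ((dist_eq _ _).symm.trans_lt h5).le _) h9) (log_le_self (by linarith)) l0.le (by linarith))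
  refine o.rf_at A go d ⟨d.symm, fun a b δ δ' ha hb => (cb a b δ δ' ha hb).trans ?_, ?_, d.real,
    go.2.symm ▸ h1⟩ h3 (a5.trans (o.LQ' k (by norm_num))) fun v hv => (a _ h2 v hv).imp
      fun E H d ε c1 => H (G.l k - 1) (by omega) d ε c1 (by unfold LL; omega)
  · have := ha.nonneg
    have := hb.nonneg
    rw [eL]
    gcongr
    exact h6
  · rw [eL]
    exact (tc.shr (inv_le_of_inv_le₀ ρ0 (h8.trans (le_self_pow₀ (n := G.K0) (one_le_two.trans
      (le_trans (by norm_num) L1)) (by omega))))).weak h7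

end Pool.Agent.Lib.MP_7f377f_mp.RG.Q4.En
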