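import Pool.Agent.Lib.MP_7f377f_mp.G.TyK

/-! The law of a typed tangent: definitions. -/

noncomputable section

set_option linter.unusedSectionVars false
variable [Pool.Agent.Lib.MP_7f377f_mp.GD]

namespace Pool.Agent.Lib.MP_7f377f_mp.RG.Q4.En

open Finset Real Ty

/-- approximate signed symmetry on flux fields -/
def Aty (n : ℕ) (x D : ℝ) (T : Ty) (H : Conf → ℝ) : Prop := ∀ ϑ, Fw n x ϑ → ∀ g ∈ T,
  |H (ab (an g.1 ϑ)) - H (ab 0) - sb g.2 * (H (ab ϑ) - H (ab 0))| ≤ D * tq n x ^ 2 * n ^ 4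

/-- `R` measures the entry `e` of the marginal part -/
structure Prb9 (n : ℕ) (x : ℝ) (e : Pl × Pl) (R : (Conf → ℝ) → ℝ) : Prop where
  lin : ∀ H H' (α : ℝ), R (fun U => H U - α * H' U) = R H - α * R H'
  app : ∀ H (k : BF) (c η : ℝ), (∀ a b, k a b = k b a) → (∀ F ϑ, As F → ‖F‖ ≤ 2 * tq n x →
    Fx n F ϑ → |H (ab ϑ) - c + n ^ 4 * k (pt F) (pt F)| ≤ η * tq n x ^ 2 * n ^ 4) →
      |R H - k (pt (EE e.1)) (pt (EE e.2))| ≤ 2 * η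

theorem prb_rsp {n : ℕ} {x : ℝ} (hn : n ≠ 0) (t0 : 0 < tq n x) (e : Pl × Pl) :
    Prb9 n x e (rsp n x e) :=
  ⟨fun _ _ _ => by simp only [rsp]; ring, fun _ _ _ _ hs H => (ty_def hn t0 hs H).1 e⟩

/-- the response to the flux through the plane `01` -/
theorem prb_gm {n : ℕ} {x : ℝ} (hn : n ≠ 0) (t0 : 0 < tq n x) : Prb9 n x ((0, 1), (0, 1))
    fun H => (H (ab 0) - H (ab (fl n x))) / (n ^ 4 * tq n x ^ 2) :=
  ⟨fun _ _ _ => by ring, fun _ _ _ _ hs H => (iso_def (D := 0) hn t0 hs H).1⟩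

namespace Gl

variable (G : Gl)

/-- the density of the state `z` at level `i`, moved in the direction `φ`, at level `k` -/
def wg (i : ℕ) (z : Z) (φ : Lx) (k : ℕ) (t : ℂ) : Conf → ℂ :=
  G.tt (Rep (G.p i) (G.N i) ((G.sl i z).Φ (z.ψ + t • φ)) z.K) i k

/-- the variation of its logarithm -/
def wl (i : ℕ) (z : Z) (φ : Lx) (k : ℕ) : Conf → ℝ := lg (G.wg i z φ k 0) (dF (G.wg i z φ k))

/-- a reference direction above the level `k`, with the anomalous term `γ` -/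
def Rf (T : Ty) (e : Pl × Pl) (R : ℕ → (Conf → ℝ) → ℝ) (γ b : ℝ) (J k : ℕ) : Prop :=
  ∀ i, i = k + G.l k → ∃ φ : Lx, G.Sz i (G.L i) 1 √(G.g i) φ 0 ∧ Re (G.p i) (G.N i) φ 0 ∧
    |(qc (φ 0) (pt (EE e.1)) (pt (EE e.2))).re - 1| ≤ (G.Q i ^ 200)⁻¹ ∧
    |R k (G.wl i (G.zz b J i) φ k) - R (k + 1) (G.wl i (G.zz b J i) φ (k + 1)) + γ * G.g k ^ 2| ≤
      G.g k ^ 2 / G.Q k ^ 80 ∧
    Aty (G.N (k + 1)) (G.fx (k + 1)) (G.Q k ^ 410 * G.g k ^ 2) T (G.wl i (G.zz b J i) φ (k + 1))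

end Gl

end Pool.Agent.Lib.MP_7f377f_mp.RG.Q4.En
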