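import Pool.Agent.Lib.MP_7f377f_mp.G.S21D1

/-! The law of a typed tangent: summation over the levels. -/

noncomputable section

set_option linter.unusedSectionVars false
variable [Pool.Agent.Lib.MP_7f377f_mp.GD]

namespace Pool.Agent.Lib.MP_7f377f_mp.RG.Q4.En

open Finset Real Sg Ty Filter Topology

theorem log_near {a b c ε : ℝ} (b0 : b ≠ 0) (h : |a - b * (1 - c)| ≤ |b| * ε) (h1 : |c| + ε ≤ 2⁻¹) :
    0 < a / b ∧ |log a - log b + c| ≤ ε + 2 * (|c| + ε) ^ 2 := by
  obtain ⟨u, rfl⟩ : ∃ u, a = b * (1 + u) := ⟨a / b - 1, by field_simp; ring⟩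
  rw [← mul_sub, abs_mul, show 1 + u - (1 - c) = u + c by ring] at h
  have a1 := le_of_mul_le_mul_left h (abs_pos.2 b0)
  have a2 : |u| ≤ |c| + ε := by
    have := abs_sub_abs_le_abs_sub u (-c)
    rw [sub_neg_eq_add, abs_neg] at this
    linarith
  have a3 := abs_le.1 (a2.trans h1)
  have p : 0 < 1 + u := by linarith
  rw [mul_div_cancel_left₀ _ b0, log_mul b0 p.ne', add_sub_cancel_left]
  have a4 := log_le_sub_one_of_pos p
  have a5 : u - 2 * u ^ 2 ≤ 1 - (1 + u)⁻¹ := by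
    rw [le_sub_comm, inv_le_iff_one_le_mul₀ p]
    nlinarith [mul_nonneg (sq_nonneg u) (show 0 ≤ 1 + 2 * u by linarith)]
  have a6 := one_sub_inv_le_log_of_pos p
  have a7 := (sq_abs u).ge.trans (pow_le_pow_left₀ (abs_nonneg u) a2 2)
  rw [abs_le] at a1 ⊢
  exact ⟨p, by linarith, by nlinarith [sq_nonneg (|c| + ε)]⟩

namespace Gl.Ok

variable {G : Gl} (h : G.Ok) {b x y : ℝ} {J k : ℕ} {d : Lx × Ac} {f' : Conf → ℂ} {T : Ty} {e : Pl × Pl}
  {R : ℕ → (Conf → ℝ) → ℝ} {γ : ℕ → ℝ}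
include h

/-- the sum of the anomalous terms -/
theorem sum_law {c : ℝ} (hγ : Tendsto (fun k => γ k / log (G.L k)) atTop (𝓝 c)) (k1 : ℕ) :
    Tendsto (fun k => (∑ j ∈ Ico k1 k, γ j * G.g j ^ 2) / log (G.bb k)) atTop
      (𝓝 (c / (11 * GD.b0 / (48 * π ^ 2)))) := by
  have c0 : 0 < 11 * GD.b0 / (48 * π ^ 2) := by have := GD.b0_pos; positivity
  have lim := h.sch.lim
  generalize 11 * GD.b0 / (48 * π ^ 2) = c1 at *
  obtain ⟨E, hE⟩ : ∃ E : ℕ → ℝ, ∀ k, E k = log ((3 : ℝ) ^ G.e k) := ⟨_, fun _ => rfl⟩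
  simp only [← hE] at lim
  have l3 : 1 ≤ log 3 := by
    rw [le_log_iff_exp_le (by norm_num)]; linarith [exp_one_lt_d9]
  have E1 : ∀ k, G.bb k ≤ E k := fun k => by
    rw [hE, log_pow]
    exact (h.sch.cmp k).2.trans (le_mul_of_one_le_right (Nat.cast_nonneg _) l3)
  have E0 : ∀ k, 0 < E k := fun k => (h.b0 k).trans_le (E1 k)
  have L0 : ∀ k, 0 < log (G.L k) := fun k => log_pos (by linarith [h.L1 k])
  obtain ⟨t, ht⟩ : ∃ t : ℕ → ℝ, ∀ k, t k = log (G.L k) / E k := ⟨_, fun _ => rfl⟩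
  have t0 : ∀ k, 0 < t k := fun k => ht k ▸ div_pos (L0 k) (E0 k)
  have t1 : Tendsto t atTop (𝓝 0) := squeeze_zero (fun k => (t0 k).le) (fun k => by
    have := h.Q0 k
    rw [ht, Pi.inv_apply, div_le_iff₀ (E0 k), le_inv_mul_iff₀ this]
    refine le_trans ?_ (E1 k)
    nlinarith [h.Qbb k (i := 2) (by norm_num), h.LQ k, log_le_self (Nat.cast_nonneg (G.L k))])
    h.Q_top.inv_tendsto_atTop
  have s : ∀ k, log (E (k + 1)) - log (E k) = log (1 + t k) := fun k => by
    rw [← log_div (E0 _).ne' (E0 _).ne', ht, one_add_div (E0 k).ne', hE (k + 1), h.e_succ,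
      log_mul (by linarith [h.L1 k]) (by positivity), ← hE, add_comm]
  have s0 : ∀ k, 0 < log (1 + t k) := fun k => log_pos (by linarith [t0 k])
  have s1 : Tendsto (fun k => t k / log (1 + t k)) atTop (𝓝 1) :=
    tendsto_of_tendsto_of_tendsto_of_le_of_le tendsto_const_nhds (by simpa using t1.const_add 1)
      (fun k => by
        rw [le_div_iff₀ (s0 k)]; linarith [log_le_sub_one_of_pos (show 0 < 1 + t k by linarith [t0 k])])
      fun k => by
        have p : 0 < 1 + t k := by linarith [t0 k]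
        have := mul_le_mul_of_nonneg_left (one_sub_inv_le_log_of_pos p) p.le
        rw [mul_sub, mul_inv_cancel₀ p.ne'] at this
        rw [div_le_iff₀ (s0 k)]
        linarith
  have s2 : Tendsto (fun k => (γ k * G.g k ^ 2 - c / c1 * log (1 + t k)) / log (1 + t k)) atTop
      (𝓝 0) := by
    have := ((hγ.div lim c0.ne').mul s1).sub_const (c / c1)
    rw [mul_one, sub_self] at this
    refine this.congr fun k => ?_
    have := (s0 k).ne'
    have := (L0 k).ne'
    have := (E0 k).ne'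
    have := (h.b0 k).ne'
    rw [eq_inv_of_mul_eq_one_right (h.bg k), Pi.div_apply]
    nth_rw 1 [ht]
    field_simp
  have tel : ∀ k, ∑ j ∈ range k, log (1 + t j) = log (E k) - log (E 0) := fun k => by
    simp only [← s]; exact sum_range_sub (fun j => log (E j)) k
  have bt := tendsto_log_atTop.comp h.b_top
  have s3 := (((Asymptotics.isLittleO_iff_tendsto fun k a => absurd a (s0 k).ne').2 s2).sum_range
    (fun k => (s0 k).le) (by
      simp only [tel]
      exact tendsto_atTop_add_const_right _ _ (tendsto_log_atTop.comp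
        (tendsto_atTop_mono E1 h.b_top)))).tendsto_div_nhds_zero
  simp only [sum_sub_distrib, ← mul_sum, tel] at s3
  have s4 : Tendsto (fun k => (log (E k) - log (E 0)) / log (G.bb k)) atTop (𝓝 1) := by
    have := (((lim.log c0.ne').add_const (log (E 0))).div_atTop bt).const_sub 1
    rw [sub_zero] at this
    refine this.congr' ((bt.eventually_gt_atTop 0).mono fun k a => ?_)
    have a' : log (G.bb k) ≠ 0 := a.ne'
    simp only [Function.comp, log_div (h.b0 k).ne' (E0 k).ne']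
    field_simp
    ring
  have := ((s3.add_const (c / c1)).mul s4).sub
    ((tendsto_const_nhds (x := ∑ j ∈ range k1, γ j * G.g j ^ 2)).div_atTop bt)
  rw [zero_add, mul_one, sub_zero] at this
  refine this.congr' ?_
  filter_upwards [eventually_ge_atTop k1, s4.eventually_ne one_ne_zero] with k a1 a2
  have := left_ne_zero_of_mul a2
  rw [sum_Ico_eq_sub _ a1, Function.comp]
  field_simp
  ring

variable (A : G.Tu b J) (hR : G.Pb9 e R) (hp : G.Pu) (hD : Det T [e])
  (a : G.Tr b J J x y d f') (mf : BC f') (s : Sgn (G.N J) T f') (h0 : 0 < x + y)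
  (h1 : x + y ≤ G.Q J * |(qc (d.1 0) (pt (EE e.1)) (pt (EE e.2))).re|)
  (h2 : y ≤ 5 * |(qc (d.1 0) (pt (EE e.1)) (pt (EE e.2))).re|)
include A hR hp hD a mf s h0 h1 h2

/-- the marginal part dominates and changes slowly -/
theorem ty_inv {r : ℕ → ℝ} (hr : ∀ j, r j = G.ry R b J j (G.tt f' J j)) : ∀ j ≤ J,
    (r j ≠ 0 ∧ G.Tr b J j (1000 * |r j|) (10 * |r j|) (G.tc b J J d j) (G.tt f' J j)) ∧
      (j < J → |r j - r (j + 1) * (1 - 0)| ≤ |r (j + 1)| * (G.Q j ^ 490)⁻¹) := by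
  have ty := fun j (hj : j ≤ J) => h.aty_tt (x := G.fx j) A mf.1 s hj
  refine dw_ind ⟨?_, fun c => absurd c (lt_irrefl _)⟩ fun j hj ih => ?_
  · have t := ty J le_rfl
    rw [hr, tc_top]
    rw [tt_top] at t ⊢
    have a1 := (h.ty_fd A le_rfl a).1 _ R hR
    have a3 := h.ty_nb A hR hD le_rfl a le_rfl t
    have a4 := (abs_sub_abs_le_abs_sub _ _).trans ((abs_sub_comm _ _).trans_le a1)
    have a5 := mul_le_mul_of_nonneg_left h1 (h.ep0 J)
    have a6 := (mul_pos_iff_of_pos_left (h.Q0 J)).1 (h0.trans_le h1)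
    generalize |(qc (d.1 0) (pt (EE e.1)) (pt (EE e.2))).re| = q at *
    have a7 := mul_le_mul_of_nonneg_right (h.ep_le J (i := 1) (by norm_num)) a6.le
    exact ⟨abs_pos.1 (by linarith), h.tn_mono (h.tn_nb a) (sqrt_nonneg _) (by linarith) (by linarith)⟩
  obtain ⟨⟨r0, a1⟩, -⟩ := ih
  have p := abs_pos.2 r0
  have Q0 := h.Q0 j
  have b1 := h.ty_gm A hR hp hj a1 (by positivity)
  have b2 := (h.tr_step A hp hj a1 (by positivity)).1
  rw [← tt_step _ hj, ← hr, ← hr] at b1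
  rw [← tt_step _ hj, ← tc_step _ hj] at b2
  have b3 : |r j - r (j + 1)| ≤ |r (j + 1)| * (G.Q j ^ 490)⁻¹ := b1.trans (by
    rw [← div_eq_mul_inv, div_le_div_iff₀ (by positivity) (by positivity)]
    nlinarith only [mul_le_mul_of_nonneg_right (h.qpw j (show 490 < 491 by norm_num)) p.le,
      mul_le_mul_of_nonneg_right (h.qpw j (show 491 < 498 by norm_num)) p.le,
      mul_pos (pow_pos Q0 490) p])
  have b4 : |r (j + 1)| ≤ 2 * |r j| := by
    linarith [abs_sub_abs_le_abs_sub (r (j + 1)) (r j), abs_sub_comm (r (j + 1)) (r j),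
      mul_le_mul_of_nonneg_left (h.inv_c j (j := 490) (by norm_num)) p.le]
  have b5 := h.ty_nb A hR hD hj.le b2 le_rfl (ty j hj.le)
  rw [← hr] at b5
  have c1 := mul_le_mul_of_nonneg_right (h.cr1 j) p.le
  refine ⟨⟨abs_pos.1 (by linarith), h.tn_mono (h.tn_nb b2) (sqrt_nonneg _) (b5.trans ?_)
    (by linarith)⟩, fun _ => by simpa using b3⟩
  have c2 := mul_le_mul_of_nonneg_right (h.ep_le j (i := 1) (by norm_num)) p.le
  have c3 := mul_le_mul_of_nonneg_right (h.cQ j (C := 10 ^ 6) (by norm_num))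
    (mul_nonneg (h.ep0 j) p.le)
  have c4 := mul_le_mul_of_nonneg_right (h.sg_ep j) p.le
  have c5 := mul_le_mul_of_nonneg_left (show 1000 * |r (j + 1)| + G.Q j ^ 50 * √(G.g (j + 1)) *
    (1000 * |r (j + 1)| + 10 * |r (j + 1)|) + G.cr j * (1000 * |r (j + 1)| + 10 * |r (j + 1)|) ≤
      2000 * |r (j + 1)| by linarith [mul_nonneg (h.ep0 j) p.le]) (h.ep0 j)
  linarith [mul_nonneg (h.ep0 j) p.le]

/-- from the sharp probe to the response -/
theorem ty_fin {r u : ℕ → ℝ} {S c : ℝ} (hr : ∀ j, r j = G.rs b J j e (G.tt f' J j))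
    (hu : ∀ j, u j = G.ry R b J j (G.tt f' J j)) (hk : k ≤ J) (a1 : 0 < u 0 / u k)
    (a2 : |log (u 0) - log (u k) + S| ≤ c) : r k ≠ 0 ∧ 0 < r 0 / r k ∧
      G.Tx b J k (2000 * |r k|) (20 * |r k|) (G.tc b J J d k) (G.tt f' J k) ∧
      |log (r 0 / r k) + S| ≤ c + 2⁻¹ := by
  have I := h.ty_inv A hR hp hD a mf s h0 h1 h2 hu
  have c0 : ∀ j ≤ J, |r j - u j * (1 - 0)| ≤ |u j| * 10⁻¹ := fun j hj => by
    obtain ⟨⟨r0, b1⟩, -⟩ := I j hj
    have p := abs_pos.2 r0
    have b2 := (h.ty_fd A hj b1).1 _ R hR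
    have b3 := (h.tw_fd A hj (h.tw_of b1)).1 e
    rw [← hu] at b2
    rw [← hr] at b3
    rw [sub_zero, mul_one]
    rw [abs_le] at b2 b3 ⊢
    constructor <;> linarith [mul_le_mul_of_nonneg_right
      (h.ep_le j (i := 0) (by norm_num)) p.le, mul_le_mul_of_nonneg_right
      (h.inv_c j (j := 250) (by norm_num)) p.le]
  have c' := fun j hj => log_near (I j hj).1.1 (c0 j hj) (by norm_num)
  obtain ⟨b1, b2⟩ := c' 0 (Nat.zero_le _)
  obtain ⟨b3, b4⟩ := c' k hk
  have n0 := left_ne_zero_of_mul b1.ne'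
  have nk := left_ne_zero_of_mul b3.ne'
  have b5 : |u k| ≤ 2 * |r k| := by
    have := c0 k hk
    rw [sub_zero, mul_one, abs_sub_comm] at this
    linarith [abs_sub_abs_le_abs_sub (u k) (r k), abs_nonneg (r k)]
  refine ⟨nk, ?_, h.tn_mono (h.tw_of (I k hk).1.2) (h.om0 k).le (by linarith) (by linarith), ?_⟩
  · have := div_pos (mul_pos b1 a1) b3
    rwa [div_mul_div_cancel₀ (I 0 (Nat.zero_le _)).1.1, div_div_div_cancel_right₀ (I k hk).1.1] at this
  · rw [log_div n0 nk]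
    rw [abs_zero, abs_le] at b2 b4
    rw [abs_le] at a2 ⊢
    constructor <;> linarith

variable {k1 : ℕ} (H : ∀ k, k1 ≤ k → |γ k| ≤ G.Q k ∧ (G.Go J k → G.Rf T e R (γ k) b J k))
include H

theorem ty_law {r : ℕ → ℝ} (hr : ∀ j, r j = G.ry R b J j (G.tt f' J j)) (hk : k ≤ J) :
    0 < r 0 / r k ∧
      |log (r 0) - log (r k) + ∑ j ∈ Ico k1 k, γ j * G.g j ^ 2| ≤ k1 + 2⁻¹ := by
  have I := h.ty_inv A hR hp hD a mf s h0 h1 h2 hr
  have q := fun j => h.inv_c j (j := 490) (by norm_num)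
  have q0 := fun j => inv_pos.2 (pow_pos (h.Q0 j) 490)
  have c : ∀ j < J, 0 < r j / r (j + 1) ∧ |log (r j) - log (r (j + 1))| ≤ 2 * (G.Q j ^ 490)⁻¹ :=
    fun j hj => by
      have := log_near (I _ hj).1.1 ((I j hj.le).2 hj) (by rw [abs_zero]; linarith [q j])
      rw [abs_zero, add_zero, zero_add] at this
      exact ⟨this.1, this.2.trans (by nlinarith [q j, q0 j])⟩
  refine ⟨?_, ?_⟩
  · induction k with
    | zero => rw [div_self (I 0 hk).1.1]; exact one_pos
    | succ k ih =>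
      have := mul_pos (ih (by omega)) (c k hk).1
      rwa [div_mul_div_cancel₀ (I k (by omega)).1.1] at this
  have w : ∀ j ∈ Ico k1 J, |γ j * G.g j ^ 2| ≤ G.Q j * G.g j ^ 2 := fun j hj => by
    rw [abs_mul, abs_sq]
    exact mul_le_mul_of_nonneg_right (H j (mem_Ico.1 hj).1).1 (sq_nonneg _)
  have w' : ∀ j, G.Q j * G.g j ^ 2 ≤ (G.Q j ^ 490)⁻¹ := fun j => by
    have := h.Q0 j
    rw [inv_eq_one_div, le_div_iff₀ (by positivity), ← h.bg j, mul_right_comm, ← pow_succ']
    gcongr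
    linarith [h.Qbb j (i := 490 + 1) (by norm_num), pow_pos this (490 + 1)]
  have t := h.tail (k := k1) (J := J) (i := 77)
    (f := fun j => |log (r j) - log (r (j + 1)) + γ j * G.g j ^ 2|) (fun j hj => by
      refine (abs_add_le _ _).trans ?_
      rw [one_div]
      linarith [(c j (mem_Ico.1 hj).2).2, w j hj, w' j, h.inv_le j (show 77 + 1 < 490 by norm_num),
        q0 j]) fun j hj bad => by
      obtain ⟨j1, j2⟩ := mem_Ico.1 hj
      simp only [Bad, not_or, not_le, not_not] at bad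
      have go : G.Go J j := ⟨bad.2.1, bad.2.2⟩
      obtain ⟨i, hi⟩ : ∃ i, i = j + G.l j := ⟨_, rfl⟩
      have iJ : i ≤ J := hi ▸ go.1.le
      have i1 : j + 1 + 40 * (4 * G.Bk j + 1) ≤ i := by
        have n := (h.sd_all j (G.top0 0 0)).nu.l_big
        change _ * (_ + _ + _ + 4 * G.Bk j + 1) ≤ G.l j at n
        omega
      have ji : j + 1 ≤ i := by omega
      have Q0 := h.Q0 j
      have p := abs_pos.2 (I _ j2).1.1
      have c2 := (dist_le_Ico_sum_dist (fun m => log (r m)) ji).trans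
        (sum_le_card_nsmul _ _ (2 * (G.Q j ^ 490)⁻¹) fun m hm => by
          obtain ⟨m1, m2⟩ := mem_Ico.1 hm
          refine (c m (by omega)).2.trans ?_
          gcongr
          exact h.Q_mono (by omega))
      have c4 : ((Ico (j + 1) i).card : ℝ) ≤ G.Q j := le_trans (by
        rw [Nat.card_Ico]; exact_mod_cast (by unfold L LL; omega)) (h.LQ j)
      rw [nsmul_eq_mul, dist_eq] at c2
      have c5 := c2.trans (mul_le_mul_of_nonneg_right c4 (by positivity))
      rw [show G.Q j * (2 * (G.Q j ^ 490)⁻¹) = 2 * (G.Q j ^ 489)⁻¹ by field_simp] at c5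
      have c6 : |r i| ≤ 2 * |r (j + 1)| := by
        rw [← log_le_log_iff (abs_pos.2 (I i iJ).1.1) (by positivity), log_mul two_ne_zero p.ne',
          log_abs, log_abs]
        linarith [(abs_le.1 c5).1, log_two_gt_d9, h.inv_c j (j := 489) (by norm_num)]
      obtain ⟨v, v', m1, m2, m3, m4, m5⟩ := h.ty_dir A hR hp go hi ((H j j1).2 go)
      have c7 := h.ty_good A hR hp hD i1 (by omega) iJ m1 m2 m3 m4 ((H j j1).1.trans
        (le_self_pow₀ (h.Q1 j) (by norm_num))) m5 (tt_bc mf iJ) (h.sgn_tt mf.1 s iJ) (I i iJ).1.2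
        (mul_pos (by norm_num) (abs_pos.2 (I i iJ).1.1)) (by
          rw [tt_tt iJ _ ji, ← hr]
          linarith [mul_le_mul_of_nonneg_right ((h.cQ j (C := 20) (by norm_num)).trans
            (le_self_pow₀ (h.Q1 j) (show 400 ≠ 0 by norm_num))) p.le])
      rw [tt_tt iJ _ ji, tt_tt iJ j (by omega), ← hr, ← hr, mul_comm _ (r _), mul_comm _ |r _|,
        div_eq_mul_inv (γ j), ← eq_inv_of_mul_eq_one_right (h.bg j)] at c7
      have g0 := h.g0 j
      have d1 : G.g j ^ 2 / G.Q j ^ 79 ≤ G.Q j * G.g j ^ 2 :=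
        (div_le_self (by positivity) (one_le_pow₀ (h.Q1 j))).trans
          (le_mul_of_one_le_left (by positivity) (h.Q1 j))
      have d2 : |γ j * G.g j ^ 2| + G.g j ^ 2 / G.Q j ^ 79 ≤ 2 * (G.Q j * G.g j ^ 2) := by
        linarith [w j hj]
      refine (log_near (I _ j2).1.1 c7 (by linarith [w' j, q j])).2.trans ?_
      have d3 := pow_le_pow_left₀ (by positivity) d2 2
      have d4 := mul_le_mul_of_nonneg_right (w' j) (show 0 ≤ G.Q j * G.g j ^ 2 by positivity)
      rw [show (G.Q j ^ 490)⁻¹ * (G.Q j * G.g j ^ 2) = G.g j ^ 2 * (G.Q j ^ 489)⁻¹ by field_simp] at d4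
      simp only [div_eq_mul_inv] at *
      nlinarith only [d3, d4, mul_le_mul_of_nonneg_left (h.inv_le j (show 77 + 1 < 79 by norm_num))
        (sq_nonneg (G.g j)), mul_le_mul_of_nonneg_left (h.inv_le j (show 79 < 489 by norm_num))
        (sq_nonneg (G.g j)), show 0 ≤ G.g j ^ 2 * (G.Q j ^ 489)⁻¹ by positivity]
  have t2 : 82 / G.L k1 / G.Q k1 ^ 77 ≤ 2⁻¹ :=
    (div_le_self (by positivity) (one_le_pow₀ (h.Q1 _))).trans (by
      rw [div_le_iff₀] <;> linarith [h.L1 k1])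
  have low : ∀ m ≤ J, |log (r 0) - log (r m)| ≤ m := fun m hm => by
    have := (dist_le_range_sum_dist (fun m => log (r m)) m).trans (sum_le_card_nsmul _ _ 1
      fun j hj => (c j ((mem_range.1 hj).trans_le hm)).2.trans (by linarith [q j]))
    simpa [dist_eq] using this
  rcases le_total k k1 with e1 | e1
  · rw [Ico_eq_empty_of_le e1, sum_empty, add_zero]
    linarith [low k hk, Nat.cast_le (α := ℝ).2 e1]
  · have t3 := ((abs_sum_le_sum_abs _ _).trans (sum_le_sum_of_subset_of_nonneg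
      (Ico_subset_Ico_right hk) fun _ _ _ => abs_nonneg _)).trans (t.trans t2)
    rw [sum_add_distrib, sum_Ico_eq_sub _ e1, sum_range_sub', sum_range_sub'] at t3
    have := abs_le.1 (low k1 (e1.trans hk))
    rw [abs_le] at t3 ⊢
    constructor <;> linarith

end Gl.Ok

end Pool.Agent.Lib.MP_7f377f_mp.RG.Q4.En
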