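import Pool.Agent.Lib.MP_7f377f_mp.G.TyH

/-! The anomalous dimensions: definitions. -/

noncomputable section

set_option linter.unusedSectionVars false
variable [Pool.Agent.Lib.MP_7f377f_mp.GD]

namespace Pool.Agent.Lib.MP_7f377f_mp.RG.Q4.En.Gl

open Finset Real Sg Br YM7 Filter Topology Ob Pos Pur Ty
open Weak (Site corner)

/-- a direction of type `T` at level `l` whose response changes by the factor `ρ` down to level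
zero -/
structure Rfd (G : Gl) (T : Ty) (x : Pl × Pl) (b : ℝ) (J l : ℕ) (ρ : ℝ) (d : Lx × Ac)
    (f : Conf → ℂ) : Prop where
  tx : G.Tx b J l (2000 * |G.rs b J l x f|) (20 * |G.rs b J l x f|) d f
  bc : BC f
  sgn : Sgn (G.N l) T f
  ne : G.rs b J l x f ≠ 0
  eq : G.rs b J 0 x (G.tt f l 0) = ρ * G.rs b J l x f

/-- the law of the typed tangent with exponent `γ` -/
def Ref (G : Gl) (T : Ty) (x : Pl × Pl) (γ : ℝ) : Prop := ∀ ε > 0, ∀ᶠ l in atTop, ∀ m b J,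
  (G.wm m).Tu b J → l ≤ J → ∃ ρ d f, 0 < ρ ∧ |log ρ + γ * log (G.bb l)| ≤ ε * log (G.bb l) ∧
    (G.wm m).Rfd T x b J l ρ d f

variable (G : Gl) (b : ℝ) (J k l : ℕ) [NeZero (G.N J)] (n' : ℕ) [NeZero n'] (P : Grd)

/-- words which contract between the levels `k` and `l` -/
def Dq2 {α κ : Type} [Fintype α] [Fintype κ] [DecidableEq κ] [Inhabited κ] (c : ℕ) (C : ℝ)
    (Λ : Lwd (G.N J) α κ) (μ ν : ℝ) : Prop :=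
  ∃ N, G.Nw J k P c C Λ N ∧ ν = 0 ∧ |μ| * G.cP (l + 1) k * N * G.Q k ^ 7 ≤ 1 ∧
    ∀ m, l ≤ m → m ≤ k → G.Sz m (G.cP m k * N) (G.cP m k * N) (G.Q m ^ 280)⁻¹
      (G.tc b J k (0, G.Kw b J k n' P Λ 1) m).1 (G.tc b J k (0, G.Kw b J k n' P Λ 1) m).2

variable (κ : Type) [Fintype κ] [DecidableEq κ] [Inhabited κ] (a : ℝ) (c : ℕ) (C : ℝ)

def Ds2 (B : Cfg (G.N J) → ℝ) (ν : ℝ) : Prop := ∀ L : List (Fin 4),
  ∃ (α : Type) (_ : Fintype α) (Λ : Lwd (G.N J) α κ) (μ : ℝ), G.Wk b J k P a C Λ ∧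
    G.Dq2 b J k l n' P c C Λ μ ν ∧ ∀ U, B (L.foldr Weak.refl U) = μ * Λ.ob (Fi.tr haar) b U

def Lcl2 {κ' : Type} (lam μ D : ℕ) (a' : ℝ) (O : κ' → Cfg (G.N J) → ℝ) : Prop :=
  ∃ (B : κ' → Cfg (G.N J) → ℝ) (ν : κ' → ℝ) (φ : κ' → Site 4 (G.N J) → ℝ), Pc lam μ D a' φ ∧
    ∀ i, G.Ds2 b J k l n' P κ a c C (B i) (ν i) ∧ O i = ltr n' P.s (B i) 1 (ν i) (φ i)

def Slt2 (w : Wp) (d : ℝ) (e : ℕ) (β : ℕ × ℕ → ℝ) (U : Filter (ℕ × ℕ)) (A : Pol) (ν η : ℝ) : Prop :=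
  0 < η ∧ ∃ (A' : ℕ × ℕ → Pol) (ν' : ℕ × ℕ → ℝ),
  Ob.Cv U (Pur.Bx (2 * w.Λ * d)) A' A ∧ (∀ p, Rc (A' p)) ∧ Tendsto ν' U (𝓝 ν) ∧ ∀ᶠ p in U, ∀ P,
    G.Mp k w d e p (β p) P → (G.wm p.1).Ds2 (β p) p.2 k l (nq p.1 e) P (Fin (w.M + 1))
      (G.aa p / (2 * d)) w.c w.C (fun V => η⁻¹ * evr (Fi.tr haar) (β p) _ (G.aa p) (A' p) V)
      (η⁻¹ * ν' p)

end Pool.Agent.Lib.MP_7f377f_mp.RG.Q4.En.Gl
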