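import Pool.Agent.Lib.MP_7f377f_mp.G.S21D2
import Pool.Agent.Lib.MP_7f377f_mp.G.S21E0
import Pool.Agent.Lib.MP_7f377f_mp.G.CaKT
import Pool.Agent.Lib.MP_7f377f_mp.G.CaKT2
import Pool.Agent.Lib.MP_7f377f_mp.G.S21Spec

/-! The law of a typed tangent: letters at the top. -/

noncomputable section

set_option linter.unusedSectionVars false

namespace Pool.Agent.Lib.MP_7f377f_mp.RG

open Finset Real Filter Topology Q4.En.Ty

namespace Wd

/-- an entry of the symbol -/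
def en (p q : Pl) : Let →ₗ[ℂ] ℂ where
  toFun X := sig X (A1 p.1 p.2) (A1 q.1 q.2)
  map_add' _ _ := by simp
  map_smul' _ _ := by simp

theorem en_apply (p q : Pl) (X : Let) : en p q X = sig X (A1 p.1 p.2) (A1 q.1 q.2) := rfl

theorem en_im {X : Let} (h : X ∈ Rl) (p q : Pl) : (en p q X).im = 0 := by
  simp [en_apply, sig, Finsupp.linearCombination_apply, Finsupp.sum, LinearMap.sum_apply,
    Bl.sig_apply, h _]

variable [Pool.Agent.Lib.MP_7f377f_mp.GD]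

theorem en_act (g : Gn) (p q : Pl) (X : Let) :
    en p q (act (gn g) X) = sn g p * sn g q * en (mv g p) (mv g q) X := by
  cases g with
  | inl σ => simp [en_apply, gn, sig_pe, sn, mv]
  | inr j =>
    simp only [en_apply, gn, Sum.elim_inr, sig_act, rf_A, sn, mv, ep, map_smul, LinearMap.smul_apply,
      Complex.real_smul, Complex.ofReal_intCast]
    ring

/-- typed letters from typed functionals -/
theorem ex_tl {T : Ty} {φ : Let →ₗ[ℂ] ℂ} (hφ : ∀ g ∈ T, ∀ X, φ (act (gn g.1) X) = sb g.2 * φ X)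
    (re : ∀ X ∈ Rl, (φ X).im = 0) {X : Let} (hX : X ∈ Rl) (h0 : φ X ≠ 0) :
    ∃ Y ∈ Rl, Tl T Y ∧ φ Y ≠ 0 := by
  refine ⟨∑ g, φ (act g X) • act g X, Rl.sum_mem fun g _ => rl_smul (re _ (rl_act g hX))
    (rl_act g hX), fun g hg => ?_, fun e => h0 ?_⟩
  · rw [map_sum, smul_sum]
    refine Fintype.sum_equiv (Equiv.mulLeft (gn g.1)) _ _ fun k => ?_
    rw [Equiv.coe_mulLeft, act_mul, hφ g hg, map_smul, smul_smul, ← mul_assoc, ← Int.cast_mul, sb_sq,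
      Int.cast_one, one_mul]
  · have := congrArg Complex.re e
    simp only [map_sum, map_smul, smul_eq_mul, Complex.re_sum, Complex.mul_re,
      re _ (rl_act _ hX), mul_zero, sub_zero, Complex.zero_re] at this
    have := (sum_eq_zero_iff_of_nonneg fun _ _ => mul_self_nonneg _).1 this 1 (mem_univ _)
    rw [act_one, mul_self_eq_zero] at this
    exact Complex.ext this (re X hX)

theorem en_nm (a b c d : Fin 4) (X : Let) : (b < a → en (a, b) (c, d) X = -en (b, a) (c, d) X) ∧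
    (d < c → en (a, b) (c, d) X = -en (a, b) (d, c) X) ∧
    (c < a → en (a, b) (c, d) X = en (c, d) (a, b) X) :=
  ⟨fun _ => (gk_sig X).anti .., fun _ => (gk_sig X).anti' .., fun _ => sig_symm ..⟩

theorem Tl.en {T : Ty} {Y : Let} (h : Tl T Y) {g : Gn × Bool} (hg : g ∈ T) (p q : Pl) :
    sb g.2 * en p q Y = sn g.1 p * sn g.1 q * en (mv g.1 p) (mv g.1 q) Y := by
  rw [← en_act, h g hg, map_smul, smul_eq_mul]

theorem ex_w : ∃ Y ∈ Rl, Tl T2 Y ∧ en (0, 2) (0, 2) Y ≠ 0 := by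
  obtain ⟨Y, a, b, c⟩ := ex_tl (T := T2)
    (φ := en (0, 2) (0, 2) + en (1, 3) (1, 3) - en (0, 3) (0, 3) - en (1, 2) (1, 2))
    (by
      simp only [LinearMap.add_apply, LinearMap.sub_apply, en_act, T2, Q4.En.Ty.rf, sw, List.cons_append,
        List.nil_append, List.forall_mem_cons]
      simp [sn, sb, mv, Equiv.swap_apply_def, en_nm]
      constructor <;> intro <;> ring)
    (fun X h => by simp [en_im h]) (rl_Vg (.inl (0, 2, 0, 2)))
    (by simp [en_apply, Vg, sig_lt, fx_pq, dd_A, de])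
  refine ⟨Y, a, b, fun e => c ?_⟩
  have a1 := b.en (g := sw 0 1 true) (by simp [T2]) (0, 2) (0, 2)
  have a2 := b.en (g := sw 2 3 true) (by simp [T2]) (0, 2) (0, 2)
  have a3 := b.en (g := sw 2 3 true) (by simp [T2]) (1, 2) (1, 2)
  simp [sw, sn, sb, mv, Equiv.swap_apply_def] at a1 a2 a3 ⊢
  linear_combination 4 * e + 2 * a1 + a2 - a3

theorem ex_q : ∃ Y ∈ Rl, Tl T1' Y ∧ en (0, 1) (2, 3) Y ≠ 0 := by
  obtain ⟨Y, a, b, c⟩ := ex_tl (T := T1')
    (φ := en (0, 1) (2, 3) - en (0, 2) (1, 3) + en (0, 3) (1, 2))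
    (by
      simp only [LinearMap.add_apply, LinearMap.sub_apply, en_act, T1', Q4.En.Ty.rf, sa, sw,
        List.cons_append, List.nil_append, List.forall_mem_cons]
      simp [sn, sb, mv, Equiv.swap_apply_def, en_nm]
      (repeat' apply And.intro) <;> intro <;> ring)
    (fun X h => by simp [en_im h]) (rl_Vg (.inl (0, 1, 2, 3)))
    (by simp [en_apply, Vg, sig_lt, fx_pq, dd_A, de])
  refine ⟨Y, a, b, fun e => c ?_⟩
  have a1 := b.en (g := sw 1 2 true) (by simp [T1', sa]) (0, 1) (2, 3)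
  have a2 := b.en (g := sw 1 3 true) (by simp [T1', sa]) (0, 1) (2, 3)
  simp [sw, sn, sb, mv, Equiv.swap_apply_def, en_nm] at a1 a2 ⊢
  linear_combination 3 * e + a1 - a2

theorem Tl.t2s {Y : Let} (h : Tl T2 Y) : Tl T2s (act (pe (.swap 1 2)) Y) := fun g hg => by
  have : ∀ g ∈ T2s, ∃ g' ∈ T2, g'.2 = g.2 ∧ ∀ i, (gn g.1 * pe (.swap 1 2)).1 (i, true) =
      (pe (.swap 1 2) * gn g'.1).1 (i, true) := by decide +kernel
  obtain ⟨g', a, b, c⟩ := this g hg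
  rw [← act_mul, B4_ext c, act_mul, h g' a, b, map_smul]

theorem act_pe1 (Y : Let) : act (pe 1) Y = Y := act_one Y

end Wd

variable [Pool.Agent.Lib.MP_7f377f_mp.GD]

namespace Q4.En

open Sg Wd

theorem Prb9.cf {n : ℕ} {x : ℝ} {e : Pl × Pl} {R : (Conf → ℝ) → ℝ} (p : Prb9 n x e R)
    (σ : Equiv.Perm (Fin 4)) :
    Prb9 n x (mv (.inl σ) e.1, mv (.inl σ) e.2) fun H => R fun U => H (cf (.inl σ) U) := by
  refine ⟨fun _ _ _ => p.lin .., fun H k c η hs a => ?_⟩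
  generalize hg : (.inl σ : Gn) = g at *
  let L : V →ₗ[ℝ] V := ⟨⟨fun a => pt (Ty.mt g (dd a 0)), fun a b => by
    rw [← map_add, ← mt_add]; congr 2; ext; simp [dd]; ring⟩, fun c a => by
    rw [RingHom.id_apply, ← map_smul, ← mt_smul,
      ← show dd (c • a) 0 = c • dd a 0 by ext; simp [dd]; ring]⟩
  have l : ∀ F, As F → L (pt F) = pt (Ty.mt g F) := fun F hF => congrArg (pt <| Ty.mt g ·) (dd_pt hF 0)
  have := p.app (fun U => H (Ty.cf g U)) (k.compl₁₂ L L) c η (fun _ _ => hs _ _)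
    fun F ϑ hF h1 h2 => by
      have := a _ _ (as_mt hF g) ((norm_mt g).trans h1) (fx_an h2 g)
      rwa [ab_an, ← l F hF] at this
  simpa [l _ (as_EE _), mt_EE, ← hg, sn] using this

namespace Gl

/-- letters at the top in the sharp class -/
theorem tr_let {X : Let} {d : ℕ} (hX : Rad d X) (hr : Wd.Re X) : ∃ C > 0, ∀ (G : Gl) (b : ℝ) (I : ℕ),
    G.Ok → G.Tu b I → d ≤ (G.p I).R → C ≤ G.Q I →
      G.Tr b I I C (C / G.Q I) (G.lt b I X 1) fun U => -sm (G.N I) X 1 U * G.f b I I U := by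
  obtain ⟨ρ0, r0, h1⟩ := lx_ps hX
  obtain ⟨C, C0, h1⟩ := h1 6
  obtain ⟨M, hM⟩ := evG_bd X
  have M0 := (norm_nonneg _).trans (hM 1)
  have r1 := inv_pos.2 r0
  obtain ⟨E, hE⟩ : ∃ E, E = C + M + ρ0⁻¹ := ⟨_, rfl⟩
  have E0 : 0 < E := by rw [hE]; positivity
  refine ⟨E, E0, fun G b I h T hd hC => ?_⟩
  have g0 := h.g0 I
  have g1 := h.g1 I
  have q1 := h.Q1 I
  have q0 := h.Q0 I
  have s0 := sqrt_pos.2 g0
  have e : (G.p I).ρ = G.Q I ^ 3 * G.g I := rfl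
  have CE : C ≤ E := by linarith
  obtain ⟨a1, -⟩ := h1 _ hd _ (h.ρ0 I) (by
    have a := (mul_le_mul_of_nonneg_right (pow_le_pow_right₀ q1 (show 4 ≤ 2000 by norm_num))
      g0.le).trans (h.Qg I)
    have a' : ρ0⁻¹ ≤ G.Q I := by linarith
    rw [inv_le_iff_one_le_mul₀ r0] at a'
    rw [e]
    refine le_of_mul_le_mul_left ?_ q0
    calc _ = G.Q I ^ 4 * G.g I := by ring
      _ ≤ _ := a.trans a')
  have c : G.g I * E ≤ √(G.g I) * (E / G.Q I) := by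
    have := (mul_le_mul_of_nonneg_right (le_self_pow₀ q1 (by norm_num)) s0.le).trans (h.Qsg I)
    rw [← mul_div_assoc, le_div_iff₀ q0]
    calc _ = G.Q I * √(G.g I) * (√(G.g I) * E) := by
          linear_combination -E * G.Q I * mul_self_sqrt g0.le
      _ ≤ _ := mul_le_of_le_one_left (mul_pos s0 E0).le this
  have a3 : C * (G.p I).ρ ^ 3 ≤ G.Q I ^ 50 * G.g I * E * G.g I ^ 2 := by
    calc _ = G.Q I ^ 9 * G.g I * C * G.g I ^ 2 := by rw [e]; ring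
      _ ≤ _ := by gcongr; norm_num
  have a := h.lr_one (ω := fun _ => G.g I) (fun _ => g0.le) le_rfl (Ok.lr_lt hr
    (h.lop_lS' T.hb hd (ltt_ev hX) E0 (fun U => (hM U).trans (by linarith)) E0.le
      ((mul_le_mul_of_nonneg_left (pow_le_of_le_one g0.le g1 (by norm_num)) E0.le).trans_eq
        (mul_comm ..)) fun _ => ⟨a1.mono' (h.ρ0 I) CE
          (CE.trans (le_mul_of_one_le_left E0.le (one_le_pow₀ q1))) a3, lx_meas X⟩))
  refine ⟨⟨fun y => ?_, a.1.2.imp fun _ k => ⟨k.1, k.2.mono (by gcongr)⟩⟩, a.2,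
    xO_lS X _ 1 ▸ h.rt_xv T hd fun _ => (ltt_ev hX).smul _⟩
  rw [xv_fst, Pi.one_apply, one_smul]
  refine ⟨a1.mono' (h.ρ0 I) CE (CE.trans ?_) (a3.trans ?_), lx_meas X⟩
  · rw [sq, mul_assoc, mul_div_cancel₀ _ q0.ne']
    exact le_mul_of_one_le_left E0.le q1
  · rw [mul_assoc _ (G.g I), mul_assoc _ (√_)]
    gcongr

/-- the law of the typed tangent -/
theorem ref_of {G : Gl} (h : G.Oks) {T T' : Ty} {e e' : Pl × Pl} {σ : Equiv.Perm (Fin 4)} {Y : Let}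
    {γ : ℕ → ℝ} {c : ℝ} {R : ℕ → ℕ → (Conf → ℝ) → ℝ} (hR : ∀ m, (G.wm m).Pb9 e (R m))
    (he : e' = (mv (.inl σ) e.1, mv (.inl σ) e.2)) (hr : Y ∈ Rl)
    (t : Tl T (Wd.act (Wd.pe σ) Y)) (t' : Tl T' Y) (D : Det T [e]) (D' : Det T' [e'])
    (ne : Wd.en e'.1 e'.2 Y ≠ 0) (hγ : Tendsto (fun k => γ k / log (G.L k)) atTop (𝓝 c))
    (H : ∀ᶠ k in atTop, ∀ m b J, (G.wm m).Tu b J → (G.wm m).Go J k →
      (G.wm m).Rf T e (R m) (γ k) b J k) : G.Ref T' e' (c / (11 * GD.b0 / (48 * π ^ 2))) := by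
  have o := (h 0).1
  obtain ⟨d, hd⟩ := exists_rad Y
  obtain ⟨C, C0, a⟩ := tr_let (rad_act hd (Wd.pe σ)) (rl_act _ hr)
  obtain ⟨C', C0', a'⟩ := tr_let hd hr
  obtain ⟨q, hq⟩ : ∃ q, q = |(Wd.en e'.1 e'.2 Y).re| := ⟨_, rfl⟩
  have q0 : 0 < q := hq ▸ abs_pos.2 fun z => ne (Complex.ext z (Wd.en_im hr ..))
  have e1 : ∀ (G : Gl) b J X p p', qc ((G.lt b J X 1).1 0) (pt (EE p)) (pt (EE p')) = Wd.en p p' X :=
    fun G b J X p p' => by rw [xv_fst, Pi.one_apply, one_smul, qc_lx, en_apply]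
  have e2 : Wd.en e.1 e.2 (Wd.act (Wd.pe σ) Y) = Wd.en e'.1 e'.2 Y := by
    simpa [sn, he, gn] using en_act (.inl σ) e.1 e.2 Y
  obtain ⟨k1, H⟩ := eventually_atTop.1 (H.and ((hγ.abs.eventually_le_const (lt_add_one _)).and
    (o.ev_L (|c| + 1))))
  have H1 : ∀ k, k1 ≤ k → |γ k| ≤ G.Q k := fun k hk => by
    obtain ⟨-, a1, a2⟩ := H k hk
    have l : (1000 : ℝ) ≤ G.L k := o.L1 k
    have p : 0 < log (G.L k) := log_pos (by linarith)
    rw [abs_div, abs_of_pos p, div_le_iff₀ p] at a1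
    refine a1.trans (le_trans ?_ (o.LQ' k (i := 2) (by norm_num)))
    rw [sq]
    exact mul_le_mul a2 (log_le_self (by linarith)) p.le (by linarith)
  have S := o.sum_law hγ k1
  generalize c / (11 * GD.b0 / (48 * π ^ 2)) = γ' at *
  have bt := tendsto_log_atTop.comp o.b_top
  obtain ⟨j0, h0⟩ := eventually_atTop.1 ((o.L_nat.eventually_ge_atTop d).and
    (o.ev_L (C + C' + 2 * (C + C') / q)))
  intro ε ε0
  filter_upwards [eventually_ge_atTop j0, Metric.tendsto_nhds.1 S _ (half_pos ε0),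
    bt.eventually_ge_atTop ((k1 + 1) / (ε / 2)), bt.eventually_gt_atTop 0] with l l1 l2 l3 l4 m b J A hJ
  obtain ⟨w, hp⟩ := h m
  obtain ⟨j1, j2⟩ := h0 J (l1.trans hJ)
  have dR : d ≤ ((G.wm m).p J).R := by
    have : G.L J ≤ G.D0 J := by exact_mod_cast (w.LD J : (G.L J : ℝ) ≤ G.D0 J)
    change _ ≤ G.L J at j1
    change _ ≤ 4 * G.D0 J
    omega
  replace j2 : C + C' + 2 * (C + C') / q ≤ (G.wm m).Q J := j2.trans (w.LQ J)
  have Q1 := w.Q1 J
  have c0 : 0 < 2 * (C + C') / q := by positivity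
  have c1 : 2 * (C + C') ≤ (G.wm m).Q J * q := (div_le_iff₀ q0).1 (by linarith)
  have c2 : ∀ {E : ℝ}, 0 < E → E ≤ C + C' → 0 < E + E / (G.wm m).Q J ∧
      E + E / (G.wm m).Q J ≤ (G.wm m).Q J * q ∧ E / (G.wm m).Q J ≤ 5 * q := fun E0 E1 =>
    ⟨by positivity, by linarith [div_le_self E0.le Q1], by
      rw [div_le_iff₀' (by linarith)]; nlinarith⟩
  have sy := fun k => ((w.f_facts J k).1 b A.b0).2.1
  have bc : ∀ X, BC fun U => -sm ((G.wm m).N J) X 1 U * (G.wm m).f b J J U := fun X =>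
    let ⟨a1, _, a2⟩ := sm_bc ((G.wm m).N J) X 1
    let ⟨b1, _, b2⟩ := f_meas w A J
    ⟨a1.neg.mul b1, _, fun U => norm_mul_le_of_le ((norm_neg _).trans_le (a2 U)) (b2 U)⟩
  obtain ⟨b1, b2⟩ := w.ty_law A (hR m) hp D (a _ b J w A dR (by linarith)) (bc _) (t.sgn_mul (sy J))
    (c2 C0 (by linarith)).1 (by rw [e1, e2, ← hq]; exact (c2 C0 (by linarith)).2.1)
    (by rw [e1, e2, ← hq]; exact (c2 C0 (by linarith)).2.2)
    (fun k hk => ⟨H1 k hk, (H k hk).1 m b J A⟩) (fun _ => rfl) hJ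
  have hR' : (G.wm m).Pb9 e' fun k H => R m k fun U => H (cf (.inl σ) U) := fun k => he ▸ (hR m k).cf σ
  have e3 : ∀ j ≤ J, (G.wm m).ry (R m) b J j ((G.wm m).tt
      (fun U => -sm ((G.wm m).N J) (Wd.act (Wd.pe σ) Y) 1 U * (G.wm m).f b J J U) J j) =
      (G.wm m).ry (fun k H => R m k fun U => H (cf (.inl σ) U)) b J j ((G.wm m).tt
        (fun U => -sm ((G.wm m).N J) Y 1 U * (G.wm m).f b J J U) J j) := fun j hj =>
    (hR m j).congr fun ϑ z => by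
      rw [lg, lg, sym_cf (sy j) _ z.per, cf_pb, ← tt_pb w hj (bc Y) z.per]
      congr 2
      exact w.tt_congr (fun W hW => by rw [sm_one, sym_pb (sy J) _ hW]; rfl) hj _ z.per
  rw [e3 0 J.zero_le, e3 l hJ] at b1 b2
  obtain ⟨d1, d2, d3, d4⟩ := w.ty_fin A hR' hp D' (a' _ b J w A dR (by linarith)) (bc _)
    (t'.sgn_mul (sy J)) (c2 C0' (by linarith)).1
    (by rw [e1, ← hq]; exact (c2 C0' (by linarith)).2.1)
    (by rw [e1, ← hq]; exact (c2 C0' (by linarith)).2.2) (fun _ => rfl) (fun _ => rfl) hJ b1 b2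
  refine ⟨_, _, _, d2, ?_, d3, tt_bc (bc _) hJ, w.sgn_tt (bc _).1 (t'.sgn_mul (sy J)) hJ, d1, by
    rw [tt_tt hJ 0 l.zero_le, div_mul_cancel₀ _ d1]⟩
  change 0 < log (G.bb l) at l4
  change _ ≤ log (G.bb l) at l3
  change |_ + ∑ j ∈ Ico k1 l, γ j * G.g j ^ 2| ≤ _ at d4
  change dist (_ / log (G.bb l)) _ < _ at l2
  rw [dist_eq, ← mul_div_cancel_right₀ γ' l4.ne', ← sub_div, abs_div, abs_of_pos l4,
    div_lt_iff₀ l4, abs_lt] at l2
  rw [div_le_iff₀' (half_pos ε0)] at l3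
  change _ < ∑ j ∈ Ico k1 l, γ j * G.g j ^ 2 - _ ∧ ∑ j ∈ Ico k1 l, γ j * G.g j ^ 2 - _ < _ at l2
  rw [abs_le] at d4 ⊢
  constructor <;> linarith

variable {G : Gl} (h : G.Oks) {γ : ℕ → ℝ} {c : ℝ} {R : ℕ → ℕ → (Conf → ℝ) → ℝ}
  (hγ : Tendsto (fun k => γ k / log (G.L k)) atTop (𝓝 c))
include h hγ

/-- the law for the Weyl component -/
theorem ref_w (hR : ∀ m, (G.wm m).Pb9 ((0, 1), (0, 1)) (R m))
    (H : ∀ᶠ k in atTop, ∀ m b J, (G.wm m).Tu b J → (G.wm m).Go J k →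
      (G.wm m).Rf T2s ((0, 1), (0, 1)) (R m) (γ k) b J k) :
    G.Ref T2 ((0, 2), (0, 2)) (c / (11 * GD.b0 / (48 * π ^ 2))) ∧
      G.Ref T2s ((0, 1), (0, 1)) (c / (11 * GD.b0 / (48 * π ^ 2))) := by
  obtain ⟨Y, a, b, e⟩ := ex_w
  refine ⟨ref_of h hR (by decide) a b.t2s b det2s det2 e hγ H, ref_of h (σ := 1) hR rfl
    (rl_act _ a) ((act_pe1 _).symm ▸ b.t2s) b.t2s det2s det2s ?_ hγ H⟩
  exact (en_act (.inl (.swap 1 2)) (0, 1) (0, 1) Y).trans_ne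
    (by simpa [sn, mv, Equiv.swap_apply_def] using e)

/-- the law for the pseudoscalar -/
theorem ref_q (hR : ∀ m, (G.wm m).Pb9 ((0, 1), (2, 3)) (R m))
    (H : ∀ᶠ k in atTop, ∀ m b J, (G.wm m).Tu b J → (G.wm m).Go J k →
      (G.wm m).Rf T1' ((0, 1), (2, 3)) (R m) (γ k) b J k) :
    G.Ref T1' ((0, 1), (2, 3)) (c / (11 * GD.b0 / (48 * π ^ 2))) :=
  let ⟨_, a, b, e⟩ := ex_q
  ref_of h (σ := 1) hR rfl a ((act_pe1 _).symm ▸ b) b det1' det1' e hγ H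

end Gl

end Q4.En

end Pool.Agent.Lib.MP_7f377f_mp.RG
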