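import Pool.Agent.Lib.MP_7f377f_mp.G.TyU
import Pool.Agent.Lib.MP_7f377f_mp.G.S21E0

/-! Words which contract in a window of levels. -/

noncomputable section

set_option linter.unusedSectionVars false
variable [Pool.Agent.Lib.MP_7f377f_mp.GD]

namespace Pool.Agent.Lib.MP_7f377f_mp.RG.Q4.En.Gl.Ok

open Finset Real Sg Br YM7 Ob Pos
open Weak (Site corner)
open scoped Classical

section

variable {G : Gl} {b a a' C μ ν : ℝ} {J k l n' c ρ : ℕ} [NeZero (G.N J)] [NeZero n']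
  {P : Grd} {α κ γ : Type} [Fintype α] [Fintype κ] [DecidableEq κ] [Inhabited κ] [Fintype γ]
  [DecidableEq γ] {Λ : Lwd (G.N J) α κ} {φ : Site 4 (G.N J) → ℝ} (h : G.Ok)
  (t : G.Tu b J) (hp : G.Pu) (K : G.Gk J k n' P κ a c C)
include h t hp K

theorem dq_sz2 (B : G.Gb J k l P a c a' ρ) (W : G.Wk b J k P a C Λ) (hφ : Lqq a' φ)
    (hD : G.Dq2 b J k l n' P c C Λ μ ν) : ∃ z : ℕ → ℝ, (∀ m, 0 < z m) ∧ z l = 1 ∧ z (l + 1) = 1 ∧
      (∀ m, l < m → z m ≤ G.L m * z (m + 1)) ∧ z k * |ν| ≤ 1 ∧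
      4 * G.cM k c C * (|μ| * z k * (∑ a, |Λ.w a|) * ((2 * (P.j * (G.p k).D) + 1) * P.t : ℕ) ^ 4) *
        G.Q k ^ 287 * G.bb k ≤ G.sg (k + 1) ^ Fintype.card κ ∧ ∀ m, l ≤ m → m ≤ k →
      G.Sz m (G.Q m ^ 3 / z m) (G.Q m ^ 3 / z m) (G.Q m ^ 100)⁻¹
        (G.tn b J (G.uq b J k n' P Λ μ ν φ) k m).1 (G.tn b J (G.uq b J k n' P Λ μ ν φ) k m).2 := by
  have a0 := B.a0
  have kJ := K.lt.le
  have q0 := h.Q0 k
  have qk := h.cQ k (C := 10 ^ 20) le_rfl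
  have q7 : 13 * G.Q k ^ 2 ≤ G.Q k ^ 7 := by
    rw [show 7 = 5 + 2 from rfl, pow_add]
    exact mul_le_mul_of_nonneg_right (le_trans (by linarith) (le_self_pow₀ (h.Q1 k) (by norm_num)))
      (by positivity)
  have r0 := rt_pos (G := G) J k
  have ra : ∀ m, l ≤ m → m ≤ k → G.rt k m * (G.rt J k * a') ≤ 1 := fun m h1 h2 => by
    rw [← mul_assoc, ← Nat.cast_mul, h.rt_mul h2 kJ]
    exact (mul_le_mul_of_nonneg_right (h.rt_anti h1 (h2.trans kJ)) a0.le).trans B.a1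
  have Q3 : ∀ m, 1 ≤ G.Q m ^ 3 := fun m => one_le_pow₀ (h.Q1 m)
  obtain ⟨N, hN, rfl, hμ, hs⟩ := hD
  have N0 := hN.1
  have c0 := h.cP0 (l + 1) k
  obtain ⟨A, A0, A1⟩ : ∃ A, 0 < A ∧ A * (G.cP (l + 1) k * N * G.Q k ^ 7) = 1 :=
    ⟨_, by positivity, inv_mul_cancel₀ (by positivity)⟩
  have A2 : |μ| ≤ A := le_of_mul_le_mul_right (a := G.cP (l + 1) k * N * G.Q k ^ 7)
    (by linarith) (by positivity)
  obtain ⟨q1, q2, -⟩ := lip_sy (G := G) (J := J) hφ a0 A2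
  refine ⟨G.cP (l + 1), h.cP0 _, by simp [cP], cP_top, fun m hm => ?_, ?_,
    h.nw_le hN hμ c0.le, fun m h1 h2 => ?_⟩
  · have := h.pw_cP (i := m + 1) m m.le_succ
    rw [h.rt_step m.lt_succ_self, rt_top, cP_step m.lt_succ_self, cP_top] at this
    rw [cP, cP, prod_Ico_succ_top hm]
    push_cast at this
    simp only [Nat.add_sub_cancel_left, pow_one, mul_one] at this
    nlinarith only [this, h.cP0 (l + 1) m, show ∏ n ∈ Ico (l + 1) m, 2 * G.cr n = G.cP (l + 1) m from rfl]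
  · simp
  · have en := h.entry t hp K W hN hφ a0 A0 A2 (x := 0) (by simpa using N0.le)
    simp only [mul_zero, Complex.ofReal_zero, zero_smul, sub_zero] at en
    have s := h.slot t kJ N0 (j := l - 1) (fun m h0 hm => hs m (by omega) hm) (fun _ => q2 _)
      (h.fd_lip q1 k kJ) (by positivity) (by positivity) en h2
      (by have := B.l0; omega)
    have e : G.cP m k * (G.rt k m * (2 * G.Q k ^ 2 * (G.rt J k * (A * a' * 4)) * N + G.Q m ^ 2 *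
        (G.rt J k * (A * a' * 4)) * N) + A * N) ≤ G.Q m ^ 3 / G.cP (l + 1) m := by
      have b1 : G.cP (l + 1) m * G.cP m k ≤ G.cP (l + 1) k := by
        rcases h1.eq_or_lt with rfl | h1
        · rw [cP_step B.lt, show G.cP (l + 1) l = 1 by simp [cP], one_mul]
          exact mul_le_of_le_one_left c0.le (by linarith [h.cr1 l, h.cr0 l])
        · exact (prod_Ico_consecutive _ h1 h2).le
      have b2 : G.Q m ^ 2 ≤ G.Q k ^ 2 := pow_le_pow_left₀ (h.Q0 m).le (h.Q_mono h2) _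
      have b3 := ra m h1 h2
      have p : 0 ≤ G.rt k m * (G.rt J k * a') := by positivity
      have b4 : G.rt k m * (2 * G.Q k ^ 2 * (G.rt J k * (A * a' * 4)) * N + G.Q m ^ 2 *
          (G.rt J k * (A * a' * 4)) * N) + A * N ≤ A * N * G.Q k ^ 7 := by
        have : G.rt k m * (G.rt J k * a') * (8 * G.Q k ^ 2 + 4 * G.Q m ^ 2) + 1 ≤ G.Q k ^ 7 := by
          nlinarith only [mul_le_mul_of_nonneg_right b3 (show 0 ≤ 8 * G.Q k ^ 2 + 4 * G.Q m ^ 2 by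
            positivity), b2, q7, one_le_pow₀ (h.Q1 k) (n := 2)]
        nlinarith only [mul_le_mul_of_nonneg_left this (show 0 ≤ A * N by positivity)]
      rw [le_div_iff₀' (h.cP0 _ _), ← mul_assoc]
      refine le_trans (mul_le_mul b1 b4 (by positivity) c0.le) ?_
      linarith [Q3 m]
    exact h.sz_le s (h.om0 m).le e e (h.om_100 m)

theorem core2 {α : γ → Type} [∀ q, Fintype (α q)] {Λ : ∀ q, Lwd (G.N J) (α q) κ} {μ ν : γ → ℝ}
    {φ : γ → Site 4 (G.N J) → ℝ} (B : G.Gb J k l P a c a' ρ) (W : ∀ q, G.Wk b J k P a C (Λ q))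
    (hφ : ∀ q, Lqq a' (φ q)) (hD : ∀ q, G.Dq2 b J k l n' P c C (Λ q) (μ q) (ν q))
    (hs : Cls (G.N J) (G.dl J l) univ id fun q => sup (fat ρ (φ q))) :
    ∃ X, Xo (G.N J) X (fun q => ltr n' P.s ((Λ q).ob (Fi.tr haar) b) (μ q) (ν q) (φ q)) ∧
      G.Sl b J l X (G.sg l) fun q => sup (fat ρ (φ q)) := by
  choose z z0 z1 z2 z3 z4 z5 z6 using fun q => h.dq_sz2 t hp K B (W q) (hφ q) (hD q)
  have s0 := h.sg0 l
  have kJ := K.lt.le
  have q0 := h.Q0 k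
  have b0 := h.b0 k
  have c0 := h.cM0 k c C
  have σ0 := pow_pos (h.sg0 (k + 1)) (Fintype.card κ)
  have t0 : 0 < P.t := Nat.pos_of_mul_pos_right (K.ht ▸ pow_pos three_pos _ : 0 < P.t * P.s)
  have w0 : (0 : ℝ) < ((2 * (P.j * (G.p k).D) + 1) * P.t : ℕ) ^ 4 := by positivity
  have D0 : ∀ j, 0 < (G.L j : ℝ) ^ G.K0 * G.rt J j := fun j =>
    mul_pos (pow_pos (by linarith [h.L1 j]) _) (rt_pos J j)
  have d1 : 66 * ((G.L l : ℝ) ^ G.K0 * G.rt J l) ≤ G.dl J l := by exact_mod_cast dl_ge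
  refine ⟨_, h.xo_aw (k := k) (ρ := ρ) Λ μ ν φ, (h.mw_aw K t hp (l := l)
    (r := fun q => G.sg l * z q k) W hφ B.a0 B.le (fun q => mul_pos s0 (z0 q k)) (fun q => by
      rw [mul_assoc]; exact mul_le_of_le_one_right s0.le (z4 q)) B.lt.le B.rad hs
    (le_trans (mul_le_mul_of_nonneg_right (by
      have : (2 * c + 3 : ℝ) ≤ G.L k := by exact_mod_cast B.big
      linarith [h.L1 k]) (D0 k).le) (h.dl_le B.lt kJ))).slot h t hp
    (r := fun m q => G.sg l * z q m) (m := fun j => if j = l then 1 else G.L j) (N := G.Q l ^ 3)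
    (h.cnt_aw K (fun q => (hφ q).1) (fun q => (mul_pos s0 (z0 q k)).le) (by linarith [D0 l]) hs
      (M := G.sg l * G.sg (k + 1) ^ Fintype.card κ / (4 * G.cM k c C *
        ((2 * (P.j * (G.p k).D) + 1) * P.t : ℕ) ^ 4 * G.Q k ^ 287 * G.bb k)) (by positivity)
      fun q => by
        rw [le_div_iff₀ (by positivity)]
        nlinarith only [mul_le_mul_of_nonneg_left (z5 q) s0.le]) ?_ B.lt.le
    (fun q => uq_aw Λ μ ν φ q) (fun j j1 j2 q => ⟨_, ?_, z6 q j j1 j2⟩) (fun j j1 j2 => ?_)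
    (fun _ => le_rfl) (fun q => ⟨by rw [z1, mul_one], by simpa [z1] using z6 q l le_rfl B.lt.le⟩)
    s0 (pow_pos (h.Q0 l) _).le ?_⟩
  · have := mul_le_mul_of_nonneg_right (h.sg_bb B.lt.le (i := 43) (by norm_num)) σ0.le
    refine le_trans (b := G.Q k ^ 43 * G.sg l * G.sg (k + 1) ^ Fintype.card κ / (4 * G.bb k))
      (le_of_eq (by field_simp)) ?_
    rw [div_le_iff₀ (by positivity)]
    nlinarith only [this, mul_pos b0 σ0]
  · rw [mul_assoc, mul_div_cancel₀ _ (z0 q j).ne']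
    exact (le_of_eq (by ring)).trans (h.sg_bb j1 (i := 226) (by norm_num))
  · split_ifs with e
    · subst e
      refine ⟨le_rfl, by simpa using h.cQ j (by norm_num), ?_, fun q => ⟨mul_pos s0 (z0 q j),
        fun _ => by simp [z1, z2]⟩⟩
      exact h.zs_cls hs (by positivity) (by norm_num; linarith) le_rfl (j2.trans kJ)
    · have e' := lt_of_le_of_ne j1 (Ne.symm e)
      have L := h.L1 j
      refine ⟨le_trans (by norm_num) (h.L_big j), le_trans (by nlinarith) (h.LQ' j (i := 2)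
        (by norm_num)), h.zs_cls hs (by positivity) (le_trans (mul_le_mul_of_nonneg_right
          (by linarith) (D0 j).le) (h.dl_le e' (j2.trans kJ))) le_rfl (j2.trans kJ),
        fun q => ⟨mul_pos s0 (z0 q j), fun _ => ?_⟩⟩
      rw [mul_left_comm]
      exact mul_le_mul_of_nonneg_left (z3 q j e') s0.le
  · rw [sg, mul_comm (_ / _), ← mul_assoc, ← pow_add, mul_div_left_comm]
    exact mul_le_of_le_one_right (h.b0 l).le ((div_le_one (pow_pos (h.Q0 l) _)).2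
      (pow_le_pow_right₀ (h.Q1 l) (by norm_num)))

end

variable {G : Gl} {b a a' C s δ : ℝ} {J j k l m u n' c c' ρ μ D : ℕ} [NeZero (G.N J)] [NeZero n']
  [NeZero m] {P : Grd} {κ κ' : Type} [Fintype κ] [DecidableEq κ] [Inhabited κ] [Fintype κ']
  [DecidableEq κ'] (h : G.Ok) (t : G.Tu b J) (hp : G.Pu) (K : G.Gk J k n' P κ a c C)
  (B : G.Gb J k l P a c a' ρ) (hj : j ≤ l) (hn : G.N j = m * u) (m1 : 1 < m) (s0 : 0 < s)
  (hD : G.dl J l + 2 * ρ ≤ D) (hμ : G.dl J l + 2 * ρ ≤ 2 * μ) (δ0 : 0 ≤ δ) (hδ : δ + s * ρ ≤ s * μ)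

/-- the classes of slots are reflection symmetric -/
theorem cl_lc2 {lam : ℕ} (hN : G.N J = n' * P.s) (hs : P.s ∣ lam) (hl : lam < G.N J)
    (hR : P.R < μ) : Ob.Cl lam (G.Lcl2 b J k l n' P κ a c C (κ' := κ') lam μ D a') := by
  have : (Fi.tr haar).IsHaarMeasure := (inferInstance : haar.IsHaarMeasure)
  refine ⟨?_, ?_, ?_⟩
  · rintro O ⟨B, ν, φ, -, e⟩ i
    obtain ⟨α, _, Λ, r, -, -, z⟩ := (e i).1 []
    rw [(e i).2, ltr_mul (B := B i) z]
    exact cont_ltr (cont_wob Λ)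
  · rintro O ⟨B, ν, φ, p, e⟩ y
    exact ⟨fun i V => B i (Weak.refl y V), ν, _, p.rf hl y, fun i => ⟨fun L => (e i).1 (y :: L),
      funext fun U => (congrFun (e i).2 _).trans (ltr_rcl hN hs y U)⟩⟩
  · rintro O ⟨B, ν, φ, p, e⟩ i U V hU
    obtain ⟨α, _, Λ, r, W, -, z⟩ := (e i).1 []
    rw [(e i).2, ltr_mul (B := B i) z]
    exact ltr_dep hl W.sup hR (p.mar i) hU

include h t hp K B hj hn m1 s0 hD hμ δ0 hδ

theorem rg_cls2 (geo : ∀ F : Site 4 m × κ' → Src (G.N J),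
      (∀ q, YM7.InT s δ (G.rt J j * u) q.1 (F q)) →
      Cls (G.N J) (66 * (G.L l ^ G.K0 * G.rt J l) : ℕ) univ id (fun q => sup (F q)) →
        G.Geo univ Prod.fst c' (fun q => sup (F q)) J l j) :
    Ob.Rg (Fi.tr haar) b (G.rt J j * u) (G.Lcl2 b J k l n' P κ a c C (κ' := κ') (G.rt J j * u) μ D a')
      (2 ^ (l - j) * G.sg l)⁻¹ (G.sg l)⁻¹ (cJ / G.g j * u ^ 4 + G.cz j u (Fintype.card κ'))
      (exp (G.cz j u (Fintype.card κ'))) := by
  have jk : j ≤ k := hj.trans B.lt.le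
  have hN : G.N J = m * (G.rt J j * u) := by rw [← h.rt_N (jk.trans K.lt.le), hn, mul_left_comm]
  have hl : G.rt J j * u < G.N J := by
    have := (h.N_odd J).pos
    rw [hN] at this ⊢
    exact lt_mul_of_one_lt_left (Nat.pos_of_mul_pos_left this) m1
  have hs : P.s ∣ G.rt J j * u := by
    rw [← h.rt_mul jk K.lt.le, K.ht]
    exact ((dvd_mul_left _ _).mul_left _).mul_right _
  have hR := B.rad
  refine h.rg_sl (c := c') s0 t hp (B.lt.trans K.lt).le hj hn (h.sg_pos l) δ0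
    (cl_lc2 K.hn hs hl (by omega)) fun O hO => ?_
  choose A ν φ p e using hO
  choose α _ Λ r W d z using fun q : Site 4 m × κ' => (e q.1 q.2).1 []
  have hμ' : (G.dl J l : ℝ) + 2 * ρ ≤ 2 * μ := by exact_mod_cast hμ
  have hc : Cls (G.N J) (G.dl J l) univ id fun q : Site 4 m × κ' =>
      sup (fat ρ fun x => φ q.1 q.2 (x - corner (G.rt J j * u) q.1)) := by
    rintro ⟨x, i⟩ - ⟨y, i'⟩ - v
    rcases eq_or_ne x y with rfl | w
    · exact sep_sp ((p x).sp hD _) fun w => v (Prod.ext rfl w)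
    · have I := fun x i => (p x).inT (ρ := ρ) (δ := μ - ρ) hl (by omega) zero_le_one
        (by linarith) x i
      exact (sep_cell hN one_pos (I x i) (I y i') w).mono (by linarith) (by rfl) (by rfl)
  obtain ⟨X, o, S⟩ := h.core2 t hp K B W (fun q => TG.lqq_sub ((p q.1).lp q.2) _) d hc
  have I := fun q : Site 4 m × κ' => (p q.1).inT hl (by omega) s0.le hδ q.1 q.2
  refine ⟨X, _, ?_, S, I, geo _ I fun x hx y hy v => (hc x hx y hy v).mono
    (Nat.cast_le.2 (Nat.mul_le_mul_right _ (Nat.le_mul_of_pos_right _ (by positivity))))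
    (by rfl) (by rfl)⟩
  refine (congrArg (Xo _ X) (funext₂ fun q U => ?_)).mpr o
  rw [arr, (e q.1 q.2).2, ltr_shift K.hn hs, ltr_mul (B := A q.1 q.2) (z q)]

end Pool.Agent.Lib.MP_7f377f_mp.RG.Q4.En.Gl.Ok

namespace Pool.Agent.Lib.MP_7f377f_mp.RG.Q4.En.Gl

open Filter Topology Real YM7 Pur Ob Finset
open Ope (sc gp)

theorem Ok.rg_clu2 {G : Gl} {b a a' C s r t X : ℝ} {J j k l m u n' c ρ : ℕ} [NeZero (G.N J)]
    [NeZero n'] [NeZero m] {P : Grd} {κ κ' : Type} [Fintype κ] [DecidableEq κ] [Inhabited κ]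
    [Fintype κ'] [DecidableEq κ'] (h : G.Ok) (tu : G.Tu b J) (hp : G.Pu)
    (K : G.Gk J k n' P κ a c C) (B : G.Gb J k l P a c a' ρ) (hj : j ≤ l) (hn : G.N j = m * u)
    (m1 : 1 < m) (s0 : 0 < s) (s1 : s * 3 ^ G.e J = 1) (hw : s * (G.rt J j * u : ℕ) = 3⁻¹)
    (hL : 1000 * 3 ^ Fintype.card κ' ≤ G.L j) (ht : s ≤ t) (hρ : s * ρ ≤ t) (hr : r + 2 * t ≤ 12⁻¹)
    (hd : s * (G.dl J l + 2 * ρ : ℕ) ≤ 6⁻¹) (hX : X + 1 ≤ G.L l)
    (hR : r + 2 * t ≤ X * G.L l ^ (G.K0 + 1) * (G.rt J l * s)) : ∃ μ : ℕ, s * μ ≤ 6⁻¹ - r ∧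
    Ob.Rg (Fi.tr haar) b (G.rt J j * u) (G.Lcl2 b J k l n' P κ a c C (κ' := κ') (G.rt J j * u) μ
      (G.dl J l + 2 * ρ) a') (2 ^ (l - j) * G.sg l)⁻¹ (G.sg l)⁻¹
      (cJ / G.g j * u ^ 4 + G.cz j u (Fintype.card κ')) (exp (G.cz j u (Fintype.card κ'))) := by
  have hl := (B.lt.trans K.lt).le
  have m0 : 0 ≤ s * ρ := by positivity
  have h1 := (le_div_iff₀' s0).1 (Nat.floor_le (div_nonneg (a := 6⁻¹ - r) (by linarith) s0.le))
  have h2 := (div_lt_iff₀' s0).1 (Nat.lt_floor_add_one ((6⁻¹ - r) / s))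
  refine ⟨_, h1, h.rg_cls2 tu hp K B hj hn m1 s0 le_rfl ?_ (δ := 6⁻¹ - r - 2 * t) (by linarith)
    (by linarith) fun F hF hs => h.geo_arr (by rw [← h.rt_N (hj.trans hl), hn, mul_left_comm]) s0 hF
      hl hj s1 (by linarith) hL hX (by rw [hw]; linarith) hs fun y => ?_⟩
  · have : s * (G.dl J l + 2 * ρ : ℕ) ≤ s * (2 * ⌊(6⁻¹ - r) / s⌋₊ : ℕ) := by
      push_cast at hd ⊢
      linarith
    exact_mod_cast le_of_mul_le_mul_left this s0
  · exact (card_le_card_of_injOn (t := univ) Prod.snd (fun _ _ => mem_univ _) fun p a q b =>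
      Prod.ext ((mem_filter.1 a).2.trans (mem_filter.1 b).2.symm)).trans_eq card_univ

namespace Lm

variable {G : Gl} {β : ℕ × ℕ → ℝ} {U : Ultrafilter (ℕ × ℕ)} {S : Pol →ₗ[ℂ] ℂ} (o : G.Lm β U S)
include o

theorem clu2 {j : ℕ} {f : Fin j → R4 → ℝ} (hf : Adm f) : ∃ K, 0 < K ∧ ∀ P : ℕ → Prop,
    (∀ᶠ l in atTop, P l) → ∀ᶠ D in 𝓝[>] (0 : ℝ), ∃ l, P l ∧ 1 ≤ D * 3 ^ G.e l ∧
      D * 3 ^ G.e l ≤ G.Q l ∧ ∀ w d k, G.Mrg k w d → l < k → G.Q k ^ 2 * d ≤ D → ∀ᶠ e in atTop,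
        ∀ (A : Fin j → Pol) (ν η : Fin j → ℝ), (∀ i, G.Slt2 k l w d e β U (A i) (ν i) (η i)) →
          net.QB S (∏ i, Ope.ctr S (yy e (A i) (ν i) (sc D (f i)))) 2 (K * ∏ i, η i / G.sg l) ∧
          net.QB S (Ope.ctr S (∏ i, Ope.ctr S (yy e (A i) (ν i) (sc D (f i))))) 2
            (K * (2 ^ l)⁻¹ * ∏ i, η i / G.sg l) := by
  obtain ⟨Λ, δ, T⟩ := hf.tf
  obtain ⟨Φ, τ, S₀, hΦ, hF, hL⟩ := o.lim
  have h := (o.ok 0).1
  have : (Fi.tr haar).IsHaarMeasure := (inferInstance : haar.IsHaarMeasure)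
  obtain ⟨j0, j1, j2⟩ : ∃ j0, 1 ≤ G.e j0 ∧ 1000 * 3 ^ Fintype.card (Fin j) ≤ G.L j0 :=
    ((h.sch.mono.tendsto_atTop.eventually_ge_atTop 1).and (h.L_nat.eventually_ge_atTop _)).exists
  have L1 := T.one
  have δ0 := T.pos
  obtain ⟨X, hX⟩ : ∃ X, X = 132 * 3 ^ (G.K0 + 1) / δ + 1 := ⟨_, rfl⟩
  have X1 : 1 ≤ X := hX ▸ le_add_of_nonneg_left (by positivity)
  obtain ⟨u, hu⟩ : ∃ u, u = 3 ^ (G.e j0 - 1) := ⟨_, rfl⟩
  obtain ⟨c, hc⟩ : ∃ c, c = G.cz j0 u (Fintype.card (Fin j)) := ⟨_, rfl⟩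
  have K0 : 0 < cB j (cJ / G.g j0 * u ^ 4 + c) (exp c) * Λ ^ j := by unfold cB; positivity
  refine ⟨_ * 2 ^ j0, mul_pos K0 (by positivity), fun P hP => ?_⟩
  filter_upwards [h.ex_jm (A := X) (by linarith) (hP.and ((eventually_gt_atTop j0).and
    (h.ev_L ((Λ + 3) * X + 1 + 4 / δ)))), Ioc_mem_nhdsGT
    (show 0 < (12 * (Λ + 3) + 6 * δ)⁻¹ by positivity)] with D ⟨D0, l, ⟨l0, l1, l2⟩, e1, e2⟩ ⟨_, D1⟩
  rw [inv_eq_one_div, le_div_iff₀ (by positivity)] at D1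
  change _ ≤ (G.L l : ℝ) at l2
  change X * G.L l ^ G.K0 ≤ D * 3 ^ G.e l at e1
  change D * 3 ^ G.e l ≤ X * G.L l ^ (G.K0 + 1) at e2
  have d1 := mul_pos δ0 D0
  have d2 := le_mul_of_one_le_left D0.le L1
  have d3 : 0 < 4 / δ := by positivity
  have d4 := mul_le_mul_of_nonneg_right (show 1 ≤ Λ + 3 by linarith) (zero_le_one.trans X1)
  have a : (1 : ℝ) ≤ G.L l := by linarith
  have y := one_le_mul_of_one_le_of_one_le X1 (one_le_pow₀ (n := G.K0) a)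
  refine ⟨l, l0, y.trans e1, e2.trans ((mul_le_mul_of_nonneg_right (show X ≤ G.L l by linarith)
    (by positivity)).trans ((pow_succ' _ _).ge.trans (pow_le_pow_right₀ a
      (by have : 120 * (G.K0 + 1) ≤ G.K := h.K0_le; omega)))),
    fun w d k ⟨d0, _, _, m1, ⟨m2, m3⟩, m4⟩ lk hd => ?_⟩
  have k1 : (G.L l : ℝ) ≤ G.Q k := (Nat.cast_le.2 (h.L_mono lk.le)).trans (h.LQ k)
  have k2 : 0 < G.Q k * d := mul_pos (h.Q0 k) d0
  have k3 : 4 * (G.Q k * d) < δ * D := by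
    have : 4 < δ * G.Q k := (div_lt_iff₀' δ0).1 (by linarith)
    nlinarith [mul_lt_mul_of_pos_right this k2, mul_le_mul_of_nonneg_left hd δ0.le]
  have k4 : G.Q k * d ≤ D := by nlinarith [mul_le_mul_of_nonneg_right (a.trans k1) k2.le]
  have k5 := mul_le_mul_of_nonneg_right m3 d0.le
  have k6 := mul_le_mul_of_nonneg_right m2 d0.le
  filter_upwards [eventually_ge_atTop (G.e k), (tendsto_inv_atTop_zero.comp
    (tendsto_pow_atTop_atTop_of_one_lt (show (1 : ℝ) < 3 by norm_num))).eventually_le_const D0]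
    with e ek eD A ν η hs
  choose η0 A' ν' hA hr hν hD using hs
  change (3 ^ e : ℝ)⁻¹ ≤ D at eD
  have hz : ∀ i, 6⁻¹ - D ≤ gp e (fun _ => ⌊(3 ^ e / 6 : ℝ)⌋) i ∧
      gp e (fun _ => ⌊(3 ^ e / 6 : ℝ)⌋) i ≤ 6⁻¹ := fun _ => by
    have p : (0 : ℝ) < (3 ^ e)⁻¹ := by positivity
    have h1 := mul_le_mul_of_nonneg_left (Int.floor_le (3 ^ e / 6 : ℝ)) p.le
    have h2 := mul_lt_mul_of_pos_left (Int.lt_floor_add_one (3 ^ e / 6 : ℝ)) p
    rw [div_eq_mul_inv, inv_mul_cancel_left₀ (by positivity)] at h1 h2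
    exact ⟨by change _ ≤ _ * _; rw [div_eq_mul_inv]; linarith, by rwa [← div_eq_mul_inv _ 6] at h1⟩
  have s0 : 0 < G.sg l := h.sg_pos l
  have H := qb_two hF hL o.st hf T D0 (by linarith) (by linarith) (e := e)
    (fun i => ⟨by linarith [hz i], by linarith [hz i]⟩) hA hr hν η0 (ω := (2 ^ (l - j0) * G.sg l)⁻¹)
    (C := cJ / G.g j0 * u ^ 4 + c) (M := exp c) ?_ (inv_pos.2 s0) (mul_inv _ _).le
    (inv_le_one_of_one_le₀ (one_le_pow₀ one_le_two))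
  · refine ⟨H.1.mono o.st le_rfl (mul_le_mul_of_nonneg_right (le_mul_of_one_le_right K0.le
      (one_le_pow₀ one_le_two)) (prod_nonneg fun i _ => (div_pos (η0 i) s0).le)), ?_⟩
    rw [pow_sub₀ _ two_ne_zero l1.le, mul_inv_rev, inv_inv, ← mul_assoc] at H
    exact H.2
  filter_upwards [hL.le.trans hΦ (m4 e ek), eventually_all.2 hD] with p p1 p2
  obtain ⟨Pg, M⟩ := p1 _ (o.tu p)
  obtain ⟨o', pu⟩ := o.ok p.1
  have hl : l ≤ p.2 := (lk.trans M.gk.lt).le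
  have a0 := G.aa_pos p
  have a1 : G.aa p * 3 ^ (G.wm p.1).e p.2 = 1 := inv_mul_cancel₀ (by positivity)
  have hn : (G.wm p.1).N j0 = (2 * p.1 + 1) * 3 * u := by
    rw [hu, mul_assoc, ← pow_succ', Nat.sub_add_cancel j1]; rfl
  have a2 : 1 ≤ G.aa p * G.nn p := by
    rw [aa_nn]
    exact le_add_of_nonneg_left (by positivity)
  have a3 : G.aa p * ((G.wm p.1).rt p.2 j0 * u : ℕ) = 3⁻¹ := by
    have := G.aa_nn p
    rw [nn, ← o'.rt_N (l1.le.trans hl), hn, mul_left_comm] at this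
    push_cast at this ⊢
    exact eq_inv_of_mul_eq_one_left (mul_left_cancel₀ (by positivity : (2 * p.1 + 1 : ℝ) ≠ 0)
      (by linear_combination this))
  have a4 : G.aa p * Pg.s = (3 ^ e)⁻¹ := by
    rw [M.hs, aa, Nat.cast_pow, Nat.cast_ofNat, pow_sub₀ _ three_ne_zero M.he,
      inv_mul_cancel_left₀ (by positivity)]
  have a5 : G.aa p ≤ D := (le_mul_of_one_le_right a0.le (by
    rw [M.hs]; exact_mod_cast Nat.one_le_pow _ _ three_pos)).trans (a4.trans_le eD)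
  have x1 : G.rt p.2 l * G.aa p * 3 ^ G.e l = 1 := o'.rt_a hl a1
  have x0 := (mul_pos (Ok.rt_pos (G := G) p.2 l) a0).le
  have x7 : D * 3 ^ G.e l * (G.rt p.2 l * G.aa p) = D := by linear_combination D * x1
  have x2 := (mul_le_mul_of_nonneg_right e1 x0).trans_eq x7
  have x3 := x7.ge.trans (mul_le_mul_of_nonneg_right e2 x0)
  have x4 := M.rad
  obtain ⟨ρ, hρ⟩ : ∃ ρ, ρ = G.rt p.2 k * (Pg.j * (G.p k).D + 1) + Pg.R + 1 := ⟨_, rfl⟩
  rw [← hρ] at x4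
  have x5 : G.aa p * (G.dl p.2 l + 2 * ρ : ℕ) ≤ δ * D := by
    have h1 := mul_le_mul_of_nonneg_left x2 δ0.le
    have h2 : 0 ≤ δ * (G.L l ^ G.K0 * (G.rt p.2 l * G.aa p)) := by positivity
    rw [hX, mul_assoc, ← mul_assoc δ, mul_add, mul_div_cancel₀ _ δ0.ne'] at h1
    rw [dl]
    push_cast
    linarith
  have x6 := mul_le_mul_of_nonneg_left x3 (show 0 ≤ Λ + 3 by linarith)
  rw [← mul_assoc, ← mul_assoc _ X] at x6
  obtain ⟨μ, hμ, R⟩ := o'.rg_clu2 (κ' := Fin j) (a' := D⁻¹ * G.aa p) (ρ := ρ) (r := (Λ + 1) * D)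
    (X := (Λ + 3) * X) (o.tu p) pu M.gk ⟨lk, by omega, by positivity,
      (mul_le_mul_of_nonneg_right (inv_anti₀ (by positivity) (by linarith)) a0.le).trans_eq
        (div_eq_inv_mul _ _).symm, by
      rw [mul_left_comm, inv_mul_le_one₀ D0]
      exact (le_mul_of_one_le_left x0 y).trans x2, m1, hρ.ge⟩ l1.le hn (by omega) a0 a1 a3 j2 a5
    (x4.trans k4) (by linarith) (x5.trans (by linarith)) (le_trans (by linarith) l2)
    (le_trans (by linarith) x6)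
  exact ⟨_, _, _, a3, hc ▸ R, ⟨_, _, _, pc_xp T a0 D0 (z := gp e fun _ => ⌊(3 ^ e / 6 : ℝ)⌋)
    (fun i => ⟨by linarith [hz i], by linarith [hz i]⟩) x5 (lt_of_lt_of_le (by linarith) a2),
    fun i => ⟨p2 i Pg M, rfl⟩⟩, fun i => ltr_slot (R := 6⁻¹ + Λ * D) (fun y hy i => abs_le.2
      ⟨by linarith [hz i, sc_cube T D0 hy i], by linarith [hz i, sc_cube T D0 hy i]⟩)
    ((hA i).mem.2 p) M.gk.hn a0 (by linarith) a4 (lt_of_lt_of_le (by linarith) a2)⟩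

end Lm

end Pool.Agent.Lib.MP_7f377f_mp.RG.Q4.En.Gl
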