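import Pool.Agent.Lib.MP_7f377f_mp.G.TyX
import Pool.Agent.Lib.MP_7f377f_mp.G.S21E1

/-! The marginal part of a typed word, measured at level zero. -/

noncomputable section

set_option linter.unusedSectionVars false
variable [Pool.Agent.Lib.MP_7f377f_mp.GD]

namespace Pool.Agent.Lib.MP_7f377f_mp.RG.Q4.En.Gl.Ok

open Finset Real Sg Br YM7 Ob Pos Ty

variable {G : Gl} {b a C N ρ x y : ℝ} {J k l m n' c : ℕ} {T : Ty} {e : Pl × Pl} {d v : Lx × Ac}
  {f g : Conf → ℂ} (h : G.Ok)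
include h

theorem cP_gr2 (h1 : l ≤ m) (h2 : m ≤ k) : 1.01 ^ (m - l) * G.cP l k ≤ G.cP m k := by
  rw [cP, ← prod_Ico_consecutive _ h1 h2, ← mul_assoc]
  refine mul_le_of_le_one_left (h.cP0 m k).le ?_
  have : (1.01 : ℝ) ^ (m - l) = ∏ _ ∈ Ico l m, 1.01 := by simp
  rw [this, ← prod_mul_distrib]
  exact prod_le_one (fun n _ => by linarith [h.cr0 n]) fun n _ => by linarith [h.cr1 n]

variable (t : G.Tu b J)
include t

theorem rs_le (hk : k ≤ J) (a : G.Tx b J k x y d f) :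
    |G.rs b J k e f| ≤ x + (x + y) / 10 ^ 9 := by
  have a1 := (h.tw_fd t hk a).1 e
  have a2 := (Complex.abs_re_le_norm _).trans ((a.sz.1 0).1.cb _ _ _ _
    ((cv_pt (as_EE e.1) 0).mono le_rfl (norm_EE _)) ((cv_pt (as_EE e.2) 0).mono le_rfl (norm_EE _)))
  obtain ⟨x0, y0⟩ := h.tn_nn a
  have a3 := mul_le_mul_of_nonneg_right (h.inv_c k (j := 250) (by norm_num)) (add_nonneg x0 y0)
  have a4 := abs_sub_abs_le_abs_sub (G.rs b J k e f) (qc (d.1 0) (pt (EE e.1)) (pt (EE e.2))).re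
  erw [mul_one, mul_one] at a2
  linarith

variable (hp : G.Pu)
include hp

/-- the response at level zero controls the flow down to the level of a reference direction -/
theorem two (hD : Det T [e]) (lk : l ≤ k) (kJ : k ≤ J) (a : G.Tx b J k N N d f) (N0 : 0 < N)
    (mf : BC f) (s : Sgn (G.N k) T f) (r : G.Rfd T e b J l ρ v g) (ρ0 : 0 < ρ) :
    |G.rs b J 0 e (G.tt f k 0)| ≤ ρ * (10 * (1.01 ^ (k - l) * N)) ∧
      ∀ c, |G.rs b J 0 e (G.tt f k 0)| ≤ ρ * (G.cP l k * c) → ∀ m, l ≤ m → m ≤ k →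
        G.Tx b J m (G.cP m k * (4 * N + 3000 * c)) (G.cP m k * (4 * N + 3000 * c))
          (G.tc b J k d m) (G.tt f k m) := by
  have lJ := lk.trans kJ
  have K := fun m h1 h2 => h.kill t hp (m := m) hD kJ lk a N0 mf.1 s
    (abs_nonneg (G.rs b J l e (G.tt f k l))) (fun _ he => by rw [List.mem_singleton.1 he]) h1 h2
  obtain ⟨α, hα⟩ : ∃ α, G.rs b J 0 e (G.tt f k 0) = α * (ρ * G.rs b J l e g) :=
    ⟨_, (div_mul_cancel₀ _ (mul_ne_zero ρ0.ne' r.ne)).symm⟩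
  have a1 := h.tn_sub (α := α) (K l le_rfl lk) r.tx (h.om0 _).le (h.f_ne t l 1)
  have p := mul_pos (h.cP0 l k) N0
  have p1 := mul_le_mul_of_nonneg_right (h.cP1 l k) N0.le
  have bf := tt_bc (G := G) mf lk
  have sb : ∀ j f g, G.rs b J j e (fun U => f U - α * g U) = G.rs b J j e f - α * G.rs b J j e g :=
    fun j f g => by simp only [rs, lg_sub, rsp]; ring
  have a2 := h.rs_le t (e := e) lJ (h.kill t hp hD lJ l.zero_le a1 (by positivity)
    (bf.1.sub (r.bc.1.const_mul _)) ((h.sgn_tt mf.1 s lk).sub r.sgn α) le_rfl (fun _ he => by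
      rw [List.mem_singleton.1 he, tt_sub bf r.bc _ l.zero_le, tt_tt lk _ l.zero_le, sb, hα, r.eq,
        sub_self, abs_zero]) l.zero_le le_rfl)
  have a3 := h.rs_le t (e := e) lJ (h.tw_grow t hp kJ a N0 l lk)
  rw [tt_top, sb, cP_top] at a2
  rw [hα, abs_mul, abs_mul, abs_of_pos ρ0, mul_left_comm]
  have a4 := abs_sub_abs_le_abs_sub (G.rs b J l e (G.tt f k l)) (α * G.rs b J l e g)
  have a5 := abs_sub_abs_le_abs_sub (α * G.rs b J l e g) (G.rs b J l e (G.tt f k l))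
  rw [abs_sub_comm] at a5
  rw [abs_mul] at a4 a5
  simp only [Nat.sub_self, pow_zero, mul_one, mul_zero, zero_mul, add_zero, one_mul,
    mul_left_comm |α|] at a2
  have w := mul_le_mul_of_nonneg_right (one_le_pow₀ (n := k - l) (show (1 : ℝ) ≤ 1.01 by norm_num))
    N0.le
  have z0 := mul_nonneg (abs_nonneg α) (abs_nonneg (G.rs b J l e g))
  have r0 := abs_nonneg (G.rs b J l e (G.tt f k l))
  refine ⟨mul_le_mul_of_nonneg_left (by linarith) ρ0.le, fun c hc m h1 h2 => ?_⟩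
  have c1 := le_of_mul_le_mul_left hc ρ0
  have c2 := h.cP_gr2 h1 h2
  have c0 : 0 ≤ c := nonneg_of_mul_nonneg_right (z0.trans c1) (h.cP0 l k)
  have c3 : |G.rs b J l e (G.tt f k l)| * 1.01 ^ (m - l) ≤ G.cP m k * (0.004 * N + 4 * c) :=
    calc _ ≤ G.cP l k * (0.004 * N + 4 * c) * 1.01 ^ (m - l) :=
          mul_le_mul_of_nonneg_right (by linarith) (by positivity)
      _ = 1.01 ^ (m - l) * G.cP l k * (0.004 * N + 4 * c) := by ring
      _ ≤ _ := mul_le_mul_of_nonneg_right c2 (by positivity)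
  have q := mul_pos (h.cP0 m k) N0
  have q' := mul_nonneg (h.cP0 m k).le c0
  exact h.tn_mono (K m h1 h2) (h.om0 _).le (by linarith) (by linarith)

theorem ds_ref [NeZero (G.N J)] [NeZero n'] {P : Grd} {κ : Type} [Fintype κ] [DecidableEq κ]
    [Inhabited κ] {B : Cfg (G.N J) → ℝ} (K : G.Gk J k n' P κ a c C) (H : G.Rw b J k P κ a c C B N)
    (hD : Det T [e]) (hT : ∀ i, ∃ χ, (.inr i, χ) ∈ T)
    (s : ∀ g ∈ T, ∀ U, B (Ob.cg g.1 U) = sb g.2 * B U) (lk : l ≤ k) (r : G.Rfd T e b J l ρ v g)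
    (ρ0 : 0 < ρ) : |G.ms b J e (smr n' P.s B 1)| ≤ ρ * (10 * (1.01 ^ (k - l) * N)) ∧
      ∀ x μ, 0 ≤ x → |G.ms b J e (smr n' P.s B 1)| ≤ ρ * (G.cP l k * x) →
        |μ| * G.cP (l + 1) k * (4 * N + 3000 * x) * G.Q k ^ 7 ≤ 1 →
          G.Ds2 b J k l n' P κ a c C (fun U => μ * B U) 0 := by
  obtain ⟨α, i, Λ, W, hN, u⟩ := H
  obtain rfl : Λ.ob (Fi.tr haar) b = B := funext u
  have : (Fi.tr haar).IsHaarMeasure := (inferInstance : haar.IsHaarMeasure)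
  obtain ⟨m1, m2⟩ := h.sgn_smr (b := b) K (cont_wob Λ) s
  obtain ⟨a1, a2⟩ := h.two t hp hD lk K.lt.le (h.tx_g t hp K W hN) hN.1 m1 m2 r ρ0
  rw [tt_tt K.lt.le _ (Nat.zero_le _)] at a1 a2
  refine ⟨a1, fun x μ x0 hx hμ L => ?_⟩
  obtain ⟨χ, c1, c2⟩ := sgn_list hT s L
  have N0 := hN.1
  exact ⟨α, i, Λ, μ * χ, W, ⟨4 * N + 3000 * x, ⟨by linarith, hN.2.trans (mul_le_mul_of_nonneg_right
    (by linarith) (pow_pos (h.sg0 _) _).le)⟩, rfl, by rwa [abs_mul, c1, mul_one],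
    fun m h1 h2 => (a2 x hx m h1 h2).sz⟩, fun U => by rw [mul_assoc, ← c2]⟩

omit t hp in
theorem eta_le {n : ℕ} {θ z Y : ℝ} (lk : l ≤ k) (m1 : 1 ≤ m) (θ0 : 0 < θ) (z0 : 0 ≤ z)
    (hz : z ≤ G.Q l * G.bb l) (hY : G.Q k ≤ Y) (hc : G.cP (l + 1) k * Y ^ (n + m + 1208) ≤ θ) :
    z ^ m * (G.cP (l + 1) k * (4 * (16 * (G.Q k ^ n * G.bb k / G.bb k ^ m)) + 3000 *
      (θ * (G.bb l / G.bb l ^ m) / Y ^ (n + m + 1208) / G.cP (l + 1) k)) * G.Q k ^ 7 / G.sg l) ≤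
        2 * θ := by
  obtain ⟨m, rfl⟩ := Nat.exists_eq_add_of_le' m1
  have q0 := h.Q0 l
  have q1 := (h.Q_mono lk).trans hY
  have q2 := h.Q0 k
  have b0 := h.b0 l
  have b1 := h.b_mono lk
  have b3 := h.b0 k
  have c0 := h.cP0 (l + 1) k
  have c := (h.cQ k (C := 3000) (by norm_num)).trans hY
  have Y0 : 0 < Y := by linarith
  calc _ = z ^ (m + 1) * G.Q l ^ 1200 * G.Q k ^ 7 / G.bb l * (G.cP (l + 1) k * (64 * G.Q k ^ n /
        G.bb k ^ m) + 3000 * θ / Y ^ (n + (m + 1) + 1208) / G.bb l ^ m) := by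
        rw [sg]; field_simp; ring
    _ ≤ (Y * G.bb l) ^ (m + 1) * Y ^ 1200 * Y ^ 7 / G.bb l * (G.cP (l + 1) k * (Y * Y ^ n /
        G.bb l ^ m) + Y * θ / Y ^ (n + (m + 1) + 1208) / G.bb l ^ m) := by
        gcongr
        · exact hz.trans (by gcongr)
        · linarith
    _ = G.cP (l + 1) k * Y ^ (n + (m + 1) + 1208) + θ / Y ^ n := by field_simp; ring
    _ ≤ _ := by linarith [div_le_self θ0.le (one_le_pow₀ (show 1 ≤ Y by linarith) (n := n))]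

end Pool.Agent.Lib.MP_7f377f_mp.RG.Q4.En.Gl.Ok

namespace Pool.Agent.Lib.MP_7f377f_mp.RG.Q4.En.Gl

open Filter Topology Real YM7 Pur Ob Ty
open Ope (sc)

/-- the logarithm of `|y|` is within `b` of `a` -/
def Bt (a b y : ℝ) : Prop := exp (a - b) ≤ |y| ∧ |y| ≤ exp (a + b)

theorem bt_num {u L z t s ε : ℝ} {n : ℕ} (u0 : 0 ≤ u) (ε0 : 0 < ε) (h1 : |L - z| ≤ 2 * u)
    (h2 : (n + 1 + 2 * |s| + ε) * u ≤ ε / 3 * z) (h3 : -t ≤ ε / 3 * z) :
    s * z - ε * z ≤ (s - ε / 3) * L + t - (n + 1) * u ∧ (s + ε / 3) * L + n * u ≤ s * z + ε * z := by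
  have a := abs_le.1 ((abs_mul s (L - z)).trans_le (mul_le_mul_of_nonneg_left h1 (abs_nonneg s)))
  have b := mul_le_mul_of_nonneg_left (abs_le.1 h1).2 ε0.le
  have c := mul_nonneg ε0.le u0
  have d : 0 ≤ (n + 1 + 2 * |s| + ε) * u := by positivity
  constructor <;> nlinarith

variable {G : Gl} {β : ℕ × ℕ → ℝ} {U : Ultrafilter (ℕ × ℕ)} {S : Pol →ₗ[ℂ] ℂ} {X : ℝ → ℝ}
  {Λ δ γ κ ε : ℝ} {m : ℕ} {T : Ty} {x : Pl × Pl} {A : ℕ → Pol} {f : Fin 2 → R4 → ℝ}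

theorem Lm.mu0 (o : G.Lm β U S) (h : G.Ok) (hT : Ope.TsN S X)
    (hX : ∀ᶠ d in 𝓝[>] (0 : ℝ), X d ≤ log d⁻¹)
    (hq : ∀ q, ∀ᶠ d in 𝓝[>] (0 : ℝ), ∀ l, d * 3 ^ G.e l ≤ G.Q l ^ q → G.Q l ^ q ≤ X d)
    (r : G.Ref T x γ) (hD : Det T [x]) (hs : ∀ i, ∃ χ, (.inr i, χ) ∈ T) (Λ1 : 1 ≤ Λ) (δ0 : 0 < δ)
    (m1 : 1 ≤ m) (a : ∀ e, Cm.Wo m Λ δ (A e)) (ty : ∀ e, Cm.Typ T (A e)) (hf : Adm f) (κ0 : 0 < κ)
    (lo : ∀ W, Cm.Wnd W → Cm.Tsc S W → ∀ᶠ D in 𝓝[>] (0 : ℝ), ∀ r, W D r → ∀ᶠ e in atTop,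
      κ ≤ (log D⁻¹ ^ m) ^ 2 * ‖S (∏ i, Ope.ctr S (Cm.Yl (A e) (D / r) e (sc D (f i))))‖) (ε0 : 0 < ε) :
    ∀ᶠ d in 𝓝[>] (0 : ℝ), ∀ᶠ e in atTop, ∀ᶠ p in U, Bt ((1 - m - γ) * log (log d⁻¹))
      (ε * log (log d⁻¹)) (G.mp e β p x (Aw d e (A e))) := by
  have : (Fi.tr haar).IsHaarMeasure := (inferInstance : haar.IsHaarMeasure)
  obtain ⟨c, n, C, H⟩ := o.ok.mrg m (Λ := 2 * Λ) (by linarith) (half_pos δ0)
  obtain ⟨d₀, (d1 : 0 < d₀), H⟩ := (mem_nhdsGT_iff_exists_Ioo_subset).1 (H _ (.of_forall fun _ => trivial))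
  obtain ⟨j, hj⟩ := exists_nat_ge ((2 + 2 * |1 - m - γ| + ε) / (ε / 3))
  obtain ⟨q, hn⟩ := h.num ((n + m + 1208) * (j + 1))
  obtain ⟨W, -, w1, w2, w3, w4, -, -⟩ := h.wnd hX hq q
  obtain ⟨K, K0, hc⟩ := o.clu2 hf
  obtain ⟨θ, θ0, θ1, θ2⟩ : ∃ θ : ℝ, 0 < θ ∧ θ ≤ 1 ∧ K * θ ≤ κ / 8 :=
    ⟨min 1 (κ / 8 / K), by positivity, min_le_left _ _, (le_div_iff₀' K0).1 (min_le_right _ _)⟩
  obtain ⟨Φ, τ, S₀, hΦ, -, hL⟩ := o.lim
  suffices e : ∀ᶠ D in 𝓝[>] (0 : ℝ), ∀ r, W D r → ∀ᶠ e in atTop, ∀ᶠ p in U, Bt ((1 - m - γ) *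
      log (log (D / r)⁻¹)) (ε * log (log (D / r)⁻¹)) (G.mp e β p x (Aw (D / r) e (A e))) by
    obtain ⟨u, u0, hu⟩ := mem_nhdsGT_iff_exists_Ioo_subset.1 e
    filter_upwards [w1.cov u u0, self_mem_nhdsWithin] with d ⟨r, r0, r1, r2⟩ (d0 : 0 < d)
    simpa only [mul_div_cancel_left₀ d r0.ne'] using hu ⟨by positivity, r1⟩ r r2
  filter_upwards [hc _ (hn.and (h.ev_log.and (r (ε / 3) (by positivity)))), lo W w1
    (Cm.tsc_of hT hX w1.top (.of_forall w2)), w4, w1.top 1, w1.top (θ⁻¹ ^ 50),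
    Ioo_mem_nhdsGT (lt_min d1 one_pos), ((tendsto_log_atTop.comp (tendsto_log_atTop.comp
      tendsto_inv_nhdsGT_zero)).const_mul_atTop (show 0 < ε / 3 by positivity)).eventually_ge_atTop
        (-log θ)] with D ⟨l, ⟨p1, p2, p3⟩, l1, l2, hc⟩ lo w4 r1 r2 ⟨D0, D1⟩ t1 r hr
  have r0 := r1 r hr
  have w5 := w4 r hr
  obtain ⟨d, hd⟩ : ∃ d, D = r * d := ⟨D / r, by field_simp⟩
  have hd' : D / r = d := by rw [hd]; field_simp
  have lo := lo r hr
  rw [hd'] at lo ⊢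
  have d0 : 0 < d := hd' ▸ by positivity
  have d2 : d ≤ D := hd ▸ le_mul_of_one_le_left d0.le r0
  obtain ⟨k, -, hk⟩ := H ⟨d0, d2.trans_lt (D1.trans_le (min_le_left _ _))⟩
  obtain ⟨n1, n2, n3, n4⟩ := p1 k d D d0 hk.2.1 hk.2.2.1 l1 l2
    ((mul_le_mul_of_nonneg_right (w3 D r hr l l1 l2) d0.le).trans hd.ge)
  obtain ⟨Y, hY⟩ : ∃ Y, Y = 1.01 ^ (k - l) * G.Q k := ⟨_, rfl⟩
  have g1 : (1 : ℝ) ≤ 1.01 ^ (k - l) := one_le_pow₀ (by norm_num)
  have qk := h.cQ k (C := 160) (by norm_num)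
  have y1 : G.Q k ≤ Y := hY ▸ le_mul_of_one_le_left (h.Q0 k).le g1
  have y2 := (h.Q_mono n1.le).trans y1
  have Y1 : 1 ≤ Y := by linarith only [qk, y1]
  have Y0 := one_pos.trans_le Y1
  rw [← hY, show D / d = r by rw [hd]; field_simp] at n3
  rw [← hY, show d / D = r⁻¹ by rw [hd]; field_simp] at n4
  have c0 := h.cP0 (l + 1) k
  have n5 : G.cP (l + 1) k * Y ^ (n + m + 1208) ≤ θ := by
    refine (mul_le_mul_of_nonneg_left (pow_le_pow_right₀ Y1 (Nat.le_mul_of_pos_right _ j.succ_pos))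
      c0.le).trans (n4.trans ?_)
    rw [rpow_inv_le_iff_of_pos (by positivity) θ0.le (by norm_num), rpow_ofNat]
    exact inv_le_of_inv_le₀ (by positivity) (by simpa using r2 r hr)
  have x0 : 0 ≤ log D⁻¹ := by linarith only [w5, r0]
  have x1 : log D⁻¹ ≤ G.Q l * G.bb l :=
    (log_le_log (inv_pos.2 D0) ((inv_le_iff_one_le_mul₀' D0).2 l1)).trans p2
  have x2 : log d⁻¹ = log D⁻¹ + log r := by
    rw [← log_mul (by positivity) (by positivity), hd]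
    congr 1
    field_simp
  have x3 := log_nonneg r0
  have x4 := log_le_self (zero_le_one.trans r0)
  have x6 : 0 < log d⁻¹ := by linarith only [x2, x3, w5, r0]
  have b0 := h.b0 l
  have Y2 : Y ≤ r := (le_self_pow₀ Y1 (by positivity)).trans n3
  have x5 : G.bb l ≤ 2 * log D⁻¹ := by
    have e1 := log_le_log (by positivity) ((le_inv_mul_iff₀ D0).2 l2)
    rw [log_pow, log_mul (by positivity) (h.Q0 l).ne'] at e1
    have e2 : (1 : ℝ) ≤ log 3 := (le_log_iff_exp_le three_pos).2 (exp_one_lt_d9.le.trans (by norm_num))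
    linarith only [(h.sch.cmp l).2, log_le_self (h.Q0 l).le, e1, y2, Y2, w5, r0,
      mul_le_mul_of_nonneg_left e2 ((G.e l).cast_nonneg (α := ℝ))]
  have u0 := log_nonneg Y1
  have u1 : |log (G.bb l) - log (log d⁻¹)| ≤ 2 * log Y := by
    have e1 := log_le_log b0 (show G.bb l ≤ Y ^ 2 * log d⁻¹ by
      linarith only [x5, x2, x3, mul_le_mul_of_nonneg_right (show 2 ≤ Y ^ 2 by
        nlinarith only [qk, y1]) x6.le])
    have e2 := log_le_log x6 (show log d⁻¹ ≤ Y ^ 2 * G.bb l by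
      linarith only [mul_le_mul_of_nonneg_right y2 b0.le, x1, x2, x4, w5, r0,
        mul_le_mul_of_nonneg_right (show 2 ≤ Y by linarith only [qk, y1]) (mul_pos Y0 b0).le])
    rw [log_mul (by positivity) (by positivity), log_pow] at e1 e2
    push_cast at e1 e2
    exact abs_le.2 ⟨by linarith only [e2], by linarith only [e1]⟩
  have u2 : log (log D⁻¹) ≤ log (log d⁻¹) :=
    log_le_log (by linarith only [w5, r0]) (by linarith only [x2, x3])
  obtain ⟨v1, v2⟩ := bt_num (n := n + m + 1208) (s := 1 - m - γ) (t := log θ) u0 ε0 u1 (by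
    have e1 := log_le_log (by positivity) (show _ ≤ log d⁻¹ from n3.trans (by linarith only [x2, x3, w5, r0]))
    rw [log_pow, Nat.cast_mul] at e1
    rw [div_le_iff₀ (by positivity)] at hj
    have e2 : (1 : ℝ) ≤ (n + m + 1208 : ℕ) := Nat.one_le_cast.2 (by omega)
    refine le_trans (mul_le_mul_of_nonneg_right ?_ u0) ((mul_assoc _ _ _).trans_le
      (mul_le_mul_of_nonneg_left e1 (by positivity)))
    generalize ((n + m + 1208 : ℕ) : ℝ) = y at *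
    push_cast
    linarith only [mul_le_mul_of_nonneg_left hj (zero_le_one.trans e2), mul_pos ε0 (one_pos.trans_le e2),
      mul_le_mul_of_nonneg_right e2 (show 0 ≤ 1 + 2 * |1 - m - γ| + ε by positivity)])
    (t1.trans (mul_le_mul_of_nonneg_left u2 (by positivity)))
  have eb : G.bb l / G.bb l ^ m = exp ((1 - m) * log (G.bb l)) := by
    rw [sub_mul, exp_sub, exp_nat_mul, one_mul, exp_log b0]
  have ey : ∀ i : ℕ, Y ^ i = exp (i * log Y) := fun i => by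
    rw [exp_nat_mul, exp_log Y0]
  filter_upwards [hc _ d k hk n1 n2, eventually_ge_atTop (G.e k), lo] with e a1 a2 a3
  have wb := wb_aw (e := e) (a e) d0 ⟨half_le_self d0.le, le_rfl⟩
  have key := fun p P (M : G.Mp k ⟨m, 2 * Λ, δ / 2, c, n, C⟩ d e p (β p) P) =>
    (p3 p.1 (β p) p.2 (o.tu p) (n1.trans M.gk.lt).le).imp fun ρ ⟨_, _, e1, e2, e3⟩ =>
      And.intro (And.intro e1 e2) ((o.ok p.1).1.ds_ref (o.tu p) (o.ok p.1).2 M.gk
        (M.rep m _ 16 m1 m.le_succ (by norm_num) wb) hD hs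
        (evr_typ ((o.ok p.1).1.N_odd p.2) (typ_aw (ty e))) n1.le e3 e1)
  refine Eventually.and ?_ ?_
  · by_contra z
    obtain ⟨z₀, hz⟩ : ∃ z₀, z₀ = θ * (G.bb l / G.bb l ^ m) / Y ^ (n + m + 1208) / G.cP (l + 1) k :=
      ⟨_, rfl⟩
    have z0 : 0 ≤ z₀ := by rw [hz]; positivity
    obtain ⟨η, hη⟩ : ∃ η, η = G.cP (l + 1) k * (4 * (16 * G.nw k ⟨m, 2 * Λ, δ / 2, c, n, C⟩ m) +
      3000 * z₀) * G.Q k ^ 7 := ⟨_, rfl⟩
    have η0 : 0 < η := by
      have := o.nw0 (k := k) (w := ⟨m, 2 * Λ, δ / 2, c, n, C⟩) m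
      rw [hη]
      positivity
    have s := o.st.bound (a1 (fun _ => Aw d e (A e)) (fun _ => 0) (fun _ => η) fun _ =>
      ⟨η0, fun _ => _, fun _ => 0, .base (wb.mem d0).1, fun _ => (wb.mem d0).2, tendsto_const_nhds,
        (Ultrafilter.eventually_not.2 z).mono fun p hp P M => by
          obtain ⟨ρ, ⟨e1, e2⟩, -, e3⟩ := key p P M
          rw [mul_zero]
          refine e3 z₀ _ z0 ?_ (Lm.inv_le η0 hη.ge)
          rw [M.hs]
          refine (not_le.1 hp).le.trans ((exp_le_exp.2 v1).trans ?_)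
          have e4 := h.pw_cP (i := l + 1) l l.le_succ
          rw [h.rt_step l.lt_succ_self, rt_top, cP_step l.lt_succ_self, cP_top] at e4
          push_cast at e4
          simp only [Nat.add_sub_cancel_left, pow_one, mul_one] at e4
          have e5 : Y⁻¹ ≤ 2 * G.cr l := by
            rw [inv_le_iff_one_le_mul₀' Y0]
            linarith only [e4, mul_le_mul_of_nonneg_right ((h.LQ l).trans y2) (h.cr0 l).le]
          calc _ ≤ exp (log ρ) * (Y⁻¹ * (exp (log θ) * (G.bb l / G.bb l ^ m) /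
                Y ^ (n + m + 1208))) := by
                rw [eb, ey, ← exp_log Y0, log_exp, ← exp_neg, ← exp_add,
                  ← exp_sub, ← exp_add, ← exp_add, exp_le_exp]
                linarith only [(abs_le.1 e2).1]
            _ ≤ ρ * (2 * G.cr l * (θ * (G.bb l / G.bb l ^ m) / Y ^ (n + m + 1208))) := by
                rw [exp_log e1, exp_log θ0]
                gcongr
            _ = _ := by
                change _ = ρ * (G.cP l k * z₀)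
                rw [cP_step n1, hz]
                field_simp⟩).1
    have y : ∀ g, Cm.Yl (A e) d e g = yy e (Aw d e (A e)) 0 g := fun g => by
      rw [yy, Complex.ofReal_zero, zero_smul, add_zero, yl_smp]
      rfl
    simp only [y] at a3
    have b := pow_le_pow_left₀ (by have := h.sg0 l; positivity)
      (show log D⁻¹ ^ m * (η / G.sg l) ≤ _ from hη ▸ hz ▸ h.eta_le n1.le m1 θ0 x0 x1 y1 n5) 2
    rw [Finset.prod_const, Finset.card_fin] at s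
    have := mul_le_mul_of_nonneg_left s (sq_nonneg (log D⁻¹ ^ m))
    linarith only [mul_le_mul_of_nonneg_left b K0.le, this, a3, θ2, κ0,
      mul_le_mul_of_nonneg_left θ1 (mul_pos K0 θ0).le]
  · filter_upwards [(hL.le.trans hΦ) (hk.2.2.2.2.2 e a2)] with p hp
    obtain ⟨P, M⟩ := hp _ (o.tu p)
    obtain ⟨ρ, ⟨e1, e2⟩, e3, -⟩ := key p P M
    rw [M.hs] at e3
    refine le_trans e3 (le_trans ?_ (exp_le_exp.2 v2))
    obtain ⟨m, rfl⟩ := Nat.exists_eq_add_of_le' m1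
    have b1 := h.b_mono n1.le
    have b2 := h.b0 k
    calc _ = ρ * (160 * (1.01 ^ (k - l) * G.Q k ^ n) / G.bb k ^ m) := by rw [nw]; field_simp; ring
      _ ≤ ρ * (Y * (Y * Y ^ n) / G.bb l ^ m) := by
          gcongr
          · linarith only [qk, y1]
          · exact hY ▸ le_mul_of_one_le_right (by positivity) (h.Q1 k)
      _ = exp (log ρ) * (Y ^ (n + 2) * (G.bb l / G.bb l ^ (m + 1))) := by
          rw [exp_log e1]; field_simp; ring
      _ ≤ _ := by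
          rw [eb, ey, ← exp_add, ← exp_add, exp_le_exp]
          push_cast
          linarith only [(abs_le.1 e2).2, u0, mul_nonneg (m.cast_nonneg (α := ℝ)) u0]

end Pool.Agent.Lib.MP_7f377f_mp.RG.Q4.En.Gl
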