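import Pool.Agent.Lib.MP_7f377f_mp.G.S18
import Pool.Agent.Lib.MP_7f377f_mp.G.S21E2

/-! The exponents of the normalisation of the composite fields. -/

noncomputable section

namespace Pool.Agent.Lib.MP_7f377f_mp.Cm
variable [Pool.Agent.Lib.MP_7f377f_mp.GD]
set_option linter.unusedSectionVars false

open MeasureTheory Filter Topology Set Real YM7 Pur MvPolynomial Lg
open Ope (Let gp sc ctr)
open Ro (Iso act)
open Lb (Lab Pl Cl rho mx ip pc frL freeL Sep)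
open RG.Q4.En.Ty (Gn Ty sb Det)
open RG.Q4.En.Gl (Bt)

theorem bt_lim {ι : Type} (U : Ultrafilter ι) {a b : ℝ} {u : ι → ℝ} (h : ∀ᶠ p in U, Bt a b (u p)) :
    Tendsto u U (𝓝 (limUnder U u)) ∧ Bt a b (limUnder U u) :=
  have t := tendsto_nhds_limUnder (Ob.ex_lim U (h.mono fun _ e => e.2))
  ⟨t, ge_of_tendsto t.abs (h.mono fun _ e => e.1), le_of_tendsto t.abs (h.mono fun _ e => e.2)⟩

theorem lam_law {ι : Type} (U : Ultrafilter ι) {y : ℕ → ℕ → ι → ℝ} {c : ℕ → ℕ → Bool → ℝ}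
    {g : ℕ → Bool → ℝ} {x z : ℕ → ℝ} {s : ℝ} (hz : Tendsto z atTop atTop)
    (h1 : ∀ ε > 0, ∀ᶠ n in atTop, ∀ᶠ e in atTop, ∀ᶠ p in U, Bt (s * z n) (ε * z n) (y n e p))
    (h2 : ∀ n e, ∃ γ γ' : ι → ℝ, Tendsto γ U (𝓝 (c n e false)) ∧ Tendsto γ' U (𝓝 (c n e true)) ∧
      ∀ p, γ p * y n e p + γ' p * y (n + 1) e p = 0)
    (h3 : ∀ n b, Tendsto (c n · b) UU (𝓝 (g n b)))
    (h4 : ∀ᶠ n in atTop, x (n + 1) * g n false = -(x n * g n true) ∧ g n false ≠ 0)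
    (p : ∀ n, 0 < x n) : Tendsto (fun n => log (x n) / z n) atTop (𝓝 (-s)) := by
  obtain ⟨μ, hμ⟩ : ∃ μ : ℕ → ℕ → ℝ, ∀ n e, μ n e = limUnder U (y n e) := ⟨_, fun _ _ => rfl⟩
  obtain ⟨ν, hν⟩ : ∃ ν : ℕ → ℝ, ∀ n, ν n = limUnder (hyperfilter ℕ) (μ n) := ⟨_, fun _ => rfl⟩
  have k1 : ∀ ε > 0, ∀ᶠ n in atTop, (∀ᶠ e in UU, Tendsto (y n e) U (𝓝 (μ n e))) ∧
      Tendsto (μ n) UU (𝓝 (ν n)) ∧ Bt (s * z n) (ε * z n) (ν n) := fun ε ε0 =>
    (h1 ε ε0).mono fun n e => ⟨UU_le (e.mono fun e u => hμ n e ▸ (bt_lim U u).1),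
      hν n ▸ bt_lim _ (UU_le (e.mono fun e u => hμ n e ▸ (bt_lim U u).2))⟩
  obtain ⟨n₀, k2⟩ := eventually_atTop.1 ((k1 1 one_pos).and h4)
  have k3 : ∀ n ≥ n₀, x n * ν n = x n₀ * ν n₀ := Nat.le_induction rfl fun n hn ih => by
    obtain ⟨⟨a1, a2, -⟩, a3, a4⟩ := k2 n hn
    obtain ⟨⟨b1, b2, -⟩, -⟩ := k2 (n + 1) (hn.trans n.le_succ)
    have := tendsto_nhds_unique_of_eventuallyEq (((h3 n false).mul a2).add ((h3 n true).mul b2))
      tendsto_const_nhds ((a1.and b1).mono fun e u =>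
        let ⟨_, _, t, t', v⟩ := h2 n e
        tendsto_nhds_unique ((t.mul u.1).add (t'.mul u.2)) (tendsto_const_nhds.congr fun p => (v p).symm))
    rw [← ih]
    exact mul_left_cancel₀ a4 (by linear_combination ν (n + 1) * a3 - x n * this)
  refine Metric.tendsto_nhds.2 fun ε ε0 => ?_
  filter_upwards [k1 (ε / 3) (by positivity), eventually_ge_atTop n₀, hz.eventually_gt_atTop 0,
    (hz.const_mul_atTop (show 0 < ε / 3 by positivity)).eventually_ge_atTop |log (x n₀ * ν n₀)|]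
    with n ⟨_, _, a1, a2⟩ hn z0 a3
  have n0 := (exp_pos _).trans_le a1
  rw [← k3 n hn, log_mul (p n).ne' (abs_pos.1 n0), abs_le] at a3
  rw [← le_log_iff_exp_le n0, log_abs] at a1
  rw [← log_le_iff_le_exp n0, log_abs] at a2
  rw [Real.dist_eq, sub_neg_eq_add, div_add' _ _ _ z0.ne', abs_div, abs_of_pos z0, div_lt_iff₀ z0, abs_lt]
  constructor <;> linarith [mul_pos ε0 z0]

theorem near_log {z : ℂ} (h : z ≠ 0) : ∀ᶠ w in 𝓝 z, w ≠ 0 ∧ |log ‖w‖ - log ‖z‖| ≤ 1 := by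
  have t : Tendsto (fun w : ℂ => log ‖w‖) (𝓝 z) (𝓝 (log ‖z‖)) :=
    (continuous_norm.tendsto z).log (norm_ne_zero_iff.2 h)
  filter_upwards [eventually_ne_nhds h, Metric.tendsto_nhds.1 t 1 one_pos] with w a b
  rw [Real.dist_eq] at b
  exact ⟨a, b.le⟩

variable {S : Pol →ₗ[ℂ] ℂ} {K Λ δ a : ℝ} {h : R4 → ℝ} {ω : ∀ l : Cl, (Fin l.m → R4) → Lab ℝ}
  {Tp : Type} [Fintype Tp] {cl : Tp → Cl} {ref : Tp → Lab ℝ} {T : Tp → Ty} {β : Cl → Tp}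
  {Kl : ℝ → ℝ → ℕ → Sl → Prop} {A : Tp → Equiv.Perm (Fin 4) → ℕ → Pol}
  {γ : Tp → ℕ → ℕ → Bool → ℝ} {g : Tp → ℕ → Bool → ℝ}

variable (hS : Sf S K) (H : Dat (GD.d / 2) h ω Λ δ) (Y : Tys cl ref (GD.d / 2) T β)

include H Y in
theorem slots2 {R : Tp → ℝ → ℝ → ℕ → Pol → ℝ → ℝ → Prop} (I : Kin S 5 Λ δ a Kl)
    (ex : ∀ τ A, Wo (cl τ).m Λ δ A → Typ (T τ) A → ∀ d d' e, ∃ c c', |c| + |c'| = 1 ∧
      Kl d d' e ⟨(cl τ).m, A, A, c, c'⟩ ∧ R τ d d' e A c c') :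
    ∃ A γ g, Sq cl ref h ω S Λ δ Kl A γ g ∧ ∀ τ, ∃ C > (0 : ℝ), ∀ e,
      Wo (cl τ).m Λ δ (((C⁻¹ : ℝ) : ℂ) • Zc h ω (cl τ) e (cx (ref τ))) ∧ ∀ n, R τ (dn n) (dn (n + 1)) e
        (((C⁻¹ : ℝ) : ℂ) • Zc h ω (cl τ) e (cx (ref τ))) (γ τ n e false) (γ τ n e true) := by
  choose C C0 hC using fun τ => Zc_wo H (cl τ) (ref τ)
  choose c c' n1 k r using fun τ n e => ex τ _ (hC τ e) (Zc_typ H Y τ e _) (dn n) (dn (n + 1)) e
  have bd : ∀ τ n (b : Bool), ∃ y, Tendsto (fun e => cond b (c' τ n e) (c τ n e)) UU (𝓝 y) :=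
    fun τ n b => by
      obtain ⟨y, -, hy⟩ := (isCompact_Icc (a := (-1 : ℝ)) (b := 1)).ultrafilter_le_nhds
        ((hyperfilter ℕ).map fun e => cond b (c' τ n e) (c τ n e)) (le_principal_iff.2
          (mem_map.2 (univ_mem' fun e => abs_le.1 (by
            cases b <;> simp only [cond] <;>
              linarith [n1 τ n e, abs_nonneg (c τ n e), abs_nonneg (c' τ n e)]))))
      exact ⟨y, hy⟩
  choose g hg using bd
  refine ⟨fun τ σ e => act (Ro.prm σ) _, fun τ n e b => cond b (c' τ n e) (c τ n e), g,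
    ⟨fun τ σ e => (hC τ e).act (.inl σ), fun τ σ n e => I.cov _ _ _ _ σ (ok_of (hC τ e) (n1 τ n e).le)
      (k τ n e), n1, hg, fun τ => ⟨_, fun _ _ => rfl⟩, fun τ x hx => ?_⟩,
    fun τ => ⟨C τ, C0 τ, fun e => ⟨hC τ e, fun n => r τ n e⟩⟩⟩
  obtain ⟨t, rfl⟩ := Vs_eq hx
  refine ⟨fun σ => t σ * C τ, fun n e v f hf => ?_⟩
  have L : ∀ d, ∃ L : Lab ℝ →ₗ[ℝ] Pol, ∀ x, L x = Yc h ω S (cl τ) d e (cx x) f := fun d => by
    have := Yc_linc H hf (S := S) (l := cl τ) (d := d) (e := e)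
    have z : Yc h ω S (cl τ) d e 0 f = 0 := by simpa using this (-1) 0 0
    exact ⟨IsLinearMap.mk' (fun x => Yc h ω S (cl τ) d e (cx x) f) ⟨fun x y => by simpa [cx_add] using this 1 (cx x) (cx y), fun s x => by
      simpa [cx_smul, z] using this s (cx x) 0⟩, fun _ => rfl⟩
  choose L hL using L
  have e1 : ∀ σ d, ctr S (Yl (act (Ro.prm σ) ((((C τ)⁻¹ : ℝ) : ℂ) • Zc h ω (cl τ) e (cx (ref τ)))) d e f) =
      (C τ)⁻¹ • L d (rho (mx (Ro.prm σ)) (ref τ)) := fun σ d => by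
    rw [map_smul, Yl_smul hf, ctr_smul, hL, ← rE_cx, Complex.coe_smul]
    exact congrArg (fun Z => _ • ctr S (Yl Z d e f)) (Zc_act H (.inl σ) _)
  simp only [Yw, Sl.Y, ctr_add, ctr_smul, e1]
  simp only [← hL, map_sum, map_smul, Fintype.sum_bool, Complex.coe_smul, Finset.smul_sum, smul_add, smul_smul, ← Finset.sum_add_distrib]
  refine Finset.sum_congr rfl fun σ _ => ?_
  have := (C0 τ).ne'
  rw [add_comm]
  congr 2 <;> field_simp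

include hS H Y in
theorem Sq.lq2 (Q : Sq cl ref h ω S Λ δ Kl A γ g) (I : Kin S 5 Λ δ a Kl) :
    ∃ x t n₁, Lq cl h ω S g x t n₁ ∧ ∀ n ≥ n₁, ∀ τ,
      x τ (n + 1) * g τ n false = -(x τ n * g τ n true) ∧ g τ n false ≠ 0 := by
  choose x p r q using fun τ => qlem (Q.nrm' τ) (Q.zero hS H Y I τ)
  obtain ⟨n₁, q⟩ := eventually_atTop.1 (eventually_all.2 q)
  choose! t t1 t2 t3 t4 using q
  refine ⟨x, t, n₁, ⟨p, r, fun τ n hn e c f => ?_, fun τ n hn => ?_, t4⟩, fun n hn τ =>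
    ⟨by linear_combination g τ n false * t2 n hn τ - g τ n true * t3 n hn τ, fun e => ?_⟩⟩
  · simp only [Yw, Fintype.sum_bool, smul_add, smul_smul, ← Complex.ofReal_mul, ← t2 n hn, ← t3 n hn]
    simp [Yn, sub_eq_add_neg]
  · rw [abs_mul, abs_of_pos (p τ n)]
    exact mul_le_mul_of_nonneg_right (t1 n hn τ) (p τ n).le
  · simpa [e, (p τ n).ne'] using t3 n hn τ

include hS H in
/-- the normalisation is fixed up to bounded factors by the two point function -/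
theorem Aft.cmp {lam : Tp → ℕ → ℝ} {n₀ : ℝ → ℕ} (A : Aft cl ref h ω S lam 2 n₀)
    (p : ∀ τ n, 0 < lam τ n) (τ : Tp) {c : Lab ℝ} (hc : c ∈ Vs (ref τ)) (hl : pc (cl τ) c = c)
    {f : Fin 2 → R4 → ℝ} (hf : Adm f) (ne : frI (fun _ => cx c) f ≠ 0) {K' : ℝ} {L : Cl → ℕ → ℝ}
    {N : Cl → ℝ → ℝ} (R : Res S K' (atTop.curry UU) (Oa h ω S L) N) : ∃ C, ∀ᶠ D in 𝓝[>] (0 : ℝ),
      |log (N (cl τ) D) - ((cl τ).m * log (log D⁻¹) - log (lam τ (n₀ D)))| ≤ C := by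
  obtain ⟨a1, a2⟩ := A.lim hS p le_rfl hf (fun _ => τ) (c := fun _ => c) fun _ => hc
  have a3 := a2.eventually (near_log (mul_ne_zero (gm_ne _) ne))
  obtain ⟨η, η0, hη⟩ := Metric.nhds_basis_closedBall.eventually_iff.1 (near_log ne)
  have hl' : pc (cl τ) (cx c) = cx c := by rw [← cx_pc, hl]
  obtain ⟨Φ, hΦ⟩ : ∃ Φ, Φ = log ‖frI (fun _ => cx c) f‖ := ⟨_, rfl⟩
  have k : ∀ᶠ D in 𝓝[>] (0 : ℝ), ∀ᶠ j in atTop.curry UU, |2 * log (N (cl τ) D) +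
      2 * log (L (cl τ) j.1 / lam τ j.1) + log ‖zz S h ω cl lam (fun _ => τ) (fun _ => c) f D‖ - Φ| ≤ 2 := by
    filter_upwards [a1, a3, R.law 2 (fun _ => cl τ) (fun _ => cx c) f hf (fun _ => hl') η η0]
      with D b1 b2 b3
    filter_upwards [b1.eventually (near_log (right_ne_zero_of_mul b2.1)), b3] with j b4 b5
    have b6 := b5.bound hS.inp.st
    rw [map_sub, map_smul, C_eq_smul_one, map_smul, hS.inp.st.one, smul_eq_mul, smul_eq_mul, mul_one,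
      show S _ = ((L (cl τ) j.1 / lam τ j.1) ^ 2 : ℝ) * S (Pn cl h ω S lam (fun _ => τ) (fun _ => c)
        f D j.1 j.2) by
        have : (lam τ j.1 : ℂ) ≠ 0 := Complex.ofReal_ne_zero.2 (p _ _).ne'
        simp only [Oa_pc H _ _ hl', Pn_eq, Finset.prod_smul, map_smul, smul_eq_mul,
          Finset.prod_const, Finset.card_fin]
        push_cast
        field_simp] at b6
    obtain ⟨b7, b8⟩ := hη (mem_closedBall_iff_norm.2 b6)
    rw [← norm_ne_zero_iff, norm_mul, norm_mul, mul_ne_zero_iff, mul_ne_zero_iff] at b7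
    rw [norm_mul, norm_mul, log_mul b7.1 (mul_ne_zero b7.2.1 b7.2.2), log_mul b7.2.1 b7.2.2, ← hΦ,
      Complex.norm_real, Complex.norm_real, norm_eq_abs, norm_eq_abs, log_abs, log_abs,
      Finset.prod_const, Finset.card_fin, log_pow, log_pow, abs_le] at b8
    have := abs_le.1 b4.2
    push_cast at b8
    exact abs_le.2 ⟨by linarith, by linarith⟩
  obtain ⟨D₁, k1⟩ := k.exists
  obtain ⟨u, hu⟩ : ∃ u, u = 2 * log (N (cl τ) D₁) +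
    log ‖zz S h ω cl lam (fun _ => τ) (fun _ => c) f D₁‖ := ⟨_, rfl⟩
  obtain ⟨v, hv⟩ : ∃ v, v = log ‖((gm ^ ∑ _i : Fin 2, (cl τ).m : ℝ) : ℂ) * frI (fun _ => cx c) f‖ :=
    ⟨_, rfl⟩
  refine ⟨|u| + |v| + 5, ?_⟩
  filter_upwards [k, a3] with D b1 ⟨b2, b3⟩
  obtain ⟨j, b4, b5⟩ := (b1.and k1).exists
  rw [← norm_ne_zero_iff, norm_mul, mul_ne_zero_iff] at b2
  have b6 := b2.1
  rw [Complex.norm_real, norm_ne_zero_iff, div_ne_zero_iff] at b6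
  rw [← hv, norm_mul, log_mul b2.1 b2.2, Complex.norm_real, norm_eq_abs, log_abs,
    log_div b6.1 b6.2, lg, log_pow, Finset.prod_const, log_pow, Finset.sum_const, Finset.card_fin,
    abs_le] at b3
  simp only [smul_eq_mul, Nat.cast_mul, Nat.cast_ofNat] at b3
  rw [abs_le] at b4 b5 ⊢
  constructor <;> linarith [le_abs_self u, neg_abs_le u, le_abs_self v, neg_abs_le v, abs_nonneg u,
    abs_nonneg v]

theorem expo_num {n₀ : ℝ → ℕ} {x : ℕ → ℝ} {N : ℝ → ℝ} {s m C : ℝ} (top : Tendsto n₀ (𝓝[>] 0) atTop)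
    (low : ∀ᶠ D in 𝓝[>] (0 : ℝ), D ^ 2 / 2 ≤ dn (n₀ D)) (up : ∀ᶠ D in 𝓝[>] (0 : ℝ), dn (n₀ D) ≤ D)
    (hx : Tendsto (fun n => log (x n) / log (log (dn n)⁻¹)) atTop (𝓝 s))
    (hN : ∀ᶠ D in 𝓝[>] (0 : ℝ), |log (N D) - (m * log (log D⁻¹) - log (x (n₀ D)))| ≤ C) :
    Tendsto (fun D => log (N D) / log (log D⁻¹)) (𝓝[>] 0) (𝓝 (m - s)) := by
  have t0 := tendsto_log_atTop.comp tendsto_inv_nhdsGT_zero
  have t := tendsto_log_atTop.comp t0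
  have z : ∀ {u : ℝ → ℝ} {C : ℝ}, (∀ᶠ D in 𝓝[>] (0 : ℝ), |u D| ≤ C) →
      Tendsto (fun D => u D / log (log D⁻¹)) (𝓝[>] 0) (𝓝 0) := fun {u C} e =>
    squeeze_zero_norm' ((e.and (t.eventually_gt_atTop 0)).mono fun D a => by
      rw [norm_div, norm_of_nonneg (show 0 ≤ log (log D⁻¹) from a.2.le)]
      exact div_le_div_of_nonneg_right a.1 a.2.le) (t.const_div_atTop C)
  have e : ∀ᶠ D in 𝓝[>] (0 : ℝ), 0 ≤ log (log (dn (n₀ D))⁻¹) - log (log D⁻¹) ∧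
      log (log (dn (n₀ D))⁻¹) - log (log D⁻¹) ≤ log 3 := by
    filter_upwards [low, up, t0.eventually_ge_atTop 1, self_mem_nhdsWithin] with D a1 a2
      (a3 : 1 ≤ log D⁻¹) (D0 : 0 < D)
    have d0 := dn_pos (n₀ D)
    have b1 := log_le_log (inv_pos.2 D0) (inv_anti₀ d0 a2)
    have b2 := log_le_log (inv_pos.2 d0) (inv_anti₀ (by positivity) a1)
    rw [inv_div, log_div two_ne_zero (by positivity), log_pow] at b2
    rw [sub_nonneg, sub_le_iff_le_add, ← log_mul three_ne_zero (by linarith)]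
    refine ⟨log_le_log (by linarith) b1, log_le_log (by linarith) ?_⟩
    rw [log_inv D] at a3 ⊢
    push_cast at b2
    linarith [log_two_lt_d9]
  have := (z hN).add ((((hx.comp top).mul ((z (e.mono fun D a => (abs_of_nonneg a.1).trans_le
    a.2)).add_const 1))).const_sub m)
  rw [zero_add, zero_add, mul_one] at this
  refine this.congr' ?_
  filter_upwards [e, t.eventually_gt_atTop 0] with D a (b : 0 < log (log D⁻¹))
  have : 0 < log (log (dn (n₀ D))⁻¹) := by linarith [a.1]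
  simp only [Function.comp]
  generalize log (log D⁻¹) = u at *
  generalize log (log (dn (n₀ D))⁻¹) = v at *
  field_simp
  ring

include H in
theorem lo_of {l : Cl} {c : Lab ℝ} (hl : pc l c = c) {f : Fin 2 → R4 → ℝ} (hf : Adm f)
    (ne : frI (fun _ => cx c) f ≠ 0) {C : ℝ} (C0 : 0 < C) : ∃ κ > 0, ∀ W, Wnd W → Tsc S W →
      ∀ᶠ D in 𝓝[>] (0 : ℝ), ∀ r, W D r → ∀ᶠ e in atTop, κ ≤ (log D⁻¹ ^ l.m) ^ 2 * ‖S (∏ i,
        ctr S (Yl (((C⁻¹ : ℝ) : ℂ) • Zc h ω l e (cx c)) (D / r) e (sc D (f i))))‖ := by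
  obtain ⟨z, hz⟩ : ∃ z, z = ((gm ^ ∑ _i : Fin 2, l.m : ℝ) : ℂ) * frI (fun _ => cx c) f := ⟨_, rfl⟩
  have z0 : 0 < ‖z‖ := hz ▸ norm_pos_iff.2 (mul_ne_zero (gm_ne _) ne)
  refine ⟨C⁻¹ ^ 2 * (‖z‖ / 2), by positivity, fun W hW ts => ?_⟩
  filter_upwards [ts_sm H ts hW.top (fun _ => l) (fun _ => c) hf (half_pos z0), hW.top 1,
    self_mem_nhdsWithin] with D a r1 (D0 : 0 < D) r hr
  have r0 := r1 r hr
  filter_upwards [a r hr (fun _ => D / r) fun _ => ⟨div_le_div_of_nonneg_left D0.le (by linarith)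
    (by linarith), le_rfl⟩] with e b
  have cs : ∀ i, HasCompactSupport (sc D (f i)) := fun i =>
    (hf.1 i).1.comp_homeomorph (Homeomorph.smulOfNeZero D⁻¹ (inv_pos.2 D0).ne')
  simp only [hl, ← hz] at b
  have e2 := (norm_sub_norm_le z _).trans ((norm_sub_rev _ _).trans_le b)
  rw [norm_mul, Complex.norm_real, Finset.sum_const, Finset.card_fin, smul_eq_mul, pow_mul',
    norm_of_nonneg (sq_nonneg _)] at e2
  rw [show S _ = ((C⁻¹ ^ 2 : ℝ) : ℂ) * S (∏ i, Yc h ω S l (D / r) e (cx c) (sc D (f i))) by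
    simp only [Yl_smul (cs _), ctr_smul, Finset.prod_smul, map_smul, Finset.prod_const,
      Finset.card_fin, smul_eq_mul, Yc, Complex.ofReal_pow], norm_mul, Complex.norm_real,
    norm_of_nonneg (sq_nonneg _), mul_left_comm]
  exact mul_le_mul_of_nonneg_left (by linarith) (sq_nonneg _)

end Pool.Agent.Lib.MP_7f377f_mp.Cm

namespace Pool.Agent.Lib.MP_7f377f_mp.RG.Q4.En
variable [Pool.Agent.Lib.MP_7f377f_mp.GD]

open YM7 Filter Topology Real Pur Ope Pool.Agent.Lib.MP_7f377f_mp.Cm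

/-- the exponent of the normalisation of a class -/
theorem Rn.expo {G : Gl} {β : ℕ × ℕ → ℝ} {U : Ultrafilter (ℕ × ℕ)}
    {S₀ : ∀ {k : ℕ}, (Fin k → R4 → ℝ) → ℝ} {S : Pol →ₗ[ℂ] ℂ} (R : Rn G β U S₀ S) (τ : Lb.Tp)
    {γ : ℝ} (r : G.Ref τ.T τ.e γ) {h : R4 → ℝ}
    {ω : ∀ l : Lb.Cl, (Fin l.m → R4) → Lb.Lab ℝ} {Λ δ K : ℝ} {L : Lb.Cl → ℕ → ℝ}
    {N : Lb.Cl → ℝ → ℝ} (H : Dat (GD.d / 2) h ω Λ δ)
    (Q : Res S K (atTop.curry UU) (Oa h ω S L) N) :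
    Tendsto (fun D => log (N τ.cl D) / log (log D⁻¹)) (𝓝[>] 0) (𝓝 (1 - γ)) := by
  obtain ⟨K', hS⟩ := R.sf
  obtain ⟨b, Y⟩ := tys dim_ne
  have I := R.kin 5 H.pos.1 H.pos.2
  have o := R.lm
  obtain ⟨A, c, g, q, hC⟩ := slots2 H Y (R := fun υ d d' e A c c' =>
    G.Kp e β U [υ.e] (Gl.Aw d e A) (Gl.Aw d' e A) c c') I fun υ A a t d d' e =>
      let ⟨c, c', u, z⟩ := o.ex_kp (E := [υ.e]) le_rfl (Gl.rc_aw (d := d) (e := e) a)
        (Gl.rc_aw (d := d') (e := e) a)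
      ⟨c, c', u, ⟨[], _, _, A, A, υ.det, t, t, a, a, rfl, rfl, z⟩, z⟩
  obtain ⟨C, C0, hC⟩ := hC τ
  obtain ⟨x, t, n₁, l, hx⟩ := q.lq2 hS H Y I
  obtain ⟨ρ, u⟩ := (q.tel hS H l I).clu 2
  have A := (q.tel hS H l I).aft' hS H Y u
  obtain ⟨f, hf, ne⟩ := frI_ne (by simp) (fr_ref dim_ne τ)
  rw [show (fun i => Cm.cx (![Lb.ref τ, Lb.ref τ] i)) = fun _ => Cm.cx (Lb.ref τ) from
    funext fun i => by fin_cases i <;> rfl] at ne
  obtain ⟨κ, κ0, lo⟩ := lo_of H (S := S) (Y.cls τ) hf ne C0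
  obtain ⟨X, hX, hq⟩ := afu R.ok R.tu R.lim'
  obtain ⟨B, hB⟩ := A.cmp hS H l.pos τ (ref_mem τ) (Y.cls τ) hf ne Q
  have mu := fun ε (ε0 : 0 < ε) => dn_zero.eventually (Gl.Lm.mu0 (G := G.wm 0)
    ⟨o.ok, o.tu, o.st, o.lim⟩ (o.ok 0).1 (tsN hX)
    (hX.elim fun _ h => h.elim fun _ h => h.elim fun _ h => h.2.2.1) hq r τ.det (rf_mem τ) H.pos.1
    H.pos.2 (Cl_m _) (fun e => (hC e).1) (fun e => Zc_typ H Y τ e _) hf κ0 lo ε0)
  refine (expo_num A.top A.low ?_ (lam_law U (tendsto_log_atTop.comp (tendsto_log_atTop.comp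
    (tendsto_inv_nhdsGT_zero.comp dn_zero))) mu (fun n e => ?_) (q.lim τ)
    ((eventually_ge_atTop n₁).mono fun n hn => hx n hn τ) (l.pos τ)) hB).trans_eq
    (congrArg _ (by ring))
  · filter_upwards [Ioo_mem_nhdsGT one_pos, u.1.eventually_ge_atTop 1] with D hD h1
    refine (dn_ceil ((one_le_div hD.1).2 (hD.2.le.trans h1))).1.trans ?_
    rw [inv_div]
    exact div_le_self hD.1.le h1
  · obtain ⟨y, y', a1, a2, a3⟩ := (hC e).2 n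
    exact ⟨y, y', a1, a2, fun p => (o.mp_lin p _ _ _).symm.trans ((a3 p).2 _ (.head _))⟩

end Pool.Agent.Lib.MP_7f377f_mp.RG.Q4.En
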