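import Mathlib

/-! The second Chern form of an approximate projection. -/

noncomputable section

namespace Pool.Agent.Lib.MP_7f377f_mp.Chf

open Finset Equiv MeasureTheory

variable {A B : Type} [NormedRing A] [NormedAlgebra ℝ A] [NormedRing B] [NormedAlgebra ℝ B] {n : ℕ}

/-- derivative along an axis -/
def D (i : Fin n) (P : (Fin n → ℝ) → A) (x : Fin n → ℝ) : A := fderiv ℝ P x (Pi.single i 1)

/-- the density of the form `tr (P dP dP dP dP)` -/
def ch (T : A →L[ℝ] ℂ) (P : (Fin 4 → ℝ) → A) (x : Fin 4 → ℝ) : ℂ :=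
  ∑ σ : Perm (Fin 4), (Perm.sign σ : ℤ) *
    T (P x * D (σ 0) P x * D (σ 1) P x * D (σ 2) P x * D (σ 3) P x)

/-- the integral over the unit cube -/
def qc (T : A →L[ℝ] ℂ) (P : (Fin 4 → ℝ) → A) : ℂ := ∫ x in Set.Icc 0 1, ch T P x

/-- one step of the iteration towards a projection -/
def mw (a : A) : A := (3 : ℝ) • (a * a) - (2 : ℝ) • (a * a * a)

/-- the defect -/
def df (a : A) : A := a * a - a

/-- the size of the first jet -/
def J1 {X : Type} [NormedAddCommGroup X] [NormedSpace ℝ X] (P : X → A) (x : X) : ℝ :=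
  ‖P x‖ + ‖fderiv ℝ P x‖

/-- the permutation with `0 ↦ i` which is otherwise given by `σ` -/
def ex (i : Fin (n + 1)) (σ : Perm (Fin n)) : Perm (Fin (n + 1)) :=
  (Fin.cycleRange i).symm * Perm.decomposeFin.symm (0, σ)

theorem ex_zero (i : Fin (n + 1)) (σ : Perm (Fin n)) : ex i σ 0 = i := by simp [ex]

theorem ex_succ (i : Fin (n + 1)) (σ : Perm (Fin n)) (j : Fin n) :
    ex i σ j.succ = i.succAbove (σ j) := by simp [ex]

theorem ex_sign (i : Fin (n + 1)) (σ : Perm (Fin n)) :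
    ((Perm.sign (ex i σ) : ℤ) : ℂ) = (-1) ^ (i : ℕ) * (Perm.sign σ : ℤ) := by
  simp [ex, Perm.decomposeFin.symm_sign]

theorem sum_ex (F : Perm (Fin (n + 1)) → ℂ) : ∑ i, ∑ σ, F (ex i σ) = ∑ τ, F τ := by
  rw [← Fintype.sum_prod_type']
  refine Fintype.sum_bijective (fun p : Fin (n + 1) × Perm (Fin n) => ex p.1 p.2)
    ((Fintype.bijective_iff_injective_and_card _).2 ⟨?_, by
      simp [Fintype.card_perm, Nat.factorial_succ]⟩) _ _ fun _ => rfl
  rintro ⟨i, σ⟩ ⟨j, τ⟩ (e : ex i σ = ex j τ)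
  obtain rfl : i = j := by rw [← ex_zero i σ, e, ex_zero]
  refine Prod.ext rfl (Equiv.ext fun k => Fin.succAbove_right_injective (p := i) ?_)
  rw [← ex_succ, e, ex_succ]

theorem alt_zero {F : Perm (Fin n) → ℂ} {a b : Fin n} (h : a ≠ b)
    (hF : ∀ τ, F (τ * swap a b) = F τ) : ∑ τ, (Perm.sign τ : ℤ) * F τ = 0 := by
  have := Equiv.sum_comp (Equiv.mulRight (swap a b)) fun τ => ((Perm.sign τ : ℤ) : ℂ) * F τ
  simp only [coe_mulRight, hF, Perm.sign_mul, Perm.sign_swap h, mul_neg, mul_one, Units.val_neg,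
    Int.cast_neg, neg_mul, sum_neg_distrib] at this
  linear_combination (-1 / 2 : ℂ) * this

section jet
variable {X : Type} [NormedAddCommGroup X] [NormedSpace ℝ X] {P Q : X → A} {x : X} {M ε : ℝ}

theorem J1_mul (hP : DifferentiableAt ℝ P x) (hQ : DifferentiableAt ℝ Q x) :
    J1 (fun y => P y * Q y) x ≤ J1 P x * J1 Q x := by
  have : ‖fderiv ℝ (fun y => P y * Q y) x‖ ≤ ‖P x‖ * ‖fderiv ℝ Q x‖ + ‖fderiv ℝ P x‖ * ‖Q x‖ :=
    ContinuousLinearMap.opNorm_le_bound _ (by positivity) fun v => by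
      rw [fderiv_fun_mul' hP hQ]
      refine (norm_add_le_of_le (norm_mul_le_of_le le_rfl ((fderiv ℝ Q x).le_opNorm v))
        (norm_mul_le_of_le (a₂ := Q x) ((fderiv ℝ P x).le_opNorm v) le_rfl)).trans_eq (by ring)
  unfold J1
  nlinarith [norm_mul_le (P x) (Q x), mul_nonneg (norm_nonneg (fderiv ℝ P x))
    (norm_nonneg (fderiv ℝ Q x))]

theorem J1_sub (hP : DifferentiableAt ℝ P x) (hQ : DifferentiableAt ℝ Q x) :
    J1 (fun y => P y - Q y) x ≤ J1 P x + J1 Q x := by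
  unfold J1
  rw [fderiv_fun_sub hP hQ]
  linarith [norm_sub_le (P x) (Q x), norm_sub_le (fderiv ℝ P x) (fderiv ℝ Q x)]

theorem J1_smul (hP : DifferentiableAt ℝ P x) {c : ℝ} (hc : 0 ≤ c) :
    J1 (fun y => c • P y) x = c * J1 P x := by
  unfold J1
  rw [fderiv_fun_const_smul hP, norm_smul, norm_smul, Real.norm_of_nonneg hc, mul_add]

theorem J1_nonneg : 0 ≤ J1 P x := by unfold J1; positivity

theorem df_mw (a : A) : df (mw a) = (4 : ℝ) • (df a * df a * df a) - (3 : ℝ) • (df a * df a) := by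
  simp only [df, mw, mul_sub, sub_mul, smul_mul_assoc, mul_smul_comm, mul_assoc]
  module

theorem mw_eq (a : A) : mw a = a - ((2 : ℝ) • (a * df a) - df a) := by
  simp only [df, mw, mul_sub, mul_assoc]
  module

theorem cd_df {k : WithTop ℕ∞} (h : ContDiff ℝ k P) : ContDiff ℝ k fun y => df (P y) :=
  (h.mul h).sub h

theorem cd_mw {k : WithTop ℕ∞} (h : ContDiff ℝ k P) (m : ℕ) : ContDiff ℝ k fun y => mw^[m] (P y) := by
  induction m with
  | zero => exact h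
  | succ m ih =>
    simp only [Function.iterate_succ_apply']
    exact ((ih.mul ih).const_smul _).sub (((ih.mul ih).mul ih).const_smul _)

/-- quadratic convergence of the iteration -/
theorem J1_mw (h : ContDiff ℝ 1 P) (M1 : 1 ≤ M) (hε : 7 * ε ≤ 1) (h1 : J1 P x ≤ M)
    (h2 : J1 (fun y => df (P y)) x ≤ ε) (m : ℕ) : J1 (fun y => mw^[m] (P y)) x ≤ 2 ^ m * M ∧
      7 * J1 (fun y => df (mw^[m] (P y))) x ≤ (7 * ε) ^ 2 ^ m := by
  induction m with
  | zero => exact ⟨by simpa using h1, by simpa using h2⟩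
  | succ m ih =>
    have d1 := (cd_mw h m).differentiable one_ne_zero x
    have d2 := (cd_df (cd_mw h m)).differentiable one_ne_zero x
    have a0 := J1_nonneg (P := fun y => mw^[m] (P y)) (x := x)
    have b0 := J1_nonneg (P := fun y => df (mw^[m] (P y))) (x := x)
    have b1 := ih.2.trans (pow_le_one₀ (by linarith [J1_nonneg.trans h2]) hε)
    have c1 := J1_mul d1 d2
    have c2 := J1_mul d2 d2
    have c3 := J1_mul (d2.fun_mul d2) d2
    have c4 : (1 : ℝ) ≤ 2 ^ m * M := one_le_mul_of_one_le_of_one_le (one_le_pow₀ one_le_two) M1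
    simp only [Function.iterate_succ_apply']
    constructor
    · simp only [mw_eq (mw^[m] _)]
      refine (J1_sub d1 (((d1.fun_mul d2).fun_const_smul (2 : ℝ)).fun_sub d2)).trans ?_
      have := J1_sub ((d1.fun_mul d2).fun_const_smul (2 : ℝ)) d2
      rw [J1_smul (d1.fun_mul d2) zero_le_two] at this
      rw [pow_succ]
      nlinarith [ih.1]
    · simp only [df_mw]
      have := J1_sub (((d2.fun_mul d2).fun_mul d2).fun_const_smul (4 : ℝ))
        ((d2.fun_mul d2).fun_const_smul (3 : ℝ))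
      rw [J1_smul ((d2.fun_mul d2).fun_mul d2) zero_le_four,
        J1_smul (d2.fun_mul d2) zero_le_three] at this
      rw [pow_succ, pow_mul]
      refine le_trans ?_ (pow_le_pow_left₀ (by positivity) ih.2 2)
      have c5 := mul_le_mul_of_nonneg_left (show J1 (fun y => df (mw^[m] (P y))) x ≤ 1 by linarith)
        (J1_nonneg (P := fun y => df (mw^[m] (P y)) * df (mw^[m] (P y))) (x := x))
      nlinarith

end jet

theorem D_le (i : Fin n) (P : (Fin n → ℝ) → A) (x : Fin n → ℝ) : ‖D i P x‖ ≤ ‖fderiv ℝ P x‖ :=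
  ((fderiv ℝ P x).le_opNorm _).trans_eq (by rw [Pi.norm_single, norm_one, mul_one])

theorem D_mul {P Q : (Fin n → ℝ) → A} {x : Fin n → ℝ} (hP : DifferentiableAt ℝ P x)
    (hQ : DifferentiableAt ℝ Q x) (i : Fin n) :
    D i (fun y => P y * Q y) x = P x * D i Q x + D i P x * Q x := by
  rw [D, fderiv_fun_mul' hP hQ]
  rfl

theorem D_clm {P : (Fin n → ℝ) → A} {x : Fin n → ℝ} (hP : DifferentiableAt ℝ P x) (φ : A →L[ℝ] B)
    (i : Fin n) : D i (fun y => φ (P y)) x = φ (D i P x) :=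
  congrArg (· (Pi.single i 1)) (φ.hasFDerivAt.comp x hP.hasFDerivAt).fderiv

theorem D_face {P : (Fin (n + 1) → ℝ) → A} (hP : Differentiable ℝ P) (i : Fin (n + 1)) (c : ℝ)
    (j : Fin n) (y : Fin n → ℝ) :
    D j (fun y => P (i.insertNth c y)) y = D (i.succAbove j) P (i.insertNth c y) := by
  let L : (Fin n → ℝ) →L[ℝ] (Fin (n + 1) → ℝ) := ContinuousLinearMap.pi
    (i.insertNth (α := fun _ => (Fin n → ℝ) →L[ℝ] ℝ) 0 ContinuousLinearMap.proj)
  have e : ∀ y, L y = i.insertNth 0 y := fun y => funext (i.forall_iff_succAbove.2 (by simp [L]))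
  have e' : (fun y : Fin n → ℝ => (i.insertNth c y : Fin (n + 1) → ℝ)) =
      fun y => L y + Pi.single i c :=
    funext fun y => funext (i.forall_iff_succAbove.2 (by simp [e]))
  have d : HasFDerivAt (fun y : Fin n → ℝ => (i.insertNth c y : Fin (n + 1) → ℝ)) L y :=
    e' ▸ L.hasFDerivAt.add_const _
  refine (congrArg (· (Pi.single j 1)) ((hP _).hasFDerivAt.comp y d).fderiv).trans ?_
  rw [ContinuousLinearMap.comp_apply, e, D]
  exact congrArg _ (funext (i.forall_iff_succAbove.2 (by simp [Pi.single_apply])))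

variable {T : A →L[ℝ] ℂ}

theorem tr5 (hT : ∀ a b, T (a * b) = T (b * a)) (p : A) (a : Fin 5 → A) {M ε : ℝ} (M1 : 1 ≤ M)
    (hp : ‖p‖ ≤ M) (ha : ∀ i, ‖a i‖ ≤ M) (he : ‖df p‖ ≤ ε)
    (hb : ∀ i, ‖p * a i + a i * p - a i‖ ≤ ε) :
    ‖T (a 0 * a 1 * a 2 * a 3 * a 4)‖ ≤ 19 * ‖T‖ * M ^ 5 * ε := by
  obtain ⟨b, e⟩ : ∃ b : Fin 5 → A, ∀ i, b i = p * a i + a i * p - a i := ⟨_, fun _ => rfl⟩
  obtain ⟨Y, hY⟩ : ∃ Y, Y = b 0 * a 1 * a 2 * a 3 * a 4 - a 0 * b 1 * a 2 * a 3 * a 4 +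
    a 0 * a 1 * b 2 * a 3 * a 4 - a 0 * a 1 * a 2 * b 3 * a 4 + a 0 * a 1 * a 2 * a 3 * b 4 :=
    ⟨_, rfl⟩
  obtain ⟨Z, hZ⟩ : ∃ Z, Z = a 0 * a 1 * a 2 * a 3 * a 4 := ⟨_, rfl⟩
  have e1 : Y = p * Z + Z * p - Z := by
    simp only [hY, hZ, e]
    noncomm_ring
  have e2 : T Z = 2 * T (p * Y) - T Y - 4 * T (df p * Z) := by
    have a1 := hT Z p
    have a2 := hT (p * Z) p
    simp only [e1, df, mul_sub, mul_add, sub_mul, map_sub, map_add, mul_assoc] at a2 ⊢
    rw [a1, a2]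
    ring
  simp only [← e] at hb
  have ε0 := (norm_nonneg _).trans he
  have m : ∀ {u0 u1 u2 u3 u4 : A} {c0 c1 c2 c3 c4 : ℝ}, ‖u0‖ ≤ c0 → ‖u1‖ ≤ c1 → ‖u2‖ ≤ c2 →
      ‖u3‖ ≤ c3 → ‖u4‖ ≤ c4 → ‖u0 * u1 * u2 * u3 * u4‖ ≤ c0 * c1 * c2 * c3 * c4 :=
    fun h0 h1 h2 h3 h4 => norm_mul_le_of_le (norm_mul_le_of_le (norm_mul_le_of_le
      (norm_mul_le_of_le h0 h1) h2) h3) h4
  have n1 : ‖Y‖ ≤ 5 * M ^ 4 * ε := hY ▸ (norm_add_le_of_le (norm_sub_le_of_le (norm_add_le_of_le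
    (norm_sub_le_of_le (m (hb 0) (ha 1) (ha 2) (ha 3) (ha 4)) (m (ha 0) (hb 1) (ha 2) (ha 3) (ha 4)))
    (m (ha 0) (ha 1) (hb 2) (ha 3) (ha 4))) (m (ha 0) (ha 1) (ha 2) (hb 3) (ha 4)))
    (m (ha 0) (ha 1) (ha 2) (ha 3) (hb 4))).trans_eq (by ring)
  have n2 := T.le_of_opNorm_le_of_le le_rfl (norm_mul_le_of_le hp n1)
  have n3 := T.le_of_opNorm_le_of_le le_rfl (n1.trans (le_mul_of_one_le_left (by positivity) M1))
  have n4 := T.le_of_opNorm_le_of_le le_rfl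
    (norm_mul_le_of_le he (hZ ▸ m (ha 0) (ha 1) (ha 2) (ha 3) (ha 4) : ‖Z‖ ≤ _))
  rw [← hZ, e2]
  refine (norm_sub_le_of_le (norm_sub_le_of_le (norm_mul_le_of_le (by simp : ‖(2 : ℂ)‖ ≤ 2) n2) n3)
    (norm_mul_le_of_le (by simp : ‖(4 : ℂ)‖ ≤ 4) n4)).trans_eq (by ring)

theorem cd_D {P : (Fin n → ℝ) → A} (h : ContDiff ℝ 2 P) (i : Fin n) : ContDiff ℝ 1 (D i P) :=
  (h.fderiv_right (m := 1) le_rfl).clm_apply contDiff_const

theorem D_comm {P : (Fin n → ℝ) → A} (h : ContDiff ℝ 2 P) (i j : Fin n) (x : Fin n → ℝ) :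
    D i (D j P) x = D j (D i P) x := by
  have d := ((h.fderiv_right (m := 1) le_rfl).differentiable one_ne_zero x).hasFDerivAt
  have e : ∀ i j, D i (D j P) x = fderiv ℝ (fderiv ℝ P) x (Pi.single i 1) (Pi.single j 1) :=
    fun i j => by
      rw [D, show D j P = fun y => fderiv ℝ P y (Pi.single j 1) from rfl,
        (d.clm_apply (hasFDerivAt_const _ _)).fderiv]
      simp
  rw [e, e]
  exact (h.contDiffAt.isSymmSndFDerivAt (by simp)).eq _ _

/-- the divergence theorem for the form -/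
theorem stokes {P : (Fin 5 → ℝ) → A} (h : ContDiff ℝ 2 P) :
    ∑ i : Fin 5, (-1) ^ (i : ℕ) * (qc T (fun y => P (i.insertNth 1 y)) -
      qc T fun y => P (i.insertNth 0 y)) = ∫ x in Set.Icc 0 1, ∑ τ : Perm (Fin 5),
        (Perm.sign τ : ℤ) * T (D (τ 0) P x * D (τ 1) P x * D (τ 2) P x * D (τ 3) P x * D (τ 4) P x) := by
  obtain ⟨w, hw⟩ : ∃ w : Perm (Fin 5) → (Fin 5 → ℝ) → A, ∀ τ, w τ = fun x =>
    P x * D (τ 1) P x * D (τ 2) P x * D (τ 3) P x * D (τ 4) P x := ⟨_, fun _ => rfl⟩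
  have h1 : ContDiff ℝ 1 P := h.of_le one_le_two
  have c : ∀ τ, ContDiff ℝ 1 (w τ) := fun τ =>
    hw τ ▸ (((h1.mul (cd_D h _)).mul (cd_D h _)).mul (cd_D h _)).mul (cd_D h _)
  obtain ⟨f, hf⟩ : ∃ f : Fin 5 → (Fin 5 → ℝ) → ℂ, ∀ i, f i = fun x =>
    ∑ σ, (Perm.sign (ex i σ) : ℤ) * T (w (ex i σ) x) := ⟨_, fun _ => rfl⟩
  have c' : ∀ i, ContDiff ℝ 1 (f i) := fun i =>
    hf i ▸ ContDiff.sum fun σ _ => contDiff_const.mul (T.contDiff.comp (c _))
  have d0 := h1.differentiable one_ne_zero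
  have d1 := fun i => (cd_D h i).differentiable one_ne_zero
  have := integral_divergence_of_hasFDerivAt_off_countable' (0 : Fin 5 → ℝ) 1 zero_le_one f
    (fun i => fderiv ℝ (f i)) ∅ Set.countable_empty (fun i => (c' i).continuous.continuousOn)
    (fun x _ i => ((c' i).differentiable one_ne_zero x).hasFDerivAt)
    ((continuous_finsetSum _ fun i _ => ((c' i).continuous_fderiv one_ne_zero).clm_apply
      continuous_const).continuousOn.integrableOn_compact isCompact_Icc)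
  have e1 : ∀ (i : Fin 5) (t : ℝ), ∫ y in Set.Icc (0 : Fin 4 → ℝ) 1, f i (i.insertNth t y) =
      (-1) ^ (i : ℕ) * qc T fun y => P (i.insertNth t y) := fun i t => by
    rw [qc, ← integral_const_mul]
    refine integral_congr_ae (.of_forall fun y => ?_)
    simp only [hf, hw, ch, ex_sign, mul_sum, mul_assoc, D_face d0, ← ex_succ]
    rfl
  simp only [mul_sub, ← e1]
  refine this.symm.trans (integral_congr_ae (.of_forall fun x => ?_))
  have e2 : ∀ i, fderiv ℝ (f i) x (Pi.single i 1) =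
      ∑ σ, (Perm.sign (ex i σ) : ℤ) * T (D (ex i σ 0) (w (ex i σ)) x) := fun i => by
    have := (HasFDerivAt.fun_sum (u := univ) fun σ _ => (T.hasFDerivAt.comp x
      ((c (ex i σ)).differentiable one_ne_zero x).hasFDerivAt).const_mul
        ((Perm.sign (ex i σ) : ℤ) : ℂ)).fderiv
    rw [hf]
    refine (congrArg (· (Pi.single i 1)) this).trans ?_
    simp [ex_zero, D]
  beta_reduce
  rw [sum_congr rfl fun i _ => e2 i,
    sum_ex fun τ => (Perm.sign τ : ℤ) * T (D (τ 0) (w τ) x)]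
  simp only [hw, D_mul ((((d0 x).fun_mul (d1 _ x)).fun_mul (d1 _ x)).fun_mul (d1 _ x)) (d1 _ x),
    D_mul (((d0 x).fun_mul (d1 _ x)).fun_mul (d1 _ x)) (d1 _ x),
    D_mul ((d0 x).fun_mul (d1 _ x)) (d1 _ x),
    D_mul (d0 x) (d1 _ x), add_mul, map_add, mul_add, sum_add_distrib]
  rw [alt_zero (a := 0) (b := 4) (by decide) fun τ => by simp [swap_apply_of_ne_of_ne, D_comm h (τ 0)],
    alt_zero (a := 0) (b := 3) (by decide) fun τ => by simp [swap_apply_of_ne_of_ne, D_comm h (τ 0)],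
    alt_zero (a := 0) (b := 2) (by decide) fun τ => by simp [swap_apply_of_ne_of_ne, D_comm h (τ 0)],
    alt_zero (a := 0) (b := 1) (by decide) fun τ => by simp [swap_apply_of_ne_of_ne, D_comm h (τ 0)]]
  simp only [zero_add]

theorem stokes_le (hT : ∀ a b, T (a * b) = T (b * a)) {P : (Fin 5 → ℝ) → A} (h : ContDiff ℝ 2 P)
    {M ε : ℝ} (M1 : 1 ≤ M) (h1 : ∀ x ∈ Set.Icc 0 1, J1 P x ≤ M)
    (h2 : ∀ x ∈ Set.Icc 0 1, J1 (fun y => df (P y)) x ≤ ε) :
    ‖∑ i : Fin 5, (-1) ^ (i : ℕ) * (qc T (fun y => P (i.insertNth 1 y)) -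
      qc T fun y => P (i.insertNth 0 y))‖ ≤ 2280 * ‖T‖ * M ^ 5 * ε := by
  rw [stokes h]
  refine (norm_setIntegral_le_of_norm_le_const (C := 2280 * ‖T‖ * M ^ 5 * ε)
    isCompact_Icc.measure_lt_top fun x hx => ?_).trans_eq
    (by simp [Measure.real, Real.volume_Icc_pi])
  have d := (h.differentiable two_ne_zero) x
  refine (norm_sum_le_of_le _ fun τ _ => norm_mul_le_of_le (r₁ := 1) ?_
    (tr5 hT (P x) (fun i => D (τ i) P x) M1 ((le_add_of_nonneg_right (norm_nonneg _)).trans (h1 x hx))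
      (fun i => (D_le _ _ _).trans ((le_add_of_nonneg_left (norm_nonneg _)).trans (h1 x hx)))
      ((le_add_of_nonneg_right (norm_nonneg _)).trans (h2 x hx)) fun i => le_trans (le_of_eq ?_)
        ((D_le (τ i) _ _).trans ((le_add_of_nonneg_left (norm_nonneg _)).trans (h2 x hx))))).trans_eq ?_
  · rcases Int.units_eq_one_or (Perm.sign τ) with e | e <;> simp [e]
  · rw [← D_mul d d]
    unfold D df
    rw [fderiv_fun_sub (d.fun_mul d) d]
    rfl
  · simp [Fintype.card_perm, Nat.factorial]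
    ring

/-- the boundary terms of the iterated approximate projection -/
theorem stokes_mw (hT : ∀ a b, T (a * b) = T (b * a)) {H : (Fin 5 → ℝ) → A} (h : ContDiff ℝ 2 H)
    {M ε : ℝ} (M1 : 1 ≤ M) (hε : 7 * ε ≤ 1) (h1 : ∀ x ∈ Set.Icc 0 1, J1 H x ≤ M)
    (h2 : ∀ x ∈ Set.Icc 0 1, J1 (fun y => df (H y)) x ≤ ε) (m : ℕ) :
    ‖∑ i : Fin 5, (-1) ^ (i : ℕ) * (qc T (fun y => mw^[m] (H (i.insertNth 1 y))) -
      qc T fun y => mw^[m] (H (i.insertNth 0 y)))‖ ≤
      2280 * ‖T‖ * (2 ^ m * M) ^ 5 * ((7 * ε) ^ 2 ^ m / 7) :=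
  stokes_le hT (cd_mw h m) (one_le_mul_of_one_le_of_one_le (one_le_pow₀ one_le_two) M1)
    (fun x hx => (J1_mw (h.of_le one_le_two) M1 hε (h1 x hx) (h2 x hx) m).1) fun x hx =>
    (le_div_iff₀' (by norm_num)).2 (J1_mw (h.of_le one_le_two) M1 hε (h1 x hx) (h2 x hx) m).2

/-- compression to a block which contains all the columns -/
theorem qc_block {T' : B →L[ℝ] ℂ} {E : A} {φ : A →L[ℝ] B}
    (hφ : ∀ a b, a * E = a → φ (a * b) = φ a * φ b) (hT : ∀ a, a * E = a → T' (φ a) = T a)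
    {H : (Fin 4 → ℝ) → A} (h : ContDiff ℝ 1 H) (hE : ∀ y, H y * E = H y) (m : ℕ) :
    qc T (fun y => mw^[m] (H y)) = qc T' fun y => mw^[m] (φ (H y)) := by
  have r : ∀ a {b}, b * E = b → a * b * E = a * b := fun a b e => by rw [mul_assoc, e]
  have a : ∀ y, mw^[m] (H y) * E = mw^[m] (H y) ∧ φ (mw^[m] (H y)) = mw^[m] (φ (H y)) := fun y => by
    induction m with
    | zero => exact ⟨hE y, rfl⟩
    | succ m ih =>
      simp only [Function.iterate_succ_apply', ← ih.2]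
      generalize mw^[m] (H y) = u at ih
      simp only [mw, sub_mul, smul_mul_assoc, r _ ih.1, map_sub, map_smul, hφ _ _ (r _ ih.1),
        hφ _ _ ih.1, and_self]
  have d := (cd_mw h m).differentiable one_ne_zero
  have b : ∀ i y, D i (fun y => mw^[m] (H y)) y * E = D i (fun y => mw^[m] (H y)) y := fun i y => by
    have := D_clm (d y) ((ContinuousLinearMap.mul ℝ A).flip E) i
    simp only [ContinuousLinearMap.flip_apply, ContinuousLinearMap.mul_apply', (a _).1] at this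
    exact this.symm
  simp only [← (a _).2]
  refine integral_congr_ae (.of_forall fun y => sum_congr rfl fun σ _ => ?_)
  simp only [D_clm (d y)]
  rw [← hφ _ _ (a y).1, ← hφ _ _ (r _ (b _ y)), ← hφ _ _ (r _ (b _ y)), ← hφ _ _ (r _ (b _ y)),
    hT _ (r _ (b _ y))]

end Pool.Agent.Lib.MP_7f377f_mp.Chf
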