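import Pool.Agent.Lib.MP_7f377f_mp.G.S21Geo
import Pool.Agent.Lib.MP_7f377f_mp.G.Q4AfN
import Pool.Agent.Lib.MP_7f377f_mp.G.Q4AfO
import Pool.Agent.Lib.MP_7f377f_mp.G.Q4AfU

/-! Hessians and one loop terms at backgrounds with constant flux in two planes. -/

noncomputable section

set_option linter.unusedSectionVars false
variable [Pool.Agent.Lib.MP_7f377f_mp.GD]

namespace Pool.Agent.Lib.MP_7f377f_mp.RG.Q4.Af.Tp

open Finset Matrix Metric Sd En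

attribute [local irreducible] box lbox

variable {N : Fin 4 → ℕ} [∀ i, NeZero (N i)] {S : Sd} {ε φ Q : ℝ} {F : ℝ × ℝ}
  {θ : Lk → Ang} {t : Cf → ℂ}

theorem NQ_dot (a : IL N → ℝ) : NQ (ab θ) a ≤ 65 * (a ⬝ᵥ a) := by
  have e : a ⬝ᵥ a = ∑ x, ∑ μ, ∑ k, a ((x, μ), k) ^ 2 := by
    simp only [dotProduct, Fintype.sum_prod_type, sq]
  have h1 : ∑ i with GD.q i.2 ≠ 0, a i ^ 2 ≤ a ⬝ᵥ a :=
    (sum_le_sum_of_subset_of_nonneg (filter_subset _ _) fun _ _ _ => sq_nonneg _).trans_eq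
      (by simp only [dotProduct, sq])
  have s : ∀ μ ν, ∑ x : TS N, ∑ k, a ((x + Pi.single μ 1, ν), k) ^ 2 = ∑ x, ∑ k, a ((x, ν), k) ^ 2 :=
    fun μ ν => Equiv.sum_comp (Equiv.addRight (Pi.single μ 1)) fun x => ∑ k, a ((x, ν), k) ^ 2
  have h2 : ∑ x, ∑ μ, ∑ ν, ∑ k with GD.q k = 0, crl (ab θ) a x μ ν k ^ 2 ≤
      ∑ x : TS N, ∑ μ, ∑ ν, ∑ k, 4 * (a ((x, μ), k) ^ 2 + a ((x + Pi.single μ 1, ν), k) ^ 2 +
        a ((x + Pi.single ν 1, μ), k) ^ 2 + a ((x, ν), k) ^ 2) :=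
    sum_le_sum fun x _ => sum_le_sum fun μ _ => sum_le_sum fun ν _ => by
      refine (sum_le_sum fun k hk => ?_).trans
        (sum_le_sum_of_subset_of_nonneg (filter_subset _ _) fun _ _ _ => by positivity)
      rw [crl_zero _ _ _ _ (mem_filter.1 hk).2]
      generalize a ((x, μ), k) = p, a ((x + Pi.single μ 1, ν), k) = q,
        a ((x + Pi.single ν 1, μ), k) = r, a ((x, ν), k) = s
      nlinarith [sq_nonneg (p - q), sq_nonneg (p + r), sq_nonneg (p + s), sq_nonneg (q + r),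
        sq_nonneg (q + s), sq_nonneg (r - s)]
  obtain ⟨g, hg⟩ : ∃ g : Fin 4 → ℝ, ∀ μ, ∑ x, ∑ k, a ((x, μ), k) ^ 2 = g μ := ⟨_, fun _ => rfl⟩
  rw [NQ]
  refine (add_le_add h1 h2).trans (le_of_eq ?_)
  rw [e]
  simp only [Fin.sum_univ_four, sum_add_distrib, ← mul_sum, s, hg]
  ring

theorem td_hess (h : TD Q t) (hp : PV N θ) (hc : ∀ x μ ν, dd θ x μ ν = (kF F μ ν : ℝ))
    (hF : ‖F‖ ≤ φ) (φ0 : 0 < φ) (hφ : Q ^ 3 * φ ≤ 1) :
    Tay (SS N t (ab θ)) (Hs N t θ) (Fintype.card (TS N) * Q ^ 5) (Q ^ 2)⁻¹ ∧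
    (∀ v, Hs N t θ *ᵥ DL N (ab θ) v = 0) ∧
    (∀ a, |a ⬝ᵥ Hs N t θ *ᵥ a| ≤ Fintype.card (TS N) * Q ^ 12 * ‖a‖ ^ 2) ∧
    ∀ a, 48020⁻¹ * CQ (ab θ) a - Q ^ 14 * φ * NQ (ab θ) a ≤ a ⬝ᵥ Hs N t θ *ᵥ a := by
  obtain ⟨R, δ, M, l, hR, hδ, δ1, hM⟩ := h.ex
  have big := h.big
  have Q0 : 0 < Q := by linarith
  have δ0 : 0 < δ := pos_of_mul_pos_right (lt_of_lt_of_le one_pos hδ) Q0.le
  have M0 := l.nonneg δ0.le
  have F0 := norm_nonneg F
  have R0 : (0 : ℝ) ≤ R := R.cast_nonneg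
  have a1 : Q ^ 2 * φ ≤ δ := le_of_mul_le_mul_left (by linarith) Q0
  have a2 : 600 * Q * φ ≤ δ := le_trans (by gcongr; nlinarith) a1
  have a3 : R * ‖F‖ ≤ Q * φ := by gcongr
  have a4 : δ⁻¹ ≤ Q := by rw [inv_le_iff_one_le_mul₀ δ0]; exact hδ
  have a5 : (2 * R + 1 : ℝ) ^ 6 ≤ (3 * Q) ^ 6 := by gcongr; linarith
  obtain ⟨H, T, -⟩ := hess0 (N := N) l δ1 δ0 hc (by linarith)
  have c1 := GD.cG1
  have c3 : cG ≤ cG ^ 3 := le_self_pow₀ c1 (by norm_num)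
  have c4 : 10 ^ 9 * cG ^ 3 ≤ Q := le_trans (by gcongr; norm_num) h.cg
  have r0 : 0 < δ / (20 * cG) := by positivity
  rw [Hs_eq T r0]
  refine ⟨T.mono ?_ ?_, hess_kill l δ1 δ0 hp hc (by linarith) T r0, fun a => ?_, fun a => ?_⟩
  · gcongr
    calc 12 * M / (δ / (20 * cG)) ^ 3 = 96000 * cG ^ 3 * M * δ⁻¹ ^ 3 := by field_simp; ring
      _ ≤ Q * Q * Q ^ 3 := by gcongr; linarith
      _ = _ := by ring
  · rw [inv_le_comm₀ (by positivity) r0, inv_div, div_eq_mul_inv, sq]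
    gcongr; linarith
  · refine (quad_U l δ1 δ0 hp hc (by linarith) T r0 a).trans ?_
    calc _ = 144 * (2 * R + 1) ^ 6 * (5000 * M * δ⁻¹ ^ 2) * NQ (ab θ) a := by field_simp
      _ ≤ 144 * (3 * Q) ^ 6 * (5000 * Q * Q ^ 2) * (260 * cG * Fintype.card (TS N) * ‖a‖ ^ 2) := by
        gcongr
        exacts [NQ_nonneg _ _, NQ_le a]
      _ = Fintype.card (TS N) * (136468800000 * cG * Q ^ 9) * ‖a‖ ^ 2 := by ring
      _ ≤ Fintype.card (TS N) * (Q ^ 2 * Q * Q ^ 9) * ‖a‖ ^ 2 := by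
        gcongr
        exacts [le_trans (by norm_num) (pow_le_pow_left₀ (by norm_num) big 2), by linarith]
      _ = _ := by ring
  · refine le_trans ?_ (quad_L l δ1 hp hc (η := 6 * Q * φ) (by positivity) (by linarith)
      (by linarith) T r0 h.pos a)
    refine sub_le_sub_left (mul_le_mul_of_nonneg_right ?_ (NQ_nonneg _ _)) _
    calc _ = 144 * (2 * R + 1) ^ 6 * (256000 * M * (6 * Q * φ) * δ⁻¹ ^ 3) := by field_simp
      _ ≤ 144 * (3 * Q) ^ 6 * (256000 * Q * (6 * Q * φ) * Q ^ 3) := by gcongr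
      _ = 161243136000 * Q ^ 11 * φ := by ring
      _ ≤ Q ^ 3 * Q ^ 11 * φ := by
        gcongr
        exact le_trans (by norm_num) (pow_le_pow_left₀ (by norm_num) big 3)
      _ = _ := by ring

theorem gl_ab (hc : ∀ x μ ν, dd θ x μ ν = (kF F μ ν : ℝ)) : Gl ‖F‖ (ab θ) := fun x μ ν => by
  rw [fq, hol_ab, hc]
  exact (norm_eA _).trans (abs_kF F μ ν)

theorem bg_near (h : Sm0 S ε) (hc : ∀ x μ ν, dd θ x μ ν = (kF F μ ν : ℝ)) (hF : ‖F‖ ≤ ε) (f : Lk) :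
    Rb.Nr (S.Q * ε) (ab (lift S.l F θ) f) (Ub S.l S.s (ab θ) f) := by
  have ex := h.nu.exps
  have l0 := L0 S.toTd
  have e0 := h.pos
  have q := h.nu.mon (C := 2) (i := 2 * (S.c + 5)) (j := 0) (by norm_num) (by omega) (by omega)
  have p1 : 1 ≤ S.L ^ (S.c + 5) := one_le_pow₀ (Sd.L1 _)
  rw [pow_zero, mul_one, pow_mul'] at q
  have k := Ub_near (h.nu.hy h.tok le_rfl) (W := sh (yo S.l f.1) (ab θ)) (d := ε)
    (fun y _ μ ν => ((gl_ab hc).sh _ y μ ν).trans hF)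
    (le_trans (mul_le_mul_of_nonneg_right (by nlinarith) e0.le) h.Qε.2)
    (f := (f.1 - up S.l (yo S.l f.1), f.2)) (mem_lbox.2 (sub_up_yo_mem _ _))
  rw [Ub_sh, sh_apply, sub_add_cancel] at k
  have k2 : Rb.Nr ε (eA (bF S.l F f : ℝ)) 1 := .of1 ((norm_eA _).trans ((abs_bF f).trans hF))
  refine (((k2.right (eA (izA S.l θ f))).congr (eA_add _ _).symm ?_).trans k.symm).mono
    (by nlinarith [mul_le_mul_of_nonneg_right q e0.le, mul_le_mul p1 p1 zero_le_one (by linarith)])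
  have y1 : ∀ v, yo S.l (f.1 - up S.l (yo S.l f.1) + v) = yo S.l (f.1 + v) - yo S.l f.1 := fun v => by
    rw [eq_sub_iff_add_eq, ← yo_add_up, add_right_comm, sub_add_cancel]
  have y2 := y1 0
  simp only [add_zero, sub_self] at y2
  simp only [izA, one_mul, y1, y2, sub_eq_zero, sh_apply, zero_add]
  split_ifs <;> simp [ab]

theorem as_kF (F : ℝ × ℝ) : As (kF F) := fun μ ν => by
  fin_cases μ <;> fin_cases ν <;> simp [kF]

theorem norm_kF (F : ℝ × ℝ) : ‖kF F‖ ≤ ‖F‖ :=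
  (pi_norm_le_iff_of_nonneg (norm_nonneg F)).2 fun μ =>
    (pi_norm_le_iff_of_nonneg (norm_nonneg F)).2 fun ν => abs_kF F μ ν

theorem dt_flux (h : S.Nu 100) (k : S.TK) {c : ℝ} {E : ℝ × ℝ} (eF : F = c • E)
    (hc : ∀ x μ ν, dd θ x μ ν = (kF F μ ν : ℝ))
    (hF : S.β * ‖F‖ ≤ 1) (y : St) {a : V} (ha : ∀ μ ν, dd a 0 μ ν = kF E μ ν) :
    |(S.dt0 (sh y (cC (ab θ)))).re - (S.dt0 (S.wB 0)).re + c ^ 2 * (qc S.ol a a).re| ≤
      S.Q ^ 10 * ‖F‖ ^ 3 := by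
  have f := k.fo (h.mono (Nat.zero_le _))
  have F0 := norm_nonneg F
  have q1 := S.Q1
  have q2 : (1000 : ℝ) ≤ S.Q := h.cQ' (by norm_num)
  have g0 := h.ok.g0
  have d1 : (1 : ℝ) ≤ S.D0 := by exact_mod_cast Sd.D1 S.toTd
  have dq := h.D_le_Q
  have hg : ‖F‖ ≤ S.g := by
    have := mul_le_mul_of_nonneg_right hF (sq_nonneg S.g)
    rw [mul_right_comm, h.ok.βg, one_mul, one_mul] at this
    exact this.trans (pow_le_of_le_one g0.le h.ok.g1 two_ne_zero)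
  have hq : ∀ i ≤ 500, S.Q ^ i * ‖F‖ ≤ 1 := fun i hi =>
    (mul_le_mul (S.Qw hi) hg F0 (by positivity)).trans h.ok.Qg
  have fx : Fx 0 (kF F) (sh y θ) := ⟨fun _ => by simp, fun x μ ν => by rw [RG.dd_sh, hc]⟩
  have R1 : ((4 * S.D0 : ℕ) : ℝ) + 1 ≤ S.Q ^ 2 := by push_cast; nlinarith
  have R0 : (0 : ℝ) ≤ (4 * S.D0 : ℕ) := Nat.cast_nonneg _
  have hd : 6 * (4 * S.D0 : ℕ) * ‖F‖ ≤ S.Q ^ 3 * S.g' :=
    mul_le_mul (by nlinarith) (hg.trans h.ok.gg') F0 (by positivity)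
  obtain ⟨c1, c2⟩ := comb_real (R := 4 * S.D0) (W := ab (sh y θ))
    (fun x _ μ ν => (fx.fq_le x μ ν).trans (norm_kF F))
    (hd.trans (by simpa using h.ok.Qg'_le (i := 3) (j := 0) (by norm_num)))
  have r0 : 0 < S.Q ^ 3 * S.g' := mul_pos (by positivity) h.ok.g'0
  have e1 : S.dt0 (sh y (cC (ab θ))) = S.dt0 (S.wB (Ho.em GD.k0 (tF (kF F)))) := by
    rw [← fx.bx (as_kF F) 0, Td.wB, cg_Bx]
    refine (Td.dt0_agr f.ok (c2.mono (by have := h.lens; omega))).trans (Cm.dt0_cov f.ok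
      (Nt.gw_exF f.ok (f.sz _ r0 (le_trans ?_ (h.Qg_δ (i := 4) (by norm_num))))
        fun e => (c1 e).trans hd) _)
    nlinarith
  have e2 := ps_val f.ol_ps (as_kF F) (norm_kF F) (d := ‖F‖) (le_trans (by
    rw [Sd.p'_R]
    refine mul_le_mul_of_nonneg_right (le_trans ?_ (pow_succ' S.Q 4).ge) F0
    gcongr
    · linarith
    · exact (pow_le_pow_left₀ (by positivity) R1 2).trans_eq (by ring)) (hq 5 (by norm_num)))
    (le_trans (by push_cast; nlinarith) hd)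
  have e3 : qc S.ol (pt (kF F)) (pt (kF F)) = c ^ 2 * qc S.ol a a := by
    obtain ⟨k, -, e, -⟩ := f.ol_ps.elim
    rw [qc, qc, e, e, cc_eq (as_kF F), cc_pt, show dd a 0 = kF E from funext₂ ha, eF, kF_smul]
    simp only [map_smul, LinearMap.smul_apply, Complex.real_smul]
    ring
  have e4 := (Complex.abs_re_le_norm _).trans e2
  rw [e3, Td.ol, ← e1, Sd.p'_R, Sd.p'_ρ, ← Complex.ofReal_pow, Complex.sub_re,
    Complex.sub_re, Complex.re_ofReal_mul, abs_sub_comm] at e4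
  refine (congrArg abs (by ring)).trans_le (e4.trans ?_)
  have e5 : (((4 * S.D0 : ℕ) : ℝ) + 1) ^ 3 * ‖F‖ ≤ 1 :=
    le_trans (by rw [show 6 = 2 * 3 from rfl, pow_mul]; gcongr) (hq 6 (by norm_num))
  have e6 : 1000 * S.Q ≤ S.Q ^ 10 := le_trans (by nlinarith) (S.Qw (show 2 ≤ 10 by norm_num))
  calc _ = (648 * S.Q * ((((4 * S.D0 : ℕ) : ℝ) + 1) ^ 3 * ‖F‖) + 8 * S.Q) * ‖F‖ ^ 3 := by
        have := h.ok.g'0.ne'
        field_simp; ring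
    _ ≤ _ := mul_le_mul_of_nonneg_right (by nlinarith) (by positivity)

end Pool.Agent.Lib.MP_7f377f_mp.RG.Q4.Af.Tp
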