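import Pool.Agent.Lib.MP_7f377f_mp.G.S21G2b
import Pool.Agent.Lib.MP_7f377f_mp.G.S21N
import Pool.Agent.Lib.MP_7f377f_mp.G.Q4AfT

/-! The topological charge is nearly constant near smooth periodic fields. -/

noncomputable section

set_option linter.unusedSectionVars false
variable [Pool.Agent.Lib.MP_7f377f_mp.GD]

namespace Pool.Agent.Lib.MP_7f377f_mp.RG.Q4

open Finset Chf NormedSpace

attribute [local irreducible] box lbox

/-- paths which stay near one -/
def Np (c : ℝ) (f : ℝ → Hc) : Prop :=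
  ContDiff ℝ 2 f ∧ ∀ τ ∈ Set.Icc (0 : ℝ) 1, J1 (fun τ => f τ - 1) τ ≤ c

namespace Np

variable {a b : ℝ} {f g : ℝ → Hc}

theorem df (h : Np a f) (τ : ℝ) : DifferentiableAt ℝ (fun τ => f τ - 1) τ :=
  (h.1.differentiable two_ne_zero τ).sub_const 1

theorem mul (hf : Np a f) (hg : Np b g) (h : a ≤ 1) : Np (a + 2 * b) fun τ => f τ * g τ := by
  refine ⟨hf.1.mul hg.1, fun τ hτ => ?_⟩
  have e : (fun τ => f τ * g τ - 1) =
      fun τ => (f τ - 1) * (g τ - 1) - (0 - (f τ - 1) - (g τ - 1)) := funext fun τ => by noncomm_ring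
  have a0 := differentiableAt_const (𝕜 := ℝ) (x := τ) (0 : Hc)
  have a1 := J1_sub a0 (hf.df τ)
  have a2 := J1_sub (a0.fun_sub (hf.df τ)) (hg.df τ)
  have a3 := (J1_mul (hf.df τ) (hg.df τ)).trans (mul_le_mul ((hf.2 τ hτ).trans h) (hg.2 τ hτ)
    J1_nonneg zero_le_one)
  rw [J1_const, norm_zero] at a1
  rw [e]
  linarith [J1_sub ((hf.df τ).fun_mul (hg.df τ)) ((a0.fun_sub (hf.df τ)).fun_sub (hg.df τ)),
    hf.2 τ hτ, hg.2 τ hτ]

theorem const {q : Hc} (h : ‖q - 1‖ ≤ a) : Np a fun _ => q :=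
  ⟨contDiff_const, fun _ _ => (J1_const _).trans_le h⟩

theorem map (h : Np a f) (L : Hc →L[ℝ] Hc) (h0 : ∀ q, ‖L q‖ ≤ ‖q‖) (h1 : L 1 = 1) :
    Np a fun τ => L (f τ) := ⟨L.contDiff.comp h.1, fun τ hτ => by
  have := (J1_clm (h.df τ) L).trans (mul_le_mul (L.opNorm_le_bound zero_le_one fun q =>
    (h0 q).trans_eq (one_mul _).symm) (h.2 τ hτ) J1_nonneg zero_le_one)
  simpa only [map_sub, h1, one_mul] using this⟩

theorem star (h : Np a f) : Np a fun τ => star (f τ) :=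
  h.map (LinearMap.mkContinuous ⟨⟨Star.star, star_add⟩, Un.star_smul⟩ 1 fun q =>
    (norm_star q).le.trans_eq (one_mul _).symm) (fun q => (norm_star q).le) (star_one _)

end Np

theorem cd_exp (Y : Hc) : ContDiff ℝ 2 fun τ : ℝ => exp (τ • Y) :=
  contDiff_iff_contDiffAt.2 fun τ => (exp_analytic (𝕂 := ℝ) _).contDiffAt.comp τ
    (f := fun τ : ℝ => τ • Y) (by fun_prop)

theorem np_exp {X : C3} {η : ℝ} (h : ‖X‖ ≤ η) (h1 : η ≤ 1) :
    Np (5 * η) fun τ => exp (τ • io X) := ⟨cd_exp _, fun τ hτ => by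
  rw [← norm_io'] at h
  have a0 : ‖τ • io X‖ ≤ η := (norm_smul_le _ _).trans
    ((mul_le_of_le_one_left (norm_nonneg _) (abs_le.2 ⟨by linarith [hτ.1], hτ.2⟩)).trans h)
  have a1 := Un.exp_rem (p := τ • io X) (by simp) (by linarith)
  have a2 := norm_add_le (exp (τ • io X) - 1 - τ • io X) (τ • io X)
  have a3 := norm_add_le (exp (τ • io X) - 1) 1
  have a4 := norm_nonneg (τ • io X)
  rw [sub_add_cancel] at a2 a3
  rw [norm_one] at a3
  have a5 : ‖exp (τ • io X) - 1‖ ≤ 2 * η := by nlinarith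
  rw [J1, ← norm_deriv_eq_norm_fderiv, ((hasDerivAt_exp_smul_const (io X) τ).sub_const 1).deriv]
  linarith [norm_mul_le_of_le (a3.trans (by linarith : _ ≤ (3 : ℝ))) h]⟩

theorem np_pth {W : ℝ → Cf} {c : ℝ} (h : ∀ e, Np c fun τ => W τ e) (hc : 5 * c ≤ 1)
    (s s' : Chf.Vx 4) : Np (7 * c) fun τ => pth star (W τ) s s' := by
  have c0 := J1_nonneg.trans ((h 0).2 0 ⟨le_rfl, zero_le_one⟩)
  have a : ∀ μ, Np c fun τ => stp star (W τ) s s' μ := fun μ => by
    simp only [stp_eq]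
    split_ifs
    · exact .const (by simpa using c0)
    · cases s μ
      exacts [h _, (h _).star]
  have := (((a 0).mul (a 1) (by linarith)).mul (a 2) (by linarith)).mul (a 3) (by linarith)
  exact ⟨this.1, fun τ hτ => (this.2 τ hτ).trans_eq (by ring)⟩

/-- the flow through a face -/
def flw (μ : Fin 4) (b : Bool) (W : ℝ → Cf) : ℂ :=
  fc tq fun τ t t' => pth star (W τ) (μ.insertNth b t) (μ.insertNth b t')

theorem flw_true (μ : Fin 4) (W : ℝ → Cf) :
    flw μ true W = flw μ false fun τ => sh (un μ) (W τ) := by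
  have e : ∀ t, pos (μ.insertNth true t) = pos (μ.insertNth false t) + un μ := fun t =>
    funext (μ.forall_iff_succAbove.2 (by simp [pos, un]))
  simp only [flw, pth, e, sh_sh, add_sub_add_right_eq_sub]

theorem cube_loc {W W' : ℝ → Cf} {h : St → Hc} {c : ℝ} (hh : ∀ x, Uni (h x))
    (e : ∀ τ, Agr 1 (W τ) (gauge star h (W' τ))) (hW : ∀ e, Np c fun τ => W' τ e)
    (hc : 10 ^ 9 * (28 * c) ≤ 1) :
    ‖qh (W 1) - qh (W 0) - ∑ μ : Fin 4, (-1) ^ (μ : ℕ) * (flw μ true W - flw μ false W)‖ ≤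
      10 ^ 36 * (16 * ‖tq‖) * (10 ^ 9 * (28 * c)) ^ 32 := by
  have c0 := J1_nonneg.trans ((hW 0).2 0 ⟨le_rfl, zero_le_one⟩)
  have p := np_pth hW (by linarith)
  have e1 : ∀ μ b, flw μ b W = flw μ b W' := fun μ b => by
    simp only [flw, pth_agr _ (e _), pth_gauge hh]
    exact fc_conj tq_comm (fun _ => (hh _).star_mul) fun _ _ => (p _ _).1.of_le one_le_two
  rw [qh_agr (e 1), qh_agr (e 0), qh_gauge hh, qh_gauge hh]
  simp only [e1]
  refine Chf.cube tq_comm (u := fun τ => pth star (W' τ)) (fun s s' => (p s s').1) hc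
    (fun τ hτ s s' => ?_) fun τ hτ s s' s'' => ?_
  · have := J1_sub ((p s s').df τ) (differentiableAt_const (-1))
    simp only [sub_neg_eq_add, sub_add_cancel, J1_const, norm_neg, norm_one] at this
    linarith [(p s s').2 τ hτ]
  · have q := (p s s').mul (p s' s'') (by linarith)
    have := J1_sub (q.df τ) ((p s s'').df τ)
    simp only [sub_sub_sub_cancel_right] at this
    linarith [q.2 τ hτ, (p s s'').2 τ hτ]

theorem top_path {N : Fin 4 → ℕ} [∀ i, NeZero (N i)] {W : ℝ → Cf} {c : ℝ} (hp : ∀ τ, PV N (W τ))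
    (h : ∀ x, ‖qh (sh x (W 1)) - qh (sh x (W 0)) - ∑ μ : Fin 4, (-1) ^ (μ : ℕ) *
      (flw μ true (fun τ => sh x (W τ)) - flw μ false fun τ => sh x (W τ))‖ ≤ c) :
    |∑ x : TS N, (qh (sh (lf x) (W 1))).re - ∑ x : TS N, (qh (sh (lf x) (W 0))).re| ≤
      Fintype.card (TS N) * c := by
  have e : ∀ μ, ∑ x : TS N, flw μ true (fun τ => sh (lf x) (W τ)) =
      ∑ x : TS N, flw μ false fun τ => sh (lf x) (W τ) := fun μ => by
    simp only [flw_true, sh_sh, add_comm (un μ)]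
    exact sum_shift (g := fun x => flw μ false fun τ => sh x (W τ))
      (fun x y e => by simp only [(hp _).sh_eq e]) _
  have := norm_sum_le_of_le univ fun (x : TS N) _ => h (lf x)
  rw [sum_sub_distrib, sum_comm] at this
  simp only [← mul_sum, sum_sub_distrib, e, sub_self, mul_zero, sum_const_zero, sub_zero, sum_const,
    card_univ, nsmul_eq_mul] at this
  rw [← Complex.re_sum, ← Complex.re_sum, ← Complex.sub_re]
  exact (Complex.abs_re_le_norm _).trans this

theorem top_qh : Topd qh := by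
  have c1 := GD.cG1
  obtain ⟨K, hK⟩ : ∃ K : ℝ, K = 10 ^ 36 * (16 * ‖tq‖) * (10 ^ 9 * (28 * (34 * cG))) ^ 32 := ⟨_, rfl⟩
  have K0 : 0 ≤ K := by rw [hK]; positivity
  refine ⟨K + 10 ^ 12 * cG, by linarith, fun N _ F θ δ hb hF hδ a ha => ?_⟩
  have δ0 := (norm_nonneg _).trans hF
  have δ1 : 10 ^ 12 * (cG * δ) ≤ 1 := by nlinarith
  have δ2 : δ ≤ cG * δ := le_mul_of_one_le_left δ0 c1
  have n1 : ∀ e, ‖lex (pf a e)‖ ≤ 2 * (cG * δ) := fun e => by
    have := (norm_pf a e).trans (mul_le_mul_of_nonneg_left ha GD.cG_pos.le)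
    linarith [norm_lex (this.trans (by linarith))]
  obtain ⟨W, hW⟩ : ∃ W : ℝ → Cf, ∀ τ e, W τ e = exp (τ • io (lex (pf a e))) * cC (ab θ) e :=
    ⟨_, fun _ _ => rfl⟩
  have := top_path (N := N) (W := W) (c := K * δ ^ 32) (fun τ => funext (hW τ) ▸ (pv_pf a).map₂
    (Af.pv_cC (hb.per.map _)) fun b q => exp (τ • io (lex b)) * q) fun x => ?_
  · rw [show W 1 = exF (pf a) * cC (ab θ) from funext fun e => by rw [hW, one_smul]; rfl,
      show W 0 = exF (pf (0 : IL N → ℝ)) * cC (ab θ) from funext fun e => by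
        simp [hW, exF]] at this
    refine this.trans ?_
    rw [mul_left_comm, mul_assoc]
    exact mul_le_mul (by linarith) (mul_le_mul_of_nonneg_left
      (pow_le_pow_of_le_one δ0 (by linarith) (by norm_num)) (Nat.cast_nonneg _)) (by positivity)
      (by linarith)
  · obtain ⟨u, B, hB, hA⟩ := (Af.Gl.fq (ε := δ) (fun x μ ν => (Af.Tp.gl_ab hb.curv x μ ν).trans hF)
      1 x).gd (by simp only [Nat.cast_one]; linarith)
    simp only [Nat.cast_one] at hB
    refine (cube_loc (c := 34 * cG * δ) (W := fun τ => sh x (W τ)) (fun y => uni_cS (u y))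
      (W' := fun τ e => star (cS (u e.1)) * exp (τ • io (lex (pf a (e.1 + x, e.2)))) *
        cS (u e.1) * ex (B e)) (fun τ e he => ?_) (fun e => ?_) (by linarith)).trans_eq ?_
    · refine (hW τ _).trans ((congrArg (_ * ·) (hA e he)).trans ?_)
      simp only [gauge, exF, ← mul_assoc, (uni_cS _).mul_star, one_mul]
    · have := ((np_exp (n1 (e.1 + x, e.2)) (by linarith)).map (ContinuousLinearMap.mulLeftRight ℝ Hc
        (star (cS (u e.1))) (cS (u e.1))) (fun q => by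
          simpa [cS_inv] using (norm_conj_cS (u e.1)⁻¹ q).le) (by simp [(uni_cS _).star_mul])).mul
        (.const (norm_ex_sub (b := B e) (by linarith [hB e]))) (by linarith)
      exact ⟨this.1, fun τ hτ => (this.2 τ hτ).trans (by linarith [hB e])⟩
    · rw [hK]
      ring

theorem Topd.tr {t t' : Cf → ℂ} (h : Topd t) {e0 : ℝ} (p : 0 < e0)
    (e : ∀ U : Conf, (∀ x μ ν, fq U x μ ν ≤ e0) → t' (cC U) = -t (cC U)) : Topd t' := by
  obtain ⟨C, C1, h⟩ := h
  have c1 := GD.cG1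
  have q : 0 ≤ 9 * cG / e0 := by positivity
  refine ⟨C + 100 * cG + 9 * cG / e0, by linarith, fun N _ F θ δ hb hF hδ a ha => ?_⟩
  have δ0 := (norm_nonneg _).trans hF
  have a1 : 0 ≤ C * δ := by positivity
  have a2 : δ ≤ cG * δ := le_mul_of_one_le_left δ0 c1
  have a3 := mul_nonneg q δ0
  have a4 : 9 * cG * δ / e0 ≤ 1 := by rw [← div_mul_eq_mul_div]; linarith
  rw [div_le_one p] at a4
  have k : ∀ b : IL N → ℝ, ‖b‖ ≤ δ → SS N t' (ab θ) b = -SS N t (ab θ) b := fun b hb' => by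
    simp only [SS, ← Af.cC_rf, sh_cC, ← sum_neg_distrib, ← Complex.neg_re]
    exact sum_congr rfl fun x _ => congrArg _ (e _ fun y μ ν =>
      ((Af.gl_rf (Af.Tp.gl_ab hb.curv) hb' (by linarith)).sh _ y μ ν).trans (by linarith))
  rw [k a ha, k 0 (by simpa using δ0), neg_sub_neg, abs_sub_comm]
  refine (h N F θ δ hb hF (by linarith) a ha).trans ?_
  gcongr
  linarith

end Pool.Agent.Lib.MP_7f377f_mp.RG.Q4
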