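import Pool.Agent.Lib.MP_7f377f_mp.G.S21G1

/-! The Chern form of transports between the vertices of a cube. -/

noncomputable section

namespace Pool.Agent.Lib.MP_7f377f_mp.Chf

open Finset MeasureTheory

/-- matrices with the operator norm -/
def Mx (S R : Type) : Type := Matrix S S R

variable {R : Type} [NormedRing R] [NormedAlgebra ℝ R] {n : ℕ} {S S' : Type} [Fintype S]
  [DecidableEq S] [Fintype S'] [DecidableEq S']

instance : NormedRing (Mx S R) := Matrix.linftyOpNormedRing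
instance : NormedAlgebra ℝ (Mx S R) := Matrix.linftyOpNormedAlgebra

theorem Mx.ext {a b : Mx S R} (h : ∀ s s', a s s' = b s s') : a = b := Matrix.ext h

theorem mul_ap (a b : Mx S R) (s s' : S) : (a * b) s s' = ∑ t, a s t * b t s' := Matrix.mul_apply

theorem ent_le (a : Mx S R) (s s' : S) : ‖a s s'‖ ≤ ‖a‖ :=
  (NNReal.coe_le_coe.2 ((single_le_sum (f := fun j => ‖a s j‖₊) (fun _ _ => zero_le')
    (mem_univ s')).trans (le_sup (f := fun i => ∑ j, ‖a i j‖₊) (mem_univ s)))).trans_eq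
    (Matrix.linfty_opNorm_def a).symm

theorem Mx.norm_le {a : Mx S R} {c : ℝ} (c0 : 0 ≤ c) (h : ∀ s s', ‖a s s'‖ ≤ c) :
    ‖a‖ ≤ Fintype.card S * c := by
  lift c to NNReal using c0
  refine (Matrix.linfty_opNorm_def a).trans_le ?_
  exact_mod_cast Finset.sup_le fun i _ => (sum_le_card_nsmul _ _ c fun j _ => h i j).trans_eq
    (by simp)

/-- the matrix with given entries -/
def mk : (S → S → R) →L[ℝ] Mx S R :=
  LinearMap.mkContinuous ⟨⟨fun a => a, fun _ _ => rfl⟩, fun _ _ => rfl⟩ (Fintype.card S) fun a =>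
    Mx.norm_le (norm_nonneg _) fun s s' => (norm_le_pi_norm _ s').trans (norm_le_pi_norm a s)

theorem mk_ap (a : S → S → R) (s s' : S) : mk a s s' = a s s' := rfl

/-- a block -/
def blk (ι : S' → S) : Mx S R →L[ℝ] Mx S' R :=
  LinearMap.mkContinuous ⟨⟨fun a t t' => a (ι t) (ι t'), fun _ _ => rfl⟩, fun _ _ => rfl⟩
    (Fintype.card S') fun a => Mx.norm_le (norm_nonneg _) fun _ _ => ent_le a _ _

theorem blk_ap (ι : S' → S) (a : Mx S R) (t t' : S') : blk ι a t t' = a (ι t) (ι t') := rfl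

/-- diagonal matrices -/
def dg (h : S → R) : Mx S R := Matrix.diagonal h

theorem dg_mul (h : S → R) (a : Mx S R) (s s' : S) : (dg h * a) s s' = h s * a s s' :=
  Matrix.diagonal_mul ..

theorem mul_dg (h : S → R) (a : Mx S R) (s s' : S) : (a * dg h) s s' = a s s' * h s' :=
  Matrix.mul_diagonal ..

/-- the trace -/
def Tm (T : R →L[ℝ] ℂ) : Mx S R →L[ℝ] ℂ :=
  LinearMap.mkContinuous ⟨⟨fun a => ∑ s, T (a s s), fun a b => by
    simp only [← sum_add_distrib, ← map_add]; rfl⟩, fun c a => by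
    simp only [smul_sum, RingHom.id_apply, ← map_smul]; rfl⟩ (Fintype.card S * ‖T‖) fun a =>
    (norm_sum_le_of_le _ fun s _ => T.le_of_opNorm_le_of_le le_rfl (ent_le a s s)).trans_eq
      (by simp [mul_assoc])

/-- vertices of the unit cube -/
abbrev Vx (n : ℕ) : Type := Fin n → Bool

/-- the multi-affine function of a vertex -/
def hat (s : Vx n) (z : Fin n → ℝ) : ℝ := ∏ i, bif s i then z i else 1 - z i

/-- the approximate projection -/
def Hm (u : Vx n → Vx n → R) (z : Fin n → ℝ) : Mx (Vx n) R := mk fun s s' => hat s' z • u s s'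

/-- the charge of a cube -/
def qv (T : R →L[ℝ] ℂ) (u : Vx 4 → Vx 4 → R) : ℂ := qc (Tm T) fun z => mw^[5] (Hm u z)

/-- the flow through a face -/
def fc (T : R →L[ℝ] ℂ) (v : ℝ → Vx 3 → Vx 3 → R) : ℂ :=
  qc (Tm T) fun y => mw^[5] (Hm (v (y 0)) (Fin.tail y))

variable {T : R →L[ℝ] ℂ}

theorem Tm_apply (a : Mx S R) : Tm T a = ∑ s, T (a s s) := rfl

theorem Tm_comm (hT : ∀ a b, T (a * b) = T (b * a)) (a b : Mx S R) :
    Tm T (a * b) = Tm T (b * a) := by
  simp only [Tm_apply, mul_ap, map_sum]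
  exact sum_comm.trans (sum_congr rfl fun _ _ => sum_congr rfl fun _ _ => hT _ _)

theorem Tm_le (a : Mx S R) : ‖Tm T a‖ ≤ Fintype.card S * ‖T‖ * ‖a‖ :=
  (norm_sum_le_of_le _ fun s _ => T.le_of_opNorm_le_of_le le_rfl (ent_le a s s)).trans_eq
    (by simp [mul_assoc])

theorem Hm_ap (u : Vx n → Vx n → R) (z : Fin n → ℝ) (s s' : Vx n) :
    Hm u z s s' = hat s' z • u s s' := rfl

theorem sum_hat (z : Fin n → ℝ) : ∑ s : Vx n, hat s z = 1 := by
  have := prod_univ_sum (fun _ => univ) fun i b => bif b then z i else 1 - z i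
  rw [Fintype.piFinset_univ] at this
  simpa [hat] using this.symm

theorem hat_face (μ : Fin (n + 1)) (b c : Bool) (t : Vx n) (z : Fin n → ℝ) :
    hat (μ.insertNth b t) (μ.insertNth (bif c then 1 else 0) z) = if b = c then hat t z else 0 := by
  rw [hat, Fin.prod_univ_succAbove _ μ]
  cases b <;> cases c <;> simp [hat]

theorem df_Hm (u : Vx n → Vx n → R) (z : Fin n → ℝ) : df (Hm u z) =
    mk fun s s'' => ∑ s', (hat s' z * hat s'' z) • (u s s' * u s' s'' - u s s'') :=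
  Mx.ext fun s s'' => by
    change (Hm u z * Hm u z) s s'' - Hm u z s s'' = _
    simp only [mul_ap, Hm_ap, mk_ap, smul_sub, sum_sub_distrib, smul_mul_smul_comm,
      ← sum_smul, ← sum_mul, sum_hat, one_mul]

section jet
variable {X A B : Type} [NormedAddCommGroup X] [NormedSpace ℝ X] [NormedRing A] [NormedAlgebra ℝ A]
  [NormedRing B] [NormedAlgebra ℝ B] {P : X → A} {x : X}

theorem J1_sum {I : Type} [Fintype I] {P : I → X → A} {c : ℝ} (h : ∀ i, DifferentiableAt ℝ (P i) x)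
    (hc : ∀ i, J1 (P i) x ≤ c) : J1 (fun y => ∑ i, P i y) x ≤ Fintype.card I * c := by
  unfold J1 at *
  rw [fderiv_fun_sum fun i _ => h i]
  refine (add_le_add (norm_sum_le _ _) (norm_sum_le _ _)).trans ?_
  rw [← sum_add_distrib]
  exact (sum_le_sum fun i _ => hc i).trans_eq (by simp)

theorem J1_clm (hP : DifferentiableAt ℝ P x) (φ : A →L[ℝ] B) :
    J1 (fun y => φ (P y)) x ≤ ‖φ‖ * J1 P x := by
  rw [J1, J1, mul_add,
    show fderiv ℝ (fun y => φ (P y)) x = _ from (φ.hasFDerivAt.comp x hP.hasFDerivAt).fderiv]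
  exact add_le_add (φ.le_opNorm _) (φ.opNorm_comp_le _)

theorem J1_pi {I : Type} [Fintype I] {P : I → X → A} {c : ℝ} (c0 : 0 ≤ c)
    (h : ∀ i, DifferentiableAt ℝ (P i) x) (hc : ∀ i, J1 (P i) x ≤ c) :
    J1 (fun y i => P i y) x ≤ 2 * c := by
  rw [J1, fderiv_pi h, two_mul]
  exact add_le_add ((pi_norm_le_iff_of_nonneg c0).2 fun i =>
    (le_add_of_nonneg_right (norm_nonneg _)).trans (hc i))
    (ContinuousLinearMap.opNorm_le_bound _ c0 fun v => (pi_norm_le_iff_of_nonneg (by positivity)).2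
      fun i => (fderiv ℝ (P i) x).le_of_opNorm_le
        ((le_add_of_nonneg_left (norm_nonneg _)).trans (hc i)) v)

theorem J1_comp {Y : Type} [NormedAddCommGroup Y] [NormedSpace ℝ Y] (L : Y →L[ℝ] X) {y : Y}
    (hP : DifferentiableAt ℝ P (L y)) (h : ∀ a, ‖L a‖ ≤ ‖a‖) :
    J1 (fun y => P (L y)) y ≤ J1 P (L y) :=
  add_le_add le_rfl (ContinuousLinearMap.opNorm_le_bound _ (norm_nonneg _) fun v => by
    rw [show fderiv ℝ (fun y => P (L y)) y = _ from (hP.hasFDerivAt.comp y L.hasFDerivAt).fderiv]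
    exact (fderiv ℝ P (L y)).le_of_opNorm_le_of_le le_rfl (h v))

theorem J1_fsmul {f : X → ℝ} (hf : DifferentiableAt ℝ f x) (hP : DifferentiableAt ℝ P x) :
    J1 (fun y => f y • P y) x ≤ J1 f x * J1 P x := by
  have : ‖fderiv ℝ (fun y => f y • P y) x‖ ≤ ‖f x‖ * ‖fderiv ℝ P x‖ + ‖fderiv ℝ f x‖ * ‖P x‖ := by
    rw [fderiv_fun_smul hf hP]
    exact norm_add_le_of_le (norm_smul_le (f x) (fderiv ℝ P x))
      (ContinuousLinearMap.norm_smulRight_apply _ _).le
  unfold J1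
  nlinarith [norm_smul_le (f x) (P x), mul_nonneg (norm_nonneg (fderiv ℝ f x))
    (norm_nonneg (fderiv ℝ P x))]

theorem stokes5 {T : A →L[ℝ] ℂ} {c : ℝ} (c0 : 0 ≤ c) (hc : ∀ a, ‖T a‖ ≤ c * ‖a‖)
    (hT : ∀ a b, T (a * b) = T (b * a)) {H : (Fin 5 → ℝ) → A} (h : ContDiff ℝ 2 H)
    {ε : ℝ} (hε : ε ≤ 1) (h1 : ∀ x ∈ Set.Icc 0 1, J1 H x ≤ 10 ^ 5)
    (h2 : ∀ x ∈ Set.Icc 0 1, J1 (fun y => df (H y)) x ≤ ε / 7) :
    ‖∑ i : Fin 5, (-1) ^ (i : ℕ) * (qc T (fun y => mw^[5] (H (i.insertNth 1 y))) -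
      qc T fun y => mw^[5] (H (i.insertNth 0 y)))‖ ≤ 10 ^ 36 * c * ε ^ 32 := by
  have := stokes_mw hT h (by norm_num) (by linarith) h1 h2 5
  have t := T.opNorm_le_bound c0 hc
  have e : 0 ≤ ε ^ 32 := Even.pow_nonneg (by decide) _
  rw [mul_div_cancel₀ _ (by norm_num)] at this
  norm_num at this ⊢
  nlinarith [mul_le_mul_of_nonneg_right t e, mul_nonneg c0 e]

theorem J1_const (a : A) : J1 (fun _ => a) x = ‖a‖ := by simp [J1]

end jet

theorem cd_hat {k : WithTop ℕ∞} (s : Vx n) : ContDiff ℝ k (hat s) :=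
  contDiff_prod fun i _ => by cases s i <;> simp only [cond_true, cond_false] <;> fun_prop

theorem J1_hat (s : Vx n) {z : Fin n → ℝ} (hz : z ∈ Set.Icc 0 1) : J1 (hat s) z ≤ 3 ^ n := by
  have d : ∀ i, ContDiff ℝ 1 fun z : Fin n → ℝ => bif s i then z i else 1 - z i :=
    fun i => by cases s i <;> simp only [cond_true, cond_false] <;> fun_prop
  have a : ∀ i, J1 (fun z : Fin n → ℝ => z i) z ≤ 2 := fun i => by
    have := (hasFDerivAt_apply (𝕜 := ℝ) i z).fderiv
    rw [J1, this, ← one_add_one_eq_two]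
    exact add_le_add (abs_le.2 ⟨neg_one_lt_zero.le.trans (hz.1 i), hz.2 i⟩)
      (ContinuousLinearMap.opNorm_le_bound _ zero_le_one fun v => by
        simpa using norm_le_pi_norm v i)
  have : ∀ I : Finset (Fin n), J1 (fun z => ∏ i ∈ I, bif s i then z i else 1 - z i) z ≤ 3 ^ I.card :=
    fun I => by
      induction I using Finset.induction_on with
      | empty => simp [J1]
      | insert i I hi ih =>
        simp only [prod_insert hi, card_insert_of_notMem hi, pow_succ']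
        refine (J1_mul ((d i).differentiable one_ne_zero z) ((contDiff_prod fun i _ =>
          d i).differentiable one_ne_zero z)).trans (mul_le_mul ?_ ih J1_nonneg zero_le_three)
        cases s i
        · refine (J1_sub (differentiableAt_const _) (differentiableAt_apply i z)).trans ?_
          rw [J1_const, norm_one]
          linarith [a i]
        · exact (a i).trans (by norm_num)
  simpa using! this univ

theorem cd_Hm {X : Type} [NormedAddCommGroup X] [NormedSpace ℝ X] {k : WithTop ℕ∞}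
    {u : X → Vx n → Vx n → R} {z : X → Fin n → ℝ} (hu : ∀ s s', ContDiff ℝ k fun x => u x s s')
    (hz : ContDiff ℝ k z) : ContDiff ℝ k fun x => Hm (u x) (z x) :=
  (mk (S := Vx n) (R := R)).contDiff.comp (f := fun x s s' => hat s' (z x) • u x s s')
    (contDiff_pi.2 fun s => contDiff_pi.2 fun s' => ((cd_hat s').comp hz).smul (hu s s'))

theorem cd_tail {k : WithTop ℕ∞} : ContDiff ℝ k (Fin.tail : (Fin (n + 1) → ℝ) → Fin n → ℝ) :=
  contDiff_pi.2 fun i => contDiff_apply ℝ ℝ i.succ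

/-- gauge invariance -/
theorem qc_conj (hT : ∀ a b, T (a * b) = T (b * a)) {h k : S → R} (e : ∀ s, k s * h s = 1)
    {H : (Fin 4 → ℝ) → Mx S R} (hH : ContDiff ℝ 1 H) (m : ℕ) :
    qc (Tm T) (fun y => mw^[m] (dg h * H y * dg k)) =
      qc (Tm T) fun y => mw^[m] (H y) := by
  have e' : dg k * dg h = 1 := (Matrix.diagonal_mul_diagonal k h).trans (by simp only [e]; rfl)
  refine (qc_block (E := 1) (φ := ContinuousLinearMap.mulLeftRight ℝ _ (dg h) (dg k))
    (fun a b _ => ?_) (fun a _ => ?_) hH (fun _ => mul_one _) m).symm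
  · change dg h * (a * b) * dg k = dg h * a * dg k * (dg h * b * dg k)
    simp only [mul_assoc, ← mul_assoc (dg k), e', one_mul]
  · change Tm T (dg h * a * dg k) = _
    rw [Tm_comm hT, ← mul_assoc, e', one_mul]

theorem Hm_conj (h k : Vx n → R) (u : Vx n → Vx n → R) (z : Fin n → ℝ) :
    Hm (fun s s' => h s * u s s' * k s') z = dg h * Hm u z * dg k :=
  Mx.ext fun s s' => by simp [mul_dg, dg_mul, Hm_ap]

theorem qv_conj (hT : ∀ a b, T (a * b) = T (b * a)) {h k : Vx 4 → R} (e : ∀ s, k s * h s = 1)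
    (u : Vx 4 → Vx 4 → R) : qv T (fun s s' => h s * u s s' * k s') = qv T u := by
  simp only [qv, Hm_conj]
  exact qc_conj hT e (cd_Hm (u := fun _ => u) (z := fun z => z) (fun _ _ => contDiff_const) contDiff_id) 5

theorem fc_conj (hT : ∀ a b, T (a * b) = T (b * a)) {h k : Vx 3 → R} (e : ∀ s, k s * h s = 1)
    {v : ℝ → Vx 3 → Vx 3 → R} (hv : ∀ s s', ContDiff ℝ 1 fun τ => v τ s s') :
    fc T (fun τ s s' => h s * v τ s s' * k s') = fc T v := by
  simp only [fc, Hm_conj]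
  exact qc_conj hT e (cd_Hm (fun s s' => (hv s s').comp (contDiff_apply ℝ ℝ 0)) cd_tail) 5

/-- the faces of the cube -/
theorem qc_face {u : ℝ → Vx 4 → Vx 4 → R} (hu : ∀ s s', ContDiff ℝ 1 fun τ => u τ s s') (μ : Fin 4)
    (c : Bool) : qc (Tm T) (fun y : Fin 4 → ℝ =>
      mw^[5] (Hm (u (y 0)) (μ.insertNth (bif c then 1 else 0) (Fin.tail y)))) =
      fc T fun τ t t' => u τ (μ.insertNth c t) (μ.insertNth c t') := by
  have sm : ∀ {M : Type} [AddCommMonoid M] (g : Vx 4 → M), (∀ s, s μ ≠ c → g s = 0) →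
      ∑ s, g s = ∑ t : Vx 3, g (μ.insertNth c t) := fun g hg => by
    rw [← (μ.insertNthEquiv fun _ => Bool).sum_comp, Fintype.sum_prod_type,
      Fintype.sum_eq_single c fun b e => sum_eq_zero fun t _ => hg _ (by simpa using e)]
    rfl
  have z : ∀ a : Mx (Vx 4) R, a * dg (fun s => if s μ = c then 1 else 0) = a →
      ∀ s s', s' μ ≠ c → a s s' = 0 := fun a e s s' h => by
    rw [← e, mul_dg, if_neg h, mul_zero]
  refine (qc_block (E := dg fun s : Vx 4 => if s μ = c then 1 else 0) (T' := Tm T)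
    (φ := blk fun t : Vx 3 => μ.insertNth c t) (fun a b e => Mx.ext fun t t' => ?_) (fun a e => ?_)
    (cd_Hm (fun s s' => (hu s s').comp (contDiff_apply ℝ ℝ 0))
      (contDiff_pi.2 (μ.forall_iff_succAbove.2 ⟨?_, fun i => ?_⟩))) (fun y => Mx.ext fun s s' => ?_)
    5).trans ?_
  · rw [blk_ap, mul_ap, mul_ap]
    exact sm (fun s => a _ s * b s _) fun s h => by rw [z a e _ _ h, zero_mul]
  · exact (sm (fun s => T (a s s)) fun s h => by rw [z a e _ _ h, map_zero]).symm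
  · simpa using contDiff_const
  · simpa using! contDiff_apply ℝ ℝ i.succ
  · obtain ⟨⟨b, t⟩, rfl⟩ := (μ.insertNthEquiv fun _ => Bool).surjective s'
    by_cases e : b = c <;> simp [mul_dg, Hm_ap, hat_face, e, Fin.insertNthEquiv]
  · refine congrArg _ (funext fun y => congrArg _ (Mx.ext fun t t' => ?_))
    simp [blk_ap, Hm_ap, hat_face]

/-- the change of the charge of a cube is the flow through its faces -/
theorem cube (hT : ∀ a b, T (a * b) = T (b * a)) {u : ℝ → Vx 4 → Vx 4 → R}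
    (hu : ∀ s s', ContDiff ℝ 2 fun τ => u τ s s') {ε : ℝ} (hε : 10 ^ 9 * ε ≤ 1)
    (h1 : ∀ τ ∈ Set.Icc (0 : ℝ) 1, ∀ s s', J1 (fun τ => u τ s s') τ ≤ 2)
    (h2 : ∀ τ ∈ Set.Icc (0 : ℝ) 1, ∀ s s' s'', J1 (fun τ => u τ s s' * u τ s' s'' - u τ s s'') τ ≤ ε) :
    ‖qv T (u 1) - qv T (u 0) - ∑ μ : Fin 4, (-1) ^ (μ : ℕ) *
      (fc T (fun τ t t' => u τ (μ.insertNth true t) (μ.insertNth true t')) -
        fc T fun τ t t' => u τ (μ.insertNth false t) (μ.insertNth false t'))‖ ≤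
      10 ^ 36 * (16 * ‖T‖) * (10 ^ 9 * ε) ^ 32 := by
  have ε0 := J1_nonneg.trans (h2 0 ⟨le_rfl, zero_le_one⟩ 0 0 0)
  let L0 : (Fin 5 → ℝ) →L[ℝ] ℝ := ContinuousLinearMap.proj 0
  let L1 : (Fin 5 → ℝ) →L[ℝ] Fin 4 → ℝ :=
    ContinuousLinearMap.pi fun i => ContinuousLinearMap.proj i.succ
  have a0 : ∀ {g : ℝ → R} {c} {x : Fin 5 → ℝ}, ContDiff ℝ 2 g → J1 g (x 0) ≤ c →
      DifferentiableAt ℝ (fun x : Fin 5 → ℝ => g (x 0)) x ∧
        J1 (fun x : Fin 5 → ℝ => g (x 0)) x ≤ c := fun hg hc =>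
    ⟨(hg.differentiable two_ne_zero _).comp _ L0.differentiableAt,
      (J1_comp L0 (hg.differentiable two_ne_zero _) fun v => norm_le_pi_norm v 0).trans hc⟩
  have a1 : ∀ s, ∀ x ∈ Set.Icc (0 : Fin 5 → ℝ) 1,
      DifferentiableAt ℝ (fun x : Fin 5 → ℝ => hat s (Fin.tail x)) x ∧
        J1 (fun x : Fin 5 → ℝ => hat s (Fin.tail x)) x ≤ 3 ^ 4 := fun s x hx =>
    ⟨((cd_hat s).comp cd_tail).differentiable one_ne_zero x,
      (J1_comp L1 ((cd_hat s).differentiable one_ne_zero _) fun v =>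
        (pi_norm_le_iff_of_nonneg (norm_nonneg _)).2 fun i => norm_le_pi_norm v _).trans
        (J1_hat s ⟨fun i => hx.1 _, fun i => hx.2 _⟩)⟩
  have a2 : ∀ {g : Vx 4 → Vx 4 → (Fin 5 → ℝ) → R} {c} {x : Fin 5 → ℝ},
      (∀ s s', DifferentiableAt ℝ (g s s') x ∧ J1 (g s s') x ≤ c) →
      J1 (fun x => mk fun s s' => g s s' x) x ≤ 16 * (2 * (2 * c)) := fun {g c x} h => by
    have d := fun s => differentiableAt_pi.2 fun s' => (h s s').1
    have c0 := J1_nonneg.trans (h 0 0).2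
    exact (J1_clm (differentiableAt_pi.2 d) mk).trans (mul_le_mul
      ((LinearMap.mkContinuous_norm_le _ (by positivity) _).trans_eq (by simp))
      (J1_pi (by positivity) d fun s => J1_pi c0 (fun s' => (h s s').1) fun s' => (h s s').2)
      J1_nonneg (by positivity))
  have := stokes5 (c := 16 * ‖T‖) (by positivity) (fun a => (Tm_le a).trans_eq (by simp))
    (Tm_comm hT) (H := fun x => Hm (u (x 0)) (Fin.tail x))
    (cd_Hm (fun s s' => (hu s s').comp (contDiff_apply ℝ ℝ 0)) cd_tail) hε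
    (fun x hx => (a2 (c := 3 ^ 4 * 2) fun s s' => ?_).trans (by norm_num)) fun x hx => ?_
  · have e := qc_face (T := T) fun s s' => (hu s s').of_le one_le_two
    have e1 : ∀ (μ : Fin 4) (c : ℝ) (y : Fin 4 → ℝ),
        (μ.succ.insertNth c y : Fin 5 → ℝ) = Fin.cons (y 0) (μ.insertNth c (Fin.tail y)) :=
      fun μ c y => by
        conv_lhs => rw [← Fin.cons_self_tail y]
        exact Fin.insertNth_succ_cons ..
    simp only [← e, cond_true, cond_false]
    rw [Fin.sum_univ_succ] at this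
    simpa only [e1, Fin.insertNth_zero', Fin.cons_zero, Fin.tail_cons, Fin.val_zero, pow_zero,
      one_mul, Fin.val_succ, pow_succ _ (_ : Fin 4).val, mul_neg, mul_one, neg_mul, sum_neg_distrib,
      ← sub_eq_add_neg] using! this
  · have b := a0 (hu s s') (h1 _ ⟨hx.1 0, hx.2 0⟩ s s')
    exact ⟨(a1 s' x hx).1.fun_smul b.1, (J1_fsmul (a1 s' x hx).1 b.1).trans
      (mul_le_mul (a1 s' x hx).2 b.2 J1_nonneg (by positivity))⟩
  · simp only [df_Hm]
    refine (a2 (c := 16 * (3 ^ 4 * 3 ^ 4 * ε)) fun s s'' => ?_).trans (by linarith)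
    have b := fun s' => a0 (((hu s s').mul (hu s' s'')).sub (hu s s'')) (h2 _ ⟨hx.1 0, hx.2 0⟩ s s' s'')
    have d := fun s' => (a1 s' x hx).1.fun_mul (a1 s'' x hx).1
    refine ⟨.fun_sum fun s' _ => (d s').fun_smul (b s').1, (J1_sum (fun s' => (d s').fun_smul (b s').1)
      fun s' => (J1_fsmul (d s') (b s').1).trans (mul_le_mul ((J1_mul (a1 s' x hx).1
        (a1 s'' x hx).1).trans (mul_le_mul (a1 s' x hx).2 (a1 s'' x hx).2 J1_nonneg (by positivity)))
        (b s').2 J1_nonneg (by positivity))).trans_eq (by simp)⟩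

end Pool.Agent.Lib.MP_7f377f_mp.Chf
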