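import Pool.Agent.Lib.MP_7f377f_mp.G.S21G2a
import Pool.Agent.Lib.MP_7f377f_mp.G.S21Spec

/-! The density of the topological charge of a lattice field. -/

noncomputable section

set_option linter.unusedSectionVars false
variable [Pool.Agent.Lib.MP_7f377f_mp.GD]

namespace Pool.Agent.Lib.MP_7f377f_mp.RG.Q4

open Finset Matrix Chf

attribute [local irreducible] box lbox

/-- the position of a vertex of the unit cube -/
def pos (s : Chf.Vx 4) : St := fun i => bif s i then 1 else 0

/-- the transport between two vertices of the unit cube -/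
def pth {α : Type} [Monoid α] (iv : α → α) (W : Lk → α) (s s' : Chf.Vx 4) : α :=
  cmb iv (sh (pos s) W) (pos s' - pos s)

/-- the trace -/
def tqC : Hc →L[ℂ] ℂ := LinearMap.toContinuousLinearMap
  ⟨⟨fun q => (GD.t : ℂ) ^ 2 * trace q.m, fun p q => by simp [mul_add]⟩, fun c q => by
    simp [mul_left_comm]⟩

/-- the trace as a real linear map -/
def tq : Hc →L[ℝ] ℂ := tqC.restrictScalars ℝ

/-- the density of the topological charge -/
def qh (W : Cf) : ℂ := qv tq (pth star W)

theorem tq_apply (q : Hc) : tq q = (GD.t : ℂ) ^ 2 * trace q.m := rfl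

theorem tq_comm (p q : Hc) : tq (p * q) = tq (q * p) := by
  simp only [tq_apply, Un.m_mul, trace_add, trace_mul_comm p.m, add_comm (trace (p.re • q.m))]

/-- one step of the transport -/
def stp {α : Type} [Monoid α] (iv : α → α) (W : Lk → α) (s s' : Chf.Vx 4) (μ : Fin 4) : α :=
  ln iv (sh (pos s) W) (pre (pos s' - pos s) μ) μ ((pos s' - pos s) μ)

/-- the base point of the link of a step -/
def bas (s s' : Chf.Vx 4) (μ : Fin 4) : Chf.Vx 4 := fun i => if i < μ then s' i else if i = μ then false else s i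

theorem pos_mem (s : Chf.Vx 4) : pos s ∈ box 1 := Op.mem_box.2 fun i => by
  rw [pos]
  cases s i <;> simp

section
variable {α : Type} [Monoid α] (iv : α → α) (W : Lk → α) (s s' : Chf.Vx 4)

theorem pth_eq : pth iv W s s' =
    stp iv W s s' 0 * stp iv W s s' 1 * stp iv W s s' 2 * stp iv W s s' 3 := rfl

theorem stp_eq (μ : Fin 4) : stp iv W s s' μ = if s μ = s' μ then 1 else
    bif s μ then iv (W (pos (bas s s' μ), μ)) else W (pos (bas s s' μ), μ) := by
  have e : ∀ c : ℤ, pos s μ = c → pre (pos s' - pos s) μ - c • un μ + pos s = pos (bas s s' μ) :=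
    fun c h => funext fun i => by
      rcases lt_trichotomy i μ with a | rfl | a
      · simp [pre, un, bas, pos, a, a.ne]
      · simp [pre, un, bas, ← h, pos]
      · simp [pre, un, bas, pos, a.not_gt, a.ne']
  have e0 := e 0
  have e1 := e 1
  rw [stp, Pi.sub_apply]
  cases h : s μ <;> cases h' : s' μ <;> simp [pos, h, h', ln, lnP, lnN, sh] at e0 e1 ⊢
  · rw [e0]
  · rw [e1]

end

theorem pth_agr {α : Type} [Monoid α] (iv : α → α) {W W' : Lk → α} (h : Agr 1 W W') :
    pth iv W = pth iv W' := funext₂ fun s s' => by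
  simp only [pth_eq, stp_eq, fun t μ => h (pos t, μ) (Op.mem_lbox.2 (pos_mem t))]

theorem qh_agr {W W' : Cf} (h : Agr 1 W W') : qh W = qh W' := by rw [qh, pth_agr _ h, qh]

theorem pth_gauge {h : St → Hc} (hh : ∀ x, Uni (h x)) (W : Cf) (s s' : Chf.Vx 4) :
    pth star (gauge star h W) s s' = h (pos s) * pth star W s s' * star (h (pos s')) := by
  simp only [pth, sh_gauge, cmb_gauge_star fun _ => hh _, zero_add, sub_add_cancel]

theorem qh_gauge {h : St → Hc} (hh : ∀ x, Uni (h x)) (W : Cf) : qh (gauge star h W) = qh W :=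
  (congrArg _ (funext₂ (pth_gauge hh W))).trans (qv_conj tq_comm (fun _ => (hh _).star_mul) _)

end Pool.Agent.Lib.MP_7f377f_mp.RG.Q4
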