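import Pool.Agent.Lib.MP_7f377f_mp.G.S21G3a
import Pool.Agent.Lib.MP_7f377f_mp.G.S21G2
import Pool.Agent.Lib.MP_7f377f_mp.G.Q4IniA

/-! The marginal direction given by the density of the topological charge. -/

noncomputable section

set_option linter.unusedSectionVars false
variable [Pool.Agent.Lib.MP_7f377f_mp.GD]

namespace Pool.Agent.Lib.MP_7f377f_mp.RG.Q4.Ch2

open Finset MeasureTheory Equiv Chf En En.Ty

attribute [local irreducible] box lbox

section lin

variable {W : Type} [AddCommGroup W] (a : Lk → W) (s s' : Chf.Vx 4)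

/-- the linear transport between two vertices -/
def lp : W := lam (sh (pos s) a) (pos s' - pos s)

theorem lp_eq : lp a s s' = ∑ μ, (pos s' μ - pos s μ) • a (pos (bas s s' μ), μ) := by
  rw [lp, lam]
  exact sum_congr rfl fun μ _ => by
    have e : ∀ c : ℤ, pos s μ = c → pre (pos s' - pos s) μ - c • un μ + pos s = pos (bas s s' μ) :=
      fun c h => funext fun i => by
        rcases lt_trichotomy i μ with a | rfl | a
        · simp [pre, un, bas, pos, a, a.ne]
        · simp [pre, un, bas, ← h, pos]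
        · simp [pre, un, bas, pos, a.not_gt, a.ne']
    have e0 := e 0
    have e1 := e 1
    rw [Pi.sub_apply]
    cases h : s μ <;> cases h' : s' μ <;> simp [pos, h, h', pr, sh] at e0 e1 ⊢
    · rw [e0]
    · rw [← e1]
      rfl

theorem lp_gr (u : St → W) : lp (gr u) s s' = u (pos s') - u (pos s) := by
  rw [lp, sh_gr, lam_unique (u := fun x => u (x + pos s) - u (pos s)) (by simp) fun p ν _ => by
    simp [gr]]
  simp

end lin

theorem lp_le {W : Type} [NormedAddCommGroup W] {a : Lk → W} {δ : ℝ} (h : Sm 1 δ a)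
    (s s' : Chf.Vx 4) : ‖lp a s s'‖ ≤ 4 * δ := by
  rw [lp_eq]
  refine (norm_sum_le_of_le _ fun μ _ => (?_ : _ ≤ δ)).trans_eq (by simp)
  have := h (pos (bas s s' μ), μ) (Op.mem_lbox.2 (pos_mem _))
  cases h : s μ <;> cases h' : s' μ <;> simp [pos, h, h', this, (norm_nonneg _).trans this]

/-- the coefficients of the second order term -/
def cfq (p p' : Chf.Vx 4 × Chf.Vx 4) : ℝ := ∫ z in Set.Icc 0 1, ∑ σ : Perm (Fin 4),
  ((Perm.sign σ : ℤ) : ℝ) * (dh (σ 0) z p.1 * dh (σ 1) z p.2 * (dh (σ 2) z p'.1 * dh (σ 3) z p'.2))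

theorem int_bt {M E : Type} [AddCommGroup M] [Module ℝ M] [NormedAddCommGroup E] [NormedSpace ℝ E]
    [CompleteSpace E] (φ : M →ₗ[ℝ] M →ₗ[ℝ] E) (b b' : Chf.Vx 4 → Chf.Vx 4 → M) :
    ∫ z in Set.Icc 0 1, ∑ σ : Perm (Fin 4), ((Perm.sign σ : ℤ) : ℝ) •
      φ (bt (σ 0) (σ 1) z b) (bt (σ 2) (σ 3) z b') =
      ∑ p, ∑ p', cfq p p' • φ (b p.1 p.2) (b' p'.1 p'.2) := by
  have c := cont_dh
  simp only [cfq, ← integral_smul_const]
  rw [← funext fun p => integral_finset_sum _ fun p' _ => Continuous.integrableOn_Icc (by fun_prop),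
    ← integral_finset_sum _ fun p _ => Continuous.integrableOn_Icc (by fun_prop)]
  refine integral_congr_ae (.of_forall fun z => ?_)
  have e : ∀ i j (b : Chf.Vx 4 → Chf.Vx 4 → M), bt i j z b =
      ∑ p : Chf.Vx 4 × Chf.Vx 4, (dh i z p.1 * dh j z p.2) • b p.1 p.2 := fun i j b =>
    (Fintype.sum_prod_type' _).symm
  simp only [e, LinearMap.map_sum₂, LinearMap.map_smul₂]
  simp only [map_sum, map_smul, smul_sum, sum_smul, smul_smul]
  rw [sum_comm]
  exact sum_congr rfl fun p _ => sum_comm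

/-- the linear transport as a linear form -/
def lpL (p : Chf.Vx 4 × Chf.Vx 4) : V →ₗ[ℝ] ℝ :=
  ∑ μ, (pos p.2 μ - pos p.1 μ) • LinearMap.proj (pos (bas p.1 p.2 μ), μ)

theorem lpL_apply (p : Chf.Vx 4 × Chf.Vx 4) (a : V) : lpL p a = lp a p.1 p.2 := by
  simp [lpL, lp_eq]

/-- the second order term -/
def k0 : BF := ∑ p, ∑ p', cfq p p' • (LinearMap.mul ℝ ℝ).compl₁₂ (lpL p) (lpL p')

/-- its symmetric part -/
def kq : BF := (2⁻¹ : ℝ) • (k0 + k0.flip)

/-- the terms of higher order -/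
def Tq (B : Fld) : ℂ := -qh (exF (cg B)) - cx kq B B

theorem k0_apply (a b : V) : k0 a b = ∑ p, ∑ p', cfq p p' * (lp a p.1 p.2 * lp b p'.1 p'.2) := by
  rw [k0, LinearMap.sum_apply, LinearMap.sum_apply]
  refine sum_congr rfl fun p _ => ?_
  rw [LinearMap.sum_apply, LinearMap.sum_apply]
  exact sum_congr rfl fun p' _ => by rw [← lpL_apply, ← lpL_apply]; rfl

theorem k0_int (a b : V) : k0 a b = ∫ z in Set.Icc 0 1, ∑ σ : Perm (Fin 4),
    ((Perm.sign σ : ℤ) : ℝ) * (bt (σ 0) (σ 1) z (lp a) * bt (σ 2) (σ 3) z (lp b)) :=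
  (k0_apply a b).trans (int_bt (LinearMap.mul ℝ ℝ) (lp a) (lp b)).symm

theorem kq_apply (a b : V) : kq a b = 2⁻¹ * (k0 a b + k0 b a) := rfl

theorem bt_eq (i j : Fin 4) (z : Fin 4 → ℝ) {b : Chf.Vx 4 → Chf.Vx 4 → ℝ} {g g' : Chf.Vx 4 → ℝ}
    {c : Mt} (h : ∀ s s', b s s' = g s + g' s' + ∑ μ, ∑ ν, c μ ν * (pos s μ * pos s' ν)) :
    bt i j z b = c i j := by
  have d : ∀ i μ, ∑ s, dh i z s * pos s μ = if μ = i then 1 else 0 := fun i μ => by
    rw [sum_dh_mul i z (f := fun z => z μ) fun z => ?_]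
    · simp [D, fderiv_apply, Pi.single_apply]
    · have := prod_univ_sum (fun _ => univ) fun i b =>
        (bif b then z i else 1 - z i) * if i = μ then bif b then 1 else 0 else 1
      rw [Fintype.piFinset_univ] at this
      simp only [prod_mul_distrib, prod_ite_eq', mem_univ, if_true] at this
      refine (sum_congr rfl fun s _ => ?_).trans (this.symm.trans ?_)
      · rw [hat, pos]
        cases s μ <;> simp
      · rw [prod_eq_single μ (fun i _ h => by simp [h]) (by simp)]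
        simp
  have e : ∀ μ ν, ∑ s, ∑ s', dh i z s * dh j z s' * (c μ ν * (pos s μ * pos s' ν)) =
      c μ ν * ((if μ = i then 1 else 0) * if ν = j then 1 else 0) := fun μ ν => by
    rw [← d, ← d, sum_mul_sum, mul_sum]
    refine sum_congr rfl fun s _ => ?_
    rw [mul_sum]
    exact sum_congr rfl fun s' _ => by ring
  have e1 : ∑ s, ∑ s', dh i z s * dh j z s' * g s = 0 := by
    simp [mul_right_comm _ _ (g _), ← mul_sum, sum_dh]
  have e2 : ∑ s, ∑ s', dh i z s * dh j z s' * g' s' = 0 := by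
    simp [mul_assoc, ← mul_sum, ← sum_mul, sum_dh]
  simp only [bt, h, smul_eq_mul, mul_add, sum_add_distrib, e1, e2, mul_sum, zero_add,
    sum_comm (γ := Chf.Vx 4) (α := Fin 4), e]
  simp

theorem bt_gr (i j : Fin 4) (z : Fin 4 → ℝ) (u : St → ℝ) : bt i j z (lp (gr u)) = 0 :=
  bt_eq i j z (c := 0) (g := fun s => -u (pos s)) (g' := fun s => u (pos s)) fun s s' => by
    simp [lp_gr, neg_add_eq_sub]

theorem kq_symm (a b : V) : kq a b = kq b a := by rw [kq_apply, kq_apply, add_comm]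

theorem kq_gr (u : St → ℝ) (b : V) : kq (gr u) b = 0 := by simp [kq_apply, k0_int, bt_gr]

theorem k0_cb : ∃ c, 0 ≤ c ∧ ∀ a b δ δ', Sm 1 δ a → Sm 1 δ' b → |k0 a b| ≤ c * δ * δ' := by
  refine ⟨∑ p, ∑ p', |cfq p p'| * 16, sum_nonneg fun _ _ => sum_nonneg fun _ _ => by positivity,
    fun a b δ δ' ha hb => ?_⟩
  rw [k0_apply, sum_mul, sum_mul, ← Real.norm_eq_abs]
  refine norm_sum_le_of_le _ fun p _ => ?_
  rw [sum_mul, sum_mul]
  refine norm_sum_le_of_le _ fun p' _ => ?_
  rw [norm_mul, norm_mul]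
  exact (mul_le_mul_of_nonneg_left (mul_le_mul (lp_le ha p.1 p.2) (lp_le hb p'.1 p'.2)
    (norm_nonneg _) (by linarith [ha.nonneg])) (norm_nonneg _)).trans_eq
      (by rw [Real.norm_eq_abs]; ring)

theorem kq_cb : ∃ σ, 0 ≤ σ ∧ Cb 1 σ kq := by
  have e := (fun (m : BF) h a b => by simp [cg, h] :
    ∀ m : BF, (∀ u b, m (gr u) b = 0) → ∀ a b, m (cg a) b = m a b) kq kq_gr
  obtain ⟨c, c0, k⟩ := k0_cb
  refine ⟨c * 9, by positivity, fun a b δ δ' ha hb => ?_⟩
  have h1 := abs_le.1 (k (cg a) (cg b) _ _ (Sm_cg ha) (Sm_cg hb))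
  have h2 := abs_le.1 (k (cg b) (cg a) _ _ (Sm_cg hb) (Sm_cg ha))
  rw [← e, kq_symm, ← e, kq_apply, abs_le]
  push_cast at h1 h2
  constructor <;> linarith

theorem kq_pt {F G : Mt} (hF : As F) (hG : As G) : kq (pt F) (pt G) = F 1 0 * G 3 2 + F 3 2 * G 1 0 -
    F 2 0 * G 3 1 - F 3 1 * G 2 0 + F 3 0 * G 2 1 + F 2 1 * G 3 0 := by
  have b : ∀ {F}, As F → ∀ i j z, bt i j z (lp (pt F)) = if j < i then F i j else 0 :=
    fun {F} hF i j z => bt_eq i j z (c := fun i j => if j < i then F i j else 0)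
      (g := fun s => lp (pt F) s 0) (g' := fun s => lp (pt F) 0 s) fun s s' => by
        have p : ∀ s s' μ ν, pos (bas s s' μ) ν = if ν < μ then pos s' ν else if ν = μ then 0
            else pos s ν := fun s s' μ ν => by
          simp only [pos, bas]
          split_ifs <;> rfl
        have z : ∀ ν, pos 0 ν = 0 := fun _ => rfl
        simp [lp_eq, pt, p, z, Fin.sum_univ_four, hF 1 0, hF 2 0, hF 3 0, hF 2 1, hF 3 1, hF 3 2]
        ring
  have s : (univ : Finset (Perm (Fin 4))).val.map (fun σ => if σ 1 < σ 0 ∧ σ 3 < σ 2 then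
      some ((Perm.sign σ : ℤ), σ 0, σ 1, σ 2, σ 3) else none) = Multiset.ofList ([some (1, 1, 0, 3, 2),
        some (1, 3, 2, 1, 0), some (-1, 2, 0, 3, 1), some (-1, 3, 1, 2, 0), some (1, 3, 0, 2, 1),
        some (1, 2, 1, 3, 0)] ++ List.replicate 18 none) := by decide +kernel
  have k : ∀ {F G}, As F → As G → k0 (pt F) (pt G) = F 1 0 * G 3 2 + F 3 2 * G 1 0 -
      F 2 0 * G 3 1 - F 3 1 * G 2 0 + F 3 0 * G 2 1 + F 2 1 * G 3 0 := fun {F G} hF hG => by
    have := congrArg (fun m => (m.map fun o => o.elim 0 fun x : ℤ × Fin 4 × Fin 4 × Fin 4 × Fin 4 =>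
      (x.1 : ℝ) * (F x.2.1 x.2.2.1 * G x.2.2.2.1 x.2.2.2.2)).sum) s
    simp only [Multiset.map_map, Function.comp] at this
    simp only [k0_int, b hF, b hG]
    rw [setIntegral_const, show (volume.real (Set.Icc (0 : Fin 4 → ℝ) 1)) = 1 by
      simp [Measure.real, Real.volume_Icc_pi], one_smul]
    refine (sum_congr rfl fun σ _ => ?_).trans (this.trans ?_)
    · split_ifs <;> simp_all
    · simp
      ring
  rw [kq_apply, k hF hG, k hG hF]
  ring

theorem cx_k0 (A B : Fld) :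
    cx k0 A B = ∑ p, ∑ p', cfq p p' • dot (lp A p.1 p.2) (lp B p'.1 p'.2) := by
  have r : ∀ (A : Fld) k s s', lp (reF A k) s s' = (lp A s s' k).re ∧
      lp (imF A k) s s' = (lp A s s' k).im := fun A k s s' => by simp [lp_eq, reF, imF]
  simp only [k0, cx_sum, cx_smul]
  refine sum_congr rfl fun p _ => sum_congr rfl fun p' _ => congrArg _ (sum_congr rfl fun k _ => ?_)
  simp [lpL_apply, r, Complex.ext_iff]

theorem cx_kq (B : Fld) : cx kq B B = cx k0 (cg B) (cg B) := by
  rw [← JS.cx_cg_left kq_gr, ← JS.cx_cg_right fun u b => (kq_symm _ _).trans (kq_gr u b), kq,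
    cx_smul, cx_add, show cx k0.flip (cg B) (cg B) = cx k0 (cg B) (cg B) by simp [cx, add_comm]]
  push_cast
  ring

theorem q2_io (A : Fld) : Chf.q2 tq (fun s s' => io (lp A s s')) = -cx k0 A A := by
  have t : ∀ a b, tq (io a * io b) = -dot a b := fun a b => by
    have h : (io a).m.transpose = -(io a).m := congrArg Un.m (star_io a)
    rw [← co_io b, ← bq_io, co_io]
    simp [bq, tq_apply, h]
  have := int_bt ((LinearMap.mul ℝ Hc).compr₂ (tq : Hc →ₗ[ℝ] ℂ)) (fun s s' => io (lp A s s'))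
    fun s s' => io (lp A s s')
  simp only [LinearMap.compr₂_apply, LinearMap.mul_apply', ContinuousLinearMap.coe_coe, t, smul_neg,
    sum_neg_distrib, ← cx_k0] at this
  simpa [Chf.q2] using this

theorem pth_cl {X : Type} {P : (X → Hc) → Prop} (h1 : P fun _ => 1)
    (hm : ∀ f g, P f → P g → P fun x => f x * g x) (hs : ∀ f, P f → P fun x => star (f x))
    {U : X → Cf} (hU : ∀ e ∈ lbox 1, P (U · e)) (s s' : Chf.Vx 4) :
    P fun x => pth star (U x) s s' := by
  have k : ∀ μ, P fun x => stp star (U x) s s' μ := fun μ => by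
    have := hU (pos (bas s s' μ), μ) (Op.mem_lbox.2 (pos_mem _))
    simp only [stp_eq]
    split_ifs
    · exact h1
    · cases s μ
      exacts [this, hs _ this]
  exact hm _ _ (hm _ _ (hm _ _ (k 0) (k 1)) (k 2)) (k 3)

theorem diff_qv : Differentiable ℂ (qv tq) :=
  qv_mem (X := Chf.Vx 4 → Chf.Vx 4 → Hc) (T := tq) (u := id)
    ⟨⟨⟨⟨{w | Differentiable ℂ w}, fun a b => a.mul b⟩, differentiable_const _⟩,
      fun a b => a.add b, differentiable_const _⟩, fun _ => differentiable_const _⟩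
    ⟨⟨⟨{w | Differentiable ℂ w}, fun a b => a.add b⟩, differentiable_const _⟩,
      fun c _ a => a.const_smul c⟩ (fun _ h => tqC.differentiable.comp h) fun s s' =>
        show Differentiable ℂ _ by fun_prop

theorem qh_real (U : Conf) : (qh (cC U)).im = 0 :=
  qv_mem (X := Unit) (T := tq) (u := fun _ => pth star (cC U))
    ⟨⟨⟨⟨{w | ∃ q, cq q = w ()}, fun ⟨p, a⟩ ⟨q, b⟩ => ⟨p * q, by rw [cq_mul, a, b]; rfl⟩⟩,
      1, cq_one⟩, fun ⟨p, a⟩ ⟨q, b⟩ => ⟨p + q, by rw [cq_add, a, b]; rfl⟩, 0, cq_zero⟩,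
      fun r => ⟨r • 1, by rw [cq_smul, cq_one, Algebra.algebraMap_eq_smul_one]; rfl⟩⟩
    ⟨⟨⟨{w | (w ()).im = 0}, fun a b => by simp_all⟩, rfl⟩, fun c _ a => by simp_all⟩
    (fun _ ⟨q, h⟩ => by simp [← h, tq_apply, cq_m, Matrix.trace, ← Complex.ofReal_pow])
    fun s s' => ⟨_, (cmb_cC (sh (pos s) U) _).symm⟩

theorem tc_Tq : ∃ ρ C, 0 < ρ ∧ Tc 2 ρ C Tq := by
  obtain ⟨C, hC⟩ := qv_two (T := tq) tq_comm
  obtain ⟨σ, -, hk⟩ := kq_cb
  have r := La.Q.cb_rng hk
  have sm : ∀ {B : Fld} {d}, Cv 2 d B → Sm 2 (6 * d) (cg B) := fun hB =>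
    (Sm_cg hB).mono le_rfl (by norm_num)
  refine ⟨1 / 1000, C * 200 ^ 3, by norm_num, fun A B h => ?_, fun Ω γ _ hγ hc => ?_,
    fun B d hB hd => ?_, fun h B => ?_, ?_⟩
  · have := JT.cg_loc h
    rw [Tq, Tq, qh_agr (W := exF (cg A)) (W' := exF (cg B)) fun e he => congrArg ex (this e (lbox_mono one_le_two he)),
      ← JS.cx_cg_left kq_gr, ← JS.cx_cg_right fun u b => (kq_symm _ _).trans (kq_gr u b),
      cx_agr r this this, JS.cx_cg_left kq_gr,
      JS.cx_cg_right fun u b => (kq_symm _ _).trans (kq_gr u b)]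
  · refine (diff_qv.comp_differentiableOn (differentiableOn_pi.2 fun s => differentiableOn_pi.2
      fun s' => ?_)).neg.sub (diff_cx r (fun e _ => hγ e) fun e _ => hγ e)
    exact pth_cl (P := fun f => DifferentiableOn ℂ f Ω) (differentiableOn_const _)
      (fun _ _ => .mul) (fun _ => diff_star) (fun e he => diff_ex (hγ.cg e) fun t ht =>
        (sm (hc t ht) e (lbox_mono one_le_two he)).trans (by norm_num)) s s'
  · have d0 := hB.nonneg
    have := hC (pth star (exF (cg B))) (fun s s' => io (lp (cg B) s s')) (200 * d) (by linarith)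
      fun s s' => ⟨(norm_io_eq _).trans_le ((lp_le ((sm hB).mono one_le_two le_rfl) s s').trans
        (by linarith)), ?_⟩
    · rw [q2_io, sub_neg_eq_add, ← cx_kq] at this
      rw [Tq, ← neg_add', norm_neg]
      exact this.trans_eq (by ring)
    · have m : pos s' - pos s ∈ box 1 := Op.mem_box.2 fun i => by
        simp only [Pi.sub_apply, pos]
        cases s i <;> cases s' i <;> simp
      have h4 : (ht (pos s' - pos s) : ℝ) ≤ 4 := by exact_mod_cast ht_le m
      have := ((nr_cmb (R := 1) (U := sh (pos s) (exF (cg B))) (b := sh (pos s) (cg B)) (fun e he =>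
        (Ap_exF (sm hB) (by linarith)).nr (by nlinarith) _ (mem_lbox.2 (add_mem_box (r := 1)
          (mem_lbox.1 he) (pos_mem s)))) _ m).mono (s' := 96 * d) (u' := 1440 * d ^ 2)
            (by positivity) (by nlinarith) (by nlinarith)).le (by positivity) (by linarith)
      exact this.2.trans (by nlinarith)
  · rw [Tq, Tq, cx_adF _ r (uni_cS h), show cg (adF (fun _ => cS h) B) = adF (fun _ => cS h) (cg B)
      from cg_map (adL (cS h)).toAddMonoidHom B, ← qh_gauge (fun _ => uni_cS h) (exF (cg B))]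
    congr 3
    funext e
    exact ex_adq (uni_cS h) _
  · have h1 : ∀ e, Measurable fun B : Fld => cg B e := fun e => by
      simp only [cg, gr, lam, pr, Pi.sub_apply]
      fun_prop
    exact (diff_qv.continuous.measurable.comp (measurable_pi_lambda _ fun s =>
      measurable_pi_lambda _ fun s' => pth_cl (P := MQ) (mq_const 1) (fun _ _ => MQ.mul)
        (fun _ => MQ.star) (fun e _ => mq_ex (h1 e)) s s')).neg.sub
          (measurable_cx r measurable_id measurable_id)

theorem dir_q : Dir T1' ((0, 1), (2, 3)) kq Tq := by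
  refine ⟨kq_symm, kq_cb, ?_, fun g hg F hF => ?_, tc_Tq, fun B hB => ?_⟩
  · exact (kq_pt (as_EE _) (as_EE _)).trans (by simp [EE, EZ])
  · rw [kq_pt (as_mt hF _) (as_mt hF _), kq_pt hF hF]
    simp only [T1', Ty.rf, sa, sw, List.cons_append, List.nil_append, List.mem_cons,
      List.not_mem_nil, or_false] at hg
    rcases hg with rfl | rfl | rfl | rfl | rfl | rfl | rfl | rfl | rfl | rfl <;>
      simp [Ty.mt, pM, rM, sg, sb, swap_apply_def, hF 1 0, hF 2 0, hF 3 0, hF 2 1, hF 3 1,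
        hF 3 2] <;> ring
  · choose U hU using fun e => ex_real' (b := cg B e) fun k => by simp [cg, gr, lam, pr, hB _ k]
    rw [Tq, show exF (cg B) = cC U from funext fun e => (hU e).symm]
    simp [qh_real, cx_im _ hB hB]

theorem tf_q {U : Conf} (h : ∀ x μ ν, fq U x μ ν ≤ 1 / 6) : Af.tf kq Tq (cC U) = -qh (cC U) := by
  rw [Af.tf, Tq, add_sub_cancel, cg_Bx, ← qh_agr (Bx_loc (R := 1) (fun x _ => h x) (by norm_num)).2,
    cC_gauge, qh_gauge fun _ => uni_cS _]

theorem top_q : Topd (Af.tf kq Tq) := top_qh.tr (by norm_num) fun _ => tf_q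

end Pool.Agent.Lib.MP_7f377f_mp.RG.Q4.Ch2
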