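import Pool.Agent.Lib.MP_7f377f_mp.G.S21G2a

/-! The charge of a cube: second order term and polynomial structure. -/

noncomputable section

namespace Pool.Agent.Lib.MP_7f377f_mp.Chf

open Finset MeasureTheory Asymptotics Filter Equiv

section order

variable {A : Type} [NormedRing A] [NormedAlgebra ℝ A] {X : Type} {l : Filter X} {δ : X → ℝ}
  {f g p P : X → A} {q a h : Fin 4 → X → A} {i j k : ℕ} {T : A →L[ℝ] ℂ}

/-- terms of order `k` -/
def Od {A : Type} [Norm A] (l : Filter X) (δ : X → ℝ) (k : ℕ) (f : X → A) : Prop :=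
  f =O[l] fun x => δ x ^ k

theorem Od.mul (hf : Od l δ i f) (hg : Od l δ j g) : Od l δ (i + j) (f * g) := by
  simpa only [Od, pow_add] using! IsBigO.mul hf hg

theorem Od.add (hf : Od l δ k f) (hg : Od l δ k g) : Od l δ k (f + g) := IsBigO.add hf hg

theorem Od.sub (hf : Od l δ k f) (hg : Od l δ k g) : Od l δ k (f - g) := IsBigO.sub hf hg

theorem Od.smul (hf : Od l δ k f) (c : ℝ) : Od l δ k (c • f) := IsBigO.const_smul_left hf c

theorem Od.le (h1 : Od l δ 0 δ) (hf : Od l δ (k + 1) f) : Od l δ k f :=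
  IsBigO.trans hf (by simpa only [Od, pow_succ, pow_zero, mul_one] using
    (isBigO_refl (fun x => δ x ^ k) l).mul h1)

/-- a flat family of projections of rank one with its derivatives -/
structure Fl (l : Filter X) (δ : X → ℝ) (p : X → A) (q : Fin 4 → X → A) : Prop where
  one : Od l δ 0 δ
  pp : p * p = p
  pq : ∀ i, p * q i = q i
  qp : ∀ i, q i * p = 0
  bp : Od l δ 0 p
  bq : ∀ i, Od l δ 0 (q i)

/-- a perturbation whose mixed part is given by `h` -/
structure Nr (l : Filter X) (δ : X → ℝ) (p : X → A) (q h : Fin 4 → X → A) (P : X → A)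
    (a : Fin 4 → X → A) : Prop where
  b : Od l δ 1 (P - p)
  c : ∀ i, Od l δ 1 (a i - q i)
  m : ∀ i j, Od l δ 2 (q i * a j * p - q i * h j * p)

theorem Fl.qq (F : Fl l δ p q) (i j : Fin 4) : q i * q j = 0 := by
  rw [← F.pq j, ← mul_assoc, F.qp, zero_mul]

theorem Nr.mw (F : Fl l δ p q) (N : Nr l δ p q h P a) : Nr l δ p q h (fun x => mw (P x)) fun i =>
    (3 : ℝ) • (P * a i + a i * P) - (2 : ℝ) • (P * P * a i + (P * a i + a i * P) * P) := by
  have P0 : Od l δ 0 P := by simpa using (Od.le F.one N.b).add F.bp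
  have a0 : ∀ i, Od l δ 0 (a i) := fun i => by simpa using (Od.le F.one (N.c i)).add (F.bq i)
  obtain ⟨b, rfl⟩ : ∃ b, P = p + b := ⟨P - p, by simp⟩
  obtain ⟨c, rfl⟩ : ∃ c : Fin 4 → X → A, a = fun i => q i + c i := ⟨fun i => a i - q i, by simp⟩
  obtain ⟨hb, hc, hm⟩ := N
  simp only [add_sub_cancel_left] at hb hc
  have pp := F.pp
  have pp' : ∀ x, p * (p * x) = p * x := fun x => by rw [← mul_assoc, pp]
  have qp' : ∀ i x, q i * (p * x) = 0 := fun i x => by rw [← mul_assoc, F.qp, zero_mul]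
  have qq' : ∀ i j x, q i * (q j * x) = 0 := fun i j x => by rw [← mul_assoc, F.qq, zero_mul]
  have pq' : ∀ i x, p * (q i * x) = q i * x := fun i x => by rw [← mul_assoc, F.pq]
  have s : Od l δ 1 ((p + b) * b + b * p) := (P0.mul hb).add (hb.mul F.bp)
  refine ⟨?_, fun i => ?_, fun i j => ?_⟩
  · convert (s.smul 3).sub (((P0.mul s).add (hb.mul F.bp)).smul 2) using 1
    change (3 : ℝ) • ((p + b) * (p + b)) - (2 : ℝ) • ((p + b) * (p + b) * (p + b)) - p = _
    simp only [mul_add, add_mul, mul_assoc, pp, pp']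
    module
  · have t : Od l δ 1 ((p + b) * c i + b * q i + (c i * (p + b) + q i * b)) :=
      ((P0.mul (hc i)).add (hb.mul (F.bq i))).add (((hc i).mul P0).add ((F.bq i).mul hb))
    convert (t.smul 3).sub (((((P0.mul P0).mul (hc i)).add (s.mul (F.bq i))).add
      ((t.mul P0).add ((F.bq i).mul hb))).smul 2) using 1
    simp only [mul_add, add_mul, mul_assoc, pp, pp', F.pq, F.qp, qp', pq', mul_zero, zero_mul]
    module
  · have u := (F.bq i).mul hb
    have v := (hc j).mul F.bp
    have w := (F.bq i).mul (hc j)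
    convert ((hm i j).add ((((u.mul v).add (w.mul (hb.mul F.bp))).smul 3).sub
      (((((u.mul P0).mul v).add (u.mul (v.add ((a0 j).mul (hb.mul F.bp))))).add
        (w.mul (s.mul F.bp))).smul 2))) using 1
    simp only [mul_add, add_mul, mul_sub, sub_mul, mul_assoc, pp, pp', F.pq, F.qp, F.qq, qp', pq',
      qq', mul_zero, zero_mul, mul_smul_comm, smul_mul_assoc, smul_add]
    module

theorem Od.tr (hf : Od l δ k f) : Od l δ k fun x => T (f x) := (T.isBigO_comp f l).trans hf

theorem Nr.tr (hT : ∀ a b, T (a * b) = T (b * a)) (F : Fl l δ p q) (N : Nr l δ p q h P a)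
    (hh : ∀ i j, Od l δ 1 (q i * h j * p)) (i j k m : Fin 4) :
    Od l δ 3 fun x => T (P x * a i x * a j x * a k x * a m x) -
      T ((q i * h j * p) x * (q k * h m * p) x) := by
  have a0 : ∀ i, Od l δ 0 (a i) := fun i => by simpa using (Od.le F.one (N.c i)).add (F.bq i)
  obtain ⟨b, rfl⟩ : ∃ b, P = p + b := ⟨P - p, by simp⟩
  obtain ⟨c, rfl⟩ : ∃ c : Fin 4 → X → A, a = fun i => q i + c i := ⟨fun i => a i - q i, by simp⟩
  obtain ⟨hb, hc, hm⟩ := N
  simp only [add_sub_cancel_left] at hb hc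
  have qp' : ∀ i x, q i * (p * x) = 0 := fun i x => by rw [← mul_assoc, F.qp, zero_mul]
  have qq' : ∀ i j x, q i * (q j * x) = 0 := fun i j x => by rw [← mul_assoc, F.qq, zero_mul]
  have pq' : ∀ i x, p * (q i * x) = q i * x := fun i x => by rw [← mul_assoc, F.pq]
  have Y : ∀ i j, Od l δ 1 (q i * c j + c i * (q j + c j)) := fun i j =>
    ((F.bq i).mul (hc j)).add ((hc i).mul (a0 j))
  have z := (hc m).mul F.bp
  have w := (F.bq k).mul z
  have e1 := (((hb.mul (Y i j)).mul (Y k m)).tr (T := T)).add ((((((hc i).mul (hc j)).mul w).add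
    (((Y i j).mul (hc k)).mul z)).add (((hm i j).mul w).add ((hh i j).mul (hm k m)))).tr (T := T))
  refine (IsBigO.congr_left e1 fun x => ?_)
  have e2 := hT (p x) ((((q i + c i) * (q j + c j) * (q k + c k) * (q m + c m) :) x))
  have e3 : ((q i + c i) * (q j + c j) * (q k + c k) * (q m + c m)) * p =
      (c i * c j * (q k * (c m * p)) + (q i * c j + c i * (q j + c j)) * c k * (c m * p) +
        ((q i * (q j + c j) * p - q i * h j * p) * (q k * (c m * p)) +
          q i * h j * p * (q k * (q m + c m) * p - q k * h m * p))) +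
        q i * h j * p * (q k * h m * p) := by
    simp only [mul_add, add_mul, mul_sub, sub_mul, mul_assoc, F.pq, F.qp, F.qq, qp', pq', qq',
      mul_zero, zero_mul]
    abel
  have e4 : (p + b) * (q i + c i) * (q j + c j) * (q k + c k) * (q m + c m) =
      b * (q i * c j + c i * (q j + c j)) * (q k * c m + c k * (q m + c m)) +
        p * ((q i + c i) * (q j + c j) * (q k + c k) * (q m + c m)) := by
    simp only [mul_add, add_mul, mul_assoc, F.qq, qq', mul_zero, zero_mul]
    abel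
  have e5 := congrArg T (congrFun e3 x)
  have e6 := congrArg T (congrFun e4 x)
  simp only [Pi.mul_apply, Pi.add_apply, map_add] at e2 e5 e6 ⊢
  rw [e6, e2, e5]
  ring

end order

section cube

variable {R : Type} [NormedRing R] [NormedAlgebra ℝ R] {T : R →L[ℝ] ℂ}

/-- matrices with weighted columns -/
def rk (c : Vx 4 → ℝ) (u : Vx 4 → Vx 4 → R) : Mx (Vx 4) R := mk fun s s' => c s' • u s s'

theorem rk_mul (c c' : Vx 4 → ℝ) (u v : Vx 4 → Vx 4 → R) :
    rk c u * rk c' v = rk c' fun s s'' => ∑ s', c s' • (u s s' * v s' s'') :=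
  Mx.ext fun s s'' => by
    simp only [rk, mul_ap, mk_ap, smul_mul_smul_comm, smul_sum, smul_smul, mul_comm (c' s'')]

/-- derivatives of the weights -/
def dh (i : Fin 4) (z : Fin 4 → ℝ) (s : Vx 4) : ℝ := D i (hat s) z

theorem D_Hm (u : Vx 4 → Vx 4 → R) (i : Fin 4) (z : Fin 4 → ℝ) : D i (Hm u) z = rk (dh i z) u := by
  have := (mk (S := Vx 4) (R := R)).hasFDerivAt.comp z (hasFDerivAt_pi.2 fun s =>
    hasFDerivAt_pi.2 fun s' => ((cd_hat s').differentiable one_ne_zero z).hasFDerivAt.smul_const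
      (u s s'))
  exact congrArg (· (Pi.single i 1)) this.fderiv

theorem sum_dh_mul (i : Fin 4) (z : Fin 4 → ℝ) {g : Vx 4 → ℝ} {f : (Fin 4 → ℝ) → ℝ}
    (e : ∀ z, ∑ s, hat s z * g s = f z) : ∑ s, dh i z s * g s = D i f z := by
  have := HasFDerivAt.fun_sum (u := univ) fun s _ =>
    ((cd_hat s).differentiable one_ne_zero z).hasFDerivAt.mul_const (g s)
  simp only [e] at this
  simp [D, dh, this.fderiv, mul_comm]

theorem sum_dh (i : Fin 4) (z : Fin 4 → ℝ) : ∑ s, dh i z s = 0 := by
  simpa [D] using sum_dh_mul i z (g := fun _ => 1) (f := fun _ => 1) fun z => by simp [sum_hat]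

theorem cont_dh (i : Fin 4) (s : Vx 4) : Continuous fun z => dh i z s :=
  (cd_D (cd_hat s) i).continuous

/-- the mixed part -/
def bt {M : Type} [AddCommGroup M] [Module ℝ M] (i j : Fin 4) (z : Fin 4 → ℝ)
    (b : Vx 4 → Vx 4 → M) : M := ∑ s, ∑ s', (dh i z s * dh j z s') • b s s'

/-- the second order term -/
def q2 (T : R →L[ℝ] ℂ) (b : Vx 4 → Vx 4 → R) : ℂ := ∫ z in Set.Icc 0 1,
  ∑ σ : Perm (Fin 4), (Perm.sign σ : ℤ) * T (bt (σ 0) (σ 1) z b * bt (σ 2) (σ 3) z b)

theorem qv_two (hT : ∀ a b, T (a * b) = T (b * a)) : ∃ C, ∀ (u b : Vx 4 → Vx 4 → R) (δ : ℝ),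
    δ ≤ 1 → (∀ s s', ‖b s s'‖ ≤ δ ∧ ‖u s s' - 1 - b s s'‖ ≤ δ ^ 2) →
      ‖qv T u - q2 T b‖ ≤ C * δ ^ 3 := by
  let X := ((Vx 4 → Vx 4 → R) × (Vx 4 → Vx 4 → R)) × ℝ × (Fin 4 → ℝ)
  let S : Set X := {x | x.2.1 ≤ 1 ∧ (∀ s s', ‖x.1.2 s s'‖ ≤ x.2.1 ∧
    ‖x.1.1 s s' - 1 - x.1.2 s s'‖ ≤ x.2.1 ^ 2) ∧ x.2.2 ∈ Set.Icc 0 1}
  let δ : X → ℝ := fun x => x.2.1
  have δ0 : ∀ x ∈ S, 0 ≤ δ x := fun x hx => (norm_nonneg _).trans (hx.2.1 0 0).1
  have o1 : Od (𝓟 S) δ 0 δ := isBigO_principal.2 ⟨1, fun x hx => by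
    simpa [abs_of_nonneg (δ0 x hx)] using hx.1⟩
  have oj : ∀ {f : X → ℝ} {s : Vx 4}, (∀ x, ‖f x‖ ≤ J1 (hat s) x.2.2) → Od (𝓟 S) δ 0 f :=
    fun h => isBigO_principal.2 ⟨3 ^ 4, fun x hx => by
      simpa using (h x).trans (J1_hat _ hx.2.2)⟩
  have oh := fun s => oj (f := fun x => hat s x.2.2) fun x => le_add_of_nonneg_right (norm_nonneg _)
  have od := fun i s => oj (f := fun x => dh i x.2.2 s) fun x =>
    (D_le _ _ _).trans (le_add_of_nonneg_left (norm_nonneg _))
  have ok : ∀ {k} {c : X → Vx 4 → ℝ} {u : X → Vx 4 → Vx 4 → R}, (∀ s, Od (𝓟 S) δ 0 (c · s)) →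
      (∀ s s', Od (𝓟 S) δ k (u · s s')) → Od (𝓟 S) δ k fun x => rk (c x) (u x) := fun hc hu =>
    ((mk (S := Vx 4) (R := R)).isBigO_comp _ _).trans (isBigO_pi.2 fun s => isBigO_pi.2 fun s' => by
      simpa using! IsBigO.smul (hc s') (hu s s'))
  have ob : ∀ {k} {u : X → Vx 4 → Vx 4 → R}, (∀ s s', Od (𝓟 S) δ k (u · s s')) → ∀ i j,
      Od (𝓟 S) δ k fun x => bt i j x.2.2 (u x) := fun hu i j =>
    IsBigO.fun_sum fun s _ => IsBigO.fun_sum fun s' _ => by
      simpa using! IsBigO.smul ((od i s).mul (od j s')) (hu s s')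
  have u0 : Od (𝓟 S) δ 0 fun _ => (1 : R) := by simpa [Od] using isBigO_const_one ℝ (1 : R) _
  have b1 : ∀ s s', Od (𝓟 S) δ 1 (·.1.2 s s') := fun s s' => isBigO_principal.2 ⟨1, fun x hx => by
    simpa [abs_of_nonneg (δ0 x hx)] using (hx.2.1 s s').1⟩
  have b2 : ∀ s s', Od (𝓟 S) δ 2 fun x => x.1.1 s s' - 1 - x.1.2 s s' := fun s s' =>
    isBigO_principal.2 ⟨1, fun x hx => by simpa using (hx.2.1 s s').2⟩
  have F : Fl (𝓟 S) δ (fun x => rk (hat · x.2.2) fun _ _ => (1 : R))
      fun i x => rk (dh i x.2.2) fun _ _ => 1 :=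
    ⟨o1, funext fun x => by simp [rk_mul, ← sum_smul, sum_hat], fun i => funext fun x => by
      simp [rk_mul, ← sum_smul, sum_hat], fun i => funext fun x => by
        simp only [Pi.mul_apply, rk_mul, ← sum_smul, sum_dh, zero_smul]
        exact Mx.ext fun _ s => smul_zero (hat s x.2.2),
      ok oh fun _ _ => u0, fun i => ok (od i) fun _ _ => u0⟩
  have e1 : ∀ i j z (u : Vx 4 → Vx 4 → R), rk (dh i z) (fun _ _ => (1 : R)) * rk (dh j z) u *
      rk (hat · z) (fun _ _ => 1) = rk (hat · z) fun _ _ => bt i j z u := fun i j z u => by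
    simp only [rk_mul, one_mul, mul_one, bt, smul_sum, smul_smul, mul_comm (dh j z _)]
    rw [sum_comm]
  have e2 : ∀ i j z (u b : Vx 4 → Vx 4 → R), bt i j z (fun s s' => u s s' - 1 - b s s') =
      bt i j z u - bt i j z b := fun i j z u b => by
    simp [bt, smul_sub, ← sum_smul, ← mul_sum, sum_dh]
  have su : ∀ c (u v : Vx 4 → Vx 4 → R), rk c u - rk c v = rk c fun s s' => u s s' - v s s' :=
    fun c u v => Mx.ext fun s s' => (smul_sub (c s') (u s s') (v s s')).symm
  have u1 : ∀ s s', Od (𝓟 S) δ 1 fun x => x.1.1 s s' - 1 := fun s s' =>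
    IsBigO.congr_left ((Od.le o1 (b2 s s')).add (b1 s s')) fun x => sub_add_cancel ..
  have N : ∀ m, Nr (𝓟 S) δ (fun x => rk (hat · x.2.2) fun _ _ => (1 : R))
      (fun i x => rk (dh i x.2.2) fun _ _ => 1) (fun i x => rk (dh i x.2.2) x.1.2)
      (fun x => mw^[m] (Hm x.1.1 x.2.2)) fun i x => D i (fun z => mw^[m] (Hm x.1.1 z)) x.2.2 :=
    fun m => by
      induction m with
      | zero =>
        refine ⟨(ok oh u1).congr_left fun x => (su ..).symm, fun i => (ok (od i) u1).congr_left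
          fun x => ?_, fun i j => (ok oh fun _ _ => ob b2 i j).congr_left fun x => ?_⟩
        · exact (su ..).symm.trans (congrArg (· - _) (D_Hm ..).symm)
        · change _ = _ * D j (Hm x.1.1) x.2.2 * _ - _ * _ * _
          rw [D_Hm, e1, e1, su, e2]
      | succ m ih =>
        convert ih.mw F using 1
        · simp only [Function.iterate_succ_apply']
        · funext i x
          have d := (cd_mw (cd_Hm (u := fun _ => x.1.1) (z := fun z => z) (fun _ _ => contDiff_const)
            contDiff_id) m).differentiable one_ne_zero x.2.2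
          simp only [Function.iterate_succ_apply', Pi.sub_apply, Pi.smul_apply, Pi.add_apply,
            Pi.mul_apply, ← D_mul d d, ← D_mul (d.fun_mul d) d]
          generalize (mw^[m] : Mx (Vx 4) R → _) = g at d
          simp only [D, mw]
          rw [fderiv_fun_sub ((d.fun_mul d).fun_const_smul _)
            (((d.fun_mul d).fun_mul d).fun_const_smul _), fderiv_fun_const_smul (d.fun_mul d),
            fderiv_fun_const_smul ((d.fun_mul d).fun_mul d)]
          rfl
  have M := IsBigO.fun_sum fun (σ : Perm (Fin 4)) (_ : σ ∈ univ) =>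
    ((N 5).tr (Tm_comm hT) F (fun i j => (ok oh fun _ _ => ob b1 i j).congr_left fun x =>
      (e1 ..).symm) (σ 0) (σ 1) (σ 2) (σ 3)).const_mul_left ((Perm.sign σ : ℤ) : ℂ)
  obtain ⟨C, hC⟩ := isBigO_principal.1 M
  refine ⟨C, fun u b d d1 h => ?_⟩
  have c2 := cd_mw (cd_Hm (k := 2) (u := fun _ => u) (z := fun z : Fin 4 → ℝ => z)
    (fun _ _ => contDiff_const) contDiff_id) 5
  have c1 := fun i => (cd_D c2 i).continuous
  have c0 := c2.continuous
  have c3 := cont_dh
  rw [qv, qc, q2, ← integral_sub (Continuous.integrableOn_Icc (by unfold ch; fun_prop))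
    (Continuous.integrableOn_Icc (by unfold bt; fun_prop))]
  refine (norm_setIntegral_le_of_norm_le_const (C := C * d ^ 3) isCompact_Icc.measure_lt_top
    fun z hz => ?_).trans_eq (by simp [Measure.real, Real.volume_Icc_pi])
  have := hC ((u, b), d, z) ⟨d1, h, hz⟩
  rw [Real.norm_of_nonneg (pow_nonneg (δ0 ((u, b), d, z) ⟨d1, h, hz⟩) 3)] at this
  refine le_of_eq_of_le (congrArg _ ?_) this
  simp only [ch, ← sum_sub_distrib, ← mul_sub, Pi.mul_apply, e1]
  refine sum_congr rfl fun σ _ => ?_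
  congr 2
  simp only [rk_mul, ← sum_smul, sum_hat, one_smul]
  simp only [Tm_apply, rk, mk_ap, map_smul, ← sum_smul, sum_hat, one_smul]

/-- the charge is a polynomial in the transports -/
theorem qv_mem {X : Type} (W : Subalgebra ℝ (X → R)) (V : Submodule ℝ (X → ℂ))
    (hV : ∀ w ∈ W, (fun x => T (w x)) ∈ V) {u : X → Vx 4 → Vx 4 → R}
    (hu : ∀ s s', (u · s s') ∈ W) : (fun x => qv T (u x)) ∈ V := by
  let G : Set (X → (Fin 4 → ℝ) → Mx (Vx 4) R) := {F | ∃ (p : (Fin 4 → ℝ) → ℝ) (w : X → Mx (Vx 4) R),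
    ContDiff ℝ ⊤ p ∧ (∀ s s', (w · s s') ∈ W) ∧ F = fun x z => p z • w x}
  let S := Submodule.span ℝ G
  have m : ∀ F ∈ S, ∀ F' ∈ S, F * F' ∈ S := fun F h F' h' => by
    refine Submodule.span_le.2 ?_ ((Submodule.span_mul_span (R := ℝ) G G).le (Submodule.mul_mem_mul h h'))
    rintro _ ⟨_, ⟨p, w, a1, a2, rfl⟩, _, ⟨p', w', b1, b2, rfl⟩, rfl⟩
    refine Submodule.subset_span ⟨p * p', w * w', a1.mul b1, fun s s' => ?_,
      funext₂ fun x z => smul_mul_smul_comm ..⟩
    convert sum_mem fun t (_ : t ∈ univ) => mul_mem (a2 s t) (b2 t s') using 1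
    funext x
    simp [mul_ap]
  have c : ∀ F ∈ S, ∀ x, ContDiff ℝ ⊤ (F x) := fun F h x => by
    induction h using Submodule.span_induction with
    | mem _ h =>
      obtain ⟨p, w, a, -, rfl⟩ := h
      exact a.smul contDiff_const
    | zero => exact contDiff_const
    | add _ _ _ _ a b => exact a.add b
    | smul r _ _ a => exact a.const_smul r
  have c1 := fun F h x => (c F h x).differentiable (by simp)
  have d : ∀ i, ∀ F ∈ S, (fun x => D i (F x)) ∈ S := fun i F h => by
    induction h using Submodule.span_induction with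
    | mem _ h =>
      obtain ⟨p, w, a, b, rfl⟩ := h
      refine Submodule.subset_span ⟨D i p, w, (a.fderiv_right (m := ⊤) le_rfl).clm_apply
        contDiff_const, b, funext₂ fun x z => ?_⟩
      rw [D, fderiv_smul_const (a.differentiable (by simp) z)]
      rfl
    | zero => convert S.zero_mem using 1; funext x z; simp [D]
    | add F F' h h' a b =>
      convert S.add_mem a b using 1
      funext x z
      simp [D, fderiv_add (c1 F h x z) (c1 F' h' x z)]
    | smul r F h a =>
      convert S.smul_mem r a using 1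
      funext x z
      simp [D, fderiv_const_smul (c1 F h x z)]
  have i : ∀ F ∈ S, ∀ x, IntegrableOn (fun z => Tm T (F x z)) (Set.Icc 0 1) := fun F h x =>
    ((Tm (S := Vx 4) T).continuous.comp (c F h x).continuous).integrableOn_Icc
  have v : ∀ F ∈ S, (fun x => ∫ z in Set.Icc 0 1, Tm T (F x z)) ∈ V := fun F h => by
    induction h using Submodule.span_induction with
    | mem _ h =>
      obtain ⟨p, w, a, b, rfl⟩ := h
      convert V.smul_mem (∫ z in Set.Icc 0 1, p z) (sum_mem fun s (_ : s ∈ univ) =>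
        hV _ (b s s)) using 1
      funext x
      simp only [map_smul, integral_smul_const, Tm_apply, Pi.smul_apply, Finset.sum_apply]
    | zero => convert V.zero_mem using 1; funext x; simp
    | add F F' h h' a b =>
      convert V.add_mem a b using 1
      funext x
      simp [integral_add (i F h x) (i F' h' x)]
    | smul r F h a =>
      convert V.smul_mem r a using 1
      funext x
      simp only [Pi.smul_apply, map_smul, integral_smul]
  have h : ∀ k, (fun x z => mw^[k] (Hm (u x) z)) ∈ S := fun k => by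
    induction k with
    | zero =>
      convert sum_mem fun t (_ : t ∈ univ) => Submodule.subset_span (R := ℝ) (s := G) ⟨hat t, fun x =>
        mk fun s s' => if s' = t then u x s s' else 0, cd_hat t, fun s s' => ?_, rfl⟩ using 1
      · funext x z
        simp only [Finset.sum_apply, ← map_smul, ← map_sum]
        exact congrArg mk (funext₂ fun s s' => by simp [Finset.sum_apply])
      · simp only [mk_ap]
        split_ifs
        exacts [hu s s', W.zero_mem]
    | succ k ih =>
      simp only [Function.iterate_succ_apply']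
      exact S.sub_mem (S.smul_mem 3 (m _ ih _ ih)) (S.smul_mem 2 (m _ (m _ ih _ ih) _ ih))
  convert v _ (sum_mem fun (σ : Perm (Fin 4)) (_ : σ ∈ univ) => S.smul_mem ((Perm.sign σ : ℤ) : ℝ)
    (m _ (m _ (m _ (m _ (h 5) _ (d (σ 0) _ (h 5))) _ (d (σ 1) _ (h 5))) _ (d (σ 2) _ (h 5))) _
      (d (σ 3) _ (h 5)))) using 2 with x
  refine integral_congr_ae (.of_forall fun z => ?_)
  simp only [ch, Finset.sum_apply, Pi.smul_apply, Pi.mul_apply, map_sum, map_smul,
    Complex.real_smul, Complex.ofReal_intCast]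

end cube

end Pool.Agent.Lib.MP_7f377f_mp.Chf
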