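import Pool.Agent.Lib.MP_7f377f_mp.G.S21F
import Pool.Agent.Lib.MP_7f377f_mp.G.Q4AfGeo

/-! Constant flux in two planes under blocking: lattice geometry. -/

noncomputable section

set_option linter.unusedSectionVars false
variable [Pool.Agent.Lib.MP_7f377f_mp.GD]

namespace Pool.Agent.Lib.MP_7f377f_mp.RG.Q4.Af.Tp

open Finset Matrix

variable {l : ℕ} {F : ℝ × ℝ} {θ : Lk → Ang} {N : Fin 4 → ℕ} [∀ i, NeZero (N i)]

theorem abs_bF (f : Lk) : |bF l F f| ≤ ‖F‖ := by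
  have L1 : (1 : ℝ) ≤ LL l := by exact_mod_cast LL_pos l
  have a : ∀ {x : ℝ} (i : Fin 4), |x| ≤ ‖F‖ → |-(x / (LL l : ℝ) ^ 2 * ps l f.1 i)| ≤ ‖F‖ ∧
      |x / (LL l : ℝ) * ps l f.1 i| ≤ ‖F‖ := fun {x} i hx => by
    have := abs_nonneg x
    constructor
    · rw [abs_neg, abs_mul, abs_div, abs_pow, Nat.abs_cast, div_mul_eq_mul_div,
        div_le_iff₀ (by positivity)]
      gcongr; exact (abs_ps _ _).trans (by nlinarith)
    · rw [abs_mul, abs_div, Nat.abs_cast, div_mul_eq_mul_div, div_le_iff₀ (by positivity)]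
      gcongr; exact abs_ps _ _
  unfold bF
  split_ifs
  exacts [(a 1 (abs_fst F)).1, (a 0 (abs_fst F)).2, (a 3 (abs_snd F)).1, (a 2 (abs_snd F)).2,
    by simp]

theorem lift_tree {f : Lk} (h : tree l f) : lift l F θ f = 0 := by
  have a := ps_step l f.1 f.2
  have : bF l F f = 0 := by
    unfold bF
    split_ifs with h1 h2 h3 h4
    · simp [ps, h.2 1 (by simp [h1])]
    · rw [h2.1] at a; exact absurd (h2.1 ▸ h.1) (by tauto)
    · simp [ps, h.2 3 (by simp [h3])]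
    · rw [h4.1] at a; exact absurd (h4.1 ▸ h.1) (by tauto)
    · rfl
  simp [lift, izA, this, h.1]

theorem sh_lift (y : St) : sh (up l y) (lift l F θ) = lift l F (sh y θ) := by
  funext f; simp [lift, ← sh_izA, bF, ps_add_up]

theorem lift_gr (u : St → Ang) :
    lift l F (θ - gr u) = lift l F θ - gr fun x => u (yo l x) := by
  funext f
  rcases ps_step l f.1 f.2 with h | h
  · simp [lift, izA, gr, h.2.1]
  · simp [lift, izA, gr, h.2.1, add_sub_assoc]; simp [h.2.2.1]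

theorem flux_gr (h : ∀ x μ ν, dd θ x μ ν = (kF F μ ν : ℝ)) :
    ∃ u, θ = (fun e => ((aF F e : ℝ) : Ang)) - gr u := by
  have := cg_of_dd (a := θ) (b := fun e => ((aF F e : ℝ) : Ang)) (by
    funext x μ ν; rw [h, ← dd_aF F x]; simp [dd])
  refine ⟨fun x => lam (fun e => ((aF F e : ℝ) : Ang)) x - lam θ x, ?_⟩
  funext e
  have := congrFun this e
  simp only [cg, gr, Pi.sub_apply] at this ⊢
  rw [← sub_eq_zero] at this ⊢
  rw [← this]; abel

theorem lift_aF (f : Lk) : lift l F (fun e => ((aF F e : ℝ) : Ang)) f =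
    ((bF l F f + izA l (aF F) f : ℝ) : Ang) := by
  simp only [lift, izA]; split_ifs <;> simp

theorem bF_eq (l : ℕ) (F : ℝ × ℝ) : bF l F + izA l (aF F) = aF (((LL l : ℝ) ^ 2)⁻¹ • F) -
    gr fun x => F.1 / (LL l : ℝ) ^ 2 * ps l x 1 * x 0 + F.2 / (LL l : ℝ) ^ 2 * ps l x 3 * x 2 := by
  have L0 : (LL l : ℝ) ≠ 0 := by exact_mod_cast (LL_pos l).ne'
  funext ⟨x, μ⟩
  have e : (x 0 : ℝ) = ps l x 0 + LL l * yo l x 0 := by simp [ps, up_apply]
  have e' : (x 2 : ℝ) = ps l x 2 + LL l * yo l x 2 := by simp [ps, up_apply]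
  have u1 : ∀ ν, un ν ≠ 0 := fun ν h => by simpa using congrFun h ν
  rcases ps_step l x μ with h | h <;> fin_cases μ <;>
    simp_all [bF, izA, aF, gr, un_apply, up_apply] <;> field_simp <;> ring

theorem dd_lift (h : ∀ x μ ν, dd θ x μ ν = (kF F μ ν : ℝ)) (x : St) (μ ν : Fin 4) :
    dd (lift l F θ) x μ ν = (kF (((LL l : ℝ) ^ 2)⁻¹ • F) μ ν : ℝ) := by
  obtain ⟨u, rfl⟩ := flux_gr h
  have := congrArg (fun a => dd a x μ ν) (bF_eq l F)
  simp only [dd_sub, dd_gr, dd_aF, sub_zero] at this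
  rw [lift_gr, dd_sub, dd_gr, sub_zero, ← this]
  simp [dd, lift_aF]

omit [∀ i, NeZero (N i)] in
theorem bg_lift (h : Bg N F θ) : Bg (fi l N) (((LL l : ℝ) ^ 2)⁻¹ • F) (lift l F θ) :=
  ⟨fun μ => by rw [fi_period, sh_lift, h.per], dd_lift h.curv⟩

theorem cms_lift (h : ∀ x μ ν, dd θ x μ ν = (kF F μ ν : ℝ)) (σ : Equiv.Perm (Fin 4)) {t : St}
    (ht : t ∈ box l) : cms star σ (cC (ab (lift l F θ))) 0 t =
      cS (eA (lam (pm σ (bF l F + izA l (aF F))) fun j => t (σ j) : ℝ)) := by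
  obtain ⟨u, rfl⟩ := flux_gr h
  have e := lam_unique (a := pm σ (lift l F ((fun e => ((aF F e : ℝ) : Ang)) - gr u)))
    (u := fun x => (lam (pm σ (bF l F + izA l (aF F))) x : ℝ) -
      (u (yo l fun i => x (σ.symm i)) - u 0)) (by simp [← Pi.zero_def, yo_of_mem (zero_mem_box l)])
    fun p ν hp => by
      have : (fun i => (p + un ν) (σ.symm i)) = (fun i => p (σ.symm i)) + un (σ ν) := by
        funext i; simp [un_apply, Equiv.symm_apply_eq]
      simp only [lam_tr _ hp, lift_gr, pm, gr, Pi.sub_apply, lift_aF, this, Ang.coe_add]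
      simp only [Pi.add_apply, Ang.coe_add]
      abel
  rw [Nz.cms_cC, Nz.cms0, show pm σ (ab _) = ab (pm σ _) from rfl, cmb_ab, e]
  simp [yo_of_mem ht]

theorem line_bF {t : St} (ht : t ∈ box l) (μ : Fin 4) : ∑ i ∈ range (LL l),
    bF l F (t + (i : ℤ) • un μ, μ) =
      ![-(F.1 * t 1 : ℝ), F.1 * t 0, -(F.2 * t 3), F.2 * t 2] μ / LL l := by
  have L0 : (LL l : ℝ) ≠ 0 := by exact_mod_cast (LL_pos l).ne'
  have p : ∀ (i : ℕ) (μ ν : Fin 4), ν ≠ μ → ps l (t + (i : ℤ) • un μ) ν = t ν := fun i μ ν e => by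
    have := congrFun (ps_of_mem ht) ν
    simpa [ps, yo, up_apply, un_ne e] using this
  fin_cases μ
  · simp [bF, p, -natCast_zsmul, -zsmul_eq_mul]; field_simp
  · refine Eq.trans (sum_congr rfl fun i _ => ?_) (line_izA (fun _ => F.1 * t 0 / LL l) ht 1)
    rcases ps_step l (t + (i : ℤ) • un 1) 1 with h | h <;>
      simp [bF, izA, p, h.1, h.2.1, -natCast_zsmul, -zsmul_eq_mul, div_mul_eq_mul_div]
  · simp [bF, p, -natCast_zsmul, -zsmul_eq_mul]; field_simp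
  · refine Eq.trans (sum_congr rfl fun i _ => ?_) (line_izA (fun _ => F.2 * t 2 / LL l) ht 3)
    rcases ps_step l (t + (i : ℤ) • un 3) 3 with h | h <;>
      simp [bF, izA, p, h.1, h.2.1, -natCast_zsmul, -zsmul_eq_mul, div_mul_eq_mul_div]

/-- the symmetric factor of the block spin of a background of constant flux -/
def sy (l : ℕ) (F : ℝ × ℝ) (μ : Fin 4) : Hc :=
  ∑ t ∈ box l, cS (eA (![-(F.1 * t 1 : ℝ), F.1 * t 0, -(F.2 * t 3), F.2 * t 2] μ / LL l : ℝ))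

theorem star_sy (μ : Fin 4) : star (sy l F μ) = sy l F μ := by
  rw [sy, star_sum]
  refine sum_nbij' Neg.neg Neg.neg (fun _ => neg_mem_box (r := l))
    (fun _ => neg_mem_box) (by simp) (by simp) fun t _ => ?_
  rw [← cS_inv, ← eA_neg, ← Ang.coe_neg]
  congr 3
  fin_cases μ <;> simp [neg_div]

/-- the block spin of the fine background is the coarse background -/
theorem Vh_lift (h : ∀ x μ ν, dd θ x μ ν = (kF F μ ν : ℝ)) (μ : Fin 4) :
    co (cS (eA (θ (0, μ))) * star (Vh l μ (cC (ab (lift l F θ))))) = 0 := by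
  have h' : ∀ x ν κ, dd (sh (un μ) θ) x ν κ = (kF F ν κ : ℝ) := fun x ν κ => by rw [dd_sh, h]
  have e : sh (up l (un μ)) (cC (ab (lift l F θ))) = cC (ab (lift l F (sh (un μ) θ))) := by
    rw [← sh_lift]; rfl
  have e1 : uc l (cC (ab (lift l F (sh (un μ) θ)))) = uc l (cC (ab (lift l F θ))) :=
    Nz.avc_congr fun σ t ht => (cms_lift h' σ ht).trans (cms_lift h σ ht).symm
  have c1 : ∀ φ, Commute (cS (eA φ)) (pjq (uc l (cC (ab (lift l F θ))))) := fun φ => by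
    have a : Commute (cS (eA φ)) (uc l (cC (ab (lift l F θ)))) :=
      (Commute.sum_right _ _ _ fun σ _ => Commute.sum_right _ _ _ fun t ht => by
        rw [cms_lift h σ ht, commute_iff_eq, ← cS_mul, eA_comm, cS_mul]).smul_right _
    have b := pjq_conj (uni_cS (eA φ)) (uc l (cC (ab (lift l F θ))))
    rw [a.eq, mul_assoc, (uni_cS _).mul_star, mul_one] at b
    rw [commute_iff_eq]
    nth_rewrite 2 [b]
    rw [mul_assoc, (uni_cS _).star_mul, mul_one]
  obtain ⟨c, e2⟩ : ∃ c : ℂ, Vc l μ (cC (ab (lift l F θ))) = c • (sy l F μ * cS (eA (θ (0, μ)))) := by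
    rw [Vc, Nz.avc, sum_congr rfl (g := fun _ => sy l F μ * cS (eA (θ (0, μ)))) fun σ _ => ?_]
    · exact ⟨_, by rw [sum_const, ← Nat.cast_smul_eq_nsmul ℂ, smul_smul]⟩
    · rw [sy, sum_mul]
      refine sum_congr rfl fun t ht => ?_
      rw [e, cms_lift h σ ht, cms_lift h' σ ht, lnP_cC, lnP_ab, ← cS_inv, ← cS_mul, ← cS_mul,
        ← cS_mul, eA_comm, mul_inv_cancel_right, ← eA_add]
      simp only [lift, sum_add_distrib, line_izA _ ht, ← Ang.coe_coeHom, ← map_sum, line_bF ht]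
  have c2 : Commute (Vc l μ (cC (ab (lift l F θ)))) (pjq (uc l (cC (ab (lift l F θ))))) := by
    rw [e2]
    exact ((Commute.sum_left _ _ _ fun t _ => c1 _).mul_left (c1 _)).smul_left _
  have c3 := co_star (sy l F μ)
  rw [star_sy, eq_neg_iff_add_eq_zero, ← two_smul ℂ, smul_eq_zero_iff_right two_ne_zero] at c3
  rw [Vh, e, e1, mul_assoc, c2.eq, ← mul_assoc, (uni_pjq _).star_mul, one_mul, e2, Un.star_smul,
    StarMul.star_mul, star_sy, mul_smul_comm, ← mul_assoc, (uni_cS _).mul_star, one_mul, co_smul,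
    c3, smul_zero]

theorem bg_exists (n1 n2 : ℕ) [NeZero n1] [NeZero n2] (k k' : ℤ) :
    ∃ θ, Bg (NN n1 n2) (k * (2 * Real.pi * GD.hh / (n1 : ℝ) ^ 2),
      k' * (2 * Real.pi * GD.hh / (n2 : ℝ) ^ 2)) θ := by
  set F : ℝ := k * (2 * Real.pi * GD.hh / (n1 : ℝ) ^ 2) with hF
  set G : ℝ := k' * (2 * Real.pi * GD.hh / (n2 : ℝ) ^ 2) with hG
  have a : (n1 : ℤ) ≠ 0 := by exact_mod_cast NeZero.ne n1
  have b : (n2 : ℤ) ≠ 0 := by exact_mod_cast NeZero.ne n2
  have a1 : (n1 : ℝ) ≠ 0 := by exact_mod_cast NeZero.ne n1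
  have a2 : (n2 : ℝ) ≠ 0 := by exact_mod_cast NeZero.ne n2
  refine ⟨fun e => (((aF (F, G) - gr fun x => F * n1 * (x 0 / n1 : ℤ) * x 1 +
    G * n2 * (x 2 / n2 : ℤ) * x 3) e : ℝ) : Ang), fun μ => ?_, fun x μ ν => ?_⟩
  · funext ⟨x, ν⟩
    rw [sh_apply, Ang.eq_iff]
    fin_cases μ
    · have d : ∀ y : ℤ, (y + n1) / n1 = y / n1 + 1 := fun y => by
        rw [Int.add_ediv_of_dvd_right dvd_rfl, Int.ediv_self a]
      refine ⟨0, ?_⟩
      fin_cases ν <;> simp [aF, gr, un_apply, NN, add_right_comm _ (n1 : ℤ), d] <;> ring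
    · refine ⟨if ν = 0 then -(k * ((x 0 + 1) / n1 - x 0 / n1)) else 0, ?_⟩
      fin_cases ν <;> simp [aF, gr, un_apply, NN, hF] <;> field_simp <;> ring
    · have d : ∀ y : ℤ, (y + n2) / n2 = y / n2 + 1 := fun y => by
        rw [Int.add_ediv_of_dvd_right dvd_rfl, Int.ediv_self b]
      refine ⟨0, ?_⟩
      fin_cases ν <;> simp [aF, gr, un_apply, NN, add_right_comm _ (n2 : ℤ), d] <;> ring
    · refine ⟨if ν = 2 then -(k' * ((x 2 + 1) / n2 - x 2 / n2)) else 0, ?_⟩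
      fin_cases ν <;> simp [aF, gr, un_apply, NN, hG] <;> field_simp <;> ring
  · have := dd_sub (aF (F, G)) (gr fun x => F * n1 * (x 0 / n1 : ℤ) * x 1 +
      G * n2 * (x 2 / n2 : ℤ) * x 3) x μ ν
    rw [dd_gr, dd_aF, sub_zero] at this
    rw [← this]
    simp only [dd, ← Ang.coe_add, ← Ang.coe_sub]

end Pool.Agent.Lib.MP_7f377f_mp.RG.Q4.Af.Tp
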