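import Pool.Agent.Lib.MP_7f377f_mp.G.S21S

/-! Comparison of two tree steps on the same torus. -/

noncomputable section

set_option linter.unusedSectionVars false
variable [Pool.Agent.Lib.MP_7f377f_mp.GD]

namespace Pool.Agent.Lib.MP_7f377f_mp.RG.Q4.Af.Tp

open Finset Matrix

section gen

variable {ι κ : Type} [Fintype ι] [Fintype κ] [DecidableEq ι] [DecidableEq κ]
  {A A' : Matrix ι ι ℝ} {B : Matrix ι κ ℝ} {B' : Matrix κ ι ℝ} {D : Matrix κ κ ℝ} {c d K : ℝ}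

/-- the Schur complement is Lipschitz in the block which is inverted -/
theorem schur_le (s : (fromBlocks A B B' D).IsSymm) (s' : (fromBlocks A' B B' D).IsSymm)
    (dA : A.det ≠ 0) (dA' : A'.det ≠ 0) (c0 : 0 < c) (cA : ∀ x, x ⬝ᵥ x ≤ c * (x ⬝ᵥ A *ᵥ x))
    (cA' : ∀ x, x ⬝ᵥ x ≤ c * (x ⬝ᵥ A' *ᵥ x)) (d0 : 0 ≤ d)
    (hd : ∀ x, x ⬝ᵥ A' *ᵥ x - x ⬝ᵥ A *ᵥ x ≤ d * (x ⬝ᵥ x)) (w : κ → ℝ)
    (hK : w ⬝ᵥ D *ᵥ w - w ⬝ᵥ (D - B' * A⁻¹ * B) *ᵥ w ≤ K) :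
    w ⬝ᵥ (D - B' * A'⁻¹ * B) *ᵥ w - w ⬝ᵥ (D - B' * A⁻¹ * B) *ᵥ w ≤ d * (c * K) := by
  obtain ⟨y, hy⟩ : ∃ y, y = (A⁻¹ * B) *ᵥ w := ⟨_, rfl⟩
  have e0 := schur_form s dA 0 w
  have e1 := schur_form s dA (-y) w
  have e2 := schur_form s' dA' (-y) w
  rw [← hy] at e0 e1
  have p := nonneg_of_mul_nonneg_right ((dot_nonneg _).trans (cA' (-y + (A'⁻¹ * B) *ᵥ w))) c0
  simp only [fromBlocks_mulVec, sumElim_dotProduct_sumElim, Sum.elim_comp_inl, Sum.elim_comp_inr,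
    dotProduct_add, mulVec_zero, zero_dotProduct, zero_add, neg_add_cancel, add_zero,
    dotProduct_zero, mulVec_neg, dotProduct_neg, neg_dotProduct, neg_neg] at e0 e1 e2
  have k := (hd y).trans (mul_le_mul_of_nonneg_left ((cA y).trans
    (mul_le_mul_of_nonneg_left (show _ ≤ K by linarith) c0.le)) d0)
  linarith

end gen

variable {N : Fin 4 → ℕ} [∀ i, NeZero (N i)] {S S' : Sd} {φ d : ℝ} {F : ℝ × ℝ} {θ : Lk → Ang}
  {l : ℕ}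

variable (N) in
/-- a step on the torus `N` with fluxes of size `φ` -/
structure Sp (φ : ℝ) (S : Sd) : Prop where
  sm : Sm0 S (φ ^ 30)
  nm : Nm S.Q φ (Fintype.card (TS N))
  hβ : S.β * φ ≤ 1
  dc : ∃ κ, 0 ≤ κ ∧ κ ≤ φ ^ 30 ∧ Dcy S.l (S.r / 2) κ S.m
  hn : ∀ i, Odd (N i)
  hN : ∀ i, 2 * S.N < N i

theorem one_step (h : Sp N φ S) (e : S.l = l) (hb : Bg N F θ) (hF : ‖F‖ ≤ φ)
    {B : Matrix (IL N) (IL (fi l N)) ℝ} (hB : JB l F θ B) {A : Matrix (IR l N) (IR l N) ℝ}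
    (hA : A = bA l (Hs _ (tf S.m S.T) (lift l F θ)) B) :
    (fromBlocks A (bB l B) (bC l B) (bD N l)).IsSymm ∧ 0 < A.det ∧
    (∀ x, x ⬝ᵥ x ≤ 2 * S.Q * (x ⬝ᵥ A *ᵥ x)) ∧
    |Real.log A.det - Fintype.card (IR l N) * Real.log S.Λ +
      2 * ∑ y : TS N, (S.dt0 (sh (lf y) (cC (ab θ)))).re| ≤ 3 * (Fintype.card (TS N) * φ ^ 3) ∧
    (TD S.Q (tf S.m1 S.T1) → ∀ w,
      |w ⬝ᵥ (bD N l - bC l B * A⁻¹ * bB l B) *ᵥ w - w ⬝ᵥ Hs N (tf S.m1 S.T1) θ *ᵥ w| ≤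
      S.Q ^ 36 * φ ^ 3 * (w ⬝ᵥ w) ∧ -(w ⬝ᵥ w) ≤ w ⬝ᵥ (bD N l - bC l B * A⁻¹ * bB l B) *ᵥ w) := by
  subst e hA
  obtain ⟨T, hK⟩ := jt h.sm.nu h.sm.tok h.nm hb hF hB
  obtain ⟨nr, dA, cA, lA⟩ := det_A h.sm h.nm h.hβ h.hn h.hN hb hF T hK
  obtain ⟨κ, κ0, κ1, dc⟩ := h.dc
  exact ⟨T.1, dA, cA, lA, fun f1 =>
    next_H h.sm h.nm h.hβ dc κ0 κ1 f1 h.hn h.hN hb hF T nr dA cA⟩

theorem card_IR (h : S.Nu 100) :
    (Fintype.card (IR S.l N) : ℝ) ≤ S.Q * Fintype.card (TS N) := by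
  refine (Nat.cast_le.2 (Fintype.card_subtype_le _)).trans ?_
  have := h.mong (C := 4) (k := 1) (i := 4) (j := 0) (by norm_num) (by norm_num)
    (by have := h.exps; omega) (by omega)
  have V0 : (0 : ℝ) ≤ Fintype.card (TS N) := by positivity
  rw [Fintype.card_prod, Fintype.card_prod, Nat.cast_mul, Nat.cast_mul, card_fi]
  simp only [Fintype.card_fin, Td.L] at this ⊢
  push_cast
  nlinarith [mul_le_mul_of_nonneg_left GD.d_le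
    (by positivity : 0 ≤ (LL S.l : ℝ) ^ 4 * Fintype.card (TS N))]

theorem exN_sq (x : IR l N → ℝ) : exN x ⬝ᵥ exN x = x ⬝ᵥ x := by
  rw [exN_dot]
  exact congrArg _ (funext fun i => by simp [exN, i.2])

variable (N) in
/-- the Hessians of two densities are close -/
def Hd (t t' : Cf → ℂ) (θ : Lk → Ang) (d : ℝ) : Prop :=
  ∀ a, |a ⬝ᵥ Hs N t' θ *ᵥ a - a ⬝ᵥ Hs N t θ *ᵥ a| ≤ d * (a ⬝ᵥ a)

theorem step_cmp (h : Sp N φ S) (h' : Sp N φ S') (e : S.l = l) (e' : S'.l = l) (eQ : S'.Q = S.Q)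
    (eΛ : S'.Λ = S.Λ) (hb : Bg N F θ) (hF : ‖F‖ ≤ φ) (d0 : 0 ≤ d) (d1 : 4 * S.Q * d ≤ 1)
    (hd : Hd (fi l N) (tf S.m S.T) (tf S'.m S'.T) (lift l F θ) d) :
    (TD S.Q (tf S.m1 S.T1) → TD S.Q (tf S'.m1 S'.T1) →
      Hd N (tf S.m1 S.T1) (tf S'.m1 S'.T1) θ (S.Q ^ 3 * d + 2 * (S.Q ^ 36 * φ ^ 3))) ∧
    |∑ y : TS N, (S'.dt0 (sh (lf y) (cC (ab θ)))).re -
      ∑ y : TS N, (S.dt0 (sh (lf y) (cC (ab θ)))).re| ≤
        Fintype.card (TS N) * (S.Q ^ 3 * d + 3 * φ ^ 3) := by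
  obtain ⟨B, hB⟩ := jb_ex h.sm.nu h.nm hb hF
  have cI := card_IR (N := N) h.sm.nu
  have nu := h.sm.nu
  subst e
  obtain ⟨s, dA, cA, lA, nA⟩ := one_step h rfl hb hF hB rfl
  obtain ⟨s', dA', cA', lA', nA'⟩ := one_step h' e' hb hF hB rfl
  rw [eQ] at cA' nA'
  rw [eΛ] at lA'
  have Q0 := S.Q0
  have big := h.nm.big
  have V0 := h.nm.V0
  have k : ∀ x, |x ⬝ᵥ bA S.l (Hs _ (tf S'.m S'.T) (lift S.l F θ)) B *ᵥ x -
      x ⬝ᵥ bA S.l (Hs _ (tf S.m S.T) (lift S.l F θ)) B *ᵥ x| ≤ d * (x ⬝ᵥ x) := fun x => by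
    rw [bA, bA, quad_sub _ (g := Subtype.val) (e := exN x) (exN_dot x),
      quad_sub _ (g := Subtype.val) (e := exN x) (exN_dot x), add_mulVec, add_mulVec,
      dotProduct_add, dotProduct_add, add_sub_add_right_eq_sub, ← exN_sq]
    exact hd _
  generalize bA S.l (Hs _ (tf S'.m S'.T) (lift S.l F θ)) B = A' at *
  generalize bA S.l (Hs _ (tf S.m S.T) (lift S.l F θ)) B = A at *
  refine ⟨fun f1 f1' w => ?_, ?_⟩
  · have w0 := dot_nonneg w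
    replace nA := nA f1
    replace nA' := nA' f1'
    have eD : w ⬝ᵥ bD N S.l *ᵥ w = S.L ^ 2 * (w ⬝ᵥ w) := by
      rw [bD, smul_mulVec, one_mulVec, dotProduct_smul, smul_eq_mul, Td.L]
    have q : 4 * S.L ^ 2 ≤ S.Q := by
      simpa using nu.mon (C := 4) (i := 2) (j := 0) (by norm_num) (by have := nu.exps; omega)
        (by omega)
    have q1 := mul_le_mul_of_nonneg_right q w0
    have q2 := mul_le_mul_of_nonneg_right (show 4 ≤ S.Q by linarith) w0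
    have a1 := schur_le s s' dA.ne' dA'.ne' (by positivity) cA cA' d0
      (fun x => (abs_le.1 (k x)).2) w (K := S.Q / 2 * (w ⬝ᵥ w)) (by linarith [(nA w).2])
    have a2 := schur_le s' s dA'.ne' dA.ne' (by positivity) cA' cA d0
      (fun x => by linarith [(abs_le.1 (k x)).1]) w (K := S.Q / 2 * (w ⬝ᵥ w))
      (by linarith [(nA' w).2])
    have a3 := abs_le.1 (nA w).1
    have a4 := abs_le.1 (nA' w).1
    have a5 : d * (2 * S.Q * (S.Q / 2 * (w ⬝ᵥ w))) ≤ S.Q ^ 3 * d * (w ⬝ᵥ w) := by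
      calc _ = S.Q ^ 2 * d * (w ⬝ᵥ w) := by ring
        _ ≤ _ := by gcongr <;> first | exact S.Q1 | norm_num
    rw [abs_le]
    constructor <;> linarith
  · have sA := (isSymm_fromBlocks_iff.1 s).1
    have sA' := (isSymm_fromBlocks_iff.1 s').1
    have a1 := (logdet_abs sA sA' (γ := (2 * S.Q)⁻¹) (η := d) (by positivity) (fun x => by
      rw [inv_mul_le_iff₀ (by positivity)]; exact cA x) (fun x => by
      rw [sub_mulVec, dotProduct_sub]; exact k x) d0 (by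
      rw [← one_div, le_div_iff₀ (by positivity)]; linarith)).2.2
    have a2 : 2 * d / (2 * S.Q)⁻¹ * Fintype.card (IR S.l N) ≤
        2 * (Fintype.card (TS N) * (S.Q ^ 3 * d)) := by
      calc _ ≤ 2 * d / (2 * S.Q)⁻¹ * (S.Q * Fintype.card (TS N)) := by gcongr
        _ = 2 * (Fintype.card (TS N) * (2 * S.Q ^ 2 * d)) := by field_simp
        _ ≤ 2 * (Fintype.card (TS N) * (S.Q * S.Q ^ 2 * d)) := by gcongr; linarith
        _ = _ := by ring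
    have a3 := abs_le.1 (a1.trans a2)
    have a4 := abs_le.1 lA
    have a5 := abs_le.1 lA'
    rw [abs_le]
    constructor <;> linarith

end Pool.Agent.Lib.MP_7f377f_mp.RG.Q4.Af.Tp
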