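import Pool.Agent.Lib.MP_7f377f_mp.G.S21I
import Pool.Agent.Lib.MP_7f377f_mp.G.Q4AfY

/-! Comparison of two chains of tree steps on large cubic tori. -/

noncomputable section

set_option linter.unusedSectionVars false
variable [Pool.Agent.Lib.MP_7f377f_mp.GD]

namespace Pool.Agent.Lib.MP_7f377f_mp.RG.Q4.Af.Tp

open Finset Matrix Real

/-- quanta of flux in the two planes -/
def Fk (k : ℤ × ℤ) : ℝ × ℝ := (k.1, k.2)

/-- backgrounds with `k` quanta of flux -/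
def th2 (l a : ℕ) (k : ℤ × ℤ) : ℕ → Lk → Ang
  | 0 => (bg_exists (LL l ^ a) (LL l ^ a) k.1 k.2).choose
  | j + 1 => lift l (fj l a j • Fk k) (th2 l a k j)

theorem bg_th2 (l a : ℕ) (k : ℤ × ℤ) (j : ℕ) :
    Bg (Tn l a a j) (fj l a j • Fk k) (th2 l a k j) := by
  induction j with
  | zero =>
    simpa [fj, th2, Tn, Fk, mul_comm] using
      (bg_exists (LL l ^ a) (LL l ^ a) k.1 k.2).choose_spec
  | succ j ih =>
    have := bg_lift (l := l) ih
    rwa [fi_Tn, smul_smul, show ((LL l : ℝ) ^ 2)⁻¹ * fj l a j = fj l a (j + 1) by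
      have := LL_pos' l
      simp only [fj, ← add_assoc, pow_succ _ (a + j)]
      field_simp] at this

theorem fj_le (l a j : ℕ) : fj l a j ≤ fj l a 0 := by
  have := LL_pos' l
  have := hh_pos
  have : (1 : ℝ) ≤ LL l := by exact_mod_cast LL_pos l
  unfold fj
  gcongr
  omega

theorem norm_Fk {φ : ℝ} (φ0 : 0 < φ) {k : ℤ × ℤ} (hk : ‖Fk k‖ ≤ 1) : ‖φ • Fk k‖ ≤ φ := by
  rw [norm_smul, norm_of_nonneg φ0.le]
  exact mul_le_of_le_one_right φ0.le hk

theorem Hd.congr {N N' : Fin 4 → ℕ} [∀ i, NeZero (N i)] [∀ i, NeZero (N' i)] (e : N = N')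
    {t t' : Cf → ℂ} {θ : Lk → Ang} {d : ℝ} (h : Hd N t t' θ d) : Hd N' t t' θ d := by
  subst e; exact h

theorem Hd.mono {N : Fin 4 → ℕ} [∀ i, NeZero (N i)] {t t' : Cf → ℂ} {θ : Lk → Ang} {d d' : ℝ}
    (h : Hd N t t' θ d) (e : d ≤ d') : Hd N t t' θ d' :=
  fun a => (h a).trans (mul_le_mul_of_nonneg_right e (dot_nonneg a))

/-- densities whose difference has an almost constant sum have close Hessians -/
theorem hd_of {N : Fin 4 → ℕ} [∀ i, NeZero (N i)] {t t' : Cf → ℂ} {θ : Lk → Ang} {Q φ : ℝ}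
    {F : ℝ × ℝ} (h : TD Q t) (h' : TD Q t') (n : Nm Q φ (Fintype.card (TS N))) (hb : Bg N F θ)
    (hF : ‖F‖ ≤ φ) (hq : ∀ a, ‖a‖ ≤ φ → |SS N t' (ab θ) a - SS N t (ab θ) a -
      (SS N t' (ab θ) 0 - SS N t (ab θ) 0)| ≤ Fintype.card (TS N) * (Q ^ 100 * φ ^ 18)) :
    Hd N t t' θ (φ ^ 3) := fun a => by
  have φ0 := n.pos
  have a3 : Q ^ 3 * φ ≤ 1 := by simpa using n.a (C := 1) (i := 3) (by norm_num) (by norm_num)
  have T := ((td_hess h' hb.per hb.curv hF φ0 a3).1.add (td_hess h hb.per hb.curv hF φ0 a3).1.neg)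
  have p6 : φ ^ 6 ≤ φ := pow_le_of_le_one φ0.le n.p1 (by norm_num)
  have k := quad_scale (Q := Hs N t' θ + -Hs N t θ) (σ := φ ^ 6) (X := φ ^ 15) (by positivity)
    (fun u hu => by
      have b1 := abs_le.1 (T.2 u _ hu (by
        simpa using n.inv (C := 1) (i := 0) (j := 6) (k := 2) (by norm_num) (by norm_num)
          (by norm_num)))
      have b2 := abs_le.1 (hq u (hu.trans p6))
      have b3 := n.c (C := 4) (i := 5) (j := 16) (k := 15) (by norm_num) (by norm_num) (by norm_num)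
        (by norm_num)
      have b4 := n.c (C := 2) (i := 100) (j := 16) (k := 15) (by norm_num) (by norm_num)
        (by norm_num) (by norm_num)
      rw [abs_le]
      constructor <;> linarith) a
  rw [add_mulVec, neg_mulVec, dotProduct_add, dotProduct_neg, ← sub_eq_add_neg,
    show φ ^ 15 / (φ ^ 6) ^ 2 = φ ^ 3 by field_simp] at k
  exact k.trans (mul_le_mul_of_nonneg_left (norm_sq_le_dot a) (by positivity))

/-- a chain of `J` steps on the tori `Tn l a a` -/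
structure Pc (l a J : ℕ) (Q Λ : ℝ) (S : ℕ → Sd) : Prop where
  sp : ∀ i < J, ∀ m < J, Sp (Tn l a a m) (fj l a m) (S i)
  el : ∀ i < J, (S i).l = l
  eQ : ∀ i < J, (S i).Q = Q
  eΛ : ∀ i < J, (S i).Λ = Λ
  nx : ∀ i, i + 1 < J → tf (S (i + 1)).m (S (i + 1)).T = tf (S i).m1 (S i).T1

variable {l a J : ℕ} {Q Λ : ℝ} {S S' : ℕ → Sd} {k : ℤ × ℤ}

theorem Pc.td (h : Pc l a J Q Λ S) {i : ℕ} (hi : i < J) : TD Q (tf (S i).m (S i).T) :=
  h.eQ i hi ▸ td_of (h.sp i hi i hi).sm.nu (h.sp i hi i hi).sm.tok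

theorem chain_hd (h : Pc l a J Q Λ S) (h' : Pc l a J Q Λ S') (hk : ‖Fk k‖ ≤ 1)
    (hs : Q ^ (4 * J + 40) * fj l a 0 ≤ 1)
    (h0 : Hd (Tn l a a J) (tf (S 0).m (S 0).T) (tf (S' 0).m (S' 0).T) (th2 l a k J) (fj l a 0 ^ 3))
    (i : ℕ) : ∀ m, i + m + 1 = J → Hd (fi l (Tn l a a m)) (tf (S i).m (S i).T)
      (tf (S' i).m (S' i).T) (th2 l a k (m + 1)) (Q ^ (4 * i + 37) * fj l a 0 ^ 3) ∧
      4 * Q * (Q ^ (4 * i + 37) * fj l a 0 ^ 3) ≤ 1 := by
  have φ0 := fj_pos l a 0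
  have sm : ∀ i < J, 4 ≤ Q ∧ 4 * Q * (Q ^ (4 * i + 37) * fj l a 0 ^ 3) ≤ 1 := fun i hi => by
    have n := (h.sp i hi 0 (by omega)).nm
    rw [h.eQ i hi] at n
    have q : 4 ≤ Q := le_trans (by norm_num) n.big
    have Q1 := n.Q1
    refine ⟨q, le_trans ?_ hs⟩
    calc _ ≤ Q * Q * (Q ^ (4 * J + 38) * fj l a 0 ^ 1) := by
          gcongr ?_ * Q * (?_ * ?_)
          exacts [pow_le_pow_right₀ Q1 (by omega), pow_le_pow_of_le_one φ0.le n.p1 (by norm_num)]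
      _ = _ := by ring
  induction i with
  | zero =>
    rintro m rfl
    obtain ⟨q, s⟩ := sm 0 (by omega)
    rw [zero_add] at h0
    exact ⟨(h0.congr (fi_Tn l a a m).symm).mono (le_mul_of_one_le_left (by positivity)
      (one_le_pow₀ (by linarith))), s⟩
  | succ i ih =>
    intro m hm
    obtain ⟨k1, k2⟩ := ih (m + 1) (by omega)
    have i0 : i < J := by omega
    have i1 : i + 1 < J := by omega
    obtain ⟨q, s⟩ := sm (i + 1) i1
    have e := h.eQ i i0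
    have := (step_cmp (h.sp i i0 (m + 1) (by omega)) (h'.sp i i0 (m + 1) (by omega)) (h.el i i0)
      (h'.el i i0) ((h'.eQ i i0).trans e.symm) ((h'.eΛ i i0).trans (h.eΛ i i0).symm)
      (bg_th2 l a k (m + 1)) (norm_Fk (fj_pos ..) hk) (by positivity) (e ▸ k2) k1).1
      (by rw [e, ← h.nx i i1]; exact h.td i1) (by rw [e, ← h'.nx i i1]; exact h'.td i1)
    rw [e, ← h.nx i i1, ← h'.nx i i1] at this
    refine ⟨(this.congr (fi_Tn l a a m).symm).mono ?_, s⟩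
    have f0 := fj_pos l a (m + 1)
    have f1 := fj_le l a (m + 1)
    have Q1 : 1 ≤ Q := by linarith
    calc _ ≤ Q ^ 3 * (Q ^ (4 * i + 37) * fj l a 0 ^ 3) + 2 * (Q ^ (4 * i + 40) * fj l a 0 ^ 3) := by
          gcongr
          omega
      _ = 3 * (Q ^ (4 * i + 40) * fj l a 0 ^ 3) := by ring
      _ ≤ Q * (Q ^ (4 * i + 40) * fj l a 0 ^ 3) := by gcongr; linarith
      _ = _ := by ring

theorem chain_ol {j : ℕ} (h : Pc l a (j + 1) Q Λ S) (h' : Pc l a (j + 1) Q Λ S')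
    (hs : Q ^ (4 * j + 44) * fj l a 0 ≤ 1)
    (h0 : ∀ k, ‖Fk k‖ ≤ 1 → Hd (Tn l a a (j + 1)) (tf (S 0).m (S 0).T) (tf (S' 0).m (S' 0).T)
      (th2 l a k (j + 1)) (fj l a 0 ^ 3)) (hk : ‖Fk k‖ ≤ 1) {x : V}
    (hx : ∀ μ ν, dd x 0 μ ν = kF (Fk k) μ ν) :
    |(qc (S' j).ol x x).re - (qc (S j).ol x x).re| ≤ Q ^ (4 * j + 41) * fj l a 0 := by
  have j0 := Nat.lt_succ_self j
  have g := h.sp j j0 0 (by omega)
  have g' := h'.sp j j0 0 (by omega)
  have e := h.eQ j j0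
  have e' := h'.eQ j j0
  have φ0 := fj_pos l a 0
  have n := g.nm
  rw [e] at n
  have key := fun k (hk : ‖Fk k‖ ≤ 1) => by
    have c := chain_hd h h' hk hs (h0 k hk) j 0 rfl
    exact (step_cmp g g' (h.el j j0) (h'.el j j0) (e'.trans e.symm)
      ((h'.eΛ j j0).trans (h.eΛ j j0).symm) (bg_th2 l a k 0) (norm_Fk φ0 hk)
      (by have := n.Q1; positivity) (e ▸ c.2) c.1).2
  have z : Fk 0 = 0 := by simp [Fk]
  have D : ∀ {S : Sd}, Sp (Tn l a a 0) (fj l a 0) S → S.Q = Q →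
      |∑ y : TS (Tn l a a 0), (S.dt0 (sh (lf y) (cC (ab (th2 l a k 0))))).re -
        ∑ y : TS (Tn l a a 0), (S.dt0 (sh (lf y) (cC (ab (th2 l a 0 0))))).re +
        Fintype.card (TS (Tn l a a 0)) * (fj l a 0 ^ 2 * (qc S.ol x x).re)| ≤
      Fintype.card (TS (Tn l a a 0)) * (Q ^ 10 * fj l a 0 ^ 3) := fun {S} g e => by
    have β0 := g.sm.nu.ok.β0
    have := (abs_sum_le_sum_abs _ _).trans (sum_le_card_nsmul univ _ (Q ^ 10 * fj l a 0 ^ 3)
      fun (y : TS (Tn l a a 0)) _ => show |(S.dt0 (sh (lf y) (cC (ab (th2 l a k 0))))).re -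
        (S.dt0 (sh (lf y) (cC (ab (th2 l a 0 0))))).re + fj l a 0 ^ 2 * (qc S.ol x x).re| ≤ _ by
          have d1 := dt_flux g.sm.nu g.sm.tk rfl (bg_th2 l a k 0).curv
            ((mul_le_mul_of_nonneg_left (norm_Fk φ0 hk) β0.le).trans g.hβ) (lf y) hx
          have d0 := dt_flux g.sm.nu g.sm.tk (c := 0) (E := Fk k) (by rw [z, smul_zero, zero_smul])
            (bg_th2 l a 0 0).curv (by simp [z]) (lf y) hx
          simp only [z, smul_zero, norm_zero, zero_pow two_ne_zero, zero_pow three_ne_zero,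
            zero_mul, mul_zero, add_zero, abs_nonpos_iff, sub_eq_zero] at d0
          rw [← d0, e] at d1
          have := n.Q1
          exact d1.trans (by gcongr; exact norm_Fk φ0 hk))
    rwa [sum_add_distrib, sum_sub_distrib, sum_const, card_univ, nsmul_eq_mul, nsmul_eq_mul] at this
  have a1 := abs_le.1 (key k hk)
  have a2 := abs_le.1 (key 0 (by simp [z]))
  have a3 := abs_le.1 (D g e)
  have a4 := abs_le.1 (D g' e')
  rw [e] at a1 a2
  have V0 : (0 : ℝ) < Fintype.card (TS (Tn l a a 0)) := by exact_mod_cast Fintype.card_pos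
  generalize (Fintype.card (TS (Tn l a a 0)) : ℝ) = W at *
  generalize fj l a 0 = φ at *
  have Q1 := n.Q1
  have b1 : Q ^ 10 ≤ Q ^ (4 * j + 40) := pow_le_pow_right₀ Q1 (by omega)
  have b2 : 1 ≤ Q ^ (4 * j + 40) := one_le_pow₀ Q1
  have b3 := mul_le_mul_of_nonneg_right (show 10 ≤ Q by linarith [n.big])
    (by positivity : 0 ≤ Q ^ (4 * j + 40))
  have b4 := mul_le_mul_of_nonneg_left (show 2 * Q ^ (4 * j + 40) + 6 + 2 * Q ^ 10 ≤
    Q * Q ^ (4 * j + 40) by linarith) (by positivity : 0 ≤ W * φ ^ 3)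
  refine le_of_mul_le_mul_left ?_ (by positivity : 0 < W * φ ^ 2)
  rw [← abs_of_pos (by positivity : 0 < W * φ ^ 2), ← abs_mul,
    abs_of_pos (by positivity : 0 < W * φ ^ 2), abs_le]
  have b5 : W * φ ^ 2 * (Q ^ (4 * j + 41) * φ) = W * φ ^ 3 * (Q * Q ^ (4 * j + 40)) := by ring
  have b6 : W * (Q ^ 3 * (Q ^ (4 * j + 37) * φ ^ 3) + 3 * φ ^ 3) =
      W * φ ^ 3 * (Q ^ (4 * j + 40) + 3) := by ring
  rw [b6] at a1 a2
  rw [b5]
  constructor <;> linarith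

end Pool.Agent.Lib.MP_7f377f_mp.RG.Q4.Af.Tp
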