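import Pool.Agent.Lib.MP_7f377f_mp.G.S21I2

/-! A density with almost constant sum does not change the one loop terms of a pure chain. -/

noncomputable section

set_option linter.unusedSectionVars false
variable [Pool.Agent.Lib.MP_7f377f_mp.GD]

namespace Pool.Agent.Lib.MP_7f377f_mp.RG.Q4.Af.Tp

open Finset Real Filter En

theorem nm_of {S : Sd} (nu : S.Nu 100) {a m : ℕ} (hβ : S.β * fj S.l a m ≤ 1) :
    Nm S.Q (fj S.l a m) (Fintype.card (TS (Tn S.l a a m))) :=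
  ⟨nu.cQ le_rfl, fj_pos .., (mul_le_mul_of_nonneg_right nu.ok.Qβ (fj_pos ..).le).trans hβ,
    by positivity, (card_Tn ..).trans_le ((om_le le_rfl).trans (nu.gQ' (by norm_num) (by norm_num)))⟩

theorem sp_of {S : Sd} (nu : S.Nu 100) (tok : S.TOk) (tk : S.TK) (eβ : S.β' = S.β) {a m : ℕ}
    (ha : 2 * S.c + 5 ≤ a) (hβ : S.β * fj S.l a m ≤ 1) (t1 : S.τ ≤ fj S.l a m ^ 30)
    (dc : ∃ κ, 0 ≤ κ ∧ κ ≤ fj S.l a m ^ 30 ∧ Dcy S.l (S.r / 2) κ S.m) :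
    Sp (Tn S.l a a m) (fj S.l a m) S := by
  have n := nm_of nu hβ
  have L3 := nu.LL_big
  have hN : ∀ i, Tn S.l a a m i = LL S.l ^ (a + m) := fun i => by fin_cases i <;> rfl
  refine ⟨?_, n, hβ, dc, fun i => hN i ▸ Odd.pow ⟨S.l, rfl⟩, fun i => ?_⟩
  · have φ0 := n.pos
    have p3 := n.p1
    generalize fj S.l a m = φ at *
    have β0 := nu.ok.β0
    have g0 := nu.ok.g'0
    have p2 : φ ≤ S.g' ^ 2 := le_of_mul_le_mul_left (by linarith [eβ ▸ nu.ok.βg']) β0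
    have p4 : S.Q ^ 10 * S.g' ≤ 1 := by simpa using nu.ok.Qg'_le (i := 10) (j := 0) (by norm_num)
    exact ⟨nu, tok, tk, by positivity, (mul_le_mul_of_nonneg_left
      ((pow_le_of_le_one φ0.le p3 (by norm_num)).trans p2) (pow_pos S.Q0 _).le).trans (by
        rw [sq, ← mul_assoc]; exact mul_le_of_le_one_left g0.le p4), t1,
      le_trans (le_trans (exp_le_exp.2 (neg_le_neg ((div_le_self (by positivity)
        (by exact_mod_cast nu.ok.c1)).trans nu.r_le_lsq)))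
        (le_mul_of_one_le_left (exp_pos _).le (one_le_pow₀ (Sd.L1 _)))) t1⟩
  · refine hN i ▸ lt_of_lt_of_le ?_ (Nat.pow_le_pow_right (by omega) (show 2 * S.c + 5 ≤ _ by omega))
    rw [pow_succ' _ (2 * S.c + 4)]
    exact Nat.mul_lt_mul_of_pos_right (by omega) (pow_pos (by omega) _)

theorem fj_low' {l a j n : ℕ} (hj : j ≤ n) {x : ℝ}
    (h : x * (LL l : ℝ) ^ (60 * (a + n)) ≤ 1) : x ≤ fj l a j ^ 30 := by
  have L0 := LL_pos' l
  have h0 := hh_pos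
  rw [← le_div_iff₀ (by positivity)] at h
  rw [fj, div_pow, ← pow_mul, ← pow_mul]
  refine h.trans (div_le_div₀ (by positivity) (one_le_pow₀ (by nlinarith [pi_gt_three, GD.hh1]))
    (by positivity) (pow_le_pow_right₀ (by exact_mod_cast Nat.succ_pos _) (by omega)))

/-- tree data of a chain -/
def T1c (c Kt K0 l : ℕ) (t : Td) : Prop := (t.c = c ∧ t.Kt = Kt ∧ t.K0 = K0 ∧ t.l = l) ∧
  ∃ M j v e, (M = LL l ∨ M = 3 * LL l) ∧ 2⁻¹ ≤ v ∧ v ≤ 2 ∧ 0 ≤ e ∧ e ≤ 1000⁻¹ ∧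
    t.Tr M j v e ∧ t.Ln j v e

/-- the sum of `t' - t` over large cubic tori is almost constant on small fields -/
def Flat (P : ℝ) (t t' : Cf → ℂ) : Prop := ∀ (n : ℕ) [NeZero n], P ≤ n → ∀ F θ φ a,
  Bg (NN n n) F θ → 0 < φ → ‖F‖ ≤ φ → ‖a‖ ≤ φ → P * φ ≤ 1 →
    |SS (NN n n) t' (ab θ) a - SS (NN n n) t (ab θ) a -
      (SS (NN n n) t' (ab θ) 0 - SS (NN n n) t (ab θ) 0)| ≤
        Fintype.card (TS (NN n n)) * (P * φ ^ 18)

theorem afq_diag (c : ℕ) (c1 : 1 ≤ c) : ∃ a0, ∀ Kt ≥ a0, ∃ a1, ∀ K0 ≥ a1, ∀ Ka C p : ℕ, ∃ l0,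
    ∀ l ≥ l0, ∀ n ≤ C * S0 l, ∀ d d' : ℕ → Td,
      (∀ i ≤ n, T1c c Kt K0 l (d i)) → (∀ i ≤ n, T1c c Kt K0 l (d' i)) →
      (∀ i < n, (d (i + 1)).m = (d i).m1 ∧ (d (i + 1)).T = (d i).T1) →
      (∀ i < n, (d' (i + 1)).m = (d' i).m1 ∧ (d' (i + 1)).T = (d' i).T1) →
      Flat ((LL l : ℝ) ^ p) (tf (d 0).m (d 0).T) (tf (d' 0).m (d' 0).T) →
      (∀ k, ‖Fk k‖ ≤ 1 → ∀ x : V, (∀ μ ν, dd x 0 μ ν = kF (Fk k) μ ν) →
        |(qc (d' n).ol x x).re - (qc (d n).ol x x).re| ≤ ((LL l : ℝ) ^ Ka)⁻¹) ∧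
      ∃ k k' : CF, (∀ a b, k a b = k b a) ∧ (∀ a b, k' a b = k' b a) ∧
        (∀ a b, Q4.q2 (d n).ol a b = k a b) ∧ ∀ a b, Q4.q2 (d' n).ol a b = k' a b := by
  obtain ⟨c', c2, hd⟩ := dcy_of
  obtain ⟨a0, H0⟩ := (ev_nu c 100).and (tk0 c)
  refine ⟨a0, fun Kt h0 => (H0 Kt h0).imp fun a1 H0 K0 h1 Ka C p => ?_⟩
  obtain ⟨k0, H0⟩ := H0 K0 h1
  obtain ⟨K, hK⟩ : ∃ K, K = k0 + p := ⟨_, rfl⟩
  obtain ⟨l0, H0⟩ := H0 K (by omega) (1000 * K)
  obtain ⟨D, hD⟩ : ∃ D, D = (4 * K + 1) * C + 1 := ⟨_, rfl⟩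
  obtain ⟨b, hb⟩ : ∃ b, b = 1000 * K + Ka + 2 * c + 6 := ⟨_, rfl⟩
  have D1 : 1 ≤ D := by omega
  obtain ⟨l3, H3⟩ := eventually_atTop.1 (pow_S0_le (3 * c * c' * D) (c + 60 * b)
    (Nat.mul_pos (by nlinarith) D1))
  refine ⟨l0 + l3 + c' + ⌈8 * GD.hh⌉₊, fun l hl n hn d d' h h' nx nx' fl => ?_⟩
  obtain ⟨a, ha⟩ : ∃ a, a = 4 * K * n + b := ⟨_, rfl⟩
  have L0 := LL_pos' l
  have L1 : (1 : ℝ) ≤ LL l := by exact_mod_cast LL_pos l
  have φ0 := fj_pos l a 0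
  have φ1 : ∀ i, i + 1 ≤ a → (LL l : ℝ) ^ i * fj l a 0 ≤ 1 := fun i hi => by
    have h8 : 8 * GD.hh ≤ LL l := Nat.ceil_le.1 (by unfold LL; omega)
    have := hh_pos
    rw [fj, ← mul_div_assoc, div_le_one (by positivity), ← pow_mul]
    calc _ ≤ (LL l : ℝ) ^ i * LL l := by gcongr; nlinarith [pi_lt_four]
      _ ≤ _ := by rw [← pow_succ]; exact pow_le_pow_right₀ L1 (by omega)
  have c3 : (1 : ℝ) ≤ c := by exact_mod_cast c1
  have c4 : (1 : ℝ) ≤ c' := by exact_mod_cast c2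
  have E : (LL l : ℝ) ^ (c + 60 * (a + n)) ≤ exp ((Nat.log 3 (LL l) ^ 4 : ℕ) / (3 * c * c')) := by
    have D0 : (0 : ℝ) < D := by exact_mod_cast D1
    have e1 : (4 * K + 1) * n ≤ D * S0 l := (Nat.mul_le_mul_left _ hn).trans (by
      rw [← mul_assoc]; exact Nat.mul_le_mul_right _ (by omega))
    have e2 := Nat.le_mul_of_pos_left (c + 60 * b) D1
    calc _ ≤ ((LL l : ℝ) ^ (c + 60 * b + 120 * S0 l)) ^ D := by
          rw [← pow_mul]; exact pow_le_pow_right₀ L1 (by nlinarith)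
      _ ≤ _ := pow_le_pow_left₀ (by positivity) (H3 l (by omega)) D
      _ = _ := by rw [← exp_nat_mul]; congr 1; push_cast; field_simp
  have gp : ∀ t, T1c c Kt K0 l t → ∃ S : Sd, S.toTd = t ∧ S.Q = (LL l : ℝ) ^ K ∧
      S.β = (LL l : ℝ) ^ (1000 * K) ∧ ∀ m ≤ n, Sp (Tn l a a m) (fj l a m) S := by
    rintro t ⟨⟨rfl, r1, r2, rfl⟩, M, j, v, e, hM, v1, v2, e0, e1, tr, ln⟩
    have o := sdOf_ok (t := t) (K := K) c1 le_rfl
    obtain ⟨nu, tk⟩ := H0 ⟨t, K, 1000 * K, M, (sdOf t K 0).n, t.L ^ (1000 * K), t.L ^ (1000 * K)⟩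
      ⟨c1, hM, o.odd, o.vol, o.low, o.le, o.two, o.upp⟩ rfl r1 r2 rfl rfl (show l0 ≤ t.l by omega)
    have tok : Sd.TOk ⟨t, K, 1000 * K, M, (sdOf t K 0).n, t.L ^ (1000 * K), t.L ^ (1000 * K)⟩ :=
      ⟨j, v, e, v1, v2, e0, e1, tr, ln⟩
    obtain ⟨j', cU, u1, u2⟩ := tok.inv
    have r3 := nu.lens
    have k : ∀ y, (t.r : ℝ) / (3 * t.c * c') ≤ y →
        t.L ^ t.c * exp (-y) * (LL t.l : ℝ) ^ (60 * (a + n)) ≤ 1 := fun y hy => by
      rw [mul_right_comm, Td.L, ← pow_add, exp_neg, ← div_eq_mul_inv, div_le_one (exp_pos _)]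
      exact E.trans (exp_le_exp.2 (le_of_eq_of_le (by rw [Td.r]) hy))
    refine ⟨_, rfl, rfl, rfl, fun m hm => sp_of nu tok (tk tok) rfl (show 2 * t.c + 5 ≤ a by omega)
      (le_trans (mul_le_mul_of_nonneg_left (fj_le ..) (pow_pos L0 _).le) (φ1 _ (by omega)))
      (fj_low' hm (k _ ?_)) ⟨_, (exp_pos _).le, fj_low' hm (le_trans (mul_le_mul_of_nonneg_right
        (le_mul_of_one_le_left (exp_pos _).le (one_le_pow₀ (Sd.L1 t))) (by positivity)) (k _ ?_)),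
      hd _ _ _ _ _ _ _ (show c' ≤ t.l by omega) (show 3 * t.r ≤ t.l by simp only at r3; omega)
        (show t.r / 2 + 6 ≤ t.l by simp only at r3; omega) le_rfl u1 u2⟩⟩
    · exact div_le_div_of_nonneg_left (by positivity) (by linarith) (by nlinarith)
    · have : (t.r : ℝ) ≤ 3 * (t.r / 2 : ℕ) := by
        exact_mod_cast (show t.r ≤ 3 * (t.r / 2) by simp only at r3; omega)
      rw [div_le_div_iff₀ (by positivity) (by positivity)]
      nlinarith [mul_le_mul_of_nonneg_right this (show (0 : ℝ) ≤ c' by linarith),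
        mul_nonneg (sub_nonneg.2 c3) (show (0 : ℝ) ≤ (t.r / 2 : ℕ) * c' by positivity)]
  have pc : ∀ d : ℕ → Td, (∀ i ≤ n, T1c c Kt K0 l (d i)) →
      (∀ i < n, (d (i + 1)).m = (d i).m1 ∧ (d (i + 1)).T = (d i).T1) →
      ∃ S : ℕ → Sd, (∀ i ≤ n, (S i).toTd = d i) ∧ (S 0).β = (LL l : ℝ) ^ (1000 * K) ∧
        Pc l a (n + 1) ((LL l : ℝ) ^ K) ((LL l : ℝ) ^ (c + 1)) S := fun d h nx => by
    have : Nonempty Sd := ⟨sdOf (d 0) 0 0⟩
    choose! S e1 e2 e3 e4 using fun i hi => gp _ (h i hi)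
    refine ⟨S, e1, e3 0 (Nat.zero_le _), fun i hi m hm => e4 i (by omega) m (by omega),
      fun i hi => ?_, fun i hi => e2 i (by omega), fun i hi => ?_, fun i hi => ?_⟩
    · rw [e1 i (by omega), (h i (by omega)).1.2.2.2]
    · rw [e1 i (by omega), Td.Λ, (h i (by omega)).1.2.2.2, (h i (by omega)).1.1]
    · rw [e1 i (by omega), e1 (i + 1) (by omega), (nx i (by omega)).1, (nx i (by omega)).2]
  obtain ⟨S, e, β, P⟩ := pc d h nx
  obtain ⟨S', e', -, P'⟩ := pc d' h' nx'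
  have n0 := Nat.succ_pos n
  have bil : ∀ {S : Sd} {φ}, Sp (Tn l a a 0) φ S →
      ∃ k : CF, (∀ a b, k a b = k b a) ∧ ∀ a b, Q4.q2 S.ol a b = k a b :=
    fun g => g.sm.fo.ol_ps.bil
  refine ⟨fun k hk x hx => ?_, ?_⟩
  · have := chain_ol P P' (by rw [← pow_mul]; exact φ1 _ (by nlinarith)) (fun k hk => by
      have f0 := fj_pos l a (n + 1)
      have f1 := fj_le l a (n + 1)
      have N := nm_of (P.sp 0 n0 0 n0).sm.nu (a := a) (m := n + 1) (by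
        rw [β, P.el 0 n0]
        exact (mul_le_mul_of_nonneg_left f1 (by positivity)).trans (φ1 _ (by omega)))
      rw [P.el 0 n0, P.eQ 0 n0] at N
      refine (hd_of (P.td n0) (P'.td n0) N (bg_th2 l a k (n + 1)) (norm_Fk f0 hk)
        fun u hu => ?_).mono (by gcongr)
      rw [e 0 (Nat.zero_le _), e' 0 (Nat.zero_le _)]
      refine (fl _ (by push_cast; exact pow_le_pow_right₀ L1 (by omega)) _ _ _ u
        (bg_th2 l a k (n + 1)) f0 (norm_Fk f0 hk) hu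
        ((mul_le_mul_of_nonneg_left f1 (by positivity)).trans (φ1 _ (by omega)))).trans ?_
      rw [← pow_mul]
      gcongr
      omega) hk hx
    rw [e n le_rfl, e' n le_rfl, ← pow_mul] at this
    refine this.trans ?_
    rw [← one_div, le_div_iff₀ (by positivity), mul_right_comm, ← pow_add]
    exact φ1 _ (by nlinarith)
  · obtain ⟨k, k1, k2⟩ := bil (P.sp n (by omega) 0 n0)
    obtain ⟨k', k3, k4⟩ := bil (P'.sp n (by omega) 0 n0)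
    rw [e n le_rfl] at k2
    rw [e' n le_rfl] at k4
    exact ⟨k, k', k1, k3, k2, k4⟩

theorem kF_Fk (i j : ℤ) : kF (Fk (i, j)) = (i : ℝ) • EE (0, 1) + (j : ℝ) • EE (2, 3) := by
  funext μ ν
  fin_cases μ <;> fin_cases ν <;> simp [kF, Fk, EE, EZ]

end Pool.Agent.Lib.MP_7f377f_mp.RG.Q4.Af.Tp
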