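import Pool.Agent.Lib.MP_7f377f_mp.G.S21Geo
import Pool.Agent.Lib.MP_7f377f_mp.G.Q4AfJ

/-! The Hessian of the noise functional at a background of constant flux in two planes. -/

noncomputable section

set_option linter.unusedSectionVars false
variable [Pool.Agent.Lib.MP_7f377f_mp.GD]

namespace Pool.Agent.Lib.MP_7f377f_mp.RG.Q4.Af.Tp

open Finset Matrix Filter Topology Asymptotics

attribute [local irreducible] nz tfx box lbox

variable {l : ℕ} {N : Fin 4 → ℕ} [∀ i, NeZero (N i)] {F : ℝ × ℝ} {θ : Lk → Ang}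

/-- the pair of backgrounds in the comb gauge -/
def aJ (l : ℕ) (F : ℝ × ℝ) : Lk ⊕ Lk → ℝ := Sum.elim (bF l F + izA l (cg (aF F))) (cg (aF F))

theorem abs_aJ : ∀ i ∈ (lbox (5 * l + 2)).disjSum (lbox 0), |aJ l F i| ≤ 7 * ‖F‖ := by
  rintro (e | b) hi
  · refine (abs_add_le _ _).trans ((add_le_add (abs_bF e) (?_ : _ ≤ 6 * ‖F‖)).trans_eq (by ring))
    unfold izA
    split_ifs
    · simp
    · exact (cg_aF_le F (R := 2) (mem_lbox.2 (yo_mem_box (box_mono (by unfold LL; omega)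
        (mem_lbox.1 (inl_mem_disjSum.1 hi)))))).trans_eq (by norm_num)
  · exact (cg_aF_le F (inr_mem_disjSum.1 hi)).trans (by simp)

theorem bg_ga (h : ∀ x μ ν, dd θ x μ ν = (kF F μ ν : ℝ)) (y : St) (i : Lk ⊕ Lk) :
    ga (s2 l) (t2 l) (fun x => eA (lam (sh y θ) (yo l x))) (fun i => cS (Sum.elim
      (sh (up l y) (ab (lift l F θ))) (sh y (ab θ)) i)) i = cS (eA (aJ l F i)) := by
  have c := cg_flux h y
  rcases i with e | b
  · have := congrFun (gauge_ab (fun x => lam (sh y θ) (yo l x)) (lift l F (sh y θ))) e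
    rw [← lift_gr, show sh y θ - _ = cg _ from rfl, c] at this
    refine Eq.trans ?_ ((congrArg cS this).trans ?_)
    · simp only [ga, gauge, cS_mul, cS_inv, sh_ab, sh_lift, s2, t2, Sum.elim_inl]
    · simp only [ab, lift, aJ, Sum.elim_inl, Pi.add_apply, Ang.coe_add, izA]
      split_ifs <;> rfl
  · have := congrFun (fix_ab (sh y θ)) b
    rw [c] at this
    refine Eq.trans ?_ (congrArg cS this)
    simp only [ga, gauge, cS_mul, cS_inv, sh_ab, s2, t2, Sum.elim_inr, yo_up, cmb_ab]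

theorem rq_bg (h : ∀ x μ ν, dd θ x μ ν = (kF F μ ν : ℝ)) (hF : 10 ^ 8 * (LL l : ℝ) ^ 2 * ‖F‖ ≤ 1)
    (y : St) (μ : Fin 4) {Ω : Set ℂ} {A : ℂ → Fld} (hA : Disc Ω A) {η : ℝ}
    (h1 : ∀ z ∈ Ω, ∀ e, ‖A z e‖ ≤ η) (h2 : 10 ^ 7 * (LL l : ℝ) ^ 2 * η ≤ 1) {q : ℂ → Hc}
    (hq : q = fun z => cC (ab θ) (y, μ) *
      star (Vh l μ (tfx star l (sh (up l y) (exF (A z) * cC (ab (lift l F θ))))))) :
    DifferentiableOn ℂ q Ω ∧ ∀ z ∈ Ω, ‖q z - 1‖ ≤ 1 / 20 := by
  have L1 : (1 : ℝ) ≤ (LL l : ℝ) ^ 2 := one_le_pow₀ (by exact_mod_cast LL_pos l)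
  have F0 := norm_nonneg F
  have η1 : ∀ z ∈ Ω, 0 ≤ η ∧ η ≤ 1 / 10 ^ 7 := fun z hz => by
    have := (norm_nonneg _).trans (h1 z hz (0, 0))
    exact ⟨this, by nlinarith⟩
  let u : St → S3 := fun x => eA (lam (sh y θ) (yo l x))
  let B : ℂ → Lk ⊕ Lk → C3 := fun z => Sum.elim (sh (up l y) (A z)) 0
  have hB : ∀ z ∈ Ω, ∀ i, ‖B z i‖ ≤ η := fun z hz i => by
    cases i
    exacts [h1 z hz _, norm_zero.trans_le (η1 z hz).1]
  let V : Lk ⊕ Lk → S3 := Sum.elim (sh (up l y) (ab (lift l F θ))) (sh y (ab θ))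
  have k := rq_near (l := l) (δ := 4 * η + 7 * ‖F‖ + 4 * η * (7 * ‖F‖)) (Ω := Ω)
    (by nlinarith [mul_le_mul_of_nonneg_right h2 F0]) μ
    (γ := fun z => ga (s2 l) (t2 l) u fun i => ex (B z i) * cS (V i))
    (fun i => (((diff_ex (by
      cases i
      exacts [hA _, differentiableOn_const 0]) fun z hz => (hB z hz i).trans
        (by linarith [(η1 z hz).2])).mul_const _).const_mul _).mul_const _) fun z hz i hi => by
    have e : ga (s2 l) (t2 l) u (fun i => ex (B z i) * cS (V i)) i =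
        ex (adq (cS (u (s2 l i))) (B z i)) * ga (s2 l) (t2 l) u (fun i => cS (V i)) i := by
      simp only [ga, ex_adq (uni_cS _), mul_assoc]
      rw [← mul_assoc (star _), (uni_cS _).star_mul, one_mul]
    have a : ‖cS (eA (aJ l F i)) - 1‖ ≤ 7 * ‖F‖ :=
      (norm_cS_sub _).trans_le ((norm_eA _).trans (abs_aJ i hi))
    rw [e, bg_ga h y i]
    exact mul_sub_one (ex_sub_one ((norm_adq_eq _ _).trans_le (hB z hz i))
      (by linarith [(η1 z hz).2])) a
  have u0 : u 0 = 1 := by simp [u, yo_of_mem (zero_mem_box l)]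
  simp only [rq_ga μ u0] at k
  simpa only [hq, rq, B, V, Sum.elim_inr, Pi.zero_apply, ex_zero, one_mul, sh_apply, zero_add]
    using! k

theorem rs_lift (h : ∀ x μ ν, dd θ x μ ν = (kF F μ ν : ℝ)) (hF : 10 ^ 8 * (LL l : ℝ) ^ 2 * ‖F‖ ≤ 1)
    (y : St) (μ : Fin 4) {q : Hc} (hq : q = cC (ab θ) (y, μ) *
      star (Vh l μ (tfx star l (sh (up l y) (cC (ab (lift l F θ))))))) :
    co q = 0 ∧ ‖q - 1‖ ≤ 1 / 20 := by
  refine ⟨?_, ?_⟩
  · rw [hq, tfx_sh, tfx_tree fun f hf => by rw [cC, ab, lift_tree hf, eA_zero, cS_one],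
      show sh (up l y) (cC (ab (lift l F θ))) = _ from congrArg (fun φ => cC (ab φ)) (sh_lift y)]
    simpa only [sh_apply, zero_add] using!
      Vh_lift (l := l) (θ := sh y θ) (fun x μ ν => by rw [dd_sh, h]) μ
  · have := (rq_bg h hF y μ (Ω := Set.univ) (A := fun _ => pf (N := fi l 1) 0) (η := 0)
      (fun _ => differentiableOn_const _) (fun _ _ _ => by simp) (by simp) rfl).2 0 trivial
    rwa [exF_zero, ← hq] at this

theorem NJ_w (h : ∀ x μ ν, dd θ x μ ν = (kF F μ ν : ℝ)) (hF : 10 ^ 8 * (LL l : ℝ) ^ 2 * ‖F‖ ≤ 1)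
    {v : IL N → ℝ} (hv : cG * ‖v‖ ≤ 1 / 100) : NJ l N (ab (lift l F θ)) (ab θ) (Sum.elim 0 v) =
      ∑ i : TS N × Fin 4, (enq (ex (cR fun k => v (i, k)))).re := by
  rw [Fintype.sum_prod_type]
  refine sum_congr rfl fun y _ => (Complex.re_sum _ _).trans (sum_congr rfl fun μ _ => ?_)
  obtain ⟨c, n⟩ := rs_lift (l := l) h hF (lf y) μ rfl
  rw [show (fun i => Sum.elim (0 : IL (fi l N) → ℝ) v (.inl i)) = 0 from rfl, exF_zero, nz,
    Pi.mul_apply, mul_assoc, exF, show (fun i => Sum.elim (0 : IL (fi l N) → ℝ) v (.inr i)) = v from rfl,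
    pjq_ex_mul ((norm_pf v _).trans hv) n c, pf, cs_lf]

theorem NJ_zero (h : ∀ x μ ν, dd θ x μ ν = (kF F μ ν : ℝ)) (hF : 10 ^ 8 * (LL l : ℝ) ^ 2 * ‖F‖ ≤ 1) :
    NJ l N (ab (lift l F θ)) (ab θ) 0 = 0 := by
  have := NJ_w (N := N) h hF (v := 0) (by simp)
  rw [Sum.elim_zero_zero] at this
  simpa [show (fun _ => 0 : Fin GD.d → ℝ) = 0 from rfl, enq_one] using this

theorem nj_tay (h : Bg N F θ) (hc : cG ≤ LL l) (hF : 10 ^ 8 * (LL l : ℝ) ^ 2 * ‖F‖ ≤ 1) :
    ∃ J, Tay (NJ l N (ab (lift l F θ)) (ab θ)) J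
      (Fintype.card (TS N) * (10 ^ 27 * (LL l : ℝ) ^ 9)) (10 ^ 7 * (LL l : ℝ) ^ 3)⁻¹ ∧
      (∀ p, 0 ≤ p ⬝ᵥ J *ᵥ p) ∧
      (∀ p, |p ⬝ᵥ J *ᵥ p| ≤ Fintype.card (TS N) * (10 ^ 20 * (LL l : ℝ) ^ 6) * ‖p‖ ^ 2) ∧
      ∀ c : Fin 4 → Fin GD.d → ℝ, (∀ μ k, GD.q k ≠ 0 → c μ k = 0) →
        J *ᵥ Sum.elim (fun i => c i.1.2 i.2) (fun i => LL l * c i.1.2 i.2) = 0 := by
  have L1 : (1 : ℝ) ≤ LL l := by exact_mod_cast LL_pos l
  have F0 := norm_nonneg F
  have c1 := GD.cG1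
  have hF' : 10 ^ 8 * ‖F‖ ≤ ((LL l : ℝ) ^ 2)⁻¹ := by
    rw [← one_div, le_div_iff₀ (by positivity)]; linarith
  have i1 : ((LL l : ℝ) ^ 2)⁻¹ ≤ 1 := inv_le_one_of_one_le₀ (one_le_pow₀ L1)
  have hα := abs_aJ (l := l) (F := F)
  have hx := fun i hi => ex_tan (x := aJ l F i) ((hα i hi).trans (by linarith))
  have lo := lo_nj (l := l) (δ := (10 ^ 4)⁻¹ * ((LL l : ℝ) ^ 2)⁻¹) (by field_simp; rfl)
  obtain ⟨ℓ, J, a1, -, a3⟩ := lo.tay_fam (g := fun i => nA (tnA (aJ l F i))) (by positivity)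
    (by linarith) (fun i hi => (hx i hi).2.trans (by linarith [hα i hi]))
    (fun y : TS N => Sum.elim (sh (up l (lf y)) (ab (lift l F θ))) (sh (lf y) (ab θ)))
    (fun y x => eA (lam (sh (lf y) θ) (yo l x)))
    (fun y i hi => (bg_ga h.curv (lf y) i).trans (hx i hi).1.symm)
    (J := IL (fi l N) ⊕ IL N) fun y i k => i.elim
      (fun e => .inl ((cs _ (e.1 + up l (lf y)), e.2), k)) fun b => .inr ((cs _ (b.1 + lf y), b.2), k)
  obtain ⟨b1, b2⟩ := tay_min (f := NJ l N (ab (lift l F θ)) (ab θ)) (a1.congr fun p _ => by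
    refine congrArg (· - ℓ p) (sum_congr rfl fun y _ => congrArg _ (sum_congr rfl fun μ _ =>
      congrArg₂ _ ?_ (congrArg _ rfl)))
    simp only [Sum.elim_inr, zero_add, sh_apply]
    rfl) (by positivity) fun p => (NJ_zero h.curv hF).trans_le (NJ_nonneg _ _ p)
  refine ⟨J, b1.mono (mul_le_mul_of_nonneg_left ?_ (by positivity)) ?_, b2, fun p => ?_,
    fun c hn => kill_of_quad b1.1 fun p => ?_⟩
  · field_simp
    nlinarith [pow_le_pow_left₀ (by linarith) hc 3, pow_pos (one_pos.trans_le L1) 3]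
  · rw [le_div_iff₀ (by positivity)]
    field_simp
    linarith
  · rw [a3, mul_assoc]
    refine (abs_sum_le_sum_abs _ _).trans ((sum_le_card_nsmul _ _ _ fun y _ =>
      (Complex.abs_re_le_norm _).trans ((lo.q2_le (by linarith) (η := (10 ^ 6)⁻¹ * ((LL l : ℝ) ^ 2)⁻¹)
        (by positivity) (by linarith) (fun i hi => (hx i hi).2.trans (by linarith [hα i hi]))
        (a := LL l * ‖p‖) (by positivity) fun i _ => (norm_adq_eq _ _).trans_le
          ((norm_cR _).trans ?_)).2.trans ?_)).trans_eq (nsmul_eq_mul _ _))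
    · exact mul_le_mul hc ((pi_norm_le_iff_of_nonneg (norm_nonneg _)).2 fun _ =>
        norm_le_pi_norm p _) (norm_nonneg _) (by linarith)
    · rw [mul_pow (LL l : ℝ), ← mul_assoc]
      refine mul_le_mul_of_nonneg_right ?_ (sq_nonneg _)
      field_simp; norm_num
  rw [a3, a3]
  refine sum_congr rfl fun y _ => congrArg _ ?_
  have := (lo.neutral (by positivity) (by linarith) (fun i hi => (hx i hi).2.trans
    (by linarith [hα i hi])) (fun i hi => (hx i hi).1)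
    (fun i => Rm (eA (lam (sh (lf y) θ) (yo l (s2 l i)))) *ᵥ fun k => p (i.elim
      (fun e => .inl ((cs _ (e.1 + up l (lf y)), e.2), k)) fun b => .inr ((cs _ (b.1 + lf y), b.2), k)))
    (fun x k => -∑ μ, x μ * c μ k) fun x k hk => by simp [hn _ k hk]).2
  simp only [cR_add, cR_Rm] at this
  refine Eq.trans (congrArg _ (funext fun i => ?_)) this.symm
  refine (congrArg _ (cR_add _ _)).trans ((adq_add _ _ _).trans (congrArg₂ _ rfl ((adq_neu
    (fun k hk => by cases i <;> simp [hn _ k hk]) _).trans (congrArg _ (funext fun k => ?_)))))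
  rcases i with e | b <;> simp only [s2, t2, tg, Sum.elim_inl, Sum.elim_inr, up_apply,
    Pi.add_apply, Pi.sub_apply, Int.cast_add, Int.cast_mul, mul_add, add_mul, sum_add_distrib] <;>
    simp [un_apply]

variable {J : Matrix (IL (fi l N) ⊕ IL N) (IL (fi l N) ⊕ IL N) ℝ} {C ρ : ℝ}

theorem nj_ww (h : ∀ x μ ν, dd θ x μ ν = (kF F μ ν : ℝ)) (hF : 10 ^ 8 * (LL l : ℝ) ^ 2 * ‖F‖ ≤ 1)
    (T : Tay (NJ l N (ab (lift l F θ)) (ab θ)) J C ρ) (r0 : 0 < ρ) (v : IL N → ℝ) :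
    Sum.elim 0 v ⬝ᵥ J *ᵥ Sum.elim 0 v = v ⬝ᵥ v := by
  have c1 := GD.cG1
  refine T.eq_of r0 (K := Fintype.card (TS N × Fin 4) * (21 * (cG * ‖v‖) ^ 3))
    (s0 := (100 * (cG * ‖v‖ + 1))⁻¹) (by positivity) fun s s0 s1 => ⟨Sum.elim 0 (s • v), ?_, ?_⟩
  · rw [show s • Sum.elim (0 : IL (fi l N) → ℝ) v = Sum.elim (0 : IL (fi l N) → ℝ) (s • v) from
      funext fun i => by cases i <;> simp, sub_self, norm_zero]
    positivity
  have s2 : s * (100 * (cG * ‖v‖ + 1)) ≤ 1 := by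
    rwa [← one_div, le_div_iff₀ (by positivity)] at s1
  have n : cG * ‖s • v‖ = s * (cG * ‖v‖) := by rw [norm_smul, Real.norm_of_nonneg s0.le]; ring
  have e : s ^ 2 * v ⬝ᵥ v = ∑ i : TS N × Fin 4,
      (dot (cR fun k => (s • v) (i, k)) (cR fun k => (s • v) (i, k))).re := by
    simp only [dotProduct, mul_sum, Fintype.sum_prod_type (α₂ := Fin GD.d), dot, cR_apply,
      Complex.re_sum, ← Complex.ofReal_mul, Complex.ofReal_re, Pi.smul_apply, smul_eq_mul]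
    congr! 2; ring
  rw [NJ_w h hF (by linarith), NJ_zero h hF, sub_zero, e, ← sum_sub_distrib, mul_assoc]
  refine (abs_sum_le_sum_abs _ _).trans ((sum_le_card_nsmul _ _ _ fun i _ => ?_).trans_eq
    (nsmul_eq_mul _ _))
  have a : ‖cR fun k => (s • v) (i, k)‖ ≤ s * (cG * ‖v‖) := (norm_cR _).trans
    ((mul_le_mul_of_nonneg_left (norm_comp_le (e := Equiv.refl _) (s • v) i) (by linarith)).trans_eq n)
  rw [← Complex.sub_re, mul_assoc, ← mul_pow, mul_comm _ s]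
  refine (Complex.abs_re_le_norm _).trans ((enq_near a (ex_near a (by linarith))).trans ?_)
  have p0 : 0 ≤ s * (cG * ‖v‖) := by positivity
  have p1 : s * (cG * ‖v‖) ≤ 1 / 100 := by linarith
  generalize s * (cG * ‖v‖) = r at p0 p1
  nlinarith [mul_le_mul_of_nonneg_left p1 (pow_nonneg p0 3), pow_nonneg p0 3]

theorem nj_min (h : ∀ x μ ν, dd θ x μ ν = (kF F μ ν : ℝ)) (hF : 10 ^ 8 * (LL l : ℝ) ^ 2 * ‖F‖ ≤ 1)
    (T : Tay (NJ l N (ab (lift l F θ)) (ab θ)) J C ρ) (r0 : 0 < ρ) (a : IL (fi l N) → ℝ) (x : ℝ)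
    (hx : ∀ v, x ≤ Sum.elim a v ⬝ᵥ J *ᵥ Sum.elim a v) : x ≤ 0 := by
  have c1 := GD.cG1
  have L0 : (0 : ℝ) < LL l := by exact_mod_cast LL_pos l
  let q : TS N × Fin 4 → ℂ → Hc := fun i z => cC (ab θ) (lf i.1, i.2) * star (Vh l i.2
    (tfx star l (sh (up l (lf i.1)) (exF (z • pf a) * cC (ab (lift l F θ))))))
  have q0 : ∀ i, co (q i 0) = 0 := fun i => (rs_lift h hF (lf i.1) i.2 (by
    simp only [q, zero_smul, show exF 0 = 1 from funext fun _ => ex_zero, one_mul])).1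
  set r := (10 ^ 7 * (LL l : ℝ) ^ 2)⁻¹ / (cG * ‖a‖ + 1)
  have r0 : 0 < r := by positivity
  have D := fun i : TS N × Fin 4 => rq_bg h hF (lf i.1) i.2 (Ω := Metric.ball 0 r) (A := fun z => z • pf a)
    (fun e => by simp only [Pi.smul_apply]; fun_prop) (η := (10 ^ 7 * (LL l : ℝ) ^ 2)⁻¹)
    (fun z hz e => by
      rw [mem_ball_zero_iff, lt_div_iff₀ (by positivity)] at hz
      rw [Pi.smul_apply, norm_smul]
      nlinarith [mul_le_mul_of_nonneg_left (norm_pf a e) (norm_nonneg z), norm_nonneg z])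
    (mul_inv_cancel₀ (by positivity)).le (q := q i) rfl
  have d : DifferentiableAt ℂ (fun z i => co (pjq (q i z))) 0 := differentiableAt_pi.2 fun i =>
    (diff_co (diff_pjq (D i).1 fun z hz => ((D i).2 z hz).trans (by norm_num))).differentiableAt
      (Metric.ball_mem_nhds 0 r0)
  obtain ⟨K, K0, hK⟩ := d.isBigO_sub.exists_pos
  obtain ⟨ε, ε0, hε⟩ := Metric.eventually_nhds_iff_ball.1 hK.bound
  refine le_of_cubic (C := C * (‖a‖ + K) ^ 3) (s0 := min (min ε r / 2) (ρ / (‖a‖ + K)))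
    (by positivity) fun s s0 s1 => ?_
  have s2 : s < min ε r := (s1.trans (min_le_left _ _)).trans_lt (half_lt_self (by positivity))
  have k := hε s (by simpa [abs_of_pos s0] using s2.trans_le (min_le_left _ _))
  have n := fun i => (D i).2 s (by simpa [abs_of_pos s0] using s2.trans_le (min_le_right _ _))
  rw [show (fun i => co (pjq (q i 0))) = 0 from funext fun i => by
      rw [pjq_of_co (q0 i), co_one, Pi.zero_apply],
    sub_zero, sub_zero, Complex.norm_real, Real.norm_of_nonneg s0.le] at k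
  let w : IL N → ℝ := fun i => -(co (pjq (q i.1 s)) i.2).re
  have hw : ‖Sum.elim (s • a) w‖ ≤ (‖a‖ + K) * s :=
    (pi_norm_le_iff_of_nonneg (by positivity)).2 fun i => by
      rcases i with i | i
      · refine (norm_le_pi_norm (s • a) i).trans ?_
        rw [norm_smul, Real.norm_of_nonneg s0.le]; nlinarith
      · refine (norm_neg _).trans_le ((Complex.abs_re_le_norm _).trans ((norm_c3_le _ _).trans
          ((norm_le_pi_norm (fun i => co (pjq (q i s))) i.1).trans (k.trans ?_))))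
        nlinarith [mul_nonneg (norm_nonneg a) s0.le]
  have z : NJ l N (ab (lift l F θ)) (ab θ) (Sum.elim (s • a) w) = 0 := sum_eq_zero fun y _ => by
    rw [Complex.re_sum]
    refine sum_eq_zero fun μ _ => ?_
    have e : ex (pf w (lf y, μ)) = star (pjq (q (y, μ) s)) := by
      obtain ⟨p, hp⟩ : ∃ p, cq p = q (y, μ) s := by
        simp only [q, ← pf_smul, exF_real]; exact rs_real _ _ _
      obtain ⟨g, hg⟩ := pjq_real p
      have := (pjq_near (b := 0) (n (y, μ)) (by norm_num) le_rfl).1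
      rw [← hp, ← hg] at this
      obtain ⟨u, u1, u2, -⟩ := exists_chart this (by norm_num)
      rw [← hp, ← hg, ← u1, star_ex]
      refine congrArg _ (funext fun k => ?_)
      simp only [pf, cR_apply, w, cs_lf, ← hp, ← hg, ← ch_cS, ← u2, Complex.ofReal_re,
        Complex.ofReal_neg, Pi.neg_apply]
    rw [nz, Pi.mul_apply, mul_assoc, show (fun i => Sum.elim (s • a) w (.inl i)) = s • a
      from rfl, pf_smul, show exF (pf fun i => Sum.elim (s • a) w (.inr i)) (lf y, μ) = _ from e,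
      pj_cancel (n (y, μ)), enq_one, Complex.zero_re]
  have t := T.2 _ _ hw ((le_div_iff₀' (by positivity)).1 (s1.trans (min_le_right _ _)))
  rw [z, NJ_zero h hF, show Sum.elim (s • a) w = s • Sum.elim a (s⁻¹ • w) from funext fun i => by
    cases i <;> simp [s0.ne'], quad_smul] at t
  nlinarith [(abs_le.1 t).1, mul_le_mul_of_nonneg_left (hx (s⁻¹ • w)) (sq_nonneg s)]

theorem nj_kill (h : Bg N F θ) (T : Tay (NJ l N (ab (lift l F θ)) (ab θ)) J C ρ) (r0 : 0 < ρ)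
    (hn : ∀ c : Fin 4 → Fin GD.d → ℝ, (∀ μ k, GD.q k ≠ 0 → c μ k = 0) →
      J *ᵥ Sum.elim (fun i => c i.1.2 i.2) (fun i => LL l * c i.1.2 i.2) = 0) (v : IG (fi l N) → ℝ) :
    J *ᵥ Sum.elim (DL _ (ab (lift l F θ)) v) (DL N (ab θ) (rhoL l N v)) = 0 := by
  rw [NJ_eq (bg_lift h).per h.per] at T
  have k1 := kill_gauge FJ_gi T r0 (fun x => gl v (cs _ x))
    (Sum.elim (fun i => gl v i.1) fun i => gl (rhoL l N v) i.1)
    (Sum.elim (fun i => gl v (i.1 + Pi.single i.2 1))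
      fun i => gl (rhoL l N v) (i.1 + Pi.single i.2 1))
    (fun i => by
      rcases i with e | b
      · rfl
      · exact (gl_rho v b.1).symm)
    (fun i => by
      rcases i with e | b
      · exact congrArg _ (cs_add_un _ _)
      · exact (gl_rho v _).symm.trans (congrArg _ (cs_add_un _ _)))
    (d := Sum.elim (fun i => gl v i.1.1 i.2 - (Rm (eA (lift l F θ (lf i.1.1, i.1.2))) *ᵥ
      gl v (i.1.1 + Pi.single i.1.2 1)) i.2) fun i => gl (rhoL l N v) i.1.1 i.2 -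
      (Rm (eA (θ (lf i.1.1, i.1.2))) *ᵥ gl (rhoL l N v) (i.1.1 + Pi.single i.1.2 1)) i.2)
    fun i k => by cases i <;> rfl
  have k := congrArg₂ (· + ·) k1 (hn (sv v) fun _ _ h => dif_neg h)
  simp only [← mulVec_add, add_zero] at k
  rw [← k]
  congr 1
  funext i
  rcases i with i | i
  · rfl
  · refine congrArg (_ + ·) (?_ : sv _ _ _ = LL l * sv _ _ _)
    unfold sv
    split_ifs
    exacts [rfl, (mul_zero _).symm]

theorem joint (h : Bg N F θ) (hc : cG ≤ LL l) (hF : 10 ^ 8 * (LL l : ℝ) ^ 2 * ‖F‖ ≤ 1) :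
    ∃ B : Matrix (IL N) (IL (fi l N)) ℝ,
      B * Dm (fi l N) (ab (lift l F θ)) = Dm N (ab θ) * LinearMap.toMatrix' (rhoL l N) ∧
      Tay (NJ l N (ab (lift l F θ)) (ab θ)) (fromBlocks (Bᵀ * B) (-Bᵀ) (-B) 1)
        (Fintype.card (TS N) * (10 ^ 27 * (LL l : ℝ) ^ 9)) (10 ^ 7 * (LL l : ℝ) ^ 3)⁻¹ ∧
      ∀ a, |a ⬝ᵥ (Bᵀ * B) *ᵥ a| ≤ Fintype.card (TS N) * (10 ^ 20 * (LL l : ℝ) ^ 6) * ‖a‖ ^ 2 := by
  have L1 : (1 : ℝ) ≤ LL l := by exact_mod_cast LL_pos l
  obtain ⟨J, T, hJ, hK, hn⟩ := nj_tay h hc hF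
  obtain ⟨B, rfl⟩ := sq_form T.1 hJ (nj_ww h.curv hF T (by positivity))
    (nj_min h.curv hF T (by positivity))
  refine ⟨B, ext_of_mulVec_single fun i => ?_, T, fun a => le_of_eq_of_le (by
    simp [fromBlocks_mulVec, sumElim_dotProduct_sumElim]) ((hK (Sum.elim a 0)).trans
      (mul_le_mul_of_nonneg_left (pow_le_pow_left₀ (norm_nonneg _) ((pi_norm_le_iff_of_nonneg
        (norm_nonneg _)).2 fun i => by cases i <;> simp [norm_le_pi_norm a _, -Real.norm_eq_abs]) 2)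
        (by positivity)))⟩
  have := nj_kill h T (by positivity) hn (Pi.single i 1)
  rw [fromBlocks_mulVec, ← Sum.elim_zero_zero] at this
  have := congrArg (· ∘ Sum.inr) this
  simp only [Sum.elim_comp_inr, Sum.elim_comp_inl, neg_mulVec, one_mulVec, neg_add_eq_zero] at this
  rw [← mulVec_mulVec, ← mulVec_mulVec, Dm_mulVec, Dm_mulVec, LinearMap.toMatrix'_mulVec, this]

end Pool.Agent.Lib.MP_7f377f_mp.RG.Q4.Af.Tp
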