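import Pool.Agent.Lib.MP_7f377f_mp.G.YFe
import Pool.Agent.Lib.MP_7f377f_mp.G.YFb
import Pool.Agent.Lib.MP_7f377f_mp.G.YTGlue
import Pool.Agent.Lib.MP_7f377f_mp.G.CmA
import Pool.Agent.Lib.MP_7f377f_mp.G.ScC

/-! The stress tensor is a field with a label. -/

noncomputable section

namespace Pool.Agent.Lib.MP_7f377f_mp.Cm
variable [Pool.Agent.Lib.MP_7f377f_mp.GD]
set_option linter.unusedSectionVars false

open MeasureTheory Filter Topology Set Real YM7 Pur MvPolynomial Lg Matrix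
open Ope (cv Rd Dt ee Out COut Sub Tn Fr tl cl sc)
open Lb (Lab Cl pc pa c0 rho ref)
open Lm (PolL Outl netL emb gen_netL)
open scoped Kronecker

theorem pa_tl : (4 : ℂ) • pa (tl 0 0 - tl 1 1) = cx (ref .t3) := by
  let z := fun i j k l : Fin 4 => ((single 0 0 1 - single 1 1 1 : Matrix _ _ ℤ) ⊗ₖ 1) (i, j) (k, l)
  have : ∀ i j k l, (ref .t3 : Lab ℤ) (i, j) (k, l) = z i j k l + z k l i j - z j i k l - z k l j i -
    z i j l k - z l k i j + z j i l k + z l k j i := by decide +kernel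
  ext ⟨i, j⟩ ⟨k, l⟩
  simp only [pa, Matrix.smul_apply, Lb.mul_an, Lb.an_mul, cx, map_apply, tl, Lb.sy, z, this,
    Matrix.add_apply, Matrix.sub_apply, transpose_apply, kroneckerMap_apply, if_true, Prod.swap,
    single_apply, one_apply, Lb.ref_cast (K := ℝ), smul_eq_mul]
  push_cast [apply_ite ((↑) : ℝ → ℂ)]
  ring

theorem ref_pr : ref .t3 = Lb.pr (ee 1) - Lb.pr (ee 0) := by
  let z := fun μ i j : Fin 4 => (1 - 2 * single μ μ 1 : Matrix _ _ ℤ) i j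
  have : ∀ i j k l, (ref .t3 : Lab ℤ) (i, j) (k, l) = z 1 i k * z 1 j l - z 1 i l * z 1 j k -
    (z 0 i k * z 0 j l - z 0 i l * z 0 j k) := by decide +kernel
  have e : ∀ μ i j, YG.mirror (ee μ) i j = z μ i j := fun μ i j => by
    simp [z, YG.mirror, one_apply, two_mul, single_apply, ite_and, eq_comm]
    split_ifs <;> norm_num
  ext ⟨i, j⟩ ⟨k, l⟩
  simp [Lb.ref_cast (K := ℝ), this, Lb.pr, e]

theorem fr3 : ∃ f : Fin 3 → R4 → ℝ, Adm f ∧ frI ![cx (ref .t3), pa c0, pa c0] f ≠ 0 := by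
  let a : Fin 3 → Lab ℝ := ![ref .t3, (2⁻¹ : ℝ) • Lb.an, (2⁻¹ : ℝ) • Lb.an]
  have e : Lb.frL (GD.d / 2) a ![0, ee 0, -ee 0] ≠ 0 := by
    have p := Lb.frL_three (w := GD.d / 2) (ee 0) ![0, ee 0, -ee 0]
    have q := Lb.frL_three (w := GD.d / 2) (ee 1) ![0, ee 0, -ee 0]
    have s : ∀ v, Lb.sy ((2⁻¹ : ℝ) • Lb.pr v) = (2⁻¹ : ℝ) • Lb.pr v := fun v =>
      Lb.sy_of (by rw [transpose_smul, Lb.pr_tr])
    simp [Fx.tt, Fx.vv, ← two_smul ℝ, norm_smul] at p q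
    rw [Lb.frL, Lb.lq_three fun i => by simp [Lb.pr_zero]] at p q ⊢
    simp only [a, Matrix.cons_val, s, Lb.sy_of (Lb.ref_tr _)] at p q ⊢
    simp only [ref_pr, Matrix.mul_sub, trace_sub, Matrix.mul_smul, trace_smul, smul_eq_mul] at p q ⊢
    exact fun e => dim_ne (by linarith)
  obtain ⟨δ, c, δ0⟩ := ((Lb.hb_pos (p := ![0, ee 0, -ee 0]) (.of_comp (f := fun v : R4 => v 0)
    fun i j => by fin_cases i <;> fin_cases j <;> simp <;> norm_num) (fun y e =>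
      (Lb.frL_cont' _ y e).mul_const _) (mul_self_pos.2 e)).and self_mem_nhdsWithin).exists
  refine ⟨_, Lb.hb_adm δ0 fun i j e => (c.1 i j e).le, fun e => c.2.ne' ?_⟩
  have : ![cx (ref .t3), pa c0, pa c0] = fun i => cx (a i) := funext fun i => by
    fin_cases i <;> simp [a, cx_smul, Lb.pa_c0, show cx Lb.an = _ from Lb.an_map Complex.ofRealHom]
  rw [this, frI_cx, Complex.ofReal_eq_zero] at e
  simp only [← mul_assoc, integral_mul_const, e, zero_mul]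

variable {H : Type} [NormedAddCommGroup H] [InnerProductSpace ℂ H] [CompleteSpace H]
  {S W : Pol →ₗ[ℂ] ℂ} {K K' Λ δ C : ℝ} {h h₀ : R4 → ℝ} {ω : ∀ l : Cl, (Fin l.m → R4) → Lab ℝ}
  {L : Cl → ℕ → ℝ} {N : Cl → ℝ → ℝ} {D M : ℝ → ℝ} {F : Fr} {T : (Pol →ₗ[ℂ] ℂ) → Tn}
  {r : net.Rep W 0 H} {θ : Fin 4 → Lab ℂ → Lab ℂ} {hθ : Lm.Inv4 θ} {W' : PolL (Lab ℂ) →ₗ[ℂ] ℂ}
  {r' : (netL hθ).Rep W' 0 H} {κ : ℕ × ℕ → PolL (Lab ℂ) →ₐ[ℂ] Pol}

/-- the tensor field is a multiple of the field with the tensor label -/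
theorem idt (A : Dat (GD.d / 2) h ω Λ δ) (I : ∀ Λ δ, 1 ≤ Λ → 0 < δ → ∃ a Kl, Kin S 5 Λ δ a Kl)
    (L0 : ∀ n, 0 < L .t n) (L1 : ∀ ε > (0 : ℝ), ∀ᶠ n in atTop, L .t n ≤ dn n ^ (-ε))
    (R : Res S K (atTop.curry UU) (Oa h ω S L) N) (o : Out S D Fx.kap F M T) (c : COut S C M T)
    (rd : Rd h₀) (ne : Fx.kap h₀ ≠ 0) (s : Sub S W) (hW : Inp W) (q : net.Rep W 0 H)
    (hD : ∀ R : ℝ, Dense {y | ∃ b ∈ net.loc (Ot 0), q.Ψ (net.τ (R • Wm.B1.nn) b) = y})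
    (o' : Outl W r K' (Wv.rE rho) (atTop.curry UU) (netL hθ) (fun c f => X (c, f)) κ W' r')
    (e1 : ∀ Z ∈ net.loc univ, W' (emb c0 Z) = W Z)
    (mix : ∀ U U', Disjoint U U' → ∀ Y ∈ (netL hθ).loc U, ∀ Z ∈ net.loc U', Tendsto
      (fun j => W (Lm.sub (Oa h ω S L j) Y * Z)) (atTop.curry UU) (𝓝 (W' (Y * emb c0 Z))))
    (lim : ∀ k (a : Fin k → Lab ℂ) (f : Fin k → R4 → ℝ), Adm f → Tendsto
      (fun j => W (∏ i, Oa h ω S L j (a i) (f i))) (atTop.curry UU) (𝓝 (W' (∏ i, X (a i, f i))))) :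
    ∃ a : ℂ, ∀ μ ν f Z, Dt f Z → T W μ ν f Z = a * cl W' (tl μ ν) f Z := by
  have hc : ∀ c f Z, Dt f Z → Tendsto (fun j => cv W (Oa h ω S L j c f) Z) (atTop.curry UU)
      (𝓝 (cl W' c f Z)) := fun c f Z a => by
    have m := fun Z => mix _ _ disjoint_compl_right _ ((gen_netL hθ).mem a.gd c) Z
    simpa [cv, cl, Lm.sub, e1 Z a.adm] using (m Z a.2).sub ((m 1 (net.one _)).mul_const (W Z))
  have e3 : ∀ f Z, Dt f Z → cl W' (cx (ref .t3)) f Z =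
      4 * (cl W' (tl 0 0) f Z - cl W' (tl 1 1) f Z) := fun f Z a => by
    rw [← pa_tl, (Ope.cl_lin o' a).map_smul, tendsto_nhds_unique (hc _ f Z a)
      ((hc (tl 0 0 - tl 1 1) f Z a).congr fun j => by rw [R.pa]), (Ope.cl_lin o' a).map_sub, smul_eq_mul]
  have p3' : pc .t (cx (ref .t3)) = cx (ref .t3) := by rw [← cx_pc, Lb.pc_ref]; rfl
  obtain ⟨m, -, -, hM, -⟩ := c
  obtain ⟨α, β, ab, e⟩ := rel A I L0 L1 o rd ne hM s hW q hD (V := cl W' (cx (ref .t3)))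
    fun f Z a => (hc _ f Z a).congr fun j => by rw [Oa_pc A _ _ p3', Ope.cv_smul]
  replace e := @Ope.Tx.ext _ _ ((Ope.tx_lab o').comb (o.tx rd ne s hW) (4 * α) β)
    (e.mono fun n e f hf Y hY Z hZ => by
      linear_combination (e f hf Y hY Z hZ).2 - α * e3 _ _ (e f hf Y hY Z hZ).1)
  refine ⟨-(4 * α) / β, fun μ ν f Z a => ?_⟩
  rw [div_mul_eq_mul_div, eq_div_iff fun β0 => ?_]
  · linear_combination e a μ ν
  have α0 : α ≠ 0 := fun e => ab (by rw [e, β0]; rfl)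
  obtain ⟨f, hf, n0⟩ := fr3
  have ps : pc .s (pa (c0 : Lab ℂ)) = pa c0 := by
    rw [Lb.pa_c0, Lb.pc_smul, pc, Lb.ip_an, Lb.an_an, Lb.tr_an]
    norm_num
  have a1 : Adm ![f 0] := Ope.adm_one.2 (hf.1 0)
  have a2 : Adm (Fin.tail f) := ⟨fun i => hf.1 _, fun _ _ e => hf.2 ((Fin.succ_injective _).ne e)⟩
  have t := (R.law' s.dom hW.st lim ![.t, .s, .s] (a := ![cx (ref .t3), pa c0, pa c0]) hf
    fun i => by fin_cases i <;> assumption).sub ((R.law' s.dom hW.st lim ![.t]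
      (a := ![cx (ref .t3)]) a1 fun i => by fin_cases i; assumption).mul
        (R.law' s.dom hW.st lim (fun _ => .s) (a := fun _ => pa c0) a2 fun _ => ps))
  have z : frI ![cx (ref .t3)] ![f 0] = 0 := by simp [frI, Lb.freeL]
  rw [z, zero_mul, sub_zero] at t
  refine n0 (tendsto_nhds_unique t (tendsto_const_nhds.congr' ?_))
  filter_upwards [self_mem_nhdsWithin] with d (d0 : 0 < d)
  have b := Ope.dt_of (Ope.adm_sc (f := f 0) (g := Fin.tail f) (by rwa [Fin.cons_self_tail]) d0)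
  obtain ⟨M2, m2, p2⟩ := R.ml lim (f := fun i => sc d (Fin.tail f i)) (a2.smul (inv_ne_zero d0.ne'))
  obtain ⟨M3, m3, p3⟩ := R.ml lim (f := fun i => sc d (f i)) (hf.smul (inv_ne_zero d0.ne'))
  have q := e3 _ _ b
  have y : ∀ μ, cl W' (tl μ μ) _ _ = 0 := fun μ => by simpa [α0, β0] using e b μ μ
  replace p2 := p2 fun _ => c0
  replace p3 := p3 ![cx (ref .t3), c0, c0]
  rw [y, y, cl] at q
  rw [m2, m2] at p2
  rw [m3, m3] at p3
  simp [Fin.prod_univ_succ, emb, mon, Fin.tail, (p3' ▸ Lb.pa_pc .t : pa (cx (ref .t3)) = _)]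
    at p2 p3 q ⊢
  linear_combination -(N .t d * N .s d ^ 2) * (p3 + q - W' (X (cx (ref .t3), sc d (f 0))) * p2)

/-- the stress tensor as a field with a label -/
theorem stress_lab {ι : Type} {l : Filter ι} {κ : ι → PolL (Lab ℂ) →ₐ[ℂ] Pol}
    (o : Out S D Fx.kap F M T) (c : COut S C M T) (hC : C ≠ 0) (s : Sub S W)
    (o' : Outl W r K' (Wv.rE rho) l (netL hθ) (fun c f => X (c, f)) κ W' r')
    (e1 : ∀ Z ∈ net.loc univ, W' (emb c0 Z) = W Z) {a : ℂ}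
    (ha : ∀ μ ν f Z, Dt f Z → T W μ ν f Z = a * cl W' (tl μ ν) f Z) :
    YF.Stress (C * π ^ 2 / (8 * GD.d * (48 / (11 * GD.b0)) ^ 2)) W' ∧ YF.Hom W' := by
  refine ⟨?_, fun t b f hf Z hZ => ?_⟩
  swap
  · obtain ⟨Y, hY, rfl⟩ := YF.loc_iff.1 hZ
    exact (Ope.cl_lin o' ⟨hf, hY⟩).map_smul t b
  have e2 : ∀ {O Y Z}, Y ∈ net.loc O → Z ∈ net.loc Oᶜ →
      YF.cov W' (emb c0 Y) (emb c0 Z) = YG.cov W Y Z := fun hY hZ => by
    rw [YF.cov, ← map_mul, e1 _ (Ope.mul_adm hY hZ), e1 _ (Net.adm hY), e1 _ (Net.adm hZ), YG.cov]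
  obtain ⟨u, t, e⟩ := Ope.stress_ex o c hC s
  obtain ⟨w1, w2⟩ := e (fun μ ν => cl W' (((u * a) • (single μ ν 1 + single ν μ 1) +
    if μ = ν then ((t - u * a) / 2) • 1 else 0) ⊗ₖ 1)) fun μ ν f Z d => by
      have : (((u * a) • (single μ ν 1 + single ν μ 1) + if μ = ν then ((t - u * a) / 2) • 1 else 0) ⊗ₖ
          (1 : Matrix _ _ ℂ) : Lab ℂ) = (u * a) • tl μ ν + (if μ = ν then t else 0) • c0 := by
        rw [tl, c0, ← one_kronecker_one, ← smul_kronecker, ← smul_kronecker, ← smul_kronecker,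
          ← add_kronecker]
        split_ifs <;> congr 1 <;> module
      rw [this, (Ope.cl_lin o' d).map_add, (Ope.cl_lin o' d).map_smul, (Ope.cl_lin o' d).map_smul,
        ha _ _ _ _ d, show cv W (X f) Z = cl W' c0 f Z by simpa [emb] using! (e2 d.X d.2).symm]
      simp [mul_assoc]
  refine ⟨u * a, (t - u * a) / 2, _, fun _ _ => rfl, fun k g ξ b ν g1 g2 g3 g4 => ?_,
    fun v p v1 v2 => ?_⟩
  · simp only [← YF.em_fld]
    refine (w1 k g ξ b ν g1 g2 g3 g4).trans (Finset.sum_congr rfl fun i _ => congrArg _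
      (e1 _ (mon_mem ?_ fun _ => subset_univ _)).symm)
    have : ∀ j, Wm.C1 (tsupport (g j)) (Function.update g i (YG.pd ν (g i)) j) := fun j => by
      rcases eq_or_ne j i with rfl | n
      · rw [Function.update_self]
        exact ⟨St.pd_cpt (g1.1 j).1, (Fx.pd_smooth (g2 j).1 ν).of_le (by simp), St.pd_ts⟩
      · rw [Function.update_of_ne n]
        exact ⟨(g1.1 j).1, (g1.1 j).2, le_rfl⟩
    exact ⟨fun j => ⟨(this j).1, (this j).2.1⟩, fun i j e => (g1.2 e).mono (this i).2.2 (this j).2.2⟩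
  obtain ⟨b, b1, b2⟩ := w2 v p v1 v2
  obtain ⟨ρ, n, h, ρ0, n1, h1, h2⟩ := Ope.rad_form v1 v2
  refine ⟨b, b1, fun f hf Z hZ => ?_⟩
  obtain ⟨Y, hY, rfl⟩ := YF.loc_iff.1 hZ
  have d : Dt f Y := ⟨hf, hY⟩
  refine (b2 f hf Y hY).congr' ?_
  have t := TendstoNhdsWithinIoi.const_mul ρ0 (tendsto_id (x := 𝓝[>] 0))
  rw [mul_zero] at t
  filter_upwards [t.eventually d.sm] with x e
  rw [← e2 d.X d.2, ← YF.em_X]
  congr 3 with z
  by_cases c : f z = 0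
  · simp [c]
  have := e2 (e.pr (h1.pb n1) (subset_tsupport _ c)) e.2.2
  simp only [Ope.pr, h2, smul_smul, mul_inv, mul_inv_cancel_left₀ ρ0.ne', map_mul, emb,
    rename_X] at this
  exact congrArg _ this.symm

end Pool.Agent.Lib.MP_7f377f_mp.Cm
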