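import Pool.Agent.Lib.MP_7f377f_mp.YP
import Pool.Agent.Lib.MP_7f377f_mp.G.YFf

/-! The stress tensor is not renormalised. -/

noncomputable section

namespace Pool.Agent.Lib.MP_7f377f_mp.Cm
variable [Pool.Agent.Lib.MP_7f377f_mp.GD]
set_option linter.unusedSectionVars false

open MeasureTheory Filter Topology Set Real YM7 Pur MvPolynomial Lg Matrix Fx
open Ope (tl sc)
open Lb (Lab Cl pc pa c0 an hs)
open scoped Kronecker ContDiff

theorem sum_tl (v : R4) : ∑ μ, ∑ ν, ((v μ * v ν : ℝ) : ℂ) • pa (tl μ ν) =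
    ((-(‖v‖ ^ 6 / 4) : ℝ) : ℂ) • cx (Lb.pr v) := by
  have e : ∑ μ, ∑ ν, ((v μ * v ν : ℝ) : ℂ) • tl μ ν = (of fun i j =>
      ((2 * (v i * v j) - (if i = j then 1 else 0) * ‖v‖ ^ 2 / 2 : ℝ) : ℂ)) ⊗ₖ (1 : Matrix _ _ ℂ) := by
    ext ⟨i, j⟩ ⟨k, l⟩
    simp only [tl, Matrix.sum_apply, Matrix.smul_apply, kroneckerMap_apply, smul_eq_mul, ← mul_assoc,
      ← Finset.sum_mul, of_apply, ← Lb.dot_eq, dotProduct]
    congr 1
    fin_cases i <;> fin_cases k <;> simp [Fin.sum_univ_four] <;> ring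
  have e' := congrArg (Lb.paL (K := ℂ)) e
  simp only [map_sum, map_smul] at e'
  refine e'.trans ?_
  rcases eq_or_ne v 0 with rfl | h
  · simp [Lb.pr_zero, show (of fun _ _ => (0 : ℂ) : Matrix (Fin 4) (Fin 4) ℂ) = 0 from rfl]
  have n : (‖v‖ : ℂ) ≠ 0 := by simpa using h
  ext ⟨i, j⟩ ⟨k, l⟩
  simp only [Lb.paL, LinearMap.coe_mk, AddHom.coe_mk, pa, Matrix.smul_apply, Lb.mul_an, Lb.an_mul, cx,
    map_apply, Lb.sy, Matrix.add_apply, transpose_apply, kroneckerMap_apply, Prod.swap, one_apply,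
    smul_eq_mul, of_apply, Lb.pr, YG.mirror, eq_comm (a := k), eq_comm (a := l)]
  push_cast [apply_ite ((↑) : ℝ → ℂ)]
  field_simp
  ring

theorem pc_pr {v : R4} (h : v ≠ 0) : pc .t (Lb.pr v) = Lb.pr v := by
  have o := Lb.mr_orth h
  have n := norm_ne_zero_iff.2 h
  have d : (Lb.mr v).det = -1 := by
    rw [Lb.mr_eq, sub_eq_add_neg, ← neg_smul, ← smul_vecMulVec, vecMulVec_eq Unit,
      det_one_add_replicateCol_mul_replicateRow, dotProduct_smul, Lb.dot_eq, smul_eq_mul]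
    field_simp
    norm_num
  have r := Lb.rho_hs (Lb.mr v)
  have k := Lb.kk_orth o
  rw [d, Lb.rho, Lb.kk_tr, Lb.mr_tr] at r
  rw [Lb.kk_tr, Lb.mr_tr] at k
  have e : hs * Lb.pr v * hs = -Lb.pr v := by
    rw [Lb.pr_eq, Matrix.mul_smul, Matrix.smul_mul, ← smul_neg, ← Matrix.mul_assoc,
      Matrix.mul_assoc _ an, Lb.an_hs, ← Matrix.one_mul (hs * _), ← k, Matrix.mul_assoc _ _ (hs * _),
      ← Matrix.mul_assoc _ hs, r]
    simp [Matrix.mul_assoc, Lb.hs_hs]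
  rw [pc, Lb.pa_of (Lb.pr_tr v) (Lb.an_pr v), e]
  module

theorem pc_tl (μ ν : Fin 4) : pc .t (tl μ ν) = pa (tl μ ν) :=
  sub_eq_zero.1 (St.pol ⊥ (A := fun μ ν => pc .t (tl μ ν) - pa (tl μ ν))
    (fun μ ν => by rw [Ope.tl_sym]) (fun n hn => by
      have := congrArg (Lb.pcL (K := ℂ) .t) (sum_tl n)
      simp only [map_sum, map_smul] at this
      simp only [smul_sub, Finset.sum_sub_distrib, sum_tl, Submodule.mem_bot, sub_eq_zero]
      simpa only [Lb.pcL, LinearMap.coe_mk, AddHom.coe_mk, Lb.pc_pa, ← cx_pc,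
        pc_pr (norm_ne_zero_iff.1 (hn.trans_ne one_ne_zero))] using this) μ ν)

theorem pa_c0' : pa (c0 : Lab ℂ) = cx ((2⁻¹ : ℝ) • an) := by
  simp [cx_smul, Lb.pa_c0, show cx an = _ from Lb.an_map Complex.ofRealHom]

theorem free_tl (μ ν : Fin 4) (y : Fin 3 → R4) : Lb.freeL GD.d ![pa (tl μ ν), pa c0, pa c0] y =
    (-8 * GD.d * tt μ ν (y 0) (y 1) (y 2) : ℝ) := by
  obtain ⟨F, e⟩ : ∃ F : Lab ℂ →ₗ[ℂ] ℂ, ∀ c, F c = Lb.freeL GD.d ![c, pa c0, pa c0] y :=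
    ⟨(Lb.freeM GD.d y).toLinearMap ![0, pa c0, pa c0] 0, fun c => by
      rw [MultilinearMap.toLinearMap_apply, Lb.freeM_apply]
      exact congrArg (Lb.freeL GD.d · y) (Fin.update_cons_zero (α := fun _ => Lab ℂ) _ _ c)⟩
  refine sub_eq_zero.1 (St.pol ⊥ (A := fun μ ν => Lb.freeL GD.d ![pa (tl μ ν), pa c0, pa c0] y -
    (-8 * GD.d * tt μ ν (y 0) (y 1) (y 2) : ℝ))
    (fun μ ν => by simp only [Ope.tl_sym μ ν, tt, mul_comm (vv _ _ _ μ), eq_comm (a := μ)])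
    (fun n hn => ?_) μ ν)
  have a := congrArg F (sum_tl n)
  have b := Lb.frL_three (w := GD.d / 2) n y
  have c := Lb.freeL_map GD.d ![(2⁻¹ : ℝ) • Lb.pr n, (2⁻¹ : ℝ) • an, (2⁻¹ : ℝ) • an] y
  rw [b, show (fun i => _) = ![((2⁻¹ : ℝ) : ℂ) • cx (Lb.pr n), pa c0, pa c0] from _root_.funext fun i => by
    fin_cases i
    exacts [cx_smul _ _, pa_c0'.symm, pa_c0'.symm], ← e, map_smul] at c
  simp only [map_sum, map_smul] at a
  simp only [smul_sub, Finset.sum_sub_distrib, ← e, a, Submodule.mem_bot, sub_eq_zero]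
  simp only [hn, smul_eq_mul, ← Complex.ofReal_mul, mul_left_comm _ (-8 * GD.d : ℝ), ← Finset.mul_sum,
    one_pow, div_one, ← Complex.ofReal_sum] at c ⊢
  simp only [Complex.ofReal_mul] at c ⊢
  push_cast at c ⊢
  linear_combination (-2⁻¹ : ℂ) * c

variable {g : Fin 2 → R4 → ℝ}

theorem xi_near (hg : Src g) (i : Fin 2) : ∀ᶠ y in 𝓝ˢ (tsupport (g i)), xi y = ![1, 0] i := by
  refine mem_of_superset (Metric.isOpen_ball.mem_nhdsSet.2 (hg i).2.2) fun y hy => ?_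
  fin_cases i
  · exact xi_one ((mem_ball_iff_norm'.1 hy).le.trans (by norm_num))
  · exact xi_zero_near ((mem_ball_zero_iff.1 hy).le.trans (by norm_num))

theorem adm_xi (hg : Src g) (l : Fin 4) : Adm ![pd l xi, g 0, g 1] :=
  PN.adm_cons (f := ![g 0, g 1]) (St.pd_cpt xi_cpt) ((pd_smooth xi_smooth l).of_le (by simp))
    (Ope.src_adm hg) fun i => disjoint_right.2 fun y hy => by
      fin_cases i
      exacts [St.pd_far ((xi_near hg 0).filter_mono (nhds_le_nhdsSet hy)),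
        St.pd_far ((xi_near hg 1).filter_mono (nhds_le_nhdsSet hy))]

theorem frI_three (hg : Src g) : ∑ μ, frI ![pa (tl μ 0), pa c0, pa c0] ![pd μ xi, g 0, g 1] =
    (-8 * GD.d * ∫ y : Fin 2 → R4, (∏ i, g i (y i)) * flux (y 0) (y 1) : ℝ) := by
  simp only [frI, free_tl, ← Complex.ofReal_mul, integral_complex_ofReal, ← flux_fub hg,
    mul_left_comm _ (-8 * GD.d : ℝ), integral_const_mul, ← Complex.ofReal_sum, ← Finset.mul_sum]

theorem frI_two (hg : Src g) : frI (fun _ => pa c0) ![pd 0 (g 0), g 1] =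
    (3 * GD.d * ∫ y : Fin 2 → R4, pd 0 (g 0) (y 0) * g 1 (y 1) / ‖y 0 - y 1‖ ^ 8 : ℝ) := by
  have := GD.b0_pos
  have h := frI_c0 ![pd 0 (g 0), g 1]
  rw [show kap ![pd 0 (g 0), g 1] = _ from Ope.kap_src hg, Complex.ofReal_mul (_ ^ 2)] at h
  rw [frI_pa]
  exact mul_left_cancel₀ (Complex.ofReal_ne_zero.2 (by unfold gm; positivity)) h

variable {S W : Pol →ₗ[ℂ] ℂ} {K : ℝ} {l : Filter (ℕ × ℕ)} [l.NeBot]
  {O : ℕ × ℕ → Lab ℂ → (R4 → ℝ) → Pol} {N : Cl → ℝ → ℝ} {W' : Lm.PolL (Lab ℂ) →ₗ[ℂ] ℂ}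
  (R : Res S K l O N) (hD : net.Dom S W) (hW : net.St W)
  (lim : ∀ k (a : Fin k → Lab ℂ) (f : Fin k → R4 → ℝ), Adm f →
    Tendsto (fun j => W (∏ i, O j (a i) (f i))) l (𝓝 (W' (∏ i, X (a i, f i)))))

include R lim in
theorem cv3 {f : R4 → ℝ} (hf : Adm ![f, g 0, g 1]) : ∃ F : Lab ℂ →ₗ[ℂ] ℂ,
    (∀ c, F c = YF.cov W' (X (c, f)) (∏ i, YF.phi (g i))) ∧ ∀ c, F c =
      W' (∏ i, X (![pa c, pa c0, pa c0] i, ![f, g 0, g 1] i)) -
        W' (∏ i, X (![pa c] i, ![f] i)) * W' (∏ i, X (pa c0, g i)) := by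
  have a2 : Adm g := by
    refine ⟨fun i => ?_, fun i j e => ?_⟩
    · fin_cases i
      exacts [hf.1 1, hf.1 2]
    · have := hf.2 ((Fin.succ_injective 2).ne e)
      fin_cases i <;> fin_cases j <;> exact this
  obtain ⟨M1, m1, p1⟩ := R.ml lim (f := ![f]) (Ope.adm_one.2 (hf.1 0))
  obtain ⟨M2, m2, p2⟩ := R.ml lim a2
  obtain ⟨M3, m3, p3⟩ := R.ml lim hf
  have e : ∀ c, (M3.toLinearMap ![0, c0, c0] 0 - M2 (fun _ => c0) • M1.toLinearMap ![0] 0) c =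
      M3 ![c, c0, c0] - M1 ![c] * M2 fun _ => c0 := fun c => by
    rw [LinearMap.sub_apply, LinearMap.smul_apply, smul_eq_mul, mul_comm]
    exact congrArg₂ (M3 · - M1 · * _) (Fin.update_cons_zero (α := fun _ => Lab ℂ) _ _ c)
      (Fin.update_cons_zero (α := fun _ => Lab ℂ) _ _ c)
  refine ⟨_, fun c => (e c).trans ?_, fun c => (e c).trans ?_⟩
  · simp [m1, m2, m3, YF.cov, YF.phi, c0, Fin.prod_univ_succ]
  · rw [← m1, ← m2, ← m3, ← p1, ← p2, ← p3]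
    congr 2
    · funext i
      fin_cases i <;> rfl
    · congr 1
      funext i
      fin_cases i
      rfl

include R hD hW lim

theorem flux_lab (lin : ∀ (r : ℝ) f g, Adm ![f, g] →
      W' (YF.phi (r • f) * YF.phi g) = r * W' (YF.phi f * YF.phi g))
    {s t : ℂ} {T : Fin 4 → Fin 4 → Lab ℂ}
    (h1 : ∀ μ ν, T μ ν = s • tl μ ν + (if μ = ν then t else 0) • c0)
    (h2 : ∀ (k : ℕ) (g : Fin k → R4 → ℝ) (ξ : R4 → ℝ) (e : Fin k → ℝ) (ν : Fin 4), Adm g →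
      (∀ i, ContDiff ℝ ∞ (g i) ∧ ∀ᶠ y in 𝓝ˢ (tsupport (g i)), ξ y = e i) → ContDiff ℝ ∞ ξ →
      HasCompactSupport ξ → ∑ μ, YF.cov W' (X (T μ ν, pd μ ξ)) (∏ i, YF.phi (g i)) =
        ∑ i, e i * W' (∏ j, YF.phi (Function.update g i (pd ν (g i)) j))) (hg : Src g) :
    ∃ B : ℝ → ℂ, Tendsto B (𝓝[>] 0)
      (𝓝 (-8 * GD.d * ∫ y : Fin 2 → R4, (∏ i, g i (y i)) * flux (y 0) (y 1) : ℝ)) ∧
      Tendsto (fun D => s / N .t D * B D) (𝓝[>] 0)
        (𝓝 (3 * GD.d * ∫ y : Fin 2 → R4, pd 0 (g 0) (y 0) * g 1 (y 1) / ‖y 0 - y 1‖ ^ 8 : ℝ)) := by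
  have g0 : 0 < gm := by
    have := GD.b0_pos
    unfold gm
    positivity
  have ps : pc .s (pa (c0 : Lab ℂ)) = pa c0 := by
    rw [Lb.pa_c0, Lb.pc_smul, pc, Lb.ip_an, Lb.an_an, Lb.tr_an]
    norm_num
  have pt : ∀ μ, pc .t (pa (tl μ 0)) = pa (tl μ 0) := fun μ => by rw [Lb.pc_pa, pc_tl]
  have a : Adm g := by
    convert Ope.src_adm hg using 1
    funext i
    fin_cases i <;> rfl
  have a1 : ∀ μ, Adm ![pd μ xi] := fun μ => Ope.adm_one.2 ((adm_xi hg μ).1 0)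
  have a2 : Adm ![pd 0 (g 0), g 1] := Ope.adm_pd (Ope.src_adm hg) (hg 0).1 0
  have z : ∀ c f, frI ![c] ![f] = 0 := fun c f => by simp [frI, Lb.freeL]
  have L := fun k (f : Fin k → _) hf => R.law' hD hW lim (fun _ => .s) (a := fun _ => pa c0)
    (f := f) hf fun _ => ps
  have t3 := tendsto_finset_sum Finset.univ fun μ _ => (R.law' hD hW lim ![.t, .s, .s]
    (a := ![pa (tl μ 0), pa c0, pa c0]) (adm_xi hg μ) fun i => by
      fin_cases i
      exacts [pt μ, ps, ps]).sub ((R.law' hD hW lim ![.t] (a := ![pa (tl μ 0)]) (a1 μ) fun i => by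
        fin_cases i
        exact pt μ).mul (L _ g a))
  simp only [z, zero_mul, sub_zero, frI_three hg] at t3
  refine ⟨_, t3, ?_⟩
  have t0 : Tendsto (fun D => ((N .s D)⁻¹ : ℝ)) (𝓝[>] 0) (𝓝 0) := by
    simp only [R.sca]
    exact ((tendsto_log_atTop.comp tendsto_inv_nhdsGT_zero).atTop_div_const g0).inv_tendsto_atTop
  have t1 := (L _ _ a2).sub ((((Complex.continuous_ofReal.tendsto _).comp t0).mul
    ((L _ _ (adm_xi hg 0)).sub ((L _ _ (a1 0)).mul (L _ g a)))).const_mul t)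
  simp only [Complex.ofReal_zero, zero_mul, mul_zero, sub_zero, frI_two hg] at t1
  refine t1.congr' ?_
  filter_upwards [Ioo_mem_nhdsGT one_pos, R.slow .t 1 one_pos] with D ⟨D0, D1⟩ hD
  have n0 : (N .t D : ℂ) ≠ 0 := Complex.ofReal_ne_zero.2 ((rpow_pos_of_pos D0 _).trans_le hD.1).ne'
  have n1 : (N .s D : ℂ) ≠ 0 := Complex.ofReal_ne_zero.2 (by
    rw [R.sca]
    exact (div_pos (log_pos ((one_lt_inv₀ D0).2 D1)) g0).ne')
  have d0 := inv_ne_zero D0.ne'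
  have w := h2 2 (fun i => sc D (g i)) (D • sc D xi) (fun i => D * ![1, 0] i) 0 (a.smul d0)
    (fun i => ⟨Ope.sm_sc' (hg i).1 _, ((Continuous.tendsto_nhdsSet (f := fun y : R4 => D⁻¹ • y)
      (by fun_prop) fun y hy => tsupport_comp (θ := fun y : R4 => D⁻¹ • y) (by fun_prop) hy
        ).eventually (xi_near hg i)).mono fun y hy => congrArg (D * ·) hy⟩)
    ((Ope.sm_sc' xi_smooth _).const_smul D)
    (xi_cpt.comp_homeomorph (Homeomorph.smulOfNeZero _ d0)).smul_left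
  have p : ∀ μ f, ContDiff ℝ ∞ f → pd μ (sc D f) = D⁻¹ • sc D (pd μ f) := fun μ f hf =>
    St.pd_sc (hf.differentiable (by simp))
  have p' : ∀ μ, pd μ (D • sc D xi) = sc D (pd μ xi) := fun μ => by
    rw [show pd μ (D • sc D xi) = D • pd μ (sc D xi) from funext fun _ => deriv_const_mul_field _,
      p _ _ xi_smooth, smul_inv_smul₀ D0.ne']
  have b : ∀ {k} {f : Fin k → R4 → ℝ}, Adm f → Adm fun i => sc D (f i) := fun h => h.smul d0
  choose F f1 f2 using fun μ => cv3 R lim (g := fun i => sc D (g i)) (f := sc D (pd μ xi))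
    (by convert b (adm_xi hg μ) using 1; funext i; fin_cases i <;> rfl)
  obtain ⟨M, m, q⟩ := R.ml lim (b a2)
  have q' := (m _).symm.trans ((q fun _ => c0).trans (m _))
  have r := lin D⁻¹ (sc D (pd 0 (g 0))) (sc D (g 1))
    (by convert b a2 using 1; funext i; fin_cases i <;> rfl)
  simp only [p', ← f1, h1, map_add, map_smul, ite_smul, zero_smul, apply_ite (F _), map_zero,
    Finset.sum_add_distrib, Finset.sum_ite_eq', Finset.mem_univ, if_true] at w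
  simp only [f2] at w
  simp [Fin.prod_univ_succ, p _ _ (hg 0).1, r, D0.ne', Fin.sum_univ_four] at w q' ⊢
  change _ = W' (X (c0, _) * X (c0, _)) at w
  field_simp
  linear_combination q' - w

theorem aft_lab (lin : ∀ (r : ℝ) f g, Adm ![f, g] →
      W' (YF.phi (r • f) * YF.phi g) = r * W' (YF.phi f * YF.phi g))
    {s t : ℂ} {T : Fin 4 → Fin 4 → Lab ℂ}
    (h1 : ∀ μ ν, T μ ν = s • tl μ ν + (if μ = ν then t else 0) • c0)
    (h2 : ∀ (k : ℕ) (g : Fin k → R4 → ℝ) (ξ : R4 → ℝ) (e : Fin k → ℝ) (ν : Fin 4), Adm g →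
      (∀ i, ContDiff ℝ ∞ (g i) ∧ ∀ᶠ y in 𝓝ˢ (tsupport (g i)), ξ y = e i) → ContDiff ℝ ∞ ξ →
      HasCompactSupport ξ → ∑ μ, YF.cov W' (X (T μ ν, pd μ ξ)) (∏ i, YF.phi (g i)) =
        ∑ i, e i * W' (∏ j, YF.phi (Function.update g i (pd ν (g i)) j))) :
    Tendsto (fun D => s / N .t D) (𝓝[>] 0) (𝓝 (-(π ^ 2)⁻¹ : ℝ)) := by
  have d : (0 : ℝ) < GD.d := by exact_mod_cast GD.d3.trans_lt' (by norm_num)
  obtain ⟨g, g1, g2⟩ := flux_ne
  obtain ⟨B, b1, b2⟩ := flux_lab R hD hW lim lin h1 h2 g1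
  have n := Complex.ofReal_ne_zero.2 (mul_ne_zero (show (-8 * GD.d : ℝ) ≠ 0 by linarith) g2)
  obtain ⟨m, hm⟩ : ∃ m : ℝ, Tendsto (fun D => s / N .t D) (𝓝[>] 0) (𝓝 m) :=
    ⟨_, Complex.ofReal_div _ _ ▸ (b2.div b1 n).congr' ((b1.eventually_ne n).mono fun D e =>
      mul_div_cancel_right₀ _ e)⟩
  have := pin (m := m * (-8 / 3)) fun g hg => by
    obtain ⟨B, b1, b2⟩ := flux_lab R hD hW lim lin h1 h2 hg
    have := Complex.ofReal_injective ((Complex.ofReal_mul _ _).trans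
      (tendsto_nhds_unique (hm.mul b1) b2))
    exact mul_left_cancel₀ d.ne' (by linear_combination 3⁻¹ * this)
  convert hm using 3
  field_simp
  linear_combination 8⁻¹ * this

end Pool.Agent.Lib.MP_7f377f_mp.Cm
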