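import Pool.Agent.Lib.MP_7f377f_mp.G.YOa
import Pool.Agent.Lib.MP_7f377f_mp.G.YPa

/-! Asymptotic freedom together with the operator product expansion. -/

noncomputable section

namespace Pool.Agent.Lib.MP_7f377f_mp.Cm
variable [Pool.Agent.Lib.MP_7f377f_mp.GD]
set_option linter.unusedSectionVars false

open MeasureTheory Filter Topology Set Real YM7 Pur MvPolynomial Lg Lm Asymptotics
open Lb (Lab Cl pc pa)

variable {S W : Pol →ₗ[ℂ] ℂ} {K : ℝ} {l : Filter (ℕ × ℕ)} [l.NeBot]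
  {O : ℕ × ℕ → Lab ℂ → (R4 → ℝ) → Pol} {N : Cl → ℝ → ℝ} {W' : PolL (Lab ℂ) →ₗ[ℂ] ℂ}

theorem Res.afo (R : Res S K l O N) (hD : net.Dom S W) (hW : net.St W)
    (lim : ∀ k (a : Fin k → Lab ℂ) (f : Fin k → R4 → ℝ), Adm f →
      Tendsto (fun j => W (∏ i, O j (a i) (f i))) l (𝓝 (W' (∏ i, X (a i, f i))))) {δ : ℝ}
    (δ0 : 0 < δ) (ope : ∀ n : ℝ → Cl → ℝ, (∀ᶠ D in 𝓝[>] (0 : ℝ), ∀ t, n D t = gm * N t D) →
      ∀ a b (u : Fin 2 → R4 → ℝ), Adm u → ∃ C : ℝ → Lab ℂ, Tendsto C (𝓝[>] 0) (𝓝 (.of fun i j =>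
        gm * ∫ y : Fin 2 → R4, u 0 (y 0) * u 1 (y 1) * YF.bl a b (y 1 - y 0) i j)) ∧
        ∀ f Z, Ope.Dt f Z → (fun t : ℝ => (∫ z, f z * YF.cov W'
          (X (dgL (fun l => n t l) a, fun y => u 0 (t⁻¹ • (y - z))) *
            X (dgL (fun l => n t l) b, fun y => u 1 (t⁻¹ • (y - z)))) (emb Lb.c0 Z)) / t ^ 4 -
          YF.cov W' (X (dgL (fun l => n t l) (C t), f)) (emb Lb.c0 Z)) =O[𝓝[>] 0] fun t => t ^ δ)
    (lin : ∀ (r : ℝ) f g, Adm ![f, g] →
      W' (YF.phi (r • f) * YF.phi g) = r * W' (YF.phi f * YF.phi g)) {κ : ℝ} (st : YF.Stress κ W') :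
    ∃ M, YF.AFM gm GD.d W' M ∧ YF.StressM gm W' M := by
  have g0 : 0 < gm := by
    have := GD.b0_pos
    unfold gm
    positivity
  classical
  obtain ⟨n, hn⟩ : ∃ n : ℝ → Cl → ℝ, ∀ D t, n D t = if N t D = 0 then 1 else gm * N t D :=
    ⟨_, fun _ _ => rfl⟩
  have n0 : ∀ D t, (n D t : ℂ) ≠ 0 := fun D t => by
    rw [hn, Complex.ofReal_ne_zero]
    split_ifs with h
    exacts [one_ne_zero, mul_ne_zero g0.ne' h]
  have sl : ∀ b > (0 : ℝ), ∀ᶠ D in 𝓝[>] (0 : ℝ), 0 < D ∧ ∀ t, D ^ b ≤ N t D ∧ N t D ≤ D ^ (-b) ∧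
      n D t = gm * N t D := fun b b0 => by
    filter_upwards [self_mem_nhdsWithin, eventually_all.2 fun t => R.slow t b b0] with D D0 h
    exact ⟨D0, fun t => ⟨(h t).1, (h t).2,
      by rw [hn, if_neg ((rpow_pos_of_pos D0 b).trans_le (h t).1).ne']⟩⟩
  refine ⟨fun D => .ofLinear (dgL fun t => n D t) (dgL fun t => (n D t : ℂ)⁻¹)
    (LinearMap.ext (dgL_inv fun t => mul_inv_cancel₀ (n0 D t)))
    (LinearMap.ext (dgL_inv fun t => inv_mul_cancel₀ (n0 D t))), ⟨fun D g c hg => ?_,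
    fun D hD => ?_, fun ε ε0 c => ?_, fun k c f hf => ?_, δ, δ0, fun a b u hu =>
      (ope n ((sl 1 one_pos).mono fun D e t => (e.2 t).2.2) a b u hu).imp fun C e =>
        ⟨e.1, fun f hf Z hZ => let ⟨Y, hY, eY⟩ := YF.loc_iff.1 hZ; eY ▸ e.2 f Y ⟨hf, hY⟩⟩⟩, ?_⟩
  · show dgL _ (Lb.rho g c) = Lb.rhoL g (dgL _ c)
    simp only [dgL_eq, map_add, map_sum, map_smul, map_sub, Lb.pc_rho hg, Lb.pa_rho hg]
    rfl
  · have l0 : 0 < log D⁻¹ := log_pos (one_lt_inv₀ hD.1 |>.2 hD.2)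
    show dgL _ 1 = _
    rw [dgL_one, hn, R.sca, if_neg (div_pos l0 g0).ne', mul_div_cancel₀ _ g0.ne', Complex.coe_smul]
  · have z : Tendsto (fun D : ℝ => D ^ (ε / 2)) (𝓝[>] 0) (𝓝 0) := by
      simpa [zero_rpow (half_pos ε0).ne'] using
        ((continuousAt_rpow_const 0 (ε / 2) (.inr (half_pos ε0).le)).tendsto).mono_left
          nhdsWithin_le_nhds
    refine Tendsto.prodMk_nhds (dgL_zero (fun t => ?_) c) (dgL_zero (fun t => ?_) c)
    · refine squeeze_zero_norm' ?_ (by simpa using z.const_mul gm)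
      filter_upwards [sl _ (half_pos ε0)] with D ⟨D0, h⟩
      obtain ⟨h1, h2, h3⟩ := h t
      have p := rpow_pos_of_pos D0
      rw [h3, norm_smul, Complex.norm_real, norm_of_nonneg (p _).le,
        norm_of_nonneg (mul_pos g0 ((p _).trans_le h1)).le, mul_left_comm,
        show ε / 2 = ε + -(ε / 2) by ring, rpow_add D0]
      gcongr
    · refine squeeze_zero_norm' ?_ (by simpa using z.const_mul gm⁻¹)
      filter_upwards [sl _ (half_pos ε0)] with D ⟨D0, h⟩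
      obtain ⟨h1, h2, h3⟩ := h t
      have p := rpow_pos_of_pos D0
      rw [h3, norm_smul, norm_inv, Complex.norm_real, norm_of_nonneg (p _).le,
        norm_of_nonneg (mul_pos g0 ((p _).trans_le h1)).le, mul_inv, mul_left_comm,
        show ε / 2 = ε + -(ε / 2) by ring, rpow_add D0, rpow_neg D0.le]
      gcongr
  · obtain ⟨F, hF⟩ := frI_ml (f := f) hf
    have e : (gm : ℂ) ^ k * ∫ y : Fin k → R4, (∏ i, (f i (y i) : ℂ)) * YF.free GD.d c y =
        ∑ t : Fin k → Cl, (gm : ℂ) ^ k * frI (fun i => pc (t i) (c i)) f := by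
      simp only [← Finset.mul_sum, ← hF, ← F.map_sum fun i t => pc t (c i), Lb.sum_pc]
      simp only [hF, frI_pa, YF.free_eq, ← Complex.ofReal_prod]
      rfl
    rw [e]
    refine (tendsto_finset_sum _ fun t _ => (R.law' hD hW lim t hf fun i => by
      rw [Lb.pc_pc, if_pos rfl]).const_mul _).congr' ?_
    filter_upwards [sl 1 one_pos] with D ⟨D0, h⟩
    obtain ⟨M, hM, hp⟩ := R.ml lim (f := fun i => Ope.sc D (f i)) (Adm.smul hf (inv_ne_zero D0.ne'))
    refine .trans ?_ ((hp fun i => dgL (fun t => n D t) (c i)).trans (hM _))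
    simp only [pa_dgL]
    rw [M.map_sum fun i t => (n D t : ℂ) • pc t (c i)]
    simp only [M.map_smul_univ, ← hM,
      fun t => (h t).2.2, smul_eq_mul, Complex.ofReal_mul, Finset.prod_mul_distrib, mul_assoc,
      Finset.prod_const, Finset.card_univ, Fintype.card_fin, Complex.ofReal_prod]
  obtain ⟨s, t, T, h1, h2, -⟩ := st
  have h3 : ∀ μ ν, T μ ν = s • Ope.tl μ ν + (if μ = ν then 2 * t + s else 0) • Lb.c0 := fun μ ν => by
    rw [h1, Ope.tl, Lb.c0, ← Matrix.one_kronecker_one, ← Matrix.smul_kronecker,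
      ← Matrix.smul_kronecker, ← Matrix.smul_kronecker, ← Matrix.add_kronecker]
    split_ifs <;> congr 1 <;> module
  refine ⟨s, t, T, h1, h2, fun v => ?_⟩
  have t0 : Tendsto (fun D => (n D .s : ℂ)⁻¹) (𝓝[>] 0) (𝓝 0) := by
    refine ((Complex.continuous_ofReal.tendsto' 0 0 rfl).comp (tendsto_log_atTop.comp
      tendsto_inv_nhdsGT_zero).inv_tendsto_atTop).congr' ((sl 1 one_pos).mono fun D e => ?_)
    simp [(e.2 _).2.2, R.sca, ← Complex.ofReal_mul, mul_div_cancel₀ _ g0.ne']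
  have t1 : Tendsto (fun D => s * (n D .t : ℂ)⁻¹) (𝓝[>] 0) (𝓝 (gm⁻¹ * -(π ^ 2)⁻¹ : ℝ)) :=
    Complex.ofReal_mul _ _ ▸ ((aft_lab R hD hW lim lin h3 h2).const_mul _).congr'
      ((sl 1 one_pos).mono fun D e => by
        simp only [(e.2 _).2.2]
        push_cast
        ring)
  have e : ∀ m μ ν, dgL m (T μ ν) = (s * m .t) • Lb.pa (Ope.tl μ ν) + m .s •
      (s • (Ope.tl μ ν - Lb.pa (Ope.tl μ ν)) + (if μ = ν then 2 * t + s else 0) • Lb.c0) := fun m μ ν => by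
    have : ∀ l, pc l (Ope.tl μ ν) = if l = .t then Lb.pa (Ope.tl μ ν) else 0 := fun l => by
      rw [← Lb.pc_pa, ← pc_tl, Lb.pc_pc]
      split_ifs with h
      exacts [h ▸ rfl, rfl]
    rw [h3, map_add, map_smul, map_smul, Lb.c0, map_smul, dgL_one, dgL_eq]
    simp only [this, smul_ite, smul_zero, Finset.sum_ite_eq', Finset.mem_univ, if_true]
    module
  have := tendsto_finset_sum Finset.univ fun μ _ => tendsto_finset_sum Finset.univ fun ν _ =>
    ((t1.smul_const (Lb.pa (Ope.tl μ ν))).add (t0.smul_const (s • (Ope.tl μ ν - Lb.pa (Ope.tl μ ν)) +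
      (if μ = ν then 2 * t + s else 0) • Lb.c0))).const_smul ((v μ * v ν / ‖v‖ ^ 6 : ℝ) : ℂ)
  convert this using 2 with D
  · simp only [← Complex.coe_smul, map_sum, map_smul, ← e fun l => (n D l : ℂ)⁻¹]
    rfl
  · simp only [zero_smul, add_zero, div_eq_inv_mul _ (‖v‖ ^ 6), Complex.ofReal_mul _⁻¹ (_ * _),
      mul_smul, smul_comm ((v _ * v _ : ℝ) : ℂ), ← Finset.smul_sum, sum_tl]
    ext i j
    have : YF.pr v i j = Lb.pr v i j := by
      simp only [YF.pr, Lb.pr, YG.mirror, Matrix.det_fin_two, Matrix.submatrix_apply,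
        Matrix.sub_apply, Matrix.one_apply, Matrix.smul_apply, Matrix.vecMulVec_apply, smul_eq_mul,
        Matrix.of_apply, Matrix.cons_val_zero, Matrix.cons_val_one]
      ring
    simp only [this, Matrix.of_apply, Matrix.smul_apply, cx, Matrix.map_apply, smul_eq_mul,
      ← Complex.ofReal_mul]
    rcases eq_or_ne v 0 with rfl | h
    · simp [Lb.pr_zero]
    have := norm_ne_zero_iff.2 h
    congr 1
    field_simp

end Pool.Agent.Lib.MP_7f377f_mp.Cm
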