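import Pool.Agent.Lib.MP_7f377f_mp.YR
import Pool.Agent.Lib.MP_7f377f_mp.G.YOb
import Pool.Agent.Lib.MP_7f377f_mp.G.LbU

/-! The renormalisation of the topological density and of the Weyl part. -/

noncomputable section

namespace Pool.Agent.Lib.MP_7f377f_mp.Lb

open Finset Matrix

variable {c : Lab ℂ}

theorem alt_eps (h : YF.Alt c) (i j k l : Fin 4) :
    c (i, j) (k, l) = eps i j k l * c (0, 1) (2, 3) := by
  have e : ∀ i j k l, eps j i k l = -eps i j k l ∧ eps i k j l = -eps i j k l ∧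
      eps i j l k = -eps i j k l := by decide +kernel
  have z : ∀ i j k l : Fin 4, i < j → j < k → k < l → i = 0 ∧ j = 1 ∧ k = 2 ∧ l = 3 := by
    decide +kernel
  have y : ∀ {x : ℂ} {n : ℤ} {a : ℂ}, x = -x → n = -n → x = n * a := fun {x n a} p q => by
    rw [show n = 0 by omega, Int.cast_zero, zero_mul]
    linear_combination 2⁻¹ * p
  induction hn : 3 * i.1 + 2 * j.1 + k.1 using Nat.strong_induction_on generalizing i j k l with
  | _ n ih =>
    rcases lt_trichotomy i j with a | rfl | a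
    · rcases lt_trichotomy j k with b | rfl | b
      · rcases lt_trichotomy k l with d | rfl | d
        · obtain ⟨rfl, rfl, rfl, rfl⟩ := z i j k l a b d
          rw [show eps 0 1 2 3 = 1 from rfl, Int.cast_one, one_mul]
        · exact y (h i j k k).2.2 (e i j k k).2.2
        · rw [(h i j l k).2.2, (e i j l k).2.2, ih _ (by rw [Fin.lt_def] at d; omega) i j l k rfl,
            Int.cast_neg, neg_mul]
      · exact y (h i j j l).2.1 (e i j j l).2.1
      · rw [(h i k j l).2.1, (e i k j l).2.1, ih _ (by rw [Fin.lt_def] at b; omega) i k j l rfl,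
          Int.cast_neg, neg_mul]
    · exact y (h i i k l).1 (e i i k l).1
    · rw [(h j i k l).1, (e j i k l).1, ih _ (by rw [Fin.lt_def] at a; omega) j i k l rfl,
        Int.cast_neg, neg_mul]

theorem alt_pc (h : YF.Alt c) : pc .q c = c := by
  have e : c = (2 * c (0, 1) (2, 3)) • hs := by
    ext ⟨i, j⟩ ⟨k, l⟩
    rw [alt_eps h]
    simp only [hs, Matrix.smul_apply, of_apply, smul_eq_mul]
    ring
  rw [e, pc, ip_smul, ip_hs, hs_hs, tr_an, mul_div_cancel_right₀ _ (by norm_num)]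

theorem du_du (a : ∀ i j y, c (j, i) y = -c (i, j) y) (b : ∀ k l x, c x (l, k) = -c x (k, l))
    (r : ∀ i k, ∑ j, c (i, j) (k, j) = 0) (x y : Pl) : c (du y) (du x) = c x y := by
  have z : ∀ i y, c (i, i) y = 0 := fun i y => by linear_combination 2⁻¹ * a i i y
  have w : ∀ i x, c x (i, i) = 0 := fun i x => by linear_combination 2⁻¹ * b i i x
  obtain ⟨S, hS⟩ : ∃ S : Fin 4 → Fin 4 → ℂ, ∀ i k, S i k = ∑ j, c (i, j) (k, j) -
    if i = k then 4⁻¹ * ∑ m, ∑ j, c (m, j) (m, j) else 0 := ⟨_, fun _ _ => rfl⟩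
  have s : ∀ i k, S i k = 0 := fun i k => by simp [hS, r]
  have : ∀ i j k l, c (du (k, l)) (du (i, j)) = c (i, j) (k, l) - ((if i = k then S j l else 0) +
      (if j = l then S i k else 0) - (if i = l then S j k else 0) - if j = k then S i l else 0) := by
    simp only [Fin.forall_fin_succ, IsEmpty.forall_iff, hS, Fin.sum_univ_four, du]
    simp [a 0 1, a 0 2, a 0 3, a 1 2, a 1 3, a 2 3, b 0 1, b 0 2, b 0 3, b 1 2, b 1 3, b 2 3, z, w]
    repeat' apply And.intro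
    all_goals ring
  simpa [s] using this x.1 x.2 y.1 y.2

theorem weyl_pc (h : YF.Weyl c) : pc .w c = c := by
  have p : pa c = c := pa_iff.2 ⟨h.1, fun x y => ((h.2 x.1 y.1).2 x.2 y.2).1⟩
  have a : ∀ i j y, c (j, i) y = -c (i, j) y := fun i j => sw_of p (i, j)
  have b : ∀ k l x, c x (l, k) = -c x (k, l) := fun k l x => sw_of' p x (k, l)
  have e1 : hs * c * hs = c := by
    ext x y
    rw [hs_conj p, du_du a b fun i k => (h.2 i k).1]
    exact congrFun₂ h.1 x y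
  have e2 : ip an c = 0 := by
    rw [ip_an, ← p, an_pa, p, trace, Fintype.sum_prod_type]
    exact sum_eq_zero fun i _ => (h.2 i i).1
  have e3 : ip hs c = 0 := by
    have := fun i j k l => ((h.2 i k).2 j l).2
    simp only [ip_hs, trace, Matrix.diag, hs_mul p, Fintype.sum_prod_type, Fin.sum_univ_four, du,
      of_apply, cons_val', cons_val_zero, cons_val_one, Matrix.cons_val]
    linear_combination this 0 1 2 3 + this 1 0 3 2 + this 2 0 1 3 + this 3 0 2 1 +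
      2⁻¹ * (a 0 0 (0, 0) + a 1 1 (1, 1) + a 2 2 (2, 2) + a 3 3 (3, 3))
  rw [pc, p, e1, e2, e3]
  module

end Pool.Agent.Lib.MP_7f377f_mp.Lb

namespace Pool.Agent.Lib.MP_7f377f_mp.Cm
variable [Pool.Agent.Lib.MP_7f377f_mp.GD]
set_option linter.unusedSectionVars false

open MeasureTheory Filter Topology Set Real YM7 Pur MvPolynomial Lg Lm Asymptotics
open Lb (Lab Cl pc pa)

variable {S W : Pol →ₗ[ℂ] ℂ} {K : ℝ} {l : Filter (ℕ × ℕ)} [l.NeBot]
  {O : ℕ × ℕ → Lab ℂ → (R4 → ℝ) → Pol} {N : Cl → ℝ → ℝ} {W' : PolL (Lab ℂ) →ₗ[ℂ] ℂ}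

theorem Res.afx (R : Res S K l O N) (hD : net.Dom S W) (hW : net.St W)
    (lim : ∀ k (a : Fin k → Lab ℂ) (f : Fin k → R4 → ℝ), Adm f →
      Tendsto (fun j => W (∏ i, O j (a i) (f i))) l (𝓝 (W' (∏ i, X (a i, f i))))) {δ : ℝ}
    (δ0 : 0 < δ) (ope : ∀ n : ℝ → Cl → ℝ, (∀ᶠ D in 𝓝[>] (0 : ℝ), ∀ t, n D t = gm * N t D) →
      ∀ a b (u : Fin 2 → R4 → ℝ), Adm u → ∃ C : ℝ → Lab ℂ, Tendsto C (𝓝[>] 0) (𝓝 (.of fun i j =>
        gm * ∫ y : Fin 2 → R4, u 0 (y 0) * u 1 (y 1) * YF.bl a b (y 1 - y 0) i j)) ∧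
        ∀ f Z, Ope.Dt f Z → (fun t : ℝ => (∫ z, f z * YF.cov W'
          (X (dgL (fun l => n t l) a, fun y => u 0 (t⁻¹ • (y - z))) *
            X (dgL (fun l => n t l) b, fun y => u 1 (t⁻¹ • (y - z)))) (emb Lb.c0 Z)) / t ^ 4 -
          YF.cov W' (X (dgL (fun l => n t l) (C t), f)) (emb Lb.c0 Z)) =O[𝓝[>] 0] fun t => t ^ δ)
    (lin : ∀ (r : ℝ) f g, Adm ![f, g] →
      W' (YF.phi (r • f) * YF.phi g) = r * W' (YF.phi f * YF.phi g)) {κ : ℝ} (st : YF.Stress κ W') :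
    ∃ (n : ℝ → Cl → ℝ) (M : ℝ → Lab ℂ ≃ₗ[ℂ] Lab ℂ), (∀ D c, M D c = dgL (fun t => n D t) c) ∧
      (∀ᶠ D in 𝓝[>] (0 : ℝ), ∀ t, 0 < N t D ∧ n D t = gm * N t D) ∧
      YF.AFM gm GD.d W' M ∧ YF.StressM gm W' M := by
  have g0 : 0 < gm := by
    have := GD.b0_pos
    unfold gm
    positivity
  classical
  obtain ⟨n, hn⟩ : ∃ n : ℝ → Cl → ℝ, ∀ D t, n D t = if N t D = 0 then 1 else gm * N t D :=
    ⟨_, fun _ _ => rfl⟩
  have n0 : ∀ D t, (n D t : ℂ) ≠ 0 := fun D t => by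
    rw [hn, Complex.ofReal_ne_zero]
    split_ifs with h
    exacts [one_ne_zero, mul_ne_zero g0.ne' h]
  have sl : ∀ b > (0 : ℝ), ∀ᶠ D in 𝓝[>] (0 : ℝ), 0 < D ∧ ∀ t, D ^ b ≤ N t D ∧ N t D ≤ D ^ (-b) ∧
      n D t = gm * N t D := fun b b0 => by
    filter_upwards [self_mem_nhdsWithin, eventually_all.2 fun t => R.slow t b b0] with D D0 h
    exact ⟨D0, fun t => ⟨(h t).1, (h t).2,
      by rw [hn, if_neg ((rpow_pos_of_pos D0 b).trans_le (h t).1).ne']⟩⟩
  refine ⟨n, fun D => .ofLinear (dgL fun t => n D t) (dgL fun t => (n D t : ℂ)⁻¹)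
    (LinearMap.ext (dgL_inv fun t => mul_inv_cancel₀ (n0 D t)))
    (LinearMap.ext (dgL_inv fun t => inv_mul_cancel₀ (n0 D t))), fun _ _ => rfl,
    (sl 1 one_pos).mono fun D e t => ⟨(rpow_pos_of_pos e.1 _).trans_le (e.2 t).1, (e.2 t).2.2⟩,
    ⟨fun D g c hg => ?_,
    fun D hD => ?_, fun ε ε0 c => ?_, fun k c f hf => ?_, δ, δ0, fun a b u hu =>
      (ope n ((sl 1 one_pos).mono fun D e t => (e.2 t).2.2) a b u hu).imp fun C e =>
        ⟨e.1, fun f hf Z hZ => let ⟨Y, hY, eY⟩ := YF.loc_iff.1 hZ; eY ▸ e.2 f Y ⟨hf, hY⟩⟩⟩, ?_⟩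
  · show dgL _ (Lb.rho g c) = Lb.rhoL g (dgL _ c)
    simp only [dgL_eq, map_add, map_sum, map_smul, map_sub, Lb.pc_rho hg, Lb.pa_rho hg]
    rfl
  · have l0 : 0 < log D⁻¹ := log_pos (one_lt_inv₀ hD.1 |>.2 hD.2)
    show dgL _ 1 = _
    rw [dgL_one, hn, R.sca, if_neg (div_pos l0 g0).ne', mul_div_cancel₀ _ g0.ne', Complex.coe_smul]
  · have z : Tendsto (fun D : ℝ => D ^ (ε / 2)) (𝓝[>] 0) (𝓝 0) := by
      simpa [zero_rpow (half_pos ε0).ne'] using
        ((continuousAt_rpow_const 0 (ε / 2) (.inr (half_pos ε0).le)).tendsto).mono_left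
          nhdsWithin_le_nhds
    refine Tendsto.prodMk_nhds (dgL_zero (fun t => ?_) c) (dgL_zero (fun t => ?_) c)
    · refine squeeze_zero_norm' ?_ (by simpa using z.const_mul gm)
      filter_upwards [sl _ (half_pos ε0)] with D ⟨D0, h⟩
      obtain ⟨h1, h2, h3⟩ := h t
      have p := rpow_pos_of_pos D0
      rw [h3, norm_smul, Complex.norm_real, norm_of_nonneg (p _).le,
        norm_of_nonneg (mul_pos g0 ((p _).trans_le h1)).le, mul_left_comm,
        show ε / 2 = ε + -(ε / 2) by ring, rpow_add D0]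
      gcongr
    · refine squeeze_zero_norm' ?_ (by simpa using z.const_mul gm⁻¹)
      filter_upwards [sl _ (half_pos ε0)] with D ⟨D0, h⟩
      obtain ⟨h1, h2, h3⟩ := h t
      have p := rpow_pos_of_pos D0
      rw [h3, norm_smul, norm_inv, Complex.norm_real, norm_of_nonneg (p _).le,
        norm_of_nonneg (mul_pos g0 ((p _).trans_le h1)).le, mul_inv, mul_left_comm,
        show ε / 2 = ε + -(ε / 2) by ring, rpow_add D0, rpow_neg D0.le]
      gcongr
  · obtain ⟨F, hF⟩ := frI_ml (f := f) hf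
    have e : (gm : ℂ) ^ k * ∫ y : Fin k → R4, (∏ i, (f i (y i) : ℂ)) * YF.free GD.d c y =
        ∑ t : Fin k → Cl, (gm : ℂ) ^ k * frI (fun i => pc (t i) (c i)) f := by
      simp only [← Finset.mul_sum, ← hF, ← F.map_sum fun i t => pc t (c i), Lb.sum_pc]
      simp only [hF, frI_pa, YF.free_eq, ← Complex.ofReal_prod]
      rfl
    rw [e]
    refine (tendsto_finset_sum _ fun t _ => (R.law' hD hW lim t hf fun i => by
      rw [Lb.pc_pc, if_pos rfl]).const_mul _).congr' ?_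
    filter_upwards [sl 1 one_pos] with D ⟨D0, h⟩
    obtain ⟨M, hM, hp⟩ := R.ml lim (f := fun i => Ope.sc D (f i)) (Adm.smul hf (inv_ne_zero D0.ne'))
    refine .trans ?_ ((hp fun i => dgL (fun t => n D t) (c i)).trans (hM _))
    simp only [pa_dgL]
    rw [M.map_sum fun i t => (n D t : ℂ) • pc t (c i)]
    simp only [M.map_smul_univ, ← hM,
      fun t => (h t).2.2, smul_eq_mul, Complex.ofReal_mul, Finset.prod_mul_distrib, mul_assoc,
      Finset.prod_const, Finset.card_univ, Fintype.card_fin, Complex.ofReal_prod]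
  obtain ⟨s, t, T, h1, h2, -⟩ := st
  have h3 : ∀ μ ν, T μ ν = s • Ope.tl μ ν + (if μ = ν then 2 * t + s else 0) • Lb.c0 := fun μ ν => by
    rw [h1, Ope.tl, Lb.c0, ← Matrix.one_kronecker_one, ← Matrix.smul_kronecker,
      ← Matrix.smul_kronecker, ← Matrix.smul_kronecker, ← Matrix.add_kronecker]
    split_ifs <;> congr 1 <;> module
  refine ⟨s, t, T, h1, h2, fun v => ?_⟩
  have t0 : Tendsto (fun D => (n D .s : ℂ)⁻¹) (𝓝[>] 0) (𝓝 0) := by
    refine ((Complex.continuous_ofReal.tendsto' 0 0 rfl).comp (tendsto_log_atTop.comp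
      tendsto_inv_nhdsGT_zero).inv_tendsto_atTop).congr' ((sl 1 one_pos).mono fun D e => ?_)
    simp [(e.2 _).2.2, R.sca, ← Complex.ofReal_mul, mul_div_cancel₀ _ g0.ne']
  have t1 : Tendsto (fun D => s * (n D .t : ℂ)⁻¹) (𝓝[>] 0) (𝓝 (gm⁻¹ * -(π ^ 2)⁻¹ : ℝ)) :=
    Complex.ofReal_mul _ _ ▸ ((aft_lab R hD hW lim lin h3 h2).const_mul _).congr'
      ((sl 1 one_pos).mono fun D e => by
        simp only [(e.2 _).2.2]
        push_cast
        ring)
  have e : ∀ m μ ν, dgL m (T μ ν) = (s * m .t) • Lb.pa (Ope.tl μ ν) + m .s •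
      (s • (Ope.tl μ ν - Lb.pa (Ope.tl μ ν)) + (if μ = ν then 2 * t + s else 0) • Lb.c0) := fun m μ ν => by
    have : ∀ l, pc l (Ope.tl μ ν) = if l = .t then Lb.pa (Ope.tl μ ν) else 0 := fun l => by
      rw [← Lb.pc_pa, ← pc_tl, Lb.pc_pc]
      split_ifs with h
      exacts [h ▸ rfl, rfl]
    rw [h3, map_add, map_smul, map_smul, Lb.c0, map_smul, dgL_one, dgL_eq]
    simp only [this, smul_ite, smul_zero, Finset.sum_ite_eq', Finset.mem_univ, if_true]
    module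
  have := tendsto_finset_sum Finset.univ fun μ _ => tendsto_finset_sum Finset.univ fun ν _ =>
    ((t1.smul_const (Lb.pa (Ope.tl μ ν))).add (t0.smul_const (s • (Ope.tl μ ν - Lb.pa (Ope.tl μ ν)) +
      (if μ = ν then 2 * t + s else 0) • Lb.c0))).const_smul ((v μ * v ν / ‖v‖ ^ 6 : ℝ) : ℂ)
  convert this using 2 with D
  · simp only [← Complex.coe_smul, map_sum, map_smul, ← e fun l => (n D l : ℂ)⁻¹]
    rfl
  · simp only [zero_smul, add_zero, div_eq_inv_mul _ (‖v‖ ^ 6), Complex.ofReal_mul _⁻¹ (_ * _),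
      mul_smul, smul_comm ((v _ * v _ : ℝ) : ℂ), ← Finset.smul_sum, sum_tl]
    ext i j
    have : YF.pr v i j = Lb.pr v i j := by
      simp only [YF.pr, Lb.pr, YG.mirror, Matrix.det_fin_two, Matrix.submatrix_apply,
        Matrix.sub_apply, Matrix.one_apply, Matrix.smul_apply, Matrix.vecMulVec_apply, smul_eq_mul,
        Matrix.of_apply, Matrix.cons_val_zero, Matrix.cons_val_one]
      ring
    simp only [this, Matrix.of_apply, Matrix.smul_apply, cx, Matrix.map_apply, smul_eq_mul,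
      ← Complex.ofReal_mul]
    rcases eq_or_ne v 0 with rfl | h
    · simp [Lb.pr_zero]
    have := norm_ne_zero_iff.2 h
    congr 1
    field_simp

theorem dim_of {n : ℝ → Cl → ℝ} {M : ℝ → Lab ℂ ≃ₗ[ℂ] Lab ℂ}
    (h : ∀ D c, M D c = dgL (fun t => n D t) c)
    (e : ∀ᶠ D in 𝓝[>] (0 : ℝ), ∀ t, 0 < N t D ∧ n D t = gm * N t D) {P : Lab ℂ → Prop} {t : Cl}
    (hP : ∀ c, P c → pc t c = c) {p : ℝ}
    (a : Tendsto (fun D => log (N t D) / log (log D⁻¹)) (𝓝[>] 0) (𝓝 p)) : YF.Dim M P p := by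
  have g0 : 0 < gm := by
    have := GD.b0_pos
    unfold gm
    positivity
  refine ⟨fun D => n D t, fun D c hc => ?_,
    e.mono fun D e => (mul_pos g0 (e t).1).trans_eq (e t).2.symm, ?_⟩
  · rw [h, ← hP c hc, dgL_eq, Lb.pa_pc, sub_self, smul_zero, add_zero, ← Complex.coe_smul]
    simp only [Lb.pc_pc, smul_ite, smul_zero, Finset.sum_ite_eq', Finset.mem_univ, if_true]
  · have := (((tendsto_log_atTop.comp (tendsto_log_atTop.comp
      tendsto_inv_nhdsGT_zero)).const_div_atTop (log gm)).add a)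
    rw [zero_add] at this
    refine this.congr' (e.mono fun D e => ?_)
    simp only [(e t).2, log_mul g0.ne' (e t).1.ne', add_div, Function.comp]

end Pool.Agent.Lib.MP_7f377f_mp.Cm
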