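import Pool.Agent.Lib.MP_7f377f_mp.G.S21I3
import Pool.Agent.Lib.MP_7f377f_mp.G.S21A1
import Pool.Agent.Lib.MP_7f377f_mp.G.S21Spec
import Pool.Agent.Lib.MP_7f377f_mp.G.S21B1

/-! A topological direction does not change the one loop term. -/

noncomputable section

set_option linter.unusedSectionVars false
variable [Pool.Agent.Lib.MP_7f377f_mp.GD]

namespace Pool.Agent.Lib.MP_7f377f_mp.RG.Q4.Af.Tp

open Finset Real Filter Topology En En.Ty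

theorem pol {ψ ψ' : Fld → ℂ} {η : ℝ}
    (b : ∃ k : CF, (∀ a b, k a b = k b a) ∧ ∀ a b, Q4.q2 ψ a b = k a b)
    (b' : ∃ k : CF, (∀ a b, k a b = k b a) ∧ ∀ a b, Q4.q2 ψ' a b = k a b)
    (h : ∀ k, ‖Fk k‖ ≤ 1 → |(qc ψ' (pt (kF (Fk k))) (pt (kF (Fk k)))).re -
      (qc ψ (pt (kF (Fk k))) (pt (kF (Fk k)))).re| ≤ η) :
    |(qc ψ' (pt (EE (0, 1))) (pt (EE (2, 3)))).re -
      (qc ψ (pt (EE (0, 1))) (pt (EE (2, 3)))).re| ≤ η := by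
  obtain ⟨k, s, e⟩ := b
  obtain ⟨k', s', e'⟩ := b'
  have a1 := abs_le.1 (h (1, 1) (by simp [Fk]))
  have a2 := abs_le.1 (h (1, -1) (by simp [Fk]))
  rw [qc, qc, cc_eq (as_kF _), e, e', kF_Fk] at a1 a2
  simp only [qc, cc_eq (as_EE _), e, e']
  simp only [Int.cast_one, Int.cast_neg, one_smul, neg_smul,
    map_add, map_neg, LinearMap.add_apply, LinearMap.neg_apply, Complex.add_re, Complex.neg_re,
    s (pt (EE (2, 3))) (pt (EE (0, 1))), s' (pt (EE (2, 3))) (pt (EE (0, 1)))] at a1 a2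
  exact abs_le.2 ⟨by linarith, by linarith⟩

theorem flat_of {t t' q : Cf → ℂ} {s C P : ℝ} (e : ∀ U, t' U = t U + s * q U) (s1 : |s| ≤ 1)
    (C1 : 1 ≤ C) (CP : C ≤ P) (h : ∀ (N : Fin 4 → ℕ) [∀ i, NeZero (N i)] F θ (δ : ℝ),
      Bg N F θ → ‖F‖ ≤ δ → C * δ ≤ 1 → ∀ a, ‖a‖ ≤ δ →
        |SS N q (ab θ) a - SS N q (ab θ) 0| ≤ C * Fintype.card (TS N) * δ ^ 30) : Flat P t t' := by
  intro n _ _ F θ φ a hb φ0 hF ha hP
  have k : ∀ a, SS (NN n n) t' (ab θ) a - SS (NN n n) t (ab θ) a = s * SS (NN n n) q (ab θ) a :=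
    fun a => by simp only [SS, e, Complex.add_re, Complex.re_ofReal_mul, sum_add_distrib, mul_sum,
      add_sub_cancel_left]
  have p := (mul_le_mul_of_nonneg_right CP φ0.le).trans hP
  have p1 : φ ≤ 1 := (le_mul_of_one_le_left φ0.le C1).trans p
  rw [k, k, ← mul_sub, abs_mul]
  refine (mul_le_mul s1 (h _ F θ φ hb hF p a ha) (abs_nonneg _) zero_le_one).trans ?_
  rw [one_mul, mul_comm C, mul_assoc]
  exact mul_le_mul_of_nonneg_left (mul_le_mul CP (pow_le_pow_of_le_one φ0.le p1 (by norm_num))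
    (by positivity) (by linarith)) (by positivity)

theorem chw_of {c Kt K0 l n : ℕ} {d : ℕ → Td} {η : ℝ} (η0 : 0 ≤ η)
    (h : ∀ i ≤ n, T1c c Kt K0 l (d i))
    (nx : ∀ i < n, (d (i + 1)).m = (d i).m1 ∧ (d (i + 1)).T = (d i).T1) : Chw c Kt K0 l n η d :=
  ⟨fun i hi => (h i hi).1, fun i hi => (h i hi).2, fun i hi => ⟨1, by simpa, by simpa using nx i hi⟩⟩

theorem chw_sh {c Kt K0 l n i m : ℕ} {d : ℕ → Td} {η η' : ℝ} (h : Chw c Kt K0 l n η d)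
    (hi : i + m ≤ n) (e : η ≤ η') :
    ∃ d' : ℕ → Td, (∀ k, d' k = d (i + k)) ∧ Chw c Kt K0 l m η' d' := by
  obtain ⟨d', hd⟩ : ∃ d' : ℕ → Td, ∀ k, d' k = d (i + k) := ⟨_, fun _ => rfl⟩
  refine ⟨d', hd, fun k _ => ?_, fun k _ => ?_, fun k _ => ?_⟩ <;> simp only [hd, ← add_assoc]
  exacts [h.ex _ (by omega), h.tr _ (by omega),
    (h.nx (i + k) (by omega)).imp fun _ h => ⟨h.1.trans e, h.2⟩]

theorem ref_ex {T : Ty} {e : Pl × Pl} {k : BF} {T1 : Fld → ℂ} (D : Dir T e k T1) (c : ℕ)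
    (tl : TL c) : ∃ a0, ∀ Kt ≥ a0, ∃ a1, ∀ K0 ≥ a1, ∀ K' : ℕ, ∃ l0, ∀ l ≥ l0, ∀ v : ℝ,
      |v - 1| ≤ 10⁻¹ → ∃ (m : BF) (T0 : Fld → ℂ), Cd ((LL l : ℝ) ^ K')⁻¹ m (v • m0) ∧
        ∀ s : ℝ, |s| * LL l ≤ 2 → ∃ d : ℕ → Td, (∀ i ≤ S0 l, T1c c Kt K0 l (d i)) ∧
          (d 0).m = m + s • k ∧ ((d 0).T = fun B => T0 B + s * T1 B) ∧
          ∀ i < S0 l, (d (i + 1)).m = (d i).m1 ∧ (d (i + 1)).T = (d i).T1 := by
  have c1 := tl.1
  obtain ⟨σ, σ0, cb⟩ := D.cb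
  obtain ⟨ρ, C, ρ0, tc⟩ := D.tc
  obtain ⟨l1, ln⟩ := tl.2
  obtain ⟨a0, H0⟩ := (ev_nu c 100).and (tree_step c)
  obtain ⟨a3, H3⟩ := chain_exists_w c c1 tl.2
  refine ⟨a0 + a3, fun Kt h0 => ?_⟩
  obtain ⟨b0, H0⟩ := H0 Kt (by omega)
  obtain ⟨b3, H3⟩ := H3 Kt (by omega)
  refine ⟨b0 + b3 + 1, fun K0 h1 K' => ?_⟩
  obtain ⟨l4, H3⟩ := H3 K0 (by omega)
  obtain ⟨k0, H0⟩ := H0 K0 (by omega)
  obtain ⟨B, hB⟩ : ∃ B, B = 1000 * k0 + K' := ⟨_, rfl⟩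
  obtain ⟨l0, H0⟩ := H0 k0 le_rfl B
  obtain ⟨l6, H5⟩ := eventually_atTop.1 ((ins c c1).and (log_pow_le 2))
  refine ⟨l0 + l1 + l4 + l6 + ⌈10 ^ 11 * σ + 2 * |C| + ρ⁻¹ + 1⌉₊, fun l hl v hv => ?_⟩
  have big : 10 ^ 11 * σ + 2 * |C| + ρ⁻¹ + 1 ≤ LL l := Nat.ceil_le.1 (by unfold LL; omega)
  have C0 := abs_nonneg C
  have ρ1 := inv_pos.2 ρ0
  have L1 : (1 : ℝ) ≤ LL l := by linarith
  obtain ⟨v1, v2⟩ := abs_le.1 hv
  obtain ⟨In, hS⟩ := H5 l (by omega)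
  have SL : S0 l ≤ LL l := by unfold S0 LL at *; omega
  have H0' := fun s => H0 (sdOf ⟨c, Kt, K0, l, v • m0, s, fun B => v * TW B⟩ k0 B)
    (sdOf_ok c1 (by omega)) rfl rfl rfl rfl rfl (show l0 ≤ l by omega)
  have z := (H0' 0).1.tr_zero (v := v) (by linarith) (by linarith) rfl rfl
  obtain ⟨ρ', -, -, ch⟩ := z.ch
  obtain ⟨s, hs⟩ := ln ⟨c, Kt, K0, l, v • m0, 0, fun B => v * TW B⟩ rfl (show l1 ≤ l by omega) 0 ρ'
    v 0 (by linarith) (by linarith) le_rfl (by norm_num) ch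
  obtain ⟨S, nu, st, e1, e2, e3, e4, e5, e6, z1, z2⟩ : ∃ S : Sd, S.Nu 100 ∧ St1 S ∧ S.c = c ∧
      S.Kt = Kt ∧ S.K0 = K0 ∧ S.l = l ∧ S.B = B ∧ S.m = v • m0 ∧ S.Tr S.M 0 v 0 ∧ S.Ln 0 v 0 :=
    ⟨_, (H0' s).1, (H0' s).2, rfl, rfl, rfl, rfl, rfl, rfl,
      (H0' s).1.tr_zero (by linarith) (by linarith) rfl rfl, hs⟩
  refine ⟨(1 : ℝ) • S.m1, fun B => (1 : ℝ) * S.T1 B, ?_, fun s hs => ?_⟩
  · have := (st 0 v 0 1 (by linarith) (by linarith) le_rfl (by norm_num) z1 z2 (by linarith)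
      (by simp)).1
    rw [Td.L, e4, e5, e6] at this
    rw [one_smul]
    exact Cd.mono this (inv_anti₀ (by positivity) (pow_le_pow_right₀ L1 (by omega)))
  have s0 := abs_nonneg s
  have s1 := mul_le_mul_of_nonneg_left big s0
  have s2 := mul_nonneg s0 C0
  have s3 := mul_nonneg s0 ρ1.le
  have s4 := mul_nonneg s0 σ0
  have := In S nu st e1 e4 0 v 0 1 (|s| * σ) (s • k) (fun B => s * T1 B) (by linarith)
    (by linarith) le_rfl (by norm_num) z1 z2 (by rwa [one_mul]) (by simp) s4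
    (by linarith) (fun a b => by simp [D.symm a])
    (fun a b δ δ' ha hb => by
      rw [LinearMap.smul_apply, LinearMap.smul_apply, smul_eq_mul, abs_mul, mul_assoc, mul_assoc]
      exact mul_le_mul_of_nonneg_left ((cb a b δ δ' ha hb).trans_eq (by ring)) s0)
    (((tc.smul s).wide (by have := nu.lens; omega) (by
      linarith [mul_le_mul_of_nonneg_left (le_abs_self C) s0])).shr (by
      rw [Sd.D0_eq, Td.L, e4, e3]
      exact inv_le_of_inv_le₀ ρ0 (le_trans (by linarith) (le_self_pow₀ L1 (by omega)))))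
    (fun B hB => by simp [D.real B hB]) ⟨c, Kt, K0, l, _, 0, _⟩ e2.symm e3.symm e4.symm rfl rfl
  rw [e4] at this
  obtain ⟨d, d1, d2, d3, d4, -⟩ := H3 l (by omega) _ _ _ _ _ (by linarith) (by linarith)
    (by norm_num) (by norm_num) this
  exact ⟨d, fun i hi => ⟨d1.ex i (by omega), d1.tr i (by omega)⟩, d2, d3,
    fun i hi => d4 i (by omega)⟩

theorem afd_q {T : Ty} {k : BF} {T1 : Fld → ℂ} (D : Dir T ((0, 1), (2, 3)) k T1)
    (t : Topd (tf k T1)) : AFD k ((0, 1), (2, 3)) 0 := by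
  intro c tl
  have c1 := tl.1
  obtain ⟨C, C1, top⟩ := t
  obtain ⟨a1, H1⟩ := chain_close_w c c1
  obtain ⟨a2, H2⟩ := chain_drift c c1
  obtain ⟨a3, H3⟩ := ref_ex D c tl
  obtain ⟨a4, H4⟩ := afq_diag c c1
  refine ⟨a1 + a2 + a3 + a4, fun Kt h0 => ?_⟩
  obtain ⟨b1, H1⟩ := H1 Kt (by omega)
  obtain ⟨b2, H2⟩ := H2 Kt (by omega)
  obtain ⟨b3, H3⟩ := H3 Kt (by omega)
  obtain ⟨b4, H4⟩ := H4 Kt (by omega)
  refine ⟨b1 + b2 + b3 + b4, fun K0 h1 => ⟨1, fun K hK => ?_⟩⟩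
  obtain ⟨Ka, hKa⟩ : ∃ Ka, Ka = K * 500 := ⟨_, rfl⟩
  obtain ⟨K1, H1⟩ := H1 K0 (by omega)
  obtain ⟨K', l2, H1⟩ := H1 (Ka + 1)
  obtain ⟨l3, H2⟩ := H2 K0 (by omega) (K' + 1)
  obtain ⟨l4, H3⟩ := H3 K0 (by omega) (K' + 1)
  obtain ⟨l5, H4⟩ := H4 K0 (by omega) (Ka + 1) 1 1
  refine ⟨K' + 1 + 2, l2 + l3 + l4 + l5 + ⌈C + 10⌉₊, fun _ => 0, by simp, fun l hl v hv => ?_⟩
  have big : C + 10 ≤ LL l := Nat.ceil_le.1 (by unfold LL; omega)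
  have L1 : (10 : ℝ) ≤ LL l := by linarith
  have pw : ∀ i j, i ≤ j → ((LL l : ℝ) ^ j)⁻¹ ≤ ((LL l : ℝ) ^ i)⁻¹ := fun i j h =>
    inv_anti₀ (by positivity) (pow_le_pow_right₀ (by linarith) h)
  have pw1 : ∀ i, 10 * ((LL l : ℝ) ^ (i + 1))⁻¹ ≤ ((LL l : ℝ) ^ i)⁻¹ := fun i => by
    rw [pow_succ, mul_inv, mul_left_comm]
    exact mul_le_of_le_one_right (by positivity) ((div_le_one (by linarith)).2 L1)
  obtain ⟨v1, v2⟩ := abs_le.1 hv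
  obtain ⟨m, T0, cd, ex⟩ := H3 l (by omega) v hv
  obtain ⟨r, r1, r2, r3, r4⟩ := ex 0 (by simp)
  refine ⟨(qc (r (S0 l)).ol (pt (EE (0, 1))) (pt (EE (2, 3)))).re, fun n hn d ε h nL hε c0 => ?_⟩
  have ε1 : |v * ε| * LL l ≤ 2 := by
    rw [← pow_mul] at hε
    have := hε.trans (pw 1 _ (by omega))
    rw [pow_one, ← one_div, le_div_iff₀ (by linarith)] at this
    rw [abs_mul, abs_of_pos (by linarith), mul_assoc]
    exact (mul_le_of_le_one_right (by linarith) this).trans (by linarith)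
  obtain ⟨r', s1, s2, s3, s4⟩ := ex _ ε1
  obtain ⟨q1, kr, -, k1, -, k2, -⟩ := H4 l (by omega) (S0 l) (by omega) r r' r1 s1 r4 s4
    (flat_of (s := v * ε) (fun U => by
      simp only [tf, r2, r3, s2, s3, cx_add, cx_smul]; push_cast; ring)
      (by linarith [mul_le_mul_of_nonneg_left L1 (abs_nonneg (v * ε)), abs_nonneg (v * ε)]) C1
      (by linarith) top)
  obtain ⟨-, kd, -, k3, -, k4, -⟩ := H4 l (by omega) 0 (by omega) (fun _ => d n) (fun _ => d n)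
    (fun _ _ => ⟨h.ex n le_rfl, h.tr n le_rfl⟩) (fun _ _ => ⟨h.ex n le_rfl, h.tr n le_rfl⟩)
    (by simp) (by simp) (flat_of (s := 0) (fun U => by simp) (by simp) C1 (by linarith) top)
  obtain ⟨d', hd, h'⟩ := chw_sh h (i := n - S0 l) (m := S0 l) (by omega) (pw K' _ (by omega))
  obtain ⟨-, -, q2⟩ := H1 l (by omega) d' r' h' (chw_of (by positivity) s1 s4) fun a ha => by
      have b1 := abs_le.1 (H2 l (by omega) n nL d h (n - S0 l) (by omega) a ha)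
      have b2 := abs_le.1 ((Cd.mono c0 (pw (K' + 1) _ (by omega))) a ha)
      have b3 := abs_le.1 (cd a ha)
      have b4 := mul_le_mul_of_nonneg_right (pw1 K') (Li.nd_nonneg a 0)
      have b5 := mul_nonneg (by positivity : 0 ≤ ((LL l : ℝ) ^ (K' + 1))⁻¹) (Li.nd_nonneg a 0)
      simp only [hd, s2, add_zero, smul_add, smul_smul, LinearMap.add_apply,
        LinearMap.smul_apply, smul_eq_mul] at b2 b3 ⊢
      exact abs_le.2 ⟨by linarith, by linarith⟩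
  rw [hd, Nat.sub_add_cancel hn] at q2
  rw [mul_zero, add_zero, ← pow_mul, ← hKa]
  refine pol ⟨kr, k1, k2⟩ ⟨kd, k3, k4⟩ fun j hj => ?_
  have b1 := abs_le.1 (q1 j hj _ fun μ ν => by rw [dd_pt (as_kF _)])
  have b2 := abs_le.1 ((Complex.abs_re_le_norm _).trans
    (q2 _ ((En.cv_pt (as_kF (Fk j)) 0).mono le_rfl ((norm_kF _).trans hj))))
  have b3 := pw1 Ka
  have b4 : 0 ≤ ((LL l : ℝ) ^ (Ka + 1))⁻¹ := by positivity
  rw [Complex.sub_re] at b2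
  exact abs_le.2 ⟨by linarith, by linarith⟩

end Pool.Agent.Lib.MP_7f377f_mp.RG.Q4.Af.Tp
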