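import Pool.Agent.Lib.MP_7f377f_mp.G.YOMain
import Pool.Agent.Lib.MP_7f377f_mp.G.S21K
import Pool.Agent.Lib.MP_7f377f_mp.G.S21D3
import Pool.Agent.Lib.MP_7f377f_mp.G.S21E3
import Pool.Agent.Lib.MP_7f377f_mp.G.S21C
import Pool.Agent.Lib.MP_7f377f_mp.G.S21A4
import Pool.Agent.Lib.MP_7f377f_mp.G.S21Q
import Pool.Agent.Lib.MP_7f377f_mp.G.S21G3

/-! The anomalous dimensions along a run. -/

noncomputable section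

set_option linter.unusedSectionVars false
variable [Pool.Agent.Lib.MP_7f377f_mp.GD]

namespace Pool.Agent.Lib.MP_7f377f_mp.RG.Q4

open YM7 Filter Topology Real Pur En En.Ty

theorem dirs : ∃ kq Tq kw Tw, Q4.Dir T1' ((0, 1), (2, 3)) kq Tq ∧ AFD kq ((0, 1), (2, 3)) 0 ∧
    Q4.Dir T2s ((0, 1), (0, 1)) kw Tw ∧ AFD kw ((0, 1), (0, 1)) (18 * GD.b0 / (48 * π ^ 2)) :=
  ⟨_, _, _, _, Ch2.dir_q, Af.Tp.afd_q Ch2.dir_q Ch2.top_q, dir_w, Af.afd_w⟩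

theorem En.Rn.anom {G : Gl} {β : ℕ × ℕ → ℝ} {U : Ultrafilter (ℕ × ℕ)}
    {S₀ : ∀ {k : ℕ}, (Fin k → R4 → ℝ) → ℝ} {S : Pol →ₗ[ℂ] ℂ} (R : Rn G β U S₀ S) {kq kw : BF}
    {Tq Tw : Fld → ℂ} (d1 : Q4.Dir T1' ((0, 1), (2, 3)) kq Tq)
    (a1 : AFd kq ((0, 1), (2, 3)) 0 G.c G.Kt G.K0 G.K) (d2 : Q4.Dir T2s ((0, 1), (0, 1)) kw Tw)
    (a2 : AFd kw ((0, 1), (0, 1)) (18 * GD.b0 / (48 * π ^ 2)) G.c G.Kt G.K0 G.K) {h : R4 → ℝ}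
    {ω : ∀ l : Lb.Cl, (Fin l.m → R4) → Lb.Lab ℝ} {Λ δ K : ℝ} {L : Lb.Cl → ℕ → ℝ}
    {N : Lb.Cl → ℝ → ℝ} (H : Cm.Dat (GD.d / 2) h ω Λ δ)
    (Q : Cm.Res S K (atTop.curry Cm.UU) (Cm.Oa h ω S L) N) :
    Tendsto (fun D => log (N .q D) / log (log D⁻¹)) (𝓝[>] 0) (𝓝 1) ∧
      Tendsto (fun D => log (N .w D) / log (log D⁻¹)) (𝓝[>] 0) (𝓝 (-7 / 11)) := by
  have := GD.b0_pos
  obtain ⟨γ, g, r⟩ := rf_of R.ok a1 d1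
  obtain ⟨γ', g', r'⟩ := rf_of R.ok a2 d2
  exact ⟨(R.expo .q (Gl.ref_q R.ok g (fun m => (R.ok m).1.pb_rq _) r) H Q).trans_eq
    (by rw [zero_div, sub_zero]), (R.expo .w2 (Gl.ref_w R.ok g' (fun m => (R.ok m).1.pb_rq _)
      r').1 H Q).trans_eq (congrArg _ (by field_simp; norm_num))⟩

end Pool.Agent.Lib.MP_7f377f_mp.RG.Q4
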