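import Pool.Agent.Lib.MP_7f377f_mp.G.S21Ma
import Pool.Agent.Lib.MP_7f377f_mp.G.S21Mb

/-! The fields of dimension four, their products and their anomalous dimensions. -/

noncomputable section

namespace Pool.Agent.Lib.MP_7f377f_mp.YF

open MeasureTheory Filter Topology Real MvPolynomial Matrix

/-- the conclusion for lattice expectations `V` of polynomials in the scalar field -/
def OutMR (V : ℝ → ℕ+ → ℝ → YG.Fp → ℂ) (c₁ q : ℝ) (d : ℕ) : Prop :=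
  ∃ (n : ℕ → ℕ+) (a b : ℕ → ℝ) (S : YG.Fp → ℂ) (W : Fp → ℂ) (r : ℕ → ℕ)
    (B : ∀ j, Fin (r j) → YG.Fp),
    Tendsto a atTop (𝓝[>] 0) ∧ Tendsto (fun j => a j * n j) atTop atTop ∧
    Tendsto (fun j => b j / log (a j)⁻¹) atTop (𝓝 c₁) ∧
    (∀ (j : ℕ) i, B j i ∈ YG.Loc (YG.Fut 0 j)) ∧
    (∀ Z ∈ YG.Loc Set.univ, Tendsto (fun j => V (b j) (n j) (a j) Z) atTop (𝓝 (S Z)) ∧
      Tendsto (fun j => S (YG.ins (B j) Z)) atTop (𝓝 (W (em Z))) ∧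
        ∀ᶠ j in atTop, YG.ins (B j) Z ∈ YG.Loc Set.univ) ∧
    Wightman W ∧ (∃ M, AFM q d W M ∧ StressM q W M ∧ Dim M Alt 1 ∧ Dim M Weyl (-7 / 11)) ∧
      Hom W ∧ NG W

/-- the conclusion of the final theorem -/
def OutFR (V : ℝ → ℕ+ → ℝ → Fp → ℂ) (c₁ q : ℝ) (d : ℕ) : Prop :=
  ∃ (n : ℕ → ℕ+) (a b : ℕ → ℝ) (S W : Fp → ℂ) (r : ℕ → ℕ) (B : ∀ j, Fin (r j) → Fp),
    Tendsto a atTop (𝓝[>] 0) ∧ Tendsto (fun j => a j * n j) atTop atTop ∧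
    Tendsto (fun j => b j / log (a j)⁻¹) atTop (𝓝 c₁) ∧
    (∀ (j : ℕ) i, B j i ∈ Loc {y | j < y 0}) ∧
    (∀ Z ∈ Loc Set.univ, Tendsto (fun j => V (b j) (n j) (a j) Z) atTop (𝓝 (S Z)) ∧
      Tendsto (fun j => S (ins (B j) Z)) atTop (𝓝 (W Z)) ∧
        ∀ᶠ j in atTop, ins (B j) Z ∈ Loc Set.univ) ∧
    Wightman W ∧ (∃ M, AFM q d W M ∧ StressM q W M ∧ Dim M Alt 1 ∧ Dim M Weyl (-7 / 11)) ∧ NG W

theorem OutMR.fin {V : ℝ → ℕ+ → ℝ → YG.Fp → ℂ} {V' : ℝ → ℕ+ → ℝ → Fp → ℂ} {c₁ q c : ℝ} {d : ℕ}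
    (h : OutMR V c₁ q d) (hc : 0 < c)
    (e : ∀ b n a Z, V' (c * b) n a Z = V b n a (YG.sc c⁻¹ (rename Prod.snd Z))) :
    OutFR V' (c * c₁) (c⁻¹ * q) d := by
  obtain ⟨n, a, b, S, W, r, B, h1, h2, h3, h4, h5, h6, ⟨M, h7, h8, h0⟩, h9, f, Y, g1, g2, g3,
    g4⟩ := h
  have e1 : ∀ j Z, YG.sc c⁻¹ (YG.ins (fun i => YG.sc c (B j i)) Z) = YG.ins (B j) (YG.sc c⁻¹ Z) :=
    fun j Z => by simp only [YG.sc_ins, YG.sc_sc, inv_mul_cancel₀ hc.ne', YG.sc_one]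
  have e2 : ∀ Z, scL c⁻¹ (scL c Z) = Z := fun Z => by
    simp only [scL, rename_rename, Function.comp_def, inv_smul_smul₀ hc.ne']
    exact rename_id_apply Z
  refine ⟨n, a, fun j => c * b j, fun Z => S (YG.sc c⁻¹ (rename Prod.snd Z)),
    fun Z => W (scL c⁻¹ Z), r, fun j i => em (YG.sc c (B j i)), h1, h2,
    by simpa only [mul_div_assoc] using h3.const_mul c,
    fun j i => loc_iff.2 ⟨_, YG.sc_loc (h4 j i), rfl⟩, fun Z hZ => ?_,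
    h6.sc (inv_ne_zero hc.ne'),
    ⟨M, h7.sc h9 (inv_ne_zero hc.ne'), h8.sc h9 (inv_ne_zero hc.ne'), h0⟩,
    fun i => c • f i, fun i => scL c (Y i), YG.Adm.smul g1,
    fun i j o x hx y hy => g2 i j o x (YG.ts_smul _ hx) y (YG.ts_smul _ hy), fun i => ?_,
    by simpa only [map_mul, e2] using g4⟩
  · obtain ⟨Y, hY, rfl⟩ := loc_iff.1 hZ
    obtain ⟨a1, a2, a3⟩ := h5 _ (YG.sc_loc (c := c⁻¹) hY)
    simp only [e, em_ins, snd_em, e1, scL_em]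
    refine ⟨a1, a2, a3.mono fun j hj => loc_iff.2 ⟨_, ?_, rfl⟩⟩
    have := YG.sc_loc (c := c) hj
    rwa [← e1, YG.sc_sc, mul_inv_cancel₀ hc.ne', YG.sc_one] at this
  · simp only [g3, map_sub, ← scL_phi, e2]
    exact congrArg _ (rename_C _ _)

theorem outMR [GD] [MeasurableSpace GD.G] (h : Measure GD.G) [BorelSpace GD.G] [h.IsHaarMeasure]
    [IsProbabilityMeasure h] : OutMR (fun b n a Z => YM7.vev h b n a Z)
      (11 * GD.b0 / (48 * π ^ 2)) (48 / (11 * GD.b0)) GD.d := by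
  have := GD.b0_pos
  have : 0 < GD.d := GD.d3.trans_lt' three_pos
  obtain ⟨kq, Tq, kw, Tw, d1, a1, d2, a2⟩ := RG.Q4.dirs
  obtain ⟨n, a, b, S, e1, e2, e3, e4, G, β, U, S₀, R, a1, a2⟩ := RG.Q4.En.out_runA a1 a2 h
  have hS := R.inp
  obtain ⟨W, w1, hD, hV, hR⟩ := hS.pure_rot R.rot
  have hW := hS.dom hD w1
  obtain ⟨r, B, b1, b2⟩ := hS.ins w1 hD
  obtain ⟨H, _, _, _, hq⟩ := hW.quantum hV
  obtain ⟨h₀, D, M, T, I, o, c, -⟩ := R.main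
  obtain ⟨K, u, ω, Λ, δ, L, N, A, J, L0, L1, Q, P⟩ := Cm.res2 R
  obtain ⟨p, W', p', o', k1, k2, k3, k4⟩ := Wv.lab_four2 (Q.inl.dom hD) (Lm.Bas.dom Q.phi hD) hW.lin
    hW.st hR hq (by positivity) (by positivity) YM5.free_two hW.af
  obtain ⟨q, q1, -⟩ := Wm.rep_of hW.st hq
  obtain ⟨E, q2, q3, -⟩ := Wm.sA_of Wm.sA1_of Wm.sA2_of Wm.sA3_of Wm.sA4_of H q.T q1
    (Wm.sB0_of H W q hW.st hR q1)
  obtain ⟨z, hz⟩ := Cm.idt A J L0 L1 Q o c I.ts.rd I.ts.ne ⟨w1, hD, hR⟩ hW q (Wm.B1.rs q q2 q3)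
    o' k1 k2 k3
  have q0 : 0 < Ope.qc := by rw [Ope.qc]; positivity
  obtain ⟨s1, s2⟩ := Cm.stress_lab o c (by positivity) ⟨w1, hD, hR⟩ o' k1 hz
  obtain ⟨f, Y, g1, -, g2, g3, g4⟩ := Wm.non_gauss_ord (W := W' ∘ₗ em.toLinearMap)
    ((k1 1 (Pur.net.one _)).trans w1) (by positivity) fun k f hf => (hW.af k f hf).congr'
      (eventually_mem_nhdsWithin.mono fun d (d0 : 0 < d) => congrArg _ (k1 _
        (Pur.mon_mem (hf.smul (inv_ne_zero d0.ne')) fun _ => Set.subset_univ _)).symm)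
  obtain ⟨x1, x2⟩ := R.anom d1 a1 d2 a2 A Q
  refine ⟨n, a, b, S, W', r, B, e1, e2, e3, b1, fun Z hZ => ⟨e4 Z hZ, ?_⟩, wightman_of k4,
    (Q.afx hD hW.st k3 (by norm_num) (fun n hn a b u hu => (P n hn a b u hu).lim hu
      tendsto_snd_curry (Q.inl.dom hD) (Lm.Bas.dom Q.phi hD) hW.lin hW.st hR hq hD k2)
      (fun r f g e => ?_) s1).elim fun _ => .imp fun _ e => ⟨e.2.2.1, e.2.2.2,
        Cm.dim_of e.1 e.2.1 (fun _ => Lb.alt_pc) x1, Cm.dim_of e.1 e.2.1 (fun _ => Lb.weyl_pc) x2⟩,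
    s2, f, fun i => em (Y i), g1, g2, fun i => by simp [g3, em, phi], by simpa using g4⟩
  · exact (k1 Z hZ).symm ▸ b2 Z hZ
  have c : Wm.C1 Set.univ f := ⟨(e.1 0).1, (e.1 0).2, Set.subset_univ _⟩
  have x := o'.lin Lb.c0 f f (r - 1) c c _ ((Lm.gen_netL _).mem (g := g) ⟨(e.1 1).1, (e.1 1).2,
    (Set.union_self _).symm ▸ (e.2 zero_ne_one).subset_compl_left⟩ Lb.c0)
  rw [sub_smul, one_smul, add_sub_cancel] at x
  push_cast at x
  exact x.trans (by rw [sub_mul, one_mul, add_sub_cancel]; rfl)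

theorem outFR [GD] {N : ℕ} (ρ : GD.G →* Matrix.unitaryGroup (Fin N) ℂ) (hρ : Continuous ρ)
    (hi : Function.Injective ρ) (hn : GD.n = N + N)
    (ht : ∀ a, (GD.rho a).trace = 2 * (ρ a).1.trace.re) [MeasurableSpace GD.G] (h : Measure GD.G)
    [BorelSpace GD.G] [h.IsHaarMeasure] [IsProbabilityMeasure h] {c : ℝ}
    (hc : c = 2 * (GD.b0 * GD.t ^ 2)) :
    OutFR (fun b n a Z => vev ρ h b n a Z) (11 * c / (24 * π ^ 2)) (24 / (11 * c)) GD.d := by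
  have := GD.b0_pos
  have := YM5.t_pos
  convert (outMR h).fin (V' := fun b n a Z => vev ρ h b n a Z) YG.t4_pos fun b n a Z =>
    (vev_snd h ρ hρ hi _ n a Z).trans (YG.vev_eq ρ hn ht h b a _) using 1 <;> rw [hc] <;>
      field_simp <;> ring

attribute [local instance 100] LieRing.ofAssociativeRing

theorem mainFR (G : Type) [Group G] [TopologicalSpace G] [IsTopologicalGroup G]
    [CompactSpace G] [m : MeasurableSpace G] [s : BorelSpace G] (h : Measure G) [i : h.IsHaarMeasure]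
    [p : IsProbabilityMeasure h] {N : ℕ} (ρ : G →* Matrix.unitaryGroup (Fin N) ℂ)
    (hρ : Continuous ρ) (hi : Function.Injective ρ) (L : LieSubalgebra ℝ (Matrix (Fin N) (Fin N) ℂ))
    [LieAlgebra.IsSimple ℝ L] (hL : ∀ X, X ∈ L ↔ ∀ s : ℝ, ∃ g, (ρ g).1 = NormedSpace.exp (s • X)) :
    ∃ c > (0 : ℝ), (∀ X Y : L, killingForm ℝ L X Y = c * (X.1 * Y.1).trace.re) ∧
      OutFR (fun b n a Z => vev ρ h b n a Z) (11 * c / (24 * π ^ 2)) (24 / (11 * c))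
        (Module.finrank ℝ L) := by
  obtain ⟨ρ', g, φ, c1, c2, c3, c4, c5, c6, c7, c8⟩ := GE.realify ρ hρ hi L hL
  have k := GE.mkGD_c G ((Submonoid.subtype _).comp ρ') (continuous_subtype_val.comp c1)
    (fun a => (ρ' a).2.1) (Subtype.val_injective.comp c2) g c3
  let D := GE.mkGD G ((Submonoid.subtype _).comp ρ') (continuous_subtype_val.comp c1)
    (fun a => (ρ' a).2.1) (Subtype.val_injective.comp c2) g c3
  have := GD.b0_pos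
  have := GD.t_pos
  refine ⟨2 * (GD.b0 * GD.t ^ 2), by positivity, fun X Y => ?_,
    c8 ▸ @outFR D N ρ hρ hi rfl c5 m h s i p _ rfl⟩
  rw [← c7, k, c6]
  ring

end Pool.Agent.Lib.MP_7f377f_mp.YF
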