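import Pool.Agent.Lib.MP_7f377f_mp.G.S21D0

/-! Typed tangents in the sharp class: the flux side. -/

noncomputable section

set_option linter.unusedSectionVars false
variable [Pool.Agent.Lib.MP_7f377f_mp.GD]

namespace Pool.Agent.Lib.MP_7f377f_mp.RG.Q4.En

open Finset Real Sg Ty

/-- the polarised response as one difference -/
def rq (n : ℕ) (x : ℝ) (e : Pl × Pl) (F : Conf → ℝ) : ℝ :=
  (F (ab (fp n x e.1 - fp n x e.2)) - F (ab (fp n x e.1 + fp n x e.2))) / (4 * (n ^ 4 * tq n x ^ 2))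

variable {n : ℕ} {x D D' α η : ℝ} {T : Ty} {E : List (Pl × Pl)} {e : Pl × Pl} {ϑ ϑ' : Lk → Ang}

theorem Fx.sub {F F' : Mt} (h : Fx n F ϑ) (h' : Fx n F' ϑ') : Fx n (F - F') (ϑ - ϑ') :=
  ⟨fun μ => funext fun e => congrArg₂ (· - ·) (congrFun (h.1 μ) e) (congrFun (h'.1 μ) e),
    fun x μ ν => by rw [RG.dd_sub, h.2, h'.2]; rfl⟩

theorem As.sub {F F' : Mt} (h : As F) (h' : As F') : As (F - F') := fun μ ν => by
  simp only [Pi.sub_apply, h μ ν, h' μ ν]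
  ring

theorem mt_sub (g : Gn) (F F' : Mt) : Ty.mt g (F - F') = Ty.mt g F - Ty.mt g F' := by
  rw [eq_sub_iff_add_eq, ← mt_add, sub_add_cancel]

theorem fx_pm (hn : n ≠ 0) (x : ℝ) (p q : Pl) :
    Fx n (tq n x • (EE p + EE q)) (fp n x p + fp n x q) ∧
      Fx n (tq n x • (EE p - EE q)) (fp n x p - fp n x q) :=
  ⟨smul_add (tq n x) (EE p) _ ▸ (fx_fp hn x p).add (fx_fp hn x q),
    smul_sub (tq n x) (EE p) _ ▸ (fx_fp hn x p).sub (fx_fp hn x q)⟩

theorem norm_pm (p q : Pl) : ‖EE p + EE q‖ ≤ 2 ∧ ‖EE p - EE q‖ ≤ 2 :=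
  ⟨(norm_add_le_of_le (norm_EE p) (norm_EE q)).trans_eq (by norm_num),
    (norm_sub_le_of_le (norm_EE p) (norm_EE q)).trans_eq (by norm_num)⟩

/-- the two fields of the probe -/
theorem fw_pm (hn : n ≠ 0) (t0 : 0 < tq n x) (p q : Pl) :
    Fw n x (fp n x p + fp n x q) ∧ Fw n x (fp n x p - fp n x q) :=
  ⟨fw_of t0 ((as_EE p).add (as_EE q)) (norm_pm p q).1 (fx_pm hn x p q).1,
    fw_of t0 ((as_EE p).sub (as_EE q)) (norm_pm p q).2 (fx_pm hn x p q).2⟩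

theorem Fw.an (h : Fw n x ϑ) (g : Gn) : Fw n x (an g ϑ) := by
  cases g
  exacts [h.pm _, h.rf _]

theorem Fw.zero (h : Fw n x ϑ) : Fw n x 0 :=
  let ⟨_, _, b, _⟩ := h
  ⟨0, fun _ _ => by simp, norm_zero.trans_le ((norm_nonneg _).trans b), fx_zero⟩

theorem Aty.congr {F H : Conf → ℝ} (a : Aty n x D T F)
    (e : ∀ ϑ, Fw n x ϑ → H (ab ϑ) = F (ab ϑ)) : Aty n x D T H := fun ϑ h g hg => by
  rw [e _ h, e _ (h.an _), e _ h.zero]
  exact a ϑ h g hg

theorem Aty.mono {F : Conf → ℝ} (a : Aty n x D T F) (h : D ≤ D') : Aty n x D' T F :=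
  fun ϑ c g hg => (a ϑ c g hg).trans (by gcongr)

theorem Aty.sub {F H : Conf → ℝ} (a : Aty n x D T F) (a' : Aty n x D' T H) :
    Aty n x (D + |α| * D') T fun U => F U - α * H U := fun ϑ h g hg => by
  have h1 := a ϑ h g hg
  have h2 := mul_le_mul_of_nonneg_left (a' ϑ h g hg) (abs_nonneg α)
  rw [← abs_mul] at h2
  refine le_of_eq_of_le (congrArg _ ?_) ((abs_sub _ _).trans ((add_le_add h1 h2).trans_eq ?_)) <;> ring

theorem aty_of_sgn {f f' : Conf → ℂ} (s : Sym n f) (s' : Sgn n T f') : Aty n x 0 T (lg f f') :=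
  fun ϑ h g hg => by
  have a : ∀ ϑ, Fw n x ϑ → lg f f' (ab (an g.1 ϑ)) = sb g.2 * lg f f' (ab ϑ) := fun ϑ h => by
    rw [lg, lg, ab_an, sym_cf s _ h.per, s' g hg _ h.per, mul_div_assoc, ← Complex.ofReal_intCast,
      Complex.re_ofReal_mul]
  have b := a 0 h.zero
  rw [an_zero] at b
  rw [a ϑ h, mul_sub, ← b]
  simp

theorem rq_sub (F H : Conf → ℝ) : rq n x e (fun U => F U - α * H U) = rq n x e F - α * rq n x e H := by
  simp only [rq]
  ring

theorem rq_congr {F H : Conf → ℝ} (hn : n ≠ 0) (t0 : 0 < tq n x)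
    (h : ∀ ϑ, Fw n x ϑ → H (ab ϑ) = F (ab ϑ)) : rq n x e H = rq n x e F := by
  rw [rq, rq, h _ (fw_pm hn t0 _ _).1, h _ (fw_pm hn t0 _ _).2]

theorem aty_def {G : Conf → ℝ} {k : BF} {c : ℝ} (hn : n ≠ 0) (t0 : 0 < tq n x)
    (hs : ∀ a b, k a b = k b a) (H : ∀ F ϑ, As F → ‖F‖ ≤ 2 * tq n x → Fx n F ϑ →
      |G (ab ϑ) - c + n ^ 4 * k (pt F) (pt F)| ≤ η * tq n x ^ 2 * n ^ 4) :
    (∀ e, |rq n x e G - k (pt (EE e.1)) (pt (EE e.2))| ≤ η / 2) ∧
      (Aty n x D T G → ∀ g ∈ T, ∀ p q, |k (pt (Ty.mt g.1 (EE p))) (pt (Ty.mt g.1 (EE q))) -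
        sb g.2 * k (pt (EE p)) (pt (EE q))| ≤ 2 * η + D / 2) := by
  have f1 := fx_pm hn x
  have f2 := fw_pm hn t0
  unfold rq Aty
  generalize Fw n x = W, tq n x = t at *
  have n0 : (0 : ℝ) < n ^ 4 * t ^ 2 := by positivity
  have a : ∀ {F ϑ}, As F → ‖F‖ ≤ 2 → Fx n (t • F) ϑ →
      |G (ab ϑ) - c + n ^ 4 * t ^ 2 * k (pt F) (pt F)| ≤ n ^ 4 * t ^ 2 * η := fun hF h1 h2 => by
    have := H _ _ (hF.smul t) (by
      rw [norm_smul, norm_of_nonneg t0.le, mul_comm]; gcongr) h2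
    simp only [map_smul, LinearMap.smul_apply, smul_eq_mul] at this
    convert this using 1
    · congr 1; ring
    · ring
  have a0 := abs_le.1 (a (F := 0) (fun _ _ => by simp) (by simp) (by simpa using fx_zero))
  simp only [map_zero, mul_zero, add_zero] at a0
  have pol : ∀ F F' : Mt, k (pt (F + F')) (pt (F + F')) =
      k (pt (F - F')) (pt (F - F')) + 4 * k (pt F) (pt F') := fun F F' => by
    simp only [map_add, map_sub, LinearMap.add_apply, LinearMap.sub_apply, hs (pt F')]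
    ring
  refine ⟨fun e => ?_, fun hG g hg p q => ?_⟩
  · have a1 := abs_le.1 (a ((as_EE _).add (as_EE _)) (norm_pm _ _).1 (f1 e.1 e.2).1)
    have a2 := abs_le.1 (a ((as_EE _).sub (as_EE _)) (norm_pm _ _).2 (f1 e.1 e.2).2)
    have n1 : (0 : ℝ) < 4 * (n ^ 4 * t ^ 2) := by positivity
    rw [pol] at a1
    rw [abs_le, le_sub_iff_add_le, le_div_iff₀ n1, sub_le_iff_le_add, div_le_iff₀ n1]
    constructor <;> linarith
  · have b : ∀ {F ϑ}, As F → ‖F‖ ≤ 2 → Fx n (t • F) ϑ → W ϑ →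
        |k (pt (Ty.mt g.1 F)) (pt (Ty.mt g.1 F)) - sb g.2 * k (pt F) (pt F)| ≤ 4 * η + D :=
      fun h1 h2 h3 h4 => by
      have a1 := abs_le.1 (a h1 h2 h3)
      have a2 := abs_le.1 (a (as_mt h1 g.1) ((norm_mt g.1).trans h2) (mt_smul g.1 t _ ▸ fx_an h3 g.1))
      have a3 := abs_le.1 (hG _ h4 g hg)
      generalize g.2 = χ at *
      cases χ <;> simp only [sb, if_true, Bool.false_eq_true, if_false] at a3 ⊢ <;>
        push_cast at a3 ⊢ <;>
        refine abs_le.2 ⟨le_of_mul_le_mul_left ?_ n0, le_of_mul_le_mul_left ?_ n0⟩ <;> linarith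
    have b1 := abs_le.1 (b ((as_EE _).add (as_EE _)) (norm_pm _ _).1 (f1 p q).1 (f2 p q).1)
    have b2 := abs_le.1 (b ((as_EE _).sub (as_EE _)) (norm_pm _ _).2 (f1 p q).2 (f2 p q).2)
    rw [mt_add, pol, pol] at b1
    rw [mt_sub] at b2
    exact abs_le.2 ⟨by linarith, by linarith⟩

theorem prb_rq (hn : n ≠ 0) (t0 : 0 < tq n x) (e : Pl × Pl) : Prb9 n x e (rq n x e) :=
  ⟨fun _ _ _ => rq_sub _ _, fun _ _ _ _ hs H => by
    have := (aty_def (D := 0) (T := []) hn t0 hs H).1 e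
    linarith [abs_nonneg (rq n x e _ - _) |>.trans this]⟩

namespace Gl

/-- the measured marginal part -/
def ry (G : Gl) (R : ℕ → (Conf → ℝ) → ℝ) (b : ℝ) (J k : ℕ) (f' : Conf → ℂ) : ℝ :=
  R k (lg (G.f b J k) f')

/-- a family of probes with the best precision -/
def Pb9 (G : Gl) (e : Pl × Pl) (R : ℕ → (Conf → ℝ) → ℝ) : Prop := ∀ k, Prb9 (G.N k) (G.fx k) e (R k)

variable {G : Gl} {b y c β : ℝ} {J i j k : ℕ} {d w : Lx × Ac} {f' w' : Conf → ℂ}
  {R : ℕ → (Conf → ℝ) → ℝ}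

theorem Pb9.lin (hR : G.Pb9 e R) (f' g' : Conf → ℂ) (α : ℝ) :
    G.ry R b J k (fun U => f' U - α * g' U) = G.ry R b J k f' - α * G.ry R b J k g' := by
  rw [ry, lg_sub, (hR k).lin]
  rfl

theorem Ok.pb_rq (h : G.Ok) (e : Pl × Pl) : G.Pb9 e fun k => rq (G.N k) (G.fx k) e :=
  fun k => prb_rq (h.N_odd k).pos.ne' (h.tq0 k) e

namespace Ok

variable (h : G.Ok) (A : G.Tu b J)
include h A

theorem aty_tt (mf : Measurable f') (s : Sgn (G.N i) T f') (hk : k ≤ i) :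
    Aty (G.N k) x 0 T (lg (G.f b J k) (G.tt f' i k)) :=
  aty_of_sgn ((h.f_facts J k).1 b A.b0).2.1 (h.sgn_tt mf s hk)

/-- the flux lemma along the run -/
theorem ty_fd (hk : k ≤ J) (a : G.Tr b J k x y d f') :
    (∀ e R, G.Pb9 e R → |G.ry R b J k f' - (qc (d.1 0) (pt (EE e.1)) (pt (EE e.2))).re| ≤
      G.ep k / 1000 * (x + y)) ∧ ∀ T E c D, Det T E → 0 ≤ c → 0 ≤ D →
        Aty (G.N k) (G.fx k) D T (lg (G.f b J k) f') →
        (∀ e ∈ E, |(qc (d.1 0) (pt (EE e.1)) (pt (EE e.2))).re| ≤ c) →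
          nb (d.1 0) ≤ 64 * c + G.ep k / 2 * (x + y) + 128 * D := by
  have g := A.gd k hk
  have Q0 := h.Q0 k
  obtain ⟨x0, y0⟩ := h.tn_nn a
  have e : 5 * (G.Q k ^ 250) ^ 2 * √(G.g k) * (x + y) ≤ G.ep k / 2000 * (x + y) := by
    rw [ep, pow_succ _ 500, mul_div_right_comm, ← pow_mul]
    gcongr
    nlinarith only [h.cQ k (C := 10000) (by norm_num), pow_pos Q0 500]
  obtain ⟨κ, c0, a1, a2, a3⟩ := (h.lf g.tz).fd0 (b := (G.zz b J k).d) (P := G.Q k ^ 250)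
    (h.sz_sl g.dt.sz _) (h.sz_sl a.sz _) (h.re_sl a.re _) a.rt (h.f_ne A k _)
    (h.u_g k (by linarith [h.u_one k])) le_rfl le_rfl
    ((mul_le_mul_of_nonneg_right (pow_le_pow_right₀ (h.Q1 k) (by norm_num))
      (sqrt_nonneg _)).trans (h.Qsg k)) (pow_le_pow_right₀ (h.Q1 k) (by norm_num))
    ((pow_mul _ _ _).ge.trans ((pow_le_pow_right₀ (h.Q1 k) (by norm_num)).trans (h.Qb k)))
  rw [h.sl_nf] at a3
  have a4 := fun F ϑ h1 h2 h3 => (a3 F ϑ h1 h2 h3).trans (mul_le_mul_of_nonneg_right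
      (mul_le_mul_of_nonneg_right e (sq_nonneg _)) (by positivity))
  have η0 : 0 ≤ G.ep k * (x + y) := mul_nonneg (h.ep0 k) (add_nonneg x0 y0)
  refine ⟨fun e R hR => ?_, fun T E c D hD c0 D0 s hE => ?_⟩
  · rw [a2 _ _ (as_EE _) (as_EE _), Complex.ofReal_re]
    exact ((hR k).app _ _ _ _ a1 a4).trans_eq (by ring)
  · have := hD.le a1 (by linarith) c0
      (fun e he => by simpa only [a2 _ _ (as_EE _) (as_EE _), Complex.ofReal_re] using hE e he)
      ((aty_def (x := G.fx k) (h.N_odd k).pos.ne' (h.tq0 k) a1 a4).2 s)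
    refine (sum_le_sum fun p _ => sum_le_sum fun q _ => show _ ≤
      (c + 8 * (G.ep k / 2000 * (x + y)) + 2 * D) / 4 by
        rw [a2 _ _ (as_EE _) (as_EE _), Complex.norm_real, norm_eq_abs]
        linarith [this p q]).trans ?_
    simp only [sum_const, card_univ, Fintype.card_prod, Fintype.card_fin, nsmul_eq_mul]
    push_cast
    linarith

variable (hR : G.Pb9 e R)
include hR

/-- the marginal part is slaved to the response -/
theorem ty_nb (hD : Det T [e]) (hk : k ≤ J) (a : G.Tr b J k x y d f') (D0 : 0 ≤ D)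
    (s : Aty (G.N k) (G.fx k) D T (lg (G.f b J k) f')) :
    nb (d.1 0) ≤ 64 * |G.ry R b J k f'| + G.ep k * (x + y) + 128 * D := by
  obtain ⟨a1, a2⟩ := h.ty_fd A hk a
  have a3 := a2 T _ _ D hD (abs_nonneg _) D0 s fun _ he => by rw [List.mem_singleton.1 he]
  have a4 := a1 e R hR
  rw [abs_sub_comm] at a4
  linarith [abs_sub_abs_le_abs_sub (qc (d.1 0) (pt (EE e.1)) (pt (EE e.2))).re (G.ry R b J k f'),
    mul_nonneg (h.ep0 k) (add_nonneg (h.tn_nn a).1 (h.tn_nn a).2)]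

/-- the response is bounded by the size -/
theorem ty_le (hk : k ≤ J) (a : G.Tr b J k x y d f') :
    |G.ry R b J k f'| ≤ x + G.ep k / 1000 * (x + y) := by
  have a1 := (h.ty_fd A hk a).1 e R hR
  have a2 := (Complex.abs_re_le_norm _).trans
    ((a.sz.1 0).1.cb _ _ _ _ (cv_EE e.1) (cv_EE e.2))
  linarith [abs_sub_abs_le_abs_sub (G.ry R b J k f') (qc (d.1 0) (pt (EE e.1)) (pt (EE e.2))).re]

variable (hp : G.Pu)
include hp

/-- the change of the response in one step -/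
theorem ty_gm (hk : k < J) (a : G.Tr b J (k + 1) x y d f') (h0 : 0 < x + y) :
    |G.ry R b J k (TT (G.l k) (G.a k) (G.N k) f') - G.ry R b J (k + 1) f'| ≤
      (x + y) / G.Q k ^ 498 := by
  obtain ⟨a1, a2⟩ := h.tr_step A hp hk a h0
  have b1 := (h.ty_fd A hk.le a1).1 e R hR
  have b2 := (h.ty_fd A hk a).1 e R hR
  have b3 := (Complex.abs_re_le_norm _).trans (a2 _ _ _ _ (cv_EE e.1) (cv_EE e.2))
  have e1 := mul_le_mul_of_nonneg_right (h.ep_le' k.le_succ (i := 498) (by norm_num)) h0.le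
  have e2 := mul_le_mul_of_nonneg_right (h.ep_le' (k := k) le_rfl (i := 498) (by norm_num)) h0.le
  have e3 := mul_le_mul_of_nonneg_right (h.sg_ep k) h0.le
  have e4 : x + G.Q k ^ 50 * √(G.g (k + 1)) * (x + y) + G.cr k * (x + y) ≤ 3 * (x + y) := by
    nlinarith only [e3, h.ep_le k (i := 0) (by norm_num), h.cr1 k, h0, (h.tn_nn a).2]
  have e5 := mul_le_mul_of_nonneg_left e4 (h.ep0 k)
  have e6 := mul_nonneg (h.ep0 k) h0.le
  rw [Complex.sub_re, abs_le] at b3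
  rw [abs_le] at b1 b2 ⊢
  rw [div_eq_inv_mul (x + y)]
  constructor <;> linarith only [b1, b2, b3, e1, e2, e3, e5, e6]

/-- a direction without marginal part at the bottom of a long chain is small there -/
theorem ty_small (hD : Det T [e]) (i1 : k + 1 + 40 * (4 * G.Bk k + 1) ≤ i) (i2 : i ≤ k + 1 + G.l k)
    (iJ : i ≤ J) (a : G.Tr b J i x y d f') (y0 : 0 < y) (D0 : 0 ≤ D)
    (h0 : G.ry R b J (k + 1) (G.tt f' i (k + 1)) = 0)
    (h1 : Aty (G.N (k + 1)) (G.fx (k + 1)) D T (lg (G.f b J (k + 1)) (G.tt f' i (k + 1)))) :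
    |G.ry R b J k (G.tt f' i k)| ≤ 1000 * (D + G.g k ^ 2 * y) / G.Q k ^ 498 := by
  obtain ⟨w, wt, a1, a2⟩ := h.tr_sys A hp iJ a y0
  have k1 : k + 1 ≤ i := by omega
  obtain ⟨I, rfl⟩ := Nat.exists_eq_add_of_le k1
  have Q0 := h.Q0 k
  have L1 := h.L1 k
  have b1 := h.ty_nb A hR hD (k1.trans iJ) (a1 _ k1).2 D0 h1
  have b2 := h.ty_gm A hR hp (k1.trans iJ) (a1 _ k1).2
    (add_pos_of_nonneg_of_pos (nb_nonneg _) (a1 _ k1).1)
  rw [← tt_step _ k1, h0, sub_zero] at b2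
  rw [h0, abs_zero] at b1
  refine b2.trans (div_le_div_of_nonneg_right ?_ (by positivity))
  obtain ⟨η, η0, η1, η2⟩ : ∃ η : ℝ, 0 ≤ η ∧ 8 * (G.L k * η) ≤ 1 ∧ ∀ j, k ≤ j → 64 * G.ep j ≤ η := by
    refine ⟨(8 * G.Q k)⁻¹, by positivity, ?_, fun j hj => ?_⟩
    · rw [← mul_assoc]
      exact mul_inv_le_one_of_le₀ (by linarith [h.LQ k]) (by positivity)
    · have := h.ep_le' hj (i := 1) (by norm_num)
      rw [pow_one] at this
      rw [mul_inv]
      linarith [h.ep0 j]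
  obtain ⟨c1, c2⟩ := two_sided_src (I := I) (C := 1) (a := 200 * D) (η := fun _ => η)
    (c := fun j => G.cr (k + 1 + j)) (s := 0) (t := 0) (σ := 200 * D) (τ := 0) (γ := 1000⁻¹) (k := 0)
    (x := fun j => nb ((G.tc b J (k + 1 + I) d (k + 1 + j)).1 0)) (y := fun j => w (k + 1 + j))
    ⟨le_rfl, fun _ _ => η0, fun _ _ => by nlinarith only [η0, η1, L1], fun _ _ => (h.cr0 _).le,
      fun j _ => by linarith [h.cr1 (k + 1 + j), h.cr0 (k + 1 + j)]⟩
    ⟨by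
      have := mul_le_mul_of_nonneg_right (h.ep_le (k + 1) (i := 0) (by norm_num))
        (add_nonneg (nb_nonneg ((G.tc b J (k + 1 + I) d (k + 1)).1 0)) (a1 _ k1).1.le)
      simp only [add_zero]
      linarith only [this, b1, (a1 _ k1).1, D0], fun j hj => by
      have := nb_sub (a2 (k + 1 + j) (by omega)).2
      have p := add_nonneg (nb_nonneg ((G.tc b J (k + 1 + I) d (k + 1 + j + 1)).1 0))
        (a1 (k + 1 + j + 1) (by omega)).1.le
      have := mul_le_mul_of_nonneg_right ((mul_le_mul_of_nonneg_left (h.sg_ep (k + 1 + j))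
        (by norm_num)).trans (η2 _ (by omega))) p
      simp only [Pi.zero_apply, ← add_assoc]
      linarith [mul_nonneg η0 (nb_nonneg ((G.tc b J (k + 1 + I) d (k + 1 + j)).1 0))],
      fun j hj => by simp [(a2 (k + 1 + j) (by omega)).1, ← add_assoc]⟩
    (by
      rw [sum_const, card_range, nsmul_eq_mul]
      refine le_trans ?_ η1
      gcongr
      unfold L LL; omega) (by linarith) (fun _ _ => le_rfl) (by simp) le_rfl (fun _ _ => le_rfl)
    (by norm_num) (fun j _ => by linarith [h.cr1 (k + 1 + j)]) (by norm_num)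
    (a1 _ le_rfl).1.le (Nat.zero_le _)
  have c3 : (∏ j ∈ Ico 0 I, 2 * G.cr (k + 1 + j)) * w (k + 1 + I) ≤ G.g k ^ 2 * y := by
    have := h.cr_prod (k := k + 1) (i := k + 1 + I) (n := 4 * G.Bk k + 1) i1
    rw [prod_Ico_eq_prod_range, Nat.add_sub_cancel_left, range_eq_Ico] at this
    rw [wt]
    refine mul_le_mul_of_nonneg_right (this.trans ?_) y0.le
    have u : (G.L k : ℝ) ≤ G.L (k + 1) := Nat.cast_le.2 (h.L_mono k.le_succ)
    rw [eq_inv_of_mul_eq_one_right (h.bg k)]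
    refine inv_anti₀ (h.b0 k) ((((h.sch.le k).1.trans (h.sch.upp k)).trans
      (pow_le_pow_left₀ (by positivity) u _)).trans (pow_le_pow_right₀ (by linarith) (by simp [Bk, l])))
  simp only [add_zero] at c1 c2
  linarith only [c1, c2, c3, D0, mul_nonneg (sq_nonneg (G.g k)) y0.le]

/-- the response of a typed direction follows the response of the reference direction -/
theorem ty_good (hD : Det T [e]) (i1 : k + 1 + 40 * (4 * G.Bk k + 1) ≤ i) (i2 : i ≤ k + 1 + G.l k)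
    (iJ : i ≤ J) {xw : ℝ} (mw : BC w') (aw : G.Tr b J i xw 1 w w')
    (w1 : |G.ry R b J (k + 1) (G.tt w' i (k + 1)) - 1| ≤ (G.Q k ^ 100)⁻¹)
    (w2 : |G.ry R b J k (G.tt w' i k) - G.ry R b J (k + 1) (G.tt w' i (k + 1)) + β / G.bb k| ≤
      G.g k ^ 2 / G.Q k ^ 80) (hβ : |β| ≤ G.Q k ^ 10)
    (w3 : Aty (G.N (k + 1)) (G.fx (k + 1)) (G.Q k ^ 410 * G.g k ^ 2) T
      (lg (G.f b J (k + 1)) (G.tt w' i (k + 1))))
    (mf : BC f') (s : Sgn (G.N i) T f') (a : G.Tr b J i x y d f') (y0 : 0 < y)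
    (hy : y ≤ G.Q k ^ 400 * |G.ry R b J (k + 1) (G.tt f' i (k + 1))|) :
    |G.ry R b J k (G.tt f' i k) - (1 - β / G.bb k) * G.ry R b J (k + 1) (G.tt f' i (k + 1))| ≤
      G.g k ^ 2 / G.Q k ^ 79 * |G.ry R b J (k + 1) (G.tt f' i (k + 1))| := by
  have k1 : k + 1 ≤ i := by omega
  have Q0 := h.Q0 k
  have g0 := h.g0 k
  generalize hW : G.ry R b J (k + 1) (G.tt w' i (k + 1)) = W at w1 w2
  generalize hR' : G.ry R b J (k + 1) (G.tt f' i (k + 1)) = R at hy ⊢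
  obtain ⟨α, α1, α2⟩ : ∃ α : ℝ, α * W = R ∧ |α| ≤ 2 * |R| := by
    have := abs_le.1 w1
    have W0 : 2⁻¹ ≤ W := by linarith [h.inv_c k (j := 100) (by norm_num), inv_pos.2 (pow_pos Q0 100)]
    refine ⟨R / W, div_mul_cancel₀ _ (by linarith), ?_⟩
    rw [abs_div, abs_of_pos (a := W) (by linarith), div_le_iff₀ (by linarith)]
    nlinarith [abs_nonneg R]
  have e1 := fun j (hj : j ≤ i) => tt_sub (G := G) mf mw α hj
  have c := h.ty_small A hR hp hD i1 i2 iJ (h.tn_sub (α := α) a aw (sqrt_nonneg _) (h.f_ne A i 1))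
    (D := 0 + |α| * (G.Q k ^ 410 * G.g k ^ 2)) (by positivity) (by positivity)
    (by rw [e1 _ k1, hR.lin, hW, hR', α1, sub_self])
    (by rw [e1 _ k1, lg_sub]; exact (h.aty_tt A mf.1 s k1).sub w3)
  rw [e1 _ (by omega), hR.lin] at c
  have eb : β / G.bb k = β * G.g k ^ 2 := by
    rw [div_eq_mul_inv, ← eq_inv_of_mul_eq_one_right (h.bg k)]
  rw [eb] at w2 ⊢
  have d2 := mul_le_mul α2 w2 (abs_nonneg _) (by positivity)
  have d3 : |α * (W - 1) * (β * G.g k ^ 2)| ≤ 2 * |R| * (G.Q k ^ 100)⁻¹ * (G.Q k ^ 10 * G.g k ^ 2) := by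
    rw [abs_mul, abs_mul, abs_mul, abs_of_nonneg (sq_nonneg (G.g k))]
    gcongr
  rw [← abs_mul] at d2
  obtain ⟨u, hu⟩ : ∃ u, u = G.g k ^ 2 / G.Q k ^ 80 * |R| := ⟨_, rfl⟩
  have u0 : 0 ≤ u := by rw [hu]; positivity
  have d1 : 1000 * (0 + |α| * (G.Q k ^ 410 * G.g k ^ 2) + G.g k ^ 2 * (y + |α| * 1)) / G.Q k ^ 498 ≤
      u := by
    have q1 := pow_le_pow_right₀ (h.Q1 k) (show 400 ≤ 410 by norm_num)
    have q2 := one_le_pow₀ (n := 410) (h.Q1 k)
    have r0 := abs_nonneg R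
    rw [div_le_iff₀ (by positivity)]
    calc _ ≤ 1000 * (0 + 2 * |R| * (G.Q k ^ 410 * G.g k ^ 2) +
          G.g k ^ 2 * (G.Q k ^ 410 * |R| + 2 * |R| * G.Q k ^ 410)) := by
          gcongr
          exact hy.trans (mul_le_mul_of_nonneg_right q1 r0)
      _ = 5000 * G.Q k ^ 490 * u := by rw [hu]; field_simp; ring
      _ ≤ G.Q k * G.Q k ^ 490 * u := by gcongr; exact h.cQ k (by norm_num)
      _ ≤ G.Q k ^ 8 * G.Q k ^ 490 * u := by gcongr; exact le_self_pow₀ (h.Q1 k) (by norm_num)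
      _ = _ := by ring
  have d4 : 2 * |R| * (G.Q k ^ 100)⁻¹ * (G.Q k ^ 10 * G.g k ^ 2) ≤ 2 * u := by
    rw [show 2 * |R| * (G.Q k ^ 100)⁻¹ * (G.Q k ^ 10 * G.g k ^ 2) = 2 * u * (G.Q k ^ 10)⁻¹ by
      rw [hu]; field_simp]
    exact mul_le_of_le_one_right (by positivity) (inv_le_one_of_one_le₀ (one_le_pow₀ (h.Q1 k)))
  have d5 : 5 * u ≤ G.g k ^ 2 / G.Q k ^ 79 * |R| := by
    rw [show G.g k ^ 2 / G.Q k ^ 79 * |R| = G.Q k * u by rw [hu]; field_simp]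
    exact mul_le_mul_of_nonneg_right (h.cQ k (by norm_num)) u0
  have d6 : 2 * |R| * (G.g k ^ 2 / G.Q k ^ 80) = 2 * u := by rw [hu]; ring
  have c1 := abs_le.1 (c.trans d1)
  have c2 := abs_le.1 (d2.trans_eq d6)
  have c3 := abs_le.1 (d3.trans d4)
  rw [← α1] at d5 ⊢
  refine le_trans (abs_le.2 ⟨?_, ?_⟩) d5 <;> linarith only [c1.1, c1.2, c2.1, c2.2, c3.1, c3.2]

end Ok

end Gl

end Pool.Agent.Lib.MP_7f377f_mp.RG.Q4.En
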