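import Pool.Agent.Lib.MP_7f377f_mp.G.S21N
import Pool.Agent.Lib.MP_7f377f_mp.G.S21J
import Pool.Agent.Lib.MP_7f377f_mp.G.Q4AfS2

/-! One tree step at a background with constant flux in two planes. -/

noncomputable section

set_option linter.unusedSectionVars false
variable [Pool.Agent.Lib.MP_7f377f_mp.GD]

namespace Pool.Agent.Lib.MP_7f377f_mp.RG.Q4.Af.Tp

open Finset Matrix

variable {N : Fin 4 → ℕ} [∀ i, NeZero (N i)] {S : Sd} {ε φ : ℝ} {F : ℝ × ℝ} {θ : Lk → Ang}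

variable (N) in
/-- the joint energy in the tree gauge -/
def ER (S : Td) (F : ℝ × ℝ) (θ : Lk → Ang) (p : IR S.l N ⊕ IL N → ℝ) : ℝ :=
  EJ N S (ab (lift S.l F θ)) (ab θ) (Sum.elim (exN fun i => p (.inl i)) fun i => p (.inr i))

/-- the Hessian of the noise functional is given by the matrix `B` -/
def JB (l : ℕ) (F : ℝ × ℝ) (θ : Lk → Ang) (B : Matrix (IL N) (IL (fi l N)) ℝ) : Prop :=
  Tay (NJ l N (ab (lift l F θ)) (ab θ)) (fromBlocks (Bᵀ * B) (-Bᵀ) (-B) 1)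
    (Fintype.card (TS N) * (10 ^ 27 * (LL l : ℝ) ^ 9)) (10 ^ 7 * (LL l : ℝ) ^ 3)⁻¹ ∧
  ∀ a, |a ⬝ᵥ (Bᵀ * B) *ᵥ a| ≤ Fintype.card (TS N) * (10 ^ 20 * (LL l : ℝ) ^ 6) * ‖a‖ ^ 2

section blocks

variable (l : ℕ) (H : Matrix (IL (fi l N)) (IL (fi l N)) ℝ) (B : Matrix (IL N) (IL (fi l N)) ℝ)

/-- the block of the fine fluctuation -/
def bA : Matrix (IR l N) (IR l N) ℝ :=
  (H + (LL l : ℝ) ^ 2 • (Bᵀ * B)).submatrix Subtype.val Subtype.val

/-- the mixed blocks -/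
def bB : Matrix (IR l N) (IL N) ℝ := (-((LL l : ℝ) ^ 2 • Bᵀ)).submatrix Subtype.val id

/-- the mixed blocks -/
def bC : Matrix (IL N) (IR l N) ℝ := (-((LL l : ℝ) ^ 2 • B)).submatrix id Subtype.val

variable (N) in
/-- the block of the coarse fluctuation -/
def bD : Matrix (IL N) (IL N) ℝ := (LL l : ℝ) ^ 2 • 1

end blocks

theorem jb_ex (h : S.Nu 100) (n : Nm S.Q φ (Fintype.card (TS N))) (hb : Bg N F θ) (hF : ‖F‖ ≤ φ) :
    ∃ B, JB (N := N) S.l F θ B := by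
  have Q1 := S.Q1
  have q : 10 ^ 8 * S.L ^ 2 ≤ S.Q := by
    simpa using h.mon (C := 10 ^ 8) (i := 2) (j := 0) (by norm_num) (by have := h.exps; omega) (by omega)
  have a1 := n.a (C := 1) (i := 1) (by norm_num) (by norm_num)
  obtain ⟨B, -, k⟩ := joint (l := S.l) hb
    (by simpa [Td.L] using h.gL' (C := 1) (k := 1) (by norm_num))
    ((mul_le_mul q hF (norm_nonneg _) (by positivity)).trans (by linarith))
  exact ⟨B, k⟩

theorem norm_lift (l : ℕ) (F : ℝ × ℝ) : ‖((LL l : ℝ) ^ 2)⁻¹ • F‖ ≤ ‖F‖ := by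
  have L1 : (1 : ℝ) ≤ LL l := by exact_mod_cast LL_pos l
  rw [norm_smul, Real.norm_of_nonneg (by positivity)]
  exact mul_le_of_le_one_left (norm_nonneg _) (inv_le_one_of_one_le₀ (one_le_pow₀ L1))

theorem jt (h : S.Nu 100) (ht : S.TOk) (n : Nm S.Q φ (Fintype.card (TS N))) (hb : Bg N F θ)
    (hF : ‖F‖ ≤ φ) {B : Matrix (IL N) (IL (fi S.l N)) ℝ} (hB : JB S.l F θ B) :
    Tay (ER N S.toTd F θ) (fromBlocks (bA S.l (Hs _ (tf S.m S.T) (lift S.l F θ)) B) (bB S.l B)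
      (bC S.l B) (bD N S.l)) (Fintype.card (TS N) * S.Q ^ 7) (S.Q ^ 2)⁻¹ ∧
    ∀ u, |u ⬝ᵥ bA S.l (Hs _ (tf S.m S.T) (lift S.l F θ)) B *ᵥ u| ≤
      Fintype.card (TS N) * S.Q ^ 14 * ‖u‖ ^ 2 := by
  have L1 := Sd.L1 S.toTd
  have Q1 := S.Q1
  have φ0 := n.pos
  have V0 := n.V0
  have q : ∀ {C : ℝ} {i : ℕ}, C ≤ 10 ^ 120 → i ≤ 20 → C * S.L ^ i ≤ S.Q := fun hC hi => by
    simpa using h.mon (j := 0) hC (by have := h.exps; omega) (by omega)
  obtain ⟨TJ, KJ⟩ := hB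
  have hb' := bg_lift (l := S.l) hb
  obtain ⟨TH, -, KH, -⟩ := td_hess (td_of h ht) hb'.per hb'.curv (φ := φ)
    ((norm_lift _ _).trans hF) φ0
    (by simpa using n.a (C := 1) (i := 3) (by norm_num) (by norm_num))
  set H := Hs (fi S.l N) (tf S.m S.T) (lift S.l F θ)
  rw [card_fi] at TH KH
  have b1 := q (C := 1) (i := 4) (by norm_num) (by norm_num)
  have T := Tay.sub ((Tay.inl TH (κ := IL N)).add ((TJ.mono le_rfl (ρ' := (S.Q ^ 2)⁻¹) (inv_anti₀
    (by positivity) ((q (by norm_num) (by norm_num)).trans (by nlinarith)))).smul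
      (c := S.L ^ 2) (by positivity))) (Sum.map (Subtype.val : IR S.l N → _) id)
    (e := fun p => Sum.elim (exN fun i => p (.inl i)) fun i => p (.inr i))
    (fun p => norm_elim (norm_nonneg _) ((norm_exT _).trans ((pi_norm_le_iff_of_nonneg
      (norm_nonneg _)).2 fun i => norm_le_pi_norm p _)) ((pi_norm_le_iff_of_nonneg
      (norm_nonneg _)).2 fun i => norm_le_pi_norm p _)) fun p a => by
      have := exN_dot (fun i => p (.inl i)) fun i => a (.inl i)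
      simp only [dotProduct, Fintype.sum_sum_type, Sum.elim_inl, Sum.elim_inr] at this ⊢
      rw [this]; rfl
  refine ⟨?_, fun u => ?_⟩
  · convert T.mono (C' := Fintype.card (TS N) * S.Q ^ 7) ?_ le_rfl using 1
    · rfl
    · ext (i | i) (j | j) <;> simp [bA, bB, bC, bD, Td.L]
    · have b2 := q (C := 10 ^ 27) (i := 11) (by norm_num) (by norm_num)
      have b3 := h.cQ (C := 2) (by norm_num)
      calc _ = Fintype.card (TS N) * (1 * S.L ^ 4 * S.Q ^ 5 + 10 ^ 27 * S.L ^ 11 * 1) := by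
            simp only [Td.L]; ring
        _ ≤ Fintype.card (TS N) * (S.Q * S.Q ^ 5 + S.Q * S.Q ^ 5) := by
            gcongr; exact one_le_pow₀ Q1
        _ = Fintype.card (TS N) * (2 * S.Q ^ 6) := by ring
        _ ≤ Fintype.card (TS N) * (S.Q * S.Q ^ 6) := by gcongr
        _ = _ := by ring
  · rw [bA, quad_sub _ (g := Subtype.val) (e := exN u) (exN_dot u), add_mulVec, dotProduct_add,
      smul_mulVec, dotProduct_smul, smul_eq_mul]
    have b2 := q (C := 10 ^ 20) (i := 8) (by norm_num) (by norm_num)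
    have b3 := h.cQ (C := 2) (by norm_num)
    have b4 := norm_exT u
    calc _ ≤ _ := abs_add_le _ _
      _ ≤ _ + S.L ^ 2 * _ := add_le_add (KH _) ((abs_mul _ _).trans_le (mul_le_mul
          (abs_of_pos (by positivity)).le (KJ _) (abs_nonneg _) (by positivity)))
      _ = Fintype.card (TS N) * (1 * S.L ^ 4 * S.Q ^ 12 + 10 ^ 20 * S.L ^ 8 * 1) * ‖exN u‖ ^ 2 := by
          simp only [Td.L]; ring
      _ ≤ Fintype.card (TS N) * (S.Q * S.Q ^ 12 + S.Q * S.Q ^ 12) * ‖u‖ ^ 2 := by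
          gcongr; exact one_le_pow₀ Q1
      _ = Fintype.card (TS N) * (2 * S.Q ^ 13) * ‖u‖ ^ 2 := by ring
      _ ≤ Fintype.card (TS N) * (S.Q * S.Q ^ 13) * ‖u‖ ^ 2 := by gcongr
      _ = _ := by ring

theorem ab_tree {l : ℕ} (f : Lk) (hf : tree l f) : ab (lift l F θ) f = 1 := by
  rw [ab, lift_tree hf, eA_zero]

variable {A : Matrix (IR S.l N) (IR S.l N) ℝ} {B : Matrix (IR S.l N) (IL N) ℝ}
  {B' : Matrix (IL N) (IR S.l N) ℝ} {D : Matrix (IL N) (IL N) ℝ}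

theorem det_A (h : Sm0 S (φ ^ 30)) (n : Nm S.Q φ (Fintype.card (TS N))) (hβ : S.β * φ ≤ 1)
    (hn : ∀ i, Odd (N i)) (hN : ∀ i, 2 * S.N < N i) (hb : Bg N F θ) (hF : ‖F‖ ≤ φ)
    (T : Tay (ER N S.toTd F θ) (fromBlocks A B B' D) (Fintype.card (TS N) * S.Q ^ 7) (S.Q ^ 2)⁻¹)
    (hK : ∀ u, |u ⬝ᵥ A *ᵥ u| ≤ Fintype.card (TS N) * S.Q ^ 14 * ‖u‖ ^ 2) :
    (∀ f, Rb.Nr (φ ^ 99) (Ur S.l S.s (ab θ) (S.t.As (cC (ab θ))) f) (ab (lift S.l F θ) f)) ∧
    0 < A.det ∧ (∀ x, x ⬝ᵥ x ≤ 2 * S.Q * (x ⬝ᵥ A *ᵥ x)) ∧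
    |Real.log A.det - Fintype.card (IR S.l N) * Real.log S.Λ +
      2 * ∑ y : TS N, (S.dt0 (sh (lf y) (cC (ab θ)))).re| ≤ 3 * (Fintype.card (TS N) * φ ^ 3) := by
  have φ0 := n.pos
  have Q1 := n.Q1
  have V0 := n.V0
  have p1 : φ ^ 30 ≤ φ := pow_le_of_le_one φ0.le n.p1 (by norm_num)
  have q2 : 2 * S.Q ≤ S.Q ^ 2 := by nlinarith [n.big]
  have h1 := h.up hβ p1 (by nlinarith)
  have h2 := h.up (ε := 2 * (S.Q * φ)) hβ (by nlinarith) (by nlinarith)
  have hp : PV N (ab θ) := hb.per.map eA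
  have hp' : PV _ (ab (lift S.l F θ)) := (bg_lift hb).per.map eA
  have gl := (gl_ab hb.curv).mono hF
  have a1 := n.a (C := 20) (i := 1) (by norm_num) (by norm_num)
  obtain ⟨x, ex, x1⟩ := exists_rf hp' (pv_Ub S.s hp) ab_tree (fun f => Ub_tree h.tk.ok.lin _)
    (bg_near h1 hb.curv hF) (by linarith)
  obtain ⟨kQ, cQ⟩ := kG_ge h.nu
  have c0 := GD.cG_pos
  have x2 : ‖x‖ ≤ kG := by
    linarith [n.inv (C := 2) (i := 1) (j := 1) (k := 1) (by norm_num) (by norm_num) (by norm_num)]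
  have r1 : (S.Q ^ 3)⁻¹ ≤ kG :=
    (inv_anti₀ (by positivity) (pow_le_pow_right₀ Q1 (by norm_num))).trans kQ
  have TA : Tay _ A _ _ := Tay.sub T Sum.inl (e := fun v => Sum.elim v 0)
    (fun v => norm_elim (norm_nonneg _) le_rfl (by simp)) fun v a => by simp [dotProduct]
  have TC : Tay (fun u => PP N S.toTd (ab θ) (x + u)) _ _ (S.Q ^ 3)⁻¹ :=
    (Tay.comp TA hK (by positivity) (M := Jc x) (b := dl x)
      (inv_le_one_of_one_le₀ (one_le_pow₀ Q1)) (by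
      rw [← div_eq_mul_inv, div_le_iff₀ (by positivity), pow_succ _ 2, inv_mul_cancel_left₀
        (by positivity)]; linarith [n.big]) (fun v => (Jc_le x2 v).1)
      fun v hv => (dl_spec (U := 1) x2 (hv.trans r1)).2.2).congr fun u hu => by
        have := en_sum S.toTd hn hp' ab_tree (W := ab θ) (w := 0) (x := x + u) (v := dl x u) (by
          rw [rf_zero, Ur_pf, ex, (dl_spec x2 (hu.trans r1)).1])
        rwa [rf_zero] at this
  have cf := crit_fix h2 hn hp (gl.mono (by nlinarith)) x1 fun u => by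
    simpa using Tay.crit TC (by positivity) u
  have c1 : ‖x - xs N S.toTd (ab θ)‖ ≤ φ ^ 100 :=
    cf.trans (le_of_eq_of_le (by ring) (n.b (C := 2 ^ 101) (i := 202) (j := 101) (by norm_num)
      (by norm_num) (by norm_num)))
  obtain ⟨e1, s1⟩ := As_xs h1 hp gl
  have x3 : ‖x‖ ≤ 2 * (S.Q * φ ^ 2) := by
    have := norm_le_norm_add_norm_sub' x (xs N S.toTd (ab θ))
    nlinarith [pow_le_pow_of_le_one φ0.le n.p1 (show 2 ≤ 100 by norm_num), sq_nonneg φ]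
  obtain ⟨Y, ℓ, TY, -, cY, dY⟩ := tree_tay h1 hn hN hp gl
  have ts := tay_shift TY TC (by positivity) c1
    (by simpa using n.inv (C := 2) (i := 0) (j := 100) (k := 1) (by norm_num) (by norm_num) (by norm_num))
    (by simpa using n.inv (C := 1) (i := 0) (j := 100) (k := 3) (by norm_num) (by norm_num) (by norm_num))
  have z1 : 72 * (cG * ‖x‖) ^ 2 ≤ 288 * S.Q ^ 4 * φ ^ 4 :=
    le_of_le_of_eq (b := 72 * (S.Q * (2 * (S.Q * φ ^ 2))) ^ 2) (by gcongr) (by ring)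
  obtain ⟨d1, d2, d3⟩ := det_chart (η := φ ^ 97) TY.1 TA.1 S.Q0 cY (by
      linarith [n.b (C := 576) (i := 4) (j := 4) (k := 0) (by norm_num) (by norm_num) (by norm_num)])
    (by positivity) (fun v => (Jc_le x2 v).2.1) (fun v => (Jc_le x2 v).2.2) (by positivity)
    (le_of_eq_of_le (by ring) ((n.b (C := 4) (i := 1) (j := 97) (by norm_num) (by norm_num)
      (by norm_num)).trans_eq (pow_zero _))) fun v => (ts v).trans (mul_le_mul (by
        calc _ = (9 * S.Q ^ 1 + 27 * S.Q ^ 7 + 10 * S.Q ^ 14) * φ ^ 98 *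
              (Fintype.card (TS N) * φ ^ 2) := by ring
          _ ≤ (9 * S.Q ^ 14 + 27 * S.Q ^ 14 + 10 * S.Q ^ 14) * φ ^ 98 *
              (Fintype.card (TS N) * φ ^ 2) := by gcongr <;> first | exact Q1 | norm_num
          _ ≤ _ := le_of_eq_of_le (by ring) (n.c (C := 46) (i := 14) (j := 98) (by norm_num)
              (by norm_num) (by norm_num) (by norm_num))) (norm_sq_le_dot v) (by positivity)
      (by positivity))
  refine ⟨fun f => ?_, d1, d2, ?_⟩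
  · have p := n.inv (C := 2) (i := 0) (j := 100) (k := 1) (by norm_num) (by norm_num) (by norm_num)
    rw [norm_sub_rev] at c1
    obtain ⟨k1, k2, -⟩ := dl_spec (U := Ub S.l S.s (ab θ)) x2
      (c1.trans (by linarith [pow_pos φ0 100]))
    rw [e1, Ur_pf, ← add_sub_cancel x (xs _ _ _), ← k1, ← ex]
    exact (rf_near (by linarith) f).mono (by
      linarith [n.b (C := 4) (i := 1) (j := 100) (k := 99) (by norm_num) (by norm_num) (by norm_num),
        mul_le_mul cQ (k2.trans (mul_le_mul_of_nonneg_left c1 zero_le_two)) (norm_nonneg _) S.Q0.le])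
  have cI : (Fintype.card (IR S.l N) : ℝ) ≤ S.Q * Fintype.card (TS N) := by
    refine (Nat.cast_le.2 (Fintype.card_subtype_le _)).trans ?_
    have := h.nu.mong (C := 4) (k := 1) (i := 4) (j := 0) (by norm_num) (by norm_num)
      (by have := h.nu.exps; omega) (by omega)
    rw [Fintype.card_prod, Fintype.card_prod, Nat.cast_mul, Nat.cast_mul, card_fi]
    simp only [Fintype.card_fin, Td.L] at this ⊢
    push_cast
    nlinarith [mul_le_mul_of_nonneg_left GD.d_le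
      (by positivity : 0 ≤ (LL S.l : ℝ) ^ 4 * Fintype.card (TS N))]
  have b1 := n.b (C := 10) (i := 0) (j := 30) (k := 3) (by norm_num) (by norm_num) (by norm_num)
  have b2 := n.b (C := 2) (i := 2) (j := 97) (k := 3) (by norm_num) (by norm_num) (by norm_num)
  have b3 := n.b (C := 576) (i := 5) (j := 4) (k := 3) (by norm_num) (by norm_num) (by norm_num)
  have b4 := d3.trans (mul_le_mul (show _ ≤ 2 * φ ^ 97 * S.Q + 576 * S.Q ^ 4 * φ ^ 4 by linarith) cI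
    (by positivity) (by positivity))
  have b5 := abs_le.1 (dY.trans (mul_le_mul_of_nonneg_left h.ex (by positivity)))
  have b6 := abs_le.1 b4
  rw [abs_le]
  constructor <;> nlinarith [mul_le_mul_of_nonneg_left b1 V0, mul_le_mul_of_nonneg_left b2 V0,
    mul_le_mul_of_nonneg_left b3 V0]

theorem schur_A (h : Sm0 S (φ ^ 30)) (n : Nm S.Q φ (Fintype.card (TS N))) (hβ : S.β * φ ≤ 1)
    (hn : ∀ i, Odd (N i)) (hN : ∀ i, 2 * S.N < N i) (hb : Bg N F θ) (hF : ‖F‖ ≤ φ)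
    (T : Tay (ER N S.toTd F θ) (fromBlocks A B B' D) (Fintype.card (TS N) * S.Q ^ 7) (S.Q ^ 2)⁻¹)
    (nr : ∀ f, Rb.Nr (φ ^ 99) (Ur S.l S.s (ab θ) (S.t.As (cC (ab θ))) f) (ab (lift S.l F θ) f))
    (dA : 0 < A.det) (cA : ∀ x, x ⬝ᵥ x ≤ 2 * S.Q * (x ⬝ᵥ A *ᵥ x)) {P : Matrix (IL N) (IL N) ℝ}
    (T' : Tay (fun w => ∑ y : TS N, (S.t.tn (sh (lf y) (cC (rf (ab θ) w)))).re) P
      (Fintype.card (TS N) * S.Q ^ 6) (φ ^ 2)) (w : IL N → ℝ) :
    |w ⬝ᵥ (D - B' * A⁻¹ * B) *ᵥ w - w ⬝ᵥ P *ᵥ w| ≤ 25 * φ ^ 9 * (w ⬝ᵥ w) := by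
  have φ0 := n.pos
  have Q1 := n.Q1
  have V0 := n.V0
  have p1 : φ ^ 30 ≤ φ := pow_le_of_le_one φ0.le n.p1 (by norm_num)
  have q2 : 2 * S.Q ≤ S.Q ^ 2 := by nlinarith [n.big]
  have h1 := h.up hβ p1 (by nlinarith)
  have h2 := h.up (ε := 2 * φ) hβ (by linarith) (by nlinarith)
  have hp : PV N (ab θ) := hb.per.map eA
  have hp' : PV _ (ab (lift S.l F θ)) := (bg_lift hb).per.map eA
  have gl := (gl_ab hb.curv).mono hF
  have p0 : 0 < φ ^ 12 := by positivity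
  have a0 : φ ^ 12 ≤ S.Q * φ ^ 12 := le_mul_of_one_le_left p0.le Q1
  obtain ⟨kQ, cQ⟩ := kG_ge h.nu
  have a1 := n.b (C := 8) (i := 1) (j := 12) (k := 1) (by norm_num) (by norm_num) (by norm_num)
  have c1 := mul_le_mul_of_nonneg_right cQ p0.le
  have c2 := n.inv (C := 8) (i := 1) (j := 12) (k := 1) (by norm_num) (by norm_num) (by norm_num)
  have c3 := pow_le_pow_of_le_one φ0.le n.p1 (show 2 ≤ 12 by norm_num)
  have a2 := n.b (C := 100) (i := 1) (j := 12) (k := 0) (by norm_num) (by norm_num) (by norm_num)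
  have a3 := n.inv (C := 4) (i := 1) (j := 2) (k := 1) (by norm_num) (by norm_num) (by norm_num)
  have a4 := pow_le_pow_of_le_one φ0.le n.p1 (show 12 ≤ 99 by norm_num)
  have a5 := n.c (C := 64) (i := 10) (j := 34) (k := 33) (by norm_num) (by norm_num) (by norm_num)
    (by norm_num)
  have a6 := n.c (C := 1) (i := 6) (j := 34) (k := 33) (by norm_num) (by norm_num) (by norm_num)
    (by norm_num)
  have a7 := n.c (C := 4096) (i := 4) (j := 34) (k := 33) (by norm_num) (by norm_num) (by norm_num)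
    (by norm_num)
  have a8 := n.c (C := 2 ^ 104) (i := 101) (j := 110) (k := 33) (by norm_num) (by norm_num)
    (by norm_num) (by norm_num)
  have a9 := n.b (C := 11) (i := 0) (j := 33) (k := 24) (by norm_num) (by norm_num) (by norm_num)
  refine (schur_tay T dA.ne' (γ := (2 * S.Q)⁻¹) (by positivity) (fun u => by
      rw [inv_mul_le_iff₀ (by positivity)]; exact (norm_sq_le_dot u).trans (cA u)) T' p0
    (s := 4 * (S.Q * φ ^ 12)) (ε := 2 * φ ^ 33) (by linarith) (le_of_eq_of_le (by ring)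
      (n.inv (C := 8) (i := 1) (j := 12) (by norm_num) (by norm_num) (by norm_num))) (by linarith)
    (by positivity) ?_ (fun w hw => ?_) w).trans (mul_le_mul_of_nonneg_right ?_ (dot_nonneg w))
  · rw [show (2 * S.Q)⁻¹ * (4 * (S.Q * φ ^ 12)) ^ 2 = 8 * (S.Q * φ ^ 24) by field_simp; ring]
    linarith [le_mul_of_one_le_left (pow_pos φ0 24).le Q1, pow_pos φ0 24]
  · have gl' := (gl_rf gl hw (by linarith)).mono (show _ ≤ 2 * φ by linarith)
    have hq := pv_rf hp w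
    obtain ⟨e1, s1⟩ := As_xs h2 hq gl'
    set x := xs N S.toTd (rf (ab θ) w)
    obtain ⟨v, ev, v1⟩ := exists_rf (pv_rf (pv_Ub S.s hq) (exN x)) hp'
      (rf_tree fun f => Ub_tree h.tk.ok.lin _) ab_tree (fun f => by
        have := (Ur_lip h1 gl hw (by linarith) f).trans (nr f)
        rwa [e1, Ur_pf] at this) (by linarith)
    refine ⟨v, by linarith, (tn_sum h2 hq gl').trans
      (en_sum S.toTd hn hp' ab_tree ((Ur_pf _ _ _).trans ev)), fun u hu => ?_⟩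
    obtain ⟨k1, k2, -⟩ := dl_spec (U := ab (lift S.l F θ)) (x := v) (u := u) (by linarith)
      (by linarith)
    obtain ⟨u', k3, k4⟩ := rf_rf (U := Ub S.l S.s (rf (ab θ) w)) (x := x) (u := dl v u)
      (by linarith) (by linarith)
    obtain ⟨Y, ℓ, TY, lY, cY, -⟩ := tree_tay h2 hn hN hq gl'
    have u1 : ‖u'‖ ≤ 16 * (S.Q * φ ^ 12) := by linarith
    have t := (abs_le.1 (TY.2 u' _ u1 (le_of_eq_of_le (by ring) ((n.inv (C := 16) (i := 1) (j := 12)
      (k := 1) (by norm_num) (by norm_num) (by norm_num)).trans_eq (by rw [pow_one]))))).1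
    have y0 := nonneg_of_mul_nonneg_right ((dot_nonneg u').trans (cY u')) S.Q0
    have l1 := (abs_le.1 ((lY u').trans (mul_le_mul_of_nonneg_left u1 (by positivity)))).1
    have e2 := en_sum S.toTd hn hp' ab_tree ((Ur_pf _ _ _).trans ev)
    have e3 := en_sum S.toTd hn hp' ab_tree (w := w) (x := x + u') (v := v + u) (by
      rw [Ur_pf, ← k3, ev, k1])
    simp only [add_zero, map_zero] at t
    refine e2.symm.trans_le (le_of_le_of_eq ?_ (congrArg (· + _) e3))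
    linarith
  · rw [div_le_iff₀ (by positivity)]
    linarith

theorem next_H (h : Sm0 S (φ ^ 30)) (n : Nm S.Q φ (Fintype.card (TS N))) (hβ : S.β * φ ≤ 1)
    {κ : ℝ} (dc : Dcy S.l (S.r / 2) κ S.m) (κ0 : 0 ≤ κ) (κ1 : κ ≤ φ ^ 30)
    (f1 : TD S.Q (tf S.m1 S.T1))
    (hn : ∀ i, Odd (N i)) (hN : ∀ i, 2 * S.N < N i) (hb : Bg N F θ) (hF : ‖F‖ ≤ φ)
    (T : Tay (ER N S.toTd F θ) (fromBlocks A B B' D) (Fintype.card (TS N) * S.Q ^ 7) (S.Q ^ 2)⁻¹)
    (nr : ∀ f, Rb.Nr (φ ^ 99) (Ur S.l S.s (ab θ) (S.t.As (cC (ab θ))) f) (ab (lift S.l F θ) f))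
    (dA : 0 < A.det) (cA : ∀ x, x ⬝ᵥ x ≤ 2 * S.Q * (x ⬝ᵥ A *ᵥ x)) (w : IL N → ℝ) :
    |w ⬝ᵥ (D - B' * A⁻¹ * B) *ᵥ w - w ⬝ᵥ Hs N (tf S.m1 S.T1) θ *ᵥ w| ≤
      S.Q ^ 36 * φ ^ 3 * (w ⬝ᵥ w) ∧ -(w ⬝ᵥ w) ≤ w ⬝ᵥ (D - B' * A⁻¹ * B) *ᵥ w := by
  have φ0 := n.pos
  have Q1 := n.Q1
  have V0 := n.V0
  have big := n.big
  have p3 : φ ^ 30 ≤ φ ^ 3 := pow_le_pow_of_le_one φ0.le n.p1 (by norm_num)
  have p4 : φ ^ 3 ≤ φ := pow_le_of_le_one φ0.le n.p1 (by norm_num)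
  obtain ⟨R, t, hR, l1, et⟩ := rest_l1 (h.up hβ p3 (p4.trans (le_mul_of_one_le_left φ0.le
    (one_le_pow₀ Q1)))) dc κ0 (κ1.trans p3) hβ
  have a1 := n.a (C := 10) (i := 1) (by norm_num) (by norm_num)
  have a2 : R * ‖F‖ ≤ S.Q / 1000 * φ := mul_le_mul (by linarith) hF (norm_nonneg _) (by positivity)
  have a3 : 0 < S.Q * φ := by positivity
  obtain ⟨H, TH, -⟩ := hess0 (N := N) l1 (by linarith) a3 hb.curv (by linarith)
  obtain ⟨T1, -, -, s2⟩ := td_hess f1 hb.per hb.curv hF φ0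
    (by simpa using n.a (C := 1) (i := 3) (by norm_num) (by norm_num))
  have gl := (gl_ab hb.curv).mono hF
  have cQ := (kG_ge h.nu).2
  have c0 := GD.cG_pos
  have c3 := mul_le_mul_of_nonneg_right cQ (sq_nonneg φ)
  have c4 := n.b (C := 100) (i := 1) (j := 2) (k := 1) (by norm_num) (by norm_num) (by norm_num)
  have s := schur_A h n hβ hn hN hb hF T nr dA cA (((T1.mono le_rfl (ρ' := φ ^ 2) (by
      linarith [n.inv (C := 1) (i := 0) (j := 2) (k := 2) (by norm_num) (by norm_num)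
        (by norm_num)])).add (TH.mono le_rfl (by
          rw [le_div_iff₀ (by positivity)]; nlinarith))).mono (by
      have := (show 96000 * cG ^ 3 * S.Q ^ 27 * φ ^ 2 ≤ 96000 * S.Q ^ 3 * S.Q ^ 27 * φ ^ 2 by
        gcongr).trans (le_of_eq_of_le (by ring) (n.b (C := 96000) (i := 30) (j := 2) (k := 0)
          (by norm_num) (by norm_num) (by norm_num)))
      rw [← mul_add, show 12 * (S.Q ^ 30 * φ ^ 5) / (S.Q * φ / (20 * cG)) ^ 3 =
        96000 * cG ^ 3 * S.Q ^ 27 * φ ^ 2 by field_simp; norm_num, pow_succ' _ 5]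
      exact mul_le_mul_of_nonneg_left (by nlinarith [one_le_pow₀ (n := 5) Q1]) V0) le_rfl |>.congr
    fun w hw => by
      rw [SS, SS, ← sum_add_distrib, ← cC_rf]
      exact sum_congr rfl fun y _ => congrArg Complex.re
        (et _ (((gl_rf gl hw (by linarith [n.p1])).mono (by linarith)).sh (lf y)))) w
  have q := quad_U l1 (by linarith) a3 hb.per hb.curv (by linarith) TH (by positivity) w
  have r : 144 * (2 * R + 1 : ℝ) ^ 6 * (5000 * (S.Q ^ 30 * φ ^ 5) / (S.Q * φ) ^ 2) ≤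
      S.Q ^ 35 * φ ^ 3 := by
    calc _ = 720000 * (2 * R + 1 : ℝ) ^ 6 * (S.Q ^ 28 * φ ^ 3) := by field_simp; ring
      _ ≤ S.Q * S.Q ^ 6 * (S.Q ^ 28 * φ ^ 3) := by gcongr <;> linarith
      _ = _ := by ring
  rw [add_mulVec, dotProduct_add, ← sub_sub] at s
  have s1 := abs_sub_abs_le_abs_sub (w ⬝ᵥ (D - B' * A⁻¹ * B) *ᵥ w -
    w ⬝ᵥ Hs N (tf S.m1 S.T1) θ *ᵥ w) (w ⬝ᵥ H *ᵥ w)
  have w0 := dot_nonneg w
  have nq := NQ_dot (θ := θ) w
  have q1 := (q.trans (mul_le_mul_of_nonneg_right r (NQ_nonneg (ab θ) w))).trans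
    (mul_le_mul_of_nonneg_left nq (by positivity))
  have b1 : 25 * φ ^ 9 + S.Q ^ 35 * φ ^ 3 * 65 ≤ S.Q ^ 36 * φ ^ 3 := by
    have := pow_le_pow_of_le_one φ0.le n.p1 (show 3 ≤ 9 by norm_num)
    have := le_mul_of_one_le_left (pow_pos φ0 3).le (one_le_pow₀ (n := 35) Q1)
    have := mul_le_mul_of_nonneg_right (show 90 ≤ S.Q by linarith)
      (by positivity : 0 ≤ S.Q ^ 35 * φ ^ 3)
    linarith
  have k : |w ⬝ᵥ (D - B' * A⁻¹ * B) *ᵥ w - w ⬝ᵥ Hs N (tf S.m1 S.T1) θ *ᵥ w| ≤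
      S.Q ^ 36 * φ ^ 3 * (w ⬝ᵥ w) := by linarith [mul_le_mul_of_nonneg_right b1 w0]
  refine ⟨k, ?_⟩
  have b2 := n.a (C := 130) (i := 14) (by norm_num) (by norm_num)
  have b3 := n.b (C := 2) (i := 36) (j := 3) (k := 0) (by norm_num) (by norm_num) (by norm_num)
  have b4 := mul_le_mul_of_nonneg_left nq (by positivity : 0 ≤ S.Q ^ 14 * φ)
  have b5 := CQ_nonneg (ab θ) w
  linarith [s2 w, (abs_le.1 k).1, mul_le_mul_of_nonneg_right b2 w0, mul_le_mul_of_nonneg_right b3 w0]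

end Pool.Agent.Lib.MP_7f377f_mp.RG.Q4.Af.Tp
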