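import Pool.Agent.Lib.MP_7f377f_mp.G.ZgH
import Pool.Agent.Lib.MP_7f377f_mp.G.S21Ma

/-! The labels of dimension four are quadratic forms in the curvature. -/

noncomputable section

namespace Pool.Agent.Lib.MP_7f377f_mp.Zf

open MvPolynomial Matrix Set
open Pool.Agent.Lib.MP_7f377f_mp.Lb (Pl Lab pa rho)

variable {K : Type} [RCLike K] {d : ℕ}

/-- quadratic forms in the curvature -/
def quad : Lab K →ₗ[K] Lb d K where
  toFun c := ∑ x, ∑ y, c x y • qd ![x.1, x.2] ![y.1, y.2]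
  map_add' a b := by simp [add_smul, Finset.sum_add_distrib]
  map_smul' t a := by simp [Finset.smul_sum, smul_smul]

theorem quad_eq (c : Lab K) :
    (quad c : Lb d K) = ∑ x, ∑ y, c x y • qd ![x.1, x.2] ![y.1, y.2] := rfl

theorem sum_pl {M : Type} [AddCommMonoid M] (F : (Fin (0 + 2) → Fin 4) → M) :
    ∑ J, F J = ∑ x : Pl, F ![x.1, x.2] := by
  rw [← (piFinTwoEquiv fun _ => Fin 4).symm.sum_comp]
  rfl

theorem rh_quad (g : Matrix (Fin 4) (Fin 4) K) (c : Lab K) :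
    rh g (quad c : Lb d K) = quad (rho g c) := by
  simp only [quad_eq, qd, map_sum, map_smul, map_mul, rh_X, sum_pl, Fin.prod_univ_succ,
    Finset.sum_mul, Finset.mul_sum, Finset.smul_sum, smul_mul_smul_comm, smul_smul, Lb.rho_apply,
    Finset.sum_smul]
  simp only [← Fintype.sum_prod_type']
  refine Fintype.sum_equiv ⟨fun p => (p.2.2.2.2, p.2.2.2.1, p.2.2.1, p.1, p.2.1),
    fun p => (p.2.2.2.1, p.2.2.2.2, p.2.2.1, p.2.1, p.1), fun _ => rfl, fun _ => rfl⟩ _ _ fun p => ?_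
  simp [mul_comm]

theorem ad_qd {A : Matrix (Fin d) (Fin d) ℝ} (h : A * Aᵀ = 1) (I J : Fin 2 → Fin 4) :
    ad A (qd I J : Lb d K) = qd I J := by
  have e : ∀ b c, ∑ a, (A a b : K) * A a c = if b = c then 1 else 0 := fun b c => by
    have : (Aᵀ * A) b c = (1 : Matrix _ _ ℝ) b c := by rw [mul_eq_one_comm.1 h]
    simp only [mul_apply, one_apply, transpose_apply] at this
    simp only [← RCLike.ofReal_mul, ← RCLike.ofReal_sum, this]
    split_ifs <;> simp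
  simp only [qd, map_sum, map_mul, ad_X, Finset.sum_mul, Finset.mul_sum, smul_mul_smul_comm]
  rw [Finset.sum_comm]
  refine Finset.sum_congr rfl fun b _ => ?_
  rw [Finset.sum_comm]
  simp [← Finset.sum_smul, e]

theorem ad_quad {A : Matrix (Fin d) (Fin d) ℝ} (h : A * Aᵀ = 1) (c : Lab K) :
    ad A (quad c : Lb d K) = quad c := by
  simp only [quad_eq, map_sum, map_smul, ad_qd h]

theorem hm_quad (c : Lab K) : Hm (quad c : Lb d K) 4 := by
  have e : ∀ I J, Hm (qd I J : Lb d K) 4 := fun I J => .sum _ _ _ fun _ _ =>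
    (isWeightedHomogeneous_X K wt _).mul (isWeightedHomogeneous_X K wt _)
  rw [quad_eq]
  exact .sum _ _ _ fun _ _ => .sum _ _ _ fun _ _ => (e _ _).smul _

theorem eval_quad (ξ : YZ.Var d → K) (c : Lab K) : eval ξ (quad c) =
    ∑ a, (fun x : Pl => ξ (⟨0, ![x.1, x.2]⟩, a)) ⬝ᵥ c *ᵥ fun x => ξ (⟨0, ![x.1, x.2]⟩, a) := by
  simp only [quad_eq, qd, map_sum, smul_eval, map_mul, eval_X, Finset.mul_sum, dotProduct, mulVec]
  rw [(Finset.sum_congr rfl fun _ _ => Finset.sum_comm).trans Finset.sum_comm]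
  simp only [mul_left_comm]

theorem form_pa {u : Pl → ℝ} (hu : ∀ x, u x.swap = -u x) (c : Lab ℝ) :
    u ⬝ᵥ pa c *ᵥ u = u ⬝ᵥ c *ᵥ u := by
  have e : Lb.an *ᵥ u = u := funext fun x => by
    have := Lb.an_mul (of fun x _ => u x : Lab ℝ) x x
    simp only [mul_apply, of_apply, hu] at this
    exact this.trans (by ring)
  have e' : u ᵥ* Lb.an = u := by rw [← mulVec_transpose, Lb.an_tr, e]
  rw [pa, ← mulVec_mulVec, ← mulVec_mulVec, e, dotProduct_mulVec, e', Lb.sy, smul_mulVec, add_mulVec,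
    dotProduct_smul, dotProduct_add, mulVec_transpose, dotProduct_comm u (u ᵥ* c),
    ← dotProduct_mulVec, smul_eq_mul]
  ring

theorem quad_pa (c : Lab ℝ) : (quad (pa c) - quad c : Lb d ℝ) ∈ Nl d ℝ :=
  mem_Nl.2 fun ξ ⟨η, _, hξ⟩ => by
    rw [map_sub, eval_quad, eval_quad, sub_eq_zero]
    exact Finset.sum_congr rfl fun a _ => form_pa (fun x => by simp [hξ]) c

theorem fis_XX2 {σ : Type} [DecidableEq σ] (u v p q : σ) :
    fis (X u * X v) (X p * X q : MvPolynomial σ ℝ) =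
      (if u = p ∧ v = q then 1 else 0) + if u = q ∧ v = p then 1 else 0 := by
  rw [fis_X, Derivation.leibniz, pderiv_X, pderiv_X]
  simp only [Pi.single_apply, smul_eq_mul, mul_ite, mul_one, mul_zero, map_add, apply_ite (fis _),
    map_zero, fis_XX, ite_and, eq_comm (a := u), add_comm]

theorem fis_qd (x y : Pl) (c : Lab ℝ) :
    fis (qd ![x.1, x.2] ![y.1, y.2] : Lb d ℝ) (quad c) = d * (c x y + c y x) := by
  have e : ∀ x y : Pl, ![x.1, x.2] = ![y.1, y.2] ↔ x = y := fun x y => by simp [Prod.ext_iff]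
  simp only [quad_eq, qd, map_sum, map_smul, LinearMap.sum_apply, fis_XX2, Prod.mk.injEq,
    Sigma.mk.injEq, heq_eq_eq, true_and, e, smul_eq_mul]
  simp [ite_and, Finset.sum_add_distrib, mul_add, mul_comm (d : ℝ), add_mul]

/-- antisymmetrisation of the curvature -/
def alt0 : Lb d ℝ →ₐ[ℝ] Lb d ℝ := aeval fun p =>
  if p.1.1 = 0 then X (⟨0, ![p.1.2 0, p.1.2 1]⟩, p.2) - X (⟨0, ![p.1.2 1, p.1.2 0]⟩, p.2) else 0

theorem alt0_nl {c : Lb d ℝ} (h : c ∈ Nl d ℝ) : alt0 c = 0 := MvPolynomial.funext fun ξ => by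
  rw [map_zero, ← mem_Nl.1 h _ (on_const fun a => of fun i j => ξ (⟨0, ![i, j]⟩, a))]
  refine AlgHom.congr_fun (φ₁ := (aeval ξ).comp alt0) (φ₂ := aeval _) (algHom_ext fun p => ?_) c
  simp only [AlgHom.comp_apply, alt0, aeval_X]
  split_ifs <;> simp

theorem fis_alt (P Q : Lb d ℝ) : fis (alt0 P) Q = fis P (alt0 Q) := by
  have k : ∀ u : YZ.Var d, alt0 (X u) ∈ Submodule.span ℝ (range X) := fun u => by
    rw [alt0, aeval_X]
    split_ifs
    exacts [sub_mem (Submodule.subset_span ⟨_, rfl⟩) (Submodule.subset_span ⟨_, rfl⟩), zero_mem _]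
  refine fis_adj _ _ k k (fun ⟨⟨n, I⟩, a⟩ ⟨⟨m, J⟩, b⟩ => ?_) P Q
  simp only [alt0, aeval_X]
  have e : ∀ I : Fin (0 + 2) → Fin 4, ∃ i j, I = ![i, j] := fun I =>
    ⟨I 0, I 1, funext fun r => by fin_cases r <;> rfl⟩
  rcases n with _ | n <;> rcases m with _ | m
  · obtain ⟨i, j, rfl⟩ := e I
    obtain ⟨i', j', rfl⟩ := e J
    simp [fis_XX, and_comm]
  all_goals simp [fis_XX]

theorem alt0_quad {c : Lab ℝ} (h : pa c = c) : alt0 (quad c : Lb d ℝ) = (4 : ℝ) • quad c := by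
  simp only [quad_eq, qd, map_sum, map_smul, map_mul, alt0, aeval_X, if_true, cons_val_zero,
    cons_val_one, sub_mul, mul_sub, Finset.sum_sub_distrib, smul_sub]
  have a : ∀ F : Pl → Pl → Lb d ℝ, ∑ x, ∑ y, c x y • F x.swap y = -∑ x, ∑ y, c x y • F x y :=
    fun F => by
      rw [← (Equiv.prodComm _ _).sum_comp]
      simp [Lb.sw_of h]
  have b : ∀ F : Pl → Pl → Lb d ℝ, ∑ x, ∑ y, c x y • F x y.swap = -∑ x, ∑ y, c x y • F x y :=
    fun F => by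
      rw [← Finset.sum_neg_distrib]
      refine Finset.sum_congr rfl fun x _ => ?_
      rw [← (Equiv.prodComm _ _).sum_comp]
      simp [Lb.sw_of' h]
  have a1 := a fun x y => qd ![x.1, x.2] ![y.1, y.2]
  have a2 := a fun x y => qd ![x.1, x.2] ![y.2, y.1]
  have b1 := b fun x y => qd ![x.1, x.2] ![y.1, y.2]
  simp only [qd, Prod.fst_swap, Prod.snd_swap] at a1 a2 b1
  rw [a1, a2, b1]
  module

theorem quad_Cm {c : Lab ℝ} (h : pa c = c) (t : ∀ i k, ∑ j, c (i, j) (k, j) = 0) :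
    quad c ∈ Cm d := Submodule.mem_sup_right fun u hu => by
  obtain ⟨a, ha, b, hb, rfl⟩ := Submodule.mem_sup.1 hu
  have e := fis_alt b (quad c)
  rw [alt0_nl hb, alt0_quad h] at e
  have e' : fis a (quad c) = 0 := A4_map (L := .id) (S := LinearMap.ker (fis.flip (quad c)))
    (fun μ ν => by
      change fis (∑ l, qd ![μ, l] ![ν, l]) _ = 0
      rw [map_sum, LinearMap.sum_apply, Finset.sum_congr rfl fun l _ => fis_qd (μ, l) (ν, l) c]
      simp [← Finset.mul_sum, Finset.sum_add_distrib, t]) ha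
  rw [map_zero, map_smul, LinearMap.zero_apply, smul_eq_mul] at e
  rw [inner_eq, map_add, LinearMap.add_apply, e']
  linarith

end Pool.Agent.Lib.MP_7f377f_mp.Zf

namespace Pool.Agent.Lib.MP_7f377f_mp.Zg
variable [Pool.Agent.Lib.MP_7f377f_mp.GD]
set_option linter.unusedSectionVars false

open MvPolynomial Set YM7 Pur Wm Wv Matrix Sw Zf
open Ro (Iso)
open scoped Kronecker
open Pool.Agent.Lib.MP_7f377f_mp.Lb (Pl pa pc rho Cl Tp ref wv)

variable {d : ℕ} {𝒜 : Set (Matrix (Fin d) (Fin d) ℝ)} [o : Og 𝒜] {c : Lb.Lab ℝ} {v : V0 𝒜}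

variable (𝒜) in
/-- quadratic forms as labels -/
def qv : Lb.Lab ℝ →ₗ[ℝ] V0 𝒜 := (pj ∘ₗ quad).codRestrict _ fun c =>
  pj_v0 (mem_Iv.2 fun A a => ad_quad (o.orth A a) c)

theorem qv_val (c : Lb.Lab ℝ) : (qv 𝒜 c).1 = pj (quad c) := rfl

theorem qv_pa (c : Lb.Lab ℝ) : qv 𝒜 (pa c) = qv 𝒜 c :=
  Subtype.ext (sub_eq_zero.1 ((map_sub pj _ _).symm.trans (pj_null.2 (quad_pa c))))

theorem qv_r0 (R : Iso) (c : Lb.Lab ℝ) : r0 𝒜 R (qv 𝒜 c) = qv 𝒜 (rho (Lb.mx R) c) :=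
  Subtype.ext ((pj_rh (mat_o R) _).symm.trans (congrArg pj (rh_quad _ c)))

theorem qv_gr (n : ℕ) (c : Lb.Lab ℝ) : (fil 𝒜).π n (qv 𝒜 c) = if n = 4 then qv 𝒜 c else 0 :=
  Subtype.ext (by
    rw [π_val, qv_val, ← pj_hc, (hm_quad c).hc_eq]
    split_ifs
    exacts [rfl, map_zero _])

theorem qv_mem (c : Lb.Lab ℝ) : qv 𝒜 c ∈ (fil 𝒜).F 4 := pj_Fd (hm_quad c).mem

theorem ev_qv {F : Mat} (h : ∀ i j, F j i = -F i j) (c : Lb.Lab ℝ) :
    ev F (qv 𝒜 c) = (fun x : Pl => F x.1 x.2) ⬝ᵥ pa c *ᵥ fun x => F x.1 x.2 := by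
  have a : xi d F ∈ On d := by
    convert on_const fun a : Fin d => if a.1 = 0 then (2⁻¹ : ℝ) • F else 0 using 2 with p
    simp only [xi, ite_and]
    split_ifs <;> simp [h (p.1.2 0)]
    ring
  have b := mem_Nl.1 (sub_pj (quad c)) _ a
  rw [map_sub, sub_eq_zero] at b
  rw [form_pa fun x => h _ _, ev_val, qv_val]
  refine b.symm.trans ?_
  simp only [quad_eq, qd, map_sum, smul_eval, map_mul, eval_X, RCLike.ofReal_real_eq_id, id,
    sum_xi o.two, dotProduct, mulVec, Finset.mul_sum]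
  simp [mul_left_comm]

/-- the coefficients of a label -/
def cf : V0 𝒜 →ₗ[ℝ] Lb.Lab ℝ := LinearMap.pi fun x => LinearMap.pi fun y => (8⁻¹ : ℝ) •
  (ev (of fun i j => wv x (i, j) + wv y (i, j)) - ev (of fun i j => wv x (i, j)) -
    ev (of fun i j => wv y (i, j)) + ev 0)

theorem cf_apply (v : V0 𝒜) (x y : Pl) : cf v x y = 8⁻¹ *
    (ev (of fun i j => wv x (i, j) + wv y (i, j)) v - ev (of fun i j => wv x (i, j)) v -
      ev (of fun i j => wv y (i, j)) v + ev 0 v) := rfl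

theorem cf_u0 : cf (u0 𝒜) = 0 := by
  ext x y
  simp [cf_apply, ev_u0]

theorem cf_qv (c : Lb.Lab ℝ) : cf (qv 𝒜 c) = pa c := by
  ext x y
  have w : ∀ (x : Pl) i j, (wv x (j, i) : ℝ) = -wv x (i, j) := fun x i j => by
    simp [wv, Prod.ext_iff, and_comm]
  have p := Lb.pa_pa (c := c)
  have e : ∀ x y, wv x ⬝ᵥ pa c *ᵥ wv y = 4 * pa c x y := fun x y => by
    simp [wv, dotProduct, mulVec, sub_mul, mul_sub, Lb.sw_of p, Lb.sw_of' p]
    ring
  rw [cf_apply, ev_qv fun i j => by simp [w x i j, w y i j, add_comm], ev_qv fun i j => by simp [w x i j],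
    ev_qv fun i j => by simp [w y i j], ev_qv (by simp)]
  change 8⁻¹ * ((wv x + wv y) ⬝ᵥ pa c *ᵥ (wv x + wv y) - wv x ⬝ᵥ pa c *ᵥ wv x -
    wv y ⬝ᵥ pa c *ᵥ wv y + 0 ⬝ᵥ _) = _
  simp only [mulVec_add, add_dotProduct, dotProduct_add, e, zero_dotProduct,
    show pa c y x = pa c x y from congrFun₂ Lb.pa_tr x y]
  ring

/-- the labels of dimension at most four -/
theorem f4 (h : v ∈ (fil 𝒜).F 4) : ∃ (a : ℝ) (c : Lb.Lab ℝ), pa c = c ∧ v = a • u0 𝒜 + qv 𝒜 c := by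
  obtain ⟨a, w, k⟩ := cl0 v.2.1 h
  refine ⟨a, _, Lb.pa_pa (c := of fun x y => w ![x.1, x.2] ![y.1, y.2]), Subtype.ext ?_⟩
  rw [qv_pa, ← pj_of v.2.2, k, map_add, sum_pl, C_eq_smul_one, map_smul, pj_of one_Cm]
  simp only [sum_pl]
  rfl

theorem u0_gr : (fil 𝒜).π 4 (u0 𝒜) = 0 :=
  Subtype.ext (Hm.hc_eq (D := 0) (isWeightedHomogeneous_one ℝ wt) 4)

/-- covariant maps are scalar on the classes -/
theorem schur4 {M : V0 𝒜 →ₗ[ℝ] V0 𝒜} (gr : ∀ c, M ((fil 𝒜).π 4 c) = (fil 𝒜).π 4 (M c))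
    (cm : ∀ R c, M (r0 𝒜 R c) = r0 𝒜 R (M c)) :
    ∃ μ : Cl → ℝ, ∀ l c, pc l c = c → M (qv 𝒜 c) = μ l • qv 𝒜 c := by
  have a : ∀ c, ∃ c', pa c' = c' ∧ M (qv 𝒜 c) = qv 𝒜 c' := fun c => by
    have e := gr (qv 𝒜 c)
    rw [qv_gr, if_pos rfl] at e
    obtain ⟨a, c', p, k⟩ := f4 (v := M (qv 𝒜 c)) (e ▸ (hc_hm 4 _).mem)
    exact ⟨c', p, by rw [e, k, map_add, map_smul, u0_gr, smul_zero, zero_add, qv_gr, if_pos rfl]⟩
  obtain ⟨μ, e⟩ := Lb.schur_o4 (M := cf ∘ₗ M ∘ₗ qv 𝒜) (fun c => by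
    obtain ⟨c', -, k⟩ := a c
    simp only [LinearMap.comp_apply, k, cf_qv, Lb.pa_pa]) fun g hg c => by
      obtain ⟨R, rfl⟩ := Lb.exists_mx hg
      obtain ⟨c', -, k⟩ := a c
      simp only [LinearMap.comp_apply, ← qv_r0, cm, k]
      rw [qv_r0, cf_qv, cf_qv, Lb.pa_rho hg]
  refine ⟨μ, fun l c h => ?_⟩
  obtain ⟨c', p, k⟩ := a c
  have := e c
  simp only [LinearMap.comp_apply, qv_pa, k, cf_qv, p] at this
  rw [k, this, ← map_smul, ← h]
  simp only [Lb.pc_pc, smul_ite, smul_zero, Finset.sum_ite_eq', Finset.mem_univ, if_true]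

/-- labels with the signed symmetries of a type -/
theorem typ_v (τ : Tp) (t : τ ≠ .s) (h : v ∈ (fil 𝒜).F 4)
    (hT : ∀ g ∈ τ.T, r0 𝒜 (Cm.gi g.1) v = (RG.Q4.En.Ty.sb g.2 : ℝ) • v) : ∃ a : ℝ, v = a • qv 𝒜 (ref τ) := by
  obtain ⟨a, c, p, rfl⟩ := f4 h
  have e := Lb.uniq τ p fun g hg => by
    have := congrArg cf (hT g hg)
    simpa only [map_add, map_smul, r0_u0, qv_r0, cf_u0, cf_qv, smul_zero, zero_add, Cm.mx_gi,
      Lb.pa_rho (Lb.gm_orth _), p] using this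
  obtain ⟨g, hg, s⟩ := (by decide : ∀ τ : Tp, τ ≠ .s → ∃ g ∈ τ.T, g.2 = true) τ t
  have := congrArg (ev 0) (hT g hg)
  simp only [map_add, map_smul, r0_u0, qv_r0, ev_u0, ev_qv (F := 0) (by simp), s,
    RG.Q4.En.Ty.sb] at this
  have a0 : a = 0 := by simpa [self_eq_neg] using this
  exact ⟨_, by rw [a0, zero_smul, zero_add, ← map_smul, ← e]⟩

theorem qv_ne (p : pa c = c) (h : c ≠ 0) : qv 𝒜 c ≠ 0 := fun e =>
  h (by rw [← p, ← cf_qv (𝒜 := 𝒜), e, map_zero])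

theorem qv_tl (p : pa c = c) (t : ∀ i k, ∑ j, c (i, j) (k, j) = 0) : (qv 𝒜 c).1 = quad c :=
  pj_of (quad_Cm p t)

theorem qv_kr (μ ν : Fin 4) : qv 𝒜 (single μ ν 1 ⊗ₖ 1) = f0 𝒜 μ ν := Subtype.ext (by
  rw [qv_val, show quad (single μ ν 1 ⊗ₖ 1) = (ff μ ν : Lb d ℝ) by
    simp [quad_eq, Fintype.sum_prod_type, single, one_apply, ite_and, ff, qd], pj_of (ff_Cm μ ν)]
  rfl)

theorem qv_one : qv 𝒜 1 = (4 : ℝ) • l0 𝒜 := by
  rw [l0, smul_smul, mul_inv_cancel₀ four_ne_zero, one_smul, ← Finset.sum_congr rfl fun μ _ =>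
    qv_kr μ μ, ← map_sum]
  congr 1
  ext ⟨i, j⟩ ⟨k, l⟩
  by_cases e : j = l <;> simp [Matrix.sum_apply, single, one_apply, ite_and, eq_comm, e]

open Complex ComplexConjugate
open YZ (Lab)

variable {O : Matrix (Fin d) (Fin d) ℝ}

theorem br1 (hO : O * Oᵀ = 1) : ∃ p inc,
    Br (fil 𝒜) (r0 𝒜) (S0 𝒜) ((Iv ℂ 𝒜).comap (ad O)) p inc (l0 𝒜) (tt 𝒜) ∧
      ∀ v, inc v = ad Oᵀ (io v.1) := by
  obtain ⟨E, e⟩ := LinearMap.exists_extend (p := V0 𝒜) LinearMap.id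
  have k (v : V0 𝒜) : E v = v := LinearMap.congr_fun e v
  have hO' := mul_eq_one_comm.1 hO
  have a (c : Lab d) : ad O (ad Oᵀ c) = c := by rw [← ad_mul, hO', ad_one]
  have n {c : Lab d} : c ∈ (Iv ℂ 𝒜).comap (ad O) ↔ ∀ A ∈ 𝒜, ad A (ad O c) = ad O c := mem_Iv
  have m {c : Lab d} (h : c ∈ (Iv ℂ 𝒜).comap (ad O)) (b) :
      (E (pj (rp b (ad O c)))).1 = pj (rp b (ad O c)) :=
    congrArg _ (k ⟨_, pj_v0 (mem_Iv.2 fun A hA => ((ad_io A).2 _ _).symm.trans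
      (congrArg _ (n.1 h A hA)))⟩)
  have f (μ ν) : ad Oᵀ (io (ff μ ν)) = YZ.FF μ ν := by
    rw [(ad_io _).1, ad_ff hO']
    simp [ff, YZ.FF, io_X]
  have l : ad Oᵀ (io lg) = YZ.lag := by
    simp only [lg, map_smul, map_sum, AlgHom.map_smul_of_tower, f, YZ.lag]
    rw [← algebraMap_smul ℂ]
    simp
  refine ⟨fun b => E ∘ₗ pj ∘ₗ rp b ∘ₗ (ad O).toLinearMap.restrictScalars ℝ,
    (ad Oᵀ).toLinearMap.restrictScalars ℝ ∘ₗ io.toLinearMap ∘ₗ (V0 𝒜).subtype, ⟨fun v => ?_,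
    fun c h => ?_, fun g c h => ?_, fun v => ?_, fun v => ?_, fun c _ => ?_, fun c _ => ?_,
    fun g s hg c h z b => ?_, fun R v => ?_, fun t n v => ?_, fun R n v => r0_gr R n v,
    fun D v h => ?_, fun _ f hf => ?_, fun _ c f h hf => ?_, ?_, fun μ ν => ?_, r0_l0⟩,
    fun _ => rfl⟩
  · exact n.2 fun A hA => by simp only [LinearMap.comp_apply, LinearMap.restrictScalars_apply,
      AlgHom.toLinearMap_apply, a, (ad_io A).1, Submodule.subtype_apply, mem_Iv.1 v.2.1 A hA]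
  · exact n.2 fun A hA => by rw [ad_star, ad_star, n.1 h A hA]
  · exact n.2 fun A hA => by
      change ad A (ad O (rh g c)) = ad O (rh g c)
      rw [ad_rh, ad_rh, n.1 h A hA]
  · ext
    simp [(ad_io _).1, coeff_map, coeff_io]
  · have r (b) (v : Lb d ℝ) : rp b (io v) = if b = 0 then v else 0 := by
      ext
      fin_cases b <;> simp [coeff_rp, coeff_io]
    simp [a, r, pj_of v.2.2, k]
  · have r (c : Lab d) : rp 0 (I • c) = -rp 1 c ∧ rp 1 (I • c) = rp 0 c := by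
      constructor <;> ext <;> simp [coeff_rp]
    simp [r]
  · have r (c : Lab d) : rp 0 (map conj c) = rp 0 c ∧ rp 1 (map conj c) = -rp 1 c := by
      constructor <;> ext <;> simp [coeff_rp, coeff_map]
    simp [ad_star, r]
  · change E (pj (rp b (ad O (rh _ c)))) = 0
    rw [ad_rh, (rh_io g).2, pj_rh hg, ← m h, show E (pj (rp b (ad O c))) = 0 from z b]
    simp
  · exact (ad_rh _ _ _).symm.trans (congrArg _ ((rh_io _).1 _))
  · exact rh_smul (hm_ad _ fun m e => hc_hm n v.1 fun z => e (by simp [coeff_io, π_val, z])) t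
  · exact mem_Fd.1 (Fd_up (n := 0) (L := (ad Oᵀ).toLinearMap) (fun _ _ => hm_ad _)
      (mem_Fd0.2 fun m e => mem_Fd0.1 h m fun z => e ((coeff_io _ _).trans (by simpa using z))))
  · exact ⟨ofRealAm.toLinearMap.compMultilinearMap ((frm (.of hf)).compLinearMap
      fun _ => (V0 𝒜).subtype), fun _ => rfl⟩
  · have : fr c f = fr (fun i => ad O (c i)) f := by simp only [fr, (s_cov _ c _).2.2 O hO]
    rw [s_link _ _ _ hf, this, ← frm_apply (.of hf), ← funext fun i => rp_dec (ad O (c i)),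
      MultilinearMap.map_sum]
    refine Finset.sum_congr rfl fun s _ => ?_
    rw [MultilinearMap.map_smul_univ, frm_apply]
    exact congrArg _ ((fr_real _ f).trans (congrArg _ (fr_mod (fun i => by
      exact (m (h i) _).symm ▸ sub_pj _) f)))
  · exact (congrArg (fun c => ad Oᵀ (io c)) l0_val).trans l
  · change ad Oᵀ (io (tt 𝒜 μ ν).1) = _
    rw [tt_val, t0]
    split_ifs <;> simp [f, l]

variable {L : Subalgebra ℂ (Lab d)} {p : Fin 2 → Lab d →ₗ[ℝ] V0 𝒜} {inc : V0 𝒜 →ₗ[ℝ] Lab d}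

theorem io_quad (c : Lb.Lab ℝ) : io (quad c : Lb d ℝ) = quad (Cm.cx c) := by
  simp [quad_eq, qd, Cm.cx, io_X]

/-- the renormalisation of the complex labels on a class without trace -/
theorem mm_quad (hO : O * Oᵀ = 1) (br : Br (fil 𝒜) (r0 𝒜) (S0 𝒜) L p inc (l0 𝒜) (tt 𝒜))
    (hi : ∀ v, inc v = ad Oᵀ (io v.1)) {F : V0 𝒜 ≃ₗ[ℝ] V0 𝒜} {l : Cl} {m : ℝ}
    (hF : ∀ c, pc l c = c → F (qv 𝒜 c) = m • qv 𝒜 c) {c : Lb.Lab ℂ} (h : pc l c = c)
    (t : ∀ i k, ∑ j, c (i, j) (k, j) = 0) {v : L} (e : v.1 = quad c) : br.mm F v = m • v := by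
  have k : ∀ a : Lb.Lab ℝ, pc l a = a → (∀ i k, ∑ j, a (i, j) (k, j) = 0) →
      ∃ w : L, w.1 = quad (Cm.cx a) ∧ br.mm F w = m • w := fun a h t => by
    have e : inc (qv 𝒜 a) = quad (Cm.cx a) := by
      rw [hi, qv_tl (h ▸ Lb.pa_pc l) t, io_quad, ad_quad (A := Oᵀ) (mul_eq_one_comm.1 hO)]
    exact ⟨⟨_, br.mem _⟩, e, Subtype.ext (by rw [br.mm_inc F rfl, hF a h, map_smul]; rfl)⟩
  have c1 : c = Cm.cx (c.map re) + I • Cm.cx (c.map im) := by
    ext x y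
    simp [Cm.cx, mul_comm I]
  have c2 : Cm.cx (pc l (c.map re)) + I • Cm.cx (pc l (c.map im)) = c := by
    rw [Cm.cx_pc, Cm.cx_pc, ← Lb.pc_smul, ← Lb.pc_add, ← c1, h]
  obtain ⟨w, w1, w2⟩ := k (c.map re) (by
    ext x y
    simpa [Cm.cx] using congrArg re (congrFun₂ c2 x y)) fun i k => by
      simpa using congrArg re (t i k)
  obtain ⟨u, u1, u2⟩ := k (c.map im) (by
    ext x y
    simpa [Cm.cx] using congrArg im (congrFun₂ c2 x y)) fun i k => by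
      simpa using congrArg im (t i k)
  obtain rfl : v = w + I • u := Subtype.ext (by
    rw [e, c1, map_add, map_smul, ← w1, ← u1]
    rfl)
  rw [map_add, map_smul, w2, u2, smul_add, smul_comm]

theorem alt_tr {c : Lb.Lab ℂ} (h : YF.Alt c) (i k : Fin 4) : ∑ j, c (i, j) (k, j) = 0 :=
  Finset.sum_eq_zero fun j _ => by
    linear_combination (h i j j k).2.2 - 2⁻¹ * (h i j j k).2.1

end Pool.Agent.Lib.MP_7f377f_mp.Zg
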