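import Pool.Agent.Lib.MP_7f377f_mp.G.CmG
import Pool.Agent.Lib.MP_7f377f_mp.G.OpY

/-! The fields of dimension four couple to the scalar field. -/

noncomputable section

namespace Pool.Agent.Lib.MP_7f377f_mp.Lb

open Filter Topology Finset Function Matrix YG

variable {w : ℝ} {l : Cl} {b c : Lab ℝ}

/-- the classes are irreducible -/
theorem ip_orb (hc : pc l c = c) (c0 : c ≠ 0) (hb : pc l b ≠ 0) :
    ∃ g : M4 ℝ, gᵀ * g = 1 ∧ ip c (rho g b) ≠ 0 := by
  by_contra! h
  let U := Submodule.span ℝ {x | ∃ g : M4 ℝ, gᵀ * g = 1 ∧ rho g (pc l b) = x}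
  have r : (ipL (K := ℝ)).IsRefl := fun x y e => (ip_comm y x).trans e
  have k : IsCompl U (LinearMap.BilinForm.orthogonal ipL U) :=
    LinearMap.BilinForm.isCompl_orthogonal_of_restrict_nondegenerate r
      (LinearMap.BilinForm.nondegenerate_restrict_of_disjoint_orthogonal _ r
        (Submodule.disjoint_def.2 fun x e e' => by_contra fun n => (ip_self_pos n).ne' (e' x e)))
  have i : ∀ g : M4 ℝ, gᵀ * g = 1 → ∀ x ∈ U, rho g x ∈ U := fun g hg x hx =>
    (Submodule.span_le (p := U.comap (rhoL g))).2 (by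
      rintro _ ⟨g', e, rfl⟩
      exact Submodule.subset_span (R := ℝ) ⟨g * g', by
        rw [transpose_mul, Matrix.mul_assoc, ← Matrix.mul_assoc gᵀ, hg, Matrix.one_mul, e],
        rho_mul ..⟩) hx
  have p : ∀ x ∈ U, pa x = x := fun x hx => Submodule.span_induction (by
    rintro _ ⟨g, e, rfl⟩
    rw [pa_rho e, pa_pc]) paL.map_zero (fun _ _ _ _ a b => by rw [pa_add, a, b])
      (fun _ _ _ a => by rw [pa_smul, a]) hx
  obtain ⟨μ, hμ⟩ := schur_o4 (M := U.projection _ k)
    (fun a => p _ (U.projection_apply_mem k a)) fun g hg a => by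
      obtain ⟨x, y, rfl, -⟩ := Submodule.existsUnique_add_of_isCompl k a
      have := Submodule.projection_apply_left k ⟨_, i g hg x x.2⟩
      have t := Submodule.projection_apply_right k ⟨rho g y, fun u hu =>
        ip_rho'.trans (y.2 _ (i _ (mul_eq_one_comm.1 hg) u hu))⟩
      simp only [rho_add, map_add, this, t, Submodule.projection_apply_left,
        Submodule.projection_apply_right, add_zero]
  have f : ∀ a, U.projection _ k (pc l a) = μ l • pc l a := fun a => by
    refine (congrArg _ (pa_pc l).symm).trans ((hμ _).trans ?_)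
    rw [sum_eq_single l (fun j _ n => by simp [pc_pc, n]) (by simp), pc_pc, if_pos rfl]
  have m : pc l b ∈ U := Submodule.subset_span ⟨1, by simp, rho_one _⟩
  have e := f b
  rw [Submodule.projection_apply_left k ⟨_, m⟩] at e
  have u := f c
  rw [hc, Submodule.projection_apply_right k ⟨c, fun x hx => Submodule.span_induction
    (p := fun x _ => ip x c = 0) (by
      rintro _ ⟨g, e, rfl⟩
      rw [← pc_rho e, ← ip_pc, hc, ip_comm, h g e]) (by simp [ip])
      (fun _ _ _ _ a b => by rw [add_ip, a, b, add_zero])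
      (fun _ _ _ a => by rw [smul_ip, a, mul_zero]) hx⟩] at u
  exact hb (e.trans (by rw [(smul_eq_zero.1 u.symm).resolve_right c0, zero_smul]))

theorem lq_far {A K : Type} [Fintype A] [DecidableEq A] [CommRing K] {w : K} {m : ℕ}
    {k : Fin (m + 1) → Fin (m + 1) → Matrix A A K} {x : Matrix A A K} (h0 : k 0 0 = 0)
    (h : ∀ i : Fin m, k i.succ 0 = x) :
    lq w k = ∑ j, lq w (col (fun i j : Fin m => k i.succ j.succ) j (x * k 0 j.succ)) := by
  have a := lq_chain (w := w) k 0 x
  have b := lq_chain (w := w) (fun i j => if i = 0 then 0 else k i j) 0 x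
  have z : ∀ (k : Fin m → Fin m → Matrix A A K) j, lq w (col k j 0) = 0 := fun k j =>
    (lqC w k j).map_zero
  simp only [Fin.succAbove_zero, Fin.succ_ne_zero, if_false, if_true, Matrix.mul_zero, z,
    sum_const_zero, add_zero] at a b
  refine add_left_cancel (.trans ?_ (a.trans (congrArg₂ _ b.symm rfl)))
  rw [lq, lq, lq, ← sum_add_distrib]
  refine sum_congr rfl fun σ _ => (mul_add ..).symm.trans (congrArg _ ?_)
  by_cases e : σ 0 = 0
  · rw [tm_zero (k := k) (i := 0) (by rw [e, h0]), add_zero]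
    refine tm_congr fun i => ?_
    by_cases u : i = 0 <;> simp [col, u, e]
  · rw [tm_zero (i := 0) (by simp [col, e]), zero_add]
    refine tm_congr fun i => ?_
    rw [col]
    split_ifs with u
    · rw [u]
      exact Fin.cases (motive := fun i => σ i = 0 → k i 0 = x) (fun u => (e u).elim) (fun i _ => h i) i u
    · rfl

/-- every field of a class couples to the scalar fields -/
theorem frL_ne (hw : w ≠ 0) (hc : pc l c = c) (n : c ≠ 0) : ∃ y : Fin (l.m + 1) → R4,
    Injective y ∧ (∀ j : Fin l.m, y j.succ 0 < y 0 0) ∧ frL w (Fin.cons c fun _ => c0) y ≠ 0 := by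
  obtain ⟨y₀, i₀, b₀⟩ := num hw l
  let v : R4 := EuclideanSpace.single 0 1
  have v0 : v ≠ 0 := by simp [v]
  have o := mr_orth v0
  obtain ⟨g, hg, e⟩ := ip_orb hc n b₀
  obtain ⟨R, hR⟩ := exists_mx (g := mr v * g) (by
    rw [transpose_mul, Matrix.mul_assoc, ← Matrix.mul_assoc _ (mr v), o, Matrix.one_mul, hg])
  obtain ⟨y, hy⟩ : ∃ y, y = fun i => R (y₀ i) := ⟨_, rfl⟩
  have i : Injective y := hy ▸ R.injective.comp i₀
  let K (t : ℝ) (i j : Fin (l.m + 1)) : Lab ℝ := Fin.cases (Fin.cases 0 (fun j => pr (t • y j - v)) j)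
    (fun i => Fin.cases (pr (v - t • y i)) (fun j => pr (y j - y i)) j) i *
      sy ((Fin.cons c fun _ => c0 : Fin _ → Lab ℝ) j)
  have k : ContinuousAt (fun t => lq w (K t)) 0 := lq_cont fun i j => by
    refine ContinuousAt.mul ?_ continuousAt_const
    refine Fin.cases ?_ (fun i => ?_) i <;> refine Fin.cases ?_ (fun j => ?_) j <;>
      simp only [Fin.cases_zero, Fin.cases_succ]
    · exact continuousAt_const
    · exact (pr_cont (by simpa using v0)).comp (f := fun t : ℝ => t • y j - v) (by fun_prop)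
    · exact (pr_cont (by simpa using v0)).comp (f := fun t : ℝ => v - t • y i) (by fun_prop)
    · exact continuousAt_const
  have k0 : lq w (K 0) ≠ 0 := fun z => by
    have p : pa c = c := by rw [← hc, pa_pc]
    have q : cᵀ = c := by rw [← p, pa_tr]
    have a : pr v * c * pr v = (2 / ‖v‖ ^ 4) ^ 2 • rho (mr v) c := by
      rw [pr_eq, rho, kk_tr, mr_tr, Matrix.smul_mul, Matrix.smul_mul, Matrix.mul_smul, smul_smul, sq,
        Matrix.mul_assoc _ an, ← p, an_pa, kk_an, ← Matrix.mul_assoc, Matrix.mul_assoc _ _ an, pa_an]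
    have b := ip_B (w := w) (y := y) (pr v * c * pr v)
    rw [lq_far (x := pr v * c) (by simp [K]) fun i => by simp [K, sy_of q]] at z
    simp only [K, Fin.cases_succ, Fin.cases_zero, Fin.cons_succ, sy_c0, zero_smul, zero_sub,
      pr_neg] at z
    simp only [c0, Matrix.mul_smul, Matrix.mul_one, ← Matrix.mul_assoc] at z
    simp only [transpose_mul, pr_tr, q, Matrix.mul_smul, ← Matrix.mul_assoc] at b
    rw [Matrix.mul_assoc _ _ an, pr_an, z, mul_zero, a, smul_ip, hy, B_rot, hR, rho_mul,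
      ip_rho o] at b
    exact mul_ne_zero (by simp [v]) e b
  have s : ∀ᶠ t in 𝓝 (0 : ℝ), ∀ j, t * y j 0 < 1 := eventually_all.2 fun j =>
    (Continuous.continuousAt (by fun_prop)).eventually_lt continuousAt_const (by simp)
  obtain ⟨t, ⟨t1, t2⟩, t3⟩ := ((((k.eventually_ne k0).and s).filter_mono nhdsWithin_le_nhds).and
    (self_mem_nhdsWithin (s := Set.Ioi 0))).exists
  have t0 : t ≠ 0 := ne_of_gt t3
  have t4 : ∀ j, y j 0 < (t⁻¹ • v) 0 := fun j => by simpa [v] using (lt_inv_mul_iff₀ t3).2 (t2 j)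
  refine ⟨Fin.cons (t⁻¹ • v) y, Fin.cons_injective_iff.2 ⟨fun ⟨j, a⟩ => (t4 j).ne (a ▸ rfl), i⟩, t4, ?_⟩
  let r : Fin (l.m + 1) → ℝ := Fin.cons (t ^ 4) fun _ => 1
  have r0 : ∏ i, r i ≠ 0 := by simpa [r, Fin.prod_univ_succ] using t0
  have u : ∀ x : R4, pr (t⁻¹ • x) = t ^ 4 • pr x := fun x => by rw [pr_smul, inv_pow, inv_inv]
  rw [frL, show (fun i j => _) = fun i j => (r i • 1) * r j • K t i j from ?_, lq_move]
  · simp only [Matrix.mul_smul, Matrix.mul_one, lq_smul]
    exact mul_ne_zero r0 (mul_ne_zero r0 t1)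
  funext i j
  rw [Matrix.smul_mul, Matrix.one_mul, ← Matrix.smul_mul, ← Matrix.smul_mul]
  congr 1
  refine Fin.cases ?_ (fun i => ?_) i <;> refine Fin.cases ?_ (fun j => ?_) j <;>
    simp [r, pr_zero, ← u, smul_sub, inv_smul_smul₀ t0]

end Pool.Agent.Lib.MP_7f377f_mp.Lb

namespace Pool.Agent.Lib.MP_7f377f_mp.Cm
variable [Pool.Agent.Lib.MP_7f377f_mp.GD]
set_option linter.unusedSectionVars false

open MeasureTheory Filter Topology YM7 Matrix
open Ro (Iso)
open Lb (Lab Pl Cl M4 pc ip frL c0 ref hb mr)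

variable {l : Cl} {a b c : Lab ℝ} {v : R4} {u : Fin 2 → R4 → ℝ}

theorem bl_cx (hu : Adm u) (a b : Lab ℝ) : (Matrix.of fun i j => ∫ y : Fin 2 → R4,
    u 0 (y 0) * u 1 (y 1) * YF.bl (cx a) (cx b) (y 1 - y 0) i j) = cx (BB a b u) := by
  simpa using bl_eq hu (fun s => cond s 1 0) (fun _ => a) fun _ => b

end Pool.Agent.Lib.MP_7f377f_mp.Cm
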