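import Pool.Agent.Lib.MP_7f377f_mp.G.S22M
import Pool.Agent.Lib.MP_7f377f_mp.YZD

/-! From the scalars on the classes to the anomalous dimensions of the statement. -/

noncomputable section

namespace Pool.Agent.Lib.MP_7f377f_mp.Zg

open Filter Topology Real Matrix RG RG.Q4 RG.Q4.En Sw
open Pool.Agent.Lib.MP_7f377f_mp.Lb (Cl)

/-- the clause of the statement -/
def Dm {d : ℕ} (L : Subalgebra ℂ (YZ.Lab d)) (_ : YZ.Cor d) (M : ℝ → L ≃ₗ[ℂ] L) : Prop :=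
  YZ.Dim L (fun t => M t) YZ.Alt 1 ∧ YZ.Dim L (fun t => M t) YZ.Weyl (-7 / 11)

variable [GD] {d : ℕ} {𝒜 : Set (Matrix (Fin d) (Fin d) ℝ)} [o : Og 𝒜]

theorem Tp.dm {P : Type} [CommRing P] [Algebra ℂ P] {O : Matrix (Fin d) (Fin d) ℝ} {N : Pur.Net P}
    {x : V0 𝒜 → (YM7.R4 → ℝ) → P} {S W : P →ₗ[ℂ] ℂ} {A φ T J M p inc}
    (H : Tp O N x S W A φ T J M p inc) {m : ℝ → Cl → ℝ}
    (e : ∀ t l c, Lb.pc l c = c → M t (qv 𝒜 c) = m t l • qv 𝒜 c)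
    (q : Tendsto (fun t => log (m t .q) / log (log t⁻¹)) (𝓝[>] 0) (𝓝 1))
    (w : Tendsto (fun t => log (m t .w) / log (log t⁻¹)) (𝓝[>] 0) (𝓝 (-7 / 11))) (C) :
    Dm _ C fun t => H.br.mm (M t) :=
  ⟨⟨fun t => m t .q, fun t _ _ a b => congrArg Subtype.val
      (mm_quad H.hO H.br H.hi (e t _) (Lb.alt_pc a) (alt_tr a) b),
    by simpa only [log_abs] using q⟩, fun t => m t .w, fun t _ _ a b => congrArg Subtype.val
      (mm_quad H.hO H.br H.hi (e t _) (Lb.weyl_pc a) (fun i k => (a.2 i k).1) b),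
    by simpa only [log_abs] using w⟩

end Pool.Agent.Lib.MP_7f377f_mp.Zg
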