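import Pool.Agent.Lib.MP_7f377f_mp.G.ZgR
import Pool.Agent.Lib.MP_7f377f_mp.G.S22A

/-! The final assembly with the renormalisation exposed. -/

noncomputable section

namespace Pool.Agent.Lib.MP_7f377f_mp.Bw
variable [Pool.Agent.Lib.MP_7f377f_mp.GD]

open Filter Topology Set YM7 Pur Wm Lm Wv S3 Sw MvPolynomial
open Ro (Iso)

theorem mainX {V P : Type} [NormedAddCommGroup V] [NormedSpace ℝ V] [CommRing P] [Algebra ℂ P]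
    {Φ : Fil V} {N : Net P} {x : V → (R4 → ℝ) → P} {U W : P →ₗ[ℂ] ℂ} {ρ : Iso →* V →ₗ[ℝ] V}
    {A : ℝ → V ≃ₗ[ℝ] V} {S : Cor V} {ι : Pol →ₐ[ℂ] P} {φ o : V} {T₀ : Fin 4 → Fin 4 → V}
    {h : R4 → ℝ} {M c : ℝ → ℝ} {L : Ope.Tn} (B : Bg Φ N x U W ρ A S ι φ o)
    (s : Sm (W ∘ₗ ι.toLinearMap) h M c L) (F : Fb Φ ρ S T₀) :
    ∃ T D δ σ, Cu Φ N x W ρ T ∧ Ops Φ N x W T D δ σ ∧ Wt T A D δ σ T₀ ∧ Nsb N x W T ∧
      (∀ l, σ (om l) φ = 0) ∧ ∀ (a : ℝ) g, Ds (Hs 0 0) g → ∀ η > (0 : ℝ),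
        ∃ b ∈ net.loc (Hs 0 0), N.nq W 0 (x (a • T 0 1) g - ι b) ≤ η := by
  obtain ⟨H, _, _, _, ⟨r⟩⟩ := B.rW.st.exists_rep 0
  have := fun n : R4 => (em (‖n‖ = 1)).elim (fun e => (B.mg h n s.rd s.sm e).imp fun _ a _ => a)
    fun e => ⟨0, fun e' => (e e').elim⟩
  choose m hm using this
  obtain ⟨T, t⟩ := exists_tl B s hm r
  have a : Al Φ x U ρ A S ι φ o T r h M c L m := ⟨B, s, hm, F.up, t⟩
  obtain ⟨D, d⟩ := B.rU.der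
  obtain ⟨δ, σ, q⟩ := B.rU.ops (a.cuU d) d
  have cov := fun w μ ν => by simpa using a.cov (B.sy_prm w) μ ν
  refine ⟨T, D, δ, σ, a.cuW d, B.opsW q, ⟨a.wtr q, a.wro q F.cl2, aft B.rW (a.cuW d) (B.opsW q) F
    a.ne t.cen cov B.comm (a.wtr q)⟩, nsb_of (a.cur (a.cuW d)), a.sig q F.cl2,
    fun z g hg η η0 => ?_⟩
  obtain ⟨Γ, h1, -⟩ := vec B.rW r hg (N.one _)
  have k : Γ (z • T 0 1) ∈ Kk ι r := by
    rw [map_smul, h1, mul_one]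
    exact Submodule.smul_of_tower_mem _ _ (B.mem_one (t.kk 0 1) hg)
  obtain ⟨_, ⟨b, b1, rfl⟩, b2⟩ := Metric.mem_closure_iff.1 k _ (Real.sqrt_pos.2 η0)
  refine ⟨b, ns_le b1, ?_⟩
  rw [r.nq (sub_mem (B.rW.memd _ hg) (B.emb.mem (ns_le b1))), map_sub, ← mul_one (x _ g), ← h1,
    ← dist_eq_norm]
  exact (Real.le_sqrt dist_nonneg η0.le).1 b2.le

end Pool.Agent.Lib.MP_7f377f_mp.Bw

namespace Pool.Agent.Lib.MP_7f377f_mp.Zg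
variable [Pool.Agent.Lib.MP_7f377f_mp.GD]
set_option linter.unusedSectionVars false

section
open MeasureTheory Filter Topology Set YM7 Pur Wm Lm Wv S3 Matrix Sw MvPolynomial Complex
open Ro (Iso)
open YZ (Lab rho FF lag Fp Loc)

/-- the statement with one more property of the correlation functions and the renormalisation -/
def OutX {d : ℕ} {G : Type} [Group G] [TopologicalSpace G] [MeasurableSpace G] (h : Measure G) {m : ℕ}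
    (ρ : G →* unitaryGroup (Fin m) ℂ) (L : Subalgebra ℂ (Lab d)) (β : ℝ)
    (Y : YZ.Cor d → (ℝ → L ≃ₗ[ℂ] L) → Prop) : Prop :=
  ∃ (n : ℕ → ℕ+) (a b : ℕ → ℝ) (O : ℕ → Lab d → YZ.Cfg G ℤ → ℂ) (S W : YZ.Fp d →ₗ[ℂ] ℂ) (r : ℕ → ℕ)
    (B : ∀ j, Fin (r j) → YZ.Fp d) (T : YZ.Cor d) (M : ℝ → L ≃ₗ[ℂ] L),
    Tendsto a atTop (𝓝[>] 0) ∧ Tendsto (fun j => a j * n j) atTop atTop ∧
    Tendsto (fun j => b j / Real.log (a j)⁻¹) atTop (𝓝 β) ∧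
    (∀ P ∈ L, ∃ R, ∀ j, YZ.Obs R (O j P)) ∧
    (∀ j, ∃ m : ℝ, O j lag = fun U => ↑((YZ.dens ρ U - m) / a j ^ 4)) ∧
    (∀ (j : ℕ) i, B j i ∈ YZ.Loc L {y | j < y 0}) ∧
    (∀ Z ∈ YZ.Loc L univ,
      Tendsto (fun j => YZ.vev ρ h (b j) (n j) (a j) (O j) Z) atTop (𝓝 (S Z)) ∧
      Tendsto (fun j => S (YZ.ins (B j) Z)) atTop (𝓝 (W Z)) ∧
      ∀ᶠ j in atTop, YZ.ins (B j) Z ∈ YZ.Loc L univ) ∧
    (∀ k P f, T k P f = W (∏ i, X (P i, f i))) ∧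
    YZ.Wightman L T ∧ YZ.AF L β T M ∧ YZ.Ope L T M ∧ YZ.Ward L T ∧ Y T M ∧
    ∃ (f : Fin 4 → R4 → ℝ) (Y : Fin 4 → YZ.Fp d), YZ.Adm f ∧
      (∀ i j, i < j → ∀ x ∈ tsupport (f i), ∀ y ∈ tsupport (f j), x 0 < y 0) ∧
      (∀ i, Y i = X (lag, f i) - C (W (X (lag, f i)))) ∧ W (Y 0 * Y 1 * Y 2 * Y 3) ≠
        W (Y 0 * Y 1) * W (Y 2 * Y 3) + W (Y 0 * Y 2) * W (Y 1 * Y 3) +
          W (Y 0 * Y 3) * W (Y 1 * Y 2)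

theorem OutX.mono {d : ℕ} {G : Type} [Group G] [TopologicalSpace G] [MeasurableSpace G]
    {h : Measure G} {m : ℕ} {ρ : G →* unitaryGroup (Fin m) ℂ} {L : Subalgebra ℂ (Lab d)} {β : ℝ}
    {Y Y' : YZ.Cor d → (ℝ → L ≃ₗ[ℂ] L) → Prop} (H : OutX h ρ L β Y)
    (e : ∀ T M, Y T M → Y' T M) : OutX h ρ L β Y' := by
  obtain ⟨n, a, b, O, S, W, r, B, T, M, h1, h2, h3, h4, h5, h6, h7, h8, g1, g2, g3, g4, g5, g6⟩ := H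
  exact ⟨n, a, b, O, S, W, r, B, T, M, h1, h2, h3, h4, h5, h6, h7, h8, g1, g2, g3, g4,
    e T M g5, g6⟩

variable {V P : Type} [NormedAddCommGroup V] [NormedSpace ℝ V] [CommRing P] [Algebra ℂ P]
  {Φ : Fil V} {N : Net P} {x : V → (R4 → ℝ) → P} {S W : P →ₗ[ℂ] ℂ} {ρ : Iso →* V →ₗ[ℝ] V}
  {A M : ℝ → V ≃ₗ[ℝ] V} {S₀ : Cor V} {d m : ℕ} {L : Subalgebra ℂ (Lab d)}
  {p : Fin 2 → Lab d →ₗ[ℝ] V} {inc : V →ₗ[ℝ] Lab d} {lg φ u : V} {T t0 : Fin 4 → Fin 4 → V}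
  {D : Fin 4 → V →ₗ[ℝ] V} {σ : Mat → V →ₗ[ℝ] V} {sc : ℝ → V →ₗ[ℝ] V} {J : V ≃ₗ[ℝ] V} {β q : ℝ}

theorem coreX [MeasurableSpace SU2] [BorelSpace SU2] {h : Measure SU2} [h.IsHaarMeasure]
    [IsProbabilityMeasure h] {n : ℕ → ℕ+} {a b : ℕ → ℝ} {F : ℕ → V →ₗ[ℝ] YZ.Cfg SU2 ℤ → ℝ}
    {r : GD.G →* unitaryGroup (Fin m) ℂ} (hn : GD.n = m + m)
    (ht : ∀ a, (GD.rho a).trace = 2 * (r a).1.trace.re)
    (hβ : β = 4 * GD.t ^ 2 * (11 * GD.b0 / (48 * Real.pi ^ 2))) (br : Br Φ ρ S₀ L p inc lg t0)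
    (hs : Zo.Sc Φ S₀ sc) (lat : Lat x S h φ n a b F) (pu : Pu N x S W) (ph : Ph Φ N x W A φ u lg)
    (rg : Rg Φ N x W ρ A S₀) (mu : Zo.Mu2 Φ x W A S₀) (cu : Cu Φ N x W ρ T)
    (ops : Ops Φ N x W T D D σ)
    (fx : Fx Φ x W ρ A sc T t0 β ((4 * GD.t ^ 2)⁻¹ • φ) u lg J M) :
    OutX h r L β fun T M' => T = (fun _ c f => W (∏ i, xc (fun c => x (J c)) (fun b => p b) (c i)
      (f i))) ∧ M' = fun t => br.mm (M t) := by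
  have t1 := YM5.t_pos.ne'
  have G := fx.gen rg.gen
  have l : Lc N W fun c => x (J c) := Lc.comp rg.linc J
  have la := lat.comp J
  obtain ⟨s, B, b1, b2⟩ := pu.ins
  obtain ⟨B', b3, b4⟩ := br.ins G (la.zr G) b1
  obtain ⟨A', e1, up, lim⟩ := fx.ren hs
  have pl : p 0 lag = lg ∧ p 1 lag = 0 := br.ilg ▸ br.p_inc lg
  have ll : lag ∈ L := br.ilg ▸ br.mem lg
  obtain ⟨γ, γ0, af⟩ := fx.af ph (Lc.ml rg.linc rg.gen) (by positivity)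
  have hT : Ext L p (fun _ c f => W (∏ i, xc (fun c => x (J c)) (fun b => p b) (c i) (f i)))
      (Zo.cor (fun c => x (J c)) W) := fun k c f _ _ => by
    simp only [xc_prod, map_sum, map_smul, ext, Zo.cor, smul_eq_mul]
  refine ⟨n, a, fun j => 4 * GD.t ^ 2 * b j, fun j c U => F j (J (p 0 c)) U + I * F j (J (p 1 c)) U,
    S ∘ₗ (sb (fun c => x (J c)) fun b => p b).toLinearMap,
    W ∘ₗ (sb (fun c => x (J c)) fun b => p b).toLinearMap, s, B',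
    fun _ c f => W (∏ i, xc (fun c => x (J c)) (fun b => p b) (c i) (f i)), fun t => br.mm (M t),
    lat.a0, lat.vol, ?_, fun c _ => ?_, fun j => ?_, b3, fun Z hZ => ⟨?_, ?_, ?_⟩, fun k c f => ?_,
    ?_, ?_, ?_, ?_, ⟨rfl, rfl⟩, ?_⟩
  · simpa only [hβ, mul_div_assoc] using lat.cpl.const_mul (4 * GD.t ^ 2)
  · obtain ⟨R, e⟩ := lat.obs (J (p 0 c))
    obtain ⟨R', e'⟩ := lat.obs (J (p 1 c))
    exact ⟨_, fun j => obs_add (e j) (e' j) I⟩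
  · obtain ⟨z, e⟩ := lat.ph j
    refine ⟨(4 * GD.t ^ 2)⁻¹ * z, funext fun U => ?_⟩
    simp only [pl, fx.jl, map_zero, map_smul, e, dz_eq hn ht, Pi.zero_apply, ofReal_zero, mul_zero,
      add_zero, Pi.smul_apply, smul_eq_mul]
    congr 1
    field_simp
  · exact la.vev (q := fun b => p b) hn ht hZ
  · exact (b2 _ (loc_mem G hZ)).congr' ((b4 Z hZ).mono fun _ e => e.2.symm)
  · exact (b4 Z hZ).mono fun _ e => e.1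
  · simp [sb]
  · let := br.is
    obtain ⟨K, k1, k2⟩ := pu.q1
    exact br.wightman (br.cx'.wight (c₀ := ⟨lag, ll⟩) G rg.st (fun _ => rg.lin _) l
      ⟨K, k1, fun _ => k2 _⟩ (fun k _ => rg.bd k _) fx.cov pu.vac (Subtype.ext (by
        change rho (cm (mat (rfL 0))) (map _ lag) = lag
        rw [← br.ilg, br.real, br.rot, br.rlg])) pl.2 γ0 (by simpa only [pl] using af))
  · exact br.af hT (l.ml G) hs fx.slow.gr fx.slow.comm fx.slow.slow fx.ml fx.mt fun k c f hf =>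
      (Zo.af' rg (fun t => (up t).1) lim k c f hf).congr'
        (eventually_mem_nhdsWithin.mono fun t e => by simp [Zo.cor, e1 t e])
  · refine br.ope hT (l.ml G) hs fun a v D hv => ?_
    obtain ⟨δ, d1, C, B, c1, c2, c3, c4⟩ := Zo.ope2 rg hs mu up lim a v D hv
    exact ⟨δ, d1, C, B, c1, c2, c3, ex_comp (fun t e i => e1 t e _) (fun t e => e1 t e _) c4⟩
  · exact br.ward rg cu ops fx ph.unit
  · exact ng G l rg.st.one pl γ0 af rfl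

end

section
open MeasureTheory Filter Topology Set YM7 Pur Wm Lm Wv Matrix Sw MvPolynomial
open Ro (Iso)

variable {d m : ℕ} {𝒜 : Set (Matrix (Fin d) (Fin d) ℝ)} [o : Og 𝒜] {P : Type} [CommRing P]
  [Algebra ℂ P] {N : Net P} {x : V0 𝒜 → (R4 → ℝ) → P} {S : P →ₗ[ℂ] ℂ} {A : ℝ → V0 𝒜 ≃ₗ[ℝ] V0 𝒜}
  {φ : V0 𝒜}

/-- what is known about the fields after the final normalisation -/
structure Tp (O : Matrix (Fin d) (Fin d) ℝ) (N : Net P) (x : V0 𝒜 → (R4 → ℝ) → P)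
    (S W : P →ₗ[ℂ] ℂ) (A : ℝ → V0 𝒜 ≃ₗ[ℝ] V0 𝒜) (φ : V0 𝒜) (T : Fin 4 → Fin 4 → V0 𝒜)
    (J : V0 𝒜 ≃ₗ[ℝ] V0 𝒜) (M : ℝ → V0 𝒜 ≃ₗ[ℝ] V0 𝒜) (p : Fin 2 → YZ.Lab d →ₗ[ℝ] V0 𝒜)
    (inc : V0 𝒜 →ₗ[ℝ] YZ.Lab d) : Prop where
  hO : O * Oᵀ = 1
  br : Br (fil 𝒜) (r0 𝒜) (S0 𝒜) ((Zf.Iv ℂ 𝒜).comap (Zf.ad O)) p inc (l0 𝒜) (tt 𝒜)
  hi : ∀ v, inc v = Zf.ad Oᵀ (Zg.io v.1)
  sl : Sl N x S (r0 𝒜) (u0 𝒜)
  la : La (fil 𝒜) (r0 𝒜) A φ (l0 𝒜)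
  bs : Bs (fil 𝒜) N x S A (S0 𝒜) φ
  emb : net.Emb N (aeval (x φ))
  qb : Wx.QBd N x S
  one : W 1 = 1
  dom : N.Dom S W
  pu : Pu N x S W
  dom0 : net.Dom (S ∘ₗ (aeval (x φ)).toLinearMap) (W ∘ₗ (aeval (x φ) : Pol →ₐ[ℂ] P).toLinearMap)
  vac : Lg.Vac (W ∘ₗ (aeval (x φ) : Pol →ₐ[ℂ] P).toLinearMap)
  rot : Lg.Rot (W ∘ₗ (aeval (x φ) : Pol →ₐ[ℂ] P).toLinearMap)
  bl : Bl (fil 𝒜) N x W A (S0 𝒜)
  rg : Rg (fil 𝒜) N x W (r0 𝒜) A (S0 𝒜)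
  ph : Ph (fil 𝒜) N x W A φ (u0 𝒜) (l0 𝒜)
  cu : Cu (fil 𝒜) N x W (r0 𝒜) T
  ops : ∃ D σ, Ops (fil 𝒜) N x W T D D σ
  fx : Fx (fil 𝒜) x W (r0 𝒜) A (sc 𝒜) T (tt 𝒜)
    (4 * GD.t ^ 2 * (11 * GD.b0 / (48 * Real.pi ^ 2))) ((4 * GD.t ^ 2)⁻¹ • φ) (u0 𝒜) (l0 𝒜) J M
  den : ∀ (a : ℝ) g, S3.Ds (Hs 0 0) g → ∀ η > (0 : ℝ),
    ∃ b ∈ net.loc (Hs 0 0), N.nq W 0 (x (a • T 0 1) g - aeval (x φ) b) ≤ η
  ne : T 0 1 ≠ 0

/-- the statement holds for every final normalisation -/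
def Lk [MeasurableSpace SU2] (h : Measure SU2) (r : GD.G →* unitaryGroup (Fin m) ℂ)
    (O : Matrix (Fin d) (Fin d) ℝ) (N : Net P) (x : V0 𝒜 → (R4 → ℝ) → P) (S : P →ₗ[ℂ] ℂ)
    (A : ℝ → V0 𝒜 ≃ₗ[ℝ] V0 𝒜) (φ : V0 𝒜) : Prop :=
  ∃ W T J M p inc, Tp O N x S W A φ T J M p inc ∧ ∀ J M (H : Tp O N x S W A φ T J M p inc) Y,
    (∀ C, Y C fun t => H.br.mm (M t)) → OutX h r ((Zf.Iv ℂ 𝒜).comap (Zf.ad O))
      (4 * GD.t ^ 2 * (11 * GD.b0 / (48 * Real.pi ^ 2))) Y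

theorem topX [MeasurableSpace SU2] [BorelSpace SU2] {h : Measure SU2} [h.IsHaarMeasure]
    [IsProbabilityMeasure h] {n : ℕ → ℕ+} {a b : ℕ → ℝ} {F : ℕ → V0 𝒜 →ₗ[ℝ] YZ.Cfg SU2 ℤ → ℝ}
    {r : GD.G →* unitaryGroup (Fin m) ℂ} (hn : GD.n = m + m)
    (ht : ∀ a, (GD.rho a).trace = 2 * (r a).1.trace.re) {O : Matrix (Fin d) (Fin d) ℝ}
    (hO : O * Oᵀ = 1) {G β U S₀} (R : RG.Q4.En.Rn G β U S₀ (S ∘ₗ (aeval (x φ)).toLinearMap))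
    (lat : Lat x S h φ n a b F) (sl : Sl N x S (r0 𝒜) (u0 𝒜))
    (la : La (fil 𝒜) (r0 𝒜) A φ (l0 𝒜)) (bs : Bs (fil 𝒜) N x S A (S0 𝒜) φ) :
    Lk h r O N x S A φ := by
  have b0 := GD.b0_pos
  have t0 := GD.t_pos
  obtain ⟨p, inc, br, hi⟩ := br1 (𝒜 := 𝒜) hO
  obtain ⟨B, b1, b2⟩ := fil_count (fil 𝒜)
  have e := Wx.emb_of sl.gen la.rf
  have q := Wx.qbd_of sl.gen (inv4 _) sl.st sl.lin sl.prod
  obtain ⟨W, w1, w2, w3, w4, w5, -, w6, w7, w8, w9, w10⟩ := Wx.pur sl.gen sl.st sl.lin q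
    (Wx.q1s_of sl.gen (inv4 _) sl.st sl.lin sl.prod) b1 b2 sl.linc e R.rot
  have u := bs.bl S sl.st.one Net.Dom.refl
  have w := bs.bl W w1 w2
  have l := low_of sl.gen sl.st (fun t => la.c1 t 0) (u.af 2)
  have rW : Rg (fil 𝒜) N x W (r0 𝒜) A (S0 𝒜) :=
    ⟨sl.gen, w3, w5, w7, w6, w.mg1, w.mg2, la.up, la.c1, w.af, l⟩
  have v1 : (W ∘ₗ (aeval (x φ) : Pol →ₐ[ℂ] P).toLinearMap) 1 = 1 := by simpa using w1
  have i := R.inp.dom w8 v1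
  obtain ⟨_, D₀, M₀, T₁, -, o1, o2, -⟩ := R.main
  have d0 : (0 : ℝ) < GD.d := by exact_mod_cast GD.d3.trans_lt' three_pos
  obtain ⟨k, M, c, L, sm⟩ := Bw.exists_sm o1 o2 (by rw [Ope.qc]; positivity) ⟨v1, w8, w10⟩ i w9
    R.inp R.rot fun k f hf => by simpa [mon] using sl.real k (fun _ => φ) f hf
  obtain ⟨T, D, δ, σ, cu, op, wt, ns, sφ, den⟩ := Bw.mainX (o := u0 𝒜)
    ⟨⟨sl.gen, sl.st, sl.lin, sl.linc, q.bd sl.st, u.mg1, u.mg2, la.up, la.c1, u.af, l⟩, rW, sl.real,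
      w2, e, fun f => aeval_X _ _, la.mem, u0_mem 4, ⟨la.rf, la.pm⟩, r0_u0, sl.unit, sl.iv, la.c2,
      fun h n h1 h2 h3 => (bs.mg h n h1 h2 h3).imp fun _ e => e W w1 w2⟩ sm fb1
  obtain ⟨J, X, ou⟩ := rW.out cu op fr1 wt ns
  obtain ⟨J, M, fx⟩ := fix (φ := (4 * GD.t ^ 2)⁻¹ • φ)
    (β := 4 * GD.t ^ 2 * (11 * GD.b0 / (48 * Real.pi ^ 2))) rW w.bd fr1
    (neg_ne_zero.2 (inv_ne_zero Zf.kap_ne)) cu wt ou (by positivity)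
    (Submodule.smul_mem _ _ la.mem) (fun l => by rw [map_smul, la.rf])
    (fun l => by rw [map_smul, sφ, smul_zero]) (la.sg.congr fun t => by
      rw [smul_smul]
      congr 2
      field_simp)
  have ph : Ph (fil 𝒜) N x W A φ (u0 𝒜) (l0 𝒜) := ⟨⟨48 / (11 * GD.b0), by positivity,
    fun k f hf => by simpa [mon] using i.af k f hf⟩, la.sg, la.mem, fun f hf =>
      Wx.unit_dom sl.gen w2 hf (sl.unit f hf)⟩
  exact ⟨W, T, J, M, p, inc, ⟨hO, br, hi, sl, la, bs, e, q, w1, w2, w4, w8, w9, w10, w, rW, ph, cu,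
    ⟨_, _, ou.eq ▸ op⟩, fx, den, fun e => smul_ne_zero (neg_ne_zero.2 (inv_ne_zero Zf.kap_ne)) tt_ne
      (tendsto_nhds_unique (wt.af 0 1) (by simp [e]))⟩, fun J M H Y y => (coreX hn ht rfl br sc0 lat w4 ph rW w.mu cu
      (ou.eq ▸ op) H.fx).mono fun C _ k => k.2 ▸ y C⟩

end

open MeasureTheory Filter Topology Set YM7 L6 Wy Pur Wm Lm Wv Matrix Sw MvPolynomial RG RG.Q4 RG.Q4.En
open Ro (Iso)

variable {G : Gl} {β : ℕ × ℕ → ℝ} {U : Ultrafilter (ℕ × ℕ)}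
  {S₀ : ∀ {k : ℕ}, (Fin k → R4 → ℝ) → ℝ} {S : Pol →ₗ[ℂ] ℂ} {m : ℕ}
  {𝒜 : Set (Matrix (Fin GD.d) (Fin GD.d) ℝ)} [o : Og 𝒜] {O : ℕ × ℕ → V0 𝒜 →ₗ[ℝ] Fz → ℝ}
  {A : ℝ → V0 𝒜 ≃ₗ[ℝ] V0 𝒜} {φ : V0 𝒜}

theorem runX {r : GD.G →* unitaryGroup (Fin m) ℂ} (hn : GD.n = m + m)
    (ht : ∀ a, (GD.rho a).trace = 2 * (r a).1.trace.re) {B} (hB : B * Bᵀ = 1) (R : Rn G β U S₀ S)
    (H : Ri 𝒜 (Fi.tr haar) G.nn G.aa β U O A φ) :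
    ∃ (P : Type) (_ : CommRing P) (_ : Algebra ℂ P) (N : Net P) (x : V0 𝒜 → (R4 → ℝ) → P)
      (S : P →ₗ[ℂ] ℂ), Rn G β U S₀ (S ∘ₗ (aeval (x φ)).toLinearMap) ∧
        Lk (Fi.tr haar) r B N x S A φ := by
  classical
  have : (Fi.tr haar).IsHaarMeasure := (inferInstance : haar.IsHaarMeasure)
  have := (fil 𝒜).fin 4
  have F := fm_of R
  have i := inv4 (r0 𝒜)
  have P : Pl (fun p c => O p c) fun μ => r0 𝒜 (rfL μ) :=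
    ⟨fun c => (H.obs c).imp fun _ e p => obs_re (e p), H.rf⟩
  obtain ⟨ψ, Γ, g, a1, a2, a3, a4⟩ := H.en
  have a0 := ((fil 𝒜).F 4).closed_of_finiteDimensional.mem_of_tendsto a2 (.of_forall a1)
  have E := el_inl a4.el
  obtain ⟨y, e'⟩ := H.obs φ
  obtain ⟨X, x⟩ : ∃ X : _ → _, ∀ p,
      (if p ∈ Γ then dl (Fi.tr haar) G.nn G.aa β p else O p φ) = X p := ⟨_, fun _ => rfl⟩
  have g' : ∀ᶠ p in U, X p = dl (Fi.tr haar) G.nn G.aa β p :=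
    mem_of_superset g fun p e => (x p).symm.trans (if_pos e)
  have D : ∀ p, YZ.Obs (1 + y) fun W => (X p W : ℂ) := fun p => by
    rw [← x]
    split_ifs
    · simpa using obs_add (F := fun W => dl (Fi.tr haar) G.nn G.aa β p W) (obs_dz _ _) (e' p) 0
    · simpa [add_comm] using obs_add (e' p) (obs_dz 0 1) 0
  simp only [x] at a4
  obtain ⟨T', L'⟩ := Wy.exists_lim (h1 := i.1) (h2 := i.2) F P (pb F i E) R.lim.le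
  obtain ⟨T, e1, rfl⟩ := (L'.mod2 (hθ := i) F P a1 a0 a2 ⟨_, fun p => obs_re (D p)⟩ a4
    fun c => if c = φ then 1 else 0).old F
    (φ := φ) (g'.mono fun p e W => by simp [e, dl]) R.lim
  have L := L'.congr e1
  have sl : Sl (netL i.1 i.2) xL T (r0 𝒜) (u0 𝒜) := ⟨gen_L _ _, L.st F P (pb F i E), L.linF F P,
    fun t a b => L.lab F P (.of_forall fun p W => by simp), L.prodL F P E,
    fun k c f => L.real c, fun σ k c f => L.perm F P σ (H.pm σ) c, L.unit F H.one⟩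
  have la : La (fil 𝒜) (r0 𝒜) A φ (l0 𝒜) := ⟨a0, H.p1, H.p2, H.up, H.c1, H.c2,
    sg_of rfl (Lc.ml sl.linc sl.gen) a0 H.p1 H.p2 (fun t => (H.up t).2) H.c1 H.c2
      (H.ci.dom (fp_fp0 𝒜) L F P sl.st Net.Dom.refl sl.st.one).1
      (fun k f hf => by simpa [mon, Pur.kap] using R.inp.af k f hf) H.pos⟩
  obtain ⟨t, t1⟩ : ∃ t : V0 𝒜 →ₗ[ℝ] ℝ, t φ = 1 := Module.Projective.exists_dual_eq_one ℝ fun e =>
    l0_ne (tendsto_nhds_unique la.sg (by simp [e]))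
  obtain ⟨B', b1, b2⟩ := fil_count (fil 𝒜)
  obtain ⟨n, a, b, O', lat⟩ := LimL.lat
    (O := fun p => O p + t.smulRight (X p - O p φ))
    (L.mod2 (hθ := i) F P a1 a0 a2 ⟨_, fun p => obs_re (D p)⟩ a4 t) F
    (PB.mod2 F i P a1 a0 a3 ⟨_, fun p => obs_re (D p)⟩ a4.el t) b1 b2
    ((R.ok.fam R.tu).cpl.mono_left fast_le) (fun c => (H.obs c).elim fun x e =>
      ⟨x + (1 + y + y), fun p => by
        convert obs_add (e p) (obs_add (D p) (e' p) (-1)) (t c) using 2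
        simp [sub_eq_add_neg, mul_add]⟩) (φ := φ)
    (g'.mono fun p e => ⟨_, by
      simp only [LinearMap.add_apply, LinearMap.smulRight_apply, t1, one_smul, add_sub_cancel, e]
      rfl⟩)
  exact ⟨_, _, _, _, _, _, R, topX hn ht hB R lat sl la (H.ci.bs L F P sl.st sl.lin sl.prod
    (fp_fp0 𝒜) (fun t => (H.up t).2) a0)⟩

end Pool.Agent.Lib.MP_7f377f_mp.Zg
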