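import Pool.Agent.Lib.MP_7f377f_mp.G.S22P3

/-! The product of two proportional fields on the two sides of a hyperplane. -/

noncomputable section

namespace Pool.Agent.Lib.MP_7f377f_mp.Fr2
variable [Pool.Agent.Lib.MP_7f377f_mp.GD]
set_option linter.unusedSectionVars false

open MeasureTheory Filter Topology Set Real YM7 Pur Wm Asymptotics MvPolynomial ComplexConjugate
open Ope (Dt sc)
open Ro (Iso act)
open Lb (Lab Cl Tp pc pa rho rhoL mx ref c0 ip)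
open Lg.PI (dt)
open scoped ContDiff

variable {P P' : Type} [CommRing P] [Algebra ℂ P] [CommRing P'] [Algebra ℂ P'] {N : Net P}
  {W : P →ₗ[ℂ] ℂ} {y : Lab ℝ → (R4 → ℝ) → P} {ι : Pol →ₐ[ℂ] P} {m n : ℝ → Cl → ℝ} {N' : Net P'}
  {W' : P' →ₗ[ℂ] ℂ} {y' : Lab ℝ → (R4 → ℝ) → P'} {ι' : Pol →ₐ[ℂ] P'} {τ : Tp}
  {u : Fin 2 → R4 → ℝ} {κ κ' : ℝ} {f g : R4 → ℝ} {Z : Pol} {p q : R4}

theorem q_abs {H H' V : Type} [NormedAddCommGroup H] [InnerProductSpace ℂ H] [NormedAddCommGroup H']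
    [InnerProductSpace ℂ H'] [AddCommGroup V] [Module ℂ V] (L : Submodule ℂ V) (J : V →ₗ[ℂ] H)
    (J' : V →ₗ[ℂ] H') (iso : ∀ c ∈ L, ∀ d ∈ L, inner ℂ (J' c) (J' d) = inner ℂ (J c) (J d))
    {X Y : H} {X' Y' : H'} {κ κ' : ℂ}
    (d : ∀ η > (0 : ℝ), ∃ b ∈ L, ‖Y - J b‖ ≤ η) (d' : ∀ η > (0 : ℝ), ∃ b ∈ L, ‖Y' - J' b‖ ≤ η)
    (hY : ∀ c ∈ L, inner ℂ (J' c) Y' = κ' * inner ℂ (J c) Y)
    (hX : ∀ c ∈ L, inner ℂ X' (J' c) = κ * inner ℂ X (J c)) :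
    inner ℂ X' Y' = κ * κ' * inner ℂ X Y := by
  rw [← sub_eq_zero, ← norm_le_zero_iff]
  refine le_of_forall_pos_le_add fun ε ε0 => ?_
  obtain ⟨K, K0, hK⟩ : ∃ K > (0 : ℝ), ‖X'‖ + ‖κ‖ * ‖X‖ * (2 * ‖κ'‖ + 1) ≤ K :=
    ⟨_, by positivity, (lt_add_one _).le⟩
  obtain ⟨η, η0, rfl⟩ : ∃ η > (0 : ℝ), K * η = ε := ⟨ε / K, by positivity, by field_simp⟩
  obtain ⟨b, b1, b2⟩ := d _ η0
  obtain ⟨b', c1, c2⟩ := d' _ η0
  obtain ⟨c, m, hc⟩ : ∃ c ∈ L, J c = κ' • J b - J b' :=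
    ⟨_, L.sub_mem (L.smul_mem κ' b1) c1, by rw [map_sub, map_smul]⟩
  have n : ‖J' c‖ = ‖J c‖ := by
    rw [norm_eq_sqrt_re_inner (𝕜 := ℂ), iso c m c m, ← norm_eq_sqrt_re_inner]
  have e1 : inner ℂ (J c) (J c) = inner ℂ (J' c) (Y' - J' b') - κ' * inner ℂ (J c) (Y - J b) := by
    rw [inner_sub_right, inner_sub_right, hY c m, iso c m b' c1]
    conv_lhs => rw [show inner ℂ (J c) (J c) = inner ℂ (J c) (κ' • J b - J b') by rw [← hc],
      inner_sub_right, inner_smul_right]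
    ring
  have e2 : ‖J c‖ ≤ (‖κ'‖ + 1) * η := by
    have := congrArg norm e1
    rw [← inner_self_re_eq_norm, inner_self_eq_norm_mul_norm] at this
    have h1 := (norm_inner_le_norm (𝕜 := ℂ) (J' c) _).trans
      (mul_le_mul_of_nonneg_left c2 (norm_nonneg _))
    have h2 := (norm_inner_le_norm (𝕜 := ℂ) (J c) _).trans
      (mul_le_mul_of_nonneg_left b2 (norm_nonneg _))
    have h3 := this.trans_le (norm_sub_le _ _)
    rw [norm_mul] at h3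
    rw [n] at h1
    rcases (norm_nonneg (J c)).eq_or_lt with z | z
    · rw [← z]; positivity
    · refine le_of_mul_le_mul_left ?_ z
      nlinarith [mul_le_mul_of_nonneg_left h2 (norm_nonneg κ')]
  have e3 : inner ℂ X' Y' - κ * κ' * inner ℂ X Y = inner ℂ X' (Y' - J' b') -
      κ * (κ' * inner ℂ X (Y - J b) + inner ℂ X (J c)) := by
    rw [inner_sub_right, inner_sub_right, hX b' c1, hc, inner_sub_right, inner_smul_right]
    ring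
  have h1 := (norm_inner_le_norm (𝕜 := ℂ) X' _).trans (mul_le_mul_of_nonneg_left c2 (norm_nonneg _))
  have h2 := (norm_inner_le_norm (𝕜 := ℂ) X _).trans (mul_le_mul_of_nonneg_left b2 (norm_nonneg _))
  have h3 := (norm_inner_le_norm (𝕜 := ℂ) X _).trans (mul_le_mul_of_nonneg_left e2 (norm_nonneg _))
  have h4 := (norm_add_le (κ' * inner ℂ X (Y - J b)) (inner ℂ X (J c))).trans (add_le_add
    ((norm_mul_le _ _).trans (mul_le_mul_of_nonneg_left h2 (norm_nonneg _))) h3)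
  rw [e3]
  refine (norm_sub_le _ _).trans ((add_le_add h1 ((norm_mul_le _ _).trans
    (mul_le_mul_of_nonneg_left h4 (norm_nonneg _)))).trans ?_)
  nlinarith [mul_le_mul_of_nonneg_right hK η0.le]

theorem q_id (A : Fm N W y ι m) (B : Fm N' W' y' ι' n) (hτ : τ = .t3 ∨ τ = .t6 ∨ τ = .w2)
    (h : Id W y ι W' y' ι' Dt (ref τ) κ) (r : ∀ (R : Iso) x, f (p + R x) = f (p + x)) (d : Dt f Z) :
    W' (y' (ref τ) f * ι' Z) = κ * W (y (ref τ) f * ι Z) := by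
  have c : C1 univ f := ⟨(d.1.1 0).1, (d.1.1 0).2, subset_univ _⟩
  have := h _ _ d
  rwa [tr, tr, A.one0 hτ c r, B.one0 hτ c r, zero_mul, zero_mul, sub_zero, sub_zero] at this

theorem q_lo (A : Fm N W y ι m) (a : Lab ℝ) {s : ℝ} (hf : C1 {x | x 0 < s} f)
    (hZ : Z ∈ net.loc ({x | x 0 < s} ∩ (tsupport f)ᶜ)) : y a f * ι Z ∈ N.loc {x | x 0 < s} :=
  N.mono (N.mul (A.mem a ⟨hf.1, hf.2.1, subset_rfl⟩) (A.emb.mem hZ)
    (disjoint_compl_right.mono_right inter_subset_right)) (union_subset hf.2.2 inter_subset_left)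

theorem q_rep (A : Fm N W y ι m) (hf : C1 {x | x 0 < 0} f) (hg : C1 (Hs 0 0) g)
    (sg : ContDiff ℝ ∞ g) (hZ : Z ∈ net.loc ({x | x 0 < 0} ∩ (tsupport f)ᶜ)) :
    ∃ (H : Type) (_ : NormedAddCommGroup H) (_ : InnerProductSpace ℂ H) (J : Pol →ₗ[ℂ] H) (X Y : H),
      (∀ c ∈ net.loc (Hs 0 0), ∀ d ∈ net.loc (Hs 0 0), inner ℂ (J c) (J d) = W (ι (net.Θ 0 c * d))) ∧
      (∀ η > (0 : ℝ), ∃ b ∈ net.loc (Hs 0 0), ‖Y - J b‖ ≤ η) ∧
      (∀ c ∈ net.loc (Hs 0 0), inner ℂ (J c) Y = W (y (ref .t6) g * ι (net.Θ 0 c))) ∧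
      (∀ c ∈ net.loc (Hs 0 0), inner ℂ X (J c) = W (y (ref .w2) f * ι (Z * c))) ∧
      inner ℂ X Y = W (y (ref .w2) f * y (ref .t6) g * ι Z) := by
  obtain ⟨H, _, _, _, ⟨r⟩⟩ := A.st.exists_rep 0
  have a : N.Θ 0 (y (ref .w2) f * ι Z) ∈ N.loc (Hs 0 0) :=
    N.mono (N.Θ_mem 0 (q_lo A _ hf hZ)) fun x hx => by simpa [Hs] using hx
  have b := A.mem (ref .t6) hg
  refine ⟨H, inferInstance, inferInstance, r.Ψ ∘ₗ ι.toLinearMap, r.Ψ (N.Θ 0 (y (ref .w2) f * ι Z)),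
    r.Ψ (y (ref .t6) g), fun c c1 d d1 => ?_, fun η η0 => ?_, fun c c1 => ?_, fun c c1 => ?_, ?_⟩
  · rw [map_mul ι, A.emb.Θ]
    exact r.inn (A.emb.mem c1) (A.emb.mem d1)
  · obtain ⟨d, d1, d2⟩ := A.den g sg hg _ (pow_pos η0 2)
    rw [r.nq (Submodule.sub_mem _ b (A.emb.mem d1)), map_sub] at d2
    exact ⟨d, d1, le_of_sq_le_sq d2 η0.le⟩
  · rw [A.emb.Θ, mul_comm]
    exact r.inn (A.emb.mem c1) b
  · rw [map_mul ι, ← mul_assoc]
    exact (r.inn a (A.emb.mem c1)).trans (by rw [N.Θ_Θ])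
  · rw [r.inn a b, N.Θ_Θ, mul_right_comm]

theorem q_core (A : Fm N W y ι m) (B : Fm N' W' y' ι' n)
    (e : ∀ Z ∈ net.loc univ, W' (ι' Z) = W (ι Z)) (h : Id W y ι W' y' ι' Dt (ref .w2) κ)
    (h' : Id W y ι W' y' ι' Dt (ref .t6) κ') (hf : C1 {x | x 0 < 0} f) (hg : C1 (Hs 0 0) g)
    (sg : ContDiff ℝ ∞ g) (rf : ∀ (R : Iso) x, f (p + R x) = f (p + x))
    (rg : ∀ (R : Iso) x, g (q + R x) = g (q + x))
    (hZ : Z ∈ net.loc ({x | x 0 < 0} ∩ (tsupport f)ᶜ)) :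
    W' (y' (ref .w2) f * y' (ref .t6) g * ι' Z) = κ * κ' * W (y (ref .w2) f * y (ref .t6) g * ι Z) := by
  obtain ⟨H, _, _, J, X, Y, a1, a2, a3, a4, a5⟩ := q_rep A hf hg sg hZ
  obtain ⟨H', _, _, J', X', Y', b1, b2, b3, b4, b5⟩ := q_rep B hf hg sg hZ
  rw [← a5, ← b5]
  refine q_abs _ J J' (fun c c1 d d1 => ?_) a2 b2 (fun c c1 => ?_) fun c c1 => ?_
  · rw [a1 c c1 d d1, b1 c c1 d d1, e _ (Net.rp_adm c1 d1)]
  · rw [a3 c c1, b3 c c1]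
    refine q_id A B (.inr (.inl rfl)) h' rg ⟨Ope.adm_one.2 ⟨hg.1, hg.2.1⟩,
      net.mono (net.Θ_mem 0 c1) fun x hx hx' => ?_⟩
    have := hg.2.2 hx'
    simp only [Hs, mem_ofPred_eq, rf_self] at hx this
    linarith
  · rw [a4 c c1, b4 c c1]
    refine q_id A B (.inr (.inr rfl)) h rf ⟨Ope.adm_one.2 ⟨hf.1, hf.2.1⟩, net.mono (net.mul hZ c1
      (disjoint_left.2 fun x hx hx' => lt_asymm (a := x 0) hx.1 hx'))
      (union_subset inter_subset_right fun x hx hx' => lt_asymm (a := x 0) (hf.2.2 hx') hx)⟩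

theorem q_sh (A : Fm N W y ι m) (a b : Lab ℝ) {s : ℝ} (hf : C1 {x | x 0 < s} f) (hg : C1 (Hs 0 s) g)
    (hZ : Z ∈ net.loc ({x | x 0 < s} ∩ (tsupport f)ᶜ)) (v : R4) : W (y a f * y b g * ι Z) =
      W (y a (fun x => f (x - v)) * y b (fun x => g (x - v)) * ι (net.τ v Z)) := by
  rw [← A.tau, ← A.tau, A.emb.τ, ← map_mul, ← map_mul, A.st.ti]
  rw [mul_right_comm]
  exact Net.adm (N.mul (q_lo A a hf hZ) (A.mem b hg)
    (disjoint_left.2 fun x hx hx' => lt_asymm (a := x 0) hx hx'))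

theorem q_c1 {O O' : Set R4} (hf : C1 O f) (v : R4) (h : ∀ x, x - v ∈ O → x ∈ O') :
    C1 O' fun x => f (x - v) :=
  let a := (adm_sub (Ope.adm_one.2 ⟨hf.1, hf.2.1⟩) v).1 0
  ⟨a.1, a.2, fun x hx => h x (hf.2.2 (tsupport_comp (θ := fun x => x - v) (by fun_prop) hx))⟩

theorem q_at (A : Fm N W y ι m) (B : Fm N' W' y' ι' n)
    (e : ∀ Z ∈ net.loc univ, W' (ι' Z) = W (ι Z)) (h : Id W y ι W' y' ι' Dt (ref .w2) κ)
    (h' : Id W y ι W' y' ι' Dt (ref .t6) κ') {s : ℝ} (hf : C1 {x | x 0 < s} f) (hg : C1 (Hs 0 s) g)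
    (sg : ContDiff ℝ ∞ g) (rf : ∀ (R : Iso) x, f (p + R x) = f (p + x))
    (rg : ∀ (R : Iso) x, g (q + R x) = g (q + x))
    (hZ : Z ∈ net.loc ({x | x 0 < s} ∩ (tsupport f)ᶜ)) :
    W' (y' (ref .w2) f * y' (ref .t6) g * ι' Z) = κ * κ' * W (y (ref .w2) f * y (ref .t6) g * ι Z) := by
  rw [q_sh A _ _ hf hg hZ (ax 0 (-s)), q_sh B _ _ hf hg hZ (ax 0 (-s))]
  refine q_core (p := p + ax 0 (-s)) (q := q + ax 0 (-s)) A B e h h'
    (q_c1 hf _ fun x hx => by simpa using hx) (q_c1 hg _ fun x hx => by simpa [Hs] using hx)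
    (sg.comp (contDiff_id.sub contDiff_const))
    (fun R x => by simp only [add_right_comm p (ax 0 (-s)), add_sub_cancel_right, rf])
    (fun R x => by simp only [add_right_comm q (ax 0 (-s)), add_sub_cancel_right, rg])
    (net.mono (net.τ_mem _ hZ) fun x hx => ⟨by simpa using hx.1, fun hx' =>
      hx.2 (tsupport_comp (θ := fun x => x - ax 0 (-s)) (by fun_prop) hx')⟩)

theorem id2_q (A : Fm N W y ι m) (B : Fm N' W' y' ι' n)
    (e : ∀ Z ∈ net.loc univ, W' (ι' Z) = W (ι Z)) (hu : Bp u) {s : ℝ}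
    (u0 : tsupport (u 0) ⊆ {x | x 0 < s}) (u1 : tsupport (u 1) ⊆ Hs 0 s)
    (h : Id W y ι W' y' ι' Dt (ref .w2) κ) (h' : Id W y ι W' y' ι' Dt (ref .t6) κ') :
    Id2 W y ι W' y' ι' Er (ref .w2) (ref .t6) u (κ * κ') := by
  rintro f Z ⟨d, s0, hZ, hf⟩
  obtain ⟨δ, δ0, hδ⟩ := (d.1.1 0).1.isCompact.exists_thickening_subset_open
    (isOpen_lt continuous_const (by fun_prop) : IsOpen (Hs 0 s0)) hf
  have tt : Tendsto (fun t : ℝ => |t * s|) (𝓝[>] 0) (𝓝 |0 * s|) :=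
    ((continuous_id.mul continuous_const).abs.tendsto 0).mono_left nhdsWithin_le_nhds
  filter_upwards [mv_near hu.1 δ0, tt.eventually (gt_mem_nhds (by simpa using δ0 : _ < δ)),
    self_mem_nhdsWithin] with t ht ts t0 z hz
  have t1 : 0 < t := t0
  have bl : Metric.ball z δ ⊆ Hs 0 s0 := (Metric.ball_subset_thickening hz δ).trans hδ
  have a := mv_adm hu.1 t0 z
  obtain ⟨-, p, r0⟩ := hu.2 0
  obtain ⟨s1, q, r1⟩ := hu.2 1
  have le : s0 < z 0 + t * s := by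
    simpa [Hs] using bl (a := z + ax 0 (t * s)) (by simpa [mem_ball_iff_norm] using ts)
  have key : ∀ Z ∈ net.loc {x | x 0 < s0}, W' (y' (ref .w2) (mv t z (u 0)) *
      y' (ref .t6) (mv t z (u 1)) * ι' Z) = κ * κ' * W (y (ref .w2) (mv t z (u 0)) *
        y (ref .t6) (mv t z (u 1)) * ι Z) := fun Z hZ => by
    refine q_at (s := z 0 + t * s) A B e h h' ⟨(a.1 0).1, (a.1 0).2, fun x hx => ?_⟩
      ⟨(a.1 1).1, (a.1 1).2, fun x hx => ?_⟩ (s1.comp (by fun_prop)) (mv_rad r0 t1.ne' z)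
      (mv_rad r1 t1.ne' z) (net.mono hZ fun x hx => ⟨lt_trans (b := s0) hx le, fun hx' =>
        lt_asymm (a := x 0) hx (bl (ht z 0 hx'))⟩)
    · have := u0 (tsupport_comp (θ := fun x => t⁻¹ • (x - z)) (by fun_prop) hx)
      simp only [mem_ofPred_eq, PiLp.smul_apply, PiLp.sub_apply, smul_eq_mul,
        inv_mul_lt_iff₀ t1] at this ⊢
      linarith
    · have := u1 (tsupport_comp (θ := fun x => t⁻¹ • (x - z)) (by fun_prop) hx)
      simp only [Hs, mem_ofPred_eq, PiLp.smul_apply, PiLp.sub_apply, smul_eq_mul,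
        lt_inv_mul_iff₀ t1] at this ⊢
      linarith
  have k1 := key 1 (net.one _)
  rw [map_one, map_one, mul_one, mul_one] at k1
  rw [tr, tr, key Z hZ, k1, e Z (Net.adm hZ)]
  push_cast
  ring

end Pool.Agent.Lib.MP_7f377f_mp.Fr2
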