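import Pool.Agent.Lib.MP_7f377f_mp.G.S22P1
import Pool.Agent.Lib.MP_7f377f_mp.G.S22P7

/-! The normalisations of two systems of fields are comparable. -/

noncomputable section

namespace Pool.Agent.Lib.MP_7f377f_mp.Fr2
variable [Pool.Agent.Lib.MP_7f377f_mp.GD]
set_option linter.unusedSectionVars false

open MeasureTheory Filter Topology Set Real YM7 Pur Wm Asymptotics MvPolynomial ComplexConjugate
open Ope (Dt sc)
open Ro (Iso act)
open Lb (Lab Cl Tp pc pa rho rhoL mx ref c0 ip)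
open Lg.PI (dt)
open scoped ContDiff

variable {P P' : Type} [CommRing P] [Algebra ℂ P] [CommRing P'] [Algebra ℂ P'] {N : Net P}
  {W : P →ₗ[ℂ] ℂ} {y : Lab ℝ → (R4 → ℝ) → P} {ι : Pol →ₐ[ℂ] P} {m n : ℝ → Cl → ℝ} {N' : Net P'}
  {W' : P' →ₗ[ℂ] ℂ} {y' : Lab ℝ → (R4 → ℝ) → P'} {ι' : Pol →ₐ[ℂ] P'} {τ : Tp}
  {u : Fin 2 → R4 → ℝ} {κ κ' : ℝ} {l : Cl} {a b c : Lab ℝ}

theorem pw0 {ε : ℝ} (ε0 : 0 < ε) : Tendsto (fun t : ℝ => t ^ ε) (𝓝[>] 0) (𝓝 0) := by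
  simpa [zero_rpow ε0.ne'] using
    (continuousAt_rpow_const 0 ε (.inr ε0.le)).tendsto.mono_left nhdsWithin_le_nhds

theorem ratio {I : Type} {a b : I → ℂ} {x z : ℝ → ℝ} {δ : ℝ} (δ0 : 0 < δ)
    (h : ∀ i, (fun t => (x t : ℂ) * a i - z t * b i) =O[𝓝[>] 0] fun t => t ^ δ)
    (sl : ∀ᶠ t in 𝓝[>] (0 : ℝ), t ^ (δ / 2) ≤ |x t|) {j : I} (a0 : a j ≠ 0) :
    ∃ κ : ℝ, κ ≠ 0 ∧ (∀ i, a i = κ * b i) ∧ Tendsto (fun t => z t / x t) (𝓝[>] 0) (𝓝 κ) := by
  have k : ∀ i, Tendsto (fun t => ((z t / x t : ℝ) : ℂ) * b i) (𝓝[>] 0) (𝓝 (a i)) := fun i => by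
    obtain ⟨C, C0, hC⟩ := (h i).exists_pos
    refine tendsto_iff_norm_sub_tendsto_zero.2 (squeeze_zero' (.of_forall fun _ => norm_nonneg _) ?_
      (by simpa using (pw0 (half_pos δ0)).const_mul C))
    filter_upwards [hC.bound, sl, self_mem_nhdsWithin] with t h1 h2 (t0 : 0 < t)
    have p := rpow_pos_of_pos t0 (δ / 2)
    have x0 := p.trans_le h2
    have x1 : (x t : ℂ) ≠ 0 := by simpa using x0
    rw [norm_of_nonneg (rpow_nonneg t0.le _), ← add_halves δ, rpow_add t0, ← mul_assoc] at h1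
    rw [show ((z t / x t : ℝ) : ℂ) * b i - a i = -(x t * a i - z t * b i) / x t by
      push_cast; field_simp; ring, norm_div, norm_neg, Complex.norm_real, norm_eq_abs,
      div_le_iff₀ x0]
    exact h1.trans (by gcongr)
  have b0 : b j ≠ 0 := fun e => a0 (tendsto_nhds_unique (k j) (by simp [e]))
  have r := (Complex.continuous_re.tendsto _).comp ((k j).div_const (b j))
  simp only [mul_div_cancel_right₀ _ b0, Function.comp_def, Complex.ofReal_re] at r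
  have e := fun i => tendsto_nhds_unique (k i) (r.ofReal.mul_const (b i))
  exact ⟨_, fun z => a0 (by rw [e j, z, Complex.ofReal_zero, zero_mul]), e, r⟩

theorem dg_of (m : Cl → ℝ) (h : pc l a = a) : dg m a = m l • a := by
  rw [dg, ← h]
  simp [Lb.pc_pc]

theorem pa_dg (m : Cl → ℝ) (a : Lab ℝ) : pa (dg m a) = dg m a :=
  (map_sum Lb.paL _ _).trans (Finset.sum_congr rfl fun l _ =>
    (Lb.pa_smul _).trans (congrArg _ (Lb.pa_pc l)))

theorem ip_dg (m : Cl → ℝ) (a : Lab ℝ) : ip (ref τ) (dg m a) = m τ.cl * ip (ref τ) a := by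
  refine (map_sum (Lb.ipL _) _ _).trans ((Finset.sum_eq_single τ.cl (fun l _ e => ?_) (by simp)).trans ?_)
  · exact (Lb.ip_smul _).trans (by rw [Lb.ip_pc, Lb.pc_ref, if_neg e.symm]; simp [ip])
  · exact (Lb.ip_smul _).trans (by rw [Lb.ip_pc, Lb.pc_ref, if_pos rfl])

theorem Fm.tr2 (A : Fm N W y ι m) {Z : Pol} (hu : Adm u)
    (hZ : Z ∈ net.loc (tsupport (u 0) ∪ tsupport (u 1))ᶜ) (r s : ℝ) :
    tr W ι (y (r • a) (u 0) * y (s • b) (u 1)) Z = r * s * tr W ι (y a (u 0) * y b (u 1)) Z := by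
  have c : ∀ i, C1 (tsupport (u i)) (u i) := fun i => ⟨(hu.1 i).1, (hu.1 i).2, subset_rfl⟩
  have k : ∀ i j, i ≠ j → ∀ a, ∀ Y ∈ N.loc (tsupport (u i) ∪ tsupport (u j))ᶜ,
      y a (u j) * Y ∈ N.loc (tsupport (u i))ᶜ := fun i j e a Y hY =>
    N.mono (N.mul (A.mem a (c j)) hY (disjoint_compl_right.mono_left subset_union_right))
      (union_subset (hu.2 e).subset_compl_left (compl_subset_compl.2 subset_union_left))
  have e : ∀ Y ∈ N.loc (tsupport (u 0) ∪ tsupport (u 1))ᶜ, W (y (r • a) (u 0) * y (s • b) (u 1) * Y) =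
      r * s * W (y a (u 0) * y b (u 1) * Y) := fun Y hY => by
    rw [mul_assoc, A.smul r a ⟨(c 0).1, (c 0).2.1, subset_univ _⟩ (k 0 1 zero_ne_one _ Y hY),
      mul_left_comm (y a _), A.smul s b ⟨(c 1).1, (c 1).2.1, subset_univ _⟩
        (k 1 0 one_ne_zero _ Y (union_comm _ _ ▸ hY)), mul_left_comm (y b _), mul_assoc, mul_assoc]
  have := e 1 (N.one _)
  rw [mul_one, mul_one] at this
  rw [tr, tr, this, e _ (A.emb.mem hZ)]
  ring

theorem er_sc {k : ℕ} {f : Fin (k + 1) → R4 → ℝ} {s t : ℝ} (hf : Adm f) (h : tsupport (f 0) ⊆ Hs 0 s)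
    (h' : ∀ i : Fin k, tsupport (f i.succ) ⊆ {x | x 0 < s}) (t0 : 0 < t) :
    Er (sc t (f 0)) (mon fun i : Fin k => sc t (f i.succ)) := by
  have a := hf.smul (inv_ne_zero t0.ne')
  refine ⟨Ope.dt_of (by convert a using 1; exact Fin.cons_self_tail fun i => sc t (f i)), t * s,
    mon_mem ⟨fun i => a.1 i.succ, fun _ _ e => a.2 ((Fin.succ_injective _).ne e)⟩ fun i x hx => ?_,
    fun x hx => ?_⟩
  · exact (inv_mul_lt_iff₀ t0).1 (h' i (tsupport_comp (θ := fun x => t⁻¹ • x) (by fun_prop) hx))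
  · exact (lt_inv_mul_iff₀ t0).1 (h (tsupport_comp (θ := fun x => t⁻¹ • x) (by fun_prop) hx))

theorem Fm.up (A : Fm N W y ι m) (l l' : Cl) {F : ℝ → ℂ} {δ δ' : ℝ} (δ0 : 0 < δ) (e : 3 * δ ≤ δ')
    (h : F =O[𝓝[>] 0] fun t => t ^ δ') :
    (fun t => ((m t l * m t l' : ℝ) : ℂ) * F t) =O[𝓝[>] 0] fun t => t ^ δ := by
  obtain ⟨C, C0, hC⟩ := h.exists_pos
  refine .of_bound C ?_
  filter_upwards [hC.bound, A.slow l δ δ0, A.slow l' δ δ0, Ioo_mem_nhdsGT one_pos] with t h h1 h2 ht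
  have p := rpow_pos_of_pos ht.1
  rw [norm_of_nonneg (p _).le] at h ⊢
  rw [norm_mul, Complex.norm_real, norm_eq_abs, abs_mul,
    show δ = -δ + -δ + 3 * δ by ring, rpow_add ht.1, rpow_add ht.1, mul_left_comm]
  exact mul_le_mul (mul_le_mul h1.2 h2.2 (abs_nonneg _) (p _).le) (h.trans (mul_le_mul_of_nonneg_left
    (rpow_le_rpow_of_exponent_ge ht.1 ht.2.le e) C0.le)) (norm_nonneg _) (mul_pos (p _) (p _)).le

theorem step (A : Fm N W y ι m) (B : Fm N' W' y' ι' n) (o : Old W' y' ι' n)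
    {E : (R4 → ℝ) → Pol → Prop} (hE : ∀ f Z, E f Z → Dt f Z) (hE' : ∀ f Z, Er f Z → E f Z) {T}
    (cl : Cls W y ι W' y' ι' E T ∧ Prj τ T) {l' : Cl} (ha : pc l a = a) (hb : pc l' b = b)
    (ca : Cp m n l) (cb : Cp m n l') (hu : Adm u) (k : κ ≠ 0) (h2 : Id2 W y ι W' y' ι' E a b u κ)
    (bb : ip (ref τ) (Cm.BB a b u) ≠ 0) :
    (∃ κ : ℝ, κ ≠ 0 ∧ Id W y ι W' y' ι' E (ref τ) κ) ∧ Cp m n τ.cl := by
  obtain ⟨B₁, δ₁, d1, C, hC, o1⟩ := A.ope a b u hu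
  obtain ⟨δ₂, d2, C', hC', o2⟩ := o.ope a b u hu
  obtain ⟨cl, e, e0, pj⟩ := cl
  obtain ⟨δ, δ0, e1, e2⟩ : ∃ δ > (0 : ℝ), 3 * δ ≤ δ₁ ∧ 3 * δ ≤ δ₂ := ⟨min δ₁ δ₂ / 3, by positivity,
    by linarith [min_le_left δ₁ δ₂], by linarith [min_le_right δ₁ δ₂]⟩
  have rel := cl δ (fun t => (m t l * m t l') • dg (n t) (C' t))
    (fun t => (κ * (n t l * n t l')) • dg (m t) (C t)) fun f Z hZ => by
      have d := hE f Z hZ
      refine (((B.up l l' δ0 e1 (o1 f Z d)).const_mul_left κ).sub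
        (A.up l l' δ0 e2 (o2 f Z d))).congr' ?_ .rfl
      filter_upwards [h2 f Z hZ, mv_out hu d, self_mem_nhdsWithin] with t h h' t0
      rw [A.tr_smul _ _ d, B.tr_smul _ _ d, mul_sub, mul_sub, mul_sub, ← mul_div_assoc,
        ← mul_div_assoc, ← mul_div_assoc, ← integral_const_mul, ← integral_const_mul,
        ← integral_const_mul, integral_congr_ae (.of_forall fun z => ?_)]
      · push_cast
        ring
      by_cases hz : f z = 0
      · simp [hz]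
      have hz' := subset_tsupport _ hz
      have p := A.tr2 (a := a) (b := b) (mv_adm hu t0 z) (h' z hz')
      have q := B.tr2 (a := a) (b := b) (mv_adm hu t0 z) (h' z hz')
      simp only [dg_of _ ha, dg_of _ hb, p, q, h z hz']
      push_cast
      ring
  have pr : pc τ.cl (ref τ : Lab ℝ) = ref τ := by rw [Lb.pc_ref, if_pos rfl]
  obtain ⟨f, s, hf, f0, f1, fr⟩ := far_er pr fun z => Lb.ref_ne (K := ℝ) τ (by rw [z]; rfl)
  obtain ⟨z₁, a1⟩ := A.af _ _ pr _ f hf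
  obtain ⟨z₂, z0, a2⟩ := o.af _ _ pr _ f hf fr
  have er := fun t t0 => hE' _ _ (er_sc (t := t) hf f0 f1 t0)
  obtain ⟨t₀, t1, t2⟩ := ((a2.eventually_ne z0).and self_mem_nhdsWithin).exists
  have i1 := ((Lb.ip_cont (ref τ)).tendsto _).comp hC
  have i2 := ((Lb.ip_cont (ref τ)).tendsto _).comp hC'
  have g : ip (ref τ) (Cm.gm • Cm.BB a b u) ≠ 0 := by
    rw [Lb.ip_smul]
    exact mul_ne_zero Cm.gm_pos.ne' bb
  obtain ⟨κ₁, k0, k1, k2⟩ := ratio (I := {p : _ × _ // E p.1 p.2})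
    (a := fun p => tr W' ι' (y' (ref τ) p.1.1) p.1.2) (b := fun p => tr W ι (y (ref τ) p.1.1) p.1.2)
    (x := fun t => e * (m t l * m t l' * (n t τ.cl * ip (ref τ) (C' t))))
    (z := fun t => e * (κ * (n t l * n t l') * (m t τ.cl * ip (ref τ) (C t)))) δ0
    (fun p => by
      simpa only [pj, Lb.pa_smul, pa_dg, Lb.ip_smul, ip_dg, A.tr_smul _ _ (hE _ _ p.2),
        B.tr_smul _ _ (hE _ _ p.2)] using rel _ _ p.2) (by
      have d : 0 < δ / 8 := by positivity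
      filter_upwards [A.slow l _ d, A.slow l' _ d, B.slow τ.cl _ d, self_mem_nhdsWithin,
        (pw0 d).eventually_lt (i2.const_mul e).abs (abs_pos.2 (mul_ne_zero e0 g))]
        with t h1 h2 h3 (t0 : 0 < t) h4
      have p := (rpow_pos_of_pos t0 (δ / 8)).le
      rw [show δ / 2 = δ / 8 + δ / 8 + δ / 8 + δ / 8 by ring, rpow_add t0, rpow_add t0, rpow_add t0,
        show e * (m t l * m t l' * (n t τ.cl * ip (ref τ) (C' t))) =
          m t l * m t l' * n t τ.cl * (e * ip (ref τ) (C' t)) by ring, abs_mul, abs_mul, abs_mul]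
      exact mul_le_mul (mul_le_mul (mul_le_mul h1.1 h2.1 p (abs_nonneg _)) h3.1 p (by positivity)) h4.le p
        (by positivity)) (j := ⟨(_, _), er t₀ t2⟩) (right_ne_zero_of_mul t1)
  replace k1 : Id W y ι W' y' ι' E (ref τ) κ₁ := fun f Z h => k1 ⟨(f, Z), h⟩
  refine ⟨⟨κ₁, k0, k1⟩, ?_⟩
  obtain ⟨c, c0, _, ca⟩ := ca
  obtain ⟨c', c0', _, cb⟩ := cb
  obtain ⟨K, K1, K0⟩ := (exists_gt (max |κ * ip (ref τ) B₁| 0)).imp fun _ => max_lt_iff.1
  have r := half_lt_self (abs_pos.2 (mul_ne_zero k0 g))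
  have up := ((a1.const_mul (κ₁ : ℂ)).div a2 z0).norm
  refine ⟨|κ₁ * ip (ref τ) (Cm.gm • Cm.BB a b u)| / 2 * (c * c') / K, by positivity,
    ‖κ₁ * z₁ / z₂‖ + 1, ?_⟩
  filter_upwards [ca, cb, (i1.const_mul κ).abs.eventually_le_const K1, (k2.mul i2).abs.eventually_const_le r,
    up.eventually_le_const (lt_add_one _), a2.eventually_ne z0, self_mem_nhdsWithin,
    i2.eventually_ne g] with t h1 h2 h3 h4 h5 h6 t0 h7
  have n1 := div_ne_zero_iff.1 (abs_pos.1 (c0.trans_le h1.1))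
  have n2 := div_ne_zero_iff.1 (abs_pos.1 (c0'.trans_le h2.1))
  have n3 := mul_ne_zero_iff.1 (Complex.ofReal_ne_zero.1 (left_ne_zero_of_mul h6))
  constructor
  · rw [div_le_iff₀ K0]
    refine (mul_le_mul h4 (mul_le_mul h1.1 h2.1 c0'.le (abs_nonneg _)) (by positivity)
      (abs_nonneg _)).trans (le_trans (le_of_eq ?_) (mul_le_mul_of_nonneg_left h3 (abs_nonneg _)))
    simp only [← abs_mul, Function.comp] at h7 ⊢
    congr 1
    field_simp [n1.1, n1.2, n2.1, n2.2, n3.1]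
  · refine le_trans (le_of_eq ?_) h5
    rw [← norm_eq_abs, ← Complex.norm_real, Pi.div_apply, mul_left_comm, ← k1 _ _ (er t t0),
      mul_div_mul_right _ _ (right_ne_zero_of_mul h6), ← Complex.ofReal_div,
      mul_div_mul_right _ _ n3.2]

theorem main2 (A : Fm N W y ι m) (B : Fm N' W' y' ι' n) (o : Old W' y' ι' n)
    (e : ∀ Z ∈ net.loc univ, W' (ι' Z) = W (ι Z)) : Cp m n .q ∧ Cp m n .w := by
  have s : Cp m n .s := by
    obtain ⟨β, b0, h⟩ := A.sca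
    obtain ⟨γ, g0, h'⟩ := B.sca
    refine ⟨|β / γ|, by positivity, |β / γ|, ?_⟩
    filter_upwards [h, h', Ioo_mem_nhdsGT one_pos] with t h h' ht
    rw [h, h', mul_div_mul_right _ _ (log_pos ((one_lt_inv₀ ht.1).2 ht.2)).ne']
    exact ⟨le_rfl, le_rfl⟩
  have ps : pc .s (pa (c0 : Lab ℝ)) = pa c0 := by
    rw [Lb.pa_c0, Lb.pc_smul, pc, Lb.ip_an, Lb.an_an, Lb.tr_an]
    norm_num
  have pr : ∀ τ : Tp, pc τ.cl (ref τ : Lab ℝ) = ref τ := fun τ => by rw [Lb.pc_ref, if_pos rfl]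
  have t : ∀ τ, τ = .t3 ∨ τ = .t6 →
      (∃ κ : ℝ, κ ≠ 0 ∧ Id W y ι W' y' ι' Dt (ref τ) κ) ∧ Cp m n τ.cl := fun τ h => by
    obtain ⟨u, u1, u2⟩ := bp_t h
    obtain ⟨T, hT⟩ := cls_t A B (h.imp_right .inl)
    obtain ⟨κ, k1, k2⟩ := id2_ss A B e u1.1
    exact step A B o (fun _ _ => id) (fun _ _ h => h.1) hT ps ps s s u1.1 k1 k2 u2
  obtain ⟨⟨κ₃, k3, i3⟩, c3⟩ := t _ (.inl rfl)
  obtain ⟨⟨κ₆, k6, i6⟩, c6⟩ := t _ (.inr rfl)
  obtain ⟨u, u1, u2⟩ := bp_w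
  obtain ⟨T, hT⟩ := cls_t (τ := .w2) A B (.inr (.inr rfl))
  obtain ⟨κ, k1, k2⟩ := id2_s A B e u1 k3 i3
  obtain ⟨⟨κ₂, k2, i2⟩, c2⟩ :=
    step A B o (fun _ _ => id) (fun _ _ h => h.1) hT ps (pr _) s c3 u1.1 k1 k2 u2
  obtain ⟨v, r, v1, v2, v3, v4⟩ := bp_q
  obtain ⟨T', hT'⟩ := cls_q A B
  exact ⟨(step A B o (fun _ _ h => h.1) (fun _ _ => id) hT' (pr _) (pr _) c2 c6 v1.1
    (mul_ne_zero k2 k6) (id2_q A B e v1 v2 v3 i2 i6) v4).2, c2⟩

theorem Cp.dim (h : Cp m n l) {p : ℝ}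
    (e : Tendsto (fun t => log (n t l) / log (log t⁻¹)) (𝓝[>] 0) (𝓝 p)) :
    Tendsto (fun t => log (m t l) / log (log t⁻¹)) (𝓝[>] 0) (𝓝 p) := by
  obtain ⟨c, c0, C, h⟩ := h
  have L : Tendsto (fun t : ℝ => log (log t⁻¹)) (𝓝[>] 0) atTop :=
    tendsto_log_atTop.comp (tendsto_log_atTop.comp tendsto_inv_nhdsGT_zero)
  have z : Tendsto (fun t => log (m t l / n t l) / log (log t⁻¹)) (𝓝[>] 0) (𝓝 0) := by
    refine tendsto_of_tendsto_of_tendsto_of_le_of_le' (L.const_div_atTop (log c))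
      (L.const_div_atTop (log C)) ?_ ?_ <;>
    filter_upwards [h, L.eventually_ge_atTop 0] with t h1 h2 <;>
    refine div_le_div_of_nonneg_right ?_ h2 <;> rw [← log_abs (_ / _)]
    exacts [log_le_log c0 h1.1, log_le_log (c0.trans_le h1.1) h1.2]
  refine (add_zero p ▸ e.add z).congr' (h.mono fun t h1 => ?_)
  have := div_ne_zero_iff.1 (abs_pos.1 (c0.trans_le h1.1))
  simp only [log_div this.1 this.2]
  ring

end Pool.Agent.Lib.MP_7f377f_mp.Fr2
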