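import Pool.Agent.Lib.MP_7f377f_mp.G.S22P8
import Pool.Agent.Lib.MP_7f377f_mp.G.S21Ma
import Pool.Agent.Lib.MP_7f377f_mp.G.S21Mb
import Pool.Agent.Lib.MP_7f377f_mp.G.WxC

/-! The composite fields of dimension four as a system of fields with real labels. -/

noncomputable section

namespace Pool.Agent.Lib.MP_7f377f_mp.Fr2

open MeasureTheory Filter Topology Set Real YM7 Pur MvPolynomial Lm Asymptotics
open Lb (Lab Cl pa pc c0)
open Cm (cx gm dgL frI BB)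
open Ope (Dt sc)
open scoped Matrix.Norms.Elementwise

/-- a system of fields over the state `W` with known free values and anomalous dimensions -/
def Of [GD] (W : Pol →ₗ[ℂ] ℂ) : Prop :=
  ∃ (P : Type) (_ : CommRing P) (_ : Algebra ℂ P) (N : Net P) (W' : P →ₗ[ℂ] ℂ)
    (y : Lab ℝ → (R4 → ℝ) → P) (ι : Pol →ₐ[ℂ] P) (n : ℝ → Cl → ℝ), Fm N W' y ι n ∧ Old W' y ι n ∧
      (∀ Z ∈ net.loc univ, W' (ι Z) = W Z) ∧
      Tendsto (fun t => log (n t .q) / log (log t⁻¹)) (𝓝[>] 0) (𝓝 1) ∧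
      Tendsto (fun t => log (n t .w) / log (log t⁻¹)) (𝓝[>] 0) (𝓝 (-7 / 11))

variable [GD] {S W : Pol →ₗ[ℂ] ℂ} {K δ : ℝ} {l : Filter (ℕ × ℕ)} [l.NeBot]
  {O : ℕ × ℕ → Lab ℂ → (R4 → ℝ) → Pol} {N : Cl → ℝ → ℝ} {W' : PolL (Lab ℂ) →ₗ[ℂ] ℂ}
  {H : Type} [NormedAddCommGroup H] [InnerProductSpace ℂ H] {r : net.Rep W 0 H}
  {r' : (netL (Wv.inv4 Wv.rp_rho)).Rep W' 0 H}

theorem gm_pos : 0 < gm := by
  have := GD.b0_pos
  unfold gm
  positivity

theorem emb_e : net.Emb (netL (Wv.inv4 Wv.rp_rho)) (emb c0) :=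
  (algHom_ext fun f => by simp [emb] : (aeval fun f => X (c0, f)) = emb (c0 : Lab ℂ)) ▸
    Wx.emb_of (gen_netL (Wv.inv4 Wv.rp_rho)) Wv.tE_c0

theorem frI_one (a : Lab ℝ) (f : Fin 1 → R4 → ℝ) : frI ![cx a] f = 0 := by
  rw [show ![cx a] = fun _ => cx a from funext fun i => by simp, Cm.frI_cx (fun _ => a)]
  simp [Lb.frL, Lb.lq, Lb.tm, Lb.pr_zero]

variable (Q : Cm.Res S K l O N) (o : Outl W r K (Wv.rE Lb.rho) l (netL (Wv.inv4 Wv.rp_rho))
    (fun c f => X (c, f)) (fun j => sub (O j)) W' r')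
include Q o

theorem w_pa (c : Lab ℂ) {f : R4 → ℝ} (hf : Wm.C1 univ f) {Z : PolL (Lab ℂ)}
    (hZ : Z ∈ (netL (Wv.inv4 Wv.rp_rho)).loc (tsupport f)ᶜ) :
    W' (X (pa c, f) * Z) = W' (X (c, f) * Z) := by
  have m := fun c => union_compl_self (tsupport f) ▸ Net.mul _
    ((gen_netL (Wv.inv4 Wv.rp_rho)).mem (g := f) ⟨hf.1, hf.2.1, subset_rfl⟩ c) hZ
    disjoint_compl_right
  exact tendsto_nhds_unique (o.lim _ (m _)) ((o.lim _ (m _)).congr fun j => by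
    simp only [map_mul, sub, aeval_X, Q.pa])

theorem lawc (hD : net.Dom S W) (hW : net.St W) {k : ℕ} (t : Fin k → Cl) (a : Fin k → Lab ℂ)
    {f : Fin k → R4 → ℝ} (hf : Adm f) (ha : ∀ i, pc (t i) (a i) = pa (a i)) :
    Tendsto (fun D => ((∏ i, N (t i) D : ℝ) : ℂ) * W' (∏ i, X (a i, sc D (f i)))) (𝓝[>] 0)
      (𝓝 (frI a f)) := by
  have lim : ∀ k (a : Fin k → Lab ℂ) (f : Fin k → R4 → ℝ), Adm f →
      Tendsto (fun j => W (∏ i, O j (a i) (f i))) l (𝓝 (W' (∏ i, X (a i, f i)))) := by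
    intro k a f hf
    have := o.lim _ (Wv.gen_mem (gen_netL (Wv.inv4 Wv.rp_rho)) a hf fun _ => subset_univ _)
    simpa only [sub, map_prod, aeval_X] using this
  refine Cm.frI_pa a f ▸ (Q.law' hD hW lim t hf fun i => (Lb.pc_pa _).trans (ha i)).congr'
    (eventually_mem_nhdsWithin.mono fun D (e : 0 < D) => congrArg _ ?_)
  have g := hf.smul (inv_ne_zero e.ne')
  exact tendsto_nhds_unique (lim k _ _ g) ((lim k a _ g).congr fun j => by simp only [Q.pa]; rfl)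

theorem old_af (hD : net.Dom S W) (hW : net.St W) {i : Cl} {c : Lab ℝ} (hc : pc i c = c) {k : ℕ}
    {f : Fin (k + 1) → R4 → ℝ} (hf : Adm f) :
    Af W' (fun c f => X (cx (pa c), f)) (emb c0) (fun t l => gm * N l t) i c f
      (gm ^ (k + 1) * frI (Fin.cons (cx c) fun _ => c0) f) := by
  have g : (gm : ℂ) ≠ 0 := Complex.ofReal_ne_zero.2 gm_pos.ne'
  have p : pa c = c := by rw [← hc, Lb.pa_pc]
  have c1 : pc i (cx c) = pa (cx c) := by rw [← Cm.cx_pc, ← Cm.cx_pa, hc, p]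
  have c2 : pc .s (c0 : Lab ℂ) = pa c0 := by
    rw [Lb.pa_c0]
    simp [pc, Lb.ip_an, Lb.tr_an, c0]
  have a := lawc Q o hD hW (Fin.cons i fun _ => .s) (Fin.cons (cx c) fun _ => c0) hf
    (Fin.cases c1 fun _ => c2)
  have b := lawc Q o hD hW ![i] ![cx c] (f := ![f 0]) (Ope.adm_one.2 (hf.1 0)) fun j => by simp [c1]
  have d := lawc Q o hD hW (fun _ => .s) (fun _ => c0) (f := fun j : Fin k => f j.succ)
    ⟨fun j => hf.1 _, fun a b e => hf.2 fun q => e (Fin.succ_injective _ q)⟩ fun _ => c2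
  have := ((a.sub (b.mul d)).const_mul ((gm : ℂ) ^ (k + 1)))
  rw [frI_one, zero_mul, sub_zero] at this
  refine this.congr fun t => ?_
  simp [tr, Fin.prod_univ_succ, Q.sca, p, emb, mon]
  field_simp
  ring

theorem fm_of (hR : Lg.Rot W) (o1 : ∀ Z ∈ net.loc univ, W' (emb c0 Z) = W Z)
    (o2 : ∀ Z ∈ net.loc (Hs 0 0), r'.Ψ (emb c0 Z) = r.Ψ Z)
    (ope : ∀ a b u, Adm u → ∃ B,
      Op W' (fun c f => X (cx (pa c), f)) (emb c0) (fun t l => gm * N l t) a b u B)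
    (af : ∀ i c, pc i c = c → ∀ k (f : Fin (k + 1) → R4 → ℝ), Adm f →
      ∃ z, Af W' (fun c f => X (cx (pa c), f)) (emb c0) (fun t l => gm * N l t) i c f z) :
    Fm (netL (Wv.inv4 Wv.rp_rho)) W' (fun c f => X (cx (pa c), f)) (emb c0)
      fun t l => gm * N l t := by
  have G := gen_netL (Wv.inv4 Wv.rp_rho)
  have E := emb_e
  have g := gm_pos
  have e : ∀ R (c : Lab ℝ), Wv.rE Lb.rho R (cx (pa c)) = cx (pa (Lb.rho (Lb.mx R) c)) := fun R c => by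
    rw [Lb.pa_rho (Lb.mx_orth R)]
    exact Cm.rE_cx R _
  refine ⟨E, o.st, fun c h => G.mem h _, fun v c f => G.tau v _ f, fun μ c f => ?_,
    fun t a b f hf Z hZ => ?_, fun R hR c f Z d => ?_, fun R e Z hZ => ?_,
    ⟨1, one_ne_zero, fun f hf Z hZ => ?_⟩, ⟨1, one_ne_zero, .of_forall fun t => ?_⟩,
    fun i ε ε0 => ?_, ope, af, fun u _ hu η η0 => ?_⟩
  · refine (G.refl μ _ f).trans ?_
    rw [← e, Wv.tE]
    congr 3
    ext x y
    simpa [cx] using congrFun₂ (Lb.pa_tr (c := c)) x y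
  · simpa only [Lb.pa_add, Lb.pa_smul, Cm.cx_add, Cm.cx_smul] using o.linc t _ _ f hf Z hZ
  · obtain ⟨m, s, k, v, v1, v2, rfl⟩ := PN.exists_sum d.2
    simp only [map_sum, map_smul, Finset.mul_sum, mul_smul_comm]
    refine Finset.sum_congr rfl fun j _ => congrArg _ ?_
    have := o.rot R hR _ (Fin.cons (cx (pa c)) fun _ => c0) (Fin.cons f (v j))
      (PN.adm_cons (d.1.1 0).1 (d.1.1 0).2 (v1 j) fun i =>
        disjoint_compl_right.mono_right (v2 j i))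
    simpa [Fin.prod_univ_succ, e, Wv.rE_c0, emb, mon, Ro.act] using this
  · rw [o1 _ hZ, o1 _ (Ro.act_adm R hZ), Lg.PI.rot_iff.1 hR R e Z hZ]
  · rw [Lb.pa_pa, Cm.cx_pa, Cm.cx_c0, w_pa Q o c0 hf hZ, emb, rename_X, Complex.ofReal_one, one_mul]
  · simp [Q.sca, mul_div_cancel₀ _ g.ne']
  · have z : Tendsto (fun D : ℝ => D ^ (ε / 2)) (𝓝[>] 0) (𝓝 0) := by
      simpa [zero_rpow (half_pos ε0).ne'] using
        ((continuousAt_rpow_const 0 (ε / 2) (.inr (half_pos ε0).le)).tendsto).mono_left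
          nhdsWithin_le_nhds
    filter_upwards [Q.slow i _ (half_pos ε0), z.eventually_le_const g,
      z.eventually_le_const (inv_pos.2 g), self_mem_nhdsWithin] with t a b c (t0 : 0 < t)
    have p := rpow_pos_of_pos t0 (ε / 2)
    rw [abs_of_pos (mul_pos g (p.trans_le a.1)), ← add_halves ε, neg_add, rpow_add t0, rpow_add t0]
    refine ⟨mul_le_mul b a.1 p.le g.le, mul_le_mul ?_ a.2 (p.le.trans a.1) (by positivity)⟩
    rw [rpow_neg t0.le]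
    exact (le_inv_comm₀ p g).1 c
  · have m := G.mem hu (cx (pa (Lb.ref .t6)))
    have v := ((o.vec _ m).const_sub (r'.Ψ (X (cx (pa (Lb.ref .t6)), u)))).norm.pow 2
    rw [sub_self, norm_zero, zero_pow two_ne_zero] at v
    obtain ⟨j, a, b⟩ := ((v.eventually_le_const η0).and (Q.inl.loc (cx (pa (Lb.ref .t6))) _ u
      (isOpen_lt continuous_const (by fun_prop)) hu)).exists
    refine ⟨_, b, ?_⟩
    rw [r'.nq (sub_mem m (E.mem b)), map_sub, o2 _ b]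
    simpa [sub] using a

omit Q o in
theorem old_frame {G β U S₀} (R : RG.Q4.En.Rn G β U S₀ S) {kq kw Tq Tw}
    (d1 : RG.Q4.Dir RG.Q4.En.Ty.T1' ((0, 1), (2, 3)) kq Tq)
    (a1 : RG.Q4.AFd kq ((0, 1), (2, 3)) 0 G.c G.Kt G.K0 G.K)
    (d2 : RG.Q4.Dir RG.Q4.En.Ty.T2s ((0, 1), (0, 1)) kw Tw)
    (a2 : RG.Q4.AFd kw ((0, 1), (0, 1)) (18 * GD.b0 / (48 * π ^ 2)) G.c G.Kt G.K0 G.K)
    (w1 : W 1 = 1) (hD : net.Dom S W) (hV : Lg.Vac W) (hR : Lg.Rot W) : Of W := by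
  have hW := R.inp.dom hD w1
  obtain ⟨H, _, _, _, hq⟩ := hW.quantum hV
  obtain ⟨K, u, ω, Λ, δ, L, N, A, -, -, -, Q, P⟩ := Cm.res3 R
  obtain ⟨r, r1, -⟩ := Wm.rep_of hW.st hq
  obtain ⟨E, e1, e2, -⟩ := Wm.sA_of Wm.sA1_of Wm.sA2_of Wm.sA3_of Wm.sA4_of H r.T r1
    (Wm.sB0_of H W r hW.st hR r1)
  obtain ⟨W', r', o, o1, o2, o3⟩ := exists_lab2 (θ := Wv.tE Lb.rho) (ρ := Wv.rE Lb.rho)
    (Q.inl.dom hD) (Wv.inv4 Wv.rp_rho) hW.st hR hW.lin (Wv.rE_one Wv.rp_rho)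
    (fun R Q c _ _ => Wv.rE_mul Wv.rp_rho R Q c) (fun R _ => Wv.rE_c0 R) (Wv.tE_c0 0)
    (Bas.dom Q.phi hD) r e1 e2
  obtain ⟨x1, x2⟩ := R.anom d1 a1 d2 a2 A Q
  have op := fun a b u hu => (P (fun t l => gm * N l t) (.of_forall fun _ _ => rfl) a b u hu).old
    (by norm_num) Q.pa hu YF.tendsto_snd_curry (Q.inl.dom hD) (Bas.dom Q.phi hD) hW.lin hW.st hR hq
    hD o3
  have x : ∀ {i p}, Tendsto (fun t => log (N i t) / log (log t⁻¹)) (𝓝[>] 0) (𝓝 p) →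
      Tendsto (fun t => log (gm * N i t) / log (log t⁻¹)) (𝓝[>] 0) (𝓝 p) := fun {i p} e => by
    refine ((zero_add p) ▸ ((tendsto_log_atTop.comp (tendsto_log_atTop.comp
      tendsto_inv_nhdsGT_zero)).const_div_atTop (log gm)).add e).congr' ?_
    filter_upwards [Q.slow i 1 one_pos, self_mem_nhdsWithin] with t a (b : 0 < t)
    rw [log_mul gm_pos.ne' ((rpow_pos_of_pos b _).trans_le a.1).ne', add_div]
    rfl
  exact ⟨_, _, _, _, W', _, _, _, fm_of Q o hR o1 o2 (fun a b u hu => ⟨_, op a b u hu⟩)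
    fun i c e k f hf => ⟨_, old_af Q o hD hW.st e hf⟩, ⟨op, fun i c e k f hf n =>
      ⟨_, mul_ne_zero (pow_ne_zero _ (Complex.ofReal_ne_zero.2 gm_pos.ne')) n,
        old_af Q o hD hW.st e hf⟩⟩, o1, x x1, x x2⟩

end Pool.Agent.Lib.MP_7f377f_mp.Fr2
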