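import Pool.Agent.Lib.MP_7f377f_mp.G.S22Spec
import Pool.Agent.Lib.MP_7f377f_mp.G.S22M

/-! The quadratic forms in the curvature as a system of fields with real labels. -/

noncomputable section

namespace Pool.Agent.Lib.MP_7f377f_mp.Zg
variable [Pool.Agent.Lib.MP_7f377f_mp.GD]
set_option linter.unusedSectionVars false

open MeasureTheory Filter Topology Set YM7 Pur Wm Lm Wv Matrix Sw MvPolynomial
open Pool.Agent.Lib.MP_7f377f_mp.Lb (pc pa ref c0 Cl)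
open Ope (Dt)
open Asymptotics
open scoped ContDiff Kronecker

variable {d : ℕ} {𝒜 : Set (Matrix (Fin d) (Fin d) ℝ)} [o : Og 𝒜] {P : Type} [CommRing P]
  [Algebra ℂ P] {O : Matrix (Fin d) (Fin d) ℝ} {N : Net P} {x : V0 𝒜 → (R4 → ℝ) → P}
  {S W : P →ₗ[ℂ] ℂ} {A M : ℝ → V0 𝒜 ≃ₗ[ℝ] V0 𝒜} {φ : V0 𝒜} {T : Fin 4 → Fin 4 → V0 𝒜}
  {J : V0 𝒜 ≃ₗ[ℝ] V0 𝒜} {p : Fin 2 → YZ.Lab d →ₗ[ℝ] V0 𝒜} {inc : V0 𝒜 →ₗ[ℝ] YZ.Lab d}

theorem qv_t6 : qv 𝒜 (ref .t6) = (8 : ℝ) • tt 𝒜 0 1 := by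
  let z := fun i j k l : Fin 4 => ((single 0 1 1 : Matrix _ _ ℤ) ⊗ₖ 1) (i, j) (k, l)
  have : ∀ i j k l, (ref .t6 : Lb.Lab ℤ) (i, j) (k, l) = z i j k l + z k l i j - z j i k l -
    z k l j i - z i j l k - z l k i j + z j i l k + z l k j i := by decide +kernel
  rw [tt, if_neg (by decide), sub_zero, ← qv_kr, ← qv_pa (single 0 1 1 ⊗ₖ 1), ← map_smul]
  congr 1
  ext ⟨i, j⟩ ⟨k, l⟩
  simp only [pa, Matrix.smul_apply, Lb.mul_an, Lb.an_mul, Lb.sy, z, this, Matrix.add_apply,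
    transpose_apply, kroneckerMap_apply, Prod.swap, single_apply, one_apply, Lb.ref_cast (K := ℝ),
    smul_eq_mul]
  push_cast
  ring

theorem qv_c0 : qv 𝒜 (pa c0) = (2 : ℝ) • l0 𝒜 := by
  rw [qv_pa, c0, map_smul, qv_one, smul_smul]
  norm_num

theorem pc_c0 : pc .s (pa c0 : Lb.Lab ℝ) = pa c0 := by
  rw [Lb.pa_c0, Lb.pc_smul, pc, Lb.ip_an, Lb.an_an, Lb.tr_an]
  norm_num

theorem sc_qv {t : ℝ} (t0 : 0 < t) (c : Lb.Lab ℝ) : sc 𝒜 t (qv 𝒜 c) = qv 𝒜 c := by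
  simpa [qv_gr] using sc0.eq t t0 4 (qv 𝒜 c)

theorem qv_dg {F : V0 𝒜 ≃ₗ[ℝ] V0 𝒜} {m : Cl → ℝ} (h : ∀ l c, pc l c = c → F (qv 𝒜 c) = m l • qv 𝒜 c)
    (c : Lb.Lab ℝ) : F (qv 𝒜 c) = qv 𝒜 (Fr2.dg m c) := by
  rw [← qv_pa, ← Lb.sum_pc, Fr2.dg, map_sum, map_sum, map_sum]
  exact Finset.sum_congr rfl fun l _ => by rw [h l _ (by simp [Lb.pc_pc]), map_smul]

theorem Tp.jl (H : Tp O N x S W A φ T J M p inc) : J ((4 * GD.t ^ 2) • l0 𝒜) = φ := by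
  rw [map_smul, H.fx.jl, smul_inv_smul₀ (by have := GD.t_pos; positivity)]

theorem Tp.op (H : Tp O N x S W A φ T J M p inc) {m : ℝ → Cl → ℝ}
    (hm : ∀ t l c, pc l c = c → M t (qv 𝒜 c) = m t l • qv 𝒜 c) (a b : Lb.Lab ℝ)
    {u : Fin 2 → R4 → ℝ} (hu : Adm u) :
    ∃ B, Fr2.Op W (fun c => x (J (qv 𝒜 c))) (aeval (x φ)) m a b u B := by
  obtain ⟨A', e1, up, lim⟩ := H.fx.ren sc0
  obtain ⟨δ, d1, C, B, c1, c2, c3, c4⟩ := Zo.ope2 H.rg sc0 H.bl.mu up lim ![qv 𝒜 a, qv 𝒜 b] u 4 hu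
  have e2 : ∀ t > (0 : ℝ), ∀ c, A' t (qv 𝒜 c) = J (qv 𝒜 (Fr2.dg (m t) c)) := fun t t0 c => by
    rw [e1 t t0, qv_dg (hm t), sc_qv t0]
  refine ⟨cf B, δ, d1.1, fun t => cf (C t), tendsto_pi_nhds.2 fun i => tendsto_pi_nhds.2 fun j =>
    Zo.lin_tend (LinearMap.proj j ∘ₗ LinearMap.proj i ∘ₗ cf) c1 c3.1 c2, fun f Z hZ => ?_⟩
  let Y : ℝ → R4 → P := fun t z => x (J (qv 𝒜 (Fr2.dg (m t) a))) (Fr2.mv t z (u 0)) *
    x (J (qv 𝒜 (Fr2.dg (m t) b))) (Fr2.mv t z (u 1))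
  have key : ∀ Z, Dt f Z → (∀ᶠ t in 𝓝[>] (0 : ℝ),
      Integrable fun z => f z * W (Y t z * aeval (x φ) Z)) ∧
      (fun t : ℝ => (∫ z, f z * W (Y t z * aeval (x φ) Z)) -
        t ^ 4 * W (x (A' t (C t)) f * aeval (x φ) Z)) =O[𝓝[>] 0] fun t => t ^ ((4 : ℕ) + δ) :=
    fun Z hZ => by
      obtain ⟨n, w, k, g, hg, rfl⟩ := hZ.sum
      have h := fun i => c4 (k i) (fun _ => φ) f (g i) (hg i)
      have e : ∀ i, ∀ t > (0 : ℝ), Zo.pp (Zo.cor x W) u (fun j => A' t (![qv 𝒜 a, qv 𝒜 b] j)) t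
          (fun _ => φ) f (g i) = fun z => f z * W (Y t z * aeval (x φ) (mon (g i))) :=
        fun i t t0 => funext fun z => by
          simp only [Zo.pp, Zo.cor, Fin.prod_univ_add, Fin.append_left, Fin.append_right,
            Fin.prod_univ_two, cons_val_zero, cons_val_one, e2 t t0, mon, map_prod, aeval_X]
          rfl
      have i1 : ∀ᶠ t in 𝓝[>] (0 : ℝ), ∀ i, Integrable fun z =>
          w i * (f z * W (Y t z * aeval (x φ) (mon (g i)))) :=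
        ((eventually_all.2 fun i => (h i).1).and self_mem_nhdsWithin).mono fun t q i =>
          (e i t q.2 ▸ q.1 i).const_mul _
      simp only [map_sum, map_smul, Finset.mul_sum, mul_smul_comm, smul_eq_mul,
        mul_left_comm _ (w _)]
      refine ⟨i1.mono fun t q => integrable_finsetSum _ fun i _ => q i, (IsBigO.fun_sum (s := .univ)
        fun i _ => (h i).2.const_mul_left (w i)).congr' ?_ .rfl⟩
      filter_upwards [i1, self_mem_nhdsWithin] with t q t0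
      rw [integral_finsetSum _ fun i _ => q i, ← Finset.sum_sub_distrib]
      refine Finset.sum_congr rfl fun i _ => ?_
      rw [Zo.rm, e i t t0, integral_const_mul, mul_sub]
      simp [Zo.cor, Fin.prod_univ_succ, mon]
  obtain ⟨k1, k2⟩ := key Z hZ
  obtain ⟨k3, k4⟩ := key 1 hZ.one
  have f1 : C1 univ f := ⟨(Ope.adm_one.1 hZ.1).1, (Ope.adm_one.1 hZ.1).2, subset_univ _⟩
  refine ((k2.sub ((k4.const_mul_left (W (aeval (x φ) Z))))).mul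
    (isBigO_refl (fun t : ℝ => ((t : ℂ) ^ 4)⁻¹) _).norm_right).congr' ?_ ?_
  · filter_upwards [k1, k3, self_mem_nhdsWithin] with t q1 q2 (t0 : 0 < t)
    obtain ⟨s, c, hc, e⟩ := f4 (c1 t)
    obtain ⟨γ, hγ⟩ := cl3 ((fil 𝒜).mono (by norm_num) ((up t).1 0 _
      (((fil 𝒜).F 0).smul_mem s (mem_F.2 hm_u0.mem))))
    have e3 : ∀ Z ∈ N.loc (tsupport f)ᶜ, W (x (A' t (C t)) f * Z) = γ * ((∫ y, f y : ℝ) * W Z) +
        W (x (J (qv 𝒜 (Fr2.dg (m t) (cf (C t))))) f * Z) := fun Z hZ => by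
      rw [← H.ph.unit f f1 Z hZ, ← H.rg.linc γ _ _ f f1 Z hZ, e, map_add, hγ, e2 t t0]
      simp [cf_u0, cf_qv, hc]
    have t1 : (t : ℂ) ≠ 0 := Complex.ofReal_ne_zero.2 t0.ne'
    simp only [map_one, mul_one] at q2 ⊢
    simp only [Fr2.tr, mul_sub, ← mul_assoc]
    rw [integral_sub q1 (q2.mul_const _), integral_mul_const, e3 _ (H.emb.mem hZ.2),
      ← mul_one (x (A' t (C t)) f), e3 1 (N.one _), H.one, mul_one, mul_one]
    field_simp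
    ring
  · filter_upwards [self_mem_nhdsWithin] with t (t0 : 0 < t)
    rw [Real.rpow_add t0, Real.rpow_natCast, norm_inv, norm_pow, Complex.norm_real,
      Real.norm_of_nonneg t0.le]
    field_simp

theorem Tp.frame (H : Tp O N x S W A φ T J M p inc) : ∃ m : ℝ → Cl → ℝ,
    Fr2.Fm N W (fun c => x (J (qv 𝒜 c))) (aeval (x φ)) m ∧
      ∀ t l c, pc l c = c → M t (qv 𝒜 c) = m t l • qv 𝒜 c := by
  choose m hm using fun t => schur4 (M := (M t).toLinearMap) (H.fx.slow.gr t 4) (H.fx.slow.comm t)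
  replace hm : ∀ t l c, pc l c = c → M t (qv 𝒜 c) = m t l • qv 𝒜 c := hm
  have t0 := GD.t_pos
  have b0 := GD.b0_pos
  refine ⟨m, ⟨H.emb, H.rg.st, fun c => H.rg.mem _, fun v c => H.rg.gen.tau v _, fun μ c f => ?_,
    fun t a b => ?_, fun R hR c f Z hZ => ?_, Lg.PI.rot_iff.1 H.rot, ⟨2 * (4 * GD.t ^ 2)⁻¹,
      by positivity, fun f hf Z hZ => ?_⟩, ⟨4 * GD.t ^ 2 * (11 * GD.b0 / (48 * Real.pi ^ 2)),
      by positivity, mem_of_superset (Ioo_mem_nhdsGT one_pos)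
      fun t ht => smul_left_injective ℝ (smul_ne_zero (two_ne_zero' ℝ) (l0_ne (𝒜 := 𝒜))) ?_⟩,
    fun l ε ε0 => ?_, fun a b u => H.op hm a b, fun l c hc k f hf => ?_, fun g g1 g2 η η0 => ?_⟩, hm⟩
  · rw [H.rg.gen.refl, ← H.fx.refl, qv_r0]
  · simpa only [map_add, map_smul] using H.rg.linc t (J (qv 𝒜 a)) (J (qv 𝒜 b))
  · obtain ⟨n, w, k, g, hg, rfl⟩ := hZ.sum
    simp only [map_sum, map_smul, Finset.mul_sum, mul_smul_comm, Ro.act_mon]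
    refine Finset.sum_congr rfl fun i _ => congrArg _ ?_
    have := H.fx.cov R hR _ (Fin.cons (qv 𝒜 c) fun _ => (4 * GD.t ^ 2) • l0 𝒜) _
      (Ro.adm_act (hg i) R)
    simp only [Fin.prod_univ_succ, Fin.cons_zero, Fin.cons_succ, qv_r0, map_smul (r0 𝒜 R), r0_l0,
      H.jl, LinearIsometryEquiv.symm_apply_apply] at this
    simpa [mon] using this.symm
  · rw [qv_c0, map_smul, H.fx.jl, smul_smul, aeval_X]
    exact (H.rg.lab (Sw.c1s hf) hZ).map_smul _ φ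
  · have := hm t .s _ pc_c0
    rw [qv_c0, map_smul, H.fx.ml t ht, smul_comm] at this
    exact this.symm
  · obtain ⟨τ, rfl⟩ : ∃ τ : Lb.Tp, τ.cl = l := by
      cases l
      exacts [⟨.s, rfl⟩, ⟨.q, rfl⟩, ⟨.t3, rfl⟩, ⟨.w2, rfl⟩]
    have n : 0 < ‖qv 𝒜 (ref τ)‖ := norm_pos_iff.2 (qv_ne (Lb.pa_ref τ) fun e =>
      Lb.ref_ne (K := ℝ) τ (by rw [e]; rfl))
    have e := fun t => hm t τ.cl (ref τ) (by simp [Lb.pc_ref])
    have m0 : ∀ t, m t τ.cl ≠ 0 := fun t q => n.ne' (norm_eq_zero.2 ((M t).injective (by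
      simp [e, q])))
    obtain ⟨s1, s2⟩ := H.fx.slow.slow ε ε0 (qv 𝒜 (ref τ))
    filter_upwards [s1.norm.eventually_le_const (norm_zero.trans_lt n),
      s2.norm.eventually_le_const (norm_zero.trans_lt n), self_mem_nhdsWithin] with t q1 q2 (t1 : 0 < t)
    have p := Real.rpow_pos_of_pos t1 ε
    rw [show (M t).symm (qv 𝒜 (ref τ)) = (m t τ.cl)⁻¹ • qv 𝒜 (ref τ) by
      rw [LinearEquiv.symm_apply_eq, map_smul, e, inv_smul_smul₀ (m0 t)]] at q2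
    rw [e] at q1
    simp only [smul_smul, norm_smul, norm_mul, norm_inv, Real.norm_eq_abs, abs_of_pos p,
      mul_le_iff_le_one_left n] at q1 q2
    rw [Real.rpow_neg t1.le, ← one_div, le_div_iff₀' p]
    exact ⟨by rwa [mul_inv_le_iff₀ (abs_pos.2 (m0 t)), one_mul] at q2, q1⟩
  · obtain ⟨A', e1, up, lim⟩ := H.fx.ren sc0
    have af := Zo.af' H.rg (fun t => (up t).1) lim
    set β := 4 * GD.t ^ 2 * (11 * GD.b0 / (48 * Real.pi ^ 2)) * (4 * GD.t ^ 2)⁻¹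
    have a1 : Adm ![f 0] := Ope.adm_one.2 (hf.1 0)
    have a2 : Adm fun i : Fin k => f i.succ :=
      ⟨fun i => hf.1 _, fun _ _ e => hf.2 ((Fin.succ_injective _).ne e)⟩
    refine ⟨_, (((af _ (Fin.cons (qv 𝒜 c) fun _ => l0 𝒜) f hf).sub ((af _ ![qv 𝒜 c] _ a1).mul
      (af _ (fun _ => l0 𝒜) _ a2))).div_const (β ^ k)).congr' ?_⟩
    filter_upwards [Ioo_mem_nhdsGT one_pos] with t ht
    have e2 : A' t (qv 𝒜 c) = m t l • J (qv 𝒜 c) := by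
      rw [e1 t ht.1, hm t l c hc, map_smul, sc_qv ht.1, map_smul]
    have e3 : A' t (l0 𝒜) = (β * Real.log t⁻¹) • φ := by
      rw [e1 t ht.1, H.fx.ml t ht, map_smul, sc_hm hm_l0, inv_mul_cancel₀ (pow_ne_zero _ ht.1.ne'),
        one_smul, map_smul, H.fx.jl, smul_smul, mul_right_comm]
    have n := inv_ne_zero ht.1.ne'
    obtain ⟨L, h1⟩ := Zo.ml_cor H.rg (hf.smul n)
    obtain ⟨L1, h2⟩ := Zo.ml_cor H.rg (a1.smul n)
    obtain ⟨L2, h3⟩ := Zo.ml_cor H.rg (a2.smul n)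
    have q1 := L.map_smul_univ (Fin.cons (m t l) fun _ => β * Real.log t⁻¹)
      (Fin.cons (J (qv 𝒜 c)) fun _ => φ)
    have q2 := L1.map_smul_univ ![m t l] ![J (qv 𝒜 c)]
    have q3 := L2.map_smul_univ (fun _ => β * Real.log t⁻¹) fun _ => φ
    have : (β : ℂ) ≠ 0 := Complex.ofReal_ne_zero.2 (by positivity)
    simp only [h1, h2, h3, Zo.cor, Fin.prod_univ_succ, Fin.cons_zero, Fin.cons_succ, cons_val_zero,
      Finset.prod_const, Finset.card_fin, Fin.prod_univ_zero, mul_one, Complex.real_smul, e2, e3,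
      Fr2.tr, mon, map_prod, aeval_X] at q1 q2 q3 ⊢
    rw [q1, q2, q3]
    unfold Ope.sc
    rw [div_eq_iff (pow_ne_zero _ this)]
    push_cast
    ring
  · obtain ⟨s, s', γ, e⟩ := H.fx.jt
    have e := e 0 1
    rw [if_neg (by decide), add_zero, map_smul] at e
    have s0 : s ≠ 0 := fun q => H.ne (by simp [e, q])
    simpa [qv_t6, e, smul_smul, s0] using H.den (8 / s) g ⟨g1, g2.1, g2.2.2⟩ η η0

end Pool.Agent.Lib.MP_7f377f_mp.Zg
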