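import Pool.Agent.Lib.MP_7f377f_mp.G.S22Spec

/-! Symmetries, projections and test functions. -/

noncomputable section

namespace Pool.Agent.Lib.MP_7f377f_mp.Fr2
variable [Pool.Agent.Lib.MP_7f377f_mp.GD]
set_option linter.unusedSectionVars false

open MeasureTheory Filter Topology Set Real YM7 Pur Wm Asymptotics MvPolynomial ComplexConjugate
open Ope (Dt sc)
open Ro (Iso act)
open Lb (Lab Cl Tp pc pa rho rhoL mx ref c0 ip)
open Lg.PI (dt)
open scoped ContDiff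

variable {P P' : Type} [CommRing P] [Algebra ℂ P] [CommRing P'] [Algebra ℂ P'] {N : Net P}
  {W : P →ₗ[ℂ] ℂ} {y : Lab ℝ → (R4 → ℝ) → P} {ι : Pol →ₐ[ℂ] P} {m n : ℝ → Cl → ℝ} {N' : Net P'}
  {W' : P' →ₗ[ℂ] ℂ} {y' : Lab ℝ → (R4 → ℝ) → P'} {ι' : Pol →ₐ[ℂ] P'} {τ : Tp}
  {u : Fin 2 → R4 → ℝ} {κ κ' : ℝ} {l : Cl} {a b c : Lab ℝ}

section
open Matrix RG.Q4.En RG.Q4.En.Ty
open Lb (M4 hb)

variable {E : (R4 → ℝ) → Pol → Prop} {f : R4 → ℝ} {Z : Pol} {R : Iso}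

theorem Fm.tr_lin (A : Fm N W y ι m) (h : Dt f Z) (s t : ℝ) (a b : Lab ℝ) :
    tr W ι (y (s • a + t • b) f) Z = s * tr W ι (y a f) Z + t * tr W ι (y b f) Z := by
  have e : ∀ t : ℝ, ∀ a b, tr W ι (y (t • a + b) f) Z = t * tr W ι (y a f) Z + tr W ι (y b f) Z :=
    fun t a b => by
      have c : C1 univ f := ⟨(h.1.1 0).1, (h.1.1 0).2, subset_univ _⟩
      have e := A.lin t a b f c 1 (N.one _)
      simp only [mul_one] at e
      rw [tr, tr, tr, A.lin t a b f c _ (A.emb.mem h.2), e]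
      ring
  have z := e (-1) 0 0
  have := e t b 0
  rw [smul_zero, add_zero] at z
  rw [add_zero, z] at this
  rw [e, this]
  push_cast
  ring

theorem Fm.tr_rot (A : Fm N W y ι m) (h : Dt f Z) (hR : dt R = 1) (c : Lab ℝ) :
    tr W ι (y (rho (mx R) c) f) Z = tr W ι (y c fun x => f (R x)) (act R.symm Z) := by
  have k : Dt (fun x => f (R x)) _ := h.act R.symm
  have e := A.rot R hR c _ 1 k.one
  have e' := A.rot R hR c _ _ k
  have e0 := A.rot0 R hR _ k.adm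
  rw [Ro.act_act, ← R.inv_def, mul_inv_cancel, Ro.act_one] at e' e0
  simp only [map_one, mul_one, R.inv_def, R.apply_symm_apply] at e e' e0
  rw [tr, tr, e', e, e0]

theorem Fm.tr_refl (A : Fm N W y ι m) (h : Dt f Z) (μ : Fin 4) (c : Lab ℝ) :
    tr W ι (y (rho (mx (rfL μ)) c) f) Z =
      conj (tr W ι (y c fun x => f (rf μ x)) (net.Θ μ Z)) := by
  have a := A.mem (f := f) (rho (mx (rfL μ)) c) ⟨(h.1.1 0).1, (h.1.1 0).2, subset_rfl⟩
  have b := A.emb.mem h.2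
  have e := A.refl μ (rho (mx (rfL μ)) c) f
  rw [← Lb.rho_mul, ← Cm.mx_mul, Lg.PI.rfL_mul, Cm.mx_one, Lb.rho_one] at e
  rw [tr, tr, ← e, A.emb.Θ, ← map_mul (N.Θ μ), A.st.herm μ (Net.adm (N.mul a b disjoint_compl_right)),
    A.st.herm μ (Net.adm a), A.st.herm μ (Net.adm b), ← map_mul conj, ← map_sub conj,
    Complex.conj_conj]

theorem dt_det (R : Iso) : dt R = (mx R).det := by
  rw [dt, ← LinearMap.det_toMatrix (PiLp.basisFun 2 ℝ (Fin 4))]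
  congr 1

theorem prj_of {T : Ty} (hD : Det T [τ.e]) (hT : T ⊆ τ.T) (Q : Submonoid Iso)
    (hQ : ∀ g ∈ T, Cm.gi g.1 ∈ Q) (U : Submodule ℝ (Lab ℝ →ₗ[ℝ] Lab ℝ))
    (h : ∀ R ∈ Q, rhoL (mx R) ∈ U) : ∃ T ∈ U, Prj τ T := by
  let H : Submonoid (Iso × ℤˣ) :=
    { carrier := {p | p.1 ∈ Q ∧ (∀ i j, mx p.1 i j ∈ (Int.castRingHom ℝ).range) ∧
        rho (mx p.1) (ref τ) = ((p.2 : ℤ) : ℝ) • ref τ}
      one_mem' := ⟨Q.one_mem, fun i j => by
        rw [Prod.fst_one, Cm.mx_one, one_apply]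
        split_ifs
        exacts [one_mem _, zero_mem _], by simp [Cm.mx_one, Lb.rho_one]⟩
      mul_mem' := fun {p q} a b => ⟨Q.mul_mem a.1 b.1, fun i j => by
        rw [Prod.fst_mul, Cm.mx_mul, mul_apply]
        exact sum_mem fun k _ => mul_mem (a.2.1 i k) (b.2.1 k j), by
        simp [Cm.mx_mul, Lb.rho_mul, a.2.2, b.2.2, Lb.rho_smul, smul_smul, mul_comm]⟩ }
  have : Finite H := Set.Finite.of_finite_image (f := fun p : Iso × ℤˣ => (mx p.1, p.2))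
    (((Finite.pi' fun i => Finite.pi' fun j => (finite_Icc (-1 : ℤ) 1).image
      (Int.cast (R := ℝ))).prod finite_univ).subset (by
        rintro _ ⟨p, a, rfl⟩
        refine ⟨fun i j => ?_, trivial⟩
        obtain ⟨z, e⟩ := a.2.1 i j
        have := PiLp.norm_apply_le (p.1 (EuclideanSpace.single j 1)) i
        rw [p.1.norm_map, EuclideanSpace.norm_single, norm_one] at this
        exact ⟨z, abs_le.1 (by exact_mod_cast show |(z : ℝ)| ≤ 1 from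
          (congrArg abs e).trans_le this), e⟩))
    fun p _ q _ e => Prod.ext (LinearIsometryEquiv.ext fun x => PiLp.ext fun i => by
      rw [Lb.mx_mulVec, Lb.mx_mulVec, (Prod.mk.inj e).1]) (Prod.mk.inj e).2
  have := Fintype.ofFinite H
  have s : ∀ p : ℤˣ, ((p : ℤ) : ℝ) * (p : ℤ) = 1 := fun p => by exact_mod_cast Int.units_coe_mul_self p
  have r0 := Lb.ip_self_pos (a := ref τ) fun e => Lb.ref_ne τ (congrFun₂ e _ _)
  refine ⟨∑ p : H, ((p.1.2 : ℤ) : ℝ) • rhoL (mx p.1.1), sum_mem fun p _ => U.smul_mem _ (h _ p.2.1),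
    Fintype.card H / ip (ref τ) (ref τ), by positivity, fun c hc => ?_⟩
  rw [LinearMap.sum_apply]
  change ∑ p : H, ((p.1.2 : ℤ) : ℝ) • rho (mx p.1.1) c = _
  obtain ⟨d, hd⟩ : ∃ d, d = ∑ p : H, ((p.1.2 : ℤ) : ℝ) • rho (mx p.1.1) c := ⟨_, rfl⟩
  have k : ∀ q : H, rho (mx q.1.1) d = ((q.1.2 : ℤ) : ℝ) • d := fun q => by
    conv_rhs => rw [hd, ← (mul_right_injective q).bijective_of_finite.sum_comp]
    rw [hd, show rho _ _ = _ from map_sum (rhoL _) _ _, Finset.smul_sum]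
    refine Finset.sum_congr rfl fun p _ => ?_
    simp [Cm.mx_mul, Lb.rho_mul, smul_smul, ← mul_assoc, s]
    rfl
  have e : d = (d τ.e.1 τ.e.2 / ref τ τ.e.1 τ.e.2) • ref τ := sub_eq_zero.1 (Lb.det_zero hD (by
    rw [Lb.pa_sub, Lb.pa_smul, Lb.pa_ref, hd, show pa _ = _ from map_sum Lb.paL _ _]
    simp only [show ∀ c, Lb.paL c = pa c from fun _ => rfl, Lb.pa_smul, Lb.pa_rho (Lb.mx_orth _), hc])
    (fun g hg => by
      have := k ⟨(Cm.gi g.1, if g.2 then -1 else 1), hQ g hg, fun i j => by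
        rw [Cm.mx_gi]
        cases g.1 <;> simp only [Lb.gm, of_apply, diagonal_apply] <;> split_ifs <;>
          simp only [one_mem, zero_mem, neg_mem], by
        rw [Cm.mx_gi, Lb.ref_sym τ g (hT hg), sb]
        split_ifs <;> rfl⟩
      simp only [Cm.mx_gi] at this
      rw [Lb.rho_sub, Lb.rho_smul, this, Lb.ref_sym τ g (hT hg), smul_sub, smul_comm, sb]
      split_ifs <;> rfl) (by simp [div_mul_cancel₀ _ (Lb.ref_ne (K := ℝ) τ)]))
  have i : ip (ref τ) d = Fintype.card H * ip (ref τ) c := by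
    rw [hd, show ip _ _ = _ from map_sum (Lb.ipL _) _ _, ← nsmul_eq_mul, ← Finset.card_univ,
      ← Finset.sum_const]
    refine Finset.sum_congr rfl fun p _ => ?_
    rw [← Lb.ip_rho (Lb.mx_orth p.1.1), p.2.2.2, Lb.smul_ip]
    exact Lb.ip_smul _
  rw [← hd, div_mul_eq_mul_div, ← i, e, Lb.ip_smul, mul_div_cancel_right₀ _ r0.ne']

theorem cls_of (A : Fm N W y ι m) (B : Fm N' W' y' ι' n) (hE : ∀ f Z, E f Z → Dt f Z)
    (h1 : ∀ f Z, E f Z → E (fun x => f (rf 1 x)) (net.Θ 1 Z)) {T : Ty} (hD : Det T [τ.e])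
    (hT : T ⊆ τ.T) (Q : Submonoid Iso) (hQ : ∀ g ∈ T, Cm.gi g.1 ∈ Q) (q1 : rfL 1 ∈ Q)
    (h : ∀ R ∈ Q, ∀ f Z, E f Z → E (fun x => f (R x)) (act R.symm Z)) :
    ∃ T, Cls W y ι W' y' ι' E T ∧ Prj τ T := by
  have a : ∀ R ∈ Q, dt R = 1 → Cls W y ι W' y' ι' E (rhoL (mx R)) := fun R q d δ a b r f Z e =>
    (r _ _ (h R q f Z e)).congr_left fun t =>
      congrArg₂ _ (B.tr_rot (hE f Z e) d _).symm (A.tr_rot (hE f Z e) d _).symm
  refine prj_of hD hT Q hQ (.ofLinearComb {T | Cls W y ι W' y' ι' E T} ⟨.id, fun _ _ _ => id⟩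
    fun T p T' p' s t δ a b r f Z e => (((p δ a b r f Z e).const_mul_left (s : ℂ)).add
      ((p' δ a b r f Z e).const_mul_left (t : ℂ))).congr_left fun _ => ?_) fun R q => ?_
  · simp only [LinearMap.add_apply, LinearMap.smul_apply, A.tr_lin (hE f Z e), B.tr_lin (hE f Z e)]
    ring
  have d := congrArg det (Lb.mx_orth R)
  rw [det_mul, det_transpose, det_one, ← dt_det] at d
  rcases mul_self_eq_one_iff.1 d with d | d
  · exact a R q d
  intro δ c b r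
  have := a _ (Q.mul_mem q q1) (by
    rw [Lg.PI.dt_mul, d, ← Lg.PI.rn_ax 1 one_ne_zero, Lg.PI.dt_rn (by simp [ax])]
    norm_num) δ (fun t => rho (mx (rfL 1)) (c t)) (fun t => rho (mx (rfL 1)) (b t)) fun f Z e =>
      .of_norm_left ((r _ _ (h1 f Z e)).norm_left.congr_left fun t => by
        rw [A.tr_refl (hE f Z e), B.tr_refl (hE f Z e), ← map_sub, RCLike.norm_conj])
  have e : ∀ c, rhoL (mx (R * rfL 1)) (rho (mx (rfL 1)) c) = rhoL (mx R) c := fun c =>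
    (Lb.rho_mul ..).symm.trans (by rw [← Cm.mx_mul, mul_assoc, Lg.PI.rfL_mul, mul_one]; rfl)
  simpa only [e] using this

theorem dt_refl (h : Dt f Z) (μ : Fin 4) : Dt (fun x => f (rf μ x)) (net.Θ μ Z) :=
  ⟨rfL_eq μ ▸ (h.act (rfL μ).symm).1, net.mono (net.Θ_mem μ h.2) fun y hy hy' =>
    hy (tsupport_comp (θ := rf μ) (rfL_eq μ ▸ (rfL μ).continuous) hy')⟩

theorem cls_t (A : Fm N W y ι m) (B : Fm N' W' y' ι' n) (h : τ = .t3 ∨ τ = .t6 ∨ τ = .w2) :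
    ∃ T, Cls W y ι W' y' ι' Dt T ∧ Prj τ T :=
  cls_of A B (fun _ _ => id) (fun _ _ e => dt_refl e 1) τ.det (List.Subset.refl _) ⊤
    (fun _ _ => trivial) trivial fun R _ _ _ e => e.act R.symm

theorem cls_q (A : Fm N W y ι m) (B : Fm N' W' y' ι' n) :
    ∃ T, Cls W y ι W' y' ι' Er T ∧ Prj .q T :=
  cls_of A B (fun _ _ e => e.1) (fun _ _ ⟨e, s, a, b⟩ => ⟨dt_refl e 1, s,
    net.mono (net.Θ_mem 1 a) fun y hy => (rf_ne zero_ne_one y).symm.trans_lt hy, fun y hy =>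
      (b (tsupport_comp (θ := rf 1) (rfL_eq 1 ▸ (rfL 1).continuous) hy)).trans_eq
        (rf_ne zero_ne_one y)⟩)
    (T := [(.inr 1, true), (.inr 2, true), (.inr 3, true), sw 1 2 true, sw 2 3 true])
    (by decide +kernel) (by decide +kernel)
    { carrier := {R | ∀ x, R x 0 = x 0}
      one_mem' := fun _ => rfl
      mul_mem' := fun a b x => (a _).trans (b x) }
    (by simp [Cm.gi, sw, rfL_eq, rf_ne, Ro.prm_apply, Equiv.swap_apply_def])
    (fun x => by rw [rfL_eq, rf_ne zero_ne_one]) fun R q _ _ ⟨e, s, a, b⟩ => ⟨e.act R.symm, s,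
      net.mono (Ro.act_mem _ a) fun y hy => (q y).symm.trans_lt hy, fun y hy =>
        (b (tsupport_comp R.continuous hy)).trans_eq (q y)⟩

theorem hb_sep {k : ℕ} {p : Fin k → R4} {i : Fin k} {s : ℝ} :
    (p i 0 < s → ∀ᶠ δ in 𝓝[>] (0 : ℝ), tsupport (fun x => hb δ (x - p i)) ⊆ {x | x 0 < s}) ∧
    (s < p i 0 → ∀ᶠ δ in 𝓝[>] (0 : ℝ), tsupport (fun x => hb δ (x - p i)) ⊆ Hs 0 s) := by
  have e : ∀ O : Set R4, IsOpen O → p i ∈ O →
      ∀ᶠ δ in 𝓝[>] (0 : ℝ), tsupport (fun x => hb δ (x - p i)) ⊆ O := fun O o h => by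
    obtain ⟨r, r0, e⟩ := Metric.nhds_basis_closedBall.mem_iff.1 (o.mem_nhds h)
    filter_upwards [Ioo_mem_nhdsGT r0] with δ a using ((Lb.hb_sup a.1 _).trans
      (Metric.closedBall_subset_closedBall (by linarith [a.1, a.2]))).trans e
  exact ⟨e {x | x 0 < s} (isOpen_lt (by fun_prop) continuous_const), e _ (Lm.isOpen_Hs 0 s)⟩

/-- minors of an integer matrix -/
def pz : Lab ℤ := .of fun x y =>
  let m : M4 ℤ := !![4, -2, -1, -2; -2, 1, -2, -4; -1, -2, 4, -2; -2, -4, -2, 1]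
  m x.1 y.1 * m x.2 y.2 - m x.1 y.2 * m x.2 y.1

theorem bp_of {σ σ' : Tp} (h : ∑ x, ∑ y, (if (ref τ : Lab ℤ) x y = 0 then 0 else
    ref τ x y * (ref σ * pz * ref σ' : Lab ℤ) x y) ≠ 0) {s t : ℝ} (s0 : s ≠ 0) (t0 : t ≠ 0) :
    ∃ u r, Bp u ∧ tsupport (u 0) ⊆ {x | x 0 < r} ∧ tsupport (u 1) ⊆ Hs 0 r ∧
      ip (ref τ) (Cm.BB (s • ref σ) (t • ref σ') u) ≠ 0 := by
  obtain ⟨v, hv⟩ : ∃ v : R4, v = WithLp.toLp 2 ![1, 2, 1, 2] := ⟨_, rfl⟩
  have n : ‖v‖ ^ 2 = 10 := by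
    simp only [hv, EuclideanSpace.real_norm_sq_eq, Fin.sum_univ_four]
    simp
    norm_num
  have p : Lb.pr v = (2500⁻¹ : ℝ) • pz.map (Int.castRingHom ℝ) := by
    have e : ∀ i j, YG.mirror v i j = 5⁻¹ * ((!![4, -2, -1, -2; -2, 1, -2, -4; -1, -2, 4, -2;
        -2, -4, -2, 1] : M4 ℤ) i j : ℝ) := fun i j => by
      rw [YG.mirror, n, hv]
      fin_cases i <;> fin_cases j <;> simp <;> norm_num
    ext x y
    simp only [Lb.pr, e, of_apply, show ‖v‖ ^ 4 = 10 ^ 2 by rw [← n]; ring, pz, Matrix.smul_apply,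
      map_apply, eq_intCast, Int.cast_sub, Int.cast_mul, smul_eq_mul]
    ring
  have k : ip (ref τ) (Cm.BL (ref σ) (ref σ') v) ≠ 0 := fun k => h (by
    rw [Cm.BL, Lb.sy_of (Lb.ref_tr _), Lb.sy_of (Lb.ref_tr _), Lb.ip_add,
      ← Lb.ip_tr _ (ref σ' * _ * _)] at k
    simp only [transpose_mul, Lb.ref_tr, Lb.pr_tr, ← Matrix.mul_assoc, add_self_eq_zero] at k
    rw [p, Matrix.mul_smul, Matrix.smul_mul, Lb.ip_smul, ← Lb.ref_map (Int.castRingHom ℝ),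
      ← Lb.ref_map (Int.castRingHom ℝ) σ, ← Lb.ref_map (Int.castRingHom ℝ) σ', ← Matrix.map_mul,
      ← Matrix.map_mul] at k
    refine .trans (Finset.sum_congr rfl fun x _ => Finset.sum_congr rfl fun y _ => ?_)
      (show ip (ref τ) (ref σ * pz * ref σ') = 0 from Int.cast_injective (α := ℝ)
        (by simpa only [ip, map_apply, eq_intCast, Int.cast_sum, Int.cast_mul, Int.cast_zero] using
          (mul_eq_zero.1 k).resolve_left (by norm_num)))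
    split_ifs with z
    exacts [by rw [z, zero_mul], rfl])
  obtain ⟨δ, ⟨⟨e, a⟩, b⟩, δ0⟩ := ((((Lb.hb_pos (p := ![0, v]) (by
    simpa using fun e : 0 = v => by simp [← e] at n)
    (F := fun y => ip (ref τ) (Cm.BL (ref σ) (ref σ') (y 1 - y 0)) *
      ip (ref τ) (Cm.BL (ref σ) (ref σ') v)) (fun y e => ContinuousAt.mul_const
      (tendsto_finset_sum _ fun α _ => tendsto_finset_sum _ fun β _ =>
        (Cm.BL_cont α β y e).const_mul _) _) (by simpa using k)).and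
      ((hb_sep (p := ![0, v]) (i := 0) (s := 2⁻¹)).1 (by simp))).and
      ((hb_sep (p := ![0, v]) (i := 1) (s := 2⁻¹)).2 (by norm_num [hv]))).and self_mem_nhdsWithin).exists
  have hu := Lb.hb_adm δ0 fun i j k => (e.1 i j k).le
  refine ⟨_, _, ⟨hu, fun i => ⟨(Real.smoothTransition.contDiff.comp (contDiff_const.sub
    (contDiff_norm_sq ℝ))).comp (contDiff_id.sub contDiff_const), ![0, v] i, fun R x => by
      simp [hb]⟩⟩, a, b, fun k => e.2.ne' ?_⟩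
  rw [show Cm.BB _ _ _ = Cm.BBl hu (s • ref σ) (t • ref σ') from rfl, map_smul, map_smul,
    LinearMap.smul_apply, Lb.ip_smul, Lb.ip_smul, mul_eq_zero, mul_eq_zero, or_iff_right t0,
    or_iff_right s0] at k
  simp only [← mul_assoc, integral_mul_const]
  exact mul_eq_zero_of_left ((Cm.BB_map hu (Lb.ipL _)).symm.trans k) _

theorem pa_c8 : pa (c0 : Lab ℝ) = (8⁻¹ : ℝ) • ref .s := by
  rw [Lb.pa_c0, Lb.ref_s, smul_smul]
  norm_num

theorem bp_t (h : τ = .t3 ∨ τ = .t6) : ∃ u, Bp u ∧ ip (ref τ) (Cm.BB (pa c0) (pa c0) u) ≠ 0 :=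
  pa_c8 ▸ (bp_of (by rcases h with rfl | rfl <;> decide +kernel) (by norm_num) (by norm_num)).imp
    fun _ ⟨_, e⟩ => ⟨e.1, e.2.2.2⟩

theorem bp_w : ∃ u, Bp u ∧ ip (ref .w2) (Cm.BB (pa c0) (ref .t3) u) ≠ 0 :=
  pa_c8 ▸ (bp_of (τ := .w2) (σ := .s) (σ' := .t3) (s := 8⁻¹) (by decide +kernel) (by norm_num)
    one_ne_zero).imp
    fun _ ⟨_, e⟩ => ⟨e.1, by simpa only [one_smul] using e.2.2.2⟩

theorem bp_q : ∃ u s, Bp u ∧ tsupport (u 0) ⊆ {x | x 0 < s} ∧ tsupport (u 1) ⊆ Hs 0 s ∧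
    ip (ref .q) (Cm.BB (ref .w2) (ref .t6) u) ≠ 0 := by
  simpa only [one_smul] using bp_of (τ := .q) (σ := .w2) (σ' := .t6) (by decide +kernel)
    one_ne_zero one_ne_zero

theorem far_er (hc : pc l c = c) (c0' : c ≠ 0) : ∃ (f : Fin (l.m + 1) → R4 → ℝ) (s : ℝ), Adm f ∧
    tsupport (f 0) ⊆ Hs 0 s ∧ (∀ i : Fin l.m, tsupport (f i.succ) ⊆ {x | x 0 < s}) ∧
      Cm.frI (Fin.cons (Cm.cx c) fun _ => c0) f ≠ 0 := by
  obtain ⟨y, i, o, h⟩ := Lb.frL_ne Cm.dim_ne hc c0'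
  obtain ⟨s, s1, s2⟩ := (((eventually_all.2 fun j => Ioi_mem_nhds (o j)).filter_mono
    nhdsWithin_le_nhds).and (self_mem_nhdsWithin (s := Iio (y 0 0)))).exists
  obtain ⟨δ, ⟨⟨e, a⟩, b⟩, δ0⟩ := ((((Lb.hb_pos i (fun y e => (Lb.frL_cont' _ y e).mul_const _)
    (mul_self_pos.2 h)).and (hb_sep.2 s2)).and (eventually_all.2 fun j => hb_sep.1 (s1 j))).and
      self_mem_nhdsWithin).exists
  refine ⟨_, s, Lb.hb_adm δ0 fun i j k => (e.1 i j k).le, a, b, fun k => e.2.ne' ?_⟩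
  rw [show (Fin.cons (Cm.cx c) fun _ => c0) = fun i => Cm.cx ((Fin.cons c fun _ => c0 : Fin _ → _) i)
    from funext fun i => Fin.cases rfl (fun _ => Cm.cx_c0.symm) i, Cm.frI_cx,
    Complex.ofReal_eq_zero] at k
  simp only [← mul_assoc, integral_mul_const, k, zero_mul]

end

end Pool.Agent.Lib.MP_7f377f_mp.Fr2
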