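import Pool.Agent.Lib.MP_7f377f_mp.G.S22Spec

/-! Products of proportional fields are proportional. -/

noncomputable section

namespace Pool.Agent.Lib.MP_7f377f_mp.Fr2
variable [Pool.Agent.Lib.MP_7f377f_mp.GD]
set_option linter.unusedSectionVars false

open MeasureTheory Filter Topology Set Real YM7 Pur Wm Asymptotics MvPolynomial ComplexConjugate
open Ope (Dt sc)
open Ro (Iso act)
open Lb (Lab Cl Tp pc pa rho rhoL mx ref c0 ip)
open Lg.PI (dt)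
open scoped ContDiff

variable {P P' : Type} [CommRing P] [Algebra ℂ P] [CommRing P'] [Algebra ℂ P'] {N : Net P}
  {W : P →ₗ[ℂ] ℂ} {y : Lab ℝ → (R4 → ℝ) → P} {ι : Pol →ₐ[ℂ] P} {m n : ℝ → Cl → ℝ} {N' : Net P'}
  {W' : P' →ₗ[ℂ] ℂ} {y' : Lab ℝ → (R4 → ℝ) → P'} {ι' : Pol →ₐ[ℂ] P'} {τ : Tp}
  {u : Fin 2 → R4 → ℝ} {κ κ' : ℝ} {l : Cl} {a b c : Lab ℝ}

theorem dt_mx (R : Iso) : dt R = (mx R).det := by
  rw [dt, ← LinearMap.det_toMatrix (EuclideanSpace.basisFun (Fin 4) ℝ).toBasis]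
  rfl

theorem Fm.one0 (A : Fm N W y ι m) (h : τ = .t3 ∨ τ = .t6 ∨ τ = .w2) {f : R4 → ℝ} (hf : C1 univ f)
    {p : R4} (r : ∀ (R : Iso) x, f (p + R x) = f (p + x)) : W (y (ref τ) f) = 0 := by
  have o := Lb.r01_so (K := ℝ) (a := 0) (b := 1) (by norm_num)
  obtain ⟨R, hR⟩ := Lb.exists_mx o.1
  have b : Dt (fun x => f (x - -p)) 1 := ⟨Ope.adm_one.2 ((adm_sub (Ope.adm_one.2 ⟨hf.1, hf.2.1⟩) _).1 0),
    net.one _⟩
  have c := A.rot R (by rw [dt_mx, hR, o.2]) (ref τ) _ _ b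
  have d : rho (mx R) (ref τ) = (-1 : ℝ) • ref τ := by
    obtain ⟨h1, h2, h3, -⟩ := Lb.rot01 (K := ℝ) 0 1
    rcases h with rfl | rfl | rfl <;> simp [hR, h1, h2, h3]
  have g : (fun x => f (R.symm x - -p)) = fun x => f (x - -p) := funext fun x => by
    simp only [sub_neg_eq_add, add_comm _ p, r]
  rw [d, g, map_one, map_one, A.smul (f := fun x => f (x - -p)) _ _ ⟨(b.1.1 0).1, (b.1.1 0).2, subset_univ _⟩ (N.one _), mul_one,
    ← A.tau, A.st.ti _ (A.mem _ hf)] at c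
  push_cast at c
  linear_combination -2⁻¹ * c

theorem X_loc {f : R4 → ℝ} (h : HasCompactSupport f ∧ ContDiff ℝ 1 f) : X f ∈ net.loc (tsupport f) := by
  simpa [mon] using mon_mem (Ope.adm_one.2 h) (O := tsupport f) (Fin.forall_fin_one.2 subset_rfl)

/-- the scalar field is a spectator -/
theorem Fm.spec (A : Fm N W y ι m) : ∃ k : ℝ, k ≠ 0 ∧ (∀ f Z, Dt f Z →
    W (y (pa c0) f * ι Z) = k * W (ι (X f * Z))) ∧ ∀ b (u : Fin 2 → R4 → ℝ), Adm u →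
    ∀ Z ∈ net.loc (tsupport (u 0) ∪ tsupport (u 1))ᶜ, Dt (u 1) (X (u 0) * Z) ∧
      W (y (pa c0) (u 0) * y b (u 1) * ι Z) = k * W (y b (u 1) * ι (X (u 0) * Z)) := by
  obtain ⟨k, k0, h⟩ := A.phi
  refine ⟨k, k0, fun f Z d => ?_, fun b u hu Z hZ => ?_⟩
  · rw [h f ⟨(d.1.1 0).1, (d.1.1 0).2, subset_univ _⟩ _ (A.emb.mem d.2), map_mul ι]
  have d := hu.2 (show (0 : Fin 2) ≠ 1 by decide)
  refine ⟨⟨Ope.adm_one.2 (hu.1 1), net.mono (net.mul (X_loc (hu.1 0)) hZ (disjoint_compl_right.mono_left subset_union_left))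
    (union_subset d.subset_compl_right (compl_subset_compl.2 subset_union_right))⟩, ?_⟩
  rw [mul_assoc, h _ ⟨(hu.1 0).1, (hu.1 0).2, subset_univ _⟩ _ (N.mono (N.mul (A.mem b
    ⟨(hu.1 1).1, (hu.1 1).2, subset_rfl⟩) (A.emb.mem hZ) (disjoint_compl_right.mono_left
      subset_union_right)) (union_subset d.subset_compl_left
        (compl_subset_compl.2 subset_union_left))), map_mul ι, mul_left_comm]

theorem id2_of (A : Fm N W y ι m) (B : Fm N' W' y' ι' n)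
    (e : ∀ Z ∈ net.loc univ, W' (ι' Z) = W (ι Z)) (hu : Adm u) (k : κ ≠ 0)
    (h : ∀ t > 0, ∀ z Z, Dt (mv t z (u 1)) Z →
      W' (y' b (mv t z (u 1)) * ι' Z) = κ * W (y b (mv t z (u 1)) * ι Z)) :
    ∃ κ : ℝ, κ ≠ 0 ∧ Id2 W y ι W' y' ι' Dt (pa c0) b u κ := by
  obtain ⟨s, s0, -, p⟩ := A.spec
  obtain ⟨s', s1, -, p'⟩ := B.spec
  refine ⟨s' * κ / s, by positivity, fun f Z d => ?_⟩
  filter_upwards [mv_out hu d, self_mem_nhdsWithin] with t ht t0 z hz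
  have a := mv_adm hu t0 z
  obtain ⟨d1, q⟩ := p b _ a Z (ht z hz)
  obtain ⟨d2, q1⟩ := p b _ a 1 (net.one _)
  have q2 := (p' b _ a 1 (net.one _)).2
  have : (s : ℂ) ≠ 0 := by exact_mod_cast s0
  rw [map_one, mul_one] at q1 q2
  rw [tr, tr, (p' b _ a Z (ht z hz)).2, q, q1, q2, h t t0 z _ d1, h t t0 z _ d2, e Z d.adm]
  push_cast
  field_simp

theorem id2_ss (A : Fm N W y ι m) (B : Fm N' W' y' ι' n)
    (e : ∀ Z ∈ net.loc univ, W' (ι' Z) = W (ι Z)) (hu : Adm u) :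
    ∃ κ : ℝ, κ ≠ 0 ∧ Id2 W y ι W' y' ι' Dt (pa c0) (pa c0) u κ := by
  obtain ⟨s, s0, p, -⟩ := A.spec
  obtain ⟨s', s1, p', -⟩ := B.spec
  refine id2_of A B e hu (div_ne_zero s1 s0) fun t _ z Z d => ?_
  have : (s : ℂ) ≠ 0 := by exact_mod_cast s0
  rw [p _ _ d, p' _ _ d, e _ (Net.adm (net.mul (X_loc (Ope.adm_one.1 d.1)) d.2 disjoint_compl_right))]
  push_cast
  field_simp

theorem mv_rad {v : R4 → ℝ} {p : R4} (r : ∀ (R : Iso) x, v (p + R x) = v (p + x)) {t : ℝ} (t0 : t ≠ 0)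
    (z : R4) (R : Iso) (x : R4) : mv t z v (z + t • p + R x) = mv t z v (z + t • p + x) := by
  simp only [mv, add_assoc, add_sub_cancel_left, smul_add, inv_smul_smul₀ t0, ← map_smul R, r]

theorem id2_s (A : Fm N W y ι m) (B : Fm N' W' y' ι' n)
    (e : ∀ Z ∈ net.loc univ, W' (ι' Z) = W (ι Z)) (hu : Bp u) (k : κ ≠ 0)
    (h : Id W y ι W' y' ι' Dt (ref .t3) κ) :
    ∃ κ : ℝ, κ ≠ 0 ∧ Id2 W y ι W' y' ι' Dt (pa c0) (ref .t3) u κ := by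
  refine id2_of A B e hu.1 k fun t t0 z Z d => ?_
  obtain ⟨-, p, r⟩ := hu.2 1
  have c : C1 univ (mv t z (u 1)) := ⟨(d.1.1 0).1, (d.1.1 0).2, subset_univ _⟩
  have := h _ _ d
  rwa [tr, tr, A.one0 (.inl rfl) c (mv_rad r t0.ne' z), B.one0 (.inl rfl) c (mv_rad r t0.ne' z),
    zero_mul, zero_mul, sub_zero, sub_zero] at this

end Pool.Agent.Lib.MP_7f377f_mp.Fr2
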