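import Pool.Agent.Lib.MP_7f377f_mp.G.YOMain
import Pool.Agent.Lib.MP_7f377f_mp.G.S22C

/-! The product of two composite fields with real labels has a real coefficient. -/

noncomputable section

namespace Pool.Agent.Lib.MP_7f377f_mp.Cm
variable [Pool.Agent.Lib.MP_7f377f_mp.GD]
set_option linter.unusedSectionVars false

open MeasureTheory Filter Topology Set Real YM7 Pur Lg Wm Lm Matrix MvPolynomial Asymptotics
open Ope (gp sc ctr cv Dt)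
open Lb (Lab Cl rho c0)
open scoped Matrix.Norms.Elementwise ComplexConjugate

/-- the expansion of the product with a real coefficient -/
def OpR (S : Pol →ₗ[ℂ] ℂ) (a : ℝ) (l : Filter (ℕ × ℕ)) (O : ℕ × ℕ → Lab ℂ → (R4 → ℝ) → Pol)
    (M : ℝ → Lab ℂ →ₗ[ℂ] Lab ℂ) (c c' : Lab ℂ) (b : Lab ℝ) (u : Fin 2 → R4 → ℝ) : Prop :=
  ∃ κ : ℝ × ℕ × ℕ → Lab ℝ, Tendsto κ ((𝓝[>] 0).curry l) (𝓝 b) ∧ ∀ f Z, Dt f Z → ∃ R K,
    ∀ᶠ p in (𝓝[>] (0 : ℝ)).curry l, net.QB S ((ctr S (Yl ((((p.1 ^ 4)⁻¹ : ℝ) : ℂ) •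
      (O p.2 (M p.1 c) (sc p.1 (u 0)) * O p.2 (M p.1 c') (sc p.1 (u 1)))) 1 p.2.2 f) -
        O p.2 (M p.1 (cx (κ p))) f) * Z) R (K * p.1 ^ a)

theorem cx_cont : Continuous cx := continuous_id.matrix_map Complex.continuous_ofReal

theorem OpR.lim {H : Type} [NormedAddCommGroup H] [InnerProductSpace ℂ H] [CompleteSpace H]
    {S W : Pol →ₗ[ℂ] ℂ} {K a : ℝ} {l : Filter (ℕ × ℕ)} [l.NeBot]
    {O : ℕ × ℕ → Lab ℂ → (R4 → ℝ) → Pol} {M : ℝ → Lab ℂ →ₗ[ℂ] Lab ℂ} {c c' : Lab ℂ} {b : Lab ℝ}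
    {u : Fin 2 → R4 → ℝ} (E : OpR S a l O M c c' b u) (hu : Adm u) (hl : Tendsto Prod.snd l atTop)
    (h : Inl W K (fun μ c => rho ((Lb.mx (rfL μ)).map (↑)) cᴴ) (fun R => rho ((Lb.mx R).map (↑))) l O)
    (h0 : Bas W K l fun j => O j c0) (hL : LinP W) (hS : net.St W) (hr : Rot W) (hq : Quantum H W)
    (hD : net.Dom S W) {W' : PolL (Lab ℂ) →ₗ[ℂ] ℂ}
    (lim : ∀ U U', Disjoint U U' → ∀ Y ∈ (netL (Wv.inv4 Wv.rp_rho)).loc U, ∀ Z ∈ net.loc U',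
      Tendsto (fun j => W (Lm.sub (O j) Y * Z)) l (𝓝 (W' (Y * emb c0 Z)))) :
    ∃ C : ℝ → Lab ℝ, Tendsto C (𝓝[>] 0) (𝓝 b) ∧ ∀ f Z, Dt f Z →
      (fun t : ℝ => (∫ z, f z * YF.cov W' (X (M t c, fun y => u 0 (t⁻¹ • (y - z))) *
        X (M t c', fun y => u 1 (t⁻¹ • (y - z)))) (emb c0 Z)) / t ^ 4 -
          YF.cov W' (X (M t (cx (C t)), f)) (emb c0 Z)) =O[𝓝[>] 0] fun t => t ^ a := by
  obtain ⟨κ, hκ, hE⟩ := E
  have hU := Ultrafilter.of_le l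
  obtain ⟨C, hC⟩ : ∃ C : ℝ → Lab ℝ, ∀ᶠ t in 𝓝[>] (0 : ℝ),
      Tendsto (fun j => κ (t, j)) (Ultrafilter.of l) (𝓝 (C t)) := by
    have := FiniteDimensional.proper ℝ (Lab ℝ)
    refine ⟨fun t => limUnder (Ultrafilter.of l) fun j => κ (t, j), ?_⟩
    filter_upwards [eventually_curry_iff.1 (hκ.eventually (Metric.closedBall_mem_nhds b one_pos))]
      with t ht
    obtain ⟨x, -, hx⟩ := (isCompact_closedBall b 1).ultrafilter_le_nhds
      ((Ultrafilter.of l).map fun j => κ (t, j)) (le_principal_iff.2 (hU ht))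
    exact tendsto_nhds_limUnder ⟨x, hx⟩
  refine ⟨C, Metric.nhds_basis_closedBall.tendsto_right_iff.2 fun η η0 => ?_, fun f Z d => ?_⟩
  · filter_upwards [hC, eventually_curry_iff.1 (hκ.eventually (Metric.closedBall_mem_nhds b η0))]
      with t h1 h2 using Metric.isClosed_closedBall.mem_of_tendsto h1 (hU h2)
  obtain ⟨R, K₁, e1⟩ := hE f Z d
  obtain ⟨R', K₂, e2⟩ := hE f 1 d.one
  obtain ⟨δ, δ0, hZ⟩ := d.sep
  obtain ⟨r, r0, hr'⟩ := (isCompact_iUnion fun i => (hu.1 i).1.isCompact).isBounded.exists_pos_norm_le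
  have f1 := Ope.adm_one.1 d.1
  have wz : W' (emb c0 Z) = W Z := by
    simpa using tendsto_nhds_unique (lim _ _ (empty_disjoint _) 1 (Net.one _ _) Z d.2)
      (tendsto_const_nhds.congr fun j => by rw [map_one, one_mul])
  refine .of_bound (K₁ + K₂ * ‖W Z‖) ?_
  filter_upwards [hC, eventually_curry_iff.1 e1, eventually_curry_iff.1 e2,
    Ioo_mem_nhdsGT (div_pos δ0 r0)] with t a0 a1 a2 ht
  have b1 : ∀ Y, Dt f Y → Tendsto (fun j => W (O j (M t (cx (κ (t, j)))) f * Y)) (Ultrafilter.of l)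
      (𝓝 (W' (X (M t (cx (C t)), f) * emb c0 Y))) := fun Y hY => by
      have c := fun j t a b => h.linc j t a b f ⟨f1.1, f1.2, subset_univ _⟩
      have z : ∀ j, O j 0 f = 0 := fun j => by simpa using c j 1 0 0
      refine lin_lim (φ := fun x => W' (X (M t x, f) * emb c0 Y)) (L := fun j =>
        W ∘ₗ LinearMap.mulRight ℂ Y ∘ₗ IsLinearMap.mk' (O j · f) ⟨fun a b => by
          simpa using c j 1 a b, fun t a => by simpa [z] using c j t a 0⟩ ∘ₗ M t) (fun x => ?_)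
          ((cx_cont.tendsto _).comp a0)
      simpa [Lm.sub] using (lim _ _ disjoint_compl_right _ (Wv.gen_mem (gen_netL _) ![M t x] d.1
        fun i => by fin_cases i; exact subset_rfl) Y hY.2).mono_left hU
  have b2 := fun z (hz : z ∈ tsupport f) Y (hY : Y ∈ net.loc (Metric.thickening δ (tsupport f))ᶜ) =>
    Wv.convU h h0 hL hS hr hq lim ![M t c, M t c'] (hu.smul (inv_pos.2 ht.1).ne') hY (z := z)
      fun i y hy => not_not.2 (Metric.mem_thickening_iff.2 ⟨z, hz, by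
        have := hr' _ (mem_iUnion.2 ⟨i, tsupport_comp (θ := fun y => t⁻¹ • y) (by fun_prop) hy⟩)
        rw [norm_smul, norm_inv, Real.norm_of_nonneg ht.1.le, inv_mul_le_iff₀ ht.1] at this
        simpa [dist_eq_norm] using this.trans_lt ((lt_div_iff₀ r0).1 ht.2)⟩)
  have b3 := (riem_mv hl d.1 fun z hz => (b2 z hz Z hZ).sub
    ((b2 z hz 1 (net.one _)).mul_const (W Z))).div_const (t ^ 4)
  have b4 := (b3.mono_left hU).sub ((b1 Z d).sub ((b1 1 d.one).mul_const (W Z)))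
  simp only [Fin.prod_univ_two, cons_val_zero, cons_val_one, map_one, mul_one] at b4
  rw [Real.norm_of_nonneg (rpow_pos_of_pos ht.1 a).le]
  simp only [YF.cov, wz]
  refine le_of_tendsto b4.norm ?_
  filter_upwards [hU a1, hU a2] with j c1 c2
  have c3 := (norm_sub_le _ _).trans (add_le_add (hS.bound (hD.qb c1)) ((norm_mul_le _ _).trans
    (mul_le_mul_of_nonneg_right (hS.bound (hD.qb c2)) (norm_nonneg (W Z)))))
  rw [mul_one, ← cv, Ope.cv_sub, ctr, Ope.cv_C hS.one, Yl_smul f1.1, Ope.cv_smul,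
    Yl_eq fun x => (Ope.fin_gp d.1 _).mem_toFinset.2, Ope.cv_sum] at c3
  have e : ∀ z B, sh 1 z B = net.τ z B := fun z B => by simp [sh, net]
  simp only [Ope.cv_smul, e, div_one] at c3
  rw [div_eq_inv_mul, add_mul, mul_right_comm]
  push_cast at c3 ⊢
  exact c3

/-- conjugation of the coefficients -/
def cj : Pol ≃+* Pol := mapEquiv _ starRingAut

theorem cj_smul (c : ℂ) (Z : Pol) : cj (c • Z) = conj c • cj Z := by
  simp [cj, smul_eq_C_mul]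

theorem cj_rename (φ : (R4 → ℝ) → R4 → ℝ) (Z : Pol) : cj (rename φ Z) = rename φ (cj Z) :=
  map_rename _ _ _

theorem cj_mon {k : ℕ} (f : Fin k → R4 → ℝ) : cj (mon f) = mon f := by simp [cj, mon]

theorem cj_cj (Z : Pol) : cj (cj Z) = Z := by
  ext m
  simp [cj, coeff_map]

theorem cj_mem {U : Set R4} {Z : Pol} (h : Z ∈ net.loc U) : cj Z ∈ net.loc U :=
  span_map (map_add _) (fun c X => ⟨_, cj_smul c X⟩)
    (fun _ ⟨k, f, h1, h2, e⟩ => ⟨k, f, h1, h2, by rw [← e, cj_mon]⟩) h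

theorem cj_Yl (A : Pol) (d : ℝ) (e : ℕ) (f : R4 → ℝ) : cj (Yl A d e f) = Yl (cj A) d e f := by
  refine (cj.toAddEquiv.map_finsum _).trans (finsum_congr fun x => (cj_smul _ _).trans ?_)
  rw [Complex.conj_ofReal, sh, cj_rename]

variable {S : Pol →ₗ[ℂ] ℂ} {K : ℝ}

theorem Sf.cj (hS : Sf S K) {Z : Pol} (h : Z ∈ net.loc univ) : S (cj Z) = conj (S Z) := by
  rw [← hS.inp.st.herm 0 h, ← hS.inv (rfL 0) _ (cj_mem h)]
  simp only [Ro.act, rfL_symm, rfL_eq]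
  rfl

theorem Sf.nq (hS : Sf S K) {Z : Pol} {μ : Fin 4} (h : Z ∈ net.loc (Hs μ 0)) :
    net.nq S μ (Cm.cj Z) = net.nq S μ Z := by
  have e : net.Θ μ (Cm.cj Z) = Cm.cj (net.Θ μ Z) := (cj_rename _ _).symm
  rw [Net.nq, e, ← map_mul, hS.cj (Net.rp_adm h h), Complex.conj_re, Net.nq]

theorem Sf.qb (hS : Sf S K) {Z : Pol} {R c : ℝ} (h : net.QB S Z R c) : net.QB S (Cm.cj Z) R c := by
  refine ⟨cj_mem h.1, h.2.1, h.2.2.1, fun μ b hb => ?_⟩
  have e : ∀ v Z, net.τ v (Cm.cj Z) = Cm.cj (net.τ v Z) := fun v Z => (cj_rename _ _).symm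
  have := h.2.2.2 μ _ (cj_mem hb)
  rwa [hS.nq (net.mono hb (Ot.hs μ le_rfl)), ← hS.nq (Net.qb_hs h.1 (Net.dg_ot (cj_mem hb)) h.2.1
    (by simp)), ← e, map_mul, ← e, cj_cj] at this

theorem Sf.ctr (hS : Sf S K) {Z : Pol} (h : Z ∈ net.loc univ) (e : Cm.cj Z = Z) :
    Cm.cj (ctr S Z) = ctr S Z := by
  have := hS.cj h
  rw [e] at this
  rw [Ope.ctr, map_sub, e]
  simp [Cm.cj, ← this]

theorem OpS.real (hS : Sf S K) {a : ℝ} {l : Filter (ℕ × ℕ)} {O : ℕ × ℕ → Lab ℂ → (R4 → ℝ) → Pol}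
    {M : ℝ → Lab ℂ →ₗ[ℂ] Lab ℂ} {c c' b : Lab ℝ} {u : Fin 2 → R4 → ℝ} (hu : Adm u)
    (E : OpS S a l O M (cx c) (cx c') (cx b) u)
    (lin : ∀ j (t : ℂ) a b g, C1 univ g → O j (t • a + b) g = t • O j a g + O j b g)
    (mem : ∀ j c f, HasCompactSupport f → O j c f ∈ net.loc univ)
    (re : ∀ t j c f, HasCompactSupport f → cj (O j (M t (cx c)) f) = O j (M t (cx c)) f) :
    OpR S a l O M (cx c) (cx c') b u := by
  obtain ⟨κ, hκ, hE⟩ := E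
  refine ⟨fun p => (κ p).map Complex.re, by
    simpa [cx, Function.comp_def] using
      ((continuous_id.matrix_map Complex.continuous_re).tendsto _).comp hκ, fun f Z d => ?_⟩
  obtain ⟨R, K₁, e1⟩ := hE f Z d
  obtain ⟨R', K₂, e2⟩ := hE f _ ⟨d.1, cj_mem d.2⟩
  obtain ⟨_, _, e3⟩ := hE f 1 d.one
  have f1 := Ope.adm_one.1 d.1
  refine ⟨max R R', 2⁻¹ * (K₁ + K₂), ?_⟩
  filter_upwards [e1, e2, e3, (tendsto_fst.mono_left curry_le_prod).eventually self_mem_nhdsWithin]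
    with p h1 h2 h3 t0
  have y := add_mem (Net.adm h3.1) (mem p.2 (M p.1 (κ p)) f f1.1)
  rw [mul_one, sub_add_cancel] at y
  replace y := (fun Y (y : ctr S Y ∈ net.loc univ) => show Y ∈ net.loc univ by
    simpa [Ope.ctr, smul_eq_C_mul] using add_mem y (Submodule.smul_mem _ (S Y) (net.one _))) _ y
  replace h2 := hS.qb h2
  rw [cx_re_im (κ p), add_comm (cx _), map_add, map_smul,
    lin _ _ _ _ _ ⟨f1.1, f1.2, subset_univ _⟩] at h1 h2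
  rw [map_mul, cj_cj, map_sub, hS.ctr y (by
    rw [cj_Yl, cj_smul, map_mul, re _ _ _ _ (sc_cpt (hu.1 0).1 t0), re _ _ _ _ (sc_cpt (hu.1 1).1 t0),
      Complex.conj_ofReal]), map_add, cj_smul, re _ _ _ _ f1.1, re _ _ _ _ f1.1,
    Complex.conj_I] at h2
  convert ((h1.mono hS.inp.st (le_max_left R R') le_rfl).add hS.inp.st
    (h2.mono hS.inp.st (le_max_right R R') le_rfl)).smul 2⁻¹ using 1
  · rw [← add_mul]
    exact (congrArg (· * Z) (by module)).trans (smul_mul_assoc ..)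
  · simp
    ring

theorem cj_Oa (hS : Sf S K) {w Λ δ h ω} (H : Dat w h ω Λ δ) (L : Cl → ℕ → ℝ) (j : ℕ × ℕ) (c : Lab ℝ)
    {f : R4 → ℝ} (hf : HasCompactSupport f) : cj (Oa h ω S L j (cx c) f) = Oa h ω S L j (cx c) f := by
  refine (map_sum cj _ _).trans (Finset.sum_congr rfl fun l _ => ?_)
  rw [cj_smul, Complex.conj_ofReal, Yc, hS.ctr
    (Yl_mem (Zc_mem H _) hf (by positivity) fun _ _ _ _ => mem_univ _)]
  rw [cj_Yl, Zc_sum H, map_sum]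
  simp only [cj_smul, cj_mon, ← ip_cx, ← Complex.ofReal_mul, Complex.conj_ofReal]

theorem dgL_cx (n : Cl → ℝ) (c : Lab ℝ) : dgL (fun l => n l) (cx c) =
    cx (∑ l, n l • Lb.pc l c + n .s • (c - Lb.pa c)) := by
  rw [dgL_eq, cx_add, cx_sum, cx_smul, sub_eq_add_neg c, cx_add, ← neg_one_smul ℝ, cx_smul, cx_pa]
  simp [cx_smul, cx_pc, sub_eq_add_neg]

theorem res3 {G : RG.Q4.En.Gl} {β : ℕ × ℕ → ℝ} {U : Ultrafilter (ℕ × ℕ)}
    {S₀ : ∀ {k : ℕ}, (Fin k → R4 → ℝ) → ℝ} (R : RG.Q4.En.Rn G β U S₀ S) :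
    ∃ K h ω Λ δ, ∃ (L : Cl → ℕ → ℝ) (N : _), Dat (GD.d / 2) h ω Λ δ ∧
    (∀ Λ δ, 1 ≤ Λ → 0 < δ → ∃ a Kl, Kin S 5 Λ δ a Kl) ∧ (∀ n, 0 < L .t n) ∧
    (∀ ε > (0 : ℝ), ∀ᶠ n in atTop, L .t n ≤ dn n ^ (-ε)) ∧
      Res S K (atTop.curry UU) (Oa h ω S L) N ∧ ∀ n : ℝ → Cl → ℝ,
        (∀ᶠ D in 𝓝[>] (0 : ℝ), ∀ t, n D t = gm * N t D) → ∀ a b (u : Fin 2 → R4 → ℝ), Adm u →
          OpR S (50⁻¹ / 2) (atTop.curry UU) (Oa h ω S L) (fun D => dgL fun l => n D l) (cx a) (cx b)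
            (gm • BB a b u) u := by
  obtain ⟨_, hS⟩ := R.sf
  obtain ⟨K, h, ω, Λ, δ, L, N, A, J, L0, L1, Q, P⟩ := res2 R
  refine ⟨K, h, ω, Λ, δ, L, N, A, J, L0, L1, Q, fun n hn a b u hu => OpS.real hS hu ?_ Q.inl.linc
    (fun j c f hf => sum_mem fun l _ => Submodule.smul_mem _ _
      (Yc_mem A hf (by positivity) c fun _ _ _ _ => mem_univ _)) fun t j c f hf => ?_⟩
  · rw [cx_smul, ← bl_cx hu]
    exact P n hn _ _ u hu
  · rw [dgL_cx, cj_Oa hS A _ _ _ hf]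

end Pool.Agent.Lib.MP_7f377f_mp.Cm
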