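import Pool.Agent.Lib.MP_7f377f_mp.G.S22C
import Pool.Agent.Lib.MP_7f377f_mp.G.OpV
import Pool.Agent.Lib.MP_7f377f_mp.G.PuX

/-! Two systems of fields of dimension four over the same scalar field: the interfaces. -/

noncomputable section

namespace Pool.Agent.Lib.MP_7f377f_mp.Fr2
variable [Pool.Agent.Lib.MP_7f377f_mp.GD]
set_option linter.unusedSectionVars false

open MeasureTheory Filter Topology Set Real YM7 Pur Wm Asymptotics MvPolynomial ComplexConjugate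
open Ope (Dt sc)
open Ro (Iso act)
open Lb (Lab Cl Tp pc pa rho rhoL mx ref c0 ip)
open Lg.PI (dt)
open scoped ContDiff

variable {P : Type} [CommRing P] [Algebra ℂ P] (N : Net P) (W : P →ₗ[ℂ] ℂ)
  (y : Lab ℝ → (R4 → ℝ) → P) (ι : Pol →ₐ[ℂ] P) (m : ℝ → Cl → ℝ)

/-- truncated correlation with a word in the scalar field -/
def tr (A : P) (Z : Pol) : ℂ := W (A * ι Z) - W A * W (ι Z)

/-- scalars on the classes -/
def dg (m : Cl → ℝ) (c : Lab ℝ) : Lab ℝ := ∑ l, m l • pc l c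

/-- the move to the point `z` and the scale `t` -/
def mv (t : ℝ) (z : R4) (u : R4 → ℝ) (x : R4) : ℝ := u (t⁻¹ • (x - z))

/-- the expansion of the product with a real coefficient -/
def Op (a b : Lab ℝ) (u : Fin 2 → R4 → ℝ) (B : Lab ℝ) : Prop :=
  ∃ δ > (0 : ℝ), ∃ C : ℝ → Lab ℝ, Tendsto C (𝓝[>] 0) (𝓝 B) ∧ ∀ f Z, Dt f Z →
    (fun t : ℝ => (∫ z, f z * tr W ι (y (dg (m t) a) (mv t z (u 0)) *
      y (dg (m t) b) (mv t z (u 1))) Z) / t ^ 4 - tr W ι (y (dg (m t) (C t)) f) Z)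
        =O[𝓝[>] 0] fun t => t ^ δ

/-- the short distance limit of the correlation with scalar fields -/
def Af (l : Cl) (c : Lab ℝ) {k : ℕ} (f : Fin (k + 1) → R4 → ℝ) (z : ℂ) : Prop :=
  Tendsto (fun t : ℝ => ((m t l * log t⁻¹ ^ k : ℝ) : ℂ) *
    tr W ι (y c (sc t (f 0))) (mon fun i : Fin k => sc t (f i.succ))) (𝓝[>] 0) (𝓝 z)

/-- limits of words in the scalar field -/
def Den (A : P) : Prop := ∀ η > (0 : ℝ), ∃ b ∈ net.loc (Hs 0 0), N.nq W 0 (A - ι b) ≤ η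

/-- a system of fields with real labels -/
structure Fm : Prop where
  emb : net.Emb N ι
  st : N.St W
  mem : ∀ {O f} c, C1 O f → y c f ∈ N.loc O
  tau : ∀ v c f, N.τ v (y c f) = y c fun x => f (x - v)
  refl : ∀ μ c f, N.Θ μ (y c f) = y (rho (mx (rfL μ)) c) fun x => f (rf μ x)
  lin : ∀ (t : ℝ) a b f, C1 univ f → ∀ Z ∈ N.loc (tsupport f)ᶜ,
    W (y (t • a + b) f * Z) = t * W (y a f * Z) + W (y b f * Z)
  rot : ∀ R, dt R = 1 → ∀ c f Z, Dt f Z →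
    W (y (rho (mx R) c) (fun x => f (R.symm x)) * ι (act R Z)) = W (y c f * ι Z)
  rot0 : ∀ R, dt R = 1 → ∀ Z ∈ net.loc univ, W (ι (act R Z)) = W (ι Z)
  phi : ∃ k : ℝ, k ≠ 0 ∧ ∀ f, C1 univ f → ∀ Z ∈ N.loc (tsupport f)ᶜ,
    W (y (pa c0) f * Z) = k * W (ι (X f) * Z)
  sca : ∃ β : ℝ, β ≠ 0 ∧ ∀ᶠ t in 𝓝[>] (0 : ℝ), m t .s = β * log t⁻¹
  slow : ∀ l, ∀ ε > (0 : ℝ), ∀ᶠ t in 𝓝[>] (0 : ℝ), t ^ ε ≤ |m t l| ∧ |m t l| ≤ t ^ (-ε)
  ope : ∀ a b u, Adm u → ∃ B, Op W y ι m a b u B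
  af : ∀ l c, pc l c = c → ∀ k (f : Fin (k + 1) → R4 → ℝ), Adm f → ∃ z, Af W y ι m l c f z
  den : ∀ g, ContDiff ℝ ∞ g → C1 (Hs 0 0) g → Den N W ι (y (ref .t6) g)

/-- the free values are known -/
structure Old : Prop where
  ope : ∀ a b u, Adm u → Op W y ι m a b u (Cm.gm • Cm.BB a b u)
  af : ∀ l c, pc l c = c → ∀ k (f : Fin (k + 1) → R4 → ℝ), Adm f →
    Cm.frI (Fin.cons (Cm.cx c) fun _ => c0) f ≠ 0 → ∃ z ≠ 0, Af W y ι m l c f z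

/-- the word lies before the support -/
def Er (f : R4 → ℝ) (Z : Pol) : Prop :=
  Dt f Z ∧ ∃ s, Z ∈ net.loc {x | x 0 < s} ∧ tsupport f ⊆ Hs 0 s

/-- smooth radial functions -/
def Bp (u : Fin 2 → R4 → ℝ) : Prop :=
  Adm u ∧ ∀ i, ContDiff ℝ ∞ (u i) ∧ ∃ p, ∀ (R : Iso) x, u i (p + R x) = u i (p + x)

variable {P' : Type} [CommRing P'] [Algebra ℂ P'] (W' : P' →ₗ[ℂ] ℂ)
  (y' : Lab ℝ → (R4 → ℝ) → P') (ι' : Pol →ₐ[ℂ] P') (E : (R4 → ℝ) → Pol → Prop)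

/-- the two fields with the label `c` are proportional -/
def Id (c : Lab ℝ) (κ : ℝ) : Prop := ∀ f Z, E f Z → tr W' ι' (y' c f) Z = κ * tr W ι (y c f) Z

/-- the two products are proportional -/
def Id2 (a b : Lab ℝ) (u : Fin 2 → R4 → ℝ) (κ : ℝ) : Prop := ∀ f Z, E f Z →
  ∀ᶠ t in 𝓝[>] (0 : ℝ), ∀ z ∈ tsupport f,
    tr W' ι' (y' a (mv t z (u 0)) * y' b (mv t z (u 1))) Z =
      κ * tr W ι (y a (mv t z (u 0)) * y b (mv t z (u 1))) Z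

/-- the two fields agree up to a power -/
def Rel (δ : ℝ) (A B : ℝ → Lab ℝ) : Prop := ∀ f Z, E f Z →
  (fun t => tr W' ι' (y' (A t) f) Z - tr W ι (y (B t) f) Z) =O[𝓝[>] (0 : ℝ)] fun t => t ^ δ

/-- maps of labels which preserve the relation -/
def Cls (T : Lab ℝ →ₗ[ℝ] Lab ℝ) : Prop := ∀ δ A B, Rel W y ι W' y' ι' E δ A B →
  Rel W y ι W' y' ι' E δ (fun t => T (A t)) fun t => T (B t)

/-- a projection onto the reference label -/
def Prj (τ : Tp) (T : Lab ℝ →ₗ[ℝ] Lab ℝ) : Prop :=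
  ∃ e : ℝ, e ≠ 0 ∧ ∀ c, pa c = c → T c = (e * ip (ref τ) c) • ref τ

/-- comparable normalisations -/
def Cp (m n : ℝ → Cl → ℝ) (l : Cl) : Prop :=
  ∃ c > (0 : ℝ), ∃ C, ∀ᶠ t in 𝓝[>] (0 : ℝ), c ≤ |m t l / n t l| ∧ |m t l / n t l| ≤ C

variable {N W y ι m} {a b : Lab ℝ} {f : R4 → ℝ} {Z : Pol} {u : Fin 2 → R4 → ℝ}

theorem mv_adm (hu : Adm u) {t : ℝ} (t0 : 0 < t) (z : R4) : Adm fun i => mv t z (u i) :=
  adm_sub (hu.smul (inv_ne_zero t0.ne')) z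

/-- the moved functions lie near the support -/
theorem mv_near (hu : Adm u) {δ : ℝ} (δ0 : 0 < δ) : ∀ᶠ t in 𝓝[>] (0 : ℝ), ∀ z i,
    tsupport (mv t z (u i)) ⊆ Metric.ball z δ := by
  obtain ⟨r, r0, hr⟩ := (isCompact_iUnion fun i => (hu.1 i).1.isCompact).isBounded.exists_pos_norm_le
  filter_upwards [Ioo_mem_nhdsGT (div_pos δ0 r0)] with t ht z i x hx
  have := hr _ (mem_iUnion.2 ⟨i, tsupport_comp (θ := fun x => t⁻¹ • (x - z)) (by fun_prop) hx⟩)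
  rw [norm_smul, norm_inv, Real.norm_of_nonneg ht.1.le, inv_mul_le_iff₀ ht.1] at this
  exact mem_ball_iff_norm.2 (this.trans_lt ((lt_div_iff₀ r0).1 ht.2))

theorem mv_out (hu : Adm u) (d : Dt f Z) : ∀ᶠ t in 𝓝[>] (0 : ℝ), ∀ z ∈ tsupport f,
    Z ∈ net.loc (tsupport (mv t z (u 0)) ∪ tsupport (mv t z (u 1)))ᶜ := by
  obtain ⟨δ, δ0, hZ⟩ := d.sep
  exact (mv_near hu δ0).mono fun t e z hz => net.mono hZ (compl_subset_compl.2 (union_subset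
    ((e z 0).trans (Metric.ball_subset_thickening hz δ))
    ((e z 1).trans (Metric.ball_subset_thickening hz δ))))

theorem Fm.smul (A : Fm N W y ι m) (t : ℝ) (a : Lab ℝ) (hf : C1 univ f) {Y : P}
    (hY : Y ∈ N.loc (tsupport f)ᶜ) : W (y (t • a) f * Y) = t * W (y a f * Y) := by
  have e := A.lin 1 0 0 f hf Y hY
  have := A.lin t a 0 f hf Y hY
  rw [add_zero] at this
  rw [smul_zero, add_zero, Complex.ofReal_one, one_mul] at e
  linear_combination this - e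

theorem Fm.tr_smul (A : Fm N W y ι m) (t : ℝ) (a : Lab ℝ) (d : Dt f Z) :
    tr W ι (y (t • a) f) Z = t * tr W ι (y a f) Z := by
  have c : C1 univ f := ⟨(d.1.1 0).1, (d.1.1 0).2, subset_univ _⟩
  have := A.smul t a c (N.one _)
  rw [mul_one, mul_one] at this
  rw [tr, tr, this, A.smul t a c (A.emb.mem d.2)]
  ring

end Pool.Agent.Lib.MP_7f377f_mp.Fr2
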