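import Pool.Agent.Lib.MP_7f377f_mp.G.S22P4
import Pool.Agent.Lib.MP_7f377f_mp.G.S22Spec

/-! The expansion of the product in the form used for systems of fields with real labels. -/

noncomputable section

namespace Pool.Agent.Lib.MP_7f377f_mp.Cm
variable [Pool.Agent.Lib.MP_7f377f_mp.GD]
set_option linter.unusedSectionVars false

open MeasureTheory Filter Topology Set Real YM7 Pur Lg Wm Lm Matrix MvPolynomial
open Lb (Lab Cl rho c0 pa pc)
open scoped Matrix.Norms.Elementwise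

theorem pa_dg_cx (m : Cl → ℝ) (c : Lab ℝ) :
    pa (dgL (fun l => m l) (cx c)) = cx (pa (Fr2.dg m c)) := by
  have e : pa (dgL (fun l => m l) (cx c)) = cx (Fr2.dg m c) := by
    simp only [pa_dgL, Fr2.dg, cx_sum, cx_smul, cx_pc]
  rw [cx_pa, ← e, Lb.pa_pa]

theorem OpR.old {H : Type} [NormedAddCommGroup H] [InnerProductSpace ℂ H] [CompleteSpace H]
    {S W : Pol →ₗ[ℂ] ℂ} {K a : ℝ} {l : Filter (ℕ × ℕ)} [l.NeBot]
    {O : ℕ × ℕ → Lab ℂ → (R4 → ℝ) → Pol} {n : ℝ → Cl → ℝ} {c c' B : Lab ℝ} {u : Fin 2 → R4 → ℝ}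
    (E : OpR S a l O (fun D => dgL fun l => n D l) (cx c) (cx c') B u) (a0 : 0 < a)
    (hp : ∀ j c g, O j (pa c) g = O j c g) (hu : Adm u) (hl : Tendsto Prod.snd l atTop)
    (h : Inl W K (fun μ c => rho ((Lb.mx (rfL μ)).map (↑)) cᴴ) (fun R => rho ((Lb.mx R).map (↑))) l O)
    (h0 : Bas W K l fun j => O j c0) (hL : LinP W) (hS : net.St W) (hr : Rot W) (hq : Quantum H W)
    (hD : net.Dom S W) {W' : PolL (Lab ℂ) →ₗ[ℂ] ℂ}
    (lim : ∀ U U', Disjoint U U' → ∀ Y ∈ (netL (Wv.inv4 Wv.rp_rho)).loc U, ∀ Z ∈ net.loc U',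
      Tendsto (fun j => W (Lm.sub (O j) Y * Z)) l (𝓝 (W' (Y * emb c0 Z)))) :
    Fr2.Op W' (fun c f => X (cx (pa c), f)) (emb c0) n c c' u B := by
  have p : ∀ c : Lab ℂ, Lb.paL c = pa c := fun _ => rfl
  obtain ⟨C, c1, c2⟩ := OpR.lim (M := fun D => Lb.paL ∘ₗ dgL fun l => n D l) (c := cx c)
    (c' := cx c') (b := B) (by simpa only [OpR, LinearMap.comp_apply, p, hp] using E)
    hu hl h h0 hL hS hr hq hD lim
  refine ⟨a, a0, C, c1, fun f Z d => ?_⟩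
  have := c2 f Z d
  simp only [LinearMap.comp_apply, p, pa_dg_cx] at this
  exact this

end Pool.Agent.Lib.MP_7f377f_mp.Cm
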