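import Pool.Agent.Lib.MP_7f377f_mp.G.S23R2
import Pool.Agent.Lib.MP_7f377f_mp.G.Q5Arr
import Pool.Agent.Lib.MP_7f377f_mp.G.S10L6
import Pool.Agent.Lib.MP_7f377f_mp.G.S3D

/-! The uniform bound for third moments with two overlapping sources. -/

noncomputable section

open Pool.Agent.Lib.MP_7f377f_mp.Jet

set_option linter.unusedSectionVars false
variable [Pool.Agent.Lib.MP_7f377f_mp.GD]

namespace Pool.Agent.Lib.MP_7f377f_mp.RG.Q4.En.Gl

open Finset Real Sg Br YM7 Filter Topology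
open scoped NNReal

/-- families in which the two sources of a class may overlap -/
def Ovj (G : Gl) (b : ℝ) (J j : ℕ) (w : ℝ) : Prop :=
  ∀ (ι κ : Type) [Fintype ι] [DecidableEq ι] [DecidableEq κ] (cl : ι → κ) (F : ι → Src (G.N J))
    (a Δ M : ℝ), a * 3 ^ G.e J = 1 → 1.01 ^ (J - j) * (10 ^ 37 * (4 * a)) ≤ 1 →
    (∀ x, Nrm a (4 * a) (F x)) → Cls (G.N J) Δ univ cl (fun x => sup (F x)) →
    126 * ((G.L j : ℝ) ^ G.K0 * G.rt J j) ≤ Δ → (∀ y, (univ.filter (cl · = y)).card ≤ 2) →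
    (∀ x, (G.zs (sup (F x)) J j).card ≤ M) → ∃ Y, G.Fe b J j F w M Y ∧ Y.Ec univ cl

/-- the same for all runs -/
def Ov2 (G : Gl) : Prop := ∀ᶠ j in atTop, ∃ w > 0, ∀ m b J, (G.wm m).Tu b J → j < J →
  (G.wm m).Ovj b J j w

/-- the constant of the reduction -/
def mr3 (G : Gl) (j u : ℕ) : ℝ :=
  2 ^ 3 * exp (256 * (cI (G.g j) * u ^ 4 + 3 * ((2 * (u + 4 * G.L j ^ G.K0) + 1) ^ 4 : ℕ))) *
    exp (3 * ((2 * (u + 4 * G.L j ^ G.K0) + 1) ^ 4 : ℕ))

variable {G : Gl} {J j m u : ℕ} {a b w Λ δ : ℝ} {f : Fin 3 → R4 → ℝ}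

theorem Ok.bd_one [NeZero (G.N J)] [NeZero m] (h : G.Ok) (b0 : 0 ≤ b) (hj : j ≤ J) (w0 : 0 < w)
    (hn : G.N j = m * u) (m1 : 3 ≤ m) (a1 : a * 3 ^ G.e J = 1)
    (hτ : 1.01 ^ (J - j) * (10 ^ 37 * (4 * a)) ≤ 1) (H : G.Ovj b J j w) (hf : ∀ i, Tf1 (f i) Λ)
    (hs : ∀ i, i ≠ 2 → ∀ y z, f i y ≠ 0 → f 2 z ≠ 0 → ∃ l, δ ≤ |y l - z l|) (δ1 : δ ≤ 1)
    (hδ : 128 ≤ δ * G.L j) (hl : 2 * Λ + 6 ≤ a * (G.rt J j * u : ℕ)) :
    |YM7.corr (Fi.tr haar) b (G.N J) a f| ≤ Λ ^ 3 * (G.mr3 j u * exp (3 * G.mr3 j u) * w ^ 3) := by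
  have a0 : 0 < a := pos_of_mul_pos_left (a1 ▸ one_pos) (by positivity)
  have Λ1 := (hf 0).one
  have r := Ok.rt_pos (G := G) J j
  have a2 : a ≤ 1 := a1 ▸ le_mul_of_one_le_right a0.le (one_le_pow₀ (by norm_num))
  have hn' : G.N J = m * (G.rt J j * u) := by rw [← h.rt_N hj, hn, mul_left_comm]
  have K : 1 ≤ G.L j ^ G.K0 * G.rt J j := Nat.mul_pos (pow_pos (by linarith [h.L_big j]) _)
    (pow_pos three_pos _)
  have hD : ((126 * (G.L j ^ G.K0 * G.rt J j) + 2 : ℕ) : ℝ) * a ≤ δ := by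
    have b := mul_le_mul_of_nonneg_left ((h.Lb j (i := G.K0 + 1) (by have := h.B1; omega)).trans
      (h.b_e j)) (mul_pos r a0).le
    have y0 : 0 ≤ (G.L j : ℝ) ^ G.K0 * (G.rt J j * a) := by positivity
    have K' : (1 : ℝ) ≤ G.L j ^ G.K0 * G.rt J j := by exact_mod_cast K
    have δ0 : 0 < δ := pos_of_mul_pos_left (lt_of_lt_of_le (by norm_num) hδ) (Nat.cast_nonneg _)
    rw [h.rt_a hj a1, pow_succ] at b
    push_cast
    nlinarith [mul_le_mul_of_nonneg_right hδ y0, mul_le_mul_of_nonneg_right K' a0.le,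
      mul_le_mul_of_nonneg_left b δ0.le]
  set lam := G.rt J j * u with hlam
  set D := 126 * (G.L j ^ G.K0 * G.rt J j)
  have hD' : (D : ℝ) ≤ 2 * 1 / a := by
    rw [le_div_iff₀ a0]
    push_cast at hD
    nlinarith
  have two : ∀ t, (univ.filter fun i : Fin 3 => decide (i = 2) = t).card ≤ 2 := by decide
  have M : ∀ {δ c} {F : Src (G.N J)}, 0 ≤ δ → YM7.InT (m := m) a δ lam c F →
      ((G.zs (sup F) J j).card : ℝ) ≤ ((2 * (u + 4 * G.L j ^ G.K0) + 1) ^ 4 : ℕ) := fun δ0 e => by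
    have := h.zs_card (sup_cell (h.N_odd J) a0 δ0 e) hj
    rw [hlam, Nat.mul_div_cancel_left _ (Nat.cast_pos.1 r)] at this
    exact Nat.cast_le.2 this
  have ml : (3 : ℝ) * lam ≤ G.N J := by
    rw [hn']
    exact_mod_cast Nat.mul_le_mul_right _ m1
  have C := clb_mid (m := m) (lam := lam) (n := G.N J) (d := fun _ => 1) (τ := fun _ => 0)
    (ρ := fun _ => Λ + 1) (u := lam / 2) (S := fun i j => ¬ (i = 2 ↔ j = 2))
    (D := fun _ _ => D + 2) hf a0 (fun _ => a2) (fun _ => le_rfl)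
    (Nat.cast_le (α := ℝ).1 (by linarith [lam.cast_nonneg (α := ℝ)]))
    (fun _ => by nlinarith) (fun _ => by linarith) (fun _ => by
      have e1 : (2 * (lam / 2 : ℕ) : ℝ) ≤ lam := by exact_mod_cast Nat.mul_div_le lam 2
      have e2 : (lam : ℝ) ≤ 2 * (lam / 2 : ℕ) + 1 := by exact_mod_cast (by omega : lam ≤ _)
      have : |a * (lam / 2 : ℕ) - a * lam / 2| ≤ 1 := abs_le.2 ⟨by nlinarith, by nlinarith⟩
      linarith) fun i j s y z hy hz => by
      rw [inv_one, one_smul] at hy hz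
      by_cases e : j = 2
      · exact (hs i (fun k => s (iff_of_true k e)) _ _ hy (e ▸ hz)).imp fun _ => hD.trans
      · obtain rfl : i = 2 := by_contra fun k => s (iff_of_false k e)
        exact (hs j e _ _ hz hy).imp fun _ k => hD.trans (k.trans_eq (abs_sub_comm _ _))
  have hh : (Fi.tr haar).IsHaarMeasure := (inferInstance : haar.IsHaarMeasure)
  have e := corr_tsv (Fi.tr haar) b (f := f) (Λ := fun _ => Λ) (fun _ => by positivity) a
    (fun _ => 1) (Fi.cst (G.N J) fun _ => (lam / 2 : ℕ))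
  simp only [div_one, inv_one, one_smul, prod_const, card_fin] at C e
  generalize tsv _ f _ _ = F at C e
  obtain ⟨Y, y1, y2⟩ := H _ _ (fun i => decide (i = 2)) F a D _ a1 hτ (fun i => (C.1 i).1.imp
    fun g k => ⟨k.1, k.2.1, fun x μ ν => (k.2.2 x μ ν).trans (by positivity)⟩)
    (fun i _ j _ k => (clb_sep C (by simpa using k)).mono (by simp) Subset.rfl Subset.rfl)
    (by simp [D]) two fun i => M (by linarith) (C.1 i).2
  have R := h.red_clb (A := fun _ => 1) (τ := fun _ => 4 * a) (δ := fun _ => a * lam / 2 - (Λ + 2))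
    (D := fun _ _ => D) b0 hj w0 hn (by omega) a0 (fun _ => by linarith) (fun _ => by linarith)
    (fun _ => (zero_add _).le) (fun F hF => ?_) C (by simpa only [one_smul] using y1)
    (Nat.cast_nonneg _)
  · have := R.gcorr3
    rw [ce, if_neg univ_nonempty.ne_empty, y2 _ Subset.rfl 0 (mem_univ _) 2 (mem_univ _) (by decide),
      add_zero, Complex.norm_real, prod_const_one, one_mul, Fintype.card_fin] at this
    rw [e, abs_mul, abs_of_nonneg (by positivity)]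
    exact mul_le_mul_of_nonneg_left this (by positivity)
  · have c := clb_cell (δ0 := 1) hn' a0 (fun _ => by linarith) hF univ
    obtain ⟨Y, y1, y2⟩ := H _ _ (fun p : Weak.Site 4 m × Fin 3 => (p.1, decide (p.2 = 2)))
      (fun p => F p.1 p.2) a D _ a1 hτ (fun p => ((hF p.1).1 p.2).1)
      (fun ⟨x, i⟩ u ⟨y, j⟩ u' k => by
        rcases eq_or_ne x y with rfl | e
        · exact clb_sep (hF x) (by simpa using k)
        · exact (c _ u _ u' e).mono hD' Subset.rfl Subset.rfl) (by simp [D])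
      (fun y => (card_le_card_of_injOn Prod.snd (fun p hp => by
        simpa using congrArg Prod.snd (mem_filter.1 hp).2) fun p hp q hq e => Prod.ext
          (Prod.mk.inj ((mem_filter.1 hp).2.trans (mem_filter.1 hq).2.symm)).1 e).trans (two y.2))
      fun p => M (by linarith) ((hF p.1).1 p.2).2
    exact ⟨Y, by simpa only [one_smul] using y1, fun T hT p hp q hq k =>
      y2 T hT p hp q hq fun e => k (Prod.ext_iff.1 e).1⟩

theorem corr_smul {n k : ℕ} [NeZero n] (b a : ℝ) (c : Fin k → ℝ) (f : Fin k → R4 → ℝ) :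
    YM7.corr (Fi.tr haar) b n a (fun i => c i • f i) =
      (∏ i, c i) * YM7.corr (Fi.tr haar) b n a f := by
  have hh : (Fi.tr haar).IsHaarMeasure := (inferInstance : haar.IsHaarMeasure)
  rw [corr_eq, corr_eq, ← gM_apply, ← gM_apply, ← smul_eq_mul, ← MultilinearMap.map_smul_univ]
  rfl

omit [GD] in
theorem nrm_lip1 {f : R4 → ℝ} {L : ℝ≥0} {R : ℝ} (R0 : 0 ≤ R) (hL : LipschitzWith L f)
    (hR : ∀ y, f y ≠ 0 → ∀ l, |y l| ≤ R) : ∃ g : R4 → ℝ, f = (L : ℝ) • g ∧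
      (∀ y, g y ≠ 0 → f y ≠ 0) ∧ (∀ y, |g y| ≤ 2 * R + 1) ∧ ∀ y z, |g y - g z| ≤ dist y z := by
  have k : ∀ y z, |f y - f z| ≤ L * dist y z := hL.dist_le_mul
  have b : ∀ y, |f y| ≤ L * (2 * R + 1) := fun y => by
    by_cases e : f y = 0
    · rw [e, abs_zero]; positivity
    · have z : f (y + EuclideanSpace.single 0 (2 * R + 1)) = 0 := of_not_not fun u => by
        have := (abs_le.1 (hR _ u 0)).2
        simp at this
        linarith [(abs_le.1 (hR _ e 0)).1]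
      have := k y (y + EuclideanSpace.single 0 (2 * R + 1))
      rwa [z, sub_zero, dist_self_add_right, EuclideanSpace.norm_single,
        Real.norm_of_nonneg (by positivity)] at this
  rcases L.coe_nonneg.eq_or_lt with e | e
  · refine ⟨0, funext fun y => ?_, fun _ u => (u rfl).elim, fun _ => by simp; positivity,
      fun _ _ => by simp⟩
    simpa [← e] using b y
  · refine ⟨(L : ℝ)⁻¹ • f, by rw [smul_inv_smul₀ e.ne'], fun y u => right_ne_zero_of_mul u,
      fun y => ?_, fun y z => ?_⟩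
    · rw [Pi.smul_apply, smul_eq_mul, abs_mul, abs_inv, abs_of_pos e, inv_mul_le_iff₀ e]
      exact b y
    · rw [Pi.smul_apply, Pi.smul_apply, smul_eq_mul, smul_eq_mul, ← mul_sub, abs_mul, abs_inv,
        abs_of_pos e, inv_mul_le_iff₀ e]
      exact k y z

variable {β : ℕ × ℕ → ℝ}

/-- two sources in `B`, one source in `K` -/
theorem Oks.bd3 (h : G.Oks) (hβ : G.Tus β) (H : G.Ov2) {B K : Set R4} (hB : IsCompact B)
    (hK : IsCompact K) (d : Disjoint B K) : ∃ C : ℝ, ∀ᶠ p in L6.fast, ∀ (f : Fin 3 → R4 → ℝ)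
      (L : Fin 3 → ℝ≥0), (∀ i y, f i y ≠ 0 → y ∈ if i = 2 then K else B) →
      (∀ i, LipschitzWith (L i) (f i)) →
        |YM7.corr (Fi.tr haar) (β p) (G.nn p) (G.aa p) f| ≤ C * ∏ i, (L i : ℝ) := by
  have o := (h 0).1
  obtain ⟨R, R0, hR⟩ := (hB.union hK).isBounded.exists_pos_norm_le
  obtain ⟨δ, δ0, hδ⟩ : ∃ δ > (0 : ℝ), ∀ y ∈ B, ∀ z ∈ K, δ ≤ dist y z := by
    obtain ⟨δ, δ0, e⟩ := d.exists_cthickenings hB hK.isClosed
    exact ⟨δ, δ0, fun y hy z hz => le_of_not_gt fun u => Set.disjoint_left.1 e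
      (Metric.mem_cthickening_of_dist_le z y δ B hy (dist_comm y z ▸ u.le))
      (Metric.self_subset_cthickening K hz)⟩
  have δ2 : 0 < min (δ / 3) 1 := by positivity
  obtain ⟨j, ⟨w, w0, H⟩, j1⟩ := (H.and (o.ev_L (128 / min (δ / 3) 1))).exists
  obtain ⟨e, he⟩ := pow_unbounded_of_one_lt (2 * (2 * R + 1) + 6) (show (1 : ℝ) < 3 by norm_num)
  refine ⟨(2 * R + 1) ^ 3 * (G.mr3 j (3 ^ (G.e j + e)) * exp (3 * G.mr3 j (3 ^ (G.e j + e))) *
    w ^ 3), ?_⟩
  filter_upwards [(L6.ev_fast.2 (.of_forall fun J => ((eventually_ge_atTop _).filter_mono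
    L6.hyp_le).mono fun s hs => ⟨s, hs, Nat.two_mul_div_two_add_one_of_odd (odd3 s)⟩) :
      ∀ᶠ p in L6.fast, ∃ s, e + 1 ≤ s ∧ 2 * p.1 + 1 = 3 ^ s), L6.fast_le
    (tendsto_snd.eventually_ge_atTop (j + 3)), L6.fast_le
    ((h.lims hβ atTop).2.2.eventually_ge_atTop (10 ^ 37))] with p ⟨s, s0, m1⟩ p1 p2 f L hf hL
  obtain ⟨o', -⟩ := h p.1
  have a0 := G.aa_pos p
  have a1 : G.aa p * 3 ^ (G.wm p.1).e p.2 = 1 := inv_mul_cancel₀ (by positivity)
  have hj : j ≤ p.2 := by omega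
  have cu : ∀ i y, f i y ≠ 0 → ∀ l, |y l| ≤ R := fun i y u l =>
    (PiLp.norm_apply_le y l).trans (hR y (by have := hf i y u; split_ifs at this <;> simp [this]))
  choose g g1 g2 g3 g4 using fun i => nrm_lip1 R0.le (hL i) (cu i)
  have := o'.bd_one (m := 3 ^ (s - e)) (u := 3 ^ (G.e j + e)) (f := g) (Λ := 2 * R + 1) (hβ p).b0 hj
    w0 (by
      rw [← pow_add, show s - e + (G.e j + e) = s + G.e j by omega, pow_add, ← m1]; rfl)
    (le_self_pow₀ (by norm_num) (by omega)) a1 ((mul_le_mul_of_nonneg_left (by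
      rw [le_div_iff₀ a0] at p2; linarith) (by positivity)).trans (ta_le (p := p) (by omega) j))
    (H _ _ _ (hβ p) (by omega)) (fun i => t1_of (by linarith) (fun y u l =>
      (cu i y (g2 i y u) l).trans (by linarith)) (g3 i) fun y z => (g4 i y z).trans
        (le_mul_of_one_le_left dist_nonneg (by linarith))) (fun i hi y z hy hz => by
      by_contra! c
      have b1 := hf i y (g2 i y hy)
      have b2 := hf 2 z (g2 2 z hz)
      rw [if_neg hi] at b1
      linarith [dist_le_two fun l => (c l).le, hδ y b1 z b2, min_le_left (δ / 3) 1])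
    (min_le_right _ _) ((div_le_iff₀' δ2).1 j1) (by
      have := o'.rt_a hj a1
      push_cast
      rw [pow_add, ← mul_assoc, ← mul_assoc, mul_comm (G.aa p)]
      exact he.le.trans ((one_mul _).ge.trans (congrArg (· * _) this).ge))
  rw [funext g1, corr_smul, abs_mul, abs_of_nonneg (by positivity), mul_comm]
  exact mul_le_mul_of_nonneg_right this (by positivity)

/-- the form which is used for the trace anomaly -/
theorem Oks.tri_bd (h : G.Oks) (hβ : G.Tus β) (H : G.Ov2) {l : Filter (ℕ × ℕ)} (hl : l ≤ L6.fast)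
    (g : R4 → ℝ) (B : Set R4) (hg : S3.Ds Set.univ g) (hB : IsCompact B)
    (d : Disjoint B (tsupport g)) : ∃ C : ℝ, ∀ a f (La Lf : ℝ≥0), S3.Ds B a → S3.Ds B f →
      LipschitzWith La a → LipschitzWith Lf f → ∀ᶠ p in l,
        |YM7.corr (Fi.tr haar) (β p) (G.nn p) (G.aa p) ![a, f, g]| ≤ C * La * Lf := by
  obtain ⟨C, hC⟩ := h.bd3 hβ H hB hg.2.1 d
  obtain ⟨L, hL⟩ := hg.1.lipschitzWith_of_hasCompactSupport hg.2.1 (by simp)
  refine ⟨C * L, fun a f La Lf ha hf la lf => (hC.filter_mono hl).mono fun p e =>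
    (e _ ![La, Lf, L] (fun i y u => ?_) fun i => ?_).trans_eq ?_⟩
  · fin_cases i
    exacts [ha.2.2 (subset_tsupport _ u), hf.2.2 (subset_tsupport _ u), subset_tsupport _ u]
  · fin_cases i
    exacts [la, lf, hL]
  · simp [Fin.prod_univ_three]
    ring

end Pool.Agent.Lib.MP_7f377f_mp.RG.Q4.En.Gl
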