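import Pool.Agent.Lib.MP_7f377f_mp.G.Q5CmC

/-! Families with overlapping sources: the flow through many levels. -/

noncomputable section

open Pool.Agent.Lib.MP_7f377f_mp.Jet

set_option linter.unusedSectionVars false
variable [Pool.Agent.Lib.MP_7f377f_mp.GD]

namespace Pool.Agent.Lib.MP_7f377f_mp.RG.Q4.En

open Finset Real Sg Pos
open scoped Classical

variable {ι κ : Type} [DecidableEq ι] [DecidableEq κ] {A T : Finset ι} {r r' r0 : ι → ℝ}
  {P P' B : ι → Prop} {ψ : (ι → ℂ) → Lx} {K : (ι → ℂ) → Ac} {cl : ι → κ} {p : Pa} {n c : ℕ}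
  {Z : ι → Finset St} {s : ι → ℂ} {x y w β b d θ Q g μ : ℝ}

/-- the jets which are seen at a site -/
def Tch (n : ℕ) (A : Finset ι) (Z : ι → Finset St) (T : Finset ι) : Prop :=
  ∃ v, T ⊆ tch A Z {rc n v}

omit [DecidableEq ι] in
theorem Tch.sub (h : Tch n A Z T) : T ⊆ A := h.choose_spec.trans (filter_subset _ _)

omit [DecidableEq ι] in
theorem Tch.meet (h : Tch n A Z T) {i j : ι} (hi : i ∈ T) (hj : j ∈ T) : ¬ Disjoint (Z i) (Z j) :=
  let ⟨v, e⟩ := h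
  not_disjoint_iff.2 ⟨rc n v, by simpa using (mem_tch.1 (e hi)).2,
    by simpa using (mem_tch.1 (e hj)).2⟩

omit [DecidableEq ι] in
theorem sum_pw {D : Finset ι} {a : Finset ι → ℝ} (hc : D.card ≤ c) (x0 : 0 ≤ x)
    (e : ∀ T ⊆ D, a T ≤ x) : ∑ T ∈ D.powerset, a T ≤ 2 ^ c * x := by
  refine (sum_le_card_nsmul _ _ _ fun T hT => e T (mem_powerset.1 hT)).trans ?_
  rw [card_powerset, nsmul_eq_mul, Nat.cast_pow, Nat.cast_ofNat]
  gcongr
  norm_num

namespace ML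

variable (h : ML n A Z ψ) (h0 : 0 < p.ρ)
include h h0

theorem pm_ex (e : ∀ T ⊆ A, ∃ b, PU p b (jL T ψ)) (s : ι → ℂ) : ∃ x y w, PM p x y w (ψ s) := by
  choose! β a using e
  have q : ∀ T ⊆ A, 0 ≤ (∏ i ∈ T, (‖s i‖ + 1)) * β T := fun T hT =>
    mul_nonneg (prod_nonneg fun _ _ => by positivity) ((a T hT).nonneg h0.le)
  exact (h.pu (r := fun i => ‖s i‖ + 1) (β := fun T _ => β T) h0 (fun _ => lt_add_one _)
    (fun T hT => ⟨_, a T hT⟩) (fun T hT => (a T hT).2) fun v => sum_le_sum_of_subset_of_nonneg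
      (powerset_mono.2 (filter_subset _ A)) fun T hT _ => q T (mem_powerset.1 hT)).1

/-- the effect of the sources with property `P` from the sizes of the jets -/
theorem pm_jet (hc : ∀ v, (tch A Z {rc n v}).card ≤ c) (x0 : 0 ≤ x) (y0 : 0 ≤ y) (w0 : 0 ≤ w)
    (a : ∀ T, Tch n A Z T → (∃ i ∈ T, P i) →
      PM p (x / ∏ i ∈ T, r i) (y / ∏ i ∈ T, r i) (w / ∏ i ∈ T, r i) (jL T ψ)) (hs : s ∈ Pd r) :
    PM p (2 ^ c * x) (2 ^ c * y) (2 ^ c * w) (ψ s - ψ (off P s)) := fun v => by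
  have r0 : ∀ T : Finset ι, 0 < ∏ i ∈ T, r i := fun T =>
    prod_pos fun i _ => (norm_nonneg _).trans_lt (hs i)
  have k : ∀ T ∈ (tch A Z {rc n v}).powerset, Ps p.R 6 p.ρ x y w
      (fun B => mon T s * (if ∃ i ∈ T, P i then jL T ψ v else 0) B) ∧
      Measurable fun B => mon T s * (if ∃ i ∈ T, P i then jL T ψ v else 0) B := fun T hT => by
    split_ifs with e
    · have u := a T ⟨v, mem_powerset.1 hT⟩ e v
      have m : ∀ {x : ℝ}, 0 ≤ x → ‖mon T s‖ * (x / ∏ i ∈ T, r i) ≤ x := fun x0 =>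
        (mul_le_mul_of_nonneg_right (mon_le hs T) (div_nonneg x0 (r0 T).le)).trans_eq
          (mul_div_cancel₀ _ (r0 T).ne')
      exact ⟨(u.1.smul h0 _).1.mono' h0 (m x0) (m y0) (m w0), u.2.const_mul _⟩
    · simp only [Pi.zero_apply, mul_zero]
      exact ⟨(pm_zero h0 v).1.mono' h0 x0 y0 w0, measurable_const⟩
  have : (ψ s - ψ (off P s)) v = fun B => ∑ T ∈ (tch A Z {rc n v}).powerset,
      mon T s * (if ∃ i ∈ T, P i then jL T ψ v else 0) B := by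
    rw [Pi.sub_apply, h.eq', h.eq', ma_off]
    ext B
    simp only [Jet.ma, Finset.sum_apply, Pi.smul_apply, smul_eq_mul]
  rw [this]
  exact ⟨(Ps.sum _ h0 fun T hT => (k T hT).1).1.mono' h0 (sum_pw (hc v) x0 fun _ _ => le_rfl)
    (sum_pw (hc v) y0 fun _ _ => le_rfl) (sum_pw (hc v) w0 fun _ _ => le_rfl),
    measurable_sum _ fun T hT => (k T hT).2⟩

/-- the values with the sources `P` switched off from the values of the jets -/
theorem pu_jet (hc : ∀ v, (tch A Z {rc n v}).card ≤ c) (e : ∀ T ⊆ A, ∃ b, PU p b (jL T ψ))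
    (a : PU p b (ψ 0)) (β0 : 0 ≤ β) (a' : ∀ T, Tch n A Z T → T.Nonempty → (∀ i ∈ T, ¬ P i) →
      PU p (β / ∏ i ∈ T, r i) (jL T ψ)) (hs : s ∈ Pd r) : PU p (b + 2 ^ c * β) (ψ (off P s)) := by
  refine ⟨h.pm_ex h0 e _, fun v B h1 h2 => ?_⟩
  have r0 : ∀ T : Finset ι, 0 < ∏ i ∈ T, r i := fun T =>
    prod_pos fun i _ => (norm_nonneg _).trans_lt (hs i)
  rw [h.eq]
  refine (norm_sum_le_of_le _ (n := fun T => (if T = ∅ then b else 0) + β) fun T hT => ?_).trans ?_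
  · rw [mon_off]
    split_ifs with u u' u'
    · simpa using add_nonneg (a.nonneg h0.le) β0
    · simpa using β0
    · subst u'
      simpa [mon, jL_empty] using (a.2 v B h1 h2).trans (le_add_of_nonneg_right β0)
    · rw [zero_add]
      exact (norm_mul_le_of_le (mon_le hs T) ((a' T ⟨v, mem_powerset.1 hT⟩
        (nonempty_iff_ne_empty.2 u') fun i hi k => u ⟨i, hi, k⟩).2 v B h1 h2)).trans_eq
          (mul_div_cancel₀ _ (r0 T).ne')
  · rw [sum_add_distrib, sum_ite_eq', if_pos (empty_mem_powerset _)]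
    exact add_le_add le_rfl (sum_pw (hc v) β0 fun _ _ => le_rfl)

omit h0 in
theorem off_congr {v : St} (e : ∀ i ∈ A, rc n v ∈ Z i → (P i ↔ P' i)) :
    ψ (off P s) v = ψ (off P' s) v := by
  rw [h.eq', h.eq']
  refine sum_congr rfl fun T hT => congrArg (· • _) (prod_congr rfl fun i hi => ?_)
  have := mem_tch.1 (mem_powerset.1 hT hi)
  simp only [off, e i this.1 (by simpa using this.2)]

end ML

/-- the values of the family from the masses of the sources with property `P` -/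
theorem Fi.pu_mas3 (F : Fi p n A Z r θ ψ K) (h0 : 0 < p.ρ) (g0 : 0 < g) (hn : Odd n)
    (hc : Cls n d A cl Z) (d0 : 0 < d) (μ0 : 0 ≤ μ) (hz : ∀ a, ∃ z : Mz, z.Ok ∧
      z.mass p n Q g ≤ μ ∧ z.Fam p n r (fun i => P i ∧ cl i = a) ψ K) (hs : s ∈ Pd r)
    (a : PU p b (ψ (En.off P s))) : PU p (b + (3 * cG * p.ρ ^ 2 + g ^ 2) * μ) (ψ s) := by
  have c0 := GD.cG_pos
  refine ⟨F.ml.pm_ex h0 F.pu _, fun v B h1 h2 => ?_⟩
  by_cases e : ∃ i ∈ A, rc n v ∈ Z i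
  · obtain ⟨i, hi, e⟩ := e
    obtain ⟨z, o, q, q'⟩ := hz (cl i)
    have u : ψ s v = ψ (En.off P s) v + (ψ s - ψ (En.off (fun j => P j ∧ cl j = cl i) s)) v := by
      rw [Pi.sub_apply, F.ml.off_congr (P' := P) fun j hj k =>
        and_iff_left (one_cluster hc d0 hj hi k e), add_sub_cancel]
    rw [u]
    refine norm_add_le_of_le (a.2 v B h1 h2) ((((q' s hs).ps v).bd h1 h2 le_rfl).trans ?_)
    have := (o.le_mass (p := p) (Q := Q) (g := g) (rc_mem hn v)).trans q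
    have := o.xb (rc n v)
    have := o.xk (rc n v)
    have q1 := div_nonneg (o.xr (rc n v)) (sq_nonneg g)
    have q2 : z.xr (rc n v) ≤ g ^ 2 * μ := (div_le_iff₀' (by positivity)).1 (by linarith)
    rw [div_self h0.ne']
    nlinarith [mul_le_mul_of_nonneg_right (show z.xb (rc n v) + z.xk (rc n v) ≤ μ by linarith)
      (mul_nonneg c0.le (sq_nonneg p.ρ))]
  · rw [← F.ml.off_eq (P := P) fun i hi _ k => e ⟨i, hi, k⟩]
    exact (a.2 v B h1 h2).trans (le_add_of_nonneg_right (by positivity))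

omit [DecidableEq ι] in
theorem off_false : off (fun _ => False) s = s := funext fun _ => if_neg id

namespace Gl

variable {G : Gl} {J i j k l : ℕ} {z : En.Z} {Y : Fy ι} {ν u ω : ℝ} {f : (ι → ℂ) → Conf → ℂ}

theorem Fd.les3 {r1 : ι → ℝ} (F : G.Fd k z A r0 r θ Y f) (p : ∀ x, 0 < r1 x)
    (e : ∀ x, r1 x ≤ r0 x) : G.Fd k z A r1 r θ Y f :=
  have q : ∀ {f : (ι → ℂ) → Conf → ℂ}, HD r0 f → HD r1 f := fun h =>
    ⟨h.1.imp fun _ a U => (a U).shrink p e, fun s hs => h.2 s fun x => (hs x).trans_le (e x)⟩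
  ⟨F.fi, F.ma, q F.eq.fst, q F.eq.snd, F.eq.eq⟩

namespace Ok

variable (h : G.Ok)
include h

theorem ms_pu3 (F : Fi (G.p k) (G.N k) A Y.Z r θ Y.ψ Y.K) (hc : Cls (G.N k) d A cl Y.Z)
    (d0 : 0 < d) (ν0 : 0 ≤ ν) (m : ∀ a, G.Ms k r (fun i => P i ∧ cl i = a) ν Y.ψ Y.K)
    (hs : s ∈ Pd r) (a : PU (G.p k) b (Y.ψ (off P s))) :
    PU (G.p k) (b + G.Q k ^ 7 * ν) (Y.ψ s) := by
  have g0 := h.g0 k
  have e : G.g k ^ 2 * (G.bb k * ν) = ν := by rw [mul_left_comm, ← mul_assoc, h.bg, one_mul]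
  have m' := fun a => (m a).imp fun _ u => And.intro u.1 (And.intro
    (le_of_mul_le_mul_left (u.2.1.trans e.ge) (by positivity)) u.2.2)
  have b0 := mul_nonneg (h.b0 k).le ν0
  refine pu_mono (F.pu_mas3 (h.ρ0 k) g0 (h.N_odd k) hc d0 b0 m' hs a) (add_le_add le_rfl ?_)
  change (3 * cG * (G.Q k ^ 3 * G.g k) ^ 2 + _) * _ ≤ _
  rw [show (3 * cG * (G.Q k ^ 3 * G.g k) ^ 2 + G.g k ^ 2) * (G.bb k * ν) =
    (3 * cG * G.Q k ^ 6 + 1) * (G.g k ^ 2 * (G.bb k * ν)) by ring, e]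
  have q : 1000 * cG * G.Q k ^ 6 ≤ G.Q k ^ 7 := En.qpg (h.sl_all k (G.top0 0 0)).nu (by norm_num)
  have q' := one_le_mul_of_one_le_of_one_le GD.cG1 (one_le_pow₀ (n := 6) (h.Q1 k))
  exact mul_le_mul_of_nonneg_right (by linarith) ν0

/-- the mass from the sizes of the effect of the sources -/
theorem ms_ini3 {Y0 : Finset St} {V : ℝ} (F : Fi (G.p k) (G.N k) A Y.Z r (G.Q k ^ 329)⁻¹ Y.ψ Y.K)
    (u0 : 0 ≤ u) (pm : ∀ s ∈ Pd r, PM (G.p k) u (G.Q k ^ 2 * u) (u * G.g k ^ 2)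
      (Y.ψ s - Y.ψ (off P s))) (hY : ∀ x ∈ A, P x → Y.Z x ⊆ Y0) (hV : Y0.card ≤ V)
    (h1 : V ≤ G.Q k ^ 50) (h2 : G.Q k ^ 223 * (V * u) ≤ G.bb k) :
    G.Ms k r P (G.Q k ^ 220)⁻¹ Y.ψ Y.K := by
  have q := h.Q0 k
  have g0 := h.g0 k
  obtain ⟨d, d1, d2⟩ := F.km
  have y0 : 0 ≤ G.Q k ^ 2 * u := by positivity
  have w0 : 0 ≤ u * G.g k ^ 2 := by positivity
  obtain ⟨m, o, m1, m2⟩ := mass_init (ι := ι) (A := A) (Z := Y.Z) (r := r) (Q := G.Q k)
    (g := G.g k) (h.ρ0 k) d1 u0 y0 w0 Y0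
  refine ⟨m, o, (mul_le_mul_of_nonneg_left (m1.trans (mul_le_mul_of_nonneg_right hV
    (add_nonneg (add_nonneg (add_nonneg u0 y0) (div_nonneg w0 (sq_nonneg _))) (mul_pos (div_pos
      (pow_pos q _) (pow_pos g0 _)) (mul_pos two_pos (inv_pos.2 (pow_pos q _)))).le)))
    (sq_nonneg _)).trans ?_, m2 _ _ _ P F hY d2 pm⟩
  have V0 : 0 ≤ V := (Nat.cast_nonneg _).trans hV
  have a1 : G.g k ^ 2 * (V * u) ≤ (G.Q k ^ 223)⁻¹ := by
    rw [← one_div, le_div_iff₀' (by positivity), ← h.bg k, mul_left_comm, mul_comm]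
    exact mul_le_mul_of_nonneg_right h2 (sq_nonneg _)
  have e1 := h.pw_inv k (i := 50) (j := 279) (l := 329) rfl
  have e2 := h.pw_inv k (i := 50) (j := 229) (l := 279) rfl
  have e3 := h.pw_inv k (i := 2) (j := 221) (l := 223) rfl
  have := inv_pos.2 (pow_pos q 279)
  generalize (G.Q k ^ 329)⁻¹ = u1 at *
  generalize (G.Q k ^ 279)⁻¹ = u2 at *
  generalize (G.Q k ^ 223)⁻¹ = u3 at *
  calc _ = (1 + G.Q k ^ 2 + 1) * (G.g k ^ 2 * (V * u)) + 2 * V * u2 := by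
        rw [← e1]; field_simp
    _ ≤ (G.Q k ^ 2 + G.Q k ^ 2 + G.Q k ^ 2) * u3 + 2 * G.Q k ^ 50 * u2 := by
      have : 1 ≤ G.Q k ^ 2 := one_le_pow₀ (h.Q1 k)
      gcongr
    _ = 3 * (G.Q k ^ 221)⁻¹ + 2 * (G.Q k ^ 229)⁻¹ := by rw [← e2, ← e3]; ring
    _ ≤ _ := by
      linarith [h.inv_le k (show 220 < 221 by norm_num), h.inv_le k (show 220 < 229 by norm_num),
        inv_pos.2 (pow_pos q 220)]

/-- the mass contracts by the size of the blocks while the radii are doubled -/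
theorem ms_stp3 (t : G.Ad J k z) (pu : ∀ s ∈ Pd r, PU (G.p (k + 1)) (G.Q k ^ 210)⁻¹ (Y.ψ s))
    (hc : Cls (G.N k) ((2 * c + 2) * (G.p k).D) A cl (G.fs A k z Y).Z)
    (hk : ∀ a, (A.filter (cl · = a)).card ≤ c) (hL : 1000 * 3 ^ c ≤ G.L k)
    (e : ∀ x, r' x ≤ 2 * r x)
    (F : Fi (G.p (k + 1)) (G.N (k + 1)) A Y.Z r (G.Q (k + 1) ^ 329)⁻¹ Y.ψ Y.K)
    (m : G.Ms (k + 1) r P ν Y.ψ Y.K) :
    G.Ms k r' P (ν / (100 * G.L k)) (G.fs A k z Y).ψ (G.fs A k z Y).K := by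
  have ν0 := m.nn
  obtain ⟨m, o, m1, m2⟩ := h.ms_sd m z
  obtain ⟨d, d1, d2⟩ := h.sml_big F z
  obtain ⟨b1, b2, b3⟩ := h.big_le k
  have d3 := d1.mono (show _ ≤ 5 * (G.Q k ^ 329)⁻¹ by linarith [inv_pos.2 (pow_pos (h.Q0 k) 329)])
  obtain ⟨m', o', q1, q2⟩ := mass_fam (m := 2 * c) (h.sd_all k z).nu (h.st2 t.tz) hc
    (by push_cast; exact le_rfl) hk zero_le_two (by push_cast; linarith) e t.pu (h.bl_big k z) b2
    d3 o
  obtain ⟨q3, -⟩ := q2 _ _ _ _ P (h.fi_sd F z) (fun s hs => ⟨b1, b3, pu s hs, d2 s hs, d3⟩) m2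
  refine h.ms_of o' ((mul_le_mul_of_nonneg_left q1 (sq_nonneg _)).trans ?_) q3
  have μ0 := o.mass_nn (p := (G.sd k z).p) (n := (G.sd k z).nf) (Q := (G.sd k z).Q)
    (g := (G.sd k z).g)
  generalize m.mass _ _ _ _ = μ at *
  have L1 := h.L1 k
  have a : (1000 * 3 ^ c : ℝ) ≤ G.L k := by exact_mod_cast hL
  have e : ((1 : ℝ) + 2) ^ c * (4 / (G.L k : ℝ) ^ 2) ≤ (200 * G.L k : ℝ)⁻¹ := by
    rw [← mul_div_assoc, div_le_iff₀ (by positivity), le_inv_mul_iff₀ (by positivity),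
      show (1 : ℝ) + 2 = 3 by norm_num]
    nlinarith
  change _ * (_ * (4 / (G.L k : ℝ) ^ 2 * μ)) ≤ _
  rw [← mul_assoc _ _ μ]
  refine (mul_le_mul (h.g_up k) (mul_le_mul_of_nonneg_right e μ0) (by positivity)
    (by positivity)).trans ?_
  rw [le_div_iff₀ (by positivity)]
  have : (200 * G.L k : ℝ)⁻¹ * (100 * G.L k) = 2⁻¹ := by field_simp; norm_num
  calc _ = 1001 / 1000 * ((200 * G.L k : ℝ)⁻¹ * (100 * G.L k)) * (G.g (k + 1) ^ 2 * μ) := by ring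
    _ ≤ _ := by rw [this]; linarith

end Ok

variable (G)

/-- the geometry: the classes are separated, contain at most one big source, and their small
sources live in a small set at level `l` -/
structure Geo3 (A : Finset ι) (B : ι → Prop) (cl : ι → κ) (c : ℕ) (W : ι → Finset St)
    (i l j : ℕ) : Prop where
  grp : ∀ k, j ≤ k → k ≤ i → Cls (G.N k) ((2 * c + 2) * (G.p k).D) A cl fun a => G.zs (W a) i k
  uni : ∀ x ∈ A, ∀ y ∈ A, B x → B y → cl x = cl y → x = y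
  card : ∀ a, (A.filter (cl · = a)).card ≤ c
  big : 1000 * 3 ^ c ≤ G.L j
  vol : ∀ a, ∃ Y : Finset St, (Y.card : ℝ) ≤ G.Q l ^ 50 ∧
    ∀ x ∈ A, ¬ B x → cl x = a → G.zs (W x) i l ⊆ Y

/-- base points `H`, directions `v` and radii `r` along the run from level `J`, between the
levels `i` and `j`; below the level `l` only the big sources are controlled -/
structure Ow3 (A : Finset ι) (B : ι → Prop) (b : ℝ) (J i l j : ℕ) (r0 : ι → ℝ) (r : ℕ → ι → ℝ)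
    (H : ℕ → Lx × Ac) (v : ι → ℕ → Lx × Ac) (N : ℕ → ℝ) (f : ℕ → (ι → ℂ) → Conf → ℂ) : Prop where
  hs : ∀ k, j ≤ k → k < i → H k = G.hs k (G.zz b J (k + 1)) (H (k + 1))
  bz : ∀ k, j ≤ k → k ≤ i → G.Bz k (H k)
  tt : ∀ k, j ≤ k → k < i → f k = fun s => TT (G.l k) (G.a k) (G.N k) (f (k + 1) s)
  ts : ∀ k, j ≤ k → k < i → ∀ x ∈ A, v x k = G.ts k (G.zz b J (k + 1)) (H (k + 1)) (v x (k + 1))
  rad : ∀ k, j ≤ k → k ≤ i → ∀ x, r0 x ≤ r k x ∧ (k < i → r k x ≤ 2 * r (k + 1) x)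
  sz : ∀ k, l ≤ k → k ≤ i → 0 ≤ N k ∧ G.Q k ^ 224 * N k ≤ G.bb k ∧
    ∀ x ∈ A, G.Sz k (N k / r k x) (N k / r k x) (G.Q k ^ 100)⁻¹ (v x k).1 (v x k).2
  vol : G.Q l ^ 274 * N l ≤ G.bb l
  big : ∀ k, j ≤ k → k ≤ l → ∀ x ∈ A, B x → PU (G.p k) ((G.Q k ^ 214)⁻¹ / r k x) (v x k).1

/-- the family at level `n` -/
structure On (A : Finset ι) (b : ℝ) (J : ℕ) (r0 : ι → ℝ) (r : ℕ → ι → ℝ) (H : ℕ → Lx × Ac)
    (v : ι → ℕ → Lx × Ac) (f : ℕ → (ι → ℂ) → Conf → ℂ) (Y : ℕ → Fy ι) (n : ℕ) : Prop where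
  fd : G.Fd n (G.zz b J n) A r0 (r n) (G.Q n ^ 329)⁻¹ (Y n) (f n)
  bs : (Y n).bs = H n
  jt : ∀ x ∈ A, (Y n).jt {x} = v x n

/-- the family lies in the large ball -/
def Pn (r : ℕ → ι → ℝ) (Y : ℕ → Fy ι) (n : ℕ) : Prop :=
  ∀ s ∈ Pd (r n), PU (G.p n) (G.Q n ^ 211)⁻¹ ((Y n).ψ s)

/-- the higher jets are bounded as long as the family is under control -/
def J2 (A : Finset ι) (b : ℝ) (J i l : ℕ) (r0 : ι → ℝ) (r : ℕ → ι → ℝ) (H : ℕ → Lx × Ac)
    (v : ι → ℕ → Lx × Ac) (N : ℕ → ℝ) (f : ℕ → (ι → ℂ) → Conf → ℂ) (Y : ℕ → Fy ι) : Prop :=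
  ∀ k, l ≤ k → k ≤ i → (∀ n, k ≤ n → n ≤ i → G.On A b J r0 r H v f Y n) →
    (∀ n, k < n → n ≤ i → G.Pn r Y n) → ∀ T, Tch (G.N k) A (Y k).Z T → 2 ≤ T.card →
      G.Sz k (N k / ∏ x ∈ T, r k x) (N k / ∏ x ∈ T, r k x) (G.Q k ^ 100)⁻¹ ((Y k).jt T).1
        ((Y k).jt T).2

/-- the mass of the small sources at level `k` -/
def nu3 (l k : ℕ) : ℝ := (G.Q l ^ 220)⁻¹ / (100 ^ (l - k) * G.rt l k)

/-- the properties of the flow -/
structure Fo3 (A : Finset ι) (B : ι → Prop) (cl : ι → κ) (b : ℝ) (J i l j : ℕ) (r0 : ι → ℝ)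
    (r : ℕ → ι → ℝ) (H : ℕ → Lx × Ac) (v : ι → ℕ → Lx × Ac) (f : ℕ → (ι → ℂ) → Conf → ℂ)
    (Y : ℕ → Fy ι) : Prop where
  st : ∀ n < i, Y n = G.fs A n (G.zz b J (n + 1)) (Y (n + 1))
  on : ∀ n, j ≤ n → n ≤ i → G.On A b J r0 r H v f Y n
  pu : ∀ n, j ≤ n → n ≤ i → G.Pn r Y n
  ms : ∀ n, j ≤ n → n ≤ l → ∀ a,
    G.Ms n (r n) (fun x => ¬ B x ∧ cl x = a) (G.nu3 l n) (Y n).ψ (Y n).K
  tl : ∀ n, j ≤ n → n ≤ l → ∀ T : Finset ι, (∃ x ∈ T, ¬ B x) → ∀ ρ > (0 : ℝ),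
    (∀ k, j ≤ k → k ≤ n → ρ ≤ ∏ x ∈ T, r k x) →
      ‖jd T (Y j).E - jd T (Y n).E‖ ≤ (100 ^ (l - n) * G.rt l n : ℝ)⁻¹ / ρ

variable {G} {r : ℕ → ι → ℝ} {H : ℕ → Lx × Ac} {v : ι → ℕ → Lx × Ac} {N : ℕ → ℝ}
  {f : ℕ → (ι → ℂ) → Conf → ℂ} {W : ι → Finset St} {m : ℕ}

omit [DecidableEq ι] in
theorem Geo3.down (g : G.Geo3 A B cl c W i l j) (hi : m ≤ i) (hl : l ≤ m) :
    G.Geo3 A B cl c (fun a => G.zs (W a) i m) m l j :=
  ⟨fun k a b => by simpa only [zs_zs hi b] using g.grp k a (b.trans hi), g.uni, g.card, g.big,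
    by simpa only [zs_zs hi hl] using g.vol⟩

namespace Ok

variable (h : G.Ok)
include h

theorem nu3_pos (l k : ℕ) : 0 < G.nu3 l k :=
  div_pos (inv_pos.2 (pow_pos (h.Q0 l) _)) (mul_pos (by positivity) (rt_pos l k))

theorem nu3_step (hk : k < l) : G.nu3 l k = G.nu3 l (k + 1) / (100 * G.L k) := by
  rw [nu3, nu3, h.rt_step hk, show l - k = l - (k + 1) + 1 by omega, div_div, pow_succ,
    Nat.cast_mul]
  ring

theorem nu3_le (hk : k ≤ l) : G.nu3 l k ≤ (G.Q k ^ 220)⁻¹ :=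
  (div_le_self (inv_pos.2 (pow_pos (h.Q0 l) _)).le (one_le_mul_of_one_le_of_one_le
    (one_le_pow₀ (by norm_num)) (Nat.one_le_cast.2 (Nat.one_le_pow _ _ three_pos)))).trans
      (h.inv_up hk _)

theorem pn_up {Y : ℕ → Fy ι} (e : G.Pn r Y (k + 1)) :
    ∀ s ∈ Pd (r (k + 1)), PU (G.p (k + 1)) (G.Q k ^ 210)⁻¹ ((Y (k + 1)).ψ s) := fun s hs =>
  pu_mono (e s hs) (by
    linarith [h.inv_up k.le_succ 211, h.inv_le k (show 210 < 211 by norm_num),
      inv_pos.2 (pow_pos (h.Q0 k) 211)])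

theorem two_le (g : 1000 * 3 ^ c ≤ G.L j) (hk : j ≤ k) : (2 : ℝ) ^ c ≤ G.Q k := by
  have e : (1000 * 3 ^ c : ℝ) ≤ G.L j := by exact_mod_cast g
  linarith [h.LQ j, h.Q_mono hk, pow_le_pow_left₀ zero_le_two (show (2 : ℝ) ≤ 3 by norm_num) c,
    pow_pos (two_pos (α := ℝ)) c]

theorem cD_pos (c k : ℕ) : (0 : ℝ) < (2 * c + 2) * (G.p k).D := by have := h.D_pos k; positivity

section

variable (t : G.Tu b J) (hp : G.Pu) (hi : i ≤ J) (ow : G.Ow3 A B b J i l j r0 r H v N f)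
  (hc : ∀ a, (A.filter (cl · = a)).card ≤ c) (hL : 1000 * 3 ^ c ≤ G.L j)
include t hp hi ow hc hL

theorem on_step (p0 : ∀ x, 0 < r0 x) (a : j ≤ k) (a' : k < i)
    (c1 : Cls (G.N k) ((2 * c + 2) * (G.p k).D) A cl (G.fw A b J Y i k).Z)
    (o : G.On A b J r0 r H v f (G.fw A b J Y i) (k + 1)) (q : G.Pn r (G.fw A b J Y i) (k + 1)) :
    G.On A b J r0 r H v f (G.fw A b J Y i) k := by
  have ad := h.ad t (a'.trans_le hi) (h.pu_all t hp k (by omega))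
  rw [fw_step a'] at c1
  refine ⟨?_, by rw [fw_step a', fs_bs, o.bs, ow.hs k a a'], fun x hx => by
    rw [fw_step a', h.fs_jt ad.tz o.fd.fi hx, o.bs, o.jt x hx, ow.ts k a a' x hx]⟩
  rw [fw_step a', ow.tt k a a', zz_step _ (a'.trans_le hi)]
  exact h.fam2 ad (h.pn_up q) c1 hc (hL.trans (h.L_mono a)) (fun x => (ow.rad k a a'.le x).2 a') o.fd
    (fun x => (ow.rad _ (by omega) a' x).1) fun x => (p0 x).trans_le (ow.rad k a a'.le x).1

/-- the flow above the level `l` -/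
theorem flow3u (hj : j ≤ l)
    (C : ∀ k, l ≤ k → k ≤ i → Cls (G.N k) ((2 * c + 2) * (G.p k).D) A cl fun a => G.zs (Y.Z a) i k)
    (e : G.Fd i (G.zz b J i) A r0 (r i) (G.Q i ^ 329)⁻¹ Y (f i)) (e1 : Y.bs = H i)
    (e2 : ∀ x ∈ A, Y.jt {x} = v x i) (e3 : G.J2 A b J i l r0 r H v N f (G.fw A b J Y i)) :
    ∀ n, l ≤ n → n ≤ i → G.On A b J r0 r H v f (G.fw A b J Y i) n ∧ G.Pn r (G.fw A b J Y i) n ∧
      ∀ T, Tch (G.N n) A (G.fw A b J Y i n).Z T → T.Nonempty →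
        G.Sz n (N n / ∏ x ∈ T, r n x) (N n / ∏ x ∈ T, r n x) (G.Q n ^ 100)⁻¹
          ((G.fw A b J Y i n).jt T).1 ((G.fw A b J Y i n).jt T).2 := by
  have one := fun k a a' => h.on_step (Y := Y) (k := k) t hp hi ow hc hL e.eq.fst.pos a a'
  set X := G.fw A b J Y i with hX
  replace C : ∀ k, l ≤ k → k ≤ i → Cls (G.N k) ((2 * c + 2) * (G.p k).D) A cl (X k).Z :=
    fun k a b => by rw [hX, fw_Z k b]; exact C k a b
  have z : ∀ k, l ≤ k → k ≤ i → (∀ n, k ≤ n → n ≤ i → G.On A b J r0 r H v f X n) →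
      (∀ n, k < n → n ≤ i → G.Pn r X n) → ∀ T, Tch (G.N k) A (X k).Z T → T.Nonempty →
      G.Sz k (N k / ∏ x ∈ T, r k x) (N k / ∏ x ∈ T, r k x) (G.Q k ^ 100)⁻¹ ((X k).jt T).1
        ((X k).jt T).2 := fun k a b o q T hT h1 => by
    rcases (show 1 ≤ T.card from card_pos.2 h1).eq_or_lt with e | e
    · obtain ⟨x, rfl⟩ := card_eq_one.1 e.symm
      have hx := singleton_subset_iff.1 hT.sub
      rw [(o k le_rfl b).jt x hx, prod_singleton]
      exact (ow.sz k a b).2.2 x hx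
    · exact e3 k a b o q T hT e
  have pn : ∀ k, l ≤ k → k ≤ i → (∀ n, k ≤ n → n ≤ i → G.On A b J r0 r H v f X n) →
      (∀ n, k < n → n ≤ i → G.Pn r X n) → G.Pn r X k := fun k a b o q s hs => by
    have F := (o k le_rfl b).fd.fi
    obtain ⟨n0, n1, -⟩ := ow.sz k a b
    have q0 := h.Q0 k
    have := F.ml.pu_jet (P := fun _ => False) (β := G.Q k ^ 10 * (N k + N k) * G.g k ^ 2)
      (h.ρ0 k) (fun _ => tch_one (C k a b) (h.cD_pos c k) hc _) F.pu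
      ((o k le_rfl b).bs ▸ (ow.bz k (by omega) b).1 : PU _ _ (Fy.bs _).1) (by positivity)
      (fun T hT h1 _ => pu_mono (h.sz_pu (z k a b o q T hT h1)
        (mul_inv_cancel₀ (pow_pos q0 _).ne').le) (le_of_eq (by ring))) hs
    rw [off_false] at this
    refine pu_mono this ?_
    have := h.pu_num (k := k) (u := 2 ^ c * N k) (by positivity) (le_trans (by
      rw [pow_succ _ 223, mul_assoc]
      exact mul_le_mul_of_nonneg_left (mul_le_mul_of_nonneg_right (h.two_le hL (by omega)) n0)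
        (by positivity)) n1)
    linarith [h.inv_le k (show 211 < 212 by norm_num), inv_pos.2 (pow_pos q0 212)]
  have I : ∀ k ≤ i, l ≤ k → ∀ n, k ≤ n → n ≤ i → G.On A b J r0 r H v f X n ∧ G.Pn r X n := by
    refine dw_ind (fun a n b1 b2 => ?_) fun k hk ih a n b1 b2 => ?_
    · obtain rfl := b2.antisymm b1
      have o : G.On A b J r0 r H v f X n :=
        ⟨by rwa [hX, fw_top], by rwa [hX, fw_top], by rwa [hX, fw_top]⟩
      exact ⟨o, pn n a le_rfl (fun _ c1 c2 => c2.antisymm c1 ▸ o) fun _ _ _ => by omega⟩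
    · have ih := ih (by omega)
      rcases b1.eq_or_lt with rfl | b1
      · have o := one k (by omega) hk (C k a b2) (ih _ le_rfl hk).1 (ih _ le_rfl hk).2
        exact ⟨o, pn k a b2 (fun n c1 c2 => c1.eq_or_lt.elim (· ▸ o) fun c1 => (ih n c1 c2).1)
          fun n c1 c2 => (ih n c1 c2).2⟩
      · exact ih n b1 b2
  exact fun n a b => have I := I n b a
    ⟨(I n le_rfl b).1, (I n le_rfl b).2, z n a b (fun m a b => (I m a b).1) fun m a b => (I m a.le b).2⟩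

end

/-- the flow of a family with overlapping sources -/
theorem flow3 (t : G.Tu b J) (hp : G.Pu) (hi : i ≤ J) (hl : l ≤ i) (hj : j ≤ l)
    (w : G.Ow3 A B b J i l j r0 r H v N f) (g : G.Geo3 A B cl c Y.Z i l j)
    (e : G.Fd i (G.zz b J i) A r0 (r i) (G.Q i ^ 329)⁻¹ Y (f i)) (e1 : Y.bs = H i)
    (e2 : ∀ x ∈ A, Y.jt {x} = v x i) (e3 : G.J2 A b J i l r0 r H v N f (G.fw A b J Y i)) :
    G.Fo3 A B cl b J i l j r0 r H v f (G.fw A b J Y i) := by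
  have I := h.flow3u t hp hi w g.card g.big hj (fun k a => g.grp k (hj.trans a)) e e1 e2 e3
  have one := fun k a a' => h.on_step (Y := Y) (k := k) t hp hi w g.card g.big e.eq.fst.pos a a'
  set X := G.fw A b J Y i with hX
  have u := h.pu_all t hp
  have C : ∀ k, j ≤ k → k ≤ i → Cls (G.N k) ((2 * c + 2) * (G.p k).D) A cl (X k).Z :=
    fun k a b => by rw [hX, fw_Z k b]; exact g.grp k a b
  have D := h.cD_pos c
  have tc := fun k a b (y : St) => tch_one (C k a b) (D k) g.card (rc (G.N k) y)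
  have ad := fun k (hk : k < i) => h.ad t (hk.trans_le hi) (u k (by omega))
  have st : ∀ k < i, X k = G.fs A k (G.zz b J (k + 1)) (X (k + 1)) := fun _ => fw_step
  have L : ∀ k, j ≤ k → 1000 * 3 ^ c ≤ G.L k := fun k a => g.big.trans (h.L_mono a)
  have bz : ∀ k, j ≤ k → k ≤ i → G.On A b J r0 r H v f X k →
      PU (G.p k) (G.Q k ^ 212)⁻¹ ((X k).ψ 0) := fun k a b o =>
    (o.bs ▸ (w.bz k a b).1 : PU _ _ (Fy.bs _).1)
  have pm : ∀ k, j ≤ k → k ≤ l → G.On A b J r0 r H v f X k → (∀ a, G.Ms k (r k)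
      (fun x => ¬ B x ∧ cl x = a) (G.nu3 l k) (X k).ψ (X k).K) → G.Pn r X k :=
    fun k a b o m s hs => by
      have F := o.fd.fi
      have q0 := h.Q0 k
      have c1 := C k a (b.trans hl)
      refine pu_mono (h.ms_pu3 F c1 (D k) (h.nu3_pos l k).le m hs (F.ml.pu_jet
        (β := (G.Q k ^ 214)⁻¹) (h.ρ0 k) (tc k a (b.trans hl)) F.pu (bz k a (b.trans hl) o)
        (by positivity) (fun T hT ⟨x, hx⟩ h2 => ?_) hs)) ?_
      · have hA := hT.sub
        obtain rfl : T = {x} := eq_singleton_iff_unique_mem.2 ⟨hx, fun y hy =>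
          g.uni y (hA hy) x (hA hx) (not_not.1 (h2 y hy)) (not_not.1 (h2 x hx))
            (by_contra fun e => hT.meet hy hx ((c1 y (hA hy) x (hA hx) e).disj (D k)))⟩
        rw [prod_singleton]
        exact (o.jt x (hA hx) ▸ w.big k a b x (hA hx) (not_not.1 (h2 x hx)) :
          PU _ _ (Fy.jt _ {x}).1)
      · have a1 := mul_le_mul_of_nonneg_right (h.two_le g.big a) (inv_pos.2 (pow_pos q0 214)).le
        have a2 := h.pw_inv k (i := 1) (j := 213) (l := 214) rfl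
        rw [pow_one] at a2
        linarith [mul_le_mul_of_nonneg_left (h.nu3_le b) (pow_pos q0 7).le,
          h.pw_inv k (i := 7) (j := 213) (l := 220) rfl, h.inv_le k (show 211 < 212 by norm_num),
          h.inv_le k (show 212 < 213 by norm_num), inv_pos.2 (pow_pos q0 213)]
  have II : ∀ k ≤ l, j ≤ k → G.On A b J r0 r H v f X k ∧ ∀ a, G.Ms k (r k)
      (fun x => ¬ B x ∧ cl x = a) (G.nu3 l k) (X k).ψ (X k).K := by
    refine dw_ind (fun _ => ⟨(I l le_rfl hl).1, fun a => ?_⟩) fun k hk ih a => ?_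
    · obtain ⟨Y0, y1, y2⟩ := g.vol a
      obtain ⟨n0, -, -⟩ := w.sz l le_rfl hl
      have F := (I l le_rfl hl).1.fd.fi
      have q0 := h.Q0 l
      rw [nu3, Nat.sub_self, rt_top, pow_zero, Nat.cast_one, mul_one, div_one]
      refine h.ms_ini3 (u := 2 ^ c * N l) F (by positivity) (fun s hs => PM.mono (h.ρ0 l)
        (F.ml.pm_jet (x := N l) (y := G.Q l ^ 2 * N l) (w := N l * G.g l ^ 2) (h.ρ0 l)
          (tc l hj hl) n0 (by positivity) (by positivity) (fun T hT ⟨x, hx, _⟩ => PM.mono (h.ρ0 l)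
            ((I l le_rfl hl).2.2 T hT ⟨x, hx⟩).1 le_rfl (le_of_eq (by ring)) ?_) hs) le_rfl (le_of_eq (by ring))
        (le_of_eq (by ring))) (fun x hx a => by rw [hX, fw_Z l hl]; exact y2 x hx a.1 a.2) y1
        le_rfl (le_trans ?_ w.vol)
      · have r1 : 0 < ∏ x ∈ T, r l x := prod_pos fun x _ => F.pos x
        rw [h.pw_inv l (j := 50) rfl, mul_div_right_comm, mul_assoc]
        exact mul_le_of_le_one_left (by positivity) (inv_le_one_of_one_le₀ (one_le_pow₀ (h.Q1 l)))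
      · calc _ = G.Q l ^ 273 * (2 ^ c * N l) := by ring
          _ ≤ G.Q l ^ 273 * (G.Q l * N l) := by gcongr; exact h.two_le g.big hj
          _ = _ := by ring
    · obtain ⟨o, m⟩ := ih (by omega)
      have q := pm _ (by omega) hk o m
      have ki : k < i := by omega
      have c1 := C k a ki.le
      rw [st k ki] at c1
      refine ⟨one k a ki (C k a ki.le) o q, fun x => ?_⟩
      rw [h.nu3_step hk, st k ki]
      exact h.ms_stp3 (ad k ki) (h.pn_up q) c1 g.card (L k a) (fun x => (w.rad k a ki.le x).2 ki)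
        o.fd.fi (m x)
  have on : ∀ n, j ≤ n → n ≤ i → G.On A b J r0 r H v f X n ∧ G.Pn r X n := fun n a b =>
    (le_total l n).elim (fun e => (I n e b).imp_right And.left) fun e =>
      ⟨(II n e a).1, pm n a e (II n e a).1 (II n e a).2⟩
  refine ⟨st, fun n a b => (on n a b).1, fun n a b => (on n a b).2, fun n a b => (II n b a).2,
    fun n a b T ⟨x, hx, hB⟩ ρ ρ0 hρ => ?_⟩
  have q0 := h.Q0 n
  have key : ∀ k ≤ n, j ≤ k → ‖jd T (X k).E - jd T (X n).E‖ ≤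
      2 * G.Q n ^ 10 * (G.nu3 l n - G.nu3 l k) / ρ := by
    refine dw_ind (by simp) fun k hk ih a => ?_
    have ki : k < i := by omega
    obtain ⟨o, q⟩ := on (k + 1) (by omega) ki
    have c1 := C k a ki.le
    rw [st k ki] at c1
    have n0 := h.nu3_pos l (k + 1)
    have := jd_off_le (h.de_hb (ad k ki) o.fd.fi) (h.ms_step (ad k ki) (h.pn_up q) c1 g.card
      (L k a) (fun x => (w.rad k a ki.le x).2 ki) o.fd.fi ((II (k + 1) (by omega)
        (by omega)).2 (cl x))).2 ⟨x, hx, hB, rfl⟩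
    rw [st k ki, h.fs_jd (ad k ki) o.fd.fi (o.fd.hb o.fd.fi.pos), add_sub_right_comm]
    refine (norm_add_le_of_le (ih (by omega)) (this.trans (div_le_div_of_nonneg_left
      (by have := h.Q0 k; positivity) ρ0 (hρ _ (by omega) hk)))).trans ?_
    rw [← add_div]
    refine div_le_div_of_nonneg_right ?_ ρ0.le
    have a1 := mul_le_mul_of_nonneg_right (pow_le_pow_left₀ (h.Q0 k).le (h.Q_mono hk.le) 10) n0.le
    have a2 : G.nu3 l k ≤ G.nu3 l (k + 1) / 2 := by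
      rw [h.nu3_step (show k < l by omega)]
      exact div_le_div_of_nonneg_left n0.le two_pos (by linarith [h.L1 k])
    nlinarith [mul_le_mul_of_nonneg_left a2 (pow_pos q0 10).le]
  refine (key j a le_rfl).trans (div_le_div_of_nonneg_right ((mul_le_mul_of_nonneg_left
    (sub_le_self _ (h.nu3_pos l j).le) (by positivity)).trans ?_) ρ0.le)
  rw [nu3, div_eq_mul_inv, ← mul_assoc]
  refine mul_le_of_le_one_left (by have := rt_pos (G := G) l n; positivity) ?_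
  have := mul_le_mul_of_nonneg_left (h.inv_up b 220) (pow_pos q0 10).le
  have a3 := h.inv_le n (show 0 < 210 by norm_num)
  rw [h.pw_inv n (j := 210) rfl] at this
  rw [pow_zero, inv_one] at a3
  linarith [inv_pos.2 (pow_pos q0 210)]

/-- jets in two sources which do not meet -/
theorem fo3_far {Y : ℕ → Fy ι} (t : G.Tu b J) (hp : G.Pu) (hi : i ≤ J)
    (P : G.Fo3 A B cl b J i l j r0 r H v f Y) (hj : j ≤ m) {x y : ι} (hx : x ∈ T) (hy : y ∈ T)
    (e : ∀ k, m ≤ k → k < i → Disjoint ((Y k).Z x) ((Y k).Z y)) :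
    ∀ k ≤ i, m ≤ k → jd T (Y k).E = jd T (Y i).E :=
  dw_ind (fun _ => rfl) fun k hk ih a => by
    have o := (P.on (k + 1) (by omega) hk).fd
    have d := e k a hk
    have F := (h.fi_sd o.fi (G.zz b J (k + 1))).loc
    have nu := (h.sd_all k (G.zz b J (k + 1))).nu
    rw [P.st k hk] at d ⊢
    rw [h.fs_E (h.pu_all t hp k (by omega)) o, ih (by omega), add_eq_left]
    refine sum_eq_zero fun u _ => ?_
    by_cases c : rc (G.sd k (G.zz b J (k + 1))).n u ∈ nxt (G.sd k (G.zz b J (k + 1))) ((Y (k + 1)).Z x)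
    exacts [(F.ey nu (disjoint_left.1 d c)).jd hy, (F.ey nu c).jd hx]

end Ok

end Gl

end Pool.Agent.Lib.MP_7f377f_mp.RG.Q4.En
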