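import Pool.Agent.Lib.MP_7f377f_mp.G.S23B
import Pool.Agent.Lib.MP_7f377f_mp.G.S23F1

/-! The family of a run with two overlapping sources in each class. -/

noncomputable section

open Pool.Agent.Lib.MP_7f377f_mp.Jet

set_option linter.unusedSectionVars false
variable [Pool.Agent.Lib.MP_7f377f_mp.GD]

namespace Pool.Agent.Lib.MP_7f377f_mp.RG.Q4.En

open Finset Real Sg Pos Filter
open scoped Classical

variable {ι κ : Type} [DecidableEq ι] [DecidableEq κ] {A : Finset ι} {cl : ι → κ} {n c : ℕ}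
  {W : ι → Finset St} {s : ι → ℂ} {F : ι → Sr} {a b d σ : ℝ}

omit [DecidableEq ι] in
theorem sF_cls (hc : Cls n d A cl W) (hd : 0 < d) (hk : ∀ a, (A.filter (cl · = a)).card ≤ c)
    (hZ : ∀ i x, rc n x ∉ W i → F i x = 0) (hF : ∀ i ∈ A, ∀ x μ ν, ‖F i x μ ν‖ ≤ a)
    (hs : ∀ i ∈ A, ‖s i‖ ≤ σ) (h0 : 0 ≤ σ * a) (x : St) (μ ν : Fin 4) :
    ‖sF A F s x μ ν‖ ≤ c * (σ * a) := by
  simp only [sF, Finset.sum_apply, Pi.smul_apply, smul_eq_mul]
  rw [← sum_subset (filter_subset (fun i => ¬ Disjoint (W i) {rc n x}) A) fun i hi e => by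
    simp [hZ i x (by simpa [hi] using e)]]
  refine (norm_sum_le_of_le _ fun i hi => norm_mul_le_of_le (hs i (mem_filter.1 hi).1)
    (hF i (mem_filter.1 hi).1 x μ ν)).trans ?_
  rw [sum_const, nsmul_eq_mul]
  exact mul_le_mul_of_nonneg_right (Nat.cast_le.2 (tch_one hc hd hk _)) h0

namespace Gl

/-- the second jets of the family of a run -/
def Jr (G : Gl) (b : ℝ) (J j : ℕ) (σ : ℝ) : Prop :=
  ∀ (ι κ : Type) [Fintype ι] [DecidableEq ι] [DecidableEq κ] (cl : ι → κ) (F : ι → Sr)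
    (g : ι → St → ℂ) (W : ι → Finset St) (a τ : ℝ), 0 < a → 0 ≤ τ → G.rt J j * a ≤ 4 →
    1.01 ^ (J - j) * (10 ^ 37 * τ) ≤ 1 → (∀ x, G.Pf J a τ (F x) (g x)) →
    (∀ x y, rc (G.N J) y ∉ W x → F x y = 0) →
    (∀ k, j ≤ k → k ≤ J → Cls (G.N k) (6 * (G.p k).D) univ cl fun x => G.zs (W x) J k) →
    (∀ y, (univ.filter (cl · = y)).card ≤ 2) →
    G.J2 univ b J J j (fun _ => σ) (fun _ _ => σ) (fun k => (G.zz b J k).d)
      (fun x => G.tv (F x) b J) (fun k => G.bb k / G.Q k ^ 224) (G.fr univ F b J)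
      (G.fm univ F W b J)

/-- the same for all runs -/
def J2R (G : Gl) : Prop := ∀ᶠ j in atTop, ∃ σ > 0, σ ≤ G.sg j ∧ ∀ m b J, (G.wm m).Tu b J → j < J →
  (G.wm m).Jr b J j σ

/-- families in which the two sources of a class may overlap -/
def Ovt (G : Gl) (b : ℝ) (J j : ℕ) (w : ℝ) : Prop :=
  ∀ (ι κ : Type) [Fintype ι] [DecidableEq ι] [DecidableEq κ] (cl : ι → κ)
    (F : ι → YM7.Src (G.N J)) (W : ι → Finset St) (a τ Δ M : ℝ), 0 < a → 0 ≤ τ →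
    G.rt J j * a ≤ 1 → 1.01 ^ (J - j) * (10 ^ 37 * τ) ≤ 1 → (∀ x, YM7.Nrm a τ (F x)) →
    (∀ x, Br.sup (F x) ⊆ W x) → Cls (G.N J) Δ univ cl W →
    126 * ((G.L j : ℝ) ^ G.K0 * G.rt J j) ≤ Δ → (∀ y, (univ.filter (cl · = y)).card ≤ 2) →
    (∀ x, (G.zs (W x) J j).card ≤ M) →
    G.Fe b J j F w M (G.fm univ (fun x => Br.symF (F x)) W b J j) ∧
      (G.fm univ (fun x => Br.symF (F x)) W b J j).Ec univ cl

variable {G : Gl} {J i j : ℕ} {Y : Fy ι} {r0 : ι → ℝ} {r : ℕ → ι → ℝ} {H : ℕ → Lx × Ac}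
  {v : ι → ℕ → Lx × Ac} {N : ℕ → ℝ} {f : ℕ → (ι → ℂ) → Conf → ℂ}

namespace Ok

variable (h : G.Ok)
include h

/-- the flow without merging -/
theorem flow_up (t : G.Tu b J) (hp : G.Pu) (hi : i ≤ J) (hj : j ≤ i)
    (w : ∀ k, j ≤ k → k < i → H k = G.hs k (G.zz b J (k + 1)) (H (k + 1)) ∧
      (f k = fun s => TT (G.l k) (G.a k) (G.N k) (f (k + 1) s)) ∧ (∀ x, r k x ≤ 2 * r (k + 1) x) ∧
      ∀ x ∈ A, v x k = G.ts k (G.zz b J (k + 1)) (H (k + 1)) (v x (k + 1)))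
    (w' : ∀ k, j ≤ k → k ≤ i → G.Bz k (H k) ∧ (∀ x, r0 x ≤ r k x) ∧ 0 ≤ N k ∧
      G.Q k ^ 224 * N k ≤ G.bb k ∧
      Cls (G.N k) ((2 * c + 2) * (G.p k).D) A cl (fun a => G.zs (Y.Z a) i k) ∧
      ∀ x ∈ A, G.Sz k (N k / r k x) (N k / r k x) (G.Q k ^ 100)⁻¹ (v x k).1 (v x k).2)
    (hk : ∀ a, (A.filter (cl · = a)).card ≤ c) (hL : 1000 * 3 ^ c ≤ G.L j)
    (e : G.Fd i (G.zz b J i) A r0 (r i) (G.Q i ^ 329)⁻¹ Y (f i)) (e1 : Y.bs = H i)
    (e2 : ∀ x ∈ A, Y.jt {x} = v x i) (e3 : G.J2 A b J i j r0 r H v N f (G.fw A b J Y i))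
    (e4 : Y.Ec A cl) : G.On A b J r0 r H v f (G.fw A b J Y i) j ∧ G.Pn r (G.fw A b J Y i) j ∧
      (G.fw A b J Y i j).Ec A cl := by
  have u := h.pu_all t hp
  have C : ∀ k, j ≤ k → k ≤ i → Cls (G.N k) ((2 * c + 2) * (G.p k).D) A cl (G.fw A b J Y i k).Z :=
    fun k a b => by rw [fw_Z k b]; exact (w' k a b).2.2.2.2.1
  have D : ∀ k, (0 : ℝ) < (2 * c + 2) * (G.p k).D := fun k => by have := h.D_pos k; positivity
  suffices I : ∀ k ≤ i, j ≤ k → ∀ n, k ≤ n → n ≤ i →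
      G.On A b J r0 r H v f (G.fw A b J Y i) n ∧ G.Pn r (G.fw A b J Y i) n from
    have I := I j hj le_rfl
    ⟨(I j le_rfl hj).1, (I j le_rfl hj).2, h.fw_ec (fun k a b => ⟨u k (by omega),
      (I (k + 1) (by omega) b).1.fd, D k, C k a b.le⟩) e4 j hj le_rfl⟩
  set X := G.fw A b J Y i with hX
  have p0 := e.eq.fst.pos
  have st : ∀ k < i, X k = G.fs A k (G.zz b J (k + 1)) (X (k + 1)) := fun _ => fw_step
  have one : ∀ k, j ≤ k → k < i → G.On A b J r0 r H v f X (k + 1) → G.Pn r X (k + 1) →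
      G.On A b J r0 r H v f X k := fun k a b o q => by
    have c1 := C k a b.le
    have ad := h.ad t (b.trans_le hi) (u k (by omega))
    obtain ⟨w1, w2, w3, w4⟩ := w k a b
    rw [st k b] at c1
    refine ⟨?_, by rw [st k b, fs_bs, o.bs, w1], fun x hx => by
      rw [st k b, h.fs_jt ad.tz o.fd.fi hx, o.bs, o.jt x hx, w4 x hx]⟩
    rw [st k b, w2, zz_step _ (b.trans_le hi)]
    exact h.fam2 ad (h.pn_up q) c1 hk (hL.trans (h.L_mono a)) w3 o.fd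
      (w' _ (by omega) b).2.1 fun x => (p0 x).trans_le ((w' k a b.le).2.1 x)
  have pn : ∀ k, j ≤ k → k ≤ i → (∀ n, k ≤ n → n ≤ i → G.On A b J r0 r H v f X n) →
      (∀ n, k < n → n ≤ i → G.Pn r X n) → G.Pn r X k := fun k a b o q s hs => by
    have F := (o k le_rfl b).fd.fi
    obtain ⟨bz, -, n0, n1, -, n2⟩ := w' k a b
    have q0 := h.Q0 k
    have := F.ml.pu_jet (P := fun _ => False) (β := G.Q k ^ 10 * (N k + N k) * G.g k ^ 2)
      (h.ρ0 k) (fun y => tch_one (C k a b) (D k) hk _) F.pu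
      ((o k le_rfl b).bs ▸ bz.1 : PU _ _ (Fy.bs _).1) (by positivity)
      (fun T hT h1 _ => pu_mono (h.sz_pu (x := N k / ∏ x ∈ T, r k x) (y := N k / ∏ x ∈ T, r k x)
        (L := ((X k).jt T).2) ?_ (mul_inv_cancel₀ (pow_pos q0 _).ne').le) (le_of_eq (by ring))) hs
    · rw [off_false] at this
      refine pu_mono this ?_
      have e : (1000 * 3 ^ c : ℝ) ≤ G.L j := by exact_mod_cast hL
      have := h.pu_num (k := k) (u := 2 ^ c * N k) (by positivity) (le_trans (by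
        rw [pow_succ _ 223, mul_assoc]
        exact mul_le_mul_of_nonneg_left (mul_le_mul_of_nonneg_right (by
          linarith [h.LQ j, h.Q_mono a, pow_pos (two_pos (α := ℝ)) c,
            pow_le_pow_left₀ zero_le_two (show (2 : ℝ) ≤ 3 by norm_num) c]) n0) (by positivity)) n1)
      linarith [h.inv_le k (show 211 < 212 by norm_num), inv_pos.2 (pow_pos q0 212)]
    · rcases (show 1 ≤ T.card from card_pos.2 h1).eq_or_lt with e | e
      · obtain ⟨x, rfl⟩ := card_eq_one.1 e.symm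
        have hx := singleton_subset_iff.1 hT.sub
        have := n2 x hx
        rw [← (o k le_rfl b).jt x hx] at this
        rw [prod_singleton]
        exact this
      · exact e3 k a b o q T hT e
  refine dw_ind (fun a n b1 b2 => ?_) fun k hk ih a n b1 b2 => ?_
  · obtain rfl := b2.antisymm b1
    have o : G.On A b J r0 r H v f X n :=
      ⟨by rwa [hX, fw_top], by rwa [hX, fw_top], by rwa [hX, fw_top]⟩
    exact ⟨o, pn n a le_rfl (fun _ c1 c2 => c2.antisymm c1 ▸ o) fun _ _ _ => by omega⟩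
  · have ih := ih (by omega)
    rcases b1.eq_or_lt with rfl | b1
    · have o := one k (by omega) hk (ih _ le_rfl hk).1 (ih _ le_rfl hk).2
      exact ⟨o, pn k a b2 (fun n c1 c2 => c1.eq_or_lt.elim (· ▸ o) fun c1 => (ih n c1 c2).1)
        fun n c1 c2 => (ih n c1 c2).2⟩
    · exact ih n b1 b2

theorem top_tw2 (t : G.Tu b J) (hj : j ≤ J) (σ0 : 0 < σ) (hσ : σ ≤ G.sg j)
    (hZ : ∀ a x, rc (G.N J) x ∉ W a → F a x = 0) (hF : ∀ i ∈ A, ∀ x μ ν, ‖F i x μ ν‖ ≤ 2)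
    (c : Cls (G.N J) (6 * (G.p J).D) A cl W) (hk : ∀ a, (A.filter (cl · = a)).card ≤ 2) :
    G.Fd J (G.zz b J J) A (fun _ => σ) (fun _ => σ) (G.Q J ^ 329)⁻¹ (G.ft A F W b J)
      (G.fr A F b J J) := by
  have v := (t.gd J le_rfl).tz.v
  have D := h.D_pos J
  have s1 := (h.sig_le hσ hj).1
  have q := mul_le_mul_of_nonneg_left (h.qpw J (show 0 < 223 + 2 by norm_num)) σ0.le
  rw [pow_add, mul_left_comm σ (_ ^ 223), pow_zero] at q
  rw [zz_top] at v ⊢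
  refine (h.fam_top (m := 2) (c := 2) v (fun _ => σ0) (fun s hs x μ ν => (sF_cls c
    (by positivity) hk hZ hF (fun x _ => (hs x).le) (by positivity) x μ ν).trans (by
      push_cast; linarith)) hZ (fun x hx => ⟨_, hF x hx⟩) c (by push_cast; linarith) hk le_rfl).mono
    (fun _ => σ0) (fun _ => le_rfl) ?_
  have g0 := h.g0 J
  have := pow_le_pow_of_le_one g0.le (h.g1 J) (show 2 ≤ 31 by norm_num)
  linarith [h.g_le J, h.inv_le J (i := 329) (j := 4000) (by norm_num), pow_pos g0 2]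

theorem tv_two {F : Sr} {g : St → ℂ} {k : ℕ} {τ : ℝ} (t : G.Tu b J) (hp : G.Pu) (hj : j ≤ k)
    (hk : k ≤ J) (σ0 : 0 < σ) (hσ : σ ≤ G.sg j) (P : G.Pf J a τ F g) (a0 : 0 < a) (τ0 : 0 ≤ τ)
    (a1 : G.rt J j * a ≤ 4) (hτ : 1.01 ^ (J - j) * (10 ^ 37 * τ) ≤ 1) :
    G.Sz k (G.bb k / G.Q k ^ 224 / σ) (G.bb k / G.Q k ^ 224 / σ) (G.Q k ^ 100)⁻¹
      (G.tv F b J k).1 (G.tv F b J k).2 := by
  have q0 := h.Q0 k
  have q1 := h.Q0 j
  have e1 : G.pe J k a τ + 1 * 1000 ≤ G.bb k / G.Q k ^ 224 / σ := by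
    refine (h.pe_sq a0 hτ τ0 a1 hj).trans ?_
    rw [le_div_iff₀ σ0, le_div_iff₀ (pow_pos q0 _)]
    refine le_of_mul_le_mul_right (le_trans ?_ (h.mono5 hj (C := 226) (by norm_num))) (pow_pos q1 _)
    calc _ = σ * G.Q j ^ (5 * 226) * G.Q k ^ 226 := by ring
      _ ≤ σ * G.Q j ^ 1200 * G.Q k ^ 226 := by gcongr; exacts [h.Q1 j, by norm_num]
      _ ≤ _ := mul_le_mul_of_nonneg_right ((le_div_iff₀ (pow_pos q1 _)).1 hσ) (pow_pos q0 _).le
  exact h.sz_le (h.tv_sz' t (fun _ e => (h.tan_main hp t e).1.sz) P.lip a0 P.le P.near hk)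
    (sqrt_nonneg _) e1 (by linarith) (h.sg_le k)

theorem ovt_of (t : G.Tu b J) (hp : G.Pu) (hj : j ≤ J) (σ0 : 0 < σ) (hσ : σ ≤ G.sg j)
    (hL : 1000 * 3 ^ 2 ≤ G.L j) (e : G.Jr b J j σ) : G.Ovt b J j σ⁻¹ := by
  intro ι κ _ _ _ cl F W a τ Δ M a0 τ0 a1 hτ P hW hc hΔ hk hM
  choose g g1 g2 _ g3 using fun x => Br.nrm_lip (P x)
  have P' : ∀ x, G.Pf J (4 * a) τ (Br.symF (F x)) (g x) := fun x => ⟨g1 x, g2 x, g3 x⟩
  have hZ := fun x y (u : rc (G.N J) y ∉ W x) => Br.symF_out (h.N_odd J) fun v => u (hW x v)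
  have C : ∀ k, j ≤ k → k ≤ J → Cls (G.N k) (6 * (G.p k).D) univ cl fun x => G.zs (W x) J k :=
    fun k => h.zs_cls hc (by norm_num) (by linarith)
  have τ2 : 10 ^ 37 * τ ≤ 1 :=
    (le_mul_of_one_le_left (by positivity) (one_le_pow₀ (by norm_num))).trans hτ
  have a4 : G.rt J j * (4 * a) ≤ 4 := by linarith
  have a5 : 0 < 4 * a := by positivity
  have e3 := e ι κ cl _ g _ (4 * a) τ a5 τ0 a4 hτ P' hZ C hk
  have top := h.top_tw2 (A := univ) t hj σ0 hσ hZ (fun x _ y μ ν => (Br.nrm_le (P x) y μ ν).trans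
    (by linarith)) (by simpa only [zs_top] using C J hj le_rfl) hk
  obtain ⟨o, q, ec⟩ := h.flow_up (c := 2) (r := fun _ _ => σ) (H := fun k => (G.zz b J k).d)
    (v := fun x => G.tv (Br.symF (F x)) b J) (N := fun k => G.bb k / G.Q k ^ 224)
    (f := G.fr univ (fun x => Br.symF (F x)) b J) t hp le_rfl hj
    (fun k _ hk => ⟨by rw [zz_step b hk]; rfl, fr_step hk, fun _ => by linarith,
      fun _ _ => Gl.tn_step hk⟩)
    (fun k k1 k2 => ⟨h.bz_run t k2, fun _ => le_rfl, (div_pos (h.b0 k) (pow_pos (h.Q0 k) _)).le,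
      (mul_div_cancel₀ _ (pow_pos (h.Q0 k) _).ne').le, by norm_num; exact C k k1 k2,
      fun x _ => h.tv_two t hp k1 k2 σ0 hσ (P' x) a5 τ0 a4 hτ⟩) hk hL top
    (fm_top (G := G) (A := (univ : Finset ι)) ▸ fm_bs J le_rfl)
    (fun x hx => by rw [ft_jt hx, tv, Gl.tn_top]) e3 ft_ec
  have u := o.bs ▸ h.bz_run t hj
  exact ⟨⟨_, _, _, _, _, _, (t.gd j hj).tz, o.fd, u.2.1, u.2.2, q, (h.th_le j).1, (h.th_le j).2,
    fun x => ⟨(inv_inv _).le, by rw [fm_Z hj]; exact hM x⟩⟩, ec⟩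

theorem ovj_of {w : ℝ} (hj : j ≤ J) (e : G.Ovt b J j w) : G.Ovj b J j w :=
  fun ι κ _ _ _ cl F a Δ M a1 hτ P hc hΔ hk hM =>
    have a0 : 0 < a := pos_of_mul_pos_left (a1 ▸ one_pos) (by positivity)
    ⟨_, e ι κ cl F _ a _ Δ M a0 (by positivity) (h.rt_a hj a1 ▸ le_mul_of_one_le_right
      (mul_pos (rt_pos J j) a0).le (one_le_pow₀ (by norm_num))) hτ P (fun _ => Subset.rfl) hc hΔ hk hM⟩

end Ok

theorem ovt_ev (o : G.Oks) (e : G.J2R) : ∀ᶠ j in atTop, ∃ w > 0, ∀ m b J, (G.wm m).Tu b J → j < J →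
    (G.wm m).Ovt b J j w := by
  filter_upwards [e, (o 0).1.L_nat.eventually_ge_atTop (1000 * 3 ^ 2)] with j ⟨σ, σ0, hσ, e⟩ hL
  exact ⟨σ⁻¹, inv_pos.2 σ0, fun m b J t hJ =>
    (o m).1.ovt_of t (o m).2 hJ.le σ0 hσ hL (e m b J t hJ)⟩

theorem ov2_of (o : G.Oks) (e : G.J2R) : G.Ov2 :=
  (ovt_ev o e).mono fun _ => Exists.imp fun _ => And.imp_right fun e m b J t hJ =>
    (o m).1.ovj_of hJ.le (e m b J t hJ)

end Gl

end Pool.Agent.Lib.MP_7f377f_mp.RG.Q4.En
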