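import Pool.Agent.Lib.MP_7f377f_mp.G.S23F2

/-! The radii for one big source over two small sources. -/

noncomputable section

set_option linter.unusedSectionVars false
variable [Pool.Agent.Lib.MP_7f377f_mp.GD]

namespace Pool.Agent.Lib.MP_7f377f_mp.RG.Q4.En

open Finset

variable {σ : ℝ} {l m n j : ℕ}

/-- the common radii between the levels `m` and `l` -/
def r3 (σ : ℝ) (l m : ℕ) (x : Fin 3) : ℝ := if x = 0 then σ / 2 ^ (l - m + 1) else σ / 2

theorem r3_pos (σ0 : 0 < σ) (x : Fin 3) : 0 < r3 σ l m x := by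
  rw [r3]; split_ifs <;> positivity

theorem r3_le (σ0 : 0 < σ) (x : Fin 3) : r3 σ l m x ≤ σ / 2 := by
  rw [r3]
  split_ifs
  · exact div_le_div_of_nonneg_left σ0.le two_pos (le_self_pow₀ one_le_two (by omega))
  · rfl

theorem r3_two (σ0 : 0 < σ) (hn : m ≤ n) (x : Fin 3) : 2 * r3 σ l m x ≤ rd (· = 0) σ l n x := by
  rcases eq_or_ne x 0 with e | e
  · rw [r3, if_pos e, pow_succ, ← div_div, mul_div_cancel₀ _ two_ne_zero]
    exact rd_le σ0 hn x
  · rw [r3, if_neg e, mul_div_cancel₀ _ two_ne_zero, rd, if_neg e]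
    exact le_mul_of_one_le_left σ0.le (one_le_pow₀ one_le_two)

theorem r3_rd (σ0 : 0 < σ) (hn : m ≤ n) (x : Fin 3) :
    r3 σ l m x ≤ rd (· = 0) σ l n x ∧ 2 * r3 σ l m x ≤ rd (· = 0) σ l n x :=
  ⟨by linarith [r3_two (l := l) σ0 hn x, r3_pos (l := l) (m := m) σ0 x], r3_two σ0 hn x⟩

theorem r3_prod : ∏ x, r3 σ l m x = (σ / 2) ^ 2 * (σ / 2 ^ (l - m + 1)) := by
  simp only [Fin.prod_univ_three, r3]
  simp only [if_true, if_neg (show (1 : Fin 3) ≠ 0 by decide), if_neg (show (2 : Fin 3) ≠ 0 by decide)]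
  ring

theorem rd_prod : ∏ x, rd (· = (0 : Fin 3)) σ l j x = 2 ^ (l - j) * σ ^ 3 := by
  simp only [Fin.prod_univ_three, rd]
  simp only [if_true, if_neg (show (1 : Fin 3) ≠ 0 by decide), if_neg (show (2 : Fin 3) ≠ 0 by decide)]
  field_simp

theorem le_rd_prod (σ0 : 0 < σ) : σ ^ 3 ≤ ∏ x, rd (· = (0 : Fin 3)) σ l n x := by
  rw [rd_prod]
  exact le_mul_of_one_le_left (by positivity) (one_le_pow₀ one_le_two)

theorem r3_prod_le (σ0 : 0 < σ) (T : Finset (Fin 3)) : ∏ x ∈ T, r3 σ l m x ≤ σ ^ T.card :=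
  (prod_le_prod (fun x _ => (r3_pos σ0 x).le) fun x _ =>
    (r3_le σ0 x).trans (half_le_self σ0.le)).trans_eq (prod_const _)

theorem fin3_cases : ∀ T : Finset (Fin 3), T.Nonempty →
    (∃ x, T = {x}) ∨ T = {0, 1} ∨ T = {0, 2} ∨ (1 ∈ T ∧ 2 ∈ T) := by decide

end Pool.Agent.Lib.MP_7f377f_mp.RG.Q4.En
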