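import Pool.Agent.Lib.MP_7f377f_mp.G.S23F1

/-! Families with overlapping sources: comparison of two flows along the same run. -/

noncomputable section

open Pool.Agent.Lib.MP_7f377f_mp.Jet

set_option linter.unusedSectionVars false
variable [Pool.Agent.Lib.MP_7f377f_mp.GD]

namespace Pool.Agent.Lib.MP_7f377f_mp.RG.Q4.En.Gl.Ok

open Finset Real Sg Pos

variable {ι κ : Type} [DecidableEq ι] [DecidableEq κ] {A T : Finset ι} {G : Gl} {b X ρ' : ℝ}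
  {J i j k l m c : ℕ} {H H' : ℕ → Lx × Ac} {Y Y' : ℕ → Fy ι} {B : ι → Prop} {cl : ι → κ}
  {v v' : ι → ℕ → Lx × Ac} {f f' : ℕ → (ι → ℂ) → Conf → ℂ} {ρ r0 r0' : ι → ℝ}
  {r r' : ℕ → ι → ℝ} {γ : ℂ} {a : ι}

variable (h : G.Ok)
include h

/-- the difference of two flows along the same run, from level `k` down to level `m` -/
theorem df_fo3 (t : G.Tu b J) (h1 : j ≤ m) (h4 : k ≤ i) (h5 : i ≤ J) (hγ : ‖γ‖ ≤ 2)
    (P : G.Fo3 A B cl b J i l j r0 r H v f Y) (P' : G.Fo3 A B cl b J J l j r0' r' H' v' f' Y')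
    (ρ0 : ∀ x, 0 < ρ x) (hρ : ∀ n, m ≤ n → n ≤ k → ∀ x, ρ x ≤ r n x ∧ 2 * ρ x ≤ r' n x)
    (Z : ∀ n ≤ i, (Y' n).Z = (Y n).Z) (hA : A.card ≤ c) (big : 8 * 2 ^ c ≤ G.Q m) (X0 : 0 < X)
    (D0 : G.Df2 k ρ X X (Y k) ((Y' k).sc γ)) :
    (∀ n, m ≤ n → n < k → G.Tw n A ρ (Y (n + 1)) ((Y' (n + 1)).sc γ)) ∧ ∀ n ≤ k, m ≤ n →
      G.Df2 n ρ (2 ^ (k - n) * X) (2 ^ (k - n) * X) (Y n) ((Y' n).sc γ) := by
  have r2 : ∀ n, m ≤ n → n ≤ k → ∀ x, ‖γ‖ * ρ x ≤ r' n x := fun n a b x =>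
    (mul_le_mul_of_nonneg_right hγ (ρ0 x).le).trans (hρ n a b x).2
  have tw : ∀ n, m ≤ n → n < k → G.Tw n A ρ (Y (n + 1)) ((Y' (n + 1)).sc γ) := fun n a b => by
    have a' : m ≤ n + 1 := by omega
    have o := (P.on (n + 1) (by omega) (by omega)).fd
    have o' := (P'.on (n + 1) (by omega) (by omega)).fd
    exact ⟨(o.mono ρ0 (fun x => (hρ _ a' b x).1) le_rfl).fi,
      Z (n + 1) (by omega) ▸ o'.fi.sc (h.ρ0 _) ρ0 (r2 _ a' b),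
      fun s hs => h.pn_up (P.pu _ (by omega) (by omega)) s fun x => (hs x).trans_le (hρ _ a' b x).1,
      fun s hs => h.pn_up (P'.pu _ (by omega) (by omega)) _ (pd_scale o'.fi.pos (r2 _ a' b) hs)⟩
  refine ⟨tw, h.dif_chain (z := fun n => G.zz b J (n + 1)) (Y := Y) (Y' := fun n => (Y' n).sc γ)
    (X := fun n => 2 ^ (k - n) * X) (V := fun n => 2 ^ (k - n) * X) (C := fun _ => 1) (i := k)
    (j := m) (cl := fun _ => ()) (c := c) (fun n a b => ⟨(t.gd _ (by omega)).tz, P.st n (by omega),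
      by rw [fs_sc, ← P'.st n (by omega)], tw n a b, fun _ _ _ _ e => (e rfl).elim⟩)
    (fun _ => (card_filter_le _ _).trans hA) (fun n a b => ?_) (by simpa using D0)⟩
  have u : 0 < 2 ^ (k - (n + 1)) * X := by positivity
  have u' := h.qpw n (show 0 < 50 by norm_num)
  rw [show k - n = k - (n + 1) + 1 by omega, pow_succ' (2 : ℝ), mul_assoc, sd_cr]
  refine ⟨by linarith [h.cr1 n, h.cr0 n], by linarith [h.Q_mono a], by linarith, by linarith,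
    Or.inl ?_⟩
  rw [← le_sub_iff_add_le', div_le_iff₀ (pow_pos (h.Q0 n) _)]
  nlinarith

/-- comparison of two flows along the same run -/
theorem cmp_fo3 (hp : G.Pu) (t : G.Tu b J) (h1 : j ≤ m) (h2 : m ≤ l) (h3 : l ≤ k) (h4 : k ≤ i)
    (h5 : i ≤ J) (hγ : ‖γ‖ ≤ 2) (P : G.Fo3 A B cl b J i l j r0 r H v f Y)
    (P' : G.Fo3 A B cl b J J l j r0' r' H' v' f' Y') (ρ0 : ∀ x, 0 < ρ x)
    (hρ : ∀ n, m ≤ n → n ≤ k → ∀ x, ρ x ≤ r n x ∧ 2 * ρ x ≤ r' n x)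
    (Z : ∀ n ≤ i, (Y' n).Z = (Y n).Z) (hA : A.card ≤ c) (big : 8 * 2 ^ c ≤ G.Q m) (X0 : 0 < X)
    (D0 : G.Df2 k ρ X X (Y k) ((Y' k).sc γ)) (ha : a ∈ T) (hB : ¬ B a)
    (hV : ∀ n, m ≤ n → n < l → ((Y n).Z a).card ≤ G.Q l ^ 50) (ρ1 : 0 < ρ')
    (hρ' : ∀ n, j ≤ n → n ≤ m → ρ' ≤ ∏ x ∈ T, r n x ∧ ρ' ≤ ∏ x ∈ T, r' n x) :
    ‖jd T (Y j).E - γ ^ T.card * jd T (Y' j).E‖ ≤ ‖jd T (Y l).E - γ ^ T.card * jd T (Y' l).E‖ +
      G.Q l ^ 62 * 4 ^ (k - m) * (X * G.g k ^ 2) / ∏ x ∈ T, ρ x +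
        (1 + 2 ^ T.card) * ((100 ^ (l - m) * G.rt l m : ℝ)⁻¹ / ρ') := by
  obtain ⟨tw, D⟩ := h.df_fo3 t h1 h4 h5 hγ P P' ρ0 hρ Z hA big X0 D0
  have E := (h.dif_E_chain (z := fun n => G.zz b J (n + 1)) (Y := Y) (Y' := fun n => (Y' n).sc γ)
    (X := fun n => 2 ^ (k - n) * X) (V := fun n => 2 ^ (k - n) * X) (i := l) (j := m)
    (fun n a b => ⟨h.pu_all t hp n (by omega), P.st n (by omega),
      by rw [fs_sc, ← P'.st n (by omega)], tw n a (by omega), D _ (by omega) (by omega)⟩)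
    (P.on l (by omega) (by omega)).fd.ma (funext fun s => by
      simp only [Fy.sc, jd_sc]
      exact (congrFun (P'.on l (by omega) (by omega)).fd.ma _).trans (ma_scale _ s)) ha m h2
        le_rfl).2.2
  have p0 : 0 < ∏ x ∈ T, ρ x := prod_pos fun x _ => ρ0 x
  have q0 := h.Q0 l
  have S := sum_geo (B := G.Q l ^ 62 * (X * G.g k ^ 2) / ∏ x ∈ T, ρ x) (a := fun n =>
    if m ≤ n then ((Y n).Z a).card * (G.Q n ^ 12 * (2 ^ (k - (n + 1)) * X + 2 ^ (k - (n + 1)) * X) *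
      G.g (n + 1) ^ 2 / ∏ x ∈ T, ρ x) else 0) (by positivity) h3 (fun n e => by
    have := h.Q0 n
    split_ifs with e'
    · rw [show k - n = k - (n + 1) + 1 by omega]
      calc _ ≤ G.Q l ^ 50 * (G.Q l ^ 12 * (2 ^ (k - (n + 1)) * X + 2 ^ (k - (n + 1)) * X) *
            (2 ^ (k - (n + 1)) * G.g k ^ 2) / ∏ x ∈ T, ρ x) := by
            gcongr
            exacts [hV n e' e, h.Q_mono e.le, h.g_pow _ (by omega)]
        _ = _ := by rw [show (4 : ℝ) = 2 * 2 by norm_num, mul_pow]; ring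
    · positivity) m h2
  rw [sum_congr rfl fun n hn => if_pos (mem_Ico.1 hn).1] at S
  have t1 := P.tl m h1 h2 T ⟨a, ha, hB⟩ ρ' ρ1 fun n a b => (hρ' n a b).1
  have t2 := P'.tl m h1 h2 T ⟨a, ha, hB⟩ ρ' ρ1 fun n a b => (hρ' n a b).2
  simp only [Fy.sc, jd_sc] at E
  have t3 : ‖γ ^ T.card * (jd T (Y' j).E - jd T (Y' m).E)‖ ≤
      2 ^ T.card * ((100 ^ (l - m) * G.rt l m : ℝ)⁻¹ / ρ') := by
    rw [norm_mul, norm_pow]
    gcongr
  rw [show ∀ a b c d e : ℂ, a - b * c = a - d + (d - b * e) - b * (c - e) from fun _ _ _ _ _ => by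
    ring]
  refine (norm_sub_le_of_le (norm_add_le_of_le t1 (E.trans (add_le_add le_rfl S))) t3).trans
    (le_of_eq ?_)
  ring

end Pool.Agent.Lib.MP_7f377f_mp.RG.Q4.En.Gl.Ok
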