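import Pool.Agent.Lib.MP_7f377f_mp.G.S23F3a
import Pool.Agent.Lib.MP_7f377f_mp.G.S23F3b

/-! Families with overlapping sources: the comparison from the jets at one level. -/

noncomputable section

open Pool.Agent.Lib.MP_7f377f_mp.Jet

set_option linter.unusedSectionVars false
variable [Pool.Agent.Lib.MP_7f377f_mp.GD]

namespace Pool.Agent.Lib.MP_7f377f_mp.RG.Q4.En.Gl.Ok

open Finset Real Sg Pos

variable {ι κ : Type} [DecidableEq ι] [DecidableEq κ] {A T : Finset ι} {G : Gl}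
  {b x y C M ρ' : ℝ} {J i i' j j' k l l' m c : ℕ} {H H' : ℕ → Lx × Ac} {Y Y' : ℕ → Fy ι}
  {B B' : ι → Prop} {cl cl' : ι → κ} {v v' : ι → ℕ → Lx × Ac} {f f' : ℕ → (ι → ℂ) → Conf → ℂ}
  {ρ r0 r0' : ι → ℝ} {r r' : ℕ → ι → ℝ} {γ : ℂ} {a : ι}

variable (h : G.Ok)
include h

omit [DecidableEq κ] in
/-- the difference of two flows at level `k` from the differences of the jets -/
theorem df2_jt (t : G.Tu b J) (P : G.Fo3 A B cl b J i l j r0 r H v f Y)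
    (P' : G.Fo3 A B' cl' b J i' l' j' r0' r' H' v' f' Y') (hj : j ≤ k) (hj' : j' ≤ k) (hi : k < i)
    (hi' : k < i') (hJ : i ≤ J) (hJ' : i' ≤ J) (Z : (Y' k).Z = (Y k).Z) (ρ0 : ∀ a, 0 < ρ a)
    (hρ : ∀ n, k ≤ n → n ≤ k + 1 → ∀ a, ρ a ≤ r n a ∧ ‖γ‖ * ρ a ≤ r' n a) (hA : A.card ≤ c)
    (C0 : 0 < C) (x0 : 0 ≤ x)
    (e0 : G.Sz k y y (G.Q k ^ 100)⁻¹ ((H k).1 - (H' k).1) ((H k).2 - (H' k).2))
    (eT : ∀ T ⊆ A, T.Nonempty →
      G.Sz k (x / ∏ a ∈ T, ρ a) (x / ∏ a ∈ T, ρ a) (G.Q k ^ 100)⁻¹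
        ((Y k).jt T - γ ^ T.card • (Y' k).jt T).1 ((Y k).jt T - γ ^ T.card • (Y' k).jt T).2 ∨
      ∃ a ∈ T, ∃ a' ∈ T, Sep (G.N k) (C * (G.p k).D) ((Y k).Z a) ((Y k).Z a'))
    (hX : y + 2 ^ c * (x + 2 * (G.Q k ^ 100 * exp (2 - C) * G.bb k)) ≤ M) :
    G.Df2 k ρ M M (Y k) ((Y' k).sc γ) := by
  have o := P.on k hj hi.le
  have o' := P'.on k hj' hi'.le
  have τ0 : 0 < G.Q k ^ 100 * exp (2 - C) * G.bb k := by
    have := h.Q0 k; have := h.b0 k; positivity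
  have ω0 := (inv_pos.2 (pow_pos (h.Q0 k) 100)).le
  have one : ∀ Y : Fy ι, Y.sc 1 = Y := fun Y => by simp [Fy.sc]
  refine h.df2_of3 (x := fun T => (if T = ∅ then y else 0) +
    (x + 2 * (G.Q k ^ 100 * exp (2 - C) * G.bb k)))
    (o.fd.fi.mono ρ0 (fun a => (hρ k le_rfl k.le_succ a).1) le_rfl fun _ => Subset.rfl)
    (Fo3.sc h P' hj' hi'.le ρ0 fun a => (hρ k le_rfl k.le_succ a).2).1 (fun T hT => ?_)
    (le_trans (by
      rw [sum_add_distrib, sum_ite_eq', if_pos (empty_mem_powerset A)]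
      exact add_le_add le_rfl (sum_pw hA (by linarith) fun _ _ => le_rfl)) hX)
  have q : 0 < ∏ a ∈ T, ρ a := prod_pos fun a _ => ρ0 a
  rcases T.eq_empty_or_nonempty with rfl | e
  · have u : (Y k).jt ∅ - ((Y' k).sc γ).jt ∅ = H k - H' k := by
      rw [← o.bs, ← o'.bs, ← Fy.sc_bs (γ := γ) (Y := Y' k)]
      simp only [Fy.jt, Fy.bs, jL_empty, jA_empty]
    rw [u, if_pos rfl, prod_empty, div_one]
    exact h.sz_le e0 ω0 (by linarith) (by linarith) le_rfl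
  · rw [if_neg e.ne_empty, zero_add]
    rcases eT T hT e with u | ⟨a, ha, a', ha', u⟩
    · have u3 : x / ∏ i ∈ T, ρ i ≤
          (x + 2 * (G.Q k ^ 100 * exp (2 - C) * G.bb k)) / ∏ i ∈ T, ρ i :=
        div_le_div_of_nonneg_right (by linarith) q.le
      rw [Fy.sc_jt]
      exact h.sz_le u ω0 u3 u3 le_rfl
    · have u1 := Fo3.far h (γ := 1) t P hj hi hJ ρ0
        (fun a => by simpa using (hρ _ k.le_succ le_rfl a).1) hT ha ha' C0 u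
      have u2 := Fo3.far h t P' hj' hi' hJ' ρ0 (fun a => (hρ _ k.le_succ le_rfl a).2) hT ha ha' C0
        (Z ▸ u)
      rw [one] at u1
      have u3 : G.Q k ^ 100 * exp (2 - C) * G.bb k / ∏ i ∈ T, ρ i +
          G.Q k ^ 100 * exp (2 - C) * G.bb k / ∏ i ∈ T, ρ i ≤
          (x + 2 * (G.Q k ^ 100 * exp (2 - C) * G.bb k)) / ∏ i ∈ T, ρ i := by
        rw [← add_div]
        exact div_le_div_of_nonneg_right (by linarith) q.le
      exact h.sz_le (sz_sub (h.ρ0 k) u1 u2) ω0 u3 u3 le_rfl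

/-- comparison of the free energies of two flows along the same run -/
theorem cmp_jt (hp : G.Pu) (t : G.Tu b J) (h1 : j ≤ m) (h2 : m ≤ l) (h3 : l ≤ k) (h4 : k < i)
    (h5 : i ≤ J) (hγ : ‖γ‖ ≤ 2) (P : G.Fo3 A B cl b J i l j r0 r H v f Y)
    (P' : G.Fo3 A B cl b J J l j r0' r' H' v' f' Y') (ρ0 : ∀ x, 0 < ρ x)
    (hρ : ∀ n, m ≤ n → n ≤ k + 1 → ∀ x, ρ x ≤ r n x ∧ 2 * ρ x ≤ r' n x)
    (Z : ∀ n ≤ i, (Y' n).Z = (Y n).Z) (hA : A.card ≤ c) (big : 8 * 2 ^ c ≤ G.Q m) (x0 : 0 ≤ x)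
    (C0 : 0 < C) (e0 : G.Sz k y y (G.Q k ^ 100)⁻¹ ((H k).1 - (H' k).1) ((H k).2 - (H' k).2))
    (eT : ∀ T ⊆ A, T.Nonempty →
      G.Sz k (x / ∏ a ∈ T, ρ a) (x / ∏ a ∈ T, ρ a) (G.Q k ^ 100)⁻¹
        ((Y k).jt T - γ ^ T.card • (Y' k).jt T).1 ((Y k).jt T - γ ^ T.card • (Y' k).jt T).2 ∨
      ∃ a ∈ T, ∃ a' ∈ T, Sep (G.N k) (C * (G.p k).D) ((Y k).Z a) ((Y k).Z a'))
    (hT : T ⊆ A) (ha : a ∈ T) (hB : ¬ B a)
    (hV : ∀ n, m ≤ n → n < l → ((Y n).Z a).card ≤ G.Q l ^ 50) (E : jd T (Y l).E = 0)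
    (E' : jd T (Y' l).E = 0) (ρ1 : 0 < ρ')
    (hρ' : ∀ n, j ≤ n → n ≤ m → ρ' ≤ ∏ x ∈ T, r n x ∧ ρ' ≤ ∏ x ∈ T, r' n x) :
    ‖jd T (Y j).E - γ ^ T.card * jd T (Y' j).E‖ ≤ G.Q l ^ 62 * 4 ^ (k - m) * (y * G.g k ^ 2 +
      2 ^ c * x * G.g k ^ 2 + 2 ^ (c + 1) * G.Q k ^ 100 * exp (2 - C)) / ∏ x ∈ T, ρ x +
        (1 + 2 ^ c) / (100 ^ (l - m) * G.rt l m * ρ') := by
  have y0 := (h.sz_nn e0).1
  have τ0 : 0 < G.Q k ^ 100 * exp (2 - C) * G.bb k := by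
    have := h.Q0 k; have := h.b0 k; positivity
  have D := h.df2_jt t P P' (by omega) (by omega) h4 (by omega) h5 le_rfl (Z k h4.le) ρ0
    (fun n a b x => ⟨(hρ n (by omega) b x).1,
      (mul_le_mul_of_nonneg_right hγ (ρ0 x).le).trans (hρ n (by omega) b x).2⟩) hA C0 x0 e0 eT le_rfl
  refine (h.cmp_fo3 hp t h1 h2 h3 h4.le h5 hγ P P' ρ0 (fun n a b => hρ n a (by omega)) Z hA big
    (add_pos_of_nonneg_of_pos y0 (mul_pos (by positivity) (by linarith))) D ha hB hV ρ1 hρ').trans ?_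
  rw [E, E', mul_zero, sub_zero, norm_zero, zero_add]
  refine add_le_add (le_of_eq ?_) ?_
  · congr 2
    linear_combination (2 ^ c * 2 * G.Q k ^ 100 * exp (2 - C)) * h.bg k
  · have := rt_pos (G := G) l m
    rw [inv_eq_one_div, div_div, mul_one_div]
    gcongr
    exacts [one_le_two, (card_le_card hT).trans hA]

end Pool.Agent.Lib.MP_7f377f_mp.RG.Q4.En.Gl.Ok
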