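import Pool.Agent.Lib.MP_7f377f_mp.G.S23F1
import Pool.Agent.Lib.MP_7f377f_mp.G.Q5Gen

/-! Families with overlapping sources: rescaling of the single sources, linearity. -/

noncomputable section

open Pool.Agent.Lib.MP_7f377f_mp.Jet

set_option linter.unusedSectionVars false
variable [Pool.Agent.Lib.MP_7f377f_mp.GD]

namespace Pool.Agent.Lib.MP_7f377f_mp.RG.Q4.En

open Finset Real Sg Pos Function

variable {ι κ : Type} [DecidableEq ι] [DecidableEq κ] {A T : Finset ι} {a r r0 : ι → ℝ}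
  {Y : Fy ι} {cl : ι → κ}

/-- rescaling of the single sources -/
def Fy.sv (Y : Fy ι) (a : ι → ℝ) : Fy ι :=
  ⟨fun s => Y.ψ fun x => a x * s x, fun s => Y.K fun x => a x * s x,
    fun s => Y.E fun x => a x * s x, Y.Z⟩

section sv
omit [GD]

omit [DecidableEq ι] in
theorem sv_mem (p : ∀ i, 0 < a i) {s : ι → ℂ} (hs : s ∈ Pd (r / a)) :
    (fun x => a x * s x) ∈ Pd r := fun i => by
  simpa only [Pi.div_apply, norm_mul, Complex.norm_real, Real.norm_of_nonneg (p i).le,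
    ← lt_div_iff₀' (p i)] using hs i

theorem sv_upd (s : ι → ℂ) (i : ι) (t : ℂ) : (fun x => (a x : ℂ) * update s i t x) =
    update (fun x => (a x : ℂ) * s x) i (a i * t) := funext fun j => by
  by_cases h : j = i <;> simp [h]

theorem jd_sv (g : (ι → ℂ) → ℂ) :
    jd T (fun s => g fun x => a x * s x) = (∏ i ∈ T, a i : ℝ) * jd T g := by
  rw [Complex.ofReal_prod]; exact jd_scale (fun x => (a x : ℂ)) g T

omit [DecidableEq ι] in
theorem ma_sv {V : Type} [AddCommMonoid V] [Module ℂ V] (e : Finset ι → V) (s : ι → ℂ) :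
    ma A e (fun x => a x * s x) = ma A (fun T => ((∏ i ∈ T, a i : ℝ) : ℂ) • e T) s :=
  sum_congr rfl fun T _ => by simp [mon, prod_mul_distrib, smul_smul, mul_comm]

theorem sh_sv {M : ℝ} {q : (ι → ℂ) → ℂ} (h : SH r M q) (p : ∀ i, 0 < a i) :
    SH (r / a) M fun s => q fun x => a x * s x := by
  refine ⟨fun i => div_pos (h.pos i) (p i), fun s hs i => ?_, fun s hs => h.bd _ (sv_mem p hs)⟩
  simp only [sv_upd]
  exact (h.hol _ (sv_mem p hs) i).comp (differentiable_id.const_mul (a i : ℂ)).differentiableOn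
    fun t ht => mem_ball_zero_iff.2 (by
      rw [norm_mul, Complex.norm_of_nonneg (p i).le, ← lt_div_iff₀' (p i)]
      exact mem_ball_zero_iff.1 ht)

end sv

theorem HD.sv {f : (ι → ℂ) → Conf → ℂ} (h : HD r f) (p : ∀ i, 0 < a i) :
    HD (r / a) fun s => f fun x => a x * s x :=
  ⟨h.1.imp fun _ e U => sh_sv (e U) p, fun _ hs => h.2 _ (sv_mem p hs)⟩

theorem jL_sv (ψ : (ι → ℂ) → Lx) :
    jL T (fun s => ψ fun x => a x * s x) = ((∏ i ∈ T, a i : ℝ) : ℂ) • jL T ψ := by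
  ext v B; exact jd_sv (ψ · v B)

theorem jA_sv (K : (ι → ℂ) → Ac) :
    jA T (fun s => K fun x => a x * s x) = ((∏ i ∈ T, a i : ℝ) : ℂ) • jA T K := by
  ext X c U; exact jd_sv (K · X c U)

theorem Fy.sv_jd : jd T (Y.sv a).E = (∏ i ∈ T, a i : ℝ) * jd T Y.E := jd_sv _

theorem Fy.sv_jt : (Y.sv a).jt T = ((∏ i ∈ T, a i : ℝ) : ℂ) • Y.jt T :=
  Prod.ext (jL_sv _) (jA_sv _)

theorem Fy.sv_ce : YM7.ce (Y.sv a).E T = (∏ i ∈ T, a i : ℝ) * YM7.ce Y.E T := by
  unfold YM7.ce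
  split_ifs
  exacts [(mul_zero _).symm, Fy.sv_jd]

omit [DecidableEq ι] in
theorem Fy.sv_bs : (Y.sv a).bs = Y.bs := by simp [Fy.sv, Fy.bs, Pi.zero_def]

omit [DecidableEq κ] in
theorem Fy.Ec.sv (e : Y.Ec A cl) : (Y.sv a).Ec A cl := fun T hT x hx y hy u => by
  rw [Fy.sv_jd, e T hT x hx y hy u, mul_zero]

theorem symF_smul {n : ℕ} (c : ℝ) (F : YM7.Src n) : Br.symF (c • F) = (c : ℂ) • Br.symF F := by
  ext x μ ν; simp [Br.symF]

theorem symF_sub {n : ℕ} (F F' : YM7.Src n) : Br.symF (F - F') = Br.symF F - Br.symF F' := by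
  ext x μ ν; simp [Br.symF]

theorem sL_sub (F F' : Sr) : sL (F - F') = sL F - sL F' := by
  rw [eq_sub_iff_add_eq, ← sL_add, sub_add_cancel]

namespace Gl

variable {G : Gl} {b b' θ M : ℝ} {J J' i j k l c : ℕ} {z : En.Z} {f : (ι → ℂ) → Conf → ℂ}

omit [DecidableEq ι] in
theorem fr_smul {F : ι → Sr} (s : ι → ℂ) : G.fr A (fun x => (a x : ℂ) • F x) b J k s =
    G.fr A F b J k fun x => a x * s x := by
  simp only [fr, sF, smul_smul, mul_comm]

omit [DecidableEq ι] in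
theorem fr_sv {F : ι → YM7.Src (G.N J)} : G.fr A (fun x => Br.symF (a x • F x)) b J k =
    fun s => G.fr A (fun x => Br.symF (F x)) b J k fun x => a x * s x := funext fun s => by
  simp only [symF_smul, fr_smul]

namespace Ok

variable (h : G.Ok)
include h

theorem fd_sv (e : G.Fd k z A r0 r θ Y f) (p : ∀ x, 0 < a x) :
    G.Fd k z A (r0 / a) (r / a) θ (Y.sv a) fun s => f fun x => a x * s x := by
  have F := e.fi
  refine ⟨⟨fun i => div_pos (F.pos i) (p i), funext fun s => ?_, funext fun s => ?_, fun T hT => ?_,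
    ⟨fun i v hv s t => ?_, fun i X c hX s t => ?_⟩,
    F.km.imp fun _ a => ⟨a.1, fun s hs => a.2 _ (sv_mem p hs)⟩⟩, funext fun s => ?_,
    HD.sv e.eq.fst p, HD.sv e.eq.snd p, fun U hU T hT => ?_⟩
  · simp only [Fy.sv, jL_sv, ← ma_sv, ← congrFun F.psi]
  · simp only [Fy.sv, jA_sv, ← ma_sv, ← congrFun F.act]
  · obtain ⟨_, ⟨_, _, _, a⟩, -⟩ := F.pu T hT
    rw [Fy.sv, jL_sv]
    exact ⟨_, pu_of_pm fun v => ⟨((a v).1.smul (h.ρ0 k) _).1, (a v).2.const_mul _⟩⟩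
  · simp only [Fy.sv, sv_upd]; exact F.loc.psi i v hv _ _
  · simp only [Fy.sv, sv_upd]; exact F.loc.act i X c hX _ _
  · simp only [Fy.sv_jd, ← smul_eq_mul, ← ma_sv, ← congrFun e.ma]
    rfl
  · exact (jd_sv (f · U)).trans ((congrArg _ (e.eq.eq U hU T hT)).trans (jd_sv _).symm)

variable {B : ι → Prop} {r : ℕ → ι → ℝ} {H : ℕ → Lx × Ac} {v : ι → ℕ → Lx × Ac} {Y : ℕ → Fy ι}
  {f : ℕ → (ι → ℂ) → Conf → ℂ} {W : ι → Finset St}

/-- the family at the last level represents the rescaled sources -/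
theorem fo3_fe' [Fintype ι] {F : ι → YM7.Src (G.N J')} {w : ℝ} (t : G.Tu b J) (hi : i ≤ J)
    (hj : j ≤ i)
    (P : G.Fo3 univ B cl b J i l j r0 r H v (G.fr univ (fun x => Br.symF (F x)) b' J') Y)
    (u : G.Bz j (H j)) (p : ∀ x, 0 < a x) (hw : ∀ x, w⁻¹ * a x ≤ r j x)
    (hM : ∀ x, ((Y j).Z x).card ≤ M) :
    G.Fe b' J' j (fun x => a x • F x) w M ((Y j).sv a) := by
  have o := P.on j le_rfl hj
  rw [← o.bs, ← Fy.sv_bs (a := a)] at u
  have e := h.fd_sv o.fd p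
  rw [← fr_sv] at e
  exact ⟨J, G.zz b J j, r0 / a, r j / a, _, _, (t.gd j (hj.trans hi)).tz, e, u.2.1, u.2.2,
    fun s hs => P.pu j le_rfl hj _ (sv_mem p hs), (h.th_le j).1, (h.th_le j).2,
    fun x => ⟨(le_div_iff₀ (p x)).2 (hw x), hM x⟩⟩

theorem fo3_fe [Fintype ι] {F : ι → YM7.Src (G.N J')} (t : G.Tu b J) (hi : i ≤ J) (hj : j ≤ l)
    (hl : l ≤ i)
    (P : G.Fo3 univ B cl b J i l j r0 r H v (G.fr univ (fun x => Br.symF (F x)) b' J') Y)
    (u : G.Bz j (H j)) (hM : ∀ x, ((Y j).Z x).card ≤ M) :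
    G.Fe b' J' j (fun x => r j x • F x) 1 M ((Y j).sv (r j)) :=
  h.fo3_fe' t hi (hj.trans hl) P u (P.on j le_rfl (hj.trans hl)).fd.fi.pos
    (fun _ => by rw [inv_one, one_mul]) hM

/-- additivity along the flow -/
theorem fo3_ec (t : G.Tu b J) (hp : G.Pu) (hi : i ≤ J) (P : G.Fo3 A B cl b J i l j r0 r H v f Y)
    (geo : G.Geo3 A B cl c W i l j) (Z : ∀ n ≤ i, (Y n).Z = fun x => G.zs (W x) i n)
    (e : (Y i).Ec A cl) : ∀ k ≤ i, j ≤ k → (Y k).Ec A cl :=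
  dw_ind (fun _ => e) fun k hk ih hj => by
    have c1 := geo.grp k hj hk.le
    rw [← Z k hk.le] at c1
    rw [P.st k hk] at c1 ⊢
    exact h.fs_ec (h.pu_all t hp k (by omega)) (P.on _ (by omega) hk).fd (ih (by omega)) c1
      (by have := h.D_pos k; positivity)

omit [DecidableEq ι] [DecidableEq κ]

/-- the tangent map is linear -/
theorem ts_sub {ω x y x' y' : ℝ} {H u u' : Lx × Ac} (s : St2 (G.sd k z))
    (g : Tg (G.sd k z) ω H.1 H.2) (e : G.Sz (k + 1) x y ω u.1 u.2)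
    (e' : G.Sz (k + 1) x' y' ω u'.1 u'.2) :
    G.ts k z H (u - u') = G.ts k z H u - G.ts k z H u' := by
  have n := (h.sd_all k z).nu
  have d := g.dir n (h.sz_fine z e)
  have d' := g.dir n (h.sz_fine z e')
  have := pl_sub s d d' 1
  simp only [one_smul] at this
  exact Prod.ext this (dK_sub n s g.rm d d')

/-- the tangent flow is linear in the source -/
theorem tv_sub {F F' : Sr} {g g' : St → ℂ} {α α' τ τ' : ℝ} (t : G.Tu b J) (hu : G.Tv b J)
    (P : G.Pf J α τ F g) (P' : G.Pf J α' τ' F' g') (a0 : 0 < α) (a0' : 0 < α') :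
    ∀ k ≤ J, G.tv (F - F') b J k = G.tv F b J k - G.tv F' b J k :=
  dw_ind (by simp only [tv, tn_top, sL_sub, Pos.dS_sub, Prod.mk_sub_mk]) fun k hk ih => by
    have s := h.gd_tg (t.gd _ hk)
    have e := h.ts_sub s.1 (H := (_, _)) s.2.1 (h.tv_sz' t hu P.lip a0 P.le P.near hk)
      (h.tv_sz' t hu P'.lip a0' P'.le P'.near hk)
    rw [← ih] at e
    simpa only [tv, tn_step hk] using e

end Ok

end Gl

end Pool.Agent.Lib.MP_7f377f_mp.RG.Q4.En
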