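import Pool.Agent.Lib.MP_7f377f_mp.G.S23C1
import Pool.Agent.Lib.MP_7f377f_mp.G.S23C2
import Pool.Agent.Lib.MP_7f377f_mp.G.S23F3
import Pool.Agent.Lib.MP_7f377f_mp.G.S23F4

/-! Comparison of the third jets of the free energies of two runs. -/

noncomputable section

open Pool.Agent.Lib.MP_7f377f_mp.Jet

set_option linter.unusedSectionVars false
variable [Pool.Agent.Lib.MP_7f377f_mp.GD]

namespace Pool.Agent.Lib.MP_7f377f_mp.RG.Q4.En.Gl

open Finset Real Sg Pos Br YM7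
open scoped Classical

variable {G : Gl} {b b' γ x y a C M σ x2 ε : ℝ} {J J' i j k l m c : ℕ} {H u : ℕ → Lx × Ac}

/-- the short run -/
abbrev FA (G : Gl) (F : Fin 3 → Sr) (W : Fin 3 → Finset St) (b : ℝ) (J l j : ℕ) (σ : ℝ) : Prop :=
  G.Fo3 univ (· = 0) (fun _ => ()) b J J l j (fun _ => σ / 2 ^ (l - j)) (rd (· = 0) σ l)
    (fun k => (G.zz b J k).d) (fun x => G.tv (F x) b J) (G.fr univ F b J) (G.fm univ F W b J)

/-- the hybrid run -/
abbrev FB (G : Gl) (F : Fin 3 → Sr) (W : Fin 3 → Finset St) (b : ℝ) (J : ℕ) (b' : ℝ)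
    (J' i l j : ℕ) (σ : ℝ) (H : ℕ → Lx × Ac) : Prop :=
  G.Fo3 univ (· = 0) (fun _ => ()) b J i l j (fun _ => σ / 2 ^ (l - j)) (rd (· = 0) σ l) H
    (G.vh F b J b' J' H i) (G.fr univ F b' J') (G.fh univ F W b J b' J' i)

namespace Ok

variable (h : G.Ok)
include h

theorem cmp_core3 {F : Fin 3 → Src (G.N J)} {F' : Fin 3 → Src (G.N J')} {g : Fin 3 → St → ℂ}
    {W : Fin 3 → Finset St} (hp : G.Pu) (t : G.Tu b J) (t' : G.Tu b' J') (hu : G.Tv b J)
    (hu' : G.Tv b' J') (h1 : j ≤ m) (h2 : m ≤ l) (h3 : l ≤ k) (h4 : k < i) (h5 : i ≤ J) (h6 : J ≤ J')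
    (Y : G.Hy b J b' J' i k γ x y H u) (a0 : 0 < a) (hL : ∀ v, LipT (G.N J') a (g v))
    (hg : ∀ v z, ‖g v z‖ ≤ 1) (hF' : ∀ v, symF (F' v) = fun z _ _ => g v z)
    (hF : ∀ v, symF (F v) = fun z _ _ => G.fd J' J (g v) z) (σ0 : 0 < σ)
    (A : G.FA (fun v => symF (F v)) (fun v => G.zs (W v) J' J) b J l j σ)
    (A' : G.FA (fun v => symF (F' v)) W b' J' l j σ)
    (B : G.FB (fun v => symF (F' v)) W b J b' J' i l j σ H) (c3 : 3 ≤ c) (big : 8 * 2 ^ c ≤ G.Q m)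
    (ss : G.Ss (· = 0) W 3 J' l) (C0 : 0 < C)
    (far : Sep (G.N k) (C * (G.p k).D) (G.zs (W 1) J' k) (G.zs (W 2) J' k))
    (hV : ∀ n ≤ l, (G.zs (W 1) J' n).card ≤ G.Q l ^ 50) (hM : ∀ v, (G.zs (W v) J' j).card ≤ M)
    (x0 : 0 ≤ x2) (e2 : ∀ v ≠ 0, G.Sz k x2 x2 (G.Q k ^ 100)⁻¹
      ((G.fh univ (fun v => symF (F' v)) W b J b' J' i k).jt {0, v} - (γ : ℂ) ^ 2 •
        (G.fm univ (fun v => symF (F v)) (fun v => G.zs (W v) J' J) b J k).jt {0, v}).1
      ((G.fh univ (fun v => symF (F' v)) W b J b' J' i k).jt {0, v} - (γ : ℂ) ^ 2 •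
        (G.fm univ (fun v => symF (F v)) (fun v => G.zs (W v) J' J) b J k).jt {0, v}).2)
    (hε : σ ^ 3 * (G.Q l ^ 62 * 4 ^ (k - m) * (y * G.g k ^ 2 +
      2 ^ c * (σ * (12000 * G.Q k * (G.rt J' k * a) + x) + σ ^ 2 * x2) * G.g k ^ 2 +
        2 ^ (c + 1) * G.Q k ^ 100 * exp (2 - C)) / ((σ / 2) ^ 2 * (σ / 2 ^ (l - m + 1))) +
      (1 + 2 ^ c) / (100 ^ (l - m) * G.rt l m * σ ^ 3)) ≤ ε) :
    ∃ Z Z' : Fy (Fin 3), G.Fe b J j (fun x => rd (· = 0) σ l j x • F x) 1 M Z ∧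
      G.Fe b' J' j (fun x => rd (· = 0) σ l j x • F' x) 1 M Z' ∧
      ‖jd univ Z'.E - γ ^ 3 * jd univ Z.E‖ ≤ 2 ^ (l - j) * ε := by
  have kJ : k ≤ J := by omega
  have iJ : i ≤ J' := by omega
  have li : l ≤ i := by omega
  have jl : j ≤ l := by omega
  have nr : ∀ {g : St → ℂ} x (μ ν : Fin 4), ‖g x - g x‖ ≤ 0 := by simp
  have P' : ∀ v ∈ univ, G.Pf J' a 0 (symF (F' v)) (g v) :=
    fun v _ => ⟨hL v, hg v, by rw [hF' v]; exact nr⟩
  have P : ∀ v ∈ univ, G.Pf J (G.rt J' J * a) 0 (symF (F v)) (G.fd J' J (g v)) :=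
    fun v _ => ⟨h.fd_lip (hL v) J h6, fun _ => hg v _, by rw [hF v]; exact nr⟩
  have a1 : 0 < G.rt J' J * a := mul_pos (rt_pos _ _) a0
  have rt : ∀ n ≤ J, G.rt J n * (G.rt J' J * a) = G.rt J' n * a := fun n e => by
    rw [← mul_assoc, ← Nat.cast_mul, h.rt_mul e h6]
  have V := fun z => h.vh_pos t' hu' P' a0 t Y h5 iJ (mem_univ z) h4.le
  have ω : 0 ≤ (G.Q k ^ 280)⁻¹ ∧ (G.Q k ^ 280)⁻¹ ≤ (G.Q k ^ 100)⁻¹ := by
    constructor <;> linarith [h.inv_le k (show 100 < 280 by norm_num),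
      inv_pos.2 (pow_pos (h.Q0 k) 280)]
  have d : ∀ n, l ≤ n → n ≤ J' → Disjoint (G.zs (W 1) J' n) (G.zs (W 2) J' n) := fun n a b =>
    (ss n a b 1 (by simp) 2 (by simp) (by decide)).disj (mul_pos three_pos (h.D_pos n))
  have z1 := fun n => fm_Z (G := G) (A := univ) (F := fun v => symF (F' v)) (W := W) (b := b')
    (J := J') (k := n)
  have E0 : jd univ (G.fh univ (fun v => symF (F' v)) W b J b' J' i i).E = 0 := by
    rw [fh, fw_top]
    refine (h.fo3_far t' hp le_rfl A' jl (mem_univ 1) (mem_univ 2)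
      (fun n a b => by rw [z1 n b.le]; exact d n a b.le) i iJ li).trans ?_
    rw [fm_top]
    exact jd_zero _
  have ZB : ∀ n ≤ i, (G.fh univ (fun v => symF (F' v)) W b J b' J' i n).Z =
      fun v => G.zs (W v) J' n := fun n e => by
    rw [fh, fw_Z n e, Fy.hy, z1 i iJ]
    simp only [zs_zs iJ e]
  have ZA : ∀ n ≤ J, (G.fm univ (fun v => symF (F v)) (fun v => G.zs (W v) J' J) b J n).Z =
      fun v => G.zs (W v) J' n := fun n e => by
    rw [fm_Z e]
    simp only [zs_zs h6 e]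
  have E1 : jd univ (G.fm univ (fun v => symF (F v)) (fun v => G.zs (W v) J' J) b J J).E = 0 := by
    rw [fm_top]
    exact jd_zero _
  unfold FA FB at *
  generalize G.fh univ (fun v => symF (F' v)) W b J b' J' i = YB at *
  generalize G.fm univ (fun v => symF (F v)) (fun v => G.zs (W v) J' J) b J = YA at *
  refine ⟨_, _, h.fo3_fe t le_rfl jl (by omega) A (h.bz_run t (by omega))
    fun v => by rw [ZA j (by omega)]; exact hM v, h.fo3_fe t h5 jl li B (Y.bz j (by omega))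
    fun v => by rw [ZB j (by omega)]; exact hM v, ?_⟩
  have γ2 : ‖(γ : ℂ)‖ ≤ 2 := by
    rw [Complex.norm_real, norm_eq_abs, abs_le]
    constructor <;> linarith [abs_le.1 Y.one]
  have x1 := (h.sz_nn Y.du).1
  have n0 : 0 ≤ G.Q k * (G.rt J' k * a) := by have := h.Q0 k; positivity
  have ρ0 := r3_pos (l := l) (m := m) σ0
  have q : ∀ {T : Finset (Fin 3)} {w : ℝ}, 0 ≤ w → σ ^ T.card * w ≤
      σ * (12000 * G.Q k * (G.rt J' k * a) + x) + σ ^ 2 * x2 → w ≤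
      (σ * (12000 * G.Q k * (G.rt J' k * a) + x) + σ ^ 2 * x2) / ∏ v ∈ T, r3 σ l m v :=
    fun w0 e => (le_div_iff₀' (prod_pos fun v _ => ρ0 v)).2
      ((mul_le_mul_of_nonneg_right (r3_prod_le σ0 _) w0).trans e)
  have s1 : 0 ≤ σ * (12000 * G.Q k * (G.rt J' k * a) + x) := mul_nonneg σ0.le (by linarith)
  have s2 : 0 ≤ σ ^ 2 * x2 := by positivity
  have two : ∀ v ≠ (0 : Fin 3), ({0, v} : Finset (Fin 3)).card = 2 := by decide
  have R := h.cmp_jt (γ := γ) (T := univ) hp t h1 h2 h3 h4 h5 γ2 B A ρ0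
    (fun n a _ => r3_rd σ0 a) (fun n e => (ZA n (by omega)).trans (ZB n e).symm)
    (by simpa using c3) big (add_nonneg s1 s2) C0 Y.dh (fun T _ hT => ?_) Subset.rfl (mem_univ 1)
    (by decide) (fun n _ e => by rw [ZB n (by omega)]; exact hV n e.le)
    ((h.fo3_far t hp h5 B jl (mem_univ 1) (mem_univ 2)
      (fun n a b => by rw [ZB n b.le]; exact d n a (by omega)) l li le_rfl).trans E0)
    ((h.fo3_far t hp le_rfl A jl (mem_univ 1) (mem_univ 2)
      (fun n a b => by rw [ZA n b.le]; exact d n a (by omega)) l (by omega) le_rfl).trans E1)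
    (pow_pos σ0 3) fun n _ _ => ⟨le_rd_prod σ0, le_rd_prod σ0⟩
  · rw [Fy.sv_jd, Fy.sv_jd, mul_left_comm, ← mul_sub, norm_mul, Complex.norm_real, rd_prod,
      norm_of_nonneg (by positivity), mul_assoc]
    rw [r3_prod] at R
    exact mul_le_mul_of_nonneg_left ((mul_le_mul_of_nonneg_left R (by positivity)).trans hε)
      (by positivity)
  · have k2 := fun v e => h.sz_le (e2 v e) (ω.1.trans ω.2) (q (T := {0, v}) x0
      (by rw [two v e]; linarith)) (q (T := {0, v}) x0 (by rw [two v e]; linarith)) le_rfl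
    rcases fin3_cases T hT with ⟨z, rfl⟩ | rfl | rfl | e
    · have e := h.tv_pos t hu (P z (mem_univ z)).lip a1 (P z (mem_univ z)).le
        (P z (mem_univ z)).near kJ
      rw [h.fd_comp kJ h6] at e
      have e' := h.pos_cmp (fun _ => hg z _) γ (δ := 0) (fun _ => nr _ 0 0)
        (h.sz_le (V z) ω.1 le_rfl le_rfl ω.2)
        (h.sz_le e (sqrt_nonneg _) le_rfl le_rfl (h.sg_le k)) Y.du
        (h.sz_le (hu k kJ) (sqrt_nonneg _) le_rfl le_rfl (h.sg_le k))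
      simp only [pe, rt k kJ, mul_zero, zero_mul, zero_add, add_zero, one_mul] at e'
      have := mul_le_mul_of_nonneg_right γ2 n0
      have k1 := q (T := {z}) (w := 12000 * G.Q k * (G.rt J' k * a) + x) (by linarith)
        (by rw [card_singleton, pow_one]; linarith)
      rw [(B.on k (by omega) h4.le).jt z (mem_univ z), (A.on k (by omega) kJ).jt z (mem_univ z),
        card_singleton, pow_one]
      exact .inl (h.sz_le e' (ω.1.trans ω.2) (by linarith) (by linarith) le_rfl)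
    · exact .inl (k2 1 (by decide))
    · exact .inl (k2 2 (by decide))
    · exact .inr ⟨1, e.1, 2, e.2, by rw [ZB k h4.le]; exact far⟩

end Ok

end Pool.Agent.Lib.MP_7f377f_mp.RG.Q4.En.Gl
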