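import Pool.Agent.Lib.MP_7f377f_mp.G.S23H0
import Pool.Agent.Lib.MP_7f377f_mp.G.Q5CmN

/-! The errors of the comparison with one big source. -/

noncomputable section

set_option linter.unusedSectionVars false
variable [Pool.Agent.Lib.MP_7f377f_mp.GD]

namespace Pool.Agent.Lib.MP_7f377f_mp.RG.Q4.En.Gl

open Real Filter Topology

variable {G : Gl} {c C j l J' : ℕ} {X η a x σ : ℝ}

theorem lf_le : G.lf c l ≤ l := Nat.sub_le _ _

namespace Ok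

variable (h : G.Ok)
include h

theorem t_two (k : ℕ) : 2 ≤ G.t k := by
  by_contra e
  have a := h.L_big k
  have : 3 ^ G.t k ≤ 3 ^ 1 := Nat.pow_le_pow_right (by norm_num) (by omega)
  rw [G.L_eq] at a
  omega

theorem lf_add (w : G.Lw c l j X η) : j + 2 * (pP c * G.K) ≤ l :=
  le_trans (by nlinarith [h.t_two l, Nat.zero_le (pP c * G.K)]) w.1

theorem le_lf (w : G.Lw c l j X η) : j ≤ G.lf c l := by
  have := h.lf_add w
  unfold Gl.lf; omega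

theorem sub_lf (w : G.Lw c l j X η) : l - G.lf c l = 2 * (pP c * G.K) := by
  have := h.lf_add w
  unfold Gl.lf; omega

theorem sg_g {k : ℕ} (e : l ≤ k) : G.sg l * G.g k ^ 2 ≤ (G.Q l ^ 1200)⁻¹ := by
  rw [sg, div_mul_eq_mul_div, ← one_div, ← h.bg k]
  exact div_le_div_of_nonneg_right (mul_le_mul_of_nonneg_right (h.b_mono e) (sq_nonneg _))
    (pow_pos (h.Q0 l) _).le

variable (hB : pB c C * G.K + pB c C ≤ G.Bk l)
include hB

omit h in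
theorem lv_le : G.K * (pT c + 2) + 2 * (2 * (pP c * G.K)) + 2 ≤ G.Bk l := by
  refine le_trans ?_ hB
  unfold pB pT
  nlinarith [Nat.zero_le (pP c * G.K), Nat.zero_le (C * G.K), Nat.zero_le (pP c * C * G.K),
    Nat.zero_le (pP c * C), Nat.zero_le G.K]

theorem lf_win : G.L l ≤ G.L (G.lf c l) ^ 2 ∧ G.Q l ≤ G.Q (G.lf c l) ^ 2 ∧
    G.bb l ≤ 2 * G.bb (G.lf c l) :=
  h.win1 lf_le le_rfl (by have := lv_le hB; unfold Gl.lf; omega)

theorem lf_big (hc : 1000 * 3 ^ c ≤ G.L l) : 8 * 2 ^ c ≤ G.Q (G.lf c l) := by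
  have a : (1000 * 3 ^ c : ℝ) ≤ G.L (G.lf c l) ^ 2 := by exact_mod_cast hc.trans (h.lf_win hB).1
  linarith [h.LQ' (G.lf c l) (i := 2) (by norm_num), pow_pos (two_pos (α := ℝ)) c,
    pow_le_pow_left₀ zero_le_two (show (2 : ℝ) ≤ 3 by norm_num) c]

theorem lf_rt (w : G.Lw c l j X η) : G.Q l ^ pP c ≤ G.rt l (G.lf c l) := by
  have a := h.le_rt (k := l) (G.lf c l) lf_le
  rw [h.sub_lf w] at a
  refine (pow_le_pow_left₀ (h.Q0 l).le (h.lf_win hB).2.1 _).trans ?_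
  rw [Q, ← pow_mul, ← pow_mul, show G.K * (2 * pP c) = 2 * (pP c * G.K) by ring]
  exact_mod_cast a

theorem lk_rt (hJ : G.lk c l ≤ J') (a0 : 0 ≤ a) (ha : G.rt J' l * a ≤ 4) :
    G.Q l ^ (pT c + 2) * (G.rt J' (G.lk c l) * a) ≤ 4 := by
  have o : l ≤ G.lk c l := Nat.le_add_right _ _
  have r : G.Q l ^ (pT c + 2) ≤ G.rt (G.lk c l) l := by
    have := h.le_rt l o
    rw [lk, Nat.add_sub_cancel_left, pow_mul] at this
    rw [Q]
    exact_mod_cast this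
  rw [← h.rt_mul o hJ, Nat.cast_mul, mul_assoc] at ha
  exact (mul_le_mul_of_nonneg_right r (by positivity)).trans ha

theorem far_le3 (w : G.Lw c l j X η) (hc : 1000 * 3 ^ c ≤ G.L l) :
    2 ^ (c + 1) * G.Q (G.lk c l) ^ 100 * exp (2 - G.L l) * G.Q l ^ pT c ≤ 1 := by
  have q := h.Q0 l
  have o : l ≤ G.lk c l := Nat.le_add_right _ _
  have q2 := (h.lw_win hB o (by unfold lJ li; omega)).2.1
  have c2 : (2 : ℝ) ^ (c + 1) * exp 2 ≤ G.bb l := by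
    have a1 : exp 2 ≤ 9 := by
      rw [show (2 : ℝ) = 1 + 1 by norm_num, exp_add]; nlinarith [exp_one_lt_three, exp_pos 1]
    have a2 : (2 : ℝ) ^ c ≤ 3 ^ c := by gcongr; norm_num
    have a3 : (1000 : ℝ) * 3 ^ c ≤ G.L l := by exact_mod_cast hc
    have a4 := h.Lb l (i := 1) (by have := h.B1; omega)
    rw [pow_one] at a4
    rw [pow_succ]
    nlinarith [pow_pos (two_pos (α := ℝ)) c]
  refine le_trans ?_ w.2.2.1
  have := pow_le_pow_left₀ (h.Q0 _).le q2 100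
  rw [← pow_mul] at this
  rw [sub_eq_add_neg, exp_add, pow_add (G.Q l)]
  calc _ = G.Q l ^ pT c * G.Q (G.lk c l) ^ 100 * (2 ^ (c + 1) * exp 2) * exp (-G.L l) := by ring
    _ ≤ _ := by gcongr

/-- the error of the jets -/
theorem x_le (σ0 : 0 < σ) (hσ : σ ≤ G.sg l) (hJ : G.lk c l ≤ J') (a0 : 0 ≤ a) (ha : G.rt J' l * a ≤ 4)
    (hx : x ≤ σ * (12000 * G.Q (G.lk c l) * (G.rt J' (G.lk c l) * a) + 32 / G.Q l ^ pT c) +
      σ ^ 2 * G.g (G.lk c l) ^ 2 * (G.Q (G.lk c l) ^ 400 * (G.rt J' (G.lk c l) * a) +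
        1 / G.Q l ^ pT c * G.Q l ^ 2500)) :
    x * G.g (G.lk c l) ^ 2 * G.Q l ^ pT c ≤ G.Q l ^ 101 := by
  have o : l ≤ G.lk c l := Nat.le_add_right _ _
  have q := h.Q0 l
  have q1 := h.Q1 l
  have q2 := (h.lw_win hB o (by unfold lJ li; omega)).2.1
  have q3 := h.Q0 (G.lk c l)
  have r := h.lk_rt hB hJ a0 ha
  have s := (mul_le_mul_of_nonneg_right hσ (sq_nonneg _)).trans (h.sg_g o)
  have s0 : 0 ≤ σ * G.g (G.lk c l) ^ 2 :=
    mul_nonneg σ0.le (sq_nonneg _)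
  have u0 : 0 ≤ (G.rt J' (G.lk c l) : ℝ) * a := by positivity
  have T0 := pow_pos q (pT c)
  refine (mul_le_mul_of_nonneg_right (mul_le_mul_of_nonneg_right hx (sq_nonneg _)) T0.le).trans ?_
  rw [pow_add] at r
  generalize (G.rt J' (G.lk c l) : ℝ) * a = u at *
  have e : ∀ σ g Q' T : ℝ, T ≠ 0 → (σ * (12000 * Q' * u + 32 / T) + σ ^ 2 * g ^ 2 * (Q' ^ 400 * u +
      1 / T * G.Q l ^ 2500)) * g ^ 2 * T = σ * g ^ 2 * (12000 * (T * Q' * u) + 32) +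
        (σ * g ^ 2) ^ 2 * (Q' ^ 400 * (T * u) + G.Q l ^ 2500) := fun σ g Q' T e => by field_simp
  rw [e _ _ _ _ T0.ne']
  generalize σ * G.g (G.lk c l) ^ 2 = t at *
  have a1 : G.Q l ^ pT c * G.Q (G.lk c l) * u ≤ 4 := le_trans (by gcongr) r
  have a2 : G.Q l ^ pT c * u ≤ 4 := le_trans (mul_le_mul_of_nonneg_right
    (le_mul_of_one_le_right T0.le (one_le_pow₀ q1)) u0) r
  have a3 : G.Q (G.lk c l) ^ 400 ≤ G.Q l ^ 800 :=
    (pow_le_pow_left₀ q3.le q2 400).trans_eq (by rw [← pow_mul])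
  have a4 : t ≤ 1 := s.trans (inv_le_one_of_one_le₀ (one_le_pow₀ q1))
  have a5 : t * (12000 * (G.Q l ^ pT c * G.Q (G.lk c l) * u) + 32) ≤ 1 * 48032 :=
    mul_le_mul a4 (by linarith) (by linarith [mul_nonneg (mul_pos T0 q3).le u0]) zero_le_one
  have a6 : t ^ 2 * (G.Q (G.lk c l) ^ 400 * (G.Q l ^ pT c * u) + G.Q l ^ 2500) ≤
      (G.Q l ^ 1200)⁻¹ ^ 2 * (G.Q l ^ 2500 + G.Q l ^ 2500) := by
    refine mul_le_mul (pow_le_pow_left₀ s0 s 2) (add_le_add ?_ le_rfl) (add_nonneg (mul_nonneg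
      (pow_pos q3 _).le (mul_nonneg T0.le u0)) (pow_pos q _).le) (sq_nonneg _)
    linarith [mul_le_mul a3 a2 (mul_nonneg T0.le u0) (pow_pos q _).le, pow_pos q 800,
      h.qpw l (show 800 < 2500 by norm_num)]
  have a7 : (G.Q l ^ 1200)⁻¹ ^ 2 * (G.Q l ^ 2500 + G.Q l ^ 2500) = 2 * G.Q l ^ 100 := by
    rw [show G.Q l ^ 2500 = (G.Q l ^ 1200) ^ 2 * G.Q l ^ 100 by rw [← pow_mul, ← pow_add], inv_pow,
      ← two_mul, mul_left_comm, inv_mul_cancel_left₀ (by positivity)]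
  have a8 : 100 ≤ G.Q l ^ 100 :=
    (h.cQ l (C := 100) (by norm_num)).trans (le_self_pow₀ q1 (by norm_num))
  linarith [h.qpw l (show 100 < 101 by norm_num)]

/-- the final error -/
theorem er3_g {n : ℕ} (σ0 : 0 < σ) (w : G.Lw c l j X η) (hc : 1000 * 3 ^ c ≤ G.L l) (c3 : 3 ≤ c)
    (hn : n ≤ 7000) (hx : x * G.g (G.lk c l) ^ 2 * G.Q l ^ pT c ≤ G.Q l ^ n) :
    σ ^ 3 * (G.Q l ^ 62 * 4 ^ (G.lk c l - G.lf c l) *
      (4 / G.Q l ^ pT c * G.bb (G.lk c l) * G.g (G.lk c l) ^ 2 + 2 ^ c * x * G.g (G.lk c l) ^ 2 +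
        2 ^ (c + 1) * G.Q (G.lk c l) ^ 100 * exp (2 - G.L l)) /
      ((σ / 2) ^ 2 * (σ / 2 ^ (l - G.lf c l + 1))) +
      (1 + 2 ^ c) / (100 ^ (l - G.lf c l) * G.rt l (G.lf c l) * σ ^ 3)) ≤ (G.Q l ^ pP c)⁻¹ := by
  have q := h.Q0 l
  have q1 := h.Q1 l
  have T0 := pow_pos q (pT c)
  have P0 := pow_pos q (pP c)
  have r := h.lf_rt hB w
  have e1 := h.sub_lf w
  have e2 : G.lk c l - G.lf c l = G.K * (pT c + 2) + 2 * (pP c * G.K) := by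
    have := h.lf_add w
    unfold lk Gl.lf; omega
  have c1 : (2 : ℝ) ^ c ≤ G.Q l := by
    have a3 : (1000 : ℝ) * 3 ^ c ≤ G.L l := by exact_mod_cast hc
    linarith [h.LQ l, pow_pos (two_pos (α := ℝ)) c,
      pow_le_pow_left₀ zero_le_two (show (2 : ℝ) ≤ 3 by norm_num) c]
  have a1 : (4 : ℝ) ^ (G.K * (pT c + 2) + 2 * (pP c * G.K)) * (4 * 2 ^ (2 * (pP c * G.K) + 1)) ≤
      G.Q l := by
    have := h.pow_L l (i := G.K * (pT c + 2) + 2 * (pP c * G.K) + (1 + (2 * (pP c * G.K) + 1)))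
      (by have := lv_le hB; omega)
    refine le_trans ?_ ((show (100 : ℝ) ^ _ ≤ _ by exact_mod_cast this).trans (h.LQ l))
    rw [pow_add 100, pow_add 100 1, pow_one]
    gcongr <;> norm_num
  have a2 : 4 / G.Q l ^ pT c * G.bb (G.lk c l) * G.g (G.lk c l) ^ 2 +
      2 ^ c * x * G.g (G.lk c l) ^ 2 + 2 ^ (c + 1) * G.Q (G.lk c l) ^ 100 * exp (2 - G.L l) ≤
      G.Q l ^ (n + 2) / G.Q l ^ pT c := by
    have b1 := mul_le_mul_of_nonneg_left hx (pow_pos (two_pos (α := ℝ)) c).le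
    have b2 := mul_le_mul_of_nonneg_right c1 (pow_pos q n).le
    rw [← pow_succ'] at b2
    rw [mul_assoc (4 / _), h.bg, le_div_iff₀ T0, add_mul, add_mul, mul_one,
      div_mul_cancel₀ _ T0.ne']
    linarith [h.far_le3 hB w hc, h.qpw l (show n + 1 < n + 2 by omega),
      one_le_pow₀ (n := n + 1) q1]
  have a3 : 2 * (1 + 2 ^ c) ≤ (100 : ℝ) ^ (2 * (pP c * G.K)) := by
    refine le_trans ?_ (pow_le_pow_right₀ (by norm_num) (show c + 1 ≤ _ by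
      have := h.K0_le; unfold pP; nlinarith))
    rw [pow_succ]
    linarith [one_le_pow₀ (n := c) (one_le_two (α := ℝ)),
      pow_le_pow_left₀ zero_le_two (show (2 : ℝ) ≤ 100 by norm_num) c]
  rw [e1, e2]
  generalize 4 / G.Q l ^ pT c * G.bb (G.lk c l) * G.g (G.lk c l) ^ 2 +
    2 ^ c * x * G.g (G.lk c l) ^ 2 + 2 ^ (c + 1) * G.Q (G.lk c l) ^ 100 * exp (2 - G.L l) = E at *
  have u0 : (0 : ℝ) ≤ 4 ^ (G.K * (pT c + 2) + 2 * (pP c * G.K)) := by positivity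
  generalize (4 : ℝ) ^ (G.K * (pT c + 2) + 2 * (pP c * G.K)) = u at *
  have v0 : (0 : ℝ) < 2 ^ (2 * (pP c * G.K) + 1) := by positivity
  have w0 : (0 : ℝ) < 100 ^ (2 * (pP c * G.K)) := by positivity
  generalize (2 : ℝ) ^ (2 * (pP c * G.K) + 1) = v at *
  generalize (100 : ℝ) ^ (2 * (pP c * G.K)) = z at *
  have R0 := P0.trans_le r
  generalize (G.rt l (G.lf c l) : ℝ) = R at *
  have e : σ ^ 3 * (G.Q l ^ 62 * u * E / ((σ / 2) ^ 2 * (σ / v)) +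
      (1 + 2 ^ c) / (z * R * σ ^ 3)) = G.Q l ^ 62 * (u * (4 * v)) * E + (1 + 2 ^ c) / (z * R) := by
    generalize G.Q l ^ 62 = A
    field_simp
    ring
  have b1 : (1 + 2 ^ c) / (z * R) ≤ (G.Q l ^ pP c)⁻¹ / 2 := by
    rw [div_le_div_iff₀ (mul_pos w0 R0) two_pos, inv_mul_eq_div, le_div_iff₀ P0]
    exact mul_le_mul (by linarith) r P0.le w0.le
  have b2 : G.Q l ^ 62 * G.Q l * (G.Q l ^ (n + 2) / G.Q l ^ pT c) ≤ (G.Q l ^ pP c)⁻¹ / 2 := by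
    rw [← mul_div_assoc, ← pow_succ, ← pow_add, div_le_div_iff₀ T0 two_pos, inv_mul_eq_div,
      le_div_iff₀ P0, mul_right_comm, ← pow_add]
    linarith [h.qpw l (show 62 + 1 + (n + 2) + pP c < pT c by unfold pT pP; omega),
      pow_pos q (62 + 1 + (n + 2) + pP c)]
  rw [e]
  refine le_trans (add_le_add (le_trans ?_ b2) b1) (add_halves _).le
  exact (mul_le_mul_of_nonneg_left a2 (mul_nonneg (pow_pos q _).le (mul_nonneg u0 (by linarith)))).trans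
    (mul_le_mul_of_nonneg_right (mul_le_mul_of_nonneg_left a1 (pow_pos q _).le)
      (div_pos (pow_pos q _) T0).le)

theorem er3_le' (σ0 : 0 < σ) (hσ : σ ≤ G.sg l) (w : G.Lw c l j X η) (hc : 1000 * 3 ^ c ≤ G.L l) (c3 : 3 ≤ c) (hJ : G.lk c l ≤ J')
    (a0 : 0 ≤ a) (ha : G.rt J' l * a ≤ 4)
    (hx : x ≤ σ * (12000 * G.Q (G.lk c l) * (G.rt J' (G.lk c l) * a) + 32 / G.Q l ^ pT c) +
      σ ^ 2 * G.g (G.lk c l) ^ 2 * (G.Q (G.lk c l) ^ 400 * (G.rt J' (G.lk c l) * a) +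
        1 / G.Q l ^ pT c * G.Q l ^ 2500)) :
    σ ^ 3 * (G.Q l ^ 62 * 4 ^ (G.lk c l - G.lf c l) *
      (4 / G.Q l ^ pT c * G.bb (G.lk c l) * G.g (G.lk c l) ^ 2 + 2 ^ c * x * G.g (G.lk c l) ^ 2 +
        2 ^ (c + 1) * G.Q (G.lk c l) ^ 100 * exp (2 - G.L l)) /
      ((σ / 2) ^ 2 * (σ / 2 ^ (l - G.lf c l + 1))) +
      (1 + 2 ^ c) / (100 ^ (l - G.lf c l) * G.rt l (G.lf c l) * σ ^ 3)) ≤ (G.Q l ^ pP c)⁻¹ :=
  h.er3_g hB σ0 w hc c3 (by norm_num) (h.x_le hB σ0 hσ hJ a0 ha hx)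

theorem x_le_e {e : ℕ} (he : e ≤ 3000) (σ0 : 0 < σ) (hσ : σ ≤ G.sg l) (hJ : G.lk c l ≤ J')
    (a0 : 0 ≤ a) (ha : G.rt J' l * a ≤ 4)
    (hx : x ≤ σ * (12000 * G.Q (G.lk c l) * (G.rt J' (G.lk c l) * a) + 32 / G.Q l ^ pT c) +
      σ ^ 2 * (5 * (G.Q (G.lk c l) ^ e * (G.rt J' (G.lk c l) * a) / σ) +
        G.g (G.lk c l) ^ 2 * (1 / G.Q l ^ pT c * G.Q l ^ 2500))) :
    x * G.g (G.lk c l) ^ 2 * G.Q l ^ pT c ≤ G.Q l ^ 6001 := by
  have o : l ≤ G.lk c l := Nat.le_add_right _ _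
  have q := h.Q0 l
  have q1 := h.Q1 l
  have q2 := (h.lw_win hB o (by unfold lJ li; omega)).2.1
  have q3 := h.Q0 (G.lk c l)
  have r := h.lk_rt hB hJ a0 ha
  have s := (mul_le_mul_of_nonneg_right hσ (sq_nonneg _)).trans (h.sg_g o)
  have s0 : 0 ≤ σ * G.g (G.lk c l) ^ 2 :=
    mul_nonneg σ0.le (sq_nonneg _)
  have u0 : 0 ≤ (G.rt J' (G.lk c l) : ℝ) * a := by positivity
  have T0 := pow_pos q (pT c)
  refine (mul_le_mul_of_nonneg_right (mul_le_mul_of_nonneg_right hx (sq_nonneg _)) T0.le).trans ?_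
  rw [pow_add] at r
  generalize (G.rt J' (G.lk c l) : ℝ) * a = u at *
  have a3 : G.Q (G.lk c l) ^ e ≤ G.Q l ^ 6000 :=
    (pow_le_pow_left₀ q3.le q2 e).trans (by
      rw [← pow_mul]; exact pow_le_pow_right₀ q1 (by omega))
  have a9 := pow_pos q3 e
  have b1 : G.Q l ^ 2500 ≤ G.Q l ^ 6000 := pow_le_pow_right₀ q1 (by norm_num)
  have b2 := pow_pos q 2500
  have a8 : 100 ≤ G.Q l ^ 6000 :=
    (h.cQ l (C := 100) (by norm_num)).trans (le_self_pow₀ q1 (by norm_num))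
  have b3 := h.qpw l (show 6000 < 6001 by norm_num)
  have a4 := s.trans (inv_le_one_of_one_le₀ (one_le_pow₀ q1))
  have a1 : G.Q l ^ pT c * G.Q (G.lk c l) * u ≤ 4 := le_trans (by gcongr) r
  have a2 : G.Q l ^ pT c * u ≤ 4 := le_trans (mul_le_mul_of_nonneg_right
    (le_mul_of_one_le_right T0.le (one_le_pow₀ q1)) u0) r
  generalize G.Q (G.lk c l) ^ e = A at *
  generalize G.Q l ^ 2500 = B at *
  generalize G.Q l ^ 6000 = D at *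
  generalize G.Q l ^ 6001 = D' at *
  have e : ∀ g Q' T : ℝ, T ≠ 0 → (σ * (12000 * Q' * u + 32 / T) + σ ^ 2 * (5 * (A * u / σ) +
      g ^ 2 * (1 / T * B))) * g ^ 2 * T = σ * g ^ 2 * (12000 * (T * Q' * u) + 32 +
        5 * (A * (T * u)) + σ * g ^ 2 * B) := fun g Q' T e => by field_simp; ring
  rw [e _ _ _ T0.ne']
  generalize σ * G.g (G.lk c l) ^ 2 = t at *
  have c0 := mul_nonneg T0.le u0
  have c1 := mul_nonneg (mul_pos T0 q3).le u0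
  have c2 := mul_le_mul a3 a2 c0 (by linarith)
  have c3 := mul_le_mul a4 b1 b2.le zero_le_one
  refine (mul_le_of_le_one_left ?_ a4).trans (by linarith)
  linarith [mul_nonneg a9.le c0, mul_nonneg s0 b2.le]

theorem er3_b (σ0 : 0 < σ) (hσ : σ ≤ G.sg l) (w : G.Lw c l j X η) (hc : 1000 * 3 ^ c ≤ G.L l)
    (c3 : 3 ≤ c) (hJ : G.lk c l ≤ J') (a0 : 0 ≤ a) (ha : G.rt J' l * a ≤ 4)
    (hx : x ≤ σ * (12000 * G.Q (G.lk c l) * (G.rt J' (G.lk c l) * a) + 32 / G.Q l ^ pT c) +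
      σ ^ 2 * (5 * (G.Q (G.lk c l) ^ 1000 * (G.rt J' (G.lk c l) * a) / σ) +
        G.g (G.lk c l) ^ 2 * (1 / G.Q l ^ pT c * G.Q l ^ 2500))) :
    σ ^ 3 * (G.Q l ^ 62 * 4 ^ (G.lk c l - G.lf c l) *
      (4 / G.Q l ^ pT c * G.bb (G.lk c l) * G.g (G.lk c l) ^ 2 + 2 ^ c * x * G.g (G.lk c l) ^ 2 +
        2 ^ (c + 1) * G.Q (G.lk c l) ^ 100 * exp (2 - G.L l)) /
      ((σ / 2) ^ 2 * (σ / 2 ^ (l - G.lf c l + 1))) +
      (1 + 2 ^ c) / (100 ^ (l - G.lf c l) * G.rt l (G.lf c l) * σ ^ 3)) ≤ (G.Q l ^ pP c)⁻¹ :=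
  h.er3_g hB σ0 w hc c3 (by norm_num) (h.x_le_e hB (by norm_num) σ0 hσ hJ a0 ha hx)

theorem er3_le (w : G.Lw c l j X η) (hc : 1000 * 3 ^ c ≤ G.L l) (c3 : 3 ≤ c) (hJ : G.lk c l ≤ J')
    (a0 : 0 ≤ a) (ha : G.rt J' l * a ≤ 4)
    (hx : x ≤ G.sg l * (12000 * G.Q (G.lk c l) * (G.rt J' (G.lk c l) * a) + 32 / G.Q l ^ pT c) +
      G.sg l ^ 2 * G.g (G.lk c l) ^ 2 * (G.Q (G.lk c l) ^ 400 * (G.rt J' (G.lk c l) * a) +
        1 / G.Q l ^ pT c * G.Q l ^ 2500)) :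
    G.sg l ^ 3 * (G.Q l ^ 62 * 4 ^ (G.lk c l - G.lf c l) *
      (4 / G.Q l ^ pT c * G.bb (G.lk c l) * G.g (G.lk c l) ^ 2 + 2 ^ c * x * G.g (G.lk c l) ^ 2 +
        2 ^ (c + 1) * G.Q (G.lk c l) ^ 100 * exp (2 - G.L l)) /
      ((G.sg l / 2) ^ 2 * (G.sg l / 2 ^ (l - G.lf c l + 1))) +
      (1 + 2 ^ c) / (100 ^ (l - G.lf c l) * G.rt l (G.lf c l) * G.sg l ^ 3)) ≤ (G.Q l ^ pP c)⁻¹ :=
  h.er3_le' hB (div_pos (h.b0 l) (pow_pos (h.Q0 l) _)) le_rfl w hc c3 hJ a0 ha hx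

end Ok

end Pool.Agent.Lib.MP_7f377f_mp.RG.Q4.En.Gl
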