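import Pool.Agent.Lib.MP_7f377f_mp.G.S23H0
import Pool.Agent.Lib.MP_7f377f_mp.G.S23F4
import Pool.Agent.Lib.MP_7f377f_mp.G.Q5Cm2

/-! One big source over small sources along one run. -/

noncomputable section

open Pool.Agent.Lib.MP_7f377f_mp.Jet

set_option linter.unusedSectionVars false
variable [Pool.Agent.Lib.MP_7f377f_mp.GD]

namespace Pool.Agent.Lib.MP_7f377f_mp.RG.Q4.En

open Finset Real Sg Pos Br YM7
open scoped Classical

variable {ι κ : Type} [DecidableEq ι] [DecidableEq κ] {B : ι → Prop} {σ : ℝ} {x y z : ι}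
  {c i j k l : ℕ}

theorem rd_three (hx : B x) (hy : ¬ B y) (hz : ¬ B z) (e : y ≠ z) :
    ∏ a ∈ {x, y, z}, rd B σ l k a = 2 ^ (l - k) * σ ^ 3 := by
  rw [prod_insert (by simp only [mem_insert, mem_singleton]; rintro (rfl | rfl) <;> contradiction),
    prod_pair e, rd, rd, rd, if_pos hx, if_neg hy, if_neg hz]
  field_simp

namespace Gl

/-- the jets in two slowly varying sources are bounded above the level `l` -/
def Pz3 (G : Gl) (b : ℝ) (J l : ℕ) : Prop := ∀ (ι κ : Type) [DecidableEq ι] [DecidableEq κ]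
  (A : Finset ι) (cl : ι → κ) (c : ℕ) (F : ι → Sr) (g : ι → St → ℂ) (W : ι → Finset St) (a τ : ℝ)
  (r0 : ι → ℝ) (r : ℕ → ι → ℝ), 0 < a → 0 ≤ τ → (∀ x ∈ A, G.Pf J a τ (F x) (g x)) →
  1.01 ^ (J - l) * (10 ^ 37 * τ) ≤ 1 → G.rt J l * a ≤ 4 →
  (∀ x y, rc (G.N J) y ∉ W x → F x y = 0) → (∀ n, l ≤ n → r n = fun _ => G.sg l) →
  (∀ n, l ≤ n → n ≤ J → Cls (G.N n) ((2 * c + 2) * (G.p n).D) A cl fun x => G.zs (W x) J n) →
  (∀ y, (A.filter (cl · = y)).card ≤ c) → 1000 * 3 ^ c ≤ G.L l → ∀ k, l ≤ k → k ≤ J →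
  (∀ n, k ≤ n → n ≤ J → G.On A b J r0 r (fun k => (G.zz b J k).d) (fun x => G.tv (F x) b J)
    (G.fr A F b J) (G.fm A F W b J) n) → (∀ n, k < n → n ≤ J → G.Pn r (G.fm A F W b J) n) →
  ∀ x ∈ A, ∀ y ∈ A, x ≠ y → G.Sz k (G.Q k ^ 16 / G.sg l) (G.Q k ^ 16 / G.sg l) (G.Q k ^ 100)⁻¹
    ((G.fm A F W b J k).jt {x, y}).1 ((G.fm A F W b J k).jt {x, y}).2

variable {G : Gl} {cl : ι → κ} {W : ι → Finset St} {T : Finset ι}

namespace Ok

variable (h : G.Ok)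
include h

/-- only pairs of sources meet -/
theorem tch_pair [Fintype ι] (geo : G.Geo3 univ B cl c W i l j) (ss : G.Ss B W 3 i l) (hj : j ≤ k)
    (hl : l ≤ k) (hi : k ≤ i) (hT : Tch (G.N k) univ (fun x => G.zs (W x) i k) T)
    (h2 : 2 ≤ T.card) : ∃ x y, x ≠ y ∧ T = {x, y} := by
  refine card_eq_two.1 (le_antisymm ?_ h2)
  rw [← card_filter_add_card_filter_not B]
  refine add_le_add (b := 1) (d := 1) (card_le_one.2 fun x hx y hy => ?_)
    (card_le_one.2 fun x hx y hy => by_contra fun e => ?_)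
  all_goals rw [mem_filter] at hx hy
  · exact geo.uni x (mem_univ _) y (mem_univ _) hx.2 hy.2 (by_contra fun e => hT.meet hx.1 hy.1
      ((geo.grp k hj hi x (mem_univ _) y (mem_univ _) e).disj (h.cD_pos c k)))
  · exact hT.meet hx.1 hy.1 ((ss k hl hi x (by simpa using hx.2) y (by simpa using hy.2) e).disj
      (mul_pos three_pos (h.D_pos k)))

/-- the higher jets from the jets in pairs -/
theorem j2_of [Fintype ι] {b : ℝ} {J I : ℕ} {r0 : ι → ℝ} {H : ℕ → Lx × Ac} {v : ι → ℕ → Lx × Ac}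
    {f : ℕ → (ι → ℂ) → Conf → ℂ} {Y : ℕ → Fy ι} (geo : G.Geo3 univ B cl c W I l j)
    (ss : G.Ss B W 3 I l) (hj : j ≤ l) (hi : i ≤ I) (σ0 : 0 < σ)
    (Z : ∀ n ≤ i, (Y n).Z = fun x => G.zs (W x) I n) (e : ∀ k, l ≤ k → k ≤ i →
      (∀ n, k ≤ n → n ≤ i → G.On univ b J r0 (rd B σ l) H v f Y n) →
      (∀ n, k < n → n ≤ i → G.Pn (rd B σ l) Y n) → ∀ x y, x ≠ y → G.Sz k (G.Q k ^ 16 / σ)
        (G.Q k ^ 16 / σ) (G.Q k ^ 100)⁻¹ ((Y k).jt {x, y}).1 ((Y k).jt {x, y}).2) :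
    G.J2 univ b J i l r0 (rd B σ l) H v (fun k => σ * G.Q k ^ 16) f Y := fun k a1 a2 o q T hT h2 => by
  rw [Z k a2] at hT
  obtain ⟨x, y, u, rfl⟩ := h.tch_pair geo ss (hj.trans a1) a1 (a2.trans hi) hT h2
  rw [prod_pair u, rd_top a1, mul_div_mul_left _ _ σ0.ne']
  exact e k a1 a2 o q x y u

theorem sg_pw (l : ℕ) : G.sg l * G.Q l ^ 1200 ≤ G.bb l :=
  (div_mul_cancel₀ _ (pow_pos (h.Q0 l) _).ne').le

theorem fe3 (hp : G.Pu) (hj : j ≤ l) (hP : ∀ b J, G.Tu b J → l < J → G.Pz3 b J l) : G.Fe3 c j l := by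
  intro b J t hl ι κ _ _ _ B cl F W a τ M a0 τ0 P hτ ha hW geo ss hM
  have σ0 := h.sg_pos l
  choose g g1 g2 _ g3 using fun x => Br.nrm_lip (P x)
  have P' : ∀ x ∈ univ, G.Pf J (4 * a) τ (symF (F x)) (g x) := fun x _ => ⟨g1 x, g2 x, g3 x⟩
  have hZ : ∀ x y, rc (G.N J) y ∉ W x → symF (F x) y = 0 := fun x y u =>
    symF_out (h.N_odd J) fun v => u (hW x v)
  have R := h.run3 t (h.tv_all hp t) P' (by positivity) hτ τ0 (by linarith) σ0 (h.sg_pw l) hp hl.le hj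
    hZ geo (h.j2_of geo ss hj le_rfl σ0 (fun _ => fm_Z) fun k a1 a2 o q x y e =>
      hP b J t hl _ _ _ cl c _ g W _ τ _ _ (by positivity) τ0 P' hτ (by linarith) hZ
        (fun _ => rd_top) (fun n a => geo.grp n (hj.trans a)) geo.card (geo.big.trans (h.L_mono hj))
        k a1 a2 o q x (mem_univ _) y (mem_univ _) e)
  have jJ := hj.trans hl.le
  refine ⟨_, h.fo3_fe t le_rfl hj hl.le R (h.bz_run t jJ) fun x => by rw [fm_Z jJ]; exact hM x,
    (h.fo3_ec t hp le_rfl R geo (fun _ => fm_Z) (by rw [fm_top]; exact ft_ec) j jJ le_rfl).sv,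
    fun m a1 a2 x y z hx hy hz e d => ?_⟩
  have e0 := h.fo3_far (T := {x, y, z}) t hp le_rfl R a1 (x := x) (y := y) (by simp) (by simp)
    (fun n b1 b2 => by rw [fm_Z b2.le]; exact d n b1 b2.le) m (by omega) le_rfl
  have e1 := R.tl m a1 a2 {x, y, z} ⟨y, by simp, hy⟩ (G.sg l ^ 3) (by positivity) fun n _ _ => by
    rw [rd_three hx hy hz e]
    exact le_mul_of_one_le_left (by positivity) (one_le_pow₀ one_le_two)
  rw [e0, fm_top, show jd _ (G.ft _ _ _ _ _).E = 0 from jd_zero _, sub_zero,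
    le_div_iff₀' (by positivity)] at e1
  rw [Fy.sv_jd, rd_three hx hy hz e, norm_mul, Complex.norm_real, norm_of_nonneg (by positivity),
    mul_assoc]
  gcongr

end Ok

theorem fe3_ev (o : G.Oks) (hP : ∀ᶠ l in Filter.atTop, ∀ m b J, (G.wm m).Tu b J → l < J →
    (G.wm m).Pz3 b J l) (c j : ℕ) : ∀ᶠ l in Filter.atTop, ∀ m, (G.wm m).Fe3 c j l :=
  (hP.and (Filter.eventually_ge_atTop j)).mono fun _ e m => (o m).1.fe3 (o m).2 e.2 (e.1 m)

end Gl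

end Pool.Agent.Lib.MP_7f377f_mp.RG.Q4.En
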