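import Pool.Agent.Lib.MP_7f377f_mp.G.S23C
import Pool.Agent.Lib.MP_7f377f_mp.G.S23F5

/-! The comparison with the short run from the bounds for jets in two sources. -/

noncomputable section

open Pool.Agent.Lib.MP_7f377f_mp.Jet

set_option linter.unusedSectionVars false
variable [Pool.Agent.Lib.MP_7f377f_mp.GD]

namespace Pool.Agent.Lib.MP_7f377f_mp.RG.Q4.En.Gl

open Finset Real Sg Pos Br YM7
open scoped Classical

variable (G : Gl)

/-- `d` is close to the multiple `f` of `w` -/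
def Npos (k : ℕ) (E : ℝ) (f : St → ℂ) (d w : Lx × Ac) : Prop :=
  G.Sz k E E (G.Q k ^ 100)⁻¹ (d.1 - mL f w.1) (d.2 - mA f w.2)

/-- the second jet of two constant sources -/
def w2 (b : ℝ) (J k : ℕ) : Lx × Ac :=
  (G.fm univ (fun _ : Fin 2 => 1) (fun _ => box (G.N J / 2)) b J k).jt univ

/-- the same for the hybrid run -/
def wh (b : ℝ) (J : ℕ) (b' : ℝ) (J' i k : ℕ) : Lx × Ac :=
  (G.fh univ (fun _ : Fin 2 => 1) (fun _ => box (G.N J' / 2)) b J b' J' i k).jt univ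

/-- three slowly varying sources along a run -/
structure Tq (b : ℝ) (J l : ℕ) (F : Fin 3 → Sr) (g : Fin 3 → St → ℂ) (W : Fin 3 → Finset St)
    (a : ℝ) (r0 : Fin 3 → ℝ) : Prop where
  a0 : 0 < a
  pf : ∀ x, G.Pf J a 0 (F x) (g x)
  ha : G.rt J l * a ≤ 4
  out : ∀ x y, rc (G.N J) y ∉ W x → F x y = 0
  on : ∀ n, l ≤ n → n ≤ J → G.On univ b J r0 (rd (· = 0) (G.sg l) l) (fun k => (G.zz b J k).d)
    (fun x => G.tv (F x) b J) (G.fr univ F b J) (G.fm univ F W b J) n ∧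
      G.Pn (rd (· = 0) (G.sg l) l) (G.fm univ F W b J) n

/-- the jets in two sources are multiples of the second jet -/
def Pc (b : ℝ) (J l : ℕ) : Prop := ∀ F g W a r0, G.Tq b J l F g W a r0 → ∀ k, l ≤ k → k ≤ J →
  ∀ x y, x ≠ y → G.Npos k (G.Q k ^ 1000 * (G.rt J k * a) / G.sg l) (G.fd J k (g x * g y))
    ((G.fm univ F W b J k).jt {x, y}) (G.w2 b J k)

/-- the same for the hybrid run -/
def Ph (b : ℝ) (J : ℕ) (b' : ℝ) (J' i l : ℕ) (H : ℕ → Lx × Ac) : Prop := ∀ F g W a r0,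
  G.Tq b' J' l F g W a r0 → ∀ k, l ≤ k → k ≤ i →
  (∀ n, k ≤ n → n ≤ i → G.On univ b J r0 (rd (· = 0) (G.sg l) l) H (G.vh F b J b' J' H i)
    (G.fr univ F b' J') (G.fh univ F W b J b' J' i) n) →
  (∀ n, k < n → n ≤ i → G.Pn (rd (· = 0) (G.sg l) l) (G.fh univ F W b J b' J' i) n) →
  ∀ x y, x ≠ y → G.Sz k (G.Q k ^ 16 / G.sg l) (G.Q k ^ 16 / G.sg l) (G.Q k ^ 100)⁻¹
      ((G.fh univ F W b J b' J' i k).jt {x, y}).1 ((G.fh univ F W b J b' J' i k).jt {x, y}).2 ∧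
    G.Npos k (G.Q k ^ 1000 * (G.rt J' k * a) / G.sg l) (G.fd J' k (g x * g y))
      ((G.fh univ F W b J b' J' i k).jt {x, y}) (G.wh b J b' J' i k)

/-- the hybrid run is close to the short run up to the second order -/
def Hq (c l : ℕ) : Prop := ∀ b b' J', G.Tu b (G.lJ c l) → G.Tu b' J' → G.lJ c l ≤ J' →
  ∃ (γ : ℝ) (H u : ℕ → Lx × Ac), |γ - 1| ≤ (G.Q l)⁻¹ ∧
    G.Hy b (G.lJ c l) b' J' (G.li c l) (G.lk c l) γ (32 / G.Q l ^ pT c)
      (4 / G.Q l ^ pT c * G.bb (G.lk c l)) H u ∧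
    G.Ph b (G.lJ c l) b' J' (G.li c l) l H ∧ ∀ x d,
    x = G.g (G.lk c l) ^ 2 * (1 / G.Q l ^ pT c * G.Q l ^ 2500) →
    d = G.wh b (G.lJ c l) b' J' (G.li c l) (G.lk c l) - (γ : ℂ) ^ 2 • G.w2 b (G.lJ c l) (G.lk c l) →
      G.Sz (G.lk c l) x x (G.Q (G.lk c l) ^ 100)⁻¹ d.1 d.2

variable {G} {c C j k l : ℕ} {X η E E' x : ℝ} {f : St → ℂ} {d d' w w' : Lx × Ac}

namespace Ok

variable (h : G.Ok)
include h

theorem nm_cmp (γ : ℂ) (hf : ∀ y, ‖f y‖ ≤ 1) (s : G.Npos k E f d w) (s' : G.Npos k E' f d' w')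
    (e : G.Sz k x x (G.Q k ^ 100)⁻¹ (w - γ • w').1 (w - γ • w').2) :
    G.Sz k (E + ‖γ‖ * E' + x) (E + ‖γ‖ * E' + x) (G.Q k ^ 100)⁻¹ (d - γ • d').1 (d - γ • d').2 := by
  have r := h.ρ0 k
  have := sz_add r (sz_add r s (sz_smul r s' (-γ))) (sz_mul r e hf)
  rw [norm_neg, one_mul] at this
  rw [Sz, show (d - γ • d').1 = _ from ?_, show (d - γ • d').2 = _ from ?_]
  · exact this
  · ext; simp [mA]; ring
  · ext; simp [mL]; ring

theorem cm3_of (hp : G.Pu) (hB : pB c C * G.K + pB c C ≤ G.Bk l) (w : G.Lw c l j X η) (c3 : 3 ≤ c)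
    (hP : ∀ b J, G.Tu b J → l < J → G.Pz3 b J l ∧ G.Pc b J l) (hq : G.Hq c l) : G.Cm3 c j l := by
  intro b b' J' t t' hJ
  obtain ⟨γ, H, u, e, Y, ph, e2⟩ := hq b b' J' t t' hJ
  refine ⟨γ, e, fun F F' g W a M a0 ha hL hg hF' hF hW geo ss far hV hM => ?_⟩
  have o1 : l ≤ G.lk c l := Nat.le_add_right _ _
  have o2 : G.lk c l < G.li c l := Nat.lt_add_of_pos_right (Nat.mul_pos (by norm_num)
    (Nat.mul_pos (by have := h.K0_le; omega) (Nat.succ_pos _)))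
  have o3 : G.li c l ≤ G.lJ c l := by rw [lJ]; omega
  have jl := (h.le_lf w).trans lf_le
  have big := geo.big.trans (h.L_mono jl)
  have er := h.er3_b hB (h.sg_pos l) le_rfl w big c3 (by omega) a0.le ha le_rfl
  replace e2 := e2 _ _ rfl rfl
  generalize G.lk c l = k at *
  generalize G.li c l = i at *
  generalize G.lJ c l = J at *
  have σ0 := h.sg_pos l
  have τ : ∀ n : ℕ, (1.01 : ℝ) ^ n * (10 ^ 37 * 0) ≤ 1 := fun _ => by simp
  have rt : ∀ n ≤ J, G.rt J n * (G.rt J' J * a) = G.rt J' n * a := fun n e => by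
    rw [← mul_assoc, ← Nat.cast_mul, h.rt_mul e hJ]
  have run : ∀ {b J} {a : ℝ} {F : Fin 3 → Sr} {g W}, G.Tu b J → l < J → 0 < a → G.rt J l * a ≤ 4 →
      (∀ x, G.Pf J a 0 (F x) (g x)) → (∀ x y, rc (G.N J) y ∉ W x → F x y = 0) →
      G.Geo3 univ (· = 0) (fun _ => ()) c W J l j → G.Ss (· = 0) W 3 J l →
      G.FA F W b J l j (G.sg l) ∧ G.Tq b J l F g W a fun _ => G.sg l / 2 ^ (l - j) :=
    fun t lJ a0 ha P o geo ss =>
      have R := h.run3 t (h.tv_all hp t) (fun x _ => P x) a0 (τ _) le_rfl ha σ0 (h.sg_pw l) hp lJ.le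
        jl o geo (h.j2_of geo ss jl le_rfl σ0 (fun _ => fm_Z) fun k a1 a2 o' q x y e =>
          (hP _ _ t lJ).1 _ _ _ _ c _ _ _ _ _ _ _ a0 le_rfl (fun x _ => P x) (τ _) ha o
            (fun _ => rd_top) (fun n a => geo.grp n (jl.trans a)) geo.card big k a1 a2 o' q x
            (mem_univ _) y (mem_univ _) e)
      ⟨R, a0, P, ha, o, fun n a b => ⟨R.on n (jl.trans a) b, R.pu n (jl.trans a) b⟩⟩
  have nr : ∀ {g : St → ℂ} x (μ ν : Fin 4), ‖g x - g x‖ ≤ 0 := by simp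
  have P' : ∀ v, G.Pf J' a 0 (symF (F' v)) (g v) := fun v => ⟨hL v, hg v, by rw [hF' v]; exact nr⟩
  have o' : ∀ v z, rc (G.N J') z ∉ W v → symF (F' v) z = 0 :=
    fun v z e => symF_out (h.N_odd J') fun u => e (hW v u)
  obtain ⟨A', T'⟩ := run t' (by omega) a0 ha P' o' geo ss
  obtain ⟨A, T⟩ := run (F := fun v => symF (F v)) (g := fun v => G.fd J' J (g v)) t (by omega)
    (mul_pos (rt_pos J' J) a0) (by rwa [rt l (by omega)])
    (fun v => ⟨h.fd_lip (hL v) J hJ, fun _ => hg v _, by rw [hF v]; exact nr⟩) (fun v z e => by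
      have := o' v _ fun u => e (h.mem_zs J hJ z u)
      rw [hF' v] at this
      rw [hF v]
      exact this) (geo.down hJ (by omega)) fun n a b => by
        simpa only [zs_zs hJ b] using ss n a (by omega)
  have B := h.hyb3 t' (h.tv_all hp t') (fun x _ => P' x) a0 (τ _) le_rfl ha σ0 (h.sg_pw l) hp t Y o3
    (by omega) (by omega) jl geo (A'.on i (by omega) (by omega)) (h.j2_of geo ss jl (by omega) σ0
      (fun n e => by
        rw [fh, fw_Z n e, Fy.hy, fm_Z (by omega)]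
        simp only [zs_zs (show i ≤ J' by omega) e])
      fun k a1 a2 o q x y e => (ph _ _ _ _ _ T' k a1 a2 o q x y e).1)
  have q0 : 0 ≤ G.Q k ^ 1000 * (G.rt J' k * a) / G.sg l := by have := h.Q0 k; positivity
  refine h.cmp_core3 hp t t' (h.tv_all hp t) (h.tv_all hp t') (h.le_lf w) lf_le o1 o2 o3 hJ Y a0 hL
    hg hF' hF σ0 A A' B c3 (h.lf_big hB big) ss (by linarith [h.L1 l]) far hV hM
    (add_nonneg (mul_nonneg (by norm_num) q0) (h.sz_nn e2).1) (fun v e => ?_) er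
  have a1 := (hP _ _ t (by omega)).2 _ _ _ _ _ T k o1 (by omega) 0 v e.symm
  rw [rt k (by omega), show G.fd J' J (g 0) * G.fd J' J (g v) = G.fd J' J (g 0 * g v) from rfl,
    h.fd_comp (by omega) hJ] at a1
  have a2 := h.nm_cmp ((γ : ℂ) ^ 2) (fun y => norm_mul_le_of_le (hg 0 _) (hg v _) |>.trans_eq
    (one_mul _)) (ph _ _ _ _ _ T' k o1 o2.le (fun n a b => B.on n (by omega) b)
      (fun n a b => B.pu n (by omega) b) 0 v e.symm).2 a1 e2
  have γ2 : ‖(γ : ℂ) ^ 2‖ ≤ 4 := by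
    rw [norm_pow, Complex.norm_real, norm_eq_abs, sq_abs]
    nlinarith [abs_le.1 Y.one]
  have := mul_le_mul_of_nonneg_right γ2 q0
  exact h.sz_le a2 (inv_pos.2 (pow_pos (h.Q0 k) _)).le (by linarith) (by linarith) le_rfl

end Ok

end Pool.Agent.Lib.MP_7f377f_mp.RG.Q4.En.Gl
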