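import Pool.Agent.Lib.MP_7f377f_mp.G.S23R5

/-! The hybrid run is close to the short run up to the second order, at high levels. -/

noncomputable section

set_option linter.unusedSectionVars false
variable [Pool.Agent.Lib.MP_7f377f_mp.GD]

namespace Pool.Agent.Lib.MP_7f377f_mp.RG.Q4.En.Gl

open Filter

theorem hq_ev {G : Gl} (o : G.Oks) (a : AfU G.c G.Kt G.K0) (c : ℕ) :
    ∀ᶠ l in atTop, ∀ m, (G.wm m).Hq c l := by
  filter_upwards [hy_pack3 o a c, w1 o a] with l p w m b b' J' t t' hJ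
  obtain ⟨γ, e, Y, q⟩ := p m b b' J' t t' hJ
  obtain ⟨u, s⟩ := q _ _ (fun _ => rfl) fun _ => rfl
  have o3 : (G.wm m).li c l ≤ (G.wm m).lJ c l := by rw [lJ]; omega
  exact ⟨γ, _, _, e, Y, (o m).1.ph_of t t' o3 (o3.trans hJ) (w m _ _ t') u _,
    fun x d hx hd => by rw [hx, hd]; exact s⟩

end Pool.Agent.Lib.MP_7f377f_mp.RG.Q4.En.Gl
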